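import Pool.Agent.Lib.MP_6947cd_al.ZB.Pre

/-!
Problem MP_6947cd_al (Chollet).  Case B, second entry in [2/5, 17/20]: certificates of the tree, part P029 (generated).
-/

set_option autoImplicit false
set_option linter.all false

namespace Pool.Agent.Lib.MP_6947cd_al
namespace B2

open Ent Fr B1 PkA

noncomputable def p029_k0 : C1.Kn := ⟨[nat_lit 80, nat_lit 120], [nat_lit 0, nat_lit 0], [(nat_lit 0, nat_lit 0, nat_lit 0), (nat_lit 0, nat_lit 0, nat_lit 0)], (nat_lit 100, nat_lit 100, nat_lit 40)⟩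
noncomputable def p029_k1 : C1.Kn := ⟨[nat_lit 80, nat_lit 100, nat_lit 120], [nat_lit 0, nat_lit 265, nat_lit 768], [(nat_lit 0, nat_lit 0, nat_lit 0), (nat_lit 1000, nat_lit 959, nat_lit 206), (nat_lit 1000, nat_lit 958, nat_lit 392)], (nat_lit 96, nat_lit 100, nat_lit 44)⟩
noncomputable def p029_k2 : C1.Kn := ⟨[nat_lit 80, nat_lit 120, nat_lit 140], [nat_lit 0, nat_lit 528, nat_lit 1572], [(nat_lit 0, nat_lit 0, nat_lit 0), (nat_lit 1000, nat_lit 959, nat_lit 206), (nat_lit 966, nat_lit 1000, nat_lit 679)], (nat_lit 99, nat_lit 100, nat_lit 56)⟩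
noncomputable def p029_k3 : C1.Kn := ⟨[nat_lit 80, nat_lit 140], [nat_lit 0, nat_lit 792], [(nat_lit 0, nat_lit 0, nat_lit 0), (nat_lit 1000, nat_lit 959, nat_lit 206)], (nat_lit 99, nat_lit 100, nat_lit 56)⟩
noncomputable def p029_k4 : C1.Kn := ⟨[nat_lit 120, nat_lit 160], [nat_lit 0, nat_lit 797], [(nat_lit 0, nat_lit 0, nat_lit 0), (nat_lit 942, nat_lit 1000, nat_lit 293)], (nat_lit 100, nat_lit 90, nat_lit 39)⟩
noncomputable def p029_k5 : C1.Kn := ⟨[nat_lit 80, nat_lit 100, nat_lit 140], [nat_lit 0, nat_lit 0, nat_lit 1022], [(nat_lit 0, nat_lit 0, nat_lit 0), (nat_lit 0, nat_lit 0, nat_lit 0), (nat_lit 1000, nat_lit 1000, nat_lit 399)], (nat_lit 100, nat_lit 95, nat_lit 55)⟩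
noncomputable def p029_k6 : C1.Kn := ⟨[nat_lit 120, nat_lit 140, nat_lit 180], [nat_lit 0, nat_lit 0, nat_lit 1219], [(nat_lit 0, nat_lit 0, nat_lit 0), (nat_lit 0, nat_lit 0, nat_lit 0), (nat_lit 840, nat_lit 1000, nat_lit 400)], (nat_lit 100, nat_lit 73, nat_lit 55)⟩
noncomputable def p029_k7 : C1.Kn := ⟨[nat_lit 80, nat_lit 100, nat_lit 140], [nat_lit 0, nat_lit 265, nat_lit 1269], [(nat_lit 0, nat_lit 0, nat_lit 0), (nat_lit 1000, nat_lit 959, nat_lit 206), (nat_lit 1000, nat_lit 958, nat_lit 392)], (nat_lit 99, nat_lit 100, nat_lit 56)⟩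
noncomputable def p029_k8 : C1.Kn := ⟨[nat_lit 80, nat_lit 140], [nat_lit 0, nat_lit 1192], [(nat_lit 0, nat_lit 0, nat_lit 0), (nat_lit 1000, nat_lit 938, nat_lit 310)], (nat_lit 96, nat_lit 100, nat_lit 56)⟩
noncomputable def p029_k9 : C1.Kn := ⟨[nat_lit 80, nat_lit 100], [nat_lit 0, nat_lit 0], [(nat_lit 0, nat_lit 0, nat_lit 0), (nat_lit 0, nat_lit 0, nat_lit 0)], (nat_lit 98, nat_lit 100, nat_lit 20)⟩
noncomputable def p029_k10 : C1.Kn := ⟨[nat_lit 80, nat_lit 120], [nat_lit 0, nat_lit 0], [(nat_lit 0, nat_lit 0, nat_lit 0), (nat_lit 0, nat_lit 0, nat_lit 0)], (nat_lit 98, nat_lit 100, nat_lit 28)⟩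
noncomputable def p029_k11 : C1.Kn := ⟨[nat_lit 80, nat_lit 120], [nat_lit 0, nat_lit 264], [(nat_lit 0, nat_lit 0, nat_lit 0), (nat_lit 1000, nat_lit 979, nat_lit 103)], (nat_lit 97, nat_lit 100, nat_lit 28)⟩
noncomputable def p029_k12 : C1.Kn := ⟨[nat_lit 120, nat_lit 160], [nat_lit 0, nat_lit 0], [(nat_lit 0, nat_lit 0, nat_lit 0), (nat_lit 0, nat_lit 0, nat_lit 0)], (nat_lit 100, nat_lit 90, nat_lit 29)⟩
noncomputable def p029_k13 : C1.Kn := ⟨[nat_lit 80, nat_lit 120], [nat_lit 0, nat_lit 264], [(nat_lit 0, nat_lit 0, nat_lit 0), (nat_lit 1000, nat_lit 979, nat_lit 103)], (nat_lit 99, nat_lit 100, nat_lit 44)⟩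
noncomputable def p029_k14 : C1.Kn := ⟨[nat_lit 80, nat_lit 120], [nat_lit 0, nat_lit 395], [(nat_lit 0, nat_lit 0, nat_lit 0), (nat_lit 1000, nat_lit 969, nat_lit 154)], (nat_lit 98, nat_lit 100, nat_lit 44)⟩
noncomputable def p029_k15 : C1.Kn := ⟨[nat_lit 120, nat_lit 180], [nat_lit 0, nat_lit 0], [(nat_lit 0, nat_lit 0, nat_lit 0), (nat_lit 0, nat_lit 0, nat_lit 0)], (nat_lit 100, nat_lit 81, nat_lit 44)⟩
noncomputable def p029_k16 : C1.Kn := ⟨[nat_lit 80, nat_lit 120], [nat_lit 0, nat_lit 528], [(nat_lit 0, nat_lit 0, nat_lit 0), (nat_lit 1000, nat_lit 959, nat_lit 206)], (nat_lit 96, nat_lit 100, nat_lit 44)⟩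
noncomputable def p029_k17 : C1.Kn := ⟨[nat_lit 80, nat_lit 120], [nat_lit 0, nat_lit 796], [(nat_lit 0, nat_lit 0, nat_lit 0), (nat_lit 1000, nat_lit 938, nat_lit 310)], (nat_lit 94, nat_lit 100, nat_lit 44)⟩
noncomputable def p029_k18 : C1.Kn := ⟨[nat_lit 80, nat_lit 140], [nat_lit 0, nat_lit 0], [(nat_lit 0, nat_lit 0, nat_lit 0), (nat_lit 0, nat_lit 0, nat_lit 0)], (nat_lit 100, nat_lit 95, nat_lit 55)⟩
noncomputable def p029_k19 : C1.Kn := ⟨[nat_lit 80, nat_lit 100, nat_lit 140], [nat_lit 0, nat_lit 399, nat_lit 1395], [(nat_lit 0, nat_lit 0, nat_lit 0), (nat_lit 1000, nat_lit 938, nat_lit 310), (nat_lit 1000, nat_lit 938, nat_lit 389)], (nat_lit 96, nat_lit 100, nat_lit 56)⟩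
noncomputable def p029_k20 : C1.Kn := ⟨[nat_lit 80, nat_lit 100, nat_lit 120], [nat_lit 0, nat_lit 0, nat_lit 511], [(nat_lit 0, nat_lit 0, nat_lit 0), (nat_lit 0, nat_lit 0, nat_lit 0), (nat_lit 1000, nat_lit 997, nat_lit 383)], (nat_lit 100, nat_lit 100, nat_lit 40)⟩
noncomputable def p029_k21 : C1.Kn := ⟨[nat_lit 120, nat_lit 140, nat_lit 160], [nat_lit 0, nat_lit 0, nat_lit 609], [(nat_lit 0, nat_lit 0, nat_lit 0), (nat_lit 0, nat_lit 0, nat_lit 0), (nat_lit 840, nat_lit 1000, nat_lit 400)], (nat_lit 100, nat_lit 84, nat_lit 40)⟩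
noncomputable def p029_k22 : C1.Kn := ⟨[nat_lit 80, nat_lit 100, nat_lit 120], [nat_lit 0, nat_lit 132, nat_lit 640], [(nat_lit 0, nat_lit 0, nat_lit 0), (nat_lit 1000, nat_lit 979, nat_lit 103), (nat_lit 1000, nat_lit 979, nat_lit 397)], (nat_lit 98, nat_lit 100, nat_lit 40)⟩
noncomputable def p029_k23 : C1.Kn := ⟨[nat_lit 80, nat_lit 140], [nat_lit 0, nat_lit 792], [(nat_lit 0, nat_lit 0, nat_lit 0), (nat_lit 1000, nat_lit 959, nat_lit 206)], (nat_lit 100, nat_lit 99, nat_lit 63)⟩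
noncomputable def p029_k24 : C1.Kn := ⟨[nat_lit 80, nat_lit 160], [nat_lit 0, nat_lit 0], [(nat_lit 0, nat_lit 0, nat_lit 0), (nat_lit 0, nat_lit 0, nat_lit 0)], (nat_lit 100, nat_lit 92, nat_lit 61)⟩
noncomputable def p029_k25 : C1.Kn := ⟨[nat_lit 100, nat_lit 160], [nat_lit 0, nat_lit 0], [(nat_lit 0, nat_lit 0, nat_lit 0), (nat_lit 0, nat_lit 0, nat_lit 0)], (nat_lit 100, nat_lit 80, nat_lit 60)⟩
noncomputable def p029_k26 : C1.Kn := ⟨[nat_lit 80, nat_lit 120, nat_lit 160], [nat_lit 0, nat_lit 0, nat_lit 2132], [(nat_lit 0, nat_lit 0, nat_lit 0), (nat_lit 0, nat_lit 0, nat_lit 0), (nat_lit 858, nat_lit 1000, nat_lit 713)], (nat_lit 100, nat_lit 92, nat_lit 61)⟩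
noncomputable def p029_k27 : C1.Kn := ⟨[nat_lit 80, nat_lit 100, nat_lit 120], [nat_lit 0, nat_lit 0, nat_lit 511], [(nat_lit 0, nat_lit 0, nat_lit 0), (nat_lit 0, nat_lit 0, nat_lit 0), (nat_lit 1000, nat_lit 997, nat_lit 383)], (nat_lit 98, nat_lit 100, nat_lit 28)⟩
noncomputable def p029_k28 : C1.Kn := ⟨[nat_lit 100, nat_lit 120], [nat_lit 0, nat_lit 254], [(nat_lit 0, nat_lit 0, nat_lit 0), (nat_lit 1000, nat_lit 1000, nat_lit 198)], (nat_lit 100, nat_lit 99, nat_lit 28)⟩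
noncomputable def p029_k29 : C1.Kn := ⟨[nat_lit 80, nat_lit 140], [nat_lit 0, nat_lit 0], [(nat_lit 0, nat_lit 0, nat_lit 0), (nat_lit 0, nat_lit 0, nat_lit 0)], (nat_lit 100, nat_lit 99, nat_lit 44)⟩
noncomputable def p029_k30 : C1.Kn := ⟨[nat_lit 80, nat_lit 100, nat_lit 140], [nat_lit 0, nat_lit 0, nat_lit 1022], [(nat_lit 0, nat_lit 0, nat_lit 0), (nat_lit 0, nat_lit 0, nat_lit 0), (nat_lit 1000, nat_lit 1000, nat_lit 399)], (nat_lit 100, nat_lit 99, nat_lit 44)⟩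
noncomputable def p029_k31 : C1.Kn := ⟨[nat_lit 80, nat_lit 120, nat_lit 140], [nat_lit 0, nat_lit 0, nat_lit 1164], [(nat_lit 0, nat_lit 0, nat_lit 0), (nat_lit 0, nat_lit 0, nat_lit 0), (nat_lit 941, nat_lit 1000, nat_lit 576)], (nat_lit 100, nat_lit 99, nat_lit 44)⟩
noncomputable def p029_k32 : C1.Kn := ⟨[nat_lit 80, nat_lit 100, nat_lit 160], [nat_lit 0, nat_lit 0, nat_lit 1533], [(nat_lit 0, nat_lit 0, nat_lit 0), (nat_lit 0, nat_lit 0, nat_lit 0), (nat_lit 1000, nat_lit 1000, nat_lit 399)], (nat_lit 100, nat_lit 92, nat_lit 61)⟩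
noncomputable def p029_k33 : C1.Kn := ⟨[nat_lit 80, nat_lit 140, nat_lit 160], [nat_lit 0, nat_lit 0, nat_lit 2151], [(nat_lit 0, nat_lit 0, nat_lit 0), (nat_lit 0, nat_lit 0, nat_lit 0), (nat_lit 823, nat_lit 1000, nat_lit 757)], (nat_lit 100, nat_lit 92, nat_lit 61)⟩
noncomputable def p029_k34 : C1.Kn := ⟨[nat_lit 80, nat_lit 100, nat_lit 120], [nat_lit 0, nat_lit 132, nat_lit 640], [(nat_lit 0, nat_lit 0, nat_lit 0), (nat_lit 1000, nat_lit 979, nat_lit 103), (nat_lit 1000, nat_lit 979, nat_lit 397)], (nat_lit 97, nat_lit 100, nat_lit 28)⟩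
noncomputable def p029_k35 : C1.Kn := ⟨[nat_lit 100, nat_lit 120, nat_lit 160], [nat_lit 0, nat_lit 0, nat_lit 1063], [(nat_lit 0, nat_lit 0, nat_lit 0), (nat_lit 0, nat_lit 0, nat_lit 0), (nat_lit 924, nat_lit 1000, nat_lit 383)], (nat_lit 100, nat_lit 80, nat_lit 60)⟩
noncomputable def p029_k36 : C1.Kn := ⟨[nat_lit 100, nat_lit 120, nat_lit 160], [nat_lit 0, nat_lit 0, nat_lit 1063], [(nat_lit 0, nat_lit 0, nat_lit 0), (nat_lit 0, nat_lit 0, nat_lit 0), (nat_lit 924, nat_lit 1000, nat_lit 383)], (nat_lit 100, nat_lit 84, nat_lit 54)⟩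
noncomputable def p029_k37 : C1.Kn := ⟨[nat_lit 80, nat_lit 100, nat_lit 140], [nat_lit 0, nat_lit 265, nat_lit 1269], [(nat_lit 0, nat_lit 0, nat_lit 0), (nat_lit 1000, nat_lit 959, nat_lit 206), (nat_lit 1000, nat_lit 958, nat_lit 392)], (nat_lit 100, nat_lit 99, nat_lit 63)⟩
noncomputable def p029_k38 : C1.Kn := ⟨[nat_lit 100, nat_lit 120, nat_lit 160], [nat_lit 0, nat_lit 128, nat_lit 1183], [(nat_lit 0, nat_lit 0, nat_lit 0), (nat_lit 1000, nat_lit 1000, nat_lit 100), (nat_lit 941, nat_lit 1000, nat_lit 388)], (nat_lit 100, nat_lit 83, nat_lit 60)⟩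
noncomputable def p029_k39 : C1.Kn := ⟨[nat_lit 100, nat_lit 120, nat_lit 160], [nat_lit 0, nat_lit 254, nat_lit 1301], [(nat_lit 0, nat_lit 0, nat_lit 0), (nat_lit 1000, nat_lit 1000, nat_lit 198), (nat_lit 960, nat_lit 1000, nat_lit 392)], (nat_lit 100, nat_lit 86, nat_lit 60)⟩
noncomputable def p029_k40 : C1.Kn := ⟨[nat_lit 100, nat_lit 120], [nat_lit 0, nat_lit 383], [(nat_lit 0, nat_lit 0, nat_lit 0), (nat_lit 1000, nat_lit 1000, nat_lit 299)], (nat_lit 100, nat_lit 100, nat_lit 28)⟩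
noncomputable def p029_k41 : C1.Kn := ⟨[nat_lit 90, nat_lit 110, nat_lit 120], [nat_lit 0, nat_lit 129, nat_lit 392], [(nat_lit 0, nat_lit 0, nat_lit 0), (nat_lit 1000, nat_lit 990, nat_lit 101), (nat_lit 993, nat_lit 1000, nat_lit 341)], (nat_lit 100, nat_lit 100, nat_lit 28)⟩
noncomputable def p029_k42 : C1.Kn := ⟨[nat_lit 80, nat_lit 100, nat_lit 120], [nat_lit 0, nat_lit 65, nat_lit 576], [(nat_lit 0, nat_lit 0, nat_lit 0), (nat_lit 1000, nat_lit 990, nat_lit 51), (nat_lit 1000, nat_lit 990, nat_lit 399)], (nat_lit 98, nat_lit 100, nat_lit 28)⟩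
noncomputable def p029_k43 : C1.Kn := ⟨[nat_lit 80, nat_lit 100, nat_lit 140], [nat_lit 0, nat_lit 65, nat_lit 1086], [(nat_lit 0, nat_lit 0, nat_lit 0), (nat_lit 1000, nat_lit 990, nat_lit 51), (nat_lit 1000, nat_lit 990, nat_lit 399)], (nat_lit 100, nat_lit 100, nat_lit 45)⟩
noncomputable def p029_k44 : C1.Kn := ⟨[nat_lit 80, nat_lit 100, nat_lit 120], [nat_lit 0, nat_lit 132, nat_lit 640], [(nat_lit 0, nat_lit 0, nat_lit 0), (nat_lit 1000, nat_lit 979, nat_lit 103), (nat_lit 1000, nat_lit 979, nat_lit 397)], (nat_lit 99, nat_lit 100, nat_lit 44)⟩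
noncomputable def p029_k45 : C1.Kn := ⟨[nat_lit 80, nat_lit 100, nat_lit 140], [nat_lit 0, nat_lit 0, nat_lit 1022], [(nat_lit 0, nat_lit 0, nat_lit 0), (nat_lit 0, nat_lit 0, nat_lit 0), (nat_lit 1000, nat_lit 1000, nat_lit 399)], (nat_lit 100, nat_lit 98, nat_lit 48)⟩
noncomputable def p029_k46 : C1.Kn := ⟨[nat_lit 80, nat_lit 100, nat_lit 140], [nat_lit 0, nat_lit 132, nat_lit 1148], [(nat_lit 0, nat_lit 0, nat_lit 0), (nat_lit 1000, nat_lit 979, nat_lit 103), (nat_lit 1000, nat_lit 979, nat_lit 397)], (nat_lit 100, nat_lit 98, nat_lit 56)⟩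
noncomputable def p029_k47 : C1.Kn := ⟨[nat_lit 80, nat_lit 100, nat_lit 120], [nat_lit 0, nat_lit 198, nat_lit 704], [(nat_lit 0, nat_lit 0, nat_lit 0), (nat_lit 1000, nat_lit 969, nat_lit 154), (nat_lit 1000, nat_lit 969, nat_lit 395)], (nat_lit 98, nat_lit 100, nat_lit 44)⟩
noncomputable def p029_l0 : Lf2 := ⟨nat_lit 0, nat_lit 4, [nat_lit 38, nat_lit 5, nat_lit 5, nat_lit 20], true, nat_lit 160, nat_lit 200, nat_lit 0, nat_lit 352, ⟨nat_lit 0, nat_lit 0, nat_lit 1000, nat_lit 4, nat_lit 63, nat_lit 1000, nat_lit 111, nat_lit 1000, nat_lit 114817, nat_lit 298, nat_lit 36817, nat_lit 262, nat_lit 59712503, nat_lit 0, nat_lit 0, nat_lit 2155306, false, false⟩,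
 nat_lit 0, nat_lit 8822, nat_lit 0, nat_lit 0, nat_lit 4670, nat_lit 0, nat_lit 0, nat_lit 0, nat_lit 0, nat_lit 0, nat_lit 0, nat_lit 0, nat_lit 0, nat_lit 0, nat_lit 80, nat_lit 1000000, nat_lit 0, nat_lit 0, [(nat_lit 6, [(nat_lit 6, nat_lit 1000)])],
 ⟨p029_k0, nat_lit 0, nat_lit 0, nat_lit 200, nat_lit 0, nat_lit 140133, [nat_lit 2814000001, nat_lit 141466667], [], [nat_lit 12214768748, nat_lit 13385535408, nat_lit 13593975228, nat_lit 11629281522, nat_lit 15005617288, nat_lit 15019406980, nat_lit 16740850188, nat_lit 14446376448], nat_lit 1271250, nat_lit 1271250, nat_lit 0, nat_lit 490000, nat_lit 1100001, nat_lit 1442500, [nat_lit 1100000, nat_lit 1785000], [nat_lit 39, nat_lit 40, nat_lit 20, nat_lit 80, nat_lit 7, nat_lit 289, nat_lit 75, nat_lit 9]⟩, C1.Rw.none,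
 ⟨nat_lit 5916, nat_lit 6325, ⟨.ofNat (nat_lit 45942), .ofNat (nat_lit 210470), .ofNat (nat_lit 88677), .ofNat (nat_lit 253206), .ofNat (nat_lit 64652), .ofNat (nat_lit 221719), .ofNat (nat_lit 107331), .ofNat (nat_lit 264398)⟩, ⟨.ofNat (nat_lit 225423), .ofNat (nat_lit 307688), .ofNat (nat_lit 246791), .ofNat (nat_lit 329055), .ofNat (nat_lit 229411), .ofNat (nat_lit 307945), .ofNat (nat_lit 250751), .ofNat (nat_lit 329284)⟩⟩, []⟩
noncomputable def p029_l1 : Lf2 := ⟨nat_lit 0, nat_lit 4, [nat_lit 38, nat_lit 5, nat_lit 5, nat_lit 20], true, nat_lit 200, nat_lit 240, nat_lit 0, nat_lit 352, ⟨nat_lit 0, nat_lit 0, nat_lit 1000, nat_lit 4, nat_lit 63, nat_lit 1000, nat_lit 143, nat_lit 1000, nat_lit 194400, nat_lit 323, nat_lit 36817, nat_lit 262, nat_lit 56918206, nat_lit 0, nat_lit 0, nat_lit 2640069, false, false⟩,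
 nat_lit 0, nat_lit 8317, nat_lit 0, nat_lit 0, nat_lit 4403, nat_lit 0, nat_lit 0, nat_lit 0, nat_lit 0, nat_lit 0, nat_lit 0, nat_lit 0, nat_lit 0, nat_lit 0, nat_lit 69, nat_lit 824800, nat_lit 0, nat_lit 0, [(nat_lit 6, [(nat_lit 5, nat_lit 292), (nat_lit 6, nat_lit 708)])],
 ⟨p029_k0, nat_lit 0, nat_lit 0, nat_lit 180, nat_lit 0, nat_lit 140133, [nat_lit 2604011201, nat_lit 94831467], [], [nat_lit 14247004124, nat_lit 15317870843, nat_lit 13534745236, nat_lit 13739091557, nat_lit 15841501874, nat_lit 16981297068, nat_lit 14252360334, nat_lit 15326984344], nat_lit 1271250, nat_lit 1271250, nat_lit 0, nat_lit 490000, nat_lit 1271250, nat_lit 1271250, [nat_lit 1100000, nat_lit 1785000], [nat_lit 39, nat_lit 40, nat_lit 20, nat_lit 80, nat_lit 7, nat_lit 317, nat_lit 100, nat_lit 10]⟩, C1.Rw.none,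
 ⟨nat_lit 5916, nat_lit 6325, ⟨.ofNat (nat_lit 45942), .ofNat (nat_lit 210470), .ofNat (nat_lit 88677), .ofNat (nat_lit 253206), .ofNat (nat_lit 64652), .ofNat (nat_lit 221719), .ofNat (nat_lit 107331), .ofNat (nat_lit 264398)⟩, ⟨.ofNat (nat_lit 307688), .ofNat (nat_lit 389952), .ofNat (nat_lit 329055), .ofNat (nat_lit 411320), .ofNat (nat_lit 307945), .ofNat (nat_lit 386479), .ofNat (nat_lit 329284), .ofNat (nat_lit 407818)⟩⟩, [⟨nat_lit 0, nat_lit 100, nat_lit 95, nat_lit 30, nat_lit 166998668⟩, ⟨nat_lit 4, nat_lit 99, nat_lit 100, nat_lit 54, nat_lit 290141197⟩]⟩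
noncomputable def p029_l2 : Lf2 := ⟨nat_lit 0, nat_lit 4, [nat_lit 38, nat_lit 5, nat_lit 5, nat_lit 20], true, nat_lit 240, nat_lit 288, nat_lit 0, nat_lit 336, ⟨nat_lit 0, nat_lit 0, nat_lit 1000, nat_lit 4, nat_lit 63, nat_lit 1000, nat_lit 179, nat_lit 1000, nat_lit 29345, nat_lit 255, nat_lit 36817, nat_lit 262, nat_lit 53530550, nat_lit 0, nat_lit 0, nat_lit 3103387, false, false⟩,
 nat_lit 0, nat_lit 8585, nat_lit 0, nat_lit 2154, nat_lit 4545, nat_lit 0, nat_lit 0, nat_lit 0, nat_lit 0, nat_lit 0, nat_lit 0, nat_lit 0, nat_lit 0, nat_lit 0, nat_lit 65, nat_lit 767800, nat_lit 0, nat_lit 0, [(nat_lit 6, [(nat_lit 5, nat_lit 387), (nat_lit 6, nat_lit 613)])],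
 ⟨p029_k0, nat_lit 0, nat_lit 0, nat_lit 171, nat_lit 0, nat_lit 140133, [nat_lit 2528953201, nat_lit 69549467], [], [nat_lit 15616130482, nat_lit 17102669730, nat_lit 13931681382, nat_lit 15021452532, nat_lit 19564317633, nat_lit 20935632066, nat_lit 16693866547, nat_lit 17685463832], nat_lit 1271250, nat_lit 1271250, nat_lit 0, nat_lit 490000, nat_lit 1271250, nat_lit 1271250, [nat_lit 1100000, nat_lit 1785000], [nat_lit 39, nat_lit 40, nat_lit 20, nat_lit 80, nat_lit 7, nat_lit 226, nat_lit 20, nat_lit 7]⟩, C1.Rw.none,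
 ⟨nat_lit 5916, nat_lit 6325, ⟨.ofNat (nat_lit 45942), .ofNat (nat_lit 210470), .ofNat (nat_lit 88677), .ofNat (nat_lit 253206), .ofNat (nat_lit 64652), .ofNat (nat_lit 221719), .ofNat (nat_lit 107331), .ofNat (nat_lit 264398)⟩, ⟨.ofNat (nat_lit 389952), .ofNat (nat_lit 488669), .ofNat (nat_lit 411320), .ofNat (nat_lit 510037), .ofNat (nat_lit 386479), .ofNat (nat_lit 480719), .ofNat (nat_lit 407818), .ofNat (nat_lit 502058)⟩⟩, [⟨nat_lit 0, nat_lit 100, nat_lit 95, nat_lit 30, nat_lit 214997449⟩, ⟨nat_lit 4, nat_lit 99, nat_lit 100, nat_lit 54, nat_lit 708123964⟩]⟩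
noncomputable def p029_l3 : Lf2 := ⟨nat_lit 1, nat_lit 8, [nat_lit 50, nat_lit 5, nat_lit 5, nat_lit 20], false, nat_lit 160, nat_lit 288, nat_lit 0, nat_lit 352, zbN0,
 nat_lit 0, nat_lit 0, nat_lit 0, nat_lit 0, nat_lit 0, nat_lit 0, nat_lit 0, nat_lit 0, nat_lit 0, nat_lit 0, nat_lit 0, nat_lit 0, nat_lit 0, nat_lit 0, nat_lit 0, nat_lit 0, nat_lit 0, nat_lit 0, [],
 C1.Rw.none, C1.Rw.none,
 zbF0, []⟩
noncomputable def p029_l4 : Lf2 := ⟨nat_lit 0, nat_lit 5, [nat_lit 4, nat_lit 5, nat_lit 5, nat_lit 20], true, nat_lit 160, nat_lit 240, nat_lit 0, nat_lit 352, ⟨nat_lit 0, nat_lit 0, nat_lit 1000, nat_lit 4, nat_lit 64, nat_lit 1000, nat_lit 127, nat_lit 1000, nat_lit 153600, nat_lit 311, nat_lit 38400, nat_lit 263, nat_lit 58261514, nat_lit 0, nat_lit 0, nat_lit 2429448, false, false⟩,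
 nat_lit 0, nat_lit 7623, nat_lit 0, nat_lit 0, nat_lit 4437, nat_lit 0, nat_lit 351, nat_lit 0, nat_lit 0, nat_lit 0, nat_lit 0, nat_lit 0, nat_lit 0, nat_lit 0, nat_lit 117, nat_lit 1000000, nat_lit 0, nat_lit 0, [(nat_lit 9, [(nat_lit 6, nat_lit 1000)])],
 ⟨p029_k1, nat_lit 0, nat_lit 0, nat_lit 197, nat_lit 0, nat_lit 212504, [nat_lit 2969600000, nat_lit 1600000000, nat_lit 226400000], [], [nat_lit 19825505207, nat_lit 17514813221, nat_lit 11488650575, nat_lit 12541930000, nat_lit 17010114378, nat_lit 18578721508, nat_lit 15113314615, nat_lit 15532552608], nat_lit 1271250, nat_lit 1271250, nat_lit 0, nat_lit 490000, nat_lit 1100001, nat_lit 1785000, [nat_lit 1100000, nat_lit 1442500, nat_lit 1271250], [nat_lit 9, nat_lit 40, nat_lit 20, nat_lit 80, nat_lit 2, nat_lit 317, nat_lit 100, nat_lit 10]⟩, C1.Rw.none,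
 ⟨nat_lit 5477, nat_lit 5917, ⟨.ofNat (nat_lit 64652), .ofNat (nat_lit 221719), .ofNat (nat_lit 85991), .ofNat (nat_lit 243059), .ofNat (nat_lit 82619), .ofNat (nat_lit 232485), .ofNat (nat_lit 103976), .ofNat (nat_lit 253842)⟩, ⟨.ofNat (nat_lit 229411), .ofNat (nat_lit 386479), .ofNat (nat_lit 250751), .ofNat (nat_lit 407818), .ofNat (nat_lit 232852), .ofNat (nat_lit 382718), .ofNat (nat_lit 254209), .ofNat (nat_lit 404075)⟩⟩, [⟨nat_lit 0, nat_lit 100, nat_lit 95, nat_lit 21, nat_lit 414970685⟩]⟩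
noncomputable def p029_l5 : Lf2 := ⟨nat_lit 0, nat_lit 5, [nat_lit 4, nat_lit 5, nat_lit 5, nat_lit 20], true, nat_lit 160, nat_lit 240, nat_lit 0, nat_lit 336, ⟨nat_lit 0, nat_lit 0, nat_lit 1000, nat_lit 4, nat_lit 74, nat_lit 1000, nat_lit 127, nat_lit 1000, nat_lit 153600, nat_lit 311, nat_lit 52267, nat_lit 271, nat_lit 57637717, nat_lit 0, nat_lit 0, nat_lit 2588547, false, false⟩,
 nat_lit 0, nat_lit 7623, nat_lit 0, nat_lit 0, nat_lit 4437, nat_lit 0, nat_lit 425, nat_lit 0, nat_lit 0, nat_lit 0, nat_lit 0, nat_lit 0, nat_lit 0, nat_lit 0, nat_lit 117, nat_lit 1000000, nat_lit 0, nat_lit 0, [(nat_lit 9, [(nat_lit 6, nat_lit 1000)])],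
 ⟨p029_k1, nat_lit 0, nat_lit 0, nat_lit 205, nat_lit 0, nat_lit 248612, [nat_lit 2969600000, nat_lit 1600000000, nat_lit 226400000], [], [nat_lit 19303867459, nat_lit 16996623910, nat_lit 11427369325, nat_lit 12541930000, nat_lit 16721891365, nat_lit 18290281702, nat_lit 15052033365, nat_lit 15532552608], nat_lit 1271250, nat_lit 1271250, nat_lit 21650, nat_lit 490000, nat_lit 1100001, nat_lit 1785000, [nat_lit 1100000, nat_lit 1442500, nat_lit 1271250], [nat_lit 9, nat_lit 40, nat_lit 20, nat_lit 80, nat_lit 2, nat_lit 317, nat_lit 100, nat_lit 10]⟩, C1.Rw.none,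
 ⟨nat_lit 5477, nat_lit 5917, ⟨.ofNat (nat_lit 93845), .ofNat (nat_lit 243059), .ofNat (nat_lit 115184), .ofNat (nat_lit 264398), .ofNat (nat_lit 111470), .ofNat (nat_lit 253842), .ofNat (nat_lit 132827), .ofNat (nat_lit 275199)⟩, ⟨.ofNat (nat_lit 229411), .ofNat (nat_lit 386479), .ofNat (nat_lit 250751), .ofNat (nat_lit 407818), .ofNat (nat_lit 232852), .ofNat (nat_lit 382718), .ofNat (nat_lit 254209), .ofNat (nat_lit 404075)⟩⟩, [⟨nat_lit 0, nat_lit 100, nat_lit 94, nat_lit 30, nat_lit 428639838⟩]⟩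
noncomputable def p029_l6 : Lf2 := ⟨nat_lit 0, nat_lit 8, [nat_lit 50, nat_lit 5, nat_lit 5, nat_lit 20], true, nat_lit 160, nat_lit 240, nat_lit 0, nat_lit 352, ⟨nat_lit 0, nat_lit 0, nat_lit 1000, nat_lit 4, nat_lit 69, nat_lit 1000, nat_lit 127, nat_lit 1000, nat_lit 153600, nat_lit 311, nat_lit 45067, nat_lit 267, nat_lit 58002446, nat_lit 0, nat_lit 0, nat_lit 2496965, false, false⟩,
 nat_lit 0, nat_lit 7166, nat_lit 0, nat_lit 0, nat_lit 4171, nat_lit 0, nat_lit 0, nat_lit 0, nat_lit 0, nat_lit 0, nat_lit 0, nat_lit 0, nat_lit 0, nat_lit 0, nat_lit 123, nat_lit 603400, nat_lit 0, nat_lit 0, [(nat_lit 9, [(nat_lit 5, nat_lit 661), (nat_lit 6, nat_lit 339)])],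
 ⟨p029_k2, nat_lit 0, nat_lit 0, nat_lit 184, nat_lit 0, nat_lit 61091, [nat_lit 3419820000, nat_lit 1194130801, nat_lit 23794400], [], [nat_lit 14435702418, nat_lit 15440464416, nat_lit 12822194840, nat_lit 13800990000, nat_lit 17190082362, nat_lit 18302966020, nat_lit 18198414291, nat_lit 16743524064], nat_lit 1271250, nat_lit 1271250, nat_lit 0, nat_lit 490000, nat_lit 1100001, nat_lit 1785000, [nat_lit 1100000, nat_lit 1785000, nat_lit 1271250], [nat_lit 29, nat_lit 40, nat_lit 20, nat_lit 80, nat_lit 17, nat_lit 373, nat_lit 150, nat_lit 11]⟩, C1.Rw.none,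
 ⟨nat_lit 5477, nat_lit 5917, ⟨.ofNat (nat_lit 64652), .ofNat (nat_lit 221719), .ofNat (nat_lit 107331), .ofNat (nat_lit 264398), .ofNat (nat_lit 82619), .ofNat (nat_lit 232485), .ofNat (nat_lit 125333), .ofNat (nat_lit 275199)⟩, ⟨.ofNat (nat_lit 229411), .ofNat (nat_lit 386479), .ofNat (nat_lit 250751), .ofNat (nat_lit 407818), .ofNat (nat_lit 232852), .ofNat (nat_lit 382718), .ofNat (nat_lit 254209), .ofNat (nat_lit 404075)⟩⟩, [⟨nat_lit 0, nat_lit 100, nat_lit 92, nat_lit 40, nat_lit 52860449⟩, ⟨nat_lit 16, nat_lit 96, nat_lit 100, nat_lit 54, nat_lit 270963504⟩]⟩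
noncomputable def p029_l7 : Lf2 := ⟨nat_lit 0, nat_lit 8, [nat_lit 50, nat_lit 5, nat_lit 5, nat_lit 20], true, nat_lit 240, nat_lit 268, nat_lit 0, nat_lit 336, ⟨nat_lit 0, nat_lit 0, nat_lit 1000, nat_lit 4, nat_lit 69, nat_lit 1000, nat_lit 169, nat_lit 1000, nat_lit 126379, nat_lit 302, nat_lit 45067, nat_lit 267, nat_lit 54180917, nat_lit 0, nat_lit 0, nat_lit 3069663, false, false⟩,
 nat_lit 0, nat_lit 8613, nat_lit 0, nat_lit 0, nat_lit 5013, nat_lit 0, nat_lit 171, nat_lit 0, nat_lit 0, nat_lit 0, nat_lit 0, nat_lit 0, nat_lit 0, nat_lit 0, nat_lit 87, nat_lit 400000, nat_lit 0, nat_lit 0, [(nat_lit 9, [(nat_lit 5, nat_lit 1000)])],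
 ⟨p029_k3, nat_lit 0, nat_lit 0, nat_lit 296, nat_lit 0, nat_lit 259354, [nat_lit 2918400000, nat_lit 9200000], [], [nat_lit 17597414750, nat_lit 19176888292, nat_lit 14778135014, nat_lit 15799904104, nat_lit 19860713337, nat_lit 21397213280, nat_lit 16236402365, nat_lit 17696976914], nat_lit 1271250, nat_lit 1271250, nat_lit 0, nat_lit 490000, nat_lit 1271250, nat_lit 1271250, [nat_lit 1100000, nat_lit 2127500], [nat_lit 70, nat_lit 40, nat_lit 20, nat_lit 80, nat_lit 13, nat_lit 401, nat_lit 175, nat_lit 11]⟩, C1.Rw.none,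
 ⟨nat_lit 5477, nat_lit 5917, ⟨.ofNat (nat_lit 64652), .ofNat (nat_lit 221719), .ofNat (nat_lit 107331), .ofNat (nat_lit 264398), .ofNat (nat_lit 82619), .ofNat (nat_lit 232485), .ofNat (nat_lit 125333), .ofNat (nat_lit 275199)⟩, ⟨.ofNat (nat_lit 386479), .ofNat (nat_lit 441452), .ofNat (nat_lit 407818), .ofNat (nat_lit 462791), .ofNat (nat_lit 382718), .ofNat (nat_lit 435171), .ofNat (nat_lit 404075), .ofNat (nat_lit 456528)⟩⟩, [⟨nat_lit 0, nat_lit 100, nat_lit 92, nat_lit 40, nat_lit 292858456⟩, ⟨nat_lit 4, nat_lit 100, nat_lit 96, nat_lit 54, nat_lit 718348189⟩]⟩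
noncomputable def p029_l8 : Lf2 := ⟨nat_lit 0, nat_lit 4, [nat_lit 38, nat_lit 5, nat_lit 5, nat_lit 20], true, nat_lit 160, nat_lit 288, nat_lit 0, nat_lit 352, ⟨nat_lit 0, nat_lit 0, nat_lit 1000, nat_lit 4, nat_lit 123, nat_lit 1000, nat_lit 147, nat_lit 1000, nat_lit 25350, nat_lit 254, nat_lit 141067, nat_lit 307, nat_lit 52534990, nat_lit 0, nat_lit 0, nat_lit 3571155, false, false⟩,
 nat_lit 0, nat_lit 11905, nat_lit 0, nat_lit 0, nat_lit 6302, nat_lit 0, nat_lit 0, nat_lit 0, nat_lit 0, nat_lit 0, nat_lit 0, nat_lit 0, nat_lit 0, nat_lit 0, nat_lit 80, nat_lit 1000000, nat_lit 0, nat_lit 0, [(nat_lit 6, [(nat_lit 6, nat_lit 1000)])],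
 ⟨p029_k0, nat_lit 0, nat_lit 0, nat_lit 162, nat_lit 0, nat_lit 157052, [nat_lit 2814000001, nat_lit 141466667], [], [nat_lit 19443152018, nat_lit 16209860502, nat_lit 21415557372, nat_lit 18363133256, nat_lit 16661854594, nat_lit 18228955940, nat_lit 16966896652, nat_lit 18363984826], nat_lit 1271250, nat_lit 1271250, nat_lit 490000, nat_lit 1100001, nat_lit 1271250, nat_lit 1271250, [nat_lit 1100000, nat_lit 1785000], [nat_lit 39, nat_lit 40, nat_lit 20, nat_lit 80, nat_lit 7, nat_lit 345, nat_lit 125, nat_lit 11]⟩, C1.Rw.none,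
 ⟨nat_lit 5916, nat_lit 6325, ⟨.ofNat (nat_lit 210470), .ofNat (nat_lit 374999), .ofNat (nat_lit 231838), .ofNat (nat_lit 396366), .ofNat (nat_lit 221719), .ofNat (nat_lit 378786), .ofNat (nat_lit 243059), .ofNat (nat_lit 400126)⟩, ⟨.ofNat (nat_lit 225423), .ofNat (nat_lit 488669), .ofNat (nat_lit 246791), .ofNat (nat_lit 510037), .ofNat (nat_lit 229411), .ofNat (nat_lit 480719), .ofNat (nat_lit 250751), .ofNat (nat_lit 502058)⟩⟩, []⟩
noncomputable def p029_l9 : Lf2 := ⟨nat_lit 0, nat_lit 4, [nat_lit 38, nat_lit 5, nat_lit 5, nat_lit 20], true, nat_lit 160, nat_lit 288, nat_lit 0, nat_lit 336, ⟨nat_lit 0, nat_lit 0, nat_lit 1000, nat_lit 4, nat_lit 129, nat_lit 1000, nat_lit 147, nat_lit 1000, nat_lit 25350, nat_lit 254, nat_lit 156817, nat_lit 312, nat_lit 52042107, nat_lit 0, nat_lit 0, nat_lit 3656297, false, false⟩,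
 nat_lit 0, nat_lit 11167, nat_lit 0, nat_lit 0, nat_lit 5911, nat_lit 0, nat_lit 0, nat_lit 0, nat_lit 0, nat_lit 0, nat_lit 0, nat_lit 0, nat_lit 0, nat_lit 0, nat_lit 80, nat_lit 1000000, nat_lit 0, nat_lit 0, [(nat_lit 6, [(nat_lit 6, nat_lit 1000)])],
 ⟨p029_k0, nat_lit 0, nat_lit 0, nat_lit 165, nat_lit 0, nat_lit 197585, [nat_lit 2814000001, nat_lit 141466667], [], [nat_lit 19668052090, nat_lit 16635366252, nat_lit 21572523540, nat_lit 18709483402, nat_lit 16595237265, nat_lit 18108008066, nat_lit 17001349382, nat_lit 18352296741], nat_lit 1271250, nat_lit 1271250, nat_lit 490000, nat_lit 1100001, nat_lit 1271250, nat_lit 1271250, [nat_lit 1100000, nat_lit 1785000], [nat_lit 39, nat_lit 40, nat_lit 20, nat_lit 80, nat_lit 7, nat_lit 345, nat_lit 125, nat_lit 11]⟩, C1.Rw.none,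
 ⟨nat_lit 5916, nat_lit 6325, ⟨.ofNat (nat_lit 231838), .ofNat (nat_lit 396366), .ofNat (nat_lit 242522), .ofNat (nat_lit 407050), .ofNat (nat_lit 243059), .ofNat (nat_lit 400126), .ofNat (nat_lit 253728), .ofNat (nat_lit 410795)⟩, ⟨.ofNat (nat_lit 225423), .ofNat (nat_lit 488669), .ofNat (nat_lit 246791), .ofNat (nat_lit 510037), .ofNat (nat_lit 229411), .ofNat (nat_lit 480719), .ofNat (nat_lit 250751), .ofNat (nat_lit 502058)⟩⟩, []⟩
noncomputable def p029_l10 : Lf2 := ⟨nat_lit 0, nat_lit 4, [nat_lit 38, nat_lit 5, nat_lit 5, nat_lit 20], false, nat_lit 160, nat_lit 288, nat_lit 0, nat_lit 328, ⟨nat_lit 140, nat_lit 0, nat_lit 860, nat_lit 4, nat_lit 134, nat_lit 860, nat_lit 147, nat_lit 860, nat_lit 25350, nat_lit 254, nat_lit 166667, nat_lit 315, nat_lit 51709112, nat_lit 0, nat_lit 0, nat_lit 3711750, false, false⟩,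
 nat_lit 0, nat_lit 10315, nat_lit 0, nat_lit 0, nat_lit 5460, nat_lit 1849, nat_lit 0, nat_lit 0, nat_lit 0, nat_lit 768, nat_lit 0, nat_lit 0, nat_lit 0, nat_lit 0, nat_lit 0, nat_lit 517400, nat_lit 0, nat_lit 0, [(nat_lit 6, [(nat_lit 5, nat_lit 571), (nat_lit 6, nat_lit 289)])],
 ⟨p029_k0, nat_lit 0, nat_lit 0, nat_lit 169, nat_lit 0, nat_lit 247928, [nat_lit 1909095601, nat_lit 3693600], [], [nat_lit 20677654882, nat_lit 17876358202, nat_lit 23910899121, nat_lit 21266304441, nat_lit 16894336529, nat_lit 17968500416, nat_lit 17161156977, nat_lit 18338815088], nat_lit 1271250, nat_lit 1271250, nat_lit 490000, nat_lit 1100001, nat_lit 1271250, nat_lit 1271250, [nat_lit 1100000, nat_lit 1785000], [nat_lit 39, nat_lit 40, nat_lit 20, nat_lit 80, nat_lit 7, nat_lit 345, nat_lit 125, nat_lit 11]⟩, ⟨p029_k4, nat_lit 0, nat_lit 0, nat_lit 200, nat_lit 0, nat_lit 0, [nat_lit 1115520000, nat_lit 1662080000], [],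 [nat_lit 2561961115, nat_lit 2601099344, nat_lit 2445035639, nat_lit 2505193620, nat_lit 2986442168, nat_lit 3021995845, nat_lit 2703067507, nat_lit 2746574362], nat_lit 0, nat_lit 0, nat_lit 0, nat_lit 0, nat_lit 0, nat_lit 0, [], [nat_lit 143, nat_lit 40, nat_lit 20, nat_lit 80, nat_lit 14, nat_lit 401, nat_lit 175, nat_lit 11]⟩,
 ⟨nat_lit 5916, nat_lit 6325, ⟨.ofNat (nat_lit 242522), .ofNat (nat_lit 407050), .ofNat (nat_lit 253206), .ofNat (nat_lit 417734), .ofNat (nat_lit 253728), .ofNat (nat_lit 410795), .ofNat (nat_lit 264398), .ofNat (nat_lit 421465)⟩, ⟨.ofNat (nat_lit 225423), .ofNat (nat_lit 488669), .ofNat (nat_lit 246791), .ofNat (nat_lit 510037), .ofNat (nat_lit 229411), .ofNat (nat_lit 480719), .ofNat (nat_lit 250751), .ofNat (nat_lit 502058)⟩⟩, [⟨nat_lit 19, nat_lit 100, nat_lit 84, nat_lit 53, nat_lit 61623500⟩]⟩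
noncomputable def p029_l11 : Lf2 := ⟨nat_lit 1, nat_lit 8, [nat_lit 50, nat_lit 5, nat_lit 5, nat_lit 20], false, nat_lit 160, nat_lit 288, nat_lit 0, nat_lit 352, zbN0,
 nat_lit 0, nat_lit 0, nat_lit 0, nat_lit 0, nat_lit 0, nat_lit 0, nat_lit 0, nat_lit 0, nat_lit 0, nat_lit 0, nat_lit 0, nat_lit 0, nat_lit 0, nat_lit 0, nat_lit 0, nat_lit 0, nat_lit 0, nat_lit 0, [],
 C1.Rw.none, C1.Rw.none,
 zbF0, []⟩
noncomputable def p029_l12 : Lf2 := ⟨nat_lit 0, nat_lit 8, [nat_lit 50, nat_lit 5, nat_lit 5, nat_lit 20], true, nat_lit 160, nat_lit 268, nat_lit 0, nat_lit 352, ⟨nat_lit 0, nat_lit 0, nat_lit 1000, nat_lit 4, nat_lit 130, nat_lit 1000, nat_lit 138, nat_lit 1000, nat_lit 126379, nat_lit 302, nat_lit 160067, nat_lit 313, nat_lit 52687378, nat_lit 0, nat_lit 0, nat_lit 3557874, false, false⟩,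
 nat_lit 0, nat_lit 7812, nat_lit 0, nat_lit 0, nat_lit 4547, nat_lit 0, nat_lit 693, nat_lit 0, nat_lit 0, nat_lit 0, nat_lit 0, nat_lit 0, nat_lit 0, nat_lit 0, nat_lit 192, nat_lit 1000000, nat_lit 0, nat_lit 0, [(nat_lit 9, [(nat_lit 6, nat_lit 1000)])],
 ⟨p029_k2, nat_lit 0, nat_lit 0, nat_lit 304, nat_lit 0, nat_lit 438372, [nat_lit 4378400000, nat_lit 1958133334, nat_lit 18800000], [], [nat_lit 17664539250, nat_lit 15331664524, nat_lit 17675339452, nat_lit 15472963626, nat_lit 16711514500, nat_lit 17564749878, nat_lit 17343062429, nat_lit 18202574331], nat_lit 1271250, nat_lit 1271250, nat_lit 490000, nat_lit 1100001, nat_lit 1271250, nat_lit 1271250, [nat_lit 1100000, nat_lit 1785000, nat_lit 1271250], [nat_lit 29, nat_lit 40, nat_lit 20, nat_lit 80, nat_lit 17, nat_lit 428, nat_lit 200, nat_lit 12]⟩, C1.Rw.none,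
 ⟨nat_lit 5477, nat_lit 5917, ⟨.ofNat (nat_lit 221719), .ofNat (nat_lit 378786), .ofNat (nat_lit 264398), .ofNat (nat_lit 421465), .ofNat (nat_lit 232485), .ofNat (nat_lit 382351), .ofNat (nat_lit 275199), .ofNat (nat_lit 425065)⟩, ⟨.ofNat (nat_lit 229411), .ofNat (nat_lit 441452), .ofNat (nat_lit 250751), .ofNat (nat_lit 462791), .ofNat (nat_lit 232852), .ofNat (nat_lit 435171), .ofNat (nat_lit 254209), .ofNat (nat_lit 456528)⟩⟩, [⟨nat_lit 4, nat_lit 100, nat_lit 96, nat_lit 54, nat_lit 84536201⟩]⟩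
noncomputable def b_VL_600_400_5_2 : St := ⟨true, nat_lit 1, nat_lit 0, nat_lit 1, nat_lit 40, nat_lit 240, nat_lit 280, nat_lit 160, nat_lit 200, nat_lit 0, nat_lit 160, nat_lit 20, nat_lit 40, nat_lit 160, nat_lit 288, nat_lit 0, nat_lit 352, nat_lit 0, nat_lit 32, nat_lit 0, nat_lit 0, nat_lit 0, nat_lit 0⟩
theorem d_VL_600_400_5_2 (h : EB TB.env) : Dead b_VL_600_400_5_2 := chkB_sound0 h (T :=
(.spl (nat_lit 2) (nat_lit 80)
(.spl (nat_lit 0) (nat_lit 260)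
(.spl (nat_lit 6) (nat_lit 16)
(.spl (nat_lit 4) (nat_lit 240)
(.spl (nat_lit 4) (nat_lit 200)
(.leaf p029_l0)
(.leaf p029_l1))
(.trX (nat_lit 23) (nat_lit 100) (nat_lit 76) (nat_lit 82) (nat_lit 336) (.leaf p029_l2)))
(.leaf p029_l3))
(.trX (nat_lit 16) (nat_lit 100) (nat_lit 99) (nat_lit 63) (nat_lit 268) (.spl (nat_lit 4) (nat_lit 240)
(.spl (nat_lit 6) (nat_lit 20)
(.spl (nat_lit 1) (nat_lit 180)
(.leaf p029_l4)
(.trZ (nat_lit 0) (nat_lit 100) (nat_lit 96) (nat_lit 20) (nat_lit 4) (.trX (nat_lit 19) (nat_lit 100) (nat_lit 74) (nat_lit 60) (nat_lit 336) (.leaf p029_l5))))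
(.leaf p029_l6))
(.trX (nat_lit 23) (nat_lit 100) (nat_lit 76) (nat_lit 82) (nat_lit 336) (.leaf p029_l7)))))
(.spl (nat_lit 0) (nat_lit 260)
(.spl (nat_lit 6) (nat_lit 16)
(.spl (nat_lit 1) (nat_lit 180)
(.leaf p029_l8)
(.trX (nat_lit 19) (nat_lit 100) (nat_lit 74) (nat_lit 60) (nat_lit 336) (.spl (nat_lit 1) (nat_lit 190)
(.leaf p029_l9)
(.trX (nat_lit 19) (nat_lit 100) (nat_lit 77) (nat_lit 60) (nat_lit 328) (.leaf p029_l10)))))
(.leaf p029_l11))
(.trX (nat_lit 16) (nat_lit 100) (nat_lit 99) (nat_lit 63) (nat_lit 268) (.leaf p029_l12))))) (by decide +kernel)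
noncomputable def p029_l13 : Lf2 := ⟨nat_lit 0, nat_lit 8, [nat_lit 50, nat_lit 5, nat_lit 5, nat_lit 20], false, nat_lit 0, nat_lit 288, nat_lit 0, nat_lit 160, ⟨nat_lit 1000, nat_lit 0, nat_lit 0, nat_lit 0, nat_lit 0, nat_lit 0, nat_lit 0, nat_lit 0, nat_lit 0, nat_lit 0, nat_lit 0, nat_lit 0, nat_lit 0, nat_lit 0, nat_lit 0, nat_lit 0, false, false⟩,
 nat_lit 0, nat_lit 16385, nat_lit 0, nat_lit 13073, nat_lit 8674, nat_lit 19373, nat_lit 892, nat_lit 0, nat_lit 0, nat_lit 6256, nat_lit 0, nat_lit 0, nat_lit 0, nat_lit 0, nat_lit 0, nat_lit 0, nat_lit 0, nat_lit 0, [],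
 ⟨p029_k5, nat_lit 0, nat_lit 0, nat_lit 430, nat_lit 0, nat_lit 500034, [nat_lit 4688000000, nat_lit 6250000000, nat_lit 9842000000], [], [nat_lit 42593800160, nat_lit 33421253336, nat_lit 31637897936, nat_lit 32934641944, nat_lit 36255010901, nat_lit 28102370146, nat_lit 27596614807, nat_lit 28489777793], nat_lit 1271250, nat_lit 1271250, nat_lit 1271250, nat_lit 1271250, nat_lit 0, nat_lit 2034000, [nat_lit 1100000, nat_lit 1442500, nat_lit 1271250], [nat_lit 11, nat_lit 40, nat_lit 20, nat_lit 80, nat_lit 1, nat_lit 456, nat_lit 225, nat_lit 13]⟩, ⟨p029_k6, nat_lit 0, nat_lit 0, nat_lit 253, nat_lit 0, nat_lit 0, [nat_lit 7968000000, nat_lit 9842000000, nat_lit 14058000000], [], [nat_lit 17927641976, nat_lit 18875461480, nat_lit 23504546628, nat_lit 25349662916, nat_lit 973567208, nat_lit 3266025408, nat_lit 7008351260, nat_lit 8448534640], nat_lit 0, nat_lit 0, nat_lit 0, nat_lit 0, nat_lit 0, nat_lit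 0, [], [nat_lit 92, nat_lit 40, nat_lit 20, nat_lit 80, nat_lit 32, nat_lit 373, nat_lit 150, nat_lit 9]⟩,
 zbF0, [⟨nat_lit 4, nat_lit 100, nat_lit 98, nat_lit 54, nat_lit 127822988⟩]⟩
noncomputable def p029_l14 : Lf2 := ⟨nat_lit 0, nat_lit 8, [nat_lit 50, nat_lit 5, nat_lit 5, nat_lit 20], false, nat_lit 0, nat_lit 160, nat_lit 160, nat_lit 352, ⟨nat_lit 1000, nat_lit 0, nat_lit 0, nat_lit 0, nat_lit 0, nat_lit 0, nat_lit 0, nat_lit 0, nat_lit 0, nat_lit 0, nat_lit 0, nat_lit 0, nat_lit 0, nat_lit 0, nat_lit 0, nat_lit 0, false, false⟩,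
 nat_lit 0, nat_lit 8532, nat_lit 0, nat_lit 9734, nat_lit 4516, nat_lit 12324, nat_lit 1961, nat_lit 0, nat_lit 0, nat_lit 0, nat_lit 0, nat_lit 0, nat_lit 0, nat_lit 0, nat_lit 0, nat_lit 0, nat_lit 0, nat_lit 0, [],
 ⟨p029_k5, nat_lit 0, nat_lit 0, nat_lit 293, nat_lit 0, nat_lit 256551, [nat_lit 4688000000, nat_lit 6250000000, nat_lit 9842000000], [], [nat_lit 36257673440, nat_lit 33869892632, nat_lit 31511530250, nat_lit 32209288466, nat_lit 28497621594, nat_lit 29186605984, nat_lit 32718815376, nat_lit 31199857520], nat_lit 1271250, nat_lit 1271250, nat_lit 1100001, nat_lit 1785000, nat_lit 0, nat_lit 1100001, [nat_lit 1100000, nat_lit 1442500, nat_lit 1271250], [nat_lit 11, nat_lit 40, nat_lit 20, nat_lit 80, nat_lit 1, nat_lit 401, nat_lit 175, nat_lit 12]⟩, ⟨p029_k6, nat_lit 0, nat_lit 0, nat_lit 67, nat_lit 0, nat_lit 0, [nat_lit 7968000000, nat_lit 9842000000, nat_lit 14058000000], [], [nat_lit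 3833983552, nat_lit 6161823008, nat_lit 9471550176, nat_lit 11147291120, nat_lit 22774620820, nat_lit 23889950791, nat_lit 26103510064, nat_lit 26769688711], nat_lit 0, nat_lit 0, nat_lit 0, nat_lit 0, nat_lit 0, nat_lit 0, [], [nat_lit 92, nat_lit 40, nat_lit 20, nat_lit 80, nat_lit 32, nat_lit 428, nat_lit 200, nat_lit 10]⟩,
 zbF0, [⟨nat_lit 7, nat_lit 80, nat_lit 100, nat_lit 53, nat_lit 1368977678⟩]⟩
noncomputable def p029_l15 : Lf2 := ⟨nat_lit 0, nat_lit 8, [nat_lit 50, nat_lit 5, nat_lit 5, nat_lit 20], false, nat_lit 0, nat_lit 160, nat_lit 160, nat_lit 352, ⟨nat_lit 1000, nat_lit 0, nat_lit 0, nat_lit 0, nat_lit 0, nat_lit 0, nat_lit 0, nat_lit 0, nat_lit 0, nat_lit 0, nat_lit 0, nat_lit 0, nat_lit 0, nat_lit 0, nat_lit 0, nat_lit 0, false, false⟩,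
 nat_lit 0, nat_lit 7749, nat_lit 0, nat_lit 6079, nat_lit 4510, nat_lit 12324, nat_lit 1953, nat_lit 0, nat_lit 0, nat_lit 0, nat_lit 0, nat_lit 0, nat_lit 0, nat_lit 0, nat_lit 0, nat_lit 0, nat_lit 0, nat_lit 0, [],
 ⟨p029_k7, nat_lit 0, nat_lit 0, nat_lit 366, nat_lit 0, nat_lit 438372, [nat_lit 4688000000, nat_lit 6250000000, nat_lit 9842000000], [], [nat_lit 33863922020, nat_lit 31479313640, nat_lit 29122171510, nat_lit 29819669770, nat_lit 26104297970, nat_lit 26792972470, nat_lit 28951225355, nat_lit 28687889430], nat_lit 1271250, nat_lit 1271250, nat_lit 1100001, nat_lit 1785000, nat_lit 0, nat_lit 1100001, [nat_lit 1100000, nat_lit 1442500, nat_lit 1271250], [nat_lit 11, nat_lit 40, nat_lit 20, nat_lit 80, nat_lit 1, nat_lit 401, nat_lit 175, nat_lit 11]⟩, ⟨p029_k6, nat_lit 0, nat_lit 0, nat_lit 67, nat_lit 0, nat_lit 0, [nat_lit 7968000000, nat_lit 9842000000, nat_lit 14058000000], [], [nat_lit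 3833983552, nat_lit 6161823008, nat_lit 9471550176, nat_lit 11147291120, nat_lit 22774620820, nat_lit 23889950791, nat_lit 26103510064, nat_lit 26769688711], nat_lit 0, nat_lit 0, nat_lit 0, nat_lit 0, nat_lit 0, nat_lit 0, [], [nat_lit 92, nat_lit 40, nat_lit 20, nat_lit 80, nat_lit 32, nat_lit 428, nat_lit 200, nat_lit 10]⟩,
 zbF0, [⟨nat_lit 7, nat_lit 80, nat_lit 100, nat_lit 53, nat_lit 1368977678⟩]⟩
noncomputable def p029_l16 : Lf2 := ⟨nat_lit 0, nat_lit 8, [nat_lit 50, nat_lit 5, nat_lit 5, nat_lit 20], false, nat_lit 160, nat_lit 288, nat_lit 160, nat_lit 352, ⟨nat_lit 1000, nat_lit 0, nat_lit 0, nat_lit 0, nat_lit 0, nat_lit 0, nat_lit 0, nat_lit 0, nat_lit 0, nat_lit 0, nat_lit 0, nat_lit 0, nat_lit 0, nat_lit 0, nat_lit 0, nat_lit 0, false, false⟩,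
 nat_lit 0, nat_lit 10784, nat_lit 0, nat_lit 8366, nat_lit 5709, nat_lit 12324, nat_lit 2577, nat_lit 0, nat_lit 0, nat_lit 0, nat_lit 0, nat_lit 0, nat_lit 0, nat_lit 0, nat_lit 0, nat_lit 0, nat_lit 0, nat_lit 0, [],
 ⟨p029_k5, nat_lit 0, nat_lit 0, nat_lit 158, nat_lit 0, nat_lit 256551, [nat_lit 4688000000, nat_lit 6250000000, nat_lit 9842000000], [], [nat_lit 33387614560, nat_lit 30369049318, nat_lit 31274122532, nat_lit 28508922710, nat_lit 23953632612, nat_lit 24822611774, nat_lit 25954397352, nat_lit 26684957022], nat_lit 1271250, nat_lit 1271250, nat_lit 1100001, nat_lit 1785000, nat_lit 1271250, nat_lit 1271250, [nat_lit 1100000, nat_lit 1442500, nat_lit 1271250], [nat_lit 11, nat_lit 40, nat_lit 20, nat_lit 80, nat_lit 1, nat_lit 428, nat_lit 200, nat_lit 12]⟩, ⟨p029_k6, nat_lit 0, nat_lit 0, nat_lit 67, nat_lit 0, nat_lit 0, [nat_lit 7968000000, nat_lit 9842000000, nat_lit 14058000000], [], [nat_lit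 3833983552, nat_lit 6161823008, nat_lit 9471550176, nat_lit 11147291120, nat_lit 22774620820, nat_lit 23889950791, nat_lit 26103510064, nat_lit 26769688711], nat_lit 0, nat_lit 0, nat_lit 0, nat_lit 0, nat_lit 0, nat_lit 0, [], [nat_lit 92, nat_lit 40, nat_lit 20, nat_lit 80, nat_lit 32, nat_lit 428, nat_lit 200, nat_lit 10]⟩,
 zbF0, [⟨nat_lit 19, nat_lit 100, nat_lit 80, nat_lit 53, nat_lit 1368977678⟩]⟩
noncomputable def p029_l17 : Lf2 := ⟨nat_lit 0, nat_lit 8, [nat_lit 50, nat_lit 5, nat_lit 5, nat_lit 20], false, nat_lit 160, nat_lit 268, nat_lit 160, nat_lit 352, ⟨nat_lit 460, nat_lit 0, nat_lit 540, nat_lit 4, nat_lit 191, nat_lit 540, nat_lit 138, nat_lit 540, nat_lit 126379, nat_lit 302, nat_lit 1481, nat_lit 220, nat_lit 47556075, nat_lit 0, nat_lit 0, nat_lit 4252988, false, true⟩,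
 nat_lit 0, nat_lit 6382, nat_lit 0, nat_lit 1504, nat_lit 3714, nat_lit 5670, nat_lit 499, nat_lit 0, nat_lit 0, nat_lit 0, nat_lit 0, nat_lit 0, nat_lit 0, nat_lit 0, nat_lit 0, nat_lit 540000, nat_lit 0, nat_lit 0, [(nat_lit 9, [(nat_lit 6, nat_lit 540)])],
 ⟨p029_k7, nat_lit 0, nat_lit 0, nat_lit 225, nat_lit 0, nat_lit 438372, [nat_lit 2749184000, nat_lit 2643520001, nat_lit 1677727999], [], [nat_lit 26445004828, nat_lit 24481271896, nat_lit 26398481660, nat_lit 24599576048, nat_lit 22013708743, nat_lit 22753260893, nat_lit 23937357024, nat_lit 24618319829], nat_lit 1271250, nat_lit 1271250, nat_lit 1100001, nat_lit 1785000, nat_lit 1271250, nat_lit 1271250, [nat_lit 1100000, nat_lit 1442500, nat_lit 1271250], [nat_lit 11, nat_lit 40, nat_lit 20, nat_lit 80, nat_lit 1, nat_lit 428, nat_lit 200, nat_lit 12]⟩, ⟨p029_k6, nat_lit 0, nat_lit 0, nat_lit 67, nat_lit 0, nat_lit 0, [nat_lit 3665280000, nat_lit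 4527320000, nat_lit 6466680000], [], [nat_lit 1762003360, nat_lit 2832901040, nat_lit 4355538960, nat_lit 5126426600, nat_lit 10476506816, nat_lit 10989783377, nat_lit 12008103689, nat_lit 12314518577], nat_lit 0, nat_lit 0, nat_lit 0, nat_lit 0, nat_lit 0, nat_lit 0, [], [nat_lit 92, nat_lit 40, nat_lit 20, nat_lit 80, nat_lit 32, nat_lit 428, nat_lit 200, nat_lit 10]⟩,
 ⟨nat_lit 5477, nat_lit 5917, ⟨.ofNat (nat_lit 378786), .ofNat (nat_lit 535851), .ofNat (nat_lit 421465), .ofNat (nat_lit 578514), .ofNat (nat_lit 382351), .ofNat (nat_lit 532215), .ofNat (nat_lit 425065), .ofNat (nat_lit 574913)⟩, ⟨.ofNat (nat_lit 229411), .ofNat (nat_lit 441452), .ofNat (nat_lit 250751), .ofNat (nat_lit 462791), .ofNat (nat_lit 232852), .ofNat (nat_lit 435171), .ofNat (nat_lit 254209), .ofNat (nat_lit 456528)⟩⟩, [⟨nat_lit 7, nat_lit 80, nat_lit 100, nat_lit 53, nat_lit 629867678⟩]⟩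
noncomputable def p029_l18 : Lf2 := ⟨nat_lit 0, nat_lit 8, [nat_lit 50, nat_lit 5, nat_lit 5, nat_lit 20], false, nat_lit 0, nat_lit 160, nat_lit 0, nat_lit 352, ⟨nat_lit 1000, nat_lit 0, nat_lit 0, nat_lit 0, nat_lit 0, nat_lit 0, nat_lit 0, nat_lit 0, nat_lit 0, nat_lit 0, nat_lit 0, nat_lit 0, nat_lit 0, nat_lit 0, nat_lit 0, nat_lit 0, false, false⟩,
 nat_lit 0, nat_lit 15280, nat_lit 0, nat_lit 0, nat_lit 8089, nat_lit 10424, nat_lit 1655, nat_lit 0, nat_lit 0, nat_lit 2472, nat_lit 0, nat_lit 0, nat_lit 0, nat_lit 0, nat_lit 0, nat_lit 0, nat_lit 0, nat_lit 0, [],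
 ⟨p029_k5, nat_lit 0, nat_lit 0, nat_lit 435, nat_lit 0, nat_lit 500034, [nat_lit 4688000000, nat_lit 6250000000, nat_lit 9842000000], [], [nat_lit 27955725996, nat_lit 29167112592, nat_lit 38465987686, nat_lit 40640673982, nat_lit 22934322098, nat_lit 23928650710, nat_lit 29565958871, nat_lit 31225001636], nat_lit 1271250, nat_lit 1271250, nat_lit 1271250, nat_lit 1271250, nat_lit 0, nat_lit 1100001, [nat_lit 1100000, nat_lit 1442500, nat_lit 1271250], [nat_lit 11, nat_lit 40, nat_lit 20, nat_lit 80, nat_lit 1, nat_lit 456, nat_lit 225, nat_lit 13]⟩, ⟨p029_k6, nat_lit 0, nat_lit 0, nat_lit 311, nat_lit 0, nat_lit 0, [nat_lit 7968000000, nat_lit 9842000000, nat_lit 14058000000], [], [nat_lit 31204649160, nat_lit 31452513992, nat_lit 44474905141, nat_lit 44019629135, nat_lit 29681509946, nat_lit 29798491322, nat_lit 39339518029, nat_lit 38929373231], nat_lit 0, nat_lit 0, nat_lit 0, nat_lit 0, nat_lit 0, nat_lit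 0, [], [nat_lit 92, nat_lit 40, nat_lit 20, nat_lit 80, nat_lit 32, nat_lit 483, nat_lit 250, nat_lit 11]⟩,
 zbF0, [⟨nat_lit 7, nat_lit 80, nat_lit 100, nat_lit 53, nat_lit 91102043⟩, ⟨nat_lit 22, nat_lit 84, nat_lit 100, nat_lit 84, nat_lit 103014272⟩]⟩
noncomputable def p029_l19 : Lf2 := ⟨nat_lit 0, nat_lit 8, [nat_lit 50, nat_lit 5, nat_lit 5, nat_lit 20], false, nat_lit 160, nat_lit 288, nat_lit 0, nat_lit 352, ⟨nat_lit 1000, nat_lit 0, nat_lit 0, nat_lit 0, nat_lit 0, nat_lit 0, nat_lit 0, nat_lit 0, nat_lit 0, nat_lit 0, nat_lit 0, nat_lit 0, nat_lit 0, nat_lit 0, nat_lit 0, nat_lit 0, false, false⟩,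
 nat_lit 0, nat_lit 14411, nat_lit 0, nat_lit 9541, nat_lit 7629, nat_lit 9734, nat_lit 1685, nat_lit 0, nat_lit 0, nat_lit 2206, nat_lit 0, nat_lit 0, nat_lit 0, nat_lit 0, nat_lit 0, nat_lit 0, nat_lit 0, nat_lit 0, [],
 ⟨p029_k5, nat_lit 0, nat_lit 0, nat_lit 200, nat_lit 0, nat_lit 256551, [nat_lit 4688000000, nat_lit 6250000000, nat_lit 9842000000], [], [nat_lit 19013210826, nat_lit 19924111320, nat_lit 29210826944, nat_lit 29788632040, nat_lit 27748530941, nat_lit 24257152659, nat_lit 32423632153, nat_lit 33072914298], nat_lit 1271250, nat_lit 1271250, nat_lit 1271250, nat_lit 1271250, nat_lit 1100001, nat_lit 2196000, [nat_lit 1100000, nat_lit 1442500, nat_lit 1271250], [nat_lit 11, nat_lit 40, nat_lit 20, nat_lit 80, nat_lit 1, nat_lit 483, nat_lit 250, nat_lit 13]⟩, ⟨p029_k6, nat_lit 0, nat_lit 0, nat_lit 311, nat_lit 0, nat_lit 0, [nat_lit 7968000000, nat_lit 9842000000, nat_lit 14058000000], [],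 [nat_lit 32638608310, nat_lit 32929206222, nat_lit 44502244643, nat_lit 44133890421, nat_lit 30885577610, nat_lit 30768705189, nat_lit 38577146185, nat_lit 38046291237], nat_lit 0, nat_lit 0, nat_lit 0, nat_lit 0, nat_lit 0, nat_lit 0, [], [nat_lit 92, nat_lit 40, nat_lit 20, nat_lit 80, nat_lit 32, nat_lit 483, nat_lit 250, nat_lit 11]⟩,
 zbF0, [⟨nat_lit 4, nat_lit 99, nat_lit 100, nat_lit 54, nat_lit 638952522⟩, ⟨nat_lit 19, nat_lit 100, nat_lit 80, nat_lit 53, nat_lit 201491439⟩]⟩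
noncomputable def p029_l20 : Lf2 := ⟨nat_lit 0, nat_lit 8, [nat_lit 50, nat_lit 5, nat_lit 5, nat_lit 20], false, nat_lit 160, nat_lit 268, nat_lit 0, nat_lit 352, ⟨nat_lit 1000, nat_lit 0, nat_lit 0, nat_lit 0, nat_lit 0, nat_lit 0, nat_lit 0, nat_lit 0, nat_lit 0, nat_lit 0, nat_lit 0, nat_lit 0, nat_lit 0, nat_lit 0, nat_lit 0, nat_lit 0, false, false⟩,
 nat_lit 0, nat_lit 12944, nat_lit 0, nat_lit 2267, nat_lit 7534, nat_lit 9967, nat_lit 1817, nat_lit 0, nat_lit 0, nat_lit 1864, nat_lit 0, nat_lit 0, nat_lit 0, nat_lit 0, nat_lit 0, nat_lit 0, nat_lit 0, nat_lit 0, [],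
 ⟨p029_k7, nat_lit 0, nat_lit 0, nat_lit 292, nat_lit 0, nat_lit 438372, [nat_lit 4688000000, nat_lit 6250000000, nat_lit 9842000000], [], [nat_lit 19520519410, nat_lit 20195176866, nat_lit 29228187204, nat_lit 30190820631, nat_lit 21714100481, nat_lit 22352206084, nat_lit 31776757979, nat_lit 32493526946], nat_lit 1271250, nat_lit 1271250, nat_lit 1271250, nat_lit 1271250, nat_lit 1100001, nat_lit 2024750, [nat_lit 1100000, nat_lit 1442500, nat_lit 1271250], [nat_lit 11, nat_lit 40, nat_lit 20, nat_lit 80, nat_lit 1, nat_lit 483, nat_lit 250, nat_lit 13]⟩, ⟨p029_k6, nat_lit 0, nat_lit 0, nat_lit 309, nat_lit 0, nat_lit 0, [nat_lit 7968000000, nat_lit 9842000000, nat_lit 14058000000], [], [nat_lit 33799363780, nat_lit 34075531536, nat_lit 45715799013, nat_lit 45347509447, nat_lit 32121330285, nat_lit 31863199699, nat_lit 38265234638, nat_lit 37940229947], nat_lit 0, nat_lit 0, nat_lit 0, nat_lit 0, nat_lit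 0, nat_lit 0, [], [nat_lit 92, nat_lit 40, nat_lit 20, nat_lit 80, nat_lit 32, nat_lit 483, nat_lit 250, nat_lit 11]⟩,
 zbF0, [⟨nat_lit 4, nat_lit 100, nat_lit 96, nat_lit 54, nat_lit 614255429⟩, ⟨nat_lit 7, nat_lit 80, nat_lit 100, nat_lit 53, nat_lit 164965601⟩]⟩
noncomputable def b_VL_600_400_5_3 : St := ⟨true, nat_lit 1, nat_lit 0, nat_lit 1, nat_lit 40, nat_lit 240, nat_lit 280, nat_lit 160, nat_lit 200, nat_lit 160, nat_lit 396, nat_lit 20, nat_lit 40, nat_lit 0, nat_lit 288, nat_lit 0, nat_lit 352, nat_lit 0, nat_lit 32, nat_lit 0, nat_lit 0, nat_lit 0, nat_lit 0⟩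
theorem d_VL_600_400_5_3 (h : EB TB.env) : Dead b_VL_600_400_5_3 := chkB_sound0 h (T :=
(.spl (nat_lit 2) (nat_lit 240)
(.spl (nat_lit 5) (nat_lit 160)
(.leaf p029_l13)
(.spl (nat_lit 4) (nat_lit 160)
(.spl (nat_lit 0) (nat_lit 260)
(.leaf p029_l14)
(.leaf p029_l15))
(.spl (nat_lit 0) (nat_lit 260)
(.leaf p029_l16)
(.trX (nat_lit 16) (nat_lit 100) (nat_lit 99) (nat_lit 63) (nat_lit 268) (.leaf p029_l17)))))
(.spl (nat_lit 4) (nat_lit 160)
(.leaf p029_l18)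
(.spl (nat_lit 0) (nat_lit 260)
(.leaf p029_l19)
(.trX (nat_lit 13) (nat_lit 95) (nat_lit 30) (nat_lit 100) (nat_lit 392) (.trX (nat_lit 16) (nat_lit 100) (nat_lit 99) (nat_lit 63) (nat_lit 268) (.leaf p029_l20))))))) (by decide +kernel)
noncomputable def p029_l21 : Lf2 := ⟨nat_lit 0, nat_lit 8, [nat_lit 50, nat_lit 5, nat_lit 5, nat_lit 20], true, nat_lit 0, nat_lit 80, nat_lit 0, nat_lit 352, ⟨nat_lit 0, nat_lit 0, nat_lit 1000, nat_lit 4, nat_lit 63, nat_lit 0, nat_lit 15, nat_lit 0, nat_lit 17, nat_lit 214, nat_lit 36817, nat_lit 262, nat_lit 65387256, nat_lit 0, nat_lit 0, nat_lit 567386, false, false⟩,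
 nat_lit 0, nat_lit 9786, nat_lit 0, nat_lit 0, nat_lit 5180, nat_lit 0, nat_lit 0, nat_lit 0, nat_lit 0, nat_lit 0, nat_lit 0, nat_lit 0, nat_lit 0, nat_lit 0, nat_lit 147, nat_lit 1000000, nat_lit 0, nat_lit 0, [(nat_lit 6, [(nat_lit 6, nat_lit 1000)])],
 ⟨p029_k5, nat_lit 0, nat_lit 0, nat_lit 351, nat_lit 0, nat_lit 148757, [nat_lit 3329066667, nat_lit 3042400001, nat_lit 177599999], [], [nat_lit 18202384109, nat_lit 17731531440, nat_lit 14231160189, nat_lit 13090369959, nat_lit 14231160189, nat_lit 13090369959, nat_lit 16092657309, nat_lit 13583682869], nat_lit 1271250, nat_lit 1271250, nat_lit 0, nat_lit 490000, nat_lit 0, nat_lit 490000, [nat_lit 1100000, nat_lit 1442500, nat_lit 1271250], [nat_lit 11, nat_lit 40, nat_lit 20, nat_lit 80, nat_lit 1, nat_lit 345, nat_lit 125, nat_lit 10]⟩, C1.Rw.none,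
 ⟨nat_lit 5916, nat_lit 6325, ⟨.ofNat (nat_lit 45942), .ofNat (nat_lit 210470), .ofNat (nat_lit 88677), .ofNat (nat_lit 253206), .ofNat (nat_lit 64652), .ofNat (nat_lit 221719), .ofNat (nat_lit 107331), .ofNat (nat_lit 264398)⟩, ⟨.negSucc (nat_lit 103633), .ofNat (nat_lit 60895), .negSucc (nat_lit 82265), .ofNat (nat_lit 82263), .negSucc (nat_lit 84722), .ofNat (nat_lit 72344), .negSucc (nat_lit 63383), .ofNat (nat_lit 93684)⟩⟩, [⟨nat_lit 0, nat_lit 100, nat_lit 97, nat_lit 15, nat_lit 107073352⟩]⟩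
noncomputable def p029_l22 : Lf2 := ⟨nat_lit 0, nat_lit 8, [nat_lit 50, nat_lit 5, nat_lit 5, nat_lit 20], true, nat_lit 0, nat_lit 80, nat_lit 0, nat_lit 352, ⟨nat_lit 0, nat_lit 0, nat_lit 1000, nat_lit 4, nat_lit 67, nat_lit 0, nat_lit 17, nat_lit 718, nat_lit 67, nat_lit 217, nat_lit 41667, nat_lit 265, nat_lit 65157650, nat_lit 0, nat_lit 0, nat_lit 629638, false, false⟩,
 nat_lit 0, nat_lit 6364, nat_lit 0, nat_lit 0, nat_lit 3704, nat_lit 0, nat_lit 3, nat_lit 0, nat_lit 0, nat_lit 0, nat_lit 0, nat_lit 0, nat_lit 0, nat_lit 0, nat_lit 192, nat_lit 1000000, nat_lit 0, nat_lit 0, [(nat_lit 9, [(nat_lit 6, nat_lit 1000)])],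
 ⟨p029_k7, nat_lit 0, nat_lit 0, nat_lit 369, nat_lit 0, nat_lit 194746, [nat_lit 4169600001, nat_lit 3411333334, nat_lit 231866666], [], [nat_lit 15027546291, nat_lit 15648064539, nat_lit 13988307827, nat_lit 14572573915, nat_lit 13988307827, nat_lit 14572573915, nat_lit 15664109679, nat_lit 14767078663], nat_lit 1271250, nat_lit 1271250, nat_lit 0, nat_lit 490000, nat_lit 0, nat_lit 490000, [nat_lit 1100000, nat_lit 1442500, nat_lit 1271250], [nat_lit 11, nat_lit 40, nat_lit 20, nat_lit 80, nat_lit 1, nat_lit 345, nat_lit 125, nat_lit 10]⟩, C1.Rw.none,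
 ⟨nat_lit 5700, nat_lit 5917, ⟨.ofNat (nat_lit 64652), .ofNat (nat_lit 221719), .ofNat (nat_lit 107331), .ofNat (nat_lit 264398), .ofNat (nat_lit 73719), .ofNat (nat_lit 227157), .ofNat (nat_lit 116403), .ofNat (nat_lit 269841)⟩, ⟨.negSucc (nat_lit 84722), .ofNat (nat_lit 72344), .negSucc (nat_lit 63383), .ofNat (nat_lit 93684), .negSucc (nat_lit 75673), .ofNat (nat_lit 77764), .negSucc (nat_lit 54331), .ofNat (nat_lit 99106)⟩⟩, [⟨nat_lit 0, nat_lit 100, nat_lit 94, nat_lit 35, nat_lit 16122181⟩]⟩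
noncomputable def p029_l23 : Lf2 := ⟨nat_lit 0, nat_lit 8, [nat_lit 50, nat_lit 5, nat_lit 5, nat_lit 20], true, nat_lit 0, nat_lit 80, nat_lit 0, nat_lit 352, ⟨nat_lit 0, nat_lit 0, nat_lit 1000, nat_lit 4, nat_lit 70, nat_lit 0, nat_lit 18, nat_lit 566, nat_lit 417, nat_lit 220, nat_lit 46817, nat_lit 268, nat_lit 65001484, nat_lit 0, nat_lit 0, nat_lit 670704, false, false⟩,
 nat_lit 0, nat_lit 6503, nat_lit 0, nat_lit 0, nat_lit 3960, nat_lit 0, nat_lit 774, nat_lit 0, nat_lit 0, nat_lit 0, nat_lit 0, nat_lit 0, nat_lit 0, nat_lit 0, nat_lit 87, nat_lit 400000, nat_lit 0, nat_lit 0, [(nat_lit 9, [(nat_lit 5, nat_lit 1000)])],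
 ⟨p029_k8, nat_lit 0, nat_lit 0, nat_lit 432, nat_lit 0, nat_lit 246049, [nat_lit 2918400000, nat_lit 9200000], [], [nat_lit 16558191640, nat_lit 17198092160, nat_lit 15311217880, nat_lit 15913320000, nat_lit 15311217880, nat_lit 15913320000, nat_lit 14686330000, nat_lit 14895777120], nat_lit 1271250, nat_lit 1271250, nat_lit 0, nat_lit 490000, nat_lit 0, nat_lit 490000, [nat_lit 1100000, nat_lit 2127500], [nat_lit 70, nat_lit 40, nat_lit 20, nat_lit 80, nat_lit 13, nat_lit 345, nat_lit 125, nat_lit 10]⟩, C1.Rw.none,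
 ⟨nat_lit 5477, nat_lit 5701, ⟨.ofNat (nat_lit 73719), .ofNat (nat_lit 227157), .ofNat (nat_lit 116403), .ofNat (nat_lit 269841), .ofNat (nat_lit 82619), .ofNat (nat_lit 232485), .ofNat (nat_lit 125333), .ofNat (nat_lit 275199)⟩, ⟨.negSucc (nat_lit 75673), .ofNat (nat_lit 77764), .negSucc (nat_lit 54331), .ofNat (nat_lit 99106), .negSucc (nat_lit 66879), .ofNat (nat_lit 82986), .negSucc (nat_lit 45522), .ofNat (nat_lit 104343)⟩⟩, [⟨nat_lit 0, nat_lit 100, nat_lit 92, nat_lit 40, nat_lit 152690902⟩]⟩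
noncomputable def p029_l24 : Lf2 := ⟨nat_lit 0, nat_lit 8, [nat_lit 50, nat_lit 5, nat_lit 5, nat_lit 20], false, nat_lit 0, nat_lit 80, nat_lit 0, nat_lit 352, ⟨nat_lit 0, nat_lit 0, nat_lit 1000, nat_lit 4, nat_lit 129, nat_lit 0, nat_lit 17, nat_lit 329, nat_lit 17, nat_lit 216, nat_lit 153600, nat_lit 311, nat_lit 60725656, nat_lit 0, nat_lit 0, nat_lit 1554473, false, false⟩,
 nat_lit 0, nat_lit 12799, nat_lit 0, nat_lit 0, nat_lit 6775, nat_lit 0, nat_lit 0, nat_lit 0, nat_lit 0, nat_lit 0, nat_lit 0, nat_lit 0, nat_lit 0, nat_lit 0, nat_lit 147, nat_lit 1000000, nat_lit 0, nat_lit 0, [(nat_lit 6, [(nat_lit 6, nat_lit 1000)]), (nat_lit 9, [(nat_lit 6, nat_lit 1000)])],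
 ⟨p029_k5, nat_lit 0, nat_lit 0, nat_lit 340, nat_lit 0, nat_lit 289936, [nat_lit 3449600001, nat_lit 3042400001, nat_lit 177599999], [], [nat_lit 19395886203, nat_lit 16089540600, nat_lit 17446730803, nat_lit 16301023800, nat_lit 13714699703, nat_lit 10592892499, nat_lit 19650007503, nat_lit 13265166203], nat_lit 1271250, nat_lit 1271250, nat_lit 490000, nat_lit 1100001, nat_lit 0, nat_lit 490000, [nat_lit 1100000, nat_lit 1442500, nat_lit 1271250], [nat_lit 11, nat_lit 40, nat_lit 20, nat_lit 80, nat_lit 1, nat_lit 373, nat_lit 150, nat_lit 11]⟩, ⟨p029_k6, nat_lit 0, nat_lit 0, nat_lit 654, nat_lit 0, nat_lit 510539, [nat_lit 0, nat_lit 0, nat_lit 0], [], [nat_lit 0, nat_lit 0, nat_lit 0, nat_lit 0, nat_lit 0, nat_lit 0, nat_lit 0, nat_lit 0], nat_lit 1100001, nat_lit 1442500, nat_lit 490000, nat_lit 1100001, nat_lit 0, nat_lit 2486000, [nat_lit 1695000, nat_lit 1271250, nat_lit 1271250], [nat_lit 92, nat_lit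 40, nat_lit 20, nat_lit 80, nat_lit 32, nat_lit 428, nat_lit 200, nat_lit 10]⟩,
 ⟨nat_lit 5477, nat_lit 6325, ⟨.ofNat (nat_lit 210470), .ofNat (nat_lit 374999), .ofNat (nat_lit 253206), .ofNat (nat_lit 417734), .ofNat (nat_lit 232485), .ofNat (nat_lit 382351), .ofNat (nat_lit 275199), .ofNat (nat_lit 425065)⟩, ⟨.negSucc (nat_lit 103633), .ofNat (nat_lit 60895), .negSucc (nat_lit 82265), .ofNat (nat_lit 82263), .negSucc (nat_lit 66879), .ofNat (nat_lit 82986), .negSucc (nat_lit 45522), .ofNat (nat_lit 104343)⟩⟩, []⟩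
noncomputable def p029_l25 : Lf2 := ⟨nat_lit 0, nat_lit 1, [nat_lit 19, nat_lit 5, nat_lit 5, nat_lit 20], true, nat_lit 80, nat_lit 160, nat_lit 0, nat_lit 352, ⟨nat_lit 0, nat_lit 0, nat_lit 1000, nat_lit 4, nat_lit 78, nat_lit 1000, nat_lit 62, nat_lit 1000, nat_lit 36817, nat_lit 262, nat_lit 56067, nat_lit 273, nat_lit 62232241, nat_lit 0, nat_lit 0, nat_lit 1603386, false, false⟩,
 nat_lit 0, nat_lit 8833, nat_lit 0, nat_lit 0, nat_lit 4676, nat_lit 0, nat_lit 849, nat_lit 0, nat_lit 0, nat_lit 0, nat_lit 0, nat_lit 0, nat_lit 0, nat_lit 0, nat_lit 10, nat_lit 1000000, nat_lit 0, nat_lit 0, [(nat_lit 6, [(nat_lit 6, nat_lit 1000)])],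
 ⟨p029_k9, nat_lit 0, nat_lit 0, nat_lit 240, nat_lit 0, nat_lit 135439, [nat_lit 1137066667, nat_lit 8000000], [], [nat_lit 9844641643, nat_lit 10755549572, nat_lit 9099020875, nat_lit 9230717607, nat_lit 11227987659, nat_lit 11869951435, nat_lit 13422330635, nat_lit 12257337967], nat_lit 1271250, nat_lit 1271250, nat_lit 0, nat_lit 780000, nat_lit 490000, nat_lit 1100001, [nat_lit 1100000, nat_lit 1442500], [nat_lit 31, nat_lit 40, nat_lit 20, nat_lit 80, nat_lit 3, nat_lit 289, nat_lit 75, nat_lit 11]⟩, C1.Rw.none,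
 ⟨nat_lit 6123, nat_lit 6325, ⟨.ofNat (nat_lit 45942), .ofNat (nat_lit 292734), .ofNat (nat_lit 88677), .ofNat (nat_lit 335470), .ofNat (nat_lit 55399), .ofNat (nat_lit 296541), .ofNat (nat_lit 98095), .ofNat (nat_lit 339237)⟩, ⟨.ofNat (nat_lit 60895), .ofNat (nat_lit 225423), .ofNat (nat_lit 82263), .ofNat (nat_lit 246791), .ofNat (nat_lit 66723), .ofNat (nat_lit 227485), .ofNat (nat_lit 88071), .ofNat (nat_lit 248833)⟩⟩, [⟨nat_lit 0, nat_lit 100, nat_lit 97, nat_lit 25, nat_lit 67221423⟩]⟩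
noncomputable def p029_l26 : Lf2 := ⟨nat_lit 0, nat_lit 2, [nat_lit 10, nat_lit 5, nat_lit 5, nat_lit 20], true, nat_lit 80, nat_lit 160, nat_lit 0, nat_lit 352, ⟨nat_lit 0, nat_lit 0, nat_lit 1000, nat_lit 4, nat_lit 61, nat_lit 1000, nat_lit 62, nat_lit 1000, nat_lit 36817, nat_lit 262, nat_lit 35267, nat_lit 261, nat_lit 63229784, nat_lit 0, nat_lit 0, nat_lit 1341537, false, false⟩,
 nat_lit 0, nat_lit 8448, nat_lit 0, nat_lit 0, nat_lit 4472, nat_lit 0, nat_lit 0, nat_lit 0, nat_lit 0, nat_lit 0, nat_lit 0, nat_lit 0, nat_lit 0, nat_lit 0, nat_lit 41, nat_lit 400000, nat_lit 0, nat_lit 0, [(nat_lit 6, [(nat_lit 5, nat_lit 1000)])],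
 ⟨p029_k10, nat_lit 0, nat_lit 0, nat_lit 231, nat_lit 0, nat_lit 25462, [nat_lit 2073600001, nat_lit 7600000], [], [nat_lit 9591442016, nat_lit 10628641784, nat_lit 7229874977, nat_lit 8084564201, nat_lit 10986052769, nat_lit 11791203977, nat_lit 9008385601, nat_lit 9770327649], nat_lit 1271250, nat_lit 1271250, nat_lit 0, nat_lit 490000, nat_lit 490000, nat_lit 1100001, [nat_lit 1100000, nat_lit 1785000], [nat_lit 39, nat_lit 40, nat_lit 20, nat_lit 80, nat_lit 7, nat_lit 272, nat_lit 60, nat_lit 9]⟩, C1.Rw.none,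
 ⟨nat_lit 6123, nat_lit 6325, ⟨.ofNat (nat_lit 45942), .ofNat (nat_lit 210470), .ofNat (nat_lit 88677), .ofNat (nat_lit 253206), .ofNat (nat_lit 55399), .ofNat (nat_lit 216160), .ofNat (nat_lit 98095), .ofNat (nat_lit 258856)⟩, ⟨.ofNat (nat_lit 60895), .ofNat (nat_lit 225423), .ofNat (nat_lit 82263), .ofNat (nat_lit 246791), .ofNat (nat_lit 66723), .ofNat (nat_lit 227485), .ofNat (nat_lit 88071), .ofNat (nat_lit 248833)⟩⟩, [⟨nat_lit 0, nat_lit 100, nat_lit 97, nat_lit 25, nat_lit 225820235⟩]⟩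
noncomputable def p029_l27 : Lf2 := ⟨nat_lit 2, nat_lit 2, [nat_lit 10, nat_lit 5, nat_lit 5, nat_lit 20], true, nat_lit 80, nat_lit 160, nat_lit 0, nat_lit 352, zbN0,
 nat_lit 0, nat_lit 0, nat_lit 0, nat_lit 0, nat_lit 0, nat_lit 0, nat_lit 0, nat_lit 0, nat_lit 0, nat_lit 0, nat_lit 0, nat_lit 0, nat_lit 0, nat_lit 0, nat_lit 0, nat_lit 0, nat_lit 0, nat_lit 0, [],
 ⟨p029_k10, nat_lit 0, nat_lit 0, nat_lit 193, nat_lit 0, nat_lit 45670, [], [], [], nat_lit 1271250, nat_lit 1271250, nat_lit 490000, nat_lit 780000, nat_lit 490000, nat_lit 1100001, [nat_lit 1100000, nat_lit 1785000], [nat_lit 39, nat_lit 40, nat_lit 20, nat_lit 80, nat_lit 7, nat_lit 289, nat_lit 75, nat_lit 9]⟩, C1.Rw.none,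
 zbF0, []⟩
noncomputable def p029_l28 : Lf2 := ⟨nat_lit 1, nat_lit 5, [nat_lit 4, nat_lit 5, nat_lit 5, nat_lit 20], false, nat_lit 80, nat_lit 160, nat_lit 0, nat_lit 352, zbN0,
 nat_lit 0, nat_lit 0, nat_lit 0, nat_lit 0, nat_lit 0, nat_lit 0, nat_lit 0, nat_lit 0, nat_lit 0, nat_lit 0, nat_lit 0, nat_lit 0, nat_lit 0, nat_lit 0, nat_lit 0, nat_lit 0, nat_lit 0, nat_lit 0, [],
 C1.Rw.none, C1.Rw.none,
 zbF0, []⟩
noncomputable def p029_l29 : Lf2 := ⟨nat_lit 0, nat_lit 2, [nat_lit 10, nat_lit 5, nat_lit 5, nat_lit 20], false, nat_lit 80, nat_lit 160, nat_lit 0, nat_lit 352, ⟨nat_lit 0, nat_lit 0, nat_lit 1000, nat_lit 4, nat_lit 80, nat_lit 1000, nat_lit 64, nat_lit 1000, nat_lit 38400, nat_lit 263, nat_lit 60000, nat_lit 275, nat_lit 61967258, nat_lit 0, nat_lit 0, nat_lit 1670729, false, false⟩,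
 nat_lit 0, nat_lit 8624, nat_lit 0, nat_lit 0, nat_lit 4791, nat_lit 0, nat_lit 1645, nat_lit 0, nat_lit 0, nat_lit 0, nat_lit 0, nat_lit 0, nat_lit 0, nat_lit 0, nat_lit 41, nat_lit 400000, nat_lit 0, nat_lit 0, [(nat_lit 6, [(nat_lit 5, nat_lit 1000)])],
 ⟨p029_k11, nat_lit 0, nat_lit 0, nat_lit 234, nat_lit 0, nat_lit 128619, [nat_lit 2073600001, nat_lit 7600000], [], [nat_lit 10916555265, nat_lit 11906611906, nat_lit 9427621704, nat_lit 10132191986, nat_lit 12187140162, nat_lit 12889957354, nat_lit 13501605536, nat_lit 12324883235], nat_lit 1271250, nat_lit 1271250, nat_lit 0, nat_lit 780000, nat_lit 490000, nat_lit 1100001, [nat_lit 1100000, nat_lit 1785000], [nat_lit 39, nat_lit 40, nat_lit 20, nat_lit 80, nat_lit 7, nat_lit 289, nat_lit 75, nat_lit 10]⟩, ⟨p029_k12, nat_lit 0, nat_lit 0, nat_lit 526, nat_lit 0, nat_lit 232836, [nat_lit 0, nat_lit 0], [], [nat_lit 0, nat_lit 0, nat_lit 0, nat_lit 0,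 nat_lit 0, nat_lit 0, nat_lit 0, nat_lit 0], nat_lit 1100001, nat_lit 1442500, nat_lit 0, nat_lit 780000, nat_lit 0, nat_lit 2486000, [nat_lit 1695000, nat_lit 1271250], [nat_lit 143, nat_lit 40, nat_lit 20, nat_lit 80, nat_lit 14, nat_lit 401, nat_lit 175, nat_lit 11]⟩,
 ⟨nat_lit 5916, nat_lit 6124, ⟨.ofNat (nat_lit 55399), .ofNat (nat_lit 296541), .ofNat (nat_lit 98095), .ofNat (nat_lit 339237), .ofNat (nat_lit 64652), .ofNat (nat_lit 300253), .ofNat (nat_lit 107331), .ofNat (nat_lit 342931)⟩, ⟨.ofNat (nat_lit 66723), .ofNat (nat_lit 227485), .ofNat (nat_lit 88071), .ofNat (nat_lit 248833), .ofNat (nat_lit 72344), .ofNat (nat_lit 229411), .ofNat (nat_lit 93684), .ofNat (nat_lit 250751)⟩⟩, [⟨nat_lit 0, nat_lit 100, nat_lit 95, nat_lit 30, nat_lit 69022799⟩]⟩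
noncomputable def p029_l30 : Lf2 := ⟨nat_lit 0, nat_lit 5, [nat_lit 4, nat_lit 5, nat_lit 5, nat_lit 20], true, nat_lit 80, nat_lit 160, nat_lit 0, nat_lit 352, ⟨nat_lit 0, nat_lit 0, nat_lit 1000, nat_lit 4, nat_lit 80, nat_lit 1000, nat_lit 63, nat_lit 1000, nat_lit 38400, nat_lit 263, nat_lit 60000, nat_lit 275, nat_lit 62032584, nat_lit 0, nat_lit 0, nat_lit 1654245, false, false⟩,
 nat_lit 0, nat_lit 7943, nat_lit 0, nat_lit 0, nat_lit 4412, nat_lit 0, nat_lit 0, nat_lit 0, nat_lit 0, nat_lit 0, nat_lit 0, nat_lit 0, nat_lit 0, nat_lit 0, nat_lit 41, nat_lit 400000, nat_lit 0, nat_lit 0, [(nat_lit 6, [(nat_lit 5, nat_lit 1000)])],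
 ⟨p029_k13, nat_lit 0, nat_lit 0, nat_lit 227, nat_lit 0, nat_lit 32961, [nat_lit 2073600001, nat_lit 7600000], [], [nat_lit 10591315964, nat_lit 11105935778, nat_lit 8686377109, nat_lit 9089736623, nat_lit 11834899997, nat_lit 12234604931, nat_lit 10330536713, nat_lit 10689921237], nat_lit 1271250, nat_lit 1271250, nat_lit 0, nat_lit 780000, nat_lit 490000, nat_lit 1100001, [nat_lit 1100000, nat_lit 1785000], [nat_lit 39, nat_lit 40, nat_lit 20, nat_lit 80, nat_lit 7, nat_lit 289, nat_lit 75, nat_lit 10]⟩, C1.Rw.none,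
 ⟨nat_lit 6020, nat_lit 6124, ⟨.ofNat (nat_lit 55399), .ofNat (nat_lit 296541), .ofNat (nat_lit 98095), .ofNat (nat_lit 339237), .ofNat (nat_lit 60050), .ofNat (nat_lit 298408), .ofNat (nat_lit 102734), .ofNat (nat_lit 341093)⟩, ⟨.ofNat (nat_lit 66723), .ofNat (nat_lit 227485), .ofNat (nat_lit 88071), .ofNat (nat_lit 248833), .ofNat (nat_lit 69559), .ofNat (nat_lit 228465), .ofNat (nat_lit 90902), .ofNat (nat_lit 249807)⟩⟩, [⟨nat_lit 0, nat_lit 100, nat_lit 96, nat_lit 28, nat_lit 166715054⟩]⟩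
noncomputable def p029_l31 : Lf2 := ⟨nat_lit 0, nat_lit 5, [nat_lit 4, nat_lit 5, nat_lit 5, nat_lit 20], false, nat_lit 80, nat_lit 160, nat_lit 0, nat_lit 352, ⟨nat_lit 0, nat_lit 0, nat_lit 1000, nat_lit 4, nat_lit 81, nat_lit 1000, nat_lit 64, nat_lit 1000, nat_lit 38400, nat_lit 263, nat_lit 62017, nat_lit 276, nat_lit 61900689, nat_lit 0, nat_lit 0, nat_lit 1687458, false, false⟩,
 nat_lit 0, nat_lit 8624, nat_lit 0, nat_lit 0, nat_lit 4904, nat_lit 0, nat_lit 142, nat_lit 0, nat_lit 0, nat_lit 0, nat_lit 0, nat_lit 0, nat_lit 0, nat_lit 0, nat_lit 80, nat_lit 1000000, nat_lit 0, nat_lit 0, [(nat_lit 6, [(nat_lit 6, nat_lit 1000)])],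
 ⟨p029_k14, nat_lit 0, nat_lit 0, nat_lit 225, nat_lit 0, nat_lit 42654, [nat_lit 2814000001, nat_lit 141466667], [], [nat_lit 11623765693, nat_lit 12020377177, nat_lit 9843523266, nat_lit 10144253482, nat_lit 12602978158, nat_lit 12948112690, nat_lit 13211331286, nat_lit 12609093114], nat_lit 1271250, nat_lit 1271250, nat_lit 0, nat_lit 780000, nat_lit 490000, nat_lit 1100001, [nat_lit 1100000, nat_lit 1785000], [nat_lit 39, nat_lit 40, nat_lit 20, nat_lit 80, nat_lit 7, nat_lit 289, nat_lit 75, nat_lit 10]⟩, ⟨p029_k15, nat_lit 0, nat_lit 0, nat_lit 557, nat_lit 0, nat_lit 80558, [nat_lit 0, nat_lit 0], [], [nat_lit 0, nat_lit 0, nat_lit 0, nat_lit 0, nat_lit 0, nat_lit 0, nat_lit 0, nat_lit 0], nat_lit 1100001, nat_lit 1442500, nat_lit 0, nat_lit 780000, nat_lit 0, nat_lit 2486000, [nat_lit 1695000, nat_lit 1271250], [nat_lit 121, nat_lit 40, nat_lit 20, nat_lit 80, nat_lit 28, nat_lit 401, nat_lit 175,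 nat_lit 10]⟩,
 ⟨nat_lit 5916, nat_lit 6021, ⟨.ofNat (nat_lit 60050), .ofNat (nat_lit 298408), .ofNat (nat_lit 102734), .ofNat (nat_lit 341093), .ofNat (nat_lit 64652), .ofNat (nat_lit 300253), .ofNat (nat_lit 107331), .ofNat (nat_lit 342931)⟩, ⟨.ofNat (nat_lit 69559), .ofNat (nat_lit 228465), .ofNat (nat_lit 90902), .ofNat (nat_lit 249807), .ofNat (nat_lit 72344), .ofNat (nat_lit 229411), .ofNat (nat_lit 93684), .ofNat (nat_lit 250751)⟩⟩, [⟨nat_lit 0, nat_lit 100, nat_lit 95, nat_lit 30, nat_lit 88719203⟩]⟩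
noncomputable def p029_l32 : Lf2 := ⟨nat_lit 0, nat_lit 5, [nat_lit 4, nat_lit 5, nat_lit 5, nat_lit 20], false, nat_lit 80, nat_lit 120, nat_lit 0, nat_lit 352, ⟨nat_lit 0, nat_lit 0, nat_lit 1000, nat_lit 4, nat_lit 83, nat_lit 1000, nat_lit 50, nat_lit 1000, nat_lit 22817, nat_lit 252, nat_lit 64067, nat_lit 277, nat_lit 62577428, nat_lit 0, nat_lit 0, nat_lit 1489085, false, false⟩,
 nat_lit 0, nat_lit 7665, nat_lit 0, nat_lit 0, nat_lit 4461, nat_lit 0, nat_lit 0, nat_lit 0, nat_lit 0, nat_lit 0, nat_lit 0, nat_lit 0, nat_lit 0, nat_lit 0, nat_lit 117, nat_lit 1000000, nat_lit 0, nat_lit 0, [(nat_lit 9, [(nat_lit 6, nat_lit 1000)])],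
 ⟨p029_k16, nat_lit 0, nat_lit 0, nat_lit 234, nat_lit 0, nat_lit 186681, [nat_lit 3178400000, nat_lit 158133334], [], [nat_lit 11743033398, nat_lit 12693279535, nat_lit 10636774064, nat_lit 11316032686, nat_lit 12460307495, nat_lit 13179702886, nat_lit 11341148107, nat_lit 11983053576], nat_lit 1271250, nat_lit 1271250, nat_lit 0, nat_lit 780000, nat_lit 490000, nat_lit 780000, [nat_lit 1100000, nat_lit 1785000], [nat_lit 39, nat_lit 40, nat_lit 20, nat_lit 80, nat_lit 7, nat_lit 272, nat_lit 60, nat_lit 9]⟩, ⟨p029_k15, nat_lit 0, nat_lit 0, nat_lit 651, nat_lit 0, nat_lit 362061, [nat_lit 0, nat_lit 0], [], [nat_lit 0, nat_lit 0, nat_lit 0, nat_lit 0, nat_lit 0, nat_lit 0, nat_lit 0, nat_lit 0], nat_lit 1100001, nat_lit 1442500, nat_lit 0, nat_lit 780000, nat_lit 0, nat_lit 2486000, [nat_lit 1695000, nat_lit 1271250], [nat_lit 121, nat_lit 40, nat_lit 20, nat_lit 80, nat_lit 28, nat_lit 401, nat_lit 175,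 nat_lit 10]⟩,
 ⟨nat_lit 5700, nat_lit 5917, ⟨.ofNat (nat_lit 64652), .ofNat (nat_lit 300253), .ofNat (nat_lit 107331), .ofNat (nat_lit 342931), .ofNat (nat_lit 73719), .ofNat (nat_lit 303876), .ofNat (nat_lit 116403), .ofNat (nat_lit 346560)⟩, ⟨.ofNat (nat_lit 72344), .ofNat (nat_lit 150878), .ofNat (nat_lit 93684), .ofNat (nat_lit 172217), .ofNat (nat_lit 77764), .ofNat (nat_lit 154483), .ofNat (nat_lit 99106), .ofNat (nat_lit 175825)⟩⟩, [⟨nat_lit 0, nat_lit 100, nat_lit 94, nat_lit 35, nat_lit 148577468⟩]⟩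
noncomputable def p029_l33 : Lf2 := ⟨nat_lit 0, nat_lit 5, [nat_lit 4, nat_lit 5, nat_lit 5, nat_lit 20], true, nat_lit 120, nat_lit 160, nat_lit 0, nat_lit 352, ⟨nat_lit 0, nat_lit 0, nat_lit 1000, nat_lit 4, nat_lit 83, nat_lit 1000, nat_lit 81, nat_lit 1000, nat_lit 62017, nat_lit 276, nat_lit 64067, nat_lit 277, nat_lit 60705283, nat_lit 0, nat_lit 0, nat_lit 1988100, false, false⟩,
 nat_lit 0, nat_lit 8799, nat_lit 0, nat_lit 3370, nat_lit 5121, nat_lit 0, nat_lit 2034, nat_lit 0, nat_lit 0, nat_lit 0, nat_lit 0, nat_lit 0, nat_lit 0, nat_lit 0, nat_lit 117, nat_lit 1000000, nat_lit 0, nat_lit 0, [(nat_lit 9, [(nat_lit 6, nat_lit 1000)])],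
 ⟨p029_k16, nat_lit 0, nat_lit 0, nat_lit 264, nat_lit 0, nat_lit 321104, [nat_lit 3178400000, nat_lit 158133334], [], [nat_lit 15061939880, nat_lit 13728180551, nat_lit 13905847797, nat_lit 12665400770, nat_lit 13055329074, nat_lit 14070238813, nat_lit 16779460908, nat_lit 15556340784], nat_lit 1271250, nat_lit 1271250, nat_lit 0, nat_lit 780000, nat_lit 780000, nat_lit 1100001, [nat_lit 1100000, nat_lit 1785000], [nat_lit 39, nat_lit 40, nat_lit 20, nat_lit 80, nat_lit 7, nat_lit 289, nat_lit 75, nat_lit 10]⟩, C1.Rw.none,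
 ⟨nat_lit 5700, nat_lit 5917, ⟨.ofNat (nat_lit 64652), .ofNat (nat_lit 300253), .ofNat (nat_lit 107331), .ofNat (nat_lit 342931), .ofNat (nat_lit 73719), .ofNat (nat_lit 303876), .ofNat (nat_lit 116403), .ofNat (nat_lit 346560)⟩, ⟨.ofNat (nat_lit 150878), .ofNat (nat_lit 229411), .ofNat (nat_lit 172217), .ofNat (nat_lit 250751), .ofNat (nat_lit 154483), .ofNat (nat_lit 231202), .ofNat (nat_lit 175825), .ofNat (nat_lit 252544)⟩⟩, [⟨nat_lit 0, nat_lit 100, nat_lit 94, nat_lit 35, nat_lit 29756522⟩]⟩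
noncomputable def p029_l34 : Lf2 := ⟨nat_lit 0, nat_lit 5, [nat_lit 4, nat_lit 5, nat_lit 5, nat_lit 20], false, nat_lit 80, nat_lit 160, nat_lit 0, nat_lit 352, ⟨nat_lit 0, nat_lit 0, nat_lit 1000, nat_lit 4, nat_lit 85, nat_lit 1000, nat_lit 67, nat_lit 1000, nat_lit 41667, nat_lit 265, nat_lit 68267, nat_lit 279, nat_lit 61444663, nat_lit 0, nat_lit 0, nat_lit 1800016, false, false⟩,
 nat_lit 0, nat_lit 7273, nat_lit 0, nat_lit 0, nat_lit 4429, nat_lit 0, nat_lit 0, nat_lit 0, nat_lit 0, nat_lit 0, nat_lit 0, nat_lit 0, nat_lit 0, nat_lit 0, nat_lit 117, nat_lit 1000000, nat_lit 0, nat_lit 0, [(nat_lit 9, [(nat_lit 6, nat_lit 1000)])],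
 ⟨p029_k17, nat_lit 0, nat_lit 0, nat_lit 250, nat_lit 0, nat_lit 236089, [nat_lit 3178400000, nat_lit 158133334], [], [nat_lit 12664881615, nat_lit 13696376616, nat_lit 11384073454, nat_lit 12060877612, nat_lit 13902447936, nat_lit 14577857384, nat_lit 12722280385, nat_lit 13324771420], nat_lit 1271250, nat_lit 1271250, nat_lit 0, nat_lit 780000, nat_lit 490000, nat_lit 1100001, [nat_lit 1100000, nat_lit 1785000], [nat_lit 39, nat_lit 40, nat_lit 20, nat_lit 80, nat_lit 7, nat_lit 289, nat_lit 75, nat_lit 10]⟩, ⟨p029_k15, nat_lit 0, nat_lit 0, nat_lit 744, nat_lit 0, nat_lit 482176, [nat_lit 0, nat_lit 0], [], [nat_lit 0, nat_lit 0, nat_lit 0, nat_lit 0, nat_lit 0, nat_lit 0, nat_lit 0, nat_lit 0], nat_lit 1100001, nat_lit 1442500, nat_lit 0, nat_lit 780000, nat_lit 0, nat_lit 2486000, [nat_lit 1695000, nat_lit 1271250], [nat_lit 121, nat_lit 40, nat_lit 20, nat_lit 80, nat_lit 28, nat_lit 401, nat_lit 175,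 nat_lit 10]⟩,
 ⟨nat_lit 5477, nat_lit 5701, ⟨.ofNat (nat_lit 73719), .ofNat (nat_lit 303876), .ofNat (nat_lit 116403), .ofNat (nat_lit 346560), .ofNat (nat_lit 82619), .ofNat (nat_lit 307418), .ofNat (nat_lit 125333), .ofNat (nat_lit 350132)⟩, ⟨.ofNat (nat_lit 77764), .ofNat (nat_lit 231202), .ofNat (nat_lit 99106), .ofNat (nat_lit 252544), .ofNat (nat_lit 82986), .ofNat (nat_lit 232852), .ofNat (nat_lit 104343), .ofNat (nat_lit 254209)⟩⟩, [⟨nat_lit 0, nat_lit 100, nat_lit 92, nat_lit 40, nat_lit 150400812⟩]⟩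
noncomputable def p029_l35 : Lf2 := ⟨nat_lit 0, nat_lit 8, [nat_lit 50, nat_lit 5, nat_lit 5, nat_lit 20], true, nat_lit 80, nat_lit 160, nat_lit 0, nat_lit 352, ⟨nat_lit 0, nat_lit 0, nat_lit 1000, nat_lit 4, nat_lit 81, nat_lit 1000, nat_lit 64, nat_lit 1000, nat_lit 38400, nat_lit 263, nat_lit 62017, nat_lit 276, nat_lit 61849407, nat_lit 0, nat_lit 0, nat_lit 1700208, false, false⟩,
 nat_lit 0, nat_lit 13894, nat_lit 0, nat_lit 8212, nat_lit 7355, nat_lit 0, nat_lit 0, nat_lit 0, nat_lit 0, nat_lit 0, nat_lit 0, nat_lit 0, nat_lit 0, nat_lit 0, nat_lit 93, nat_lit 586000, nat_lit 0, nat_lit 0, [(nat_lit 6, [(nat_lit 5, nat_lit 690), (nat_lit 6, nat_lit 310)]), (nat_lit 9, [(nat_lit 5, nat_lit 690), (nat_lit 6, nat_lit 310)])],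
 ⟨p029_k18, nat_lit 0, nat_lit 0, nat_lit 238, nat_lit 0, nat_lit 117783, [nat_lit 3225696000, nat_lit 2160000], [], [nat_lit 22565975220, nat_lit 16681200920, nat_lit 19363762880, nat_lit 12432322620, nat_lit 20709186780, nat_lit 16727388760, nat_lit 25979847620, nat_lit 19231311500], nat_lit 1271250, nat_lit 1271250, nat_lit 0, nat_lit 780000, nat_lit 490000, nat_lit 1100001, [nat_lit 1100000, nat_lit 2127500], [nat_lit 70, nat_lit 40, nat_lit 20, nat_lit 80, nat_lit 13, nat_lit 373, nat_lit 150, nat_lit 11]⟩, C1.Rw.none,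
 ⟨nat_lit 5477, nat_lit 6325, ⟨.ofNat (nat_lit 45942), .ofNat (nat_lit 292734), .ofNat (nat_lit 88677), .ofNat (nat_lit 335470), .ofNat (nat_lit 82619), .ofNat (nat_lit 307418), .ofNat (nat_lit 125333), .ofNat (nat_lit 350132)⟩, ⟨.ofNat (nat_lit 60895), .ofNat (nat_lit 225423), .ofNat (nat_lit 82263), .ofNat (nat_lit 246791), .ofNat (nat_lit 82986), .ofNat (nat_lit 232852), .ofNat (nat_lit 104343), .ofNat (nat_lit 254209)⟩⟩, []⟩
noncomputable def p029_l36 : Lf2 := ⟨nat_lit 0, nat_lit 8, [nat_lit 50, nat_lit 5, nat_lit 5, nat_lit 20], false, nat_lit 80, nat_lit 160, nat_lit 0, nat_lit 352, ⟨nat_lit 0, nat_lit 0, nat_lit 1000, nat_lit 4, nat_lit 143, nat_lit 1000, nat_lit 63, nat_lit 1000, nat_lit 36817, nat_lit 262, nat_lit 190817, nat_lit 322, nat_lit 56926948, nat_lit 0, nat_lit 0, nat_lit 2640415, false, false⟩,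
 nat_lit 0, nat_lit 37993, nat_lit 0, nat_lit 0, nat_lit 20113, nat_lit 0, nat_lit 0, nat_lit 0, nat_lit 0, nat_lit 0, nat_lit 0, nat_lit 0, nat_lit 0, nat_lit 0, nat_lit 147, nat_lit 1000000, nat_lit 4658698696, nat_lit 0, [(nat_lit 6, [(nat_lit 6, nat_lit 1000)])],
 ⟨p029_k5, nat_lit 0, nat_lit 0, nat_lit 181, nat_lit 0, nat_lit 148757, [nat_lit 3329066667, nat_lit 3042400001, nat_lit 177599999], [], [nat_lit 14169340668, nat_lit 5838050902, nat_lit 1689603272, nat_lit 6974116666, nat_lit 0, nat_lit 4984818322, nat_lit 1339655668, nat_lit 5943301382], nat_lit 1271250, nat_lit 1271250, nat_lit 780000, nat_lit 1100001, nat_lit 490000, nat_lit 1100001, [nat_lit 1100000, nat_lit 1442500, nat_lit 1271250], [nat_lit 11, nat_lit 40, nat_lit 20, nat_lit 80, nat_lit 1, nat_lit 373, nat_lit 150, nat_lit 11]⟩, ⟨p029_k6, nat_lit 0, nat_lit 0, nat_lit 479, nat_lit 0, nat_lit 261941, [nat_lit 0, nat_lit 0, nat_lit 0],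 [], [nat_lit 0, nat_lit 0, nat_lit 0, nat_lit 0, nat_lit 0, nat_lit 0, nat_lit 0, nat_lit 0], nat_lit 1100001, nat_lit 1442500, nat_lit 780000, nat_lit 1100001, nat_lit 0, nat_lit 2486000, [nat_lit 1695000, nat_lit 1271250, nat_lit 1271250], [nat_lit 92, nat_lit 40, nat_lit 20, nat_lit 80, nat_lit 32, nat_lit 428, nat_lit 200, nat_lit 10]⟩,
 ⟨nat_lit 5916, nat_lit 6325, ⟨.ofNat (nat_lit 292734), .ofNat (nat_lit 374999), .ofNat (nat_lit 335470), .ofNat (nat_lit 417734), .ofNat (nat_lit 300253), .ofNat (nat_lit 378786), .ofNat (nat_lit 342931), .ofNat (nat_lit 421465)⟩, ⟨.ofNat (nat_lit 60895), .ofNat (nat_lit 225423), .ofNat (nat_lit 82263), .ofNat (nat_lit 246791), .ofNat (nat_lit 72344), .ofNat (nat_lit 229411), .ofNat (nat_lit 93684), .ofNat (nat_lit 250751)⟩⟩, []⟩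
noncomputable def p029_l37 : Lf2 := ⟨nat_lit 0, nat_lit 8, [nat_lit 50, nat_lit 5, nat_lit 5, nat_lit 20], false, nat_lit 80, nat_lit 160, nat_lit 0, nat_lit 352, ⟨nat_lit 0, nat_lit 0, nat_lit 1000, nat_lit 4, nat_lit 145, nat_lit 1000, nat_lit 66, nat_lit 1000, nat_lit 41667, nat_lit 265, nat_lit 198017, nat_lit 324, nat_lit 56551663, nat_lit 0, nat_lit 0, nat_lit 2717518, false, false⟩,
 nat_lit 0, nat_lit 8079, nat_lit 0, nat_lit 0, nat_lit 4702, nat_lit 0, nat_lit 309, nat_lit 0, nat_lit 0, nat_lit 0, nat_lit 0, nat_lit 0, nat_lit 0, nat_lit 0, nat_lit 192, nat_lit 1000000, nat_lit 0, nat_lit 0, [(nat_lit 9, [(nat_lit 6, nat_lit 1000)])],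
 ⟨p029_k7, nat_lit 0, nat_lit 0, nat_lit 179, nat_lit 0, nat_lit 259354, [nat_lit 4169600001, nat_lit 3411333334, nat_lit 231866666], [], [nat_lit 9447470578, nat_lit 10738498054, nat_lit 10341207374, nat_lit 11551675422, nat_lit 10661672674, nat_lit 11799323934, nat_lit 13307588866, nat_lit 12687581600], nat_lit 1271250, nat_lit 1271250, nat_lit 780000, nat_lit 1100001, nat_lit 490000, nat_lit 1100001, [nat_lit 1100000, nat_lit 1442500, nat_lit 1271250], [nat_lit 11, nat_lit 40, nat_lit 20, nat_lit 80, nat_lit 1, nat_lit 373, nat_lit 150, nat_lit 11]⟩, ⟨p029_k6, nat_lit 0, nat_lit 0, nat_lit 631, nat_lit 0, nat_lit 510539, [nat_lit 0, nat_lit 0, nat_lit 0], [], [nat_lit 0, nat_lit 0, nat_lit 0, nat_lit 0, nat_lit 0, nat_lit 0, nat_lit 0, nat_lit 0], nat_lit 1100001, nat_lit 1442500, nat_lit 780000, nat_lit 1100001, nat_lit 0, nat_lit 2486000, [nat_lit 1695000, nat_lit 1271250, nat_lit 1271250], [nat_lit 92,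 nat_lit 40, nat_lit 20, nat_lit 80, nat_lit 32, nat_lit 428, nat_lit 200, nat_lit 10]⟩,
 ⟨nat_lit 5477, nat_lit 5917, ⟨.ofNat (nat_lit 300253), .ofNat (nat_lit 378786), .ofNat (nat_lit 342931), .ofNat (nat_lit 421465), .ofNat (nat_lit 307418), .ofNat (nat_lit 382351), .ofNat (nat_lit 350132), .ofNat (nat_lit 425065)⟩, ⟨.ofNat (nat_lit 72344), .ofNat (nat_lit 229411), .ofNat (nat_lit 93684), .ofNat (nat_lit 250751), .ofNat (nat_lit 82986), .ofNat (nat_lit 232852), .ofNat (nat_lit 104343), .ofNat (nat_lit 254209)⟩⟩, []⟩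
noncomputable def p029_l38 : Lf2 := ⟨nat_lit 0, nat_lit 8, [nat_lit 50, nat_lit 5, nat_lit 5, nat_lit 20], true, nat_lit 160, nat_lit 200, nat_lit 0, nat_lit 352, ⟨nat_lit 0, nat_lit 0, nat_lit 1000, nat_lit 4, nat_lit 63, nat_lit 1000, nat_lit 111, nat_lit 1000, nat_lit 114817, nat_lit 298, nat_lit 36817, nat_lit 262, nat_lit 59712503, nat_lit 0, nat_lit 0, nat_lit 2155306, false, false⟩,
 nat_lit 0, nat_lit 8224, nat_lit 0, nat_lit 0, nat_lit 4353, nat_lit 0, nat_lit 84, nat_lit 0, nat_lit 0, nat_lit 0, nat_lit 0, nat_lit 0, nat_lit 0, nat_lit 0, nat_lit 147, nat_lit 1000000, nat_lit 0, nat_lit 0, [(nat_lit 6, [(nat_lit 6, nat_lit 1000)])],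
 ⟨p029_k5, nat_lit 0, nat_lit 0, nat_lit 201, nat_lit 0, nat_lit 148757, [nat_lit 3329066667, nat_lit 3042400001, nat_lit 177599999], [], [nat_lit 12213002907, nat_lit 13410404753, nat_lit 12476341356, nat_lit 11753049264, nat_lit 13818338052, nat_lit 14806100679, nat_lit 15440170894, nat_lit 13270666165], nat_lit 1271250, nat_lit 1271250, nat_lit 0, nat_lit 490000, nat_lit 1100001, nat_lit 1442500, [nat_lit 1100000, nat_lit 1442500, nat_lit 1271250], [nat_lit 11, nat_lit 40, nat_lit 20, nat_lit 80, nat_lit 1, nat_lit 373, nat_lit 150, nat_lit 11]⟩, C1.Rw.none,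
 ⟨nat_lit 5916, nat_lit 6325, ⟨.ofNat (nat_lit 45942), .ofNat (nat_lit 210470), .ofNat (nat_lit 88677), .ofNat (nat_lit 253206), .ofNat (nat_lit 64652), .ofNat (nat_lit 221719), .ofNat (nat_lit 107331), .ofNat (nat_lit 264398)⟩, ⟨.ofNat (nat_lit 225423), .ofNat (nat_lit 307688), .ofNat (nat_lit 246791), .ofNat (nat_lit 329055), .ofNat (nat_lit 229411), .ofNat (nat_lit 307945), .ofNat (nat_lit 250751), .ofNat (nat_lit 329284)⟩⟩, [⟨nat_lit 0, nat_lit 100, nat_lit 95, nat_lit 30, nat_lit 64657905⟩]⟩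
noncomputable def p029_l39 : Lf2 := ⟨nat_lit 0, nat_lit 8, [nat_lit 50, nat_lit 5, nat_lit 5, nat_lit 20], true, nat_lit 160, nat_lit 200, nat_lit 0, nat_lit 352, ⟨nat_lit 0, nat_lit 0, nat_lit 1000, nat_lit 4, nat_lit 67, nat_lit 1000, nat_lit 112, nat_lit 1000, nat_lit 117600, nat_lit 299, nat_lit 41667, nat_lit 265, nat_lit 59394612, nat_lit 0, nat_lit 0, nat_lit 2235796, false, false⟩,
 nat_lit 0, nat_lit 7116, nat_lit 0, nat_lit 0, nat_lit 4142, nat_lit 0, nat_lit 0, nat_lit 0, nat_lit 0, nat_lit 0, nat_lit 0, nat_lit 0, nat_lit 0, nat_lit 0, nat_lit 192, nat_lit 1000000, nat_lit 0, nat_lit 0, [(nat_lit 9, [(nat_lit 6, nat_lit 1000)])],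
 ⟨p029_k7, nat_lit 0, nat_lit 0, nat_lit 217, nat_lit 0, nat_lit 194746, [nat_lit 4169600001, nat_lit 3411333334, nat_lit 231866666], [], [nat_lit 13253005026, nat_lit 13906685130, nat_lit 11923015154, nat_lit 12537797578, nat_lit 14886396676, nat_lit 15490616657, nat_lit 13483051672, nat_lit 14052138669], nat_lit 1271250, nat_lit 1271250, nat_lit 0, nat_lit 490000, nat_lit 1100001, nat_lit 1442500, [nat_lit 1100000, nat_lit 1442500, nat_lit 1271250], [nat_lit 11, nat_lit 40, nat_lit 20, nat_lit 80, nat_lit 1, nat_lit 373, nat_lit 150, nat_lit 11]⟩, C1.Rw.none,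
 ⟨nat_lit 5700, nat_lit 5917, ⟨.ofNat (nat_lit 64652), .ofNat (nat_lit 221719), .ofNat (nat_lit 107331), .ofNat (nat_lit 264398), .ofNat (nat_lit 73719), .ofNat (nat_lit 227157), .ofNat (nat_lit 116403), .ofNat (nat_lit 269841)⟩, ⟨.ofNat (nat_lit 229411), .ofNat (nat_lit 307945), .ofNat (nat_lit 250751), .ofNat (nat_lit 329284), .ofNat (nat_lit 231202), .ofNat (nat_lit 307921), .ofNat (nat_lit 252544), .ofNat (nat_lit 329263)⟩⟩, [⟨nat_lit 0, nat_lit 100, nat_lit 94, nat_lit 35, nat_lit 187877495⟩]⟩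
noncomputable def p029_l40 : Lf2 := ⟨nat_lit 0, nat_lit 8, [nat_lit 50, nat_lit 5, nat_lit 5, nat_lit 20], true, nat_lit 160, nat_lit 200, nat_lit 0, nat_lit 352, ⟨nat_lit 0, nat_lit 0, nat_lit 1000, nat_lit 4, nat_lit 70, nat_lit 1000, nat_lit 112, nat_lit 1000, nat_lit 117600, nat_lit 299, nat_lit 46817, nat_lit 268, nat_lit 59188513, nat_lit 0, nat_lit 0, nat_lit 2287016, false, false⟩,
 nat_lit 0, nat_lit 7714, nat_lit 0, nat_lit 0, nat_lit 4697, nat_lit 0, nat_lit 325, nat_lit 0, nat_lit 0, nat_lit 0, nat_lit 0, nat_lit 0, nat_lit 0, nat_lit 0, nat_lit 192, nat_lit 1000000, nat_lit 0, nat_lit 0, [(nat_lit 9, [(nat_lit 6, nat_lit 1000)])],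
 ⟨p029_k19, nat_lit 0, nat_lit 0, nat_lit 294, nat_lit 0, nat_lit 246049, [nat_lit 4169600001, nat_lit 3411333334, nat_lit 231866666], [], [nat_lit 18785081269, nat_lit 17562034136, nat_lit 11438369278, nat_lit 12003730002, nat_lit 15924422412, nat_lit 16811094206, nat_lit 12919321787, nat_lit 13522543226], nat_lit 1271250, nat_lit 1271250, nat_lit 0, nat_lit 490000, nat_lit 1100001, nat_lit 1442500, [nat_lit 1100000, nat_lit 1442500, nat_lit 1271250], [nat_lit 11, nat_lit 40, nat_lit 20, nat_lit 80, nat_lit 1, nat_lit 373, nat_lit 150, nat_lit 11]⟩, C1.Rw.none,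
 ⟨nat_lit 5477, nat_lit 5701, ⟨.ofNat (nat_lit 73719), .ofNat (nat_lit 227157), .ofNat (nat_lit 116403), .ofNat (nat_lit 269841), .ofNat (nat_lit 82619), .ofNat (nat_lit 232485), .ofNat (nat_lit 125333), .ofNat (nat_lit 275199)⟩, ⟨.ofNat (nat_lit 231202), .ofNat (nat_lit 307921), .ofNat (nat_lit 252544), .ofNat (nat_lit 329263), .ofNat (nat_lit 232852), .ofNat (nat_lit 307785), .ofNat (nat_lit 254209), .ofNat (nat_lit 329142)⟩⟩, [⟨nat_lit 0, nat_lit 100, nat_lit 92, nat_lit 40, nat_lit 487137499⟩]⟩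
noncomputable def p029_l41 : Lf2 := ⟨nat_lit 0, nat_lit 8, [nat_lit 50, nat_lit 5, nat_lit 5, nat_lit 20], true, nat_lit 160, nat_lit 200, nat_lit 0, nat_lit 352, ⟨nat_lit 0, nat_lit 0, nat_lit 1000, nat_lit 4, nat_lit 129, nat_lit 1000, nat_lit 112, nat_lit 1000, nat_lit 117600, nat_lit 299, nat_lit 153600, nat_lit 311, nat_lit 54914880, nat_lit 0, nat_lit 0, nat_lit 3171518, false, false⟩,
 nat_lit 0, nat_lit 9381, nat_lit 0, nat_lit 0, nat_lit 4966, nat_lit 0, nat_lit 0, nat_lit 0, nat_lit 0, nat_lit 0, nat_lit 0, nat_lit 0, nat_lit 0, nat_lit 0, nat_lit 147, nat_lit 1000000, nat_lit 0, nat_lit 0, [(nat_lit 6, [(nat_lit 6, nat_lit 1000)]), (nat_lit 9, [(nat_lit 6, nat_lit 1000)])],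
 ⟨p029_k5, nat_lit 0, nat_lit 0, nat_lit 325, nat_lit 0, nat_lit 500034, [nat_lit 3449600001, nat_lit 3042400001, nat_lit 177599999], [], [nat_lit 19338808530, nat_lit 14243116474, nat_lit 16015136002, nat_lit 12874436515, nat_lit 14616587374, nat_lit 13495014816, nat_lit 19343801858, nat_lit 14532194798], nat_lit 1271250, nat_lit 1271250, nat_lit 490000, nat_lit 1100001, nat_lit 1100001, nat_lit 1442500, [nat_lit 1100000, nat_lit 1442500, nat_lit 1271250], [nat_lit 11, nat_lit 40, nat_lit 20, nat_lit 80, nat_lit 1, nat_lit 401, nat_lit 175, nat_lit 11]⟩, C1.Rw.none,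
 ⟨nat_lit 5477, nat_lit 6325, ⟨.ofNat (nat_lit 210470), .ofNat (nat_lit 374999), .ofNat (nat_lit 253206), .ofNat (nat_lit 417734), .ofNat (nat_lit 232485), .ofNat (nat_lit 382351), .ofNat (nat_lit 275199), .ofNat (nat_lit 425065)⟩, ⟨.ofNat (nat_lit 225423), .ofNat (nat_lit 307688), .ofNat (nat_lit 246791), .ofNat (nat_lit 329055), .ofNat (nat_lit 232852), .ofNat (nat_lit 307785), .ofNat (nat_lit 254209), .ofNat (nat_lit 329142)⟩⟩, []⟩
noncomputable def p029_l42 : Lf2 := ⟨nat_lit 0, nat_lit 8, [nat_lit 50, nat_lit 5, nat_lit 5, nat_lit 20], false, nat_lit 200, nat_lit 240, nat_lit 0, nat_lit 352, ⟨nat_lit 0, nat_lit 0, nat_lit 1000, nat_lit 4, nat_lit 97, nat_lit 1000, nat_lit 143, nat_lit 1000, nat_lit 190817, nat_lit 322, nat_lit 88817, nat_lit 288, nat_lit 54738949, nat_lit 0, nat_lit 0, nat_lit 3159317, false, false⟩,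
 nat_lit 0, nat_lit 8426, nat_lit 0, nat_lit 0, nat_lit 4460, nat_lit 0, nat_lit 0, nat_lit 0, nat_lit 0, nat_lit 0, nat_lit 0, nat_lit 0, nat_lit 0, nat_lit 0, nat_lit 147, nat_lit 1000000, nat_lit 0, nat_lit 0, [(nat_lit 6, [(nat_lit 6, nat_lit 1000)]), (nat_lit 9, [(nat_lit 6, nat_lit 1000)])],
 ⟨p029_k5, nat_lit 0, nat_lit 0, nat_lit 308, nat_lit 0, nat_lit 289936, [nat_lit 3449600001, nat_lit 3042400001, nat_lit 177599999], [], [nat_lit 18669086882, nat_lit 16600923080, nat_lit 16149971362, nat_lit 15413140723, nat_lit 15588560643, nat_lit 18602606640, nat_lit 14934649843, nat_lit 16442940643], nat_lit 1271250, nat_lit 1271250, nat_lit 0, nat_lit 1100001, nat_lit 1271250, nat_lit 1271250, [nat_lit 1100000, nat_lit 1442500, nat_lit 1271250], [nat_lit 11, nat_lit 40, nat_lit 20, nat_lit 80, nat_lit 1, nat_lit 401, nat_lit 175, nat_lit 11]⟩, ⟨p029_k6, nat_lit 0, nat_lit 0, nat_lit 756, nat_lit 0, nat_lit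 510539, [nat_lit 0, nat_lit 0, nat_lit 0], [], [nat_lit 0, nat_lit 0, nat_lit 0, nat_lit 0, nat_lit 0, nat_lit 0, nat_lit 0, nat_lit 0], nat_lit 1100001, nat_lit 1442500, nat_lit 0, nat_lit 1100001, nat_lit 0, nat_lit 2486000, [nat_lit 1695000, nat_lit 1271250, nat_lit 1271250], [nat_lit 92, nat_lit 40, nat_lit 20, nat_lit 80, nat_lit 32, nat_lit 428, nat_lit 200, nat_lit 11]⟩,
 ⟨nat_lit 5477, nat_lit 6325, ⟨.ofNat (nat_lit 45942), .ofNat (nat_lit 374999), .ofNat (nat_lit 88677), .ofNat (nat_lit 417734), .ofNat (nat_lit 82619), .ofNat (nat_lit 382351), .ofNat (nat_lit 125333), .ofNat (nat_lit 425065)⟩, ⟨.ofNat (nat_lit 307688), .ofNat (nat_lit 389952), .ofNat (nat_lit 329055), .ofNat (nat_lit 411320), .ofNat (nat_lit 307785), .ofNat (nat_lit 382718), .ofNat (nat_lit 329142), .ofNat (nat_lit 404075)⟩⟩, [⟨nat_lit 0, nat_lit 100, nat_lit 96, nat_lit 20, nat_lit 159337383⟩]⟩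
noncomputable def p029_l43 : Lf2 := ⟨nat_lit 0, nat_lit 8, [nat_lit 50, nat_lit 5, nat_lit 5, nat_lit 20], true, nat_lit 240, nat_lit 288, nat_lit 0, nat_lit 352, ⟨nat_lit 0, nat_lit 0, nat_lit 1000, nat_lit 4, nat_lit 95, nat_lit 1000, nat_lit 179, nat_lit 1000, nat_lit 29345, nat_lit 255, nat_lit 84017, nat_lit 286, nat_lit 51616569, nat_lit 0, nat_lit 0, nat_lit 3571717, false, false⟩,
 nat_lit 0, nat_lit 8018, nat_lit 0, nat_lit 0, nat_lit 4244, nat_lit 0, nat_lit 0, nat_lit 0, nat_lit 0, nat_lit 0, nat_lit 0, nat_lit 0, nat_lit 0, nat_lit 0, nat_lit 147, nat_lit 1000000, nat_lit 0, nat_lit 0, [(nat_lit 6, [(nat_lit 6, nat_lit 1000)])],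
 ⟨p029_k5, nat_lit 0, nat_lit 0, nat_lit 299, nat_lit 0, nat_lit 256551, [nat_lit 3329066667, nat_lit 3042400001, nat_lit 177599999], [], [nat_lit 15951827565, nat_lit 16844714536, nat_lit 15352987111, nat_lit 16095211471, nat_lit 19216334663, nat_lit 20544183132, nat_lit 17242589729, nat_lit 18302465444], nat_lit 1271250, nat_lit 1271250, nat_lit 0, nat_lit 1100001, nat_lit 1271250, nat_lit 1271250, [nat_lit 1100000, nat_lit 1442500, nat_lit 1271250], [nat_lit 11, nat_lit 40, nat_lit 20, nat_lit 80, nat_lit 1, nat_lit 428, nat_lit 200, nat_lit 12]⟩, C1.Rw.none,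
 ⟨nat_lit 5916, nat_lit 6325, ⟨.ofNat (nat_lit 45942), .ofNat (nat_lit 374999), .ofNat (nat_lit 88677), .ofNat (nat_lit 417734), .ofNat (nat_lit 64652), .ofNat (nat_lit 378786), .ofNat (nat_lit 107331), .ofNat (nat_lit 421465)⟩, ⟨.ofNat (nat_lit 389952), .ofNat (nat_lit 488669), .ofNat (nat_lit 411320), .ofNat (nat_lit 510037), .ofNat (nat_lit 386479), .ofNat (nat_lit 480719), .ofNat (nat_lit 407818), .ofNat (nat_lit 502058)⟩⟩, [⟨nat_lit 0, nat_lit 100, nat_lit 95, nat_lit 30, nat_lit 124312560⟩, ⟨nat_lit 4, nat_lit 99, nat_lit 100, nat_lit 54, nat_lit 682421546⟩]⟩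
noncomputable def p029_l44 : Lf2 := ⟨nat_lit 0, nat_lit 8, [nat_lit 50, nat_lit 5, nat_lit 5, nat_lit 20], true, nat_lit 240, nat_lit 268, nat_lit 0, nat_lit 352, ⟨nat_lit 0, nat_lit 0, nat_lit 1000, nat_lit 4, nat_lit 99, nat_lit 1000, nat_lit 169, nat_lit 1000, nat_lit 126379, nat_lit 302, nat_lit 93750, nat_lit 290, nat_lit 52258416, nat_lit 0, nat_lit 0, nat_lit 3518682, false, false⟩,
 nat_lit 0, nat_lit 7076, nat_lit 0, nat_lit 0, nat_lit 4118, nat_lit 0, nat_lit 0, nat_lit 0, nat_lit 0, nat_lit 0, nat_lit 0, nat_lit 0, nat_lit 0, nat_lit 0, nat_lit 181, nat_lit 940000, nat_lit 0, nat_lit 0, [(nat_lit 9, [(nat_lit 5, nat_lit 100), (nat_lit 6, nat_lit 900)])],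
 ⟨p029_k7, nat_lit 0, nat_lit 0, nat_lit 361, nat_lit 0, nat_lit 438372, [nat_lit 4036480000, nat_lit 3221066667, nat_lit 191333333], [], [nat_lit 17799558500, nat_lit 18249706272, nat_lit 16969534772, nat_lit 17757691016, nat_lit 18862159331, nat_lit 20255587080, nat_lit 18087110668, nat_lit 18826131343], nat_lit 1271250, nat_lit 1271250, nat_lit 0, nat_lit 1100001, nat_lit 1271250, nat_lit 1271250, [nat_lit 1100000, nat_lit 1442500, nat_lit 1271250], [nat_lit 11, nat_lit 40, nat_lit 20, nat_lit 80, nat_lit 1, nat_lit 428, nat_lit 200, nat_lit 12]⟩, C1.Rw.none,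
 ⟨nat_lit 5477, nat_lit 5917, ⟨.ofNat (nat_lit 64652), .ofNat (nat_lit 378786), .ofNat (nat_lit 107331), .ofNat (nat_lit 421465), .ofNat (nat_lit 82619), .ofNat (nat_lit 382351), .ofNat (nat_lit 125333), .ofNat (nat_lit 425065)⟩, ⟨.ofNat (nat_lit 386479), .ofNat (nat_lit 441452), .ofNat (nat_lit 407818), .ofNat (nat_lit 462791), .ofNat (nat_lit 382718), .ofNat (nat_lit 435171), .ofNat (nat_lit 404075), .ofNat (nat_lit 456528)⟩⟩, [⟨nat_lit 0, nat_lit 100, nat_lit 92, nat_lit 40, nat_lit 111157608⟩, ⟨nat_lit 4, nat_lit 100, nat_lit 96, nat_lit 54, nat_lit 862440003⟩]⟩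
noncomputable def b_VL_600_400_5_4 : St := ⟨true, nat_lit 1, nat_lit 1, nat_lit 1, nat_lit 40, nat_lit 240, nat_lit 280, nat_lit 160, nat_lit 200, nat_lit 0, nat_lit 160, nat_lit 20, nat_lit 40, nat_lit 0, nat_lit 288, nat_lit 0, nat_lit 352, nat_lit 0, nat_lit 32, nat_lit 0, nat_lit 0, nat_lit 0, nat_lit 0⟩
theorem d_VL_600_400_5_4 (h : EB TB.env) : Dead b_VL_600_400_5_4 := chkB_sound0 h (T :=
(.spl (nat_lit 4) (nat_lit 160)
(.spl (nat_lit 4) (nat_lit 80)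
(.spl (nat_lit 2) (nat_lit 80)
(.spl (nat_lit 0) (nat_lit 260)
(.leaf p029_l21)
(.spl (nat_lit 0) (nat_lit 270)
(.leaf p029_l22)
(.leaf p029_l23)))
(.leaf p029_l24))
(.spl (nat_lit 2) (nat_lit 120)
(.spl (nat_lit 6) (nat_lit 20)
(.spl (nat_lit 0) (nat_lit 260)
(.spl (nat_lit 0) (nat_lit 250)
(.spl (nat_lit 6) (nat_lit 8)
(.spl (nat_lit 6) (nat_lit 4)
(.leaf p029_l25)
(.spl (nat_lit 2) (nat_lit 80)
(.leaf p029_l26)
(.leaf p029_l27)))
(.leaf p029_l28))
(.spl (nat_lit 6) (nat_lit 8)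
(.leaf p029_l29)
(.spl (nat_lit 0) (nat_lit 255)
(.leaf p029_l30)
(.leaf p029_l31))))
(.spl (nat_lit 0) (nat_lit 270)
(.spl (nat_lit 4) (nat_lit 120)
(.leaf p029_l32)
(.leaf p029_l33))
(.leaf p029_l34)))
(.leaf p029_l35))
(.spl (nat_lit 0) (nat_lit 260)
(.leaf p029_l36)
(.leaf p029_l37))))
(.spl (nat_lit 4) (nat_lit 240)
(.spl (nat_lit 4) (nat_lit 200)
(.spl (nat_lit 2) (nat_lit 80)
(.spl (nat_lit 0) (nat_lit 260)
(.leaf p029_l38)
(.spl (nat_lit 0) (nat_lit 270)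
(.leaf p029_l39)
(.leaf p029_l40)))
(.leaf p029_l41))
(.leaf p029_l42))
(.spl (nat_lit 0) (nat_lit 260)
(.leaf p029_l43)
(.trX (nat_lit 16) (nat_lit 100) (nat_lit 99) (nat_lit 63) (nat_lit 268) (.leaf p029_l44)))))) (by decide +kernel)
noncomputable def p029_l45 : Lf2 := ⟨nat_lit 0, nat_lit 8, [nat_lit 50, nat_lit 5, nat_lit 5, nat_lit 20], false, nat_lit 0, nat_lit 80, nat_lit 0, nat_lit 352, ⟨nat_lit 0, nat_lit 0, nat_lit 1000, nat_lit 4, nat_lit 175, nat_lit 0, nat_lit 15, nat_lit 0, nat_lit 17, nat_lit 214, nat_lit 38748, nat_lit 262, nat_lit 56196995, nat_lit 0, nat_lit 0, nat_lit 2208591, false, false⟩,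
 nat_lit 0, nat_lit 9941, nat_lit 0, nat_lit 0, nat_lit 5262, nat_lit 0, nat_lit 0, nat_lit 0, nat_lit 0, nat_lit 0, nat_lit 0, nat_lit 0, nat_lit 0, nat_lit 0, nat_lit 147, nat_lit 1000000, nat_lit 0, nat_lit 0, [(nat_lit 6, [(nat_lit 6, nat_lit 1000)])],
 ⟨p029_k5, nat_lit 0, nat_lit 0, nat_lit 201, nat_lit 0, nat_lit 148757, [nat_lit 3329066667, nat_lit 3042400001, nat_lit 177599999], [], [nat_lit 12314418231, nat_lit 13623974315, nat_lit 13625348503, nat_lit 15055404460, nat_lit 10743511020, nat_lit 10668787343, nat_lit 14001870436, nat_lit 11867852475], nat_lit 1271250, nat_lit 1271250, nat_lit 1100001, nat_lit 1442500, nat_lit 0, nat_lit 490000, [nat_lit 1100000, nat_lit 1442500, nat_lit 1271250], [nat_lit 11, nat_lit 40, nat_lit 20, nat_lit 80, nat_lit 1, nat_lit 373, nat_lit 150, nat_lit 11]⟩, ⟨p029_k6, nat_lit 0, nat_lit 0, nat_lit 461, nat_lit 0, nat_lit 261941, [nat_lit 0, nat_lit 0, nat_lit 0],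 [], [nat_lit 0, nat_lit 0, nat_lit 0, nat_lit 0, nat_lit 0, nat_lit 0, nat_lit 0, nat_lit 0], nat_lit 1100001, nat_lit 1442500, nat_lit 1100001, nat_lit 1442500, nat_lit 0, nat_lit 2486000, [nat_lit 1695000, nat_lit 1271250, nat_lit 1271250], [nat_lit 92, nat_lit 40, nat_lit 20, nat_lit 80, nat_lit 32, nat_lit 428, nat_lit 200, nat_lit 10]⟩,
 ⟨nat_lit 5916, nat_lit 6325, ⟨.ofNat (nat_lit 374999), .ofNat (nat_lit 457263), .ofNat (nat_lit 417734), .ofNat (nat_lit 499999), .ofNat (nat_lit 378786), .ofNat (nat_lit 457320), .ofNat (nat_lit 421465), .ofNat (nat_lit 499999)⟩, ⟨.negSucc (nat_lit 103633), .ofNat (nat_lit 60895), .negSucc (nat_lit 82265), .ofNat (nat_lit 82263), .negSucc (nat_lit 84722), .ofNat (nat_lit 72344), .negSucc (nat_lit 63383), .ofNat (nat_lit 93684)⟩⟩, []⟩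
noncomputable def p029_l46 : Lf2 := ⟨nat_lit 0, nat_lit 8, [nat_lit 50, nat_lit 5, nat_lit 5, nat_lit 20], false, nat_lit 0, nat_lit 80, nat_lit 0, nat_lit 352, ⟨nat_lit 0, nat_lit 0, nat_lit 1000, nat_lit 4, nat_lit 176, nat_lit 0, nat_lit 18, nat_lit 0, nat_lit 150, nat_lit 218, nat_lit 38748, nat_lit 262, nat_lit 56120969, nat_lit 0, nat_lit 0, nat_lit 2217923, false, false⟩,
 nat_lit 0, nat_lit 4538, nat_lit 0, nat_lit 0, nat_lit 2641, nat_lit 0, nat_lit 0, nat_lit 0, nat_lit 0, nat_lit 0, nat_lit 0, nat_lit 0, nat_lit 0, nat_lit 0, nat_lit 135, nat_lit 676600, nat_lit 0, nat_lit 0, [(nat_lit 9, [(nat_lit 5, nat_lit 539), (nat_lit 6, nat_lit 461)])],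
 ⟨p029_k7, nat_lit 0, nat_lit 0, nat_lit 299, nat_lit 0, nat_lit 259354, [nat_lit 3488723200, nat_lit 2431596001, nat_lit 77511999], [], [nat_lit 20916623827, nat_lit 19541249129, nat_lit 19227182003, nat_lit 20040300457, nat_lit 17903874251, nat_lit 18720983553, nat_lit 18950165001, nat_lit 19718738753], nat_lit 1271250, nat_lit 1271250, nat_lit 1100001, nat_lit 1442500, nat_lit 0, nat_lit 490000, [nat_lit 1100000, nat_lit 1442500, nat_lit 1271250], [nat_lit 11, nat_lit 40, nat_lit 20, nat_lit 80, nat_lit 1, nat_lit 373, nat_lit 150, nat_lit 11]⟩, ⟨p029_k6, nat_lit 0, nat_lit 0, nat_lit 612, nat_lit 0, nat_lit 510539, [nat_lit 0, nat_lit 0, nat_lit 0], [], [nat_lit 0, nat_lit 0, nat_lit 0, nat_lit 0, nat_lit 0, nat_lit 0, nat_lit 0, nat_lit 0], nat_lit 1100001, nat_lit 1442500, nat_lit 1100001, nat_lit 1442500, nat_lit 0, nat_lit 2486000, [nat_lit 1695000, nat_lit 1271250, nat_lit 1271250], [nat_lit 92, nat_lit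 40, nat_lit 20, nat_lit 80, nat_lit 32, nat_lit 428, nat_lit 200, nat_lit 10]⟩,
 ⟨nat_lit 5477, nat_lit 5917, ⟨.ofNat (nat_lit 378786), .ofNat (nat_lit 457320), .ofNat (nat_lit 421465), .ofNat (nat_lit 499999), .ofNat (nat_lit 382351), .ofNat (nat_lit 457284), .ofNat (nat_lit 425065), .ofNat (nat_lit 499999)⟩, ⟨.negSucc (nat_lit 84722), .ofNat (nat_lit 72344), .negSucc (nat_lit 63383), .ofNat (nat_lit 93684), .negSucc (nat_lit 66879), .ofNat (nat_lit 82986), .negSucc (nat_lit 45522), .ofNat (nat_lit 104343)⟩⟩, []⟩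
noncomputable def p029_l47 : Lf2 := ⟨nat_lit 0, nat_lit 8, [nat_lit 50, nat_lit 5, nat_lit 5, nat_lit 20], true, nat_lit 80, nat_lit 160, nat_lit 0, nat_lit 352, ⟨nat_lit 0, nat_lit 0, nat_lit 1000, nat_lit 4, nat_lit 176, nat_lit 1000, nat_lit 64, nat_lit 1000, nat_lit 38400, nat_lit 263, nat_lit 38748, nat_lit 262, nat_lit 53746789, nat_lit 0, nat_lit 0, nat_lit 3091042, false, false⟩,
 nat_lit 0, nat_lit 9169, nat_lit 0, nat_lit 0, nat_lit 4853, nat_lit 0, nat_lit 0, nat_lit 0, nat_lit 0, nat_lit 0, nat_lit 0, nat_lit 0, nat_lit 0, nat_lit 0, nat_lit 147, nat_lit 1000000, nat_lit 0, nat_lit 0, [(nat_lit 6, [(nat_lit 6, nat_lit 1000)]), (nat_lit 9, [(nat_lit 6, nat_lit 1000)])],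
 ⟨p029_k5, nat_lit 0, nat_lit 0, nat_lit 325, nat_lit 0, nat_lit 500034, [nat_lit 3449600001, nat_lit 3042400001, nat_lit 177599999], [], [nat_lit 19403805226, nat_lit 14424064278, nat_lit 14755305094, nat_lit 13474114019, nat_lit 16181698002, nat_lit 13213026099, nat_lit 19432483858, nat_lit 14731305110], nat_lit 1271250, nat_lit 1271250, nat_lit 1100001, nat_lit 1442500, nat_lit 490000, nat_lit 1100001, [nat_lit 1100000, nat_lit 1442500, nat_lit 1271250], [nat_lit 11, nat_lit 40, nat_lit 20, nat_lit 80, nat_lit 1, nat_lit 401, nat_lit 175, nat_lit 11]⟩, C1.Rw.none,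
 ⟨nat_lit 5477, nat_lit 6325, ⟨.ofNat (nat_lit 374999), .ofNat (nat_lit 457263), .ofNat (nat_lit 417734), .ofNat (nat_lit 499999), .ofNat (nat_lit 382351), .ofNat (nat_lit 457284), .ofNat (nat_lit 425065), .ofNat (nat_lit 499999)⟩, ⟨.ofNat (nat_lit 60895), .ofNat (nat_lit 225423), .ofNat (nat_lit 82263), .ofNat (nat_lit 246791), .ofNat (nat_lit 82986), .ofNat (nat_lit 232852), .ofNat (nat_lit 104343), .ofNat (nat_lit 254209)⟩⟩, []⟩
noncomputable def p029_l48 : Lf2 := ⟨nat_lit 0, nat_lit 8, [nat_lit 50, nat_lit 5, nat_lit 5, nat_lit 20], false, nat_lit 0, nat_lit 160, nat_lit 0, nat_lit 352, ⟨nat_lit 0, nat_lit 0, nat_lit 1000, nat_lit 5, nat_lit 207, nat_lit 281, nat_lit 48, nat_lit 1000, nat_lit 10417, nat_lit 240, nat_lit 3720, nat_lit 219, nat_lit 52829605, nat_lit 0, nat_lit 0, nat_lit 2579675, false, true⟩,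
 nat_lit 0, nat_lit 7840, nat_lit 0, nat_lit 0, nat_lit 4150, nat_lit 0, nat_lit 0, nat_lit 0, nat_lit 0, nat_lit 0, nat_lit 0, nat_lit 0, nat_lit 0, nat_lit 0, nat_lit 147, nat_lit 1000000, nat_lit 0, nat_lit 0, [(nat_lit 6, [(nat_lit 6, nat_lit 1000)]), (nat_lit 9, [(nat_lit 6, nat_lit 1000)])],
 ⟨p029_k5, nat_lit 0, nat_lit 0, nat_lit 306, nat_lit 0, nat_lit 289936, [nat_lit 3449600001, nat_lit 3042400001, nat_lit 177599999], [], [nat_lit 18812965202, nat_lit 16671032403, nat_lit 16282903603, nat_lit 18280676600, nat_lit 16668506802, nat_lit 16213026803, nat_lit 15881016603, nat_lit 17355089603], nat_lit 1271250, nat_lit 1271250, nat_lit 1271250, nat_lit 1271250, nat_lit 0, nat_lit 1100001, [nat_lit 1100000, nat_lit 1442500, nat_lit 1271250], [nat_lit 11, nat_lit 40, nat_lit 20, nat_lit 80, nat_lit 1, nat_lit 401, nat_lit 175, nat_lit 11]⟩, ⟨p029_k6, nat_lit 0, nat_lit 0, nat_lit 598, nat_lit 0, nat_lit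 510539, [nat_lit 0, nat_lit 0, nat_lit 0], [], [nat_lit 0, nat_lit 0, nat_lit 0, nat_lit 0, nat_lit 0, nat_lit 0, nat_lit 0, nat_lit 0], nat_lit 1100001, nat_lit 1442500, nat_lit 1271250, nat_lit 1271250, nat_lit 0, nat_lit 2486000, [nat_lit 1695000, nat_lit 1271250, nat_lit 1271250], [nat_lit 92, nat_lit 40, nat_lit 20, nat_lit 80, nat_lit 32, nat_lit 428, nat_lit 200, nat_lit 10]⟩,
 ⟨nat_lit 5477, nat_lit 6325, ⟨.ofNat (nat_lit 457263), .ofNat (nat_lit 539501), .ofNat (nat_lit 499999), .ofNat (nat_lit 582178), .ofNat (nat_lit 457284), .ofNat (nat_lit 532191), .ofNat (nat_lit 499999), .ofNat (nat_lit 574846)⟩, ⟨.negSucc (nat_lit 103633), .ofNat (nat_lit 225423), .negSucc (nat_lit 82265), .ofNat (nat_lit 246791), .negSucc (nat_lit 66879), .ofNat (nat_lit 232852), .negSucc (nat_lit 45522), .ofNat (nat_lit 254209)⟩⟩, []⟩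
noncomputable def p029_l49 : Lf2 := ⟨nat_lit 0, nat_lit 4, [nat_lit 38, nat_lit 5, nat_lit 5, nat_lit 20], false, nat_lit 160, nat_lit 288, nat_lit 0, nat_lit 352, ⟨nat_lit 0, nat_lit 1000, nat_lit 0, nat_lit 4, nat_lit 175, nat_lit 1000, nat_lit 147, nat_lit 0, nat_lit 0, nat_lit 0, nat_lit 0, nat_lit 0, nat_lit 48306490, nat_lit 10625213, nat_lit 8068297, nat_lit 4194744, false, false⟩,
 nat_lit 0, nat_lit 20293, nat_lit 0, nat_lit 0, nat_lit 10743, nat_lit 0, nat_lit 0, nat_lit 0, nat_lit 0, nat_lit 0, nat_lit 0, nat_lit 0, nat_lit 0, nat_lit 0, nat_lit 0, nat_lit 400000, nat_lit 0, nat_lit 0, [(nat_lit 6, [(nat_lit 1, nat_lit 1000)])],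
 ⟨p029_k20, nat_lit 0, nat_lit 0, nat_lit 115, nat_lit 0, nat_lit 78603, [nat_lit 2692266667, nat_lit 3030400001, nat_lit 3280799999], [], [nat_lit 4421088759, nat_lit 5806641619, nat_lit 9148487119, nat_lit 8278244927, nat_lit 16575580601, nat_lit 17536159676, nat_lit 17994000784, nat_lit 18867628360], nat_lit 1271250, nat_lit 1271250, nat_lit 1100001, nat_lit 1442500, nat_lit 1271250, nat_lit 1271250, [nat_lit 1100000, nat_lit 1442500, nat_lit 1271250], [nat_lit 9, nat_lit 40, nat_lit 20, nat_lit 80, nat_lit 2, nat_lit 345, nat_lit 125, nat_lit 11]⟩, ⟨p029_k21, nat_lit 0, nat_lit 0, nat_lit 261, nat_lit 0, nat_lit 136043, [nat_lit 0, nat_lit 0, nat_lit 0], [], [nat_lit 0, nat_lit 0, nat_lit 0, nat_lit 0, nat_lit 0, nat_lit 0, nat_lit 0, nat_lit 0], nat_lit 1100001, nat_lit 1442500, nat_lit 1100001, nat_lit 1442500, nat_lit 0, nat_lit 2486000, [nat_lit 1695000, nat_lit 1271250, nat_lit 1271250], [nat_lit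 106, nat_lit 40, nat_lit 20, nat_lit 80, nat_lit 41, nat_lit 428, nat_lit 200, nat_lit 11]⟩,
 ⟨nat_lit 6123, nat_lit 6325, ⟨.ofNat (nat_lit 374999), .ofNat (nat_lit 457263), .ofNat (nat_lit 417734), .ofNat (nat_lit 499999), .ofNat (nat_lit 376922), .ofNat (nat_lit 457302), .ofNat (nat_lit 419618), .ofNat (nat_lit 499999)⟩, ⟨.ofNat (nat_lit 225423), .ofNat (nat_lit 488669), .ofNat (nat_lit 246791), .ofNat (nat_lit 510037), .ofNat (nat_lit 227485), .ofNat (nat_lit 484703), .ofNat (nat_lit 248833), .ofNat (nat_lit 506051)⟩⟩, [⟨nat_lit 16, nat_lit 100, nat_lit 97, nat_lit 54, nat_lit 637048618⟩]⟩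
noncomputable def p029_l50 : Lf2 := ⟨nat_lit 0, nat_lit 4, [nat_lit 38, nat_lit 5, nat_lit 5, nat_lit 20], false, nat_lit 160, nat_lit 280, nat_lit 0, nat_lit 352, ⟨nat_lit 0, nat_lit 0, nat_lit 1000, nat_lit 4, nat_lit 176, nat_lit 1000, nat_lit 143, nat_lit 1000, nat_lit 51683, nat_lit 270, nat_lit 38748, nat_lit 262, nat_lit 48540766, nat_lit 0, nat_lit 0, nat_lit 4157732, false, false⟩,
 nat_lit 0, nat_lit 9200, nat_lit 0, nat_lit 0, nat_lit 5111, nat_lit 0, nat_lit 0, nat_lit 0, nat_lit 0, nat_lit 0, nat_lit 0, nat_lit 0, nat_lit 0, nat_lit 0, nat_lit 80, nat_lit 1000000, nat_lit 0, nat_lit 0, [(nat_lit 6, [(nat_lit 6, nat_lit 1000)])],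
 ⟨p029_k22, nat_lit 0, nat_lit 0, nat_lit 115, nat_lit 0, nat_lit 132593, [nat_lit 2257066667, nat_lit 1408000000, nat_lit 211200000], [], [nat_lit 9908241363, nat_lit 10774537842, nat_lit 12374436892, nat_lit 12531081106, nat_lit 17101372478, nat_lit 17745645924, nat_lit 18350405446, nat_lit 18946090367], nat_lit 1271250, nat_lit 1271250, nat_lit 1100001, nat_lit 1442500, nat_lit 1271250, nat_lit 1271250, [nat_lit 1100000, nat_lit 1442500, nat_lit 1271250], [nat_lit 9, nat_lit 40, nat_lit 20, nat_lit 80, nat_lit 2, nat_lit 345, nat_lit 125, nat_lit 11]⟩, ⟨p029_k21, nat_lit 0, nat_lit 0, nat_lit 373, nat_lit 0, nat_lit 242538, [nat_lit 0, nat_lit 0, nat_lit 0], [], [nat_lit 0, nat_lit 0, nat_lit 0, nat_lit 0, nat_lit 0, nat_lit 0, nat_lit 0, nat_lit 0], nat_lit 1100001, nat_lit 1442500, nat_lit 1100001, nat_lit 1442500, nat_lit 0, nat_lit 2486000, [nat_lit 1695000, nat_lit 1271250, nat_lit 1271250], [nat_lit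 106, nat_lit 40, nat_lit 20, nat_lit 80, nat_lit 41, nat_lit 428, nat_lit 200, nat_lit 11]⟩,
 ⟨nat_lit 5916, nat_lit 6124, ⟨.ofNat (nat_lit 376922), .ofNat (nat_lit 457302), .ofNat (nat_lit 419618), .ofNat (nat_lit 499999), .ofNat (nat_lit 378786), .ofNat (nat_lit 457320), .ofNat (nat_lit 421465), .ofNat (nat_lit 499999)⟩, ⟨.ofNat (nat_lit 227485), .ofNat (nat_lit 468627), .ofNat (nat_lit 248833), .ofNat (nat_lit 489975), .ofNat (nat_lit 229411), .ofNat (nat_lit 465012), .ofNat (nat_lit 250751), .ofNat (nat_lit 486351)⟩⟩, [⟨nat_lit 16, nat_lit 100, nat_lit 100, nat_lit 55, nat_lit 430638635⟩]⟩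
noncomputable def p029_l51 : Lf2 := ⟨nat_lit 1, nat_lit 8, [nat_lit 50, nat_lit 5, nat_lit 5, nat_lit 20], false, nat_lit 160, nat_lit 288, nat_lit 0, nat_lit 352, zbN0,
 nat_lit 0, nat_lit 0, nat_lit 0, nat_lit 0, nat_lit 0, nat_lit 0, nat_lit 0, nat_lit 0, nat_lit 0, nat_lit 0, nat_lit 0, nat_lit 0, nat_lit 0, nat_lit 0, nat_lit 0, nat_lit 0, nat_lit 0, nat_lit 0, [],
 C1.Rw.none, C1.Rw.none,
 zbF0, []⟩
noncomputable def p029_l52 : Lf2 := ⟨nat_lit 0, nat_lit 8, [nat_lit 50, nat_lit 5, nat_lit 5, nat_lit 20], true, nat_lit 160, nat_lit 268, nat_lit 0, nat_lit 352, ⟨nat_lit 0, nat_lit 0, nat_lit 1000, nat_lit 4, nat_lit 176, nat_lit 1000, nat_lit 138, nat_lit 1000, nat_lit 126379, nat_lit 302, nat_lit 38748, nat_lit 262, nat_lit 48875286, nat_lit 0, nat_lit 0, nat_lit 4102988, false, false⟩,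
 nat_lit 0, nat_lit 7310, nat_lit 0, nat_lit 0, nat_lit 4255, nat_lit 0, nat_lit 576, nat_lit 0, nat_lit 0, nat_lit 0, nat_lit 0, nat_lit 0, nat_lit 0, nat_lit 0, nat_lit 192, nat_lit 1000000, nat_lit 0, nat_lit 0, [(nat_lit 9, [(nat_lit 6, nat_lit 1000)])],
 ⟨p029_k7, nat_lit 0, nat_lit 0, nat_lit 225, nat_lit 0, nat_lit 438372, [nat_lit 4169600001, nat_lit 3411333334, nat_lit 231866666], [], [nat_lit 18862813764, nat_lit 16646903374, nat_lit 20612823785, nat_lit 18551880495, nat_lit 17127533480, nat_lit 18199715650, nat_lit 18212756382, nat_lit 19349379174], nat_lit 1271250, nat_lit 1271250, nat_lit 1100001, nat_lit 1442500, nat_lit 1271250, nat_lit 1271250, [nat_lit 1100000, nat_lit 1442500, nat_lit 1271250], [nat_lit 11, nat_lit 40, nat_lit 20, nat_lit 80, nat_lit 1, nat_lit 428, nat_lit 200, nat_lit 12]⟩, C1.Rw.none,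
 ⟨nat_lit 5477, nat_lit 5917, ⟨.ofNat (nat_lit 378786), .ofNat (nat_lit 457320), .ofNat (nat_lit 421465), .ofNat (nat_lit 499999), .ofNat (nat_lit 382351), .ofNat (nat_lit 457284), .ofNat (nat_lit 425065), .ofNat (nat_lit 499999)⟩, ⟨.ofNat (nat_lit 229411), .ofNat (nat_lit 441452), .ofNat (nat_lit 250751), .ofNat (nat_lit 462791), .ofNat (nat_lit 232852), .ofNat (nat_lit 435171), .ofNat (nat_lit 254209), .ofNat (nat_lit 456528)⟩⟩, []⟩
noncomputable def p029_l53 : Lf2 := ⟨nat_lit 0, nat_lit 8, [nat_lit 50, nat_lit 5, nat_lit 5, nat_lit 20], false, nat_lit 160, nat_lit 288, nat_lit 0, nat_lit 352, ⟨nat_lit 0, nat_lit 0, nat_lit 1000, nat_lit 5, nat_lit 207, nat_lit 1000, nat_lit 146, nat_lit 1000, nat_lit 25350, nat_lit 254, nat_lit 3720, nat_lit 219, nat_lit 45654121, nat_lit 0, nat_lit 0, nat_lit 4477447, false, true⟩,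
 nat_lit 0, nat_lit 7043, nat_lit 0, nat_lit 0, nat_lit 3728, nat_lit 0, nat_lit 0, nat_lit 0, nat_lit 0, nat_lit 0, nat_lit 0, nat_lit 0, nat_lit 0, nat_lit 0, nat_lit 145, nat_lit 979000, nat_lit 0, nat_lit 0, [(nat_lit 6, [(nat_lit 5, nat_lit 35), (nat_lit 6, nat_lit 965)]), (nat_lit 9, [(nat_lit 5, nat_lit 35), (nat_lit 6, nat_lit 965)])],
 ⟨p029_k5, nat_lit 0, nat_lit 0, nat_lit 169, nat_lit 0, nat_lit 289936, [nat_lit 3432608001, nat_lit 3001616001, nat_lit 188295999], [], [nat_lit 20668942946, nat_lit 17057569698, nat_lit 17057569698, nat_lit 17871271714, nat_lit 19281161506, nat_lit 20783512367, nat_lit 20462307177, nat_lit 21851515945], nat_lit 1271250, nat_lit 1271250, nat_lit 1271250, nat_lit 1271250, nat_lit 1271250, nat_lit 1271250, [nat_lit 1100000, nat_lit 1442500, nat_lit 1271250], [nat_lit 11, nat_lit 40, nat_lit 20, nat_lit 80, nat_lit 1, nat_lit 456, nat_lit 225, nat_lit 12]⟩, ⟨p029_k6,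 nat_lit 0, nat_lit 0, nat_lit 598, nat_lit 0, nat_lit 510539, [nat_lit 0, nat_lit 0, nat_lit 0], [], [nat_lit 0, nat_lit 0, nat_lit 0, nat_lit 0, nat_lit 0, nat_lit 0, nat_lit 0, nat_lit 0], nat_lit 1100001, nat_lit 1442500, nat_lit 1271250, nat_lit 1271250, nat_lit 0, nat_lit 2486000, [nat_lit 1695000, nat_lit 1271250, nat_lit 1271250], [nat_lit 92, nat_lit 40, nat_lit 20, nat_lit 80, nat_lit 32, nat_lit 428, nat_lit 200, nat_lit 10]⟩,
 ⟨nat_lit 5477, nat_lit 6325, ⟨.ofNat (nat_lit 457263), .ofNat (nat_lit 539501), .ofNat (nat_lit 499999), .ofNat (nat_lit 582178), .ofNat (nat_lit 457284), .ofNat (nat_lit 532191), .ofNat (nat_lit 499999), .ofNat (nat_lit 574846)⟩, ⟨.ofNat (nat_lit 225423), .ofNat (nat_lit 488669), .ofNat (nat_lit 246791), .ofNat (nat_lit 510037), .ofNat (nat_lit 232852), .ofNat (nat_lit 472638), .ofNat (nat_lit 254209), .ofNat (nat_lit 493995)⟩⟩, [⟨nat_lit 16, nat_lit 98, nat_lit 100, nat_lit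 54, nat_lit 68553973⟩]⟩
noncomputable def p029_l54 : Lf2 := ⟨nat_lit 0, nat_lit 8, [nat_lit 50, nat_lit 5, nat_lit 5, nat_lit 20], false, nat_lit 0, nat_lit 160, nat_lit 0, nat_lit 160, ⟨nat_lit 447, nat_lit 553, nat_lit 0, nat_lit 6, nat_lit 284, nat_lit 553, nat_lit 48, nat_lit 0, nat_lit 0, nat_lit 0, nat_lit 0, nat_lit 0, nat_lit 44533178, nat_lit 22466822, nat_lit 0, nat_lit 3189430, false, true⟩,
 nat_lit 12593, nat_lit 0, nat_lit 0, nat_lit 0, nat_lit 5518, nat_lit 4197, nat_lit 1225, nat_lit 0, nat_lit 0, nat_lit 773, nat_lit 0, nat_lit 0, nat_lit 0, nat_lit 0, nat_lit 0, nat_lit 221200, nat_lit 0, nat_lit 0, [(nat_lit 6, [(nat_lit 1, nat_lit 553)]), (nat_lit 9, [(nat_lit 1, nat_lit 553)])],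
 ⟨p029_k5, nat_lit 0, nat_lit 0, nat_lit 337, nat_lit 0, nat_lit 289936, [nat_lit 3590140161, nat_lit 4536289867, nat_lit 6164953111], [], [nat_lit 25448753723, nat_lit 26786224125, nat_lit 32917404603, nat_lit 34039100002, nat_lit 23110900997, nat_lit 24402465319, nat_lit 29899367686, nat_lit 30803266691], nat_lit 1271250, nat_lit 1271250, nat_lit 1271250, nat_lit 1271250, nat_lit 0, nat_lit 1100001, [nat_lit 1100000, nat_lit 1442500, nat_lit 1271250], [nat_lit 11, nat_lit 40, nat_lit 20, nat_lit 80, nat_lit 1, nat_lit 456, nat_lit 225, nat_lit 13]⟩, ⟨p029_k6, nat_lit 0, nat_lit 0, nat_lit 588, nat_lit 0, nat_lit 510539, [nat_lit 3561696000, nat_lit 4399374000, nat_lit 6283926000], [], [nat_lit 19070654069, nat_lit 18885630005, nat_lit 21108691630, nat_lit 20898652572, nat_lit 16131320988, nat_lit 16782754608, nat_lit 17680800072, nat_lit 17424223820], nat_lit 1100001, nat_lit 1442500, nat_lit 1271250, nat_lit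 1271250, nat_lit 0, nat_lit 1100001, [nat_lit 1695000, nat_lit 1271250, nat_lit 1271250], [nat_lit 92, nat_lit 40, nat_lit 20, nat_lit 80, nat_lit 32, nat_lit 428, nat_lit 200, nat_lit 10]⟩,
 ⟨nat_lit 5477, nat_lit 6325, ⟨.ofNat (nat_lit 539501), .ofNat (nat_lit 859998), .ofNat (nat_lit 582178), .ofNat (nat_lit 902672), .ofNat (nat_lit 532191), .ofNat (nat_lit 824097), .ofNat (nat_lit 574846), .ofNat (nat_lit 866749)⟩, ⟨.negSucc (nat_lit 103633), .ofNat (nat_lit 225423), .negSucc (nat_lit 82265), .ofNat (nat_lit 246791), .negSucc (nat_lit 66879), .ofNat (nat_lit 232852), .negSucc (nat_lit 45522), .ofNat (nat_lit 254209)⟩⟩, []⟩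
noncomputable def p029_l55 : Lf2 := ⟨nat_lit 0, nat_lit 8, [nat_lit 50, nat_lit 5, nat_lit 5, nat_lit 20], false, nat_lit 0, nat_lit 160, nat_lit 160, nat_lit 352, ⟨nat_lit 480, nat_lit 520, nat_lit 0, nat_lit 6, nat_lit 284, nat_lit 520, nat_lit 48, nat_lit 0, nat_lit 0, nat_lit 0, nat_lit 0, nat_lit 0, nat_lit 44533178, nat_lit 22466822, nat_lit 0, nat_lit 3189430, false, true⟩,
 nat_lit 14074, nat_lit 0, nat_lit 0, nat_lit 0, nat_lit 7450, nat_lit 4691, nat_lit 1480, nat_lit 0, nat_lit 0, nat_lit 918, nat_lit 0, nat_lit 0, nat_lit 0, nat_lit 0, nat_lit 0, nat_lit 208000, nat_lit 0, nat_lit 0, [(nat_lit 6, [(nat_lit 1, nat_lit 520)]), (nat_lit 9, [(nat_lit 1, nat_lit 520)])],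
 ⟨p029_k5, nat_lit 0, nat_lit 0, nat_lit 337, nat_lit 0, nat_lit 289936, [nat_lit 3655654400, nat_lit 4638554667, nat_lit 6379724445], [], [nat_lit 23026140400, nat_lit 23562095445, nat_lit 36900661081, nat_lit 38999265480, nat_lit 17910697000, nat_lit 18932475334, nat_lit 28668701400, nat_lit 30541222560], nat_lit 1271250, nat_lit 1271250, nat_lit 1271250, nat_lit 1271250, nat_lit 0, nat_lit 1100001, [nat_lit 1100000, nat_lit 1442500, nat_lit 1271250], [nat_lit 11, nat_lit 40, nat_lit 20, nat_lit 80, nat_lit 1, nat_lit 456, nat_lit 225, nat_lit 13]⟩, ⟨p029_k6, nat_lit 0, nat_lit 0, nat_lit 437, nat_lit 0, nat_lit 510539, [nat_lit 3824640000, nat_lit 4724160000, nat_lit 6747840000], [], [nat_lit 14661288190, nat_lit 14550021074, nat_lit 17409616709, nat_lit 17273287683, nat_lit 16262232920, nat_lit 16055595329, nat_lit 18631996926, nat_lit 18289863088], nat_lit 1100001, nat_lit 1442500, nat_lit 1271250, nat_lit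 1271250, nat_lit 1271250, nat_lit 1271250, [nat_lit 1695000, nat_lit 1271250, nat_lit 1271250], [nat_lit 92, nat_lit 40, nat_lit 20, nat_lit 80, nat_lit 32, nat_lit 483, nat_lit 250, nat_lit 11]⟩,
 ⟨nat_lit 5477, nat_lit 6325, ⟨.ofNat (nat_lit 539501), .ofNat (nat_lit 859998), .ofNat (nat_lit 582178), .ofNat (nat_lit 902672), .ofNat (nat_lit 532191), .ofNat (nat_lit 824097), .ofNat (nat_lit 574846), .ofNat (nat_lit 866749)⟩, ⟨.negSucc (nat_lit 103633), .ofNat (nat_lit 225423), .negSucc (nat_lit 82265), .ofNat (nat_lit 246791), .negSucc (nat_lit 66879), .ofNat (nat_lit 232852), .negSucc (nat_lit 45522), .ofNat (nat_lit 254209)⟩⟩, [⟨nat_lit 7, nat_lit 80, nat_lit 100, nat_lit 53, nat_lit 6212972⟩, ⟨nat_lit 22, nat_lit 84, nat_lit 100, nat_lit 84, nat_lit 190826762⟩]⟩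
noncomputable def p029_l56 : Lf2 := ⟨nat_lit 0, nat_lit 8, [nat_lit 50, nat_lit 5, nat_lit 5, nat_lit 20], false, nat_lit 160, nat_lit 288, nat_lit 0, nat_lit 160, ⟨nat_lit 523, nat_lit 477, nat_lit 0, nat_lit 6, nat_lit 284, nat_lit 477, nat_lit 146, nat_lit 0, nat_lit 0, nat_lit 0, nat_lit 0, nat_lit 0, nat_lit 39197531, nat_lit 20649493, nat_lit 7152976, nat_lit 4900248, false, true⟩,
 nat_lit 14172, nat_lit 0, nat_lit 0, nat_lit 0, nat_lit 6183, nat_lit 4724, nat_lit 1334, nat_lit 0, nat_lit 0, nat_lit 849, nat_lit 0, nat_lit 0, nat_lit 0, nat_lit 0, nat_lit 0, nat_lit 190800, nat_lit 0, nat_lit 0, [(nat_lit 6, [(nat_lit 1, nat_lit 477)]), (nat_lit 9, [(nat_lit 1, nat_lit 477)])],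
 ⟨p029_k5, nat_lit 0, nat_lit 0, nat_lit 211, nat_lit 0, nat_lit 289936, [nat_lit 3741021441, nat_lit 4771808800, nat_lit 6659578000], [], [nat_lit 18953002293, nat_lit 20625327369, nat_lit 27786866082, nat_lit 29185435255, nat_lit 27293340683, nat_lit 24071585906, nat_lit 30961909621, nat_lit 32207300905], nat_lit 1271250, nat_lit 1271250, nat_lit 1271250, nat_lit 1271250, nat_lit 1100001, nat_lit 2196000, [nat_lit 1100000, nat_lit 1442500, nat_lit 1271250], [nat_lit 11, nat_lit 40, nat_lit 20, nat_lit 80, nat_lit 1, nat_lit 483, nat_lit 250, nat_lit 13]⟩, ⟨p029_k6, nat_lit 0, nat_lit 0, nat_lit 588, nat_lit 0, nat_lit 510539, [nat_lit 4167264000, nat_lit 5147366000, nat_lit 7352334000], [], [nat_lit 23068977365, nat_lit 22874331357, nat_lit 25100587676, nat_lit 24776956752, nat_lit 19656983161, nat_lit 19741236120, nat_lit 21412804916, nat_lit 21114278309], nat_lit 1100001, nat_lit 1442500, nat_lit 1271250,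 nat_lit 1271250, nat_lit 0, nat_lit 1100001, [nat_lit 1695000, nat_lit 1271250, nat_lit 1271250], [nat_lit 92, nat_lit 40, nat_lit 20, nat_lit 80, nat_lit 32, nat_lit 428, nat_lit 200, nat_lit 10]⟩,
 ⟨nat_lit 5477, nat_lit 6325, ⟨.ofNat (nat_lit 539501), .ofNat (nat_lit 859998), .ofNat (nat_lit 582178), .ofNat (nat_lit 902672), .ofNat (nat_lit 532191), .ofNat (nat_lit 824097), .ofNat (nat_lit 574846), .ofNat (nat_lit 866749)⟩, ⟨.ofNat (nat_lit 225423), .ofNat (nat_lit 488669), .ofNat (nat_lit 246791), .ofNat (nat_lit 510037), .ofNat (nat_lit 232852), .ofNat (nat_lit 472638), .ofNat (nat_lit 254209), .ofNat (nat_lit 493995)⟩⟩, [⟨nat_lit 16, nat_lit 98, nat_lit 100, nat_lit 54, nat_lit 377357881⟩, ⟨nat_lit 9, nat_lit 100, nat_lit 81, nat_lit 69, nat_lit 26716582⟩]⟩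
noncomputable def p029_l57 : Lf2 := ⟨nat_lit 0, nat_lit 8, [nat_lit 50, nat_lit 5, nat_lit 5, nat_lit 20], false, nat_lit 160, nat_lit 288, nat_lit 160, nat_lit 352, ⟨nat_lit 1000, nat_lit 0, nat_lit 0, nat_lit 0, nat_lit 0, nat_lit 0, nat_lit 0, nat_lit 0, nat_lit 0, nat_lit 0, nat_lit 0, nat_lit 0, nat_lit 0, nat_lit 0, nat_lit 0, nat_lit 0, false, false⟩,
 nat_lit 29204, nat_lit 0, nat_lit 0, nat_lit 0, nat_lit 7742, nat_lit 9734, nat_lit 2314, nat_lit 0, nat_lit 0, nat_lit 2299, nat_lit 0, nat_lit 0, nat_lit 0, nat_lit 0, nat_lit 0, nat_lit 0, nat_lit 0, nat_lit 0, [],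
 ⟨p029_k5, nat_lit 0, nat_lit 0, nat_lit 165, nat_lit 0, nat_lit 148757, [nat_lit 4688000000, nat_lit 6250000000, nat_lit 9842000000], [], [nat_lit 16837596840, nat_lit 17986583020, nat_lit 28951968264, nat_lit 29902826625, nat_lit 27594583719, nat_lit 24051491484, nat_lit 32537860816, nat_lit 33189220606], nat_lit 1271250, nat_lit 1271250, nat_lit 1271250, nat_lit 1271250, nat_lit 1100001, nat_lit 2196000, [nat_lit 1100000, nat_lit 1442500, nat_lit 1271250], [nat_lit 11, nat_lit 40, nat_lit 20, nat_lit 80, nat_lit 1, nat_lit 483, nat_lit 250, nat_lit 13]⟩, ⟨p029_k6, nat_lit 0, nat_lit 0, nat_lit 295, nat_lit 0, nat_lit 261941, [nat_lit 7968000000, nat_lit 9842000000, nat_lit 14058000000], [], [nat_lit 24706519323, nat_lit 24888191427, nat_lit 33615948328, nat_lit 33306782321, nat_lit 30885577610, nat_lit 30768705189, nat_lit 38577146185, nat_lit 38046291237], nat_lit 1100001, nat_lit 1442500, nat_lit 1271250,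 nat_lit 1271250, nat_lit 1271250, nat_lit 1271250, [nat_lit 1695000, nat_lit 1271250, nat_lit 1271250], [nat_lit 92, nat_lit 40, nat_lit 20, nat_lit 80, nat_lit 32, nat_lit 483, nat_lit 250, nat_lit 11]⟩,
 zbF0, [⟨nat_lit 4, nat_lit 99, nat_lit 100, nat_lit 54, nat_lit 639027809⟩, ⟨nat_lit 7, nat_lit 80, nat_lit 100, nat_lit 53, nat_lit 671221946⟩]⟩
noncomputable def p029_l58 : Lf2 := ⟨nat_lit 0, nat_lit 8, [nat_lit 50, nat_lit 5, nat_lit 5, nat_lit 20], false, nat_lit 160, nat_lit 268, nat_lit 160, nat_lit 352, ⟨nat_lit 300, nat_lit 700, nat_lit 0, nat_lit 6, nat_lit 280, nat_lit 700, nat_lit 138, nat_lit 0, nat_lit 0, nat_lit 0, nat_lit 0, nat_lit 0, nat_lit 39905243, nat_lit 20464636, nat_lit 6630121, nat_lit 4809909, false, true⟩,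
 nat_lit 8865, nat_lit 0, nat_lit 0, nat_lit 0, nat_lit 5160, nat_lit 2955, nat_lit 946, nat_lit 0, nat_lit 0, nat_lit 558, nat_lit 0, nat_lit 0, nat_lit 0, nat_lit 0, nat_lit 0, nat_lit 280000, nat_lit 0, nat_lit 0, [(nat_lit 9, [(nat_lit 1, nat_lit 700)])],
 ⟨p029_k7, nat_lit 0, nat_lit 0, nat_lit 200, nat_lit 0, nat_lit 259354, [nat_lit 3298304000, nat_lit 3952880001, nat_lit 5003839999], [], [nat_lit 20232565549, nat_lit 21015853309, nat_lit 27161842648, nat_lit 27745510839, nat_lit 22905523242, nat_lit 23521700293, nat_lit 29502249660, nat_lit 30157278768], nat_lit 1271250, nat_lit 1271250, nat_lit 1271250, nat_lit 1271250, nat_lit 1100001, nat_lit 2024750, [nat_lit 1100000, nat_lit 1442500, nat_lit 1271250], [nat_lit 11, nat_lit 40, nat_lit 20, nat_lit 80, nat_lit 1, nat_lit 483, nat_lit 250, nat_lit 13]⟩, ⟨p029_k6, nat_lit 0, nat_lit 0, nat_lit 437, nat_lit 0, nat_lit 510539, [nat_lit 2390400000, nat_lit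 2952600000, nat_lit 4217400000], [], [nat_lit 9160087350, nat_lit 9088265370, nat_lit 10841092555, nat_lit 10679232625, nat_lit 10125484807, nat_lit 9992290321, nat_lit 11553277954, nat_lit 11340215720], nat_lit 1100001, nat_lit 1442500, nat_lit 1271250, nat_lit 1271250, nat_lit 1271250, nat_lit 1271250, [nat_lit 1695000, nat_lit 1271250, nat_lit 1271250], [nat_lit 92, nat_lit 40, nat_lit 20, nat_lit 80, nat_lit 32, nat_lit 483, nat_lit 250, nat_lit 11]⟩,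
 ⟨nat_lit 5477, nat_lit 5917, ⟨.ofNat (nat_lit 535851), .ofNat (nat_lit 834207), .ofNat (nat_lit 578514), .ofNat (nat_lit 876870), .ofNat (nat_lit 532215), .ofNat (nat_lit 816889), .ofNat (nat_lit 574913), .ofNat (nat_lit 859587)⟩, ⟨.ofNat (nat_lit 229411), .ofNat (nat_lit 441452), .ofNat (nat_lit 250751), .ofNat (nat_lit 462791), .ofNat (nat_lit 232852), .ofNat (nat_lit 435171), .ofNat (nat_lit 254209), .ofNat (nat_lit 456528)⟩⟩, [⟨nat_lit 13, nat_lit 94, nat_lit 44, nat_lit 100, nat_lit 55195224⟩, ⟨nat_lit 4, nat_lit 100, nat_lit 96, nat_lit 54, nat_lit 292475326⟩, ⟨nat_lit 19, nat_lit 100, nat_lit 80, nat_lit 53, nat_lit 163925265⟩]⟩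
noncomputable def b_VL_600_400_5_5 : St := ⟨true, nat_lit 1, nat_lit 1, nat_lit 1, nat_lit 40, nat_lit 240, nat_lit 280, nat_lit 160, nat_lit 200, nat_lit 160, nat_lit 396, nat_lit 20, nat_lit 40, nat_lit 0, nat_lit 288, nat_lit 0, nat_lit 352, nat_lit 0, nat_lit 32, nat_lit 0, nat_lit 0, nat_lit 0, nat_lit 0⟩
theorem d_VL_600_400_5_5 (h : EB TB.env) : Dead b_VL_600_400_5_5 := chkB_sound0 h (T :=
(.spl (nat_lit 2) (nat_lit 240)
(.spl (nat_lit 4) (nat_lit 160)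
(.spl (nat_lit 2) (nat_lit 200)
(.spl (nat_lit 4) (nat_lit 80)
(.spl (nat_lit 0) (nat_lit 260)
(.leaf p029_l45)
(.leaf p029_l46))
(.leaf p029_l47))
(.leaf p029_l48))
(.spl (nat_lit 2) (nat_lit 200)
(.spl (nat_lit 0) (nat_lit 260)
(.spl (nat_lit 6) (nat_lit 16)
(.spl (nat_lit 0) (nat_lit 250)
(.leaf p029_l49)
(.trX (nat_lit 16) (nat_lit 100) (nat_lit 95) (nat_lit 62) (nat_lit 280) (.leaf p029_l50)))
(.leaf p029_l51))
(.trX (nat_lit 16) (nat_lit 100) (nat_lit 99) (nat_lit 63) (nat_lit 268) (.leaf p029_l52)))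
(.leaf p029_l53)))
(.spl (nat_lit 4) (nat_lit 160)
(.spl (nat_lit 5) (nat_lit 160)
(.leaf p029_l54)
(.leaf p029_l55))
(.spl (nat_lit 5) (nat_lit 160)
(.leaf p029_l56)
(.spl (nat_lit 0) (nat_lit 260)
(.leaf p029_l57)
(.trX (nat_lit 13) (nat_lit 95) (nat_lit 30) (nat_lit 100) (nat_lit 392) (.trX (nat_lit 16) (nat_lit 100) (nat_lit 99) (nat_lit 63) (nat_lit 268) (.leaf p029_l58)))))))) (by decide +kernel)
noncomputable def p029_l59 : Lf2 := ⟨nat_lit 0, nat_lit 8, [nat_lit 50, nat_lit 5, nat_lit 5, nat_lit 20], true, nat_lit 0, nat_lit 160, nat_lit 0, nat_lit 352, ⟨nat_lit 0, nat_lit 1000, nat_lit 0, nat_lit 4, nat_lit 97, nat_lit 1000, nat_lit 48, nat_lit 0, nat_lit 0, nat_lit 0, nat_lit 0, nat_lit 0, nat_lit 0, nat_lit 0, nat_lit 0, nat_lit 5000000, false, false⟩,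
 nat_lit 0, nat_lit 7055, nat_lit 0, nat_lit 0, nat_lit 3735, nat_lit 0, nat_lit 581, nat_lit 0, nat_lit 0, nat_lit 0, nat_lit 0, nat_lit 0, nat_lit 0, nat_lit 0, nat_lit 0, nat_lit 400000, nat_lit 0, nat_lit 0, [(nat_lit 6, [(nat_lit 1, nat_lit 1000)]), (nat_lit 9, [(nat_lit 1, nat_lit 1000)])],
 ⟨p029_k5, nat_lit 0, nat_lit 0, nat_lit 536, nat_lit 0, nat_lit 500034, [nat_lit 2702720000, nat_lit 3151066667, nat_lit 3294533333], [], [nat_lit 33799714400, nat_lit 32558737820, nat_lit 30813502384, nat_lit 31793829304, nat_lit 30813502384, nat_lit 31793829304, nat_lit 35106794614, nat_lit 31679767774], nat_lit 1271250, nat_lit 1271250, nat_lit 0, nat_lit 1100001, nat_lit 0, nat_lit 1100001, [nat_lit 1100000, nat_lit 1442500, nat_lit 1271250], [nat_lit 11, nat_lit 40, nat_lit 20, nat_lit 80, nat_lit 1, nat_lit 373, nat_lit 150, nat_lit 11]⟩, C1.Rw.none,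
 ⟨nat_lit 5477, nat_lit 6325, ⟨.ofNat (nat_lit 45942), .ofNat (nat_lit 374999), .ofNat (nat_lit 88677), .ofNat (nat_lit 417734), .ofNat (nat_lit 82619), .ofNat (nat_lit 382351), .ofNat (nat_lit 125333), .ofNat (nat_lit 425065)⟩, ⟨.negSucc (nat_lit 103633), .ofNat (nat_lit 225423), .negSucc (nat_lit 82265), .ofNat (nat_lit 246791), .negSucc (nat_lit 66879), .ofNat (nat_lit 232852), .negSucc (nat_lit 45522), .ofNat (nat_lit 254209)⟩⟩, []⟩
noncomputable def p029_l60 : Lf2 := ⟨nat_lit 0, nat_lit 8, [nat_lit 50, nat_lit 5, nat_lit 5, nat_lit 20], true, nat_lit 160, nat_lit 288, nat_lit 0, nat_lit 352, ⟨nat_lit 0, nat_lit 1000, nat_lit 0, nat_lit 4, nat_lit 97, nat_lit 1000, nat_lit 146, nat_lit 0, nat_lit 0, nat_lit 0, nat_lit 0, nat_lit 0, nat_lit 0, nat_lit 0, nat_lit 0, nat_lit 5000000, false, false⟩,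
 nat_lit 0, nat_lit 7141, nat_lit 0, nat_lit 0, nat_lit 3780, nat_lit 0, nat_lit 594, nat_lit 0, nat_lit 0, nat_lit 0, nat_lit 0, nat_lit 0, nat_lit 0, nat_lit 0, nat_lit 0, nat_lit 400000, nat_lit 0, nat_lit 0, [(nat_lit 6, [(nat_lit 1, nat_lit 1000)]), (nat_lit 9, [(nat_lit 1, nat_lit 1000)])],
 ⟨p029_k5, nat_lit 0, nat_lit 0, nat_lit 430, nat_lit 0, nat_lit 500034, [nat_lit 2702720000, nat_lit 3151066667, nat_lit 3294533333], [], [nat_lit 31165567200, nat_lit 28699209053, nat_lit 26896166733, nat_lit 27906404447, nat_lit 30268862160, nat_lit 31228672754, nat_lit 31693019563, nat_lit 30460283809], nat_lit 1271250, nat_lit 1271250, nat_lit 0, nat_lit 1100001, nat_lit 1100001, nat_lit 2196000, [nat_lit 1100000, nat_lit 1442500, nat_lit 1271250], [nat_lit 11, nat_lit 40, nat_lit 20, nat_lit 80, nat_lit 1, nat_lit 428, nat_lit 200, nat_lit 12]⟩, C1.Rw.none,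
 ⟨nat_lit 5477, nat_lit 6325, ⟨.ofNat (nat_lit 45942), .ofNat (nat_lit 374999), .ofNat (nat_lit 88677), .ofNat (nat_lit 417734), .ofNat (nat_lit 82619), .ofNat (nat_lit 382351), .ofNat (nat_lit 125333), .ofNat (nat_lit 425065)⟩, ⟨.ofNat (nat_lit 225423), .ofNat (nat_lit 488669), .ofNat (nat_lit 246791), .ofNat (nat_lit 510037), .ofNat (nat_lit 232852), .ofNat (nat_lit 472638), .ofNat (nat_lit 254209), .ofNat (nat_lit 493995)⟩⟩, [⟨nat_lit 0, nat_lit 100, nat_lit 92, nat_lit 40, nat_lit 1642781⟩, ⟨nat_lit 4, nat_lit 100, nat_lit 98, nat_lit 54, nat_lit 296329465⟩]⟩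
noncomputable def p029_l61 : Lf2 := ⟨nat_lit 0, nat_lit 8, [nat_lit 50, nat_lit 5, nat_lit 5, nat_lit 20], false, nat_lit 0, nat_lit 288, nat_lit 0, nat_lit 352, ⟨nat_lit 163, nat_lit 837, nat_lit 0, nat_lit 4, nat_lit 254, nat_lit 837, nat_lit 99, nat_lit 0, nat_lit 0, nat_lit 0, nat_lit 0, nat_lit 0, nat_lit 0, nat_lit 0, nat_lit 0, nat_lit 5000000, false, true⟩,
 nat_lit 0, nat_lit 9854, nat_lit 0, nat_lit 0, nat_lit 5216, nat_lit 1584, nat_lit 676, nat_lit 0, nat_lit 0, nat_lit 411, nat_lit 0, nat_lit 0, nat_lit 0, nat_lit 0, nat_lit 0, nat_lit 334800, nat_lit 0, nat_lit 0, [(nat_lit 6, [(nat_lit 1, nat_lit 837)])],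
 ⟨p029_k5, nat_lit 0, nat_lit 0, nat_lit 327, nat_lit 0, nat_lit 256551, [nat_lit 3017571200, nat_lit 3656192800, nat_lit 4336342400], [], [nat_lit 33983503840, nat_lit 31225606432, nat_lit 31721291831, nat_lit 32344449799, nat_lit 32484718388, nat_lit 30033112845, nat_lit 30250944771, nat_lit 30639982395], nat_lit 1271250, nat_lit 1271250, nat_lit 1271250, nat_lit 1271250, nat_lit 0, nat_lit 2034000, [nat_lit 1100000, nat_lit 1442500, nat_lit 1271250], [nat_lit 11, nat_lit 40, nat_lit 20, nat_lit 80, nat_lit 1, nat_lit 483, nat_lit 250, nat_lit 14]⟩, ⟨p029_k6, nat_lit 0, nat_lit 0, nat_lit 311, nat_lit 0, nat_lit 0, [nat_lit 1298784000, nat_lit 1604246000, nat_lit 2291454000], [], [nat_lit 4836031599, nat_lit 4928169743, nat_lit 7054204992, nat_lit 6994496075, nat_lit 4933587434, nat_lit 4945999805, nat_lit 6288370063, nat_lit 6202192299], nat_lit 0, nat_lit 0, nat_lit 0, nat_lit 0, nat_lit 0, nat_lit 0,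 [], [nat_lit 92, nat_lit 40, nat_lit 20, nat_lit 80, nat_lit 32, nat_lit 483, nat_lit 250, nat_lit 11]⟩,
 ⟨nat_lit 5916, nat_lit 6325, ⟨.ofNat (nat_lit 374999), .ofNat (nat_lit 860254), .ofNat (nat_lit 417734), .ofNat (nat_lit 902975), .ofNat (nat_lit 378786), .ofNat (nat_lit 842031), .ofNat (nat_lit 421465), .ofNat (nat_lit 884695)⟩, ⟨.negSucc (nat_lit 103633), .ofNat (nat_lit 488669), .negSucc (nat_lit 82265), .ofNat (nat_lit 510037), .negSucc (nat_lit 84722), .ofNat (nat_lit 480719), .negSucc (nat_lit 63383), .ofNat (nat_lit 502058)⟩⟩, [⟨nat_lit 4, nat_lit 99, nat_lit 100, nat_lit 54, nat_lit 84422394⟩, ⟨nat_lit 7, nat_lit 80, nat_lit 100, nat_lit 53, nat_lit 38120170⟩]⟩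
noncomputable def p029_l62 : Lf2 := ⟨nat_lit 0, nat_lit 8, [nat_lit 50, nat_lit 5, nat_lit 5, nat_lit 20], true, nat_lit 0, nat_lit 268, nat_lit 0, nat_lit 352, ⟨nat_lit 0, nat_lit 1000, nat_lit 0, nat_lit 4, nat_lit 250, nat_lit 1000, nat_lit 90, nat_lit 0, nat_lit 0, nat_lit 0, nat_lit 0, nat_lit 0, nat_lit 0, nat_lit 0, nat_lit 0, nat_lit 5000000, false, true⟩,
 nat_lit 0, nat_lit 7732, nat_lit 0, nat_lit 0, nat_lit 4500, nat_lit 0, nat_lit 675, nat_lit 0, nat_lit 0, nat_lit 0, nat_lit 0, nat_lit 0, nat_lit 0, nat_lit 0, nat_lit 2, nat_lit 1000000, nat_lit 0, nat_lit 0, [(nat_lit 9, [(nat_lit 2, nat_lit 1000)])],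
 ⟨p029_k7, nat_lit 0, nat_lit 0, nat_lit 347, nat_lit 0, nat_lit 329169, [nat_lit 2695466667, nat_lit 2706533334, nat_lit 383866666], [], [nat_lit 29804904334, nat_lit 28615243834, nat_lit 30157724401, nat_lit 30603578201, nat_lit 27582297476, nat_lit 26517568451, nat_lit 28982811611, nat_lit 29192236427], nat_lit 1271250, nat_lit 1271250, nat_lit 1271250, nat_lit 1271250, nat_lit 0, nat_lit 1892750, [nat_lit 1100000, nat_lit 1442500, nat_lit 1271250], [nat_lit 11, nat_lit 40, nat_lit 20, nat_lit 80, nat_lit 1, nat_lit 483, nat_lit 250, nat_lit 14]⟩, C1.Rw.none,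
 ⟨nat_lit 5700, nat_lit 5917, ⟨.ofNat (nat_lit 378786), .ofNat (nat_lit 834261), .ofNat (nat_lit 421465), .ofNat (nat_lit 876936), .ofNat (nat_lit 380596), .ofNat (nat_lit 825546), .ofNat (nat_lit 423279), .ofNat (nat_lit 868227)⟩, ⟨.negSucc (nat_lit 84722), .ofNat (nat_lit 441452), .negSucc (nat_lit 63383), .ofNat (nat_lit 462791), .negSucc (nat_lit 75673), .ofNat (nat_lit 438343), .negSucc (nat_lit 54331), .ofNat (nat_lit 459685)⟩⟩, [⟨nat_lit 13, nat_lit 95, nat_lit 30, nat_lit 100, nat_lit 103553129⟩, ⟨nat_lit 4, nat_lit 100, nat_lit 97, nat_lit 54, nat_lit 57788061⟩]⟩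
noncomputable def p029_l63 : Lf2 := ⟨nat_lit 0, nat_lit 8, [nat_lit 50, nat_lit 5, nat_lit 5, nat_lit 20], false, nat_lit 0, nat_lit 260, nat_lit 0, nat_lit 352, ⟨nat_lit 351, nat_lit 649, nat_lit 0, nat_lit 4, nat_lit 248, nat_lit 649, nat_lit 86, nat_lit 0, nat_lit 0, nat_lit 0, nat_lit 0, nat_lit 0, nat_lit 0, nat_lit 0, nat_lit 0, nat_lit 5000000, false, true⟩,
 nat_lit 0, nat_lit 8741, nat_lit 0, nat_lit 0, nat_lit 5323, nat_lit 3475, nat_lit 611, nat_lit 0, nat_lit 0, nat_lit 910, nat_lit 0, nat_lit 0, nat_lit 0, nat_lit 0, nat_lit 0, nat_lit 649000, nat_lit 0, nat_lit 0, [(nat_lit 9, [(nat_lit 2, nat_lit 649)])],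
 ⟨p029_k19, nat_lit 0, nat_lit 0, nat_lit 372, nat_lit 0, nat_lit 412052, [nat_lit 3374077867, nat_lit 3924330134, nat_lit 3612571466], [], [nat_lit 30637859493, nat_lit 29230623306, nat_lit 32230580540, nat_lit 32712511918, nat_lit 27077841350, nat_lit 25814982222, nat_lit 29564198900, nat_lit 29745816089], nat_lit 1271250, nat_lit 1271250, nat_lit 1271250, nat_lit 1271250, nat_lit 0, nat_lit 1836250, [nat_lit 1100000, nat_lit 1442500, nat_lit 1271250], [nat_lit 11, nat_lit 40, nat_lit 20, nat_lit 80, nat_lit 1, nat_lit 483, nat_lit 250, nat_lit 14]⟩, ⟨p029_k6, nat_lit 0, nat_lit 0, nat_lit 308, nat_lit 0, nat_lit 0, [nat_lit 2796768000, nat_lit 3454542000, nat_lit 4934358000], [], [nat_lit 10280675682, nat_lit 10476590302, nat_lit 14891780250, nat_lit 14775666096, nat_lit 10518865822, nat_lit 10540691772, nat_lit 13334206358, nat_lit 13154110834], nat_lit 0, nat_lit 0, nat_lit 0, nat_lit 0, nat_lit 0, nat_lit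 0, [], [nat_lit 92, nat_lit 40, nat_lit 20, nat_lit 80, nat_lit 32, nat_lit 483, nat_lit 250, nat_lit 11]⟩,
 ⟨nat_lit 5477, nat_lit 5701, ⟨.ofNat (nat_lit 380596), .ofNat (nat_lit 817879), .ofNat (nat_lit 423279), .ofNat (nat_lit 860558), .ofNat (nat_lit 382351), .ofNat (nat_lit 809454), .ofNat (nat_lit 425065), .ofNat (nat_lit 852164)⟩, ⟨.negSucc (nat_lit 75673), .ofNat (nat_lit 422999), .negSucc (nat_lit 54331), .ofNat (nat_lit 444341), .negSucc (nat_lit 66879), .ofNat (nat_lit 420185), .negSucc (nat_lit 45522), .ofNat (nat_lit 441542)⟩⟩, [⟨nat_lit 4, nat_lit 100, nat_lit 94, nat_lit 53, nat_lit 58177708⟩, ⟨nat_lit 7, nat_lit 80, nat_lit 100, nat_lit 53, nat_lit 84392133⟩]⟩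
noncomputable def p029_l64 : Lf2 := ⟨nat_lit 0, nat_lit 8, [nat_lit 50, nat_lit 5, nat_lit 5, nat_lit 20], true, nat_lit 0, nat_lit 160, nat_lit 0, nat_lit 352, ⟨nat_lit 0, nat_lit 1000, nat_lit 0, nat_lit 4, nat_lit 97, nat_lit 1000, nat_lit 48, nat_lit 0, nat_lit 0, nat_lit 0, nat_lit 0, nat_lit 0, nat_lit 0, nat_lit 0, nat_lit 0, nat_lit 5000000, false, false⟩,
 nat_lit 0, nat_lit 7055, nat_lit 0, nat_lit 0, nat_lit 3735, nat_lit 0, nat_lit 581, nat_lit 0, nat_lit 0, nat_lit 0, nat_lit 0, nat_lit 0, nat_lit 0, nat_lit 0, nat_lit 0, nat_lit 400000, nat_lit 0, nat_lit 0, [(nat_lit 6, [(nat_lit 1, nat_lit 1000)]), (nat_lit 9, [(nat_lit 1, nat_lit 1000)])],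
 ⟨p029_k5, nat_lit 0, nat_lit 0, nat_lit 536, nat_lit 0, nat_lit 500034, [nat_lit 2702720000, nat_lit 3151066667, nat_lit 3294533333], [], [nat_lit 33799714400, nat_lit 32558737820, nat_lit 30813502384, nat_lit 31793829304, nat_lit 30813502384, nat_lit 31793829304, nat_lit 35106794614, nat_lit 31679767774], nat_lit 1271250, nat_lit 1271250, nat_lit 0, nat_lit 1100001, nat_lit 0, nat_lit 1100001, [nat_lit 1100000, nat_lit 1442500, nat_lit 1271250], [nat_lit 11, nat_lit 40, nat_lit 20, nat_lit 80, nat_lit 1, nat_lit 373, nat_lit 150, nat_lit 11]⟩, C1.Rw.none,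
 ⟨nat_lit 5477, nat_lit 6325, ⟨.ofNat (nat_lit 45942), .ofNat (nat_lit 374999), .ofNat (nat_lit 88677), .ofNat (nat_lit 417734), .ofNat (nat_lit 82619), .ofNat (nat_lit 382351), .ofNat (nat_lit 125333), .ofNat (nat_lit 425065)⟩, ⟨.negSucc (nat_lit 103633), .ofNat (nat_lit 225423), .negSucc (nat_lit 82265), .ofNat (nat_lit 246791), .negSucc (nat_lit 66879), .ofNat (nat_lit 232852), .negSucc (nat_lit 45522), .ofNat (nat_lit 254209)⟩⟩, []⟩
noncomputable def p029_l65 : Lf2 := ⟨nat_lit 0, nat_lit 8, [nat_lit 50, nat_lit 5, nat_lit 5, nat_lit 20], true, nat_lit 160, nat_lit 288, nat_lit 0, nat_lit 352, ⟨nat_lit 0, nat_lit 1000, nat_lit 0, nat_lit 4, nat_lit 97, nat_lit 1000, nat_lit 146, nat_lit 0, nat_lit 0, nat_lit 0, nat_lit 0, nat_lit 0, nat_lit 0, nat_lit 0, nat_lit 0, nat_lit 5000000, false, false⟩,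
 nat_lit 0, nat_lit 7141, nat_lit 0, nat_lit 0, nat_lit 3780, nat_lit 0, nat_lit 594, nat_lit 0, nat_lit 0, nat_lit 0, nat_lit 0, nat_lit 0, nat_lit 0, nat_lit 0, nat_lit 0, nat_lit 400000, nat_lit 0, nat_lit 0, [(nat_lit 6, [(nat_lit 1, nat_lit 1000)]), (nat_lit 9, [(nat_lit 1, nat_lit 1000)])],
 ⟨p029_k5, nat_lit 0, nat_lit 0, nat_lit 430, nat_lit 0, nat_lit 500034, [nat_lit 2702720000, nat_lit 3151066667, nat_lit 3294533333], [], [nat_lit 31165567200, nat_lit 28699209053, nat_lit 26896166733, nat_lit 27906404447, nat_lit 30268862160, nat_lit 31228672754, nat_lit 31693019563, nat_lit 30460283809], nat_lit 1271250, nat_lit 1271250, nat_lit 0, nat_lit 1100001, nat_lit 1100001, nat_lit 2196000, [nat_lit 1100000, nat_lit 1442500, nat_lit 1271250], [nat_lit 11, nat_lit 40, nat_lit 20, nat_lit 80, nat_lit 1, nat_lit 428, nat_lit 200, nat_lit 12]⟩, C1.Rw.none,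
 ⟨nat_lit 5477, nat_lit 6325, ⟨.ofNat (nat_lit 45942), .ofNat (nat_lit 374999), .ofNat (nat_lit 88677), .ofNat (nat_lit 417734), .ofNat (nat_lit 82619), .ofNat (nat_lit 382351), .ofNat (nat_lit 125333), .ofNat (nat_lit 425065)⟩, ⟨.ofNat (nat_lit 225423), .ofNat (nat_lit 488669), .ofNat (nat_lit 246791), .ofNat (nat_lit 510037), .ofNat (nat_lit 232852), .ofNat (nat_lit 472638), .ofNat (nat_lit 254209), .ofNat (nat_lit 493995)⟩⟩, [⟨nat_lit 0, nat_lit 100, nat_lit 92, nat_lit 40, nat_lit 1642781⟩, ⟨nat_lit 4, nat_lit 100, nat_lit 98, nat_lit 54, nat_lit 296329465⟩]⟩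
noncomputable def p029_l66 : Lf2 := ⟨nat_lit 0, nat_lit 8, [nat_lit 50, nat_lit 5, nat_lit 5, nat_lit 20], false, nat_lit 0, nat_lit 288, nat_lit 0, nat_lit 352, ⟨nat_lit 28, nat_lit 972, nat_lit 0, nat_lit 4, nat_lit 254, nat_lit 972, nat_lit 99, nat_lit 0, nat_lit 0, nat_lit 0, nat_lit 0, nat_lit 0, nat_lit 0, nat_lit 0, nat_lit 0, nat_lit 5000000, false, true⟩,
 nat_lit 836, nat_lit 8458, nat_lit 0, nat_lit 0, nat_lit 4919, nat_lit 278, nat_lit 630, nat_lit 0, nat_lit 0, nat_lit 59, nat_lit 0, nat_lit 0, nat_lit 0, nat_lit 0, nat_lit 0, nat_lit 388800, nat_lit 0, nat_lit 0, [(nat_lit 6, [(nat_lit 1, nat_lit 972)])],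
 ⟨p029_k5, nat_lit 0, nat_lit 0, nat_lit 292, nat_lit 0, nat_lit 148757, [nat_lit 2748147200, nat_lit 3237836800, nat_lit 3473494400], [], [nat_lit 32992075360, nat_lit 30391213138, nat_lit 30700595918, nat_lit 31599222626, nat_lit 31839362105, nat_lit 29527351434, nat_lit 29892124732, nat_lit 30283621432], nat_lit 1271250, nat_lit 1271250, nat_lit 1271250, nat_lit 1271250, nat_lit 0, nat_lit 2034000, [nat_lit 1100000, nat_lit 1442500, nat_lit 1271250], [nat_lit 11, nat_lit 40, nat_lit 20, nat_lit 80, nat_lit 1, nat_lit 483, nat_lit 250, nat_lit 14]⟩, ⟨p029_k6, nat_lit 0, nat_lit 0, nat_lit 461, nat_lit 0, nat_lit 261941, [nat_lit 223104000, nat_lit 275576000, nat_lit 393624000], [], [nat_lit 2429662752, nat_lit 2116589160, nat_lit 1264391952, nat_lit 1253391730, nat_lit 1858790888, nat_lit 2025550525, nat_lit 1082035333, nat_lit 1072247620], nat_lit 1100001, nat_lit 1442500, nat_lit 1271250, nat_lit 1271250,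 nat_lit 0, nat_lit 2486000, [nat_lit 1695000, nat_lit 1271250, nat_lit 1271250], [nat_lit 92, nat_lit 40, nat_lit 20, nat_lit 80, nat_lit 32, nat_lit 483, nat_lit 250, nat_lit 11]⟩,
 ⟨nat_lit 5916, nat_lit 6325, ⟨.ofNat (nat_lit 374999), .ofNat (nat_lit 860254), .ofNat (nat_lit 417734), .ofNat (nat_lit 902975), .ofNat (nat_lit 378786), .ofNat (nat_lit 842031), .ofNat (nat_lit 421465), .ofNat (nat_lit 884695)⟩, ⟨.negSucc (nat_lit 103633), .ofNat (nat_lit 488669), .negSucc (nat_lit 82265), .ofNat (nat_lit 510037), .negSucc (nat_lit 84722), .ofNat (nat_lit 480719), .negSucc (nat_lit 63383), .ofNat (nat_lit 502058)⟩⟩, [⟨nat_lit 16, nat_lit 100, nat_lit 99, nat_lit 54, nat_lit 66656425⟩, ⟨nat_lit 7, nat_lit 80, nat_lit 100, nat_lit 53, nat_lit 5320698⟩]⟩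
noncomputable def p029_l67 : Lf2 := ⟨nat_lit 0, nat_lit 8, [nat_lit 50, nat_lit 5, nat_lit 5, nat_lit 20], false, nat_lit 0, nat_lit 268, nat_lit 0, nat_lit 352, ⟨nat_lit 64, nat_lit 936, nat_lit 0, nat_lit 4, nat_lit 250, nat_lit 936, nat_lit 90, nat_lit 0, nat_lit 0, nat_lit 0, nat_lit 0, nat_lit 0, nat_lit 0, nat_lit 0, nat_lit 0, nat_lit 5000000, false, true⟩,
 nat_lit 1894, nat_lit 5978, nat_lit 0, nat_lit 0, nat_lit 4581, nat_lit 631, nat_lit 429, nat_lit 0, nat_lit 0, nat_lit 114, nat_lit 0, nat_lit 0, nat_lit 0, nat_lit 0, nat_lit 0, nat_lit 936000, nat_lit 0, nat_lit 0, [(nat_lit 9, [(nat_lit 2, nat_lit 936)])],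
 ⟨p029_k7, nat_lit 0, nat_lit 0, nat_lit 325, nat_lit 0, nat_lit 259354, [nat_lit 2793036800, nat_lit 2895875201, nat_lit 926787199], [], [nat_lit 30144647862, nat_lit 27722499084, nat_lit 30356835425, nat_lit 31253617837, nat_lit 28087693084, nat_lit 25919904789, nat_lit 29201567124, nat_lit 29590661822], nat_lit 1271250, nat_lit 1271250, nat_lit 1271250, nat_lit 1271250, nat_lit 0, nat_lit 1892750, [nat_lit 1100000, nat_lit 1442500, nat_lit 1271250], [nat_lit 11, nat_lit 40, nat_lit 20, nat_lit 80, nat_lit 1, nat_lit 483, nat_lit 250, nat_lit 14]⟩, ⟨p029_k6, nat_lit 0, nat_lit 0, nat_lit 612, nat_lit 0, nat_lit 510539, [nat_lit 509952000, nat_lit 629888000, nat_lit 899712000], [], [nat_lit 5527285000, nat_lit 4816675516, nat_lit 2959123288, nat_lit 2926286220, nat_lit 4240020404, nat_lit 4619139866, nat_lit 2471612375, nat_lit 2419540594], nat_lit 1100001, nat_lit 1442500, nat_lit 1271250, nat_lit 1271250,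 nat_lit 0, nat_lit 2486000, [nat_lit 1695000, nat_lit 1271250, nat_lit 1271250], [nat_lit 92, nat_lit 40, nat_lit 20, nat_lit 80, nat_lit 32, nat_lit 483, nat_lit 250, nat_lit 11]⟩,
 ⟨nat_lit 5477, nat_lit 5917, ⟨.ofNat (nat_lit 378786), .ofNat (nat_lit 834207), .ofNat (nat_lit 421465), .ofNat (nat_lit 876870), .ofNat (nat_lit 382351), .ofNat (nat_lit 816889), .ofNat (nat_lit 425065), .ofNat (nat_lit 859587)⟩, ⟨.negSucc (nat_lit 84722), .ofNat (nat_lit 441452), .negSucc (nat_lit 63383), .ofNat (nat_lit 462791), .negSucc (nat_lit 66879), .ofNat (nat_lit 435171), .negSucc (nat_lit 45522), .ofNat (nat_lit 456528)⟩⟩, [⟨nat_lit 4, nat_lit 100, nat_lit 96, nat_lit 54, nat_lit 68577107⟩, ⟨nat_lit 7, nat_lit 80, nat_lit 100, nat_lit 53, nat_lit 9735968⟩]⟩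
noncomputable def b_VL_600_400_5_6 : St := ⟨true, nat_lit 1, nat_lit 2, nat_lit 2, nat_lit 40, nat_lit 240, nat_lit 280, nat_lit 160, nat_lit 200, nat_lit 0, nat_lit 396, nat_lit 20, nat_lit 40, nat_lit 0, nat_lit 288, nat_lit 0, nat_lit 352, nat_lit 0, nat_lit 32, nat_lit 0, nat_lit 0, nat_lit 0, nat_lit 0⟩
theorem d_VL_600_400_5_6 (h : EB TB.env) : Dead b_VL_600_400_5_6 := chkB_sound0 h (T :=
(.st (nat_lit 1)
(.spl (nat_lit 2) (nat_lit 160)
(.spl (nat_lit 4) (nat_lit 160)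
(.leaf p029_l59)
(.leaf p029_l60))
(.spl (nat_lit 0) (nat_lit 260)
(.leaf p029_l61)
(.trX (nat_lit 13) (nat_lit 95) (nat_lit 30) (nat_lit 100) (nat_lit 392) (.trX (nat_lit 16) (nat_lit 100) (nat_lit 99) (nat_lit 63) (nat_lit 268) (.spl (nat_lit 0) (nat_lit 270)
(.leaf p029_l62)
(.trX (nat_lit 13) (nat_lit 94) (nat_lit 35) (nat_lit 100) (nat_lit 388) (.trX (nat_lit 16) (nat_lit 98) (nat_lit 100) (nat_lit 63) (nat_lit 260) (.leaf p029_l63))))))))
(.spl (nat_lit 2) (nat_lit 160)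
(.spl (nat_lit 4) (nat_lit 160)
(.leaf p029_l64)
(.leaf p029_l65))
(.spl (nat_lit 0) (nat_lit 260)
(.leaf p029_l66)
(.trX (nat_lit 13) (nat_lit 95) (nat_lit 30) (nat_lit 100) (nat_lit 392) (.trX (nat_lit 16) (nat_lit 100) (nat_lit 99) (nat_lit 63) (nat_lit 268) (.leaf p029_l67))))))) (by decide +kernel)
noncomputable def p029_l68 : Lf2 := ⟨nat_lit 0, nat_lit 8, [nat_lit 50, nat_lit 5, nat_lit 5, nat_lit 20], true, nat_lit 0, nat_lit 80, nat_lit 0, nat_lit 320, ⟨nat_lit 0, nat_lit 0, nat_lit 1000, nat_lit 5, nat_lit 98, nat_lit 0, nat_lit 15, nat_lit 0, nat_lit 17, nat_lit 214, nat_lit 88817, nat_lit 288, nat_lit 63235926, nat_lit 0, nat_lit 0, nat_lit 1081618, false, false⟩,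
 nat_lit 0, nat_lit 0, nat_lit 0, nat_lit 6179, nat_lit 4757, nat_lit 0, nat_lit 0, nat_lit 0, nat_lit 0, nat_lit 0, nat_lit 0, nat_lit 0, nat_lit 0, nat_lit 0, nat_lit 127, nat_lit 844600, nat_lit 0, nat_lit 0, [(nat_lit 6, [(nat_lit 5, nat_lit 259), (nat_lit 6, nat_lit 741)])],
 ⟨p029_k18, nat_lit 0, nat_lit 0, nat_lit 293, nat_lit 0, nat_lit 0, [nat_lit 4035286400, nat_lit 43168400], [], [nat_lit 15086025078, nat_lit 16529192874, nat_lit 13381270256, nat_lit 14334512878, nat_lit 13055317829, nat_lit 14056584338, nat_lit 11750023280, nat_lit 12646395244], nat_lit 0, nat_lit 0, nat_lit 0, nat_lit 0, nat_lit 0, nat_lit 0, [], [nat_lit 70, nat_lit 40, nat_lit 20, nat_lit 80, nat_lit 13, nat_lit 345, nat_lit 125, nat_lit 10]⟩, C1.Rw.none,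
 ⟨nat_lit 5916, nat_lit 6325, ⟨.ofNat (nat_lit 96904), .ofNat (nat_lit 335470), .ofNat (nat_lit 139640), .ofNat (nat_lit 378206), .ofNat (nat_lit 115184), .ofNat (nat_lit 342931), .ofNat (nat_lit 157863), .ofNat (nat_lit 385610)⟩, ⟨.negSucc (nat_lit 103633), .ofNat (nat_lit 60895), .negSucc (nat_lit 82265), .ofNat (nat_lit 82263), .negSucc (nat_lit 84722), .ofNat (nat_lit 72344), .negSucc (nat_lit 63383), .ofNat (nat_lit 93684)⟩⟩, [⟨nat_lit 0, nat_lit 100, nat_lit 97, nat_lit 49, nat_lit 177040597⟩]⟩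
noncomputable def p029_l69 : Lf2 := ⟨nat_lit 1, nat_lit 10, [nat_lit 0, nat_lit 5, nat_lit 5, nat_lit 20], false, nat_lit 0, nat_lit 80, nat_lit 0, nat_lit 320, zbN0,
 nat_lit 0, nat_lit 0, nat_lit 0, nat_lit 0, nat_lit 0, nat_lit 0, nat_lit 0, nat_lit 0, nat_lit 0, nat_lit 0, nat_lit 0, nat_lit 0, nat_lit 0, nat_lit 0, nat_lit 0, nat_lit 0, nat_lit 0, nat_lit 0, [],
 C1.Rw.none, C1.Rw.none,
 zbF0, []⟩
noncomputable def p029_l70 : Lf2 := ⟨nat_lit 0, nat_lit 10, [nat_lit 0, nat_lit 5, nat_lit 5, nat_lit 20], true, nat_lit 0, nat_lit 80, nat_lit 0, nat_lit 320, ⟨nat_lit 0, nat_lit 0, nat_lit 1000, nat_lit 5, nat_lit 104, nat_lit 0, nat_lit 18, nat_lit 0, nat_lit 150, nat_lit 218, nat_lit 101400, nat_lit 293, nat_lit 62743720, nat_lit 0, nat_lit 0, nat_lit 1182807, false, false⟩,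
 nat_lit 0, nat_lit 0, nat_lit 0, nat_lit 4863, nat_lit 4436, nat_lit 0, nat_lit 0, nat_lit 0, nat_lit 0, nat_lit 0, nat_lit 0, nat_lit 0, nat_lit 0, nat_lit 0, nat_lit 120, nat_lit 585400, nat_lit 0, nat_lit 0, [(nat_lit 9, [(nat_lit 5, nat_lit 691), (nat_lit 6, nat_lit 309)])],
 ⟨p029_k23, nat_lit 0, nat_lit 0, nat_lit 294, nat_lit 0, nat_lit 0, [nat_lit 3603742801, nat_lit 27706400], [], [nat_lit 16063319234, nat_lit 17506743418, nat_lit 14502409946, nat_lit 15429508402, nat_lit 14033402210, nat_lit 15004736598, nat_lit 13014969314, nat_lit 13887634786], nat_lit 0, nat_lit 0, nat_lit 0, nat_lit 0, nat_lit 0, nat_lit 0, [], [nat_lit 70, nat_lit 40, nat_lit 20, nat_lit 80, nat_lit 13, nat_lit 345, nat_lit 125, nat_lit 10]⟩, C1.Rw.none,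
 ⟨nat_lit 5477, nat_lit 5917, ⟨.ofNat (nat_lit 123037), .ofNat (nat_lit 342931), .ofNat (nat_lit 165716), .ofNat (nat_lit 385610), .ofNat (nat_lit 140320), .ofNat (nat_lit 350132), .ofNat (nat_lit 183034), .ofNat (nat_lit 392847)⟩, ⟨.negSucc (nat_lit 84722), .ofNat (nat_lit 72344), .negSucc (nat_lit 63383), .ofNat (nat_lit 93684), .negSucc (nat_lit 66879), .ofNat (nat_lit 82986), .negSucc (nat_lit 45522), .ofNat (nat_lit 104343)⟩⟩, [⟨nat_lit 0, nat_lit 100, nat_lit 94, nat_lit 44, nat_lit 163062741⟩]⟩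
noncomputable def p029_l71 : Lf2 := ⟨nat_lit 0, nat_lit 10, [nat_lit 0, nat_lit 5, nat_lit 5, nat_lit 20], true, nat_lit 80, nat_lit 160, nat_lit 0, nat_lit 320, ⟨nat_lit 0, nat_lit 0, nat_lit 1000, nat_lit 5, nat_lit 100, nat_lit 1000, nat_lit 64, nat_lit 1000, nat_lit 38400, nat_lit 263, nat_lit 93750, nat_lit 290, nat_lit 60499727, nat_lit 0, nat_lit 0, nat_lit 2002919, false, false⟩,
 nat_lit 0, nat_lit 0, nat_lit 0, nat_lit 7689, nat_lit 4108, nat_lit 0, nat_lit 0, nat_lit 0, nat_lit 0, nat_lit 0, nat_lit 0, nat_lit 0, nat_lit 0, nat_lit 0, nat_lit 166, nat_lit 1000000, nat_lit 0, nat_lit 0, [(nat_lit 6, [(nat_lit 6, nat_lit 1000)]), (nat_lit 9, [(nat_lit 6, nat_lit 1000)])],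
 ⟨p029_k24, nat_lit 0, nat_lit 0, nat_lit 205, nat_lit 0, nat_lit 0, [nat_lit 4113520001, nat_lit 348400000], [], [nat_lit 13553054197, nat_lit 15828384660, nat_lit 12174118513, nat_lit 13964648113, nat_lit 14255217893, nat_lit 16245714186, nat_lit 12901217825, nat_lit 14513196577], nat_lit 0, nat_lit 0, nat_lit 0, nat_lit 0, nat_lit 0, nat_lit 0, [], [nat_lit 116, nat_lit 40, nat_lit 20, nat_lit 80, nat_lit 65, nat_lit 373, nat_lit 150, nat_lit 10]⟩, C1.Rw.none,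
 ⟨nat_lit 5477, nat_lit 6325, ⟨.ofNat (nat_lit 96904), .ofNat (nat_lit 335470), .ofNat (nat_lit 139640), .ofNat (nat_lit 378206), .ofNat (nat_lit 132827), .ofNat (nat_lit 350132), .ofNat (nat_lit 175541), .ofNat (nat_lit 392847)⟩, ⟨.ofNat (nat_lit 60895), .ofNat (nat_lit 225423), .ofNat (nat_lit 82263), .ofNat (nat_lit 246791), .ofNat (nat_lit 82986), .ofNat (nat_lit 232852), .ofNat (nat_lit 104343), .ofNat (nat_lit 254209)⟩⟩, [⟨nat_lit 0, nat_lit 100, nat_lit 96, nat_lit 40, nat_lit 183865803⟩]⟩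
noncomputable def p029_l72 : Lf2 := ⟨nat_lit 0, nat_lit 10, [nat_lit 0, nat_lit 5, nat_lit 5, nat_lit 20], false, nat_lit 0, nat_lit 160, nat_lit 0, nat_lit 320, ⟨nat_lit 1000, nat_lit 0, nat_lit 0, nat_lit 0, nat_lit 0, nat_lit 0, nat_lit 0, nat_lit 0, nat_lit 0, nat_lit 0, nat_lit 0, nat_lit 0, nat_lit 0, nat_lit 0, nat_lit 0, nat_lit 0, false, false⟩,
 nat_lit 0, nat_lit 0, nat_lit 0, nat_lit 2600, nat_lit 7513, nat_lit 28742, nat_lit 0, nat_lit 0, nat_lit 0, nat_lit 0, nat_lit 0, nat_lit 0, nat_lit 0, nat_lit 0, nat_lit 0, nat_lit 0, nat_lit 0, nat_lit 0, [],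
 ⟨p029_k24, nat_lit 0, nat_lit 0, nat_lit 194, nat_lit 0, nat_lit 0, [nat_lit 4688000000, nat_lit 11872000000], [], [nat_lit 31530922040, nat_lit 34450348336, nat_lit 34606407268, nat_lit 36855773264, nat_lit 26865973664, nat_lit 28915644736, nat_lit 29056779428, nat_lit 30952050348], nat_lit 0, nat_lit 0, nat_lit 0, nat_lit 0, nat_lit 0, nat_lit 0, [], [nat_lit 116, nat_lit 40, nat_lit 20, nat_lit 80, nat_lit 65, nat_lit 401, nat_lit 175, nat_lit 10]⟩, ⟨p029_k25, nat_lit 0, nat_lit 0, nat_lit 185, nat_lit 0, nat_lit 0, [nat_lit 6250000000, nat_lit 11872000000], [], [nat_lit 31845584976, nat_lit 37158305360, nat_lit 36589797568, nat_lit 39990845912, nat_lit 22027411008, nat_lit 25286305360, nat_lit 24717797568, nat_lit 28118845912], nat_lit 0, nat_lit 0, nat_lit 0, nat_lit 0, nat_lit 0, nat_lit 0, [], [nat_lit 107, nat_lit 40, nat_lit 20, nat_lit 80, nat_lit 12, nat_lit 428, nat_lit 200, nat_lit 11]⟩,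
 zbF0, []⟩
noncomputable def p029_l73 : Lf2 := ⟨nat_lit 0, nat_lit 10, [nat_lit 0, nat_lit 5, nat_lit 5, nat_lit 20], true, nat_lit 160, nat_lit 240, nat_lit 0, nat_lit 320, ⟨nat_lit 0, nat_lit 0, nat_lit 1000, nat_lit 5, nat_lit 98, nat_lit 1000, nat_lit 127, nat_lit 1000, nat_lit 153600, nat_lit 311, nat_lit 88817, nat_lit 288, nat_lit 56059750, nat_lit 0, nat_lit 0, nat_lit 2946056, false, false⟩,
 nat_lit 0, nat_lit 0, nat_lit 0, nat_lit 7617, nat_lit 4769, nat_lit 0, nat_lit 594, nat_lit 0, nat_lit 0, nat_lit 0, nat_lit 0, nat_lit 0, nat_lit 0, nat_lit 0, nat_lit 69, nat_lit 400000, nat_lit 0, nat_lit 0, [(nat_lit 6, [(nat_lit 5, nat_lit 1000)])],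
 ⟨p029_k26, nat_lit 0, nat_lit 0, nat_lit 188, nat_lit 0, nat_lit 0, [nat_lit 2521600001, nat_lit 679600001, nat_lit 185200000], [], [nat_lit 13243171936, nat_lit 14337736809, nat_lit 11189503682, nat_lit 12246918418, nat_lit 15813612707, nat_lit 16982355417, nat_lit 13901594782, nat_lit 14799773654], nat_lit 0, nat_lit 0, nat_lit 0, nat_lit 0, nat_lit 0, nat_lit 0, [], [nat_lit 21, nat_lit 40, nat_lit 20, nat_lit 80, nat_lit 14, nat_lit 401, nat_lit 175, nat_lit 10]⟩, C1.Rw.none,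
 ⟨nat_lit 5916, nat_lit 6325, ⟨.ofNat (nat_lit 96904), .ofNat (nat_lit 335470), .ofNat (nat_lit 139640), .ofNat (nat_lit 378206), .ofNat (nat_lit 115184), .ofNat (nat_lit 342931), .ofNat (nat_lit 157863), .ofNat (nat_lit 385610)⟩, ⟨.ofNat (nat_lit 225423), .ofNat (nat_lit 389952), .ofNat (nat_lit 246791), .ofNat (nat_lit 411320), .ofNat (nat_lit 229411), .ofNat (nat_lit 386479), .ofNat (nat_lit 250751), .ofNat (nat_lit 407818)⟩⟩, [⟨nat_lit 0, nat_lit 100, nat_lit 97, nat_lit 49, nat_lit 204048376⟩]⟩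
noncomputable def p029_l74 : Lf2 := ⟨nat_lit 0, nat_lit 10, [nat_lit 0, nat_lit 5, nat_lit 5, nat_lit 20], true, nat_lit 160, nat_lit 240, nat_lit 0, nat_lit 320, ⟨nat_lit 0, nat_lit 0, nat_lit 1000, nat_lit 5, nat_lit 104, nat_lit 1000, nat_lit 127, nat_lit 1000, nat_lit 153600, nat_lit 311, nat_lit 101400, nat_lit 293, nat_lit 55574374, nat_lit 0, nat_lit 0, nat_lit 3045286, false, false⟩,
 nat_lit 0, nat_lit 0, nat_lit 0, nat_lit 4519, nat_lit 5074, nat_lit 0, nat_lit 0, nat_lit 0, nat_lit 0, nat_lit 0, nat_lit 0, nat_lit 0, nat_lit 0, nat_lit 0, nat_lit 111, nat_lit 533800, nat_lit 0, nat_lit 0, [(nat_lit 9, [(nat_lit 5, nat_lit 777), (nat_lit 6, nat_lit 223)])],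
 ⟨p029_k23, nat_lit 0, nat_lit 0, nat_lit 143, nat_lit 0, nat_lit 0, [nat_lit 3415951600, nat_lit 27720800], [], [nat_lit 13965161020, nat_lit 15249923540, nat_lit 11781803996, nat_lit 12890224136, nat_lit 16884885264, nat_lit 18568841711, nat_lit 14435625136, nat_lit 15564847328], nat_lit 0, nat_lit 0, nat_lit 0, nat_lit 0, nat_lit 0, nat_lit 0, [], [nat_lit 70, nat_lit 40, nat_lit 20, nat_lit 80, nat_lit 13, nat_lit 401, nat_lit 175, nat_lit 11]⟩, C1.Rw.none,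
 ⟨nat_lit 5477, nat_lit 5917, ⟨.ofNat (nat_lit 123037), .ofNat (nat_lit 342931), .ofNat (nat_lit 165716), .ofNat (nat_lit 385610), .ofNat (nat_lit 140320), .ofNat (nat_lit 350132), .ofNat (nat_lit 183034), .ofNat (nat_lit 392847)⟩, ⟨.ofNat (nat_lit 229411), .ofNat (nat_lit 386479), .ofNat (nat_lit 250751), .ofNat (nat_lit 407818), .ofNat (nat_lit 232852), .ofNat (nat_lit 382718), .ofNat (nat_lit 254209), .ofNat (nat_lit 404075)⟩⟩, [⟨nat_lit 0, nat_lit 100, nat_lit 94, nat_lit 44, nat_lit 231050000⟩, ⟨nat_lit 4, nat_lit 100, nat_lit 96, nat_lit 54, nat_lit 207923943⟩]⟩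
noncomputable def p029_l75 : Lf2 := ⟨nat_lit 0, nat_lit 1, [nat_lit 19, nat_lit 5, nat_lit 5, nat_lit 20], true, nat_lit 240, nat_lit 288, nat_lit 0, nat_lit 252, ⟨nat_lit 0, nat_lit 0, nat_lit 1000, nat_lit 5, nat_lit 57, nat_lit 1000, nat_lit 179, nat_lit 1000, nat_lit 29345, nat_lit 255, nat_lit 30817, nat_lit 258, nat_lit 53818516, nat_lit 0, nat_lit 0, nat_lit 3021991, false, false⟩,
 nat_lit 0, nat_lit 0, nat_lit 0, nat_lit 5161, nat_lit 3578, nat_lit 0, nat_lit 0, nat_lit 0, nat_lit 0, nat_lit 0, nat_lit 0, nat_lit 0, nat_lit 0, nat_lit 0, nat_lit 10, nat_lit 1000000, nat_lit 0, nat_lit 0, [(nat_lit 6, [(nat_lit 6, nat_lit 1000)])],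
 ⟨p029_k9, nat_lit 0, nat_lit 0, nat_lit 79, nat_lit 0, nat_lit 0, [nat_lit 1137066667, nat_lit 8000000], [], [nat_lit 14925289036, nat_lit 16146186818, nat_lit 14246435179, nat_lit 15462915739, nat_lit 18220762978, nat_lit 19452461244, nat_lit 17319203592, nat_lit 18550091839], nat_lit 0, nat_lit 0, nat_lit 0, nat_lit 0, nat_lit 0, nat_lit 0, [], [nat_lit 31, nat_lit 40, nat_lit 20, nat_lit 80, nat_lit 3, nat_lit 215, nat_lit 10, nat_lit 8]⟩, C1.Rw.none,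
 ⟨nat_lit 5916, nat_lit 6325, ⟨.ofNat (nat_lit 96904), .ofNat (nat_lit 129809), .ofNat (nat_lit 139640), .ofNat (nat_lit 172545), .ofNat (nat_lit 115184), .ofNat (nat_lit 146597), .ofNat (nat_lit 157863), .ofNat (nat_lit 189276)⟩, ⟨.ofNat (nat_lit 389952), .ofNat (nat_lit 488669), .ofNat (nat_lit 411320), .ofNat (nat_lit 510037), .ofNat (nat_lit 386479), .ofNat (nat_lit 480719), .ofNat (nat_lit 407818), .ofNat (nat_lit 502058)⟩⟩, [⟨nat_lit 0, nat_lit 100, nat_lit 97, nat_lit 35, nat_lit 399485355⟩, ⟨nat_lit 16, nat_lit 100, nat_lit 92, nat_lit 61, nat_lit 477384643⟩]⟩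
noncomputable def p029_l76 : Lf2 := ⟨nat_lit 0, nat_lit 2, [nat_lit 10, nat_lit 5, nat_lit 5, nat_lit 20], true, nat_lit 240, nat_lit 288, nat_lit 0, nat_lit 240, ⟨nat_lit 0, nat_lit 0, nat_lit 1000, nat_lit 5, nat_lit 52, nat_lit 1000, nat_lit 179, nat_lit 1000, nat_lit 29345, nat_lit 255, nat_lit 25350, nat_lit 254, nat_lit 54116713, nat_lit 0, nat_lit 0, nat_lit 2933637, false, false⟩,
 nat_lit 0, nat_lit 0, nat_lit 0, nat_lit 12642, nat_lit 4726, nat_lit 0, nat_lit 0, nat_lit 0, nat_lit 0, nat_lit 0, nat_lit 0, nat_lit 0, nat_lit 0, nat_lit 0, nat_lit 66, nat_lit 785800, nat_lit 0, nat_lit 0, [(nat_lit 6, [(nat_lit 5, nat_lit 357), (nat_lit 6, nat_lit 643)])],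
 ⟨p029_k10, nat_lit 0, nat_lit 0, nat_lit 126, nat_lit 0, nat_lit 0, [nat_lit 2548445200, nat_lit 71217467], [], [nat_lit 15327202745, nat_lit 16948083111, nat_lit 14591219482, nat_lit 16018975510, nat_lit 19462648438, nat_lit 20860362015, nat_lit 18529884203, nat_lit 19928383184], nat_lit 0, nat_lit 0, nat_lit 0, nat_lit 0, nat_lit 0, nat_lit 0, [], [nat_lit 39, nat_lit 40, nat_lit 20, nat_lit 80, nat_lit 7, nat_lit 215, nat_lit 10, nat_lit 7]⟩, C1.Rw.none,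
 ⟨nat_lit 5916, nat_lit 6325, ⟨.ofNat (nat_lit 96904), .ofNat (nat_lit 121583), .ofNat (nat_lit 118272), .ofNat (nat_lit 142951), .ofNat (nat_lit 115184), .ofNat (nat_lit 138744), .ofNat (nat_lit 136523), .ofNat (nat_lit 160083)⟩, ⟨.ofNat (nat_lit 389952), .ofNat (nat_lit 488669), .ofNat (nat_lit 411320), .ofNat (nat_lit 510037), .ofNat (nat_lit 386479), .ofNat (nat_lit 480719), .ofNat (nat_lit 407818), .ofNat (nat_lit 502058)⟩⟩, [⟨nat_lit 0, nat_lit 100, nat_lit 97, nat_lit 30, nat_lit 422255801⟩, ⟨nat_lit 4, nat_lit 99, nat_lit 100, nat_lit 54, nat_lit 744239283⟩]⟩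
noncomputable def p029_l77 : Lf2 := ⟨nat_lit 0, nat_lit 2, [nat_lit 10, nat_lit 5, nat_lit 5, nat_lit 20], false, nat_lit 240, nat_lit 288, nat_lit 0, nat_lit 240, ⟨nat_lit 36, nat_lit 0, nat_lit 964, nat_lit 5, nat_lit 62, nat_lit 964, nat_lit 179, nat_lit 964, nat_lit 29345, nat_lit 255, nat_lit 35267, nat_lit 261, nat_lit 53592950, nat_lit 0, nat_lit 0, nat_lit 3086050, false, false⟩,
 nat_lit 0, nat_lit 0, nat_lit 0, nat_lit 6470, nat_lit 3940, nat_lit 498, nat_lit 0, nat_lit 0, nat_lit 0, nat_lit 75, nat_lit 0, nat_lit 0, nat_lit 0, nat_lit 0, nat_lit 66, nat_lit 964000, nat_lit 0, nat_lit 0, [(nat_lit 6, [(nat_lit 6, nat_lit 964)])],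
 ⟨p029_k27, nat_lit 0, nat_lit 0, nat_lit 122, nat_lit 0, nat_lit 0, [nat_lit 2166660267, nat_lit 1359912001, nat_lit 222160799], [], [nat_lit 15802490731, nat_lit 16728584202, nat_lit 15495381195, nat_lit 16419324298, nat_lit 18359852525, nat_lit 19643999321, nat_lit 17858316477, nat_lit 19139165928], nat_lit 0, nat_lit 0, nat_lit 0, nat_lit 0, nat_lit 0, nat_lit 0, [], [nat_lit 9, nat_lit 40, nat_lit 20, nat_lit 80, nat_lit 2, nat_lit 215, nat_lit 10, nat_lit 7]⟩, ⟨p029_k28, nat_lit 0, nat_lit 0, nat_lit 170, nat_lit 0, nat_lit 0, [nat_lit 225000000, nat_lit 286848000], [], [nat_lit 892689116, nat_lit 1017898657, nat_lit 796687983, nat_lit 922699921, nat_lit 640402406, nat_lit 713284330, nat_lit 583809129, nat_lit 644918291], nat_lit 0, nat_lit 0, nat_lit 0, nat_lit 0, nat_lit 0, nat_lit 0, [], [nat_lit 26, nat_lit 40, nat_lit 20, nat_lit 80, nat_lit 2, nat_lit 345, nat_lit 125, nat_lit 12]⟩,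
 ⟨nat_lit 5916, nat_lit 6325, ⟨.ofNat (nat_lit 126498), .ofNat (nat_lit 142951), .ofNat (nat_lit 147866), .ofNat (nat_lit 164319), .ofNat (nat_lit 144377), .ofNat (nat_lit 160083), .ofNat (nat_lit 165716), .ofNat (nat_lit 181423)⟩, ⟨.ofNat (nat_lit 389952), .ofNat (nat_lit 488669), .ofNat (nat_lit 411320), .ofNat (nat_lit 510037), .ofNat (nat_lit 386479), .ofNat (nat_lit 480719), .ofNat (nat_lit 407818), .ofNat (nat_lit 502058)⟩⟩, [⟨nat_lit 0, nat_lit 100, nat_lit 98, nat_lit 40, nat_lit 519400811⟩, ⟨nat_lit 16, nat_lit 100, nat_lit 92, nat_lit 61, nat_lit 371445411⟩, ⟨nat_lit 23, nat_lit 95, nat_lit 100, nat_lit 34, nat_lit 217275⟩]⟩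
noncomputable def p029_l78 : Lf2 := ⟨nat_lit 0, nat_lit 2, [nat_lit 10, nat_lit 5, nat_lit 5, nat_lit 20], true, nat_lit 240, nat_lit 288, nat_lit 0, nat_lit 252, ⟨nat_lit 0, nat_lit 0, nat_lit 1000, nat_lit 5, nat_lit 62, nat_lit 1000, nat_lit 179, nat_lit 1000, nat_lit 29345, nat_lit 255, nat_lit 36817, nat_lit 262, nat_lit 53563211, nat_lit 0, nat_lit 0, nat_lit 3094333, false, false⟩,
 nat_lit 0, nat_lit 0, nat_lit 0, nat_lit 8244, nat_lit 3904, nat_lit 0, nat_lit 0, nat_lit 0, nat_lit 0, nat_lit 0, nat_lit 0, nat_lit 0, nat_lit 0, nat_lit 0, nat_lit 41, nat_lit 400000, nat_lit 0, nat_lit 0, [(nat_lit 6, [(nat_lit 5, nat_lit 1000)])],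
 ⟨p029_k10, nat_lit 0, nat_lit 0, nat_lit 66, nat_lit 0, nat_lit 0, [nat_lit 2073600001, nat_lit 7600000], [], [nat_lit 14620948770, nat_lit 15886643150, nat_lit 14431353217, nat_lit 15695925297, nat_lit 17824089435, nat_lit 19103018573, nat_lit 17631163048, nat_lit 18853269492], nat_lit 0, nat_lit 0, nat_lit 0, nat_lit 0, nat_lit 0, nat_lit 0, [], [nat_lit 39, nat_lit 40, nat_lit 20, nat_lit 80, nat_lit 7, nat_lit 215, nat_lit 10, nat_lit 7]⟩, C1.Rw.none,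
 ⟨nat_lit 5916, nat_lit 6325, ⟨.ofNat (nat_lit 121583), .ofNat (nat_lit 129809), .ofNat (nat_lit 164319), .ofNat (nat_lit 172545), .ofNat (nat_lit 138744), .ofNat (nat_lit 146597), .ofNat (nat_lit 181423), .ofNat (nat_lit 189276)⟩, ⟨.ofNat (nat_lit 389952), .ofNat (nat_lit 488669), .ofNat (nat_lit 411320), .ofNat (nat_lit 510037), .ofNat (nat_lit 386479), .ofNat (nat_lit 480719), .ofNat (nat_lit 407818), .ofNat (nat_lit 502058)⟩⟩, [⟨nat_lit 16, nat_lit 100, nat_lit 92, nat_lit 61, nat_lit 499607031⟩]⟩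
noncomputable def p029_l79 : Lf2 := ⟨nat_lit 0, nat_lit 5, [nat_lit 4, nat_lit 5, nat_lit 5, nat_lit 20], true, nat_lit 240, nat_lit 260, nat_lit 0, nat_lit 252, ⟨nat_lit 0, nat_lit 0, nat_lit 1000, nat_lit 5, nat_lit 57, nat_lit 1000, nat_lit 168, nat_lit 1000, nat_lit 212817, nat_lit 328, nat_lit 30817, nat_lit 258, nat_lit 54929785, nat_lit 0, nat_lit 0, nat_lit 2882662, false, false⟩,
 nat_lit 0, nat_lit 0, nat_lit 0, nat_lit 5682, nat_lit 5061, nat_lit 0, nat_lit 0, nat_lit 0, nat_lit 0, nat_lit 0, nat_lit 0, nat_lit 0, nat_lit 0, nat_lit 0, nat_lit 119, nat_lit 786400, nat_lit 0, nat_lit 0, [(nat_lit 6, [(nat_lit 5, nat_lit 356), (nat_lit 6, nat_lit 644)])],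
 ⟨p029_k29, nat_lit 0, nat_lit 0, nat_lit 148, nat_lit 0, nat_lit 0, [nat_lit 3830617601, nat_lit 704000], [], [nat_lit 15778373698, nat_lit 17210277695, nat_lit 14740733576, nat_lit 15908314136, nat_lit 17318757836, nat_lit 18902330380, nat_lit 15979887634, nat_lit 17562456113], nat_lit 0, nat_lit 0, nat_lit 0, nat_lit 0, nat_lit 0, nat_lit 0, [], [nat_lit 70, nat_lit 40, nat_lit 20, nat_lit 80, nat_lit 13, nat_lit 373, nat_lit 150, nat_lit 10]⟩, C1.Rw.none,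
 ⟨nat_lit 5916, nat_lit 6325, ⟨.ofNat (nat_lit 96904), .ofNat (nat_lit 129809), .ofNat (nat_lit 139640), .ofNat (nat_lit 172545), .ofNat (nat_lit 115184), .ofNat (nat_lit 146597), .ofNat (nat_lit 157863), .ofNat (nat_lit 189276)⟩, ⟨.ofNat (nat_lit 389952), .ofNat (nat_lit 431084), .ofNat (nat_lit 411320), .ofNat (nat_lit 452452), .ofNat (nat_lit 386479), .ofNat (nat_lit 425745), .ofNat (nat_lit 407818), .ofNat (nat_lit 447085)⟩⟩, [⟨nat_lit 0, nat_lit 100, nat_lit 97, nat_lit 35, nat_lit 540478345⟩, ⟨nat_lit 4, nat_lit 99, nat_lit 100, nat_lit 54, nat_lit 295977468⟩]⟩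
noncomputable def p029_l80 : Lf2 := ⟨nat_lit 0, nat_lit 5, [nat_lit 4, nat_lit 5, nat_lit 5, nat_lit 20], true, nat_lit 260, nat_lit 288, nat_lit 0, nat_lit 232, ⟨nat_lit 0, nat_lit 0, nat_lit 1000, nat_lit 5, nat_lit 57, nat_lit 1000, nat_lit 187, nat_lit 1000, nat_lit 29345, nat_lit 255, nat_lit 30817, nat_lit 258, nat_lit 53013451, nat_lit 0, nat_lit 0, nat_lit 3115954, false, false⟩,
 nat_lit 0, nat_lit 0, nat_lit 0, nat_lit 12142, nat_lit 4316, nat_lit 0, nat_lit 0, nat_lit 0, nat_lit 0, nat_lit 0, nat_lit 0, nat_lit 0, nat_lit 0, nat_lit 0, nat_lit 141, nat_lit 955600, nat_lit 0, nat_lit 0, [(nat_lit 6, [(nat_lit 5, nat_lit 74), (nat_lit 6, nat_lit 926)])],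
 ⟨p029_k30, nat_lit 0, nat_lit 0, nat_lit 161, nat_lit 0, nat_lit 0, [nat_lit 3265666134, nat_lit 2920742401, nat_lit 150614399], [], [nat_lit 16721751043, nat_lit 18181501607, nat_lit 15605268855, nat_lit 17062834528, nat_lit 19019117917, nat_lit 20357540311, nat_lit 17897297127, nat_lit 19236426525], nat_lit 0, nat_lit 0, nat_lit 0, nat_lit 0, nat_lit 0, nat_lit 0, [], [nat_lit 11, nat_lit 40, nat_lit 20, nat_lit 80, nat_lit 1, nat_lit 373, nat_lit 150, nat_lit 10]⟩, C1.Rw.none,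
 ⟨nat_lit 5916, nat_lit 6325, ⟨.ofNat (nat_lit 96904), .ofNat (nat_lit 129809), .ofNat (nat_lit 139640), .ofNat (nat_lit 172545), .ofNat (nat_lit 115184), .ofNat (nat_lit 146597), .ofNat (nat_lit 157863), .ofNat (nat_lit 189276)⟩, ⟨.ofNat (nat_lit 431084), .ofNat (nat_lit 488669), .ofNat (nat_lit 452452), .ofNat (nat_lit 510037), .ofNat (nat_lit 425745), .ofNat (nat_lit 480719), .ofNat (nat_lit 447085), .ofNat (nat_lit 502058)⟩⟩, [⟨nat_lit 0, nat_lit 100, nat_lit 97, nat_lit 35, nat_lit 470173517⟩, ⟨nat_lit 4, nat_lit 99, nat_lit 100, nat_lit 54, nat_lit 708230646⟩]⟩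
noncomputable def p029_l81 : Lf2 := ⟨nat_lit 0, nat_lit 5, [nat_lit 4, nat_lit 5, nat_lit 5, nat_lit 20], true, nat_lit 240, nat_lit 268, nat_lit 0, nat_lit 252, ⟨nat_lit 0, nat_lit 0, nat_lit 1000, nat_lit 5, nat_lit 66, nat_lit 1000, nat_lit 169, nat_lit 1000, nat_lit 126379, nat_lit 302, nat_lit 40017, nat_lit 264, nat_lit 54344817, nat_lit 0, nat_lit 0, nat_lit 3026333, false, false⟩,
 nat_lit 0, nat_lit 0, nat_lit 0, nat_lit 3080, nat_lit 4398, nat_lit 0, nat_lit 0, nat_lit 0, nat_lit 0, nat_lit 0, nat_lit 0, nat_lit 0, nat_lit 0, nat_lit 0, nat_lit 55, nat_lit 400000, nat_lit 0, nat_lit 0, [(nat_lit 9, [(nat_lit 5, nat_lit 1000)])],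
 ⟨p029_k16, nat_lit 0, nat_lit 0, nat_lit 121, nat_lit 0, nat_lit 0, [nat_lit 2406400000, nat_lit 19600000], [], [nat_lit 16685154539, nat_lit 17967127621, nat_lit 16151909012, nat_lit 17283571616, nat_lit 18602705328, nat_lit 20040934055, nat_lit 17746279454, nat_lit 19183219316], nat_lit 0, nat_lit 0, nat_lit 0, nat_lit 0, nat_lit 0, nat_lit 0, [], [nat_lit 39, nat_lit 40, nat_lit 20, nat_lit 80, nat_lit 7, nat_lit 215, nat_lit 10, nat_lit 7]⟩, C1.Rw.none,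
 ⟨nat_lit 5477, nat_lit 5917, ⟨.ofNat (nat_lit 123037), .ofNat (nat_lit 146597), .ofNat (nat_lit 165716), .ofNat (nat_lit 189276), .ofNat (nat_lit 140320), .ofNat (nat_lit 162800), .ofNat (nat_lit 183034), .ofNat (nat_lit 205514)⟩, ⟨.ofNat (nat_lit 386479), .ofNat (nat_lit 441452), .ofNat (nat_lit 407818), .ofNat (nat_lit 462791), .ofNat (nat_lit 382718), .ofNat (nat_lit 435171), .ofNat (nat_lit 404075), .ofNat (nat_lit 456528)⟩⟩, [⟨nat_lit 0, nat_lit 100, nat_lit 94, nat_lit 44, nat_lit 885887150⟩, ⟨nat_lit 16, nat_lit 100, nat_lit 99, nat_lit 63, nat_lit 394196512⟩]⟩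
noncomputable def p029_l82 : Lf2 := ⟨nat_lit 0, nat_lit 5, [nat_lit 4, nat_lit 5, nat_lit 5, nat_lit 20], true, nat_lit 240, nat_lit 288, nat_lit 0, nat_lit 288, ⟨nat_lit 0, nat_lit 0, nat_lit 1000, nat_lit 5, nat_lit 75, nat_lit 1000, nat_lit 178, nat_lit 1000, nat_lit 29345, nat_lit 255, nat_lit 52267, nat_lit 271, nat_lit 52963727, nat_lit 0, nat_lit 0, nat_lit 3269373, false, false⟩,
 nat_lit 0, nat_lit 0, nat_lit 0, nat_lit 6048, nat_lit 4050, nat_lit 0, nat_lit 0, nat_lit 0, nat_lit 0, nat_lit 0, nat_lit 0, nat_lit 0, nat_lit 0, nat_lit 0, nat_lit 134, nat_lit 896200, nat_lit 0, nat_lit 0, [(nat_lit 6, [(nat_lit 5, nat_lit 173), (nat_lit 6, nat_lit 827)]), (nat_lit 9, [(nat_lit 5, nat_lit 173), (nat_lit 6, nat_lit 827)])],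
 ⟨p029_k31, nat_lit 0, nat_lit 0, nat_lit 148, nat_lit 0, nat_lit 0, [nat_lit 3676685201, nat_lit 1576235734, nat_lit 21032000], [], [nat_lit 15318489135, nat_lit 17183291935, nat_lit 14909123535, nat_lit 16750309935, nat_lit 17688950655, nat_lit 20289490160, nat_lit 17248660215, nat_lit 19513882840], nat_lit 0, nat_lit 0, nat_lit 0, nat_lit 0, nat_lit 0, nat_lit 0, [], [nat_lit 29, nat_lit 40, nat_lit 20, nat_lit 80, nat_lit 17, nat_lit 401, nat_lit 175, nat_lit 11]⟩, C1.Rw.none,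
 ⟨nat_lit 5477, nat_lit 6325, ⟨.ofNat (nat_lit 129809), .ofNat (nat_lit 170942), .ofNat (nat_lit 172545), .ofNat (nat_lit 213677), .ofNat (nat_lit 162800), .ofNat (nat_lit 200266), .ofNat (nat_lit 205514), .ofNat (nat_lit 242980)⟩, ⟨.ofNat (nat_lit 389952), .ofNat (nat_lit 488669), .ofNat (nat_lit 411320), .ofNat (nat_lit 510037), .ofNat (nat_lit 382718), .ofNat (nat_lit 472638), .ofNat (nat_lit 404075), .ofNat (nat_lit 493995)⟩⟩, [⟨nat_lit 16, nat_lit 100, nat_lit 92, nat_lit 61, nat_lit 358063667⟩]⟩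
noncomputable def p029_l83 : Lf2 := ⟨nat_lit 0, nat_lit 5, [nat_lit 4, nat_lit 5, nat_lit 5, nat_lit 20], true, nat_lit 240, nat_lit 288, nat_lit 0, nat_lit 320, ⟨nat_lit 0, nat_lit 0, nat_lit 1000, nat_lit 5, nat_lit 99, nat_lit 1000, nat_lit 178, nat_lit 1000, nat_lit 29345, nat_lit 255, nat_lit 91267, nat_lit 289, nat_lit 51498694, nat_lit 0, nat_lit 0, nat_lit 3607715, false, false⟩,
 nat_lit 0, nat_lit 0, nat_lit 0, nat_lit 3092, nat_lit 4231, nat_lit 0, nat_lit 0, nat_lit 0, nat_lit 0, nat_lit 0, nat_lit 0, nat_lit 0, nat_lit 0, nat_lit 0, nat_lit 69, nat_lit 400000, nat_lit 0, nat_lit 0, [(nat_lit 6, [(nat_lit 5, nat_lit 1000)]), (nat_lit 9, [(nat_lit 5, nat_lit 1000)])],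
 ⟨p029_k29, nat_lit 0, nat_lit 0, nat_lit 55, nat_lit 0, nat_lit 0, [nat_lit 2630400000, nat_lit 7200000], [], [nat_lit 13740736668, nat_lit 16335620076, nat_lit 13401112772, nat_lit 15904269780, nat_lit 17026908548, nat_lit 19660694257, nat_lit 16568800772, nat_lit 18867664435], nat_lit 0, nat_lit 0, nat_lit 0, nat_lit 0, nat_lit 0, nat_lit 0, [], [nat_lit 70, nat_lit 40, nat_lit 20, nat_lit 80, nat_lit 13, nat_lit 401, nat_lit 175, nat_lit 11]⟩, C1.Rw.none,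
 ⟨nat_lit 5477, nat_lit 6325, ⟨.ofNat (nat_lit 170942), .ofNat (nat_lit 253206), .ofNat (nat_lit 213677), .ofNat (nat_lit 295942), .ofNat (nat_lit 200266), .ofNat (nat_lit 275199), .ofNat (nat_lit 242980), .ofNat (nat_lit 317913)⟩, ⟨.ofNat (nat_lit 389952), .ofNat (nat_lit 488669), .ofNat (nat_lit 411320), .ofNat (nat_lit 510037), .ofNat (nat_lit 382718), .ofNat (nat_lit 472638), .ofNat (nat_lit 404075), .ofNat (nat_lit 493995)⟩⟩, [⟨nat_lit 16, nat_lit 100, nat_lit 92, nat_lit 61, nat_lit 514446630⟩]⟩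
noncomputable def p029_l84 : Lf2 := ⟨nat_lit 0, nat_lit 10, [nat_lit 0, nat_lit 5, nat_lit 5, nat_lit 20], true, nat_lit 240, nat_lit 288, nat_lit 0, nat_lit 288, ⟨nat_lit 0, nat_lit 0, nat_lit 1000, nat_lit 5, nat_lit 69, nat_lit 1000, nat_lit 178, nat_lit 1000, nat_lit 29345, nat_lit 255, nat_lit 43350, nat_lit 266, nat_lit 53325324, nat_lit 0, nat_lit 0, nat_lit 3176218, false, false⟩,
 nat_lit 0, nat_lit 0, nat_lit 0, nat_lit 14136, nat_lit 4957, nat_lit 0, nat_lit 497, nat_lit 0, nat_lit 0, nat_lit 0, nat_lit 0, nat_lit 0, nat_lit 0, nat_lit 0, nat_lit 102, nat_lit 610000, nat_lit 0, nat_lit 0, [(nat_lit 6, [(nat_lit 5, nat_lit 650), (nat_lit 6, nat_lit 350)]), (nat_lit 9, [(nat_lit 5, nat_lit 650), (nat_lit 6, nat_lit 350)])],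
 ⟨p029_k26, nat_lit 0, nat_lit 0, nat_lit 208, nat_lit 0, nat_lit 0, [nat_lit 3161060000, nat_lit 1190853334, nat_lit 211920000], [], [nat_lit 15466955460, nat_lit 18791716038, nat_lit 13744811898, nat_lit 16501758140, nat_lit 19712540025, nat_lit 22574778218, nat_lit 17405797650, nat_lit 20249562150], nat_lit 0, nat_lit 0, nat_lit 0, nat_lit 0, nat_lit 0, nat_lit 0, [], [nat_lit 21, nat_lit 40, nat_lit 20, nat_lit 80, nat_lit 14, nat_lit 401, nat_lit 175, nat_lit 10]⟩, C1.Rw.none,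
 ⟨nat_lit 5477, nat_lit 6325, ⟨.ofNat (nat_lit 96904), .ofNat (nat_lit 170942), .ofNat (nat_lit 139640), .ofNat (nat_lit 213677), .ofNat (nat_lit 132827), .ofNat (nat_lit 200266), .ofNat (nat_lit 175541), .ofNat (nat_lit 242980)⟩, ⟨.ofNat (nat_lit 389952), .ofNat (nat_lit 488669), .ofNat (nat_lit 411320), .ofNat (nat_lit 510037), .ofNat (nat_lit 382718), .ofNat (nat_lit 472638), .ofNat (nat_lit 404075), .ofNat (nat_lit 493995)⟩⟩, [⟨nat_lit 0, nat_lit 100, nat_lit 96, nat_lit 40, nat_lit 363500511⟩, ⟨nat_lit 4, nat_lit 100, nat_lit 98, nat_lit 54, nat_lit 782036956⟩]⟩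
noncomputable def p029_l85 : Lf2 := ⟨nat_lit 0, nat_lit 10, [nat_lit 0, nat_lit 5, nat_lit 5, nat_lit 20], true, nat_lit 240, nat_lit 288, nat_lit 0, nat_lit 320, ⟨nat_lit 0, nat_lit 0, nat_lit 1000, nat_lit 5, nat_lit 99, nat_lit 1000, nat_lit 178, nat_lit 1000, nat_lit 29345, nat_lit 255, nat_lit 91267, nat_lit 289, nat_lit 51498694, nat_lit 0, nat_lit 0, nat_lit 3607715, false, false⟩,
 nat_lit 0, nat_lit 0, nat_lit 0, nat_lit 14250, nat_lit 6092, nat_lit 0, nat_lit 0, nat_lit 0, nat_lit 0, nat_lit 0, nat_lit 0, nat_lit 0, nat_lit 0, nat_lit 0, nat_lit 166, nat_lit 1000000, nat_lit 0, nat_lit 0, [(nat_lit 6, [(nat_lit 6, nat_lit 1000)]), (nat_lit 9, [(nat_lit 6, nat_lit 1000)])],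
 ⟨p029_k24, nat_lit 0, nat_lit 0, nat_lit 164, nat_lit 0, nat_lit 0, [nat_lit 4113520001, nat_lit 348400000], [], [nat_lit 14768212064, nat_lit 16963725840, nat_lit 13600649296, nat_lit 15632540208, nat_lit 17998509178, nat_lit 21170175178, nat_lit 16626075466, nat_lit 19701917981], nat_lit 0, nat_lit 0, nat_lit 0, nat_lit 0, nat_lit 0, nat_lit 0, [], [nat_lit 116, nat_lit 40, nat_lit 20, nat_lit 80, nat_lit 65, nat_lit 401, nat_lit 175, nat_lit 10]⟩, C1.Rw.none,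
 ⟨nat_lit 5477, nat_lit 6325, ⟨.ofNat (nat_lit 170942), .ofNat (nat_lit 253206), .ofNat (nat_lit 213677), .ofNat (nat_lit 295942), .ofNat (nat_lit 200266), .ofNat (nat_lit 275199), .ofNat (nat_lit 242980), .ofNat (nat_lit 317913)⟩, ⟨.ofNat (nat_lit 389952), .ofNat (nat_lit 488669), .ofNat (nat_lit 411320), .ofNat (nat_lit 510037), .ofNat (nat_lit 382718), .ofNat (nat_lit 472638), .ofNat (nat_lit 404075), .ofNat (nat_lit 493995)⟩⟩, [⟨nat_lit 4, nat_lit 100, nat_lit 98, nat_lit 54, nat_lit 818772348⟩]⟩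
noncomputable def p029_l86 : Lf2 := ⟨nat_lit 0, nat_lit 10, [nat_lit 0, nat_lit 5, nat_lit 5, nat_lit 20], true, nat_lit 240, nat_lit 288, nat_lit 0, nat_lit 320, ⟨nat_lit 0, nat_lit 1000, nat_lit 0, nat_lit 5, nat_lit 130, nat_lit 1000, nat_lit 178, nat_lit 0, nat_lit 0, nat_lit 0, nat_lit 0, nat_lit 0, nat_lit 49336414, nat_lit 6721239, nat_lit 10942347, nat_lit 4020124, false, false⟩,
 nat_lit 0, nat_lit 0, nat_lit 0, nat_lit 3820, nat_lit 5576, nat_lit 0, nat_lit 0, nat_lit 0, nat_lit 0, nat_lit 0, nat_lit 0, nat_lit 0, nat_lit 0, nat_lit 0, nat_lit 0, nat_lit 400000, nat_lit 0, nat_lit 0, [(nat_lit 6, [(nat_lit 1, nat_lit 1000)]), (nat_lit 9, [(nat_lit 1, nat_lit 1000)])],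
 ⟨p029_k32, nat_lit 0, nat_lit 0, nat_lit 41, nat_lit 0, nat_lit 0, [nat_lit 2702720000, nat_lit 3429200000, nat_lit 3039200000], [], [nat_lit 12880058912, nat_lit 15754930880, nat_lit 13045513664, nat_lit 15772761504, nat_lit 16538402912, nat_lit 19470604263, nat_lit 16516943322, nat_lit 19188232352], nat_lit 0, nat_lit 0, nat_lit 0, nat_lit 0, nat_lit 0, nat_lit 0, [], [nat_lit 48, nat_lit 40, nat_lit 20, nat_lit 80, nat_lit 12, nat_lit 401, nat_lit 175, nat_lit 10]⟩, C1.Rw.none,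
 ⟨nat_lit 5477, nat_lit 6325, ⟨.ofNat (nat_lit 253206), .ofNat (nat_lit 335470), .ofNat (nat_lit 295942), .ofNat (nat_lit 378206), .ofNat (nat_lit 275199), .ofNat (nat_lit 350132), .ofNat (nat_lit 317913), .ofNat (nat_lit 392847)⟩, ⟨.ofNat (nat_lit 389952), .ofNat (nat_lit 488669), .ofNat (nat_lit 411320), .ofNat (nat_lit 510037), .ofNat (nat_lit 382718), .ofNat (nat_lit 472638), .ofNat (nat_lit 404075), .ofNat (nat_lit 493995)⟩⟩, [⟨nat_lit 16, nat_lit 100, nat_lit 92, nat_lit 61, nat_lit 509975548⟩]⟩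
noncomputable def p029_l87 : Lf2 := ⟨nat_lit 0, nat_lit 10, [nat_lit 0, nat_lit 5, nat_lit 5, nat_lit 20], true, nat_lit 160, nat_lit 288, nat_lit 0, nat_lit 320, ⟨nat_lit 0, nat_lit 1000, nat_lit 0, nat_lit 5, nat_lit 193, nat_lit 1000, nat_lit 146, nat_lit 0, nat_lit 0, nat_lit 0, nat_lit 0, nat_lit 0, nat_lit 46873137, nat_lit 12211568, nat_lit 7915295, nat_lit 4355721, false, false⟩,
 nat_lit 0, nat_lit 0, nat_lit 0, nat_lit 2767, nat_lit 5661, nat_lit 0, nat_lit 0, nat_lit 0, nat_lit 0, nat_lit 0, nat_lit 0, nat_lit 0, nat_lit 0, nat_lit 0, nat_lit 0, nat_lit 250000, nat_lit 0, nat_lit 0, [(nat_lit 6, [(nat_lit 0, nat_lit 1000)]), (nat_lit 9, [(nat_lit 0, nat_lit 1000)])],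
 ⟨p029_k26, nat_lit 0, nat_lit 0, nat_lit 29, nat_lit 0, nat_lit 0, [nat_lit 3128000000, nat_lit 3541333334, nat_lit 3879466666], [], [nat_lit 9197084092, nat_lit 12487847468, nat_lit 14168808464, nat_lit 16740249820, nat_lit 16852259458, nat_lit 19241729758, nat_lit 20078788262, nat_lit 22289868496], nat_lit 0, nat_lit 0, nat_lit 0, nat_lit 0, nat_lit 0, nat_lit 0, [], [nat_lit 21, nat_lit 40, nat_lit 20, nat_lit 80, nat_lit 14, nat_lit 456, nat_lit 225, nat_lit 11]⟩, C1.Rw.none,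
 ⟨nat_lit 5477, nat_lit 6325, ⟨.ofNat (nat_lit 335470), .ofNat (nat_lit 582178), .ofNat (nat_lit 378206), .ofNat (nat_lit 624852), .ofNat (nat_lit 350132), .ofNat (nat_lit 574846), .ofNat (nat_lit 392847), .ofNat (nat_lit 617499)⟩, ⟨.ofNat (nat_lit 225423), .ofNat (nat_lit 488669), .ofNat (nat_lit 246791), .ofNat (nat_lit 510037), .ofNat (nat_lit 232852), .ofNat (nat_lit 472638), .ofNat (nat_lit 254209), .ofNat (nat_lit 493995)⟩⟩, [⟨nat_lit 16, nat_lit 100, nat_lit 92, nat_lit 61, nat_lit 273084161⟩]⟩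
noncomputable def p029_l88 : Lf2 := ⟨nat_lit 0, nat_lit 10, [nat_lit 0, nat_lit 5, nat_lit 5, nat_lit 20], false, nat_lit 0, nat_lit 288, nat_lit 0, nat_lit 320, ⟨nat_lit 1000, nat_lit 0, nat_lit 0, nat_lit 0, nat_lit 0, nat_lit 0, nat_lit 0, nat_lit 0, nat_lit 0, nat_lit 0, nat_lit 0, nat_lit 0, nat_lit 0, nat_lit 0, nat_lit 0, nat_lit 0, false, false⟩,
 nat_lit 0, nat_lit 0, nat_lit 0, nat_lit 3195, nat_lit 10235, nat_lit 12539, nat_lit 0, nat_lit 0, nat_lit 0, nat_lit 0, nat_lit 0, nat_lit 0, nat_lit 0, nat_lit 0, nat_lit 0, nat_lit 0, nat_lit 0, nat_lit 0, [],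
 ⟨p029_k24, nat_lit 0, nat_lit 0, nat_lit 229, nat_lit 0, nat_lit 0, [nat_lit 4688000000, nat_lit 11872000000], [], [nat_lit 35296804460, nat_lit 37937300080, nat_lit 48947076960, nat_lit 50087284000, nat_lit 30829178664, nat_lit 32272859692, nat_lit 39042977137, nat_lit 39545687076], nat_lit 0, nat_lit 0, nat_lit 0, nat_lit 0, nat_lit 0, nat_lit 0, [], [nat_lit 116, nat_lit 40, nat_lit 20, nat_lit 80, nat_lit 65, nat_lit 483, nat_lit 250, nat_lit 12]⟩, ⟨p029_k25, nat_lit 0, nat_lit 0, nat_lit 243, nat_lit 0, nat_lit 0, [nat_lit 6250000000, nat_lit 11872000000], [], [nat_lit 33765549856, nat_lit 35881181804, nat_lit 51085042436, nat_lit 51507134304, nat_lit 30121931632, nat_lit 30805650768, nat_lit 39213739872, nat_lit 39635134304], nat_lit 0, nat_lit 0, nat_lit 0, nat_lit 0, nat_lit 0, nat_lit 0, [], [nat_lit 107, nat_lit 40, nat_lit 20, nat_lit 80, nat_lit 12, nat_lit 483, nat_lit 250, nat_lit 12]⟩,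
 zbF0, [⟨nat_lit 13, nat_lit 96, nat_lit 20, nat_lit 100, nat_lit 13056912⟩]⟩
noncomputable def b_VL_600_500_5_0 : St := ⟨true, nat_lit 0, nat_lit 0, nat_lit 1, nat_lit 40, nat_lit 240, nat_lit 280, nat_lit 200, nat_lit 240, nat_lit 4, nat_lit 400, nat_lit 20, nat_lit 40, nat_lit 0, nat_lit 288, nat_lit 0, nat_lit 320, nat_lit 0, nat_lit 40, nat_lit 0, nat_lit 0, nat_lit 0, nat_lit 0⟩
theorem d_VL_600_500_5_0 (h : EB TB.env) : Dead b_VL_600_500_5_0 := chkB_sound0 h (T :=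
(.spl (nat_lit 2) (nat_lit 240)
(.spl (nat_lit 4) (nat_lit 160)
(.spl (nat_lit 2) (nat_lit 120)
(.spl (nat_lit 4) (nat_lit 80)
(.spl (nat_lit 0) (nat_lit 260)
(.spl (nat_lit 6) (nat_lit 32)
(.leaf p029_l68)
(.leaf p029_l69))
(.trZ (nat_lit 0) (nat_lit 100) (nat_lit 95) (nat_lit 30) (nat_lit 8) (.leaf p029_l70)))
(.leaf p029_l71))
(.leaf p029_l72))
(.spl (nat_lit 2) (nat_lit 120)
(.spl (nat_lit 4) (nat_lit 240)
(.spl (nat_lit 0) (nat_lit 260)
(.leaf p029_l73)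
(.trZ (nat_lit 0) (nat_lit 100) (nat_lit 95) (nat_lit 30) (nat_lit 8) (.leaf p029_l74)))
(.spl (nat_lit 2) (nat_lit 80)
(.spl (nat_lit 6) (nat_lit 20)
(.spl (nat_lit 2) (nat_lit 40)
(.trX (nat_lit 23) (nat_lit 100) (nat_lit 92) (nat_lit 61) (nat_lit 288) (.spl (nat_lit 2) (nat_lit 20)
(.trX (nat_lit 23) (nat_lit 100) (nat_lit 99) (nat_lit 44) (nat_lit 252) (.spl (nat_lit 0) (nat_lit 260)
(.spl (nat_lit 6) (nat_lit 8)
(.spl (nat_lit 6) (nat_lit 4)
(.leaf p029_l75)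
(.spl (nat_lit 2) (nat_lit 16)
(.trX (nat_lit 23) (nat_lit 100) (nat_lit 100) (nat_lit 40) (nat_lit 240) (.spl (nat_lit 1) (nat_lit 220)
(.leaf p029_l76)
(.trZ (nat_lit 0) (nat_lit 100) (nat_lit 98) (nat_lit 30) (nat_lit 8) (.leaf p029_l77))))
(.leaf p029_l78)))
(.spl (nat_lit 4) (nat_lit 260)
(.leaf p029_l79)
(.trX (nat_lit 23) (nat_lit 96) (nat_lit 100) (nat_lit 44) (nat_lit 232) (.leaf p029_l80))))
(.trZ (nat_lit 0) (nat_lit 100) (nat_lit 95) (nat_lit 30) (nat_lit 8) (.trX (nat_lit 16) (nat_lit 100) (nat_lit 99) (nat_lit 63) (nat_lit 268) (.leaf p029_l81)))))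
(.leaf p029_l82)))
(.leaf p029_l83))
(.spl (nat_lit 2) (nat_lit 40)
(.trX (nat_lit 23) (nat_lit 100) (nat_lit 92) (nat_lit 61) (nat_lit 288) (.leaf p029_l84))
(.leaf p029_l85)))
(.leaf p029_l86)))
(.leaf p029_l87)))
(.leaf p029_l88))) (by decide +kernel)
noncomputable def p029_l89 : Lf2 := ⟨nat_lit 0, nat_lit 8, [nat_lit 50, nat_lit 5, nat_lit 5, nat_lit 20], true, nat_lit 0, nat_lit 80, nat_lit 0, nat_lit 320, ⟨nat_lit 0, nat_lit 0, nat_lit 1000, nat_lit 5, nat_lit 98, nat_lit 0, nat_lit 15, nat_lit 0, nat_lit 17, nat_lit 214, nat_lit 88817, nat_lit 288, nat_lit 63235926, nat_lit 0, nat_lit 0, nat_lit 1081618, false, false⟩,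
 nat_lit 0, nat_lit 0, nat_lit 0, nat_lit 6179, nat_lit 4757, nat_lit 0, nat_lit 0, nat_lit 0, nat_lit 0, nat_lit 0, nat_lit 0, nat_lit 0, nat_lit 0, nat_lit 0, nat_lit 127, nat_lit 844600, nat_lit 0, nat_lit 0, [(nat_lit 6, [(nat_lit 5, nat_lit 259), (nat_lit 6, nat_lit 741)])],
 ⟨p029_k18, nat_lit 0, nat_lit 0, nat_lit 293, nat_lit 0, nat_lit 0, [nat_lit 4035286400, nat_lit 43168400], [], [nat_lit 15086025078, nat_lit 16529192874, nat_lit 13381270256, nat_lit 14334512878, nat_lit 13055317829, nat_lit 14056584338, nat_lit 11750023280, nat_lit 12646395244], nat_lit 0, nat_lit 0, nat_lit 0, nat_lit 0, nat_lit 0, nat_lit 0, [], [nat_lit 70, nat_lit 40, nat_lit 20, nat_lit 80, nat_lit 13, nat_lit 345, nat_lit 125, nat_lit 10]⟩, C1.Rw.none,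
 ⟨nat_lit 5916, nat_lit 6325, ⟨.ofNat (nat_lit 96904), .ofNat (nat_lit 335470), .ofNat (nat_lit 139640), .ofNat (nat_lit 378206), .ofNat (nat_lit 115184), .ofNat (nat_lit 342931), .ofNat (nat_lit 157863), .ofNat (nat_lit 385610)⟩, ⟨.negSucc (nat_lit 103633), .ofNat (nat_lit 60895), .negSucc (nat_lit 82265), .ofNat (nat_lit 82263), .negSucc (nat_lit 84722), .ofNat (nat_lit 72344), .negSucc (nat_lit 63383), .ofNat (nat_lit 93684)⟩⟩, [⟨nat_lit 0, nat_lit 100, nat_lit 97, nat_lit 49, nat_lit 177040597⟩]⟩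
noncomputable def p029_l90 : Lf2 := ⟨nat_lit 1, nat_lit 10, [nat_lit 0, nat_lit 5, nat_lit 5, nat_lit 20], false, nat_lit 0, nat_lit 80, nat_lit 0, nat_lit 320, zbN0,
 nat_lit 0, nat_lit 0, nat_lit 0, nat_lit 0, nat_lit 0, nat_lit 0, nat_lit 0, nat_lit 0, nat_lit 0, nat_lit 0, nat_lit 0, nat_lit 0, nat_lit 0, nat_lit 0, nat_lit 0, nat_lit 0, nat_lit 0, nat_lit 0, [],
 C1.Rw.none, C1.Rw.none,
 zbF0, []⟩
noncomputable def p029_l91 : Lf2 := ⟨nat_lit 0, nat_lit 10, [nat_lit 0, nat_lit 5, nat_lit 5, nat_lit 20], true, nat_lit 0, nat_lit 80, nat_lit 0, nat_lit 320, ⟨nat_lit 0, nat_lit 0, nat_lit 1000, nat_lit 5, nat_lit 104, nat_lit 0, nat_lit 18, nat_lit 0, nat_lit 150, nat_lit 218, nat_lit 101400, nat_lit 293, nat_lit 62743720, nat_lit 0, nat_lit 0, nat_lit 1182807, false, false⟩,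
 nat_lit 0, nat_lit 0, nat_lit 0, nat_lit 4863, nat_lit 4436, nat_lit 0, nat_lit 0, nat_lit 0, nat_lit 0, nat_lit 0, nat_lit 0, nat_lit 0, nat_lit 0, nat_lit 0, nat_lit 120, nat_lit 585400, nat_lit 0, nat_lit 0, [(nat_lit 9, [(nat_lit 5, nat_lit 691), (nat_lit 6, nat_lit 309)])],
 ⟨p029_k23, nat_lit 0, nat_lit 0, nat_lit 294, nat_lit 0, nat_lit 0, [nat_lit 3603742801, nat_lit 27706400], [], [nat_lit 16063319234, nat_lit 17506743418, nat_lit 14502409946, nat_lit 15429508402, nat_lit 14033402210, nat_lit 15004736598, nat_lit 13014969314, nat_lit 13887634786], nat_lit 0, nat_lit 0, nat_lit 0, nat_lit 0, nat_lit 0, nat_lit 0, [], [nat_lit 70, nat_lit 40, nat_lit 20, nat_lit 80, nat_lit 13, nat_lit 345, nat_lit 125, nat_lit 10]⟩, C1.Rw.none,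
 ⟨nat_lit 5477, nat_lit 5917, ⟨.ofNat (nat_lit 123037), .ofNat (nat_lit 342931), .ofNat (nat_lit 165716), .ofNat (nat_lit 385610), .ofNat (nat_lit 140320), .ofNat (nat_lit 350132), .ofNat (nat_lit 183034), .ofNat (nat_lit 392847)⟩, ⟨.negSucc (nat_lit 84722), .ofNat (nat_lit 72344), .negSucc (nat_lit 63383), .ofNat (nat_lit 93684), .negSucc (nat_lit 66879), .ofNat (nat_lit 82986), .negSucc (nat_lit 45522), .ofNat (nat_lit 104343)⟩⟩, [⟨nat_lit 0, nat_lit 100, nat_lit 94, nat_lit 44, nat_lit 163062741⟩]⟩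
noncomputable def p029_l92 : Lf2 := ⟨nat_lit 0, nat_lit 10, [nat_lit 0, nat_lit 5, nat_lit 5, nat_lit 20], true, nat_lit 80, nat_lit 160, nat_lit 0, nat_lit 320, ⟨nat_lit 0, nat_lit 0, nat_lit 1000, nat_lit 5, nat_lit 100, nat_lit 1000, nat_lit 64, nat_lit 1000, nat_lit 38400, nat_lit 263, nat_lit 93750, nat_lit 290, nat_lit 60499727, nat_lit 0, nat_lit 0, nat_lit 2002919, false, false⟩,
 nat_lit 0, nat_lit 0, nat_lit 0, nat_lit 7689, nat_lit 4108, nat_lit 0, nat_lit 0, nat_lit 0, nat_lit 0, nat_lit 0, nat_lit 0, nat_lit 0, nat_lit 0, nat_lit 0, nat_lit 166, nat_lit 1000000, nat_lit 0, nat_lit 0, [(nat_lit 6, [(nat_lit 6, nat_lit 1000)]), (nat_lit 9, [(nat_lit 6, nat_lit 1000)])],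
 ⟨p029_k24, nat_lit 0, nat_lit 0, nat_lit 205, nat_lit 0, nat_lit 0, [nat_lit 4113520001, nat_lit 348400000], [], [nat_lit 13553054197, nat_lit 15828384660, nat_lit 12174118513, nat_lit 13964648113, nat_lit 14255217893, nat_lit 16245714186, nat_lit 12901217825, nat_lit 14513196577], nat_lit 0, nat_lit 0, nat_lit 0, nat_lit 0, nat_lit 0, nat_lit 0, [], [nat_lit 116, nat_lit 40, nat_lit 20, nat_lit 80, nat_lit 65, nat_lit 373, nat_lit 150, nat_lit 10]⟩, C1.Rw.none,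
 ⟨nat_lit 5477, nat_lit 6325, ⟨.ofNat (nat_lit 96904), .ofNat (nat_lit 335470), .ofNat (nat_lit 139640), .ofNat (nat_lit 378206), .ofNat (nat_lit 132827), .ofNat (nat_lit 350132), .ofNat (nat_lit 175541), .ofNat (nat_lit 392847)⟩, ⟨.ofNat (nat_lit 60895), .ofNat (nat_lit 225423), .ofNat (nat_lit 82263), .ofNat (nat_lit 246791), .ofNat (nat_lit 82986), .ofNat (nat_lit 232852), .ofNat (nat_lit 104343), .ofNat (nat_lit 254209)⟩⟩, [⟨nat_lit 0, nat_lit 100, nat_lit 96, nat_lit 40, nat_lit 183865803⟩]⟩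
noncomputable def p029_l93 : Lf2 := ⟨nat_lit 0, nat_lit 10, [nat_lit 0, nat_lit 5, nat_lit 5, nat_lit 20], true, nat_lit 0, nat_lit 160, nat_lit 0, nat_lit 320, ⟨nat_lit 0, nat_lit 0, nat_lit 1000, nat_lit 5, nat_lit 192, nat_lit 0, nat_lit 48, nat_lit 662, nat_lit 8817, nat_lit 238, nat_lit 3671, nat_lit 204, nat_lit 54405493, nat_lit 0, nat_lit 0, nat_lit 2416385, false, false⟩,
 nat_lit 0, nat_lit 0, nat_lit 0, nat_lit 7485, nat_lit 5221, nat_lit 0, nat_lit 325, nat_lit 0, nat_lit 0, nat_lit 0, nat_lit 0, nat_lit 0, nat_lit 0, nat_lit 0, nat_lit 109, nat_lit 649000, nat_lit 0, nat_lit 0, [(nat_lit 6, [(nat_lit 5, nat_lit 585), (nat_lit 6, nat_lit 415)])],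
 ⟨p029_k33, nat_lit 0, nat_lit 0, nat_lit 215, nat_lit 0, nat_lit 0, [nat_lit 3489616000, nat_lit 273877001, nat_lit 244768000], [], [nat_lit 13623517305, nat_lit 14834786821, nat_lit 16725232181, nat_lit 17685244147, nat_lit 10996113585, nat_lit 12033386455, nat_lit 14040998993, nat_lit 14974368072], nat_lit 0, nat_lit 0, nat_lit 0, nat_lit 0, nat_lit 0, nat_lit 0, [], [nat_lit 125, nat_lit 40, nat_lit 20, nat_lit 80, nat_lit 41, nat_lit 401, nat_lit 175, nat_lit 10]⟩, C1.Rw.none,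
 ⟨nat_lit 5916, nat_lit 6325, ⟨.ofNat (nat_lit 335470), .ofNat (nat_lit 582240), .ofNat (nat_lit 378206), .ofNat (nat_lit 624961), .ofNat (nat_lit 342931), .ofNat (nat_lit 578509), .ofNat (nat_lit 385610), .ofNat (nat_lit 621173)⟩, ⟨.negSucc (nat_lit 103633), .ofNat (nat_lit 225423), .negSucc (nat_lit 82265), .ofNat (nat_lit 246791), .negSucc (nat_lit 84722), .ofNat (nat_lit 229411), .negSucc (nat_lit 63383), .ofNat (nat_lit 250751)⟩⟩, []⟩
noncomputable def p029_l94 : Lf2 := ⟨nat_lit 0, nat_lit 10, [nat_lit 0, nat_lit 5, nat_lit 5, nat_lit 20], true, nat_lit 0, nat_lit 160, nat_lit 0, nat_lit 320, ⟨nat_lit 0, nat_lit 0, nat_lit 1000, nat_lit 5, nat_lit 193, nat_lit 0, nat_lit 48, nat_lit 757, nat_lit 12150, nat_lit 242, nat_lit 2161, nat_lit 205, nat_lit 54327692, nat_lit 0, nat_lit 0, nat_lit 2424858, false, false⟩,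
 nat_lit 0, nat_lit 0, nat_lit 0, nat_lit 3490, nat_lit 4922, nat_lit 0, nat_lit 0, nat_lit 0, nat_lit 0, nat_lit 0, nat_lit 0, nat_lit 0, nat_lit 0, nat_lit 0, nat_lit 87, nat_lit 400000, nat_lit 0, nat_lit 0, [(nat_lit 9, [(nat_lit 5, nat_lit 1000)])],
 ⟨p029_k23, nat_lit 0, nat_lit 0, nat_lit 152, nat_lit 0, nat_lit 0, [nat_lit 2918400000, nat_lit 9200000], [], [nat_lit 14505822692, nat_lit 15854913000, nat_lit 18014652388, nat_lit 19083250920, nat_lit 12618366588, nat_lit 13684612808, nat_lit 15630443696, nat_lit 16542222448], nat_lit 0, nat_lit 0, nat_lit 0, nat_lit 0, nat_lit 0, nat_lit 0, [], [nat_lit 70, nat_lit 40, nat_lit 20, nat_lit 80, nat_lit 13, nat_lit 401, nat_lit 175, nat_lit 12]⟩, C1.Rw.none,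
 ⟨nat_lit 5477, nat_lit 5917, ⟨.ofNat (nat_lit 342931), .ofNat (nat_lit 578514), .ofNat (nat_lit 385610), .ofNat (nat_lit 621176), .ofNat (nat_lit 350132), .ofNat (nat_lit 574913), .ofNat (nat_lit 392847), .ofNat (nat_lit 617611)⟩, ⟨.negSucc (nat_lit 84722), .ofNat (nat_lit 229411), .negSucc (nat_lit 63383), .ofNat (nat_lit 250751), .negSucc (nat_lit 66879), .ofNat (nat_lit 232852), .negSucc (nat_lit 45522), .ofNat (nat_lit 254209)⟩⟩, []⟩
noncomputable def p029_l95 : Lf2 := ⟨nat_lit 0, nat_lit 10, [nat_lit 0, nat_lit 5, nat_lit 5, nat_lit 20], true, nat_lit 160, nat_lit 240, nat_lit 0, nat_lit 320, ⟨nat_lit 0, nat_lit 0, nat_lit 1000, nat_lit 5, nat_lit 98, nat_lit 1000, nat_lit 127, nat_lit 1000, nat_lit 153600, nat_lit 311, nat_lit 88817, nat_lit 288, nat_lit 56059750, nat_lit 0, nat_lit 0, nat_lit 2946056, false, false⟩,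
 nat_lit 0, nat_lit 0, nat_lit 0, nat_lit 7617, nat_lit 4769, nat_lit 0, nat_lit 594, nat_lit 0, nat_lit 0, nat_lit 0, nat_lit 0, nat_lit 0, nat_lit 0, nat_lit 0, nat_lit 69, nat_lit 400000, nat_lit 0, nat_lit 0, [(nat_lit 6, [(nat_lit 5, nat_lit 1000)])],
 ⟨p029_k26, nat_lit 0, nat_lit 0, nat_lit 188, nat_lit 0, nat_lit 0, [nat_lit 2521600001, nat_lit 679600001, nat_lit 185200000], [], [nat_lit 13243171936, nat_lit 14337736809, nat_lit 11189503682, nat_lit 12246918418, nat_lit 15813612707, nat_lit 16982355417, nat_lit 13901594782, nat_lit 14799773654], nat_lit 0, nat_lit 0, nat_lit 0, nat_lit 0, nat_lit 0, nat_lit 0, [], [nat_lit 21, nat_lit 40, nat_lit 20, nat_lit 80, nat_lit 14, nat_lit 401, nat_lit 175, nat_lit 10]⟩, C1.Rw.none,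
 ⟨nat_lit 5916, nat_lit 6325, ⟨.ofNat (nat_lit 96904), .ofNat (nat_lit 335470), .ofNat (nat_lit 139640), .ofNat (nat_lit 378206), .ofNat (nat_lit 115184), .ofNat (nat_lit 342931), .ofNat (nat_lit 157863), .ofNat (nat_lit 385610)⟩, ⟨.ofNat (nat_lit 225423), .ofNat (nat_lit 389952), .ofNat (nat_lit 246791), .ofNat (nat_lit 411320), .ofNat (nat_lit 229411), .ofNat (nat_lit 386479), .ofNat (nat_lit 250751), .ofNat (nat_lit 407818)⟩⟩, [⟨nat_lit 0, nat_lit 100, nat_lit 97, nat_lit 49, nat_lit 204048376⟩]⟩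
noncomputable def p029_l96 : Lf2 := ⟨nat_lit 0, nat_lit 10, [nat_lit 0, nat_lit 5, nat_lit 5, nat_lit 20], true, nat_lit 160, nat_lit 240, nat_lit 0, nat_lit 320, ⟨nat_lit 0, nat_lit 0, nat_lit 1000, nat_lit 5, nat_lit 104, nat_lit 1000, nat_lit 127, nat_lit 1000, nat_lit 153600, nat_lit 311, nat_lit 101400, nat_lit 293, nat_lit 55574374, nat_lit 0, nat_lit 0, nat_lit 3045286, false, false⟩,
 nat_lit 0, nat_lit 0, nat_lit 0, nat_lit 4519, nat_lit 5074, nat_lit 0, nat_lit 0, nat_lit 0, nat_lit 0, nat_lit 0, nat_lit 0, nat_lit 0, nat_lit 0, nat_lit 0, nat_lit 111, nat_lit 533800, nat_lit 0, nat_lit 0, [(nat_lit 9, [(nat_lit 5, nat_lit 777), (nat_lit 6, nat_lit 223)])],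
 ⟨p029_k23, nat_lit 0, nat_lit 0, nat_lit 143, nat_lit 0, nat_lit 0, [nat_lit 3415951600, nat_lit 27720800], [], [nat_lit 13965161020, nat_lit 15249923540, nat_lit 11781803996, nat_lit 12890224136, nat_lit 16884885264, nat_lit 18568841711, nat_lit 14435625136, nat_lit 15564847328], nat_lit 0, nat_lit 0, nat_lit 0, nat_lit 0, nat_lit 0, nat_lit 0, [], [nat_lit 70, nat_lit 40, nat_lit 20, nat_lit 80, nat_lit 13, nat_lit 401, nat_lit 175, nat_lit 11]⟩, C1.Rw.none,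
 ⟨nat_lit 5477, nat_lit 5917, ⟨.ofNat (nat_lit 123037), .ofNat (nat_lit 342931), .ofNat (nat_lit 165716), .ofNat (nat_lit 385610), .ofNat (nat_lit 140320), .ofNat (nat_lit 350132), .ofNat (nat_lit 183034), .ofNat (nat_lit 392847)⟩, ⟨.ofNat (nat_lit 229411), .ofNat (nat_lit 386479), .ofNat (nat_lit 250751), .ofNat (nat_lit 407818), .ofNat (nat_lit 232852), .ofNat (nat_lit 382718), .ofNat (nat_lit 254209), .ofNat (nat_lit 404075)⟩⟩, [⟨nat_lit 0, nat_lit 100, nat_lit 94, nat_lit 44, nat_lit 231050000⟩, ⟨nat_lit 4, nat_lit 100, nat_lit 96, nat_lit 54, nat_lit 207923943⟩]⟩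
noncomputable def p029_l97 : Lf2 := ⟨nat_lit 0, nat_lit 1, [nat_lit 19, nat_lit 5, nat_lit 5, nat_lit 20], true, nat_lit 240, nat_lit 288, nat_lit 0, nat_lit 252, ⟨nat_lit 0, nat_lit 0, nat_lit 1000, nat_lit 5, nat_lit 57, nat_lit 1000, nat_lit 179, nat_lit 1000, nat_lit 29345, nat_lit 255, nat_lit 30817, nat_lit 258, nat_lit 53818516, nat_lit 0, nat_lit 0, nat_lit 3021991, false, false⟩,
 nat_lit 0, nat_lit 0, nat_lit 0, nat_lit 5161, nat_lit 3578, nat_lit 0, nat_lit 0, nat_lit 0, nat_lit 0, nat_lit 0, nat_lit 0, nat_lit 0, nat_lit 0, nat_lit 0, nat_lit 10, nat_lit 1000000, nat_lit 0, nat_lit 0, [(nat_lit 6, [(nat_lit 6, nat_lit 1000)])],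
 ⟨p029_k9, nat_lit 0, nat_lit 0, nat_lit 79, nat_lit 0, nat_lit 0, [nat_lit 1137066667, nat_lit 8000000], [], [nat_lit 14925289036, nat_lit 16146186818, nat_lit 14246435179, nat_lit 15462915739, nat_lit 18220762978, nat_lit 19452461244, nat_lit 17319203592, nat_lit 18550091839], nat_lit 0, nat_lit 0, nat_lit 0, nat_lit 0, nat_lit 0, nat_lit 0, [], [nat_lit 31, nat_lit 40, nat_lit 20, nat_lit 80, nat_lit 3, nat_lit 215, nat_lit 10, nat_lit 8]⟩, C1.Rw.none,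
 ⟨nat_lit 5916, nat_lit 6325, ⟨.ofNat (nat_lit 96904), .ofNat (nat_lit 129809), .ofNat (nat_lit 139640), .ofNat (nat_lit 172545), .ofNat (nat_lit 115184), .ofNat (nat_lit 146597), .ofNat (nat_lit 157863), .ofNat (nat_lit 189276)⟩, ⟨.ofNat (nat_lit 389952), .ofNat (nat_lit 488669), .ofNat (nat_lit 411320), .ofNat (nat_lit 510037), .ofNat (nat_lit 386479), .ofNat (nat_lit 480719), .ofNat (nat_lit 407818), .ofNat (nat_lit 502058)⟩⟩, [⟨nat_lit 0, nat_lit 100, nat_lit 97, nat_lit 35, nat_lit 399485355⟩, ⟨nat_lit 16, nat_lit 100, nat_lit 92, nat_lit 61, nat_lit 477384643⟩]⟩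
noncomputable def p029_l98 : Lf2 := ⟨nat_lit 0, nat_lit 2, [nat_lit 10, nat_lit 5, nat_lit 5, nat_lit 20], true, nat_lit 240, nat_lit 288, nat_lit 0, nat_lit 240, ⟨nat_lit 0, nat_lit 0, nat_lit 1000, nat_lit 5, nat_lit 52, nat_lit 1000, nat_lit 179, nat_lit 1000, nat_lit 29345, nat_lit 255, nat_lit 25350, nat_lit 254, nat_lit 54116713, nat_lit 0, nat_lit 0, nat_lit 2933637, false, false⟩,
 nat_lit 0, nat_lit 0, nat_lit 0, nat_lit 12642, nat_lit 4726, nat_lit 0, nat_lit 0, nat_lit 0, nat_lit 0, nat_lit 0, nat_lit 0, nat_lit 0, nat_lit 0, nat_lit 0, nat_lit 66, nat_lit 785800, nat_lit 0, nat_lit 0, [(nat_lit 6, [(nat_lit 5, nat_lit 357), (nat_lit 6, nat_lit 643)])],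
 ⟨p029_k10, nat_lit 0, nat_lit 0, nat_lit 126, nat_lit 0, nat_lit 0, [nat_lit 2548445200, nat_lit 71217467], [], [nat_lit 15327202745, nat_lit 16948083111, nat_lit 14591219482, nat_lit 16018975510, nat_lit 19462648438, nat_lit 20860362015, nat_lit 18529884203, nat_lit 19928383184], nat_lit 0, nat_lit 0, nat_lit 0, nat_lit 0, nat_lit 0, nat_lit 0, [], [nat_lit 39, nat_lit 40, nat_lit 20, nat_lit 80, nat_lit 7, nat_lit 215, nat_lit 10, nat_lit 7]⟩, C1.Rw.none,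
 ⟨nat_lit 5916, nat_lit 6325, ⟨.ofNat (nat_lit 96904), .ofNat (nat_lit 121583), .ofNat (nat_lit 118272), .ofNat (nat_lit 142951), .ofNat (nat_lit 115184), .ofNat (nat_lit 138744), .ofNat (nat_lit 136523), .ofNat (nat_lit 160083)⟩, ⟨.ofNat (nat_lit 389952), .ofNat (nat_lit 488669), .ofNat (nat_lit 411320), .ofNat (nat_lit 510037), .ofNat (nat_lit 386479), .ofNat (nat_lit 480719), .ofNat (nat_lit 407818), .ofNat (nat_lit 502058)⟩⟩, [⟨nat_lit 0, nat_lit 100, nat_lit 97, nat_lit 30, nat_lit 422255801⟩, ⟨nat_lit 4, nat_lit 99, nat_lit 100, nat_lit 54, nat_lit 744239283⟩]⟩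
noncomputable def p029_l99 : Lf2 := ⟨nat_lit 0, nat_lit 2, [nat_lit 10, nat_lit 5, nat_lit 5, nat_lit 20], true, nat_lit 240, nat_lit 288, nat_lit 0, nat_lit 240, ⟨nat_lit 0, nat_lit 0, nat_lit 1000, nat_lit 5, nat_lit 60, nat_lit 1000, nat_lit 179, nat_lit 1000, nat_lit 29345, nat_lit 255, nat_lit 33750, nat_lit 260, nat_lit 53628182, nat_lit 0, nat_lit 0, nat_lit 3066928, false, false⟩,
 nat_lit 0, nat_lit 0, nat_lit 0, nat_lit 7889, nat_lit 3534, nat_lit 0, nat_lit 0, nat_lit 0, nat_lit 0, nat_lit 0, nat_lit 0, nat_lit 0, nat_lit 0, nat_lit 0, nat_lit 80, nat_lit 1000000, nat_lit 0, nat_lit 0, [(nat_lit 6, [(nat_lit 6, nat_lit 1000)])],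
 ⟨p029_k27, nat_lit 0, nat_lit 0, nat_lit 90, nat_lit 0, nat_lit 0, [nat_lit 2257066667, nat_lit 1408000000, nat_lit 211200000], [], [nat_lit 14782025380, nat_lit 15388673035, nat_lit 14447965396, nat_lit 15053511174, nat_lit 17950818114, nat_lit 18563493035, nat_lit 17506818493, nat_lit 18118814635], nat_lit 0, nat_lit 0, nat_lit 0, nat_lit 0, nat_lit 0, nat_lit 0, [], [nat_lit 9, nat_lit 40, nat_lit 20, nat_lit 80, nat_lit 2, nat_lit 215, nat_lit 10, nat_lit 7]⟩, C1.Rw.none,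
 ⟨nat_lit 6123, nat_lit 6325, ⟨.ofNat (nat_lit 126498), .ofNat (nat_lit 142951), .ofNat (nat_lit 147866), .ofNat (nat_lit 164319), .ofNat (nat_lit 135519), .ofNat (nat_lit 151595), .ofNat (nat_lit 156867), .ofNat (nat_lit 172944)⟩, ⟨.ofNat (nat_lit 389952), .ofNat (nat_lit 488669), .ofNat (nat_lit 411320), .ofNat (nat_lit 510037), .ofNat (nat_lit 388246), .ofNat (nat_lit 484703), .ofNat (nat_lit 409594), .ofNat (nat_lit 506051)⟩⟩, [⟨nat_lit 0, nat_lit 100, nat_lit 99, nat_lit 37, nat_lit 389322218⟩, ⟨nat_lit 16, nat_lit 100, nat_lit 92, nat_lit 61, nat_lit 474996062⟩]⟩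
noncomputable def p029_l100 : Lf2 := ⟨nat_lit 0, nat_lit 2, [nat_lit 10, nat_lit 5, nat_lit 5, nat_lit 20], true, nat_lit 240, nat_lit 280, nat_lit 0, nat_lit 240, ⟨nat_lit 0, nat_lit 0, nat_lit 1000, nat_lit 5, nat_lit 65, nat_lit 1000, nat_lit 175, nat_lit 1000, nat_lit 51683, nat_lit 270, nat_lit 40017, nat_lit 264, nat_lit 53779452, nat_lit 0, nat_lit 0, nat_lit 3091340, false, false⟩,
 nat_lit 0, nat_lit 0, nat_lit 0, nat_lit 7743, nat_lit 3535, nat_lit 0, nat_lit 0, nat_lit 0, nat_lit 0, nat_lit 0, nat_lit 0, nat_lit 0, nat_lit 0, nat_lit 0, nat_lit 80, nat_lit 1000000, nat_lit 0, nat_lit 0, [(nat_lit 6, [(nat_lit 6, nat_lit 1000)])],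
 ⟨p029_k34, nat_lit 0, nat_lit 0, nat_lit 85, nat_lit 0, nat_lit 0, [nat_lit 2257066667, nat_lit 1408000000, nat_lit 211200000], [], [nat_lit 15220503800, nat_lit 15826674331, nat_lit 15052861854, nat_lit 15658481419, nat_lit 17763735359, nat_lit 18391354582, nat_lit 17542403791, nat_lit 18169152367], nat_lit 0, nat_lit 0, nat_lit 0, nat_lit 0, nat_lit 0, nat_lit 0, [], [nat_lit 9, nat_lit 40, nat_lit 20, nat_lit 80, nat_lit 2, nat_lit 215, nat_lit 10, nat_lit 7]⟩, C1.Rw.none,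
 ⟨nat_lit 5916, nat_lit 6124, ⟨.ofNat (nat_lit 143557), .ofNat (nat_lit 151595), .ofNat (nat_lit 164905), .ofNat (nat_lit 172944), .ofNat (nat_lit 152230), .ofNat (nat_lit 160083), .ofNat (nat_lit 173569), .ofNat (nat_lit 181423)⟩, ⟨.ofNat (nat_lit 388246), .ofNat (nat_lit 468627), .ofNat (nat_lit 409594), .ofNat (nat_lit 489975), .ofNat (nat_lit 386479), .ofNat (nat_lit 465012), .ofNat (nat_lit 407818), .ofNat (nat_lit 486351)⟩⟩, [⟨nat_lit 0, nat_lit 100, nat_lit 97, nat_lit 42, nat_lit 1364535622⟩, ⟨nat_lit 16, nat_lit 100, nat_lit 95, nat_lit 62, nat_lit 454792939⟩]⟩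
noncomputable def p029_l101 : Lf2 := ⟨nat_lit 0, nat_lit 2, [nat_lit 10, nat_lit 5, nat_lit 5, nat_lit 20], true, nat_lit 240, nat_lit 288, nat_lit 0, nat_lit 252, ⟨nat_lit 0, nat_lit 0, nat_lit 1000, nat_lit 5, nat_lit 62, nat_lit 1000, nat_lit 179, nat_lit 1000, nat_lit 29345, nat_lit 255, nat_lit 36817, nat_lit 262, nat_lit 53563211, nat_lit 0, nat_lit 0, nat_lit 3094333, false, false⟩,
 nat_lit 0, nat_lit 0, nat_lit 0, nat_lit 8244, nat_lit 3904, nat_lit 0, nat_lit 0, nat_lit 0, nat_lit 0, nat_lit 0, nat_lit 0, nat_lit 0, nat_lit 0, nat_lit 0, nat_lit 41, nat_lit 400000, nat_lit 0, nat_lit 0, [(nat_lit 6, [(nat_lit 5, nat_lit 1000)])],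
 ⟨p029_k10, nat_lit 0, nat_lit 0, nat_lit 66, nat_lit 0, nat_lit 0, [nat_lit 2073600001, nat_lit 7600000], [], [nat_lit 14620948770, nat_lit 15886643150, nat_lit 14431353217, nat_lit 15695925297, nat_lit 17824089435, nat_lit 19103018573, nat_lit 17631163048, nat_lit 18853269492], nat_lit 0, nat_lit 0, nat_lit 0, nat_lit 0, nat_lit 0, nat_lit 0, [], [nat_lit 39, nat_lit 40, nat_lit 20, nat_lit 80, nat_lit 7, nat_lit 215, nat_lit 10, nat_lit 7]⟩, C1.Rw.none,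
 ⟨nat_lit 5916, nat_lit 6325, ⟨.ofNat (nat_lit 121583), .ofNat (nat_lit 129809), .ofNat (nat_lit 164319), .ofNat (nat_lit 172545), .ofNat (nat_lit 138744), .ofNat (nat_lit 146597), .ofNat (nat_lit 181423), .ofNat (nat_lit 189276)⟩, ⟨.ofNat (nat_lit 389952), .ofNat (nat_lit 488669), .ofNat (nat_lit 411320), .ofNat (nat_lit 510037), .ofNat (nat_lit 386479), .ofNat (nat_lit 480719), .ofNat (nat_lit 407818), .ofNat (nat_lit 502058)⟩⟩, [⟨nat_lit 16, nat_lit 100, nat_lit 92, nat_lit 61, nat_lit 499607031⟩]⟩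
noncomputable def p029_l102 : Lf2 := ⟨nat_lit 0, nat_lit 5, [nat_lit 4, nat_lit 5, nat_lit 5, nat_lit 20], true, nat_lit 240, nat_lit 260, nat_lit 0, nat_lit 252, ⟨nat_lit 0, nat_lit 0, nat_lit 1000, nat_lit 5, nat_lit 57, nat_lit 1000, nat_lit 168, nat_lit 1000, nat_lit 212817, nat_lit 328, nat_lit 30817, nat_lit 258, nat_lit 54929785, nat_lit 0, nat_lit 0, nat_lit 2882662, false, false⟩,
 nat_lit 0, nat_lit 0, nat_lit 0, nat_lit 5682, nat_lit 5061, nat_lit 0, nat_lit 0, nat_lit 0, nat_lit 0, nat_lit 0, nat_lit 0, nat_lit 0, nat_lit 0, nat_lit 0, nat_lit 119, nat_lit 786400, nat_lit 0, nat_lit 0, [(nat_lit 6, [(nat_lit 5, nat_lit 356), (nat_lit 6, nat_lit 644)])],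
 ⟨p029_k29, nat_lit 0, nat_lit 0, nat_lit 148, nat_lit 0, nat_lit 0, [nat_lit 3830617601, nat_lit 704000], [], [nat_lit 15778373698, nat_lit 17210277695, nat_lit 14740733576, nat_lit 15908314136, nat_lit 17318757836, nat_lit 18902330380, nat_lit 15979887634, nat_lit 17562456113], nat_lit 0, nat_lit 0, nat_lit 0, nat_lit 0, nat_lit 0, nat_lit 0, [], [nat_lit 70, nat_lit 40, nat_lit 20, nat_lit 80, nat_lit 13, nat_lit 373, nat_lit 150, nat_lit 10]⟩, C1.Rw.none,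
 ⟨nat_lit 5916, nat_lit 6325, ⟨.ofNat (nat_lit 96904), .ofNat (nat_lit 129809), .ofNat (nat_lit 139640), .ofNat (nat_lit 172545), .ofNat (nat_lit 115184), .ofNat (nat_lit 146597), .ofNat (nat_lit 157863), .ofNat (nat_lit 189276)⟩, ⟨.ofNat (nat_lit 389952), .ofNat (nat_lit 431084), .ofNat (nat_lit 411320), .ofNat (nat_lit 452452), .ofNat (nat_lit 386479), .ofNat (nat_lit 425745), .ofNat (nat_lit 407818), .ofNat (nat_lit 447085)⟩⟩, [⟨nat_lit 0, nat_lit 100, nat_lit 97, nat_lit 35, nat_lit 540478345⟩, ⟨nat_lit 4, nat_lit 99, nat_lit 100, nat_lit 54, nat_lit 295977468⟩]⟩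
noncomputable def p029_l103 : Lf2 := ⟨nat_lit 0, nat_lit 5, [nat_lit 4, nat_lit 5, nat_lit 5, nat_lit 20], true, nat_lit 260, nat_lit 288, nat_lit 0, nat_lit 232, ⟨nat_lit 0, nat_lit 0, nat_lit 1000, nat_lit 5, nat_lit 57, nat_lit 1000, nat_lit 187, nat_lit 1000, nat_lit 29345, nat_lit 255, nat_lit 30817, nat_lit 258, nat_lit 53013451, nat_lit 0, nat_lit 0, nat_lit 3115954, false, false⟩,
 nat_lit 0, nat_lit 0, nat_lit 0, nat_lit 12142, nat_lit 4316, nat_lit 0, nat_lit 0, nat_lit 0, nat_lit 0, nat_lit 0, nat_lit 0, nat_lit 0, nat_lit 0, nat_lit 0, nat_lit 141, nat_lit 955600, nat_lit 0, nat_lit 0, [(nat_lit 6, [(nat_lit 5, nat_lit 74), (nat_lit 6, nat_lit 926)])],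
 ⟨p029_k30, nat_lit 0, nat_lit 0, nat_lit 161, nat_lit 0, nat_lit 0, [nat_lit 3265666134, nat_lit 2920742401, nat_lit 150614399], [], [nat_lit 16721751043, nat_lit 18181501607, nat_lit 15605268855, nat_lit 17062834528, nat_lit 19019117917, nat_lit 20357540311, nat_lit 17897297127, nat_lit 19236426525], nat_lit 0, nat_lit 0, nat_lit 0, nat_lit 0, nat_lit 0, nat_lit 0, [], [nat_lit 11, nat_lit 40, nat_lit 20, nat_lit 80, nat_lit 1, nat_lit 373, nat_lit 150, nat_lit 10]⟩, C1.Rw.none,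
 ⟨nat_lit 5916, nat_lit 6325, ⟨.ofNat (nat_lit 96904), .ofNat (nat_lit 129809), .ofNat (nat_lit 139640), .ofNat (nat_lit 172545), .ofNat (nat_lit 115184), .ofNat (nat_lit 146597), .ofNat (nat_lit 157863), .ofNat (nat_lit 189276)⟩, ⟨.ofNat (nat_lit 431084), .ofNat (nat_lit 488669), .ofNat (nat_lit 452452), .ofNat (nat_lit 510037), .ofNat (nat_lit 425745), .ofNat (nat_lit 480719), .ofNat (nat_lit 447085), .ofNat (nat_lit 502058)⟩⟩, [⟨nat_lit 0, nat_lit 100, nat_lit 97, nat_lit 35, nat_lit 470173517⟩, ⟨nat_lit 4, nat_lit 99, nat_lit 100, nat_lit 54, nat_lit 708230646⟩]⟩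
noncomputable def p029_l104 : Lf2 := ⟨nat_lit 0, nat_lit 5, [nat_lit 4, nat_lit 5, nat_lit 5, nat_lit 20], true, nat_lit 240, nat_lit 268, nat_lit 0, nat_lit 252, ⟨nat_lit 0, nat_lit 0, nat_lit 1000, nat_lit 5, nat_lit 66, nat_lit 1000, nat_lit 169, nat_lit 1000, nat_lit 126379, nat_lit 302, nat_lit 40017, nat_lit 264, nat_lit 54344817, nat_lit 0, nat_lit 0, nat_lit 3026333, false, false⟩,
 nat_lit 0, nat_lit 0, nat_lit 0, nat_lit 3080, nat_lit 4398, nat_lit 0, nat_lit 0, nat_lit 0, nat_lit 0, nat_lit 0, nat_lit 0, nat_lit 0, nat_lit 0, nat_lit 0, nat_lit 55, nat_lit 400000, nat_lit 0, nat_lit 0, [(nat_lit 9, [(nat_lit 5, nat_lit 1000)])],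
 ⟨p029_k16, nat_lit 0, nat_lit 0, nat_lit 121, nat_lit 0, nat_lit 0, [nat_lit 2406400000, nat_lit 19600000], [], [nat_lit 16685154539, nat_lit 17967127621, nat_lit 16151909012, nat_lit 17283571616, nat_lit 18602705328, nat_lit 20040934055, nat_lit 17746279454, nat_lit 19183219316], nat_lit 0, nat_lit 0, nat_lit 0, nat_lit 0, nat_lit 0, nat_lit 0, [], [nat_lit 39, nat_lit 40, nat_lit 20, nat_lit 80, nat_lit 7, nat_lit 215, nat_lit 10, nat_lit 7]⟩, C1.Rw.none,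
 ⟨nat_lit 5477, nat_lit 5917, ⟨.ofNat (nat_lit 123037), .ofNat (nat_lit 146597), .ofNat (nat_lit 165716), .ofNat (nat_lit 189276), .ofNat (nat_lit 140320), .ofNat (nat_lit 162800), .ofNat (nat_lit 183034), .ofNat (nat_lit 205514)⟩, ⟨.ofNat (nat_lit 386479), .ofNat (nat_lit 441452), .ofNat (nat_lit 407818), .ofNat (nat_lit 462791), .ofNat (nat_lit 382718), .ofNat (nat_lit 435171), .ofNat (nat_lit 404075), .ofNat (nat_lit 456528)⟩⟩, [⟨nat_lit 0, nat_lit 100, nat_lit 94, nat_lit 44, nat_lit 885887150⟩, ⟨nat_lit 16, nat_lit 100, nat_lit 99, nat_lit 63, nat_lit 394196512⟩]⟩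
noncomputable def p029_l105 : Lf2 := ⟨nat_lit 0, nat_lit 5, [nat_lit 4, nat_lit 5, nat_lit 5, nat_lit 20], true, nat_lit 240, nat_lit 288, nat_lit 0, nat_lit 288, ⟨nat_lit 0, nat_lit 0, nat_lit 1000, nat_lit 5, nat_lit 75, nat_lit 1000, nat_lit 178, nat_lit 1000, nat_lit 29345, nat_lit 255, nat_lit 52267, nat_lit 271, nat_lit 52963727, nat_lit 0, nat_lit 0, nat_lit 3269373, false, false⟩,
 nat_lit 0, nat_lit 0, nat_lit 0, nat_lit 6048, nat_lit 4050, nat_lit 0, nat_lit 0, nat_lit 0, nat_lit 0, nat_lit 0, nat_lit 0, nat_lit 0, nat_lit 0, nat_lit 0, nat_lit 134, nat_lit 896200, nat_lit 0, nat_lit 0, [(nat_lit 6, [(nat_lit 5, nat_lit 173), (nat_lit 6, nat_lit 827)]), (nat_lit 9, [(nat_lit 5, nat_lit 173), (nat_lit 6, nat_lit 827)])],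
 ⟨p029_k31, nat_lit 0, nat_lit 0, nat_lit 148, nat_lit 0, nat_lit 0, [nat_lit 3676685201, nat_lit 1576235734, nat_lit 21032000], [], [nat_lit 15318489135, nat_lit 17183291935, nat_lit 14909123535, nat_lit 16750309935, nat_lit 17688950655, nat_lit 20289490160, nat_lit 17248660215, nat_lit 19513882840], nat_lit 0, nat_lit 0, nat_lit 0, nat_lit 0, nat_lit 0, nat_lit 0, [], [nat_lit 29, nat_lit 40, nat_lit 20, nat_lit 80, nat_lit 17, nat_lit 401, nat_lit 175, nat_lit 11]⟩, C1.Rw.none,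
 ⟨nat_lit 5477, nat_lit 6325, ⟨.ofNat (nat_lit 129809), .ofNat (nat_lit 170942), .ofNat (nat_lit 172545), .ofNat (nat_lit 213677), .ofNat (nat_lit 162800), .ofNat (nat_lit 200266), .ofNat (nat_lit 205514), .ofNat (nat_lit 242980)⟩, ⟨.ofNat (nat_lit 389952), .ofNat (nat_lit 488669), .ofNat (nat_lit 411320), .ofNat (nat_lit 510037), .ofNat (nat_lit 382718), .ofNat (nat_lit 472638), .ofNat (nat_lit 404075), .ofNat (nat_lit 493995)⟩⟩, [⟨nat_lit 16, nat_lit 100, nat_lit 92, nat_lit 61, nat_lit 358063667⟩]⟩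
noncomputable def p029_l106 : Lf2 := ⟨nat_lit 0, nat_lit 5, [nat_lit 4, nat_lit 5, nat_lit 5, nat_lit 20], true, nat_lit 240, nat_lit 288, nat_lit 0, nat_lit 320, ⟨nat_lit 0, nat_lit 0, nat_lit 1000, nat_lit 5, nat_lit 99, nat_lit 1000, nat_lit 178, nat_lit 1000, nat_lit 29345, nat_lit 255, nat_lit 91267, nat_lit 289, nat_lit 51498694, nat_lit 0, nat_lit 0, nat_lit 3607715, false, false⟩,
 nat_lit 0, nat_lit 0, nat_lit 0, nat_lit 3092, nat_lit 4231, nat_lit 0, nat_lit 0, nat_lit 0, nat_lit 0, nat_lit 0, nat_lit 0, nat_lit 0, nat_lit 0, nat_lit 0, nat_lit 69, nat_lit 400000, nat_lit 0, nat_lit 0, [(nat_lit 6, [(nat_lit 5, nat_lit 1000)]), (nat_lit 9, [(nat_lit 5, nat_lit 1000)])],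
 ⟨p029_k29, nat_lit 0, nat_lit 0, nat_lit 55, nat_lit 0, nat_lit 0, [nat_lit 2630400000, nat_lit 7200000], [], [nat_lit 13740736668, nat_lit 16335620076, nat_lit 13401112772, nat_lit 15904269780, nat_lit 17026908548, nat_lit 19660694257, nat_lit 16568800772, nat_lit 18867664435], nat_lit 0, nat_lit 0, nat_lit 0, nat_lit 0, nat_lit 0, nat_lit 0, [], [nat_lit 70, nat_lit 40, nat_lit 20, nat_lit 80, nat_lit 13, nat_lit 401, nat_lit 175, nat_lit 11]⟩, C1.Rw.none,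
 ⟨nat_lit 5477, nat_lit 6325, ⟨.ofNat (nat_lit 170942), .ofNat (nat_lit 253206), .ofNat (nat_lit 213677), .ofNat (nat_lit 295942), .ofNat (nat_lit 200266), .ofNat (nat_lit 275199), .ofNat (nat_lit 242980), .ofNat (nat_lit 317913)⟩, ⟨.ofNat (nat_lit 389952), .ofNat (nat_lit 488669), .ofNat (nat_lit 411320), .ofNat (nat_lit 510037), .ofNat (nat_lit 382718), .ofNat (nat_lit 472638), .ofNat (nat_lit 404075), .ofNat (nat_lit 493995)⟩⟩, [⟨nat_lit 16, nat_lit 100, nat_lit 92, nat_lit 61, nat_lit 514446630⟩]⟩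
noncomputable def p029_l107 : Lf2 := ⟨nat_lit 0, nat_lit 10, [nat_lit 0, nat_lit 5, nat_lit 5, nat_lit 20], true, nat_lit 240, nat_lit 288, nat_lit 0, nat_lit 288, ⟨nat_lit 0, nat_lit 0, nat_lit 1000, nat_lit 5, nat_lit 69, nat_lit 1000, nat_lit 178, nat_lit 1000, nat_lit 29345, nat_lit 255, nat_lit 43350, nat_lit 266, nat_lit 53325324, nat_lit 0, nat_lit 0, nat_lit 3176218, false, false⟩,
 nat_lit 0, nat_lit 0, nat_lit 0, nat_lit 14136, nat_lit 4957, nat_lit 0, nat_lit 497, nat_lit 0, nat_lit 0, nat_lit 0, nat_lit 0, nat_lit 0, nat_lit 0, nat_lit 0, nat_lit 102, nat_lit 610000, nat_lit 0, nat_lit 0, [(nat_lit 6, [(nat_lit 5, nat_lit 650), (nat_lit 6, nat_lit 350)]), (nat_lit 9, [(nat_lit 5, nat_lit 650), (nat_lit 6, nat_lit 350)])],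
 ⟨p029_k26, nat_lit 0, nat_lit 0, nat_lit 208, nat_lit 0, nat_lit 0, [nat_lit 3161060000, nat_lit 1190853334, nat_lit 211920000], [], [nat_lit 15466955460, nat_lit 18791716038, nat_lit 13744811898, nat_lit 16501758140, nat_lit 19712540025, nat_lit 22574778218, nat_lit 17405797650, nat_lit 20249562150], nat_lit 0, nat_lit 0, nat_lit 0, nat_lit 0, nat_lit 0, nat_lit 0, [], [nat_lit 21, nat_lit 40, nat_lit 20, nat_lit 80, nat_lit 14, nat_lit 401, nat_lit 175, nat_lit 10]⟩, C1.Rw.none,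
 ⟨nat_lit 5477, nat_lit 6325, ⟨.ofNat (nat_lit 96904), .ofNat (nat_lit 170942), .ofNat (nat_lit 139640), .ofNat (nat_lit 213677), .ofNat (nat_lit 132827), .ofNat (nat_lit 200266), .ofNat (nat_lit 175541), .ofNat (nat_lit 242980)⟩, ⟨.ofNat (nat_lit 389952), .ofNat (nat_lit 488669), .ofNat (nat_lit 411320), .ofNat (nat_lit 510037), .ofNat (nat_lit 382718), .ofNat (nat_lit 472638), .ofNat (nat_lit 404075), .ofNat (nat_lit 493995)⟩⟩, [⟨nat_lit 0, nat_lit 100, nat_lit 96, nat_lit 40, nat_lit 363500511⟩, ⟨nat_lit 4, nat_lit 100, nat_lit 98, nat_lit 54, nat_lit 782036956⟩]⟩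
noncomputable def p029_l108 : Lf2 := ⟨nat_lit 0, nat_lit 10, [nat_lit 0, nat_lit 5, nat_lit 5, nat_lit 20], true, nat_lit 240, nat_lit 288, nat_lit 0, nat_lit 320, ⟨nat_lit 0, nat_lit 0, nat_lit 1000, nat_lit 5, nat_lit 99, nat_lit 1000, nat_lit 178, nat_lit 1000, nat_lit 29345, nat_lit 255, nat_lit 91267, nat_lit 289, nat_lit 51498694, nat_lit 0, nat_lit 0, nat_lit 3607715, false, false⟩,
 nat_lit 0, nat_lit 0, nat_lit 0, nat_lit 14250, nat_lit 6092, nat_lit 0, nat_lit 0, nat_lit 0, nat_lit 0, nat_lit 0, nat_lit 0, nat_lit 0, nat_lit 0, nat_lit 0, nat_lit 166, nat_lit 1000000, nat_lit 0, nat_lit 0, [(nat_lit 6, [(nat_lit 6, nat_lit 1000)]), (nat_lit 9, [(nat_lit 6, nat_lit 1000)])],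
 ⟨p029_k24, nat_lit 0, nat_lit 0, nat_lit 164, nat_lit 0, nat_lit 0, [nat_lit 4113520001, nat_lit 348400000], [], [nat_lit 14768212064, nat_lit 16963725840, nat_lit 13600649296, nat_lit 15632540208, nat_lit 17998509178, nat_lit 21170175178, nat_lit 16626075466, nat_lit 19701917981], nat_lit 0, nat_lit 0, nat_lit 0, nat_lit 0, nat_lit 0, nat_lit 0, [], [nat_lit 116, nat_lit 40, nat_lit 20, nat_lit 80, nat_lit 65, nat_lit 401, nat_lit 175, nat_lit 10]⟩, C1.Rw.none,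
 ⟨nat_lit 5477, nat_lit 6325, ⟨.ofNat (nat_lit 170942), .ofNat (nat_lit 253206), .ofNat (nat_lit 213677), .ofNat (nat_lit 295942), .ofNat (nat_lit 200266), .ofNat (nat_lit 275199), .ofNat (nat_lit 242980), .ofNat (nat_lit 317913)⟩, ⟨.ofNat (nat_lit 389952), .ofNat (nat_lit 488669), .ofNat (nat_lit 411320), .ofNat (nat_lit 510037), .ofNat (nat_lit 382718), .ofNat (nat_lit 472638), .ofNat (nat_lit 404075), .ofNat (nat_lit 493995)⟩⟩, [⟨nat_lit 4, nat_lit 100, nat_lit 98, nat_lit 54, nat_lit 818772348⟩]⟩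
noncomputable def p029_l109 : Lf2 := ⟨nat_lit 0, nat_lit 10, [nat_lit 0, nat_lit 5, nat_lit 5, nat_lit 20], true, nat_lit 240, nat_lit 288, nat_lit 0, nat_lit 320, ⟨nat_lit 0, nat_lit 1000, nat_lit 0, nat_lit 5, nat_lit 130, nat_lit 1000, nat_lit 178, nat_lit 0, nat_lit 0, nat_lit 0, nat_lit 0, nat_lit 0, nat_lit 49336414, nat_lit 6721239, nat_lit 10942347, nat_lit 4020124, false, false⟩,
 nat_lit 0, nat_lit 0, nat_lit 0, nat_lit 2767, nat_lit 5974, nat_lit 0, nat_lit 0, nat_lit 0, nat_lit 0, nat_lit 0, nat_lit 0, nat_lit 0, nat_lit 0, nat_lit 0, nat_lit 0, nat_lit 250000, nat_lit 0, nat_lit 0, [(nat_lit 6, [(nat_lit 0, nat_lit 1000)]), (nat_lit 9, [(nat_lit 0, nat_lit 1000)])],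
 ⟨p029_k24, nat_lit 0, nat_lit 0, nat_lit 32, nat_lit 0, nat_lit 0, [nat_lit 3128000000, nat_lit 3904533334], [], [nat_lit 12803067688, nat_lit 15787934120, nat_lit 12914534536, nat_lit 15743805696, nat_lit 16606602088, nat_lit 19649020658, nat_lit 16520980759, nat_lit 19283733248], nat_lit 0, nat_lit 0, nat_lit 0, nat_lit 0, nat_lit 0, nat_lit 0, [], [nat_lit 116, nat_lit 40, nat_lit 20, nat_lit 80, nat_lit 65, nat_lit 401, nat_lit 175, nat_lit 10]⟩, C1.Rw.none,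
 ⟨nat_lit 5477, nat_lit 6325, ⟨.ofNat (nat_lit 253206), .ofNat (nat_lit 335470), .ofNat (nat_lit 295942), .ofNat (nat_lit 378206), .ofNat (nat_lit 275199), .ofNat (nat_lit 350132), .ofNat (nat_lit 317913), .ofNat (nat_lit 392847)⟩, ⟨.ofNat (nat_lit 389952), .ofNat (nat_lit 488669), .ofNat (nat_lit 411320), .ofNat (nat_lit 510037), .ofNat (nat_lit 382718), .ofNat (nat_lit 472638), .ofNat (nat_lit 404075), .ofNat (nat_lit 493995)⟩⟩, [⟨nat_lit 16, nat_lit 100, nat_lit 92, nat_lit 61, nat_lit 534791701⟩]⟩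
noncomputable def p029_l110 : Lf2 := ⟨nat_lit 0, nat_lit 10, [nat_lit 0, nat_lit 5, nat_lit 5, nat_lit 20], true, nat_lit 160, nat_lit 288, nat_lit 0, nat_lit 320, ⟨nat_lit 0, nat_lit 1000, nat_lit 0, nat_lit 5, nat_lit 193, nat_lit 1000, nat_lit 146, nat_lit 0, nat_lit 0, nat_lit 0, nat_lit 0, nat_lit 0, nat_lit 46873137, nat_lit 12211568, nat_lit 7915295, nat_lit 4355721, false, false⟩,
 nat_lit 0, nat_lit 0, nat_lit 0, nat_lit 2767, nat_lit 5661, nat_lit 0, nat_lit 0, nat_lit 0, nat_lit 0, nat_lit 0, nat_lit 0, nat_lit 0, nat_lit 0, nat_lit 0, nat_lit 0, nat_lit 250000, nat_lit 0, nat_lit 0, [(nat_lit 6, [(nat_lit 0, nat_lit 1000)]), (nat_lit 9, [(nat_lit 0, nat_lit 1000)])],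
 ⟨p029_k24, nat_lit 0, nat_lit 0, nat_lit 18, nat_lit 0, nat_lit 0, [nat_lit 3128000000, nat_lit 3904533334], [], [nat_lit 9197084092, nat_lit 12487847468, nat_lit 14168808464, nat_lit 16740249820, nat_lit 16852259458, nat_lit 19241729758, nat_lit 20078788262, nat_lit 22289868496], nat_lit 0, nat_lit 0, nat_lit 0, nat_lit 0, nat_lit 0, nat_lit 0, [], [nat_lit 116, nat_lit 40, nat_lit 20, nat_lit 80, nat_lit 65, nat_lit 456, nat_lit 225, nat_lit 11]⟩, C1.Rw.none,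
 ⟨nat_lit 5477, nat_lit 6325, ⟨.ofNat (nat_lit 335470), .ofNat (nat_lit 582178), .ofNat (nat_lit 378206), .ofNat (nat_lit 624852), .ofNat (nat_lit 350132), .ofNat (nat_lit 574846), .ofNat (nat_lit 392847), .ofNat (nat_lit 617499)⟩, ⟨.ofNat (nat_lit 225423), .ofNat (nat_lit 488669), .ofNat (nat_lit 246791), .ofNat (nat_lit 510037), .ofNat (nat_lit 232852), .ofNat (nat_lit 472638), .ofNat (nat_lit 254209), .ofNat (nat_lit 493995)⟩⟩, [⟨nat_lit 16, nat_lit 100, nat_lit 92, nat_lit 61, nat_lit 273084161⟩]⟩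
noncomputable def b_VL_600_500_5_1 : St := ⟨true, nat_lit 0, nat_lit 1, nat_lit 1, nat_lit 40, nat_lit 240, nat_lit 280, nat_lit 200, nat_lit 240, nat_lit 4, nat_lit 240, nat_lit 20, nat_lit 40, nat_lit 0, nat_lit 288, nat_lit 0, nat_lit 320, nat_lit 0, nat_lit 40, nat_lit 0, nat_lit 0, nat_lit 0, nat_lit 0⟩
theorem d_VL_600_500_5_1 (h : EB TB.env) : Dead b_VL_600_500_5_1 := chkB_sound0 h (T :=
(.spl (nat_lit 4) (nat_lit 160)
(.spl (nat_lit 2) (nat_lit 120)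
(.spl (nat_lit 4) (nat_lit 80)
(.spl (nat_lit 0) (nat_lit 260)
(.spl (nat_lit 6) (nat_lit 32)
(.leaf p029_l89)
(.leaf p029_l90))
(.trZ (nat_lit 0) (nat_lit 100) (nat_lit 95) (nat_lit 30) (nat_lit 8) (.leaf p029_l91)))
(.leaf p029_l92))
(.spl (nat_lit 0) (nat_lit 260)
(.leaf p029_l93)
(.leaf p029_l94)))
(.spl (nat_lit 2) (nat_lit 120)
(.spl (nat_lit 4) (nat_lit 240)
(.spl (nat_lit 0) (nat_lit 260)
(.leaf p029_l95)
(.trZ (nat_lit 0) (nat_lit 100) (nat_lit 95) (nat_lit 30) (nat_lit 8) (.leaf p029_l96)))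
(.spl (nat_lit 2) (nat_lit 80)
(.spl (nat_lit 6) (nat_lit 20)
(.spl (nat_lit 2) (nat_lit 40)
(.trX (nat_lit 23) (nat_lit 100) (nat_lit 92) (nat_lit 61) (nat_lit 288) (.spl (nat_lit 2) (nat_lit 20)
(.trX (nat_lit 23) (nat_lit 100) (nat_lit 99) (nat_lit 44) (nat_lit 252) (.spl (nat_lit 0) (nat_lit 260)
(.spl (nat_lit 6) (nat_lit 8)
(.spl (nat_lit 6) (nat_lit 4)
(.leaf p029_l97)
(.spl (nat_lit 2) (nat_lit 16)
(.trX (nat_lit 23) (nat_lit 100) (nat_lit 100) (nat_lit 40) (nat_lit 240) (.spl (nat_lit 1) (nat_lit 220)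
(.leaf p029_l98)
(.trZ (nat_lit 0) (nat_lit 100) (nat_lit 98) (nat_lit 30) (nat_lit 8) (.spl (nat_lit 0) (nat_lit 250)
(.leaf p029_l99)
(.trZ (nat_lit 0) (nat_lit 100) (nat_lit 97) (nat_lit 35) (nat_lit 12) (.trX (nat_lit 16) (nat_lit 100) (nat_lit 95) (nat_lit 62) (nat_lit 280) (.leaf p029_l100)))))))
(.leaf p029_l101)))
(.spl (nat_lit 4) (nat_lit 260)
(.leaf p029_l102)
(.trX (nat_lit 23) (nat_lit 96) (nat_lit 100) (nat_lit 44) (nat_lit 232) (.leaf p029_l103))))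
(.trZ (nat_lit 0) (nat_lit 100) (nat_lit 95) (nat_lit 30) (nat_lit 8) (.trX (nat_lit 16) (nat_lit 100) (nat_lit 99) (nat_lit 63) (nat_lit 268) (.leaf p029_l104)))))
(.leaf p029_l105)))
(.leaf p029_l106))
(.spl (nat_lit 2) (nat_lit 40)
(.trX (nat_lit 23) (nat_lit 100) (nat_lit 92) (nat_lit 61) (nat_lit 288) (.leaf p029_l107))
(.leaf p029_l108)))
(.leaf p029_l109)))
(.leaf p029_l110)))) (by decide +kernel)
noncomputable def p029_l111 : Lf2 := ⟨nat_lit 0, nat_lit 10, [nat_lit 0, nat_lit 5, nat_lit 5, nat_lit 20], false, nat_lit 0, nat_lit 160, nat_lit 0, nat_lit 320, ⟨nat_lit 1000, nat_lit 0, nat_lit 0, nat_lit 0, nat_lit 0, nat_lit 0, nat_lit 0, nat_lit 0, nat_lit 0, nat_lit 0, nat_lit 0, nat_lit 0, nat_lit 0, nat_lit 0, nat_lit 0, nat_lit 0, false, false⟩,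
 nat_lit 0, nat_lit 0, nat_lit 20213, nat_lit 0, nat_lit 6803, nat_lit 8662, nat_lit 2316, nat_lit 0, nat_lit 0, nat_lit 2401, nat_lit 0, nat_lit 0, nat_lit 0, nat_lit 0, nat_lit 0, nat_lit 0, nat_lit 0, nat_lit 0, [],
 ⟨p029_k32, nat_lit 0, nat_lit 0, nat_lit 239, nat_lit 0, nat_lit 0, [nat_lit 4688000000, nat_lit 6250000000, nat_lit 11872000000], [], [nat_lit 23331238208, nat_lit 24404910546, nat_lit 35848600976, nat_lit 36834175812, nat_lit 19269782648, nat_lit 20027628032, nat_lit 29409009628, nat_lit 30112157510], nat_lit 0, nat_lit 0, nat_lit 0, nat_lit 0, nat_lit 0, nat_lit 0, [], [nat_lit 48, nat_lit 40, nat_lit 20, nat_lit 80, nat_lit 12, nat_lit 456, nat_lit 225, nat_lit 11]⟩, ⟨p029_k35, nat_lit 0, nat_lit 0, nat_lit 531, nat_lit 0, nat_lit 585157, [nat_lit 6250000000, nat_lit 7968000000, nat_lit 11872000000], [], [nat_lit 33781729112, nat_lit 34132657008, nat_lit 40680754408, nat_lit 40827959892,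 nat_lit 34894048752, nat_lit 31108667032, nat_lit 35106198888, nat_lit 35038886760], nat_lit 1271250, nat_lit 1271250, nat_lit 1271250, nat_lit 1271250, nat_lit 0, nat_lit 2260000, [nat_lit 1412500, nat_lit 1271250, nat_lit 1271250], [nat_lit 53, nat_lit 40, nat_lit 20, nat_lit 80, nat_lit 14, nat_lit 483, nat_lit 250, nat_lit 12]⟩,
 zbF0, [⟨nat_lit 7, nat_lit 88, nat_lit 100, nat_lit 53, nat_lit 179304898⟩]⟩
noncomputable def p029_l112 : Lf2 := ⟨nat_lit 0, nat_lit 8, [nat_lit 50, nat_lit 5, nat_lit 5, nat_lit 20], true, nat_lit 0, nat_lit 80, nat_lit 0, nat_lit 320, ⟨nat_lit 0, nat_lit 542, nat_lit 458, nat_lit 6, nat_lit 264, nat_lit 0, nat_lit 18, nat_lit 0, nat_lit 150, nat_lit 218, nat_lit 221168, nat_lit 200, nat_lit 46723475, nat_lit 20276525, nat_lit 0, nat_lit 3065400, true, true⟩,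
 nat_lit 0, nat_lit 0, nat_lit 0, nat_lit 5070, nat_lit 4443, nat_lit 0, nat_lit 0, nat_lit 0, nat_lit 0, nat_lit 0, nat_lit 0, nat_lit 0, nat_lit 0, nat_lit 0, nat_lit 32, nat_lit 674800, nat_lit 0, nat_lit 0, [(nat_lit 9, [(nat_lit 1, nat_lit 542), (nat_lit 6, nat_lit 458)])],
 ⟨p029_k3, nat_lit 0, nat_lit 0, nat_lit 175, nat_lit 0, nat_lit 0, [nat_lit 3076592001, nat_lit 124463600], [], [nat_lit 20339086225, nat_lit 21216848313, nat_lit 23915915219, nat_lit 24621828209, nat_lit 18440442281, nat_lit 19272556669, nat_lit 21830422895, nat_lit 22589374438], nat_lit 0, nat_lit 0, nat_lit 0, nat_lit 0, nat_lit 0, nat_lit 0, [], [nat_lit 70, nat_lit 40, nat_lit 20, nat_lit 80, nat_lit 13, nat_lit 401, nat_lit 175, nat_lit 11]⟩, C1.Rw.none,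
 ⟨nat_lit 5477, nat_lit 5917, ⟨.ofNat (nat_lit 578514), .ofNat (nat_lit 735543), .ofNat (nat_lit 589179), .ofNat (nat_lit 746209), .ofNat (nat_lit 574913), .ofNat (nat_lit 724742), .ofNat (nat_lit 585588), .ofNat (nat_lit 735416)⟩, ⟨.negSucc (nat_lit 84722), .ofNat (nat_lit 72344), .negSucc (nat_lit 63383), .ofNat (nat_lit 93684), .negSucc (nat_lit 66879), .ofNat (nat_lit 82986), .negSucc (nat_lit 45522), .ofNat (nat_lit 104343)⟩⟩, []⟩
noncomputable def p029_l113 : Lf2 := ⟨nat_lit 0, nat_lit 8, [nat_lit 50, nat_lit 5, nat_lit 5, nat_lit 20], false, nat_lit 0, nat_lit 80, nat_lit 0, nat_lit 260, ⟨nat_lit 239, nat_lit 761, nat_lit 0, nat_lit 8, nat_lit 323, nat_lit 115, nat_lit 18, nat_lit 0, nat_lit 0, nat_lit 0, nat_lit 0, nat_lit 0, nat_lit 40521598, nat_lit 26478402, nat_lit 0, nat_lit 3355086, true, true⟩,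
 nat_lit 0, nat_lit 0, nat_lit 4893, nat_lit 0, nat_lit 4249, nat_lit 2097, nat_lit 1334, nat_lit 0, nat_lit 0, nat_lit 360, nat_lit 0, nat_lit 0, nat_lit 0, nat_lit 0, nat_lit 0, nat_lit 304400, nat_lit 0, nat_lit 0, [(nat_lit 9, [(nat_lit 1, nat_lit 761)])],
 ⟨p029_k7, nat_lit 0, nat_lit 0, nat_lit 213, nat_lit 0, nat_lit 0, [nat_lit 3177201920, nat_lit 3752702401, nat_lit 4595823199], [], [nat_lit 25415444779, nat_lit 26253289743, nat_lit 30139246011, nat_lit 30778977966, nat_lit 23588592959, nat_lit 24384937251, nat_lit 28042180435, nat_lit 28656607868], nat_lit 0, nat_lit 0, nat_lit 0, nat_lit 0, nat_lit 0, nat_lit 0, [], [nat_lit 11, nat_lit 40, nat_lit 20, nat_lit 80, nat_lit 1, nat_lit 317, nat_lit 100, nat_lit 8]⟩, ⟨p029_k36, nat_lit 0, nat_lit 0, nat_lit 662, nat_lit 0, nat_lit 873976, [nat_lit 1493750000, nat_lit 1904352000, nat_lit 2837408000], [], [nat_lit 9293739736, nat_lit 9299528944, nat_lit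 9916750191, nat_lit 9915377121, nat_lit 7845767837, nat_lit 7837376008, nat_lit 8316672426, nat_lit 8305225918], nat_lit 1271250, nat_lit 1271250, nat_lit 1271250, nat_lit 1271250, nat_lit 0, nat_lit 1836250, [nat_lit 1412500, nat_lit 1271250, nat_lit 1271250], [nat_lit 53, nat_lit 40, nat_lit 20, nat_lit 80, nat_lit 14, nat_lit 345, nat_lit 125, nat_lit 8]⟩,
 ⟨nat_lit 5477, nat_lit 5917, ⟨.ofNat (nat_lit 735543), .ofNat (nat_lit 884721), .ofNat (nat_lit 746209), .ofNat (nat_lit 895386), .ofNat (nat_lit 724742), .ofNat (nat_lit 867078), .ofNat (nat_lit 735416), .ofNat (nat_lit 877752)⟩, ⟨.negSucc (nat_lit 84722), .ofNat (nat_lit 72344), .negSucc (nat_lit 63383), .ofNat (nat_lit 93684), .negSucc (nat_lit 66879), .ofNat (nat_lit 82986), .negSucc (nat_lit 45522), .ofNat (nat_lit 104343)⟩⟩, [⟨nat_lit 13, nat_lit 94, nat_lit 33, nat_lit 100, nat_lit 111817937⟩, ⟨nat_lit 10, nat_lit 100, nat_lit 58, nat_lit 64,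 nat_lit 27032187⟩]⟩
noncomputable def p029_l114 : Lf2 := ⟨nat_lit 1, nat_lit 10, [nat_lit 0, nat_lit 5, nat_lit 5, nat_lit 20], false, nat_lit 0, nat_lit 80, nat_lit 0, nat_lit 320, zbN0,
 nat_lit 0, nat_lit 0, nat_lit 0, nat_lit 0, nat_lit 0, nat_lit 0, nat_lit 0, nat_lit 0, nat_lit 0, nat_lit 0, nat_lit 0, nat_lit 0, nat_lit 0, nat_lit 0, nat_lit 0, nat_lit 0, nat_lit 0, nat_lit 0, [],
 C1.Rw.none, C1.Rw.none,
 zbF0, []⟩
noncomputable def p029_l115 : Lf2 := ⟨nat_lit 0, nat_lit 10, [nat_lit 0, nat_lit 5, nat_lit 5, nat_lit 20], false, nat_lit 0, nat_lit 80, nat_lit 0, nat_lit 312, ⟨nat_lit 352, nat_lit 648, nat_lit 0, nat_lit 6, nat_lit 297, nat_lit 424, nat_lit 18, nat_lit 0, nat_lit 0, nat_lit 0, nat_lit 0, nat_lit 0, nat_lit 43197208, nat_lit 23802792, nat_lit 0, nat_lit 3253226, true, true⟩,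
 nat_lit 0, nat_lit 0, nat_lit 6447, nat_lit 0, nat_lit 4443, nat_lit 2921, nat_lit 1386, nat_lit 0, nat_lit 0, nat_lit 692, nat_lit 0, nat_lit 0, nat_lit 0, nat_lit 0, nat_lit 0, nat_lit 259200, nat_lit 0, nat_lit 0, [(nat_lit 9, [(nat_lit 1, nat_lit 648)])],
 ⟨p029_k37, nat_lit 0, nat_lit 0, nat_lit 213, nat_lit 0, nat_lit 0, [nat_lit 3401538561, nat_lit 4123523200, nat_lit 5353539200], [], [nat_lit 21804752135, nat_lit 22682514223, nat_lit 30631173869, nat_lit 31276870392, nat_lit 19906108191, nat_lit 20791292479, nat_lit 28386838160, nat_lit 29006768829], nat_lit 0, nat_lit 0, nat_lit 0, nat_lit 0, nat_lit 0, nat_lit 0, [], [nat_lit 11, nat_lit 40, nat_lit 20, nat_lit 80, nat_lit 1, nat_lit 428, nat_lit 200, nat_lit 12]⟩, ⟨p029_k38, nat_lit 0, nat_lit 0, nat_lit 680, nat_lit 0, nat_lit 898549, [nat_lit 2200000000, nat_lit 2804736000, nat_lit 4178944000], [], [nat_lit 12589274799, nat_lit 12619812818, nat_lit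 13987331132, nat_lit 13982341115, nat_lit 11511101179, nat_lit 11212833165, nat_lit 11944148881, nat_lit 11923858301], nat_lit 1271250, nat_lit 1271250, nat_lit 1271250, nat_lit 1271250, nat_lit 0, nat_lit 2203500, [nat_lit 1412500, nat_lit 1271250, nat_lit 1271250], [nat_lit 53, nat_lit 40, nat_lit 20, nat_lit 80, nat_lit 14, nat_lit 483, nat_lit 250, nat_lit 12]⟩,
 ⟨nat_lit 5477, nat_lit 5917, ⟨.ofNat (nat_lit 589179), .ofNat (nat_lit 895386), .ofNat (nat_lit 599845), .ofNat (nat_lit 906052), .ofNat (nat_lit 585588), .ofNat (nat_lit 877752), .ofNat (nat_lit 596262), .ofNat (nat_lit 888427)⟩, ⟨.negSucc (nat_lit 84722), .ofNat (nat_lit 72344), .negSucc (nat_lit 63383), .ofNat (nat_lit 93684), .negSucc (nat_lit 66879), .ofNat (nat_lit 82986), .negSucc (nat_lit 45522), .ofNat (nat_lit 104343)⟩⟩, [⟨nat_lit 10, nat_lit 100, nat_lit 66, nat_lit 62, nat_lit 38437981⟩, ⟨nat_lit 22, nat_lit 81, nat_lit 100, nat_lit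 60, nat_lit 32694382⟩]⟩
noncomputable def p029_l116 : Lf2 := ⟨nat_lit 0, nat_lit 10, [nat_lit 0, nat_lit 5, nat_lit 5, nat_lit 20], false, nat_lit 80, nat_lit 160, nat_lit 0, nat_lit 320, ⟨nat_lit 177, nat_lit 823, nat_lit 0, nat_lit 6, nat_lit 295, nat_lit 823, nat_lit 66, nat_lit 0, nat_lit 0, nat_lit 0, nat_lit 0, nat_lit 0, nat_lit 41785013, nat_lit 23001504, nat_lit 2213483, nat_lit 4033679, true, true⟩,
 nat_lit 0, nat_lit 0, nat_lit 3644, nat_lit 0, nat_lit 4921, nat_lit 1561, nat_lit 218, nat_lit 0, nat_lit 0, nat_lit 276, nat_lit 0, nat_lit 0, nat_lit 0, nat_lit 0, nat_lit 0, nat_lit 823000, nat_lit 0, nat_lit 0, [(nat_lit 9, [(nat_lit 2, nat_lit 823)])],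
 ⟨p029_k37, nat_lit 0, nat_lit 0, nat_lit 151, nat_lit 0, nat_lit 0, [nat_lit 3021809067, nat_lit 3300806934, nat_lit 1984256266], [], [nat_lit 19964281043, nat_lit 20827520879, nat_lit 27757936238, nat_lit 28385515222, nat_lit 20298395513, nat_lit 21069330319, nat_lit 27420279616, nat_lit 27989480566], nat_lit 0, nat_lit 0, nat_lit 0, nat_lit 0, nat_lit 0, nat_lit 0, [], [nat_lit 11, nat_lit 40, nat_lit 20, nat_lit 80, nat_lit 1, nat_lit 456, nat_lit 225, nat_lit 12]⟩, ⟨p029_k35, nat_lit 0, nat_lit 0, nat_lit 713, nat_lit 0, nat_lit 977067, [nat_lit 1106250000, nat_lit 1410336000, nat_lit 2101344000], [], [nat_lit 6660809532, nat_lit 6670914972, nat_lit 7348230826, nat_lit 7353151521, nat_lit 6156342580, nat_lit 5773520372, nat_lit 6200439716, nat_lit 6174023276], nat_lit 1271250, nat_lit 1271250, nat_lit 1271250, nat_lit 1271250, nat_lit 0, nat_lit 2260000, [nat_lit 1412500, nat_lit 1271250, nat_lit 1271250],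 [nat_lit 53, nat_lit 40, nat_lit 20, nat_lit 80, nat_lit 14, nat_lit 483, nat_lit 250, nat_lit 12]⟩,
 ⟨nat_lit 5477, nat_lit 5917, ⟨.ofNat (nat_lit 578514), .ofNat (nat_lit 884721), .ofNat (nat_lit 599845), .ofNat (nat_lit 906052), .ofNat (nat_lit 574913), .ofNat (nat_lit 867078), .ofNat (nat_lit 596262), .ofNat (nat_lit 888427)⟩, ⟨.ofNat (nat_lit 72344), .ofNat (nat_lit 229411), .ofNat (nat_lit 93684), .ofNat (nat_lit 250751), .ofNat (nat_lit 82986), .ofNat (nat_lit 232852), .ofNat (nat_lit 104343), .ofNat (nat_lit 254209)⟩⟩, [⟨nat_lit 10, nat_lit 100, nat_lit 21, nat_lit 94, nat_lit 66461183⟩, ⟨nat_lit 22, nat_lit 88, nat_lit 94, nat_lit 100, nat_lit 1399985⟩]⟩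
noncomputable def p029_l117 : Lf2 := ⟨nat_lit 0, nat_lit 10, [nat_lit 0, nat_lit 5, nat_lit 5, nat_lit 20], false, nat_lit 0, nat_lit 160, nat_lit 0, nat_lit 304, ⟨nat_lit 329, nat_lit 671, nat_lit 0, nat_lit 6, nat_lit 276, nat_lit 405, nat_lit 48, nat_lit 0, nat_lit 0, nat_lit 0, nat_lit 0, nat_lit 0, nat_lit 45431404, nat_lit 21568596, nat_lit 0, nat_lit 3141537, true, true⟩,
 nat_lit 0, nat_lit 0, nat_lit 6032, nat_lit 0, nat_lit 6101, nat_lit 2884, nat_lit 1453, nat_lit 0, nat_lit 0, nat_lit 672, nat_lit 0, nat_lit 0, nat_lit 0, nat_lit 0, nat_lit 0, nat_lit 268400, nat_lit 0, nat_lit 0, [(nat_lit 6, [(nat_lit 1, nat_lit 671)]), (nat_lit 9, [(nat_lit 1, nat_lit 671)])],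
 ⟨p029_k32, nat_lit 0, nat_lit 0, nat_lit 212, nat_lit 0, nat_lit 0, [nat_lit 3355877121, nat_lit 4357243201, nat_lit 5939018000], [], [nat_lit 21354513111, nat_lit 23400986003, nat_lit 25810726963, nat_lit 27388881929, nat_lit 17450943712, nat_lit 19349240922, nat_lit 21679898422, nat_lit 23316392829], nat_lit 0, nat_lit 0, nat_lit 0, nat_lit 0, nat_lit 0, nat_lit 0, [], [nat_lit 48, nat_lit 40, nat_lit 20, nat_lit 80, nat_lit 12, nat_lit 428, nat_lit 200, nat_lit 11]⟩, ⟨p029_k39, nat_lit 0, nat_lit 0, nat_lit 721, nat_lit 0, nat_lit 1010941, [nat_lit 2056250000, nat_lit 2621472000, nat_lit 3905888000], [], [nat_lit 10354530410, nat_lit 10373881924, nat_lit 10695621300, nat_lit 10687769484, nat_lit 9756077448, nat_lit 8698069689, nat_lit 8928017622, nat_lit 9000338172], nat_lit 1271250, nat_lit 1271250, nat_lit 1271250, nat_lit 1271250, nat_lit 0, nat_lit 2147000, [nat_lit 1412500, nat_lit 1271250, nat_lit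 1271250], [nat_lit 53, nat_lit 40, nat_lit 20, nat_lit 80, nat_lit 14, nat_lit 456, nat_lit 225, nat_lit 11]⟩,
 ⟨nat_lit 5477, nat_lit 6325, ⟨.ofNat (nat_lit 603514), .ofNat (nat_lit 767871), .ofNat (nat_lit 624852), .ofNat (nat_lit 789207), .ofNat (nat_lit 596172), .ofNat (nat_lit 745866), .ofNat (nat_lit 617499), .ofNat (nat_lit 767192)⟩, ⟨.negSucc (nat_lit 103633), .ofNat (nat_lit 225423), .negSucc (nat_lit 82265), .ofNat (nat_lit 246791), .negSucc (nat_lit 66879), .ofNat (nat_lit 232852), .negSucc (nat_lit 45522), .ofNat (nat_lit 254209)⟩⟩, [⟨nat_lit 7, nat_lit 93, nat_lit 100, nat_lit 53, nat_lit 26014261⟩, ⟨nat_lit 22, nat_lit 100, nat_lit 95, nat_lit 87, nat_lit 21106017⟩]⟩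
noncomputable def p029_l118 : Lf2 := ⟨nat_lit 0, nat_lit 10, [nat_lit 0, nat_lit 5, nat_lit 5, nat_lit 20], false, nat_lit 0, nat_lit 160, nat_lit 0, nat_lit 304, ⟨nat_lit 1000, nat_lit 0, nat_lit 0, nat_lit 0, nat_lit 0, nat_lit 0, nat_lit 0, nat_lit 0, nat_lit 0, nat_lit 0, nat_lit 0, nat_lit 0, nat_lit 0, nat_lit 0, nat_lit 0, nat_lit 0, false, false⟩,
 nat_lit 0, nat_lit 0, nat_lit 16190, nat_lit 0, nat_lit 7572, nat_lit 7742, nat_lit 2279, nat_lit 0, nat_lit 0, nat_lit 2245, nat_lit 0, nat_lit 0, nat_lit 0, nat_lit 0, nat_lit 0, nat_lit 0, nat_lit 0, nat_lit 0, [],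
 ⟨p029_k32, nat_lit 0, nat_lit 0, nat_lit 239, nat_lit 0, nat_lit 0, [nat_lit 4688000000, nat_lit 6250000000, nat_lit 11872000000], [], [nat_lit 28660850361, nat_lit 29508051049, nat_lit 37774017024, nat_lit 38802972688, nat_lit 22265557561, nat_lit 22985680296, nat_lit 29273383840, nat_lit 30193474688], nat_lit 0, nat_lit 0, nat_lit 0, nat_lit 0, nat_lit 0, nat_lit 0, [], [nat_lit 48, nat_lit 40, nat_lit 20, nat_lit 80, nat_lit 12, nat_lit 345, nat_lit 125, nat_lit 8]⟩, ⟨p029_k39, nat_lit 0, nat_lit 0, nat_lit 563, nat_lit 0, nat_lit 692873, [nat_lit 6250000000, nat_lit 7968000000, nat_lit 11872000000], [], [nat_lit 35570127654, nat_lit 35698561902, nat_lit 38160663454, nat_lit 38205382828, nat_lit 31661847842, nat_lit 31707913623, nat_lit 33656358437, nat_lit 33614894557], nat_lit 1271250, nat_lit 1271250, nat_lit 1271250, nat_lit 1271250, nat_lit 0, nat_lit 2147000, [nat_lit 1412500, nat_lit 1271250, nat_lit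 1271250], [nat_lit 53, nat_lit 40, nat_lit 20, nat_lit 80, nat_lit 14, nat_lit 373, nat_lit 150, nat_lit 9]⟩,
 zbF0, [⟨nat_lit 7, nat_lit 93, nat_lit 100, nat_lit 53, nat_lit 41914276⟩, ⟨nat_lit 22, nat_lit 60, nat_lit 100, nat_lit 80, nat_lit 174737881⟩]⟩
noncomputable def p029_l119 : Lf2 := ⟨nat_lit 0, nat_lit 10, [nat_lit 0, nat_lit 5, nat_lit 5, nat_lit 20], false, nat_lit 0, nat_lit 160, nat_lit 0, nat_lit 304, ⟨nat_lit 323, nat_lit 677, nat_lit 0, nat_lit 8, nat_lit 336, nat_lit 677, nat_lit 48, nat_lit 0, nat_lit 0, nat_lit 0, nat_lit 0, nat_lit 0, nat_lit 39326246, nat_lit 27673754, nat_lit 0, nat_lit 3389730, true, true⟩,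
 nat_lit 0, nat_lit 0, nat_lit 5311, nat_lit 0, nat_lit 4778, nat_lit 2540, nat_lit 1133, nat_lit 0, nat_lit 0, nat_lit 680, nat_lit 0, nat_lit 0, nat_lit 0, nat_lit 0, nat_lit 0, nat_lit 270800, nat_lit 0, nat_lit 0, [(nat_lit 9, [(nat_lit 1, nat_lit 677)])],
 ⟨p029_k37, nat_lit 0, nat_lit 0, nat_lit 215, nat_lit 0, nat_lit 0, [nat_lit 3343965441, nat_lit 4028356801, nat_lit 5157682399], [], [nat_lit 25890497543, nat_lit 26610457083, nat_lit 31649762712, nat_lit 32521103248, nat_lit 23656174621, nat_lit 24397946825, nat_lit 28150776233, nat_lit 28707958025], nat_lit 0, nat_lit 0, nat_lit 0, nat_lit 0, nat_lit 0, nat_lit 0, [], [nat_lit 11, nat_lit 40, nat_lit 20, nat_lit 80, nat_lit 1, nat_lit 345, nat_lit 125, nat_lit 9]⟩, ⟨p029_k39, nat_lit 0, nat_lit 0, nat_lit 708, nat_lit 0, nat_lit 1010941, [nat_lit 2018750000, nat_lit 2573664000, nat_lit 3834656000], [], [nat_lit 11936384266, nat_lit 11931628528, nat_lit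 12535282938, nat_lit 12528199224, nat_lit 10477195233, nat_lit 10468757532, nat_lit 10958407968, nat_lit 10926706110], nat_lit 1271250, nat_lit 1271250, nat_lit 1271250, nat_lit 1271250, nat_lit 0, nat_lit 2147000, [nat_lit 1412500, nat_lit 1271250, nat_lit 1271250], [nat_lit 53, nat_lit 40, nat_lit 20, nat_lit 80, nat_lit 14, nat_lit 373, nat_lit 150, nat_lit 9]⟩,
 ⟨nat_lit 5477, nat_lit 5917, ⟨.ofNat (nat_lit 756874), .ofNat (nat_lit 913903), .ofNat (nat_lit 778206), .ofNat (nat_lit 935234), .ofNat (nat_lit 746090), .ofNat (nat_lit 895918), .ofNat (nat_lit 767439), .ofNat (nat_lit 917267)⟩, ⟨.negSucc (nat_lit 84722), .ofNat (nat_lit 229411), .negSucc (nat_lit 63383), .ofNat (nat_lit 250751), .negSucc (nat_lit 66879), .ofNat (nat_lit 232852), .negSucc (nat_lit 45522), .ofNat (nat_lit 254209)⟩⟩, [⟨nat_lit 10, nat_lit 100, nat_lit 40, nat_lit 82, nat_lit 98235346⟩]⟩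
noncomputable def p029_l120 : Lf2 := ⟨nat_lit 0, nat_lit 10, [nat_lit 0, nat_lit 5, nat_lit 5, nat_lit 20], true, nat_lit 160, nat_lit 288, nat_lit 0, nat_lit 320, ⟨nat_lit 0, nat_lit 1000, nat_lit 0, nat_lit 6, nat_lit 271, nat_lit 1000, nat_lit 146, nat_lit 0, nat_lit 0, nat_lit 0, nat_lit 0, nat_lit 0, nat_lit 40245117, nat_lit 19477122, nat_lit 7277761, nat_lit 4855131, true, true⟩,
 nat_lit 0, nat_lit 0, nat_lit 0, nat_lit 2767, nat_lit 5046, nat_lit 0, nat_lit 0, nat_lit 0, nat_lit 0, nat_lit 0, nat_lit 0, nat_lit 0, nat_lit 0, nat_lit 0, nat_lit 0, nat_lit 250000, nat_lit 0, nat_lit 0, [(nat_lit 6, [(nat_lit 0, nat_lit 1000)]), (nat_lit 9, [(nat_lit 0, nat_lit 1000)])],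
 ⟨p029_k24, nat_lit 0, nat_lit 0, nat_lit 38, nat_lit 0, nat_lit 0, [nat_lit 3128000000, nat_lit 3904533334], [], [nat_lit 15049104704, nat_lit 17477868520, nat_lit 20197281728, nat_lit 22118819176, nat_lit 20711152418, nat_lit 22506814527, nat_lit 24567445300, nat_lit 26217992845], nat_lit 0, nat_lit 0, nat_lit 0, nat_lit 0, nat_lit 0, nat_lit 0, [], [nat_lit 116, nat_lit 40, nat_lit 20, nat_lit 80, nat_lit 65, nat_lit 456, nat_lit 225, nat_lit 11]⟩, C1.Rw.none,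
 ⟨nat_lit 5477, nat_lit 6325, ⟨.ofNat (nat_lit 582178), .ofNat (nat_lit 746534), .ofNat (nat_lit 624852), .ofNat (nat_lit 789207), .ofNat (nat_lit 574846), .ofNat (nat_lit 724540), .ofNat (nat_lit 617499), .ofNat (nat_lit 767192)⟩, ⟨.ofNat (nat_lit 225423), .ofNat (nat_lit 488669), .ofNat (nat_lit 246791), .ofNat (nat_lit 510037), .ofNat (nat_lit 232852), .ofNat (nat_lit 472638), .ofNat (nat_lit 254209), .ofNat (nat_lit 493995)⟩⟩, [⟨nat_lit 16, nat_lit 100, nat_lit 92, nat_lit 61, nat_lit 192161554⟩]⟩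
noncomputable def p029_l121 : Lf2 := ⟨nat_lit 0, nat_lit 10, [nat_lit 0, nat_lit 5, nat_lit 5, nat_lit 20], false, nat_lit 160, nat_lit 288, nat_lit 16, nat_lit 320, ⟨nat_lit 134, nat_lit 866, nat_lit 0, nat_lit 8, nat_lit 337, nat_lit 866, nat_lit 147, nat_lit 0, nat_lit 0, nat_lit 0, nat_lit 0, nat_lit 0, nat_lit 35006217, nat_lit 25360382, nat_lit 6633401, nat_lit 5001589, true, true⟩,
 nat_lit 0, nat_lit 0, nat_lit 2722, nat_lit 0, nat_lit 4243, nat_lit 1166, nat_lit 0, nat_lit 0, nat_lit 0, nat_lit 203, nat_lit 0, nat_lit 0, nat_lit 0, nat_lit 0, nat_lit 0, nat_lit 346400, nat_lit 0, nat_lit 0, [(nat_lit 6, [(nat_lit 1, nat_lit 866)])],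
 ⟨p029_k32, nat_lit 0, nat_lit 0, nat_lit 80, nat_lit 0, nat_lit 0, [nat_lit 2959694934, nat_lit 3807187200, nat_lit 4214828000], [], [nat_lit 20765192758, nat_lit 21664536800, nat_lit 26303849234, nat_lit 26977332730, nat_lit 24971104928, nat_lit 25652382183, nat_lit 29330571471, nat_lit 29843113679], nat_lit 0, nat_lit 0, nat_lit 0, nat_lit 0, nat_lit 0, nat_lit 0, [], [nat_lit 48, nat_lit 40, nat_lit 20, nat_lit 80, nat_lit 12, nat_lit 373, nat_lit 150, nat_lit 9]⟩, ⟨p029_k35, nat_lit 0, nat_lit 0, nat_lit 600, nat_lit 0, nat_lit 815033, [nat_lit 837500000, nat_lit 1067712000, nat_lit 1590848000], [], [nat_lit 5134650426, nat_lit 5134828086, nat_lit 5490084028, nat_lit 5494594311, nat_lit 4522184488, nat_lit 4506866104, nat_lit 4774153944, nat_lit 4739732976], nat_lit 1271250, nat_lit 1271250, nat_lit 1271250, nat_lit 1271250, nat_lit 88400, nat_lit 2281000, [nat_lit 1412500, nat_lit 1271250, nat_lit 1271250],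 [nat_lit 53, nat_lit 40, nat_lit 20, nat_lit 80, nat_lit 14, nat_lit 373, nat_lit 150, nat_lit 9]⟩,
 ⟨nat_lit 5916, nat_lit 6325, ⟨.ofNat (nat_lit 746719), .ofNat (nat_lit 911200), .ofNat (nat_lit 789440), .ofNat (nat_lit 953920), .ofNat (nat_lit 735527), .ofNat (nat_lit 892546), .ofNat (nat_lit 778191), .ofNat (nat_lit 935210)⟩, ⟨.ofNat (nat_lit 225423), .ofNat (nat_lit 488669), .ofNat (nat_lit 246791), .ofNat (nat_lit 510037), .ofNat (nat_lit 229411), .ofNat (nat_lit 480719), .ofNat (nat_lit 250751), .ofNat (nat_lit 502058)⟩⟩, [⟨nat_lit 13, nat_lit 97, nat_lit 15, nat_lit 100, nat_lit 122901077⟩, ⟨nat_lit 4, nat_lit 99, nat_lit 100, nat_lit 54, nat_lit 199496146⟩, ⟨nat_lit 19, nat_lit 100, nat_lit 90, nat_lit 53, nat_lit 24369757⟩]⟩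
noncomputable def p029_l122 : Lf2 := ⟨nat_lit 0, nat_lit 10, [nat_lit 0, nat_lit 5, nat_lit 5, nat_lit 20], false, nat_lit 160, nat_lit 268, nat_lit 16, nat_lit 320, ⟨nat_lit 96, nat_lit 904, nat_lit 0, nat_lit 8, nat_lit 331, nat_lit 904, nat_lit 138, nat_lit 0, nat_lit 0, nat_lit 0, nat_lit 0, nat_lit 0, nat_lit 35795179, nat_lit 25056057, nat_lit 6148764, nat_lit 4918716, true, true⟩,
 nat_lit 0, nat_lit 0, nat_lit 1968, nat_lit 0, nat_lit 4200, nat_lit 843, nat_lit 0, nat_lit 0, nat_lit 0, nat_lit 140, nat_lit 0, nat_lit 0, nat_lit 0, nat_lit 0, nat_lit 0, nat_lit 361600, nat_lit 0, nat_lit 0, [(nat_lit 9, [(nat_lit 1, nat_lit 904)])],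
 ⟨p029_k37, nat_lit 0, nat_lit 0, nat_lit 82, nat_lit 0, nat_lit 0, [nat_lit 2893306880, nat_lit 3283433601, nat_lit 3639324799], [], [nat_lit 21634283280, nat_lit 22530338080, nat_lit 26919623280, nat_lit 27591555680, nat_lit 24828668241, nat_lit 25544825960, nat_lit 29181945660, nat_lit 29721552441], nat_lit 0, nat_lit 0, nat_lit 0, nat_lit 0, nat_lit 0, nat_lit 0, [], [nat_lit 11, nat_lit 40, nat_lit 20, nat_lit 80, nat_lit 1, nat_lit 373, nat_lit 150, nat_lit 10]⟩, ⟨p029_k35, nat_lit 0, nat_lit 0, nat_lit 785, nat_lit 0, nat_lit 1190418, [nat_lit 600000000, nat_lit 764928000, nat_lit 1139712000], [], [nat_lit 3827767966, nat_lit 3816984596, nat_lit 4023311664, nat_lit 4006833529, nat_lit 3332367960, nat_lit 3304741344, nat_lit 3449038608, nat_lit 3407994960], nat_lit 1271250, nat_lit 1271250, nat_lit 1271250, nat_lit 1271250, nat_lit 88400, nat_lit 2281000, [nat_lit 1412500, nat_lit 1271250, nat_lit 1271250],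 [nat_lit 53, nat_lit 40, nat_lit 20, nat_lit 80, nat_lit 14, nat_lit 373, nat_lit 150, nat_lit 9]⟩,
 ⟨nat_lit 5477, nat_lit 5917, ⟨.ofNat (nat_lit 735543), .ofNat (nat_lit 892572), .ofNat (nat_lit 778206), .ofNat (nat_lit 935234), .ofNat (nat_lit 724742), .ofNat (nat_lit 874569), .ofNat (nat_lit 767439), .ofNat (nat_lit 917267)⟩, ⟨.ofNat (nat_lit 229411), .ofNat (nat_lit 441452), .ofNat (nat_lit 250751), .ofNat (nat_lit 462791), .ofNat (nat_lit 232852), .ofNat (nat_lit 435171), .ofNat (nat_lit 254209), .ofNat (nat_lit 456528)⟩⟩, [⟨nat_lit 13, nat_lit 97, nat_lit 11, nat_lit 100, nat_lit 147956816⟩, ⟨nat_lit 16, nat_lit 96, nat_lit 100, nat_lit 54, nat_lit 185118049⟩, ⟨nat_lit 7, nat_lit 90, nat_lit 100, nat_lit 53, nat_lit 15697414⟩]⟩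
noncomputable def b_VL_600_500_5_2 : St := ⟨true, nat_lit 0, nat_lit 1, nat_lit 1, nat_lit 40, nat_lit 240, nat_lit 280, nat_lit 200, nat_lit 240, nat_lit 240, nat_lit 400, nat_lit 20, nat_lit 40, nat_lit 0, nat_lit 288, nat_lit 0, nat_lit 320, nat_lit 0, nat_lit 40, nat_lit 0, nat_lit 0, nat_lit 0, nat_lit 0⟩
theorem d_VL_600_500_5_2 (h : EB TB.env) : Dead b_VL_600_500_5_2 := chkB_sound0 h (T :=
(.spl (nat_lit 4) (nat_lit 160)
(.spl (nat_lit 1) (nat_lit 220)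
(.spl (nat_lit 0) (nat_lit 260)
(.leaf p029_l111)
(.trX (nat_lit 13) (nat_lit 96) (nat_lit 20) (nat_lit 100) (nat_lit 396) (.spl (nat_lit 4) (nat_lit 80)
(.spl (nat_lit 1) (nat_lit 210)
(.spl (nat_lit 6) (nat_lit 32)
(.spl (nat_lit 2) (nat_lit 320)
(.leaf p029_l112)
(.trX (nat_lit 22) (nat_lit 83) (nat_lit 100) (nat_lit 83) (nat_lit 260) (.leaf p029_l113)))
(.leaf p029_l114))
(.trX (nat_lit 19) (nat_lit 100) (nat_lit 83) (nat_lit 60) (nat_lit 312) (.leaf p029_l115)))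
(.leaf p029_l116))))
(.trX (nat_lit 19) (nat_lit 100) (nat_lit 86) (nat_lit 60) (nat_lit 304) (.spl (nat_lit 2) (nat_lit 320)
(.leaf p029_l117)
(.spl (nat_lit 0) (nat_lit 260)
(.leaf p029_l118)
(.leaf p029_l119)))))
(.spl (nat_lit 2) (nat_lit 320)
(.leaf p029_l120)
(.trZ (nat_lit 9) (nat_lit 100) (nat_lit 82) (nat_lit 44) (nat_lit 16) (.spl (nat_lit 0) (nat_lit 260)
(.leaf p029_l121)
(.trX (nat_lit 16) (nat_lit 100) (nat_lit 99) (nat_lit 63) (nat_lit 268) (.leaf p029_l122))))))) (by decide +kernel)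
noncomputable def p029_l123 : Lf2 := ⟨nat_lit 0, nat_lit 10, [nat_lit 0, nat_lit 5, nat_lit 5, nat_lit 20], true, nat_lit 0, nat_lit 288, nat_lit 0, nat_lit 320, ⟨nat_lit 0, nat_lit 1000, nat_lit 0, nat_lit 5, nat_lit 147, nat_lit 1000, nat_lit 98, nat_lit 0, nat_lit 0, nat_lit 0, nat_lit 0, nat_lit 0, nat_lit 0, nat_lit 0, nat_lit 0, nat_lit 5000000, false, false⟩,
 nat_lit 0, nat_lit 0, nat_lit 0, nat_lit 7611, nat_lit 6087, nat_lit 0, nat_lit 0, nat_lit 0, nat_lit 0, nat_lit 0, nat_lit 0, nat_lit 0, nat_lit 0, nat_lit 0, nat_lit 0, nat_lit 1000000, nat_lit 0, nat_lit 0, [(nat_lit 6, [(nat_lit 2, nat_lit 1000)]), (nat_lit 9, [(nat_lit 2, nat_lit 1000)])],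
 ⟨p029_k24, nat_lit 0, nat_lit 0, nat_lit 361, nat_lit 0, nat_lit 0, [nat_lit 4196720001, nat_lit 351279999], [], [nat_lit 27201531333, nat_lit 28775948834, nat_lit 24243582607, nat_lit 25348516165, nat_lit 25566243446, nat_lit 26833308578, nat_lit 23547128361, nat_lit 24845012023], nat_lit 0, nat_lit 0, nat_lit 0, nat_lit 0, nat_lit 0, nat_lit 0, [], [nat_lit 116, nat_lit 40, nat_lit 20, nat_lit 80, nat_lit 65, nat_lit 456, nat_lit 225, nat_lit 12]⟩, C1.Rw.none,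
 ⟨nat_lit 5477, nat_lit 6325, ⟨.ofNat (nat_lit 96904), .ofNat (nat_lit 582178), .ofNat (nat_lit 139640), .ofNat (nat_lit 624852), .ofNat (nat_lit 132827), .ofNat (nat_lit 574846), .ofNat (nat_lit 175541), .ofNat (nat_lit 617499)⟩, ⟨.negSucc (nat_lit 103633), .ofNat (nat_lit 488669), .negSucc (nat_lit 82265), .ofNat (nat_lit 510037), .negSucc (nat_lit 66879), .ofNat (nat_lit 472638), .negSucc (nat_lit 45522), .ofNat (nat_lit 493995)⟩⟩, [⟨nat_lit 0, nat_lit 100, nat_lit 94, nat_lit 59, nat_lit 24562907⟩, ⟨nat_lit 4, nat_lit 100, nat_lit 98, nat_lit 54, nat_lit 42310662⟩]⟩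
noncomputable def p029_l124 : Lf2 := ⟨nat_lit 0, nat_lit 10, [nat_lit 0, nat_lit 5, nat_lit 5, nat_lit 20], false, nat_lit 0, nat_lit 288, nat_lit 0, nat_lit 320, ⟨nat_lit 798, nat_lit 202, nat_lit 0, nat_lit 6, nat_lit 303, nat_lit 202, nat_lit 98, nat_lit 0, nat_lit 0, nat_lit 0, nat_lit 0, nat_lit 0, nat_lit 0, nat_lit 0, nat_lit 0, nat_lit 5000000, true, true⟩,
 nat_lit 0, nat_lit 0, nat_lit 0, nat_lit 3589, nat_lit 9294, nat_lit 10004, nat_lit 0, nat_lit 0, nat_lit 0, nat_lit 0, nat_lit 0, nat_lit 0, nat_lit 0, nat_lit 0, nat_lit 0, nat_lit 202000, nat_lit 0, nat_lit 0, [(nat_lit 6, [(nat_lit 2, nat_lit 202)]), (nat_lit 9, [(nat_lit 2, nat_lit 202)])],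
 ⟨p029_k24, nat_lit 0, nat_lit 0, nat_lit 229, nat_lit 0, nat_lit 0, [nat_lit 4588761440, nat_lit 9480885600], [], [nat_lit 32667018584, nat_lit 35172300032, nat_lit 45510383584, nat_lit 46636227200, nat_lit 29165210346, nat_lit 30565657317, nat_lit 36995762855, nat_lit 37530124271], nat_lit 0, nat_lit 0, nat_lit 0, nat_lit 0, nat_lit 0, nat_lit 0, [], [nat_lit 116, nat_lit 40, nat_lit 20, nat_lit 80, nat_lit 65, nat_lit 483, nat_lit 250, nat_lit 12]⟩, ⟨p029_k25, nat_lit 0, nat_lit 0, nat_lit 243, nat_lit 0, nat_lit 0, [nat_lit 4987500000, nat_lit 9473856000], [], [nat_lit 26944538912, nat_lit 28632644864, nat_lit 40763418208, nat_lit 41100335344, nat_lit 24038744640, nat_lit 24584391080, nat_lit 31293154232, nat_lit 31626479344], nat_lit 0, nat_lit 0, nat_lit 0, nat_lit 0, nat_lit 0, nat_lit 0, [], [nat_lit 107, nat_lit 40, nat_lit 20, nat_lit 80, nat_lit 12, nat_lit 483, nat_lit 250, nat_lit 12]⟩,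
 ⟨nat_lit 5477, nat_lit 6325, ⟨.ofNat (nat_lit 582178), .ofNat (nat_lit 910890), .ofNat (nat_lit 624852), .ofNat (nat_lit 953563), .ofNat (nat_lit 574846), .ofNat (nat_lit 874234), .ofNat (nat_lit 617499), .ofNat (nat_lit 916886)⟩, ⟨.negSucc (nat_lit 103633), .ofNat (nat_lit 488669), .negSucc (nat_lit 82265), .ofNat (nat_lit 510037), .negSucc (nat_lit 66879), .ofNat (nat_lit 472638), .negSucc (nat_lit 45522), .ofNat (nat_lit 493995)⟩⟩, [⟨nat_lit 13, nat_lit 96, nat_lit 20, nat_lit 100, nat_lit 63333334⟩]⟩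
noncomputable def p029_l125 : Lf2 := ⟨nat_lit 0, nat_lit 10, [nat_lit 0, nat_lit 5, nat_lit 5, nat_lit 20], false, nat_lit 0, nat_lit 160, nat_lit 0, nat_lit 320, ⟨nat_lit 59, nat_lit 941, nat_lit 0, nat_lit 5, nat_lit 210, nat_lit 919, nat_lit 48, nat_lit 0, nat_lit 0, nat_lit 0, nat_lit 0, nat_lit 0, nat_lit 0, nat_lit 0, nat_lit 0, nat_lit 5000000, false, true⟩,
 nat_lit 0, nat_lit 0, nat_lit 1184, nat_lit 5550, nat_lit 4945, nat_lit 507, nat_lit 81, nat_lit 0, nat_lit 0, nat_lit 78, nat_lit 0, nat_lit 0, nat_lit 0, nat_lit 0, nat_lit 0, nat_lit 941000, nat_lit 0, nat_lit 0, [(nat_lit 6, [(nat_lit 2, nat_lit 941)])],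
 ⟨p029_k32, nat_lit 0, nat_lit 0, nat_lit 365, nat_lit 0, nat_lit 0, [nat_lit 2929459201, nat_lit 3624233601, nat_lit 733194800], [], [nat_lit 24796748821, nat_lit 25679816082, nat_lit 31542321695, nat_lit 32077316780, nat_lit 22883477598, nat_lit 23632328545, nat_lit 29055828063, nat_lit 29498257113], nat_lit 0, nat_lit 0, nat_lit 0, nat_lit 0, nat_lit 0, nat_lit 0, [], [nat_lit 48, nat_lit 40, nat_lit 20, nat_lit 80, nat_lit 12, nat_lit 456, nat_lit 225, nat_lit 12]⟩, ⟨p029_k35, nat_lit 0, nat_lit 0, nat_lit 783, nat_lit 0, nat_lit 815033, [nat_lit 368750000, nat_lit 470112000, nat_lit 700448000], [], [nat_lit 4293030551, nat_lit 3732058981, nat_lit 2569925010, nat_lit 2563852340, nat_lit 2452505705, nat_lit 2438243205, nat_lit 3796145636, nat_lit 3359642972], nat_lit 1271250, nat_lit 1271250, nat_lit 21650, nat_lit 2833250, nat_lit 0, nat_lit 2260000, [nat_lit 1412500, nat_lit 1271250, nat_lit 1271250],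 [nat_lit 53, nat_lit 40, nat_lit 20, nat_lit 80, nat_lit 14, nat_lit 483, nat_lit 250, nat_lit 13]⟩,
 ⟨nat_lit 5916, nat_lit 6325, ⟨.ofNat (nat_lit 96904), .ofNat (nat_lit 911200), .ofNat (nat_lit 139640), .ofNat (nat_lit 953920), .ofNat (nat_lit 115184), .ofNat (nat_lit 892546), .ofNat (nat_lit 157863), .ofNat (nat_lit 935210)⟩, ⟨.negSucc (nat_lit 103633), .ofNat (nat_lit 225423), .negSucc (nat_lit 82265), .ofNat (nat_lit 246791), .negSucc (nat_lit 84722), .ofNat (nat_lit 229411), .negSucc (nat_lit 63383), .ofNat (nat_lit 250751)⟩⟩, [⟨nat_lit 10, nat_lit 100, nat_lit 44, nat_lit 82, nat_lit 64784827⟩]⟩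
noncomputable def p029_l126 : Lf2 := ⟨nat_lit 0, nat_lit 10, [nat_lit 0, nat_lit 5, nat_lit 5, nat_lit 20], true, nat_lit 0, nat_lit 160, nat_lit 0, nat_lit 320, ⟨nat_lit 0, nat_lit 1000, nat_lit 0, nat_lit 5, nat_lit 212, nat_lit 535, nat_lit 48, nat_lit 0, nat_lit 0, nat_lit 0, nat_lit 0, nat_lit 0, nat_lit 0, nat_lit 0, nat_lit 0, nat_lit 5000000, false, true⟩,
 nat_lit 0, nat_lit 0, nat_lit 0, nat_lit 4911, nat_lit 4886, nat_lit 0, nat_lit 0, nat_lit 0, nat_lit 0, nat_lit 0, nat_lit 0, nat_lit 0, nat_lit 0, nat_lit 0, nat_lit 0, nat_lit 597400, nat_lit 0, nat_lit 0, [(nat_lit 9, [(nat_lit 1, nat_lit 671), (nat_lit 2, nat_lit 329)])],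
 ⟨p029_k23, nat_lit 0, nat_lit 0, nat_lit 294, nat_lit 0, nat_lit 0, [nat_lit 3344548001, nat_lit 2068782400], [], [nat_lit 26890232187, nat_lit 27707439941, nat_lit 32270199265, nat_lit 32803697776, nat_lit 24820383925, nat_lit 25513642337, nat_lit 29343746349, nat_lit 29736274050], nat_lit 0, nat_lit 0, nat_lit 0, nat_lit 0, nat_lit 0, nat_lit 0, [], [nat_lit 70, nat_lit 40, nat_lit 20, nat_lit 80, nat_lit 13, nat_lit 456, nat_lit 225, nat_lit 14]⟩, C1.Rw.none,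
 ⟨nat_lit 5477, nat_lit 5917, ⟨.ofNat (nat_lit 123037), .ofNat (nat_lit 892572), .ofNat (nat_lit 165716), .ofNat (nat_lit 935234), .ofNat (nat_lit 140320), .ofNat (nat_lit 874569), .ofNat (nat_lit 183034), .ofNat (nat_lit 917267)⟩, ⟨.negSucc (nat_lit 84722), .ofNat (nat_lit 229411), .negSucc (nat_lit 63383), .ofNat (nat_lit 250751), .negSucc (nat_lit 66879), .ofNat (nat_lit 232852), .negSucc (nat_lit 45522), .ofNat (nat_lit 254209)⟩⟩, [⟨nat_lit 13, nat_lit 97, nat_lit 11, nat_lit 100, nat_lit 93633714⟩]⟩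
noncomputable def p029_l127 : Lf2 := ⟨nat_lit 0, nat_lit 10, [nat_lit 0, nat_lit 5, nat_lit 5, nat_lit 20], true, nat_lit 160, nat_lit 288, nat_lit 0, nat_lit 320, ⟨nat_lit 0, nat_lit 1000, nat_lit 0, nat_lit 5, nat_lit 147, nat_lit 1000, nat_lit 146, nat_lit 0, nat_lit 0, nat_lit 0, nat_lit 0, nat_lit 0, nat_lit 0, nat_lit 0, nat_lit 0, nat_lit 5000000, false, false⟩,
 nat_lit 0, nat_lit 0, nat_lit 0, nat_lit 8035, nat_lit 6004, nat_lit 0, nat_lit 0, nat_lit 0, nat_lit 0, nat_lit 0, nat_lit 0, nat_lit 0, nat_lit 0, nat_lit 0, nat_lit 0, nat_lit 1000000, nat_lit 0, nat_lit 0, [(nat_lit 6, [(nat_lit 2, nat_lit 1000)]), (nat_lit 9, [(nat_lit 2, nat_lit 1000)])],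
 ⟨p029_k24, nat_lit 0, nat_lit 0, nat_lit 194, nat_lit 0, nat_lit 0, [nat_lit 4196720001, nat_lit 351279999], [], [nat_lit 20471517226, nat_lit 22537857786, nat_lit 19846108464, nat_lit 21300551088, nat_lit 25037683711, nat_lit 26790738632, nat_lit 22969928871, nat_lit 24020893361], nat_lit 0, nat_lit 0, nat_lit 0, nat_lit 0, nat_lit 0, nat_lit 0, [], [nat_lit 116, nat_lit 40, nat_lit 20, nat_lit 80, nat_lit 65, nat_lit 456, nat_lit 225, nat_lit 12]⟩, C1.Rw.none,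
 ⟨nat_lit 5477, nat_lit 6325, ⟨.ofNat (nat_lit 96904), .ofNat (nat_lit 582178), .ofNat (nat_lit 139640), .ofNat (nat_lit 624852), .ofNat (nat_lit 132827), .ofNat (nat_lit 574846), .ofNat (nat_lit 175541), .ofNat (nat_lit 617499)⟩, ⟨.ofNat (nat_lit 225423), .ofNat (nat_lit 488669), .ofNat (nat_lit 246791), .ofNat (nat_lit 510037), .ofNat (nat_lit 232852), .ofNat (nat_lit 472638), .ofNat (nat_lit 254209), .ofNat (nat_lit 493995)⟩⟩, [⟨nat_lit 0, nat_lit 100, nat_lit 96, nat_lit 40, nat_lit 7656870⟩, ⟨nat_lit 16, nat_lit 100, nat_lit 92, nat_lit 61, nat_lit 328798412⟩, ⟨nat_lit 4, nat_lit 100, nat_lit 98, nat_lit 54, nat_lit 89789306⟩]⟩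
noncomputable def p029_l128 : Lf2 := ⟨nat_lit 0, nat_lit 10, [nat_lit 0, nat_lit 5, nat_lit 5, nat_lit 20], true, nat_lit 160, nat_lit 288, nat_lit 0, nat_lit 320, ⟨nat_lit 0, nat_lit 1000, nat_lit 0, nat_lit 6, nat_lit 303, nat_lit 1000, nat_lit 146, nat_lit 0, nat_lit 0, nat_lit 0, nat_lit 0, nat_lit 0, nat_lit 0, nat_lit 0, nat_lit 0, nat_lit 5000000, true, true⟩,
 nat_lit 0, nat_lit 0, nat_lit 0, nat_lit 3820, nat_lit 4092, nat_lit 0, nat_lit 0, nat_lit 0, nat_lit 0, nat_lit 0, nat_lit 0, nat_lit 0, nat_lit 0, nat_lit 0, nat_lit 0, nat_lit 400000, nat_lit 0, nat_lit 0, [(nat_lit 6, [(nat_lit 1, nat_lit 1000)]), (nat_lit 9, [(nat_lit 1, nat_lit 1000)])],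
 ⟨p029_k32, nat_lit 0, nat_lit 0, nat_lit 82, nat_lit 0, nat_lit 0, [nat_lit 2702720000, nat_lit 3429200000, nat_lit 3039200000], [], [nat_lit 15989357408, nat_lit 18196797040, nat_lit 26082797200, nat_lit 27418870448, nat_lit 21266808036, nat_lit 22933744253, nat_lit 29110115584, nat_lit 30257396301], nat_lit 0, nat_lit 0, nat_lit 0, nat_lit 0, nat_lit 0, nat_lit 0, [], [nat_lit 48, nat_lit 40, nat_lit 20, nat_lit 80, nat_lit 12, nat_lit 483, nat_lit 250, nat_lit 12]⟩, C1.Rw.none,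
 ⟨nat_lit 5477, nat_lit 6325, ⟨.ofNat (nat_lit 582178), .ofNat (nat_lit 910890), .ofNat (nat_lit 624852), .ofNat (nat_lit 953563), .ofNat (nat_lit 574846), .ofNat (nat_lit 874234), .ofNat (nat_lit 617499), .ofNat (nat_lit 916886)⟩, ⟨.ofNat (nat_lit 225423), .ofNat (nat_lit 488669), .ofNat (nat_lit 246791), .ofNat (nat_lit 510037), .ofNat (nat_lit 232852), .ofNat (nat_lit 472638), .ofNat (nat_lit 254209), .ofNat (nat_lit 493995)⟩⟩, [⟨nat_lit 16, nat_lit 100, nat_lit 92, nat_lit 61, nat_lit 308145268⟩]⟩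
noncomputable def b_VL_600_500_5_3 : St := ⟨true, nat_lit 0, nat_lit 2, nat_lit 2, nat_lit 40, nat_lit 240, nat_lit 280, nat_lit 200, nat_lit 240, nat_lit 4, nat_lit 400, nat_lit 20, nat_lit 40, nat_lit 0, nat_lit 288, nat_lit 0, nat_lit 320, nat_lit 0, nat_lit 40, nat_lit 0, nat_lit 0, nat_lit 0, nat_lit 0⟩
theorem d_VL_600_500_5_3 (h : EB TB.env) : Dead b_VL_600_500_5_3 := chkB_sound0 h (T :=
(.st (nat_lit 1)
(.spl (nat_lit 2) (nat_lit 240)
(.leaf p029_l123)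
(.leaf p029_l124))
(.spl (nat_lit 4) (nat_lit 160)
(.spl (nat_lit 0) (nat_lit 260)
(.leaf p029_l125)
(.trZ (nat_lit 0) (nat_lit 100) (nat_lit 95) (nat_lit 30) (nat_lit 8) (.leaf p029_l126)))
(.spl (nat_lit 2) (nat_lit 240)
(.leaf p029_l127)
(.leaf p029_l128))))) (by decide +kernel)
noncomputable def p029_l129 : Lf2 := ⟨nat_lit 0, nat_lit 2, [nat_lit 10, nat_lit 5, nat_lit 5, nat_lit 20], true, nat_lit 0, nat_lit 80, nat_lit 0, nat_lit 320, ⟨nat_lit 0, nat_lit 0, nat_lit 1000, nat_lit 5, nat_lit 76, nat_lit 1000, nat_lit 15, nat_lit 1000, nat_lit 67, nat_lit 213, nat_lit 54150, nat_lit 272, nat_lit 64678509, nat_lit 0, nat_lit 0, nat_lit 752726, false, false⟩,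
 nat_lit 0, nat_lit 8228, nat_lit 0, nat_lit 0, nat_lit 4356, nat_lit 0, nat_lit 0, nat_lit 0, nat_lit 0, nat_lit 0, nat_lit 0, nat_lit 0, nat_lit 0, nat_lit 0, nat_lit 80, nat_lit 1000000, nat_lit 0, nat_lit 0, [(nat_lit 6, [(nat_lit 6, nat_lit 1000)])],
 ⟨p029_k27, nat_lit 0, nat_lit 0, nat_lit 278, nat_lit 0, nat_lit 143024, [nat_lit 2257066667, nat_lit 1408000000, nat_lit 211200000], [], [nat_lit 13554748727, nat_lit 14597963592, nat_lit 14917447451, nat_lit 13832180543, nat_lit 14945670082, nat_lit 13861953039, nat_lit 16794613755, nat_lit 15739682031], nat_lit 1271250, nat_lit 1271250, nat_lit 21650, nat_lit 490000, nat_lit 0, nat_lit 490000, [nat_lit 1100000, nat_lit 1442500, nat_lit 1271250], [nat_lit 9, nat_lit 40, nat_lit 20, nat_lit 80, nat_lit 2, nat_lit 249, nat_lit 40, nat_lit 9]⟩, C1.Rw.none,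
 ⟨nat_lit 6123, nat_lit 6325, ⟨.ofNat (nat_lit 96904), .ofNat (nat_lit 253206), .ofNat (nat_lit 118272), .ofNat (nat_lit 274574), .ofNat (nat_lit 106133), .ofNat (nat_lit 258856), .ofNat (nat_lit 127481), .ofNat (nat_lit 280205)⟩, ⟨.negSucc (nat_lit 103633), .ofNat (nat_lit 60895), .negSucc (nat_lit 82265), .ofNat (nat_lit 82263), .negSucc (nat_lit 94037), .ofNat (nat_lit 66723), .negSucc (nat_lit 72689), .ofNat (nat_lit 88071)⟩⟩, []⟩
noncomputable def p029_l130 : Lf2 := ⟨nat_lit 0, nat_lit 2, [nat_lit 10, nat_lit 5, nat_lit 5, nat_lit 20], true, nat_lit 0, nat_lit 40, nat_lit 0, nat_lit 304, ⟨nat_lit 0, nat_lit 0, nat_lit 1000, nat_lit 5, nat_lit 84, nat_lit 0, nat_lit 0, nat_lit 0, nat_lit 3267, nat_lit 201, nat_lit 66150, nat_lit 278, nat_lit 64182001, nat_lit 0, nat_lit 0, nat_lit 872165, false, false⟩,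
 nat_lit 0, nat_lit 8675, nat_lit 0, nat_lit 0, nat_lit 4592, nat_lit 0, nat_lit 0, nat_lit 0, nat_lit 0, nat_lit 0, nat_lit 0, nat_lit 0, nat_lit 0, nat_lit 0, nat_lit 80, nat_lit 1000000, nat_lit 0, nat_lit 0, [(nat_lit 6, [(nat_lit 6, nat_lit 1000)])],
 ⟨p029_k27, nat_lit 0, nat_lit 0, nat_lit 282, nat_lit 0, nat_lit 182353, [nat_lit 2257066667, nat_lit 1408000000, nat_lit 211200000], [], [nat_lit 13536322394, nat_lit 14612189592, nat_lit 14552252555, nat_lit 13408187899, nat_lit 13457275135, nat_lit 12539933532, nat_lit 15153094187, nat_lit 14025018875], nat_lit 1271250, nat_lit 1271250, nat_lit 43600, nat_lit 490000, nat_lit 0, nat_lit 230001, [nat_lit 1100000, nat_lit 1442500, nat_lit 1271250], [nat_lit 9, nat_lit 40, nat_lit 20, nat_lit 80, nat_lit 2, nat_lit 238, nat_lit 30, nat_lit 8]⟩, C1.Rw.none,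
 ⟨nat_lit 6123, nat_lit 6325, ⟨.ofNat (nat_lit 126498), .ofNat (nat_lit 274574), .ofNat (nat_lit 137182), .ofNat (nat_lit 285258), .ofNat (nat_lit 135519), .ofNat (nat_lit 280205), .ofNat (nat_lit 146193), .ofNat (nat_lit 290879)⟩, ⟨.negSucc (nat_lit 103633), .negSucc (nat_lit 21368), .negSucc (nat_lit 82265), .negSucc (nat_lit 0), .negSucc (nat_lit 94037), .negSucc (nat_lit 13656), .negSucc (nat_lit 72689), .ofNat (nat_lit 7691)⟩⟩, []⟩
noncomputable def p029_l131 : Lf2 := ⟨nat_lit 0, nat_lit 2, [nat_lit 10, nat_lit 5, nat_lit 5, nat_lit 20], true, nat_lit 40, nat_lit 80, nat_lit 0, nat_lit 304, ⟨nat_lit 0, nat_lit 0, nat_lit 1000, nat_lit 5, nat_lit 84, nat_lit 0, nat_lit 15, nat_lit 313, nat_lit 1667, nat_lit 225, nat_lit 66150, nat_lit 278, nat_lit 64182001, nat_lit 0, nat_lit 0, nat_lit 872165, false, false⟩,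
 nat_lit 0, nat_lit 7827, nat_lit 0, nat_lit 0, nat_lit 4143, nat_lit 0, nat_lit 401, nat_lit 0, nat_lit 0, nat_lit 0, nat_lit 0, nat_lit 0, nat_lit 0, nat_lit 0, nat_lit 80, nat_lit 1000000, nat_lit 0, nat_lit 0, [(nat_lit 6, [(nat_lit 6, nat_lit 1000)])],
 ⟨p029_k27, nat_lit 0, nat_lit 0, nat_lit 259, nat_lit 0, nat_lit 182353, [nat_lit 2257066667, nat_lit 1408000000, nat_lit 211200000], [], [nat_lit 11170338416, nat_lit 11835570323, nat_lit 9954638671, nat_lit 10613407196, nat_lit 10291897824, nat_lit 10968377838, nat_lit 9281219507, nat_lit 9920344170], nat_lit 1271250, nat_lit 1271250, nat_lit 43600, nat_lit 490000, nat_lit 230001, nat_lit 490000, [nat_lit 1100000, nat_lit 1442500, nat_lit 1271250], [nat_lit 9, nat_lit 40, nat_lit 20, nat_lit 80, nat_lit 2, nat_lit 249, nat_lit 40, nat_lit 9]⟩, C1.Rw.none,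
 ⟨nat_lit 6123, nat_lit 6325, ⟨.ofNat (nat_lit 126498), .ofNat (nat_lit 274574), .ofNat (nat_lit 137182), .ofNat (nat_lit 285258), .ofNat (nat_lit 135519), .ofNat (nat_lit 280205), .ofNat (nat_lit 146193), .ofNat (nat_lit 290879)⟩, ⟨.negSucc (nat_lit 21368), .ofNat (nat_lit 60895), .negSucc (nat_lit 0), .ofNat (nat_lit 82263), .negSucc (nat_lit 13656), .ofNat (nat_lit 66723), .ofNat (nat_lit 7691), .ofNat (nat_lit 88071)⟩⟩, [⟨nat_lit 0, nat_lit 100, nat_lit 98, nat_lit 40, nat_lit 183539632⟩]⟩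
noncomputable def p029_l132 : Lf2 := ⟨nat_lit 0, nat_lit 2, [nat_lit 10, nat_lit 5, nat_lit 5, nat_lit 20], false, nat_lit 0, nat_lit 80, nat_lit 0, nat_lit 160, ⟨nat_lit 1000, nat_lit 0, nat_lit 0, nat_lit 0, nat_lit 0, nat_lit 0, nat_lit 0, nat_lit 0, nat_lit 0, nat_lit 0, nat_lit 0, nat_lit 0, nat_lit 0, nat_lit 0, nat_lit 0, nat_lit 0, false, false⟩,
 nat_lit 0, nat_lit 20442, nat_lit 0, nat_lit 0, nat_lit 10822, nat_lit 9780, nat_lit 1697, nat_lit 0, nat_lit 0, nat_lit 3936, nat_lit 0, nat_lit 0, nat_lit 0, nat_lit 0, nat_lit 0, nat_lit 0, nat_lit 0, nat_lit 0, [],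
 ⟨p029_k27, nat_lit 0, nat_lit 0, nat_lit 281, nat_lit 0, nat_lit 200628, [nat_lit 4688000000, nat_lit 6250000000, nat_lit 7968000000], [], [nat_lit 22722403453, nat_lit 23404749239, nat_lit 21506659608, nat_lit 20158546835, nat_lit 21373922463, nat_lit 20031585391, nat_lit 23260868456, nat_lit 21950437887], nat_lit 1271250, nat_lit 1271250, nat_lit 65850, nat_lit 490000, nat_lit 0, nat_lit 490000, [nat_lit 1100000, nat_lit 1442500, nat_lit 1271250], [nat_lit 9, nat_lit 40, nat_lit 20, nat_lit 80, nat_lit 2, nat_lit 249, nat_lit 40, nat_lit 9]⟩, ⟨p029_k40, nat_lit 0, nat_lit 0, nat_lit 0, nat_lit 0, nat_lit 0, [nat_lit 6250000000, nat_lit 7968000000], [], [nat_lit 20100933821, nat_lit 20885913776, nat_lit 15461073920, nat_lit 16209383040, nat_lit 14518400509, nat_lit 15252752208, nat_lit 10804624220, nat_lit 11495192800], nat_lit 0, nat_lit 0, nat_lit 0, nat_lit 0, nat_lit 0, nat_lit 0, [], [nat_lit 26, nat_lit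 40, nat_lit 20, nat_lit 80]⟩,
 zbF0, [⟨nat_lit 0, nat_lit 100, nat_lit 99, nat_lit 42, nat_lit 976428701⟩]⟩
noncomputable def p029_l133 : Lf2 := ⟨nat_lit 0, nat_lit 2, [nat_lit 10, nat_lit 5, nat_lit 5, nat_lit 20], false, nat_lit 0, nat_lit 80, nat_lit 160, nat_lit 296, ⟨nat_lit 1000, nat_lit 0, nat_lit 0, nat_lit 0, nat_lit 0, nat_lit 0, nat_lit 0, nat_lit 0, nat_lit 0, nat_lit 0, nat_lit 0, nat_lit 0, nat_lit 0, nat_lit 0, nat_lit 0, nat_lit 0, false, false⟩,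
 nat_lit 0, nat_lit 20367, nat_lit 0, nat_lit 0, nat_lit 10782, nat_lit 7665, nat_lit 1723, nat_lit 0, nat_lit 0, nat_lit 0, nat_lit 0, nat_lit 0, nat_lit 0, nat_lit 0, nat_lit 0, nat_lit 0, nat_lit 0, nat_lit 0, [],
 ⟨p029_k27, nat_lit 0, nat_lit 0, nat_lit 281, nat_lit 0, nat_lit 200628, [nat_lit 4688000000, nat_lit 6250000000, nat_lit 7968000000], [], [nat_lit 22662799743, nat_lit 23343326537, nat_lit 21568557048, nat_lit 20225427135, nat_lit 21437284095, nat_lit 20099908535, nat_lit 23323526536, nat_lit 22017939547], nat_lit 1271250, nat_lit 1271250, nat_lit 65850, nat_lit 490000, nat_lit 0, nat_lit 490000, [nat_lit 1100000, nat_lit 1442500, nat_lit 1271250], [nat_lit 9, nat_lit 40, nat_lit 20, nat_lit 80, nat_lit 2, nat_lit 249, nat_lit 40, nat_lit 9]⟩, ⟨p029_k41, nat_lit 0, nat_lit 0, nat_lit 0, nat_lit 0, nat_lit 0, [nat_lit 5449500000, nat_lit 7089500000, nat_lit 7968000000], [], [nat_lit 11230138316,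 nat_lit 12120970433, nat_lit 8086903240, nat_lit 8936354720, nat_lit 21625412334, nat_lit 22320721611, nat_lit 18002826933, nat_lit 18559654792], nat_lit 0, nat_lit 0, nat_lit 0, nat_lit 0, nat_lit 0, nat_lit 0, [], [nat_lit 181, nat_lit 40, nat_lit 20, nat_lit 40]⟩,
 zbF0, [⟨nat_lit 0, nat_lit 100, nat_lit 99, nat_lit 35, nat_lit 877545141⟩, ⟨nat_lit 7, nat_lit 94, nat_lit 100, nat_lit 54, nat_lit 1112678680⟩]⟩
noncomputable def p029_l134 : Lf2 := ⟨nat_lit 0, nat_lit 2, [nat_lit 10, nat_lit 5, nat_lit 5, nat_lit 20], true, nat_lit 0, nat_lit 40, nat_lit 0, nat_lit 296, ⟨nat_lit 0, nat_lit 0, nat_lit 1000, nat_lit 5, nat_lit 90, nat_lit 0, nat_lit 1, nat_lit 0, nat_lit 3267, nat_lit 201, nat_lit 77067, nat_lit 283, nat_lit 63741576, nat_lit 0, nat_lit 0, nat_lit 972345, false, false⟩,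
 nat_lit 0, nat_lit 8201, nat_lit 0, nat_lit 0, nat_lit 4448, nat_lit 0, nat_lit 931, nat_lit 0, nat_lit 0, nat_lit 0, nat_lit 0, nat_lit 0, nat_lit 0, nat_lit 0, nat_lit 80, nat_lit 1000000, nat_lit 0, nat_lit 0, [(nat_lit 6, [(nat_lit 6, nat_lit 1000)])],
 ⟨p029_k42, nat_lit 0, nat_lit 0, nat_lit 291, nat_lit 0, nat_lit 219176, [nat_lit 2257066667, nat_lit 1408000000, nat_lit 211200000], [], [nat_lit 13431464693, nat_lit 13960082960, nat_lit 13842770557, nat_lit 13288676525, nat_lit 12782667044, nat_lit 12222805735, nat_lit 14461364733, nat_lit 13915014669], nat_lit 1271250, nat_lit 1271250, nat_lit 65850, nat_lit 490000, nat_lit 0, nat_lit 230001, [nat_lit 1100000, nat_lit 1442500, nat_lit 1271250], [nat_lit 9, nat_lit 40, nat_lit 20, nat_lit 80, nat_lit 2, nat_lit 238, nat_lit 30, nat_lit 8]⟩, C1.Rw.none,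
 ⟨nat_lit 6123, nat_lit 6225, ⟨.ofNat (nat_lit 149840), .ofNat (nat_lit 288080), .ofNat (nat_lit 160519), .ofNat (nat_lit 298759), .ofNat (nat_lit 154231), .ofNat (nat_lit 290879), .ofNat (nat_lit 164905), .ofNat (nat_lit 301553)⟩, ⟨.negSucc (nat_lit 98799), .negSucc (nat_lit 17481), .negSucc (nat_lit 77442), .ofNat (nat_lit 3874), .negSucc (nat_lit 94037), .negSucc (nat_lit 13656), .negSucc (nat_lit 72689), .ofNat (nat_lit 7691)⟩⟩, []⟩
noncomputable def p029_l135 : Lf2 := ⟨nat_lit 0, nat_lit 2, [nat_lit 10, nat_lit 5, nat_lit 5, nat_lit 20], true, nat_lit 40, nat_lit 80, nat_lit 0, nat_lit 296, ⟨nat_lit 0, nat_lit 0, nat_lit 1000, nat_lit 5, nat_lit 90, nat_lit 0, nat_lit 16, nat_lit 339, nat_lit 2017, nat_lit 226, nat_lit 77067, nat_lit 283, nat_lit 63741576, nat_lit 0, nat_lit 0, nat_lit 972345, false, false⟩,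
 nat_lit 0, nat_lit 7629, nat_lit 0, nat_lit 0, nat_lit 4138, nat_lit 0, nat_lit 788, nat_lit 0, nat_lit 0, nat_lit 0, nat_lit 0, nat_lit 0, nat_lit 0, nat_lit 0, nat_lit 80, nat_lit 1000000, nat_lit 0, nat_lit 0, [(nat_lit 6, [(nat_lit 6, nat_lit 1000)])],
 ⟨p029_k42, nat_lit 0, nat_lit 0, nat_lit 258, nat_lit 0, nat_lit 219176, [nat_lit 2257066667, nat_lit 1408000000, nat_lit 211200000], [], [nat_lit 11147601610, nat_lit 11494755419, nat_lit 10132808606, nat_lit 10462001181, nat_lit 10309467474, nat_lit 10647025922, nat_lit 9451265836, nat_lit 9770644065], nat_lit 1271250, nat_lit 1271250, nat_lit 65850, nat_lit 490000, nat_lit 230001, nat_lit 490000, [nat_lit 1100000, nat_lit 1442500, nat_lit 1271250], [nat_lit 9, nat_lit 40, nat_lit 20, nat_lit 80, nat_lit 2, nat_lit 249, nat_lit 40, nat_lit 9]⟩, C1.Rw.none,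
 ⟨nat_lit 6123, nat_lit 6225, ⟨.ofNat (nat_lit 149840), .ofNat (nat_lit 288080), .ofNat (nat_lit 160519), .ofNat (nat_lit 298759), .ofNat (nat_lit 154231), .ofNat (nat_lit 290879), .ofNat (nat_lit 164905), .ofNat (nat_lit 301553)⟩, ⟨.negSucc (nat_lit 17481), .ofNat (nat_lit 63835), .ofNat (nat_lit 3874), .ofNat (nat_lit 85192), .negSucc (nat_lit 13656), .ofNat (nat_lit 66723), .ofNat (nat_lit 7691), .ofNat (nat_lit 88071)⟩⟩, [⟨nat_lit 0, nat_lit 100, nat_lit 99, nat_lit 45, nat_lit 176885573⟩]⟩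
noncomputable def p029_l136 : Lf2 := ⟨nat_lit 0, nat_lit 4, [nat_lit 38, nat_lit 5, nat_lit 5, nat_lit 20], true, nat_lit 0, nat_lit 40, nat_lit 0, nat_lit 320, ⟨nat_lit 0, nat_lit 0, nat_lit 1000, nat_lit 5, nat_lit 80, nat_lit 0, nat_lit 0, nat_lit 0, nat_lit 3267, nat_lit 201, nat_lit 60000, nat_lit 275, nat_lit 64419784, nat_lit 0, nat_lit 0, nat_lit 815893, false, false⟩,
 nat_lit 0, nat_lit 8435, nat_lit 0, nat_lit 0, nat_lit 4465, nat_lit 0, nat_lit 0, nat_lit 0, nat_lit 0, nat_lit 0, nat_lit 0, nat_lit 0, nat_lit 0, nat_lit 0, nat_lit 80, nat_lit 1000000, nat_lit 0, nat_lit 0, [(nat_lit 6, [(nat_lit 6, nat_lit 1000)])],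
 ⟨p029_k20, nat_lit 0, nat_lit 0, nat_lit 278, nat_lit 0, nat_lit 136201, [nat_lit 2257066667, nat_lit 1408000000, nat_lit 211200000], [], [nat_lit 13739254596, nat_lit 14797159130, nat_lit 14748776927, nat_lit 13636353432, nat_lit 13633465739, nat_lit 12922577499, nat_lit 15358445567, nat_lit 14261569202], nat_lit 1271250, nat_lit 1271250, nat_lit 21650, nat_lit 490000, nat_lit 0, nat_lit 230001, [nat_lit 1100000, nat_lit 1442500, nat_lit 1271250], [nat_lit 9, nat_lit 40, nat_lit 20, nat_lit 80, nat_lit 2, nat_lit 238, nat_lit 30, nat_lit 8]⟩, C1.Rw.none,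
 ⟨nat_lit 6123, nat_lit 6325, ⟨.ofNat (nat_lit 96904), .ofNat (nat_lit 253206), .ofNat (nat_lit 139640), .ofNat (nat_lit 295942), .ofNat (nat_lit 106133), .ofNat (nat_lit 258856), .ofNat (nat_lit 148829), .ofNat (nat_lit 301553)⟩, ⟨.negSucc (nat_lit 103633), .negSucc (nat_lit 21368), .negSucc (nat_lit 82265), .negSucc (nat_lit 0), .negSucc (nat_lit 94037), .negSucc (nat_lit 13656), .negSucc (nat_lit 72689), .ofNat (nat_lit 7691)⟩⟩, []⟩
noncomputable def p029_l137 : Lf2 := ⟨nat_lit 0, nat_lit 5, [nat_lit 4, nat_lit 5, nat_lit 5, nat_lit 20], true, nat_lit 0, nat_lit 40, nat_lit 0, nat_lit 320, ⟨nat_lit 0, nat_lit 0, nat_lit 1000, nat_lit 5, nat_lit 80, nat_lit 0, nat_lit 0, nat_lit 0, nat_lit 3267, nat_lit 201, nat_lit 60000, nat_lit 275, nat_lit 64419784, nat_lit 0, nat_lit 0, nat_lit 815893, false, false⟩,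
 nat_lit 0, nat_lit 8765, nat_lit 0, nat_lit 0, nat_lit 4640, nat_lit 0, nat_lit 45, nat_lit 0, nat_lit 0, nat_lit 0, nat_lit 0, nat_lit 0, nat_lit 0, nat_lit 0, nat_lit 147, nat_lit 1000000, nat_lit 0, nat_lit 0, [(nat_lit 6, [(nat_lit 6, nat_lit 1000)])],
 ⟨p029_k30, nat_lit 0, nat_lit 0, nat_lit 314, nat_lit 0, nat_lit 60566, [nat_lit 3329066667, nat_lit 3042400001, nat_lit 177599999], [], [nat_lit 14403915202, nat_lit 15116968480, nat_lit 15066775629, nat_lit 13910752109, nat_lit 13945118381, nat_lit 13507487893, nat_lit 15664281069, nat_lit 14524414029], nat_lit 1271250, nat_lit 1271250, nat_lit 21650, nat_lit 490000, nat_lit 0, nat_lit 230001, [nat_lit 1100000, nat_lit 1442500, nat_lit 1271250], [nat_lit 11, nat_lit 40, nat_lit 20, nat_lit 80, nat_lit 1, nat_lit 317, nat_lit 100, nat_lit 10]⟩, C1.Rw.none,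
 ⟨nat_lit 6123, nat_lit 6325, ⟨.ofNat (nat_lit 96904), .ofNat (nat_lit 253206), .ofNat (nat_lit 139640), .ofNat (nat_lit 295942), .ofNat (nat_lit 106133), .ofNat (nat_lit 258856), .ofNat (nat_lit 148829), .ofNat (nat_lit 301553)⟩, ⟨.negSucc (nat_lit 103633), .negSucc (nat_lit 21368), .negSucc (nat_lit 82265), .negSucc (nat_lit 0), .negSucc (nat_lit 94037), .negSucc (nat_lit 13656), .negSucc (nat_lit 72689), .ofNat (nat_lit 7691)⟩⟩, []⟩
noncomputable def p029_l138 : Lf2 := ⟨nat_lit 0, nat_lit 5, [nat_lit 4, nat_lit 5, nat_lit 5, nat_lit 20], true, nat_lit 40, nat_lit 80, nat_lit 0, nat_lit 320, ⟨nat_lit 0, nat_lit 0, nat_lit 1000, nat_lit 5, nat_lit 79, nat_lit 0, nat_lit 15, nat_lit 228, nat_lit 1667, nat_lit 225, nat_lit 58017, nat_lit 274, nat_lit 64465377, nat_lit 0, nat_lit 0, nat_lit 804914, false, false⟩,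
 nat_lit 0, nat_lit 8083, nat_lit 0, nat_lit 0, nat_lit 4279, nat_lit 0, nat_lit 406, nat_lit 0, nat_lit 0, nat_lit 0, nat_lit 0, nat_lit 0, nat_lit 0, nat_lit 0, nat_lit 147, nat_lit 1000000, nat_lit 0, nat_lit 0, [(nat_lit 6, [(nat_lit 6, nat_lit 1000)])],
 ⟨p029_k30, nat_lit 0, nat_lit 0, nat_lit 296, nat_lit 0, nat_lit 115015, [nat_lit 3329066667, nat_lit 3042400001, nat_lit 177599999], [], [nat_lit 11481709112, nat_lit 11818738472, nat_lit 10003154480, nat_lit 10337752643, nat_lit 10547186836, nat_lit 10891322831, nat_lit 9283747188, nat_lit 9608317108], nat_lit 1271250, nat_lit 1271250, nat_lit 21650, nat_lit 490000, nat_lit 230001, nat_lit 490000, [nat_lit 1100000, nat_lit 1442500, nat_lit 1271250], [nat_lit 11, nat_lit 40, nat_lit 20, nat_lit 80, nat_lit 1, nat_lit 345, nat_lit 125, nat_lit 10]⟩, C1.Rw.none,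
 ⟨nat_lit 6224, nat_lit 6325, ⟨.ofNat (nat_lit 96904), .ofNat (nat_lit 253206), .ofNat (nat_lit 139640), .ofNat (nat_lit 295942), .ofNat (nat_lit 101542), .ofNat (nat_lit 256045), .ofNat (nat_lit 144255), .ofNat (nat_lit 298759)⟩, ⟨.negSucc (nat_lit 21368), .ofNat (nat_lit 60895), .negSucc (nat_lit 0), .ofNat (nat_lit 82263), .negSucc (nat_lit 17481), .ofNat (nat_lit 63835), .ofNat (nat_lit 3874), .ofNat (nat_lit 85192)⟩⟩, [⟨nat_lit 0, nat_lit 100, nat_lit 99, nat_lit 42, nat_lit 193239451⟩]⟩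
noncomputable def p029_l139 : Lf2 := ⟨nat_lit 0, nat_lit 5, [nat_lit 4, nat_lit 5, nat_lit 5, nat_lit 20], true, nat_lit 40, nat_lit 80, nat_lit 0, nat_lit 320, ⟨nat_lit 0, nat_lit 0, nat_lit 1000, nat_lit 5, nat_lit 81, nat_lit 0, nat_lit 16, nat_lit 536, nat_lit 2017, nat_lit 226, nat_lit 62017, nat_lit 276, nat_lit 64373399, nat_lit 0, nat_lit 0, nat_lit 827000, false, false⟩,
 nat_lit 0, nat_lit 7701, nat_lit 0, nat_lit 0, nat_lit 4177, nat_lit 0, nat_lit 349, nat_lit 0, nat_lit 0, nat_lit 0, nat_lit 0, nat_lit 0, nat_lit 0, nat_lit 0, nat_lit 147, nat_lit 1000000, nat_lit 0, nat_lit 0, [(nat_lit 6, [(nat_lit 6, nat_lit 1000)])],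
 ⟨p029_k43, nat_lit 0, nat_lit 0, nat_lit 306, nat_lit 0, nat_lit 137021, [nat_lit 3329066667, nat_lit 3042400001, nat_lit 177599999], [], [nat_lit 11877501533, nat_lit 12210046476, nat_lit 10447364737, nat_lit 10778052474, nat_lit 10971765781, nat_lit 11311842105, nat_lit 9752575032, nat_lit 10073389260], nat_lit 1271250, nat_lit 1271250, nat_lit 21650, nat_lit 490000, nat_lit 230001, nat_lit 490000, [nat_lit 1100000, nat_lit 1442500, nat_lit 1271250], [nat_lit 11, nat_lit 40, nat_lit 20, nat_lit 80, nat_lit 1, nat_lit 345, nat_lit 125, nat_lit 10]⟩, C1.Rw.none,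
 ⟨nat_lit 6123, nat_lit 6225, ⟨.ofNat (nat_lit 101542), .ofNat (nat_lit 256045), .ofNat (nat_lit 144255), .ofNat (nat_lit 298759), .ofNat (nat_lit 106133), .ofNat (nat_lit 258856), .ofNat (nat_lit 148829), .ofNat (nat_lit 301553)⟩, ⟨.negSucc (nat_lit 17481), .ofNat (nat_lit 63835), .ofNat (nat_lit 3874), .ofNat (nat_lit 85192), .negSucc (nat_lit 13656), .ofNat (nat_lit 66723), .ofNat (nat_lit 7691), .ofNat (nat_lit 88071)⟩⟩, [⟨nat_lit 0, nat_lit 100, nat_lit 99, nat_lit 45, nat_lit 202053328⟩]⟩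
noncomputable def p029_l140 : Lf2 := ⟨nat_lit 0, nat_lit 5, [nat_lit 4, nat_lit 5, nat_lit 5, nat_lit 20], true, nat_lit 0, nat_lit 80, nat_lit 0, nat_lit 320, ⟨nat_lit 0, nat_lit 0, nat_lit 1000, nat_lit 5, nat_lit 79, nat_lit 942, nat_lit 16, nat_lit 1000, nat_lit 0, nat_lit 215, nat_lit 58017, nat_lit 274, nat_lit 64501471, nat_lit 0, nat_lit 0, nat_lit 796177, false, false⟩,
 nat_lit 0, nat_lit 6837, nat_lit 0, nat_lit 0, nat_lit 3798, nat_lit 0, nat_lit 279, nat_lit 0, nat_lit 0, nat_lit 0, nat_lit 0, nat_lit 0, nat_lit 0, nat_lit 0, nat_lit 80, nat_lit 1000000, nat_lit 0, nat_lit 0, [(nat_lit 6, [(nat_lit 6, nat_lit 1000)])],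
 ⟨p029_k44, nat_lit 0, nat_lit 0, nat_lit 298, nat_lit 0, nat_lit 197022, [nat_lit 2257066667, nat_lit 1408000000, nat_lit 211200000], [], [nat_lit 14005429022, nat_lit 14546637479, nat_lit 14604496625, nat_lit 13658251511, nat_lit 14641548677, nat_lit 13696654891, nat_lit 16518723129, nat_lit 15598927287], nat_lit 1271250, nat_lit 1271250, nat_lit 21650, nat_lit 490000, nat_lit 0, nat_lit 490000, [nat_lit 1100000, nat_lit 1442500, nat_lit 1271250], [nat_lit 9, nat_lit 40, nat_lit 20, nat_lit 80, nat_lit 2, nat_lit 249, nat_lit 40, nat_lit 9]⟩, C1.Rw.none,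
 ⟨nat_lit 5916, nat_lit 6124, ⟨.ofNat (nat_lit 106133), .ofNat (nat_lit 258856), .ofNat (nat_lit 127481), .ofNat (nat_lit 280205), .ofNat (nat_lit 115184), .ofNat (nat_lit 264398), .ofNat (nat_lit 136523), .ofNat (nat_lit 285737)⟩, ⟨.negSucc (nat_lit 94037), .ofNat (nat_lit 66723), .negSucc (nat_lit 72689), .ofNat (nat_lit 88071), .negSucc (nat_lit 84722), .ofNat (nat_lit 72344), .negSucc (nat_lit 63383), .ofNat (nat_lit 93684)⟩⟩, []⟩
noncomputable def p029_l141 : Lf2 := ⟨nat_lit 0, nat_lit 5, [nat_lit 4, nat_lit 5, nat_lit 5, nat_lit 20], true, nat_lit 0, nat_lit 40, nat_lit 0, nat_lit 304, ⟨nat_lit 0, nat_lit 0, nat_lit 1000, nat_lit 5, nat_lit 90, nat_lit 0, nat_lit 1, nat_lit 0, nat_lit 2400, nat_lit 203, nat_lit 77067, nat_lit 283, nat_lit 63741350, nat_lit 0, nat_lit 0, nat_lit 972395, false, false⟩,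
 nat_lit 0, nat_lit 7266, nat_lit 0, nat_lit 0, nat_lit 4036, nat_lit 0, nat_lit 510, nat_lit 0, nat_lit 0, nat_lit 0, nat_lit 0, nat_lit 0, nat_lit 0, nat_lit 0, nat_lit 80, nat_lit 1000000, nat_lit 0, nat_lit 0, [(nat_lit 6, [(nat_lit 6, nat_lit 1000)])],
 ⟨p029_k44, nat_lit 0, nat_lit 0, nat_lit 317, nat_lit 0, nat_lit 274421, [nat_lit 2257066667, nat_lit 1408000000, nat_lit 211200000], [], [nat_lit 13287587720, nat_lit 14289095981, nat_lit 13986335823, nat_lit 12980794675, nat_lit 12947259371, nat_lit 13123303082, nat_lit 14639875031, nat_lit 13648387235], nat_lit 1271250, nat_lit 1271250, nat_lit 65850, nat_lit 490000, nat_lit 0, nat_lit 230001, [nat_lit 1100000, nat_lit 1442500, nat_lit 1271250], [nat_lit 9, nat_lit 40, nat_lit 20, nat_lit 80, nat_lit 2, nat_lit 238, nat_lit 30, nat_lit 8]⟩, C1.Rw.none,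
 ⟨nat_lit 5916, nat_lit 6124, ⟨.ofNat (nat_lit 143557), .ofNat (nat_lit 280205), .ofNat (nat_lit 164905), .ofNat (nat_lit 301553), .ofNat (nat_lit 152230), .ofNat (nat_lit 285737), .ofNat (nat_lit 173569), .ofNat (nat_lit 307076)⟩, ⟨.negSucc (nat_lit 94037), .negSucc (nat_lit 13656), .negSucc (nat_lit 72689), .ofNat (nat_lit 7691), .negSucc (nat_lit 84722), .negSucc (nat_lit 6188), .negSucc (nat_lit 63383), .ofNat (nat_lit 15150)⟩⟩, []⟩
noncomputable def p029_l142 : Lf2 := ⟨nat_lit 0, nat_lit 5, [nat_lit 4, nat_lit 5, nat_lit 5, nat_lit 20], true, nat_lit 40, nat_lit 80, nat_lit 0, nat_lit 304, ⟨nat_lit 0, nat_lit 0, nat_lit 1000, nat_lit 5, nat_lit 90, nat_lit 1000, nat_lit 17, nat_lit 1000, nat_lit 2400, nat_lit 227, nat_lit 77067, nat_lit 283, nat_lit 63741350, nat_lit 0, nat_lit 0, nat_lit 972395, false, false⟩,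
 nat_lit 0, nat_lit 8292, nat_lit 0, nat_lit 0, nat_lit 4606, nat_lit 0, nat_lit 740, nat_lit 0, nat_lit 0, nat_lit 0, nat_lit 0, nat_lit 0, nat_lit 0, nat_lit 0, nat_lit 80, nat_lit 1000000, nat_lit 0, nat_lit 0, [(nat_lit 6, [(nat_lit 6, nat_lit 1000)])],
 ⟨p029_k44, nat_lit 0, nat_lit 0, nat_lit 281, nat_lit 0, nat_lit 274421, [nat_lit 2257066667, nat_lit 1408000000, nat_lit 211200000], [], [nat_lit 11964223543, nat_lit 13031024033, nat_lit 13388442461, nat_lit 12256927895, nat_lit 12872250529, nat_lit 11729614315, nat_lit 14677024281, nat_lit 13561547807], nat_lit 1271250, nat_lit 1271250, nat_lit 65850, nat_lit 490000, nat_lit 230001, nat_lit 490000, [nat_lit 1100000, nat_lit 1442500, nat_lit 1271250], [nat_lit 9, nat_lit 40, nat_lit 20, nat_lit 80, nat_lit 2, nat_lit 249, nat_lit 40, nat_lit 9]⟩, C1.Rw.none,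
 ⟨nat_lit 5916, nat_lit 6124, ⟨.ofNat (nat_lit 143557), .ofNat (nat_lit 280205), .ofNat (nat_lit 164905), .ofNat (nat_lit 301553), .ofNat (nat_lit 152230), .ofNat (nat_lit 285737), .ofNat (nat_lit 173569), .ofNat (nat_lit 307076)⟩, ⟨.negSucc (nat_lit 13656), .ofNat (nat_lit 66723), .ofNat (nat_lit 7691), .ofNat (nat_lit 88071), .negSucc (nat_lit 6188), .ofNat (nat_lit 72344), .ofNat (nat_lit 15150), .ofNat (nat_lit 93684)⟩⟩, []⟩
noncomputable def p029_l143 : Lf2 := ⟨nat_lit 0, nat_lit 6, [nat_lit 47, nat_lit 5, nat_lit 5, nat_lit 20], true, nat_lit 0, nat_lit 40, nat_lit 0, nat_lit 320, ⟨nat_lit 0, nat_lit 0, nat_lit 1000, nat_lit 5, nat_lit 56, nat_lit 0, nat_lit 0, nat_lit 0, nat_lit 3267, nat_lit 201, nat_lit 29400, nat_lit 257, nat_lit 65727503, nat_lit 0, nat_lit 0, nat_lit 470399, false, false⟩,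
 nat_lit 0, nat_lit 7197, nat_lit 0, nat_lit 1971, nat_lit 3810, nat_lit 0, nat_lit 154, nat_lit 0, nat_lit 0, nat_lit 0, nat_lit 0, nat_lit 0, nat_lit 0, nat_lit 0, nat_lit 147, nat_lit 1000000, nat_lit 0, nat_lit 0, [(nat_lit 6, [(nat_lit 6, nat_lit 1000)])],
 ⟨p029_k45, nat_lit 0, nat_lit 0, nat_lit 0, nat_lit 0, nat_lit 25505, [nat_lit 3329066667, nat_lit 3042400001, nat_lit 177599999], [], [nat_lit 13255430108, nat_lit 13905312847, nat_lit 12287732379, nat_lit 12937580519, nat_lit 12061247335, nat_lit 12699119950, nat_lit 11349774446, nat_lit 11999404928], nat_lit 1271250, nat_lit 1271250, nat_lit 21650, nat_lit 111251, nat_lit 0, nat_lit 230001, [nat_lit 1100000, nat_lit 1442500, nat_lit 1271250], [nat_lit 11, nat_lit 40, nat_lit 20, nat_lit 80]⟩, C1.Rw.none,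
 ⟨nat_lit 6123, nat_lit 6325, ⟨.ofNat (nat_lit 96904), .ofNat (nat_lit 129809), .ofNat (nat_lit 139640), .ofNat (nat_lit 172545), .ofNat (nat_lit 106133), .ofNat (nat_lit 138285), .ofNat (nat_lit 148829), .ofNat (nat_lit 180982)⟩, ⟨.negSucc (nat_lit 103633), .negSucc (nat_lit 21368), .negSucc (nat_lit 82265), .negSucc (nat_lit 0), .negSucc (nat_lit 94037), .negSucc (nat_lit 13656), .negSucc (nat_lit 72689), .ofNat (nat_lit 7691)⟩⟩, [⟨nat_lit 0, nat_lit 100, nat_lit 99, nat_lit 45, nat_lit 411116401⟩]⟩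
noncomputable def p029_l144 : Lf2 := ⟨nat_lit 0, nat_lit 6, [nat_lit 47, nat_lit 5, nat_lit 5, nat_lit 20], true, nat_lit 0, nat_lit 40, nat_lit 0, nat_lit 320, ⟨nat_lit 0, nat_lit 0, nat_lit 1000, nat_lit 5, nat_lit 70, nat_lit 0, nat_lit 0, nat_lit 0, nat_lit 3267, nat_lit 201, nat_lit 46817, nat_lit 268, nat_lit 64992818, nat_lit 0, nat_lit 0, nat_lit 672955, false, false⟩,
 nat_lit 0, nat_lit 7075, nat_lit 0, nat_lit 1452, nat_lit 3745, nat_lit 0, nat_lit 113, nat_lit 0, nat_lit 0, nat_lit 0, nat_lit 0, nat_lit 0, nat_lit 0, nat_lit 0, nat_lit 147, nat_lit 1000000, nat_lit 0, nat_lit 0, [(nat_lit 6, [(nat_lit 6, nat_lit 1000)])],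
 ⟨p029_k45, nat_lit 0, nat_lit 0, nat_lit 0, nat_lit 0, nat_lit 25505, [nat_lit 3329066667, nat_lit 3042400001, nat_lit 177599999], [], [nat_lit 12375285509, nat_lit 13020187539, nat_lit 11827680936, nat_lit 12380873341, nat_lit 11537418476, nat_lit 12083203188, nat_lit 11116023756, nat_lit 11704270693], nat_lit 1271250, nat_lit 1271250, nat_lit 111251, nat_lit 230001, nat_lit 0, nat_lit 230001, [nat_lit 1100000, nat_lit 1442500, nat_lit 1271250], [nat_lit 11, nat_lit 40, nat_lit 20, nat_lit 80]⟩, C1.Rw.none,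
 ⟨nat_lit 6123, nat_lit 6325, ⟨.ofNat (nat_lit 129809), .ofNat (nat_lit 170942), .ofNat (nat_lit 172545), .ofNat (nat_lit 213677), .ofNat (nat_lit 138285), .ofNat (nat_lit 178476), .ofNat (nat_lit 180982), .ofNat (nat_lit 221172)⟩, ⟨.negSucc (nat_lit 103633), .negSucc (nat_lit 21368), .negSucc (nat_lit 82265), .negSucc (nat_lit 0), .negSucc (nat_lit 94037), .negSucc (nat_lit 13656), .negSucc (nat_lit 72689), .ofNat (nat_lit 7691)⟩⟩, [⟨nat_lit 0, nat_lit 100, nat_lit 99, nat_lit 45, nat_lit 199549742⟩]⟩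
noncomputable def p029_l145 : Lf2 := ⟨nat_lit 1, nat_lit 8, [nat_lit 50, nat_lit 5, nat_lit 5, nat_lit 20], false, nat_lit 0, nat_lit 40, nat_lit 0, nat_lit 320, zbN0,
 nat_lit 0, nat_lit 0, nat_lit 0, nat_lit 0, nat_lit 0, nat_lit 0, nat_lit 0, nat_lit 0, nat_lit 0, nat_lit 0, nat_lit 0, nat_lit 0, nat_lit 0, nat_lit 0, nat_lit 0, nat_lit 0, nat_lit 0, nat_lit 0, [],
 C1.Rw.none, C1.Rw.none,
 zbF0, []⟩
noncomputable def p029_l146 : Lf2 := ⟨nat_lit 0, nat_lit 8, [nat_lit 50, nat_lit 5, nat_lit 5, nat_lit 20], true, nat_lit 0, nat_lit 40, nat_lit 0, nat_lit 320, ⟨nat_lit 0, nat_lit 0, nat_lit 1000, nat_lit 5, nat_lit 67, nat_lit 0, nat_lit 1, nat_lit 0, nat_lit 2400, nat_lit 203, nat_lit 41667, nat_lit 265, nat_lit 65166048, nat_lit 0, nat_lit 0, nat_lit 627402, false, false⟩,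
 nat_lit 0, nat_lit 8642, nat_lit 0, nat_lit 0, nat_lit 4801, nat_lit 0, nat_lit 460, nat_lit 0, nat_lit 0, nat_lit 0, nat_lit 0, nat_lit 0, nat_lit 0, nat_lit 0, nat_lit 69, nat_lit 400000, nat_lit 0, nat_lit 0, [(nat_lit 6, [(nat_lit 5, nat_lit 1000)])],
 ⟨p029_k46, nat_lit 0, nat_lit 0, nat_lit 0, nat_lit 0, nat_lit 79125, [nat_lit 2521600001, nat_lit 1460000001, nat_lit 7200000], [], [nat_lit 15791151051, nat_lit 16516066365, nat_lit 13582891948, nat_lit 14302570876, nat_lit 14103833898, nat_lit 14815200559, nat_lit 12976347457, nat_lit 12805526149], nat_lit 1271250, nat_lit 1271250, nat_lit 21650, nat_lit 230001, nat_lit 0, nat_lit 230001, [nat_lit 1100000, nat_lit 1442500, nat_lit 1271250], [nat_lit 11, nat_lit 40, nat_lit 20, nat_lit 80]⟩, C1.Rw.none,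
 ⟨nat_lit 5916, nat_lit 6124, ⟨.ofNat (nat_lit 106133), .ofNat (nat_lit 178476), .ofNat (nat_lit 148829), .ofNat (nat_lit 221172), .ofNat (nat_lit 115184), .ofNat (nat_lit 185864), .ofNat (nat_lit 157863), .ofNat (nat_lit 228543)⟩, ⟨.negSucc (nat_lit 94037), .negSucc (nat_lit 13656), .negSucc (nat_lit 72689), .ofNat (nat_lit 7691), .negSucc (nat_lit 84722), .negSucc (nat_lit 6188), .negSucc (nat_lit 63383), .ofNat (nat_lit 15150)⟩⟩, [⟨nat_lit 0, nat_lit 100, nat_lit 97, nat_lit 49, nat_lit 418375228⟩]⟩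
noncomputable def p029_l147 : Lf2 := ⟨nat_lit 0, nat_lit 8, [nat_lit 50, nat_lit 5, nat_lit 5, nat_lit 20], true, nat_lit 0, nat_lit 40, nat_lit 0, nat_lit 320, ⟨nat_lit 0, nat_lit 0, nat_lit 1000, nat_lit 5, nat_lit 96, nat_lit 0, nat_lit 1, nat_lit 0, nat_lit 2817, nat_lit 202, nat_lit 86400, nat_lit 287, nat_lit 63352248, nat_lit 0, nat_lit 0, nat_lit 1056983, false, false⟩,
 nat_lit 0, nat_lit 7818, nat_lit 0, nat_lit 1156, nat_lit 4138, nat_lit 0, nat_lit 259, nat_lit 0, nat_lit 0, nat_lit 0, nat_lit 0, nat_lit 0, nat_lit 0, nat_lit 0, nat_lit 147, nat_lit 1000000, nat_lit 0, nat_lit 0, [(nat_lit 6, [(nat_lit 6, nat_lit 1000)])],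
 ⟨p029_k5, nat_lit 0, nat_lit 0, nat_lit 0, nat_lit 0, nat_lit 83751, [nat_lit 3329066667, nat_lit 3042400001, nat_lit 177599999], [], [nat_lit 11612026001, nat_lit 12742035237, nat_lit 11298193705, nat_lit 12285834640, nat_lit 10916533157, nat_lit 11806330115, nat_lit 10639899473, nat_lit 11574848832], nat_lit 1271250, nat_lit 1271250, nat_lit 230001, nat_lit 490000, nat_lit 0, nat_lit 230001, [nat_lit 1100000, nat_lit 1442500, nat_lit 1271250], [nat_lit 11, nat_lit 40, nat_lit 20, nat_lit 80]⟩, C1.Rw.none,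
 ⟨nat_lit 5916, nat_lit 6325, ⟨.ofNat (nat_lit 170942), .ofNat (nat_lit 253206), .ofNat (nat_lit 213677), .ofNat (nat_lit 295942), .ofNat (nat_lit 185864), .ofNat (nat_lit 264398), .ofNat (nat_lit 228543), .ofNat (nat_lit 307076)⟩, ⟨.negSucc (nat_lit 103633), .negSucc (nat_lit 21368), .negSucc (nat_lit 82265), .negSucc (nat_lit 0), .negSucc (nat_lit 84722), .negSucc (nat_lit 6188), .negSucc (nat_lit 63383), .ofNat (nat_lit 15150)⟩⟩, []⟩
noncomputable def p029_l148 : Lf2 := ⟨nat_lit 0, nat_lit 8, [nat_lit 50, nat_lit 5, nat_lit 5, nat_lit 20], true, nat_lit 40, nat_lit 80, nat_lit 0, nat_lit 320, ⟨nat_lit 0, nat_lit 0, nat_lit 1000, nat_lit 5, nat_lit 82, nat_lit 0, nat_lit 16, nat_lit 554, nat_lit 2017, nat_lit 226, nat_lit 62017, nat_lit 276, nat_lit 64328754, nat_lit 0, nat_lit 0, nat_lit 837629, false, false⟩,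
 nat_lit 0, nat_lit 7957, nat_lit 0, nat_lit 966, nat_lit 4212, nat_lit 0, nat_lit 256, nat_lit 0, nat_lit 0, nat_lit 0, nat_lit 0, nat_lit 0, nat_lit 0, nat_lit 0, nat_lit 147, nat_lit 1000000, nat_lit 0, nat_lit 0, [(nat_lit 6, [(nat_lit 6, nat_lit 1000)])],
 ⟨p029_k5, nat_lit 0, nat_lit 0, nat_lit 0, nat_lit 0, nat_lit 83751, [nat_lit 3329066667, nat_lit 3042400001, nat_lit 177599999], [], [nat_lit 11928587787, nat_lit 13263958863, nat_lit 10487776811, nat_lit 11452406804, nat_lit 11023620540, nat_lit 12015136264, nat_lit 9806145643, nat_lit 10715949012], nat_lit 1271250, nat_lit 1271250, nat_lit 21650, nat_lit 490000, nat_lit 230001, nat_lit 490000, [nat_lit 1100000, nat_lit 1442500, nat_lit 1271250], [nat_lit 11, nat_lit 40, nat_lit 20, nat_lit 80]⟩, C1.Rw.none,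
 ⟨nat_lit 5916, nat_lit 6325, ⟨.ofNat (nat_lit 96904), .ofNat (nat_lit 253206), .ofNat (nat_lit 139640), .ofNat (nat_lit 295942), .ofNat (nat_lit 115184), .ofNat (nat_lit 264398), .ofNat (nat_lit 157863), .ofNat (nat_lit 307076)⟩, ⟨.negSucc (nat_lit 21368), .ofNat (nat_lit 60895), .negSucc (nat_lit 0), .ofNat (nat_lit 82263), .negSucc (nat_lit 6188), .ofNat (nat_lit 72344), .ofNat (nat_lit 15150), .ofNat (nat_lit 93684)⟩⟩, [⟨nat_lit 0, nat_lit 100, nat_lit 97, nat_lit 49, nat_lit 226998633⟩]⟩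
noncomputable def p029_l149 : Lf2 := ⟨nat_lit 0, nat_lit 8, [nat_lit 50, nat_lit 5, nat_lit 5, nat_lit 20], true, nat_lit 0, nat_lit 80, nat_lit 0, nat_lit 320, ⟨nat_lit 0, nat_lit 0, nat_lit 1000, nat_lit 5, nat_lit 82, nat_lit 0, nat_lit 15, nat_lit 0, nat_lit 17, nat_lit 214, nat_lit 62017, nat_lit 276, nat_lit 64328754, nat_lit 0, nat_lit 0, nat_lit 837629, false, false⟩,
 nat_lit 0, nat_lit 543788, nat_lit 0, nat_lit 0, nat_lit 287887, nat_lit 0, nat_lit 60000, nat_lit 19861, nat_lit 0, nat_lit 0, nat_lit 0, nat_lit 0, nat_lit 0, nat_lit 0, nat_lit 0, nat_lit 1000000, nat_lit 0, nat_lit 0, [(nat_lit 6, [(nat_lit 6, nat_lit 1000)])],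
 ⟨p029_k5, nat_lit 0, nat_lit 0, nat_lit 324, nat_lit 0, nat_lit 83751, [nat_lit 318753066667, nat_lit 397322400001, nat_lit 552169599999], [], [nat_lit 775368906241, nat_lit 792253783909, nat_lit 688976170937, nat_lit 602251355197, nat_lit 685204624518, nat_lit 588819116838, nat_lit 685461711745, nat_lit 546021340199], nat_lit 1271250, nat_lit 1271250, nat_lit 21650, nat_lit 490000, nat_lit 0, nat_lit 490000, [nat_lit 1100000, nat_lit 1442500, nat_lit 1271250], [nat_lit 11, nat_lit 40, nat_lit 20, nat_lit 80, nat_lit 1, nat_lit 345, nat_lit 125, nat_lit 10]⟩, C1.Rw.none,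
 ⟨nat_lit 5916, nat_lit 6325, ⟨.ofNat (nat_lit 96904), .ofNat (nat_lit 253206), .ofNat (nat_lit 139640), .ofNat (nat_lit 295942), .ofNat (nat_lit 115184), .ofNat (nat_lit 264398), .ofNat (nat_lit 157863), .ofNat (nat_lit 307076)⟩, ⟨.negSucc (nat_lit 103633), .ofNat (nat_lit 60895), .negSucc (nat_lit 82265), .ofNat (nat_lit 82263), .negSucc (nat_lit 84722), .ofNat (nat_lit 72344), .negSucc (nat_lit 63383), .ofNat (nat_lit 93684)⟩⟩, []⟩
noncomputable def b_VL_600_500_5_4 : St := ⟨true, nat_lit 1, nat_lit 0, nat_lit 1, nat_lit 40, nat_lit 240, nat_lit 260, nat_lit 200, nat_lit 240, nat_lit 4, nat_lit 80, nat_lit 20, nat_lit 40, nat_lit 0, nat_lit 80, nat_lit 0, nat_lit 320, nat_lit 0, nat_lit 32, nat_lit 0, nat_lit 0, nat_lit 0, nat_lit 800⟩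
theorem d_VL_600_500_5_4 (h : EB TB.env) : Dead b_VL_600_500_5_4 := chkB_sound0 h (T :=
(.spl (nat_lit 6) (nat_lit 20)
(.spl (nat_lit 0) (nat_lit 250)
(.spl (nat_lit 6) (nat_lit 8)
(.spl (nat_lit 1) (nat_lit 220)
(.leaf p029_l129)
(.trZ (nat_lit 0) (nat_lit 100) (nat_lit 98) (nat_lit 30) (nat_lit 8) (.trX (nat_lit 19) (nat_lit 100) (nat_lit 86) (nat_lit 60) (nat_lit 304) (.spl (nat_lit 1) (nat_lit 230)
(.spl (nat_lit 4) (nat_lit 40)
(.leaf p029_l130)
(.leaf p029_l131))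
(.trZ (nat_lit 0) (nat_lit 100) (nat_lit 99) (nat_lit 35) (nat_lit 12) (.trX (nat_lit 19) (nat_lit 100) (nat_lit 89) (nat_lit 61) (nat_lit 296) (.spl (nat_lit 0) (nat_lit 245)
(.spl (nat_lit 5) (nat_lit 160)
(.leaf p029_l132)
(.leaf p029_l133))
(.spl (nat_lit 4) (nat_lit 40)
(.leaf p029_l134)
(.leaf p029_l135)))))))))
(.spl (nat_lit 4) (nat_lit 40)
(.spl (nat_lit 6) (nat_lit 16)
(.leaf p029_l136)
(.leaf p029_l137))
(.spl (nat_lit 0) (nat_lit 245)
(.leaf p029_l138)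
(.leaf p029_l139))))
(.spl (nat_lit 1) (nat_lit 220)
(.leaf p029_l140)
(.trZ (nat_lit 0) (nat_lit 100) (nat_lit 97) (nat_lit 35) (nat_lit 12) (.trX (nat_lit 19) (nat_lit 100) (nat_lit 86) (nat_lit 60) (nat_lit 304) (.spl (nat_lit 4) (nat_lit 40)
(.leaf p029_l141)
(.leaf p029_l142))))))
(.spl (nat_lit 7) (nat_lit 600)
(.spl (nat_lit 4) (nat_lit 40)
(.spl (nat_lit 2) (nat_lit 40)
(.spl (nat_lit 0) (nat_lit 250)
(.spl (nat_lit 6) (nat_lit 24)
(.spl (nat_lit 2) (nat_lit 20)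
(.leaf p029_l143)
(.leaf p029_l144))
(.leaf p029_l145))
(.leaf p029_l146))
(.leaf p029_l147))
(.leaf p029_l148))
(.leaf p029_l149)))) (by decide +kernel)
noncomputable def p029_l150 : Lf2 := ⟨nat_lit 0, nat_lit 5, [nat_lit 4, nat_lit 5, nat_lit 5, nat_lit 20], true, nat_lit 80, nat_lit 120, nat_lit 0, nat_lit 320, ⟨nat_lit 0, nat_lit 0, nat_lit 1000, nat_lit 5, nat_lit 80, nat_lit 1000, nat_lit 46, nat_lit 1000, nat_lit 20417, nat_lit 250, nat_lit 60000, nat_lit 275, nat_lit 62949836, nat_lit 0, nat_lit 0, nat_lit 1386670, false, false⟩,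
 nat_lit 0, nat_lit 9075, nat_lit 0, nat_lit 0, nat_lit 4804, nat_lit 0, nat_lit 491, nat_lit 0, nat_lit 0, nat_lit 0, nat_lit 0, nat_lit 0, nat_lit 0, nat_lit 0, nat_lit 147, nat_lit 1000000, nat_lit 0, nat_lit 0, [(nat_lit 6, [(nat_lit 6, nat_lit 1000)])],
 ⟨p029_k30, nat_lit 0, nat_lit 0, nat_lit 306, nat_lit 0, nat_lit 236016, [nat_lit 3329066667, nat_lit 3042400001, nat_lit 177599999], [], [nat_lit 9787206727, nat_lit 10485242563, nat_lit 8157034188, nat_lit 8844835552, nat_lit 10434651557, nat_lit 11124497862, nat_lit 9154003180, nat_lit 9511534750], nat_lit 1271250, nat_lit 1271250, nat_lit 21650, nat_lit 490000, nat_lit 490000, nat_lit 780000, [nat_lit 1100000, nat_lit 1442500, nat_lit 1271250], [nat_lit 11, nat_lit 40, nat_lit 20, nat_lit 80, nat_lit 1, nat_lit 345, nat_lit 125, nat_lit 10]⟩, C1.Rw.none,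
 ⟨nat_lit 6123, nat_lit 6325, ⟨.ofNat (nat_lit 96904), .ofNat (nat_lit 253206), .ofNat (nat_lit 139640), .ofNat (nat_lit 295942), .ofNat (nat_lit 106133), .ofNat (nat_lit 258856), .ofNat (nat_lit 148829), .ofNat (nat_lit 301553)⟩, ⟨.ofNat (nat_lit 60895), .ofNat (nat_lit 143159), .ofNat (nat_lit 82263), .ofNat (nat_lit 164527), .ofNat (nat_lit 66723), .ofNat (nat_lit 147104), .ofNat (nat_lit 88071), .ofNat (nat_lit 168452)⟩⟩, [⟨nat_lit 0, nat_lit 100, nat_lit 99, nat_lit 45, nat_lit 213293554⟩]⟩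
noncomputable def p029_l151 : Lf2 := ⟨nat_lit 0, nat_lit 5, [nat_lit 4, nat_lit 5, nat_lit 5, nat_lit 20], true, nat_lit 120, nat_lit 160, nat_lit 0, nat_lit 320, ⟨nat_lit 0, nat_lit 0, nat_lit 1000, nat_lit 5, nat_lit 80, nat_lit 1000, nat_lit 79, nat_lit 1000, nat_lit 58017, nat_lit 274, nat_lit 60000, nat_lit 275, nat_lit 61045949, nat_lit 0, nat_lit 0, nat_lit 1906672, false, false⟩,
 nat_lit 0, nat_lit 9426, nat_lit 0, nat_lit 0, nat_lit 4990, nat_lit 0, nat_lit 403, nat_lit 0, nat_lit 0, nat_lit 0, nat_lit 0, nat_lit 0, nat_lit 0, nat_lit 0, nat_lit 147, nat_lit 1000000, nat_lit 0, nat_lit 0, [(nat_lit 6, [(nat_lit 6, nat_lit 1000)])],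
 ⟨p029_k30, nat_lit 0, nat_lit 0, nat_lit 292, nat_lit 0, nat_lit 236016, [nat_lit 3329066667, nat_lit 3042400001, nat_lit 177599999], [], [nat_lit 10443331590, nat_lit 11119161297, nat_lit 8753643388, nat_lit 9114409963, nat_lit 10865353858, nat_lit 11652944007, nat_lit 11262025708, nat_lit 10000643528], nat_lit 1271250, nat_lit 1271250, nat_lit 21650, nat_lit 490000, nat_lit 780000, nat_lit 1100001, [nat_lit 1100000, nat_lit 1442500, nat_lit 1271250], [nat_lit 11, nat_lit 40, nat_lit 20, nat_lit 80, nat_lit 1, nat_lit 345, nat_lit 125, nat_lit 10]⟩, C1.Rw.none,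
 ⟨nat_lit 6123, nat_lit 6325, ⟨.ofNat (nat_lit 96904), .ofNat (nat_lit 253206), .ofNat (nat_lit 139640), .ofNat (nat_lit 295942), .ofNat (nat_lit 106133), .ofNat (nat_lit 258856), .ofNat (nat_lit 148829), .ofNat (nat_lit 301553)⟩, ⟨.ofNat (nat_lit 143159), .ofNat (nat_lit 225423), .ofNat (nat_lit 164527), .ofNat (nat_lit 246791), .ofNat (nat_lit 147104), .ofNat (nat_lit 227485), .ofNat (nat_lit 168452), .ofNat (nat_lit 248833)⟩⟩, [⟨nat_lit 0, nat_lit 100, nat_lit 99, nat_lit 45, nat_lit 122862507⟩]⟩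
noncomputable def p029_l152 : Lf2 := ⟨nat_lit 0, nat_lit 5, [nat_lit 4, nat_lit 5, nat_lit 5, nat_lit 20], true, nat_lit 80, nat_lit 160, nat_lit 0, nat_lit 320, ⟨nat_lit 0, nat_lit 0, nat_lit 1000, nat_lit 5, nat_lit 82, nat_lit 1000, nat_lit 63, nat_lit 1000, nat_lit 38400, nat_lit 263, nat_lit 64067, nat_lit 277, nat_lit 61850847, nat_lit 0, nat_lit 0, nat_lit 1698047, false, false⟩,
 nat_lit 0, nat_lit 8112, nat_lit 0, nat_lit 0, nat_lit 4506, nat_lit 0, nat_lit 700, nat_lit 0, nat_lit 0, nat_lit 0, nat_lit 0, nat_lit 0, nat_lit 0, nat_lit 0, nat_lit 80, nat_lit 1000000, nat_lit 0, nat_lit 0, [(nat_lit 6, [(nat_lit 6, nat_lit 1000)])],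
 ⟨p029_k44, nat_lit 0, nat_lit 0, nat_lit 242, nat_lit 0, nat_lit 248465, [nat_lit 2257066667, nat_lit 1408000000, nat_lit 211200000], [], [nat_lit 10324552197, nat_lit 10844975942, nat_lit 8879284293, nat_lit 9212212466, nat_lit 11661090498, nat_lit 11975902892, nat_lit 10462491151, nat_lit 10557675754], nat_lit 1271250, nat_lit 1271250, nat_lit 21650, nat_lit 490000, nat_lit 490000, nat_lit 1100001, [nat_lit 1100000, nat_lit 1442500, nat_lit 1271250], [nat_lit 9, nat_lit 40, nat_lit 20, nat_lit 80, nat_lit 2, nat_lit 272, nat_lit 60, nat_lit 9]⟩, C1.Rw.none,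
 ⟨nat_lit 6020, nat_lit 6124, ⟨.ofNat (nat_lit 106133), .ofNat (nat_lit 258856), .ofNat (nat_lit 148829), .ofNat (nat_lit 301553), .ofNat (nat_lit 110680), .ofNat (nat_lit 261640), .ofNat (nat_lit 153364), .ofNat (nat_lit 304325)⟩, ⟨.ofNat (nat_lit 66723), .ofNat (nat_lit 227485), .ofNat (nat_lit 88071), .ofNat (nat_lit 248833), .ofNat (nat_lit 69559), .ofNat (nat_lit 228465), .ofNat (nat_lit 90902), .ofNat (nat_lit 249807)⟩⟩, [⟨nat_lit 0, nat_lit 100, nat_lit 98, nat_lit 47, nat_lit 197829234⟩]⟩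
noncomputable def p029_l153 : Lf2 := ⟨nat_lit 0, nat_lit 5, [nat_lit 4, nat_lit 5, nat_lit 5, nat_lit 20], true, nat_lit 80, nat_lit 160, nat_lit 0, nat_lit 320, ⟨nat_lit 0, nat_lit 0, nat_lit 1000, nat_lit 5, nat_lit 84, nat_lit 1000, nat_lit 64, nat_lit 1000, nat_lit 38400, nat_lit 263, nat_lit 66150, nat_lit 278, nat_lit 61705870, nat_lit 0, nat_lit 0, nat_lit 1733923, false, false⟩,
 nat_lit 0, nat_lit 7767, nat_lit 0, nat_lit 0, nat_lit 4417, nat_lit 0, nat_lit 493, nat_lit 0, nat_lit 0, nat_lit 0, nat_lit 0, nat_lit 0, nat_lit 0, nat_lit 0, nat_lit 80, nat_lit 1000000, nat_lit 0, nat_lit 0, [(nat_lit 6, [(nat_lit 6, nat_lit 1000)])],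
 ⟨p029_k47, nat_lit 0, nat_lit 0, nat_lit 249, nat_lit 0, nat_lit 267096, [nat_lit 2257066667, nat_lit 1408000000, nat_lit 211200000], [], [nat_lit 10790977542, nat_lit 11305922636, nat_lit 9377092323, nat_lit 9706743471, nat_lit 12097790186, nat_lit 12409615241, nat_lit 10757407774, nat_lit 11074378886], nat_lit 1271250, nat_lit 1271250, nat_lit 21650, nat_lit 490000, nat_lit 490000, nat_lit 1100001, [nat_lit 1100000, nat_lit 1442500, nat_lit 1271250], [nat_lit 9, nat_lit 40, nat_lit 20, nat_lit 80, nat_lit 2, nat_lit 272, nat_lit 60, nat_lit 9]⟩, C1.Rw.none,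
 ⟨nat_lit 5916, nat_lit 6021, ⟨.ofNat (nat_lit 110680), .ofNat (nat_lit 261640), .ofNat (nat_lit 153364), .ofNat (nat_lit 304325), .ofNat (nat_lit 115184), .ofNat (nat_lit 264398), .ofNat (nat_lit 157863), .ofNat (nat_lit 307076)⟩, ⟨.ofNat (nat_lit 69559), .ofNat (nat_lit 228465), .ofNat (nat_lit 90902), .ofNat (nat_lit 249807), .ofNat (nat_lit 72344), .ofNat (nat_lit 229411), .ofNat (nat_lit 93684), .ofNat (nat_lit 250751)⟩⟩, [⟨nat_lit 0, nat_lit 100, nat_lit 97, nat_lit 49, nat_lit 196243135⟩]⟩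
noncomputable def p029_l154 : Lf2 := ⟨nat_lit 0, nat_lit 8, [nat_lit 50, nat_lit 5, nat_lit 5, nat_lit 20], true, nat_lit 80, nat_lit 160, nat_lit 0, nat_lit 320, ⟨nat_lit 0, nat_lit 0, nat_lit 1000, nat_lit 5, nat_lit 82, nat_lit 1000, nat_lit 63, nat_lit 1000, nat_lit 36817, nat_lit 262, nat_lit 62017, nat_lit 276, nat_lit 61926992, nat_lit 0, nat_lit 0, nat_lit 1679036, false, false⟩,
 nat_lit 0, nat_lit 11397, nat_lit 0, nat_lit 0, nat_lit 6033, nat_lit 0, nat_lit 166, nat_lit 0, nat_lit 0, nat_lit 0, nat_lit 0, nat_lit 0, nat_lit 0, nat_lit 0, nat_lit 147, nat_lit 1000000, nat_lit 0, nat_lit 0, [(nat_lit 6, [(nat_lit 6, nat_lit 1000)])],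
 ⟨p029_k5, nat_lit 0, nat_lit 0, nat_lit 234, nat_lit 0, nat_lit 83751, [nat_lit 3329066667, nat_lit 3042400001, nat_lit 177599999], [], [nat_lit 10820768775, nat_lit 12395313369, nat_lit 7436684435, nat_lit 8937945197, nat_lit 11320809240, nat_lit 13095814479, nat_lit 9273750636, nat_lit 9467941195], nat_lit 1271250, nat_lit 1271250, nat_lit 21650, nat_lit 490000, nat_lit 490000, nat_lit 1100001, [nat_lit 1100000, nat_lit 1442500, nat_lit 1271250], [nat_lit 11, nat_lit 40, nat_lit 20, nat_lit 80, nat_lit 1, nat_lit 345, nat_lit 125, nat_lit 10]⟩, C1.Rw.none,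
 ⟨nat_lit 5916, nat_lit 6325, ⟨.ofNat (nat_lit 96904), .ofNat (nat_lit 253206), .ofNat (nat_lit 139640), .ofNat (nat_lit 295942), .ofNat (nat_lit 115184), .ofNat (nat_lit 264398), .ofNat (nat_lit 157863), .ofNat (nat_lit 307076)⟩, ⟨.ofNat (nat_lit 60895), .ofNat (nat_lit 225423), .ofNat (nat_lit 82263), .ofNat (nat_lit 246791), .ofNat (nat_lit 72344), .ofNat (nat_lit 229411), .ofNat (nat_lit 93684), .ofNat (nat_lit 250751)⟩⟩, [⟨nat_lit 0, nat_lit 100, nat_lit 97, nat_lit 49, nat_lit 338587500⟩]⟩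
noncomputable def b_VL_600_500_5_5 : St := ⟨true, nat_lit 1, nat_lit 0, nat_lit 1, nat_lit 40, nat_lit 240, nat_lit 260, nat_lit 200, nat_lit 240, nat_lit 4, nat_lit 80, nat_lit 20, nat_lit 40, nat_lit 80, nat_lit 160, nat_lit 0, nat_lit 320, nat_lit 0, nat_lit 32, nat_lit 0, nat_lit 0, nat_lit 0, nat_lit 800⟩
theorem d_VL_600_500_5_5 (h : EB TB.env) : Dead b_VL_600_500_5_5 := chkB_sound0 h (T :=
(.spl (nat_lit 6) (nat_lit 20)
(.spl (nat_lit 0) (nat_lit 250)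
(.spl (nat_lit 4) (nat_lit 120)
(.leaf p029_l150)
(.leaf p029_l151))
(.spl (nat_lit 0) (nat_lit 255)
(.leaf p029_l152)
(.leaf p029_l153)))
(.leaf p029_l154))) (by decide +kernel)

end B2
end Pool.Agent.Lib.MP_6947cd_al
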