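import Pool.Agent.Lib.MP_6947cd_al.ZB.Pre

/-!
Problem MP_6947cd_al (Chollet).  Case B, second entry in [2/5, 17/20]: certificates of the tree, part P030 (generated).
-/

set_option autoImplicit false
set_option linter.all false

namespace Pool.Agent.Lib.MP_6947cd_al
namespace B2

open Ent Fr B1 PkA

noncomputable def p030_k0 : C1.Kn := ⟨[nat_lit 80, nat_lit 100, nat_lit 120], [nat_lit 0, nat_lit 265, nat_lit 768], [(nat_lit 0, nat_lit 0, nat_lit 0), (nat_lit 1000, nat_lit 959, nat_lit 206), (nat_lit 1000, nat_lit 958, nat_lit 392)], (nat_lit 96, nat_lit 100, nat_lit 44)⟩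
noncomputable def p030_k1 : C1.Kn := ⟨[nat_lit 80, nat_lit 100, nat_lit 120], [nat_lit 0, nat_lit 332, nat_lit 833], [(nat_lit 0, nat_lit 0, nat_lit 0), (nat_lit 1000, nat_lit 948, nat_lit 259), (nat_lit 1000, nat_lit 948, nat_lit 391)], (nat_lit 95, nat_lit 100, nat_lit 44)⟩
noncomputable def p030_k2 : C1.Kn := ⟨[nat_lit 80, nat_lit 100, nat_lit 120], [nat_lit 0, nat_lit 399, nat_lit 897], [(nat_lit 0, nat_lit 0, nat_lit 0), (nat_lit 1000, nat_lit 938, nat_lit 310), (nat_lit 1000, nat_lit 938, nat_lit 389)], (nat_lit 94, nat_lit 100, nat_lit 44)⟩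
noncomputable def p030_k3 : C1.Kn := ⟨[nat_lit 80, nat_lit 120], [nat_lit 0, nat_lit 796], [(nat_lit 0, nat_lit 0, nat_lit 0), (nat_lit 1000, nat_lit 938, nat_lit 310)], (nat_lit 94, nat_lit 100, nat_lit 44)⟩
noncomputable def p030_k4 : C1.Kn := ⟨[nat_lit 80, nat_lit 100, nat_lit 140], [nat_lit 0, nat_lit 265, nat_lit 1269], [(nat_lit 0, nat_lit 0, nat_lit 0), (nat_lit 1000, nat_lit 959, nat_lit 206), (nat_lit 1000, nat_lit 958, nat_lit 392)], (nat_lit 100, nat_lit 99, nat_lit 63)⟩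
noncomputable def p030_k5 : C1.Kn := ⟨[nat_lit 80, nat_lit 100, nat_lit 140], [nat_lit 0, nat_lit 0, nat_lit 1022], [(nat_lit 0, nat_lit 0, nat_lit 0), (nat_lit 0, nat_lit 0, nat_lit 0), (nat_lit 1000, nat_lit 1000, nat_lit 399)], (nat_lit 100, nat_lit 99, nat_lit 44)⟩
noncomputable def p030_k6 : C1.Kn := ⟨[nat_lit 100, nat_lit 120, nat_lit 160], [nat_lit 0, nat_lit 0, nat_lit 1063], [(nat_lit 0, nat_lit 0, nat_lit 0), (nat_lit 0, nat_lit 0, nat_lit 0), (nat_lit 924, nat_lit 1000, nat_lit 383)], (nat_lit 100, nat_lit 90, nat_lit 44)⟩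
noncomputable def p030_k7 : C1.Kn := ⟨[nat_lit 80, nat_lit 100, nat_lit 140], [nat_lit 0, nat_lit 0, nat_lit 1022], [(nat_lit 0, nat_lit 0, nat_lit 0), (nat_lit 0, nat_lit 0, nat_lit 0), (nat_lit 1000, nat_lit 1000, nat_lit 399)], (nat_lit 100, nat_lit 95, nat_lit 55)⟩
noncomputable def p030_k8 : C1.Kn := ⟨[nat_lit 100, nat_lit 120, nat_lit 160], [nat_lit 0, nat_lit 254, nat_lit 1301], [(nat_lit 0, nat_lit 0, nat_lit 0), (nat_lit 1000, nat_lit 1000, nat_lit 198), (nat_lit 960, nat_lit 1000, nat_lit 392)], (nat_lit 100, nat_lit 89, nat_lit 55)⟩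
noncomputable def p030_k9 : C1.Kn := ⟨[nat_lit 100, nat_lit 120, nat_lit 140], [nat_lit 0, nat_lit 254, nat_lit 778], [(nat_lit 0, nat_lit 0, nat_lit 0), (nat_lit 1000, nat_lit 1000, nat_lit 198), (nat_lit 960, nat_lit 1000, nat_lit 392)], (nat_lit 100, nat_lit 94, nat_lit 44)⟩
noncomputable def p030_k10 : C1.Kn := ⟨[nat_lit 100, nat_lit 120, nat_lit 160], [nat_lit 0, nat_lit 0, nat_lit 1063], [(nat_lit 0, nat_lit 0, nat_lit 0), (nat_lit 0, nat_lit 0, nat_lit 0), (nat_lit 924, nat_lit 1000, nat_lit 383)], (nat_lit 100, nat_lit 80, nat_lit 60)⟩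
noncomputable def p030_k11 : C1.Kn := ⟨[nat_lit 100, nat_lit 120, nat_lit 160], [nat_lit 0, nat_lit 0, nat_lit 1063], [(nat_lit 0, nat_lit 0, nat_lit 0), (nat_lit 0, nat_lit 0, nat_lit 0), (nat_lit 924, nat_lit 1000, nat_lit 383)], (nat_lit 100, nat_lit 84, nat_lit 54)⟩
noncomputable def p030_k12 : C1.Kn := ⟨[nat_lit 80, nat_lit 100, nat_lit 140], [nat_lit 0, nat_lit 132, nat_lit 1148], [(nat_lit 0, nat_lit 0, nat_lit 0), (nat_lit 1000, nat_lit 979, nat_lit 103), (nat_lit 1000, nat_lit 979, nat_lit 397)], (nat_lit 100, nat_lit 98, nat_lit 56)⟩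
noncomputable def p030_k13 : C1.Kn := ⟨[nat_lit 80, nat_lit 100, nat_lit 160], [nat_lit 0, nat_lit 0, nat_lit 1533], [(nat_lit 0, nat_lit 0, nat_lit 0), (nat_lit 0, nat_lit 0, nat_lit 0), (nat_lit 1000, nat_lit 1000, nat_lit 399)], (nat_lit 100, nat_lit 92, nat_lit 61)⟩
noncomputable def p030_k14 : C1.Kn := ⟨[nat_lit 80, nat_lit 100, nat_lit 120], [nat_lit 0, nat_lit 132, nat_lit 640], [(nat_lit 0, nat_lit 0, nat_lit 0), (nat_lit 1000, nat_lit 979, nat_lit 103), (nat_lit 1000, nat_lit 979, nat_lit 397)], (nat_lit 99, nat_lit 100, nat_lit 44)⟩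
noncomputable def p030_k15 : C1.Kn := ⟨[nat_lit 80, nat_lit 100, nat_lit 120], [nat_lit 0, nat_lit 0, nat_lit 511], [(nat_lit 0, nat_lit 0, nat_lit 0), (nat_lit 0, nat_lit 0, nat_lit 0), (nat_lit 1000, nat_lit 997, nat_lit 383)], (nat_lit 98, nat_lit 100, nat_lit 28)⟩
noncomputable def p030_k16 : C1.Kn := ⟨[nat_lit 80, nat_lit 100, nat_lit 120], [nat_lit 0, nat_lit 65, nat_lit 576], [(nat_lit 0, nat_lit 0, nat_lit 0), (nat_lit 1000, nat_lit 990, nat_lit 51), (nat_lit 1000, nat_lit 990, nat_lit 399)], (nat_lit 98, nat_lit 100, nat_lit 28)⟩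
noncomputable def p030_k17 : C1.Kn := ⟨[nat_lit 100, nat_lit 120], [nat_lit 0, nat_lit 254], [(nat_lit 0, nat_lit 0, nat_lit 0), (nat_lit 1000, nat_lit 1000, nat_lit 198)], (nat_lit 100, nat_lit 99, nat_lit 28)⟩
noncomputable def p030_k18 : C1.Kn := ⟨[nat_lit 80, nat_lit 120], [nat_lit 0, nat_lit 0], [(nat_lit 0, nat_lit 0, nat_lit 0), (nat_lit 0, nat_lit 0, nat_lit 0)], (nat_lit 100, nat_lit 100, nat_lit 40)⟩
noncomputable def p030_k19 : C1.Kn := ⟨[nat_lit 80, nat_lit 120, nat_lit 140], [nat_lit 0, nat_lit 0, nat_lit 1164], [(nat_lit 0, nat_lit 0, nat_lit 0), (nat_lit 0, nat_lit 0, nat_lit 0), (nat_lit 941, nat_lit 1000, nat_lit 576)], (nat_lit 100, nat_lit 98, nat_lit 48)⟩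
noncomputable def p030_k20 : C1.Kn := ⟨[nat_lit 80, nat_lit 100, nat_lit 120], [nat_lit 0, nat_lit 0, nat_lit 511], [(nat_lit 0, nat_lit 0, nat_lit 0), (nat_lit 0, nat_lit 0, nat_lit 0), (nat_lit 1000, nat_lit 997, nat_lit 383)], (nat_lit 100, nat_lit 100, nat_lit 40)⟩
noncomputable def p030_k21 : C1.Kn := ⟨[nat_lit 100, nat_lit 140], [nat_lit 0, nat_lit 508], [(nat_lit 0, nat_lit 0, nat_lit 0), (nat_lit 1000, nat_lit 1000, nat_lit 198)], (nat_lit 100, nat_lit 96, nat_lit 39)⟩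
noncomputable def p030_k22 : C1.Kn := ⟨[nat_lit 100, nat_lit 140], [nat_lit 0, nat_lit 766], [(nat_lit 0, nat_lit 0, nat_lit 0), (nat_lit 1000, nat_lit 1000, nat_lit 299)], (nat_lit 100, nat_lit 98, nat_lit 40)⟩
noncomputable def p030_k23 : C1.Kn := ⟨[nat_lit 100, nat_lit 140], [nat_lit 0, nat_lit 896], [(nat_lit 0, nat_lit 0, nat_lit 0), (nat_lit 1000, nat_lit 1000, nat_lit 350)], (nat_lit 100, nat_lit 99, nat_lit 40)⟩
noncomputable def p030_k24 : C1.Kn := ⟨[nat_lit 100, nat_lit 120], [nat_lit 0, nat_lit 383], [(nat_lit 0, nat_lit 0, nat_lit 0), (nat_lit 1000, nat_lit 1000, nat_lit 299)], (nat_lit 100, nat_lit 100, nat_lit 28)⟩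
noncomputable def p030_k25 : C1.Kn := ⟨[nat_lit 80, nat_lit 140], [nat_lit 0, nat_lit 0], [(nat_lit 0, nat_lit 0, nat_lit 0), (nat_lit 0, nat_lit 0, nat_lit 0)], (nat_lit 100, nat_lit 98, nat_lit 48)⟩
noncomputable def p030_k26 : C1.Kn := ⟨[nat_lit 80, nat_lit 100, nat_lit 120], [nat_lit 0, nat_lit 132, nat_lit 640], [(nat_lit 0, nat_lit 0, nat_lit 0), (nat_lit 1000, nat_lit 979, nat_lit 103), (nat_lit 1000, nat_lit 979, nat_lit 397)], (nat_lit 97, nat_lit 100, nat_lit 28)⟩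
noncomputable def p030_k27 : C1.Kn := ⟨[nat_lit 80, nat_lit 120], [nat_lit 0, nat_lit 264], [(nat_lit 0, nat_lit 0, nat_lit 0), (nat_lit 1000, nat_lit 979, nat_lit 103)], (nat_lit 99, nat_lit 100, nat_lit 44)⟩
noncomputable def p030_k28 : C1.Kn := ⟨[nat_lit 80, nat_lit 140], [nat_lit 0, nat_lit 395], [(nat_lit 0, nat_lit 0, nat_lit 0), (nat_lit 1000, nat_lit 979, nat_lit 103)], (nat_lit 100, nat_lit 98, nat_lit 56)⟩
noncomputable def p030_k29 : C1.Kn := ⟨[nat_lit 80, nat_lit 100, nat_lit 120], [nat_lit 0, nat_lit 466, nat_lit 966], [(nat_lit 0, nat_lit 0, nat_lit 0), (nat_lit 1000, nat_lit 927, nat_lit 359), (nat_lit 1000, nat_lit 927, nat_lit 391)], (nat_lit 93, nat_lit 100, nat_lit 44)⟩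
noncomputable def p030_k30 : C1.Kn := ⟨[nat_lit 80, nat_lit 100, nat_lit 140], [nat_lit 0, nat_lit 399, nat_lit 1395], [(nat_lit 0, nat_lit 0, nat_lit 0), (nat_lit 1000, nat_lit 938, nat_lit 310), (nat_lit 1000, nat_lit 938, nat_lit 389)], (nat_lit 98, nat_lit 100, nat_lit 63)⟩
noncomputable def p030_k31 : C1.Kn := ⟨[nat_lit 80, nat_lit 140], [nat_lit 0, nat_lit 792], [(nat_lit 0, nat_lit 0, nat_lit 0), (nat_lit 1000, nat_lit 959, nat_lit 206)], (nat_lit 100, nat_lit 99, nat_lit 63)⟩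
noncomputable def p030_k32 : C1.Kn := ⟨[nat_lit 100, nat_lit 120, nat_lit 160], [nat_lit 0, nat_lit 254, nat_lit 1301], [(nat_lit 0, nat_lit 0, nat_lit 0), (nat_lit 1000, nat_lit 1000, nat_lit 198), (nat_lit 960, nat_lit 1000, nat_lit 392)], (nat_lit 100, nat_lit 86, nat_lit 60)⟩
noncomputable def p030_k33 : C1.Kn := ⟨[nat_lit 80, nat_lit 100, nat_lit 120], [nat_lit 0, nat_lit 36, nat_lit 550], [(nat_lit 0, nat_lit 0, nat_lit 0), (nat_lit 1000, nat_lit 994, nat_lit 28), (nat_lit 1000, nat_lit 993, nat_lit 397)], (nat_lit 98, nat_lit 100, nat_lit 28)⟩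
noncomputable def p030_k34 : C1.Kn := ⟨[nat_lit 80, nat_lit 100, nat_lit 140], [nat_lit 0, nat_lit 65, nat_lit 1086], [(nat_lit 0, nat_lit 0, nat_lit 0), (nat_lit 1000, nat_lit 990, nat_lit 51), (nat_lit 1000, nat_lit 990, nat_lit 399)], (nat_lit 100, nat_lit 100, nat_lit 45)⟩
noncomputable def p030_k35 : C1.Kn := ⟨[nat_lit 100, nat_lit 120, nat_lit 140], [nat_lit 0, nat_lit 0, nat_lit 533], [(nat_lit 0, nat_lit 0, nat_lit 0), (nat_lit 0, nat_lit 0, nat_lit 0), (nat_lit 924, nat_lit 1000, nat_lit 383)], (nat_lit 100, nat_lit 96, nat_lit 28)⟩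
noncomputable def p030_k36 : C1.Kn := ⟨[nat_lit 80, nat_lit 100], [nat_lit 0, nat_lit 265], [(nat_lit 0, nat_lit 0, nat_lit 0), (nat_lit 1000, nat_lit 959, nat_lit 206)], (nat_lit 95, nat_lit 100, nat_lit 28)⟩
noncomputable def p030_k37 : C1.Kn := ⟨[nat_lit 100, nat_lit 140], [nat_lit 0, nat_lit 0], [(nat_lit 0, nat_lit 0, nat_lit 0), (nat_lit 0, nat_lit 0, nat_lit 0)], (nat_lit 100, nat_lit 96, nat_lit 28)⟩
noncomputable def p030_k38 : C1.Kn := ⟨[nat_lit 80, nat_lit 100], [nat_lit 0, nat_lit 399], [(nat_lit 0, nat_lit 0, nat_lit 0), (nat_lit 1000, nat_lit 938, nat_lit 310)], (nat_lit 94, nat_lit 100, nat_lit 28)⟩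
noncomputable def p030_k39 : C1.Kn := ⟨[nat_lit 80, nat_lit 100, nat_lit 140], [nat_lit 0, nat_lit 198, nat_lit 1210], [(nat_lit 0, nat_lit 0, nat_lit 0), (nat_lit 1000, nat_lit 969, nat_lit 154), (nat_lit 1000, nat_lit 969, nat_lit 395)], (nat_lit 100, nat_lit 100, nat_lit 56)⟩
noncomputable def p030_k40 : C1.Kn := ⟨[nat_lit 100, nat_lit 120, nat_lit 160], [nat_lit 0, nat_lit 383, nat_lit 1421], [(nat_lit 0, nat_lit 0, nat_lit 0), (nat_lit 1000, nat_lit 1000, nat_lit 299), (nat_lit 979, nat_lit 1000, nat_lit 397)], (nat_lit 100, nat_lit 89, nat_lit 61)⟩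
noncomputable def p030_k41 : C1.Kn := ⟨[nat_lit 80, nat_lit 120, nat_lit 160], [nat_lit 0, nat_lit 0, nat_lit 2132], [(nat_lit 0, nat_lit 0, nat_lit 0), (nat_lit 0, nat_lit 0, nat_lit 0), (nat_lit 858, nat_lit 1000, nat_lit 713)], (nat_lit 100, nat_lit 92, nat_lit 61)⟩
noncomputable def p030_k42 : C1.Kn := ⟨[nat_lit 100, nat_lit 140, nat_lit 160], [nat_lit 0, nat_lit 508, nat_lit 1689], [(nat_lit 0, nat_lit 0, nat_lit 0), (nat_lit 1000, nat_lit 1000, nat_lit 198), (nat_lit 811, nat_lit 1000, nat_lit 671)], (nat_lit 100, nat_lit 86, nat_lit 60)⟩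
noncomputable def p030_k43 : C1.Kn := ⟨[nat_lit 80, nat_lit 100, nat_lit 140], [nat_lit 0, nat_lit 265, nat_lit 1269], [(nat_lit 0, nat_lit 0, nat_lit 0), (nat_lit 1000, nat_lit 959, nat_lit 206), (nat_lit 1000, nat_lit 958, nat_lit 392)], (nat_lit 98, nat_lit 100, nat_lit 52)⟩
noncomputable def p030_k44 : C1.Kn := ⟨[nat_lit 100, nat_lit 120, nat_lit 160], [nat_lit 0, nat_lit 0, nat_lit 1063], [(nat_lit 0, nat_lit 0, nat_lit 0), (nat_lit 0, nat_lit 0, nat_lit 0), (nat_lit 924, nat_lit 1000, nat_lit 383)], (nat_lit 100, nat_lit 86, nat_lit 51)⟩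
noncomputable def p030_k45 : C1.Kn := ⟨[nat_lit 80, nat_lit 140], [nat_lit 0, nat_lit 995], [(nat_lit 0, nat_lit 0, nat_lit 0), (nat_lit 1000, nat_lit 948, nat_lit 259)], (nat_lit 97, nat_lit 100, nat_lit 52)⟩
noncomputable def p030_k46 : C1.Kn := ⟨[nat_lit 100, nat_lit 160], [nat_lit 0, nat_lit 0], [(nat_lit 0, nat_lit 0, nat_lit 0), (nat_lit 0, nat_lit 0, nat_lit 0)], (nat_lit 100, nat_lit 86, nat_lit 51)⟩
noncomputable def p030_k47 : C1.Kn := ⟨[nat_lit 80, nat_lit 140], [nat_lit 0, nat_lit 1192], [(nat_lit 0, nat_lit 0, nat_lit 0), (nat_lit 1000, nat_lit 938, nat_lit 310)], (nat_lit 98, nat_lit 100, nat_lit 63)⟩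
noncomputable def p030_k48 : C1.Kn := ⟨[nat_lit 100, nat_lit 160], [nat_lit 0, nat_lit 0], [(nat_lit 0, nat_lit 0, nat_lit 0), (nat_lit 0, nat_lit 0, nat_lit 0)], (nat_lit 100, nat_lit 80, nat_lit 60)⟩
noncomputable def p030_k49 : C1.Kn := ⟨[nat_lit 100, nat_lit 160], [nat_lit 0, nat_lit 761], [(nat_lit 0, nat_lit 0, nat_lit 0), (nat_lit 1000, nat_lit 1000, nat_lit 198)], (nat_lit 100, nat_lit 86, nat_lit 60)⟩
noncomputable def p030_k50 : C1.Kn := ⟨[nat_lit 100, nat_lit 140], [nat_lit 0, nat_lit 508], [(nat_lit 0, nat_lit 0, nat_lit 0), (nat_lit 1000, nat_lit 1000, nat_lit 198)], (nat_lit 100, nat_lit 94, nat_lit 44)⟩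
noncomputable def p030_l0 : Lf2 := ⟨nat_lit 0, nat_lit 5, [nat_lit 4, nat_lit 5, nat_lit 5, nat_lit 20], true, nat_lit 0, nat_lit 80, nat_lit 0, nat_lit 320, ⟨nat_lit 0, nat_lit 0, nat_lit 1000, nat_lit 5, nat_lit 87, nat_lit 0, nat_lit 17, nat_lit 700, nat_lit 67, nat_lit 217, nat_lit 72600, nat_lit 281, nat_lit 63944454, nat_lit 0, nat_lit 0, nat_lit 926817, false, false⟩,
 nat_lit 0, nat_lit 6545, nat_lit 0, nat_lit 0, nat_lit 3809, nat_lit 0, nat_lit 341, nat_lit 0, nat_lit 0, nat_lit 0, nat_lit 0, nat_lit 0, nat_lit 0, nat_lit 0, nat_lit 117, nat_lit 1000000, nat_lit 0, nat_lit 0, [(nat_lit 9, [(nat_lit 6, nat_lit 1000)])],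
 ⟨p030_k0, nat_lit 0, nat_lit 0, nat_lit 366, nat_lit 0, nat_lit 311563, [nat_lit 2969600000, nat_lit 1600000000, nat_lit 226400000], [], [nat_lit 14573930357, nat_lit 15200505683, nat_lit 13756326704, nat_lit 14347908352, nat_lit 13511721673, nat_lit 14101161606, nat_lit 14266295460, nat_lit 13459156646], nat_lit 1271250, nat_lit 1271250, nat_lit 43600, nat_lit 490000, nat_lit 0, nat_lit 490000, [nat_lit 1100000, nat_lit 1442500, nat_lit 1271250], [nat_lit 9, nat_lit 40, nat_lit 20, nat_lit 80, nat_lit 2, nat_lit 249, nat_lit 40, nat_lit 9]⟩, C1.Rw.none,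
 ⟨nat_lit 5700, nat_lit 5917, ⟨.ofNat (nat_lit 123037), .ofNat (nat_lit 264398), .ofNat (nat_lit 165716), .ofNat (nat_lit 307076), .ofNat (nat_lit 131747), .ofNat (nat_lit 269841), .ofNat (nat_lit 174431), .ofNat (nat_lit 312525)⟩, ⟨.negSucc (nat_lit 84722), .ofNat (nat_lit 72344), .negSucc (nat_lit 63383), .ofNat (nat_lit 93684), .negSucc (nat_lit 75673), .ofNat (nat_lit 77764), .negSucc (nat_lit 54331), .ofNat (nat_lit 99106)⟩⟩, [⟨nat_lit 0, nat_lit 100, nat_lit 96, nat_lit 54, nat_lit 71214682⟩]⟩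
noncomputable def p030_l1 : Lf2 := ⟨nat_lit 0, nat_lit 5, [nat_lit 4, nat_lit 5, nat_lit 5, nat_lit 20], true, nat_lit 80, nat_lit 160, nat_lit 0, nat_lit 320, ⟨nat_lit 0, nat_lit 0, nat_lit 1000, nat_lit 5, nat_lit 87, nat_lit 1000, nat_lit 65, nat_lit 1000, nat_lit 40017, nat_lit 264, nat_lit 70417, nat_lit 280, nat_lit 61451812, nat_lit 0, nat_lit 0, nat_lit 1794764, false, false⟩,
 nat_lit 0, nat_lit 7783, nat_lit 0, nat_lit 0, nat_lit 4530, nat_lit 0, nat_lit 617, nat_lit 0, nat_lit 0, nat_lit 0, nat_lit 0, nat_lit 0, nat_lit 0, nat_lit 0, nat_lit 117, nat_lit 1000000, nat_lit 0, nat_lit 0, [(nat_lit 9, [(nat_lit 6, nat_lit 1000)])],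
 ⟨p030_k0, nat_lit 0, nat_lit 0, nat_lit 254, nat_lit 0, nat_lit 285513, [nat_lit 2969600000, nat_lit 1600000000, nat_lit 226400000], [], [nat_lit 11054349157, nat_lit 11576794391, nat_lit 9592872260, nat_lit 9953603365, nat_lit 12286740920, nat_lit 12627240998, nat_lit 11065789680, nat_lit 11386697260], nat_lit 1271250, nat_lit 1271250, nat_lit 43600, nat_lit 490000, nat_lit 490000, nat_lit 1100001, [nat_lit 1100000, nat_lit 1442500, nat_lit 1271250], [nat_lit 9, nat_lit 40, nat_lit 20, nat_lit 80, nat_lit 2, nat_lit 272, nat_lit 60, nat_lit 9]⟩, C1.Rw.none,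
 ⟨nat_lit 5809, nat_lit 5917, ⟨.ofNat (nat_lit 123037), .ofNat (nat_lit 264398), .ofNat (nat_lit 165716), .ofNat (nat_lit 307076), .ofNat (nat_lit 127411), .ofNat (nat_lit 267131), .ofNat (nat_lit 170089), .ofNat (nat_lit 309809)⟩, ⟨.ofNat (nat_lit 72344), .ofNat (nat_lit 229411), .ofNat (nat_lit 93684), .ofNat (nat_lit 250751), .ofNat (nat_lit 75079), .ofNat (nat_lit 230324), .ofNat (nat_lit 96418), .ofNat (nat_lit 251663)⟩⟩, [⟨nat_lit 0, nat_lit 100, nat_lit 97, nat_lit 52, nat_lit 192985269⟩]⟩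
noncomputable def p030_l2 : Lf2 := ⟨nat_lit 0, nat_lit 5, [nat_lit 4, nat_lit 5, nat_lit 5, nat_lit 20], true, nat_lit 80, nat_lit 160, nat_lit 0, nat_lit 320, ⟨nat_lit 0, nat_lit 0, nat_lit 1000, nat_lit 5, nat_lit 88, nat_lit 1000, nat_lit 66, nat_lit 1000, nat_lit 40017, nat_lit 264, nat_lit 72600, nat_lit 281, nat_lit 61307785, nat_lit 0, nat_lit 0, nat_lit 1829439, false, false⟩,
 nat_lit 0, nat_lit 8717, nat_lit 0, nat_lit 0, nat_lit 5191, nat_lit 0, nat_lit 819, nat_lit 0, nat_lit 0, nat_lit 0, nat_lit 0, nat_lit 0, nat_lit 0, nat_lit 0, nat_lit 117, nat_lit 1000000, nat_lit 0, nat_lit 0, [(nat_lit 9, [(nat_lit 6, nat_lit 1000)])],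
 ⟨p030_k1, nat_lit 0, nat_lit 0, nat_lit 264, nat_lit 0, nat_lit 303544, [nat_lit 2969600000, nat_lit 1600000000, nat_lit 226400000], [], [nat_lit 12011649568, nat_lit 12578004703, nat_lit 9668856696, nat_lit 9155047185, nat_lit 12896046295, nat_lit 13407367330, nat_lit 14872299928, nat_lit 14260792341], nat_lit 1271250, nat_lit 1271250, nat_lit 43600, nat_lit 490000, nat_lit 490000, nat_lit 1100001, [nat_lit 1100000, nat_lit 1442500, nat_lit 1271250], [nat_lit 9, nat_lit 40, nat_lit 20, nat_lit 80, nat_lit 2, nat_lit 272, nat_lit 60, nat_lit 9]⟩, C1.Rw.none,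
 ⟨nat_lit 5700, nat_lit 5810, ⟨.ofNat (nat_lit 127411), .ofNat (nat_lit 267131), .ofNat (nat_lit 170089), .ofNat (nat_lit 309809), .ofNat (nat_lit 131747), .ofNat (nat_lit 269841), .ofNat (nat_lit 174431), .ofNat (nat_lit 312525)⟩, ⟨.ofNat (nat_lit 75079), .ofNat (nat_lit 230324), .ofNat (nat_lit 96418), .ofNat (nat_lit 251663), .ofNat (nat_lit 77764), .ofNat (nat_lit 231202), .ofNat (nat_lit 99106), .ofNat (nat_lit 252544)⟩⟩, []⟩
noncomputable def p030_l3 : Lf2 := ⟨nat_lit 0, nat_lit 5, [nat_lit 4, nat_lit 5, nat_lit 5, nat_lit 20], true, nat_lit 0, nat_lit 80, nat_lit 0, nat_lit 320, ⟨nat_lit 0, nat_lit 0, nat_lit 1000, nat_lit 5, nat_lit 87, nat_lit 0, nat_lit 18, nat_lit 717, nat_lit 417, nat_lit 220, nat_lit 72600, nat_lit 281, nat_lit 63940548, nat_lit 0, nat_lit 0, nat_lit 927704, false, false⟩,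
 nat_lit 0, nat_lit 6186, nat_lit 0, nat_lit 0, nat_lit 3767, nat_lit 0, nat_lit 54, nat_lit 0, nat_lit 0, nat_lit 0, nat_lit 0, nat_lit 0, nat_lit 0, nat_lit 0, nat_lit 117, nat_lit 1000000, nat_lit 0, nat_lit 0, [(nat_lit 9, [(nat_lit 6, nat_lit 1000)])],
 ⟨p030_k2, nat_lit 0, nat_lit 0, nat_lit 329, nat_lit 0, nat_lit 285030, [nat_lit 2969600000, nat_lit 1600000000, nat_lit 226400000], [], [nat_lit 15122214601, nat_lit 15744677972, nat_lit 14437774576, nat_lit 15026430000, nat_lit 14073555364, nat_lit 14659016384, nat_lit 13870259937, nat_lit 14126603224], nat_lit 1271250, nat_lit 1271250, nat_lit 65850, nat_lit 490000, nat_lit 0, nat_lit 490000, [nat_lit 1100000, nat_lit 1442500, nat_lit 1271250], [nat_lit 9, nat_lit 40, nat_lit 20, nat_lit 80, nat_lit 2, nat_lit 249, nat_lit 40, nat_lit 9]⟩, C1.Rw.none,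
 ⟨nat_lit 5477, nat_lit 5701, ⟨.ofNat (nat_lit 139419), .ofNat (nat_lit 269841), .ofNat (nat_lit 160761), .ofNat (nat_lit 291183), .ofNat (nat_lit 147813), .ofNat (nat_lit 275199), .ofNat (nat_lit 169170), .ofNat (nat_lit 296556)⟩, ⟨.negSucc (nat_lit 75673), .ofNat (nat_lit 77764), .negSucc (nat_lit 54331), .ofNat (nat_lit 99106), .negSucc (nat_lit 66879), .ofNat (nat_lit 82986), .negSucc (nat_lit 45522), .ofNat (nat_lit 104343)⟩⟩, [⟨nat_lit 0, nat_lit 100, nat_lit 92, nat_lit 49, nat_lit 143500403⟩]⟩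
noncomputable def p030_l4 : Lf2 := ⟨nat_lit 0, nat_lit 5, [nat_lit 4, nat_lit 5, nat_lit 5, nat_lit 20], true, nat_lit 0, nat_lit 80, nat_lit 0, nat_lit 304, ⟨nat_lit 0, nat_lit 0, nat_lit 1000, nat_lit 5, nat_lit 99, nat_lit 0, nat_lit 18, nat_lit 611, nat_lit 417, nat_lit 220, nat_lit 91267, nat_lit 289, nat_lit 63127571, nat_lit 0, nat_lit 0, nat_lit 1104311, false, false⟩,
 nat_lit 0, nat_lit 6657, nat_lit 0, nat_lit 0, nat_lit 4054, nat_lit 0, nat_lit 0, nat_lit 0, nat_lit 0, nat_lit 0, nat_lit 0, nat_lit 0, nat_lit 0, nat_lit 0, nat_lit 117, nat_lit 1000000, nat_lit 0, nat_lit 0, [(nat_lit 9, [(nat_lit 6, nat_lit 1000)])],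
 ⟨p030_k3, nat_lit 0, nat_lit 0, nat_lit 367, nat_lit 0, nat_lit 347269, [nat_lit 3178400000, nat_lit 158133334], [], [nat_lit 14962881938, nat_lit 15605028768, nat_lit 14450088712, nat_lit 15058740000, nat_lit 13775851910, nat_lit 14378972264, nat_lit 13692167928, nat_lit 13983863888], nat_lit 1271250, nat_lit 1271250, nat_lit 111251, nat_lit 490000, nat_lit 0, nat_lit 490000, [nat_lit 1100000, nat_lit 1785000], [nat_lit 39, nat_lit 40, nat_lit 20, nat_lit 80, nat_lit 7, nat_lit 249, nat_lit 40, nat_lit 9]⟩, C1.Rw.none,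
 ⟨nat_lit 5477, nat_lit 5701, ⟨.ofNat (nat_lit 176105), .ofNat (nat_lit 291183), .ofNat (nat_lit 197447), .ofNat (nat_lit 312525), .ofNat (nat_lit 184157), .ofNat (nat_lit 296556), .ofNat (nat_lit 205514), .ofNat (nat_lit 317913)⟩, ⟨.negSucc (nat_lit 75673), .ofNat (nat_lit 77764), .negSucc (nat_lit 54331), .ofNat (nat_lit 99106), .negSucc (nat_lit 66879), .ofNat (nat_lit 82986), .negSucc (nat_lit 45522), .ofNat (nat_lit 104343)⟩⟩, [⟨nat_lit 0, nat_lit 100, nat_lit 94, nat_lit 59, nat_lit 140084795⟩]⟩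
noncomputable def p030_l5 : Lf2 := ⟨nat_lit 0, nat_lit 5, [nat_lit 4, nat_lit 5, nat_lit 5, nat_lit 20], true, nat_lit 80, nat_lit 160, nat_lit 0, nat_lit 320, ⟨nat_lit 0, nat_lit 0, nat_lit 1000, nat_lit 5, nat_lit 92, nat_lit 1000, nat_lit 67, nat_lit 1000, nat_lit 41667, nat_lit 265, nat_lit 79350, nat_lit 284, nat_lit 60983189, nat_lit 0, nat_lit 0, nat_lit 1905085, false, false⟩,
 nat_lit 0, nat_lit 7820, nat_lit 0, nat_lit 0, nat_lit 4762, nat_lit 0, nat_lit 750, nat_lit 0, nat_lit 0, nat_lit 0, nat_lit 0, nat_lit 0, nat_lit 0, nat_lit 0, nat_lit 103, nat_lit 866200, nat_lit 0, nat_lit 0, [(nat_lit 9, [(nat_lit 5, nat_lit 223), (nat_lit 6, nat_lit 777)])],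
 ⟨p030_k2, nat_lit 0, nat_lit 0, nat_lit 282, nat_lit 0, nat_lit 347269, [nat_lit 2841222401, nat_lit 1438992801, nat_lit 197604799], [], [nat_lit 12091653616, nat_lit 12996452314, nat_lit 11131462631, nat_lit 11746942067, nat_lit 13279858579, nat_lit 13861500968, nat_lit 15177415565, nat_lit 14055474079], nat_lit 1271250, nat_lit 1271250, nat_lit 65850, nat_lit 490000, nat_lit 490000, nat_lit 1100001, [nat_lit 1100000, nat_lit 1442500, nat_lit 1271250], [nat_lit 9, nat_lit 40, nat_lit 20, nat_lit 80, nat_lit 2, nat_lit 272, nat_lit 60, nat_lit 9]⟩, C1.Rw.none,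
 ⟨nat_lit 5477, nat_lit 5701, ⟨.ofNat (nat_lit 139419), .ofNat (nat_lit 269841), .ofNat (nat_lit 182103), .ofNat (nat_lit 312525), .ofNat (nat_lit 147813), .ofNat (nat_lit 275199), .ofNat (nat_lit 190527), .ofNat (nat_lit 317913)⟩, ⟨.ofNat (nat_lit 77764), .ofNat (nat_lit 231202), .ofNat (nat_lit 99106), .ofNat (nat_lit 252544), .ofNat (nat_lit 82986), .ofNat (nat_lit 232852), .ofNat (nat_lit 104343), .ofNat (nat_lit 254209)⟩⟩, []⟩
noncomputable def p030_l6 : Lf2 := ⟨nat_lit 0, nat_lit 10, [nat_lit 0, nat_lit 5, nat_lit 5, nat_lit 20], true, nat_lit 0, nat_lit 80, nat_lit 0, nat_lit 320, ⟨nat_lit 0, nat_lit 0, nat_lit 1000, nat_lit 5, nat_lit 89, nat_lit 0, nat_lit 18, nat_lit 644, nat_lit 150, nat_lit 218, nat_lit 74817, nat_lit 282, nat_lit 63850725, nat_lit 0, nat_lit 0, nat_lit 947978, false, false⟩,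
 nat_lit 0, nat_lit 6684, nat_lit 0, nat_lit 0, nat_lit 3890, nat_lit 0, nat_lit 0, nat_lit 0, nat_lit 0, nat_lit 0, nat_lit 0, nat_lit 0, nat_lit 0, nat_lit 0, nat_lit 140, nat_lit 702400, nat_lit 0, nat_lit 0, [(nat_lit 9, [(nat_lit 5, nat_lit 496), (nat_lit 6, nat_lit 504)])],
 ⟨p030_k4, nat_lit 0, nat_lit 0, nat_lit 360, nat_lit 0, nat_lit 187309, [nat_lit 3550284801, nat_lit 2518810667, nat_lit 102501333], [], [nat_lit 15209090068, nat_lit 16343720819, nat_lit 14215424243, nat_lit 15409874403, nat_lit 13963255691, nat_lit 15153375700, nat_lit 15795267235, nat_lit 14435026483], nat_lit 1271250, nat_lit 1271250, nat_lit 43600, nat_lit 490000, nat_lit 0, nat_lit 490000, [nat_lit 1100000, nat_lit 1442500, nat_lit 1271250], [nat_lit 11, nat_lit 40, nat_lit 20, nat_lit 80, nat_lit 1, nat_lit 345, nat_lit 125, nat_lit 10]⟩, C1.Rw.none,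
 ⟨nat_lit 5477, nat_lit 5917, ⟨.ofNat (nat_lit 123037), .ofNat (nat_lit 264398), .ofNat (nat_lit 165716), .ofNat (nat_lit 307076), .ofNat (nat_lit 140320), .ofNat (nat_lit 275199), .ofNat (nat_lit 183034), .ofNat (nat_lit 317913)⟩, ⟨.negSucc (nat_lit 84722), .ofNat (nat_lit 72344), .negSucc (nat_lit 63383), .ofNat (nat_lit 93684), .negSucc (nat_lit 66879), .ofNat (nat_lit 82986), .negSucc (nat_lit 45522), .ofNat (nat_lit 104343)⟩⟩, [⟨nat_lit 0, nat_lit 100, nat_lit 94, nat_lit 59, nat_lit 34200449⟩]⟩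
noncomputable def p030_l7 : Lf2 := ⟨nat_lit 0, nat_lit 10, [nat_lit 0, nat_lit 5, nat_lit 5, nat_lit 20], true, nat_lit 80, nat_lit 160, nat_lit 0, nat_lit 320, ⟨nat_lit 0, nat_lit 0, nat_lit 1000, nat_lit 5, nat_lit 89, nat_lit 1000, nat_lit 66, nat_lit 1000, nat_lit 41667, nat_lit 265, nat_lit 74817, nat_lit 282, nat_lit 61239133, nat_lit 0, nat_lit 0, nat_lit 1845815, false, false⟩,
 nat_lit 0, nat_lit 7659, nat_lit 0, nat_lit 0, nat_lit 4458, nat_lit 0, nat_lit 0, nat_lit 0, nat_lit 0, nat_lit 0, nat_lit 0, nat_lit 0, nat_lit 0, nat_lit 0, nat_lit 162, nat_lit 827800, nat_lit 0, nat_lit 0, [(nat_lit 9, [(nat_lit 5, nat_lit 287), (nat_lit 6, nat_lit 713)])],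
 ⟨p030_k4, nat_lit 0, nat_lit 0, nat_lit 292, nat_lit 0, nat_lit 187309, [nat_lit 3812665601, nat_lit 2896668001, nat_lit 159495999], [], [nat_lit 12024867002, nat_lit 13369924806, nat_lit 10272749188, nat_lit 11421150250, nat_lit 12781276140, nat_lit 14002963601, nat_lit 11470993650, nat_lit 12744591202], nat_lit 1271250, nat_lit 1271250, nat_lit 43600, nat_lit 490000, nat_lit 490000, nat_lit 1100001, [nat_lit 1100000, nat_lit 1442500, nat_lit 1271250], [nat_lit 11, nat_lit 40, nat_lit 20, nat_lit 80, nat_lit 1, nat_lit 373, nat_lit 150, nat_lit 11]⟩, C1.Rw.none,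
 ⟨nat_lit 5477, nat_lit 5917, ⟨.ofNat (nat_lit 123037), .ofNat (nat_lit 264398), .ofNat (nat_lit 165716), .ofNat (nat_lit 307076), .ofNat (nat_lit 140320), .ofNat (nat_lit 275199), .ofNat (nat_lit 183034), .ofNat (nat_lit 317913)⟩, ⟨.ofNat (nat_lit 72344), .ofNat (nat_lit 229411), .ofNat (nat_lit 93684), .ofNat (nat_lit 250751), .ofNat (nat_lit 82986), .ofNat (nat_lit 232852), .ofNat (nat_lit 104343), .ofNat (nat_lit 254209)⟩⟩, [⟨nat_lit 0, nat_lit 100, nat_lit 94, nat_lit 59, nat_lit 193718978⟩]⟩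
noncomputable def b_VL_600_500_5_6 : St := ⟨true, nat_lit 1, nat_lit 0, nat_lit 1, nat_lit 40, nat_lit 260, nat_lit 280, nat_lit 200, nat_lit 240, nat_lit 4, nat_lit 80, nat_lit 20, nat_lit 40, nat_lit 0, nat_lit 160, nat_lit 0, nat_lit 320, nat_lit 0, nat_lit 40, nat_lit 0, nat_lit 0, nat_lit 0, nat_lit 800⟩
theorem d_VL_600_500_5_6 (h : EB TB.env) : Dead b_VL_600_500_5_6 := chkB_sound0 h (T :=
(.trZ (nat_lit 0) (nat_lit 100) (nat_lit 95) (nat_lit 30) (nat_lit 8) (.spl (nat_lit 6) (nat_lit 20)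
(.spl (nat_lit 0) (nat_lit 270)
(.spl (nat_lit 4) (nat_lit 80)
(.leaf p030_l0)
(.spl (nat_lit 0) (nat_lit 265)
(.leaf p030_l1)
(.leaf p030_l2)))
(.trZ (nat_lit 0) (nat_lit 100) (nat_lit 94) (nat_lit 35) (nat_lit 12) (.spl (nat_lit 4) (nat_lit 80)
(.spl (nat_lit 1) (nat_lit 220)
(.leaf p030_l3)
(.trZ (nat_lit 0) (nat_lit 100) (nat_lit 94) (nat_lit 44) (nat_lit 20) (.trX (nat_lit 19) (nat_lit 100) (nat_lit 86) (nat_lit 60) (nat_lit 304) (.leaf p030_l4))))
(.leaf p030_l5))))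
(.spl (nat_lit 4) (nat_lit 80)
(.leaf p030_l6)
(.leaf p030_l7))))) (by decide +kernel)
noncomputable def p030_l8 : Lf2 := ⟨nat_lit 0, nat_lit 5, [nat_lit 4, nat_lit 5, nat_lit 5, nat_lit 20], false, nat_lit 0, nat_lit 160, nat_lit 0, nat_lit 160, ⟨nat_lit 1000, nat_lit 0, nat_lit 0, nat_lit 0, nat_lit 0, nat_lit 0, nat_lit 0, nat_lit 0, nat_lit 0, nat_lit 0, nat_lit 0, nat_lit 0, nat_lit 0, nat_lit 0, nat_lit 0, nat_lit 0, false, false⟩,
 nat_lit 0, nat_lit 8294, nat_lit 0, nat_lit 15927, nat_lit 4390, nat_lit 14310, nat_lit 0, nat_lit 0, nat_lit 0, nat_lit 5608, nat_lit 0, nat_lit 0, nat_lit 0, nat_lit 0, nat_lit 0, nat_lit 0, nat_lit 0, nat_lit 0, [],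
 ⟨p030_k5, nat_lit 0, nat_lit 0, nat_lit 369, nat_lit 0, nat_lit 381899, [nat_lit 4688000000, nat_lit 6250000000, nat_lit 9842000000], [], [nat_lit 42341985240, nat_lit 39984827420, nat_lit 36001350000, nat_lit 36809872980, nat_lit 34539247320, nat_lit 35301271500, nat_lit 38109278280, nat_lit 36068358500], nat_lit 1271250, nat_lit 1271250, nat_lit 490000, nat_lit 1100001, nat_lit 0, nat_lit 1100001, [nat_lit 1100000, nat_lit 1442500, nat_lit 1271250], [nat_lit 11, nat_lit 40, nat_lit 20, nat_lit 80, nat_lit 1, nat_lit 373, nat_lit 150, nat_lit 11]⟩, ⟨p030_k6, nat_lit 0, nat_lit 0, nat_lit 208, nat_lit 0, nat_lit 0, [nat_lit 6250000000, nat_lit 7968000000, nat_lit 11872000000], [], [nat_lit 13379845880, nat_lit 15101153660, nat_lit 12474696920, nat_lit 14709165280, nat_lit 3288687600, nat_lit 4995213140, nat_lit 2981029520, nat_lit 4804933480], nat_lit 0, nat_lit 0, nat_lit 0, nat_lit 0, nat_lit 0, nat_lit 0, [],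 [nat_lit 53, nat_lit 40, nat_lit 20, nat_lit 80, nat_lit 14, nat_lit 373, nat_lit 150, nat_lit 10]⟩,
 zbF0, []⟩
noncomputable def p030_l9 : Lf2 := ⟨nat_lit 1, nat_lit 8, [nat_lit 50, nat_lit 5, nat_lit 5, nat_lit 20], false, nat_lit 0, nat_lit 160, nat_lit 0, nat_lit 160, zbN0,
 nat_lit 0, nat_lit 0, nat_lit 0, nat_lit 0, nat_lit 0, nat_lit 0, nat_lit 0, nat_lit 0, nat_lit 0, nat_lit 0, nat_lit 0, nat_lit 0, nat_lit 0, nat_lit 0, nat_lit 0, nat_lit 0, nat_lit 0, nat_lit 0, [],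
 C1.Rw.none, C1.Rw.none,
 zbF0, []⟩
noncomputable def p030_l10 : Lf2 := ⟨nat_lit 0, nat_lit 8, [nat_lit 50, nat_lit 5, nat_lit 5, nat_lit 20], false, nat_lit 0, nat_lit 80, nat_lit 0, nat_lit 160, ⟨nat_lit 1000, nat_lit 0, nat_lit 0, nat_lit 0, nat_lit 0, nat_lit 0, nat_lit 0, nat_lit 0, nat_lit 0, nat_lit 0, nat_lit 0, nat_lit 0, nat_lit 0, nat_lit 0, nat_lit 0, nat_lit 0, false, false⟩,
 nat_lit 0, nat_lit 18247, nat_lit 0, nat_lit 0, nat_lit 9660, nat_lit 11947, nat_lit 1421, nat_lit 0, nat_lit 0, nat_lit 4887, nat_lit 0, nat_lit 0, nat_lit 0, nat_lit 0, nat_lit 0, nat_lit 0, nat_lit 0, nat_lit 0, [],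
 ⟨p030_k7, nat_lit 0, nat_lit 0, nat_lit 486, nat_lit 0, nat_lit 567094, [nat_lit 4688000000, nat_lit 6250000000, nat_lit 9842000000], [], [nat_lit 28507657280, nat_lit 27444857060, nat_lit 30197928320, nat_lit 26167556820, nat_lit 25081085680, nat_lit 22049154060, nat_lit 32504799600, nat_lit 27952949640], nat_lit 1271250, nat_lit 1271250, nat_lit 490000, nat_lit 1100001, nat_lit 0, nat_lit 490000, [nat_lit 1100000, nat_lit 1442500, nat_lit 1271250], [nat_lit 11, nat_lit 40, nat_lit 20, nat_lit 80, nat_lit 1, nat_lit 345, nat_lit 125, nat_lit 10]⟩, ⟨p030_k8, nat_lit 0, nat_lit 0, nat_lit 215, nat_lit 0, nat_lit 0, [nat_lit 6250000000, nat_lit 7968000000, nat_lit 11872000000], [], [nat_lit 12919896867, nat_lit 14461725862, nat_lit 12586731350, nat_lit 14196823018, nat_lit 5948566640, nat_lit 7310547010, nat_lit 5625324178, nat_lit 6781579690], nat_lit 0, nat_lit 0, nat_lit 0, nat_lit 0, nat_lit 0, nat_lit 0, [],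 [nat_lit 53, nat_lit 40, nat_lit 20, nat_lit 80, nat_lit 14, nat_lit 373, nat_lit 150, nat_lit 10]⟩,
 zbF0, []⟩
noncomputable def p030_l11 : Lf2 := ⟨nat_lit 0, nat_lit 5, [nat_lit 4, nat_lit 5, nat_lit 5, nat_lit 20], false, nat_lit 80, nat_lit 160, nat_lit 0, nat_lit 160, ⟨nat_lit 1000, nat_lit 0, nat_lit 0, nat_lit 0, nat_lit 0, nat_lit 0, nat_lit 0, nat_lit 0, nat_lit 0, nat_lit 0, nat_lit 0, nat_lit 0, nat_lit 0, nat_lit 0, nat_lit 0, nat_lit 0, false, false⟩,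
 nat_lit 0, nat_lit 9500, nat_lit 0, nat_lit 0, nat_lit 5029, nat_lit 13494, nat_lit 0, nat_lit 0, nat_lit 0, nat_lit 4901, nat_lit 0, nat_lit 0, nat_lit 0, nat_lit 0, nat_lit 0, nat_lit 0, nat_lit 0, nat_lit 0, [],
 ⟨p030_k5, nat_lit 0, nat_lit 0, nat_lit 371, nat_lit 0, nat_lit 553906, [nat_lit 4688000000, nat_lit 6250000000, nat_lit 9842000000], [], [nat_lit 37039403360, nat_lit 34380379958, nat_lit 32804993652, nat_lit 33602969250, nat_lit 32804993652, nat_lit 33602969250, nat_lit 33251105936, nat_lit 33962103788], nat_lit 1271250, nat_lit 1271250, nat_lit 490000, nat_lit 1100001, nat_lit 490000, nat_lit 1100001, [nat_lit 1100000, nat_lit 1442500, nat_lit 1271250], [nat_lit 11, nat_lit 40, nat_lit 20, nat_lit 80, nat_lit 1, nat_lit 373, nat_lit 150, nat_lit 11]⟩, ⟨p030_k9, nat_lit 0, nat_lit 0, nat_lit 149, nat_lit 0, nat_lit 0, [nat_lit 6250000000, nat_lit 7968000000, nat_lit 9842000000], [], [nat_lit 11937887042,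 nat_lit 14007600114, nat_lit 11299548722, nat_lit 13444456186, nat_lit 2651425030, nat_lit 4262749178, nat_lit 2152222202, nat_lit 3906671506], nat_lit 0, nat_lit 0, nat_lit 0, nat_lit 0, nat_lit 0, nat_lit 0, [], [nat_lit 25, nat_lit 40, nat_lit 20, nat_lit 80, nat_lit 17, nat_lit 373, nat_lit 150, nat_lit 11]⟩,
 zbF0, []⟩
noncomputable def p030_l12 : Lf2 := ⟨nat_lit 0, nat_lit 8, [nat_lit 50, nat_lit 5, nat_lit 5, nat_lit 20], false, nat_lit 80, nat_lit 160, nat_lit 0, nat_lit 160, ⟨nat_lit 1000, nat_lit 0, nat_lit 0, nat_lit 0, nat_lit 0, nat_lit 0, nat_lit 0, nat_lit 0, nat_lit 0, nat_lit 0, nat_lit 0, nat_lit 0, nat_lit 0, nat_lit 0, nat_lit 0, nat_lit 0, false, false⟩,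
 nat_lit 0, nat_lit 13558, nat_lit 0, nat_lit 17313, nat_lit 7177, nat_lit 11947, nat_lit 0, nat_lit 0, nat_lit 0, nat_lit 4887, nat_lit 0, nat_lit 0, nat_lit 0, nat_lit 0, nat_lit 0, nat_lit 0, nat_lit 0, nat_lit 0, [],
 ⟨p030_k7, nat_lit 0, nat_lit 0, nat_lit 201, nat_lit 0, nat_lit 156577, [nat_lit 4688000000, nat_lit 6250000000, nat_lit 9842000000], [], [nat_lit 34285106428, nat_lit 30547482722, nat_lit 26975295876, nat_lit 27894122250, nat_lit 26975295876, nat_lit 27894122250, nat_lit 26930796368, nat_lit 27735850844], nat_lit 1271250, nat_lit 1271250, nat_lit 490000, nat_lit 1100001, nat_lit 490000, nat_lit 1100001, [nat_lit 1100000, nat_lit 1442500, nat_lit 1271250], [nat_lit 11, nat_lit 40, nat_lit 20, nat_lit 80, nat_lit 1, nat_lit 373, nat_lit 150, nat_lit 11]⟩, ⟨p030_k8, nat_lit 0, nat_lit 0, nat_lit 215, nat_lit 0, nat_lit 0, [nat_lit 6250000000, nat_lit 7968000000, nat_lit 11872000000], [], [nat_lit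 12919896867, nat_lit 14461725862, nat_lit 12586731350, nat_lit 14196823018, nat_lit 5948566640, nat_lit 7310547010, nat_lit 5625324178, nat_lit 6781579690], nat_lit 0, nat_lit 0, nat_lit 0, nat_lit 0, nat_lit 0, nat_lit 0, [], [nat_lit 53, nat_lit 40, nat_lit 20, nat_lit 80, nat_lit 14, nat_lit 373, nat_lit 150, nat_lit 10]⟩,
 zbF0, []⟩
noncomputable def p030_l13 : Lf2 := ⟨nat_lit 1, nat_lit 10, [nat_lit 0, nat_lit 5, nat_lit 5, nat_lit 20], false, nat_lit 0, nat_lit 160, nat_lit 0, nat_lit 160, zbN0,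
 nat_lit 0, nat_lit 0, nat_lit 0, nat_lit 0, nat_lit 0, nat_lit 0, nat_lit 0, nat_lit 0, nat_lit 0, nat_lit 0, nat_lit 0, nat_lit 0, nat_lit 0, nat_lit 0, nat_lit 0, nat_lit 0, nat_lit 0, nat_lit 0, [],
 C1.Rw.none, C1.Rw.none,
 zbF0, []⟩
noncomputable def p030_l14 : Lf2 := ⟨nat_lit 0, nat_lit 10, [nat_lit 0, nat_lit 5, nat_lit 5, nat_lit 20], false, nat_lit 0, nat_lit 80, nat_lit 0, nat_lit 160, ⟨nat_lit 1000, nat_lit 0, nat_lit 0, nat_lit 0, nat_lit 0, nat_lit 0, nat_lit 0, nat_lit 0, nat_lit 0, nat_lit 0, nat_lit 0, nat_lit 0, nat_lit 0, nat_lit 0, nat_lit 0, nat_lit 0, false, false⟩,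
 nat_lit 0, nat_lit 14989, nat_lit 0, nat_lit 0, nat_lit 8724, nat_lit 9306, nat_lit 1660, nat_lit 0, nat_lit 0, nat_lit 3490, nat_lit 0, nat_lit 0, nat_lit 0, nat_lit 0, nat_lit 0, nat_lit 0, nat_lit 0, nat_lit 0, [],
 ⟨p030_k4, nat_lit 0, nat_lit 0, nat_lit 574, nat_lit 0, nat_lit 708010, [nat_lit 4688000000, nat_lit 6250000000, nat_lit 9842000000], [], [nat_lit 24570119000, nat_lit 22986555744, nat_lit 24239929456, nat_lit 22349791300, nat_lit 19572370560, nat_lit 19107278816, nat_lit 26627928896, nat_lit 22517127752], nat_lit 1271250, nat_lit 1271250, nat_lit 490000, nat_lit 1100001, nat_lit 0, nat_lit 490000, [nat_lit 1100000, nat_lit 1442500, nat_lit 1271250], [nat_lit 11, nat_lit 40, nat_lit 20, nat_lit 80, nat_lit 1, nat_lit 373, nat_lit 150, nat_lit 11]⟩, ⟨p030_k10, nat_lit 0, nat_lit 0, nat_lit 215, nat_lit 0, nat_lit 0, [nat_lit 6250000000, nat_lit 7968000000, nat_lit 11872000000], [], [nat_lit 19394972250,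 nat_lit 21484374976, nat_lit 19047903320, nat_lit 21570038280, nat_lit 14251650960, nat_lit 16623249480, nat_lit 14561795768, nat_lit 16600192120], nat_lit 0, nat_lit 0, nat_lit 0, nat_lit 0, nat_lit 0, nat_lit 0, [], [nat_lit 53, nat_lit 40, nat_lit 20, nat_lit 80, nat_lit 14, nat_lit 373, nat_lit 150, nat_lit 10]⟩,
 zbF0, []⟩
noncomputable def p030_l15 : Lf2 := ⟨nat_lit 0, nat_lit 10, [nat_lit 0, nat_lit 5, nat_lit 5, nat_lit 20], false, nat_lit 80, nat_lit 160, nat_lit 0, nat_lit 160, ⟨nat_lit 1000, nat_lit 0, nat_lit 0, nat_lit 0, nat_lit 0, nat_lit 0, nat_lit 0, nat_lit 0, nat_lit 0, nat_lit 0, nat_lit 0, nat_lit 0, nat_lit 0, nat_lit 0, nat_lit 0, nat_lit 0, false, false⟩,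
 nat_lit 0, nat_lit 14920, nat_lit 0, nat_lit 0, nat_lit 8684, nat_lit 9527, nat_lit 786, nat_lit 0, nat_lit 0, nat_lit 3600, nat_lit 0, nat_lit 0, nat_lit 0, nat_lit 0, nat_lit 0, nat_lit 0, nat_lit 0, nat_lit 0, [],
 ⟨p030_k4, nat_lit 0, nat_lit 0, nat_lit 480, nat_lit 0, nat_lit 708010, [nat_lit 4688000000, nat_lit 6250000000, nat_lit 9842000000], [], [nat_lit 29814574574, nat_lit 25292138422, nat_lit 22198382982, nat_lit 22638932186, nat_lit 22198382982, nat_lit 22638932186, nat_lit 29458024350, nat_lit 25420815382], nat_lit 1271250, nat_lit 1271250, nat_lit 490000, nat_lit 1100001, nat_lit 490000, nat_lit 1100001, [nat_lit 1100000, nat_lit 1442500, nat_lit 1271250], [nat_lit 11, nat_lit 40, nat_lit 20, nat_lit 80, nat_lit 1, nat_lit 373, nat_lit 150, nat_lit 11]⟩, ⟨p030_k10, nat_lit 0, nat_lit 0, nat_lit 215, nat_lit 0, nat_lit 0, [nat_lit 6250000000, nat_lit 7968000000, nat_lit 11872000000], [], [nat_lit 18864258000,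 nat_lit 21222181548, nat_lit 18710263940, nat_lit 21264479260, nat_lit 13767475320, nat_lit 16168559660, nat_lit 14041833156, nat_lit 16103167540], nat_lit 0, nat_lit 0, nat_lit 0, nat_lit 0, nat_lit 0, nat_lit 0, [], [nat_lit 53, nat_lit 40, nat_lit 20, nat_lit 80, nat_lit 14, nat_lit 373, nat_lit 150, nat_lit 10]⟩,
 zbF0, []⟩
noncomputable def p030_l16 : Lf2 := ⟨nat_lit 0, nat_lit 8, [nat_lit 50, nat_lit 5, nat_lit 5, nat_lit 20], false, nat_lit 0, nat_lit 80, nat_lit 160, nat_lit 320, ⟨nat_lit 1000, nat_lit 0, nat_lit 0, nat_lit 0, nat_lit 0, nat_lit 0, nat_lit 0, nat_lit 0, nat_lit 0, nat_lit 0, nat_lit 0, nat_lit 0, nat_lit 0, nat_lit 0, nat_lit 0, nat_lit 0, false, false⟩,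
 nat_lit 0, nat_lit 15578, nat_lit 0, nat_lit 0, nat_lit 8247, nat_lit 14397, nat_lit 2088, nat_lit 0, nat_lit 0, nat_lit 0, nat_lit 0, nat_lit 0, nat_lit 0, nat_lit 0, nat_lit 0, nat_lit 0, nat_lit 0, nat_lit 3875198588, [],
 ⟨p030_k7, nat_lit 0, nat_lit 0, nat_lit 486, nat_lit 0, nat_lit 567094, [nat_lit 4688000000, nat_lit 6250000000, nat_lit 9842000000], [], [nat_lit 29320403576, nat_lit 25333101464, nat_lit 31733079344, nat_lit 27738578918, nat_lit 27294482356, nat_lit 23299981930, nat_lit 33989212620, nat_lit 30103176738], nat_lit 1271250, nat_lit 1271250, nat_lit 490000, nat_lit 1100001, nat_lit 0, nat_lit 490000, [nat_lit 1100000, nat_lit 1442500, nat_lit 1271250], [nat_lit 11, nat_lit 40, nat_lit 20, nat_lit 80, nat_lit 1, nat_lit 345, nat_lit 125, nat_lit 10]⟩, ⟨p030_k11, nat_lit 0, nat_lit 0, nat_lit 55, nat_lit 0, nat_lit 0, [nat_lit 6250000000, nat_lit 7968000000, nat_lit 11872000000], [], [nat_lit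 0, nat_lit 4896614460, nat_lit 790754896, nat_lit 5265888056, nat_lit 24040155044, nat_lit 27496036016, nat_lit 22001153588, nat_lit 25008584848], nat_lit 0, nat_lit 0, nat_lit 0, nat_lit 0, nat_lit 0, nat_lit 0, [], [nat_lit 53, nat_lit 40, nat_lit 20, nat_lit 80, nat_lit 14, nat_lit 428, nat_lit 200, nat_lit 11]⟩,
 zbF0, [⟨nat_lit 7, nat_lit 90, nat_lit 100, nat_lit 53, nat_lit 1756167631⟩]⟩
noncomputable def p030_l17 : Lf2 := ⟨nat_lit 0, nat_lit 8, [nat_lit 50, nat_lit 5, nat_lit 5, nat_lit 20], false, nat_lit 80, nat_lit 120, nat_lit 160, nat_lit 320, ⟨nat_lit 1000, nat_lit 0, nat_lit 0, nat_lit 0, nat_lit 0, nat_lit 0, nat_lit 0, nat_lit 0, nat_lit 0, nat_lit 0, nat_lit 0, nat_lit 0, nat_lit 0, nat_lit 0, nat_lit 0, nat_lit 0, false, false⟩,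
 nat_lit 0, nat_lit 7394, nat_lit 0, nat_lit 8675, nat_lit 3914, nat_lit 9859, nat_lit 1790, nat_lit 0, nat_lit 0, nat_lit 0, nat_lit 0, nat_lit 0, nat_lit 0, nat_lit 0, nat_lit 0, nat_lit 0, nat_lit 0, nat_lit 0, [],
 ⟨p030_k7, nat_lit 0, nat_lit 0, nat_lit 331, nat_lit 0, nat_lit 461303, [nat_lit 4688000000, nat_lit 6250000000, nat_lit 9842000000], [], [nat_lit 32763360696, nat_lit 31744198150, nat_lit 33986364104, nat_lit 33051528688, nat_lit 31514844568, nat_lit 30566766133, nat_lit 35972632988, nat_lit 35050308673], nat_lit 1271250, nat_lit 1271250, nat_lit 490000, nat_lit 1100001, nat_lit 490000, nat_lit 780000, [nat_lit 1100000, nat_lit 1442500, nat_lit 1271250], [nat_lit 11, nat_lit 40, nat_lit 20, nat_lit 80, nat_lit 1, nat_lit 373, nat_lit 150, nat_lit 11]⟩, ⟨p030_k11, nat_lit 0, nat_lit 0, nat_lit 55, nat_lit 0, nat_lit 0, [nat_lit 6250000000, nat_lit 7968000000, nat_lit 11872000000], [], [nat_lit 3916565564,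 nat_lit 7691477184, nat_lit 5112255276, nat_lit 8391786728, nat_lit 18702672000, nat_lit 21466539916, nat_lit 17985726112, nat_lit 20350218220], nat_lit 0, nat_lit 0, nat_lit 0, nat_lit 0, nat_lit 0, nat_lit 0, [], [nat_lit 53, nat_lit 40, nat_lit 20, nat_lit 80, nat_lit 14, nat_lit 428, nat_lit 200, nat_lit 11]⟩,
 zbF0, [⟨nat_lit 19, nat_lit 100, nat_lit 90, nat_lit 53, nat_lit 1235802038⟩]⟩
noncomputable def p030_l18 : Lf2 := ⟨nat_lit 0, nat_lit 8, [nat_lit 50, nat_lit 5, nat_lit 5, nat_lit 20], false, nat_lit 80, nat_lit 120, nat_lit 160, nat_lit 320, ⟨nat_lit 1000, nat_lit 0, nat_lit 0, nat_lit 0, nat_lit 0, nat_lit 0, nat_lit 0, nat_lit 0, nat_lit 0, nat_lit 0, nat_lit 0, nat_lit 0, nat_lit 0, nat_lit 0, nat_lit 0, nat_lit 0, false, false⟩,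
 nat_lit 0, nat_lit 7163, nat_lit 0, nat_lit 7794, nat_lit 3979, nat_lit 9859, nat_lit 1904, nat_lit 0, nat_lit 0, nat_lit 0, nat_lit 0, nat_lit 0, nat_lit 0, nat_lit 0, nat_lit 0, nat_lit 0, nat_lit 0, nat_lit 0, [],
 ⟨p030_k12, nat_lit 0, nat_lit 0, nat_lit 361, nat_lit 0, nat_lit 529661, [nat_lit 4688000000, nat_lit 6250000000, nat_lit 9842000000], [], [nat_lit 30972186525, nat_lit 29936098694, nat_lit 32155368168, nat_lit 31205007892, nat_lit 29650598126, nat_lit 28686774903, nat_lit 34168077816, nat_lit 33230436413], nat_lit 1271250, nat_lit 1271250, nat_lit 490000, nat_lit 1100001, nat_lit 490000, nat_lit 780000, [nat_lit 1100000, nat_lit 1442500, nat_lit 1271250], [nat_lit 11, nat_lit 40, nat_lit 20, nat_lit 80, nat_lit 1, nat_lit 373, nat_lit 150, nat_lit 11]⟩, ⟨p030_k11, nat_lit 0, nat_lit 0, nat_lit 55, nat_lit 0, nat_lit 0, [nat_lit 6250000000, nat_lit 7968000000, nat_lit 11872000000], [], [nat_lit 3916565564,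 nat_lit 7691477184, nat_lit 5112255276, nat_lit 8391786728, nat_lit 18702672000, nat_lit 21466539916, nat_lit 17985726112, nat_lit 20350218220], nat_lit 0, nat_lit 0, nat_lit 0, nat_lit 0, nat_lit 0, nat_lit 0, [], [nat_lit 53, nat_lit 40, nat_lit 20, nat_lit 80, nat_lit 14, nat_lit 428, nat_lit 200, nat_lit 11]⟩,
 zbF0, [⟨nat_lit 7, nat_lit 90, nat_lit 100, nat_lit 53, nat_lit 1241962804⟩]⟩
noncomputable def p030_l19 : Lf2 := ⟨nat_lit 0, nat_lit 8, [nat_lit 50, nat_lit 5, nat_lit 5, nat_lit 20], false, nat_lit 120, nat_lit 160, nat_lit 160, nat_lit 320, ⟨nat_lit 1000, nat_lit 0, nat_lit 0, nat_lit 0, nat_lit 0, nat_lit 0, nat_lit 0, nat_lit 0, nat_lit 0, nat_lit 0, nat_lit 0, nat_lit 0, nat_lit 0, nat_lit 0, nat_lit 0, nat_lit 0, false, false⟩,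
 nat_lit 0, nat_lit 8946, nat_lit 0, nat_lit 7165, nat_lit 4736, nat_lit 11226, nat_lit 2076, nat_lit 0, nat_lit 0, nat_lit 0, nat_lit 0, nat_lit 0, nat_lit 0, nat_lit 0, nat_lit 0, nat_lit 0, nat_lit 0, nat_lit 0, [],
 ⟨p030_k7, nat_lit 0, nat_lit 0, nat_lit 362, nat_lit 0, nat_lit 567094, [nat_lit 4688000000, nat_lit 6250000000, nat_lit 9842000000], [], [nat_lit 31622410464, nat_lit 29155437536, nat_lit 27243821472, nat_lit 28132471432, nat_lit 26969974168, nat_lit 27751465000, nat_lit 27677019936, nat_lit 28514643264], nat_lit 1271250, nat_lit 1271250, nat_lit 490000, nat_lit 1100001, nat_lit 780000, nat_lit 1100001, [nat_lit 1100000, nat_lit 1442500, nat_lit 1271250], [nat_lit 11, nat_lit 40, nat_lit 20, nat_lit 80, nat_lit 1, nat_lit 373, nat_lit 150, nat_lit 11]⟩, ⟨p030_k11, nat_lit 0, nat_lit 0, nat_lit 55, nat_lit 0, nat_lit 0, [nat_lit 6250000000, nat_lit 7968000000, nat_lit 11872000000], [], [nat_lit 1569421096,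 nat_lit 5682227776, nat_lit 2643130664, nat_lit 6202388592, nat_lit 19143108048, nat_lit 22115487624, nat_lit 17976918000, nat_lit 20586135080], nat_lit 0, nat_lit 0, nat_lit 0, nat_lit 0, nat_lit 0, nat_lit 0, [], [nat_lit 53, nat_lit 40, nat_lit 20, nat_lit 80, nat_lit 14, nat_lit 428, nat_lit 200, nat_lit 11]⟩,
 zbF0, [⟨nat_lit 7, nat_lit 90, nat_lit 100, nat_lit 53, nat_lit 1392534476⟩]⟩
noncomputable def p030_l20 : Lf2 := ⟨nat_lit 1, nat_lit 10, [nat_lit 0, nat_lit 5, nat_lit 5, nat_lit 20], false, nat_lit 0, nat_lit 160, nat_lit 160, nat_lit 320, zbN0,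
 nat_lit 0, nat_lit 0, nat_lit 0, nat_lit 0, nat_lit 0, nat_lit 0, nat_lit 0, nat_lit 0, nat_lit 0, nat_lit 0, nat_lit 0, nat_lit 0, nat_lit 0, nat_lit 0, nat_lit 0, nat_lit 0, nat_lit 0, nat_lit 0, [],
 C1.Rw.none, C1.Rw.none,
 zbF0, []⟩
noncomputable def p030_l21 : Lf2 := ⟨nat_lit 0, nat_lit 10, [nat_lit 0, nat_lit 5, nat_lit 5, nat_lit 20], false, nat_lit 0, nat_lit 160, nat_lit 160, nat_lit 320, ⟨nat_lit 1000, nat_lit 0, nat_lit 0, nat_lit 0, nat_lit 0, nat_lit 0, nat_lit 0, nat_lit 0, nat_lit 0, nat_lit 0, nat_lit 0, nat_lit 0, nat_lit 0, nat_lit 0, nat_lit 0, nat_lit 0, false, false⟩,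
 nat_lit 0, nat_lit 17942, nat_lit 0, nat_lit 0, nat_lit 10443, nat_lit 14397, nat_lit 4042, nat_lit 0, nat_lit 0, nat_lit 0, nat_lit 0, nat_lit 0, nat_lit 0, nat_lit 0, nat_lit 0, nat_lit 0, nat_lit 0, nat_lit 4333475964, [],
 ⟨p030_k4, nat_lit 0, nat_lit 0, nat_lit 574, nat_lit 0, nat_lit 708010, [nat_lit 4688000000, nat_lit 6250000000, nat_lit 9842000000], [], [nat_lit 22699417250, nat_lit 19831282072, nat_lit 14884561076, nat_lit 18384421872, nat_lit 20066860022, nat_lit 15146055764, nat_lit 23564964178, nat_lit 18709992592], nat_lit 1271250, nat_lit 1271250, nat_lit 490000, nat_lit 780000, nat_lit 0, nat_lit 1100001, [nat_lit 1100000, nat_lit 1442500, nat_lit 1271250], [nat_lit 11, nat_lit 40, nat_lit 20, nat_lit 80, nat_lit 1, nat_lit 373, nat_lit 150, nat_lit 11]⟩, ⟨p030_k10, nat_lit 0, nat_lit 0, nat_lit 55, nat_lit 0, nat_lit 0, [nat_lit 6250000000, nat_lit 7968000000, nat_lit 11872000000], [], [nat_lit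 458277376, nat_lit 5354891836, nat_lit 0, nat_lit 4592706380, nat_lit 24498432420, nat_lit 27954313392, nat_lit 22540789780, nat_lit 25817208724], nat_lit 0, nat_lit 0, nat_lit 0, nat_lit 0, nat_lit 0, nat_lit 0, [], [nat_lit 53, nat_lit 40, nat_lit 20, nat_lit 80, nat_lit 14, nat_lit 401, nat_lit 175, nat_lit 10]⟩,
 zbF0, [⟨nat_lit 7, nat_lit 90, nat_lit 100, nat_lit 53, nat_lit 1756167631⟩]⟩
noncomputable def p030_l22 : Lf2 := ⟨nat_lit 0, nat_lit 10, [nat_lit 0, nat_lit 5, nat_lit 5, nat_lit 20], false, nat_lit 0, nat_lit 160, nat_lit 160, nat_lit 320, ⟨nat_lit 1000, nat_lit 0, nat_lit 0, nat_lit 0, nat_lit 0, nat_lit 0, nat_lit 0, nat_lit 0, nat_lit 0, nat_lit 0, nat_lit 0, nat_lit 0, nat_lit 0, nat_lit 0, nat_lit 0, nat_lit 0, false, false⟩,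
 nat_lit 0, nat_lit 10976, nat_lit 0, nat_lit 2249, nat_lit 6388, nat_lit 14602, nat_lit 1665, nat_lit 0, nat_lit 0, nat_lit 0, nat_lit 0, nat_lit 0, nat_lit 0, nat_lit 0, nat_lit 0, nat_lit 0, nat_lit 0, nat_lit 4706086424, [],
 ⟨p030_k4, nat_lit 0, nat_lit 0, nat_lit 524, nat_lit 0, nat_lit 708010, [nat_lit 4688000000, nat_lit 6250000000, nat_lit 9842000000], [], [nat_lit 35915895451, nat_lit 32538317107, nat_lit 30098399808, nat_lit 30630576176, nat_lit 28439794427, nat_lit 27856693184, nat_lit 31916606075, nat_lit 28946812099], nat_lit 1271250, nat_lit 1271250, nat_lit 780000, nat_lit 1100001, nat_lit 0, nat_lit 1100001, [nat_lit 1100000, nat_lit 1442500, nat_lit 1271250], [nat_lit 11, nat_lit 40, nat_lit 20, nat_lit 80, nat_lit 1, nat_lit 373, nat_lit 150, nat_lit 11]⟩, ⟨p030_k10, nat_lit 0, nat_lit 0, nat_lit 31, nat_lit 0, nat_lit 0, [nat_lit 6250000000, nat_lit 7968000000, nat_lit 11872000000], [], [nat_lit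 0, nat_lit 4639557080, nat_lit 1251364352, nat_lit 5927864912, nat_lit 22938641480, nat_lit 26244160584, nat_lit 22841676424, nat_lit 25874851584], nat_lit 0, nat_lit 0, nat_lit 0, nat_lit 0, nat_lit 0, nat_lit 0, [], [nat_lit 53, nat_lit 40, nat_lit 20, nat_lit 80, nat_lit 14, nat_lit 428, nat_lit 200, nat_lit 11]⟩,
 zbF0, [⟨nat_lit 19, nat_lit 100, nat_lit 90, nat_lit 53, nat_lit 1750307445⟩]⟩
noncomputable def b_VL_600_500_5_7 : St := ⟨true, nat_lit 1, nat_lit 0, nat_lit 1, nat_lit 40, nat_lit 240, nat_lit 280, nat_lit 200, nat_lit 240, nat_lit 80, nat_lit 160, nat_lit 20, nat_lit 40, nat_lit 0, nat_lit 160, nat_lit 0, nat_lit 320, nat_lit 0, nat_lit 40, nat_lit 0, nat_lit 0, nat_lit 0, nat_lit 0⟩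
theorem d_VL_600_500_5_7 (h : EB TB.env) : Dead b_VL_600_500_5_7 := chkB_sound0 h (T :=
(.spl (nat_lit 5) (nat_lit 160)
(.spl (nat_lit 0) (nat_lit 260)
(.spl (nat_lit 6) (nat_lit 32)
(.spl (nat_lit 1) (nat_lit 220)
(.spl (nat_lit 6) (nat_lit 20)
(.leaf p030_l8)
(.leaf p030_l9))
(.spl (nat_lit 4) (nat_lit 80)
(.leaf p030_l10)
(.spl (nat_lit 6) (nat_lit 20)
(.leaf p030_l11)
(.leaf p030_l12))))
(.leaf p030_l13))
(.spl (nat_lit 4) (nat_lit 80)
(.leaf p030_l14)
(.leaf p030_l15)))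
(.spl (nat_lit 0) (nat_lit 260)
(.spl (nat_lit 6) (nat_lit 32)
(.spl (nat_lit 4) (nat_lit 80)
(.leaf p030_l16)
(.spl (nat_lit 4) (nat_lit 120)
(.spl (nat_lit 0) (nat_lit 250)
(.leaf p030_l17)
(.leaf p030_l18))
(.leaf p030_l19)))
(.leaf p030_l20))
(.spl (nat_lit 2) (nat_lit 120)
(.leaf p030_l21)
(.leaf p030_l22))))) (by decide +kernel)
noncomputable def p030_l23 : Lf2 := ⟨nat_lit 0, nat_lit 10, [nat_lit 0, nat_lit 5, nat_lit 5, nat_lit 20], false, nat_lit 0, nat_lit 160, nat_lit 0, nat_lit 160, ⟨nat_lit 1000, nat_lit 0, nat_lit 0, nat_lit 0, nat_lit 0, nat_lit 0, nat_lit 0, nat_lit 0, nat_lit 0, nat_lit 0, nat_lit 0, nat_lit 0, nat_lit 0, nat_lit 0, nat_lit 0, nat_lit 0, false, false⟩,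
 nat_lit 0, nat_lit 15116, nat_lit 0, nat_lit 0, nat_lit 8002, nat_lit 17161, nat_lit 30, nat_lit 0, nat_lit 0, nat_lit 5390, nat_lit 0, nat_lit 0, nat_lit 0, nat_lit 0, nat_lit 0, nat_lit 0, nat_lit 0, nat_lit 1585154888, [],
 ⟨p030_k13, nat_lit 0, nat_lit 0, nat_lit 660, nat_lit 0, nat_lit 809682, [nat_lit 4688000000, nat_lit 6250000000, nat_lit 11872000000], [], [nat_lit 41569779680, nat_lit 38482879922, nat_lit 38199023906, nat_lit 39165315898, nat_lit 33296056986, nat_lit 34039591970, nat_lit 33670297626, nat_lit 34244854850], nat_lit 1271250, nat_lit 1271250, nat_lit 1100001, nat_lit 1785000, nat_lit 0, nat_lit 1100001, [nat_lit 1100000, nat_lit 1442500, nat_lit 1271250], [nat_lit 48, nat_lit 40, nat_lit 20, nat_lit 80, nat_lit 12, nat_lit 401, nat_lit 175, nat_lit 10]⟩, ⟨p030_k10, nat_lit 0, nat_lit 0, nat_lit 187, nat_lit 0, nat_lit 0, [nat_lit 6250000000, nat_lit 7968000000, nat_lit 11872000000], [], [nat_lit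 13808111638, nat_lit 17162714772, nat_lit 19617709904, nat_lit 25621775032, nat_lit 0, nat_lit 4133139352, nat_lit 6044713068, nat_lit 9194714772], nat_lit 0, nat_lit 0, nat_lit 0, nat_lit 0, nat_lit 0, nat_lit 0, [], [nat_lit 53, nat_lit 40, nat_lit 20, nat_lit 80, nat_lit 14, nat_lit 401, nat_lit 175, nat_lit 10]⟩,
 zbF0, []⟩
noncomputable def p030_l24 : Lf2 := ⟨nat_lit 0, nat_lit 10, [nat_lit 0, nat_lit 5, nat_lit 5, nat_lit 20], false, nat_lit 0, nat_lit 160, nat_lit 160, nat_lit 320, ⟨nat_lit 1000, nat_lit 0, nat_lit 0, nat_lit 0, nat_lit 0, nat_lit 0, nat_lit 0, nat_lit 0, nat_lit 0, nat_lit 0, nat_lit 0, nat_lit 0, nat_lit 0, nat_lit 0, nat_lit 0, nat_lit 0, false, false⟩,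
 nat_lit 0, nat_lit 13756, nat_lit 0, nat_lit 933, nat_lit 7282, nat_lit 34799, nat_lit 1711, nat_lit 0, nat_lit 0, nat_lit 0, nat_lit 0, nat_lit 0, nat_lit 0, nat_lit 0, nat_lit 0, nat_lit 0, nat_lit 0, nat_lit 27226404612, [],
 ⟨p030_k13, nat_lit 0, nat_lit 0, nat_lit 660, nat_lit 0, nat_lit 809682, [nat_lit 4688000000, nat_lit 6250000000, nat_lit 11872000000], [], [nat_lit 40472614880, nat_lit 33128877377, nat_lit 32903726153, nat_lit 33664036257, nat_lit 28549351401, nat_lit 29296132145, nat_lit 30823651752, nat_lit 30121326216], nat_lit 1271250, nat_lit 1271250, nat_lit 1100001, nat_lit 1785000, nat_lit 0, nat_lit 1100001, [nat_lit 1100000, nat_lit 1442500, nat_lit 1271250], [nat_lit 48, nat_lit 40, nat_lit 20, nat_lit 80, nat_lit 12, nat_lit 401, nat_lit 175, nat_lit 10]⟩, ⟨p030_k10, nat_lit 0, nat_lit 0, nat_lit 27, nat_lit 0, nat_lit 0, [nat_lit 6250000000, nat_lit 7968000000, nat_lit 11872000000], [], [nat_lit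 0, nat_lit 11806743768, nat_lit 17418092880, nat_lit 26384610968, nat_lit 46311253612, nat_lit 51880768032, nat_lit 52999961508, nat_lit 56881523776], nat_lit 0, nat_lit 0, nat_lit 0, nat_lit 0, nat_lit 0, nat_lit 0, [], [nat_lit 53, nat_lit 40, nat_lit 20, nat_lit 80, nat_lit 14, nat_lit 428, nat_lit 200, nat_lit 11]⟩,
 zbF0, [⟨nat_lit 7, nat_lit 90, nat_lit 100, nat_lit 53, nat_lit 2402898546⟩]⟩
noncomputable def b_VL_600_500_5_8 : St := ⟨true, nat_lit 1, nat_lit 0, nat_lit 1, nat_lit 40, nat_lit 240, nat_lit 280, nat_lit 200, nat_lit 240, nat_lit 160, nat_lit 240, nat_lit 20, nat_lit 40, nat_lit 0, nat_lit 160, nat_lit 0, nat_lit 320, nat_lit 0, nat_lit 40, nat_lit 0, nat_lit 0, nat_lit 0, nat_lit 0⟩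
theorem d_VL_600_500_5_8 (h : EB TB.env) : Dead b_VL_600_500_5_8 := chkB_sound0 h (T :=
(.spl (nat_lit 5) (nat_lit 160)
(.leaf p030_l23)
(.leaf p030_l24))) (by decide +kernel)
noncomputable def p030_l25 : Lf2 := ⟨nat_lit 0, nat_lit 5, [nat_lit 4, nat_lit 5, nat_lit 5, nat_lit 20], true, nat_lit 160, nat_lit 200, nat_lit 0, nat_lit 320, ⟨nat_lit 0, nat_lit 0, nat_lit 1000, nat_lit 5, nat_lit 76, nat_lit 1000, nat_lit 111, nat_lit 1000, nat_lit 114817, nat_lit 298, nat_lit 54150, nat_lit 272, nat_lit 58917550, nat_lit 0, nat_lit 0, nat_lit 2359631, false, false⟩,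
 nat_lit 0, nat_lit 8652, nat_lit 0, nat_lit 0, nat_lit 4580, nat_lit 0, nat_lit 155, nat_lit 0, nat_lit 0, nat_lit 0, nat_lit 0, nat_lit 0, nat_lit 0, nat_lit 0, nat_lit 147, nat_lit 1000000, nat_lit 0, nat_lit 0, [(nat_lit 6, [(nat_lit 6, nat_lit 1000)])],
 ⟨p030_k5, nat_lit 0, nat_lit 0, nat_lit 199, nat_lit 0, nat_lit 149835, [nat_lit 3329066667, nat_lit 3042400001, nat_lit 177599999], [], [nat_lit 11711434957, nat_lit 12323739214, nat_lit 12043610348, nat_lit 10885868788, nat_lit 13497848572, nat_lit 13781810729, nat_lit 15090555028, nat_lit 13949235058], nat_lit 1271250, nat_lit 1271250, nat_lit 21650, nat_lit 490000, nat_lit 1100001, nat_lit 1442500, [nat_lit 1100000, nat_lit 1442500, nat_lit 1271250], [nat_lit 11, nat_lit 40, nat_lit 20, nat_lit 80, nat_lit 1, nat_lit 373, nat_lit 150, nat_lit 11]⟩, C1.Rw.none,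
 ⟨nat_lit 6123, nat_lit 6325, ⟨.ofNat (nat_lit 96904), .ofNat (nat_lit 253206), .ofNat (nat_lit 118272), .ofNat (nat_lit 274574), .ofNat (nat_lit 106133), .ofNat (nat_lit 258856), .ofNat (nat_lit 127481), .ofNat (nat_lit 280205)⟩, ⟨.ofNat (nat_lit 225423), .ofNat (nat_lit 307688), .ofNat (nat_lit 246791), .ofNat (nat_lit 329055), .ofNat (nat_lit 227485), .ofNat (nat_lit 307865), .ofNat (nat_lit 248833), .ofNat (nat_lit 329214)⟩⟩, [⟨nat_lit 0, nat_lit 100, nat_lit 97, nat_lit 35, nat_lit 17166046⟩]⟩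
noncomputable def p030_l26 : Lf2 := ⟨nat_lit 0, nat_lit 5, [nat_lit 4, nat_lit 5, nat_lit 5, nat_lit 20], true, nat_lit 160, nat_lit 200, nat_lit 0, nat_lit 320, ⟨nat_lit 0, nat_lit 0, nat_lit 1000, nat_lit 5, nat_lit 79, nat_lit 1000, nat_lit 112, nat_lit 1000, nat_lit 117600, nat_lit 299, nat_lit 58017, nat_lit 274, nat_lit 58688865, nat_lit 0, nat_lit 0, nat_lit 2413212, false, false⟩,
 nat_lit 0, nat_lit 7534, nat_lit 0, nat_lit 0, nat_lit 4185, nat_lit 0, nat_lit 421, nat_lit 0, nat_lit 0, nat_lit 0, nat_lit 0, nat_lit 0, nat_lit 0, nat_lit 0, nat_lit 80, nat_lit 1000000, nat_lit 0, nat_lit 0, [(nat_lit 6, [(nat_lit 6, nat_lit 1000)])],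
 ⟨p030_k14, nat_lit 0, nat_lit 0, nat_lit 198, nat_lit 0, nat_lit 197022, [nat_lit 2257066667, nat_lit 1408000000, nat_lit 211200000], [], [nat_lit 12285335872, nat_lit 12893411544, nat_lit 11270645257, nat_lit 11643812587, nat_lit 13840571919, nat_lit 14417823617, nat_lit 14187967585, nat_lit 13151572559], nat_lit 1271250, nat_lit 1271250, nat_lit 21650, nat_lit 490000, nat_lit 1100001, nat_lit 1442500, [nat_lit 1100000, nat_lit 1442500, nat_lit 1271250], [nat_lit 9, nat_lit 40, nat_lit 20, nat_lit 80, nat_lit 2, nat_lit 289, nat_lit 75, nat_lit 9]⟩, C1.Rw.none,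
 ⟨nat_lit 5916, nat_lit 6124, ⟨.ofNat (nat_lit 106133), .ofNat (nat_lit 258856), .ofNat (nat_lit 127481), .ofNat (nat_lit 280205), .ofNat (nat_lit 115184), .ofNat (nat_lit 264398), .ofNat (nat_lit 136523), .ofNat (nat_lit 285737)⟩, ⟨.ofNat (nat_lit 227485), .ofNat (nat_lit 307865), .ofNat (nat_lit 248833), .ofNat (nat_lit 329214), .ofNat (nat_lit 229411), .ofNat (nat_lit 307945), .ofNat (nat_lit 250751), .ofNat (nat_lit 329284)⟩⟩, [⟨nat_lit 0, nat_lit 100, nat_lit 96, nat_lit 40, nat_lit 110411780⟩]⟩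
noncomputable def p030_l27 : Lf2 := ⟨nat_lit 0, nat_lit 5, [nat_lit 4, nat_lit 5, nat_lit 5, nat_lit 20], true, nat_lit 200, nat_lit 240, nat_lit 0, nat_lit 320, ⟨nat_lit 0, nat_lit 0, nat_lit 1000, nat_lit 5, nat_lit 77, nat_lit 1000, nat_lit 143, nat_lit 1000, nat_lit 194400, nat_lit 323, nat_lit 56067, nat_lit 273, nat_lit 56040103, nat_lit 0, nat_lit 0, nat_lit 2863782, false, false⟩,
 nat_lit 0, nat_lit 7777, nat_lit 0, nat_lit 0, nat_lit 4116, nat_lit 0, nat_lit 0, nat_lit 0, nat_lit 0, nat_lit 0, nat_lit 0, nat_lit 0, nat_lit 0, nat_lit 0, nat_lit 147, nat_lit 1000000, nat_lit 0, nat_lit 0, [(nat_lit 6, [(nat_lit 6, nat_lit 1000)])],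
 ⟨p030_k5, nat_lit 0, nat_lit 0, nat_lit 217, nat_lit 0, nat_lit 208309, [nat_lit 3329066667, nat_lit 3042400001, nat_lit 177599999], [], [nat_lit 13852632376, nat_lit 14969507869, nat_lit 12641975772, nat_lit 13696534248, nat_lit 15445864848, nat_lit 16472728595, nat_lit 14162725948, nat_lit 15133818516], nat_lit 1271250, nat_lit 1271250, nat_lit 21650, nat_lit 490000, nat_lit 1271250, nat_lit 1271250, [nat_lit 1100000, nat_lit 1442500, nat_lit 1271250], [nat_lit 11, nat_lit 40, nat_lit 20, nat_lit 80, nat_lit 1, nat_lit 373, nat_lit 150, nat_lit 11]⟩, C1.Rw.none,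
 ⟨nat_lit 5916, nat_lit 6325, ⟨.ofNat (nat_lit 96904), .ofNat (nat_lit 253206), .ofNat (nat_lit 118272), .ofNat (nat_lit 274574), .ofNat (nat_lit 115184), .ofNat (nat_lit 264398), .ofNat (nat_lit 136523), .ofNat (nat_lit 285737)⟩, ⟨.ofNat (nat_lit 307688), .ofNat (nat_lit 389952), .ofNat (nat_lit 329055), .ofNat (nat_lit 411320), .ofNat (nat_lit 307945), .ofNat (nat_lit 386479), .ofNat (nat_lit 329284), .ofNat (nat_lit 407818)⟩⟩, [⟨nat_lit 0, nat_lit 100, nat_lit 96, nat_lit 40, nat_lit 189208671⟩, ⟨nat_lit 16, nat_lit 100, nat_lit 99, nat_lit 54, nat_lit 253073306⟩]⟩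
noncomputable def p030_l28 : Lf2 := ⟨nat_lit 0, nat_lit 5, [nat_lit 4, nat_lit 5, nat_lit 5, nat_lit 20], true, nat_lit 240, nat_lit 288, nat_lit 0, nat_lit 320, ⟨nat_lit 0, nat_lit 0, nat_lit 1000, nat_lit 5, nat_lit 77, nat_lit 1000, nat_lit 179, nat_lit 1000, nat_lit 29345, nat_lit 255, nat_lit 56067, nat_lit 273, nat_lit 52712890, nat_lit 0, nat_lit 0, nat_lit 3317139, false, false⟩,
 nat_lit 0, nat_lit 7279, nat_lit 0, nat_lit 0, nat_lit 3853, nat_lit 0, nat_lit 0, nat_lit 0, nat_lit 0, nat_lit 0, nat_lit 0, nat_lit 0, nat_lit 0, nat_lit 0, nat_lit 147, nat_lit 1000000, nat_lit 0, nat_lit 0, [(nat_lit 6, [(nat_lit 6, nat_lit 1000)])],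
 ⟨p030_k5, nat_lit 0, nat_lit 0, nat_lit 232, nat_lit 0, nat_lit 208309, [nat_lit 3329066667, nat_lit 3042400001, nat_lit 177599999], [], [nat_lit 15823009162, nat_lit 16823036600, nat_lit 14703827408, nat_lit 15650251102, nat_lit 18518252962, nat_lit 19789719704, nat_lit 17098422832, nat_lit 17940374664], nat_lit 1271250, nat_lit 1271250, nat_lit 21650, nat_lit 490000, nat_lit 1271250, nat_lit 1271250, [nat_lit 1100000, nat_lit 1442500, nat_lit 1271250], [nat_lit 11, nat_lit 40, nat_lit 20, nat_lit 80, nat_lit 1, nat_lit 401, nat_lit 175, nat_lit 11]⟩, C1.Rw.none,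
 ⟨nat_lit 5916, nat_lit 6325, ⟨.ofNat (nat_lit 96904), .ofNat (nat_lit 253206), .ofNat (nat_lit 118272), .ofNat (nat_lit 274574), .ofNat (nat_lit 115184), .ofNat (nat_lit 264398), .ofNat (nat_lit 136523), .ofNat (nat_lit 285737)⟩, ⟨.ofNat (nat_lit 389952), .ofNat (nat_lit 488669), .ofNat (nat_lit 411320), .ofNat (nat_lit 510037), .ofNat (nat_lit 386479), .ofNat (nat_lit 480719), .ofNat (nat_lit 407818), .ofNat (nat_lit 502058)⟩⟩, [⟨nat_lit 0, nat_lit 100, nat_lit 97, nat_lit 30, nat_lit 187642202⟩, ⟨nat_lit 4, nat_lit 99, nat_lit 100, nat_lit 54, nat_lit 466715977⟩]⟩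
noncomputable def p030_l29 : Lf2 := ⟨nat_lit 1, nat_lit 8, [nat_lit 50, nat_lit 5, nat_lit 5, nat_lit 20], false, nat_lit 160, nat_lit 288, nat_lit 0, nat_lit 320, zbN0,
 nat_lit 0, nat_lit 0, nat_lit 0, nat_lit 0, nat_lit 0, nat_lit 0, nat_lit 0, nat_lit 0, nat_lit 0, nat_lit 0, nat_lit 0, nat_lit 0, nat_lit 0, nat_lit 0, nat_lit 0, nat_lit 0, nat_lit 0, nat_lit 0, [],
 C1.Rw.none, C1.Rw.none,
 zbF0, []⟩
noncomputable def b_VL_600_500_5_9 : St := ⟨true, nat_lit 1, nat_lit 0, nat_lit 1, nat_lit 40, nat_lit 240, nat_lit 260, nat_lit 200, nat_lit 220, nat_lit 4, nat_lit 80, nat_lit 20, nat_lit 40, nat_lit 160, nat_lit 288, nat_lit 0, nat_lit 320, nat_lit 0, nat_lit 32, nat_lit 0, nat_lit 0, nat_lit 0, nat_lit 800⟩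
theorem d_VL_600_500_5_9 (h : EB TB.env) : Dead b_VL_600_500_5_9 := chkB_sound0 h (T :=
(.spl (nat_lit 6) (nat_lit 20)
(.spl (nat_lit 4) (nat_lit 240)
(.spl (nat_lit 4) (nat_lit 200)
(.spl (nat_lit 0) (nat_lit 250)
(.leaf p030_l25)
(.leaf p030_l26))
(.leaf p030_l27))
(.leaf p030_l28))
(.leaf p030_l29))) (by decide +kernel)
noncomputable def p030_l30 : Lf2 := ⟨nat_lit 0, nat_lit 2, [nat_lit 10, nat_lit 5, nat_lit 5, nat_lit 20], true, nat_lit 160, nat_lit 180, nat_lit 0, nat_lit 304, ⟨nat_lit 0, nat_lit 0, nat_lit 1000, nat_lit 5, nat_lit 69, nat_lit 1000, nat_lit 103, nat_lit 1000, nat_lit 98817, nat_lit 292, nat_lit 45067, nat_lit 267, nat_lit 60018103, nat_lit 0, nat_lit 0, nat_lit 2117493, false, false⟩,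
 nat_lit 0, nat_lit 8898, nat_lit 0, nat_lit 0, nat_lit 4710, nat_lit 0, nat_lit 1109, nat_lit 0, nat_lit 0, nat_lit 0, nat_lit 0, nat_lit 0, nat_lit 0, nat_lit 0, nat_lit 80, nat_lit 1000000, nat_lit 0, nat_lit 0, [(nat_lit 6, [(nat_lit 6, nat_lit 1000)])],
 ⟨p030_k15, nat_lit 0, nat_lit 0, nat_lit 201, nat_lit 0, nat_lit 200628, [nat_lit 2257066667, nat_lit 1408000000, nat_lit 211200000], [], [nat_lit 10792354971, nat_lit 11113549794, nat_lit 10396020027, nat_lit 10061660327, nat_lit 11621191421, nat_lit 11929969386, nat_lit 11908492377, nat_lit 11308715090], nat_lit 1271250, nat_lit 1271250, nat_lit 43600, nat_lit 230001, nat_lit 1100001, nat_lit 1271250, [nat_lit 1100000, nat_lit 1442500, nat_lit 1271250], [nat_lit 9, nat_lit 40, nat_lit 20, nat_lit 80, nat_lit 2, nat_lit 272, nat_lit 60, nat_lit 9]⟩, C1.Rw.none,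
 ⟨nat_lit 6224, nat_lit 6325, ⟨.ofNat (nat_lit 126498), .ofNat (nat_lit 192309), .ofNat (nat_lit 147866), .ofNat (nat_lit 213677), .ofNat (nat_lit 131030), .ofNat (nat_lit 196084), .ofNat (nat_lit 152387), .ofNat (nat_lit 217441)⟩, ⟨.ofNat (nat_lit 225423), .ofNat (nat_lit 266555), .ofNat (nat_lit 246791), .ofNat (nat_lit 287923), .ofNat (nat_lit 226471), .ofNat (nat_lit 267130), .ofNat (nat_lit 247827), .ofNat (nat_lit 288486)⟩⟩, [⟨nat_lit 0, nat_lit 100, nat_lit 99, nat_lit 42, nat_lit 91780253⟩]⟩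
noncomputable def p030_l31 : Lf2 := ⟨nat_lit 0, nat_lit 2, [nat_lit 10, nat_lit 5, nat_lit 5, nat_lit 20], true, nat_lit 160, nat_lit 180, nat_lit 0, nat_lit 304, ⟨nat_lit 0, nat_lit 0, nat_lit 1000, nat_lit 5, nat_lit 71, nat_lit 1000, nat_lit 103, nat_lit 1000, nat_lit 98817, nat_lit 292, nat_lit 46817, nat_lit 268, nat_lit 59889534, nat_lit 0, nat_lit 0, nat_lit 2149133, false, false⟩,
 nat_lit 0, nat_lit 8347, nat_lit 0, nat_lit 0, nat_lit 4527, nat_lit 0, nat_lit 965, nat_lit 0, nat_lit 0, nat_lit 0, nat_lit 0, nat_lit 0, nat_lit 0, nat_lit 0, nat_lit 80, nat_lit 1000000, nat_lit 0, nat_lit 0, [(nat_lit 6, [(nat_lit 6, nat_lit 1000)])],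
 ⟨p030_k16, nat_lit 0, nat_lit 0, nat_lit 200, nat_lit 0, nat_lit 219176, [nat_lit 2257066667, nat_lit 1408000000, nat_lit 211200000], [], [nat_lit 11223411239, nat_lit 11538472230, nat_lit 10231865034, nat_lit 10541127730, nat_lit 12030152698, nat_lit 12333164483, nat_lit 11455246231, nat_lit 11326894643], nat_lit 1271250, nat_lit 1271250, nat_lit 43600, nat_lit 230001, nat_lit 1100001, nat_lit 1271250, [nat_lit 1100000, nat_lit 1442500, nat_lit 1271250], [nat_lit 9, nat_lit 40, nat_lit 20, nat_lit 80, nat_lit 2, nat_lit 272, nat_lit 60, nat_lit 9]⟩, C1.Rw.none,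
 ⟨nat_lit 6123, nat_lit 6225, ⟨.ofNat (nat_lit 131030), .ofNat (nat_lit 196084), .ofNat (nat_lit 152387), .ofNat (nat_lit 217441), .ofNat (nat_lit 135519), .ofNat (nat_lit 199824), .ofNat (nat_lit 156867), .ofNat (nat_lit 221172)⟩, ⟨.ofNat (nat_lit 226471), .ofNat (nat_lit 267130), .ofNat (nat_lit 247827), .ofNat (nat_lit 288486), .ofNat (nat_lit 227485), .ofNat (nat_lit 267675), .ofNat (nat_lit 248833), .ofNat (nat_lit 289023)⟩⟩, [⟨nat_lit 0, nat_lit 100, nat_lit 99, nat_lit 45, nat_lit 215328502⟩]⟩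
noncomputable def p030_l32 : Lf2 := ⟨nat_lit 0, nat_lit 2, [nat_lit 10, nat_lit 5, nat_lit 5, nat_lit 20], true, nat_lit 180, nat_lit 200, nat_lit 0, nat_lit 304, ⟨nat_lit 0, nat_lit 0, nat_lit 1000, nat_lit 5, nat_lit 69, nat_lit 1000, nat_lit 119, nat_lit 1000, nat_lit 132017, nat_lit 304, nat_lit 45067, nat_lit 267, nat_lit 58693883, nat_lit 0, nat_lit 0, nat_lit 2374576, false, false⟩,
 nat_lit 0, nat_lit 8561, nat_lit 0, nat_lit 0, nat_lit 4532, nat_lit 0, nat_lit 1026, nat_lit 0, nat_lit 0, nat_lit 0, nat_lit 0, nat_lit 0, nat_lit 0, nat_lit 0, nat_lit 80, nat_lit 1000000, nat_lit 0, nat_lit 0, [(nat_lit 6, [(nat_lit 6, nat_lit 1000)])],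
 ⟨p030_k15, nat_lit 0, nat_lit 0, nat_lit 191, nat_lit 0, nat_lit 200628, [nat_lit 2257066667, nat_lit 1408000000, nat_lit 211200000], [], [nat_lit 11914906124, nat_lit 12218075455, nat_lit 12219013199, nat_lit 11641902654, nat_lit 12733971264, nat_lit 13025081344, nat_lit 11727491355, nat_lit 12013414894], nat_lit 1271250, nat_lit 1271250, nat_lit 43600, nat_lit 230001, nat_lit 1271250, nat_lit 1271250, [nat_lit 1100000, nat_lit 1442500, nat_lit 1271250], [nat_lit 9, nat_lit 40, nat_lit 20, nat_lit 80, nat_lit 2, nat_lit 272, nat_lit 60, nat_lit 9]⟩, C1.Rw.none,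
 ⟨nat_lit 6224, nat_lit 6325, ⟨.ofNat (nat_lit 126498), .ofNat (nat_lit 192309), .ofNat (nat_lit 147866), .ofNat (nat_lit 213677), .ofNat (nat_lit 131030), .ofNat (nat_lit 196084), .ofNat (nat_lit 152387), .ofNat (nat_lit 217441)⟩, ⟨.ofNat (nat_lit 266555), .ofNat (nat_lit 307688), .ofNat (nat_lit 287923), .ofNat (nat_lit 329055), .ofNat (nat_lit 267130), .ofNat (nat_lit 307788), .ofNat (nat_lit 288486), .ofNat (nat_lit 329145)⟩⟩, [⟨nat_lit 0, nat_lit 100, nat_lit 99, nat_lit 42, nat_lit 170937399⟩]⟩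
noncomputable def p030_l33 : Lf2 := ⟨nat_lit 0, nat_lit 2, [nat_lit 10, nat_lit 5, nat_lit 5, nat_lit 20], true, nat_lit 180, nat_lit 200, nat_lit 0, nat_lit 304, ⟨nat_lit 0, nat_lit 0, nat_lit 1000, nat_lit 5, nat_lit 71, nat_lit 1000, nat_lit 119, nat_lit 1000, nat_lit 132017, nat_lit 304, nat_lit 46817, nat_lit 268, nat_lit 58579955, nat_lit 0, nat_lit 0, nat_lit 2402827, false, false⟩,
 nat_lit 0, nat_lit 8051, nat_lit 0, nat_lit 0, nat_lit 4366, nat_lit 0, nat_lit 892, nat_lit 0, nat_lit 0, nat_lit 0, nat_lit 0, nat_lit 0, nat_lit 0, nat_lit 0, nat_lit 80, nat_lit 1000000, nat_lit 0, nat_lit 0, [(nat_lit 6, [(nat_lit 6, nat_lit 1000)])],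
 ⟨p030_k16, nat_lit 0, nat_lit 0, nat_lit 190, nat_lit 0, nat_lit 219176, [nat_lit 2257066667, nat_lit 1408000000, nat_lit 211200000], [], [nat_lit 12305571144, nat_lit 12603509952, nat_lit 11771440636, nat_lit 11650537311, nat_lit 13103797961, nat_lit 13390011016, nat_lit 12147060131, nat_lit 12428197350], nat_lit 1271250, nat_lit 1271250, nat_lit 43600, nat_lit 230001, nat_lit 1271250, nat_lit 1271250, [nat_lit 1100000, nat_lit 1442500, nat_lit 1271250], [nat_lit 9, nat_lit 40, nat_lit 20, nat_lit 80, nat_lit 2, nat_lit 272, nat_lit 60, nat_lit 9]⟩, C1.Rw.none,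
 ⟨nat_lit 6123, nat_lit 6225, ⟨.ofNat (nat_lit 131030), .ofNat (nat_lit 196084), .ofNat (nat_lit 152387), .ofNat (nat_lit 217441), .ofNat (nat_lit 135519), .ofNat (nat_lit 199824), .ofNat (nat_lit 156867), .ofNat (nat_lit 221172)⟩, ⟨.ofNat (nat_lit 267130), .ofNat (nat_lit 307788), .ofNat (nat_lit 288486), .ofNat (nat_lit 329145), .ofNat (nat_lit 267675), .ofNat (nat_lit 307865), .ofNat (nat_lit 289023), .ofNat (nat_lit 329214)⟩⟩, [⟨nat_lit 0, nat_lit 100, nat_lit 99, nat_lit 45, nat_lit 258360457⟩]⟩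
noncomputable def p030_l34 : Lf2 := ⟨nat_lit 0, nat_lit 2, [nat_lit 10, nat_lit 5, nat_lit 5, nat_lit 20], false, nat_lit 160, nat_lit 200, nat_lit 0, nat_lit 160, ⟨nat_lit 1000, nat_lit 0, nat_lit 0, nat_lit 0, nat_lit 0, nat_lit 0, nat_lit 0, nat_lit 0, nat_lit 0, nat_lit 0, nat_lit 0, nat_lit 0, nat_lit 0, nat_lit 0, nat_lit 0, nat_lit 0, false, false⟩,
 nat_lit 0, nat_lit 26840, nat_lit 0, nat_lit 0, nat_lit 14209, nat_lit 10817, nat_lit 0, nat_lit 0, nat_lit 0, nat_lit 6331, nat_lit 0, nat_lit 0, nat_lit 0, nat_lit 0, nat_lit 0, nat_lit 0, nat_lit 0, nat_lit 0, [],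
 ⟨p030_k15, nat_lit 0, nat_lit 0, nat_lit 187, nat_lit 0, nat_lit 225288, [nat_lit 4688000000, nat_lit 6250000000, nat_lit 7968000000], [], [nat_lit 22765108872, nat_lit 19120088311, nat_lit 8185026628, nat_lit 8565785736, nat_lit 13108659898, nat_lit 14347301393, nat_lit 10118906978, nat_lit 11152943163], nat_lit 1271250, nat_lit 1271250, nat_lit 230001, nat_lit 490000, nat_lit 1100001, nat_lit 1442500, [nat_lit 1100000, nat_lit 1442500, nat_lit 1271250], [nat_lit 9, nat_lit 40, nat_lit 20, nat_lit 80, nat_lit 2, nat_lit 289, nat_lit 75, nat_lit 9]⟩, ⟨p030_k17, nat_lit 0, nat_lit 0, nat_lit 0, nat_lit 0, nat_lit 0, [nat_lit 6250000000, nat_lit 7968000000], [], [nat_lit 15185772038, nat_lit 16839406056, nat_lit 13071115194, nat_lit 14788867256, nat_lit 9410585464, nat_lit 10946097572, nat_lit 7757927346, nat_lit 9223291720], nat_lit 0, nat_lit 0, nat_lit 0, nat_lit 0, nat_lit 0, nat_lit 0, [], [nat_lit 26, nat_lit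 40, nat_lit 20, nat_lit 80]⟩,
 zbF0, []⟩
noncomputable def p030_l35 : Lf2 := ⟨nat_lit 0, nat_lit 2, [nat_lit 10, nat_lit 5, nat_lit 5, nat_lit 20], false, nat_lit 160, nat_lit 200, nat_lit 160, nat_lit 304, ⟨nat_lit 1000, nat_lit 0, nat_lit 0, nat_lit 0, nat_lit 0, nat_lit 0, nat_lit 0, nat_lit 0, nat_lit 0, nat_lit 0, nat_lit 0, nat_lit 0, nat_lit 0, nat_lit 0, nat_lit 0, nat_lit 0, false, false⟩,
 nat_lit 0, nat_lit 18415, nat_lit 0, nat_lit 0, nat_lit 9749, nat_lit 9518, nat_lit 0, nat_lit 0, nat_lit 0, nat_lit 0, nat_lit 0, nat_lit 0, nat_lit 0, nat_lit 0, nat_lit 0, nat_lit 0, nat_lit 0, nat_lit 0, [],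
 ⟨p030_k15, nat_lit 0, nat_lit 0, nat_lit 187, nat_lit 0, nat_lit 225288, [nat_lit 4688000000, nat_lit 6250000000, nat_lit 7968000000], [], [nat_lit 25330465192, nat_lit 22829563971, nat_lit 15711812420, nat_lit 16461540771, nat_lit 18977539446, nat_lit 19689680174, nat_lit 17313091710, nat_lit 17993373207], nat_lit 1271250, nat_lit 1271250, nat_lit 230001, nat_lit 490000, nat_lit 1100001, nat_lit 1442500, [nat_lit 1100000, nat_lit 1442500, nat_lit 1271250], [nat_lit 9, nat_lit 40, nat_lit 20, nat_lit 80, nat_lit 2, nat_lit 289, nat_lit 75, nat_lit 9]⟩, ⟨p030_k17, nat_lit 0, nat_lit 0, nat_lit 0, nat_lit 0, nat_lit 0, [nat_lit 6250000000, nat_lit 7968000000], [], [nat_lit 7916906192, nat_lit 9834563712, nat_lit 6347375548, nat_lit 8192687168, nat_lit 20406423610, nat_lit 21911628740, nat_lit 18357676127, nat_lit 19485504448], nat_lit 0, nat_lit 0, nat_lit 0, nat_lit 0, nat_lit 0, nat_lit 0, [], [nat_lit 26, nat_lit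 40, nat_lit 20, nat_lit 80]⟩,
 zbF0, [⟨nat_lit 7, nat_lit 93, nat_lit 100, nat_lit 53, nat_lit 1207528182⟩]⟩
noncomputable def p030_l36 : Lf2 := ⟨nat_lit 0, nat_lit 4, [nat_lit 38, nat_lit 5, nat_lit 5, nat_lit 20], true, nat_lit 160, nat_lit 200, nat_lit 0, nat_lit 304, ⟨nat_lit 0, nat_lit 0, nat_lit 1000, nat_lit 5, nat_lit 86, nat_lit 1000, nat_lit 111, nat_lit 1000, nat_lit 114817, nat_lit 298, nat_lit 68267, nat_lit 279, nat_lit 58230169, nat_lit 0, nat_lit 0, nat_lit 2521446, false, false⟩,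
 nat_lit 0, nat_lit 11366, nat_lit 0, nat_lit 0, nat_lit 6017, nat_lit 0, nat_lit 0, nat_lit 0, nat_lit 0, nat_lit 0, nat_lit 0, nat_lit 0, nat_lit 0, nat_lit 0, nat_lit 41, nat_lit 400000, nat_lit 0, nat_lit 0, [(nat_lit 6, [(nat_lit 5, nat_lit 1000)])],
 ⟨p030_k18, nat_lit 0, nat_lit 0, nat_lit 196, nat_lit 0, nat_lit 136201, [nat_lit 2073600001, nat_lit 7600000], [], [nat_lit 11335947956, nat_lit 12125947284, nat_lit 12195317657, nat_lit 10696224226, nat_lit 14186751931, nat_lit 14089587875, nat_lit 15854709953, nat_lit 14376567716], nat_lit 1271250, nat_lit 1271250, nat_lit 43600, nat_lit 490000, nat_lit 1100001, nat_lit 1442500, [nat_lit 1100000, nat_lit 1785000], [nat_lit 39, nat_lit 40, nat_lit 20, nat_lit 80, nat_lit 7, nat_lit 289, nat_lit 75, nat_lit 9]⟩, C1.Rw.none,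
 ⟨nat_lit 6123, nat_lit 6325, ⟨.ofNat (nat_lit 126498), .ofNat (nat_lit 274574), .ofNat (nat_lit 147866), .ofNat (nat_lit 295942), .ofNat (nat_lit 135519), .ofNat (nat_lit 280205), .ofNat (nat_lit 156867), .ofNat (nat_lit 301553)⟩, ⟨.ofNat (nat_lit 225423), .ofNat (nat_lit 307688), .ofNat (nat_lit 246791), .ofNat (nat_lit 329055), .ofNat (nat_lit 227485), .ofNat (nat_lit 307865), .ofNat (nat_lit 248833), .ofNat (nat_lit 329214)⟩⟩, []⟩
noncomputable def p030_l37 : Lf2 := ⟨nat_lit 0, nat_lit 6, [nat_lit 47, nat_lit 5, nat_lit 5, nat_lit 20], true, nat_lit 160, nat_lit 200, nat_lit 0, nat_lit 304, ⟨nat_lit 0, nat_lit 0, nat_lit 1000, nat_lit 5, nat_lit 86, nat_lit 1000, nat_lit 111, nat_lit 1000, nat_lit 114817, nat_lit 298, nat_lit 68267, nat_lit 279, nat_lit 58230169, nat_lit 0, nat_lit 0, nat_lit 2521446, false, false⟩,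
 nat_lit 0, nat_lit 10785, nat_lit 0, nat_lit 0, nat_lit 5709, nat_lit 0, nat_lit 0, nat_lit 0, nat_lit 0, nat_lit 0, nat_lit 0, nat_lit 0, nat_lit 0, nat_lit 0, nat_lit 137, nat_lit 922600, nat_lit 0, nat_lit 0, [(nat_lit 6, [(nat_lit 5, nat_lit 129), (nat_lit 6, nat_lit 871)])],
 ⟨p030_k19, nat_lit 0, nat_lit 0, nat_lit 190, nat_lit 0, nat_lit 61929, [nat_lit 3710984401, nat_lit 1612941867, nat_lit 8936000], [], [nat_lit 11739455593, nat_lit 12421013432, nat_lit 12074652980, nat_lit 10652295593, nat_lit 13942875057, nat_lit 13959531915, nat_lit 15616854972, nat_lit 14214376323], nat_lit 1271250, nat_lit 1271250, nat_lit 43600, nat_lit 490000, nat_lit 1100001, nat_lit 1442500, [nat_lit 1100000, nat_lit 1785000, nat_lit 1271250], [nat_lit 29, nat_lit 40, nat_lit 20, nat_lit 80, nat_lit 17, nat_lit 373, nat_lit 150, nat_lit 11]⟩, C1.Rw.none,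
 ⟨nat_lit 6123, nat_lit 6325, ⟨.ofNat (nat_lit 126498), .ofNat (nat_lit 274574), .ofNat (nat_lit 147866), .ofNat (nat_lit 295942), .ofNat (nat_lit 135519), .ofNat (nat_lit 280205), .ofNat (nat_lit 156867), .ofNat (nat_lit 301553)⟩, ⟨.ofNat (nat_lit 225423), .ofNat (nat_lit 307688), .ofNat (nat_lit 246791), .ofNat (nat_lit 329055), .ofNat (nat_lit 227485), .ofNat (nat_lit 307865), .ofNat (nat_lit 248833), .ofNat (nat_lit 329214)⟩⟩, []⟩
noncomputable def p030_l38 : Lf2 := ⟨nat_lit 0, nat_lit 4, [nat_lit 38, nat_lit 5, nat_lit 5, nat_lit 20], true, nat_lit 200, nat_lit 240, nat_lit 0, nat_lit 304, ⟨nat_lit 0, nat_lit 0, nat_lit 1000, nat_lit 5, nat_lit 86, nat_lit 1000, nat_lit 144, nat_lit 1000, nat_lit 194400, nat_lit 323, nat_lit 68267, nat_lit 279, nat_lit 55456371, nat_lit 0, nat_lit 0, nat_lit 2999329, false, false⟩,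
 nat_lit 0, nat_lit 7822, nat_lit 0, nat_lit 0, nat_lit 4141, nat_lit 0, nat_lit 700, nat_lit 0, nat_lit 0, nat_lit 0, nat_lit 0, nat_lit 0, nat_lit 0, nat_lit 0, nat_lit 80, nat_lit 1000000, nat_lit 0, nat_lit 0, [(nat_lit 6, [(nat_lit 6, nat_lit 1000)])],
 ⟨p030_k20, nat_lit 0, nat_lit 0, nat_lit 183, nat_lit 0, nat_lit 232440, [nat_lit 2257066667, nat_lit 1408000000, nat_lit 211200000], [], [nat_lit 13357689616, nat_lit 13916840658, nat_lit 12293614371, nat_lit 12822252497, nat_lit 14952892006, nat_lit 15466948158, nat_lit 13816890447, nat_lit 14303609206], nat_lit 1271250, nat_lit 1271250, nat_lit 43600, nat_lit 490000, nat_lit 1271250, nat_lit 1271250, [nat_lit 1100000, nat_lit 1442500, nat_lit 1271250], [nat_lit 9, nat_lit 40, nat_lit 20, nat_lit 80, nat_lit 2, nat_lit 317, nat_lit 100, nat_lit 10]⟩, C1.Rw.none,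
 ⟨nat_lit 6123, nat_lit 6325, ⟨.ofNat (nat_lit 126498), .ofNat (nat_lit 274574), .ofNat (nat_lit 147866), .ofNat (nat_lit 295942), .ofNat (nat_lit 135519), .ofNat (nat_lit 280205), .ofNat (nat_lit 156867), .ofNat (nat_lit 301553)⟩, ⟨.ofNat (nat_lit 307688), .ofNat (nat_lit 389952), .ofNat (nat_lit 329055), .ofNat (nat_lit 411320), .ofNat (nat_lit 307865), .ofNat (nat_lit 388246), .ofNat (nat_lit 329214), .ofNat (nat_lit 409594)⟩⟩, [⟨nat_lit 0, nat_lit 100, nat_lit 99, nat_lit 45, nat_lit 190940617⟩]⟩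
noncomputable def p030_l39 : Lf2 := ⟨nat_lit 0, nat_lit 6, [nat_lit 47, nat_lit 5, nat_lit 5, nat_lit 20], true, nat_lit 200, nat_lit 240, nat_lit 0, nat_lit 304, ⟨nat_lit 0, nat_lit 0, nat_lit 1000, nat_lit 5, nat_lit 86, nat_lit 1000, nat_lit 144, nat_lit 1000, nat_lit 194400, nat_lit 323, nat_lit 68267, nat_lit 279, nat_lit 55456371, nat_lit 0, nat_lit 0, nat_lit 2999329, false, false⟩,
 nat_lit 0, nat_lit 8447, nat_lit 0, nat_lit 0, nat_lit 4471, nat_lit 0, nat_lit 0, nat_lit 0, nat_lit 0, nat_lit 0, nat_lit 0, nat_lit 0, nat_lit 0, nat_lit 0, nat_lit 135, nat_lit 909400, nat_lit 0, nat_lit 0, [(nat_lit 6, [(nat_lit 5, nat_lit 151), (nat_lit 6, nat_lit 849)])],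
 ⟨p030_k19, nat_lit 0, nat_lit 0, nat_lit 170, nat_lit 0, nat_lit 61929, [nat_lit 3676423601, nat_lit 1582588801, nat_lit 984000], [], [nat_lit 13714655926, nat_lit 14243874176, nat_lit 13328982778, nat_lit 12875838419, nat_lit 15186181460, nat_lit 15672297172, nat_lit 13781763794, nat_lit 14242361527], nat_lit 1271250, nat_lit 1271250, nat_lit 43600, nat_lit 490000, nat_lit 1271250, nat_lit 1271250, [nat_lit 1100000, nat_lit 1785000, nat_lit 1271250], [nat_lit 29, nat_lit 40, nat_lit 20, nat_lit 80, nat_lit 17, nat_lit 373, nat_lit 150, nat_lit 11]⟩, C1.Rw.none,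
 ⟨nat_lit 6123, nat_lit 6325, ⟨.ofNat (nat_lit 126498), .ofNat (nat_lit 274574), .ofNat (nat_lit 147866), .ofNat (nat_lit 295942), .ofNat (nat_lit 135519), .ofNat (nat_lit 280205), .ofNat (nat_lit 156867), .ofNat (nat_lit 301553)⟩, ⟨.ofNat (nat_lit 307688), .ofNat (nat_lit 389952), .ofNat (nat_lit 329055), .ofNat (nat_lit 411320), .ofNat (nat_lit 307865), .ofNat (nat_lit 388246), .ofNat (nat_lit 329214), .ofNat (nat_lit 409594)⟩⟩, [⟨nat_lit 0, nat_lit 100, nat_lit 99, nat_lit 45, nat_lit 209676127⟩]⟩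
noncomputable def p030_l40 : Lf2 := ⟨nat_lit 0, nat_lit 4, [nat_lit 38, nat_lit 5, nat_lit 5, nat_lit 20], false, nat_lit 240, nat_lit 288, nat_lit 0, nat_lit 160, ⟨nat_lit 109, nat_lit 0, nat_lit 891, nat_lit 5, nat_lit 68, nat_lit 891, nat_lit 179, nat_lit 891, nat_lit 29345, nat_lit 255, nat_lit 43350, nat_lit 266, nat_lit 53213760, nat_lit 0, nat_lit 0, nat_lit 3180773, false, false⟩,
 nat_lit 0, nat_lit 9432, nat_lit 0, nat_lit 0, nat_lit 4993, nat_lit 1066, nat_lit 0, nat_lit 0, nat_lit 0, nat_lit 795, nat_lit 0, nat_lit 0, nat_lit 0, nat_lit 0, nat_lit 24, nat_lit 720600, nat_lit 0, nat_lit 0, [(nat_lit 6, [(nat_lit 5, nat_lit 284), (nat_lit 6, nat_lit 607)])],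
 ⟨p030_k18, nat_lit 0, nat_lit 0, nat_lit 175, nat_lit 0, nat_lit 188142, [nat_lit 2228728401, nat_lit 62746400], [], [nat_lit 15945433221, nat_lit 16545829594, nat_lit 14743117637, nat_lit 15243503053, nat_lit 19420722563, nat_lit 20139043733, nat_lit 17489364549, nat_lit 18138138536], nat_lit 1271250, nat_lit 1271250, nat_lit 43600, nat_lit 230001, nat_lit 1271250, nat_lit 1271250, [nat_lit 1100000, nat_lit 1785000], [nat_lit 39, nat_lit 40, nat_lit 20, nat_lit 80, nat_lit 7, nat_lit 215, nat_lit 10, nat_lit 7]⟩, ⟨p030_k21, nat_lit 0, nat_lit 0, nat_lit 0, nat_lit 0, nat_lit 0, [nat_lit 681250000, nat_lit 1072778000], [], [nat_lit 2162087076, nat_lit 2229837439, nat_lit 1855796528, nat_lit 1909126652, nat_lit 1551527076, nat_lit 1631634038, nat_lit 1257061158, nat_lit 1335855669], nat_lit 0, nat_lit 0, nat_lit 0, nat_lit 0, nat_lit 0, nat_lit 0, [], [nat_lit 51, nat_lit 40, nat_lit 20, nat_lit 80]⟩,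
 ⟨nat_lit 6123, nat_lit 6325, ⟨.ofNat (nat_lit 126498), .ofNat (nat_lit 192309), .ofNat (nat_lit 137182), .ofNat (nat_lit 202993), .ofNat (nat_lit 135519), .ofNat (nat_lit 199824), .ofNat (nat_lit 146193), .ofNat (nat_lit 210498)⟩, ⟨.ofNat (nat_lit 389952), .ofNat (nat_lit 488669), .ofNat (nat_lit 411320), .ofNat (nat_lit 510037), .ofNat (nat_lit 388246), .ofNat (nat_lit 484703), .ofNat (nat_lit 409594), .ofNat (nat_lit 506051)⟩⟩, [⟨nat_lit 0, nat_lit 100, nat_lit 98, nat_lit 35, nat_lit 429591994⟩, ⟨nat_lit 4, nat_lit 97, nat_lit 100, nat_lit 54, nat_lit 665094365⟩]⟩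
noncomputable def p030_l41 : Lf2 := ⟨nat_lit 0, nat_lit 4, [nat_lit 38, nat_lit 5, nat_lit 5, nat_lit 20], false, nat_lit 240, nat_lit 288, nat_lit 0, nat_lit 160, ⟨nat_lit 260, nat_lit 0, nat_lit 740, nat_lit 5, nat_lit 72, nat_lit 740, nat_lit 179, nat_lit 740, nat_lit 29345, nat_lit 255, nat_lit 48600, nat_lit 269, nat_lit 52940223, nat_lit 0, nat_lit 0, nat_lit 3252358, false, false⟩,
 nat_lit 0, nat_lit 11023, nat_lit 0, nat_lit 0, nat_lit 5835, nat_lit 2556, nat_lit 0, nat_lit 0, nat_lit 0, nat_lit 1224, nat_lit 0, nat_lit 0, nat_lit 0, nat_lit 0, nat_lit 0, nat_lit 740000, nat_lit 0, nat_lit 0, [(nat_lit 6, [(nat_lit 6, nat_lit 740)])],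
 ⟨p030_k18, nat_lit 0, nat_lit 0, nat_lit 177, nat_lit 0, nat_lit 209811, [nat_lit 2354040001, nat_lit 735285333], [], [nat_lit 16576322733, nat_lit 17223664945, nat_lit 15068974693, nat_lit 15708145723, nat_lit 19901327558, nat_lit 20655223147, nat_lit 18348496670, nat_lit 18902498344], nat_lit 1271250, nat_lit 1271250, nat_lit 65850, nat_lit 230001, nat_lit 1271250, nat_lit 1271250, [nat_lit 1100000, nat_lit 1785000], [nat_lit 39, nat_lit 40, nat_lit 20, nat_lit 80, nat_lit 7, nat_lit 215, nat_lit 10, nat_lit 7]⟩, ⟨p030_k22, nat_lit 0, nat_lit 0, nat_lit 0, nat_lit 0, nat_lit 0, [nat_lit 1625000000, nat_lit 2558920000], [], [nat_lit 5154047438, nat_lit 5272807841, nat_lit 4431422336, nat_lit 4546561392, nat_lit 3752000650, nat_lit 3847757266, nat_lit 3159912924, nat_lit 3254174590], nat_lit 0, nat_lit 0, nat_lit 0, nat_lit 0, nat_lit 0, nat_lit 0, [], [nat_lit 51, nat_lit 40, nat_lit 20, nat_lit 80]⟩,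
 ⟨nat_lit 6123, nat_lit 6325, ⟨.ofNat (nat_lit 145408), .ofNat (nat_lit 202993), .ofNat (nat_lit 150750), .ofNat (nat_lit 208335), .ofNat (nat_lit 154231), .ofNat (nat_lit 210498), .ofNat (nat_lit 159568), .ofNat (nat_lit 215835)⟩, ⟨.ofNat (nat_lit 389952), .ofNat (nat_lit 488669), .ofNat (nat_lit 411320), .ofNat (nat_lit 510037), .ofNat (nat_lit 388246), .ofNat (nat_lit 484703), .ofNat (nat_lit 409594), .ofNat (nat_lit 506051)⟩⟩, [⟨nat_lit 0, nat_lit 100, nat_lit 99, nat_lit 39, nat_lit 694389728⟩, ⟨nat_lit 4, nat_lit 97, nat_lit 100, nat_lit 54, nat_lit 715749764⟩]⟩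
noncomputable def p030_l42 : Lf2 := ⟨nat_lit 0, nat_lit 4, [nat_lit 38, nat_lit 5, nat_lit 5, nat_lit 20], false, nat_lit 240, nat_lit 288, nat_lit 0, nat_lit 160, ⟨nat_lit 1000, nat_lit 0, nat_lit 0, nat_lit 0, nat_lit 0, nat_lit 0, nat_lit 0, nat_lit 0, nat_lit 0, nat_lit 0, nat_lit 0, nat_lit 0, nat_lit 0, nat_lit 0, nat_lit 0, nat_lit 0, false, false⟩,
 nat_lit 0, nat_lit 21624, nat_lit 0, nat_lit 0, nat_lit 11447, nat_lit 9715, nat_lit 0, nat_lit 0, nat_lit 0, nat_lit 3960, nat_lit 0, nat_lit 0, nat_lit 0, nat_lit 0, nat_lit 0, nat_lit 0, nat_lit 0, nat_lit 0, [],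
 ⟨p030_k18, nat_lit 0, nat_lit 0, nat_lit 184, nat_lit 0, nat_lit 232440, [nat_lit 4688000000, nat_lit 7968000000], [], [nat_lit 21383979960, nat_lit 22346756979, nat_lit 18032169552, nat_lit 18982346398, nat_lit 26409638980, nat_lit 27217419612, nat_lit 22985782556, nat_lit 23784607731], nat_lit 1271250, nat_lit 1271250, nat_lit 65850, nat_lit 230001, nat_lit 1271250, nat_lit 1271250, [nat_lit 1100000, nat_lit 1785000], [nat_lit 39, nat_lit 40, nat_lit 20, nat_lit 80, nat_lit 7, nat_lit 215, nat_lit 10, nat_lit 7]⟩, ⟨p030_k23, nat_lit 0, nat_lit 0, nat_lit 0, nat_lit 0, nat_lit 0, [nat_lit 6250000000, nat_lit 9842000000], [], [nat_lit 20345441999, nat_lit 20789549857, nat_lit 17618025693, nat_lit 18057592120, nat_lit 14996335312, nat_lit 15362078724, nat_lit 12745408275, nat_lit 13105448940], nat_lit 0, nat_lit 0, nat_lit 0, nat_lit 0, nat_lit 0, nat_lit 0, [], [nat_lit 51, nat_lit 40, nat_lit 20, nat_lit 80]⟩,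
 zbF0, [⟨nat_lit 0, nat_lit 100, nat_lit 100, nat_lit 37, nat_lit 1877200689⟩, ⟨nat_lit 4, nat_lit 97, nat_lit 100, nat_lit 54, nat_lit 1406910615⟩]⟩
noncomputable def p030_l43 : Lf2 := ⟨nat_lit 0, nat_lit 4, [nat_lit 38, nat_lit 5, nat_lit 5, nat_lit 20], false, nat_lit 240, nat_lit 288, nat_lit 160, nat_lit 252, ⟨nat_lit 60, nat_lit 0, nat_lit 940, nat_lit 5, nat_lit 59, nat_lit 940, nat_lit 179, nat_lit 940, nat_lit 29345, nat_lit 255, nat_lit 33750, nat_lit 260, nat_lit 53655078, nat_lit 0, nat_lit 0, nat_lit 3059294, false, false⟩,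
 nat_lit 0, nat_lit 9200, nat_lit 0, nat_lit 0, nat_lit 4870, nat_lit 771, nat_lit 0, nat_lit 0, nat_lit 0, nat_lit 0, nat_lit 0, nat_lit 0, nat_lit 0, nat_lit 0, nat_lit 56, nat_lit 940000, nat_lit 0, nat_lit 0, [(nat_lit 6, [(nat_lit 6, nat_lit 940)])],
 ⟨p030_k18, nat_lit 0, nat_lit 0, nat_lit 175, nat_lit 0, nat_lit 188142, [nat_lit 2619240001, nat_lit 145578667], [], [nat_lit 15306086141, nat_lit 15916944098, nat_lit 14702218948, nat_lit 15209286152, nat_lit 19296803271, nat_lit 20006218006, nat_lit 18331938048, nat_lit 19041790292], nat_lit 1271250, nat_lit 1271250, nat_lit 43600, nat_lit 111251, nat_lit 1271250, nat_lit 1271250, [nat_lit 1100000, nat_lit 1785000], [nat_lit 39, nat_lit 40, nat_lit 20, nat_lit 80, nat_lit 7, nat_lit 215, nat_lit 10, nat_lit 7]⟩, ⟨p030_k21, nat_lit 0, nat_lit 0, nat_lit 0, nat_lit 0, nat_lit 0, [nat_lit 375000000, nat_lit 590520000], [], [nat_lit 489361207, nat_lit 581423227,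 nat_lit 343248168, nat_lit 414475356, nat_lit 1139415430, nat_lit 1208883089, nat_lit 974087287, nat_lit 1043915977], nat_lit 0, nat_lit 0, nat_lit 0, nat_lit 0, nat_lit 0, nat_lit 0, [], [nat_lit 51, nat_lit 40, nat_lit 20, nat_lit 80]⟩,
 ⟨nat_lit 6123, nat_lit 6325, ⟨.ofNat (nat_lit 126498), .ofNat (nat_lit 151177), .ofNat (nat_lit 137182), .ofNat (nat_lit 161861), .ofNat (nat_lit 135519), .ofNat (nat_lit 159634), .ofNat (nat_lit 146193), .ofNat (nat_lit 170308)⟩, ⟨.ofNat (nat_lit 389952), .ofNat (nat_lit 488669), .ofNat (nat_lit 411320), .ofNat (nat_lit 510037), .ofNat (nat_lit 388246), .ofNat (nat_lit 484703), .ofNat (nat_lit 409594), .ofNat (nat_lit 506051)⟩⟩, [⟨nat_lit 0, nat_lit 100, nat_lit 98, nat_lit 35, nat_lit 343596211⟩, ⟨nat_lit 4, nat_lit 97, nat_lit 100, nat_lit 54, nat_lit 653729346⟩, ⟨nat_lit 11, nat_lit 100, nat_lit 95, nat_lit 35, nat_lit 140412001⟩]⟩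
noncomputable def p030_l44 : Lf2 := ⟨nat_lit 0, nat_lit 4, [nat_lit 38, nat_lit 5, nat_lit 5, nat_lit 20], true, nat_lit 240, nat_lit 288, nat_lit 160, nat_lit 288, ⟨nat_lit 0, nat_lit 0, nat_lit 1000, nat_lit 5, nat_lit 72, nat_lit 1000, nat_lit 179, nat_lit 1000, nat_lit 29345, nat_lit 255, nat_lit 48600, nat_lit 269, nat_lit 52937390, nat_lit 0, nat_lit 0, nat_lit 3253086, false, false⟩,
 nat_lit 0, nat_lit 8736, nat_lit 0, nat_lit 0, nat_lit 4624, nat_lit 0, nat_lit 643, nat_lit 0, nat_lit 0, nat_lit 0, nat_lit 0, nat_lit 0, nat_lit 0, nat_lit 0, nat_lit 66, nat_lit 773800, nat_lit 0, nat_lit 0, [(nat_lit 6, [(nat_lit 5, nat_lit 377), (nat_lit 6, nat_lit 623)])],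
 ⟨p030_k18, nat_lit 0, nat_lit 0, nat_lit 162, nat_lit 0, nat_lit 188142, [nat_lit 2546117201, nat_lit 86105467], [], [nat_lit 14565739906, nat_lit 15144599882, nat_lit 14082491234, nat_lit 14653428538, nat_lit 18138938650, nat_lit 18830901479, nat_lit 17231900788, nat_lit 17918790988], nat_lit 1271250, nat_lit 1271250, nat_lit 111251, nat_lit 230001, nat_lit 1271250, nat_lit 1271250, [nat_lit 1100000, nat_lit 1785000], [nat_lit 39, nat_lit 40, nat_lit 20, nat_lit 80, nat_lit 7, nat_lit 215, nat_lit 10, nat_lit 7]⟩, C1.Rw.none,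
 ⟨nat_lit 6123, nat_lit 6325, ⟨.ofNat (nat_lit 151177), .ofNat (nat_lit 192309), .ofNat (nat_lit 161861), .ofNat (nat_lit 202993), .ofNat (nat_lit 159634), .ofNat (nat_lit 199824), .ofNat (nat_lit 170308), .ofNat (nat_lit 210498)⟩, ⟨.ofNat (nat_lit 389952), .ofNat (nat_lit 488669), .ofNat (nat_lit 411320), .ofNat (nat_lit 510037), .ofNat (nat_lit 388246), .ofNat (nat_lit 484703), .ofNat (nat_lit 409594), .ofNat (nat_lit 506051)⟩⟩, [⟨nat_lit 4, nat_lit 97, nat_lit 100, nat_lit 54, nat_lit 636272017⟩]⟩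
noncomputable def p030_l45 : Lf2 := ⟨nat_lit 0, nat_lit 2, [nat_lit 10, nat_lit 5, nat_lit 5, nat_lit 20], true, nat_lit 240, nat_lit 260, nat_lit 160, nat_lit 288, ⟨nat_lit 0, nat_lit 0, nat_lit 1000, nat_lit 5, nat_lit 73, nat_lit 1000, nat_lit 168, nat_lit 1000, nat_lit 212817, nat_lit 328, nat_lit 50417, nat_lit 270, nat_lit 53980062, nat_lit 0, nat_lit 0, nat_lit 3131131, false, false⟩,
 nat_lit 0, nat_lit 7665, nat_lit 0, nat_lit 0, nat_lit 4057, nat_lit 0, nat_lit 52, nat_lit 0, nat_lit 0, nat_lit 0, nat_lit 0, nat_lit 0, nat_lit 0, nat_lit 0, nat_lit 80, nat_lit 1000000, nat_lit 0, nat_lit 0, [(nat_lit 6, [(nat_lit 6, nat_lit 1000)])],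
 ⟨p030_k15, nat_lit 0, nat_lit 0, nat_lit 183, nat_lit 0, nat_lit 225288, [nat_lit 2257066667, nat_lit 1408000000, nat_lit 211200000], [], [nat_lit 14919262376, nat_lit 15428388044, nat_lit 14209552507, nat_lit 14710721216, nat_lit 15994949459, nat_lit 16701776244, nat_lit 15267782732, nat_lit 15763485151], nat_lit 1271250, nat_lit 1271250, nat_lit 65850, nat_lit 230001, nat_lit 1271250, nat_lit 1271250, [nat_lit 1100000, nat_lit 1442500, nat_lit 1271250], [nat_lit 9, nat_lit 40, nat_lit 20, nat_lit 80, nat_lit 2, nat_lit 215, nat_lit 10, nat_lit 7]⟩, C1.Rw.none,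
 ⟨nat_lit 6123, nat_lit 6325, ⟨.ofNat (nat_lit 145408), .ofNat (nat_lit 202993), .ofNat (nat_lit 156092), .ofNat (nat_lit 213677), .ofNat (nat_lit 154231), .ofNat (nat_lit 210498), .ofNat (nat_lit 164905), .ofNat (nat_lit 221172)⟩, ⟨.ofNat (nat_lit 389952), .ofNat (nat_lit 431084), .ofNat (nat_lit 411320), .ofNat (nat_lit 452452), .ofNat (nat_lit 388246), .ofNat (nat_lit 428436), .ofNat (nat_lit 409594), .ofNat (nat_lit 449785)⟩⟩, [⟨nat_lit 0, nat_lit 100, nat_lit 99, nat_lit 40, nat_lit 240691201⟩, ⟨nat_lit 4, nat_lit 97, nat_lit 100, nat_lit 54, nat_lit 384437043⟩]⟩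
noncomputable def p030_l46 : Lf2 := ⟨nat_lit 0, nat_lit 4, [nat_lit 38, nat_lit 5, nat_lit 5, nat_lit 20], true, nat_lit 240, nat_lit 260, nat_lit 160, nat_lit 288, ⟨nat_lit 0, nat_lit 0, nat_lit 1000, nat_lit 5, nat_lit 73, nat_lit 1000, nat_lit 168, nat_lit 1000, nat_lit 212817, nat_lit 328, nat_lit 50417, nat_lit 270, nat_lit 53980062, nat_lit 0, nat_lit 0, nat_lit 3131131, false, false⟩,
 nat_lit 0, nat_lit 8767, nat_lit 0, nat_lit 0, nat_lit 4641, nat_lit 0, nat_lit 0, nat_lit 0, nat_lit 0, nat_lit 0, nat_lit 0, nat_lit 0, nat_lit 0, nat_lit 0, nat_lit 53, nat_lit 579400, nat_lit 0, nat_lit 0, [(nat_lit 6, [(nat_lit 5, nat_lit 701), (nat_lit 6, nat_lit 299)])],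
 ⟨p030_k18, nat_lit 0, nat_lit 0, nat_lit 154, nat_lit 0, nat_lit 136201, [nat_lit 2300403601, nat_lit 15291067], [], [nat_lit 15100738943, nat_lit 15680510563, nat_lit 14206282400, nat_lit 14691703592, nat_lit 16374623807, nat_lit 17131498745, nat_lit 15238084799, nat_lit 15746798702], nat_lit 1271250, nat_lit 1271250, nat_lit 65850, nat_lit 230001, nat_lit 1271250, nat_lit 1271250, [nat_lit 1100000, nat_lit 1785000], [nat_lit 39, nat_lit 40, nat_lit 20, nat_lit 80, nat_lit 7, nat_lit 215, nat_lit 10, nat_lit 7]⟩, C1.Rw.none,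
 ⟨nat_lit 6123, nat_lit 6325, ⟨.ofNat (nat_lit 145408), .ofNat (nat_lit 202993), .ofNat (nat_lit 156092), .ofNat (nat_lit 213677), .ofNat (nat_lit 154231), .ofNat (nat_lit 210498), .ofNat (nat_lit 164905), .ofNat (nat_lit 221172)⟩, ⟨.ofNat (nat_lit 389952), .ofNat (nat_lit 431084), .ofNat (nat_lit 411320), .ofNat (nat_lit 452452), .ofNat (nat_lit 388246), .ofNat (nat_lit 428436), .ofNat (nat_lit 409594), .ofNat (nat_lit 449785)⟩⟩, [⟨nat_lit 0, nat_lit 100, nat_lit 99, nat_lit 40, nat_lit 274004698⟩, ⟨nat_lit 4, nat_lit 97, nat_lit 100, nat_lit 54, nat_lit 458024087⟩]⟩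
noncomputable def p030_l47 : Lf2 := ⟨nat_lit 0, nat_lit 2, [nat_lit 10, nat_lit 5, nat_lit 5, nat_lit 20], false, nat_lit 260, nat_lit 288, nat_lit 160, nat_lit 240, ⟨nat_lit 1000, nat_lit 0, nat_lit 0, nat_lit 0, nat_lit 0, nat_lit 0, nat_lit 0, nat_lit 0, nat_lit 0, nat_lit 0, nat_lit 0, nat_lit 0, nat_lit 0, nat_lit 0, nat_lit 0, nat_lit 0, false, false⟩,
 nat_lit 0, nat_lit 15937, nat_lit 0, nat_lit 0, nat_lit 8437, nat_lit 10390, nat_lit 2554, nat_lit 0, nat_lit 0, nat_lit 0, nat_lit 0, nat_lit 0, nat_lit 0, nat_lit 0, nat_lit 0, nat_lit 0, nat_lit 0, nat_lit 0, [],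
 ⟨p030_k15, nat_lit 0, nat_lit 0, nat_lit 196, nat_lit 0, nat_lit 225288, [nat_lit 4688000000, nat_lit 6250000000, nat_lit 7968000000], [], [nat_lit 20320749850, nat_lit 21150802868, nat_lit 17950823165, nat_lit 18770050436, nat_lit 22982472297, nat_lit 23735629629, nat_lit 20573094220, nat_lit 21317328409], nat_lit 1271250, nat_lit 1271250, nat_lit 65850, nat_lit 230001, nat_lit 1271250, nat_lit 1271250, [nat_lit 1100000, nat_lit 1442500, nat_lit 1271250], [nat_lit 9, nat_lit 40, nat_lit 20, nat_lit 80, nat_lit 2, nat_lit 215, nat_lit 10, nat_lit 7]⟩, ⟨p030_k24, nat_lit 0, nat_lit 0, nat_lit 0, nat_lit 0, nat_lit 0, [nat_lit 6250000000, nat_lit 7968000000], [], [nat_lit 10712131848, nat_lit 11738087888, nat_lit 7764077960, nat_lit 8779429760, nat_lit 16455629210, nat_lit 17269669688, nat_lit 13481296680, nat_lit 14287920400], nat_lit 0, nat_lit 0, nat_lit 0, nat_lit 0, nat_lit 0, nat_lit 0, [], [nat_lit 26, nat_lit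 40, nat_lit 20, nat_lit 80]⟩,
 zbF0, [⟨nat_lit 0, nat_lit 100, nat_lit 99, nat_lit 40, nat_lit 256381802⟩, ⟨nat_lit 4, nat_lit 97, nat_lit 100, nat_lit 54, nat_lit 1096413886⟩, ⟨nat_lit 11, nat_lit 100, nat_lit 93, nat_lit 37, nat_lit 1600511387⟩]⟩
noncomputable def p030_l48 : Lf2 := ⟨nat_lit 0, nat_lit 4, [nat_lit 38, nat_lit 5, nat_lit 5, nat_lit 20], false, nat_lit 260, nat_lit 288, nat_lit 160, nat_lit 240, ⟨nat_lit 1000, nat_lit 0, nat_lit 0, nat_lit 0, nat_lit 0, nat_lit 0, nat_lit 0, nat_lit 0, nat_lit 0, nat_lit 0, nat_lit 0, nat_lit 0, nat_lit 0, nat_lit 0, nat_lit 0, nat_lit 0, false, false⟩,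
 nat_lit 0, nat_lit 25887, nat_lit 0, nat_lit 0, nat_lit 13704, nat_lit 10390, nat_lit 0, nat_lit 0, nat_lit 0, nat_lit 0, nat_lit 0, nat_lit 0, nat_lit 0, nat_lit 0, nat_lit 0, nat_lit 0, nat_lit 0, nat_lit 0, [],
 ⟨p030_k18, nat_lit 0, nat_lit 0, nat_lit 155, nat_lit 0, nat_lit 136201, [nat_lit 4688000000, nat_lit 7968000000], [], [nat_lit 22787692525, nat_lit 23801389014, nat_lit 18659617040, nat_lit 19660718782, nat_lit 27218770681, nat_lit 28568917808, nat_lit 21973593012, nat_lit 23316286212], nat_lit 1271250, nat_lit 1271250, nat_lit 65850, nat_lit 230001, nat_lit 1271250, nat_lit 1271250, [nat_lit 1100000, nat_lit 1785000], [nat_lit 39, nat_lit 40, nat_lit 20, nat_lit 80, nat_lit 7, nat_lit 215, nat_lit 10, nat_lit 7]⟩, ⟨p030_k22, nat_lit 0, nat_lit 0, nat_lit 0, nat_lit 0, nat_lit 0, [nat_lit 6250000000, nat_lit 9842000000], [], [nat_lit 10712131848, nat_lit 11738087888, nat_lit 7764077960, nat_lit 8779429760,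 nat_lit 16455629210, nat_lit 17269669688, nat_lit 13481296680, nat_lit 14287920400], nat_lit 0, nat_lit 0, nat_lit 0, nat_lit 0, nat_lit 0, nat_lit 0, [], [nat_lit 51, nat_lit 40, nat_lit 20, nat_lit 80]⟩,
 zbF0, [⟨nat_lit 0, nat_lit 100, nat_lit 99, nat_lit 45, nat_lit 568458408⟩, ⟨nat_lit 4, nat_lit 97, nat_lit 100, nat_lit 54, nat_lit 1717014949⟩, ⟨nat_lit 11, nat_lit 100, nat_lit 93, nat_lit 37, nat_lit 1596317274⟩]⟩
noncomputable def p030_l49 : Lf2 := ⟨nat_lit 0, nat_lit 4, [nat_lit 38, nat_lit 5, nat_lit 5, nat_lit 20], false, nat_lit 260, nat_lit 288, nat_lit 240, nat_lit 268, ⟨nat_lit 815, nat_lit 0, nat_lit 185, nat_lit 5, nat_lit 78, nat_lit 185, nat_lit 188, nat_lit 185, nat_lit 29345, nat_lit 255, nat_lit 58017, nat_lit 274, nat_lit 51801948, nat_lit 0, nat_lit 0, nat_lit 3430952, false, false⟩,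
 nat_lit 0, nat_lit 14006, nat_lit 0, nat_lit 0, nat_lit 7414, nat_lit 8965, nat_lit 0, nat_lit 0, nat_lit 0, nat_lit 0, nat_lit 0, nat_lit 0, nat_lit 0, nat_lit 0, nat_lit 0, nat_lit 185000, nat_lit 0, nat_lit 0, [(nat_lit 6, [(nat_lit 6, nat_lit 185)])],
 ⟨p030_k18, nat_lit 0, nat_lit 0, nat_lit 173, nat_lit 0, nat_lit 232440, [nat_lit 4104510001, nat_lit 6139090000], [], [nat_lit 21832355888, nat_lit 22522063151, nat_lit 20835022875, nat_lit 21517659150, nat_lit 24042316214, nat_lit 24670553925, nat_lit 23022047943, nat_lit 23644933493], nat_lit 1271250, nat_lit 1271250, nat_lit 134400, nat_lit 230001, nat_lit 1271250, nat_lit 1271250, [nat_lit 1100000, nat_lit 1785000], [nat_lit 39, nat_lit 40, nat_lit 20, nat_lit 80, nat_lit 7, nat_lit 215, nat_lit 10, nat_lit 6]⟩, ⟨p030_k22, nat_lit 0, nat_lit 0, nat_lit 0, nat_lit 0, nat_lit 0, [nat_lit 5093750000, nat_lit 8021230000], [], [nat_lit 11773577857, nat_lit 12624225469,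 nat_lit 10508159305, nat_lit 11189046980, nat_lit 15220576266, nat_lit 16016534622, nat_lit 13559330470, nat_lit 14354106489], nat_lit 0, nat_lit 0, nat_lit 0, nat_lit 0, nat_lit 0, nat_lit 0, [], [nat_lit 51, nat_lit 40, nat_lit 20, nat_lit 80]⟩,
 ⟨nat_lit 6123, nat_lit 6325, ⟨.ofNat (nat_lit 170088), .ofNat (nat_lit 202993), .ofNat (nat_lit 180772), .ofNat (nat_lit 213677), .ofNat (nat_lit 178346), .ofNat (nat_lit 210498), .ofNat (nat_lit 189020), .ofNat (nat_lit 221172)⟩, ⟨.ofNat (nat_lit 431084), .ofNat (nat_lit 488669), .ofNat (nat_lit 452452), .ofNat (nat_lit 510037), .ofNat (nat_lit 428436), .ofNat (nat_lit 484703), .ofNat (nat_lit 449785), .ofNat (nat_lit 506051)⟩⟩, [⟨nat_lit 16, nat_lit 100, nat_lit 97, nat_lit 54, nat_lit 1001293199⟩, ⟨nat_lit 11, nat_lit 100, nat_lit 99, nat_lit 56, nat_lit 1432765766⟩]⟩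
noncomputable def p030_l50 : Lf2 := ⟨nat_lit 0, nat_lit 4, [nat_lit 38, nat_lit 5, nat_lit 5, nat_lit 20], true, nat_lit 240, nat_lit 288, nat_lit 0, nat_lit 304, ⟨nat_lit 0, nat_lit 0, nat_lit 1000, nat_lit 5, nat_lit 99, nat_lit 1000, nat_lit 179, nat_lit 1000, nat_lit 29345, nat_lit 255, nat_lit 91267, nat_lit 289, nat_lit 51304786, nat_lit 0, nat_lit 0, nat_lit 3633575, false, false⟩,
 nat_lit 0, nat_lit 9501, nat_lit 0, nat_lit 0, nat_lit 5029, nat_lit 0, nat_lit 702, nat_lit 0, nat_lit 0, nat_lit 0, nat_lit 0, nat_lit 0, nat_lit 0, nat_lit 0, nat_lit 71, nat_lit 858400, nat_lit 0, nat_lit 0, [(nat_lit 6, [(nat_lit 5, nat_lit 236), (nat_lit 6, nat_lit 764)])],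
 ⟨p030_k18, nat_lit 0, nat_lit 0, nat_lit 161, nat_lit 0, nat_lit 232440, [nat_lit 2642529601, nat_lit 101145067], [], [nat_lit 13359249074, nat_lit 14039803829, nat_lit 12949197078, nat_lit 13519896793, nat_lit 17443396972, nat_lit 18159538297, nat_lit 16444964928, nat_lit 17140072143], nat_lit 1271250, nat_lit 1271250, nat_lit 230001, nat_lit 490000, nat_lit 1271250, nat_lit 1271250, [nat_lit 1100000, nat_lit 1785000], [nat_lit 39, nat_lit 40, nat_lit 20, nat_lit 80, nat_lit 7, nat_lit 226, nat_lit 20, nat_lit 7]⟩, C1.Rw.none,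
 ⟨nat_lit 6123, nat_lit 6325, ⟨.ofNat (nat_lit 192309), .ofNat (nat_lit 274574), .ofNat (nat_lit 213677), .ofNat (nat_lit 295942), .ofNat (nat_lit 199824), .ofNat (nat_lit 280205), .ofNat (nat_lit 221172), .ofNat (nat_lit 301553)⟩, ⟨.ofNat (nat_lit 389952), .ofNat (nat_lit 488669), .ofNat (nat_lit 411320), .ofNat (nat_lit 510037), .ofNat (nat_lit 388246), .ofNat (nat_lit 484703), .ofNat (nat_lit 409594), .ofNat (nat_lit 506051)⟩⟩, [⟨nat_lit 4, nat_lit 97, nat_lit 100, nat_lit 54, nat_lit 735998475⟩]⟩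
noncomputable def p030_l51 : Lf2 := ⟨nat_lit 0, nat_lit 6, [nat_lit 47, nat_lit 5, nat_lit 5, nat_lit 20], true, nat_lit 240, nat_lit 288, nat_lit 0, nat_lit 304, ⟨nat_lit 0, nat_lit 0, nat_lit 1000, nat_lit 5, nat_lit 84, nat_lit 1000, nat_lit 179, nat_lit 1000, nat_lit 29345, nat_lit 255, nat_lit 66150, nat_lit 278, nat_lit 52261948, nat_lit 0, nat_lit 0, nat_lit 3419374, false, false⟩,
 nat_lit 0, nat_lit 9549, nat_lit 0, nat_lit 7342, nat_lit 5055, nat_lit 0, nat_lit 0, nat_lit 0, nat_lit 0, nat_lit 0, nat_lit 0, nat_lit 0, nat_lit 0, nat_lit 0, nat_lit 124, nat_lit 818800, nat_lit 0, nat_lit 0, [(nat_lit 6, [(nat_lit 5, nat_lit 302), (nat_lit 6, nat_lit 698)])],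
 ⟨p030_k25, nat_lit 0, nat_lit 0, nat_lit 156, nat_lit 0, nat_lit 18103, [nat_lit 3953299200, nat_lit 36895200], [], [nat_lit 15426377304, nat_lit 16032487750, nat_lit 13820069820, nat_lit 14392156245, nat_lit 19483185946, nat_lit 20205996538, nat_lit 16727094577, nat_lit 17229368824], nat_lit 1271250, nat_lit 1271250, nat_lit 43600, nat_lit 490000, nat_lit 1271250, nat_lit 1271250, [nat_lit 1100000, nat_lit 2127500], [nat_lit 70, nat_lit 40, nat_lit 20, nat_lit 80, nat_lit 13, nat_lit 401, nat_lit 175, nat_lit 11]⟩, C1.Rw.none,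
 ⟨nat_lit 6123, nat_lit 6325, ⟨.ofNat (nat_lit 126498), .ofNat (nat_lit 274574), .ofNat (nat_lit 137182), .ofNat (nat_lit 285258), .ofNat (nat_lit 135519), .ofNat (nat_lit 280205), .ofNat (nat_lit 146193), .ofNat (nat_lit 290879)⟩, ⟨.ofNat (nat_lit 389952), .ofNat (nat_lit 488669), .ofNat (nat_lit 411320), .ofNat (nat_lit 510037), .ofNat (nat_lit 388246), .ofNat (nat_lit 484703), .ofNat (nat_lit 409594), .ofNat (nat_lit 506051)⟩⟩, [⟨nat_lit 0, nat_lit 100, nat_lit 98, nat_lit 40, nat_lit 225496197⟩, ⟨nat_lit 4, nat_lit 97, nat_lit 100, nat_lit 54, nat_lit 763079257⟩]⟩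
noncomputable def p030_l52 : Lf2 := ⟨nat_lit 0, nat_lit 6, [nat_lit 47, nat_lit 5, nat_lit 5, nat_lit 20], true, nat_lit 240, nat_lit 288, nat_lit 0, nat_lit 296, ⟨nat_lit 0, nat_lit 0, nat_lit 1000, nat_lit 5, nat_lit 90, nat_lit 1000, nat_lit 179, nat_lit 1000, nat_lit 29345, nat_lit 255, nat_lit 74817, nat_lit 282, nat_lit 51896648, nat_lit 0, nat_lit 0, nat_lit 3503848, false, false⟩,
 nat_lit 0, nat_lit 8950, nat_lit 0, nat_lit 3671, nat_lit 4738, nat_lit 0, nat_lit 118, nat_lit 0, nat_lit 0, nat_lit 0, nat_lit 0, nat_lit 0, nat_lit 0, nat_lit 0, nat_lit 124, nat_lit 819400, nat_lit 0, nat_lit 0, [(nat_lit 6, [(nat_lit 5, nat_lit 301), (nat_lit 6, nat_lit 699)])],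
 ⟨p030_k19, nat_lit 0, nat_lit 0, nat_lit 176, nat_lit 0, nat_lit 61929, [nat_lit 3482963601, nat_lit 1438908800, nat_lit 20584000], [], [nat_lit 14778421636, nat_lit 15524932117, nat_lit 13545908874, nat_lit 14101088104, nat_lit 18852003608, nat_lit 19551992362, nat_lit 16395385279, nat_lit 17070274862], nat_lit 1271250, nat_lit 1271250, nat_lit 65850, nat_lit 490000, nat_lit 1271250, nat_lit 1271250, [nat_lit 1100000, nat_lit 1785000, nat_lit 1271250], [nat_lit 29, nat_lit 40, nat_lit 20, nat_lit 80, nat_lit 17, nat_lit 401, nat_lit 175, nat_lit 11]⟩, C1.Rw.none,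
 ⟨nat_lit 6123, nat_lit 6325, ⟨.ofNat (nat_lit 145408), .ofNat (nat_lit 285258), .ofNat (nat_lit 156092), .ofNat (nat_lit 295942), .ofNat (nat_lit 154231), .ofNat (nat_lit 290879), .ofNat (nat_lit 164905), .ofNat (nat_lit 301553)⟩, ⟨.ofNat (nat_lit 389952), .ofNat (nat_lit 488669), .ofNat (nat_lit 411320), .ofNat (nat_lit 510037), .ofNat (nat_lit 388246), .ofNat (nat_lit 484703), .ofNat (nat_lit 409594), .ofNat (nat_lit 506051)⟩⟩, [⟨nat_lit 0, nat_lit 100, nat_lit 99, nat_lit 40, nat_lit 208495504⟩, ⟨nat_lit 4, nat_lit 97, nat_lit 100, nat_lit 54, nat_lit 734564618⟩]⟩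
noncomputable def p030_l53 : Lf2 := ⟨nat_lit 1, nat_lit 8, [nat_lit 50, nat_lit 5, nat_lit 5, nat_lit 20], false, nat_lit 160, nat_lit 288, nat_lit 0, nat_lit 304, zbN0,
 nat_lit 0, nat_lit 0, nat_lit 0, nat_lit 0, nat_lit 0, nat_lit 0, nat_lit 0, nat_lit 0, nat_lit 0, nat_lit 0, nat_lit 0, nat_lit 0, nat_lit 0, nat_lit 0, nat_lit 0, nat_lit 0, nat_lit 0, nat_lit 0, [],
 C1.Rw.none, C1.Rw.none,
 zbF0, []⟩
noncomputable def b_VL_600_500_5_10 : St := ⟨true, nat_lit 1, nat_lit 0, nat_lit 1, nat_lit 40, nat_lit 240, nat_lit 250, nat_lit 220, nat_lit 240, nat_lit 8, nat_lit 80, nat_lit 20, nat_lit 40, nat_lit 160, nat_lit 288, nat_lit 0, nat_lit 304, nat_lit 0, nat_lit 32, nat_lit 0, nat_lit 0, nat_lit 0, nat_lit 800⟩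
theorem d_VL_600_500_5_10 (h : EB TB.env) : Dead b_VL_600_500_5_10 := chkB_sound0 h (T :=
(.spl (nat_lit 6) (nat_lit 24)
(.spl (nat_lit 4) (nat_lit 240)
(.spl (nat_lit 4) (nat_lit 200)
(.spl (nat_lit 6) (nat_lit 16)
(.spl (nat_lit 6) (nat_lit 8)
(.spl (nat_lit 2) (nat_lit 40)
(.spl (nat_lit 4) (nat_lit 180)
(.spl (nat_lit 0) (nat_lit 245)
(.leaf p030_l30)
(.leaf p030_l31))
(.spl (nat_lit 0) (nat_lit 245)
(.leaf p030_l32)
(.leaf p030_l33)))
(.spl (nat_lit 5) (nat_lit 160)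
(.leaf p030_l34)
(.leaf p030_l35)))
(.leaf p030_l36))
(.leaf p030_l37))
(.spl (nat_lit 6) (nat_lit 16)
(.leaf p030_l38)
(.leaf p030_l39)))
(.spl (nat_lit 6) (nat_lit 16)
(.spl (nat_lit 2) (nat_lit 40)
(.trX (nat_lit 23) (nat_lit 100) (nat_lit 92) (nat_lit 61) (nat_lit 288) (.spl (nat_lit 5) (nat_lit 160)
(.spl (nat_lit 1) (nat_lit 230)
(.leaf p030_l40)
(.trZ (nat_lit 0) (nat_lit 100) (nat_lit 99) (nat_lit 35) (nat_lit 12) (.spl (nat_lit 1) (nat_lit 235)
(.leaf p030_l41)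
(.leaf p030_l42))))
(.spl (nat_lit 1) (nat_lit 230)
(.spl (nat_lit 2) (nat_lit 20)
(.trX (nat_lit 23) (nat_lit 100) (nat_lit 99) (nat_lit 44) (nat_lit 252) (.leaf p030_l43))
(.leaf p030_l44))
(.trZ (nat_lit 0) (nat_lit 100) (nat_lit 99) (nat_lit 35) (nat_lit 12) (.spl (nat_lit 4) (nat_lit 260)
(.spl (nat_lit 6) (nat_lit 8)
(.leaf p030_l45)
(.leaf p030_l46))
(.trX (nat_lit 23) (nat_lit 100) (nat_lit 99) (nat_lit 63) (nat_lit 268) (.spl (nat_lit 5) (nat_lit 240)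
(.spl (nat_lit 6) (nat_lit 8)
(.leaf p030_l47)
(.leaf p030_l48))
(.trZ (nat_lit 11) (nat_lit 100) (nat_lit 97) (nat_lit 49) (nat_lit 24) (.leaf p030_l49)))))))))
(.leaf p030_l50))
(.spl (nat_lit 1) (nat_lit 230)
(.leaf p030_l51)
(.trZ (nat_lit 0) (nat_lit 100) (nat_lit 99) (nat_lit 35) (nat_lit 12) (.trX (nat_lit 19) (nat_lit 100) (nat_lit 89) (nat_lit 61) (nat_lit 296) (.leaf p030_l52))))))
(.leaf p030_l53))) (by decide +kernel)
noncomputable def p030_l54 : Lf2 := ⟨nat_lit 0, nat_lit 2, [nat_lit 10, nat_lit 5, nat_lit 5, nat_lit 20], true, nat_lit 160, nat_lit 180, nat_lit 0, nat_lit 304, ⟨nat_lit 0, nat_lit 0, nat_lit 1000, nat_lit 5, nat_lit 90, nat_lit 1000, nat_lit 104, nat_lit 1000, nat_lit 101400, nat_lit 293, nat_lit 77067, nat_lit 283, nat_lit 58505959, nat_lit 0, nat_lit 0, nat_lit 2475302, false, false⟩,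
 nat_lit 0, nat_lit 7939, nat_lit 0, nat_lit 0, nat_lit 4410, nat_lit 0, nat_lit 856, nat_lit 0, nat_lit 0, nat_lit 0, nat_lit 0, nat_lit 0, nat_lit 0, nat_lit 0, nat_lit 80, nat_lit 1000000, nat_lit 0, nat_lit 0, [(nat_lit 6, [(nat_lit 6, nat_lit 1000)])],
 ⟨p030_k26, nat_lit 0, nat_lit 0, nat_lit 199, nat_lit 0, nat_lit 262267, [nat_lit 2257066667, nat_lit 1408000000, nat_lit 211200000], [], [nat_lit 11397041939, nat_lit 12066627835, nat_lit 10605413407, nat_lit 11089844294, nat_lit 12252538392, nat_lit 12897742792, nat_lit 12105658545, nat_lit 11884164239], nat_lit 1271250, nat_lit 1271250, nat_lit 65850, nat_lit 490000, nat_lit 1100001, nat_lit 1271250, [nat_lit 1100000, nat_lit 1442500, nat_lit 1271250], [nat_lit 9, nat_lit 40, nat_lit 20, nat_lit 80, nat_lit 2, nat_lit 289, nat_lit 75, nat_lit 9]⟩, C1.Rw.none,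
 ⟨nat_lit 5916, nat_lit 6124, ⟨.ofNat (nat_lit 143557), .ofNat (nat_lit 280205), .ofNat (nat_lit 164905), .ofNat (nat_lit 301553), .ofNat (nat_lit 152230), .ofNat (nat_lit 285737), .ofNat (nat_lit 173569), .ofNat (nat_lit 307076)⟩, ⟨.ofNat (nat_lit 227485), .ofNat (nat_lit 267675), .ofNat (nat_lit 248833), .ofNat (nat_lit 289023), .ofNat (nat_lit 229411), .ofNat (nat_lit 268678), .ofNat (nat_lit 250751), .ofNat (nat_lit 290018)⟩⟩, [⟨nat_lit 0, nat_lit 100, nat_lit 97, nat_lit 49, nat_lit 147448310⟩]⟩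
noncomputable def p030_l55 : Lf2 := ⟨nat_lit 0, nat_lit 2, [nat_lit 10, nat_lit 5, nat_lit 5, nat_lit 20], true, nat_lit 180, nat_lit 200, nat_lit 0, nat_lit 304, ⟨nat_lit 0, nat_lit 0, nat_lit 1000, nat_lit 5, nat_lit 90, nat_lit 1000, nat_lit 119, nat_lit 1000, nat_lit 135000, nat_lit 305, nat_lit 77067, nat_lit 283, nat_lit 57232565, nat_lit 0, nat_lit 0, nat_lit 2719572, false, false⟩,
 nat_lit 0, nat_lit 7722, nat_lit 0, nat_lit 0, nat_lit 4290, nat_lit 0, nat_lit 803, nat_lit 0, nat_lit 0, nat_lit 0, nat_lit 0, nat_lit 0, nat_lit 0, nat_lit 0, nat_lit 80, nat_lit 1000000, nat_lit 0, nat_lit 0, [(nat_lit 6, [(nat_lit 6, nat_lit 1000)])],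
 ⟨p030_k26, nat_lit 0, nat_lit 0, nat_lit 189, nat_lit 0, nat_lit 262267, [nat_lit 2257066667, nat_lit 1408000000, nat_lit 211200000], [], [nat_lit 12458374668, nat_lit 13095061936, nat_lit 12364427715, nat_lit 12142881779, nat_lit 13307751123, nat_lit 13919242839, nat_lit 12352608469, nat_lit 12930797984], nat_lit 1271250, nat_lit 1271250, nat_lit 65850, nat_lit 490000, nat_lit 1271250, nat_lit 1271250, [nat_lit 1100000, nat_lit 1442500, nat_lit 1271250], [nat_lit 9, nat_lit 40, nat_lit 20, nat_lit 80, nat_lit 2, nat_lit 289, nat_lit 75, nat_lit 9]⟩, C1.Rw.none,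
 ⟨nat_lit 5916, nat_lit 6124, ⟨.ofNat (nat_lit 143557), .ofNat (nat_lit 280205), .ofNat (nat_lit 164905), .ofNat (nat_lit 301553), .ofNat (nat_lit 152230), .ofNat (nat_lit 285737), .ofNat (nat_lit 173569), .ofNat (nat_lit 307076)⟩, ⟨.ofNat (nat_lit 267675), .ofNat (nat_lit 307865), .ofNat (nat_lit 289023), .ofNat (nat_lit 329214), .ofNat (nat_lit 268678), .ofNat (nat_lit 307945), .ofNat (nat_lit 290018), .ofNat (nat_lit 329284)⟩⟩, [⟨nat_lit 0, nat_lit 100, nat_lit 97, nat_lit 49, nat_lit 183439188⟩]⟩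
noncomputable def p030_l56 : Lf2 := ⟨nat_lit 0, nat_lit 5, [nat_lit 4, nat_lit 5, nat_lit 5, nat_lit 20], true, nat_lit 160, nat_lit 200, nat_lit 0, nat_lit 304, ⟨nat_lit 0, nat_lit 0, nat_lit 1000, nat_lit 5, nat_lit 90, nat_lit 1000, nat_lit 112, nat_lit 1000, nat_lit 117600, nat_lit 299, nat_lit 77067, nat_lit 283, nat_lit 57879823, nat_lit 0, nat_lit 0, nat_lit 2598741, false, false⟩,
 nat_lit 0, nat_lit 8676, nat_lit 0, nat_lit 0, nat_lit 4819, nat_lit 0, nat_lit 0, nat_lit 0, nat_lit 0, nat_lit 0, nat_lit 0, nat_lit 0, nat_lit 0, nat_lit 0, nat_lit 75, nat_lit 914800, nat_lit 0, nat_lit 0, [(nat_lit 6, [(nat_lit 5, nat_lit 142), (nat_lit 6, nat_lit 858)])],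
 ⟨p030_k27, nat_lit 0, nat_lit 0, nat_lit 193, nat_lit 0, nat_lit 184617, [nat_lit 2717471200, nat_lit 127171467], [], [nat_lit 12088297315, nat_lit 12679968306, nat_lit 12251963742, nat_lit 11341316033, nat_lit 13780468489, nat_lit 14160770975, nat_lit 15472311172, nat_lit 14288470813], nat_lit 1271250, nat_lit 1271250, nat_lit 65850, nat_lit 490000, nat_lit 1100001, nat_lit 1442500, [nat_lit 1100000, nat_lit 1785000], [nat_lit 39, nat_lit 40, nat_lit 20, nat_lit 80, nat_lit 7, nat_lit 289, nat_lit 75, nat_lit 9]⟩, C1.Rw.none,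
 ⟨nat_lit 5916, nat_lit 6124, ⟨.ofNat (nat_lit 143557), .ofNat (nat_lit 280205), .ofNat (nat_lit 164905), .ofNat (nat_lit 301553), .ofNat (nat_lit 152230), .ofNat (nat_lit 285737), .ofNat (nat_lit 173569), .ofNat (nat_lit 307076)⟩, ⟨.ofNat (nat_lit 227485), .ofNat (nat_lit 307865), .ofNat (nat_lit 248833), .ofNat (nat_lit 329214), .ofNat (nat_lit 229411), .ofNat (nat_lit 307945), .ofNat (nat_lit 250751), .ofNat (nat_lit 329284)⟩⟩, [⟨nat_lit 0, nat_lit 100, nat_lit 97, nat_lit 49, nat_lit 8868701⟩]⟩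
noncomputable def p030_l57 : Lf2 := ⟨nat_lit 0, nat_lit 8, [nat_lit 50, nat_lit 5, nat_lit 5, nat_lit 20], true, nat_lit 160, nat_lit 200, nat_lit 0, nat_lit 304, ⟨nat_lit 0, nat_lit 0, nat_lit 1000, nat_lit 5, nat_lit 90, nat_lit 1000, nat_lit 112, nat_lit 1000, nat_lit 117600, nat_lit 299, nat_lit 77067, nat_lit 283, nat_lit 57879823, nat_lit 0, nat_lit 0, nat_lit 2598741, false, false⟩,
 nat_lit 0, nat_lit 10586, nat_lit 0, nat_lit 0, nat_lit 5881, nat_lit 0, nat_lit 0, nat_lit 0, nat_lit 0, nat_lit 0, nat_lit 0, nat_lit 0, nat_lit 0, nat_lit 0, nat_lit 127, nat_lit 842200, nat_lit 0, nat_lit 0, [(nat_lit 6, [(nat_lit 5, nat_lit 263), (nat_lit 6, nat_lit 737)])],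
 ⟨p030_k28, nat_lit 0, nat_lit 0, nat_lit 185, nat_lit 0, nat_lit 79125, [nat_lit 4032124801, nat_lit 50398800], [], [nat_lit 12387467631, nat_lit 13079239416, nat_lit 12580783786, nat_lit 11136345495, nat_lit 14457555835, nat_lit 14640515209, nat_lit 16290238646, nat_lit 14865698718], nat_lit 1271250, nat_lit 1271250, nat_lit 65850, nat_lit 490000, nat_lit 1100001, nat_lit 1442500, [nat_lit 1100000, nat_lit 2127500], [nat_lit 70, nat_lit 40, nat_lit 20, nat_lit 80, nat_lit 13, nat_lit 373, nat_lit 150, nat_lit 11]⟩, C1.Rw.none,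
 ⟨nat_lit 5916, nat_lit 6124, ⟨.ofNat (nat_lit 143557), .ofNat (nat_lit 280205), .ofNat (nat_lit 164905), .ofNat (nat_lit 301553), .ofNat (nat_lit 152230), .ofNat (nat_lit 285737), .ofNat (nat_lit 173569), .ofNat (nat_lit 307076)⟩, ⟨.ofNat (nat_lit 227485), .ofNat (nat_lit 307865), .ofNat (nat_lit 248833), .ofNat (nat_lit 329214), .ofNat (nat_lit 229411), .ofNat (nat_lit 307945), .ofNat (nat_lit 250751), .ofNat (nat_lit 329284)⟩⟩, []⟩
noncomputable def p030_l58 : Lf2 := ⟨nat_lit 0, nat_lit 8, [nat_lit 50, nat_lit 5, nat_lit 5, nat_lit 20], true, nat_lit 200, nat_lit 240, nat_lit 0, nat_lit 304, ⟨nat_lit 0, nat_lit 0, nat_lit 1000, nat_lit 5, nat_lit 90, nat_lit 1000, nat_lit 143, nat_lit 1000, nat_lit 194400, nat_lit 323, nat_lit 77067, nat_lit 283, nat_lit 55182171, nat_lit 0, nat_lit 0, nat_lit 3062682, false, false⟩,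
 nat_lit 0, nat_lit 7502, nat_lit 0, nat_lit 0, nat_lit 4167, nat_lit 0, nat_lit 328, nat_lit 0, nat_lit 0, nat_lit 0, nat_lit 0, nat_lit 0, nat_lit 0, nat_lit 0, nat_lit 147, nat_lit 1000000, nat_lit 0, nat_lit 0, [(nat_lit 6, [(nat_lit 6, nat_lit 1000)])],
 ⟨p030_k12, nat_lit 0, nat_lit 0, nat_lit 289, nat_lit 0, nat_lit 286575, [nat_lit 3329066667, nat_lit 3042400001, nat_lit 177599999], [], [nat_lit 13871942802, nat_lit 14431862310, nat_lit 12926645885, nat_lit 13456697253, nat_lit 15424041509, nat_lit 15974259075, nat_lit 14410435661, nat_lit 14898373794], nat_lit 1271250, nat_lit 1271250, nat_lit 65850, nat_lit 490000, nat_lit 1271250, nat_lit 1271250, [nat_lit 1100000, nat_lit 1442500, nat_lit 1271250], [nat_lit 11, nat_lit 40, nat_lit 20, nat_lit 80, nat_lit 1, nat_lit 373, nat_lit 150, nat_lit 11]⟩, C1.Rw.none,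
 ⟨nat_lit 5916, nat_lit 6124, ⟨.ofNat (nat_lit 143557), .ofNat (nat_lit 280205), .ofNat (nat_lit 164905), .ofNat (nat_lit 301553), .ofNat (nat_lit 152230), .ofNat (nat_lit 285737), .ofNat (nat_lit 173569), .ofNat (nat_lit 307076)⟩, ⟨.ofNat (nat_lit 307865), .ofNat (nat_lit 388246), .ofNat (nat_lit 329214), .ofNat (nat_lit 409594), .ofNat (nat_lit 307945), .ofNat (nat_lit 386479), .ofNat (nat_lit 329284), .ofNat (nat_lit 407818)⟩⟩, [⟨nat_lit 0, nat_lit 100, nat_lit 97, nat_lit 49, nat_lit 190216685⟩, ⟨nat_lit 4, nat_lit 100, nat_lit 100, nat_lit 55, nat_lit 234477230⟩]⟩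
noncomputable def p030_l59 : Lf2 := ⟨nat_lit 0, nat_lit 5, [nat_lit 4, nat_lit 5, nat_lit 5, nat_lit 20], true, nat_lit 240, nat_lit 280, nat_lit 0, nat_lit 304, ⟨nat_lit 0, nat_lit 0, nat_lit 1000, nat_lit 5, nat_lit 88, nat_lit 1000, nat_lit 175, nat_lit 1000, nat_lit 51683, nat_lit 270, nat_lit 72600, nat_lit 281, nat_lit 52395168, nat_lit 0, nat_lit 0, nat_lit 3434331, false, false⟩,
 nat_lit 0, nat_lit 7912, nat_lit 0, nat_lit 0, nat_lit 4395, nat_lit 0, nat_lit 827, nat_lit 0, nat_lit 0, nat_lit 0, nat_lit 0, nat_lit 0, nat_lit 0, nat_lit 0, nat_lit 41, nat_lit 400000, nat_lit 0, nat_lit 0, [(nat_lit 6, [(nat_lit 5, nat_lit 1000)])],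
 ⟨p030_k27, nat_lit 0, nat_lit 0, nat_lit 184, nat_lit 0, nat_lit 233958, [nat_lit 2073600001, nat_lit 7600000], [], [nat_lit 15727050501, nat_lit 16294218957, nat_lit 14641243707, nat_lit 15178129032, nat_lit 18562313127, nat_lit 19254936654, nat_lit 16855349742, nat_lit 17340020032], nat_lit 1271250, nat_lit 1271250, nat_lit 65850, nat_lit 490000, nat_lit 1271250, nat_lit 1271250, [nat_lit 1100000, nat_lit 1785000], [nat_lit 39, nat_lit 40, nat_lit 20, nat_lit 80, nat_lit 7, nat_lit 226, nat_lit 20, nat_lit 7]⟩, C1.Rw.none,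
 ⟨nat_lit 5916, nat_lit 6124, ⟨.ofNat (nat_lit 143557), .ofNat (nat_lit 280205), .ofNat (nat_lit 154231), .ofNat (nat_lit 290879), .ofNat (nat_lit 152230), .ofNat (nat_lit 285737), .ofNat (nat_lit 162900), .ofNat (nat_lit 296407)⟩, ⟨.ofNat (nat_lit 388246), .ofNat (nat_lit 468627), .ofNat (nat_lit 409594), .ofNat (nat_lit 489975), .ofNat (nat_lit 386479), .ofNat (nat_lit 465012), .ofNat (nat_lit 407818), .ofNat (nat_lit 486351)⟩⟩, [⟨nat_lit 0, nat_lit 100, nat_lit 97, nat_lit 40, nat_lit 194785691⟩, ⟨nat_lit 4, nat_lit 100, nat_lit 100, nat_lit 55, nat_lit 591556099⟩]⟩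
noncomputable def p030_l60 : Lf2 := ⟨nat_lit 0, nat_lit 5, [nat_lit 4, nat_lit 5, nat_lit 5, nat_lit 20], true, nat_lit 240, nat_lit 280, nat_lit 0, nat_lit 296, ⟨nat_lit 0, nat_lit 0, nat_lit 1000, nat_lit 5, nat_lit 94, nat_lit 1000, nat_lit 175, nat_lit 1000, nat_lit 51683, nat_lit 270, nat_lit 84017, nat_lit 286, nat_lit 52020886, nat_lit 0, nat_lit 0, nat_lit 3517833, false, false⟩,
 nat_lit 0, nat_lit 7137, nat_lit 0, nat_lit 0, nat_lit 3965, nat_lit 0, nat_lit 170, nat_lit 0, nat_lit 0, nat_lit 0, nat_lit 0, nat_lit 0, nat_lit 0, nat_lit 0, nat_lit 80, nat_lit 1000000, nat_lit 0, nat_lit 0, [(nat_lit 6, [(nat_lit 6, nat_lit 1000)])],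
 ⟨p030_k14, nat_lit 0, nat_lit 0, nat_lit 209, nat_lit 0, nat_lit 274421, [nat_lit 2257066667, nat_lit 1408000000, nat_lit 211200000], [], [nat_lit 15348786514, nat_lit 15890380749, nat_lit 14641342069, nat_lit 15155293344, nat_lit 17908922981, nat_lit 18569064235, nat_lit 16757565914, nat_lit 17223186344], nat_lit 1271250, nat_lit 1271250, nat_lit 88400, nat_lit 490000, nat_lit 1271250, nat_lit 1271250, [nat_lit 1100000, nat_lit 1442500, nat_lit 1271250], [nat_lit 9, nat_lit 40, nat_lit 20, nat_lit 80, nat_lit 2, nat_lit 226, nat_lit 20, nat_lit 7]⟩, C1.Rw.none,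
 ⟨nat_lit 5916, nat_lit 6124, ⟨.ofNat (nat_lit 162269), .ofNat (nat_lit 290879), .ofNat (nat_lit 172944), .ofNat (nat_lit 301553), .ofNat (nat_lit 170753), .ofNat (nat_lit 296407), .ofNat (nat_lit 181423), .ofNat (nat_lit 307076)⟩, ⟨.ofNat (nat_lit 388246), .ofNat (nat_lit 468627), .ofNat (nat_lit 409594), .ofNat (nat_lit 489975), .ofNat (nat_lit 386479), .ofNat (nat_lit 465012), .ofNat (nat_lit 407818), .ofNat (nat_lit 486351)⟩⟩, [⟨nat_lit 0, nat_lit 100, nat_lit 98, nat_lit 45, nat_lit 171392261⟩, ⟨nat_lit 16, nat_lit 100, nat_lit 100, nat_lit 55, nat_lit 528781571⟩]⟩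
noncomputable def p030_l61 : Lf2 := ⟨nat_lit 0, nat_lit 8, [nat_lit 50, nat_lit 5, nat_lit 5, nat_lit 20], true, nat_lit 240, nat_lit 280, nat_lit 0, nat_lit 304, ⟨nat_lit 0, nat_lit 0, nat_lit 1000, nat_lit 5, nat_lit 90, nat_lit 1000, nat_lit 175, nat_lit 1000, nat_lit 51683, nat_lit 270, nat_lit 77067, nat_lit 283, nat_lit 52259895, nat_lit 0, nat_lit 0, nat_lit 3464910, false, false⟩,
 nat_lit 0, nat_lit 8277, nat_lit 0, nat_lit 3965, nat_lit 4598, nat_lit 0, nat_lit 212, nat_lit 0, nat_lit 0, nat_lit 0, nat_lit 0, nat_lit 0, nat_lit 0, nat_lit 0, nat_lit 106, nat_lit 679000, nat_lit 0, nat_lit 0, [(nat_lit 6, [(nat_lit 5, nat_lit 535), (nat_lit 6, nat_lit 465)])],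
 ⟨p030_k12, nat_lit 0, nat_lit 0, nat_lit 175, nat_lit 0, nat_lit 79125, [nat_lit 2908752001, nat_lit 2210416001, nat_lit 49095999], [], [nat_lit 15525952241, nat_lit 16247523074, nat_lit 13815555844, nat_lit 14363268174, nat_lit 18750814623, nat_lit 19458782190, nat_lit 16404247637, nat_lit 17086333854], nat_lit 1271250, nat_lit 1271250, nat_lit 65850, nat_lit 490000, nat_lit 1271250, nat_lit 1271250, [nat_lit 1100000, nat_lit 1442500, nat_lit 1271250], [nat_lit 11, nat_lit 40, nat_lit 20, nat_lit 80, nat_lit 1, nat_lit 401, nat_lit 175, nat_lit 11]⟩, C1.Rw.none,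
 ⟨nat_lit 5916, nat_lit 6124, ⟨.ofNat (nat_lit 143557), .ofNat (nat_lit 280205), .ofNat (nat_lit 164905), .ofNat (nat_lit 301553), .ofNat (nat_lit 152230), .ofNat (nat_lit 285737), .ofNat (nat_lit 173569), .ofNat (nat_lit 307076)⟩, ⟨.ofNat (nat_lit 388246), .ofNat (nat_lit 468627), .ofNat (nat_lit 409594), .ofNat (nat_lit 489975), .ofNat (nat_lit 386479), .ofNat (nat_lit 465012), .ofNat (nat_lit 407818), .ofNat (nat_lit 486351)⟩⟩, [⟨nat_lit 0, nat_lit 100, nat_lit 97, nat_lit 49, nat_lit 248196976⟩, ⟨nat_lit 4, nat_lit 100, nat_lit 100, nat_lit 55, nat_lit 687713569⟩]⟩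
noncomputable def b_VL_600_500_5_11 : St := ⟨true, nat_lit 1, nat_lit 0, nat_lit 1, nat_lit 40, nat_lit 250, nat_lit 260, nat_lit 220, nat_lit 240, nat_lit 8, nat_lit 80, nat_lit 20, nat_lit 40, nat_lit 160, nat_lit 288, nat_lit 0, nat_lit 304, nat_lit 0, nat_lit 32, nat_lit 0, nat_lit 0, nat_lit 0, nat_lit 800⟩
theorem d_VL_600_500_5_11 (h : EB TB.env) : Dead b_VL_600_500_5_11 := chkB_sound0 h (T :=
(.trZ (nat_lit 0) (nat_lit 100) (nat_lit 97) (nat_lit 35) (nat_lit 12) (.trX (nat_lit 16) (nat_lit 100) (nat_lit 95) (nat_lit 62) (nat_lit 280) (.spl (nat_lit 4) (nat_lit 240)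
(.spl (nat_lit 4) (nat_lit 200)
(.spl (nat_lit 6) (nat_lit 20)
(.spl (nat_lit 6) (nat_lit 8)
(.spl (nat_lit 4) (nat_lit 180)
(.leaf p030_l54)
(.leaf p030_l55))
(.leaf p030_l56))
(.leaf p030_l57))
(.leaf p030_l58))
(.spl (nat_lit 6) (nat_lit 20)
(.spl (nat_lit 1) (nat_lit 230)
(.leaf p030_l59)
(.trZ (nat_lit 0) (nat_lit 100) (nat_lit 98) (nat_lit 40) (nat_lit 16) (.trX (nat_lit 19) (nat_lit 100) (nat_lit 89) (nat_lit 61) (nat_lit 296) (.leaf p030_l60))))
(.leaf p030_l61)))))) (by decide +kernel)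
noncomputable def p030_l62 : Lf2 := ⟨nat_lit 0, nat_lit 8, [nat_lit 50, nat_lit 5, nat_lit 5, nat_lit 20], false, nat_lit 160, nat_lit 288, nat_lit 0, nat_lit 160, ⟨nat_lit 1000, nat_lit 0, nat_lit 0, nat_lit 0, nat_lit 0, nat_lit 0, nat_lit 0, nat_lit 0, nat_lit 0, nat_lit 0, nat_lit 0, nat_lit 0, nat_lit 0, nat_lit 0, nat_lit 0, nat_lit 0, false, false⟩,
 nat_lit 0, nat_lit 29806, nat_lit 0, nat_lit 0, nat_lit 15779, nat_lit 20422, nat_lit 982, nat_lit 0, nat_lit 0, nat_lit 7107, nat_lit 0, nat_lit 0, nat_lit 0, nat_lit 0, nat_lit 0, nat_lit 0, nat_lit 0, nat_lit 6807998576, [],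
 ⟨p030_k7, nat_lit 0, nat_lit 0, nat_lit 283, nat_lit 0, nat_lit 391367, [nat_lit 4688000000, nat_lit 6250000000, nat_lit 9842000000], [], [nat_lit 20300057432, nat_lit 13414853244, nat_lit 9814774000, nat_lit 10455605770, nat_lit 23960603584, nat_lit 21160472559, nat_lit 34619371133, nat_lit 27202982358], nat_lit 1271250, nat_lit 1271250, nat_lit 490000, nat_lit 1100001, nat_lit 1100001, nat_lit 2196000, [nat_lit 1100000, nat_lit 1442500, nat_lit 1271250], [nat_lit 11, nat_lit 40, nat_lit 20, nat_lit 80, nat_lit 1, nat_lit 428, nat_lit 200, nat_lit 12]⟩, ⟨p030_k11, nat_lit 0, nat_lit 0, nat_lit 208, nat_lit 0, nat_lit 0, [nat_lit 6250000000, nat_lit 7968000000, nat_lit 11872000000], [], [nat_lit 17177933607, nat_lit 19365208043, nat_lit 15012436680, nat_lit 17917733712, nat_lit 691724848, nat_lit 3454794244, nat_lit 0, nat_lit 2344132952], nat_lit 0, nat_lit 0, nat_lit 0, nat_lit 0, nat_lit 0, nat_lit 0, [], [nat_lit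 53, nat_lit 40, nat_lit 20, nat_lit 80, nat_lit 14, nat_lit 373, nat_lit 150, nat_lit 10]⟩,
 zbF0, [⟨nat_lit 4, nat_lit 99, nat_lit 100, nat_lit 54, nat_lit 666085695⟩]⟩
noncomputable def p030_l63 : Lf2 := ⟨nat_lit 0, nat_lit 8, [nat_lit 50, nat_lit 5, nat_lit 5, nat_lit 20], false, nat_lit 160, nat_lit 288, nat_lit 0, nat_lit 160, ⟨nat_lit 1000, nat_lit 0, nat_lit 0, nat_lit 0, nat_lit 0, nat_lit 0, nat_lit 0, nat_lit 0, nat_lit 0, nat_lit 0, nat_lit 0, nat_lit 0, nat_lit 0, nat_lit 0, nat_lit 0, nat_lit 0, false, false⟩,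
 nat_lit 0, nat_lit 22097, nat_lit 0, nat_lit 0, nat_lit 11698, nat_lit 13208, nat_lit 1244, nat_lit 0, nat_lit 0, nat_lit 5180, nat_lit 0, nat_lit 0, nat_lit 0, nat_lit 0, nat_lit 0, nat_lit 0, nat_lit 0, nat_lit 0, [],
 ⟨p030_k7, nat_lit 0, nat_lit 0, nat_lit 348, nat_lit 0, nat_lit 567094, [nat_lit 4688000000, nat_lit 6250000000, nat_lit 9842000000], [], [nat_lit 22647415984, nat_lit 18304245528, nat_lit 15830168000, nat_lit 16517085740, nat_lit 26820176608, nat_lit 22475553025, nat_lit 35353285114, nat_lit 29855033267], nat_lit 1271250, nat_lit 1271250, nat_lit 490000, nat_lit 1100001, nat_lit 1100001, nat_lit 2196000, [nat_lit 1100000, nat_lit 1442500, nat_lit 1271250], [nat_lit 11, nat_lit 40, nat_lit 20, nat_lit 80, nat_lit 1, nat_lit 428, nat_lit 200, nat_lit 12]⟩, ⟨p030_k8, nat_lit 0, nat_lit 0, nat_lit 215, nat_lit 0, nat_lit 0, [nat_lit 6250000000, nat_lit 7968000000, nat_lit 11872000000], [], [nat_lit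 12231159588, nat_lit 13868453092, nat_lit 11246521304, nat_lit 13360038552, nat_lit 3037469960, nat_lit 4483571640, nat_lit 2491350792, nat_lit 4094588792], nat_lit 0, nat_lit 0, nat_lit 0, nat_lit 0, nat_lit 0, nat_lit 0, [], [nat_lit 53, nat_lit 40, nat_lit 20, nat_lit 80, nat_lit 14, nat_lit 373, nat_lit 150, nat_lit 10]⟩,
 zbF0, [⟨nat_lit 4, nat_lit 99, nat_lit 100, nat_lit 54, nat_lit 703142342⟩]⟩
noncomputable def p030_l64 : Lf2 := ⟨nat_lit 0, nat_lit 8, [nat_lit 50, nat_lit 5, nat_lit 5, nat_lit 20], false, nat_lit 160, nat_lit 240, nat_lit 160, nat_lit 320, ⟨nat_lit 1000, nat_lit 0, nat_lit 0, nat_lit 0, nat_lit 0, nat_lit 0, nat_lit 0, nat_lit 0, nat_lit 0, nat_lit 0, nat_lit 0, nat_lit 0, nat_lit 0, nat_lit 0, nat_lit 0, nat_lit 0, false, false⟩,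
 nat_lit 0, nat_lit 16613, nat_lit 0, nat_lit 0, nat_lit 8795, nat_lit 14397, nat_lit 2267, nat_lit 0, nat_lit 0, nat_lit 0, nat_lit 0, nat_lit 0, nat_lit 0, nat_lit 0, nat_lit 0, nat_lit 0, nat_lit 0, nat_lit 3875198588, [],
 ⟨p030_k7, nat_lit 0, nat_lit 0, nat_lit 348, nat_lit 0, nat_lit 567094, [nat_lit 4688000000, nat_lit 6250000000, nat_lit 9842000000], [], [nat_lit 24317198360, nat_lit 19804853250, nat_lit 20109190000, nat_lit 16116931080, nat_lit 23047611640, nat_lit 18727684430, nat_lit 29786998620, nat_lit 25585732660], nat_lit 1271250, nat_lit 1271250, nat_lit 490000, nat_lit 1100001, nat_lit 1100001, nat_lit 1785000, [nat_lit 1100000, nat_lit 1442500, nat_lit 1271250], [nat_lit 11, nat_lit 40, nat_lit 20, nat_lit 80, nat_lit 1, nat_lit 401, nat_lit 175, nat_lit 11]⟩, ⟨p030_k11, nat_lit 0, nat_lit 0, nat_lit 55, nat_lit 0, nat_lit 0, [nat_lit 6250000000, nat_lit 7968000000, nat_lit 11872000000], [], [nat_lit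 0, nat_lit 4896614460, nat_lit 790754896, nat_lit 5265888056, nat_lit 24040155044, nat_lit 27496036016, nat_lit 22001153588, nat_lit 25008584848], nat_lit 0, nat_lit 0, nat_lit 0, nat_lit 0, nat_lit 0, nat_lit 0, [], [nat_lit 53, nat_lit 40, nat_lit 20, nat_lit 80, nat_lit 14, nat_lit 428, nat_lit 200, nat_lit 11]⟩,
 zbF0, [⟨nat_lit 4, nat_lit 99, nat_lit 100, nat_lit 54, nat_lit 166367030⟩, ⟨nat_lit 7, nat_lit 90, nat_lit 100, nat_lit 53, nat_lit 1756167631⟩]⟩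
noncomputable def p030_l65 : Lf2 := ⟨nat_lit 0, nat_lit 8, [nat_lit 50, nat_lit 5, nat_lit 5, nat_lit 20], false, nat_lit 240, nat_lit 288, nat_lit 160, nat_lit 320, ⟨nat_lit 1000, nat_lit 0, nat_lit 0, nat_lit 0, nat_lit 0, nat_lit 0, nat_lit 0, nat_lit 0, nat_lit 0, nat_lit 0, nat_lit 0, nat_lit 0, nat_lit 0, nat_lit 0, nat_lit 0, nat_lit 0, false, false⟩,
 nat_lit 0, nat_lit 17328, nat_lit 0, nat_lit 0, nat_lit 9173, nat_lit 14397, nat_lit 2361, nat_lit 0, nat_lit 0, nat_lit 0, nat_lit 0, nat_lit 0, nat_lit 0, nat_lit 0, nat_lit 0, nat_lit 0, nat_lit 0, nat_lit 3875198588, [],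
 ⟨p030_k7, nat_lit 0, nat_lit 0, nat_lit 348, nat_lit 0, nat_lit 567094, [nat_lit 4688000000, nat_lit 6250000000, nat_lit 9842000000], [], [nat_lit 16729547294, nat_lit 17768543388, nat_lit 16229907832, nat_lit 17376967260, nat_lit 19873285879, nat_lit 20998700556, nat_lit 19223392922, nat_lit 20200789569], nat_lit 1271250, nat_lit 1271250, nat_lit 490000, nat_lit 1100001, nat_lit 1271250, nat_lit 1271250, [nat_lit 1100000, nat_lit 1442500, nat_lit 1271250], [nat_lit 11, nat_lit 40, nat_lit 20, nat_lit 80, nat_lit 1, nat_lit 428, nat_lit 200, nat_lit 12]⟩, ⟨p030_k11, nat_lit 0, nat_lit 0, nat_lit 55, nat_lit 0, nat_lit 0, [nat_lit 6250000000, nat_lit 7968000000, nat_lit 11872000000], [], [nat_lit 0, nat_lit 4896614460, nat_lit 790754896, nat_lit 5265888056, nat_lit 24040155044, nat_lit 27496036016, nat_lit 22001153588, nat_lit 25008584848], nat_lit 0, nat_lit 0, nat_lit 0, nat_lit 0, nat_lit 0, nat_lit 0, [], [nat_lit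 53, nat_lit 40, nat_lit 20, nat_lit 80, nat_lit 14, nat_lit 428, nat_lit 200, nat_lit 11]⟩,
 zbF0, [⟨nat_lit 16, nat_lit 100, nat_lit 99, nat_lit 54, nat_lit 1060538742⟩, ⟨nat_lit 7, nat_lit 90, nat_lit 100, nat_lit 53, nat_lit 1756167631⟩]⟩
noncomputable def b_VL_600_500_5_12 : St := ⟨true, nat_lit 1, nat_lit 0, nat_lit 1, nat_lit 40, nat_lit 240, nat_lit 260, nat_lit 200, nat_lit 240, nat_lit 80, nat_lit 160, nat_lit 20, nat_lit 40, nat_lit 160, nat_lit 288, nat_lit 0, nat_lit 320, nat_lit 0, nat_lit 32, nat_lit 0, nat_lit 0, nat_lit 0, nat_lit 0⟩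
theorem d_VL_600_500_5_12 (h : EB TB.env) : Dead b_VL_600_500_5_12 := chkB_sound0 h (T :=
(.spl (nat_lit 5) (nat_lit 160)
(.spl (nat_lit 1) (nat_lit 220)
(.leaf p030_l62)
(.leaf p030_l63))
(.spl (nat_lit 4) (nat_lit 240)
(.leaf p030_l64)
(.leaf p030_l65)))) (by decide +kernel)
noncomputable def p030_l66 : Lf2 := ⟨nat_lit 0, nat_lit 8, [nat_lit 50, nat_lit 5, nat_lit 5, nat_lit 20], false, nat_lit 160, nat_lit 288, nat_lit 0, nat_lit 320, ⟨nat_lit 1000, nat_lit 0, nat_lit 0, nat_lit 0, nat_lit 0, nat_lit 0, nat_lit 0, nat_lit 0, nat_lit 0, nat_lit 0, nat_lit 0, nat_lit 0, nat_lit 0, nat_lit 0, nat_lit 0, nat_lit 0, false, false⟩,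
 nat_lit 0, nat_lit 7801, nat_lit 0, nat_lit 0, nat_lit 4129, nat_lit 27245, nat_lit 1909, nat_lit 0, nat_lit 0, nat_lit 0, nat_lit 0, nat_lit 0, nat_lit 0, nat_lit 0, nat_lit 0, nat_lit 0, nat_lit 0, nat_lit 0, [],
 ⟨p030_k7, nat_lit 0, nat_lit 0, nat_lit 208, nat_lit 0, nat_lit 391367, [nat_lit 4688000000, nat_lit 6250000000, nat_lit 9842000000], [], [nat_lit 30979947360, nat_lit 28796788158, nat_lit 31908416692, nat_lit 29908502510, nat_lit 27301188634, nat_lit 27951268159, nat_lit 29145479113, nat_lit 29811766278], nat_lit 1271250, nat_lit 1271250, nat_lit 1100001, nat_lit 1785000, nat_lit 1271250, nat_lit 1271250, [nat_lit 1100000, nat_lit 1442500, nat_lit 1271250], [nat_lit 11, nat_lit 40, nat_lit 20, nat_lit 80, nat_lit 1, nat_lit 428, nat_lit 200, nat_lit 12]⟩, ⟨p030_k11, nat_lit 0, nat_lit 0, nat_lit 184, nat_lit 0, nat_lit 0, [nat_lit 6250000000, nat_lit 7968000000, nat_lit 11872000000], [], [nat_lit 30601811000,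 nat_lit 32912252550, nat_lit 36328864480, nat_lit 37970008650, nat_lit 20079016900, nat_lit 21040252550, nat_lit 24456864480, nat_lit 26098008650], nat_lit 0, nat_lit 0, nat_lit 0, nat_lit 0, nat_lit 0, nat_lit 0, [], [nat_lit 53, nat_lit 40, nat_lit 20, nat_lit 80, nat_lit 14, nat_lit 428, nat_lit 200, nat_lit 11]⟩,
 zbF0, [⟨nat_lit 4, nat_lit 99, nat_lit 100, nat_lit 54, nat_lit 138842939⟩]⟩
noncomputable def p030_l67 : Lf2 := ⟨nat_lit 0, nat_lit 8, [nat_lit 50, nat_lit 5, nat_lit 5, nat_lit 20], false, nat_lit 160, nat_lit 288, nat_lit 0, nat_lit 304, ⟨nat_lit 1000, nat_lit 0, nat_lit 0, nat_lit 0, nat_lit 0, nat_lit 0, nat_lit 0, nat_lit 0, nat_lit 0, nat_lit 0, nat_lit 0, nat_lit 0, nat_lit 0, nat_lit 0, nat_lit 0, nat_lit 0, false, false⟩,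
 nat_lit 0, nat_lit 9396, nat_lit 0, nat_lit 0, nat_lit 4974, nat_lit 21463, nat_lit 1759, nat_lit 0, nat_lit 0, nat_lit 1031, nat_lit 0, nat_lit 0, nat_lit 0, nat_lit 0, nat_lit 0, nat_lit 0, nat_lit 0, nat_lit 0, [],
 ⟨p030_k7, nat_lit 0, nat_lit 0, nat_lit 318, nat_lit 0, nat_lit 567094, [nat_lit 4688000000, nat_lit 6250000000, nat_lit 9842000000], [], [nat_lit 32267592160, nat_lit 29637649348, nat_lit 31569189752, nat_lit 30104182510, nat_lit 31063781343, nat_lit 31598029572, nat_lit 32459722487, nat_lit 33006157500], nat_lit 1271250, nat_lit 1271250, nat_lit 1100001, nat_lit 1785000, nat_lit 1271250, nat_lit 1271250, [nat_lit 1100000, nat_lit 1442500, nat_lit 1271250], [nat_lit 11, nat_lit 40, nat_lit 20, nat_lit 80, nat_lit 1, nat_lit 428, nat_lit 200, nat_lit 12]⟩, ⟨p030_k8, nat_lit 0, nat_lit 0, nat_lit 187, nat_lit 0, nat_lit 0, [nat_lit 6250000000, nat_lit 7968000000, nat_lit 11872000000], [], [nat_lit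 28085787395, nat_lit 30033177165, nat_lit 32541174735, nat_lit 33952970093, nat_lit 18322578073, nat_lit 18992273066, nat_lit 21994683890, nat_lit 23581472331], nat_lit 0, nat_lit 0, nat_lit 0, nat_lit 0, nat_lit 0, nat_lit 0, [], [nat_lit 53, nat_lit 40, nat_lit 20, nat_lit 80, nat_lit 14, nat_lit 428, nat_lit 200, nat_lit 11]⟩,
 zbF0, [⟨nat_lit 4, nat_lit 99, nat_lit 100, nat_lit 54, nat_lit 355627390⟩]⟩
noncomputable def b_VL_600_500_5_13 : St := ⟨true, nat_lit 1, nat_lit 0, nat_lit 1, nat_lit 40, nat_lit 240, nat_lit 260, nat_lit 200, nat_lit 240, nat_lit 160, nat_lit 240, nat_lit 20, nat_lit 40, nat_lit 160, nat_lit 288, nat_lit 0, nat_lit 320, nat_lit 0, nat_lit 32, nat_lit 0, nat_lit 0, nat_lit 0, nat_lit 0⟩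
theorem d_VL_600_500_5_13 (h : EB TB.env) : Dead b_VL_600_500_5_13 := chkB_sound0 h (T :=
(.spl (nat_lit 1) (nat_lit 220)
(.leaf p030_l66)
(.trX (nat_lit 19) (nat_lit 100) (nat_lit 86) (nat_lit 60) (nat_lit 304) (.leaf p030_l67)))) (by decide +kernel)
noncomputable def p030_l68 : Lf2 := ⟨nat_lit 0, nat_lit 5, [nat_lit 4, nat_lit 5, nat_lit 5, nat_lit 20], true, nat_lit 160, nat_lit 180, nat_lit 0, nat_lit 320, ⟨nat_lit 0, nat_lit 0, nat_lit 1000, nat_lit 5, nat_lit 87, nat_lit 1000, nat_lit 104, nat_lit 1000, nat_lit 101400, nat_lit 293, nat_lit 72600, nat_lit 281, nat_lit 58676334, nat_lit 0, nat_lit 0, nat_lit 2436412, false, false⟩,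
 nat_lit 0, nat_lit 7477, nat_lit 0, nat_lit 0, nat_lit 4352, nat_lit 0, nat_lit 0, nat_lit 0, nat_lit 0, nat_lit 0, nat_lit 0, nat_lit 0, nat_lit 0, nat_lit 0, nat_lit 117, nat_lit 1000000, nat_lit 0, nat_lit 0, [(nat_lit 9, [(nat_lit 6, nat_lit 1000)])],
 ⟨p030_k0, nat_lit 0, nat_lit 0, nat_lit 243, nat_lit 0, nat_lit 311563, [nat_lit 2969600000, nat_lit 1600000000, nat_lit 226400000], [], [nat_lit 12580425969, nat_lit 13247989759, nat_lit 11459052912, nat_lit 12088466456, nat_lit 13408527867, nat_lit 14050559602, nat_lit 12250277716, nat_lit 12855985854], nat_lit 1271250, nat_lit 1271250, nat_lit 43600, nat_lit 490000, nat_lit 1100001, nat_lit 1271250, [nat_lit 1100000, nat_lit 1442500, nat_lit 1271250], [nat_lit 9, nat_lit 40, nat_lit 20, nat_lit 80, nat_lit 2, nat_lit 289, nat_lit 75, nat_lit 9]⟩, C1.Rw.none,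
 ⟨nat_lit 5700, nat_lit 5917, ⟨.ofNat (nat_lit 123037), .ofNat (nat_lit 264398), .ofNat (nat_lit 165716), .ofNat (nat_lit 307076), .ofNat (nat_lit 131747), .ofNat (nat_lit 269841), .ofNat (nat_lit 174431), .ofNat (nat_lit 312525)⟩, ⟨.ofNat (nat_lit 229411), .ofNat (nat_lit 268678), .ofNat (nat_lit 250751), .ofNat (nat_lit 290018), .ofNat (nat_lit 231202), .ofNat (nat_lit 269561), .ofNat (nat_lit 252544), .ofNat (nat_lit 290903)⟩⟩, [⟨nat_lit 0, nat_lit 100, nat_lit 96, nat_lit 54, nat_lit 189345188⟩]⟩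
noncomputable def p030_l69 : Lf2 := ⟨nat_lit 0, nat_lit 5, [nat_lit 4, nat_lit 5, nat_lit 5, nat_lit 20], true, nat_lit 180, nat_lit 200, nat_lit 0, nat_lit 320, ⟨nat_lit 0, nat_lit 0, nat_lit 1000, nat_lit 5, nat_lit 87, nat_lit 1000, nat_lit 120, nat_lit 1000, nat_lit 135000, nat_lit 305, nat_lit 72600, nat_lit 281, nat_lit 57427266, nat_lit 0, nat_lit 0, nat_lit 2675669, false, false⟩,
 nat_lit 0, nat_lit 7288, nat_lit 0, nat_lit 0, nat_lit 4242, nat_lit 0, nat_lit 0, nat_lit 0, nat_lit 0, nat_lit 0, nat_lit 0, nat_lit 0, nat_lit 0, nat_lit 0, nat_lit 117, nat_lit 1000000, nat_lit 0, nat_lit 0, [(nat_lit 9, [(nat_lit 6, nat_lit 1000)])],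
 ⟨p030_k0, nat_lit 0, nat_lit 0, nat_lit 244, nat_lit 0, nat_lit 311563, [nat_lit 2969600000, nat_lit 1600000000, nat_lit 226400000], [], [nat_lit 13583671440, nat_lit 14217884523, nat_lit 12487435461, nat_lit 13085928947, nat_lit 14405426151, nat_lit 15014591899, nat_lit 13272790170, nat_lit 13848027517], nat_lit 1271250, nat_lit 1271250, nat_lit 43600, nat_lit 490000, nat_lit 1271250, nat_lit 1271250, [nat_lit 1100000, nat_lit 1442500, nat_lit 1271250], [nat_lit 9, nat_lit 40, nat_lit 20, nat_lit 80, nat_lit 2, nat_lit 289, nat_lit 75, nat_lit 9]⟩, C1.Rw.none,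
 ⟨nat_lit 5700, nat_lit 5917, ⟨.ofNat (nat_lit 123037), .ofNat (nat_lit 264398), .ofNat (nat_lit 165716), .ofNat (nat_lit 307076), .ofNat (nat_lit 131747), .ofNat (nat_lit 269841), .ofNat (nat_lit 174431), .ofNat (nat_lit 312525)⟩, ⟨.ofNat (nat_lit 268678), .ofNat (nat_lit 307945), .ofNat (nat_lit 290018), .ofNat (nat_lit 329284), .ofNat (nat_lit 269561), .ofNat (nat_lit 307921), .ofNat (nat_lit 290903), .ofNat (nat_lit 329263)⟩⟩, [⟨nat_lit 0, nat_lit 100, nat_lit 96, nat_lit 54, nat_lit 187324601⟩]⟩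
noncomputable def p030_l70 : Lf2 := ⟨nat_lit 0, nat_lit 10, [nat_lit 0, nat_lit 5, nat_lit 5, nat_lit 20], true, nat_lit 160, nat_lit 200, nat_lit 0, nat_lit 320, ⟨nat_lit 0, nat_lit 0, nat_lit 1000, nat_lit 5, nat_lit 87, nat_lit 1000, nat_lit 112, nat_lit 1000, nat_lit 117600, nat_lit 299, nat_lit 72600, nat_lit 281, nat_lit 58062014, nat_lit 0, nat_lit 0, nat_lit 2557275, false, false⟩,
 nat_lit 0, nat_lit 7584, nat_lit 0, nat_lit 0, nat_lit 4414, nat_lit 0, nat_lit 0, nat_lit 0, nat_lit 0, nat_lit 0, nat_lit 0, nat_lit 0, nat_lit 0, nat_lit 0, nat_lit 148, nat_lit 747400, nat_lit 0, nat_lit 0, [(nat_lit 9, [(nat_lit 5, nat_lit 421), (nat_lit 6, nat_lit 579)])],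
 ⟨p030_k4, nat_lit 0, nat_lit 0, nat_lit 185, nat_lit 0, nat_lit 129364, [nat_lit 3646124800, nat_lit 2656510667, nat_lit 125901333], [], [nat_lit 13147705753, nat_lit 13749368049, nat_lit 11683123184, nat_lit 12316856392, nat_lit 14547871974, nat_lit 15123172934, nat_lit 13272189990, nat_lit 13858005939], nat_lit 1271250, nat_lit 1271250, nat_lit 43600, nat_lit 490000, nat_lit 1100001, nat_lit 1442500, [nat_lit 1100000, nat_lit 1442500, nat_lit 1271250], [nat_lit 11, nat_lit 40, nat_lit 20, nat_lit 80, nat_lit 1, nat_lit 373, nat_lit 150, nat_lit 11]⟩, C1.Rw.none,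
 ⟨nat_lit 5700, nat_lit 5917, ⟨.ofNat (nat_lit 123037), .ofNat (nat_lit 264398), .ofNat (nat_lit 165716), .ofNat (nat_lit 307076), .ofNat (nat_lit 131747), .ofNat (nat_lit 269841), .ofNat (nat_lit 174431), .ofNat (nat_lit 312525)⟩, ⟨.ofNat (nat_lit 229411), .ofNat (nat_lit 307945), .ofNat (nat_lit 250751), .ofNat (nat_lit 329284), .ofNat (nat_lit 231202), .ofNat (nat_lit 307921), .ofNat (nat_lit 252544), .ofNat (nat_lit 329263)⟩⟩, [⟨nat_lit 0, nat_lit 100, nat_lit 96, nat_lit 54, nat_lit 194458838⟩]⟩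
noncomputable def p030_l71 : Lf2 := ⟨nat_lit 0, nat_lit 5, [nat_lit 4, nat_lit 5, nat_lit 5, nat_lit 20], true, nat_lit 160, nat_lit 200, nat_lit 0, nat_lit 320, ⟨nat_lit 0, nat_lit 0, nat_lit 1000, nat_lit 5, nat_lit 91, nat_lit 1000, nat_lit 112, nat_lit 1000, nat_lit 117600, nat_lit 299, nat_lit 77067, nat_lit 283, nat_lit 57783412, nat_lit 0, nat_lit 0, nat_lit 2618485, false, false⟩,
 nat_lit 0, nat_lit 6960, nat_lit 0, nat_lit 0, nat_lit 4238, nat_lit 0, nat_lit 0, nat_lit 0, nat_lit 0, nat_lit 0, nat_lit 0, nat_lit 0, nat_lit 0, nat_lit 0, nat_lit 117, nat_lit 1000000, nat_lit 0, nat_lit 0, [(nat_lit 9, [(nat_lit 6, nat_lit 1000)])],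
 ⟨p030_k2, nat_lit 0, nat_lit 0, nat_lit 245, nat_lit 0, nat_lit 321239, [nat_lit 2969600000, nat_lit 1600000000, nat_lit 226400000], [], [nat_lit 13258420909, nat_lit 13587402653, nat_lit 12332389064, nat_lit 12643124532, nat_lit 14850839244, nat_lit 15154854012, nat_lit 13856191963, nat_lit 14143687630], nat_lit 1271250, nat_lit 1271250, nat_lit 65850, nat_lit 490000, nat_lit 1100001, nat_lit 1442500, [nat_lit 1100000, nat_lit 1442500, nat_lit 1271250], [nat_lit 9, nat_lit 40, nat_lit 20, nat_lit 80, nat_lit 2, nat_lit 289, nat_lit 75, nat_lit 9]⟩, C1.Rw.none,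
 ⟨nat_lit 5590, nat_lit 5701, ⟨.ofNat (nat_lit 139419), .ofNat (nat_lit 269841), .ofNat (nat_lit 182103), .ofNat (nat_lit 312525), .ofNat (nat_lit 143632), .ofNat (nat_lit 272530), .ofNat (nat_lit 186327), .ofNat (nat_lit 315226)⟩, ⟨.ofNat (nat_lit 231202), .ofNat (nat_lit 307921), .ofNat (nat_lit 252544), .ofNat (nat_lit 329263), .ofNat (nat_lit 232045), .ofNat (nat_lit 307867), .ofNat (nat_lit 253393), .ofNat (nat_lit 329215)⟩⟩, [⟨nat_lit 0, nat_lit 100, nat_lit 95, nat_lit 56, nat_lit 181120178⟩]⟩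
noncomputable def p030_l72 : Lf2 := ⟨nat_lit 0, nat_lit 5, [nat_lit 4, nat_lit 5, nat_lit 5, nat_lit 20], true, nat_lit 160, nat_lit 200, nat_lit 0, nat_lit 320, ⟨nat_lit 0, nat_lit 0, nat_lit 1000, nat_lit 5, nat_lit 92, nat_lit 1000, nat_lit 112, nat_lit 1000, nat_lit 117600, nat_lit 299, nat_lit 79350, nat_lit 284, nat_lit 57672234, nat_lit 0, nat_lit 0, nat_lit 2642402, false, false⟩,
 nat_lit 0, nat_lit 7545, nat_lit 0, nat_lit 0, nat_lit 4697, nat_lit 0, nat_lit 549, nat_lit 0, nat_lit 0, nat_lit 0, nat_lit 0, nat_lit 0, nat_lit 0, nat_lit 0, nat_lit 117, nat_lit 1000000, nat_lit 0, nat_lit 0, [(nat_lit 9, [(nat_lit 6, nat_lit 1000)])],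
 ⟨p030_k29, nat_lit 0, nat_lit 0, nat_lit 253, nat_lit 0, nat_lit 338636, [nat_lit 2969600000, nat_lit 1600000000, nat_lit 226400000], [], [nat_lit 16014193523, nat_lit 15405407838, nat_lit 11677004808, nat_lit 12003730000, nat_lit 15432971482, nat_lit 15876059441, nat_lit 13220932505, nat_lit 13522543224], nat_lit 1271250, nat_lit 1271250, nat_lit 65850, nat_lit 490000, nat_lit 1100001, nat_lit 1442500, [nat_lit 1100000, nat_lit 1442500, nat_lit 1271250], [nat_lit 9, nat_lit 40, nat_lit 20, nat_lit 80, nat_lit 2, nat_lit 289, nat_lit 75, nat_lit 9]⟩, C1.Rw.none,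
 ⟨nat_lit 5477, nat_lit 5591, ⟨.ofNat (nat_lit 143632), .ofNat (nat_lit 272530), .ofNat (nat_lit 186327), .ofNat (nat_lit 315226), .ofNat (nat_lit 147813), .ofNat (nat_lit 275199), .ofNat (nat_lit 190527), .ofNat (nat_lit 317913)⟩, ⟨.ofNat (nat_lit 232045), .ofNat (nat_lit 307867), .ofNat (nat_lit 253393), .ofNat (nat_lit 329215), .ofNat (nat_lit 232852), .ofNat (nat_lit 307785), .ofNat (nat_lit 254209), .ofNat (nat_lit 329142)⟩⟩, [⟨nat_lit 0, nat_lit 100, nat_lit 94, nat_lit 59, nat_lit 339553777⟩]⟩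
noncomputable def p030_l73 : Lf2 := ⟨nat_lit 0, nat_lit 10, [nat_lit 0, nat_lit 5, nat_lit 5, nat_lit 20], true, nat_lit 160, nat_lit 200, nat_lit 0, nat_lit 320, ⟨nat_lit 0, nat_lit 0, nat_lit 1000, nat_lit 5, nat_lit 92, nat_lit 1000, nat_lit 112, nat_lit 1000, nat_lit 117600, nat_lit 299, nat_lit 79350, nat_lit 284, nat_lit 57728314, nat_lit 0, nat_lit 0, nat_lit 2630369, false, false⟩,
 nat_lit 0, nat_lit 7203, nat_lit 0, nat_lit 0, nat_lit 4386, nat_lit 0, nat_lit 0, nat_lit 0, nat_lit 0, nat_lit 0, nat_lit 0, nat_lit 0, nat_lit 0, nat_lit 0, nat_lit 139, nat_lit 700000, nat_lit 0, nat_lit 0, [(nat_lit 9, [(nat_lit 5, nat_lit 500), (nat_lit 6, nat_lit 500)])],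
 ⟨p030_k30, nat_lit 0, nat_lit 0, nat_lit 200, nat_lit 0, nat_lit 177593, [nat_lit 3536000001, nat_lit 2500000001, nat_lit 85199999], [], [nat_lit 13741553169, nat_lit 14341087043, nat_lit 12444517610, nat_lit 13076300002, nat_lit 15095900284, nat_lit 15672568305, nat_lit 13982907463, nat_lit 14567001314], nat_lit 1271250, nat_lit 1271250, nat_lit 65850, nat_lit 490000, nat_lit 1100001, nat_lit 1442500, [nat_lit 1100000, nat_lit 1442500, nat_lit 1271250], [nat_lit 11, nat_lit 40, nat_lit 20, nat_lit 80, nat_lit 1, nat_lit 373, nat_lit 150, nat_lit 11]⟩, C1.Rw.none,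
 ⟨nat_lit 5477, nat_lit 5701, ⟨.ofNat (nat_lit 139419), .ofNat (nat_lit 269841), .ofNat (nat_lit 182103), .ofNat (nat_lit 312525), .ofNat (nat_lit 147813), .ofNat (nat_lit 275199), .ofNat (nat_lit 190527), .ofNat (nat_lit 317913)⟩, ⟨.ofNat (nat_lit 231202), .ofNat (nat_lit 307921), .ofNat (nat_lit 252544), .ofNat (nat_lit 329263), .ofNat (nat_lit 232852), .ofNat (nat_lit 307785), .ofNat (nat_lit 254209), .ofNat (nat_lit 329142)⟩⟩, [⟨nat_lit 0, nat_lit 100, nat_lit 94, nat_lit 59, nat_lit 188451419⟩]⟩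
noncomputable def p030_l74 : Lf2 := ⟨nat_lit 0, nat_lit 5, [nat_lit 4, nat_lit 5, nat_lit 5, nat_lit 20], true, nat_lit 200, nat_lit 240, nat_lit 0, nat_lit 320, ⟨nat_lit 0, nat_lit 0, nat_lit 1000, nat_lit 5, nat_lit 72, nat_lit 1000, nat_lit 143, nat_lit 1000, nat_lit 190817, nat_lit 322, nat_lit 48600, nat_lit 269, nat_lit 56420525, nat_lit 0, nat_lit 0, nat_lit 2774289, false, false⟩,
 nat_lit 0, nat_lit 7107, nat_lit 0, nat_lit 0, nat_lit 4136, nat_lit 0, nat_lit 466, nat_lit 0, nat_lit 0, nat_lit 0, nat_lit 0, nat_lit 0, nat_lit 0, nat_lit 0, nat_lit 117, nat_lit 1000000, nat_lit 0, nat_lit 0, [(nat_lit 9, [(nat_lit 6, nat_lit 1000)])],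
 ⟨p030_k0, nat_lit 0, nat_lit 0, nat_lit 246, nat_lit 0, nat_lit 311563, [nat_lit 2969600000, nat_lit 1600000000, nat_lit 226400000], [], [nat_lit 14656402280, nat_lit 15170182992, nat_lit 13682130568, nat_lit 14273354716, nat_lit 16220455965, nat_lit 16977187436, nat_lit 15295132160, nat_lit 15838462816], nat_lit 1271250, nat_lit 1271250, nat_lit 43600, nat_lit 230001, nat_lit 1271250, nat_lit 1271250, [nat_lit 1100000, nat_lit 1442500, nat_lit 1271250], [nat_lit 9, nat_lit 40, nat_lit 20, nat_lit 80, nat_lit 2, nat_lit 289, nat_lit 75, nat_lit 9]⟩, C1.Rw.none,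
 ⟨nat_lit 5700, nat_lit 5917, ⟨.ofNat (nat_lit 123037), .ofNat (nat_lit 185864), .ofNat (nat_lit 165716), .ofNat (nat_lit 228543), .ofNat (nat_lit 131747), .ofNat (nat_lit 193122), .ofNat (nat_lit 174431), .ofNat (nat_lit 235806)⟩, ⟨.ofNat (nat_lit 307945), .ofNat (nat_lit 386479), .ofNat (nat_lit 329284), .ofNat (nat_lit 407818), .ofNat (nat_lit 307921), .ofNat (nat_lit 384640), .ofNat (nat_lit 329263), .ofNat (nat_lit 405982)⟩⟩, [⟨nat_lit 0, nat_lit 100, nat_lit 96, nat_lit 54, nat_lit 263957316⟩, ⟨nat_lit 4, nat_lit 100, nat_lit 97, nat_lit 54, nat_lit 287843232⟩]⟩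
noncomputable def p030_l75 : Lf2 := ⟨nat_lit 0, nat_lit 5, [nat_lit 4, nat_lit 5, nat_lit 5, nat_lit 20], true, nat_lit 200, nat_lit 240, nat_lit 0, nat_lit 320, ⟨nat_lit 0, nat_lit 0, nat_lit 1000, nat_lit 5, nat_lit 77, nat_lit 1000, nat_lit 143, nat_lit 1000, nat_lit 190817, nat_lit 322, nat_lit 54150, nat_lit 272, nat_lit 56162169, nat_lit 0, nat_lit 0, nat_lit 2841324, false, false⟩,
 nat_lit 0, nat_lit 7679, nat_lit 0, nat_lit 0, nat_lit 4676, nat_lit 0, nat_lit 0, nat_lit 0, nat_lit 0, nat_lit 0, nat_lit 0, nat_lit 0, nat_lit 0, nat_lit 0, nat_lit 117, nat_lit 1000000, nat_lit 0, nat_lit 0, [(nat_lit 9, [(nat_lit 6, nat_lit 1000)])],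
 ⟨p030_k2, nat_lit 0, nat_lit 0, nat_lit 258, nat_lit 0, nat_lit 347269, [nat_lit 2969600000, nat_lit 1600000000, nat_lit 226400000], [], [nat_lit 14978181084, nat_lit 15862175644, nat_lit 13854528230, nat_lit 14377765976, nat_lit 17102692213, nat_lit 17908407543, nat_lit 15588831972, nat_lit 16387385520], nat_lit 1271250, nat_lit 1271250, nat_lit 65850, nat_lit 230001, nat_lit 1271250, nat_lit 1271250, [nat_lit 1100000, nat_lit 1442500, nat_lit 1271250], [nat_lit 9, nat_lit 40, nat_lit 20, nat_lit 80, nat_lit 2, nat_lit 289, nat_lit 75, nat_lit 9]⟩, C1.Rw.none,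
 ⟨nat_lit 5477, nat_lit 5701, ⟨.ofNat (nat_lit 139419), .ofNat (nat_lit 193122), .ofNat (nat_lit 182103), .ofNat (nat_lit 235806), .ofNat (nat_lit 147813), .ofNat (nat_lit 200266), .ofNat (nat_lit 190527), .ofNat (nat_lit 242980)⟩, ⟨.ofNat (nat_lit 307921), .ofNat (nat_lit 384640), .ofNat (nat_lit 329263), .ofNat (nat_lit 405982), .ofNat (nat_lit 307785), .ofNat (nat_lit 382718), .ofNat (nat_lit 329142), .ofNat (nat_lit 404075)⟩⟩, [⟨nat_lit 0, nat_lit 100, nat_lit 94, nat_lit 59, nat_lit 388280034⟩, ⟨nat_lit 4, nat_lit 100, nat_lit 94, nat_lit 53, nat_lit 350954970⟩]⟩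
noncomputable def p030_l76 : Lf2 := ⟨nat_lit 0, nat_lit 10, [nat_lit 0, nat_lit 5, nat_lit 5, nat_lit 20], true, nat_lit 200, nat_lit 240, nat_lit 0, nat_lit 320, ⟨nat_lit 0, nat_lit 0, nat_lit 1000, nat_lit 5, nat_lit 73, nat_lit 1000, nat_lit 143, nat_lit 1000, nat_lit 190817, nat_lit 322, nat_lit 50417, nat_lit 270, nat_lit 56341380, nat_lit 0, nat_lit 0, nat_lit 2795808, false, false⟩,
 nat_lit 0, nat_lit 8187, nat_lit 0, nat_lit 0, nat_lit 4765, nat_lit 0, nat_lit 0, nat_lit 0, nat_lit 0, nat_lit 0, nat_lit 0, nat_lit 0, nat_lit 0, nat_lit 0, nat_lit 116, nat_lit 563200, nat_lit 0, nat_lit 0, [(nat_lit 9, [(nat_lit 5, nat_lit 728), (nat_lit 6, nat_lit 272)])],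
 ⟨p030_k31, nat_lit 0, nat_lit 0, nat_lit 198, nat_lit 0, nat_lit 187309, [nat_lit 3520902400, nat_lit 24131200], [], [nat_lit 15300507358, nat_lit 16450382558, nat_lit 13863324990, nat_lit 14998505440, nat_lit 16723090966, nat_lit 18293797844, nat_lit 15326665950, nat_lit 16484493580], nat_lit 1271250, nat_lit 1271250, nat_lit 43600, nat_lit 230001, nat_lit 1271250, nat_lit 1271250, [nat_lit 1100000, nat_lit 2127500], [nat_lit 70, nat_lit 40, nat_lit 20, nat_lit 80, nat_lit 13, nat_lit 373, nat_lit 150, nat_lit 10]⟩, C1.Rw.none,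
 ⟨nat_lit 5477, nat_lit 5917, ⟨.ofNat (nat_lit 123037), .ofNat (nat_lit 185864), .ofNat (nat_lit 165716), .ofNat (nat_lit 228543), .ofNat (nat_lit 140320), .ofNat (nat_lit 200266), .ofNat (nat_lit 183034), .ofNat (nat_lit 242980)⟩, ⟨.ofNat (nat_lit 307945), .ofNat (nat_lit 386479), .ofNat (nat_lit 329284), .ofNat (nat_lit 407818), .ofNat (nat_lit 307785), .ofNat (nat_lit 382718), .ofNat (nat_lit 329142), .ofNat (nat_lit 404075)⟩⟩, [⟨nat_lit 0, nat_lit 100, nat_lit 94, nat_lit 59, nat_lit 398667208⟩, ⟨nat_lit 4, nat_lit 100, nat_lit 96, nat_lit 54, nat_lit 244605206⟩]⟩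
noncomputable def p030_l77 : Lf2 := ⟨nat_lit 0, nat_lit 10, [nat_lit 0, nat_lit 5, nat_lit 5, nat_lit 20], true, nat_lit 200, nat_lit 240, nat_lit 0, nat_lit 320, ⟨nat_lit 0, nat_lit 0, nat_lit 1000, nat_lit 5, nat_lit 101, nat_lit 1000, nat_lit 143, nat_lit 1000, nat_lit 190817, nat_lit 322, nat_lit 96267, nat_lit 291, nat_lit 54485307, nat_lit 0, nat_lit 0, nat_lit 3213438, false, false⟩,
 nat_lit 0, nat_lit 7439, nat_lit 0, nat_lit 0, nat_lit 4330, nat_lit 0, nat_lit 315, nat_lit 0, nat_lit 0, nat_lit 0, nat_lit 0, nat_lit 0, nat_lit 0, nat_lit 0, nat_lit 192, nat_lit 1000000, nat_lit 0, nat_lit 0, [(nat_lit 9, [(nat_lit 6, nat_lit 1000)])],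
 ⟨p030_k4, nat_lit 0, nat_lit 0, nat_lit 306, nat_lit 0, nat_lit 392023, [nat_lit 4169600001, nat_lit 3411333334, nat_lit 231866666], [], [nat_lit 13586831581, nat_lit 14527897181, nat_lit 13366325361, nat_lit 14270682861, nat_lit 14954916302, nat_lit 16246556600, nat_lit 14667861622, nat_lit 15734698722], nat_lit 1271250, nat_lit 1271250, nat_lit 230001, nat_lit 490000, nat_lit 1271250, nat_lit 1271250, [nat_lit 1100000, nat_lit 1442500, nat_lit 1271250], [nat_lit 11, nat_lit 40, nat_lit 20, nat_lit 80, nat_lit 1, nat_lit 373, nat_lit 150, nat_lit 10]⟩, C1.Rw.none,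
 ⟨nat_lit 5477, nat_lit 5917, ⟨.ofNat (nat_lit 185864), .ofNat (nat_lit 264398), .ofNat (nat_lit 228543), .ofNat (nat_lit 307076), .ofNat (nat_lit 200266), .ofNat (nat_lit 275199), .ofNat (nat_lit 242980), .ofNat (nat_lit 317913)⟩, ⟨.ofNat (nat_lit 307945), .ofNat (nat_lit 386479), .ofNat (nat_lit 329284), .ofNat (nat_lit 407818), .ofNat (nat_lit 307785), .ofNat (nat_lit 382718), .ofNat (nat_lit 329142), .ofNat (nat_lit 404075)⟩⟩, [⟨nat_lit 4, nat_lit 100, nat_lit 96, nat_lit 54, nat_lit 340103244⟩]⟩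
noncomputable def p030_l78 : Lf2 := ⟨nat_lit 0, nat_lit 10, [nat_lit 0, nat_lit 5, nat_lit 5, nat_lit 20], false, nat_lit 160, nat_lit 240, nat_lit 0, nat_lit 160, ⟨nat_lit 1000, nat_lit 0, nat_lit 0, nat_lit 0, nat_lit 0, nat_lit 0, nat_lit 0, nat_lit 0, nat_lit 0, nat_lit 0, nat_lit 0, nat_lit 0, nat_lit 0, nat_lit 0, nat_lit 0, nat_lit 0, false, false⟩,
 nat_lit 0, nat_lit 14738, nat_lit 0, nat_lit 0, nat_lit 8578, nat_lit 9282, nat_lit 1579, nat_lit 0, nat_lit 0, nat_lit 3478, nat_lit 0, nat_lit 0, nat_lit 0, nat_lit 0, nat_lit 0, nat_lit 0, nat_lit 0, nat_lit 0, [],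
 ⟨p030_k4, nat_lit 0, nat_lit 0, nat_lit 448, nat_lit 0, nat_lit 708010, [nat_lit 4688000000, nat_lit 6250000000, nat_lit 9842000000], [], [nat_lit 20041003500, nat_lit 18549580087, nat_lit 17190504155, nat_lit 17872385087, nat_lit 19142711011, nat_lit 19882833143, nat_lit 20523014445, nat_lit 19085684735], nat_lit 1271250, nat_lit 1271250, nat_lit 490000, nat_lit 780000, nat_lit 1100001, nat_lit 1785000, [nat_lit 1100000, nat_lit 1442500, nat_lit 1271250], [nat_lit 11, nat_lit 40, nat_lit 20, nat_lit 80, nat_lit 1, nat_lit 401, nat_lit 175, nat_lit 11]⟩, ⟨p030_k10, nat_lit 0, nat_lit 0, nat_lit 215, nat_lit 0, nat_lit 0, [nat_lit 6250000000, nat_lit 7968000000, nat_lit 11872000000], [], [nat_lit 19452786750, nat_lit 21512942272, nat_lit 18694358830, nat_lit 21065541288, nat_lit 14304231120, nat_lit 16672627560, nat_lit 14042491960, nat_lit 16260708976], nat_lit 0, nat_lit 0, nat_lit 0, nat_lit 0, nat_lit 0, nat_lit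 0, [], [nat_lit 53, nat_lit 40, nat_lit 20, nat_lit 80, nat_lit 14, nat_lit 373, nat_lit 150, nat_lit 10]⟩,
 zbF0, [⟨nat_lit 16, nat_lit 96, nat_lit 100, nat_lit 54, nat_lit 444370023⟩]⟩
noncomputable def p030_l79 : Lf2 := ⟨nat_lit 0, nat_lit 10, [nat_lit 0, nat_lit 5, nat_lit 5, nat_lit 20], false, nat_lit 160, nat_lit 240, nat_lit 160, nat_lit 320, ⟨nat_lit 1000, nat_lit 0, nat_lit 0, nat_lit 0, nat_lit 0, nat_lit 0, nat_lit 0, nat_lit 0, nat_lit 0, nat_lit 0, nat_lit 0, nat_lit 0, nat_lit 0, nat_lit 0, nat_lit 0, nat_lit 0, false, false⟩,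
 nat_lit 0, nat_lit 15107, nat_lit 0, nat_lit 0, nat_lit 8793, nat_lit 14397, nat_lit 2573, nat_lit 0, nat_lit 0, nat_lit 0, nat_lit 0, nat_lit 0, nat_lit 0, nat_lit 0, nat_lit 0, nat_lit 0, nat_lit 0, nat_lit 4333475964, [],
 ⟨p030_k4, nat_lit 0, nat_lit 0, nat_lit 448, nat_lit 0, nat_lit 708010, [nat_lit 4688000000, nat_lit 6250000000, nat_lit 9842000000], [], [nat_lit 19807029750, nat_lit 15295710756, nat_lit 12706090437, nat_lit 13578739409, nat_lit 16599878985, nat_lit 15798681879, nat_lit 19381484045, nat_lit 15247207947], nat_lit 1271250, nat_lit 1271250, nat_lit 490000, nat_lit 780000, nat_lit 1100001, nat_lit 1785000, [nat_lit 1100000, nat_lit 1442500, nat_lit 1271250], [nat_lit 11, nat_lit 40, nat_lit 20, nat_lit 80, nat_lit 1, nat_lit 401, nat_lit 175, nat_lit 11]⟩, ⟨p030_k10, nat_lit 0, nat_lit 0, nat_lit 55, nat_lit 0, nat_lit 0, [nat_lit 6250000000, nat_lit 7968000000, nat_lit 11872000000], [], [nat_lit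 458277376, nat_lit 5354891836, nat_lit 0, nat_lit 4592706380, nat_lit 24498432420, nat_lit 27954313392, nat_lit 22540789780, nat_lit 25817208724], nat_lit 0, nat_lit 0, nat_lit 0, nat_lit 0, nat_lit 0, nat_lit 0, [], [nat_lit 53, nat_lit 40, nat_lit 20, nat_lit 80, nat_lit 14, nat_lit 401, nat_lit 175, nat_lit 10]⟩,
 zbF0, [⟨nat_lit 16, nat_lit 96, nat_lit 100, nat_lit 54, nat_lit 270493096⟩, ⟨nat_lit 7, nat_lit 90, nat_lit 100, nat_lit 53, nat_lit 1756167631⟩]⟩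
noncomputable def p030_l80 : Lf2 := ⟨nat_lit 0, nat_lit 10, [nat_lit 0, nat_lit 5, nat_lit 5, nat_lit 20], true, nat_lit 240, nat_lit 268, nat_lit 0, nat_lit 320, ⟨nat_lit 0, nat_lit 0, nat_lit 1000, nat_lit 5, nat_lit 85, nat_lit 1000, nat_lit 169, nat_lit 1000, nat_lit 126379, nat_lit 302, nat_lit 66150, nat_lit 278, nat_lit 53222565, nat_lit 0, nat_lit 0, nat_lit 3305811, false, false⟩,
 nat_lit 0, nat_lit 7504, nat_lit 0, nat_lit 0, nat_lit 4367, nat_lit 0, nat_lit 0, nat_lit 0, nat_lit 0, nat_lit 0, nat_lit 0, nat_lit 0, nat_lit 0, nat_lit 0, nat_lit 184, nat_lit 956800, nat_lit 0, nat_lit 0, [(nat_lit 9, [(nat_lit 5, nat_lit 72), (nat_lit 6, nat_lit 928)])],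
 ⟨p030_k4, nat_lit 0, nat_lit 0, nat_lit 312, nat_lit 0, nat_lit 321763, [nat_lit 4072473600, nat_lit 3272741334, nat_lit 200442666], [], [nat_lit 16440772857, nat_lit 17939534224, nat_lit 15387937426, nat_lit 16286946996, nat_lit 18572718532, nat_lit 20005980659, nat_lit 16659467194, nat_lit 17511758119], nat_lit 1271250, nat_lit 1271250, nat_lit 43600, nat_lit 490000, nat_lit 1271250, nat_lit 1271250, [nat_lit 1100000, nat_lit 1442500, nat_lit 1271250], [nat_lit 11, nat_lit 40, nat_lit 20, nat_lit 80, nat_lit 1, nat_lit 401, nat_lit 175, nat_lit 11]⟩, C1.Rw.none,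
 ⟨nat_lit 5477, nat_lit 5917, ⟨.ofNat (nat_lit 123037), .ofNat (nat_lit 264398), .ofNat (nat_lit 144377), .ofNat (nat_lit 285737), .ofNat (nat_lit 140320), .ofNat (nat_lit 275199), .ofNat (nat_lit 161677), .ofNat (nat_lit 296556)⟩, ⟨.ofNat (nat_lit 386479), .ofNat (nat_lit 441452), .ofNat (nat_lit 407818), .ofNat (nat_lit 462791), .ofNat (nat_lit 382718), .ofNat (nat_lit 435171), .ofNat (nat_lit 404075), .ofNat (nat_lit 456528)⟩⟩, [⟨nat_lit 0, nat_lit 100, nat_lit 94, nat_lit 40, nat_lit 186460430⟩, ⟨nat_lit 16, nat_lit 100, nat_lit 99, nat_lit 63, nat_lit 168323878⟩, ⟨nat_lit 4, nat_lit 100, nat_lit 96, nat_lit 54, nat_lit 460823150⟩]⟩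
noncomputable def p030_l81 : Lf2 := ⟨nat_lit 0, nat_lit 10, [nat_lit 0, nat_lit 5, nat_lit 5, nat_lit 20], true, nat_lit 240, nat_lit 268, nat_lit 0, nat_lit 304, ⟨nat_lit 0, nat_lit 0, nat_lit 1000, nat_lit 5, nat_lit 96, nat_lit 1000, nat_lit 169, nat_lit 1000, nat_lit 126379, nat_lit 302, nat_lit 86400, nat_lit 287, nat_lit 52472208, nat_lit 0, nat_lit 0, nat_lit 3473352, false, false⟩,
 nat_lit 0, nat_lit 7558, nat_lit 0, nat_lit 0, nat_lit 4399, nat_lit 0, nat_lit 0, nat_lit 0, nat_lit 0, nat_lit 0, nat_lit 0, nat_lit 0, nat_lit 0, nat_lit 0, nat_lit 192, nat_lit 1000000, nat_lit 0, nat_lit 0, [(nat_lit 9, [(nat_lit 6, nat_lit 1000)])],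
 ⟨p030_k4, nat_lit 0, nat_lit 0, nat_lit 328, nat_lit 0, nat_lit 392023, [nat_lit 4169600001, nat_lit 3411333334, nat_lit 231866666], [], [nat_lit 15978681495, nat_lit 17396776345, nat_lit 15205975125, nat_lit 16107535415, nat_lit 18031673471, nat_lit 19470103727, nat_lit 16481205172, nat_lit 17520933044], nat_lit 1271250, nat_lit 1271250, nat_lit 88400, nat_lit 490000, nat_lit 1271250, nat_lit 1271250, [nat_lit 1100000, nat_lit 1442500, nat_lit 1271250], [nat_lit 11, nat_lit 40, nat_lit 20, nat_lit 80, nat_lit 1, nat_lit 401, nat_lit 175, nat_lit 11]⟩, C1.Rw.none,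
 ⟨nat_lit 5477, nat_lit 5917, ⟨.ofNat (nat_lit 160083), .ofNat (nat_lit 285737), .ofNat (nat_lit 181423), .ofNat (nat_lit 307076), .ofNat (nat_lit 176664), .ofNat (nat_lit 296556), .ofNat (nat_lit 198021), .ofNat (nat_lit 317913)⟩, ⟨.ofNat (nat_lit 386479), .ofNat (nat_lit 441452), .ofNat (nat_lit 407818), .ofNat (nat_lit 462791), .ofNat (nat_lit 382718), .ofNat (nat_lit 435171), .ofNat (nat_lit 404075), .ofNat (nat_lit 456528)⟩⟩, [⟨nat_lit 0, nat_lit 100, nat_lit 95, nat_lit 49, nat_lit 177636199⟩, ⟨nat_lit 4, nat_lit 100, nat_lit 96, nat_lit 54, nat_lit 637499307⟩]⟩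
noncomputable def p030_l82 : Lf2 := ⟨nat_lit 0, nat_lit 10, [nat_lit 0, nat_lit 5, nat_lit 5, nat_lit 20], false, nat_lit 240, nat_lit 268, nat_lit 0, nat_lit 160, ⟨nat_lit 1000, nat_lit 0, nat_lit 0, nat_lit 0, nat_lit 0, nat_lit 0, nat_lit 0, nat_lit 0, nat_lit 0, nat_lit 0, nat_lit 0, nat_lit 0, nat_lit 0, nat_lit 0, nat_lit 0, nat_lit 0, false, false⟩,
 nat_lit 0, nat_lit 16127, nat_lit 0, nat_lit 4292, nat_lit 9387, nat_lit 9282, nat_lit 2465, nat_lit 0, nat_lit 0, nat_lit 3478, nat_lit 0, nat_lit 0, nat_lit 0, nat_lit 0, nat_lit 0, nat_lit 0, nat_lit 0, nat_lit 0, [],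
 ⟨p030_k4, nat_lit 0, nat_lit 0, nat_lit 436, nat_lit 0, nat_lit 708010, [nat_lit 4688000000, nat_lit 6250000000, nat_lit 9842000000], [], [nat_lit 14427575447, nat_lit 15834232471, nat_lit 13548511635, nat_lit 15034658864, nat_lit 16802082245, nat_lit 18951074447, nat_lit 15954217085, nat_lit 17991010024], nat_lit 1271250, nat_lit 1271250, nat_lit 490000, nat_lit 780000, nat_lit 1271250, nat_lit 1271250, [nat_lit 1100000, nat_lit 1442500, nat_lit 1271250], [nat_lit 11, nat_lit 40, nat_lit 20, nat_lit 80, nat_lit 1, nat_lit 401, nat_lit 175, nat_lit 11]⟩, ⟨p030_k10, nat_lit 0, nat_lit 0, nat_lit 215, nat_lit 0, nat_lit 0, [nat_lit 6250000000, nat_lit 7968000000, nat_lit 11872000000], [], [nat_lit 19452786750, nat_lit 21512942272, nat_lit 18694358830, nat_lit 21065541288, nat_lit 14304231120, nat_lit 16672627560, nat_lit 14042491960, nat_lit 16260708976], nat_lit 0, nat_lit 0, nat_lit 0, nat_lit 0, nat_lit 0, nat_lit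 0, [], [nat_lit 53, nat_lit 40, nat_lit 20, nat_lit 80, nat_lit 14, nat_lit 373, nat_lit 150, nat_lit 10]⟩,
 zbF0, [⟨nat_lit 16, nat_lit 96, nat_lit 100, nat_lit 54, nat_lit 1520690923⟩]⟩
noncomputable def p030_l83 : Lf2 := ⟨nat_lit 0, nat_lit 10, [nat_lit 0, nat_lit 5, nat_lit 5, nat_lit 20], false, nat_lit 240, nat_lit 268, nat_lit 160, nat_lit 320, ⟨nat_lit 1000, nat_lit 0, nat_lit 0, nat_lit 0, nat_lit 0, nat_lit 0, nat_lit 0, nat_lit 0, nat_lit 0, nat_lit 0, nat_lit 0, nat_lit 0, nat_lit 0, nat_lit 0, nat_lit 0, nat_lit 0, false, false⟩,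
 nat_lit 0, nat_lit 15057, nat_lit 0, nat_lit 0, nat_lit 8764, nat_lit 9282, nat_lit 2747, nat_lit 0, nat_lit 0, nat_lit 0, nat_lit 0, nat_lit 0, nat_lit 0, nat_lit 0, nat_lit 0, nat_lit 0, nat_lit 0, nat_lit 0, [],
 ⟨p030_k4, nat_lit 0, nat_lit 0, nat_lit 436, nat_lit 0, nat_lit 708010, [nat_lit 4688000000, nat_lit 6250000000, nat_lit 9842000000], [], [nat_lit 14839658313, nat_lit 15795257056, nat_lit 14374432504, nat_lit 15316574064, nat_lit 16718950309, nat_lit 18772450130, nat_lit 15988214880, nat_lit 17935717528], nat_lit 1271250, nat_lit 1271250, nat_lit 490000, nat_lit 780000, nat_lit 1271250, nat_lit 1271250, [nat_lit 1100000, nat_lit 1442500, nat_lit 1271250], [nat_lit 11, nat_lit 40, nat_lit 20, nat_lit 80, nat_lit 1, nat_lit 401, nat_lit 175, nat_lit 11]⟩, ⟨p030_k10, nat_lit 0, nat_lit 0, nat_lit 55, nat_lit 0, nat_lit 0, [nat_lit 6250000000, nat_lit 7968000000, nat_lit 11872000000], [], [nat_lit 4907276872,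 nat_lit 8539565632, nat_lit 4963609416, nat_lit 8387333696, nat_lit 19134268000, nat_lit 21193683872, nat_lit 18375840080, nat_lit 20315720576], nat_lit 0, nat_lit 0, nat_lit 0, nat_lit 0, nat_lit 0, nat_lit 0, [], [nat_lit 53, nat_lit 40, nat_lit 20, nat_lit 80, nat_lit 14, nat_lit 401, nat_lit 175, nat_lit 10]⟩,
 zbF0, [⟨nat_lit 16, nat_lit 100, nat_lit 99, nat_lit 63, nat_lit 1211358649⟩, ⟨nat_lit 7, nat_lit 90, nat_lit 100, nat_lit 53, nat_lit 1169746152⟩]⟩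
noncomputable def p030_l84 : Lf2 := ⟨nat_lit 0, nat_lit 10, [nat_lit 0, nat_lit 5, nat_lit 5, nat_lit 20], false, nat_lit 160, nat_lit 268, nat_lit 0, nat_lit 320, ⟨nat_lit 1000, nat_lit 0, nat_lit 0, nat_lit 0, nat_lit 0, nat_lit 0, nat_lit 0, nat_lit 0, nat_lit 0, nat_lit 0, nat_lit 0, nat_lit 0, nat_lit 0, nat_lit 0, nat_lit 0, nat_lit 0, false, false⟩,
 nat_lit 0, nat_lit 14326, nat_lit 0, nat_lit 0, nat_lit 8338, nat_lit 24476, nat_lit 2350, nat_lit 0, nat_lit 0, nat_lit 900, nat_lit 0, nat_lit 0, nat_lit 0, nat_lit 0, nat_lit 0, nat_lit 0, nat_lit 0, nat_lit 0, [],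
 ⟨p030_k4, nat_lit 0, nat_lit 0, nat_lit 330, nat_lit 0, nat_lit 559505, [nat_lit 4688000000, nat_lit 6250000000, nat_lit 9842000000], [], [nat_lit 17435238214, nat_lit 14431415892, nat_lit 29727134922, nat_lit 25744172378, nat_lit 17024642154, nat_lit 17900103813, nat_lit 19950853665, nat_lit 21391115808], nat_lit 1271250, nat_lit 1271250, nat_lit 780000, nat_lit 1762500, nat_lit 1271250, nat_lit 1271250, [nat_lit 1100000, nat_lit 1442500, nat_lit 1271250], [nat_lit 11, nat_lit 40, nat_lit 20, nat_lit 80, nat_lit 1, nat_lit 428, nat_lit 200, nat_lit 12]⟩, ⟨p030_k10, nat_lit 0, nat_lit 0, nat_lit 184, nat_lit 0, nat_lit 0, [nat_lit 6250000000, nat_lit 7968000000, nat_lit 11872000000], [], [nat_lit 28330633428, nat_lit 30684210004, nat_lit 32856529204, nat_lit 34387838220, nat_lit 21108337524, nat_lit 21801897504, nat_lit 23974216704, nat_lit 25505525720], nat_lit 0, nat_lit 0, nat_lit 0, nat_lit 0, nat_lit 0, nat_lit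 0, [], [nat_lit 53, nat_lit 40, nat_lit 20, nat_lit 80, nat_lit 14, nat_lit 428, nat_lit 200, nat_lit 11]⟩,
 zbF0, [⟨nat_lit 4, nat_lit 100, nat_lit 96, nat_lit 54, nat_lit 641290684⟩, ⟨nat_lit 7, nat_lit 88, nat_lit 100, nat_lit 53, nat_lit 88130108⟩]⟩
noncomputable def p030_l85 : Lf2 := ⟨nat_lit 0, nat_lit 10, [nat_lit 0, nat_lit 5, nat_lit 5, nat_lit 20], false, nat_lit 160, nat_lit 268, nat_lit 0, nat_lit 304, ⟨nat_lit 1000, nat_lit 0, nat_lit 0, nat_lit 0, nat_lit 0, nat_lit 0, nat_lit 0, nat_lit 0, nat_lit 0, nat_lit 0, nat_lit 0, nat_lit 0, nat_lit 0, nat_lit 0, nat_lit 0, nat_lit 0, false, false⟩,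
 nat_lit 0, nat_lit 14514, nat_lit 0, nat_lit 0, nat_lit 8448, nat_lit 16908, nat_lit 2327, nat_lit 0, nat_lit 0, nat_lit 2073, nat_lit 0, nat_lit 0, nat_lit 0, nat_lit 0, nat_lit 0, nat_lit 0, nat_lit 0, nat_lit 0, [],
 ⟨p030_k4, nat_lit 0, nat_lit 0, nat_lit 430, nat_lit 0, nat_lit 708010, [nat_lit 4688000000, nat_lit 6250000000, nat_lit 9842000000], [], [nat_lit 17281505669, nat_lit 15469642799, nat_lit 29683717637, nat_lit 25648209413, nat_lit 17227291031, nat_lit 17908745319, nat_lit 19953407183, nat_lit 21404471568], nat_lit 1271250, nat_lit 1271250, nat_lit 780000, nat_lit 1762500, nat_lit 1271250, nat_lit 1271250, [nat_lit 1100000, nat_lit 1442500, nat_lit 1271250], [nat_lit 11, nat_lit 40, nat_lit 20, nat_lit 80, nat_lit 1, nat_lit 428, nat_lit 200, nat_lit 12]⟩, ⟨p030_k32, nat_lit 0, nat_lit 0, nat_lit 191, nat_lit 0, nat_lit 0, [nat_lit 6250000000, nat_lit 7968000000, nat_lit 11872000000], [], [nat_lit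 23776877807, nat_lit 25593308015, nat_lit 27330160135, nat_lit 28561276863, nat_lit 18434746443, nat_lit 19160703967, nat_lit 21515459628, nat_lit 22886740087], nat_lit 0, nat_lit 0, nat_lit 0, nat_lit 0, nat_lit 0, nat_lit 0, [], [nat_lit 53, nat_lit 40, nat_lit 20, nat_lit 80, nat_lit 14, nat_lit 428, nat_lit 200, nat_lit 11]⟩,
 zbF0, [⟨nat_lit 4, nat_lit 100, nat_lit 96, nat_lit 54, nat_lit 536781381⟩, ⟨nat_lit 7, nat_lit 93, nat_lit 100, nat_lit 53, nat_lit 143009053⟩]⟩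
noncomputable def b_VL_600_500_5_14 : St := ⟨true, nat_lit 1, nat_lit 0, nat_lit 1, nat_lit 40, nat_lit 260, nat_lit 280, nat_lit 200, nat_lit 240, nat_lit 4, nat_lit 240, nat_lit 20, nat_lit 40, nat_lit 160, nat_lit 288, nat_lit 0, nat_lit 320, nat_lit 0, nat_lit 40, nat_lit 0, nat_lit 0, nat_lit 0, nat_lit 0⟩
theorem d_VL_600_500_5_14 (h : EB TB.env) : Dead b_VL_600_500_5_14 := chkB_sound0 h (T :=
(.trZ (nat_lit 0) (nat_lit 100) (nat_lit 95) (nat_lit 30) (nat_lit 8) (.trX (nat_lit 16) (nat_lit 100) (nat_lit 99) (nat_lit 63) (nat_lit 268) (.spl (nat_lit 2) (nat_lit 120)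
(.spl (nat_lit 4) (nat_lit 240)
(.spl (nat_lit 2) (nat_lit 80)
(.spl (nat_lit 4) (nat_lit 200)
(.spl (nat_lit 0) (nat_lit 270)
(.spl (nat_lit 6) (nat_lit 20)
(.spl (nat_lit 4) (nat_lit 180)
(.leaf p030_l68)
(.leaf p030_l69))
(.leaf p030_l70))
(.trZ (nat_lit 0) (nat_lit 100) (nat_lit 94) (nat_lit 35) (nat_lit 12) (.spl (nat_lit 6) (nat_lit 20)
(.spl (nat_lit 0) (nat_lit 275)
(.leaf p030_l71)
(.leaf p030_l72))
(.leaf p030_l73))))
(.spl (nat_lit 2) (nat_lit 40)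
(.spl (nat_lit 6) (nat_lit 20)
(.spl (nat_lit 0) (nat_lit 270)
(.leaf p030_l74)
(.trZ (nat_lit 0) (nat_lit 100) (nat_lit 94) (nat_lit 35) (nat_lit 12) (.leaf p030_l75)))
(.leaf p030_l76))
(.leaf p030_l77)))
(.spl (nat_lit 5) (nat_lit 160)
(.leaf p030_l78)
(.leaf p030_l79)))
(.spl (nat_lit 2) (nat_lit 80)
(.spl (nat_lit 1) (nat_lit 220)
(.leaf p030_l80)
(.trZ (nat_lit 0) (nat_lit 100) (nat_lit 96) (nat_lit 40) (nat_lit 16) (.trX (nat_lit 19) (nat_lit 100) (nat_lit 86) (nat_lit 60) (nat_lit 304) (.leaf p030_l81))))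
(.spl (nat_lit 5) (nat_lit 160)
(.leaf p030_l82)
(.leaf p030_l83))))
(.spl (nat_lit 1) (nat_lit 220)
(.leaf p030_l84)
(.trX (nat_lit 19) (nat_lit 100) (nat_lit 86) (nat_lit 60) (nat_lit 304) (.leaf p030_l85))))))) (by decide +kernel)
noncomputable def p030_l86 : Lf2 := ⟨nat_lit 0, nat_lit 10, [nat_lit 0, nat_lit 5, nat_lit 5, nat_lit 20], false, nat_lit 0, nat_lit 288, nat_lit 0, nat_lit 320, ⟨nat_lit 1000, nat_lit 0, nat_lit 0, nat_lit 0, nat_lit 0, nat_lit 0, nat_lit 0, nat_lit 0, nat_lit 0, nat_lit 0, nat_lit 0, nat_lit 0, nat_lit 0, nat_lit 0, nat_lit 0, nat_lit 0, false, false⟩,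
 nat_lit 0, nat_lit 13960, nat_lit 0, nat_lit 0, nat_lit 7390, nat_lit 9377, nat_lit 1669, nat_lit 0, nat_lit 0, nat_lit 2413, nat_lit 0, nat_lit 0, nat_lit 0, nat_lit 0, nat_lit 0, nat_lit 0, nat_lit 0, nat_lit 0, [],
 ⟨p030_k13, nat_lit 0, nat_lit 0, nat_lit 514, nat_lit 0, nat_lit 575886, [nat_lit 4688000000, nat_lit 6250000000, nat_lit 11872000000], [], [nat_lit 30371619115, nat_lit 30899913095, nat_lit 37790341915, nat_lit 38338732395, nat_lit 27905703208, nat_lit 28336123613, nat_lit 32920825464, nat_lit 33178056132], nat_lit 1271250, nat_lit 1271250, nat_lit 1271250, nat_lit 1271250, nat_lit 0, nat_lit 2034000, [nat_lit 1100000, nat_lit 1442500, nat_lit 1271250], [nat_lit 48, nat_lit 40, nat_lit 20, nat_lit 80, nat_lit 12, nat_lit 483, nat_lit 250, nat_lit 12]⟩, ⟨p030_k10, nat_lit 0, nat_lit 0, nat_lit 255, nat_lit 0, nat_lit 0, [nat_lit 6250000000, nat_lit 7968000000, nat_lit 11872000000], [], [nat_lit 25198716233,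 nat_lit 27063500397, nat_lit 40879239624, nat_lit 42293361584, nat_lit 24256761401, nat_lit 25306012676, nat_lit 35568761548, nat_lit 36121722272], nat_lit 0, nat_lit 0, nat_lit 0, nat_lit 0, nat_lit 0, nat_lit 0, [], [nat_lit 53, nat_lit 40, nat_lit 20, nat_lit 80, nat_lit 14, nat_lit 483, nat_lit 250, nat_lit 12]⟩,
 zbF0, [⟨nat_lit 4, nat_lit 99, nat_lit 100, nat_lit 54, nat_lit 163137465⟩, ⟨nat_lit 19, nat_lit 100, nat_lit 90, nat_lit 53, nat_lit 168023739⟩]⟩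
noncomputable def p030_l87 : Lf2 := ⟨nat_lit 0, nat_lit 10, [nat_lit 0, nat_lit 5, nat_lit 5, nat_lit 20], false, nat_lit 0, nat_lit 268, nat_lit 0, nat_lit 320, ⟨nat_lit 1000, nat_lit 0, nat_lit 0, nat_lit 0, nat_lit 0, nat_lit 0, nat_lit 0, nat_lit 0, nat_lit 0, nat_lit 0, nat_lit 0, nat_lit 0, nat_lit 0, nat_lit 0, nat_lit 0, nat_lit 0, false, false⟩,
 nat_lit 0, nat_lit 12099, nat_lit 0, nat_lit 0, nat_lit 7042, nat_lit 8430, nat_lit 1973, nat_lit 0, nat_lit 0, nat_lit 2113, nat_lit 0, nat_lit 0, nat_lit 0, nat_lit 0, nat_lit 0, nat_lit 0, nat_lit 0, nat_lit 0, [],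
 ⟨p030_k4, nat_lit 0, nat_lit 0, nat_lit 502, nat_lit 0, nat_lit 708010, [nat_lit 4688000000, nat_lit 6250000000, nat_lit 9842000000], [], [nat_lit 27450221592, nat_lit 28008951292, nat_lit 37446064568, nat_lit 38445121872, nat_lit 25466851195, nat_lit 25821208091, nat_lit 32017051176, nat_lit 32688428619], nat_lit 1271250, nat_lit 1271250, nat_lit 1271250, nat_lit 1271250, nat_lit 0, nat_lit 1892750, [nat_lit 1100000, nat_lit 1442500, nat_lit 1271250], [nat_lit 11, nat_lit 40, nat_lit 20, nat_lit 80, nat_lit 1, nat_lit 483, nat_lit 250, nat_lit 14]⟩, ⟨p030_k10, nat_lit 0, nat_lit 0, nat_lit 255, nat_lit 0, nat_lit 0, [nat_lit 6250000000, nat_lit 7968000000, nat_lit 11872000000], [], [nat_lit 26770054165, nat_lit 28114310485, nat_lit 39330199445, nat_lit 39922354605, nat_lit 25897389965, nat_lit 26657944400, nat_lit 34477321320, nat_lit 35069476480], nat_lit 0, nat_lit 0, nat_lit 0, nat_lit 0, nat_lit 0, nat_lit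 0, [], [nat_lit 53, nat_lit 40, nat_lit 20, nat_lit 80, nat_lit 14, nat_lit 483, nat_lit 250, nat_lit 12]⟩,
 zbF0, [⟨nat_lit 4, nat_lit 100, nat_lit 96, nat_lit 54, nat_lit 126173270⟩, ⟨nat_lit 19, nat_lit 100, nat_lit 90, nat_lit 53, nat_lit 206899830⟩]⟩
noncomputable def b_VL_600_500_5_15 : St := ⟨true, nat_lit 1, nat_lit 0, nat_lit 1, nat_lit 40, nat_lit 240, nat_lit 280, nat_lit 200, nat_lit 240, nat_lit 240, nat_lit 400, nat_lit 20, nat_lit 40, nat_lit 0, nat_lit 288, nat_lit 0, nat_lit 320, nat_lit 0, nat_lit 40, nat_lit 0, nat_lit 0, nat_lit 0, nat_lit 0⟩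
theorem d_VL_600_500_5_15 (h : EB TB.env) : Dead b_VL_600_500_5_15 := chkB_sound0 h (T :=
(.spl (nat_lit 0) (nat_lit 260)
(.leaf p030_l86)
(.trX (nat_lit 16) (nat_lit 100) (nat_lit 99) (nat_lit 63) (nat_lit 268) (.leaf p030_l87)))) (by decide +kernel)
noncomputable def p030_l88 : Lf2 := ⟨nat_lit 0, nat_lit 2, [nat_lit 10, nat_lit 5, nat_lit 5, nat_lit 20], true, nat_lit 0, nat_lit 80, nat_lit 0, nat_lit 320, ⟨nat_lit 0, nat_lit 0, nat_lit 1000, nat_lit 5, nat_lit 76, nat_lit 1000, nat_lit 15, nat_lit 1000, nat_lit 67, nat_lit 213, nat_lit 54150, nat_lit 272, nat_lit 64678509, nat_lit 0, nat_lit 0, nat_lit 752726, false, false⟩,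
 nat_lit 0, nat_lit 8228, nat_lit 0, nat_lit 0, nat_lit 4356, nat_lit 0, nat_lit 0, nat_lit 0, nat_lit 0, nat_lit 0, nat_lit 0, nat_lit 0, nat_lit 0, nat_lit 0, nat_lit 80, nat_lit 1000000, nat_lit 0, nat_lit 0, [(nat_lit 6, [(nat_lit 6, nat_lit 1000)])],
 ⟨p030_k15, nat_lit 0, nat_lit 0, nat_lit 278, nat_lit 0, nat_lit 143024, [nat_lit 2257066667, nat_lit 1408000000, nat_lit 211200000], [], [nat_lit 13554748727, nat_lit 14597963592, nat_lit 14917447451, nat_lit 13832180543, nat_lit 14945670082, nat_lit 13861953039, nat_lit 16794613755, nat_lit 15739682031], nat_lit 1271250, nat_lit 1271250, nat_lit 21650, nat_lit 490000, nat_lit 0, nat_lit 490000, [nat_lit 1100000, nat_lit 1442500, nat_lit 1271250], [nat_lit 9, nat_lit 40, nat_lit 20, nat_lit 80, nat_lit 2, nat_lit 249, nat_lit 40, nat_lit 9]⟩, C1.Rw.none,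
 ⟨nat_lit 6123, nat_lit 6325, ⟨.ofNat (nat_lit 96904), .ofNat (nat_lit 253206), .ofNat (nat_lit 118272), .ofNat (nat_lit 274574), .ofNat (nat_lit 106133), .ofNat (nat_lit 258856), .ofNat (nat_lit 127481), .ofNat (nat_lit 280205)⟩, ⟨.negSucc (nat_lit 103633), .ofNat (nat_lit 60895), .negSucc (nat_lit 82265), .ofNat (nat_lit 82263), .negSucc (nat_lit 94037), .ofNat (nat_lit 66723), .negSucc (nat_lit 72689), .ofNat (nat_lit 88071)⟩⟩, []⟩
noncomputable def p030_l89 : Lf2 := ⟨nat_lit 0, nat_lit 2, [nat_lit 10, nat_lit 5, nat_lit 5, nat_lit 20], true, nat_lit 0, nat_lit 40, nat_lit 0, nat_lit 304, ⟨nat_lit 0, nat_lit 0, nat_lit 1000, nat_lit 5, nat_lit 84, nat_lit 0, nat_lit 0, nat_lit 0, nat_lit 3267, nat_lit 201, nat_lit 66150, nat_lit 278, nat_lit 64182001, nat_lit 0, nat_lit 0, nat_lit 872165, false, false⟩,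
 nat_lit 0, nat_lit 8675, nat_lit 0, nat_lit 0, nat_lit 4592, nat_lit 0, nat_lit 0, nat_lit 0, nat_lit 0, nat_lit 0, nat_lit 0, nat_lit 0, nat_lit 0, nat_lit 0, nat_lit 80, nat_lit 1000000, nat_lit 0, nat_lit 0, [(nat_lit 6, [(nat_lit 6, nat_lit 1000)])],
 ⟨p030_k15, nat_lit 0, nat_lit 0, nat_lit 282, nat_lit 0, nat_lit 182353, [nat_lit 2257066667, nat_lit 1408000000, nat_lit 211200000], [], [nat_lit 13536322394, nat_lit 14612189592, nat_lit 14552252555, nat_lit 13408187899, nat_lit 13457275135, nat_lit 12539933532, nat_lit 15153094187, nat_lit 14025018875], nat_lit 1271250, nat_lit 1271250, nat_lit 43600, nat_lit 490000, nat_lit 0, nat_lit 230001, [nat_lit 1100000, nat_lit 1442500, nat_lit 1271250], [nat_lit 9, nat_lit 40, nat_lit 20, nat_lit 80, nat_lit 2, nat_lit 238, nat_lit 30, nat_lit 8]⟩, C1.Rw.none,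
 ⟨nat_lit 6123, nat_lit 6325, ⟨.ofNat (nat_lit 126498), .ofNat (nat_lit 274574), .ofNat (nat_lit 137182), .ofNat (nat_lit 285258), .ofNat (nat_lit 135519), .ofNat (nat_lit 280205), .ofNat (nat_lit 146193), .ofNat (nat_lit 290879)⟩, ⟨.negSucc (nat_lit 103633), .negSucc (nat_lit 21368), .negSucc (nat_lit 82265), .negSucc (nat_lit 0), .negSucc (nat_lit 94037), .negSucc (nat_lit 13656), .negSucc (nat_lit 72689), .ofNat (nat_lit 7691)⟩⟩, []⟩
noncomputable def p030_l90 : Lf2 := ⟨nat_lit 0, nat_lit 2, [nat_lit 10, nat_lit 5, nat_lit 5, nat_lit 20], true, nat_lit 40, nat_lit 80, nat_lit 0, nat_lit 304, ⟨nat_lit 0, nat_lit 0, nat_lit 1000, nat_lit 5, nat_lit 84, nat_lit 0, nat_lit 15, nat_lit 313, nat_lit 1667, nat_lit 225, nat_lit 66150, nat_lit 278, nat_lit 64182001, nat_lit 0, nat_lit 0, nat_lit 872165, false, false⟩,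
 nat_lit 0, nat_lit 7827, nat_lit 0, nat_lit 0, nat_lit 4143, nat_lit 0, nat_lit 411, nat_lit 0, nat_lit 0, nat_lit 0, nat_lit 0, nat_lit 0, nat_lit 0, nat_lit 0, nat_lit 80, nat_lit 1000000, nat_lit 0, nat_lit 0, [(nat_lit 6, [(nat_lit 6, nat_lit 1000)])],
 ⟨p030_k15, nat_lit 0, nat_lit 0, nat_lit 259, nat_lit 0, nat_lit 182353, [nat_lit 2257066667, nat_lit 1408000000, nat_lit 211200000], [], [nat_lit 11154369666, nat_lit 11835570323, nat_lit 9954638671, nat_lit 10613407196, nat_lit 10291897824, nat_lit 10968377838, nat_lit 9281219507, nat_lit 9920344170], nat_lit 1271250, nat_lit 1271250, nat_lit 43600, nat_lit 490000, nat_lit 230001, nat_lit 490000, [nat_lit 1100000, nat_lit 1442500, nat_lit 1271250], [nat_lit 9, nat_lit 40, nat_lit 20, nat_lit 80, nat_lit 2, nat_lit 249, nat_lit 40, nat_lit 9]⟩, C1.Rw.none,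
 ⟨nat_lit 6123, nat_lit 6325, ⟨.ofNat (nat_lit 126498), .ofNat (nat_lit 274574), .ofNat (nat_lit 137182), .ofNat (nat_lit 285258), .ofNat (nat_lit 135519), .ofNat (nat_lit 280205), .ofNat (nat_lit 146193), .ofNat (nat_lit 290879)⟩, ⟨.negSucc (nat_lit 21368), .ofNat (nat_lit 60895), .negSucc (nat_lit 0), .ofNat (nat_lit 82263), .negSucc (nat_lit 13656), .ofNat (nat_lit 66723), .ofNat (nat_lit 7691), .ofNat (nat_lit 88071)⟩⟩, [⟨nat_lit 0, nat_lit 100, nat_lit 98, nat_lit 40, nat_lit 183539632⟩]⟩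
noncomputable def p030_l91 : Lf2 := ⟨nat_lit 0, nat_lit 2, [nat_lit 10, nat_lit 5, nat_lit 5, nat_lit 20], true, nat_lit 0, nat_lit 20, nat_lit 0, nat_lit 296, ⟨nat_lit 0, nat_lit 0, nat_lit 1000, nat_lit 5, nat_lit 89, nat_lit 0, nat_lit 0, nat_lit 0, nat_lit 3750, nat_lit 200, nat_lit 74817, nat_lit 282, nat_lit 63839889, nat_lit 0, nat_lit 0, nat_lit 950410, false, false⟩,
 nat_lit 0, nat_lit 8729, nat_lit 0, nat_lit 0, nat_lit 4621, nat_lit 0, nat_lit 0, nat_lit 0, nat_lit 0, nat_lit 0, nat_lit 0, nat_lit 0, nat_lit 0, nat_lit 0, nat_lit 80, nat_lit 1000000, nat_lit 0, nat_lit 0, [(nat_lit 6, [(nat_lit 6, nat_lit 1000)])],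
 ⟨p030_k15, nat_lit 0, nat_lit 0, nat_lit 281, nat_lit 0, nat_lit 200628, [nat_lit 2257066667, nat_lit 1408000000, nat_lit 211200000], [], [nat_lit 13161828672, nat_lit 13702147171, nat_lit 14507376911, nat_lit 13931732010, nat_lit 13115478109, nat_lit 12614935083, nat_lit 14722486161, nat_lit 14150863840], nat_lit 1271250, nat_lit 1271250, nat_lit 65850, nat_lit 490000, nat_lit 0, nat_lit 111251, [nat_lit 1100000, nat_lit 1442500, nat_lit 1271250], [nat_lit 9, nat_lit 40, nat_lit 20, nat_lit 80, nat_lit 2, nat_lit 232, nat_lit 25, nat_lit 8]⟩, C1.Rw.none,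
 ⟨nat_lit 6224, nat_lit 6325, ⟨.ofNat (nat_lit 145408), .ofNat (nat_lit 285258), .ofNat (nat_lit 156092), .ofNat (nat_lit 295942), .ofNat (nat_lit 149840), .ofNat (nat_lit 288080), .ofNat (nat_lit 160519), .ofNat (nat_lit 298759)⟩, ⟨.negSucc (nat_lit 103633), .negSucc (nat_lit 62500), .negSucc (nat_lit 82265), .negSucc (nat_lit 41133), .negSucc (nat_lit 98799), .negSucc (nat_lit 58140), .negSucc (nat_lit 77442), .negSucc (nat_lit 36783)⟩⟩, []⟩
noncomputable def p030_l92 : Lf2 := ⟨nat_lit 0, nat_lit 2, [nat_lit 10, nat_lit 5, nat_lit 5, nat_lit 20], true, nat_lit 20, nat_lit 40, nat_lit 0, nat_lit 296, ⟨nat_lit 0, nat_lit 0, nat_lit 1000, nat_lit 5, nat_lit 89, nat_lit 0, nat_lit 0, nat_lit 0, nat_lit 1350, nat_lit 206, nat_lit 74817, nat_lit 282, nat_lit 63859429, nat_lit 0, nat_lit 0, nat_lit 946022, false, false⟩,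
 nat_lit 0, nat_lit 9855, nat_lit 0, nat_lit 0, nat_lit 5217, nat_lit 0, nat_lit 0, nat_lit 0, nat_lit 0, nat_lit 0, nat_lit 0, nat_lit 0, nat_lit 0, nat_lit 0, nat_lit 80, nat_lit 1000000, nat_lit 0, nat_lit 0, [(nat_lit 6, [(nat_lit 6, nat_lit 1000)])],
 ⟨p030_k15, nat_lit 0, nat_lit 0, nat_lit 268, nat_lit 0, nat_lit 191085, [nat_lit 2257066667, nat_lit 1408000000, nat_lit 211200000], [], [nat_lit 12741654039, nat_lit 13088153191, nat_lit 13770563305, nat_lit 13383354435, nat_lit 12482751228, nat_lit 12088758902, nat_lit 14142506687, nat_lit 13758022656], nat_lit 1271250, nat_lit 1271250, nat_lit 65850, nat_lit 490000, nat_lit 111251, nat_lit 230001, [nat_lit 1100000, nat_lit 1442500, nat_lit 1271250], [nat_lit 9, nat_lit 40, nat_lit 20, nat_lit 80, nat_lit 2, nat_lit 238, nat_lit 30, nat_lit 8]⟩, C1.Rw.none,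
 ⟨nat_lit 6264, nat_lit 6325, ⟨.ofNat (nat_lit 145408), .ofNat (nat_lit 285258), .ofNat (nat_lit 156092), .ofNat (nat_lit 295942), .ofNat (nat_lit 148073), .ofNat (nat_lit 286954), .ofNat (nat_lit 158753), .ofNat (nat_lit 297635)⟩, ⟨.negSucc (nat_lit 62500), .negSucc (nat_lit 21368), .negSucc (nat_lit 41133), .negSucc (nat_lit 0), .negSucc (nat_lit 59876), .negSucc (nat_lit 19029), .negSucc (nat_lit 38515), .ofNat (nat_lit 2331)⟩⟩, []⟩
noncomputable def p030_l93 : Lf2 := ⟨nat_lit 0, nat_lit 2, [nat_lit 10, nat_lit 5, nat_lit 5, nat_lit 20], true, nat_lit 20, nat_lit 40, nat_lit 0, nat_lit 296, ⟨nat_lit 0, nat_lit 0, nat_lit 1000, nat_lit 5, nat_lit 89, nat_lit 0, nat_lit 0, nat_lit 0, nat_lit 1067, nat_lit 207, nat_lit 74817, nat_lit 282, nat_lit 63810344, nat_lit 0, nat_lit 0, nat_lit 957027, false, false⟩,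
 nat_lit 0, nat_lit 9172, nat_lit 0, nat_lit 0, nat_lit 4927, nat_lit 0, nat_lit 1173, nat_lit 0, nat_lit 0, nat_lit 0, nat_lit 0, nat_lit 0, nat_lit 0, nat_lit 0, nat_lit 80, nat_lit 1000000, nat_lit 0, nat_lit 0, [(nat_lit 6, [(nat_lit 6, nat_lit 1000)])],
 ⟨p030_k33, nat_lit 0, nat_lit 0, nat_lit 267, nat_lit 0, nat_lit 197331, [nat_lit 2257066667, nat_lit 1408000000, nat_lit 211200000], [], [nat_lit 12733155410, nat_lit 12956343080, nat_lit 13604137349, nat_lit 13360347418, nat_lit 12313599455, nat_lit 12065538604, nat_lit 13984382763, nat_lit 13742308414], nat_lit 1271250, nat_lit 1271250, nat_lit 65850, nat_lit 490000, nat_lit 111251, nat_lit 230001, [nat_lit 1100000, nat_lit 1442500, nat_lit 1271250], [nat_lit 9, nat_lit 40, nat_lit 20, nat_lit 80, nat_lit 2, nat_lit 238, nat_lit 30, nat_lit 8]⟩, C1.Rw.none,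
 ⟨nat_lit 6224, nat_lit 6265, ⟨.ofNat (nat_lit 148073), .ofNat (nat_lit 286954), .ofNat (nat_lit 158753), .ofNat (nat_lit 297635), .ofNat (nat_lit 149840), .ofNat (nat_lit 288080), .ofNat (nat_lit 160519), .ofNat (nat_lit 298759)⟩, ⟨.negSucc (nat_lit 59876), .negSucc (nat_lit 19029), .negSucc (nat_lit 38515), .ofNat (nat_lit 2331), .negSucc (nat_lit 58140), .negSucc (nat_lit 17481), .negSucc (nat_lit 36783), .ofNat (nat_lit 3874)⟩⟩, []⟩
noncomputable def p030_l94 : Lf2 := ⟨nat_lit 0, nat_lit 2, [nat_lit 10, nat_lit 5, nat_lit 5, nat_lit 20], true, nat_lit 40, nat_lit 80, nat_lit 0, nat_lit 296, ⟨nat_lit 0, nat_lit 0, nat_lit 1000, nat_lit 5, nat_lit 89, nat_lit 0, nat_lit 15, nat_lit 274, nat_lit 1667, nat_lit 225, nat_lit 74817, nat_lit 282, nat_lit 63839889, nat_lit 0, nat_lit 0, nat_lit 950410, false, false⟩,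
 nat_lit 0, nat_lit 8093, nat_lit 0, nat_lit 0, nat_lit 4284, nat_lit 0, nat_lit 462, nat_lit 0, nat_lit 0, nat_lit 0, nat_lit 0, nat_lit 0, nat_lit 0, nat_lit 0, nat_lit 80, nat_lit 1000000, nat_lit 0, nat_lit 0, [(nat_lit 6, [(nat_lit 6, nat_lit 1000)])],
 ⟨p030_k15, nat_lit 0, nat_lit 0, nat_lit 259, nat_lit 0, nat_lit 200628, [nat_lit 2257066667, nat_lit 1408000000, nat_lit 211200000], [], [nat_lit 10777061127, nat_lit 11130222368, nat_lit 9699714619, nat_lit 10034504469, nat_lit 9893883253, nat_lit 10237236893, nat_lit 8978616587, nat_lit 9303370609], nat_lit 1271250, nat_lit 1271250, nat_lit 65850, nat_lit 490000, nat_lit 230001, nat_lit 490000, [nat_lit 1100000, nat_lit 1442500, nat_lit 1271250], [nat_lit 9, nat_lit 40, nat_lit 20, nat_lit 80, nat_lit 2, nat_lit 249, nat_lit 40, nat_lit 9]⟩, C1.Rw.none,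
 ⟨nat_lit 6224, nat_lit 6325, ⟨.ofNat (nat_lit 145408), .ofNat (nat_lit 285258), .ofNat (nat_lit 156092), .ofNat (nat_lit 295942), .ofNat (nat_lit 149840), .ofNat (nat_lit 288080), .ofNat (nat_lit 160519), .ofNat (nat_lit 298759)⟩, ⟨.negSucc (nat_lit 21368), .ofNat (nat_lit 60895), .negSucc (nat_lit 0), .ofNat (nat_lit 82263), .negSucc (nat_lit 17481), .ofNat (nat_lit 63835), .ofNat (nat_lit 3874), .ofNat (nat_lit 85192)⟩⟩, [⟨nat_lit 0, nat_lit 100, nat_lit 99, nat_lit 42, nat_lit 183126481⟩]⟩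
noncomputable def p030_l95 : Lf2 := ⟨nat_lit 0, nat_lit 2, [nat_lit 10, nat_lit 5, nat_lit 5, nat_lit 20], true, nat_lit 0, nat_lit 40, nat_lit 0, nat_lit 296, ⟨nat_lit 0, nat_lit 0, nat_lit 1000, nat_lit 5, nat_lit 90, nat_lit 0, nat_lit 1, nat_lit 0, nat_lit 3267, nat_lit 201, nat_lit 77067, nat_lit 283, nat_lit 63741576, nat_lit 0, nat_lit 0, nat_lit 972345, false, false⟩,
 nat_lit 0, nat_lit 8201, nat_lit 0, nat_lit 0, nat_lit 4448, nat_lit 0, nat_lit 931, nat_lit 0, nat_lit 0, nat_lit 0, nat_lit 0, nat_lit 0, nat_lit 0, nat_lit 0, nat_lit 80, nat_lit 1000000, nat_lit 0, nat_lit 0, [(nat_lit 6, [(nat_lit 6, nat_lit 1000)])],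
 ⟨p030_k16, nat_lit 0, nat_lit 0, nat_lit 291, nat_lit 0, nat_lit 219176, [nat_lit 2257066667, nat_lit 1408000000, nat_lit 211200000], [], [nat_lit 13431464693, nat_lit 13960082960, nat_lit 13842770557, nat_lit 13288676525, nat_lit 12782667044, nat_lit 12222805735, nat_lit 14461364733, nat_lit 13915014669], nat_lit 1271250, nat_lit 1271250, nat_lit 65850, nat_lit 490000, nat_lit 0, nat_lit 230001, [nat_lit 1100000, nat_lit 1442500, nat_lit 1271250], [nat_lit 9, nat_lit 40, nat_lit 20, nat_lit 80, nat_lit 2, nat_lit 238, nat_lit 30, nat_lit 8]⟩, C1.Rw.none,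
 ⟨nat_lit 6123, nat_lit 6225, ⟨.ofNat (nat_lit 149840), .ofNat (nat_lit 288080), .ofNat (nat_lit 160519), .ofNat (nat_lit 298759), .ofNat (nat_lit 154231), .ofNat (nat_lit 290879), .ofNat (nat_lit 164905), .ofNat (nat_lit 301553)⟩, ⟨.negSucc (nat_lit 98799), .negSucc (nat_lit 17481), .negSucc (nat_lit 77442), .ofNat (nat_lit 3874), .negSucc (nat_lit 94037), .negSucc (nat_lit 13656), .negSucc (nat_lit 72689), .ofNat (nat_lit 7691)⟩⟩, []⟩
noncomputable def p030_l96 : Lf2 := ⟨nat_lit 0, nat_lit 2, [nat_lit 10, nat_lit 5, nat_lit 5, nat_lit 20], true, nat_lit 40, nat_lit 80, nat_lit 0, nat_lit 296, ⟨nat_lit 0, nat_lit 0, nat_lit 1000, nat_lit 5, nat_lit 90, nat_lit 0, nat_lit 16, nat_lit 339, nat_lit 2017, nat_lit 226, nat_lit 77067, nat_lit 283, nat_lit 63741576, nat_lit 0, nat_lit 0, nat_lit 972345, false, false⟩,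
 nat_lit 0, nat_lit 7629, nat_lit 0, nat_lit 0, nat_lit 4138, nat_lit 0, nat_lit 788, nat_lit 0, nat_lit 0, nat_lit 0, nat_lit 0, nat_lit 0, nat_lit 0, nat_lit 0, nat_lit 80, nat_lit 1000000, nat_lit 0, nat_lit 0, [(nat_lit 6, [(nat_lit 6, nat_lit 1000)])],
 ⟨p030_k16, nat_lit 0, nat_lit 0, nat_lit 258, nat_lit 0, nat_lit 219176, [nat_lit 2257066667, nat_lit 1408000000, nat_lit 211200000], [], [nat_lit 11147601610, nat_lit 11494755419, nat_lit 10132808606, nat_lit 10462001181, nat_lit 10309467474, nat_lit 10647025922, nat_lit 9451265836, nat_lit 9770644065], nat_lit 1271250, nat_lit 1271250, nat_lit 65850, nat_lit 490000, nat_lit 230001, nat_lit 490000, [nat_lit 1100000, nat_lit 1442500, nat_lit 1271250], [nat_lit 9, nat_lit 40, nat_lit 20, nat_lit 80, nat_lit 2, nat_lit 249, nat_lit 40, nat_lit 9]⟩, C1.Rw.none,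
 ⟨nat_lit 6123, nat_lit 6225, ⟨.ofNat (nat_lit 149840), .ofNat (nat_lit 288080), .ofNat (nat_lit 160519), .ofNat (nat_lit 298759), .ofNat (nat_lit 154231), .ofNat (nat_lit 290879), .ofNat (nat_lit 164905), .ofNat (nat_lit 301553)⟩, ⟨.negSucc (nat_lit 17481), .ofNat (nat_lit 63835), .ofNat (nat_lit 3874), .ofNat (nat_lit 85192), .negSucc (nat_lit 13656), .ofNat (nat_lit 66723), .ofNat (nat_lit 7691), .ofNat (nat_lit 88071)⟩⟩, [⟨nat_lit 0, nat_lit 100, nat_lit 99, nat_lit 45, nat_lit 176885573⟩]⟩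
noncomputable def p030_l97 : Lf2 := ⟨nat_lit 0, nat_lit 4, [nat_lit 38, nat_lit 5, nat_lit 5, nat_lit 20], true, nat_lit 0, nat_lit 40, nat_lit 0, nat_lit 320, ⟨nat_lit 0, nat_lit 0, nat_lit 1000, nat_lit 5, nat_lit 80, nat_lit 0, nat_lit 0, nat_lit 0, nat_lit 3267, nat_lit 201, nat_lit 60000, nat_lit 275, nat_lit 64419784, nat_lit 0, nat_lit 0, nat_lit 815893, false, false⟩,
 nat_lit 0, nat_lit 8435, nat_lit 0, nat_lit 0, nat_lit 4465, nat_lit 0, nat_lit 0, nat_lit 0, nat_lit 0, nat_lit 0, nat_lit 0, nat_lit 0, nat_lit 0, nat_lit 0, nat_lit 80, nat_lit 1000000, nat_lit 0, nat_lit 0, [(nat_lit 6, [(nat_lit 6, nat_lit 1000)])],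
 ⟨p030_k20, nat_lit 0, nat_lit 0, nat_lit 278, nat_lit 0, nat_lit 136201, [nat_lit 2257066667, nat_lit 1408000000, nat_lit 211200000], [], [nat_lit 13739254596, nat_lit 14797159130, nat_lit 14748776927, nat_lit 13636353432, nat_lit 13633465739, nat_lit 12922577499, nat_lit 15358445567, nat_lit 14261569202], nat_lit 1271250, nat_lit 1271250, nat_lit 21650, nat_lit 490000, nat_lit 0, nat_lit 230001, [nat_lit 1100000, nat_lit 1442500, nat_lit 1271250], [nat_lit 9, nat_lit 40, nat_lit 20, nat_lit 80, nat_lit 2, nat_lit 238, nat_lit 30, nat_lit 8]⟩, C1.Rw.none,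
 ⟨nat_lit 6123, nat_lit 6325, ⟨.ofNat (nat_lit 96904), .ofNat (nat_lit 253206), .ofNat (nat_lit 139640), .ofNat (nat_lit 295942), .ofNat (nat_lit 106133), .ofNat (nat_lit 258856), .ofNat (nat_lit 148829), .ofNat (nat_lit 301553)⟩, ⟨.negSucc (nat_lit 103633), .negSucc (nat_lit 21368), .negSucc (nat_lit 82265), .negSucc (nat_lit 0), .negSucc (nat_lit 94037), .negSucc (nat_lit 13656), .negSucc (nat_lit 72689), .ofNat (nat_lit 7691)⟩⟩, []⟩
noncomputable def p030_l98 : Lf2 := ⟨nat_lit 0, nat_lit 5, [nat_lit 4, nat_lit 5, nat_lit 5, nat_lit 20], true, nat_lit 0, nat_lit 40, nat_lit 0, nat_lit 320, ⟨nat_lit 0, nat_lit 0, nat_lit 1000, nat_lit 5, nat_lit 80, nat_lit 0, nat_lit 0, nat_lit 0, nat_lit 3267, nat_lit 201, nat_lit 60000, nat_lit 275, nat_lit 64419784, nat_lit 0, nat_lit 0, nat_lit 815893, false, false⟩,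
 nat_lit 0, nat_lit 8765, nat_lit 0, nat_lit 0, nat_lit 4640, nat_lit 0, nat_lit 45, nat_lit 0, nat_lit 0, nat_lit 0, nat_lit 0, nat_lit 0, nat_lit 0, nat_lit 0, nat_lit 147, nat_lit 1000000, nat_lit 0, nat_lit 0, [(nat_lit 6, [(nat_lit 6, nat_lit 1000)])],
 ⟨p030_k5, nat_lit 0, nat_lit 0, nat_lit 314, nat_lit 0, nat_lit 60566, [nat_lit 3329066667, nat_lit 3042400001, nat_lit 177599999], [], [nat_lit 14403915202, nat_lit 15116968480, nat_lit 15066775629, nat_lit 13910752109, nat_lit 13945118381, nat_lit 13507487893, nat_lit 15664281069, nat_lit 14524414029], nat_lit 1271250, nat_lit 1271250, nat_lit 21650, nat_lit 490000, nat_lit 0, nat_lit 230001, [nat_lit 1100000, nat_lit 1442500, nat_lit 1271250], [nat_lit 11, nat_lit 40, nat_lit 20, nat_lit 80, nat_lit 1, nat_lit 317, nat_lit 100, nat_lit 10]⟩, C1.Rw.none,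
 ⟨nat_lit 6123, nat_lit 6325, ⟨.ofNat (nat_lit 96904), .ofNat (nat_lit 253206), .ofNat (nat_lit 139640), .ofNat (nat_lit 295942), .ofNat (nat_lit 106133), .ofNat (nat_lit 258856), .ofNat (nat_lit 148829), .ofNat (nat_lit 301553)⟩, ⟨.negSucc (nat_lit 103633), .negSucc (nat_lit 21368), .negSucc (nat_lit 82265), .negSucc (nat_lit 0), .negSucc (nat_lit 94037), .negSucc (nat_lit 13656), .negSucc (nat_lit 72689), .ofNat (nat_lit 7691)⟩⟩, []⟩
noncomputable def p030_l99 : Lf2 := ⟨nat_lit 0, nat_lit 5, [nat_lit 4, nat_lit 5, nat_lit 5, nat_lit 20], true, nat_lit 40, nat_lit 80, nat_lit 0, nat_lit 320, ⟨nat_lit 0, nat_lit 0, nat_lit 1000, nat_lit 5, nat_lit 79, nat_lit 0, nat_lit 15, nat_lit 228, nat_lit 1667, nat_lit 225, nat_lit 58017, nat_lit 274, nat_lit 64465377, nat_lit 0, nat_lit 0, nat_lit 804914, false, false⟩,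
 nat_lit 0, nat_lit 8083, nat_lit 0, nat_lit 0, nat_lit 4279, nat_lit 0, nat_lit 406, nat_lit 0, nat_lit 0, nat_lit 0, nat_lit 0, nat_lit 0, nat_lit 0, nat_lit 0, nat_lit 147, nat_lit 1000000, nat_lit 0, nat_lit 0, [(nat_lit 6, [(nat_lit 6, nat_lit 1000)])],
 ⟨p030_k5, nat_lit 0, nat_lit 0, nat_lit 296, nat_lit 0, nat_lit 115015, [nat_lit 3329066667, nat_lit 3042400001, nat_lit 177599999], [], [nat_lit 11481709112, nat_lit 11818738472, nat_lit 10003154480, nat_lit 10337752643, nat_lit 10547186836, nat_lit 10891322831, nat_lit 9283747188, nat_lit 9608317108], nat_lit 1271250, nat_lit 1271250, nat_lit 21650, nat_lit 490000, nat_lit 230001, nat_lit 490000, [nat_lit 1100000, nat_lit 1442500, nat_lit 1271250], [nat_lit 11, nat_lit 40, nat_lit 20, nat_lit 80, nat_lit 1, nat_lit 345, nat_lit 125, nat_lit 10]⟩, C1.Rw.none,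
 ⟨nat_lit 6224, nat_lit 6325, ⟨.ofNat (nat_lit 96904), .ofNat (nat_lit 253206), .ofNat (nat_lit 139640), .ofNat (nat_lit 295942), .ofNat (nat_lit 101542), .ofNat (nat_lit 256045), .ofNat (nat_lit 144255), .ofNat (nat_lit 298759)⟩, ⟨.negSucc (nat_lit 21368), .ofNat (nat_lit 60895), .negSucc (nat_lit 0), .ofNat (nat_lit 82263), .negSucc (nat_lit 17481), .ofNat (nat_lit 63835), .ofNat (nat_lit 3874), .ofNat (nat_lit 85192)⟩⟩, [⟨nat_lit 0, nat_lit 100, nat_lit 99, nat_lit 42, nat_lit 193239451⟩]⟩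
noncomputable def p030_l100 : Lf2 := ⟨nat_lit 0, nat_lit 5, [nat_lit 4, nat_lit 5, nat_lit 5, nat_lit 20], true, nat_lit 40, nat_lit 80, nat_lit 0, nat_lit 320, ⟨nat_lit 0, nat_lit 0, nat_lit 1000, nat_lit 5, nat_lit 81, nat_lit 0, nat_lit 16, nat_lit 536, nat_lit 2017, nat_lit 226, nat_lit 62017, nat_lit 276, nat_lit 64373399, nat_lit 0, nat_lit 0, nat_lit 827000, false, false⟩,
 nat_lit 0, nat_lit 7701, nat_lit 0, nat_lit 0, nat_lit 4177, nat_lit 0, nat_lit 349, nat_lit 0, nat_lit 0, nat_lit 0, nat_lit 0, nat_lit 0, nat_lit 0, nat_lit 0, nat_lit 147, nat_lit 1000000, nat_lit 0, nat_lit 0, [(nat_lit 6, [(nat_lit 6, nat_lit 1000)])],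
 ⟨p030_k34, nat_lit 0, nat_lit 0, nat_lit 306, nat_lit 0, nat_lit 137021, [nat_lit 3329066667, nat_lit 3042400001, nat_lit 177599999], [], [nat_lit 11877501533, nat_lit 12210046476, nat_lit 10447364737, nat_lit 10778052474, nat_lit 10971765781, nat_lit 11311842105, nat_lit 9752575032, nat_lit 10073389260], nat_lit 1271250, nat_lit 1271250, nat_lit 21650, nat_lit 490000, nat_lit 230001, nat_lit 490000, [nat_lit 1100000, nat_lit 1442500, nat_lit 1271250], [nat_lit 11, nat_lit 40, nat_lit 20, nat_lit 80, nat_lit 1, nat_lit 345, nat_lit 125, nat_lit 10]⟩, C1.Rw.none,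
 ⟨nat_lit 6123, nat_lit 6225, ⟨.ofNat (nat_lit 101542), .ofNat (nat_lit 256045), .ofNat (nat_lit 144255), .ofNat (nat_lit 298759), .ofNat (nat_lit 106133), .ofNat (nat_lit 258856), .ofNat (nat_lit 148829), .ofNat (nat_lit 301553)⟩, ⟨.negSucc (nat_lit 17481), .ofNat (nat_lit 63835), .ofNat (nat_lit 3874), .ofNat (nat_lit 85192), .negSucc (nat_lit 13656), .ofNat (nat_lit 66723), .ofNat (nat_lit 7691), .ofNat (nat_lit 88071)⟩⟩, [⟨nat_lit 0, nat_lit 100, nat_lit 99, nat_lit 45, nat_lit 202053328⟩]⟩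
noncomputable def p030_l101 : Lf2 := ⟨nat_lit 0, nat_lit 5, [nat_lit 4, nat_lit 5, nat_lit 5, nat_lit 20], true, nat_lit 0, nat_lit 80, nat_lit 0, nat_lit 320, ⟨nat_lit 0, nat_lit 0, nat_lit 1000, nat_lit 5, nat_lit 79, nat_lit 942, nat_lit 16, nat_lit 1000, nat_lit 0, nat_lit 215, nat_lit 58017, nat_lit 274, nat_lit 64501471, nat_lit 0, nat_lit 0, nat_lit 796177, false, false⟩,
 nat_lit 0, nat_lit 6837, nat_lit 0, nat_lit 0, nat_lit 3798, nat_lit 0, nat_lit 279, nat_lit 0, nat_lit 0, nat_lit 0, nat_lit 0, nat_lit 0, nat_lit 0, nat_lit 0, nat_lit 80, nat_lit 1000000, nat_lit 0, nat_lit 0, [(nat_lit 6, [(nat_lit 6, nat_lit 1000)])],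
 ⟨p030_k14, nat_lit 0, nat_lit 0, nat_lit 298, nat_lit 0, nat_lit 197022, [nat_lit 2257066667, nat_lit 1408000000, nat_lit 211200000], [], [nat_lit 14005429022, nat_lit 14546637479, nat_lit 14604496625, nat_lit 13658251511, nat_lit 14641548677, nat_lit 13696654891, nat_lit 16518723129, nat_lit 15598927287], nat_lit 1271250, nat_lit 1271250, nat_lit 21650, nat_lit 490000, nat_lit 0, nat_lit 490000, [nat_lit 1100000, nat_lit 1442500, nat_lit 1271250], [nat_lit 9, nat_lit 40, nat_lit 20, nat_lit 80, nat_lit 2, nat_lit 249, nat_lit 40, nat_lit 9]⟩, C1.Rw.none,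
 ⟨nat_lit 5916, nat_lit 6124, ⟨.ofNat (nat_lit 106133), .ofNat (nat_lit 258856), .ofNat (nat_lit 127481), .ofNat (nat_lit 280205), .ofNat (nat_lit 115184), .ofNat (nat_lit 264398), .ofNat (nat_lit 136523), .ofNat (nat_lit 285737)⟩, ⟨.negSucc (nat_lit 94037), .ofNat (nat_lit 66723), .negSucc (nat_lit 72689), .ofNat (nat_lit 88071), .negSucc (nat_lit 84722), .ofNat (nat_lit 72344), .negSucc (nat_lit 63383), .ofNat (nat_lit 93684)⟩⟩, []⟩
noncomputable def p030_l102 : Lf2 := ⟨nat_lit 0, nat_lit 5, [nat_lit 4, nat_lit 5, nat_lit 5, nat_lit 20], true, nat_lit 0, nat_lit 40, nat_lit 0, nat_lit 304, ⟨nat_lit 0, nat_lit 0, nat_lit 1000, nat_lit 5, nat_lit 90, nat_lit 0, nat_lit 1, nat_lit 0, nat_lit 2400, nat_lit 203, nat_lit 77067, nat_lit 283, nat_lit 63741350, nat_lit 0, nat_lit 0, nat_lit 972395, false, false⟩,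
 nat_lit 0, nat_lit 7266, nat_lit 0, nat_lit 0, nat_lit 4036, nat_lit 0, nat_lit 510, nat_lit 0, nat_lit 0, nat_lit 0, nat_lit 0, nat_lit 0, nat_lit 0, nat_lit 0, nat_lit 80, nat_lit 1000000, nat_lit 0, nat_lit 0, [(nat_lit 6, [(nat_lit 6, nat_lit 1000)])],
 ⟨p030_k14, nat_lit 0, nat_lit 0, nat_lit 317, nat_lit 0, nat_lit 274421, [nat_lit 2257066667, nat_lit 1408000000, nat_lit 211200000], [], [nat_lit 13287587720, nat_lit 14289095981, nat_lit 13986335823, nat_lit 12980794675, nat_lit 12947259371, nat_lit 13123303082, nat_lit 14639875031, nat_lit 13648387235], nat_lit 1271250, nat_lit 1271250, nat_lit 65850, nat_lit 490000, nat_lit 0, nat_lit 230001, [nat_lit 1100000, nat_lit 1442500, nat_lit 1271250], [nat_lit 9, nat_lit 40, nat_lit 20, nat_lit 80, nat_lit 2, nat_lit 238, nat_lit 30, nat_lit 8]⟩, C1.Rw.none,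
 ⟨nat_lit 5916, nat_lit 6124, ⟨.ofNat (nat_lit 143557), .ofNat (nat_lit 280205), .ofNat (nat_lit 164905), .ofNat (nat_lit 301553), .ofNat (nat_lit 152230), .ofNat (nat_lit 285737), .ofNat (nat_lit 173569), .ofNat (nat_lit 307076)⟩, ⟨.negSucc (nat_lit 94037), .negSucc (nat_lit 13656), .negSucc (nat_lit 72689), .ofNat (nat_lit 7691), .negSucc (nat_lit 84722), .negSucc (nat_lit 6188), .negSucc (nat_lit 63383), .ofNat (nat_lit 15150)⟩⟩, []⟩
noncomputable def p030_l103 : Lf2 := ⟨nat_lit 0, nat_lit 5, [nat_lit 4, nat_lit 5, nat_lit 5, nat_lit 20], true, nat_lit 40, nat_lit 80, nat_lit 0, nat_lit 304, ⟨nat_lit 0, nat_lit 0, nat_lit 1000, nat_lit 5, nat_lit 90, nat_lit 1000, nat_lit 17, nat_lit 1000, nat_lit 2400, nat_lit 227, nat_lit 77067, nat_lit 283, nat_lit 63741350, nat_lit 0, nat_lit 0, nat_lit 972395, false, false⟩,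
 nat_lit 0, nat_lit 8292, nat_lit 0, nat_lit 0, nat_lit 4606, nat_lit 0, nat_lit 740, nat_lit 0, nat_lit 0, nat_lit 0, nat_lit 0, nat_lit 0, nat_lit 0, nat_lit 0, nat_lit 80, nat_lit 1000000, nat_lit 0, nat_lit 0, [(nat_lit 6, [(nat_lit 6, nat_lit 1000)])],
 ⟨p030_k14, nat_lit 0, nat_lit 0, nat_lit 281, nat_lit 0, nat_lit 274421, [nat_lit 2257066667, nat_lit 1408000000, nat_lit 211200000], [], [nat_lit 11964223543, nat_lit 13031024033, nat_lit 13388442461, nat_lit 12256927895, nat_lit 12872250529, nat_lit 11729614315, nat_lit 14677024281, nat_lit 13561547807], nat_lit 1271250, nat_lit 1271250, nat_lit 65850, nat_lit 490000, nat_lit 230001, nat_lit 490000, [nat_lit 1100000, nat_lit 1442500, nat_lit 1271250], [nat_lit 9, nat_lit 40, nat_lit 20, nat_lit 80, nat_lit 2, nat_lit 249, nat_lit 40, nat_lit 9]⟩, C1.Rw.none,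
 ⟨nat_lit 5916, nat_lit 6124, ⟨.ofNat (nat_lit 143557), .ofNat (nat_lit 280205), .ofNat (nat_lit 164905), .ofNat (nat_lit 301553), .ofNat (nat_lit 152230), .ofNat (nat_lit 285737), .ofNat (nat_lit 173569), .ofNat (nat_lit 307076)⟩, ⟨.negSucc (nat_lit 13656), .ofNat (nat_lit 66723), .ofNat (nat_lit 7691), .ofNat (nat_lit 88071), .negSucc (nat_lit 6188), .ofNat (nat_lit 72344), .ofNat (nat_lit 15150), .ofNat (nat_lit 93684)⟩⟩, []⟩
noncomputable def p030_l104 : Lf2 := ⟨nat_lit 0, nat_lit 2, [nat_lit 10, nat_lit 5, nat_lit 5, nat_lit 20], false, nat_lit 0, nat_lit 40, nat_lit 0, nat_lit 320, ⟨nat_lit 0, nat_lit 0, nat_lit 1000, nat_lit 5, nat_lit 128, nat_lit 0, nat_lit 1, nat_lit 0, nat_lit 2817, nat_lit 202, nat_lit 153600, nat_lit 311, nat_lit 60763962, nat_lit 0, nat_lit 0, nat_lit 1547974, false, false⟩,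
 nat_lit 0, nat_lit 12670, nat_lit 0, nat_lit 0, nat_lit 6707, nat_lit 0, nat_lit 0, nat_lit 0, nat_lit 0, nat_lit 0, nat_lit 0, nat_lit 0, nat_lit 0, nat_lit 0, nat_lit 80, nat_lit 1000000, nat_lit 0, nat_lit 0, [(nat_lit 6, [(nat_lit 6, nat_lit 1000)])],
 ⟨p030_k15, nat_lit 0, nat_lit 0, nat_lit 259, nat_lit 0, nat_lit 276953, [nat_lit 2257066667, nat_lit 1408000000, nat_lit 211200000], [], [nat_lit 11279425415, nat_lit 13352743562, nat_lit 13535537011, nat_lit 12888296724, nat_lit 11733266087, nat_lit 10471498872, nat_lit 14082792779, nat_lit 10833553094], nat_lit 1271250, nat_lit 1271250, nat_lit 490000, nat_lit 780000, nat_lit 0, nat_lit 230001, [nat_lit 1100000, nat_lit 1442500, nat_lit 1271250], [nat_lit 9, nat_lit 40, nat_lit 20, nat_lit 80, nat_lit 2, nat_lit 249, nat_lit 40, nat_lit 8]⟩, ⟨p030_k35, nat_lit 0, nat_lit 0, nat_lit 370, nat_lit 0, nat_lit 352917, [nat_lit 0, nat_lit 0, nat_lit 0], [], [nat_lit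 0, nat_lit 0, nat_lit 0, nat_lit 0, nat_lit 0, nat_lit 0, nat_lit 0, nat_lit 0], nat_lit 1271250, nat_lit 1271250, nat_lit 490000, nat_lit 780000, nat_lit 0, nat_lit 2260000, [nat_lit 1412500, nat_lit 1271250, nat_lit 1271250], [nat_lit 25, nat_lit 40, nat_lit 20, nat_lit 80, nat_lit 17, nat_lit 401, nat_lit 175, nat_lit 12]⟩,
 ⟨nat_lit 5916, nat_lit 6325, ⟨.ofNat (nat_lit 253206), .ofNat (nat_lit 335470), .ofNat (nat_lit 295942), .ofNat (nat_lit 378206), .ofNat (nat_lit 264398), .ofNat (nat_lit 342931), .ofNat (nat_lit 307076), .ofNat (nat_lit 385610)⟩, ⟨.negSucc (nat_lit 103633), .negSucc (nat_lit 21368), .negSucc (nat_lit 82265), .negSucc (nat_lit 0), .negSucc (nat_lit 84722), .negSucc (nat_lit 6188), .negSucc (nat_lit 63383), .ofNat (nat_lit 15150)⟩⟩, []⟩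
noncomputable def p030_l105 : Lf2 := ⟨nat_lit 0, nat_lit 5, [nat_lit 4, nat_lit 5, nat_lit 5, nat_lit 20], false, nat_lit 0, nat_lit 40, nat_lit 0, nat_lit 320, ⟨nat_lit 0, nat_lit 0, nat_lit 1000, nat_lit 5, nat_lit 128, nat_lit 0, nat_lit 1, nat_lit 0, nat_lit 2817, nat_lit 202, nat_lit 153600, nat_lit 311, nat_lit 60763962, nat_lit 0, nat_lit 0, nat_lit 1547974, false, false⟩,
 nat_lit 0, nat_lit 8678, nat_lit 0, nat_lit 0, nat_lit 4594, nat_lit 0, nat_lit 379, nat_lit 0, nat_lit 0, nat_lit 0, nat_lit 0, nat_lit 0, nat_lit 0, nat_lit 0, nat_lit 147, nat_lit 1000000, nat_lit 0, nat_lit 0, [(nat_lit 6, [(nat_lit 6, nat_lit 1000)])],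
 ⟨p030_k5, nat_lit 0, nat_lit 0, nat_lit 299, nat_lit 0, nat_lit 195193, [nat_lit 3329066667, nat_lit 3042400001, nat_lit 177599999], [], [nat_lit 10393044005, nat_lit 11759385617, nat_lit 10666369900, nat_lit 12023612864, nat_lit 9433643300, nat_lit 10820341200, nat_lit 9866140296, nat_lit 11182907864], nat_lit 1271250, nat_lit 1271250, nat_lit 490000, nat_lit 780000, nat_lit 0, nat_lit 230001, [nat_lit 1100000, nat_lit 1442500, nat_lit 1271250], [nat_lit 11, nat_lit 40, nat_lit 20, nat_lit 80, nat_lit 1, nat_lit 345, nat_lit 125, nat_lit 10]⟩, ⟨p030_k6, nat_lit 0, nat_lit 0, nat_lit 397, nat_lit 0, nat_lit 250202, [nat_lit 0, nat_lit 0, nat_lit 0], [], [nat_lit 0, nat_lit 0, nat_lit 0, nat_lit 0, nat_lit 0, nat_lit 0, nat_lit 0, nat_lit 0], nat_lit 1271250, nat_lit 1271250, nat_lit 490000, nat_lit 780000, nat_lit 0, nat_lit 2260000, [nat_lit 1412500, nat_lit 1271250, nat_lit 1271250], [nat_lit 53, nat_lit 40,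 nat_lit 20, nat_lit 80, nat_lit 14, nat_lit 401, nat_lit 175, nat_lit 11]⟩,
 ⟨nat_lit 5916, nat_lit 6325, ⟨.ofNat (nat_lit 253206), .ofNat (nat_lit 335470), .ofNat (nat_lit 295942), .ofNat (nat_lit 378206), .ofNat (nat_lit 264398), .ofNat (nat_lit 342931), .ofNat (nat_lit 307076), .ofNat (nat_lit 385610)⟩, ⟨.negSucc (nat_lit 103633), .negSucc (nat_lit 21368), .negSucc (nat_lit 82265), .negSucc (nat_lit 0), .negSucc (nat_lit 84722), .negSucc (nat_lit 6188), .negSucc (nat_lit 63383), .ofNat (nat_lit 15150)⟩⟩, []⟩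
noncomputable def p030_l106 : Lf2 := ⟨nat_lit 0, nat_lit 5, [nat_lit 4, nat_lit 5, nat_lit 5, nat_lit 20], false, nat_lit 40, nat_lit 80, nat_lit 0, nat_lit 320, ⟨nat_lit 0, nat_lit 0, nat_lit 1000, nat_lit 5, nat_lit 128, nat_lit 0, nat_lit 16, nat_lit 141, nat_lit 2017, nat_lit 226, nat_lit 153600, nat_lit 311, nat_lit 60763962, nat_lit 0, nat_lit 0, nat_lit 1547974, false, false⟩,
 nat_lit 0, nat_lit 9368, nat_lit 0, nat_lit 0, nat_lit 4959, nat_lit 0, nat_lit 439, nat_lit 0, nat_lit 0, nat_lit 0, nat_lit 0, nat_lit 0, nat_lit 0, nat_lit 0, nat_lit 147, nat_lit 1000000, nat_lit 0, nat_lit 0, [(nat_lit 6, [(nat_lit 6, nat_lit 1000)])],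
 ⟨p030_k5, nat_lit 0, nat_lit 0, nat_lit 300, nat_lit 0, nat_lit 290141, [nat_lit 3329066667, nat_lit 3042400001, nat_lit 177599999], [], [nat_lit 8813873971, nat_lit 10216404170, nat_lit 9165435926, nat_lit 10534132774, nat_lit 7824385588, nat_lit 9222817026, nat_lit 8782086540, nat_lit 9570605274], nat_lit 1271250, nat_lit 1271250, nat_lit 490000, nat_lit 780000, nat_lit 230001, nat_lit 490000, [nat_lit 1100000, nat_lit 1442500, nat_lit 1271250], [nat_lit 11, nat_lit 40, nat_lit 20, nat_lit 80, nat_lit 1, nat_lit 345, nat_lit 125, nat_lit 10]⟩, ⟨p030_k6, nat_lit 0, nat_lit 0, nat_lit 499, nat_lit 0, nat_lit 371908, [nat_lit 0, nat_lit 0, nat_lit 0], [], [nat_lit 0, nat_lit 0, nat_lit 0, nat_lit 0, nat_lit 0, nat_lit 0, nat_lit 0, nat_lit 0], nat_lit 1271250, nat_lit 1271250, nat_lit 490000, nat_lit 780000, nat_lit 0, nat_lit 2260000, [nat_lit 1412500, nat_lit 1271250, nat_lit 1271250], [nat_lit 53, nat_lit 40,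 nat_lit 20, nat_lit 80, nat_lit 14, nat_lit 401, nat_lit 175, nat_lit 11]⟩,
 ⟨nat_lit 5916, nat_lit 6325, ⟨.ofNat (nat_lit 253206), .ofNat (nat_lit 335470), .ofNat (nat_lit 295942), .ofNat (nat_lit 378206), .ofNat (nat_lit 264398), .ofNat (nat_lit 342931), .ofNat (nat_lit 307076), .ofNat (nat_lit 385610)⟩, ⟨.negSucc (nat_lit 21368), .ofNat (nat_lit 60895), .negSucc (nat_lit 0), .ofNat (nat_lit 82263), .negSucc (nat_lit 6188), .ofNat (nat_lit 72344), .ofNat (nat_lit 15150), .ofNat (nat_lit 93684)⟩⟩, []⟩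
noncomputable def p030_l107 : Lf2 := ⟨nat_lit 0, nat_lit 2, [nat_lit 10, nat_lit 5, nat_lit 5, nat_lit 20], false, nat_lit 0, nat_lit 80, nat_lit 0, nat_lit 320, ⟨nat_lit 0, nat_lit 0, nat_lit 1000, nat_lit 5, nat_lit 103, nat_lit 0, nat_lit 17, nat_lit 700, nat_lit 67, nat_lit 217, nat_lit 98817, nat_lit 292, nat_lit 62836477, nat_lit 0, nat_lit 0, nat_lit 1164101, false, false⟩,
 nat_lit 0, nat_lit 6545, nat_lit 0, nat_lit 0, nat_lit 3809, nat_lit 0, nat_lit 504, nat_lit 0, nat_lit 0, nat_lit 0, nat_lit 0, nat_lit 0, nat_lit 0, nat_lit 0, nat_lit 37, nat_lit 1000000, nat_lit 0, nat_lit 0, [(nat_lit 9, [(nat_lit 6, nat_lit 1000)])],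
 ⟨p030_k36, nat_lit 0, nat_lit 0, nat_lit 278, nat_lit 0, nat_lit 298102, [nat_lit 1689600001, nat_lit 0], [], [nat_lit 14573930360, nat_lit 15200505686, nat_lit 14238716353, nat_lit 14801270088, nat_lit 13511721676, nat_lit 14101161609, nat_lit 15241411712, nat_lit 14318951901], nat_lit 1271250, nat_lit 1271250, nat_lit 43600, nat_lit 780000, nat_lit 0, nat_lit 490000, [nat_lit 1100000, nat_lit 1442500], [nat_lit 31, nat_lit 40, nat_lit 20, nat_lit 80, nat_lit 3, nat_lit 260, nat_lit 50, nat_lit 11]⟩, ⟨p030_k37, nat_lit 0, nat_lit 0, nat_lit 485, nat_lit 0, nat_lit 422749, [nat_lit 0, nat_lit 0], [], [nat_lit 0, nat_lit 0, nat_lit 0, nat_lit 0, nat_lit 0, nat_lit 0, nat_lit 0, nat_lit 0], nat_lit 1271250, nat_lit 1271250, nat_lit 43600, nat_lit 780000, nat_lit 0, nat_lit 2260000, [nat_lit 1412500, nat_lit 1271250], [nat_lit 51, nat_lit 40, nat_lit 20, nat_lit 80, nat_lit 1, nat_lit 401, nat_lit 175, nat_lit 12]⟩,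
 ⟨nat_lit 5700, nat_lit 5917, ⟨.ofNat (nat_lit 123037), .ofNat (nat_lit 342931), .ofNat (nat_lit 165716), .ofNat (nat_lit 385610), .ofNat (nat_lit 131747), .ofNat (nat_lit 346560), .ofNat (nat_lit 174431), .ofNat (nat_lit 389244)⟩, ⟨.negSucc (nat_lit 84722), .ofNat (nat_lit 72344), .negSucc (nat_lit 63383), .ofNat (nat_lit 93684), .negSucc (nat_lit 75673), .ofNat (nat_lit 77764), .negSucc (nat_lit 54331), .ofNat (nat_lit 99106)⟩⟩, [⟨nat_lit 0, nat_lit 100, nat_lit 96, nat_lit 54, nat_lit 41685134⟩]⟩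
noncomputable def p030_l108 : Lf2 := ⟨nat_lit 0, nat_lit 2, [nat_lit 10, nat_lit 5, nat_lit 5, nat_lit 20], false, nat_lit 0, nat_lit 80, nat_lit 0, nat_lit 320, ⟨nat_lit 0, nat_lit 0, nat_lit 1000, nat_lit 5, nat_lit 107, nat_lit 0, nat_lit 18, nat_lit 717, nat_lit 417, nat_lit 220, nat_lit 106667, nat_lit 295, nat_lit 62531169, nat_lit 0, nat_lit 0, nat_lit 1225071, false, false⟩,
 nat_lit 0, nat_lit 6186, nat_lit 0, nat_lit 0, nat_lit 3767, nat_lit 0, nat_lit 408, nat_lit 0, nat_lit 0, nat_lit 0, nat_lit 0, nat_lit 0, nat_lit 0, nat_lit 0, nat_lit 37, nat_lit 1000000, nat_lit 0, nat_lit 0, [(nat_lit 9, [(nat_lit 6, nat_lit 1000)])],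
 ⟨p030_k38, nat_lit 0, nat_lit 0, nat_lit 274, nat_lit 0, nat_lit 332618, [nat_lit 1689600001, nat_lit 0], [], [nat_lit 15122214604, nat_lit 15744677975, nat_lit 14896040358, nat_lit 15455888663, nat_lit 14073555367, nat_lit 14659016387, nat_lit 14332727439, nat_lit 14571577511], nat_lit 1271250, nat_lit 1271250, nat_lit 65850, nat_lit 780000, nat_lit 0, nat_lit 490000, [nat_lit 1100000, nat_lit 1442500], [nat_lit 31, nat_lit 40, nat_lit 20, nat_lit 80, nat_lit 3, nat_lit 260, nat_lit 50, nat_lit 10]⟩, ⟨p030_k37, nat_lit 0, nat_lit 0, nat_lit 508, nat_lit 0, nat_lit 496193, [nat_lit 0, nat_lit 0], [], [nat_lit 0, nat_lit 0, nat_lit 0, nat_lit 0, nat_lit 0, nat_lit 0, nat_lit 0, nat_lit 0], nat_lit 1271250, nat_lit 1271250, nat_lit 65850, nat_lit 780000, nat_lit 0, nat_lit 2260000, [nat_lit 1412500, nat_lit 1271250], [nat_lit 51, nat_lit 40, nat_lit 20, nat_lit 80, nat_lit 1, nat_lit 401, nat_lit 175, nat_lit 12]⟩,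
 ⟨nat_lit 5477, nat_lit 5701, ⟨.ofNat (nat_lit 139419), .ofNat (nat_lit 346560), .ofNat (nat_lit 182103), .ofNat (nat_lit 389244), .ofNat (nat_lit 147813), .ofNat (nat_lit 350132), .ofNat (nat_lit 190527), .ofNat (nat_lit 392847)⟩, ⟨.negSucc (nat_lit 75673), .ofNat (nat_lit 77764), .negSucc (nat_lit 54331), .ofNat (nat_lit 99106), .negSucc (nat_lit 66879), .ofNat (nat_lit 82986), .negSucc (nat_lit 45522), .ofNat (nat_lit 104343)⟩⟩, [⟨nat_lit 0, nat_lit 100, nat_lit 94, nat_lit 59, nat_lit 105271248⟩]⟩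
noncomputable def p030_l109 : Lf2 := ⟨nat_lit 0, nat_lit 5, [nat_lit 4, nat_lit 5, nat_lit 5, nat_lit 20], false, nat_lit 0, nat_lit 80, nat_lit 0, nat_lit 320, ⟨nat_lit 0, nat_lit 0, nat_lit 1000, nat_lit 5, nat_lit 100, nat_lit 0, nat_lit 18, nat_lit 792, nat_lit 150, nat_lit 218, nat_lit 93750, nat_lit 290, nat_lit 63065372, nat_lit 0, nat_lit 0, nat_lit 1117228, false, false⟩,
 nat_lit 0, nat_lit 6382, nat_lit 0, nat_lit 0, nat_lit 3714, nat_lit 0, nat_lit 0, nat_lit 0, nat_lit 0, nat_lit 0, nat_lit 0, nat_lit 0, nat_lit 0, nat_lit 0, nat_lit 117, nat_lit 1000000, nat_lit 0, nat_lit 0, [(nat_lit 9, [(nat_lit 6, nat_lit 1000)])],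
 ⟨p030_k0, nat_lit 0, nat_lit 0, nat_lit 308, nat_lit 0, nat_lit 214806, [nat_lit 2969600000, nat_lit 1600000000, nat_lit 226400000], [], [nat_lit 14730672377, nat_lit 15969480842, nat_lit 14878007780, nat_lit 15572065720, nat_lit 13730480149, nat_lit 14896177130, nat_lit 16921104816, nat_lit 15146971584], nat_lit 1271250, nat_lit 1271250, nat_lit 43600, nat_lit 780000, nat_lit 0, nat_lit 490000, [nat_lit 1100000, nat_lit 1442500, nat_lit 1271250], [nat_lit 9, nat_lit 40, nat_lit 20, nat_lit 80, nat_lit 2, nat_lit 260, nat_lit 50, nat_lit 9]⟩, ⟨p030_k6, nat_lit 0, nat_lit 0, nat_lit 535, nat_lit 0, nat_lit 307147, [nat_lit 0, nat_lit 0, nat_lit 0], [], [nat_lit 0, nat_lit 0, nat_lit 0, nat_lit 0, nat_lit 0, nat_lit 0, nat_lit 0, nat_lit 0], nat_lit 1271250, nat_lit 1271250, nat_lit 43600, nat_lit 780000, nat_lit 0, nat_lit 2260000, [nat_lit 1412500, nat_lit 1271250, nat_lit 1271250], [nat_lit 53, nat_lit 40, nat_lit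 20, nat_lit 80, nat_lit 14, nat_lit 401, nat_lit 175, nat_lit 11]⟩,
 ⟨nat_lit 5477, nat_lit 5917, ⟨.ofNat (nat_lit 123037), .ofNat (nat_lit 342931), .ofNat (nat_lit 144377), .ofNat (nat_lit 364271), .ofNat (nat_lit 140320), .ofNat (nat_lit 350132), .ofNat (nat_lit 161677), .ofNat (nat_lit 371489)⟩, ⟨.negSucc (nat_lit 84722), .ofNat (nat_lit 72344), .negSucc (nat_lit 63383), .ofNat (nat_lit 93684), .negSucc (nat_lit 66879), .ofNat (nat_lit 82986), .negSucc (nat_lit 45522), .ofNat (nat_lit 104343)⟩⟩, []⟩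
noncomputable def p030_l110 : Lf2 := ⟨nat_lit 0, nat_lit 5, [nat_lit 4, nat_lit 5, nat_lit 5, nat_lit 20], false, nat_lit 0, nat_lit 80, nat_lit 0, nat_lit 304, ⟨nat_lit 0, nat_lit 0, nat_lit 1000, nat_lit 5, nat_lit 112, nat_lit 0, nat_lit 18, nat_lit 1000, nat_lit 150, nat_lit 218, nat_lit 117600, nat_lit 299, nat_lit 62167704, nat_lit 0, nat_lit 0, nat_lit 1295486, false, false⟩,
 nat_lit 0, nat_lit 6564, nat_lit 0, nat_lit 0, nat_lit 3820, nat_lit 0, nat_lit 75, nat_lit 0, nat_lit 0, nat_lit 0, nat_lit 0, nat_lit 0, nat_lit 0, nat_lit 0, nat_lit 117, nat_lit 1000000, nat_lit 0, nat_lit 0, [(nat_lit 9, [(nat_lit 6, nat_lit 1000)])],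
 ⟨p030_k0, nat_lit 0, nat_lit 0, nat_lit 323, nat_lit 0, nat_lit 280756, [nat_lit 2969600000, nat_lit 1600000000, nat_lit 226400000], [], [nat_lit 14263297521, nat_lit 15514318497, nat_lit 14555014650, nat_lit 15339711600, nat_lit 13240759568, nat_lit 14416876097, nat_lit 16600483330, nat_lit 14775715170], nat_lit 1271250, nat_lit 1271250, nat_lit 88400, nat_lit 780000, nat_lit 0, nat_lit 490000, [nat_lit 1100000, nat_lit 1442500, nat_lit 1271250], [nat_lit 9, nat_lit 40, nat_lit 20, nat_lit 80, nat_lit 2, nat_lit 260, nat_lit 50, nat_lit 9]⟩, ⟨p030_k9, nat_lit 0, nat_lit 0, nat_lit 456, nat_lit 0, nat_lit 352600, [nat_lit 0, nat_lit 0, nat_lit 0], [], [nat_lit 0, nat_lit 0, nat_lit 0, nat_lit 0, nat_lit 0, nat_lit 0, nat_lit 0, nat_lit 0], nat_lit 1271250, nat_lit 1271250, nat_lit 88400, nat_lit 780000, nat_lit 0, nat_lit 2147000, [nat_lit 1412500, nat_lit 1271250, nat_lit 1271250], [nat_lit 25, nat_lit 40, nat_lit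 20, nat_lit 80, nat_lit 17, nat_lit 401, nat_lit 175, nat_lit 12]⟩,
 ⟨nat_lit 5477, nat_lit 5917, ⟨.ofNat (nat_lit 160083), .ofNat (nat_lit 364271), .ofNat (nat_lit 181423), .ofNat (nat_lit 385610), .ofNat (nat_lit 176664), .ofNat (nat_lit 371489), .ofNat (nat_lit 198021), .ofNat (nat_lit 392847)⟩, ⟨.negSucc (nat_lit 84722), .ofNat (nat_lit 72344), .negSucc (nat_lit 63383), .ofNat (nat_lit 93684), .negSucc (nat_lit 66879), .ofNat (nat_lit 82986), .negSucc (nat_lit 45522), .ofNat (nat_lit 104343)⟩⟩, []⟩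
noncomputable def b_VL_600_500_5_16 : St := ⟨true, nat_lit 1, nat_lit 1, nat_lit 1, nat_lit 40, nat_lit 240, nat_lit 280, nat_lit 200, nat_lit 240, nat_lit 4, nat_lit 120, nat_lit 20, nat_lit 40, nat_lit 0, nat_lit 80, nat_lit 0, nat_lit 320, nat_lit 0, nat_lit 20, nat_lit 0, nat_lit 0, nat_lit 0, nat_lit 0⟩
theorem d_VL_600_500_5_16 (h : EB TB.env) : Dead b_VL_600_500_5_16 := chkB_sound0 h (T :=
(.spl (nat_lit 0) (nat_lit 260)
(.spl (nat_lit 2) (nat_lit 80)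
(.spl (nat_lit 0) (nat_lit 250)
(.spl (nat_lit 6) (nat_lit 8)
(.spl (nat_lit 1) (nat_lit 220)
(.leaf p030_l88)
(.trZ (nat_lit 0) (nat_lit 100) (nat_lit 98) (nat_lit 30) (nat_lit 8) (.trX (nat_lit 19) (nat_lit 100) (nat_lit 86) (nat_lit 60) (nat_lit 304) (.spl (nat_lit 1) (nat_lit 230)
(.spl (nat_lit 4) (nat_lit 40)
(.leaf p030_l89)
(.leaf p030_l90))
(.trZ (nat_lit 0) (nat_lit 100) (nat_lit 99) (nat_lit 35) (nat_lit 12) (.trX (nat_lit 19) (nat_lit 100) (nat_lit 89) (nat_lit 61) (nat_lit 296) (.spl (nat_lit 0) (nat_lit 245)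
(.spl (nat_lit 4) (nat_lit 40)
(.spl (nat_lit 4) (nat_lit 20)
(.leaf p030_l91)
(.spl (nat_lit 0) (nat_lit 243)
(.leaf p030_l92)
(.leaf p030_l93)))
(.leaf p030_l94))
(.spl (nat_lit 4) (nat_lit 40)
(.leaf p030_l95)
(.leaf p030_l96)))))))))
(.spl (nat_lit 4) (nat_lit 40)
(.spl (nat_lit 6) (nat_lit 16)
(.leaf p030_l97)
(.leaf p030_l98))
(.spl (nat_lit 0) (nat_lit 245)
(.leaf p030_l99)
(.leaf p030_l100))))
(.spl (nat_lit 1) (nat_lit 220)
(.leaf p030_l101)
(.trZ (nat_lit 0) (nat_lit 100) (nat_lit 97) (nat_lit 35) (nat_lit 12) (.trX (nat_lit 19) (nat_lit 100) (nat_lit 86) (nat_lit 60) (nat_lit 304) (.spl (nat_lit 4) (nat_lit 40)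
(.leaf p030_l102)
(.leaf p030_l103))))))
(.spl (nat_lit 4) (nat_lit 40)
(.spl (nat_lit 6) (nat_lit 8)
(.leaf p030_l104)
(.leaf p030_l105))
(.leaf p030_l106)))
(.trZ (nat_lit 0) (nat_lit 100) (nat_lit 95) (nat_lit 30) (nat_lit 8) (.spl (nat_lit 6) (nat_lit 8)
(.spl (nat_lit 0) (nat_lit 270)
(.leaf p030_l107)
(.trZ (nat_lit 0) (nat_lit 100) (nat_lit 94) (nat_lit 35) (nat_lit 12) (.leaf p030_l108)))
(.spl (nat_lit 1) (nat_lit 220)
(.leaf p030_l109)
(.trZ (nat_lit 0) (nat_lit 100) (nat_lit 96) (nat_lit 40) (nat_lit 16) (.trX (nat_lit 19) (nat_lit 100) (nat_lit 86) (nat_lit 60) (nat_lit 304) (.leaf p030_l110)))))))) (by decide +kernel)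
noncomputable def p030_l111 : Lf2 := ⟨nat_lit 0, nat_lit 8, [nat_lit 50, nat_lit 5, nat_lit 5, nat_lit 20], false, nat_lit 0, nat_lit 40, nat_lit 0, nat_lit 320, ⟨nat_lit 0, nat_lit 0, nat_lit 1000, nat_lit 5, nat_lit 96, nat_lit 0, nat_lit 0, nat_lit 0, nat_lit 3267, nat_lit 201, nat_lit 86400, nat_lit 287, nat_lit 63328124, nat_lit 0, nat_lit 0, nat_lit 1062116, false, false⟩,
 nat_lit 0, nat_lit 7384, nat_lit 0, nat_lit 2904, nat_lit 3909, nat_lit 0, nat_lit 225, nat_lit 0, nat_lit 0, nat_lit 0, nat_lit 0, nat_lit 0, nat_lit 0, nat_lit 0, nat_lit 147, nat_lit 1000000, nat_lit 0, nat_lit 0, [(nat_lit 6, [(nat_lit 6, nat_lit 1000)])],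
 ⟨p030_k7, nat_lit 0, nat_lit 0, nat_lit 302, nat_lit 0, nat_lit 27025, [nat_lit 3329066667, nat_lit 3042400001, nat_lit 177599999], [], [nat_lit 13124139241, nat_lit 13781517667, nat_lit 12061563917, nat_lit 12473990157, nat_lit 12400251753, nat_lit 12844022605, nat_lit 11485722517, nat_lit 11886575049], nat_lit 1271250, nat_lit 1271250, nat_lit 21650, nat_lit 780000, nat_lit 0, nat_lit 230001, [nat_lit 1100000, nat_lit 1442500, nat_lit 1271250], [nat_lit 11, nat_lit 40, nat_lit 20, nat_lit 80, nat_lit 1, nat_lit 345, nat_lit 125, nat_lit 10]⟩, ⟨p030_k11, nat_lit 0, nat_lit 0, nat_lit 383, nat_lit 0, nat_lit 34827, [nat_lit 0, nat_lit 0, nat_lit 0], [], [nat_lit 0, nat_lit 0, nat_lit 0, nat_lit 0, nat_lit 0, nat_lit 0, nat_lit 0, nat_lit 0], nat_lit 1271250, nat_lit 1271250, nat_lit 21650, nat_lit 780000, nat_lit 0, nat_lit 2260000, [nat_lit 1412500, nat_lit 1271250, nat_lit 1271250], [nat_lit 53, nat_lit 40, nat_lit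 20, nat_lit 80, nat_lit 14, nat_lit 401, nat_lit 175, nat_lit 11]⟩,
 ⟨nat_lit 6123, nat_lit 6325, ⟨.ofNat (nat_lit 96904), .ofNat (nat_lit 335470), .ofNat (nat_lit 139640), .ofNat (nat_lit 378206), .ofNat (nat_lit 106133), .ofNat (nat_lit 339237), .ofNat (nat_lit 148829), .ofNat (nat_lit 381933)⟩, ⟨.negSucc (nat_lit 103633), .negSucc (nat_lit 21368), .negSucc (nat_lit 82265), .negSucc (nat_lit 0), .negSucc (nat_lit 94037), .negSucc (nat_lit 13656), .negSucc (nat_lit 72689), .ofNat (nat_lit 7691)⟩⟩, [⟨nat_lit 0, nat_lit 100, nat_lit 99, nat_lit 45, nat_lit 151413592⟩]⟩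
noncomputable def p030_l112 : Lf2 := ⟨nat_lit 0, nat_lit 8, [nat_lit 50, nat_lit 5, nat_lit 5, nat_lit 20], false, nat_lit 0, nat_lit 40, nat_lit 0, nat_lit 320, ⟨nat_lit 0, nat_lit 0, nat_lit 1000, nat_lit 5, nat_lit 98, nat_lit 0, nat_lit 1, nat_lit 0, nat_lit 2400, nat_lit 203, nat_lit 91267, nat_lit 289, nat_lit 63187609, nat_lit 0, nat_lit 0, nat_lit 1091767, false, false⟩,
 nat_lit 0, nat_lit 7764, nat_lit 0, nat_lit 0, nat_lit 4313, nat_lit 0, nat_lit 488, nat_lit 0, nat_lit 0, nat_lit 0, nat_lit 0, nat_lit 0, nat_lit 0, nat_lit 0, nat_lit 69, nat_lit 400000, nat_lit 0, nat_lit 0, [(nat_lit 6, [(nat_lit 5, nat_lit 1000)])],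
 ⟨p030_k12, nat_lit 0, nat_lit 0, nat_lit 312, nat_lit 0, nat_lit 51904, [nat_lit 2521600001, nat_lit 1460000001, nat_lit 7200000], [], [nat_lit 15183175781, nat_lit 15527159222, nat_lit 16371465256, nat_lit 15841805135, nat_lit 13892178207, nat_lit 14139574217, nat_lit 17066363004, nat_lit 16543999400], nat_lit 1271250, nat_lit 1271250, nat_lit 21650, nat_lit 780000, nat_lit 0, nat_lit 230001, [nat_lit 1100000, nat_lit 1442500, nat_lit 1271250], [nat_lit 11, nat_lit 40, nat_lit 20, nat_lit 80, nat_lit 1, nat_lit 345, nat_lit 125, nat_lit 10]⟩, ⟨p030_k11, nat_lit 0, nat_lit 0, nat_lit 397, nat_lit 0, nat_lit 70799, [nat_lit 0, nat_lit 0, nat_lit 0], [], [nat_lit 0, nat_lit 0, nat_lit 0, nat_lit 0, nat_lit 0, nat_lit 0, nat_lit 0, nat_lit 0], nat_lit 1271250, nat_lit 1271250, nat_lit 21650, nat_lit 780000, nat_lit 0, nat_lit 2260000, [nat_lit 1412500, nat_lit 1271250, nat_lit 1271250], [nat_lit 53, nat_lit 40, nat_lit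 20, nat_lit 80, nat_lit 14, nat_lit 401, nat_lit 175, nat_lit 11]⟩,
 ⟨nat_lit 6020, nat_lit 6124, ⟨.ofNat (nat_lit 106133), .ofNat (nat_lit 339237), .ofNat (nat_lit 148829), .ofNat (nat_lit 381933), .ofNat (nat_lit 110680), .ofNat (nat_lit 341093), .ofNat (nat_lit 153364), .ofNat (nat_lit 383777)⟩, ⟨.negSucc (nat_lit 94037), .negSucc (nat_lit 13656), .negSucc (nat_lit 72689), .ofNat (nat_lit 7691), .negSucc (nat_lit 89345), .negSucc (nat_lit 9892), .negSucc (nat_lit 68003), .ofNat (nat_lit 11449)⟩⟩, []⟩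
noncomputable def p030_l113 : Lf2 := ⟨nat_lit 0, nat_lit 8, [nat_lit 50, nat_lit 5, nat_lit 5, nat_lit 20], false, nat_lit 0, nat_lit 40, nat_lit 0, nat_lit 320, ⟨nat_lit 0, nat_lit 0, nat_lit 1000, nat_lit 5, nat_lit 100, nat_lit 0, nat_lit 1, nat_lit 0, nat_lit 2017, nat_lit 204, nat_lit 93750, nat_lit 290, nat_lit 63093991, nat_lit 0, nat_lit 0, nat_lit 1111294, false, false⟩,
 nat_lit 0, nat_lit 7252, nat_lit 0, nat_lit 0, nat_lit 4124, nat_lit 0, nat_lit 588, nat_lit 0, nat_lit 0, nat_lit 0, nat_lit 0, nat_lit 0, nat_lit 0, nat_lit 0, nat_lit 69, nat_lit 400000, nat_lit 0, nat_lit 0, [(nat_lit 6, [(nat_lit 5, nat_lit 1000)])],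
 ⟨p030_k39, nat_lit 0, nat_lit 0, nat_lit 322, nat_lit 0, nat_lit 76972, [nat_lit 2521600001, nat_lit 1460000001, nat_lit 7200000], [], [nat_lit 14850767208, nat_lit 15187595676, nat_lit 15847963365, nat_lit 15341513483, nat_lit 13958065065, nat_lit 14251186973, nat_lit 16559702272, nat_lit 16060229167], nat_lit 1271250, nat_lit 1271250, nat_lit 21650, nat_lit 780000, nat_lit 0, nat_lit 230001, [nat_lit 1100000, nat_lit 1442500, nat_lit 1271250], [nat_lit 11, nat_lit 40, nat_lit 20, nat_lit 80, nat_lit 1, nat_lit 345, nat_lit 125, nat_lit 10]⟩, ⟨p030_k11, nat_lit 0, nat_lit 0, nat_lit 412, nat_lit 0, nat_lit 107929, [nat_lit 0, nat_lit 0, nat_lit 0], [], [nat_lit 0, nat_lit 0, nat_lit 0, nat_lit 0, nat_lit 0, nat_lit 0, nat_lit 0, nat_lit 0], nat_lit 1271250, nat_lit 1271250, nat_lit 21650, nat_lit 780000, nat_lit 0, nat_lit 2260000, [nat_lit 1412500, nat_lit 1271250, nat_lit 1271250], [nat_lit 53, nat_lit 40, nat_lit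 20, nat_lit 80, nat_lit 14, nat_lit 401, nat_lit 175, nat_lit 11]⟩,
 ⟨nat_lit 5916, nat_lit 6021, ⟨.ofNat (nat_lit 110680), .ofNat (nat_lit 341093), .ofNat (nat_lit 153364), .ofNat (nat_lit 383777), .ofNat (nat_lit 115184), .ofNat (nat_lit 342931), .ofNat (nat_lit 157863), .ofNat (nat_lit 385610)⟩, ⟨.negSucc (nat_lit 89345), .negSucc (nat_lit 9892), .negSucc (nat_lit 68003), .ofNat (nat_lit 11449), .negSucc (nat_lit 84722), .negSucc (nat_lit 6188), .negSucc (nat_lit 63383), .ofNat (nat_lit 15150)⟩⟩, [⟨nat_lit 0, nat_lit 100, nat_lit 97, nat_lit 49, nat_lit 1103443⟩]⟩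
noncomputable def p030_l114 : Lf2 := ⟨nat_lit 0, nat_lit 8, [nat_lit 50, nat_lit 5, nat_lit 5, nat_lit 20], false, nat_lit 40, nat_lit 80, nat_lit 0, nat_lit 320, ⟨nat_lit 0, nat_lit 0, nat_lit 1000, nat_lit 5, nat_lit 98, nat_lit 0, nat_lit 16, nat_lit 627, nat_lit 2017, nat_lit 226, nat_lit 88817, nat_lit 288, nat_lit 63235926, nat_lit 0, nat_lit 0, nat_lit 1081618, false, false⟩,
 nat_lit 0, nat_lit 7601, nat_lit 0, nat_lit 1240, nat_lit 4024, nat_lit 0, nat_lit 236, nat_lit 0, nat_lit 0, nat_lit 0, nat_lit 0, nat_lit 0, nat_lit 0, nat_lit 0, nat_lit 147, nat_lit 1000000, nat_lit 0, nat_lit 0, [(nat_lit 6, [(nat_lit 6, nat_lit 1000)])],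
 ⟨p030_k7, nat_lit 0, nat_lit 0, nat_lit 290, nat_lit 0, nat_lit 83751, [nat_lit 3329066667, nat_lit 3042400001, nat_lit 177599999], [], [nat_lit 12184203975, nat_lit 13209642286, nat_lit 11182457267, nat_lit 12196063484, nat_lit 11447787012, nat_lit 12320274743, nat_lit 10801866060, nat_lit 11547163484], nat_lit 1271250, nat_lit 1271250, nat_lit 21650, nat_lit 780000, nat_lit 230001, nat_lit 490000, [nat_lit 1100000, nat_lit 1442500, nat_lit 1271250], [nat_lit 11, nat_lit 40, nat_lit 20, nat_lit 80, nat_lit 1, nat_lit 345, nat_lit 125, nat_lit 10]⟩, ⟨p030_k11, nat_lit 0, nat_lit 0, nat_lit 412, nat_lit 0, nat_lit 107929, [nat_lit 0, nat_lit 0, nat_lit 0], [], [nat_lit 0, nat_lit 0, nat_lit 0, nat_lit 0, nat_lit 0, nat_lit 0, nat_lit 0, nat_lit 0], nat_lit 1271250, nat_lit 1271250, nat_lit 21650, nat_lit 780000, nat_lit 0, nat_lit 2260000, [nat_lit 1412500, nat_lit 1271250, nat_lit 1271250], [nat_lit 53, nat_lit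 40, nat_lit 20, nat_lit 80, nat_lit 14, nat_lit 401, nat_lit 175, nat_lit 11]⟩,
 ⟨nat_lit 5916, nat_lit 6325, ⟨.ofNat (nat_lit 96904), .ofNat (nat_lit 335470), .ofNat (nat_lit 139640), .ofNat (nat_lit 378206), .ofNat (nat_lit 115184), .ofNat (nat_lit 342931), .ofNat (nat_lit 157863), .ofNat (nat_lit 385610)⟩, ⟨.negSucc (nat_lit 21368), .ofNat (nat_lit 60895), .negSucc (nat_lit 0), .ofNat (nat_lit 82263), .negSucc (nat_lit 6188), .ofNat (nat_lit 72344), .ofNat (nat_lit 15150), .ofNat (nat_lit 93684)⟩⟩, [⟨nat_lit 0, nat_lit 100, nat_lit 97, nat_lit 49, nat_lit 152609756⟩]⟩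
noncomputable def p030_l115 : Lf2 := ⟨nat_lit 1, nat_lit 10, [nat_lit 0, nat_lit 5, nat_lit 5, nat_lit 20], false, nat_lit 0, nat_lit 80, nat_lit 0, nat_lit 320, zbN0,
 nat_lit 0, nat_lit 0, nat_lit 0, nat_lit 0, nat_lit 0, nat_lit 0, nat_lit 0, nat_lit 0, nat_lit 0, nat_lit 0, nat_lit 0, nat_lit 0, nat_lit 0, nat_lit 0, nat_lit 0, nat_lit 0, nat_lit 0, nat_lit 0, [],
 C1.Rw.none, C1.Rw.none,
 zbF0, []⟩
noncomputable def p030_l116 : Lf2 := ⟨nat_lit 0, nat_lit 10, [nat_lit 0, nat_lit 5, nat_lit 5, nat_lit 20], false, nat_lit 0, nat_lit 80, nat_lit 0, nat_lit 320, ⟨nat_lit 0, nat_lit 0, nat_lit 1000, nat_lit 5, nat_lit 103, nat_lit 504, nat_lit 17, nat_lit 1000, nat_lit 67, nat_lit 217, nat_lit 98817, nat_lit 292, nat_lit 62836477, nat_lit 0, nat_lit 0, nat_lit 1164101, false, false⟩,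
 nat_lit 0, nat_lit 6719, nat_lit 0, nat_lit 0, nat_lit 3910, nat_lit 0, nat_lit 0, nat_lit 0, nat_lit 0, nat_lit 0, nat_lit 0, nat_lit 0, nat_lit 0, nat_lit 0, nat_lit 152, nat_lit 770200, nat_lit 0, nat_lit 0, [(nat_lit 9, [(nat_lit 5, nat_lit 383), (nat_lit 6, nat_lit 617)])],
 ⟨p030_k4, nat_lit 0, nat_lit 0, nat_lit 338, nat_lit 0, nat_lit 129364, [nat_lit 3693830400, nat_lit 2725212000, nat_lit 136264000], [], [nat_lit 14785803509, nat_lit 15399987825, nat_lit 15525117100, nat_lit 14763730150, nat_lit 13778349580, nat_lit 14127415432, nat_lit 17572599440, nat_lit 16638719400], nat_lit 1271250, nat_lit 1271250, nat_lit 43600, nat_lit 780000, nat_lit 0, nat_lit 490000, [nat_lit 1100000, nat_lit 1442500, nat_lit 1271250], [nat_lit 11, nat_lit 40, nat_lit 20, nat_lit 80, nat_lit 1, nat_lit 345, nat_lit 125, nat_lit 10]⟩, ⟨p030_k10, nat_lit 0, nat_lit 0, nat_lit 490, nat_lit 0, nat_lit 187236, [nat_lit 0, nat_lit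 0, nat_lit 0], [], [nat_lit 0, nat_lit 0, nat_lit 0, nat_lit 0, nat_lit 0, nat_lit 0, nat_lit 0, nat_lit 0], nat_lit 1271250, nat_lit 1271250, nat_lit 43600, nat_lit 780000, nat_lit 0, nat_lit 2260000, [nat_lit 1412500, nat_lit 1271250, nat_lit 1271250], [nat_lit 53, nat_lit 40, nat_lit 20, nat_lit 80, nat_lit 14, nat_lit 401, nat_lit 175, nat_lit 11]⟩,
 ⟨nat_lit 5700, nat_lit 5917, ⟨.ofNat (nat_lit 123037), .ofNat (nat_lit 342931), .ofNat (nat_lit 165716), .ofNat (nat_lit 385610), .ofNat (nat_lit 131747), .ofNat (nat_lit 346560), .ofNat (nat_lit 174431), .ofNat (nat_lit 389244)⟩, ⟨.negSucc (nat_lit 84722), .ofNat (nat_lit 72344), .negSucc (nat_lit 63383), .ofNat (nat_lit 93684), .negSucc (nat_lit 75673), .ofNat (nat_lit 77764), .negSucc (nat_lit 54331), .ofNat (nat_lit 99106)⟩⟩, []⟩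
noncomputable def p030_l117 : Lf2 := ⟨nat_lit 0, nat_lit 10, [nat_lit 0, nat_lit 5, nat_lit 5, nat_lit 20], false, nat_lit 0, nat_lit 80, nat_lit 0, nat_lit 320, ⟨nat_lit 0, nat_lit 0, nat_lit 1000, nat_lit 5, nat_lit 107, nat_lit 0, nat_lit 18, nat_lit 632, nat_lit 417, nat_lit 220, nat_lit 106667, nat_lit 295, nat_lit 62531169, nat_lit 0, nat_lit 0, nat_lit 1225071, false, false⟩,
 nat_lit 0, nat_lit 6465, nat_lit 0, nat_lit 0, nat_lit 3937, nat_lit 0, nat_lit 0, nat_lit 0, nat_lit 0, nat_lit 0, nat_lit 0, nat_lit 0, nat_lit 0, nat_lit 0, nat_lit 142, nat_lit 715000, nat_lit 0, nat_lit 0, [(nat_lit 9, [(nat_lit 5, nat_lit 475), (nat_lit 6, nat_lit 525)])],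
 ⟨p030_k30, nat_lit 0, nat_lit 0, nat_lit 352, nat_lit 0, nat_lit 177593, [nat_lit 3573280001, nat_lit 2552566667, nat_lit 102333333], [], [nat_lit 15456709110, nat_lit 16091985687, nat_lit 15123486408, nat_lit 15694285263, nat_lit 14296966501, nat_lit 14894198219, nat_lit 16676402435, nat_lit 15736073607], nat_lit 1271250, nat_lit 1271250, nat_lit 65850, nat_lit 780000, nat_lit 0, nat_lit 490000, [nat_lit 1100000, nat_lit 1442500, nat_lit 1271250], [nat_lit 11, nat_lit 40, nat_lit 20, nat_lit 80, nat_lit 1, nat_lit 345, nat_lit 125, nat_lit 10]⟩, ⟨p030_k10, nat_lit 0, nat_lit 0, nat_lit 516, nat_lit 0, nat_lit 271103, [nat_lit 0, nat_lit 0, nat_lit 0], [], [nat_lit 0, nat_lit 0, nat_lit 0, nat_lit 0, nat_lit 0, nat_lit 0, nat_lit 0, nat_lit 0], nat_lit 1271250, nat_lit 1271250, nat_lit 65850, nat_lit 780000, nat_lit 0, nat_lit 2260000, [nat_lit 1412500, nat_lit 1271250, nat_lit 1271250], [nat_lit 53, nat_lit 40,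 nat_lit 20, nat_lit 80, nat_lit 14, nat_lit 401, nat_lit 175, nat_lit 11]⟩,
 ⟨nat_lit 5477, nat_lit 5701, ⟨.ofNat (nat_lit 139419), .ofNat (nat_lit 346560), .ofNat (nat_lit 182103), .ofNat (nat_lit 389244), .ofNat (nat_lit 147813), .ofNat (nat_lit 350132), .ofNat (nat_lit 190527), .ofNat (nat_lit 392847)⟩, ⟨.negSucc (nat_lit 75673), .ofNat (nat_lit 77764), .negSucc (nat_lit 54331), .ofNat (nat_lit 99106), .negSucc (nat_lit 66879), .ofNat (nat_lit 82986), .negSucc (nat_lit 45522), .ofNat (nat_lit 104343)⟩⟩, [⟨nat_lit 0, nat_lit 100, nat_lit 94, nat_lit 59, nat_lit 12961525⟩]⟩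
noncomputable def b_VL_600_500_5_17 : St := ⟨true, nat_lit 1, nat_lit 1, nat_lit 1, nat_lit 40, nat_lit 240, nat_lit 280, nat_lit 200, nat_lit 240, nat_lit 4, nat_lit 120, nat_lit 20, nat_lit 40, nat_lit 0, nat_lit 80, nat_lit 0, nat_lit 320, nat_lit 20, nat_lit 40, nat_lit 0, nat_lit 0, nat_lit 0, nat_lit 0⟩
theorem d_VL_600_500_5_17 (h : EB TB.env) : Dead b_VL_600_500_5_17 := chkB_sound0 h (T :=
(.spl (nat_lit 0) (nat_lit 260)
(.spl (nat_lit 6) (nat_lit 32)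
(.spl (nat_lit 4) (nat_lit 40)
(.spl (nat_lit 0) (nat_lit 250)
(.leaf p030_l111)
(.spl (nat_lit 0) (nat_lit 255)
(.leaf p030_l112)
(.leaf p030_l113)))
(.leaf p030_l114))
(.leaf p030_l115))
(.trZ (nat_lit 0) (nat_lit 100) (nat_lit 95) (nat_lit 30) (nat_lit 8) (.spl (nat_lit 0) (nat_lit 270)
(.leaf p030_l116)
(.trZ (nat_lit 0) (nat_lit 100) (nat_lit 94) (nat_lit 35) (nat_lit 12) (.leaf p030_l117)))))) (by decide +kernel)
noncomputable def p030_l118 : Lf2 := ⟨nat_lit 0, nat_lit 5, [nat_lit 4, nat_lit 5, nat_lit 5, nat_lit 20], false, nat_lit 0, nat_lit 80, nat_lit 0, nat_lit 320, ⟨nat_lit 77, nat_lit 0, nat_lit 923, nat_lit 5, nat_lit 156, nat_lit 0, nat_lit 15, nat_lit 0, nat_lit 17, nat_lit 214, nat_lit 228150, nat_lit 332, nat_lit 58151647, nat_lit 0, nat_lit 0, nat_lit 1951464, false, false⟩,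
 nat_lit 994, nat_lit 8814, nat_lit 0, nat_lit 0, nat_lit 5192, nat_lit 426, nat_lit 613, nat_lit 0, nat_lit 0, nat_lit 142, nat_lit 0, nat_lit 0, nat_lit 0, nat_lit 0, nat_lit 109, nat_lit 923000, nat_lit 0, nat_lit 0, [(nat_lit 6, [(nat_lit 6, nat_lit 923)])],
 ⟨p030_k5, nat_lit 0, nat_lit 0, nat_lit 285, nat_lit 0, nat_lit 208309, [nat_lit 3006808534, nat_lit 2755765201, nat_lit 162678799], [], [nat_lit 10703251873, nat_lit 12096928193, nat_lit 11455064999, nat_lit 13090956448, nat_lit 9037868871, nat_lit 9837158263, nat_lit 11636059367, nat_lit 10720163079], nat_lit 1271250, nat_lit 1271250, nat_lit 780000, nat_lit 1100001, nat_lit 0, nat_lit 490000, [nat_lit 1100000, nat_lit 1442500, nat_lit 1271250], [nat_lit 11, nat_lit 40, nat_lit 20, nat_lit 80, nat_lit 1, nat_lit 345, nat_lit 125, nat_lit 10]⟩, ⟨p030_k6, nat_lit 0, nat_lit 0, nat_lit 382, nat_lit 0, nat_lit 267014, [nat_lit 481250000, nat_lit 613536000,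 nat_lit 914144000], [], [nat_lit 3151656764, nat_lit 2926414376, nat_lit 2750569922, nat_lit 2790400234, nat_lit 3059254180, nat_lit 2867820092, nat_lit 3301628680, nat_lit 3103580428], nat_lit 1271250, nat_lit 1271250, nat_lit 780000, nat_lit 1100001, nat_lit 0, nat_lit 2260000, [nat_lit 1412500, nat_lit 1271250, nat_lit 1271250], [nat_lit 53, nat_lit 40, nat_lit 20, nat_lit 80, nat_lit 14, nat_lit 401, nat_lit 175, nat_lit 11]⟩,
 ⟨nat_lit 5916, nat_lit 6325, ⟨.ofNat (nat_lit 335470), .ofNat (nat_lit 417734), .ofNat (nat_lit 356838), .ofNat (nat_lit 439102), .ofNat (nat_lit 342931), .ofNat (nat_lit 421465), .ofNat (nat_lit 364271), .ofNat (nat_lit 442804)⟩, ⟨.negSucc (nat_lit 103633), .ofNat (nat_lit 60895), .negSucc (nat_lit 82265), .ofNat (nat_lit 82263), .negSucc (nat_lit 84722), .ofNat (nat_lit 72344), .negSucc (nat_lit 63383), .ofNat (nat_lit 93684)⟩⟩, [⟨nat_lit 7, nat_lit 88, nat_lit 100, nat_lit 53, nat_lit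 24732485⟩]⟩
noncomputable def p030_l119 : Lf2 := ⟨nat_lit 1, nat_lit 10, [nat_lit 0, nat_lit 5, nat_lit 5, nat_lit 20], false, nat_lit 0, nat_lit 80, nat_lit 0, nat_lit 320, zbN0,
 nat_lit 0, nat_lit 0, nat_lit 0, nat_lit 0, nat_lit 0, nat_lit 0, nat_lit 0, nat_lit 0, nat_lit 0, nat_lit 0, nat_lit 0, nat_lit 0, nat_lit 0, nat_lit 0, nat_lit 0, nat_lit 0, nat_lit 0, nat_lit 0, [],
 C1.Rw.none, C1.Rw.none,
 zbF0, []⟩
noncomputable def p030_l120 : Lf2 := ⟨nat_lit 0, nat_lit 10, [nat_lit 0, nat_lit 5, nat_lit 5, nat_lit 20], false, nat_lit 0, nat_lit 80, nat_lit 0, nat_lit 320, ⟨nat_lit 0, nat_lit 0, nat_lit 1000, nat_lit 5, nat_lit 158, nat_lit 0, nat_lit 18, nat_lit 0, nat_lit 150, nat_lit 218, nat_lit 236017, nat_lit 334, nat_lit 57934542, nat_lit 0, nat_lit 0, nat_lit 1981742, false, false⟩,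
 nat_lit 0, nat_lit 9477, nat_lit 0, nat_lit 0, nat_lit 5516, nat_lit 0, nat_lit 1131, nat_lit 0, nat_lit 0, nat_lit 0, nat_lit 0, nat_lit 0, nat_lit 0, nat_lit 0, nat_lit 87, nat_lit 400000, nat_lit 0, nat_lit 0, [(nat_lit 9, [(nat_lit 5, nat_lit 1000)])],
 ⟨p030_k4, nat_lit 0, nat_lit 0, nat_lit 333, nat_lit 0, nat_lit 321763, [nat_lit 2918400000, nat_lit 1608666667, nat_lit 9200000], [], [nat_lit 17563978960, nat_lit 14691367512, nat_lit 14230964688, nat_lit 15375517792, nat_lit 13355172888, nat_lit 10720245880, nat_lit 16461579648, nat_lit 13862407352], nat_lit 1271250, nat_lit 1271250, nat_lit 780000, nat_lit 1100001, nat_lit 0, nat_lit 490000, [nat_lit 1100000, nat_lit 1442500, nat_lit 1271250], [nat_lit 11, nat_lit 40, nat_lit 20, nat_lit 80, nat_lit 1, nat_lit 373, nat_lit 150, nat_lit 11]⟩, ⟨p030_k10, nat_lit 0, nat_lit 0, nat_lit 515, nat_lit 0, nat_lit 465705, [nat_lit 0, nat_lit 0, nat_lit 0], [], [nat_lit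 0, nat_lit 0, nat_lit 0, nat_lit 0, nat_lit 0, nat_lit 0, nat_lit 0, nat_lit 0], nat_lit 1271250, nat_lit 1271250, nat_lit 780000, nat_lit 1100001, nat_lit 0, nat_lit 2260000, [nat_lit 1412500, nat_lit 1271250, nat_lit 1271250], [nat_lit 53, nat_lit 40, nat_lit 20, nat_lit 80, nat_lit 14, nat_lit 401, nat_lit 175, nat_lit 11]⟩,
 ⟨nat_lit 5477, nat_lit 5917, ⟨.ofNat (nat_lit 342931), .ofNat (nat_lit 421465), .ofNat (nat_lit 364271), .ofNat (nat_lit 442804), .ofNat (nat_lit 350132), .ofNat (nat_lit 425065), .ofNat (nat_lit 371489), .ofNat (nat_lit 446423)⟩, ⟨.negSucc (nat_lit 84722), .ofNat (nat_lit 72344), .negSucc (nat_lit 63383), .ofNat (nat_lit 93684), .negSucc (nat_lit 66879), .ofNat (nat_lit 82986), .negSucc (nat_lit 45522), .ofNat (nat_lit 104343)⟩⟩, []⟩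
noncomputable def p030_l121 : Lf2 := ⟨nat_lit 0, nat_lit 10, [nat_lit 0, nat_lit 5, nat_lit 5, nat_lit 20], false, nat_lit 0, nat_lit 40, nat_lit 0, nat_lit 304, ⟨nat_lit 532, nat_lit 0, nat_lit 468, nat_lit 5, nat_lit 157, nat_lit 0, nat_lit 1, nat_lit 0, nat_lit 2817, nat_lit 202, nat_lit 228150, nat_lit 332, nat_lit 58102233, nat_lit 0, nat_lit 0, nat_lit 1958396, false, false⟩,
 nat_lit 16259, nat_lit 3751, nat_lit 0, nat_lit 0, nat_lit 10593, nat_lit 7775, nat_lit 2360, nat_lit 0, nat_lit 0, nat_lit 0, nat_lit 0, nat_lit 0, nat_lit 0, nat_lit 0, nat_lit 0, nat_lit 468000, nat_lit 0, nat_lit 0, [(nat_lit 6, [(nat_lit 6, nat_lit 468)])],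
 ⟨p030_k13, nat_lit 0, nat_lit 0, nat_lit 390, nat_lit 0, nat_lit 312122, [nat_lit 2951283200, nat_lit 3255848321, nat_lit 3992939200], [], [nat_lit 17027195098, nat_lit 14964710876, nat_lit 19051661514, nat_lit 15144551784, nat_lit 17358482530, nat_lit 12226650715, nat_lit 19455129648, nat_lit 14358879720], nat_lit 1271250, nat_lit 1271250, nat_lit 780000, nat_lit 936251, nat_lit 0, nat_lit 230001, [nat_lit 1100000, nat_lit 1442500, nat_lit 1271250], [nat_lit 48, nat_lit 40, nat_lit 20, nat_lit 80, nat_lit 12, nat_lit 345, nat_lit 125, nat_lit 9]⟩, ⟨p030_k32, nat_lit 0, nat_lit 0, nat_lit 418, nat_lit 0, nat_lit 352813, [nat_lit 3325000000, nat_lit 4238976000, nat_lit 6315904000], [], [nat_lit 25026924434, nat_lit 20915986484, nat_lit 20932096284, nat_lit 17571148280, nat_lit 17218647834, nat_lit 15321250404, nat_lit 18739378332, nat_lit 15080264292], nat_lit 1271250, nat_lit 1271250, nat_lit 780000, nat_lit 936251,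 nat_lit 0, nat_lit 2147000, [nat_lit 1412500, nat_lit 1271250, nat_lit 1271250], [nat_lit 53, nat_lit 40, nat_lit 20, nat_lit 80, nat_lit 14, nat_lit 401, nat_lit 175, nat_lit 10]⟩,
 ⟨nat_lit 5916, nat_lit 6325, ⟨.ofNat (nat_lit 356838), .ofNat (nat_lit 397970), .ofNat (nat_lit 378206), .ofNat (nat_lit 419338), .ofNat (nat_lit 364271), .ofNat (nat_lit 403537), .ofNat (nat_lit 385610), .ofNat (nat_lit 424877)⟩, ⟨.negSucc (nat_lit 103633), .negSucc (nat_lit 21368), .negSucc (nat_lit 82265), .negSucc (nat_lit 0), .negSucc (nat_lit 84722), .negSucc (nat_lit 6188), .negSucc (nat_lit 63383), .ofNat (nat_lit 15150)⟩⟩, []⟩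
noncomputable def p030_l122 : Lf2 := ⟨nat_lit 0, nat_lit 10, [nat_lit 0, nat_lit 5, nat_lit 5, nat_lit 20], false, nat_lit 0, nat_lit 40, nat_lit 0, nat_lit 304, ⟨nat_lit 330, nat_lit 0, nat_lit 670, nat_lit 5, nat_lit 159, nat_lit 0, nat_lit 3, nat_lit 0, nat_lit 1067, nat_lit 207, nat_lit 236017, nat_lit 334, nat_lit 57848629, nat_lit 0, nat_lit 0, nat_lit 1993600, false, false⟩,
 nat_lit 9401, nat_lit 1450, nat_lit 0, nat_lit 0, nat_lit 6316, nat_lit 4496, nat_lit 1064, nat_lit 0, nat_lit 0, nat_lit 0, nat_lit 0, nat_lit 0, nat_lit 0, nat_lit 0, nat_lit 13, nat_lit 670000, nat_lit 0, nat_lit 0, [(nat_lit 9, [(nat_lit 6, nat_lit 670)])],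
 ⟨p030_k4, nat_lit 0, nat_lit 0, nat_lit 360, nat_lit 0, nat_lit 392023, [nat_lit 2490432000, nat_lit 2035293334, nat_lit 113810666], [], [nat_lit 14451827988, nat_lit 15137694464, nat_lit 15933079476, nat_lit 15406214912, nat_lit 15063554344, nat_lit 12606123592, nat_lit 16587230404, nat_lit 13548628068], nat_lit 1271250, nat_lit 1271250, nat_lit 780000, nat_lit 936251, nat_lit 0, nat_lit 230001, [nat_lit 1100000, nat_lit 1442500, nat_lit 1271250], [nat_lit 11, nat_lit 40, nat_lit 20, nat_lit 80, nat_lit 1, nat_lit 345, nat_lit 125, nat_lit 10]⟩, ⟨p030_k32, nat_lit 0, nat_lit 0, nat_lit 524, nat_lit 0, nat_lit 496046, [nat_lit 2062500000, nat_lit 2629440000, nat_lit 3917760000], [], [nat_lit 15198982552, nat_lit 12821776504, nat_lit 12831092216, nat_lit 10832096552, nat_lit 10821791208, nat_lit 9676313264, nat_lit 11715151821, nat_lit 9599219124], nat_lit 1271250, nat_lit 1271250, nat_lit 780000, nat_lit 936251,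 nat_lit 0, nat_lit 2147000, [nat_lit 1412500, nat_lit 1271250, nat_lit 1271250], [nat_lit 53, nat_lit 40, nat_lit 20, nat_lit 80, nat_lit 14, nat_lit 401, nat_lit 175, nat_lit 10]⟩,
 ⟨nat_lit 5477, nat_lit 5917, ⟨.ofNat (nat_lit 364271), .ofNat (nat_lit 403537), .ofNat (nat_lit 385610), .ofNat (nat_lit 424877), .ofNat (nat_lit 371489), .ofNat (nat_lit 408956), .ofNat (nat_lit 392847), .ofNat (nat_lit 430313)⟩, ⟨.negSucc (nat_lit 84722), .negSucc (nat_lit 6188), .negSucc (nat_lit 63383), .ofNat (nat_lit 15150), .negSucc (nat_lit 66879), .ofNat (nat_lit 8053), .negSucc (nat_lit 45522), .ofNat (nat_lit 29410)⟩⟩, []⟩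
noncomputable def p030_l123 : Lf2 := ⟨nat_lit 0, nat_lit 10, [nat_lit 0, nat_lit 5, nat_lit 5, nat_lit 20], false, nat_lit 0, nat_lit 20, nat_lit 0, nat_lit 304, ⟨nat_lit 250, nat_lit 0, nat_lit 750, nat_lit 5, nat_lit 167, nat_lit 0, nat_lit 0, nat_lit 0, nat_lit 3750, nat_lit 200, nat_lit 260417, nat_lit 340, nat_lit 57031670, nat_lit 0, nat_lit 0, nat_lit 2102942, false, false⟩,
 nat_lit 12736, nat_lit 726, nat_lit 0, nat_lit 0, nat_lit 7126, nat_lit 6091, nat_lit 1154, nat_lit 0, nat_lit 0, nat_lit 116, nat_lit 0, nat_lit 0, nat_lit 0, nat_lit 0, nat_lit 34, nat_lit 750000, nat_lit 0, nat_lit 0, [(nat_lit 6, [(nat_lit 6, nat_lit 750)]), (nat_lit 9, [(nat_lit 6, nat_lit 750)])],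
 ⟨p030_k13, nat_lit 0, nat_lit 0, nat_lit 489, nat_lit 0, nat_lit 438836, [nat_lit 2539200001, nat_lit 2131680001, nat_lit 333300000], [], [nat_lit 18827565107, nat_lit 16080064782, nat_lit 19174859197, nat_lit 16116840688, nat_lit 18991954353, nat_lit 14886467554, nat_lit 19344037115, nat_lit 14921823761], nat_lit 1271250, nat_lit 1271250, nat_lit 936251, nat_lit 968401, nat_lit 0, nat_lit 111251, [nat_lit 1100000, nat_lit 1442500, nat_lit 1271250], [nat_lit 48, nat_lit 40, nat_lit 20, nat_lit 80, nat_lit 12, nat_lit 345, nat_lit 125, nat_lit 9]⟩, ⟨p030_k32, nat_lit 0, nat_lit 0, nat_lit 516, nat_lit 0, nat_lit 496046, [nat_lit 1562500000, nat_lit 1992000000, nat_lit 2968000000], [], [nat_lit 10978246676, nat_lit 8287382492, nat_lit 10341310806, nat_lit 8271858050, nat_lit 8126727897, nat_lit 5260147368, nat_lit 8370700462, nat_lit 5507977241], nat_lit 1271250, nat_lit 1271250, nat_lit 936251, nat_lit 968401, nat_lit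 0, nat_lit 2147000, [nat_lit 1412500, nat_lit 1271250, nat_lit 1271250], [nat_lit 53, nat_lit 40, nat_lit 20, nat_lit 80, nat_lit 14, nat_lit 401, nat_lit 175, nat_lit 10]⟩,
 ⟨nat_lit 5477, nat_lit 6325, ⟨.ofNat (nat_lit 397970), .ofNat (nat_lit 406196), .ofNat (nat_lit 419338), .ofNat (nat_lit 427564), .ofNat (nat_lit 408956), .ofNat (nat_lit 416449), .ofNat (nat_lit 430313), .ofNat (nat_lit 437806)⟩, ⟨.negSucc (nat_lit 103633), .negSucc (nat_lit 62501), .negSucc (nat_lit 82265), .negSucc (nat_lit 41133), .negSucc (nat_lit 66879), .negSucc (nat_lit 29413), .negSucc (nat_lit 45522), .negSucc (nat_lit 8055)⟩⟩, []⟩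
noncomputable def p030_l124 : Lf2 := ⟨nat_lit 0, nat_lit 10, [nat_lit 0, nat_lit 5, nat_lit 5, nat_lit 20], false, nat_lit 0, nat_lit 20, nat_lit 0, nat_lit 304, ⟨nat_lit 168, nat_lit 0, nat_lit 832, nat_lit 5, nat_lit 170, nat_lit 0, nat_lit 0, nat_lit 0, nat_lit 3750, nat_lit 200, nat_lit 268817, nat_lit 342, nat_lit 56769083, nat_lit 0, nat_lit 0, nat_lit 2136820, false, false⟩,
 nat_lit 10795, nat_lit 0, nat_lit 0, nat_lit 0, nat_lit 5714, nat_lit 5162, nat_lit 292, nat_lit 0, nat_lit 0, nat_lit 0, nat_lit 0, nat_lit 0, nat_lit 0, nat_lit 0, nat_lit 77, nat_lit 832000, nat_lit 0, nat_lit 0, [(nat_lit 6, [(nat_lit 6, nat_lit 832)]), (nat_lit 9, [(nat_lit 6, nat_lit 832)])],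
 ⟨p030_k13, nat_lit 0, nat_lit 0, nat_lit 413, nat_lit 0, nat_lit 397558, [nat_lit 2932787200, nat_lit 2467063681, nat_lit 328780800], [], [nat_lit 20939487954, nat_lit 18291930472, nat_lit 20187648342, nat_lit 18384065118, nat_lit 19779389395, nat_lit 17397551890, nat_lit 20419160160, nat_lit 17492321958], nat_lit 1271250, nat_lit 1271250, nat_lit 968401, nat_lit 1033601, nat_lit 0, nat_lit 111251, [nat_lit 1100000, nat_lit 1442500, nat_lit 1271250], [nat_lit 48, nat_lit 40, nat_lit 20, nat_lit 80, nat_lit 12, nat_lit 345, nat_lit 125, nat_lit 9]⟩, ⟨p030_k32, nat_lit 0, nat_lit 0, nat_lit 496, nat_lit 0, nat_lit 449388, [nat_lit 1050000000, nat_lit 1338624000, nat_lit 1994496000], [], [nat_lit 7338278308, nat_lit 5985994330, nat_lit 6258697628, nat_lit 5836162640, nat_lit 5364355750, nat_lit 4151305572, nat_lit 5785784078, nat_lit 4576002891], nat_lit 1271250, nat_lit 1271250, nat_lit 968401, nat_lit 1033601, nat_lit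 0, nat_lit 2147000, [nat_lit 1412500, nat_lit 1271250, nat_lit 1271250], [nat_lit 53, nat_lit 40, nat_lit 20, nat_lit 80, nat_lit 14, nat_lit 401, nat_lit 175, nat_lit 10]⟩,
 ⟨nat_lit 5477, nat_lit 6325, ⟨.ofNat (nat_lit 406196), .ofNat (nat_lit 422649), .ofNat (nat_lit 416880), .ofNat (nat_lit 433333), .ofNat (nat_lit 416449), .ofNat (nat_lit 431436), .ofNat (nat_lit 427128), .ofNat (nat_lit 442114)⟩, ⟨.negSucc (nat_lit 103633), .negSucc (nat_lit 62501), .negSucc (nat_lit 82265), .negSucc (nat_lit 41133), .negSucc (nat_lit 66879), .negSucc (nat_lit 29413), .negSucc (nat_lit 45522), .negSucc (nat_lit 8055)⟩⟩, []⟩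
noncomputable def p030_l125 : Lf2 := ⟨nat_lit 0, nat_lit 10, [nat_lit 0, nat_lit 5, nat_lit 5, nat_lit 20], false, nat_lit 0, nat_lit 20, nat_lit 0, nat_lit 296, ⟨nat_lit 190, nat_lit 0, nat_lit 810, nat_lit 5, nat_lit 174, nat_lit 0, nat_lit 0, nat_lit 0, nat_lit 3750, nat_lit 200, nat_lit 209384, nat_lit 327, nat_lit 56330788, nat_lit 0, nat_lit 0, nat_lit 2192052, false, false⟩,
 nat_lit 10985, nat_lit 0, nat_lit 0, nat_lit 0, nat_lit 5815, nat_lit 5532, nat_lit 264, nat_lit 0, nat_lit 0, nat_lit 341, nat_lit 0, nat_lit 0, nat_lit 0, nat_lit 0, nat_lit 66, nat_lit 810000, nat_lit 0, nat_lit 0, [(nat_lit 6, [(nat_lit 6, nat_lit 810)]), (nat_lit 9, [(nat_lit 6, nat_lit 810)])],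
 ⟨p030_k13, nat_lit 0, nat_lit 0, nat_lit 488, nat_lit 0, nat_lit 438836, [nat_lit 2835776001, nat_lit 2387814401, nat_lit 347164000], [], [nat_lit 21204822122, nat_lit 18837275453, nat_lit 20431359635, nat_lit 18927626196, nat_lit 20012628382, nat_lit 17921619625, nat_lit 20659097790, nat_lit 18014668855], nat_lit 1271250, nat_lit 1271250, nat_lit 968401, nat_lit 1033601, nat_lit 0, nat_lit 111251, [nat_lit 1100000, nat_lit 1442500, nat_lit 1271250], [nat_lit 48, nat_lit 40, nat_lit 20, nat_lit 80, nat_lit 12, nat_lit 345, nat_lit 125, nat_lit 9]⟩, ⟨p030_k40, nat_lit 0, nat_lit 0, nat_lit 501, nat_lit 0, nat_lit 465942, [nat_lit 1187500000, nat_lit 1513920000, nat_lit 2255680000], [], [nat_lit 6738696484, nat_lit 5310671391, nat_lit 5586104284, nat_lit 5275036853, nat_lit 4593213043, nat_lit 3289637405, nat_lit 5048118360, nat_lit 3748066164], nat_lit 1271250, nat_lit 1271250, nat_lit 968401, nat_lit 1033601, nat_lit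 0, nat_lit 2090500, [nat_lit 1412500, nat_lit 1271250, nat_lit 1271250], [nat_lit 53, nat_lit 40, nat_lit 20, nat_lit 80, nat_lit 14, nat_lit 401, nat_lit 175, nat_lit 10]⟩,
 ⟨nat_lit 5477, nat_lit 6325, ⟨.ofNat (nat_lit 416880), .ofNat (nat_lit 433333), .ofNat (nat_lit 427564), .ofNat (nat_lit 444017), .ofNat (nat_lit 427128), .ofNat (nat_lit 442114), .ofNat (nat_lit 437806), .ofNat (nat_lit 452793)⟩, ⟨.negSucc (nat_lit 103633), .negSucc (nat_lit 62501), .negSucc (nat_lit 82265), .negSucc (nat_lit 41133), .negSucc (nat_lit 66879), .negSucc (nat_lit 29413), .negSucc (nat_lit 45522), .negSucc (nat_lit 8055)⟩⟩, []⟩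
noncomputable def p030_l126 : Lf2 := ⟨nat_lit 0, nat_lit 10, [nat_lit 0, nat_lit 5, nat_lit 5, nat_lit 20], false, nat_lit 20, nat_lit 40, nat_lit 0, nat_lit 304, ⟨nat_lit 222, nat_lit 0, nat_lit 778, nat_lit 5, nat_lit 170, nat_lit 0, nat_lit 2, nat_lit 0, nat_lit 417, nat_lit 210, nat_lit 209384, nat_lit 327, nat_lit 56711426, nat_lit 0, nat_lit 0, nat_lit 2144179, false, false⟩,
 nat_lit 14346, nat_lit 0, nat_lit 0, nat_lit 0, nat_lit 7594, nat_lit 6860, nat_lit 1093, nat_lit 0, nat_lit 0, nat_lit 281, nat_lit 0, nat_lit 0, nat_lit 0, nat_lit 0, nat_lit 49, nat_lit 778000, nat_lit 0, nat_lit 0, [(nat_lit 6, [(nat_lit 6, nat_lit 778)]), (nat_lit 9, [(nat_lit 6, nat_lit 778)])],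
 ⟨p030_k13, nat_lit 0, nat_lit 0, nat_lit 414, nat_lit 0, nat_lit 438836, [nat_lit 2678668801, nat_lit 2252542721, nat_lit 341903200], [], [nat_lit 18221225722, nat_lit 14801860151, nat_lit 19060050265, nat_lit 15138893724, nat_lit 18332577391, nat_lit 13509525219, nat_lit 19479105267, nat_lit 13609347102], nat_lit 1271250, nat_lit 1271250, nat_lit 936251, nat_lit 1033601, nat_lit 111251, nat_lit 230001, [nat_lit 1100000, nat_lit 1442500, nat_lit 1271250], [nat_lit 48, nat_lit 40, nat_lit 20, nat_lit 80, nat_lit 12, nat_lit 345, nat_lit 125, nat_lit 9]⟩, ⟨p030_k32, nat_lit 0, nat_lit 0, nat_lit 516, nat_lit 0, nat_lit 496046, [nat_lit 1387500000, nat_lit 1768896000, nat_lit 2635584000], [], [nat_lit 10428473624, nat_lit 6934364775, nat_lit 8276423024, nat_lit 6863984982, nat_lit 6812036080, nat_lit 4376516469, nat_lit 7638875546, nat_lit 4423416832], nat_lit 1271250, nat_lit 1271250, nat_lit 936251, nat_lit 1033601,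 nat_lit 0, nat_lit 2147000, [nat_lit 1412500, nat_lit 1271250, nat_lit 1271250], [nat_lit 53, nat_lit 40, nat_lit 20, nat_lit 80, nat_lit 14, nat_lit 401, nat_lit 175, nat_lit 10]⟩,
 ⟨nat_lit 5477, nat_lit 6325, ⟨.ofNat (nat_lit 397970), .ofNat (nat_lit 422649), .ofNat (nat_lit 419338), .ofNat (nat_lit 444017), .ofNat (nat_lit 408956), .ofNat (nat_lit 431436), .ofNat (nat_lit 430313), .ofNat (nat_lit 452793)⟩, ⟨.negSucc (nat_lit 62501), .negSucc (nat_lit 21368), .negSucc (nat_lit 41133), .negSucc (nat_lit 1), .negSucc (nat_lit 29413), .ofNat (nat_lit 8053), .negSucc (nat_lit 8055), .ofNat (nat_lit 29409)⟩⟩, []⟩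
noncomputable def p030_l127 : Lf2 := ⟨nat_lit 0, nat_lit 10, [nat_lit 0, nat_lit 5, nat_lit 5, nat_lit 20], false, nat_lit 0, nat_lit 40, nat_lit 0, nat_lit 304, ⟨nat_lit 284, nat_lit 0, nat_lit 716, nat_lit 5, nat_lit 177, nat_lit 0, nat_lit 1, nat_lit 0, nat_lit 2817, nat_lit 202, nat_lit 121179, nat_lit 300, nat_lit 55983931, nat_lit 0, nat_lit 0, nat_lit 2234625, false, false⟩,
 nat_lit 19261, nat_lit 0, nat_lit 0, nat_lit 0, nat_lit 10196, nat_lit 9211, nat_lit 1237, nat_lit 0, nat_lit 0, nat_lit 929, nat_lit 0, nat_lit 0, nat_lit 0, nat_lit 0, nat_lit 16, nat_lit 716000, nat_lit 0, nat_lit 0, [(nat_lit 6, [(nat_lit 6, nat_lit 716)])],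
 ⟨p030_k13, nat_lit 0, nat_lit 0, nat_lit 380, nat_lit 0, nat_lit 312122, [nat_lit 2286971734, nat_lit 1989203841, nat_lit 329710400], [], [nat_lit 19590043810, nat_lit 15888850293, nat_lit 17796971608, nat_lit 15927687963, nat_lit 17283839805, nat_lit 12398858716, nat_lit 18288315376, nat_lit 13416850104], nat_lit 1271250, nat_lit 1271250, nat_lit 1033601, nat_lit 1100001, nat_lit 0, nat_lit 230001, [nat_lit 1100000, nat_lit 1442500, nat_lit 1271250], [nat_lit 48, nat_lit 40, nat_lit 20, nat_lit 80, nat_lit 12, nat_lit 345, nat_lit 125, nat_lit 9]⟩, ⟨p030_k32, nat_lit 0, nat_lit 0, nat_lit 406, nat_lit 0, nat_lit 352813, [nat_lit 1775000000, nat_lit 2262912000, nat_lit 3371648000], [], [nat_lit 10655184594, nat_lit 6546387621, nat_lit 8728796054, nat_lit 6480562323, nat_lit 9697929868, nat_lit 5566736654, nat_lit 10491382035, nat_lit 6185615344], nat_lit 1271250, nat_lit 1271250, nat_lit 1033601, nat_lit 1100001,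 nat_lit 0, nat_lit 2147000, [nat_lit 1412500, nat_lit 1271250, nat_lit 1271250], [nat_lit 53, nat_lit 40, nat_lit 20, nat_lit 80, nat_lit 14, nat_lit 428, nat_lit 200, nat_lit 11]⟩,
 ⟨nat_lit 5916, nat_lit 6325, ⟨.ofNat (nat_lit 422649), .ofNat (nat_lit 439102), .ofNat (nat_lit 444017), .ofNat (nat_lit 460470), .ofNat (nat_lit 427097), .ofNat (nat_lit 442804), .ofNat (nat_lit 448437), .ofNat (nat_lit 464143)⟩, ⟨.negSucc (nat_lit 103633), .negSucc (nat_lit 21368), .negSucc (nat_lit 82265), .negSucc (nat_lit 0), .negSucc (nat_lit 84722), .negSucc (nat_lit 6188), .negSucc (nat_lit 63383), .ofNat (nat_lit 15150)⟩⟩, [⟨nat_lit 19, nat_lit 100, nat_lit 93, nat_lit 53, nat_lit 66877040⟩]⟩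
noncomputable def p030_l128 : Lf2 := ⟨nat_lit 0, nat_lit 10, [nat_lit 0, nat_lit 5, nat_lit 5, nat_lit 20], false, nat_lit 0, nat_lit 40, nat_lit 0, nat_lit 304, ⟨nat_lit 184, nat_lit 0, nat_lit 816, nat_lit 5, nat_lit 179, nat_lit 0, nat_lit 3, nat_lit 0, nat_lit 1067, nat_lit 207, nat_lit 104024, nat_lit 294, nat_lit 55816663, nat_lit 0, nat_lit 0, nat_lit 2254805, false, false⟩,
 nat_lit 10651, nat_lit 0, nat_lit 0, nat_lit 0, nat_lit 6199, nat_lit 5093, nat_lit 959, nat_lit 0, nat_lit 0, nat_lit 0, nat_lit 0, nat_lit 0, nat_lit 0, nat_lit 0, nat_lit 92, nat_lit 816000, nat_lit 0, nat_lit 0, [(nat_lit 9, [(nat_lit 6, nat_lit 816)])],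
 ⟨p030_k4, nat_lit 0, nat_lit 0, nat_lit 350, nat_lit 0, nat_lit 392023, [nat_lit 3230233600, nat_lit 2640208001, nat_lit 160611199], [], [nat_lit 14831283721, nat_lit 15654374600, nat_lit 15537895458, nat_lit 15877599288, nat_lit 15515004157, nat_lit 13258490722, nat_lit 16238045724, nat_lit 13495908730], nat_lit 1271250, nat_lit 1271250, nat_lit 1033601, nat_lit 1100001, nat_lit 0, nat_lit 230001, [nat_lit 1100000, nat_lit 1442500, nat_lit 1271250], [nat_lit 11, nat_lit 40, nat_lit 20, nat_lit 80, nat_lit 1, nat_lit 345, nat_lit 125, nat_lit 10]⟩, ⟨p030_k32, nat_lit 0, nat_lit 0, nat_lit 511, nat_lit 0, nat_lit 496046, [nat_lit 1150000000, nat_lit 1466112000, nat_lit 2184448000], [], [nat_lit 6768021726, nat_lit 6525753616, nat_lit 6064628886, nat_lit 6494768308, nat_lit 6432568364, nat_lit 4045348068, nat_lit 6878451560, nat_lit 4497681854], nat_lit 1271250, nat_lit 1271250, nat_lit 1033601, nat_lit 1100001,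 nat_lit 0, nat_lit 2147000, [nat_lit 1412500, nat_lit 1271250, nat_lit 1271250], [nat_lit 53, nat_lit 40, nat_lit 20, nat_lit 80, nat_lit 14, nat_lit 428, nat_lit 200, nat_lit 11]⟩,
 ⟨nat_lit 5477, nat_lit 5917, ⟨.ofNat (nat_lit 427097), .ofNat (nat_lit 442804), .ofNat (nat_lit 448437), .ofNat (nat_lit 464143), .ofNat (nat_lit 431436), .ofNat (nat_lit 446423), .ofNat (nat_lit 452793), .ofNat (nat_lit 467780)⟩, ⟨.negSucc (nat_lit 84722), .negSucc (nat_lit 6188), .negSucc (nat_lit 63383), .ofNat (nat_lit 15150), .negSucc (nat_lit 66879), .ofNat (nat_lit 8053), .negSucc (nat_lit 45522), .ofNat (nat_lit 29410)⟩⟩, []⟩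
noncomputable def p030_l129 : Lf2 := ⟨nat_lit 0, nat_lit 5, [nat_lit 4, nat_lit 5, nat_lit 5, nat_lit 20], false, nat_lit 40, nat_lit 80, nat_lit 0, nat_lit 304, ⟨nat_lit 872, nat_lit 0, nat_lit 128, nat_lit 5, nat_lit 157, nat_lit 0, nat_lit 16, nat_lit 0, nat_lit 2017, nat_lit 226, nat_lit 228150, nat_lit 332, nat_lit 58102233, nat_lit 0, nat_lit 0, nat_lit 1958396, false, false⟩,
 nat_lit 20896, nat_lit 0, nat_lit 0, nat_lit 0, nat_lit 11062, nat_lit 9993, nat_lit 3480, nat_lit 0, nat_lit 0, nat_lit 0, nat_lit 0, nat_lit 0, nat_lit 0, nat_lit 0, nat_lit 0, nat_lit 51200, nat_lit 0, nat_lit 0, [(nat_lit 6, [(nat_lit 5, nat_lit 128)])],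
 ⟨p030_k5, nat_lit 0, nat_lit 0, nat_lit 282, nat_lit 0, nat_lit 290141, [nat_lit 4269388800, nat_lit 5460240001, nat_lit 8335849600], [], [nat_lit 8218166908, nat_lit 10343338952, nat_lit 8276099852, nat_lit 10617256115, nat_lit 4385979752, nat_lit 6658593337, nat_lit 6091748337, nat_lit 6971953989], nat_lit 1271250, nat_lit 1271250, nat_lit 780000, nat_lit 936251, nat_lit 230001, nat_lit 490000, [nat_lit 1100000, nat_lit 1442500, nat_lit 1271250], [nat_lit 11, nat_lit 40, nat_lit 20, nat_lit 80, nat_lit 1, nat_lit 345, nat_lit 125, nat_lit 10]⟩, ⟨p030_k9, nat_lit 0, nat_lit 0, nat_lit 335, nat_lit 0, nat_lit 326654, [nat_lit 5450000000, nat_lit 6948096000, nat_lit 8582224000], [], [nat_lit 38284064750, nat_lit 33000385916, nat_lit 33021091412, nat_lit 27777484508, nat_lit 29410267398, nat_lit 24675220253, nat_lit 31482469099, nat_lit 26779507478], nat_lit 1271250, nat_lit 1271250, nat_lit 780000, nat_lit 936251,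 nat_lit 0, nat_lit 2147000, [nat_lit 1412500, nat_lit 1271250, nat_lit 1271250], [nat_lit 25, nat_lit 40, nat_lit 20, nat_lit 80, nat_lit 17, nat_lit 401, nat_lit 175, nat_lit 12]⟩,
 ⟨nat_lit 5916, nat_lit 6325, ⟨.ofNat (nat_lit 356838), .ofNat (nat_lit 397970), .ofNat (nat_lit 378206), .ofNat (nat_lit 419338), .ofNat (nat_lit 364271), .ofNat (nat_lit 403537), .ofNat (nat_lit 385610), .ofNat (nat_lit 424877)⟩, ⟨.negSucc (nat_lit 21368), .ofNat (nat_lit 60895), .negSucc (nat_lit 0), .ofNat (nat_lit 82263), .negSucc (nat_lit 6188), .ofNat (nat_lit 72344), .ofNat (nat_lit 15150), .ofNat (nat_lit 93684)⟩⟩, [⟨nat_lit 7, nat_lit 93, nat_lit 100, nat_lit 53, nat_lit 23311354⟩]⟩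
noncomputable def p030_l130 : Lf2 := ⟨nat_lit 0, nat_lit 5, [nat_lit 4, nat_lit 5, nat_lit 5, nat_lit 20], false, nat_lit 40, nat_lit 80, nat_lit 0, nat_lit 304, ⟨nat_lit 362, nat_lit 0, nat_lit 638, nat_lit 5, nat_lit 159, nat_lit 638, nat_lit 20, nat_lit 638, nat_lit 3750, nat_lit 230, nat_lit 236017, nat_lit 334, nat_lit 57848629, nat_lit 0, nat_lit 0, nat_lit 1993600, false, false⟩,
 nat_lit 9134, nat_lit 3798, nat_lit 0, nat_lit 0, nat_lit 7527, nat_lit 4368, nat_lit 2106, nat_lit 0, nat_lit 0, nat_lit 0, nat_lit 0, nat_lit 0, nat_lit 0, nat_lit 0, nat_lit 0, nat_lit 638000, nat_lit 0, nat_lit 0, [(nat_lit 9, [(nat_lit 6, nat_lit 638)])],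
 ⟨p030_k0, nat_lit 0, nat_lit 0, nat_lit 252, nat_lit 0, nat_lit 365690, [nat_lit 2397324801, nat_lit 1790380000, nat_lit 1223237200], [], [nat_lit 11958709639, nat_lit 12942251174, nat_lit 12848779943, nat_lit 13222002684, nat_lit 12728587189, nat_lit 9794109340, nat_lit 14475129243, nat_lit 10904124741], nat_lit 1271250, nat_lit 1271250, nat_lit 780000, nat_lit 936251, nat_lit 230001, nat_lit 490000, [nat_lit 1100000, nat_lit 1442500, nat_lit 1271250], [nat_lit 9, nat_lit 40, nat_lit 20, nat_lit 80, nat_lit 2, nat_lit 272, nat_lit 60, nat_lit 9]⟩, ⟨p030_k9, nat_lit 0, nat_lit 0, nat_lit 425, nat_lit 0, nat_lit 459268, [nat_lit 2262500000, nat_lit 2884416000, nat_lit 3562804000], [], [nat_lit 16111609880, nat_lit 13802082296, nat_lit 13811132792, nat_lit 11519120888, nat_lit 12114567528, nat_lit 10044850133, nat_lit 13008366439, nat_lit 10952673818], nat_lit 1271250, nat_lit 1271250, nat_lit 780000, nat_lit 936251,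 nat_lit 0, nat_lit 2147000, [nat_lit 1412500, nat_lit 1271250, nat_lit 1271250], [nat_lit 25, nat_lit 40, nat_lit 20, nat_lit 80, nat_lit 17, nat_lit 401, nat_lit 175, nat_lit 12]⟩,
 ⟨nat_lit 5477, nat_lit 5917, ⟨.ofNat (nat_lit 364271), .ofNat (nat_lit 403537), .ofNat (nat_lit 385610), .ofNat (nat_lit 424877), .ofNat (nat_lit 371489), .ofNat (nat_lit 408956), .ofNat (nat_lit 392847), .ofNat (nat_lit 430313)⟩, ⟨.negSucc (nat_lit 6188), .ofNat (nat_lit 72344), .ofNat (nat_lit 15150), .ofNat (nat_lit 93684), .ofNat (nat_lit 8053), .ofNat (nat_lit 82986), .ofNat (nat_lit 29410), .ofNat (nat_lit 104343)⟩⟩, []⟩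
noncomputable def p030_l131 : Lf2 := ⟨nat_lit 0, nat_lit 10, [nat_lit 0, nat_lit 5, nat_lit 5, nat_lit 20], false, nat_lit 40, nat_lit 80, nat_lit 0, nat_lit 304, ⟨nat_lit 222, nat_lit 0, nat_lit 778, nat_lit 5, nat_lit 158, nat_lit 778, nat_lit 18, nat_lit 778, nat_lit 2817, nat_lit 228, nat_lit 232067, nat_lit 333, nat_lit 57977234, nat_lit 0, nat_lit 0, nat_lit 1975824, false, false⟩,
 nat_lit 7041, nat_lit 3787, nat_lit 0, nat_lit 0, nat_lit 5732, nat_lit 3367, nat_lit 1242, nat_lit 0, nat_lit 0, nat_lit 0, nat_lit 0, nat_lit 0, nat_lit 0, nat_lit 0, nat_lit 49, nat_lit 778000, nat_lit 0, nat_lit 0, [(nat_lit 6, [(nat_lit 6, nat_lit 778)]), (nat_lit 9, [(nat_lit 6, nat_lit 778)])],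
 ⟨p030_k13, nat_lit 0, nat_lit 0, nat_lit 326, nat_lit 0, nat_lit 209677, [nat_lit 2678668801, nat_lit 2252542721, nat_lit 341903200], [], [nat_lit 10245106414, nat_lit 12727669913, nat_lit 10406865638, nat_lit 13070258513, nat_lit 9200002978, nat_lit 11455813026, nat_lit 10456214818, nat_lit 11777911314], nat_lit 1271250, nat_lit 1271250, nat_lit 780000, nat_lit 936251, nat_lit 230001, nat_lit 490000, [nat_lit 1100000, nat_lit 1442500, nat_lit 1271250], [nat_lit 48, nat_lit 40, nat_lit 20, nat_lit 80, nat_lit 12, nat_lit 345, nat_lit 125, nat_lit 9]⟩, ⟨p030_k32, nat_lit 0, nat_lit 0, nat_lit 370, nat_lit 0, nat_lit 237012, [nat_lit 1387500000, nat_lit 1768896000, nat_lit 2635584000], [], [nat_lit 10565511098, nat_lit 8785250252, nat_lit 8792226676, nat_lit 7357554784, nat_lit 7132339410, nat_lit 6328765492, nat_lit 7785658134, nat_lit 6201061739], nat_lit 1271250, nat_lit 1271250, nat_lit 780000, nat_lit 936251,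 nat_lit 0, nat_lit 2147000, [nat_lit 1412500, nat_lit 1271250, nat_lit 1271250], [nat_lit 53, nat_lit 40, nat_lit 20, nat_lit 80, nat_lit 14, nat_lit 401, nat_lit 175, nat_lit 10]⟩,
 ⟨nat_lit 5477, nat_lit 6325, ⟨.ofNat (nat_lit 356838), .ofNat (nat_lit 397970), .ofNat (nat_lit 378206), .ofNat (nat_lit 419338), .ofNat (nat_lit 371489), .ofNat (nat_lit 408956), .ofNat (nat_lit 392847), .ofNat (nat_lit 430313)⟩, ⟨.negSucc (nat_lit 21368), .ofNat (nat_lit 60895), .negSucc (nat_lit 1), .ofNat (nat_lit 82263), .ofNat (nat_lit 8053), .ofNat (nat_lit 82986), .ofNat (nat_lit 29409), .ofNat (nat_lit 104343)⟩⟩, []⟩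
noncomputable def p030_l132 : Lf2 := ⟨nat_lit 0, nat_lit 10, [nat_lit 0, nat_lit 5, nat_lit 5, nat_lit 20], false, nat_lit 40, nat_lit 80, nat_lit 0, nat_lit 304, ⟨nat_lit 423, nat_lit 0, nat_lit 577, nat_lit 5, nat_lit 173, nat_lit 577, nat_lit 16, nat_lit 577, nat_lit 2017, nat_lit 226, nat_lit 121179, nat_lit 300, nat_lit 56482018, nat_lit 0, nat_lit 0, nat_lit 2173178, false, false⟩,
 nat_lit 27105, nat_lit 2569, nat_lit 0, nat_lit 0, nat_lit 15709, nat_lit 12963, nat_lit 1385, nat_lit 0, nat_lit 0, nat_lit 298, nat_lit 0, nat_lit 0, nat_lit 0, nat_lit 0, nat_lit 0, nat_lit 577000, nat_lit 0, nat_lit 0, [(nat_lit 6, [(nat_lit 6, nat_lit 577)])],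
 ⟨p030_k41, nat_lit 0, nat_lit 0, nat_lit 358, nat_lit 0, nat_lit 312122, [nat_lit 2868142000, nat_lit 2344250267, nat_lit 2157858800], [], [nat_lit 11418517745, nat_lit 10622272720, nat_lit 14778104857, nat_lit 11388503578, nat_lit 13577465815, nat_lit 6124707781, nat_lit 17042617407, nat_lit 9640442353], nat_lit 1271250, nat_lit 1271250, nat_lit 936251, nat_lit 1100001, nat_lit 230001, nat_lit 490000, [nat_lit 1100000, nat_lit 1785000, nat_lit 1271250], [nat_lit 21, nat_lit 40, nat_lit 20, nat_lit 80, nat_lit 14, nat_lit 345, nat_lit 125, nat_lit 9]⟩, ⟨p030_k42, nat_lit 0, nat_lit 0, nat_lit 427, nat_lit 0, nat_lit 352813, [nat_lit 2643750000, nat_lit 4163166000, nat_lit 5021856000], [], [nat_lit 19819840944, nat_lit 13794452226, nat_lit 13042136394, nat_lit 13574551386, nat_lit 13009816371, nat_lit 8331553479, nat_lit 15696464552, nat_lit 9636790942], nat_lit 1271250, nat_lit 1271250, nat_lit 936251, nat_lit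 1100001, nat_lit 0, nat_lit 2147000, [nat_lit 1412500, nat_lit 1271250, nat_lit 1271250], [nat_lit 46, nat_lit 40, nat_lit 20, nat_lit 80, nat_lit 41, nat_lit 428, nat_lit 200, nat_lit 11]⟩,
 ⟨nat_lit 5916, nat_lit 6325, ⟨.ofNat (nat_lit 397970), .ofNat (nat_lit 439102), .ofNat (nat_lit 419338), .ofNat (nat_lit 460470), .ofNat (nat_lit 403537), .ofNat (nat_lit 442804), .ofNat (nat_lit 424877), .ofNat (nat_lit 464143)⟩, ⟨.negSucc (nat_lit 21368), .ofNat (nat_lit 60895), .negSucc (nat_lit 0), .ofNat (nat_lit 82263), .negSucc (nat_lit 6188), .ofNat (nat_lit 72344), .ofNat (nat_lit 15150), .ofNat (nat_lit 93684)⟩⟩, []⟩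
noncomputable def p030_l133 : Lf2 := ⟨nat_lit 0, nat_lit 10, [nat_lit 0, nat_lit 5, nat_lit 5, nat_lit 20], false, nat_lit 40, nat_lit 80, nat_lit 0, nat_lit 304, ⟨nat_lit 303, nat_lit 0, nat_lit 697, nat_lit 5, nat_lit 174, nat_lit 0, nat_lit 20, nat_lit 0, nat_lit 3750, nat_lit 230, nat_lit 104024, nat_lit 294, nat_lit 56293684, nat_lit 0, nat_lit 0, nat_lit 2196653, false, false⟩,
 nat_lit 15127, nat_lit 0, nat_lit 0, nat_lit 0, nat_lit 8805, nat_lit 7234, nat_lit 1727, nat_lit 0, nat_lit 0, nat_lit 94, nat_lit 0, nat_lit 0, nat_lit 0, nat_lit 0, nat_lit 27, nat_lit 697000, nat_lit 0, nat_lit 0, [(nat_lit 9, [(nat_lit 6, nat_lit 697)])],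
 ⟨p030_k4, nat_lit 0, nat_lit 0, nat_lit 321, nat_lit 0, nat_lit 392023, [nat_lit 2617491200, nat_lit 2134969334, nat_lit 105397066], [], [nat_lit 17371407749, nat_lit 13529607060, nat_lit 12835239044, nat_lit 14124658350, nat_lit 8267935859, nat_lit 9809068360, nat_lit 7690223450, nat_lit 10456015540], nat_lit 1271250, nat_lit 1271250, nat_lit 936251, nat_lit 1100001, nat_lit 230001, nat_lit 490000, [nat_lit 1100000, nat_lit 1442500, nat_lit 1271250], [nat_lit 11, nat_lit 40, nat_lit 20, nat_lit 80, nat_lit 1, nat_lit 373, nat_lit 150, nat_lit 11]⟩, ⟨p030_k32, nat_lit 0, nat_lit 0, nat_lit 516, nat_lit 0, nat_lit 496046, [nat_lit 1893750000, nat_lit 2414304000, nat_lit 3597216000], [], [nat_lit 13236169660, nat_lit 10203198078, nat_lit 9478122382, nat_lit 10114062826, nat_lit 9890928412, nat_lit 6486422821, nat_lit 11434060906, nat_lit 8052461053], nat_lit 1271250, nat_lit 1271250, nat_lit 936251, nat_lit 1100001,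 nat_lit 0, nat_lit 2147000, [nat_lit 1412500, nat_lit 1271250, nat_lit 1271250], [nat_lit 53, nat_lit 40, nat_lit 20, nat_lit 80, nat_lit 14, nat_lit 428, nat_lit 200, nat_lit 11]⟩,
 ⟨nat_lit 5477, nat_lit 5917, ⟨.ofNat (nat_lit 403537), .ofNat (nat_lit 442804), .ofNat (nat_lit 424877), .ofNat (nat_lit 464143), .ofNat (nat_lit 408956), .ofNat (nat_lit 446423), .ofNat (nat_lit 430313), .ofNat (nat_lit 467780)⟩, ⟨.negSucc (nat_lit 6188), .ofNat (nat_lit 72344), .ofNat (nat_lit 15150), .ofNat (nat_lit 93684), .ofNat (nat_lit 8053), .ofNat (nat_lit 82986), .ofNat (nat_lit 29410), .ofNat (nat_lit 104343)⟩⟩, []⟩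
noncomputable def b_VL_600_500_5_18 : St := ⟨true, nat_lit 1, nat_lit 1, nat_lit 1, nat_lit 40, nat_lit 240, nat_lit 280, nat_lit 200, nat_lit 240, nat_lit 120, nat_lit 160, nat_lit 20, nat_lit 40, nat_lit 0, nat_lit 80, nat_lit 0, nat_lit 320, nat_lit 0, nat_lit 40, nat_lit 0, nat_lit 0, nat_lit 0, nat_lit 0⟩
theorem d_VL_600_500_5_18 (h : EB TB.env) : Dead b_VL_600_500_5_18 := chkB_sound0 h (T :=
(.spl (nat_lit 1) (nat_lit 220)
(.spl (nat_lit 0) (nat_lit 260)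
(.spl (nat_lit 6) (nat_lit 20)
(.leaf p030_l118)
(.leaf p030_l119))
(.leaf p030_l120))
(.trX (nat_lit 19) (nat_lit 100) (nat_lit 86) (nat_lit 60) (nat_lit 304) (.spl (nat_lit 4) (nat_lit 40)
(.spl (nat_lit 2) (nat_lit 140)
(.spl (nat_lit 0) (nat_lit 260)
(.leaf p030_l121)
(.leaf p030_l122))
(.spl (nat_lit 2) (nat_lit 152)
(.spl (nat_lit 4) (nat_lit 20)
(.spl (nat_lit 2) (nat_lit 144)
(.leaf p030_l123)
(.spl (nat_lit 1) (nat_lit 230)
(.leaf p030_l124)
(.trX (nat_lit 19) (nat_lit 100) (nat_lit 89) (nat_lit 61) (nat_lit 296) (.leaf p030_l125))))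
(.leaf p030_l126))
(.spl (nat_lit 0) (nat_lit 260)
(.leaf p030_l127)
(.leaf p030_l128))))
(.spl (nat_lit 2) (nat_lit 140)
(.spl (nat_lit 6) (nat_lit 20)
(.spl (nat_lit 0) (nat_lit 260)
(.leaf p030_l129)
(.leaf p030_l130))
(.leaf p030_l131))
(.spl (nat_lit 0) (nat_lit 260)
(.leaf p030_l132)
(.leaf p030_l133))))))) (by decide +kernel)
noncomputable def p030_l134 : Lf2 := ⟨nat_lit 0, nat_lit 2, [nat_lit 10, nat_lit 5, nat_lit 5, nat_lit 20], false, nat_lit 80, nat_lit 120, nat_lit 0, nat_lit 320, ⟨nat_lit 0, nat_lit 0, nat_lit 1000, nat_lit 5, nat_lit 96, nat_lit 1000, nat_lit 46, nat_lit 1000, nat_lit 20417, nat_lit 250, nat_lit 86400, nat_lit 287, nat_lit 61807943, nat_lit 0, nat_lit 0, nat_lit 1649602, false, false⟩,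
 nat_lit 0, nat_lit 8870, nat_lit 0, nat_lit 0, nat_lit 4695, nat_lit 0, nat_lit 544, nat_lit 0, nat_lit 0, nat_lit 0, nat_lit 0, nat_lit 0, nat_lit 0, nat_lit 0, nat_lit 80, nat_lit 1000000, nat_lit 0, nat_lit 0, [(nat_lit 6, [(nat_lit 6, nat_lit 1000)])],
 ⟨p030_k15, nat_lit 0, nat_lit 0, nat_lit 245, nat_lit 0, nat_lit 225288, [nat_lit 2257066667, nat_lit 1408000000, nat_lit 211200000], [], [nat_lit 9619026143, nat_lit 10426247412, nat_lit 9057977227, nat_lit 9189256092, nat_lit 10313384758, nat_lit 10995234136, nat_lit 10881746937, nat_lit 9826936902], nat_lit 1271250, nat_lit 1271250, nat_lit 21650, nat_lit 780000, nat_lit 490000, nat_lit 780000, [nat_lit 1100000, nat_lit 1442500, nat_lit 1271250], [nat_lit 9, nat_lit 40, nat_lit 20, nat_lit 80, nat_lit 2, nat_lit 272, nat_lit 60, nat_lit 9]⟩, ⟨p030_k35, nat_lit 0, nat_lit 0, nat_lit 443, nat_lit 0, nat_lit 287081, [nat_lit 0, nat_lit 0, nat_lit 0], [], [nat_lit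 0, nat_lit 0, nat_lit 0, nat_lit 0, nat_lit 0, nat_lit 0, nat_lit 0, nat_lit 0], nat_lit 1271250, nat_lit 1271250, nat_lit 21650, nat_lit 780000, nat_lit 0, nat_lit 2260000, [nat_lit 1412500, nat_lit 1271250, nat_lit 1271250], [nat_lit 25, nat_lit 40, nat_lit 20, nat_lit 80, nat_lit 17, nat_lit 401, nat_lit 175, nat_lit 12]⟩,
 ⟨nat_lit 6123, nat_lit 6325, ⟨.ofNat (nat_lit 96904), .ofNat (nat_lit 335470), .ofNat (nat_lit 139640), .ofNat (nat_lit 378206), .ofNat (nat_lit 106133), .ofNat (nat_lit 339237), .ofNat (nat_lit 148829), .ofNat (nat_lit 381933)⟩, ⟨.ofNat (nat_lit 60895), .ofNat (nat_lit 143159), .ofNat (nat_lit 82263), .ofNat (nat_lit 164527), .ofNat (nat_lit 66723), .ofNat (nat_lit 147104), .ofNat (nat_lit 88071), .ofNat (nat_lit 168452)⟩⟩, [⟨nat_lit 0, nat_lit 100, nat_lit 99, nat_lit 45, nat_lit 105051799⟩]⟩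
noncomputable def p030_l135 : Lf2 := ⟨nat_lit 0, nat_lit 2, [nat_lit 10, nat_lit 5, nat_lit 5, nat_lit 20], false, nat_lit 80, nat_lit 120, nat_lit 0, nat_lit 320, ⟨nat_lit 0, nat_lit 0, nat_lit 1000, nat_lit 5, nat_lit 99, nat_lit 1000, nat_lit 48, nat_lit 1000, nat_lit 21600, nat_lit 251, nat_lit 91267, nat_lit 289, nat_lit 61517594, nat_lit 0, nat_lit 0, nat_lit 1720905, false, false⟩,
 nat_lit 0, nat_lit 7840, nat_lit 0, nat_lit 0, nat_lit 4355, nat_lit 0, nat_lit 832, nat_lit 0, nat_lit 0, nat_lit 0, nat_lit 0, nat_lit 0, nat_lit 0, nat_lit 0, nat_lit 80, nat_lit 1000000, nat_lit 0, nat_lit 0, [(nat_lit 6, [(nat_lit 6, nat_lit 1000)])],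
 ⟨p030_k26, nat_lit 0, nat_lit 0, nat_lit 247, nat_lit 0, nat_lit 262267, [nat_lit 2257066667, nat_lit 1408000000, nat_lit 211200000], [], [nat_lit 10488125329, nat_lit 11264190088, nat_lit 9587998992, nat_lit 10211622854, nat_lit 11167138114, nat_lit 11824042950, nat_lit 10287817952, nat_lit 10922244219], nat_lit 1271250, nat_lit 1271250, nat_lit 21650, nat_lit 780000, nat_lit 490000, nat_lit 780000, [nat_lit 1100000, nat_lit 1442500, nat_lit 1271250], [nat_lit 9, nat_lit 40, nat_lit 20, nat_lit 80, nat_lit 2, nat_lit 272, nat_lit 60, nat_lit 9]⟩, ⟨p030_k35, nat_lit 0, nat_lit 0, nat_lit 472, nat_lit 0, nat_lit 352917, [nat_lit 0, nat_lit 0, nat_lit 0], [], [nat_lit 0, nat_lit 0, nat_lit 0, nat_lit 0, nat_lit 0, nat_lit 0, nat_lit 0, nat_lit 0], nat_lit 1271250, nat_lit 1271250, nat_lit 21650, nat_lit 780000, nat_lit 0, nat_lit 2260000, [nat_lit 1412500, nat_lit 1271250, nat_lit 1271250], [nat_lit 25, nat_lit 40,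 nat_lit 20, nat_lit 80, nat_lit 17, nat_lit 401, nat_lit 175, nat_lit 12]⟩,
 ⟨nat_lit 5916, nat_lit 6124, ⟨.ofNat (nat_lit 106133), .ofNat (nat_lit 339237), .ofNat (nat_lit 148829), .ofNat (nat_lit 381933), .ofNat (nat_lit 115184), .ofNat (nat_lit 342931), .ofNat (nat_lit 157863), .ofNat (nat_lit 385610)⟩, ⟨.ofNat (nat_lit 66723), .ofNat (nat_lit 147104), .ofNat (nat_lit 88071), .ofNat (nat_lit 168452), .ofNat (nat_lit 72344), .ofNat (nat_lit 150878), .ofNat (nat_lit 93684), .ofNat (nat_lit 172217)⟩⟩, [⟨nat_lit 0, nat_lit 100, nat_lit 97, nat_lit 49, nat_lit 148397647⟩]⟩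
noncomputable def p030_l136 : Lf2 := ⟨nat_lit 0, nat_lit 2, [nat_lit 10, nat_lit 5, nat_lit 5, nat_lit 20], false, nat_lit 120, nat_lit 160, nat_lit 0, nat_lit 320, ⟨nat_lit 0, nat_lit 0, nat_lit 1000, nat_lit 5, nat_lit 93, nat_lit 1000, nat_lit 79, nat_lit 1000, nat_lit 58017, nat_lit 274, nat_lit 81667, nat_lit 285, nat_lit 60069272, nat_lit 0, nat_lit 0, nat_lit 2130933, false, false⟩,
 nat_lit 0, nat_lit 8641, nat_lit 0, nat_lit 0, nat_lit 4574, nat_lit 0, nat_lit 372, nat_lit 0, nat_lit 0, nat_lit 0, nat_lit 0, nat_lit 0, nat_lit 0, nat_lit 0, nat_lit 80, nat_lit 1000000, nat_lit 0, nat_lit 0, [(nat_lit 6, [(nat_lit 6, nat_lit 1000)])],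
 ⟨p030_k15, nat_lit 0, nat_lit 0, nat_lit 223, nat_lit 0, nat_lit 198840, [nat_lit 2257066667, nat_lit 1408000000, nat_lit 211200000], [], [nat_lit 10521478393, nat_lit 11969544659, nat_lit 11126023431, nat_lit 10700893171, nat_lit 11207791800, nat_lit 12476171218, nat_lit 13601588699, nat_lit 11322428535], nat_lit 1271250, nat_lit 1271250, nat_lit 21650, nat_lit 780000, nat_lit 780000, nat_lit 1100001, [nat_lit 1100000, nat_lit 1442500, nat_lit 1271250], [nat_lit 9, nat_lit 40, nat_lit 20, nat_lit 80, nat_lit 2, nat_lit 289, nat_lit 75, nat_lit 10]⟩, ⟨p030_k35, nat_lit 0, nat_lit 0, nat_lit 429, nat_lit 0, nat_lit 253379, [nat_lit 0, nat_lit 0, nat_lit 0], [], [nat_lit 0, nat_lit 0, nat_lit 0, nat_lit 0, nat_lit 0, nat_lit 0, nat_lit 0, nat_lit 0], nat_lit 1271250, nat_lit 1271250, nat_lit 21650, nat_lit 780000, nat_lit 0, nat_lit 2260000, [nat_lit 1412500, nat_lit 1271250, nat_lit 1271250], [nat_lit 25, nat_lit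 40, nat_lit 20, nat_lit 80, nat_lit 17, nat_lit 401, nat_lit 175, nat_lit 12]⟩,
 ⟨nat_lit 5916, nat_lit 6325, ⟨.ofNat (nat_lit 96904), .ofNat (nat_lit 335470), .ofNat (nat_lit 118272), .ofNat (nat_lit 356838), .ofNat (nat_lit 115184), .ofNat (nat_lit 342931), .ofNat (nat_lit 136523), .ofNat (nat_lit 364271)⟩, ⟨.ofNat (nat_lit 143159), .ofNat (nat_lit 225423), .ofNat (nat_lit 164527), .ofNat (nat_lit 246791), .ofNat (nat_lit 150878), .ofNat (nat_lit 229411), .ofNat (nat_lit 172217), .ofNat (nat_lit 250751)⟩⟩, [⟨nat_lit 0, nat_lit 100, nat_lit 96, nat_lit 40, nat_lit 52210317⟩]⟩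
noncomputable def p030_l137 : Lf2 := ⟨nat_lit 0, nat_lit 2, [nat_lit 10, nat_lit 5, nat_lit 5, nat_lit 20], false, nat_lit 120, nat_lit 160, nat_lit 0, nat_lit 304, ⟨nat_lit 0, nat_lit 0, nat_lit 1000, nat_lit 5, nat_lit 102, nat_lit 1000, nat_lit 78, nat_lit 1000, nat_lit 58017, nat_lit 274, nat_lit 96267, nat_lit 291, nat_lit 59504414, nat_lit 0, nat_lit 0, nat_lit 2249358, false, false⟩,
 nat_lit 0, nat_lit 9251, nat_lit 0, nat_lit 0, nat_lit 4897, nat_lit 0, nat_lit 581, nat_lit 0, nat_lit 0, nat_lit 0, nat_lit 0, nat_lit 0, nat_lit 0, nat_lit 0, nat_lit 80, nat_lit 1000000, nat_lit 0, nat_lit 0, [(nat_lit 6, [(nat_lit 6, nat_lit 1000)])],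
 ⟨p030_k15, nat_lit 0, nat_lit 0, nat_lit 221, nat_lit 0, nat_lit 200628, [nat_lit 2257066667, nat_lit 1408000000, nat_lit 211200000], [], [nat_lit 9788143387, nat_lit 10215275364, nat_lit 10473946509, nat_lit 9854877563, nat_lit 10473524160, nat_lit 10800986886, nat_lit 13033938163, nat_lit 12423911528], nat_lit 1271250, nat_lit 1271250, nat_lit 43600, nat_lit 780000, nat_lit 780000, nat_lit 1100001, [nat_lit 1100000, nat_lit 1442500, nat_lit 1271250], [nat_lit 9, nat_lit 40, nat_lit 20, nat_lit 80, nat_lit 2, nat_lit 289, nat_lit 75, nat_lit 10]⟩, ⟨p030_k17, nat_lit 0, nat_lit 0, nat_lit 294, nat_lit 0, nat_lit 225262, [nat_lit 0, nat_lit 0], [], [nat_lit 0, nat_lit 0, nat_lit 0, nat_lit 0, nat_lit 0, nat_lit 0, nat_lit 0, nat_lit 0], nat_lit 1271250, nat_lit 1271250, nat_lit 43600, nat_lit 780000, nat_lit 0, nat_lit 2147000, [nat_lit 1412500, nat_lit 1271250], [nat_lit 26, nat_lit 40, nat_lit 20, nat_lit 80,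 nat_lit 2, nat_lit 401, nat_lit 175, nat_lit 14]⟩,
 ⟨nat_lit 6224, nat_lit 6325, ⟨.ofNat (nat_lit 126498), .ofNat (nat_lit 356838), .ofNat (nat_lit 147866), .ofNat (nat_lit 378206), .ofNat (nat_lit 131030), .ofNat (nat_lit 358720), .ofNat (nat_lit 152387), .ofNat (nat_lit 380076)⟩, ⟨.ofNat (nat_lit 143159), .ofNat (nat_lit 225423), .ofNat (nat_lit 164527), .ofNat (nat_lit 246791), .ofNat (nat_lit 145153), .ofNat (nat_lit 226471), .ofNat (nat_lit 166510), .ofNat (nat_lit 247827)⟩⟩, [⟨nat_lit 0, nat_lit 100, nat_lit 99, nat_lit 42, nat_lit 13098660⟩]⟩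
noncomputable def p030_l138 : Lf2 := ⟨nat_lit 0, nat_lit 2, [nat_lit 10, nat_lit 5, nat_lit 5, nat_lit 20], false, nat_lit 120, nat_lit 160, nat_lit 0, nat_lit 304, ⟨nat_lit 0, nat_lit 0, nat_lit 1000, nat_lit 5, nat_lit 103, nat_lit 1000, nat_lit 79, nat_lit 1000, nat_lit 58017, nat_lit 274, nat_lit 98817, nat_lit 292, nat_lit 59365728, nat_lit 0, nat_lit 0, nat_lit 2279248, false, false⟩,
 nat_lit 0, nat_lit 8656, nat_lit 0, nat_lit 0, nat_lit 4695, nat_lit 0, nat_lit 1041, nat_lit 0, nat_lit 0, nat_lit 0, nat_lit 0, nat_lit 0, nat_lit 0, nat_lit 0, nat_lit 80, nat_lit 1000000, nat_lit 0, nat_lit 0, [(nat_lit 6, [(nat_lit 6, nat_lit 1000)])],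
 ⟨p030_k16, nat_lit 0, nat_lit 0, nat_lit 220, nat_lit 0, nat_lit 219176, [nat_lit 2257066667, nat_lit 1408000000, nat_lit 211200000], [], [nat_lit 10248616515, nat_lit 10665983136, nat_lit 10076761302, nat_lit 9615483777, nat_lit 10927168560, nat_lit 11247860608, nat_lit 12592623110, nat_lit 12007759917], nat_lit 1271250, nat_lit 1271250, nat_lit 43600, nat_lit 780000, nat_lit 780000, nat_lit 1100001, [nat_lit 1100000, nat_lit 1442500, nat_lit 1271250], [nat_lit 9, nat_lit 40, nat_lit 20, nat_lit 80, nat_lit 2, nat_lit 289, nat_lit 75, nat_lit 10]⟩, ⟨p030_k17, nat_lit 0, nat_lit 0, nat_lit 305, nat_lit 0, nat_lit 252950, [nat_lit 0, nat_lit 0], [], [nat_lit 0, nat_lit 0, nat_lit 0, nat_lit 0, nat_lit 0, nat_lit 0, nat_lit 0, nat_lit 0], nat_lit 1271250, nat_lit 1271250, nat_lit 43600, nat_lit 780000, nat_lit 0, nat_lit 2147000, [nat_lit 1412500, nat_lit 1271250], [nat_lit 26, nat_lit 40, nat_lit 20, nat_lit 80,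 nat_lit 2, nat_lit 401, nat_lit 175, nat_lit 14]⟩,
 ⟨nat_lit 6123, nat_lit 6225, ⟨.ofNat (nat_lit 131030), .ofNat (nat_lit 358720), .ofNat (nat_lit 152387), .ofNat (nat_lit 380076), .ofNat (nat_lit 135519), .ofNat (nat_lit 360585), .ofNat (nat_lit 156867), .ofNat (nat_lit 381933)⟩, ⟨.ofNat (nat_lit 145153), .ofNat (nat_lit 226471), .ofNat (nat_lit 166510), .ofNat (nat_lit 247827), .ofNat (nat_lit 147104), .ofNat (nat_lit 227485), .ofNat (nat_lit 168452), .ofNat (nat_lit 248833)⟩⟩, [⟨nat_lit 0, nat_lit 100, nat_lit 99, nat_lit 45, nat_lit 49951757⟩]⟩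
noncomputable def p030_l139 : Lf2 := ⟨nat_lit 0, nat_lit 2, [nat_lit 10, nat_lit 5, nat_lit 5, nat_lit 20], false, nat_lit 120, nat_lit 160, nat_lit 0, nat_lit 304, ⟨nat_lit 0, nat_lit 0, nat_lit 1000, nat_lit 5, nat_lit 106, nat_lit 1000, nat_lit 80, nat_lit 1000, nat_lit 60000, nat_lit 275, nat_lit 106667, nat_lit 295, nat_lit 59035569, nat_lit 0, nat_lit 0, nat_lit 2348105, false, false⟩,
 nat_lit 0, nat_lit 8164, nat_lit 0, nat_lit 0, nat_lit 4535, nat_lit 0, nat_lit 911, nat_lit 0, nat_lit 0, nat_lit 0, nat_lit 0, nat_lit 0, nat_lit 0, nat_lit 0, nat_lit 80, nat_lit 1000000, nat_lit 0, nat_lit 0, [(nat_lit 6, [(nat_lit 6, nat_lit 1000)])],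
 ⟨p030_k26, nat_lit 0, nat_lit 0, nat_lit 219, nat_lit 0, nat_lit 262267, [nat_lit 2257066667, nat_lit 1408000000, nat_lit 211200000], [], [nat_lit 10489276084, nat_lit 11291101297, nat_lit 9867973082, nat_lit 10515099879, nat_lit 11173515172, nat_lit 11853864085, nat_lit 12164477542, nat_lit 11215112584], nat_lit 1271250, nat_lit 1271250, nat_lit 65850, nat_lit 780000, nat_lit 780000, nat_lit 1100001, [nat_lit 1100000, nat_lit 1442500, nat_lit 1271250], [nat_lit 9, nat_lit 40, nat_lit 20, nat_lit 80, nat_lit 2, nat_lit 289, nat_lit 75, nat_lit 10]⟩, ⟨p030_k17, nat_lit 0, nat_lit 0, nat_lit 324, nat_lit 0, nat_lit 310959, [nat_lit 0, nat_lit 0], [], [nat_lit 0, nat_lit 0, nat_lit 0, nat_lit 0, nat_lit 0, nat_lit 0, nat_lit 0, nat_lit 0], nat_lit 1271250, nat_lit 1271250, nat_lit 65850, nat_lit 780000, nat_lit 0, nat_lit 2147000, [nat_lit 1412500, nat_lit 1271250], [nat_lit 26, nat_lit 40, nat_lit 20, nat_lit 80,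 nat_lit 2, nat_lit 401, nat_lit 175, nat_lit 14]⟩,
 ⟨nat_lit 5916, nat_lit 6124, ⟨.ofNat (nat_lit 143557), .ofNat (nat_lit 360585), .ofNat (nat_lit 164905), .ofNat (nat_lit 381933), .ofNat (nat_lit 152230), .ofNat (nat_lit 364271), .ofNat (nat_lit 173569), .ofNat (nat_lit 385610)⟩, ⟨.ofNat (nat_lit 147104), .ofNat (nat_lit 227485), .ofNat (nat_lit 168452), .ofNat (nat_lit 248833), .ofNat (nat_lit 150878), .ofNat (nat_lit 229411), .ofNat (nat_lit 172217), .ofNat (nat_lit 250751)⟩⟩, [⟨nat_lit 0, nat_lit 100, nat_lit 97, nat_lit 49, nat_lit 88695024⟩]⟩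
noncomputable def p030_l140 : Lf2 := ⟨nat_lit 0, nat_lit 5, [nat_lit 4, nat_lit 5, nat_lit 5, nat_lit 20], false, nat_lit 80, nat_lit 160, nat_lit 0, nat_lit 320, ⟨nat_lit 0, nat_lit 0, nat_lit 1000, nat_lit 5, nat_lit 96, nat_lit 1000, nat_lit 62, nat_lit 1000, nat_lit 36817, nat_lit 262, nat_lit 86400, nat_lit 287, nat_lit 60914207, nat_lit 0, nat_lit 0, nat_lit 1907469, false, false⟩,
 nat_lit 0, nat_lit 9426, nat_lit 0, nat_lit 0, nat_lit 4990, nat_lit 0, nat_lit 380, nat_lit 0, nat_lit 0, nat_lit 0, nat_lit 0, nat_lit 0, nat_lit 0, nat_lit 0, nat_lit 147, nat_lit 1000000, nat_lit 0, nat_lit 0, [(nat_lit 6, [(nat_lit 6, nat_lit 1000)])],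
 ⟨p030_k5, nat_lit 0, nat_lit 0, nat_lit 238, nat_lit 0, nat_lit 140929, [nat_lit 3329066667, nat_lit 3042400001, nat_lit 177599999], [], [nat_lit 10141046056, nat_lit 10852587165, nat_lit 8715120588, nat_lit 8839911518, nat_lit 10892529623, nat_lit 11652944007, nat_lit 13164896988, nat_lit 11921673418], nat_lit 1271250, nat_lit 1271250, nat_lit 21650, nat_lit 780000, nat_lit 490000, nat_lit 1100001, [nat_lit 1100000, nat_lit 1442500, nat_lit 1271250], [nat_lit 11, nat_lit 40, nat_lit 20, nat_lit 80, nat_lit 1, nat_lit 373, nat_lit 150, nat_lit 11]⟩, ⟨p030_k6, nat_lit 0, nat_lit 0, nat_lit 492, nat_lit 0, nat_lit 180646, [nat_lit 0, nat_lit 0, nat_lit 0], [], [nat_lit 0, nat_lit 0, nat_lit 0, nat_lit 0, nat_lit 0, nat_lit 0, nat_lit 0, nat_lit 0], nat_lit 1271250, nat_lit 1271250, nat_lit 21650, nat_lit 780000, nat_lit 0, nat_lit 2260000, [nat_lit 1412500, nat_lit 1271250, nat_lit 1271250], [nat_lit 53, nat_lit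 40, nat_lit 20, nat_lit 80, nat_lit 14, nat_lit 401, nat_lit 175, nat_lit 11]⟩,
 ⟨nat_lit 6123, nat_lit 6325, ⟨.ofNat (nat_lit 96904), .ofNat (nat_lit 335470), .ofNat (nat_lit 139640), .ofNat (nat_lit 378206), .ofNat (nat_lit 106133), .ofNat (nat_lit 339237), .ofNat (nat_lit 148829), .ofNat (nat_lit 381933)⟩, ⟨.ofNat (nat_lit 60895), .ofNat (nat_lit 225423), .ofNat (nat_lit 82263), .ofNat (nat_lit 246791), .ofNat (nat_lit 66723), .ofNat (nat_lit 227485), .ofNat (nat_lit 88071), .ofNat (nat_lit 248833)⟩⟩, [⟨nat_lit 0, nat_lit 100, nat_lit 99, nat_lit 45, nat_lit 42893443⟩]⟩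
noncomputable def p030_l141 : Lf2 := ⟨nat_lit 0, nat_lit 5, [nat_lit 4, nat_lit 5, nat_lit 5, nat_lit 20], false, nat_lit 80, nat_lit 160, nat_lit 0, nat_lit 320, ⟨nat_lit 0, nat_lit 0, nat_lit 1000, nat_lit 5, nat_lit 99, nat_lit 1000, nat_lit 64, nat_lit 1000, nat_lit 38400, nat_lit 263, nat_lit 91267, nat_lit 289, nat_lit 60628298, nat_lit 0, nat_lit 0, nat_lit 1973703, false, false⟩,
 nat_lit 0, nat_lit 8110, nat_lit 0, nat_lit 0, nat_lit 4505, nat_lit 0, nat_lit 325, nat_lit 0, nat_lit 0, nat_lit 0, nat_lit 0, nat_lit 0, nat_lit 0, nat_lit 0, nat_lit 80, nat_lit 1000000, nat_lit 0, nat_lit 0, [(nat_lit 6, [(nat_lit 6, nat_lit 1000)])],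
 ⟨p030_k14, nat_lit 0, nat_lit 0, nat_lit 237, nat_lit 0, nat_lit 184617, [nat_lit 2257066667, nat_lit 1408000000, nat_lit 211200000], [], [nat_lit 10661818012, nat_lit 11419882032, nat_lit 9469808742, nat_lit 10101883337, nat_lit 11817364160, nat_lit 12446921816, nat_lit 12466399792, nat_lit 11344010577], nat_lit 1271250, nat_lit 1271250, nat_lit 21650, nat_lit 780000, nat_lit 490000, nat_lit 1100001, [nat_lit 1100000, nat_lit 1442500, nat_lit 1271250], [nat_lit 9, nat_lit 40, nat_lit 20, nat_lit 80, nat_lit 2, nat_lit 289, nat_lit 75, nat_lit 10]⟩, ⟨p030_k6, nat_lit 0, nat_lit 0, nat_lit 518, nat_lit 0, nat_lit 250202, [nat_lit 0, nat_lit 0, nat_lit 0], [], [nat_lit 0, nat_lit 0, nat_lit 0, nat_lit 0, nat_lit 0, nat_lit 0, nat_lit 0, nat_lit 0], nat_lit 1271250, nat_lit 1271250, nat_lit 21650, nat_lit 780000, nat_lit 0, nat_lit 2260000, [nat_lit 1412500, nat_lit 1271250, nat_lit 1271250], [nat_lit 53, nat_lit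 40, nat_lit 20, nat_lit 80, nat_lit 14, nat_lit 401, nat_lit 175, nat_lit 11]⟩,
 ⟨nat_lit 5916, nat_lit 6124, ⟨.ofNat (nat_lit 106133), .ofNat (nat_lit 339237), .ofNat (nat_lit 148829), .ofNat (nat_lit 381933), .ofNat (nat_lit 115184), .ofNat (nat_lit 342931), .ofNat (nat_lit 157863), .ofNat (nat_lit 385610)⟩, ⟨.ofNat (nat_lit 66723), .ofNat (nat_lit 227485), .ofNat (nat_lit 88071), .ofNat (nat_lit 248833), .ofNat (nat_lit 72344), .ofNat (nat_lit 229411), .ofNat (nat_lit 93684), .ofNat (nat_lit 250751)⟩⟩, [⟨nat_lit 0, nat_lit 100, nat_lit 97, nat_lit 49, nat_lit 100866697⟩]⟩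
noncomputable def p030_l142 : Lf2 := ⟨nat_lit 0, nat_lit 8, [nat_lit 50, nat_lit 5, nat_lit 5, nat_lit 20], true, nat_lit 80, nat_lit 160, nat_lit 0, nat_lit 320, ⟨nat_lit 0, nat_lit 0, nat_lit 1000, nat_lit 5, nat_lit 98, nat_lit 1000, nat_lit 63, nat_lit 1000, nat_lit 36817, nat_lit 262, nat_lit 88817, nat_lit 288, nat_lit 60773633, nat_lit 0, nat_lit 0, nat_lit 1940151, false, false⟩,
 nat_lit 0, nat_lit 8541, nat_lit 0, nat_lit 0, nat_lit 4521, nat_lit 0, nat_lit 184, nat_lit 0, nat_lit 0, nat_lit 0, nat_lit 0, nat_lit 0, nat_lit 0, nat_lit 0, nat_lit 147, nat_lit 1000000, nat_lit 0, nat_lit 0, [(nat_lit 6, [(nat_lit 6, nat_lit 1000)])],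
 ⟨p030_k7, nat_lit 0, nat_lit 0, nat_lit 239, nat_lit 0, nat_lit 156577, [nat_lit 3329066667, nat_lit 3042400001, nat_lit 177599999], [], [nat_lit 10768702702, nat_lit 12123677680, nat_lit 9728250636, nat_lit 10496522382, nat_lit 11633251289, nat_lit 12851079830, nat_lit 13989132596, nat_lit 11736381590], nat_lit 1271250, nat_lit 1271250, nat_lit 21650, nat_lit 780000, nat_lit 490000, nat_lit 1100001, [nat_lit 1100000, nat_lit 1442500, nat_lit 1271250], [nat_lit 11, nat_lit 40, nat_lit 20, nat_lit 80, nat_lit 1, nat_lit 373, nat_lit 150, nat_lit 11]⟩, C1.Rw.none,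
 ⟨nat_lit 5916, nat_lit 6325, ⟨.ofNat (nat_lit 96904), .ofNat (nat_lit 335470), .ofNat (nat_lit 139640), .ofNat (nat_lit 378206), .ofNat (nat_lit 115184), .ofNat (nat_lit 342931), .ofNat (nat_lit 157863), .ofNat (nat_lit 385610)⟩, ⟨.ofNat (nat_lit 60895), .ofNat (nat_lit 225423), .ofNat (nat_lit 82263), .ofNat (nat_lit 246791), .ofNat (nat_lit 72344), .ofNat (nat_lit 229411), .ofNat (nat_lit 93684), .ofNat (nat_lit 250751)⟩⟩, [⟨nat_lit 0, nat_lit 100, nat_lit 97, nat_lit 49, nat_lit 70382976⟩]⟩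
noncomputable def p030_l143 : Lf2 := ⟨nat_lit 1, nat_lit 10, [nat_lit 0, nat_lit 5, nat_lit 5, nat_lit 20], false, nat_lit 80, nat_lit 160, nat_lit 0, nat_lit 320, zbN0,
 nat_lit 0, nat_lit 0, nat_lit 0, nat_lit 0, nat_lit 0, nat_lit 0, nat_lit 0, nat_lit 0, nat_lit 0, nat_lit 0, nat_lit 0, nat_lit 0, nat_lit 0, nat_lit 0, nat_lit 0, nat_lit 0, nat_lit 0, nat_lit 0, [],
 C1.Rw.none, C1.Rw.none,
 zbF0, []⟩
noncomputable def p030_l144 : Lf2 := ⟨nat_lit 0, nat_lit 7, [nat_lit 80, nat_lit 5, nat_lit 5, nat_lit 20], false, nat_lit 80, nat_lit 160, nat_lit 0, nat_lit 320, ⟨nat_lit 0, nat_lit 0, nat_lit 1000, nat_lit 5, nat_lit 98, nat_lit 1000, nat_lit 65, nat_lit 1000, nat_lit 40017, nat_lit 264, nat_lit 91267, nat_lit 289, nat_lit 60621808, nat_lit 0, nat_lit 0, nat_lit 1978734, false, false⟩,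
 nat_lit 0, nat_lit 7783, nat_lit 0, nat_lit 0, nat_lit 4530, nat_lit 0, nat_lit 0, nat_lit 0, nat_lit 0, nat_lit 0, nat_lit 0, nat_lit 0, nat_lit 0, nat_lit 0, nat_lit 192, nat_lit 1000000, nat_lit 0, nat_lit 0, [(nat_lit 9, [(nat_lit 6, nat_lit 1000)])],
 ⟨p030_k43, nat_lit 0, nat_lit 0, nat_lit 300, nat_lit 0, nat_lit 220194, [nat_lit 4169600001, nat_lit 3411333334, nat_lit 231866666], [], [nat_lit 11262820751, nat_lit 11601699486, nat_lit 10067168722, nat_lit 10409444252, nat_lit 12286740922, nat_lit 12627241000, nat_lit 11467783502, nat_lit 11772281977], nat_lit 1271250, nat_lit 1271250, nat_lit 43600, nat_lit 780000, nat_lit 490000, nat_lit 1100001, [nat_lit 1100000, nat_lit 1442500, nat_lit 1271250], [nat_lit 11, nat_lit 40, nat_lit 20, nat_lit 80, nat_lit 1, nat_lit 373, nat_lit 150, nat_lit 11]⟩, ⟨p030_k44, nat_lit 0, nat_lit 0, nat_lit 538, nat_lit 0, nat_lit 316455, [nat_lit 0, nat_lit 0, nat_lit 0],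 [], [nat_lit 0, nat_lit 0, nat_lit 0, nat_lit 0, nat_lit 0, nat_lit 0, nat_lit 0, nat_lit 0], nat_lit 1271250, nat_lit 1271250, nat_lit 43600, nat_lit 780000, nat_lit 0, nat_lit 2260000, [nat_lit 1412500, nat_lit 1271250, nat_lit 1271250], [nat_lit 53, nat_lit 40, nat_lit 20, nat_lit 80, nat_lit 14, nat_lit 401, nat_lit 175, nat_lit 11]⟩,
 ⟨nat_lit 5809, nat_lit 5917, ⟨.ofNat (nat_lit 123037), .ofNat (nat_lit 342931), .ofNat (nat_lit 144377), .ofNat (nat_lit 364271), .ofNat (nat_lit 127411), .ofNat (nat_lit 344754), .ofNat (nat_lit 148750), .ofNat (nat_lit 366093)⟩, ⟨.ofNat (nat_lit 72344), .ofNat (nat_lit 229411), .ofNat (nat_lit 93684), .ofNat (nat_lit 250751), .ofNat (nat_lit 75079), .ofNat (nat_lit 230324), .ofNat (nat_lit 96418), .ofNat (nat_lit 251663)⟩⟩, [⟨nat_lit 0, nat_lit 100, nat_lit 95, nat_lit 42, nat_lit 146703833⟩]⟩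
noncomputable def p030_l145 : Lf2 := ⟨nat_lit 0, nat_lit 7, [nat_lit 80, nat_lit 5, nat_lit 5, nat_lit 20], false, nat_lit 80, nat_lit 160, nat_lit 0, nat_lit 320, ⟨nat_lit 0, nat_lit 0, nat_lit 1000, nat_lit 5, nat_lit 99, nat_lit 1000, nat_lit 66, nat_lit 1000, nat_lit 40017, nat_lit 264, nat_lit 91267, nat_lit 289, nat_lit 60484121, nat_lit 0, nat_lit 0, nat_lit 2010229, false, false⟩,
 nat_lit 0, nat_lit 11168, nat_lit 0, nat_lit 0, nat_lit 6650, nat_lit 0, nat_lit 1790, nat_lit 0, nat_lit 0, nat_lit 0, nat_lit 0, nat_lit 0, nat_lit 0, nat_lit 0, nat_lit 87, nat_lit 400000, nat_lit 0, nat_lit 0, [(nat_lit 9, [(nat_lit 5, nat_lit 1000)])],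
 ⟨p030_k45, nat_lit 0, nat_lit 0, nat_lit 305, nat_lit 0, nat_lit 242561, [nat_lit 2918400000, nat_lit 9200000], [], [nat_lit 12971488755, nat_lit 13634764530, nat_lit 10310713275, nat_lit 9527333300, nat_lit 13490547505, nat_lit 14087039271, nat_lit 16629865100, nat_lit 15867156650], nat_lit 1271250, nat_lit 1271250, nat_lit 43600, nat_lit 780000, nat_lit 490000, nat_lit 1100001, [nat_lit 1100000, nat_lit 2127500], [nat_lit 70, nat_lit 40, nat_lit 20, nat_lit 80, nat_lit 13, nat_lit 373, nat_lit 150, nat_lit 11]⟩, ⟨p030_k46, nat_lit 0, nat_lit 0, nat_lit 545, nat_lit 0, nat_lit 357929, [nat_lit 0, nat_lit 0], [], [nat_lit 0, nat_lit 0, nat_lit 0, nat_lit 0, nat_lit 0, nat_lit 0, nat_lit 0, nat_lit 0], nat_lit 1271250, nat_lit 1271250, nat_lit 43600, nat_lit 780000, nat_lit 0, nat_lit 2260000, [nat_lit 1412500, nat_lit 1271250], [nat_lit 107, nat_lit 40, nat_lit 20, nat_lit 80, nat_lit 12, nat_lit 401, nat_lit 175,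 nat_lit 11]⟩,
 ⟨nat_lit 5700, nat_lit 5810, ⟨.ofNat (nat_lit 127411), .ofNat (nat_lit 344754), .ofNat (nat_lit 148750), .ofNat (nat_lit 366093), .ofNat (nat_lit 131747), .ofNat (nat_lit 346560), .ofNat (nat_lit 153089), .ofNat (nat_lit 367902)⟩, ⟨.ofNat (nat_lit 75079), .ofNat (nat_lit 230324), .ofNat (nat_lit 96418), .ofNat (nat_lit 251663), .ofNat (nat_lit 77764), .ofNat (nat_lit 231202), .ofNat (nat_lit 99106), .ofNat (nat_lit 252544)⟩⟩, []⟩
noncomputable def p030_l146 : Lf2 := ⟨nat_lit 1, nat_lit 10, [nat_lit 0, nat_lit 5, nat_lit 5, nat_lit 20], false, nat_lit 80, nat_lit 160, nat_lit 0, nat_lit 320, zbN0,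
 nat_lit 0, nat_lit 0, nat_lit 0, nat_lit 0, nat_lit 0, nat_lit 0, nat_lit 0, nat_lit 0, nat_lit 0, nat_lit 0, nat_lit 0, nat_lit 0, nat_lit 0, nat_lit 0, nat_lit 0, nat_lit 0, nat_lit 0, nat_lit 0, [],
 C1.Rw.none, C1.Rw.none,
 zbF0, []⟩
noncomputable def p030_l147 : Lf2 := ⟨nat_lit 0, nat_lit 10, [nat_lit 0, nat_lit 5, nat_lit 5, nat_lit 20], false, nat_lit 80, nat_lit 160, nat_lit 0, nat_lit 320, ⟨nat_lit 0, nat_lit 0, nat_lit 1000, nat_lit 5, nat_lit 103, nat_lit 1000, nat_lit 67, nat_lit 1000, nat_lit 41667, nat_lit 265, nat_lit 98817, nat_lit 292, nat_lit 60162375, nat_lit 0, nat_lit 0, nat_lit 2080777, false, false⟩,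
 nat_lit 0, nat_lit 9968, nat_lit 0, nat_lit 0, nat_lit 6070, nat_lit 0, nat_lit 1303, nat_lit 0, nat_lit 0, nat_lit 0, nat_lit 0, nat_lit 0, nat_lit 0, nat_lit 0, nat_lit 87, nat_lit 400000, nat_lit 0, nat_lit 0, [(nat_lit 9, [(nat_lit 5, nat_lit 1000)])],
 ⟨p030_k47, nat_lit 0, nat_lit 0, nat_lit 323, nat_lit 0, nat_lit 305072, [nat_lit 2918400000, nat_lit 9200000], [], [nat_lit 12761420916, nat_lit 14011058496, nat_lit 11206504290, nat_lit 10131521400, nat_lit 13396695964, nat_lit 14521787281, nat_lit 17206193020, nat_lit 15813820000], nat_lit 1271250, nat_lit 1271250, nat_lit 65850, nat_lit 780000, nat_lit 490000, nat_lit 1100001, [nat_lit 1100000, nat_lit 2127500], [nat_lit 70, nat_lit 40, nat_lit 20, nat_lit 80, nat_lit 13, nat_lit 373, nat_lit 150, nat_lit 11]⟩, ⟨p030_k48, nat_lit 0, nat_lit 0, nat_lit 576, nat_lit 0, nat_lit 465705, [nat_lit 0, nat_lit 0], [], [nat_lit 0, nat_lit 0, nat_lit 0, nat_lit 0,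 nat_lit 0, nat_lit 0, nat_lit 0, nat_lit 0], nat_lit 1271250, nat_lit 1271250, nat_lit 65850, nat_lit 780000, nat_lit 0, nat_lit 2260000, [nat_lit 1412500, nat_lit 1271250], [nat_lit 107, nat_lit 40, nat_lit 20, nat_lit 80, nat_lit 12, nat_lit 401, nat_lit 175, nat_lit 11]⟩,
 ⟨nat_lit 5477, nat_lit 5701, ⟨.ofNat (nat_lit 139419), .ofNat (nat_lit 346560), .ofNat (nat_lit 160761), .ofNat (nat_lit 367902), .ofNat (nat_lit 147813), .ofNat (nat_lit 350132), .ofNat (nat_lit 169170), .ofNat (nat_lit 371489)⟩, ⟨.ofNat (nat_lit 77764), .ofNat (nat_lit 231202), .ofNat (nat_lit 99106), .ofNat (nat_lit 252544), .ofNat (nat_lit 82986), .ofNat (nat_lit 232852), .ofNat (nat_lit 104343), .ofNat (nat_lit 254209)⟩⟩, []⟩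
noncomputable def p030_l148 : Lf2 := ⟨nat_lit 0, nat_lit 5, [nat_lit 4, nat_lit 5, nat_lit 5, nat_lit 20], false, nat_lit 80, nat_lit 120, nat_lit 0, nat_lit 304, ⟨nat_lit 0, nat_lit 0, nat_lit 1000, nat_lit 5, nat_lit 110, nat_lit 1000, nat_lit 50, nat_lit 1000, nat_lit 22817, nat_lit 252, nat_lit 114817, nat_lit 298, nat_lit 60523973, nat_lit 0, nat_lit 0, nat_lit 1933175, false, false⟩,
 nat_lit 0, nat_lit 9220, nat_lit 0, nat_lit 0, nat_lit 5366, nat_lit 0, nat_lit 936, nat_lit 0, nat_lit 0, nat_lit 0, nat_lit 0, nat_lit 0, nat_lit 0, nat_lit 0, nat_lit 117, nat_lit 1000000, nat_lit 0, nat_lit 0, [(nat_lit 9, [(nat_lit 6, nat_lit 1000)])],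
 ⟨p030_k0, nat_lit 0, nat_lit 0, nat_lit 257, nat_lit 0, nat_lit 311563, [nat_lit 2969600000, nat_lit 1600000000, nat_lit 226400000], [], [nat_lit 10756992331, nat_lit 11913107665, nat_lit 12309936704, nat_lit 11028299800, nat_lit 11235178853, nat_lit 12334564628, nat_lit 14637036338, nat_lit 13372551853], nat_lit 1271250, nat_lit 1271250, nat_lit 88400, nat_lit 780000, nat_lit 490000, nat_lit 780000, [nat_lit 1100000, nat_lit 1442500, nat_lit 1271250], [nat_lit 9, nat_lit 40, nat_lit 20, nat_lit 80, nat_lit 2, nat_lit 272, nat_lit 60, nat_lit 9]⟩, ⟨p030_k9, nat_lit 0, nat_lit 0, nat_lit 472, nat_lit 0, nat_lit 391289, [nat_lit 0, nat_lit 0, nat_lit 0], [], [nat_lit 0, nat_lit 0, nat_lit 0, nat_lit 0, nat_lit 0, nat_lit 0, nat_lit 0, nat_lit 0], nat_lit 1271250, nat_lit 1271250, nat_lit 88400, nat_lit 780000, nat_lit 0, nat_lit 2147000, [nat_lit 1412500, nat_lit 1271250, nat_lit 1271250], [nat_lit 25, nat_lit 40,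 nat_lit 20, nat_lit 80, nat_lit 17, nat_lit 401, nat_lit 175, nat_lit 12]⟩,
 ⟨nat_lit 5700, nat_lit 5917, ⟨.ofNat (nat_lit 160083), .ofNat (nat_lit 364271), .ofNat (nat_lit 181423), .ofNat (nat_lit 385610), .ofNat (nat_lit 168433), .ofNat (nat_lit 367902), .ofNat (nat_lit 189775), .ofNat (nat_lit 389244)⟩, ⟨.ofNat (nat_lit 72344), .ofNat (nat_lit 150878), .ofNat (nat_lit 93684), .ofNat (nat_lit 172217), .ofNat (nat_lit 77764), .ofNat (nat_lit 154483), .ofNat (nat_lit 99106), .ofNat (nat_lit 175825)⟩⟩, []⟩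
noncomputable def p030_l149 : Lf2 := ⟨nat_lit 0, nat_lit 5, [nat_lit 4, nat_lit 5, nat_lit 5, nat_lit 20], false, nat_lit 120, nat_lit 160, nat_lit 0, nat_lit 304, ⟨nat_lit 0, nat_lit 0, nat_lit 1000, nat_lit 5, nat_lit 110, nat_lit 1000, nat_lit 81, nat_lit 1000, nat_lit 62017, nat_lit 276, nat_lit 114817, nat_lit 298, nat_lit 58641998, nat_lit 0, nat_lit 0, nat_lit 2428571, false, false⟩,
 nat_lit 0, nat_lit 7873, nat_lit 0, nat_lit 0, nat_lit 4582, nat_lit 0, nat_lit 0, nat_lit 0, nat_lit 0, nat_lit 0, nat_lit 0, nat_lit 0, nat_lit 0, nat_lit 0, nat_lit 117, nat_lit 1000000, nat_lit 0, nat_lit 0, [(nat_lit 9, [(nat_lit 6, nat_lit 1000)])],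
 ⟨p030_k0, nat_lit 0, nat_lit 0, nat_lit 243, nat_lit 0, nat_lit 311563, [nat_lit 2969600000, nat_lit 1600000000, nat_lit 226400000], [], [nat_lit 11103195343, nat_lit 11991793556, nat_lit 10649856634, nat_lit 11300299681, nat_lit 11828917872, nat_lit 12511775261, nat_lit 11347099300, nat_lit 11959445830], nat_lit 1271250, nat_lit 1271250, nat_lit 88400, nat_lit 780000, nat_lit 780000, nat_lit 1100001, [nat_lit 1100000, nat_lit 1442500, nat_lit 1271250], [nat_lit 9, nat_lit 40, nat_lit 20, nat_lit 80, nat_lit 2, nat_lit 289, nat_lit 75, nat_lit 9]⟩, ⟨p030_k9, nat_lit 0, nat_lit 0, nat_lit 472, nat_lit 0, nat_lit 391289, [nat_lit 0, nat_lit 0, nat_lit 0], [], [nat_lit 0, nat_lit 0, nat_lit 0, nat_lit 0, nat_lit 0, nat_lit 0, nat_lit 0, nat_lit 0], nat_lit 1271250, nat_lit 1271250, nat_lit 88400, nat_lit 780000, nat_lit 0, nat_lit 2147000, [nat_lit 1412500, nat_lit 1271250, nat_lit 1271250], [nat_lit 25, nat_lit 40,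 nat_lit 20, nat_lit 80, nat_lit 17, nat_lit 401, nat_lit 175, nat_lit 12]⟩,
 ⟨nat_lit 5700, nat_lit 5917, ⟨.ofNat (nat_lit 160083), .ofNat (nat_lit 364271), .ofNat (nat_lit 181423), .ofNat (nat_lit 385610), .ofNat (nat_lit 168433), .ofNat (nat_lit 367902), .ofNat (nat_lit 189775), .ofNat (nat_lit 389244)⟩, ⟨.ofNat (nat_lit 150878), .ofNat (nat_lit 229411), .ofNat (nat_lit 172217), .ofNat (nat_lit 250751), .ofNat (nat_lit 154483), .ofNat (nat_lit 231202), .ofNat (nat_lit 175825), .ofNat (nat_lit 252544)⟩⟩, [⟨nat_lit 0, nat_lit 100, nat_lit 96, nat_lit 54, nat_lit 136976286⟩]⟩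
noncomputable def p030_l150 : Lf2 := ⟨nat_lit 0, nat_lit 10, [nat_lit 0, nat_lit 5, nat_lit 5, nat_lit 20], false, nat_lit 80, nat_lit 160, nat_lit 0, nat_lit 304, ⟨nat_lit 0, nat_lit 0, nat_lit 1000, nat_lit 5, nat_lit 110, nat_lit 1000, nat_lit 65, nat_lit 1000, nat_lit 40017, nat_lit 264, nat_lit 114817, nat_lit 298, nat_lit 59640263, nat_lit 0, nat_lit 0, nat_lit 2180173, false, false⟩,
 nat_lit 0, nat_lit 12900, nat_lit 0, nat_lit 0, nat_lit 7508, nat_lit 0, nat_lit 0, nat_lit 0, nat_lit 0, nat_lit 0, nat_lit 0, nat_lit 0, nat_lit 0, nat_lit 0, nat_lit 192, nat_lit 1000000, nat_lit 0, nat_lit 0, [(nat_lit 9, [(nat_lit 6, nat_lit 1000)])],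
 ⟨p030_k31, nat_lit 0, nat_lit 0, nat_lit 221, nat_lit 0, nat_lit 129364, [nat_lit 5107600001, nat_lit 178600000], [], [nat_lit 13313731561, nat_lit 13115141088, nat_lit 7148298696, nat_lit 8473404028, nat_lit 12134048178, nat_lit 13426987241, nat_lit 9315324553, nat_lit 9369359892], nat_lit 1271250, nat_lit 1271250, nat_lit 88400, nat_lit 780000, nat_lit 490000, nat_lit 1100001, [nat_lit 1100000, nat_lit 2127500], [nat_lit 70, nat_lit 40, nat_lit 20, nat_lit 80, nat_lit 13, nat_lit 373, nat_lit 150, nat_lit 11]⟩, ⟨p030_k49, nat_lit 0, nat_lit 0, nat_lit 402, nat_lit 0, nat_lit 163691, [nat_lit 0, nat_lit 0], [], [nat_lit 0, nat_lit 0, nat_lit 0, nat_lit 0, nat_lit 0, nat_lit 0, nat_lit 0, nat_lit 0], nat_lit 1271250, nat_lit 1271250, nat_lit 88400, nat_lit 780000, nat_lit 0, nat_lit 2147000, [nat_lit 1412500, nat_lit 1271250], [nat_lit 107, nat_lit 40, nat_lit 20, nat_lit 80, nat_lit 12, nat_lit 401, nat_lit 175,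 nat_lit 11]⟩,
 ⟨nat_lit 5700, nat_lit 5917, ⟨.ofNat (nat_lit 160083), .ofNat (nat_lit 364271), .ofNat (nat_lit 181423), .ofNat (nat_lit 385610), .ofNat (nat_lit 168433), .ofNat (nat_lit 367902), .ofNat (nat_lit 189775), .ofNat (nat_lit 389244)⟩, ⟨.ofNat (nat_lit 72344), .ofNat (nat_lit 229411), .ofNat (nat_lit 93684), .ofNat (nat_lit 250751), .ofNat (nat_lit 77764), .ofNat (nat_lit 231202), .ofNat (nat_lit 99106), .ofNat (nat_lit 252544)⟩⟩, [⟨nat_lit 0, nat_lit 100, nat_lit 96, nat_lit 47, nat_lit 330639713⟩]⟩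
noncomputable def p030_l151 : Lf2 := ⟨nat_lit 0, nat_lit 5, [nat_lit 4, nat_lit 5, nat_lit 5, nat_lit 20], false, nat_lit 80, nat_lit 160, nat_lit 0, nat_lit 304, ⟨nat_lit 0, nat_lit 0, nat_lit 1000, nat_lit 5, nat_lit 114, nat_lit 1000, nat_lit 67, nat_lit 1000, nat_lit 41667, nat_lit 265, nat_lit 123267, nat_lit 301, nat_lit 59236243, nat_lit 0, nat_lit 0, nat_lit 2263974, false, false⟩,
 nat_lit 0, nat_lit 9178, nat_lit 0, nat_lit 0, nat_lit 5589, nat_lit 0, nat_lit 916, nat_lit 0, nat_lit 0, nat_lit 0, nat_lit 0, nat_lit 0, nat_lit 0, nat_lit 0, nat_lit 117, nat_lit 1000000, nat_lit 0, nat_lit 0, [(nat_lit 9, [(nat_lit 6, nat_lit 1000)])],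
 ⟨p030_k3, nat_lit 0, nat_lit 0, nat_lit 266, nat_lit 0, nat_lit 347269, [nat_lit 3178400000, nat_lit 158133334], [], [nat_lit 11624235112, nat_lit 12810118928, nat_lit 10178884034, nat_lit 10242911380, nat_lit 12442424660, nat_lit 13510939048, nat_lit 15756524689, nat_lit 14457356050], nat_lit 1271250, nat_lit 1271250, nat_lit 111251, nat_lit 780000, nat_lit 490000, nat_lit 1100001, [nat_lit 1100000, nat_lit 1785000], [nat_lit 39, nat_lit 40, nat_lit 20, nat_lit 80, nat_lit 7, nat_lit 289, nat_lit 75, nat_lit 10]⟩, ⟨p030_k50, nat_lit 0, nat_lit 0, nat_lit 485, nat_lit 0, nat_lit 459268, [nat_lit 0, nat_lit 0], [], [nat_lit 0, nat_lit 0, nat_lit 0, nat_lit 0, nat_lit 0, nat_lit 0, nat_lit 0, nat_lit 0], nat_lit 1271250, nat_lit 1271250, nat_lit 111251, nat_lit 780000, nat_lit 0, nat_lit 2147000, [nat_lit 1412500, nat_lit 1271250], [nat_lit 51, nat_lit 40, nat_lit 20, nat_lit 80, nat_lit 1, nat_lit 401, nat_lit 175,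 nat_lit 12]⟩,
 ⟨nat_lit 5477, nat_lit 5701, ⟨.ofNat (nat_lit 176105), .ofNat (nat_lit 367902), .ofNat (nat_lit 197447), .ofNat (nat_lit 389244), .ofNat (nat_lit 184157), .ofNat (nat_lit 371489), .ofNat (nat_lit 205514), .ofNat (nat_lit 392847)⟩, ⟨.ofNat (nat_lit 77764), .ofNat (nat_lit 231202), .ofNat (nat_lit 99106), .ofNat (nat_lit 252544), .ofNat (nat_lit 82986), .ofNat (nat_lit 232852), .ofNat (nat_lit 104343), .ofNat (nat_lit 254209)⟩⟩, []⟩
noncomputable def p030_l152 : Lf2 := ⟨nat_lit 0, nat_lit 10, [nat_lit 0, nat_lit 5, nat_lit 5, nat_lit 20], false, nat_lit 80, nat_lit 160, nat_lit 0, nat_lit 304, ⟨nat_lit 0, nat_lit 0, nat_lit 1000, nat_lit 5, nat_lit 114, nat_lit 1000, nat_lit 67, nat_lit 1000, nat_lit 41667, nat_lit 265, nat_lit 123267, nat_lit 301, nat_lit 59236243, nat_lit 0, nat_lit 0, nat_lit 2263974, false, false⟩,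
 nat_lit 0, nat_lit 8103, nat_lit 0, nat_lit 0, nat_lit 4934, nat_lit 0, nat_lit 523, nat_lit 0, nat_lit 0, nat_lit 0, nat_lit 0, nat_lit 0, nat_lit 0, nat_lit 0, nat_lit 87, nat_lit 400000, nat_lit 0, nat_lit 0, [(nat_lit 9, [(nat_lit 5, nat_lit 1000)])],
 ⟨p030_k47, nat_lit 0, nat_lit 0, nat_lit 218, nat_lit 0, nat_lit 177593, [nat_lit 2918400000, nat_lit 9200000], [], [nat_lit 11959442082, nat_lit 12665399248, nat_lit 10750305084, nat_lit 11465843752, nat_lit 12572891298, nat_lit 13281165728, nat_lit 12245233010, nat_lit 12657801320], nat_lit 1271250, nat_lit 1271250, nat_lit 111251, nat_lit 780000, nat_lit 490000, nat_lit 1100001, [nat_lit 1100000, nat_lit 2127500], [nat_lit 70, nat_lit 40, nat_lit 20, nat_lit 80, nat_lit 13, nat_lit 373, nat_lit 150, nat_lit 11]⟩, ⟨p030_k49, nat_lit 0, nat_lit 0, nat_lit 490, nat_lit 0, nat_lit 237012, [nat_lit 0, nat_lit 0], [], [nat_lit 0, nat_lit 0, nat_lit 0, nat_lit 0,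 nat_lit 0, nat_lit 0, nat_lit 0, nat_lit 0], nat_lit 1271250, nat_lit 1271250, nat_lit 111251, nat_lit 780000, nat_lit 0, nat_lit 2147000, [nat_lit 1412500, nat_lit 1271250], [nat_lit 107, nat_lit 40, nat_lit 20, nat_lit 80, nat_lit 12, nat_lit 401, nat_lit 175, nat_lit 11]⟩,
 ⟨nat_lit 5477, nat_lit 5701, ⟨.ofNat (nat_lit 176105), .ofNat (nat_lit 367902), .ofNat (nat_lit 197447), .ofNat (nat_lit 389244), .ofNat (nat_lit 184157), .ofNat (nat_lit 371489), .ofNat (nat_lit 205514), .ofNat (nat_lit 392847)⟩, ⟨.ofNat (nat_lit 77764), .ofNat (nat_lit 231202), .ofNat (nat_lit 99106), .ofNat (nat_lit 252544), .ofNat (nat_lit 82986), .ofNat (nat_lit 232852), .ofNat (nat_lit 104343), .ofNat (nat_lit 254209)⟩⟩, [⟨nat_lit 0, nat_lit 100, nat_lit 94, nat_lit 59, nat_lit 140868599⟩]⟩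
noncomputable def b_VL_600_500_5_19 : St := ⟨true, nat_lit 1, nat_lit 1, nat_lit 1, nat_lit 40, nat_lit 240, nat_lit 280, nat_lit 200, nat_lit 240, nat_lit 4, nat_lit 120, nat_lit 20, nat_lit 40, nat_lit 80, nat_lit 160, nat_lit 0, nat_lit 320, nat_lit 0, nat_lit 40, nat_lit 0, nat_lit 0, nat_lit 0, nat_lit 0⟩
theorem d_VL_600_500_5_19 (h : EB TB.env) : Dead b_VL_600_500_5_19 := chkB_sound0 h (T :=
(.spl (nat_lit 0) (nat_lit 260)
(.spl (nat_lit 6) (nat_lit 32)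
(.spl (nat_lit 6) (nat_lit 20)
(.spl (nat_lit 6) (nat_lit 8)
(.spl (nat_lit 4) (nat_lit 120)
(.spl (nat_lit 0) (nat_lit 250)
(.leaf p030_l134)
(.leaf p030_l135))
(.spl (nat_lit 1) (nat_lit 220)
(.leaf p030_l136)
(.trZ (nat_lit 0) (nat_lit 100) (nat_lit 98) (nat_lit 30) (nat_lit 8) (.trX (nat_lit 19) (nat_lit 100) (nat_lit 86) (nat_lit 60) (nat_lit 304) (.spl (nat_lit 0) (nat_lit 250)
(.spl (nat_lit 0) (nat_lit 245)
(.leaf p030_l137)
(.leaf p030_l138))
(.trZ (nat_lit 0) (nat_lit 100) (nat_lit 97) (nat_lit 35) (nat_lit 12) (.leaf p030_l139)))))))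
(.spl (nat_lit 0) (nat_lit 250)
(.leaf p030_l140)
(.leaf p030_l141)))
(.leaf p030_l142))
(.leaf p030_l143))
(.trZ (nat_lit 0) (nat_lit 100) (nat_lit 95) (nat_lit 30) (nat_lit 8) (.spl (nat_lit 1) (nat_lit 220)
(.spl (nat_lit 0) (nat_lit 270)
(.spl (nat_lit 6) (nat_lit 28)
(.spl (nat_lit 0) (nat_lit 265)
(.leaf p030_l144)
(.leaf p030_l145))
(.leaf p030_l146))
(.trZ (nat_lit 0) (nat_lit 100) (nat_lit 94) (nat_lit 35) (nat_lit 12) (.leaf p030_l147)))
(.trZ (nat_lit 0) (nat_lit 100) (nat_lit 96) (nat_lit 40) (nat_lit 16) (.trX (nat_lit 19) (nat_lit 100) (nat_lit 86) (nat_lit 60) (nat_lit 304) (.spl (nat_lit 0) (nat_lit 270)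
(.spl (nat_lit 6) (nat_lit 20)
(.spl (nat_lit 4) (nat_lit 120)
(.leaf p030_l148)
(.leaf p030_l149))
(.leaf p030_l150))
(.trZ (nat_lit 0) (nat_lit 100) (nat_lit 94) (nat_lit 44) (nat_lit 20) (.spl (nat_lit 6) (nat_lit 20)
(.leaf p030_l151)
(.leaf p030_l152)))))))))) (by decide +kernel)

end B2
end Pool.Agent.Lib.MP_6947cd_al
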