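import Pool.Agent.Lib.MP_6947cd_al.ZB.Pre

/-!
Problem MP_6947cd_al (Chollet).  Case B, second entry in [2/5, 17/20]: certificates of the tree, part P031 (generated).
-/

set_option autoImplicit false
set_option linter.all false

namespace Pool.Agent.Lib.MP_6947cd_al
namespace B2

open Ent Fr B1 PkA

noncomputable def p031_k0 : C1.Kn := ⟨[nat_lit 80, nat_lit 100, nat_lit 140], [nat_lit 0, nat_lit 0, nat_lit 1022], [(nat_lit 0, nat_lit 0, nat_lit 0), (nat_lit 0, nat_lit 0, nat_lit 0), (nat_lit 1000, nat_lit 1000, nat_lit 399)], (nat_lit 100, nat_lit 99, nat_lit 44)⟩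
noncomputable def p031_k1 : C1.Kn := ⟨[nat_lit 100, nat_lit 120, nat_lit 160], [nat_lit 0, nat_lit 0, nat_lit 1063], [(nat_lit 0, nat_lit 0, nat_lit 0), (nat_lit 0, nat_lit 0, nat_lit 0), (nat_lit 924, nat_lit 1000, nat_lit 383)], (nat_lit 100, nat_lit 90, nat_lit 44)⟩
noncomputable def p031_k2 : C1.Kn := ⟨[nat_lit 80, nat_lit 100, nat_lit 120], [nat_lit 0, nat_lit 265, nat_lit 768], [(nat_lit 0, nat_lit 0, nat_lit 0), (nat_lit 1000, nat_lit 959, nat_lit 206), (nat_lit 1000, nat_lit 958, nat_lit 392)], (nat_lit 96, nat_lit 100, nat_lit 44)⟩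
noncomputable def p031_k3 : C1.Kn := ⟨[nat_lit 100, nat_lit 120, nat_lit 140], [nat_lit 0, nat_lit 254, nat_lit 778], [(nat_lit 0, nat_lit 0, nat_lit 0), (nat_lit 1000, nat_lit 1000, nat_lit 198), (nat_lit 960, nat_lit 1000, nat_lit 392)], (nat_lit 100, nat_lit 94, nat_lit 44)⟩
noncomputable def p031_k4 : C1.Kn := ⟨[nat_lit 100, nat_lit 120, nat_lit 140], [nat_lit 0, nat_lit 383, nat_lit 902], [(nat_lit 0, nat_lit 0, nat_lit 0), (nat_lit 1000, nat_lit 1000, nat_lit 299), (nat_lit 979, nat_lit 1000, nat_lit 397)], (nat_lit 100, nat_lit 97, nat_lit 44)⟩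
noncomputable def p031_k5 : C1.Kn := ⟨[nat_lit 80, nat_lit 100, nat_lit 160], [nat_lit 0, nat_lit 0, nat_lit 1533], [(nat_lit 0, nat_lit 0, nat_lit 0), (nat_lit 0, nat_lit 0, nat_lit 0), (nat_lit 1000, nat_lit 1000, nat_lit 399)], (nat_lit 100, nat_lit 92, nat_lit 61)⟩
noncomputable def p031_k6 : C1.Kn := ⟨[nat_lit 100, nat_lit 120, nat_lit 160], [nat_lit 0, nat_lit 0, nat_lit 1063], [(nat_lit 0, nat_lit 0, nat_lit 0), (nat_lit 0, nat_lit 0, nat_lit 0), (nat_lit 924, nat_lit 1000, nat_lit 383)], (nat_lit 100, nat_lit 80, nat_lit 60)⟩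
noncomputable def p031_k7 : C1.Kn := ⟨[nat_lit 80, nat_lit 100, nat_lit 120], [nat_lit 0, nat_lit 0, nat_lit 511], [(nat_lit 0, nat_lit 0, nat_lit 0), (nat_lit 0, nat_lit 0, nat_lit 0), (nat_lit 1000, nat_lit 997, nat_lit 383)], (nat_lit 98, nat_lit 100, nat_lit 28)⟩
noncomputable def p031_k8 : C1.Kn := ⟨[nat_lit 100, nat_lit 120, nat_lit 140], [nat_lit 0, nat_lit 0, nat_lit 533], [(nat_lit 0, nat_lit 0, nat_lit 0), (nat_lit 0, nat_lit 0, nat_lit 0), (nat_lit 924, nat_lit 1000, nat_lit 383)], (nat_lit 100, nat_lit 96, nat_lit 28)⟩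
noncomputable def p031_k9 : C1.Kn := ⟨[nat_lit 80, nat_lit 100], [nat_lit 0, nat_lit 265], [(nat_lit 0, nat_lit 0, nat_lit 0), (nat_lit 1000, nat_lit 959, nat_lit 206)], (nat_lit 95, nat_lit 100, nat_lit 28)⟩
noncomputable def p031_k10 : C1.Kn := ⟨[nat_lit 80, nat_lit 100, nat_lit 140], [nat_lit 0, nat_lit 265, nat_lit 1269], [(nat_lit 0, nat_lit 0, nat_lit 0), (nat_lit 1000, nat_lit 959, nat_lit 206), (nat_lit 1000, nat_lit 958, nat_lit 392)], (nat_lit 100, nat_lit 99, nat_lit 63)⟩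
noncomputable def p031_k11 : C1.Kn := ⟨[nat_lit 80, nat_lit 100, nat_lit 120], [nat_lit 0, nat_lit 132, nat_lit 640], [(nat_lit 0, nat_lit 0, nat_lit 0), (nat_lit 1000, nat_lit 979, nat_lit 103), (nat_lit 1000, nat_lit 979, nat_lit 397)], (nat_lit 97, nat_lit 100, nat_lit 28)⟩
noncomputable def p031_k12 : C1.Kn := ⟨[nat_lit 80, nat_lit 100, nat_lit 120], [nat_lit 0, nat_lit 65, nat_lit 576], [(nat_lit 0, nat_lit 0, nat_lit 0), (nat_lit 1000, nat_lit 990, nat_lit 51), (nat_lit 1000, nat_lit 990, nat_lit 399)], (nat_lit 98, nat_lit 100, nat_lit 28)⟩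
noncomputable def p031_k13 : C1.Kn := ⟨[nat_lit 100, nat_lit 120], [nat_lit 0, nat_lit 254], [(nat_lit 0, nat_lit 0, nat_lit 0), (nat_lit 1000, nat_lit 1000, nat_lit 198)], (nat_lit 100, nat_lit 99, nat_lit 28)⟩
noncomputable def p031_k14 : C1.Kn := ⟨[nat_lit 80, nat_lit 100, nat_lit 120], [nat_lit 0, nat_lit 132, nat_lit 640], [(nat_lit 0, nat_lit 0, nat_lit 0), (nat_lit 1000, nat_lit 979, nat_lit 103), (nat_lit 1000, nat_lit 979, nat_lit 397)], (nat_lit 99, nat_lit 100, nat_lit 44)⟩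
noncomputable def p031_k15 : C1.Kn := ⟨[nat_lit 80, nat_lit 100, nat_lit 140], [nat_lit 0, nat_lit 0, nat_lit 1022], [(nat_lit 0, nat_lit 0, nat_lit 0), (nat_lit 0, nat_lit 0, nat_lit 0), (nat_lit 1000, nat_lit 1000, nat_lit 399)], (nat_lit 100, nat_lit 95, nat_lit 55)⟩
noncomputable def p031_k16 : C1.Kn := ⟨[nat_lit 100, nat_lit 120, nat_lit 160], [nat_lit 0, nat_lit 0, nat_lit 1063], [(nat_lit 0, nat_lit 0, nat_lit 0), (nat_lit 0, nat_lit 0, nat_lit 0), (nat_lit 924, nat_lit 1000, nat_lit 383)], (nat_lit 100, nat_lit 84, nat_lit 54)⟩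
noncomputable def p031_k17 : C1.Kn := ⟨[nat_lit 80, nat_lit 100, nat_lit 120], [nat_lit 0, nat_lit 0, nat_lit 511], [(nat_lit 0, nat_lit 0, nat_lit 0), (nat_lit 0, nat_lit 0, nat_lit 0), (nat_lit 1000, nat_lit 997, nat_lit 383)], (nat_lit 100, nat_lit 100, nat_lit 40)⟩
noncomputable def p031_k18 : C1.Kn := ⟨[nat_lit 100, nat_lit 120, nat_lit 140], [nat_lit 0, nat_lit 0, nat_lit 533], [(nat_lit 0, nat_lit 0, nat_lit 0), (nat_lit 0, nat_lit 0, nat_lit 0), (nat_lit 924, nat_lit 1000, nat_lit 383)], (nat_lit 100, nat_lit 92, nat_lit 39)⟩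
noncomputable def p031_k19 : C1.Kn := ⟨[nat_lit 80, nat_lit 100, nat_lit 140], [nat_lit 0, nat_lit 0, nat_lit 1022], [(nat_lit 0, nat_lit 0, nat_lit 0), (nat_lit 0, nat_lit 0, nat_lit 0), (nat_lit 1000, nat_lit 1000, nat_lit 399)], (nat_lit 100, nat_lit 98, nat_lit 48)⟩
noncomputable def p031_k20 : C1.Kn := ⟨[nat_lit 100, nat_lit 120, nat_lit 160], [nat_lit 0, nat_lit 0, nat_lit 1063], [(nat_lit 0, nat_lit 0, nat_lit 0), (nat_lit 0, nat_lit 0, nat_lit 0), (nat_lit 924, nat_lit 1000, nat_lit 383)], (nat_lit 100, nat_lit 88, nat_lit 47)⟩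
noncomputable def p031_k21 : C1.Kn := ⟨[nat_lit 80, nat_lit 140], [nat_lit 0, nat_lit 395], [(nat_lit 0, nat_lit 0, nat_lit 0), (nat_lit 1000, nat_lit 979, nat_lit 103)], (nat_lit 100, nat_lit 98, nat_lit 56)⟩
noncomputable def p031_k22 : C1.Kn := ⟨[nat_lit 100, nat_lit 160], [nat_lit 0, nat_lit 0], [(nat_lit 0, nat_lit 0, nat_lit 0), (nat_lit 0, nat_lit 0, nat_lit 0)], (nat_lit 100, nat_lit 84, nat_lit 54)⟩
noncomputable def p031_k23 : C1.Kn := ⟨[nat_lit 80, nat_lit 100, nat_lit 140], [nat_lit 0, nat_lit 132, nat_lit 1148], [(nat_lit 0, nat_lit 0, nat_lit 0), (nat_lit 1000, nat_lit 979, nat_lit 103), (nat_lit 1000, nat_lit 979, nat_lit 397)], (nat_lit 100, nat_lit 98, nat_lit 56)⟩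
noncomputable def p031_k24 : C1.Kn := ⟨[nat_lit 100, nat_lit 120, nat_lit 160], [nat_lit 0, nat_lit 254, nat_lit 1301], [(nat_lit 0, nat_lit 0, nat_lit 0), (nat_lit 1000, nat_lit 1000, nat_lit 198), (nat_lit 960, nat_lit 1000, nat_lit 392)], (nat_lit 100, nat_lit 89, nat_lit 55)⟩
noncomputable def p031_k25 : C1.Kn := ⟨[nat_lit 100, nat_lit 120, nat_lit 160], [nat_lit 0, nat_lit 383, nat_lit 1421], [(nat_lit 0, nat_lit 0, nat_lit 0), (nat_lit 1000, nat_lit 1000, nat_lit 299), (nat_lit 979, nat_lit 1000, nat_lit 397)], (nat_lit 100, nat_lit 92, nat_lit 55)⟩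
noncomputable def p031_k26 : C1.Kn := ⟨[nat_lit 80, nat_lit 100, nat_lit 120], [nat_lit 0, nat_lit 399, nat_lit 897], [(nat_lit 0, nat_lit 0, nat_lit 0), (nat_lit 1000, nat_lit 938, nat_lit 310), (nat_lit 1000, nat_lit 938, nat_lit 389)], (nat_lit 94, nat_lit 100, nat_lit 44)⟩
noncomputable def p031_k27 : C1.Kn := ⟨[nat_lit 100, nat_lit 120, nat_lit 160], [nat_lit 0, nat_lit 254, nat_lit 1301], [(nat_lit 0, nat_lit 0, nat_lit 0), (nat_lit 1000, nat_lit 1000, nat_lit 198), (nat_lit 960, nat_lit 1000, nat_lit 392)], (nat_lit 100, nat_lit 86, nat_lit 60)⟩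
noncomputable def p031_k28 : C1.Kn := ⟨[nat_lit 100, nat_lit 120], [nat_lit 0, nat_lit 448], [(nat_lit 0, nat_lit 0, nat_lit 0), (nat_lit 1000, nat_lit 1000, nat_lit 350)], (nat_lit 99, nat_lit 100, nat_lit 28)⟩
noncomputable def p031_k29 : C1.Kn := ⟨[nat_lit 80, nat_lit 100], [nat_lit 0, nat_lit 0], [(nat_lit 0, nat_lit 0, nat_lit 0), (nat_lit 0, nat_lit 0, nat_lit 0)], (nat_lit 98, nat_lit 100, nat_lit 20)⟩
noncomputable def p031_k30 : C1.Kn := ⟨[nat_lit 100, nat_lit 120], [nat_lit 0, nat_lit 448], [(nat_lit 0, nat_lit 0, nat_lit 0), (nat_lit 1000, nat_lit 1000, nat_lit 350)], (nat_lit 98, nat_lit 100, nat_lit 20)⟩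
noncomputable def p031_k31 : C1.Kn := ⟨[nat_lit 80, nat_lit 100], [nat_lit 0, nat_lit 65], [(nat_lit 0, nat_lit 0, nat_lit 0), (nat_lit 1000, nat_lit 990, nat_lit 51)], (nat_lit 97, nat_lit 100, nat_lit 20)⟩
noncomputable def p031_k32 : C1.Kn := ⟨[nat_lit 80, nat_lit 120], [nat_lit 0, nat_lit 528], [(nat_lit 0, nat_lit 0, nat_lit 0), (nat_lit 1000, nat_lit 959, nat_lit 206)], (nat_lit 96, nat_lit 100, nat_lit 44)⟩
noncomputable def p031_k33 : C1.Kn := ⟨[nat_lit 80, nat_lit 120, nat_lit 160], [nat_lit 0, nat_lit 0, nat_lit 2132], [(nat_lit 0, nat_lit 0, nat_lit 0), (nat_lit 0, nat_lit 0, nat_lit 0), (nat_lit 858, nat_lit 1000, nat_lit 713)], (nat_lit 100, nat_lit 92, nat_lit 61)⟩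
noncomputable def p031_k34 : C1.Kn := ⟨[nat_lit 80, nat_lit 100, nat_lit 140], [nat_lit 0, nat_lit 171, nat_lit 1184], [(nat_lit 0, nat_lit 0, nat_lit 0), (nat_lit 1000, nat_lit 973, nat_lit 133), (nat_lit 1000, nat_lit 973, nat_lit 395)], (nat_lit 100, nat_lit 99, nat_lit 56)⟩
noncomputable def p031_k35 : C1.Kn := ⟨[nat_lit 80, nat_lit 100, nat_lit 140], [nat_lit 0, nat_lit 198, nat_lit 1210], [(nat_lit 0, nat_lit 0, nat_lit 0), (nat_lit 1000, nat_lit 969, nat_lit 154), (nat_lit 1000, nat_lit 969, nat_lit 395)], (nat_lit 100, nat_lit 100, nat_lit 56)⟩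
noncomputable def p031_k36 : C1.Kn := ⟨[nat_lit 80, nat_lit 160], [nat_lit 0, nat_lit 0], [(nat_lit 0, nat_lit 0, nat_lit 0), (nat_lit 0, nat_lit 0, nat_lit 0)], (nat_lit 100, nat_lit 92, nat_lit 61)⟩
noncomputable def p031_k37 : C1.Kn := ⟨[nat_lit 100, nat_lit 160], [nat_lit 0, nat_lit 0], [(nat_lit 0, nat_lit 0, nat_lit 0), (nat_lit 0, nat_lit 0, nat_lit 0)], (nat_lit 100, nat_lit 80, nat_lit 60)⟩
noncomputable def p031_k38 : C1.Kn := ⟨[nat_lit 80, nat_lit 100, nat_lit 140], [nat_lit 0, nat_lit 399, nat_lit 1395], [(nat_lit 0, nat_lit 0, nat_lit 0), (nat_lit 1000, nat_lit 938, nat_lit 310), (nat_lit 1000, nat_lit 938, nat_lit 389)], (nat_lit 98, nat_lit 100, nat_lit 63)⟩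
noncomputable def p031_k39 : C1.Kn := ⟨[nat_lit 100, nat_lit 140, nat_lit 160], [nat_lit 0, nat_lit 0, nat_lit 1280], [(nat_lit 0, nat_lit 0, nat_lit 0), (nat_lit 0, nat_lit 0, nat_lit 0), (nat_lit 800, nat_lit 1000, nat_lit 600)], (nat_lit 100, nat_lit 80, nat_lit 60)⟩
noncomputable def p031_l0 : Lf2 := ⟨nat_lit 0, nat_lit 5, [nat_lit 4, nat_lit 5, nat_lit 5, nat_lit 20], false, nat_lit 80, nat_lit 160, nat_lit 0, nat_lit 320, ⟨nat_lit 0, nat_lit 0, nat_lit 1000, nat_lit 5, nat_lit 156, nat_lit 1000, nat_lit 63, nat_lit 1000, nat_lit 36817, nat_lit 262, nat_lit 228150, nat_lit 332, nat_lit 55730812, nat_lit 0, nat_lit 0, nat_lit 2817962, false, false⟩,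
 nat_lit 0, nat_lit 41843, nat_lit 0, nat_lit 0, nat_lit 22151, nat_lit 0, nat_lit 0, nat_lit 0, nat_lit 0, nat_lit 0, nat_lit 0, nat_lit 0, nat_lit 0, nat_lit 0, nat_lit 147, nat_lit 1000000, nat_lit 6356743992, nat_lit 0, [(nat_lit 6, [(nat_lit 6, nat_lit 1000)])],
 ⟨p031_k0, nat_lit 0, nat_lit 0, nat_lit 186, nat_lit 0, nat_lit 208309, [nat_lit 3329066667, nat_lit 3042400001, nat_lit 177599999], [], [nat_lit 14695144668, nat_lit 6571025754, nat_lit 1965026744, nat_lit 7703480182, nat_lit 0, nat_lit 5410748094, nat_lit 1358478636, nat_lit 6352152714], nat_lit 1271250, nat_lit 1271250, nat_lit 780000, nat_lit 1100001, nat_lit 490000, nat_lit 1100001, [nat_lit 1100000, nat_lit 1442500, nat_lit 1271250], [nat_lit 11, nat_lit 40, nat_lit 20, nat_lit 80, nat_lit 1, nat_lit 373, nat_lit 150, nat_lit 11]⟩, ⟨p031_k1, nat_lit 0, nat_lit 0, nat_lit 382, nat_lit 0, nat_lit 267014, [nat_lit 0, nat_lit 0, nat_lit 0], [], [nat_lit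 0, nat_lit 0, nat_lit 0, nat_lit 0, nat_lit 0, nat_lit 0, nat_lit 0, nat_lit 0], nat_lit 1271250, nat_lit 1271250, nat_lit 780000, nat_lit 1100001, nat_lit 0, nat_lit 2260000, [nat_lit 1412500, nat_lit 1271250, nat_lit 1271250], [nat_lit 53, nat_lit 40, nat_lit 20, nat_lit 80, nat_lit 14, nat_lit 401, nat_lit 175, nat_lit 11]⟩,
 ⟨nat_lit 5916, nat_lit 6325, ⟨.ofNat (nat_lit 335470), .ofNat (nat_lit 417734), .ofNat (nat_lit 356838), .ofNat (nat_lit 439102), .ofNat (nat_lit 342931), .ofNat (nat_lit 421465), .ofNat (nat_lit 364271), .ofNat (nat_lit 442804)⟩, ⟨.ofNat (nat_lit 60895), .ofNat (nat_lit 225423), .ofNat (nat_lit 82263), .ofNat (nat_lit 246791), .ofNat (nat_lit 72344), .ofNat (nat_lit 229411), .ofNat (nat_lit 93684), .ofNat (nat_lit 250751)⟩⟩, []⟩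
noncomputable def p031_l1 : Lf2 := ⟨nat_lit 0, nat_lit 5, [nat_lit 4, nat_lit 5, nat_lit 5, nat_lit 20], false, nat_lit 80, nat_lit 160, nat_lit 0, nat_lit 320, ⟨nat_lit 0, nat_lit 0, nat_lit 1000, nat_lit 5, nat_lit 158, nat_lit 1000, nat_lit 66, nat_lit 1000, nat_lit 41667, nat_lit 265, nat_lit 236017, nat_lit 334, nat_lit 55352810, nat_lit 0, nat_lit 0, nat_lit 2892596, false, false⟩,
 nat_lit 0, nat_lit 12185, nat_lit 0, nat_lit 0, nat_lit 7092, nat_lit 0, nat_lit 1521, nat_lit 0, nat_lit 0, nat_lit 0, nat_lit 0, nat_lit 0, nat_lit 0, nat_lit 0, nat_lit 117, nat_lit 1000000, nat_lit 0, nat_lit 0, [(nat_lit 9, [(nat_lit 6, nat_lit 1000)])],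
 ⟨p031_k2, nat_lit 0, nat_lit 0, nat_lit 183, nat_lit 0, nat_lit 300150, [nat_lit 2969600000, nat_lit 1600000000, nat_lit 226400000], [], [nat_lit 11380164875, nat_lit 9894846640, nat_lit 8504429480, nat_lit 10888671376, nat_lit 8453801784, nat_lit 10717309232, nat_lit 9521400824, nat_lit 11633113600], nat_lit 1271250, nat_lit 1271250, nat_lit 780000, nat_lit 1100001, nat_lit 490000, nat_lit 1100001, [nat_lit 1100000, nat_lit 1442500, nat_lit 1271250], [nat_lit 9, nat_lit 40, nat_lit 20, nat_lit 80, nat_lit 2, nat_lit 317, nat_lit 100, nat_lit 10]⟩, ⟨p031_k1, nat_lit 0, nat_lit 0, nat_lit 501, nat_lit 0, nat_lit 429179, [nat_lit 0, nat_lit 0, nat_lit 0], [], [nat_lit 0, nat_lit 0, nat_lit 0, nat_lit 0, nat_lit 0, nat_lit 0, nat_lit 0, nat_lit 0], nat_lit 1271250, nat_lit 1271250, nat_lit 780000, nat_lit 1100001, nat_lit 0, nat_lit 2260000, [nat_lit 1412500, nat_lit 1271250, nat_lit 1271250], [nat_lit 53, nat_lit 40,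 nat_lit 20, nat_lit 80, nat_lit 14, nat_lit 401, nat_lit 175, nat_lit 11]⟩,
 ⟨nat_lit 5477, nat_lit 5917, ⟨.ofNat (nat_lit 342931), .ofNat (nat_lit 421465), .ofNat (nat_lit 364271), .ofNat (nat_lit 442804), .ofNat (nat_lit 350132), .ofNat (nat_lit 425065), .ofNat (nat_lit 371489), .ofNat (nat_lit 446423)⟩, ⟨.ofNat (nat_lit 72344), .ofNat (nat_lit 229411), .ofNat (nat_lit 93684), .ofNat (nat_lit 250751), .ofNat (nat_lit 82986), .ofNat (nat_lit 232852), .ofNat (nat_lit 104343), .ofNat (nat_lit 254209)⟩⟩, []⟩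
noncomputable def p031_l2 : Lf2 := ⟨nat_lit 0, nat_lit 5, [nat_lit 4, nat_lit 5, nat_lit 5, nat_lit 20], false, nat_lit 80, nat_lit 120, nat_lit 0, nat_lit 304, ⟨nat_lit 1000, nat_lit 0, nat_lit 0, nat_lit 0, nat_lit 0, nat_lit 0, nat_lit 0, nat_lit 0, nat_lit 0, nat_lit 0, nat_lit 0, nat_lit 0, nat_lit 0, nat_lit 0, nat_lit 0, nat_lit 0, false, false⟩,
 nat_lit 25724, nat_lit 46285, nat_lit 0, nat_lit 0, nat_lit 38122, nat_lit 12302, nat_lit 1129, nat_lit 0, nat_lit 0, nat_lit 0, nat_lit 0, nat_lit 0, nat_lit 0, nat_lit 0, nat_lit 0, nat_lit 0, nat_lit 15937044750, nat_lit 0, [],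
 ⟨p031_k0, nat_lit 0, nat_lit 0, nat_lit 189, nat_lit 0, nat_lit 247361, [nat_lit 4688000000, nat_lit 6250000000, nat_lit 9842000000], [], [nat_lit 24947587326, nat_lit 9481801332, nat_lit 3147523360, nat_lit 9692604930, nat_lit 1029713900, nat_lit 6805216854, nat_lit 0, nat_lit 7761077582], nat_lit 1271250, nat_lit 1271250, nat_lit 780000, nat_lit 1100001, nat_lit 490000, nat_lit 780000, [nat_lit 1100000, nat_lit 1442500, nat_lit 1271250], [nat_lit 11, nat_lit 40, nat_lit 20, nat_lit 80, nat_lit 1, nat_lit 373, nat_lit 150, nat_lit 11]⟩, ⟨p031_k3, nat_lit 0, nat_lit 0, nat_lit 311, nat_lit 0, nat_lit 278490, [nat_lit 6250000000, nat_lit 7968000000, nat_lit 9842000000], [], [nat_lit 44741756804, nat_lit 41489489366, nat_lit 31830610972, nat_lit 28627305494, nat_lit 33363936276, nat_lit 30449368580, nat_lit 38810731013, nat_lit 35935389474], nat_lit 1271250, nat_lit 1271250, nat_lit 780000, nat_lit 1100001, nat_lit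 0, nat_lit 2147000, [nat_lit 1412500, nat_lit 1271250, nat_lit 1271250], [nat_lit 25, nat_lit 40, nat_lit 20, nat_lit 80, nat_lit 17, nat_lit 401, nat_lit 175, nat_lit 12]⟩,
 zbF0, []⟩
noncomputable def p031_l3 : Lf2 := ⟨nat_lit 0, nat_lit 5, [nat_lit 4, nat_lit 5, nat_lit 5, nat_lit 20], false, nat_lit 80, nat_lit 120, nat_lit 0, nat_lit 296, ⟨nat_lit 1000, nat_lit 0, nat_lit 0, nat_lit 0, nat_lit 0, nat_lit 0, nat_lit 0, nat_lit 0, nat_lit 0, nat_lit 0, nat_lit 0, nat_lit 0, nat_lit 0, nat_lit 0, nat_lit 0, nat_lit 0, false, false⟩,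
 nat_lit 22947, nat_lit 14152, nat_lit 0, nat_lit 0, nat_lit 19640, nat_lit 11557, nat_lit 0, nat_lit 0, nat_lit 0, nat_lit 0, nat_lit 0, nat_lit 0, nat_lit 0, nat_lit 0, nat_lit 0, nat_lit 0, nat_lit 0, nat_lit 0, [],
 ⟨p031_k0, nat_lit 0, nat_lit 0, nat_lit 192, nat_lit 0, nat_lit 290141, [nat_lit 4688000000, nat_lit 6250000000, nat_lit 9842000000], [], [nat_lit 19641241120, nat_lit 12124505840, nat_lit 9032451200, nat_lit 11941937680, nat_lit 7911376000, nat_lit 10854790800, nat_lit 7860284000, nat_lit 10564081400], nat_lit 1271250, nat_lit 1271250, nat_lit 780000, nat_lit 1100001, nat_lit 490000, nat_lit 780000, [nat_lit 1100000, nat_lit 1442500, nat_lit 1271250], [nat_lit 11, nat_lit 40, nat_lit 20, nat_lit 80, nat_lit 1, nat_lit 373, nat_lit 150, nat_lit 11]⟩, ⟨p031_k4, nat_lit 0, nat_lit 0, nat_lit 326, nat_lit 0, nat_lit 307468, [nat_lit 6250000000, nat_lit 7968000000, nat_lit 9842000000], [], [nat_lit 40945093281,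 nat_lit 37889780748, nat_lit 28861833729, nat_lit 27713707464, nat_lit 30310377804, nat_lit 27564714283, nat_lit 35511920379, nat_lit 32803319002], nat_lit 1271250, nat_lit 1271250, nat_lit 780000, nat_lit 1100001, nat_lit 0, nat_lit 2090500, [nat_lit 1412500, nat_lit 1271250, nat_lit 1271250], [nat_lit 25, nat_lit 40, nat_lit 20, nat_lit 80, nat_lit 17, nat_lit 401, nat_lit 175, nat_lit 12]⟩,
 zbF0, []⟩
noncomputable def p031_l4 : Lf2 := ⟨nat_lit 0, nat_lit 5, [nat_lit 4, nat_lit 5, nat_lit 5, nat_lit 20], false, nat_lit 80, nat_lit 120, nat_lit 0, nat_lit 304, ⟨nat_lit 430, nat_lit 0, nat_lit 570, nat_lit 5, nat_lit 167, nat_lit 570, nat_lit 51, nat_lit 570, nat_lit 24067, nat_lit 253, nat_lit 104024, nat_lit 294, nat_lit 55358873, nat_lit 0, nat_lit 0, nat_lit 2769895, false, false⟩,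
 nat_lit 10849, nat_lit 4609, nat_lit 0, nat_lit 0, nat_lit 8997, nat_lit 5188, nat_lit 2629, nat_lit 0, nat_lit 0, nat_lit 0, nat_lit 0, nat_lit 0, nat_lit 0, nat_lit 0, nat_lit 0, nat_lit 570000, nat_lit 0, nat_lit 0, [(nat_lit 9, [(nat_lit 6, nat_lit 570)])],
 ⟨p031_k2, nat_lit 0, nat_lit 0, nat_lit 188, nat_lit 0, nat_lit 365690, [nat_lit 2641472001, nat_lit 2265700000, nat_lit 1937958000], [], [nat_lit 12939058126, nat_lit 9453686740, nat_lit 7598963930, nat_lit 10407521716, nat_lit 6853952604, nat_lit 9690016176, nat_lit 7957651832, nat_lit 10600074658], nat_lit 1271250, nat_lit 1271250, nat_lit 780000, nat_lit 1100001, nat_lit 490000, nat_lit 780000, [nat_lit 1100000, nat_lit 1442500, nat_lit 1271250], [nat_lit 9, nat_lit 40, nat_lit 20, nat_lit 80, nat_lit 2, nat_lit 289, nat_lit 75, nat_lit 9]⟩, ⟨p031_k3, nat_lit 0, nat_lit 0, nat_lit 425, nat_lit 0, nat_lit 459268, [nat_lit 2687500000, nat_lit 3426240000,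 nat_lit 4232060000], [], [nat_lit 19137594336, nat_lit 16394501592, nat_lit 13692705328, nat_lit 11678423736, nat_lit 14390451504, nat_lit 11932188261, nat_lit 16698072404, nat_lit 14272894074], nat_lit 1271250, nat_lit 1271250, nat_lit 780000, nat_lit 1100001, nat_lit 0, nat_lit 2147000, [nat_lit 1412500, nat_lit 1271250, nat_lit 1271250], [nat_lit 25, nat_lit 40, nat_lit 20, nat_lit 80, nat_lit 17, nat_lit 428, nat_lit 200, nat_lit 13]⟩,
 ⟨nat_lit 5477, nat_lit 5917, ⟨.ofNat (nat_lit 364271), .ofNat (nat_lit 442804), .ofNat (nat_lit 385610), .ofNat (nat_lit 464143), .ofNat (nat_lit 371489), .ofNat (nat_lit 446423), .ofNat (nat_lit 392847), .ofNat (nat_lit 467780)⟩, ⟨.ofNat (nat_lit 72344), .ofNat (nat_lit 150878), .ofNat (nat_lit 93684), .ofNat (nat_lit 172217), .ofNat (nat_lit 82986), .ofNat (nat_lit 157919), .ofNat (nat_lit 104343), .ofNat (nat_lit 179276)⟩⟩, []⟩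
noncomputable def p031_l5 : Lf2 := ⟨nat_lit 0, nat_lit 5, [nat_lit 4, nat_lit 5, nat_lit 5, nat_lit 20], false, nat_lit 120, nat_lit 160, nat_lit 0, nat_lit 304, ⟨nat_lit 1000, nat_lit 0, nat_lit 0, nat_lit 0, nat_lit 0, nat_lit 0, nat_lit 0, nat_lit 0, nat_lit 0, nat_lit 0, nat_lit 0, nat_lit 0, nat_lit 0, nat_lit 0, nat_lit 0, nat_lit 0, false, false⟩,
 nat_lit 25724, nat_lit 49069, nat_lit 0, nat_lit 0, nat_lit 39596, nat_lit 12302, nat_lit 325, nat_lit 0, nat_lit 0, nat_lit 0, nat_lit 0, nat_lit 0, nat_lit 0, nat_lit 0, nat_lit 0, nat_lit 0, nat_lit 18284679230, nat_lit 0, [],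
 ⟨p031_k0, nat_lit 0, nat_lit 0, nat_lit 169, nat_lit 0, nat_lit 247361, [nat_lit 4688000000, nat_lit 6250000000, nat_lit 9842000000], [], [nat_lit 25191069918, nat_lit 9698477200, nat_lit 3305064480, nat_lit 9292198606, nat_lit 1331862064, nat_lit 6449549222, nat_lit 0, nat_lit 7244764742], nat_lit 1271250, nat_lit 1271250, nat_lit 780000, nat_lit 1100001, nat_lit 780000, nat_lit 1100001, [nat_lit 1100000, nat_lit 1442500, nat_lit 1271250], [nat_lit 11, nat_lit 40, nat_lit 20, nat_lit 80, nat_lit 1, nat_lit 373, nat_lit 150, nat_lit 10]⟩, ⟨p031_k3, nat_lit 0, nat_lit 0, nat_lit 311, nat_lit 0, nat_lit 278490, [nat_lit 6250000000, nat_lit 7968000000, nat_lit 9842000000], [], [nat_lit 44741756804, nat_lit 41489489366, nat_lit 31830610972, nat_lit 28627305494, nat_lit 33363936276, nat_lit 30449368580, nat_lit 38810731013, nat_lit 35935389474], nat_lit 1271250, nat_lit 1271250, nat_lit 780000, nat_lit 1100001, nat_lit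 0, nat_lit 2147000, [nat_lit 1412500, nat_lit 1271250, nat_lit 1271250], [nat_lit 25, nat_lit 40, nat_lit 20, nat_lit 80, nat_lit 17, nat_lit 401, nat_lit 175, nat_lit 12]⟩,
 zbF0, []⟩
noncomputable def p031_l6 : Lf2 := ⟨nat_lit 0, nat_lit 5, [nat_lit 4, nat_lit 5, nat_lit 5, nat_lit 20], false, nat_lit 120, nat_lit 160, nat_lit 0, nat_lit 296, ⟨nat_lit 1000, nat_lit 0, nat_lit 0, nat_lit 0, nat_lit 0, nat_lit 0, nat_lit 0, nat_lit 0, nat_lit 0, nat_lit 0, nat_lit 0, nat_lit 0, nat_lit 0, nat_lit 0, nat_lit 0, nat_lit 0, false, false⟩,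
 nat_lit 22947, nat_lit 14152, nat_lit 0, nat_lit 0, nat_lit 19640, nat_lit 11557, nat_lit 0, nat_lit 0, nat_lit 0, nat_lit 0, nat_lit 0, nat_lit 0, nat_lit 0, nat_lit 0, nat_lit 0, nat_lit 0, nat_lit 0, nat_lit 0, [],
 ⟨p031_k0, nat_lit 0, nat_lit 0, nat_lit 172, nat_lit 0, nat_lit 290141, [nat_lit 4688000000, nat_lit 6250000000, nat_lit 9842000000], [], [nat_lit 18230861920, nat_lit 10854790800, nat_lit 7860284000, nat_lit 10564081400, nat_lit 6860854560, nat_lit 9585075760, nat_lit 6688116800, nat_lit 9186225120], nat_lit 1271250, nat_lit 1271250, nat_lit 780000, nat_lit 1100001, nat_lit 780000, nat_lit 1100001, [nat_lit 1100000, nat_lit 1442500, nat_lit 1271250], [nat_lit 11, nat_lit 40, nat_lit 20, nat_lit 80, nat_lit 1, nat_lit 373, nat_lit 150, nat_lit 10]⟩, ⟨p031_k4, nat_lit 0, nat_lit 0, nat_lit 326, nat_lit 0, nat_lit 307468, [nat_lit 6250000000, nat_lit 7968000000, nat_lit 9842000000], [], [nat_lit 40945093281,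 nat_lit 37889780748, nat_lit 28861833729, nat_lit 27713707464, nat_lit 30310377804, nat_lit 27564714283, nat_lit 35511920379, nat_lit 32803319002], nat_lit 1271250, nat_lit 1271250, nat_lit 780000, nat_lit 1100001, nat_lit 0, nat_lit 2090500, [nat_lit 1412500, nat_lit 1271250, nat_lit 1271250], [nat_lit 25, nat_lit 40, nat_lit 20, nat_lit 80, nat_lit 17, nat_lit 401, nat_lit 175, nat_lit 12]⟩,
 zbF0, []⟩
noncomputable def p031_l7 : Lf2 := ⟨nat_lit 0, nat_lit 5, [nat_lit 4, nat_lit 5, nat_lit 5, nat_lit 20], false, nat_lit 120, nat_lit 160, nat_lit 0, nat_lit 304, ⟨nat_lit 514, nat_lit 0, nat_lit 486, nat_lit 5, nat_lit 167, nat_lit 486, nat_lit 81, nat_lit 486, nat_lit 62017, nat_lit 276, nat_lit 104024, nat_lit 294, nat_lit 53619161, nat_lit 0, nat_lit 0, nat_lit 3233356, false, false⟩,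
 nat_lit 12973, nat_lit 6678, nat_lit 0, nat_lit 0, nat_lit 11438, nat_lit 6204, nat_lit 0, nat_lit 0, nat_lit 0, nat_lit 0, nat_lit 0, nat_lit 0, nat_lit 0, nat_lit 0, nat_lit 0, nat_lit 486000, nat_lit 0, nat_lit 0, [(nat_lit 9, [(nat_lit 6, nat_lit 486)])],
 ⟨p031_k2, nat_lit 0, nat_lit 0, nat_lit 169, nat_lit 0, nat_lit 365690, [nat_lit 2943065600, nat_lit 2852860001, nat_lit 2820848399], [], [nat_lit 13525748566, nat_lit 9416613499, nat_lit 7698161541, nat_lit 9799817399, nat_lit 7085656291, nat_lit 9200612751, nat_lit 7548438835, nat_lit 9715658400], nat_lit 1271250, nat_lit 1271250, nat_lit 780000, nat_lit 1100001, nat_lit 780000, nat_lit 1100001, [nat_lit 1100000, nat_lit 1442500, nat_lit 1271250], [nat_lit 9, nat_lit 40, nat_lit 20, nat_lit 80, nat_lit 2, nat_lit 317, nat_lit 100, nat_lit 10]⟩, ⟨p031_k3, nat_lit 0, nat_lit 0, nat_lit 425, nat_lit 0, nat_lit 459268, [nat_lit 3212500000, nat_lit 4095552000,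 nat_lit 5058788000], [], [nat_lit 22878618976, nat_lit 19598328424, nat_lit 16367421712, nat_lit 13957028616, nat_lit 17200517520, nat_lit 14260836495, nat_lit 19959786490, nat_lit 17059669613], nat_lit 1271250, nat_lit 1271250, nat_lit 780000, nat_lit 1100001, nat_lit 0, nat_lit 2147000, [nat_lit 1412500, nat_lit 1271250, nat_lit 1271250], [nat_lit 25, nat_lit 40, nat_lit 20, nat_lit 80, nat_lit 17, nat_lit 428, nat_lit 200, nat_lit 13]⟩,
 ⟨nat_lit 5477, nat_lit 5917, ⟨.ofNat (nat_lit 364271), .ofNat (nat_lit 442804), .ofNat (nat_lit 385610), .ofNat (nat_lit 464143), .ofNat (nat_lit 371489), .ofNat (nat_lit 446423), .ofNat (nat_lit 392847), .ofNat (nat_lit 467780)⟩, ⟨.ofNat (nat_lit 150878), .ofNat (nat_lit 229411), .ofNat (nat_lit 172217), .ofNat (nat_lit 250751), .ofNat (nat_lit 157919), .ofNat (nat_lit 232852), .ofNat (nat_lit 179276), .ofNat (nat_lit 254209)⟩⟩, []⟩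
noncomputable def p031_l8 : Lf2 := ⟨nat_lit 0, nat_lit 10, [nat_lit 0, nat_lit 5, nat_lit 5, nat_lit 20], false, nat_lit 80, nat_lit 160, nat_lit 0, nat_lit 320, ⟨nat_lit 376, nat_lit 0, nat_lit 624, nat_lit 5, nat_lit 161, nat_lit 624, nat_lit 64, nat_lit 624, nat_lit 38400, nat_lit 263, nat_lit 104024, nat_lit 294, nat_lit 55140060, nat_lit 0, nat_lit 0, nat_lit 2910584, false, false⟩,
 nat_lit 14552, nat_lit 10756, nat_lit 0, nat_lit 0, nat_lit 13398, nat_lit 6236, nat_lit 1643, nat_lit 0, nat_lit 0, nat_lit 93, nat_lit 0, nat_lit 0, nat_lit 0, nat_lit 0, nat_lit 0, nat_lit 624000, nat_lit 0, nat_lit 0, [(nat_lit 6, [(nat_lit 6, nat_lit 624)]), (nat_lit 9, [(nat_lit 6, nat_lit 624)])],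
 ⟨p031_k5, nat_lit 0, nat_lit 0, nat_lit 205, nat_lit 0, nat_lit 209677, [nat_lit 2447590400, nat_lit 2257797761, nat_lit 1366585600], [], [nat_lit 16998977745, nat_lit 8730286565, nat_lit 4654673501, nat_lit 9295952344, nat_lit 3114317205, nat_lit 8099032808, nat_lit 7091756161, nat_lit 8850906400], nat_lit 1271250, nat_lit 1271250, nat_lit 780000, nat_lit 1100001, nat_lit 490000, nat_lit 1100001, [nat_lit 1100000, nat_lit 1442500, nat_lit 1271250], [nat_lit 48, nat_lit 40, nat_lit 20, nat_lit 80, nat_lit 12, nat_lit 373, nat_lit 150, nat_lit 9]⟩, ⟨p031_k6, nat_lit 0, nat_lit 0, nat_lit 384, nat_lit 0, nat_lit 271103, [nat_lit 2350000000, nat_lit 2995968000, nat_lit 4463872000], [], [nat_lit 21722670752, nat_lit 15128250416, nat_lit 15128250416, nat_lit 14265499762, nat_lit 15393572128, nat_lit 10664775337, nat_lit 17980077344, nat_lit 12181819600], nat_lit 1271250, nat_lit 1271250, nat_lit 780000, nat_lit 1100001,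 nat_lit 0, nat_lit 2260000, [nat_lit 1412500, nat_lit 1271250, nat_lit 1271250], [nat_lit 53, nat_lit 40, nat_lit 20, nat_lit 80, nat_lit 14, nat_lit 428, nat_lit 200, nat_lit 11]⟩,
 ⟨nat_lit 5477, nat_lit 6325, ⟨.ofNat (nat_lit 335470), .ofNat (nat_lit 417734), .ofNat (nat_lit 378206), .ofNat (nat_lit 460470), .ofNat (nat_lit 350132), .ofNat (nat_lit 425065), .ofNat (nat_lit 392847), .ofNat (nat_lit 467780)⟩, ⟨.ofNat (nat_lit 60895), .ofNat (nat_lit 225423), .ofNat (nat_lit 82263), .ofNat (nat_lit 246791), .ofNat (nat_lit 82986), .ofNat (nat_lit 232852), .ofNat (nat_lit 104343), .ofNat (nat_lit 254209)⟩⟩, []⟩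
noncomputable def b_VL_600_500_5_20 : St := ⟨true, nat_lit 1, nat_lit 1, nat_lit 1, nat_lit 40, nat_lit 240, nat_lit 280, nat_lit 200, nat_lit 240, nat_lit 120, nat_lit 160, nat_lit 20, nat_lit 40, nat_lit 80, nat_lit 160, nat_lit 0, nat_lit 320, nat_lit 0, nat_lit 40, nat_lit 0, nat_lit 0, nat_lit 0, nat_lit 0⟩
theorem d_VL_600_500_5_20 (h : EB TB.env) : Dead b_VL_600_500_5_20 := chkB_sound0 h (T :=
(.spl (nat_lit 6) (nat_lit 20)
(.spl (nat_lit 1) (nat_lit 220)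
(.spl (nat_lit 0) (nat_lit 260)
(.leaf p031_l0)
(.leaf p031_l1))
(.trX (nat_lit 19) (nat_lit 100) (nat_lit 86) (nat_lit 60) (nat_lit 304) (.spl (nat_lit 4) (nat_lit 120)
(.spl (nat_lit 0) (nat_lit 260)
(.spl (nat_lit 1) (nat_lit 230)
(.leaf p031_l2)
(.trX (nat_lit 19) (nat_lit 100) (nat_lit 89) (nat_lit 61) (nat_lit 296) (.leaf p031_l3)))
(.leaf p031_l4))
(.spl (nat_lit 0) (nat_lit 260)
(.spl (nat_lit 1) (nat_lit 230)
(.leaf p031_l5)
(.trX (nat_lit 19) (nat_lit 100) (nat_lit 89) (nat_lit 61) (nat_lit 296) (.leaf p031_l6)))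
(.leaf p031_l7)))))
(.leaf p031_l8))) (by decide +kernel)
noncomputable def p031_l9 : Lf2 := ⟨nat_lit 0, nat_lit 2, [nat_lit 10, nat_lit 5, nat_lit 5, nat_lit 20], false, nat_lit 0, nat_lit 160, nat_lit 0, nat_lit 160, ⟨nat_lit 1000, nat_lit 0, nat_lit 0, nat_lit 0, nat_lit 0, nat_lit 0, nat_lit 0, nat_lit 0, nat_lit 0, nat_lit 0, nat_lit 0, nat_lit 0, nat_lit 0, nat_lit 0, nat_lit 0, nat_lit 0, false, false⟩,
 nat_lit 15244, nat_lit 0, nat_lit 0, nat_lit 0, nat_lit 4474, nat_lit 6533, nat_lit 1721, nat_lit 0, nat_lit 0, nat_lit 1053, nat_lit 0, nat_lit 0, nat_lit 0, nat_lit 0, nat_lit 0, nat_lit 0, nat_lit 0, nat_lit 0, [],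
 ⟨p031_k7, nat_lit 0, nat_lit 0, nat_lit 214, nat_lit 0, nat_lit 276953, [nat_lit 4688000000, nat_lit 6250000000, nat_lit 7968000000], [], [nat_lit 36193672160, nat_lit 33828098348, nat_lit 31704803837, nat_lit 32471903481, nat_lit 28752088821, nat_lit 29507006881, nat_lit 32747592264, nat_lit 31326604280], nat_lit 1271250, nat_lit 1271250, nat_lit 1100001, nat_lit 1785000, nat_lit 0, nat_lit 1100001, [nat_lit 1100000, nat_lit 1442500, nat_lit 1271250], [nat_lit 9, nat_lit 40, nat_lit 20, nat_lit 80, nat_lit 2, nat_lit 317, nat_lit 100, nat_lit 10]⟩, ⟨p031_k8, nat_lit 0, nat_lit 0, nat_lit 335, nat_lit 0, nat_lit 352917, [nat_lit 6250000000, nat_lit 7968000000, nat_lit 9842000000], [], [nat_lit 35546768012, nat_lit 35134457375, nat_lit 35769965855, nat_lit 36765405347, nat_lit 33517668000, nat_lit 32039400823, nat_lit 41411129588, nat_lit 35169658180], nat_lit 1271250, nat_lit 1271250, nat_lit 1100001, nat_lit 1785000,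 nat_lit 0, nat_lit 1100001, [nat_lit 1412500, nat_lit 1271250, nat_lit 1271250], [nat_lit 25, nat_lit 40, nat_lit 20, nat_lit 80, nat_lit 17, nat_lit 401, nat_lit 175, nat_lit 12]⟩,
 zbF0, []⟩
noncomputable def p031_l10 : Lf2 := ⟨nat_lit 0, nat_lit 2, [nat_lit 10, nat_lit 5, nat_lit 5, nat_lit 20], false, nat_lit 0, nat_lit 160, nat_lit 0, nat_lit 160, ⟨nat_lit 1000, nat_lit 0, nat_lit 0, nat_lit 0, nat_lit 0, nat_lit 0, nat_lit 0, nat_lit 0, nat_lit 0, nat_lit 0, nat_lit 0, nat_lit 0, nat_lit 0, nat_lit 0, nat_lit 0, nat_lit 0, false, false⟩,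
 nat_lit 12963, nat_lit 0, nat_lit 0, nat_lit 0, nat_lit 4364, nat_lit 5555, nat_lit 1066, nat_lit 0, nat_lit 0, nat_lit 1951, nat_lit 0, nat_lit 0, nat_lit 0, nat_lit 0, nat_lit 0, nat_lit 0, nat_lit 0, nat_lit 0, [],
 ⟨p031_k9, nat_lit 0, nat_lit 0, nat_lit 220, nat_lit 0, nat_lit 349891, [nat_lit 4688000000, nat_lit 6250000000], [], [nat_lit 33718637128, nat_lit 31411224496, nat_lit 29129459590, nat_lit 30019049150, nat_lit 26242175158, nat_lit 27115588670, nat_lit 29855548622, nat_lit 29171031326], nat_lit 1271250, nat_lit 1271250, nat_lit 1100001, nat_lit 1785000, nat_lit 0, nat_lit 1100001, [nat_lit 1100000, nat_lit 1442500], [nat_lit 31, nat_lit 40, nat_lit 20, nat_lit 80, nat_lit 3, nat_lit 317, nat_lit 100, nat_lit 12]⟩, ⟨p031_k8, nat_lit 0, nat_lit 0, nat_lit 429, nat_lit 0, nat_lit 496193, [nat_lit 6250000000, nat_lit 7968000000, nat_lit 9842000000], [], [nat_lit 35090664020, nat_lit 35658785125, nat_lit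 36330909925, nat_lit 37314687745, nat_lit 33854100000, nat_lit 33432920205, nat_lit 40976079980, nat_lit 35668966300], nat_lit 1271250, nat_lit 1271250, nat_lit 1100001, nat_lit 1785000, nat_lit 0, nat_lit 1100001, [nat_lit 1412500, nat_lit 1271250, nat_lit 1271250], [nat_lit 25, nat_lit 40, nat_lit 20, nat_lit 80, nat_lit 17, nat_lit 401, nat_lit 175, nat_lit 12]⟩,
 zbF0, []⟩
noncomputable def p031_l11 : Lf2 := ⟨nat_lit 0, nat_lit 5, [nat_lit 4, nat_lit 5, nat_lit 5, nat_lit 20], false, nat_lit 0, nat_lit 160, nat_lit 0, nat_lit 160, ⟨nat_lit 1000, nat_lit 0, nat_lit 0, nat_lit 0, nat_lit 0, nat_lit 0, nat_lit 0, nat_lit 0, nat_lit 0, nat_lit 0, nat_lit 0, nat_lit 0, nat_lit 0, nat_lit 0, nat_lit 0, nat_lit 0, false, false⟩,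
 nat_lit 22136, nat_lit 0, nat_lit 0, nat_lit 0, nat_lit 5389, nat_lit 9486, nat_lit 1553, nat_lit 0, nat_lit 0, nat_lit 527, nat_lit 0, nat_lit 0, nat_lit 0, nat_lit 0, nat_lit 0, nat_lit 0, nat_lit 0, nat_lit 0, [],
 ⟨p031_k0, nat_lit 0, nat_lit 0, nat_lit 217, nat_lit 0, nat_lit 195193, [nat_lit 4688000000, nat_lit 6250000000, nat_lit 9842000000], [], [nat_lit 37587985760, nat_lit 34738616678, nat_lit 31011398750, nat_lit 31746980564, nat_lit 27231942426, nat_lit 27958703958, nat_lit 32120667204, nat_lit 29547697110], nat_lit 1271250, nat_lit 1271250, nat_lit 1100001, nat_lit 1785000, nat_lit 0, nat_lit 1100001, [nat_lit 1100000, nat_lit 1442500, nat_lit 1271250], [nat_lit 11, nat_lit 40, nat_lit 20, nat_lit 80, nat_lit 1, nat_lit 401, nat_lit 175, nat_lit 12]⟩, ⟨p031_k1, nat_lit 0, nat_lit 0, nat_lit 361, nat_lit 0, nat_lit 250202, [nat_lit 6250000000, nat_lit 7968000000, nat_lit 11872000000], [], [nat_lit 36923940904,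 nat_lit 33558629043, nat_lit 34143489547, nat_lit 35330983643, nat_lit 32501836000, nat_lit 27373727571, nat_lit 42724730296, nat_lit 33662033560], nat_lit 1271250, nat_lit 1271250, nat_lit 1100001, nat_lit 1785000, nat_lit 0, nat_lit 1100001, [nat_lit 1412500, nat_lit 1271250, nat_lit 1271250], [nat_lit 53, nat_lit 40, nat_lit 20, nat_lit 80, nat_lit 14, nat_lit 401, nat_lit 175, nat_lit 10]⟩,
 zbF0, []⟩
noncomputable def p031_l12 : Lf2 := ⟨nat_lit 0, nat_lit 5, [nat_lit 4, nat_lit 5, nat_lit 5, nat_lit 20], false, nat_lit 0, nat_lit 160, nat_lit 0, nat_lit 160, ⟨nat_lit 1000, nat_lit 0, nat_lit 0, nat_lit 0, nat_lit 0, nat_lit 0, nat_lit 0, nat_lit 0, nat_lit 0, nat_lit 0, nat_lit 0, nat_lit 0, nat_lit 0, nat_lit 0, nat_lit 0, nat_lit 0, false, false⟩,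
 nat_lit 17552, nat_lit 0, nat_lit 0, nat_lit 0, nat_lit 6578, nat_lit 7522, nat_lit 0, nat_lit 0, nat_lit 0, nat_lit 1106, nat_lit 0, nat_lit 0, nat_lit 0, nat_lit 0, nat_lit 0, nat_lit 0, nat_lit 0, nat_lit 0, [],
 ⟨p031_k2, nat_lit 0, nat_lit 0, nat_lit 247, nat_lit 0, nat_lit 280756, [nat_lit 4688000000, nat_lit 6250000000, nat_lit 7968000000], [], [nat_lit 35921792956, nat_lit 32443754392, nat_lit 30758159932, nat_lit 31641413000, nat_lit 25948265732, nat_lit 26819303552, nat_lit 28163775544, nat_lit 28506362968], nat_lit 1271250, nat_lit 1271250, nat_lit 1100001, nat_lit 1785000, nat_lit 0, nat_lit 1100001, [nat_lit 1100000, nat_lit 1442500, nat_lit 1271250], [nat_lit 9, nat_lit 40, nat_lit 20, nat_lit 80, nat_lit 2, nat_lit 317, nat_lit 100, nat_lit 10]⟩, ⟨p031_k1, nat_lit 0, nat_lit 0, nat_lit 425, nat_lit 0, nat_lit 401449, [nat_lit 6250000000, nat_lit 7968000000, nat_lit 11872000000], [], [nat_lit 36008002008,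 nat_lit 35397328986, nat_lit 35826667450, nat_lit 36653173210, nat_lit 33177452000, nat_lit 31036496442, nat_lit 41851072392, nat_lit 34664734120], nat_lit 1271250, nat_lit 1271250, nat_lit 1100001, nat_lit 1785000, nat_lit 0, nat_lit 1100001, [nat_lit 1412500, nat_lit 1271250, nat_lit 1271250], [nat_lit 53, nat_lit 40, nat_lit 20, nat_lit 80, nat_lit 14, nat_lit 401, nat_lit 175, nat_lit 10]⟩,
 zbF0, []⟩
noncomputable def p031_l13 : Lf2 := ⟨nat_lit 0, nat_lit 10, [nat_lit 0, nat_lit 5, nat_lit 5, nat_lit 20], false, nat_lit 0, nat_lit 160, nat_lit 0, nat_lit 160, ⟨nat_lit 1000, nat_lit 0, nat_lit 0, nat_lit 0, nat_lit 0, nat_lit 0, nat_lit 0, nat_lit 0, nat_lit 0, nat_lit 0, nat_lit 0, nat_lit 0, nat_lit 0, nat_lit 0, nat_lit 0, nat_lit 0, false, false⟩,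
 nat_lit 21860, nat_lit 0, nat_lit 0, nat_lit 10133, nat_lit 7460, nat_lit 9368, nat_lit 104, nat_lit 0, nat_lit 0, nat_lit 0, nat_lit 0, nat_lit 0, nat_lit 0, nat_lit 0, nat_lit 0, nat_lit 0, nat_lit 0, nat_lit 0, [],
 ⟨p031_k5, nat_lit 0, nat_lit 0, nat_lit 216, nat_lit 0, nat_lit 83073, [nat_lit 4688000000, nat_lit 6250000000, nat_lit 11872000000], [], [nat_lit 40743858400, nat_lit 36799472920, nat_lit 35514558920, nat_lit 36378767400, nat_lit 29767521480, nat_lit 30479570560, nat_lit 31108609560, nat_lit 31691111760], nat_lit 1271250, nat_lit 1271250, nat_lit 1100001, nat_lit 1785000, nat_lit 0, nat_lit 1100001, [nat_lit 1100000, nat_lit 1442500, nat_lit 1271250], [nat_lit 48, nat_lit 40, nat_lit 20, nat_lit 80, nat_lit 12, nat_lit 401, nat_lit 175, nat_lit 10]⟩, ⟨p031_k6, nat_lit 0, nat_lit 0, nat_lit 233, nat_lit 0, nat_lit 107410, [nat_lit 6250000000, nat_lit 7968000000, nat_lit 11872000000], [], [nat_lit 36868909952,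 nat_lit 32138090208, nat_lit 34139598656, nat_lit 35076902048, nat_lit 32542428000, nat_lit 25881804800, nat_lit 42672239648, nat_lit 33722277280], nat_lit 1271250, nat_lit 1271250, nat_lit 1100001, nat_lit 1785000, nat_lit 0, nat_lit 1100001, [nat_lit 1412500, nat_lit 1271250, nat_lit 1271250], [nat_lit 53, nat_lit 40, nat_lit 20, nat_lit 80, nat_lit 14, nat_lit 401, nat_lit 175, nat_lit 10]⟩,
 zbF0, []⟩
noncomputable def p031_l14 : Lf2 := ⟨nat_lit 0, nat_lit 10, [nat_lit 0, nat_lit 5, nat_lit 5, nat_lit 20], false, nat_lit 0, nat_lit 160, nat_lit 0, nat_lit 160, ⟨nat_lit 1000, nat_lit 0, nat_lit 0, nat_lit 0, nat_lit 0, nat_lit 0, nat_lit 0, nat_lit 0, nat_lit 0, nat_lit 0, nat_lit 0, nat_lit 0, nat_lit 0, nat_lit 0, nat_lit 0, nat_lit 0, false, false⟩,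
 nat_lit 20010, nat_lit 0, nat_lit 0, nat_lit 0, nat_lit 7545, nat_lit 8575, nat_lit 0, nat_lit 0, nat_lit 0, nat_lit 1359, nat_lit 0, nat_lit 0, nat_lit 0, nat_lit 0, nat_lit 0, nat_lit 0, nat_lit 0, nat_lit 0, [],
 ⟨p031_k10, nat_lit 0, nat_lit 0, nat_lit 220, nat_lit 0, nat_lit 187309, [nat_lit 4688000000, nat_lit 6250000000, nat_lit 9842000000], [], [nat_lit 36884056590, nat_lit 32894728380, nat_lit 32347067170, nat_lit 33263861120, nat_lit 26669155740, nat_lit 27490324200, nat_lit 28198574300, nat_lit 28873539580], nat_lit 1271250, nat_lit 1271250, nat_lit 1100001, nat_lit 1785000, nat_lit 0, nat_lit 1100001, [nat_lit 1100000, nat_lit 1442500, nat_lit 1271250], [nat_lit 11, nat_lit 40, nat_lit 20, nat_lit 80, nat_lit 1, nat_lit 401, nat_lit 175, nat_lit 11]⟩, ⟨p031_k6, nat_lit 0, nat_lit 0, nat_lit 370, nat_lit 0, nat_lit 271103, [nat_lit 6250000000, nat_lit 7968000000, nat_lit 11872000000], [], [nat_lit 36499083300,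 nat_lit 35417602350, nat_lit 35661039350, nat_lit 36416808150, nat_lit 32815220000, nat_lit 29309400250, nat_lit 42319484700, nat_lit 34127135500], nat_lit 1271250, nat_lit 1271250, nat_lit 1100001, nat_lit 1785000, nat_lit 0, nat_lit 1100001, [nat_lit 1412500, nat_lit 1271250, nat_lit 1271250], [nat_lit 53, nat_lit 40, nat_lit 20, nat_lit 80, nat_lit 14, nat_lit 401, nat_lit 175, nat_lit 10]⟩,
 zbF0, []⟩
noncomputable def p031_l15 : Lf2 := ⟨nat_lit 0, nat_lit 10, [nat_lit 0, nat_lit 5, nat_lit 5, nat_lit 20], false, nat_lit 0, nat_lit 80, nat_lit 160, nat_lit 240, ⟨nat_lit 1000, nat_lit 0, nat_lit 0, nat_lit 0, nat_lit 0, nat_lit 0, nat_lit 0, nat_lit 0, nat_lit 0, nat_lit 0, nat_lit 0, nat_lit 0, nat_lit 0, nat_lit 0, nat_lit 0, nat_lit 0, false, false⟩,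
 nat_lit 12395, nat_lit 1909, nat_lit 0, nat_lit 7054, nat_lit 7572, nat_lit 5312, nat_lit 718, nat_lit 0, nat_lit 0, nat_lit 2226, nat_lit 0, nat_lit 0, nat_lit 0, nat_lit 0, nat_lit 0, nat_lit 0, nat_lit 0, nat_lit 0, [],
 ⟨p031_k5, nat_lit 0, nat_lit 0, nat_lit 378, nat_lit 0, nat_lit 312122, [nat_lit 4688000000, nat_lit 6250000000, nat_lit 11872000000], [], [nat_lit 34469320208, nat_lit 31418011546, nat_lit 31184792722, nat_lit 32129313266, nat_lit 28626794192, nat_lit 27753933234, nat_lit 33136292832, nat_lit 29568321000], nat_lit 1271250, nat_lit 1271250, nat_lit 1100001, nat_lit 1442500, nat_lit 0, nat_lit 490000, [nat_lit 1100000, nat_lit 1442500, nat_lit 1271250], [nat_lit 48, nat_lit 40, nat_lit 20, nat_lit 80, nat_lit 12, nat_lit 373, nat_lit 150, nat_lit 10]⟩, ⟨p031_k6, nat_lit 0, nat_lit 0, nat_lit 248, nat_lit 0, nat_lit 403560, [nat_lit 6250000000, nat_lit 7968000000, nat_lit 11872000000], [], [nat_lit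 34344650080, nat_lit 28727337568, nat_lit 28727337568, nat_lit 26911505962, nat_lit 26911505962, nat_lit 27942110506, nat_lit 28632063904, nat_lit 28744089792], nat_lit 1271250, nat_lit 1271250, nat_lit 1100001, nat_lit 1442500, nat_lit 1100001, nat_lit 1785000, [nat_lit 1412500, nat_lit 1271250, nat_lit 1271250], [nat_lit 53, nat_lit 40, nat_lit 20, nat_lit 80, nat_lit 14, nat_lit 401, nat_lit 175, nat_lit 10]⟩,
 zbF0, []⟩
noncomputable def p031_l16 : Lf2 := ⟨nat_lit 0, nat_lit 10, [nat_lit 0, nat_lit 5, nat_lit 5, nat_lit 20], false, nat_lit 0, nat_lit 80, nat_lit 160, nat_lit 240, ⟨nat_lit 717, nat_lit 0, nat_lit 283, nat_lit 5, nat_lit 193, nat_lit 0, nat_lit 18, nat_lit 0, nat_lit 150, nat_lit 218, nat_lit 9515, nat_lit 236, nat_lit 54327288, nat_lit 0, nat_lit 0, nat_lit 2424902, false, false⟩,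
 nat_lit 11733, nat_lit 0, nat_lit 0, nat_lit 0, nat_lit 6829, nat_lit 5028, nat_lit 17, nat_lit 0, nat_lit 0, nat_lit 1399, nat_lit 0, nat_lit 0, nat_lit 0, nat_lit 0, nat_lit 0, nat_lit 283000, nat_lit 0, nat_lit 0, [(nat_lit 9, [(nat_lit 6, nat_lit 283)])],
 ⟨p031_k10, nat_lit 0, nat_lit 0, nat_lit 348, nat_lit 0, nat_lit 392023, [nat_lit 3671916800, nat_lit 4359937334, nat_lit 5540626400], [], [nat_lit 27646194803, nat_lit 25524244744, nat_lit 25336457254, nat_lit 26378042616, nat_lit 22516972501, nat_lit 22429253232, nat_lit 26762674059, nat_lit 23544808285], nat_lit 1271250, nat_lit 1271250, nat_lit 1100001, nat_lit 1442500, nat_lit 0, nat_lit 490000, [nat_lit 1100000, nat_lit 1442500, nat_lit 1271250], [nat_lit 11, nat_lit 40, nat_lit 20, nat_lit 80, nat_lit 1, nat_lit 373, nat_lit 150, nat_lit 11]⟩, ⟨p031_k6, nat_lit 0, nat_lit 0, nat_lit 388, nat_lit 0, nat_lit 567396, [nat_lit 4481250000, nat_lit 5713056000,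 nat_lit 8512224000], [], [nat_lit 26483126124, nat_lit 21279054031, nat_lit 21166136796, nat_lit 21519944215, nat_lit 21519944215, nat_lit 21991663027, nat_lit 21711008287, nat_lit 22191848040], nat_lit 1271250, nat_lit 1271250, nat_lit 1100001, nat_lit 1442500, nat_lit 1100001, nat_lit 1785000, [nat_lit 1412500, nat_lit 1271250, nat_lit 1271250], [nat_lit 53, nat_lit 40, nat_lit 20, nat_lit 80, nat_lit 14, nat_lit 401, nat_lit 175, nat_lit 10]⟩,
 ⟨nat_lit 5477, nat_lit 5917, ⟨.ofNat (nat_lit 421465), .ofNat (nat_lit 499999), .ofNat (nat_lit 464143), .ofNat (nat_lit 542662), .ofNat (nat_lit 425065), .ofNat (nat_lit 499999), .ofNat (nat_lit 467780), .ofNat (nat_lit 542697)⟩, ⟨.negSucc (nat_lit 84722), .ofNat (nat_lit 72344), .negSucc (nat_lit 63383), .ofNat (nat_lit 93684), .negSucc (nat_lit 66879), .ofNat (nat_lit 82986), .negSucc (nat_lit 45522), .ofNat (nat_lit 104343)⟩⟩, []⟩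
noncomputable def p031_l17 : Lf2 := ⟨nat_lit 0, nat_lit 10, [nat_lit 0, nat_lit 5, nat_lit 5, nat_lit 20], false, nat_lit 0, nat_lit 80, nat_lit 240, nat_lit 320, ⟨nat_lit 1000, nat_lit 0, nat_lit 0, nat_lit 0, nat_lit 0, nat_lit 0, nat_lit 0, nat_lit 0, nat_lit 0, nat_lit 0, nat_lit 0, nat_lit 0, nat_lit 0, nat_lit 0, nat_lit 0, nat_lit 0, false, false⟩,
 nat_lit 26336, nat_lit 0, nat_lit 0, nat_lit 0, nat_lit 8730, nat_lit 11286, nat_lit 1895, nat_lit 0, nat_lit 0, nat_lit 2485, nat_lit 0, nat_lit 0, nat_lit 0, nat_lit 0, nat_lit 0, nat_lit 0, nat_lit 0, nat_lit 0, [],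
 ⟨p031_k5, nat_lit 0, nat_lit 0, nat_lit 483, nat_lit 0, nat_lit 438836, [nat_lit 4688000000, nat_lit 6250000000, nat_lit 11872000000], [], [nat_lit 35009369720, nat_lit 25917666065, nat_lit 29646286040, nat_lit 26734849065, nat_lit 26930134280, nat_lit 20811755225, nat_lit 31919762880, nat_lit 23692506120], nat_lit 1271250, nat_lit 1271250, nat_lit 1100001, nat_lit 1442500, nat_lit 0, nat_lit 490000, [nat_lit 1100000, nat_lit 1442500, nat_lit 1271250], [nat_lit 48, nat_lit 40, nat_lit 20, nat_lit 80, nat_lit 12, nat_lit 373, nat_lit 150, nat_lit 10]⟩, ⟨p031_k6, nat_lit 0, nat_lit 0, nat_lit 380, nat_lit 0, nat_lit 567396, [nat_lit 6250000000, nat_lit 7968000000, nat_lit 11872000000], [], [nat_lit 19758395088, nat_lit 18299933073, nat_lit 17575452225, nat_lit 18638145336, nat_lit 21707335568, nat_lit 22673718593, nat_lit 21926311600, nat_lit 22723006480], nat_lit 1271250, nat_lit 1271250, nat_lit 1100001, nat_lit 1442500,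 nat_lit 1271250, nat_lit 1271250, [nat_lit 1412500, nat_lit 1271250, nat_lit 1271250], [nat_lit 53, nat_lit 40, nat_lit 20, nat_lit 80, nat_lit 14, nat_lit 428, nat_lit 200, nat_lit 10]⟩,
 zbF0, [⟨nat_lit 7, nat_lit 90, nat_lit 100, nat_lit 53, nat_lit 854135923⟩, ⟨nat_lit 22, nat_lit 100, nat_lit 92, nat_lit 31, nat_lit 208871460⟩]⟩
noncomputable def p031_l18 : Lf2 := ⟨nat_lit 0, nat_lit 10, [nat_lit 0, nat_lit 5, nat_lit 5, nat_lit 20], false, nat_lit 0, nat_lit 80, nat_lit 160, nat_lit 320, ⟨nat_lit 1000, nat_lit 0, nat_lit 0, nat_lit 0, nat_lit 0, nat_lit 0, nat_lit 0, nat_lit 0, nat_lit 0, nat_lit 0, nat_lit 0, nat_lit 0, nat_lit 0, nat_lit 0, nat_lit 0, nat_lit 0, false, false⟩,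
 nat_lit 24309, nat_lit 0, nat_lit 0, nat_lit 0, nat_lit 10155, nat_lit 10418, nat_lit 3192, nat_lit 0, nat_lit 0, nat_lit 1720, nat_lit 0, nat_lit 0, nat_lit 0, nat_lit 0, nat_lit 0, nat_lit 0, nat_lit 0, nat_lit 0, [],
 ⟨p031_k5, nat_lit 0, nat_lit 0, nat_lit 415, nat_lit 0, nat_lit 438836, [nat_lit 4688000000, nat_lit 6250000000, nat_lit 11872000000], [], [nat_lit 25096937240, nat_lit 21014355840, nat_lit 20037536380, nat_lit 24516773020, nat_lit 22781562680, nat_lit 15354875620, nat_lit 14457344320, nat_lit 17255748040], nat_lit 1271250, nat_lit 1271250, nat_lit 1271250, nat_lit 1271250, nat_lit 0, nat_lit 490000, [nat_lit 1100000, nat_lit 1442500, nat_lit 1271250], [nat_lit 48, nat_lit 40, nat_lit 20, nat_lit 80, nat_lit 12, nat_lit 373, nat_lit 150, nat_lit 9]⟩, ⟨p031_k6, nat_lit 0, nat_lit 0, nat_lit 379, nat_lit 0, nat_lit 567396, [nat_lit 6250000000, nat_lit 7968000000, nat_lit 11872000000], [], [nat_lit 31108592152,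 nat_lit 23398803168, nat_lit 23398803168, nat_lit 23934479312, nat_lit 25733111352, nat_lit 25850824184, nat_lit 25850824184, nat_lit 26573094616], nat_lit 1271250, nat_lit 1271250, nat_lit 1271250, nat_lit 1271250, nat_lit 1271250, nat_lit 1271250, [nat_lit 1412500, nat_lit 1271250, nat_lit 1271250], [nat_lit 53, nat_lit 40, nat_lit 20, nat_lit 80, nat_lit 14, nat_lit 428, nat_lit 200, nat_lit 10]⟩,
 zbF0, [⟨nat_lit 19, nat_lit 100, nat_lit 90, nat_lit 53, nat_lit 141653578⟩, ⟨nat_lit 22, nat_lit 100, nat_lit 98, nat_lit 30, nat_lit 143389081⟩]⟩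
noncomputable def p031_l19 : Lf2 := ⟨nat_lit 0, nat_lit 10, [nat_lit 0, nat_lit 5, nat_lit 5, nat_lit 20], false, nat_lit 80, nat_lit 160, nat_lit 160, nat_lit 320, ⟨nat_lit 1000, nat_lit 0, nat_lit 0, nat_lit 0, nat_lit 0, nat_lit 0, nat_lit 0, nat_lit 0, nat_lit 0, nat_lit 0, nat_lit 0, nat_lit 0, nat_lit 0, nat_lit 0, nat_lit 0, nat_lit 0, false, false⟩,
 nat_lit 21387, nat_lit 7937, nat_lit 0, nat_lit 0, nat_lit 15524, nat_lit 9165, nat_lit 3164, nat_lit 0, nat_lit 0, nat_lit 1866, nat_lit 0, nat_lit 0, nat_lit 0, nat_lit 0, nat_lit 0, nat_lit 0, nat_lit 0, nat_lit 0, [],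
 ⟨p031_k5, nat_lit 0, nat_lit 0, nat_lit 362, nat_lit 0, nat_lit 438836, [nat_lit 4688000000, nat_lit 6250000000, nat_lit 11872000000], [], [nat_lit 20446731392, nat_lit 10569463492, nat_lit 15147711808, nat_lit 16203402576, nat_lit 10190644000, nat_lit 7912915200, nat_lit 25176530064, nat_lit 14369084464], nat_lit 1271250, nat_lit 1271250, nat_lit 1100001, nat_lit 1785000, nat_lit 490000, nat_lit 1100001, [nat_lit 1100000, nat_lit 1442500, nat_lit 1271250], [nat_lit 48, nat_lit 40, nat_lit 20, nat_lit 80, nat_lit 12, nat_lit 401, nat_lit 175, nat_lit 10]⟩, ⟨p031_k6, nat_lit 0, nat_lit 0, nat_lit 388, nat_lit 0, nat_lit 567396, [nat_lit 6250000000, nat_lit 7968000000, nat_lit 11872000000], [], [nat_lit 40216005600, nat_lit 30524238060, nat_lit 31549977320, nat_lit 25199863860, nat_lit 27216777420, nat_lit 27494482610, nat_lit 27422773290, nat_lit 27785436990], nat_lit 1271250, nat_lit 1271250, nat_lit 1100001, nat_lit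 1785000, nat_lit 1271250, nat_lit 1271250, [nat_lit 1412500, nat_lit 1271250, nat_lit 1271250], [nat_lit 53, nat_lit 40, nat_lit 20, nat_lit 80, nat_lit 14, nat_lit 428, nat_lit 200, nat_lit 11]⟩,
 zbF0, []⟩
noncomputable def b_VL_600_500_5_21 : St := ⟨true, nat_lit 1, nat_lit 1, nat_lit 1, nat_lit 40, nat_lit 240, nat_lit 280, nat_lit 200, nat_lit 240, nat_lit 160, nat_lit 240, nat_lit 20, nat_lit 40, nat_lit 0, nat_lit 160, nat_lit 0, nat_lit 320, nat_lit 0, nat_lit 40, nat_lit 0, nat_lit 0, nat_lit 0, nat_lit 0⟩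
theorem d_VL_600_500_5_21 (h : EB TB.env) : Dead b_VL_600_500_5_21 := chkB_sound0 h (T :=
(.spl (nat_lit 5) (nat_lit 160)
(.spl (nat_lit 6) (nat_lit 20)
(.spl (nat_lit 6) (nat_lit 8)
(.spl (nat_lit 0) (nat_lit 260)
(.leaf p031_l9)
(.leaf p031_l10))
(.spl (nat_lit 0) (nat_lit 260)
(.leaf p031_l11)
(.leaf p031_l12)))
(.spl (nat_lit 0) (nat_lit 260)
(.leaf p031_l13)
(.leaf p031_l14)))
(.spl (nat_lit 4) (nat_lit 80)
(.spl (nat_lit 2) (nat_lit 200)
(.spl (nat_lit 5) (nat_lit 240)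
(.spl (nat_lit 0) (nat_lit 260)
(.leaf p031_l15)
(.leaf p031_l16))
(.leaf p031_l17))
(.leaf p031_l18))
(.leaf p031_l19)))) (by decide +kernel)
noncomputable def p031_l20 : Lf2 := ⟨nat_lit 0, nat_lit 2, [nat_lit 10, nat_lit 5, nat_lit 5, nat_lit 20], true, nat_lit 160, nat_lit 200, nat_lit 0, nat_lit 320, ⟨nat_lit 0, nat_lit 0, nat_lit 1000, nat_lit 5, nat_lit 76, nat_lit 1000, nat_lit 111, nat_lit 1000, nat_lit 114817, nat_lit 298, nat_lit 54150, nat_lit 272, nat_lit 58917550, nat_lit 0, nat_lit 0, nat_lit 2359631, false, false⟩,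
 nat_lit 0, nat_lit 8315, nat_lit 0, nat_lit 0, nat_lit 4401, nat_lit 0, nat_lit 262, nat_lit 0, nat_lit 0, nat_lit 0, nat_lit 0, nat_lit 0, nat_lit 0, nat_lit 0, nat_lit 80, nat_lit 1000000, nat_lit 0, nat_lit 0, [(nat_lit 6, [(nat_lit 6, nat_lit 1000)])],
 ⟨p031_k7, nat_lit 0, nat_lit 0, nat_lit 198, nat_lit 0, nat_lit 143024, [nat_lit 2257066667, nat_lit 1408000000, nat_lit 211200000], [], [nat_lit 11517834476, nat_lit 12116387466, nat_lit 12090438763, nat_lit 10977945181, nat_lit 13468166516, nat_lit 13693566132, nat_lit 15071843309, nat_lit 13975129513], nat_lit 1271250, nat_lit 1271250, nat_lit 21650, nat_lit 490000, nat_lit 1100001, nat_lit 1442500, [nat_lit 1100000, nat_lit 1442500, nat_lit 1271250], [nat_lit 9, nat_lit 40, nat_lit 20, nat_lit 80, nat_lit 2, nat_lit 289, nat_lit 75, nat_lit 9]⟩, C1.Rw.none,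
 ⟨nat_lit 6123, nat_lit 6325, ⟨.ofNat (nat_lit 96904), .ofNat (nat_lit 253206), .ofNat (nat_lit 118272), .ofNat (nat_lit 274574), .ofNat (nat_lit 106133), .ofNat (nat_lit 258856), .ofNat (nat_lit 127481), .ofNat (nat_lit 280205)⟩, ⟨.ofNat (nat_lit 225423), .ofNat (nat_lit 307688), .ofNat (nat_lit 246791), .ofNat (nat_lit 329055), .ofNat (nat_lit 227485), .ofNat (nat_lit 307865), .ofNat (nat_lit 248833), .ofNat (nat_lit 329214)⟩⟩, [⟨nat_lit 0, nat_lit 100, nat_lit 97, nat_lit 35, nat_lit 7246090⟩]⟩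
noncomputable def p031_l21 : Lf2 := ⟨nat_lit 0, nat_lit 2, [nat_lit 10, nat_lit 5, nat_lit 5, nat_lit 20], true, nat_lit 160, nat_lit 200, nat_lit 0, nat_lit 320, ⟨nat_lit 0, nat_lit 0, nat_lit 1000, nat_lit 5, nat_lit 79, nat_lit 1000, nat_lit 112, nat_lit 1000, nat_lit 117600, nat_lit 299, nat_lit 58017, nat_lit 274, nat_lit 58688865, nat_lit 0, nat_lit 0, nat_lit 2413212, false, false⟩,
 nat_lit 0, nat_lit 7534, nat_lit 0, nat_lit 0, nat_lit 4185, nat_lit 0, nat_lit 765, nat_lit 0, nat_lit 0, nat_lit 0, nat_lit 0, nat_lit 0, nat_lit 0, nat_lit 0, nat_lit 80, nat_lit 1000000, nat_lit 0, nat_lit 0, [(nat_lit 6, [(nat_lit 6, nat_lit 1000)])],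
 ⟨p031_k11, nat_lit 0, nat_lit 0, nat_lit 197, nat_lit 0, nat_lit 188296, [nat_lit 2257066667, nat_lit 1408000000, nat_lit 211200000], [], [nat_lit 12143435872, nat_lit 12780187965, nat_lit 11128745257, nat_lit 11586946694, nat_lit 13811593513, nat_lit 14417823617, nat_lit 14046067585, nat_lit 13151572559], nat_lit 1271250, nat_lit 1271250, nat_lit 21650, nat_lit 490000, nat_lit 1100001, nat_lit 1442500, [nat_lit 1100000, nat_lit 1442500, nat_lit 1271250], [nat_lit 9, nat_lit 40, nat_lit 20, nat_lit 80, nat_lit 2, nat_lit 289, nat_lit 75, nat_lit 9]⟩, C1.Rw.none,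
 ⟨nat_lit 5916, nat_lit 6124, ⟨.ofNat (nat_lit 106133), .ofNat (nat_lit 258856), .ofNat (nat_lit 127481), .ofNat (nat_lit 280205), .ofNat (nat_lit 115184), .ofNat (nat_lit 264398), .ofNat (nat_lit 136523), .ofNat (nat_lit 285737)⟩, ⟨.ofNat (nat_lit 227485), .ofNat (nat_lit 307865), .ofNat (nat_lit 248833), .ofNat (nat_lit 329214), .ofNat (nat_lit 229411), .ofNat (nat_lit 307945), .ofNat (nat_lit 250751), .ofNat (nat_lit 329284)⟩⟩, [⟨nat_lit 0, nat_lit 100, nat_lit 96, nat_lit 40, nat_lit 116948916⟩]⟩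
noncomputable def p031_l22 : Lf2 := ⟨nat_lit 0, nat_lit 2, [nat_lit 10, nat_lit 5, nat_lit 5, nat_lit 20], false, nat_lit 160, nat_lit 200, nat_lit 0, nat_lit 320, ⟨nat_lit 0, nat_lit 0, nat_lit 1000, nat_lit 5, nat_lit 124, nat_lit 1000, nat_lit 111, nat_lit 1000, nat_lit 114817, nat_lit 298, nat_lit 144150, nat_lit 308, nat_lit 55327499, nat_lit 0, nat_lit 0, nat_lit 3099911, false, false⟩,
 nat_lit 0, nat_lit 8594, nat_lit 0, nat_lit 0, nat_lit 4549, nat_lit 0, nat_lit 0, nat_lit 0, nat_lit 0, nat_lit 0, nat_lit 0, nat_lit 0, nat_lit 0, nat_lit 0, nat_lit 80, nat_lit 1000000, nat_lit 0, nat_lit 0, [(nat_lit 6, [(nat_lit 6, nat_lit 1000)])],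
 ⟨p031_k7, nat_lit 0, nat_lit 0, nat_lit 165, nat_lit 0, nat_lit 198840, [nat_lit 2257066667, nat_lit 1408000000, nat_lit 211200000], [], [nat_lit 8445137367, nat_lit 9982790449, nat_lit 8938138695, nat_lit 10398474687, nat_lit 10447802311, nat_lit 11864389360, nat_lit 10846685599, nat_lit 12192850260], nat_lit 1271250, nat_lit 1271250, nat_lit 490000, nat_lit 780000, nat_lit 1100001, nat_lit 1442500, [nat_lit 1100000, nat_lit 1442500, nat_lit 1271250], [nat_lit 9, nat_lit 40, nat_lit 20, nat_lit 80, nat_lit 2, nat_lit 317, nat_lit 100, nat_lit 10]⟩, ⟨p031_k8, nat_lit 0, nat_lit 0, nat_lit 319, nat_lit 0, nat_lit 253379, [nat_lit 0, nat_lit 0, nat_lit 0], [], [nat_lit 0, nat_lit 0, nat_lit 0, nat_lit 0, nat_lit 0, nat_lit 0, nat_lit 0, nat_lit 0], nat_lit 1271250, nat_lit 1271250, nat_lit 490000, nat_lit 780000, nat_lit 0, nat_lit 2260000, [nat_lit 1412500, nat_lit 1271250, nat_lit 1271250], [nat_lit 25, nat_lit 40,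 nat_lit 20, nat_lit 80, nat_lit 17, nat_lit 401, nat_lit 175, nat_lit 12]⟩,
 ⟨nat_lit 5916, nat_lit 6325, ⟨.ofNat (nat_lit 253206), .ofNat (nat_lit 335470), .ofNat (nat_lit 274574), .ofNat (nat_lit 356838), .ofNat (nat_lit 264398), .ofNat (nat_lit 342931), .ofNat (nat_lit 285737), .ofNat (nat_lit 364271)⟩, ⟨.ofNat (nat_lit 225423), .ofNat (nat_lit 307688), .ofNat (nat_lit 246791), .ofNat (nat_lit 329055), .ofNat (nat_lit 229411), .ofNat (nat_lit 307945), .ofNat (nat_lit 250751), .ofNat (nat_lit 329284)⟩⟩, []⟩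
noncomputable def p031_l23 : Lf2 := ⟨nat_lit 0, nat_lit 2, [nat_lit 10, nat_lit 5, nat_lit 5, nat_lit 20], true, nat_lit 160, nat_lit 180, nat_lit 0, nat_lit 304, ⟨nat_lit 0, nat_lit 0, nat_lit 1000, nat_lit 5, nat_lit 69, nat_lit 1000, nat_lit 103, nat_lit 1000, nat_lit 98817, nat_lit 292, nat_lit 45067, nat_lit 267, nat_lit 60018103, nat_lit 0, nat_lit 0, nat_lit 2117493, false, false⟩,
 nat_lit 0, nat_lit 8898, nat_lit 0, nat_lit 0, nat_lit 4710, nat_lit 0, nat_lit 1109, nat_lit 0, nat_lit 0, nat_lit 0, nat_lit 0, nat_lit 0, nat_lit 0, nat_lit 0, nat_lit 80, nat_lit 1000000, nat_lit 0, nat_lit 0, [(nat_lit 6, [(nat_lit 6, nat_lit 1000)])],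
 ⟨p031_k7, nat_lit 0, nat_lit 0, nat_lit 201, nat_lit 0, nat_lit 200628, [nat_lit 2257066667, nat_lit 1408000000, nat_lit 211200000], [], [nat_lit 10792354971, nat_lit 11113549794, nat_lit 10396020027, nat_lit 10061660327, nat_lit 11621191421, nat_lit 11929969386, nat_lit 11908492377, nat_lit 11308715090], nat_lit 1271250, nat_lit 1271250, nat_lit 43600, nat_lit 230001, nat_lit 1100001, nat_lit 1271250, [nat_lit 1100000, nat_lit 1442500, nat_lit 1271250], [nat_lit 9, nat_lit 40, nat_lit 20, nat_lit 80, nat_lit 2, nat_lit 272, nat_lit 60, nat_lit 9]⟩, C1.Rw.none,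
 ⟨nat_lit 6224, nat_lit 6325, ⟨.ofNat (nat_lit 126498), .ofNat (nat_lit 192309), .ofNat (nat_lit 147866), .ofNat (nat_lit 213677), .ofNat (nat_lit 131030), .ofNat (nat_lit 196084), .ofNat (nat_lit 152387), .ofNat (nat_lit 217441)⟩, ⟨.ofNat (nat_lit 225423), .ofNat (nat_lit 266555), .ofNat (nat_lit 246791), .ofNat (nat_lit 287923), .ofNat (nat_lit 226471), .ofNat (nat_lit 267130), .ofNat (nat_lit 247827), .ofNat (nat_lit 288486)⟩⟩, [⟨nat_lit 0, nat_lit 100, nat_lit 99, nat_lit 42, nat_lit 91780253⟩]⟩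
noncomputable def p031_l24 : Lf2 := ⟨nat_lit 0, nat_lit 2, [nat_lit 10, nat_lit 5, nat_lit 5, nat_lit 20], true, nat_lit 160, nat_lit 180, nat_lit 0, nat_lit 304, ⟨nat_lit 0, nat_lit 0, nat_lit 1000, nat_lit 5, nat_lit 71, nat_lit 1000, nat_lit 103, nat_lit 1000, nat_lit 98817, nat_lit 292, nat_lit 46817, nat_lit 268, nat_lit 59889534, nat_lit 0, nat_lit 0, nat_lit 2149133, false, false⟩,
 nat_lit 0, nat_lit 8347, nat_lit 0, nat_lit 0, nat_lit 4527, nat_lit 0, nat_lit 965, nat_lit 0, nat_lit 0, nat_lit 0, nat_lit 0, nat_lit 0, nat_lit 0, nat_lit 0, nat_lit 80, nat_lit 1000000, nat_lit 0, nat_lit 0, [(nat_lit 6, [(nat_lit 6, nat_lit 1000)])],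
 ⟨p031_k12, nat_lit 0, nat_lit 0, nat_lit 200, nat_lit 0, nat_lit 219176, [nat_lit 2257066667, nat_lit 1408000000, nat_lit 211200000], [], [nat_lit 11223411239, nat_lit 11538472230, nat_lit 10231865034, nat_lit 10541127730, nat_lit 12030152698, nat_lit 12333164483, nat_lit 11455246231, nat_lit 11326894643], nat_lit 1271250, nat_lit 1271250, nat_lit 43600, nat_lit 230001, nat_lit 1100001, nat_lit 1271250, [nat_lit 1100000, nat_lit 1442500, nat_lit 1271250], [nat_lit 9, nat_lit 40, nat_lit 20, nat_lit 80, nat_lit 2, nat_lit 272, nat_lit 60, nat_lit 9]⟩, C1.Rw.none,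
 ⟨nat_lit 6123, nat_lit 6225, ⟨.ofNat (nat_lit 131030), .ofNat (nat_lit 196084), .ofNat (nat_lit 152387), .ofNat (nat_lit 217441), .ofNat (nat_lit 135519), .ofNat (nat_lit 199824), .ofNat (nat_lit 156867), .ofNat (nat_lit 221172)⟩, ⟨.ofNat (nat_lit 226471), .ofNat (nat_lit 267130), .ofNat (nat_lit 247827), .ofNat (nat_lit 288486), .ofNat (nat_lit 227485), .ofNat (nat_lit 267675), .ofNat (nat_lit 248833), .ofNat (nat_lit 289023)⟩⟩, [⟨nat_lit 0, nat_lit 100, nat_lit 99, nat_lit 45, nat_lit 215328502⟩]⟩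
noncomputable def p031_l25 : Lf2 := ⟨nat_lit 0, nat_lit 2, [nat_lit 10, nat_lit 5, nat_lit 5, nat_lit 20], true, nat_lit 180, nat_lit 200, nat_lit 0, nat_lit 304, ⟨nat_lit 0, nat_lit 0, nat_lit 1000, nat_lit 5, nat_lit 69, nat_lit 1000, nat_lit 119, nat_lit 1000, nat_lit 132017, nat_lit 304, nat_lit 45067, nat_lit 267, nat_lit 58693883, nat_lit 0, nat_lit 0, nat_lit 2374576, false, false⟩,
 nat_lit 0, nat_lit 8561, nat_lit 0, nat_lit 0, nat_lit 4532, nat_lit 0, nat_lit 1026, nat_lit 0, nat_lit 0, nat_lit 0, nat_lit 0, nat_lit 0, nat_lit 0, nat_lit 0, nat_lit 80, nat_lit 1000000, nat_lit 0, nat_lit 0, [(nat_lit 6, [(nat_lit 6, nat_lit 1000)])],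
 ⟨p031_k7, nat_lit 0, nat_lit 0, nat_lit 191, nat_lit 0, nat_lit 200628, [nat_lit 2257066667, nat_lit 1408000000, nat_lit 211200000], [], [nat_lit 11914906124, nat_lit 12218075455, nat_lit 12219013199, nat_lit 11641902654, nat_lit 12733971264, nat_lit 13025081344, nat_lit 11727491355, nat_lit 12013414894], nat_lit 1271250, nat_lit 1271250, nat_lit 43600, nat_lit 230001, nat_lit 1271250, nat_lit 1271250, [nat_lit 1100000, nat_lit 1442500, nat_lit 1271250], [nat_lit 9, nat_lit 40, nat_lit 20, nat_lit 80, nat_lit 2, nat_lit 272, nat_lit 60, nat_lit 9]⟩, C1.Rw.none,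
 ⟨nat_lit 6224, nat_lit 6325, ⟨.ofNat (nat_lit 126498), .ofNat (nat_lit 192309), .ofNat (nat_lit 147866), .ofNat (nat_lit 213677), .ofNat (nat_lit 131030), .ofNat (nat_lit 196084), .ofNat (nat_lit 152387), .ofNat (nat_lit 217441)⟩, ⟨.ofNat (nat_lit 266555), .ofNat (nat_lit 307688), .ofNat (nat_lit 287923), .ofNat (nat_lit 329055), .ofNat (nat_lit 267130), .ofNat (nat_lit 307788), .ofNat (nat_lit 288486), .ofNat (nat_lit 329145)⟩⟩, [⟨nat_lit 0, nat_lit 100, nat_lit 99, nat_lit 42, nat_lit 170937399⟩]⟩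
noncomputable def p031_l26 : Lf2 := ⟨nat_lit 0, nat_lit 2, [nat_lit 10, nat_lit 5, nat_lit 5, nat_lit 20], true, nat_lit 180, nat_lit 200, nat_lit 0, nat_lit 304, ⟨nat_lit 0, nat_lit 0, nat_lit 1000, nat_lit 5, nat_lit 71, nat_lit 1000, nat_lit 119, nat_lit 1000, nat_lit 132017, nat_lit 304, nat_lit 46817, nat_lit 268, nat_lit 58579955, nat_lit 0, nat_lit 0, nat_lit 2402827, false, false⟩,
 nat_lit 0, nat_lit 8051, nat_lit 0, nat_lit 0, nat_lit 4366, nat_lit 0, nat_lit 892, nat_lit 0, nat_lit 0, nat_lit 0, nat_lit 0, nat_lit 0, nat_lit 0, nat_lit 0, nat_lit 80, nat_lit 1000000, nat_lit 0, nat_lit 0, [(nat_lit 6, [(nat_lit 6, nat_lit 1000)])],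
 ⟨p031_k12, nat_lit 0, nat_lit 0, nat_lit 190, nat_lit 0, nat_lit 219176, [nat_lit 2257066667, nat_lit 1408000000, nat_lit 211200000], [], [nat_lit 12305571144, nat_lit 12603509952, nat_lit 11771440636, nat_lit 11650537311, nat_lit 13103797961, nat_lit 13390011016, nat_lit 12147060131, nat_lit 12428197350], nat_lit 1271250, nat_lit 1271250, nat_lit 43600, nat_lit 230001, nat_lit 1271250, nat_lit 1271250, [nat_lit 1100000, nat_lit 1442500, nat_lit 1271250], [nat_lit 9, nat_lit 40, nat_lit 20, nat_lit 80, nat_lit 2, nat_lit 272, nat_lit 60, nat_lit 9]⟩, C1.Rw.none,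
 ⟨nat_lit 6123, nat_lit 6225, ⟨.ofNat (nat_lit 131030), .ofNat (nat_lit 196084), .ofNat (nat_lit 152387), .ofNat (nat_lit 217441), .ofNat (nat_lit 135519), .ofNat (nat_lit 199824), .ofNat (nat_lit 156867), .ofNat (nat_lit 221172)⟩, ⟨.ofNat (nat_lit 267130), .ofNat (nat_lit 307788), .ofNat (nat_lit 288486), .ofNat (nat_lit 329145), .ofNat (nat_lit 267675), .ofNat (nat_lit 307865), .ofNat (nat_lit 289023), .ofNat (nat_lit 329214)⟩⟩, [⟨nat_lit 0, nat_lit 100, nat_lit 99, nat_lit 45, nat_lit 258360457⟩]⟩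
noncomputable def p031_l27 : Lf2 := ⟨nat_lit 0, nat_lit 2, [nat_lit 10, nat_lit 5, nat_lit 5, nat_lit 20], true, nat_lit 160, nat_lit 180, nat_lit 0, nat_lit 304, ⟨nat_lit 0, nat_lit 0, nat_lit 1000, nat_lit 5, nat_lit 98, nat_lit 1000, nat_lit 103, nat_lit 1000, nat_lit 98817, nat_lit 292, nat_lit 91267, nat_lit 289, nat_lit 57988091, nat_lit 0, nat_lit 0, nat_lit 2587255, false, false⟩,
 nat_lit 0, nat_lit 8662, nat_lit 0, nat_lit 0, nat_lit 4585, nat_lit 0, nat_lit 0, nat_lit 0, nat_lit 0, nat_lit 0, nat_lit 0, nat_lit 0, nat_lit 0, nat_lit 0, nat_lit 80, nat_lit 1000000, nat_lit 0, nat_lit 0, [(nat_lit 6, [(nat_lit 6, nat_lit 1000)])],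
 ⟨p031_k7, nat_lit 0, nat_lit 0, nat_lit 185, nat_lit 0, nat_lit 200628, [nat_lit 2257066667, nat_lit 1408000000, nat_lit 211200000], [], [nat_lit 8702569487, nat_lit 9103425730, nat_lit 8387764167, nat_lit 8773786800, nat_lit 9737006127, nat_lit 10121955037, nat_lit 9392082047, nat_lit 9762879999], nat_lit 1271250, nat_lit 1271250, nat_lit 230001, nat_lit 490000, nat_lit 1100001, nat_lit 1271250, [nat_lit 1100000, nat_lit 1442500, nat_lit 1271250], [nat_lit 9, nat_lit 40, nat_lit 20, nat_lit 80, nat_lit 2, nat_lit 289, nat_lit 75, nat_lit 9]⟩, C1.Rw.none,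
 ⟨nat_lit 6224, nat_lit 6325, ⟨.ofNat (nat_lit 192309), .ofNat (nat_lit 274574), .ofNat (nat_lit 213677), .ofNat (nat_lit 295942), .ofNat (nat_lit 196084), .ofNat (nat_lit 277402), .ofNat (nat_lit 217441), .ofNat (nat_lit 298759)⟩, ⟨.ofNat (nat_lit 225423), .ofNat (nat_lit 266555), .ofNat (nat_lit 246791), .ofNat (nat_lit 287923), .ofNat (nat_lit 226471), .ofNat (nat_lit 267130), .ofNat (nat_lit 247827), .ofNat (nat_lit 288486)⟩⟩, []⟩
noncomputable def p031_l28 : Lf2 := ⟨nat_lit 0, nat_lit 2, [nat_lit 10, nat_lit 5, nat_lit 5, nat_lit 20], true, nat_lit 160, nat_lit 180, nat_lit 0, nat_lit 304, ⟨nat_lit 0, nat_lit 0, nat_lit 1000, nat_lit 5, nat_lit 100, nat_lit 1000, nat_lit 103, nat_lit 1000, nat_lit 98817, nat_lit 292, nat_lit 93750, nat_lit 290, nat_lit 57865412, nat_lit 0, nat_lit 0, nat_lit 2612663, false, false⟩,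
 nat_lit 0, nat_lit 9521, nat_lit 0, nat_lit 0, nat_lit 5164, nat_lit 0, nat_lit 1254, nat_lit 0, nat_lit 0, nat_lit 0, nat_lit 0, nat_lit 0, nat_lit 0, nat_lit 0, nat_lit 80, nat_lit 1000000, nat_lit 0, nat_lit 0, [(nat_lit 6, [(nat_lit 6, nat_lit 1000)])],
 ⟨p031_k12, nat_lit 0, nat_lit 0, nat_lit 184, nat_lit 0, nat_lit 219176, [nat_lit 2257066667, nat_lit 1408000000, nat_lit 211200000], [], [nat_lit 8898394961, nat_lit 9288319840, nat_lit 9728526937, nat_lit 9075843813, nat_lit 10204180866, nat_lit 10480787621, nat_lit 11363530462, nat_lit 10715476218], nat_lit 1271250, nat_lit 1271250, nat_lit 230001, nat_lit 490000, nat_lit 1100001, nat_lit 1271250, [nat_lit 1100000, nat_lit 1442500, nat_lit 1271250], [nat_lit 9, nat_lit 40, nat_lit 20, nat_lit 80, nat_lit 2, nat_lit 289, nat_lit 75, nat_lit 9]⟩, C1.Rw.none,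
 ⟨nat_lit 6123, nat_lit 6225, ⟨.ofNat (nat_lit 196084), .ofNat (nat_lit 277402), .ofNat (nat_lit 217441), .ofNat (nat_lit 298759), .ofNat (nat_lit 199824), .ofNat (nat_lit 280205), .ofNat (nat_lit 221172), .ofNat (nat_lit 301553)⟩, ⟨.ofNat (nat_lit 226471), .ofNat (nat_lit 267130), .ofNat (nat_lit 247827), .ofNat (nat_lit 288486), .ofNat (nat_lit 227485), .ofNat (nat_lit 267675), .ofNat (nat_lit 248833), .ofNat (nat_lit 289023)⟩⟩, []⟩
noncomputable def p031_l29 : Lf2 := ⟨nat_lit 0, nat_lit 2, [nat_lit 10, nat_lit 5, nat_lit 5, nat_lit 20], true, nat_lit 180, nat_lit 200, nat_lit 0, nat_lit 304, ⟨nat_lit 0, nat_lit 0, nat_lit 1000, nat_lit 5, nat_lit 99, nat_lit 1000, nat_lit 119, nat_lit 1000, nat_lit 132017, nat_lit 304, nat_lit 91267, nat_lit 289, nat_lit 56636564, nat_lit 0, nat_lit 0, nat_lit 2847441, false, false⟩,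
 nat_lit 0, nat_lit 9706, nat_lit 0, nat_lit 0, nat_lit 5138, nat_lit 0, nat_lit 227, nat_lit 0, nat_lit 0, nat_lit 0, nat_lit 0, nat_lit 0, nat_lit 0, nat_lit 0, nat_lit 80, nat_lit 1000000, nat_lit 0, nat_lit 0, [(nat_lit 6, [(nat_lit 6, nat_lit 1000)])],
 ⟨p031_k7, nat_lit 0, nat_lit 0, nat_lit 177, nat_lit 0, nat_lit 225288, [nat_lit 2257066667, nat_lit 1408000000, nat_lit 211200000], [], [nat_lit 11161846805, nat_lit 10816923468, nat_lit 12311107513, nat_lit 11021524747, nat_lit 11018087011, nat_lit 11675685601, nat_lit 10381187143, nat_lit 11014989200], nat_lit 1271250, nat_lit 1271250, nat_lit 230001, nat_lit 490000, nat_lit 1271250, nat_lit 1271250, [nat_lit 1100000, nat_lit 1442500, nat_lit 1271250], [nat_lit 9, nat_lit 40, nat_lit 20, nat_lit 80, nat_lit 2, nat_lit 289, nat_lit 75, nat_lit 9]⟩, C1.Rw.none,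
 ⟨nat_lit 6123, nat_lit 6325, ⟨.ofNat (nat_lit 192309), .ofNat (nat_lit 274574), .ofNat (nat_lit 213677), .ofNat (nat_lit 295942), .ofNat (nat_lit 199824), .ofNat (nat_lit 280205), .ofNat (nat_lit 221172), .ofNat (nat_lit 301553)⟩, ⟨.ofNat (nat_lit 266555), .ofNat (nat_lit 307688), .ofNat (nat_lit 287923), .ofNat (nat_lit 329055), .ofNat (nat_lit 267675), .ofNat (nat_lit 307865), .ofNat (nat_lit 289023), .ofNat (nat_lit 329214)⟩⟩, []⟩
noncomputable def p031_l30 : Lf2 := ⟨nat_lit 0, nat_lit 2, [nat_lit 10, nat_lit 5, nat_lit 5, nat_lit 20], false, nat_lit 160, nat_lit 200, nat_lit 0, nat_lit 304, ⟨nat_lit 106, nat_lit 0, nat_lit 894, nat_lit 5, nat_lit 131, nat_lit 894, nat_lit 111, nat_lit 894, nat_lit 114817, nat_lit 298, nat_lit 160067, nat_lit 313, nat_lit 54759499, nat_lit 0, nat_lit 0, nat_lit 3196584, false, false⟩,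
 nat_lit 1353, nat_lit 8412, nat_lit 0, nat_lit 0, nat_lit 5169, nat_lit 647, nat_lit 0, nat_lit 0, nat_lit 0, nat_lit 1412, nat_lit 0, nat_lit 0, nat_lit 0, nat_lit 0, nat_lit 37, nat_lit 894000, nat_lit 0, nat_lit 0, [(nat_lit 6, [(nat_lit 6, nat_lit 894)])],
 ⟨p031_k7, nat_lit 0, nat_lit 0, nat_lit 165, nat_lit 0, nat_lit 200628, [nat_lit 1962425600, nat_lit 1230852000, nat_lit 200806800], [], [nat_lit 7850402300, nat_lit 8262532361, nat_lit 8276612268, nat_lit 8667489506, nat_lit 9955897964, nat_lit 10335762797, nat_lit 10279334692, nat_lit 10638705653], nat_lit 1271250, nat_lit 1271250, nat_lit 490000, nat_lit 780000, nat_lit 1100001, nat_lit 1442500, [nat_lit 1100000, nat_lit 1442500, nat_lit 1271250], [nat_lit 9, nat_lit 40, nat_lit 20, nat_lit 80, nat_lit 2, nat_lit 317, nat_lit 100, nat_lit 10]⟩, ⟨p031_k13, nat_lit 0, nat_lit 0, nat_lit 257, nat_lit 0, nat_lit 225262, [nat_lit 662500000, nat_lit 844608000],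 [], [nat_lit 4778324638, nat_lit 4430925752, nat_lit 4088832266, nat_lit 3746738780, nat_lit 3564026245, nat_lit 3253210809, nat_lit 3836593634, nat_lit 3553160015], nat_lit 1271250, nat_lit 1271250, nat_lit 490000, nat_lit 780000, nat_lit 0, nat_lit 2147000, [nat_lit 1412500, nat_lit 1271250], [nat_lit 26, nat_lit 40, nat_lit 20, nat_lit 80, nat_lit 2, nat_lit 401, nat_lit 175, nat_lit 14]⟩,
 ⟨nat_lit 6224, nat_lit 6325, ⟨.ofNat (nat_lit 274574), .ofNat (nat_lit 356838), .ofNat (nat_lit 295942), .ofNat (nat_lit 378206), .ofNat (nat_lit 277402), .ofNat (nat_lit 358720), .ofNat (nat_lit 298759), .ofNat (nat_lit 380076)⟩, ⟨.ofNat (nat_lit 225423), .ofNat (nat_lit 307688), .ofNat (nat_lit 246791), .ofNat (nat_lit 329055), .ofNat (nat_lit 226471), .ofNat (nat_lit 307788), .ofNat (nat_lit 247827), .ofNat (nat_lit 329145)⟩⟩, []⟩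
noncomputable def p031_l31 : Lf2 := ⟨nat_lit 0, nat_lit 2, [nat_lit 10, nat_lit 5, nat_lit 5, nat_lit 20], false, nat_lit 160, nat_lit 200, nat_lit 0, nat_lit 304, ⟨nat_lit 97, nat_lit 0, nat_lit 903, nat_lit 5, nat_lit 132, nat_lit 903, nat_lit 111, nat_lit 903, nat_lit 114817, nat_lit 298, nat_lit 163350, nat_lit 314, nat_lit 54664388, nat_lit 0, nat_lit 0, nat_lit 3212815, false, false⟩,
 nat_lit 1235, nat_lit 8094, nat_lit 0, nat_lit 0, nat_lit 5060, nat_lit 590, nat_lit 0, nat_lit 0, nat_lit 0, nat_lit 1288, nat_lit 0, nat_lit 0, nat_lit 0, nat_lit 0, nat_lit 40, nat_lit 903000, nat_lit 0, nat_lit 0, [(nat_lit 6, [(nat_lit 6, nat_lit 903)])],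
 ⟨p031_k12, nat_lit 0, nat_lit 0, nat_lit 164, nat_lit 0, nat_lit 219176, [nat_lit 1977027200, nat_lit 1232874000, nat_lit 186066600], [], [nat_lit 8397974470, nat_lit 8805231740, nat_lit 8815012140, nat_lit 9201354760, nat_lit 10452529825, nat_lit 10827145320, nat_lit 10770192615, nat_lit 11125549950], nat_lit 1271250, nat_lit 1271250, nat_lit 490000, nat_lit 780000, nat_lit 1100001, nat_lit 1442500, [nat_lit 1100000, nat_lit 1442500, nat_lit 1271250], [nat_lit 9, nat_lit 40, nat_lit 20, nat_lit 80, nat_lit 2, nat_lit 317, nat_lit 100, nat_lit 10]⟩, ⟨p031_k13, nat_lit 0, nat_lit 0, nat_lit 259, nat_lit 0, nat_lit 252950, [nat_lit 606250000, nat_lit 772896000], [], [nat_lit 4368360184, nat_lit 4051566764, nat_lit 3739611344, nat_lit 3427655924, nat_lit 3262736993, nat_lit 2979304060, nat_lit 3515788316, nat_lit 3257324892], nat_lit 1271250, nat_lit 1271250, nat_lit 490000, nat_lit 780000, nat_lit 0, nat_lit 2147000,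 [nat_lit 1412500, nat_lit 1271250], [nat_lit 26, nat_lit 40, nat_lit 20, nat_lit 80, nat_lit 2, nat_lit 401, nat_lit 175, nat_lit 14]⟩,
 ⟨nat_lit 6123, nat_lit 6225, ⟨.ofNat (nat_lit 277402), .ofNat (nat_lit 358720), .ofNat (nat_lit 298759), .ofNat (nat_lit 380076), .ofNat (nat_lit 280205), .ofNat (nat_lit 360585), .ofNat (nat_lit 301553), .ofNat (nat_lit 381933)⟩, ⟨.ofNat (nat_lit 226471), .ofNat (nat_lit 307788), .ofNat (nat_lit 247827), .ofNat (nat_lit 329145), .ofNat (nat_lit 227485), .ofNat (nat_lit 307865), .ofNat (nat_lit 248833), .ofNat (nat_lit 329214)⟩⟩, []⟩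
noncomputable def p031_l32 : Lf2 := ⟨nat_lit 0, nat_lit 2, [nat_lit 10, nat_lit 5, nat_lit 5, nat_lit 20], true, nat_lit 160, nat_lit 180, nat_lit 0, nat_lit 304, ⟨nat_lit 0, nat_lit 0, nat_lit 1000, nat_lit 5, nat_lit 90, nat_lit 1000, nat_lit 104, nat_lit 1000, nat_lit 101400, nat_lit 293, nat_lit 77067, nat_lit 283, nat_lit 58505959, nat_lit 0, nat_lit 0, nat_lit 2475302, false, false⟩,
 nat_lit 0, nat_lit 7939, nat_lit 0, nat_lit 0, nat_lit 4410, nat_lit 0, nat_lit 856, nat_lit 0, nat_lit 0, nat_lit 0, nat_lit 0, nat_lit 0, nat_lit 0, nat_lit 0, nat_lit 80, nat_lit 1000000, nat_lit 0, nat_lit 0, [(nat_lit 6, [(nat_lit 6, nat_lit 1000)])],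
 ⟨p031_k11, nat_lit 0, nat_lit 0, nat_lit 199, nat_lit 0, nat_lit 262267, [nat_lit 2257066667, nat_lit 1408000000, nat_lit 211200000], [], [nat_lit 11397041939, nat_lit 12066627835, nat_lit 10605413407, nat_lit 11089844294, nat_lit 12252538392, nat_lit 12897742792, nat_lit 12105658545, nat_lit 11884164239], nat_lit 1271250, nat_lit 1271250, nat_lit 65850, nat_lit 490000, nat_lit 1100001, nat_lit 1271250, [nat_lit 1100000, nat_lit 1442500, nat_lit 1271250], [nat_lit 9, nat_lit 40, nat_lit 20, nat_lit 80, nat_lit 2, nat_lit 289, nat_lit 75, nat_lit 9]⟩, C1.Rw.none,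
 ⟨nat_lit 5916, nat_lit 6124, ⟨.ofNat (nat_lit 143557), .ofNat (nat_lit 280205), .ofNat (nat_lit 164905), .ofNat (nat_lit 301553), .ofNat (nat_lit 152230), .ofNat (nat_lit 285737), .ofNat (nat_lit 173569), .ofNat (nat_lit 307076)⟩, ⟨.ofNat (nat_lit 227485), .ofNat (nat_lit 267675), .ofNat (nat_lit 248833), .ofNat (nat_lit 289023), .ofNat (nat_lit 229411), .ofNat (nat_lit 268678), .ofNat (nat_lit 250751), .ofNat (nat_lit 290018)⟩⟩, [⟨nat_lit 0, nat_lit 100, nat_lit 97, nat_lit 49, nat_lit 147448310⟩]⟩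
noncomputable def p031_l33 : Lf2 := ⟨nat_lit 0, nat_lit 2, [nat_lit 10, nat_lit 5, nat_lit 5, nat_lit 20], true, nat_lit 180, nat_lit 200, nat_lit 0, nat_lit 304, ⟨nat_lit 0, nat_lit 0, nat_lit 1000, nat_lit 5, nat_lit 90, nat_lit 1000, nat_lit 119, nat_lit 1000, nat_lit 135000, nat_lit 305, nat_lit 77067, nat_lit 283, nat_lit 57232565, nat_lit 0, nat_lit 0, nat_lit 2719572, false, false⟩,
 nat_lit 0, nat_lit 7722, nat_lit 0, nat_lit 0, nat_lit 4290, nat_lit 0, nat_lit 803, nat_lit 0, nat_lit 0, nat_lit 0, nat_lit 0, nat_lit 0, nat_lit 0, nat_lit 0, nat_lit 80, nat_lit 1000000, nat_lit 0, nat_lit 0, [(nat_lit 6, [(nat_lit 6, nat_lit 1000)])],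
 ⟨p031_k11, nat_lit 0, nat_lit 0, nat_lit 189, nat_lit 0, nat_lit 262267, [nat_lit 2257066667, nat_lit 1408000000, nat_lit 211200000], [], [nat_lit 12458374668, nat_lit 13095061936, nat_lit 12364427715, nat_lit 12142881779, nat_lit 13307751123, nat_lit 13919242839, nat_lit 12352608469, nat_lit 12930797984], nat_lit 1271250, nat_lit 1271250, nat_lit 65850, nat_lit 490000, nat_lit 1271250, nat_lit 1271250, [nat_lit 1100000, nat_lit 1442500, nat_lit 1271250], [nat_lit 9, nat_lit 40, nat_lit 20, nat_lit 80, nat_lit 2, nat_lit 289, nat_lit 75, nat_lit 9]⟩, C1.Rw.none,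
 ⟨nat_lit 5916, nat_lit 6124, ⟨.ofNat (nat_lit 143557), .ofNat (nat_lit 280205), .ofNat (nat_lit 164905), .ofNat (nat_lit 301553), .ofNat (nat_lit 152230), .ofNat (nat_lit 285737), .ofNat (nat_lit 173569), .ofNat (nat_lit 307076)⟩, ⟨.ofNat (nat_lit 267675), .ofNat (nat_lit 307865), .ofNat (nat_lit 289023), .ofNat (nat_lit 329214), .ofNat (nat_lit 268678), .ofNat (nat_lit 307945), .ofNat (nat_lit 290018), .ofNat (nat_lit 329284)⟩⟩, [⟨nat_lit 0, nat_lit 100, nat_lit 97, nat_lit 49, nat_lit 183439188⟩]⟩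
noncomputable def p031_l34 : Lf2 := ⟨nat_lit 0, nat_lit 2, [nat_lit 10, nat_lit 5, nat_lit 5, nat_lit 20], false, nat_lit 160, nat_lit 200, nat_lit 0, nat_lit 304, ⟨nat_lit 0, nat_lit 0, nat_lit 1000, nat_lit 5, nat_lit 133, nat_lit 1000, nat_lit 112, nat_lit 1000, nat_lit 117600, nat_lit 299, nat_lit 166667, nat_lit 315, nat_lit 54524735, nat_lit 0, nat_lit 0, nat_lit 3236452, false, false⟩,
 nat_lit 0, nat_lit 10854, nat_lit 0, nat_lit 0, nat_lit 6030, nat_lit 0, nat_lit 1570, nat_lit 0, nat_lit 0, nat_lit 0, nat_lit 0, nat_lit 0, nat_lit 0, nat_lit 0, nat_lit 80, nat_lit 1000000, nat_lit 0, nat_lit 0, [(nat_lit 6, [(nat_lit 6, nat_lit 1000)])],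
 ⟨p031_k11, nat_lit 0, nat_lit 0, nat_lit 165, nat_lit 0, nat_lit 262267, [nat_lit 2257066667, nat_lit 1408000000, nat_lit 211200000], [], [nat_lit 7935361630, nat_lit 9009208700, nat_lit 8892810417, nat_lit 9116700060, nat_lit 10445859660, nat_lit 11428188200, nat_lit 12578145517, nat_lit 11435075160], nat_lit 1271250, nat_lit 1271250, nat_lit 490000, nat_lit 780000, nat_lit 1100001, nat_lit 1442500, [nat_lit 1100000, nat_lit 1442500, nat_lit 1271250], [nat_lit 9, nat_lit 40, nat_lit 20, nat_lit 80, nat_lit 2, nat_lit 317, nat_lit 100, nat_lit 10]⟩, ⟨p031_k13, nat_lit 0, nat_lit 0, nat_lit 263, nat_lit 0, nat_lit 310959, [nat_lit 0, nat_lit 0], [], [nat_lit 0, nat_lit 0, nat_lit 0, nat_lit 0, nat_lit 0, nat_lit 0, nat_lit 0, nat_lit 0], nat_lit 1271250, nat_lit 1271250, nat_lit 490000, nat_lit 780000, nat_lit 0, nat_lit 2147000, [nat_lit 1412500, nat_lit 1271250], [nat_lit 26, nat_lit 40, nat_lit 20, nat_lit 80, nat_lit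 2, nat_lit 401, nat_lit 175, nat_lit 14]⟩,
 ⟨nat_lit 5916, nat_lit 6124, ⟨.ofNat (nat_lit 280205), .ofNat (nat_lit 360585), .ofNat (nat_lit 301553), .ofNat (nat_lit 381933), .ofNat (nat_lit 285737), .ofNat (nat_lit 364271), .ofNat (nat_lit 307076), .ofNat (nat_lit 385610)⟩, ⟨.ofNat (nat_lit 227485), .ofNat (nat_lit 307865), .ofNat (nat_lit 248833), .ofNat (nat_lit 329214), .ofNat (nat_lit 229411), .ofNat (nat_lit 307945), .ofNat (nat_lit 250751), .ofNat (nat_lit 329284)⟩⟩, []⟩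
noncomputable def p031_l35 : Lf2 := ⟨nat_lit 0, nat_lit 5, [nat_lit 4, nat_lit 5, nat_lit 5, nat_lit 20], true, nat_lit 160, nat_lit 200, nat_lit 0, nat_lit 320, ⟨nat_lit 0, nat_lit 0, nat_lit 1000, nat_lit 5, nat_lit 80, nat_lit 1000, nat_lit 111, nat_lit 1000, nat_lit 114817, nat_lit 298, nat_lit 60000, nat_lit 275, nat_lit 58633991, nat_lit 0, nat_lit 0, nat_lit 2427795, false, false⟩,
 nat_lit 0, nat_lit 8652, nat_lit 0, nat_lit 0, nat_lit 4580, nat_lit 0, nat_lit 155, nat_lit 0, nat_lit 0, nat_lit 0, nat_lit 0, nat_lit 0, nat_lit 0, nat_lit 0, nat_lit 147, nat_lit 1000000, nat_lit 0, nat_lit 0, [(nat_lit 6, [(nat_lit 6, nat_lit 1000)])],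
 ⟨p031_k0, nat_lit 0, nat_lit 0, nat_lit 198, nat_lit 0, nat_lit 140929, [nat_lit 3329066667, nat_lit 3042400001, nat_lit 177599999], [], [nat_lit 11711434957, nat_lit 12323739214, nat_lit 12043610348, nat_lit 10885868788, nat_lit 13497848572, nat_lit 13781810729, nat_lit 15090555028, nat_lit 13949235058], nat_lit 1271250, nat_lit 1271250, nat_lit 21650, nat_lit 490000, nat_lit 1100001, nat_lit 1442500, [nat_lit 1100000, nat_lit 1442500, nat_lit 1271250], [nat_lit 11, nat_lit 40, nat_lit 20, nat_lit 80, nat_lit 1, nat_lit 373, nat_lit 150, nat_lit 11]⟩, C1.Rw.none,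
 ⟨nat_lit 6123, nat_lit 6325, ⟨.ofNat (nat_lit 96904), .ofNat (nat_lit 253206), .ofNat (nat_lit 139640), .ofNat (nat_lit 295942), .ofNat (nat_lit 106133), .ofNat (nat_lit 258856), .ofNat (nat_lit 148829), .ofNat (nat_lit 301553)⟩, ⟨.ofNat (nat_lit 225423), .ofNat (nat_lit 307688), .ofNat (nat_lit 246791), .ofNat (nat_lit 329055), .ofNat (nat_lit 227485), .ofNat (nat_lit 307865), .ofNat (nat_lit 248833), .ofNat (nat_lit 329214)⟩⟩, [⟨nat_lit 0, nat_lit 100, nat_lit 99, nat_lit 45, nat_lit 13878351⟩]⟩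
noncomputable def p031_l36 : Lf2 := ⟨nat_lit 0, nat_lit 5, [nat_lit 4, nat_lit 5, nat_lit 5, nat_lit 20], true, nat_lit 160, nat_lit 200, nat_lit 0, nat_lit 320, ⟨nat_lit 0, nat_lit 0, nat_lit 1000, nat_lit 5, nat_lit 83, nat_lit 1000, nat_lit 112, nat_lit 1000, nat_lit 117600, nat_lit 299, nat_lit 64067, nat_lit 277, nat_lit 58400375, nat_lit 0, nat_lit 0, nat_lit 2481125, false, false⟩,
 nat_lit 0, nat_lit 7613, nat_lit 0, nat_lit 0, nat_lit 4229, nat_lit 0, nat_lit 169, nat_lit 0, nat_lit 0, nat_lit 0, nat_lit 0, nat_lit 0, nat_lit 0, nat_lit 0, nat_lit 80, nat_lit 1000000, nat_lit 0, nat_lit 0, [(nat_lit 6, [(nat_lit 6, nat_lit 1000)])],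
 ⟨p031_k14, nat_lit 0, nat_lit 0, nat_lit 197, nat_lit 0, nat_lit 184617, [nat_lit 2257066667, nat_lit 1408000000, nat_lit 211200000], [], [nat_lit 12412371542, nat_lit 12971433883, nat_lit 11279595473, nat_lit 11653784395, nat_lit 13879200601, nat_lit 14444313867, nat_lit 14213185987, nat_lit 13159333988], nat_lit 1271250, nat_lit 1271250, nat_lit 21650, nat_lit 490000, nat_lit 1100001, nat_lit 1442500, [nat_lit 1100000, nat_lit 1442500, nat_lit 1271250], [nat_lit 9, nat_lit 40, nat_lit 20, nat_lit 80, nat_lit 2, nat_lit 289, nat_lit 75, nat_lit 9]⟩, C1.Rw.none,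
 ⟨nat_lit 5916, nat_lit 6124, ⟨.ofNat (nat_lit 106133), .ofNat (nat_lit 258856), .ofNat (nat_lit 148829), .ofNat (nat_lit 301553), .ofNat (nat_lit 115184), .ofNat (nat_lit 264398), .ofNat (nat_lit 157863), .ofNat (nat_lit 307076)⟩, ⟨.ofNat (nat_lit 227485), .ofNat (nat_lit 307865), .ofNat (nat_lit 248833), .ofNat (nat_lit 329214), .ofNat (nat_lit 229411), .ofNat (nat_lit 307945), .ofNat (nat_lit 250751), .ofNat (nat_lit 329284)⟩⟩, [⟨nat_lit 0, nat_lit 100, nat_lit 97, nat_lit 49, nat_lit 106379542⟩]⟩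
noncomputable def p031_l37 : Lf2 := ⟨nat_lit 0, nat_lit 5, [nat_lit 4, nat_lit 5, nat_lit 5, nat_lit 20], false, nat_lit 160, nat_lit 200, nat_lit 0, nat_lit 320, ⟨nat_lit 0, nat_lit 0, nat_lit 1000, nat_lit 5, nat_lit 128, nat_lit 1000, nat_lit 111, nat_lit 1000, nat_lit 114817, nat_lit 298, nat_lit 153600, nat_lit 311, nat_lit 54975985, nat_lit 0, nat_lit 0, nat_lit 3160620, false, false⟩,
 nat_lit 0, nat_lit 9447, nat_lit 0, nat_lit 0, nat_lit 5001, nat_lit 0, nat_lit 0, nat_lit 0, nat_lit 0, nat_lit 0, nat_lit 0, nat_lit 0, nat_lit 0, nat_lit 0, nat_lit 69, nat_lit 400000, nat_lit 0, nat_lit 0, [(nat_lit 6, [(nat_lit 5, nat_lit 1000)])],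
 ⟨p031_k0, nat_lit 0, nat_lit 0, nat_lit 164, nat_lit 0, nat_lit 195193, [nat_lit 2521600001, nat_lit 1460000001, nat_lit 7200000], [], [nat_lit 8165318301, nat_lit 9783797119, nat_lit 8609626573, nat_lit 10145178981, nat_lit 10242950157, nat_lit 11731179658, nat_lit 10586830469, nat_lit 11999569758], nat_lit 1271250, nat_lit 1271250, nat_lit 490000, nat_lit 780000, nat_lit 1100001, nat_lit 1442500, [nat_lit 1100000, nat_lit 1442500, nat_lit 1271250], [nat_lit 11, nat_lit 40, nat_lit 20, nat_lit 80, nat_lit 1, nat_lit 373, nat_lit 150, nat_lit 10]⟩, ⟨p031_k1, nat_lit 0, nat_lit 0, nat_lit 397, nat_lit 0, nat_lit 250202, [nat_lit 0, nat_lit 0, nat_lit 0], [], [nat_lit 0, nat_lit 0, nat_lit 0, nat_lit 0, nat_lit 0, nat_lit 0, nat_lit 0, nat_lit 0], nat_lit 1271250, nat_lit 1271250, nat_lit 490000, nat_lit 780000, nat_lit 0, nat_lit 2260000, [nat_lit 1412500, nat_lit 1271250, nat_lit 1271250], [nat_lit 53, nat_lit 40,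 nat_lit 20, nat_lit 80, nat_lit 14, nat_lit 401, nat_lit 175, nat_lit 11]⟩,
 ⟨nat_lit 5916, nat_lit 6325, ⟨.ofNat (nat_lit 253206), .ofNat (nat_lit 335470), .ofNat (nat_lit 295942), .ofNat (nat_lit 378206), .ofNat (nat_lit 264398), .ofNat (nat_lit 342931), .ofNat (nat_lit 307076), .ofNat (nat_lit 385610)⟩, ⟨.ofNat (nat_lit 225423), .ofNat (nat_lit 307688), .ofNat (nat_lit 246791), .ofNat (nat_lit 329055), .ofNat (nat_lit 229411), .ofNat (nat_lit 307945), .ofNat (nat_lit 250751), .ofNat (nat_lit 329284)⟩⟩, []⟩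
noncomputable def p031_l38 : Lf2 := ⟨nat_lit 0, nat_lit 8, [nat_lit 50, nat_lit 5, nat_lit 5, nat_lit 20], false, nat_lit 160, nat_lit 200, nat_lit 0, nat_lit 320, ⟨nat_lit 0, nat_lit 0, nat_lit 1000, nat_lit 5, nat_lit 98, nat_lit 1000, nat_lit 111, nat_lit 1000, nat_lit 114817, nat_lit 298, nat_lit 88817, nat_lit 288, nat_lit 57378376, nat_lit 0, nat_lit 0, nat_lit 2706880, false, false⟩,
 nat_lit 0, nat_lit 8733, nat_lit 0, nat_lit 0, nat_lit 4623, nat_lit 0, nat_lit 49, nat_lit 0, nat_lit 0, nat_lit 0, nat_lit 0, nat_lit 0, nat_lit 0, nat_lit 0, nat_lit 147, nat_lit 1000000, nat_lit 0, nat_lit 0, [(nat_lit 6, [(nat_lit 6, nat_lit 1000)])],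
 ⟨p031_k15, nat_lit 0, nat_lit 0, nat_lit 194, nat_lit 0, nat_lit 83751, [nat_lit 3329066667, nat_lit 3042400001, nat_lit 177599999], [], [nat_lit 12039451974, nat_lit 13269366101, nat_lit 13809874532, nat_lit 11506298354, nat_lit 13546210410, nat_lit 14681702685, nat_lit 16938866556, nat_lit 14667484950], nat_lit 1271250, nat_lit 1271250, nat_lit 21650, nat_lit 780000, nat_lit 1100001, nat_lit 1442500, [nat_lit 1100000, nat_lit 1442500, nat_lit 1271250], [nat_lit 11, nat_lit 40, nat_lit 20, nat_lit 80, nat_lit 1, nat_lit 373, nat_lit 150, nat_lit 11]⟩, ⟨p031_k16, nat_lit 0, nat_lit 0, nat_lit 412, nat_lit 0, nat_lit 107929, [nat_lit 0, nat_lit 0, nat_lit 0], [], [nat_lit 0, nat_lit 0, nat_lit 0, nat_lit 0, nat_lit 0, nat_lit 0, nat_lit 0, nat_lit 0], nat_lit 1271250, nat_lit 1271250, nat_lit 21650, nat_lit 780000, nat_lit 0, nat_lit 2260000, [nat_lit 1412500, nat_lit 1271250, nat_lit 1271250], [nat_lit 53, nat_lit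 40, nat_lit 20, nat_lit 80, nat_lit 14, nat_lit 401, nat_lit 175, nat_lit 11]⟩,
 ⟨nat_lit 5916, nat_lit 6325, ⟨.ofNat (nat_lit 96904), .ofNat (nat_lit 335470), .ofNat (nat_lit 139640), .ofNat (nat_lit 378206), .ofNat (nat_lit 115184), .ofNat (nat_lit 342931), .ofNat (nat_lit 157863), .ofNat (nat_lit 385610)⟩, ⟨.ofNat (nat_lit 225423), .ofNat (nat_lit 307688), .ofNat (nat_lit 246791), .ofNat (nat_lit 329055), .ofNat (nat_lit 229411), .ofNat (nat_lit 307945), .ofNat (nat_lit 250751), .ofNat (nat_lit 329284)⟩⟩, []⟩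
noncomputable def b_VL_600_500_5_22 : St := ⟨true, nat_lit 1, nat_lit 1, nat_lit 1, nat_lit 40, nat_lit 240, nat_lit 260, nat_lit 200, nat_lit 240, nat_lit 4, nat_lit 120, nat_lit 20, nat_lit 40, nat_lit 160, nat_lit 200, nat_lit 0, nat_lit 320, nat_lit 0, nat_lit 32, nat_lit 0, nat_lit 0, nat_lit 0, nat_lit 0⟩
theorem d_VL_600_500_5_22 (h : EB TB.env) : Dead b_VL_600_500_5_22 := chkB_sound0 h (T :=
(.spl (nat_lit 6) (nat_lit 20)
(.spl (nat_lit 6) (nat_lit 8)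
(.spl (nat_lit 1) (nat_lit 220)
(.spl (nat_lit 2) (nat_lit 80)
(.spl (nat_lit 0) (nat_lit 250)
(.leaf p031_l20)
(.leaf p031_l21))
(.leaf p031_l22))
(.trZ (nat_lit 0) (nat_lit 100) (nat_lit 98) (nat_lit 30) (nat_lit 8) (.trX (nat_lit 19) (nat_lit 100) (nat_lit 86) (nat_lit 60) (nat_lit 304) (.spl (nat_lit 0) (nat_lit 250)
(.spl (nat_lit 2) (nat_lit 80)
(.spl (nat_lit 2) (nat_lit 40)
(.spl (nat_lit 4) (nat_lit 180)
(.spl (nat_lit 0) (nat_lit 245)
(.leaf p031_l23)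
(.leaf p031_l24))
(.spl (nat_lit 0) (nat_lit 245)
(.leaf p031_l25)
(.leaf p031_l26)))
(.spl (nat_lit 4) (nat_lit 180)
(.spl (nat_lit 0) (nat_lit 245)
(.leaf p031_l27)
(.leaf p031_l28))
(.leaf p031_l29)))
(.spl (nat_lit 0) (nat_lit 245)
(.leaf p031_l30)
(.leaf p031_l31)))
(.trZ (nat_lit 0) (nat_lit 100) (nat_lit 97) (nat_lit 35) (nat_lit 12) (.spl (nat_lit 2) (nat_lit 80)
(.spl (nat_lit 4) (nat_lit 180)
(.leaf p031_l32)
(.leaf p031_l33))
(.leaf p031_l34)))))))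
(.spl (nat_lit 2) (nat_lit 80)
(.spl (nat_lit 0) (nat_lit 250)
(.leaf p031_l35)
(.leaf p031_l36))
(.leaf p031_l37)))
(.leaf p031_l38))) (by decide +kernel)
noncomputable def p031_l39 : Lf2 := ⟨nat_lit 0, nat_lit 4, [nat_lit 38, nat_lit 5, nat_lit 5, nat_lit 20], true, nat_lit 200, nat_lit 240, nat_lit 0, nat_lit 320, ⟨nat_lit 0, nat_lit 0, nat_lit 1000, nat_lit 5, nat_lit 80, nat_lit 1000, nat_lit 144, nat_lit 1000, nat_lit 194400, nat_lit 323, nat_lit 60000, nat_lit 275, nat_lit 55844130, nat_lit 0, nat_lit 0, nat_lit 2909372, false, false⟩,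
 nat_lit 0, nat_lit 7728, nat_lit 0, nat_lit 0, nat_lit 4091, nat_lit 0, nat_lit 679, nat_lit 0, nat_lit 0, nat_lit 0, nat_lit 0, nat_lit 0, nat_lit 0, nat_lit 0, nat_lit 80, nat_lit 1000000, nat_lit 0, nat_lit 0, [(nat_lit 6, [(nat_lit 6, nat_lit 1000)])],
 ⟨p031_k17, nat_lit 0, nat_lit 0, nat_lit 187, nat_lit 0, nat_lit 232440, [nat_lit 2257066667, nat_lit 1408000000, nat_lit 211200000], [], [nat_lit 13596823645, nat_lit 14153784506, nat_lit 12401537171, nat_lit 12927457522, nat_lit 15187315067, nat_lit 15699471450, nat_lit 13919761447, nat_lit 14404135256], nat_lit 1271250, nat_lit 1271250, nat_lit 21650, nat_lit 490000, nat_lit 1271250, nat_lit 1271250, [nat_lit 1100000, nat_lit 1442500, nat_lit 1271250], [nat_lit 9, nat_lit 40, nat_lit 20, nat_lit 80, nat_lit 2, nat_lit 317, nat_lit 100, nat_lit 10]⟩, C1.Rw.none,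
 ⟨nat_lit 6123, nat_lit 6325, ⟨.ofNat (nat_lit 96904), .ofNat (nat_lit 253206), .ofNat (nat_lit 139640), .ofNat (nat_lit 295942), .ofNat (nat_lit 106133), .ofNat (nat_lit 258856), .ofNat (nat_lit 148829), .ofNat (nat_lit 301553)⟩, ⟨.ofNat (nat_lit 307688), .ofNat (nat_lit 389952), .ofNat (nat_lit 329055), .ofNat (nat_lit 411320), .ofNat (nat_lit 307865), .ofNat (nat_lit 388246), .ofNat (nat_lit 329214), .ofNat (nat_lit 409594)⟩⟩, [⟨nat_lit 0, nat_lit 100, nat_lit 99, nat_lit 45, nat_lit 192196682⟩]⟩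
noncomputable def p031_l40 : Lf2 := ⟨nat_lit 0, nat_lit 4, [nat_lit 38, nat_lit 5, nat_lit 5, nat_lit 20], false, nat_lit 200, nat_lit 240, nat_lit 0, nat_lit 320, ⟨nat_lit 0, nat_lit 0, nat_lit 1000, nat_lit 5, nat_lit 127, nat_lit 1000, nat_lit 144, nat_lit 1000, nat_lit 194400, nat_lit 323, nat_lit 150417, nat_lit 310, nat_lit 52456453, nat_lit 0, nat_lit 0, nat_lit 3590682, false, false⟩,
 nat_lit 0, nat_lit 8301, nat_lit 0, nat_lit 0, nat_lit 4394, nat_lit 0, nat_lit 0, nat_lit 0, nat_lit 0, nat_lit 0, nat_lit 0, nat_lit 0, nat_lit 0, nat_lit 0, nat_lit 80, nat_lit 1000000, nat_lit 0, nat_lit 0, [(nat_lit 6, [(nat_lit 6, nat_lit 1000)])],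
 ⟨p031_k17, nat_lit 0, nat_lit 0, nat_lit 147, nat_lit 0, nat_lit 232440, [nat_lit 2257066667, nat_lit 1408000000, nat_lit 211200000], [], [nat_lit 10669118131, nat_lit 11365127828, nat_lit 11086863059, nat_lit 11748530492, nat_lit 12646075395, nat_lit 13283126643, nat_lit 12971866083, nat_lit 13577929573], nat_lit 1271250, nat_lit 1271250, nat_lit 490000, nat_lit 780000, nat_lit 1271250, nat_lit 1271250, [nat_lit 1100000, nat_lit 1442500, nat_lit 1271250], [nat_lit 9, nat_lit 40, nat_lit 20, nat_lit 80, nat_lit 2, nat_lit 317, nat_lit 100, nat_lit 10]⟩, ⟨p031_k18, nat_lit 0, nat_lit 0, nat_lit 344, nat_lit 0, nat_lit 297380, [nat_lit 0, nat_lit 0, nat_lit 0], [], [nat_lit 0, nat_lit 0, nat_lit 0, nat_lit 0, nat_lit 0, nat_lit 0, nat_lit 0, nat_lit 0], nat_lit 1271250, nat_lit 1271250, nat_lit 490000, nat_lit 780000, nat_lit 0, nat_lit 2260000, [nat_lit 1412500, nat_lit 1271250, nat_lit 1271250], [nat_lit 25, nat_lit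 40, nat_lit 20, nat_lit 80, nat_lit 17, nat_lit 401, nat_lit 175, nat_lit 12]⟩,
 ⟨nat_lit 6123, nat_lit 6325, ⟨.ofNat (nat_lit 253206), .ofNat (nat_lit 335470), .ofNat (nat_lit 295942), .ofNat (nat_lit 378206), .ofNat (nat_lit 258856), .ofNat (nat_lit 339237), .ofNat (nat_lit 301553), .ofNat (nat_lit 381933)⟩, ⟨.ofNat (nat_lit 307688), .ofNat (nat_lit 389952), .ofNat (nat_lit 329055), .ofNat (nat_lit 411320), .ofNat (nat_lit 307865), .ofNat (nat_lit 388246), .ofNat (nat_lit 329214), .ofNat (nat_lit 409594)⟩⟩, []⟩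
noncomputable def p031_l41 : Lf2 := ⟨nat_lit 0, nat_lit 6, [nat_lit 47, nat_lit 5, nat_lit 5, nat_lit 20], false, nat_lit 200, nat_lit 240, nat_lit 0, nat_lit 320, ⟨nat_lit 0, nat_lit 0, nat_lit 1000, nat_lit 5, nat_lit 96, nat_lit 1000, nat_lit 144, nat_lit 1000, nat_lit 194400, nat_lit 323, nat_lit 86400, nat_lit 287, nat_lit 54747013, nat_lit 0, nat_lit 0, nat_lit 3154794, false, false⟩,
 nat_lit 0, nat_lit 8007, nat_lit 0, nat_lit 0, nat_lit 4238, nat_lit 0, nat_lit 0, nat_lit 0, nat_lit 0, nat_lit 0, nat_lit 0, nat_lit 0, nat_lit 0, nat_lit 0, nat_lit 145, nat_lit 983800, nat_lit 0, nat_lit 0, [(nat_lit 6, [(nat_lit 5, nat_lit 27), (nat_lit 6, nat_lit 973)])],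
 ⟨p031_k19, nat_lit 0, nat_lit 0, nat_lit 172, nat_lit 0, nat_lit 61929, [nat_lit 3308961067, nat_lit 3001795201, nat_lit 173051199], [], [nat_lit 13818038564, nat_lit 14364845532, nat_lit 13892249596, nat_lit 13245342301, nat_lit 15294485180, nat_lit 15801861639, nat_lit 14195118652, nat_lit 14662573556], nat_lit 1271250, nat_lit 1271250, nat_lit 21650, nat_lit 780000, nat_lit 1271250, nat_lit 1271250, [nat_lit 1100000, nat_lit 1442500, nat_lit 1271250], [nat_lit 11, nat_lit 40, nat_lit 20, nat_lit 80, nat_lit 1, nat_lit 401, nat_lit 175, nat_lit 11]⟩, ⟨p031_k20, nat_lit 0, nat_lit 0, nat_lit 401, nat_lit 0, nat_lit 79528, [nat_lit 0, nat_lit 0, nat_lit 0], [], [nat_lit 0, nat_lit 0, nat_lit 0, nat_lit 0, nat_lit 0, nat_lit 0, nat_lit 0, nat_lit 0], nat_lit 1271250, nat_lit 1271250, nat_lit 21650, nat_lit 780000, nat_lit 0, nat_lit 2260000, [nat_lit 1412500, nat_lit 1271250, nat_lit 1271250], [nat_lit 53, nat_lit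 40, nat_lit 20, nat_lit 80, nat_lit 14, nat_lit 401, nat_lit 175, nat_lit 11]⟩,
 ⟨nat_lit 6123, nat_lit 6325, ⟨.ofNat (nat_lit 96904), .ofNat (nat_lit 335470), .ofNat (nat_lit 139640), .ofNat (nat_lit 378206), .ofNat (nat_lit 106133), .ofNat (nat_lit 339237), .ofNat (nat_lit 148829), .ofNat (nat_lit 381933)⟩, ⟨.ofNat (nat_lit 307688), .ofNat (nat_lit 389952), .ofNat (nat_lit 329055), .ofNat (nat_lit 411320), .ofNat (nat_lit 307865), .ofNat (nat_lit 388246), .ofNat (nat_lit 329214), .ofNat (nat_lit 409594)⟩⟩, [⟨nat_lit 0, nat_lit 100, nat_lit 99, nat_lit 45, nat_lit 159356971⟩]⟩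
noncomputable def p031_l42 : Lf2 := ⟨nat_lit 1, nat_lit 8, [nat_lit 50, nat_lit 5, nat_lit 5, nat_lit 20], false, nat_lit 200, nat_lit 240, nat_lit 0, nat_lit 320, zbN0,
 nat_lit 0, nat_lit 0, nat_lit 0, nat_lit 0, nat_lit 0, nat_lit 0, nat_lit 0, nat_lit 0, nat_lit 0, nat_lit 0, nat_lit 0, nat_lit 0, nat_lit 0, nat_lit 0, nat_lit 0, nat_lit 0, nat_lit 0, nat_lit 0, [],
 C1.Rw.none, C1.Rw.none,
 zbF0, []⟩
noncomputable def p031_l43 : Lf2 := ⟨nat_lit 0, nat_lit 8, [nat_lit 50, nat_lit 5, nat_lit 5, nat_lit 20], false, nat_lit 200, nat_lit 240, nat_lit 0, nat_lit 320, ⟨nat_lit 0, nat_lit 0, nat_lit 1000, nat_lit 5, nat_lit 95, nat_lit 1000, nat_lit 143, nat_lit 1000, nat_lit 194400, nat_lit 323, nat_lit 84017, nat_lit 286, nat_lit 54894380, nat_lit 0, nat_lit 0, nat_lit 3125144, false, false⟩,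
 nat_lit 0, nat_lit 8122, nat_lit 0, nat_lit 0, nat_lit 4512, nat_lit 0, nat_lit 893, nat_lit 0, nat_lit 0, nat_lit 0, nat_lit 0, nat_lit 0, nat_lit 0, nat_lit 0, nat_lit 84, nat_lit 511000, nat_lit 0, nat_lit 0, [(nat_lit 6, [(nat_lit 5, nat_lit 815), (nat_lit 6, nat_lit 185)])],
 ⟨p031_k21, nat_lit 0, nat_lit 0, nat_lit 202, nat_lit 0, nat_lit 205748, [nat_lit 2907824001, nat_lit 23160000], [], [nat_lit 14789984693, nat_lit 15351583825, nat_lit 15588799958, nat_lit 14510923766, nat_lit 16241493890, nat_lit 16781885279, nat_lit 14964972506, nat_lit 15481068370], nat_lit 1271250, nat_lit 1271250, nat_lit 21650, nat_lit 780000, nat_lit 1271250, nat_lit 1271250, [nat_lit 1100000, nat_lit 2127500], [nat_lit 70, nat_lit 40, nat_lit 20, nat_lit 80, nat_lit 13, nat_lit 401, nat_lit 175, nat_lit 11]⟩, ⟨p031_k22, nat_lit 0, nat_lit 0, nat_lit 523, nat_lit 0, nat_lit 280648, [nat_lit 0, nat_lit 0], [], [nat_lit 0, nat_lit 0,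 nat_lit 0, nat_lit 0, nat_lit 0, nat_lit 0, nat_lit 0, nat_lit 0], nat_lit 1271250, nat_lit 1271250, nat_lit 21650, nat_lit 780000, nat_lit 0, nat_lit 2260000, [nat_lit 1412500, nat_lit 1271250], [nat_lit 107, nat_lit 40, nat_lit 20, nat_lit 80, nat_lit 12, nat_lit 401, nat_lit 175, nat_lit 11]⟩,
 ⟨nat_lit 5916, nat_lit 6124, ⟨.ofNat (nat_lit 106133), .ofNat (nat_lit 339237), .ofNat (nat_lit 127481), .ofNat (nat_lit 360585), .ofNat (nat_lit 115184), .ofNat (nat_lit 342931), .ofNat (nat_lit 136523), .ofNat (nat_lit 364271)⟩, ⟨.ofNat (nat_lit 307865), .ofNat (nat_lit 388246), .ofNat (nat_lit 329214), .ofNat (nat_lit 409594), .ofNat (nat_lit 307945), .ofNat (nat_lit 386479), .ofNat (nat_lit 329284), .ofNat (nat_lit 407818)⟩⟩, [⟨nat_lit 0, nat_lit 100, nat_lit 96, nat_lit 40, nat_lit 76489095⟩, ⟨nat_lit 4, nat_lit 100, nat_lit 100, nat_lit 55, nat_lit 225327843⟩]⟩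
noncomputable def p031_l44 : Lf2 := ⟨nat_lit 0, nat_lit 8, [nat_lit 50, nat_lit 5, nat_lit 5, nat_lit 20], false, nat_lit 200, nat_lit 240, nat_lit 0, nat_lit 304, ⟨nat_lit 0, nat_lit 0, nat_lit 1000, nat_lit 5, nat_lit 104, nat_lit 1000, nat_lit 143, nat_lit 1000, nat_lit 194400, nat_lit 323, nat_lit 101400, nat_lit 293, nat_lit 54214343, nat_lit 0, nat_lit 0, nat_lit 3265916, false, false⟩,
 nat_lit 0, nat_lit 7488, nat_lit 0, nat_lit 0, nat_lit 4160, nat_lit 0, nat_lit 277, nat_lit 0, nat_lit 0, nat_lit 0, nat_lit 0, nat_lit 0, nat_lit 0, nat_lit 0, nat_lit 147, nat_lit 1000000, nat_lit 0, nat_lit 0, [(nat_lit 6, [(nat_lit 6, nat_lit 1000)])],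
 ⟨p031_k23, nat_lit 0, nat_lit 0, nat_lit 220, nat_lit 0, nat_lit 244320, [nat_lit 3329066667, nat_lit 3042400001, nat_lit 177599999], [], [nat_lit 13904094896, nat_lit 14463601929, nat_lit 13293913228, nat_lit 13797664528, nat_lit 15455480153, nat_lit 15969852360, nat_lit 14704723328, nat_lit 15168823608], nat_lit 1271250, nat_lit 1271250, nat_lit 65850, nat_lit 780000, nat_lit 1271250, nat_lit 1271250, [nat_lit 1100000, nat_lit 1442500, nat_lit 1271250], [nat_lit 11, nat_lit 40, nat_lit 20, nat_lit 80, nat_lit 1, nat_lit 401, nat_lit 175, nat_lit 11]⟩, ⟨p031_k24, nat_lit 0, nat_lit 0, nat_lit 522, nat_lit 0, nat_lit 291870, [nat_lit 0, nat_lit 0, nat_lit 0], [], [nat_lit 0, nat_lit 0, nat_lit 0, nat_lit 0, nat_lit 0, nat_lit 0, nat_lit 0, nat_lit 0], nat_lit 1271250, nat_lit 1271250, nat_lit 65850, nat_lit 780000, nat_lit 0, nat_lit 2147000, [nat_lit 1412500, nat_lit 1271250, nat_lit 1271250], [nat_lit 53, nat_lit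 40, nat_lit 20, nat_lit 80, nat_lit 14, nat_lit 401, nat_lit 175, nat_lit 11]⟩,
 ⟨nat_lit 5916, nat_lit 6124, ⟨.ofNat (nat_lit 143557), .ofNat (nat_lit 360585), .ofNat (nat_lit 154231), .ofNat (nat_lit 371259), .ofNat (nat_lit 152230), .ofNat (nat_lit 364271), .ofNat (nat_lit 162900), .ofNat (nat_lit 374940)⟩, ⟨.ofNat (nat_lit 307865), .ofNat (nat_lit 388246), .ofNat (nat_lit 329214), .ofNat (nat_lit 409594), .ofNat (nat_lit 307945), .ofNat (nat_lit 386479), .ofNat (nat_lit 329284), .ofNat (nat_lit 407818)⟩⟩, [⟨nat_lit 0, nat_lit 100, nat_lit 96, nat_lit 44, nat_lit 143618650⟩, ⟨nat_lit 4, nat_lit 100, nat_lit 100, nat_lit 55, nat_lit 249141380⟩]⟩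
noncomputable def p031_l45 : Lf2 := ⟨nat_lit 0, nat_lit 8, [nat_lit 50, nat_lit 5, nat_lit 5, nat_lit 20], false, nat_lit 200, nat_lit 240, nat_lit 0, nat_lit 296, ⟨nat_lit 0, nat_lit 0, nat_lit 1000, nat_lit 5, nat_lit 110, nat_lit 1000, nat_lit 143, nat_lit 1000, nat_lit 194400, nat_lit 323, nat_lit 114817, nat_lit 298, nat_lit 53786083, nat_lit 0, nat_lit 0, nat_lit 3350018, false, false⟩,
 nat_lit 0, nat_lit 7556, nat_lit 0, nat_lit 0, nat_lit 4197, nat_lit 0, nat_lit 339, nat_lit 0, nat_lit 0, nat_lit 0, nat_lit 0, nat_lit 0, nat_lit 0, nat_lit 0, nat_lit 147, nat_lit 1000000, nat_lit 0, nat_lit 0, [(nat_lit 6, [(nat_lit 6, nat_lit 1000)])],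
 ⟨p031_k23, nat_lit 0, nat_lit 0, nat_lit 284, nat_lit 0, nat_lit 286575, [nat_lit 3329066667, nat_lit 3042400001, nat_lit 177599999], [], [nat_lit 13654165982, nat_lit 14215085451, nat_lit 13185741408, nat_lit 13691343355, nat_lit 15208672974, nat_lit 15724274494, nat_lit 14599597440, nat_lit 15065289016], nat_lit 1271250, nat_lit 1271250, nat_lit 88400, nat_lit 780000, nat_lit 1271250, nat_lit 1271250, [nat_lit 1100000, nat_lit 1442500, nat_lit 1271250], [nat_lit 11, nat_lit 40, nat_lit 20, nat_lit 80, nat_lit 1, nat_lit 401, nat_lit 175, nat_lit 11]⟩, ⟨p031_k25, nat_lit 0, nat_lit 0, nat_lit 527, nat_lit 0, nat_lit 321828, [nat_lit 0, nat_lit 0, nat_lit 0], [], [nat_lit 0, nat_lit 0, nat_lit 0, nat_lit 0, nat_lit 0, nat_lit 0, nat_lit 0, nat_lit 0], nat_lit 1271250, nat_lit 1271250, nat_lit 88400, nat_lit 780000, nat_lit 0, nat_lit 2090500, [nat_lit 1412500, nat_lit 1271250, nat_lit 1271250], [nat_lit 53, nat_lit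 40, nat_lit 20, nat_lit 80, nat_lit 14, nat_lit 401, nat_lit 175, nat_lit 11]⟩,
 ⟨nat_lit 5916, nat_lit 6124, ⟨.ofNat (nat_lit 162269), .ofNat (nat_lit 371259), .ofNat (nat_lit 172944), .ofNat (nat_lit 381933), .ofNat (nat_lit 170753), .ofNat (nat_lit 374940), .ofNat (nat_lit 181423), .ofNat (nat_lit 385610)⟩, ⟨.ofNat (nat_lit 307865), .ofNat (nat_lit 388246), .ofNat (nat_lit 329214), .ofNat (nat_lit 409594), .ofNat (nat_lit 307945), .ofNat (nat_lit 386479), .ofNat (nat_lit 329284), .ofNat (nat_lit 407818)⟩⟩, [⟨nat_lit 0, nat_lit 100, nat_lit 98, nat_lit 45, nat_lit 42811785⟩, ⟨nat_lit 0, nat_lit 100, nat_lit 97, nat_lit 49, nat_lit 96930918⟩, ⟨nat_lit 4, nat_lit 100, nat_lit 100, nat_lit 55, nat_lit 248748211⟩]⟩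
noncomputable def b_VL_600_500_5_23 : St := ⟨true, nat_lit 1, nat_lit 1, nat_lit 1, nat_lit 40, nat_lit 240, nat_lit 260, nat_lit 200, nat_lit 240, nat_lit 4, nat_lit 120, nat_lit 20, nat_lit 40, nat_lit 200, nat_lit 240, nat_lit 0, nat_lit 320, nat_lit 0, nat_lit 32, nat_lit 0, nat_lit 0, nat_lit 0, nat_lit 0⟩
theorem d_VL_600_500_5_23 (h : EB TB.env) : Dead b_VL_600_500_5_23 := chkB_sound0 h (T :=
(.spl (nat_lit 0) (nat_lit 250)
(.spl (nat_lit 6) (nat_lit 24)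
(.spl (nat_lit 6) (nat_lit 16)
(.spl (nat_lit 2) (nat_lit 80)
(.leaf p031_l39)
(.leaf p031_l40))
(.leaf p031_l41))
(.leaf p031_l42))
(.spl (nat_lit 1) (nat_lit 220)
(.leaf p031_l43)
(.trZ (nat_lit 0) (nat_lit 100) (nat_lit 97) (nat_lit 35) (nat_lit 12) (.trX (nat_lit 19) (nat_lit 100) (nat_lit 86) (nat_lit 60) (nat_lit 304) (.spl (nat_lit 1) (nat_lit 230)
(.leaf p031_l44)
(.trZ (nat_lit 0) (nat_lit 100) (nat_lit 98) (nat_lit 40) (nat_lit 16) (.trX (nat_lit 19) (nat_lit 100) (nat_lit 89) (nat_lit 61) (nat_lit 296) (.leaf p031_l45))))))))) (by decide +kernel)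
noncomputable def p031_l46 : Lf2 := ⟨nat_lit 0, nat_lit 5, [nat_lit 4, nat_lit 5, nat_lit 5, nat_lit 20], true, nat_lit 160, nat_lit 200, nat_lit 0, nat_lit 320, ⟨nat_lit 0, nat_lit 0, nat_lit 1000, nat_lit 5, nat_lit 83, nat_lit 1000, nat_lit 112, nat_lit 1000, nat_lit 117600, nat_lit 299, nat_lit 64067, nat_lit 277, nat_lit 58357946, nat_lit 0, nat_lit 0, nat_lit 2489754, false, false⟩,
 nat_lit 0, nat_lit 7288, nat_lit 0, nat_lit 0, nat_lit 4242, nat_lit 0, nat_lit 0, nat_lit 0, nat_lit 0, nat_lit 0, nat_lit 0, nat_lit 0, nat_lit 0, nat_lit 0, nat_lit 117, nat_lit 1000000, nat_lit 0, nat_lit 0, [(nat_lit 9, [(nat_lit 6, nat_lit 1000)])],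
 ⟨p031_k2, nat_lit 0, nat_lit 0, nat_lit 194, nat_lit 0, nat_lit 242080, [nat_lit 2969600000, nat_lit 1600000000, nat_lit 226400000], [], [nat_lit 12761916729, nat_lit 13421177147, nat_lit 11702080752, nat_lit 12323830376, nat_lit 14405426151, nat_lit 15014591899, nat_lit 13272790170, nat_lit 13848027517], nat_lit 1271250, nat_lit 1271250, nat_lit 43600, nat_lit 490000, nat_lit 1100001, nat_lit 1442500, [nat_lit 1100000, nat_lit 1442500, nat_lit 1271250], [nat_lit 9, nat_lit 40, nat_lit 20, nat_lit 80, nat_lit 2, nat_lit 289, nat_lit 75, nat_lit 9]⟩, C1.Rw.none,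
 ⟨nat_lit 5700, nat_lit 5917, ⟨.ofNat (nat_lit 123037), .ofNat (nat_lit 264398), .ofNat (nat_lit 144377), .ofNat (nat_lit 285737), .ofNat (nat_lit 131747), .ofNat (nat_lit 269841), .ofNat (nat_lit 153089), .ofNat (nat_lit 291183)⟩, ⟨.ofNat (nat_lit 229411), .ofNat (nat_lit 307945), .ofNat (nat_lit 250751), .ofNat (nat_lit 329284), .ofNat (nat_lit 231202), .ofNat (nat_lit 307921), .ofNat (nat_lit 252544), .ofNat (nat_lit 329263)⟩⟩, [⟨nat_lit 0, nat_lit 100, nat_lit 94, nat_lit 44, nat_lit 188086405⟩]⟩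
noncomputable def p031_l47 : Lf2 := ⟨nat_lit 0, nat_lit 5, [nat_lit 4, nat_lit 5, nat_lit 5, nat_lit 20], true, nat_lit 160, nat_lit 200, nat_lit 0, nat_lit 320, ⟨nat_lit 0, nat_lit 0, nat_lit 1000, nat_lit 5, nat_lit 87, nat_lit 1000, nat_lit 112, nat_lit 1000, nat_lit 117600, nat_lit 299, nat_lit 72600, nat_lit 281, nat_lit 58031338, nat_lit 0, nat_lit 0, nat_lit 2563283, false, false⟩,
 nat_lit 0, nat_lit 6870, nat_lit 0, nat_lit 0, nat_lit 4183, nat_lit 0, nat_lit 0, nat_lit 0, nat_lit 0, nat_lit 0, nat_lit 0, nat_lit 0, nat_lit 0, nat_lit 0, nat_lit 117, nat_lit 1000000, nat_lit 0, nat_lit 0, [(nat_lit 9, [(nat_lit 6, nat_lit 1000)])],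
 ⟨p031_k26, nat_lit 0, nat_lit 0, nat_lit 205, nat_lit 0, nat_lit 285030, [nat_lit 2969600000, nat_lit 1600000000, nat_lit 226400000], [], [nat_lit 13347891510, nat_lit 14001709549, nat_lit 12450071024, nat_lit 13067710000, nat_lit 14934437154, nat_lit 15538804768, nat_lit 13968453096, nat_lit 14540061736], nat_lit 1271250, nat_lit 1271250, nat_lit 65850, nat_lit 490000, nat_lit 1100001, nat_lit 1442500, [nat_lit 1100000, nat_lit 1442500, nat_lit 1271250], [nat_lit 9, nat_lit 40, nat_lit 20, nat_lit 80, nat_lit 2, nat_lit 289, nat_lit 75, nat_lit 9]⟩, C1.Rw.none,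
 ⟨nat_lit 5477, nat_lit 5701, ⟨.ofNat (nat_lit 139419), .ofNat (nat_lit 269841), .ofNat (nat_lit 160761), .ofNat (nat_lit 291183), .ofNat (nat_lit 147813), .ofNat (nat_lit 275199), .ofNat (nat_lit 169170), .ofNat (nat_lit 296556)⟩, ⟨.ofNat (nat_lit 231202), .ofNat (nat_lit 307921), .ofNat (nat_lit 252544), .ofNat (nat_lit 329263), .ofNat (nat_lit 232852), .ofNat (nat_lit 307785), .ofNat (nat_lit 254209), .ofNat (nat_lit 329142)⟩⟩, [⟨nat_lit 0, nat_lit 100, nat_lit 92, nat_lit 49, nat_lit 180813699⟩]⟩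
noncomputable def p031_l48 : Lf2 := ⟨nat_lit 0, nat_lit 5, [nat_lit 4, nat_lit 5, nat_lit 5, nat_lit 20], false, nat_lit 160, nat_lit 200, nat_lit 0, nat_lit 320, ⟨nat_lit 0, nat_lit 0, nat_lit 1000, nat_lit 5, nat_lit 128, nat_lit 1000, nat_lit 112, nat_lit 1000, nat_lit 117600, nat_lit 299, nat_lit 153600, nat_lit 311, nat_lit 54968656, nat_lit 0, nat_lit 0, nat_lit 3162991, false, false⟩,
 nat_lit 0, nat_lit 8071, nat_lit 0, nat_lit 0, nat_lit 4697, nat_lit 0, nat_lit 631, nat_lit 0, nat_lit 0, nat_lit 0, nat_lit 0, nat_lit 0, nat_lit 0, nat_lit 0, nat_lit 117, nat_lit 1000000, nat_lit 0, nat_lit 0, [(nat_lit 9, [(nat_lit 6, nat_lit 1000)])],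
 ⟨p031_k2, nat_lit 0, nat_lit 0, nat_lit 163, nat_lit 0, nat_lit 300150, [nat_lit 2969600000, nat_lit 1600000000, nat_lit 226400000], [], [nat_lit 10696829232, nat_lit 12003730000, nat_lit 11080201550, nat_lit 12319710060, nat_lit 12316100345, nat_lit 13522543224, nat_lit 13284819723, nat_lit 13762209318], nat_lit 1271250, nat_lit 1271250, nat_lit 490000, nat_lit 780000, nat_lit 1100001, nat_lit 1442500, [nat_lit 1100000, nat_lit 1442500, nat_lit 1271250], [nat_lit 9, nat_lit 40, nat_lit 20, nat_lit 80, nat_lit 2, nat_lit 317, nat_lit 100, nat_lit 10]⟩, ⟨p031_k1, nat_lit 0, nat_lit 0, nat_lit 522, nat_lit 0, nat_lit 429179, [nat_lit 0, nat_lit 0, nat_lit 0], [], [nat_lit 0, nat_lit 0, nat_lit 0, nat_lit 0, nat_lit 0, nat_lit 0, nat_lit 0, nat_lit 0], nat_lit 1271250, nat_lit 1271250, nat_lit 490000, nat_lit 780000, nat_lit 0, nat_lit 2260000, [nat_lit 1412500, nat_lit 1271250, nat_lit 1271250], [nat_lit 53, nat_lit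 40, nat_lit 20, nat_lit 80, nat_lit 14, nat_lit 401, nat_lit 175, nat_lit 11]⟩,
 ⟨nat_lit 5477, nat_lit 5917, ⟨.ofNat (nat_lit 264398), .ofNat (nat_lit 342931), .ofNat (nat_lit 285737), .ofNat (nat_lit 364271), .ofNat (nat_lit 275199), .ofNat (nat_lit 350132), .ofNat (nat_lit 296556), .ofNat (nat_lit 371489)⟩, ⟨.ofNat (nat_lit 229411), .ofNat (nat_lit 307945), .ofNat (nat_lit 250751), .ofNat (nat_lit 329284), .ofNat (nat_lit 232852), .ofNat (nat_lit 307785), .ofNat (nat_lit 254209), .ofNat (nat_lit 329142)⟩⟩, []⟩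
noncomputable def p031_l49 : Lf2 := ⟨nat_lit 0, nat_lit 10, [nat_lit 0, nat_lit 5, nat_lit 5, nat_lit 20], true, nat_lit 160, nat_lit 200, nat_lit 0, nat_lit 320, ⟨nat_lit 0, nat_lit 0, nat_lit 1000, nat_lit 5, nat_lit 100, nat_lit 1000, nat_lit 112, nat_lit 1000, nat_lit 117600, nat_lit 299, nat_lit 93750, nat_lit 290, nat_lit 57146159, nat_lit 0, nat_lit 0, nat_lit 2754163, false, false⟩,
 nat_lit 0, nat_lit 7456, nat_lit 0, nat_lit 0, nat_lit 4340, nat_lit 0, nat_lit 0, nat_lit 0, nat_lit 0, nat_lit 0, nat_lit 0, nat_lit 0, nat_lit 0, nat_lit 0, nat_lit 138, nat_lit 692800, nat_lit 0, nat_lit 0, [(nat_lit 9, [(nat_lit 5, nat_lit 512), (nat_lit 6, nat_lit 488)])],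
 ⟨p031_k10, nat_lit 0, nat_lit 0, nat_lit 214, nat_lit 0, nat_lit 202440, [nat_lit 3525145601, nat_lit 2483568001, nat_lit 89295999], [], [nat_lit 13405301193, nat_lit 14598789471, nat_lit 12347836202, nat_lit 13541352402, nat_lit 14800035847, nat_lit 15925534346, nat_lit 15157451162, nat_lit 14955465162], nat_lit 1271250, nat_lit 1271250, nat_lit 43600, nat_lit 780000, nat_lit 1100001, nat_lit 1442500, [nat_lit 1100000, nat_lit 1442500, nat_lit 1271250], [nat_lit 11, nat_lit 40, nat_lit 20, nat_lit 80, nat_lit 1, nat_lit 373, nat_lit 150, nat_lit 11]⟩, C1.Rw.none,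
 ⟨nat_lit 5477, nat_lit 5917, ⟨.ofNat (nat_lit 123037), .ofNat (nat_lit 342931), .ofNat (nat_lit 144377), .ofNat (nat_lit 364271), .ofNat (nat_lit 140320), .ofNat (nat_lit 350132), .ofNat (nat_lit 161677), .ofNat (nat_lit 371489)⟩, ⟨.ofNat (nat_lit 229411), .ofNat (nat_lit 307945), .ofNat (nat_lit 250751), .ofNat (nat_lit 329284), .ofNat (nat_lit 232852), .ofNat (nat_lit 307785), .ofNat (nat_lit 254209), .ofNat (nat_lit 329142)⟩⟩, [⟨nat_lit 0, nat_lit 100, nat_lit 92, nat_lit 49, nat_lit 149508601⟩]⟩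
noncomputable def p031_l50 : Lf2 := ⟨nat_lit 0, nat_lit 10, [nat_lit 0, nat_lit 5, nat_lit 5, nat_lit 20], false, nat_lit 200, nat_lit 240, nat_lit 0, nat_lit 320, ⟨nat_lit 0, nat_lit 0, nat_lit 1000, nat_lit 5, nat_lit 100, nat_lit 1000, nat_lit 143, nat_lit 1000, nat_lit 190817, nat_lit 322, nat_lit 93750, nat_lit 290, nat_lit 54570982, nat_lit 0, nat_lit 0, nat_lit 3195839, false, false⟩,
 nat_lit 0, nat_lit 7146, nat_lit 0, nat_lit 0, nat_lit 4159, nat_lit 0, nat_lit 120, nat_lit 0, nat_lit 0, nat_lit 0, nat_lit 0, nat_lit 0, nat_lit 0, nat_lit 0, nat_lit 192, nat_lit 1000000, nat_lit 0, nat_lit 0, [(nat_lit 9, [(nat_lit 6, nat_lit 1000)])],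
 ⟨p031_k10, nat_lit 0, nat_lit 0, nat_lit 311, nat_lit 0, nat_lit 321763, [nat_lit 4169600001, nat_lit 3411333334, nat_lit 231866666], [], [nat_lit 15431559024, nat_lit 16447114284, nat_lit 19386320417, nat_lit 17452431166, nat_lit 16821491337, nat_lit 17757148543, nat_lit 16127916553, nat_lit 16967434179], nat_lit 1271250, nat_lit 1271250, nat_lit 43600, nat_lit 780000, nat_lit 1271250, nat_lit 1271250, [nat_lit 1100000, nat_lit 1442500, nat_lit 1271250], [nat_lit 11, nat_lit 40, nat_lit 20, nat_lit 80, nat_lit 1, nat_lit 401, nat_lit 175, nat_lit 11]⟩, ⟨p031_k6, nat_lit 0, nat_lit 0, nat_lit 594, nat_lit 0, nat_lit 465705, [nat_lit 0, nat_lit 0, nat_lit 0], [], [nat_lit 0, nat_lit 0, nat_lit 0, nat_lit 0, nat_lit 0, nat_lit 0, nat_lit 0, nat_lit 0], nat_lit 1271250, nat_lit 1271250, nat_lit 43600, nat_lit 780000, nat_lit 0, nat_lit 2260000, [nat_lit 1412500, nat_lit 1271250, nat_lit 1271250], [nat_lit 53, nat_lit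 40, nat_lit 20, nat_lit 80, nat_lit 14, nat_lit 401, nat_lit 175, nat_lit 11]⟩,
 ⟨nat_lit 5477, nat_lit 5917, ⟨.ofNat (nat_lit 123037), .ofNat (nat_lit 342931), .ofNat (nat_lit 144377), .ofNat (nat_lit 364271), .ofNat (nat_lit 140320), .ofNat (nat_lit 350132), .ofNat (nat_lit 161677), .ofNat (nat_lit 371489)⟩, ⟨.ofNat (nat_lit 307945), .ofNat (nat_lit 386479), .ofNat (nat_lit 329284), .ofNat (nat_lit 407818), .ofNat (nat_lit 307785), .ofNat (nat_lit 382718), .ofNat (nat_lit 329142), .ofNat (nat_lit 404075)⟩⟩, [⟨nat_lit 4, nat_lit 100, nat_lit 96, nat_lit 54, nat_lit 67209062⟩]⟩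
noncomputable def p031_l51 : Lf2 := ⟨nat_lit 0, nat_lit 2, [nat_lit 10, nat_lit 5, nat_lit 5, nat_lit 20], true, nat_lit 160, nat_lit 200, nat_lit 0, nat_lit 304, ⟨nat_lit 0, nat_lit 0, nat_lit 1000, nat_lit 5, nat_lit 96, nat_lit 1000, nat_lit 112, nat_lit 1000, nat_lit 117600, nat_lit 299, nat_lit 86400, nat_lit 287, nat_lit 57422748, nat_lit 0, nat_lit 0, nat_lit 2696368, false, false⟩,
 nat_lit 0, nat_lit 7275, nat_lit 0, nat_lit 0, nat_lit 4234, nat_lit 0, nat_lit 0, nat_lit 0, nat_lit 0, nat_lit 0, nat_lit 0, nat_lit 0, nat_lit 0, nat_lit 0, nat_lit 37, nat_lit 1000000, nat_lit 0, nat_lit 0, [(nat_lit 9, [(nat_lit 6, nat_lit 1000)])],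
 ⟨p031_k9, nat_lit 0, nat_lit 0, nat_lit 199, nat_lit 0, nat_lit 349891, [nat_lit 1689600001, nat_lit 0], [], [nat_lit 12439415667, nat_lit 13752750598, nat_lit 11719755506, nat_lit 12962140002, nat_lit 14080609508, nat_lit 15294397619, nat_lit 13289611092, nat_lit 14439101730], nat_lit 1271250, nat_lit 1271250, nat_lit 88400, nat_lit 490000, nat_lit 1100001, nat_lit 1442500, [nat_lit 1100000, nat_lit 1442500], [nat_lit 31, nat_lit 40, nat_lit 20, nat_lit 80, nat_lit 3, nat_lit 289, nat_lit 75, nat_lit 11]⟩, C1.Rw.none,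
 ⟨nat_lit 5477, nat_lit 5917, ⟨.ofNat (nat_lit 160083), .ofNat (nat_lit 285737), .ofNat (nat_lit 181423), .ofNat (nat_lit 307076), .ofNat (nat_lit 176664), .ofNat (nat_lit 296556), .ofNat (nat_lit 198021), .ofNat (nat_lit 317913)⟩, ⟨.ofNat (nat_lit 229411), .ofNat (nat_lit 307945), .ofNat (nat_lit 250751), .ofNat (nat_lit 329284), .ofNat (nat_lit 232852), .ofNat (nat_lit 307785), .ofNat (nat_lit 254209), .ofNat (nat_lit 329142)⟩⟩, [⟨nat_lit 0, nat_lit 100, nat_lit 94, nat_lit 59, nat_lit 174991361⟩]⟩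
noncomputable def p031_l52 : Lf2 := ⟨nat_lit 0, nat_lit 5, [nat_lit 4, nat_lit 5, nat_lit 5, nat_lit 20], true, nat_lit 160, nat_lit 200, nat_lit 0, nat_lit 304, ⟨nat_lit 0, nat_lit 0, nat_lit 1000, nat_lit 5, nat_lit 95, nat_lit 1000, nat_lit 112, nat_lit 1000, nat_lit 117600, nat_lit 299, nat_lit 84017, nat_lit 286, nat_lit 57534548, nat_lit 0, nat_lit 0, nat_lit 2672860, false, false⟩,
 nat_lit 0, nat_lit 7468, nat_lit 0, nat_lit 0, nat_lit 4347, nat_lit 0, nat_lit 0, nat_lit 0, nat_lit 0, nat_lit 0, nat_lit 0, nat_lit 0, nat_lit 0, nat_lit 0, nat_lit 117, nat_lit 1000000, nat_lit 0, nat_lit 0, [(nat_lit 9, [(nat_lit 6, nat_lit 1000)])],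
 ⟨p031_k2, nat_lit 0, nat_lit 0, nat_lit 189, nat_lit 0, nat_lit 226548, [nat_lit 2969600000, nat_lit 1600000000, nat_lit 226400000], [], [nat_lit 12241179312, nat_lit 12906350977, nat_lit 11470099632, nat_lit 12099164816, nat_lit 13895450847, nat_lit 14509858126, nat_lit 13052015595, nat_lit 13633710810], nat_lit 1271250, nat_lit 1271250, nat_lit 88400, nat_lit 490000, nat_lit 1100001, nat_lit 1442500, [nat_lit 1100000, nat_lit 1442500, nat_lit 1271250], [nat_lit 9, nat_lit 40, nat_lit 20, nat_lit 80, nat_lit 2, nat_lit 289, nat_lit 75, nat_lit 9]⟩, C1.Rw.none,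
 ⟨nat_lit 5700, nat_lit 5917, ⟨.ofNat (nat_lit 160083), .ofNat (nat_lit 285737), .ofNat (nat_lit 181423), .ofNat (nat_lit 307076), .ofNat (nat_lit 168433), .ofNat (nat_lit 291183), .ofNat (nat_lit 189775), .ofNat (nat_lit 312525)⟩, ⟨.ofNat (nat_lit 229411), .ofNat (nat_lit 307945), .ofNat (nat_lit 250751), .ofNat (nat_lit 329284), .ofNat (nat_lit 231202), .ofNat (nat_lit 307921), .ofNat (nat_lit 252544), .ofNat (nat_lit 329263)⟩⟩, [⟨nat_lit 0, nat_lit 100, nat_lit 96, nat_lit 54, nat_lit 177774032⟩]⟩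
noncomputable def p031_l53 : Lf2 := ⟨nat_lit 0, nat_lit 5, [nat_lit 4, nat_lit 5, nat_lit 5, nat_lit 20], true, nat_lit 160, nat_lit 200, nat_lit 0, nat_lit 304, ⟨nat_lit 0, nat_lit 0, nat_lit 1000, nat_lit 5, nat_lit 99, nat_lit 1000, nat_lit 112, nat_lit 1000, nat_lit 117600, nat_lit 299, nat_lit 91267, nat_lit 289, nat_lit 57194749, nat_lit 0, nat_lit 0, nat_lit 2743878, false, false⟩,
 nat_lit 0, nat_lit 7038, nat_lit 0, nat_lit 0, nat_lit 4286, nat_lit 0, nat_lit 0, nat_lit 0, nat_lit 0, nat_lit 0, nat_lit 0, nat_lit 0, nat_lit 0, nat_lit 0, nat_lit 117, nat_lit 1000000, nat_lit 0, nat_lit 0, [(nat_lit 9, [(nat_lit 6, nat_lit 1000)])],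
 ⟨p031_k26, nat_lit 0, nat_lit 0, nat_lit 187, nat_lit 0, nat_lit 266613, [nat_lit 2969600000, nat_lit 1600000000, nat_lit 226400000], [], [nat_lit 12837208042, nat_lit 13496788512, nat_lit 12229684808, nat_lit 12854500000, nat_lit 14433629370, nat_lit 15043106912, nat_lit 13758218611, nat_lit 14336162112], nat_lit 1271250, nat_lit 1271250, nat_lit 111251, nat_lit 490000, nat_lit 1100001, nat_lit 1442500, [nat_lit 1100000, nat_lit 1442500, nat_lit 1271250], [nat_lit 9, nat_lit 40, nat_lit 20, nat_lit 80, nat_lit 2, nat_lit 289, nat_lit 75, nat_lit 9]⟩, C1.Rw.none,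
 ⟨nat_lit 5477, nat_lit 5701, ⟨.ofNat (nat_lit 176105), .ofNat (nat_lit 291183), .ofNat (nat_lit 197447), .ofNat (nat_lit 312525), .ofNat (nat_lit 184157), .ofNat (nat_lit 296556), .ofNat (nat_lit 205514), .ofNat (nat_lit 317913)⟩, ⟨.ofNat (nat_lit 231202), .ofNat (nat_lit 307921), .ofNat (nat_lit 252544), .ofNat (nat_lit 329263), .ofNat (nat_lit 232852), .ofNat (nat_lit 307785), .ofNat (nat_lit 254209), .ofNat (nat_lit 329142)⟩⟩, [⟨nat_lit 0, nat_lit 100, nat_lit 94, nat_lit 59, nat_lit 167725342⟩]⟩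
noncomputable def p031_l54 : Lf2 := ⟨nat_lit 0, nat_lit 5, [nat_lit 4, nat_lit 5, nat_lit 5, nat_lit 20], false, nat_lit 160, nat_lit 200, nat_lit 0, nat_lit 304, ⟨nat_lit 0, nat_lit 0, nat_lit 1000, nat_lit 5, nat_lit 135, nat_lit 1000, nat_lit 112, nat_lit 1000, nat_lit 117600, nat_lit 299, nat_lit 170017, nat_lit 316, nat_lit 54342289, nat_lit 0, nat_lit 0, nat_lit 3266987, false, false⟩,
 nat_lit 0, nat_lit 8301, nat_lit 0, nat_lit 0, nat_lit 4831, nat_lit 0, nat_lit 733, nat_lit 0, nat_lit 0, nat_lit 0, nat_lit 0, nat_lit 0, nat_lit 0, nat_lit 0, nat_lit 117, nat_lit 1000000, nat_lit 0, nat_lit 0, [(nat_lit 9, [(nat_lit 6, nat_lit 1000)])],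
 ⟨p031_k2, nat_lit 0, nat_lit 0, nat_lit 164, nat_lit 0, nat_lit 311563, [nat_lit 2969600000, nat_lit 1600000000, nat_lit 226400000], [], [nat_lit 10400777136, nat_lit 11063563568, nat_lit 10769207650, nat_lit 11397593515, nat_lit 12034349935, nat_lit 12645812844, nat_lit 12950003329, nat_lit 12899065666], nat_lit 1271250, nat_lit 1271250, nat_lit 490000, nat_lit 780000, nat_lit 1100001, nat_lit 1442500, [nat_lit 1100000, nat_lit 1442500, nat_lit 1271250], [nat_lit 9, nat_lit 40, nat_lit 20, nat_lit 80, nat_lit 2, nat_lit 317, nat_lit 100, nat_lit 10]⟩, ⟨p031_k3, nat_lit 0, nat_lit 0, nat_lit 388, nat_lit 0, nat_lit 391289, [nat_lit 0, nat_lit 0, nat_lit 0], [], [nat_lit 0, nat_lit 0, nat_lit 0, nat_lit 0, nat_lit 0, nat_lit 0, nat_lit 0, nat_lit 0], nat_lit 1271250, nat_lit 1271250, nat_lit 490000, nat_lit 780000, nat_lit 0, nat_lit 2147000, [nat_lit 1412500, nat_lit 1271250, nat_lit 1271250], [nat_lit 25, nat_lit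 40, nat_lit 20, nat_lit 80, nat_lit 17, nat_lit 401, nat_lit 175, nat_lit 12]⟩,
 ⟨nat_lit 5700, nat_lit 5917, ⟨.ofNat (nat_lit 285737), .ofNat (nat_lit 364271), .ofNat (nat_lit 307076), .ofNat (nat_lit 385610), .ofNat (nat_lit 291183), .ofNat (nat_lit 367902), .ofNat (nat_lit 312525), .ofNat (nat_lit 389244)⟩, ⟨.ofNat (nat_lit 229411), .ofNat (nat_lit 307945), .ofNat (nat_lit 250751), .ofNat (nat_lit 329284), .ofNat (nat_lit 231202), .ofNat (nat_lit 307921), .ofNat (nat_lit 252544), .ofNat (nat_lit 329263)⟩⟩, []⟩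
noncomputable def p031_l55 : Lf2 := ⟨nat_lit 0, nat_lit 5, [nat_lit 4, nat_lit 5, nat_lit 5, nat_lit 20], false, nat_lit 160, nat_lit 200, nat_lit 0, nat_lit 304, ⟨nat_lit 0, nat_lit 0, nat_lit 1000, nat_lit 5, nat_lit 137, nat_lit 1000, nat_lit 112, nat_lit 1000, nat_lit 117600, nat_lit 299, nat_lit 176817, nat_lit 318, nat_lit 54164780, nat_lit 0, nat_lit 0, nat_lit 3296296, false, false⟩,
 nat_lit 0, nat_lit 7714, nat_lit 0, nat_lit 0, nat_lit 4697, nat_lit 0, nat_lit 0, nat_lit 0, nat_lit 0, nat_lit 591, nat_lit 0, nat_lit 0, nat_lit 0, nat_lit 0, nat_lit 117, nat_lit 1000000, nat_lit 0, nat_lit 0, [(nat_lit 9, [(nat_lit 6, nat_lit 1000)])],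
 ⟨p031_k26, nat_lit 0, nat_lit 0, nat_lit 172, nat_lit 0, nat_lit 347269, [nat_lit 2969600000, nat_lit 1600000000, nat_lit 226400000], [], [nat_lit 11350279616, nat_lit 12003730000, nat_lit 11699955805, nat_lit 12319710060, nat_lit 12919321785, nat_lit 13522543224, nat_lit 13189745099, nat_lit 13762209318], nat_lit 1271250, nat_lit 1271250, nat_lit 490000, nat_lit 780000, nat_lit 1100001, nat_lit 1442500, [nat_lit 1100000, nat_lit 1442500, nat_lit 1271250], [nat_lit 9, nat_lit 40, nat_lit 20, nat_lit 80, nat_lit 2, nat_lit 317, nat_lit 100, nat_lit 10]⟩, ⟨p031_k3, nat_lit 0, nat_lit 0, nat_lit 447, nat_lit 0, nat_lit 459268, [nat_lit 0, nat_lit 0, nat_lit 0], [], [nat_lit 0, nat_lit 0, nat_lit 0, nat_lit 0, nat_lit 0, nat_lit 0, nat_lit 0, nat_lit 0], nat_lit 1271250, nat_lit 1271250, nat_lit 490000, nat_lit 780000, nat_lit 0, nat_lit 2147000, [nat_lit 1412500, nat_lit 1271250, nat_lit 1271250], [nat_lit 25, nat_lit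 40, nat_lit 20, nat_lit 80, nat_lit 17, nat_lit 401, nat_lit 175, nat_lit 12]⟩,
 ⟨nat_lit 5477, nat_lit 5701, ⟨.ofNat (nat_lit 291183), .ofNat (nat_lit 367902), .ofNat (nat_lit 312525), .ofNat (nat_lit 389244), .ofNat (nat_lit 296556), .ofNat (nat_lit 371489), .ofNat (nat_lit 317913), .ofNat (nat_lit 392847)⟩, ⟨.ofNat (nat_lit 231202), .ofNat (nat_lit 307921), .ofNat (nat_lit 252544), .ofNat (nat_lit 329263), .ofNat (nat_lit 232852), .ofNat (nat_lit 307785), .ofNat (nat_lit 254209), .ofNat (nat_lit 329142)⟩⟩, []⟩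
noncomputable def p031_l56 : Lf2 := ⟨nat_lit 0, nat_lit 5, [nat_lit 4, nat_lit 5, nat_lit 5, nat_lit 20], false, nat_lit 200, nat_lit 240, nat_lit 0, nat_lit 304, ⟨nat_lit 0, nat_lit 0, nat_lit 1000, nat_lit 5, nat_lit 110, nat_lit 1000, nat_lit 143, nat_lit 1000, nat_lit 190817, nat_lit 322, nat_lit 114817, nat_lit 298, nat_lit 53796018, nat_lit 0, nat_lit 0, nat_lit 3349299, false, false⟩,
 nat_lit 0, nat_lit 7114, nat_lit 0, nat_lit 0, nat_lit 4140, nat_lit 0, nat_lit 0, nat_lit 0, nat_lit 0, nat_lit 0, nat_lit 0, nat_lit 0, nat_lit 0, nat_lit 0, nat_lit 117, nat_lit 1000000, nat_lit 0, nat_lit 0, [(nat_lit 9, [(nat_lit 6, nat_lit 1000)])],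
 ⟨p031_k2, nat_lit 0, nat_lit 0, nat_lit 211, nat_lit 0, nat_lit 311563, [nat_lit 2969600000, nat_lit 1600000000, nat_lit 226400000], [], [nat_lit 14234635293, nat_lit 14835279411, nat_lit 13857158980, nat_lit 14398017070, nat_lit 15864950345, nat_lit 16447829237, nat_lit 15341402960, nat_lit 15839244040], nat_lit 1271250, nat_lit 1271250, nat_lit 88400, nat_lit 780000, nat_lit 1271250, nat_lit 1271250, [nat_lit 1100000, nat_lit 1442500, nat_lit 1271250], [nat_lit 9, nat_lit 40, nat_lit 20, nat_lit 80, nat_lit 2, nat_lit 317, nat_lit 100, nat_lit 10]⟩, ⟨p031_k3, nat_lit 0, nat_lit 0, nat_lit 472, nat_lit 0, nat_lit 391289, [nat_lit 0, nat_lit 0, nat_lit 0], [], [nat_lit 0, nat_lit 0, nat_lit 0, nat_lit 0, nat_lit 0, nat_lit 0, nat_lit 0, nat_lit 0], nat_lit 1271250, nat_lit 1271250, nat_lit 88400, nat_lit 780000, nat_lit 0, nat_lit 2147000, [nat_lit 1412500, nat_lit 1271250, nat_lit 1271250], [nat_lit 25, nat_lit 40,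 nat_lit 20, nat_lit 80, nat_lit 17, nat_lit 401, nat_lit 175, nat_lit 12]⟩,
 ⟨nat_lit 5700, nat_lit 5917, ⟨.ofNat (nat_lit 160083), .ofNat (nat_lit 364271), .ofNat (nat_lit 181423), .ofNat (nat_lit 385610), .ofNat (nat_lit 168433), .ofNat (nat_lit 367902), .ofNat (nat_lit 189775), .ofNat (nat_lit 389244)⟩, ⟨.ofNat (nat_lit 307945), .ofNat (nat_lit 386479), .ofNat (nat_lit 329284), .ofNat (nat_lit 407818), .ofNat (nat_lit 307921), .ofNat (nat_lit 384640), .ofNat (nat_lit 329263), .ofNat (nat_lit 405982)⟩⟩, [⟨nat_lit 0, nat_lit 100, nat_lit 96, nat_lit 54, nat_lit 132901659⟩, ⟨nat_lit 4, nat_lit 100, nat_lit 97, nat_lit 54, nat_lit 291986037⟩]⟩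
noncomputable def p031_l57 : Lf2 := ⟨nat_lit 0, nat_lit 5, [nat_lit 4, nat_lit 5, nat_lit 5, nat_lit 20], false, nat_lit 200, nat_lit 240, nat_lit 0, nat_lit 304, ⟨nat_lit 0, nat_lit 0, nat_lit 1000, nat_lit 5, nat_lit 114, nat_lit 1000, nat_lit 143, nat_lit 1000, nat_lit 190817, nat_lit 322, nat_lit 123267, nat_lit 301, nat_lit 53539084, nat_lit 0, nat_lit 0, nat_lit 3399208, false, false⟩,
 nat_lit 0, nat_lit 6705, nat_lit 0, nat_lit 0, nat_lit 4083, nat_lit 0, nat_lit 369, nat_lit 0, nat_lit 0, nat_lit 0, nat_lit 0, nat_lit 0, nat_lit 0, nat_lit 0, nat_lit 117, nat_lit 1000000, nat_lit 0, nat_lit 0, [(nat_lit 9, [(nat_lit 6, nat_lit 1000)])],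
 ⟨p031_k26, nat_lit 0, nat_lit 0, nat_lit 248, nat_lit 0, nat_lit 347269, [nat_lit 2969600000, nat_lit 1600000000, nat_lit 226400000], [], [nat_lit 14763342985, nat_lit 15359341936, nat_lit 14521664292, nat_lit 15059288002, nat_lit 16338013269, nat_lit 16900210484, nat_lit 15957921688, nat_lit 16452965664], nat_lit 1271250, nat_lit 1271250, nat_lit 111251, nat_lit 780000, nat_lit 1271250, nat_lit 1271250, [nat_lit 1100000, nat_lit 1442500, nat_lit 1271250], [nat_lit 9, nat_lit 40, nat_lit 20, nat_lit 80, nat_lit 2, nat_lit 317, nat_lit 100, nat_lit 10]⟩, ⟨p031_k3, nat_lit 0, nat_lit 0, nat_lit 497, nat_lit 0, nat_lit 459268, [nat_lit 0, nat_lit 0, nat_lit 0], [], [nat_lit 0, nat_lit 0, nat_lit 0, nat_lit 0, nat_lit 0, nat_lit 0, nat_lit 0, nat_lit 0], nat_lit 1271250, nat_lit 1271250, nat_lit 111251, nat_lit 780000, nat_lit 0, nat_lit 2147000, [nat_lit 1412500, nat_lit 1271250, nat_lit 1271250], [nat_lit 25, nat_lit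 40, nat_lit 20, nat_lit 80, nat_lit 17, nat_lit 401, nat_lit 175, nat_lit 12]⟩,
 ⟨nat_lit 5477, nat_lit 5701, ⟨.ofNat (nat_lit 176105), .ofNat (nat_lit 367902), .ofNat (nat_lit 197447), .ofNat (nat_lit 389244), .ofNat (nat_lit 184157), .ofNat (nat_lit 371489), .ofNat (nat_lit 205514), .ofNat (nat_lit 392847)⟩, ⟨.ofNat (nat_lit 307921), .ofNat (nat_lit 384640), .ofNat (nat_lit 329263), .ofNat (nat_lit 405982), .ofNat (nat_lit 307785), .ofNat (nat_lit 382718), .ofNat (nat_lit 329142), .ofNat (nat_lit 404075)⟩⟩, [⟨nat_lit 0, nat_lit 100, nat_lit 94, nat_lit 52, nat_lit 124505123⟩, ⟨nat_lit 16, nat_lit 94, nat_lit 100, nat_lit 53, nat_lit 305337172⟩]⟩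
noncomputable def p031_l58 : Lf2 := ⟨nat_lit 0, nat_lit 10, [nat_lit 0, nat_lit 5, nat_lit 5, nat_lit 20], false, nat_lit 160, nat_lit 200, nat_lit 0, nat_lit 304, ⟨nat_lit 0, nat_lit 0, nat_lit 1000, nat_lit 5, nat_lit 112, nat_lit 1000, nat_lit 112, nat_lit 1000, nat_lit 117600, nat_lit 299, nat_lit 117600, nat_lit 299, nat_lit 56258082, nat_lit 0, nat_lit 0, nat_lit 2930258, false, false⟩,
 nat_lit 0, nat_lit 7619, nat_lit 0, nat_lit 0, nat_lit 4434, nat_lit 0, nat_lit 0, nat_lit 0, nat_lit 0, nat_lit 0, nat_lit 0, nat_lit 0, nat_lit 0, nat_lit 0, nat_lit 141, nat_lit 707200, nat_lit 0, nat_lit 0, [(nat_lit 9, [(nat_lit 5, nat_lit 488), (nat_lit 6, nat_lit 512)])],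
 ⟨p031_k10, nat_lit 0, nat_lit 0, nat_lit 198, nat_lit 0, nat_lit 187309, [nat_lit 3562854400, nat_lit 2536432001, nat_lit 109103999], [], [nat_lit 12873213027, nat_lit 14077402054, nat_lit 12109093900, nat_lit 13314720120, nat_lit 14277422845, nat_lit 15411787457, nat_lit 14964406957, nat_lit 14736307196], nat_lit 1271250, nat_lit 1271250, nat_lit 88400, nat_lit 780000, nat_lit 1100001, nat_lit 1442500, [nat_lit 1100000, nat_lit 1442500, nat_lit 1271250], [nat_lit 11, nat_lit 40, nat_lit 20, nat_lit 80, nat_lit 1, nat_lit 373, nat_lit 150, nat_lit 11]⟩, ⟨p031_k27, nat_lit 0, nat_lit 0, nat_lit 496, nat_lit 0, nat_lit 237012, [nat_lit 0, nat_lit 0, nat_lit 0], [], [nat_lit 0, nat_lit 0, nat_lit 0, nat_lit 0, nat_lit 0, nat_lit 0, nat_lit 0, nat_lit 0], nat_lit 1271250, nat_lit 1271250, nat_lit 88400, nat_lit 780000, nat_lit 0, nat_lit 2147000, [nat_lit 1412500, nat_lit 1271250, nat_lit 1271250], [nat_lit 53, nat_lit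 40, nat_lit 20, nat_lit 80, nat_lit 14, nat_lit 401, nat_lit 175, nat_lit 11]⟩,
 ⟨nat_lit 5477, nat_lit 5917, ⟨.ofNat (nat_lit 160083), .ofNat (nat_lit 364271), .ofNat (nat_lit 181423), .ofNat (nat_lit 385610), .ofNat (nat_lit 176664), .ofNat (nat_lit 371489), .ofNat (nat_lit 198021), .ofNat (nat_lit 392847)⟩, ⟨.ofNat (nat_lit 229411), .ofNat (nat_lit 307945), .ofNat (nat_lit 250751), .ofNat (nat_lit 329284), .ofNat (nat_lit 232852), .ofNat (nat_lit 307785), .ofNat (nat_lit 254209), .ofNat (nat_lit 329142)⟩⟩, [⟨nat_lit 0, nat_lit 100, nat_lit 94, nat_lit 59, nat_lit 125138998⟩]⟩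
noncomputable def p031_l59 : Lf2 := ⟨nat_lit 0, nat_lit 10, [nat_lit 0, nat_lit 5, nat_lit 5, nat_lit 20], false, nat_lit 200, nat_lit 240, nat_lit 0, nat_lit 304, ⟨nat_lit 0, nat_lit 0, nat_lit 1000, nat_lit 5, nat_lit 112, nat_lit 1000, nat_lit 143, nat_lit 1000, nat_lit 190817, nat_lit 322, nat_lit 117600, nat_lit 299, nat_lit 53725851, nat_lit 0, nat_lit 0, nat_lit 3363387, false, false⟩,
 nat_lit 0, nat_lit 7340, nat_lit 0, nat_lit 0, nat_lit 4272, nat_lit 0, nat_lit 0, nat_lit 0, nat_lit 0, nat_lit 0, nat_lit 0, nat_lit 0, nat_lit 0, nat_lit 0, nat_lit 128, nat_lit 635200, nat_lit 0, nat_lit 0, [(nat_lit 9, [(nat_lit 5, nat_lit 608), (nat_lit 6, nat_lit 392)])],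
 ⟨p031_k10, nat_lit 0, nat_lit 0, nat_lit 201, nat_lit 0, nat_lit 187309, [nat_lit 3406310400, nat_lit 2312112001, nat_lit 66063999], [], [nat_lit 14651926764, nat_lit 15758605815, nat_lit 14084748704, nat_lit 15181445168, nat_lit 16185356212, nat_lit 17303984148, nat_lit 15581513808, nat_lit 16590150976], nat_lit 1271250, nat_lit 1271250, nat_lit 88400, nat_lit 780000, nat_lit 1271250, nat_lit 1271250, [nat_lit 1100000, nat_lit 1442500, nat_lit 1271250], [nat_lit 11, nat_lit 40, nat_lit 20, nat_lit 80, nat_lit 1, nat_lit 401, nat_lit 175, nat_lit 11]⟩, ⟨p031_k27, nat_lit 0, nat_lit 0, nat_lit 496, nat_lit 0, nat_lit 237012, [nat_lit 0, nat_lit 0, nat_lit 0], [], [nat_lit 0, nat_lit 0, nat_lit 0, nat_lit 0, nat_lit 0, nat_lit 0, nat_lit 0, nat_lit 0], nat_lit 1271250, nat_lit 1271250, nat_lit 88400, nat_lit 780000, nat_lit 0, nat_lit 2147000, [nat_lit 1412500, nat_lit 1271250, nat_lit 1271250], [nat_lit 53, nat_lit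 40, nat_lit 20, nat_lit 80, nat_lit 14, nat_lit 401, nat_lit 175, nat_lit 11]⟩,
 ⟨nat_lit 5477, nat_lit 5917, ⟨.ofNat (nat_lit 160083), .ofNat (nat_lit 364271), .ofNat (nat_lit 181423), .ofNat (nat_lit 385610), .ofNat (nat_lit 176664), .ofNat (nat_lit 371489), .ofNat (nat_lit 198021), .ofNat (nat_lit 392847)⟩, ⟨.ofNat (nat_lit 307945), .ofNat (nat_lit 386479), .ofNat (nat_lit 329284), .ofNat (nat_lit 407818), .ofNat (nat_lit 307785), .ofNat (nat_lit 382718), .ofNat (nat_lit 329142), .ofNat (nat_lit 404075)⟩⟩, [⟨nat_lit 0, nat_lit 100, nat_lit 94, nat_lit 59, nat_lit 136441531⟩, ⟨nat_lit 4, nat_lit 100, nat_lit 96, nat_lit 54, nat_lit 298024736⟩]⟩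
noncomputable def b_VL_600_500_5_24 : St := ⟨true, nat_lit 1, nat_lit 1, nat_lit 1, nat_lit 40, nat_lit 260, nat_lit 280, nat_lit 200, nat_lit 240, nat_lit 4, nat_lit 120, nat_lit 20, nat_lit 40, nat_lit 160, nat_lit 240, nat_lit 0, nat_lit 320, nat_lit 0, nat_lit 40, nat_lit 0, nat_lit 0, nat_lit 0, nat_lit 0⟩
theorem d_VL_600_500_5_24 (h : EB TB.env) : Dead b_VL_600_500_5_24 := chkB_sound0 h (T :=
(.trZ (nat_lit 0) (nat_lit 100) (nat_lit 95) (nat_lit 30) (nat_lit 8) (.spl (nat_lit 1) (nat_lit 220)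
(.spl (nat_lit 4) (nat_lit 200)
(.spl (nat_lit 6) (nat_lit 20)
(.spl (nat_lit 2) (nat_lit 80)
(.spl (nat_lit 0) (nat_lit 270)
(.leaf p031_l46)
(.trZ (nat_lit 0) (nat_lit 100) (nat_lit 94) (nat_lit 35) (nat_lit 12) (.leaf p031_l47)))
(.leaf p031_l48))
(.leaf p031_l49))
(.leaf p031_l50))
(.trZ (nat_lit 0) (nat_lit 100) (nat_lit 96) (nat_lit 40) (nat_lit 16) (.trX (nat_lit 19) (nat_lit 100) (nat_lit 86) (nat_lit 60) (nat_lit 304) (.spl (nat_lit 6) (nat_lit 20)
(.spl (nat_lit 4) (nat_lit 200)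
(.spl (nat_lit 2) (nat_lit 80)
(.spl (nat_lit 6) (nat_lit 8)
(.leaf p031_l51)
(.spl (nat_lit 0) (nat_lit 270)
(.leaf p031_l52)
(.trZ (nat_lit 0) (nat_lit 100) (nat_lit 94) (nat_lit 44) (nat_lit 20) (.leaf p031_l53))))
(.spl (nat_lit 0) (nat_lit 270)
(.leaf p031_l54)
(.leaf p031_l55)))
(.spl (nat_lit 0) (nat_lit 270)
(.leaf p031_l56)
(.trZ (nat_lit 0) (nat_lit 100) (nat_lit 94) (nat_lit 44) (nat_lit 20) (.leaf p031_l57))))
(.spl (nat_lit 4) (nat_lit 200)
(.leaf p031_l58)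
(.leaf p031_l59)))))))) (by decide +kernel)
noncomputable def p031_l60 : Lf2 := ⟨nat_lit 0, nat_lit 10, [nat_lit 0, nat_lit 5, nat_lit 5, nat_lit 20], false, nat_lit 160, nat_lit 200, nat_lit 0, nat_lit 320, ⟨nat_lit 199, nat_lit 0, nat_lit 801, nat_lit 5, nat_lit 160, nat_lit 801, nat_lit 111, nat_lit 801, nat_lit 114817, nat_lit 298, nat_lit 121179, nat_lit 300, nat_lit 52205462, nat_lit 0, nat_lit 0, nat_lit 3582585, false, false⟩,
 nat_lit 15202, nat_lit 2166, nat_lit 0, nat_lit 0, nat_lit 9194, nat_lit 6515, nat_lit 859, nat_lit 0, nat_lit 0, nat_lit 0, nat_lit 0, nat_lit 0, nat_lit 0, nat_lit 0, nat_lit 61, nat_lit 801000, nat_lit 0, nat_lit 0, [(nat_lit 6, [(nat_lit 6, nat_lit 801)])],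
 ⟨p031_k5, nat_lit 0, nat_lit 0, nat_lit 211, nat_lit 0, nat_lit 312122, [nat_lit 2691542400, nat_lit 2345394241, nat_lit 338684400], [], [nat_lit 7538122833, nat_lit 8765848145, nat_lit 11424000641, nat_lit 8815865953, nat_lit 12406325505, nat_lit 9996632168, nat_lit 16420257345, nat_lit 11966178075], nat_lit 1271250, nat_lit 1271250, nat_lit 780000, nat_lit 1100001, nat_lit 1100001, nat_lit 1442500, [nat_lit 1100000, nat_lit 1442500, nat_lit 1271250], [nat_lit 48, nat_lit 40, nat_lit 20, nat_lit 80, nat_lit 12, nat_lit 401, nat_lit 175, nat_lit 10]⟩, ⟨p031_k6, nat_lit 0, nat_lit 0, nat_lit 490, nat_lit 0, nat_lit 403560, [nat_lit 1243750000, nat_lit 1585632000, nat_lit 2362528000], [], [nat_lit 16395319988, nat_lit 9505863848, nat_lit 9505863848, nat_lit 7197988348, nat_lit 8498983228, nat_lit 5242804024, nat_lit 10953115904, nat_lit 4895442844], nat_lit 1271250, nat_lit 1271250, nat_lit 780000, nat_lit 1100001,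 nat_lit 0, nat_lit 2260000, [nat_lit 1412500, nat_lit 1271250, nat_lit 1271250], [nat_lit 53, nat_lit 40, nat_lit 20, nat_lit 80, nat_lit 14, nat_lit 428, nat_lit 200, nat_lit 11]⟩,
 ⟨nat_lit 5916, nat_lit 6325, ⟨.ofNat (nat_lit 335470), .ofNat (nat_lit 417734), .ofNat (nat_lit 378206), .ofNat (nat_lit 460470), .ofNat (nat_lit 342931), .ofNat (nat_lit 421465), .ofNat (nat_lit 385610), .ofNat (nat_lit 464143)⟩, ⟨.ofNat (nat_lit 225423), .ofNat (nat_lit 307688), .ofNat (nat_lit 246791), .ofNat (nat_lit 329055), .ofNat (nat_lit 229411), .ofNat (nat_lit 307945), .ofNat (nat_lit 250751), .ofNat (nat_lit 329284)⟩⟩, []⟩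
noncomputable def p031_l61 : Lf2 := ⟨nat_lit 0, nat_lit 10, [nat_lit 0, nat_lit 5, nat_lit 5, nat_lit 20], false, nat_lit 160, nat_lit 200, nat_lit 0, nat_lit 320, ⟨nat_lit 122, nat_lit 0, nat_lit 878, nat_lit 5, nat_lit 162, nat_lit 878, nat_lit 112, nat_lit 878, nat_lit 117600, nat_lit 299, nat_lit 104024, nat_lit 294, nat_lit 51956265, nat_lit 0, nat_lit 0, nat_lit 3619213, false, false⟩,
 nat_lit 8596, nat_lit 381, nat_lit 0, nat_lit 0, nat_lit 5225, nat_lit 3683, nat_lit 731, nat_lit 0, nat_lit 0, nat_lit 0, nat_lit 0, nat_lit 0, nat_lit 0, nat_lit 0, nat_lit 126, nat_lit 878000, nat_lit 0, nat_lit 0, [(nat_lit 9, [(nat_lit 6, nat_lit 878)])],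
 ⟨p031_k10, nat_lit 0, nat_lit 0, nat_lit 209, nat_lit 0, nat_lit 392023, [nat_lit 3551628800, nat_lit 2906130667, nat_lit 193142933], [], [nat_lit 10730850350, nat_lit 12038381100, nat_lit 13183135142, nat_lit 12814712600, nat_lit 13779722242, nat_lit 13522863750, nat_lit 16649312317, nat_lit 14358222050], nat_lit 1271250, nat_lit 1271250, nat_lit 780000, nat_lit 1100001, nat_lit 1100001, nat_lit 1442500, [nat_lit 1100000, nat_lit 1442500, nat_lit 1271250], [nat_lit 11, nat_lit 40, nat_lit 20, nat_lit 80, nat_lit 1, nat_lit 401, nat_lit 175, nat_lit 11]⟩, ⟨p031_k6, nat_lit 0, nat_lit 0, nat_lit 556, nat_lit 0, nat_lit 567396, [nat_lit 762500000, nat_lit 972096000, nat_lit 1448384000], [], [nat_lit 9577304184, nat_lit 5682620076, nat_lit 5682620076, nat_lit 4359143884, nat_lit 5176377912, nat_lit 3131709512, nat_lit 6575889736, nat_lit 3151421604], nat_lit 1271250, nat_lit 1271250, nat_lit 780000, nat_lit 1100001,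 nat_lit 0, nat_lit 2260000, [nat_lit 1412500, nat_lit 1271250, nat_lit 1271250], [nat_lit 53, nat_lit 40, nat_lit 20, nat_lit 80, nat_lit 14, nat_lit 428, nat_lit 200, nat_lit 11]⟩,
 ⟨nat_lit 5477, nat_lit 5917, ⟨.ofNat (nat_lit 342931), .ofNat (nat_lit 421465), .ofNat (nat_lit 385610), .ofNat (nat_lit 464143), .ofNat (nat_lit 350132), .ofNat (nat_lit 425065), .ofNat (nat_lit 392847), .ofNat (nat_lit 467780)⟩, ⟨.ofNat (nat_lit 229411), .ofNat (nat_lit 307945), .ofNat (nat_lit 250751), .ofNat (nat_lit 329284), .ofNat (nat_lit 232852), .ofNat (nat_lit 307785), .ofNat (nat_lit 254209), .ofNat (nat_lit 329142)⟩⟩, []⟩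
noncomputable def p031_l62 : Lf2 := ⟨nat_lit 0, nat_lit 10, [nat_lit 0, nat_lit 5, nat_lit 5, nat_lit 20], false, nat_lit 200, nat_lit 240, nat_lit 0, nat_lit 320, ⟨nat_lit 3, nat_lit 0, nat_lit 997, nat_lit 5, nat_lit 161, nat_lit 997, nat_lit 143, nat_lit 997, nat_lit 190817, nat_lit 322, nat_lit 104024, nat_lit 294, nat_lit 49746389, nat_lit 0, nat_lit 0, nat_lit 4003134, false, false⟩,
 nat_lit 199, nat_lit 8315, nat_lit 0, nat_lit 0, nat_lit 4507, nat_lit 85, nat_lit 107, nat_lit 0, nat_lit 0, nat_lit 0, nat_lit 0, nat_lit 0, nat_lit 0, nat_lit 0, nat_lit 164, nat_lit 997000, nat_lit 0, nat_lit 0, [(nat_lit 6, [(nat_lit 6, nat_lit 997)]), (nat_lit 9, [(nat_lit 6, nat_lit 997)])],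
 ⟨p031_k5, nat_lit 0, nat_lit 0, nat_lit 338, nat_lit 0, nat_lit 438836, [nat_lit 3732371200, nat_lit 3151433281, nat_lit 334906800], [], [nat_lit 13226634873, nat_lit 14593753159, nat_lit 15846840393, nat_lit 15064405205, nat_lit 14031825401, nat_lit 15642527493, nat_lit 14581744109, nat_lit 16391409052], nat_lit 1271250, nat_lit 1271250, nat_lit 780000, nat_lit 1100001, nat_lit 1271250, nat_lit 1271250, [nat_lit 1100000, nat_lit 1442500, nat_lit 1271250], [nat_lit 48, nat_lit 40, nat_lit 20, nat_lit 80, nat_lit 12, nat_lit 401, nat_lit 175, nat_lit 10]⟩, ⟨p031_k6, nat_lit 0, nat_lit 0, nat_lit 556, nat_lit 0, nat_lit 567396, [nat_lit 18750000, nat_lit 23904000, nat_lit 35616000], [], [nat_lit 227026436, nat_lit 137140976, nat_lit 137140976, nat_lit 106231556, nat_lit 126678796, nat_lit 75533928, nat_lit 159214128, nat_lit 80180788], nat_lit 1271250, nat_lit 1271250, nat_lit 780000, nat_lit 1100001, nat_lit 0, nat_lit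 2260000, [nat_lit 1412500, nat_lit 1271250, nat_lit 1271250], [nat_lit 53, nat_lit 40, nat_lit 20, nat_lit 80, nat_lit 14, nat_lit 428, nat_lit 200, nat_lit 11]⟩,
 ⟨nat_lit 5477, nat_lit 6325, ⟨.ofNat (nat_lit 335470), .ofNat (nat_lit 417734), .ofNat (nat_lit 378206), .ofNat (nat_lit 460470), .ofNat (nat_lit 350132), .ofNat (nat_lit 425065), .ofNat (nat_lit 392847), .ofNat (nat_lit 467780)⟩, ⟨.ofNat (nat_lit 307688), .ofNat (nat_lit 389952), .ofNat (nat_lit 329055), .ofNat (nat_lit 411320), .ofNat (nat_lit 307785), .ofNat (nat_lit 382718), .ofNat (nat_lit 329142), .ofNat (nat_lit 404075)⟩⟩, [⟨nat_lit 16, nat_lit 98, nat_lit 100, nat_lit 54, nat_lit 121519963⟩]⟩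
noncomputable def b_VL_600_500_5_25 : St := ⟨true, nat_lit 1, nat_lit 1, nat_lit 1, nat_lit 40, nat_lit 240, nat_lit 280, nat_lit 200, nat_lit 240, nat_lit 120, nat_lit 160, nat_lit 20, nat_lit 40, nat_lit 160, nat_lit 240, nat_lit 0, nat_lit 320, nat_lit 0, nat_lit 40, nat_lit 0, nat_lit 0, nat_lit 0, nat_lit 0⟩
theorem d_VL_600_500_5_25 (h : EB TB.env) : Dead b_VL_600_500_5_25 := chkB_sound0 h (T :=
(.spl (nat_lit 4) (nat_lit 200)
(.spl (nat_lit 0) (nat_lit 260)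
(.leaf p031_l60)
(.leaf p031_l61))
(.leaf p031_l62))) (by decide +kernel)
noncomputable def p031_l63 : Lf2 := ⟨nat_lit 0, nat_lit 8, [nat_lit 50, nat_lit 5, nat_lit 5, nat_lit 20], false, nat_lit 160, nat_lit 240, nat_lit 0, nat_lit 160, ⟨nat_lit 1000, nat_lit 0, nat_lit 0, nat_lit 0, nat_lit 0, nat_lit 0, nat_lit 0, nat_lit 0, nat_lit 0, nat_lit 0, nat_lit 0, nat_lit 0, nat_lit 0, nat_lit 0, nat_lit 0, nat_lit 0, false, false⟩,
 nat_lit 22900, nat_lit 4012, nat_lit 0, nat_lit 0, nat_lit 14247, nat_lit 9814, nat_lit 0, nat_lit 0, nat_lit 0, nat_lit 2459, nat_lit 0, nat_lit 0, nat_lit 0, nat_lit 0, nat_lit 0, nat_lit 0, nat_lit 0, nat_lit 0, [],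
 ⟨p031_k15, nat_lit 0, nat_lit 0, nat_lit 160, nat_lit 0, nat_lit 303330, [nat_lit 4688000000, nat_lit 6250000000, nat_lit 9842000000], [], [nat_lit 32894299908, nat_lit 25474775742, nat_lit 25448019876, nat_lit 18083859552, nat_lit 26051484492, nat_lit 19245863556, nat_lit 29667544296, nat_lit 22908397074], nat_lit 1271250, nat_lit 1271250, nat_lit 1100001, nat_lit 1271250, nat_lit 1100001, nat_lit 1785000, [nat_lit 1100000, nat_lit 1442500, nat_lit 1271250], [nat_lit 11, nat_lit 40, nat_lit 20, nat_lit 80, nat_lit 1, nat_lit 401, nat_lit 175, nat_lit 11]⟩, ⟨p031_k16, nat_lit 0, nat_lit 0, nat_lit 420, nat_lit 0, nat_lit 390899, [nat_lit 6250000000, nat_lit 7968000000, nat_lit 11872000000], [], [nat_lit 37076908296, nat_lit 26855077712, nat_lit 31947562312, nat_lit 27057533087, nat_lit 32389004000, nat_lit 22747298584, nat_lit 34959308656, nat_lit 25385437608], nat_lit 1271250, nat_lit 1271250, nat_lit 1100001, nat_lit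 1271250, nat_lit 0, nat_lit 1100001, [nat_lit 1412500, nat_lit 1271250, nat_lit 1271250], [nat_lit 53, nat_lit 40, nat_lit 20, nat_lit 80, nat_lit 14, nat_lit 373, nat_lit 150, nat_lit 10]⟩,
 zbF0, []⟩
noncomputable def p031_l64 : Lf2 := ⟨nat_lit 0, nat_lit 8, [nat_lit 50, nat_lit 5, nat_lit 5, nat_lit 20], false, nat_lit 160, nat_lit 240, nat_lit 0, nat_lit 160, ⟨nat_lit 1000, nat_lit 0, nat_lit 0, nat_lit 0, nat_lit 0, nat_lit 0, nat_lit 0, nat_lit 0, nat_lit 0, nat_lit 0, nat_lit 0, nat_lit 0, nat_lit 0, nat_lit 0, nat_lit 0, nat_lit 0, false, false⟩,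
 nat_lit 17494, nat_lit 0, nat_lit 0, nat_lit 0, nat_lit 6464, nat_lit 7497, nat_lit 1616, nat_lit 0, nat_lit 0, nat_lit 787, nat_lit 0, nat_lit 0, nat_lit 0, nat_lit 0, nat_lit 0, nat_lit 0, nat_lit 0, nat_lit 0, [],
 ⟨p031_k15, nat_lit 0, nat_lit 0, nat_lit 158, nat_lit 0, nat_lit 303330, [nat_lit 4688000000, nat_lit 6250000000, nat_lit 9842000000], [], [nat_lit 31107824096, nat_lit 27715982304, nat_lit 27702588896, nat_lit 24336279904, nat_lit 27829651552, nat_lit 24720467552, nat_lit 24709246048, nat_lit 23121937264], nat_lit 1271250, nat_lit 1271250, nat_lit 1271250, nat_lit 1271250, nat_lit 1100001, nat_lit 1785000, [nat_lit 1100000, nat_lit 1442500, nat_lit 1271250], [nat_lit 11, nat_lit 40, nat_lit 20, nat_lit 80, nat_lit 1, nat_lit 401, nat_lit 175, nat_lit 11]⟩, ⟨p031_k16, nat_lit 0, nat_lit 0, nat_lit 416, nat_lit 0, nat_lit 390899, [nat_lit 6250000000, nat_lit 7968000000, nat_lit 11872000000], [], [nat_lit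 35652906255, nat_lit 36667157991, nat_lit 35980630011, nat_lit 36935630575, nat_lit 35311251688, nat_lit 32273793995, nat_lit 31717144095, nat_lit 32471509727], nat_lit 1271250, nat_lit 1271250, nat_lit 1271250, nat_lit 1271250, nat_lit 0, nat_lit 1100001, [nat_lit 1412500, nat_lit 1271250, nat_lit 1271250], [nat_lit 53, nat_lit 40, nat_lit 20, nat_lit 80, nat_lit 14, nat_lit 373, nat_lit 150, nat_lit 10]⟩,
 zbF0, []⟩
noncomputable def p031_l65 : Lf2 := ⟨nat_lit 0, nat_lit 8, [nat_lit 50, nat_lit 5, nat_lit 5, nat_lit 20], false, nat_lit 160, nat_lit 200, nat_lit 160, nat_lit 320, ⟨nat_lit 730, nat_lit 0, nat_lit 270, nat_lit 5, nat_lit 188, nat_lit 270, nat_lit 111, nat_lit 270, nat_lit 114817, nat_lit 298, nat_lit 21723, nat_lit 248, nat_lit 49680627, nat_lit 0, nat_lit 0, nat_lit 3892182, false, false⟩,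
 nat_lit 11530, nat_lit 0, nat_lit 0, nat_lit 948, nat_lit 5437, nat_lit 4941, nat_lit 0, nat_lit 0, nat_lit 0, nat_lit 1563, nat_lit 0, nat_lit 0, nat_lit 0, nat_lit 0, nat_lit 0, nat_lit 108000, nat_lit 0, nat_lit 0, [(nat_lit 6, [(nat_lit 5, nat_lit 270)])],
 ⟨p031_k15, nat_lit 0, nat_lit 0, nat_lit 126, nat_lit 0, nat_lit 217777, [nat_lit 3804992000, nat_lit 4584100000, nat_lit 6664964000], [], [nat_lit 27119733068, nat_lit 24288263082, nat_lit 25987090224, nat_lit 24371468534, nat_lit 26024409792, nat_lit 24539376620, nat_lit 29575110374, nat_lit 26977409640], nat_lit 1271250, nat_lit 1271250, nat_lit 1100001, nat_lit 1442500, nat_lit 1100001, nat_lit 1442500, [nat_lit 1100000, nat_lit 1442500, nat_lit 1271250], [nat_lit 11, nat_lit 40, nat_lit 20, nat_lit 80, nat_lit 1, nat_lit 401, nat_lit 175, nat_lit 11]⟩, ⟨p031_k16, nat_lit 0, nat_lit 0, nat_lit 214, nat_lit 0, nat_lit 280648, [nat_lit 4562500000, nat_lit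 5816640000, nat_lit 8666560000], [], [nat_lit 26691802200, nat_lit 24079307742, nat_lit 24471963672, nat_lit 22111707264, nat_lit 20251855471, nat_lit 20525311751, nat_lit 20559251428, nat_lit 20906281194], nat_lit 1271250, nat_lit 1271250, nat_lit 1100001, nat_lit 1442500, nat_lit 1271250, nat_lit 1271250, [nat_lit 1412500, nat_lit 1271250, nat_lit 1271250], [nat_lit 53, nat_lit 40, nat_lit 20, nat_lit 80, nat_lit 14, nat_lit 428, nat_lit 200, nat_lit 11]⟩,
 ⟨nat_lit 5916, nat_lit 6325, ⟨.ofNat (nat_lit 417734), .ofNat (nat_lit 499999), .ofNat (nat_lit 439102), .ofNat (nat_lit 521360), .ofNat (nat_lit 421465), .ofNat (nat_lit 499999), .ofNat (nat_lit 442804), .ofNat (nat_lit 521331)⟩, ⟨.ofNat (nat_lit 225423), .ofNat (nat_lit 307688), .ofNat (nat_lit 246791), .ofNat (nat_lit 329055), .ofNat (nat_lit 229411), .ofNat (nat_lit 307945), .ofNat (nat_lit 250751), .ofNat (nat_lit 329284)⟩⟩, []⟩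
noncomputable def p031_l66 : Lf2 := ⟨nat_lit 0, nat_lit 8, [nat_lit 50, nat_lit 5, nat_lit 5, nat_lit 20], false, nat_lit 160, nat_lit 200, nat_lit 160, nat_lit 304, ⟨nat_lit 1000, nat_lit 0, nat_lit 0, nat_lit 0, nat_lit 0, nat_lit 0, nat_lit 0, nat_lit 0, nat_lit 0, nat_lit 0, nat_lit 0, nat_lit 0, nat_lit 0, nat_lit 0, nat_lit 0, nat_lit 0, false, false⟩,
 nat_lit 14453, nat_lit 0, nat_lit 0, nat_lit 21, nat_lit 6686, nat_lit 6912, nat_lit 0, nat_lit 0, nat_lit 0, nat_lit 2185, nat_lit 0, nat_lit 0, nat_lit 0, nat_lit 0, nat_lit 0, nat_lit 0, nat_lit 0, nat_lit 0, [],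
 ⟨p031_k15, nat_lit 0, nat_lit 0, nat_lit 156, nat_lit 0, nat_lit 303330, [nat_lit 4688000000, nat_lit 6250000000, nat_lit 9842000000], [], [nat_lit 29368121704, nat_lit 25886199996, nat_lit 27179024672, nat_lit 25892522852, nat_lit 27224917376, nat_lit 26094251360, nat_lit 31276574372, nat_lit 28082123920], nat_lit 1271250, nat_lit 1271250, nat_lit 1100001, nat_lit 1442500, nat_lit 1100001, nat_lit 1442500, [nat_lit 1100000, nat_lit 1442500, nat_lit 1271250], [nat_lit 11, nat_lit 40, nat_lit 20, nat_lit 80, nat_lit 1, nat_lit 401, nat_lit 175, nat_lit 11]⟩, ⟨p031_k24, nat_lit 0, nat_lit 0, nat_lit 235, nat_lit 0, nat_lit 342349, [nat_lit 6250000000, nat_lit 7968000000, nat_lit 11872000000], [], [nat_lit 33128157024, nat_lit 29473519968, nat_lit 28371567578, nat_lit 25069788122, nat_lit 25448239014, nat_lit 25852773516, nat_lit 25864924042, nat_lit 26376699489], nat_lit 1271250, nat_lit 1271250, nat_lit 1100001, nat_lit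 1442500, nat_lit 1271250, nat_lit 1271250, [nat_lit 1412500, nat_lit 1271250, nat_lit 1271250], [nat_lit 53, nat_lit 40, nat_lit 20, nat_lit 80, nat_lit 14, nat_lit 428, nat_lit 200, nat_lit 11]⟩,
 zbF0, []⟩
noncomputable def p031_l67 : Lf2 := ⟨nat_lit 0, nat_lit 8, [nat_lit 50, nat_lit 5, nat_lit 5, nat_lit 20], false, nat_lit 200, nat_lit 240, nat_lit 160, nat_lit 320, ⟨nat_lit 1000, nat_lit 0, nat_lit 0, nat_lit 0, nat_lit 0, nat_lit 0, nat_lit 0, nat_lit 0, nat_lit 0, nat_lit 0, nat_lit 0, nat_lit 0, nat_lit 0, nat_lit 0, nat_lit 0, nat_lit 0, false, false⟩,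
 nat_lit 19037, nat_lit 7987, nat_lit 0, nat_lit 0, nat_lit 14306, nat_lit 8158, nat_lit 2047, nat_lit 0, nat_lit 0, nat_lit 2163, nat_lit 0, nat_lit 0, nat_lit 0, nat_lit 0, nat_lit 0, nat_lit 0, nat_lit 0, nat_lit 0, [],
 ⟨p031_k15, nat_lit 0, nat_lit 0, nat_lit 160, nat_lit 0, nat_lit 303330, [nat_lit 4688000000, nat_lit 6250000000, nat_lit 9842000000], [], [nat_lit 18131757568, nat_lit 10790333242, nat_lit 9443213946, nat_lit 11046685212, nat_lit 10207710662, nat_lit 11785903558, nat_lit 11161488784, nat_lit 13703727068], nat_lit 1271250, nat_lit 1271250, nat_lit 1100001, nat_lit 1442500, nat_lit 1271250, nat_lit 1271250, [nat_lit 1100000, nat_lit 1442500, nat_lit 1271250], [nat_lit 11, nat_lit 40, nat_lit 20, nat_lit 80, nat_lit 1, nat_lit 401, nat_lit 175, nat_lit 11]⟩, ⟨p031_k16, nat_lit 0, nat_lit 0, nat_lit 260, nat_lit 0, nat_lit 390899, [nat_lit 6250000000, nat_lit 7968000000, nat_lit 11872000000], [], [nat_lit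 38681498720, nat_lit 30054609512, nat_lit 32404451456, nat_lit 24610494048, nat_lit 25258732903, nat_lit 25982027783, nat_lit 25468044191, nat_lit 26374850800], nat_lit 1271250, nat_lit 1271250, nat_lit 1100001, nat_lit 1442500, nat_lit 1271250, nat_lit 1271250, [nat_lit 1412500, nat_lit 1271250, nat_lit 1271250], [nat_lit 53, nat_lit 40, nat_lit 20, nat_lit 80, nat_lit 14, nat_lit 428, nat_lit 200, nat_lit 11]⟩,
 zbF0, []⟩
noncomputable def p031_l68 : Lf2 := ⟨nat_lit 1, nat_lit 10, [nat_lit 0, nat_lit 5, nat_lit 5, nat_lit 20], false, nat_lit 160, nat_lit 240, nat_lit 0, nat_lit 320, zbN0,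
 nat_lit 0, nat_lit 0, nat_lit 0, nat_lit 0, nat_lit 0, nat_lit 0, nat_lit 0, nat_lit 0, nat_lit 0, nat_lit 0, nat_lit 0, nat_lit 0, nat_lit 0, nat_lit 0, nat_lit 0, nat_lit 0, nat_lit 0, nat_lit 0, [],
 C1.Rw.none, C1.Rw.none,
 zbF0, []⟩
noncomputable def p031_l69 : Lf2 := ⟨nat_lit 0, nat_lit 10, [nat_lit 0, nat_lit 5, nat_lit 5, nat_lit 20], false, nat_lit 160, nat_lit 240, nat_lit 0, nat_lit 160, ⟨nat_lit 1000, nat_lit 0, nat_lit 0, nat_lit 0, nat_lit 0, nat_lit 0, nat_lit 0, nat_lit 0, nat_lit 0, nat_lit 0, nat_lit 0, nat_lit 0, nat_lit 0, nat_lit 0, nat_lit 0, nat_lit 0, false, false⟩,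
 nat_lit 24313, nat_lit 4171, nat_lit 0, nat_lit 0, nat_lit 16580, nat_lit 10419, nat_lit 2627, nat_lit 0, nat_lit 0, nat_lit 1855, nat_lit 0, nat_lit 0, nat_lit 0, nat_lit 0, nat_lit 0, nat_lit 0, nat_lit 0, nat_lit 0, [],
 ⟨p031_k10, nat_lit 0, nat_lit 0, nat_lit 201, nat_lit 0, nat_lit 392023, [nat_lit 4688000000, nat_lit 6250000000, nat_lit 9842000000], [], [nat_lit 23172343505, nat_lit 14537844265, nat_lit 6475976680, nat_lit 10031232800, nat_lit 14357445465, nat_lit 14175240880, nat_lit 22709312625, nat_lit 15914625360], nat_lit 1271250, nat_lit 1271250, nat_lit 1100001, nat_lit 1442500, nat_lit 1100001, nat_lit 1785000, [nat_lit 1100000, nat_lit 1442500, nat_lit 1271250], [nat_lit 11, nat_lit 40, nat_lit 20, nat_lit 80, nat_lit 1, nat_lit 428, nat_lit 200, nat_lit 12]⟩, ⟨p031_k6, nat_lit 0, nat_lit 0, nat_lit 540, nat_lit 0, nat_lit 567396, [nat_lit 6250000000, nat_lit 7968000000, nat_lit 11872000000], [], [nat_lit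 37359058516, nat_lit 31003789046, nat_lit 30389401170, nat_lit 31111612822, nat_lit 32180884000, nat_lit 23036357462, nat_lit 37588784288, nat_lit 27495732284], nat_lit 1271250, nat_lit 1271250, nat_lit 1100001, nat_lit 1442500, nat_lit 0, nat_lit 1100001, [nat_lit 1412500, nat_lit 1271250, nat_lit 1271250], [nat_lit 53, nat_lit 40, nat_lit 20, nat_lit 80, nat_lit 14, nat_lit 373, nat_lit 150, nat_lit 10]⟩,
 zbF0, [⟨nat_lit 4, nat_lit 100, nat_lit 96, nat_lit 54, nat_lit 329428271⟩]⟩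
noncomputable def p031_l70 : Lf2 := ⟨nat_lit 0, nat_lit 10, [nat_lit 0, nat_lit 5, nat_lit 5, nat_lit 20], false, nat_lit 160, nat_lit 200, nat_lit 160, nat_lit 320, ⟨nat_lit 406, nat_lit 0, nat_lit 594, nat_lit 5, nat_lit 193, nat_lit 594, nat_lit 112, nat_lit 594, nat_lit 117600, nat_lit 299, nat_lit 9515, nat_lit 236, nat_lit 49171745, nat_lit 0, nat_lit 0, nat_lit 3951510, false, false⟩,
 nat_lit 8996, nat_lit 0, nat_lit 0, nat_lit 0, nat_lit 5236, nat_lit 3855, nat_lit 243, nat_lit 0, nat_lit 0, nat_lit 822, nat_lit 0, nat_lit 0, nat_lit 0, nat_lit 0, nat_lit 0, nat_lit 237600, nat_lit 0, nat_lit 0, [(nat_lit 9, [(nat_lit 5, nat_lit 594)])],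
 ⟨p031_k10, nat_lit 0, nat_lit 0, nat_lit 200, nat_lit 0, nat_lit 392023, [nat_lit 2810009600, nat_lit 2459488001, nat_lit 2554332800], [], [nat_lit 21973353922, nat_lit 19246560314, nat_lit 20348539010, nat_lit 19572271829, nat_lit 20383971022, nat_lit 19732044981, nat_lit 23888993146, nat_lit 21387326594], nat_lit 1271250, nat_lit 1271250, nat_lit 1100001, nat_lit 1442500, nat_lit 1100001, nat_lit 1442500, [nat_lit 1100000, nat_lit 1442500, nat_lit 1271250], [nat_lit 11, nat_lit 40, nat_lit 20, nat_lit 80, nat_lit 1, nat_lit 401, nat_lit 175, nat_lit 11]⟩, ⟨p031_k6, nat_lit 0, nat_lit 0, nat_lit 388, nat_lit 0, nat_lit 567396, [nat_lit 2537500000, nat_lit 3235008000, nat_lit 4820032000], [], [nat_lit 16531908072, nat_lit 12455338092, nat_lit 12719120232, nat_lit 9335312028, nat_lit 10480869278, nat_lit 10709741918, nat_lit 10480483074, nat_lit 10668190734], nat_lit 1271250, nat_lit 1271250, nat_lit 1100001, nat_lit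 1442500, nat_lit 1271250, nat_lit 1271250, [nat_lit 1412500, nat_lit 1271250, nat_lit 1271250], [nat_lit 53, nat_lit 40, nat_lit 20, nat_lit 80, nat_lit 14, nat_lit 428, nat_lit 200, nat_lit 11]⟩,
 ⟨nat_lit 5477, nat_lit 5917, ⟨.ofNat (nat_lit 421465), .ofNat (nat_lit 499999), .ofNat (nat_lit 464143), .ofNat (nat_lit 542662), .ofNat (nat_lit 425065), .ofNat (nat_lit 499999), .ofNat (nat_lit 467780), .ofNat (nat_lit 542697)⟩, ⟨.ofNat (nat_lit 229411), .ofNat (nat_lit 307945), .ofNat (nat_lit 250751), .ofNat (nat_lit 329284), .ofNat (nat_lit 232852), .ofNat (nat_lit 307785), .ofNat (nat_lit 254209), .ofNat (nat_lit 329142)⟩⟩, []⟩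
noncomputable def p031_l71 : Lf2 := ⟨nat_lit 0, nat_lit 10, [nat_lit 0, nat_lit 5, nat_lit 5, nat_lit 20], false, nat_lit 200, nat_lit 240, nat_lit 160, nat_lit 320, ⟨nat_lit 297, nat_lit 0, nat_lit 703, nat_lit 5, nat_lit 193, nat_lit 703, nat_lit 143, nat_lit 703, nat_lit 190817, nat_lit 322, nat_lit 9515, nat_lit 236, nat_lit 47084409, nat_lit 0, nat_lit 0, nat_lit 4320878, false, false⟩,
 nat_lit 7210, nat_lit 2665, nat_lit 0, nat_lit 0, nat_lit 5748, nat_lit 3090, nat_lit 333, nat_lit 0, nat_lit 0, nat_lit 638, nat_lit 0, nat_lit 0, nat_lit 0, nat_lit 0, nat_lit 31, nat_lit 703000, nat_lit 0, nat_lit 0, [(nat_lit 9, [(nat_lit 6, nat_lit 703)])],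
 ⟨p031_k10, nat_lit 0, nat_lit 0, nat_lit 201, nat_lit 0, nat_lit 392023, [nat_lit 2659948800, nat_lit 2174897334, nat_lit 128416266], [], [nat_lit 15067607745, nat_lit 14943219861, nat_lit 17049415069, nat_lit 15806073365, nat_lit 15154230005, nat_lit 16163606128, nat_lit 16071913944, nat_lit 17492934416], nat_lit 1271250, nat_lit 1271250, nat_lit 1100001, nat_lit 1442500, nat_lit 1271250, nat_lit 1271250, [nat_lit 1100000, nat_lit 1442500, nat_lit 1271250], [nat_lit 11, nat_lit 40, nat_lit 20, nat_lit 80, nat_lit 1, nat_lit 428, nat_lit 200, nat_lit 12]⟩, ⟨p031_k6, nat_lit 0, nat_lit 0, nat_lit 388, nat_lit 0, nat_lit 567396, [nat_lit 1856250000, nat_lit 2366496000, nat_lit 3525984000], [], [nat_lit 12504919164, nat_lit 9237318324, nat_lit 9237318324, nat_lit 6134903604, nat_lit 7071764066, nat_lit 7230985886, nat_lit 7048751738, nat_lit 7267199964], nat_lit 1271250, nat_lit 1271250, nat_lit 1100001, nat_lit 1442500,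 nat_lit 1271250, nat_lit 1271250, [nat_lit 1412500, nat_lit 1271250, nat_lit 1271250], [nat_lit 53, nat_lit 40, nat_lit 20, nat_lit 80, nat_lit 14, nat_lit 428, nat_lit 200, nat_lit 11]⟩,
 ⟨nat_lit 5477, nat_lit 5917, ⟨.ofNat (nat_lit 421465), .ofNat (nat_lit 499999), .ofNat (nat_lit 464143), .ofNat (nat_lit 542662), .ofNat (nat_lit 425065), .ofNat (nat_lit 499999), .ofNat (nat_lit 467780), .ofNat (nat_lit 542697)⟩, ⟨.ofNat (nat_lit 307945), .ofNat (nat_lit 386479), .ofNat (nat_lit 329284), .ofNat (nat_lit 407818), .ofNat (nat_lit 307785), .ofNat (nat_lit 382718), .ofNat (nat_lit 329142), .ofNat (nat_lit 404075)⟩⟩, [⟨nat_lit 4, nat_lit 100, nat_lit 96, nat_lit 54, nat_lit 355246178⟩]⟩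
noncomputable def p031_l72 : Lf2 := ⟨nat_lit 0, nat_lit 10, [nat_lit 0, nat_lit 5, nat_lit 5, nat_lit 20], false, nat_lit 160, nat_lit 240, nat_lit 0, nat_lit 320, ⟨nat_lit 509, nat_lit 0, nat_lit 491, nat_lit 5, nat_lit 225, nat_lit 491, nat_lit 127, nat_lit 491, nat_lit 153600, nat_lit 311, nat_lit 3671, nat_lit 204, nat_lit 45346583, nat_lit 0, nat_lit 0, nat_lit 4402204, true, false⟩,
 nat_lit 19106, nat_lit 4977, nat_lit 0, nat_lit 0, nat_lit 12749, nat_lit 8188, nat_lit 765, nat_lit 0, nat_lit 0, nat_lit 2062, nat_lit 0, nat_lit 0, nat_lit 0, nat_lit 0, nat_lit 0, nat_lit 491000, nat_lit 0, nat_lit 0, [(nat_lit 6, [(nat_lit 6, nat_lit 491)])],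
 ⟨p031_k5, nat_lit 0, nat_lit 0, nat_lit 201, nat_lit 0, nat_lit 312122, [nat_lit 2865931734, nat_lit 3108699841, nat_lit 3605720400], [], [nat_lit 15775589033, nat_lit 12227883483, nat_lit 12570121319, nat_lit 13802699899, nat_lit 19352413119, nat_lit 14142796135, nat_lit 15012248940, nat_lit 17086292046], nat_lit 1271250, nat_lit 1271250, nat_lit 1271250, nat_lit 1271250, nat_lit 1100001, nat_lit 1785000, [nat_lit 1100000, nat_lit 1442500, nat_lit 1271250], [nat_lit 48, nat_lit 40, nat_lit 20, nat_lit 80, nat_lit 12, nat_lit 428, nat_lit 200, nat_lit 10]⟩, ⟨p031_k6, nat_lit 0, nat_lit 0, nat_lit 417, nat_lit 0, nat_lit 403560, [nat_lit 3181250000, nat_lit 4055712000, nat_lit 6042848000], [], [nat_lit 11832834012, nat_lit 10651690470, nat_lit 10651690470, nat_lit 11871792878, nat_lit 22570757228, nat_lit 15057906956, nat_lit 15057906956, nat_lit 12678651128], nat_lit 1271250, nat_lit 1271250, nat_lit 1271250, nat_lit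 1271250, nat_lit 0, nat_lit 2260000, [nat_lit 1412500, nat_lit 1271250, nat_lit 1271250], [nat_lit 53, nat_lit 40, nat_lit 20, nat_lit 80, nat_lit 14, nat_lit 428, nat_lit 200, nat_lit 11]⟩,
 ⟨nat_lit 5916, nat_lit 6325, ⟨.ofNat (nat_lit 499999), .ofNat (nat_lit 582240), .ofNat (nat_lit 542721), .ofNat (nat_lit 624961), .ofNat (nat_lit 499999), .ofNat (nat_lit 578509), .ofNat (nat_lit 542664), .ofNat (nat_lit 621173)⟩, ⟨.ofNat (nat_lit 225423), .ofNat (nat_lit 389952), .ofNat (nat_lit 246791), .ofNat (nat_lit 411320), .ofNat (nat_lit 229411), .ofNat (nat_lit 386479), .ofNat (nat_lit 250751), .ofNat (nat_lit 407818)⟩⟩, [⟨nat_lit 7, nat_lit 90, nat_lit 100, nat_lit 53, nat_lit 277556719⟩]⟩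
noncomputable def p031_l73 : Lf2 := ⟨nat_lit 0, nat_lit 10, [nat_lit 0, nat_lit 5, nat_lit 5, nat_lit 20], false, nat_lit 160, nat_lit 240, nat_lit 0, nat_lit 320, ⟨nat_lit 275, nat_lit 0, nat_lit 725, nat_lit 5, nat_lit 224, nat_lit 725, nat_lit 127, nat_lit 725, nat_lit 153600, nat_lit 311, nat_lit 2161, nat_lit 205, nat_lit 45410976, nat_lit 0, nat_lit 0, nat_lit 4397129, true, false⟩,
 nat_lit 11574, nat_lit 781, nat_lit 0, nat_lit 0, nat_lit 7191, nat_lit 4960, nat_lit 235, nat_lit 0, nat_lit 0, nat_lit 945, nat_lit 0, nat_lit 0, nat_lit 0, nat_lit 0, nat_lit 43, nat_lit 725000, nat_lit 0, nat_lit 0, [(nat_lit 9, [(nat_lit 6, nat_lit 725)])],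
 ⟨p031_k10, nat_lit 0, nat_lit 0, nat_lit 201, nat_lit 0, nat_lit 392023, [nat_lit 2772960000, nat_lit 2267966667, nat_lit 138153333], [], [nat_lit 13387763542, nat_lit 13385359160, nat_lit 14142734240, nat_lit 15898723276, nat_lit 18598570042, nat_lit 17282677772, nat_lit 17861888714, nat_lit 19311245968], nat_lit 1271250, nat_lit 1271250, nat_lit 1271250, nat_lit 1271250, nat_lit 1100001, nat_lit 1785000, [nat_lit 1100000, nat_lit 1442500, nat_lit 1271250], [nat_lit 11, nat_lit 40, nat_lit 20, nat_lit 80, nat_lit 1, nat_lit 428, nat_lit 200, nat_lit 12]⟩, ⟨p031_k6, nat_lit 0, nat_lit 0, nat_lit 529, nat_lit 0, nat_lit 567396, [nat_lit 1718750000, nat_lit 2191200000, nat_lit 3264800000], [], [nat_lit 6084550980, nat_lit 6409862765, nat_lit 6409862765, nat_lit 7111593685, nat_lit 12302863700, nat_lit 7751845460, nat_lit 7751845460, nat_lit 6985965560], nat_lit 1271250, nat_lit 1271250, nat_lit 1271250, nat_lit 1271250,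 nat_lit 0, nat_lit 2260000, [nat_lit 1412500, nat_lit 1271250, nat_lit 1271250], [nat_lit 53, nat_lit 40, nat_lit 20, nat_lit 80, nat_lit 14, nat_lit 428, nat_lit 200, nat_lit 11]⟩,
 ⟨nat_lit 5477, nat_lit 5917, ⟨.ofNat (nat_lit 499999), .ofNat (nat_lit 578514), .ofNat (nat_lit 542662), .ofNat (nat_lit 621176), .ofNat (nat_lit 499999), .ofNat (nat_lit 574913), .ofNat (nat_lit 542697), .ofNat (nat_lit 617611)⟩, ⟨.ofNat (nat_lit 229411), .ofNat (nat_lit 386479), .ofNat (nat_lit 250751), .ofNat (nat_lit 407818), .ofNat (nat_lit 232852), .ofNat (nat_lit 382718), .ofNat (nat_lit 254209), .ofNat (nat_lit 404075)⟩⟩, [⟨nat_lit 4, nat_lit 100, nat_lit 96, nat_lit 54, nat_lit 524921489⟩, ⟨nat_lit 7, nat_lit 90, nat_lit 100, nat_lit 53, nat_lit 92546939⟩]⟩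
noncomputable def b_VL_600_500_5_26 : St := ⟨true, nat_lit 1, nat_lit 1, nat_lit 1, nat_lit 40, nat_lit 240, nat_lit 280, nat_lit 200, nat_lit 240, nat_lit 160, nat_lit 240, nat_lit 20, nat_lit 40, nat_lit 160, nat_lit 240, nat_lit 0, nat_lit 320, nat_lit 0, nat_lit 40, nat_lit 0, nat_lit 0, nat_lit 0, nat_lit 0⟩
theorem d_VL_600_500_5_26 (h : EB TB.env) : Dead b_VL_600_500_5_26 := chkB_sound0 h (T :=
(.spl (nat_lit 2) (nat_lit 200)
(.spl (nat_lit 0) (nat_lit 260)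
(.spl (nat_lit 6) (nat_lit 32)
(.spl (nat_lit 5) (nat_lit 160)
(.spl (nat_lit 2) (nat_lit 180)
(.leaf p031_l63)
(.leaf p031_l64))
(.spl (nat_lit 4) (nat_lit 200)
(.spl (nat_lit 1) (nat_lit 220)
(.leaf p031_l65)
(.trX (nat_lit 19) (nat_lit 100) (nat_lit 86) (nat_lit 60) (nat_lit 304) (.leaf p031_l66)))
(.leaf p031_l67)))
(.leaf p031_l68))
(.spl (nat_lit 5) (nat_lit 160)
(.leaf p031_l69)
(.spl (nat_lit 4) (nat_lit 200)
(.leaf p031_l70)
(.leaf p031_l71))))
(.spl (nat_lit 0) (nat_lit 260)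
(.leaf p031_l72)
(.leaf p031_l73)))) (by decide +kernel)
noncomputable def p031_l74 : Lf2 := ⟨nat_lit 0, nat_lit 5, [nat_lit 4, nat_lit 5, nat_lit 5, nat_lit 20], true, nat_lit 240, nat_lit 288, nat_lit 0, nat_lit 288, ⟨nat_lit 0, nat_lit 0, nat_lit 1000, nat_lit 5, nat_lit 64, nat_lit 1000, nat_lit 178, nat_lit 1000, nat_lit 29345, nat_lit 255, nat_lit 38400, nat_lit 263, nat_lit 53563032, nat_lit 0, nat_lit 0, nat_lit 3112449, false, false⟩,
 nat_lit 0, nat_lit 8328, nat_lit 0, nat_lit 0, nat_lit 4408, nat_lit 0, nat_lit 0, nat_lit 0, nat_lit 0, nat_lit 0, nat_lit 0, nat_lit 0, nat_lit 0, nat_lit 0, nat_lit 147, nat_lit 1000000, nat_lit 0, nat_lit 0, [(nat_lit 6, [(nat_lit 6, nat_lit 1000)]), (nat_lit 9, [(nat_lit 6, nat_lit 1000)])],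
 ⟨p031_k0, nat_lit 0, nat_lit 0, nat_lit 323, nat_lit 0, nat_lit 334821, [nat_lit 3449600001, nat_lit 3042400001, nat_lit 177599999], [], [nat_lit 15557123293, nat_lit 18262317095, nat_lit 14580295075, nat_lit 16368351139, nat_lit 19118641839, nat_lit 21822095353, nat_lit 17119102823, nat_lit 19804261223], nat_lit 1271250, nat_lit 1271250, nat_lit 21650, nat_lit 230001, nat_lit 1271250, nat_lit 1271250, [nat_lit 1100000, nat_lit 1442500, nat_lit 1271250], [nat_lit 11, nat_lit 40, nat_lit 20, nat_lit 80, nat_lit 1, nat_lit 401, nat_lit 175, nat_lit 11]⟩, C1.Rw.none,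
 ⟨nat_lit 5477, nat_lit 6325, ⟨.ofNat (nat_lit 96904), .ofNat (nat_lit 170942), .ofNat (nat_lit 118272), .ofNat (nat_lit 192309), .ofNat (nat_lit 132827), .ofNat (nat_lit 200266), .ofNat (nat_lit 154184), .ofNat (nat_lit 221623)⟩, ⟨.ofNat (nat_lit 389952), .ofNat (nat_lit 488669), .ofNat (nat_lit 411320), .ofNat (nat_lit 510037), .ofNat (nat_lit 382718), .ofNat (nat_lit 472638), .ofNat (nat_lit 404075), .ofNat (nat_lit 493995)⟩⟩, [⟨nat_lit 0, nat_lit 100, nat_lit 96, nat_lit 35, nat_lit 252347128⟩, ⟨nat_lit 16, nat_lit 100, nat_lit 92, nat_lit 61, nat_lit 462709337⟩, ⟨nat_lit 4, nat_lit 100, nat_lit 98, nat_lit 54, nat_lit 114604659⟩]⟩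
noncomputable def p031_l75 : Lf2 := ⟨nat_lit 0, nat_lit 5, [nat_lit 4, nat_lit 5, nat_lit 5, nat_lit 20], true, nat_lit 240, nat_lit 288, nat_lit 0, nat_lit 288, ⟨nat_lit 0, nat_lit 0, nat_lit 1000, nat_lit 5, nat_lit 68, nat_lit 1000, nat_lit 179, nat_lit 1000, nat_lit 29345, nat_lit 255, nat_lit 43350, nat_lit 266, nat_lit 53213760, nat_lit 0, nat_lit 0, nat_lit 3180773, false, false⟩,
 nat_lit 0, nat_lit 7675, nat_lit 0, nat_lit 0, nat_lit 4062, nat_lit 0, nat_lit 0, nat_lit 0, nat_lit 0, nat_lit 0, nat_lit 0, nat_lit 0, nat_lit 0, nat_lit 0, nat_lit 147, nat_lit 1000000, nat_lit 0, nat_lit 0, [(nat_lit 6, [(nat_lit 6, nat_lit 1000)])],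
 ⟨p031_k0, nat_lit 0, nat_lit 0, nat_lit 219, nat_lit 0, nat_lit 191036, [nat_lit 3329066667, nat_lit 3042400001, nat_lit 177599999], [], [nat_lit 15364638417, nat_lit 15874668398, nat_lit 14494868108, nat_lit 14996286002, nat_lit 18482764344, nat_lit 19133671766, nat_lit 17035957749, nat_lit 17584716944], nat_lit 1271250, nat_lit 1271250, nat_lit 43600, nat_lit 230001, nat_lit 1271250, nat_lit 1271250, [nat_lit 1100000, nat_lit 1442500, nat_lit 1271250], [nat_lit 11, nat_lit 40, nat_lit 20, nat_lit 80, nat_lit 1, nat_lit 373, nat_lit 150, nat_lit 10]⟩, C1.Rw.none,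
 ⟨nat_lit 6123, nat_lit 6325, ⟨.ofNat (nat_lit 126498), .ofNat (nat_lit 192309), .ofNat (nat_lit 137182), .ofNat (nat_lit 202993), .ofNat (nat_lit 135519), .ofNat (nat_lit 199824), .ofNat (nat_lit 146193), .ofNat (nat_lit 210498)⟩, ⟨.ofNat (nat_lit 389952), .ofNat (nat_lit 488669), .ofNat (nat_lit 411320), .ofNat (nat_lit 510037), .ofNat (nat_lit 388246), .ofNat (nat_lit 484703), .ofNat (nat_lit 409594), .ofNat (nat_lit 506051)⟩⟩, [⟨nat_lit 0, nat_lit 100, nat_lit 98, nat_lit 35, nat_lit 249558317⟩, ⟨nat_lit 4, nat_lit 97, nat_lit 100, nat_lit 54, nat_lit 548431212⟩]⟩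
noncomputable def p031_l76 : Lf2 := ⟨nat_lit 0, nat_lit 2, [nat_lit 10, nat_lit 5, nat_lit 5, nat_lit 20], true, nat_lit 240, nat_lit 260, nat_lit 0, nat_lit 288, ⟨nat_lit 0, nat_lit 0, nat_lit 1000, nat_lit 5, nat_lit 73, nat_lit 1000, nat_lit 168, nat_lit 1000, nat_lit 212817, nat_lit 328, nat_lit 50417, nat_lit 270, nat_lit 53980062, nat_lit 0, nat_lit 0, nat_lit 3131131, false, false⟩,
 nat_lit 0, nat_lit 7665, nat_lit 0, nat_lit 0, nat_lit 4057, nat_lit 0, nat_lit 52, nat_lit 0, nat_lit 0, nat_lit 0, nat_lit 0, nat_lit 0, nat_lit 0, nat_lit 0, nat_lit 80, nat_lit 1000000, nat_lit 0, nat_lit 0, [(nat_lit 6, [(nat_lit 6, nat_lit 1000)])],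
 ⟨p031_k7, nat_lit 0, nat_lit 0, nat_lit 183, nat_lit 0, nat_lit 225288, [nat_lit 2257066667, nat_lit 1408000000, nat_lit 211200000], [], [nat_lit 14919262376, nat_lit 15428388044, nat_lit 14209552507, nat_lit 14710721216, nat_lit 15994949459, nat_lit 16701776244, nat_lit 15267782732, nat_lit 15763485151], nat_lit 1271250, nat_lit 1271250, nat_lit 65850, nat_lit 230001, nat_lit 1271250, nat_lit 1271250, [nat_lit 1100000, nat_lit 1442500, nat_lit 1271250], [nat_lit 9, nat_lit 40, nat_lit 20, nat_lit 80, nat_lit 2, nat_lit 215, nat_lit 10, nat_lit 7]⟩, C1.Rw.none,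
 ⟨nat_lit 6123, nat_lit 6325, ⟨.ofNat (nat_lit 145408), .ofNat (nat_lit 202993), .ofNat (nat_lit 156092), .ofNat (nat_lit 213677), .ofNat (nat_lit 154231), .ofNat (nat_lit 210498), .ofNat (nat_lit 164905), .ofNat (nat_lit 221172)⟩, ⟨.ofNat (nat_lit 389952), .ofNat (nat_lit 431084), .ofNat (nat_lit 411320), .ofNat (nat_lit 452452), .ofNat (nat_lit 388246), .ofNat (nat_lit 428436), .ofNat (nat_lit 409594), .ofNat (nat_lit 449785)⟩⟩, [⟨nat_lit 0, nat_lit 100, nat_lit 99, nat_lit 40, nat_lit 240691201⟩, ⟨nat_lit 4, nat_lit 97, nat_lit 100, nat_lit 54, nat_lit 384437043⟩]⟩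
noncomputable def p031_l77 : Lf2 := ⟨nat_lit 0, nat_lit 2, [nat_lit 10, nat_lit 5, nat_lit 5, nat_lit 20], true, nat_lit 260, nat_lit 288, nat_lit 0, nat_lit 268, ⟨nat_lit 0, nat_lit 0, nat_lit 1000, nat_lit 5, nat_lit 72, nat_lit 1000, nat_lit 188, nat_lit 1000, nat_lit 29345, nat_lit 255, nat_lit 48600, nat_lit 269, nat_lit 52142198, nat_lit 0, nat_lit 0, nat_lit 3344638, false, false⟩,
 nat_lit 0, nat_lit 7250, nat_lit 0, nat_lit 0, nat_lit 3838, nat_lit 0, nat_lit 0, nat_lit 0, nat_lit 0, nat_lit 0, nat_lit 0, nat_lit 0, nat_lit 0, nat_lit 0, nat_lit 80, nat_lit 1000000, nat_lit 0, nat_lit 0, [(nat_lit 6, [(nat_lit 6, nat_lit 1000)])],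
 ⟨p031_k7, nat_lit 0, nat_lit 0, nat_lit 188, nat_lit 0, nat_lit 203355, [nat_lit 2257066667, nat_lit 1408000000, nat_lit 211200000], [], [nat_lit 16306564208, nat_lit 16798745371, nat_lit 15641277377, nat_lit 16133532462, nat_lit 18012154136, nat_lit 18646880506, nat_lit 17183339590, nat_lit 17650208246], nat_lit 1271250, nat_lit 1271250, nat_lit 65850, nat_lit 230001, nat_lit 1271250, nat_lit 1271250, [nat_lit 1100000, nat_lit 1442500, nat_lit 1271250], [nat_lit 9, nat_lit 40, nat_lit 20, nat_lit 80, nat_lit 2, nat_lit 215, nat_lit 10, nat_lit 7]⟩, C1.Rw.none,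
 ⟨nat_lit 6123, nat_lit 6325, ⟨.ofNat (nat_lit 145408), .ofNat (nat_lit 202993), .ofNat (nat_lit 150750), .ofNat (nat_lit 208335), .ofNat (nat_lit 154231), .ofNat (nat_lit 210498), .ofNat (nat_lit 159568), .ofNat (nat_lit 215835)⟩, ⟨.ofNat (nat_lit 431084), .ofNat (nat_lit 488669), .ofNat (nat_lit 452452), .ofNat (nat_lit 510037), .ofNat (nat_lit 428436), .ofNat (nat_lit 484703), .ofNat (nat_lit 449785), .ofNat (nat_lit 506051)⟩⟩, [⟨nat_lit 0, nat_lit 100, nat_lit 99, nat_lit 39, nat_lit 231838202⟩, ⟨nat_lit 4, nat_lit 97, nat_lit 100, nat_lit 54, nat_lit 513050518⟩]⟩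
noncomputable def p031_l78 : Lf2 := ⟨nat_lit 0, nat_lit 2, [nat_lit 10, nat_lit 5, nat_lit 5, nat_lit 20], false, nat_lit 260, nat_lit 288, nat_lit 0, nat_lit 80, ⟨nat_lit 457, nat_lit 0, nat_lit 543, nat_lit 5, nat_lit 66, nat_lit 543, nat_lit 188, nat_lit 543, nat_lit 29345, nat_lit 255, nat_lit 40017, nat_lit 264, nat_lit 52486823, nat_lit 0, nat_lit 0, nat_lit 3247750, false, false⟩,
 nat_lit 11400, nat_lit 0, nat_lit 0, nat_lit 0, nat_lit 6035, nat_lit 5887, nat_lit 1219, nat_lit 0, nat_lit 0, nat_lit 274, nat_lit 0, nat_lit 0, nat_lit 0, nat_lit 0, nat_lit 0, nat_lit 543000, nat_lit 0, nat_lit 0, [(nat_lit 6, [(nat_lit 6, nat_lit 543)])],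
 ⟨p031_k7, nat_lit 0, nat_lit 0, nat_lit 185, nat_lit 0, nat_lit 200628, [nat_lit 2672963201, nat_lit 2751994001, nat_lit 2695674599], [], [nat_lit 17914369291, nat_lit 18231173066, nat_lit 17296657902, nat_lit 17594529304, nat_lit 20062320013, nat_lit 20459339564, nat_lit 19421129926, nat_lit 19734984873], nat_lit 1271250, nat_lit 1271250, nat_lit 65850, nat_lit 111251, nat_lit 1271250, nat_lit 1271250, [nat_lit 1100000, nat_lit 1442500, nat_lit 1271250], [nat_lit 9, nat_lit 40, nat_lit 20, nat_lit 80, nat_lit 2, nat_lit 215, nat_lit 10, nat_lit 7]⟩, ⟨p031_k28, nat_lit 0, nat_lit 0, nat_lit 282, nat_lit 0, nat_lit 206337, [nat_lit 2856250000, nat_lit 3641376000], [], [nat_lit 11385157712, nat_lit 11666461776, nat_lit 10546318119, nat_lit 10826603068, nat_lit 10286552395, nat_lit 9556341866, nat_lit 10275891494, nat_lit 9547775560], nat_lit 1271250, nat_lit 1271250, nat_lit 65850, nat_lit 111251, nat_lit 0, nat_lit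 490000, [nat_lit 1412500, nat_lit 1271250], [nat_lit 26, nat_lit 40, nat_lit 20, nat_lit 80, nat_lit 2, nat_lit 317, nat_lit 100, nat_lit 11]⟩,
 ⟨nat_lit 6224, nat_lit 6325, ⟨.ofNat (nat_lit 150750), .ofNat (nat_lit 167203), .ofNat (nat_lit 156092), .ofNat (nat_lit 172545), .ofNat (nat_lit 155180), .ofNat (nat_lit 171443), .ofNat (nat_lit 160519), .ofNat (nat_lit 176782)⟩, ⟨.ofNat (nat_lit 431084), .ofNat (nat_lit 488669), .ofNat (nat_lit 452452), .ofNat (nat_lit 510037), .ofNat (nat_lit 429765), .ofNat (nat_lit 486687), .ofNat (nat_lit 451122), .ofNat (nat_lit 508044)⟩⟩, [⟨nat_lit 0, nat_lit 100, nat_lit 99, nat_lit 40, nat_lit 1061994850⟩, ⟨nat_lit 16, nat_lit 100, nat_lit 92, nat_lit 61, nat_lit 375101230⟩, ⟨nat_lit 4, nat_lit 96, nat_lit 100, nat_lit 54, nat_lit 454960714⟩]⟩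
noncomputable def p031_l79 : Lf2 := ⟨nat_lit 0, nat_lit 2, [nat_lit 10, nat_lit 5, nat_lit 5, nat_lit 20], false, nat_lit 260, nat_lit 288, nat_lit 80, nat_lit 160, ⟨nat_lit 1000, nat_lit 0, nat_lit 0, nat_lit 0, nat_lit 0, nat_lit 0, nat_lit 0, nat_lit 0, nat_lit 0, nat_lit 0, nat_lit 0, nat_lit 0, nat_lit 0, nat_lit 0, nat_lit 0, nat_lit 0, false, false⟩,
 nat_lit 18468, nat_lit 0, nat_lit 9881, nat_lit 0, nat_lit 9777, nat_lit 14641, nat_lit 2671, nat_lit 0, nat_lit 0, nat_lit 3111, nat_lit 0, nat_lit 0, nat_lit 0, nat_lit 0, nat_lit 0, nat_lit 0, nat_lit 0, nat_lit 0, [],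
 ⟨p031_k7, nat_lit 0, nat_lit 0, nat_lit 185, nat_lit 0, nat_lit 200628, [nat_lit 4688000000, nat_lit 6250000000, nat_lit 7968000000], [], [nat_lit 19726460922, nat_lit 20318432415, nat_lit 18638767032, nat_lit 19092722566, nat_lit 23554227485, nat_lit 24086920280, nat_lit 22181726861, nat_lit 22715074448], nat_lit 1271250, nat_lit 1271250, nat_lit 65850, nat_lit 111251, nat_lit 1271250, nat_lit 1271250, [nat_lit 1100000, nat_lit 1442500, nat_lit 1271250], [nat_lit 9, nat_lit 40, nat_lit 20, nat_lit 80, nat_lit 2, nat_lit 215, nat_lit 10, nat_lit 7]⟩, ⟨p031_k28, nat_lit 0, nat_lit 0, nat_lit 242, nat_lit 0, nat_lit 206337, [nat_lit 6250000000, nat_lit 7968000000], [], [nat_lit 10170516630, nat_lit 11102776229, nat_lit 8119359076, nat_lit 8792336816, nat_lit 9509121399, nat_lit 10356966381, nat_lit 7639998355, nat_lit 8207514464], nat_lit 1271250, nat_lit 1271250, nat_lit 65850, nat_lit 111251, nat_lit 490000, nat_lit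 1100001, [nat_lit 1412500, nat_lit 1271250], [nat_lit 26, nat_lit 40, nat_lit 20, nat_lit 80, nat_lit 2, nat_lit 345, nat_lit 125, nat_lit 12]⟩,
 zbF0, [⟨nat_lit 0, nat_lit 100, nat_lit 99, nat_lit 40, nat_lit 2858952792⟩, ⟨nat_lit 16, nat_lit 100, nat_lit 96, nat_lit 54, nat_lit 2009331853⟩]⟩
noncomputable def p031_l80 : Lf2 := ⟨nat_lit 0, nat_lit 2, [nat_lit 10, nat_lit 5, nat_lit 5, nat_lit 20], false, nat_lit 260, nat_lit 288, nat_lit 160, nat_lit 232, ⟨nat_lit 302, nat_lit 0, nat_lit 698, nat_lit 5, nat_lit 66, nat_lit 698, nat_lit 188, nat_lit 698, nat_lit 29345, nat_lit 255, nat_lit 40017, nat_lit 264, nat_lit 52486823, nat_lit 0, nat_lit 0, nat_lit 3247750, false, false⟩,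
 nat_lit 10355, nat_lit 0, nat_lit 0, nat_lit 0, nat_lit 5481, nat_lit 5348, nat_lit 885, nat_lit 0, nat_lit 0, nat_lit 0, nat_lit 0, nat_lit 0, nat_lit 0, nat_lit 0, nat_lit 0, nat_lit 698000, nat_lit 0, nat_lit 0, [(nat_lit 6, [(nat_lit 6, nat_lit 698)])],
 ⟨p031_k7, nat_lit 0, nat_lit 0, nat_lit 185, nat_lit 0, nat_lit 200628, [nat_lit 2097768534, nat_lit 1753484000, nat_lit 1201815600], [], [nat_lit 17135217485, nat_lit 17461782590, nat_lit 16568346154, nat_lit 16892089922, nat_lit 19545346005, nat_lit 19922279244, nat_lit 18811298343, nat_lit 19188440792], nat_lit 1271250, nat_lit 1271250, nat_lit 65850, nat_lit 111251, nat_lit 1271250, nat_lit 1271250, [nat_lit 1100000, nat_lit 1442500, nat_lit 1271250], [nat_lit 9, nat_lit 40, nat_lit 20, nat_lit 80, nat_lit 2, nat_lit 215, nat_lit 10, nat_lit 7]⟩, ⟨p031_k28, nat_lit 0, nat_lit 0, nat_lit 202, nat_lit 0, nat_lit 206337, [nat_lit 1887500000, nat_lit 2406336000],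 [], [nat_lit 5779879866, nat_lit 5086717029, nat_lit 4676361780, nat_lit 3985277176, nat_lit 5669705575, nat_lit 5909480871, nat_lit 4958682849, nat_lit 5136650839], nat_lit 1271250, nat_lit 1271250, nat_lit 65850, nat_lit 111251, nat_lit 1100001, nat_lit 1716500, [nat_lit 1412500, nat_lit 1271250], [nat_lit 26, nat_lit 40, nat_lit 20, nat_lit 80, nat_lit 2, nat_lit 345, nat_lit 125, nat_lit 11]⟩,
 ⟨nat_lit 6224, nat_lit 6325, ⟨.ofNat (nat_lit 150750), .ofNat (nat_lit 167203), .ofNat (nat_lit 156092), .ofNat (nat_lit 172545), .ofNat (nat_lit 155180), .ofNat (nat_lit 171443), .ofNat (nat_lit 160519), .ofNat (nat_lit 176782)⟩, ⟨.ofNat (nat_lit 431084), .ofNat (nat_lit 488669), .ofNat (nat_lit 452452), .ofNat (nat_lit 510037), .ofNat (nat_lit 429765), .ofNat (nat_lit 486687), .ofNat (nat_lit 451122), .ofNat (nat_lit 508044)⟩⟩, [⟨nat_lit 0, nat_lit 100, nat_lit 99, nat_lit 40, nat_lit 979581184⟩, ⟨nat_lit 4, nat_lit 96,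 nat_lit 100, nat_lit 54, nat_lit 750279028⟩, ⟨nat_lit 23, nat_lit 93, nat_lit 100, nat_lit 39, nat_lit 203403633⟩]⟩
noncomputable def p031_l81 : Lf2 := ⟨nat_lit 0, nat_lit 2, [nat_lit 10, nat_lit 5, nat_lit 5, nat_lit 20], true, nat_lit 260, nat_lit 284, nat_lit 0, nat_lit 232, ⟨nat_lit 0, nat_lit 0, nat_lit 1000, nat_lit 5, nat_lit 69, nat_lit 1000, nat_lit 186, nat_lit 1000, nat_lit 38520, nat_lit 262, nat_lit 45067, nat_lit 267, nat_lit 52530600, nat_lit 0, nat_lit 0, nat_lit 3271414, false, false⟩,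
 nat_lit 0, nat_lit 7231, nat_lit 0, nat_lit 0, nat_lit 3922, nat_lit 0, nat_lit 404, nat_lit 0, nat_lit 0, nat_lit 0, nat_lit 0, nat_lit 0, nat_lit 0, nat_lit 0, nat_lit 80, nat_lit 1000000, nat_lit 0, nat_lit 0, [(nat_lit 6, [(nat_lit 6, nat_lit 1000)])],
 ⟨p031_k12, nat_lit 0, nat_lit 0, nat_lit 187, nat_lit 0, nat_lit 219176, [nat_lit 2257066667, nat_lit 1408000000, nat_lit 211200000], [], [nat_lit 16270131879, nat_lit 16526765908, nat_lit 16116543242, nat_lit 16372854685, nat_lit 17851768748, nat_lit 18176206715, nat_lit 17600733183, nat_lit 17925186946], nat_lit 1271250, nat_lit 1271250, nat_lit 88400, nat_lit 111251, nat_lit 1271250, nat_lit 1271250, [nat_lit 1100000, nat_lit 1442500, nat_lit 1271250], [nat_lit 9, nat_lit 40, nat_lit 20, nat_lit 80, nat_lit 2, nat_lit 215, nat_lit 10, nat_lit 6]⟩, C1.Rw.none,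
 ⟨nat_lit 6123, nat_lit 6225, ⟨.ofNat (nat_lit 163311), .ofNat (nat_lit 171443), .ofNat (nat_lit 168651), .ofNat (nat_lit 176782), .ofNat (nat_lit 167607), .ofNat (nat_lit 175645), .ofNat (nat_lit 172944), .ofNat (nat_lit 180982)⟩, ⟨.ofNat (nat_lit 429765), .ofNat (nat_lit 478556), .ofNat (nat_lit 451122), .ofNat (nat_lit 499912), .ofNat (nat_lit 428436), .ofNat (nat_lit 476665), .ofNat (nat_lit 449785), .ofNat (nat_lit 498013)⟩⟩, [⟨nat_lit 0, nat_lit 100, nat_lit 99, nat_lit 42, nat_lit 427135029⟩, ⟨nat_lit 4, nat_lit 98, nat_lit 100, nat_lit 54, nat_lit 521651411⟩]⟩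
noncomputable def p031_l82 : Lf2 := ⟨nat_lit 0, nat_lit 1, [nat_lit 19, nat_lit 5, nat_lit 5, nat_lit 20], false, nat_lit 260, nat_lit 288, nat_lit 0, nat_lit 80, ⟨nat_lit 533, nat_lit 0, nat_lit 467, nat_lit 5, nat_lit 70, nat_lit 467, nat_lit 188, nat_lit 467, nat_lit 29345, nat_lit 255, nat_lit 46817, nat_lit 268, nat_lit 52218299, nat_lit 0, nat_lit 0, nat_lit 3319844, false, false⟩,
 nat_lit 13594, nat_lit 0, nat_lit 0, nat_lit 0, nat_lit 6582, nat_lit 7020, nat_lit 0, nat_lit 0, nat_lit 0, nat_lit 448, nat_lit 0, nat_lit 0, nat_lit 0, nat_lit 0, nat_lit 0, nat_lit 467000, nat_lit 0, nat_lit 0, [(nat_lit 6, [(nat_lit 6, nat_lit 467)])],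
 ⟨p031_k29, nat_lit 0, nat_lit 0, nat_lit 145, nat_lit 0, nat_lit 197443, [nat_lit 2954994134, nat_lit 3241586000], [], [nat_lit 17432696464, nat_lit 17791791648, nat_lit 17221626406, nat_lit 17579882181, nat_lit 19713138085, nat_lit 20092263802, nat_lit 19496229852, nat_lit 19823597908], nat_lit 1271250, nat_lit 1271250, nat_lit 111251, nat_lit 134400, nat_lit 1271250, nat_lit 1271250, [nat_lit 1100000, nat_lit 1442500], [nat_lit 31, nat_lit 40, nat_lit 20, nat_lit 80, nat_lit 3, nat_lit 215, nat_lit 10, nat_lit 7]⟩, ⟨p031_k30, nat_lit 0, nat_lit 0, nat_lit 278, nat_lit 0, nat_lit 203015, [nat_lit 3331250000, nat_lit 4246944000], [], [nat_lit 12161896424, nat_lit 12496774056, nat_lit 11835235065, nat_lit 12167105920, nat_lit 11760256248, nat_lit 10892008608, nat_lit 11771072222, nat_lit 10904055188], nat_lit 1271250, nat_lit 1271250, nat_lit 111251, nat_lit 134400, nat_lit 0, nat_lit 490000, [nat_lit 1412500, nat_lit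 1271250], [nat_lit 26, nat_lit 40, nat_lit 20, nat_lit 80, nat_lit 2, nat_lit 317, nat_lit 100, nat_lit 11]⟩,
 ⟨nat_lit 6224, nat_lit 6325, ⟨.ofNat (nat_lit 167203), .ofNat (nat_lit 175430), .ofNat (nat_lit 172545), .ofNat (nat_lit 180772), .ofNat (nat_lit 171443), .ofNat (nat_lit 179575), .ofNat (nat_lit 176782), .ofNat (nat_lit 184914)⟩, ⟨.ofNat (nat_lit 431084), .ofNat (nat_lit 488669), .ofNat (nat_lit 452452), .ofNat (nat_lit 510037), .ofNat (nat_lit 429765), .ofNat (nat_lit 486687), .ofNat (nat_lit 451122), .ofNat (nat_lit 508044)⟩⟩, [⟨nat_lit 4, nat_lit 96, nat_lit 100, nat_lit 54, nat_lit 968296304⟩]⟩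
noncomputable def p031_l83 : Lf2 := ⟨nat_lit 0, nat_lit 1, [nat_lit 19, nat_lit 5, nat_lit 5, nat_lit 20], false, nat_lit 260, nat_lit 288, nat_lit 80, nat_lit 160, ⟨nat_lit 1000, nat_lit 0, nat_lit 0, nat_lit 0, nat_lit 0, nat_lit 0, nat_lit 0, nat_lit 0, nat_lit 0, nat_lit 0, nat_lit 0, nat_lit 0, nat_lit 0, nat_lit 0, nat_lit 0, nat_lit 0, false, false⟩,
 nat_lit 18722, nat_lit 0, nat_lit 8141, nat_lit 0, nat_lit 9911, nat_lit 13874, nat_lit 0, nat_lit 0, nat_lit 0, nat_lit 3607, nat_lit 0, nat_lit 0, nat_lit 0, nat_lit 0, nat_lit 0, nat_lit 0, nat_lit 0, nat_lit 0, [],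
 ⟨p031_k29, nat_lit 0, nat_lit 0, nat_lit 145, nat_lit 0, nat_lit 197443, [nat_lit 4688000000, nat_lit 6250000000], [], [nat_lit 18562395972, nat_lit 19021109817, nat_lit 18212029235, nat_lit 18669623203, nat_lit 22286856615, nat_lit 22825076522, nat_lit 21828053264, nat_lit 22365503567], nat_lit 1271250, nat_lit 1271250, nat_lit 111251, nat_lit 134400, nat_lit 1271250, nat_lit 1271250, [nat_lit 1100000, nat_lit 1442500], [nat_lit 31, nat_lit 40, nat_lit 20, nat_lit 80, nat_lit 3, nat_lit 215, nat_lit 10, nat_lit 7]⟩, ⟨p031_k30, nat_lit 0, nat_lit 0, nat_lit 238, nat_lit 0, nat_lit 203015, [nat_lit 6250000000, nat_lit 7968000000], [], [nat_lit 7915029507, nat_lit 8730841824, nat_lit 7375974856, nat_lit 8003473482, nat_lit 8906196470, nat_lit 8294578736, nat_lit 8862243175, nat_lit 7639408042], nat_lit 1271250, nat_lit 1271250, nat_lit 111251, nat_lit 134400, nat_lit 490000, nat_lit 1100001, [nat_lit 1412500, nat_lit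 1271250], [nat_lit 26, nat_lit 40, nat_lit 20, nat_lit 80, nat_lit 2, nat_lit 345, nat_lit 125, nat_lit 12]⟩,
 zbF0, [⟨nat_lit 4, nat_lit 96, nat_lit 100, nat_lit 54, nat_lit 1985117239⟩]⟩
noncomputable def p031_l84 : Lf2 := ⟨nat_lit 0, nat_lit 1, [nat_lit 19, nat_lit 5, nat_lit 5, nat_lit 20], false, nat_lit 260, nat_lit 288, nat_lit 160, nat_lit 240, ⟨nat_lit 362, nat_lit 0, nat_lit 638, nat_lit 5, nat_lit 70, nat_lit 638, nat_lit 188, nat_lit 638, nat_lit 29345, nat_lit 255, nat_lit 46817, nat_lit 268, nat_lit 52218299, nat_lit 0, nat_lit 0, nat_lit 3319844, false, false⟩,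
 nat_lit 11597, nat_lit 0, nat_lit 0, nat_lit 0, nat_lit 6139, nat_lit 5989, nat_lit 0, nat_lit 0, nat_lit 0, nat_lit 800, nat_lit 0, nat_lit 0, nat_lit 0, nat_lit 0, nat_lit 0, nat_lit 638000, nat_lit 0, nat_lit 0, [(nat_lit 6, [(nat_lit 6, nat_lit 638)])],
 ⟨p031_k29, nat_lit 0, nat_lit 0, nat_lit 145, nat_lit 0, nat_lit 197443, [nat_lit 2320424534, nat_lit 2140004000], [], [nat_lit 16581120628, nat_lit 16962622623, nat_lit 16388587196, nat_lit 16733623741, nat_lit 19327532506, nat_lit 19728600229, nat_lit 19066636641, nat_lit 19467121927], nat_lit 1271250, nat_lit 1271250, nat_lit 111251, nat_lit 134400, nat_lit 1271250, nat_lit 1271250, [nat_lit 1100000, nat_lit 1442500], [nat_lit 31, nat_lit 40, nat_lit 20, nat_lit 80, nat_lit 3, nat_lit 215, nat_lit 10, nat_lit 7]⟩, ⟨p031_k30, nat_lit 0, nat_lit 0, nat_lit 198, nat_lit 0, nat_lit 203015, [nat_lit 2262500000, nat_lit 2884416000], [], [nat_lit 2662719456, nat_lit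 2892698920, nat_lit 2438712915, nat_lit 2663113296, nat_lit 6895622407, nat_lit 6397418676, nat_lit 6887833032, nat_lit 6137445469], nat_lit 1271250, nat_lit 1271250, nat_lit 111251, nat_lit 134400, nat_lit 1100001, nat_lit 1785000, [nat_lit 1412500, nat_lit 1271250], [nat_lit 26, nat_lit 40, nat_lit 20, nat_lit 80, nat_lit 2, nat_lit 373, nat_lit 150, nat_lit 12]⟩,
 ⟨nat_lit 6224, nat_lit 6325, ⟨.ofNat (nat_lit 167203), .ofNat (nat_lit 175430), .ofNat (nat_lit 172545), .ofNat (nat_lit 180772), .ofNat (nat_lit 171443), .ofNat (nat_lit 179575), .ofNat (nat_lit 176782), .ofNat (nat_lit 184914)⟩, ⟨.ofNat (nat_lit 431084), .ofNat (nat_lit 488669), .ofNat (nat_lit 452452), .ofNat (nat_lit 510037), .ofNat (nat_lit 429765), .ofNat (nat_lit 486687), .ofNat (nat_lit 451122), .ofNat (nat_lit 508044)⟩⟩, [⟨nat_lit 4, nat_lit 96, nat_lit 100, nat_lit 54, nat_lit 808571168⟩, ⟨nat_lit 23, nat_lit 97, nat_lit 100, nat_lit 48, nat_lit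 630186564⟩]⟩
noncomputable def p031_l85 : Lf2 := ⟨nat_lit 0, nat_lit 1, [nat_lit 19, nat_lit 5, nat_lit 5, nat_lit 20], true, nat_lit 260, nat_lit 288, nat_lit 0, nat_lit 256, ⟨nat_lit 0, nat_lit 0, nat_lit 1000, nat_lit 5, nat_lit 75, nat_lit 1000, nat_lit 188, nat_lit 1000, nat_lit 29345, nat_lit 255, nat_lit 54150, nat_lit 272, nat_lit 51941678, nat_lit 0, nat_lit 0, nat_lit 3391364, false, false⟩,
 nat_lit 0, nat_lit 7555, nat_lit 0, nat_lit 0, nat_lit 3999, nat_lit 0, nat_lit 0, nat_lit 0, nat_lit 0, nat_lit 0, nat_lit 0, nat_lit 0, nat_lit 0, nat_lit 0, nat_lit 10, nat_lit 1000000, nat_lit 0, nat_lit 0, [(nat_lit 6, [(nat_lit 6, nat_lit 1000)])],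
 ⟨p031_k29, nat_lit 0, nat_lit 0, nat_lit 143, nat_lit 0, nat_lit 197443, [nat_lit 1137066667, nat_lit 8000000], [], [nat_lit 15684269943, nat_lit 15924095855, nat_lit 15525484532, nat_lit 15764085369, nat_lit 17499979278, nat_lit 17822759067, nat_lit 17202748533, nat_lit 17524575821], nat_lit 1271250, nat_lit 1271250, nat_lit 134400, nat_lit 181601, nat_lit 1271250, nat_lit 1271250, [nat_lit 1100000, nat_lit 1442500], [nat_lit 31, nat_lit 40, nat_lit 20, nat_lit 80, nat_lit 3, nat_lit 215, nat_lit 10, nat_lit 7]⟩, C1.Rw.none,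
 ⟨nat_lit 6224, nat_lit 6325, ⟨.ofNat (nat_lit 175430), .ofNat (nat_lit 191883), .ofNat (nat_lit 180772), .ofNat (nat_lit 197224), .ofNat (nat_lit 179575), .ofNat (nat_lit 195838), .ofNat (nat_lit 184914), .ofNat (nat_lit 201178)⟩, ⟨.ofNat (nat_lit 431084), .ofNat (nat_lit 488669), .ofNat (nat_lit 452452), .ofNat (nat_lit 510037), .ofNat (nat_lit 429765), .ofNat (nat_lit 486687), .ofNat (nat_lit 451122), .ofNat (nat_lit 508044)⟩⟩, [⟨nat_lit 4, nat_lit 96, nat_lit 100, nat_lit 54, nat_lit 549595311⟩]⟩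
noncomputable def p031_l86 : Lf2 := ⟨nat_lit 0, nat_lit 1, [nat_lit 19, nat_lit 5, nat_lit 5, nat_lit 20], true, nat_lit 260, nat_lit 288, nat_lit 0, nat_lit 268, ⟨nat_lit 0, nat_lit 0, nat_lit 1000, nat_lit 5, nat_lit 82, nat_lit 1000, nat_lit 188, nat_lit 1000, nat_lit 29345, nat_lit 255, nat_lit 62017, nat_lit 276, nat_lit 51561081, nat_lit 0, nat_lit 0, nat_lit 3485640, false, false⟩,
 nat_lit 0, nat_lit 7700, nat_lit 0, nat_lit 0, nat_lit 4076, nat_lit 0, nat_lit 0, nat_lit 0, nat_lit 0, nat_lit 0, nat_lit 0, nat_lit 0, nat_lit 0, nat_lit 0, nat_lit 10, nat_lit 1000000, nat_lit 0, nat_lit 0, [(nat_lit 6, [(nat_lit 6, nat_lit 1000)])],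
 ⟨p031_k29, nat_lit 0, nat_lit 0, nat_lit 139, nat_lit 0, nat_lit 197443, [nat_lit 1137066667, nat_lit 8000000], [], [nat_lit 15399692327, nat_lit 15640057488, nat_lit 15235379087, nat_lit 15474505789, nat_lit 17251038916, nat_lit 17575654509, nat_lit 16945728173, nat_lit 17269383623], nat_lit 1271250, nat_lit 1271250, nat_lit 181601, nat_lit 230001, nat_lit 1271250, nat_lit 1271250, [nat_lit 1100000, nat_lit 1442500], [nat_lit 31, nat_lit 40, nat_lit 20, nat_lit 80, nat_lit 3, nat_lit 215, nat_lit 10, nat_lit 7]⟩, C1.Rw.none,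
 ⟨nat_lit 6224, nat_lit 6325, ⟨.ofNat (nat_lit 191883), .ofNat (nat_lit 208335), .ofNat (nat_lit 197224), .ofNat (nat_lit 213677), .ofNat (nat_lit 195838), .ofNat (nat_lit 212102), .ofNat (nat_lit 201178), .ofNat (nat_lit 217441)⟩, ⟨.ofNat (nat_lit 431084), .ofNat (nat_lit 488669), .ofNat (nat_lit 452452), .ofNat (nat_lit 510037), .ofNat (nat_lit 429765), .ofNat (nat_lit 486687), .ofNat (nat_lit 451122), .ofNat (nat_lit 508044)⟩⟩, [⟨nat_lit 4, nat_lit 96, nat_lit 100, nat_lit 54, nat_lit 561458991⟩]⟩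
noncomputable def p031_l87 : Lf2 := ⟨nat_lit 0, nat_lit 1, [nat_lit 19, nat_lit 5, nat_lit 5, nat_lit 20], true, nat_lit 260, nat_lit 284, nat_lit 0, nat_lit 268, ⟨nat_lit 0, nat_lit 0, nat_lit 1000, nat_lit 5, nat_lit 79, nat_lit 1000, nat_lit 186, nat_lit 1000, nat_lit 38520, nat_lit 262, nat_lit 58017, nat_lit 274, nat_lit 51977831, nat_lit 0, nat_lit 0, nat_lit 3413034, false, false⟩,
 nat_lit 0, nat_lit 7208, nat_lit 0, nat_lit 0, nat_lit 3909, nat_lit 0, nat_lit 14, nat_lit 0, nat_lit 0, nat_lit 0, nat_lit 0, nat_lit 0, nat_lit 0, nat_lit 0, nat_lit 10, nat_lit 1000000, nat_lit 0, nat_lit 0, [(nat_lit 6, [(nat_lit 6, nat_lit 1000)])],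
 ⟨p031_k31, nat_lit 0, nat_lit 0, nat_lit 144, nat_lit 0, nat_lit 215744, [nat_lit 1137066667, nat_lit 8000000], [], [nat_lit 16136509893, nat_lit 16392478244, nat_lit 15760904811, nat_lit 16013562786, nat_lit 17590572851, nat_lit 17914543979, nat_lit 17086287105, nat_lit 17323841226], nat_lit 1271250, nat_lit 1271250, nat_lit 111251, nat_lit 230001, nat_lit 1271250, nat_lit 1271250, [nat_lit 1100000, nat_lit 1442500], [nat_lit 31, nat_lit 40, nat_lit 20, nat_lit 80, nat_lit 3, nat_lit 215, nat_lit 10, nat_lit 7]⟩, C1.Rw.none,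
 ⟨nat_lit 6123, nat_lit 6225, ⟨.ofNat (nat_lit 171443), .ofNat (nat_lit 212102), .ofNat (nat_lit 176782), .ofNat (nat_lit 217441), .ofNat (nat_lit 175645), .ofNat (nat_lit 215835), .ofNat (nat_lit 180982), .ofNat (nat_lit 221172)⟩, ⟨.ofNat (nat_lit 429765), .ofNat (nat_lit 478556), .ofNat (nat_lit 451122), .ofNat (nat_lit 499912), .ofNat (nat_lit 428436), .ofNat (nat_lit 476665), .ofNat (nat_lit 449785), .ofNat (nat_lit 498013)⟩⟩, [⟨nat_lit 4, nat_lit 98, nat_lit 100, nat_lit 54, nat_lit 510701141⟩]⟩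
noncomputable def p031_l88 : Lf2 := ⟨nat_lit 0, nat_lit 2, [nat_lit 10, nat_lit 5, nat_lit 5, nat_lit 20], true, nat_lit 260, nat_lit 288, nat_lit 0, nat_lit 268, ⟨nat_lit 0, nat_lit 0, nat_lit 1000, nat_lit 5, nat_lit 78, nat_lit 1000, nat_lit 188, nat_lit 1000, nat_lit 29345, nat_lit 255, nat_lit 56067, nat_lit 273, nat_lit 51834379, nat_lit 0, nat_lit 0, nat_lit 3422889, false, false⟩,
 nat_lit 0, nat_lit 7672, nat_lit 0, nat_lit 0, nat_lit 4061, nat_lit 0, nat_lit 0, nat_lit 0, nat_lit 0, nat_lit 0, nat_lit 0, nat_lit 0, nat_lit 0, nat_lit 0, nat_lit 80, nat_lit 1000000, nat_lit 0, nat_lit 0, [(nat_lit 6, [(nat_lit 6, nat_lit 1000)])],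
 ⟨p031_k7, nat_lit 0, nat_lit 0, nat_lit 167, nat_lit 0, nat_lit 175183, [nat_lit 2257066667, nat_lit 1408000000, nat_lit 211200000], [], [nat_lit 15669051887, nat_lit 16183348389, nat_lit 15260960912, nat_lit 15756726296, nat_lit 17697236775, nat_lit 18348257568, nat_lit 16937894981, nat_lit 17584122506], nat_lit 1271250, nat_lit 1271250, nat_lit 111251, nat_lit 230001, nat_lit 1271250, nat_lit 1271250, [nat_lit 1100000, nat_lit 1442500, nat_lit 1271250], [nat_lit 9, nat_lit 40, nat_lit 20, nat_lit 80, nat_lit 2, nat_lit 215, nat_lit 10, nat_lit 6]⟩, C1.Rw.none,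
 ⟨nat_lit 6123, nat_lit 6325, ⟨.ofNat (nat_lit 167203), .ofNat (nat_lit 208335), .ofNat (nat_lit 172545), .ofNat (nat_lit 213677), .ofNat (nat_lit 175645), .ofNat (nat_lit 215835), .ofNat (nat_lit 180982), .ofNat (nat_lit 221172)⟩, ⟨.ofNat (nat_lit 431084), .ofNat (nat_lit 488669), .ofNat (nat_lit 452452), .ofNat (nat_lit 510037), .ofNat (nat_lit 428436), .ofNat (nat_lit 484703), .ofNat (nat_lit 449785), .ofNat (nat_lit 506051)⟩⟩, [⟨nat_lit 16, nat_lit 100, nat_lit 92, nat_lit 61, nat_lit 548848001⟩]⟩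
noncomputable def p031_l89 : Lf2 := ⟨nat_lit 0, nat_lit 5, [nat_lit 4, nat_lit 5, nat_lit 5, nat_lit 20], true, nat_lit 240, nat_lit 260, nat_lit 0, nat_lit 288, ⟨nat_lit 0, nat_lit 0, nat_lit 1000, nat_lit 5, nat_lit 73, nat_lit 1000, nat_lit 168, nat_lit 1000, nat_lit 212817, nat_lit 328, nat_lit 50417, nat_lit 270, nat_lit 53980062, nat_lit 0, nat_lit 0, nat_lit 3131131, false, false⟩,
 nat_lit 0, nat_lit 7966, nat_lit 0, nat_lit 0, nat_lit 4217, nat_lit 0, nat_lit 0, nat_lit 0, nat_lit 0, nat_lit 0, nat_lit 0, nat_lit 0, nat_lit 0, nat_lit 0, nat_lit 140, nat_lit 947200, nat_lit 0, nat_lit 0, [(nat_lit 6, [(nat_lit 5, nat_lit 88), (nat_lit 6, nat_lit 912)])],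
 ⟨p031_k0, nat_lit 0, nat_lit 0, nat_lit 186, nat_lit 0, nat_lit 140929, [nat_lit 3255833601, nat_lit 2900428801, nat_lit 149292799], [], [nat_lit 15004569354, nat_lit 15521843363, nat_lit 14250047442, nat_lit 14759190071, nat_lit 16098481450, nat_lit 16819508436, nat_lit 15326105667, nat_lit 15810771610], nat_lit 1271250, nat_lit 1271250, nat_lit 65850, nat_lit 230001, nat_lit 1271250, nat_lit 1271250, [nat_lit 1100000, nat_lit 1442500, nat_lit 1271250], [nat_lit 11, nat_lit 40, nat_lit 20, nat_lit 80, nat_lit 1, nat_lit 373, nat_lit 150, nat_lit 10]⟩, C1.Rw.none,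
 ⟨nat_lit 6123, nat_lit 6325, ⟨.ofNat (nat_lit 145408), .ofNat (nat_lit 202993), .ofNat (nat_lit 156092), .ofNat (nat_lit 213677), .ofNat (nat_lit 154231), .ofNat (nat_lit 210498), .ofNat (nat_lit 164905), .ofNat (nat_lit 221172)⟩, ⟨.ofNat (nat_lit 389952), .ofNat (nat_lit 431084), .ofNat (nat_lit 411320), .ofNat (nat_lit 452452), .ofNat (nat_lit 388246), .ofNat (nat_lit 428436), .ofNat (nat_lit 409594), .ofNat (nat_lit 449785)⟩⟩, [⟨nat_lit 0, nat_lit 100, nat_lit 99, nat_lit 40, nat_lit 248751288⟩, ⟨nat_lit 4, nat_lit 97, nat_lit 100, nat_lit 54, nat_lit 392848747⟩]⟩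
noncomputable def p031_l90 : Lf2 := ⟨nat_lit 0, nat_lit 4, [nat_lit 38, nat_lit 5, nat_lit 5, nat_lit 20], true, nat_lit 260, nat_lit 288, nat_lit 0, nat_lit 232, ⟨nat_lit 0, nat_lit 0, nat_lit 1000, nat_lit 5, nat_lit 65, nat_lit 1000, nat_lit 188, nat_lit 1000, nat_lit 29345, nat_lit 255, nat_lit 40017, nat_lit 264, nat_lit 52531168, nat_lit 0, nat_lit 0, nat_lit 3240953, false, false⟩,
 nat_lit 0, nat_lit 7681, nat_lit 0, nat_lit 2689, nat_lit 4066, nat_lit 0, nat_lit 0, nat_lit 0, nat_lit 0, nat_lit 0, nat_lit 0, nat_lit 0, nat_lit 0, nat_lit 0, nat_lit 80, nat_lit 997600, nat_lit 0, nat_lit 0, [(nat_lit 6, [(nat_lit 5, nat_lit 4), (nat_lit 6, nat_lit 996)])],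
 ⟨p031_k17, nat_lit 0, nat_lit 0, nat_lit 163, nat_lit 0, nat_lit 136201, [nat_lit 2258828800, nat_lit 1408900800, nat_lit 214532800], [], [nat_lit 16062044250, nat_lit 16708398680, nat_lit 15664084920, nat_lit 16186284384, nat_lit 18224916002, nat_lit 18876175510, nat_lit 17701159527, nat_lit 18352543926], nat_lit 1271250, nat_lit 1271250, nat_lit 65850, nat_lit 111251, nat_lit 1271250, nat_lit 1271250, [nat_lit 1100000, nat_lit 1442500, nat_lit 1271250], [nat_lit 9, nat_lit 40, nat_lit 20, nat_lit 80, nat_lit 2, nat_lit 215, nat_lit 10, nat_lit 7]⟩, C1.Rw.none,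
 ⟨nat_lit 6123, nat_lit 6325, ⟨.ofNat (nat_lit 145408), .ofNat (nat_lit 161861), .ofNat (nat_lit 156092), .ofNat (nat_lit 172545), .ofNat (nat_lit 154231), .ofNat (nat_lit 170308), .ofNat (nat_lit 164905), .ofNat (nat_lit 180982)⟩, ⟨.ofNat (nat_lit 431084), .ofNat (nat_lit 488669), .ofNat (nat_lit 452452), .ofNat (nat_lit 510037), .ofNat (nat_lit 428436), .ofNat (nat_lit 484703), .ofNat (nat_lit 449785), .ofNat (nat_lit 506051)⟩⟩, [⟨nat_lit 0, nat_lit 100, nat_lit 99, nat_lit 40, nat_lit 362148538⟩, ⟨nat_lit 4, nat_lit 97, nat_lit 100, nat_lit 54, nat_lit 664039862⟩]⟩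
noncomputable def p031_l91 : Lf2 := ⟨nat_lit 0, nat_lit 4, [nat_lit 38, nat_lit 5, nat_lit 5, nat_lit 20], true, nat_lit 260, nat_lit 288, nat_lit 0, nat_lit 268, ⟨nat_lit 0, nat_lit 0, nat_lit 1000, nat_lit 5, nat_lit 77, nat_lit 1000, nat_lit 188, nat_lit 1000, nat_lit 29345, nat_lit 255, nat_lit 56067, nat_lit 273, nat_lit 51896108, nat_lit 0, nat_lit 0, nat_lit 3407448, false, false⟩,
 nat_lit 0, nat_lit 7681, nat_lit 0, nat_lit 1955, nat_lit 4066, nat_lit 0, nat_lit 0, nat_lit 0, nat_lit 0, nat_lit 0, nat_lit 0, nat_lit 0, nat_lit 0, nat_lit 0, nat_lit 80, nat_lit 997600, nat_lit 0, nat_lit 0, [(nat_lit 6, [(nat_lit 5, nat_lit 4), (nat_lit 6, nat_lit 996)])],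
 ⟨p031_k17, nat_lit 0, nat_lit 0, nat_lit 152, nat_lit 0, nat_lit 136201, [nat_lit 2258828800, nat_lit 1408900800, nat_lit 214532800], [], [nat_lit 15664084920, nat_lit 16186284384, nat_lit 15255096570, nat_lit 15751801993, nat_lit 17701159527, nat_lit 18352543926, nat_lit 16940506045, nat_lit 17587094695], nat_lit 1271250, nat_lit 1271250, nat_lit 111251, nat_lit 230001, nat_lit 1271250, nat_lit 1271250, [nat_lit 1100000, nat_lit 1442500, nat_lit 1271250], [nat_lit 9, nat_lit 40, nat_lit 20, nat_lit 80, nat_lit 2, nat_lit 215, nat_lit 10, nat_lit 6]⟩, C1.Rw.none,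
 ⟨nat_lit 6123, nat_lit 6325, ⟨.ofNat (nat_lit 161861), .ofNat (nat_lit 202993), .ofNat (nat_lit 172545), .ofNat (nat_lit 213677), .ofNat (nat_lit 170308), .ofNat (nat_lit 210498), .ofNat (nat_lit 180982), .ofNat (nat_lit 221172)⟩, ⟨.ofNat (nat_lit 431084), .ofNat (nat_lit 488669), .ofNat (nat_lit 452452), .ofNat (nat_lit 510037), .ofNat (nat_lit 428436), .ofNat (nat_lit 484703), .ofNat (nat_lit 449785), .ofNat (nat_lit 506051)⟩⟩, [⟨nat_lit 16, nat_lit 100, nat_lit 97, nat_lit 54, nat_lit 622540345⟩]⟩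
noncomputable def p031_l92 : Lf2 := ⟨nat_lit 0, nat_lit 5, [nat_lit 4, nat_lit 5, nat_lit 5, nat_lit 20], true, nat_lit 260, nat_lit 288, nat_lit 0, nat_lit 268, ⟨nat_lit 0, nat_lit 0, nat_lit 1000, nat_lit 5, nat_lit 73, nat_lit 1000, nat_lit 188, nat_lit 1000, nat_lit 29345, nat_lit 255, nat_lit 50417, nat_lit 270, nat_lit 52081935, nat_lit 0, nat_lit 0, nat_lit 3360209, false, false⟩,
 nat_lit 0, nat_lit 8034, nat_lit 0, nat_lit 477326, nat_lit 4253, nat_lit 0, nat_lit 0, nat_lit 0, nat_lit 0, nat_lit 0, nat_lit 0, nat_lit 0, nat_lit 0, nat_lit 0, nat_lit 129, nat_lit 857800, nat_lit 0, nat_lit 0, [(nat_lit 6, [(nat_lit 5, nat_lit 237), (nat_lit 6, nat_lit 763)])],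
 ⟨p031_k0, nat_lit 0, nat_lit 0, nat_lit 169, nat_lit 0, nat_lit 60566, [nat_lit 3145473067, nat_lit 2677091201, nat_lit 125227199], [], [nat_lit 16343721585, nat_lit 16845998179, nat_lit 15327011153, nat_lit 15813314340, nat_lit 18399418059, nat_lit 19064237640, nat_lit 17038159839, nat_lit 17698254564], nat_lit 1271250, nat_lit 1271250, nat_lit 65850, nat_lit 230001, nat_lit 1271250, nat_lit 1271250, [nat_lit 1100000, nat_lit 1442500, nat_lit 1271250], [nat_lit 11, nat_lit 40, nat_lit 20, nat_lit 80, nat_lit 1, nat_lit 373, nat_lit 150, nat_lit 10]⟩, C1.Rw.none,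
 ⟨nat_lit 6123, nat_lit 6325, ⟨.ofNat (nat_lit 145408), .ofNat (nat_lit 202993), .ofNat (nat_lit 156092), .ofNat (nat_lit 213677), .ofNat (nat_lit 154231), .ofNat (nat_lit 210498), .ofNat (nat_lit 164905), .ofNat (nat_lit 221172)⟩, ⟨.ofNat (nat_lit 431084), .ofNat (nat_lit 488669), .ofNat (nat_lit 452452), .ofNat (nat_lit 510037), .ofNat (nat_lit 428436), .ofNat (nat_lit 484703), .ofNat (nat_lit 449785), .ofNat (nat_lit 506051)⟩⟩, [⟨nat_lit 0, nat_lit 100, nat_lit 99, nat_lit 45, nat_lit 293762235⟩, ⟨nat_lit 16, nat_lit 100, nat_lit 97, nat_lit 54, nat_lit 10309278351⟩, ⟨nat_lit 16, nat_lit 100, nat_lit 92, nat_lit 61, nat_lit 10869565217⟩, ⟨nat_lit 4, nat_lit 97, nat_lit 100, nat_lit 54, nat_lit 10309278351⟩]⟩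
noncomputable def p031_l93 : Lf2 := ⟨nat_lit 0, nat_lit 5, [nat_lit 4, nat_lit 5, nat_lit 5, nat_lit 20], true, nat_lit 240, nat_lit 280, nat_lit 0, nat_lit 288, ⟨nat_lit 0, nat_lit 0, nat_lit 1000, nat_lit 5, nat_lit 75, nat_lit 1000, nat_lit 175, nat_lit 1000, nat_lit 51683, nat_lit 270, nat_lit 52267, nat_lit 271, nat_lit 53234474, nat_lit 0, nat_lit 0, nat_lit 3233505, false, false⟩,
 nat_lit 0, nat_lit 7038, nat_lit 0, nat_lit 0, nat_lit 3909, nat_lit 0, nat_lit 152, nat_lit 0, nat_lit 0, nat_lit 0, nat_lit 0, nat_lit 0, nat_lit 0, nat_lit 0, nat_lit 80, nat_lit 1000000, nat_lit 0, nat_lit 0, [(nat_lit 6, [(nat_lit 6, nat_lit 1000)])],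
 ⟨p031_k14, nat_lit 0, nat_lit 0, nat_lit 214, nat_lit 0, nat_lit 274421, [nat_lit 2257066667, nat_lit 1408000000, nat_lit 211200000], [], [nat_lit 15588963040, nat_lit 16128046041, nat_lit 14921664085, nat_lit 15452153124, nat_lit 18111023830, nat_lit 18766912367, nat_lit 17105461486, nat_lit 17585604345], nat_lit 1271250, nat_lit 1271250, nat_lit 65850, nat_lit 230001, nat_lit 1271250, nat_lit 1271250, [nat_lit 1100000, nat_lit 1442500, nat_lit 1271250], [nat_lit 9, nat_lit 40, nat_lit 20, nat_lit 80, nat_lit 2, nat_lit 215, nat_lit 10, nat_lit 7]⟩, C1.Rw.none,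
 ⟨nat_lit 5916, nat_lit 6124, ⟨.ofNat (nat_lit 143557), .ofNat (nat_lit 199824), .ofNat (nat_lit 164905), .ofNat (nat_lit 221172), .ofNat (nat_lit 152230), .ofNat (nat_lit 207203), .ofNat (nat_lit 173569), .ofNat (nat_lit 228543)⟩, ⟨.ofNat (nat_lit 388246), .ofNat (nat_lit 468627), .ofNat (nat_lit 409594), .ofNat (nat_lit 489975), .ofNat (nat_lit 386479), .ofNat (nat_lit 465012), .ofNat (nat_lit 407818), .ofNat (nat_lit 486351)⟩⟩, [⟨nat_lit 0, nat_lit 100, nat_lit 97, nat_lit 42, nat_lit 233685591⟩, ⟨nat_lit 4, nat_lit 100, nat_lit 100, nat_lit 55, nat_lit 520550814⟩]⟩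
noncomputable def p031_l94 : Lf2 := ⟨nat_lit 0, nat_lit 5, [nat_lit 4, nat_lit 5, nat_lit 5, nat_lit 20], true, nat_lit 240, nat_lit 268, nat_lit 0, nat_lit 288, ⟨nat_lit 0, nat_lit 0, nat_lit 1000, nat_lit 5, nat_lit 81, nat_lit 1000, nat_lit 169, nat_lit 1000, nat_lit 126379, nat_lit 302, nat_lit 62017, nat_lit 276, nat_lit 53455681, nat_lit 0, nat_lit 0, nat_lit 3250846, false, false⟩,
 nat_lit 0, nat_lit 7864, nat_lit 0, nat_lit 0, nat_lit 4577, nat_lit 0, nat_lit 0, nat_lit 0, nat_lit 0, nat_lit 0, nat_lit 0, nat_lit 0, nat_lit 0, nat_lit 0, nat_lit 117, nat_lit 1000000, nat_lit 0, nat_lit 0, [(nat_lit 9, [(nat_lit 6, nat_lit 1000)])],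
 ⟨p031_k32, nat_lit 0, nat_lit 0, nat_lit 264, nat_lit 0, nat_lit 365690, [nat_lit 3178400000, nat_lit 158133334], [], [nat_lit 16183867418, nat_lit 17528805211, nat_lit 15621478732, nat_lit 16574750984, nat_lit 18177442869, nat_lit 19644454328, nat_lit 16988310312, nat_lit 18443735642], nat_lit 1271250, nat_lit 1271250, nat_lit 88400, nat_lit 230001, nat_lit 1271250, nat_lit 1271250, [nat_lit 1100000, nat_lit 1785000], [nat_lit 39, nat_lit 40, nat_lit 20, nat_lit 80, nat_lit 7, nat_lit 215, nat_lit 10, nat_lit 7]⟩, C1.Rw.none,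
 ⟨nat_lit 5477, nat_lit 5917, ⟨.ofNat (nat_lit 160083), .ofNat (nat_lit 207203), .ofNat (nat_lit 181423), .ofNat (nat_lit 228543), .ofNat (nat_lit 176664), .ofNat (nat_lit 221623), .ofNat (nat_lit 198021), .ofNat (nat_lit 242980)⟩, ⟨.ofNat (nat_lit 386479), .ofNat (nat_lit 441452), .ofNat (nat_lit 407818), .ofNat (nat_lit 462791), .ofNat (nat_lit 382718), .ofNat (nat_lit 435171), .ofNat (nat_lit 404075), .ofNat (nat_lit 456528)⟩⟩, [⟨nat_lit 0, nat_lit 100, nat_lit 95, nat_lit 49, nat_lit 234730239⟩, ⟨nat_lit 4, nat_lit 100, nat_lit 96, nat_lit 54, nat_lit 617031646⟩]⟩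
noncomputable def p031_l95 : Lf2 := ⟨nat_lit 0, nat_lit 10, [nat_lit 0, nat_lit 5, nat_lit 5, nat_lit 20], true, nat_lit 240, nat_lit 288, nat_lit 0, nat_lit 252, ⟨nat_lit 0, nat_lit 0, nat_lit 1000, nat_lit 5, nat_lit 61, nat_lit 1000, nat_lit 178, nat_lit 1000, nat_lit 29345, nat_lit 255, nat_lit 35267, nat_lit 261, nat_lit 53757327, nat_lit 0, nat_lit 0, nat_lit 3058686, false, false⟩,
 nat_lit 0, nat_lit 9438, nat_lit 0, nat_lit 3518, nat_lit 4996, nat_lit 0, nat_lit 485, nat_lit 0, nat_lit 0, nat_lit 0, nat_lit 0, nat_lit 0, nat_lit 0, nat_lit 0, nat_lit 106, nat_lit 632800, nat_lit 0, nat_lit 0, [(nat_lit 6, [(nat_lit 5, nat_lit 612), (nat_lit 6, nat_lit 388)]), (nat_lit 9, [(nat_lit 5, nat_lit 612), (nat_lit 6, nat_lit 388)])],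
 ⟨p031_k33, nat_lit 0, nat_lit 0, nat_lit 335, nat_lit 0, nat_lit 209677, [nat_lit 3225348800, nat_lit 1256372267, nat_lit 228169600], [], [nat_lit 15489484625, nat_lit 18829323613, nat_lit 14410039164, nat_lit 17509681808, nat_lit 19754729513, nat_lit 22628247492, nat_lit 18430791399, nat_lit 21306851860], nat_lit 1271250, nat_lit 1271250, nat_lit 21650, nat_lit 111251, nat_lit 1271250, nat_lit 1271250, [nat_lit 1100000, nat_lit 1785000, nat_lit 1271250], [nat_lit 21, nat_lit 40, nat_lit 20, nat_lit 80, nat_lit 14, nat_lit 373, nat_lit 150, nat_lit 9]⟩, C1.Rw.none,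
 ⟨nat_lit 5477, nat_lit 6325, ⟨.ofNat (nat_lit 96904), .ofNat (nat_lit 129809), .ofNat (nat_lit 139640), .ofNat (nat_lit 172545), .ofNat (nat_lit 132827), .ofNat (nat_lit 162800), .ofNat (nat_lit 175541), .ofNat (nat_lit 205514)⟩, ⟨.ofNat (nat_lit 389952), .ofNat (nat_lit 488669), .ofNat (nat_lit 411320), .ofNat (nat_lit 510037), .ofNat (nat_lit 382718), .ofNat (nat_lit 472638), .ofNat (nat_lit 404075), .ofNat (nat_lit 493995)⟩⟩, [⟨nat_lit 0, nat_lit 100, nat_lit 96, nat_lit 40, nat_lit 566443464⟩, ⟨nat_lit 4, nat_lit 100, nat_lit 98, nat_lit 54, nat_lit 738177474⟩]⟩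
noncomputable def p031_l96 : Lf2 := ⟨nat_lit 0, nat_lit 10, [nat_lit 0, nat_lit 5, nat_lit 5, nat_lit 20], true, nat_lit 240, nat_lit 288, nat_lit 0, nat_lit 288, ⟨nat_lit 0, nat_lit 0, nat_lit 1000, nat_lit 5, nat_lit 75, nat_lit 1000, nat_lit 178, nat_lit 1000, nat_lit 29345, nat_lit 255, nat_lit 52267, nat_lit 271, nat_lit 52963727, nat_lit 0, nat_lit 0, nat_lit 3269373, false, false⟩,
 nat_lit 0, nat_lit 8800, nat_lit 0, nat_lit 3721, nat_lit 4658, nat_lit 0, nat_lit 563, nat_lit 0, nat_lit 0, nat_lit 0, nat_lit 0, nat_lit 0, nat_lit 0, nat_lit 0, nat_lit 69, nat_lit 400000, nat_lit 0, nat_lit 0, [(nat_lit 6, [(nat_lit 5, nat_lit 1000)]), (nat_lit 9, [(nat_lit 5, nat_lit 1000)])],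
 ⟨p031_k33, nat_lit 0, nat_lit 0, nat_lit 267, nat_lit 0, nat_lit 209677, [nat_lit 2630400000, nat_lit 679600001, nat_lit 185200000], [], [nat_lit 15050097353, nat_lit 17284050584, nat_lit 14531661417, nat_lit 16548508305, nat_lit 18165613364, nat_lit 20943354762, nat_lit 17249656023, nat_lit 20007039423], nat_lit 1271250, nat_lit 1271250, nat_lit 111251, nat_lit 230001, nat_lit 1271250, nat_lit 1271250, [nat_lit 1100000, nat_lit 1785000, nat_lit 1271250], [nat_lit 21, nat_lit 40, nat_lit 20, nat_lit 80, nat_lit 14, nat_lit 401, nat_lit 175, nat_lit 10]⟩, C1.Rw.none,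
 ⟨nat_lit 5477, nat_lit 6325, ⟨.ofNat (nat_lit 129809), .ofNat (nat_lit 170942), .ofNat (nat_lit 172545), .ofNat (nat_lit 213677), .ofNat (nat_lit 162800), .ofNat (nat_lit 200266), .ofNat (nat_lit 205514), .ofNat (nat_lit 242980)⟩, ⟨.ofNat (nat_lit 389952), .ofNat (nat_lit 488669), .ofNat (nat_lit 411320), .ofNat (nat_lit 510037), .ofNat (nat_lit 382718), .ofNat (nat_lit 472638), .ofNat (nat_lit 404075), .ofNat (nat_lit 493995)⟩⟩, [⟨nat_lit 0, nat_lit 100, nat_lit 96, nat_lit 40, nat_lit 250909535⟩, ⟨nat_lit 4, nat_lit 100, nat_lit 98, nat_lit 54, nat_lit 711061649⟩]⟩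
noncomputable def b_VL_600_500_5_27 : St := ⟨true, nat_lit 1, nat_lit 1, nat_lit 1, nat_lit 40, nat_lit 240, nat_lit 280, nat_lit 200, nat_lit 240, nat_lit 4, nat_lit 40, nat_lit 20, nat_lit 40, nat_lit 240, nat_lit 288, nat_lit 0, nat_lit 320, nat_lit 0, nat_lit 40, nat_lit 0, nat_lit 0, nat_lit 0, nat_lit 0⟩
theorem d_VL_600_500_5_27 (h : EB TB.env) : Dead b_VL_600_500_5_27 := chkB_sound0 h (T :=
(.trX (nat_lit 23) (nat_lit 100) (nat_lit 92) (nat_lit 61) (nat_lit 288) (.spl (nat_lit 6) (nat_lit 20)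
(.spl (nat_lit 1) (nat_lit 220)
(.leaf p031_l74)
(.trZ (nat_lit 0) (nat_lit 100) (nat_lit 98) (nat_lit 30) (nat_lit 8) (.spl (nat_lit 0) (nat_lit 260)
(.spl (nat_lit 0) (nat_lit 250)
(.spl (nat_lit 1) (nat_lit 230)
(.leaf p031_l75)
(.trZ (nat_lit 0) (nat_lit 100) (nat_lit 99) (nat_lit 35) (nat_lit 12) (.spl (nat_lit 6) (nat_lit 8)
(.spl (nat_lit 4) (nat_lit 260)
(.leaf p031_l76)
(.trX (nat_lit 23) (nat_lit 100) (nat_lit 99) (nat_lit 63) (nat_lit 268) (.spl (nat_lit 1) (nat_lit 235)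
(.leaf p031_l77)
(.spl (nat_lit 2) (nat_lit 20)
(.trX (nat_lit 23) (nat_lit 96) (nat_lit 100) (nat_lit 44) (nat_lit 232) (.spl (nat_lit 0) (nat_lit 245)
(.spl (nat_lit 5) (nat_lit 80)
(.leaf p031_l78)
(.spl (nat_lit 5) (nat_lit 160)
(.leaf p031_l79)
(.leaf p031_l80)))
(.trZ (nat_lit 0) (nat_lit 100) (nat_lit 99) (nat_lit 40) (nat_lit 16) (.trX (nat_lit 16) (nat_lit 100) (nat_lit 94) (nat_lit 62) (nat_lit 284) (.leaf p031_l81)))))
(.spl (nat_lit 6) (nat_lit 4)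
(.spl (nat_lit 0) (nat_lit 245)
(.spl (nat_lit 2) (nat_lit 32)
(.trX (nat_lit 23) (nat_lit 99) (nat_lit 100) (nat_lit 56) (nat_lit 256) (.spl (nat_lit 2) (nat_lit 24)
(.trX (nat_lit 23) (nat_lit 97) (nat_lit 100) (nat_lit 48) (nat_lit 240) (.spl (nat_lit 5) (nat_lit 160)
(.spl (nat_lit 5) (nat_lit 80)
(.leaf p031_l82)
(.leaf p031_l83))
(.leaf p031_l84)))
(.leaf p031_l85)))
(.leaf p031_l86))
(.trX (nat_lit 16) (nat_lit 100) (nat_lit 94) (nat_lit 62) (nat_lit 284) (.leaf p031_l87)))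
(.leaf p031_l88))))))
(.spl (nat_lit 4) (nat_lit 260)
(.leaf p031_l89)
(.trX (nat_lit 23) (nat_lit 100) (nat_lit 99) (nat_lit 63) (nat_lit 268) (.spl (nat_lit 6) (nat_lit 16)
(.spl (nat_lit 2) (nat_lit 20)
(.trX (nat_lit 23) (nat_lit 96) (nat_lit 100) (nat_lit 44) (nat_lit 232) (.leaf p031_l90))
(.leaf p031_l91))
(.leaf p031_l92)))))))
(.trZ (nat_lit 0) (nat_lit 100) (nat_lit 97) (nat_lit 35) (nat_lit 12) (.trX (nat_lit 16) (nat_lit 100) (nat_lit 95) (nat_lit 62) (nat_lit 280) (.leaf p031_l93))))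
(.trZ (nat_lit 0) (nat_lit 100) (nat_lit 96) (nat_lit 40) (nat_lit 16) (.trX (nat_lit 16) (nat_lit 100) (nat_lit 99) (nat_lit 63) (nat_lit 268) (.leaf p031_l94))))))
(.spl (nat_lit 2) (nat_lit 20)
(.trX (nat_lit 23) (nat_lit 100) (nat_lit 99) (nat_lit 44) (nat_lit 252) (.leaf p031_l95))
(.leaf p031_l96))))) (by decide +kernel)
noncomputable def p031_l97 : Lf2 := ⟨nat_lit 0, nat_lit 10, [nat_lit 0, nat_lit 5, nat_lit 5, nat_lit 20], true, nat_lit 240, nat_lit 260, nat_lit 0, nat_lit 320, ⟨nat_lit 0, nat_lit 0, nat_lit 1000, nat_lit 5, nat_lit 99, nat_lit 1000, nat_lit 167, nat_lit 1000, nat_lit 212817, nat_lit 328, nat_lit 91267, nat_lit 289, nat_lit 52518228, nat_lit 0, nat_lit 0, nat_lit 3480408, false, false⟩,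
 nat_lit 0, nat_lit 8475, nat_lit 0, nat_lit 0, nat_lit 4486, nat_lit 0, nat_lit 190, nat_lit 0, nat_lit 0, nat_lit 0, nat_lit 0, nat_lit 0, nat_lit 0, nat_lit 0, nat_lit 166, nat_lit 1000000, nat_lit 0, nat_lit 0, [(nat_lit 6, [(nat_lit 6, nat_lit 1000)]), (nat_lit 9, [(nat_lit 6, nat_lit 1000)])],
 ⟨p031_k5, nat_lit 0, nat_lit 0, nat_lit 377, nat_lit 0, nat_lit 438836, [nat_lit 3753600001, nat_lit 3172240001, nat_lit 348400000], [], [nat_lit 14283480643, nat_lit 16310051720, nat_lit 14814141387, nat_lit 15871572971, nat_lit 15283058535, nat_lit 17792333512, nat_lit 15015153473, nat_lit 16971437740], nat_lit 1271250, nat_lit 1271250, nat_lit 230001, nat_lit 490000, nat_lit 1271250, nat_lit 1271250, [nat_lit 1100000, nat_lit 1442500, nat_lit 1271250], [nat_lit 48, nat_lit 40, nat_lit 20, nat_lit 80, nat_lit 12, nat_lit 401, nat_lit 175, nat_lit 10]⟩, C1.Rw.none,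
 ⟨nat_lit 5477, nat_lit 6325, ⟨.ofNat (nat_lit 170942), .ofNat (nat_lit 253206), .ofNat (nat_lit 213677), .ofNat (nat_lit 295942), .ofNat (nat_lit 200266), .ofNat (nat_lit 275199), .ofNat (nat_lit 242980), .ofNat (nat_lit 317913)⟩, ⟨.ofNat (nat_lit 389952), .ofNat (nat_lit 431084), .ofNat (nat_lit 411320), .ofNat (nat_lit 452452), .ofNat (nat_lit 382718), .ofNat (nat_lit 420185), .ofNat (nat_lit 404075), .ofNat (nat_lit 441542)⟩⟩, [⟨nat_lit 4, nat_lit 100, nat_lit 98, nat_lit 54, nat_lit 596490111⟩]⟩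
noncomputable def p031_l98 : Lf2 := ⟨nat_lit 0, nat_lit 10, [nat_lit 0, nat_lit 5, nat_lit 5, nat_lit 20], true, nat_lit 260, nat_lit 288, nat_lit 0, nat_lit 320, ⟨nat_lit 0, nat_lit 0, nat_lit 1000, nat_lit 5, nat_lit 99, nat_lit 1000, nat_lit 186, nat_lit 1000, nat_lit 29345, nat_lit 255, nat_lit 91267, nat_lit 289, nat_lit 50762552, nat_lit 0, nat_lit 0, nat_lit 3693327, false, false⟩,
 nat_lit 0, nat_lit 8504, nat_lit 0, nat_lit 834, nat_lit 4502, nat_lit 0, nat_lit 190, nat_lit 0, nat_lit 0, nat_lit 0, nat_lit 0, nat_lit 0, nat_lit 0, nat_lit 0, nat_lit 166, nat_lit 1000000, nat_lit 0, nat_lit 0, [(nat_lit 6, [(nat_lit 6, nat_lit 1000)]), (nat_lit 9, [(nat_lit 6, nat_lit 1000)])],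
 ⟨p031_k5, nat_lit 0, nat_lit 0, nat_lit 378, nat_lit 0, nat_lit 438836, [nat_lit 3753600001, nat_lit 3172240001, nat_lit 348400000], [], [nat_lit 15243170742, nat_lit 17801539784, nat_lit 14970643793, nat_lit 16974991180, nat_lit 17168190826, nat_lit 19880505826, nat_lit 16355176354, nat_lit 18989148965], nat_lit 1271250, nat_lit 1271250, nat_lit 230001, nat_lit 490000, nat_lit 1271250, nat_lit 1271250, [nat_lit 1100000, nat_lit 1442500, nat_lit 1271250], [nat_lit 48, nat_lit 40, nat_lit 20, nat_lit 80, nat_lit 12, nat_lit 401, nat_lit 175, nat_lit 10]⟩, C1.Rw.none,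
 ⟨nat_lit 5477, nat_lit 6325, ⟨.ofNat (nat_lit 170942), .ofNat (nat_lit 253206), .ofNat (nat_lit 213677), .ofNat (nat_lit 295942), .ofNat (nat_lit 200266), .ofNat (nat_lit 275199), .ofNat (nat_lit 242980), .ofNat (nat_lit 317913)⟩, ⟨.ofNat (nat_lit 431084), .ofNat (nat_lit 488669), .ofNat (nat_lit 452452), .ofNat (nat_lit 510037), .ofNat (nat_lit 420185), .ofNat (nat_lit 472638), .ofNat (nat_lit 441542), .ofNat (nat_lit 493995)⟩⟩, [⟨nat_lit 4, nat_lit 100, nat_lit 98, nat_lit 54, nat_lit 780602501⟩]⟩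
noncomputable def b_VL_600_500_5_28 : St := ⟨true, nat_lit 1, nat_lit 1, nat_lit 1, nat_lit 40, nat_lit 240, nat_lit 280, nat_lit 200, nat_lit 240, nat_lit 40, nat_lit 80, nat_lit 20, nat_lit 40, nat_lit 240, nat_lit 288, nat_lit 0, nat_lit 320, nat_lit 0, nat_lit 40, nat_lit 0, nat_lit 0, nat_lit 0, nat_lit 0⟩
theorem d_VL_600_500_5_28 (h : EB TB.env) : Dead b_VL_600_500_5_28 := chkB_sound0 h (T :=
(.spl (nat_lit 4) (nat_lit 260)
(.leaf p031_l97)
(.leaf p031_l98))) (by decide +kernel)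
noncomputable def p031_l99 : Lf2 := ⟨nat_lit 0, nat_lit 10, [nat_lit 0, nat_lit 5, nat_lit 5, nat_lit 20], false, nat_lit 240, nat_lit 288, nat_lit 0, nat_lit 160, ⟨nat_lit 304, nat_lit 0, nat_lit 696, nat_lit 5, nat_lit 193, nat_lit 696, nat_lit 178, nat_lit 696, nat_lit 29345, nat_lit 255, nat_lit 3449, nat_lit 204, nat_lit 44604857, nat_lit 0, nat_lit 0, nat_lit 4669673, false, false⟩,
 nat_lit 7475, nat_lit 4947, nat_lit 0, nat_lit 0, nat_lit 6576, nat_lit 3203, nat_lit 1103, nat_lit 0, nat_lit 0, nat_lit 296, nat_lit 0, nat_lit 0, nat_lit 0, nat_lit 0, nat_lit 6, nat_lit 696000, nat_lit 0, nat_lit 0, [(nat_lit 6, [(nat_lit 6, nat_lit 696)]), (nat_lit 9, [(nat_lit 6, nat_lit 696)])],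
 ⟨p031_k5, nat_lit 0, nat_lit 0, nat_lit 335, nat_lit 0, nat_lit 438836, [nat_lit 2285081600, nat_lit 1917159041, nat_lit 346422400], [], [nat_lit 12694925201, nat_lit 15380209472, nat_lit 16567474560, nat_lit 19327944448, nat_lit 16372488333, nat_lit 19428184352, nat_lit 20125040026, nat_lit 22498063936], nat_lit 1271250, nat_lit 1271250, nat_lit 780000, nat_lit 1762500, nat_lit 1271250, nat_lit 1271250, [nat_lit 1100000, nat_lit 1442500, nat_lit 1271250], [nat_lit 48, nat_lit 40, nat_lit 20, nat_lit 80, nat_lit 12, nat_lit 456, nat_lit 225, nat_lit 11]⟩, ⟨p031_k6, nat_lit 0, nat_lit 0, nat_lit 556, nat_lit 0, nat_lit 567396, [nat_lit 1900000000, nat_lit 2422272000, nat_lit 3609088000], [], [nat_lit 14760863168, nat_lit 11378948588, nat_lit 11213695488, nat_lit 11432612672, nat_lit 8792194172, nat_lit 8923020016, nat_lit 12814704572, nat_lit 9754635244], nat_lit 1271250, nat_lit 1271250, nat_lit 780000, nat_lit 1762500,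 nat_lit 0, nat_lit 1100001, [nat_lit 1412500, nat_lit 1271250, nat_lit 1271250], [nat_lit 53, nat_lit 40, nat_lit 20, nat_lit 80, nat_lit 14, nat_lit 401, nat_lit 175, nat_lit 11]⟩,
 ⟨nat_lit 5477, nat_lit 6325, ⟨.ofNat (nat_lit 335470), .ofNat (nat_lit 582178), .ofNat (nat_lit 378206), .ofNat (nat_lit 624852), .ofNat (nat_lit 350132), .ofNat (nat_lit 574846), .ofNat (nat_lit 392847), .ofNat (nat_lit 617499)⟩, ⟨.ofNat (nat_lit 389952), .ofNat (nat_lit 488669), .ofNat (nat_lit 411320), .ofNat (nat_lit 510037), .ofNat (nat_lit 382718), .ofNat (nat_lit 472638), .ofNat (nat_lit 404075), .ofNat (nat_lit 493995)⟩⟩, [⟨nat_lit 4, nat_lit 100, nat_lit 98, nat_lit 54, nat_lit 926010990⟩]⟩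
noncomputable def p031_l100 : Lf2 := ⟨nat_lit 0, nat_lit 10, [nat_lit 0, nat_lit 5, nat_lit 5, nat_lit 20], false, nat_lit 240, nat_lit 288, nat_lit 160, nat_lit 320, ⟨nat_lit 156, nat_lit 0, nat_lit 844, nat_lit 5, nat_lit 192, nat_lit 844, nat_lit 179, nat_lit 844, nat_lit 29345, nat_lit 255, nat_lit 3671, nat_lit 204, nat_lit 44544913, nat_lit 0, nat_lit 0, nat_lit 4677395, false, false⟩,
 nat_lit 2954, nat_lit 7467, nat_lit 0, nat_lit 0, nat_lit 5516, nat_lit 1266, nat_lit 632, nat_lit 0, nat_lit 0, nat_lit 258, nat_lit 0, nat_lit 0, nat_lit 0, nat_lit 0, nat_lit 84, nat_lit 844000, nat_lit 0, nat_lit 0, [(nat_lit 6, [(nat_lit 6, nat_lit 844)])],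
 ⟨p031_k5, nat_lit 0, nat_lit 0, nat_lit 223, nat_lit 0, nat_lit 312122, [nat_lit 2899972267, nat_lit 2530290561, nat_lit 350753600], [], [nat_lit 13268976216, nat_lit 14163369200, nat_lit 16910709532, nat_lit 18095628264, nat_lit 16393505165, nat_lit 17783670199, nat_lit 20070550090, nat_lit 21163712933], nat_lit 1271250, nat_lit 1271250, nat_lit 780000, nat_lit 1762500, nat_lit 1271250, nat_lit 1271250, [nat_lit 1100000, nat_lit 1442500, nat_lit 1271250], [nat_lit 48, nat_lit 40, nat_lit 20, nat_lit 80, nat_lit 12, nat_lit 428, nat_lit 200, nat_lit 10]⟩, ⟨p031_k6, nat_lit 0, nat_lit 0, nat_lit 330, nat_lit 0, nat_lit 403560, [nat_lit 975000000, nat_lit 1243008000, nat_lit 1852032000], [], [nat_lit 7383710328, nat_lit 6024183312, nat_lit 5671101168, nat_lit 4525888188, nat_lit 4845917820, nat_lit 4888112892, nat_lit 4763002188, nat_lit 4791576714], nat_lit 1271250, nat_lit 1271250, nat_lit 780000, nat_lit 1762500,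 nat_lit 1271250, nat_lit 1271250, [nat_lit 1412500, nat_lit 1271250, nat_lit 1271250], [nat_lit 53, nat_lit 40, nat_lit 20, nat_lit 80, nat_lit 14, nat_lit 428, nat_lit 200, nat_lit 11]⟩,
 ⟨nat_lit 5916, nat_lit 6325, ⟨.ofNat (nat_lit 335470), .ofNat (nat_lit 582240), .ofNat (nat_lit 378206), .ofNat (nat_lit 624961), .ofNat (nat_lit 342931), .ofNat (nat_lit 578509), .ofNat (nat_lit 385610), .ofNat (nat_lit 621173)⟩, ⟨.ofNat (nat_lit 389952), .ofNat (nat_lit 488669), .ofNat (nat_lit 411320), .ofNat (nat_lit 510037), .ofNat (nat_lit 386479), .ofNat (nat_lit 480719), .ofNat (nat_lit 407818), .ofNat (nat_lit 502058)⟩⟩, [⟨nat_lit 4, nat_lit 99, nat_lit 100, nat_lit 54, nat_lit 636214426⟩]⟩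
noncomputable def p031_l101 : Lf2 := ⟨nat_lit 0, nat_lit 10, [nat_lit 0, nat_lit 5, nat_lit 5, nat_lit 20], false, nat_lit 240, nat_lit 268, nat_lit 160, nat_lit 320, ⟨nat_lit 187, nat_lit 0, nat_lit 813, nat_lit 5, nat_lit 193, nat_lit 813, nat_lit 169, nat_lit 813, nat_lit 126379, nat_lit 302, nat_lit 2161, nat_lit 205, nat_lit 45218218, nat_lit 0, nat_lit 0, nat_lit 4591094, false, false⟩,
 nat_lit 3645, nat_lit 5291, nat_lit 0, nat_lit 0, nat_lit 5201, nat_lit 1562, nat_lit 119, nat_lit 0, nat_lit 0, nat_lit 322, nat_lit 0, nat_lit 0, nat_lit 0, nat_lit 0, nat_lit 90, nat_lit 813000, nat_lit 0, nat_lit 0, [(nat_lit 9, [(nat_lit 6, nat_lit 813)])],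
 ⟨p031_k10, nat_lit 0, nat_lit 0, nat_lit 218, nat_lit 0, nat_lit 392023, [nat_lit 3209004801, nat_lit 2620244001, nat_lit 149101599], [], [nat_lit 14519475204, nat_lit 15549235472, nat_lit 18139585254, nat_lit 19365278448, nat_lit 16182651709, nat_lit 17619494152, nat_lit 19878031974, nat_lit 21010233816], nat_lit 1271250, nat_lit 1271250, nat_lit 780000, nat_lit 1762500, nat_lit 1271250, nat_lit 1271250, [nat_lit 1100000, nat_lit 1442500, nat_lit 1271250], [nat_lit 11, nat_lit 40, nat_lit 20, nat_lit 80, nat_lit 1, nat_lit 428, nat_lit 200, nat_lit 12]⟩, ⟨p031_k6, nat_lit 0, nat_lit 0, nat_lit 403, nat_lit 0, nat_lit 567396, [nat_lit 1168750000, nat_lit 1490016000, nat_lit 2220064000], [], [nat_lit 8966384636, nat_lit 7288990324, nat_lit 6776703516, nat_lit 5304655972, nat_lit 5633665688, nat_lit 5705288844, nat_lit 5543067356, nat_lit 5577823714], nat_lit 1271250, nat_lit 1271250, nat_lit 780000, nat_lit 1762500,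 nat_lit 1271250, nat_lit 1271250, [nat_lit 1412500, nat_lit 1271250, nat_lit 1271250], [nat_lit 53, nat_lit 40, nat_lit 20, nat_lit 80, nat_lit 14, nat_lit 428, nat_lit 200, nat_lit 11]⟩,
 ⟨nat_lit 5477, nat_lit 5917, ⟨.ofNat (nat_lit 342931), .ofNat (nat_lit 578514), .ofNat (nat_lit 385610), .ofNat (nat_lit 621176), .ofNat (nat_lit 350132), .ofNat (nat_lit 574913), .ofNat (nat_lit 392847), .ofNat (nat_lit 617611)⟩, ⟨.ofNat (nat_lit 386479), .ofNat (nat_lit 441452), .ofNat (nat_lit 407818), .ofNat (nat_lit 462791), .ofNat (nat_lit 382718), .ofNat (nat_lit 435171), .ofNat (nat_lit 404075), .ofNat (nat_lit 456528)⟩⟩, [⟨nat_lit 4, nat_lit 100, nat_lit 96, nat_lit 54, nat_lit 766671294⟩]⟩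
noncomputable def b_VL_600_500_5_29 : St := ⟨true, nat_lit 1, nat_lit 1, nat_lit 1, nat_lit 40, nat_lit 240, nat_lit 280, nat_lit 200, nat_lit 240, nat_lit 120, nat_lit 240, nat_lit 20, nat_lit 40, nat_lit 240, nat_lit 288, nat_lit 0, nat_lit 320, nat_lit 0, nat_lit 40, nat_lit 0, nat_lit 0, nat_lit 0, nat_lit 0⟩
theorem d_VL_600_500_5_29 (h : EB TB.env) : Dead b_VL_600_500_5_29 := chkB_sound0 h (T :=
(.spl (nat_lit 5) (nat_lit 160)
(.leaf p031_l99)
(.spl (nat_lit 0) (nat_lit 260)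
(.leaf p031_l100)
(.trX (nat_lit 16) (nat_lit 100) (nat_lit 99) (nat_lit 63) (nat_lit 268) (.leaf p031_l101))))) (by decide +kernel)
noncomputable def p031_l102 : Lf2 := ⟨nat_lit 0, nat_lit 10, [nat_lit 0, nat_lit 5, nat_lit 5, nat_lit 20], false, nat_lit 0, nat_lit 160, nat_lit 0, nat_lit 320, ⟨nat_lit 1000, nat_lit 0, nat_lit 0, nat_lit 0, nat_lit 0, nat_lit 0, nat_lit 0, nat_lit 0, nat_lit 0, nat_lit 0, nat_lit 0, nat_lit 0, nat_lit 0, nat_lit 0, nat_lit 0, nat_lit 0, false, false⟩,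
 nat_lit 19878, nat_lit 0, nat_lit 0, nat_lit 0, nat_lit 8996, nat_lit 8519, nat_lit 1973, nat_lit 0, nat_lit 0, nat_lit 1573, nat_lit 0, nat_lit 0, nat_lit 0, nat_lit 0, nat_lit 0, nat_lit 0, nat_lit 0, nat_lit 0, [],
 ⟨p031_k5, nat_lit 0, nat_lit 0, nat_lit 441, nat_lit 0, nat_lit 438836, [nat_lit 4688000000, nat_lit 6250000000, nat_lit 11872000000], [], [nat_lit 25530646331, nat_lit 27993107563, nat_lit 41339416832, nat_lit 43557989536, nat_lit 19554156011, nat_lit 20651903104, nat_lit 30718345120, nat_lit 32693761248], nat_lit 1271250, nat_lit 1271250, nat_lit 1271250, nat_lit 1271250, nat_lit 0, nat_lit 1100001, [nat_lit 1100000, nat_lit 1442500, nat_lit 1271250], [nat_lit 48, nat_lit 40, nat_lit 20, nat_lit 80, nat_lit 12, nat_lit 456, nat_lit 225, nat_lit 11]⟩, ⟨p031_k6, nat_lit 0, nat_lit 0, nat_lit 524, nat_lit 0, nat_lit 567396, [nat_lit 6250000000, nat_lit 7968000000, nat_lit 11872000000], [], [nat_lit 36255201594,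 nat_lit 36649532214, nat_lit 41752488162, nat_lit 41815058209, nat_lit 34996337224, nat_lit 31762793404, nat_lit 35524541956, nat_lit 35403515284], nat_lit 1271250, nat_lit 1271250, nat_lit 1271250, nat_lit 1271250, nat_lit 0, nat_lit 2260000, [nat_lit 1412500, nat_lit 1271250, nat_lit 1271250], [nat_lit 53, nat_lit 40, nat_lit 20, nat_lit 80, nat_lit 14, nat_lit 483, nat_lit 250, nat_lit 12]⟩,
 zbF0, [⟨nat_lit 22, nat_lit 83, nat_lit 100, nat_lit 83, nat_lit 123813818⟩]⟩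
noncomputable def p031_l103 : Lf2 := ⟨nat_lit 0, nat_lit 10, [nat_lit 0, nat_lit 5, nat_lit 5, nat_lit 20], false, nat_lit 160, nat_lit 288, nat_lit 0, nat_lit 320, ⟨nat_lit 1000, nat_lit 0, nat_lit 0, nat_lit 0, nat_lit 0, nat_lit 0, nat_lit 0, nat_lit 0, nat_lit 0, nat_lit 0, nat_lit 0, nat_lit 0, nat_lit 0, nat_lit 0, nat_lit 0, nat_lit 0, false, false⟩,
 nat_lit 19989, nat_lit 0, nat_lit 0, nat_lit 0, nat_lit 8893, nat_lit 8566, nat_lit 2027, nat_lit 0, nat_lit 0, nat_lit 1540, nat_lit 0, nat_lit 0, nat_lit 0, nat_lit 0, nat_lit 0, nat_lit 0, nat_lit 0, nat_lit 0, [],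
 ⟨p031_k5, nat_lit 0, nat_lit 0, nat_lit 337, nat_lit 0, nat_lit 438836, [nat_lit 4688000000, nat_lit 6250000000, nat_lit 11872000000], [], [nat_lit 18766558909, nat_lit 20285422193, nat_lit 30613828960, nat_lit 32579463384, nat_lit 26026501834, nat_lit 23537618755, nat_lit 34114647634, nat_lit 35422035564], nat_lit 1271250, nat_lit 1271250, nat_lit 1271250, nat_lit 1271250, nat_lit 1100001, nat_lit 2196000, [nat_lit 1100000, nat_lit 1442500, nat_lit 1271250], [nat_lit 48, nat_lit 40, nat_lit 20, nat_lit 80, nat_lit 12, nat_lit 483, nat_lit 250, nat_lit 12]⟩, ⟨p031_k6, nat_lit 0, nat_lit 0, nat_lit 524, nat_lit 0, nat_lit 567396, [nat_lit 6250000000, nat_lit 7968000000, nat_lit 11872000000], [], [nat_lit 36386234616, nat_lit 36778261296, nat_lit 41958668168, nat_lit 42016924024, nat_lit 34962717936, nat_lit 31568162456, nat_lit 35387044584, nat_lit 35261548776], nat_lit 1271250, nat_lit 1271250, nat_lit 1271250, nat_lit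 1271250, nat_lit 0, nat_lit 2260000, [nat_lit 1412500, nat_lit 1271250, nat_lit 1271250], [nat_lit 53, nat_lit 40, nat_lit 20, nat_lit 80, nat_lit 14, nat_lit 483, nat_lit 250, nat_lit 12]⟩,
 zbF0, [⟨nat_lit 4, nat_lit 100, nat_lit 98, nat_lit 54, nat_lit 649570051⟩, ⟨nat_lit 19, nat_lit 100, nat_lit 90, nat_lit 53, nat_lit 150832189⟩]⟩
noncomputable def b_VL_600_500_5_30 : St := ⟨true, nat_lit 1, nat_lit 1, nat_lit 1, nat_lit 40, nat_lit 240, nat_lit 280, nat_lit 200, nat_lit 240, nat_lit 240, nat_lit 400, nat_lit 20, nat_lit 40, nat_lit 0, nat_lit 288, nat_lit 0, nat_lit 320, nat_lit 0, nat_lit 40, nat_lit 0, nat_lit 0, nat_lit 0, nat_lit 0⟩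
theorem d_VL_600_500_5_30 (h : EB TB.env) : Dead b_VL_600_500_5_30 := chkB_sound0 h (T :=
(.spl (nat_lit 4) (nat_lit 160)
(.leaf p031_l102)
(.leaf p031_l103))) (by decide +kernel)
noncomputable def p031_l104 : Lf2 := ⟨nat_lit 0, nat_lit 8, [nat_lit 50, nat_lit 5, nat_lit 5, nat_lit 20], true, nat_lit 0, nat_lit 160, nat_lit 0, nat_lit 320, ⟨nat_lit 0, nat_lit 1000, nat_lit 0, nat_lit 5, nat_lit 82, nat_lit 1000, nat_lit 48, nat_lit 0, nat_lit 0, nat_lit 0, nat_lit 0, nat_lit 0, nat_lit 0, nat_lit 0, nat_lit 0, nat_lit 5000000, false, false⟩,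
 nat_lit 0, nat_lit 5857, nat_lit 0, nat_lit 0, nat_lit 3100, nat_lit 0, nat_lit 328, nat_lit 0, nat_lit 0, nat_lit 0, nat_lit 0, nat_lit 0, nat_lit 0, nat_lit 0, nat_lit 0, nat_lit 400000, nat_lit 0, nat_lit 0, [(nat_lit 6, [(nat_lit 1, nat_lit 1000)])],
 ⟨p031_k15, nat_lit 0, nat_lit 0, nat_lit 448, nat_lit 0, nat_lit 303330, [nat_lit 2692266667, nat_lit 3151066667, nat_lit 3294533333], [], [nat_lit 32471696881, nat_lit 32021161320, nat_lit 30714073600, nat_lit 31272384400, nat_lit 31233489760, nat_lit 31742199520, nat_lit 31202742001, nat_lit 31107856200], nat_lit 1271250, nat_lit 1271250, nat_lit 21650, nat_lit 490000, nat_lit 0, nat_lit 1100001, [nat_lit 1100000, nat_lit 1442500, nat_lit 1271250], [nat_lit 11, nat_lit 40, nat_lit 20, nat_lit 80, nat_lit 1, nat_lit 345, nat_lit 125, nat_lit 10]⟩, C1.Rw.none,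
 ⟨nat_lit 5916, nat_lit 6325, ⟨.ofNat (nat_lit 96904), .ofNat (nat_lit 253206), .ofNat (nat_lit 139640), .ofNat (nat_lit 295942), .ofNat (nat_lit 115184), .ofNat (nat_lit 264398), .ofNat (nat_lit 157863), .ofNat (nat_lit 307076)⟩, ⟨.negSucc (nat_lit 103633), .ofNat (nat_lit 225423), .negSucc (nat_lit 82265), .ofNat (nat_lit 246791), .negSucc (nat_lit 84722), .ofNat (nat_lit 229411), .negSucc (nat_lit 63383), .ofNat (nat_lit 250751)⟩⟩, []⟩
noncomputable def p031_l105 : Lf2 := ⟨nat_lit 0, nat_lit 8, [nat_lit 50, nat_lit 5, nat_lit 5, nat_lit 20], true, nat_lit 0, nat_lit 80, nat_lit 0, nat_lit 320, ⟨nat_lit 0, nat_lit 1000, nat_lit 0, nat_lit 5, nat_lit 144, nat_lit 1000, nat_lit 15, nat_lit 0, nat_lit 0, nat_lit 0, nat_lit 0, nat_lit 0, nat_lit 0, nat_lit 0, nat_lit 0, nat_lit 5000000, false, false⟩,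
 nat_lit 0, nat_lit 4195, nat_lit 0, nat_lit 0, nat_lit 2220, nat_lit 0, nat_lit 657, nat_lit 0, nat_lit 0, nat_lit 0, nat_lit 0, nat_lit 0, nat_lit 0, nat_lit 0, nat_lit 0, nat_lit 400000, nat_lit 0, nat_lit 0, [(nat_lit 6, [(nat_lit 1, nat_lit 1000)])],
 ⟨p031_k15, nat_lit 0, nat_lit 0, nat_lit 486, nat_lit 0, nat_lit 567094, [nat_lit 2692266667, nat_lit 3151066667, nat_lit 3294533333], [], [nat_lit 30915215220, nat_lit 31448421380, nat_lit 31762671780, nat_lit 32286803624, nat_lit 30752738100, nat_lit 31261434340, nat_lit 32127217201, nat_lit 32176948464], nat_lit 1271250, nat_lit 1271250, nat_lit 490000, nat_lit 1100001, nat_lit 0, nat_lit 490000, [nat_lit 1100000, nat_lit 1442500, nat_lit 1271250], [nat_lit 11, nat_lit 40, nat_lit 20, nat_lit 80, nat_lit 1, nat_lit 345, nat_lit 125, nat_lit 10]⟩, C1.Rw.none,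
 ⟨nat_lit 5916, nat_lit 6325, ⟨.ofNat (nat_lit 253206), .ofNat (nat_lit 417734), .ofNat (nat_lit 295942), .ofNat (nat_lit 460470), .ofNat (nat_lit 264398), .ofNat (nat_lit 421465), .ofNat (nat_lit 307076), .ofNat (nat_lit 464143)⟩, ⟨.negSucc (nat_lit 103633), .ofNat (nat_lit 60895), .negSucc (nat_lit 82265), .ofNat (nat_lit 82263), .negSucc (nat_lit 84722), .ofNat (nat_lit 72344), .negSucc (nat_lit 63383), .ofNat (nat_lit 93684)⟩⟩, []⟩
noncomputable def p031_l106 : Lf2 := ⟨nat_lit 0, nat_lit 8, [nat_lit 50, nat_lit 5, nat_lit 5, nat_lit 20], true, nat_lit 80, nat_lit 160, nat_lit 0, nat_lit 320, ⟨nat_lit 0, nat_lit 1000, nat_lit 0, nat_lit 5, nat_lit 144, nat_lit 1000, nat_lit 63, nat_lit 0, nat_lit 0, nat_lit 0, nat_lit 0, nat_lit 0, nat_lit 0, nat_lit 0, nat_lit 0, nat_lit 5000000, false, false⟩,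
 nat_lit 0, nat_lit 5793, nat_lit 0, nat_lit 0, nat_lit 3066, nat_lit 0, nat_lit 1110, nat_lit 0, nat_lit 0, nat_lit 0, nat_lit 0, nat_lit 0, nat_lit 0, nat_lit 0, nat_lit 0, nat_lit 400000, nat_lit 0, nat_lit 0, [(nat_lit 6, [(nat_lit 1, nat_lit 1000)])],
 ⟨p031_k15, nat_lit 0, nat_lit 0, nat_lit 423, nat_lit 0, nat_lit 567094, [nat_lit 2692266667, nat_lit 3151066667, nat_lit 3294533333], [], [nat_lit 30056638774, nat_lit 28435528066, nat_lit 27203049498, nat_lit 27760384698, nat_lit 27203049498, nat_lit 27760384698, nat_lit 29101076625, nat_lit 28414706866], nat_lit 1271250, nat_lit 1271250, nat_lit 490000, nat_lit 1100001, nat_lit 490000, nat_lit 1100001, [nat_lit 1100000, nat_lit 1442500, nat_lit 1271250], [nat_lit 11, nat_lit 40, nat_lit 20, nat_lit 80, nat_lit 1, nat_lit 373, nat_lit 150, nat_lit 11]⟩, C1.Rw.none,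
 ⟨nat_lit 5916, nat_lit 6325, ⟨.ofNat (nat_lit 253206), .ofNat (nat_lit 417734), .ofNat (nat_lit 295942), .ofNat (nat_lit 460470), .ofNat (nat_lit 264398), .ofNat (nat_lit 421465), .ofNat (nat_lit 307076), .ofNat (nat_lit 464143)⟩, ⟨.ofNat (nat_lit 60895), .ofNat (nat_lit 225423), .ofNat (nat_lit 82263), .ofNat (nat_lit 246791), .ofNat (nat_lit 72344), .ofNat (nat_lit 229411), .ofNat (nat_lit 93684), .ofNat (nat_lit 250751)⟩⟩, []⟩
noncomputable def p031_l107 : Lf2 := ⟨nat_lit 1, nat_lit 10, [nat_lit 0, nat_lit 5, nat_lit 5, nat_lit 20], false, nat_lit 0, nat_lit 160, nat_lit 0, nat_lit 320, zbN0,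
 nat_lit 0, nat_lit 0, nat_lit 0, nat_lit 0, nat_lit 0, nat_lit 0, nat_lit 0, nat_lit 0, nat_lit 0, nat_lit 0, nat_lit 0, nat_lit 0, nat_lit 0, nat_lit 0, nat_lit 0, nat_lit 0, nat_lit 0, nat_lit 0, [],
 C1.Rw.none, C1.Rw.none,
 zbF0, []⟩
noncomputable def p031_l108 : Lf2 := ⟨nat_lit 0, nat_lit 5, [nat_lit 4, nat_lit 5, nat_lit 5, nat_lit 20], true, nat_lit 0, nat_lit 160, nat_lit 0, nat_lit 320, ⟨nat_lit 0, nat_lit 1000, nat_lit 0, nat_lit 5, nat_lit 120, nat_lit 1000, nat_lit 48, nat_lit 0, nat_lit 0, nat_lit 0, nat_lit 0, nat_lit 0, nat_lit 0, nat_lit 0, nat_lit 0, nat_lit 5000000, false, false⟩,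
 nat_lit 0, nat_lit 5468, nat_lit 0, nat_lit 0, nat_lit 3182, nat_lit 0, nat_lit 1752, nat_lit 0, nat_lit 0, nat_lit 0, nat_lit 0, nat_lit 0, nat_lit 0, nat_lit 0, nat_lit 0, nat_lit 400000, nat_lit 0, nat_lit 0, [(nat_lit 9, [(nat_lit 1, nat_lit 1000)])],
 ⟨p031_k32, nat_lit 0, nat_lit 0, nat_lit 527, nat_lit 0, nat_lit 681678, [nat_lit 2742800000, nat_lit 3014800000], [], [nat_lit 32176809424, nat_lit 30446791663, nat_lit 28508309580, nat_lit 29218349016, nat_lit 28378558301, nat_lit 29085727116, nat_lit 30518690632, nat_lit 29695297616], nat_lit 1271250, nat_lit 1271250, nat_lit 43600, nat_lit 1100001, nat_lit 0, nat_lit 1100001, [nat_lit 1100000, nat_lit 1785000], [nat_lit 39, nat_lit 40, nat_lit 20, nat_lit 80, nat_lit 7, nat_lit 317, nat_lit 100, nat_lit 11]⟩, C1.Rw.none,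
 ⟨nat_lit 5477, nat_lit 5917, ⟨.ofNat (nat_lit 123037), .ofNat (nat_lit 421465), .ofNat (nat_lit 165716), .ofNat (nat_lit 464143), .ofNat (nat_lit 140320), .ofNat (nat_lit 425065), .ofNat (nat_lit 183034), .ofNat (nat_lit 467780)⟩, ⟨.negSucc (nat_lit 84722), .ofNat (nat_lit 229411), .negSucc (nat_lit 63383), .ofNat (nat_lit 250751), .negSucc (nat_lit 66879), .ofNat (nat_lit 232852), .negSucc (nat_lit 45522), .ofNat (nat_lit 254209)⟩⟩, []⟩
noncomputable def p031_l109 : Lf2 := ⟨nat_lit 0, nat_lit 10, [nat_lit 0, nat_lit 5, nat_lit 5, nat_lit 20], true, nat_lit 0, nat_lit 160, nat_lit 0, nat_lit 320, ⟨nat_lit 0, nat_lit 1000, nat_lit 0, nat_lit 5, nat_lit 120, nat_lit 1000, nat_lit 48, nat_lit 0, nat_lit 0, nat_lit 0, nat_lit 0, nat_lit 0, nat_lit 0, nat_lit 0, nat_lit 0, nat_lit 5000000, false, false⟩,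
 nat_lit 0, nat_lit 10535, nat_lit 0, nat_lit 0, nat_lit 6132, nat_lit 0, nat_lit 0, nat_lit 0, nat_lit 0, nat_lit 0, nat_lit 0, nat_lit 0, nat_lit 0, nat_lit 0, nat_lit 0, nat_lit 400000, nat_lit 0, nat_lit 0, [(nat_lit 9, [(nat_lit 1, nat_lit 1000)])],
 ⟨p031_k10, nat_lit 0, nat_lit 0, nat_lit 458, nat_lit 0, nat_lit 338289, [nat_lit 2702720000, nat_lit 2968400001, nat_lit 2997199999], [], [nat_lit 32918331100, nat_lit 29685945412, nat_lit 22512353610, nat_lit 23056374129, nat_lit 22572399169, nat_lit 22595559761, nat_lit 30771114834, nat_lit 27957924930], nat_lit 1271250, nat_lit 1271250, nat_lit 43600, nat_lit 1100001, nat_lit 0, nat_lit 1100001, [nat_lit 1100000, nat_lit 1442500, nat_lit 1271250], [nat_lit 11, nat_lit 40, nat_lit 20, nat_lit 80, nat_lit 1, nat_lit 373, nat_lit 150, nat_lit 11]⟩, C1.Rw.none,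
 ⟨nat_lit 5477, nat_lit 5917, ⟨.ofNat (nat_lit 123037), .ofNat (nat_lit 421465), .ofNat (nat_lit 165716), .ofNat (nat_lit 464143), .ofNat (nat_lit 140320), .ofNat (nat_lit 425065), .ofNat (nat_lit 183034), .ofNat (nat_lit 467780)⟩, ⟨.negSucc (nat_lit 84722), .ofNat (nat_lit 229411), .negSucc (nat_lit 63383), .ofNat (nat_lit 250751), .negSucc (nat_lit 66879), .ofNat (nat_lit 232852), .negSucc (nat_lit 45522), .ofNat (nat_lit 254209)⟩⟩, []⟩
noncomputable def p031_l110 : Lf2 := ⟨nat_lit 0, nat_lit 10, [nat_lit 0, nat_lit 5, nat_lit 5, nat_lit 20], false, nat_lit 0, nat_lit 160, nat_lit 0, nat_lit 320, ⟨nat_lit 257, nat_lit 743, nat_lit 0, nat_lit 5, nat_lit 209, nat_lit 743, nat_lit 48, nat_lit 0, nat_lit 0, nat_lit 0, nat_lit 0, nat_lit 0, nat_lit 0, nat_lit 0, nat_lit 0, nat_lit 5000000, false, false⟩,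
 nat_lit 0, nat_lit 8140, nat_lit 0, nat_lit 0, nat_lit 4309, nat_lit 3274, nat_lit 841, nat_lit 0, nat_lit 0, nat_lit 709, nat_lit 0, nat_lit 0, nat_lit 0, nat_lit 0, nat_lit 0, nat_lit 297200, nat_lit 0, nat_lit 0, [(nat_lit 6, [(nat_lit 1, nat_lit 743)])],
 ⟨p031_k5, nat_lit 0, nat_lit 0, nat_lit 530, nat_lit 0, nat_lit 575886, [nat_lit 3205170134, nat_lit 4154145601, nat_lit 5302394000], [], [nat_lit 32976578828, nat_lit 30698246786, nat_lit 31059156455, nat_lit 31549609593, nat_lit 28567543491, nat_lit 29050413241, nat_lit 29713609883, nat_lit 30134428601], nat_lit 1271250, nat_lit 1271250, nat_lit 1100001, nat_lit 1785000, nat_lit 0, nat_lit 1100001, [nat_lit 1100000, nat_lit 1442500, nat_lit 1271250], [nat_lit 48, nat_lit 40, nat_lit 20, nat_lit 80, nat_lit 12, nat_lit 401, nat_lit 175, nat_lit 10]⟩, ⟨p031_k6, nat_lit 0, nat_lit 0, nat_lit 187, nat_lit 0, nat_lit 0, [nat_lit 1606250000, nat_lit 2047776000, nat_lit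 3051104000], [], [nat_lit 5334241697, nat_lit 6053650809, nat_lit 6331509585, nat_lit 6879310769, nat_lit 5095485105, nat_lit 5366680045, nat_lit 5635614960, nat_lit 6183416144], nat_lit 0, nat_lit 0, nat_lit 0, nat_lit 0, nat_lit 0, nat_lit 0, [], [nat_lit 53, nat_lit 40, nat_lit 20, nat_lit 80, nat_lit 14, nat_lit 428, nat_lit 200, nat_lit 11]⟩,
 ⟨nat_lit 5916, nat_lit 6325, ⟨.ofNat (nat_lit 417734), .ofNat (nat_lit 582240), .ofNat (nat_lit 460470), .ofNat (nat_lit 624961), .ofNat (nat_lit 421465), .ofNat (nat_lit 578509), .ofNat (nat_lit 464143), .ofNat (nat_lit 621173)⟩, ⟨.negSucc (nat_lit 103633), .ofNat (nat_lit 225423), .negSucc (nat_lit 82265), .ofNat (nat_lit 246791), .negSucc (nat_lit 84722), .ofNat (nat_lit 229411), .negSucc (nat_lit 63383), .ofNat (nat_lit 250751)⟩⟩, [⟨nat_lit 7, nat_lit 90, nat_lit 100, nat_lit 53, nat_lit 69402238⟩]⟩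
noncomputable def p031_l111 : Lf2 := ⟨nat_lit 0, nat_lit 10, [nat_lit 0, nat_lit 5, nat_lit 5, nat_lit 20], true, nat_lit 0, nat_lit 160, nat_lit 0, nat_lit 320, ⟨nat_lit 0, nat_lit 1000, nat_lit 0, nat_lit 5, nat_lit 209, nat_lit 1000, nat_lit 48, nat_lit 0, nat_lit 0, nat_lit 0, nat_lit 0, nat_lit 0, nat_lit 0, nat_lit 0, nat_lit 0, nat_lit 5000000, false, false⟩,
 nat_lit 0, nat_lit 7299, nat_lit 0, nat_lit 0, nat_lit 4248, nat_lit 0, nat_lit 1113, nat_lit 0, nat_lit 0, nat_lit 0, nat_lit 0, nat_lit 0, nat_lit 0, nat_lit 0, nat_lit 2, nat_lit 1000000, nat_lit 0, nat_lit 0, [(nat_lit 9, [(nat_lit 2, nat_lit 1000)])],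
 ⟨p031_k10, nat_lit 0, nat_lit 0, nat_lit 508, nat_lit 0, nat_lit 708010, [nat_lit 2695466667, nat_lit 2706533334, nat_lit 383866666], [], [nat_lit 29554138630, nat_lit 27308059606, nat_lit 25838519149, nat_lit 26463580493, nat_lit 23712117309, nat_lit 24319956781, nat_lit 25218884525, nat_lit 25744574061], nat_lit 1271250, nat_lit 1271250, nat_lit 1100001, nat_lit 1785000, nat_lit 0, nat_lit 1100001, [nat_lit 1100000, nat_lit 1442500, nat_lit 1271250], [nat_lit 11, nat_lit 40, nat_lit 20, nat_lit 80, nat_lit 1, nat_lit 401, nat_lit 175, nat_lit 11]⟩, C1.Rw.none,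
 ⟨nat_lit 5477, nat_lit 5917, ⟨.ofNat (nat_lit 421465), .ofNat (nat_lit 578514), .ofNat (nat_lit 464143), .ofNat (nat_lit 621176), .ofNat (nat_lit 425065), .ofNat (nat_lit 574913), .ofNat (nat_lit 467780), .ofNat (nat_lit 617611)⟩, ⟨.negSucc (nat_lit 84722), .ofNat (nat_lit 229411), .negSucc (nat_lit 63383), .ofNat (nat_lit 250751), .negSucc (nat_lit 66879), .ofNat (nat_lit 232852), .negSucc (nat_lit 45522), .ofNat (nat_lit 254209)⟩⟩, []⟩
noncomputable def p031_l112 : Lf2 := ⟨nat_lit 0, nat_lit 6, [nat_lit 47, nat_lit 5, nat_lit 5, nat_lit 20], true, nat_lit 160, nat_lit 288, nat_lit 0, nat_lit 320, ⟨nat_lit 0, nat_lit 1000, nat_lit 0, nat_lit 5, nat_lit 96, nat_lit 1000, nat_lit 147, nat_lit 0, nat_lit 0, nat_lit 0, nat_lit 0, nat_lit 0, nat_lit 0, nat_lit 0, nat_lit 0, nat_lit 5000000, false, false⟩,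
 nat_lit 0, nat_lit 4221, nat_lit 0, nat_lit 0, nat_lit 2234, nat_lit 0, nat_lit 675, nat_lit 0, nat_lit 0, nat_lit 0, nat_lit 0, nat_lit 0, nat_lit 0, nat_lit 0, nat_lit 0, nat_lit 400000, nat_lit 0, nat_lit 0, [(nat_lit 6, [(nat_lit 1, nat_lit 1000)])],
 ⟨p031_k19, nat_lit 0, nat_lit 0, nat_lit 363, nat_lit 0, nat_lit 454151, [nat_lit 2692266667, nat_lit 3151066667, nat_lit 3294533333], [], [nat_lit 28551697858, nat_lit 27961993346, nat_lit 27036596161, nat_lit 27344720107, nat_lit 30139677472, nat_lit 30414095379, nat_lit 30238909206, nat_lit 30492258061], nat_lit 1271250, nat_lit 1271250, nat_lit 21650, nat_lit 780000, nat_lit 1100001, nat_lit 2196000, [nat_lit 1100000, nat_lit 1442500, nat_lit 1271250], [nat_lit 11, nat_lit 40, nat_lit 20, nat_lit 80, nat_lit 1, nat_lit 401, nat_lit 175, nat_lit 12]⟩, C1.Rw.none,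
 ⟨nat_lit 6123, nat_lit 6325, ⟨.ofNat (nat_lit 96904), .ofNat (nat_lit 335470), .ofNat (nat_lit 139640), .ofNat (nat_lit 378206), .ofNat (nat_lit 106133), .ofNat (nat_lit 339237), .ofNat (nat_lit 148829), .ofNat (nat_lit 381933)⟩, ⟨.ofNat (nat_lit 225423), .ofNat (nat_lit 488669), .ofNat (nat_lit 246791), .ofNat (nat_lit 510037), .ofNat (nat_lit 227485), .ofNat (nat_lit 484703), .ofNat (nat_lit 248833), .ofNat (nat_lit 506051)⟩⟩, [⟨nat_lit 4, nat_lit 97, nat_lit 100, nat_lit 54, nat_lit 256584530⟩]⟩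
noncomputable def p031_l113 : Lf2 := ⟨nat_lit 0, nat_lit 6, [nat_lit 47, nat_lit 5, nat_lit 5, nat_lit 20], false, nat_lit 160, nat_lit 288, nat_lit 0, nat_lit 320, ⟨nat_lit 208, nat_lit 792, nat_lit 0, nat_lit 5, nat_lit 192, nat_lit 792, nat_lit 147, nat_lit 0, nat_lit 0, nat_lit 0, nat_lit 0, nat_lit 0, nat_lit 0, nat_lit 0, nat_lit 0, nat_lit 5000000, false, false⟩,
 nat_lit 0, nat_lit 7708, nat_lit 0, nat_lit 0, nat_lit 4080, nat_lit 2652, nat_lit 943, nat_lit 0, nat_lit 0, nat_lit 810, nat_lit 0, nat_lit 0, nat_lit 0, nat_lit 0, nat_lit 0, nat_lit 316800, nat_lit 0, nat_lit 0, [(nat_lit 6, [(nat_lit 1, nat_lit 792)])],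
 ⟨p031_k19, nat_lit 0, nat_lit 0, nat_lit 287, nat_lit 0, nat_lit 454151, [nat_lit 3107379200, nat_lit 3795644800, nat_lit 4623958400], [], [nat_lit 30012924000, nat_lit 28934298480, nat_lit 32005150560, nat_lit 31030667040, nat_lit 26691470807, nat_lit 26994889649, nat_lit 28627472289, nat_lit 28891939144], nat_lit 1271250, nat_lit 1271250, nat_lit 780000, nat_lit 1762500, nat_lit 1271250, nat_lit 1271250, [nat_lit 1100000, nat_lit 1442500, nat_lit 1271250], [nat_lit 11, nat_lit 40, nat_lit 20, nat_lit 80, nat_lit 1, nat_lit 428, nat_lit 200, nat_lit 12]⟩, ⟨p031_k20, nat_lit 0, nat_lit 0, nat_lit 191, nat_lit 0, nat_lit 0, [nat_lit 1300000000, nat_lit 1657344000, nat_lit 2469376000], [], [nat_lit 3523597826, nat_lit 4156463618, nat_lit 4340165474, nat_lit 4783698642, nat_lit 3983409664, nat_lit 4384341520, nat_lit 4561508224, nat_lit 5005041392], nat_lit 0, nat_lit 0, nat_lit 0, nat_lit 0, nat_lit 0, nat_lit 0, [],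 [nat_lit 53, nat_lit 40, nat_lit 20, nat_lit 80, nat_lit 14, nat_lit 428, nat_lit 200, nat_lit 11]⟩,
 ⟨nat_lit 6123, nat_lit 6325, ⟨.ofNat (nat_lit 335470), .ofNat (nat_lit 582258), .ofNat (nat_lit 378206), .ofNat (nat_lit 624989), .ofNat (nat_lit 339237), .ofNat (nat_lit 580374), .ofNat (nat_lit 381933), .ofNat (nat_lit 623066)⟩, ⟨.ofNat (nat_lit 225423), .ofNat (nat_lit 488669), .ofNat (nat_lit 246791), .ofNat (nat_lit 510037), .ofNat (nat_lit 227485), .ofNat (nat_lit 484703), .ofNat (nat_lit 248833), .ofNat (nat_lit 506051)⟩⟩, [⟨nat_lit 4, nat_lit 97, nat_lit 100, nat_lit 54, nat_lit 16174597⟩, ⟨nat_lit 7, nat_lit 90, nat_lit 100, nat_lit 53, nat_lit 79363230⟩]⟩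
noncomputable def p031_l114 : Lf2 := ⟨nat_lit 1, nat_lit 8, [nat_lit 50, nat_lit 5, nat_lit 5, nat_lit 20], false, nat_lit 160, nat_lit 288, nat_lit 0, nat_lit 320, zbN0,
 nat_lit 0, nat_lit 0, nat_lit 0, nat_lit 0, nat_lit 0, nat_lit 0, nat_lit 0, nat_lit 0, nat_lit 0, nat_lit 0, nat_lit 0, nat_lit 0, nat_lit 0, nat_lit 0, nat_lit 0, nat_lit 0, nat_lit 0, nat_lit 0, [],
 C1.Rw.none, C1.Rw.none,
 zbF0, []⟩
noncomputable def p031_l115 : Lf2 := ⟨nat_lit 0, nat_lit 8, [nat_lit 50, nat_lit 5, nat_lit 5, nat_lit 20], true, nat_lit 160, nat_lit 280, nat_lit 0, nat_lit 320, ⟨nat_lit 0, nat_lit 1000, nat_lit 0, nat_lit 5, nat_lit 146, nat_lit 1000, nat_lit 143, nat_lit 0, nat_lit 0, nat_lit 0, nat_lit 0, nat_lit 0, nat_lit 0, nat_lit 0, nat_lit 0, nat_lit 5000000, false, false⟩,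
 nat_lit 0, nat_lit 6491, nat_lit 0, nat_lit 0, nat_lit 3606, nat_lit 0, nat_lit 1531, nat_lit 0, nat_lit 0, nat_lit 0, nat_lit 0, nat_lit 0, nat_lit 0, nat_lit 0, nat_lit 0, nat_lit 400000, nat_lit 0, nat_lit 0, [(nat_lit 6, [(nat_lit 1, nat_lit 1000)])],
 ⟨p031_k23, nat_lit 0, nat_lit 0, nat_lit 365, nat_lit 0, nat_lit 459994, [nat_lit 2692266667, nat_lit 3151066667, nat_lit 3294533333], [], [nat_lit 29544920235, nat_lit 29259359653, nat_lit 28293224562, nat_lit 28034843123, nat_lit 25811893187, nat_lit 25918218276, nat_lit 27088422229, nat_lit 27167789239], nat_lit 1271250, nat_lit 1271250, nat_lit 21650, nat_lit 1697250, nat_lit 1271250, nat_lit 1271250, [nat_lit 1100000, nat_lit 1442500, nat_lit 1271250], [nat_lit 11, nat_lit 40, nat_lit 20, nat_lit 80, nat_lit 1, nat_lit 428, nat_lit 200, nat_lit 12]⟩, C1.Rw.none,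
 ⟨nat_lit 6062, nat_lit 6124, ⟨.ofNat (nat_lit 106133), .ofNat (nat_lit 580379), .ofNat (nat_lit 148829), .ofNat (nat_lit 623075), .ofNat (nat_lit 108866), .ofNat (nat_lit 579821), .ofNat (nat_lit 151555), .ofNat (nat_lit 622509)⟩, ⟨.ofNat (nat_lit 227485), .ofNat (nat_lit 468627), .ofNat (nat_lit 248833), .ofNat (nat_lit 489975), .ofNat (nat_lit 228077), .ofNat (nat_lit 467546), .ofNat (nat_lit 249421), .ofNat (nat_lit 488890)⟩⟩, []⟩
noncomputable def p031_l116 : Lf2 := ⟨nat_lit 0, nat_lit 8, [nat_lit 50, nat_lit 5, nat_lit 5, nat_lit 20], true, nat_lit 160, nat_lit 276, nat_lit 0, nat_lit 320, ⟨nat_lit 0, nat_lit 1000, nat_lit 0, nat_lit 5, nat_lit 146, nat_lit 1000, nat_lit 142, nat_lit 0, nat_lit 0, nat_lit 0, nat_lit 0, nat_lit 0, nat_lit 0, nat_lit 0, nat_lit 0, nat_lit 5000000, false, false⟩,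
 nat_lit 0, nat_lit 6299, nat_lit 0, nat_lit 0, nat_lit 3549, nat_lit 0, nat_lit 1536, nat_lit 0, nat_lit 0, nat_lit 0, nat_lit 0, nat_lit 0, nat_lit 0, nat_lit 0, nat_lit 0, nat_lit 400000, nat_lit 0, nat_lit 0, [(nat_lit 6, [(nat_lit 1, nat_lit 1000)])],
 ⟨p031_k34, nat_lit 0, nat_lit 0, nat_lit 369, nat_lit 0, nat_lit 470099, [nat_lit 2692266667, nat_lit 3151066667, nat_lit 3294533333], [], [nat_lit 29198110508, nat_lit 29010746022, nat_lit 27883295540, nat_lit 27713764068, nat_lit 25500513923, nat_lit 25571759421, nat_lit 26839730067, nat_lit 26892987175], nat_lit 1271250, nat_lit 1271250, nat_lit 21650, nat_lit 1697250, nat_lit 1271250, nat_lit 1271250, [nat_lit 1100000, nat_lit 1442500, nat_lit 1271250], [nat_lit 11, nat_lit 40, nat_lit 20, nat_lit 80, nat_lit 1, nat_lit 428, nat_lit 200, nat_lit 12]⟩, C1.Rw.none,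
 ⟨nat_lit 6020, nat_lit 6063, ⟨.ofNat (nat_lit 108866), .ofNat (nat_lit 579821), .ofNat (nat_lit 151555), .ofNat (nat_lit 622510), .ofNat (nat_lit 110680), .ofNat (nat_lit 579451), .ofNat (nat_lit 153364), .ofNat (nat_lit 622136)⟩, ⟨.ofNat (nat_lit 228077), .ofNat (nat_lit 459563), .ofNat (nat_lit 249421), .ofNat (nat_lit 480908), .ofNat (nat_lit 228465), .ofNat (nat_lit 458878), .ofNat (nat_lit 249807), .ofNat (nat_lit 480220)⟩⟩, []⟩
noncomputable def p031_l117 : Lf2 := ⟨nat_lit 0, nat_lit 8, [nat_lit 50, nat_lit 5, nat_lit 5, nat_lit 20], true, nat_lit 160, nat_lit 272, nat_lit 0, nat_lit 320, ⟨nat_lit 0, nat_lit 1000, nat_lit 0, nat_lit 5, nat_lit 115, nat_lit 1000, nat_lit 140, nat_lit 0, nat_lit 0, nat_lit 0, nat_lit 0, nat_lit 0, nat_lit 0, nat_lit 0, nat_lit 0, nat_lit 5000000, false, false⟩,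
 nat_lit 0, nat_lit 5937, nat_lit 0, nat_lit 0, nat_lit 3376, nat_lit 0, nat_lit 1459, nat_lit 0, nat_lit 0, nat_lit 0, nat_lit 0, nat_lit 0, nat_lit 0, nat_lit 0, nat_lit 0, nat_lit 400000, nat_lit 0, nat_lit 0, [(nat_lit 6, [(nat_lit 1, nat_lit 1000)])],
 ⟨p031_k35, nat_lit 0, nat_lit 0, nat_lit 430, nat_lit 0, nat_lit 512425, [nat_lit 2692266667, nat_lit 3151066667, nat_lit 3294533333], [], [nat_lit 28833982787, nat_lit 28388404803, nat_lit 25792599242, nat_lit 25942107502, nat_lit 28405594800, nat_lit 28548552772, nat_lit 28539246150, nat_lit 28367192078], nat_lit 1271250, nat_lit 1271250, nat_lit 21650, nat_lit 1100001, nat_lit 1100001, nat_lit 2059000, [nat_lit 1100000, nat_lit 1442500, nat_lit 1271250], [nat_lit 11, nat_lit 40, nat_lit 20, nat_lit 80, nat_lit 1, nat_lit 401, nat_lit 175, nat_lit 11]⟩, C1.Rw.none,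
 ⟨nat_lit 5916, nat_lit 6021, ⟨.ofNat (nat_lit 110680), .ofNat (nat_lit 420546), .ofNat (nat_lit 153364), .ofNat (nat_lit 463230), .ofNat (nat_lit 115184), .ofNat (nat_lit 421465), .ofNat (nat_lit 157863), .ofNat (nat_lit 464143)⟩, ⟨.ofNat (nat_lit 228465), .ofNat (nat_lit 450933), .ofNat (nat_lit 249807), .ofNat (nat_lit 472275), .ofNat (nat_lit 229411), .ofNat (nat_lit 449305), .ofNat (nat_lit 250751), .ofNat (nat_lit 470645)⟩⟩, [⟨nat_lit 4, nat_lit 100, nat_lit 99, nat_lit 55, nat_lit 131308574⟩]⟩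
noncomputable def p031_l118 : Lf2 := ⟨nat_lit 0, nat_lit 8, [nat_lit 50, nat_lit 5, nat_lit 5, nat_lit 20], true, nat_lit 160, nat_lit 272, nat_lit 0, nat_lit 320, ⟨nat_lit 0, nat_lit 1000, nat_lit 0, nat_lit 5, nat_lit 209, nat_lit 1000, nat_lit 140, nat_lit 0, nat_lit 0, nat_lit 0, nat_lit 0, nat_lit 0, nat_lit 0, nat_lit 0, nat_lit 0, nat_lit 5000000, false, false⟩,
 nat_lit 0, nat_lit 6936, nat_lit 0, nat_lit 0, nat_lit 3945, nat_lit 0, nat_lit 1793, nat_lit 0, nat_lit 0, nat_lit 0, nat_lit 0, nat_lit 0, nat_lit 0, nat_lit 0, nat_lit 0, nat_lit 400000, nat_lit 0, nat_lit 0, [(nat_lit 6, [(nat_lit 1, nat_lit 1000)])],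
 ⟨p031_k35, nat_lit 0, nat_lit 0, nat_lit 296, nat_lit 0, nat_lit 512425, [nat_lit 2692266667, nat_lit 3151066667, nat_lit 3294533333], [], [nat_lit 27139423910, nat_lit 26617956057, nat_lit 26557722962, nat_lit 26080024884, nat_lit 23456836367, nat_lit 23614656746, nat_lit 25056521661, nat_lit 25202567896], nat_lit 1271250, nat_lit 1271250, nat_lit 1100001, nat_lit 1785000, nat_lit 1271250, nat_lit 1271250, [nat_lit 1100000, nat_lit 1442500, nat_lit 1271250], [nat_lit 11, nat_lit 40, nat_lit 20, nat_lit 80, nat_lit 1, nat_lit 428, nat_lit 200, nat_lit 12]⟩, C1.Rw.none,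
 ⟨nat_lit 5916, nat_lit 6021, ⟨.ofNat (nat_lit 420546), .ofNat (nat_lit 579450), .ofNat (nat_lit 463230), .ofNat (nat_lit 622134), .ofNat (nat_lit 421465), .ofNat (nat_lit 578531), .ofNat (nat_lit 464143), .ofNat (nat_lit 621209)⟩, ⟨.ofNat (nat_lit 228465), .ofNat (nat_lit 450933), .ofNat (nat_lit 249807), .ofNat (nat_lit 472275), .ofNat (nat_lit 229411), .ofNat (nat_lit 449305), .ofNat (nat_lit 250751), .ofNat (nat_lit 470645)⟩⟩, [⟨nat_lit 4, nat_lit 100, nat_lit 99, nat_lit 55, nat_lit 51135505⟩]⟩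
noncomputable def p031_l119 : Lf2 := ⟨nat_lit 1, nat_lit 10, [nat_lit 0, nat_lit 5, nat_lit 5, nat_lit 20], false, nat_lit 160, nat_lit 288, nat_lit 0, nat_lit 320, zbN0,
 nat_lit 0, nat_lit 0, nat_lit 0, nat_lit 0, nat_lit 0, nat_lit 0, nat_lit 0, nat_lit 0, nat_lit 0, nat_lit 0, nat_lit 0, nat_lit 0, nat_lit 0, nat_lit 0, nat_lit 0, nat_lit 0, nat_lit 0, nat_lit 0, [],
 C1.Rw.none, C1.Rw.none,
 zbF0, []⟩
noncomputable def p031_l120 : Lf2 := ⟨nat_lit 0, nat_lit 10, [nat_lit 0, nat_lit 5, nat_lit 5, nat_lit 20], true, nat_lit 160, nat_lit 268, nat_lit 0, nat_lit 320, ⟨nat_lit 0, nat_lit 1000, nat_lit 0, nat_lit 5, nat_lit 120, nat_lit 1000, nat_lit 138, nat_lit 0, nat_lit 0, nat_lit 0, nat_lit 0, nat_lit 0, nat_lit 0, nat_lit 0, nat_lit 0, nat_lit 5000000, false, false⟩,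
 nat_lit 0, nat_lit 5507, nat_lit 0, nat_lit 0, nat_lit 3205, nat_lit 0, nat_lit 1069, nat_lit 0, nat_lit 0, nat_lit 0, nat_lit 0, nat_lit 0, nat_lit 0, nat_lit 0, nat_lit 0, nat_lit 400000, nat_lit 0, nat_lit 0, [(nat_lit 9, [(nat_lit 1, nat_lit 1000)])],
 ⟨p031_k10, nat_lit 0, nat_lit 0, nat_lit 500, nat_lit 0, nat_lit 708010, [nat_lit 2702720000, nat_lit 2968400001, nat_lit 2997199999], [], [nat_lit 27919568099, nat_lit 26374247844, nat_lit 26112931598, nat_lit 26704417048, nat_lit 28374647889, nat_lit 28945023218, nat_lit 28442275571, nat_lit 28965237668], nat_lit 1271250, nat_lit 1271250, nat_lit 43600, nat_lit 1100001, nat_lit 1100001, nat_lit 2024750, [nat_lit 1100000, nat_lit 1442500, nat_lit 1271250], [nat_lit 11, nat_lit 40, nat_lit 20, nat_lit 80, nat_lit 1, nat_lit 428, nat_lit 200, nat_lit 12]⟩, C1.Rw.none,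
 ⟨nat_lit 5477, nat_lit 5917, ⟨.ofNat (nat_lit 123037), .ofNat (nat_lit 421465), .ofNat (nat_lit 165716), .ofNat (nat_lit 464143), .ofNat (nat_lit 140320), .ofNat (nat_lit 425065), .ofNat (nat_lit 183034), .ofNat (nat_lit 467780)⟩, ⟨.ofNat (nat_lit 229411), .ofNat (nat_lit 441452), .ofNat (nat_lit 250751), .ofNat (nat_lit 462791), .ofNat (nat_lit 232852), .ofNat (nat_lit 435171), .ofNat (nat_lit 254209), .ofNat (nat_lit 456528)⟩⟩, [⟨nat_lit 4, nat_lit 100, nat_lit 96, nat_lit 54, nat_lit 296210397⟩]⟩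
noncomputable def p031_l121 : Lf2 := ⟨nat_lit 0, nat_lit 10, [nat_lit 0, nat_lit 5, nat_lit 5, nat_lit 20], false, nat_lit 160, nat_lit 268, nat_lit 0, nat_lit 320, ⟨nat_lit 289, nat_lit 711, nat_lit 0, nat_lit 5, nat_lit 209, nat_lit 711, nat_lit 138, nat_lit 0, nat_lit 0, nat_lit 0, nat_lit 0, nat_lit 0, nat_lit 0, nat_lit 0, nat_lit 0, nat_lit 5000000, false, false⟩,
 nat_lit 0, nat_lit 7933, nat_lit 0, nat_lit 0, nat_lit 4617, nat_lit 3619, nat_lit 1139, nat_lit 0, nat_lit 0, nat_lit 817, nat_lit 0, nat_lit 0, nat_lit 0, nat_lit 0, nat_lit 0, nat_lit 284400, nat_lit 0, nat_lit 0, [(nat_lit 9, [(nat_lit 1, nat_lit 711)])],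
 ⟨p031_k10, nat_lit 0, nat_lit 0, nat_lit 378, nat_lit 0, nat_lit 708010, [nat_lit 3276465920, nat_lit 3916782400, nat_lit 4930263200], [], [nat_lit 27870863854, nat_lit 25429680508, nat_lit 26653159070, nat_lit 25785319666, nat_lit 26043880624, nat_lit 26600837469, nat_lit 27306538870, nat_lit 27783739610], nat_lit 1271250, nat_lit 1271250, nat_lit 1100001, nat_lit 1785000, nat_lit 1271250, nat_lit 1271250, [nat_lit 1100000, nat_lit 1442500, nat_lit 1271250], [nat_lit 11, nat_lit 40, nat_lit 20, nat_lit 80, nat_lit 1, nat_lit 428, nat_lit 200, nat_lit 12]⟩, ⟨p031_k6, nat_lit 0, nat_lit 0, nat_lit 187, nat_lit 0, nat_lit 0, [nat_lit 1806250000, nat_lit 2302752000, nat_lit 3431008000], [], [nat_lit 5929975669, nat_lit 6731092473, nat_lit 7043440429, nat_lit 7654479569, nat_lit 5702931105, nat_lit 6014056348, nat_lit 6326404304, nat_lit 6937443444], nat_lit 0, nat_lit 0, nat_lit 0, nat_lit 0, nat_lit 0, nat_lit 0, [],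 [nat_lit 53, nat_lit 40, nat_lit 20, nat_lit 80, nat_lit 14, nat_lit 428, nat_lit 200, nat_lit 11]⟩,
 ⟨nat_lit 5477, nat_lit 5917, ⟨.ofNat (nat_lit 421465), .ofNat (nat_lit 578514), .ofNat (nat_lit 464143), .ofNat (nat_lit 621176), .ofNat (nat_lit 425065), .ofNat (nat_lit 574913), .ofNat (nat_lit 467780), .ofNat (nat_lit 617611)⟩, ⟨.ofNat (nat_lit 229411), .ofNat (nat_lit 441452), .ofNat (nat_lit 250751), .ofNat (nat_lit 462791), .ofNat (nat_lit 232852), .ofNat (nat_lit 435171), .ofNat (nat_lit 254209), .ofNat (nat_lit 456528)⟩⟩, [⟨nat_lit 4, nat_lit 100, nat_lit 96, nat_lit 54, nat_lit 252618331⟩, ⟨nat_lit 7, nat_lit 90, nat_lit 100, nat_lit 53, nat_lit 80021263⟩]⟩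
noncomputable def p031_l122 : Lf2 := ⟨nat_lit 0, nat_lit 10, [nat_lit 0, nat_lit 5, nat_lit 5, nat_lit 20], false, nat_lit 0, nat_lit 288, nat_lit 0, nat_lit 320, ⟨nat_lit 1000, nat_lit 0, nat_lit 0, nat_lit 0, nat_lit 0, nat_lit 0, nat_lit 0, nat_lit 0, nat_lit 0, nat_lit 0, nat_lit 0, nat_lit 0, nat_lit 0, nat_lit 0, nat_lit 0, nat_lit 0, false, false⟩,
 nat_lit 0, nat_lit 13960, nat_lit 0, nat_lit 0, nat_lit 7390, nat_lit 9377, nat_lit 1669, nat_lit 0, nat_lit 0, nat_lit 2320, nat_lit 0, nat_lit 0, nat_lit 0, nat_lit 0, nat_lit 0, nat_lit 0, nat_lit 0, nat_lit 0, [],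
 ⟨p031_k5, nat_lit 0, nat_lit 0, nat_lit 514, nat_lit 0, nat_lit 575886, [nat_lit 4688000000, nat_lit 6250000000, nat_lit 11872000000], [], [nat_lit 30371619115, nat_lit 30899913095, nat_lit 37790341915, nat_lit 38338732395, nat_lit 27905703208, nat_lit 28336123613, nat_lit 32920825464, nat_lit 33178056132], nat_lit 1271250, nat_lit 1271250, nat_lit 1271250, nat_lit 1271250, nat_lit 0, nat_lit 2034000, [nat_lit 1100000, nat_lit 1442500, nat_lit 1271250], [nat_lit 48, nat_lit 40, nat_lit 20, nat_lit 80, nat_lit 12, nat_lit 483, nat_lit 250, nat_lit 12]⟩, ⟨p031_k6, nat_lit 0, nat_lit 0, nat_lit 255, nat_lit 0, nat_lit 0, [nat_lit 6250000000, nat_lit 7968000000, nat_lit 11872000000], [], [nat_lit 25507650608, nat_lit 27372434772, nat_lit 40879239624, nat_lit 42293361584, nat_lit 24565695776, nat_lit 25306887424, nat_lit 35568761548, nat_lit 36121722272], nat_lit 0, nat_lit 0, nat_lit 0, nat_lit 0, nat_lit 0, nat_lit 0,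 [], [nat_lit 53, nat_lit 40, nat_lit 20, nat_lit 80, nat_lit 14, nat_lit 483, nat_lit 250, nat_lit 12]⟩,
 zbF0, [⟨nat_lit 16, nat_lit 100, nat_lit 99, nat_lit 54, nat_lit 163137465⟩, ⟨nat_lit 7, nat_lit 90, nat_lit 100, nat_lit 53, nat_lit 168023739⟩]⟩
noncomputable def p031_l123 : Lf2 := ⟨nat_lit 0, nat_lit 10, [nat_lit 0, nat_lit 5, nat_lit 5, nat_lit 20], false, nat_lit 0, nat_lit 268, nat_lit 0, nat_lit 320, ⟨nat_lit 1000, nat_lit 0, nat_lit 0, nat_lit 0, nat_lit 0, nat_lit 0, nat_lit 0, nat_lit 0, nat_lit 0, nat_lit 0, nat_lit 0, nat_lit 0, nat_lit 0, nat_lit 0, nat_lit 0, nat_lit 0, false, false⟩,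
 nat_lit 0, nat_lit 12099, nat_lit 0, nat_lit 0, nat_lit 7042, nat_lit 8430, nat_lit 1973, nat_lit 0, nat_lit 0, nat_lit 2113, nat_lit 0, nat_lit 0, nat_lit 0, nat_lit 0, nat_lit 0, nat_lit 0, nat_lit 0, nat_lit 0, [],
 ⟨p031_k10, nat_lit 0, nat_lit 0, nat_lit 502, nat_lit 0, nat_lit 708010, [nat_lit 4688000000, nat_lit 6250000000, nat_lit 9842000000], [], [nat_lit 27450221592, nat_lit 28008951292, nat_lit 37446064568, nat_lit 38445121872, nat_lit 25466851195, nat_lit 25821208091, nat_lit 32017051176, nat_lit 32688428619], nat_lit 1271250, nat_lit 1271250, nat_lit 1271250, nat_lit 1271250, nat_lit 0, nat_lit 1892750, [nat_lit 1100000, nat_lit 1442500, nat_lit 1271250], [nat_lit 11, nat_lit 40, nat_lit 20, nat_lit 80, nat_lit 1, nat_lit 483, nat_lit 250, nat_lit 14]⟩, ⟨p031_k6, nat_lit 0, nat_lit 0, nat_lit 255, nat_lit 0, nat_lit 0, [nat_lit 6250000000, nat_lit 7968000000, nat_lit 11872000000], [], [nat_lit 26770054165,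 nat_lit 28114310485, nat_lit 39330199445, nat_lit 39922354605, nat_lit 25897389965, nat_lit 26657944400, nat_lit 34477321320, nat_lit 35069476480], nat_lit 0, nat_lit 0, nat_lit 0, nat_lit 0, nat_lit 0, nat_lit 0, [], [nat_lit 53, nat_lit 40, nat_lit 20, nat_lit 80, nat_lit 14, nat_lit 483, nat_lit 250, nat_lit 12]⟩,
 zbF0, [⟨nat_lit 4, nat_lit 100, nat_lit 96, nat_lit 54, nat_lit 126173270⟩, ⟨nat_lit 19, nat_lit 100, nat_lit 90, nat_lit 53, nat_lit 206899830⟩]⟩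
noncomputable def b_VL_600_500_5_31 : St := ⟨true, nat_lit 1, nat_lit 0, nat_lit 2, nat_lit 40, nat_lit 240, nat_lit 280, nat_lit 200, nat_lit 240, nat_lit 4, nat_lit 400, nat_lit 20, nat_lit 40, nat_lit 0, nat_lit 288, nat_lit 0, nat_lit 320, nat_lit 0, nat_lit 40, nat_lit 0, nat_lit 0, nat_lit 0, nat_lit 0⟩
theorem d_VL_600_500_5_31 (h : EB TB.env) : Dead b_VL_600_500_5_31 := chkB_sound0 h (T :=
(.spl (nat_lit 2) (nat_lit 240)
(.spl (nat_lit 4) (nat_lit 160)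
(.spl (nat_lit 2) (nat_lit 160)
(.spl (nat_lit 0) (nat_lit 260)
(.spl (nat_lit 6) (nat_lit 32)
(.spl (nat_lit 2) (nat_lit 80)
(.leaf p031_l104)
(.spl (nat_lit 4) (nat_lit 80)
(.leaf p031_l105)
(.leaf p031_l106)))
(.leaf p031_l107))
(.trZ (nat_lit 0) (nat_lit 100) (nat_lit 95) (nat_lit 30) (nat_lit 8) (.spl (nat_lit 6) (nat_lit 20)
(.leaf p031_l108)
(.leaf p031_l109))))
(.spl (nat_lit 0) (nat_lit 260)
(.leaf p031_l110)
(.leaf p031_l111)))
(.spl (nat_lit 0) (nat_lit 260)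
(.spl (nat_lit 6) (nat_lit 32)
(.spl (nat_lit 0) (nat_lit 250)
(.spl (nat_lit 6) (nat_lit 24)
(.spl (nat_lit 2) (nat_lit 120)
(.leaf p031_l112)
(.leaf p031_l113))
(.leaf p031_l114))
(.trX (nat_lit 16) (nat_lit 100) (nat_lit 95) (nat_lit 62) (nat_lit 280) (.spl (nat_lit 0) (nat_lit 255)
(.spl (nat_lit 0) (nat_lit 253)
(.leaf p031_l115)
(.trX (nat_lit 16) (nat_lit 100) (nat_lit 96) (nat_lit 62) (nat_lit 276) (.leaf p031_l116)))
(.trX (nat_lit 16) (nat_lit 100) (nat_lit 97) (nat_lit 62) (nat_lit 272) (.spl (nat_lit 2) (nat_lit 160)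
(.leaf p031_l117)
(.leaf p031_l118))))))
(.leaf p031_l119))
(.trZ (nat_lit 0) (nat_lit 100) (nat_lit 95) (nat_lit 30) (nat_lit 8) (.trX (nat_lit 16) (nat_lit 100) (nat_lit 99) (nat_lit 63) (nat_lit 268) (.spl (nat_lit 2) (nat_lit 160)
(.leaf p031_l120)
(.leaf p031_l121))))))
(.spl (nat_lit 0) (nat_lit 260)
(.leaf p031_l122)
(.trX (nat_lit 16) (nat_lit 100) (nat_lit 99) (nat_lit 63) (nat_lit 268) (.leaf p031_l123))))) (by decide +kernel)
noncomputable def p031_l124 : Lf2 := ⟨nat_lit 0, nat_lit 10, [nat_lit 0, nat_lit 5, nat_lit 5, nat_lit 20], false, nat_lit 0, nat_lit 80, nat_lit 0, nat_lit 320, ⟨nat_lit 0, nat_lit 1000, nat_lit 0, nat_lit 5, nat_lit 96, nat_lit 780, nat_lit 17, nat_lit 0, nat_lit 0, nat_lit 0, nat_lit 0, nat_lit 0, nat_lit 0, nat_lit 0, nat_lit 0, nat_lit 5000000, false, false⟩,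
 nat_lit 0, nat_lit 5513, nat_lit 0, nat_lit 0, nat_lit 2918, nat_lit 0, nat_lit 0, nat_lit 0, nat_lit 0, nat_lit 0, nat_lit 0, nat_lit 0, nat_lit 0, nat_lit 0, nat_lit 0, nat_lit 737200, nat_lit 0, nat_lit 0, [(nat_lit 6, [(nat_lit 1, nat_lit 438), (nat_lit 2, nat_lit 562)]), (nat_lit 9, [(nat_lit 1, nat_lit 438), (nat_lit 2, nat_lit 562)])],
 ⟨p031_k36, nat_lit 0, nat_lit 0, nat_lit 537, nat_lit 0, nat_lit 360186, [nat_lit 3773717121, nat_lit 1605431679], [], [nat_lit 35458025970, nat_lit 36219815406, nat_lit 34611685614, nat_lit 35330755710, nat_lit 34511386523, nat_lit 35256765469, nat_lit 34522712313, nat_lit 34493284742], nat_lit 1271250, nat_lit 1271250, nat_lit 21650, nat_lit 780000, nat_lit 0, nat_lit 490000, [nat_lit 1100000, nat_lit 2470000], [nat_lit 116, nat_lit 40, nat_lit 20, nat_lit 80, nat_lit 65, nat_lit 345, nat_lit 125, nat_lit 9]⟩, ⟨p031_k37, nat_lit 0, nat_lit 0, nat_lit 608, nat_lit 0, nat_lit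 465705, [nat_lit 0, nat_lit 0], [], [nat_lit 0, nat_lit 0, nat_lit 0, nat_lit 0, nat_lit 0, nat_lit 0, nat_lit 0, nat_lit 0], nat_lit 1271250, nat_lit 1271250, nat_lit 21650, nat_lit 780000, nat_lit 0, nat_lit 2260000, [nat_lit 1412500, nat_lit 1271250], [nat_lit 107, nat_lit 40, nat_lit 20, nat_lit 80, nat_lit 12, nat_lit 401, nat_lit 175, nat_lit 11]⟩,
 ⟨nat_lit 5477, nat_lit 6325, ⟨.ofNat (nat_lit 96904), .ofNat (nat_lit 335470), .ofNat (nat_lit 118272), .ofNat (nat_lit 356838), .ofNat (nat_lit 132827), .ofNat (nat_lit 350132), .ofNat (nat_lit 154184), .ofNat (nat_lit 371489)⟩, ⟨.negSucc (nat_lit 103633), .ofNat (nat_lit 60895), .negSucc (nat_lit 82265), .ofNat (nat_lit 82263), .negSucc (nat_lit 66879), .ofNat (nat_lit 82986), .negSucc (nat_lit 45522), .ofNat (nat_lit 104343)⟩⟩, []⟩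
noncomputable def p031_l125 : Lf2 := ⟨nat_lit 0, nat_lit 10, [nat_lit 0, nat_lit 5, nat_lit 5, nat_lit 20], false, nat_lit 0, nat_lit 80, nat_lit 0, nat_lit 304, ⟨nat_lit 0, nat_lit 1000, nat_lit 0, nat_lit 5, nat_lit 106, nat_lit 0, nat_lit 17, nat_lit 0, nat_lit 0, nat_lit 0, nat_lit 0, nat_lit 0, nat_lit 0, nat_lit 0, nat_lit 0, nat_lit 5000000, false, false⟩,
 nat_lit 0, nat_lit 5865, nat_lit 0, nat_lit 0, nat_lit 3105, nat_lit 0, nat_lit 481, nat_lit 0, nat_lit 0, nat_lit 0, nat_lit 0, nat_lit 0, nat_lit 0, nat_lit 0, nat_lit 0, nat_lit 400000, nat_lit 0, nat_lit 0, [(nat_lit 6, [(nat_lit 1, nat_lit 1000)]), (nat_lit 9, [(nat_lit 1, nat_lit 1000)])],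
 ⟨p031_k5, nat_lit 0, nat_lit 0, nat_lit 566, nat_lit 0, nat_lit 438836, [nat_lit 2702720000, nat_lit 3429200000, nat_lit 3039200000], [], [nat_lit 32180595608, nat_lit 31800177803, nat_lit 30167169115, nat_lit 31302449975, nat_lit 29789613947, nat_lit 30970117287, nat_lit 29512681855, nat_lit 30589655375], nat_lit 1271250, nat_lit 1271250, nat_lit 43600, nat_lit 780000, nat_lit 0, nat_lit 490000, [nat_lit 1100000, nat_lit 1442500, nat_lit 1271250], [nat_lit 48, nat_lit 40, nat_lit 20, nat_lit 80, nat_lit 12, nat_lit 345, nat_lit 125, nat_lit 9]⟩, ⟨p031_k27, nat_lit 0, nat_lit 0, nat_lit 622, nat_lit 0, nat_lit 496046, [nat_lit 0, nat_lit 0, nat_lit 0], [], [nat_lit 0, nat_lit 0, nat_lit 0, nat_lit 0, nat_lit 0, nat_lit 0, nat_lit 0, nat_lit 0], nat_lit 1271250, nat_lit 1271250, nat_lit 43600, nat_lit 780000, nat_lit 0, nat_lit 2147000, [nat_lit 1412500, nat_lit 1271250, nat_lit 1271250], [nat_lit 53, nat_lit 40, nat_lit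 20, nat_lit 80, nat_lit 14, nat_lit 401, nat_lit 175, nat_lit 11]⟩,
 ⟨nat_lit 5477, nat_lit 6325, ⟨.ofNat (nat_lit 126498), .ofNat (nat_lit 356838), .ofNat (nat_lit 147866), .ofNat (nat_lit 378206), .ofNat (nat_lit 161677), .ofNat (nat_lit 371489), .ofNat (nat_lit 183034), .ofNat (nat_lit 392847)⟩, ⟨.negSucc (nat_lit 103633), .ofNat (nat_lit 60895), .negSucc (nat_lit 82265), .ofNat (nat_lit 82263), .negSucc (nat_lit 66879), .ofNat (nat_lit 82986), .negSucc (nat_lit 45522), .ofNat (nat_lit 104343)⟩⟩, [⟨nat_lit 0, nat_lit 100, nat_lit 96, nat_lit 44, nat_lit 4960650⟩]⟩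
noncomputable def p031_l126 : Lf2 := ⟨nat_lit 0, nat_lit 10, [nat_lit 0, nat_lit 5, nat_lit 5, nat_lit 20], true, nat_lit 80, nat_lit 160, nat_lit 0, nat_lit 320, ⟨nat_lit 0, nat_lit 1000, nat_lit 0, nat_lit 5, nat_lit 84, nat_lit 1000, nat_lit 64, nat_lit 0, nat_lit 0, nat_lit 0, nat_lit 0, nat_lit 0, nat_lit 0, nat_lit 0, nat_lit 0, nat_lit 5000000, false, false⟩,
 nat_lit 0, nat_lit 6899, nat_lit 0, nat_lit 0, nat_lit 3652, nat_lit 0, nat_lit 172, nat_lit 0, nat_lit 0, nat_lit 0, nat_lit 0, nat_lit 0, nat_lit 0, nat_lit 0, nat_lit 0, nat_lit 400000, nat_lit 0, nat_lit 0, [(nat_lit 6, [(nat_lit 1, nat_lit 1000)]), (nat_lit 9, [(nat_lit 1, nat_lit 1000)])],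
 ⟨p031_k5, nat_lit 0, nat_lit 0, nat_lit 512, nat_lit 0, nat_lit 438836, [nat_lit 2702720000, nat_lit 3429200000, nat_lit 3039200000], [], [nat_lit 32035869930, nat_lit 31143539003, nat_lit 29041362724, nat_lit 30198009636, nat_lit 30440823796, nat_lit 31546334389, nat_lit 31189563920, nat_lit 30604553028], nat_lit 1271250, nat_lit 1271250, nat_lit 21650, nat_lit 490000, nat_lit 490000, nat_lit 1100001, [nat_lit 1100000, nat_lit 1442500, nat_lit 1271250], [nat_lit 48, nat_lit 40, nat_lit 20, nat_lit 80, nat_lit 12, nat_lit 373, nat_lit 150, nat_lit 10]⟩, C1.Rw.none,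
 ⟨nat_lit 5477, nat_lit 6325, ⟨.ofNat (nat_lit 96904), .ofNat (nat_lit 253206), .ofNat (nat_lit 139640), .ofNat (nat_lit 295942), .ofNat (nat_lit 132827), .ofNat (nat_lit 275199), .ofNat (nat_lit 175541), .ofNat (nat_lit 317913)⟩, ⟨.ofNat (nat_lit 60895), .ofNat (nat_lit 225423), .ofNat (nat_lit 82263), .ofNat (nat_lit 246791), .ofNat (nat_lit 82986), .ofNat (nat_lit 232852), .ofNat (nat_lit 104343), .ofNat (nat_lit 254209)⟩⟩, []⟩
noncomputable def p031_l127 : Lf2 := ⟨nat_lit 0, nat_lit 10, [nat_lit 0, nat_lit 5, nat_lit 5, nat_lit 20], false, nat_lit 80, nat_lit 160, nat_lit 0, nat_lit 320, ⟨nat_lit 0, nat_lit 1000, nat_lit 0, nat_lit 5, nat_lit 130, nat_lit 1000, nat_lit 64, nat_lit 0, nat_lit 0, nat_lit 0, nat_lit 0, nat_lit 0, nat_lit 0, nat_lit 0, nat_lit 0, nat_lit 5000000, false, false⟩,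
 nat_lit 0, nat_lit 9651, nat_lit 0, nat_lit 0, nat_lit 5109, nat_lit 0, nat_lit 0, nat_lit 0, nat_lit 0, nat_lit 0, nat_lit 0, nat_lit 0, nat_lit 0, nat_lit 0, nat_lit 0, nat_lit 400000, nat_lit 0, nat_lit 0, [(nat_lit 6, [(nat_lit 1, nat_lit 1000)]), (nat_lit 9, [(nat_lit 1, nat_lit 1000)])],
 ⟨p031_k5, nat_lit 0, nat_lit 0, nat_lit 393, nat_lit 0, nat_lit 438836, [nat_lit 2702720000, nat_lit 3429200000, nat_lit 3039200000], [], [nat_lit 28514585676, nat_lit 24252634740, nat_lit 23193276072, nat_lit 24138197588, nat_lit 25444133124, nat_lit 24410774572, nat_lit 27649557140, nat_lit 24262310376], nat_lit 1271250, nat_lit 1271250, nat_lit 490000, nat_lit 780000, nat_lit 490000, nat_lit 1100001, [nat_lit 1100000, nat_lit 1442500, nat_lit 1271250], [nat_lit 48, nat_lit 40, nat_lit 20, nat_lit 80, nat_lit 12, nat_lit 373, nat_lit 150, nat_lit 10]⟩, ⟨p031_k6, nat_lit 0, nat_lit 0, nat_lit 577, nat_lit 0, nat_lit 567396,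 [nat_lit 0, nat_lit 0, nat_lit 0], [], [nat_lit 0, nat_lit 0, nat_lit 0, nat_lit 0, nat_lit 0, nat_lit 0, nat_lit 0, nat_lit 0], nat_lit 1271250, nat_lit 1271250, nat_lit 490000, nat_lit 780000, nat_lit 0, nat_lit 2260000, [nat_lit 1412500, nat_lit 1271250, nat_lit 1271250], [nat_lit 53, nat_lit 40, nat_lit 20, nat_lit 80, nat_lit 14, nat_lit 401, nat_lit 175, nat_lit 11]⟩,
 ⟨nat_lit 5477, nat_lit 6325, ⟨.ofNat (nat_lit 253206), .ofNat (nat_lit 335470), .ofNat (nat_lit 295942), .ofNat (nat_lit 378206), .ofNat (nat_lit 275199), .ofNat (nat_lit 350132), .ofNat (nat_lit 317913), .ofNat (nat_lit 392847)⟩, ⟨.ofNat (nat_lit 60895), .ofNat (nat_lit 225423), .ofNat (nat_lit 82263), .ofNat (nat_lit 246791), .ofNat (nat_lit 82986), .ofNat (nat_lit 232852), .ofNat (nat_lit 104343), .ofNat (nat_lit 254209)⟩⟩, []⟩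
noncomputable def p031_l128 : Lf2 := ⟨nat_lit 0, nat_lit 10, [nat_lit 0, nat_lit 5, nat_lit 5, nat_lit 20], false, nat_lit 0, nat_lit 160, nat_lit 0, nat_lit 320, ⟨nat_lit 0, nat_lit 1000, nat_lit 0, nat_lit 5, nat_lit 161, nat_lit 1000, nat_lit 48, nat_lit 0, nat_lit 0, nat_lit 0, nat_lit 0, nat_lit 0, nat_lit 0, nat_lit 0, nat_lit 0, nat_lit 5000000, false, false⟩,
 nat_lit 0, nat_lit 8134, nat_lit 0, nat_lit 0, nat_lit 4305, nat_lit 0, nat_lit 0, nat_lit 0, nat_lit 0, nat_lit 0, nat_lit 0, nat_lit 0, nat_lit 0, nat_lit 0, nat_lit 0, nat_lit 400000, nat_lit 0, nat_lit 0, [(nat_lit 6, [(nat_lit 1, nat_lit 1000)]), (nat_lit 9, [(nat_lit 1, nat_lit 1000)])],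
 ⟨p031_k5, nat_lit 0, nat_lit 0, nat_lit 497, nat_lit 0, nat_lit 438836, [nat_lit 2702720000, nat_lit 3429200000, nat_lit 3039200000], [], [nat_lit 32692063200, nat_lit 30396644600, nat_lit 29511494740, nat_lit 30651611740, nat_lit 28663031300, nat_lit 29160970960, nat_lit 31396368860, nat_lit 29361351600], nat_lit 1271250, nat_lit 1271250, nat_lit 780000, nat_lit 1100001, nat_lit 0, nat_lit 1100001, [nat_lit 1100000, nat_lit 1442500, nat_lit 1271250], [nat_lit 48, nat_lit 40, nat_lit 20, nat_lit 80, nat_lit 12, nat_lit 373, nat_lit 150, nat_lit 10]⟩, ⟨p031_k6, nat_lit 0, nat_lit 0, nat_lit 556, nat_lit 0, nat_lit 567396, [nat_lit 0, nat_lit 0, nat_lit 0], [], [nat_lit 0, nat_lit 0, nat_lit 0, nat_lit 0, nat_lit 0, nat_lit 0, nat_lit 0, nat_lit 0], nat_lit 1271250, nat_lit 1271250, nat_lit 780000, nat_lit 1100001, nat_lit 0, nat_lit 2260000, [nat_lit 1412500, nat_lit 1271250, nat_lit 1271250], [nat_lit 53, nat_lit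 40, nat_lit 20, nat_lit 80, nat_lit 14, nat_lit 428, nat_lit 200, nat_lit 11]⟩,
 ⟨nat_lit 5477, nat_lit 6325, ⟨.ofNat (nat_lit 335470), .ofNat (nat_lit 417734), .ofNat (nat_lit 378206), .ofNat (nat_lit 460470), .ofNat (nat_lit 350132), .ofNat (nat_lit 425065), .ofNat (nat_lit 392847), .ofNat (nat_lit 467780)⟩, ⟨.negSucc (nat_lit 103633), .ofNat (nat_lit 225423), .negSucc (nat_lit 82265), .ofNat (nat_lit 246791), .negSucc (nat_lit 66879), .ofNat (nat_lit 232852), .negSucc (nat_lit 45522), .ofNat (nat_lit 254209)⟩⟩, []⟩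
noncomputable def p031_l129 : Lf2 := ⟨nat_lit 0, nat_lit 10, [nat_lit 0, nat_lit 5, nat_lit 5, nat_lit 20], false, nat_lit 0, nat_lit 160, nat_lit 0, nat_lit 320, ⟨nat_lit 17, nat_lit 983, nat_lit 0, nat_lit 5, nat_lit 209, nat_lit 983, nat_lit 48, nat_lit 0, nat_lit 0, nat_lit 0, nat_lit 0, nat_lit 0, nat_lit 0, nat_lit 0, nat_lit 0, nat_lit 5000000, false, false⟩,
 nat_lit 460, nat_lit 5472, nat_lit 0, nat_lit 0, nat_lit 3140, nat_lit 197, nat_lit 456, nat_lit 0, nat_lit 0, nat_lit 42, nat_lit 0, nat_lit 0, nat_lit 0, nat_lit 0, nat_lit 0, nat_lit 393200, nat_lit 0, nat_lit 0, [(nat_lit 6, [(nat_lit 1, nat_lit 983)]), (nat_lit 9, [(nat_lit 1, nat_lit 983)])],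
 ⟨p031_k5, nat_lit 0, nat_lit 0, nat_lit 483, nat_lit 0, nat_lit 438836, [nat_lit 2736469761, nat_lit 3477153600, nat_lit 3185379600], [], [nat_lit 30257809122, nat_lit 28133425001, nat_lit 28589574281, nat_lit 29751820601, nat_lit 26746404281, nat_lit 27894039721, nat_lit 28937224401, nat_lit 29308276601], nat_lit 1271250, nat_lit 1271250, nat_lit 1100001, nat_lit 1785000, nat_lit 0, nat_lit 1100001, [nat_lit 1100000, nat_lit 1442500, nat_lit 1271250], [nat_lit 48, nat_lit 40, nat_lit 20, nat_lit 80, nat_lit 12, nat_lit 401, nat_lit 175, nat_lit 10]⟩, ⟨p031_k6, nat_lit 0, nat_lit 0, nat_lit 540, nat_lit 0, nat_lit 567396, [nat_lit 106250000, nat_lit 135456000, nat_lit 201824000], [], [nat_lit 644373912, nat_lit 445452984, nat_lit 445851988, nat_lit 466361822, nat_lit 921542872, nat_lit 738371484, nat_lit 557615316, nat_lit 404056572], nat_lit 1271250, nat_lit 1271250, nat_lit 1271250, nat_lit 1271250, nat_lit 0, nat_lit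 2260000, [nat_lit 1412500, nat_lit 1271250, nat_lit 1271250], [nat_lit 53, nat_lit 40, nat_lit 20, nat_lit 80, nat_lit 14, nat_lit 428, nat_lit 200, nat_lit 11]⟩,
 ⟨nat_lit 5477, nat_lit 6325, ⟨.ofNat (nat_lit 417734), .ofNat (nat_lit 582178), .ofNat (nat_lit 460470), .ofNat (nat_lit 624852), .ofNat (nat_lit 425065), .ofNat (nat_lit 574846), .ofNat (nat_lit 467780), .ofNat (nat_lit 617499)⟩, ⟨.negSucc (nat_lit 103633), .ofNat (nat_lit 225423), .negSucc (nat_lit 82265), .ofNat (nat_lit 246791), .negSucc (nat_lit 66879), .ofNat (nat_lit 232852), .negSucc (nat_lit 45522), .ofNat (nat_lit 254209)⟩⟩, [⟨nat_lit 7, nat_lit 90, nat_lit 100, nat_lit 53, nat_lit 4086183⟩]⟩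
noncomputable def p031_l130 : Lf2 := ⟨nat_lit 0, nat_lit 10, [nat_lit 0, nat_lit 5, nat_lit 5, nat_lit 20], false, nat_lit 160, nat_lit 288, nat_lit 0, nat_lit 320, ⟨nat_lit 0, nat_lit 1000, nat_lit 0, nat_lit 5, nat_lit 146, nat_lit 1000, nat_lit 147, nat_lit 0, nat_lit 0, nat_lit 0, nat_lit 0, nat_lit 0, nat_lit 0, nat_lit 0, nat_lit 0, nat_lit 5000000, false, false⟩,
 nat_lit 0, nat_lit 7325, nat_lit 0, nat_lit 0, nat_lit 3877, nat_lit 0, nat_lit 498, nat_lit 0, nat_lit 0, nat_lit 0, nat_lit 0, nat_lit 0, nat_lit 0, nat_lit 0, nat_lit 0, nat_lit 400000, nat_lit 0, nat_lit 0, [(nat_lit 6, [(nat_lit 1, nat_lit 1000)])],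
 ⟨p031_k5, nat_lit 0, nat_lit 0, nat_lit 374, nat_lit 0, nat_lit 312122, [nat_lit 2692266667, nat_lit 3429200000, nat_lit 3039200000], [], [nat_lit 30880986844, nat_lit 28834178972, nat_lit 29969000331, nat_lit 28117003955, nat_lit 28159814713, nat_lit 28699446381, nat_lit 28202707865, nat_lit 28607771517], nat_lit 1271250, nat_lit 1271250, nat_lit 21650, nat_lit 1697250, nat_lit 1271250, nat_lit 1271250, [nat_lit 1100000, nat_lit 1442500, nat_lit 1271250], [nat_lit 48, nat_lit 40, nat_lit 20, nat_lit 80, nat_lit 12, nat_lit 428, nat_lit 200, nat_lit 11]⟩, ⟨p031_k6, nat_lit 0, nat_lit 0, nat_lit 575, nat_lit 0, nat_lit 403560, [nat_lit 0, nat_lit 0, nat_lit 0], [], [nat_lit 0, nat_lit 0, nat_lit 0, nat_lit 0, nat_lit 0, nat_lit 0, nat_lit 0, nat_lit 0], nat_lit 1271250, nat_lit 1271250, nat_lit 21650, nat_lit 1697250, nat_lit 0, nat_lit 2260000, [nat_lit 1412500, nat_lit 1271250, nat_lit 1271250], [nat_lit 53, nat_lit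 40, nat_lit 20, nat_lit 80, nat_lit 14, nat_lit 428, nat_lit 200, nat_lit 12]⟩,
 ⟨nat_lit 5916, nat_lit 6325, ⟨.ofNat (nat_lit 96904), .ofNat (nat_lit 582240), .ofNat (nat_lit 139640), .ofNat (nat_lit 624961), .ofNat (nat_lit 115184), .ofNat (nat_lit 578509), .ofNat (nat_lit 157863), .ofNat (nat_lit 621173)⟩, ⟨.ofNat (nat_lit 225423), .ofNat (nat_lit 488669), .ofNat (nat_lit 246791), .ofNat (nat_lit 510037), .ofNat (nat_lit 229411), .ofNat (nat_lit 480719), .ofNat (nat_lit 250751), .ofNat (nat_lit 502058)⟩⟩, []⟩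
noncomputable def p031_l131 : Lf2 := ⟨nat_lit 0, nat_lit 10, [nat_lit 0, nat_lit 5, nat_lit 5, nat_lit 20], false, nat_lit 160, nat_lit 268, nat_lit 0, nat_lit 320, ⟨nat_lit 0, nat_lit 1000, nat_lit 0, nat_lit 5, nat_lit 150, nat_lit 1000, nat_lit 138, nat_lit 0, nat_lit 0, nat_lit 0, nat_lit 0, nat_lit 0, nat_lit 0, nat_lit 0, nat_lit 0, nat_lit 5000000, false, false⟩,
 nat_lit 0, nat_lit 6867, nat_lit 0, nat_lit 0, nat_lit 3997, nat_lit 0, nat_lit 757, nat_lit 0, nat_lit 0, nat_lit 0, nat_lit 0, nat_lit 0, nat_lit 0, nat_lit 0, nat_lit 0, nat_lit 400000, nat_lit 0, nat_lit 0, [(nat_lit 9, [(nat_lit 1, nat_lit 1000)])],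
 ⟨p031_k10, nat_lit 0, nat_lit 0, nat_lit 340, nat_lit 0, nat_lit 392023, [nat_lit 2702720000, nat_lit 2968400001, nat_lit 2997199999], [], [nat_lit 28540841094, nat_lit 26433886496, nat_lit 26985276944, nat_lit 25075958008, nat_lit 24477707788, nat_lit 25137833247, nat_lit 25486105318, nat_lit 26038844011], nat_lit 1271250, nat_lit 1271250, nat_lit 43600, nat_lit 1699500, nat_lit 1271250, nat_lit 1271250, [nat_lit 1100000, nat_lit 1442500, nat_lit 1271250], [nat_lit 11, nat_lit 40, nat_lit 20, nat_lit 80, nat_lit 1, nat_lit 428, nat_lit 200, nat_lit 12]⟩, ⟨p031_k6, nat_lit 0, nat_lit 0, nat_lit 670, nat_lit 0, nat_lit 567396, [nat_lit 0, nat_lit 0, nat_lit 0], [], [nat_lit 0, nat_lit 0, nat_lit 0, nat_lit 0, nat_lit 0, nat_lit 0, nat_lit 0, nat_lit 0], nat_lit 1271250, nat_lit 1271250, nat_lit 43600, nat_lit 1699500, nat_lit 0, nat_lit 2260000, [nat_lit 1412500, nat_lit 1271250, nat_lit 1271250], [nat_lit 53, nat_lit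 40, nat_lit 20, nat_lit 80, nat_lit 14, nat_lit 428, nat_lit 200, nat_lit 12]⟩,
 ⟨nat_lit 5477, nat_lit 5917, ⟨.ofNat (nat_lit 123037), .ofNat (nat_lit 578514), .ofNat (nat_lit 165716), .ofNat (nat_lit 621176), .ofNat (nat_lit 140320), .ofNat (nat_lit 574913), .ofNat (nat_lit 183034), .ofNat (nat_lit 617611)⟩, ⟨.ofNat (nat_lit 229411), .ofNat (nat_lit 441452), .ofNat (nat_lit 250751), .ofNat (nat_lit 462791), .ofNat (nat_lit 232852), .ofNat (nat_lit 435171), .ofNat (nat_lit 254209), .ofNat (nat_lit 456528)⟩⟩, []⟩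
noncomputable def p031_l132 : Lf2 := ⟨nat_lit 0, nat_lit 10, [nat_lit 0, nat_lit 5, nat_lit 5, nat_lit 20], false, nat_lit 0, nat_lit 288, nat_lit 0, nat_lit 320, ⟨nat_lit 575, nat_lit 425, nat_lit 0, nat_lit 6, nat_lit 305, nat_lit 425, nat_lit 99, nat_lit 0, nat_lit 0, nat_lit 0, nat_lit 0, nat_lit 0, nat_lit 0, nat_lit 0, nat_lit 0, nat_lit 5000000, true, true⟩,
 nat_lit 11994, nat_lit 0, nat_lit 0, nat_lit 0, nat_lit 6349, nat_lit 5140, nat_lit 885, nat_lit 0, nat_lit 0, nat_lit 795, nat_lit 0, nat_lit 0, nat_lit 0, nat_lit 0, nat_lit 0, nat_lit 425000, nat_lit 0, nat_lit 0, [(nat_lit 6, [(nat_lit 2, nat_lit 425)])],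
 ⟨p031_k5, nat_lit 0, nat_lit 0, nat_lit 387, nat_lit 0, nat_lit 312122, [nat_lit 3893760000, nat_lit 5064080001, nat_lit 6841190000], [], [nat_lit 26787545188, nat_lit 27468128094, nat_lit 35358689339, nat_lit 35899134907, nat_lit 25817245263, nat_lit 26214813954, nat_lit 31462183685, nat_lit 32073765292], nat_lit 1271250, nat_lit 1271250, nat_lit 1271250, nat_lit 1271250, nat_lit 0, nat_lit 2034000, [nat_lit 1100000, nat_lit 1442500, nat_lit 1271250], [nat_lit 48, nat_lit 40, nat_lit 20, nat_lit 80, nat_lit 12, nat_lit 483, nat_lit 250, nat_lit 12]⟩, ⟨p031_k6, nat_lit 0, nat_lit 0, nat_lit 434, nat_lit 0, nat_lit 403560, [nat_lit 3593750000, nat_lit 4581600000, nat_lit 6826400000], [], [nat_lit 21120671690, nat_lit 21335569790, nat_lit 24667858970, nat_lit 24682865310, nat_lit 19950094340, nat_lit 17980846230, nat_lit 20482349595, nat_lit 20497355935], nat_lit 1271250, nat_lit 1271250, nat_lit 1271250, nat_lit 1271250,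 nat_lit 0, nat_lit 2260000, [nat_lit 1412500, nat_lit 1271250, nat_lit 1271250], [nat_lit 53, nat_lit 40, nat_lit 20, nat_lit 80, nat_lit 14, nat_lit 483, nat_lit 250, nat_lit 12]⟩,
 ⟨nat_lit 5916, nat_lit 6325, ⟨.ofNat (nat_lit 582240), .ofNat (nat_lit 911200), .ofNat (nat_lit 624961), .ofNat (nat_lit 953920), .ofNat (nat_lit 578509), .ofNat (nat_lit 892546), .ofNat (nat_lit 621173), .ofNat (nat_lit 935210)⟩, ⟨.negSucc (nat_lit 103633), .ofNat (nat_lit 488669), .negSucc (nat_lit 82265), .ofNat (nat_lit 510037), .negSucc (nat_lit 84722), .ofNat (nat_lit 480719), .negSucc (nat_lit 63383), .ofNat (nat_lit 502058)⟩⟩, [⟨nat_lit 4, nat_lit 99, nat_lit 100, nat_lit 54, nat_lit 109893718⟩, ⟨nat_lit 7, nat_lit 90, nat_lit 100, nat_lit 53, nat_lit 77862214⟩]⟩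
noncomputable def p031_l133 : Lf2 := ⟨nat_lit 0, nat_lit 10, [nat_lit 0, nat_lit 5, nat_lit 5, nat_lit 20], false, nat_lit 0, nat_lit 268, nat_lit 0, nat_lit 320, ⟨nat_lit 472, nat_lit 528, nat_lit 0, nat_lit 6, nat_lit 301, nat_lit 528, nat_lit 90, nat_lit 0, nat_lit 0, nat_lit 0, nat_lit 0, nat_lit 0, nat_lit 0, nat_lit 0, nat_lit 0, nat_lit 5000000, true, true⟩,
 nat_lit 9570, nat_lit 0, nat_lit 0, nat_lit 0, nat_lit 5570, nat_lit 4101, nat_lit 914, nat_lit 0, nat_lit 0, nat_lit 709, nat_lit 0, nat_lit 0, nat_lit 0, nat_lit 0, nat_lit 0, nat_lit 211200, nat_lit 0, nat_lit 0, [(nat_lit 9, [(nat_lit 1, nat_lit 528)])],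
 ⟨p031_k10, nat_lit 0, nat_lit 0, nat_lit 369, nat_lit 0, nat_lit 392023, [nat_lit 3639772160, nat_lit 4517315201, nat_lit 6170291200], [], [nat_lit 27397655752, nat_lit 27969951772, nat_lit 33677444280, nat_lit 34593463120, nat_lit 26548262483, nat_lit 26913673209, nat_lit 30812637692, nat_lit 31151540798], nat_lit 1271250, nat_lit 1271250, nat_lit 1271250, nat_lit 1271250, nat_lit 0, nat_lit 1892750, [nat_lit 1100000, nat_lit 1442500, nat_lit 1271250], [nat_lit 11, nat_lit 40, nat_lit 20, nat_lit 80, nat_lit 1, nat_lit 483, nat_lit 250, nat_lit 14]⟩, ⟨p031_k6, nat_lit 0, nat_lit 0, nat_lit 524, nat_lit 0, nat_lit 567396, [nat_lit 2950000000, nat_lit 3760896000, nat_lit 5603584000], [], [nat_lit 17184522474, nat_lit 17366723358, nat_lit 19907202658, nat_lit 19936770561, nat_lit 16461023960, nat_lit 14771303169, nat_lit 16658828033, nat_lit 16688395936], nat_lit 1271250, nat_lit 1271250, nat_lit 1271250, nat_lit 1271250,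 nat_lit 0, nat_lit 2260000, [nat_lit 1412500, nat_lit 1271250, nat_lit 1271250], [nat_lit 53, nat_lit 40, nat_lit 20, nat_lit 80, nat_lit 14, nat_lit 483, nat_lit 250, nat_lit 12]⟩,
 ⟨nat_lit 5477, nat_lit 5917, ⟨.ofNat (nat_lit 578514), .ofNat (nat_lit 892572), .ofNat (nat_lit 621176), .ofNat (nat_lit 935234), .ofNat (nat_lit 574913), .ofNat (nat_lit 874569), .ofNat (nat_lit 617611), .ofNat (nat_lit 917267)⟩, ⟨.negSucc (nat_lit 84722), .ofNat (nat_lit 441452), .negSucc (nat_lit 63383), .ofNat (nat_lit 462791), .negSucc (nat_lit 66879), .ofNat (nat_lit 435171), .negSucc (nat_lit 45522), .ofNat (nat_lit 456528)⟩⟩, [⟨nat_lit 16, nat_lit 96, nat_lit 100, nat_lit 54, nat_lit 94034085⟩, ⟨nat_lit 19, nat_lit 100, nat_lit 90, nat_lit 53, nat_lit 69402772⟩]⟩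
noncomputable def b_VL_600_500_5_32 : St := ⟨true, nat_lit 1, nat_lit 1, nat_lit 2, nat_lit 40, nat_lit 240, nat_lit 280, nat_lit 200, nat_lit 240, nat_lit 4, nat_lit 400, nat_lit 20, nat_lit 40, nat_lit 0, nat_lit 288, nat_lit 0, nat_lit 320, nat_lit 0, nat_lit 40, nat_lit 0, nat_lit 0, nat_lit 0, nat_lit 0⟩
theorem d_VL_600_500_5_32 (h : EB TB.env) : Dead b_VL_600_500_5_32 := chkB_sound0 h (T :=
(.spl (nat_lit 2) (nat_lit 240)
(.spl (nat_lit 4) (nat_lit 160)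
(.spl (nat_lit 2) (nat_lit 120)
(.spl (nat_lit 4) (nat_lit 80)
(.spl (nat_lit 1) (nat_lit 220)
(.leaf p031_l124)
(.trZ (nat_lit 0) (nat_lit 100) (nat_lit 98) (nat_lit 30) (nat_lit 8) (.trX (nat_lit 19) (nat_lit 100) (nat_lit 86) (nat_lit 60) (nat_lit 304) (.leaf p031_l125))))
(.spl (nat_lit 2) (nat_lit 80)
(.leaf p031_l126)
(.leaf p031_l127)))
(.spl (nat_lit 2) (nat_lit 160)
(.leaf p031_l128)
(.leaf p031_l129)))
(.spl (nat_lit 0) (nat_lit 260)
(.leaf p031_l130)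
(.trZ (nat_lit 0) (nat_lit 100) (nat_lit 95) (nat_lit 30) (nat_lit 8) (.trX (nat_lit 16) (nat_lit 100) (nat_lit 99) (nat_lit 63) (nat_lit 268) (.leaf p031_l131)))))
(.spl (nat_lit 0) (nat_lit 260)
(.leaf p031_l132)
(.trX (nat_lit 16) (nat_lit 100) (nat_lit 99) (nat_lit 63) (nat_lit 268) (.leaf p031_l133))))) (by decide +kernel)
noncomputable def p031_l134 : Lf2 := ⟨nat_lit 1, nat_lit 10, [nat_lit 0, nat_lit 5, nat_lit 5, nat_lit 20], false, nat_lit 0, nat_lit 288, nat_lit 0, nat_lit 320, zbN0,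
 nat_lit 0, nat_lit 0, nat_lit 0, nat_lit 0, nat_lit 0, nat_lit 0, nat_lit 0, nat_lit 0, nat_lit 0, nat_lit 0, nat_lit 0, nat_lit 0, nat_lit 0, nat_lit 0, nat_lit 0, nat_lit 0, nat_lit 0, nat_lit 0, [],
 C1.Rw.none, C1.Rw.none,
 zbF0, []⟩
noncomputable def p031_l135 : Lf2 := ⟨nat_lit 1, nat_lit 10, [nat_lit 0, nat_lit 5, nat_lit 5, nat_lit 20], false, nat_lit 0, nat_lit 160, nat_lit 0, nat_lit 320, zbN0,
 nat_lit 0, nat_lit 0, nat_lit 0, nat_lit 0, nat_lit 0, nat_lit 0, nat_lit 0, nat_lit 0, nat_lit 0, nat_lit 0, nat_lit 0, nat_lit 0, nat_lit 0, nat_lit 0, nat_lit 0, nat_lit 0, nat_lit 0, nat_lit 0, [],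
 C1.Rw.none, C1.Rw.none,
 zbF0, []⟩
noncomputable def p031_l136 : Lf2 := ⟨nat_lit 0, nat_lit 10, [nat_lit 0, nat_lit 5, nat_lit 5, nat_lit 20], true, nat_lit 0, nat_lit 160, nat_lit 0, nat_lit 320, ⟨nat_lit 0, nat_lit 0, nat_lit 1000, nat_lit 5, nat_lit 152, nat_lit 300, nat_lit 49, nat_lit 1000, nat_lit 12150, nat_lit 242, nat_lit 4702, nat_lit 206, nat_lit 58504449, nat_lit 0, nat_lit 0, nat_lit 1901281, false, false⟩,
 nat_lit 0, nat_lit 0, nat_lit 0, nat_lit 4765, nat_lit 3745, nat_lit 0, nat_lit 0, nat_lit 0, nat_lit 0, nat_lit 0, nat_lit 0, nat_lit 0, nat_lit 0, nat_lit 0, nat_lit 113, nat_lit 550000, nat_lit 0, nat_lit 0, [(nat_lit 9, [(nat_lit 5, nat_lit 750), (nat_lit 6, nat_lit 250)])],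
 ⟨p031_k38, nat_lit 0, nat_lit 0, nat_lit 292, nat_lit 0, nat_lit 0, [nat_lit 3227200000, nat_lit 2054333334, nat_lit 25866666], [], [nat_lit 15945932099, nat_lit 16590377174, nat_lit 18216927645, nat_lit 18748661900, nat_lit 15195794455, nat_lit 15675915790, nat_lit 17997678660, nat_lit 18448808480], nat_lit 0, nat_lit 0, nat_lit 0, nat_lit 0, nat_lit 0, nat_lit 0, [], [nat_lit 11, nat_lit 40, nat_lit 20, nat_lit 80, nat_lit 1, nat_lit 401, nat_lit 175, nat_lit 12]⟩, C1.Rw.none,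
 ⟨nat_lit 5477, nat_lit 5701, ⟨.ofNat (nat_lit 139419), .ofNat (nat_lit 576714), .ofNat (nat_lit 182103), .ofNat (nat_lit 619394), .ofNat (nat_lit 147813), .ofNat (nat_lit 574928), .ofNat (nat_lit 190527), .ofNat (nat_lit 617638)⟩, ⟨.negSucc (nat_lit 75673), .ofNat (nat_lit 231202), .negSucc (nat_lit 54331), .ofNat (nat_lit 252544), .negSucc (nat_lit 66879), .ofNat (nat_lit 232852), .negSucc (nat_lit 45522), .ofNat (nat_lit 254209)⟩⟩, []⟩
noncomputable def p031_l137 : Lf2 := ⟨nat_lit 0, nat_lit 10, [nat_lit 0, nat_lit 5, nat_lit 5, nat_lit 20], true, nat_lit 160, nat_lit 268, nat_lit 0, nat_lit 320, ⟨nat_lit 0, nat_lit 0, nat_lit 1000, nat_lit 5, nat_lit 150, nat_lit 1000, nat_lit 138, nat_lit 1000, nat_lit 126379, nat_lit 302, nat_lit 2161, nat_lit 205, nat_lit 51055513, nat_lit 0, nat_lit 0, nat_lit 3813280, false, false⟩,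
 nat_lit 0, nat_lit 0, nat_lit 0, nat_lit 8482, nat_lit 4397, nat_lit 0, nat_lit 0, nat_lit 0, nat_lit 0, nat_lit 0, nat_lit 0, nat_lit 0, nat_lit 0, nat_lit 0, nat_lit 87, nat_lit 400000, nat_lit 0, nat_lit 0, [(nat_lit 9, [(nat_lit 5, nat_lit 1000)])],
 ⟨p031_k10, nat_lit 0, nat_lit 0, nat_lit 154, nat_lit 0, nat_lit 0, [nat_lit 2918400000, nat_lit 1608666667, nat_lit 9200000], [], [nat_lit 14893659384, nat_lit 15943331658, nat_lit 16297713510, nat_lit 17041564852, nat_lit 18991042544, nat_lit 20039806526, nat_lit 19859368079, nat_lit 20912615353], nat_lit 0, nat_lit 0, nat_lit 0, nat_lit 0, nat_lit 0, nat_lit 0, [], [nat_lit 11, nat_lit 40, nat_lit 20, nat_lit 80, nat_lit 1, nat_lit 428, nat_lit 200, nat_lit 12]⟩, C1.Rw.none,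
 ⟨nat_lit 5477, nat_lit 5917, ⟨.ofNat (nat_lit 123037), .ofNat (nat_lit 578514), .ofNat (nat_lit 165716), .ofNat (nat_lit 621176), .ofNat (nat_lit 140320), .ofNat (nat_lit 574913), .ofNat (nat_lit 183034), .ofNat (nat_lit 617611)⟩, ⟨.ofNat (nat_lit 229411), .ofNat (nat_lit 441452), .ofNat (nat_lit 250751), .ofNat (nat_lit 462791), .ofNat (nat_lit 232852), .ofNat (nat_lit 435171), .ofNat (nat_lit 254209), .ofNat (nat_lit 456528)⟩⟩, [⟨nat_lit 0, nat_lit 100, nat_lit 94, nat_lit 59, nat_lit 40517841⟩, ⟨nat_lit 4, nat_lit 100, nat_lit 96, nat_lit 54, nat_lit 288812387⟩]⟩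
noncomputable def p031_l138 : Lf2 := ⟨nat_lit 0, nat_lit 10, [nat_lit 0, nat_lit 5, nat_lit 5, nat_lit 20], false, nat_lit 0, nat_lit 288, nat_lit 0, nat_lit 320, ⟨nat_lit 1000, nat_lit 0, nat_lit 0, nat_lit 0, nat_lit 0, nat_lit 0, nat_lit 0, nat_lit 0, nat_lit 0, nat_lit 0, nat_lit 0, nat_lit 0, nat_lit 0, nat_lit 0, nat_lit 0, nat_lit 0, false, false⟩,
 nat_lit 0, nat_lit 0, nat_lit 0, nat_lit 10892, nat_lit 10034, nat_lit 12123, nat_lit 0, nat_lit 0, nat_lit 0, nat_lit 0, nat_lit 0, nat_lit 0, nat_lit 0, nat_lit 0, nat_lit 0, nat_lit 0, nat_lit 0, nat_lit 0, [],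
 ⟨p031_k36, nat_lit 0, nat_lit 0, nat_lit 229, nat_lit 0, nat_lit 0, [nat_lit 4688000000, nat_lit 11872000000], [], [nat_lit 35245823624, nat_lit 37857437152, nat_lit 48723738624, nat_lit 49860877600, nat_lit 30984498922, nat_lit 32418945045, nat_lit 39116435079, nat_lit 39625905855], nat_lit 0, nat_lit 0, nat_lit 0, nat_lit 0, nat_lit 0, nat_lit 0, [], [nat_lit 116, nat_lit 40, nat_lit 20, nat_lit 80, nat_lit 65, nat_lit 483, nat_lit 250, nat_lit 12]⟩, ⟨p031_k37, nat_lit 0, nat_lit 0, nat_lit 243, nat_lit 0, nat_lit 0, [nat_lit 6250000000, nat_lit 11872000000], [], [nat_lit 33693039392, nat_lit 35775669228, nat_lit 50605592452, nat_lit 51044901728, nat_lit 30404858224, nat_lit 31096138576, nat_lit 39329367904, nat_lit 39172901728], nat_lit 0, nat_lit 0, nat_lit 0, nat_lit 0, nat_lit 0, nat_lit 0, [], [nat_lit 107, nat_lit 40, nat_lit 20, nat_lit 80, nat_lit 12, nat_lit 483, nat_lit 250, nat_lit 12]⟩,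
 zbF0, []⟩
noncomputable def p031_l139 : Lf2 := ⟨nat_lit 1, nat_lit 10, [nat_lit 0, nat_lit 5, nat_lit 5, nat_lit 20], false, nat_lit 0, nat_lit 288, nat_lit 0, nat_lit 320, zbN0,
 nat_lit 0, nat_lit 0, nat_lit 0, nat_lit 0, nat_lit 0, nat_lit 0, nat_lit 0, nat_lit 0, nat_lit 0, nat_lit 0, nat_lit 0, nat_lit 0, nat_lit 0, nat_lit 0, nat_lit 0, nat_lit 0, nat_lit 0, nat_lit 0, [],
 C1.Rw.none, C1.Rw.none,
 zbF0, []⟩
noncomputable def p031_l140 : Lf2 := ⟨nat_lit 1, nat_lit 10, [nat_lit 0, nat_lit 5, nat_lit 5, nat_lit 20], false, nat_lit 0, nat_lit 160, nat_lit 0, nat_lit 320, zbN0,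
 nat_lit 0, nat_lit 0, nat_lit 0, nat_lit 0, nat_lit 0, nat_lit 0, nat_lit 0, nat_lit 0, nat_lit 0, nat_lit 0, nat_lit 0, nat_lit 0, nat_lit 0, nat_lit 0, nat_lit 0, nat_lit 0, nat_lit 0, nat_lit 0, [],
 C1.Rw.none, C1.Rw.none,
 zbF0, []⟩
noncomputable def p031_l141 : Lf2 := ⟨nat_lit 0, nat_lit 10, [nat_lit 0, nat_lit 5, nat_lit 5, nat_lit 20], true, nat_lit 0, nat_lit 160, nat_lit 0, nat_lit 320, ⟨nat_lit 0, nat_lit 0, nat_lit 1000, nat_lit 5, nat_lit 152, nat_lit 300, nat_lit 49, nat_lit 1000, nat_lit 12150, nat_lit 242, nat_lit 4702, nat_lit 206, nat_lit 58504449, nat_lit 0, nat_lit 0, nat_lit 1901281, false, false⟩,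
 nat_lit 0, nat_lit 0, nat_lit 0, nat_lit 4765, nat_lit 3745, nat_lit 0, nat_lit 0, nat_lit 0, nat_lit 0, nat_lit 0, nat_lit 0, nat_lit 0, nat_lit 0, nat_lit 0, nat_lit 113, nat_lit 550000, nat_lit 0, nat_lit 0, [(nat_lit 9, [(nat_lit 5, nat_lit 750), (nat_lit 6, nat_lit 250)])],
 ⟨p031_k38, nat_lit 0, nat_lit 0, nat_lit 292, nat_lit 0, nat_lit 0, [nat_lit 3227200000, nat_lit 2054333334, nat_lit 25866666], [], [nat_lit 15945932099, nat_lit 16590377174, nat_lit 18216927645, nat_lit 18748661900, nat_lit 15195794455, nat_lit 15675915790, nat_lit 17997678660, nat_lit 18448808480], nat_lit 0, nat_lit 0, nat_lit 0, nat_lit 0, nat_lit 0, nat_lit 0, [], [nat_lit 11, nat_lit 40, nat_lit 20, nat_lit 80, nat_lit 1, nat_lit 401, nat_lit 175, nat_lit 12]⟩, C1.Rw.none,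
 ⟨nat_lit 5477, nat_lit 5701, ⟨.ofNat (nat_lit 139419), .ofNat (nat_lit 576714), .ofNat (nat_lit 182103), .ofNat (nat_lit 619394), .ofNat (nat_lit 147813), .ofNat (nat_lit 574928), .ofNat (nat_lit 190527), .ofNat (nat_lit 617638)⟩, ⟨.negSucc (nat_lit 75673), .ofNat (nat_lit 231202), .negSucc (nat_lit 54331), .ofNat (nat_lit 252544), .negSucc (nat_lit 66879), .ofNat (nat_lit 232852), .negSucc (nat_lit 45522), .ofNat (nat_lit 254209)⟩⟩, []⟩
noncomputable def p031_l142 : Lf2 := ⟨nat_lit 0, nat_lit 10, [nat_lit 0, nat_lit 5, nat_lit 5, nat_lit 20], true, nat_lit 160, nat_lit 268, nat_lit 0, nat_lit 320, ⟨nat_lit 0, nat_lit 0, nat_lit 1000, nat_lit 5, nat_lit 150, nat_lit 1000, nat_lit 138, nat_lit 1000, nat_lit 126379, nat_lit 302, nat_lit 2161, nat_lit 205, nat_lit 51055513, nat_lit 0, nat_lit 0, nat_lit 3813280, false, false⟩,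
 nat_lit 0, nat_lit 0, nat_lit 0, nat_lit 8482, nat_lit 4397, nat_lit 0, nat_lit 0, nat_lit 0, nat_lit 0, nat_lit 0, nat_lit 0, nat_lit 0, nat_lit 0, nat_lit 0, nat_lit 87, nat_lit 400000, nat_lit 0, nat_lit 0, [(nat_lit 9, [(nat_lit 5, nat_lit 1000)])],
 ⟨p031_k10, nat_lit 0, nat_lit 0, nat_lit 154, nat_lit 0, nat_lit 0, [nat_lit 2918400000, nat_lit 1608666667, nat_lit 9200000], [], [nat_lit 14893659384, nat_lit 15943331658, nat_lit 16297713510, nat_lit 17041564852, nat_lit 18991042544, nat_lit 20039806526, nat_lit 19859368079, nat_lit 20912615353], nat_lit 0, nat_lit 0, nat_lit 0, nat_lit 0, nat_lit 0, nat_lit 0, [], [nat_lit 11, nat_lit 40, nat_lit 20, nat_lit 80, nat_lit 1, nat_lit 428, nat_lit 200, nat_lit 12]⟩, C1.Rw.none,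
 ⟨nat_lit 5477, nat_lit 5917, ⟨.ofNat (nat_lit 123037), .ofNat (nat_lit 578514), .ofNat (nat_lit 165716), .ofNat (nat_lit 621176), .ofNat (nat_lit 140320), .ofNat (nat_lit 574913), .ofNat (nat_lit 183034), .ofNat (nat_lit 617611)⟩, ⟨.ofNat (nat_lit 229411), .ofNat (nat_lit 441452), .ofNat (nat_lit 250751), .ofNat (nat_lit 462791), .ofNat (nat_lit 232852), .ofNat (nat_lit 435171), .ofNat (nat_lit 254209), .ofNat (nat_lit 456528)⟩⟩, [⟨nat_lit 0, nat_lit 100, nat_lit 94, nat_lit 59, nat_lit 40517841⟩, ⟨nat_lit 4, nat_lit 100, nat_lit 96, nat_lit 54, nat_lit 288812387⟩]⟩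
noncomputable def p031_l143 : Lf2 := ⟨nat_lit 0, nat_lit 10, [nat_lit 0, nat_lit 5, nat_lit 5, nat_lit 20], false, nat_lit 0, nat_lit 288, nat_lit 0, nat_lit 320, ⟨nat_lit 1000, nat_lit 0, nat_lit 0, nat_lit 0, nat_lit 0, nat_lit 0, nat_lit 0, nat_lit 0, nat_lit 0, nat_lit 0, nat_lit 0, nat_lit 0, nat_lit 0, nat_lit 0, nat_lit 0, nat_lit 0, false, false⟩,
 nat_lit 0, nat_lit 0, nat_lit 25304, nat_lit 0, nat_lit 7766, nat_lit 10844, nat_lit 1045, nat_lit 0, nat_lit 0, nat_lit 783, nat_lit 0, nat_lit 0, nat_lit 0, nat_lit 0, nat_lit 0, nat_lit 0, nat_lit 0, nat_lit 0, [],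
 ⟨p031_k33, nat_lit 0, nat_lit 0, nat_lit 251, nat_lit 0, nat_lit 0, [nat_lit 4688000000, nat_lit 7968000001, nat_lit 11872000000], [], [nat_lit 27708264676, nat_lit 29993984748, nat_lit 39241369676, nat_lit 40343889900, nat_lit 25774755299, nat_lit 27104998616, nat_lit 33981031929, nat_lit 34843663085], nat_lit 0, nat_lit 0, nat_lit 0, nat_lit 0, nat_lit 0, nat_lit 0, [], [nat_lit 21, nat_lit 40, nat_lit 20, nat_lit 80, nat_lit 14, nat_lit 483, nat_lit 250, nat_lit 12]⟩, ⟨p031_k39, nat_lit 0, nat_lit 0, nat_lit 343, nat_lit 0, nat_lit 128739, [nat_lit 6250000000, nat_lit 9842000000, nat_lit 11872000000], [], [nat_lit 36882721472, nat_lit 37597248928, nat_lit 45999514256, nat_lit 46491758784, nat_lit 33333255424, nat_lit 30212259552, nat_lit 37259514256, nat_lit 37751758784], nat_lit 1271250, nat_lit 1271250, nat_lit 1271250, nat_lit 1271250, nat_lit 0, nat_lit 2260000, [nat_lit 1412500, nat_lit 1271250, nat_lit 1271250],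 [nat_lit 46, nat_lit 40, nat_lit 20, nat_lit 80, nat_lit 41, nat_lit 483, nat_lit 250, nat_lit 12]⟩,
 zbF0, [⟨nat_lit 16, nat_lit 98, nat_lit 100, nat_lit 54, nat_lit 155408549⟩, ⟨nat_lit 7, nat_lit 90, nat_lit 100, nat_lit 53, nat_lit 92342546⟩]⟩
noncomputable def p031_l144 : Lf2 := ⟨nat_lit 1, nat_lit 10, [nat_lit 0, nat_lit 5, nat_lit 5, nat_lit 20], false, nat_lit 0, nat_lit 288, nat_lit 0, nat_lit 320, zbN0,
 nat_lit 0, nat_lit 0, nat_lit 0, nat_lit 0, nat_lit 0, nat_lit 0, nat_lit 0, nat_lit 0, nat_lit 0, nat_lit 0, nat_lit 0, nat_lit 0, nat_lit 0, nat_lit 0, nat_lit 0, nat_lit 0, nat_lit 0, nat_lit 0, [],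
 C1.Rw.none, C1.Rw.none,
 zbF0, []⟩
noncomputable def p031_l145 : Lf2 := ⟨nat_lit 0, nat_lit 10, [nat_lit 0, nat_lit 5, nat_lit 5, nat_lit 20], false, nat_lit 0, nat_lit 268, nat_lit 0, nat_lit 320, ⟨nat_lit 109, nat_lit 891, nat_lit 0, nat_lit 5, nat_lit 212, nat_lit 891, nat_lit 90, nat_lit 0, nat_lit 0, nat_lit 0, nat_lit 0, nat_lit 0, nat_lit 0, nat_lit 0, nat_lit 0, nat_lit 5000000, false, true⟩,
 nat_lit 0, nat_lit 0, nat_lit 0, nat_lit 4676, nat_lit 5289, nat_lit 1317, nat_lit 0, nat_lit 0, nat_lit 0, nat_lit 0, nat_lit 0, nat_lit 0, nat_lit 0, nat_lit 0, nat_lit 0, nat_lit 597000, nat_lit 0, nat_lit 0, [(nat_lit 9, [(nat_lit 1, nat_lit 490), (nat_lit 2, nat_lit 401)])],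
 ⟨p031_k10, nat_lit 0, nat_lit 0, nat_lit 297, nat_lit 0, nat_lit 0, [nat_lit 2903374934, nat_lit 3205045867, nat_lit 2655876533], [], [nat_lit 27315963824, nat_lit 28300201010, nat_lit 33255906098, nat_lit 33858194024, nat_lit 27104810469, nat_lit 27760852907, nat_lit 30427108879, nat_lit 30858153925], nat_lit 0, nat_lit 0, nat_lit 0, nat_lit 0, nat_lit 0, nat_lit 0, [], [nat_lit 11, nat_lit 40, nat_lit 20, nat_lit 80, nat_lit 1, nat_lit 483, nat_lit 250, nat_lit 14]⟩, ⟨p031_k6, nat_lit 0, nat_lit 0, nat_lit 365, nat_lit 0, nat_lit 0, [nat_lit 681250000, nat_lit 868512000, nat_lit 1294048000], [], [nat_lit 5608955801, nat_lit 5750996996, nat_lit 5582174036, nat_lit 5558997512, nat_lit 4871424673, nat_lit 4899273169, nat_lit 4288126036, nat_lit 4264949512], nat_lit 0, nat_lit 0, nat_lit 0, nat_lit 0, nat_lit 0, nat_lit 0, [], [nat_lit 53, nat_lit 40, nat_lit 20, nat_lit 80, nat_lit 14, nat_lit 483, nat_lit 250, nat_lit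 13]⟩,
 ⟨nat_lit 5477, nat_lit 5917, ⟨.ofNat (nat_lit 123037), .ofNat (nat_lit 892572), .ofNat (nat_lit 165716), .ofNat (nat_lit 935234), .ofNat (nat_lit 140320), .ofNat (nat_lit 874569), .ofNat (nat_lit 183034), .ofNat (nat_lit 917267)⟩, ⟨.negSucc (nat_lit 84722), .ofNat (nat_lit 441452), .negSucc (nat_lit 63383), .ofNat (nat_lit 462791), .negSucc (nat_lit 66879), .ofNat (nat_lit 435171), .negSucc (nat_lit 45522), .ofNat (nat_lit 456528)⟩⟩, [⟨nat_lit 16, nat_lit 96, nat_lit 100, nat_lit 54, nat_lit 27368172⟩]⟩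
noncomputable def p031_l146 : Lf2 := ⟨nat_lit 0, nat_lit 10, [nat_lit 0, nat_lit 5, nat_lit 5, nat_lit 20], true, nat_lit 0, nat_lit 288, nat_lit 0, nat_lit 320, ⟨nat_lit 0, nat_lit 1000, nat_lit 0, nat_lit 5, nat_lit 147, nat_lit 1000, nat_lit 98, nat_lit 0, nat_lit 0, nat_lit 0, nat_lit 0, nat_lit 0, nat_lit 0, nat_lit 0, nat_lit 0, nat_lit 5000000, false, false⟩,
 nat_lit 0, nat_lit 0, nat_lit 0, nat_lit 8561, nat_lit 6087, nat_lit 0, nat_lit 0, nat_lit 0, nat_lit 0, nat_lit 0, nat_lit 0, nat_lit 0, nat_lit 0, nat_lit 0, nat_lit 0, nat_lit 1000000, nat_lit 0, nat_lit 0, [(nat_lit 6, [(nat_lit 2, nat_lit 1000)]), (nat_lit 9, [(nat_lit 2, nat_lit 1000)])],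
 ⟨p031_k36, nat_lit 0, nat_lit 0, nat_lit 361, nat_lit 0, nat_lit 0, [nat_lit 4196720001, nat_lit 351279999], [], [nat_lit 27201531333, nat_lit 28775948834, nat_lit 24243582607, nat_lit 25348516165, nat_lit 25566243446, nat_lit 26833308578, nat_lit 23547128361, nat_lit 24845012023], nat_lit 0, nat_lit 0, nat_lit 0, nat_lit 0, nat_lit 0, nat_lit 0, [], [nat_lit 116, nat_lit 40, nat_lit 20, nat_lit 80, nat_lit 65, nat_lit 456, nat_lit 225, nat_lit 12]⟩, C1.Rw.none,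
 ⟨nat_lit 5477, nat_lit 6325, ⟨.ofNat (nat_lit 96904), .ofNat (nat_lit 582178), .ofNat (nat_lit 139640), .ofNat (nat_lit 624852), .ofNat (nat_lit 132827), .ofNat (nat_lit 574846), .ofNat (nat_lit 175541), .ofNat (nat_lit 617499)⟩, ⟨.negSucc (nat_lit 103633), .ofNat (nat_lit 488669), .negSucc (nat_lit 82265), .ofNat (nat_lit 510037), .negSucc (nat_lit 66879), .ofNat (nat_lit 472638), .negSucc (nat_lit 45522), .ofNat (nat_lit 493995)⟩⟩, [⟨nat_lit 0, nat_lit 100, nat_lit 94, nat_lit 59, nat_lit 24562907⟩, ⟨nat_lit 4, nat_lit 100, nat_lit 98, nat_lit 54, nat_lit 52170584⟩]⟩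
noncomputable def p031_l147 : Lf2 := ⟨nat_lit 0, nat_lit 10, [nat_lit 0, nat_lit 5, nat_lit 5, nat_lit 20], false, nat_lit 0, nat_lit 288, nat_lit 0, nat_lit 320, ⟨nat_lit 666, nat_lit 334, nat_lit 0, nat_lit 6, nat_lit 303, nat_lit 334, nat_lit 98, nat_lit 0, nat_lit 0, nat_lit 0, nat_lit 0, nat_lit 0, nat_lit 0, nat_lit 0, nat_lit 0, nat_lit 5000000, true, true⟩,
 nat_lit 0, nat_lit 0, nat_lit 15445, nat_lit 0, nat_lit 7193, nat_lit 6619, nat_lit 675, nat_lit 0, nat_lit 0, nat_lit 521, nat_lit 0, nat_lit 0, nat_lit 0, nat_lit 0, nat_lit 0, nat_lit 83500, nat_lit 0, nat_lit 0, [(nat_lit 6, [(nat_lit 0, nat_lit 334)]), (nat_lit 9, [(nat_lit 0, nat_lit 334)])],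
 ⟨p031_k33, nat_lit 0, nat_lit 0, nat_lit 251, nat_lit 0, nat_lit 0, [nat_lit 4166960001, nat_lit 6489493334, nat_lit 9170073600], [], [nat_lit 27326129848, nat_lit 29529514404, nat_lit 38367887348, nat_lit 39461661300, nat_lit 25980732544, nat_lit 27284649490, nat_lit 32955599857, nat_lit 33594553988], nat_lit 0, nat_lit 0, nat_lit 0, nat_lit 0, nat_lit 0, nat_lit 0, [], [nat_lit 21, nat_lit 40, nat_lit 20, nat_lit 80, nat_lit 14, nat_lit 483, nat_lit 250, nat_lit 12]⟩, ⟨p031_k39, nat_lit 0, nat_lit 0, nat_lit 343, nat_lit 0, nat_lit 128739, [nat_lit 4162500000, nat_lit 6554772000, nat_lit 7906752000], [], [nat_lit 24977894768, nat_lit 25464732072, nat_lit 30336508392, nat_lit 30296530824, nat_lit 22631350816, nat_lit 21291272716, nat_lit 24632524396, nat_lit 24473778824], nat_lit 1271250, nat_lit 1271250, nat_lit 1271250, nat_lit 1271250, nat_lit 0, nat_lit 2260000, [nat_lit 1412500, nat_lit 1271250, nat_lit 1271250],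 [nat_lit 46, nat_lit 40, nat_lit 20, nat_lit 80, nat_lit 41, nat_lit 483, nat_lit 250, nat_lit 12]⟩,
 ⟨nat_lit 5477, nat_lit 6325, ⟨.ofNat (nat_lit 582178), .ofNat (nat_lit 910890), .ofNat (nat_lit 624852), .ofNat (nat_lit 953563), .ofNat (nat_lit 574846), .ofNat (nat_lit 874234), .ofNat (nat_lit 617499), .ofNat (nat_lit 916886)⟩, ⟨.negSucc (nat_lit 103633), .ofNat (nat_lit 488669), .negSucc (nat_lit 82265), .ofNat (nat_lit 510037), .negSucc (nat_lit 66879), .ofNat (nat_lit 472638), .negSucc (nat_lit 45522), .ofNat (nat_lit 493995)⟩⟩, [⟨nat_lit 16, nat_lit 98, nat_lit 100, nat_lit 54, nat_lit 68719815⟩, ⟨nat_lit 7, nat_lit 90, nat_lit 100, nat_lit 53, nat_lit 61458962⟩]⟩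
noncomputable def b_VL_600_500_5_33 : St := ⟨true, nat_lit 0, nat_lit 2, nat_lit 0, nat_lit 40, nat_lit 240, nat_lit 280, nat_lit 200, nat_lit 240, nat_lit 4, nat_lit 400, nat_lit 20, nat_lit 40, nat_lit 0, nat_lit 288, nat_lit 0, nat_lit 320, nat_lit 40, nat_lit 48, nat_lit 0, nat_lit 0, nat_lit 0, nat_lit 0⟩
theorem d_VL_600_500_5_33 (h : EB TB.env) : Dead b_VL_600_500_5_33 := chkB_sound0 h (T :=
(.gv
(.st (nat_lit 1)
(.spl (nat_lit 2) (nat_lit 240)
(.spl (nat_lit 0) (nat_lit 260)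
(.leaf p031_l134)
(.trZ (nat_lit 0) (nat_lit 100) (nat_lit 95) (nat_lit 30) (nat_lit 8) (.trX (nat_lit 16) (nat_lit 100) (nat_lit 99) (nat_lit 63) (nat_lit 268) (.spl (nat_lit 4) (nat_lit 160)
(.spl (nat_lit 0) (nat_lit 270)
(.leaf p031_l135)
(.trZ (nat_lit 0) (nat_lit 100) (nat_lit 94) (nat_lit 35) (nat_lit 12) (.leaf p031_l136)))
(.leaf p031_l137)))))
(.leaf p031_l138))
(.spl (nat_lit 2) (nat_lit 240)
(.spl (nat_lit 0) (nat_lit 260)
(.leaf p031_l139)
(.trZ (nat_lit 0) (nat_lit 100) (nat_lit 95) (nat_lit 30) (nat_lit 8) (.trX (nat_lit 16) (nat_lit 100) (nat_lit 99) (nat_lit 63) (nat_lit 268) (.spl (nat_lit 4) (nat_lit 160)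
(.spl (nat_lit 0) (nat_lit 270)
(.leaf p031_l140)
(.trZ (nat_lit 0) (nat_lit 100) (nat_lit 94) (nat_lit 35) (nat_lit 12) (.leaf p031_l141)))
(.leaf p031_l142)))))
(.leaf p031_l143)))
(.st (nat_lit 1)
(.spl (nat_lit 0) (nat_lit 260)
(.leaf p031_l144)
(.trZ (nat_lit 0) (nat_lit 100) (nat_lit 95) (nat_lit 30) (nat_lit 8) (.trX (nat_lit 16) (nat_lit 100) (nat_lit 99) (nat_lit 63) (nat_lit 268) (.leaf p031_l145))))
(.spl (nat_lit 2) (nat_lit 240)
(.leaf p031_l146)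
(.leaf p031_l147))))) (by decide +kernel)

end B2
end Pool.Agent.Lib.MP_6947cd_al
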