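import Pool.Agent.Lib.MP_6947cd_al.ZB.Pre

/-!
Problem MP_6947cd_al (Chollet).  Case B, second entry in [2/5, 17/20]: certificates of the tree, part P032 (generated).
-/

set_option autoImplicit false
set_option linter.all false

namespace Pool.Agent.Lib.MP_6947cd_al
namespace B2

open Ent Fr B1 PkA

noncomputable def p032_k0 : C1.Kn := ⟨[nat_lit 80, nat_lit 100, nat_lit 140], [nat_lit 0, nat_lit 399, nat_lit 1395], [(nat_lit 0, nat_lit 0, nat_lit 0), (nat_lit 1000, nat_lit 938, nat_lit 310), (nat_lit 1000, nat_lit 938, nat_lit 389)], (nat_lit 98, nat_lit 100, nat_lit 63)⟩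
noncomputable def p032_k1 : C1.Kn := ⟨[nat_lit 80, nat_lit 100, nat_lit 140], [nat_lit 0, nat_lit 265, nat_lit 1269], [(nat_lit 0, nat_lit 0, nat_lit 0), (nat_lit 1000, nat_lit 959, nat_lit 206), (nat_lit 1000, nat_lit 958, nat_lit 392)], (nat_lit 100, nat_lit 99, nat_lit 63)⟩
noncomputable def p032_k2 : C1.Kn := ⟨[nat_lit 80, nat_lit 100, nat_lit 160], [nat_lit 0, nat_lit 0, nat_lit 1533], [(nat_lit 0, nat_lit 0, nat_lit 0), (nat_lit 0, nat_lit 0, nat_lit 0), (nat_lit 1000, nat_lit 1000, nat_lit 399)], (nat_lit 100, nat_lit 92, nat_lit 61)⟩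
noncomputable def p032_k3 : C1.Kn := ⟨[nat_lit 100, nat_lit 120, nat_lit 160], [nat_lit 0, nat_lit 0, nat_lit 1063], [(nat_lit 0, nat_lit 0, nat_lit 0), (nat_lit 0, nat_lit 0, nat_lit 0), (nat_lit 924, nat_lit 1000, nat_lit 383)], (nat_lit 100, nat_lit 80, nat_lit 60)⟩
noncomputable def p032_k4 : C1.Kn := ⟨[nat_lit 80, nat_lit 120, nat_lit 160], [nat_lit 0, nat_lit 0, nat_lit 2132], [(nat_lit 0, nat_lit 0, nat_lit 0), (nat_lit 0, nat_lit 0, nat_lit 0), (nat_lit 858, nat_lit 1000, nat_lit 713)], (nat_lit 100, nat_lit 92, nat_lit 61)⟩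
noncomputable def p032_k5 : C1.Kn := ⟨[nat_lit 100, nat_lit 140, nat_lit 160], [nat_lit 0, nat_lit 0, nat_lit 1280], [(nat_lit 0, nat_lit 0, nat_lit 0), (nat_lit 0, nat_lit 0, nat_lit 0), (nat_lit 800, nat_lit 1000, nat_lit 600)], (nat_lit 100, nat_lit 80, nat_lit 60)⟩
noncomputable def p032_k6 : C1.Kn := ⟨[nat_lit 100, nat_lit 120, nat_lit 160], [nat_lit 0, nat_lit 383, nat_lit 1421], [(nat_lit 0, nat_lit 0, nat_lit 0), (nat_lit 1000, nat_lit 1000, nat_lit 299), (nat_lit 979, nat_lit 1000, nat_lit 397)], (nat_lit 100, nat_lit 89, nat_lit 61)⟩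
noncomputable def p032_k7 : C1.Kn := ⟨[nat_lit 100, nat_lit 120, nat_lit 160], [nat_lit 0, nat_lit 254, nat_lit 1301], [(nat_lit 0, nat_lit 0, nat_lit 0), (nat_lit 1000, nat_lit 1000, nat_lit 198), (nat_lit 960, nat_lit 1000, nat_lit 392)], (nat_lit 100, nat_lit 86, nat_lit 60)⟩
noncomputable def p032_k8 : C1.Kn := ⟨[nat_lit 80, nat_lit 140], [nat_lit 0, nat_lit 0], [(nat_lit 0, nat_lit 0, nat_lit 0), (nat_lit 0, nat_lit 0, nat_lit 0)], (nat_lit 100, nat_lit 95, nat_lit 55)⟩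
noncomputable def p032_k9 : C1.Kn := ⟨[nat_lit 80, nat_lit 140], [nat_lit 0, nat_lit 395], [(nat_lit 0, nat_lit 0, nat_lit 0), (nat_lit 1000, nat_lit 979, nat_lit 103)], (nat_lit 100, nat_lit 95, nat_lit 62)⟩
noncomputable def p032_k10 : C1.Kn := ⟨[nat_lit 80, nat_lit 140], [nat_lit 0, nat_lit 792], [(nat_lit 0, nat_lit 0, nat_lit 0), (nat_lit 1000, nat_lit 959, nat_lit 206)], (nat_lit 100, nat_lit 99, nat_lit 63)⟩
noncomputable def p032_k11 : C1.Kn := ⟨[nat_lit 80, nat_lit 100, nat_lit 120], [nat_lit 0, nat_lit 0, nat_lit 511], [(nat_lit 0, nat_lit 0, nat_lit 0), (nat_lit 0, nat_lit 0, nat_lit 0), (nat_lit 1000, nat_lit 997, nat_lit 383)], (nat_lit 98, nat_lit 100, nat_lit 28)⟩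
noncomputable def p032_k12 : C1.Kn := ⟨[nat_lit 80, nat_lit 120], [nat_lit 0, nat_lit 0], [(nat_lit 0, nat_lit 0, nat_lit 0), (nat_lit 0, nat_lit 0, nat_lit 0)], (nat_lit 100, nat_lit 100, nat_lit 40)⟩
noncomputable def p032_k13 : C1.Kn := ⟨[nat_lit 80, nat_lit 100, nat_lit 140], [nat_lit 0, nat_lit 0, nat_lit 1022], [(nat_lit 0, nat_lit 0, nat_lit 0), (nat_lit 0, nat_lit 0, nat_lit 0), (nat_lit 1000, nat_lit 1000, nat_lit 399)], (nat_lit 100, nat_lit 99, nat_lit 44)⟩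
noncomputable def p032_k14 : C1.Kn := ⟨[nat_lit 80, nat_lit 100, nat_lit 140], [nat_lit 0, nat_lit 65, nat_lit 1086], [(nat_lit 0, nat_lit 0, nat_lit 0), (nat_lit 1000, nat_lit 990, nat_lit 51), (nat_lit 1000, nat_lit 990, nat_lit 399)], (nat_lit 100, nat_lit 100, nat_lit 45)⟩
noncomputable def p032_k15 : C1.Kn := ⟨[nat_lit 80, nat_lit 100, nat_lit 140], [nat_lit 0, nat_lit 0, nat_lit 1022], [(nat_lit 0, nat_lit 0, nat_lit 0), (nat_lit 0, nat_lit 0, nat_lit 0), (nat_lit 1000, nat_lit 1000, nat_lit 399)], (nat_lit 100, nat_lit 95, nat_lit 55)⟩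
noncomputable def p032_k16 : C1.Kn := ⟨[nat_lit 80, nat_lit 100, nat_lit 140], [nat_lit 0, nat_lit 65, nat_lit 1086], [(nat_lit 0, nat_lit 0, nat_lit 0), (nat_lit 1000, nat_lit 990, nat_lit 51), (nat_lit 1000, nat_lit 990, nat_lit 399)], (nat_lit 100, nat_lit 97, nat_lit 56)⟩
noncomputable def p032_k17 : C1.Kn := ⟨[nat_lit 80, nat_lit 140], [nat_lit 0, nat_lit 592], [(nat_lit 0, nat_lit 0, nat_lit 0), (nat_lit 1000, nat_lit 969, nat_lit 154)], (nat_lit 100, nat_lit 97, nat_lit 62)⟩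
noncomputable def p032_k18 : C1.Kn := ⟨[nat_lit 80, nat_lit 140], [nat_lit 0, nat_lit 196], [(nat_lit 0, nat_lit 0, nat_lit 0), (nat_lit 1000, nat_lit 990, nat_lit 51)], (nat_lit 100, nat_lit 97, nat_lit 56)⟩
noncomputable def p032_k19 : C1.Kn := ⟨[nat_lit 80, nat_lit 120, nat_lit 140], [nat_lit 0, nat_lit 264, nat_lit 1360], [(nat_lit 0, nat_lit 0, nat_lit 0), (nat_lit 1000, nat_lit 979, nat_lit 103), (nat_lit 951, nat_lit 1000, nat_lit 628)], (nat_lit 100, nat_lit 95, nat_lit 62)⟩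
noncomputable def p032_k20 : C1.Kn := ⟨[nat_lit 80, nat_lit 120, nat_lit 140], [nat_lit 0, nat_lit 528, nat_lit 1572], [(nat_lit 0, nat_lit 0, nat_lit 0), (nat_lit 1000, nat_lit 959, nat_lit 206), (nat_lit 966, nat_lit 1000, nat_lit 679)], (nat_lit 100, nat_lit 99, nat_lit 63)⟩
noncomputable def p032_k21 : C1.Kn := ⟨[nat_lit 80, nat_lit 160], [nat_lit 0, nat_lit 0], [(nat_lit 0, nat_lit 0, nat_lit 0), (nat_lit 0, nat_lit 0, nat_lit 0)], (nat_lit 100, nat_lit 92, nat_lit 61)⟩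
noncomputable def p032_k22 : C1.Kn := ⟨[nat_lit 80, nat_lit 100, nat_lit 120], [nat_lit 0, nat_lit 65, nat_lit 576], [(nat_lit 0, nat_lit 0, nat_lit 0), (nat_lit 1000, nat_lit 990, nat_lit 51), (nat_lit 1000, nat_lit 990, nat_lit 399)], (nat_lit 98, nat_lit 100, nat_lit 28)⟩
noncomputable def p032_k23 : C1.Kn := ⟨[nat_lit 80, nat_lit 100, nat_lit 120], [nat_lit 0, nat_lit 0, nat_lit 511], [(nat_lit 0, nat_lit 0, nat_lit 0), (nat_lit 0, nat_lit 0, nat_lit 0), (nat_lit 1000, nat_lit 997, nat_lit 383)], (nat_lit 100, nat_lit 100, nat_lit 40)⟩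
noncomputable def p032_k24 : C1.Kn := ⟨[nat_lit 80, nat_lit 100, nat_lit 120], [nat_lit 0, nat_lit 132, nat_lit 640], [(nat_lit 0, nat_lit 0, nat_lit 0), (nat_lit 1000, nat_lit 979, nat_lit 103), (nat_lit 1000, nat_lit 979, nat_lit 397)], (nat_lit 99, nat_lit 100, nat_lit 44)⟩
noncomputable def p032_k25 : C1.Kn := ⟨[nat_lit 80, nat_lit 100, nat_lit 120], [nat_lit 0, nat_lit 132, nat_lit 640], [(nat_lit 0, nat_lit 0, nat_lit 0), (nat_lit 1000, nat_lit 979, nat_lit 103), (nat_lit 1000, nat_lit 979, nat_lit 397)], (nat_lit 97, nat_lit 100, nat_lit 28)⟩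
noncomputable def p032_k26 : C1.Kn := ⟨[nat_lit 80, nat_lit 100], [nat_lit 0, nat_lit 132], [(nat_lit 0, nat_lit 0, nat_lit 0), (nat_lit 1000, nat_lit 979, nat_lit 103)], (nat_lit 97, nat_lit 100, nat_lit 20)⟩
noncomputable def p032_k27 : C1.Kn := ⟨[nat_lit 80, nat_lit 100], [nat_lit 0, nat_lit 0], [(nat_lit 0, nat_lit 0, nat_lit 0), (nat_lit 0, nat_lit 0, nat_lit 0)], (nat_lit 98, nat_lit 100, nat_lit 20)⟩
noncomputable def p032_k28 : C1.Kn := ⟨[nat_lit 80, nat_lit 100, nat_lit 120], [nat_lit 0, nat_lit 198, nat_lit 704], [(nat_lit 0, nat_lit 0, nat_lit 0), (nat_lit 1000, nat_lit 969, nat_lit 154), (nat_lit 1000, nat_lit 969, nat_lit 395)], (nat_lit 96, nat_lit 100, nat_lit 28)⟩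
noncomputable def p032_k29 : C1.Kn := ⟨[nat_lit 80, nat_lit 100, nat_lit 140], [nat_lit 0, nat_lit 132, nat_lit 1148], [(nat_lit 0, nat_lit 0, nat_lit 0), (nat_lit 1000, nat_lit 979, nat_lit 103), (nat_lit 1000, nat_lit 979, nat_lit 397)], (nat_lit 100, nat_lit 95, nat_lit 62)⟩
noncomputable def p032_k30 : C1.Kn := ⟨[nat_lit 80, nat_lit 100, nat_lit 140], [nat_lit 0, nat_lit 171, nat_lit 1184], [(nat_lit 0, nat_lit 0, nat_lit 0), (nat_lit 1000, nat_lit 973, nat_lit 133), (nat_lit 1000, nat_lit 973, nat_lit 395)], (nat_lit 100, nat_lit 96, nat_lit 62)⟩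
noncomputable def p032_k31 : C1.Kn := ⟨[nat_lit 80, nat_lit 100, nat_lit 140], [nat_lit 0, nat_lit 198, nat_lit 1210], [(nat_lit 0, nat_lit 0, nat_lit 0), (nat_lit 1000, nat_lit 969, nat_lit 154), (nat_lit 1000, nat_lit 969, nat_lit 395)], (nat_lit 100, nat_lit 97, nat_lit 62)⟩
noncomputable def p032_k32 : C1.Kn := ⟨[nat_lit 80, nat_lit 100, nat_lit 140], [nat_lit 0, nat_lit 226, nat_lit 1228], [(nat_lit 0, nat_lit 0, nat_lit 0), (nat_lit 1000, nat_lit 965, nat_lit 177), (nat_lit 1000, nat_lit 964, nat_lit 391)], (nat_lit 100, nat_lit 98, nat_lit 63)⟩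
noncomputable def p032_k33 : C1.Kn := ⟨[nat_lit 80, nat_lit 100, nat_lit 140], [nat_lit 0, nat_lit 238, nat_lit 1245], [(nat_lit 0, nat_lit 0, nat_lit 0), (nat_lit 1000, nat_lit 963, nat_lit 185), (nat_lit 1000, nat_lit 963, nat_lit 393)], (nat_lit 100, nat_lit 98, nat_lit 63)⟩
noncomputable def p032_k34 : C1.Kn := ⟨[nat_lit 80, nat_lit 120], [nat_lit 0, nat_lit 264], [(nat_lit 0, nat_lit 0, nat_lit 0), (nat_lit 1000, nat_lit 979, nat_lit 103)], (nat_lit 97, nat_lit 100, nat_lit 28)⟩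
noncomputable def p032_k35 : C1.Kn := ⟨[nat_lit 80, nat_lit 100, nat_lit 120], [nat_lit 0, nat_lit 198, nat_lit 704], [(nat_lit 0, nat_lit 0, nat_lit 0), (nat_lit 1000, nat_lit 969, nat_lit 154), (nat_lit 1000, nat_lit 969, nat_lit 395)], (nat_lit 98, nat_lit 100, nat_lit 44)⟩
noncomputable def p032_k36 : C1.Kn := ⟨[nat_lit 80, nat_lit 120, nat_lit 140], [nat_lit 0, nat_lit 0, nat_lit 1164], [(nat_lit 0, nat_lit 0, nat_lit 0), (nat_lit 0, nat_lit 0, nat_lit 0), (nat_lit 941, nat_lit 1000, nat_lit 576)], (nat_lit 100, nat_lit 99, nat_lit 44)⟩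
noncomputable def p032_k37 : C1.Kn := ⟨[nat_lit 80, nat_lit 100], [nat_lit 0, nat_lit 65], [(nat_lit 0, nat_lit 0, nat_lit 0), (nat_lit 1000, nat_lit 990, nat_lit 51)], (nat_lit 97, nat_lit 100, nat_lit 20)⟩
noncomputable def p032_k38 : C1.Kn := ⟨[nat_lit 80, nat_lit 100], [nat_lit 0, nat_lit 106], [(nat_lit 0, nat_lit 0, nat_lit 0), (nat_lit 1000, nat_lit 983, nat_lit 83)], (nat_lit 97, nat_lit 100, nat_lit 20)⟩
noncomputable def p032_k39 : C1.Kn := ⟨[nat_lit 80, nat_lit 120], [nat_lit 0, nat_lit 0], [(nat_lit 0, nat_lit 0, nat_lit 0), (nat_lit 0, nat_lit 0, nat_lit 0)], (nat_lit 98, nat_lit 100, nat_lit 28)⟩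
noncomputable def p032_k40 : C1.Kn := ⟨[nat_lit 80, nat_lit 120], [nat_lit 0, nat_lit 130], [(nat_lit 0, nat_lit 0, nat_lit 0), (nat_lit 1000, nat_lit 990, nat_lit 51)], (nat_lit 98, nat_lit 100, nat_lit 28)⟩
noncomputable def p032_k41 : C1.Kn := ⟨[nat_lit 80, nat_lit 120], [nat_lit 0, nat_lit 395], [(nat_lit 0, nat_lit 0, nat_lit 0), (nat_lit 1000, nat_lit 969, nat_lit 154)], (nat_lit 96, nat_lit 100, nat_lit 28)⟩
noncomputable def p032_k42 : C1.Kn := ⟨[nat_lit 80, nat_lit 120], [nat_lit 0, nat_lit 264], [(nat_lit 0, nat_lit 0, nat_lit 0), (nat_lit 1000, nat_lit 979, nat_lit 103)], (nat_lit 99, nat_lit 100, nat_lit 44)⟩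
noncomputable def p032_l0 : Lf2 := ⟨nat_lit 1, nat_lit 10, [nat_lit 0, nat_lit 5, nat_lit 5, nat_lit 20], false, nat_lit 0, nat_lit 160, nat_lit 0, nat_lit 320, zbN0,
 nat_lit 0, nat_lit 0, nat_lit 0, nat_lit 0, nat_lit 0, nat_lit 0, nat_lit 0, nat_lit 0, nat_lit 0, nat_lit 0, nat_lit 0, nat_lit 0, nat_lit 0, nat_lit 0, nat_lit 0, nat_lit 0, nat_lit 0, nat_lit 0, [],
 C1.Rw.none, C1.Rw.none,
 zbF0, []⟩
noncomputable def p032_l1 : Lf2 := ⟨nat_lit 1, nat_lit 10, [nat_lit 0, nat_lit 5, nat_lit 5, nat_lit 20], false, nat_lit 0, nat_lit 80, nat_lit 0, nat_lit 320, zbN0,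
 nat_lit 0, nat_lit 0, nat_lit 0, nat_lit 0, nat_lit 0, nat_lit 0, nat_lit 0, nat_lit 0, nat_lit 0, nat_lit 0, nat_lit 0, nat_lit 0, nat_lit 0, nat_lit 0, nat_lit 0, nat_lit 0, nat_lit 0, nat_lit 0, [],
 C1.Rw.none, C1.Rw.none,
 zbF0, []⟩
noncomputable def p032_l2 : Lf2 := ⟨nat_lit 0, nat_lit 10, [nat_lit 0, nat_lit 5, nat_lit 5, nat_lit 20], true, nat_lit 0, nat_lit 80, nat_lit 0, nat_lit 320, ⟨nat_lit 0, nat_lit 0, nat_lit 1000, nat_lit 5, nat_lit 107, nat_lit 0, nat_lit 18, nat_lit 113, nat_lit 417, nat_lit 220, nat_lit 106667, nat_lit 295, nat_lit 62531169, nat_lit 0, nat_lit 0, nat_lit 1225071, false, false⟩,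
 nat_lit 0, nat_lit 6634, nat_lit 0, nat_lit 0, nat_lit 4040, nat_lit 0, nat_lit 0, nat_lit 0, nat_lit 0, nat_lit 0, nat_lit 0, nat_lit 0, nat_lit 0, nat_lit 0, nat_lit 138, nat_lit 694000, nat_lit 0, nat_lit 0, [(nat_lit 9, [(nat_lit 5, nat_lit 510), (nat_lit 6, nat_lit 490)])],
 ⟨p032_k0, nat_lit 0, nat_lit 0, nat_lit 316, nat_lit 0, nat_lit 71866, [nat_lit 3524288001, nat_lit 2482973334, nat_lit 83946666], [], [nat_lit 15611397642, nat_lit 16300264737, nat_lit 14624326736, nat_lit 15160885816, nat_lit 13929311045, nat_lit 14418857817, nat_lit 16496778669, nat_lit 15531848909], nat_lit 1271250, nat_lit 1271250, nat_lit 65850, nat_lit 780000, nat_lit 0, nat_lit 490000, [nat_lit 1100000, nat_lit 1442500, nat_lit 1271250], [nat_lit 11, nat_lit 40, nat_lit 20, nat_lit 80, nat_lit 1, nat_lit 345, nat_lit 125, nat_lit 10]⟩, C1.Rw.none,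
 ⟨nat_lit 5477, nat_lit 5701, ⟨.ofNat (nat_lit 139419), .ofNat (nat_lit 346560), .ofNat (nat_lit 182103), .ofNat (nat_lit 389244), .ofNat (nat_lit 147813), .ofNat (nat_lit 350132), .ofNat (nat_lit 190527), .ofNat (nat_lit 392847)⟩, ⟨.negSucc (nat_lit 75673), .ofNat (nat_lit 77764), .negSucc (nat_lit 54331), .ofNat (nat_lit 99106), .negSucc (nat_lit 66879), .ofNat (nat_lit 82986), .negSucc (nat_lit 45522), .ofNat (nat_lit 104343)⟩⟩, [⟨nat_lit 0, nat_lit 100, nat_lit 94, nat_lit 59, nat_lit 4062971⟩]⟩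
noncomputable def p032_l3 : Lf2 := ⟨nat_lit 0, nat_lit 10, [nat_lit 0, nat_lit 5, nat_lit 5, nat_lit 20], true, nat_lit 80, nat_lit 160, nat_lit 0, nat_lit 320, ⟨nat_lit 0, nat_lit 0, nat_lit 1000, nat_lit 5, nat_lit 104, nat_lit 1000, nat_lit 66, nat_lit 1000, nat_lit 41667, nat_lit 265, nat_lit 101400, nat_lit 293, nat_lit 60088145, nat_lit 0, nat_lit 0, nat_lit 2093464, false, false⟩,
 nat_lit 0, nat_lit 7996, nat_lit 0, nat_lit 0, nat_lit 4654, nat_lit 0, nat_lit 0, nat_lit 0, nat_lit 0, nat_lit 0, nat_lit 0, nat_lit 0, nat_lit 0, nat_lit 0, nat_lit 124, nat_lit 613600, nat_lit 0, nat_lit 0, [(nat_lit 9, [(nat_lit 5, nat_lit 644), (nat_lit 6, nat_lit 356)])],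
 ⟨p032_k1, nat_lit 0, nat_lit 0, nat_lit 221, nat_lit 0, nat_lit 76563, [nat_lit 3357747200, nat_lit 2242816001, nat_lit 50351999], [], [nat_lit 12994921391, nat_lit 14368445843, nat_lit 11235649723, nat_lit 12292969319, nat_lit 13700387619, nat_lit 14933326003, nat_lit 11993880115, nat_lit 12966261320], nat_lit 1271250, nat_lit 1271250, nat_lit 43600, nat_lit 780000, nat_lit 490000, nat_lit 1100001, [nat_lit 1100000, nat_lit 1442500, nat_lit 1271250], [nat_lit 11, nat_lit 40, nat_lit 20, nat_lit 80, nat_lit 1, nat_lit 373, nat_lit 150, nat_lit 11]⟩, C1.Rw.none,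
 ⟨nat_lit 5477, nat_lit 5917, ⟨.ofNat (nat_lit 123037), .ofNat (nat_lit 342931), .ofNat (nat_lit 165716), .ofNat (nat_lit 385610), .ofNat (nat_lit 140320), .ofNat (nat_lit 350132), .ofNat (nat_lit 183034), .ofNat (nat_lit 392847)⟩, ⟨.ofNat (nat_lit 72344), .ofNat (nat_lit 229411), .ofNat (nat_lit 93684), .ofNat (nat_lit 250751), .ofNat (nat_lit 82986), .ofNat (nat_lit 232852), .ofNat (nat_lit 104343), .ofNat (nat_lit 254209)⟩⟩, [⟨nat_lit 0, nat_lit 100, nat_lit 94, nat_lit 59, nat_lit 199792451⟩]⟩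
noncomputable def p032_l4 : Lf2 := ⟨nat_lit 1, nat_lit 10, [nat_lit 0, nat_lit 5, nat_lit 5, nat_lit 20], false, nat_lit 160, nat_lit 288, nat_lit 0, nat_lit 320, zbN0,
 nat_lit 0, nat_lit 0, nat_lit 0, nat_lit 0, nat_lit 0, nat_lit 0, nat_lit 0, nat_lit 0, nat_lit 0, nat_lit 0, nat_lit 0, nat_lit 0, nat_lit 0, nat_lit 0, nat_lit 0, nat_lit 0, nat_lit 0, nat_lit 0, [],
 C1.Rw.none, C1.Rw.none,
 zbF0, []⟩
noncomputable def p032_l5 : Lf2 := ⟨nat_lit 0, nat_lit 10, [nat_lit 0, nat_lit 5, nat_lit 5, nat_lit 20], true, nat_lit 160, nat_lit 268, nat_lit 0, nat_lit 320, ⟨nat_lit 0, nat_lit 0, nat_lit 1000, nat_lit 5, nat_lit 73, nat_lit 1000, nat_lit 138, nat_lit 1000, nat_lit 126379, nat_lit 302, nat_lit 50417, nat_lit 270, nat_lit 56756312, nat_lit 0, nat_lit 0, nat_lit 2730280, false, false⟩,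
 nat_lit 0, nat_lit 8289, nat_lit 0, nat_lit 4054, nat_lit 4824, nat_lit 0, nat_lit 0, nat_lit 0, nat_lit 0, nat_lit 0, nat_lit 0, nat_lit 0, nat_lit 0, nat_lit 0, nat_lit 87, nat_lit 400000, nat_lit 0, nat_lit 0, [(nat_lit 9, [(nat_lit 5, nat_lit 1000)])],
 ⟨p032_k1, nat_lit 0, nat_lit 0, nat_lit 179, nat_lit 0, nat_lit 42894, [nat_lit 2918400000, nat_lit 1608666667, nat_lit 9200000], [], [nat_lit 14664232720, nat_lit 15918147540, nat_lit 13205381680, nat_lit 14442204928, nat_lit 19025827732, nat_lit 20521261358, nat_lit 17544913191, nat_lit 18602492620], nat_lit 1271250, nat_lit 1271250, nat_lit 43600, nat_lit 230001, nat_lit 1100001, nat_lit 2024750, [nat_lit 1100000, nat_lit 1442500, nat_lit 1271250], [nat_lit 11, nat_lit 40, nat_lit 20, nat_lit 80, nat_lit 1, nat_lit 373, nat_lit 150, nat_lit 11]⟩, C1.Rw.none,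
 ⟨nat_lit 5477, nat_lit 5917, ⟨.ofNat (nat_lit 123037), .ofNat (nat_lit 185864), .ofNat (nat_lit 165716), .ofNat (nat_lit 228543), .ofNat (nat_lit 140320), .ofNat (nat_lit 200266), .ofNat (nat_lit 183034), .ofNat (nat_lit 242980)⟩, ⟨.ofNat (nat_lit 229411), .ofNat (nat_lit 441452), .ofNat (nat_lit 250751), .ofNat (nat_lit 462791), .ofNat (nat_lit 232852), .ofNat (nat_lit 435171), .ofNat (nat_lit 254209), .ofNat (nat_lit 456528)⟩⟩, [⟨nat_lit 0, nat_lit 100, nat_lit 94, nat_lit 59, nat_lit 416763147⟩, ⟨nat_lit 4, nat_lit 100, nat_lit 96, nat_lit 54, nat_lit 309348676⟩]⟩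
noncomputable def p032_l6 : Lf2 := ⟨nat_lit 1, nat_lit 10, [nat_lit 0, nat_lit 5, nat_lit 5, nat_lit 20], false, nat_lit 160, nat_lit 288, nat_lit 0, nat_lit 320, zbN0,
 nat_lit 0, nat_lit 0, nat_lit 0, nat_lit 0, nat_lit 0, nat_lit 0, nat_lit 0, nat_lit 0, nat_lit 0, nat_lit 0, nat_lit 0, nat_lit 0, nat_lit 0, nat_lit 0, nat_lit 0, nat_lit 0, nat_lit 0, nat_lit 0, [],
 C1.Rw.none, C1.Rw.none,
 zbF0, []⟩
noncomputable def p032_l7 : Lf2 := ⟨nat_lit 0, nat_lit 10, [nat_lit 0, nat_lit 5, nat_lit 5, nat_lit 20], true, nat_lit 160, nat_lit 268, nat_lit 0, nat_lit 320, ⟨nat_lit 0, nat_lit 0, nat_lit 1000, nat_lit 5, nat_lit 101, nat_lit 1000, nat_lit 138, nat_lit 1000, nat_lit 126379, nat_lit 302, nat_lit 96267, nat_lit 291, nat_lit 54885804, nat_lit 0, nat_lit 0, nat_lit 3150693, false, false⟩,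
 nat_lit 0, nat_lit 8191, nat_lit 0, nat_lit 513, nat_lit 4767, nat_lit 0, nat_lit 0, nat_lit 0, nat_lit 0, nat_lit 0, nat_lit 0, nat_lit 0, nat_lit 0, nat_lit 0, nat_lit 87, nat_lit 400000, nat_lit 0, nat_lit 0, [(nat_lit 9, [(nat_lit 5, nat_lit 1000)])],
 ⟨p032_k1, nat_lit 0, nat_lit 0, nat_lit 163, nat_lit 0, nat_lit 42894, [nat_lit 2918400000, nat_lit 1608666667, nat_lit 9200000], [], [nat_lit 10645841058, nat_lit 12283460552, nat_lit 10223679506, nat_lit 11800314912, nat_lit 17080127964, nat_lit 18565856394, nat_lit 16185598223, nat_lit 17626444679], nat_lit 1271250, nat_lit 1271250, nat_lit 230001, nat_lit 490000, nat_lit 1100001, nat_lit 2024750, [nat_lit 1100000, nat_lit 1442500, nat_lit 1271250], [nat_lit 11, nat_lit 40, nat_lit 20, nat_lit 80, nat_lit 1, nat_lit 401, nat_lit 175, nat_lit 11]⟩, C1.Rw.none,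
 ⟨nat_lit 5477, nat_lit 5917, ⟨.ofNat (nat_lit 185864), .ofNat (nat_lit 264398), .ofNat (nat_lit 228543), .ofNat (nat_lit 307076), .ofNat (nat_lit 200266), .ofNat (nat_lit 275199), .ofNat (nat_lit 242980), .ofNat (nat_lit 317913)⟩, ⟨.ofNat (nat_lit 229411), .ofNat (nat_lit 441452), .ofNat (nat_lit 250751), .ofNat (nat_lit 462791), .ofNat (nat_lit 232852), .ofNat (nat_lit 435171), .ofNat (nat_lit 254209), .ofNat (nat_lit 456528)⟩⟩, [⟨nat_lit 4, nat_lit 100, nat_lit 96, nat_lit 54, nat_lit 498939189⟩]⟩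
noncomputable def p032_l8 : Lf2 := ⟨nat_lit 0, nat_lit 10, [nat_lit 0, nat_lit 5, nat_lit 5, nat_lit 20], true, nat_lit 160, nat_lit 288, nat_lit 0, nat_lit 320, ⟨nat_lit 0, nat_lit 0, nat_lit 1000, nat_lit 5, nat_lit 130, nat_lit 1000, nat_lit 146, nat_lit 1000, nat_lit 25350, nat_lit 254, nat_lit 156817, nat_lit 312, nat_lit 52028605, nat_lit 0, nat_lit 0, nat_lit 3659306, false, false⟩,
 nat_lit 0, nat_lit 15209, nat_lit 0, nat_lit 0, nat_lit 8051, nat_lit 0, nat_lit 0, nat_lit 0, nat_lit 0, nat_lit 0, nat_lit 0, nat_lit 0, nat_lit 0, nat_lit 0, nat_lit 69, nat_lit 400000, nat_lit 0, nat_lit 0, [(nat_lit 6, [(nat_lit 5, nat_lit 1000)]), (nat_lit 9, [(nat_lit 5, nat_lit 1000)])],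
 ⟨p032_k2, nat_lit 0, nat_lit 0, nat_lit 167, nat_lit 0, nat_lit 87591, [nat_lit 2630400000, nat_lit 1413200000, nat_lit 185200000], [], [nat_lit 12633158612, nat_lit 15335483608, nat_lit 12045915760, nat_lit 14604221700, nat_lit 19997244096, nat_lit 20580103203, nat_lit 22717502133, nat_lit 19782113552], nat_lit 1271250, nat_lit 1271250, nat_lit 490000, nat_lit 780000, nat_lit 1100001, nat_lit 2196000, [nat_lit 1100000, nat_lit 1442500, nat_lit 1271250], [nat_lit 48, nat_lit 40, nat_lit 20, nat_lit 80, nat_lit 12, nat_lit 401, nat_lit 175, nat_lit 10]⟩, C1.Rw.none,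
 ⟨nat_lit 5477, nat_lit 6325, ⟨.ofNat (nat_lit 253206), .ofNat (nat_lit 335470), .ofNat (nat_lit 295942), .ofNat (nat_lit 378206), .ofNat (nat_lit 275199), .ofNat (nat_lit 350132), .ofNat (nat_lit 317913), .ofNat (nat_lit 392847)⟩, ⟨.ofNat (nat_lit 225423), .ofNat (nat_lit 488669), .ofNat (nat_lit 246791), .ofNat (nat_lit 510037), .ofNat (nat_lit 232852), .ofNat (nat_lit 472638), .ofNat (nat_lit 254209), .ofNat (nat_lit 493995)⟩⟩, [⟨nat_lit 4, nat_lit 100, nat_lit 98, nat_lit 54, nat_lit 363832535⟩]⟩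
noncomputable def p032_l9 : Lf2 := ⟨nat_lit 1, nat_lit 10, [nat_lit 0, nat_lit 5, nat_lit 5, nat_lit 20], false, nat_lit 0, nat_lit 288, nat_lit 0, nat_lit 160, zbN0,
 nat_lit 0, nat_lit 0, nat_lit 0, nat_lit 0, nat_lit 0, nat_lit 0, nat_lit 0, nat_lit 0, nat_lit 0, nat_lit 0, nat_lit 0, nat_lit 0, nat_lit 0, nat_lit 0, nat_lit 0, nat_lit 0, nat_lit 0, nat_lit 0, [],
 C1.Rw.none, C1.Rw.none,
 zbF0, []⟩
noncomputable def p032_l10 : Lf2 := ⟨nat_lit 0, nat_lit 10, [nat_lit 0, nat_lit 5, nat_lit 5, nat_lit 20], false, nat_lit 0, nat_lit 268, nat_lit 0, nat_lit 160, ⟨nat_lit 1000, nat_lit 0, nat_lit 0, nat_lit 0, nat_lit 0, nat_lit 0, nat_lit 0, nat_lit 0, nat_lit 0, nat_lit 0, nat_lit 0, nat_lit 0, nat_lit 0, nat_lit 0, nat_lit 0, nat_lit 0, false, false⟩,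
 nat_lit 0, nat_lit 12295, nat_lit 0, nat_lit 14200, nat_lit 7156, nat_lit 9453, nat_lit 0, nat_lit 0, nat_lit 0, nat_lit 0, nat_lit 0, nat_lit 0, nat_lit 0, nat_lit 0, nat_lit 0, nat_lit 0, nat_lit 0, nat_lit 0, [],
 ⟨p032_k1, nat_lit 0, nat_lit 0, nat_lit 205, nat_lit 0, nat_lit 76563, [nat_lit 4688000000, nat_lit 6250000000, nat_lit 9842000000], [], [nat_lit 44122939368, nat_lit 40280611040, nat_lit 33133692856, nat_lit 33945831712, nat_lit 30363479112, nat_lit 31021117612, nat_lit 34534598984, nat_lit 31775868623], nat_lit 1271250, nat_lit 1271250, nat_lit 780000, nat_lit 1762500, nat_lit 0, nat_lit 1892750, [nat_lit 1100000, nat_lit 1442500, nat_lit 1271250], [nat_lit 11, nat_lit 40, nat_lit 20, nat_lit 80, nat_lit 1, nat_lit 428, nat_lit 200, nat_lit 12]⟩, ⟨p032_k3, nat_lit 0, nat_lit 0, nat_lit 191, nat_lit 0, nat_lit 0, [nat_lit 6250000000, nat_lit 7968000000, nat_lit 11872000000], [], [nat_lit 30090253320,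 nat_lit 32045579904, nat_lit 33227647712, nat_lit 35098461108, nat_lit 24172909860, nat_lit 25764120944, nat_lit 26299690928, nat_lit 27404469064], nat_lit 0, nat_lit 0, nat_lit 0, nat_lit 0, nat_lit 0, nat_lit 0, [], [nat_lit 53, nat_lit 40, nat_lit 20, nat_lit 80, nat_lit 14, nat_lit 401, nat_lit 175, nat_lit 11]⟩,
 zbF0, []⟩
noncomputable def p032_l11 : Lf2 := ⟨nat_lit 0, nat_lit 10, [nat_lit 0, nat_lit 5, nat_lit 5, nat_lit 20], false, nat_lit 0, nat_lit 288, nat_lit 160, nat_lit 320, ⟨nat_lit 1000, nat_lit 0, nat_lit 0, nat_lit 0, nat_lit 0, nat_lit 0, nat_lit 0, nat_lit 0, nat_lit 0, nat_lit 0, nat_lit 0, nat_lit 0, nat_lit 0, nat_lit 0, nat_lit 0, nat_lit 0, false, false⟩,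
 nat_lit 0, nat_lit 16055, nat_lit 0, nat_lit 321141, nat_lit 8499, nat_lit 476661, nat_lit 0, nat_lit 0, nat_lit 0, nat_lit 0, nat_lit 0, nat_lit 0, nat_lit 0, nat_lit 0, nat_lit 0, nat_lit 0, nat_lit 0, nat_lit 542337074440, [],
 ⟨p032_k2, nat_lit 0, nat_lit 0, nat_lit 232, nat_lit 0, nat_lit 87591, [nat_lit 4688000000, nat_lit 6250000000, nat_lit 11872000000], [], [nat_lit 51454000284, nat_lit 42327128160, nat_lit 35070880548, nat_lit 37247538672, nat_lit 31540646223, nat_lit 32907972185, nat_lit 39073456565, nat_lit 33534571993], nat_lit 1271250, nat_lit 1271250, nat_lit 780000, nat_lit 1762500, nat_lit 0, nat_lit 2034000, [nat_lit 1100000, nat_lit 1442500, nat_lit 1271250], [nat_lit 48, nat_lit 40, nat_lit 20, nat_lit 80, nat_lit 12, nat_lit 456, nat_lit 225, nat_lit 12]⟩, ⟨p032_k3, nat_lit 0, nat_lit 0, nat_lit 31, nat_lit 0, nat_lit 0, [nat_lit 6250000000, nat_lit 7968000000, nat_lit 11872000000], [],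 [nat_lit 0, nat_lit 157286234528, nat_lit 223813922892, nat_lit 329774452324, nat_lit 617462030048, nat_lit 686357748320, nat_lit 645128945384, nat_lit 684064303836], nat_lit 0, nat_lit 0, nat_lit 0, nat_lit 0, nat_lit 0, nat_lit 0, [], [nat_lit 53, nat_lit 40, nat_lit 20, nat_lit 80, nat_lit 14, nat_lit 428, nat_lit 200, nat_lit 11]⟩,
 zbF0, [⟨nat_lit 4, nat_lit 100, nat_lit 98, nat_lit 54, nat_lit 26717950⟩, ⟨nat_lit 19, nat_lit 100, nat_lit 90, nat_lit 53, nat_lit 11111111111⟩, ⟨nat_lit 7, nat_lit 90, nat_lit 100, nat_lit 53, nat_lit 11111111111⟩]⟩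
noncomputable def p032_l12 : Lf2 := ⟨nat_lit 0, nat_lit 10, [nat_lit 0, nat_lit 5, nat_lit 5, nat_lit 20], false, nat_lit 0, nat_lit 288, nat_lit 0, nat_lit 320, ⟨nat_lit 1000, nat_lit 0, nat_lit 0, nat_lit 0, nat_lit 0, nat_lit 0, nat_lit 0, nat_lit 0, nat_lit 0, nat_lit 0, nat_lit 0, nat_lit 0, nat_lit 0, nat_lit 0, nat_lit 0, nat_lit 0, false, false⟩,
 nat_lit 0, nat_lit 16770, nat_lit 0, nat_lit 0, nat_lit 8878, nat_lit 12060, nat_lit 951, nat_lit 0, nat_lit 0, nat_lit 0, nat_lit 0, nat_lit 0, nat_lit 0, nat_lit 0, nat_lit 0, nat_lit 0, nat_lit 0, nat_lit 0, [],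
 ⟨p032_k4, nat_lit 0, nat_lit 0, nat_lit 279, nat_lit 0, nat_lit 87591, [nat_lit 4688000000, nat_lit 7968000001, nat_lit 11872000000], [], [nat_lit 31283296765, nat_lit 32935778917, nat_lit 41103227908, nat_lit 43249228848, nat_lit 27215513537, nat_lit 28086259313, nat_lit 34099008106, nat_lit 35405899428], nat_lit 1271250, nat_lit 1271250, nat_lit 1271250, nat_lit 1271250, nat_lit 0, nat_lit 2034000, [nat_lit 1100000, nat_lit 1785000, nat_lit 1271250], [nat_lit 21, nat_lit 40, nat_lit 20, nat_lit 80, nat_lit 14, nat_lit 483, nat_lit 250, nat_lit 12]⟩, ⟨p032_k5, nat_lit 0, nat_lit 0, nat_lit 271, nat_lit 0, nat_lit 0, [nat_lit 6250000000, nat_lit 9842000000, nat_lit 11872000000], [], [nat_lit 33682058240, nat_lit 35759690160, nat_lit 50532983440, nat_lit 50974900160, nat_lit 30447705280, nat_lit 31140130720, nat_lit 39346878880, nat_lit 39104007840], nat_lit 0, nat_lit 0, nat_lit 0, nat_lit 0, nat_lit 0, nat_lit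 0, [], [nat_lit 46, nat_lit 40, nat_lit 20, nat_lit 80, nat_lit 41, nat_lit 483, nat_lit 250, nat_lit 12]⟩,
 zbF0, [⟨nat_lit 16, nat_lit 98, nat_lit 100, nat_lit 54, nat_lit 78470035⟩]⟩
noncomputable def p032_l13 : Lf2 := ⟨nat_lit 1, nat_lit 10, [nat_lit 0, nat_lit 5, nat_lit 5, nat_lit 20], false, nat_lit 0, nat_lit 80, nat_lit 0, nat_lit 320, zbN0,
 nat_lit 0, nat_lit 0, nat_lit 0, nat_lit 0, nat_lit 0, nat_lit 0, nat_lit 0, nat_lit 0, nat_lit 0, nat_lit 0, nat_lit 0, nat_lit 0, nat_lit 0, nat_lit 0, nat_lit 0, nat_lit 0, nat_lit 0, nat_lit 0, [],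
 C1.Rw.none, C1.Rw.none,
 zbF0, []⟩
noncomputable def p032_l14 : Lf2 := ⟨nat_lit 0, nat_lit 10, [nat_lit 0, nat_lit 5, nat_lit 5, nat_lit 20], false, nat_lit 0, nat_lit 80, nat_lit 0, nat_lit 320, ⟨nat_lit 0, nat_lit 0, nat_lit 1000, nat_lit 5, nat_lit 104, nat_lit 0, nat_lit 18, nat_lit 0, nat_lit 150, nat_lit 218, nat_lit 101400, nat_lit 293, nat_lit 62743720, nat_lit 0, nat_lit 0, nat_lit 1182807, false, false⟩,
 nat_lit 0, nat_lit 7167, nat_lit 0, nat_lit 0, nat_lit 4171, nat_lit 0, nat_lit 0, nat_lit 0, nat_lit 0, nat_lit 0, nat_lit 0, nat_lit 0, nat_lit 0, nat_lit 0, nat_lit 94, nat_lit 440200, nat_lit 0, nat_lit 0, [(nat_lit 9, [(nat_lit 5, nat_lit 933), (nat_lit 6, nat_lit 67)])],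
 ⟨p032_k1, nat_lit 0, nat_lit 0, nat_lit 311, nat_lit 0, nat_lit 42894, [nat_lit 3001670401, nat_lit 1728745334, nat_lit 8863200], [], [nat_lit 16631452451, nat_lit 17850900498, nat_lit 15598588739, nat_lit 16262096902, nat_lit 14872422790, nat_lit 15820284750, nat_lit 17651910693, nat_lit 15659474045], nat_lit 1271250, nat_lit 1271250, nat_lit 43600, nat_lit 780000, nat_lit 0, nat_lit 490000, [nat_lit 1100000, nat_lit 1442500, nat_lit 1271250], [nat_lit 11, nat_lit 40, nat_lit 20, nat_lit 80, nat_lit 1, nat_lit 345, nat_lit 125, nat_lit 10]⟩, ⟨p032_k3, nat_lit 0, nat_lit 0, nat_lit 389, nat_lit 0, nat_lit 62354, [nat_lit 0, nat_lit 0, nat_lit 0], [], [nat_lit 0, nat_lit 0, nat_lit 0, nat_lit 0, nat_lit 0, nat_lit 0, nat_lit 0, nat_lit 0], nat_lit 1271250, nat_lit 1271250, nat_lit 43600, nat_lit 780000, nat_lit 0, nat_lit 2260000, [nat_lit 1412500, nat_lit 1271250, nat_lit 1271250], [nat_lit 53, nat_lit 40,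 nat_lit 20, nat_lit 80, nat_lit 14, nat_lit 401, nat_lit 175, nat_lit 11]⟩,
 ⟨nat_lit 5477, nat_lit 5917, ⟨.ofNat (nat_lit 123037), .ofNat (nat_lit 342931), .ofNat (nat_lit 165716), .ofNat (nat_lit 385610), .ofNat (nat_lit 140320), .ofNat (nat_lit 350132), .ofNat (nat_lit 183034), .ofNat (nat_lit 392847)⟩, ⟨.negSucc (nat_lit 84722), .ofNat (nat_lit 72344), .negSucc (nat_lit 63383), .ofNat (nat_lit 93684), .negSucc (nat_lit 66879), .ofNat (nat_lit 82986), .negSucc (nat_lit 45522), .ofNat (nat_lit 104343)⟩⟩, []⟩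
noncomputable def p032_l15 : Lf2 := ⟨nat_lit 1, nat_lit 10, [nat_lit 0, nat_lit 5, nat_lit 5, nat_lit 20], false, nat_lit 0, nat_lit 80, nat_lit 0, nat_lit 320, zbN0,
 nat_lit 0, nat_lit 0, nat_lit 0, nat_lit 0, nat_lit 0, nat_lit 0, nat_lit 0, nat_lit 0, nat_lit 0, nat_lit 0, nat_lit 0, nat_lit 0, nat_lit 0, nat_lit 0, nat_lit 0, nat_lit 0, nat_lit 0, nat_lit 0, [],
 C1.Rw.none, C1.Rw.none,
 zbF0, []⟩
noncomputable def p032_l16 : Lf2 := ⟨nat_lit 0, nat_lit 10, [nat_lit 0, nat_lit 5, nat_lit 5, nat_lit 20], true, nat_lit 0, nat_lit 80, nat_lit 0, nat_lit 320, ⟨nat_lit 0, nat_lit 0, nat_lit 1000, nat_lit 5, nat_lit 193, nat_lit 0, nat_lit 18, nat_lit 0, nat_lit 150, nat_lit 218, nat_lit 2161, nat_lit 205, nat_lit 54327692, nat_lit 0, nat_lit 0, nat_lit 2424858, false, false⟩,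
 nat_lit 0, nat_lit 7232, nat_lit 0, nat_lit 0, nat_lit 4209, nat_lit 0, nat_lit 0, nat_lit 0, nat_lit 0, nat_lit 0, nat_lit 0, nat_lit 0, nat_lit 0, nat_lit 0, nat_lit 94, nat_lit 438400, nat_lit 0, nat_lit 0, [(nat_lit 9, [(nat_lit 5, nat_lit 936), (nat_lit 6, nat_lit 64)])],
 ⟨p032_k1, nat_lit 0, nat_lit 0, nat_lit 205, nat_lit 0, nat_lit 76563, [nat_lit 3002956801, nat_lit 1729637334, nat_lit 17654400], [], [nat_lit 14585902507, nat_lit 15657000677, nat_lit 17780509386, nat_lit 18783151140, nat_lit 12941613555, nat_lit 13954934221, nat_lit 16305843065, nat_lit 16766007458], nat_lit 1271250, nat_lit 1271250, nat_lit 780000, nat_lit 1762500, nat_lit 0, nat_lit 490000, [nat_lit 1100000, nat_lit 1442500, nat_lit 1271250], [nat_lit 11, nat_lit 40, nat_lit 20, nat_lit 80, nat_lit 1, nat_lit 373, nat_lit 150, nat_lit 11]⟩, C1.Rw.none,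
 ⟨nat_lit 5477, nat_lit 5917, ⟨.ofNat (nat_lit 342931), .ofNat (nat_lit 578514), .ofNat (nat_lit 385610), .ofNat (nat_lit 621176), .ofNat (nat_lit 350132), .ofNat (nat_lit 574913), .ofNat (nat_lit 392847), .ofNat (nat_lit 617611)⟩, ⟨.negSucc (nat_lit 84722), .ofNat (nat_lit 72344), .negSucc (nat_lit 63383), .ofNat (nat_lit 93684), .negSucc (nat_lit 66879), .ofNat (nat_lit 82986), .negSucc (nat_lit 45522), .ofNat (nat_lit 104343)⟩⟩, []⟩
noncomputable def p032_l17 : Lf2 := ⟨nat_lit 1, nat_lit 10, [nat_lit 0, nat_lit 5, nat_lit 5, nat_lit 20], false, nat_lit 80, nat_lit 160, nat_lit 0, nat_lit 320, zbN0,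
 nat_lit 0, nat_lit 0, nat_lit 0, nat_lit 0, nat_lit 0, nat_lit 0, nat_lit 0, nat_lit 0, nat_lit 0, nat_lit 0, nat_lit 0, nat_lit 0, nat_lit 0, nat_lit 0, nat_lit 0, nat_lit 0, nat_lit 0, nat_lit 0, [],
 C1.Rw.none, C1.Rw.none,
 zbF0, []⟩
noncomputable def p032_l18 : Lf2 := ⟨nat_lit 0, nat_lit 10, [nat_lit 0, nat_lit 5, nat_lit 5, nat_lit 20], true, nat_lit 80, nat_lit 160, nat_lit 0, nat_lit 320, ⟨nat_lit 0, nat_lit 0, nat_lit 1000, nat_lit 5, nat_lit 150, nat_lit 1000, nat_lit 66, nat_lit 1000, nat_lit 41667, nat_lit 265, nat_lit 2161, nat_lit 205, nat_lit 56107221, nat_lit 0, nat_lit 0, nat_lit 2784291, false, false⟩,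
 nat_lit 0, nat_lit 7983, nat_lit 0, nat_lit 0, nat_lit 4646, nat_lit 0, nat_lit 0, nat_lit 0, nat_lit 0, nat_lit 0, nat_lit 0, nat_lit 0, nat_lit 0, nat_lit 0, nat_lit 87, nat_lit 400000, nat_lit 0, nat_lit 0, [(nat_lit 9, [(nat_lit 5, nat_lit 1000)])],
 ⟨p032_k1, nat_lit 0, nat_lit 0, nat_lit 221, nat_lit 0, nat_lit 76563, [nat_lit 2918400000, nat_lit 1608666667, nat_lit 9200000], [], [nat_lit 13989149049, nat_lit 15361511597, nat_lit 15469613376, nat_lit 16464979168, nat_lit 14696694581, nat_lit 15928645837, nat_lit 18936540275, nat_lit 16804261264], nat_lit 1271250, nat_lit 1271250, nat_lit 43600, nat_lit 1699500, nat_lit 490000, nat_lit 1100001, [nat_lit 1100000, nat_lit 1442500, nat_lit 1271250], [nat_lit 11, nat_lit 40, nat_lit 20, nat_lit 80, nat_lit 1, nat_lit 401, nat_lit 175, nat_lit 12]⟩, C1.Rw.none,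
 ⟨nat_lit 5477, nat_lit 5917, ⟨.ofNat (nat_lit 123037), .ofNat (nat_lit 578514), .ofNat (nat_lit 165716), .ofNat (nat_lit 621176), .ofNat (nat_lit 140320), .ofNat (nat_lit 574913), .ofNat (nat_lit 183034), .ofNat (nat_lit 617611)⟩, ⟨.ofNat (nat_lit 72344), .ofNat (nat_lit 229411), .ofNat (nat_lit 93684), .ofNat (nat_lit 250751), .ofNat (nat_lit 82986), .ofNat (nat_lit 232852), .ofNat (nat_lit 104343), .ofNat (nat_lit 254209)⟩⟩, []⟩
noncomputable def p032_l19 : Lf2 := ⟨nat_lit 1, nat_lit 10, [nat_lit 0, nat_lit 5, nat_lit 5, nat_lit 20], false, nat_lit 160, nat_lit 288, nat_lit 0, nat_lit 320, zbN0,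
 nat_lit 0, nat_lit 0, nat_lit 0, nat_lit 0, nat_lit 0, nat_lit 0, nat_lit 0, nat_lit 0, nat_lit 0, nat_lit 0, nat_lit 0, nat_lit 0, nat_lit 0, nat_lit 0, nat_lit 0, nat_lit 0, nat_lit 0, nat_lit 0, [],
 C1.Rw.none, C1.Rw.none,
 zbF0, []⟩
noncomputable def p032_l20 : Lf2 := ⟨nat_lit 0, nat_lit 10, [nat_lit 0, nat_lit 5, nat_lit 5, nat_lit 20], false, nat_lit 160, nat_lit 268, nat_lit 0, nat_lit 320, ⟨nat_lit 0, nat_lit 0, nat_lit 1000, nat_lit 5, nat_lit 104, nat_lit 1000, nat_lit 138, nat_lit 1000, nat_lit 126379, nat_lit 302, nat_lit 101400, nat_lit 293, nat_lit 54662943, nat_lit 0, nat_lit 0, nat_lit 3195769, false, false⟩,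
 nat_lit 0, nat_lit 7808, nat_lit 0, nat_lit 802, nat_lit 4544, nat_lit 0, nat_lit 0, nat_lit 0, nat_lit 0, nat_lit 0, nat_lit 0, nat_lit 0, nat_lit 0, nat_lit 0, nat_lit 87, nat_lit 400000, nat_lit 0, nat_lit 0, [(nat_lit 9, [(nat_lit 5, nat_lit 1000)])],
 ⟨p032_k1, nat_lit 0, nat_lit 0, nat_lit 179, nat_lit 0, nat_lit 42894, [nat_lit 2918400000, nat_lit 1608666667, nat_lit 9200000], [], [nat_lit 14716227268, nat_lit 15934661716, nat_lit 13356050976, nat_lit 14291945600, nat_lit 19003017773, nat_lit 20205553271, nat_lit 20538815051, nat_lit 18358809240], nat_lit 1271250, nat_lit 1271250, nat_lit 43600, nat_lit 780000, nat_lit 1100001, nat_lit 2024750, [nat_lit 1100000, nat_lit 1442500, nat_lit 1271250], [nat_lit 11, nat_lit 40, nat_lit 20, nat_lit 80, nat_lit 1, nat_lit 401, nat_lit 175, nat_lit 11]⟩, ⟨p032_k3, nat_lit 0, nat_lit 0, nat_lit 389, nat_lit 0, nat_lit 62354, [nat_lit 0, nat_lit 0, nat_lit 0],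 [], [nat_lit 0, nat_lit 0, nat_lit 0, nat_lit 0, nat_lit 0, nat_lit 0, nat_lit 0, nat_lit 0], nat_lit 1271250, nat_lit 1271250, nat_lit 43600, nat_lit 780000, nat_lit 0, nat_lit 2260000, [nat_lit 1412500, nat_lit 1271250, nat_lit 1271250], [nat_lit 53, nat_lit 40, nat_lit 20, nat_lit 80, nat_lit 14, nat_lit 401, nat_lit 175, nat_lit 11]⟩,
 ⟨nat_lit 5477, nat_lit 5917, ⟨.ofNat (nat_lit 123037), .ofNat (nat_lit 342931), .ofNat (nat_lit 165716), .ofNat (nat_lit 385610), .ofNat (nat_lit 140320), .ofNat (nat_lit 350132), .ofNat (nat_lit 183034), .ofNat (nat_lit 392847)⟩, ⟨.ofNat (nat_lit 229411), .ofNat (nat_lit 441452), .ofNat (nat_lit 250751), .ofNat (nat_lit 462791), .ofNat (nat_lit 232852), .ofNat (nat_lit 435171), .ofNat (nat_lit 254209), .ofNat (nat_lit 456528)⟩⟩, [⟨nat_lit 0, nat_lit 100, nat_lit 94, nat_lit 59, nat_lit 53062206⟩, ⟨nat_lit 4, nat_lit 100, nat_lit 96, nat_lit 54, nat_lit 319229377⟩]⟩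
noncomputable def p032_l21 : Lf2 := ⟨nat_lit 0, nat_lit 10, [nat_lit 0, nat_lit 5, nat_lit 5, nat_lit 20], false, nat_lit 160, nat_lit 288, nat_lit 0, nat_lit 160, ⟨nat_lit 1000, nat_lit 0, nat_lit 0, nat_lit 0, nat_lit 0, nat_lit 0, nat_lit 0, nat_lit 0, nat_lit 0, nat_lit 0, nat_lit 0, nat_lit 0, nat_lit 0, nat_lit 0, nat_lit 0, nat_lit 0, false, false⟩,
 nat_lit 15426, nat_lit 34043, nat_lit 0, nat_lit 35953, nat_lit 26189, nat_lit 6611, nat_lit 0, nat_lit 0, nat_lit 0, nat_lit 0, nat_lit 0, nat_lit 0, nat_lit 0, nat_lit 0, nat_lit 0, nat_lit 0, nat_lit 0, nat_lit 0, [],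
 ⟨p032_k4, nat_lit 0, nat_lit 0, nat_lit 133, nat_lit 0, nat_lit 48076, [nat_lit 4688000000, nat_lit 7968000001, nat_lit 11872000000], [], [nat_lit 40181618797, nat_lit 16504362300, nat_lit 47993190185, nat_lit 23312362317, nat_lit 20697537068, nat_lit 24134611335, nat_lit 21133258059, nat_lit 26960727504], nat_lit 1271250, nat_lit 1271250, nat_lit 780000, nat_lit 1762500, nat_lit 1271250, nat_lit 1271250, [nat_lit 1100000, nat_lit 1785000, nat_lit 1271250], [nat_lit 21, nat_lit 40, nat_lit 20, nat_lit 80, nat_lit 14, nat_lit 456, nat_lit 225, nat_lit 11]⟩, ⟨p032_k5, nat_lit 0, nat_lit 0, nat_lit 240, nat_lit 0, nat_lit 62354, [nat_lit 6250000000, nat_lit 9842000000, nat_lit 11872000000], [], [nat_lit 42574118240, nat_lit 35583144404, nat_lit 35510626708, nat_lit 36782443172, nat_lit 30337063048, nat_lit 30895499728, nat_lit 40760836796, nat_lit 34444846060], nat_lit 1271250, nat_lit 1271250, nat_lit 780000,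 nat_lit 1762500, nat_lit 0, nat_lit 1100001, [nat_lit 1412500, nat_lit 1271250, nat_lit 1271250], [nat_lit 46, nat_lit 40, nat_lit 20, nat_lit 80, nat_lit 41, nat_lit 401, nat_lit 175, nat_lit 11]⟩,
 zbF0, [⟨nat_lit 16, nat_lit 98, nat_lit 100, nat_lit 54, nat_lit 972711231⟩]⟩
noncomputable def p032_l22 : Lf2 := ⟨nat_lit 0, nat_lit 10, [nat_lit 0, nat_lit 5, nat_lit 5, nat_lit 20], false, nat_lit 160, nat_lit 288, nat_lit 160, nat_lit 320, ⟨nat_lit 561, nat_lit 0, nat_lit 439, nat_lit 5, nat_lit 193, nat_lit 439, nat_lit 146, nat_lit 439, nat_lit 25350, nat_lit 254, nat_lit 3449, nat_lit 204, nat_lit 46873137, nat_lit 0, nat_lit 0, nat_lit 4355721, false, false⟩,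
 nat_lit 9901, nat_lit 24742, nat_lit 0, nat_lit 29117, nat_lit 18340, nat_lit 4243, nat_lit 0, nat_lit 0, nat_lit 0, nat_lit 0, nat_lit 0, nat_lit 0, nat_lit 0, nat_lit 0, nat_lit 0, nat_lit 109750, nat_lit 0, nat_lit 0, [(nat_lit 6, [(nat_lit 4, nat_lit 439)]), (nat_lit 9, [(nat_lit 4, nat_lit 439)])],
 ⟨p032_k4, nat_lit 0, nat_lit 0, nat_lit 133, nat_lit 0, nat_lit 48076, [nat_lit 3991219200, nat_lit 4144661201, nat_lit 6094935600], [], [nat_lit 32697788961, nat_lit 15917841600, nat_lit 40926415441, nat_lit 23642579361, nat_lit 19526171680, nat_lit 22250979680, nat_lit 20729775505, nat_lit 25174797440], nat_lit 1271250, nat_lit 1271250, nat_lit 780000, nat_lit 1762500, nat_lit 1271250, nat_lit 1271250, [nat_lit 1100000, nat_lit 1785000, nat_lit 1271250], [nat_lit 21, nat_lit 40, nat_lit 20, nat_lit 80, nat_lit 14, nat_lit 456, nat_lit 225, nat_lit 11]⟩, ⟨p032_k5, nat_lit 0, nat_lit 0, nat_lit 154, nat_lit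 0, nat_lit 62354, [nat_lit 3506250000, nat_lit 5521362000, nat_lit 6660192000], [], [nat_lit 25748365720, nat_lit 21191909852, nat_lit 16849517076, nat_lit 15030490092, nat_lit 16601993788, nat_lit 17160337076, nat_lit 17239425284, nat_lit 17624334872], nat_lit 1271250, nat_lit 1271250, nat_lit 780000, nat_lit 1762500, nat_lit 1271250, nat_lit 1271250, [nat_lit 1412500, nat_lit 1271250, nat_lit 1271250], [nat_lit 46, nat_lit 40, nat_lit 20, nat_lit 80, nat_lit 41, nat_lit 428, nat_lit 200, nat_lit 11]⟩,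
 ⟨nat_lit 5477, nat_lit 6325, ⟨.ofNat (nat_lit 335470), .ofNat (nat_lit 582178), .ofNat (nat_lit 378206), .ofNat (nat_lit 624852), .ofNat (nat_lit 350132), .ofNat (nat_lit 574846), .ofNat (nat_lit 392847), .ofNat (nat_lit 617499)⟩, ⟨.ofNat (nat_lit 225423), .ofNat (nat_lit 488669), .ofNat (nat_lit 246791), .ofNat (nat_lit 510037), .ofNat (nat_lit 232852), .ofNat (nat_lit 472638), .ofNat (nat_lit 254209), .ofNat (nat_lit 493995)⟩⟩, [⟨nat_lit 16, nat_lit 98, nat_lit 100, nat_lit 54, nat_lit 686918461⟩]⟩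
noncomputable def p032_l23 : Lf2 := ⟨nat_lit 0, nat_lit 10, [nat_lit 0, nat_lit 5, nat_lit 5, nat_lit 20], false, nat_lit 0, nat_lit 288, nat_lit 0, nat_lit 320, ⟨nat_lit 1000, nat_lit 0, nat_lit 0, nat_lit 0, nat_lit 0, nat_lit 0, nat_lit 0, nat_lit 0, nat_lit 0, nat_lit 0, nat_lit 0, nat_lit 0, nat_lit 0, nat_lit 0, nat_lit 0, nat_lit 0, false, false⟩,
 nat_lit 25125, nat_lit 0, nat_lit 0, nat_lit 0, nat_lit 9825, nat_lit 10767, nat_lit 585, nat_lit 0, nat_lit 0, nat_lit 0, nat_lit 0, nat_lit 0, nat_lit 0, nat_lit 0, nat_lit 0, nat_lit 0, nat_lit 0, nat_lit 0, [],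
 ⟨p032_k4, nat_lit 0, nat_lit 0, nat_lit 266, nat_lit 0, nat_lit 48076, [nat_lit 4688000000, nat_lit 7968000001, nat_lit 11872000000], [], [nat_lit 32884233601, nat_lit 34604789901, nat_lit 44593948700, nat_lit 45727897500, nat_lit 27802204281, nat_lit 28674078881, nat_lit 35295254221, nat_lit 36424627480], nat_lit 1271250, nat_lit 1271250, nat_lit 1271250, nat_lit 1271250, nat_lit 0, nat_lit 2034000, [nat_lit 1100000, nat_lit 1785000, nat_lit 1271250], [nat_lit 21, nat_lit 40, nat_lit 20, nat_lit 80, nat_lit 14, nat_lit 483, nat_lit 250, nat_lit 12]⟩, ⟨p032_k5, nat_lit 0, nat_lit 0, nat_lit 295, nat_lit 0, nat_lit 62354, [nat_lit 6250000000, nat_lit 9842000000, nat_lit 11872000000], [], [nat_lit 33456683168, nat_lit 35431738812, nat_lit 49042769908, nat_lit 49538201312, nat_lit 33388333832, nat_lit 32043017104, nat_lit 39706270816, nat_lit 39574835688], nat_lit 1271250, nat_lit 1271250, nat_lit 1271250, nat_lit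 1271250, nat_lit 0, nat_lit 2260000, [nat_lit 1412500, nat_lit 1271250, nat_lit 1271250], [nat_lit 46, nat_lit 40, nat_lit 20, nat_lit 80, nat_lit 41, nat_lit 483, nat_lit 250, nat_lit 12]⟩,
 zbF0, [⟨nat_lit 16, nat_lit 98, nat_lit 100, nat_lit 54, nat_lit 30574952⟩, ⟨nat_lit 7, nat_lit 90, nat_lit 100, nat_lit 53, nat_lit 56227166⟩]⟩
noncomputable def b_VL_600_500_5_34 : St := ⟨true, nat_lit 1, nat_lit 2, nat_lit 1, nat_lit 40, nat_lit 240, nat_lit 280, nat_lit 200, nat_lit 240, nat_lit 4, nat_lit 400, nat_lit 20, nat_lit 40, nat_lit 0, nat_lit 288, nat_lit 0, nat_lit 320, nat_lit 40, nat_lit 48, nat_lit 0, nat_lit 0, nat_lit 0, nat_lit 0⟩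
theorem d_VL_600_500_5_34 (h : EB TB.env) : Dead b_VL_600_500_5_34 := chkB_sound0 h (T :=
(.st (nat_lit 1)
(.spl (nat_lit 2) (nat_lit 240)
(.spl (nat_lit 2) (nat_lit 120)
(.spl (nat_lit 4) (nat_lit 160)
(.spl (nat_lit 0) (nat_lit 260)
(.leaf p032_l0)
(.trZ (nat_lit 0) (nat_lit 100) (nat_lit 95) (nat_lit 30) (nat_lit 8) (.spl (nat_lit 4) (nat_lit 80)
(.spl (nat_lit 0) (nat_lit 270)
(.leaf p032_l1)
(.trZ (nat_lit 0) (nat_lit 100) (nat_lit 94) (nat_lit 35) (nat_lit 12) (.leaf p032_l2)))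
(.leaf p032_l3))))
(.spl (nat_lit 2) (nat_lit 80)
(.spl (nat_lit 2) (nat_lit 40)
(.spl (nat_lit 0) (nat_lit 260)
(.leaf p032_l4)
(.trZ (nat_lit 0) (nat_lit 100) (nat_lit 95) (nat_lit 30) (nat_lit 8) (.trX (nat_lit 16) (nat_lit 100) (nat_lit 99) (nat_lit 63) (nat_lit 268) (.leaf p032_l5))))
(.spl (nat_lit 0) (nat_lit 260)
(.leaf p032_l6)
(.trX (nat_lit 16) (nat_lit 100) (nat_lit 99) (nat_lit 63) (nat_lit 268) (.leaf p032_l7))))
(.leaf p032_l8)))
(.spl (nat_lit 5) (nat_lit 160)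
(.spl (nat_lit 0) (nat_lit 260)
(.leaf p032_l9)
(.trX (nat_lit 16) (nat_lit 100) (nat_lit 99) (nat_lit 63) (nat_lit 268) (.leaf p032_l10)))
(.leaf p032_l11)))
(.leaf p032_l12))
(.spl (nat_lit 2) (nat_lit 240)
(.spl (nat_lit 4) (nat_lit 160)
(.spl (nat_lit 4) (nat_lit 80)
(.spl (nat_lit 2) (nat_lit 120)
(.spl (nat_lit 0) (nat_lit 260)
(.leaf p032_l13)
(.trZ (nat_lit 0) (nat_lit 100) (nat_lit 95) (nat_lit 30) (nat_lit 8) (.leaf p032_l14)))
(.spl (nat_lit 0) (nat_lit 260)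
(.leaf p032_l15)
(.leaf p032_l16)))
(.spl (nat_lit 0) (nat_lit 260)
(.leaf p032_l17)
(.trZ (nat_lit 0) (nat_lit 100) (nat_lit 95) (nat_lit 30) (nat_lit 8) (.leaf p032_l18))))
(.spl (nat_lit 2) (nat_lit 120)
(.spl (nat_lit 0) (nat_lit 260)
(.leaf p032_l19)
(.trZ (nat_lit 0) (nat_lit 100) (nat_lit 95) (nat_lit 30) (nat_lit 8) (.trX (nat_lit 16) (nat_lit 100) (nat_lit 99) (nat_lit 63) (nat_lit 268) (.leaf p032_l20))))
(.spl (nat_lit 5) (nat_lit 160)
(.leaf p032_l21)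
(.leaf p032_l22))))
(.leaf p032_l23)))) (by decide +kernel)
noncomputable def p032_l24 : Lf2 := ⟨nat_lit 1, nat_lit 10, [nat_lit 0, nat_lit 5, nat_lit 5, nat_lit 20], false, nat_lit 0, nat_lit 288, nat_lit 0, nat_lit 320, zbN0,
 nat_lit 0, nat_lit 0, nat_lit 0, nat_lit 0, nat_lit 0, nat_lit 0, nat_lit 0, nat_lit 0, nat_lit 0, nat_lit 0, nat_lit 0, nat_lit 0, nat_lit 0, nat_lit 0, nat_lit 0, nat_lit 0, nat_lit 0, nat_lit 0, [],
 C1.Rw.none, C1.Rw.none,
 zbF0, []⟩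
noncomputable def p032_l25 : Lf2 := ⟨nat_lit 1, nat_lit 10, [nat_lit 0, nat_lit 5, nat_lit 5, nat_lit 20], false, nat_lit 0, nat_lit 268, nat_lit 0, nat_lit 320, zbN0,
 nat_lit 0, nat_lit 0, nat_lit 0, nat_lit 0, nat_lit 0, nat_lit 0, nat_lit 0, nat_lit 0, nat_lit 0, nat_lit 0, nat_lit 0, nat_lit 0, nat_lit 0, nat_lit 0, nat_lit 0, nat_lit 0, nat_lit 0, nat_lit 0, [],
 C1.Rw.none, C1.Rw.none,
 zbF0, []⟩
noncomputable def p032_l26 : Lf2 := ⟨nat_lit 1, nat_lit 10, [nat_lit 0, nat_lit 5, nat_lit 5, nat_lit 20], false, nat_lit 0, nat_lit 260, nat_lit 0, nat_lit 320, zbN0,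
 nat_lit 0, nat_lit 0, nat_lit 0, nat_lit 0, nat_lit 0, nat_lit 0, nat_lit 0, nat_lit 0, nat_lit 0, nat_lit 0, nat_lit 0, nat_lit 0, nat_lit 0, nat_lit 0, nat_lit 0, nat_lit 0, nat_lit 0, nat_lit 0, [],
 C1.Rw.none, C1.Rw.none,
 zbF0, []⟩
noncomputable def p032_l27 : Lf2 := ⟨nat_lit 0, nat_lit 10, [nat_lit 0, nat_lit 5, nat_lit 5, nat_lit 20], true, nat_lit 0, nat_lit 260, nat_lit 0, nat_lit 304, ⟨nat_lit 0, nat_lit 1000, nat_lit 0, nat_lit 5, nat_lit 158, nat_lit 1000, nat_lit 86, nat_lit 0, nat_lit 0, nat_lit 0, nat_lit 0, nat_lit 0, nat_lit 0, nat_lit 0, nat_lit 0, nat_lit 5000000, false, false⟩,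
 nat_lit 0, nat_lit 5131, nat_lit 0, nat_lit 13474, nat_lit 3124, nat_lit 0, nat_lit 0, nat_lit 0, nat_lit 0, nat_lit 0, nat_lit 0, nat_lit 0, nat_lit 0, nat_lit 0, nat_lit 0, nat_lit 400000, nat_lit 0, nat_lit 0, [(nat_lit 9, [(nat_lit 1, nat_lit 1000)])],
 ⟨p032_k0, nat_lit 0, nat_lit 0, nat_lit 291, nat_lit 0, nat_lit 26584, [nat_lit 2702720000, nat_lit 2968400001, nat_lit 2997199999], [], [nat_lit 36342434841, nat_lit 35483778449, nat_lit 29494142636, nat_lit 29812866848, nat_lit 29652192438, nat_lit 29956342468, nat_lit 31182373851, nat_lit 31415933688], nat_lit 1271250, nat_lit 1271250, nat_lit 111251, nat_lit 1706250, nat_lit 0, nat_lit 1836250, [nat_lit 1100000, nat_lit 1442500, nat_lit 1271250], [nat_lit 11, nat_lit 40, nat_lit 20, nat_lit 80, nat_lit 1, nat_lit 428, nat_lit 200, nat_lit 13]⟩, C1.Rw.none,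
 ⟨nat_lit 5477, nat_lit 5701, ⟨.ofNat (nat_lit 176105), .ofNat (nat_lit 598054), .ofNat (nat_lit 186776), .ofNat (nat_lit 608724), .ofNat (nat_lit 184157), .ofNat (nat_lit 596283), .ofNat (nat_lit 194835), .ofNat (nat_lit 606960)⟩, ⟨.negSucc (nat_lit 75673), .ofNat (nat_lit 422999), .negSucc (nat_lit 54331), .ofNat (nat_lit 444341), .negSucc (nat_lit 66879), .ofNat (nat_lit 420185), .negSucc (nat_lit 45522), .ofNat (nat_lit 441542)⟩⟩, []⟩
noncomputable def p032_l28 : Lf2 := ⟨nat_lit 0, nat_lit 10, [nat_lit 0, nat_lit 5, nat_lit 5, nat_lit 20], false, nat_lit 0, nat_lit 260, nat_lit 0, nat_lit 296, ⟨nat_lit 61, nat_lit 939, nat_lit 0, nat_lit 5, nat_lit 163, nat_lit 939, nat_lit 86, nat_lit 0, nat_lit 0, nat_lit 0, nat_lit 0, nat_lit 0, nat_lit 0, nat_lit 0, nat_lit 0, nat_lit 5000000, false, false⟩,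
 nat_lit 0, nat_lit 0, nat_lit 0, nat_lit 7606, nat_lit 0, nat_lit 1026, nat_lit 0, nat_lit 0, nat_lit 387, nat_lit 63, nat_lit 0, nat_lit 0, nat_lit 0, nat_lit 0, nat_lit 0, nat_lit 375600, nat_lit 0, nat_lit 0, [(nat_lit 9, [(nat_lit 1, nat_lit 939)])],
 ⟨p032_k0, nat_lit 0, nat_lit 0, nat_lit 0, nat_lit 0, nat_lit 71866, [nat_lit 2823822080, nat_lit 3168577601, nat_lit 3405216799], [], [nat_lit 12060411681, nat_lit 12060411681, nat_lit 13589300000, nat_lit 13970968000, nat_lit 14599322601, nat_lit 14968369800, nat_lit 20606233761, nat_lit 20606233761], nat_lit 1271250, nat_lit 1271250, nat_lit 134400, nat_lit 1708500, nat_lit 0, nat_lit 1836250, [nat_lit 1100000, nat_lit 1442500, nat_lit 1271250], [nat_lit 11, nat_lit 40, nat_lit 20, nat_lit 80]⟩, ⟨p032_k6, nat_lit 0, nat_lit 0, nat_lit 345, nat_lit 0, nat_lit 0, [nat_lit 381250000, nat_lit 486048000, nat_lit 724192000], [], [nat_lit 2428886601, nat_lit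 2488318632, nat_lit 1937780201, nat_lit 1975222401, nat_lit 1957498870, nat_lit 1984187217, nat_lit 1309447462, nat_lit 1327509157], nat_lit 0, nat_lit 0, nat_lit 0, nat_lit 0, nat_lit 0, nat_lit 0, [], [nat_lit 53, nat_lit 40, nat_lit 20, nat_lit 80, nat_lit 14, nat_lit 428, nat_lit 200, nat_lit 11]⟩,
 ⟨nat_lit 5477, nat_lit 5701, ⟨.ofNat (nat_lit 194448), .ofNat (nat_lit 608724), .ofNat (nat_lit 205119), .ofNat (nat_lit 619394), .ofNat (nat_lit 202329), .ofNat (nat_lit 606960), .ofNat (nat_lit 213007), .ofNat (nat_lit 617638)⟩, ⟨.negSucc (nat_lit 75673), .ofNat (nat_lit 422999), .negSucc (nat_lit 54331), .ofNat (nat_lit 444341), .negSucc (nat_lit 66879), .ofNat (nat_lit 420185), .negSucc (nat_lit 45522), .ofNat (nat_lit 441542)⟩⟩, []⟩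
noncomputable def p032_l29 : Lf2 := ⟨nat_lit 0, nat_lit 10, [nat_lit 0, nat_lit 5, nat_lit 5, nat_lit 20], true, nat_lit 0, nat_lit 260, nat_lit 0, nat_lit 296, ⟨nat_lit 0, nat_lit 1000, nat_lit 0, nat_lit 5, nat_lit 118, nat_lit 1000, nat_lit 86, nat_lit 0, nat_lit 0, nat_lit 0, nat_lit 0, nat_lit 0, nat_lit 0, nat_lit 0, nat_lit 0, nat_lit 5000000, false, false⟩,
 nat_lit 0, nat_lit 19260, nat_lit 0, nat_lit 0, nat_lit 11729, nat_lit 0, nat_lit 0, nat_lit 0, nat_lit 0, nat_lit 0, nat_lit 0, nat_lit 0, nat_lit 0, nat_lit 0, nat_lit 0, nat_lit 400000, nat_lit 0, nat_lit 0, [(nat_lit 9, [(nat_lit 1, nat_lit 1000)])],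
 ⟨p032_k0, nat_lit 0, nat_lit 0, nat_lit 0, nat_lit 0, nat_lit 71866, [nat_lit 2702720000, nat_lit 2968400001, nat_lit 2997199999], [], [nat_lit 28203855319, nat_lit 29454391922, nat_lit 21153304746, nat_lit 22289752499, nat_lit 22677214941, nat_lit 23466075049, nat_lit 28121163997, nat_lit 25482476205], nat_lit 1271250, nat_lit 1271250, nat_lit 134400, nat_lit 780000, nat_lit 0, nat_lit 1836250, [nat_lit 1100000, nat_lit 1442500, nat_lit 1271250], [nat_lit 11, nat_lit 40, nat_lit 20, nat_lit 80]⟩, C1.Rw.none,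
 ⟨nat_lit 5477, nat_lit 5701, ⟨.ofNat (nat_lit 194448), .ofNat (nat_lit 378573), .ofNat (nat_lit 205119), .ofNat (nat_lit 389244), .ofNat (nat_lit 202329), .ofNat (nat_lit 382168), .ofNat (nat_lit 213007), .ofNat (nat_lit 392847)⟩, ⟨.negSucc (nat_lit 75673), .ofNat (nat_lit 422999), .negSucc (nat_lit 54331), .ofNat (nat_lit 444341), .negSucc (nat_lit 66879), .ofNat (nat_lit 420185), .negSucc (nat_lit 45522), .ofNat (nat_lit 441542)⟩⟩, []⟩
noncomputable def p032_l30 : Lf2 := ⟨nat_lit 0, nat_lit 10, [nat_lit 0, nat_lit 5, nat_lit 5, nat_lit 20], true, nat_lit 0, nat_lit 260, nat_lit 0, nat_lit 296, ⟨nat_lit 0, nat_lit 1000, nat_lit 0, nat_lit 5, nat_lit 200, nat_lit 1000, nat_lit 86, nat_lit 0, nat_lit 0, nat_lit 0, nat_lit 0, nat_lit 0, nat_lit 0, nat_lit 0, nat_lit 0, nat_lit 5000000, false, false⟩,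
 nat_lit 0, nat_lit 447527, nat_lit 0, nat_lit 0, nat_lit 272554, nat_lit 0, nat_lit 0, nat_lit 20000, nat_lit 0, nat_lit 0, nat_lit 0, nat_lit 0, nat_lit 0, nat_lit 0, nat_lit 0, nat_lit 400000, nat_lit 0, nat_lit 0, [(nat_lit 9, [(nat_lit 1, nat_lit 1000)])],
 ⟨p032_k0, nat_lit 0, nat_lit 0, nat_lit 0, nat_lit 0, nat_lit 71866, [nat_lit 322702720000, nat_lit 402968400001, nat_lit 562997199999], [], [nat_lit 1153906439186, nat_lit 1080734139360, nat_lit 770496463906, nat_lit 776651850208, nat_lit 563597841674, nat_lit 567768711842, nat_lit 512842041646, nat_lit 511697040848], nat_lit 1271250, nat_lit 1271250, nat_lit 780000, nat_lit 1762500, nat_lit 0, nat_lit 1836250, [nat_lit 1100000, nat_lit 1442500, nat_lit 1271250], [nat_lit 11, nat_lit 40, nat_lit 20, nat_lit 80]⟩, C1.Rw.none,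
 ⟨nat_lit 5477, nat_lit 5701, ⟨.ofNat (nat_lit 378573), .ofNat (nat_lit 608724), .ofNat (nat_lit 389244), .ofNat (nat_lit 619394), .ofNat (nat_lit 382168), .ofNat (nat_lit 606960), .ofNat (nat_lit 392847), .ofNat (nat_lit 617638)⟩, ⟨.negSucc (nat_lit 75673), .ofNat (nat_lit 422999), .negSucc (nat_lit 54331), .ofNat (nat_lit 444341), .negSucc (nat_lit 66879), .ofNat (nat_lit 420185), .negSucc (nat_lit 45522), .ofNat (nat_lit 441542)⟩⟩, []⟩
noncomputable def p032_l31 : Lf2 := ⟨nat_lit 0, nat_lit 10, [nat_lit 0, nat_lit 5, nat_lit 5, nat_lit 20], true, nat_lit 0, nat_lit 260, nat_lit 0, nat_lit 296, ⟨nat_lit 0, nat_lit 1000, nat_lit 0, nat_lit 5, nat_lit 163, nat_lit 1000, nat_lit 86, nat_lit 0, nat_lit 0, nat_lit 0, nat_lit 0, nat_lit 0, nat_lit 0, nat_lit 0, nat_lit 0, nat_lit 5000000, false, false⟩,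
 nat_lit 0, nat_lit 1000000, nat_lit 0, nat_lit 1000000, nat_lit 191133, nat_lit 0, nat_lit 25105, nat_lit 20000, nat_lit 0, nat_lit 0, nat_lit 0, nat_lit 0, nat_lit 0, nat_lit 0, nat_lit 0, nat_lit 400000, nat_lit 0, nat_lit 0, [(nat_lit 9, [(nat_lit 1, nat_lit 1000)])],
 ⟨p032_k0, nat_lit 0, nat_lit 0, nat_lit 303, nat_lit 0, nat_lit 71866, [nat_lit 322702720000, nat_lit 402968400001, nat_lit 562997199999], [], [nat_lit 1346408927310, nat_lit 1293957139105, nat_lit 799121167663, nat_lit 804649481798, nat_lit 766013507335, nat_lit 770895947815, nat_lit 764226437465, nat_lit 723827515353], nat_lit 1271250, nat_lit 1271250, nat_lit 134400, nat_lit 1708500, nat_lit 0, nat_lit 1836250, [nat_lit 1100000, nat_lit 1442500, nat_lit 1271250], [nat_lit 11, nat_lit 40, nat_lit 20, nat_lit 80, nat_lit 1, nat_lit 428, nat_lit 200, nat_lit 13]⟩, C1.Rw.none,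
 ⟨nat_lit 5477, nat_lit 5701, ⟨.ofNat (nat_lit 194448), .ofNat (nat_lit 608724), .ofNat (nat_lit 205119), .ofNat (nat_lit 619394), .ofNat (nat_lit 202329), .ofNat (nat_lit 606960), .ofNat (nat_lit 213007), .ofNat (nat_lit 617638)⟩, ⟨.negSucc (nat_lit 75673), .ofNat (nat_lit 422999), .negSucc (nat_lit 54331), .ofNat (nat_lit 444341), .negSucc (nat_lit 66879), .ofNat (nat_lit 420185), .negSucc (nat_lit 45522), .ofNat (nat_lit 441542)⟩⟩, [⟨nat_lit 0, nat_lit 100, nat_lit 94, nat_lit 59, nat_lit 1141132050⟩]⟩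
noncomputable def p032_l32 : Lf2 := ⟨nat_lit 0, nat_lit 10, [nat_lit 0, nat_lit 5, nat_lit 5, nat_lit 20], false, nat_lit 0, nat_lit 260, nat_lit 0, nat_lit 296, ⟨nat_lit 0, nat_lit 1000, nat_lit 0, nat_lit 5, nat_lit 163, nat_lit 1000, nat_lit 86, nat_lit 0, nat_lit 0, nat_lit 0, nat_lit 0, nat_lit 0, nat_lit 0, nat_lit 0, nat_lit 0, nat_lit 5000000, false, false⟩,
 nat_lit 0, nat_lit 0, nat_lit 0, nat_lit 1000000, nat_lit 0, nat_lit 422580, nat_lit 0, nat_lit 0, nat_lit 0, nat_lit 60000, nat_lit 20000, nat_lit 0, nat_lit 0, nat_lit 0, nat_lit 0, nat_lit 400000, nat_lit 0, nat_lit 0, [(nat_lit 9, [(nat_lit 1, nat_lit 1000)])],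
 ⟨p032_k0, nat_lit 0, nat_lit 0, nat_lit 303, nat_lit 0, nat_lit 71866, [nat_lit 2702720000, nat_lit 2968400001, nat_lit 2997199999], [], [nat_lit 33505512202, nat_lit 33799712001, nat_lit 38091077001, nat_lit 38345076001, nat_lit 38895122301, nat_lit 39142616201, nat_lit 42910422501, nat_lit 43128630001], nat_lit 1271250, nat_lit 1271250, nat_lit 134400, nat_lit 1708500, nat_lit 0, nat_lit 1836250, [nat_lit 1100000, nat_lit 1442500, nat_lit 1271250], [nat_lit 11, nat_lit 40, nat_lit 20, nat_lit 80, nat_lit 1, nat_lit 428, nat_lit 200, nat_lit 13]⟩, ⟨p032_k6, nat_lit 0, nat_lit 0, nat_lit 345, nat_lit 0, nat_lit 0, [nat_lit 400000000000, nat_lit 480000000000, nat_lit 640000000000], [], [nat_lit 801861190625, nat_lit 818245800449, nat_lit 472362971740, nat_lit 480744000880, nat_lit 431692199124, nat_lit 436071818244, nat_lit 55526848133, nat_lit 54884272984], nat_lit 0, nat_lit 0, nat_lit 0, nat_lit 0, nat_lit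 0, nat_lit 0, [], [nat_lit 53, nat_lit 40, nat_lit 20, nat_lit 80, nat_lit 14, nat_lit 428, nat_lit 200, nat_lit 11]⟩,
 ⟨nat_lit 5477, nat_lit 5701, ⟨.ofNat (nat_lit 194448), .ofNat (nat_lit 608724), .ofNat (nat_lit 205119), .ofNat (nat_lit 619394), .ofNat (nat_lit 202329), .ofNat (nat_lit 606960), .ofNat (nat_lit 213007), .ofNat (nat_lit 617638)⟩, ⟨.negSucc (nat_lit 75673), .ofNat (nat_lit 422999), .negSucc (nat_lit 54331), .ofNat (nat_lit 444341), .negSucc (nat_lit 66879), .ofNat (nat_lit 420185), .negSucc (nat_lit 45522), .ofNat (nat_lit 441542)⟩⟩, [⟨nat_lit 0, nat_lit 100, nat_lit 94, nat_lit 59, nat_lit 10638297872⟩, ⟨nat_lit 19, nat_lit 100, nat_lit 94, nat_lit 54, nat_lit 4906433692⟩, ⟨nat_lit 10, nat_lit 100, nat_lit 10, nat_lit 97, nat_lit 1352511320⟩, ⟨nat_lit 11, nat_lit 100, nat_lit 9, nat_lit 97, nat_lit 294998768⟩]⟩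
noncomputable def p032_l33 : Lf2 := ⟨nat_lit 0, nat_lit 10, [nat_lit 0, nat_lit 5, nat_lit 5, nat_lit 20], false, nat_lit 0, nat_lit 288, nat_lit 0, nat_lit 320, ⟨nat_lit 1000, nat_lit 0, nat_lit 0, nat_lit 0, nat_lit 0, nat_lit 0, nat_lit 0, nat_lit 0, nat_lit 0, nat_lit 0, nat_lit 0, nat_lit 0, nat_lit 0, nat_lit 0, nat_lit 0, nat_lit 0, false, false⟩,
 nat_lit 0, nat_lit 16770, nat_lit 0, nat_lit 0, nat_lit 8878, nat_lit 12060, nat_lit 951, nat_lit 0, nat_lit 0, nat_lit 0, nat_lit 0, nat_lit 0, nat_lit 0, nat_lit 0, nat_lit 0, nat_lit 0, nat_lit 0, nat_lit 0, [],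
 ⟨p032_k4, nat_lit 0, nat_lit 0, nat_lit 279, nat_lit 0, nat_lit 87591, [nat_lit 4688000000, nat_lit 7968000001, nat_lit 11872000000], [], [nat_lit 31283296765, nat_lit 32935778917, nat_lit 41103227908, nat_lit 43249228848, nat_lit 27215513537, nat_lit 28086259313, nat_lit 34099008106, nat_lit 35405899428], nat_lit 1271250, nat_lit 1271250, nat_lit 1271250, nat_lit 1271250, nat_lit 0, nat_lit 2034000, [nat_lit 1100000, nat_lit 1785000, nat_lit 1271250], [nat_lit 21, nat_lit 40, nat_lit 20, nat_lit 80, nat_lit 14, nat_lit 483, nat_lit 250, nat_lit 12]⟩, ⟨p032_k5, nat_lit 0, nat_lit 0, nat_lit 271, nat_lit 0, nat_lit 0, [nat_lit 6250000000, nat_lit 9842000000, nat_lit 11872000000], [], [nat_lit 33682058240, nat_lit 35759690160, nat_lit 50532983440, nat_lit 50974900160, nat_lit 30447705280, nat_lit 31140130720, nat_lit 39346878880, nat_lit 39104007840], nat_lit 0, nat_lit 0, nat_lit 0, nat_lit 0, nat_lit 0, nat_lit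 0, [], [nat_lit 46, nat_lit 40, nat_lit 20, nat_lit 80, nat_lit 41, nat_lit 483, nat_lit 250, nat_lit 12]⟩,
 zbF0, [⟨nat_lit 4, nat_lit 100, nat_lit 98, nat_lit 54, nat_lit 78470035⟩]⟩
noncomputable def p032_l34 : Lf2 := ⟨nat_lit 1, nat_lit 10, [nat_lit 0, nat_lit 5, nat_lit 5, nat_lit 20], false, nat_lit 0, nat_lit 288, nat_lit 0, nat_lit 320, zbN0,
 nat_lit 0, nat_lit 0, nat_lit 0, nat_lit 0, nat_lit 0, nat_lit 0, nat_lit 0, nat_lit 0, nat_lit 0, nat_lit 0, nat_lit 0, nat_lit 0, nat_lit 0, nat_lit 0, nat_lit 0, nat_lit 0, nat_lit 0, nat_lit 0, [],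
 C1.Rw.none, C1.Rw.none,
 zbF0, []⟩
noncomputable def p032_l35 : Lf2 := ⟨nat_lit 1, nat_lit 10, [nat_lit 0, nat_lit 5, nat_lit 5, nat_lit 20], false, nat_lit 0, nat_lit 268, nat_lit 0, nat_lit 320, zbN0,
 nat_lit 0, nat_lit 0, nat_lit 0, nat_lit 0, nat_lit 0, nat_lit 0, nat_lit 0, nat_lit 0, nat_lit 0, nat_lit 0, nat_lit 0, nat_lit 0, nat_lit 0, nat_lit 0, nat_lit 0, nat_lit 0, nat_lit 0, nat_lit 0, [],
 C1.Rw.none, C1.Rw.none,
 zbF0, []⟩
noncomputable def p032_l36 : Lf2 := ⟨nat_lit 1, nat_lit 10, [nat_lit 0, nat_lit 5, nat_lit 5, nat_lit 20], false, nat_lit 0, nat_lit 260, nat_lit 0, nat_lit 320, zbN0,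
 nat_lit 0, nat_lit 0, nat_lit 0, nat_lit 0, nat_lit 0, nat_lit 0, nat_lit 0, nat_lit 0, nat_lit 0, nat_lit 0, nat_lit 0, nat_lit 0, nat_lit 0, nat_lit 0, nat_lit 0, nat_lit 0, nat_lit 0, nat_lit 0, [],
 C1.Rw.none, C1.Rw.none,
 zbF0, []⟩
noncomputable def p032_l37 : Lf2 := ⟨nat_lit 0, nat_lit 10, [nat_lit 0, nat_lit 5, nat_lit 5, nat_lit 20], false, nat_lit 0, nat_lit 260, nat_lit 0, nat_lit 304, ⟨nat_lit 0, nat_lit 1000, nat_lit 0, nat_lit 5, nat_lit 160, nat_lit 1000, nat_lit 86, nat_lit 0, nat_lit 0, nat_lit 0, nat_lit 0, nat_lit 0, nat_lit 0, nat_lit 0, nat_lit 0, nat_lit 5000000, false, false⟩,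
 nat_lit 0, nat_lit 4745, nat_lit 0, nat_lit 0, nat_lit 2889, nat_lit 0, nat_lit 0, nat_lit 0, nat_lit 0, nat_lit 0, nat_lit 0, nat_lit 0, nat_lit 0, nat_lit 0, nat_lit 0, nat_lit 400000, nat_lit 0, nat_lit 0, [(nat_lit 9, [(nat_lit 1, nat_lit 1000)])],
 ⟨p032_k0, nat_lit 0, nat_lit 0, nat_lit 295, nat_lit 0, nat_lit 40645, [nat_lit 2702720000, nat_lit 2968400001, nat_lit 2997199999], [], [nat_lit 35539695991, nat_lit 34745631229, nat_lit 29964262721, nat_lit 30277896128, nat_lit 30164830368, nat_lit 30464551823, nat_lit 31986823879, nat_lit 32232073141], nat_lit 1271250, nat_lit 1271250, nat_lit 111251, nat_lit 1706250, nat_lit 0, nat_lit 1836250, [nat_lit 1100000, nat_lit 1442500, nat_lit 1271250], [nat_lit 11, nat_lit 40, nat_lit 20, nat_lit 80, nat_lit 1, nat_lit 428, nat_lit 200, nat_lit 13]⟩, ⟨p032_k7, nat_lit 0, nat_lit 0, nat_lit 370, nat_lit 0, nat_lit 54423, [nat_lit 0, nat_lit 0, nat_lit 0], [],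 [nat_lit 0, nat_lit 0, nat_lit 0, nat_lit 0, nat_lit 0, nat_lit 0, nat_lit 0, nat_lit 0], nat_lit 1271250, nat_lit 1271250, nat_lit 111251, nat_lit 1706250, nat_lit 0, nat_lit 2147000, [nat_lit 1412500, nat_lit 1271250, nat_lit 1271250], [nat_lit 53, nat_lit 40, nat_lit 20, nat_lit 80, nat_lit 14, nat_lit 428, nat_lit 200, nat_lit 11]⟩,
 ⟨nat_lit 5477, nat_lit 5701, ⟨.ofNat (nat_lit 176105), .ofNat (nat_lit 598054), .ofNat (nat_lit 197447), .ofNat (nat_lit 619394), .ofNat (nat_lit 184157), .ofNat (nat_lit 596283), .ofNat (nat_lit 205514), .ofNat (nat_lit 617638)⟩, ⟨.negSucc (nat_lit 75673), .ofNat (nat_lit 422999), .negSucc (nat_lit 54331), .ofNat (nat_lit 444341), .negSucc (nat_lit 66879), .ofNat (nat_lit 420185), .negSucc (nat_lit 45522), .ofNat (nat_lit 441542)⟩⟩, []⟩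
noncomputable def p032_l38 : Lf2 := ⟨nat_lit 0, nat_lit 10, [nat_lit 0, nat_lit 5, nat_lit 5, nat_lit 20], false, nat_lit 0, nat_lit 288, nat_lit 0, nat_lit 320, ⟨nat_lit 928, nat_lit 72, nat_lit 0, nat_lit 6, nat_lit 303, nat_lit 72, nat_lit 98, nat_lit 0, nat_lit 0, nat_lit 0, nat_lit 0, nat_lit 0, nat_lit 0, nat_lit 0, nat_lit 0, nat_lit 5000000, true, true⟩,
 nat_lit 18935, nat_lit 0, nat_lit 0, nat_lit 0, nat_lit 9567, nat_lit 8115, nat_lit 557, nat_lit 0, nat_lit 0, nat_lit 0, nat_lit 0, nat_lit 0, nat_lit 0, nat_lit 0, nat_lit 0, nat_lit 18000, nat_lit 0, nat_lit 0, [(nat_lit 6, [(nat_lit 0, nat_lit 72)]), (nat_lit 9, [(nat_lit 0, nat_lit 72)])],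
 ⟨p032_k4, nat_lit 0, nat_lit 0, nat_lit 266, nat_lit 0, nat_lit 48076, [nat_lit 4575680000, nat_lit 7649280000, nat_lit 11289548800], [], [nat_lit 32397790696, nat_lit 34099800924, nat_lit 43911374412, nat_lit 45052077272, nat_lit 27592081853, nat_lit 28464893583, nat_lit 34993642320, nat_lit 36147085941], nat_lit 1271250, nat_lit 1271250, nat_lit 1271250, nat_lit 1271250, nat_lit 0, nat_lit 2034000, [nat_lit 1100000, nat_lit 1785000, nat_lit 1271250], [nat_lit 21, nat_lit 40, nat_lit 20, nat_lit 80, nat_lit 14, nat_lit 483, nat_lit 250, nat_lit 12]⟩, ⟨p032_k5, nat_lit 0, nat_lit 0, nat_lit 295, nat_lit 0, nat_lit 62354, [nat_lit 5800000000, nat_lit 9133376000, nat_lit 11017216000], [], [nat_lit 31080052596, nat_lit 32404635660, nat_lit 43348661092, nat_lit 43886097440, nat_lit 32326839176, nat_lit 31046450032, nat_lit 37369072960, nat_lit 37408849224], nat_lit 1271250, nat_lit 1271250, nat_lit 1271250, nat_lit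 1271250, nat_lit 0, nat_lit 2260000, [nat_lit 1412500, nat_lit 1271250, nat_lit 1271250], [nat_lit 46, nat_lit 40, nat_lit 20, nat_lit 80, nat_lit 41, nat_lit 483, nat_lit 250, nat_lit 12]⟩,
 ⟨nat_lit 5477, nat_lit 6325, ⟨.ofNat (nat_lit 582178), .ofNat (nat_lit 910890), .ofNat (nat_lit 624852), .ofNat (nat_lit 953563), .ofNat (nat_lit 574846), .ofNat (nat_lit 874234), .ofNat (nat_lit 617499), .ofNat (nat_lit 916886)⟩, ⟨.negSucc (nat_lit 103633), .ofNat (nat_lit 488669), .negSucc (nat_lit 82265), .ofNat (nat_lit 510037), .negSucc (nat_lit 66879), .ofNat (nat_lit 472638), .negSucc (nat_lit 45522), .ofNat (nat_lit 493995)⟩⟩, [⟨nat_lit 16, nat_lit 98, nat_lit 100, nat_lit 54, nat_lit 27885581⟩, ⟨nat_lit 7, nat_lit 90, nat_lit 100, nat_lit 53, nat_lit 134046030⟩]⟩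
noncomputable def b_VL_600_500_5_35 : St := ⟨true, nat_lit 1, nat_lit 2, nat_lit 2, nat_lit 40, nat_lit 240, nat_lit 280, nat_lit 200, nat_lit 240, nat_lit 4, nat_lit 400, nat_lit 20, nat_lit 40, nat_lit 0, nat_lit 288, nat_lit 0, nat_lit 320, nat_lit 40, nat_lit 48, nat_lit 0, nat_lit 0, nat_lit 0, nat_lit 0⟩
theorem d_VL_600_500_5_35 (h : EB TB.env) : Dead b_VL_600_500_5_35 := chkB_sound0 h (T :=
(.st (nat_lit 1)
(.spl (nat_lit 2) (nat_lit 240)
(.spl (nat_lit 0) (nat_lit 260)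
(.leaf p032_l24)
(.trZ (nat_lit 0) (nat_lit 100) (nat_lit 95) (nat_lit 30) (nat_lit 8) (.trX (nat_lit 16) (nat_lit 100) (nat_lit 99) (nat_lit 63) (nat_lit 268) (.spl (nat_lit 0) (nat_lit 270)
(.leaf p032_l25)
(.trZ (nat_lit 0) (nat_lit 100) (nat_lit 94) (nat_lit 35) (nat_lit 12) (.trX (nat_lit 16) (nat_lit 98) (nat_lit 100) (nat_lit 63) (nat_lit 260) (.spl (nat_lit 1) (nat_lit 220)
(.leaf p032_l26)
(.trZ (nat_lit 0) (nat_lit 100) (nat_lit 94) (nat_lit 44) (nat_lit 20) (.trX (nat_lit 19) (nat_lit 100) (nat_lit 86) (nat_lit 60) (nat_lit 304) (.spl (nat_lit 1) (nat_lit 230)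
(.leaf p032_l27)
(.trZ (nat_lit 0) (nat_lit 100) (nat_lit 95) (nat_lit 49) (nat_lit 24) (.trX (nat_lit 19) (nat_lit 100) (nat_lit 89) (nat_lit 61) (nat_lit 296) (.spl (nat_lit 7) (nat_lit 600)
(.leaf p032_l28)
(.spl (nat_lit 8) (nat_lit 800)
(.spl (nat_lit 7) (nat_lit 900)
(.spl (nat_lit 2) (nat_lit 120)
(.leaf p032_l29)
(.leaf p032_l30))
(.leaf p032_l31))
(.leaf p032_l32)))))))))))))))
(.leaf p032_l33))
(.spl (nat_lit 2) (nat_lit 240)
(.spl (nat_lit 0) (nat_lit 260)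
(.leaf p032_l34)
(.trZ (nat_lit 0) (nat_lit 100) (nat_lit 95) (nat_lit 30) (nat_lit 8) (.trX (nat_lit 16) (nat_lit 100) (nat_lit 99) (nat_lit 63) (nat_lit 268) (.spl (nat_lit 0) (nat_lit 270)
(.leaf p032_l35)
(.trZ (nat_lit 0) (nat_lit 100) (nat_lit 94) (nat_lit 35) (nat_lit 12) (.trX (nat_lit 16) (nat_lit 98) (nat_lit 100) (nat_lit 63) (nat_lit 260) (.spl (nat_lit 1) (nat_lit 220)
(.leaf p032_l36)
(.trZ (nat_lit 0) (nat_lit 100) (nat_lit 94) (nat_lit 44) (nat_lit 20) (.trX (nat_lit 19) (nat_lit 100) (nat_lit 86) (nat_lit 60) (nat_lit 304) (.leaf p032_l37))))))))))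
(.leaf p032_l38)))) (by decide +kernel)
noncomputable def p032_l39 : Lf2 := ⟨nat_lit 0, nat_lit 8, [nat_lit 50, nat_lit 5, nat_lit 5, nat_lit 20], true, nat_lit 0, nat_lit 80, nat_lit 0, nat_lit 288, ⟨nat_lit 0, nat_lit 0, nat_lit 1000, nat_lit 6, nat_lit 112, nat_lit 0, nat_lit 15, nat_lit 0, nat_lit 67, nat_lit 213, nat_lit 117600, nat_lit 299, nat_lit 62139078, nat_lit 0, nat_lit 0, nat_lit 1300937, false, false⟩,
 nat_lit 0, nat_lit 0, nat_lit 0, nat_lit 3421, nat_lit 4096, nat_lit 0, nat_lit 0, nat_lit 0, nat_lit 0, nat_lit 0, nat_lit 0, nat_lit 0, nat_lit 0, nat_lit 8370571145077, nat_lit 70, nat_lit 409600, nat_lit 0, nat_lit 0, [(nat_lit 6, [(nat_lit 5, nat_lit 984), (nat_lit 6, nat_lit 16)])],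
 ⟨p032_k8, nat_lit 0, nat_lit 0, nat_lit 196, nat_lit 0, nat_lit 0, [nat_lit 2550246401, nat_lit 256000], [], [nat_lit 15212286580, nat_lit 15883879084, nat_lit 14229661985, nat_lit 14759158225, nat_lit 13299031675, nat_lit 13851772979, nat_lit 12721761473, nat_lit 13222835425], nat_lit 0, nat_lit 0, nat_lit 0, nat_lit 0, nat_lit 0, nat_lit 0, [], [nat_lit 70, nat_lit 40, nat_lit 20, nat_lit 80, nat_lit 13, nat_lit 345, nat_lit 125, nat_lit 10]⟩, C1.Rw.none,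
 ⟨nat_lit 6123, nat_lit 6325, ⟨.ofNat (nat_lit 164319), .ofNat (nat_lit 378206), .ofNat (nat_lit 175003), .ofNat (nat_lit 388890), .ofNat (nat_lit 172944), .ofNat (nat_lit 381933), .ofNat (nat_lit 183618), .ofNat (nat_lit 392607)⟩, ⟨.negSucc (nat_lit 103633), .ofNat (nat_lit 60895), .negSucc (nat_lit 82265), .ofNat (nat_lit 82263), .negSucc (nat_lit 94037), .ofNat (nat_lit 66723), .negSucc (nat_lit 72689), .ofNat (nat_lit 88071)⟩⟩, [⟨nat_lit 0, nat_lit 100, nat_lit 100, nat_lit 50, nat_lit 147705554⟩]⟩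
noncomputable def p032_l40 : Lf2 := ⟨nat_lit 1, nat_lit 10, [nat_lit 0, nat_lit 5, nat_lit 5, nat_lit 20], false, nat_lit 0, nat_lit 80, nat_lit 0, nat_lit 288, zbN0,
 nat_lit 0, nat_lit 0, nat_lit 0, nat_lit 0, nat_lit 0, nat_lit 0, nat_lit 0, nat_lit 0, nat_lit 0, nat_lit 0, nat_lit 0, nat_lit 0, nat_lit 0, nat_lit 0, nat_lit 0, nat_lit 0, nat_lit 0, nat_lit 0, [],
 C1.Rw.none, C1.Rw.none,
 zbF0, []⟩
noncomputable def p032_l41 : Lf2 := ⟨nat_lit 0, nat_lit 10, [nat_lit 0, nat_lit 5, nat_lit 5, nat_lit 20], true, nat_lit 0, nat_lit 80, nat_lit 0, nat_lit 288, ⟨nat_lit 0, nat_lit 0, nat_lit 1000, nat_lit 6, nat_lit 118, nat_lit 0, nat_lit 16, nat_lit 0, nat_lit 0, nat_lit 215, nat_lit 132017, nat_lit 304, nat_lit 61632035, nat_lit 0, nat_lit 0, nat_lit 1395294, false, false⟩,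
 nat_lit 0, nat_lit 0, nat_lit 0, nat_lit 3432, nat_lit 4075, nat_lit 0, nat_lit 0, nat_lit 0, nat_lit 0, nat_lit 0, nat_lit 0, nat_lit 0, nat_lit 0, nat_lit 12871890419023, nat_lit 69, nat_lit 400000, nat_lit 0, nat_lit 0, [(nat_lit 6, [(nat_lit 5, nat_lit 1000)])],
 ⟨p032_k9, nat_lit 0, nat_lit 0, nat_lit 196, nat_lit 0, nat_lit 0, [nat_lit 2521600001, nat_lit 7200000], [], [nat_lit 15640083150, nat_lit 16310096200, nat_lit 14804298176, nat_lit 15332669551, nat_lit 13727994351, nat_lit 14278892301, nat_lit 13282671176, nat_lit 13782706951], nat_lit 0, nat_lit 0, nat_lit 0, nat_lit 0, nat_lit 0, nat_lit 0, [], [nat_lit 70, nat_lit 40, nat_lit 20, nat_lit 80, nat_lit 13, nat_lit 345, nat_lit 125, nat_lit 10]⟩, C1.Rw.none,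
 ⟨nat_lit 5916, nat_lit 6124, ⟨.ofNat (nat_lit 180982), .ofNat (nat_lit 381933), .ofNat (nat_lit 202330), .ofNat (nat_lit 403281), .ofNat (nat_lit 189276), .ofNat (nat_lit 385610), .ofNat (nat_lit 210615), .ofNat (nat_lit 406949)⟩, ⟨.negSucc (nat_lit 94037), .ofNat (nat_lit 66723), .negSucc (nat_lit 72689), .ofNat (nat_lit 88071), .negSucc (nat_lit 84722), .ofNat (nat_lit 72344), .negSucc (nat_lit 63383), .ofNat (nat_lit 93684)⟩⟩, [⟨nat_lit 0, nat_lit 100, nat_lit 100, nat_lit 60, nat_lit 140042553⟩]⟩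
noncomputable def p032_l42 : Lf2 := ⟨nat_lit 0, nat_lit 10, [nat_lit 0, nat_lit 5, nat_lit 5, nat_lit 20], true, nat_lit 0, nat_lit 80, nat_lit 0, nat_lit 288, ⟨nat_lit 0, nat_lit 0, nat_lit 1000, nat_lit 6, nat_lit 127, nat_lit 0, nat_lit 18, nat_lit 85, nat_lit 150, nat_lit 218, nat_lit 153600, nat_lit 311, nat_lit 60829463, nat_lit 0, nat_lit 0, nat_lit 1536817, false, false⟩,
 nat_lit 0, nat_lit 0, nat_lit 0, nat_lit 1339, nat_lit 4210, nat_lit 0, nat_lit 0, nat_lit 0, nat_lit 0, nat_lit 0, nat_lit 0, nat_lit 0, nat_lit 0, nat_lit 9133651514234, nat_lit 130, nat_lit 644200, nat_lit 0, nat_lit 0, [(nat_lit 9, [(nat_lit 5, nat_lit 593), (nat_lit 6, nat_lit 407)])],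
 ⟨p032_k10, nat_lit 0, nat_lit 0, nat_lit 202, nat_lit 0, nat_lit 0, [nat_lit 3813644401, nat_lit 20527200], [], [nat_lit 14566751294, nat_lit 15925009177, nat_lit 13814428741, nat_lit 14885634041, nat_lit 12651671209, nat_lit 13766246186, nat_lit 12169435861, nat_lit 13364222682], nat_lit 0, nat_lit 0, nat_lit 0, nat_lit 0, nat_lit 0, nat_lit 0, [], [nat_lit 70, nat_lit 40, nat_lit 20, nat_lit 80, nat_lit 13, nat_lit 345, nat_lit 125, nat_lit 10]⟩, C1.Rw.none,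
 ⟨nat_lit 5477, nat_lit 5917, ⟨.ofNat (nat_lit 197129), .ofNat (nat_lit 385610), .ofNat (nat_lit 239808), .ofNat (nat_lit 428288), .ofNat (nat_lit 213007), .ofNat (nat_lit 392847), .ofNat (nat_lit 255721), .ofNat (nat_lit 435561)⟩, ⟨.negSucc (nat_lit 84722), .ofNat (nat_lit 72344), .negSucc (nat_lit 63383), .ofNat (nat_lit 93684), .negSucc (nat_lit 66879), .ofNat (nat_lit 82986), .negSucc (nat_lit 45522), .ofNat (nat_lit 104343)⟩⟩, [⟨nat_lit 0, nat_lit 100, nat_lit 98, nat_lit 64, nat_lit 148756908⟩]⟩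
noncomputable def p032_l43 : Lf2 := ⟨nat_lit 0, nat_lit 10, [nat_lit 0, nat_lit 5, nat_lit 5, nat_lit 20], true, nat_lit 80, nat_lit 160, nat_lit 0, nat_lit 288, ⟨nat_lit 0, nat_lit 0, nat_lit 1000, nat_lit 6, nat_lit 122, nat_lit 1000, nat_lit 64, nat_lit 1000, nat_lit 38400, nat_lit 263, nat_lit 138017, nat_lit 306, nat_lit 58733276, nat_lit 0, nat_lit 0, nat_lit 2346411, false, false⟩,
 nat_lit 0, nat_lit 0, nat_lit 0, nat_lit 2428, nat_lit 5854, nat_lit 0, nat_lit 861, nat_lit 0, nat_lit 0, nat_lit 0, nat_lit 0, nat_lit 0, nat_lit 0, nat_lit 10725927960545, nat_lit 62, nat_lit 345700, nat_lit 0, nat_lit 0, [(nat_lit 6, [(nat_lit 4, nat_lit 362), (nat_lit 5, nat_lit 638)]), (nat_lit 9, [(nat_lit 4, nat_lit 362), (nat_lit 5, nat_lit 638)])],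
 ⟨p032_k4, nat_lit 0, nat_lit 0, nat_lit 210, nat_lit 0, nat_lit 0, [nat_lit 3088332800, nat_lit 596742400, nat_lit 227342400], [], [nat_lit 10742462648, nat_lit 13422242443, nat_lit 8596682400, nat_lit 11226944528, nat_lit 10963426247, nat_lit 14008962610, nat_lit 9534610080, nat_lit 11862412032], nat_lit 0, nat_lit 0, nat_lit 0, nat_lit 0, nat_lit 0, nat_lit 0, [], [nat_lit 21, nat_lit 40, nat_lit 20, nat_lit 80, nat_lit 14, nat_lit 373, nat_lit 150, nat_lit 10]⟩, C1.Rw.none,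
 ⟨nat_lit 5477, nat_lit 6325, ⟨.ofNat (nat_lit 164319), .ofNat (nat_lit 378206), .ofNat (nat_lit 207055), .ofNat (nat_lit 420942), .ofNat (nat_lit 198021), .ofNat (nat_lit 392847), .ofNat (nat_lit 240735), .ofNat (nat_lit 435561)⟩, ⟨.ofNat (nat_lit 60895), .ofNat (nat_lit 225423), .ofNat (nat_lit 82263), .ofNat (nat_lit 246791), .ofNat (nat_lit 82986), .ofNat (nat_lit 232852), .ofNat (nat_lit 104343), .ofNat (nat_lit 254209)⟩⟩, [⟨nat_lit 0, nat_lit 100, nat_lit 100, nat_lit 60, nat_lit 210022927⟩]⟩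
noncomputable def p032_l44 : Lf2 := ⟨nat_lit 0, nat_lit 8, [nat_lit 50, nat_lit 5, nat_lit 5, nat_lit 20], true, nat_lit 160, nat_lit 240, nat_lit 0, nat_lit 288, ⟨nat_lit 0, nat_lit 0, nat_lit 1000, nat_lit 6, nat_lit 112, nat_lit 1000, nat_lit 127, nat_lit 1000, nat_lit 153600, nat_lit 311, nat_lit 117600, nat_lit 299, nat_lit 54996109, nat_lit 0, nat_lit 0, nat_lit 3158021, false, false⟩,
 nat_lit 0, nat_lit 0, nat_lit 0, nat_lit 3359, nat_lit 4288, nat_lit 0, nat_lit 0, nat_lit 0, nat_lit 0, nat_lit 0, nat_lit 0, nat_lit 0, nat_lit 0, nat_lit 5517853623087, nat_lit 69, nat_lit 400000, nat_lit 0, nat_lit 0, [(nat_lit 6, [(nat_lit 5, nat_lit 1000)])],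
 ⟨p032_k8, nat_lit 0, nat_lit 0, nat_lit 34, nat_lit 0, nat_lit 0, [nat_lit 2521600001, nat_lit 7200000], [], [nat_lit 10281750785, nat_lit 11066060773, nat_lit 9822744737, nat_lit 10531196489, nat_lit 14343275298, nat_lit 15004456926, nat_lit 13560548833, nat_lit 14159819313], nat_lit 0, nat_lit 0, nat_lit 0, nat_lit 0, nat_lit 0, nat_lit 0, [], [nat_lit 70, nat_lit 40, nat_lit 20, nat_lit 80, nat_lit 13, nat_lit 401, nat_lit 175, nat_lit 11]⟩, C1.Rw.none,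
 ⟨nat_lit 6123, nat_lit 6325, ⟨.ofNat (nat_lit 164319), .ofNat (nat_lit 378206), .ofNat (nat_lit 175003), .ofNat (nat_lit 388890), .ofNat (nat_lit 172944), .ofNat (nat_lit 381933), .ofNat (nat_lit 183618), .ofNat (nat_lit 392607)⟩, ⟨.ofNat (nat_lit 225423), .ofNat (nat_lit 389952), .ofNat (nat_lit 246791), .ofNat (nat_lit 411320), .ofNat (nat_lit 227485), .ofNat (nat_lit 388246), .ofNat (nat_lit 248833), .ofNat (nat_lit 409594)⟩⟩, [⟨nat_lit 0, nat_lit 100, nat_lit 100, nat_lit 50, nat_lit 158100461⟩]⟩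
noncomputable def p032_l45 : Lf2 := ⟨nat_lit 0, nat_lit 2, [nat_lit 10, nat_lit 5, nat_lit 5, nat_lit 20], true, nat_lit 240, nat_lit 288, nat_lit 0, nat_lit 288, ⟨nat_lit 0, nat_lit 0, nat_lit 1000, nat_lit 6, nat_lit 78, nat_lit 1000, nat_lit 179, nat_lit 1000, nat_lit 29345, nat_lit 255, nat_lit 58017, nat_lit 274, nat_lit 52595515, nat_lit 0, nat_lit 0, nat_lit 3338992, false, false⟩,
 nat_lit 0, nat_lit 0, nat_lit 0, nat_lit 4434, nat_lit 3679, nat_lit 0, nat_lit 0, nat_lit 0, nat_lit 0, nat_lit 0, nat_lit 0, nat_lit 0, nat_lit 0, nat_lit 14561459046739, nat_lit 65, nat_lit 765400, nat_lit 0, nat_lit 0, [(nat_lit 6, [(nat_lit 5, nat_lit 391), (nat_lit 6, nat_lit 609)])],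
 ⟨p032_k11, nat_lit 0, nat_lit 0, nat_lit 79, nat_lit 0, nat_lit 0, [nat_lit 2189315200, nat_lit 1196053201, nat_lit 176981199], [], [nat_lit 14515363269, nat_lit 15131608249, nat_lit 13911110012, nat_lit 14519704880, nat_lit 17630761494, nat_lit 18253878614, nat_lit 16985455645, nat_lit 17521774380], nat_lit 0, nat_lit 0, nat_lit 0, nat_lit 0, nat_lit 0, nat_lit 0, [], [nat_lit 9, nat_lit 40, nat_lit 20, nat_lit 80, nat_lit 2, nat_lit 215, nat_lit 10, nat_lit 7]⟩, C1.Rw.none,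
 ⟨nat_lit 6123, nat_lit 6325, ⟨.ofNat (nat_lit 164319), .ofNat (nat_lit 213677), .ofNat (nat_lit 169661), .ofNat (nat_lit 219019), .ofNat (nat_lit 172944), .ofNat (nat_lit 221172), .ofNat (nat_lit 178281), .ofNat (nat_lit 226509)⟩, ⟨.ofNat (nat_lit 389952), .ofNat (nat_lit 488669), .ofNat (nat_lit 411320), .ofNat (nat_lit 510037), .ofNat (nat_lit 388246), .ofNat (nat_lit 484703), .ofNat (nat_lit 409594), .ofNat (nat_lit 506051)⟩⟩, [⟨nat_lit 0, nat_lit 100, nat_lit 100, nat_lit 44, nat_lit 240308770⟩, ⟨nat_lit 16, nat_lit 100, nat_lit 92, nat_lit 61, nat_lit 484623007⟩]⟩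
noncomputable def p032_l46 : Lf2 := ⟨nat_lit 0, nat_lit 4, [nat_lit 38, nat_lit 5, nat_lit 5, nat_lit 20], true, nat_lit 240, nat_lit 288, nat_lit 0, nat_lit 288, ⟨nat_lit 0, nat_lit 0, nat_lit 1000, nat_lit 6, nat_lit 78, nat_lit 1000, nat_lit 179, nat_lit 1000, nat_lit 29345, nat_lit 255, nat_lit 58017, nat_lit 274, nat_lit 52595515, nat_lit 0, nat_lit 0, nat_lit 3338992, false, false⟩,
 nat_lit 0, nat_lit 0, nat_lit 0, nat_lit 8252, nat_lit 3864, nat_lit 0, nat_lit 0, nat_lit 0, nat_lit 0, nat_lit 0, nat_lit 0, nat_lit 0, nat_lit 0, nat_lit 9722691182682, nat_lit 41, nat_lit 400000, nat_lit 0, nat_lit 0, [(nat_lit 6, [(nat_lit 5, nat_lit 1000)])],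
 ⟨p032_k12, nat_lit 0, nat_lit 0, nat_lit 62, nat_lit 0, nat_lit 0, [nat_lit 2073600001, nat_lit 7600000], [], [nat_lit 14649873090, nat_lit 15279768776, nat_lit 13995916993, nat_lit 14617959881, nat_lit 17837415099, nat_lit 18426201623, nat_lit 17141255118, nat_lit 17688355875], nat_lit 0, nat_lit 0, nat_lit 0, nat_lit 0, nat_lit 0, nat_lit 0, [], [nat_lit 39, nat_lit 40, nat_lit 20, nat_lit 80, nat_lit 7, nat_lit 215, nat_lit 10, nat_lit 7]⟩, C1.Rw.none,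
 ⟨nat_lit 6123, nat_lit 6325, ⟨.ofNat (nat_lit 164319), .ofNat (nat_lit 213677), .ofNat (nat_lit 169661), .ofNat (nat_lit 219019), .ofNat (nat_lit 172944), .ofNat (nat_lit 221172), .ofNat (nat_lit 178281), .ofNat (nat_lit 226509)⟩, ⟨.ofNat (nat_lit 389952), .ofNat (nat_lit 488669), .ofNat (nat_lit 411320), .ofNat (nat_lit 510037), .ofNat (nat_lit 388246), .ofNat (nat_lit 484703), .ofNat (nat_lit 409594), .ofNat (nat_lit 506051)⟩⟩, [⟨nat_lit 0, nat_lit 100, nat_lit 100, nat_lit 44, nat_lit 250680298⟩, ⟨nat_lit 16, nat_lit 100, nat_lit 92, nat_lit 61, nat_lit 496962593⟩]⟩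
noncomputable def p032_l47 : Lf2 := ⟨nat_lit 0, nat_lit 5, [nat_lit 4, nat_lit 5, nat_lit 5, nat_lit 20], true, nat_lit 240, nat_lit 288, nat_lit 0, nat_lit 288, ⟨nat_lit 0, nat_lit 0, nat_lit 1000, nat_lit 6, nat_lit 77, nat_lit 1000, nat_lit 180, nat_lit 1000, nat_lit 29345, nat_lit 255, nat_lit 56067, nat_lit 273, nat_lit 52615408, nat_lit 0, nat_lit 0, nat_lit 3330554, false, false⟩,
 nat_lit 0, nat_lit 0, nat_lit 0, nat_lit 8781, nat_lit 4135, nat_lit 0, nat_lit 0, nat_lit 0, nat_lit 0, nat_lit 0, nat_lit 0, nat_lit 0, nat_lit 0, nat_lit 20593189266844, nat_lit 123, nat_lit 811600, nat_lit 0, nat_lit 0, [(nat_lit 6, [(nat_lit 5, nat_lit 314), (nat_lit 6, nat_lit 686)])],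
 ⟨p032_k13, nat_lit 0, nat_lit 0, nat_lit 141, nat_lit 0, nat_lit 0, [nat_lit 3083394134, nat_lit 2555366401, nat_lit 103958399], [], [nat_lit 15238952623, nat_lit 15487389467, nat_lit 14502564033, nat_lit 14746057733, nat_lit 18022298983, nat_lit 18350465263, nat_lit 17054141036, nat_lit 17302324816], nat_lit 0, nat_lit 0, nat_lit 0, nat_lit 0, nat_lit 0, nat_lit 0, [], [nat_lit 11, nat_lit 40, nat_lit 20, nat_lit 80, nat_lit 1, nat_lit 373, nat_lit 150, nat_lit 10]⟩, C1.Rw.none,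
 ⟨nat_lit 6224, nat_lit 6325, ⟨.ofNat (nat_lit 164319), .ofNat (nat_lit 213677), .ofNat (nat_lit 169661), .ofNat (nat_lit 219019), .ofNat (nat_lit 168651), .ofNat (nat_lit 217441), .ofNat (nat_lit 173990), .ofNat (nat_lit 222780)⟩, ⟨.ofNat (nat_lit 389952), .ofNat (nat_lit 488669), .ofNat (nat_lit 411320), .ofNat (nat_lit 510037), .ofNat (nat_lit 389106), .ofNat (nat_lit 486687), .ofNat (nat_lit 410463), .ofNat (nat_lit 508044)⟩⟩, [⟨nat_lit 0, nat_lit 100, nat_lit 100, nat_lit 45, nat_lit 272360367⟩, ⟨nat_lit 4, nat_lit 96, nat_lit 100, nat_lit 54, nat_lit 497320101⟩]⟩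
noncomputable def p032_l48 : Lf2 := ⟨nat_lit 0, nat_lit 5, [nat_lit 4, nat_lit 5, nat_lit 5, nat_lit 20], true, nat_lit 240, nat_lit 284, nat_lit 0, nat_lit 288, ⟨nat_lit 0, nat_lit 0, nat_lit 1000, nat_lit 6, nat_lit 79, nat_lit 1000, nat_lit 178, nat_lit 1000, nat_lit 38520, nat_lit 262, nat_lit 58017, nat_lit 274, nat_lit 52730872, nat_lit 0, nat_lit 0, nat_lit 3328812, false, false⟩,
 nat_lit 0, nat_lit 0, nat_lit 0, nat_lit 7907, nat_lit 3991, nat_lit 0, nat_lit 0, nat_lit 0, nat_lit 0, nat_lit 0, nat_lit 0, nat_lit 0, nat_lit 0, nat_lit 0, nat_lit 121, nat_lit 800200, nat_lit 0, nat_lit 0, [(nat_lit 6, [(nat_lit 5, nat_lit 333), (nat_lit 6, nat_lit 667)])],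
 ⟨p032_k14, nat_lit 0, nat_lit 0, nat_lit 141, nat_lit 0, nat_lit 0, [nat_lit 3059764267, nat_lit 2514940801, nat_lit 84164799], [], [nat_lit 15558781568, nat_lit 15804437165, nat_lit 15012044722, nat_lit 15260984455, nat_lit 17910821303, nat_lit 18237817474, nat_lit 17298131351, nat_lit 17521230129], nat_lit 0, nat_lit 0, nat_lit 0, nat_lit 0, nat_lit 0, nat_lit 0, [], [nat_lit 11, nat_lit 40, nat_lit 20, nat_lit 80, nat_lit 1, nat_lit 373, nat_lit 150, nat_lit 10]⟩, C1.Rw.none,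
 ⟨nat_lit 6123, nat_lit 6225, ⟨.ofNat (nat_lit 168651), .ofNat (nat_lit 217441), .ofNat (nat_lit 173990), .ofNat (nat_lit 222780), .ofNat (nat_lit 172944), .ofNat (nat_lit 221172), .ofNat (nat_lit 178281), .ofNat (nat_lit 226509)⟩, ⟨.ofNat (nat_lit 389106), .ofNat (nat_lit 478556), .ofNat (nat_lit 410463), .ofNat (nat_lit 499912), .ofNat (nat_lit 388246), .ofNat (nat_lit 476665), .ofNat (nat_lit 409594), .ofNat (nat_lit 498013)⟩⟩, [⟨nat_lit 0, nat_lit 100, nat_lit 99, nat_lit 45, nat_lit 236014902⟩, ⟨nat_lit 4, nat_lit 98, nat_lit 100, nat_lit 54, nat_lit 433091145⟩]⟩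
noncomputable def p032_l49 : Lf2 := ⟨nat_lit 0, nat_lit 8, [nat_lit 50, nat_lit 5, nat_lit 5, nat_lit 20], true, nat_lit 240, nat_lit 288, nat_lit 0, nat_lit 288, ⟨nat_lit 0, nat_lit 0, nat_lit 1000, nat_lit 6, nat_lit 78, nat_lit 1000, nat_lit 179, nat_lit 1000, nat_lit 29345, nat_lit 255, nat_lit 58017, nat_lit 274, nat_lit 52595515, nat_lit 0, nat_lit 0, nat_lit 3338992, false, false⟩,
 nat_lit 0, nat_lit 0, nat_lit 0, nat_lit 13538, nat_lit 5309, nat_lit 0, nat_lit 0, nat_lit 0, nat_lit 0, nat_lit 0, nat_lit 0, nat_lit 0, nat_lit 0, nat_lit 9432207339116, nat_lit 123, nat_lit 817000, nat_lit 0, nat_lit 0, [(nat_lit 6, [(nat_lit 5, nat_lit 305), (nat_lit 6, nat_lit 695)])],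
 ⟨p032_k8, nat_lit 0, nat_lit 0, nat_lit 142, nat_lit 0, nat_lit 0, [nat_lit 3934928001, nat_lit 14318000], [], [nat_lit 14835457882, nat_lit 15482042877, nat_lit 13757332914, nat_lit 14367021353, nat_lit 19030598557, nat_lit 19772184038, nat_lit 17589616556, nat_lit 18325980881], nat_lit 0, nat_lit 0, nat_lit 0, nat_lit 0, nat_lit 0, nat_lit 0, [], [nat_lit 70, nat_lit 40, nat_lit 20, nat_lit 80, nat_lit 13, nat_lit 373, nat_lit 150, nat_lit 10]⟩, C1.Rw.none,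
 ⟨nat_lit 6123, nat_lit 6325, ⟨.ofNat (nat_lit 164319), .ofNat (nat_lit 213677), .ofNat (nat_lit 169661), .ofNat (nat_lit 219019), .ofNat (nat_lit 172944), .ofNat (nat_lit 221172), .ofNat (nat_lit 178281), .ofNat (nat_lit 226509)⟩, ⟨.ofNat (nat_lit 389952), .ofNat (nat_lit 488669), .ofNat (nat_lit 411320), .ofNat (nat_lit 510037), .ofNat (nat_lit 388246), .ofNat (nat_lit 484703), .ofNat (nat_lit 409594), .ofNat (nat_lit 506051)⟩⟩, [⟨nat_lit 0, nat_lit 100, nat_lit 100, nat_lit 44, nat_lit 341785647⟩, ⟨nat_lit 4, nat_lit 97, nat_lit 100, nat_lit 54, nat_lit 785344049⟩]⟩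
noncomputable def p032_l50 : Lf2 := ⟨nat_lit 0, nat_lit 8, [nat_lit 50, nat_lit 5, nat_lit 5, nat_lit 20], true, nat_lit 240, nat_lit 288, nat_lit 0, nat_lit 288, ⟨nat_lit 0, nat_lit 0, nat_lit 1000, nat_lit 6, nat_lit 104, nat_lit 1000, nat_lit 179, nat_lit 1000, nat_lit 29345, nat_lit 255, nat_lit 101400, nat_lit 293, nat_lit 50953422, nat_lit 0, nat_lit 0, nat_lit 3706767, false, false⟩,
 nat_lit 0, nat_lit 0, nat_lit 0, nat_lit 3533, nat_lit 4134, nat_lit 0, nat_lit 0, nat_lit 0, nat_lit 0, nat_lit 0, nat_lit 0, nat_lit 0, nat_lit 0, nat_lit 11702382649965, nat_lit 69, nat_lit 400000, nat_lit 0, nat_lit 0, [(nat_lit 6, [(nat_lit 5, nat_lit 1000)])],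
 ⟨p032_k8, nat_lit 0, nat_lit 0, nat_lit 42, nat_lit 0, nat_lit 0, [nat_lit 2521600001, nat_lit 7200000], [], [nat_lit 13728138553, nat_lit 14369808281, nat_lit 13414725609, nat_lit 14033812937, nat_lit 16977087342, nat_lit 17627516466, nat_lit 16547028009, nat_lit 17091199780], nat_lit 0, nat_lit 0, nat_lit 0, nat_lit 0, nat_lit 0, nat_lit 0, [], [nat_lit 70, nat_lit 40, nat_lit 20, nat_lit 80, nat_lit 13, nat_lit 401, nat_lit 175, nat_lit 11]⟩, C1.Rw.none,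
 ⟨nat_lit 6123, nat_lit 6325, ⟨.ofNat (nat_lit 213677), .ofNat (nat_lit 295942), .ofNat (nat_lit 219019), .ofNat (nat_lit 301284), .ofNat (nat_lit 221172), .ofNat (nat_lit 301553), .ofNat (nat_lit 226509), .ofNat (nat_lit 306890)⟩, ⟨.ofNat (nat_lit 389952), .ofNat (nat_lit 488669), .ofNat (nat_lit 411320), .ofNat (nat_lit 510037), .ofNat (nat_lit 388246), .ofNat (nat_lit 484703), .ofNat (nat_lit 409594), .ofNat (nat_lit 506051)⟩⟩, [⟨nat_lit 16, nat_lit 100, nat_lit 92, nat_lit 61, nat_lit 507481110⟩]⟩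
noncomputable def p032_l51 : Lf2 := ⟨nat_lit 0, nat_lit 8, [nat_lit 50, nat_lit 5, nat_lit 5, nat_lit 20], true, nat_lit 240, nat_lit 288, nat_lit 0, nat_lit 288, ⟨nat_lit 0, nat_lit 1000, nat_lit 0, nat_lit 6, nat_lit 137, nat_lit 1000, nat_lit 179, nat_lit 0, nat_lit 0, nat_lit 0, nat_lit 0, nat_lit 0, nat_lit 48687750, nat_lit 7247777, nat_lit 11064473, nat_lit 4121136, false, false⟩,
 nat_lit 0, nat_lit 0, nat_lit 0, nat_lit 2542, nat_lit 6634, nat_lit 0, nat_lit 0, nat_lit 0, nat_lit 0, nat_lit 0, nat_lit 0, nat_lit 0, nat_lit 0, nat_lit 13643792863633, nat_lit 0, nat_lit 250000, nat_lit 0, nat_lit 0, [(nat_lit 6, [(nat_lit 0, nat_lit 1000)])],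
 ⟨p032_k15, nat_lit 0, nat_lit 0, nat_lit 23, nat_lit 0, nat_lit 0, [nat_lit 3128000000, nat_lit 3146133334, nat_lit 3771466666], [], [nat_lit 11970155608, nat_lit 12835873582, nat_lit 11992094776, nat_lit 12741708666, nat_lit 16718419692, nat_lit 17525036529, nat_lit 16371338356, nat_lit 17139029159], nat_lit 0, nat_lit 0, nat_lit 0, nat_lit 0, nat_lit 0, nat_lit 0, [], [nat_lit 11, nat_lit 40, nat_lit 20, nat_lit 80, nat_lit 1, nat_lit 401, nat_lit 175, nat_lit 11]⟩, C1.Rw.none,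
 ⟨nat_lit 6123, nat_lit 6325, ⟨.ofNat (nat_lit 295942), .ofNat (nat_lit 378206), .ofNat (nat_lit 301284), .ofNat (nat_lit 383548), .ofNat (nat_lit 301553), .ofNat (nat_lit 381933), .ofNat (nat_lit 306890), .ofNat (nat_lit 387270)⟩, ⟨.ofNat (nat_lit 389952), .ofNat (nat_lit 488669), .ofNat (nat_lit 411320), .ofNat (nat_lit 510037), .ofNat (nat_lit 388246), .ofNat (nat_lit 484703), .ofNat (nat_lit 409594), .ofNat (nat_lit 506051)⟩⟩, [⟨nat_lit 16, nat_lit 100, nat_lit 92, nat_lit 61, nat_lit 692785621⟩]⟩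
noncomputable def p032_l52 : Lf2 := ⟨nat_lit 0, nat_lit 8, [nat_lit 50, nat_lit 5, nat_lit 5, nat_lit 20], true, nat_lit 240, nat_lit 284, nat_lit 0, nat_lit 284, ⟨nat_lit 0, nat_lit 0, nat_lit 1000, nat_lit 6, nat_lit 115, nat_lit 1000, nat_lit 178, nat_lit 1000, nat_lit 38520, nat_lit 262, nat_lit 123267, nat_lit 301, nat_lit 50389550, nat_lit 0, nat_lit 0, nat_lit 3831279, false, false⟩,
 nat_lit 0, nat_lit 0, nat_lit 0, nat_lit 3528, nat_lit 3953, nat_lit 0, nat_lit 0, nat_lit 0, nat_lit 0, nat_lit 0, nat_lit 0, nat_lit 0, nat_lit 0, nat_lit 14653564085525, nat_lit 69, nat_lit 400000, nat_lit 0, nat_lit 0, [(nat_lit 6, [(nat_lit 5, nat_lit 1000)])],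
 ⟨p032_k16, nat_lit 0, nat_lit 0, nat_lit 71, nat_lit 0, nat_lit 0, [nat_lit 2521600001, nat_lit 1460000001, nat_lit 7200000], [], [nat_lit 14710882653, nat_lit 15028832793, nat_lit 14317657896, nat_lit 14606558898, nat_lit 17625909385, nat_lit 17950566330, nat_lit 16963928783, nat_lit 17221657559], nat_lit 0, nat_lit 0, nat_lit 0, nat_lit 0, nat_lit 0, nat_lit 0, [], [nat_lit 11, nat_lit 40, nat_lit 20, nat_lit 80, nat_lit 1, nat_lit 401, nat_lit 175, nat_lit 11]⟩, C1.Rw.none,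
 ⟨nat_lit 6123, nat_lit 6225, ⟨.ofNat (nat_lit 182121), .ofNat (nat_lit 385416), .ofNat (nat_lit 187461), .ofNat (nat_lit 390755), .ofNat (nat_lit 186319), .ofNat (nat_lit 387270), .ofNat (nat_lit 191656), .ofNat (nat_lit 392607)⟩, ⟨.ofNat (nat_lit 389106), .ofNat (nat_lit 478556), .ofNat (nat_lit 410463), .ofNat (nat_lit 499912), .ofNat (nat_lit 388246), .ofNat (nat_lit 476665), .ofNat (nat_lit 409594), .ofNat (nat_lit 498013)⟩⟩, [⟨nat_lit 0, nat_lit 100, nat_lit 100, nat_lit 45, nat_lit 141325450⟩, ⟨nat_lit 16, nat_lit 100, nat_lit 94, nat_lit 62, nat_lit 487105343⟩]⟩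
noncomputable def p032_l53 : Lf2 := ⟨nat_lit 1, nat_lit 10, [nat_lit 0, nat_lit 5, nat_lit 5, nat_lit 20], false, nat_lit 160, nat_lit 288, nat_lit 0, nat_lit 288, zbN0,
 nat_lit 0, nat_lit 0, nat_lit 0, nat_lit 0, nat_lit 0, nat_lit 0, nat_lit 0, nat_lit 0, nat_lit 0, nat_lit 0, nat_lit 0, nat_lit 0, nat_lit 0, nat_lit 0, nat_lit 0, nat_lit 0, nat_lit 0, nat_lit 0, [],
 C1.Rw.none, C1.Rw.none,
 zbF0, []⟩
noncomputable def p032_l54 : Lf2 := ⟨nat_lit 0, nat_lit 10, [nat_lit 0, nat_lit 5, nat_lit 5, nat_lit 20], true, nat_lit 160, nat_lit 280, nat_lit 0, nat_lit 288, ⟨nat_lit 0, nat_lit 0, nat_lit 1000, nat_lit 6, nat_lit 116, nat_lit 1000, nat_lit 143, nat_lit 1000, nat_lit 51683, nat_lit 270, nat_lit 126150, nat_lit 302, nat_lit 53306229, nat_lit 0, nat_lit 0, nat_lit 3440162, false, false⟩,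
 nat_lit 0, nat_lit 0, nat_lit 0, nat_lit 3780, nat_lit 3916, nat_lit 0, nat_lit 0, nat_lit 0, nat_lit 0, nat_lit 0, nat_lit 0, nat_lit 0, nat_lit 0, nat_lit 13533014454868, nat_lit 69, nat_lit 400000, nat_lit 0, nat_lit 0, [(nat_lit 6, [(nat_lit 5, nat_lit 1000)])],
 ⟨p032_k9, nat_lit 0, nat_lit 0, nat_lit 56, nat_lit 0, nat_lit 0, [nat_lit 2521600001, nat_lit 7200000], [], [nat_lit 11237345217, nat_lit 11611360433, nat_lit 11133175817, nat_lit 11471925749, nat_lit 17661180687, nat_lit 17945596414, nat_lit 17023197853, nat_lit 17282772383], nat_lit 0, nat_lit 0, nat_lit 0, nat_lit 0, nat_lit 0, nat_lit 0, [], [nat_lit 70, nat_lit 40, nat_lit 20, nat_lit 80, nat_lit 13, nat_lit 401, nat_lit 175, nat_lit 11]⟩, C1.Rw.none,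
 ⟨nat_lit 6020, nat_lit 6124, ⟨.ofNat (nat_lit 180982), .ofNat (nat_lit 381933), .ofNat (nat_lit 196993), .ofNat (nat_lit 397944), .ofNat (nat_lit 185145), .ofNat (nat_lit 383777), .ofNat (nat_lit 201152), .ofNat (nat_lit 399784)⟩, ⟨.ofNat (nat_lit 227485), .ofNat (nat_lit 468627), .ofNat (nat_lit 248833), .ofNat (nat_lit 489975), .ofNat (nat_lit 228465), .ofNat (nat_lit 466823), .ofNat (nat_lit 249807), .ofNat (nat_lit 488166)⟩⟩, [⟨nat_lit 0, nat_lit 100, nat_lit 100, nat_lit 55, nat_lit 149729112⟩, ⟨nat_lit 16, nat_lit 100, nat_lit 95, nat_lit 62, nat_lit 336808381⟩]⟩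
noncomputable def p032_l55 : Lf2 := ⟨nat_lit 0, nat_lit 10, [nat_lit 0, nat_lit 5, nat_lit 5, nat_lit 20], true, nat_lit 160, nat_lit 272, nat_lit 0, nat_lit 288, ⟨nat_lit 0, nat_lit 0, nat_lit 1000, nat_lit 6, nat_lit 119, nat_lit 1000, nat_lit 140, nat_lit 1000, nat_lit 88902, nat_lit 288, nat_lit 132017, nat_lit 304, nat_lit 53416882, nat_lit 0, nat_lit 0, nat_lit 3427871, false, false⟩,
 nat_lit 0, nat_lit 0, nat_lit 0, nat_lit 3765, nat_lit 3949, nat_lit 0, nat_lit 0, nat_lit 0, nat_lit 0, nat_lit 0, nat_lit 0, nat_lit 0, nat_lit 0, nat_lit 13169778217093, nat_lit 69, nat_lit 400000, nat_lit 0, nat_lit 0, [(nat_lit 6, [(nat_lit 5, nat_lit 1000)])],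
 ⟨p032_k17, nat_lit 0, nat_lit 0, nat_lit 54, nat_lit 0, nat_lit 0, [nat_lit 2521600001, nat_lit 7200000], [], [nat_lit 11578685549, nat_lit 11954274073, nat_lit 11419897223, nat_lit 11760020021, nat_lit 17416681353, nat_lit 17708586345, nat_lit 16779031767, nat_lit 17045150969], nat_lit 0, nat_lit 0, nat_lit 0, nat_lit 0, nat_lit 0, nat_lit 0, [], [nat_lit 70, nat_lit 40, nat_lit 20, nat_lit 80, nat_lit 13, nat_lit 401, nat_lit 175, nat_lit 11]⟩, C1.Rw.none,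
 ⟨nat_lit 5916, nat_lit 6021, ⟨.ofNat (nat_lit 185145), .ofNat (nat_lit 383777), .ofNat (nat_lit 206488), .ofNat (nat_lit 405120), .ofNat (nat_lit 189276), .ofNat (nat_lit 385610), .ofNat (nat_lit 210615), .ofNat (nat_lit 406949)⟩, ⟨.ofNat (nat_lit 228465), .ofNat (nat_lit 450933), .ofNat (nat_lit 249807), .ofNat (nat_lit 472275), .ofNat (nat_lit 229411), .ofNat (nat_lit 449305), .ofNat (nat_lit 250751), .ofNat (nat_lit 470645)⟩⟩, [⟨nat_lit 0, nat_lit 100, nat_lit 100, nat_lit 60, nat_lit 148807560⟩, ⟨nat_lit 16, nat_lit 100, nat_lit 97, nat_lit 62, nat_lit 318794425⟩]⟩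
noncomputable def p032_l56 : Lf2 := ⟨nat_lit 0, nat_lit 10, [nat_lit 0, nat_lit 5, nat_lit 5, nat_lit 20], true, nat_lit 160, nat_lit 268, nat_lit 0, nat_lit 288, ⟨nat_lit 0, nat_lit 0, nat_lit 1000, nat_lit 6, nat_lit 127, nat_lit 1000, nat_lit 138, nat_lit 1000, nat_lit 126379, nat_lit 302, nat_lit 153600, nat_lit 311, nat_lit 52898530, nat_lit 0, nat_lit 0, nat_lit 3522122, false, false⟩,
 nat_lit 0, nat_lit 0, nat_lit 0, nat_lit 3373, nat_lit 4087, nat_lit 0, nat_lit 0, nat_lit 0, nat_lit 0, nat_lit 0, nat_lit 0, nat_lit 0, nat_lit 0, nat_lit 11995107710783, nat_lit 87, nat_lit 400000, nat_lit 0, nat_lit 0, [(nat_lit 9, [(nat_lit 5, nat_lit 1000)])],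
 ⟨p032_k10, nat_lit 0, nat_lit 0, nat_lit 58, nat_lit 0, nat_lit 0, [nat_lit 2918400000, nat_lit 9200000], [], [nat_lit 11832118097, nat_lit 13357027042, nat_lit 11656987260, nat_lit 13040442756, nat_lit 17393418155, nat_lit 18747050012, nat_lit 16772046852, nat_lit 17863475527], nat_lit 0, nat_lit 0, nat_lit 0, nat_lit 0, nat_lit 0, nat_lit 0, [], [nat_lit 70, nat_lit 40, nat_lit 20, nat_lit 80, nat_lit 13, nat_lit 401, nat_lit 175, nat_lit 11]⟩, C1.Rw.none,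
 ⟨nat_lit 5477, nat_lit 5917, ⟨.ofNat (nat_lit 197129), .ofNat (nat_lit 385610), .ofNat (nat_lit 239808), .ofNat (nat_lit 428288), .ofNat (nat_lit 213007), .ofNat (nat_lit 392847), .ofNat (nat_lit 255721), .ofNat (nat_lit 435561)⟩, ⟨.ofNat (nat_lit 229411), .ofNat (nat_lit 441452), .ofNat (nat_lit 250751), .ofNat (nat_lit 462791), .ofNat (nat_lit 232852), .ofNat (nat_lit 435171), .ofNat (nat_lit 254209), .ofNat (nat_lit 456528)⟩⟩, [⟨nat_lit 0, nat_lit 100, nat_lit 98, nat_lit 64, nat_lit 156180669⟩, ⟨nat_lit 16, nat_lit 100, nat_lit 99, nat_lit 63, nat_lit 306048088⟩]⟩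
noncomputable def p032_l57 : Lf2 := ⟨nat_lit 0, nat_lit 10, [nat_lit 0, nat_lit 5, nat_lit 5, nat_lit 20], false, nat_lit 0, nat_lit 288, nat_lit 0, nat_lit 288, ⟨nat_lit 1000, nat_lit 0, nat_lit 0, nat_lit 0, nat_lit 0, nat_lit 0, nat_lit 0, nat_lit 0, nat_lit 0, nat_lit 0, nat_lit 0, nat_lit 0, nat_lit 0, nat_lit 0, nat_lit 0, nat_lit 0, false, false⟩,
 nat_lit 0, nat_lit 0, nat_lit 0, nat_lit 4823, nat_lit 9911, nat_lit 10430, nat_lit 1354, nat_lit 0, nat_lit 0, nat_lit 1377, nat_lit 0, nat_lit 0, nat_lit 0, nat_lit 401009060797, nat_lit 0, nat_lit 0, nat_lit 0, nat_lit 0, [],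
 ⟨p032_k4, nat_lit 0, nat_lit 0, nat_lit 251, nat_lit 0, nat_lit 0, [nat_lit 4688000000, nat_lit 7968000001, nat_lit 11872000000], [], [nat_lit 23145558880, nat_lit 26584852392, nat_lit 43630386512, nat_lit 45952193176, nat_lit 21228247132, nat_lit 23186015826, nat_lit 35176050268, nat_lit 36517141327], nat_lit 0, nat_lit 0, nat_lit 0, nat_lit 0, nat_lit 0, nat_lit 0, [], [nat_lit 21, nat_lit 40, nat_lit 20, nat_lit 80, nat_lit 14, nat_lit 483, nat_lit 250, nat_lit 12]⟩, ⟨p032_k4, nat_lit 0, nat_lit 0, nat_lit 251, nat_lit 0, nat_lit 0, [nat_lit 4688000000, nat_lit 7968000000, nat_lit 11872000000], [], [nat_lit 23129897900, nat_lit 26681706460, nat_lit 44929854560, nat_lit 47310216880, nat_lit 20770466660, nat_lit 22777367073, nat_lit 35717177937, nat_lit 37075451632], nat_lit 0, nat_lit 0, nat_lit 0, nat_lit 0, nat_lit 0, nat_lit 0, [], [nat_lit 21, nat_lit 40, nat_lit 20, nat_lit 80, nat_lit 14, nat_lit 483,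 nat_lit 250, nat_lit 12]⟩,
 zbF0, [⟨nat_lit 4, nat_lit 100, nat_lit 98, nat_lit 54, nat_lit 26219331⟩]⟩
noncomputable def b_VL_600_600_5_0 : St := ⟨true, nat_lit 0, nat_lit 0, nat_lit 1, nat_lit 40, nat_lit 240, nat_lit 280, nat_lit 240, nat_lit 280, nat_lit 16, nat_lit 400, nat_lit 20, nat_lit 40, nat_lit 0, nat_lit 288, nat_lit 0, nat_lit 288, nat_lit 0, nat_lit 40, nat_lit 0, nat_lit 0, nat_lit 0, nat_lit 0⟩
theorem d_VL_600_600_5_0 (h : EB TB.env) : Dead b_VL_600_600_5_0 := chkB_sound0 h (T :=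
(.spl (nat_lit 2) (nat_lit 120)
(.spl (nat_lit 4) (nat_lit 160)
(.spl (nat_lit 4) (nat_lit 80)
(.spl (nat_lit 0) (nat_lit 260)
(.ord (.spl (nat_lit 0) (nat_lit 250)
(.ord (.spl (nat_lit 6) (nat_lit 32)
(.leaf p032_l39)
(.leaf p032_l40)))
(.trZ (nat_lit 0) (nat_lit 100) (nat_lit 99) (nat_lit 45) (nat_lit 20) (.leaf p032_l41))))
(.trZ (nat_lit 0) (nat_lit 100) (nat_lit 97) (nat_lit 49) (nat_lit 24) (.leaf p032_l42)))
(.leaf p032_l43))
(.spl (nat_lit 0) (nat_lit 260)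
(.ord (.spl (nat_lit 0) (nat_lit 250)
(.ord (.spl (nat_lit 6) (nat_lit 32)
(.spl (nat_lit 4) (nat_lit 240)
(.leaf p032_l44)
(.spl (nat_lit 1) (nat_lit 245)
(.spl (nat_lit 2) (nat_lit 80)
(.spl (nat_lit 2) (nat_lit 40)
(.spl (nat_lit 6) (nat_lit 20)
(.spl (nat_lit 6) (nat_lit 8)
(.leaf p032_l45)
(.spl (nat_lit 6) (nat_lit 16)
(.leaf p032_l46)
(.spl (nat_lit 0) (nat_lit 245)
(.leaf p032_l47)
(.trX (nat_lit 16) (nat_lit 100) (nat_lit 94) (nat_lit 62) (nat_lit 284) (.leaf p032_l48)))))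
(.leaf p032_l49))
(.leaf p032_l50))
(.leaf p032_l51))
(.ord (.trZ (nat_lit 0) (nat_lit 100) (nat_lit 100) (nat_lit 45) (nat_lit 20) (.trX (nat_lit 16) (nat_lit 100) (nat_lit 94) (nat_lit 62) (nat_lit 284) (.trX (nat_lit 19) (nat_lit 100) (nat_lit 94) (nat_lit 62) (nat_lit 284) (.leaf p032_l52)))))))
(.leaf p032_l53)))
(.trZ (nat_lit 0) (nat_lit 100) (nat_lit 99) (nat_lit 45) (nat_lit 20) (.trX (nat_lit 16) (nat_lit 100) (nat_lit 95) (nat_lit 62) (nat_lit 280) (.spl (nat_lit 0) (nat_lit 255)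
(.ord (.leaf p032_l54))
(.trX (nat_lit 16) (nat_lit 100) (nat_lit 97) (nat_lit 62) (nat_lit 272) (.leaf p032_l55)))))))
(.trZ (nat_lit 0) (nat_lit 100) (nat_lit 97) (nat_lit 49) (nat_lit 24) (.trX (nat_lit 16) (nat_lit 100) (nat_lit 99) (nat_lit 63) (nat_lit 268) (.leaf p032_l56)))))
(.leaf p032_l57))) (by decide +kernel)
noncomputable def p032_l58 : Lf2 := ⟨nat_lit 0, nat_lit 8, [nat_lit 50, nat_lit 5, nat_lit 5, nat_lit 20], true, nat_lit 0, nat_lit 80, nat_lit 0, nat_lit 288, ⟨nat_lit 0, nat_lit 0, nat_lit 1000, nat_lit 6, nat_lit 112, nat_lit 0, nat_lit 15, nat_lit 0, nat_lit 67, nat_lit 213, nat_lit 117600, nat_lit 299, nat_lit 62139078, nat_lit 0, nat_lit 0, nat_lit 1300937, false, false⟩,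
 nat_lit 0, nat_lit 0, nat_lit 0, nat_lit 3421, nat_lit 4096, nat_lit 0, nat_lit 0, nat_lit 0, nat_lit 0, nat_lit 0, nat_lit 0, nat_lit 0, nat_lit 0, nat_lit 8370571145077, nat_lit 70, nat_lit 409600, nat_lit 0, nat_lit 0, [(nat_lit 6, [(nat_lit 5, nat_lit 984), (nat_lit 6, nat_lit 16)])],
 ⟨p032_k8, nat_lit 0, nat_lit 0, nat_lit 196, nat_lit 0, nat_lit 0, [nat_lit 2550246401, nat_lit 256000], [], [nat_lit 15212286580, nat_lit 15883879084, nat_lit 14229661985, nat_lit 14759158225, nat_lit 13299031675, nat_lit 13851772979, nat_lit 12721761473, nat_lit 13222835425], nat_lit 0, nat_lit 0, nat_lit 0, nat_lit 0, nat_lit 0, nat_lit 0, [], [nat_lit 70, nat_lit 40, nat_lit 20, nat_lit 80, nat_lit 13, nat_lit 345, nat_lit 125, nat_lit 10]⟩, C1.Rw.none,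
 ⟨nat_lit 6123, nat_lit 6325, ⟨.ofNat (nat_lit 164319), .ofNat (nat_lit 378206), .ofNat (nat_lit 175003), .ofNat (nat_lit 388890), .ofNat (nat_lit 172944), .ofNat (nat_lit 381933), .ofNat (nat_lit 183618), .ofNat (nat_lit 392607)⟩, ⟨.negSucc (nat_lit 103633), .ofNat (nat_lit 60895), .negSucc (nat_lit 82265), .ofNat (nat_lit 82263), .negSucc (nat_lit 94037), .ofNat (nat_lit 66723), .negSucc (nat_lit 72689), .ofNat (nat_lit 88071)⟩⟩, [⟨nat_lit 0, nat_lit 100, nat_lit 100, nat_lit 50, nat_lit 147705554⟩]⟩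
noncomputable def p032_l59 : Lf2 := ⟨nat_lit 1, nat_lit 10, [nat_lit 0, nat_lit 5, nat_lit 5, nat_lit 20], false, nat_lit 0, nat_lit 80, nat_lit 0, nat_lit 288, zbN0,
 nat_lit 0, nat_lit 0, nat_lit 0, nat_lit 0, nat_lit 0, nat_lit 0, nat_lit 0, nat_lit 0, nat_lit 0, nat_lit 0, nat_lit 0, nat_lit 0, nat_lit 0, nat_lit 0, nat_lit 0, nat_lit 0, nat_lit 0, nat_lit 0, [],
 C1.Rw.none, C1.Rw.none,
 zbF0, []⟩
noncomputable def p032_l60 : Lf2 := ⟨nat_lit 0, nat_lit 10, [nat_lit 0, nat_lit 5, nat_lit 5, nat_lit 20], true, nat_lit 0, nat_lit 80, nat_lit 0, nat_lit 288, ⟨nat_lit 0, nat_lit 0, nat_lit 1000, nat_lit 6, nat_lit 118, nat_lit 0, nat_lit 16, nat_lit 0, nat_lit 0, nat_lit 215, nat_lit 132017, nat_lit 304, nat_lit 61632035, nat_lit 0, nat_lit 0, nat_lit 1395294, false, false⟩,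
 nat_lit 0, nat_lit 0, nat_lit 0, nat_lit 3432, nat_lit 4075, nat_lit 0, nat_lit 0, nat_lit 0, nat_lit 0, nat_lit 0, nat_lit 0, nat_lit 0, nat_lit 0, nat_lit 12871890419023, nat_lit 69, nat_lit 400000, nat_lit 0, nat_lit 0, [(nat_lit 6, [(nat_lit 5, nat_lit 1000)])],
 ⟨p032_k9, nat_lit 0, nat_lit 0, nat_lit 196, nat_lit 0, nat_lit 0, [nat_lit 2521600001, nat_lit 7200000], [], [nat_lit 15640083150, nat_lit 16310096200, nat_lit 14804298176, nat_lit 15332669551, nat_lit 13727994351, nat_lit 14278892301, nat_lit 13282671176, nat_lit 13782706951], nat_lit 0, nat_lit 0, nat_lit 0, nat_lit 0, nat_lit 0, nat_lit 0, [], [nat_lit 70, nat_lit 40, nat_lit 20, nat_lit 80, nat_lit 13, nat_lit 345, nat_lit 125, nat_lit 10]⟩, C1.Rw.none,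
 ⟨nat_lit 5916, nat_lit 6124, ⟨.ofNat (nat_lit 180982), .ofNat (nat_lit 381933), .ofNat (nat_lit 202330), .ofNat (nat_lit 403281), .ofNat (nat_lit 189276), .ofNat (nat_lit 385610), .ofNat (nat_lit 210615), .ofNat (nat_lit 406949)⟩, ⟨.negSucc (nat_lit 94037), .ofNat (nat_lit 66723), .negSucc (nat_lit 72689), .ofNat (nat_lit 88071), .negSucc (nat_lit 84722), .ofNat (nat_lit 72344), .negSucc (nat_lit 63383), .ofNat (nat_lit 93684)⟩⟩, [⟨nat_lit 0, nat_lit 100, nat_lit 100, nat_lit 60, nat_lit 140042553⟩]⟩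
noncomputable def p032_l61 : Lf2 := ⟨nat_lit 0, nat_lit 10, [nat_lit 0, nat_lit 5, nat_lit 5, nat_lit 20], true, nat_lit 0, nat_lit 80, nat_lit 0, nat_lit 288, ⟨nat_lit 0, nat_lit 0, nat_lit 1000, nat_lit 6, nat_lit 127, nat_lit 0, nat_lit 18, nat_lit 85, nat_lit 150, nat_lit 218, nat_lit 153600, nat_lit 311, nat_lit 60829463, nat_lit 0, nat_lit 0, nat_lit 1536817, false, false⟩,
 nat_lit 0, nat_lit 0, nat_lit 0, nat_lit 1339, nat_lit 4210, nat_lit 0, nat_lit 0, nat_lit 0, nat_lit 0, nat_lit 0, nat_lit 0, nat_lit 0, nat_lit 0, nat_lit 9133651514234, nat_lit 130, nat_lit 644200, nat_lit 0, nat_lit 0, [(nat_lit 9, [(nat_lit 5, nat_lit 593), (nat_lit 6, nat_lit 407)])],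
 ⟨p032_k10, nat_lit 0, nat_lit 0, nat_lit 202, nat_lit 0, nat_lit 0, [nat_lit 3813644401, nat_lit 20527200], [], [nat_lit 14566751294, nat_lit 15925009177, nat_lit 13814428741, nat_lit 14885634041, nat_lit 12651671209, nat_lit 13766246186, nat_lit 12169435861, nat_lit 13364222682], nat_lit 0, nat_lit 0, nat_lit 0, nat_lit 0, nat_lit 0, nat_lit 0, [], [nat_lit 70, nat_lit 40, nat_lit 20, nat_lit 80, nat_lit 13, nat_lit 345, nat_lit 125, nat_lit 10]⟩, C1.Rw.none,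
 ⟨nat_lit 5477, nat_lit 5917, ⟨.ofNat (nat_lit 197129), .ofNat (nat_lit 385610), .ofNat (nat_lit 239808), .ofNat (nat_lit 428288), .ofNat (nat_lit 213007), .ofNat (nat_lit 392847), .ofNat (nat_lit 255721), .ofNat (nat_lit 435561)⟩, ⟨.negSucc (nat_lit 84722), .ofNat (nat_lit 72344), .negSucc (nat_lit 63383), .ofNat (nat_lit 93684), .negSucc (nat_lit 66879), .ofNat (nat_lit 82986), .negSucc (nat_lit 45522), .ofNat (nat_lit 104343)⟩⟩, [⟨nat_lit 0, nat_lit 100, nat_lit 98, nat_lit 64, nat_lit 148756908⟩]⟩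
noncomputable def p032_l62 : Lf2 := ⟨nat_lit 0, nat_lit 10, [nat_lit 0, nat_lit 5, nat_lit 5, nat_lit 20], true, nat_lit 80, nat_lit 160, nat_lit 0, nat_lit 288, ⟨nat_lit 0, nat_lit 0, nat_lit 1000, nat_lit 6, nat_lit 122, nat_lit 1000, nat_lit 64, nat_lit 1000, nat_lit 38400, nat_lit 263, nat_lit 138017, nat_lit 306, nat_lit 58733276, nat_lit 0, nat_lit 0, nat_lit 2346411, false, false⟩,
 nat_lit 0, nat_lit 0, nat_lit 0, nat_lit 2428, nat_lit 5854, nat_lit 0, nat_lit 861, nat_lit 0, nat_lit 0, nat_lit 0, nat_lit 0, nat_lit 0, nat_lit 0, nat_lit 10725927960545, nat_lit 62, nat_lit 345700, nat_lit 0, nat_lit 0, [(nat_lit 6, [(nat_lit 4, nat_lit 362), (nat_lit 5, nat_lit 638)]), (nat_lit 9, [(nat_lit 4, nat_lit 362), (nat_lit 5, nat_lit 638)])],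
 ⟨p032_k4, nat_lit 0, nat_lit 0, nat_lit 210, nat_lit 0, nat_lit 0, [nat_lit 3088332800, nat_lit 596742400, nat_lit 227342400], [], [nat_lit 10742462648, nat_lit 13422242443, nat_lit 8596682400, nat_lit 11226944528, nat_lit 10963426247, nat_lit 14008962610, nat_lit 9534610080, nat_lit 11862412032], nat_lit 0, nat_lit 0, nat_lit 0, nat_lit 0, nat_lit 0, nat_lit 0, [], [nat_lit 21, nat_lit 40, nat_lit 20, nat_lit 80, nat_lit 14, nat_lit 373, nat_lit 150, nat_lit 10]⟩, C1.Rw.none,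
 ⟨nat_lit 5477, nat_lit 6325, ⟨.ofNat (nat_lit 164319), .ofNat (nat_lit 378206), .ofNat (nat_lit 207055), .ofNat (nat_lit 420942), .ofNat (nat_lit 198021), .ofNat (nat_lit 392847), .ofNat (nat_lit 240735), .ofNat (nat_lit 435561)⟩, ⟨.ofNat (nat_lit 60895), .ofNat (nat_lit 225423), .ofNat (nat_lit 82263), .ofNat (nat_lit 246791), .ofNat (nat_lit 82986), .ofNat (nat_lit 232852), .ofNat (nat_lit 104343), .ofNat (nat_lit 254209)⟩⟩, [⟨nat_lit 0, nat_lit 100, nat_lit 100, nat_lit 60, nat_lit 210022927⟩]⟩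
noncomputable def p032_l63 : Lf2 := ⟨nat_lit 0, nat_lit 8, [nat_lit 50, nat_lit 5, nat_lit 5, nat_lit 20], true, nat_lit 160, nat_lit 240, nat_lit 0, nat_lit 288, ⟨nat_lit 0, nat_lit 0, nat_lit 1000, nat_lit 6, nat_lit 112, nat_lit 1000, nat_lit 127, nat_lit 1000, nat_lit 153600, nat_lit 311, nat_lit 117600, nat_lit 299, nat_lit 54996109, nat_lit 0, nat_lit 0, nat_lit 3158021, false, false⟩,
 nat_lit 0, nat_lit 0, nat_lit 0, nat_lit 3359, nat_lit 4288, nat_lit 0, nat_lit 0, nat_lit 0, nat_lit 0, nat_lit 0, nat_lit 0, nat_lit 0, nat_lit 0, nat_lit 5517853623087, nat_lit 69, nat_lit 400000, nat_lit 0, nat_lit 0, [(nat_lit 6, [(nat_lit 5, nat_lit 1000)])],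
 ⟨p032_k8, nat_lit 0, nat_lit 0, nat_lit 34, nat_lit 0, nat_lit 0, [nat_lit 2521600001, nat_lit 7200000], [], [nat_lit 10281750785, nat_lit 11066060773, nat_lit 9822744737, nat_lit 10531196489, nat_lit 14343275298, nat_lit 15004456926, nat_lit 13560548833, nat_lit 14159819313], nat_lit 0, nat_lit 0, nat_lit 0, nat_lit 0, nat_lit 0, nat_lit 0, [], [nat_lit 70, nat_lit 40, nat_lit 20, nat_lit 80, nat_lit 13, nat_lit 401, nat_lit 175, nat_lit 11]⟩, C1.Rw.none,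
 ⟨nat_lit 6123, nat_lit 6325, ⟨.ofNat (nat_lit 164319), .ofNat (nat_lit 378206), .ofNat (nat_lit 175003), .ofNat (nat_lit 388890), .ofNat (nat_lit 172944), .ofNat (nat_lit 381933), .ofNat (nat_lit 183618), .ofNat (nat_lit 392607)⟩, ⟨.ofNat (nat_lit 225423), .ofNat (nat_lit 389952), .ofNat (nat_lit 246791), .ofNat (nat_lit 411320), .ofNat (nat_lit 227485), .ofNat (nat_lit 388246), .ofNat (nat_lit 248833), .ofNat (nat_lit 409594)⟩⟩, [⟨nat_lit 0, nat_lit 100, nat_lit 100, nat_lit 50, nat_lit 158100461⟩]⟩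
noncomputable def p032_l64 : Lf2 := ⟨nat_lit 0, nat_lit 2, [nat_lit 10, nat_lit 5, nat_lit 5, nat_lit 20], true, nat_lit 240, nat_lit 288, nat_lit 0, nat_lit 288, ⟨nat_lit 0, nat_lit 0, nat_lit 1000, nat_lit 6, nat_lit 78, nat_lit 1000, nat_lit 179, nat_lit 1000, nat_lit 29345, nat_lit 255, nat_lit 58017, nat_lit 274, nat_lit 52595515, nat_lit 0, nat_lit 0, nat_lit 3338992, false, false⟩,
 nat_lit 0, nat_lit 0, nat_lit 0, nat_lit 4434, nat_lit 3679, nat_lit 0, nat_lit 0, nat_lit 0, nat_lit 0, nat_lit 0, nat_lit 0, nat_lit 0, nat_lit 0, nat_lit 14561459046739, nat_lit 65, nat_lit 765400, nat_lit 0, nat_lit 0, [(nat_lit 6, [(nat_lit 5, nat_lit 391), (nat_lit 6, nat_lit 609)])],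
 ⟨p032_k11, nat_lit 0, nat_lit 0, nat_lit 79, nat_lit 0, nat_lit 0, [nat_lit 2189315200, nat_lit 1196053201, nat_lit 176981199], [], [nat_lit 14515363269, nat_lit 15131608249, nat_lit 13911110012, nat_lit 14519704880, nat_lit 17630761494, nat_lit 18253878614, nat_lit 16985455645, nat_lit 17521774380], nat_lit 0, nat_lit 0, nat_lit 0, nat_lit 0, nat_lit 0, nat_lit 0, [], [nat_lit 9, nat_lit 40, nat_lit 20, nat_lit 80, nat_lit 2, nat_lit 215, nat_lit 10, nat_lit 7]⟩, C1.Rw.none,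
 ⟨nat_lit 6123, nat_lit 6325, ⟨.ofNat (nat_lit 164319), .ofNat (nat_lit 213677), .ofNat (nat_lit 169661), .ofNat (nat_lit 219019), .ofNat (nat_lit 172944), .ofNat (nat_lit 221172), .ofNat (nat_lit 178281), .ofNat (nat_lit 226509)⟩, ⟨.ofNat (nat_lit 389952), .ofNat (nat_lit 488669), .ofNat (nat_lit 411320), .ofNat (nat_lit 510037), .ofNat (nat_lit 388246), .ofNat (nat_lit 484703), .ofNat (nat_lit 409594), .ofNat (nat_lit 506051)⟩⟩, [⟨nat_lit 0, nat_lit 100, nat_lit 100, nat_lit 44, nat_lit 240308770⟩, ⟨nat_lit 16, nat_lit 100, nat_lit 92, nat_lit 61, nat_lit 484623007⟩]⟩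
noncomputable def p032_l65 : Lf2 := ⟨nat_lit 0, nat_lit 4, [nat_lit 38, nat_lit 5, nat_lit 5, nat_lit 20], true, nat_lit 240, nat_lit 288, nat_lit 0, nat_lit 288, ⟨nat_lit 0, nat_lit 0, nat_lit 1000, nat_lit 6, nat_lit 78, nat_lit 1000, nat_lit 179, nat_lit 1000, nat_lit 29345, nat_lit 255, nat_lit 58017, nat_lit 274, nat_lit 52595515, nat_lit 0, nat_lit 0, nat_lit 3338992, false, false⟩,
 nat_lit 0, nat_lit 0, nat_lit 0, nat_lit 8252, nat_lit 3864, nat_lit 0, nat_lit 0, nat_lit 0, nat_lit 0, nat_lit 0, nat_lit 0, nat_lit 0, nat_lit 0, nat_lit 9722691182682, nat_lit 41, nat_lit 400000, nat_lit 0, nat_lit 0, [(nat_lit 6, [(nat_lit 5, nat_lit 1000)])],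
 ⟨p032_k12, nat_lit 0, nat_lit 0, nat_lit 62, nat_lit 0, nat_lit 0, [nat_lit 2073600001, nat_lit 7600000], [], [nat_lit 14649873090, nat_lit 15279768776, nat_lit 13995916993, nat_lit 14617959881, nat_lit 17837415099, nat_lit 18426201623, nat_lit 17141255118, nat_lit 17688355875], nat_lit 0, nat_lit 0, nat_lit 0, nat_lit 0, nat_lit 0, nat_lit 0, [], [nat_lit 39, nat_lit 40, nat_lit 20, nat_lit 80, nat_lit 7, nat_lit 215, nat_lit 10, nat_lit 7]⟩, C1.Rw.none,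
 ⟨nat_lit 6123, nat_lit 6325, ⟨.ofNat (nat_lit 164319), .ofNat (nat_lit 213677), .ofNat (nat_lit 169661), .ofNat (nat_lit 219019), .ofNat (nat_lit 172944), .ofNat (nat_lit 221172), .ofNat (nat_lit 178281), .ofNat (nat_lit 226509)⟩, ⟨.ofNat (nat_lit 389952), .ofNat (nat_lit 488669), .ofNat (nat_lit 411320), .ofNat (nat_lit 510037), .ofNat (nat_lit 388246), .ofNat (nat_lit 484703), .ofNat (nat_lit 409594), .ofNat (nat_lit 506051)⟩⟩, [⟨nat_lit 0, nat_lit 100, nat_lit 100, nat_lit 44, nat_lit 250680298⟩, ⟨nat_lit 16, nat_lit 100, nat_lit 92, nat_lit 61, nat_lit 496962593⟩]⟩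
noncomputable def p032_l66 : Lf2 := ⟨nat_lit 0, nat_lit 5, [nat_lit 4, nat_lit 5, nat_lit 5, nat_lit 20], true, nat_lit 240, nat_lit 288, nat_lit 0, nat_lit 288, ⟨nat_lit 0, nat_lit 0, nat_lit 1000, nat_lit 6, nat_lit 77, nat_lit 1000, nat_lit 180, nat_lit 1000, nat_lit 29345, nat_lit 255, nat_lit 56067, nat_lit 273, nat_lit 52615408, nat_lit 0, nat_lit 0, nat_lit 3330554, false, false⟩,
 nat_lit 0, nat_lit 0, nat_lit 0, nat_lit 8781, nat_lit 4135, nat_lit 0, nat_lit 0, nat_lit 0, nat_lit 0, nat_lit 0, nat_lit 0, nat_lit 0, nat_lit 0, nat_lit 20593189266844, nat_lit 123, nat_lit 811600, nat_lit 0, nat_lit 0, [(nat_lit 6, [(nat_lit 5, nat_lit 314), (nat_lit 6, nat_lit 686)])],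
 ⟨p032_k13, nat_lit 0, nat_lit 0, nat_lit 141, nat_lit 0, nat_lit 0, [nat_lit 3083394134, nat_lit 2555366401, nat_lit 103958399], [], [nat_lit 15238952623, nat_lit 15487389467, nat_lit 14502564033, nat_lit 14746057733, nat_lit 18022298983, nat_lit 18350465263, nat_lit 17054141036, nat_lit 17302324816], nat_lit 0, nat_lit 0, nat_lit 0, nat_lit 0, nat_lit 0, nat_lit 0, [], [nat_lit 11, nat_lit 40, nat_lit 20, nat_lit 80, nat_lit 1, nat_lit 373, nat_lit 150, nat_lit 10]⟩, C1.Rw.none,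
 ⟨nat_lit 6224, nat_lit 6325, ⟨.ofNat (nat_lit 164319), .ofNat (nat_lit 213677), .ofNat (nat_lit 169661), .ofNat (nat_lit 219019), .ofNat (nat_lit 168651), .ofNat (nat_lit 217441), .ofNat (nat_lit 173990), .ofNat (nat_lit 222780)⟩, ⟨.ofNat (nat_lit 389952), .ofNat (nat_lit 488669), .ofNat (nat_lit 411320), .ofNat (nat_lit 510037), .ofNat (nat_lit 389106), .ofNat (nat_lit 486687), .ofNat (nat_lit 410463), .ofNat (nat_lit 508044)⟩⟩, [⟨nat_lit 0, nat_lit 100, nat_lit 100, nat_lit 45, nat_lit 272360367⟩, ⟨nat_lit 4, nat_lit 96, nat_lit 100, nat_lit 54, nat_lit 497320101⟩]⟩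
noncomputable def p032_l67 : Lf2 := ⟨nat_lit 0, nat_lit 5, [nat_lit 4, nat_lit 5, nat_lit 5, nat_lit 20], true, nat_lit 240, nat_lit 284, nat_lit 0, nat_lit 288, ⟨nat_lit 0, nat_lit 0, nat_lit 1000, nat_lit 6, nat_lit 79, nat_lit 1000, nat_lit 178, nat_lit 1000, nat_lit 38520, nat_lit 262, nat_lit 58017, nat_lit 274, nat_lit 52730872, nat_lit 0, nat_lit 0, nat_lit 3328812, false, false⟩,
 nat_lit 0, nat_lit 0, nat_lit 0, nat_lit 7907, nat_lit 3991, nat_lit 0, nat_lit 0, nat_lit 0, nat_lit 0, nat_lit 0, nat_lit 0, nat_lit 0, nat_lit 0, nat_lit 0, nat_lit 121, nat_lit 800200, nat_lit 0, nat_lit 0, [(nat_lit 6, [(nat_lit 5, nat_lit 333), (nat_lit 6, nat_lit 667)])],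
 ⟨p032_k14, nat_lit 0, nat_lit 0, nat_lit 141, nat_lit 0, nat_lit 0, [nat_lit 3059764267, nat_lit 2514940801, nat_lit 84164799], [], [nat_lit 15558781568, nat_lit 15804437165, nat_lit 15012044722, nat_lit 15260984455, nat_lit 17910821303, nat_lit 18237817474, nat_lit 17298131351, nat_lit 17521230129], nat_lit 0, nat_lit 0, nat_lit 0, nat_lit 0, nat_lit 0, nat_lit 0, [], [nat_lit 11, nat_lit 40, nat_lit 20, nat_lit 80, nat_lit 1, nat_lit 373, nat_lit 150, nat_lit 10]⟩, C1.Rw.none,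
 ⟨nat_lit 6123, nat_lit 6225, ⟨.ofNat (nat_lit 168651), .ofNat (nat_lit 217441), .ofNat (nat_lit 173990), .ofNat (nat_lit 222780), .ofNat (nat_lit 172944), .ofNat (nat_lit 221172), .ofNat (nat_lit 178281), .ofNat (nat_lit 226509)⟩, ⟨.ofNat (nat_lit 389106), .ofNat (nat_lit 478556), .ofNat (nat_lit 410463), .ofNat (nat_lit 499912), .ofNat (nat_lit 388246), .ofNat (nat_lit 476665), .ofNat (nat_lit 409594), .ofNat (nat_lit 498013)⟩⟩, [⟨nat_lit 0, nat_lit 100, nat_lit 99, nat_lit 45, nat_lit 236014902⟩, ⟨nat_lit 4, nat_lit 98, nat_lit 100, nat_lit 54, nat_lit 433091145⟩]⟩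
noncomputable def p032_l68 : Lf2 := ⟨nat_lit 0, nat_lit 8, [nat_lit 50, nat_lit 5, nat_lit 5, nat_lit 20], true, nat_lit 240, nat_lit 288, nat_lit 0, nat_lit 288, ⟨nat_lit 0, nat_lit 0, nat_lit 1000, nat_lit 6, nat_lit 78, nat_lit 1000, nat_lit 179, nat_lit 1000, nat_lit 29345, nat_lit 255, nat_lit 58017, nat_lit 274, nat_lit 52595515, nat_lit 0, nat_lit 0, nat_lit 3338992, false, false⟩,
 nat_lit 0, nat_lit 0, nat_lit 0, nat_lit 13538, nat_lit 5309, nat_lit 0, nat_lit 0, nat_lit 0, nat_lit 0, nat_lit 0, nat_lit 0, nat_lit 0, nat_lit 0, nat_lit 9432207339116, nat_lit 123, nat_lit 817000, nat_lit 0, nat_lit 0, [(nat_lit 6, [(nat_lit 5, nat_lit 305), (nat_lit 6, nat_lit 695)])],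
 ⟨p032_k8, nat_lit 0, nat_lit 0, nat_lit 142, nat_lit 0, nat_lit 0, [nat_lit 3934928001, nat_lit 14318000], [], [nat_lit 14835457882, nat_lit 15482042877, nat_lit 13757332914, nat_lit 14367021353, nat_lit 19030598557, nat_lit 19772184038, nat_lit 17589616556, nat_lit 18325980881], nat_lit 0, nat_lit 0, nat_lit 0, nat_lit 0, nat_lit 0, nat_lit 0, [], [nat_lit 70, nat_lit 40, nat_lit 20, nat_lit 80, nat_lit 13, nat_lit 373, nat_lit 150, nat_lit 10]⟩, C1.Rw.none,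
 ⟨nat_lit 6123, nat_lit 6325, ⟨.ofNat (nat_lit 164319), .ofNat (nat_lit 213677), .ofNat (nat_lit 169661), .ofNat (nat_lit 219019), .ofNat (nat_lit 172944), .ofNat (nat_lit 221172), .ofNat (nat_lit 178281), .ofNat (nat_lit 226509)⟩, ⟨.ofNat (nat_lit 389952), .ofNat (nat_lit 488669), .ofNat (nat_lit 411320), .ofNat (nat_lit 510037), .ofNat (nat_lit 388246), .ofNat (nat_lit 484703), .ofNat (nat_lit 409594), .ofNat (nat_lit 506051)⟩⟩, [⟨nat_lit 0, nat_lit 100, nat_lit 100, nat_lit 44, nat_lit 341785647⟩, ⟨nat_lit 4, nat_lit 97, nat_lit 100, nat_lit 54, nat_lit 785344049⟩]⟩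
noncomputable def p032_l69 : Lf2 := ⟨nat_lit 0, nat_lit 8, [nat_lit 50, nat_lit 5, nat_lit 5, nat_lit 20], true, nat_lit 240, nat_lit 288, nat_lit 0, nat_lit 288, ⟨nat_lit 0, nat_lit 0, nat_lit 1000, nat_lit 6, nat_lit 104, nat_lit 1000, nat_lit 179, nat_lit 1000, nat_lit 29345, nat_lit 255, nat_lit 101400, nat_lit 293, nat_lit 50953422, nat_lit 0, nat_lit 0, nat_lit 3706767, false, false⟩,
 nat_lit 0, nat_lit 0, nat_lit 0, nat_lit 3533, nat_lit 4134, nat_lit 0, nat_lit 0, nat_lit 0, nat_lit 0, nat_lit 0, nat_lit 0, nat_lit 0, nat_lit 0, nat_lit 11702382649965, nat_lit 69, nat_lit 400000, nat_lit 0, nat_lit 0, [(nat_lit 6, [(nat_lit 5, nat_lit 1000)])],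
 ⟨p032_k8, nat_lit 0, nat_lit 0, nat_lit 42, nat_lit 0, nat_lit 0, [nat_lit 2521600001, nat_lit 7200000], [], [nat_lit 13728138553, nat_lit 14369808281, nat_lit 13414725609, nat_lit 14033812937, nat_lit 16977087342, nat_lit 17627516466, nat_lit 16547028009, nat_lit 17091199780], nat_lit 0, nat_lit 0, nat_lit 0, nat_lit 0, nat_lit 0, nat_lit 0, [], [nat_lit 70, nat_lit 40, nat_lit 20, nat_lit 80, nat_lit 13, nat_lit 401, nat_lit 175, nat_lit 11]⟩, C1.Rw.none,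
 ⟨nat_lit 6123, nat_lit 6325, ⟨.ofNat (nat_lit 213677), .ofNat (nat_lit 295942), .ofNat (nat_lit 219019), .ofNat (nat_lit 301284), .ofNat (nat_lit 221172), .ofNat (nat_lit 301553), .ofNat (nat_lit 226509), .ofNat (nat_lit 306890)⟩, ⟨.ofNat (nat_lit 389952), .ofNat (nat_lit 488669), .ofNat (nat_lit 411320), .ofNat (nat_lit 510037), .ofNat (nat_lit 388246), .ofNat (nat_lit 484703), .ofNat (nat_lit 409594), .ofNat (nat_lit 506051)⟩⟩, [⟨nat_lit 16, nat_lit 100, nat_lit 92, nat_lit 61, nat_lit 507481110⟩]⟩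
noncomputable def p032_l70 : Lf2 := ⟨nat_lit 0, nat_lit 8, [nat_lit 50, nat_lit 5, nat_lit 5, nat_lit 20], true, nat_lit 240, nat_lit 288, nat_lit 0, nat_lit 288, ⟨nat_lit 0, nat_lit 1000, nat_lit 0, nat_lit 6, nat_lit 137, nat_lit 1000, nat_lit 179, nat_lit 0, nat_lit 0, nat_lit 0, nat_lit 0, nat_lit 0, nat_lit 48687750, nat_lit 7247777, nat_lit 11064473, nat_lit 4121136, false, false⟩,
 nat_lit 0, nat_lit 0, nat_lit 0, nat_lit 2542, nat_lit 6634, nat_lit 0, nat_lit 0, nat_lit 0, nat_lit 0, nat_lit 0, nat_lit 0, nat_lit 0, nat_lit 0, nat_lit 13643792863633, nat_lit 0, nat_lit 250000, nat_lit 0, nat_lit 0, [(nat_lit 6, [(nat_lit 0, nat_lit 1000)])],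
 ⟨p032_k8, nat_lit 0, nat_lit 0, nat_lit 18, nat_lit 0, nat_lit 0, [nat_lit 3128000000, nat_lit 3710400000], [], [nat_lit 11970155608, nat_lit 12835873582, nat_lit 11992094776, nat_lit 12741708666, nat_lit 16718419692, nat_lit 17525036529, nat_lit 16371338356, nat_lit 17139029159], nat_lit 0, nat_lit 0, nat_lit 0, nat_lit 0, nat_lit 0, nat_lit 0, [], [nat_lit 70, nat_lit 40, nat_lit 20, nat_lit 80, nat_lit 13, nat_lit 401, nat_lit 175, nat_lit 11]⟩, C1.Rw.none,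
 ⟨nat_lit 6123, nat_lit 6325, ⟨.ofNat (nat_lit 295942), .ofNat (nat_lit 378206), .ofNat (nat_lit 301284), .ofNat (nat_lit 383548), .ofNat (nat_lit 301553), .ofNat (nat_lit 381933), .ofNat (nat_lit 306890), .ofNat (nat_lit 387270)⟩, ⟨.ofNat (nat_lit 389952), .ofNat (nat_lit 488669), .ofNat (nat_lit 411320), .ofNat (nat_lit 510037), .ofNat (nat_lit 388246), .ofNat (nat_lit 484703), .ofNat (nat_lit 409594), .ofNat (nat_lit 506051)⟩⟩, [⟨nat_lit 16, nat_lit 100, nat_lit 92, nat_lit 61, nat_lit 692785621⟩]⟩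
noncomputable def p032_l71 : Lf2 := ⟨nat_lit 0, nat_lit 8, [nat_lit 50, nat_lit 5, nat_lit 5, nat_lit 20], true, nat_lit 240, nat_lit 284, nat_lit 0, nat_lit 284, ⟨nat_lit 0, nat_lit 0, nat_lit 1000, nat_lit 6, nat_lit 115, nat_lit 1000, nat_lit 178, nat_lit 1000, nat_lit 38520, nat_lit 262, nat_lit 123267, nat_lit 301, nat_lit 50389550, nat_lit 0, nat_lit 0, nat_lit 3831279, false, false⟩,
 nat_lit 0, nat_lit 0, nat_lit 0, nat_lit 3528, nat_lit 3953, nat_lit 0, nat_lit 0, nat_lit 0, nat_lit 0, nat_lit 0, nat_lit 0, nat_lit 0, nat_lit 0, nat_lit 14653564085525, nat_lit 69, nat_lit 400000, nat_lit 0, nat_lit 0, [(nat_lit 6, [(nat_lit 5, nat_lit 1000)])],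
 ⟨p032_k18, nat_lit 0, nat_lit 0, nat_lit 56, nat_lit 0, nat_lit 0, [nat_lit 2521600001, nat_lit 7200000], [], [nat_lit 14710882653, nat_lit 15028832793, nat_lit 14317657896, nat_lit 14606558898, nat_lit 17625909385, nat_lit 17950566330, nat_lit 16963928783, nat_lit 17221657559], nat_lit 0, nat_lit 0, nat_lit 0, nat_lit 0, nat_lit 0, nat_lit 0, [], [nat_lit 70, nat_lit 40, nat_lit 20, nat_lit 80, nat_lit 13, nat_lit 401, nat_lit 175, nat_lit 11]⟩, C1.Rw.none,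
 ⟨nat_lit 6123, nat_lit 6225, ⟨.ofNat (nat_lit 182121), .ofNat (nat_lit 385416), .ofNat (nat_lit 187461), .ofNat (nat_lit 390755), .ofNat (nat_lit 186319), .ofNat (nat_lit 387270), .ofNat (nat_lit 191656), .ofNat (nat_lit 392607)⟩, ⟨.ofNat (nat_lit 389106), .ofNat (nat_lit 478556), .ofNat (nat_lit 410463), .ofNat (nat_lit 499912), .ofNat (nat_lit 388246), .ofNat (nat_lit 476665), .ofNat (nat_lit 409594), .ofNat (nat_lit 498013)⟩⟩, [⟨nat_lit 0, nat_lit 100, nat_lit 100, nat_lit 45, nat_lit 141325450⟩, ⟨nat_lit 16, nat_lit 100, nat_lit 94, nat_lit 62, nat_lit 487105343⟩]⟩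
noncomputable def p032_l72 : Lf2 := ⟨nat_lit 1, nat_lit 10, [nat_lit 0, nat_lit 5, nat_lit 5, nat_lit 20], false, nat_lit 160, nat_lit 288, nat_lit 0, nat_lit 288, zbN0,
 nat_lit 0, nat_lit 0, nat_lit 0, nat_lit 0, nat_lit 0, nat_lit 0, nat_lit 0, nat_lit 0, nat_lit 0, nat_lit 0, nat_lit 0, nat_lit 0, nat_lit 0, nat_lit 0, nat_lit 0, nat_lit 0, nat_lit 0, nat_lit 0, [],
 C1.Rw.none, C1.Rw.none,
 zbF0, []⟩
noncomputable def p032_l73 : Lf2 := ⟨nat_lit 0, nat_lit 10, [nat_lit 0, nat_lit 5, nat_lit 5, nat_lit 20], true, nat_lit 160, nat_lit 280, nat_lit 0, nat_lit 288, ⟨nat_lit 0, nat_lit 0, nat_lit 1000, nat_lit 6, nat_lit 116, nat_lit 1000, nat_lit 143, nat_lit 1000, nat_lit 51683, nat_lit 270, nat_lit 126150, nat_lit 302, nat_lit 53306229, nat_lit 0, nat_lit 0, nat_lit 3440162, false, false⟩,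
 nat_lit 0, nat_lit 0, nat_lit 0, nat_lit 3780, nat_lit 3916, nat_lit 0, nat_lit 0, nat_lit 0, nat_lit 0, nat_lit 0, nat_lit 0, nat_lit 0, nat_lit 0, nat_lit 13533014454868, nat_lit 69, nat_lit 400000, nat_lit 0, nat_lit 0, [(nat_lit 6, [(nat_lit 5, nat_lit 1000)])],
 ⟨p032_k9, nat_lit 0, nat_lit 0, nat_lit 56, nat_lit 0, nat_lit 0, [nat_lit 2521600001, nat_lit 7200000], [], [nat_lit 11237345217, nat_lit 11611360433, nat_lit 11133175817, nat_lit 11471925749, nat_lit 17661180687, nat_lit 17945596414, nat_lit 17023197853, nat_lit 17282772383], nat_lit 0, nat_lit 0, nat_lit 0, nat_lit 0, nat_lit 0, nat_lit 0, [], [nat_lit 70, nat_lit 40, nat_lit 20, nat_lit 80, nat_lit 13, nat_lit 401, nat_lit 175, nat_lit 11]⟩, C1.Rw.none,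
 ⟨nat_lit 6020, nat_lit 6124, ⟨.ofNat (nat_lit 180982), .ofNat (nat_lit 381933), .ofNat (nat_lit 196993), .ofNat (nat_lit 397944), .ofNat (nat_lit 185145), .ofNat (nat_lit 383777), .ofNat (nat_lit 201152), .ofNat (nat_lit 399784)⟩, ⟨.ofNat (nat_lit 227485), .ofNat (nat_lit 468627), .ofNat (nat_lit 248833), .ofNat (nat_lit 489975), .ofNat (nat_lit 228465), .ofNat (nat_lit 466823), .ofNat (nat_lit 249807), .ofNat (nat_lit 488166)⟩⟩, [⟨nat_lit 0, nat_lit 100, nat_lit 100, nat_lit 55, nat_lit 149729112⟩, ⟨nat_lit 16, nat_lit 100, nat_lit 95, nat_lit 62, nat_lit 336808381⟩]⟩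
noncomputable def p032_l74 : Lf2 := ⟨nat_lit 0, nat_lit 10, [nat_lit 0, nat_lit 5, nat_lit 5, nat_lit 20], true, nat_lit 160, nat_lit 272, nat_lit 0, nat_lit 288, ⟨nat_lit 0, nat_lit 0, nat_lit 1000, nat_lit 6, nat_lit 119, nat_lit 1000, nat_lit 140, nat_lit 1000, nat_lit 88902, nat_lit 288, nat_lit 132017, nat_lit 304, nat_lit 53416882, nat_lit 0, nat_lit 0, nat_lit 3427871, false, false⟩,
 nat_lit 0, nat_lit 0, nat_lit 0, nat_lit 3765, nat_lit 3949, nat_lit 0, nat_lit 0, nat_lit 0, nat_lit 0, nat_lit 0, nat_lit 0, nat_lit 0, nat_lit 0, nat_lit 13169778217093, nat_lit 69, nat_lit 400000, nat_lit 0, nat_lit 0, [(nat_lit 6, [(nat_lit 5, nat_lit 1000)])],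
 ⟨p032_k17, nat_lit 0, nat_lit 0, nat_lit 54, nat_lit 0, nat_lit 0, [nat_lit 2521600001, nat_lit 7200000], [], [nat_lit 11578685549, nat_lit 11954274073, nat_lit 11419897223, nat_lit 11760020021, nat_lit 17416681353, nat_lit 17708586345, nat_lit 16779031767, nat_lit 17045150969], nat_lit 0, nat_lit 0, nat_lit 0, nat_lit 0, nat_lit 0, nat_lit 0, [], [nat_lit 70, nat_lit 40, nat_lit 20, nat_lit 80, nat_lit 13, nat_lit 401, nat_lit 175, nat_lit 11]⟩, C1.Rw.none,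
 ⟨nat_lit 5916, nat_lit 6021, ⟨.ofNat (nat_lit 185145), .ofNat (nat_lit 383777), .ofNat (nat_lit 206488), .ofNat (nat_lit 405120), .ofNat (nat_lit 189276), .ofNat (nat_lit 385610), .ofNat (nat_lit 210615), .ofNat (nat_lit 406949)⟩, ⟨.ofNat (nat_lit 228465), .ofNat (nat_lit 450933), .ofNat (nat_lit 249807), .ofNat (nat_lit 472275), .ofNat (nat_lit 229411), .ofNat (nat_lit 449305), .ofNat (nat_lit 250751), .ofNat (nat_lit 470645)⟩⟩, [⟨nat_lit 0, nat_lit 100, nat_lit 100, nat_lit 60, nat_lit 148807560⟩, ⟨nat_lit 16, nat_lit 100, nat_lit 97, nat_lit 62, nat_lit 318794425⟩]⟩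
noncomputable def p032_l75 : Lf2 := ⟨nat_lit 0, nat_lit 10, [nat_lit 0, nat_lit 5, nat_lit 5, nat_lit 20], true, nat_lit 160, nat_lit 268, nat_lit 0, nat_lit 288, ⟨nat_lit 0, nat_lit 0, nat_lit 1000, nat_lit 6, nat_lit 127, nat_lit 1000, nat_lit 138, nat_lit 1000, nat_lit 126379, nat_lit 302, nat_lit 153600, nat_lit 311, nat_lit 52898530, nat_lit 0, nat_lit 0, nat_lit 3522122, false, false⟩,
 nat_lit 0, nat_lit 0, nat_lit 0, nat_lit 3373, nat_lit 4087, nat_lit 0, nat_lit 0, nat_lit 0, nat_lit 0, nat_lit 0, nat_lit 0, nat_lit 0, nat_lit 0, nat_lit 11995107710783, nat_lit 87, nat_lit 400000, nat_lit 0, nat_lit 0, [(nat_lit 9, [(nat_lit 5, nat_lit 1000)])],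
 ⟨p032_k10, nat_lit 0, nat_lit 0, nat_lit 58, nat_lit 0, nat_lit 0, [nat_lit 2918400000, nat_lit 9200000], [], [nat_lit 11832118097, nat_lit 13357027042, nat_lit 11656987260, nat_lit 13040442756, nat_lit 17393418155, nat_lit 18747050012, nat_lit 16772046852, nat_lit 17863475527], nat_lit 0, nat_lit 0, nat_lit 0, nat_lit 0, nat_lit 0, nat_lit 0, [], [nat_lit 70, nat_lit 40, nat_lit 20, nat_lit 80, nat_lit 13, nat_lit 401, nat_lit 175, nat_lit 11]⟩, C1.Rw.none,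
 ⟨nat_lit 5477, nat_lit 5917, ⟨.ofNat (nat_lit 197129), .ofNat (nat_lit 385610), .ofNat (nat_lit 239808), .ofNat (nat_lit 428288), .ofNat (nat_lit 213007), .ofNat (nat_lit 392847), .ofNat (nat_lit 255721), .ofNat (nat_lit 435561)⟩, ⟨.ofNat (nat_lit 229411), .ofNat (nat_lit 441452), .ofNat (nat_lit 250751), .ofNat (nat_lit 462791), .ofNat (nat_lit 232852), .ofNat (nat_lit 435171), .ofNat (nat_lit 254209), .ofNat (nat_lit 456528)⟩⟩, [⟨nat_lit 0, nat_lit 100, nat_lit 98, nat_lit 64, nat_lit 156180669⟩, ⟨nat_lit 16, nat_lit 100, nat_lit 99, nat_lit 63, nat_lit 306048088⟩]⟩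
noncomputable def p032_l76 : Lf2 := ⟨nat_lit 0, nat_lit 10, [nat_lit 0, nat_lit 5, nat_lit 5, nat_lit 20], false, nat_lit 0, nat_lit 160, nat_lit 0, nat_lit 288, ⟨nat_lit 266, nat_lit 0, nat_lit 734, nat_lit 6, nat_lit 203, nat_lit 0, nat_lit 47, nat_lit 0, nat_lit 8067, nat_lit 237, nat_lit 6453, nat_lit 201, nat_lit 53282751, nat_lit 0, nat_lit 0, nat_lit 2534483, false, false⟩,
 nat_lit 0, nat_lit 0, nat_lit 3767, nat_lit 2413, nat_lit 7583, nat_lit 1994, nat_lit 1183, nat_lit 0, nat_lit 0, nat_lit 0, nat_lit 0, nat_lit 0, nat_lit 0, nat_lit 0, nat_lit 0, nat_lit 183500, nat_lit 0, nat_lit 0, [(nat_lit 6, [(nat_lit 4, nat_lit 734)])],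
 ⟨p032_k4, nat_lit 0, nat_lit 0, nat_lit 197, nat_lit 0, nat_lit 0, [nat_lit 3342137601, nat_lit 1575447200, nat_lit 2212853600], [], [nat_lit 14008593740, nat_lit 14742244174, nat_lit 17889218180, nat_lit 18636430167, nat_lit 9392694561, nat_lit 10059490537, nat_lit 13325937040, nat_lit 13948595034], nat_lit 0, nat_lit 0, nat_lit 0, nat_lit 0, nat_lit 0, nat_lit 0, [], [nat_lit 21, nat_lit 40, nat_lit 20, nat_lit 80, nat_lit 14, nat_lit 401, nat_lit 175, nat_lit 10]⟩, ⟨p032_k4, nat_lit 0, nat_lit 0, nat_lit 552, nat_lit 0, nat_lit 575568, [nat_lit 1247008000, nat_lit 2119488000, nat_lit 3157952000], [], [nat_lit 12993864896, nat_lit 12458537710, nat_lit 11386115104, nat_lit 11455142530, nat_lit 10521796031, nat_lit 10568661583, nat_lit 12133737128, nat_lit 11683383455], nat_lit 1271250, nat_lit 1271250, nat_lit 780000, nat_lit 1762500, nat_lit 0, nat_lit 2034000, [nat_lit 1100000, nat_lit 1785000, nat_lit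 1271250], [nat_lit 21, nat_lit 40, nat_lit 20, nat_lit 80, nat_lit 14, nat_lit 428, nat_lit 200, nat_lit 11]⟩,
 ⟨nat_lit 6123, nat_lit 6325, ⟨.ofNat (nat_lit 378206), .ofNat (nat_lit 624989), .ofNat (nat_lit 388890), .ofNat (nat_lit 635673), .ofNat (nat_lit 381933), .ofNat (nat_lit 623066), .ofNat (nat_lit 392607), .ofNat (nat_lit 633740)⟩, ⟨.negSucc (nat_lit 103633), .ofNat (nat_lit 225423), .negSucc (nat_lit 82265), .ofNat (nat_lit 246791), .negSucc (nat_lit 94037), .ofNat (nat_lit 227485), .negSucc (nat_lit 72689), .ofNat (nat_lit 248833)⟩⟩, [⟨nat_lit 19, nat_lit 100, nat_lit 97, nat_lit 54, nat_lit 26863308⟩]⟩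
noncomputable def p032_l77 : Lf2 := ⟨nat_lit 0, nat_lit 10, [nat_lit 0, nat_lit 5, nat_lit 5, nat_lit 20], false, nat_lit 0, nat_lit 160, nat_lit 0, nat_lit 288, ⟨nat_lit 186, nat_lit 0, nat_lit 814, nat_lit 6, nat_lit 205, nat_lit 0, nat_lit 48, nat_lit 591, nat_lit 9600, nat_lit 239, nat_lit 17576, nat_lit 200, nat_lit 53014298, nat_lit 0, nat_lit 0, nat_lit 2561423, false, false⟩,
 nat_lit 0, nat_lit 0, nat_lit 2856, nat_lit 0, nat_lit 5872, nat_lit 1512, nat_lit 594, nat_lit 0, nat_lit 0, nat_lit 0, nat_lit 0, nat_lit 0, nat_lit 0, nat_lit 1008349870399, nat_lit 0, nat_lit 325600, nat_lit 0, nat_lit 0, [(nat_lit 6, [(nat_lit 5, nat_lit 814)])],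
 ⟨p032_k19, nat_lit 0, nat_lit 0, nat_lit 148, nat_lit 0, nat_lit 0, [nat_lit 2025894401, nat_lit 687258400, nat_lit 263824800], [], [nat_lit 13945084888, nat_lit 14684094192, nat_lit 17664623872, nat_lit 18243158288, nat_lit 11096170368, nat_lit 11720798048, nat_lit 14661201656, nat_lit 15209400352], nat_lit 0, nat_lit 0, nat_lit 0, nat_lit 0, nat_lit 0, nat_lit 0, [], [nat_lit 29, nat_lit 40, nat_lit 20, nat_lit 80, nat_lit 17, nat_lit 401, nat_lit 175, nat_lit 12]⟩, ⟨p032_k4, nat_lit 0, nat_lit 0, nat_lit 673, nat_lit 0, nat_lit 795893, [nat_lit 871968000, nat_lit 1482048000, nat_lit 2208192000], [], [nat_lit 9391684824, nat_lit 8579834568, nat_lit 8268154152, nat_lit 8327997180, nat_lit 7532541869, nat_lit 7571886629, nat_lit 8532672360, nat_lit 7849688655], nat_lit 1271250, nat_lit 1271250, nat_lit 780000, nat_lit 1762500, nat_lit 0, nat_lit 2034000, [nat_lit 1100000, nat_lit 1785000, nat_lit 1271250],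 [nat_lit 21, nat_lit 40, nat_lit 20, nat_lit 80, nat_lit 14, nat_lit 428, nat_lit 200, nat_lit 11]⟩,
 ⟨nat_lit 5916, nat_lit 6124, ⟨.ofNat (nat_lit 381933), .ofNat (nat_lit 623067), .ofNat (nat_lit 403281), .ofNat (nat_lit 644413), .ofNat (nat_lit 385610), .ofNat (nat_lit 621203), .ofNat (nat_lit 406949), .ofNat (nat_lit 642539)⟩, ⟨.negSucc (nat_lit 94037), .ofNat (nat_lit 227485), .negSucc (nat_lit 72689), .ofNat (nat_lit 248833), .negSucc (nat_lit 84722), .ofNat (nat_lit 229411), .negSucc (nat_lit 63383), .ofNat (nat_lit 250751)⟩⟩, [⟨nat_lit 19, nat_lit 100, nat_lit 99, nat_lit 54, nat_lit 28046489⟩]⟩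
noncomputable def p032_l78 : Lf2 := ⟨nat_lit 0, nat_lit 10, [nat_lit 0, nat_lit 5, nat_lit 5, nat_lit 20], true, nat_lit 0, nat_lit 160, nat_lit 0, nat_lit 288, ⟨nat_lit 0, nat_lit 0, nat_lit 1000, nat_lit 6, nat_lit 206, nat_lit 0, nat_lit 48, nat_lit 582, nat_lit 12150, nat_lit 242, nat_lit 13764, nat_lit 200, nat_lit 52955741, nat_lit 0, nat_lit 0, nat_lit 2567234, false, false⟩,
 nat_lit 0, nat_lit 0, nat_lit 0, nat_lit 2924, nat_lit 5414, nat_lit 0, nat_lit 0, nat_lit 0, nat_lit 0, nat_lit 0, nat_lit 0, nat_lit 0, nat_lit 0, nat_lit 0, nat_lit 73, nat_lit 318850, nat_lit 0, nat_lit 0, [(nat_lit 9, [(nat_lit 4, nat_lit 541), (nat_lit 5, nat_lit 459)])],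
 ⟨p032_k20, nat_lit 0, nat_lit 0, nat_lit 158, nat_lit 0, nat_lit 0, [nat_lit 3546150400, nat_lit 652635601, nat_lit 13644800], [], [nat_lit 14908558204, nat_lit 16324419800, nat_lit 18443251356, nat_lit 19593320376, nat_lit 12906401156, nat_lit 13913153800, nat_lit 15524956820, nat_lit 16471554576], nat_lit 0, nat_lit 0, nat_lit 0, nat_lit 0, nat_lit 0, nat_lit 0, [], [nat_lit 29, nat_lit 40, nat_lit 20, nat_lit 80, nat_lit 17, nat_lit 401, nat_lit 175, nat_lit 12]⟩, C1.Rw.none,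
 ⟨nat_lit 5477, nat_lit 5917, ⟨.ofNat (nat_lit 385610), .ofNat (nat_lit 621176), .ofNat (nat_lit 406949), .ofNat (nat_lit 642507), .ofNat (nat_lit 392847), .ofNat (nat_lit 617611), .ofNat (nat_lit 414204), .ofNat (nat_lit 638960)⟩, ⟨.negSucc (nat_lit 84722), .ofNat (nat_lit 229411), .negSucc (nat_lit 63383), .ofNat (nat_lit 250751), .negSucc (nat_lit 66879), .ofNat (nat_lit 232852), .negSucc (nat_lit 45522), .ofNat (nat_lit 254209)⟩⟩, []⟩
noncomputable def p032_l79 : Lf2 := ⟨nat_lit 0, nat_lit 10, [nat_lit 0, nat_lit 5, nat_lit 5, nat_lit 20], false, nat_lit 0, nat_lit 160, nat_lit 0, nat_lit 268, ⟨nat_lit 155, nat_lit 0, nat_lit 845, nat_lit 6, nat_lit 215, nat_lit 0, nat_lit 48, nat_lit 714, nat_lit 12150, nat_lit 242, nat_lit 56426, nat_lit 200, nat_lit 52032908, nat_lit 0, nat_lit 0, nat_lit 2655821, false, false⟩,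
 nat_lit 0, nat_lit 0, nat_lit 2044, nat_lit 0, nat_lit 5337, nat_lit 1189, nat_lit 314, nat_lit 0, nat_lit 0, nat_lit 0, nat_lit 0, nat_lit 0, nat_lit 0, nat_lit 8663807432458, nat_lit 19, nat_lit 338000, nat_lit 0, nat_lit 0, [(nat_lit 9, [(nat_lit 5, nat_lit 845)])],
 ⟨p032_k20, nat_lit 0, nat_lit 0, nat_lit 158, nat_lit 0, nat_lit 0, [nat_lit 2320448000, nat_lit 592202000, nat_lit 6864000], [], [nat_lit 14870267882, nat_lit 16275679500, nat_lit 18400913298, nat_lit 19513357108, nat_lit 12657661998, nat_lit 13659031868, nat_lit 15566103416, nat_lit 16507353808], nat_lit 0, nat_lit 0, nat_lit 0, nat_lit 0, nat_lit 0, nat_lit 0, [], [nat_lit 29, nat_lit 40, nat_lit 20, nat_lit 80, nat_lit 17, nat_lit 401, nat_lit 175, nat_lit 12]⟩, ⟨p032_k20, nat_lit 0, nat_lit 0, nat_lit 739, nat_lit 0, nat_lit 1107523, [nat_lit 726640000, nat_lit 1235040000, nat_lit 1525510000], [], [nat_lit 7003546902, nat_lit 6365127620,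 nat_lit 6270723604, nat_lit 6304759108, nat_lit 5762063061, nat_lit 5785401426, nat_lit 6323490196, nat_lit 5782909206], nat_lit 1271250, nat_lit 1271250, nat_lit 780000, nat_lit 1762500, nat_lit 0, nat_lit 1892750, [nat_lit 1100000, nat_lit 1785000, nat_lit 1271250], [nat_lit 29, nat_lit 40, nat_lit 20, nat_lit 80, nat_lit 17, nat_lit 428, nat_lit 200, nat_lit 12]⟩,
 ⟨nat_lit 5477, nat_lit 5917, ⟨.ofNat (nat_lit 406949), .ofNat (nat_lit 642507), .ofNat (nat_lit 428288), .ofNat (nat_lit 663838), .ofNat (nat_lit 414204), .ofNat (nat_lit 638960), .ofNat (nat_lit 435561), .ofNat (nat_lit 660309)⟩, ⟨.negSucc (nat_lit 84722), .ofNat (nat_lit 229411), .negSucc (nat_lit 63383), .ofNat (nat_lit 250751), .negSucc (nat_lit 66879), .ofNat (nat_lit 232852), .negSucc (nat_lit 45522), .ofNat (nat_lit 254209)⟩⟩, [⟨nat_lit 19, nat_lit 96, nat_lit 100, nat_lit 54, nat_lit 31581593⟩]⟩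
noncomputable def p032_l80 : Lf2 := ⟨nat_lit 0, nat_lit 10, [nat_lit 0, nat_lit 5, nat_lit 5, nat_lit 20], true, nat_lit 160, nat_lit 288, nat_lit 0, nat_lit 288, ⟨nat_lit 0, nat_lit 1000, nat_lit 0, nat_lit 6, nat_lit 210, nat_lit 1000, nat_lit 146, nat_lit 0, nat_lit 0, nat_lit 0, nat_lit 0, nat_lit 0, nat_lit 45423154, nat_lit 13775600, nat_lit 7801246, nat_lit 4498885, false, false⟩,
 nat_lit 0, nat_lit 0, nat_lit 0, nat_lit 790, nat_lit 6429, nat_lit 0, nat_lit 0, nat_lit 0, nat_lit 0, nat_lit 0, nat_lit 0, nat_lit 0, nat_lit 0, nat_lit 10016490579600, nat_lit 0, nat_lit 250000, nat_lit 0, nat_lit 0, [(nat_lit 6, [(nat_lit 0, nat_lit 1000)]), (nat_lit 9, [(nat_lit 0, nat_lit 1000)])],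
 ⟨p032_k4, nat_lit 0, nat_lit 0, nat_lit 29, nat_lit 0, nat_lit 0, [nat_lit 3128000000, nat_lit 3541333334, nat_lit 3879466666], [], [nat_lit 7890387388, nat_lit 11436753452, nat_lit 13069511696, nat_lit 16038599044, nat_lit 16375402932, nat_lit 19392911408, nat_lit 20117483403, nat_lit 22464616145], nat_lit 0, nat_lit 0, nat_lit 0, nat_lit 0, nat_lit 0, nat_lit 0, [], [nat_lit 21, nat_lit 40, nat_lit 20, nat_lit 80, nat_lit 14, nat_lit 456, nat_lit 225, nat_lit 11]⟩, C1.Rw.none,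
 ⟨nat_lit 5477, nat_lit 6325, ⟨.ofNat (nat_lit 378206), .ofNat (nat_lit 624852), .ofNat (nat_lit 420942), .ofNat (nat_lit 667525), .ofNat (nat_lit 392847), .ofNat (nat_lit 617499), .ofNat (nat_lit 435561), .ofNat (nat_lit 660151)⟩, ⟨.ofNat (nat_lit 225423), .ofNat (nat_lit 488669), .ofNat (nat_lit 246791), .ofNat (nat_lit 510037), .ofNat (nat_lit 232852), .ofNat (nat_lit 472638), .ofNat (nat_lit 254209), .ofNat (nat_lit 493995)⟩⟩, [⟨nat_lit 4, nat_lit 100, nat_lit 98, nat_lit 54, nat_lit 402422375⟩]⟩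
noncomputable def b_VL_600_600_5_1 : St := ⟨true, nat_lit 0, nat_lit 1, nat_lit 1, nat_lit 40, nat_lit 240, nat_lit 280, nat_lit 240, nat_lit 280, nat_lit 16, nat_lit 240, nat_lit 20, nat_lit 40, nat_lit 0, nat_lit 288, nat_lit 0, nat_lit 288, nat_lit 0, nat_lit 40, nat_lit 0, nat_lit 0, nat_lit 0, nat_lit 0⟩
theorem d_VL_600_600_5_1 (h : EB TB.env) : Dead b_VL_600_600_5_1 := chkB_sound0 h (T :=
(.spl (nat_lit 2) (nat_lit 120)
(.spl (nat_lit 4) (nat_lit 160)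
(.spl (nat_lit 4) (nat_lit 80)
(.spl (nat_lit 0) (nat_lit 260)
(.ord (.spl (nat_lit 0) (nat_lit 250)
(.ord (.spl (nat_lit 6) (nat_lit 32)
(.leaf p032_l58)
(.leaf p032_l59)))
(.trZ (nat_lit 0) (nat_lit 100) (nat_lit 99) (nat_lit 45) (nat_lit 20) (.leaf p032_l60))))
(.trZ (nat_lit 0) (nat_lit 100) (nat_lit 97) (nat_lit 49) (nat_lit 24) (.leaf p032_l61)))
(.leaf p032_l62))
(.spl (nat_lit 0) (nat_lit 260)
(.ord (.spl (nat_lit 0) (nat_lit 250)
(.ord (.spl (nat_lit 6) (nat_lit 32)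
(.spl (nat_lit 4) (nat_lit 240)
(.leaf p032_l63)
(.spl (nat_lit 1) (nat_lit 245)
(.spl (nat_lit 2) (nat_lit 80)
(.spl (nat_lit 2) (nat_lit 40)
(.spl (nat_lit 6) (nat_lit 20)
(.spl (nat_lit 6) (nat_lit 8)
(.leaf p032_l64)
(.spl (nat_lit 6) (nat_lit 16)
(.leaf p032_l65)
(.spl (nat_lit 0) (nat_lit 245)
(.leaf p032_l66)
(.trX (nat_lit 16) (nat_lit 100) (nat_lit 94) (nat_lit 62) (nat_lit 284) (.leaf p032_l67)))))
(.leaf p032_l68))
(.leaf p032_l69))
(.leaf p032_l70))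
(.ord (.trZ (nat_lit 0) (nat_lit 100) (nat_lit 100) (nat_lit 45) (nat_lit 20) (.trX (nat_lit 16) (nat_lit 100) (nat_lit 94) (nat_lit 62) (nat_lit 284) (.trX (nat_lit 19) (nat_lit 100) (nat_lit 94) (nat_lit 62) (nat_lit 284) (.leaf p032_l71)))))))
(.leaf p032_l72)))
(.trZ (nat_lit 0) (nat_lit 100) (nat_lit 99) (nat_lit 45) (nat_lit 20) (.trX (nat_lit 16) (nat_lit 100) (nat_lit 95) (nat_lit 62) (nat_lit 280) (.spl (nat_lit 0) (nat_lit 255)
(.ord (.leaf p032_l73))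
(.trX (nat_lit 16) (nat_lit 100) (nat_lit 97) (nat_lit 62) (nat_lit 272) (.leaf p032_l74)))))))
(.trZ (nat_lit 0) (nat_lit 100) (nat_lit 97) (nat_lit 49) (nat_lit 24) (.trX (nat_lit 16) (nat_lit 100) (nat_lit 99) (nat_lit 63) (nat_lit 268) (.leaf p032_l75)))))
(.spl (nat_lit 4) (nat_lit 160)
(.spl (nat_lit 0) (nat_lit 260)
(.ord (.spl (nat_lit 0) (nat_lit 250)
(.ord (.leaf p032_l76))
(.leaf p032_l77)))
(.spl (nat_lit 1) (nat_lit 260)
(.leaf p032_l78)
(.trX (nat_lit 19) (nat_lit 100) (nat_lit 99) (nat_lit 63) (nat_lit 268) (.leaf p032_l79))))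
(.leaf p032_l80)))) (by decide +kernel)
noncomputable def p032_l81 : Lf2 := ⟨nat_lit 0, nat_lit 10, [nat_lit 0, nat_lit 5, nat_lit 5, nat_lit 20], false, nat_lit 0, nat_lit 160, nat_lit 0, nat_lit 288, ⟨nat_lit 233, nat_lit 767, nat_lit 0, nat_lit 6, nat_lit 286, nat_lit 11, nat_lit 48, nat_lit 0, nat_lit 0, nat_lit 0, nat_lit 0, nat_lit 0, nat_lit 44372050, nat_lit 22627950, nat_lit 0, nat_lit 3197592, true, true⟩,
 nat_lit 0, nat_lit 0, nat_lit 4390, nat_lit 0, nat_lit 6985, nat_lit 2324, nat_lit 538, nat_lit 0, nat_lit 0, nat_lit 241, nat_lit 0, nat_lit 0, nat_lit 0, nat_lit 10032305164125, nat_lit 0, nat_lit 767000, nat_lit 0, nat_lit 0, [(nat_lit 6, [(nat_lit 2, nat_lit 767)])],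
 ⟨p032_k4, nat_lit 0, nat_lit 0, nat_lit 218, nat_lit 0, nat_lit 0, [nat_lit 3644573201, nat_lit 3701536934, nat_lit 2792867600], [], [nat_lit 21808930060, nat_lit 22895678370, nat_lit 26566280280, nat_lit 27389587720, nat_lit 16852605260, nat_lit 17771506960, nat_lit 21345699594, nat_lit 22264601294], nat_lit 0, nat_lit 0, nat_lit 0, nat_lit 0, nat_lit 0, nat_lit 0, [], [nat_lit 21, nat_lit 40, nat_lit 20, nat_lit 80, nat_lit 14, nat_lit 428, nat_lit 200, nat_lit 11]⟩, ⟨p032_k4, nat_lit 0, nat_lit 0, nat_lit 606, nat_lit 0, nat_lit 795893, [nat_lit 1092304000, nat_lit 1856544000, nat_lit 2766176000], [], [nat_lit 7605934968, nat_lit 7713242546, nat_lit 8110954116, nat_lit 8181969382, nat_lit 6270475729, nat_lit 6310736706, nat_lit 6494550330, nat_lit 6521115078], nat_lit 1271250, nat_lit 1271250, nat_lit 1271250, nat_lit 1271250, nat_lit 0, nat_lit 2034000, [nat_lit 1100000, nat_lit 1785000, nat_lit 1271250],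 [nat_lit 21, nat_lit 40, nat_lit 20, nat_lit 80, nat_lit 14, nat_lit 456, nat_lit 225, nat_lit 11]⟩,
 ⟨nat_lit 5916, nat_lit 6325, ⟨.ofNat (nat_lit 624961), .ofNat (nat_lit 789440), .ofNat (nat_lit 646322), .ofNat (nat_lit 810801), .ofNat (nat_lit 621173), .ofNat (nat_lit 778191), .ofNat (nat_lit 642505), .ofNat (nat_lit 799523)⟩, ⟨.negSucc (nat_lit 103633), .ofNat (nat_lit 225423), .negSucc (nat_lit 82265), .ofNat (nat_lit 246791), .negSucc (nat_lit 84722), .ofNat (nat_lit 229411), .negSucc (nat_lit 63383), .ofNat (nat_lit 250751)⟩⟩, [⟨nat_lit 10, nat_lit 98, nat_lit 100, nat_lit 83, nat_lit 15113966⟩]⟩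
noncomputable def p032_l82 : Lf2 := ⟨nat_lit 0, nat_lit 10, [nat_lit 0, nat_lit 5, nat_lit 5, nat_lit 20], false, nat_lit 0, nat_lit 160, nat_lit 0, nat_lit 288, ⟨nat_lit 179, nat_lit 821, nat_lit 0, nat_lit 6, nat_lit 283, nat_lit 454, nat_lit 48, nat_lit 0, nat_lit 0, nat_lit 0, nat_lit 0, nat_lit 0, nat_lit 44680513, nat_lit 22319487, nat_lit 0, nat_lit 3181853, true, true⟩,
 nat_lit 0, nat_lit 0, nat_lit 3377, nat_lit 0, nat_lit 5710, nat_lit 1787, nat_lit 212, nat_lit 0, nat_lit 0, nat_lit 185, nat_lit 0, nat_lit 0, nat_lit 0, nat_lit 0, nat_lit 0, nat_lit 821000, nat_lit 0, nat_lit 0, [(nat_lit 9, [(nat_lit 2, nat_lit 821)])],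
 ⟨p032_k20, nat_lit 0, nat_lit 0, nat_lit 189, nat_lit 0, nat_lit 0, [nat_lit 3434497201, nat_lit 2801282800, nat_lit 1722638400], [], [nat_lit 21368828881, nat_lit 22336568241, nat_lit 25834466080, nat_lit 26720352880, nat_lit 18758699861, nat_lit 19663224241, nat_lit 22449493241, nat_lit 23165446121], nat_lit 0, nat_lit 0, nat_lit 0, nat_lit 0, nat_lit 0, nat_lit 0, [], [nat_lit 29, nat_lit 40, nat_lit 20, nat_lit 80, nat_lit 17, nat_lit 428, nat_lit 200, nat_lit 12]⟩, ⟨p032_k4, nat_lit 0, nat_lit 0, nat_lit 733, nat_lit 0, nat_lit 1056957, [nat_lit 839152000, nat_lit 1426272000, nat_lit 2125088000], [], [nat_lit 6103237544, nat_lit 6146446594, nat_lit 6325738328, nat_lit 6348431150, nat_lit 4918821903, nat_lit 4923695324, nat_lit 4982526865, nat_lit 5004746564], nat_lit 1271250, nat_lit 1271250, nat_lit 1271250, nat_lit 1271250, nat_lit 0, nat_lit 2034000, [nat_lit 1100000, nat_lit 1785000, nat_lit 1271250],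 [nat_lit 21, nat_lit 40, nat_lit 20, nat_lit 80, nat_lit 14, nat_lit 456, nat_lit 225, nat_lit 11]⟩,
 ⟨nat_lit 5477, nat_lit 5917, ⟨.ofNat (nat_lit 621176), .ofNat (nat_lit 778206), .ofNat (nat_lit 642507), .ofNat (nat_lit 799537), .ofNat (nat_lit 617611), .ofNat (nat_lit 767439), .ofNat (nat_lit 638960), .ofNat (nat_lit 788788)⟩, ⟨.negSucc (nat_lit 84722), .ofNat (nat_lit 229411), .negSucc (nat_lit 63383), .ofNat (nat_lit 250751), .negSucc (nat_lit 66879), .ofNat (nat_lit 232852), .negSucc (nat_lit 45522), .ofNat (nat_lit 254209)⟩⟩, [⟨nat_lit 7, nat_lit 99, nat_lit 100, nat_lit 54, nat_lit 1415175⟩, ⟨nat_lit 10, nat_lit 98, nat_lit 100, nat_lit 83, nat_lit 9338374⟩]⟩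
noncomputable def p032_l83 : Lf2 := ⟨nat_lit 0, nat_lit 10, [nat_lit 0, nat_lit 5, nat_lit 5, nat_lit 20], false, nat_lit 0, nat_lit 160, nat_lit 0, nat_lit 288, ⟨nat_lit 869, nat_lit 131, nat_lit 0, nat_lit 8, nat_lit 348, nat_lit 131, nat_lit 48, nat_lit 0, nat_lit 0, nat_lit 0, nat_lit 0, nat_lit 0, nat_lit 38153220, nat_lit 28846780, nat_lit 0, nat_lit 3417344, true, true⟩,
 nat_lit 0, nat_lit 0, nat_lit 14528, nat_lit 0, nat_lit 7158, nat_lit 7691, nat_lit 1040, nat_lit 0, nat_lit 0, nat_lit 804, nat_lit 0, nat_lit 0, nat_lit 0, nat_lit 0, nat_lit 0, nat_lit 131000, nat_lit 0, nat_lit 0, [(nat_lit 6, [(nat_lit 2, nat_lit 131)])],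
 ⟨p032_k4, nat_lit 0, nat_lit 0, nat_lit 251, nat_lit 0, nat_lit 0, [nat_lit 4509787600, nat_lit 7239308134, nat_lit 10321326800], [], [nat_lit 30852976304, nat_lit 31683325536, nat_lit 37519329806, nat_lit 38261833694, nat_lit 24955063104, nat_lit 25661963886, nat_lit 31163654910, nat_lit 31803095186], nat_lit 0, nat_lit 0, nat_lit 0, nat_lit 0, nat_lit 0, nat_lit 0, [], [nat_lit 21, nat_lit 40, nat_lit 20, nat_lit 80, nat_lit 14, nat_lit 345, nat_lit 125, nat_lit 8]⟩, ⟨p032_k4, nat_lit 0, nat_lit 0, nat_lit 558, nat_lit 0, nat_lit 693480, [nat_lit 4073872000, nat_lit 6924192000, nat_lit 10316768000], [], [nat_lit 33287415768, nat_lit 33424331150, nat_lit 36014188944, nat_lit 36085710781, nat_lit 28378016305, nat_lit 28421322866, nat_lit 30016225702, nat_lit 30014830360], nat_lit 1271250, nat_lit 1271250, nat_lit 1271250, nat_lit 1271250, nat_lit 0, nat_lit 2034000, [nat_lit 1100000, nat_lit 1785000, nat_lit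 1271250], [nat_lit 21, nat_lit 40, nat_lit 20, nat_lit 80, nat_lit 14, nat_lit 373, nat_lit 150, nat_lit 9]⟩,
 ⟨nat_lit 5916, nat_lit 6325, ⟨.ofNat (nat_lit 789440), .ofNat (nat_lit 953920), .ofNat (nat_lit 800121), .ofNat (nat_lit 964601), .ofNat (nat_lit 778191), .ofNat (nat_lit 935210), .ofNat (nat_lit 788857), .ofNat (nat_lit 945876)⟩, ⟨.negSucc (nat_lit 103633), .ofNat (nat_lit 225423), .negSucc (nat_lit 82265), .ofNat (nat_lit 246791), .negSucc (nat_lit 84722), .ofNat (nat_lit 229411), .negSucc (nat_lit 63383), .ofNat (nat_lit 250751)⟩⟩, [⟨nat_lit 22, nat_lit 60, nat_lit 100, nat_lit 80, nat_lit 102138282⟩]⟩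
noncomputable def p032_l84 : Lf2 := ⟨nat_lit 0, nat_lit 10, [nat_lit 0, nat_lit 5, nat_lit 5, nat_lit 20], false, nat_lit 0, nat_lit 80, nat_lit 0, nat_lit 260, ⟨nat_lit 443, nat_lit 557, nat_lit 0, nat_lit 8, nat_lit 342, nat_lit 317, nat_lit 18, nat_lit 0, nat_lit 0, nat_lit 0, nat_lit 0, nat_lit 0, nat_lit 38710305, nat_lit 28289695, nat_lit 0, nat_lit 3405013, true, true⟩,
 nat_lit 0, nat_lit 0, nat_lit 6175, nat_lit 0, nat_lit 4522, nat_lit 3269, nat_lit 1760, nat_lit 0, nat_lit 0, nat_lit 325, nat_lit 0, nat_lit 0, nat_lit 0, nat_lit 0, nat_lit 0, nat_lit 222800, nat_lit 0, nat_lit 0, [(nat_lit 9, [(nat_lit 1, nat_lit 557)])],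
 ⟨p032_k20, nat_lit 0, nat_lit 0, nat_lit 226, nat_lit 0, nat_lit 0, [nat_lit 3604523601, nat_lit 5222435601, nat_lit 5965280000], [], [nat_lit 26494905474, nat_lit 27279770714, nat_lit 31269654070, nat_lit 31854734754, nat_lit 24422937314, nat_lit 25169558586, nat_lit 28928685010, nat_lit 29502708274], nat_lit 0, nat_lit 0, nat_lit 0, nat_lit 0, nat_lit 0, nat_lit 0, [], [nat_lit 29, nat_lit 40, nat_lit 20, nat_lit 80, nat_lit 17, nat_lit 317, nat_lit 100, nat_lit 8]⟩, ⟨p032_k4, nat_lit 0, nat_lit 0, nat_lit 683, nat_lit 0, nat_lit 960771, [nat_lit 2076784000, nat_lit 3529824000, nat_lit 5259296000], [], [nat_lit 19246658236, nat_lit 19296835775, nat_lit 20302874884, nat_lit 20329087027, nat_lit 17306059065, nat_lit 17320373941, nat_lit 17962857600, nat_lit 17979322635], nat_lit 1271250, nat_lit 1271250, nat_lit 1271250, nat_lit 1271250, nat_lit 0, nat_lit 1836250, [nat_lit 1100000, nat_lit 1785000, nat_lit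 1271250], [nat_lit 21, nat_lit 40, nat_lit 20, nat_lit 80, nat_lit 14, nat_lit 373, nat_lit 150, nat_lit 9]⟩,
 ⟨nat_lit 5477, nat_lit 5917, ⟨.ofNat (nat_lit 778206), .ofNat (nat_lit 935234), .ofNat (nat_lit 788871), .ofNat (nat_lit 945900), .ofNat (nat_lit 767439), .ofNat (nat_lit 917267), .ofNat (nat_lit 778114), .ofNat (nat_lit 927941)⟩, ⟨.negSucc (nat_lit 84722), .ofNat (nat_lit 72344), .negSucc (nat_lit 63383), .ofNat (nat_lit 93684), .negSucc (nat_lit 66879), .ofNat (nat_lit 82986), .negSucc (nat_lit 45522), .ofNat (nat_lit 104343)⟩⟩, [⟨nat_lit 10, nat_lit 100, nat_lit 58, nat_lit 64, nat_lit 82154137⟩]⟩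
noncomputable def p032_l85 : Lf2 := ⟨nat_lit 0, nat_lit 10, [nat_lit 0, nat_lit 5, nat_lit 5, nat_lit 20], false, nat_lit 80, nat_lit 160, nat_lit 0, nat_lit 288, ⟨nat_lit 188, nat_lit 812, nat_lit 0, nat_lit 8, nat_lit 342, nat_lit 812, nat_lit 66, nat_lit 0, nat_lit 0, nat_lit 0, nat_lit 0, nat_lit 0, nat_lit 37420702, nat_lit 27517501, nat_lit 2061797, nat_lit 4147960, true, true⟩,
 nat_lit 0, nat_lit 0, nat_lit 3018, nat_lit 0, nat_lit 5111, nat_lit 1597, nat_lit 211, nat_lit 0, nat_lit 0, nat_lit 135, nat_lit 0, nat_lit 0, nat_lit 0, nat_lit 0, nat_lit 0, nat_lit 719000, nat_lit 0, nat_lit 0, [(nat_lit 9, [(nat_lit 1, nat_lit 155), (nat_lit 2, nat_lit 657)])],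
 ⟨p032_k20, nat_lit 0, nat_lit 0, nat_lit 155, nat_lit 0, nat_lit 0, [nat_lit 3383386400, nat_lit 3069341600, nat_lit 2265732800], [], [nat_lit 23699319656, nat_lit 24475317892, nat_lit 28487297304, nat_lit 29061102768, nat_lit 23764594284, nat_lit 24457588692, nat_lit 28082066718, nat_lit 28596299940], nat_lit 0, nat_lit 0, nat_lit 0, nat_lit 0, nat_lit 0, nat_lit 0, [], [nat_lit 29, nat_lit 40, nat_lit 20, nat_lit 80, nat_lit 17, nat_lit 345, nat_lit 125, nat_lit 9]⟩, ⟨p032_k4, nat_lit 0, nat_lit 0, nat_lit 683, nat_lit 0, nat_lit 960771, [nat_lit 881344000, nat_lit 1497984000, nat_lit 2231936000], [], [nat_lit 7533731748, nat_lit 7552899652, nat_lit 8002169392, nat_lit 8009685203, nat_lit 6423896070, nat_lit 6434198516, nat_lit 6775629980, nat_lit 6776584518], nat_lit 1271250, nat_lit 1271250, nat_lit 1271250, nat_lit 1271250, nat_lit 0, nat_lit 2034000, [nat_lit 1100000, nat_lit 1785000, nat_lit 1271250],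 [nat_lit 21, nat_lit 40, nat_lit 20, nat_lit 80, nat_lit 14, nat_lit 373, nat_lit 150, nat_lit 9]⟩,
 ⟨nat_lit 5477, nat_lit 5917, ⟨.ofNat (nat_lit 778206), .ofNat (nat_lit 935234), .ofNat (nat_lit 788871), .ofNat (nat_lit 945900), .ofNat (nat_lit 767439), .ofNat (nat_lit 917267), .ofNat (nat_lit 778114), .ofNat (nat_lit 927941)⟩, ⟨.ofNat (nat_lit 72344), .ofNat (nat_lit 229411), .ofNat (nat_lit 93684), .ofNat (nat_lit 250751), .ofNat (nat_lit 82986), .ofNat (nat_lit 232852), .ofNat (nat_lit 104343), .ofNat (nat_lit 254209)⟩⟩, [⟨nat_lit 13, nat_lit 96, nat_lit 13, nat_lit 100, nat_lit 20691389⟩, ⟨nat_lit 10, nat_lit 100, nat_lit 13, nat_lit 95, nat_lit 96786786⟩]⟩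
noncomputable def p032_l86 : Lf2 := ⟨nat_lit 0, nat_lit 10, [nat_lit 0, nat_lit 5, nat_lit 5, nat_lit 20], false, nat_lit 0, nat_lit 160, nat_lit 0, nat_lit 280, ⟨nat_lit 1000, nat_lit 0, nat_lit 0, nat_lit 0, nat_lit 0, nat_lit 0, nat_lit 0, nat_lit 0, nat_lit 0, nat_lit 0, nat_lit 0, nat_lit 0, nat_lit 0, nat_lit 0, nat_lit 0, nat_lit 0, false, false⟩,
 nat_lit 0, nat_lit 0, nat_lit 12397, nat_lit 0, nat_lit 7242, nat_lit 6887, nat_lit 1028, nat_lit 0, nat_lit 0, nat_lit 3611, nat_lit 0, nat_lit 0, nat_lit 0, nat_lit 0, nat_lit 0, nat_lit 0, nat_lit 0, nat_lit 0, [],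
 ⟨p032_k19, nat_lit 0, nat_lit 0, nat_lit 226, nat_lit 0, nat_lit 0, [nat_lit 4688000000, nat_lit 7968000001, nat_lit 9842000000], [], [nat_lit 30835457656, nat_lit 32294538496, nat_lit 37851381185, nat_lit 38968908953, nat_lit 25179665761, nat_lit 26406236633, nat_lit 31338152287, nat_lit 32299911073], nat_lit 0, nat_lit 0, nat_lit 0, nat_lit 0, nat_lit 0, nat_lit 0, [], [nat_lit 29, nat_lit 40, nat_lit 20, nat_lit 80, nat_lit 17, nat_lit 345, nat_lit 125, nat_lit 9]⟩, ⟨p032_k19, nat_lit 0, nat_lit 0, nat_lit 630, nat_lit 0, nat_lit 986074, [nat_lit 4688000000, nat_lit 7968000000, nat_lit 9842000000], [], [nat_lit 33962100266, nat_lit 34060562724, nat_lit 36554076226, nat_lit 37049232948, nat_lit 30264572362, nat_lit 30298713303, nat_lit 32009889074, nat_lit 32329624778], nat_lit 1271250, nat_lit 1271250, nat_lit 1271250, nat_lit 1271250, nat_lit 0, nat_lit 1977500, [nat_lit 1100000, nat_lit 1785000, nat_lit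 1271250], [nat_lit 29, nat_lit 40, nat_lit 20, nat_lit 80, nat_lit 17, nat_lit 373, nat_lit 150, nat_lit 10]⟩,
 zbF0, [⟨nat_lit 19, nat_lit 100, nat_lit 100, nat_lit 55, nat_lit 90209454⟩, ⟨nat_lit 22, nat_lit 60, nat_lit 100, nat_lit 80, nat_lit 87196068⟩]⟩
noncomputable def p032_l87 : Lf2 := ⟨nat_lit 0, nat_lit 10, [nat_lit 0, nat_lit 5, nat_lit 5, nat_lit 20], false, nat_lit 0, nat_lit 160, nat_lit 0, nat_lit 268, ⟨nat_lit 1000, nat_lit 0, nat_lit 0, nat_lit 0, nat_lit 0, nat_lit 0, nat_lit 0, nat_lit 0, nat_lit 0, nat_lit 0, nat_lit 0, nat_lit 0, nat_lit 0, nat_lit 0, nat_lit 0, nat_lit 0, false, false⟩,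
 nat_lit 0, nat_lit 0, nat_lit 11845, nat_lit 0, nat_lit 6589, nat_lit 6894, nat_lit 2278, nat_lit 0, nat_lit 0, nat_lit 2056, nat_lit 0, nat_lit 0, nat_lit 0, nat_lit 0, nat_lit 0, nat_lit 0, nat_lit 0, nat_lit 0, [],
 ⟨p032_k20, nat_lit 0, nat_lit 0, nat_lit 226, nat_lit 0, nat_lit 0, [nat_lit 4688000000, nat_lit 7968000001, nat_lit 9842000000], [], [nat_lit 23064518925, nat_lit 24223321129, nat_lit 36286292156, nat_lit 37259794824, nat_lit 19921101375, nat_lit 20882389817, nat_lit 29149328156, nat_lit 30022742232], nat_lit 0, nat_lit 0, nat_lit 0, nat_lit 0, nat_lit 0, nat_lit 0, [], [nat_lit 29, nat_lit 40, nat_lit 20, nat_lit 80, nat_lit 17, nat_lit 456, nat_lit 225, nat_lit 13]⟩, ⟨p032_k20, nat_lit 0, nat_lit 0, nat_lit 697, nat_lit 0, nat_lit 1107523, [nat_lit 4688000000, nat_lit 7968000000, nat_lit 9842000000], [], [nat_lit 31963203780, nat_lit 32303562480, nat_lit 37067154376, nat_lit 38057862704,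 nat_lit 29408606259, nat_lit 29644105520, nat_lit 32406057717, nat_lit 32539833159], nat_lit 1271250, nat_lit 1271250, nat_lit 1271250, nat_lit 1271250, nat_lit 0, nat_lit 1892750, [nat_lit 1100000, nat_lit 1785000, nat_lit 1271250], [nat_lit 29, nat_lit 40, nat_lit 20, nat_lit 80, nat_lit 17, nat_lit 483, nat_lit 250, nat_lit 14]⟩,
 zbF0, [⟨nat_lit 19, nat_lit 96, nat_lit 100, nat_lit 54, nat_lit 134532294⟩]⟩
noncomputable def p032_l88 : Lf2 := ⟨nat_lit 0, nat_lit 10, [nat_lit 0, nat_lit 5, nat_lit 5, nat_lit 20], false, nat_lit 160, nat_lit 288, nat_lit 0, nat_lit 288, ⟨nat_lit 61, nat_lit 939, nat_lit 0, nat_lit 6, nat_lit 288, nat_lit 939, nat_lit 146, nat_lit 0, nat_lit 0, nat_lit 0, nat_lit 0, nat_lit 0, nat_lit 38848346, nat_lit 21041516, nat_lit 7110138, nat_lit 4913391, true, true⟩,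
 nat_lit 0, nat_lit 0, nat_lit 1132, nat_lit 0, nat_lit 4937, nat_lit 599, nat_lit 0, nat_lit 0, nat_lit 0, nat_lit 60, nat_lit 0, nat_lit 0, nat_lit 0, nat_lit 9705398275242, nat_lit 0, nat_lit 234750, nat_lit 0, nat_lit 0, [(nat_lit 6, [(nat_lit 0, nat_lit 939)]), (nat_lit 9, [(nat_lit 0, nat_lit 939)])],
 ⟨p032_k4, nat_lit 0, nat_lit 0, nat_lit 53, nat_lit 0, nat_lit 0, [nat_lit 3223160000, nat_lit 3811360001, nat_lit 4357495199], [], [nat_lit 15300284688, nat_lit 17703760940, nat_lit 20392376416, nat_lit 22297238172, nat_lit 20918389968, nat_lit 22699344401, nat_lit 24740244343, nat_lit 26157019129], nat_lit 0, nat_lit 0, nat_lit 0, nat_lit 0, nat_lit 0, nat_lit 0, [], [nat_lit 21, nat_lit 40, nat_lit 20, nat_lit 80, nat_lit 14, nat_lit 456, nat_lit 225, nat_lit 11]⟩, ⟨p032_k4, nat_lit 0, nat_lit 0, nat_lit 840, nat_lit 0, nat_lit 1268867, [nat_lit 285968000, nat_lit 486048000, nat_lit 724192000], [], [nat_lit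 2194183660, nat_lit 2204329232, nat_lit 2228869832, nat_lit 2228648180, nat_lit 1763181715, nat_lit 1753861689, nat_lit 1756847303, nat_lit 1763632549], nat_lit 1271250, nat_lit 1271250, nat_lit 1271250, nat_lit 1271250, nat_lit 0, nat_lit 2034000, [nat_lit 1100000, nat_lit 1785000, nat_lit 1271250], [nat_lit 21, nat_lit 40, nat_lit 20, nat_lit 80, nat_lit 14, nat_lit 456, nat_lit 225, nat_lit 11]⟩,
 ⟨nat_lit 5477, nat_lit 6325, ⟨.ofNat (nat_lit 624852), .ofNat (nat_lit 789207), .ofNat (nat_lit 667525), .ofNat (nat_lit 831881), .ofNat (nat_lit 617499), .ofNat (nat_lit 767192), .ofNat (nat_lit 660151), .ofNat (nat_lit 809844)⟩, ⟨.ofNat (nat_lit 225423), .ofNat (nat_lit 488669), .ofNat (nat_lit 246791), .ofNat (nat_lit 510037), .ofNat (nat_lit 232852), .ofNat (nat_lit 472638), .ofNat (nat_lit 254209), .ofNat (nat_lit 493995)⟩⟩, [⟨nat_lit 16, nat_lit 98, nat_lit 100, nat_lit 54, nat_lit 261519117⟩, ⟨nat_lit 19,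 nat_lit 98, nat_lit 100, nat_lit 54, nat_lit 4678518⟩]⟩
noncomputable def p032_l89 : Lf2 := ⟨nat_lit 0, nat_lit 10, [nat_lit 0, nat_lit 5, nat_lit 5, nat_lit 20], false, nat_lit 160, nat_lit 288, nat_lit 16, nat_lit 288, ⟨nat_lit 123, nat_lit 877, nat_lit 0, nat_lit 8, nat_lit 350, nat_lit 877, nat_lit 147, nat_lit 0, nat_lit 0, nat_lit 0, nat_lit 0, nat_lit 0, nat_lit 34049374, nat_lit 26454520, nat_lit 6496106, nat_lit 5005900, true, true⟩,
 nat_lit 0, nat_lit 0, nat_lit 2050, nat_lit 0, nat_lit 4324, nat_lit 1085, nat_lit 0, nat_lit 0, nat_lit 0, nat_lit 107, nat_lit 0, nat_lit 0, nat_lit 0, nat_lit 4640518222618, nat_lit 0, nat_lit 350800, nat_lit 0, nat_lit 0, [(nat_lit 6, [(nat_lit 1, nat_lit 877)])],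
 ⟨p032_k4, nat_lit 0, nat_lit 0, nat_lit 94, nat_lit 0, nat_lit 0, [nat_lit 3065550000, nat_lit 3870772934, nat_lit 4117566000], [], [nat_lit 20796784432, nat_lit 21702324488, nat_lit 26390434400, nat_lit 27066839728, nat_lit 25019264925, nat_lit 25703706332, nat_lit 29416836848, nat_lit 29929852874], nat_lit 0, nat_lit 0, nat_lit 0, nat_lit 0, nat_lit 0, nat_lit 0, [], [nat_lit 21, nat_lit 40, nat_lit 20, nat_lit 80, nat_lit 14, nat_lit 373, nat_lit 150, nat_lit 9]⟩, ⟨p032_k4, nat_lit 0, nat_lit 0, nat_lit 583, nat_lit 0, nat_lit 795893, [nat_lit 576624000, nat_lit 980064000, nat_lit 1460256000], [], [nat_lit 4618167370, nat_lit 4656288398, nat_lit 4998252946, nat_lit 5018175823, nat_lit 4031998486, nat_lit 4044358368, nat_lit 4263729819, nat_lit 4267143847], nat_lit 1271250, nat_lit 1271250, nat_lit 1271250, nat_lit 1271250, nat_lit 88400, nat_lit 2050200, [nat_lit 1100000, nat_lit 1785000, nat_lit 1271250],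 [nat_lit 21, nat_lit 40, nat_lit 20, nat_lit 80, nat_lit 14, nat_lit 373, nat_lit 150, nat_lit 9]⟩,
 ⟨nat_lit 5916, nat_lit 6325, ⟨.ofNat (nat_lit 789440), .ofNat (nat_lit 953920), .ofNat (nat_lit 810801), .ofNat (nat_lit 975281), .ofNat (nat_lit 778191), .ofNat (nat_lit 935210), .ofNat (nat_lit 799523), .ofNat (nat_lit 956542)⟩, ⟨.ofNat (nat_lit 225423), .ofNat (nat_lit 488669), .ofNat (nat_lit 246791), .ofNat (nat_lit 510037), .ofNat (nat_lit 229411), .ofNat (nat_lit 480719), .ofNat (nat_lit 250751), .ofNat (nat_lit 502058)⟩⟩, [⟨nat_lit 4, nat_lit 99, nat_lit 100, nat_lit 54, nat_lit 197933666⟩, ⟨nat_lit 7, nat_lit 99, nat_lit 100, nat_lit 54, nat_lit 15716569⟩]⟩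
noncomputable def p032_l90 : Lf2 := ⟨nat_lit 0, nat_lit 10, [nat_lit 0, nat_lit 5, nat_lit 5, nat_lit 20], false, nat_lit 160, nat_lit 268, nat_lit 16, nat_lit 288, ⟨nat_lit 109, nat_lit 891, nat_lit 0, nat_lit 8, nat_lit 344, nat_lit 891, nat_lit 138, nat_lit 0, nat_lit 0, nat_lit 0, nat_lit 0, nat_lit 0, nat_lit 34808688, nat_lit 26168409, nat_lit 6022903, nat_lit 4926884, true, true⟩,
 nat_lit 0, nat_lit 0, nat_lit 1840, nat_lit 0, nat_lit 4248, nat_lit 974, nat_lit 0, nat_lit 0, nat_lit 0, nat_lit 83, nat_lit 0, nat_lit 0, nat_lit 0, nat_lit 0, nat_lit 0, nat_lit 356400, nat_lit 0, nat_lit 0, [(nat_lit 9, [(nat_lit 1, nat_lit 891)])],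
 ⟨p032_k20, nat_lit 0, nat_lit 0, nat_lit 97, nat_lit 0, nat_lit 0, [nat_lit 2954826800, nat_lit 3576082801, nat_lit 3640640000], [], [nat_lit 21655466976, nat_lit 22555193488, nat_lit 26971455456, nat_lit 27645119312, nat_lit 24855025487, nat_lit 25573365388, nat_lit 29231012840, nat_lit 29771291183], nat_lit 0, nat_lit 0, nat_lit 0, nat_lit 0, nat_lit 0, nat_lit 0, [], [nat_lit 29, nat_lit 40, nat_lit 20, nat_lit 80, nat_lit 17, nat_lit 373, nat_lit 150, nat_lit 10]⟩, ⟨p032_k4, nat_lit 0, nat_lit 0, nat_lit 708, nat_lit 0, nat_lit 1056957, [nat_lit 510992000, nat_lit 868512000, nat_lit 1294048000], [], [nat_lit 4245270237, nat_lit 4261264999, nat_lit 4477612254, nat_lit 4537546733, nat_lit 3647019801, nat_lit 3645564465, nat_lit 3778963272, nat_lit 3794688232], nat_lit 1271250, nat_lit 1271250, nat_lit 1271250, nat_lit 1271250, nat_lit 88400, nat_lit 2050200, [nat_lit 1100000, nat_lit 1785000, nat_lit 1271250],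 [nat_lit 21, nat_lit 40, nat_lit 20, nat_lit 80, nat_lit 14, nat_lit 373, nat_lit 150, nat_lit 9]⟩,
 ⟨nat_lit 5477, nat_lit 5917, ⟨.ofNat (nat_lit 778206), .ofNat (nat_lit 935234), .ofNat (nat_lit 799537), .ofNat (nat_lit 956565), .ofNat (nat_lit 767439), .ofNat (nat_lit 917267), .ofNat (nat_lit 788788), .ofNat (nat_lit 938616)⟩, ⟨.ofNat (nat_lit 229411), .ofNat (nat_lit 441452), .ofNat (nat_lit 250751), .ofNat (nat_lit 462791), .ofNat (nat_lit 232852), .ofNat (nat_lit 435171), .ofNat (nat_lit 254209), .ofNat (nat_lit 456528)⟩⟩, [⟨nat_lit 13, nat_lit 97, nat_lit 11, nat_lit 100, nat_lit 139338458⟩, ⟨nat_lit 16, nat_lit 96, nat_lit 100, nat_lit 54, nat_lit 194675746⟩, ⟨nat_lit 7, nat_lit 99, nat_lit 100, nat_lit 54, nat_lit 11237700⟩]⟩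
noncomputable def p032_l91 : Lf2 := ⟨nat_lit 0, nat_lit 10, [nat_lit 0, nat_lit 5, nat_lit 5, nat_lit 20], false, nat_lit 160, nat_lit 268, nat_lit 16, nat_lit 268, ⟨nat_lit 869, nat_lit 131, nat_lit 0, nat_lit 8, nat_lit 353, nat_lit 131, nat_lit 138, nat_lit 0, nat_lit 0, nat_lit 0, nat_lit 0, nat_lit 0, nat_lit 34163116, nat_lit 26898320, nat_lit 5938564, nat_lit 4928570, true, true⟩,
 nat_lit 0, nat_lit 0, nat_lit 10003, nat_lit 0, nat_lit 5393, nat_lit 5822, nat_lit 0, nat_lit 0, nat_lit 0, nat_lit 1825, nat_lit 0, nat_lit 0, nat_lit 0, nat_lit 0, nat_lit 0, nat_lit 52400, nat_lit 0, nat_lit 0, [(nat_lit 9, [(nat_lit 1, nat_lit 131)])],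
 ⟨p032_k20, nat_lit 0, nat_lit 0, nat_lit 97, nat_lit 0, nat_lit 0, [nat_lit 4433178800, nat_lit 7322274800, nat_lit 8930240000], [], [nat_lit 22171631966, nat_lit 23158944108, nat_lit 28218714396, nat_lit 28933680692, nat_lit 25494601210, nat_lit 26264995216, nat_lit 30412315085, nat_lit 30968613009], nat_lit 0, nat_lit 0, nat_lit 0, nat_lit 0, nat_lit 0, nat_lit 0, [], [nat_lit 29, nat_lit 40, nat_lit 20, nat_lit 80, nat_lit 17, nat_lit 373, nat_lit 150, nat_lit 10]⟩, ⟨p032_k20, nat_lit 0, nat_lit 0, nat_lit 664, nat_lit 0, nat_lit 1107523, [nat_lit 4073872000, nat_lit 6924192000, nat_lit 8552698000], [], [nat_lit 29421595664, nat_lit 29639153153, nat_lit 31367949428, nat_lit 31604485371, nat_lit 27535263376, nat_lit 27728534076, nat_lit 29176911516, nat_lit 29297876591], nat_lit 1271250, nat_lit 1271250, nat_lit 1271250, nat_lit 1271250, nat_lit 88400, nat_lit 1905950, [nat_lit 1100000, nat_lit 1785000,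 nat_lit 1271250], [nat_lit 29, nat_lit 40, nat_lit 20, nat_lit 80, nat_lit 17, nat_lit 373, nat_lit 150, nat_lit 10]⟩,
 ⟨nat_lit 5477, nat_lit 5917, ⟨.ofNat (nat_lit 799537), .ofNat (nat_lit 956565), .ofNat (nat_lit 820868), .ofNat (nat_lit 977896), .ofNat (nat_lit 788788), .ofNat (nat_lit 938616), .ofNat (nat_lit 810137), .ofNat (nat_lit 959965)⟩, ⟨.ofNat (nat_lit 229411), .ofNat (nat_lit 441452), .ofNat (nat_lit 250751), .ofNat (nat_lit 462791), .ofNat (nat_lit 232852), .ofNat (nat_lit 435171), .ofNat (nat_lit 254209), .ofNat (nat_lit 456528)⟩⟩, [⟨nat_lit 4, nat_lit 100, nat_lit 96, nat_lit 54, nat_lit 531164748⟩, ⟨nat_lit 7, nat_lit 100, nat_lit 96, nat_lit 54, nat_lit 207791141⟩]⟩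
noncomputable def b_VL_600_600_5_2 : St := ⟨true, nat_lit 0, nat_lit 1, nat_lit 1, nat_lit 40, nat_lit 240, nat_lit 280, nat_lit 240, nat_lit 280, nat_lit 240, nat_lit 400, nat_lit 20, nat_lit 40, nat_lit 0, nat_lit 288, nat_lit 0, nat_lit 288, nat_lit 0, nat_lit 40, nat_lit 0, nat_lit 0, nat_lit 0, nat_lit 0⟩
theorem d_VL_600_600_5_2 (h : EB TB.env) : Dead b_VL_600_600_5_2 := chkB_sound0 h (T :=
(.spl (nat_lit 4) (nat_lit 160)
(.spl (nat_lit 1) (nat_lit 260)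
(.spl (nat_lit 2) (nat_lit 320)
(.spl (nat_lit 0) (nat_lit 260)
(.leaf p032_l81)
(.leaf p032_l82))
(.spl (nat_lit 1) (nat_lit 250)
(.spl (nat_lit 0) (nat_lit 260)
(.leaf p032_l83)
(.spl (nat_lit 4) (nat_lit 80)
(.trX (nat_lit 22) (nat_lit 83) (nat_lit 100) (nat_lit 83) (nat_lit 260) (.leaf p032_l84))
(.leaf p032_l85)))
(.ord (.trX (nat_lit 19) (nat_lit 100) (nat_lit 95) (nat_lit 62) (nat_lit 280) (.leaf p032_l86)))))
(.ord (.trX (nat_lit 19) (nat_lit 100) (nat_lit 99) (nat_lit 63) (nat_lit 268) (.leaf p032_l87))))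
(.spl (nat_lit 2) (nat_lit 320)
(.leaf p032_l88)
(.trZ (nat_lit 9) (nat_lit 100) (nat_lit 82) (nat_lit 44) (nat_lit 16) (.spl (nat_lit 1) (nat_lit 260)
(.spl (nat_lit 0) (nat_lit 260)
(.leaf p032_l89)
(.trX (nat_lit 16) (nat_lit 100) (nat_lit 99) (nat_lit 63) (nat_lit 268) (.leaf p032_l90)))
(.ord (.trX (nat_lit 16) (nat_lit 100) (nat_lit 99) (nat_lit 63) (nat_lit 268) (.trX (nat_lit 19) (nat_lit 100) (nat_lit 99) (nat_lit 63) (nat_lit 268) (.leaf p032_l91))))))))) (by decide +kernel)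
noncomputable def p032_l92 : Lf2 := ⟨nat_lit 0, nat_lit 10, [nat_lit 0, nat_lit 5, nat_lit 5, nat_lit 20], true, nat_lit 0, nat_lit 288, nat_lit 0, nat_lit 288, ⟨nat_lit 0, nat_lit 1000, nat_lit 0, nat_lit 6, nat_lit 169, nat_lit 1000, nat_lit 98, nat_lit 0, nat_lit 0, nat_lit 0, nat_lit 0, nat_lit 0, nat_lit 0, nat_lit 0, nat_lit 0, nat_lit 5000000, false, false⟩,
 nat_lit 0, nat_lit 0, nat_lit 0, nat_lit 0, nat_lit 6604, nat_lit 0, nat_lit 0, nat_lit 0, nat_lit 0, nat_lit 0, nat_lit 0, nat_lit 0, nat_lit 0, nat_lit 11612829016681, nat_lit 0, nat_lit 1000000, nat_lit 0, nat_lit 0, [(nat_lit 6, [(nat_lit 2, nat_lit 1000)]), (nat_lit 9, [(nat_lit 2, nat_lit 1000)])],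
 ⟨p032_k21, nat_lit 0, nat_lit 0, nat_lit 350, nat_lit 0, nat_lit 0, [nat_lit 4196720001, nat_lit 351279999], [], [nat_lit 26409117682, nat_lit 28029024095, nat_lit 23780550046, nat_lit 24973882111, nat_lit 24208731208, nat_lit 26028261095, nat_lit 22114268889, nat_lit 23393100243], nat_lit 0, nat_lit 0, nat_lit 0, nat_lit 0, nat_lit 0, nat_lit 0, [], [nat_lit 116, nat_lit 40, nat_lit 20, nat_lit 80, nat_lit 65, nat_lit 456, nat_lit 225, nat_lit 12]⟩, C1.Rw.none,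
 ⟨nat_lit 5477, nat_lit 6325, ⟨.ofNat (nat_lit 164319), .ofNat (nat_lit 624852), .ofNat (nat_lit 207055), .ofNat (nat_lit 667525), .ofNat (nat_lit 198021), .ofNat (nat_lit 617499), .ofNat (nat_lit 240735), .ofNat (nat_lit 660151)⟩, ⟨.negSucc (nat_lit 103633), .ofNat (nat_lit 488669), .negSucc (nat_lit 82265), .ofNat (nat_lit 510037), .negSucc (nat_lit 66879), .ofNat (nat_lit 472638), .negSucc (nat_lit 45522), .ofNat (nat_lit 493995)⟩⟩, [⟨nat_lit 0, nat_lit 100, nat_lit 100, nat_lit 80, nat_lit 45594860⟩, ⟨nat_lit 4, nat_lit 100, nat_lit 98, nat_lit 54, nat_lit 22223534⟩]⟩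
noncomputable def p032_l93 : Lf2 := ⟨nat_lit 0, nat_lit 10, [nat_lit 0, nat_lit 5, nat_lit 5, nat_lit 20], false, nat_lit 0, nat_lit 288, nat_lit 0, nat_lit 288, ⟨nat_lit 1000, nat_lit 0, nat_lit 0, nat_lit 0, nat_lit 0, nat_lit 0, nat_lit 0, nat_lit 0, nat_lit 0, nat_lit 0, nat_lit 0, nat_lit 0, nat_lit 0, nat_lit 0, nat_lit 0, nat_lit 0, false, false⟩,
 nat_lit 0, nat_lit 0, nat_lit 0, nat_lit 6117, nat_lit 8195, nat_lit 8195, nat_lit 950, nat_lit 0, nat_lit 0, nat_lit 965, nat_lit 0, nat_lit 0, nat_lit 0, nat_lit 0, nat_lit 0, nat_lit 0, nat_lit 0, nat_lit 0, [],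
 ⟨p032_k4, nat_lit 0, nat_lit 0, nat_lit 251, nat_lit 0, nat_lit 0, [nat_lit 4688000000, nat_lit 7968000001, nat_lit 11872000000], [], [nat_lit 28450012020, nat_lit 30797375960, nat_lit 40350984520, nat_lit 41462080120, nat_lit 26076188368, nat_lit 27426142004, nat_lit 33811280061, nat_lit 34671915166], nat_lit 0, nat_lit 0, nat_lit 0, nat_lit 0, nat_lit 0, nat_lit 0, [], [nat_lit 21, nat_lit 40, nat_lit 20, nat_lit 80, nat_lit 14, nat_lit 483, nat_lit 250, nat_lit 12]⟩, ⟨p032_k4, nat_lit 0, nat_lit 0, nat_lit 251, nat_lit 0, nat_lit 0, [nat_lit 4688000000, nat_lit 7968000000, nat_lit 11872000000], [], [nat_lit 28350074520, nat_lit 30697438460, nat_lit 40251047020, nat_lit 41462080120, nat_lit 25976250868, nat_lit 27326204504, nat_lit 33811280060, nat_lit 34671915165], nat_lit 0, nat_lit 0, nat_lit 0, nat_lit 0, nat_lit 0, nat_lit 0, [], [nat_lit 21, nat_lit 40, nat_lit 20, nat_lit 80, nat_lit 14, nat_lit 483,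 nat_lit 250, nat_lit 12]⟩,
 zbF0, [⟨nat_lit 4, nat_lit 100, nat_lit 98, nat_lit 54, nat_lit 112979322⟩, ⟨nat_lit 7, nat_lit 100, nat_lit 98, nat_lit 54, nat_lit 112979322⟩]⟩
noncomputable def p032_l94 : Lf2 := ⟨nat_lit 0, nat_lit 10, [nat_lit 0, nat_lit 5, nat_lit 5, nat_lit 20], true, nat_lit 0, nat_lit 288, nat_lit 0, nat_lit 288, ⟨nat_lit 0, nat_lit 1000, nat_lit 0, nat_lit 6, nat_lit 169, nat_lit 1000, nat_lit 98, nat_lit 0, nat_lit 0, nat_lit 0, nat_lit 0, nat_lit 0, nat_lit 0, nat_lit 0, nat_lit 0, nat_lit 5000000, false, false⟩,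
 nat_lit 0, nat_lit 0, nat_lit 0, nat_lit 0, nat_lit 6604, nat_lit 0, nat_lit 0, nat_lit 0, nat_lit 0, nat_lit 0, nat_lit 0, nat_lit 0, nat_lit 0, nat_lit 11612829016681, nat_lit 0, nat_lit 1000000, nat_lit 0, nat_lit 0, [(nat_lit 6, [(nat_lit 2, nat_lit 1000)]), (nat_lit 9, [(nat_lit 2, nat_lit 1000)])],
 ⟨p032_k21, nat_lit 0, nat_lit 0, nat_lit 350, nat_lit 0, nat_lit 0, [nat_lit 4196720001, nat_lit 351279999], [], [nat_lit 26409117682, nat_lit 28029024095, nat_lit 23780550046, nat_lit 24973882111, nat_lit 24208731208, nat_lit 26028261095, nat_lit 22114268889, nat_lit 23393100243], nat_lit 0, nat_lit 0, nat_lit 0, nat_lit 0, nat_lit 0, nat_lit 0, [], [nat_lit 116, nat_lit 40, nat_lit 20, nat_lit 80, nat_lit 65, nat_lit 456, nat_lit 225, nat_lit 12]⟩, C1.Rw.none,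
 ⟨nat_lit 5477, nat_lit 6325, ⟨.ofNat (nat_lit 164319), .ofNat (nat_lit 624852), .ofNat (nat_lit 207055), .ofNat (nat_lit 667525), .ofNat (nat_lit 198021), .ofNat (nat_lit 617499), .ofNat (nat_lit 240735), .ofNat (nat_lit 660151)⟩, ⟨.negSucc (nat_lit 103633), .ofNat (nat_lit 488669), .negSucc (nat_lit 82265), .ofNat (nat_lit 510037), .negSucc (nat_lit 66879), .ofNat (nat_lit 472638), .negSucc (nat_lit 45522), .ofNat (nat_lit 493995)⟩⟩, [⟨nat_lit 0, nat_lit 100, nat_lit 100, nat_lit 80, nat_lit 45594860⟩, ⟨nat_lit 4, nat_lit 100, nat_lit 98, nat_lit 54, nat_lit 22223534⟩]⟩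
noncomputable def p032_l95 : Lf2 := ⟨nat_lit 0, nat_lit 10, [nat_lit 0, nat_lit 5, nat_lit 5, nat_lit 20], false, nat_lit 0, nat_lit 160, nat_lit 0, nat_lit 288, ⟨nat_lit 147, nat_lit 853, nat_lit 0, nat_lit 6, nat_lit 320, nat_lit 853, nat_lit 48, nat_lit 0, nat_lit 0, nat_lit 0, nat_lit 0, nat_lit 0, nat_lit 0, nat_lit 0, nat_lit 0, nat_lit 5000000, true, true⟩,
 nat_lit 0, nat_lit 0, nat_lit 2377, nat_lit 0, nat_lit 4214, nat_lit 1258, nat_lit 393, nat_lit 0, nat_lit 0, nat_lit 84, nat_lit 0, nat_lit 0, nat_lit 0, nat_lit 15713276043571, nat_lit 0, nat_lit 341200, nat_lit 0, nat_lit 0, [(nat_lit 6, [(nat_lit 1, nat_lit 853)]), (nat_lit 9, [(nat_lit 1, nat_lit 853)])],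
 ⟨p032_k4, nat_lit 0, nat_lit 0, nat_lit 251, nat_lit 0, nat_lit 0, [nat_lit 3109950000, nat_lit 3982897734, nat_lit 4329774000], [], [nat_lit 24876416084, nat_lit 26412623844, nat_lit 32211549308, nat_lit 33146570636, nat_lit 23464772324, nat_lit 24782000708, nat_lit 29840126438, nat_lit 30848855294], nat_lit 0, nat_lit 0, nat_lit 0, nat_lit 0, nat_lit 0, nat_lit 0, [], [nat_lit 21, nat_lit 40, nat_lit 20, nat_lit 80, nat_lit 14, nat_lit 456, nat_lit 225, nat_lit 11]⟩, ⟨p032_k4, nat_lit 0, nat_lit 0, nat_lit 840, nat_lit 0, nat_lit 1268867, [nat_lit 689136000, nat_lit 1171296000, nat_lit 1745184000], [], [nat_lit 6371225804, nat_lit 6382980120, nat_lit 6583272756, nat_lit 6554432612, nat_lit 5451755509, nat_lit 5427725057, nat_lit 5542249940, nat_lit 5500738821], nat_lit 1271250, nat_lit 1271250, nat_lit 1271250, nat_lit 1271250, nat_lit 0, nat_lit 2034000, [nat_lit 1100000, nat_lit 1785000, nat_lit 1271250],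 [nat_lit 21, nat_lit 40, nat_lit 20, nat_lit 80, nat_lit 14, nat_lit 483, nat_lit 250, nat_lit 12]⟩,
 ⟨nat_lit 5477, nat_lit 6325, ⟨.ofNat (nat_lit 624852), .ofNat (nat_lit 953563), .ofNat (nat_lit 667525), .ofNat (nat_lit 996238), .ofNat (nat_lit 617499), .ofNat (nat_lit 916886), .ofNat (nat_lit 660151), .ofNat (nat_lit 959538)⟩, ⟨.negSucc (nat_lit 103633), .ofNat (nat_lit 225423), .negSucc (nat_lit 82265), .ofNat (nat_lit 246791), .negSucc (nat_lit 66879), .ofNat (nat_lit 232852), .negSucc (nat_lit 45522), .ofNat (nat_lit 254209)⟩⟩, [⟨nat_lit 10, nat_lit 100, nat_lit 37, nat_lit 83, nat_lit 25171583⟩]⟩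
noncomputable def p032_l96 : Lf2 := ⟨nat_lit 0, nat_lit 10, [nat_lit 0, nat_lit 5, nat_lit 5, nat_lit 20], true, nat_lit 160, nat_lit 288, nat_lit 0, nat_lit 288, ⟨nat_lit 0, nat_lit 1000, nat_lit 0, nat_lit 6, nat_lit 320, nat_lit 1000, nat_lit 146, nat_lit 0, nat_lit 0, nat_lit 0, nat_lit 0, nat_lit 0, nat_lit 0, nat_lit 0, nat_lit 0, nat_lit 5000000, true, true⟩,
 nat_lit 0, nat_lit 0, nat_lit 0, nat_lit 1361, nat_lit 4322, nat_lit 0, nat_lit 0, nat_lit 0, nat_lit 0, nat_lit 0, nat_lit 0, nat_lit 0, nat_lit 0, nat_lit 12753606581125, nat_lit 0, nat_lit 250000, nat_lit 0, nat_lit 0, [(nat_lit 6, [(nat_lit 0, nat_lit 1000)]), (nat_lit 9, [(nat_lit 0, nat_lit 1000)])],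
 ⟨p032_k4, nat_lit 0, nat_lit 0, nat_lit 97, nat_lit 0, nat_lit 0, [nat_lit 3128000000, nat_lit 3541333334, nat_lit 3879466666], [], [nat_lit 16085420928, nat_lit 18346219640, nat_lit 26453360200, nat_lit 27806026568, nat_lit 21455594124, nat_lit 23153564885, nat_lit 29479770544, nat_lit 30505765578], nat_lit 0, nat_lit 0, nat_lit 0, nat_lit 0, nat_lit 0, nat_lit 0, [], [nat_lit 21, nat_lit 40, nat_lit 20, nat_lit 80, nat_lit 14, nat_lit 483, nat_lit 250, nat_lit 12]⟩, C1.Rw.none,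
 ⟨nat_lit 5477, nat_lit 6325, ⟨.ofNat (nat_lit 624852), .ofNat (nat_lit 953563), .ofNat (nat_lit 667525), .ofNat (nat_lit 996238), .ofNat (nat_lit 617499), .ofNat (nat_lit 916886), .ofNat (nat_lit 660151), .ofNat (nat_lit 959538)⟩, ⟨.ofNat (nat_lit 225423), .ofNat (nat_lit 488669), .ofNat (nat_lit 246791), .ofNat (nat_lit 510037), .ofNat (nat_lit 232852), .ofNat (nat_lit 472638), .ofNat (nat_lit 254209), .ofNat (nat_lit 493995)⟩⟩, [⟨nat_lit 16, nat_lit 98, nat_lit 100, nat_lit 54, nat_lit 355763704⟩]⟩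
noncomputable def b_VL_600_600_5_3 : St := ⟨true, nat_lit 0, nat_lit 2, nat_lit 2, nat_lit 40, nat_lit 240, nat_lit 280, nat_lit 240, nat_lit 280, nat_lit 16, nat_lit 400, nat_lit 20, nat_lit 40, nat_lit 0, nat_lit 288, nat_lit 0, nat_lit 288, nat_lit 0, nat_lit 40, nat_lit 0, nat_lit 0, nat_lit 0, nat_lit 0⟩
theorem d_VL_600_600_5_3 (h : EB TB.env) : Dead b_VL_600_600_5_3 := chkB_sound0 h (T :=
(.st (nat_lit 1)
(.spl (nat_lit 2) (nat_lit 240)
(.leaf p032_l92)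
(.leaf p032_l93))
(.spl (nat_lit 2) (nat_lit 240)
(.leaf p032_l94)
(.spl (nat_lit 4) (nat_lit 160)
(.leaf p032_l95)
(.leaf p032_l96))))) (by decide +kernel)
noncomputable def p032_l97 : Lf2 := ⟨nat_lit 0, nat_lit 2, [nat_lit 10, nat_lit 5, nat_lit 5, nat_lit 20], false, nat_lit 0, nat_lit 80, nat_lit 0, nat_lit 160, ⟨nat_lit 1000, nat_lit 0, nat_lit 0, nat_lit 0, nat_lit 0, nat_lit 0, nat_lit 0, nat_lit 0, nat_lit 0, nat_lit 0, nat_lit 0, nat_lit 0, nat_lit 0, nat_lit 0, nat_lit 0, nat_lit 0, false, false⟩,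
 nat_lit 0, nat_lit 20634, nat_lit 0, nat_lit 0, nat_lit 10923, nat_lit 8489, nat_lit 1795, nat_lit 0, nat_lit 0, nat_lit 3363, nat_lit 0, nat_lit 0, nat_lit 0, nat_lit 25524937431671, nat_lit 0, nat_lit 0, nat_lit 0, nat_lit 0, [],
 ⟨p032_k11, nat_lit 0, nat_lit 0, nat_lit 285, nat_lit 0, nat_lit 223935, [nat_lit 4688000000, nat_lit 6250000000, nat_lit 7968000000], [], [nat_lit 21840620447, nat_lit 22527726162, nat_lit 21350368572, nat_lit 19989674078, nat_lit 21197071465, nat_lit 19844149778, nat_lit 23102656804, nat_lit 21779996196], nat_lit 1271250, nat_lit 1271250, nat_lit 88400, nat_lit 490000, nat_lit 0, nat_lit 490000, [nat_lit 1100000, nat_lit 1442500, nat_lit 1271250], [nat_lit 9, nat_lit 40, nat_lit 20, nat_lit 80, nat_lit 2, nat_lit 249, nat_lit 40, nat_lit 9]⟩, ⟨p032_k11, nat_lit 0, nat_lit 0, nat_lit 161, nat_lit 0, nat_lit 0, [nat_lit 4688000000, nat_lit 6250000000, nat_lit 7968000000], [], [nat_lit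 18417486272, nat_lit 18993823324, nat_lit 14393136064, nat_lit 14905549915, nat_lit 13730366220, nat_lit 14176938162, nat_lit 11099000412, nat_lit 11518658446], nat_lit 0, nat_lit 0, nat_lit 0, nat_lit 0, nat_lit 0, nat_lit 0, [], [nat_lit 9, nat_lit 40, nat_lit 20, nat_lit 80, nat_lit 2, nat_lit 272, nat_lit 60, nat_lit 9]⟩,
 zbF0, [⟨nat_lit 0, nat_lit 100, nat_lit 100, nat_lit 43, nat_lit 816281269⟩]⟩
noncomputable def p032_l98 : Lf2 := ⟨nat_lit 0, nat_lit 2, [nat_lit 10, nat_lit 5, nat_lit 5, nat_lit 20], false, nat_lit 0, nat_lit 80, nat_lit 160, nat_lit 288, ⟨nat_lit 1000, nat_lit 0, nat_lit 0, nat_lit 0, nat_lit 0, nat_lit 0, nat_lit 0, nat_lit 0, nat_lit 0, nat_lit 0, nat_lit 0, nat_lit 0, nat_lit 0, nat_lit 0, nat_lit 0, nat_lit 0, false, false⟩,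
 nat_lit 0, nat_lit 20938, nat_lit 0, nat_lit 0, nat_lit 11084, nat_lit 6647, nat_lit 1690, nat_lit 0, nat_lit 0, nat_lit 0, nat_lit 0, nat_lit 0, nat_lit 0, nat_lit 3210485458084, nat_lit 0, nat_lit 0, nat_lit 0, nat_lit 0, [],
 ⟨p032_k11, nat_lit 0, nat_lit 0, nat_lit 285, nat_lit 0, nat_lit 223935, [nat_lit 4688000000, nat_lit 6250000000, nat_lit 7968000000], [], [nat_lit 22069096227, nat_lit 22763528874, nat_lit 21101231376, nat_lit 19720480870, nat_lit 20940462839, nat_lit 19567599707, nat_lit 22850458032, nat_lit 21508302014], nat_lit 1271250, nat_lit 1271250, nat_lit 88400, nat_lit 490000, nat_lit 0, nat_lit 490000, [nat_lit 1100000, nat_lit 1442500, nat_lit 1271250], [nat_lit 9, nat_lit 40, nat_lit 20, nat_lit 80, nat_lit 2, nat_lit 249, nat_lit 40, nat_lit 9]⟩, ⟨p032_k11, nat_lit 0, nat_lit 0, nat_lit 77, nat_lit 0, nat_lit 0, [nat_lit 4688000000, nat_lit 6250000000, nat_lit 7968000000], [], [nat_lit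 11024878596, nat_lit 11529580772, nat_lit 8812488100, nat_lit 9290691412, nat_lit 20180682025, nat_lit 20599124717, nat_lit 17562794564, nat_lit 17904510905], nat_lit 0, nat_lit 0, nat_lit 0, nat_lit 0, nat_lit 0, nat_lit 0, [], [nat_lit 9, nat_lit 40, nat_lit 20, nat_lit 80, nat_lit 2, nat_lit 317, nat_lit 100, nat_lit 10]⟩,
 zbF0, [⟨nat_lit 0, nat_lit 100, nat_lit 100, nat_lit 40, nat_lit 777097635⟩, ⟨nat_lit 7, nat_lit 96, nat_lit 100, nat_lit 54, nat_lit 1063650178⟩]⟩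
noncomputable def p032_l99 : Lf2 := ⟨nat_lit 0, nat_lit 2, [nat_lit 10, nat_lit 5, nat_lit 5, nat_lit 20], false, nat_lit 0, nat_lit 40, nat_lit 0, nat_lit 288, ⟨nat_lit 576, nat_lit 0, nat_lit 424, nat_lit 6, nat_lit 96, nat_lit 0, nat_lit 1, nat_lit 0, nat_lit 3267, nat_lit 201, nat_lit 86400, nat_lit 287, nat_lit 63327526, nat_lit 0, nat_lit 0, nat_lit 1062243, false, false⟩,
 nat_lit 0, nat_lit 13519, nat_lit 0, nat_lit 0, nat_lit 7333, nat_lit 5149, nat_lit 1320, nat_lit 0, nat_lit 0, nat_lit 1369, nat_lit 0, nat_lit 0, nat_lit 0, nat_lit 11270347874554, nat_lit 0, nat_lit 424000, nat_lit 0, nat_lit 0, [(nat_lit 6, [(nat_lit 6, nat_lit 424)])],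
 ⟨p032_k22, nat_lit 0, nat_lit 0, nat_lit 304, nat_lit 0, nat_lit 264247, [nat_lit 3114564267, nat_lit 3518592001, nat_lit 3842572799], [], [nat_lit 17547594927, nat_lit 17984584112, nat_lit 18419679272, nat_lit 17506196462, nat_lit 17184451487, nat_lit 16262804848, nat_lit 18842777193, nat_lit 17942061136], nat_lit 1271250, nat_lit 1271250, nat_lit 88400, nat_lit 490000, nat_lit 0, nat_lit 230001, [nat_lit 1100000, nat_lit 1442500, nat_lit 1271250], [nat_lit 9, nat_lit 40, nat_lit 20, nat_lit 80, nat_lit 2, nat_lit 238, nat_lit 30, nat_lit 8]⟩, ⟨p032_k11, nat_lit 0, nat_lit 0, nat_lit 165, nat_lit 0, nat_lit 0, [nat_lit 2700288000, nat_lit 3600000000, nat_lit 4589568000], [], [nat_lit 11613579489, nat_lit 12301123965, nat_lit 8873704365, nat_lit 9532040556, nat_lit 12927897749, nat_lit 13336508640, nat_lit 10615996292, nat_lit 11042389021], nat_lit 0, nat_lit 0, nat_lit 0, nat_lit 0, nat_lit 0, nat_lit 0,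 [], [nat_lit 9, nat_lit 40, nat_lit 20, nat_lit 80, nat_lit 2, nat_lit 317, nat_lit 100, nat_lit 11]⟩,
 ⟨nat_lit 6123, nat_lit 6225, ⟨.ofNat (nat_lit 168651), .ofNat (nat_lit 298759), .ofNat (nat_lit 179329), .ofNat (nat_lit 309437), .ofNat (nat_lit 172944), .ofNat (nat_lit 301553), .ofNat (nat_lit 183618), .ofNat (nat_lit 312227)⟩, ⟨.negSucc (nat_lit 98799), .negSucc (nat_lit 17481), .negSucc (nat_lit 77442), .ofNat (nat_lit 3874), .negSucc (nat_lit 94037), .negSucc (nat_lit 13656), .negSucc (nat_lit 72689), .ofNat (nat_lit 7691)⟩⟩, [⟨nat_lit 0, nat_lit 100, nat_lit 100, nat_lit 46, nat_lit 523818209⟩, ⟨nat_lit 19, nat_lit 100, nat_lit 97, nat_lit 54, nat_lit 222877800⟩]⟩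
noncomputable def p032_l100 : Lf2 := ⟨nat_lit 0, nat_lit 2, [nat_lit 10, nat_lit 5, nat_lit 5, nat_lit 20], false, nat_lit 40, nat_lit 80, nat_lit 0, nat_lit 288, ⟨nat_lit 1000, nat_lit 0, nat_lit 0, nat_lit 0, nat_lit 0, nat_lit 0, nat_lit 0, nat_lit 0, nat_lit 0, nat_lit 0, nat_lit 0, nat_lit 0, nat_lit 0, nat_lit 0, nat_lit 0, nat_lit 0, false, false⟩,
 nat_lit 0, nat_lit 21679, nat_lit 0, nat_lit 0, nat_lit 11759, nat_lit 8931, nat_lit 2597, nat_lit 0, nat_lit 0, nat_lit 2425, nat_lit 0, nat_lit 0, nat_lit 0, nat_lit 9498620883220, nat_lit 0, nat_lit 0, nat_lit 0, nat_lit 0, [],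
 ⟨p032_k22, nat_lit 0, nat_lit 0, nat_lit 266, nat_lit 0, nat_lit 264247, [nat_lit 4688000000, nat_lit 6250000000, nat_lit 7968000000], [], [nat_lit 17118284957, nat_lit 18132150503, nat_lit 17660023441, nat_lit 16215659591, nat_lit 17353119405, nat_lit 15896650841, nat_lit 19314180252, nat_lit 17890288821], nat_lit 1271250, nat_lit 1271250, nat_lit 88400, nat_lit 490000, nat_lit 230001, nat_lit 490000, [nat_lit 1100000, nat_lit 1442500, nat_lit 1271250], [nat_lit 9, nat_lit 40, nat_lit 20, nat_lit 80, nat_lit 2, nat_lit 249, nat_lit 40, nat_lit 9]⟩, ⟨p032_k11, nat_lit 0, nat_lit 0, nat_lit 165, nat_lit 0, nat_lit 0, [nat_lit 4688000000, nat_lit 6250000000, nat_lit 7968000000], [], [nat_lit 20082282509, nat_lit 21275186481, nat_lit 15331022061, nat_lit 16473253038, nat_lit 22368754157, nat_lit 23147081354, nat_lit 18437670257, nat_lit 19177533983], nat_lit 0, nat_lit 0, nat_lit 0, nat_lit 0, nat_lit 0, nat_lit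 0, [], [nat_lit 9, nat_lit 40, nat_lit 20, nat_lit 80, nat_lit 2, nat_lit 317, nat_lit 100, nat_lit 11]⟩,
 zbF0, [⟨nat_lit 0, nat_lit 100, nat_lit 100, nat_lit 46, nat_lit 894455424⟩, ⟨nat_lit 7, nat_lit 97, nat_lit 100, nat_lit 54, nat_lit 389247501⟩]⟩
noncomputable def p032_l101 : Lf2 := ⟨nat_lit 0, nat_lit 4, [nat_lit 38, nat_lit 5, nat_lit 5, nat_lit 20], false, nat_lit 0, nat_lit 40, nat_lit 0, nat_lit 288, ⟨nat_lit 21, nat_lit 0, nat_lit 979, nat_lit 6, nat_lit 96, nat_lit 0, nat_lit 0, nat_lit 0, nat_lit 3267, nat_lit 201, nat_lit 86400, nat_lit 287, nat_lit 63378861, nat_lit 0, nat_lit 0, nat_lit 1051306, false, false⟩,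
 nat_lit 0, nat_lit 8603, nat_lit 0, nat_lit 0, nat_lit 4554, nat_lit 183, nat_lit 0, nat_lit 0, nat_lit 0, nat_lit 49, nat_lit 0, nat_lit 0, nat_lit 0, nat_lit 27090181858554, nat_lit 72, nat_lit 979000, nat_lit 0, nat_lit 0, [(nat_lit 6, [(nat_lit 6, nat_lit 979)])],
 ⟨p032_k23, nat_lit 0, nat_lit 0, nat_lit 276, nat_lit 0, nat_lit 184191, [nat_lit 2206996267, nat_lit 1383282001, nat_lit 221593799], [], [nat_lit 13439386913, nat_lit 13729291351, nat_lit 14959548725, nat_lit 13824951503, nat_lit 13937382662, nat_lit 12792645504, nat_lit 15563031509, nat_lit 14444291315], nat_lit 1271250, nat_lit 1271250, nat_lit 88400, nat_lit 490000, nat_lit 0, nat_lit 230001, [nat_lit 1100000, nat_lit 1442500, nat_lit 1271250], [nat_lit 9, nat_lit 40, nat_lit 20, nat_lit 80, nat_lit 2, nat_lit 238, nat_lit 30, nat_lit 8]⟩, ⟨p032_k23, nat_lit 0, nat_lit 0, nat_lit 165, nat_lit 0, nat_lit 0, [nat_lit 98448000, nat_lit 131250000,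 nat_lit 167328000], [], [nat_lit 423083169, nat_lit 447719930, nat_lit 326327689, nat_lit 349920118, nat_lit 473679069, nat_lit 488108465, nat_lit 391874711, nat_lit 406441301], nat_lit 0, nat_lit 0, nat_lit 0, nat_lit 0, nat_lit 0, nat_lit 0, [], [nat_lit 9, nat_lit 40, nat_lit 20, nat_lit 80, nat_lit 2, nat_lit 317, nat_lit 100, nat_lit 11]⟩,
 ⟨nat_lit 6123, nat_lit 6325, ⟨.ofNat (nat_lit 164319), .ofNat (nat_lit 295942), .ofNat (nat_lit 175003), .ofNat (nat_lit 306625), .ofNat (nat_lit 172944), .ofNat (nat_lit 301553), .ofNat (nat_lit 183618), .ofNat (nat_lit 312227)⟩, ⟨.negSucc (nat_lit 103633), .negSucc (nat_lit 21368), .negSucc (nat_lit 82265), .negSucc (nat_lit 0), .negSucc (nat_lit 94037), .negSucc (nat_lit 13656), .negSucc (nat_lit 72689), .ofNat (nat_lit 7691)⟩⟩, [⟨nat_lit 0, nat_lit 100, nat_lit 100, nat_lit 50, nat_lit 3842662⟩, ⟨nat_lit 7, nat_lit 97, nat_lit 100, nat_lit 54, nat_lit 7925614⟩]⟩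
noncomputable def p032_l102 : Lf2 := ⟨nat_lit 0, nat_lit 5, [nat_lit 4, nat_lit 5, nat_lit 5, nat_lit 20], true, nat_lit 0, nat_lit 40, nat_lit 0, nat_lit 288, ⟨nat_lit 0, nat_lit 0, nat_lit 1000, nat_lit 6, nat_lit 95, nat_lit 0, nat_lit 0, nat_lit 0, nat_lit 3267, nat_lit 201, nat_lit 84017, nat_lit 286, nat_lit 63455040, nat_lit 0, nat_lit 0, nat_lit 1034969, false, false⟩,
 nat_lit 0, nat_lit 9543, nat_lit 0, nat_lit 0, nat_lit 5052, nat_lit 0, nat_lit 64, nat_lit 0, nat_lit 0, nat_lit 0, nat_lit 0, nat_lit 0, nat_lit 0, nat_lit 0, nat_lit 147, nat_lit 1000000, nat_lit 0, nat_lit 0, [(nat_lit 6, [(nat_lit 6, nat_lit 1000)])],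
 ⟨p032_k13, nat_lit 0, nat_lit 0, nat_lit 307, nat_lit 0, nat_lit 84543, [nat_lit 3329066667, nat_lit 3042400001, nat_lit 177599999], [], [nat_lit 13738329430, nat_lit 14484015528, nat_lit 14429231997, nat_lit 13170561561, nat_lit 13370347996, nat_lit 12758647128, nat_lit 14998101789, nat_lit 13757022417], nat_lit 1271250, nat_lit 1271250, nat_lit 88400, nat_lit 490000, nat_lit 0, nat_lit 230001, [nat_lit 1100000, nat_lit 1442500, nat_lit 1271250], [nat_lit 11, nat_lit 40, nat_lit 20, nat_lit 80, nat_lit 1, nat_lit 317, nat_lit 100, nat_lit 10]⟩, C1.Rw.none,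
 ⟨nat_lit 6123, nat_lit 6325, ⟨.ofNat (nat_lit 164319), .ofNat (nat_lit 295942), .ofNat (nat_lit 169661), .ofNat (nat_lit 301284), .ofNat (nat_lit 172944), .ofNat (nat_lit 301553), .ofNat (nat_lit 178281), .ofNat (nat_lit 306890)⟩, ⟨.negSucc (nat_lit 103633), .negSucc (nat_lit 21368), .negSucc (nat_lit 82265), .negSucc (nat_lit 0), .negSucc (nat_lit 94037), .negSucc (nat_lit 13656), .negSucc (nat_lit 72689), .ofNat (nat_lit 7691)⟩⟩, []⟩
noncomputable def p032_l103 : Lf2 := ⟨nat_lit 0, nat_lit 5, [nat_lit 4, nat_lit 5, nat_lit 5, nat_lit 20], true, nat_lit 0, nat_lit 40, nat_lit 0, nat_lit 284, ⟨nat_lit 0, nat_lit 0, nat_lit 1000, nat_lit 6, nat_lit 99, nat_lit 0, nat_lit 1, nat_lit 0, nat_lit 3267, nat_lit 201, nat_lit 91267, nat_lit 289, nat_lit 63131957, nat_lit 0, nat_lit 0, nat_lit 1103397, false, false⟩,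
 nat_lit 0, nat_lit 8885, nat_lit 0, nat_lit 0, nat_lit 4819, nat_lit 0, nat_lit 145, nat_lit 0, nat_lit 0, nat_lit 0, nat_lit 0, nat_lit 0, nat_lit 0, nat_lit 25140197088834, nat_lit 147, nat_lit 1000000, nat_lit 0, nat_lit 0, [(nat_lit 6, [(nat_lit 6, nat_lit 1000)])],
 ⟨p032_k14, nat_lit 0, nat_lit 0, nat_lit 309, nat_lit 0, nat_lit 106276, [nat_lit 3329066667, nat_lit 3042400001, nat_lit 177599999], [], [nat_lit 13324345554, nat_lit 13687659047, nat_lit 14130568277, nat_lit 13530258218, nat_lit 13127185303, nat_lit 12522393574, nat_lit 14724022380, nat_lit 14132102200], nat_lit 1271250, nat_lit 1271250, nat_lit 111251, nat_lit 490000, nat_lit 0, nat_lit 230001, [nat_lit 1100000, nat_lit 1442500, nat_lit 1271250], [nat_lit 11, nat_lit 40, nat_lit 20, nat_lit 80, nat_lit 1, nat_lit 317, nat_lit 100, nat_lit 10]⟩, C1.Rw.none,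
 ⟨nat_lit 6123, nat_lit 6225, ⟨.ofNat (nat_lit 182121), .ofNat (nat_lit 304098), .ofNat (nat_lit 187461), .ofNat (nat_lit 309437), .ofNat (nat_lit 186319), .ofNat (nat_lit 306890), .ofNat (nat_lit 191656), .ofNat (nat_lit 312227)⟩, ⟨.negSucc (nat_lit 98799), .negSucc (nat_lit 17481), .negSucc (nat_lit 77442), .ofNat (nat_lit 3874), .negSucc (nat_lit 94037), .negSucc (nat_lit 13656), .negSucc (nat_lit 72689), .ofNat (nat_lit 7691)⟩⟩, []⟩
noncomputable def p032_l104 : Lf2 := ⟨nat_lit 0, nat_lit 5, [nat_lit 4, nat_lit 5, nat_lit 5, nat_lit 20], true, nat_lit 40, nat_lit 80, nat_lit 0, nat_lit 288, ⟨nat_lit 0, nat_lit 0, nat_lit 1000, nat_lit 6, nat_lit 95, nat_lit 0, nat_lit 15, nat_lit 220, nat_lit 1667, nat_lit 225, nat_lit 84017, nat_lit 286, nat_lit 63455040, nat_lit 0, nat_lit 0, nat_lit 1034969, false, false⟩,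
 nat_lit 0, nat_lit 8347, nat_lit 0, nat_lit 0, nat_lit 4418, nat_lit 0, nat_lit 415, nat_lit 0, nat_lit 0, nat_lit 0, nat_lit 0, nat_lit 0, nat_lit 0, nat_lit 0, nat_lit 147, nat_lit 1000000, nat_lit 0, nat_lit 0, [(nat_lit 6, [(nat_lit 6, nat_lit 1000)])],
 ⟨p032_k13, nat_lit 0, nat_lit 0, nat_lit 301, nat_lit 0, nat_lit 164884, [nat_lit 3329066667, nat_lit 3042400001, nat_lit 177599999], [], [nat_lit 10735037897, nat_lit 11418004344, nat_lit 9751846372, nat_lit 10431700522, nat_lit 9786933094, nat_lit 10483282349, nat_lit 8985436508, nat_lit 9644812446], nat_lit 1271250, nat_lit 1271250, nat_lit 88400, nat_lit 490000, nat_lit 230001, nat_lit 490000, [nat_lit 1100000, nat_lit 1442500, nat_lit 1271250], [nat_lit 11, nat_lit 40, nat_lit 20, nat_lit 80, nat_lit 1, nat_lit 345, nat_lit 125, nat_lit 10]⟩, C1.Rw.none,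
 ⟨nat_lit 6123, nat_lit 6325, ⟨.ofNat (nat_lit 164319), .ofNat (nat_lit 295942), .ofNat (nat_lit 169661), .ofNat (nat_lit 301284), .ofNat (nat_lit 172944), .ofNat (nat_lit 301553), .ofNat (nat_lit 178281), .ofNat (nat_lit 306890)⟩, ⟨.negSucc (nat_lit 21368), .ofNat (nat_lit 60895), .negSucc (nat_lit 0), .ofNat (nat_lit 82263), .negSucc (nat_lit 13656), .ofNat (nat_lit 66723), .ofNat (nat_lit 7691), .ofNat (nat_lit 88071)⟩⟩, [⟨nat_lit 0, nat_lit 100, nat_lit 99, nat_lit 47, nat_lit 180421952⟩]⟩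
noncomputable def p032_l105 : Lf2 := ⟨nat_lit 0, nat_lit 5, [nat_lit 4, nat_lit 5, nat_lit 5, nat_lit 20], true, nat_lit 40, nat_lit 80, nat_lit 0, nat_lit 284, ⟨nat_lit 0, nat_lit 0, nat_lit 1000, nat_lit 6, nat_lit 99, nat_lit 0, nat_lit 16, nat_lit 227, nat_lit 2017, nat_lit 226, nat_lit 91267, nat_lit 289, nat_lit 63131957, nat_lit 0, nat_lit 0, nat_lit 1103397, false, false⟩,
 nat_lit 0, nat_lit 8210, nat_lit 0, nat_lit 0, nat_lit 4453, nat_lit 0, nat_lit 414, nat_lit 0, nat_lit 0, nat_lit 0, nat_lit 0, nat_lit 0, nat_lit 0, nat_lit 0, nat_lit 147, nat_lit 1000000, nat_lit 0, nat_lit 0, [(nat_lit 6, [(nat_lit 6, nat_lit 1000)])],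
 ⟨p032_k14, nat_lit 0, nat_lit 0, nat_lit 303, nat_lit 0, nat_lit 184376, [nat_lit 3329066667, nat_lit 3042400001, nat_lit 177599999], [], [nat_lit 10743445080, nat_lit 11086353006, nat_lit 9945742490, nat_lit 10287011377, nat_lit 9808240090, nat_lit 10157302321, nat_lit 9157205245, nat_lit 9488181931], nat_lit 1271250, nat_lit 1271250, nat_lit 111251, nat_lit 490000, nat_lit 230001, nat_lit 490000, [nat_lit 1100000, nat_lit 1442500, nat_lit 1271250], [nat_lit 11, nat_lit 40, nat_lit 20, nat_lit 80, nat_lit 1, nat_lit 345, nat_lit 125, nat_lit 10]⟩, C1.Rw.none,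
 ⟨nat_lit 6123, nat_lit 6225, ⟨.ofNat (nat_lit 182121), .ofNat (nat_lit 304098), .ofNat (nat_lit 187461), .ofNat (nat_lit 309437), .ofNat (nat_lit 186319), .ofNat (nat_lit 306890), .ofNat (nat_lit 191656), .ofNat (nat_lit 312227)⟩, ⟨.negSucc (nat_lit 17481), .ofNat (nat_lit 63835), .ofNat (nat_lit 3874), .ofNat (nat_lit 85192), .negSucc (nat_lit 13656), .ofNat (nat_lit 66723), .ofNat (nat_lit 7691), .ofNat (nat_lit 88071)⟩⟩, [⟨nat_lit 0, nat_lit 100, nat_lit 100, nat_lit 50, nat_lit 170873691⟩]⟩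
noncomputable def p032_l106 : Lf2 := ⟨nat_lit 0, nat_lit 8, [nat_lit 50, nat_lit 5, nat_lit 5, nat_lit 20], true, nat_lit 0, nat_lit 80, nat_lit 0, nat_lit 288, ⟨nat_lit 0, nat_lit 0, nat_lit 1000, nat_lit 6, nat_lit 96, nat_lit 0, nat_lit 15, nat_lit 0, nat_lit 67, nat_lit 213, nat_lit 86400, nat_lit 287, nat_lit 63378861, nat_lit 0, nat_lit 0, nat_lit 1051306, false, false⟩,
 nat_lit 0, nat_lit 7874, nat_lit 0, nat_lit 1271, nat_lit 4168, nat_lit 0, nat_lit 262, nat_lit 0, nat_lit 0, nat_lit 0, nat_lit 0, nat_lit 0, nat_lit 0, nat_lit 22317700269356, nat_lit 147, nat_lit 1000000, nat_lit 0, nat_lit 0, [(nat_lit 6, [(nat_lit 6, nat_lit 1000)])],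
 ⟨p032_k15, nat_lit 0, nat_lit 0, nat_lit 304, nat_lit 0, nat_lit 78008, [nat_lit 3329066667, nat_lit 3042400001, nat_lit 177599999], [], [nat_lit 12450273013, nat_lit 13127372552, nat_lit 11232517735, nat_lit 11674967071, nat_lit 10657573095, nat_lit 11097488524, nat_lit 9897007431, nat_lit 10314389663], nat_lit 1271250, nat_lit 1271250, nat_lit 88400, nat_lit 490000, nat_lit 0, nat_lit 490000, [nat_lit 1100000, nat_lit 1442500, nat_lit 1271250], [nat_lit 11, nat_lit 40, nat_lit 20, nat_lit 80, nat_lit 1, nat_lit 345, nat_lit 125, nat_lit 10]⟩, C1.Rw.none,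
 ⟨nat_lit 6123, nat_lit 6325, ⟨.ofNat (nat_lit 164319), .ofNat (nat_lit 295942), .ofNat (nat_lit 175003), .ofNat (nat_lit 306625), .ofNat (nat_lit 172944), .ofNat (nat_lit 301553), .ofNat (nat_lit 183618), .ofNat (nat_lit 312227)⟩, ⟨.negSucc (nat_lit 103633), .ofNat (nat_lit 60895), .negSucc (nat_lit 82265), .ofNat (nat_lit 82263), .negSucc (nat_lit 94037), .ofNat (nat_lit 66723), .negSucc (nat_lit 72689), .ofNat (nat_lit 88071)⟩⟩, [⟨nat_lit 0, nat_lit 100, nat_lit 100, nat_lit 50, nat_lit 175079628⟩]⟩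
noncomputable def p032_l107 : Lf2 := ⟨nat_lit 1, nat_lit 10, [nat_lit 0, nat_lit 5, nat_lit 5, nat_lit 20], false, nat_lit 0, nat_lit 80, nat_lit 0, nat_lit 288, zbN0,
 nat_lit 0, nat_lit 0, nat_lit 0, nat_lit 0, nat_lit 0, nat_lit 0, nat_lit 0, nat_lit 0, nat_lit 0, nat_lit 0, nat_lit 0, nat_lit 0, nat_lit 0, nat_lit 0, nat_lit 0, nat_lit 0, nat_lit 0, nat_lit 0, [],
 C1.Rw.none, C1.Rw.none,
 zbF0, []⟩
noncomputable def b_VL_600_600_5_4 : St := ⟨true, nat_lit 1, nat_lit 0, nat_lit 1, nat_lit 40, nat_lit 240, nat_lit 250, nat_lit 240, nat_lit 260, nat_lit 16, nat_lit 80, nat_lit 20, nat_lit 40, nat_lit 0, nat_lit 80, nat_lit 0, nat_lit 288, nat_lit 0, nat_lit 40, nat_lit 0, nat_lit 0, nat_lit 0, nat_lit 0⟩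
theorem d_VL_600_600_5_4 (h : EB TB.env) : Dead b_VL_600_600_5_4 := chkB_sound0 h (T :=
(.ord (.spl (nat_lit 6) (nat_lit 32)
(.spl (nat_lit 6) (nat_lit 20)
(.spl (nat_lit 6) (nat_lit 8)
(.spl (nat_lit 0) (nat_lit 245)
(.ord (.spl (nat_lit 5) (nat_lit 160)
(.leaf p032_l97)
(.leaf p032_l98)))
(.spl (nat_lit 4) (nat_lit 40)
(.leaf p032_l99)
(.leaf p032_l100)))
(.spl (nat_lit 4) (nat_lit 40)
(.spl (nat_lit 6) (nat_lit 16)
(.leaf p032_l101)
(.spl (nat_lit 1) (nat_lit 245)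
(.leaf p032_l102)
(.ord (.trZ (nat_lit 0) (nat_lit 100) (nat_lit 100) (nat_lit 45) (nat_lit 20) (.trX (nat_lit 19) (nat_lit 100) (nat_lit 94) (nat_lit 62) (nat_lit 284) (.leaf p032_l103))))))
(.spl (nat_lit 1) (nat_lit 245)
(.leaf p032_l104)
(.ord (.trZ (nat_lit 0) (nat_lit 100) (nat_lit 100) (nat_lit 45) (nat_lit 20) (.trX (nat_lit 19) (nat_lit 100) (nat_lit 94) (nat_lit 62) (nat_lit 284) (.leaf p032_l105)))))))
(.leaf p032_l106))
(.leaf p032_l107)))) (by decide +kernel)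
noncomputable def p032_l108 : Lf2 := ⟨nat_lit 0, nat_lit 5, [nat_lit 4, nat_lit 5, nat_lit 5, nat_lit 20], false, nat_lit 0, nat_lit 80, nat_lit 0, nat_lit 160, ⟨nat_lit 1000, nat_lit 0, nat_lit 0, nat_lit 0, nat_lit 0, nat_lit 0, nat_lit 0, nat_lit 0, nat_lit 0, nat_lit 0, nat_lit 0, nat_lit 0, nat_lit 0, nat_lit 0, nat_lit 0, nat_lit 0, false, false⟩,
 nat_lit 0, nat_lit 17257, nat_lit 0, nat_lit 0, nat_lit 9587, nat_lit 8329, nat_lit 0, nat_lit 0, nat_lit 0, nat_lit 3522, nat_lit 0, nat_lit 0, nat_lit 0, nat_lit 377212631559, nat_lit 0, nat_lit 0, nat_lit 0, nat_lit 0, [],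
 ⟨p032_k24, nat_lit 0, nat_lit 0, nat_lit 370, nat_lit 0, nat_lit 365315, [nat_lit 4688000000, nat_lit 6250000000, nat_lit 7968000000], [], [nat_lit 32608618794, nat_lit 30130896992, nat_lit 24254157650, nat_lit 24930467172, nat_lit 22295127268, nat_lit 22966137036, nat_lit 22873666603, nat_lit 20551896530], nat_lit 1271250, nat_lit 1271250, nat_lit 111251, nat_lit 490000, nat_lit 0, nat_lit 490000, [nat_lit 1100000, nat_lit 1442500, nat_lit 1271250], [nat_lit 9, nat_lit 40, nat_lit 20, nat_lit 80, nat_lit 2, nat_lit 249, nat_lit 40, nat_lit 9]⟩, ⟨p032_k13, nat_lit 0, nat_lit 0, nat_lit 211, nat_lit 0, nat_lit 0, [nat_lit 4688000000, nat_lit 6250000000, nat_lit 9842000000], [], [nat_lit 18328231792, nat_lit 20317032464, nat_lit 14628307904, nat_lit 16652456426, nat_lit 13642065472, nat_lit 15404416288, nat_lit 11460519132, nat_lit 13119371428], nat_lit 0, nat_lit 0, nat_lit 0, nat_lit 0, nat_lit 0, nat_lit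 0, [], [nat_lit 11, nat_lit 40, nat_lit 20, nat_lit 80, nat_lit 1, nat_lit 345, nat_lit 125, nat_lit 10]⟩,
 zbF0, [⟨nat_lit 0, nat_lit 100, nat_lit 99, nat_lit 52, nat_lit 1581045769⟩]⟩
noncomputable def p032_l109 : Lf2 := ⟨nat_lit 0, nat_lit 2, [nat_lit 10, nat_lit 5, nat_lit 5, nat_lit 20], false, nat_lit 0, nat_lit 80, nat_lit 160, nat_lit 240, ⟨nat_lit 1000, nat_lit 0, nat_lit 0, nat_lit 0, nat_lit 0, nat_lit 0, nat_lit 0, nat_lit 0, nat_lit 0, nat_lit 0, nat_lit 0, nat_lit 0, nat_lit 0, nat_lit 0, nat_lit 0, nat_lit 0, false, false⟩,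
 nat_lit 0, nat_lit 7889, nat_lit 0, nat_lit 0, nat_lit 4382, nat_lit 7455, nat_lit 1627, nat_lit 0, nat_lit 0, nat_lit 0, nat_lit 0, nat_lit 0, nat_lit 0, nat_lit 0, nat_lit 0, nat_lit 0, nat_lit 0, nat_lit 0, [],
 ⟨p032_k25, nat_lit 0, nat_lit 0, nat_lit 363, nat_lit 0, nat_lit 349135, [nat_lit 4688000000, nat_lit 6250000000, nat_lit 7968000000], [], [nat_lit 33575692584, nat_lit 33276825668, nat_lit 32193187622, nat_lit 32612065720, nat_lit 31546154096, nat_lit 31961224372, nat_lit 31002409754, nat_lit 31395209048], nat_lit 1271250, nat_lit 1271250, nat_lit 111251, nat_lit 490000, nat_lit 0, nat_lit 490000, [nat_lit 1100000, nat_lit 1442500, nat_lit 1271250], [nat_lit 9, nat_lit 40, nat_lit 20, nat_lit 80, nat_lit 2, nat_lit 249, nat_lit 40, nat_lit 9]⟩, ⟨p032_k11, nat_lit 0, nat_lit 0, nat_lit 46, nat_lit 0, nat_lit 0, [nat_lit 4688000000, nat_lit 6250000000, nat_lit 7968000000], [], [nat_lit 9749404920,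 nat_lit 11920367240, nat_lit 7524778500, nat_lit 9582076690, nat_lit 14917428320, nat_lit 17033864080, nat_lit 12494063460, nat_lit 14191147180], nat_lit 0, nat_lit 0, nat_lit 0, nat_lit 0, nat_lit 0, nat_lit 0, [], [nat_lit 9, nat_lit 40, nat_lit 20, nat_lit 80, nat_lit 2, nat_lit 317, nat_lit 100, nat_lit 10]⟩,
 zbF0, [⟨nat_lit 0, nat_lit 100, nat_lit 99, nat_lit 45, nat_lit 998802786⟩]⟩
noncomputable def p032_l110 : Lf2 := ⟨nat_lit 0, nat_lit 1, [nat_lit 19, nat_lit 5, nat_lit 5, nat_lit 20], false, nat_lit 0, nat_lit 80, nat_lit 240, nat_lit 288, ⟨nat_lit 1000, nat_lit 0, nat_lit 0, nat_lit 0, nat_lit 0, nat_lit 0, nat_lit 0, nat_lit 0, nat_lit 0, nat_lit 0, nat_lit 0, nat_lit 0, nat_lit 0, nat_lit 0, nat_lit 0, nat_lit 0, false, false⟩,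
 nat_lit 0, nat_lit 14134, nat_lit 0, nat_lit 0, nat_lit 7852, nat_lit 6726, nat_lit 3270, nat_lit 0, nat_lit 0, nat_lit 0, nat_lit 0, nat_lit 0, nat_lit 0, nat_lit 0, nat_lit 0, nat_lit 0, nat_lit 0, nat_lit 0, [],
 ⟨p032_k26, nat_lit 0, nat_lit 0, nat_lit 281, nat_lit 0, nat_lit 343742, [nat_lit 4688000000, nat_lit 6250000000], [], [nat_lit 18717760440, nat_lit 19567095144, nat_lit 17018962320, nat_lit 17477305464, nat_lit 16988920320, nat_lit 15921081656, nat_lit 18660728612, nat_lit 16732191040], nat_lit 1271250, nat_lit 1271250, nat_lit 111251, nat_lit 490000, nat_lit 0, nat_lit 490000, [nat_lit 1100000, nat_lit 1442500], [nat_lit 31, nat_lit 40, nat_lit 20, nat_lit 80, nat_lit 3, nat_lit 249, nat_lit 40, nat_lit 10]⟩, ⟨p032_k27, nat_lit 0, nat_lit 0, nat_lit 62, nat_lit 0, nat_lit 0, [nat_lit 4688000000, nat_lit 6250000000], [], [nat_lit 15489034304, nat_lit 17169907824, nat_lit 13414052712, nat_lit 15010400296,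 nat_lit 19788570762, nat_lit 21477709173, nat_lit 17491916712, nat_lit 18867537835], nat_lit 0, nat_lit 0, nat_lit 0, nat_lit 0, nat_lit 0, nat_lit 0, [], [nat_lit 31, nat_lit 40, nat_lit 20, nat_lit 80, nat_lit 3, nat_lit 226, nat_lit 20, nat_lit 8]⟩,
 zbF0, [⟨nat_lit 0, nat_lit 100, nat_lit 99, nat_lit 52, nat_lit 804355028⟩, ⟨nat_lit 19, nat_lit 100, nat_lit 92, nat_lit 61, nat_lit 1083596470⟩]⟩
noncomputable def p032_l111 : Lf2 := ⟨nat_lit 0, nat_lit 2, [nat_lit 10, nat_lit 5, nat_lit 5, nat_lit 20], false, nat_lit 0, nat_lit 80, nat_lit 240, nat_lit 288, ⟨nat_lit 1000, nat_lit 0, nat_lit 0, nat_lit 0, nat_lit 0, nat_lit 0, nat_lit 0, nat_lit 0, nat_lit 0, nat_lit 0, nat_lit 0, nat_lit 0, nat_lit 0, nat_lit 0, nat_lit 0, nat_lit 0, false, false⟩,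
 nat_lit 0, nat_lit 16913, nat_lit 0, nat_lit 0, nat_lit 9396, nat_lit 6726, nat_lit 2734, nat_lit 0, nat_lit 0, nat_lit 0, nat_lit 0, nat_lit 0, nat_lit 0, nat_lit 0, nat_lit 0, nat_lit 0, nat_lit 0, nat_lit 0, [],
 ⟨p032_k25, nat_lit 0, nat_lit 0, nat_lit 297, nat_lit 0, nat_lit 255744, [nat_lit 4688000000, nat_lit 6250000000, nat_lit 7968000000], [], [nat_lit 20264636968, nat_lit 21129932052, nat_lit 19116805716, nat_lit 17946331902, nat_lit 19061707616, nat_lit 17899591544, nat_lit 20963565124, nat_lit 19825808182], nat_lit 1271250, nat_lit 1271250, nat_lit 111251, nat_lit 490000, nat_lit 0, nat_lit 490000, [nat_lit 1100000, nat_lit 1442500, nat_lit 1271250], [nat_lit 9, nat_lit 40, nat_lit 20, nat_lit 80, nat_lit 2, nat_lit 249, nat_lit 40, nat_lit 9]⟩, ⟨p032_k11, nat_lit 0, nat_lit 0, nat_lit 76, nat_lit 0, nat_lit 0, [nat_lit 4688000000, nat_lit 6250000000, nat_lit 7968000000], [], [nat_lit 15489034304,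 nat_lit 16749689444, nat_lit 13414052712, nat_lit 14611313400, nat_lit 19788570762, nat_lit 21055297778, nat_lit 17491916712, nat_lit 18523632554], nat_lit 0, nat_lit 0, nat_lit 0, nat_lit 0, nat_lit 0, nat_lit 0, [], [nat_lit 9, nat_lit 40, nat_lit 20, nat_lit 80, nat_lit 2, nat_lit 226, nat_lit 20, nat_lit 7]⟩,
 zbF0, [⟨nat_lit 0, nat_lit 100, nat_lit 99, nat_lit 45, nat_lit 763583613⟩, ⟨nat_lit 19, nat_lit 100, nat_lit 92, nat_lit 61, nat_lit 620742170⟩, ⟨nat_lit 7, nat_lit 98, nat_lit 100, nat_lit 54, nat_lit 565616888⟩]⟩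
noncomputable def p032_l112 : Lf2 := ⟨nat_lit 0, nat_lit 2, [nat_lit 10, nat_lit 5, nat_lit 5, nat_lit 20], false, nat_lit 0, nat_lit 80, nat_lit 240, nat_lit 288, ⟨nat_lit 1000, nat_lit 0, nat_lit 0, nat_lit 0, nat_lit 0, nat_lit 0, nat_lit 0, nat_lit 0, nat_lit 0, nat_lit 0, nat_lit 0, nat_lit 0, nat_lit 0, nat_lit 0, nat_lit 0, nat_lit 0, false, false⟩,
 nat_lit 0, nat_lit 14928, nat_lit 0, nat_lit 0, nat_lit 8490, nat_lit 6726, nat_lit 2923, nat_lit 0, nat_lit 0, nat_lit 0, nat_lit 0, nat_lit 0, nat_lit 0, nat_lit 0, nat_lit 0, nat_lit 0, nat_lit 0, nat_lit 0, [],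
 ⟨p032_k28, nat_lit 0, nat_lit 0, nat_lit 315, nat_lit 0, nat_lit 294079, [nat_lit 4688000000, nat_lit 6250000000, nat_lit 7968000000], [], [nat_lit 19766459130, nat_lit 20570255840, nat_lit 18325231755, nat_lit 17267619720, nat_lit 18325907360, nat_lit 17275847180, nat_lit 20212472455, nat_lit 19184422600], nat_lit 1271250, nat_lit 1271250, nat_lit 111251, nat_lit 490000, nat_lit 0, nat_lit 490000, [nat_lit 1100000, nat_lit 1442500, nat_lit 1271250], [nat_lit 9, nat_lit 40, nat_lit 20, nat_lit 80, nat_lit 2, nat_lit 249, nat_lit 40, nat_lit 9]⟩, ⟨p032_k11, nat_lit 0, nat_lit 0, nat_lit 79, nat_lit 0, nat_lit 0, [nat_lit 4688000000, nat_lit 6250000000, nat_lit 7968000000], [], [nat_lit 15489034304, nat_lit 17169907824, nat_lit 13414052712, nat_lit 15010400296, nat_lit 19788570762, nat_lit 21477709173, nat_lit 17491916712, nat_lit 18867537835], nat_lit 0, nat_lit 0, nat_lit 0, nat_lit 0, nat_lit 0, nat_lit 0,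 [], [nat_lit 9, nat_lit 40, nat_lit 20, nat_lit 80, nat_lit 2, nat_lit 226, nat_lit 20, nat_lit 7]⟩,
 zbF0, [⟨nat_lit 0, nat_lit 100, nat_lit 98, nat_lit 47, nat_lit 784569631⟩, ⟨nat_lit 19, nat_lit 100, nat_lit 92, nat_lit 61, nat_lit 1083596470⟩]⟩
noncomputable def p032_l113 : Lf2 := ⟨nat_lit 0, nat_lit 5, [nat_lit 4, nat_lit 5, nat_lit 5, nat_lit 20], false, nat_lit 0, nat_lit 80, nat_lit 160, nat_lit 288, ⟨nat_lit 1000, nat_lit 0, nat_lit 0, nat_lit 0, nat_lit 0, nat_lit 0, nat_lit 0, nat_lit 0, nat_lit 0, nat_lit 0, nat_lit 0, nat_lit 0, nat_lit 0, nat_lit 0, nat_lit 0, nat_lit 0, false, false⟩,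
 nat_lit 0, nat_lit 16710, nat_lit 0, nat_lit 0, nat_lit 9283, nat_lit 6726, nat_lit 2041, nat_lit 0, nat_lit 0, nat_lit 0, nat_lit 0, nat_lit 0, nat_lit 0, nat_lit 0, nat_lit 0, nat_lit 0, nat_lit 0, nat_lit 0, [],
 ⟨p032_k24, nat_lit 0, nat_lit 0, nat_lit 307, nat_lit 0, nat_lit 275820, [nat_lit 4688000000, nat_lit 6250000000, nat_lit 7968000000], [], [nat_lit 20879314255, nat_lit 21818525662, nat_lit 19891544143, nat_lit 18367462328, nat_lit 19842460468, nat_lit 17546180456, nat_lit 21739665427, nat_lit 19491517770], nat_lit 1271250, nat_lit 1271250, nat_lit 111251, nat_lit 490000, nat_lit 0, nat_lit 490000, [nat_lit 1100000, nat_lit 1442500, nat_lit 1271250], [nat_lit 9, nat_lit 40, nat_lit 20, nat_lit 80, nat_lit 2, nat_lit 249, nat_lit 40, nat_lit 9]⟩, ⟨p032_k13, nat_lit 0, nat_lit 0, nat_lit 79, nat_lit 0, nat_lit 0, [nat_lit 4688000000, nat_lit 6250000000, nat_lit 9842000000], [], [nat_lit 10575490224,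 nat_lit 12607429328, nat_lit 8686585800, nat_lit 10613525668, nat_lit 19788570762, nat_lit 21477709173, nat_lit 17491916712, nat_lit 18867537835], nat_lit 0, nat_lit 0, nat_lit 0, nat_lit 0, nat_lit 0, nat_lit 0, [], [nat_lit 11, nat_lit 40, nat_lit 20, nat_lit 80, nat_lit 1, nat_lit 401, nat_lit 175, nat_lit 11]⟩,
 zbF0, [⟨nat_lit 0, nat_lit 100, nat_lit 99, nat_lit 45, nat_lit 748311239⟩, ⟨nat_lit 7, nat_lit 99, nat_lit 100, nat_lit 54, nat_lit 1067774764⟩]⟩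
noncomputable def p032_l114 : Lf2 := ⟨nat_lit 0, nat_lit 10, [nat_lit 0, nat_lit 5, nat_lit 5, nat_lit 20], true, nat_lit 0, nat_lit 40, nat_lit 0, nat_lit 288, ⟨nat_lit 0, nat_lit 0, nat_lit 1000, nat_lit 6, nat_lit 84, nat_lit 0, nat_lit 1, nat_lit 0, nat_lit 2817, nat_lit 202, nat_lit 66150, nat_lit 278, nat_lit 64190826, nat_lit 0, nat_lit 0, nat_lit 870105, false, false⟩,
 nat_lit 0, nat_lit 7807, nat_lit 0, nat_lit 0, nat_lit 4336, nat_lit 0, nat_lit 549, nat_lit 0, nat_lit 0, nat_lit 0, nat_lit 0, nat_lit 0, nat_lit 0, nat_lit 23499506223456, nat_lit 69, nat_lit 400000, nat_lit 0, nat_lit 0, [(nat_lit 6, [(nat_lit 5, nat_lit 1000)])],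
 ⟨p032_k29, nat_lit 0, nat_lit 0, nat_lit 309, nat_lit 0, nat_lit 103836, [nat_lit 2521600001, nat_lit 1460000001, nat_lit 7200000], [], [nat_lit 13864636212, nat_lit 14071598288, nat_lit 13300263198, nat_lit 13450538246, nat_lit 13433237323, nat_lit 13128036519, nat_lit 13790768579, nat_lit 13466613772], nat_lit 1271250, nat_lit 1271250, nat_lit 111251, nat_lit 230001, nat_lit 0, nat_lit 230001, [nat_lit 1100000, nat_lit 1442500, nat_lit 1271250], [nat_lit 11, nat_lit 40, nat_lit 20, nat_lit 80, nat_lit 1, nat_lit 317, nat_lit 100, nat_lit 10]⟩, C1.Rw.none,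
 ⟨nat_lit 6062, nat_lit 6124, ⟨.ofNat (nat_lit 180982), .ofNat (nat_lit 221172), .ofNat (nat_lit 194858), .ofNat (nat_lit 235048), .ofNat (nat_lit 183484), .ofNat (nat_lit 223395), .ofNat (nat_lit 197358), .ofNat (nat_lit 237269)⟩, ⟨.negSucc (nat_lit 94037), .negSucc (nat_lit 13656), .negSucc (nat_lit 72689), .ofNat (nat_lit 7691), .negSucc (nat_lit 91214), .negSucc (nat_lit 11391), .negSucc (nat_lit 69869), .ofNat (nat_lit 9953)⟩⟩, [⟨nat_lit 0, nat_lit 100, nat_lit 100, nat_lit 53, nat_lit 22926050⟩]⟩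
noncomputable def p032_l115 : Lf2 := ⟨nat_lit 0, nat_lit 10, [nat_lit 0, nat_lit 5, nat_lit 5, nat_lit 20], true, nat_lit 0, nat_lit 40, nat_lit 0, nat_lit 288, ⟨nat_lit 0, nat_lit 0, nat_lit 1000, nat_lit 6, nat_lit 85, nat_lit 0, nat_lit 1, nat_lit 0, nat_lit 2400, nat_lit 203, nat_lit 68267, nat_lit 279, nat_lit 64112337, nat_lit 0, nat_lit 0, nat_lit 888349, false, false⟩,
 nat_lit 0, nat_lit 8178, nat_lit 0, nat_lit 0, nat_lit 4607, nat_lit 0, nat_lit 667, nat_lit 0, nat_lit 0, nat_lit 0, nat_lit 0, nat_lit 0, nat_lit 0, nat_lit 19572948277509, nat_lit 69, nat_lit 400000, nat_lit 0, nat_lit 0, [(nat_lit 6, [(nat_lit 5, nat_lit 1000)])],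
 ⟨p032_k30, nat_lit 0, nat_lit 0, nat_lit 317, nat_lit 0, nat_lit 122277, [nat_lit 2521600001, nat_lit 1460000001, nat_lit 7200000], [], [nat_lit 13780949212, nat_lit 13923048223, nat_lit 12883135585, nat_lit 13024140884, nat_lit 12316303722, nat_lit 12427611535, nat_lit 12668989945, nat_lit 12439380290], nat_lit 1271250, nat_lit 1271250, nat_lit 111251, nat_lit 230001, nat_lit 0, nat_lit 230001, [nat_lit 1100000, nat_lit 1442500, nat_lit 1271250], [nat_lit 11, nat_lit 40, nat_lit 20, nat_lit 80, nat_lit 1, nat_lit 317, nat_lit 100, nat_lit 10]⟩, C1.Rw.none,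
 ⟨nat_lit 6020, nat_lit 6063, ⟨.ofNat (nat_lit 183484), .ofNat (nat_lit 223395), .ofNat (nat_lit 199492), .ofNat (nat_lit 239404), .ofNat (nat_lit 185145), .ofNat (nat_lit 224872), .ofNat (nat_lit 201152), .ofNat (nat_lit 240879)⟩, ⟨.negSucc (nat_lit 91214), .negSucc (nat_lit 11391), .negSucc (nat_lit 69869), .ofNat (nat_lit 9953), .negSucc (nat_lit 89345), .negSucc (nat_lit 9892), .negSucc (nat_lit 68003), .ofNat (nat_lit 11449)⟩⟩, [⟨nat_lit 0, nat_lit 100, nat_lit 100, nat_lit 55, nat_lit 221760539⟩]⟩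
noncomputable def p032_l116 : Lf2 := ⟨nat_lit 0, nat_lit 10, [nat_lit 0, nat_lit 5, nat_lit 5, nat_lit 20], true, nat_lit 0, nat_lit 40, nat_lit 0, nat_lit 288, ⟨nat_lit 0, nat_lit 0, nat_lit 1000, nat_lit 6, nat_lit 86, nat_lit 0, nat_lit 1, nat_lit 0, nat_lit 2017, nat_lit 204, nat_lit 68267, nat_lit 279, nat_lit 64043429, nat_lit 0, nat_lit 0, nat_lit 904228, false, false⟩,
 nat_lit 0, nat_lit 8088, nat_lit 0, nat_lit 0, nat_lit 4599, nat_lit 0, nat_lit 635, nat_lit 0, nat_lit 0, nat_lit 0, nat_lit 0, nat_lit 0, nat_lit 0, nat_lit 18292072732522, nat_lit 69, nat_lit 400000, nat_lit 0, nat_lit 0, [(nat_lit 6, [(nat_lit 5, nat_lit 1000)])],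
 ⟨p032_k31, nat_lit 0, nat_lit 0, nat_lit 324, nat_lit 0, nat_lit 141242, [nat_lit 2521600001, nat_lit 1460000001, nat_lit 7200000], [], [nat_lit 13983600961, nat_lit 14126621072, nat_lit 13086784638, nat_lit 13227669093, nat_lit 12491895231, nat_lit 12631045837, nat_lit 12382695598, nat_lit 12153484658], nat_lit 1271250, nat_lit 1271250, nat_lit 111251, nat_lit 230001, nat_lit 0, nat_lit 230001, [nat_lit 1100000, nat_lit 1442500, nat_lit 1271250], [nat_lit 11, nat_lit 40, nat_lit 20, nat_lit 80, nat_lit 1, nat_lit 317, nat_lit 100, nat_lit 10]⟩, C1.Rw.none,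
 ⟨nat_lit 5979, nat_lit 6021, ⟨.ofNat (nat_lit 185145), .ofNat (nat_lit 224872), .ofNat (nat_lit 203286), .ofNat (nat_lit 243013), .ofNat (nat_lit 186801), .ofNat (nat_lit 226344), .ofNat (nat_lit 204941), .ofNat (nat_lit 244483)⟩, ⟨.negSucc (nat_lit 89345), .negSucc (nat_lit 9892), .negSucc (nat_lit 68003), .ofNat (nat_lit 11449), .negSucc (nat_lit 87488), .negSucc (nat_lit 8404), .negSucc (nat_lit 66147), .ofNat (nat_lit 12936)⟩⟩, [⟨nat_lit 0, nat_lit 100, nat_lit 100, nat_lit 57, nat_lit 334283940⟩]⟩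
noncomputable def p032_l117 : Lf2 := ⟨nat_lit 0, nat_lit 10, [nat_lit 0, nat_lit 5, nat_lit 5, nat_lit 20], true, nat_lit 0, nat_lit 40, nat_lit 0, nat_lit 288, ⟨nat_lit 0, nat_lit 0, nat_lit 1000, nat_lit 6, nat_lit 87, nat_lit 0, nat_lit 1, nat_lit 0, nat_lit 2017, nat_lit 204, nat_lit 70417, nat_lit 280, nat_lit 63998424, nat_lit 0, nat_lit 0, nat_lit 914531, false, false⟩,
 nat_lit 0, nat_lit 7818, nat_lit 0, nat_lit 0, nat_lit 4488, nat_lit 0, nat_lit 604, nat_lit 0, nat_lit 0, nat_lit 0, nat_lit 0, nat_lit 0, nat_lit 0, nat_lit 17419607643885, nat_lit 74, nat_lit 438400, nat_lit 0, nat_lit 0, [(nat_lit 6, [(nat_lit 5, nat_lit 936), (nat_lit 6, nat_lit 64)])],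
 ⟨p032_k32, nat_lit 0, nat_lit 0, nat_lit 327, nat_lit 0, nat_lit 149710, [nat_lit 2573405867, nat_lit 1561433601, nat_lit 7424000], [], [nat_lit 13980589207, nat_lit 14062988228, nat_lit 13111705489, nat_lit 13181309356, nat_lit 12606857388, nat_lit 12667435571, nat_lit 12292120253, nat_lit 12255312988], nat_lit 1271250, nat_lit 1271250, nat_lit 111251, nat_lit 230001, nat_lit 0, nat_lit 230001, [nat_lit 1100000, nat_lit 1442500, nat_lit 1271250], [nat_lit 11, nat_lit 40, nat_lit 20, nat_lit 80, nat_lit 1, nat_lit 317, nat_lit 100, nat_lit 10]⟩, C1.Rw.none,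
 ⟨nat_lit 5958, nat_lit 5980, ⟨.ofNat (nat_lit 186801), .ofNat (nat_lit 226344), .ofNat (nat_lit 206008), .ofNat (nat_lit 245550), .ofNat (nat_lit 187628), .ofNat (nat_lit 227078), .ofNat (nat_lit 206834), .ofNat (nat_lit 246284)⟩, ⟨.negSucc (nat_lit 87488), .negSucc (nat_lit 8404), .negSucc (nat_lit 66147), .ofNat (nat_lit 12936), .negSucc (nat_lit 86563), .negSucc (nat_lit 7663), .negSucc (nat_lit 65223), .ofNat (nat_lit 13676)⟩⟩, [⟨nat_lit 0, nat_lit 100, nat_lit 100, nat_lit 58, nat_lit 327349218⟩]⟩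
noncomputable def p032_l118 : Lf2 := ⟨nat_lit 0, nat_lit 10, [nat_lit 0, nat_lit 5, nat_lit 5, nat_lit 20], true, nat_lit 0, nat_lit 40, nat_lit 0, nat_lit 288, ⟨nat_lit 0, nat_lit 0, nat_lit 1000, nat_lit 6, nat_lit 87, nat_lit 0, nat_lit 1, nat_lit 0, nat_lit 2017, nat_lit 204, nat_lit 70417, nat_lit 280, nat_lit 63976254, nat_lit 0, nat_lit 0, nat_lit 919587, false, false⟩,
 nat_lit 0, nat_lit 7793, nat_lit 0, nat_lit 0, nat_lit 4494, nat_lit 0, nat_lit 631, nat_lit 0, nat_lit 0, nat_lit 0, nat_lit 0, nat_lit 0, nat_lit 0, nat_lit 0, nat_lit 69, nat_lit 400000, nat_lit 0, nat_lit 0, [(nat_lit 6, [(nat_lit 5, nat_lit 1000)])],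
 ⟨p032_k33, nat_lit 0, nat_lit 0, nat_lit 314, nat_lit 0, nat_lit 120263, [nat_lit 2521600001, nat_lit 1460000001, nat_lit 7200000], [], [nat_lit 13884003298, nat_lit 14024166401, nat_lit 13187208803, nat_lit 13326507169, nat_lit 12584671213, nat_lit 12705550550, nat_lit 12254168380, nat_lit 12373632537], nat_lit 1271250, nat_lit 1271250, nat_lit 134400, nat_lit 230001, nat_lit 0, nat_lit 230001, [nat_lit 1100000, nat_lit 1442500, nat_lit 1271250], [nat_lit 11, nat_lit 40, nat_lit 20, nat_lit 80, nat_lit 1, nat_lit 317, nat_lit 100, nat_lit 10]⟩, C1.Rw.none,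
 ⟨nat_lit 5916, nat_lit 5959, ⟨.ofNat (nat_lit 195518), .ofNat (nat_lit 227078), .ofNat (nat_lit 206188), .ofNat (nat_lit 237748), .ofNat (nat_lit 197129), .ofNat (nat_lit 228543), .ofNat (nat_lit 207799), .ofNat (nat_lit 239212)⟩, ⟨.negSucc (nat_lit 86563), .negSucc (nat_lit 7663), .negSucc (nat_lit 65223), .ofNat (nat_lit 13676), .negSucc (nat_lit 84722), .negSucc (nat_lit 6188), .negSucc (nat_lit 63383), .ofNat (nat_lit 15150)⟩⟩, [⟨nat_lit 0, nat_lit 100, nat_lit 99, nat_lit 55, nat_lit 329546736⟩]⟩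
noncomputable def p032_l119 : Lf2 := ⟨nat_lit 0, nat_lit 10, [nat_lit 0, nat_lit 5, nat_lit 5, nat_lit 20], false, nat_lit 0, nat_lit 40, nat_lit 0, nat_lit 280, ⟨nat_lit 41, nat_lit 0, nat_lit 959, nat_lit 6, nat_lit 93, nat_lit 0, nat_lit 1, nat_lit 0, nat_lit 2017, nat_lit 204, nat_lit 81667, nat_lit 285, nat_lit 63577769, nat_lit 0, nat_lit 0, nat_lit 1008378, false, false⟩,
 nat_lit 0, nat_lit 7887, nat_lit 0, nat_lit 0, nat_lit 4548, nat_lit 341, nat_lit 672, nat_lit 0, nat_lit 0, nat_lit 105, nat_lit 0, nat_lit 0, nat_lit 0, nat_lit 12838746521997, nat_lit 52, nat_lit 383600, nat_lit 0, nat_lit 0, [(nat_lit 6, [(nat_lit 5, nat_lit 959)])],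
 ⟨p032_k33, nat_lit 0, nat_lit 0, nat_lit 327, nat_lit 0, nat_lit 168640, [nat_lit 2383686401, nat_lit 1372970001, nat_lit 13638800], [], [nat_lit 14070522368, nat_lit 14211288656, nat_lit 13539452380, nat_lit 13679566448, nat_lit 12928348450, nat_lit 13028409129, nat_lit 12643736231, nat_lit 12744646531], nat_lit 1271250, nat_lit 1271250, nat_lit 157850, nat_lit 230001, nat_lit 0, nat_lit 230001, [nat_lit 1100000, nat_lit 1442500, nat_lit 1271250], [nat_lit 11, nat_lit 40, nat_lit 20, nat_lit 80, nat_lit 1, nat_lit 317, nat_lit 100, nat_lit 10]⟩, ⟨p032_k29, nat_lit 0, nat_lit 0, nat_lit 203, nat_lit 0, nat_lit 0, [nat_lit 192208000, nat_lit 256250000, nat_lit 403522000], [], [nat_lit 845749090, nat_lit 886330151, nat_lit 799873757, nat_lit 840268634, nat_lit 847502175, nat_lit 872787156, nat_lit 810711985, nat_lit 835239192], nat_lit 0, nat_lit 0, nat_lit 0, nat_lit 0, nat_lit 0, nat_lit 0, [], [nat_lit 11,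 nat_lit 40, nat_lit 20, nat_lit 80, nat_lit 1, nat_lit 373, nat_lit 150, nat_lit 11]⟩,
 ⟨nat_lit 5916, nat_lit 5959, ⟨.ofNat (nat_lit 214078), .ofNat (nat_lit 237748), .ofNat (nat_lit 224748), .ofNat (nat_lit 248418), .ofNat (nat_lit 215652), .ofNat (nat_lit 239212), .ofNat (nat_lit 226322), .ofNat (nat_lit 249882)⟩, ⟨.negSucc (nat_lit 86563), .negSucc (nat_lit 7663), .negSucc (nat_lit 65223), .ofNat (nat_lit 13676), .negSucc (nat_lit 84722), .negSucc (nat_lit 6188), .negSucc (nat_lit 63383), .ofNat (nat_lit 15150)⟩⟩, [⟨nat_lit 0, nat_lit 100, nat_lit 100, nat_lit 60, nat_lit 373790083⟩, ⟨nat_lit 7, nat_lit 100, nat_lit 100, nat_lit 55, nat_lit 12705457⟩]⟩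
noncomputable def p032_l120 : Lf2 := ⟨nat_lit 0, nat_lit 10, [nat_lit 0, nat_lit 5, nat_lit 5, nat_lit 20], true, nat_lit 0, nat_lit 40, nat_lit 0, nat_lit 288, ⟨nat_lit 0, nat_lit 0, nat_lit 1000, nat_lit 6, nat_lit 108, nat_lit 0, nat_lit 1, nat_lit 0, nat_lit 2400, nat_lit 203, nat_lit 109350, nat_lit 296, nat_lit 62416576, nat_lit 0, nat_lit 0, nat_lit 1247518, false, false⟩,
 nat_lit 0, nat_lit 7596, nat_lit 0, nat_lit 1696, nat_lit 4219, nat_lit 0, nat_lit 815, nat_lit 0, nat_lit 0, nat_lit 0, nat_lit 0, nat_lit 0, nat_lit 0, nat_lit 25736438784243, nat_lit 69, nat_lit 400000, nat_lit 0, nat_lit 0, [(nat_lit 6, [(nat_lit 5, nat_lit 1000)])],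
 ⟨p032_k29, nat_lit 0, nat_lit 0, nat_lit 299, nat_lit 0, nat_lit 124350, [nat_lit 2521600001, nat_lit 1460000001, nat_lit 7200000], [], [nat_lit 12028486512, nat_lit 12366347328, nat_lit 11590078234, nat_lit 11938174059, nat_lit 11206176937, nat_lit 11431874969, nat_lit 10893614727, nat_lit 11237972159], nat_lit 1271250, nat_lit 1271250, nat_lit 230001, nat_lit 490000, nat_lit 0, nat_lit 230001, [nat_lit 1100000, nat_lit 1442500, nat_lit 1271250], [nat_lit 11, nat_lit 40, nat_lit 20, nat_lit 80, nat_lit 1, nat_lit 317, nat_lit 100, nat_lit 10]⟩, C1.Rw.none,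
 ⟨nat_lit 6020, nat_lit 6124, ⟨.ofNat (nat_lit 221172), .ofNat (nat_lit 301553), .ofNat (nat_lit 237183), .ofNat (nat_lit 317564), .ofNat (nat_lit 224872), .ofNat (nat_lit 304325), .ofNat (nat_lit 240879), .ofNat (nat_lit 320331)⟩, ⟨.negSucc (nat_lit 94037), .negSucc (nat_lit 13656), .negSucc (nat_lit 72689), .ofNat (nat_lit 7691), .negSucc (nat_lit 89345), .negSucc (nat_lit 9892), .negSucc (nat_lit 68003), .ofNat (nat_lit 11449)⟩⟩, []⟩
noncomputable def p032_l121 : Lf2 := ⟨nat_lit 0, nat_lit 10, [nat_lit 0, nat_lit 5, nat_lit 5, nat_lit 20], true, nat_lit 0, nat_lit 40, nat_lit 0, nat_lit 288, ⟨nat_lit 0, nat_lit 0, nat_lit 1000, nat_lit 6, nat_lit 111, nat_lit 0, nat_lit 1, nat_lit 0, nat_lit 2017, nat_lit 204, nat_lit 114817, nat_lit 298, nat_lit 62229521, nat_lit 0, nat_lit 0, nat_lit 1283670, false, false⟩,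
 nat_lit 0, nat_lit 8047, nat_lit 0, nat_lit 0, nat_lit 4576, nat_lit 0, nat_lit 655, nat_lit 0, nat_lit 0, nat_lit 0, nat_lit 0, nat_lit 0, nat_lit 0, nat_lit 24012030429525, nat_lit 80, nat_lit 481600, nat_lit 0, nat_lit 0, [(nat_lit 6, [(nat_lit 5, nat_lit 864), (nat_lit 6, nat_lit 136)])],
 ⟨p032_k31, nat_lit 0, nat_lit 0, nat_lit 317, nat_lit 0, nat_lit 171444, [nat_lit 2637687467, nat_lit 1683046401, nat_lit 18176000], [], [nat_lit 12702168462, nat_lit 13074181440, nat_lit 12987045081, nat_lit 12590424117, nat_lit 12350906593, nat_lit 12139210821, nat_lit 13612899225, nat_lit 13050826857], nat_lit 1271250, nat_lit 1271250, nat_lit 230001, nat_lit 490000, nat_lit 0, nat_lit 230001, [nat_lit 1100000, nat_lit 1442500, nat_lit 1271250], [nat_lit 11, nat_lit 40, nat_lit 20, nat_lit 80, nat_lit 1, nat_lit 317, nat_lit 100, nat_lit 10]⟩, C1.Rw.none,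
 ⟨nat_lit 5916, nat_lit 6021, ⟨.ofNat (nat_lit 224872), .ofNat (nat_lit 304325), .ofNat (nat_lit 246214), .ofNat (nat_lit 325667), .ofNat (nat_lit 228543), .ofNat (nat_lit 307076), .ofNat (nat_lit 249882), .ofNat (nat_lit 328416)⟩, ⟨.negSucc (nat_lit 89345), .negSucc (nat_lit 9892), .negSucc (nat_lit 68003), .ofNat (nat_lit 11449), .negSucc (nat_lit 84722), .negSucc (nat_lit 6188), .negSucc (nat_lit 63383), .ofNat (nat_lit 15150)⟩⟩, []⟩
noncomputable def p032_l122 : Lf2 := ⟨nat_lit 0, nat_lit 10, [nat_lit 0, nat_lit 5, nat_lit 5, nat_lit 20], true, nat_lit 40, nat_lit 80, nat_lit 0, nat_lit 288, ⟨nat_lit 0, nat_lit 0, nat_lit 1000, nat_lit 6, nat_lit 102, nat_lit 0, nat_lit 17, nat_lit 521, nat_lit 2400, nat_lit 227, nat_lit 98817, nat_lit 292, nat_lit 62897457, nat_lit 0, nat_lit 0, nat_lit 1151713, false, false⟩,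
 nat_lit 0, nat_lit 7672, nat_lit 0, nat_lit 0, nat_lit 4261, nat_lit 0, nat_lit 743, nat_lit 0, nat_lit 0, nat_lit 0, nat_lit 0, nat_lit 0, nat_lit 0, nat_lit 18670711308236, nat_lit 69, nat_lit 400000, nat_lit 0, nat_lit 0, [(nat_lit 6, [(nat_lit 5, nat_lit 1000)])],
 ⟨p032_k29, nat_lit 0, nat_lit 0, nat_lit 303, nat_lit 0, nat_lit 176297, [nat_lit 2521600001, nat_lit 1460000001, nat_lit 7200000], [], [nat_lit 11841321755, nat_lit 12456206305, nat_lit 11091389277, nat_lit 11524742620, nat_lit 11057619942, nat_lit 11500479046, nat_lit 10381605344, nat_lit 10802258758], nat_lit 1271250, nat_lit 1271250, nat_lit 111251, nat_lit 490000, nat_lit 230001, nat_lit 490000, [nat_lit 1100000, nat_lit 1442500, nat_lit 1271250], [nat_lit 11, nat_lit 40, nat_lit 20, nat_lit 80, nat_lit 1, nat_lit 345, nat_lit 125, nat_lit 10]⟩, C1.Rw.none,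
 ⟨nat_lit 5916, nat_lit 6124, ⟨.ofNat (nat_lit 180982), .ofNat (nat_lit 301553), .ofNat (nat_lit 202330), .ofNat (nat_lit 322901), .ofNat (nat_lit 189276), .ofNat (nat_lit 307076), .ofNat (nat_lit 210615), .ofNat (nat_lit 328416)⟩, ⟨.negSucc (nat_lit 13656), .ofNat (nat_lit 66723), .ofNat (nat_lit 7691), .ofNat (nat_lit 88071), .negSucc (nat_lit 6188), .ofNat (nat_lit 72344), .ofNat (nat_lit 15150), .ofNat (nat_lit 93684)⟩⟩, [⟨nat_lit 0, nat_lit 100, nat_lit 100, nat_lit 60, nat_lit 189715275⟩]⟩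
noncomputable def b_VL_600_600_5_5 : St := ⟨true, nat_lit 1, nat_lit 0, nat_lit 1, nat_lit 40, nat_lit 250, nat_lit 260, nat_lit 240, nat_lit 260, nat_lit 16, nat_lit 80, nat_lit 20, nat_lit 40, nat_lit 0, nat_lit 80, nat_lit 0, nat_lit 288, nat_lit 0, nat_lit 40, nat_lit 0, nat_lit 0, nat_lit 0, nat_lit 0⟩
theorem d_VL_600_600_5_5 (h : EB TB.env) : Dead b_VL_600_600_5_5 := chkB_sound0 h (T :=
(.trZ (nat_lit 0) (nat_lit 100) (nat_lit 99) (nat_lit 45) (nat_lit 20) (.spl (nat_lit 6) (nat_lit 20)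
(.spl (nat_lit 5) (nat_lit 160)
(.leaf p032_l108)
(.spl (nat_lit 6) (nat_lit 8)
(.spl (nat_lit 5) (nat_lit 240)
(.leaf p032_l109)
(.spl (nat_lit 6) (nat_lit 4)
(.leaf p032_l110)
(.spl (nat_lit 0) (nat_lit 255)
(.ord (.leaf p032_l111))
(.leaf p032_l112))))
(.leaf p032_l113)))
(.spl (nat_lit 4) (nat_lit 40)
(.spl (nat_lit 2) (nat_lit 40)
(.spl (nat_lit 0) (nat_lit 255)
(.ord (.spl (nat_lit 0) (nat_lit 253)
(.ord (.leaf p032_l114))
(.leaf p032_l115)))
(.spl (nat_lit 0) (nat_lit 258)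
(.ord (.spl (nat_lit 0) (nat_lit 257)
(.ord (.leaf p032_l116))
(.leaf p032_l117)))
(.trZ (nat_lit 0) (nat_lit 100) (nat_lit 98) (nat_lit 49) (nat_lit 24) (.spl (nat_lit 1) (nat_lit 250)
(.leaf p032_l118)
(.trZ (nat_lit 0) (nat_lit 100) (nat_lit 99) (nat_lit 54) (nat_lit 28) (.trX (nat_lit 19) (nat_lit 100) (nat_lit 95) (nat_lit 62) (nat_lit 280) (.leaf p032_l119)))))))
(.spl (nat_lit 0) (nat_lit 255)
(.ord (.leaf p032_l120))
(.leaf p032_l121)))
(.leaf p032_l122))))) (by decide +kernel)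
noncomputable def p032_l123 : Lf2 := ⟨nat_lit 0, nat_lit 5, [nat_lit 4, nat_lit 5, nat_lit 5, nat_lit 20], false, nat_lit 80, nat_lit 120, nat_lit 0, nat_lit 160, ⟨nat_lit 1000, nat_lit 0, nat_lit 0, nat_lit 0, nat_lit 0, nat_lit 0, nat_lit 0, nat_lit 0, nat_lit 0, nat_lit 0, nat_lit 0, nat_lit 0, nat_lit 0, nat_lit 0, nat_lit 0, nat_lit 0, false, false⟩,
 nat_lit 0, nat_lit 27477, nat_lit 0, nat_lit 0, nat_lit 14546, nat_lit 8164, nat_lit 3213, nat_lit 0, nat_lit 0, nat_lit 3498, nat_lit 0, nat_lit 0, nat_lit 0, nat_lit 34667590822183, nat_lit 0, nat_lit 0, nat_lit 0, nat_lit 0, [],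
 ⟨p032_k13, nat_lit 0, nat_lit 0, nat_lit 353, nat_lit 0, nat_lit 386242, [nat_lit 4688000000, nat_lit 6250000000, nat_lit 9842000000], [], [nat_lit 19705667037, nat_lit 14992164576, nat_lit 17427401208, nat_lit 10381929740, nat_lit 19144177597, nat_lit 14102532179, nat_lit 21466840092, nat_lit 14517023120], nat_lit 1271250, nat_lit 1271250, nat_lit 88400, nat_lit 490000, nat_lit 490000, nat_lit 780000, [nat_lit 1100000, nat_lit 1442500, nat_lit 1271250], [nat_lit 11, nat_lit 40, nat_lit 20, nat_lit 80, nat_lit 1, nat_lit 345, nat_lit 125, nat_lit 10]⟩, ⟨p032_k13, nat_lit 0, nat_lit 0, nat_lit 217, nat_lit 0, nat_lit 0, [nat_lit 4688000000, nat_lit 6250000000, nat_lit 9842000000], [], [nat_lit 18859671873, nat_lit 20822791097, nat_lit 14870828864, nat_lit 16868673416, nat_lit 14318079060, nat_lit 16060916410, nat_lit 11833335312, nat_lit 13471789648], nat_lit 0, nat_lit 0, nat_lit 0, nat_lit 0, nat_lit 0, nat_lit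 0, [], [nat_lit 11, nat_lit 40, nat_lit 20, nat_lit 80, nat_lit 1, nat_lit 345, nat_lit 125, nat_lit 10]⟩,
 zbF0, [⟨nat_lit 0, nat_lit 100, nat_lit 100, nat_lit 50, nat_lit 771200153⟩]⟩
noncomputable def p032_l124 : Lf2 := ⟨nat_lit 0, nat_lit 5, [nat_lit 4, nat_lit 5, nat_lit 5, nat_lit 20], true, nat_lit 80, nat_lit 120, nat_lit 160, nat_lit 288, ⟨nat_lit 0, nat_lit 0, nat_lit 1000, nat_lit 6, nat_lit 94, nat_lit 1000, nat_lit 46, nat_lit 1000, nat_lit 19267, nat_lit 249, nat_lit 81667, nat_lit 285, nat_lit 62015276, nat_lit 0, nat_lit 0, nat_lit 1601998, false, false⟩,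
 nat_lit 0, nat_lit 9543, nat_lit 0, nat_lit 0, nat_lit 5052, nat_lit 0, nat_lit 480, nat_lit 0, nat_lit 0, nat_lit 0, nat_lit 0, nat_lit 0, nat_lit 0, nat_lit 27481749500618, nat_lit 147, nat_lit 1000000, nat_lit 0, nat_lit 0, [(nat_lit 6, [(nat_lit 6, nat_lit 1000)])],
 ⟨p032_k13, nat_lit 0, nat_lit 0, nat_lit 289, nat_lit 0, nat_lit 234598, [nat_lit 3329066667, nat_lit 3042400001, nat_lit 177599999], [], [nat_lit 8991209251, nat_lit 9348663265, nat_lit 7624796428, nat_lit 7977828594, nat_lit 9403078941, nat_lit 9755579771, nat_lit 8620190124, nat_lit 8648801895], nat_lit 1271250, nat_lit 1271250, nat_lit 88400, nat_lit 490000, nat_lit 490000, nat_lit 780000, [nat_lit 1100000, nat_lit 1442500, nat_lit 1271250], [nat_lit 11, nat_lit 40, nat_lit 20, nat_lit 80, nat_lit 1, nat_lit 345, nat_lit 125, nat_lit 10]⟩, C1.Rw.none,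
 ⟨nat_lit 6224, nat_lit 6325, ⟨.ofNat (nat_lit 164319), .ofNat (nat_lit 295942), .ofNat (nat_lit 169661), .ofNat (nat_lit 301284), .ofNat (nat_lit 168651), .ofNat (nat_lit 298759), .ofNat (nat_lit 173990), .ofNat (nat_lit 304098)⟩, ⟨.ofNat (nat_lit 60895), .ofNat (nat_lit 143159), .ofNat (nat_lit 82263), .ofNat (nat_lit 164527), .ofNat (nat_lit 63835), .ofNat (nat_lit 145153), .ofNat (nat_lit 85192), .ofNat (nat_lit 166510)⟩⟩, [⟨nat_lit 0, nat_lit 100, nat_lit 100, nat_lit 45, nat_lit 201533472⟩]⟩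
noncomputable def p032_l125 : Lf2 := ⟨nat_lit 0, nat_lit 5, [nat_lit 4, nat_lit 5, nat_lit 5, nat_lit 20], true, nat_lit 80, nat_lit 120, nat_lit 160, nat_lit 288, ⟨nat_lit 0, nat_lit 0, nat_lit 1000, nat_lit 6, nat_lit 96, nat_lit 1000, nat_lit 47, nat_lit 1000, nat_lit 20417, nat_lit 250, nat_lit 86400, nat_lit 287, nat_lit 61782455, nat_lit 0, nat_lit 0, nat_lit 1657396, false, false⟩,
 nat_lit 0, nat_lit 9155, nat_lit 0, nat_lit 0, nat_lit 4965, nat_lit 0, nat_lit 942, nat_lit 0, nat_lit 0, nat_lit 0, nat_lit 0, nat_lit 0, nat_lit 0, nat_lit 0, nat_lit 147, nat_lit 1000000, nat_lit 0, nat_lit 0, [(nat_lit 6, [(nat_lit 6, nat_lit 1000)])],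
 ⟨p032_k14, nat_lit 0, nat_lit 0, nat_lit 307, nat_lit 0, nat_lit 276659, [nat_lit 3329066667, nat_lit 3042400001, nat_lit 177599999], [], [nat_lit 9044090371, nat_lit 9482551761, nat_lit 7969993901, nat_lit 8319822683, nat_lit 9712991461, nat_lit 10062314064, nat_lit 8646156165, nat_lit 8976443201], nat_lit 1271250, nat_lit 1271250, nat_lit 88400, nat_lit 490000, nat_lit 490000, nat_lit 780000, [nat_lit 1100000, nat_lit 1442500, nat_lit 1271250], [nat_lit 11, nat_lit 40, nat_lit 20, nat_lit 80, nat_lit 1, nat_lit 345, nat_lit 125, nat_lit 10]⟩, C1.Rw.none,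
 ⟨nat_lit 6123, nat_lit 6225, ⟨.ofNat (nat_lit 168651), .ofNat (nat_lit 298759), .ofNat (nat_lit 179329), .ofNat (nat_lit 309437), .ofNat (nat_lit 172944), .ofNat (nat_lit 301553), .ofNat (nat_lit 183618), .ofNat (nat_lit 312227)⟩, ⟨.ofNat (nat_lit 63835), .ofNat (nat_lit 145153), .ofNat (nat_lit 85192), .ofNat (nat_lit 166510), .ofNat (nat_lit 66723), .ofNat (nat_lit 147104), .ofNat (nat_lit 88071), .ofNat (nat_lit 168452)⟩⟩, [⟨nat_lit 0, nat_lit 100, nat_lit 100, nat_lit 50, nat_lit 198739133⟩]⟩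
noncomputable def p032_l126 : Lf2 := ⟨nat_lit 0, nat_lit 5, [nat_lit 4, nat_lit 5, nat_lit 5, nat_lit 20], false, nat_lit 80, nat_lit 120, nat_lit 160, nat_lit 288, ⟨nat_lit 1000, nat_lit 0, nat_lit 0, nat_lit 0, nat_lit 0, nat_lit 0, nat_lit 0, nat_lit 0, nat_lit 0, nat_lit 0, nat_lit 0, nat_lit 0, nat_lit 0, nat_lit 0, nat_lit 0, nat_lit 0, false, false⟩,
 nat_lit 0, nat_lit 25159, nat_lit 0, nat_lit 0, nat_lit 13977, nat_lit 6726, nat_lit 5286, nat_lit 0, nat_lit 0, nat_lit 0, nat_lit 0, nat_lit 0, nat_lit 0, nat_lit 6978418151284, nat_lit 0, nat_lit 0, nat_lit 0, nat_lit 0, [],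
 ⟨p032_k24, nat_lit 0, nat_lit 0, nat_lit 269, nat_lit 0, nat_lit 365315, [nat_lit 4688000000, nat_lit 6250000000, nat_lit 7968000000], [], [nat_lit 15268888514, nat_lit 13344491328, nat_lit 10572826513, nat_lit 7187890630, nat_lit 12171325918, nat_lit 12862682112, nat_lit 14545585947, nat_lit 11206606440], nat_lit 1271250, nat_lit 1271250, nat_lit 111251, nat_lit 490000, nat_lit 490000, nat_lit 780000, [nat_lit 1100000, nat_lit 1442500, nat_lit 1271250], [nat_lit 9, nat_lit 40, nat_lit 20, nat_lit 80, nat_lit 2, nat_lit 260, nat_lit 50, nat_lit 9]⟩, ⟨p032_k13, nat_lit 0, nat_lit 0, nat_lit 79, nat_lit 0, nat_lit 0, [nat_lit 4688000000, nat_lit 6250000000, nat_lit 9842000000], [], [nat_lit 10575490224, nat_lit 12607429328, nat_lit 8686585800, nat_lit 10613525668, nat_lit 19788570762, nat_lit 21477709173, nat_lit 17491916712, nat_lit 18867537835], nat_lit 0, nat_lit 0, nat_lit 0, nat_lit 0, nat_lit 0, nat_lit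 0, [], [nat_lit 11, nat_lit 40, nat_lit 20, nat_lit 80, nat_lit 1, nat_lit 401, nat_lit 175, nat_lit 11]⟩,
 zbF0, [⟨nat_lit 0, nat_lit 100, nat_lit 99, nat_lit 52, nat_lit 845721798⟩, ⟨nat_lit 7, nat_lit 99, nat_lit 100, nat_lit 54, nat_lit 1043012540⟩]⟩
noncomputable def p032_l127 : Lf2 := ⟨nat_lit 0, nat_lit 5, [nat_lit 4, nat_lit 5, nat_lit 5, nat_lit 20], true, nat_lit 120, nat_lit 140, nat_lit 0, nat_lit 80, ⟨nat_lit 0, nat_lit 0, nat_lit 1000, nat_lit 6, nat_lit 96, nat_lit 1000, nat_lit 70, nat_lit 1000, nat_lit 46817, nat_lit 268, nat_lit 86400, nat_lit 287, nat_lit 60468131, nat_lit 0, nat_lit 0, nat_lit 2027191, false, false⟩,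
 nat_lit 0, nat_lit 9386, nat_lit 0, nat_lit 0, nat_lit 4968, nat_lit 0, nat_lit 390, nat_lit 0, nat_lit 0, nat_lit 0, nat_lit 0, nat_lit 0, nat_lit 0, nat_lit 15575064590556, nat_lit 147, nat_lit 1000000, nat_lit 0, nat_lit 0, [(nat_lit 6, [(nat_lit 6, nat_lit 1000)])],
 ⟨p032_k13, nat_lit 0, nat_lit 0, nat_lit 296, nat_lit 0, nat_lit 284551, [nat_lit 3329066667, nat_lit 3042400001, nat_lit 177599999], [], [nat_lit 9695265852, nat_lit 10367190131, nat_lit 8800997772, nat_lit 9161381712, nat_lit 9895346997, nat_lit 10572718796, nat_lit 9962973020, nat_lit 9489598070], nat_lit 1271250, nat_lit 1271250, nat_lit 88400, nat_lit 490000, nat_lit 780000, nat_lit 936251, [nat_lit 1100000, nat_lit 1442500, nat_lit 1271250], [nat_lit 11, nat_lit 40, nat_lit 20, nat_lit 80, nat_lit 1, nat_lit 345, nat_lit 125, nat_lit 10]⟩, C1.Rw.none,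
 ⟨nat_lit 6123, nat_lit 6325, ⟨.ofNat (nat_lit 164319), .ofNat (nat_lit 295942), .ofNat (nat_lit 175003), .ofNat (nat_lit 306625), .ofNat (nat_lit 172944), .ofNat (nat_lit 301553), .ofNat (nat_lit 183618), .ofNat (nat_lit 312227)⟩, ⟨.ofNat (nat_lit 143159), .ofNat (nat_lit 184291), .ofNat (nat_lit 164527), .ofNat (nat_lit 205659), .ofNat (nat_lit 147104), .ofNat (nat_lit 187294), .ofNat (nat_lit 168452), .ofNat (nat_lit 208643)⟩⟩, [⟨nat_lit 0, nat_lit 100, nat_lit 100, nat_lit 50, nat_lit 198522473⟩]⟩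
noncomputable def p032_l128 : Lf2 := ⟨nat_lit 0, nat_lit 5, [nat_lit 4, nat_lit 5, nat_lit 5, nat_lit 20], false, nat_lit 120, nat_lit 140, nat_lit 0, nat_lit 80, ⟨nat_lit 1000, nat_lit 0, nat_lit 0, nat_lit 0, nat_lit 0, nat_lit 0, nat_lit 0, nat_lit 0, nat_lit 0, nat_lit 0, nat_lit 0, nat_lit 0, nat_lit 0, nat_lit 0, nat_lit 0, nat_lit 0, false, false⟩,
 nat_lit 0, nat_lit 16670, nat_lit 0, nat_lit 0, nat_lit 9260, nat_lit 7558, nat_lit 0, nat_lit 0, nat_lit 0, nat_lit 3390, nat_lit 0, nat_lit 0, nat_lit 0, nat_lit 10525196835797, nat_lit 0, nat_lit 0, nat_lit 0, nat_lit 0, [],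
 ⟨p032_k24, nat_lit 0, nat_lit 0, nat_lit 256, nat_lit 0, nat_lit 365315, [nat_lit 4688000000, nat_lit 6250000000, nat_lit 7968000000], [], [nat_lit 29657571660, nat_lit 27263833880, nat_lit 26488589860, nat_lit 24276459200, nat_lit 26283800820, nat_lit 24040880660, nat_lit 28462081360, nat_lit 26265174140], nat_lit 1271250, nat_lit 1271250, nat_lit 111251, nat_lit 490000, nat_lit 780000, nat_lit 936251, [nat_lit 1100000, nat_lit 1442500, nat_lit 1271250], [nat_lit 9, nat_lit 40, nat_lit 20, nat_lit 80, nat_lit 2, nat_lit 272, nat_lit 60, nat_lit 9]⟩, ⟨p032_k13, nat_lit 0, nat_lit 0, nat_lit 0, nat_lit 0, nat_lit 0, [nat_lit 4688000000, nat_lit 6250000000, nat_lit 9842000000], [], [nat_lit 18235127284, nat_lit 20105918204, nat_lit 15761542208, nat_lit 17662779452, nat_lit 14005252840, nat_lit 15893153676, nat_lit 12105153040, nat_lit 13886370396], nat_lit 0, nat_lit 0, nat_lit 0, nat_lit 0, nat_lit 0, nat_lit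 0, [], [nat_lit 11, nat_lit 40, nat_lit 20, nat_lit 80]⟩,
 zbF0, [⟨nat_lit 0, nat_lit 100, nat_lit 99, nat_lit 52, nat_lit 971071294⟩]⟩
noncomputable def p032_l129 : Lf2 := ⟨nat_lit 0, nat_lit 1, [nat_lit 19, nat_lit 5, nat_lit 5, nat_lit 20], false, nat_lit 140, nat_lit 160, nat_lit 0, nat_lit 80, ⟨nat_lit 1000, nat_lit 0, nat_lit 0, nat_lit 0, nat_lit 0, nat_lit 0, nat_lit 0, nat_lit 0, nat_lit 0, nat_lit 0, nat_lit 0, nat_lit 0, nat_lit 0, nat_lit 0, nat_lit 0, nat_lit 0, false, false⟩,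
 nat_lit 0, nat_lit 5721, nat_lit 0, nat_lit 0, nat_lit 3028, nat_lit 7809, nat_lit 0, nat_lit 0, nat_lit 0, nat_lit 0, nat_lit 0, nat_lit 0, nat_lit 0, nat_lit 0, nat_lit 0, nat_lit 0, nat_lit 0, nat_lit 0, [],
 ⟨p032_k27, nat_lit 0, nat_lit 0, nat_lit 220, nat_lit 0, nat_lit 362834, [nat_lit 4688000000, nat_lit 6250000000], [], [nat_lit 32687657016, nat_lit 32498680253, nat_lit 31514212476, nat_lit 32335589780, nat_lit 31967634461, nat_lit 32810148802, nat_lit 31840805984, nat_lit 32640986800], nat_lit 1271250, nat_lit 1271250, nat_lit 88400, nat_lit 490000, nat_lit 936251, nat_lit 1100001, [nat_lit 1100000, nat_lit 1442500], [nat_lit 31, nat_lit 40, nat_lit 20, nat_lit 80, nat_lit 3, nat_lit 272, nat_lit 60, nat_lit 10]⟩, ⟨p032_k27, nat_lit 0, nat_lit 0, nat_lit 0, nat_lit 0, nat_lit 0, [nat_lit 4688000000, nat_lit 6250000000], [], [nat_lit 18275358155, nat_lit 20709505627, nat_lit 15392616384, nat_lit 17333867546,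 nat_lit 13933731133, nat_lit 15864097108, nat_lit 11566476920, nat_lit 13384662058], nat_lit 0, nat_lit 0, nat_lit 0, nat_lit 0, nat_lit 0, nat_lit 0, [], [nat_lit 31, nat_lit 40, nat_lit 20, nat_lit 80]⟩,
 zbF0, [⟨nat_lit 0, nat_lit 100, nat_lit 100, nat_lit 40, nat_lit 993676273⟩]⟩
noncomputable def p032_l130 : Lf2 := ⟨nat_lit 0, nat_lit 2, [nat_lit 10, nat_lit 5, nat_lit 5, nat_lit 20], true, nat_lit 140, nat_lit 160, nat_lit 0, nat_lit 80, ⟨nat_lit 0, nat_lit 0, nat_lit 1000, nat_lit 6, nat_lit 96, nat_lit 1000, nat_lit 87, nat_lit 1000, nat_lit 70417, nat_lit 280, nat_lit 86400, nat_lit 287, nat_lit 59377419, nat_lit 0, nat_lit 0, nat_lit 2289567, false, false⟩,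
 nat_lit 0, nat_lit 9346, nat_lit 0, nat_lit 0, nat_lit 4947, nat_lit 0, nat_lit 509, nat_lit 0, nat_lit 0, nat_lit 0, nat_lit 0, nat_lit 0, nat_lit 0, nat_lit 26521043365893, nat_lit 80, nat_lit 1000000, nat_lit 0, nat_lit 0, [(nat_lit 6, [(nat_lit 6, nat_lit 1000)])],
 ⟨p032_k11, nat_lit 0, nat_lit 0, nat_lit 209, nat_lit 0, nat_lit 221692, [nat_lit 2257066667, nat_lit 1408000000, nat_lit 211200000], [], [nat_lit 9641452309, nat_lit 10372456483, nat_lit 9711505125, nat_lit 9240692044, nat_lit 9982598669, nat_lit 10638971189, nat_lit 11049596779, nat_lit 9799084225], nat_lit 1271250, nat_lit 1271250, nat_lit 88400, nat_lit 490000, nat_lit 936251, nat_lit 1100001, [nat_lit 1100000, nat_lit 1442500, nat_lit 1271250], [nat_lit 9, nat_lit 40, nat_lit 20, nat_lit 80, nat_lit 2, nat_lit 272, nat_lit 60, nat_lit 9]⟩, C1.Rw.none,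
 ⟨nat_lit 6123, nat_lit 6325, ⟨.ofNat (nat_lit 164319), .ofNat (nat_lit 295942), .ofNat (nat_lit 175003), .ofNat (nat_lit 306625), .ofNat (nat_lit 172944), .ofNat (nat_lit 301553), .ofNat (nat_lit 183618), .ofNat (nat_lit 312227)⟩, ⟨.ofNat (nat_lit 184291), .ofNat (nat_lit 225423), .ofNat (nat_lit 205659), .ofNat (nat_lit 246791), .ofNat (nat_lit 187294), .ofNat (nat_lit 227485), .ofNat (nat_lit 208643), .ofNat (nat_lit 248833)⟩⟩, [⟨nat_lit 0, nat_lit 100, nat_lit 100, nat_lit 50, nat_lit 162344163⟩]⟩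
noncomputable def p032_l131 : Lf2 := ⟨nat_lit 0, nat_lit 2, [nat_lit 10, nat_lit 5, nat_lit 5, nat_lit 20], true, nat_lit 140, nat_lit 160, nat_lit 0, nat_lit 80, ⟨nat_lit 0, nat_lit 0, nat_lit 1000, nat_lit 6, nat_lit 102, nat_lit 1000, nat_lit 88, nat_lit 1000, nat_lit 72600, nat_lit 281, nat_lit 98817, nat_lit 292, nat_lit 58812122, nat_lit 0, nat_lit 0, nat_lit 2409189, false, false⟩,
 nat_lit 0, nat_lit 8551, nat_lit 0, nat_lit 0, nat_lit 4750, nat_lit 0, nat_lit 379, nat_lit 0, nat_lit 0, nat_lit 0, nat_lit 0, nat_lit 0, nat_lit 0, nat_lit 23516791348804, nat_lit 80, nat_lit 1000000, nat_lit 0, nat_lit 0, [(nat_lit 6, [(nat_lit 6, nat_lit 1000)])],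
 ⟨p032_k25, nat_lit 0, nat_lit 0, nat_lit 208, nat_lit 0, nat_lit 301969, [nat_lit 2257066667, nat_lit 1408000000, nat_lit 211200000], [], [nat_lit 10300403250, nat_lit 11015657000, nat_lit 9511131355, nat_lit 10138238292, nat_lit 10632119167, nat_lit 11274389167, nat_lit 10068086667, nat_lit 10454372167], nat_lit 1271250, nat_lit 1271250, nat_lit 111251, nat_lit 490000, nat_lit 936251, nat_lit 1100001, [nat_lit 1100000, nat_lit 1442500, nat_lit 1271250], [nat_lit 9, nat_lit 40, nat_lit 20, nat_lit 80, nat_lit 2, nat_lit 272, nat_lit 60, nat_lit 9]⟩, C1.Rw.none,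
 ⟨nat_lit 5916, nat_lit 6124, ⟨.ofNat (nat_lit 180982), .ofNat (nat_lit 301553), .ofNat (nat_lit 202330), .ofNat (nat_lit 322901), .ofNat (nat_lit 189276), .ofNat (nat_lit 307076), .ofNat (nat_lit 210615), .ofNat (nat_lit 328416)⟩, ⟨.ofNat (nat_lit 187294), .ofNat (nat_lit 227485), .ofNat (nat_lit 208643), .ofNat (nat_lit 248833), .ofNat (nat_lit 190145), .ofNat (nat_lit 229411), .ofNat (nat_lit 211484), .ofNat (nat_lit 250751)⟩⟩, [⟨nat_lit 0, nat_lit 100, nat_lit 100, nat_lit 60, nat_lit 180244534⟩]⟩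
noncomputable def p032_l132 : Lf2 := ⟨nat_lit 0, nat_lit 4, [nat_lit 38, nat_lit 5, nat_lit 5, nat_lit 20], false, nat_lit 140, nat_lit 160, nat_lit 0, nat_lit 80, ⟨nat_lit 1000, nat_lit 0, nat_lit 0, nat_lit 0, nat_lit 0, nat_lit 0, nat_lit 0, nat_lit 0, nat_lit 0, nat_lit 0, nat_lit 0, nat_lit 0, nat_lit 0, nat_lit 0, nat_lit 0, nat_lit 0, false, false⟩,
 nat_lit 0, nat_lit 34317, nat_lit 0, nat_lit 0, nat_lit 18167, nat_lit 7575, nat_lit 0, nat_lit 0, nat_lit 0, nat_lit 3098, nat_lit 0, nat_lit 0, nat_lit 0, nat_lit 56938419635776, nat_lit 0, nat_lit 0, nat_lit 0, nat_lit 0, [],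
 ⟨p032_k12, nat_lit 0, nat_lit 0, nat_lit 213, nat_lit 0, nat_lit 284680, [nat_lit 4688000000, nat_lit 7968000000], [], [nat_lit 24199280767, nat_lit 14863048730, nat_lit 19908215661, nat_lit 11288083163, nat_lit 20825927456, nat_lit 14228218823, nat_lit 23723855820, nat_lit 15163456418], nat_lit 1271250, nat_lit 1271250, nat_lit 88400, nat_lit 490000, nat_lit 936251, nat_lit 1100001, [nat_lit 1100000, nat_lit 1785000], [nat_lit 39, nat_lit 40, nat_lit 20, nat_lit 80, nat_lit 7, nat_lit 272, nat_lit 60, nat_lit 9]⟩, ⟨p032_k23, nat_lit 0, nat_lit 0, nat_lit 0, nat_lit 0, nat_lit 0, [nat_lit 4688000000, nat_lit 6250000000, nat_lit 7968000000], [], [nat_lit 18496127421, nat_lit 20634832951, nat_lit 15736555200, nat_lit 17640502550, nat_lit 14327876240, nat_lit 16221139831, nat_lit 12068669000, nat_lit 13852390150], nat_lit 0, nat_lit 0, nat_lit 0, nat_lit 0, nat_lit 0, nat_lit 0, [], [nat_lit 9, nat_lit 40, nat_lit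 20, nat_lit 80]⟩,
 zbF0, [⟨nat_lit 0, nat_lit 100, nat_lit 100, nat_lit 50, nat_lit 414024567⟩, ⟨nat_lit 0, nat_lit 100, nat_lit 100, nat_lit 40, nat_lit 459343930⟩]⟩
noncomputable def p032_l133 : Lf2 := ⟨nat_lit 0, nat_lit 5, [nat_lit 4, nat_lit 5, nat_lit 5, nat_lit 20], true, nat_lit 140, nat_lit 160, nat_lit 0, nat_lit 80, ⟨nat_lit 0, nat_lit 0, nat_lit 1000, nat_lit 6, nat_lit 99, nat_lit 1000, nat_lit 87, nat_lit 1000, nat_lit 70417, nat_lit 280, nat_lit 91267, nat_lit 289, nat_lit 59077941, nat_lit 0, nat_lit 0, nat_lit 2353498, false, false⟩,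
 nat_lit 0, nat_lit 9485, nat_lit 0, nat_lit 0, nat_lit 5021, nat_lit 0, nat_lit 306, nat_lit 0, nat_lit 0, nat_lit 0, nat_lit 0, nat_lit 0, nat_lit 0, nat_lit 25593426095282, nat_lit 147, nat_lit 1000000, nat_lit 0, nat_lit 0, [(nat_lit 6, [(nat_lit 6, nat_lit 1000)])],
 ⟨p032_k13, nat_lit 0, nat_lit 0, nat_lit 208, nat_lit 0, nat_lit 211313, [nat_lit 3329066667, nat_lit 3042400001, nat_lit 177599999], [], [nat_lit 10144014817, nat_lit 11457811370, nat_lit 9854620562, nat_lit 10019439348, nat_lit 10341021390, nat_lit 11646078033, nat_lit 11202930284, nat_lit 10326289440], nat_lit 1271250, nat_lit 1271250, nat_lit 88400, nat_lit 490000, nat_lit 936251, nat_lit 1100001, [nat_lit 1100000, nat_lit 1442500, nat_lit 1271250], [nat_lit 11, nat_lit 40, nat_lit 20, nat_lit 80, nat_lit 1, nat_lit 345, nat_lit 125, nat_lit 10]⟩, C1.Rw.none,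
 ⟨nat_lit 5916, nat_lit 6325, ⟨.ofNat (nat_lit 164319), .ofNat (nat_lit 295942), .ofNat (nat_lit 185687), .ofNat (nat_lit 317309), .ofNat (nat_lit 181423), .ofNat (nat_lit 307076), .ofNat (nat_lit 202762), .ofNat (nat_lit 328416)⟩, ⟨.ofNat (nat_lit 184291), .ofNat (nat_lit 225423), .ofNat (nat_lit 205659), .ofNat (nat_lit 246791), .ofNat (nat_lit 190145), .ofNat (nat_lit 229411), .ofNat (nat_lit 211484), .ofNat (nat_lit 250751)⟩⟩, [⟨nat_lit 0, nat_lit 100, nat_lit 100, nat_lit 60, nat_lit 213467459⟩]⟩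
noncomputable def p032_l134 : Lf2 := ⟨nat_lit 0, nat_lit 5, [nat_lit 4, nat_lit 5, nat_lit 5, nat_lit 20], false, nat_lit 120, nat_lit 160, nat_lit 80, nat_lit 160, ⟨nat_lit 1000, nat_lit 0, nat_lit 0, nat_lit 0, nat_lit 0, nat_lit 0, nat_lit 0, nat_lit 0, nat_lit 0, nat_lit 0, nat_lit 0, nat_lit 0, nat_lit 0, nat_lit 0, nat_lit 0, nat_lit 0, false, false⟩,
 nat_lit 0, nat_lit 6856, nat_lit 0, nat_lit 0, nat_lit 3629, nat_lit 23146, nat_lit 1122, nat_lit 0, nat_lit 0, nat_lit 0, nat_lit 0, nat_lit 0, nat_lit 0, nat_lit 29959179831514, nat_lit 0, nat_lit 0, nat_lit 0, nat_lit 5086275008, [],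
 ⟨p032_k13, nat_lit 0, nat_lit 0, nat_lit 338, nat_lit 0, nat_lit 386242, [nat_lit 4688000000, nat_lit 6250000000, nat_lit 9842000000], [], [nat_lit 34956784020, nat_lit 33902584182, nat_lit 32579168122, nat_lit 33337195967, nat_lit 33552053164, nat_lit 34308634507, nat_lit 34403935844, nat_lit 33740431750], nat_lit 1271250, nat_lit 1271250, nat_lit 88400, nat_lit 490000, nat_lit 780000, nat_lit 1100001, [nat_lit 1100000, nat_lit 1442500, nat_lit 1271250], [nat_lit 11, nat_lit 40, nat_lit 20, nat_lit 80, nat_lit 1, nat_lit 345, nat_lit 125, nat_lit 10]⟩, ⟨p032_k13, nat_lit 0, nat_lit 0, nat_lit 0, nat_lit 0, nat_lit 0, [nat_lit 4688000000, nat_lit 6250000000, nat_lit 9842000000], [], [nat_lit 16411866063, nat_lit 23455319171, nat_lit 782683376, nat_lit 7571003204, nat_lit 14051247743, nat_lit 20291582600, nat_lit 0, nat_lit 5960077748], nat_lit 0, nat_lit 0, nat_lit 0, nat_lit 0, nat_lit 0, nat_lit 0, [], [nat_lit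 11, nat_lit 40, nat_lit 20, nat_lit 80]⟩,
 zbF0, [⟨nat_lit 0, nat_lit 100, nat_lit 100, nat_lit 40, nat_lit 1789737949⟩]⟩
noncomputable def p032_l135 : Lf2 := ⟨nat_lit 0, nat_lit 2, [nat_lit 10, nat_lit 5, nat_lit 5, nat_lit 20], true, nat_lit 120, nat_lit 160, nat_lit 160, nat_lit 288, ⟨nat_lit 0, nat_lit 0, nat_lit 1000, nat_lit 6, nat_lit 79, nat_lit 1000, nat_lit 79, nat_lit 1000, nat_lit 58017, nat_lit 274, nat_lit 60000, nat_lit 275, nat_lit 61093621, nat_lit 0, nat_lit 0, nat_lit 1895186, false, false⟩,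
 nat_lit 0, nat_lit 9346, nat_lit 0, nat_lit 0, nat_lit 4947, nat_lit 0, nat_lit 509, nat_lit 0, nat_lit 0, nat_lit 0, nat_lit 0, nat_lit 0, nat_lit 0, nat_lit 24711774675766, nat_lit 80, nat_lit 1000000, nat_lit 0, nat_lit 0, [(nat_lit 6, [(nat_lit 6, nat_lit 1000)])],
 ⟨p032_k11, nat_lit 0, nat_lit 0, nat_lit 222, nat_lit 0, nat_lit 271617, [nat_lit 2257066667, nat_lit 1408000000, nat_lit 211200000], [], [nat_lit 9355366869, nat_lit 10107567560, nat_lit 8559934639, nat_lit 9246394011, nat_lit 9982598669, nat_lit 10638971189, nat_lit 9940936419, nat_lit 9910391835], nat_lit 1271250, nat_lit 1271250, nat_lit 88400, nat_lit 230001, nat_lit 780000, nat_lit 1100001, [nat_lit 1100000, nat_lit 1442500, nat_lit 1271250], [nat_lit 9, nat_lit 40, nat_lit 20, nat_lit 80, nat_lit 2, nat_lit 260, nat_lit 50, nat_lit 9]⟩, C1.Rw.none,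
 ⟨nat_lit 6123, nat_lit 6325, ⟨.ofNat (nat_lit 164319), .ofNat (nat_lit 213677), .ofNat (nat_lit 175003), .ofNat (nat_lit 224361), .ofNat (nat_lit 172944), .ofNat (nat_lit 221172), .ofNat (nat_lit 183618), .ofNat (nat_lit 231846)⟩, ⟨.ofNat (nat_lit 143159), .ofNat (nat_lit 225423), .ofNat (nat_lit 164527), .ofNat (nat_lit 246791), .ofNat (nat_lit 147104), .ofNat (nat_lit 227485), .ofNat (nat_lit 168452), .ofNat (nat_lit 248833)⟩⟩, [⟨nat_lit 0, nat_lit 100, nat_lit 100, nat_lit 50, nat_lit 261716106⟩]⟩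
noncomputable def p032_l136 : Lf2 := ⟨nat_lit 0, nat_lit 2, [nat_lit 10, nat_lit 5, nat_lit 5, nat_lit 20], true, nat_lit 120, nat_lit 160, nat_lit 160, nat_lit 288, ⟨nat_lit 0, nat_lit 0, nat_lit 1000, nat_lit 6, nat_lit 84, nat_lit 1000, nat_lit 80, nat_lit 1000, nat_lit 60000, nat_lit 275, nat_lit 66150, nat_lit 278, nat_lit 60687324, nat_lit 0, nat_lit 0, nat_lit 1991940, false, false⟩,
 nat_lit 0, nat_lit 9210, nat_lit 0, nat_lit 0, nat_lit 5116, nat_lit 0, nat_lit 1470, nat_lit 0, nat_lit 0, nat_lit 0, nat_lit 0, nat_lit 0, nat_lit 0, nat_lit 0, nat_lit 41, nat_lit 400000, nat_lit 0, nat_lit 0, [(nat_lit 6, [(nat_lit 5, nat_lit 1000)])],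
 ⟨p032_k34, nat_lit 0, nat_lit 0, nat_lit 218, nat_lit 0, nat_lit 304209, [nat_lit 2073600001, nat_lit 7600000], [], [nat_lit 10075068572, nat_lit 10840226168, nat_lit 9483805455, nat_lit 10119793957, nat_lit 10596283414, nat_lit 11318234234, nat_lit 10055205818, nat_lit 10766588658], nat_lit 1271250, nat_lit 1271250, nat_lit 111251, nat_lit 230001, nat_lit 780000, nat_lit 1100001, [nat_lit 1100000, nat_lit 1785000], [nat_lit 39, nat_lit 40, nat_lit 20, nat_lit 80, nat_lit 7, nat_lit 260, nat_lit 50, nat_lit 9]⟩, C1.Rw.none,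
 ⟨nat_lit 5916, nat_lit 6124, ⟨.ofNat (nat_lit 180982), .ofNat (nat_lit 221172), .ofNat (nat_lit 191656), .ofNat (nat_lit 231846), .ofNat (nat_lit 189276), .ofNat (nat_lit 228543), .ofNat (nat_lit 199946), .ofNat (nat_lit 239212)⟩, ⟨.ofNat (nat_lit 147104), .ofNat (nat_lit 227485), .ofNat (nat_lit 168452), .ofNat (nat_lit 248833), .ofNat (nat_lit 150878), .ofNat (nat_lit 229411), .ofNat (nat_lit 172217), .ofNat (nat_lit 250751)⟩⟩, [⟨nat_lit 0, nat_lit 100, nat_lit 99, nat_lit 55, nat_lit 247400867⟩]⟩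
noncomputable def p032_l137 : Lf2 := ⟨nat_lit 0, nat_lit 5, [nat_lit 4, nat_lit 5, nat_lit 5, nat_lit 20], true, nat_lit 120, nat_lit 160, nat_lit 160, nat_lit 288, ⟨nat_lit 0, nat_lit 0, nat_lit 1000, nat_lit 6, nat_lit 81, nat_lit 1000, nat_lit 79, nat_lit 1000, nat_lit 58017, nat_lit 274, nat_lit 62017, nat_lit 276, nat_lit 60948091, nat_lit 0, nat_lit 0, nat_lit 1930210, false, false⟩,
 nat_lit 0, nat_lit 9485, nat_lit 0, nat_lit 0, nat_lit 5021, nat_lit 0, nat_lit 314, nat_lit 0, nat_lit 0, nat_lit 0, nat_lit 0, nat_lit 0, nat_lit 0, nat_lit 0, nat_lit 147, nat_lit 1000000, nat_lit 0, nat_lit 0, [(nat_lit 6, [(nat_lit 6, nat_lit 1000)])],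
 ⟨p032_k13, nat_lit 0, nat_lit 0, nat_lit 282, nat_lit 0, nat_lit 241769, [nat_lit 3329066667, nat_lit 3042400001, nat_lit 177599999], [], [nat_lit 9921458244, nat_lit 11272426758, nat_lit 8885884519, nat_lit 10221683337, nat_lit 10315471390, nat_lit 11646078033, nat_lit 10093242804, nat_lit 10710006508], nat_lit 1271250, nat_lit 1271250, nat_lit 88400, nat_lit 230001, nat_lit 780000, nat_lit 1100001, [nat_lit 1100000, nat_lit 1442500, nat_lit 1271250], [nat_lit 11, nat_lit 40, nat_lit 20, nat_lit 80, nat_lit 1, nat_lit 345, nat_lit 125, nat_lit 10]⟩, C1.Rw.none,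
 ⟨nat_lit 5916, nat_lit 6325, ⟨.ofNat (nat_lit 164319), .ofNat (nat_lit 213677), .ofNat (nat_lit 175003), .ofNat (nat_lit 224361), .ofNat (nat_lit 181423), .ofNat (nat_lit 228543), .ofNat (nat_lit 192092), .ofNat (nat_lit 239212)⟩, ⟨.ofNat (nat_lit 143159), .ofNat (nat_lit 225423), .ofNat (nat_lit 164527), .ofNat (nat_lit 246791), .ofNat (nat_lit 150878), .ofNat (nat_lit 229411), .ofNat (nat_lit 172217), .ofNat (nat_lit 250751)⟩⟩, [⟨nat_lit 0, nat_lit 100, nat_lit 99, nat_lit 47, nat_lit 291961986⟩]⟩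
noncomputable def p032_l138 : Lf2 := ⟨nat_lit 0, nat_lit 5, [nat_lit 4, nat_lit 5, nat_lit 5, nat_lit 20], true, nat_lit 120, nat_lit 160, nat_lit 160, nat_lit 280, ⟨nat_lit 0, nat_lit 0, nat_lit 1000, nat_lit 6, nat_lit 88, nat_lit 1000, nat_lit 79, nat_lit 1000, nat_lit 60000, nat_lit 275, nat_lit 72600, nat_lit 281, nat_lit 60422805, nat_lit 0, nat_lit 0, nat_lit 2052581, false, false⟩,
 nat_lit 0, nat_lit 8619, nat_lit 0, nat_lit 0, nat_lit 4788, nat_lit 0, nat_lit 815, nat_lit 0, nat_lit 0, nat_lit 0, nat_lit 0, nat_lit 0, nat_lit 0, nat_lit 0, nat_lit 80, nat_lit 1000000, nat_lit 0, nat_lit 0, [(nat_lit 6, [(nat_lit 6, nat_lit 1000)])],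
 ⟨p032_k24, nat_lit 0, nat_lit 0, nat_lit 217, nat_lit 0, nat_lit 317006, [nat_lit 2257066667, nat_lit 1408000000, nat_lit 211200000], [], [nat_lit 9618285182, nat_lit 10008727287, nat_lit 9212988541, nat_lit 9550523284, nat_lit 10284737390, nat_lit 10606222005, nat_lit 9887188839, nat_lit 10204998763], nat_lit 1271250, nat_lit 1271250, nat_lit 134400, nat_lit 230001, nat_lit 780000, nat_lit 1100001, [nat_lit 1100000, nat_lit 1442500, nat_lit 1271250], [nat_lit 9, nat_lit 40, nat_lit 20, nat_lit 80, nat_lit 2, nat_lit 260, nat_lit 50, nat_lit 9]⟩, C1.Rw.none,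
 ⟨nat_lit 6020, nat_lit 6124, ⟨.ofNat (nat_lit 199694), .ofNat (nat_lit 231846), .ofNat (nat_lit 205031), .ofNat (nat_lit 237183), .ofNat (nat_lit 203762), .ofNat (nat_lit 235543), .ofNat (nat_lit 209097), .ofNat (nat_lit 240879)⟩, ⟨.ofNat (nat_lit 147104), .ofNat (nat_lit 227485), .ofNat (nat_lit 168452), .ofNat (nat_lit 248833), .ofNat (nat_lit 149012), .ofNat (nat_lit 228465), .ofNat (nat_lit 170355), .ofNat (nat_lit 249807)⟩⟩, [⟨nat_lit 0, nat_lit 100, nat_lit 100, nat_lit 55, nat_lit 237026087⟩]⟩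
noncomputable def p032_l139 : Lf2 := ⟨nat_lit 0, nat_lit 5, [nat_lit 4, nat_lit 5, nat_lit 5, nat_lit 20], true, nat_lit 120, nat_lit 160, nat_lit 160, nat_lit 280, ⟨nat_lit 0, nat_lit 0, nat_lit 1000, nat_lit 6, nat_lit 91, nat_lit 1000, nat_lit 80, nat_lit 1000, nat_lit 60000, nat_lit 275, nat_lit 77067, nat_lit 283, nat_lit 60196084, nat_lit 0, nat_lit 0, nat_lit 2104078, false, false⟩,
 nat_lit 0, nat_lit 8594, nat_lit 0, nat_lit 0, nat_lit 4888, nat_lit 0, nat_lit 535, nat_lit 0, nat_lit 0, nat_lit 0, nat_lit 0, nat_lit 0, nat_lit 0, nat_lit 21141325274731, nat_lit 80, nat_lit 1000000, nat_lit 0, nat_lit 0, [(nat_lit 6, [(nat_lit 6, nat_lit 1000)])],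
 ⟨p032_k35, nat_lit 0, nat_lit 0, nat_lit 248, nat_lit 0, nat_lit 355564, [nat_lit 2257066667, nat_lit 1408000000, nat_lit 211200000], [], [nat_lit 10020304652, nat_lit 10539273722, nat_lit 9368832309, nat_lit 9725895296, nat_lit 10606884688, nat_lit 11099292698, nat_lit 10016584213, nat_lit 10337668937], nat_lit 1271250, nat_lit 1271250, nat_lit 134400, nat_lit 230001, nat_lit 780000, nat_lit 1100001, [nat_lit 1100000, nat_lit 1442500, nat_lit 1271250], [nat_lit 9, nat_lit 40, nat_lit 20, nat_lit 80, nat_lit 2, nat_lit 260, nat_lit 50, nat_lit 9]⟩, C1.Rw.none,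
 ⟨nat_lit 5916, nat_lit 6021, ⟨.ofNat (nat_lit 203762), .ofNat (nat_lit 235543), .ofNat (nat_lit 214433), .ofNat (nat_lit 246214), .ofNat (nat_lit 207799), .ofNat (nat_lit 239212), .ofNat (nat_lit 218469), .ofNat (nat_lit 249882)⟩, ⟨.ofNat (nat_lit 149012), .ofNat (nat_lit 228465), .ofNat (nat_lit 170355), .ofNat (nat_lit 249807), .ofNat (nat_lit 150878), .ofNat (nat_lit 229411), .ofNat (nat_lit 172217), .ofNat (nat_lit 250751)⟩⟩, [⟨nat_lit 0, nat_lit 100, nat_lit 100, nat_lit 60, nat_lit 348965633⟩]⟩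
noncomputable def p032_l140 : Lf2 := ⟨nat_lit 0, nat_lit 5, [nat_lit 4, nat_lit 5, nat_lit 5, nat_lit 20], false, nat_lit 120, nat_lit 160, nat_lit 160, nat_lit 240, ⟨nat_lit 1000, nat_lit 0, nat_lit 0, nat_lit 0, nat_lit 0, nat_lit 0, nat_lit 0, nat_lit 0, nat_lit 0, nat_lit 0, nat_lit 0, nat_lit 0, nat_lit 0, nat_lit 0, nat_lit 0, nat_lit 0, false, false⟩,
 nat_lit 0, nat_lit 8594, nat_lit 0, nat_lit 0, nat_lit 4549, nat_lit 7825, nat_lit 1527, nat_lit 0, nat_lit 0, nat_lit 0, nat_lit 0, nat_lit 0, nat_lit 0, nat_lit 17374482998878, nat_lit 0, nat_lit 0, nat_lit 0, nat_lit 0, [],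
 ⟨p032_k13, nat_lit 0, nat_lit 0, nat_lit 316, nat_lit 0, nat_lit 386242, [nat_lit 4688000000, nat_lit 6250000000, nat_lit 9842000000], [], [nat_lit 33095711876, nat_lit 30726146874, nat_lit 30391156188, nat_lit 29703268377, nat_lit 31691736244, nat_lit 30383516858, nat_lit 33055984964, nat_lit 30882982252], nat_lit 1271250, nat_lit 1271250, nat_lit 230001, nat_lit 490000, nat_lit 780000, nat_lit 1100001, [nat_lit 1100000, nat_lit 1442500, nat_lit 1271250], [nat_lit 11, nat_lit 40, nat_lit 20, nat_lit 80, nat_lit 1, nat_lit 345, nat_lit 125, nat_lit 10]⟩, ⟨p032_k13, nat_lit 0, nat_lit 0, nat_lit 0, nat_lit 0, nat_lit 0, [nat_lit 4688000000, nat_lit 6250000000, nat_lit 9842000000], [], [nat_lit 8075440900, nat_lit 10287603550, nat_lit 6935109500, nat_lit 9058570350, nat_lit 13337908100, nat_lit 15503445050, nat_lit 12027127900, nat_lit 13775339700], nat_lit 0, nat_lit 0, nat_lit 0, nat_lit 0, nat_lit 0, nat_lit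 0, [], [nat_lit 11, nat_lit 40, nat_lit 20, nat_lit 80]⟩,
 zbF0, []⟩
noncomputable def p032_l141 : Lf2 := ⟨nat_lit 0, nat_lit 5, [nat_lit 4, nat_lit 5, nat_lit 5, nat_lit 20], false, nat_lit 120, nat_lit 160, nat_lit 240, nat_lit 288, ⟨nat_lit 1000, nat_lit 0, nat_lit 0, nat_lit 0, nat_lit 0, nat_lit 0, nat_lit 0, nat_lit 0, nat_lit 0, nat_lit 0, nat_lit 0, nat_lit 0, nat_lit 0, nat_lit 0, nat_lit 0, nat_lit 0, false, false⟩,
 nat_lit 0, nat_lit 35000, nat_lit 0, nat_lit 0, nat_lit 18529, nat_lit 7825, nat_lit 1694, nat_lit 0, nat_lit 0, nat_lit 0, nat_lit 0, nat_lit 0, nat_lit 0, nat_lit 38928935156921, nat_lit 0, nat_lit 0, nat_lit 0, nat_lit 0, [],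
 ⟨p032_k36, nat_lit 0, nat_lit 0, nat_lit 323, nat_lit 0, nat_lit 386242, [nat_lit 4688000000, nat_lit 7968000001, nat_lit 9842000000], [], [nat_lit 22141323313, nat_lit 12633071062, nat_lit 16172112559, nat_lit 7889721961, nat_lit 20735640361, nat_lit 11884559409, nat_lit 23343560341, nat_lit 14612584367], nat_lit 1271250, nat_lit 1271250, nat_lit 230001, nat_lit 490000, nat_lit 780000, nat_lit 1100001, [nat_lit 1100000, nat_lit 1785000, nat_lit 1271250], [nat_lit 29, nat_lit 40, nat_lit 20, nat_lit 80, nat_lit 17, nat_lit 345, nat_lit 125, nat_lit 10]⟩, ⟨p032_k36, nat_lit 0, nat_lit 0, nat_lit 0, nat_lit 0, nat_lit 0, [nat_lit 4688000000, nat_lit 7968000000, nat_lit 9842000000], [], [nat_lit 13337908100, nat_lit 15503445050, nat_lit 12027127900, nat_lit 13775339700, nat_lit 18903503960, nat_lit 20739668810, nat_lit 16921338460, nat_lit 18700064920], nat_lit 0, nat_lit 0, nat_lit 0, nat_lit 0, nat_lit 0, nat_lit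 0, [], [nat_lit 29, nat_lit 40, nat_lit 20, nat_lit 80]⟩,
 zbF0, [⟨nat_lit 7, nat_lit 99, nat_lit 100, nat_lit 54, nat_lit 1511048538⟩]⟩
noncomputable def p032_l142 : Lf2 := ⟨nat_lit 3, nat_lit 5, [nat_lit 4, nat_lit 5, nat_lit 5, nat_lit 20], false, nat_lit 120, nat_lit 160, nat_lit 0, nat_lit 288, zbN0,
 nat_lit 0, nat_lit 0, nat_lit 0, nat_lit 0, nat_lit 0, nat_lit 0, nat_lit 0, nat_lit 0, nat_lit 0, nat_lit 0, nat_lit 0, nat_lit 0, nat_lit 0, nat_lit 0, nat_lit 0, nat_lit 0, nat_lit 0, nat_lit 0, [],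
 C1.Rw.none, ⟨p032_k36, nat_lit 0, nat_lit 0, nat_lit 241, nat_lit 0, nat_lit 0, [], [], [], nat_lit 0, nat_lit 0, nat_lit 0, nat_lit 0, nat_lit 0, nat_lit 0, [], [nat_lit 29, nat_lit 40, nat_lit 20, nat_lit 80, nat_lit 17, nat_lit 401, nat_lit 175, nat_lit 12]⟩,
 zbF0, []⟩
noncomputable def p032_l143 : Lf2 := ⟨nat_lit 0, nat_lit 8, [nat_lit 50, nat_lit 5, nat_lit 5, nat_lit 20], true, nat_lit 80, nat_lit 160, nat_lit 0, nat_lit 288, ⟨nat_lit 0, nat_lit 0, nat_lit 1000, nat_lit 6, nat_lit 96, nat_lit 1000, nat_lit 62, nat_lit 1000, nat_lit 36817, nat_lit 262, nat_lit 86400, nat_lit 287, nat_lit 60966975, nat_lit 0, nat_lit 0, nat_lit 1896050, false, false⟩,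
 nat_lit 0, nat_lit 11265, nat_lit 0, nat_lit 0, nat_lit 5963, nat_lit 0, nat_lit 378, nat_lit 0, nat_lit 0, nat_lit 0, nat_lit 0, nat_lit 0, nat_lit 0, nat_lit 24110690082929, nat_lit 147, nat_lit 1000000, nat_lit 0, nat_lit 0, [(nat_lit 6, [(nat_lit 6, nat_lit 1000)])],
 ⟨p032_k15, nat_lit 0, nat_lit 0, nat_lit 227, nat_lit 0, nat_lit 78008, [nat_lit 3329066667, nat_lit 3042400001, nat_lit 177599999], [], [nat_lit 9138493732, nat_lit 9919575889, nat_lit 6814321995, nat_lit 7560153386, nat_lit 9707935331, nat_lit 10718201584, nat_lit 9407191916, nat_lit 8188448397], nat_lit 1271250, nat_lit 1271250, nat_lit 88400, nat_lit 490000, nat_lit 490000, nat_lit 1100001, [nat_lit 1100000, nat_lit 1442500, nat_lit 1271250], [nat_lit 11, nat_lit 40, nat_lit 20, nat_lit 80, nat_lit 1, nat_lit 345, nat_lit 125, nat_lit 10]⟩, C1.Rw.none,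
 ⟨nat_lit 6123, nat_lit 6325, ⟨.ofNat (nat_lit 164319), .ofNat (nat_lit 295942), .ofNat (nat_lit 175003), .ofNat (nat_lit 306625), .ofNat (nat_lit 172944), .ofNat (nat_lit 301553), .ofNat (nat_lit 183618), .ofNat (nat_lit 312227)⟩, ⟨.ofNat (nat_lit 60895), .ofNat (nat_lit 225423), .ofNat (nat_lit 82263), .ofNat (nat_lit 246791), .ofNat (nat_lit 66723), .ofNat (nat_lit 227485), .ofNat (nat_lit 88071), .ofNat (nat_lit 248833)⟩⟩, [⟨nat_lit 0, nat_lit 100, nat_lit 100, nat_lit 50, nat_lit 298232899⟩]⟩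
noncomputable def p032_l144 : Lf2 := ⟨nat_lit 1, nat_lit 10, [nat_lit 0, nat_lit 5, nat_lit 5, nat_lit 20], false, nat_lit 80, nat_lit 160, nat_lit 0, nat_lit 288, zbN0,
 nat_lit 0, nat_lit 0, nat_lit 0, nat_lit 0, nat_lit 0, nat_lit 0, nat_lit 0, nat_lit 0, nat_lit 0, nat_lit 0, nat_lit 0, nat_lit 0, nat_lit 0, nat_lit 0, nat_lit 0, nat_lit 0, nat_lit 0, nat_lit 0, [],
 C1.Rw.none, C1.Rw.none,
 zbF0, []⟩
noncomputable def p032_l145 : Lf2 := ⟨nat_lit 0, nat_lit 10, [nat_lit 0, nat_lit 5, nat_lit 5, nat_lit 20], true, nat_lit 80, nat_lit 160, nat_lit 0, nat_lit 288, ⟨nat_lit 0, nat_lit 0, nat_lit 1000, nat_lit 6, nat_lit 102, nat_lit 1000, nat_lit 64, nat_lit 1000, nat_lit 38400, nat_lit 263, nat_lit 98817, nat_lit 292, nat_lit 60377124, nat_lit 0, nat_lit 0, nat_lit 2026295, false, false⟩,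
 nat_lit 0, nat_lit 8984, nat_lit 0, nat_lit 0, nat_lit 4991, nat_lit 0, nat_lit 680, nat_lit 0, nat_lit 0, nat_lit 0, nat_lit 0, nat_lit 0, nat_lit 0, nat_lit 22341483048790, nat_lit 96, nat_lit 606400, nat_lit 0, nat_lit 0, [(nat_lit 6, [(nat_lit 5, nat_lit 656), (nat_lit 6, nat_lit 344)])],
 ⟨p032_k29, nat_lit 0, nat_lit 0, nat_lit 228, nat_lit 0, nat_lit 176297, [nat_lit 2802056534, nat_lit 2007705601, nat_lit 11904000], [], [nat_lit 9796226375, nat_lit 10506324534, nat_lit 8451077446, nat_lit 9152649677, nat_lit 10644471655, nat_lit 11302828887, nat_lit 9992279909, nat_lit 10384195164], nat_lit 1271250, nat_lit 1271250, nat_lit 111251, nat_lit 490000, nat_lit 490000, nat_lit 1100001, [nat_lit 1100000, nat_lit 1442500, nat_lit 1271250], [nat_lit 11, nat_lit 40, nat_lit 20, nat_lit 80, nat_lit 1, nat_lit 345, nat_lit 125, nat_lit 10]⟩, C1.Rw.none,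
 ⟨nat_lit 5916, nat_lit 6124, ⟨.ofNat (nat_lit 180982), .ofNat (nat_lit 301553), .ofNat (nat_lit 202330), .ofNat (nat_lit 322901), .ofNat (nat_lit 189276), .ofNat (nat_lit 307076), .ofNat (nat_lit 210615), .ofNat (nat_lit 328416)⟩, ⟨.ofNat (nat_lit 66723), .ofNat (nat_lit 227485), .ofNat (nat_lit 88071), .ofNat (nat_lit 248833), .ofNat (nat_lit 72344), .ofNat (nat_lit 229411), .ofNat (nat_lit 93684), .ofNat (nat_lit 250751)⟩⟩, [⟨nat_lit 0, nat_lit 100, nat_lit 100, nat_lit 60, nat_lit 188448170⟩]⟩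
noncomputable def b_VL_600_600_5_6 : St := ⟨true, nat_lit 1, nat_lit 0, nat_lit 1, nat_lit 40, nat_lit 240, nat_lit 260, nat_lit 240, nat_lit 260, nat_lit 16, nat_lit 80, nat_lit 20, nat_lit 40, nat_lit 80, nat_lit 160, nat_lit 0, nat_lit 288, nat_lit 0, nat_lit 40, nat_lit 0, nat_lit 0, nat_lit 0, nat_lit 0⟩
theorem d_VL_600_600_5_6 (h : EB TB.env) : Dead b_VL_600_600_5_6 := chkB_sound0 h (T :=
(.spl (nat_lit 6) (nat_lit 20)
(.spl (nat_lit 4) (nat_lit 120)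
(.spl (nat_lit 5) (nat_lit 160)
(.leaf p032_l123)
(.spl (nat_lit 0) (nat_lit 250)
(.ord (.spl (nat_lit 0) (nat_lit 245)
(.ord (.leaf p032_l124))
(.leaf p032_l125)))
(.trZ (nat_lit 0) (nat_lit 100) (nat_lit 99) (nat_lit 45) (nat_lit 20) (.leaf p032_l126))))
(.spl (nat_lit 8) (nat_lit 800)
(.spl (nat_lit 5) (nat_lit 160)
(.spl (nat_lit 5) (nat_lit 80)
(.spl (nat_lit 4) (nat_lit 140)
(.spl (nat_lit 0) (nat_lit 250)
(.ord (.leaf p032_l127))
(.trZ (nat_lit 0) (nat_lit 100) (nat_lit 99) (nat_lit 45) (nat_lit 20) (.leaf p032_l128)))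
(.spl (nat_lit 6) (nat_lit 8)
(.spl (nat_lit 6) (nat_lit 4)
(.leaf p032_l129)
(.spl (nat_lit 0) (nat_lit 250)
(.ord (.leaf p032_l130))
(.trZ (nat_lit 0) (nat_lit 100) (nat_lit 99) (nat_lit 45) (nat_lit 20) (.leaf p032_l131))))
(.spl (nat_lit 6) (nat_lit 16)
(.leaf p032_l132)
(.leaf p032_l133))))
(.leaf p032_l134))
(.spl (nat_lit 2) (nat_lit 40)
(.spl (nat_lit 1) (nat_lit 250)
(.spl (nat_lit 6) (nat_lit 8)
(.spl (nat_lit 0) (nat_lit 250)
(.leaf p032_l135)
(.trZ (nat_lit 0) (nat_lit 100) (nat_lit 99) (nat_lit 45) (nat_lit 20) (.leaf p032_l136)))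
(.leaf p032_l137))
(.ord (.trZ (nat_lit 0) (nat_lit 100) (nat_lit 100) (nat_lit 50) (nat_lit 24) (.trX (nat_lit 19) (nat_lit 100) (nat_lit 95) (nat_lit 62) (nat_lit 280) (.spl (nat_lit 0) (nat_lit 255)
(.ord (.leaf p032_l138))
(.leaf p032_l139))))))
(.spl (nat_lit 5) (nat_lit 240)
(.leaf p032_l140)
(.leaf p032_l141))))
(.leaf p032_l142)))
(.spl (nat_lit 0) (nat_lit 250)
(.ord (.spl (nat_lit 6) (nat_lit 32)
(.leaf p032_l143)
(.leaf p032_l144)))
(.trZ (nat_lit 0) (nat_lit 100) (nat_lit 99) (nat_lit 45) (nat_lit 20) (.leaf p032_l145))))) (by decide +kernel)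
noncomputable def p032_l146 : Lf2 := ⟨nat_lit 0, nat_lit 1, [nat_lit 19, nat_lit 5, nat_lit 5, nat_lit 20], true, nat_lit 160, nat_lit 180, nat_lit 0, nat_lit 288, ⟨nat_lit 0, nat_lit 0, nat_lit 1000, nat_lit 6, nat_lit 77, nat_lit 1000, nat_lit 103, nat_lit 1000, nat_lit 98817, nat_lit 292, nat_lit 56067, nat_lit 273, nat_lit 59462207, nat_lit 0, nat_lit 0, nat_lit 2256109, false, false⟩,
 nat_lit 0, nat_lit 9149, nat_lit 0, nat_lit 0, nat_lit 4843, nat_lit 0, nat_lit 0, nat_lit 0, nat_lit 0, nat_lit 0, nat_lit 0, nat_lit 0, nat_lit 0, nat_lit 26811250893483, nat_lit 10, nat_lit 1000000, nat_lit 0, nat_lit 0, [(nat_lit 6, [(nat_lit 6, nat_lit 1000)])],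
 ⟨p032_k27, nat_lit 0, nat_lit 0, nat_lit 0, nat_lit 0, nat_lit 220380, [nat_lit 1137066667, nat_lit 8000000], [], [nat_lit 10170666778, nat_lit 10495377004, nat_lit 10140635555, nat_lit 9795500195, nat_lit 11364250991, nat_lit 11318226299, nat_lit 11676474010, nat_lit 11059760337], nat_lit 1271250, nat_lit 1271250, nat_lit 88400, nat_lit 230001, nat_lit 1100001, nat_lit 1271250, [nat_lit 1100000, nat_lit 1442500], [nat_lit 31, nat_lit 40, nat_lit 20, nat_lit 80]⟩, C1.Rw.none,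
 ⟨nat_lit 6224, nat_lit 6325, ⟨.ofNat (nat_lit 164319), .ofNat (nat_lit 213677), .ofNat (nat_lit 169661), .ofNat (nat_lit 219019), .ofNat (nat_lit 168651), .ofNat (nat_lit 217441), .ofNat (nat_lit 173990), .ofNat (nat_lit 222780)⟩, ⟨.ofNat (nat_lit 225423), .ofNat (nat_lit 266555), .ofNat (nat_lit 246791), .ofNat (nat_lit 287923), .ofNat (nat_lit 226471), .ofNat (nat_lit 267130), .ofNat (nat_lit 247827), .ofNat (nat_lit 288486)⟩⟩, [⟨nat_lit 0, nat_lit 100, nat_lit 100, nat_lit 45, nat_lit 143355608⟩]⟩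
noncomputable def p032_l147 : Lf2 := ⟨nat_lit 0, nat_lit 1, [nat_lit 19, nat_lit 5, nat_lit 5, nat_lit 20], true, nat_lit 160, nat_lit 180, nat_lit 0, nat_lit 288, ⟨nat_lit 0, nat_lit 0, nat_lit 1000, nat_lit 6, nat_lit 79, nat_lit 1000, nat_lit 103, nat_lit 1000, nat_lit 98817, nat_lit 292, nat_lit 60000, nat_lit 275, nat_lit 59313178, nat_lit 0, nat_lit 0, nat_lit 2291190, false, false⟩,
 nat_lit 0, nat_lit 8601, nat_lit 0, nat_lit 0, nat_lit 4665, nat_lit 0, nat_lit 1163, nat_lit 0, nat_lit 0, nat_lit 0, nat_lit 0, nat_lit 0, nat_lit 0, nat_lit 23570022018046, nat_lit 10, nat_lit 1000000, nat_lit 0, nat_lit 0, [(nat_lit 6, [(nat_lit 6, nat_lit 1000)])],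
 ⟨p032_k37, nat_lit 0, nat_lit 0, nat_lit 0, nat_lit 0, nat_lit 241963, [nat_lit 1137066667, nat_lit 8000000], [], [nat_lit 10575079066, nat_lit 10766335582, nat_lit 9915480132, nat_lit 10103749284, nat_lit 11388486559, nat_lit 11572384015, nat_lit 11156713526, nat_lit 10901269657], nat_lit 1271250, nat_lit 1271250, nat_lit 88400, nat_lit 230001, nat_lit 1100001, nat_lit 1271250, [nat_lit 1100000, nat_lit 1442500], [nat_lit 31, nat_lit 40, nat_lit 20, nat_lit 80]⟩, C1.Rw.none,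
 ⟨nat_lit 6164, nat_lit 6225, ⟨.ofNat (nat_lit 168651), .ofNat (nat_lit 217441), .ofNat (nat_lit 177193), .ofNat (nat_lit 225984), .ofNat (nat_lit 171231), .ofNat (nat_lit 219683), .ofNat (nat_lit 179771), .ofNat (nat_lit 228224)⟩, ⟨.ofNat (nat_lit 226471), .ofNat (nat_lit 267130), .ofNat (nat_lit 247827), .ofNat (nat_lit 288486), .ofNat (nat_lit 227083), .ofNat (nat_lit 267460), .ofNat (nat_lit 248434), .ofNat (nat_lit 288812)⟩⟩, [⟨nat_lit 0, nat_lit 100, nat_lit 100, nat_lit 48, nat_lit 243227369⟩]⟩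
noncomputable def p032_l148 : Lf2 := ⟨nat_lit 0, nat_lit 1, [nat_lit 19, nat_lit 5, nat_lit 5, nat_lit 20], true, nat_lit 160, nat_lit 180, nat_lit 0, nat_lit 288, ⟨nat_lit 0, nat_lit 0, nat_lit 1000, nat_lit 6, nat_lit 81, nat_lit 1000, nat_lit 103, nat_lit 1000, nat_lit 98817, nat_lit 292, nat_lit 60000, nat_lit 275, nat_lit 59218083, nat_lit 0, nat_lit 0, nat_lit 2313367, false, false⟩,
 nat_lit 0, nat_lit 8355, nat_lit 0, nat_lit 0, nat_lit 4597, nat_lit 0, nat_lit 1089, nat_lit 0, nat_lit 0, nat_lit 0, nat_lit 0, nat_lit 0, nat_lit 0, nat_lit 22744237314930, nat_lit 10, nat_lit 1000000, nat_lit 0, nat_lit 0, [(nat_lit 6, [(nat_lit 6, nat_lit 1000)])],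
 ⟨p032_k38, nat_lit 0, nat_lit 0, nat_lit 0, nat_lit 0, nat_lit 255951, [nat_lit 1137066667, nat_lit 8000000], [], [nat_lit 10761169851, nat_lit 10887765079, nat_lit 10113998163, nat_lit 10241163706, nat_lit 11614129458, nat_lit 11745631029, nat_lit 10970486648, nat_lit 11099923909], nat_lit 1271250, nat_lit 1271250, nat_lit 88400, nat_lit 230001, nat_lit 1100001, nat_lit 1271250, [nat_lit 1100000, nat_lit 1442500], [nat_lit 31, nat_lit 40, nat_lit 20, nat_lit 80]⟩, C1.Rw.none,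
 ⟨nat_lit 6123, nat_lit 6165, ⟨.ofNat (nat_lit 171231), .ofNat (nat_lit 219683), .ofNat (nat_lit 181906), .ofNat (nat_lit 230359), .ofNat (nat_lit 172944), .ofNat (nat_lit 221172), .ofNat (nat_lit 183618), .ofNat (nat_lit 231846)⟩, ⟨.ofNat (nat_lit 227083), .ofNat (nat_lit 267460), .ofNat (nat_lit 248434), .ofNat (nat_lit 288812), .ofNat (nat_lit 227485), .ofNat (nat_lit 267675), .ofNat (nat_lit 248833), .ofNat (nat_lit 289023)⟩⟩, [⟨nat_lit 0, nat_lit 100, nat_lit 100, nat_lit 50, nat_lit 245227341⟩]⟩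
noncomputable def p032_l149 : Lf2 := ⟨nat_lit 0, nat_lit 2, [nat_lit 10, nat_lit 5, nat_lit 5, nat_lit 20], true, nat_lit 160, nat_lit 180, nat_lit 0, nat_lit 288, ⟨nat_lit 0, nat_lit 0, nat_lit 1000, nat_lit 6, nat_lit 79, nat_lit 1000, nat_lit 103, nat_lit 1000, nat_lit 98817, nat_lit 292, nat_lit 60000, nat_lit 275, nat_lit 59325088, nat_lit 0, nat_lit 0, nat_lit 2288614, false, false⟩,
 nat_lit 0, nat_lit 10389, nat_lit 0, nat_lit 0, nat_lit 5499, nat_lit 0, nat_lit 0, nat_lit 0, nat_lit 0, nat_lit 0, nat_lit 0, nat_lit 0, nat_lit 0, nat_lit 28831421271679, nat_lit 80, nat_lit 1000000, nat_lit 0, nat_lit 0, [(nat_lit 6, [(nat_lit 6, nat_lit 1000)])],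
 ⟨p032_k39, nat_lit 0, nat_lit 0, nat_lit 0, nat_lit 0, nat_lit 221692, [nat_lit 2814000001, nat_lit 141466667], [], [nat_lit 10808887564, nat_lit 11021996588, nat_lit 11112412968, nat_lit 9919130747, nat_lit 12476336003, nat_lit 11904392275, nat_lit 12804116397, nat_lit 11423926512], nat_lit 1271250, nat_lit 1271250, nat_lit 88400, nat_lit 230001, nat_lit 1100001, nat_lit 1271250, [nat_lit 1100000, nat_lit 1785000], [nat_lit 39, nat_lit 40, nat_lit 20, nat_lit 80]⟩, C1.Rw.none,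
 ⟨nat_lit 6123, nat_lit 6325, ⟨.ofNat (nat_lit 164319), .ofNat (nat_lit 213677), .ofNat (nat_lit 175003), .ofNat (nat_lit 224361), .ofNat (nat_lit 172944), .ofNat (nat_lit 221172), .ofNat (nat_lit 183618), .ofNat (nat_lit 231846)⟩, ⟨.ofNat (nat_lit 225423), .ofNat (nat_lit 266555), .ofNat (nat_lit 246791), .ofNat (nat_lit 287923), .ofNat (nat_lit 227485), .ofNat (nat_lit 267675), .ofNat (nat_lit 248833), .ofNat (nat_lit 289023)⟩⟩, [⟨nat_lit 0, nat_lit 100, nat_lit 100, nat_lit 45, nat_lit 179678552⟩]⟩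
noncomputable def p032_l150 : Lf2 := ⟨nat_lit 0, nat_lit 2, [nat_lit 10, nat_lit 5, nat_lit 5, nat_lit 20], false, nat_lit 160, nat_lit 180, nat_lit 0, nat_lit 160, ⟨nat_lit 1000, nat_lit 0, nat_lit 0, nat_lit 0, nat_lit 0, nat_lit 0, nat_lit 0, nat_lit 0, nat_lit 0, nat_lit 0, nat_lit 0, nat_lit 0, nat_lit 0, nat_lit 0, nat_lit 0, nat_lit 0, false, false⟩,
 nat_lit 0, nat_lit 7960, nat_lit 0, nat_lit 0, nat_lit 4213, nat_lit 8433, nat_lit 0, nat_lit 0, nat_lit 0, nat_lit 0, nat_lit 0, nat_lit 0, nat_lit 0, nat_lit 16073206493108, nat_lit 0, nat_lit 0, nat_lit 0, nat_lit 0, [],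
 ⟨p032_k39, nat_lit 0, nat_lit 0, nat_lit 0, nat_lit 0, nat_lit 271617, [nat_lit 4688000000, nat_lit 7968000000], [], [nat_lit 31340803532, nat_lit 30243784675, nat_lit 28889738384, nat_lit 29333105499, nat_lit 29667795801, nat_lit 30112490280, nat_lit 29475715657, nat_lit 29903403899], nat_lit 1271250, nat_lit 1271250, nat_lit 230001, nat_lit 490000, nat_lit 1100001, nat_lit 1271250, [nat_lit 1100000, nat_lit 1785000], [nat_lit 39, nat_lit 40, nat_lit 20, nat_lit 80]⟩, ⟨p032_k39, nat_lit 0, nat_lit 0, nat_lit 0, nat_lit 0, nat_lit 0, [nat_lit 4688000000, nat_lit 7968000000], [], [nat_lit 21333722824, nat_lit 22471432033, nat_lit 19345943648, nat_lit 20445014459, nat_lit 16647493744, nat_lit 17433909987, nat_lit 15435037252, nat_lit 16187289307], nat_lit 0, nat_lit 0, nat_lit 0, nat_lit 0, nat_lit 0, nat_lit 0, [], [nat_lit 39, nat_lit 40, nat_lit 20, nat_lit 80]⟩,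
 zbF0, []⟩
noncomputable def p032_l151 : Lf2 := ⟨nat_lit 0, nat_lit 1, [nat_lit 19, nat_lit 5, nat_lit 5, nat_lit 20], false, nat_lit 160, nat_lit 180, nat_lit 160, nat_lit 288, ⟨nat_lit 1000, nat_lit 0, nat_lit 0, nat_lit 0, nat_lit 0, nat_lit 0, nat_lit 0, nat_lit 0, nat_lit 0, nat_lit 0, nat_lit 0, nat_lit 0, nat_lit 0, nat_lit 0, nat_lit 0, nat_lit 0, false, false⟩,
 nat_lit 0, nat_lit 15957, nat_lit 0, nat_lit 0, nat_lit 8447, nat_lit 7028, nat_lit 0, nat_lit 0, nat_lit 0, nat_lit 0, nat_lit 0, nat_lit 0, nat_lit 0, nat_lit 7255343155924, nat_lit 0, nat_lit 0, nat_lit 0, nat_lit 0, [],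
 ⟨p032_k27, nat_lit 0, nat_lit 0, nat_lit 0, nat_lit 0, nat_lit 267305, [nat_lit 4688000000, nat_lit 6250000000], [], [nat_lit 26079365176, nat_lit 23912464713, nat_lit 17411763324, nat_lit 16502841508, nat_lit 21777215159, nat_lit 19625912082, nat_lit 16761862849, nat_lit 17173686954], nat_lit 1271250, nat_lit 1271250, nat_lit 230001, nat_lit 490000, nat_lit 1100001, nat_lit 1271250, [nat_lit 1100000, nat_lit 1442500], [nat_lit 31, nat_lit 40, nat_lit 20, nat_lit 80]⟩, ⟨p032_k27, nat_lit 0, nat_lit 0, nat_lit 0, nat_lit 0, nat_lit 0, [nat_lit 4688000000, nat_lit 6250000000], [], [nat_lit 9142550576, nat_lit 10173760924, nat_lit 8205288400, nat_lit 9195759852, nat_lit 18487851994, nat_lit 19347819459, nat_lit 17220965936, nat_lit 17925512190], nat_lit 0, nat_lit 0, nat_lit 0, nat_lit 0, nat_lit 0, nat_lit 0, [], [nat_lit 31, nat_lit 40, nat_lit 20, nat_lit 80]⟩,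
 zbF0, [⟨nat_lit 19, nat_lit 100, nat_lit 97, nat_lit 54, nat_lit 1077342168⟩]⟩
noncomputable def p032_l152 : Lf2 := ⟨nat_lit 0, nat_lit 2, [nat_lit 10, nat_lit 5, nat_lit 5, nat_lit 20], true, nat_lit 160, nat_lit 180, nat_lit 160, nat_lit 288, ⟨nat_lit 0, nat_lit 0, nat_lit 1000, nat_lit 6, nat_lit 104, nat_lit 1000, nat_lit 103, nat_lit 1000, nat_lit 98817, nat_lit 292, nat_lit 101400, nat_lit 293, nat_lit 57583764, nat_lit 0, nat_lit 0, nat_lit 2670274, false, false⟩,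
 nat_lit 0, nat_lit 9500, nat_lit 0, nat_lit 0, nat_lit 5029, nat_lit 0, nat_lit 0, nat_lit 0, nat_lit 0, nat_lit 0, nat_lit 0, nat_lit 0, nat_lit 0, nat_lit 0, nat_lit 41, nat_lit 400000, nat_lit 0, nat_lit 0, [(nat_lit 6, [(nat_lit 5, nat_lit 1000)])],
 ⟨p032_k39, nat_lit 0, nat_lit 0, nat_lit 0, nat_lit 0, nat_lit 173832, [nat_lit 2073600001, nat_lit 7600000], [], [nat_lit 8548627669, nat_lit 8970338814, nat_lit 8120694701, nat_lit 8526566132, nat_lit 9621596405, nat_lit 10026220897, nat_lit 9161832613, nat_lit 9551351770], nat_lit 1271250, nat_lit 1271250, nat_lit 230001, nat_lit 490000, nat_lit 1100001, nat_lit 1271250, [nat_lit 1100000, nat_lit 1785000], [nat_lit 39, nat_lit 40, nat_lit 20, nat_lit 80]⟩, C1.Rw.none,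
 ⟨nat_lit 6224, nat_lit 6325, ⟨.ofNat (nat_lit 213677), .ofNat (nat_lit 295942), .ofNat (nat_lit 219019), .ofNat (nat_lit 301284), .ofNat (nat_lit 217441), .ofNat (nat_lit 298759), .ofNat (nat_lit 222780), .ofNat (nat_lit 304098)⟩, ⟨.ofNat (nat_lit 225423), .ofNat (nat_lit 266555), .ofNat (nat_lit 246791), .ofNat (nat_lit 287923), .ofNat (nat_lit 226471), .ofNat (nat_lit 267130), .ofNat (nat_lit 247827), .ofNat (nat_lit 288486)⟩⟩, []⟩
noncomputable def p032_l153 : Lf2 := ⟨nat_lit 0, nat_lit 2, [nat_lit 10, nat_lit 5, nat_lit 5, nat_lit 20], true, nat_lit 160, nat_lit 180, nat_lit 160, nat_lit 288, ⟨nat_lit 0, nat_lit 0, nat_lit 1000, nat_lit 6, nat_lit 106, nat_lit 1000, nat_lit 103, nat_lit 1000, nat_lit 98817, nat_lit 292, nat_lit 106667, nat_lit 295, nat_lit 57376522, nat_lit 0, nat_lit 0, nat_lit 2711775, false, false⟩,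
 nat_lit 0, nat_lit 9140, nat_lit 0, nat_lit 0, nat_lit 4957, nat_lit 0, nat_lit 0, nat_lit 0, nat_lit 0, nat_lit 0, nat_lit 0, nat_lit 0, nat_lit 0, nat_lit 0, nat_lit 41, nat_lit 400000, nat_lit 0, nat_lit 0, [(nat_lit 6, [(nat_lit 5, nat_lit 1000)])],
 ⟨p032_k40, nat_lit 0, nat_lit 0, nat_lit 0, nat_lit 0, nat_lit 215677, [nat_lit 2073600001, nat_lit 7600000], [], [nat_lit 9063358314, nat_lit 9481687582, nat_lit 8638093808, nat_lit 9040746514, nat_lit 10113183190, nat_lit 10514617047, nat_lit 9657091483, nat_lit 10043574768], nat_lit 1271250, nat_lit 1271250, nat_lit 230001, nat_lit 490000, nat_lit 1100001, nat_lit 1271250, [nat_lit 1100000, nat_lit 1785000], [nat_lit 39, nat_lit 40, nat_lit 20, nat_lit 80]⟩, C1.Rw.none,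
 ⟨nat_lit 6123, nat_lit 6225, ⟨.ofNat (nat_lit 217441), .ofNat (nat_lit 298759), .ofNat (nat_lit 228119), .ofNat (nat_lit 309437), .ofNat (nat_lit 221172), .ofNat (nat_lit 301553), .ofNat (nat_lit 231846), .ofNat (nat_lit 312227)⟩, ⟨.ofNat (nat_lit 226471), .ofNat (nat_lit 267130), .ofNat (nat_lit 247827), .ofNat (nat_lit 288486), .ofNat (nat_lit 227485), .ofNat (nat_lit 267675), .ofNat (nat_lit 248833), .ofNat (nat_lit 289023)⟩⟩, []⟩
noncomputable def p032_l154 : Lf2 := ⟨nat_lit 0, nat_lit 2, [nat_lit 10, nat_lit 5, nat_lit 5, nat_lit 20], true, nat_lit 160, nat_lit 180, nat_lit 0, nat_lit 288, ⟨nat_lit 0, nat_lit 0, nat_lit 1000, nat_lit 6, nat_lit 94, nat_lit 1000, nat_lit 103, nat_lit 1000, nat_lit 98817, nat_lit 292, nat_lit 81667, nat_lit 285, nat_lit 58318967, nat_lit 0, nat_lit 0, nat_lit 2516991, false, false⟩,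
 nat_lit 0, nat_lit 346832, nat_lit 0, nat_lit 0, nat_lit 183616, nat_lit 0, nat_lit 60000, nat_lit 19926, nat_lit 0, nat_lit 0, nat_lit 0, nat_lit 0, nat_lit 0, nat_lit 400000000000000, nat_lit 0, nat_lit 1000000, nat_lit 0, nat_lit 0, [(nat_lit 6, [(nat_lit 6, nat_lit 1000)])],
 ⟨p032_k11, nat_lit 0, nat_lit 0, nat_lit 199, nat_lit 0, nat_lit 223935, [nat_lit 319793066667, nat_lit 398328000001, nat_lit 476515199999], [], [nat_lit 746978567616, nat_lit 723215480659, nat_lit 599652040779, nat_lit 603144501305, nat_lit 680201353167, nat_lit 683591460501, nat_lit 604226017781, nat_lit 607858846183], nat_lit 1271250, nat_lit 1271250, nat_lit 88400, nat_lit 490000, nat_lit 1100001, nat_lit 1271250, [nat_lit 1100000, nat_lit 1442500, nat_lit 1271250], [nat_lit 9, nat_lit 40, nat_lit 20, nat_lit 80, nat_lit 2, nat_lit 289, nat_lit 75, nat_lit 9]⟩, C1.Rw.none,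
 ⟨nat_lit 6224, nat_lit 6325, ⟨.ofNat (nat_lit 164319), .ofNat (nat_lit 295942), .ofNat (nat_lit 169661), .ofNat (nat_lit 301284), .ofNat (nat_lit 168651), .ofNat (nat_lit 298759), .ofNat (nat_lit 173990), .ofNat (nat_lit 304098)⟩, ⟨.ofNat (nat_lit 225423), .ofNat (nat_lit 266555), .ofNat (nat_lit 246791), .ofNat (nat_lit 287923), .ofNat (nat_lit 226471), .ofNat (nat_lit 267130), .ofNat (nat_lit 247827), .ofNat (nat_lit 288486)⟩⟩, [⟨nat_lit 0, nat_lit 100, nat_lit 100, nat_lit 45, nat_lit 6031693543⟩]⟩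
noncomputable def p032_l155 : Lf2 := ⟨nat_lit 0, nat_lit 2, [nat_lit 10, nat_lit 5, nat_lit 5, nat_lit 20], true, nat_lit 160, nat_lit 180, nat_lit 0, nat_lit 288, ⟨nat_lit 0, nat_lit 0, nat_lit 1000, nat_lit 6, nat_lit 96, nat_lit 1000, nat_lit 103, nat_lit 1000, nat_lit 98817, nat_lit 292, nat_lit 86400, nat_lit 287, nat_lit 58111382, nat_lit 0, nat_lit 0, nat_lit 2561112, false, false⟩,
 nat_lit 0, nat_lit 320600, nat_lit 0, nat_lit 0, nat_lit 173904, nat_lit 0, nat_lit 60000, nat_lit 18224, nat_lit 0, nat_lit 0, nat_lit 0, nat_lit 0, nat_lit 0, nat_lit 400000000000000, nat_lit 0, nat_lit 1000000, nat_lit 0, nat_lit 0, [(nat_lit 6, [(nat_lit 6, nat_lit 1000)])],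
 ⟨p032_k22, nat_lit 0, nat_lit 0, nat_lit 199, nat_lit 0, nat_lit 264247, [nat_lit 292561066667, nat_lit 364288000000, nat_lit 435667200000], [], [nat_lit 650544382365, nat_lit 628038196226, nat_lit 511861740951, nat_lit 515550732323, nat_lit 588021161232, nat_lit 591799893562, nat_lit 516352662483, nat_lit 519800536771], nat_lit 1271250, nat_lit 1271250, nat_lit 88400, nat_lit 490000, nat_lit 1100001, nat_lit 1271250, [nat_lit 1100000, nat_lit 1442500, nat_lit 1271250], [nat_lit 9, nat_lit 40, nat_lit 20, nat_lit 80, nat_lit 2, nat_lit 289, nat_lit 75, nat_lit 9]⟩, C1.Rw.none,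
 ⟨nat_lit 6123, nat_lit 6225, ⟨.ofNat (nat_lit 168651), .ofNat (nat_lit 298759), .ofNat (nat_lit 179329), .ofNat (nat_lit 309437), .ofNat (nat_lit 172944), .ofNat (nat_lit 301553), .ofNat (nat_lit 183618), .ofNat (nat_lit 312227)⟩, ⟨.ofNat (nat_lit 226471), .ofNat (nat_lit 267130), .ofNat (nat_lit 247827), .ofNat (nat_lit 288486), .ofNat (nat_lit 227485), .ofNat (nat_lit 267675), .ofNat (nat_lit 248833), .ofNat (nat_lit 289023)⟩⟩, [⟨nat_lit 0, nat_lit 100, nat_lit 100, nat_lit 50, nat_lit 5738843199⟩]⟩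
noncomputable def p032_l156 : Lf2 := ⟨nat_lit 0, nat_lit 5, [nat_lit 4, nat_lit 5, nat_lit 5, nat_lit 20], true, nat_lit 160, nat_lit 180, nat_lit 0, nat_lit 288, ⟨nat_lit 0, nat_lit 0, nat_lit 1000, nat_lit 6, nat_lit 96, nat_lit 1000, nat_lit 103, nat_lit 1000, nat_lit 98817, nat_lit 292, nat_lit 86400, nat_lit 287, nat_lit 58176562, nat_lit 0, nat_lit 0, nat_lit 2547380, false, false⟩,
 nat_lit 0, nat_lit 9537, nat_lit 0, nat_lit 0, nat_lit 5049, nat_lit 0, nat_lit 96, nat_lit 0, nat_lit 0, nat_lit 0, nat_lit 0, nat_lit 0, nat_lit 0, nat_lit 26324967929564, nat_lit 147, nat_lit 1000000, nat_lit 0, nat_lit 0, [(nat_lit 6, [(nat_lit 6, nat_lit 1000)])],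
 ⟨p032_k36, nat_lit 0, nat_lit 0, nat_lit 196, nat_lit 0, nat_lit 189636, [nat_lit 3886000001, nat_lit 1749466667, nat_lit 7200000], [], [nat_lit 11496710404, nat_lit 11436793458, nat_lit 13007498500, nat_lit 11749575493, nat_lit 13083761753, nat_lit 12174047204, nat_lit 14653026358, nat_lit 13403893660], nat_lit 1271250, nat_lit 1271250, nat_lit 88400, nat_lit 490000, nat_lit 1100001, nat_lit 1271250, [nat_lit 1100000, nat_lit 1785000, nat_lit 1271250], [nat_lit 29, nat_lit 40, nat_lit 20, nat_lit 80, nat_lit 17, nat_lit 373, nat_lit 150, nat_lit 11]⟩, C1.Rw.none,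
 ⟨nat_lit 6123, nat_lit 6325, ⟨.ofNat (nat_lit 164319), .ofNat (nat_lit 295942), .ofNat (nat_lit 175003), .ofNat (nat_lit 306625), .ofNat (nat_lit 172944), .ofNat (nat_lit 301553), .ofNat (nat_lit 183618), .ofNat (nat_lit 312227)⟩, ⟨.ofNat (nat_lit 225423), .ofNat (nat_lit 266555), .ofNat (nat_lit 246791), .ofNat (nat_lit 287923), .ofNat (nat_lit 227485), .ofNat (nat_lit 267675), .ofNat (nat_lit 248833), .ofNat (nat_lit 289023)⟩⟩, [⟨nat_lit 0, nat_lit 100, nat_lit 100, nat_lit 50, nat_lit 17698079⟩]⟩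
noncomputable def p032_l157 : Lf2 := ⟨nat_lit 0, nat_lit 5, [nat_lit 4, nat_lit 5, nat_lit 5, nat_lit 20], false, nat_lit 160, nat_lit 180, nat_lit 0, nat_lit 160, ⟨nat_lit 1000, nat_lit 0, nat_lit 0, nat_lit 0, nat_lit 0, nat_lit 0, nat_lit 0, nat_lit 0, nat_lit 0, nat_lit 0, nat_lit 0, nat_lit 0, nat_lit 0, nat_lit 0, nat_lit 0, nat_lit 0, false, false⟩,
 nat_lit 0, nat_lit 18056, nat_lit 0, nat_lit 0, nat_lit 10031, nat_lit 8552, nat_lit 0, nat_lit 0, nat_lit 0, nat_lit 3698, nat_lit 0, nat_lit 0, nat_lit 0, nat_lit 0, nat_lit 0, nat_lit 0, nat_lit 0, nat_lit 0, [],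
 ⟨p032_k24, nat_lit 0, nat_lit 0, nat_lit 0, nat_lit 0, nat_lit 365315, [nat_lit 4688000000, nat_lit 6250000000, nat_lit 7968000000], [], [nat_lit 27780875122, nat_lit 25188403296, nat_lit 22595018649, nat_lit 20021776250, nat_lit 22652887488, nat_lit 20644194241, nat_lit 18397463582, nat_lit 19159100467], nat_lit 1271250, nat_lit 1271250, nat_lit 111251, nat_lit 230001, nat_lit 1100001, nat_lit 1271250, [nat_lit 1100000, nat_lit 1442500, nat_lit 1271250], [nat_lit 9, nat_lit 40, nat_lit 20, nat_lit 80]⟩, ⟨p032_k13, nat_lit 0, nat_lit 0, nat_lit 0, nat_lit 0, nat_lit 0, [nat_lit 4688000000, nat_lit 6250000000, nat_lit 9842000000], [], [nat_lit 17914994996, nat_lit 20667770432, nat_lit 15996507540, nat_lit 18459153776, nat_lit 13227278336, nat_lit 15019400544, nat_lit 12084894496, nat_lit 13849188080], nat_lit 0, nat_lit 0, nat_lit 0, nat_lit 0, nat_lit 0, nat_lit 0, [], [nat_lit 11, nat_lit 40, nat_lit 20,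 nat_lit 80]⟩,
 zbF0, [⟨nat_lit 0, nat_lit 100, nat_lit 99, nat_lit 45, nat_lit 2375193606⟩]⟩
noncomputable def p032_l158 : Lf2 := ⟨nat_lit 0, nat_lit 5, [nat_lit 4, nat_lit 5, nat_lit 5, nat_lit 20], false, nat_lit 160, nat_lit 180, nat_lit 160, nat_lit 240, ⟨nat_lit 1000, nat_lit 0, nat_lit 0, nat_lit 0, nat_lit 0, nat_lit 0, nat_lit 0, nat_lit 0, nat_lit 0, nat_lit 0, nat_lit 0, nat_lit 0, nat_lit 0, nat_lit 0, nat_lit 0, nat_lit 0, false, false⟩,
 nat_lit 0, nat_lit 8494, nat_lit 0, nat_lit 0, nat_lit 4718, nat_lit 7455, nat_lit 1560, nat_lit 0, nat_lit 0, nat_lit 0, nat_lit 0, nat_lit 0, nat_lit 0, nat_lit 0, nat_lit 0, nat_lit 0, nat_lit 0, nat_lit 0, [],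
 ⟨p032_k24, nat_lit 0, nat_lit 0, nat_lit 0, nat_lit 0, nat_lit 365315, [nat_lit 4688000000, nat_lit 6250000000, nat_lit 7968000000], [], [nat_lit 28809578116, nat_lit 27944743232, nat_lit 27057461736, nat_lit 27505591360, nat_lit 28050077810, nat_lit 28488040522, nat_lit 27610947991, nat_lit 28042575083], nat_lit 1271250, nat_lit 1271250, nat_lit 111251, nat_lit 230001, nat_lit 1100001, nat_lit 1271250, [nat_lit 1100000, nat_lit 1442500, nat_lit 1271250], [nat_lit 9, nat_lit 40, nat_lit 20, nat_lit 80]⟩, ⟨p032_k13, nat_lit 0, nat_lit 0, nat_lit 0, nat_lit 0, nat_lit 0, [nat_lit 4688000000, nat_lit 6250000000, nat_lit 9842000000], [], [nat_lit 9749404920, nat_lit 11920367240, nat_lit 8570836860, nat_lit 10713483170, nat_lit 14917428320, nat_lit 17033864080, nat_lit 13704863740, nat_lit 15471023460], nat_lit 0, nat_lit 0, nat_lit 0, nat_lit 0, nat_lit 0, nat_lit 0, [], [nat_lit 11, nat_lit 40, nat_lit 20, nat_lit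 80]⟩,
 zbF0, [⟨nat_lit 0, nat_lit 100, nat_lit 99, nat_lit 45, nat_lit 1194267390⟩]⟩
noncomputable def p032_l159 : Lf2 := ⟨nat_lit 0, nat_lit 2, [nat_lit 10, nat_lit 5, nat_lit 5, nat_lit 20], false, nat_lit 160, nat_lit 180, nat_lit 240, nat_lit 288, ⟨nat_lit 1000, nat_lit 0, nat_lit 0, nat_lit 0, nat_lit 0, nat_lit 0, nat_lit 0, nat_lit 0, nat_lit 0, nat_lit 0, nat_lit 0, nat_lit 0, nat_lit 0, nat_lit 0, nat_lit 0, nat_lit 0, false, false⟩,
 nat_lit 0, nat_lit 32502, nat_lit 0, nat_lit 0, nat_lit 18056, nat_lit 7581, nat_lit 7667, nat_lit 0, nat_lit 0, nat_lit 0, nat_lit 0, nat_lit 0, nat_lit 0, nat_lit 7835801052458, nat_lit 0, nat_lit 0, nat_lit 0, nat_lit 0, [],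
 ⟨p032_k34, nat_lit 0, nat_lit 0, nat_lit 0, nat_lit 0, nat_lit 302965, [nat_lit 4688000000, nat_lit 7968000000], [], [nat_lit 10344741736, nat_lit 11607645212, nat_lit 10634728776, nat_lit 8478445144, nat_lit 14726475880, nat_lit 13997534946, nat_lit 15150255522, nat_lit 13008400891], nat_lit 1271250, nat_lit 1271250, nat_lit 111251, nat_lit 230001, nat_lit 1100001, nat_lit 1271250, [nat_lit 1100000, nat_lit 1785000], [nat_lit 39, nat_lit 40, nat_lit 20, nat_lit 80]⟩, ⟨p032_k39, nat_lit 0, nat_lit 0, nat_lit 0, nat_lit 0, nat_lit 0, [nat_lit 4688000000, nat_lit 7968000000], [], [nat_lit 14954749524, nat_lit 16559953473, nat_lit 13579900468, nat_lit 14918259046, nat_lit 20458854183, nat_lit 21819353309, nat_lit 18776084037, nat_lit 20126773325], nat_lit 0, nat_lit 0, nat_lit 0, nat_lit 0, nat_lit 0, nat_lit 0, [], [nat_lit 39, nat_lit 40, nat_lit 20, nat_lit 80]⟩,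
 zbF0, [⟨nat_lit 0, nat_lit 100, nat_lit 99, nat_lit 50, nat_lit 1063006639⟩, ⟨nat_lit 7, nat_lit 98, nat_lit 100, nat_lit 54, nat_lit 1481973395⟩]⟩
noncomputable def p032_l160 : Lf2 := ⟨nat_lit 0, nat_lit 2, [nat_lit 10, nat_lit 5, nat_lit 5, nat_lit 20], false, nat_lit 160, nat_lit 180, nat_lit 240, nat_lit 288, ⟨nat_lit 1000, nat_lit 0, nat_lit 0, nat_lit 0, nat_lit 0, nat_lit 0, nat_lit 0, nat_lit 0, nat_lit 0, nat_lit 0, nat_lit 0, nat_lit 0, nat_lit 0, nat_lit 0, nat_lit 0, nat_lit 0, false, false⟩,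
 nat_lit 0, nat_lit 26606, nat_lit 0, nat_lit 0, nat_lit 15132, nat_lit 7455, nat_lit 6195, nat_lit 0, nat_lit 0, nat_lit 0, nat_lit 0, nat_lit 0, nat_lit 0, nat_lit 0, nat_lit 0, nat_lit 0, nat_lit 0, nat_lit 0, [],
 ⟨p032_k41, nat_lit 0, nat_lit 0, nat_lit 0, nat_lit 0, nat_lit 340012, [nat_lit 4688000000, nat_lit 7968000000], [], [nat_lit 11427520964, nat_lit 12519528336, nat_lit 11523544643, nat_lit 9716450939, nat_lit 14986413721, nat_lit 14579670160, nat_lit 15430845190, nat_lit 13635843845], nat_lit 1271250, nat_lit 1271250, nat_lit 111251, nat_lit 230001, nat_lit 1100001, nat_lit 1271250, [nat_lit 1100000, nat_lit 1785000], [nat_lit 39, nat_lit 40, nat_lit 20, nat_lit 80]⟩, ⟨p032_k39, nat_lit 0, nat_lit 0, nat_lit 0, nat_lit 0, nat_lit 0, [nat_lit 4688000000, nat_lit 7968000000], [], [nat_lit 14917428320, nat_lit 17033864080, nat_lit 13704863740, nat_lit 15471023460, nat_lit 20360000832, nat_lit 22155673925,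 nat_lit 18710285224, nat_lit 20493003574], nat_lit 0, nat_lit 0, nat_lit 0, nat_lit 0, nat_lit 0, nat_lit 0, [], [nat_lit 39, nat_lit 40, nat_lit 20, nat_lit 80]⟩,
 zbF0, [⟨nat_lit 0, nat_lit 100, nat_lit 99, nat_lit 53, nat_lit 362546257⟩, ⟨nat_lit 0, nat_lit 100, nat_lit 98, nat_lit 47, nat_lit 607297918⟩, ⟨nat_lit 7, nat_lit 99, nat_lit 100, nat_lit 54, nat_lit 1487531963⟩]⟩
noncomputable def p032_l161 : Lf2 := ⟨nat_lit 0, nat_lit 5, [nat_lit 4, nat_lit 5, nat_lit 5, nat_lit 20], true, nat_lit 160, nat_lit 180, nat_lit 240, nat_lit 288, ⟨nat_lit 0, nat_lit 0, nat_lit 1000, nat_lit 6, nat_lit 86, nat_lit 1000, nat_lit 104, nat_lit 1000, nat_lit 101400, nat_lit 293, nat_lit 70417, nat_lit 280, nat_lit 58802315, nat_lit 0, nat_lit 0, nat_lit 2408939, false, false⟩,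
 nat_lit 0, nat_lit 9286, nat_lit 0, nat_lit 0, nat_lit 5158, nat_lit 0, nat_lit 0, nat_lit 0, nat_lit 0, nat_lit 0, nat_lit 0, nat_lit 0, nat_lit 0, nat_lit 23208637883622, nat_lit 80, nat_lit 1000000, nat_lit 0, nat_lit 0, [(nat_lit 6, [(nat_lit 6, nat_lit 1000)])],
 ⟨p032_k42, nat_lit 0, nat_lit 0, nat_lit 0, nat_lit 0, nat_lit 275820, [nat_lit 2814000001, nat_lit 141466667], [], [nat_lit 11048154578, nat_lit 11701525659, nat_lit 10461981430, nat_lit 11063127648, nat_lit 11841596074, nat_lit 12537314337, nat_lit 11984604935, nat_lit 11781017943], nat_lit 1271250, nat_lit 1271250, nat_lit 111251, nat_lit 230001, nat_lit 1100001, nat_lit 1271250, [nat_lit 1100000, nat_lit 1785000], [nat_lit 39, nat_lit 40, nat_lit 20, nat_lit 80]⟩, C1.Rw.none,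
 ⟨nat_lit 5916, nat_lit 6124, ⟨.ofNat (nat_lit 180982), .ofNat (nat_lit 221172), .ofNat (nat_lit 202330), .ofNat (nat_lit 242520), .ofNat (nat_lit 189276), .ofNat (nat_lit 228543), .ofNat (nat_lit 210615), .ofNat (nat_lit 249882)⟩, ⟨.ofNat (nat_lit 227485), .ofNat (nat_lit 267675), .ofNat (nat_lit 248833), .ofNat (nat_lit 289023), .ofNat (nat_lit 229411), .ofNat (nat_lit 268678), .ofNat (nat_lit 250751), .ofNat (nat_lit 290018)⟩⟩, [⟨nat_lit 0, nat_lit 100, nat_lit 100, nat_lit 60, nat_lit 297964271⟩]⟩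
noncomputable def p032_l162 : Lf2 := ⟨nat_lit 0, nat_lit 5, [nat_lit 4, nat_lit 5, nat_lit 5, nat_lit 20], false, nat_lit 160, nat_lit 180, nat_lit 0, nat_lit 160, ⟨nat_lit 1000, nat_lit 0, nat_lit 0, nat_lit 0, nat_lit 0, nat_lit 0, nat_lit 0, nat_lit 0, nat_lit 0, nat_lit 0, nat_lit 0, nat_lit 0, nat_lit 0, nat_lit 0, nat_lit 0, nat_lit 0, false, false⟩,
 nat_lit 0, nat_lit 17693, nat_lit 0, nat_lit 0, nat_lit 9829, nat_lit 8753, nat_lit 10, nat_lit 0, nat_lit 0, nat_lit 3609, nat_lit 0, nat_lit 0, nat_lit 0, nat_lit 34906100795653, nat_lit 0, nat_lit 0, nat_lit 0, nat_lit 0, [],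
 ⟨p032_k24, nat_lit 0, nat_lit 0, nat_lit 0, nat_lit 0, nat_lit 365315, [nat_lit 4688000000, nat_lit 6250000000, nat_lit 7968000000], [], [nat_lit 22758901291, nat_lit 20237477750, nat_lit 16276574091, nat_lit 17030054362, nat_lit 18724474324, nat_lit 19476694524, nat_lit 17044572869, nat_lit 17763083873], nat_lit 1271250, nat_lit 1271250, nat_lit 230001, nat_lit 490000, nat_lit 1100001, nat_lit 1271250, [nat_lit 1100000, nat_lit 1442500, nat_lit 1271250], [nat_lit 9, nat_lit 40, nat_lit 20, nat_lit 80]⟩, ⟨p032_k13, nat_lit 0, nat_lit 0, nat_lit 0, nat_lit 0, nat_lit 0, [nat_lit 4688000000, nat_lit 6250000000, nat_lit 9842000000], [], [nat_lit 16362562310, nat_lit 18456176564, nat_lit 14109350822, nat_lit 16372393576, nat_lit 11676070144, nat_lit 13466693120, nat_lit 10502494524, nat_lit 12213763396], nat_lit 0, nat_lit 0, nat_lit 0, nat_lit 0, nat_lit 0, nat_lit 0, [], [nat_lit 11, nat_lit 40, nat_lit 20,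 nat_lit 80]⟩,
 zbF0, []⟩
noncomputable def p032_l163 : Lf2 := ⟨nat_lit 0, nat_lit 5, [nat_lit 4, nat_lit 5, nat_lit 5, nat_lit 20], false, nat_lit 160, nat_lit 180, nat_lit 160, nat_lit 288, ⟨nat_lit 1000, nat_lit 0, nat_lit 0, nat_lit 0, nat_lit 0, nat_lit 0, nat_lit 0, nat_lit 0, nat_lit 0, nat_lit 0, nat_lit 0, nat_lit 0, nat_lit 0, nat_lit 0, nat_lit 0, nat_lit 0, false, false⟩,
 nat_lit 0, nat_lit 20353, nat_lit 0, nat_lit 0, nat_lit 11307, nat_lit 7028, nat_lit 4212, nat_lit 0, nat_lit 0, nat_lit 0, nat_lit 0, nat_lit 0, nat_lit 0, nat_lit 15486745055631, nat_lit 0, nat_lit 0, nat_lit 0, nat_lit 0, [],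
 ⟨p032_k24, nat_lit 0, nat_lit 0, nat_lit 0, nat_lit 0, nat_lit 365315, [nat_lit 4688000000, nat_lit 6250000000, nat_lit 7968000000], [], [nat_lit 19796292653, nat_lit 16895719250, nat_lit 8236366370, nat_lit 6518148922, nat_lit 14058391552, nat_lit 11178696524, nat_lit 7258031020, nat_lit 8188715705], nat_lit 1271250, nat_lit 1271250, nat_lit 230001, nat_lit 490000, nat_lit 1100001, nat_lit 1271250, [nat_lit 1100000, nat_lit 1442500, nat_lit 1271250], [nat_lit 9, nat_lit 40, nat_lit 20, nat_lit 80]⟩, ⟨p032_k13, nat_lit 0, nat_lit 0, nat_lit 0, nat_lit 0, nat_lit 0, [nat_lit 4688000000, nat_lit 6250000000, nat_lit 9842000000], [], [nat_lit 9142550576, nat_lit 11204971272, nat_lit 8205288400, nat_lit 10186231304, nat_lit 18487851994, nat_lit 20208338559, nat_lit 17220965936, nat_lit 18630058444], nat_lit 0, nat_lit 0, nat_lit 0, nat_lit 0, nat_lit 0, nat_lit 0, [], [nat_lit 11, nat_lit 40, nat_lit 20, nat_lit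 80]⟩,
 zbF0, [⟨nat_lit 7, nat_lit 99, nat_lit 100, nat_lit 54, nat_lit 1052645721⟩]⟩
noncomputable def p032_l164 : Lf2 := ⟨nat_lit 0, nat_lit 5, [nat_lit 4, nat_lit 5, nat_lit 5, nat_lit 20], true, nat_lit 160, nat_lit 180, nat_lit 0, nat_lit 288, ⟨nat_lit 0, nat_lit 0, nat_lit 1000, nat_lit 6, nat_lit 102, nat_lit 1000, nat_lit 104, nat_lit 1000, nat_lit 101400, nat_lit 293, nat_lit 98817, nat_lit 292, nat_lit 57639336, nat_lit 0, nat_lit 0, nat_lit 2658990, false, false⟩,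
 nat_lit 0, nat_lit 273445, nat_lit 0, nat_lit 0, nat_lit 151913, nat_lit 0, nat_lit 60000, nat_lit 14047, nat_lit 0, nat_lit 0, nat_lit 0, nat_lit 0, nat_lit 0, nat_lit 400000000000000, nat_lit 0, nat_lit 1000000, nat_lit 0, nat_lit 0, [(nat_lit 6, [(nat_lit 6, nat_lit 1000)])],
 ⟨p032_k24, nat_lit 0, nat_lit 0, nat_lit 245, nat_lit 0, nat_lit 365315, [nat_lit 225729066667, nat_lit 280748000000, nat_lit 335419200000], [], [nat_lit 453914284873, nat_lit 414652977675, nat_lit 320380786199, nat_lit 326860744467, nat_lit 380129627232, nat_lit 386754267797, nat_lit 324154908824, nat_lit 330213069690], nat_lit 1271250, nat_lit 1271250, nat_lit 111251, nat_lit 490000, nat_lit 1100001, nat_lit 1271250, [nat_lit 1100000, nat_lit 1442500, nat_lit 1271250], [nat_lit 9, nat_lit 40, nat_lit 20, nat_lit 80, nat_lit 2, nat_lit 289, nat_lit 75, nat_lit 9]⟩, C1.Rw.none,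
 ⟨nat_lit 5916, nat_lit 6124, ⟨.ofNat (nat_lit 180982), .ofNat (nat_lit 301553), .ofNat (nat_lit 202330), .ofNat (nat_lit 322901), .ofNat (nat_lit 189276), .ofNat (nat_lit 307076), .ofNat (nat_lit 210615), .ofNat (nat_lit 328416)⟩, ⟨.ofNat (nat_lit 227485), .ofNat (nat_lit 267675), .ofNat (nat_lit 248833), .ofNat (nat_lit 289023), .ofNat (nat_lit 229411), .ofNat (nat_lit 268678), .ofNat (nat_lit 250751), .ofNat (nat_lit 290018)⟩⟩, [⟨nat_lit 0, nat_lit 100, nat_lit 100, nat_lit 60, nat_lit 4823680628⟩]⟩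
noncomputable def b_VL_600_600_5_7 : St := ⟨true, nat_lit 1, nat_lit 0, nat_lit 1, nat_lit 40, nat_lit 240, nat_lit 260, nat_lit 240, nat_lit 260, nat_lit 16, nat_lit 80, nat_lit 20, nat_lit 40, nat_lit 160, nat_lit 180, nat_lit 0, nat_lit 288, nat_lit 0, nat_lit 20, nat_lit 0, nat_lit 0, nat_lit 0, nat_lit 800⟩
theorem d_VL_600_600_5_7 (h : EB TB.env) : Dead b_VL_600_600_5_7 := chkB_sound0 h (T :=
(.spl (nat_lit 0) (nat_lit 250)
(.ord (.spl (nat_lit 6) (nat_lit 8)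
(.spl (nat_lit 7) (nat_lit 600)
(.spl (nat_lit 2) (nat_lit 40)
(.spl (nat_lit 6) (nat_lit 4)
(.spl (nat_lit 0) (nat_lit 245)
(.ord (.leaf p032_l146))
(.spl (nat_lit 0) (nat_lit 248)
(.ord (.leaf p032_l147))
(.leaf p032_l148)))
(.leaf p032_l149))
(.spl (nat_lit 5) (nat_lit 160)
(.leaf p032_l150)
(.spl (nat_lit 6) (nat_lit 4)
(.leaf p032_l151)
(.spl (nat_lit 0) (nat_lit 245)
(.ord (.leaf p032_l152))
(.leaf p032_l153)))))
(.spl (nat_lit 0) (nat_lit 245)
(.ord (.leaf p032_l154))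
(.leaf p032_l155)))
(.leaf p032_l156)))
(.trZ (nat_lit 0) (nat_lit 100) (nat_lit 99) (nat_lit 45) (nat_lit 20) (.spl (nat_lit 7) (nat_lit 600)
(.spl (nat_lit 2) (nat_lit 40)
(.spl (nat_lit 5) (nat_lit 160)
(.leaf p032_l157)
(.spl (nat_lit 5) (nat_lit 240)
(.leaf p032_l158)
(.spl (nat_lit 6) (nat_lit 8)
(.spl (nat_lit 0) (nat_lit 255)
(.ord (.leaf p032_l159))
(.leaf p032_l160))
(.leaf p032_l161))))
(.spl (nat_lit 5) (nat_lit 160)
(.leaf p032_l162)
(.leaf p032_l163)))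
(.leaf p032_l164))))) (by decide +kernel)

end B2
end Pool.Agent.Lib.MP_6947cd_al
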