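import Pool.Agent.Lib.MP_6947cd_al.ZB.Pre

/-!
Problem MP_6947cd_al (Chollet).  Case B, second entry in [2/5, 17/20]: certificates of the tree, part P033 (generated).
-/

set_option autoImplicit false
set_option linter.all false

namespace Pool.Agent.Lib.MP_6947cd_al
namespace B2

open Ent Fr B1 PkA

noncomputable def p033_k0 : C1.Kn := ⟨[nat_lit 80, nat_lit 100, nat_lit 120], [nat_lit 0, nat_lit 0, nat_lit 511], [(nat_lit 0, nat_lit 0, nat_lit 0), (nat_lit 0, nat_lit 0, nat_lit 0), (nat_lit 1000, nat_lit 997, nat_lit 383)], (nat_lit 98, nat_lit 100, nat_lit 28)⟩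
noncomputable def p033_k1 : C1.Kn := ⟨[nat_lit 80, nat_lit 100], [nat_lit 0, nat_lit 0], [(nat_lit 0, nat_lit 0, nat_lit 0), (nat_lit 0, nat_lit 0, nat_lit 0)], (nat_lit 98, nat_lit 100, nat_lit 20)⟩
noncomputable def p033_k2 : C1.Kn := ⟨[nat_lit 80, nat_lit 100], [nat_lit 0, nat_lit 65], [(nat_lit 0, nat_lit 0, nat_lit 0), (nat_lit 1000, nat_lit 990, nat_lit 51)], (nat_lit 97, nat_lit 100, nat_lit 20)⟩
noncomputable def p033_k3 : C1.Kn := ⟨[nat_lit 80, nat_lit 100], [nat_lit 0, nat_lit 106], [(nat_lit 0, nat_lit 0, nat_lit 0), (nat_lit 1000, nat_lit 983, nat_lit 83)], (nat_lit 97, nat_lit 100, nat_lit 20)⟩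
noncomputable def p033_k4 : C1.Kn := ⟨[nat_lit 80, nat_lit 120], [nat_lit 0, nat_lit 0], [(nat_lit 0, nat_lit 0, nat_lit 0), (nat_lit 0, nat_lit 0, nat_lit 0)], (nat_lit 98, nat_lit 100, nat_lit 28)⟩
noncomputable def p033_k5 : C1.Kn := ⟨[nat_lit 80, nat_lit 120], [nat_lit 0, nat_lit 130], [(nat_lit 0, nat_lit 0, nat_lit 0), (nat_lit 1000, nat_lit 990, nat_lit 51)], (nat_lit 98, nat_lit 100, nat_lit 28)⟩
noncomputable def p033_k6 : C1.Kn := ⟨[nat_lit 80, nat_lit 120, nat_lit 140], [nat_lit 0, nat_lit 0, nat_lit 1164], [(nat_lit 0, nat_lit 0, nat_lit 0), (nat_lit 0, nat_lit 0, nat_lit 0), (nat_lit 941, nat_lit 1000, nat_lit 576)], (nat_lit 100, nat_lit 99, nat_lit 44)⟩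
noncomputable def p033_k7 : C1.Kn := ⟨[nat_lit 80, nat_lit 100, nat_lit 120], [nat_lit 0, nat_lit 132, nat_lit 640], [(nat_lit 0, nat_lit 0, nat_lit 0), (nat_lit 1000, nat_lit 979, nat_lit 103), (nat_lit 1000, nat_lit 979, nat_lit 397)], (nat_lit 99, nat_lit 100, nat_lit 44)⟩
noncomputable def p033_k8 : C1.Kn := ⟨[nat_lit 80, nat_lit 100, nat_lit 140], [nat_lit 0, nat_lit 0, nat_lit 1022], [(nat_lit 0, nat_lit 0, nat_lit 0), (nat_lit 0, nat_lit 0, nat_lit 0), (nat_lit 1000, nat_lit 1000, nat_lit 399)], (nat_lit 100, nat_lit 99, nat_lit 44)⟩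
noncomputable def p033_k9 : C1.Kn := ⟨[nat_lit 80, nat_lit 120, nat_lit 160], [nat_lit 0, nat_lit 0, nat_lit 2132], [(nat_lit 0, nat_lit 0, nat_lit 0), (nat_lit 0, nat_lit 0, nat_lit 0), (nat_lit 858, nat_lit 1000, nat_lit 713)], (nat_lit 100, nat_lit 92, nat_lit 61)⟩
noncomputable def p033_k10 : C1.Kn := ⟨[nat_lit 80, nat_lit 100, nat_lit 140], [nat_lit 0, nat_lit 132, nat_lit 1148], [(nat_lit 0, nat_lit 0, nat_lit 0), (nat_lit 1000, nat_lit 979, nat_lit 103), (nat_lit 1000, nat_lit 979, nat_lit 397)], (nat_lit 100, nat_lit 95, nat_lit 62)⟩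
noncomputable def p033_k11 : C1.Kn := ⟨[nat_lit 80, nat_lit 100, nat_lit 140], [nat_lit 0, nat_lit 65, nat_lit 1086], [(nat_lit 0, nat_lit 0, nat_lit 0), (nat_lit 1000, nat_lit 990, nat_lit 51), (nat_lit 1000, nat_lit 990, nat_lit 399)], (nat_lit 100, nat_lit 100, nat_lit 45)⟩
noncomputable def p033_k12 : C1.Kn := ⟨[nat_lit 80, nat_lit 120, nat_lit 140], [nat_lit 0, nat_lit 0, nat_lit 1164], [(nat_lit 0, nat_lit 0, nat_lit 0), (nat_lit 0, nat_lit 0, nat_lit 0), (nat_lit 941, nat_lit 1000, nat_lit 576)], (nat_lit 100, nat_lit 95, nat_lit 55)⟩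
noncomputable def p033_k13 : C1.Kn := ⟨[nat_lit 80, nat_lit 140], [nat_lit 0, nat_lit 395], [(nat_lit 0, nat_lit 0, nat_lit 0), (nat_lit 1000, nat_lit 979, nat_lit 103)], (nat_lit 100, nat_lit 95, nat_lit 62)⟩
noncomputable def p033_k14 : C1.Kn := ⟨[nat_lit 80, nat_lit 90, nat_lit 110, nat_lit 140], [nat_lit 0, nat_lit 66, nat_lit 324, nat_lit 1273], [(nat_lit 0, nat_lit 0, nat_lit 0), (nat_lit 1000, nat_lit 979, nat_lit 103), (nat_lit 1000, nat_lit 969, nat_lit 202), (nat_lit 1000, nat_lit 998, nat_lit 493)], (nat_lit 100, nat_lit 95, nat_lit 62)⟩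
noncomputable def p033_k15 : C1.Kn := ⟨[nat_lit 80, nat_lit 120], [nat_lit 0, nat_lit 0], [(nat_lit 0, nat_lit 0, nat_lit 0), (nat_lit 0, nat_lit 0, nat_lit 0)], (nat_lit 100, nat_lit 100, nat_lit 40)⟩
noncomputable def p033_k16 : C1.Kn := ⟨[nat_lit 80, nat_lit 120], [nat_lit 0, nat_lit 130], [(nat_lit 0, nat_lit 0, nat_lit 0), (nat_lit 1000, nat_lit 990, nat_lit 51)], (nat_lit 99, nat_lit 100, nat_lit 40)⟩
noncomputable def p033_k17 : C1.Kn := ⟨[nat_lit 80, nat_lit 100, nat_lit 140], [nat_lit 0, nat_lit 0, nat_lit 1022], [(nat_lit 0, nat_lit 0, nat_lit 0), (nat_lit 0, nat_lit 0, nat_lit 0), (nat_lit 1000, nat_lit 1000, nat_lit 399)], (nat_lit 100, nat_lit 95, nat_lit 55)⟩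
noncomputable def p033_k18 : C1.Kn := ⟨[nat_lit 80, nat_lit 120, nat_lit 140], [nat_lit 0, nat_lit 264, nat_lit 1360], [(nat_lit 0, nat_lit 0, nat_lit 0), (nat_lit 1000, nat_lit 979, nat_lit 103), (nat_lit 951, nat_lit 1000, nat_lit 628)], (nat_lit 100, nat_lit 95, nat_lit 62)⟩
noncomputable def p033_k19 : C1.Kn := ⟨[nat_lit 80, nat_lit 120, nat_lit 140], [nat_lit 0, nat_lit 395, nat_lit 1464], [(nat_lit 0, nat_lit 0, nat_lit 0), (nat_lit 1000, nat_lit 969, nat_lit 154), (nat_lit 957, nat_lit 1000, nat_lit 654)], (nat_lit 100, nat_lit 97, nat_lit 62)⟩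
noncomputable def p033_k20 : C1.Kn := ⟨[nat_lit 80, nat_lit 120], [nat_lit 0, nat_lit 264], [(nat_lit 0, nat_lit 0, nat_lit 0), (nat_lit 1000, nat_lit 979, nat_lit 103)], (nat_lit 99, nat_lit 100, nat_lit 44)⟩
noncomputable def p033_k21 : C1.Kn := ⟨[nat_lit 80, nat_lit 100, nat_lit 160], [nat_lit 0, nat_lit 0, nat_lit 1533], [(nat_lit 0, nat_lit 0, nat_lit 0), (nat_lit 0, nat_lit 0, nat_lit 0), (nat_lit 1000, nat_lit 1000, nat_lit 399)], (nat_lit 100, nat_lit 92, nat_lit 61)⟩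
noncomputable def p033_k22 : C1.Kn := ⟨[nat_lit 80, nat_lit 100], [nat_lit 0, nat_lit 265], [(nat_lit 0, nat_lit 0, nat_lit 0), (nat_lit 1000, nat_lit 959, nat_lit 206)], (nat_lit 95, nat_lit 100, nat_lit 28)⟩
noncomputable def p033_k23 : C1.Kn := ⟨[nat_lit 80, nat_lit 100, nat_lit 120], [nat_lit 0, nat_lit 265, nat_lit 768], [(nat_lit 0, nat_lit 0, nat_lit 0), (nat_lit 1000, nat_lit 959, nat_lit 206), (nat_lit 1000, nat_lit 958, nat_lit 392)], (nat_lit 96, nat_lit 100, nat_lit 44)⟩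
noncomputable def p033_k24 : C1.Kn := ⟨[nat_lit 80, nat_lit 100, nat_lit 120], [nat_lit 0, nat_lit 399, nat_lit 897], [(nat_lit 0, nat_lit 0, nat_lit 0), (nat_lit 1000, nat_lit 938, nat_lit 310), (nat_lit 1000, nat_lit 938, nat_lit 389)], (nat_lit 94, nat_lit 100, nat_lit 44)⟩
noncomputable def p033_k25 : C1.Kn := ⟨[nat_lit 80, nat_lit 100, nat_lit 140], [nat_lit 0, nat_lit 265, nat_lit 1269], [(nat_lit 0, nat_lit 0, nat_lit 0), (nat_lit 1000, nat_lit 959, nat_lit 206), (nat_lit 1000, nat_lit 958, nat_lit 392)], (nat_lit 100, nat_lit 99, nat_lit 63)⟩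
noncomputable def p033_k26 : C1.Kn := ⟨[nat_lit 80, nat_lit 140], [nat_lit 0, nat_lit 792], [(nat_lit 0, nat_lit 0, nat_lit 0), (nat_lit 1000, nat_lit 959, nat_lit 206)], (nat_lit 100, nat_lit 99, nat_lit 63)⟩
noncomputable def p033_k27 : C1.Kn := ⟨[nat_lit 80, nat_lit 140], [nat_lit 0, nat_lit 1192], [(nat_lit 0, nat_lit 0, nat_lit 0), (nat_lit 1000, nat_lit 938, nat_lit 310)], (nat_lit 98, nat_lit 100, nat_lit 63)⟩
noncomputable def p033_k28 : C1.Kn := ⟨[nat_lit 80, nat_lit 100, nat_lit 140], [nat_lit 0, nat_lit 399, nat_lit 1395], [(nat_lit 0, nat_lit 0, nat_lit 0), (nat_lit 1000, nat_lit 938, nat_lit 310), (nat_lit 1000, nat_lit 938, nat_lit 389)], (nat_lit 98, nat_lit 100, nat_lit 63)⟩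
noncomputable def p033_k29 : C1.Kn := ⟨[nat_lit 80, nat_lit 100, nat_lit 140], [nat_lit 0, nat_lit 466, nat_lit 1467], [(nat_lit 0, nat_lit 0, nat_lit 0), (nat_lit 1000, nat_lit 927, nat_lit 359), (nat_lit 1000, nat_lit 927, nat_lit 391)], (nat_lit 96, nat_lit 100, nat_lit 62)⟩
noncomputable def p033_k30 : C1.Kn := ⟨[nat_lit 80, nat_lit 120, nat_lit 140], [nat_lit 0, nat_lit 528, nat_lit 1572], [(nat_lit 0, nat_lit 0, nat_lit 0), (nat_lit 1000, nat_lit 959, nat_lit 206), (nat_lit 966, nat_lit 1000, nat_lit 679)], (nat_lit 100, nat_lit 99, nat_lit 63)⟩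
noncomputable def p033_k31 : C1.Kn := ⟨[nat_lit 80, nat_lit 100, nat_lit 140], [nat_lit 0, nat_lit 332, nat_lit 1333], [(nat_lit 0, nat_lit 0, nat_lit 0), (nat_lit 1000, nat_lit 948, nat_lit 259), (nat_lit 1000, nat_lit 948, nat_lit 391)], (nat_lit 99, nat_lit 100, nat_lit 63)⟩
noncomputable def p033_k32 : C1.Kn := ⟨[nat_lit 80, nat_lit 120, nat_lit 140], [nat_lit 0, nat_lit 664, nat_lit 1684], [(nat_lit 0, nat_lit 0, nat_lit 0), (nat_lit 1000, nat_lit 948, nat_lit 259), (nat_lit 975, nat_lit 1000, nat_lit 704)], (nat_lit 99, nat_lit 100, nat_lit 63)⟩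
noncomputable def p033_k33 : C1.Kn := ⟨[nat_lit 80, nat_lit 160], [nat_lit 0, nat_lit 0], [(nat_lit 0, nat_lit 0, nat_lit 0), (nat_lit 0, nat_lit 0, nat_lit 0)], (nat_lit 100, nat_lit 92, nat_lit 61)⟩
noncomputable def p033_k34 : C1.Kn := ⟨[nat_lit 80, nat_lit 120], [nat_lit 0, nat_lit 796], [(nat_lit 0, nat_lit 0, nat_lit 0), (nat_lit 1000, nat_lit 938, nat_lit 310)], (nat_lit 94, nat_lit 100, nat_lit 44)⟩
noncomputable def p033_k35 : C1.Kn := ⟨[nat_lit 80, nat_lit 120], [nat_lit 0, nat_lit 929], [(nat_lit 0, nat_lit 0, nat_lit 0), (nat_lit 1000, nat_lit 927, nat_lit 362)], (nat_lit 93, nat_lit 100, nat_lit 44)⟩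
noncomputable def p033_k36 : C1.Kn := ⟨[nat_lit 80, nat_lit 140], [nat_lit 0, nat_lit 0], [(nat_lit 0, nat_lit 0, nat_lit 0), (nat_lit 0, nat_lit 0, nat_lit 0)], (nat_lit 100, nat_lit 99, nat_lit 44)⟩
noncomputable def p033_k37 : C1.Kn := ⟨[nat_lit 80, nat_lit 120], [nat_lit 0, nat_lit 1008], [(nat_lit 0, nat_lit 0, nat_lit 0), (nat_lit 1000, nat_lit 921, nat_lit 392)], (nat_lit 92, nat_lit 100, nat_lit 44)⟩
noncomputable def p033_k38 : C1.Kn := ⟨[nat_lit 80, nat_lit 120, nat_lit 140], [nat_lit 0, nat_lit 796, nat_lit 1801], [(nat_lit 0, nat_lit 0, nat_lit 0), (nat_lit 1000, nat_lit 938, nat_lit 310), (nat_lit 982, nat_lit 1000, nat_lit 736)], (nat_lit 98, nat_lit 100, nat_lit 63)⟩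
noncomputable def p033_k39 : C1.Kn := ⟨[nat_lit 80, nat_lit 120, nat_lit 140], [nat_lit 0, nat_lit 130, nat_lit 1260], [(nat_lit 0, nat_lit 0, nat_lit 0), (nat_lit 1000, nat_lit 990, nat_lit 51), (nat_lit 946, nat_lit 1000, nat_lit 600)], (nat_lit 100, nat_lit 97, nat_lit 56)⟩
noncomputable def p033_l0 : Lf2 := ⟨nat_lit 0, nat_lit 2, [nat_lit 10, nat_lit 5, nat_lit 5, nat_lit 20], false, nat_lit 180, nat_lit 200, nat_lit 0, nat_lit 160, ⟨nat_lit 1000, nat_lit 0, nat_lit 0, nat_lit 0, nat_lit 0, nat_lit 0, nat_lit 0, nat_lit 0, nat_lit 0, nat_lit 0, nat_lit 0, nat_lit 0, nat_lit 0, nat_lit 0, nat_lit 0, nat_lit 0, false, false⟩,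
 nat_lit 0, nat_lit 15040, nat_lit 0, nat_lit 0, nat_lit 7962, nat_lit 8525, nat_lit 0, nat_lit 0, nat_lit 0, nat_lit 3412, nat_lit 0, nat_lit 0, nat_lit 0, nat_lit 42570463126719, nat_lit 0, nat_lit 0, nat_lit 0, nat_lit 0, [],
 ⟨p033_k0, nat_lit 0, nat_lit 0, nat_lit 192, nat_lit 0, nat_lit 271617, [nat_lit 4688000000, nat_lit 6250000000, nat_lit 7968000000], [], [nat_lit 27230786963, nat_lit 25184910855, nat_lit 21396622910, nat_lit 21915647891, nat_lit 24354673012, nat_lit 24882788032, nat_lit 21993992236, nat_lit 22489156479], nat_lit 1271250, nat_lit 1271250, nat_lit 88400, nat_lit 490000, nat_lit 1271250, nat_lit 1271250, [nat_lit 1100000, nat_lit 1442500, nat_lit 1271250], [nat_lit 9, nat_lit 40, nat_lit 20, nat_lit 80, nat_lit 2, nat_lit 289, nat_lit 75, nat_lit 9]⟩, ⟨p033_k0, nat_lit 0, nat_lit 0, nat_lit 0, nat_lit 0, nat_lit 0, [nat_lit 4688000000, nat_lit 6250000000, nat_lit 7968000000], [], [nat_lit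 18353138360, nat_lit 19813903600, nat_lit 14340222400, nat_lit 15367919625, nat_lit 13665265721, nat_lit 14560816090, nat_lit 11017658700, nat_lit 11859200000], nat_lit 0, nat_lit 0, nat_lit 0, nat_lit 0, nat_lit 0, nat_lit 0, [], [nat_lit 9, nat_lit 40, nat_lit 20, nat_lit 80]⟩,
 zbF0, [⟨nat_lit 0, nat_lit 100, nat_lit 100, nat_lit 40, nat_lit 1138755967⟩]⟩
noncomputable def p033_l1 : Lf2 := ⟨nat_lit 0, nat_lit 1, [nat_lit 19, nat_lit 5, nat_lit 5, nat_lit 20], true, nat_lit 180, nat_lit 200, nat_lit 160, nat_lit 288, ⟨nat_lit 0, nat_lit 0, nat_lit 1000, nat_lit 6, nat_lit 77, nat_lit 1000, nat_lit 119, nat_lit 1000, nat_lit 132017, nat_lit 304, nat_lit 56067, nat_lit 273, nat_lit 58142864, nat_lit 0, nat_lit 0, nat_lit 2511400, false, false⟩,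
 nat_lit 0, nat_lit 8794, nat_lit 0, nat_lit 0, nat_lit 4655, nat_lit 0, nat_lit 0, nat_lit 0, nat_lit 0, nat_lit 0, nat_lit 0, nat_lit 0, nat_lit 0, nat_lit 24411426598970, nat_lit 10, nat_lit 1000000, nat_lit 0, nat_lit 0, [(nat_lit 6, [(nat_lit 6, nat_lit 1000)])],
 ⟨p033_k1, nat_lit 0, nat_lit 0, nat_lit 0, nat_lit 0, nat_lit 220380, [nat_lit 1137066667, nat_lit 8000000], [], [nat_lit 11682349773, nat_lit 11641939734, nat_lit 12004439822, nat_lit 11411666304, nat_lit 12160880381, nat_lit 12454816789, nat_lit 11490665187, nat_lit 11780135216], nat_lit 1271250, nat_lit 1271250, nat_lit 88400, nat_lit 230001, nat_lit 1271250, nat_lit 1271250, [nat_lit 1100000, nat_lit 1442500], [nat_lit 31, nat_lit 40, nat_lit 20, nat_lit 80]⟩, C1.Rw.none,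
 ⟨nat_lit 6224, nat_lit 6325, ⟨.ofNat (nat_lit 164319), .ofNat (nat_lit 213677), .ofNat (nat_lit 169661), .ofNat (nat_lit 219019), .ofNat (nat_lit 168651), .ofNat (nat_lit 217441), .ofNat (nat_lit 173990), .ofNat (nat_lit 222780)⟩, ⟨.ofNat (nat_lit 266555), .ofNat (nat_lit 307688), .ofNat (nat_lit 287923), .ofNat (nat_lit 329055), .ofNat (nat_lit 267130), .ofNat (nat_lit 307788), .ofNat (nat_lit 288486), .ofNat (nat_lit 329145)⟩⟩, [⟨nat_lit 0, nat_lit 100, nat_lit 100, nat_lit 45, nat_lit 238306142⟩]⟩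
noncomputable def p033_l2 : Lf2 := ⟨nat_lit 0, nat_lit 1, [nat_lit 19, nat_lit 5, nat_lit 5, nat_lit 20], true, nat_lit 180, nat_lit 200, nat_lit 160, nat_lit 288, ⟨nat_lit 0, nat_lit 0, nat_lit 1000, nat_lit 6, nat_lit 79, nat_lit 1000, nat_lit 119, nat_lit 1000, nat_lit 132017, nat_lit 304, nat_lit 60000, nat_lit 275, nat_lit 58006337, nat_lit 0, nat_lit 0, nat_lit 2543558, false, false⟩,
 nat_lit 0, nat_lit 8285, nat_lit 0, nat_lit 0, nat_lit 4493, nat_lit 0, nat_lit 1081, nat_lit 0, nat_lit 0, nat_lit 0, nat_lit 0, nat_lit 0, nat_lit 0, nat_lit 22935536859294, nat_lit 10, nat_lit 1000000, nat_lit 0, nat_lit 0, [(nat_lit 6, [(nat_lit 6, nat_lit 1000)])],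
 ⟨p033_k2, nat_lit 0, nat_lit 0, nat_lit 0, nat_lit 0, nat_lit 241963, [nat_lit 1137066667, nat_lit 8000000], [], [nat_lit 11701306165, nat_lit 11881960641, nat_lit 11495326299, nat_lit 11249957975, nat_lit 12505590121, nat_lit 12679091850, nat_lit 11867803497, nat_lit 12038682922], nat_lit 1271250, nat_lit 1271250, nat_lit 88400, nat_lit 230001, nat_lit 1271250, nat_lit 1271250, [nat_lit 1100000, nat_lit 1442500], [nat_lit 31, nat_lit 40, nat_lit 20, nat_lit 80]⟩, C1.Rw.none,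
 ⟨nat_lit 6164, nat_lit 6225, ⟨.ofNat (nat_lit 168651), .ofNat (nat_lit 217441), .ofNat (nat_lit 177193), .ofNat (nat_lit 225984), .ofNat (nat_lit 171231), .ofNat (nat_lit 219683), .ofNat (nat_lit 179771), .ofNat (nat_lit 228224)⟩, ⟨.ofNat (nat_lit 267130), .ofNat (nat_lit 307788), .ofNat (nat_lit 288486), .ofNat (nat_lit 329145), .ofNat (nat_lit 267460), .ofNat (nat_lit 307838), .ofNat (nat_lit 288812), .ofNat (nat_lit 329189)⟩⟩, [⟨nat_lit 0, nat_lit 100, nat_lit 100, nat_lit 48, nat_lit 244409386⟩]⟩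
noncomputable def p033_l3 : Lf2 := ⟨nat_lit 0, nat_lit 1, [nat_lit 19, nat_lit 5, nat_lit 5, nat_lit 20], true, nat_lit 180, nat_lit 200, nat_lit 160, nat_lit 288, ⟨nat_lit 0, nat_lit 0, nat_lit 1000, nat_lit 6, nat_lit 81, nat_lit 1000, nat_lit 119, nat_lit 1000, nat_lit 135000, nat_lit 305, nat_lit 60000, nat_lit 275, nat_lit 57919108, nat_lit 0, nat_lit 0, nat_lit 2563907, false, false⟩,
 nat_lit 0, nat_lit 8110, nat_lit 0, nat_lit 0, nat_lit 4462, nat_lit 0, nat_lit 1026, nat_lit 0, nat_lit 0, nat_lit 0, nat_lit 0, nat_lit 0, nat_lit 0, nat_lit 22362871434670, nat_lit 10, nat_lit 1000000, nat_lit 0, nat_lit 0, [(nat_lit 6, [(nat_lit 6, nat_lit 1000)])],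
 ⟨p033_k3, nat_lit 0, nat_lit 0, nat_lit 0, nat_lit 0, nat_lit 255951, [nat_lit 1137066667, nat_lit 8000000], [], [nat_lit 11854630116, nat_lit 11984218102, nat_lit 11241620351, nat_lit 11369182523, nat_lit 12719484203, nat_lit 12843894899, nat_lit 12097158631, nat_lit 12219651599], nat_lit 1271250, nat_lit 1271250, nat_lit 88400, nat_lit 230001, nat_lit 1271250, nat_lit 1271250, [nat_lit 1100000, nat_lit 1442500], [nat_lit 31, nat_lit 40, nat_lit 20, nat_lit 80]⟩, C1.Rw.none,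
 ⟨nat_lit 6123, nat_lit 6165, ⟨.ofNat (nat_lit 171231), .ofNat (nat_lit 219683), .ofNat (nat_lit 181906), .ofNat (nat_lit 230359), .ofNat (nat_lit 172944), .ofNat (nat_lit 221172), .ofNat (nat_lit 183618), .ofNat (nat_lit 231846)⟩, ⟨.ofNat (nat_lit 267460), .ofNat (nat_lit 307838), .ofNat (nat_lit 288812), .ofNat (nat_lit 329189), .ofNat (nat_lit 267675), .ofNat (nat_lit 307865), .ofNat (nat_lit 289023), .ofNat (nat_lit 329214)⟩⟩, [⟨nat_lit 0, nat_lit 100, nat_lit 100, nat_lit 50, nat_lit 240768860⟩]⟩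
noncomputable def p033_l4 : Lf2 := ⟨nat_lit 0, nat_lit 2, [nat_lit 10, nat_lit 5, nat_lit 5, nat_lit 20], true, nat_lit 180, nat_lit 200, nat_lit 160, nat_lit 288, ⟨nat_lit 0, nat_lit 0, nat_lit 1000, nat_lit 6, nat_lit 79, nat_lit 1000, nat_lit 119, nat_lit 1000, nat_lit 132017, nat_lit 304, nat_lit 60000, nat_lit 275, nat_lit 58014003, nat_lit 0, nat_lit 0, nat_lit 2541931, false, false⟩,
 nat_lit 0, nat_lit 9417, nat_lit 0, nat_lit 0, nat_lit 4985, nat_lit 0, nat_lit 0, nat_lit 0, nat_lit 0, nat_lit 0, nat_lit 0, nat_lit 0, nat_lit 0, nat_lit 26830415961344, nat_lit 80, nat_lit 1000000, nat_lit 0, nat_lit 0, [(nat_lit 6, [(nat_lit 6, nat_lit 1000)])],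
 ⟨p033_k4, nat_lit 0, nat_lit 0, nat_lit 0, nat_lit 0, nat_lit 221692, [nat_lit 2814000001, nat_lit 141466667], [], [nat_lit 13170151193, nat_lit 12271538129, nat_lit 13520236103, nat_lit 12269054692, nat_lit 12451246173, nat_lit 13066014716, nat_lit 11682259518, nat_lit 12322510890], nat_lit 1271250, nat_lit 1271250, nat_lit 88400, nat_lit 230001, nat_lit 1271250, nat_lit 1271250, [nat_lit 1100000, nat_lit 1785000], [nat_lit 39, nat_lit 40, nat_lit 20, nat_lit 80]⟩, C1.Rw.none,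
 ⟨nat_lit 6123, nat_lit 6325, ⟨.ofNat (nat_lit 164319), .ofNat (nat_lit 213677), .ofNat (nat_lit 175003), .ofNat (nat_lit 224361), .ofNat (nat_lit 172944), .ofNat (nat_lit 221172), .ofNat (nat_lit 183618), .ofNat (nat_lit 231846)⟩, ⟨.ofNat (nat_lit 266555), .ofNat (nat_lit 307688), .ofNat (nat_lit 287923), .ofNat (nat_lit 329055), .ofNat (nat_lit 267675), .ofNat (nat_lit 307865), .ofNat (nat_lit 289023), .ofNat (nat_lit 329214)⟩⟩, [⟨nat_lit 0, nat_lit 100, nat_lit 100, nat_lit 45, nat_lit 184479483⟩]⟩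
noncomputable def p033_l5 : Lf2 := ⟨nat_lit 0, nat_lit 1, [nat_lit 19, nat_lit 5, nat_lit 5, nat_lit 20], true, nat_lit 180, nat_lit 200, nat_lit 160, nat_lit 288, ⟨nat_lit 0, nat_lit 0, nat_lit 1000, nat_lit 6, nat_lit 105, nat_lit 1000, nat_lit 119, nat_lit 1000, nat_lit 132017, nat_lit 304, nat_lit 104017, nat_lit 294, nat_lit 56158023, nat_lit 0, nat_lit 0, nat_lit 2944532, false, false⟩,
 nat_lit 0, nat_lit 9175, nat_lit 0, nat_lit 0, nat_lit 4857, nat_lit 0, nat_lit 0, nat_lit 0, nat_lit 0, nat_lit 0, nat_lit 0, nat_lit 0, nat_lit 0, nat_lit 10980807660457, nat_lit 10, nat_lit 1000000, nat_lit 0, nat_lit 0, [(nat_lit 6, [(nat_lit 6, nat_lit 1000)])],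
 ⟨p033_k1, nat_lit 0, nat_lit 0, nat_lit 0, nat_lit 0, nat_lit 267305, [nat_lit 1137066667, nat_lit 8000000], [], [nat_lit 11652051024, nat_lit 10889936361, nat_lit 12795335986, nat_lit 11576281199, nat_lit 11101731155, nat_lit 11692319846, nat_lit 10748159875, nat_lit 11315716539], nat_lit 1271250, nat_lit 1271250, nat_lit 230001, nat_lit 490000, nat_lit 1271250, nat_lit 1271250, [nat_lit 1100000, nat_lit 1442500], [nat_lit 31, nat_lit 40, nat_lit 20, nat_lit 80]⟩, C1.Rw.none,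
 ⟨nat_lit 6123, nat_lit 6325, ⟨.ofNat (nat_lit 213677), .ofNat (nat_lit 295942), .ofNat (nat_lit 224361), .ofNat (nat_lit 306625), .ofNat (nat_lit 221172), .ofNat (nat_lit 301553), .ofNat (nat_lit 231846), .ofNat (nat_lit 312227)⟩, ⟨.ofNat (nat_lit 266555), .ofNat (nat_lit 307688), .ofNat (nat_lit 287923), .ofNat (nat_lit 329055), .ofNat (nat_lit 267675), .ofNat (nat_lit 307865), .ofNat (nat_lit 289023), .ofNat (nat_lit 329214)⟩⟩, []⟩
noncomputable def p033_l6 : Lf2 := ⟨nat_lit 0, nat_lit 2, [nat_lit 10, nat_lit 5, nat_lit 5, nat_lit 20], true, nat_lit 180, nat_lit 200, nat_lit 160, nat_lit 288, ⟨nat_lit 0, nat_lit 0, nat_lit 1000, nat_lit 6, nat_lit 104, nat_lit 1000, nat_lit 119, nat_lit 1000, nat_lit 132017, nat_lit 304, nat_lit 101400, nat_lit 293, nat_lit 56292759, nat_lit 0, nat_lit 0, nat_lit 2917720, false, false⟩,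
 nat_lit 0, nat_lit 9232, nat_lit 0, nat_lit 0, nat_lit 4887, nat_lit 0, nat_lit 0, nat_lit 0, nat_lit 0, nat_lit 0, nat_lit 0, nat_lit 0, nat_lit 0, nat_lit 0, nat_lit 41, nat_lit 400000, nat_lit 0, nat_lit 0, [(nat_lit 6, [(nat_lit 5, nat_lit 1000)])],
 ⟨p033_k4, nat_lit 0, nat_lit 0, nat_lit 0, nat_lit 0, nat_lit 173832, [nat_lit 2073600001, nat_lit 7600000], [], [nat_lit 9799398013, nat_lit 10197729864, nat_lit 9376362237, nat_lit 9759893982, nat_lit 10860043421, nat_lit 11241665789, nat_lit 10405724373, nat_lit 10773264470], nat_lit 1271250, nat_lit 1271250, nat_lit 230001, nat_lit 490000, nat_lit 1271250, nat_lit 1271250, [nat_lit 1100000, nat_lit 1785000], [nat_lit 39, nat_lit 40, nat_lit 20, nat_lit 80]⟩, C1.Rw.none,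
 ⟨nat_lit 6224, nat_lit 6325, ⟨.ofNat (nat_lit 213677), .ofNat (nat_lit 295942), .ofNat (nat_lit 219019), .ofNat (nat_lit 301284), .ofNat (nat_lit 217441), .ofNat (nat_lit 298759), .ofNat (nat_lit 222780), .ofNat (nat_lit 304098)⟩, ⟨.ofNat (nat_lit 266555), .ofNat (nat_lit 307688), .ofNat (nat_lit 287923), .ofNat (nat_lit 329055), .ofNat (nat_lit 267130), .ofNat (nat_lit 307788), .ofNat (nat_lit 288486), .ofNat (nat_lit 329145)⟩⟩, []⟩
noncomputable def p033_l7 : Lf2 := ⟨nat_lit 0, nat_lit 2, [nat_lit 10, nat_lit 5, nat_lit 5, nat_lit 20], true, nat_lit 180, nat_lit 200, nat_lit 160, nat_lit 288, ⟨nat_lit 0, nat_lit 0, nat_lit 1000, nat_lit 6, nat_lit 106, nat_lit 1000, nat_lit 119, nat_lit 1000, nat_lit 132017, nat_lit 304, nat_lit 106667, nat_lit 295, nat_lit 56102801, nat_lit 0, nat_lit 0, nat_lit 2955378, false, false⟩,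
 nat_lit 0, nat_lit 10517, nat_lit 0, nat_lit 0, nat_lit 5704, nat_lit 0, nat_lit 0, nat_lit 0, nat_lit 0, nat_lit 0, nat_lit 0, nat_lit 0, nat_lit 0, nat_lit 27801950044011, nat_lit 80, nat_lit 1000000, nat_lit 0, nat_lit 0, [(nat_lit 6, [(nat_lit 6, nat_lit 1000)])],
 ⟨p033_k5, nat_lit 0, nat_lit 0, nat_lit 0, nat_lit 0, nat_lit 215677, [nat_lit 2814000001, nat_lit 141466667], [], [nat_lit 11802683111, nat_lit 11086861770, nat_lit 13058476404, nat_lit 12352885900, nat_lit 11161797815, nat_lit 11640250872, nat_lit 10355821339, nat_lit 10689936267], nat_lit 1271250, nat_lit 1271250, nat_lit 230001, nat_lit 490000, nat_lit 1271250, nat_lit 1271250, [nat_lit 1100000, nat_lit 1785000], [nat_lit 39, nat_lit 40, nat_lit 20, nat_lit 80]⟩, C1.Rw.none,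
 ⟨nat_lit 6123, nat_lit 6225, ⟨.ofNat (nat_lit 217441), .ofNat (nat_lit 298759), .ofNat (nat_lit 228119), .ofNat (nat_lit 309437), .ofNat (nat_lit 221172), .ofNat (nat_lit 301553), .ofNat (nat_lit 231846), .ofNat (nat_lit 312227)⟩, ⟨.ofNat (nat_lit 267130), .ofNat (nat_lit 307788), .ofNat (nat_lit 288486), .ofNat (nat_lit 329145), .ofNat (nat_lit 267675), .ofNat (nat_lit 307865), .ofNat (nat_lit 289023), .ofNat (nat_lit 329214)⟩⟩, []⟩
noncomputable def p033_l8 : Lf2 := ⟨nat_lit 0, nat_lit 2, [nat_lit 10, nat_lit 5, nat_lit 5, nat_lit 20], true, nat_lit 180, nat_lit 200, nat_lit 160, nat_lit 288, ⟨nat_lit 0, nat_lit 0, nat_lit 1000, nat_lit 6, nat_lit 96, nat_lit 1000, nat_lit 119, nat_lit 1000, nat_lit 132017, nat_lit 304, nat_lit 86400, nat_lit 287, nat_lit 56881567, nat_lit 0, nat_lit 0, nat_lit 2796047, false, false⟩,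
 nat_lit 0, nat_lit 477701, nat_lit 0, nat_lit 0, nat_lit 252900, nat_lit 0, nat_lit 60000, nat_lit 19765, nat_lit 0, nat_lit 0, nat_lit 0, nat_lit 0, nat_lit 0, nat_lit 400000000000000, nat_lit 0, nat_lit 1000000, nat_lit 0, nat_lit 0, [(nat_lit 6, [(nat_lit 6, nat_lit 1000)])],
 ⟨p033_k0, nat_lit 0, nat_lit 0, nat_lit 192, nat_lit 0, nat_lit 271617, [nat_lit 317217066667, nat_lit 395108000001, nat_lit 472651199999], [], [nat_lit 614571095748, nat_lit 549587163603, nat_lit 396656286167, nat_lit 405048904392, nat_lit 508678124467, nat_lit 517234278387, nat_lit 400957852867, nat_lit 408715799619], nat_lit 1271250, nat_lit 1271250, nat_lit 88400, nat_lit 490000, nat_lit 1271250, nat_lit 1271250, [nat_lit 1100000, nat_lit 1442500, nat_lit 1271250], [nat_lit 9, nat_lit 40, nat_lit 20, nat_lit 80, nat_lit 2, nat_lit 289, nat_lit 75, nat_lit 9]⟩, C1.Rw.none,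
 ⟨nat_lit 6123, nat_lit 6325, ⟨.ofNat (nat_lit 164319), .ofNat (nat_lit 295942), .ofNat (nat_lit 175003), .ofNat (nat_lit 306625), .ofNat (nat_lit 172944), .ofNat (nat_lit 301553), .ofNat (nat_lit 183618), .ofNat (nat_lit 312227)⟩, ⟨.ofNat (nat_lit 266555), .ofNat (nat_lit 307688), .ofNat (nat_lit 287923), .ofNat (nat_lit 329055), .ofNat (nat_lit 267675), .ofNat (nat_lit 307865), .ofNat (nat_lit 289023), .ofNat (nat_lit 329214)⟩⟩, [⟨nat_lit 0, nat_lit 100, nat_lit 100, nat_lit 45, nat_lit 8591896341⟩]⟩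
noncomputable def p033_l9 : Lf2 := ⟨nat_lit 0, nat_lit 5, [nat_lit 4, nat_lit 5, nat_lit 5, nat_lit 20], true, nat_lit 180, nat_lit 200, nat_lit 0, nat_lit 288, ⟨nat_lit 0, nat_lit 0, nat_lit 1000, nat_lit 6, nat_lit 96, nat_lit 1000, nat_lit 119, nat_lit 1000, nat_lit 132017, nat_lit 304, nat_lit 86400, nat_lit 287, nat_lit 56881567, nat_lit 0, nat_lit 0, nat_lit 2796047, false, false⟩,
 nat_lit 0, nat_lit 9417, nat_lit 0, nat_lit 0, nat_lit 4985, nat_lit 0, nat_lit 61, nat_lit 0, nat_lit 0, nat_lit 0, nat_lit 0, nat_lit 0, nat_lit 0, nat_lit 27173151255736, nat_lit 147, nat_lit 1000000, nat_lit 0, nat_lit 0, [(nat_lit 6, [(nat_lit 6, nat_lit 1000)])],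
 ⟨p033_k6, nat_lit 0, nat_lit 0, nat_lit 199, nat_lit 0, nat_lit 189636, [nat_lit 3886000001, nat_lit 1749466667, nat_lit 7200000], [], [nat_lit 13170151193, nat_lit 12322475781, nat_lit 14739886518, nat_lit 13506587548, nat_lit 12481248815, nat_lit 13067432594, nat_lit 12273537828, nat_lit 11962412780], nat_lit 1271250, nat_lit 1271250, nat_lit 88400, nat_lit 490000, nat_lit 1271250, nat_lit 1271250, [nat_lit 1100000, nat_lit 1785000, nat_lit 1271250], [nat_lit 29, nat_lit 40, nat_lit 20, nat_lit 80, nat_lit 17, nat_lit 373, nat_lit 150, nat_lit 11]⟩, C1.Rw.none,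
 ⟨nat_lit 6123, nat_lit 6325, ⟨.ofNat (nat_lit 164319), .ofNat (nat_lit 295942), .ofNat (nat_lit 175003), .ofNat (nat_lit 306625), .ofNat (nat_lit 172944), .ofNat (nat_lit 301553), .ofNat (nat_lit 183618), .ofNat (nat_lit 312227)⟩, ⟨.ofNat (nat_lit 266555), .ofNat (nat_lit 307688), .ofNat (nat_lit 287923), .ofNat (nat_lit 329055), .ofNat (nat_lit 267675), .ofNat (nat_lit 307865), .ofNat (nat_lit 289023), .ofNat (nat_lit 329214)⟩⟩, [⟨nat_lit 0, nat_lit 100, nat_lit 100, nat_lit 50, nat_lit 62235566⟩]⟩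
noncomputable def p033_l10 : Lf2 := ⟨nat_lit 0, nat_lit 5, [nat_lit 4, nat_lit 5, nat_lit 5, nat_lit 20], false, nat_lit 180, nat_lit 200, nat_lit 0, nat_lit 160, ⟨nat_lit 1000, nat_lit 0, nat_lit 0, nat_lit 0, nat_lit 0, nat_lit 0, nat_lit 0, nat_lit 0, nat_lit 0, nat_lit 0, nat_lit 0, nat_lit 0, nat_lit 0, nat_lit 0, nat_lit 0, nat_lit 0, false, false⟩,
 nat_lit 0, nat_lit 20475, nat_lit 0, nat_lit 0, nat_lit 11375, nat_lit 8329, nat_lit 717, nat_lit 0, nat_lit 0, nat_lit 3522, nat_lit 0, nat_lit 0, nat_lit 0, nat_lit 9559875009493, nat_lit 0, nat_lit 0, nat_lit 0, nat_lit 0, [],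
 ⟨p033_k7, nat_lit 0, nat_lit 0, nat_lit 247, nat_lit 0, nat_lit 365315, [nat_lit 4688000000, nat_lit 6250000000, nat_lit 7968000000], [], [nat_lit 21247045500, nat_lit 18328539000, nat_lit 12270915375, nat_lit 13057181375, nat_lit 17269004625, nat_lit 18339684250, nat_lit 13079159625, nat_lit 13825705500], nat_lit 1271250, nat_lit 1271250, nat_lit 111251, nat_lit 490000, nat_lit 1271250, nat_lit 1271250, [nat_lit 1100000, nat_lit 1442500, nat_lit 1271250], [nat_lit 9, nat_lit 40, nat_lit 20, nat_lit 80, nat_lit 2, nat_lit 289, nat_lit 75, nat_lit 9]⟩, ⟨p033_k8, nat_lit 0, nat_lit 0, nat_lit 0, nat_lit 0, nat_lit 0, [nat_lit 4688000000, nat_lit 6250000000, nat_lit 9842000000], [], [nat_lit 18328231792, nat_lit 20317032464, nat_lit 14628307904, nat_lit 16652456426, nat_lit 13642065472, nat_lit 15404416288, nat_lit 11460519132, nat_lit 13119371428], nat_lit 0, nat_lit 0, nat_lit 0, nat_lit 0, nat_lit 0, nat_lit 0,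 [], [nat_lit 11, nat_lit 40, nat_lit 20, nat_lit 80]⟩,
 zbF0, [⟨nat_lit 0, nat_lit 100, nat_lit 99, nat_lit 52, nat_lit 1467477814⟩]⟩
noncomputable def p033_l11 : Lf2 := ⟨nat_lit 0, nat_lit 5, [nat_lit 4, nat_lit 5, nat_lit 5, nat_lit 20], false, nat_lit 180, nat_lit 200, nat_lit 160, nat_lit 288, ⟨nat_lit 1000, nat_lit 0, nat_lit 0, nat_lit 0, nat_lit 0, nat_lit 0, nat_lit 0, nat_lit 0, nat_lit 0, nat_lit 0, nat_lit 0, nat_lit 0, nat_lit 0, nat_lit 0, nat_lit 0, nat_lit 0, false, false⟩,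
 nat_lit 0, nat_lit 24841, nat_lit 0, nat_lit 0, nat_lit 13800, nat_lit 6726, nat_lit 5215, nat_lit 0, nat_lit 0, nat_lit 0, nat_lit 0, nat_lit 0, nat_lit 0, nat_lit 0, nat_lit 0, nat_lit 0, nat_lit 0, nat_lit 0, [],
 ⟨p033_k7, nat_lit 0, nat_lit 0, nat_lit 247, nat_lit 0, nat_lit 365315, [nat_lit 4688000000, nat_lit 6250000000, nat_lit 7968000000], [], [nat_lit 17388686900, nat_lit 14298112000, nat_lit 5384254700, nat_lit 7229696000, nat_lit 14404142400, nat_lit 16236599600, nat_lit 7391643600, nat_lit 9143342000], nat_lit 1271250, nat_lit 1271250, nat_lit 111251, nat_lit 490000, nat_lit 1271250, nat_lit 1271250, [nat_lit 1100000, nat_lit 1442500, nat_lit 1271250], [nat_lit 9, nat_lit 40, nat_lit 20, nat_lit 80, nat_lit 2, nat_lit 289, nat_lit 75, nat_lit 9]⟩, ⟨p033_k8, nat_lit 0, nat_lit 0, nat_lit 0, nat_lit 0, nat_lit 0, [nat_lit 4688000000, nat_lit 6250000000, nat_lit 9842000000], [], [nat_lit 10575490224, nat_lit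 12607429328, nat_lit 8686585800, nat_lit 10613525668, nat_lit 19788570762, nat_lit 21477709173, nat_lit 17491916712, nat_lit 18867537835], nat_lit 0, nat_lit 0, nat_lit 0, nat_lit 0, nat_lit 0, nat_lit 0, [], [nat_lit 11, nat_lit 40, nat_lit 20, nat_lit 80]⟩,
 zbF0, [⟨nat_lit 0, nat_lit 100, nat_lit 99, nat_lit 45, nat_lit 1493599656⟩, ⟨nat_lit 7, nat_lit 99, nat_lit 100, nat_lit 54, nat_lit 1067774765⟩]⟩
noncomputable def b_VL_600_600_5_8 : St := ⟨true, nat_lit 1, nat_lit 0, nat_lit 1, nat_lit 40, nat_lit 240, nat_lit 260, nat_lit 240, nat_lit 260, nat_lit 16, nat_lit 80, nat_lit 20, nat_lit 40, nat_lit 180, nat_lit 200, nat_lit 0, nat_lit 288, nat_lit 0, nat_lit 20, nat_lit 0, nat_lit 0, nat_lit 0, nat_lit 800⟩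
theorem d_VL_600_600_5_8 (h : EB TB.env) : Dead b_VL_600_600_5_8 := chkB_sound0 h (T :=
(.spl (nat_lit 0) (nat_lit 250)
(.ord (.spl (nat_lit 6) (nat_lit 8)
(.spl (nat_lit 5) (nat_lit 160)
(.leaf p033_l0)
(.spl (nat_lit 7) (nat_lit 600)
(.spl (nat_lit 2) (nat_lit 40)
(.spl (nat_lit 6) (nat_lit 4)
(.spl (nat_lit 0) (nat_lit 245)
(.ord (.leaf p033_l1))
(.spl (nat_lit 0) (nat_lit 248)
(.ord (.leaf p033_l2))
(.leaf p033_l3)))
(.leaf p033_l4))
(.spl (nat_lit 6) (nat_lit 4)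
(.leaf p033_l5)
(.spl (nat_lit 0) (nat_lit 245)
(.ord (.leaf p033_l6))
(.leaf p033_l7))))
(.leaf p033_l8)))
(.leaf p033_l9)))
(.trZ (nat_lit 0) (nat_lit 100) (nat_lit 99) (nat_lit 45) (nat_lit 20) (.spl (nat_lit 5) (nat_lit 160)
(.leaf p033_l10)
(.leaf p033_l11))))) (by decide +kernel)
noncomputable def p033_l12 : Lf2 := ⟨nat_lit 0, nat_lit 10, [nat_lit 0, nat_lit 5, nat_lit 5, nat_lit 20], true, nat_lit 160, nat_lit 200, nat_lit 0, nat_lit 288, ⟨nat_lit 0, nat_lit 0, nat_lit 1000, nat_lit 6, nat_lit 96, nat_lit 1000, nat_lit 111, nat_lit 1000, nat_lit 114817, nat_lit 298, nat_lit 86400, nat_lit 287, nat_lit 57539846, nat_lit 0, nat_lit 0, nat_lit 2673104, false, false⟩,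
 nat_lit 0, nat_lit 10633, nat_lit 0, nat_lit 0, nat_lit 5629, nat_lit 0, nat_lit 570, nat_lit 0, nat_lit 0, nat_lit 0, nat_lit 0, nat_lit 0, nat_lit 0, nat_lit 28922956395719, nat_lit 111, nat_lit 666400, nat_lit 0, nat_lit 0, [(nat_lit 6, [(nat_lit 5, nat_lit 556), (nat_lit 6, nat_lit 444)])],
 ⟨p033_k9, nat_lit 0, nat_lit 0, nat_lit 196, nat_lit 0, nat_lit 77162, [nat_lit 3245281601, nat_lit 1331452801, nat_lit 223484800], [], [nat_lit 11289568445, nat_lit 11878594263, nat_lit 12491255674, nat_lit 11088829727, nat_lit 14372825969, nat_lit 13162230259, nat_lit 16003018626, nat_lit 14620192857], nat_lit 1271250, nat_lit 1271250, nat_lit 88400, nat_lit 490000, nat_lit 1100001, nat_lit 1442500, [nat_lit 1100000, nat_lit 1785000, nat_lit 1271250], [nat_lit 21, nat_lit 40, nat_lit 20, nat_lit 80, nat_lit 14, nat_lit 373, nat_lit 150, nat_lit 10]⟩, C1.Rw.none,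
 ⟨nat_lit 6123, nat_lit 6325, ⟨.ofNat (nat_lit 164319), .ofNat (nat_lit 295942), .ofNat (nat_lit 175003), .ofNat (nat_lit 306625), .ofNat (nat_lit 172944), .ofNat (nat_lit 301553), .ofNat (nat_lit 183618), .ofNat (nat_lit 312227)⟩, ⟨.ofNat (nat_lit 225423), .ofNat (nat_lit 307688), .ofNat (nat_lit 246791), .ofNat (nat_lit 329055), .ofNat (nat_lit 227485), .ofNat (nat_lit 307865), .ofNat (nat_lit 248833), .ofNat (nat_lit 329214)⟩⟩, []⟩
noncomputable def p033_l13 : Lf2 := ⟨nat_lit 0, nat_lit 10, [nat_lit 0, nat_lit 5, nat_lit 5, nat_lit 20], true, nat_lit 160, nat_lit 200, nat_lit 0, nat_lit 288, ⟨nat_lit 0, nat_lit 0, nat_lit 1000, nat_lit 6, nat_lit 102, nat_lit 1000, nat_lit 112, nat_lit 1000, nat_lit 117600, nat_lit 299, nat_lit 98817, nat_lit 292, nat_lit 57019734, nat_lit 0, nat_lit 0, nat_lit 2780634, false, false⟩,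
 nat_lit 0, nat_lit 8486, nat_lit 0, nat_lit 0, nat_lit 4714, nat_lit 0, nat_lit 668, nat_lit 0, nat_lit 0, nat_lit 0, nat_lit 0, nat_lit 0, nat_lit 0, nat_lit 22953344083562, nat_lit 69, nat_lit 400000, nat_lit 0, nat_lit 0, [(nat_lit 6, [(nat_lit 5, nat_lit 1000)])],
 ⟨p033_k10, nat_lit 0, nat_lit 0, nat_lit 188, nat_lit 0, nat_lit 176297, [nat_lit 2521600001, nat_lit 1460000001, nat_lit 7200000], [], [nat_lit 11444482244, nat_lit 12063452472, nat_lit 10739134598, nat_lit 11124584250, nat_lit 12916168408, nat_lit 13487389896, nat_lit 13852044889, nat_lit 12677332588], nat_lit 1271250, nat_lit 1271250, nat_lit 111251, nat_lit 490000, nat_lit 1100001, nat_lit 1442500, [nat_lit 1100000, nat_lit 1442500, nat_lit 1271250], [nat_lit 11, nat_lit 40, nat_lit 20, nat_lit 80, nat_lit 1, nat_lit 373, nat_lit 150, nat_lit 11]⟩, C1.Rw.none,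
 ⟨nat_lit 5916, nat_lit 6124, ⟨.ofNat (nat_lit 180982), .ofNat (nat_lit 301553), .ofNat (nat_lit 202330), .ofNat (nat_lit 322901), .ofNat (nat_lit 189276), .ofNat (nat_lit 307076), .ofNat (nat_lit 210615), .ofNat (nat_lit 328416)⟩, ⟨.ofNat (nat_lit 227485), .ofNat (nat_lit 307865), .ofNat (nat_lit 248833), .ofNat (nat_lit 329214), .ofNat (nat_lit 229411), .ofNat (nat_lit 307945), .ofNat (nat_lit 250751), .ofNat (nat_lit 329284)⟩⟩, [⟨nat_lit 0, nat_lit 100, nat_lit 100, nat_lit 60, nat_lit 158188589⟩]⟩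
noncomputable def b_VL_600_600_5_9 : St := ⟨true, nat_lit 1, nat_lit 0, nat_lit 1, nat_lit 40, nat_lit 240, nat_lit 260, nat_lit 240, nat_lit 260, nat_lit 16, nat_lit 80, nat_lit 20, nat_lit 40, nat_lit 160, nat_lit 200, nat_lit 0, nat_lit 288, nat_lit 20, nat_lit 40, nat_lit 0, nat_lit 0, nat_lit 0, nat_lit 800⟩
theorem d_VL_600_600_5_9 (h : EB TB.env) : Dead b_VL_600_600_5_9 := chkB_sound0 h (T :=
(.spl (nat_lit 0) (nat_lit 250)
(.ord (.leaf p033_l12))
(.trZ (nat_lit 0) (nat_lit 100) (nat_lit 99) (nat_lit 45) (nat_lit 20) (.leaf p033_l13)))) (by decide +kernel)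
noncomputable def p033_l14 : Lf2 := ⟨nat_lit 0, nat_lit 2, [nat_lit 10, nat_lit 5, nat_lit 5, nat_lit 20], false, nat_lit 200, nat_lit 240, nat_lit 0, nat_lit 160, ⟨nat_lit 1000, nat_lit 0, nat_lit 0, nat_lit 0, nat_lit 0, nat_lit 0, nat_lit 0, nat_lit 0, nat_lit 0, nat_lit 0, nat_lit 0, nat_lit 0, nat_lit 0, nat_lit 0, nat_lit 0, nat_lit 0, false, false⟩,
 nat_lit 0, nat_lit 15633, nat_lit 0, nat_lit 0, nat_lit 8276, nat_lit 8332, nat_lit 2600, nat_lit 0, nat_lit 0, nat_lit 3296, nat_lit 0, nat_lit 0, nat_lit 0, nat_lit 1790009811403, nat_lit 0, nat_lit 0, nat_lit 0, nat_lit 0, [],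
 ⟨p033_k0, nat_lit 0, nat_lit 0, nat_lit 187, nat_lit 0, nat_lit 271617, [nat_lit 4688000000, nat_lit 6250000000, nat_lit 7968000000], [], [nat_lit 16164409909, nat_lit 16965378937, nat_lit 13521332144, nat_lit 14274730262, nat_lit 18213275645, nat_lit 18936308184, nat_lit 15462392080, nat_lit 16143038204], nat_lit 1271250, nat_lit 1271250, nat_lit 88400, nat_lit 490000, nat_lit 1271250, nat_lit 1271250, [nat_lit 1100000, nat_lit 1442500, nat_lit 1271250], [nat_lit 9, nat_lit 40, nat_lit 20, nat_lit 80, nat_lit 2, nat_lit 317, nat_lit 100, nat_lit 10]⟩, ⟨p033_k0, nat_lit 0, nat_lit 0, nat_lit 0, nat_lit 0, nat_lit 0, [nat_lit 4688000000, nat_lit 6250000000, nat_lit 7968000000], [], [nat_lit 18465183648, nat_lit 19604209499, nat_lit 14623898432, nat_lit 15636211820, nat_lit 14014276730, nat_lit 14896925668, nat_lit 11453740656, nat_lit 12283352240], nat_lit 0, nat_lit 0, nat_lit 0, nat_lit 0, nat_lit 0, nat_lit 0,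 [], [nat_lit 9, nat_lit 40, nat_lit 20, nat_lit 80]⟩,
 zbF0, [⟨nat_lit 0, nat_lit 100, nat_lit 100, nat_lit 50, nat_lit 1154686499⟩]⟩
noncomputable def p033_l15 : Lf2 := ⟨nat_lit 0, nat_lit 2, [nat_lit 10, nat_lit 5, nat_lit 5, nat_lit 20], false, nat_lit 200, nat_lit 240, nat_lit 160, nat_lit 288, ⟨nat_lit 1000, nat_lit 0, nat_lit 0, nat_lit 0, nat_lit 0, nat_lit 0, nat_lit 0, nat_lit 0, nat_lit 0, nat_lit 0, nat_lit 0, nat_lit 0, nat_lit 0, nat_lit 0, nat_lit 0, nat_lit 0, false, false⟩,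
 nat_lit 0, nat_lit 15633, nat_lit 0, nat_lit 0, nat_lit 8276, nat_lit 6647, nat_lit 2600, nat_lit 0, nat_lit 0, nat_lit 0, nat_lit 0, nat_lit 0, nat_lit 0, nat_lit 0, nat_lit 0, nat_lit 0, nat_lit 0, nat_lit 0, [],
 ⟨p033_k0, nat_lit 0, nat_lit 0, nat_lit 187, nat_lit 0, nat_lit 271617, [nat_lit 4688000000, nat_lit 6250000000, nat_lit 7968000000], [], [nat_lit 16164409909, nat_lit 16965378937, nat_lit 13521332144, nat_lit 14274730262, nat_lit 18213275645, nat_lit 18936308184, nat_lit 15462392080, nat_lit 16143038204], nat_lit 1271250, nat_lit 1271250, nat_lit 88400, nat_lit 490000, nat_lit 1271250, nat_lit 1271250, [nat_lit 1100000, nat_lit 1442500, nat_lit 1271250], [nat_lit 9, nat_lit 40, nat_lit 20, nat_lit 80, nat_lit 2, nat_lit 317, nat_lit 100, nat_lit 10]⟩, ⟨p033_k0, nat_lit 0, nat_lit 0, nat_lit 0, nat_lit 0, nat_lit 0, [nat_lit 4688000000, nat_lit 6250000000, nat_lit 7968000000], [], [nat_lit 11024878596,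 nat_lit 12034282948, nat_lit 8812488100, nat_lit 9768894723, nat_lit 20180682025, nat_lit 21018498551, nat_lit 17562794564, nat_lit 18246227246], nat_lit 0, nat_lit 0, nat_lit 0, nat_lit 0, nat_lit 0, nat_lit 0, [], [nat_lit 9, nat_lit 40, nat_lit 20, nat_lit 80]⟩,
 zbF0, [⟨nat_lit 0, nat_lit 100, nat_lit 100, nat_lit 45, nat_lit 1135474444⟩, ⟨nat_lit 7, nat_lit 97, nat_lit 100, nat_lit 54, nat_lit 1063650179⟩]⟩
noncomputable def p033_l16 : Lf2 := ⟨nat_lit 0, nat_lit 5, [nat_lit 4, nat_lit 5, nat_lit 5, nat_lit 20], true, nat_lit 200, nat_lit 240, nat_lit 0, nat_lit 288, ⟨nat_lit 0, nat_lit 0, nat_lit 1000, nat_lit 6, nat_lit 95, nat_lit 1000, nat_lit 144, nat_lit 1000, nat_lit 194400, nat_lit 323, nat_lit 84017, nat_lit 286, nat_lit 54870781, nat_lit 0, nat_lit 0, nat_lit 3128461, false, false⟩,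
 nat_lit 0, nat_lit 8893, nat_lit 0, nat_lit 0, nat_lit 4707, nat_lit 0, nat_lit 128, nat_lit 0, nat_lit 0, nat_lit 0, nat_lit 0, nat_lit 0, nat_lit 0, nat_lit 0, nat_lit 118, nat_lit 772600, nat_lit 0, nat_lit 0, [(nat_lit 6, [(nat_lit 5, nat_lit 379), (nat_lit 6, nat_lit 621)])],
 ⟨p033_k6, nat_lit 0, nat_lit 0, nat_lit 192, nat_lit 0, nat_lit 164884, [nat_lit 3377884401, nat_lit 1357475201, nat_lit 22936000], [], [nat_lit 13161918347, nat_lit 13733082343, nat_lit 13048271194, nat_lit 12564982791, nat_lit 14679413117, nat_lit 15202802551, nat_lit 13592929710, nat_lit 14146455555], nat_lit 1271250, nat_lit 1271250, nat_lit 88400, nat_lit 490000, nat_lit 1271250, nat_lit 1271250, [nat_lit 1100000, nat_lit 1785000, nat_lit 1271250], [nat_lit 29, nat_lit 40, nat_lit 20, nat_lit 80, nat_lit 17, nat_lit 373, nat_lit 150, nat_lit 11]⟩, C1.Rw.none,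
 ⟨nat_lit 6123, nat_lit 6325, ⟨.ofNat (nat_lit 164319), .ofNat (nat_lit 295942), .ofNat (nat_lit 169661), .ofNat (nat_lit 301284), .ofNat (nat_lit 172944), .ofNat (nat_lit 301553), .ofNat (nat_lit 178281), .ofNat (nat_lit 306890)⟩, ⟨.ofNat (nat_lit 307688), .ofNat (nat_lit 389952), .ofNat (nat_lit 329055), .ofNat (nat_lit 411320), .ofNat (nat_lit 307865), .ofNat (nat_lit 388246), .ofNat (nat_lit 329214), .ofNat (nat_lit 409594)⟩⟩, [⟨nat_lit 0, nat_lit 100, nat_lit 99, nat_lit 47, nat_lit 197524033⟩]⟩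
noncomputable def p033_l17 : Lf2 := ⟨nat_lit 0, nat_lit 5, [nat_lit 4, nat_lit 5, nat_lit 5, nat_lit 20], false, nat_lit 200, nat_lit 240, nat_lit 0, nat_lit 160, ⟨nat_lit 1000, nat_lit 0, nat_lit 0, nat_lit 0, nat_lit 0, nat_lit 0, nat_lit 0, nat_lit 0, nat_lit 0, nat_lit 0, nat_lit 0, nat_lit 0, nat_lit 0, nat_lit 0, nat_lit 0, nat_lit 0, false, false⟩,
 nat_lit 0, nat_lit 18049, nat_lit 0, nat_lit 0, nat_lit 9790, nat_lit 8257, nat_lit 3014, nat_lit 0, nat_lit 0, nat_lit 3503, nat_lit 0, nat_lit 0, nat_lit 0, nat_lit 0, nat_lit 0, nat_lit 0, nat_lit 0, nat_lit 0, [],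
 ⟨p033_k11, nat_lit 0, nat_lit 0, nat_lit 184, nat_lit 0, nat_lit 184376, [nat_lit 4688000000, nat_lit 6250000000, nat_lit 9842000000], [], [nat_lit 14630079040, nat_lit 15052848380, nat_lit 10773378725, nat_lit 11174771770, nat_lit 16516522030, nat_lit 16896492400, nat_lit 12788471540, nat_lit 13248893990], nat_lit 1271250, nat_lit 1271250, nat_lit 111251, nat_lit 490000, nat_lit 1271250, nat_lit 1271250, [nat_lit 1100000, nat_lit 1442500, nat_lit 1271250], [nat_lit 11, nat_lit 40, nat_lit 20, nat_lit 80, nat_lit 1, nat_lit 373, nat_lit 150, nat_lit 10]⟩, ⟨p033_k11, nat_lit 0, nat_lit 0, nat_lit 0, nat_lit 0, nat_lit 0, [nat_lit 4688000000, nat_lit 6250000000, nat_lit 9842000000], [], [nat_lit 18134368665, nat_lit 18628487744, nat_lit 14525755964, nat_lit 15028923570, nat_lit 13502625533, nat_lit 13940810165, nat_lit 11324143523, nat_lit 11736631365], nat_lit 0, nat_lit 0, nat_lit 0, nat_lit 0, nat_lit 0, nat_lit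 0, [], [nat_lit 11, nat_lit 40, nat_lit 20, nat_lit 80]⟩,
 zbF0, [⟨nat_lit 0, nat_lit 100, nat_lit 100, nat_lit 50, nat_lit 1215678219⟩]⟩
noncomputable def p033_l18 : Lf2 := ⟨nat_lit 0, nat_lit 5, [nat_lit 4, nat_lit 5, nat_lit 5, nat_lit 20], false, nat_lit 200, nat_lit 240, nat_lit 160, nat_lit 284, ⟨nat_lit 1000, nat_lit 0, nat_lit 0, nat_lit 0, nat_lit 0, nat_lit 0, nat_lit 0, nat_lit 0, nat_lit 0, nat_lit 0, nat_lit 0, nat_lit 0, nat_lit 0, nat_lit 0, nat_lit 0, nat_lit 0, false, false⟩,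
 nat_lit 0, nat_lit 17869, nat_lit 0, nat_lit 0, nat_lit 9692, nat_lit 6729, nat_lit 3003, nat_lit 0, nat_lit 0, nat_lit 0, nat_lit 0, nat_lit 0, nat_lit 0, nat_lit 0, nat_lit 0, nat_lit 0, nat_lit 0, nat_lit 0, [],
 ⟨p033_k11, nat_lit 0, nat_lit 0, nat_lit 184, nat_lit 0, nat_lit 184376, [nat_lit 4688000000, nat_lit 6250000000, nat_lit 9842000000], [], [nat_lit 14704767792, nat_lit 15124889074, nat_lit 10897317230, nat_lit 11296229846, nat_lit 16583664194, nat_lit 16961840245, nat_lit 12904356417, nat_lit 13361779577], nat_lit 1271250, nat_lit 1271250, nat_lit 111251, nat_lit 490000, nat_lit 1271250, nat_lit 1271250, [nat_lit 1100000, nat_lit 1442500, nat_lit 1271250], [nat_lit 11, nat_lit 40, nat_lit 20, nat_lit 80, nat_lit 1, nat_lit 373, nat_lit 150, nat_lit 10]⟩, ⟨p033_k11, nat_lit 0, nat_lit 0, nat_lit 0, nat_lit 0, nat_lit 0, [nat_lit 4688000000, nat_lit 6250000000, nat_lit 9842000000], [], [nat_lit 11080218500,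 nat_lit 11588346304, nat_lit 9163673781, nat_lit 9645542861, nat_lit 19794979617, nat_lit 20223249215, nat_lit 17497900531, nat_lit 17846489113], nat_lit 0, nat_lit 0, nat_lit 0, nat_lit 0, nat_lit 0, nat_lit 0, [], [nat_lit 11, nat_lit 40, nat_lit 20, nat_lit 80]⟩,
 zbF0, [⟨nat_lit 0, nat_lit 100, nat_lit 100, nat_lit 48, nat_lit 1194454871⟩, ⟨nat_lit 7, nat_lit 98, nat_lit 100, nat_lit 54, nat_lit 1050251849⟩]⟩
noncomputable def p033_l19 : Lf2 := ⟨nat_lit 0, nat_lit 8, [nat_lit 50, nat_lit 5, nat_lit 5, nat_lit 20], true, nat_lit 200, nat_lit 240, nat_lit 0, nat_lit 288, ⟨nat_lit 0, nat_lit 0, nat_lit 1000, nat_lit 6, nat_lit 96, nat_lit 1000, nat_lit 144, nat_lit 1000, nat_lit 194400, nat_lit 323, nat_lit 86400, nat_lit 287, nat_lit 54796389, nat_lit 0, nat_lit 0, nat_lit 3144327, false, false⟩,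
 nat_lit 0, nat_lit 8646, nat_lit 0, nat_lit 0, nat_lit 4577, nat_lit 0, nat_lit 0, nat_lit 0, nat_lit 0, nat_lit 0, nat_lit 0, nat_lit 0, nat_lit 0, nat_lit 25965927786763, nat_lit 138, nat_lit 925600, nat_lit 0, nat_lit 0, [(nat_lit 6, [(nat_lit 5, nat_lit 124), (nat_lit 6, nat_lit 876)])],
 ⟨p033_k12, nat_lit 0, nat_lit 0, nat_lit 167, nat_lit 0, nat_lit 78008, [nat_lit 3727566401, nat_lit 1632931201, nat_lit 26016000], [], [nat_lit 13170534975, nat_lit 13703793483, nat_lit 13114161914, nat_lit 12647478281, nat_lit 14650139785, nat_lit 15140210133, nat_lit 13556543906, nat_lit 14021373477], nat_lit 1271250, nat_lit 1271250, nat_lit 88400, nat_lit 490000, nat_lit 1271250, nat_lit 1271250, [nat_lit 1100000, nat_lit 1785000, nat_lit 1271250], [nat_lit 29, nat_lit 40, nat_lit 20, nat_lit 80, nat_lit 17, nat_lit 373, nat_lit 150, nat_lit 11]⟩, C1.Rw.none,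
 ⟨nat_lit 6123, nat_lit 6325, ⟨.ofNat (nat_lit 164319), .ofNat (nat_lit 295942), .ofNat (nat_lit 175003), .ofNat (nat_lit 306625), .ofNat (nat_lit 172944), .ofNat (nat_lit 301553), .ofNat (nat_lit 183618), .ofNat (nat_lit 312227)⟩, ⟨.ofNat (nat_lit 307688), .ofNat (nat_lit 389952), .ofNat (nat_lit 329055), .ofNat (nat_lit 411320), .ofNat (nat_lit 307865), .ofNat (nat_lit 388246), .ofNat (nat_lit 329214), .ofNat (nat_lit 409594)⟩⟩, [⟨nat_lit 0, nat_lit 100, nat_lit 100, nat_lit 50, nat_lit 201254318⟩]⟩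
noncomputable def p033_l20 : Lf2 := ⟨nat_lit 1, nat_lit 10, [nat_lit 0, nat_lit 5, nat_lit 5, nat_lit 20], false, nat_lit 200, nat_lit 240, nat_lit 0, nat_lit 288, zbN0,
 nat_lit 0, nat_lit 0, nat_lit 0, nat_lit 0, nat_lit 0, nat_lit 0, nat_lit 0, nat_lit 0, nat_lit 0, nat_lit 0, nat_lit 0, nat_lit 0, nat_lit 0, nat_lit 0, nat_lit 0, nat_lit 0, nat_lit 0, nat_lit 0, [],
 C1.Rw.none, C1.Rw.none,
 zbF0, []⟩
noncomputable def p033_l21 : Lf2 := ⟨nat_lit 0, nat_lit 5, [nat_lit 4, nat_lit 5, nat_lit 5, nat_lit 20], false, nat_lit 200, nat_lit 240, nat_lit 0, nat_lit 160, ⟨nat_lit 1000, nat_lit 0, nat_lit 0, nat_lit 0, nat_lit 0, nat_lit 0, nat_lit 0, nat_lit 0, nat_lit 0, nat_lit 0, nat_lit 0, nat_lit 0, nat_lit 0, nat_lit 0, nat_lit 0, nat_lit 0, false, false⟩,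
 nat_lit 0, nat_lit 22486, nat_lit 0, nat_lit 0, nat_lit 12491, nat_lit 8427, nat_lit 1056, nat_lit 0, nat_lit 0, nat_lit 3635, nat_lit 0, nat_lit 0, nat_lit 0, nat_lit 0, nat_lit 0, nat_lit 0, nat_lit 0, nat_lit 0, [],
 ⟨p033_k7, nat_lit 0, nat_lit 0, nat_lit 204, nat_lit 0, nat_lit 318307, [nat_lit 4688000000, nat_lit 6250000000, nat_lit 7968000000], [], [nat_lit 15917854629, nat_lit 17061059746, nat_lit 10916204588, nat_lit 11997263899, nat_lit 18433325234, nat_lit 19478217616, nat_lit 13329228111, nat_lit 14294857562], nat_lit 1271250, nat_lit 1271250, nat_lit 111251, nat_lit 490000, nat_lit 1271250, nat_lit 1271250, [nat_lit 1100000, nat_lit 1442500, nat_lit 1271250], [nat_lit 9, nat_lit 40, nat_lit 20, nat_lit 80, nat_lit 2, nat_lit 317, nat_lit 100, nat_lit 10]⟩, ⟨p033_k8, nat_lit 0, nat_lit 0, nat_lit 0, nat_lit 0, nat_lit 0, [nat_lit 4688000000, nat_lit 6250000000, nat_lit 9842000000], [], [nat_lit 18032757746,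 nat_lit 19034868444, nat_lit 14484265152, nat_lit 15504150895, nat_lit 13459782336, nat_lit 14347499440, nat_lit 11239088916, nat_lit 12074572640], nat_lit 0, nat_lit 0, nat_lit 0, nat_lit 0, nat_lit 0, nat_lit 0, [], [nat_lit 11, nat_lit 40, nat_lit 20, nat_lit 80]⟩,
 zbF0, [⟨nat_lit 0, nat_lit 100, nat_lit 99, nat_lit 50, nat_lit 1350019011⟩, ⟨nat_lit 4, nat_lit 100, nat_lit 100, nat_lit 55, nat_lit 912655564⟩]⟩
noncomputable def p033_l22 : Lf2 := ⟨nat_lit 0, nat_lit 5, [nat_lit 4, nat_lit 5, nat_lit 5, nat_lit 20], false, nat_lit 200, nat_lit 240, nat_lit 160, nat_lit 288, ⟨nat_lit 1000, nat_lit 0, nat_lit 0, nat_lit 0, nat_lit 0, nat_lit 0, nat_lit 0, nat_lit 0, nat_lit 0, nat_lit 0, nat_lit 0, nat_lit 0, nat_lit 0, nat_lit 0, nat_lit 0, nat_lit 0, false, false⟩,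
 nat_lit 0, nat_lit 15299, nat_lit 0, nat_lit 0, nat_lit 8499, nat_lit 6726, nat_lit 2636, nat_lit 0, nat_lit 0, nat_lit 0, nat_lit 0, nat_lit 0, nat_lit 0, nat_lit 0, nat_lit 0, nat_lit 0, nat_lit 0, nat_lit 0, [],
 ⟨p033_k7, nat_lit 0, nat_lit 0, nat_lit 204, nat_lit 0, nat_lit 318307, [nat_lit 4688000000, nat_lit 6250000000, nat_lit 7968000000], [], [nat_lit 15165753181, nat_lit 16049530194, nat_lit 12718165851, nat_lit 13483685245, nat_lit 17253461026, nat_lit 18140699586, nat_lit 14607342021, nat_lit 15298446622], nat_lit 1271250, nat_lit 1271250, nat_lit 111251, nat_lit 490000, nat_lit 1271250, nat_lit 1271250, [nat_lit 1100000, nat_lit 1442500, nat_lit 1271250], [nat_lit 9, nat_lit 40, nat_lit 20, nat_lit 80, nat_lit 2, nat_lit 317, nat_lit 100, nat_lit 10]⟩, ⟨p033_k8, nat_lit 0, nat_lit 0, nat_lit 0, nat_lit 0, nat_lit 0, [nat_lit 4688000000, nat_lit 6250000000, nat_lit 9842000000], [], [nat_lit 10575490224,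 nat_lit 11591459776, nat_lit 8686585800, nat_lit 9650055734, nat_lit 19788570762, nat_lit 20632886382, nat_lit 17491916712, nat_lit 18179727274], nat_lit 0, nat_lit 0, nat_lit 0, nat_lit 0, nat_lit 0, nat_lit 0, [], [nat_lit 11, nat_lit 40, nat_lit 20, nat_lit 80]⟩,
 zbF0, [⟨nat_lit 0, nat_lit 100, nat_lit 99, nat_lit 50, nat_lit 1130739924⟩, ⟨nat_lit 19, nat_lit 100, nat_lit 97, nat_lit 54, nat_lit 1067774765⟩]⟩
noncomputable def p033_l23 : Lf2 := ⟨nat_lit 0, nat_lit 10, [nat_lit 0, nat_lit 5, nat_lit 5, nat_lit 20], true, nat_lit 200, nat_lit 240, nat_lit 0, nat_lit 288, ⟨nat_lit 0, nat_lit 0, nat_lit 1000, nat_lit 6, nat_lit 100, nat_lit 1000, nat_lit 143, nat_lit 1000, nat_lit 194400, nat_lit 323, nat_lit 93750, nat_lit 290, nat_lit 54513948, nat_lit 0, nat_lit 0, nat_lit 3205032, false, false⟩,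
 nat_lit 0, nat_lit 9151, nat_lit 0, nat_lit 0, nat_lit 5083, nat_lit 0, nat_lit 0, nat_lit 0, nat_lit 0, nat_lit 0, nat_lit 0, nat_lit 0, nat_lit 0, nat_lit 0, nat_lit 120, nat_lit 790600, nat_lit 0, nat_lit 0, [(nat_lit 6, [(nat_lit 5, nat_lit 349), (nat_lit 6, nat_lit 651)])],
 ⟨p033_k13, nat_lit 0, nat_lit 0, nat_lit 164, nat_lit 0, nat_lit 125723, [nat_lit 3852150400, nat_lit 13416000], [], [nat_lit 13760142726, nat_lit 14351305712, nat_lit 13029835214, nat_lit 13173591755, nat_lit 15279415335, nat_lit 15884736202, nat_lit 14260480457, nat_lit 14834060262], nat_lit 1271250, nat_lit 1271250, nat_lit 111251, nat_lit 490000, nat_lit 1271250, nat_lit 1271250, [nat_lit 1100000, nat_lit 2127500], [nat_lit 70, nat_lit 40, nat_lit 20, nat_lit 80, nat_lit 13, nat_lit 373, nat_lit 150, nat_lit 10]⟩, C1.Rw.none,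
 ⟨nat_lit 5916, nat_lit 6124, ⟨.ofNat (nat_lit 180982), .ofNat (nat_lit 301553), .ofNat (nat_lit 191656), .ofNat (nat_lit 312227), .ofNat (nat_lit 189276), .ofNat (nat_lit 307076), .ofNat (nat_lit 199946), .ofNat (nat_lit 317746)⟩, ⟨.ofNat (nat_lit 307865), .ofNat (nat_lit 388246), .ofNat (nat_lit 329214), .ofNat (nat_lit 409594), .ofNat (nat_lit 307945), .ofNat (nat_lit 386479), .ofNat (nat_lit 329284), .ofNat (nat_lit 407818)⟩⟩, [⟨nat_lit 0, nat_lit 100, nat_lit 99, nat_lit 55, nat_lit 190813558⟩, ⟨nat_lit 16, nat_lit 100, nat_lit 100, nat_lit 55, nat_lit 235939322⟩]⟩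
noncomputable def p033_l24 : Lf2 := ⟨nat_lit 0, nat_lit 10, [nat_lit 0, nat_lit 5, nat_lit 5, nat_lit 20], false, nat_lit 200, nat_lit 240, nat_lit 0, nat_lit 160, ⟨nat_lit 1000, nat_lit 0, nat_lit 0, nat_lit 0, nat_lit 0, nat_lit 0, nat_lit 0, nat_lit 0, nat_lit 0, nat_lit 0, nat_lit 0, nat_lit 0, nat_lit 0, nat_lit 0, nat_lit 0, nat_lit 0, false, false⟩,
 nat_lit 0, nat_lit 25347, nat_lit 0, nat_lit 0, nat_lit 14081, nat_lit 8102, nat_lit 1882, nat_lit 0, nat_lit 0, nat_lit 2909, nat_lit 0, nat_lit 0, nat_lit 0, nat_lit 8796410313763, nat_lit 0, nat_lit 0, nat_lit 0, nat_lit 0, [],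
 ⟨p033_k10, nat_lit 0, nat_lit 0, nat_lit 316, nat_lit 0, nat_lit 392282, [nat_lit 4688000000, nat_lit 6250000000, nat_lit 9842000000], [], [nat_lit 16474019186, nat_lit 17548874568, nat_lit 10968306103, nat_lit 11988306904, nat_lit 18630214498, nat_lit 19585912093, nat_lit 13043708280, nat_lit 13950643736], nat_lit 1271250, nat_lit 1271250, nat_lit 134400, nat_lit 490000, nat_lit 1271250, nat_lit 1271250, [nat_lit 1100000, nat_lit 1442500, nat_lit 1271250], [nat_lit 11, nat_lit 40, nat_lit 20, nat_lit 80, nat_lit 1, nat_lit 373, nat_lit 150, nat_lit 10]⟩, ⟨p033_k14, nat_lit 0, nat_lit 0, nat_lit 0, nat_lit 0, nat_lit 0, [nat_lit 4688000000, nat_lit 5449500000, nat_lit 7089500000, nat_lit 9842000000], [], [nat_lit 18467424542, nat_lit 19442378783, nat_lit 15199907104, nat_lit 16144356492, nat_lit 13779973777, nat_lit 14600822559, nat_lit 11795135746, nat_lit 12570697720], nat_lit 0, nat_lit 0, nat_lit 0, nat_lit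 0, nat_lit 0, nat_lit 0, [], [nat_lit 275, nat_lit 40, nat_lit 20, nat_lit 40]⟩,
 zbF0, [⟨nat_lit 0, nat_lit 100, nat_lit 100, nat_lit 55, nat_lit 1337003399⟩, ⟨nat_lit 0, nat_lit 100, nat_lit 100, nat_lit 50, nat_lit 61069953⟩, ⟨nat_lit 4, nat_lit 100, nat_lit 100, nat_lit 55, nat_lit 836451908⟩]⟩
noncomputable def p033_l25 : Lf2 := ⟨nat_lit 0, nat_lit 10, [nat_lit 0, nat_lit 5, nat_lit 5, nat_lit 20], false, nat_lit 200, nat_lit 240, nat_lit 160, nat_lit 280, ⟨nat_lit 1000, nat_lit 0, nat_lit 0, nat_lit 0, nat_lit 0, nat_lit 0, nat_lit 0, nat_lit 0, nat_lit 0, nat_lit 0, nat_lit 0, nat_lit 0, nat_lit 0, nat_lit 0, nat_lit 0, nat_lit 0, false, false⟩,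
 nat_lit 0, nat_lit 17170, nat_lit 0, nat_lit 0, nat_lit 9538, nat_lit 6788, nat_lit 2782, nat_lit 0, nat_lit 0, nat_lit 0, nat_lit 0, nat_lit 0, nat_lit 0, nat_lit 0, nat_lit 0, nat_lit 0, nat_lit 0, nat_lit 0, [],
 ⟨p033_k10, nat_lit 0, nat_lit 0, nat_lit 316, nat_lit 0, nat_lit 392282, [nat_lit 4688000000, nat_lit 6250000000, nat_lit 9842000000], [], [nat_lit 16064656014, nat_lit 15877433167, nat_lit 12428059219, nat_lit 13071445138, nat_lit 16870990525, nat_lit 17616532575, nat_lit 14088422100, nat_lit 14762722328], nat_lit 1271250, nat_lit 1271250, nat_lit 134400, nat_lit 490000, nat_lit 1271250, nat_lit 1271250, [nat_lit 1100000, nat_lit 1442500, nat_lit 1271250], [nat_lit 11, nat_lit 40, nat_lit 20, nat_lit 80, nat_lit 1, nat_lit 373, nat_lit 150, nat_lit 10]⟩, ⟨p033_k10, nat_lit 0, nat_lit 0, nat_lit 0, nat_lit 0, nat_lit 0, [nat_lit 4688000000, nat_lit 6250000000, nat_lit 9842000000], [], [nat_lit 11316202352,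 nat_lit 12335440354, nat_lit 9556789692, nat_lit 10525802984, nat_lit 19563098566, nat_lit 20435271221, nat_lit 17462659010, nat_lit 18172440564], nat_lit 0, nat_lit 0, nat_lit 0, nat_lit 0, nat_lit 0, nat_lit 0, [], [nat_lit 11, nat_lit 40, nat_lit 20, nat_lit 80]⟩,
 zbF0, [⟨nat_lit 0, nat_lit 100, nat_lit 100, nat_lit 50, nat_lit 1124286633⟩, ⟨nat_lit 7, nat_lit 100, nat_lit 100, nat_lit 55, nat_lit 1015244545⟩]⟩
noncomputable def b_VL_600_600_5_10 : St := ⟨true, nat_lit 1, nat_lit 0, nat_lit 1, nat_lit 40, nat_lit 240, nat_lit 260, nat_lit 240, nat_lit 260, nat_lit 16, nat_lit 80, nat_lit 20, nat_lit 40, nat_lit 200, nat_lit 240, nat_lit 0, nat_lit 288, nat_lit 0, nat_lit 40, nat_lit 0, nat_lit 0, nat_lit 0, nat_lit 800⟩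
theorem d_VL_600_600_5_10 (h : EB TB.env) : Dead b_VL_600_600_5_10 := chkB_sound0 h (T :=
(.spl (nat_lit 1) (nat_lit 250)
(.spl (nat_lit 0) (nat_lit 250)
(.spl (nat_lit 6) (nat_lit 32)
(.spl (nat_lit 6) (nat_lit 20)
(.spl (nat_lit 6) (nat_lit 8)
(.spl (nat_lit 5) (nat_lit 160)
(.leaf p033_l14)
(.leaf p033_l15))
(.spl (nat_lit 1) (nat_lit 245)
(.leaf p033_l16)
(.ord (.trZ (nat_lit 0) (nat_lit 100) (nat_lit 100) (nat_lit 45) (nat_lit 20) (.trX (nat_lit 19) (nat_lit 100) (nat_lit 94) (nat_lit 62) (nat_lit 284) (.spl (nat_lit 5) (nat_lit 160)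
(.leaf p033_l17)
(.leaf p033_l18)))))))
(.leaf p033_l19))
(.leaf p033_l20))
(.trZ (nat_lit 0) (nat_lit 100) (nat_lit 99) (nat_lit 45) (nat_lit 20) (.spl (nat_lit 6) (nat_lit 20)
(.spl (nat_lit 5) (nat_lit 160)
(.leaf p033_l21)
(.leaf p033_l22))
(.leaf p033_l23))))
(.ord (.trZ (nat_lit 0) (nat_lit 100) (nat_lit 100) (nat_lit 50) (nat_lit 24) (.trX (nat_lit 19) (nat_lit 100) (nat_lit 95) (nat_lit 62) (nat_lit 280) (.spl (nat_lit 5) (nat_lit 160)
(.leaf p033_l24)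
(.leaf p033_l25))))))) (by decide +kernel)
noncomputable def p033_l26 : Lf2 := ⟨nat_lit 0, nat_lit 5, [nat_lit 4, nat_lit 5, nat_lit 5, nat_lit 20], false, nat_lit 240, nat_lit 288, nat_lit 0, nat_lit 160, ⟨nat_lit 1000, nat_lit 0, nat_lit 0, nat_lit 0, nat_lit 0, nat_lit 0, nat_lit 0, nat_lit 0, nat_lit 0, nat_lit 0, nat_lit 0, nat_lit 0, nat_lit 0, nat_lit 0, nat_lit 0, nat_lit 0, false, false⟩,
 nat_lit 0, nat_lit 18812, nat_lit 0, nat_lit 4851, nat_lit 9959, nat_lit 8379, nat_lit 2468, nat_lit 0, nat_lit 0, nat_lit 3624, nat_lit 0, nat_lit 0, nat_lit 0, nat_lit 12314005668290, nat_lit 0, nat_lit 0, nat_lit 0, nat_lit 0, [],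
 ⟨p033_k8, nat_lit 0, nat_lit 0, nat_lit 290, nat_lit 0, nat_lit 284551, [nat_lit 4688000000, nat_lit 6250000000, nat_lit 9842000000], [], [nat_lit 18981845042, nat_lit 19748697238, nat_lit 14970994452, nat_lit 15546603050, nat_lit 23024289373, nat_lit 24103546136, nat_lit 18453754788, nat_lit 19041532068], nat_lit 1271250, nat_lit 1271250, nat_lit 88400, nat_lit 490000, nat_lit 1271250, nat_lit 1271250, [nat_lit 1100000, nat_lit 1442500, nat_lit 1271250], [nat_lit 11, nat_lit 40, nat_lit 20, nat_lit 80, nat_lit 1, nat_lit 401, nat_lit 175, nat_lit 11]⟩, ⟨p033_k8, nat_lit 0, nat_lit 0, nat_lit 0, nat_lit 0, nat_lit 0, [nat_lit 4688000000, nat_lit 6250000000, nat_lit 9842000000], [], [nat_lit 18616732441, nat_lit 19614280480, nat_lit 14554816704, nat_lit 15570876415, nat_lit 13929284412, nat_lit 14815075149, nat_lit 11347544532, nat_lit 12180061280], nat_lit 0, nat_lit 0, nat_lit 0, nat_lit 0, nat_lit 0, nat_lit 0,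 [], [nat_lit 11, nat_lit 40, nat_lit 20, nat_lit 80]⟩,
 zbF0, [⟨nat_lit 0, nat_lit 100, nat_lit 100, nat_lit 45, nat_lit 1273572052⟩, ⟨nat_lit 4, nat_lit 97, nat_lit 100, nat_lit 54, nat_lit 1277632642⟩]⟩
noncomputable def p033_l27 : Lf2 := ⟨nat_lit 0, nat_lit 2, [nat_lit 10, nat_lit 5, nat_lit 5, nat_lit 20], false, nat_lit 240, nat_lit 288, nat_lit 160, nat_lit 288, ⟨nat_lit 1000, nat_lit 0, nat_lit 0, nat_lit 0, nat_lit 0, nat_lit 0, nat_lit 0, nat_lit 0, nat_lit 0, nat_lit 0, nat_lit 0, nat_lit 0, nat_lit 0, nat_lit 0, nat_lit 0, nat_lit 0, false, false⟩,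
 nat_lit 0, nat_lit 15633, nat_lit 0, nat_lit 0, nat_lit 8276, nat_lit 6547, nat_lit 2600, nat_lit 0, nat_lit 0, nat_lit 0, nat_lit 0, nat_lit 0, nat_lit 0, nat_lit 0, nat_lit 0, nat_lit 0, nat_lit 0, nat_lit 0, [],
 ⟨p033_k0, nat_lit 0, nat_lit 0, nat_lit 208, nat_lit 0, nat_lit 271617, [nat_lit 4688000000, nat_lit 6250000000, nat_lit 7968000000], [], [nat_lit 18213275645, nat_lit 18936308184, nat_lit 15462392080, nat_lit 16143038204, nat_lit 22565394975, nat_lit 23309949986, nat_lit 19003998977, nat_lit 19711937872], nat_lit 1271250, nat_lit 1271250, nat_lit 88400, nat_lit 490000, nat_lit 1271250, nat_lit 1271250, [nat_lit 1100000, nat_lit 1442500, nat_lit 1271250], [nat_lit 9, nat_lit 40, nat_lit 20, nat_lit 80, nat_lit 2, nat_lit 226, nat_lit 20, nat_lit 7]⟩, ⟨p033_k0, nat_lit 0, nat_lit 0, nat_lit 0, nat_lit 0, nat_lit 0, [nat_lit 4688000000, nat_lit 6250000000, nat_lit 7968000000], [], [nat_lit 11132011796,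 nat_lit 12131874208, nat_lit 8971858100, nat_lit 9919323823, nat_lit 20213996185, nat_lit 20925667637, nat_lit 17652513364, nat_lit 18330404426], nat_lit 0, nat_lit 0, nat_lit 0, nat_lit 0, nat_lit 0, nat_lit 0, [], [nat_lit 9, nat_lit 40, nat_lit 20, nat_lit 80]⟩,
 zbF0, [⟨nat_lit 0, nat_lit 100, nat_lit 100, nat_lit 50, nat_lit 362662615⟩, ⟨nat_lit 4, nat_lit 97, nat_lit 100, nat_lit 54, nat_lit 644746673⟩, ⟨nat_lit 7, nat_lit 97, nat_lit 100, nat_lit 54, nat_lit 432895684⟩, ⟨nat_lit 11, nat_lit 100, nat_lit 95, nat_lit 43, nat_lit 799145868⟩]⟩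
noncomputable def p033_l28 : Lf2 := ⟨nat_lit 0, nat_lit 4, [nat_lit 38, nat_lit 5, nat_lit 5, nat_lit 20], true, nat_lit 240, nat_lit 260, nat_lit 160, nat_lit 288, ⟨nat_lit 0, nat_lit 0, nat_lit 1000, nat_lit 6, nat_lit 77, nat_lit 1000, nat_lit 168, nat_lit 1000, nat_lit 212817, nat_lit 328, nat_lit 56067, nat_lit 273, nat_lit 53716967, nat_lit 0, nat_lit 0, nat_lit 3193979, false, false⟩,
 nat_lit 0, nat_lit 8823, nat_lit 0, nat_lit 0, nat_lit 4670, nat_lit 0, nat_lit 0, nat_lit 0, nat_lit 0, nat_lit 0, nat_lit 0, nat_lit 0, nat_lit 0, nat_lit 24968747691474, nat_lit 63, nat_lit 731800, nat_lit 0, nat_lit 0, [(nat_lit 6, [(nat_lit 5, nat_lit 447), (nat_lit 6, nat_lit 553)])],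
 ⟨p033_k15, nat_lit 0, nat_lit 0, nat_lit 152, nat_lit 0, nat_lit 134812, [nat_lit 2489969201, nat_lit 66213467], [], [nat_lit 14709037773, nat_lit 14955853891, nat_lit 13997425508, nat_lit 14267090747, nat_lit 16087607273, nat_lit 16467251207, nat_lit 15192753662, nat_lit 15465124676], nat_lit 1271250, nat_lit 1271250, nat_lit 88400, nat_lit 230001, nat_lit 1271250, nat_lit 1271250, [nat_lit 1100000, nat_lit 1785000], [nat_lit 39, nat_lit 40, nat_lit 20, nat_lit 80, nat_lit 7, nat_lit 215, nat_lit 10, nat_lit 7]⟩, C1.Rw.none,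
 ⟨nat_lit 6224, nat_lit 6325, ⟨.ofNat (nat_lit 164319), .ofNat (nat_lit 213677), .ofNat (nat_lit 169661), .ofNat (nat_lit 219019), .ofNat (nat_lit 168651), .ofNat (nat_lit 217441), .ofNat (nat_lit 173990), .ofNat (nat_lit 222780)⟩, ⟨.ofNat (nat_lit 389952), .ofNat (nat_lit 431084), .ofNat (nat_lit 411320), .ofNat (nat_lit 452452), .ofNat (nat_lit 389106), .ofNat (nat_lit 429765), .ofNat (nat_lit 410463), .ofNat (nat_lit 451122)⟩⟩, [⟨nat_lit 0, nat_lit 100, nat_lit 100, nat_lit 45, nat_lit 259955351⟩, ⟨nat_lit 4, nat_lit 96, nat_lit 100, nat_lit 54, nat_lit 580996923⟩]⟩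
noncomputable def p033_l29 : Lf2 := ⟨nat_lit 0, nat_lit 4, [nat_lit 38, nat_lit 5, nat_lit 5, nat_lit 20], false, nat_lit 240, nat_lit 260, nat_lit 160, nat_lit 288, ⟨nat_lit 151, nat_lit 0, nat_lit 849, nat_lit 6, nat_lit 80, nat_lit 849, nat_lit 168, nat_lit 849, nat_lit 240009, nat_lit 335, nat_lit 60000, nat_lit 275, nat_lit 53594528, nat_lit 0, nat_lit 0, nat_lit 3228346, false, false⟩,
 nat_lit 0, nat_lit 9908, nat_lit 0, nat_lit 0, nat_lit 5374, nat_lit 988, nat_lit 0, nat_lit 0, nat_lit 0, nat_lit 0, nat_lit 0, nat_lit 0, nat_lit 0, nat_lit 11968348620582, nat_lit 18, nat_lit 849000, nat_lit 0, nat_lit 0, [(nat_lit 6, [(nat_lit 6, nat_lit 849)])],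
 ⟨p033_k16, nat_lit 0, nat_lit 0, nat_lit 153, nat_lit 0, nat_lit 179119, [nat_lit 2298254001, nat_lit 113415200], [], [nat_lit 15755498363, nat_lit 16066024045, nat_lit 14713313493, nat_lit 14979449316, nat_lit 17064678656, nat_lit 17358235804, nat_lit 15965194610, nat_lit 16255395280], nat_lit 1271250, nat_lit 1271250, nat_lit 88400, nat_lit 230001, nat_lit 1271250, nat_lit 1271250, [nat_lit 1100000, nat_lit 1785000], [nat_lit 39, nat_lit 40, nat_lit 20, nat_lit 80, nat_lit 7, nat_lit 215, nat_lit 10, nat_lit 7]⟩, ⟨p033_k15, nat_lit 0, nat_lit 0, nat_lit 0, nat_lit 0, nat_lit 0, [nat_lit 707888000, nat_lit 1203168000], [], [nat_lit 1681573367, nat_lit 1832495626, nat_lit 1478570692, nat_lit 1627404343, nat_lit 3052512310, nat_lit 3159939449, nat_lit 2836190384, nat_lit 2942379442], nat_lit 0, nat_lit 0, nat_lit 0, nat_lit 0, nat_lit 0, nat_lit 0, [], [nat_lit 39, nat_lit 40, nat_lit 20, nat_lit 80]⟩,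
 ⟨nat_lit 6123, nat_lit 6225, ⟨.ofNat (nat_lit 168651), .ofNat (nat_lit 217441), .ofNat (nat_lit 179329), .ofNat (nat_lit 228119), .ofNat (nat_lit 172944), .ofNat (nat_lit 221172), .ofNat (nat_lit 183618), .ofNat (nat_lit 231846)⟩, ⟨.ofNat (nat_lit 389106), .ofNat (nat_lit 429765), .ofNat (nat_lit 410463), .ofNat (nat_lit 451122), .ofNat (nat_lit 388246), .ofNat (nat_lit 428436), .ofNat (nat_lit 409594), .ofNat (nat_lit 449785)⟩⟩, [⟨nat_lit 0, nat_lit 100, nat_lit 100, nat_lit 50, nat_lit 477124884⟩, ⟨nat_lit 4, nat_lit 98, nat_lit 100, nat_lit 54, nat_lit 571964394⟩, ⟨nat_lit 7, nat_lit 97, nat_lit 100, nat_lit 54, nat_lit 156570988⟩]⟩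
noncomputable def p033_l30 : Lf2 := ⟨nat_lit 0, nat_lit 5, [nat_lit 4, nat_lit 5, nat_lit 5, nat_lit 20], true, nat_lit 240, nat_lit 260, nat_lit 160, nat_lit 288, ⟨nat_lit 0, nat_lit 0, nat_lit 1000, nat_lit 6, nat_lit 79, nat_lit 1000, nat_lit 168, nat_lit 1000, nat_lit 212817, nat_lit 328, nat_lit 60000, nat_lit 275, nat_lit 53623652, nat_lit 0, nat_lit 0, nat_lit 3219039, false, false⟩,
 nat_lit 0, nat_lit 8367, nat_lit 0, nat_lit 0, nat_lit 4429, nat_lit 0, nat_lit 0, nat_lit 0, nat_lit 0, nat_lit 0, nat_lit 0, nat_lit 0, nat_lit 0, nat_lit 19002915213826, nat_lit 141, nat_lit 950200, nat_lit 0, nat_lit 0, [(nat_lit 6, [(nat_lit 5, nat_lit 83), (nat_lit 6, nat_lit 917)])],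
 ⟨p033_k8, nat_lit 0, nat_lit 0, nat_lit 170, nat_lit 0, nat_lit 109308, [nat_lit 3269630934, nat_lit 2920540801, nat_lit 167764799], [], [nat_lit 14720161769, nat_lit 15230664179, nat_lit 13868129751, nat_lit 14382486288, nat_lit 15948270327, nat_lit 16687470606, nat_lit 14962458540, nat_lit 15560080057], nat_lit 1271250, nat_lit 1271250, nat_lit 88400, nat_lit 230001, nat_lit 1271250, nat_lit 1271250, [nat_lit 1100000, nat_lit 1442500, nat_lit 1271250], [nat_lit 11, nat_lit 40, nat_lit 20, nat_lit 80, nat_lit 1, nat_lit 373, nat_lit 150, nat_lit 10]⟩, C1.Rw.none,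
 ⟨nat_lit 6123, nat_lit 6325, ⟨.ofNat (nat_lit 164319), .ofNat (nat_lit 213677), .ofNat (nat_lit 175003), .ofNat (nat_lit 224361), .ofNat (nat_lit 172944), .ofNat (nat_lit 221172), .ofNat (nat_lit 183618), .ofNat (nat_lit 231846)⟩, ⟨.ofNat (nat_lit 389952), .ofNat (nat_lit 431084), .ofNat (nat_lit 411320), .ofNat (nat_lit 452452), .ofNat (nat_lit 388246), .ofNat (nat_lit 428436), .ofNat (nat_lit 409594), .ofNat (nat_lit 449785)⟩⟩, [⟨nat_lit 0, nat_lit 100, nat_lit 100, nat_lit 50, nat_lit 288566406⟩, ⟨nat_lit 4, nat_lit 97, nat_lit 100, nat_lit 54, nat_lit 569340139⟩]⟩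
noncomputable def p033_l31 : Lf2 := ⟨nat_lit 0, nat_lit 5, [nat_lit 4, nat_lit 5, nat_lit 5, nat_lit 20], false, nat_lit 260, nat_lit 288, nat_lit 160, nat_lit 268, ⟨nat_lit 1000, nat_lit 0, nat_lit 0, nat_lit 0, nat_lit 0, nat_lit 0, nat_lit 0, nat_lit 0, nat_lit 0, nat_lit 0, nat_lit 0, nat_lit 0, nat_lit 0, nat_lit 0, nat_lit 0, nat_lit 0, false, false⟩,
 nat_lit 0, nat_lit 18240, nat_lit 0, nat_lit 0, nat_lit 9656, nat_lit 6930, nat_lit 2864, nat_lit 0, nat_lit 0, nat_lit 0, nat_lit 0, nat_lit 0, nat_lit 0, nat_lit 15078354017307, nat_lit 0, nat_lit 0, nat_lit 0, nat_lit 0, [],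
 ⟨p033_k8, nat_lit 0, nat_lit 0, nat_lit 209, nat_lit 0, nat_lit 189636, [nat_lit 4688000000, nat_lit 6250000000, nat_lit 9842000000], [], [nat_lit 19443022225, nat_lit 20146652819, nat_lit 17149870712, nat_lit 17899003624, nat_lit 22764055326, nat_lit 23821308993, nat_lit 19873948961, nat_lit 20910001997], nat_lit 1271250, nat_lit 1271250, nat_lit 88400, nat_lit 230001, nat_lit 1271250, nat_lit 1271250, [nat_lit 1100000, nat_lit 1442500, nat_lit 1271250], [nat_lit 11, nat_lit 40, nat_lit 20, nat_lit 80, nat_lit 1, nat_lit 373, nat_lit 150, nat_lit 10]⟩, ⟨p033_k8, nat_lit 0, nat_lit 0, nat_lit 0, nat_lit 0, nat_lit 0, [nat_lit 4688000000, nat_lit 6250000000, nat_lit 9842000000], [], [nat_lit 10721691641, nat_lit 11758099682, nat_lit 9273763560, nat_lit 10295767690, nat_lit 18260078373, nat_lit 19181968636, nat_lit 16746649326, nat_lit 17522075928], nat_lit 0, nat_lit 0, nat_lit 0, nat_lit 0, nat_lit 0, nat_lit 0,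 [], [nat_lit 11, nat_lit 40, nat_lit 20, nat_lit 80]⟩,
 zbF0, [⟨nat_lit 0, nat_lit 100, nat_lit 100, nat_lit 50, nat_lit 409356165⟩, ⟨nat_lit 4, nat_lit 97, nat_lit 100, nat_lit 54, nat_lit 1230467629⟩, ⟨nat_lit 11, nat_lit 100, nat_lit 93, nat_lit 44, nat_lit 688908191⟩, ⟨nat_lit 11, nat_lit 100, nat_lit 100, nat_lit 53, nat_lit 505736012⟩]⟩
noncomputable def p033_l32 : Lf2 := ⟨nat_lit 0, nat_lit 5, [nat_lit 4, nat_lit 5, nat_lit 5, nat_lit 20], false, nat_lit 240, nat_lit 288, nat_lit 160, nat_lit 288, ⟨nat_lit 1000, nat_lit 0, nat_lit 0, nat_lit 0, nat_lit 0, nat_lit 0, nat_lit 0, nat_lit 0, nat_lit 0, nat_lit 0, nat_lit 0, nat_lit 0, nat_lit 0, nat_lit 0, nat_lit 0, nat_lit 0, false, false⟩,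
 nat_lit 0, nat_lit 24996, nat_lit 0, nat_lit 0, nat_lit 13233, nat_lit 6915, nat_lit 1630, nat_lit 0, nat_lit 0, nat_lit 0, nat_lit 0, nat_lit 0, nat_lit 0, nat_lit 0, nat_lit 0, nat_lit 0, nat_lit 0, nat_lit 0, [],
 ⟨p033_k6, nat_lit 0, nat_lit 0, nat_lit 197, nat_lit 0, nat_lit 189636, [nat_lit 4688000000, nat_lit 7968000001, nat_lit 9842000000], [], [nat_lit 16814897904, nat_lit 17722842848, nat_lit 13701885581, nat_lit 14706515294, nat_lit 22159796134, nat_lit 23036535559, nat_lit 18954402716, nat_lit 19794957808], nat_lit 1271250, nat_lit 1271250, nat_lit 230001, nat_lit 490000, nat_lit 1271250, nat_lit 1271250, [nat_lit 1100000, nat_lit 1785000, nat_lit 1271250], [nat_lit 29, nat_lit 40, nat_lit 20, nat_lit 80, nat_lit 17, nat_lit 401, nat_lit 175, nat_lit 11]⟩, ⟨p033_k6, nat_lit 0, nat_lit 0, nat_lit 0, nat_lit 0, nat_lit 0, [nat_lit 4688000000, nat_lit 7968000000, nat_lit 9842000000], [], [nat_lit 9293847180,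 nat_lit 10314442195, nat_lit 8385376500, nat_lit 9365744735, nat_lit 18556559248, nat_lit 19281475947, nat_lit 17322348180, nat_lit 18020632403], nat_lit 0, nat_lit 0, nat_lit 0, nat_lit 0, nat_lit 0, nat_lit 0, [], [nat_lit 29, nat_lit 40, nat_lit 20, nat_lit 80]⟩,
 zbF0, [⟨nat_lit 4, nat_lit 97, nat_lit 100, nat_lit 54, nat_lit 1157280214⟩, ⟨nat_lit 7, nat_lit 97, nat_lit 100, nat_lit 54, nat_lit 744778010⟩, ⟨nat_lit 11, nat_lit 100, nat_lit 100, nat_lit 77, nat_lit 214044522⟩]⟩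
noncomputable def p033_l33 : Lf2 := ⟨nat_lit 0, nat_lit 8, [nat_lit 50, nat_lit 5, nat_lit 5, nat_lit 20], true, nat_lit 240, nat_lit 260, nat_lit 0, nat_lit 288, ⟨nat_lit 0, nat_lit 0, nat_lit 1000, nat_lit 6, nat_lit 96, nat_lit 1000, nat_lit 168, nat_lit 1000, nat_lit 212817, nat_lit 328, nat_lit 86400, nat_lit 287, nat_lit 52584306, nat_lit 0, nat_lit 0, nat_lit 3455741, false, false⟩,
 nat_lit 0, nat_lit 8438, nat_lit 0, nat_lit 0, nat_lit 4466, nat_lit 0, nat_lit 0, nat_lit 0, nat_lit 0, nat_lit 0, nat_lit 0, nat_lit 0, nat_lit 0, nat_lit 12888616109318, nat_lit 137, nat_lit 923800, nat_lit 0, nat_lit 0, [(nat_lit 6, [(nat_lit 5, nat_lit 127), (nat_lit 6, nat_lit 873)])],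
 ⟨p033_k17, nat_lit 0, nat_lit 0, nat_lit 158, nat_lit 0, nat_lit 78008, [nat_lit 3225014401, nat_lit 2839555201, nat_lit 139611199], [], [nat_lit 14794116678, nat_lit 15306334267, nat_lit 13495731882, nat_lit 13997692816, nat_lit 15969662306, nat_lit 16711946572, nat_lit 14557894628, nat_lit 15035555070], nat_lit 1271250, nat_lit 1271250, nat_lit 88400, nat_lit 490000, nat_lit 1271250, nat_lit 1271250, [nat_lit 1100000, nat_lit 1442500, nat_lit 1271250], [nat_lit 11, nat_lit 40, nat_lit 20, nat_lit 80, nat_lit 1, nat_lit 373, nat_lit 150, nat_lit 10]⟩, C1.Rw.none,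
 ⟨nat_lit 6123, nat_lit 6325, ⟨.ofNat (nat_lit 164319), .ofNat (nat_lit 295942), .ofNat (nat_lit 175003), .ofNat (nat_lit 306625), .ofNat (nat_lit 172944), .ofNat (nat_lit 301553), .ofNat (nat_lit 183618), .ofNat (nat_lit 312227)⟩, ⟨.ofNat (nat_lit 389952), .ofNat (nat_lit 431084), .ofNat (nat_lit 411320), .ofNat (nat_lit 452452), .ofNat (nat_lit 388246), .ofNat (nat_lit 428436), .ofNat (nat_lit 409594), .ofNat (nat_lit 449785)⟩⟩, [⟨nat_lit 0, nat_lit 100, nat_lit 100, nat_lit 50, nat_lit 217297793⟩, ⟨nat_lit 4, nat_lit 97, nat_lit 100, nat_lit 54, nat_lit 543666083⟩]⟩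
noncomputable def p033_l34 : Lf2 := ⟨nat_lit 0, nat_lit 8, [nat_lit 50, nat_lit 5, nat_lit 5, nat_lit 20], true, nat_lit 260, nat_lit 288, nat_lit 0, nat_lit 288, ⟨nat_lit 0, nat_lit 0, nat_lit 1000, nat_lit 6, nat_lit 96, nat_lit 1000, nat_lit 188, nat_lit 1000, nat_lit 29345, nat_lit 255, nat_lit 86400, nat_lit 287, nat_lit 50754559, nat_lit 0, nat_lit 0, nat_lit 3675006, false, false⟩,
 nat_lit 0, nat_lit 8333, nat_lit 0, nat_lit 317161, nat_lit 4411, nat_lit 0, nat_lit 0, nat_lit 0, nat_lit 0, nat_lit 0, nat_lit 0, nat_lit 0, nat_lit 0, nat_lit 400000000000000, nat_lit 126, nat_lit 839800, nat_lit 0, nat_lit 0, [(nat_lit 6, [(nat_lit 5, nat_lit 267), (nat_lit 6, nat_lit 733)])],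
 ⟨p033_k17, nat_lit 0, nat_lit 0, nat_lit 170, nat_lit 0, nat_lit 78008, [nat_lit 3110689067, nat_lit 2616419201, nat_lit 98395199], [], [nat_lit 16163790444, nat_lit 16675563379, nat_lit 14723811939, nat_lit 15199120430, nat_lit 18259343857, nat_lit 18935718841, nat_lit 16339672065, nat_lit 16991842866], nat_lit 1271250, nat_lit 1271250, nat_lit 88400, nat_lit 490000, nat_lit 1271250, nat_lit 1271250, [nat_lit 1100000, nat_lit 1442500, nat_lit 1271250], [nat_lit 11, nat_lit 40, nat_lit 20, nat_lit 80, nat_lit 1, nat_lit 401, nat_lit 175, nat_lit 11]⟩, C1.Rw.none,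
 ⟨nat_lit 6123, nat_lit 6325, ⟨.ofNat (nat_lit 164319), .ofNat (nat_lit 295942), .ofNat (nat_lit 175003), .ofNat (nat_lit 306625), .ofNat (nat_lit 172944), .ofNat (nat_lit 301553), .ofNat (nat_lit 183618), .ofNat (nat_lit 312227)⟩, ⟨.ofNat (nat_lit 431084), .ofNat (nat_lit 488669), .ofNat (nat_lit 452452), .ofNat (nat_lit 510037), .ofNat (nat_lit 428436), .ofNat (nat_lit 484703), .ofNat (nat_lit 449785), .ofNat (nat_lit 506051)⟩⟩, [⟨nat_lit 0, nat_lit 100, nat_lit 100, nat_lit 50, nat_lit 229380901⟩, ⟨nat_lit 16, nat_lit 100, nat_lit 97, nat_lit 54, nat_lit 10309278351⟩, ⟨nat_lit 4, nat_lit 97, nat_lit 100, nat_lit 54, nat_lit 10309278351⟩]⟩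
noncomputable def p033_l35 : Lf2 := ⟨nat_lit 1, nat_lit 10, [nat_lit 0, nat_lit 5, nat_lit 5, nat_lit 20], false, nat_lit 240, nat_lit 288, nat_lit 0, nat_lit 288, zbN0,
 nat_lit 0, nat_lit 0, nat_lit 0, nat_lit 0, nat_lit 0, nat_lit 0, nat_lit 0, nat_lit 0, nat_lit 0, nat_lit 0, nat_lit 0, nat_lit 0, nat_lit 0, nat_lit 0, nat_lit 0, nat_lit 0, nat_lit 0, nat_lit 0, [],
 C1.Rw.none, C1.Rw.none,
 zbF0, []⟩
noncomputable def p033_l36 : Lf2 := ⟨nat_lit 0, nat_lit 5, [nat_lit 4, nat_lit 5, nat_lit 5, nat_lit 20], false, nat_lit 240, nat_lit 280, nat_lit 0, nat_lit 160, ⟨nat_lit 1000, nat_lit 0, nat_lit 0, nat_lit 0, nat_lit 0, nat_lit 0, nat_lit 0, nat_lit 0, nat_lit 0, nat_lit 0, nat_lit 0, nat_lit 0, nat_lit 0, nat_lit 0, nat_lit 0, nat_lit 0, false, false⟩,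
 nat_lit 0, nat_lit 20731, nat_lit 0, nat_lit 0, nat_lit 11517, nat_lit 8329, nat_lit 777, nat_lit 0, nat_lit 0, nat_lit 3522, nat_lit 0, nat_lit 0, nat_lit 0, nat_lit 3107829021429, nat_lit 0, nat_lit 0, nat_lit 0, nat_lit 0, [],
 ⟨p033_k7, nat_lit 0, nat_lit 0, nat_lit 262, nat_lit 0, nat_lit 365315, [nat_lit 4688000000, nat_lit 6250000000, nat_lit 7968000000], [], [nat_lit 19474454558, nat_lit 20440449196, nat_lit 14851662457, nat_lit 15766097494, nat_lit 23546197336, nat_lit 24778664130, nat_lit 18703156446, nat_lit 19496902084], nat_lit 1271250, nat_lit 1271250, nat_lit 111251, nat_lit 490000, nat_lit 1271250, nat_lit 1271250, [nat_lit 1100000, nat_lit 1442500, nat_lit 1271250], [nat_lit 9, nat_lit 40, nat_lit 20, nat_lit 80, nat_lit 2, nat_lit 226, nat_lit 20, nat_lit 7]⟩, ⟨p033_k8, nat_lit 0, nat_lit 0, nat_lit 0, nat_lit 0, nat_lit 0, [nat_lit 4688000000, nat_lit 6250000000, nat_lit 9842000000], [], [nat_lit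 18328231792, nat_lit 20317032464, nat_lit 14628307904, nat_lit 16652456426, nat_lit 13642065472, nat_lit 15404416288, nat_lit 11460519132, nat_lit 13119371428], nat_lit 0, nat_lit 0, nat_lit 0, nat_lit 0, nat_lit 0, nat_lit 0, [], [nat_lit 11, nat_lit 40, nat_lit 20, nat_lit 80]⟩,
 zbF0, [⟨nat_lit 0, nat_lit 100, nat_lit 99, nat_lit 52, nat_lit 1321756894⟩, ⟨nat_lit 16, nat_lit 100, nat_lit 100, nat_lit 55, nat_lit 1114410638⟩, ⟨nat_lit 16, nat_lit 100, nat_lit 95, nat_lit 62, nat_lit 210039761⟩]⟩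
noncomputable def p033_l37 : Lf2 := ⟨nat_lit 0, nat_lit 5, [nat_lit 4, nat_lit 5, nat_lit 5, nat_lit 20], false, nat_lit 240, nat_lit 280, nat_lit 160, nat_lit 288, ⟨nat_lit 1000, nat_lit 0, nat_lit 0, nat_lit 0, nat_lit 0, nat_lit 0, nat_lit 0, nat_lit 0, nat_lit 0, nat_lit 0, nat_lit 0, nat_lit 0, nat_lit 0, nat_lit 0, nat_lit 0, nat_lit 0, false, false⟩,
 nat_lit 0, nat_lit 15912, nat_lit 0, nat_lit 0, nat_lit 8839, nat_lit 6522, nat_lit 2579, nat_lit 0, nat_lit 0, nat_lit 0, nat_lit 0, nat_lit 0, nat_lit 0, nat_lit 2012652893456, nat_lit 0, nat_lit 0, nat_lit 0, nat_lit 0, [],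
 ⟨p033_k7, nat_lit 0, nat_lit 0, nat_lit 262, nat_lit 0, nat_lit 365315, [nat_lit 4688000000, nat_lit 6250000000, nat_lit 7968000000], [], [nat_lit 18363575406, nat_lit 19048354228, nat_lit 15954004793, nat_lit 16477016070, nat_lit 21457068112, nat_lit 22486590710, nat_lit 18358320258, nat_lit 18925971604], nat_lit 1271250, nat_lit 1271250, nat_lit 111251, nat_lit 490000, nat_lit 1271250, nat_lit 1271250, [nat_lit 1100000, nat_lit 1442500, nat_lit 1271250], [nat_lit 9, nat_lit 40, nat_lit 20, nat_lit 80, nat_lit 2, nat_lit 226, nat_lit 20, nat_lit 7]⟩, ⟨p033_k8, nat_lit 0, nat_lit 0, nat_lit 0, nat_lit 0, nat_lit 0, [nat_lit 4688000000, nat_lit 6250000000, nat_lit 9842000000], [], [nat_lit 10806658128, nat_lit 12799693616, nat_lit 9011700600, nat_lit 10902161596, nat_lit 19869028036, nat_lit 21288753891, nat_lit 17674943064, nat_lit 19027954377], nat_lit 0, nat_lit 0, nat_lit 0, nat_lit 0, nat_lit 0, nat_lit 0, [],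 [nat_lit 11, nat_lit 40, nat_lit 20, nat_lit 80]⟩,
 zbF0, [⟨nat_lit 0, nat_lit 100, nat_lit 99, nat_lit 52, nat_lit 545444221⟩, ⟨nat_lit 4, nat_lit 100, nat_lit 100, nat_lit 55, nat_lit 669122580⟩, ⟨nat_lit 19, nat_lit 100, nat_lit 99, nat_lit 54, nat_lit 462787941⟩, ⟨nat_lit 11, nat_lit 100, nat_lit 96, nat_lit 42, nat_lit 297652608⟩, ⟨nat_lit 23, nat_lit 100, nat_lit 96, nat_lit 69, nat_lit 258552700⟩]⟩
noncomputable def p033_l38 : Lf2 := ⟨nat_lit 0, nat_lit 10, [nat_lit 0, nat_lit 5, nat_lit 5, nat_lit 20], true, nat_lit 240, nat_lit 260, nat_lit 0, nat_lit 288, ⟨nat_lit 0, nat_lit 0, nat_lit 1000, nat_lit 6, nat_lit 84, nat_lit 1000, nat_lit 167, nat_lit 1000, nat_lit 264600, nat_lit 341, nat_lit 66150, nat_lit 278, nat_lit 53370251, nat_lit 0, nat_lit 0, nat_lit 3285780, false, false⟩,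
 nat_lit 0, nat_lit 8494, nat_lit 0, nat_lit 0, nat_lit 4718, nat_lit 0, nat_lit 303, nat_lit 0, nat_lit 0, nat_lit 0, nat_lit 0, nat_lit 0, nat_lit 0, nat_lit 18571839136424, nat_lit 83, nat_lit 502000, nat_lit 0, nat_lit 0, [(nat_lit 6, [(nat_lit 5, nat_lit 830), (nat_lit 6, nat_lit 170)])],
 ⟨p033_k18, nat_lit 0, nat_lit 0, nat_lit 179, nat_lit 0, nat_lit 124350, [nat_lit 2765388001, nat_lit 879237334, nat_lit 27920000], [], [nat_lit 15124150564, nat_lit 15385979702, nat_lit 14442913487, nat_lit 14687260795, nat_lit 16569138132, nat_lit 16950783563, nat_lit 15654621494, nat_lit 16033155321], nat_lit 1271250, nat_lit 1271250, nat_lit 111251, nat_lit 230001, nat_lit 1271250, nat_lit 1271250, [nat_lit 1100000, nat_lit 1785000, nat_lit 1271250], [nat_lit 29, nat_lit 40, nat_lit 20, nat_lit 80, nat_lit 17, nat_lit 373, nat_lit 150, nat_lit 10]⟩, C1.Rw.none,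
 ⟨nat_lit 6020, nat_lit 6124, ⟨.ofNat (nat_lit 180982), .ofNat (nat_lit 221172), .ofNat (nat_lit 196993), .ofNat (nat_lit 237183), .ofNat (nat_lit 185145), .ofNat (nat_lit 224872), .ofNat (nat_lit 201152), .ofNat (nat_lit 240879)⟩, ⟨.ofNat (nat_lit 388246), .ofNat (nat_lit 428436), .ofNat (nat_lit 409594), .ofNat (nat_lit 449785), .ofNat (nat_lit 387371), .ofNat (nat_lit 427097), .ofNat (nat_lit 408713), .ofNat (nat_lit 448439)⟩⟩, [⟨nat_lit 0, nat_lit 100, nat_lit 100, nat_lit 55, nat_lit 284650900⟩, ⟨nat_lit 16, nat_lit 100, nat_lit 99, nat_lit 55, nat_lit 609168439⟩]⟩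
noncomputable def p033_l39 : Lf2 := ⟨nat_lit 0, nat_lit 10, [nat_lit 0, nat_lit 5, nat_lit 5, nat_lit 20], true, nat_lit 240, nat_lit 260, nat_lit 0, nat_lit 288, ⟨nat_lit 0, nat_lit 0, nat_lit 1000, nat_lit 6, nat_lit 87, nat_lit 1000, nat_lit 167, nat_lit 1000, nat_lit 260417, nat_lit 340, nat_lit 70417, nat_lit 280, nat_lit 53244937, nat_lit 0, nat_lit 0, nat_lit 3318869, false, false⟩,
 nat_lit 0, nat_lit 8316, nat_lit 0, nat_lit 0, nat_lit 4729, nat_lit 0, nat_lit 373, nat_lit 0, nat_lit 0, nat_lit 0, nat_lit 0, nat_lit 0, nat_lit 0, nat_lit 17034138502969, nat_lit 69, nat_lit 400000, nat_lit 0, nat_lit 0, [(nat_lit 6, [(nat_lit 5, nat_lit 1000)])],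
 ⟨p033_k19, nat_lit 0, nat_lit 0, nat_lit 202, nat_lit 0, nat_lit 171444, [nat_lit 2521600001, nat_lit 679600001, nat_lit 7200000], [], [nat_lit 15335698781, nat_lit 15710729104, nat_lit 14633457160, nat_lit 14895193992, nat_lit 16957701639, nat_lit 17339805957, nat_lit 16037208926, nat_lit 16416197894], nat_lit 1271250, nat_lit 1271250, nat_lit 111251, nat_lit 230001, nat_lit 1271250, nat_lit 1271250, [nat_lit 1100000, nat_lit 1785000, nat_lit 1271250], [nat_lit 29, nat_lit 40, nat_lit 20, nat_lit 80, nat_lit 17, nat_lit 373, nat_lit 150, nat_lit 10]⟩, C1.Rw.none,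
 ⟨nat_lit 5916, nat_lit 6021, ⟨.ofNat (nat_lit 185145), .ofNat (nat_lit 224872), .ofNat (nat_lit 206488), .ofNat (nat_lit 246214), .ofNat (nat_lit 189276), .ofNat (nat_lit 228543), .ofNat (nat_lit 210615), .ofNat (nat_lit 249882)⟩, ⟨.ofNat (nat_lit 387371), .ofNat (nat_lit 427097), .ofNat (nat_lit 408713), .ofNat (nat_lit 448439), .ofNat (nat_lit 386479), .ofNat (nat_lit 425745), .ofNat (nat_lit 407818), .ofNat (nat_lit 447085)⟩⟩, [⟨nat_lit 0, nat_lit 100, nat_lit 100, nat_lit 60, nat_lit 313188066⟩, ⟨nat_lit 4, nat_lit 100, nat_lit 99, nat_lit 55, nat_lit 658641852⟩]⟩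
noncomputable def p033_l40 : Lf2 := ⟨nat_lit 0, nat_lit 10, [nat_lit 0, nat_lit 5, nat_lit 5, nat_lit 20], true, nat_lit 260, nat_lit 280, nat_lit 0, nat_lit 268, ⟨nat_lit 0, nat_lit 0, nat_lit 1000, nat_lit 6, nat_lit 84, nat_lit 1000, nat_lit 183, nat_lit 1000, nat_lit 51683, nat_lit 270, nat_lit 66150, nat_lit 278, nat_lit 51846747, nat_lit 0, nat_lit 0, nat_lit 3472335, false, false⟩,
 nat_lit 0, nat_lit 8113, nat_lit 0, nat_lit 281, nat_lit 4507, nat_lit 0, nat_lit 315, nat_lit 0, nat_lit 0, nat_lit 0, nat_lit 0, nat_lit 0, nat_lit 0, nat_lit 18600684349235, nat_lit 69, nat_lit 400000, nat_lit 0, nat_lit 0, [(nat_lit 6, [(nat_lit 5, nat_lit 1000)])],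
 ⟨p033_k18, nat_lit 0, nat_lit 0, nat_lit 188, nat_lit 0, nat_lit 124350, [nat_lit 2521600001, nat_lit 679600001, nat_lit 7200000], [], [nat_lit 16575099766, nat_lit 16818904728, nat_lit 15911100499, nat_lit 16152489654, nat_lit 18077640256, nat_lit 18428257743, nat_lit 17202485955, nat_lit 17550444021], nat_lit 1271250, nat_lit 1271250, nat_lit 111251, nat_lit 230001, nat_lit 1271250, nat_lit 1271250, [nat_lit 1100000, nat_lit 1785000, nat_lit 1271250], [nat_lit 29, nat_lit 40, nat_lit 20, nat_lit 80, nat_lit 17, nat_lit 373, nat_lit 150, nat_lit 10]⟩, C1.Rw.none,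
 ⟨nat_lit 6020, nat_lit 6124, ⟨.ofNat (nat_lit 180982), .ofNat (nat_lit 221172), .ofNat (nat_lit 196993), .ofNat (nat_lit 237183), .ofNat (nat_lit 185145), .ofNat (nat_lit 224872), .ofNat (nat_lit 201152), .ofNat (nat_lit 240879)⟩, ⟨.ofNat (nat_lit 428436), .ofNat (nat_lit 468627), .ofNat (nat_lit 449785), .ofNat (nat_lit 489975), .ofNat (nat_lit 427097), .ofNat (nat_lit 466823), .ofNat (nat_lit 448439), .ofNat (nat_lit 488166)⟩⟩, [⟨nat_lit 0, nat_lit 100, nat_lit 100, nat_lit 55, nat_lit 276261334⟩, ⟨nat_lit 16, nat_lit 100, nat_lit 95, nat_lit 62, nat_lit 609879144⟩]⟩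
noncomputable def p033_l41 : Lf2 := ⟨nat_lit 0, nat_lit 10, [nat_lit 0, nat_lit 5, nat_lit 5, nat_lit 20], true, nat_lit 260, nat_lit 272, nat_lit 0, nat_lit 268, ⟨nat_lit 0, nat_lit 0, nat_lit 1000, nat_lit 6, nat_lit 87, nat_lit 1000, nat_lit 180, nat_lit 1000, nat_lit 88902, nat_lit 288, nat_lit 70417, nat_lit 280, nat_lit 52048643, nat_lit 0, nat_lit 0, nat_lit 3467554, false, false⟩,
 nat_lit 0, nat_lit 8006, nat_lit 0, nat_lit 0, nat_lit 4553, nat_lit 0, nat_lit 306, nat_lit 0, nat_lit 0, nat_lit 0, nat_lit 0, nat_lit 0, nat_lit 0, nat_lit 16376345693931, nat_lit 69, nat_lit 400000, nat_lit 0, nat_lit 0, [(nat_lit 6, [(nat_lit 5, nat_lit 1000)])],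
 ⟨p033_k19, nat_lit 0, nat_lit 0, nat_lit 207, nat_lit 0, nat_lit 171444, [nat_lit 2521600001, nat_lit 679600001, nat_lit 7200000], [], [nat_lit 16847012423, nat_lit 17221774549, nat_lit 16075794030, nat_lit 16345134261, nat_lit 17818336388, nat_lit 18179657522, nat_lit 16934543724, nat_lit 17293039460], nat_lit 1271250, nat_lit 1271250, nat_lit 111251, nat_lit 230001, nat_lit 1271250, nat_lit 1271250, [nat_lit 1100000, nat_lit 1785000, nat_lit 1271250], [nat_lit 29, nat_lit 40, nat_lit 20, nat_lit 80, nat_lit 17, nat_lit 373, nat_lit 150, nat_lit 10]⟩, C1.Rw.none,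
 ⟨nat_lit 5916, nat_lit 6021, ⟨.ofNat (nat_lit 185145), .ofNat (nat_lit 224872), .ofNat (nat_lit 206488), .ofNat (nat_lit 246214), .ofNat (nat_lit 189276), .ofNat (nat_lit 228543), .ofNat (nat_lit 210615), .ofNat (nat_lit 249882)⟩, ⟨.ofNat (nat_lit 427097), .ofNat (nat_lit 450933), .ofNat (nat_lit 448439), .ofNat (nat_lit 472275), .ofNat (nat_lit 425745), .ofNat (nat_lit 449305), .ofNat (nat_lit 447085), .ofNat (nat_lit 470645)⟩⟩, [⟨nat_lit 0, nat_lit 100, nat_lit 100, nat_lit 60, nat_lit 328393292⟩, ⟨nat_lit 16, nat_lit 100, nat_lit 97, nat_lit 62, nat_lit 380448562⟩, ⟨nat_lit 4, nat_lit 100, nat_lit 99, nat_lit 55, nat_lit 246124528⟩]⟩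
noncomputable def p033_l42 : Lf2 := ⟨nat_lit 0, nat_lit 10, [nat_lit 0, nat_lit 5, nat_lit 5, nat_lit 20], true, nat_lit 240, nat_lit 280, nat_lit 0, nat_lit 288, ⟨nat_lit 0, nat_lit 0, nat_lit 1000, nat_lit 6, nat_lit 108, nat_lit 1000, nat_lit 175, nat_lit 1000, nat_lit 51683, nat_lit 270, nat_lit 109350, nat_lit 296, nat_lit 51050465, nat_lit 0, nat_lit 0, nat_lit 3717554, false, false⟩,
 nat_lit 0, nat_lit 9328, nat_lit 0, nat_lit 0, nat_lit 5182, nat_lit 0, nat_lit 0, nat_lit 0, nat_lit 0, nat_lit 0, nat_lit 0, nat_lit 0, nat_lit 0, nat_lit 25794038565654, nat_lit 119, nat_lit 784000, nat_lit 0, nat_lit 0, [(nat_lit 6, [(nat_lit 5, nat_lit 360), (nat_lit 6, nat_lit 640)])],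
 ⟨p033_k13, nat_lit 0, nat_lit 0, nat_lit 157, nat_lit 0, nat_lit 124350, [nat_lit 3827456000, nat_lit 9440000], [], [nat_lit 14509980498, nat_lit 14811232459, nat_lit 14040218778, nat_lit 14329648763, nat_lit 17552179830, nat_lit 17925529033, nat_lit 16501560433, nat_lit 16863727260], nat_lit 1271250, nat_lit 1271250, nat_lit 230001, nat_lit 490000, nat_lit 1271250, nat_lit 1271250, [nat_lit 1100000, nat_lit 2127500], [nat_lit 70, nat_lit 40, nat_lit 20, nat_lit 80, nat_lit 13, nat_lit 401, nat_lit 175, nat_lit 11]⟩, C1.Rw.none,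
 ⟨nat_lit 6020, nat_lit 6124, ⟨.ofNat (nat_lit 221172), .ofNat (nat_lit 301553), .ofNat (nat_lit 237183), .ofNat (nat_lit 317564), .ofNat (nat_lit 224872), .ofNat (nat_lit 304325), .ofNat (nat_lit 240879), .ofNat (nat_lit 320331)⟩, ⟨.ofNat (nat_lit 388246), .ofNat (nat_lit 468627), .ofNat (nat_lit 409594), .ofNat (nat_lit 489975), .ofNat (nat_lit 387371), .ofNat (nat_lit 466823), .ofNat (nat_lit 408713), .ofNat (nat_lit 488166)⟩⟩, [⟨nat_lit 4, nat_lit 99, nat_lit 100, nat_lit 55, nat_lit 660245972⟩]⟩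
noncomputable def p033_l43 : Lf2 := ⟨nat_lit 0, nat_lit 10, [nat_lit 0, nat_lit 5, nat_lit 5, nat_lit 20], true, nat_lit 240, nat_lit 272, nat_lit 0, nat_lit 288, ⟨nat_lit 0, nat_lit 0, nat_lit 1000, nat_lit 6, nat_lit 111, nat_lit 1000, nat_lit 172, nat_lit 1000, nat_lit 88902, nat_lit 288, nat_lit 114817, nat_lit 298, nat_lit 51224756, nat_lit 0, nat_lit 0, nat_lit 3707869, false, false⟩,
 nat_lit 0, nat_lit 8291, nat_lit 0, nat_lit 0, nat_lit 4715, nat_lit 0, nat_lit 369, nat_lit 0, nat_lit 0, nat_lit 0, nat_lit 0, nat_lit 0, nat_lit 0, nat_lit 24067977178699, nat_lit 69, nat_lit 400000, nat_lit 0, nat_lit 0, [(nat_lit 6, [(nat_lit 5, nat_lit 1000)])],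
 ⟨p033_k19, nat_lit 0, nat_lit 0, nat_lit 185, nat_lit 0, nat_lit 171444, [nat_lit 2521600001, nat_lit 679600001, nat_lit 7200000], [], [nat_lit 14658343600, nat_lit 14919745652, nat_lit 14262469250, nat_lit 14539445512, nat_lit 17012435381, nat_lit 17377268639, nat_lit 16136633167, nat_lit 16490537526], nat_lit 1271250, nat_lit 1271250, nat_lit 230001, nat_lit 490000, nat_lit 1271250, nat_lit 1271250, [nat_lit 1100000, nat_lit 1785000, nat_lit 1271250], [nat_lit 29, nat_lit 40, nat_lit 20, nat_lit 80, nat_lit 17, nat_lit 401, nat_lit 175, nat_lit 11]⟩, C1.Rw.none,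
 ⟨nat_lit 5916, nat_lit 6021, ⟨.ofNat (nat_lit 224872), .ofNat (nat_lit 304325), .ofNat (nat_lit 246214), .ofNat (nat_lit 325667), .ofNat (nat_lit 228543), .ofNat (nat_lit 307076), .ofNat (nat_lit 249882), .ofNat (nat_lit 328416)⟩, ⟨.ofNat (nat_lit 387371), .ofNat (nat_lit 450933), .ofNat (nat_lit 408713), .ofNat (nat_lit 472275), .ofNat (nat_lit 386479), .ofNat (nat_lit 449305), .ofNat (nat_lit 407818), .ofNat (nat_lit 470645)⟩⟩, [⟨nat_lit 4, nat_lit 100, nat_lit 99, nat_lit 55, nat_lit 648709304⟩]⟩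
noncomputable def b_VL_600_600_5_11 : St := ⟨true, nat_lit 1, nat_lit 0, nat_lit 1, nat_lit 40, nat_lit 240, nat_lit 260, nat_lit 240, nat_lit 260, nat_lit 16, nat_lit 80, nat_lit 20, nat_lit 40, nat_lit 240, nat_lit 288, nat_lit 0, nat_lit 288, nat_lit 0, nat_lit 40, nat_lit 0, nat_lit 0, nat_lit 0, nat_lit 800⟩
theorem d_VL_600_600_5_11 (h : EB TB.env) : Dead b_VL_600_600_5_11 := chkB_sound0 h (T :=
(.spl (nat_lit 0) (nat_lit 250)
(.ord (.spl (nat_lit 6) (nat_lit 32)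
(.spl (nat_lit 6) (nat_lit 20)
(.spl (nat_lit 5) (nat_lit 160)
(.leaf p033_l26)
(.spl (nat_lit 6) (nat_lit 8)
(.leaf p033_l27)
(.spl (nat_lit 2) (nat_lit 40)
(.spl (nat_lit 4) (nat_lit 260)
(.spl (nat_lit 6) (nat_lit 16)
(.spl (nat_lit 0) (nat_lit 245)
(.ord (.leaf p033_l28))
(.leaf p033_l29))
(.leaf p033_l30))
(.trX (nat_lit 23) (nat_lit 100) (nat_lit 99) (nat_lit 63) (nat_lit 268) (.leaf p033_l31)))
(.leaf p033_l32))))
(.spl (nat_lit 4) (nat_lit 260)
(.leaf p033_l33)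
(.leaf p033_l34)))
(.leaf p033_l35)))
(.trZ (nat_lit 0) (nat_lit 100) (nat_lit 99) (nat_lit 45) (nat_lit 20) (.trX (nat_lit 16) (nat_lit 100) (nat_lit 95) (nat_lit 62) (nat_lit 280) (.spl (nat_lit 6) (nat_lit 20)
(.spl (nat_lit 5) (nat_lit 160)
(.leaf p033_l36)
(.leaf p033_l37))
(.spl (nat_lit 2) (nat_lit 40)
(.spl (nat_lit 4) (nat_lit 260)
(.spl (nat_lit 0) (nat_lit 255)
(.ord (.leaf p033_l38))
(.leaf p033_l39))
(.trX (nat_lit 23) (nat_lit 100) (nat_lit 99) (nat_lit 63) (nat_lit 268) (.spl (nat_lit 0) (nat_lit 255)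
(.ord (.leaf p033_l40))
(.trX (nat_lit 16) (nat_lit 100) (nat_lit 97) (nat_lit 62) (nat_lit 272) (.leaf p033_l41)))))
(.spl (nat_lit 0) (nat_lit 255)
(.ord (.leaf p033_l42))
(.trX (nat_lit 16) (nat_lit 100) (nat_lit 97) (nat_lit 62) (nat_lit 272) (.leaf p033_l43))))))))) (by decide +kernel)
noncomputable def p033_l44 : Lf2 := ⟨nat_lit 0, nat_lit 5, [nat_lit 4, nat_lit 5, nat_lit 5, nat_lit 20], false, nat_lit 0, nat_lit 160, nat_lit 0, nat_lit 160, ⟨nat_lit 1000, nat_lit 0, nat_lit 0, nat_lit 0, nat_lit 0, nat_lit 0, nat_lit 0, nat_lit 0, nat_lit 0, nat_lit 0, nat_lit 0, nat_lit 0, nat_lit 0, nat_lit 0, nat_lit 0, nat_lit 0, false, false⟩,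
 nat_lit 0, nat_lit 9973, nat_lit 0, nat_lit 0, nat_lit 5279, nat_lit 10457, nat_lit 125, nat_lit 0, nat_lit 0, nat_lit 3912, nat_lit 0, nat_lit 0, nat_lit 0, nat_lit 0, nat_lit 0, nat_lit 0, nat_lit 0, nat_lit 0, [],
 ⟨p033_k8, nat_lit 0, nat_lit 0, nat_lit 519, nat_lit 0, nat_lit 655236, [nat_lit 4688000000, nat_lit 6250000000, nat_lit 9842000000], [], [nat_lit 44651354764, nat_lit 41816859062, nat_lit 39080603322, nat_lit 39749337028, nat_lit 37252407966, nat_lit 37878788766, nat_lit 37407442562, nat_lit 37963369658], nat_lit 1271250, nat_lit 1271250, nat_lit 490000, nat_lit 1100001, nat_lit 0, nat_lit 1100001, [nat_lit 1100000, nat_lit 1442500, nat_lit 1271250], [nat_lit 11, nat_lit 40, nat_lit 20, nat_lit 80, nat_lit 1, nat_lit 373, nat_lit 150, nat_lit 11]⟩, ⟨p033_k8, nat_lit 0, nat_lit 0, nat_lit 153, nat_lit 0, nat_lit 0, [nat_lit 4688000000, nat_lit 6250000000, nat_lit 9842000000], [], [nat_lit 13244777468,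 nat_lit 14353596211, nat_lit 13448664724, nat_lit 14703651873, nat_lit 6812522432, nat_lit 7994217445, nat_lit 7434025144, nat_lit 8464622426], nat_lit 0, nat_lit 0, nat_lit 0, nat_lit 0, nat_lit 0, nat_lit 0, [], [nat_lit 11, nat_lit 40, nat_lit 20, nat_lit 80, nat_lit 1, nat_lit 373, nat_lit 150, nat_lit 11]⟩,
 zbF0, []⟩
noncomputable def p033_l45 : Lf2 := ⟨nat_lit 0, nat_lit 5, [nat_lit 4, nat_lit 5, nat_lit 5, nat_lit 20], false, nat_lit 0, nat_lit 160, nat_lit 0, nat_lit 160, ⟨nat_lit 1000, nat_lit 0, nat_lit 0, nat_lit 0, nat_lit 0, nat_lit 0, nat_lit 0, nat_lit 0, nat_lit 0, nat_lit 0, nat_lit 0, nat_lit 0, nat_lit 0, nat_lit 0, nat_lit 0, nat_lit 0, false, false⟩,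
 nat_lit 0, nat_lit 10478, nat_lit 0, nat_lit 0, nat_lit 5821, nat_lit 7617, nat_lit 4253, nat_lit 0, nat_lit 0, nat_lit 0, nat_lit 0, nat_lit 0, nat_lit 0, nat_lit 4061915211608, nat_lit 0, nat_lit 0, nat_lit 0, nat_lit 0, [],
 ⟨p033_k20, nat_lit 0, nat_lit 0, nat_lit 490, nat_lit 0, nat_lit 715882, [nat_lit 4688000000, nat_lit 7968000000], [], [nat_lit 36478667691, nat_lit 34939775742, nat_lit 32219304127, nat_lit 32481100614, nat_lit 31813652597, nat_lit 30442207534, nat_lit 37594939702, nat_lit 36259683796], nat_lit 1271250, nat_lit 1271250, nat_lit 490000, nat_lit 1100001, nat_lit 0, nat_lit 1100001, [nat_lit 1100000, nat_lit 1785000], [nat_lit 39, nat_lit 40, nat_lit 20, nat_lit 80, nat_lit 7, nat_lit 317, nat_lit 100, nat_lit 11]⟩, ⟨p033_k20, nat_lit 0, nat_lit 0, nat_lit 50, nat_lit 0, nat_lit 0, [nat_lit 4688000000, nat_lit 7968000000], [], [nat_lit 12585136849, nat_lit 14039580622, nat_lit 13001716295,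 nat_lit 14307806898, nat_lit 8309732453, nat_lit 9352865806, nat_lit 9458315920, nat_lit 10375095224], nat_lit 0, nat_lit 0, nat_lit 0, nat_lit 0, nat_lit 0, nat_lit 0, [], [nat_lit 39, nat_lit 40, nat_lit 20, nat_lit 80, nat_lit 7, nat_lit 317, nat_lit 100, nat_lit 11]⟩,
 zbF0, []⟩
noncomputable def p033_l46 : Lf2 := ⟨nat_lit 0, nat_lit 10, [nat_lit 0, nat_lit 5, nat_lit 5, nat_lit 20], false, nat_lit 0, nat_lit 160, nat_lit 0, nat_lit 160, ⟨nat_lit 1000, nat_lit 0, nat_lit 0, nat_lit 0, nat_lit 0, nat_lit 0, nat_lit 0, nat_lit 0, nat_lit 0, nat_lit 0, nat_lit 0, nat_lit 0, nat_lit 0, nat_lit 0, nat_lit 0, nat_lit 0, false, false⟩,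
 nat_lit 0, nat_lit 11012, nat_lit 0, nat_lit 6152, nat_lit 5829, nat_lit 8702, nat_lit 393, nat_lit 0, nat_lit 0, nat_lit 1986, nat_lit 0, nat_lit 0, nat_lit 0, nat_lit 23768984770790, nat_lit 0, nat_lit 0, nat_lit 0, nat_lit 0, [],
 ⟨p033_k9, nat_lit 0, nat_lit 0, nat_lit 356, nat_lit 0, nat_lit 145085, [nat_lit 4688000000, nat_lit 7968000001, nat_lit 11872000000], [], [nat_lit 41538475361, nat_lit 39997468460, nat_lit 37534800665, nat_lit 37895057621, nat_lit 36685418341, nat_lit 35312966899, nat_lit 42435058593, nat_lit 41097967599], nat_lit 1271250, nat_lit 1271250, nat_lit 490000, nat_lit 1100001, nat_lit 0, nat_lit 1100001, [nat_lit 1100000, nat_lit 1785000, nat_lit 1271250], [nat_lit 21, nat_lit 40, nat_lit 20, nat_lit 80, nat_lit 14, nat_lit 373, nat_lit 150, nat_lit 10]⟩, ⟨p033_k9, nat_lit 0, nat_lit 0, nat_lit 220, nat_lit 0, nat_lit 0, [nat_lit 4688000000, nat_lit 7968000000, nat_lit 11872000000], [],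 [nat_lit 19557559248, nat_lit 20393126480, nat_lit 19630740488, nat_lit 20620394884, nat_lit 14869449688, nat_lit 15636048858, nat_lit 15194429920, nat_lit 15863846192], nat_lit 0, nat_lit 0, nat_lit 0, nat_lit 0, nat_lit 0, nat_lit 0, [], [nat_lit 21, nat_lit 40, nat_lit 20, nat_lit 80, nat_lit 14, nat_lit 373, nat_lit 150, nat_lit 10]⟩,
 zbF0, []⟩
noncomputable def p033_l47 : Lf2 := ⟨nat_lit 0, nat_lit 10, [nat_lit 0, nat_lit 5, nat_lit 5, nat_lit 20], false, nat_lit 0, nat_lit 160, nat_lit 0, nat_lit 160, ⟨nat_lit 1000, nat_lit 0, nat_lit 0, nat_lit 0, nat_lit 0, nat_lit 0, nat_lit 0, nat_lit 0, nat_lit 0, nat_lit 0, nat_lit 0, nat_lit 0, nat_lit 0, nat_lit 0, nat_lit 0, nat_lit 0, false, false⟩,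
 nat_lit 0, nat_lit 10614, nat_lit 0, nat_lit 0, nat_lit 5896, nat_lit 8477, nat_lit 84, nat_lit 0, nat_lit 0, nat_lit 1919, nat_lit 0, nat_lit 0, nat_lit 0, nat_lit 5572362670725, nat_lit 0, nat_lit 0, nat_lit 0, nat_lit 0, [],
 ⟨p033_k18, nat_lit 0, nat_lit 0, nat_lit 366, nat_lit 0, nat_lit 333847, [nat_lit 4688000000, nat_lit 7968000001, nat_lit 9842000000], [], [nat_lit 40012553017, nat_lit 38453833393, nat_lit 35880381353, nat_lit 36291045681, nat_lit 35156616873, nat_lit 33769944769, nat_lit 40980954353, nat_lit 39628494497], nat_lit 1271250, nat_lit 1271250, nat_lit 490000, nat_lit 1100001, nat_lit 0, nat_lit 1100001, [nat_lit 1100000, nat_lit 1785000, nat_lit 1271250], [nat_lit 29, nat_lit 40, nat_lit 20, nat_lit 80, nat_lit 17, nat_lit 373, nat_lit 150, nat_lit 11]⟩, ⟨p033_k9, nat_lit 0, nat_lit 0, nat_lit 225, nat_lit 0, nat_lit 0, [nat_lit 4688000000, nat_lit 7968000000, nat_lit 11872000000], [], [nat_lit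 19897133848, nat_lit 21542161112, nat_lit 19738550588, nat_lit 21684605280, nat_lit 15342524788, nat_lit 16851722378, nat_lit 15705863920, nat_lit 17024880264], nat_lit 0, nat_lit 0, nat_lit 0, nat_lit 0, nat_lit 0, nat_lit 0, [], [nat_lit 21, nat_lit 40, nat_lit 20, nat_lit 80, nat_lit 14, nat_lit 373, nat_lit 150, nat_lit 10]⟩,
 zbF0, []⟩
noncomputable def p033_l48 : Lf2 := ⟨nat_lit 0, nat_lit 8, [nat_lit 50, nat_lit 5, nat_lit 5, nat_lit 20], false, nat_lit 0, nat_lit 80, nat_lit 160, nat_lit 288, ⟨nat_lit 1000, nat_lit 0, nat_lit 0, nat_lit 0, nat_lit 0, nat_lit 0, nat_lit 0, nat_lit 0, nat_lit 0, nat_lit 0, nat_lit 0, nat_lit 0, nat_lit 0, nat_lit 0, nat_lit 0, nat_lit 0, false, false⟩,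
 nat_lit 0, nat_lit 7823, nat_lit 0, nat_lit 4275, nat_lit 4141, nat_lit 9039, nat_lit 1810, nat_lit 0, nat_lit 0, nat_lit 0, nat_lit 0, nat_lit 0, nat_lit 0, nat_lit 3523192419265, nat_lit 0, nat_lit 0, nat_lit 0, nat_lit 0, [],
 ⟨p033_k17, nat_lit 0, nat_lit 0, nat_lit 485, nat_lit 0, nat_lit 566946, [nat_lit 4688000000, nat_lit 6250000000, nat_lit 9842000000], [], [nat_lit 38810233440, nat_lit 37715481411, nat_lit 37080168988, nat_lit 37393930075, nat_lit 35407452280, nat_lit 35685132866, nat_lit 38302729860, nat_lit 37327097837], nat_lit 1271250, nat_lit 1271250, nat_lit 490000, nat_lit 1100001, nat_lit 0, nat_lit 490000, [nat_lit 1100000, nat_lit 1442500, nat_lit 1271250], [nat_lit 11, nat_lit 40, nat_lit 20, nat_lit 80, nat_lit 1, nat_lit 345, nat_lit 125, nat_lit 10]⟩, ⟨p033_k17, nat_lit 0, nat_lit 0, nat_lit 23, nat_lit 0, nat_lit 0, [nat_lit 4688000000, nat_lit 6250000000, nat_lit 9842000000], [], [nat_lit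 5000357700, nat_lit 6170630651, nat_lit 6128470872, nat_lit 7152912640, nat_lit 17128175896, nat_lit 18101883475, nat_lit 16725727539, nat_lit 17585764479], nat_lit 0, nat_lit 0, nat_lit 0, nat_lit 0, nat_lit 0, nat_lit 0, [], [nat_lit 11, nat_lit 40, nat_lit 20, nat_lit 80, nat_lit 1, nat_lit 401, nat_lit 175, nat_lit 11]⟩,
 zbF0, [⟨nat_lit 7, nat_lit 97, nat_lit 100, nat_lit 54, nat_lit 1264459411⟩]⟩
noncomputable def p033_l49 : Lf2 := ⟨nat_lit 0, nat_lit 8, [nat_lit 50, nat_lit 5, nat_lit 5, nat_lit 20], false, nat_lit 80, nat_lit 160, nat_lit 160, nat_lit 288, ⟨nat_lit 1000, nat_lit 0, nat_lit 0, nat_lit 0, nat_lit 0, nat_lit 0, nat_lit 0, nat_lit 0, nat_lit 0, nat_lit 0, nat_lit 0, nat_lit 0, nat_lit 0, nat_lit 0, nat_lit 0, nat_lit 0, false, false⟩,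
 nat_lit 0, nat_lit 6109, nat_lit 0, nat_lit 6725, nat_lit 3234, nat_lit 9039, nat_lit 1998, nat_lit 0, nat_lit 0, nat_lit 0, nat_lit 0, nat_lit 0, nat_lit 0, nat_lit 0, nat_lit 0, nat_lit 0, nat_lit 0, nat_lit 0, [],
 ⟨p033_k17, nat_lit 0, nat_lit 0, nat_lit 422, nat_lit 0, nat_lit 566946, [nat_lit 4688000000, nat_lit 6250000000, nat_lit 9842000000], [], [nat_lit 34304110560, nat_lit 33449141214, nat_lit 31295532692, nat_lit 31644025346, nat_lit 31295532692, nat_lit 31644025346, nat_lit 34861386576, nat_lit 34099446474], nat_lit 1271250, nat_lit 1271250, nat_lit 490000, nat_lit 1100001, nat_lit 490000, nat_lit 1100001, [nat_lit 1100000, nat_lit 1442500, nat_lit 1271250], [nat_lit 11, nat_lit 40, nat_lit 20, nat_lit 80, nat_lit 1, nat_lit 373, nat_lit 150, nat_lit 11]⟩, ⟨p033_k17, nat_lit 0, nat_lit 0, nat_lit 23, nat_lit 0, nat_lit 0, [nat_lit 4688000000, nat_lit 6250000000, nat_lit 9842000000], [], [nat_lit 5000357700,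 nat_lit 6170630651, nat_lit 6128470872, nat_lit 7152912640, nat_lit 17128175896, nat_lit 18101883475, nat_lit 16725727539, nat_lit 17585764479], nat_lit 0, nat_lit 0, nat_lit 0, nat_lit 0, nat_lit 0, nat_lit 0, [], [nat_lit 11, nat_lit 40, nat_lit 20, nat_lit 80, nat_lit 1, nat_lit 401, nat_lit 175, nat_lit 11]⟩,
 zbF0, [⟨nat_lit 7, nat_lit 97, nat_lit 100, nat_lit 54, nat_lit 1264459411⟩]⟩
noncomputable def p033_l50 : Lf2 := ⟨nat_lit 1, nat_lit 10, [nat_lit 0, nat_lit 5, nat_lit 5, nat_lit 20], false, nat_lit 0, nat_lit 160, nat_lit 160, nat_lit 288, zbN0,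
 nat_lit 0, nat_lit 0, nat_lit 0, nat_lit 0, nat_lit 0, nat_lit 0, nat_lit 0, nat_lit 0, nat_lit 0, nat_lit 0, nat_lit 0, nat_lit 0, nat_lit 0, nat_lit 0, nat_lit 0, nat_lit 0, nat_lit 0, nat_lit 0, [],
 C1.Rw.none, C1.Rw.none,
 zbF0, []⟩
noncomputable def p033_l51 : Lf2 := ⟨nat_lit 0, nat_lit 10, [nat_lit 0, nat_lit 5, nat_lit 5, nat_lit 20], false, nat_lit 0, nat_lit 80, nat_lit 160, nat_lit 288, ⟨nat_lit 1000, nat_lit 0, nat_lit 0, nat_lit 0, nat_lit 0, nat_lit 0, nat_lit 0, nat_lit 0, nat_lit 0, nat_lit 0, nat_lit 0, nat_lit 0, nat_lit 0, nat_lit 0, nat_lit 0, nat_lit 0, false, false⟩,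
 nat_lit 0, nat_lit 13171, nat_lit 0, nat_lit 0, nat_lit 7317, nat_lit 8785, nat_lit 3487, nat_lit 0, nat_lit 0, nat_lit 0, nat_lit 0, nat_lit 0, nat_lit 0, nat_lit 1116911727947, nat_lit 0, nat_lit 0, nat_lit 0, nat_lit 0, [],
 ⟨p033_k10, nat_lit 0, nat_lit 0, nat_lit 588, nat_lit 0, nat_lit 742849, [nat_lit 4688000000, nat_lit 6250000000, nat_lit 9842000000], [], [nat_lit 27978309443, nat_lit 26102100524, nat_lit 28094677241, nat_lit 26322653498, nat_lit 24102483973, nat_lit 23428857534, nat_lit 30365532669, nat_lit 28641625518], nat_lit 1271250, nat_lit 1271250, nat_lit 490000, nat_lit 1100001, nat_lit 0, nat_lit 490000, [nat_lit 1100000, nat_lit 1442500, nat_lit 1271250], [nat_lit 11, nat_lit 40, nat_lit 20, nat_lit 80, nat_lit 1, nat_lit 345, nat_lit 125, nat_lit 10]⟩, ⟨p033_k21, nat_lit 0, nat_lit 0, nat_lit 29, nat_lit 0, nat_lit 0, [nat_lit 4688000000, nat_lit 6250000000, nat_lit 11872000000], [], [nat_lit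 5405157500, nat_lit 7700283630, nat_lit 6559496680, nat_lit 8569918520, nat_lit 17084900188, nat_lit 18997021336, nat_lit 16748108597, nat_lit 18438208648], nat_lit 0, nat_lit 0, nat_lit 0, nat_lit 0, nat_lit 0, nat_lit 0, [], [nat_lit 48, nat_lit 40, nat_lit 20, nat_lit 80, nat_lit 12, nat_lit 428, nat_lit 200, nat_lit 11]⟩,
 zbF0, [⟨nat_lit 19, nat_lit 100, nat_lit 99, nat_lit 54, nat_lit 1218552829⟩]⟩
noncomputable def p033_l52 : Lf2 := ⟨nat_lit 0, nat_lit 10, [nat_lit 0, nat_lit 5, nat_lit 5, nat_lit 20], false, nat_lit 80, nat_lit 160, nat_lit 160, nat_lit 288, ⟨nat_lit 1000, nat_lit 0, nat_lit 0, nat_lit 0, nat_lit 0, nat_lit 0, nat_lit 0, nat_lit 0, nat_lit 0, nat_lit 0, nat_lit 0, nat_lit 0, nat_lit 0, nat_lit 0, nat_lit 0, nat_lit 0, false, false⟩,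
 nat_lit 0, nat_lit 10767, nat_lit 0, nat_lit 0, nat_lit 5981, nat_lit 16154, nat_lit 1983, nat_lit 0, nat_lit 0, nat_lit 0, nat_lit 0, nat_lit 0, nat_lit 0, nat_lit 2361734790470, nat_lit 0, nat_lit 0, nat_lit 0, nat_lit 205523392, [],
 ⟨p033_k10, nat_lit 0, nat_lit 0, nat_lit 493, nat_lit 0, nat_lit 742849, [nat_lit 4688000000, nat_lit 6250000000, nat_lit 9842000000], [], [nat_lit 31351960975, nat_lit 29794574366, nat_lit 28711356652, nat_lit 27284380682, nat_lit 28711356652, nat_lit 27284380682, nat_lit 34432591081, nat_lit 33042301650], nat_lit 1271250, nat_lit 1271250, nat_lit 490000, nat_lit 1100001, nat_lit 490000, nat_lit 1100001, [nat_lit 1100000, nat_lit 1442500, nat_lit 1271250], [nat_lit 11, nat_lit 40, nat_lit 20, nat_lit 80, nat_lit 1, nat_lit 373, nat_lit 150, nat_lit 11]⟩, ⟨p033_k21, nat_lit 0, nat_lit 0, nat_lit 29, nat_lit 0, nat_lit 0, [nat_lit 4688000000, nat_lit 6250000000, nat_lit 11872000000],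 [], [nat_lit 0, nat_lit 4402693652, nat_lit 148522168, nat_lit 3994502380, nat_lit 18545930220, nat_lit 21481994551, nat_lit 16304316975, nat_lit 18864012084], nat_lit 0, nat_lit 0, nat_lit 0, nat_lit 0, nat_lit 0, nat_lit 0, [], [nat_lit 48, nat_lit 40, nat_lit 20, nat_lit 80, nat_lit 12, nat_lit 428, nat_lit 200, nat_lit 11]⟩,
 zbF0, [⟨nat_lit 7, nat_lit 99, nat_lit 100, nat_lit 54, nat_lit 1636817120⟩]⟩
noncomputable def p033_l53 : Lf2 := ⟨nat_lit 0, nat_lit 10, [nat_lit 0, nat_lit 5, nat_lit 5, nat_lit 20], false, nat_lit 160, nat_lit 288, nat_lit 0, nat_lit 160, ⟨nat_lit 1000, nat_lit 0, nat_lit 0, nat_lit 0, nat_lit 0, nat_lit 0, nat_lit 0, nat_lit 0, nat_lit 0, nat_lit 0, nat_lit 0, nat_lit 0, nat_lit 0, nat_lit 0, nat_lit 0, nat_lit 0, false, false⟩,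
 nat_lit 0, nat_lit 16979, nat_lit 0, nat_lit 0, nat_lit 8988, nat_lit 9431, nat_lit 995, nat_lit 0, nat_lit 0, nat_lit 4066, nat_lit 0, nat_lit 0, nat_lit 0, nat_lit 30172411563581, nat_lit 0, nat_lit 0, nat_lit 0, nat_lit 0, [],
 ⟨p033_k21, nat_lit 0, nat_lit 0, nat_lit 411, nat_lit 0, nat_lit 575568, [nat_lit 4688000000, nat_lit 6250000000, nat_lit 11872000000], [], [nat_lit 24206186304, nat_lit 23106213029, nat_lit 21837094925, nat_lit 22308848417, nat_lit 28719084448, nat_lit 27618189770, nat_lit 35840642842, nat_lit 33728389140], nat_lit 1271250, nat_lit 1271250, nat_lit 490000, nat_lit 1100001, nat_lit 1100001, nat_lit 2196000, [nat_lit 1100000, nat_lit 1442500, nat_lit 1271250], [nat_lit 48, nat_lit 40, nat_lit 20, nat_lit 80, nat_lit 12, nat_lit 401, nat_lit 175, nat_lit 10]⟩, ⟨p033_k21, nat_lit 0, nat_lit 0, nat_lit 207, nat_lit 0, nat_lit 0, [nat_lit 4688000000, nat_lit 6250000000, nat_lit 11872000000],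 [], [nat_lit 13656676794, nat_lit 14810497192, nat_lit 14165498092, nat_lit 15332908959, nat_lit 8970558948, nat_lit 9868101920, nat_lit 9538614052, nat_lit 10320472331], nat_lit 0, nat_lit 0, nat_lit 0, nat_lit 0, nat_lit 0, nat_lit 0, [], [nat_lit 48, nat_lit 40, nat_lit 20, nat_lit 80, nat_lit 12, nat_lit 373, nat_lit 150, nat_lit 10]⟩,
 zbF0, [⟨nat_lit 4, nat_lit 97, nat_lit 100, nat_lit 54, nat_lit 727744087⟩]⟩
noncomputable def p033_l54 : Lf2 := ⟨nat_lit 0, nat_lit 10, [nat_lit 0, nat_lit 5, nat_lit 5, nat_lit 20], false, nat_lit 160, nat_lit 280, nat_lit 0, nat_lit 160, ⟨nat_lit 1000, nat_lit 0, nat_lit 0, nat_lit 0, nat_lit 0, nat_lit 0, nat_lit 0, nat_lit 0, nat_lit 0, nat_lit 0, nat_lit 0, nat_lit 0, nat_lit 0, nat_lit 0, nat_lit 0, nat_lit 0, false, false⟩,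
 nat_lit 0, nat_lit 15891, nat_lit 0, nat_lit 0, nat_lit 8828, nat_lit 9048, nat_lit 1601, nat_lit 0, nat_lit 0, nat_lit 3840, nat_lit 0, nat_lit 0, nat_lit 0, nat_lit 22831394503245, nat_lit 0, nat_lit 0, nat_lit 0, nat_lit 0, [],
 ⟨p033_k10, nat_lit 0, nat_lit 0, nat_lit 461, nat_lit 0, nat_lit 742849, [nat_lit 4688000000, nat_lit 6250000000, nat_lit 9842000000], [], [nat_lit 22033579012, nat_lit 19896883012, nat_lit 18471296472, nat_lit 18781128972, nat_lit 25062012266, nat_lit 22923627896, nat_lit 32111203346, nat_lit 30030907216], nat_lit 1271250, nat_lit 1271250, nat_lit 490000, nat_lit 1100001, nat_lit 1100001, nat_lit 2127500, [nat_lit 1100000, nat_lit 1442500, nat_lit 1271250], [nat_lit 11, nat_lit 40, nat_lit 20, nat_lit 80, nat_lit 1, nat_lit 401, nat_lit 175, nat_lit 11]⟩, ⟨p033_k21, nat_lit 0, nat_lit 0, nat_lit 212, nat_lit 0, nat_lit 0, [nat_lit 4688000000, nat_lit 6250000000, nat_lit 11872000000],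 [], [nat_lit 14557538752, nat_lit 16270085216, nat_lit 14433087936, nat_lit 16702526208, nat_lit 9835944384, nat_lit 11583682336, nat_lit 10456859616, nat_lit 11981196880], nat_lit 0, nat_lit 0, nat_lit 0, nat_lit 0, nat_lit 0, nat_lit 0, [], [nat_lit 48, nat_lit 40, nat_lit 20, nat_lit 80, nat_lit 12, nat_lit 373, nat_lit 150, nat_lit 10]⟩,
 zbF0, [⟨nat_lit 4, nat_lit 100, nat_lit 100, nat_lit 55, nat_lit 619873330⟩]⟩
noncomputable def p033_l55 : Lf2 := ⟨nat_lit 0, nat_lit 8, [nat_lit 50, nat_lit 5, nat_lit 5, nat_lit 20], false, nat_lit 160, nat_lit 240, nat_lit 160, nat_lit 288, ⟨nat_lit 1000, nat_lit 0, nat_lit 0, nat_lit 0, nat_lit 0, nat_lit 0, nat_lit 0, nat_lit 0, nat_lit 0, nat_lit 0, nat_lit 0, nat_lit 0, nat_lit 0, nat_lit 0, nat_lit 0, nat_lit 0, false, false⟩,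
 nat_lit 0, nat_lit 12990, nat_lit 0, nat_lit 0, nat_lit 6876, nat_lit 21699, nat_lit 2048, nat_lit 0, nat_lit 0, nat_lit 0, nat_lit 0, nat_lit 0, nat_lit 0, nat_lit 1501962249566, nat_lit 0, nat_lit 0, nat_lit 0, nat_lit 4625837244, [],
 ⟨p033_k17, nat_lit 0, nat_lit 0, nat_lit 346, nat_lit 0, nat_lit 566946, [nat_lit 4688000000, nat_lit 6250000000, nat_lit 9842000000], [], [nat_lit 25420991808, nat_lit 23657098404, nat_lit 22937796000, nat_lit 21671600728, nat_lit 25300532992, nat_lit 23612850412, nat_lit 31101828336, nat_lit 29459536992], nat_lit 1271250, nat_lit 1271250, nat_lit 490000, nat_lit 1100001, nat_lit 1100001, nat_lit 1785000, [nat_lit 1100000, nat_lit 1442500, nat_lit 1271250], [nat_lit 11, nat_lit 40, nat_lit 20, nat_lit 80, nat_lit 1, nat_lit 401, nat_lit 175, nat_lit 11]⟩, ⟨p033_k17, nat_lit 0, nat_lit 0, nat_lit 23, nat_lit 0, nat_lit 0, [nat_lit 4688000000, nat_lit 6250000000, nat_lit 9842000000],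 [], [nat_lit 549637692, nat_lit 3368525623, nat_lit 0, nat_lit 2453585611, nat_lit 23910983428, nat_lit 25764262231, nat_lit 20236036479, nat_lit 21843058995], nat_lit 0, nat_lit 0, nat_lit 0, nat_lit 0, nat_lit 0, nat_lit 0, [], [nat_lit 11, nat_lit 40, nat_lit 20, nat_lit 80, nat_lit 1, nat_lit 401, nat_lit 175, nat_lit 11]⟩,
 zbF0, [⟨nat_lit 7, nat_lit 97, nat_lit 100, nat_lit 54, nat_lit 2021406150⟩]⟩
noncomputable def p033_l56 : Lf2 := ⟨nat_lit 0, nat_lit 8, [nat_lit 50, nat_lit 5, nat_lit 5, nat_lit 20], false, nat_lit 240, nat_lit 288, nat_lit 160, nat_lit 288, ⟨nat_lit 1000, nat_lit 0, nat_lit 0, nat_lit 0, nat_lit 0, nat_lit 0, nat_lit 0, nat_lit 0, nat_lit 0, nat_lit 0, nat_lit 0, nat_lit 0, nat_lit 0, nat_lit 0, nat_lit 0, nat_lit 0, false, false⟩,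
 nat_lit 0, nat_lit 17398, nat_lit 0, nat_lit 0, nat_lit 9210, nat_lit 16276, nat_lit 2407, nat_lit 0, nat_lit 0, nat_lit 0, nat_lit 0, nat_lit 0, nat_lit 0, nat_lit 0, nat_lit 0, nat_lit 0, nat_lit 0, nat_lit 290685248, [],
 ⟨p033_k17, nat_lit 0, nat_lit 0, nat_lit 348, nat_lit 0, nat_lit 566946, [nat_lit 4688000000, nat_lit 6250000000, nat_lit 9842000000], [], [nat_lit 16515939630, nat_lit 17036308270, nat_lit 16147034640, nat_lit 16721793420, nat_lit 19806463168, nat_lit 20370350644, nat_lit 19147321633, nat_lit 19636954050], nat_lit 1271250, nat_lit 1271250, nat_lit 490000, nat_lit 1100001, nat_lit 1271250, nat_lit 1271250, [nat_lit 1100000, nat_lit 1442500, nat_lit 1271250], [nat_lit 11, nat_lit 40, nat_lit 20, nat_lit 80, nat_lit 1, nat_lit 401, nat_lit 175, nat_lit 11]⟩, ⟨p033_k17, nat_lit 0, nat_lit 0, nat_lit 23, nat_lit 0, nat_lit 0, [nat_lit 4688000000, nat_lit 6250000000, nat_lit 9842000000], [], [nat_lit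 0, nat_lit 2214933844, nat_lit 133161392, nat_lit 2067825556, nat_lit 18651878045, nat_lit 20128386332, nat_lit 16378728874, nat_lit 17665774868], nat_lit 0, nat_lit 0, nat_lit 0, nat_lit 0, nat_lit 0, nat_lit 0, [], [nat_lit 11, nat_lit 40, nat_lit 20, nat_lit 80, nat_lit 1, nat_lit 401, nat_lit 175, nat_lit 11]⟩,
 zbF0, [⟨nat_lit 4, nat_lit 97, nat_lit 100, nat_lit 54, nat_lit 1080707413⟩, ⟨nat_lit 7, nat_lit 97, nat_lit 100, nat_lit 54, nat_lit 1697165077⟩]⟩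
noncomputable def p033_l57 : Lf2 := ⟨nat_lit 1, nat_lit 10, [nat_lit 0, nat_lit 5, nat_lit 5, nat_lit 20], false, nat_lit 160, nat_lit 288, nat_lit 160, nat_lit 288, zbN0,
 nat_lit 0, nat_lit 0, nat_lit 0, nat_lit 0, nat_lit 0, nat_lit 0, nat_lit 0, nat_lit 0, nat_lit 0, nat_lit 0, nat_lit 0, nat_lit 0, nat_lit 0, nat_lit 0, nat_lit 0, nat_lit 0, nat_lit 0, nat_lit 0, [],
 C1.Rw.none, C1.Rw.none,
 zbF0, []⟩
noncomputable def p033_l58 : Lf2 := ⟨nat_lit 0, nat_lit 10, [nat_lit 0, nat_lit 5, nat_lit 5, nat_lit 20], false, nat_lit 160, nat_lit 240, nat_lit 160, nat_lit 288, ⟨nat_lit 1000, nat_lit 0, nat_lit 0, nat_lit 0, nat_lit 0, nat_lit 0, nat_lit 0, nat_lit 0, nat_lit 0, nat_lit 0, nat_lit 0, nat_lit 0, nat_lit 0, nat_lit 0, nat_lit 0, nat_lit 0, false, false⟩,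
 nat_lit 0, nat_lit 15359, nat_lit 0, nat_lit 0, nat_lit 8532, nat_lit 22458, nat_lit 3743, nat_lit 0, nat_lit 0, nat_lit 0, nat_lit 0, nat_lit 0, nat_lit 0, nat_lit 0, nat_lit 0, nat_lit 0, nat_lit 0, nat_lit 5251219848, [],
 ⟨p033_k10, nat_lit 0, nat_lit 0, nat_lit 461, nat_lit 0, nat_lit 742849, [nat_lit 4688000000, nat_lit 6250000000, nat_lit 9842000000], [], [nat_lit 22279768428, nat_lit 20091063000, nat_lit 16857311448, nat_lit 15534253188, nat_lit 19716835192, nat_lit 17623133796, nat_lit 26385392244, nat_lit 24347575236], nat_lit 1271250, nat_lit 1271250, nat_lit 490000, nat_lit 1100001, nat_lit 1100001, nat_lit 1785000, [nat_lit 1100000, nat_lit 1442500, nat_lit 1271250], [nat_lit 11, nat_lit 40, nat_lit 20, nat_lit 80, nat_lit 1, nat_lit 401, nat_lit 175, nat_lit 11]⟩, ⟨p033_k21, nat_lit 0, nat_lit 0, nat_lit 29, nat_lit 0, nat_lit 0, [nat_lit 4688000000, nat_lit 6250000000, nat_lit 11872000000], [], [nat_lit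 645201864, nat_lit 6452035868, nat_lit 0, nat_lit 5052427124, nat_lit 24665682023, nat_lit 28477704805, nat_lit 20794540253, nat_lit 24098152751], nat_lit 0, nat_lit 0, nat_lit 0, nat_lit 0, nat_lit 0, nat_lit 0, [], [nat_lit 48, nat_lit 40, nat_lit 20, nat_lit 80, nat_lit 12, nat_lit 428, nat_lit 200, nat_lit 11]⟩,
 zbF0, [⟨nat_lit 4, nat_lit 100, nat_lit 100, nat_lit 55, nat_lit 81412879⟩, ⟨nat_lit 19, nat_lit 100, nat_lit 99, nat_lit 54, nat_lit 1994600104⟩]⟩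
noncomputable def p033_l59 : Lf2 := ⟨nat_lit 0, nat_lit 10, [nat_lit 0, nat_lit 5, nat_lit 5, nat_lit 20], false, nat_lit 240, nat_lit 280, nat_lit 160, nat_lit 288, ⟨nat_lit 1000, nat_lit 0, nat_lit 0, nat_lit 0, nat_lit 0, nat_lit 0, nat_lit 0, nat_lit 0, nat_lit 0, nat_lit 0, nat_lit 0, nat_lit 0, nat_lit 0, nat_lit 0, nat_lit 0, nat_lit 0, false, false⟩,
 nat_lit 0, nat_lit 17333, nat_lit 0, nat_lit 0, nat_lit 9629, nat_lit 8785, nat_lit 4247, nat_lit 0, nat_lit 0, nat_lit 0, nat_lit 0, nat_lit 0, nat_lit 0, nat_lit 793482992195, nat_lit 0, nat_lit 0, nat_lit 0, nat_lit 0, [],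
 ⟨p033_k10, nat_lit 0, nat_lit 0, nat_lit 449, nat_lit 0, nat_lit 742849, [nat_lit 4688000000, nat_lit 6250000000, nat_lit 9842000000], [], [nat_lit 12945806807, nat_lit 13442474390, nat_lit 12293453858, nat_lit 13334878560, nat_lit 17242570714, nat_lit 18288607017, nat_lit 16686611042, nat_lit 17608678236], nat_lit 1271250, nat_lit 1271250, nat_lit 490000, nat_lit 1100001, nat_lit 1271250, nat_lit 1271250, [nat_lit 1100000, nat_lit 1442500, nat_lit 1271250], [nat_lit 11, nat_lit 40, nat_lit 20, nat_lit 80, nat_lit 1, nat_lit 401, nat_lit 175, nat_lit 11]⟩, ⟨p033_k21, nat_lit 0, nat_lit 0, nat_lit 29, nat_lit 0, nat_lit 0, [nat_lit 4688000000, nat_lit 6250000000, nat_lit 11872000000], [], [nat_lit 5405157500, nat_lit 7700283630, nat_lit 6559496680, nat_lit 8569918520, nat_lit 17084900188, nat_lit 18997021336, nat_lit 16748108597, nat_lit 18438208648], nat_lit 0, nat_lit 0, nat_lit 0, nat_lit 0, nat_lit 0, nat_lit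 0, [], [nat_lit 48, nat_lit 40, nat_lit 20, nat_lit 80, nat_lit 12, nat_lit 428, nat_lit 200, nat_lit 11]⟩,
 zbF0, [⟨nat_lit 4, nat_lit 100, nat_lit 100, nat_lit 55, nat_lit 1527646707⟩, ⟨nat_lit 7, nat_lit 99, nat_lit 100, nat_lit 54, nat_lit 1218552829⟩]⟩
noncomputable def b_VL_600_600_5_12 : St := ⟨true, nat_lit 1, nat_lit 0, nat_lit 1, nat_lit 40, nat_lit 240, nat_lit 260, nat_lit 240, nat_lit 260, nat_lit 80, nat_lit 160, nat_lit 20, nat_lit 40, nat_lit 0, nat_lit 288, nat_lit 0, nat_lit 288, nat_lit 0, nat_lit 40, nat_lit 0, nat_lit 0, nat_lit 0, nat_lit 0⟩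
theorem d_VL_600_600_5_12 (h : EB TB.env) : Dead b_VL_600_600_5_12 := chkB_sound0 h (T :=
(.spl (nat_lit 4) (nat_lit 160)
(.spl (nat_lit 5) (nat_lit 160)
(.spl (nat_lit 6) (nat_lit 20)
(.spl (nat_lit 1) (nat_lit 250)
(.leaf p033_l44)
(.ord (.leaf p033_l45)))
(.spl (nat_lit 0) (nat_lit 250)
(.ord (.leaf p033_l46))
(.leaf p033_l47)))
(.spl (nat_lit 0) (nat_lit 250)
(.ord (.spl (nat_lit 6) (nat_lit 32)
(.spl (nat_lit 4) (nat_lit 80)
(.leaf p033_l48)
(.leaf p033_l49))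
(.leaf p033_l50)))
(.spl (nat_lit 4) (nat_lit 80)
(.leaf p033_l51)
(.leaf p033_l52))))
(.spl (nat_lit 5) (nat_lit 160)
(.spl (nat_lit 0) (nat_lit 250)
(.ord (.leaf p033_l53))
(.trX (nat_lit 16) (nat_lit 100) (nat_lit 95) (nat_lit 62) (nat_lit 280) (.leaf p033_l54)))
(.spl (nat_lit 0) (nat_lit 250)
(.ord (.spl (nat_lit 6) (nat_lit 32)
(.spl (nat_lit 4) (nat_lit 240)
(.leaf p033_l55)
(.leaf p033_l56))
(.leaf p033_l57)))
(.trX (nat_lit 16) (nat_lit 100) (nat_lit 95) (nat_lit 62) (nat_lit 280) (.spl (nat_lit 4) (nat_lit 240)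
(.leaf p033_l58)
(.leaf p033_l59))))))) (by decide +kernel)
noncomputable def p033_l60 : Lf2 := ⟨nat_lit 0, nat_lit 10, [nat_lit 0, nat_lit 5, nat_lit 5, nat_lit 20], false, nat_lit 0, nat_lit 288, nat_lit 0, nat_lit 160, ⟨nat_lit 1000, nat_lit 0, nat_lit 0, nat_lit 0, nat_lit 0, nat_lit 0, nat_lit 0, nat_lit 0, nat_lit 0, nat_lit 0, nat_lit 0, nat_lit 0, nat_lit 0, nat_lit 0, nat_lit 0, nat_lit 0, false, false⟩,
 nat_lit 0, nat_lit 11419, nat_lit 0, nat_lit 0, nat_lit 6045, nat_lit 17235, nat_lit 600, nat_lit 0, nat_lit 0, nat_lit 2682, nat_lit 0, nat_lit 0, nat_lit 0, nat_lit 32151477407181, nat_lit 0, nat_lit 0, nat_lit 0, nat_lit 0, [],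
 ⟨p033_k9, nat_lit 0, nat_lit 0, nat_lit 537, nat_lit 0, nat_lit 575568, [nat_lit 4688000000, nat_lit 7968000001, nat_lit 11872000000], [], [nat_lit 42077302262, nat_lit 42329505072, nat_lit 42997206182, nat_lit 43205669762, nat_lit 42317691089, nat_lit 40918892116, nat_lit 41086006295, nat_lit 41200926500], nat_lit 1271250, nat_lit 1271250, nat_lit 1271250, nat_lit 1271250, nat_lit 0, nat_lit 2034000, [nat_lit 1100000, nat_lit 1785000, nat_lit 1271250], [nat_lit 21, nat_lit 40, nat_lit 20, nat_lit 80, nat_lit 14, nat_lit 428, nat_lit 200, nat_lit 11]⟩, ⟨p033_k9, nat_lit 0, nat_lit 0, nat_lit 191, nat_lit 0, nat_lit 0, [nat_lit 4688000000, nat_lit 7968000000, nat_lit 11872000000], [], [nat_lit 15626343300, nat_lit 17162328370, nat_lit 24086607440, nat_lit 26032265515, nat_lit 2442062640, nat_lit 3756203405, nat_lit 7574102340, nat_lit 9194328370], nat_lit 0, nat_lit 0, nat_lit 0, nat_lit 0, nat_lit 0, nat_lit 0,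 [], [nat_lit 21, nat_lit 40, nat_lit 20, nat_lit 80, nat_lit 14, nat_lit 401, nat_lit 175, nat_lit 10]⟩,
 zbF0, [⟨nat_lit 16, nat_lit 100, nat_lit 97, nat_lit 54, nat_lit 264607887⟩]⟩
noncomputable def p033_l61 : Lf2 := ⟨nat_lit 0, nat_lit 10, [nat_lit 0, nat_lit 5, nat_lit 5, nat_lit 20], false, nat_lit 0, nat_lit 280, nat_lit 0, nat_lit 160, ⟨nat_lit 1000, nat_lit 0, nat_lit 0, nat_lit 0, nat_lit 0, nat_lit 0, nat_lit 0, nat_lit 0, nat_lit 0, nat_lit 0, nat_lit 0, nat_lit 0, nat_lit 0, nat_lit 0, nat_lit 0, nat_lit 0, false, false⟩,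
 nat_lit 0, nat_lit 11018, nat_lit 0, nat_lit 0, nat_lit 6121, nat_lit 17015, nat_lit 493, nat_lit 0, nat_lit 0, nat_lit 2605, nat_lit 0, nat_lit 0, nat_lit 0, nat_lit 0, nat_lit 0, nat_lit 0, nat_lit 0, nat_lit 0, [],
 ⟨p033_k18, nat_lit 0, nat_lit 0, nat_lit 489, nat_lit 0, nat_lit 635513, [nat_lit 4688000000, nat_lit 7968000001, nat_lit 9842000000], [], [nat_lit 39687567923, nat_lit 39975618148, nat_lit 40776618885, nat_lit 41015740444, nat_lit 40046326275, nat_lit 38759458959, nat_lit 39032143572, nat_lit 39170799854], nat_lit 1271250, nat_lit 1271250, nat_lit 1271250, nat_lit 1271250, nat_lit 0, nat_lit 1977500, [nat_lit 1100000, nat_lit 1785000, nat_lit 1271250], [nat_lit 29, nat_lit 40, nat_lit 20, nat_lit 80, nat_lit 17, nat_lit 428, nat_lit 200, nat_lit 12]⟩, ⟨p033_k9, nat_lit 0, nat_lit 0, nat_lit 191, nat_lit 0, nat_lit 0, [nat_lit 4688000000, nat_lit 7968000000, nat_lit 11872000000], [], [nat_lit 16101388200,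 nat_lit 17251485130, nat_lit 23937996560, nat_lit 25863690735, nat_lit 2756965360, nat_lit 4058346345, nat_lit 7782105200, nat_lit 9283485130], nat_lit 0, nat_lit 0, nat_lit 0, nat_lit 0, nat_lit 0, nat_lit 0, [], [nat_lit 21, nat_lit 40, nat_lit 20, nat_lit 80, nat_lit 14, nat_lit 401, nat_lit 175, nat_lit 10]⟩,
 zbF0, [⟨nat_lit 16, nat_lit 100, nat_lit 100, nat_lit 55, nat_lit 259638738⟩]⟩
noncomputable def p033_l62 : Lf2 := ⟨nat_lit 0, nat_lit 10, [nat_lit 0, nat_lit 5, nat_lit 5, nat_lit 20], false, nat_lit 0, nat_lit 280, nat_lit 0, nat_lit 160, ⟨nat_lit 1000, nat_lit 0, nat_lit 0, nat_lit 0, nat_lit 0, nat_lit 0, nat_lit 0, nat_lit 0, nat_lit 0, nat_lit 0, nat_lit 0, nat_lit 0, nat_lit 0, nat_lit 0, nat_lit 0, nat_lit 0, false, false⟩,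
 nat_lit 0, nat_lit 11349, nat_lit 0, nat_lit 0, nat_lit 6305, nat_lit 14673, nat_lit 1839, nat_lit 0, nat_lit 0, nat_lit 2161, nat_lit 0, nat_lit 0, nat_lit 0, nat_lit 31086185080036, nat_lit 0, nat_lit 0, nat_lit 0, nat_lit 0, [],
 ⟨p033_k18, nat_lit 0, nat_lit 0, nat_lit 536, nat_lit 0, nat_lit 742849, [nat_lit 4688000000, nat_lit 7968000001, nat_lit 9842000000], [], [nat_lit 39095382364, nat_lit 39315186404, nat_lit 39815096269, nat_lit 39995074074, nat_lit 38938793319, nat_lit 37474910049, nat_lit 37530568944, nat_lit 37627037644], nat_lit 1271250, nat_lit 1271250, nat_lit 1271250, nat_lit 1271250, nat_lit 0, nat_lit 1977500, [nat_lit 1100000, nat_lit 1785000, nat_lit 1271250], [nat_lit 29, nat_lit 40, nat_lit 20, nat_lit 80, nat_lit 17, nat_lit 428, nat_lit 200, nat_lit 12]⟩, ⟨p033_k18, nat_lit 0, nat_lit 0, nat_lit 148, nat_lit 0, nat_lit 0, [nat_lit 4688000000, nat_lit 7968000000, nat_lit 9842000000], [],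 [nat_lit 16418399471, nat_lit 17848673720, nat_lit 24069135577, nat_lit 25782304962, nat_lit 5491970279, nat_lit 6657517606, nat_lit 10232599366, nat_lit 11663498720], nat_lit 0, nat_lit 0, nat_lit 0, nat_lit 0, nat_lit 0, nat_lit 0, [], [nat_lit 29, nat_lit 40, nat_lit 20, nat_lit 80, nat_lit 17, nat_lit 401, nat_lit 175, nat_lit 11]⟩,
 zbF0, [⟨nat_lit 4, nat_lit 100, nat_lit 100, nat_lit 55, nat_lit 259789710⟩]⟩
noncomputable def p033_l63 : Lf2 := ⟨nat_lit 0, nat_lit 10, [nat_lit 0, nat_lit 5, nat_lit 5, nat_lit 20], false, nat_lit 0, nat_lit 288, nat_lit 160, nat_lit 288, ⟨nat_lit 1000, nat_lit 0, nat_lit 0, nat_lit 0, nat_lit 0, nat_lit 0, nat_lit 0, nat_lit 0, nat_lit 0, nat_lit 0, nat_lit 0, nat_lit 0, nat_lit 0, nat_lit 0, nat_lit 0, nat_lit 0, false, false⟩,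
 nat_lit 0, nat_lit 21873, nat_lit 0, nat_lit 0, nat_lit 11579, nat_lit 212816, nat_lit 1333, nat_lit 0, nat_lit 0, nat_lit 0, nat_lit 0, nat_lit 0, nat_lit 0, nat_lit 0, nat_lit 0, nat_lit 0, nat_lit 0, nat_lit 162097836096, [],
 ⟨p033_k9, nat_lit 0, nat_lit 0, nat_lit 537, nat_lit 0, nat_lit 575568, [nat_lit 4688000000, nat_lit 7968000001, nat_lit 11872000000], [], [nat_lit 47020555360, nat_lit 43959426709, nat_lit 27064647875, nat_lit 27467788574, nat_lit 43906648587, nat_lit 41221793436, nat_lit 22569071177, nat_lit 21628579455], nat_lit 1271250, nat_lit 1271250, nat_lit 1271250, nat_lit 1271250, nat_lit 0, nat_lit 2034000, [nat_lit 1100000, nat_lit 1785000, nat_lit 1271250], [nat_lit 21, nat_lit 40, nat_lit 20, nat_lit 80, nat_lit 14, nat_lit 428, nat_lit 200, nat_lit 11]⟩, ⟨p033_k9, nat_lit 0, nat_lit 0, nat_lit 11, nat_lit 0, nat_lit 0, [nat_lit 4688000000, nat_lit 7968000000, nat_lit 11872000000], [], [nat_lit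 0, nat_lit 20741380224, nat_lit 75958128800, nat_lit 92031399568, nat_lit 160867875546, nat_lit 173751489084, nat_lit 192824767066, nat_lit 202499306468], nat_lit 0, nat_lit 0, nat_lit 0, nat_lit 0, nat_lit 0, nat_lit 0, [], [nat_lit 21, nat_lit 40, nat_lit 20, nat_lit 80, nat_lit 14, nat_lit 428, nat_lit 200, nat_lit 10]⟩,
 zbF0, [⟨nat_lit 16, nat_lit 100, nat_lit 92, nat_lit 61, nat_lit 125124856⟩, ⟨nat_lit 19, nat_lit 100, nat_lit 92, nat_lit 61, nat_lit 7429295999⟩]⟩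
noncomputable def p033_l64 : Lf2 := ⟨nat_lit 0, nat_lit 10, [nat_lit 0, nat_lit 5, nat_lit 5, nat_lit 20], false, nat_lit 0, nat_lit 280, nat_lit 160, nat_lit 288, ⟨nat_lit 1000, nat_lit 0, nat_lit 0, nat_lit 0, nat_lit 0, nat_lit 0, nat_lit 0, nat_lit 0, nat_lit 0, nat_lit 0, nat_lit 0, nat_lit 0, nat_lit 0, nat_lit 0, nat_lit 0, nat_lit 0, false, false⟩,
 nat_lit 0, nat_lit 14855, nat_lit 0, nat_lit 0, nat_lit 8252, nat_lit 181419, nat_lit 3741, nat_lit 0, nat_lit 0, nat_lit 0, nat_lit 0, nat_lit 0, nat_lit 0, nat_lit 38336678628929, nat_lit 0, nat_lit 0, nat_lit 0, nat_lit 136228089564, [],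
 ⟨p033_k18, nat_lit 0, nat_lit 0, nat_lit 536, nat_lit 0, nat_lit 742849, [nat_lit 4688000000, nat_lit 7968000001, nat_lit 9842000000], [], [nat_lit 39769166692, nat_lit 37587593704, nat_lit 25961087008, nat_lit 26187800892, nat_lit 37400510083, nat_lit 35481965469, nat_lit 22203325685, nat_lit 22282923131], nat_lit 1271250, nat_lit 1271250, nat_lit 1271250, nat_lit 1271250, nat_lit 0, nat_lit 1977500, [nat_lit 1100000, nat_lit 1785000, nat_lit 1271250], [nat_lit 29, nat_lit 40, nat_lit 20, nat_lit 80, nat_lit 17, nat_lit 428, nat_lit 200, nat_lit 12]⟩, ⟨p033_k9, nat_lit 0, nat_lit 0, nat_lit 16, nat_lit 0, nat_lit 0, [nat_lit 4688000000, nat_lit 7968000000, nat_lit 11872000000], [], [nat_lit 0, nat_lit 35474065382, nat_lit 65132443200, nat_lit 92638633724, nat_lit 137764656831, nat_lit 159826811848, nat_lit 165341038911, nat_lit 181925134630], nat_lit 0, nat_lit 0, nat_lit 0, nat_lit 0, nat_lit 0, nat_lit 0, [],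 [nat_lit 21, nat_lit 40, nat_lit 20, nat_lit 80, nat_lit 14, nat_lit 428, nat_lit 200, nat_lit 10]⟩,
 zbF0, [⟨nat_lit 16, nat_lit 100, nat_lit 95, nat_lit 62, nat_lit 170992580⟩, ⟨nat_lit 19, nat_lit 100, nat_lit 92, nat_lit 61, nat_lit 6072875522⟩]⟩
noncomputable def b_VL_600_600_5_13 : St := ⟨true, nat_lit 1, nat_lit 0, nat_lit 1, nat_lit 40, nat_lit 240, nat_lit 260, nat_lit 240, nat_lit 260, nat_lit 160, nat_lit 240, nat_lit 20, nat_lit 40, nat_lit 0, nat_lit 288, nat_lit 0, nat_lit 288, nat_lit 0, nat_lit 40, nat_lit 0, nat_lit 0, nat_lit 0, nat_lit 0⟩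
theorem d_VL_600_600_5_13 (h : EB TB.env) : Dead b_VL_600_600_5_13 := chkB_sound0 h (T :=
(.spl (nat_lit 5) (nat_lit 160)
(.spl (nat_lit 1) (nat_lit 250)
(.spl (nat_lit 0) (nat_lit 250)
(.leaf p033_l60)
(.trX (nat_lit 16) (nat_lit 100) (nat_lit 95) (nat_lit 62) (nat_lit 280) (.leaf p033_l61)))
(.ord (.trX (nat_lit 16) (nat_lit 100) (nat_lit 95) (nat_lit 62) (nat_lit 280) (.leaf p033_l62))))
(.spl (nat_lit 0) (nat_lit 250)
(.ord (.leaf p033_l63))
(.trX (nat_lit 16) (nat_lit 100) (nat_lit 95) (nat_lit 62) (nat_lit 280) (.leaf p033_l64))))) (by decide +kernel)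
noncomputable def p033_l65 : Lf2 := ⟨nat_lit 0, nat_lit 2, [nat_lit 10, nat_lit 5, nat_lit 5, nat_lit 20], false, nat_lit 0, nat_lit 160, nat_lit 0, nat_lit 80, ⟨nat_lit 1000, nat_lit 0, nat_lit 0, nat_lit 0, nat_lit 0, nat_lit 0, nat_lit 0, nat_lit 0, nat_lit 0, nat_lit 0, nat_lit 0, nat_lit 0, nat_lit 0, nat_lit 0, nat_lit 0, nat_lit 0, false, false⟩,
 nat_lit 0, nat_lit 7576, nat_lit 0, nat_lit 0, nat_lit 4409, nat_lit 8002, nat_lit 0, nat_lit 0, nat_lit 0, nat_lit 3325, nat_lit 0, nat_lit 0, nat_lit 0, nat_lit 0, nat_lit 0, nat_lit 0, nat_lit 0, nat_lit 0, [],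
 ⟨p033_k22, nat_lit 0, nat_lit 0, nat_lit 313, nat_lit 0, nat_lit 424353, [nat_lit 4688000000, nat_lit 6250000000], [], [nat_lit 35668297194, nat_lit 33358254552, nat_lit 30719046650, nat_lit 31700972448, nat_lit 30982820124, nat_lit 31848405764, nat_lit 31154981532, nat_lit 31376725824], nat_lit 1271250, nat_lit 1271250, nat_lit 134400, nat_lit 490000, nat_lit 0, nat_lit 1100001, [nat_lit 1100000, nat_lit 1442500], [nat_lit 31, nat_lit 40, nat_lit 20, nat_lit 80, nat_lit 3, nat_lit 272, nat_lit 60, nat_lit 11]⟩, ⟨p033_k0, nat_lit 0, nat_lit 0, nat_lit 162, nat_lit 0, nat_lit 0, [nat_lit 4688000000, nat_lit 6250000000, nat_lit 7968000000], [], [nat_lit 17394281344, nat_lit 19864080972, nat_lit 15108940352, nat_lit 17080959188, nat_lit 13016712010, nat_lit 14969068376, nat_lit 11152275760, nat_lit 12998886324], nat_lit 0, nat_lit 0, nat_lit 0, nat_lit 0, nat_lit 0, nat_lit 0, [], [nat_lit 9, nat_lit 40, nat_lit 20,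 nat_lit 80, nat_lit 2, nat_lit 249, nat_lit 40, nat_lit 9]⟩,
 zbF0, [⟨nat_lit 0, nat_lit 100, nat_lit 97, nat_lit 49, nat_lit 942146652⟩]⟩
noncomputable def p033_l66 : Lf2 := ⟨nat_lit 0, nat_lit 5, [nat_lit 4, nat_lit 5, nat_lit 5, nat_lit 20], false, nat_lit 0, nat_lit 160, nat_lit 0, nat_lit 80, ⟨nat_lit 1000, nat_lit 0, nat_lit 0, nat_lit 0, nat_lit 0, nat_lit 0, nat_lit 0, nat_lit 0, nat_lit 0, nat_lit 0, nat_lit 0, nat_lit 0, nat_lit 0, nat_lit 0, nat_lit 0, nat_lit 0, false, false⟩,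
 nat_lit 0, nat_lit 18754, nat_lit 0, nat_lit 0, nat_lit 10916, nat_lit 7633, nat_lit 97, nat_lit 0, nat_lit 0, nat_lit 3401, nat_lit 0, nat_lit 0, nat_lit 0, nat_lit 0, nat_lit 0, nat_lit 0, nat_lit 0, nat_lit 0, [],
 ⟨p033_k23, nat_lit 0, nat_lit 0, nat_lit 321, nat_lit 0, nat_lit 308870, [nat_lit 4688000000, nat_lit 6250000000, nat_lit 7968000000], [], [nat_lit 28164315240, nat_lit 27318393204, nat_lit 21234392131, nat_lit 22345443012, nat_lit 23476502826, nat_lit 20854820205, nat_lit 25880980414, nat_lit 23309138066], nat_lit 1271250, nat_lit 1271250, nat_lit 134400, nat_lit 490000, nat_lit 0, nat_lit 1100001, [nat_lit 1100000, nat_lit 1442500, nat_lit 1271250], [nat_lit 9, nat_lit 40, nat_lit 20, nat_lit 80, nat_lit 2, nat_lit 272, nat_lit 60, nat_lit 9]⟩, ⟨p033_k8, nat_lit 0, nat_lit 0, nat_lit 207, nat_lit 0, nat_lit 0, [nat_lit 4688000000, nat_lit 6250000000, nat_lit 9842000000], [], [nat_lit 17914249690,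 nat_lit 19793912321, nat_lit 15651305408, nat_lit 17564499002, nat_lit 13671316239, nat_lit 15565450751, nat_lit 11944194040, nat_lit 13736457546], nat_lit 0, nat_lit 0, nat_lit 0, nat_lit 0, nat_lit 0, nat_lit 0, [], [nat_lit 11, nat_lit 40, nat_lit 20, nat_lit 80, nat_lit 1, nat_lit 345, nat_lit 125, nat_lit 10]⟩,
 zbF0, [⟨nat_lit 0, nat_lit 100, nat_lit 98, nat_lit 57, nat_lit 698220445⟩]⟩
noncomputable def p033_l67 : Lf2 := ⟨nat_lit 0, nat_lit 5, [nat_lit 4, nat_lit 5, nat_lit 5, nat_lit 20], false, nat_lit 0, nat_lit 160, nat_lit 0, nat_lit 80, ⟨nat_lit 1000, nat_lit 0, nat_lit 0, nat_lit 0, nat_lit 0, nat_lit 0, nat_lit 0, nat_lit 0, nat_lit 0, nat_lit 0, nat_lit 0, nat_lit 0, nat_lit 0, nat_lit 0, nat_lit 0, nat_lit 0, false, false⟩,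
 nat_lit 0, nat_lit 16397, nat_lit 0, nat_lit 0, nat_lit 9986, nat_lit 7709, nat_lit 946, nat_lit 0, nat_lit 0, nat_lit 3412, nat_lit 0, nat_lit 0, nat_lit 0, nat_lit 0, nat_lit 0, nat_lit 0, nat_lit 0, nat_lit 0, [],
 ⟨p033_k24, nat_lit 0, nat_lit 0, nat_lit 334, nat_lit 0, nat_lit 340822, [nat_lit 4688000000, nat_lit 6250000000, nat_lit 7968000000], [], [nat_lit 24092088705, nat_lit 25240156235, nat_lit 19950799752, nat_lit 21184464414, nat_lit 20454927393, nat_lit 18059909120, nat_lit 22745041386, nat_lit 20392309828], nat_lit 1271250, nat_lit 1271250, nat_lit 157850, nat_lit 490000, nat_lit 0, nat_lit 1100001, [nat_lit 1100000, nat_lit 1442500, nat_lit 1271250], [nat_lit 9, nat_lit 40, nat_lit 20, nat_lit 80, nat_lit 2, nat_lit 272, nat_lit 60, nat_lit 9]⟩, ⟨p033_k8, nat_lit 0, nat_lit 0, nat_lit 203, nat_lit 0, nat_lit 0, [nat_lit 4688000000, nat_lit 6250000000, nat_lit 9842000000], [], [nat_lit 17586119592,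 nat_lit 19474751937, nat_lit 15539598784, nat_lit 17464908146, nat_lit 13330173387, nat_lit 15230614919, nat_lit 11781088920, nat_lit 13584545858], nat_lit 0, nat_lit 0, nat_lit 0, nat_lit 0, nat_lit 0, nat_lit 0, [], [nat_lit 11, nat_lit 40, nat_lit 20, nat_lit 80, nat_lit 1, nat_lit 345, nat_lit 125, nat_lit 10]⟩,
 zbF0, [⟨nat_lit 0, nat_lit 100, nat_lit 96, nat_lit 69, nat_lit 685907875⟩]⟩
noncomputable def p033_l68 : Lf2 := ⟨nat_lit 0, nat_lit 5, [nat_lit 4, nat_lit 5, nat_lit 5, nat_lit 20], false, nat_lit 0, nat_lit 160, nat_lit 80, nat_lit 160, ⟨nat_lit 1000, nat_lit 0, nat_lit 0, nat_lit 0, nat_lit 0, nat_lit 0, nat_lit 0, nat_lit 0, nat_lit 0, nat_lit 0, nat_lit 0, nat_lit 0, nat_lit 0, nat_lit 0, nat_lit 0, nat_lit 0, false, false⟩,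
 nat_lit 0, nat_lit 8353, nat_lit 0, nat_lit 0, nat_lit 4862, nat_lit 21947, nat_lit 1518, nat_lit 0, nat_lit 0, nat_lit 0, nat_lit 0, nat_lit 0, nat_lit 0, nat_lit 0, nat_lit 0, nat_lit 0, nat_lit 0, nat_lit 4249315456, [],
 ⟨p033_k23, nat_lit 0, nat_lit 0, nat_lit 403, nat_lit 0, nat_lit 443515, [nat_lit 4688000000, nat_lit 6250000000, nat_lit 7968000000], [], [nat_lit 35833128492, nat_lit 33285741936, nat_lit 31502662560, nat_lit 32311313892, nat_lit 31145588990, nat_lit 31858140929, nat_lit 32740099448, nat_lit 31097084748], nat_lit 1271250, nat_lit 1271250, nat_lit 134400, nat_lit 490000, nat_lit 0, nat_lit 1100001, [nat_lit 1100000, nat_lit 1442500, nat_lit 1271250], [nat_lit 9, nat_lit 40, nat_lit 20, nat_lit 80, nat_lit 2, nat_lit 272, nat_lit 60, nat_lit 9]⟩, ⟨p033_k8, nat_lit 0, nat_lit 0, nat_lit 29, nat_lit 0, nat_lit 0, [nat_lit 4688000000, nat_lit 6250000000, nat_lit 9842000000], [], [nat_lit 12437128072,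 nat_lit 19156253413, nat_lit 625307432, nat_lit 7106421878, nat_lit 10549884261, nat_lit 16500349951, nat_lit 0, nat_lit 5693014886], nat_lit 0, nat_lit 0, nat_lit 0, nat_lit 0, nat_lit 0, nat_lit 0, [], [nat_lit 11, nat_lit 40, nat_lit 20, nat_lit 80, nat_lit 1, nat_lit 345, nat_lit 125, nat_lit 10]⟩,
 zbF0, [⟨nat_lit 0, nat_lit 100, nat_lit 97, nat_lit 59, nat_lit 1569520126⟩]⟩
noncomputable def p033_l69 : Lf2 := ⟨nat_lit 0, nat_lit 5, [nat_lit 4, nat_lit 5, nat_lit 5, nat_lit 20], false, nat_lit 0, nat_lit 80, nat_lit 160, nat_lit 288, ⟨nat_lit 1000, nat_lit 0, nat_lit 0, nat_lit 0, nat_lit 0, nat_lit 0, nat_lit 0, nat_lit 0, nat_lit 0, nat_lit 0, nat_lit 0, nat_lit 0, nat_lit 0, nat_lit 0, nat_lit 0, nat_lit 0, false, false⟩,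
 nat_lit 0, nat_lit 17890, nat_lit 0, nat_lit 0, nat_lit 10413, nat_lit 6784, nat_lit 3525, nat_lit 0, nat_lit 0, nat_lit 0, nat_lit 0, nat_lit 0, nat_lit 0, nat_lit 0, nat_lit 0, nat_lit 0, nat_lit 0, nat_lit 0, [],
 ⟨p033_k23, nat_lit 0, nat_lit 0, nat_lit 403, nat_lit 0, nat_lit 443515, [nat_lit 4688000000, nat_lit 6250000000, nat_lit 7968000000], [], [nat_lit 25665629932, nat_lit 26649005156, nat_lit 21374924125, nat_lit 23916653312, nat_lit 21453086942, nat_lit 16519594976, nat_lit 21878084277, nat_lit 16971416199], nat_lit 1271250, nat_lit 1271250, nat_lit 134400, nat_lit 230001, nat_lit 0, nat_lit 490000, [nat_lit 1100000, nat_lit 1442500, nat_lit 1271250], [nat_lit 9, nat_lit 40, nat_lit 20, nat_lit 80, nat_lit 2, nat_lit 238, nat_lit 30, nat_lit 8]⟩, ⟨p033_k8, nat_lit 0, nat_lit 0, nat_lit 75, nat_lit 0, nat_lit 0, [nat_lit 4688000000, nat_lit 6250000000, nat_lit 9842000000], [], [nat_lit 10301661639, nat_lit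 12339377085, nat_lit 9469244128, nat_lit 11485821616, nat_lit 19539798728, nat_lit 21234453572, nat_lit 18636211021, nat_lit 20070774743], nat_lit 0, nat_lit 0, nat_lit 0, nat_lit 0, nat_lit 0, nat_lit 0, [], [nat_lit 11, nat_lit 40, nat_lit 20, nat_lit 80, nat_lit 1, nat_lit 373, nat_lit 150, nat_lit 11]⟩,
 zbF0, [⟨nat_lit 0, nat_lit 100, nat_lit 97, nat_lit 49, nat_lit 1609216287⟩, ⟨nat_lit 7, nat_lit 99, nat_lit 100, nat_lit 54, nat_lit 1069608493⟩]⟩
noncomputable def p033_l70 : Lf2 := ⟨nat_lit 0, nat_lit 5, [nat_lit 4, nat_lit 5, nat_lit 5, nat_lit 20], false, nat_lit 0, nat_lit 80, nat_lit 160, nat_lit 288, ⟨nat_lit 1000, nat_lit 0, nat_lit 0, nat_lit 0, nat_lit 0, nat_lit 0, nat_lit 0, nat_lit 0, nat_lit 0, nat_lit 0, nat_lit 0, nat_lit 0, nat_lit 0, nat_lit 0, nat_lit 0, nat_lit 0, false, false⟩,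
 nat_lit 0, nat_lit 8469, nat_lit 0, nat_lit 0, nat_lit 4929, nat_lit 7028, nat_lit 1286, nat_lit 0, nat_lit 0, nat_lit 0, nat_lit 0, nat_lit 0, nat_lit 0, nat_lit 0, nat_lit 0, nat_lit 0, nat_lit 0, nat_lit 0, [],
 ⟨p033_k23, nat_lit 0, nat_lit 0, nat_lit 389, nat_lit 0, nat_lit 443515, [nat_lit 4688000000, nat_lit 6250000000, nat_lit 7968000000], [], [nat_lit 33795805394, nat_lit 33541125116, nat_lit 32256925270, nat_lit 33069575564, nat_lit 31062702340, nat_lit 31855787508, nat_lit 30680399664, nat_lit 31441494368], nat_lit 1271250, nat_lit 1271250, nat_lit 230001, nat_lit 490000, nat_lit 0, nat_lit 490000, [nat_lit 1100000, nat_lit 1442500, nat_lit 1271250], [nat_lit 9, nat_lit 40, nat_lit 20, nat_lit 80, nat_lit 2, nat_lit 249, nat_lit 40, nat_lit 9]⟩, ⟨p033_k8, nat_lit 0, nat_lit 0, nat_lit 59, nat_lit 0, nat_lit 0, [nat_lit 4688000000, nat_lit 6250000000, nat_lit 9842000000], [], [nat_lit 9142550576, nat_lit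 11204971272, nat_lit 8205288400, nat_lit 10186231304, nat_lit 18487851994, nat_lit 20208338559, nat_lit 17220965936, nat_lit 18630058444], nat_lit 0, nat_lit 0, nat_lit 0, nat_lit 0, nat_lit 0, nat_lit 0, [], [nat_lit 11, nat_lit 40, nat_lit 20, nat_lit 80, nat_lit 1, nat_lit 401, nat_lit 175, nat_lit 11]⟩,
 zbF0, [⟨nat_lit 19, nat_lit 100, nat_lit 92, nat_lit 61, nat_lit 953712739⟩]⟩
noncomputable def p033_l71 : Lf2 := ⟨nat_lit 0, nat_lit 5, [nat_lit 4, nat_lit 5, nat_lit 5, nat_lit 20], false, nat_lit 80, nat_lit 160, nat_lit 160, nat_lit 288, ⟨nat_lit 1000, nat_lit 0, nat_lit 0, nat_lit 0, nat_lit 0, nat_lit 0, nat_lit 0, nat_lit 0, nat_lit 0, nat_lit 0, nat_lit 0, nat_lit 0, nat_lit 0, nat_lit 0, nat_lit 0, nat_lit 0, false, false⟩,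
 nat_lit 0, nat_lit 19846, nat_lit 0, nat_lit 0, nat_lit 11552, nat_lit 6784, nat_lit 4072, nat_lit 0, nat_lit 0, nat_lit 0, nat_lit 0, nat_lit 0, nat_lit 0, nat_lit 0, nat_lit 0, nat_lit 0, nat_lit 0, nat_lit 0, [],
 ⟨p033_k23, nat_lit 0, nat_lit 0, nat_lit 309, nat_lit 0, nat_lit 443515, [nat_lit 4688000000, nat_lit 6250000000, nat_lit 7968000000], [], [nat_lit 14415649556, nat_lit 15858701082, nat_lit 9725426656, nat_lit 13437668992, nat_lit 15867859735, nat_lit 15073935745, nat_lit 16237149904, nat_lit 12886321664], nat_lit 1271250, nat_lit 1271250, nat_lit 134400, nat_lit 230001, nat_lit 490000, nat_lit 1100001, [nat_lit 1100000, nat_lit 1442500, nat_lit 1271250], [nat_lit 9, nat_lit 40, nat_lit 20, nat_lit 80, nat_lit 2, nat_lit 260, nat_lit 50, nat_lit 9]⟩, ⟨p033_k8, nat_lit 0, nat_lit 0, nat_lit 75, nat_lit 0, nat_lit 0, [nat_lit 4688000000, nat_lit 6250000000, nat_lit 9842000000], [], [nat_lit 10301661639,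 nat_lit 12339377085, nat_lit 9469244128, nat_lit 11485821616, nat_lit 19539798728, nat_lit 21234453572, nat_lit 18636211021, nat_lit 20070774743], nat_lit 0, nat_lit 0, nat_lit 0, nat_lit 0, nat_lit 0, nat_lit 0, [], [nat_lit 11, nat_lit 40, nat_lit 20, nat_lit 80, nat_lit 1, nat_lit 373, nat_lit 150, nat_lit 11]⟩,
 zbF0, [⟨nat_lit 0, nat_lit 100, nat_lit 97, nat_lit 49, nat_lit 947369786⟩, ⟨nat_lit 7, nat_lit 99, nat_lit 100, nat_lit 54, nat_lit 1064459808⟩]⟩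
noncomputable def p033_l72 : Lf2 := ⟨nat_lit 0, nat_lit 5, [nat_lit 4, nat_lit 5, nat_lit 5, nat_lit 20], false, nat_lit 80, nat_lit 160, nat_lit 160, nat_lit 288, ⟨nat_lit 1000, nat_lit 0, nat_lit 0, nat_lit 0, nat_lit 0, nat_lit 0, nat_lit 0, nat_lit 0, nat_lit 0, nat_lit 0, nat_lit 0, nat_lit 0, nat_lit 0, nat_lit 0, nat_lit 0, nat_lit 0, false, false⟩,
 nat_lit 0, nat_lit 12974, nat_lit 0, nat_lit 0, nat_lit 7551, nat_lit 7028, nat_lit 2200, nat_lit 0, nat_lit 0, nat_lit 0, nat_lit 0, nat_lit 0, nat_lit 0, nat_lit 0, nat_lit 0, nat_lit 0, nat_lit 0, nat_lit 0, [],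
 ⟨p033_k23, nat_lit 0, nat_lit 0, nat_lit 294, nat_lit 0, nat_lit 443515, [nat_lit 4688000000, nat_lit 6250000000, nat_lit 7968000000], [], [nat_lit 28445381886, nat_lit 24512987208, nat_lit 21083595690, nat_lit 17426208432, nat_lit 25790654752, nat_lit 22183632664, nat_lit 27518561954, nat_lit 23960485448], nat_lit 1271250, nat_lit 1271250, nat_lit 230001, nat_lit 490000, nat_lit 490000, nat_lit 1100001, [nat_lit 1100000, nat_lit 1442500, nat_lit 1271250], [nat_lit 9, nat_lit 40, nat_lit 20, nat_lit 80, nat_lit 2, nat_lit 272, nat_lit 60, nat_lit 9]⟩, ⟨p033_k8, nat_lit 0, nat_lit 0, nat_lit 59, nat_lit 0, nat_lit 0, [nat_lit 4688000000, nat_lit 6250000000, nat_lit 9842000000], [], [nat_lit 9142550576, nat_lit 11204971272, nat_lit 8205288400, nat_lit 10186231304, nat_lit 18487851994, nat_lit 20208338559, nat_lit 17220965936, nat_lit 18630058444], nat_lit 0, nat_lit 0, nat_lit 0, nat_lit 0, nat_lit 0, nat_lit 0, [],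 [nat_lit 11, nat_lit 40, nat_lit 20, nat_lit 80, nat_lit 1, nat_lit 401, nat_lit 175, nat_lit 11]⟩,
 zbF0, [⟨nat_lit 19, nat_lit 100, nat_lit 92, nat_lit 61, nat_lit 931850309⟩]⟩
noncomputable def p033_l73 : Lf2 := ⟨nat_lit 0, nat_lit 10, [nat_lit 0, nat_lit 5, nat_lit 5, nat_lit 20], true, nat_lit 0, nat_lit 40, nat_lit 0, nat_lit 288, ⟨nat_lit 0, nat_lit 0, nat_lit 1000, nat_lit 6, nat_lit 92, nat_lit 0, nat_lit 3, nat_lit 0, nat_lit 1067, nat_lit 207, nat_lit 79350, nat_lit 284, nat_lit 63603445, nat_lit 0, nat_lit 0, nat_lit 1002771, false, false⟩,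
 nat_lit 0, nat_lit 7487, nat_lit 0, nat_lit 0, nat_lit 4358, nat_lit 0, nat_lit 0, nat_lit 0, nat_lit 0, nat_lit 0, nat_lit 0, nat_lit 0, nat_lit 0, nat_lit 0, nat_lit 152, nat_lit 770800, nat_lit 0, nat_lit 0, [(nat_lit 9, [(nat_lit 5, nat_lit 382), (nat_lit 6, nat_lit 618)])],
 ⟨p033_k25, nat_lit 0, nat_lit 0, nat_lit 372, nat_lit 0, nat_lit 271294, [nat_lit 3693401601, nat_lit 2724914667, nat_lit 133589333], [], [nat_lit 14177173165, nat_lit 15910884084, nat_lit 13507982541, nat_lit 14895768992, nat_lit 12890069562, nat_lit 14175329443, nat_lit 12586959939, nat_lit 13856969871], nat_lit 1271250, nat_lit 1271250, nat_lit 134400, nat_lit 230001, nat_lit 0, nat_lit 230001, [nat_lit 1100000, nat_lit 1442500, nat_lit 1271250], [nat_lit 11, nat_lit 40, nat_lit 20, nat_lit 80, nat_lit 1, nat_lit 317, nat_lit 100, nat_lit 10]⟩, C1.Rw.none,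
 ⟨nat_lit 5477, nat_lit 5917, ⟨.ofNat (nat_lit 197129), .ofNat (nat_lit 228543), .ofNat (nat_lit 218469), .ofNat (nat_lit 249882), .ofNat (nat_lit 213007), .ofNat (nat_lit 242980), .ofNat (nat_lit 234364), .ofNat (nat_lit 264337)⟩, ⟨.negSucc (nat_lit 84722), .negSucc (nat_lit 6188), .negSucc (nat_lit 63383), .ofNat (nat_lit 15150), .negSucc (nat_lit 66879), .ofNat (nat_lit 8053), .negSucc (nat_lit 45522), .ofNat (nat_lit 29410)⟩⟩, [⟨nat_lit 0, nat_lit 100, nat_lit 97, nat_lit 59, nat_lit 512075914⟩]⟩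
noncomputable def p033_l74 : Lf2 := ⟨nat_lit 0, nat_lit 10, [nat_lit 0, nat_lit 5, nat_lit 5, nat_lit 20], true, nat_lit 40, nat_lit 80, nat_lit 0, nat_lit 288, ⟨nat_lit 0, nat_lit 0, nat_lit 1000, nat_lit 6, nat_lit 92, nat_lit 1000, nat_lit 20, nat_lit 1000, nat_lit 3750, nat_lit 230, nat_lit 79350, nat_lit 284, nat_lit 63603445, nat_lit 0, nat_lit 0, nat_lit 1002771, false, false⟩,
 nat_lit 0, nat_lit 8244, nat_lit 0, nat_lit 0, nat_lit 4798, nat_lit 0, nat_lit 0, nat_lit 0, nat_lit 0, nat_lit 0, nat_lit 0, nat_lit 0, nat_lit 0, nat_lit 0, nat_lit 163, nat_lit 832600, nat_lit 0, nat_lit 0, [(nat_lit 9, [(nat_lit 5, nat_lit 279), (nat_lit 6, nat_lit 721)])],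
 ⟨p033_k25, nat_lit 0, nat_lit 0, nat_lit 340, nat_lit 0, nat_lit 271294, [nat_lit 3825235200, nat_lit 2914289334, nat_lit 166098666], [], [nat_lit 12666799719, nat_lit 14401317429, nat_lit 11982347968, nat_lit 13403385080, nat_lit 12037350956, nat_lit 12483553671, nat_lit 12361975520, nat_lit 11967422008], nat_lit 1271250, nat_lit 1271250, nat_lit 134400, nat_lit 230001, nat_lit 230001, nat_lit 490000, [nat_lit 1100000, nat_lit 1442500, nat_lit 1271250], [nat_lit 11, nat_lit 40, nat_lit 20, nat_lit 80, nat_lit 1, nat_lit 317, nat_lit 100, nat_lit 9]⟩, C1.Rw.none,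
 ⟨nat_lit 5477, nat_lit 5917, ⟨.ofNat (nat_lit 197129), .ofNat (nat_lit 228543), .ofNat (nat_lit 218469), .ofNat (nat_lit 249882), .ofNat (nat_lit 213007), .ofNat (nat_lit 242980), .ofNat (nat_lit 234364), .ofNat (nat_lit 264337)⟩, ⟨.negSucc (nat_lit 6188), .ofNat (nat_lit 72344), .ofNat (nat_lit 15150), .ofNat (nat_lit 93684), .ofNat (nat_lit 8053), .ofNat (nat_lit 82986), .ofNat (nat_lit 29410), .ofNat (nat_lit 104343)⟩⟩, [⟨nat_lit 0, nat_lit 100, nat_lit 97, nat_lit 59, nat_lit 493202122⟩]⟩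
noncomputable def p033_l75 : Lf2 := ⟨nat_lit 0, nat_lit 10, [nat_lit 0, nat_lit 5, nat_lit 5, nat_lit 20], true, nat_lit 80, nat_lit 160, nat_lit 0, nat_lit 288, ⟨nat_lit 0, nat_lit 0, nat_lit 1000, nat_lit 6, nat_lit 91, nat_lit 1000, nat_lit 65, nat_lit 1000, nat_lit 40017, nat_lit 264, nat_lit 77067, nat_lit 283, nat_lit 61130349, nat_lit 0, nat_lit 0, nat_lit 1868705, false, false⟩,
 nat_lit 0, nat_lit 11483, nat_lit 0, nat_lit 0, nat_lit 6684, nat_lit 0, nat_lit 0, nat_lit 0, nat_lit 0, nat_lit 0, nat_lit 0, nat_lit 0, nat_lit 0, nat_lit 0, nat_lit 192, nat_lit 1000000, nat_lit 0, nat_lit 0, [(nat_lit 9, [(nat_lit 6, nat_lit 1000)])],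
 ⟨p033_k26, nat_lit 0, nat_lit 0, nat_lit 281, nat_lit 0, nat_lit 217687, [nat_lit 5107600001, nat_lit 178600000], [], [nat_lit 12318509917, nat_lit 11827941444, nat_lit 9564349001, nat_lit 10542083732, nat_lit 11220549997, nat_lit 12414920423, nat_lit 10081298656, nat_lit 11267106272], nat_lit 1271250, nat_lit 1271250, nat_lit 134400, nat_lit 230001, nat_lit 490000, nat_lit 1100001, [nat_lit 1100000, nat_lit 2127500], [nat_lit 70, nat_lit 40, nat_lit 20, nat_lit 80, nat_lit 13, nat_lit 345, nat_lit 125, nat_lit 10]⟩, C1.Rw.none,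
 ⟨nat_lit 5700, nat_lit 5917, ⟨.ofNat (nat_lit 197129), .ofNat (nat_lit 228543), .ofNat (nat_lit 218469), .ofNat (nat_lit 249882), .ofNat (nat_lit 205119), .ofNat (nat_lit 235806), .ofNat (nat_lit 226461), .ofNat (nat_lit 257148)⟩, ⟨.ofNat (nat_lit 72344), .ofNat (nat_lit 229411), .ofNat (nat_lit 93684), .ofNat (nat_lit 250751), .ofNat (nat_lit 77764), .ofNat (nat_lit 231202), .ofNat (nat_lit 99106), .ofNat (nat_lit 252544)⟩⟩, [⟨nat_lit 0, nat_lit 100, nat_lit 98, nat_lit 64, nat_lit 991415771⟩]⟩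
noncomputable def p033_l76 : Lf2 := ⟨nat_lit 0, nat_lit 10, [nat_lit 0, nat_lit 5, nat_lit 5, nat_lit 20], true, nat_lit 80, nat_lit 160, nat_lit 0, nat_lit 288, ⟨nat_lit 0, nat_lit 0, nat_lit 1000, nat_lit 6, nat_lit 95, nat_lit 1000, nat_lit 67, nat_lit 1000, nat_lit 41667, nat_lit 265, nat_lit 86400, nat_lit 287, nat_lit 60709524, nat_lit 0, nat_lit 0, nat_lit 1965177, false, false⟩,
 nat_lit 0, nat_lit 8738, nat_lit 0, nat_lit 0, nat_lit 5321, nat_lit 0, nat_lit 643, nat_lit 0, nat_lit 0, nat_lit 0, nat_lit 0, nat_lit 0, nat_lit 0, nat_lit 0, nat_lit 87, nat_lit 400000, nat_lit 0, nat_lit 0, [(nat_lit 9, [(nat_lit 5, nat_lit 1000)])],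
 ⟨p033_k27, nat_lit 0, nat_lit 0, nat_lit 294, nat_lit 0, nat_lit 257220, [nat_lit 2918400000, nat_lit 9200000], [], [nat_lit 11187147439, nat_lit 12157323962, nat_lit 10611138131, nat_lit 11424457816, nat_lit 11948804352, nat_lit 12982292553, nat_lit 11304340476, nat_lit 12331563272], nat_lit 1271250, nat_lit 1271250, nat_lit 157850, nat_lit 230001, nat_lit 490000, nat_lit 1100001, [nat_lit 1100000, nat_lit 2127500], [nat_lit 70, nat_lit 40, nat_lit 20, nat_lit 80, nat_lit 13, nat_lit 345, nat_lit 125, nat_lit 10]⟩, C1.Rw.none,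
 ⟨nat_lit 5477, nat_lit 5701, ⟨.ofNat (nat_lit 212791), .ofNat (nat_lit 235806), .ofNat (nat_lit 234133), .ofNat (nat_lit 257148), .ofNat (nat_lit 220501), .ofNat (nat_lit 242980), .ofNat (nat_lit 241858), .ofNat (nat_lit 264337)⟩, ⟨.ofNat (nat_lit 77764), .ofNat (nat_lit 231202), .ofNat (nat_lit 99106), .ofNat (nat_lit 252544), .ofNat (nat_lit 82986), .ofNat (nat_lit 232852), .ofNat (nat_lit 104343), .ofNat (nat_lit 254209)⟩⟩, [⟨nat_lit 0, nat_lit 100, nat_lit 96, nat_lit 61, nat_lit 1242487521⟩]⟩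
noncomputable def p033_l77 : Lf2 := ⟨nat_lit 0, nat_lit 10, [nat_lit 0, nat_lit 5, nat_lit 5, nat_lit 20], false, nat_lit 0, nat_lit 160, nat_lit 0, nat_lit 160, ⟨nat_lit 1000, nat_lit 0, nat_lit 0, nat_lit 0, nat_lit 0, nat_lit 0, nat_lit 0, nat_lit 0, nat_lit 0, nat_lit 0, nat_lit 0, nat_lit 0, nat_lit 0, nat_lit 0, nat_lit 0, nat_lit 0, false, false⟩,
 nat_lit 0, nat_lit 15946, nat_lit 0, nat_lit 0, nat_lit 9282, nat_lit 6872, nat_lit 17, nat_lit 0, nat_lit 0, nat_lit 2809, nat_lit 0, nat_lit 0, nat_lit 0, nat_lit 0, nat_lit 0, nat_lit 0, nat_lit 0, nat_lit 0, [],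
 ⟨p033_k25, nat_lit 0, nat_lit 0, nat_lit 337, nat_lit 0, nat_lit 217687, [nat_lit 4688000000, nat_lit 6250000000, nat_lit 9842000000], [], [nat_lit 30398522050, nat_lit 31211218962, nat_lit 28425880686, nat_lit 29206596328, nat_lit 26614408614, nat_lit 24997446956, nat_lit 28500013378, nat_lit 26313146332], nat_lit 1271250, nat_lit 1271250, nat_lit 230001, nat_lit 490000, nat_lit 0, nat_lit 1100001, [nat_lit 1100000, nat_lit 1442500, nat_lit 1271250], [nat_lit 11, nat_lit 40, nat_lit 20, nat_lit 80, nat_lit 1, nat_lit 373, nat_lit 150, nat_lit 11]⟩, ⟨p033_k21, nat_lit 0, nat_lit 0, nat_lit 330, nat_lit 0, nat_lit 0, [nat_lit 4688000000, nat_lit 6250000000, nat_lit 11872000000], [], [nat_lit 20228840167, nat_lit 21730622759, nat_lit 18530144839, nat_lit 19922469607, nat_lit 15962214151, nat_lit 17046160880, nat_lit 14869347047, nat_lit 16231331104], nat_lit 0, nat_lit 0, nat_lit 0, nat_lit 0, nat_lit 0, nat_lit 0,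 [], [nat_lit 48, nat_lit 40, nat_lit 20, nat_lit 80, nat_lit 12, nat_lit 345, nat_lit 125, nat_lit 9]⟩,
 zbF0, [⟨nat_lit 0, nat_lit 100, nat_lit 98, nat_lit 64, nat_lit 554159272⟩]⟩
noncomputable def p033_l78 : Lf2 := ⟨nat_lit 0, nat_lit 10, [nat_lit 0, nat_lit 5, nat_lit 5, nat_lit 20], false, nat_lit 0, nat_lit 160, nat_lit 0, nat_lit 160, ⟨nat_lit 1000, nat_lit 0, nat_lit 0, nat_lit 0, nat_lit 0, nat_lit 0, nat_lit 0, nat_lit 0, nat_lit 0, nat_lit 0, nat_lit 0, nat_lit 0, nat_lit 0, nat_lit 0, nat_lit 0, nat_lit 0, false, false⟩,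
 nat_lit 0, nat_lit 13916, nat_lit 0, nat_lit 0, nat_lit 8475, nat_lit 6915, nat_lit 560, nat_lit 0, nat_lit 0, nat_lit 2834, nat_lit 0, nat_lit 0, nat_lit 0, nat_lit 0, nat_lit 0, nat_lit 0, nat_lit 0, nat_lit 0, [],
 ⟨p033_k28, nat_lit 0, nat_lit 0, nat_lit 354, nat_lit 0, nat_lit 257220, [nat_lit 4688000000, nat_lit 6250000000, nat_lit 9842000000], [], [nat_lit 28554601600, nat_lit 29323949700, nat_lit 26788154525, nat_lit 27527728500, nat_lit 24523430300, nat_lit 23781412800, nat_lit 26362983225, nat_lit 24366247800], nat_lit 1271250, nat_lit 1271250, nat_lit 230001, nat_lit 490000, nat_lit 0, nat_lit 1100001, [nat_lit 1100000, nat_lit 1442500, nat_lit 1271250], [nat_lit 11, nat_lit 40, nat_lit 20, nat_lit 80, nat_lit 1, nat_lit 373, nat_lit 150, nat_lit 11]⟩, ⟨p033_k21, nat_lit 0, nat_lit 0, nat_lit 330, nat_lit 0, nat_lit 0, [nat_lit 4688000000, nat_lit 6250000000, nat_lit 11872000000], [], [nat_lit 20145183190,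 nat_lit 21652142380, nat_lit 18382257730, nat_lit 19828106490, nat_lit 15783728070, nat_lit 16964333600, nat_lit 14679524790, nat_lit 16139488780], nat_lit 0, nat_lit 0, nat_lit 0, nat_lit 0, nat_lit 0, nat_lit 0, [], [nat_lit 48, nat_lit 40, nat_lit 20, nat_lit 80, nat_lit 12, nat_lit 345, nat_lit 125, nat_lit 9]⟩,
 zbF0, [⟨nat_lit 0, nat_lit 100, nat_lit 96, nat_lit 69, nat_lit 574363229⟩]⟩
noncomputable def p033_l79 : Lf2 := ⟨nat_lit 0, nat_lit 10, [nat_lit 0, nat_lit 5, nat_lit 5, nat_lit 20], false, nat_lit 0, nat_lit 160, nat_lit 160, nat_lit 288, ⟨nat_lit 1000, nat_lit 0, nat_lit 0, nat_lit 0, nat_lit 0, nat_lit 0, nat_lit 0, nat_lit 0, nat_lit 0, nat_lit 0, nat_lit 0, nat_lit 0, nat_lit 0, nat_lit 0, nat_lit 0, nat_lit 0, false, false⟩,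
 nat_lit 0, nat_lit 17593, nat_lit 0, nat_lit 0, nat_lit 10240, nat_lit 7028, nat_lit 2262, nat_lit 0, nat_lit 0, nat_lit 0, nat_lit 0, nat_lit 0, nat_lit 0, nat_lit 0, nat_lit 0, nat_lit 0, nat_lit 0, nat_lit 0, [],
 ⟨p033_k25, nat_lit 0, nat_lit 0, nat_lit 359, nat_lit 0, nat_lit 271294, [nat_lit 4688000000, nat_lit 6250000000, nat_lit 9842000000], [], [nat_lit 21784752490, nat_lit 24045703930, nat_lit 18941479530, nat_lit 21127609050, nat_lit 21351018980, nat_lit 16459493860, nat_lit 23323899460, nat_lit 18498750020], nat_lit 1271250, nat_lit 1271250, nat_lit 230001, nat_lit 490000, nat_lit 0, nat_lit 1100001, [nat_lit 1100000, nat_lit 1442500, nat_lit 1271250], [nat_lit 11, nat_lit 40, nat_lit 20, nat_lit 80, nat_lit 1, nat_lit 373, nat_lit 150, nat_lit 11]⟩, ⟨p033_k21, nat_lit 0, nat_lit 0, nat_lit 59, nat_lit 0, nat_lit 0, [nat_lit 4688000000, nat_lit 6250000000, nat_lit 11872000000], [], [nat_lit 9142550576,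 nat_lit 11204971272, nat_lit 8205288400, nat_lit 10186231304, nat_lit 18487851994, nat_lit 20208338559, nat_lit 17220965936, nat_lit 18630058444], nat_lit 0, nat_lit 0, nat_lit 0, nat_lit 0, nat_lit 0, nat_lit 0, [], [nat_lit 48, nat_lit 40, nat_lit 20, nat_lit 80, nat_lit 12, nat_lit 401, nat_lit 175, nat_lit 10]⟩,
 zbF0, [⟨nat_lit 7, nat_lit 99, nat_lit 100, nat_lit 54, nat_lit 1052645720⟩]⟩
noncomputable def p033_l80 : Lf2 := ⟨nat_lit 0, nat_lit 10, [nat_lit 0, nat_lit 5, nat_lit 5, nat_lit 20], false, nat_lit 0, nat_lit 160, nat_lit 0, nat_lit 160, ⟨nat_lit 1000, nat_lit 0, nat_lit 0, nat_lit 0, nat_lit 0, nat_lit 0, nat_lit 0, nat_lit 0, nat_lit 0, nat_lit 0, nat_lit 0, nat_lit 0, nat_lit 0, nat_lit 0, nat_lit 0, nat_lit 0, false, false⟩,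
 nat_lit 0, nat_lit 14910, nat_lit 0, nat_lit 0, nat_lit 8678, nat_lit 7424, nat_lit 0, nat_lit 0, nat_lit 0, nat_lit 2675, nat_lit 0, nat_lit 0, nat_lit 0, nat_lit 11843987242447, nat_lit 0, nat_lit 0, nat_lit 0, nat_lit 0, [],
 ⟨p033_k25, nat_lit 0, nat_lit 0, nat_lit 516, nat_lit 0, nat_lit 570775, [nat_lit 4688000000, nat_lit 6250000000, nat_lit 9842000000], [], [nat_lit 34499265768, nat_lit 33970567908, nat_lit 30979230476, nat_lit 32106060648, nat_lit 27845659848, nat_lit 28738255930, nat_lit 29447304212, nat_lit 27078601112], nat_lit 1271250, nat_lit 1271250, nat_lit 205650, nat_lit 490000, nat_lit 0, nat_lit 1100001, [nat_lit 1100000, nat_lit 1442500, nat_lit 1271250], [nat_lit 11, nat_lit 40, nat_lit 20, nat_lit 80, nat_lit 1, nat_lit 373, nat_lit 150, nat_lit 11]⟩, ⟨p033_k25, nat_lit 0, nat_lit 0, nat_lit 206, nat_lit 0, nat_lit 0, [nat_lit 4688000000, nat_lit 6250000000, nat_lit 9842000000], [], [nat_lit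 18903154917, nat_lit 20741557855, nat_lit 16724363253, nat_lit 18501615205, nat_lit 14215764278, nat_lit 15596265645, nat_lit 12855962485, nat_lit 14384070169], nat_lit 0, nat_lit 0, nat_lit 0, nat_lit 0, nat_lit 0, nat_lit 0, [], [nat_lit 11, nat_lit 40, nat_lit 20, nat_lit 80, nat_lit 1, nat_lit 373, nat_lit 150, nat_lit 11]⟩,
 zbF0, [⟨nat_lit 0, nat_lit 100, nat_lit 100, nat_lit 60, nat_lit 888467269⟩]⟩
noncomputable def p033_l81 : Lf2 := ⟨nat_lit 0, nat_lit 10, [nat_lit 0, nat_lit 5, nat_lit 5, nat_lit 20], false, nat_lit 0, nat_lit 40, nat_lit 160, nat_lit 268, ⟨nat_lit 1000, nat_lit 0, nat_lit 0, nat_lit 0, nat_lit 0, nat_lit 0, nat_lit 0, nat_lit 0, nat_lit 0, nat_lit 0, nat_lit 0, nat_lit 0, nat_lit 0, nat_lit 0, nat_lit 0, nat_lit 0, false, false⟩,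
 nat_lit 0, nat_lit 15223, nat_lit 0, nat_lit 0, nat_lit 8860, nat_lit 7020, nat_lit 2425, nat_lit 0, nat_lit 0, nat_lit 0, nat_lit 0, nat_lit 0, nat_lit 0, nat_lit 81038404138, nat_lit 0, nat_lit 0, nat_lit 0, nat_lit 0, [],
 ⟨p033_k25, nat_lit 0, nat_lit 0, nat_lit 516, nat_lit 0, nat_lit 570775, [nat_lit 4688000000, nat_lit 6250000000, nat_lit 9842000000], [], [nat_lit 24888610827, nat_lit 22826751520, nat_lit 25187104715, nat_lit 20954789035, nat_lit 23951549411, nat_lit 19712528483, nat_lit 25907785295, nat_lit 21732111595], nat_lit 1271250, nat_lit 1271250, nat_lit 205650, nat_lit 490000, nat_lit 0, nat_lit 230001, [nat_lit 1100000, nat_lit 1442500, nat_lit 1271250], [nat_lit 11, nat_lit 40, nat_lit 20, nat_lit 80, nat_lit 1, nat_lit 317, nat_lit 100, nat_lit 9]⟩, ⟨p033_k25, nat_lit 0, nat_lit 0, nat_lit 61, nat_lit 0, nat_lit 0, [nat_lit 4688000000, nat_lit 6250000000, nat_lit 9842000000], [], [nat_lit 11437412096,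 nat_lit 13503747425, nat_lit 10197550360, nat_lit 12177062720, nat_lit 18474834025, nat_lit 20322639862, nat_lit 16987871219, nat_lit 18491396996], nat_lit 0, nat_lit 0, nat_lit 0, nat_lit 0, nat_lit 0, nat_lit 0, [], [nat_lit 11, nat_lit 40, nat_lit 20, nat_lit 80, nat_lit 1, nat_lit 401, nat_lit 175, nat_lit 11]⟩,
 zbF0, [⟨nat_lit 0, nat_lit 100, nat_lit 100, nat_lit 60, nat_lit 597655414⟩, ⟨nat_lit 7, nat_lit 100, nat_lit 96, nat_lit 54, nat_lit 1037105825⟩]⟩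
noncomputable def p033_l82 : Lf2 := ⟨nat_lit 0, nat_lit 10, [nat_lit 0, nat_lit 5, nat_lit 5, nat_lit 20], false, nat_lit 40, nat_lit 80, nat_lit 160, nat_lit 268, ⟨nat_lit 1000, nat_lit 0, nat_lit 0, nat_lit 0, nat_lit 0, nat_lit 0, nat_lit 0, nat_lit 0, nat_lit 0, nat_lit 0, nat_lit 0, nat_lit 0, nat_lit 0, nat_lit 0, nat_lit 0, nat_lit 0, false, false⟩,
 nat_lit 0, nat_lit 11765, nat_lit 0, nat_lit 0, nat_lit 6848, nat_lit 7020, nat_lit 1433, nat_lit 0, nat_lit 0, nat_lit 0, nat_lit 0, nat_lit 0, nat_lit 0, nat_lit 0, nat_lit 0, nat_lit 0, nat_lit 0, nat_lit 0, [],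
 ⟨p033_k25, nat_lit 0, nat_lit 0, nat_lit 486, nat_lit 0, nat_lit 570775, [nat_lit 4688000000, nat_lit 6250000000, nat_lit 9842000000], [], [nat_lit 27370656495, nat_lit 28208874278, nat_lit 26298627533, nat_lit 27097624549, nat_lit 25923696242, nat_lit 26733090956, nat_lit 24901747765, nat_lit 25672615589], nat_lit 1271250, nat_lit 1271250, nat_lit 205650, nat_lit 490000, nat_lit 230001, nat_lit 490000, [nat_lit 1100000, nat_lit 1442500, nat_lit 1271250], [nat_lit 11, nat_lit 40, nat_lit 20, nat_lit 80, nat_lit 1, nat_lit 345, nat_lit 125, nat_lit 10]⟩, ⟨p033_k25, nat_lit 0, nat_lit 0, nat_lit 61, nat_lit 0, nat_lit 0, [nat_lit 4688000000, nat_lit 6250000000, nat_lit 9842000000], [], [nat_lit 11437412096, nat_lit 13503747425, nat_lit 10197550360, nat_lit 12177062720, nat_lit 18474834025, nat_lit 20322639862, nat_lit 16987871219, nat_lit 18491396996], nat_lit 0, nat_lit 0, nat_lit 0, nat_lit 0, nat_lit 0, nat_lit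 0, [], [nat_lit 11, nat_lit 40, nat_lit 20, nat_lit 80, nat_lit 1, nat_lit 401, nat_lit 175, nat_lit 11]⟩,
 zbF0, [⟨nat_lit 0, nat_lit 100, nat_lit 100, nat_lit 60, nat_lit 936391254⟩, ⟨nat_lit 19, nat_lit 100, nat_lit 99, nat_lit 63, nat_lit 853389936⟩]⟩
noncomputable def p033_l83 : Lf2 := ⟨nat_lit 0, nat_lit 10, [nat_lit 0, nat_lit 5, nat_lit 5, nat_lit 20], false, nat_lit 80, nat_lit 160, nat_lit 160, nat_lit 268, ⟨nat_lit 1000, nat_lit 0, nat_lit 0, nat_lit 0, nat_lit 0, nat_lit 0, nat_lit 0, nat_lit 0, nat_lit 0, nat_lit 0, nat_lit 0, nat_lit 0, nat_lit 0, nat_lit 0, nat_lit 0, nat_lit 0, false, false⟩,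
 nat_lit 0, nat_lit 12046, nat_lit 0, nat_lit 0, nat_lit 7011, nat_lit 7020, nat_lit 1717, nat_lit 0, nat_lit 0, nat_lit 0, nat_lit 0, nat_lit 0, nat_lit 0, nat_lit 0, nat_lit 0, nat_lit 0, nat_lit 0, nat_lit 0, [],
 ⟨p033_k25, nat_lit 0, nat_lit 0, nat_lit 455, nat_lit 0, nat_lit 570775, [nat_lit 4688000000, nat_lit 6250000000, nat_lit 9842000000], [], [nat_lit 30007874466, nat_lit 26351161218, nat_lit 22991001840, nat_lit 23550762973, nat_lit 27353506311, nat_lit 24337680313, nat_lit 29140273544, nat_lit 25836648278], nat_lit 1271250, nat_lit 1271250, nat_lit 205650, nat_lit 490000, nat_lit 490000, nat_lit 1100001, [nat_lit 1100000, nat_lit 1442500, nat_lit 1271250], [nat_lit 11, nat_lit 40, nat_lit 20, nat_lit 80, nat_lit 1, nat_lit 373, nat_lit 150, nat_lit 11]⟩, ⟨p033_k25, nat_lit 0, nat_lit 0, nat_lit 61, nat_lit 0, nat_lit 0, [nat_lit 4688000000, nat_lit 6250000000, nat_lit 9842000000], [], [nat_lit 11437412096,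 nat_lit 13503747425, nat_lit 10197550360, nat_lit 12177062720, nat_lit 18474834025, nat_lit 20322639862, nat_lit 16987871219, nat_lit 18491396996], nat_lit 0, nat_lit 0, nat_lit 0, nat_lit 0, nat_lit 0, nat_lit 0, [], [nat_lit 11, nat_lit 40, nat_lit 20, nat_lit 80, nat_lit 1, nat_lit 401, nat_lit 175, nat_lit 11]⟩,
 zbF0, [⟨nat_lit 0, nat_lit 100, nat_lit 100, nat_lit 60, nat_lit 630223322⟩, ⟨nat_lit 19, nat_lit 100, nat_lit 99, nat_lit 63, nat_lit 712248886⟩, ⟨nat_lit 7, nat_lit 100, nat_lit 96, nat_lit 54, nat_lit 171525581⟩]⟩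
noncomputable def b_VL_600_600_5_14 : St := ⟨true, nat_lit 1, nat_lit 0, nat_lit 1, nat_lit 40, nat_lit 260, nat_lit 280, nat_lit 240, nat_lit 280, nat_lit 24, nat_lit 80, nat_lit 20, nat_lit 40, nat_lit 0, nat_lit 160, nat_lit 0, nat_lit 288, nat_lit 0, nat_lit 40, nat_lit 0, nat_lit 0, nat_lit 0, nat_lit 0⟩
theorem d_VL_600_600_5_14 (h : EB TB.env) : Dead b_VL_600_600_5_14 := chkB_sound0 h (T :=
(.spl (nat_lit 1) (nat_lit 260)
(.spl (nat_lit 6) (nat_lit 20)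
(.spl (nat_lit 5) (nat_lit 160)
(.spl (nat_lit 5) (nat_lit 80)
(.spl (nat_lit 6) (nat_lit 8)
(.leaf p033_l65)
(.spl (nat_lit 0) (nat_lit 270)
(.leaf p033_l66)
(.trZ (nat_lit 0) (nat_lit 100) (nat_lit 96) (nat_lit 54) (nat_lit 28) (.leaf p033_l67))))
(.leaf p033_l68))
(.spl (nat_lit 4) (nat_lit 80)
(.spl (nat_lit 2) (nat_lit 40)
(.leaf p033_l69)
(.leaf p033_l70))
(.spl (nat_lit 2) (nat_lit 40)
(.leaf p033_l71)
(.leaf p033_l72))))
(.spl (nat_lit 2) (nat_lit 40)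
(.spl (nat_lit 4) (nat_lit 80)
(.spl (nat_lit 4) (nat_lit 40)
(.leaf p033_l73)
(.leaf p033_l74))
(.spl (nat_lit 0) (nat_lit 270)
(.leaf p033_l75)
(.trZ (nat_lit 0) (nat_lit 100) (nat_lit 96) (nat_lit 54) (nat_lit 28) (.leaf p033_l76))))
(.spl (nat_lit 5) (nat_lit 160)
(.spl (nat_lit 0) (nat_lit 270)
(.leaf p033_l77)
(.leaf p033_l78))
(.leaf p033_l79))))
(.trZ (nat_lit 0) (nat_lit 100) (nat_lit 100) (nat_lit 60) (nat_lit 36) (.trX (nat_lit 19) (nat_lit 100) (nat_lit 99) (nat_lit 63) (nat_lit 268) (.spl (nat_lit 5) (nat_lit 160)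
(.leaf p033_l80)
(.spl (nat_lit 4) (nat_lit 80)
(.spl (nat_lit 4) (nat_lit 40)
(.leaf p033_l81)
(.leaf p033_l82))
(.leaf p033_l83))))))) (by decide +kernel)
noncomputable def p033_l84 : Lf2 := ⟨nat_lit 0, nat_lit 5, [nat_lit 4, nat_lit 5, nat_lit 5, nat_lit 20], false, nat_lit 160, nat_lit 200, nat_lit 0, nat_lit 160, ⟨nat_lit 1000, nat_lit 0, nat_lit 0, nat_lit 0, nat_lit 0, nat_lit 0, nat_lit 0, nat_lit 0, nat_lit 0, nat_lit 0, nat_lit 0, nat_lit 0, nat_lit 0, nat_lit 0, nat_lit 0, nat_lit 0, false, false⟩,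
 nat_lit 0, nat_lit 19036, nat_lit 0, nat_lit 0, nat_lit 11080, nat_lit 8409, nat_lit 718, nat_lit 0, nat_lit 0, nat_lit 3179, nat_lit 0, nat_lit 0, nat_lit 0, nat_lit 15550241020642, nat_lit 0, nat_lit 0, nat_lit 0, nat_lit 0, [],
 ⟨p033_k23, nat_lit 0, nat_lit 0, nat_lit 320, nat_lit 0, nat_lit 532436, [nat_lit 4688000000, nat_lit 6250000000, nat_lit 7968000000], [], [nat_lit 22851153274, nat_lit 17873153952, nat_lit 17599622090, nat_lit 13904196330, nat_lit 21289891402, nat_lit 19905852193, nat_lit 23706262690, nat_lit 18484314090], nat_lit 1271250, nat_lit 1271250, nat_lit 134400, nat_lit 490000, nat_lit 1100001, nat_lit 1442500, [nat_lit 1100000, nat_lit 1442500, nat_lit 1271250], [nat_lit 9, nat_lit 40, nat_lit 20, nat_lit 80, nat_lit 2, nat_lit 289, nat_lit 75, nat_lit 9]⟩, ⟨p033_k8, nat_lit 0, nat_lit 0, nat_lit 218, nat_lit 0, nat_lit 0, [nat_lit 4688000000, nat_lit 6250000000, nat_lit 9842000000], [], [nat_lit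 19100845492, nat_lit 23095050634, nat_lit 15461843066, nat_lit 19302387030, nat_lit 13269760256, nat_lit 16804834765, nat_lit 11279759772, nat_lit 14617244204], nat_lit 0, nat_lit 0, nat_lit 0, nat_lit 0, nat_lit 0, nat_lit 0, [], [nat_lit 11, nat_lit 40, nat_lit 20, nat_lit 80, nat_lit 1, nat_lit 373, nat_lit 150, nat_lit 11]⟩,
 zbF0, [⟨nat_lit 0, nat_lit 100, nat_lit 98, nat_lit 64, nat_lit 815294163⟩]⟩
noncomputable def p033_l85 : Lf2 := ⟨nat_lit 0, nat_lit 5, [nat_lit 4, nat_lit 5, nat_lit 5, nat_lit 20], false, nat_lit 160, nat_lit 200, nat_lit 160, nat_lit 288, ⟨nat_lit 1000, nat_lit 0, nat_lit 0, nat_lit 0, nat_lit 0, nat_lit 0, nat_lit 0, nat_lit 0, nat_lit 0, nat_lit 0, nat_lit 0, nat_lit 0, nat_lit 0, nat_lit 0, nat_lit 0, nat_lit 0, false, false⟩,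
 nat_lit 0, nat_lit 19036, nat_lit 0, nat_lit 0, nat_lit 11080, nat_lit 6784, nat_lit 3892, nat_lit 0, nat_lit 0, nat_lit 0, nat_lit 0, nat_lit 0, nat_lit 0, nat_lit 0, nat_lit 0, nat_lit 0, nat_lit 0, nat_lit 0, [],
 ⟨p033_k23, nat_lit 0, nat_lit 0, nat_lit 277, nat_lit 0, nat_lit 438797, [nat_lit 4688000000, nat_lit 6250000000, nat_lit 7968000000], [], [nat_lit 20222684524, nat_lit 17363350916, nat_lit 14971153340, nat_lit 12324761820, nat_lit 18661422652, nat_lit 16446924905, nat_lit 21077793940, nat_lit 18466819640], nat_lit 1271250, nat_lit 1271250, nat_lit 134400, nat_lit 490000, nat_lit 1100001, nat_lit 1442500, [nat_lit 1100000, nat_lit 1442500, nat_lit 1271250], [nat_lit 9, nat_lit 40, nat_lit 20, nat_lit 80, nat_lit 2, nat_lit 289, nat_lit 75, nat_lit 9]⟩, ⟨p033_k8, nat_lit 0, nat_lit 0, nat_lit 80, nat_lit 0, nat_lit 0, [nat_lit 4688000000, nat_lit 6250000000, nat_lit 9842000000], [], [nat_lit 10301661639,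 nat_lit 13358234808, nat_lit 8594151200, nat_lit 11500118168, nat_lit 19539798728, nat_lit 22082265308, nat_lit 17439879809, nat_lit 19512953911], nat_lit 0, nat_lit 0, nat_lit 0, nat_lit 0, nat_lit 0, nat_lit 0, [], [nat_lit 11, nat_lit 40, nat_lit 20, nat_lit 80, nat_lit 1, nat_lit 401, nat_lit 175, nat_lit 11]⟩,
 zbF0, [⟨nat_lit 0, nat_lit 100, nat_lit 98, nat_lit 60, nat_lit 450569361⟩, ⟨nat_lit 0, nat_lit 100, nat_lit 97, nat_lit 49, nat_lit 202515454⟩, ⟨nat_lit 7, nat_lit 100, nat_lit 100, nat_lit 55, nat_lit 1050161066⟩]⟩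
noncomputable def p033_l86 : Lf2 := ⟨nat_lit 0, nat_lit 5, [nat_lit 4, nat_lit 5, nat_lit 5, nat_lit 20], false, nat_lit 160, nat_lit 200, nat_lit 160, nat_lit 288, ⟨nat_lit 1000, nat_lit 0, nat_lit 0, nat_lit 0, nat_lit 0, nat_lit 0, nat_lit 0, nat_lit 0, nat_lit 0, nat_lit 0, nat_lit 0, nat_lit 0, nat_lit 0, nat_lit 0, nat_lit 0, nat_lit 0, false, false⟩,
 nat_lit 0, nat_lit 16450, nat_lit 0, nat_lit 0, nat_lit 10018, nat_lit 6844, nat_lit 3174, nat_lit 0, nat_lit 0, nat_lit 0, nat_lit 0, nat_lit 0, nat_lit 0, nat_lit 0, nat_lit 0, nat_lit 0, nat_lit 0, nat_lit 0, [],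
 ⟨p033_k24, nat_lit 0, nat_lit 0, nat_lit 305, nat_lit 0, nat_lit 505614, [nat_lit 4688000000, nat_lit 6250000000, nat_lit 7968000000], [], [nat_lit 16592870738, nat_lit 14146735216, nat_lit 13907204222, nat_lit 11514465030, nat_lit 17301039771, nat_lit 17044337240, nat_lit 19591867669, nat_lit 17231151014], nat_lit 1271250, nat_lit 1271250, nat_lit 157850, nat_lit 490000, nat_lit 1100001, nat_lit 1442500, [nat_lit 1100000, nat_lit 1442500, nat_lit 1271250], [nat_lit 9, nat_lit 40, nat_lit 20, nat_lit 80, nat_lit 2, nat_lit 289, nat_lit 75, nat_lit 9]⟩, ⟨p033_k8, nat_lit 0, nat_lit 0, nat_lit 81, nat_lit 0, nat_lit 0, [nat_lit 4688000000, nat_lit 6250000000, nat_lit 9842000000], [], [nat_lit 10020629133, nat_lit 14108240071, nat_lit 8498529200, nat_lit 12394609984, nat_lit 19285110768, nat_lit 22688606467, nat_lit 17386048529, nat_lit 20163447220], nat_lit 0, nat_lit 0, nat_lit 0, nat_lit 0, nat_lit 0, nat_lit 0,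 [], [nat_lit 11, nat_lit 40, nat_lit 20, nat_lit 80, nat_lit 1, nat_lit 401, nat_lit 175, nat_lit 11]⟩,
 zbF0, [⟨nat_lit 0, nat_lit 100, nat_lit 96, nat_lit 54, nat_lit 662304905⟩, ⟨nat_lit 7, nat_lit 100, nat_lit 98, nat_lit 54, nat_lit 1093348054⟩]⟩
noncomputable def p033_l87 : Lf2 := ⟨nat_lit 0, nat_lit 10, [nat_lit 0, nat_lit 5, nat_lit 5, nat_lit 20], true, nat_lit 160, nat_lit 200, nat_lit 0, nat_lit 288, ⟨nat_lit 0, nat_lit 0, nat_lit 1000, nat_lit 6, nat_lit 106, nat_lit 1000, nat_lit 112, nat_lit 1000, nat_lit 117600, nat_lit 299, nat_lit 106667, nat_lit 295, nat_lit 56663030, nat_lit 0, nat_lit 0, nat_lit 2851772, false, false⟩,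
 nat_lit 0, nat_lit 7901, nat_lit 0, nat_lit 0, nat_lit 4599, nat_lit 0, nat_lit 0, nat_lit 0, nat_lit 0, nat_lit 0, nat_lit 0, nat_lit 0, nat_lit 0, nat_lit 0, nat_lit 152, nat_lit 774400, nat_lit 0, nat_lit 0, [(nat_lit 9, [(nat_lit 5, nat_lit 376), (nat_lit 6, nat_lit 624)])],
 ⟨p033_k25, nat_lit 0, nat_lit 0, nat_lit 197, nat_lit 0, nat_lit 217687, [nat_lit 3690828800, nat_lit 2723130667, nat_lit 117541333], [], [nat_lit 12155263228, nat_lit 12765797733, nat_lit 11235802544, nat_lit 11882425072, nat_lit 13570454127, nat_lit 14150393541, nat_lit 12844614215, nat_lit 13441808312], nat_lit 1271250, nat_lit 1271250, nat_lit 134400, nat_lit 490000, nat_lit 1100001, nat_lit 1442500, [nat_lit 1100000, nat_lit 1442500, nat_lit 1271250], [nat_lit 11, nat_lit 40, nat_lit 20, nat_lit 80, nat_lit 1, nat_lit 373, nat_lit 150, nat_lit 11]⟩, C1.Rw.none,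
 ⟨nat_lit 5700, nat_lit 5917, ⟨.ofNat (nat_lit 197129), .ofNat (nat_lit 307076), .ofNat (nat_lit 218469), .ofNat (nat_lit 328416), .ofNat (nat_lit 205119), .ofNat (nat_lit 312525), .ofNat (nat_lit 226461), .ofNat (nat_lit 333867)⟩, ⟨.ofNat (nat_lit 229411), .ofNat (nat_lit 307945), .ofNat (nat_lit 250751), .ofNat (nat_lit 329284), .ofNat (nat_lit 231202), .ofNat (nat_lit 307921), .ofNat (nat_lit 252544), .ofNat (nat_lit 329263)⟩⟩, [⟨nat_lit 0, nat_lit 100, nat_lit 98, nat_lit 64, nat_lit 175045358⟩]⟩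
noncomputable def p033_l88 : Lf2 := ⟨nat_lit 0, nat_lit 10, [nat_lit 0, nat_lit 5, nat_lit 5, nat_lit 20], false, nat_lit 160, nat_lit 200, nat_lit 0, nat_lit 268, ⟨nat_lit 127, nat_lit 0, nat_lit 873, nat_lit 6, nat_lit 118, nat_lit 873, nat_lit 112, nat_lit 873, nat_lit 117600, nat_lit 299, nat_lit 129067, nat_lit 303, nat_lit 55795638, nat_lit 0, nat_lit 0, nat_lit 3016590, false, false⟩,
 nat_lit 0, nat_lit 8992, nat_lit 0, nat_lit 0, nat_lit 5234, nat_lit 1012, nat_lit 157, nat_lit 0, nat_lit 0, nat_lit 314, nat_lit 0, nat_lit 0, nat_lit 0, nat_lit 0, nat_lit 123, nat_lit 873000, nat_lit 0, nat_lit 0, [(nat_lit 9, [(nat_lit 6, nat_lit 873)])],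
 ⟨p033_k25, nat_lit 0, nat_lit 0, nat_lit 204, nat_lit 0, nat_lit 266321, [nat_lit 3521580801, nat_lit 2879524001, nat_lit 183293599], [], [nat_lit 11670615766, nat_lit 12315887896, nat_lit 10748234682, nat_lit 11369360326, nat_lit 13123939899, nat_lit 13745663795, nat_lit 12238325243, nat_lit 12756590534], nat_lit 1271250, nat_lit 1271250, nat_lit 205650, nat_lit 490000, nat_lit 1100001, nat_lit 1442500, [nat_lit 1100000, nat_lit 1442500, nat_lit 1271250], [nat_lit 11, nat_lit 40, nat_lit 20, nat_lit 80, nat_lit 1, nat_lit 373, nat_lit 150, nat_lit 11]⟩, ⟨p033_k25, nat_lit 0, nat_lit 0, nat_lit 201, nat_lit 0, nat_lit 0, [nat_lit 595376000, nat_lit 793750000, nat_lit 1249934000], [], [nat_lit 2544927312, nat_lit 2666896639, nat_lit 2240235924, nat_lit 2358111789, nat_lit 2452026275, nat_lit 2537760507, nat_lit 2196607384, nat_lit 2271472437], nat_lit 0, nat_lit 0, nat_lit 0, nat_lit 0, nat_lit 0, nat_lit 0, [],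 [nat_lit 11, nat_lit 40, nat_lit 20, nat_lit 80, nat_lit 1, nat_lit 401, nat_lit 175, nat_lit 12]⟩,
 ⟨nat_lit 5700, nat_lit 5917, ⟨.ofNat (nat_lit 242029), .ofNat (nat_lit 328416), .ofNat (nat_lit 252698), .ofNat (nat_lit 339085), .ofNat (nat_lit 249476), .ofNat (nat_lit 333867), .ofNat (nat_lit 260147), .ofNat (nat_lit 344538)⟩, ⟨.ofNat (nat_lit 229411), .ofNat (nat_lit 307945), .ofNat (nat_lit 250751), .ofNat (nat_lit 329284), .ofNat (nat_lit 231202), .ofNat (nat_lit 307921), .ofNat (nat_lit 252544), .ofNat (nat_lit 329263)⟩⟩, [⟨nat_lit 0, nat_lit 100, nat_lit 100, nat_lit 70, nat_lit 325613525⟩, ⟨nat_lit 7, nat_lit 100, nat_lit 97, nat_lit 54, nat_lit 37250188⟩]⟩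
noncomputable def p033_l89 : Lf2 := ⟨nat_lit 0, nat_lit 10, [nat_lit 0, nat_lit 5, nat_lit 5, nat_lit 20], true, nat_lit 160, nat_lit 200, nat_lit 0, nat_lit 288, ⟨nat_lit 0, nat_lit 0, nat_lit 1000, nat_lit 6, nat_lit 111, nat_lit 1000, nat_lit 112, nat_lit 1000, nat_lit 117600, nat_lit 299, nat_lit 114817, nat_lit 298, nat_lit 56312753, nat_lit 0, nat_lit 0, nat_lit 2919787, false, false⟩,
 nat_lit 0, nat_lit 7478, nat_lit 0, nat_lit 0, nat_lit 4554, nat_lit 0, nat_lit 0, nat_lit 0, nat_lit 0, nat_lit 0, nat_lit 0, nat_lit 0, nat_lit 0, nat_lit 0, nat_lit 143, nat_lit 721600, nat_lit 0, nat_lit 0, [(nat_lit 9, [(nat_lit 5, nat_lit 464), (nat_lit 6, nat_lit 536)])],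
 ⟨p033_k28, nat_lit 0, nat_lit 0, nat_lit 212, nat_lit 0, nat_lit 257220, [nat_lit 3584563200, nat_lit 2569296001, nat_lit 100911999], [], [nat_lit 12884335644, nat_lit 13490768559, nat_lit 12054179112, nat_lit 12697666400, nat_lit 14249104140, nat_lit 14828595500, nat_lit 13609127129, nat_lit 14203553568], nat_lit 1271250, nat_lit 1271250, nat_lit 157850, nat_lit 490000, nat_lit 1100001, nat_lit 1442500, [nat_lit 1100000, nat_lit 1442500, nat_lit 1271250], [nat_lit 11, nat_lit 40, nat_lit 20, nat_lit 80, nat_lit 1, nat_lit 373, nat_lit 150, nat_lit 11]⟩, C1.Rw.none,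
 ⟨nat_lit 5477, nat_lit 5701, ⟨.ofNat (nat_lit 212791), .ofNat (nat_lit 312525), .ofNat (nat_lit 234133), .ofNat (nat_lit 333867), .ofNat (nat_lit 220501), .ofNat (nat_lit 317913), .ofNat (nat_lit 241858), .ofNat (nat_lit 339271)⟩, ⟨.ofNat (nat_lit 231202), .ofNat (nat_lit 307921), .ofNat (nat_lit 252544), .ofNat (nat_lit 329263), .ofNat (nat_lit 232852), .ofNat (nat_lit 307785), .ofNat (nat_lit 254209), .ofNat (nat_lit 329142)⟩⟩, [⟨nat_lit 0, nat_lit 100, nat_lit 96, nat_lit 69, nat_lit 171985768⟩]⟩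
noncomputable def p033_l90 : Lf2 := ⟨nat_lit 0, nat_lit 10, [nat_lit 0, nat_lit 5, nat_lit 5, nat_lit 20], false, nat_lit 160, nat_lit 200, nat_lit 0, nat_lit 268, ⟨nat_lit 454, nat_lit 0, nat_lit 546, nat_lit 6, nat_lit 122, nat_lit 546, nat_lit 112, nat_lit 546, nat_lit 117600, nat_lit 299, nat_lit 141067, nat_lit 307, nat_lit 55411125, nat_lit 0, nat_lit 0, nat_lit 3086067, false, false⟩,
 nat_lit 0, nat_lit 10515, nat_lit 0, nat_lit 0, nat_lit 6403, nat_lit 7587, nat_lit 1069, nat_lit 0, nat_lit 0, nat_lit 0, nat_lit 0, nat_lit 0, nat_lit 0, nat_lit 5990269227955, nat_lit 0, nat_lit 546000, nat_lit 0, nat_lit 0, [(nat_lit 9, [(nat_lit 6, nat_lit 546)])],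
 ⟨p033_k28, nat_lit 0, nat_lit 0, nat_lit 216, nat_lit 0, nat_lit 300021, [nat_lit 2727641601, nat_lit 2603448001, nat_lit 1588747199], [], [nat_lit 12360161333, nat_lit 12717652437, nat_lit 11231991458, nat_lit 11576376957, nat_lit 13829471517, nat_lit 14232173456, nat_lit 12697268768, nat_lit 13051341973], nat_lit 1271250, nat_lit 1271250, nat_lit 230001, nat_lit 490000, nat_lit 1100001, nat_lit 1442500, [nat_lit 1100000, nat_lit 1442500, nat_lit 1271250], [nat_lit 11, nat_lit 40, nat_lit 20, nat_lit 80, nat_lit 1, nat_lit 373, nat_lit 150, nat_lit 10]⟩, ⟨p033_k25, nat_lit 0, nat_lit 0, nat_lit 199, nat_lit 0, nat_lit 0, [nat_lit 2128352000, nat_lit 2837500000, nat_lit 4468268000], [], [nat_lit 15602417904, nat_lit 16705128297, nat_lit 13276341834, nat_lit 14340667085, nat_lit 11844802975, nat_lit 12496336076, nat_lit 9849394418, nat_lit 10473003827], nat_lit 0, nat_lit 0, nat_lit 0, nat_lit 0, nat_lit 0, nat_lit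 0, [], [nat_lit 11, nat_lit 40, nat_lit 20, nat_lit 80, nat_lit 1, nat_lit 401, nat_lit 175, nat_lit 12]⟩,
 ⟨nat_lit 5590, nat_lit 5701, ⟨.ofNat (nat_lit 257148), .ofNat (nat_lit 333867), .ofNat (nat_lit 273155), .ofNat (nat_lit 349874), .ofNat (nat_lit 260751), .ofNat (nat_lit 336574), .ofNat (nat_lit 276762), .ofNat (nat_lit 352585)⟩, ⟨.ofNat (nat_lit 231202), .ofNat (nat_lit 307921), .ofNat (nat_lit 252544), .ofNat (nat_lit 329263), .ofNat (nat_lit 232045), .ofNat (nat_lit 307867), .ofNat (nat_lit 253393), .ofNat (nat_lit 329215)⟩⟩, [⟨nat_lit 0, nat_lit 100, nat_lit 100, nat_lit 75, nat_lit 760189490⟩]⟩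
noncomputable def p033_l91 : Lf2 := ⟨nat_lit 0, nat_lit 10, [nat_lit 0, nat_lit 5, nat_lit 5, nat_lit 20], false, nat_lit 160, nat_lit 200, nat_lit 0, nat_lit 268, ⟨nat_lit 659, nat_lit 0, nat_lit 341, nat_lit 6, nat_lit 126, nat_lit 341, nat_lit 112, nat_lit 341, nat_lit 117600, nat_lit 299, nat_lit 147267, nat_lit 309, nat_lit 55086049, nat_lit 0, nat_lit 0, nat_lit 3143162, false, false⟩,
 nat_lit 0, nat_lit 11531, nat_lit 0, nat_lit 0, nat_lit 7179, nat_lit 10903, nat_lit 1581, nat_lit 0, nat_lit 0, nat_lit 0, nat_lit 0, nat_lit 0, nat_lit 0, nat_lit 0, nat_lit 0, nat_lit 341000, nat_lit 0, nat_lit 0, [(nat_lit 9, [(nat_lit 6, nat_lit 341)])],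
 ⟨p033_k29, nat_lit 0, nat_lit 0, nat_lit 285, nat_lit 0, nat_lit 338794, [nat_lit 3463673600, nat_lit 3972574667, nat_lit 4659072800], [], [nat_lit 12654889365, nat_lit 13034722420, nat_lit 11451300494, nat_lit 11818138001, nat_lit 14178760147, nat_lit 14744038786, nat_lit 12963366805, nat_lit 13341303368], nat_lit 1271250, nat_lit 1271250, nat_lit 254650, nat_lit 490000, nat_lit 1100001, nat_lit 1442500, [nat_lit 1100000, nat_lit 1442500, nat_lit 1271250], [nat_lit 11, nat_lit 40, nat_lit 20, nat_lit 80, nat_lit 1, nat_lit 373, nat_lit 150, nat_lit 10]⟩, ⟨p033_k25, nat_lit 0, nat_lit 0, nat_lit 199, nat_lit 0, nat_lit 0, [nat_lit 3089392000, nat_lit 4118750000, nat_lit 6485878000], [], [nat_lit 22198351304, nat_lit 24309758306, nat_lit 19248567636, nat_lit 21292501448, nat_lit 16902478738, nat_lit 18150083418, nat_lit 14364732597, nat_lit 15563405063], nat_lit 0, nat_lit 0, nat_lit 0, nat_lit 0, nat_lit 0, nat_lit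 0, [], [nat_lit 11, nat_lit 40, nat_lit 20, nat_lit 80, nat_lit 1, nat_lit 401, nat_lit 175, nat_lit 12]⟩,
 ⟨nat_lit 5477, nat_lit 5591, ⟨.ofNat (nat_lit 268334), .ofNat (nat_lit 336574), .ofNat (nat_lit 289681), .ofNat (nat_lit 357922), .ofNat (nat_lit 271831), .ofNat (nat_lit 339271), .ofNat (nat_lit 293188), .ofNat (nat_lit 360628)⟩, ⟨.ofNat (nat_lit 232045), .ofNat (nat_lit 307867), .ofNat (nat_lit 253393), .ofNat (nat_lit 329215), .ofNat (nat_lit 232852), .ofNat (nat_lit 307785), .ofNat (nat_lit 254209), .ofNat (nat_lit 329142)⟩⟩, [⟨nat_lit 0, nat_lit 100, nat_lit 98, nat_lit 73, nat_lit 1026416928⟩]⟩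
noncomputable def p033_l92 : Lf2 := ⟨nat_lit 0, nat_lit 5, [nat_lit 4, nat_lit 5, nat_lit 5, nat_lit 20], false, nat_lit 200, nat_lit 240, nat_lit 0, nat_lit 160, ⟨nat_lit 1000, nat_lit 0, nat_lit 0, nat_lit 0, nat_lit 0, nat_lit 0, nat_lit 0, nat_lit 0, nat_lit 0, nat_lit 0, nat_lit 0, nat_lit 0, nat_lit 0, nat_lit 0, nat_lit 0, nat_lit 0, false, false⟩,
 nat_lit 0, nat_lit 19905, nat_lit 0, nat_lit 0, nat_lit 11586, nat_lit 8286, nat_lit 878, nat_lit 0, nat_lit 0, nat_lit 3212, nat_lit 0, nat_lit 0, nat_lit 0, nat_lit 7652089287460, nat_lit 0, nat_lit 0, nat_lit 0, nat_lit 0, [],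
 ⟨p033_k23, nat_lit 0, nat_lit 0, nat_lit 319, nat_lit 0, nat_lit 532436, [nat_lit 4688000000, nat_lit 6250000000, nat_lit 7968000000], [], [nat_lit 17130577764, nat_lit 19293854867, nat_lit 14185582048, nat_lit 14986880012, nat_lit 19432517829, nat_lit 21367467255, nat_lit 15148201852, nat_lit 16984325344], nat_lit 1271250, nat_lit 1271250, nat_lit 134400, nat_lit 490000, nat_lit 1271250, nat_lit 1271250, [nat_lit 1100000, nat_lit 1442500, nat_lit 1271250], [nat_lit 9, nat_lit 40, nat_lit 20, nat_lit 80, nat_lit 2, nat_lit 317, nat_lit 100, nat_lit 10]⟩, ⟨p033_k8, nat_lit 0, nat_lit 0, nat_lit 218, nat_lit 0, nat_lit 0, [nat_lit 4688000000, nat_lit 6250000000, nat_lit 9842000000], [], [nat_lit 18919752327, nat_lit 22876918695, nat_lit 15349004864, nat_lit 19153830120, nat_lit 13502822624, nat_lit 17005178740, nat_lit 11557677288, nat_lit 14864750216], nat_lit 0, nat_lit 0, nat_lit 0, nat_lit 0, nat_lit 0, nat_lit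 0, [], [nat_lit 11, nat_lit 40, nat_lit 20, nat_lit 80, nat_lit 1, nat_lit 373, nat_lit 150, nat_lit 11]⟩,
 zbF0, [⟨nat_lit 0, nat_lit 100, nat_lit 98, nat_lit 64, nat_lit 1282002878⟩, ⟨nat_lit 4, nat_lit 100, nat_lit 96, nat_lit 54, nat_lit 914264048⟩]⟩
noncomputable def p033_l93 : Lf2 := ⟨nat_lit 0, nat_lit 5, [nat_lit 4, nat_lit 5, nat_lit 5, nat_lit 20], false, nat_lit 200, nat_lit 240, nat_lit 160, nat_lit 288, ⟨nat_lit 1000, nat_lit 0, nat_lit 0, nat_lit 0, nat_lit 0, nat_lit 0, nat_lit 0, nat_lit 0, nat_lit 0, nat_lit 0, nat_lit 0, nat_lit 0, nat_lit 0, nat_lit 0, nat_lit 0, nat_lit 0, false, false⟩,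
 nat_lit 0, nat_lit 14365, nat_lit 0, nat_lit 0, nat_lit 8361, nat_lit 6784, nat_lit 2587, nat_lit 0, nat_lit 0, nat_lit 0, nat_lit 0, nat_lit 0, nat_lit 0, nat_lit 0, nat_lit 0, nat_lit 0, nat_lit 0, nat_lit 0, [],
 ⟨p033_k23, nat_lit 0, nat_lit 0, nat_lit 279, nat_lit 0, nat_lit 438797, [nat_lit 4688000000, nat_lit 6250000000, nat_lit 7968000000], [], [nat_lit 17694014144, nat_lit 16937730044, nat_lit 19866467748, nat_lit 17896219001, nat_lit 17704496931, nat_lit 18245019812, nat_lit 15652574180, nat_lit 16161320503], nat_lit 1271250, nat_lit 1271250, nat_lit 134400, nat_lit 490000, nat_lit 1271250, nat_lit 1271250, [nat_lit 1100000, nat_lit 1442500, nat_lit 1271250], [nat_lit 9, nat_lit 40, nat_lit 20, nat_lit 80, nat_lit 2, nat_lit 317, nat_lit 100, nat_lit 10]⟩, ⟨p033_k8, nat_lit 0, nat_lit 0, nat_lit 80, nat_lit 0, nat_lit 0, [nat_lit 4688000000, nat_lit 6250000000, nat_lit 9842000000], [], [nat_lit 10301661639,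 nat_lit 13358234808, nat_lit 8594151200, nat_lit 11500118168, nat_lit 19539798728, nat_lit 22082265308, nat_lit 17439879809, nat_lit 19512953911], nat_lit 0, nat_lit 0, nat_lit 0, nat_lit 0, nat_lit 0, nat_lit 0, [], [nat_lit 11, nat_lit 40, nat_lit 20, nat_lit 80, nat_lit 1, nat_lit 401, nat_lit 175, nat_lit 11]⟩,
 zbF0, [⟨nat_lit 0, nat_lit 100, nat_lit 97, nat_lit 49, nat_lit 789755792⟩, ⟨nat_lit 19, nat_lit 100, nat_lit 100, nat_lit 55, nat_lit 987907769⟩, ⟨nat_lit 11, nat_lit 100, nat_lit 100, nat_lit 72, nat_lit 47554602⟩]⟩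
noncomputable def p033_l94 : Lf2 := ⟨nat_lit 0, nat_lit 5, [nat_lit 4, nat_lit 5, nat_lit 5, nat_lit 20], false, nat_lit 200, nat_lit 240, nat_lit 160, nat_lit 288, ⟨nat_lit 1000, nat_lit 0, nat_lit 0, nat_lit 0, nat_lit 0, nat_lit 0, nat_lit 0, nat_lit 0, nat_lit 0, nat_lit 0, nat_lit 0, nat_lit 0, nat_lit 0, nat_lit 0, nat_lit 0, nat_lit 0, false, false⟩,
 nat_lit 0, nat_lit 13159, nat_lit 0, nat_lit 0, nat_lit 8014, nat_lit 6844, nat_lit 2342, nat_lit 0, nat_lit 0, nat_lit 0, nat_lit 0, nat_lit 0, nat_lit 0, nat_lit 0, nat_lit 0, nat_lit 0, nat_lit 0, nat_lit 0, [],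
 ⟨p033_k24, nat_lit 0, nat_lit 0, nat_lit 305, nat_lit 0, nat_lit 505614, [nat_lit 4688000000, nat_lit 6250000000, nat_lit 7968000000], [], [nat_lit 16515200134, nat_lit 17210793586, nat_lit 17963690687, nat_lit 16075211622, nat_lit 18132001398, nat_lit 18813012316, nat_lit 16479233062, nat_lit 17074089032], nat_lit 1271250, nat_lit 1271250, nat_lit 157850, nat_lit 490000, nat_lit 1271250, nat_lit 1271250, [nat_lit 1100000, nat_lit 1442500, nat_lit 1271250], [nat_lit 9, nat_lit 40, nat_lit 20, nat_lit 80, nat_lit 2, nat_lit 317, nat_lit 100, nat_lit 10]⟩, ⟨p033_k8, nat_lit 0, nat_lit 0, nat_lit 81, nat_lit 0, nat_lit 0, [nat_lit 4688000000, nat_lit 6250000000, nat_lit 9842000000], [], [nat_lit 10020629133, nat_lit 14108240071, nat_lit 8498529200, nat_lit 12394609984, nat_lit 19285110768, nat_lit 22688606467, nat_lit 17386048529, nat_lit 20163447220], nat_lit 0, nat_lit 0, nat_lit 0, nat_lit 0, nat_lit 0, nat_lit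 0, [], [nat_lit 11, nat_lit 40, nat_lit 20, nat_lit 80, nat_lit 1, nat_lit 401, nat_lit 175, nat_lit 11]⟩,
 zbF0, [⟨nat_lit 0, nat_lit 100, nat_lit 96, nat_lit 54, nat_lit 1090794507⟩, ⟨nat_lit 16, nat_lit 94, nat_lit 100, nat_lit 53, nat_lit 38550458⟩, ⟨nat_lit 19, nat_lit 100, nat_lit 92, nat_lit 61, nat_lit 924384233⟩]⟩
noncomputable def p033_l95 : Lf2 := ⟨nat_lit 0, nat_lit 10, [nat_lit 0, nat_lit 5, nat_lit 5, nat_lit 20], true, nat_lit 200, nat_lit 240, nat_lit 0, nat_lit 288, ⟨nat_lit 0, nat_lit 0, nat_lit 1000, nat_lit 6, nat_lit 90, nat_lit 1000, nat_lit 143, nat_lit 1000, nat_lit 190817, nat_lit 322, nat_lit 77067, nat_lit 283, nat_lit 55241586, nat_lit 0, nat_lit 0, nat_lit 3052878, false, false⟩,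
 nat_lit 0, nat_lit 8164, nat_lit 0, nat_lit 0, nat_lit 4752, nat_lit 0, nat_lit 0, nat_lit 0, nat_lit 0, nat_lit 0, nat_lit 0, nat_lit 0, nat_lit 0, nat_lit 0, nat_lit 113, nat_lit 547600, nat_lit 0, nat_lit 0, [(nat_lit 9, [(nat_lit 5, nat_lit 754), (nat_lit 6, nat_lit 246)])],
 ⟨p033_k26, nat_lit 0, nat_lit 0, nat_lit 195, nat_lit 0, nat_lit 227786, [nat_lit 3459663201, nat_lit 16321600], [], [nat_lit 14508787064, nat_lit 15652882004, nat_lit 13945829153, nat_lit 15079984032, nat_lit 15934011978, nat_lit 17161103885, nat_lit 15366126448, nat_lit 16479342306], nat_lit 1271250, nat_lit 1271250, nat_lit 134400, nat_lit 230001, nat_lit 1271250, nat_lit 1271250, [nat_lit 1100000, nat_lit 2127500], [nat_lit 70, nat_lit 40, nat_lit 20, nat_lit 80, nat_lit 13, nat_lit 373, nat_lit 150, nat_lit 10]⟩, C1.Rw.none,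
 ⟨nat_lit 5477, nat_lit 5917, ⟨.ofNat (nat_lit 197129), .ofNat (nat_lit 228543), .ofNat (nat_lit 207799), .ofNat (nat_lit 239212), .ofNat (nat_lit 213007), .ofNat (nat_lit 242980), .ofNat (nat_lit 223686), .ofNat (nat_lit 253659)⟩, ⟨.ofNat (nat_lit 307945), .ofNat (nat_lit 386479), .ofNat (nat_lit 329284), .ofNat (nat_lit 407818), .ofNat (nat_lit 307785), .ofNat (nat_lit 382718), .ofNat (nat_lit 329142), .ofNat (nat_lit 404075)⟩⟩, [⟨nat_lit 0, nat_lit 100, nat_lit 96, nat_lit 57, nat_lit 326154966⟩, ⟨nat_lit 16, nat_lit 96, nat_lit 100, nat_lit 54, nat_lit 244391727⟩]⟩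
noncomputable def p033_l96 : Lf2 := ⟨nat_lit 0, nat_lit 10, [nat_lit 0, nat_lit 5, nat_lit 5, nat_lit 20], false, nat_lit 200, nat_lit 240, nat_lit 0, nat_lit 280, ⟨nat_lit 102, nat_lit 0, nat_lit 898, nat_lit 6, nat_lit 96, nat_lit 898, nat_lit 143, nat_lit 898, nat_lit 190817, nat_lit 322, nat_lit 86400, nat_lit 287, nat_lit 54839935, nat_lit 0, nat_lit 0, nat_lit 3139634, false, false⟩,
 nat_lit 0, nat_lit 8196, nat_lit 0, nat_lit 0, nat_lit 4770, nat_lit 862, nat_lit 0, nat_lit 0, nat_lit 0, nat_lit 262, nat_lit 0, nat_lit 0, nat_lit 0, nat_lit 0, nat_lit 135, nat_lit 889000, nat_lit 0, nat_lit 0, [(nat_lit 9, [(nat_lit 5, nat_lit 15), (nat_lit 6, nat_lit 883)])],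
 ⟨p033_k25, nat_lit 0, nat_lit 0, nat_lit 220, nat_lit 0, nat_lit 271294, [nat_lit 3630252801, nat_lit 2957017334, nat_lit 188660266], [], [nat_lit 13917418367, nat_lit 15060993171, nat_lit 13492807096, nat_lit 14629000586, nat_lit 15363004504, nat_lit 16985547737, nat_lit 14929725515, nat_lit 16425645400], nat_lit 1271250, nat_lit 1271250, nat_lit 157850, nat_lit 230001, nat_lit 1271250, nat_lit 1271250, [nat_lit 1100000, nat_lit 1442500, nat_lit 1271250], [nat_lit 11, nat_lit 40, nat_lit 20, nat_lit 80, nat_lit 1, nat_lit 373, nat_lit 150, nat_lit 10]⟩, ⟨p033_k10, nat_lit 0, nat_lit 0, nat_lit 203, nat_lit 0, nat_lit 0, [nat_lit 478176000, nat_lit 637500000, nat_lit 1003884000], [], [nat_lit 2109989307, nat_lit 2211983309, nat_lit 1993720734, nat_lit 2095246908, nat_lit 2103384902, nat_lit 2181579700, nat_lit 2010094510, nat_lit 2071619744], nat_lit 0, nat_lit 0, nat_lit 0, nat_lit 0, nat_lit 0, nat_lit 0, [],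 [nat_lit 11, nat_lit 40, nat_lit 20, nat_lit 80, nat_lit 1, nat_lit 373, nat_lit 150, nat_lit 11]⟩,
 ⟨nat_lit 5477, nat_lit 5917, ⟨.ofNat (nat_lit 215652), .ofNat (nat_lit 239212), .ofNat (nat_lit 226322), .ofNat (nat_lit 249882), .ofNat (nat_lit 231179), .ofNat (nat_lit 253659), .ofNat (nat_lit 241858), .ofNat (nat_lit 264337)⟩, ⟨.ofNat (nat_lit 307945), .ofNat (nat_lit 386479), .ofNat (nat_lit 329284), .ofNat (nat_lit 407818), .ofNat (nat_lit 307785), .ofNat (nat_lit 382718), .ofNat (nat_lit 329142), .ofNat (nat_lit 404075)⟩⟩, [⟨nat_lit 0, nat_lit 100, nat_lit 97, nat_lit 62, nat_lit 419598950⟩, ⟨nat_lit 4, nat_lit 100, nat_lit 96, nat_lit 54, nat_lit 296750601⟩, ⟨nat_lit 7, nat_lit 100, nat_lit 100, nat_lit 55, nat_lit 31609760⟩]⟩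
noncomputable def p033_l97 : Lf2 := ⟨nat_lit 0, nat_lit 10, [nat_lit 0, nat_lit 5, nat_lit 5, nat_lit 20], true, nat_lit 200, nat_lit 240, nat_lit 0, nat_lit 288, ⟨nat_lit 0, nat_lit 0, nat_lit 1000, nat_lit 6, nat_lit 113, nat_lit 1000, nat_lit 143, nat_lit 1000, nat_lit 190817, nat_lit 322, nat_lit 117600, nat_lit 299, nat_lit 53623227, nat_lit 0, nat_lit 0, nat_lit 3382234, false, false⟩,
 nat_lit 0, nat_lit 7809, nat_lit 0, nat_lit 0, nat_lit 4545, nat_lit 0, nat_lit 0, nat_lit 0, nat_lit 0, nat_lit 0, nat_lit 0, nat_lit 0, nat_lit 0, nat_lit 0, nat_lit 143, nat_lit 717400, nat_lit 0, nat_lit 0, [(nat_lit 9, [(nat_lit 5, nat_lit 471), (nat_lit 6, nat_lit 529)])],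
 ⟨p033_k25, nat_lit 0, nat_lit 0, nat_lit 185, nat_lit 0, nat_lit 217687, [nat_lit 3587564800, nat_lit 2571377334, nat_lit 119634666], [], [nat_lit 13322073935, nat_lit 13939946683, nat_lit 13039627425, nat_lit 13633500333, nat_lit 14981802550, nat_lit 15548270745, nat_lit 14642675730, nat_lit 15187561305], nat_lit 1271250, nat_lit 1271250, nat_lit 230001, nat_lit 490000, nat_lit 1271250, nat_lit 1271250, [nat_lit 1100000, nat_lit 1442500, nat_lit 1271250], [nat_lit 11, nat_lit 40, nat_lit 20, nat_lit 80, nat_lit 1, nat_lit 373, nat_lit 150, nat_lit 10]⟩, C1.Rw.none,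
 ⟨nat_lit 5700, nat_lit 5917, ⟨.ofNat (nat_lit 228543), .ofNat (nat_lit 307076), .ofNat (nat_lit 249882), .ofNat (nat_lit 328416), .ofNat (nat_lit 235806), .ofNat (nat_lit 312525), .ofNat (nat_lit 257148), .ofNat (nat_lit 333867)⟩, ⟨.ofNat (nat_lit 307945), .ofNat (nat_lit 386479), .ofNat (nat_lit 329284), .ofNat (nat_lit 407818), .ofNat (nat_lit 307921), .ofNat (nat_lit 384640), .ofNat (nat_lit 329263), .ofNat (nat_lit 405982)⟩⟩, [⟨nat_lit 0, nat_lit 100, nat_lit 98, nat_lit 64, nat_lit 150763394⟩, ⟨nat_lit 4, nat_lit 100, nat_lit 97, nat_lit 54, nat_lit 298439378⟩]⟩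
noncomputable def p033_l98 : Lf2 := ⟨nat_lit 0, nat_lit 10, [nat_lit 0, nat_lit 5, nat_lit 5, nat_lit 20], true, nat_lit 200, nat_lit 240, nat_lit 0, nat_lit 288, ⟨nat_lit 0, nat_lit 0, nat_lit 1000, nat_lit 6, nat_lit 115, nat_lit 1000, nat_lit 143, nat_lit 1000, nat_lit 190817, nat_lit 322, nat_lit 123267, nat_lit 301, nat_lit 53467177, nat_lit 0, nat_lit 0, nat_lit 3412617, false, false⟩,
 nat_lit 0, nat_lit 7346, nat_lit 0, nat_lit 0, nat_lit 4473, nat_lit 0, nat_lit 0, nat_lit 0, nat_lit 0, nat_lit 0, nat_lit 0, nat_lit 0, nat_lit 0, nat_lit 0, nat_lit 134, nat_lit 671200, nat_lit 0, nat_lit 0, [(nat_lit 9, [(nat_lit 5, nat_lit 548), (nat_lit 6, nat_lit 452)])],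
 ⟨p033_k28, nat_lit 0, nat_lit 0, nat_lit 204, nat_lit 0, nat_lit 257220, [nat_lit 3476582400, nat_lit 2414272001, nat_lit 73583999], [], [nat_lit 14135782151, nat_lit 14748963702, nat_lit 13846495561, nat_lit 14435940216, nat_lit 15736498513, nat_lit 16304760460, nat_lit 15393460177, nat_lit 15934505632], nat_lit 1271250, nat_lit 1271250, nat_lit 230001, nat_lit 490000, nat_lit 1271250, nat_lit 1271250, [nat_lit 1100000, nat_lit 1442500, nat_lit 1271250], [nat_lit 11, nat_lit 40, nat_lit 20, nat_lit 80, nat_lit 1, nat_lit 373, nat_lit 150, nat_lit 10]⟩, C1.Rw.none,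
 ⟨nat_lit 5477, nat_lit 5701, ⟨.ofNat (nat_lit 235806), .ofNat (nat_lit 312525), .ofNat (nat_lit 257148), .ofNat (nat_lit 333867), .ofNat (nat_lit 242980), .ofNat (nat_lit 317913), .ofNat (nat_lit 264337), .ofNat (nat_lit 339271)⟩, ⟨.ofNat (nat_lit 307921), .ofNat (nat_lit 384640), .ofNat (nat_lit 329263), .ofNat (nat_lit 405982), .ofNat (nat_lit 307785), .ofNat (nat_lit 382718), .ofNat (nat_lit 329142), .ofNat (nat_lit 404075)⟩⟩, [⟨nat_lit 0, nat_lit 100, nat_lit 96, nat_lit 69, nat_lit 151196325⟩, ⟨nat_lit 16, nat_lit 94, nat_lit 100, nat_lit 53, nat_lit 311882059⟩]⟩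
noncomputable def p033_l99 : Lf2 := ⟨nat_lit 0, nat_lit 10, [nat_lit 0, nat_lit 5, nat_lit 5, nat_lit 20], false, nat_lit 200, nat_lit 240, nat_lit 0, nat_lit 160, ⟨nat_lit 1000, nat_lit 0, nat_lit 0, nat_lit 0, nat_lit 0, nat_lit 0, nat_lit 0, nat_lit 0, nat_lit 0, nat_lit 0, nat_lit 0, nat_lit 0, nat_lit 0, nat_lit 0, nat_lit 0, nat_lit 0, false, false⟩,
 nat_lit 0, nat_lit 20270, nat_lit 0, nat_lit 0, nat_lit 11798, nat_lit 8160, nat_lit 1566, nat_lit 0, nat_lit 0, nat_lit 1770, nat_lit 0, nat_lit 0, nat_lit 0, nat_lit 9681104797882, nat_lit 0, nat_lit 0, nat_lit 0, nat_lit 0, [],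
 ⟨p033_k30, nat_lit 0, nat_lit 0, nat_lit 303, nat_lit 0, nat_lit 366716, [nat_lit 4688000000, nat_lit 7968000001, nat_lit 9842000000], [], [nat_lit 16066179529, nat_lit 17956312196, nat_lit 13206148638, nat_lit 14700116948, nat_lit 17951278330, nat_lit 19839014229, nat_lit 14711877288, nat_lit 16331136193], nat_lit 1271250, nat_lit 1271250, nat_lit 205650, nat_lit 490000, nat_lit 1271250, nat_lit 1271250, [nat_lit 1100000, nat_lit 1785000, nat_lit 1271250], [nat_lit 29, nat_lit 40, nat_lit 20, nat_lit 80, nat_lit 17, nat_lit 373, nat_lit 150, nat_lit 10]⟩, ⟨p033_k30, nat_lit 0, nat_lit 0, nat_lit 226, nat_lit 0, nat_lit 0, [nat_lit 4688000000, nat_lit 7968000000, nat_lit 9842000000], [], [nat_lit 21265337081, nat_lit 23216215297, nat_lit 18788696520, nat_lit 20805203840, nat_lit 16004979889, nat_lit 17551618401, nat_lit 14563918240, nat_lit 16039301440], nat_lit 0, nat_lit 0, nat_lit 0, nat_lit 0, nat_lit 0, nat_lit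 0, [], [nat_lit 29, nat_lit 40, nat_lit 20, nat_lit 80, nat_lit 17, nat_lit 373, nat_lit 150, nat_lit 11]⟩,
 zbF0, [⟨nat_lit 0, nat_lit 100, nat_lit 100, nat_lit 70, nat_lit 1268315753⟩, ⟨nat_lit 16, nat_lit 96, nat_lit 100, nat_lit 54, nat_lit 868820226⟩]⟩
noncomputable def p033_l100 : Lf2 := ⟨nat_lit 0, nat_lit 10, [nat_lit 0, nat_lit 5, nat_lit 5, nat_lit 20], false, nat_lit 200, nat_lit 240, nat_lit 160, nat_lit 268, ⟨nat_lit 1000, nat_lit 0, nat_lit 0, nat_lit 0, nat_lit 0, nat_lit 0, nat_lit 0, nat_lit 0, nat_lit 0, nat_lit 0, nat_lit 0, nat_lit 0, nat_lit 0, nat_lit 0, nat_lit 0, nat_lit 0, false, false⟩,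
 nat_lit 0, nat_lit 19475, nat_lit 0, nat_lit 0, nat_lit 11336, nat_lit 7020, nat_lit 1627, nat_lit 0, nat_lit 0, nat_lit 0, nat_lit 0, nat_lit 0, nat_lit 0, nat_lit 0, nat_lit 0, nat_lit 0, nat_lit 0, nat_lit 0, [],
 ⟨p033_k30, nat_lit 0, nat_lit 0, nat_lit 303, nat_lit 0, nat_lit 366716, [nat_lit 4688000000, nat_lit 7968000001, nat_lit 9842000000], [], [nat_lit 16427834815, nat_lit 17824742667, nat_lit 13856553954, nat_lit 15182238578, nat_lit 17838718808, nat_lit 19626898202, nat_lit 15141197778, nat_lit 16615099345], nat_lit 1271250, nat_lit 1271250, nat_lit 205650, nat_lit 490000, nat_lit 1271250, nat_lit 1271250, [nat_lit 1100000, nat_lit 1785000, nat_lit 1271250], [nat_lit 29, nat_lit 40, nat_lit 20, nat_lit 80, nat_lit 17, nat_lit 373, nat_lit 150, nat_lit 10]⟩, ⟨p033_k30, nat_lit 0, nat_lit 0, nat_lit 80, nat_lit 0, nat_lit 0, [nat_lit 4688000000, nat_lit 7968000000, nat_lit 9842000000], [], [nat_lit 11437412096,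 nat_lit 13503747425, nat_lit 10197550360, nat_lit 12177062720, nat_lit 18474834025, nat_lit 20322639862, nat_lit 16987871219, nat_lit 18491396996], nat_lit 0, nat_lit 0, nat_lit 0, nat_lit 0, nat_lit 0, nat_lit 0, [], [nat_lit 29, nat_lit 40, nat_lit 20, nat_lit 80, nat_lit 17, nat_lit 401, nat_lit 175, nat_lit 11]⟩,
 zbF0, [⟨nat_lit 0, nat_lit 100, nat_lit 100, nat_lit 70, nat_lit 1167907365⟩, ⟨nat_lit 4, nat_lit 100, nat_lit 96, nat_lit 54, nat_lit 503875637⟩, ⟨nat_lit 19, nat_lit 96, nat_lit 100, nat_lit 54, nat_lit 1015037806⟩]⟩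
noncomputable def p033_l101 : Lf2 := ⟨nat_lit 0, nat_lit 5, [nat_lit 4, nat_lit 5, nat_lit 5, nat_lit 20], false, nat_lit 240, nat_lit 268, nat_lit 0, nat_lit 160, ⟨nat_lit 1000, nat_lit 0, nat_lit 0, nat_lit 0, nat_lit 0, nat_lit 0, nat_lit 0, nat_lit 0, nat_lit 0, nat_lit 0, nat_lit 0, nat_lit 0, nat_lit 0, nat_lit 0, nat_lit 0, nat_lit 0, false, false⟩,
 nat_lit 0, nat_lit 19103, nat_lit 0, nat_lit 0, nat_lit 11119, nat_lit 8068, nat_lit 926, nat_lit 0, nat_lit 0, nat_lit 3270, nat_lit 0, nat_lit 0, nat_lit 0, nat_lit 1472033852351, nat_lit 0, nat_lit 0, nat_lit 0, nat_lit 0, [],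
 ⟨p033_k23, nat_lit 0, nat_lit 0, nat_lit 324, nat_lit 0, nat_lit 532436, [nat_lit 4688000000, nat_lit 6250000000, nat_lit 7968000000], [], [nat_lit 19542336736, nat_lit 21424930978, nat_lit 15470869458, nat_lit 17257900976, nat_lit 22230186178, nat_lit 24744881337, nat_lit 18021901249, nat_lit 19645175757], nat_lit 1271250, nat_lit 1271250, nat_lit 134400, nat_lit 490000, nat_lit 1271250, nat_lit 1271250, [nat_lit 1100000, nat_lit 1442500, nat_lit 1271250], [nat_lit 9, nat_lit 40, nat_lit 20, nat_lit 80, nat_lit 2, nat_lit 226, nat_lit 20, nat_lit 7]⟩, ⟨p033_k8, nat_lit 0, nat_lit 0, nat_lit 218, nat_lit 0, nat_lit 0, [nat_lit 4688000000, nat_lit 6250000000, nat_lit 9842000000], [], [nat_lit 18600348384, nat_lit 22490310868, nat_lit 15150573132, nat_lit 18991532416, nat_lit 13915892512, nat_lit 17360259930, nat_lit 12050246544, nat_lit 15303419408], nat_lit 0, nat_lit 0, nat_lit 0, nat_lit 0, nat_lit 0, nat_lit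 0, [], [nat_lit 11, nat_lit 40, nat_lit 20, nat_lit 80, nat_lit 1, nat_lit 373, nat_lit 150, nat_lit 11]⟩,
 zbF0, [⟨nat_lit 0, nat_lit 100, nat_lit 98, nat_lit 64, nat_lit 1281030289⟩, ⟨nat_lit 16, nat_lit 96, nat_lit 100, nat_lit 54, nat_lit 1372114928⟩]⟩
noncomputable def p033_l102 : Lf2 := ⟨nat_lit 0, nat_lit 5, [nat_lit 4, nat_lit 5, nat_lit 5, nat_lit 20], false, nat_lit 240, nat_lit 268, nat_lit 160, nat_lit 288, ⟨nat_lit 1000, nat_lit 0, nat_lit 0, nat_lit 0, nat_lit 0, nat_lit 0, nat_lit 0, nat_lit 0, nat_lit 0, nat_lit 0, nat_lit 0, nat_lit 0, nat_lit 0, nat_lit 0, nat_lit 0, nat_lit 0, false, false⟩,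
 nat_lit 0, nat_lit 14469, nat_lit 0, nat_lit 0, nat_lit 8422, nat_lit 6784, nat_lit 2501, nat_lit 0, nat_lit 0, nat_lit 0, nat_lit 0, nat_lit 0, nat_lit 0, nat_lit 0, nat_lit 0, nat_lit 0, nat_lit 0, nat_lit 0, [],
 ⟨p033_k23, nat_lit 0, nat_lit 0, nat_lit 286, nat_lit 0, nat_lit 438797, [nat_lit 4688000000, nat_lit 6250000000, nat_lit 7968000000], [], [nat_lit 17698696672, nat_lit 18275042818, nat_lit 15624951610, nat_lit 16135518356, nat_lit 20362678734, nat_lit 21403598644, nat_lit 17091052647, nat_lit 17673853800], nat_lit 1271250, nat_lit 1271250, nat_lit 134400, nat_lit 490000, nat_lit 1271250, nat_lit 1271250, [nat_lit 1100000, nat_lit 1442500, nat_lit 1271250], [nat_lit 9, nat_lit 40, nat_lit 20, nat_lit 80, nat_lit 2, nat_lit 226, nat_lit 20, nat_lit 7]⟩, ⟨p033_k8, nat_lit 0, nat_lit 0, nat_lit 80, nat_lit 0, nat_lit 0, [nat_lit 4688000000, nat_lit 6250000000, nat_lit 9842000000], [], [nat_lit 10301661639,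 nat_lit 13358234808, nat_lit 8594151200, nat_lit 11500118168, nat_lit 19539798728, nat_lit 22082265308, nat_lit 17439879809, nat_lit 19512953911], nat_lit 0, nat_lit 0, nat_lit 0, nat_lit 0, nat_lit 0, nat_lit 0, [], [nat_lit 11, nat_lit 40, nat_lit 20, nat_lit 80, nat_lit 1, nat_lit 401, nat_lit 175, nat_lit 11]⟩,
 zbF0, [⟨nat_lit 0, nat_lit 100, nat_lit 98, nat_lit 60, nat_lit 621099334⟩, ⟨nat_lit 16, nat_lit 100, nat_lit 99, nat_lit 63, nat_lit 605185557⟩, ⟨nat_lit 7, nat_lit 100, nat_lit 100, nat_lit 55, nat_lit 403413958⟩, ⟨nat_lit 11, nat_lit 100, nat_lit 100, nat_lit 72, nat_lit 452609207⟩]⟩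
noncomputable def p033_l103 : Lf2 := ⟨nat_lit 0, nat_lit 5, [nat_lit 4, nat_lit 5, nat_lit 5, nat_lit 20], false, nat_lit 240, nat_lit 260, nat_lit 160, nat_lit 288, ⟨nat_lit 1000, nat_lit 0, nat_lit 0, nat_lit 0, nat_lit 0, nat_lit 0, nat_lit 0, nat_lit 0, nat_lit 0, nat_lit 0, nat_lit 0, nat_lit 0, nat_lit 0, nat_lit 0, nat_lit 0, nat_lit 0, false, false⟩,
 nat_lit 0, nat_lit 13305, nat_lit 0, nat_lit 0, nat_lit 8103, nat_lit 6844, nat_lit 2072, nat_lit 0, nat_lit 0, nat_lit 0, nat_lit 0, nat_lit 0, nat_lit 0, nat_lit 0, nat_lit 0, nat_lit 0, nat_lit 0, nat_lit 0, [],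
 ⟨p033_k24, nat_lit 0, nat_lit 0, nat_lit 309, nat_lit 0, nat_lit 505614, [nat_lit 4688000000, nat_lit 6250000000, nat_lit 7968000000], [], [nat_lit 17915655996, nat_lit 18863149291, nat_lit 16234299099, nat_lit 16832702164, nat_lit 19923477918, nat_lit 20965781513, nat_lit 17416870589, nat_lit 17981032806], nat_lit 1271250, nat_lit 1271250, nat_lit 157850, nat_lit 490000, nat_lit 1271250, nat_lit 1271250, [nat_lit 1100000, nat_lit 1442500, nat_lit 1271250], [nat_lit 9, nat_lit 40, nat_lit 20, nat_lit 80, nat_lit 2, nat_lit 226, nat_lit 20, nat_lit 7]⟩, ⟨p033_k8, nat_lit 0, nat_lit 0, nat_lit 81, nat_lit 0, nat_lit 0, [nat_lit 4688000000, nat_lit 6250000000, nat_lit 9842000000], [], [nat_lit 10020629133, nat_lit 14108240071, nat_lit 8498529200, nat_lit 12394609984, nat_lit 19285110768, nat_lit 22688606467, nat_lit 17386048529, nat_lit 20163447220], nat_lit 0, nat_lit 0, nat_lit 0, nat_lit 0, nat_lit 0, nat_lit 0,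 [], [nat_lit 11, nat_lit 40, nat_lit 20, nat_lit 80, nat_lit 1, nat_lit 401, nat_lit 175, nat_lit 11]⟩,
 zbF0, [⟨nat_lit 0, nat_lit 100, nat_lit 97, nat_lit 67, nat_lit 527026616⟩, ⟨nat_lit 0, nat_lit 100, nat_lit 96, nat_lit 54, nat_lit 82822617⟩, ⟨nat_lit 16, nat_lit 98, nat_lit 100, nat_lit 63, nat_lit 636995598⟩, ⟨nat_lit 19, nat_lit 100, nat_lit 92, nat_lit 61, nat_lit 307106017⟩, ⟨nat_lit 11, nat_lit 100, nat_lit 100, nat_lit 73, nat_lit 463271435⟩]⟩
noncomputable def p033_l104 : Lf2 := ⟨nat_lit 0, nat_lit 10, [nat_lit 0, nat_lit 5, nat_lit 5, nat_lit 20], true, nat_lit 240, nat_lit 268, nat_lit 0, nat_lit 288, ⟨nat_lit 0, nat_lit 0, nat_lit 1000, nat_lit 6, nat_lit 106, nat_lit 1000, nat_lit 169, nat_lit 1000, nat_lit 126379, nat_lit 302, nat_lit 104017, nat_lit 294, nat_lit 51833051, nat_lit 0, nat_lit 0, nat_lit 3605966, false, false⟩,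
 nat_lit 0, nat_lit 8055, nat_lit 0, nat_lit 0, nat_lit 4688, nat_lit 0, nat_lit 0, nat_lit 0, nat_lit 0, nat_lit 0, nat_lit 0, nat_lit 0, nat_lit 0, nat_lit 0, nat_lit 117, nat_lit 571000, nat_lit 0, nat_lit 0, [(nat_lit 9, [(nat_lit 5, nat_lit 715), (nat_lit 6, nat_lit 285)])],
 ⟨p033_k26, nat_lit 0, nat_lit 0, nat_lit 203, nat_lit 0, nat_lit 227786, [nat_lit 3543522000, nat_lit 14036000], [], [nat_lit 15883378474, nat_lit 17121715572, nat_lit 15101178432, nat_lit 16206203392, nat_lit 17777112255, nat_lit 19259663297, nat_lit 16659336993, nat_lit 17687555567], nat_lit 1271250, nat_lit 1271250, nat_lit 134400, nat_lit 490000, nat_lit 1271250, nat_lit 1271250, [nat_lit 1100000, nat_lit 2127500], [nat_lit 70, nat_lit 40, nat_lit 20, nat_lit 80, nat_lit 13, nat_lit 401, nat_lit 175, nat_lit 11]⟩, C1.Rw.none,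
 ⟨nat_lit 5477, nat_lit 5917, ⟨.ofNat (nat_lit 197129), .ofNat (nat_lit 307076), .ofNat (nat_lit 207799), .ofNat (nat_lit 317746), .ofNat (nat_lit 213007), .ofNat (nat_lit 317913), .ofNat (nat_lit 223686), .ofNat (nat_lit 328592)⟩, ⟨.ofNat (nat_lit 386479), .ofNat (nat_lit 441452), .ofNat (nat_lit 407818), .ofNat (nat_lit 462791), .ofNat (nat_lit 382718), .ofNat (nat_lit 435171), .ofNat (nat_lit 404075), .ofNat (nat_lit 456528)⟩⟩, [⟨nat_lit 0, nat_lit 100, nat_lit 96, nat_lit 57, nat_lit 190954746⟩, ⟨nat_lit 4, nat_lit 100, nat_lit 96, nat_lit 54, nat_lit 582704909⟩]⟩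
noncomputable def p033_l105 : Lf2 := ⟨nat_lit 0, nat_lit 10, [nat_lit 0, nat_lit 5, nat_lit 5, nat_lit 20], true, nat_lit 240, nat_lit 268, nat_lit 0, nat_lit 280, ⟨nat_lit 0, nat_lit 0, nat_lit 1000, nat_lit 6, nat_lit 111, nat_lit 1000, nat_lit 169, nat_lit 1000, nat_lit 126379, nat_lit 302, nat_lit 117600, nat_lit 299, nat_lit 51430823, nat_lit 0, nat_lit 0, nat_lit 3685146, false, false⟩,
 nat_lit 0, nat_lit 7705, nat_lit 0, nat_lit 0, nat_lit 4485, nat_lit 0, nat_lit 0, nat_lit 0, nat_lit 0, nat_lit 0, nat_lit 0, nat_lit 0, nat_lit 0, nat_lit 0, nat_lit 131, nat_lit 649600, nat_lit 0, nat_lit 0, [(nat_lit 9, [(nat_lit 5, nat_lit 584), (nat_lit 6, nat_lit 416)])],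
 ⟨p033_k25, nat_lit 0, nat_lit 0, nat_lit 228, nat_lit 0, nat_lit 271294, [nat_lit 3444019201, nat_lit 2364976001, nat_lit 85871999], [], [nat_lit 15468461897, nat_lit 16824996749, nat_lit 14859337692, nat_lit 15942708642, nat_lit 17463373194, nat_lit 18911039156, nat_lit 16386433193, nat_lit 17545590654], nat_lit 1271250, nat_lit 1271250, nat_lit 157850, nat_lit 490000, nat_lit 1271250, nat_lit 1271250, [nat_lit 1100000, nat_lit 1442500, nat_lit 1271250], [nat_lit 11, nat_lit 40, nat_lit 20, nat_lit 80, nat_lit 1, nat_lit 401, nat_lit 175, nat_lit 11]⟩, C1.Rw.none,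
 ⟨nat_lit 5477, nat_lit 5917, ⟨.ofNat (nat_lit 215652), .ofNat (nat_lit 317746), .ofNat (nat_lit 226322), .ofNat (nat_lit 328416), .ofNat (nat_lit 231179), .ofNat (nat_lit 328592), .ofNat (nat_lit 241858), .ofNat (nat_lit 339271)⟩, ⟨.ofNat (nat_lit 386479), .ofNat (nat_lit 441452), .ofNat (nat_lit 407818), .ofNat (nat_lit 462791), .ofNat (nat_lit 382718), .ofNat (nat_lit 435171), .ofNat (nat_lit 404075), .ofNat (nat_lit 456528)⟩⟩, [⟨nat_lit 0, nat_lit 100, nat_lit 97, nat_lit 62, nat_lit 180568428⟩, ⟨nat_lit 4, nat_lit 100, nat_lit 96, nat_lit 54, nat_lit 616998431⟩]⟩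
noncomputable def p033_l106 : Lf2 := ⟨nat_lit 0, nat_lit 10, [nat_lit 0, nat_lit 5, nat_lit 5, nat_lit 20], false, nat_lit 240, nat_lit 268, nat_lit 0, nat_lit 160, ⟨nat_lit 1000, nat_lit 0, nat_lit 0, nat_lit 0, nat_lit 0, nat_lit 0, nat_lit 0, nat_lit 0, nat_lit 0, nat_lit 0, nat_lit 0, nat_lit 0, nat_lit 0, nat_lit 0, nat_lit 0, nat_lit 0, false, false⟩,
 nat_lit 0, nat_lit 20654, nat_lit 0, nat_lit 0, nat_lit 12022, nat_lit 7876, nat_lit 1397, nat_lit 0, nat_lit 0, nat_lit 1743, nat_lit 0, nat_lit 0, nat_lit 0, nat_lit 13158027320051, nat_lit 0, nat_lit 0, nat_lit 0, nat_lit 0, [],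
 ⟨p033_k30, nat_lit 0, nat_lit 0, nat_lit 305, nat_lit 0, nat_lit 366716, [nat_lit 4688000000, nat_lit 7968000001, nat_lit 9842000000], [], [nat_lit 18690774235, nat_lit 20399779030, nat_lit 15375043132, nat_lit 17010291676, nat_lit 21153688740, nat_lit 23800475840, nat_lit 17731657425, nat_lit 19706572161], nat_lit 1271250, nat_lit 1271250, nat_lit 205650, nat_lit 490000, nat_lit 1271250, nat_lit 1271250, [nat_lit 1100000, nat_lit 1785000, nat_lit 1271250], [nat_lit 29, nat_lit 40, nat_lit 20, nat_lit 80, nat_lit 17, nat_lit 401, nat_lit 175, nat_lit 11]⟩, ⟨p033_k30, nat_lit 0, nat_lit 0, nat_lit 226, nat_lit 0, nat_lit 0, [nat_lit 4688000000, nat_lit 7968000000, nat_lit 9842000000], [], [nat_lit 21224618709, nat_lit 23131401291, nat_lit 18862908972, nat_lit 20832565024, nat_lit 16537411557, nat_lit 18051795281, nat_lit 15175299864, nat_lit 16620388784], nat_lit 0, nat_lit 0, nat_lit 0, nat_lit 0, nat_lit 0, nat_lit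 0, [], [nat_lit 29, nat_lit 40, nat_lit 20, nat_lit 80, nat_lit 17, nat_lit 373, nat_lit 150, nat_lit 11]⟩,
 zbF0, [⟨nat_lit 0, nat_lit 100, nat_lit 100, nat_lit 70, nat_lit 470933854⟩, ⟨nat_lit 0, nat_lit 100, nat_lit 100, nat_lit 60, nat_lit 753052715⟩, ⟨nat_lit 4, nat_lit 100, nat_lit 96, nat_lit 54, nat_lit 1294631231⟩]⟩
noncomputable def p033_l107 : Lf2 := ⟨nat_lit 0, nat_lit 10, [nat_lit 0, nat_lit 5, nat_lit 5, nat_lit 20], false, nat_lit 240, nat_lit 268, nat_lit 160, nat_lit 268, ⟨nat_lit 1000, nat_lit 0, nat_lit 0, nat_lit 0, nat_lit 0, nat_lit 0, nat_lit 0, nat_lit 0, nat_lit 0, nat_lit 0, nat_lit 0, nat_lit 0, nat_lit 0, nat_lit 0, nat_lit 0, nat_lit 0, false, false⟩,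
 nat_lit 0, nat_lit 19098, nat_lit 0, nat_lit 0, nat_lit 11116, nat_lit 7020, nat_lit 1546, nat_lit 0, nat_lit 0, nat_lit 0, nat_lit 0, nat_lit 0, nat_lit 0, nat_lit 0, nat_lit 0, nat_lit 0, nat_lit 0, nat_lit 0, [],
 ⟨p033_k30, nat_lit 0, nat_lit 0, nat_lit 305, nat_lit 0, nat_lit 366716, [nat_lit 4688000000, nat_lit 7968000001, nat_lit 9842000000], [], [nat_lit 18383203465, nat_lit 19951578629, nat_lit 15808201258, nat_lit 16977555410, nat_lit 20668242685, nat_lit 23170543934, nat_lit 17695757837, nat_lit 19446807103], nat_lit 1271250, nat_lit 1271250, nat_lit 205650, nat_lit 490000, nat_lit 1271250, nat_lit 1271250, [nat_lit 1100000, nat_lit 1785000, nat_lit 1271250], [nat_lit 29, nat_lit 40, nat_lit 20, nat_lit 80, nat_lit 17, nat_lit 401, nat_lit 175, nat_lit 11]⟩, ⟨p033_k30, nat_lit 0, nat_lit 0, nat_lit 80, nat_lit 0, nat_lit 0, [nat_lit 4688000000, nat_lit 7968000000, nat_lit 9842000000], [], [nat_lit 11437412096,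 nat_lit 13503747425, nat_lit 10197550360, nat_lit 12177062720, nat_lit 18474834025, nat_lit 20322639862, nat_lit 16987871219, nat_lit 18491396996], nat_lit 0, nat_lit 0, nat_lit 0, nat_lit 0, nat_lit 0, nat_lit 0, [], [nat_lit 29, nat_lit 40, nat_lit 20, nat_lit 80, nat_lit 17, nat_lit 401, nat_lit 175, nat_lit 11]⟩,
 zbF0, [⟨nat_lit 0, nat_lit 100, nat_lit 100, nat_lit 60, nat_lit 1095119388⟩, ⟨nat_lit 16, nat_lit 100, nat_lit 99, nat_lit 63, nat_lit 943843891⟩, ⟨nat_lit 19, nat_lit 100, nat_lit 99, nat_lit 63, nat_lit 752577957⟩, ⟨nat_lit 11, nat_lit 100, nat_lit 100, nat_lit 76, nat_lit 58874485⟩]⟩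
noncomputable def b_VL_600_600_5_15 : St := ⟨true, nat_lit 1, nat_lit 0, nat_lit 1, nat_lit 40, nat_lit 260, nat_lit 280, nat_lit 240, nat_lit 280, nat_lit 24, nat_lit 80, nat_lit 20, nat_lit 40, nat_lit 160, nat_lit 268, nat_lit 0, nat_lit 288, nat_lit 0, nat_lit 40, nat_lit 0, nat_lit 0, nat_lit 0, nat_lit 0⟩
theorem d_VL_600_600_5_15 (h : EB TB.env) : Dead b_VL_600_600_5_15 := chkB_sound0 h (T :=
(.spl (nat_lit 4) (nat_lit 240)
(.spl (nat_lit 4) (nat_lit 200)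
(.spl (nat_lit 6) (nat_lit 20)
(.spl (nat_lit 5) (nat_lit 160)
(.leaf p033_l84)
(.spl (nat_lit 0) (nat_lit 270)
(.ord (.leaf p033_l85))
(.trZ (nat_lit 0) (nat_lit 100) (nat_lit 96) (nat_lit 54) (nat_lit 28) (.leaf p033_l86))))
(.spl (nat_lit 0) (nat_lit 270)
(.ord (.spl (nat_lit 1) (nat_lit 260)
(.leaf p033_l87)
(.trZ (nat_lit 0) (nat_lit 100) (nat_lit 100) (nat_lit 60) (nat_lit 36) (.trX (nat_lit 19) (nat_lit 100) (nat_lit 99) (nat_lit 63) (nat_lit 268) (.leaf p033_l88)))))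
(.trZ (nat_lit 0) (nat_lit 100) (nat_lit 96) (nat_lit 54) (nat_lit 28) (.spl (nat_lit 1) (nat_lit 260)
(.leaf p033_l89)
(.trZ (nat_lit 0) (nat_lit 100) (nat_lit 98) (nat_lit 64) (nat_lit 40) (.trX (nat_lit 19) (nat_lit 100) (nat_lit 99) (nat_lit 63) (nat_lit 268) (.spl (nat_lit 0) (nat_lit 275)
(.ord (.leaf p033_l90))
(.trZ (nat_lit 0) (nat_lit 100) (nat_lit 97) (nat_lit 67) (nat_lit 44) (.leaf p033_l91)))))))))
(.spl (nat_lit 6) (nat_lit 20)
(.spl (nat_lit 5) (nat_lit 160)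
(.leaf p033_l92)
(.spl (nat_lit 0) (nat_lit 270)
(.ord (.leaf p033_l93))
(.trZ (nat_lit 0) (nat_lit 100) (nat_lit 96) (nat_lit 54) (nat_lit 28) (.leaf p033_l94))))
(.spl (nat_lit 1) (nat_lit 260)
(.spl (nat_lit 2) (nat_lit 40)
(.spl (nat_lit 1) (nat_lit 250)
(.leaf p033_l95)
(.trZ (nat_lit 0) (nat_lit 100) (nat_lit 99) (nat_lit 55) (nat_lit 28) (.trX (nat_lit 19) (nat_lit 100) (nat_lit 95) (nat_lit 62) (nat_lit 280) (.leaf p033_l96))))
(.spl (nat_lit 0) (nat_lit 270)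
(.leaf p033_l97)
(.leaf p033_l98)))
(.trZ (nat_lit 0) (nat_lit 100) (nat_lit 100) (nat_lit 60) (nat_lit 36) (.trX (nat_lit 19) (nat_lit 100) (nat_lit 99) (nat_lit 63) (nat_lit 268) (.spl (nat_lit 5) (nat_lit 160)
(.leaf p033_l99)
(.leaf p033_l100)))))))
(.spl (nat_lit 6) (nat_lit 20)
(.spl (nat_lit 5) (nat_lit 160)
(.leaf p033_l101)
(.spl (nat_lit 0) (nat_lit 270)
(.ord (.leaf p033_l102))
(.trZ (nat_lit 0) (nat_lit 100) (nat_lit 96) (nat_lit 54) (nat_lit 28) (.trX (nat_lit 16) (nat_lit 98) (nat_lit 100) (nat_lit 63) (nat_lit 260) (.leaf p033_l103)))))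
(.spl (nat_lit 1) (nat_lit 260)
(.spl (nat_lit 1) (nat_lit 250)
(.leaf p033_l104)
(.trZ (nat_lit 0) (nat_lit 100) (nat_lit 99) (nat_lit 55) (nat_lit 28) (.trX (nat_lit 19) (nat_lit 100) (nat_lit 95) (nat_lit 62) (nat_lit 280) (.leaf p033_l105))))
(.trZ (nat_lit 0) (nat_lit 100) (nat_lit 100) (nat_lit 60) (nat_lit 36) (.trX (nat_lit 19) (nat_lit 100) (nat_lit 99) (nat_lit 63) (nat_lit 268) (.spl (nat_lit 5) (nat_lit 160)
(.leaf p033_l106)
(.leaf p033_l107)))))))) (by decide +kernel)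
noncomputable def p033_l108 : Lf2 := ⟨nat_lit 0, nat_lit 10, [nat_lit 0, nat_lit 5, nat_lit 5, nat_lit 20], false, nat_lit 0, nat_lit 80, nat_lit 0, nat_lit 160, ⟨nat_lit 1000, nat_lit 0, nat_lit 0, nat_lit 0, nat_lit 0, nat_lit 0, nat_lit 0, nat_lit 0, nat_lit 0, nat_lit 0, nat_lit 0, nat_lit 0, nat_lit 0, nat_lit 0, nat_lit 0, nat_lit 0, false, false⟩,
 nat_lit 0, nat_lit 15017, nat_lit 0, nat_lit 0, nat_lit 8741, nat_lit 8821, nat_lit 1764, nat_lit 0, nat_lit 0, nat_lit 3707, nat_lit 0, nat_lit 0, nat_lit 0, nat_lit 34762582247942, nat_lit 0, nat_lit 0, nat_lit 0, nat_lit 0, [],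
 ⟨p033_k25, nat_lit 0, nat_lit 0, nat_lit 646, nat_lit 0, nat_lit 896947, [nat_lit 4688000000, nat_lit 6250000000, nat_lit 9842000000], [], [nat_lit 24551618750, nat_lit 22310365981, nat_lit 24040975754, nat_lit 21924089115, nat_lit 19365256790, nat_lit 19004295560, nat_lit 26429809214, nat_lit 24370403391], nat_lit 1271250, nat_lit 1271250, nat_lit 490000, nat_lit 1100001, nat_lit 0, nat_lit 490000, [nat_lit 1100000, nat_lit 1442500, nat_lit 1271250], [nat_lit 11, nat_lit 40, nat_lit 20, nat_lit 80, nat_lit 1, nat_lit 373, nat_lit 150, nat_lit 11]⟩, ⟨p033_k21, nat_lit 0, nat_lit 0, nat_lit 216, nat_lit 0, nat_lit 0, [nat_lit 4688000000, nat_lit 6250000000, nat_lit 11872000000], [], [nat_lit 15086929529, nat_lit 17614717592, nat_lit 14742255832, nat_lit 17937714863, nat_lit 10348849068, nat_lit 12928362024, nat_lit 11001093932, nat_lit 13252590299], nat_lit 0, nat_lit 0, nat_lit 0, nat_lit 0, nat_lit 0, nat_lit 0,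 [], [nat_lit 48, nat_lit 40, nat_lit 20, nat_lit 80, nat_lit 12, nat_lit 373, nat_lit 150, nat_lit 10]⟩,
 zbF0, []⟩
noncomputable def p033_l109 : Lf2 := ⟨nat_lit 0, nat_lit 10, [nat_lit 0, nat_lit 5, nat_lit 5, nat_lit 20], false, nat_lit 0, nat_lit 80, nat_lit 0, nat_lit 160, ⟨nat_lit 1000, nat_lit 0, nat_lit 0, nat_lit 0, nat_lit 0, nat_lit 0, nat_lit 0, nat_lit 0, nat_lit 0, nat_lit 0, nat_lit 0, nat_lit 0, nat_lit 0, nat_lit 0, nat_lit 0, nat_lit 0, false, false⟩,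
 nat_lit 0, nat_lit 13780, nat_lit 0, nat_lit 0, nat_lit 8392, nat_lit 7744, nat_lit 1908, nat_lit 0, nat_lit 0, nat_lit 3092, nat_lit 0, nat_lit 0, nat_lit 0, nat_lit 51119637870461, nat_lit 0, nat_lit 0, nat_lit 0, nat_lit 0, [],
 ⟨p033_k28, nat_lit 0, nat_lit 0, nat_lit 727, nat_lit 0, nat_lit 1038891, [nat_lit 4688000000, nat_lit 6250000000, nat_lit 9842000000], [], [nat_lit 22778626632, nat_lit 21134427892, nat_lit 20720370880, nat_lit 20950264096, nat_lit 17832656928, nat_lit 18270951904, nat_lit 23147268192, nat_lit 21170087816], nat_lit 1271250, nat_lit 1271250, nat_lit 490000, nat_lit 1100001, nat_lit 0, nat_lit 490000, [nat_lit 1100000, nat_lit 1442500, nat_lit 1271250], [nat_lit 11, nat_lit 40, nat_lit 20, nat_lit 80, nat_lit 1, nat_lit 373, nat_lit 150, nat_lit 11]⟩, ⟨p033_k21, nat_lit 0, nat_lit 0, nat_lit 220, nat_lit 0, nat_lit 0, [nat_lit 4688000000, nat_lit 6250000000, nat_lit 11872000000], [], [nat_lit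 17521886156, nat_lit 20641837772, nat_lit 17044599020, nat_lit 19860040224, nat_lit 12782321952, nat_lit 15955386464, nat_lit 13583210048, nat_lit 16363735232], nat_lit 0, nat_lit 0, nat_lit 0, nat_lit 0, nat_lit 0, nat_lit 0, [], [nat_lit 48, nat_lit 40, nat_lit 20, nat_lit 80, nat_lit 12, nat_lit 373, nat_lit 150, nat_lit 10]⟩,
 zbF0, []⟩
noncomputable def p033_l110 : Lf2 := ⟨nat_lit 0, nat_lit 10, [nat_lit 0, nat_lit 5, nat_lit 5, nat_lit 20], false, nat_lit 80, nat_lit 160, nat_lit 0, nat_lit 160, ⟨nat_lit 1000, nat_lit 0, nat_lit 0, nat_lit 0, nat_lit 0, nat_lit 0, nat_lit 0, nat_lit 0, nat_lit 0, nat_lit 0, nat_lit 0, nat_lit 0, nat_lit 0, nat_lit 0, nat_lit 0, nat_lit 0, false, false⟩,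
 nat_lit 0, nat_lit 14299, nat_lit 0, nat_lit 0, nat_lit 8323, nat_lit 9048, nat_lit 1257, nat_lit 0, nat_lit 0, nat_lit 3840, nat_lit 0, nat_lit 0, nat_lit 0, nat_lit 0, nat_lit 0, nat_lit 0, nat_lit 0, nat_lit 0, [],
 ⟨p033_k25, nat_lit 0, nat_lit 0, nat_lit 586, nat_lit 0, nat_lit 890623, [nat_lit 4688000000, nat_lit 6250000000, nat_lit 9842000000], [], [nat_lit 29444171153, nat_lit 25109735859, nat_lit 22509705679, nat_lit 22453980548, nat_lit 22509705679, nat_lit 22453980548, nat_lit 29568991325, nat_lit 25699611979], nat_lit 1271250, nat_lit 1271250, nat_lit 490000, nat_lit 1100001, nat_lit 490000, nat_lit 1100001, [nat_lit 1100000, nat_lit 1442500, nat_lit 1271250], [nat_lit 11, nat_lit 40, nat_lit 20, nat_lit 80, nat_lit 1, nat_lit 373, nat_lit 150, nat_lit 11]⟩, ⟨p033_k21, nat_lit 0, nat_lit 0, nat_lit 212, nat_lit 0, nat_lit 0, [nat_lit 4688000000, nat_lit 6250000000, nat_lit 11872000000], [], [nat_lit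 14557538752, nat_lit 16270085216, nat_lit 14433087936, nat_lit 16702526208, nat_lit 9835944384, nat_lit 11583682336, nat_lit 10456859616, nat_lit 11981196880], nat_lit 0, nat_lit 0, nat_lit 0, nat_lit 0, nat_lit 0, nat_lit 0, [], [nat_lit 48, nat_lit 40, nat_lit 20, nat_lit 80, nat_lit 12, nat_lit 373, nat_lit 150, nat_lit 10]⟩,
 zbF0, []⟩
noncomputable def p033_l111 : Lf2 := ⟨nat_lit 0, nat_lit 10, [nat_lit 0, nat_lit 5, nat_lit 5, nat_lit 20], false, nat_lit 80, nat_lit 160, nat_lit 0, nat_lit 160, ⟨nat_lit 1000, nat_lit 0, nat_lit 0, nat_lit 0, nat_lit 0, nat_lit 0, nat_lit 0, nat_lit 0, nat_lit 0, nat_lit 0, nat_lit 0, nat_lit 0, nat_lit 0, nat_lit 0, nat_lit 0, nat_lit 0, false, false⟩,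
 nat_lit 0, nat_lit 12752, nat_lit 0, nat_lit 0, nat_lit 7422, nat_lit 8305, nat_lit 1473, nat_lit 0, nat_lit 0, nat_lit 3117, nat_lit 0, nat_lit 0, nat_lit 0, nat_lit 52243013824425, nat_lit 0, nat_lit 0, nat_lit 0, nat_lit 0, [],
 ⟨p033_k25, nat_lit 0, nat_lit 0, nat_lit 589, nat_lit 0, nat_lit 896947, [nat_lit 4688000000, nat_lit 6250000000, nat_lit 9842000000], [], [nat_lit 29314323167, nat_lit 27381716009, nat_lit 24477612456, nat_lit 24730639264, nat_lit 24477612456, nat_lit 24730639264, nat_lit 30640569175, nat_lit 28915317853], nat_lit 1271250, nat_lit 1271250, nat_lit 490000, nat_lit 1100001, nat_lit 490000, nat_lit 1100001, [nat_lit 1100000, nat_lit 1442500, nat_lit 1271250], [nat_lit 11, nat_lit 40, nat_lit 20, nat_lit 80, nat_lit 1, nat_lit 373, nat_lit 150, nat_lit 11]⟩, ⟨p033_k25, nat_lit 0, nat_lit 0, nat_lit 166, nat_lit 0, nat_lit 0, [nat_lit 4688000000, nat_lit 6250000000, nat_lit 9842000000], [],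 [nat_lit 15152798085, nat_lit 16105383780, nat_lit 14860387365, nat_lit 16039393165, nat_lit 10589366635, nat_lit 11417309295, nat_lit 11104885925, nat_lit 11828857670], nat_lit 0, nat_lit 0, nat_lit 0, nat_lit 0, nat_lit 0, nat_lit 0, [], [nat_lit 11, nat_lit 40, nat_lit 20, nat_lit 80, nat_lit 1, nat_lit 373, nat_lit 150, nat_lit 11]⟩,
 zbF0, []⟩
noncomputable def p033_l112 : Lf2 := ⟨nat_lit 0, nat_lit 10, [nat_lit 0, nat_lit 5, nat_lit 5, nat_lit 20], false, nat_lit 80, nat_lit 160, nat_lit 0, nat_lit 160, ⟨nat_lit 1000, nat_lit 0, nat_lit 0, nat_lit 0, nat_lit 0, nat_lit 0, nat_lit 0, nat_lit 0, nat_lit 0, nat_lit 0, nat_lit 0, nat_lit 0, nat_lit 0, nat_lit 0, nat_lit 0, nat_lit 0, false, false⟩,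
 nat_lit 0, nat_lit 12726, nat_lit 0, nat_lit 0, nat_lit 7750, nat_lit 8099, nat_lit 1587, nat_lit 0, nat_lit 0, nat_lit 3002, nat_lit 0, nat_lit 0, nat_lit 0, nat_lit 51445796578321, nat_lit 0, nat_lit 0, nat_lit 0, nat_lit 0, [],
 ⟨p033_k28, nat_lit 0, nat_lit 0, nat_lit 644, nat_lit 0, nat_lit 1038891, [nat_lit 4688000000, nat_lit 6250000000, nat_lit 9842000000], [], [nat_lit 26519498125, nat_lit 24501483375, nat_lit 21578959875, nat_lit 21847522875, nat_lit 21578959875, nat_lit 21847522875, nat_lit 27624896625, nat_lit 25823401375], nat_lit 1271250, nat_lit 1271250, nat_lit 490000, nat_lit 1100001, nat_lit 490000, nat_lit 1100001, [nat_lit 1100000, nat_lit 1442500, nat_lit 1271250], [nat_lit 11, nat_lit 40, nat_lit 20, nat_lit 80, nat_lit 1, nat_lit 373, nat_lit 150, nat_lit 11]⟩, ⟨p033_k25, nat_lit 0, nat_lit 0, nat_lit 173, nat_lit 0, nat_lit 0, [nat_lit 4688000000, nat_lit 6250000000, nat_lit 9842000000],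 [], [nat_lit 15566466228, nat_lit 17441726830, nat_lit 15328831732, nat_lit 17274312088, nat_lit 11124589818, nat_lit 12755008594, nat_lit 11672826440, nat_lit 13099589422], nat_lit 0, nat_lit 0, nat_lit 0, nat_lit 0, nat_lit 0, nat_lit 0, [], [nat_lit 11, nat_lit 40, nat_lit 20, nat_lit 80, nat_lit 1, nat_lit 373, nat_lit 150, nat_lit 11]⟩,
 zbF0, []⟩
noncomputable def p033_l113 : Lf2 := ⟨nat_lit 0, nat_lit 10, [nat_lit 0, nat_lit 5, nat_lit 5, nat_lit 20], false, nat_lit 160, nat_lit 268, nat_lit 0, nat_lit 160, ⟨nat_lit 1000, nat_lit 0, nat_lit 0, nat_lit 0, nat_lit 0, nat_lit 0, nat_lit 0, nat_lit 0, nat_lit 0, nat_lit 0, nat_lit 0, nat_lit 0, nat_lit 0, nat_lit 0, nat_lit 0, nat_lit 0, false, false⟩,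
 nat_lit 0, nat_lit 14577, nat_lit 0, nat_lit 0, nat_lit 8485, nat_lit 8934, nat_lit 1469, nat_lit 0, nat_lit 0, nat_lit 3773, nat_lit 0, nat_lit 0, nat_lit 0, nat_lit 27631553704332, nat_lit 0, nat_lit 0, nat_lit 0, nat_lit 0, [],
 ⟨p033_k25, nat_lit 0, nat_lit 0, nat_lit 482, nat_lit 0, nat_lit 795000, [nat_lit 4688000000, nat_lit 6250000000, nat_lit 9842000000], [], [nat_lit 20142210750, nat_lit 19053886468, nat_lit 18024333345, nat_lit 18180646755, nat_lit 21368870012, nat_lit 21259337907, nat_lit 28227831466, nat_lit 27224028602], nat_lit 1271250, nat_lit 1271250, nat_lit 490000, nat_lit 1100001, nat_lit 1100001, nat_lit 2024750, [nat_lit 1100000, nat_lit 1442500, nat_lit 1271250], [nat_lit 11, nat_lit 40, nat_lit 20, nat_lit 80, nat_lit 1, nat_lit 401, nat_lit 175, nat_lit 11]⟩, ⟨p033_k21, nat_lit 0, nat_lit 0, nat_lit 214, nat_lit 0, nat_lit 0, [nat_lit 4688000000, nat_lit 6250000000, nat_lit 11872000000],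 [], [nat_lit 14824392091, nat_lit 16948211248, nat_lit 14561274128, nat_lit 17325207183, nat_lit 10093526472, nat_lit 12260582492, nat_lit 10730175528, nat_lit 12620945543], nat_lit 0, nat_lit 0, nat_lit 0, nat_lit 0, nat_lit 0, nat_lit 0, [], [nat_lit 48, nat_lit 40, nat_lit 20, nat_lit 80, nat_lit 12, nat_lit 373, nat_lit 150, nat_lit 10]⟩,
 zbF0, [⟨nat_lit 4, nat_lit 100, nat_lit 98, nat_lit 54, nat_lit 593268107⟩]⟩
noncomputable def p033_l114 : Lf2 := ⟨nat_lit 0, nat_lit 10, [nat_lit 0, nat_lit 5, nat_lit 5, nat_lit 20], false, nat_lit 160, nat_lit 264, nat_lit 0, nat_lit 160, ⟨nat_lit 1000, nat_lit 0, nat_lit 0, nat_lit 0, nat_lit 0, nat_lit 0, nat_lit 0, nat_lit 0, nat_lit 0, nat_lit 0, nat_lit 0, nat_lit 0, nat_lit 0, nat_lit 0, nat_lit 0, nat_lit 0, false, false⟩,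
 nat_lit 0, nat_lit 14498, nat_lit 0, nat_lit 0, nat_lit 8633, nat_lit 8821, nat_lit 1509, nat_lit 0, nat_lit 0, nat_lit 3707, nat_lit 0, nat_lit 0, nat_lit 0, nat_lit 38937563667905, nat_lit 0, nat_lit 0, nat_lit 0, nat_lit 0, [],
 ⟨p033_k31, nat_lit 0, nat_lit 0, nat_lit 511, nat_lit 0, nat_lit 868528, [nat_lit 4688000000, nat_lit 6250000000, nat_lit 9842000000], [], [nat_lit 18873842322, nat_lit 17768319920, nat_lit 16698655147, nat_lit 16821363303, nat_lit 20439368713, nat_lit 20749642961, nat_lit 26222194994, nat_lit 25199503483], nat_lit 1271250, nat_lit 1271250, nat_lit 490000, nat_lit 1100001, nat_lit 1100001, nat_lit 1990500, [nat_lit 1100000, nat_lit 1442500, nat_lit 1271250], [nat_lit 11, nat_lit 40, nat_lit 20, nat_lit 80, nat_lit 1, nat_lit 401, nat_lit 175, nat_lit 11]⟩, ⟨p033_k21, nat_lit 0, nat_lit 0, nat_lit 216, nat_lit 0, nat_lit 0, [nat_lit 4688000000, nat_lit 6250000000, nat_lit 11872000000],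 [], [nat_lit 15086929529, nat_lit 17614717592, nat_lit 14742255832, nat_lit 17937714863, nat_lit 10348849068, nat_lit 12928362024, nat_lit 11001093932, nat_lit 13252590299], nat_lit 0, nat_lit 0, nat_lit 0, nat_lit 0, nat_lit 0, nat_lit 0, [], [nat_lit 48, nat_lit 40, nat_lit 20, nat_lit 80, nat_lit 12, nat_lit 373, nat_lit 150, nat_lit 10]⟩,
 zbF0, [⟨nat_lit 16, nat_lit 96, nat_lit 100, nat_lit 54, nat_lit 683398451⟩]⟩
noncomputable def p033_l115 : Lf2 := ⟨nat_lit 0, nat_lit 10, [nat_lit 0, nat_lit 5, nat_lit 5, nat_lit 20], false, nat_lit 160, nat_lit 260, nat_lit 0, nat_lit 160, ⟨nat_lit 1000, nat_lit 0, nat_lit 0, nat_lit 0, nat_lit 0, nat_lit 0, nat_lit 0, nat_lit 0, nat_lit 0, nat_lit 0, nat_lit 0, nat_lit 0, nat_lit 0, nat_lit 0, nat_lit 0, nat_lit 0, false, false⟩,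
 nat_lit 0, nat_lit 14287, nat_lit 0, nat_lit 0, nat_lit 8701, nat_lit 8320, nat_lit 1568, nat_lit 0, nat_lit 0, nat_lit 3425, nat_lit 0, nat_lit 0, nat_lit 0, nat_lit 0, nat_lit 0, nat_lit 0, nat_lit 0, nat_lit 0, [],
 ⟨p033_k28, nat_lit 0, nat_lit 0, nat_lit 498, nat_lit 0, nat_lit 835775, [nat_lit 4688000000, nat_lit 6250000000, nat_lit 9842000000], [], [nat_lit 17675089921, nat_lit 16266516808, nat_lit 15135753327, nat_lit 15856792896, nat_lit 19891579908, nat_lit 20523141813, nat_lit 24220499877, nat_lit 22156224606], nat_lit 1271250, nat_lit 1271250, nat_lit 490000, nat_lit 1100001, nat_lit 1100001, nat_lit 1956250, [nat_lit 1100000, nat_lit 1442500, nat_lit 1271250], [nat_lit 11, nat_lit 40, nat_lit 20, nat_lit 80, nat_lit 1, nat_lit 401, nat_lit 175, nat_lit 11]⟩, ⟨p033_k21, nat_lit 0, nat_lit 0, nat_lit 212, nat_lit 0, nat_lit 0, [nat_lit 4688000000, nat_lit 6250000000, nat_lit 11872000000], [], [nat_lit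 16200049055, nat_lit 17826859295, nat_lit 15548726975, nat_lit 17318532080, nat_lit 11480854560, nat_lit 13138594240, nat_lit 12202245440, nat_lit 13651731200], nat_lit 0, nat_lit 0, nat_lit 0, nat_lit 0, nat_lit 0, nat_lit 0, [], [nat_lit 48, nat_lit 40, nat_lit 20, nat_lit 80, nat_lit 12, nat_lit 373, nat_lit 150, nat_lit 10]⟩,
 zbF0, [⟨nat_lit 4, nat_lit 100, nat_lit 94, nat_lit 53, nat_lit 848559935⟩]⟩
noncomputable def p033_l116 : Lf2 := ⟨nat_lit 0, nat_lit 10, [nat_lit 0, nat_lit 5, nat_lit 5, nat_lit 20], false, nat_lit 160, nat_lit 260, nat_lit 0, nat_lit 160, ⟨nat_lit 1000, nat_lit 0, nat_lit 0, nat_lit 0, nat_lit 0, nat_lit 0, nat_lit 0, nat_lit 0, nat_lit 0, nat_lit 0, nat_lit 0, nat_lit 0, nat_lit 0, nat_lit 0, nat_lit 0, nat_lit 0, false, false⟩,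
 nat_lit 0, nat_lit 14086, nat_lit 0, nat_lit 0, nat_lit 8578, nat_lit 8099, nat_lit 2117, nat_lit 0, nat_lit 0, nat_lit 3002, nat_lit 0, nat_lit 0, nat_lit 0, nat_lit 57149190693106, nat_lit 0, nat_lit 0, nat_lit 0, nat_lit 0, [],
 ⟨p033_k28, nat_lit 0, nat_lit 0, nat_lit 611, nat_lit 0, nat_lit 1038891, [nat_lit 4688000000, nat_lit 6250000000, nat_lit 9842000000], [], [nat_lit 17840497738, nat_lit 15656214360, nat_lit 15017161714, nat_lit 15435473264, nat_lit 17829840525, nat_lit 18203062252, nat_lit 23681886337, nat_lit 21646792293], nat_lit 1271250, nat_lit 1271250, nat_lit 490000, nat_lit 1100001, nat_lit 1100001, nat_lit 1956250, [nat_lit 1100000, nat_lit 1442500, nat_lit 1271250], [nat_lit 11, nat_lit 40, nat_lit 20, nat_lit 80, nat_lit 1, nat_lit 401, nat_lit 175, nat_lit 11]⟩, ⟨p033_k25, nat_lit 0, nat_lit 0, nat_lit 173, nat_lit 0, nat_lit 0, [nat_lit 4688000000, nat_lit 6250000000, nat_lit 9842000000],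 [], [nat_lit 15566466228, nat_lit 17441726830, nat_lit 15328831732, nat_lit 17274312088, nat_lit 11124589818, nat_lit 12755008594, nat_lit 11672826440, nat_lit 13099589422], nat_lit 0, nat_lit 0, nat_lit 0, nat_lit 0, nat_lit 0, nat_lit 0, [], [nat_lit 11, nat_lit 40, nat_lit 20, nat_lit 80, nat_lit 1, nat_lit 373, nat_lit 150, nat_lit 11]⟩,
 zbF0, [⟨nat_lit 4, nat_lit 100, nat_lit 94, nat_lit 53, nat_lit 676873508⟩]⟩
noncomputable def p033_l117 : Lf2 := ⟨nat_lit 0, nat_lit 10, [nat_lit 0, nat_lit 5, nat_lit 5, nat_lit 20], false, nat_lit 0, nat_lit 160, nat_lit 160, nat_lit 288, ⟨nat_lit 1000, nat_lit 0, nat_lit 0, nat_lit 0, nat_lit 0, nat_lit 0, nat_lit 0, nat_lit 0, nat_lit 0, nat_lit 0, nat_lit 0, nat_lit 0, nat_lit 0, nat_lit 0, nat_lit 0, nat_lit 0, false, false⟩,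
 nat_lit 0, nat_lit 9817, nat_lit 0, nat_lit 0, nat_lit 5714, nat_lit 8662, nat_lit 2432, nat_lit 0, nat_lit 0, nat_lit 0, nat_lit 0, nat_lit 0, nat_lit 0, nat_lit 0, nat_lit 0, nat_lit 0, nat_lit 0, nat_lit 0, [],
 ⟨p033_k30, nat_lit 0, nat_lit 0, nat_lit 613, nat_lit 0, nat_lit 795000, [nat_lit 4688000000, nat_lit 7968000001, nat_lit 9842000000], [], [nat_lit 34329224829, nat_lit 33573922596, nat_lit 31378286079, nat_lit 31508759158, nat_lit 30100959357, nat_lit 29518626383, nat_lit 35856351865, nat_lit 35200996063], nat_lit 1271250, nat_lit 1271250, nat_lit 490000, nat_lit 1100001, nat_lit 0, nat_lit 1100001, [nat_lit 1100000, nat_lit 1785000, nat_lit 1271250], [nat_lit 29, nat_lit 40, nat_lit 20, nat_lit 80, nat_lit 17, nat_lit 373, nat_lit 150, nat_lit 11]⟩, ⟨p033_k9, nat_lit 0, nat_lit 0, nat_lit 42, nat_lit 0, nat_lit 0, [nat_lit 4688000000, nat_lit 7968000000, nat_lit 11872000000], [], [nat_lit 5601182600,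 nat_lit 8442596995, nat_lit 6768221776, nat_lit 9257967636, nat_lit 17063943842, nat_lit 19432731284, nat_lit 16758946668, nat_lit 18853428126], nat_lit 0, nat_lit 0, nat_lit 0, nat_lit 0, nat_lit 0, nat_lit 0, [], [nat_lit 21, nat_lit 40, nat_lit 20, nat_lit 80, nat_lit 14, nat_lit 428, nat_lit 200, nat_lit 11]⟩,
 zbF0, [⟨nat_lit 7, nat_lit 99, nat_lit 100, nat_lit 55, nat_lit 1174667028⟩]⟩
noncomputable def p033_l118 : Lf2 := ⟨nat_lit 0, nat_lit 10, [nat_lit 0, nat_lit 5, nat_lit 5, nat_lit 20], false, nat_lit 0, nat_lit 160, nat_lit 160, nat_lit 288, ⟨nat_lit 1000, nat_lit 0, nat_lit 0, nat_lit 0, nat_lit 0, nat_lit 0, nat_lit 0, nat_lit 0, nat_lit 0, nat_lit 0, nat_lit 0, nat_lit 0, nat_lit 0, nat_lit 0, nat_lit 0, nat_lit 0, false, false⟩,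
 nat_lit 0, nat_lit 10582, nat_lit 0, nat_lit 0, nat_lit 6301, nat_lit 8543, nat_lit 3136, nat_lit 0, nat_lit 0, nat_lit 0, nat_lit 0, nat_lit 0, nat_lit 0, nat_lit 0, nat_lit 0, nat_lit 0, nat_lit 0, nat_lit 0, [],
 ⟨p033_k32, nat_lit 0, nat_lit 0, nat_lit 644, nat_lit 0, nat_lit 868528, [nat_lit 4688000000, nat_lit 7968000001, nat_lit 9842000000], [], [nat_lit 31586055169, nat_lit 30753160634, nat_lit 28049048961, nat_lit 28204096981, nat_lit 26078006948, nat_lit 26221331940, nat_lit 32086596684, nat_lit 31363916091], nat_lit 1271250, nat_lit 1271250, nat_lit 490000, nat_lit 1100001, nat_lit 0, nat_lit 1100001, [nat_lit 1100000, nat_lit 1785000, nat_lit 1271250], [nat_lit 29, nat_lit 40, nat_lit 20, nat_lit 80, nat_lit 17, nat_lit 373, nat_lit 150, nat_lit 11]⟩, ⟨p033_k9, nat_lit 0, nat_lit 0, nat_lit 45, nat_lit 0, nat_lit 0, [nat_lit 4688000000, nat_lit 7968000000, nat_lit 11872000000], [], [nat_lit 5790832900,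 nat_lit 9168611161, nat_lit 6970159064, nat_lit 9930824912, nat_lit 17043669003, nat_lit 19861410859, nat_lit 16769432281, nat_lit 19261745746], nat_lit 0, nat_lit 0, nat_lit 0, nat_lit 0, nat_lit 0, nat_lit 0, [], [nat_lit 21, nat_lit 40, nat_lit 20, nat_lit 80, nat_lit 14, nat_lit 428, nat_lit 200, nat_lit 11]⟩,
 zbF0, [⟨nat_lit 19, nat_lit 100, nat_lit 100, nat_lit 55, nat_lit 1153449309⟩]⟩
noncomputable def p033_l119 : Lf2 := ⟨nat_lit 0, nat_lit 10, [nat_lit 0, nat_lit 5, nat_lit 5, nat_lit 20], false, nat_lit 0, nat_lit 160, nat_lit 160, nat_lit 240, ⟨nat_lit 1000, nat_lit 0, nat_lit 0, nat_lit 0, nat_lit 0, nat_lit 0, nat_lit 0, nat_lit 0, nat_lit 0, nat_lit 0, nat_lit 0, nat_lit 0, nat_lit 0, nat_lit 0, nat_lit 0, nat_lit 0, false, false⟩,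
 nat_lit 0, nat_lit 14821, nat_lit 0, nat_lit 0, nat_lit 9026, nat_lit 45812, nat_lit 4595, nat_lit 0, nat_lit 0, nat_lit 0, nat_lit 0, nat_lit 0, nat_lit 0, nat_lit 61617122087158, nat_lit 0, nat_lit 0, nat_lit 0, nat_lit 24493888272, [],
 ⟨p033_k27, nat_lit 0, nat_lit 0, nat_lit 725, nat_lit 0, nat_lit 1038891, [nat_lit 4688000000, nat_lit 9842000000], [], [nat_lit 21926036746, nat_lit 19610605992, nat_lit 17704130738, nat_lit 18132063088, nat_lit 17019568070, nat_lit 14923309512, nat_lit 24972625792, nat_lit 22929103288], nat_lit 1271250, nat_lit 1271250, nat_lit 490000, nat_lit 1100001, nat_lit 0, nat_lit 1100001, [nat_lit 1100000, nat_lit 2127500], [nat_lit 70, nat_lit 40, nat_lit 20, nat_lit 80, nat_lit 13, nat_lit 373, nat_lit 150, nat_lit 11]⟩, ⟨p033_k33, nat_lit 0, nat_lit 0, nat_lit 5, nat_lit 0, nat_lit 0, [nat_lit 4688000000, nat_lit 11872000000], [], [nat_lit 3585657296, nat_lit 25602971808, nat_lit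 0, nat_lit 19043737872, nat_lit 25176055344, nat_lit 42530441760, nat_lit 18375149600, nat_lit 33303186304], nat_lit 0, nat_lit 0, nat_lit 0, nat_lit 0, nat_lit 0, nat_lit 0, [], [nat_lit 116, nat_lit 40, nat_lit 20, nat_lit 80, nat_lit 65, nat_lit 401, nat_lit 175, nat_lit 10]⟩,
 zbF0, [⟨nat_lit 7, nat_lit 100, nat_lit 98, nat_lit 54, nat_lit 2386580582⟩]⟩
noncomputable def p033_l120 : Lf2 := ⟨nat_lit 0, nat_lit 10, [nat_lit 0, nat_lit 5, nat_lit 5, nat_lit 20], false, nat_lit 0, nat_lit 160, nat_lit 240, nat_lit 288, ⟨nat_lit 1000, nat_lit 0, nat_lit 0, nat_lit 0, nat_lit 0, nat_lit 0, nat_lit 0, nat_lit 0, nat_lit 0, nat_lit 0, nat_lit 0, nat_lit 0, nat_lit 0, nat_lit 0, nat_lit 0, nat_lit 0, false, false⟩,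
 nat_lit 0, nat_lit 14809, nat_lit 0, nat_lit 0, nat_lit 9018, nat_lit 15513, nat_lit 4588, nat_lit 0, nat_lit 0, nat_lit 0, nat_lit 0, nat_lit 0, nat_lit 0, nat_lit 0, nat_lit 0, nat_lit 0, nat_lit 0, nat_lit 0, [],
 ⟨p033_k27, nat_lit 0, nat_lit 0, nat_lit 725, nat_lit 0, nat_lit 1038891, [nat_lit 4688000000, nat_lit 9842000000], [], [nat_lit 21936794978, nat_lit 19623416456, nat_lit 17739863434, nat_lit 18167623984, nat_lit 17056205510, nat_lit 14962763816, nat_lit 25004376856, nat_lit 22962665584], nat_lit 1271250, nat_lit 1271250, nat_lit 490000, nat_lit 1100001, nat_lit 0, nat_lit 1100001, [nat_lit 1100000, nat_lit 2127500], [nat_lit 70, nat_lit 40, nat_lit 20, nat_lit 80, nat_lit 13, nat_lit 373, nat_lit 150, nat_lit 11]⟩, ⟨p033_k33, nat_lit 0, nat_lit 0, nat_lit 32, nat_lit 0, nat_lit 0, [nat_lit 4688000000, nat_lit 11872000000], [], [nat_lit 9352044128, nat_lit 16202736812, nat_lit 8399208972, nat_lit 14371103668,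 nat_lit 18231195299, nat_lit 23925186472, nat_lit 16155274913, nat_lit 21123379901], nat_lit 0, nat_lit 0, nat_lit 0, nat_lit 0, nat_lit 0, nat_lit 0, [], [nat_lit 116, nat_lit 40, nat_lit 20, nat_lit 80, nat_lit 65, nat_lit 428, nat_lit 200, nat_lit 10]⟩,
 zbF0, [⟨nat_lit 7, nat_lit 100, nat_lit 98, nat_lit 54, nat_lit 2384499561⟩]⟩
noncomputable def p033_l121 : Lf2 := ⟨nat_lit 3, nat_lit 10, [nat_lit 0, nat_lit 5, nat_lit 5, nat_lit 20], false, nat_lit 160, nat_lit 268, nat_lit 160, nat_lit 240, zbN0,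
 nat_lit 0, nat_lit 0, nat_lit 0, nat_lit 0, nat_lit 0, nat_lit 0, nat_lit 0, nat_lit 0, nat_lit 0, nat_lit 0, nat_lit 0, nat_lit 0, nat_lit 0, nat_lit 0, nat_lit 0, nat_lit 0, nat_lit 0, nat_lit 0, [],
 C1.Rw.none, ⟨p033_k21, nat_lit 0, nat_lit 0, nat_lit 1, nat_lit 0, nat_lit 0, [], [], [], nat_lit 0, nat_lit 0, nat_lit 0, nat_lit 0, nat_lit 0, nat_lit 0, [], [nat_lit 48, nat_lit 40, nat_lit 20, nat_lit 80, nat_lit 12, nat_lit 401, nat_lit 175, nat_lit 10]⟩,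
 zbF0, []⟩
noncomputable def p033_l122 : Lf2 := ⟨nat_lit 0, nat_lit 10, [nat_lit 0, nat_lit 5, nat_lit 5, nat_lit 20], false, nat_lit 160, nat_lit 268, nat_lit 240, nat_lit 288, ⟨nat_lit 1000, nat_lit 0, nat_lit 0, nat_lit 0, nat_lit 0, nat_lit 0, nat_lit 0, nat_lit 0, nat_lit 0, nat_lit 0, nat_lit 0, nat_lit 0, nat_lit 0, nat_lit 0, nat_lit 0, nat_lit 0, false, false⟩,
 nat_lit 0, nat_lit 14908, nat_lit 0, nat_lit 0, nat_lit 8677, nat_lit 15479, nat_lit 2994, nat_lit 0, nat_lit 0, nat_lit 0, nat_lit 0, nat_lit 0, nat_lit 0, nat_lit 23737244338377, nat_lit 0, nat_lit 0, nat_lit 0, nat_lit 0, [],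
 ⟨p033_k25, nat_lit 0, nat_lit 0, nat_lit 532, nat_lit 0, nat_lit 896947, [nat_lit 4688000000, nat_lit 6250000000, nat_lit 9842000000], [], [nat_lit 19933266750, nat_lit 17707364617, nat_lit 14154532026, nat_lit 14574969601, nat_lit 19840174760, nat_lit 17732102876, nat_lit 26799129123, nat_lit 24746094956], nat_lit 1271250, nat_lit 1271250, nat_lit 490000, nat_lit 1100001, nat_lit 1100001, nat_lit 2024750, [nat_lit 1100000, nat_lit 1442500, nat_lit 1271250], [nat_lit 11, nat_lit 40, nat_lit 20, nat_lit 80, nat_lit 1, nat_lit 401, nat_lit 175, nat_lit 11]⟩, ⟨p033_k21, nat_lit 0, nat_lit 0, nat_lit 35, nat_lit 0, nat_lit 0, [nat_lit 4688000000, nat_lit 6250000000, nat_lit 11872000000], [], [nat_lit 9361773024, nat_lit 14490952503, nat_lit 8415500276, nat_lit 12886883702, nat_lit 18225402488, nat_lit 22488809275, nat_lit 16158270803, nat_lit 19878331176], nat_lit 0, nat_lit 0, nat_lit 0, nat_lit 0, nat_lit 0, nat_lit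 0, [], [nat_lit 48, nat_lit 40, nat_lit 20, nat_lit 80, nat_lit 12, nat_lit 428, nat_lit 200, nat_lit 10]⟩,
 zbF0, [⟨nat_lit 16, nat_lit 97, nat_lit 100, nat_lit 54, nat_lit 406319235⟩, ⟨nat_lit 19, nat_lit 100, nat_lit 100, nat_lit 55, nat_lit 1944225936⟩]⟩
noncomputable def p033_l123 : Lf2 := ⟨nat_lit 0, nat_lit 5, [nat_lit 4, nat_lit 5, nat_lit 5, nat_lit 20], false, nat_lit 160, nat_lit 260, nat_lit 160, nat_lit 240, ⟨nat_lit 1000, nat_lit 0, nat_lit 0, nat_lit 0, nat_lit 0, nat_lit 0, nat_lit 0, nat_lit 0, nat_lit 0, nat_lit 0, nat_lit 0, nat_lit 0, nat_lit 0, nat_lit 0, nat_lit 0, nat_lit 0, false, false⟩,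
 nat_lit 0, nat_lit 14330, nat_lit 0, nat_lit 0, nat_lit 8727, nat_lit 27149, nat_lit 2946, nat_lit 0, nat_lit 0, nat_lit 0, nat_lit 0, nat_lit 0, nat_lit 0, nat_lit 52753974237260, nat_lit 0, nat_lit 0, nat_lit 0, nat_lit 9116397444, [],
 ⟨p033_k34, nat_lit 0, nat_lit 0, nat_lit 481, nat_lit 0, nat_lit 906853, [nat_lit 4688000000, nat_lit 7968000000], [], [nat_lit 17640125667, nat_lit 16520761376, nat_lit 14351640251, nat_lit 14562395914, nat_lit 18437130840, nat_lit 17389427298, nat_lit 25662495839, nat_lit 24641224118], nat_lit 1271250, nat_lit 1271250, nat_lit 490000, nat_lit 1100001, nat_lit 1100001, nat_lit 1956250, [nat_lit 1100000, nat_lit 1785000], [nat_lit 39, nat_lit 40, nat_lit 20, nat_lit 80, nat_lit 7, nat_lit 345, nat_lit 125, nat_lit 11]⟩, ⟨p033_k6, nat_lit 0, nat_lit 0, nat_lit 3, nat_lit 0, nat_lit 0, [nat_lit 4688000000, nat_lit 7968000000, nat_lit 9842000000], [], [nat_lit 1235836292, nat_lit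 13226307726, nat_lit 0, nat_lit 10412817314, nat_lit 15138869988, nat_lit 24662826329, nat_lit 11940147200, nat_lit 20175125007], nat_lit 0, nat_lit 0, nat_lit 0, nat_lit 0, nat_lit 0, nat_lit 0, [], [nat_lit 29, nat_lit 40, nat_lit 20, nat_lit 80, nat_lit 17, nat_lit 401, nat_lit 175, nat_lit 11]⟩,
 zbF0, [⟨nat_lit 4, nat_lit 100, nat_lit 95, nat_lit 54, nat_lit 493630224⟩, ⟨nat_lit 7, nat_lit 100, nat_lit 99, nat_lit 55, nat_lit 1689249546⟩]⟩
noncomputable def p033_l124 : Lf2 := ⟨nat_lit 0, nat_lit 5, [nat_lit 4, nat_lit 5, nat_lit 5, nat_lit 20], false, nat_lit 160, nat_lit 252, nat_lit 160, nat_lit 240, ⟨nat_lit 1000, nat_lit 0, nat_lit 0, nat_lit 0, nat_lit 0, nat_lit 0, nat_lit 0, nat_lit 0, nat_lit 0, nat_lit 0, nat_lit 0, nat_lit 0, nat_lit 0, nat_lit 0, nat_lit 0, nat_lit 0, false, false⟩,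
 nat_lit 0, nat_lit 14142, nat_lit 0, nat_lit 0, nat_lit 8805, nat_lit 24960, nat_lit 2099, nat_lit 0, nat_lit 0, nat_lit 0, nat_lit 0, nat_lit 0, nat_lit 0, nat_lit 15096248011765, nat_lit 0, nat_lit 0, nat_lit 0, nat_lit 7312757760, [],
 ⟨p033_k35, nat_lit 0, nat_lit 0, nat_lit 492, nat_lit 0, nat_lit 935335, [nat_lit 4688000000, nat_lit 7968000000], [], [nat_lit 16405863983, nat_lit 15728242629, nat_lit 14214839653, nat_lit 14341795565, nat_lit 17498300306, nat_lit 16861190053, nat_lit 24750421051, nat_lit 24130539057], nat_lit 1271250, nat_lit 1271250, nat_lit 490000, nat_lit 1100001, nat_lit 1100001, nat_lit 1887750, [nat_lit 1100000, nat_lit 1785000], [nat_lit 39, nat_lit 40, nat_lit 20, nat_lit 80, nat_lit 7, nat_lit 345, nat_lit 125, nat_lit 11]⟩, ⟨p033_k36, nat_lit 0, nat_lit 0, nat_lit 4, nat_lit 0, nat_lit 0, [nat_lit 4688000000, nat_lit 9842000000], [], [nat_lit 960223680, nat_lit 13052060192, nat_lit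 0, nat_lit 10509384272, nat_lit 13961599520, nat_lit 23580981537, nat_lit 11185380000, nat_lit 19511514704], nat_lit 0, nat_lit 0, nat_lit 0, nat_lit 0, nat_lit 0, nat_lit 0, [], [nat_lit 70, nat_lit 40, nat_lit 20, nat_lit 80, nat_lit 13, nat_lit 401, nat_lit 175, nat_lit 11]⟩,
 zbF0, [⟨nat_lit 4, nat_lit 100, nat_lit 94, nat_lit 53, nat_lit 540792556⟩, ⟨nat_lit 7, nat_lit 100, nat_lit 99, nat_lit 54, nat_lit 1614415411⟩]⟩
noncomputable def p033_l125 : Lf2 := ⟨nat_lit 0, nat_lit 5, [nat_lit 4, nat_lit 5, nat_lit 5, nat_lit 20], false, nat_lit 160, nat_lit 252, nat_lit 160, nat_lit 240, ⟨nat_lit 1000, nat_lit 0, nat_lit 0, nat_lit 0, nat_lit 0, nat_lit 0, nat_lit 0, nat_lit 0, nat_lit 0, nat_lit 0, nat_lit 0, nat_lit 0, nat_lit 0, nat_lit 0, nat_lit 0, nat_lit 0, false, false⟩,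
 nat_lit 0, nat_lit 13607, nat_lit 0, nat_lit 0, nat_lit 8584, nat_lit 19868, nat_lit 4063, nat_lit 0, nat_lit 0, nat_lit 0, nat_lit 0, nat_lit 0, nat_lit 0, nat_lit 19527601464288, nat_lit 0, nat_lit 0, nat_lit 0, nat_lit 3117173808, [],
 ⟨p033_k37, nat_lit 0, nat_lit 0, nat_lit 500, nat_lit 0, nat_lit 955244, [nat_lit 4688000000, nat_lit 7968000000], [], [nat_lit 16070793116, nat_lit 15630754080, nat_lit 15325114512, nat_lit 15408802592, nat_lit 17792464608, nat_lit 17869008127, nat_lit 17653846976, nat_lit 17252308039], nat_lit 1271250, nat_lit 1271250, nat_lit 490000, nat_lit 1100001, nat_lit 1100001, nat_lit 1887750, [nat_lit 1100000, nat_lit 1785000], [nat_lit 39, nat_lit 40, nat_lit 20, nat_lit 80, nat_lit 7, nat_lit 345, nat_lit 125, nat_lit 11]⟩, ⟨p033_k36, nat_lit 0, nat_lit 0, nat_lit 5, nat_lit 0, nat_lit 0, [nat_lit 4688000000, nat_lit 9842000000], [], [nat_lit 319100144, nat_lit 10778985312, nat_lit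 0, nat_lit 9113516208, nat_lit 11223060816, nat_lit 19583492640, nat_lit 9429658400, nat_lit 16688856256], nat_lit 0, nat_lit 0, nat_lit 0, nat_lit 0, nat_lit 0, nat_lit 0, [], [nat_lit 70, nat_lit 40, nat_lit 20, nat_lit 80, nat_lit 13, nat_lit 401, nat_lit 175, nat_lit 11]⟩,
 zbF0, [⟨nat_lit 4, nat_lit 100, nat_lit 93, nat_lit 53, nat_lit 668633518⟩, ⟨nat_lit 19, nat_lit 98, nat_lit 100, nat_lit 54, nat_lit 1427234998⟩]⟩
noncomputable def p033_l126 : Lf2 := ⟨nat_lit 0, nat_lit 10, [nat_lit 0, nat_lit 5, nat_lit 5, nat_lit 20], false, nat_lit 160, nat_lit 260, nat_lit 160, nat_lit 240, ⟨nat_lit 1000, nat_lit 0, nat_lit 0, nat_lit 0, nat_lit 0, nat_lit 0, nat_lit 0, nat_lit 0, nat_lit 0, nat_lit 0, nat_lit 0, nat_lit 0, nat_lit 0, nat_lit 0, nat_lit 0, nat_lit 0, false, false⟩,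
 nat_lit 0, nat_lit 13038, nat_lit 0, nat_lit 0, nat_lit 7940, nat_lit 15906, nat_lit 2126, nat_lit 0, nat_lit 0, nat_lit 0, nat_lit 0, nat_lit 0, nat_lit 0, nat_lit 25271497592212, nat_lit 0, nat_lit 0, nat_lit 0, nat_lit 32407488, [],
 ⟨p033_k38, nat_lit 0, nat_lit 0, nat_lit 434, nat_lit 0, nat_lit 667475, [nat_lit 4688000000, nat_lit 7968000001, nat_lit 9842000000], [], [nat_lit 18698466740, nat_lit 16661626480, nat_lit 16477525861, nat_lit 16507048720, nat_lit 21503191801, nat_lit 19595378260, nat_lit 28297013416, nat_lit 26438666341], nat_lit 1271250, nat_lit 1271250, nat_lit 490000, nat_lit 1100001, nat_lit 1100001, nat_lit 1956250, [nat_lit 1100000, nat_lit 1785000, nat_lit 1271250], [nat_lit 29, nat_lit 40, nat_lit 20, nat_lit 80, nat_lit 17, nat_lit 401, nat_lit 175, nat_lit 11]⟩, ⟨p033_k9, nat_lit 0, nat_lit 0, nat_lit 9, nat_lit 0, nat_lit 0, [nat_lit 4688000000, nat_lit 7968000000, nat_lit 11872000000],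 [], [nat_lit 0, nat_lit 8694909256, nat_lit 179747352, nat_lit 7776784288, nat_lit 9271997024, nat_lit 16258930232, nat_lit 8243308152, nat_lit 14331370504], nat_lit 0, nat_lit 0, nat_lit 0, nat_lit 0, nat_lit 0, nat_lit 0, [], [nat_lit 21, nat_lit 40, nat_lit 20, nat_lit 80, nat_lit 14, nat_lit 401, nat_lit 175, nat_lit 10]⟩,
 zbF0, [⟨nat_lit 4, nat_lit 100, nat_lit 94, nat_lit 53, nat_lit 715615955⟩, ⟨nat_lit 19, nat_lit 98, nat_lit 100, nat_lit 54, nat_lit 1280731015⟩]⟩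
noncomputable def p033_l127 : Lf2 := ⟨nat_lit 0, nat_lit 5, [nat_lit 4, nat_lit 5, nat_lit 5, nat_lit 20], false, nat_lit 160, nat_lit 260, nat_lit 240, nat_lit 288, ⟨nat_lit 1000, nat_lit 0, nat_lit 0, nat_lit 0, nat_lit 0, nat_lit 0, nat_lit 0, nat_lit 0, nat_lit 0, nat_lit 0, nat_lit 0, nat_lit 0, nat_lit 0, nat_lit 0, nat_lit 0, nat_lit 0, false, false⟩,
 nat_lit 0, nat_lit 14330, nat_lit 0, nat_lit 0, nat_lit 8727, nat_lit 7701, nat_lit 2946, nat_lit 0, nat_lit 0, nat_lit 0, nat_lit 0, nat_lit 0, nat_lit 0, nat_lit 15595098975036, nat_lit 0, nat_lit 0, nat_lit 0, nat_lit 0, [],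
 ⟨p033_k34, nat_lit 0, nat_lit 0, nat_lit 481, nat_lit 0, nat_lit 906853, [nat_lit 4688000000, nat_lit 7968000000], [], [nat_lit 17640125667, nat_lit 16520761376, nat_lit 14351640251, nat_lit 14562395914, nat_lit 18437130840, nat_lit 17389427298, nat_lit 25662495839, nat_lit 24641224118], nat_lit 1271250, nat_lit 1271250, nat_lit 490000, nat_lit 1100001, nat_lit 1100001, nat_lit 1956250, [nat_lit 1100000, nat_lit 1785000], [nat_lit 39, nat_lit 40, nat_lit 20, nat_lit 80, nat_lit 7, nat_lit 345, nat_lit 125, nat_lit 11]⟩, ⟨p033_k36, nat_lit 0, nat_lit 0, nat_lit 30, nat_lit 0, nat_lit 0, [nat_lit 4688000000, nat_lit 9842000000], [], [nat_lit 12183614412, nat_lit 15212999134, nat_lit 12808801424, nat_lit 15472925471, nat_lit 16900211737, nat_lit 19982830285, nat_lit 16843624606, nat_lit 19577440039], nat_lit 0, nat_lit 0, nat_lit 0, nat_lit 0, nat_lit 0, nat_lit 0, [], [nat_lit 70, nat_lit 40, nat_lit 20, nat_lit 80,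 nat_lit 13, nat_lit 428, nat_lit 200, nat_lit 12]⟩,
 zbF0, [⟨nat_lit 4, nat_lit 100, nat_lit 95, nat_lit 54, nat_lit 493630224⟩, ⟨nat_lit 19, nat_lit 99, nat_lit 100, nat_lit 55, nat_lit 1689249546⟩]⟩
noncomputable def p033_l128 : Lf2 := ⟨nat_lit 0, nat_lit 5, [nat_lit 4, nat_lit 5, nat_lit 5, nat_lit 20], false, nat_lit 160, nat_lit 252, nat_lit 240, nat_lit 288, ⟨nat_lit 1000, nat_lit 0, nat_lit 0, nat_lit 0, nat_lit 0, nat_lit 0, nat_lit 0, nat_lit 0, nat_lit 0, nat_lit 0, nat_lit 0, nat_lit 0, nat_lit 0, nat_lit 0, nat_lit 0, nat_lit 0, false, false⟩,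
 nat_lit 0, nat_lit 14090, nat_lit 0, nat_lit 0, nat_lit 8773, nat_lit 7620, nat_lit 1898, nat_lit 0, nat_lit 0, nat_lit 0, nat_lit 0, nat_lit 0, nat_lit 0, nat_lit 15776890927453, nat_lit 0, nat_lit 0, nat_lit 0, nat_lit 0, [],
 ⟨p033_k35, nat_lit 0, nat_lit 0, nat_lit 506, nat_lit 0, nat_lit 972836, [nat_lit 4688000000, nat_lit 7968000000], [], [nat_lit 16453001375, nat_lit 15327736916, nat_lit 14357426837, nat_lit 14568676424, nat_lit 18130092108, nat_lit 17072456211, nat_lit 25364724183, nat_lit 24335342254], nat_lit 1271250, nat_lit 1271250, nat_lit 490000, nat_lit 1100001, nat_lit 1100001, nat_lit 1887750, [nat_lit 1100000, nat_lit 1785000], [nat_lit 39, nat_lit 40, nat_lit 20, nat_lit 80, nat_lit 7, nat_lit 345, nat_lit 125, nat_lit 11]⟩, ⟨p033_k36, nat_lit 0, nat_lit 0, nat_lit 32, nat_lit 0, nat_lit 0, [nat_lit 4688000000, nat_lit 9842000000], [], [nat_lit 12285835440, nat_lit 15725603600, nat_lit 12924742880,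 nat_lit 15950664400, nat_lit 16886411216, nat_lit 20386893489, nat_lit 16850761873, nat_lit 19956005200], nat_lit 0, nat_lit 0, nat_lit 0, nat_lit 0, nat_lit 0, nat_lit 0, [], [nat_lit 70, nat_lit 40, nat_lit 20, nat_lit 80, nat_lit 13, nat_lit 428, nat_lit 200, nat_lit 12]⟩,
 zbF0, [⟨nat_lit 16, nat_lit 96, nat_lit 100, nat_lit 62, nat_lit 506654537⟩, ⟨nat_lit 7, nat_lit 100, nat_lit 98, nat_lit 54, nat_lit 1657821396⟩]⟩
noncomputable def p033_l129 : Lf2 := ⟨nat_lit 0, nat_lit 10, [nat_lit 0, nat_lit 5, nat_lit 5, nat_lit 20], false, nat_lit 160, nat_lit 260, nat_lit 240, nat_lit 288, ⟨nat_lit 1000, nat_lit 0, nat_lit 0, nat_lit 0, nat_lit 0, nat_lit 0, nat_lit 0, nat_lit 0, nat_lit 0, nat_lit 0, nat_lit 0, nat_lit 0, nat_lit 0, nat_lit 0, nat_lit 0, nat_lit 0, false, false⟩,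
 nat_lit 0, nat_lit 14212, nat_lit 0, nat_lit 0, nat_lit 8655, nat_lit 7798, nat_lit 1777, nat_lit 0, nat_lit 0, nat_lit 0, nat_lit 0, nat_lit 0, nat_lit 0, nat_lit 15187063079675, nat_lit 0, nat_lit 0, nat_lit 0, nat_lit 0, [],
 ⟨p033_k38, nat_lit 0, nat_lit 0, nat_lit 434, nat_lit 0, nat_lit 667475, [nat_lit 4688000000, nat_lit 7968000001, nat_lit 9842000000], [], [nat_lit 17736949755, nat_lit 15657800522, nat_lit 16049381946, nat_lit 14936729202, nat_lit 21438912101, nat_lit 19357081676, nat_lit 28624796638, nat_lit 26599104706], nat_lit 1271250, nat_lit 1271250, nat_lit 490000, nat_lit 1100001, nat_lit 1100001, nat_lit 1956250, [nat_lit 1100000, nat_lit 1785000, nat_lit 1271250], [nat_lit 29, nat_lit 40, nat_lit 20, nat_lit 80, nat_lit 17, nat_lit 401, nat_lit 175, nat_lit 11]⟩, ⟨p033_k9, nat_lit 0, nat_lit 0, nat_lit 52, nat_lit 0, nat_lit 0, [nat_lit 4688000000, nat_lit 7968000000, nat_lit 11872000000], [],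 [nat_lit 12061201576, nat_lit 15735794152, nat_lit 12669957952, nat_lit 15787299928, nat_lit 16916738287, nat_lit 20466687756, nat_lit 16835077509, nat_lit 19982331400], nat_lit 0, nat_lit 0, nat_lit 0, nat_lit 0, nat_lit 0, nat_lit 0, [], [nat_lit 21, nat_lit 40, nat_lit 20, nat_lit 80, nat_lit 14, nat_lit 428, nat_lit 200, nat_lit 10]⟩,
 zbF0, [⟨nat_lit 16, nat_lit 94, nat_lit 100, nat_lit 53, nat_lit 792722572⟩, ⟨nat_lit 19, nat_lit 98, nat_lit 100, nat_lit 54, nat_lit 1402174775⟩]⟩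
noncomputable def b_VL_600_600_5_16 : St := ⟨true, nat_lit 1, nat_lit 0, nat_lit 1, nat_lit 40, nat_lit 260, nat_lit 280, nat_lit 240, nat_lit 280, nat_lit 80, nat_lit 160, nat_lit 20, nat_lit 40, nat_lit 0, nat_lit 268, nat_lit 0, nat_lit 288, nat_lit 0, nat_lit 40, nat_lit 0, nat_lit 0, nat_lit 0, nat_lit 0⟩
theorem d_VL_600_600_5_16 (h : EB TB.env) : Dead b_VL_600_600_5_16 := chkB_sound0 h (T :=
(.spl (nat_lit 5) (nat_lit 160)
(.spl (nat_lit 4) (nat_lit 160)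
(.spl (nat_lit 4) (nat_lit 80)
(.spl (nat_lit 0) (nat_lit 270)
(.ord (.leaf p033_l108))
(.leaf p033_l109))
(.spl (nat_lit 1) (nat_lit 260)
(.leaf p033_l110)
(.spl (nat_lit 0) (nat_lit 270)
(.ord (.leaf p033_l111))
(.leaf p033_l112))))
(.spl (nat_lit 0) (nat_lit 270)
(.ord (.spl (nat_lit 0) (nat_lit 265)
(.ord (.leaf p033_l113))
(.trX (nat_lit 16) (nat_lit 99) (nat_lit 100) (nat_lit 63) (nat_lit 264) (.leaf p033_l114))))
(.trX (nat_lit 16) (nat_lit 98) (nat_lit 100) (nat_lit 63) (nat_lit 260) (.spl (nat_lit 1) (nat_lit 260)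
(.leaf p033_l115)
(.leaf p033_l116)))))
(.spl (nat_lit 4) (nat_lit 160)
(.spl (nat_lit 0) (nat_lit 270)
(.ord (.spl (nat_lit 0) (nat_lit 265)
(.ord (.leaf p033_l117))
(.leaf p033_l118)))
(.spl (nat_lit 5) (nat_lit 240)
(.leaf p033_l119)
(.leaf p033_l120)))
(.spl (nat_lit 0) (nat_lit 270)
(.ord (.spl (nat_lit 5) (nat_lit 240)
(.leaf p033_l121)
(.leaf p033_l122)))
(.trX (nat_lit 16) (nat_lit 98) (nat_lit 100) (nat_lit 63) (nat_lit 260) (.spl (nat_lit 5) (nat_lit 240)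
(.spl (nat_lit 6) (nat_lit 20)
(.spl (nat_lit 0) (nat_lit 275)
(.ord (.leaf p033_l123))
(.trX (nat_lit 16) (nat_lit 96) (nat_lit 100) (nat_lit 62) (nat_lit 252) (.spl (nat_lit 0) (nat_lit 278)
(.ord (.leaf p033_l124))
(.leaf p033_l125))))
(.leaf p033_l126))
(.spl (nat_lit 6) (nat_lit 20)
(.spl (nat_lit 0) (nat_lit 275)
(.ord (.leaf p033_l127))
(.trX (nat_lit 16) (nat_lit 96) (nat_lit 100) (nat_lit 62) (nat_lit 252) (.leaf p033_l128)))
(.leaf p033_l129)))))))) (by decide +kernel)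
noncomputable def p033_l130 : Lf2 := ⟨nat_lit 0, nat_lit 10, [nat_lit 0, nat_lit 5, nat_lit 5, nat_lit 20], false, nat_lit 0, nat_lit 268, nat_lit 0, nat_lit 160, ⟨nat_lit 1000, nat_lit 0, nat_lit 0, nat_lit 0, nat_lit 0, nat_lit 0, nat_lit 0, nat_lit 0, nat_lit 0, nat_lit 0, nat_lit 0, nat_lit 0, nat_lit 0, nat_lit 0, nat_lit 0, nat_lit 0, false, false⟩,
 nat_lit 0, nat_lit 12287, nat_lit 0, nat_lit 0, nat_lit 7152, nat_lit 8073, nat_lit 1490, nat_lit 0, nat_lit 0, nat_lit 2919, nat_lit 0, nat_lit 0, nat_lit 0, nat_lit 28465998162899, nat_lit 0, nat_lit 0, nat_lit 0, nat_lit 0, [],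
 ⟨p033_k25, nat_lit 0, nat_lit 0, nat_lit 613, nat_lit 0, nat_lit 896947, [nat_lit 4688000000, nat_lit 6250000000, nat_lit 9842000000], [], [nat_lit 36492981504, nat_lit 34602214416, nat_lit 29170599968, nat_lit 29392196480, nat_lit 26059357880, nat_lit 26217068071, nat_lit 34036809522, nat_lit 32389456820], nat_lit 1271250, nat_lit 1271250, nat_lit 1100001, nat_lit 1785000, nat_lit 0, nat_lit 1892750, [nat_lit 1100000, nat_lit 1442500, nat_lit 1271250], [nat_lit 11, nat_lit 40, nat_lit 20, nat_lit 80, nat_lit 1, nat_lit 428, nat_lit 200, nat_lit 12]⟩, ⟨p033_k21, nat_lit 0, nat_lit 0, nat_lit 191, nat_lit 0, nat_lit 0, [nat_lit 4688000000, nat_lit 6250000000, nat_lit 11872000000], [], [nat_lit 17930155965, nat_lit 20059008171, nat_lit 20764609053, nat_lit 22541349305, nat_lit 12794429916, nat_lit 14930564487, nat_lit 16093184460, nat_lit 17854789965], nat_lit 0, nat_lit 0, nat_lit 0, nat_lit 0, nat_lit 0, nat_lit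 0, [], [nat_lit 48, nat_lit 40, nat_lit 20, nat_lit 80, nat_lit 12, nat_lit 401, nat_lit 175, nat_lit 10]⟩,
 zbF0, [⟨nat_lit 16, nat_lit 97, nat_lit 100, nat_lit 54, nat_lit 31206053⟩]⟩
noncomputable def p033_l131 : Lf2 := ⟨nat_lit 0, nat_lit 10, [nat_lit 0, nat_lit 5, nat_lit 5, nat_lit 20], false, nat_lit 0, nat_lit 260, nat_lit 0, nat_lit 160, ⟨nat_lit 1000, nat_lit 0, nat_lit 0, nat_lit 0, nat_lit 0, nat_lit 0, nat_lit 0, nat_lit 0, nat_lit 0, nat_lit 0, nat_lit 0, nat_lit 0, nat_lit 0, nat_lit 0, nat_lit 0, nat_lit 0, false, false⟩,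
 nat_lit 0, nat_lit 12333, nat_lit 0, nat_lit 0, nat_lit 7511, nat_lit 8393, nat_lit 1255, nat_lit 0, nat_lit 0, nat_lit 3182, nat_lit 0, nat_lit 0, nat_lit 0, nat_lit 47363714033344, nat_lit 0, nat_lit 0, nat_lit 0, nat_lit 0, [],
 ⟨p033_k28, nat_lit 0, nat_lit 0, nat_lit 677, nat_lit 0, nat_lit 1038891, [nat_lit 4688000000, nat_lit 6250000000, nat_lit 9842000000], [], [nat_lit 34864547563, nat_lit 32878872004, nat_lit 28132792819, nat_lit 28306268952, nat_lit 24652869610, nat_lit 24806948334, nat_lit 31239884532, nat_lit 29505299825], nat_lit 1271250, nat_lit 1271250, nat_lit 1100001, nat_lit 1785000, nat_lit 0, nat_lit 1836250, [nat_lit 1100000, nat_lit 1442500, nat_lit 1271250], [nat_lit 11, nat_lit 40, nat_lit 20, nat_lit 80, nat_lit 1, nat_lit 428, nat_lit 200, nat_lit 12]⟩, ⟨p033_k21, nat_lit 0, nat_lit 0, nat_lit 193, nat_lit 0, nat_lit 0, [nat_lit 4688000000, nat_lit 6250000000, nat_lit 11872000000], [],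 [nat_lit 16725447190, nat_lit 19626731518, nat_lit 19822431752, nat_lit 23357536756, nat_lit 12027227356, nat_lit 14941210304, nat_lit 15373510860, nat_lit 17794488240], nat_lit 0, nat_lit 0, nat_lit 0, nat_lit 0, nat_lit 0, nat_lit 0, [], [nat_lit 48, nat_lit 40, nat_lit 20, nat_lit 80, nat_lit 12, nat_lit 401, nat_lit 175, nat_lit 10]⟩,
 zbF0, [⟨nat_lit 16, nat_lit 94, nat_lit 100, nat_lit 53, nat_lit 31313244⟩]⟩
noncomputable def p033_l132 : Lf2 := ⟨nat_lit 0, nat_lit 10, [nat_lit 0, nat_lit 5, nat_lit 5, nat_lit 20], false, nat_lit 0, nat_lit 268, nat_lit 160, nat_lit 288, ⟨nat_lit 1000, nat_lit 0, nat_lit 0, nat_lit 0, nat_lit 0, nat_lit 0, nat_lit 0, nat_lit 0, nat_lit 0, nat_lit 0, nat_lit 0, nat_lit 0, nat_lit 0, nat_lit 0, nat_lit 0, nat_lit 0, false, false⟩,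
 nat_lit 0, nat_lit 12006, nat_lit 0, nat_lit 0, nat_lit 6988, nat_lit 34095, nat_lit 4218, nat_lit 0, nat_lit 0, nat_lit 0, nat_lit 0, nat_lit 0, nat_lit 0, nat_lit 10444990443379, nat_lit 0, nat_lit 0, nat_lit 0, nat_lit 14839595820, [],
 ⟨p033_k25, nat_lit 0, nat_lit 0, nat_lit 721, nat_lit 0, nat_lit 1107523, [nat_lit 4688000000, nat_lit 6250000000, nat_lit 9842000000], [], [nat_lit 36329784776, nat_lit 32634963632, nat_lit 28552990102, nat_lit 29020374942, nat_lit 26354340078, nat_lit 26689971149, nat_lit 31862832813, nat_lit 28643677142], nat_lit 1271250, nat_lit 1271250, nat_lit 1100001, nat_lit 1785000, nat_lit 0, nat_lit 1892750, [nat_lit 1100000, nat_lit 1442500, nat_lit 1271250], [nat_lit 11, nat_lit 40, nat_lit 20, nat_lit 80, nat_lit 1, nat_lit 428, nat_lit 200, nat_lit 12]⟩, ⟨p033_k21, nat_lit 0, nat_lit 0, nat_lit 20, nat_lit 0, nat_lit 0, [nat_lit 4688000000, nat_lit 6250000000, nat_lit 11872000000],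 [], [nat_lit 0, nat_lit 14558985820, nat_lit 14335128000, nat_lit 25799713240, nat_lit 29357528953, nat_lit 38711253520, nat_lit 36379266553, nat_lit 43599222940], nat_lit 0, nat_lit 0, nat_lit 0, nat_lit 0, nat_lit 0, nat_lit 0, [], [nat_lit 48, nat_lit 40, nat_lit 20, nat_lit 80, nat_lit 12, nat_lit 456, nat_lit 225, nat_lit 11]⟩,
 zbF0, [⟨nat_lit 4, nat_lit 100, nat_lit 96, nat_lit 54, nat_lit 96326542⟩, ⟨nat_lit 7, nat_lit 100, nat_lit 98, nat_lit 54, nat_lit 1840409463⟩]⟩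
noncomputable def b_VL_600_600_5_17 : St := ⟨true, nat_lit 1, nat_lit 0, nat_lit 1, nat_lit 40, nat_lit 260, nat_lit 280, nat_lit 240, nat_lit 280, nat_lit 160, nat_lit 240, nat_lit 20, nat_lit 40, nat_lit 0, nat_lit 268, nat_lit 0, nat_lit 288, nat_lit 0, nat_lit 40, nat_lit 0, nat_lit 0, nat_lit 0, nat_lit 0⟩
theorem d_VL_600_600_5_17 (h : EB TB.env) : Dead b_VL_600_600_5_17 := chkB_sound0 h (T :=
(.spl (nat_lit 5) (nat_lit 160)
(.spl (nat_lit 0) (nat_lit 270)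
(.ord (.leaf p033_l130))
(.trX (nat_lit 16) (nat_lit 98) (nat_lit 100) (nat_lit 63) (nat_lit 260) (.leaf p033_l131)))
(.leaf p033_l132))) (by decide +kernel)
noncomputable def p033_l133 : Lf2 := ⟨nat_lit 0, nat_lit 8, [nat_lit 50, nat_lit 5, nat_lit 5, nat_lit 20], false, nat_lit 0, nat_lit 288, nat_lit 0, nat_lit 288, ⟨nat_lit 1000, nat_lit 0, nat_lit 0, nat_lit 0, nat_lit 0, nat_lit 0, nat_lit 0, nat_lit 0, nat_lit 0, nat_lit 0, nat_lit 0, nat_lit 0, nat_lit 0, nat_lit 0, nat_lit 0, nat_lit 0, false, false⟩,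
 nat_lit 0, nat_lit 16636, nat_lit 0, nat_lit 0, nat_lit 8807, nat_lit 9448, nat_lit 715, nat_lit 0, nat_lit 0, nat_lit 1037, nat_lit 0, nat_lit 0, nat_lit 0, nat_lit 0, nat_lit 0, nat_lit 0, nat_lit 0, nat_lit 0, [],
 ⟨p033_k12, nat_lit 0, nat_lit 0, nat_lit 424, nat_lit 0, nat_lit 462975, [nat_lit 4688000000, nat_lit 7968000001, nat_lit 9842000000], [], [nat_lit 33753047946, nat_lit 33910928782, nat_lit 40866200144, nat_lit 41140856265, nat_lit 29643744862, nat_lit 29721188180, nat_lit 34161552926, nat_lit 34188590410], nat_lit 1271250, nat_lit 1271250, nat_lit 1271250, nat_lit 1271250, nat_lit 0, nat_lit 2034000, [nat_lit 1100000, nat_lit 1785000, nat_lit 1271250], [nat_lit 29, nat_lit 40, nat_lit 20, nat_lit 80, nat_lit 17, nat_lit 483, nat_lit 250, nat_lit 14]⟩, ⟨p033_k12, nat_lit 0, nat_lit 0, nat_lit 225, nat_lit 0, nat_lit 0, [nat_lit 4688000000, nat_lit 7968000000, nat_lit 9842000000], [], [nat_lit 25319876404,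 nat_lit 25691696576, nat_lit 42471130816, nat_lit 42754826960, nat_lit 23265866305, nat_lit 23475254296, nat_lit 34693310170, nat_lit 34859030473], nat_lit 0, nat_lit 0, nat_lit 0, nat_lit 0, nat_lit 0, nat_lit 0, [], [nat_lit 29, nat_lit 40, nat_lit 20, nat_lit 80, nat_lit 17, nat_lit 483, nat_lit 250, nat_lit 14]⟩,
 zbF0, [⟨nat_lit 4, nat_lit 96, nat_lit 100, nat_lit 54, nat_lit 105533547⟩, ⟨nat_lit 7, nat_lit 96, nat_lit 100, nat_lit 54, nat_lit 75202038⟩]⟩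
noncomputable def p033_l134 : Lf2 := ⟨nat_lit 0, nat_lit 8, [nat_lit 50, nat_lit 5, nat_lit 5, nat_lit 20], false, nat_lit 0, nat_lit 284, nat_lit 0, nat_lit 288, ⟨nat_lit 1000, nat_lit 0, nat_lit 0, nat_lit 0, nat_lit 0, nat_lit 0, nat_lit 0, nat_lit 0, nat_lit 0, nat_lit 0, nat_lit 0, nat_lit 0, nat_lit 0, nat_lit 0, nat_lit 0, nat_lit 0, false, false⟩,
 nat_lit 0, nat_lit 14148, nat_lit 0, nat_lit 0, nat_lit 7674, nat_lit 9464, nat_lit 3760, nat_lit 0, nat_lit 0, nat_lit 1029, nat_lit 0, nat_lit 0, nat_lit 0, nat_lit 8511682420983, nat_lit 0, nat_lit 0, nat_lit 0, nat_lit 0, [],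
 ⟨p033_k39, nat_lit 0, nat_lit 0, nat_lit 454, nat_lit 0, nat_lit 547645, [nat_lit 4688000000, nat_lit 7968000001, nat_lit 9842000000], [], [nat_lit 31298385355, nat_lit 31438768827, nat_lit 38288081230, nat_lit 38546758652, nat_lit 28595040766, nat_lit 28677274081, nat_lit 32957498655, nat_lit 32993784148], nat_lit 1271250, nat_lit 1271250, nat_lit 1271250, nat_lit 1271250, nat_lit 0, nat_lit 2005750, [nat_lit 1100000, nat_lit 1785000, nat_lit 1271250], [nat_lit 29, nat_lit 40, nat_lit 20, nat_lit 80, nat_lit 17, nat_lit 483, nat_lit 250, nat_lit 14]⟩, ⟨p033_k12, nat_lit 0, nat_lit 0, nat_lit 225, nat_lit 0, nat_lit 0, [nat_lit 4688000000, nat_lit 7968000000, nat_lit 9842000000], [], [nat_lit 25348541972, nat_lit 26092922364, nat_lit 42511191488, nat_lit 43079035072, nat_lit 23280413627, nat_lit 23699833042, nat_lit 34709992333, nat_lit 35041565369], nat_lit 0, nat_lit 0, nat_lit 0, nat_lit 0, nat_lit 0, nat_lit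 0, [], [nat_lit 29, nat_lit 40, nat_lit 20, nat_lit 80, nat_lit 17, nat_lit 483, nat_lit 250, nat_lit 14]⟩,
 zbF0, [⟨nat_lit 16, nat_lit 100, nat_lit 98, nat_lit 54, nat_lit 146167236⟩, ⟨nat_lit 19, nat_lit 100, nat_lit 97, nat_lit 54, nat_lit 70637479⟩]⟩
noncomputable def p033_l135 : Lf2 := ⟨nat_lit 1, nat_lit 10, [nat_lit 0, nat_lit 5, nat_lit 5, nat_lit 20], false, nat_lit 0, nat_lit 288, nat_lit 0, nat_lit 288, zbN0,
 nat_lit 0, nat_lit 0, nat_lit 0, nat_lit 0, nat_lit 0, nat_lit 0, nat_lit 0, nat_lit 0, nat_lit 0, nat_lit 0, nat_lit 0, nat_lit 0, nat_lit 0, nat_lit 0, nat_lit 0, nat_lit 0, nat_lit 0, nat_lit 0, [],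
 C1.Rw.none, C1.Rw.none,
 zbF0, []⟩
noncomputable def p033_l136 : Lf2 := ⟨nat_lit 0, nat_lit 10, [nat_lit 0, nat_lit 5, nat_lit 5, nat_lit 20], false, nat_lit 0, nat_lit 280, nat_lit 0, nat_lit 288, ⟨nat_lit 1000, nat_lit 0, nat_lit 0, nat_lit 0, nat_lit 0, nat_lit 0, nat_lit 0, nat_lit 0, nat_lit 0, nat_lit 0, nat_lit 0, nat_lit 0, nat_lit 0, nat_lit 0, nat_lit 0, nat_lit 0, false, false⟩,
 nat_lit 0, nat_lit 12910, nat_lit 0, nat_lit 0, nat_lit 7172, nat_lit 7527, nat_lit 2440, nat_lit 0, nat_lit 0, nat_lit 2191, nat_lit 0, nat_lit 0, nat_lit 0, nat_lit 0, nat_lit 0, nat_lit 0, nat_lit 0, nat_lit 0, [],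
 ⟨p033_k10, nat_lit 0, nat_lit 0, nat_lit 515, nat_lit 0, nat_lit 742849, [nat_lit 4688000000, nat_lit 6250000000, nat_lit 9842000000], [], [nat_lit 29169597372, nat_lit 29450122472, nat_lit 37275695656, nat_lit 37778891088, nat_lit 27424084994, nat_lit 27580035516, nat_lit 32304836144, nat_lit 32627248568], nat_lit 1271250, nat_lit 1271250, nat_lit 1271250, nat_lit 1271250, nat_lit 0, nat_lit 1977500, [nat_lit 1100000, nat_lit 1442500, nat_lit 1271250], [nat_lit 11, nat_lit 40, nat_lit 20, nat_lit 80, nat_lit 1, nat_lit 483, nat_lit 250, nat_lit 14]⟩, ⟨p033_k21, nat_lit 0, nat_lit 0, nat_lit 239, nat_lit 0, nat_lit 0, [nat_lit 4688000000, nat_lit 6250000000, nat_lit 11872000000], [], [nat_lit 24113698797, nat_lit 25239387639, nat_lit 37661346384, nat_lit 38687763508, nat_lit 22425492710, nat_lit 23087147384, nat_lit 32690407951, nat_lit 33321489698], nat_lit 0, nat_lit 0, nat_lit 0, nat_lit 0, nat_lit 0, nat_lit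 0, [], [nat_lit 48, nat_lit 40, nat_lit 20, nat_lit 80, nat_lit 12, nat_lit 483, nat_lit 250, nat_lit 12]⟩,
 zbF0, [⟨nat_lit 16, nat_lit 100, nat_lit 100, nat_lit 55, nat_lit 152275171⟩, ⟨nat_lit 7, nat_lit 99, nat_lit 100, nat_lit 54, nat_lit 156516616⟩]⟩
noncomputable def p033_l137 : Lf2 := ⟨nat_lit 0, nat_lit 10, [nat_lit 0, nat_lit 5, nat_lit 5, nat_lit 20], false, nat_lit 0, nat_lit 268, nat_lit 0, nat_lit 160, ⟨nat_lit 1000, nat_lit 0, nat_lit 0, nat_lit 0, nat_lit 0, nat_lit 0, nat_lit 0, nat_lit 0, nat_lit 0, nat_lit 0, nat_lit 0, nat_lit 0, nat_lit 0, nat_lit 0, nat_lit 0, nat_lit 0, false, false⟩,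
 nat_lit 0, nat_lit 11449, nat_lit 0, nat_lit 0, nat_lit 6664, nat_lit 6704, nat_lit 1933, nat_lit 0, nat_lit 0, nat_lit 2243, nat_lit 0, nat_lit 0, nat_lit 0, nat_lit 39942024684725, nat_lit 0, nat_lit 0, nat_lit 0, nat_lit 0, [],
 ⟨p033_k25, nat_lit 0, nat_lit 0, nat_lit 698, nat_lit 0, nat_lit 1107523, [nat_lit 4688000000, nat_lit 6250000000, nat_lit 9842000000], [], [nat_lit 32589262501, nat_lit 32975889429, nat_lit 36760089424, nat_lit 37456041024, nat_lit 30640301163, nat_lit 30911474684, nat_lit 33789777461, nat_lit 33929973031], nat_lit 1271250, nat_lit 1271250, nat_lit 1271250, nat_lit 1271250, nat_lit 0, nat_lit 1892750, [nat_lit 1100000, nat_lit 1442500, nat_lit 1271250], [nat_lit 11, nat_lit 40, nat_lit 20, nat_lit 80, nat_lit 1, nat_lit 483, nat_lit 250, nat_lit 14]⟩, ⟨p033_k21, nat_lit 0, nat_lit 0, nat_lit 239, nat_lit 0, nat_lit 0, [nat_lit 4688000000, nat_lit 6250000000, nat_lit 11872000000], [],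 [nat_lit 23703273149, nat_lit 25788963037, nat_lit 35600725568, nat_lit 37560705664, nat_lit 19804517789, nat_lit 21312619613, nat_lit 29439474304, nat_lit 30840049056], nat_lit 0, nat_lit 0, nat_lit 0, nat_lit 0, nat_lit 0, nat_lit 0, [], [nat_lit 48, nat_lit 40, nat_lit 20, nat_lit 80, nat_lit 12, nat_lit 456, nat_lit 225, nat_lit 11]⟩,
 zbF0, [⟨nat_lit 4, nat_lit 100, nat_lit 96, nat_lit 54, nat_lit 206399189⟩]⟩
noncomputable def p033_l138 : Lf2 := ⟨nat_lit 0, nat_lit 10, [nat_lit 0, nat_lit 5, nat_lit 5, nat_lit 20], false, nat_lit 0, nat_lit 268, nat_lit 160, nat_lit 288, ⟨nat_lit 1000, nat_lit 0, nat_lit 0, nat_lit 0, nat_lit 0, nat_lit 0, nat_lit 0, nat_lit 0, nat_lit 0, nat_lit 0, nat_lit 0, nat_lit 0, nat_lit 0, nat_lit 0, nat_lit 0, nat_lit 0, false, false⟩,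
 nat_lit 0, nat_lit 11655, nat_lit 0, nat_lit 0, nat_lit 6784, nat_lit 5821, nat_lit 2300, nat_lit 0, nat_lit 0, nat_lit 0, nat_lit 0, nat_lit 0, nat_lit 0, nat_lit 26031052387282, nat_lit 0, nat_lit 0, nat_lit 0, nat_lit 0, [],
 ⟨p033_k25, nat_lit 0, nat_lit 0, nat_lit 595, nat_lit 0, nat_lit 896947, [nat_lit 4688000000, nat_lit 6250000000, nat_lit 9842000000], [], [nat_lit 29156886472, nat_lit 29423186344, nat_lit 36785531936, nat_lit 37277783440, nat_lit 28069716575, nat_lit 28261954651, nat_lit 31993391891, nat_lit 32088825986], nat_lit 1271250, nat_lit 1271250, nat_lit 1271250, nat_lit 1271250, nat_lit 0, nat_lit 1892750, [nat_lit 1100000, nat_lit 1442500, nat_lit 1271250], [nat_lit 11, nat_lit 40, nat_lit 20, nat_lit 80, nat_lit 1, nat_lit 483, nat_lit 250, nat_lit 14]⟩, ⟨p033_k21, nat_lit 0, nat_lit 0, nat_lit 81, nat_lit 0, nat_lit 0, [nat_lit 4688000000, nat_lit 6250000000, nat_lit 11872000000], [], [nat_lit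 15499788304, nat_lit 17456208841, nat_lit 27656748100, nat_lit 28752355768, nat_lit 21474270758, nat_lit 22899447030, nat_lit 30911672300, nat_lit 31815934258], nat_lit 0, nat_lit 0, nat_lit 0, nat_lit 0, nat_lit 0, nat_lit 0, [], [nat_lit 48, nat_lit 40, nat_lit 20, nat_lit 80, nat_lit 12, nat_lit 483, nat_lit 250, nat_lit 12]⟩,
 zbF0, [⟨nat_lit 4, nat_lit 100, nat_lit 97, nat_lit 54, nat_lit 145008330⟩, ⟨nat_lit 7, nat_lit 100, nat_lit 100, nat_lit 55, nat_lit 766646362⟩]⟩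
noncomputable def p033_l139 : Lf2 := ⟨nat_lit 0, nat_lit 10, [nat_lit 0, nat_lit 5, nat_lit 5, nat_lit 20], false, nat_lit 0, nat_lit 260, nat_lit 160, nat_lit 288, ⟨nat_lit 1000, nat_lit 0, nat_lit 0, nat_lit 0, nat_lit 0, nat_lit 0, nat_lit 0, nat_lit 0, nat_lit 0, nat_lit 0, nat_lit 0, nat_lit 0, nat_lit 0, nat_lit 0, nat_lit 0, nat_lit 0, false, false⟩,
 nat_lit 0, nat_lit 11374, nat_lit 0, nat_lit 0, nat_lit 6927, nat_lit 6008, nat_lit 1275, nat_lit 0, nat_lit 0, nat_lit 0, nat_lit 0, nat_lit 0, nat_lit 0, nat_lit 0, nat_lit 0, nat_lit 0, nat_lit 0, nat_lit 0, [],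
 ⟨p033_k28, nat_lit 0, nat_lit 0, nat_lit 647, nat_lit 0, nat_lit 1038891, [nat_lit 4688000000, nat_lit 6250000000, nat_lit 9842000000], [], [nat_lit 31011859238, nat_lit 31245264043, nat_lit 37647926070, nat_lit 38144211032, nat_lit 29046791707, nat_lit 29184745971, nat_lit 32205068004, nat_lit 32274546472], nat_lit 1271250, nat_lit 1271250, nat_lit 1271250, nat_lit 1271250, nat_lit 0, nat_lit 1836250, [nat_lit 1100000, nat_lit 1442500, nat_lit 1271250], [nat_lit 11, nat_lit 40, nat_lit 20, nat_lit 80, nat_lit 1, nat_lit 483, nat_lit 250, nat_lit 13]⟩, ⟨p033_k21, nat_lit 0, nat_lit 0, nat_lit 82, nat_lit 0, nat_lit 0, [nat_lit 4688000000, nat_lit 6250000000, nat_lit 11872000000], [], [nat_lit 15232120992, nat_lit 17884064960, nat_lit 27686361760, nat_lit 29378013504, nat_lit 21281990925, nat_lit 23207458388, nat_lit 31106645082, nat_lit 32318518740], nat_lit 0, nat_lit 0, nat_lit 0, nat_lit 0, nat_lit 0, nat_lit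 0, [], [nat_lit 48, nat_lit 40, nat_lit 20, nat_lit 80, nat_lit 12, nat_lit 483, nat_lit 250, nat_lit 12]⟩,
 zbF0, [⟨nat_lit 4, nat_lit 100, nat_lit 94, nat_lit 53, nat_lit 116332703⟩, ⟨nat_lit 7, nat_lit 100, nat_lit 98, nat_lit 54, nat_lit 802447203⟩]⟩
noncomputable def b_VL_600_600_5_18 : St := ⟨true, nat_lit 1, nat_lit 0, nat_lit 1, nat_lit 40, nat_lit 240, nat_lit 280, nat_lit 240, nat_lit 280, nat_lit 240, nat_lit 400, nat_lit 20, nat_lit 40, nat_lit 0, nat_lit 288, nat_lit 0, nat_lit 288, nat_lit 0, nat_lit 40, nat_lit 0, nat_lit 0, nat_lit 0, nat_lit 0⟩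
theorem d_VL_600_600_5_18 (h : EB TB.env) : Dead b_VL_600_600_5_18 := chkB_sound0 h (T :=
(.spl (nat_lit 0) (nat_lit 260)
(.ord (.spl (nat_lit 0) (nat_lit 250)
(.ord (.spl (nat_lit 6) (nat_lit 32)
(.spl (nat_lit 0) (nat_lit 245)
(.ord (.leaf p033_l133))
(.trX (nat_lit 16) (nat_lit 100) (nat_lit 94) (nat_lit 62) (nat_lit 284) (.leaf p033_l134)))
(.leaf p033_l135)))
(.trX (nat_lit 16) (nat_lit 100) (nat_lit 95) (nat_lit 62) (nat_lit 280) (.leaf p033_l136))))
(.trX (nat_lit 16) (nat_lit 100) (nat_lit 99) (nat_lit 63) (nat_lit 268) (.spl (nat_lit 5) (nat_lit 160)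
(.leaf p033_l137)
(.spl (nat_lit 0) (nat_lit 270)
(.ord (.leaf p033_l138))
(.trX (nat_lit 16) (nat_lit 98) (nat_lit 100) (nat_lit 63) (nat_lit 260) (.leaf p033_l139))))))) (by decide +kernel)

end B2
end Pool.Agent.Lib.MP_6947cd_al
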