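import Pool.Agent.Lib.MP_6947cd_al.ZB.Pre

/-!
Problem MP_6947cd_al (Chollet).  Case B, second entry in [2/5, 17/20]: certificates of the tree, part P034 (generated).
-/

set_option autoImplicit false
set_option linter.all false

namespace Pool.Agent.Lib.MP_6947cd_al
namespace B2

open Ent Fr B1 PkA

noncomputable def p034_k0 : C1.Kn := ⟨[nat_lit 80, nat_lit 100, nat_lit 120], [nat_lit 0, nat_lit 0, nat_lit 511], [(nat_lit 0, nat_lit 0, nat_lit 0), (nat_lit 0, nat_lit 0, nat_lit 0), (nat_lit 1000, nat_lit 997, nat_lit 383)], (nat_lit 98, nat_lit 100, nat_lit 28)⟩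
noncomputable def p034_k1 : C1.Kn := ⟨[nat_lit 80, nat_lit 100, nat_lit 120], [nat_lit 0, nat_lit 36, nat_lit 550], [(nat_lit 0, nat_lit 0, nat_lit 0), (nat_lit 1000, nat_lit 994, nat_lit 28), (nat_lit 1000, nat_lit 993, nat_lit 397)], (nat_lit 98, nat_lit 100, nat_lit 28)⟩
noncomputable def p034_k2 : C1.Kn := ⟨[nat_lit 80, nat_lit 100, nat_lit 120], [nat_lit 0, nat_lit 65, nat_lit 576], [(nat_lit 0, nat_lit 0, nat_lit 0), (nat_lit 1000, nat_lit 990, nat_lit 51), (nat_lit 1000, nat_lit 990, nat_lit 399)], (nat_lit 98, nat_lit 100, nat_lit 28)⟩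
noncomputable def p034_k3 : C1.Kn := ⟨[nat_lit 80, nat_lit 100, nat_lit 120], [nat_lit 0, nat_lit 106, nat_lit 614], [(nat_lit 0, nat_lit 0, nat_lit 0), (nat_lit 1000, nat_lit 983, nat_lit 83), (nat_lit 1000, nat_lit 983, nat_lit 397)], (nat_lit 97, nat_lit 100, nat_lit 28)⟩
noncomputable def p034_k4 : C1.Kn := ⟨[nat_lit 80, nat_lit 100, nat_lit 120], [nat_lit 0, nat_lit 132, nat_lit 640], [(nat_lit 0, nat_lit 0, nat_lit 0), (nat_lit 1000, nat_lit 979, nat_lit 103), (nat_lit 1000, nat_lit 979, nat_lit 397)], (nat_lit 97, nat_lit 100, nat_lit 28)⟩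
noncomputable def p034_k5 : C1.Kn := ⟨[nat_lit 80, nat_lit 100, nat_lit 120], [nat_lit 0, nat_lit 198, nat_lit 704], [(nat_lit 0, nat_lit 0, nat_lit 0), (nat_lit 1000, nat_lit 969, nat_lit 154), (nat_lit 1000, nat_lit 969, nat_lit 395)], (nat_lit 96, nat_lit 100, nat_lit 28)⟩
noncomputable def p034_k6 : C1.Kn := ⟨[nat_lit 80, nat_lit 100, nat_lit 120], [nat_lit 0, nat_lit 0, nat_lit 511], [(nat_lit 0, nat_lit 0, nat_lit 0), (nat_lit 0, nat_lit 0, nat_lit 0), (nat_lit 1000, nat_lit 997, nat_lit 383)], (nat_lit 100, nat_lit 100, nat_lit 40)⟩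
noncomputable def p034_k7 : C1.Kn := ⟨[nat_lit 80, nat_lit 100, nat_lit 120], [nat_lit 0, nat_lit 65, nat_lit 576], [(nat_lit 0, nat_lit 0, nat_lit 0), (nat_lit 1000, nat_lit 990, nat_lit 51), (nat_lit 1000, nat_lit 990, nat_lit 399)], (nat_lit 99, nat_lit 100, nat_lit 40)⟩
noncomputable def p034_k8 : C1.Kn := ⟨[nat_lit 80, nat_lit 100, nat_lit 140], [nat_lit 0, nat_lit 0, nat_lit 1022], [(nat_lit 0, nat_lit 0, nat_lit 0), (nat_lit 0, nat_lit 0, nat_lit 0), (nat_lit 1000, nat_lit 1000, nat_lit 399)], (nat_lit 100, nat_lit 99, nat_lit 44)⟩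
noncomputable def p034_k9 : C1.Kn := ⟨[nat_lit 80, nat_lit 100, nat_lit 140], [nat_lit 0, nat_lit 65, nat_lit 1086], [(nat_lit 0, nat_lit 0, nat_lit 0), (nat_lit 1000, nat_lit 990, nat_lit 51), (nat_lit 1000, nat_lit 990, nat_lit 399)], (nat_lit 100, nat_lit 100, nat_lit 45)⟩
noncomputable def p034_k10 : C1.Kn := ⟨[nat_lit 80, nat_lit 100, nat_lit 120], [nat_lit 0, nat_lit 132, nat_lit 640], [(nat_lit 0, nat_lit 0, nat_lit 0), (nat_lit 1000, nat_lit 979, nat_lit 103), (nat_lit 1000, nat_lit 979, nat_lit 397)], (nat_lit 99, nat_lit 100, nat_lit 44)⟩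
noncomputable def p034_k11 : C1.Kn := ⟨[nat_lit 80, nat_lit 100, nat_lit 120], [nat_lit 0, nat_lit 198, nat_lit 704], [(nat_lit 0, nat_lit 0, nat_lit 0), (nat_lit 1000, nat_lit 969, nat_lit 154), (nat_lit 1000, nat_lit 969, nat_lit 395)], (nat_lit 98, nat_lit 100, nat_lit 44)⟩
noncomputable def p034_k12 : C1.Kn := ⟨[nat_lit 80, nat_lit 100], [nat_lit 0, nat_lit 65], [(nat_lit 0, nat_lit 0, nat_lit 0), (nat_lit 1000, nat_lit 990, nat_lit 51)], (nat_lit 97, nat_lit 100, nat_lit 20)⟩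
noncomputable def p034_k13 : C1.Kn := ⟨[nat_lit 80, nat_lit 100, nat_lit 120], [nat_lit 0, nat_lit 171, nat_lit 678], [(nat_lit 0, nat_lit 0, nat_lit 0), (nat_lit 1000, nat_lit 973, nat_lit 133), (nat_lit 1000, nat_lit 973, nat_lit 395)], (nat_lit 96, nat_lit 100, nat_lit 28)⟩
noncomputable def p034_k14 : C1.Kn := ⟨[nat_lit 80, nat_lit 100], [nat_lit 0, nat_lit 238], [(nat_lit 0, nat_lit 0, nat_lit 0), (nat_lit 1000, nat_lit 963, nat_lit 185)], (nat_lit 96, nat_lit 100, nat_lit 28)⟩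
noncomputable def p034_k15 : C1.Kn := ⟨[nat_lit 80, nat_lit 100, nat_lit 120], [nat_lit 0, nat_lit 226, nat_lit 728], [(nat_lit 0, nat_lit 0, nat_lit 0), (nat_lit 1000, nat_lit 965, nat_lit 177), (nat_lit 1000, nat_lit 964, nat_lit 391)], (nat_lit 97, nat_lit 100, nat_lit 44)⟩
noncomputable def p034_k16 : C1.Kn := ⟨[nat_lit 80, nat_lit 100, nat_lit 120], [nat_lit 0, nat_lit 238, nat_lit 742], [(nat_lit 0, nat_lit 0, nat_lit 0), (nat_lit 1000, nat_lit 963, nat_lit 185), (nat_lit 1000, nat_lit 963, nat_lit 393)], (nat_lit 97, nat_lit 100, nat_lit 44)⟩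
noncomputable def p034_k17 : C1.Kn := ⟨[nat_lit 80, nat_lit 100], [nat_lit 0, nat_lit 0], [(nat_lit 0, nat_lit 0, nat_lit 0), (nat_lit 0, nat_lit 0, nat_lit 0)], (nat_lit 98, nat_lit 100, nat_lit 20)⟩
noncomputable def p034_k18 : C1.Kn := ⟨[nat_lit 80, nat_lit 100, nat_lit 140], [nat_lit 0, nat_lit 0, nat_lit 1022], [(nat_lit 0, nat_lit 0, nat_lit 0), (nat_lit 0, nat_lit 0, nat_lit 0), (nat_lit 1000, nat_lit 1000, nat_lit 399)], (nat_lit 100, nat_lit 95, nat_lit 55)⟩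
noncomputable def p034_k19 : C1.Kn := ⟨[nat_lit 80, nat_lit 100, nat_lit 140], [nat_lit 0, nat_lit 132, nat_lit 1148], [(nat_lit 0, nat_lit 0, nat_lit 0), (nat_lit 1000, nat_lit 979, nat_lit 103), (nat_lit 1000, nat_lit 979, nat_lit 397)], (nat_lit 100, nat_lit 95, nat_lit 62)⟩
noncomputable def p034_k20 : C1.Kn := ⟨[nat_lit 80, nat_lit 100, nat_lit 140], [nat_lit 0, nat_lit 171, nat_lit 1184], [(nat_lit 0, nat_lit 0, nat_lit 0), (nat_lit 1000, nat_lit 973, nat_lit 133), (nat_lit 1000, nat_lit 973, nat_lit 395)], (nat_lit 100, nat_lit 96, nat_lit 62)⟩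
noncomputable def p034_k21 : C1.Kn := ⟨[nat_lit 80, nat_lit 100, nat_lit 140], [nat_lit 0, nat_lit 198, nat_lit 1210], [(nat_lit 0, nat_lit 0, nat_lit 0), (nat_lit 1000, nat_lit 969, nat_lit 154), (nat_lit 1000, nat_lit 969, nat_lit 395)], (nat_lit 100, nat_lit 97, nat_lit 62)⟩
noncomputable def p034_k22 : C1.Kn := ⟨[nat_lit 80, nat_lit 100, nat_lit 140], [nat_lit 0, nat_lit 226, nat_lit 1228], [(nat_lit 0, nat_lit 0, nat_lit 0), (nat_lit 1000, nat_lit 965, nat_lit 177), (nat_lit 1000, nat_lit 964, nat_lit 391)], (nat_lit 100, nat_lit 98, nat_lit 63)⟩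
noncomputable def p034_k23 : C1.Kn := ⟨[nat_lit 80, nat_lit 100, nat_lit 140], [nat_lit 0, nat_lit 238, nat_lit 1245], [(nat_lit 0, nat_lit 0, nat_lit 0), (nat_lit 1000, nat_lit 963, nat_lit 185), (nat_lit 1000, nat_lit 963, nat_lit 393)], (nat_lit 100, nat_lit 98, nat_lit 63)⟩
noncomputable def p034_k24 : C1.Kn := ⟨[nat_lit 80, nat_lit 100, nat_lit 160], [nat_lit 0, nat_lit 0, nat_lit 1533], [(nat_lit 0, nat_lit 0, nat_lit 0), (nat_lit 0, nat_lit 0, nat_lit 0), (nat_lit 1000, nat_lit 1000, nat_lit 399)], (nat_lit 100, nat_lit 92, nat_lit 61)⟩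
noncomputable def p034_k25 : C1.Kn := ⟨[nat_lit 80, nat_lit 100], [nat_lit 0, nat_lit 265], [(nat_lit 0, nat_lit 0, nat_lit 0), (nat_lit 1000, nat_lit 959, nat_lit 206)], (nat_lit 95, nat_lit 100, nat_lit 28)⟩
noncomputable def p034_k26 : C1.Kn := ⟨[nat_lit 80, nat_lit 90, nat_lit 110], [nat_lit 0, nat_lit 0, nat_lit 257], [(nat_lit 0, nat_lit 0, nat_lit 0), (nat_lit 0, nat_lit 0, nat_lit 0), (nat_lit 1000, nat_lit 980, nat_lit 201)], (nat_lit 98, nat_lit 100, nat_lit 28)⟩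
noncomputable def p034_k27 : C1.Kn := ⟨[nat_lit 80, nat_lit 100, nat_lit 120], [nat_lit 0, nat_lit 265, nat_lit 768], [(nat_lit 0, nat_lit 0, nat_lit 0), (nat_lit 1000, nat_lit 959, nat_lit 206), (nat_lit 1000, nat_lit 958, nat_lit 392)], (nat_lit 96, nat_lit 100, nat_lit 44)⟩
noncomputable def p034_k28 : C1.Kn := ⟨[nat_lit 80, nat_lit 100, nat_lit 120], [nat_lit 0, nat_lit 332, nat_lit 833], [(nat_lit 0, nat_lit 0, nat_lit 0), (nat_lit 1000, nat_lit 948, nat_lit 259), (nat_lit 1000, nat_lit 948, nat_lit 391)], (nat_lit 95, nat_lit 100, nat_lit 44)⟩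
noncomputable def p034_k29 : C1.Kn := ⟨[nat_lit 80, nat_lit 100], [nat_lit 0, nat_lit 399], [(nat_lit 0, nat_lit 0, nat_lit 0), (nat_lit 1000, nat_lit 938, nat_lit 310)], (nat_lit 94, nat_lit 100, nat_lit 28)⟩
noncomputable def p034_k30 : C1.Kn := ⟨[nat_lit 80, nat_lit 100, nat_lit 120], [nat_lit 0, nat_lit 399, nat_lit 897], [(nat_lit 0, nat_lit 0, nat_lit 0), (nat_lit 1000, nat_lit 938, nat_lit 310), (nat_lit 1000, nat_lit 938, nat_lit 389)], (nat_lit 94, nat_lit 100, nat_lit 44)⟩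
noncomputable def p034_k31 : C1.Kn := ⟨[nat_lit 70, nat_lit 80, nat_lit 100], [nat_lit 0, nat_lit 70, nat_lit 335], [(nat_lit 0, nat_lit 0, nat_lit 0), (nat_lit 1000, nat_lit 967, nat_lit 109), (nat_lit 1000, nat_lit 948, nat_lit 207)], (nat_lit 94, nat_lit 100, nat_lit 28)⟩
noncomputable def p034_k32 : C1.Kn := ⟨[nat_lit 70, nat_lit 80, nat_lit 90], [nat_lit 0, nat_lit 105, nat_lit 237], [(nat_lit 0, nat_lit 0, nat_lit 0), (nat_lit 1000, nat_lit 951, nat_lit 162), (nat_lit 1000, nat_lit 942, nat_lit 206)], (nat_lit 93, nat_lit 100, nat_lit 28)⟩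
noncomputable def p034_k33 : C1.Kn := ⟨[nat_lit 80, nat_lit 100, nat_lit 120], [nat_lit 0, nat_lit 466, nat_lit 966], [(nat_lit 0, nat_lit 0, nat_lit 0), (nat_lit 1000, nat_lit 927, nat_lit 359), (nat_lit 1000, nat_lit 927, nat_lit 391)], (nat_lit 93, nat_lit 100, nat_lit 44)⟩
noncomputable def p034_k34 : C1.Kn := ⟨[nat_lit 80, nat_lit 120], [nat_lit 0, nat_lit 929], [(nat_lit 0, nat_lit 0, nat_lit 0), (nat_lit 1000, nat_lit 927, nat_lit 362)], (nat_lit 93, nat_lit 100, nat_lit 44)⟩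
noncomputable def p034_k35 : C1.Kn := ⟨[nat_lit 80, nat_lit 120], [nat_lit 0, nat_lit 528], [(nat_lit 0, nat_lit 0, nat_lit 0), (nat_lit 1000, nat_lit 959, nat_lit 206)], (nat_lit 96, nat_lit 100, nat_lit 44)⟩
noncomputable def p034_k36 : C1.Kn := ⟨[nat_lit 80, nat_lit 100, nat_lit 140], [nat_lit 0, nat_lit 265, nat_lit 1269], [(nat_lit 0, nat_lit 0, nat_lit 0), (nat_lit 1000, nat_lit 959, nat_lit 206), (nat_lit 1000, nat_lit 958, nat_lit 392)], (nat_lit 100, nat_lit 99, nat_lit 63)⟩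
noncomputable def p034_k37 : C1.Kn := ⟨[nat_lit 80, nat_lit 100, nat_lit 140], [nat_lit 0, nat_lit 399, nat_lit 1395], [(nat_lit 0, nat_lit 0, nat_lit 0), (nat_lit 1000, nat_lit 938, nat_lit 310), (nat_lit 1000, nat_lit 938, nat_lit 389)], (nat_lit 98, nat_lit 100, nat_lit 63)⟩
noncomputable def p034_k38 : C1.Kn := ⟨[nat_lit 80, nat_lit 100, nat_lit 140], [nat_lit 0, nat_lit 466, nat_lit 1467], [(nat_lit 0, nat_lit 0, nat_lit 0), (nat_lit 1000, nat_lit 927, nat_lit 359), (nat_lit 1000, nat_lit 927, nat_lit 391)], (nat_lit 96, nat_lit 100, nat_lit 62)⟩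
noncomputable def p034_k39 : C1.Kn := ⟨[nat_lit 80, nat_lit 100, nat_lit 140], [nat_lit 0, nat_lit 332, nat_lit 1333], [(nat_lit 0, nat_lit 0, nat_lit 0), (nat_lit 1000, nat_lit 948, nat_lit 259), (nat_lit 1000, nat_lit 948, nat_lit 391)], (nat_lit 99, nat_lit 100, nat_lit 63)⟩
noncomputable def p034_k40 : C1.Kn := ⟨[nat_lit 80, nat_lit 120, nat_lit 140], [nat_lit 0, nat_lit 528, nat_lit 1572], [(nat_lit 0, nat_lit 0, nat_lit 0), (nat_lit 1000, nat_lit 959, nat_lit 206), (nat_lit 966, nat_lit 1000, nat_lit 679)], (nat_lit 100, nat_lit 99, nat_lit 63)⟩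
noncomputable def p034_k41 : C1.Kn := ⟨[nat_lit 80, nat_lit 120, nat_lit 160], [nat_lit 0, nat_lit 0, nat_lit 2132], [(nat_lit 0, nat_lit 0, nat_lit 0), (nat_lit 0, nat_lit 0, nat_lit 0), (nat_lit 858, nat_lit 1000, nat_lit 713)], (nat_lit 100, nat_lit 92, nat_lit 61)⟩
noncomputable def p034_l0 : Lf2 := ⟨nat_lit 0, nat_lit 2, [nat_lit 10, nat_lit 5, nat_lit 5, nat_lit 20], true, nat_lit 0, nat_lit 20, nat_lit 0, nat_lit 288, ⟨nat_lit 0, nat_lit 0, nat_lit 1000, nat_lit 6, nat_lit 94, nat_lit 0, nat_lit 0, nat_lit 0, nat_lit 3750, nat_lit 200, nat_lit 81667, nat_lit 285, nat_lit 63505211, nat_lit 0, nat_lit 0, nat_lit 1024140, false, false⟩,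
 nat_lit 0, nat_lit 8637, nat_lit 0, nat_lit 0, nat_lit 4572, nat_lit 0, nat_lit 0, nat_lit 0, nat_lit 0, nat_lit 0, nat_lit 0, nat_lit 0, nat_lit 0, nat_lit 28423643101121, nat_lit 80, nat_lit 1000000, nat_lit 0, nat_lit 0, [(nat_lit 6, [(nat_lit 6, nat_lit 1000)])],
 ⟨p034_k0, nat_lit 0, nat_lit 0, nat_lit 285, nat_lit 0, nat_lit 223935, [nat_lit 2257066667, nat_lit 1408000000, nat_lit 211200000], [], [nat_lit 13063380325, nat_lit 13209951134, nat_lit 14583201275, nat_lit 14013660377, nat_lit 13227975335, nat_lit 12649172708, nat_lit 14800748275, nat_lit 14235187303], nat_lit 1271250, nat_lit 1271250, nat_lit 88400, nat_lit 490000, nat_lit 0, nat_lit 111251, [nat_lit 1100000, nat_lit 1442500, nat_lit 1271250], [nat_lit 9, nat_lit 40, nat_lit 20, nat_lit 80, nat_lit 2, nat_lit 232, nat_lit 25, nat_lit 8]⟩, C1.Rw.none,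
 ⟨nat_lit 6224, nat_lit 6325, ⟨.ofNat (nat_lit 164319), .ofNat (nat_lit 295942), .ofNat (nat_lit 169661), .ofNat (nat_lit 301284), .ofNat (nat_lit 168651), .ofNat (nat_lit 298759), .ofNat (nat_lit 173990), .ofNat (nat_lit 304098)⟩, ⟨.negSucc (nat_lit 103633), .negSucc (nat_lit 62500), .negSucc (nat_lit 82265), .negSucc (nat_lit 41133), .negSucc (nat_lit 98799), .negSucc (nat_lit 58140), .negSucc (nat_lit 77442), .negSucc (nat_lit 36783)⟩⟩, []⟩
noncomputable def p034_l1 : Lf2 := ⟨nat_lit 0, nat_lit 2, [nat_lit 10, nat_lit 5, nat_lit 5, nat_lit 20], true, nat_lit 20, nat_lit 40, nat_lit 0, nat_lit 288, ⟨nat_lit 0, nat_lit 0, nat_lit 1000, nat_lit 6, nat_lit 93, nat_lit 0, nat_lit 0, nat_lit 0, nat_lit 1350, nat_lit 206, nat_lit 81667, nat_lit 285, nat_lit 63555357, nat_lit 0, nat_lit 0, nat_lit 1013259, false, false⟩,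
 nat_lit 0, nat_lit 9942, nat_lit 0, nat_lit 0, nat_lit 5263, nat_lit 0, nat_lit 0, nat_lit 0, nat_lit 0, nat_lit 0, nat_lit 0, nat_lit 0, nat_lit 0, nat_lit 26269966242104, nat_lit 80, nat_lit 1000000, nat_lit 0, nat_lit 0, [(nat_lit 6, [(nat_lit 6, nat_lit 1000)])],
 ⟨p034_k0, nat_lit 0, nat_lit 0, nat_lit 267, nat_lit 0, nat_lit 205179, [nat_lit 2257066667, nat_lit 1408000000, nat_lit 211200000], [], [nat_lit 12336523684, nat_lit 12685114563, nat_lit 13697092749, nat_lit 13306469732, nat_lit 12439481799, nat_lit 12042594338, nat_lit 14068127447, nat_lit 13680253295], nat_lit 1271250, nat_lit 1271250, nat_lit 88400, nat_lit 490000, nat_lit 111251, nat_lit 230001, [nat_lit 1100000, nat_lit 1442500, nat_lit 1271250], [nat_lit 9, nat_lit 40, nat_lit 20, nat_lit 80, nat_lit 2, nat_lit 238, nat_lit 30, nat_lit 8]⟩, C1.Rw.none,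
 ⟨nat_lit 6264, nat_lit 6325, ⟨.ofNat (nat_lit 164319), .ofNat (nat_lit 295942), .ofNat (nat_lit 167524), .ofNat (nat_lit 299147), .ofNat (nat_lit 166923), .ofNat (nat_lit 297635), .ofNat (nat_lit 170127), .ofNat (nat_lit 300839)⟩, ⟨.negSucc (nat_lit 62500), .negSucc (nat_lit 21368), .negSucc (nat_lit 41133), .negSucc (nat_lit 0), .negSucc (nat_lit 59876), .negSucc (nat_lit 19029), .negSucc (nat_lit 38515), .ofNat (nat_lit 2331)⟩⟩, []⟩
noncomputable def p034_l2 : Lf2 := ⟨nat_lit 0, nat_lit 2, [nat_lit 10, nat_lit 5, nat_lit 5, nat_lit 20], true, nat_lit 20, nat_lit 40, nat_lit 0, nat_lit 288, ⟨nat_lit 0, nat_lit 0, nat_lit 1000, nat_lit 6, nat_lit 94, nat_lit 0, nat_lit 0, nat_lit 0, nat_lit 1067, nat_lit 207, nat_lit 84017, nat_lit 286, nat_lit 63474832, nat_lit 0, nat_lit 0, nat_lit 1030704, false, false⟩,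
 nat_lit 0, nat_lit 9311, nat_lit 0, nat_lit 0, nat_lit 5001, nat_lit 0, nat_lit 1205, nat_lit 0, nat_lit 0, nat_lit 0, nat_lit 0, nat_lit 0, nat_lit 0, nat_lit 29709447501500, nat_lit 80, nat_lit 1000000, nat_lit 0, nat_lit 0, [(nat_lit 6, [(nat_lit 6, nat_lit 1000)])],
 ⟨p034_k1, nat_lit 0, nat_lit 0, nat_lit 267, nat_lit 0, nat_lit 220255, [nat_lit 2257066667, nat_lit 1408000000, nat_lit 211200000], [], [nat_lit 12388965401, nat_lit 12614290820, nat_lit 13473253261, nat_lit 13225801780, nat_lit 12215972690, nat_lit 11964552816, nat_lit 13852075529, nat_lit 13606365397], nat_lit 1271250, nat_lit 1271250, nat_lit 88400, nat_lit 490000, nat_lit 111251, nat_lit 230001, [nat_lit 1100000, nat_lit 1442500, nat_lit 1271250], [nat_lit 9, nat_lit 40, nat_lit 20, nat_lit 80, nat_lit 2, nat_lit 238, nat_lit 30, nat_lit 8]⟩, C1.Rw.none,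
 ⟨nat_lit 6224, nat_lit 6265, ⟨.ofNat (nat_lit 166923), .ofNat (nat_lit 297635), .ofNat (nat_lit 172263), .ofNat (nat_lit 302975), .ofNat (nat_lit 168651), .ofNat (nat_lit 298759), .ofNat (nat_lit 173990), .ofNat (nat_lit 304098)⟩, ⟨.negSucc (nat_lit 59876), .negSucc (nat_lit 19029), .negSucc (nat_lit 38515), .ofNat (nat_lit 2331), .negSucc (nat_lit 58140), .negSucc (nat_lit 17481), .negSucc (nat_lit 36783), .ofNat (nat_lit 3874)⟩⟩, []⟩
noncomputable def p034_l3 : Lf2 := ⟨nat_lit 0, nat_lit 2, [nat_lit 10, nat_lit 5, nat_lit 5, nat_lit 20], true, nat_lit 0, nat_lit 40, nat_lit 0, nat_lit 288, ⟨nat_lit 0, nat_lit 0, nat_lit 1000, nat_lit 6, nat_lit 79, nat_lit 0, nat_lit 1, nat_lit 0, nat_lit 3267, nat_lit 201, nat_lit 60000, nat_lit 275, nat_lit 64459578, nat_lit 0, nat_lit 0, nat_lit 806314, false, false⟩,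
 nat_lit 0, nat_lit 8247, nat_lit 0, nat_lit 0, nat_lit 4473, nat_lit 0, nat_lit 938, nat_lit 0, nat_lit 0, nat_lit 0, nat_lit 0, nat_lit 0, nat_lit 0, nat_lit 27251292393958, nat_lit 80, nat_lit 1000000, nat_lit 0, nat_lit 0, [(nat_lit 6, [(nat_lit 6, nat_lit 1000)])],
 ⟨p034_k2, nat_lit 0, nat_lit 0, nat_lit 295, nat_lit 0, nat_lit 245812, [nat_lit 2257066667, nat_lit 1408000000, nat_lit 211200000], [], [nat_lit 13064727163, nat_lit 13383157909, nat_lit 12620865432, nat_lit 12281657267, nat_lit 12776952961, nat_lit 12439640094, nat_lit 13173845245, nat_lit 12839448462], nat_lit 1271250, nat_lit 1271250, nat_lit 88400, nat_lit 230001, nat_lit 0, nat_lit 230001, [nat_lit 1100000, nat_lit 1442500, nat_lit 1271250], [nat_lit 9, nat_lit 40, nat_lit 20, nat_lit 80, nat_lit 2, nat_lit 226, nat_lit 20, nat_lit 8]⟩, C1.Rw.none,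
 ⟨nat_lit 6164, nat_lit 6225, ⟨.ofNat (nat_lit 168651), .ofNat (nat_lit 217441), .ofNat (nat_lit 177193), .ofNat (nat_lit 225984), .ofNat (nat_lit 171231), .ofNat (nat_lit 219683), .ofNat (nat_lit 179771), .ofNat (nat_lit 228224)⟩, ⟨.negSucc (nat_lit 98799), .negSucc (nat_lit 17481), .negSucc (nat_lit 77442), .ofNat (nat_lit 3874), .negSucc (nat_lit 95933), .negSucc (nat_lit 15179), .negSucc (nat_lit 74582), .ofNat (nat_lit 6171)⟩⟩, [⟨nat_lit 0, nat_lit 100, nat_lit 100, nat_lit 48, nat_lit 29024490⟩]⟩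
noncomputable def p034_l4 : Lf2 := ⟨nat_lit 0, nat_lit 2, [nat_lit 10, nat_lit 5, nat_lit 5, nat_lit 20], true, nat_lit 0, nat_lit 40, nat_lit 0, nat_lit 288, ⟨nat_lit 0, nat_lit 0, nat_lit 1000, nat_lit 6, nat_lit 81, nat_lit 0, nat_lit 1, nat_lit 0, nat_lit 2817, nat_lit 202, nat_lit 60000, nat_lit 275, nat_lit 64383426, nat_lit 0, nat_lit 0, nat_lit 824604, false, false⟩,
 nat_lit 0, nat_lit 7811, nat_lit 0, nat_lit 0, nat_lit 4298, nat_lit 0, nat_lit 827, nat_lit 0, nat_lit 0, nat_lit 0, nat_lit 0, nat_lit 0, nat_lit 0, nat_lit 26307619067324, nat_lit 80, nat_lit 1000000, nat_lit 0, nat_lit 0, [(nat_lit 6, [(nat_lit 6, nat_lit 1000)])],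
 ⟨p034_k3, nat_lit 0, nat_lit 0, nat_lit 302, nat_lit 0, nat_lit 259988, [nat_lit 2257066667, nat_lit 1408000000, nat_lit 211200000], [], [nat_lit 13119334573, nat_lit 13326878872, nat_lit 12426074947, nat_lit 12208783539, nat_lit 12591711028, nat_lit 12375633720, nat_lit 12998037222, nat_lit 12783827910], nat_lit 1271250, nat_lit 1271250, nat_lit 88400, nat_lit 230001, nat_lit 0, nat_lit 230001, [nat_lit 1100000, nat_lit 1442500, nat_lit 1271250], [nat_lit 9, nat_lit 40, nat_lit 20, nat_lit 80, nat_lit 2, nat_lit 226, nat_lit 20, nat_lit 8]⟩, C1.Rw.none,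
 ⟨nat_lit 6123, nat_lit 6165, ⟨.ofNat (nat_lit 171231), .ofNat (nat_lit 219683), .ofNat (nat_lit 181906), .ofNat (nat_lit 230359), .ofNat (nat_lit 172944), .ofNat (nat_lit 221172), .ofNat (nat_lit 183618), .ofNat (nat_lit 231846)⟩, ⟨.negSucc (nat_lit 95933), .negSucc (nat_lit 15179), .negSucc (nat_lit 74582), .ofNat (nat_lit 6171), .negSucc (nat_lit 94037), .negSucc (nat_lit 13656), .negSucc (nat_lit 72689), .ofNat (nat_lit 7691)⟩⟩, [⟨nat_lit 0, nat_lit 100, nat_lit 100, nat_lit 50, nat_lit 27089326⟩]⟩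
noncomputable def p034_l5 : Lf2 := ⟨nat_lit 0, nat_lit 2, [nat_lit 10, nat_lit 5, nat_lit 5, nat_lit 20], true, nat_lit 0, nat_lit 40, nat_lit 0, nat_lit 288, ⟨nat_lit 0, nat_lit 0, nat_lit 1000, nat_lit 6, nat_lit 106, nat_lit 0, nat_lit 1, nat_lit 0, nat_lit 3267, nat_lit 201, nat_lit 106667, nat_lit 295, nat_lit 62601511, nat_lit 0, nat_lit 0, nat_lit 1211175, false, false⟩,
 nat_lit 0, nat_lit 9414, nat_lit 0, nat_lit 0, nat_lit 5106, nat_lit 0, nat_lit 1224, nat_lit 0, nat_lit 0, nat_lit 0, nat_lit 0, nat_lit 0, nat_lit 0, nat_lit 29625000448955, nat_lit 80, nat_lit 1000000, nat_lit 0, nat_lit 0, [(nat_lit 6, [(nat_lit 6, nat_lit 1000)])],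
 ⟨p034_k2, nat_lit 0, nat_lit 0, nat_lit 278, nat_lit 0, nat_lit 264247, [nat_lit 2257066667, nat_lit 1408000000, nat_lit 211200000], [], [nat_lit 12002302612, nat_lit 12574853288, nat_lit 12623558372, nat_lit 11987496293, nat_lit 11927912103, nat_lit 11291713438, nat_lit 13197564494, nat_lit 12570391961], nat_lit 1271250, nat_lit 1271250, nat_lit 230001, nat_lit 490000, nat_lit 0, nat_lit 230001, [nat_lit 1100000, nat_lit 1442500, nat_lit 1271250], [nat_lit 9, nat_lit 40, nat_lit 20, nat_lit 80, nat_lit 2, nat_lit 238, nat_lit 30, nat_lit 8]⟩, C1.Rw.none,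
 ⟨nat_lit 6123, nat_lit 6225, ⟨.ofNat (nat_lit 217441), .ofNat (nat_lit 298759), .ofNat (nat_lit 228119), .ofNat (nat_lit 309437), .ofNat (nat_lit 221172), .ofNat (nat_lit 301553), .ofNat (nat_lit 231846), .ofNat (nat_lit 312227)⟩, ⟨.negSucc (nat_lit 98799), .negSucc (nat_lit 17481), .negSucc (nat_lit 77442), .ofNat (nat_lit 3874), .negSucc (nat_lit 94037), .negSucc (nat_lit 13656), .negSucc (nat_lit 72689), .ofNat (nat_lit 7691)⟩⟩, []⟩
noncomputable def p034_l6 : Lf2 := ⟨nat_lit 0, nat_lit 2, [nat_lit 10, nat_lit 5, nat_lit 5, nat_lit 20], true, nat_lit 0, nat_lit 40, nat_lit 0, nat_lit 288, ⟨nat_lit 0, nat_lit 0, nat_lit 1000, nat_lit 6, nat_lit 99, nat_lit 0, nat_lit 1, nat_lit 0, nat_lit 2400, nat_lit 203, nat_lit 93750, nat_lit 290, nat_lit 63108028, nat_lit 0, nat_lit 0, nat_lit 1108378, false, false⟩,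
 nat_lit 0, nat_lit 7798, nat_lit 0, nat_lit 0, nat_lit 4331, nat_lit 0, nat_lit 821, nat_lit 0, nat_lit 0, nat_lit 0, nat_lit 0, nat_lit 0, nat_lit 0, nat_lit 0, nat_lit 80, nat_lit 1000000, nat_lit 0, nat_lit 0, [(nat_lit 6, [(nat_lit 6, nat_lit 1000)])],
 ⟨p034_k4, nat_lit 0, nat_lit 0, nat_lit 307, nat_lit 0, nat_lit 280373, [nat_lit 2257066667, nat_lit 1408000000, nat_lit 211200000], [], [nat_lit 12985938198, nat_lit 13507426147, nat_lit 13199770018, nat_lit 12660250852, nat_lit 12233715262, nat_lit 11848912055, nat_lit 13833832736, nat_lit 13301853841], nat_lit 1271250, nat_lit 1271250, nat_lit 111251, nat_lit 490000, nat_lit 0, nat_lit 230001, [nat_lit 1100000, nat_lit 1442500, nat_lit 1271250], [nat_lit 9, nat_lit 40, nat_lit 20, nat_lit 80, nat_lit 2, nat_lit 238, nat_lit 30, nat_lit 8]⟩, C1.Rw.none,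
 ⟨nat_lit 6020, nat_lit 6124, ⟨.ofNat (nat_lit 180982), .ofNat (nat_lit 301553), .ofNat (nat_lit 191656), .ofNat (nat_lit 312227), .ofNat (nat_lit 185145), .ofNat (nat_lit 304325), .ofNat (nat_lit 195817), .ofNat (nat_lit 314996)⟩, ⟨.negSucc (nat_lit 94037), .negSucc (nat_lit 13656), .negSucc (nat_lit 72689), .ofNat (nat_lit 7691), .negSucc (nat_lit 89345), .negSucc (nat_lit 9892), .negSucc (nat_lit 68003), .ofNat (nat_lit 11449)⟩⟩, []⟩
noncomputable def p034_l7 : Lf2 := ⟨nat_lit 0, nat_lit 2, [nat_lit 10, nat_lit 5, nat_lit 5, nat_lit 20], true, nat_lit 0, nat_lit 40, nat_lit 0, nat_lit 288, ⟨nat_lit 0, nat_lit 0, nat_lit 1000, nat_lit 6, nat_lit 101, nat_lit 0, nat_lit 1, nat_lit 0, nat_lit 2017, nat_lit 204, nat_lit 96267, nat_lit 291, nat_lit 63005535, nat_lit 0, nat_lit 0, nat_lit 1129581, false, false⟩,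
 nat_lit 0, nat_lit 7177, nat_lit 0, nat_lit 0, nat_lit 4081, nat_lit 0, nat_lit 661, nat_lit 0, nat_lit 0, nat_lit 0, nat_lit 0, nat_lit 0, nat_lit 0, nat_lit 0, nat_lit 80, nat_lit 1000000, nat_lit 0, nat_lit 0, [(nat_lit 6, [(nat_lit 6, nat_lit 1000)])],
 ⟨p034_k5, nat_lit 0, nat_lit 0, nat_lit 315, nat_lit 0, nat_lit 296261, [nat_lit 2257066667, nat_lit 1408000000, nat_lit 211200000], [], [nat_lit 13131191897, nat_lit 13635710096, nat_lit 12999875977, nat_lit 12793785137, nat_lit 12389078555, nat_lit 12701367999, nat_lit 13657549216, nat_lit 13156277945], nat_lit 1271250, nat_lit 1271250, nat_lit 111251, nat_lit 490000, nat_lit 0, nat_lit 230001, [nat_lit 1100000, nat_lit 1442500, nat_lit 1271250], [nat_lit 9, nat_lit 40, nat_lit 20, nat_lit 80, nat_lit 2, nat_lit 238, nat_lit 30, nat_lit 8]⟩, C1.Rw.none,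
 ⟨nat_lit 5916, nat_lit 6021, ⟨.ofNat (nat_lit 185145), .ofNat (nat_lit 304325), .ofNat (nat_lit 195817), .ofNat (nat_lit 314996), .ofNat (nat_lit 189276), .ofNat (nat_lit 307076), .ofNat (nat_lit 199946), .ofNat (nat_lit 317746)⟩, ⟨.negSucc (nat_lit 89345), .negSucc (nat_lit 9892), .negSucc (nat_lit 68003), .ofNat (nat_lit 11449), .negSucc (nat_lit 84722), .negSucc (nat_lit 6188), .negSucc (nat_lit 63383), .ofNat (nat_lit 15150)⟩⟩, [⟨nat_lit 0, nat_lit 100, nat_lit 99, nat_lit 55, nat_lit 21620050⟩]⟩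
noncomputable def p034_l8 : Lf2 := ⟨nat_lit 0, nat_lit 4, [nat_lit 38, nat_lit 5, nat_lit 5, nat_lit 20], true, nat_lit 0, nat_lit 40, nat_lit 0, nat_lit 288, ⟨nat_lit 0, nat_lit 0, nat_lit 1000, nat_lit 6, nat_lit 94, nat_lit 0, nat_lit 0, nat_lit 0, nat_lit 3750, nat_lit 200, nat_lit 81667, nat_lit 285, nat_lit 63505211, nat_lit 0, nat_lit 0, nat_lit 1024140, false, false⟩,
 nat_lit 0, nat_lit 7846, nat_lit 0, nat_lit 0, nat_lit 4153, nat_lit 0, nat_lit 502, nat_lit 0, nat_lit 0, nat_lit 0, nat_lit 0, nat_lit 0, nat_lit 0, nat_lit 0, nat_lit 80, nat_lit 1000000, nat_lit 0, nat_lit 0, [(nat_lit 6, [(nat_lit 6, nat_lit 1000)])],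
 ⟨p034_k6, nat_lit 0, nat_lit 0, nat_lit 272, nat_lit 0, nat_lit 134812, [nat_lit 2257066667, nat_lit 1408000000, nat_lit 211200000], [], [nat_lit 12097957412, nat_lit 12595316347, nat_lit 11281770157, nat_lit 11525410931, nat_lit 11409951722, nat_lit 11659342894, nat_lit 10676317003, nat_lit 10912761335], nat_lit 1271250, nat_lit 1271250, nat_lit 88400, nat_lit 490000, nat_lit 0, nat_lit 230001, [nat_lit 1100000, nat_lit 1442500, nat_lit 1271250], [nat_lit 9, nat_lit 40, nat_lit 20, nat_lit 80, nat_lit 2, nat_lit 238, nat_lit 30, nat_lit 8]⟩, C1.Rw.none,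
 ⟨nat_lit 6224, nat_lit 6325, ⟨.ofNat (nat_lit 164319), .ofNat (nat_lit 295942), .ofNat (nat_lit 169661), .ofNat (nat_lit 301284), .ofNat (nat_lit 168651), .ofNat (nat_lit 298759), .ofNat (nat_lit 173990), .ofNat (nat_lit 304098)⟩, ⟨.negSucc (nat_lit 103633), .negSucc (nat_lit 21368), .negSucc (nat_lit 82265), .negSucc (nat_lit 0), .negSucc (nat_lit 98799), .negSucc (nat_lit 17481), .negSucc (nat_lit 77442), .ofNat (nat_lit 3874)⟩⟩, [⟨nat_lit 0, nat_lit 100, nat_lit 100, nat_lit 45, nat_lit 173404519⟩]⟩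
noncomputable def p034_l9 : Lf2 := ⟨nat_lit 0, nat_lit 4, [nat_lit 38, nat_lit 5, nat_lit 5, nat_lit 20], true, nat_lit 0, nat_lit 40, nat_lit 0, nat_lit 288, ⟨nat_lit 0, nat_lit 0, nat_lit 1000, nat_lit 6, nat_lit 96, nat_lit 0, nat_lit 1, nat_lit 0, nat_lit 3267, nat_lit 201, nat_lit 86400, nat_lit 287, nat_lit 63327526, nat_lit 0, nat_lit 0, nat_lit 1062243, false, false⟩,
 nat_lit 0, nat_lit 8318, nat_lit 0, nat_lit 0, nat_lit 4511, nat_lit 0, nat_lit 0, nat_lit 0, nat_lit 0, nat_lit 0, nat_lit 0, nat_lit 0, nat_lit 0, nat_lit 28195421550454, nat_lit 80, nat_lit 1000000, nat_lit 0, nat_lit 0, [(nat_lit 6, [(nat_lit 6, nat_lit 1000)])],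
 ⟨p034_k7, nat_lit 0, nat_lit 0, nat_lit 273, nat_lit 0, nat_lit 179119, [nat_lit 2257066667, nat_lit 1408000000, nat_lit 211200000], [], [nat_lit 13120469697, nat_lit 13653762304, nat_lit 14115652835, nat_lit 13553710798, nat_lit 13091635100, nat_lit 12524670967, nat_lit 14729977942, nat_lit 14175889556], nat_lit 1271250, nat_lit 1271250, nat_lit 88400, nat_lit 490000, nat_lit 0, nat_lit 230001, [nat_lit 1100000, nat_lit 1442500, nat_lit 1271250], [nat_lit 9, nat_lit 40, nat_lit 20, nat_lit 80, nat_lit 2, nat_lit 238, nat_lit 30, nat_lit 8]⟩, C1.Rw.none,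
 ⟨nat_lit 6123, nat_lit 6225, ⟨.ofNat (nat_lit 168651), .ofNat (nat_lit 298759), .ofNat (nat_lit 179329), .ofNat (nat_lit 309437), .ofNat (nat_lit 172944), .ofNat (nat_lit 301553), .ofNat (nat_lit 183618), .ofNat (nat_lit 312227)⟩, ⟨.negSucc (nat_lit 98799), .negSucc (nat_lit 17481), .negSucc (nat_lit 77442), .ofNat (nat_lit 3874), .negSucc (nat_lit 94037), .negSucc (nat_lit 13656), .negSucc (nat_lit 72689), .ofNat (nat_lit 7691)⟩⟩, []⟩
noncomputable def p034_l10 : Lf2 := ⟨nat_lit 0, nat_lit 5, [nat_lit 4, nat_lit 5, nat_lit 5, nat_lit 20], true, nat_lit 0, nat_lit 40, nat_lit 0, nat_lit 288, ⟨nat_lit 0, nat_lit 0, nat_lit 1000, nat_lit 6, nat_lit 95, nat_lit 0, nat_lit 0, nat_lit 0, nat_lit 3267, nat_lit 201, nat_lit 84017, nat_lit 286, nat_lit 63455040, nat_lit 0, nat_lit 0, nat_lit 1034969, false, false⟩,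
 nat_lit 0, nat_lit 9543, nat_lit 0, nat_lit 0, nat_lit 5052, nat_lit 0, nat_lit 64, nat_lit 0, nat_lit 0, nat_lit 0, nat_lit 0, nat_lit 0, nat_lit 0, nat_lit 0, nat_lit 147, nat_lit 1000000, nat_lit 0, nat_lit 0, [(nat_lit 6, [(nat_lit 6, nat_lit 1000)])],
 ⟨p034_k8, nat_lit 0, nat_lit 0, nat_lit 307, nat_lit 0, nat_lit 84543, [nat_lit 3329066667, nat_lit 3042400001, nat_lit 177599999], [], [nat_lit 13738329430, nat_lit 14484015528, nat_lit 14429231997, nat_lit 13170561561, nat_lit 13370347996, nat_lit 12758647128, nat_lit 14998101789, nat_lit 13757022417], nat_lit 1271250, nat_lit 1271250, nat_lit 88400, nat_lit 490000, nat_lit 0, nat_lit 230001, [nat_lit 1100000, nat_lit 1442500, nat_lit 1271250], [nat_lit 11, nat_lit 40, nat_lit 20, nat_lit 80, nat_lit 1, nat_lit 317, nat_lit 100, nat_lit 10]⟩, C1.Rw.none,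
 ⟨nat_lit 6123, nat_lit 6325, ⟨.ofNat (nat_lit 164319), .ofNat (nat_lit 295942), .ofNat (nat_lit 169661), .ofNat (nat_lit 301284), .ofNat (nat_lit 172944), .ofNat (nat_lit 301553), .ofNat (nat_lit 178281), .ofNat (nat_lit 306890)⟩, ⟨.negSucc (nat_lit 103633), .negSucc (nat_lit 21368), .negSucc (nat_lit 82265), .negSucc (nat_lit 0), .negSucc (nat_lit 94037), .negSucc (nat_lit 13656), .negSucc (nat_lit 72689), .ofNat (nat_lit 7691)⟩⟩, []⟩
noncomputable def p034_l11 : Lf2 := ⟨nat_lit 0, nat_lit 5, [nat_lit 4, nat_lit 5, nat_lit 5, nat_lit 20], true, nat_lit 0, nat_lit 40, nat_lit 0, nat_lit 284, ⟨nat_lit 0, nat_lit 0, nat_lit 1000, nat_lit 6, nat_lit 99, nat_lit 0, nat_lit 1, nat_lit 0, nat_lit 3267, nat_lit 201, nat_lit 91267, nat_lit 289, nat_lit 63131957, nat_lit 0, nat_lit 0, nat_lit 1103397, false, false⟩,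
 nat_lit 0, nat_lit 8885, nat_lit 0, nat_lit 0, nat_lit 4819, nat_lit 0, nat_lit 145, nat_lit 0, nat_lit 0, nat_lit 0, nat_lit 0, nat_lit 0, nat_lit 0, nat_lit 25140197088834, nat_lit 147, nat_lit 1000000, nat_lit 0, nat_lit 0, [(nat_lit 6, [(nat_lit 6, nat_lit 1000)])],
 ⟨p034_k9, nat_lit 0, nat_lit 0, nat_lit 309, nat_lit 0, nat_lit 106276, [nat_lit 3329066667, nat_lit 3042400001, nat_lit 177599999], [], [nat_lit 13324345554, nat_lit 13687659047, nat_lit 14130568277, nat_lit 13530258218, nat_lit 13127185303, nat_lit 12522393574, nat_lit 14724022380, nat_lit 14132102200], nat_lit 1271250, nat_lit 1271250, nat_lit 111251, nat_lit 490000, nat_lit 0, nat_lit 230001, [nat_lit 1100000, nat_lit 1442500, nat_lit 1271250], [nat_lit 11, nat_lit 40, nat_lit 20, nat_lit 80, nat_lit 1, nat_lit 317, nat_lit 100, nat_lit 10]⟩, C1.Rw.none,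
 ⟨nat_lit 6123, nat_lit 6225, ⟨.ofNat (nat_lit 182121), .ofNat (nat_lit 304098), .ofNat (nat_lit 187461), .ofNat (nat_lit 309437), .ofNat (nat_lit 186319), .ofNat (nat_lit 306890), .ofNat (nat_lit 191656), .ofNat (nat_lit 312227)⟩, ⟨.negSucc (nat_lit 98799), .negSucc (nat_lit 17481), .negSucc (nat_lit 77442), .ofNat (nat_lit 3874), .negSucc (nat_lit 94037), .negSucc (nat_lit 13656), .negSucc (nat_lit 72689), .ofNat (nat_lit 7691)⟩⟩, []⟩
noncomputable def p034_l12 : Lf2 := ⟨nat_lit 0, nat_lit 5, [nat_lit 4, nat_lit 5, nat_lit 5, nat_lit 20], true, nat_lit 0, nat_lit 40, nat_lit 0, nat_lit 288, ⟨nat_lit 0, nat_lit 0, nat_lit 1000, nat_lit 6, nat_lit 99, nat_lit 0, nat_lit 1, nat_lit 0, nat_lit 2400, nat_lit 203, nat_lit 93750, nat_lit 290, nat_lit 63108028, nat_lit 0, nat_lit 0, nat_lit 1108378, false, false⟩,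
 nat_lit 0, nat_lit 8140, nat_lit 0, nat_lit 0, nat_lit 4522, nat_lit 0, nat_lit 0, nat_lit 0, nat_lit 0, nat_lit 0, nat_lit 0, nat_lit 0, nat_lit 0, nat_lit 0, nat_lit 80, nat_lit 1000000, nat_lit 0, nat_lit 0, [(nat_lit 6, [(nat_lit 6, nat_lit 1000)])],
 ⟨p034_k10, nat_lit 0, nat_lit 0, nat_lit 276, nat_lit 0, nat_lit 203663, [nat_lit 2257066667, nat_lit 1408000000, nat_lit 211200000], [], [nat_lit 13260416276, nat_lit 13794869114, nat_lit 13533948429, nat_lit 12970636106, nat_lit 12551529557, nat_lit 12113764719, nat_lit 14155400945, nat_lit 13599961424], nat_lit 1271250, nat_lit 1271250, nat_lit 111251, nat_lit 490000, nat_lit 0, nat_lit 230001, [nat_lit 1100000, nat_lit 1442500, nat_lit 1271250], [nat_lit 9, nat_lit 40, nat_lit 20, nat_lit 80, nat_lit 2, nat_lit 238, nat_lit 30, nat_lit 8]⟩, C1.Rw.none,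
 ⟨nat_lit 6020, nat_lit 6124, ⟨.ofNat (nat_lit 180982), .ofNat (nat_lit 301553), .ofNat (nat_lit 191656), .ofNat (nat_lit 312227), .ofNat (nat_lit 185145), .ofNat (nat_lit 304325), .ofNat (nat_lit 195817), .ofNat (nat_lit 314996)⟩, ⟨.negSucc (nat_lit 94037), .negSucc (nat_lit 13656), .negSucc (nat_lit 72689), .ofNat (nat_lit 7691), .negSucc (nat_lit 89345), .negSucc (nat_lit 9892), .negSucc (nat_lit 68003), .ofNat (nat_lit 11449)⟩⟩, []⟩
noncomputable def p034_l13 : Lf2 := ⟨nat_lit 0, nat_lit 5, [nat_lit 4, nat_lit 5, nat_lit 5, nat_lit 20], true, nat_lit 0, nat_lit 40, nat_lit 0, nat_lit 288, ⟨nat_lit 0, nat_lit 0, nat_lit 1000, nat_lit 6, nat_lit 101, nat_lit 0, nat_lit 1, nat_lit 0, nat_lit 2017, nat_lit 204, nat_lit 96267, nat_lit 291, nat_lit 63005535, nat_lit 0, nat_lit 0, nat_lit 1129581, false, false⟩,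
 nat_lit 0, nat_lit 7218, nat_lit 0, nat_lit 0, nat_lit 4105, nat_lit 0, nat_lit 361, nat_lit 0, nat_lit 0, nat_lit 0, nat_lit 0, nat_lit 0, nat_lit 0, nat_lit 0, nat_lit 80, nat_lit 1000000, nat_lit 0, nat_lit 0, [(nat_lit 6, [(nat_lit 6, nat_lit 1000)])],
 ⟨p034_k11, nat_lit 0, nat_lit 0, nat_lit 286, nat_lit 0, nat_lit 222566, [nat_lit 2257066667, nat_lit 1408000000, nat_lit 211200000], [], [nat_lit 13167310385, nat_lit 13673457680, nat_lit 13325018365, nat_lit 12813652357, nat_lit 12387257752, nat_lit 12677897834, nat_lit 13981148860, nat_lit 13476929657], nat_lit 1271250, nat_lit 1271250, nat_lit 111251, nat_lit 490000, nat_lit 0, nat_lit 230001, [nat_lit 1100000, nat_lit 1442500, nat_lit 1271250], [nat_lit 9, nat_lit 40, nat_lit 20, nat_lit 80, nat_lit 2, nat_lit 238, nat_lit 30, nat_lit 8]⟩, C1.Rw.none,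
 ⟨nat_lit 5916, nat_lit 6021, ⟨.ofNat (nat_lit 185145), .ofNat (nat_lit 304325), .ofNat (nat_lit 195817), .ofNat (nat_lit 314996), .ofNat (nat_lit 189276), .ofNat (nat_lit 307076), .ofNat (nat_lit 199946), .ofNat (nat_lit 317746)⟩, ⟨.negSucc (nat_lit 89345), .negSucc (nat_lit 9892), .negSucc (nat_lit 68003), .ofNat (nat_lit 11449), .negSucc (nat_lit 84722), .negSucc (nat_lit 6188), .negSucc (nat_lit 63383), .ofNat (nat_lit 15150)⟩⟩, []⟩
noncomputable def p034_l14 : Lf2 := ⟨nat_lit 0, nat_lit 2, [nat_lit 10, nat_lit 5, nat_lit 5, nat_lit 20], true, nat_lit 40, nat_lit 80, nat_lit 0, nat_lit 288, ⟨nat_lit 0, nat_lit 0, nat_lit 1000, nat_lit 6, nat_lit 94, nat_lit 0, nat_lit 15, nat_lit 262, nat_lit 1667, nat_lit 225, nat_lit 81667, nat_lit 285, nat_lit 63505211, nat_lit 0, nat_lit 0, nat_lit 1024140, false, false⟩,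
 nat_lit 0, nat_lit 8230, nat_lit 0, nat_lit 0, nat_lit 4356, nat_lit 0, nat_lit 482, nat_lit 0, nat_lit 0, nat_lit 0, nat_lit 0, nat_lit 0, nat_lit 0, nat_lit 0, nat_lit 80, nat_lit 1000000, nat_lit 0, nat_lit 0, [(nat_lit 6, [(nat_lit 6, nat_lit 1000)])],
 ⟨p034_k0, nat_lit 0, nat_lit 0, nat_lit 259, nat_lit 0, nat_lit 223935, [nat_lit 2257066667, nat_lit 1408000000, nat_lit 211200000], [], [nat_lit 10488575690, nat_lit 10844272896, nat_lit 9569540635, nat_lit 9907090785, nat_lit 9596964703, nat_lit 9942681693, nat_lit 8824095947, nat_lit 9151501045], nat_lit 1271250, nat_lit 1271250, nat_lit 88400, nat_lit 490000, nat_lit 230001, nat_lit 490000, [nat_lit 1100000, nat_lit 1442500, nat_lit 1271250], [nat_lit 9, nat_lit 40, nat_lit 20, nat_lit 80, nat_lit 2, nat_lit 249, nat_lit 40, nat_lit 9]⟩, C1.Rw.none,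
 ⟨nat_lit 6224, nat_lit 6325, ⟨.ofNat (nat_lit 164319), .ofNat (nat_lit 295942), .ofNat (nat_lit 169661), .ofNat (nat_lit 301284), .ofNat (nat_lit 168651), .ofNat (nat_lit 298759), .ofNat (nat_lit 173990), .ofNat (nat_lit 304098)⟩, ⟨.negSucc (nat_lit 21368), .ofNat (nat_lit 60895), .negSucc (nat_lit 0), .ofNat (nat_lit 82263), .negSucc (nat_lit 17481), .ofNat (nat_lit 63835), .ofNat (nat_lit 3874), .ofNat (nat_lit 85192)⟩⟩, [⟨nat_lit 0, nat_lit 100, nat_lit 100, nat_lit 45, nat_lit 176898127⟩]⟩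
noncomputable def p034_l15 : Lf2 := ⟨nat_lit 0, nat_lit 1, [nat_lit 19, nat_lit 5, nat_lit 5, nat_lit 20], true, nat_lit 40, nat_lit 80, nat_lit 0, nat_lit 288, ⟨nat_lit 0, nat_lit 0, nat_lit 1000, nat_lit 6, nat_lit 96, nat_lit 0, nat_lit 16, nat_lit 334, nat_lit 2017, nat_lit 226, nat_lit 86400, nat_lit 287, nat_lit 63327526, nat_lit 0, nat_lit 0, nat_lit 1062243, false, false⟩,
 nat_lit 0, nat_lit 7731, nat_lit 0, nat_lit 0, nat_lit 4193, nat_lit 0, nat_lit 931, nat_lit 0, nat_lit 0, nat_lit 0, nat_lit 0, nat_lit 0, nat_lit 0, nat_lit 22824506054659, nat_lit 10, nat_lit 1000000, nat_lit 0, nat_lit 0, [(nat_lit 6, [(nat_lit 6, nat_lit 1000)])],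
 ⟨p034_k12, nat_lit 0, nat_lit 0, nat_lit 259, nat_lit 0, nat_lit 260110, [nat_lit 1137066667, nat_lit 8000000], [], [nat_lit 10862631991, nat_lit 11211628773, nat_lit 10006431834, nat_lit 10337732971, nat_lit 10021665183, nat_lit 10360920968, nat_lit 9306207489, nat_lit 9627610845], nat_lit 1271250, nat_lit 1271250, nat_lit 88400, nat_lit 490000, nat_lit 230001, nat_lit 490000, [nat_lit 1100000, nat_lit 1442500], [nat_lit 31, nat_lit 40, nat_lit 20, nat_lit 80, nat_lit 3, nat_lit 249, nat_lit 40, nat_lit 10]⟩, C1.Rw.none,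
 ⟨nat_lit 6123, nat_lit 6225, ⟨.ofNat (nat_lit 168651), .ofNat (nat_lit 298759), .ofNat (nat_lit 179329), .ofNat (nat_lit 309437), .ofNat (nat_lit 172944), .ofNat (nat_lit 301553), .ofNat (nat_lit 183618), .ofNat (nat_lit 312227)⟩, ⟨.negSucc (nat_lit 17481), .ofNat (nat_lit 63835), .ofNat (nat_lit 3874), .ofNat (nat_lit 85192), .negSucc (nat_lit 13656), .ofNat (nat_lit 66723), .ofNat (nat_lit 7691), .ofNat (nat_lit 88071)⟩⟩, [⟨nat_lit 0, nat_lit 100, nat_lit 100, nat_lit 50, nat_lit 171187173⟩]⟩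
noncomputable def p034_l16 : Lf2 := ⟨nat_lit 0, nat_lit 2, [nat_lit 10, nat_lit 5, nat_lit 5, nat_lit 20], true, nat_lit 40, nat_lit 80, nat_lit 0, nat_lit 288, ⟨nat_lit 0, nat_lit 0, nat_lit 1000, nat_lit 6, nat_lit 96, nat_lit 0, nat_lit 16, nat_lit 309, nat_lit 2017, nat_lit 226, nat_lit 86400, nat_lit 287, nat_lit 63327526, nat_lit 0, nat_lit 0, nat_lit 1062243, false, false⟩,
 nat_lit 0, nat_lit 7822, nat_lit 0, nat_lit 0, nat_lit 4242, nat_lit 0, nat_lit 409, nat_lit 0, nat_lit 0, nat_lit 0, nat_lit 0, nat_lit 0, nat_lit 0, nat_lit 23257273380391, nat_lit 80, nat_lit 1000000, nat_lit 0, nat_lit 0, [(nat_lit 6, [(nat_lit 6, nat_lit 1000)])],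
 ⟨p034_k2, nat_lit 0, nat_lit 0, nat_lit 256, nat_lit 0, nat_lit 215677, [nat_lit 2257066667, nat_lit 1408000000, nat_lit 211200000], [], [nat_lit 10911791354, nat_lit 11257306439, nat_lit 10025750993, nat_lit 10358930668, nat_lit 10047104099, nat_lit 10388302210, nat_lit 9308883063, nat_lit 9632090624], nat_lit 1271250, nat_lit 1271250, nat_lit 88400, nat_lit 490000, nat_lit 230001, nat_lit 490000, [nat_lit 1100000, nat_lit 1442500, nat_lit 1271250], [nat_lit 9, nat_lit 40, nat_lit 20, nat_lit 80, nat_lit 2, nat_lit 249, nat_lit 40, nat_lit 9]⟩, C1.Rw.none,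
 ⟨nat_lit 6123, nat_lit 6225, ⟨.ofNat (nat_lit 168651), .ofNat (nat_lit 298759), .ofNat (nat_lit 179329), .ofNat (nat_lit 309437), .ofNat (nat_lit 172944), .ofNat (nat_lit 301553), .ofNat (nat_lit 183618), .ofNat (nat_lit 312227)⟩, ⟨.negSucc (nat_lit 17481), .ofNat (nat_lit 63835), .ofNat (nat_lit 3874), .ofNat (nat_lit 85192), .negSucc (nat_lit 13656), .ofNat (nat_lit 66723), .ofNat (nat_lit 7691), .ofNat (nat_lit 88071)⟩⟩, [⟨nat_lit 0, nat_lit 100, nat_lit 100, nat_lit 50, nat_lit 172989939⟩]⟩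
noncomputable def p034_l17 : Lf2 := ⟨nat_lit 0, nat_lit 2, [nat_lit 10, nat_lit 5, nat_lit 5, nat_lit 20], true, nat_lit 40, nat_lit 60, nat_lit 0, nat_lit 288, ⟨nat_lit 0, nat_lit 0, nat_lit 1000, nat_lit 6, nat_lit 84, nat_lit 1000, nat_lit 9, nat_lit 1000, nat_lit 600, nat_lit 221, nat_lit 66150, nat_lit 278, nat_lit 64161597, nat_lit 0, nat_lit 0, nat_lit 876919, false, false⟩,
 nat_lit 0, nat_lit 8283, nat_lit 0, nat_lit 0, nat_lit 4601, nat_lit 0, nat_lit 940, nat_lit 0, nat_lit 0, nat_lit 0, nat_lit 0, nat_lit 0, nat_lit 0, nat_lit 0, nat_lit 80, nat_lit 1000000, nat_lit 0, nat_lit 0, [(nat_lit 6, [(nat_lit 6, nat_lit 1000)])],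
 ⟨p034_k4, nat_lit 0, nat_lit 0, nat_lit 282, nat_lit 0, nat_lit 304209, [nat_lit 2257066667, nat_lit 1408000000, nat_lit 211200000], [], [nat_lit 11627331412, nat_lit 12274809640, nat_lit 11977683421, nat_lit 11177118693, nat_lit 12137956736, nat_lit 11222540887, nat_lit 12505057535, nat_lit 11366752881], nat_lit 1271250, nat_lit 1271250, nat_lit 111251, nat_lit 230001, nat_lit 230001, nat_lit 356250, [nat_lit 1100000, nat_lit 1442500, nat_lit 1271250], [nat_lit 9, nat_lit 40, nat_lit 20, nat_lit 80, nat_lit 2, nat_lit 232, nat_lit 25, nat_lit 8]⟩, C1.Rw.none,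
 ⟨nat_lit 5916, nat_lit 6124, ⟨.ofNat (nat_lit 180982), .ofNat (nat_lit 221172), .ofNat (nat_lit 191656), .ofNat (nat_lit 231846), .ofNat (nat_lit 189276), .ofNat (nat_lit 228543), .ofNat (nat_lit 199946), .ofNat (nat_lit 239212)⟩, ⟨.negSucc (nat_lit 13656), .ofNat (nat_lit 26533), .ofNat (nat_lit 7691), .ofNat (nat_lit 47881), .negSucc (nat_lit 6188), .ofNat (nat_lit 33078), .ofNat (nat_lit 15150), .ofNat (nat_lit 54417)⟩⟩, [⟨nat_lit 0, nat_lit 100, nat_lit 99, nat_lit 50, nat_lit 20737438⟩]⟩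
noncomputable def p034_l18 : Lf2 := ⟨nat_lit 0, nat_lit 2, [nat_lit 10, nat_lit 5, nat_lit 5, nat_lit 20], true, nat_lit 40, nat_lit 60, nat_lit 0, nat_lit 288, ⟨nat_lit 0, nat_lit 0, nat_lit 1000, nat_lit 6, nat_lit 108, nat_lit 1000, nat_lit 9, nat_lit 1000, nat_lit 600, nat_lit 221, nat_lit 109350, nat_lit 296, nat_lit 62450027, nat_lit 0, nat_lit 0, nat_lit 1240989, false, false⟩,
 nat_lit 0, nat_lit 9382, nat_lit 0, nat_lit 0, nat_lit 5212, nat_lit 0, nat_lit 1209, nat_lit 0, nat_lit 0, nat_lit 0, nat_lit 0, nat_lit 0, nat_lit 0, nat_lit 0, nat_lit 80, nat_lit 1000000, nat_lit 0, nat_lit 0, [(nat_lit 6, [(nat_lit 6, nat_lit 1000)])],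
 ⟨p034_k4, nat_lit 0, nat_lit 0, nat_lit 262, nat_lit 0, nat_lit 304209, [nat_lit 2257066667, nat_lit 1408000000, nat_lit 211200000], [], [nat_lit 10589147709, nat_lit 11491200340, nat_lit 11872781255, nat_lit 10592396123, nat_lit 11119493574, nat_lit 10312245870, nat_lit 12440232651, nat_lit 11168921611], nat_lit 1271250, nat_lit 1271250, nat_lit 230001, nat_lit 490000, nat_lit 230001, nat_lit 356250, [nat_lit 1100000, nat_lit 1442500, nat_lit 1271250], [nat_lit 9, nat_lit 40, nat_lit 20, nat_lit 80, nat_lit 2, nat_lit 249, nat_lit 40, nat_lit 8]⟩, C1.Rw.none,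
 ⟨nat_lit 5916, nat_lit 6124, ⟨.ofNat (nat_lit 221172), .ofNat (nat_lit 301553), .ofNat (nat_lit 231846), .ofNat (nat_lit 312227), .ofNat (nat_lit 228543), .ofNat (nat_lit 307076), .ofNat (nat_lit 239212), .ofNat (nat_lit 317746)⟩, ⟨.negSucc (nat_lit 13656), .ofNat (nat_lit 26533), .ofNat (nat_lit 7691), .ofNat (nat_lit 47881), .negSucc (nat_lit 6188), .ofNat (nat_lit 33078), .ofNat (nat_lit 15150), .ofNat (nat_lit 54417)⟩⟩, []⟩
noncomputable def p034_l19 : Lf2 := ⟨nat_lit 0, nat_lit 2, [nat_lit 10, nat_lit 5, nat_lit 5, nat_lit 20], true, nat_lit 60, nat_lit 80, nat_lit 0, nat_lit 288, ⟨nat_lit 0, nat_lit 0, nat_lit 1000, nat_lit 6, nat_lit 99, nat_lit 1000, nat_lit 24, nat_lit 1000, nat_lit 5400, nat_lit 233, nat_lit 93750, nat_lit 290, nat_lit 62556782, nat_lit 0, nat_lit 0, nat_lit 1364658, false, false⟩,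
 nat_lit 0, nat_lit 7882, nat_lit 0, nat_lit 0, nat_lit 4378, nat_lit 0, nat_lit 840, nat_lit 0, nat_lit 0, nat_lit 0, nat_lit 0, nat_lit 0, nat_lit 0, nat_lit 0, nat_lit 80, nat_lit 1000000, nat_lit 0, nat_lit 0, [(nat_lit 6, [(nat_lit 6, nat_lit 1000)])],
 ⟨p034_k4, nat_lit 0, nat_lit 0, nat_lit 249, nat_lit 0, nat_lit 280373, [nat_lit 2257066667, nat_lit 1408000000, nat_lit 211200000], [], [nat_lit 10175573400, nat_lit 10526707098, nat_lit 9473432003, nat_lit 9806736365, nat_lit 9724909745, nat_lit 10071003064, nat_lit 9086811605, nat_lit 9415026754], nat_lit 1271250, nat_lit 1271250, nat_lit 111251, nat_lit 490000, nat_lit 356250, nat_lit 490000, [nat_lit 1100000, nat_lit 1442500, nat_lit 1271250], [nat_lit 9, nat_lit 40, nat_lit 20, nat_lit 80, nat_lit 2, nat_lit 249, nat_lit 40, nat_lit 8]⟩, C1.Rw.none,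
 ⟨nat_lit 6020, nat_lit 6124, ⟨.ofNat (nat_lit 180982), .ofNat (nat_lit 301553), .ofNat (nat_lit 191656), .ofNat (nat_lit 312227), .ofNat (nat_lit 185145), .ofNat (nat_lit 304325), .ofNat (nat_lit 195817), .ofNat (nat_lit 314996)⟩, ⟨.ofNat (nat_lit 26533), .ofNat (nat_lit 66723), .ofNat (nat_lit 47881), .ofNat (nat_lit 88071), .ofNat (nat_lit 29833), .ofNat (nat_lit 69559), .ofNat (nat_lit 51175), .ofNat (nat_lit 90902)⟩⟩, [⟨nat_lit 0, nat_lit 100, nat_lit 99, nat_lit 52, nat_lit 174494864⟩]⟩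
noncomputable def p034_l20 : Lf2 := ⟨nat_lit 0, nat_lit 2, [nat_lit 10, nat_lit 5, nat_lit 5, nat_lit 20], true, nat_lit 60, nat_lit 80, nat_lit 0, nat_lit 288, ⟨nat_lit 0, nat_lit 0, nat_lit 1000, nat_lit 6, nat_lit 101, nat_lit 1000, nat_lit 25, nat_lit 1000, nat_lit 6017, nat_lit 234, nat_lit 96267, nat_lit 291, nat_lit 62409262, nat_lit 0, nat_lit 0, nat_lit 1403423, false, false⟩,
 nat_lit 0, nat_lit 8671, nat_lit 0, nat_lit 0, nat_lit 4931, nat_lit 0, nat_lit 1027, nat_lit 0, nat_lit 0, nat_lit 0, nat_lit 0, nat_lit 0, nat_lit 0, nat_lit 0, nat_lit 80, nat_lit 1000000, nat_lit 0, nat_lit 0, [(nat_lit 6, [(nat_lit 6, nat_lit 1000)])],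
 ⟨p034_k5, nat_lit 0, nat_lit 0, nat_lit 259, nat_lit 0, nat_lit 296261, [nat_lit 2257066667, nat_lit 1408000000, nat_lit 211200000], [], [nat_lit 10848527426, nat_lit 11400934412, nat_lit 12085384049, nat_lit 11483999289, nat_lit 11100910701, nat_lit 10491034759, nat_lit 12831714382, nat_lit 12234622057], nat_lit 1271250, nat_lit 1271250, nat_lit 111251, nat_lit 490000, nat_lit 356250, nat_lit 490000, [nat_lit 1100000, nat_lit 1442500, nat_lit 1271250], [nat_lit 9, nat_lit 40, nat_lit 20, nat_lit 80, nat_lit 2, nat_lit 249, nat_lit 40, nat_lit 8]⟩, C1.Rw.none,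
 ⟨nat_lit 5916, nat_lit 6021, ⟨.ofNat (nat_lit 185145), .ofNat (nat_lit 304325), .ofNat (nat_lit 195817), .ofNat (nat_lit 314996), .ofNat (nat_lit 189276), .ofNat (nat_lit 307076), .ofNat (nat_lit 199946), .ofNat (nat_lit 317746)⟩, ⟨.ofNat (nat_lit 29833), .ofNat (nat_lit 69559), .ofNat (nat_lit 51175), .ofNat (nat_lit 90902), .ofNat (nat_lit 33078), .ofNat (nat_lit 72344), .ofNat (nat_lit 54417), .ofNat (nat_lit 93684)⟩⟩, []⟩
noncomputable def p034_l21 : Lf2 := ⟨nat_lit 0, nat_lit 5, [nat_lit 4, nat_lit 5, nat_lit 5, nat_lit 20], true, nat_lit 40, nat_lit 80, nat_lit 0, nat_lit 288, ⟨nat_lit 0, nat_lit 0, nat_lit 1000, nat_lit 6, nat_lit 95, nat_lit 0, nat_lit 15, nat_lit 220, nat_lit 1667, nat_lit 225, nat_lit 84017, nat_lit 286, nat_lit 63455040, nat_lit 0, nat_lit 0, nat_lit 1034969, false, false⟩,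
 nat_lit 0, nat_lit 8347, nat_lit 0, nat_lit 0, nat_lit 4418, nat_lit 0, nat_lit 415, nat_lit 0, nat_lit 0, nat_lit 0, nat_lit 0, nat_lit 0, nat_lit 0, nat_lit 0, nat_lit 147, nat_lit 1000000, nat_lit 0, nat_lit 0, [(nat_lit 6, [(nat_lit 6, nat_lit 1000)])],
 ⟨p034_k8, nat_lit 0, nat_lit 0, nat_lit 301, nat_lit 0, nat_lit 164884, [nat_lit 3329066667, nat_lit 3042400001, nat_lit 177599999], [], [nat_lit 10735037897, nat_lit 11418004344, nat_lit 9751846372, nat_lit 10431700522, nat_lit 9786933094, nat_lit 10483282349, nat_lit 8985436508, nat_lit 9644812446], nat_lit 1271250, nat_lit 1271250, nat_lit 88400, nat_lit 490000, nat_lit 230001, nat_lit 490000, [nat_lit 1100000, nat_lit 1442500, nat_lit 1271250], [nat_lit 11, nat_lit 40, nat_lit 20, nat_lit 80, nat_lit 1, nat_lit 345, nat_lit 125, nat_lit 10]⟩, C1.Rw.none,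
 ⟨nat_lit 6123, nat_lit 6325, ⟨.ofNat (nat_lit 164319), .ofNat (nat_lit 295942), .ofNat (nat_lit 169661), .ofNat (nat_lit 301284), .ofNat (nat_lit 172944), .ofNat (nat_lit 301553), .ofNat (nat_lit 178281), .ofNat (nat_lit 306890)⟩, ⟨.negSucc (nat_lit 21368), .ofNat (nat_lit 60895), .negSucc (nat_lit 0), .ofNat (nat_lit 82263), .negSucc (nat_lit 13656), .ofNat (nat_lit 66723), .ofNat (nat_lit 7691), .ofNat (nat_lit 88071)⟩⟩, [⟨nat_lit 0, nat_lit 100, nat_lit 99, nat_lit 47, nat_lit 180421952⟩]⟩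
noncomputable def p034_l22 : Lf2 := ⟨nat_lit 0, nat_lit 5, [nat_lit 4, nat_lit 5, nat_lit 5, nat_lit 20], true, nat_lit 40, nat_lit 80, nat_lit 0, nat_lit 284, ⟨nat_lit 0, nat_lit 0, nat_lit 1000, nat_lit 6, nat_lit 99, nat_lit 0, nat_lit 16, nat_lit 227, nat_lit 2017, nat_lit 226, nat_lit 91267, nat_lit 289, nat_lit 63131957, nat_lit 0, nat_lit 0, nat_lit 1103397, false, false⟩,
 nat_lit 0, nat_lit 8210, nat_lit 0, nat_lit 0, nat_lit 4453, nat_lit 0, nat_lit 414, nat_lit 0, nat_lit 0, nat_lit 0, nat_lit 0, nat_lit 0, nat_lit 0, nat_lit 0, nat_lit 147, nat_lit 1000000, nat_lit 0, nat_lit 0, [(nat_lit 6, [(nat_lit 6, nat_lit 1000)])],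
 ⟨p034_k9, nat_lit 0, nat_lit 0, nat_lit 303, nat_lit 0, nat_lit 184376, [nat_lit 3329066667, nat_lit 3042400001, nat_lit 177599999], [], [nat_lit 10743445080, nat_lit 11086353006, nat_lit 9945742490, nat_lit 10287011377, nat_lit 9808240090, nat_lit 10157302321, nat_lit 9157205245, nat_lit 9488181931], nat_lit 1271250, nat_lit 1271250, nat_lit 111251, nat_lit 490000, nat_lit 230001, nat_lit 490000, [nat_lit 1100000, nat_lit 1442500, nat_lit 1271250], [nat_lit 11, nat_lit 40, nat_lit 20, nat_lit 80, nat_lit 1, nat_lit 345, nat_lit 125, nat_lit 10]⟩, C1.Rw.none,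
 ⟨nat_lit 6123, nat_lit 6225, ⟨.ofNat (nat_lit 182121), .ofNat (nat_lit 304098), .ofNat (nat_lit 187461), .ofNat (nat_lit 309437), .ofNat (nat_lit 186319), .ofNat (nat_lit 306890), .ofNat (nat_lit 191656), .ofNat (nat_lit 312227)⟩, ⟨.negSucc (nat_lit 17481), .ofNat (nat_lit 63835), .ofNat (nat_lit 3874), .ofNat (nat_lit 85192), .negSucc (nat_lit 13656), .ofNat (nat_lit 66723), .ofNat (nat_lit 7691), .ofNat (nat_lit 88071)⟩⟩, [⟨nat_lit 0, nat_lit 100, nat_lit 100, nat_lit 50, nat_lit 170873691⟩]⟩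
noncomputable def p034_l23 : Lf2 := ⟨nat_lit 0, nat_lit 5, [nat_lit 4, nat_lit 5, nat_lit 5, nat_lit 20], true, nat_lit 40, nat_lit 80, nat_lit 0, nat_lit 288, ⟨nat_lit 0, nat_lit 0, nat_lit 1000, nat_lit 6, nat_lit 100, nat_lit 0, nat_lit 17, nat_lit 537, nat_lit 2400, nat_lit 227, nat_lit 93750, nat_lit 290, nat_lit 63057110, nat_lit 0, nat_lit 0, nat_lit 1118938, false, false⟩,
 nat_lit 0, nat_lit 7450, nat_lit 0, nat_lit 0, nat_lit 4138, nat_lit 0, nat_lit 344, nat_lit 0, nat_lit 0, nat_lit 0, nat_lit 0, nat_lit 0, nat_lit 0, nat_lit 0, nat_lit 80, nat_lit 1000000, nat_lit 0, nat_lit 0, [(nat_lit 6, [(nat_lit 6, nat_lit 1000)])],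
 ⟨p034_k10, nat_lit 0, nat_lit 0, nat_lit 252, nat_lit 0, nat_lit 228670, [nat_lit 2257066667, nat_lit 1408000000, nat_lit 211200000], [], [nat_lit 11199796426, nat_lit 11832882007, nat_lit 10480163681, nat_lit 11138548831, nat_lit 10339505553, nat_lit 11000819103, nat_lit 9788806565, nat_lit 10427563023], nat_lit 1271250, nat_lit 1271250, nat_lit 111251, nat_lit 490000, nat_lit 230001, nat_lit 490000, [nat_lit 1100000, nat_lit 1442500, nat_lit 1271250], [nat_lit 9, nat_lit 40, nat_lit 20, nat_lit 80, nat_lit 2, nat_lit 249, nat_lit 40, nat_lit 9]⟩, C1.Rw.none,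
 ⟨nat_lit 5916, nat_lit 6124, ⟨.ofNat (nat_lit 180982), .ofNat (nat_lit 301553), .ofNat (nat_lit 191656), .ofNat (nat_lit 312227), .ofNat (nat_lit 189276), .ofNat (nat_lit 307076), .ofNat (nat_lit 199946), .ofNat (nat_lit 317746)⟩, ⟨.negSucc (nat_lit 13656), .ofNat (nat_lit 66723), .ofNat (nat_lit 7691), .ofNat (nat_lit 88071), .negSucc (nat_lit 6188), .ofNat (nat_lit 72344), .ofNat (nat_lit 15150), .ofNat (nat_lit 93684)⟩⟩, [⟨nat_lit 0, nat_lit 100, nat_lit 99, nat_lit 55, nat_lit 169935111⟩]⟩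
noncomputable def b_VL_600_600_5_19 : St := ⟨true, nat_lit 1, nat_lit 1, nat_lit 1, nat_lit 40, nat_lit 240, nat_lit 260, nat_lit 240, nat_lit 250, nat_lit 16, nat_lit 80, nat_lit 20, nat_lit 40, nat_lit 0, nat_lit 80, nat_lit 0, nat_lit 288, nat_lit 0, nat_lit 20, nat_lit 0, nat_lit 0, nat_lit 0, nat_lit 0⟩
theorem d_VL_600_600_5_19 (h : EB TB.env) : Dead b_VL_600_600_5_19 := chkB_sound0 h (T :=
(.spl (nat_lit 4) (nat_lit 40)
(.spl (nat_lit 6) (nat_lit 8)
(.spl (nat_lit 0) (nat_lit 250)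
(.spl (nat_lit 0) (nat_lit 245)
(.ord (.spl (nat_lit 4) (nat_lit 20)
(.leaf p034_l0)
(.spl (nat_lit 0) (nat_lit 243)
(.ord (.leaf p034_l1))
(.leaf p034_l2))))
(.spl (nat_lit 2) (nat_lit 40)
(.spl (nat_lit 0) (nat_lit 248)
(.ord (.leaf p034_l3))
(.leaf p034_l4))
(.leaf p034_l5)))
(.trZ (nat_lit 0) (nat_lit 100) (nat_lit 99) (nat_lit 45) (nat_lit 20) (.spl (nat_lit 0) (nat_lit 255)
(.leaf p034_l6)
(.leaf p034_l7))))
(.spl (nat_lit 0) (nat_lit 250)
(.spl (nat_lit 6) (nat_lit 16)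
(.spl (nat_lit 0) (nat_lit 245)
(.ord (.leaf p034_l8))
(.leaf p034_l9))
(.spl (nat_lit 1) (nat_lit 245)
(.leaf p034_l10)
(.ord (.trZ (nat_lit 0) (nat_lit 100) (nat_lit 100) (nat_lit 45) (nat_lit 20) (.trX (nat_lit 19) (nat_lit 100) (nat_lit 94) (nat_lit 62) (nat_lit 284) (.leaf p034_l11))))))
(.trZ (nat_lit 0) (nat_lit 100) (nat_lit 99) (nat_lit 45) (nat_lit 20) (.spl (nat_lit 0) (nat_lit 255)
(.leaf p034_l12)
(.leaf p034_l13)))))
(.spl (nat_lit 6) (nat_lit 8)
(.spl (nat_lit 0) (nat_lit 250)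
(.spl (nat_lit 0) (nat_lit 245)
(.ord (.leaf p034_l14))
(.spl (nat_lit 6) (nat_lit 4)
(.leaf p034_l15)
(.leaf p034_l16)))
(.trZ (nat_lit 0) (nat_lit 100) (nat_lit 99) (nat_lit 45) (nat_lit 20) (.spl (nat_lit 4) (nat_lit 60)
(.spl (nat_lit 2) (nat_lit 40)
(.leaf p034_l17)
(.leaf p034_l18))
(.spl (nat_lit 0) (nat_lit 255)
(.leaf p034_l19)
(.leaf p034_l20)))))
(.spl (nat_lit 0) (nat_lit 250)
(.spl (nat_lit 1) (nat_lit 245)
(.leaf p034_l21)
(.ord (.trZ (nat_lit 0) (nat_lit 100) (nat_lit 100) (nat_lit 45) (nat_lit 20) (.trX (nat_lit 19) (nat_lit 100) (nat_lit 94) (nat_lit 62) (nat_lit 284) (.leaf p034_l22)))))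
(.trZ (nat_lit 0) (nat_lit 100) (nat_lit 99) (nat_lit 45) (nat_lit 20) (.leaf p034_l23)))))) (by decide +kernel)
noncomputable def p034_l24 : Lf2 := ⟨nat_lit 0, nat_lit 2, [nat_lit 10, nat_lit 5, nat_lit 5, nat_lit 20], true, nat_lit 0, nat_lit 40, nat_lit 0, nat_lit 280, ⟨nat_lit 0, nat_lit 0, nat_lit 1000, nat_lit 6, nat_lit 103, nat_lit 0, nat_lit 1, nat_lit 0, nat_lit 2817, nat_lit 202, nat_lit 101400, nat_lit 293, nat_lit 62800649, nat_lit 0, nat_lit 0, nat_lit 1171346, false, false⟩,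
 nat_lit 0, nat_lit 7848, nat_lit 0, nat_lit 0, nat_lit 4360, nat_lit 0, nat_lit 832, nat_lit 0, nat_lit 0, nat_lit 0, nat_lit 0, nat_lit 0, nat_lit 0, nat_lit 25395165088396, nat_lit 80, nat_lit 1000000, nat_lit 0, nat_lit 0, [(nat_lit 6, [(nat_lit 6, nat_lit 1000)])],
 ⟨p034_k4, nat_lit 0, nat_lit 0, nat_lit 304, nat_lit 0, nat_lit 284763, [nat_lit 2257066667, nat_lit 1408000000, nat_lit 211200000], [], [nat_lit 12775514961, nat_lit 13089406559, nat_lit 13138594227, nat_lit 12812715183, nat_lit 12228545639, nat_lit 11900706296, nat_lit 13770742307, nat_lit 13449417719], nat_lit 1271250, nat_lit 1271250, nat_lit 134400, nat_lit 490000, nat_lit 0, nat_lit 230001, [nat_lit 1100000, nat_lit 1442500, nat_lit 1271250], [nat_lit 9, nat_lit 40, nat_lit 20, nat_lit 80, nat_lit 2, nat_lit 238, nat_lit 30, nat_lit 8]⟩, C1.Rw.none,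
 ⟨nat_lit 6062, nat_lit 6124, ⟨.ofNat (nat_lit 199694), .ofNat (nat_lit 312227), .ofNat (nat_lit 202896), .ofNat (nat_lit 315429), .ofNat (nat_lit 202138), .ofNat (nat_lit 313891), .ofNat (nat_lit 205340), .ofNat (nat_lit 317092)⟩, ⟨.negSucc (nat_lit 94037), .negSucc (nat_lit 13656), .negSucc (nat_lit 72689), .ofNat (nat_lit 7691), .negSucc (nat_lit 91214), .negSucc (nat_lit 11391), .negSucc (nat_lit 69869), .ofNat (nat_lit 9953)⟩⟩, []⟩
noncomputable def p034_l25 : Lf2 := ⟨nat_lit 0, nat_lit 2, [nat_lit 10, nat_lit 5, nat_lit 5, nat_lit 20], true, nat_lit 0, nat_lit 40, nat_lit 0, nat_lit 280, ⟨nat_lit 0, nat_lit 0, nat_lit 1000, nat_lit 6, nat_lit 105, nat_lit 0, nat_lit 1, nat_lit 0, nat_lit 2400, nat_lit 203, nat_lit 101400, nat_lit 293, nat_lit 62715792, nat_lit 0, nat_lit 0, nat_lit 1188408, false, false⟩,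
 nat_lit 0, nat_lit 7469, nat_lit 0, nat_lit 0, nat_lit 4208, nat_lit 0, nat_lit 735, nat_lit 0, nat_lit 0, nat_lit 0, nat_lit 0, nat_lit 0, nat_lit 0, nat_lit 25372820128125, nat_lit 80, nat_lit 1000000, nat_lit 0, nat_lit 0, [(nat_lit 6, [(nat_lit 6, nat_lit 1000)])],
 ⟨p034_k13, nat_lit 0, nat_lit 0, nat_lit 310, nat_lit 0, nat_lit 298173, [nat_lit 2257066667, nat_lit 1408000000, nat_lit 211200000], [], [nat_lit 12875554804, nat_lit 13080689228, nat_lit 12998024862, nat_lit 12788346113, nat_lit 12100296057, nat_lit 12044834355, nat_lit 13644603963, nat_lit 13437855665], nat_lit 1271250, nat_lit 1271250, nat_lit 134400, nat_lit 490000, nat_lit 0, nat_lit 230001, [nat_lit 1100000, nat_lit 1442500, nat_lit 1271250], [nat_lit 9, nat_lit 40, nat_lit 20, nat_lit 80, nat_lit 2, nat_lit 238, nat_lit 30, nat_lit 8]⟩, C1.Rw.none,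
 ⟨nat_lit 6020, nat_lit 6063, ⟨.ofNat (nat_lit 202138), .ofNat (nat_lit 313891), .ofNat (nat_lit 207475), .ofNat (nat_lit 319227), .ofNat (nat_lit 203762), .ofNat (nat_lit 314996), .ofNat (nat_lit 209097), .ofNat (nat_lit 320331)⟩, ⟨.negSucc (nat_lit 91214), .negSucc (nat_lit 11391), .negSucc (nat_lit 69869), .ofNat (nat_lit 9953), .negSucc (nat_lit 89345), .negSucc (nat_lit 9892), .negSucc (nat_lit 68003), .ofNat (nat_lit 11449)⟩⟩, []⟩
noncomputable def p034_l26 : Lf2 := ⟨nat_lit 0, nat_lit 2, [nat_lit 10, nat_lit 5, nat_lit 5, nat_lit 20], true, nat_lit 0, nat_lit 40, nat_lit 0, nat_lit 280, ⟨nat_lit 0, nat_lit 0, nat_lit 1000, nat_lit 6, nat_lit 90, nat_lit 0, nat_lit 1, nat_lit 0, nat_lit 2017, nat_lit 204, nat_lit 77067, nat_lit 283, nat_lit 63769420, nat_lit 0, nat_lit 0, nat_lit 966156, false, false⟩,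
 nat_lit 0, nat_lit 7294, nat_lit 0, nat_lit 0, nat_lit 4148, nat_lit 0, nat_lit 677, nat_lit 0, nat_lit 0, nat_lit 0, nat_lit 0, nat_lit 0, nat_lit 0, nat_lit 21638325250042, nat_lit 80, nat_lit 1000000, nat_lit 0, nat_lit 0, [(nat_lit 6, [(nat_lit 6, nat_lit 1000)])],
 ⟨p034_k5, nat_lit 0, nat_lit 0, nat_lit 321, nat_lit 0, nat_lit 322064, [nat_lit 2257066667, nat_lit 1408000000, nat_lit 211200000], [], [nat_lit 12994645124, nat_lit 13299903353, nat_lit 12461341509, nat_lit 12653342266, nat_lit 12176468181, nat_lit 12364736043, nat_lit 12263496344, nat_lit 12091137158], nat_lit 1271250, nat_lit 1271250, nat_lit 134400, nat_lit 230001, nat_lit 0, nat_lit 230001, [nat_lit 1100000, nat_lit 1442500, nat_lit 1271250], [nat_lit 9, nat_lit 40, nat_lit 20, nat_lit 80, nat_lit 2, nat_lit 226, nat_lit 20, nat_lit 8]⟩, C1.Rw.none,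
 ⟨nat_lit 5958, nat_lit 6021, ⟨.ofNat (nat_lit 203762), .ofNat (nat_lit 235543), .ofNat (nat_lit 212299), .ofNat (nat_lit 244080), .ofNat (nat_lit 206188), .ofNat (nat_lit 237748), .ofNat (nat_lit 214724), .ofNat (nat_lit 246284)⟩, ⟨.negSucc (nat_lit 89345), .negSucc (nat_lit 9892), .negSucc (nat_lit 68003), .ofNat (nat_lit 11449), .negSucc (nat_lit 86563), .negSucc (nat_lit 7663), .negSucc (nat_lit 65223), .ofNat (nat_lit 13676)⟩⟩, [⟨nat_lit 0, nat_lit 100, nat_lit 100, nat_lit 58, nat_lit 197110372⟩]⟩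
noncomputable def p034_l27 : Lf2 := ⟨nat_lit 0, nat_lit 2, [nat_lit 10, nat_lit 5, nat_lit 5, nat_lit 20], false, nat_lit 0, nat_lit 40, nat_lit 0, nat_lit 280, ⟨nat_lit 105, nat_lit 0, nat_lit 895, nat_lit 6, nat_lit 93, nat_lit 0, nat_lit 1, nat_lit 0, nat_lit 2017, nat_lit 204, nat_lit 81667, nat_lit 285, nat_lit 63577769, nat_lit 0, nat_lit 0, nat_lit 1008378, false, false⟩,
 nat_lit 3778, nat_lit 4020, nat_lit 0, nat_lit 0, nat_lit 4497, nat_lit 2098, nat_lit 894, nat_lit 0, nat_lit 0, nat_lit 0, nat_lit 0, nat_lit 0, nat_lit 0, nat_lit 2810286396785, nat_lit 0, nat_lit 895000, nat_lit 0, nat_lit 0, [(nat_lit 6, [(nat_lit 6, nat_lit 895)])],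
 ⟨p034_k14, nat_lit 0, nat_lit 0, nat_lit 272, nat_lit 0, nat_lit 334731, [nat_lit 1366714667, nat_lit 484410000], [], [nat_lit 13552312203, nat_lit 13765170804, nat_lit 13125356998, nat_lit 13258504553, nat_lit 12695496494, nat_lit 12825628367, nat_lit 12467889129, nat_lit 12584379525], nat_lit 1271250, nat_lit 1271250, nat_lit 157850, nat_lit 230001, nat_lit 0, nat_lit 230001, [nat_lit 1100000, nat_lit 1442500], [nat_lit 31, nat_lit 40, nat_lit 20, nat_lit 80, nat_lit 3, nat_lit 226, nat_lit 20, nat_lit 9]⟩, ⟨p034_k4, nat_lit 0, nat_lit 0, nat_lit 329, nat_lit 0, nat_lit 349135, [nat_lit 492240000, nat_lit 656250000, nat_lit 836640000], [], [nat_lit 4669506520, nat_lit 4120724268, nat_lit 4008856810, nat_lit 3462560688, nat_lit 3265293438, nat_lit 3154762027, nat_lit 3319556437, nat_lit 2843302044], nat_lit 1271250, nat_lit 1271250, nat_lit 157850, nat_lit 230001, nat_lit 0, nat_lit 1977500, [nat_lit 1100000, nat_lit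 1442500, nat_lit 1271250], [nat_lit 9, nat_lit 40, nat_lit 20, nat_lit 80, nat_lit 2, nat_lit 317, nat_lit 100, nat_lit 11]⟩,
 ⟨nat_lit 5916, nat_lit 5959, ⟨.ofNat (nat_lit 214078), .ofNat (nat_lit 237748), .ofNat (nat_lit 224748), .ofNat (nat_lit 248418), .ofNat (nat_lit 215652), .ofNat (nat_lit 239212), .ofNat (nat_lit 226322), .ofNat (nat_lit 249882)⟩, ⟨.negSucc (nat_lit 86563), .negSucc (nat_lit 7663), .negSucc (nat_lit 65223), .ofNat (nat_lit 13676), .negSucc (nat_lit 84722), .negSucc (nat_lit 6188), .negSucc (nat_lit 63383), .ofNat (nat_lit 15150)⟩⟩, [⟨nat_lit 0, nat_lit 100, nat_lit 100, nat_lit 60, nat_lit 406228664⟩, ⟨nat_lit 7, nat_lit 100, nat_lit 100, nat_lit 55, nat_lit 2139820⟩]⟩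
noncomputable def p034_l28 : Lf2 := ⟨nat_lit 0, nat_lit 2, [nat_lit 10, nat_lit 5, nat_lit 5, nat_lit 20], true, nat_lit 0, nat_lit 40, nat_lit 0, nat_lit 280, ⟨nat_lit 0, nat_lit 0, nat_lit 1000, nat_lit 6, nat_lit 113, nat_lit 0, nat_lit 1, nat_lit 0, nat_lit 2017, nat_lit 204, nat_lit 120417, nat_lit 300, nat_lit 62057596, nat_lit 0, nat_lit 0, nat_lit 1316377, false, false⟩,
 nat_lit 0, nat_lit 7594, nat_lit 0, nat_lit 0, nat_lit 4319, nat_lit 0, nat_lit 586, nat_lit 0, nat_lit 0, nat_lit 0, nat_lit 0, nat_lit 0, nat_lit 0, nat_lit 26414418606146, nat_lit 80, nat_lit 1000000, nat_lit 0, nat_lit 0, [(nat_lit 6, [(nat_lit 6, nat_lit 1000)])],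
 ⟨p034_k5, nat_lit 0, nat_lit 0, nat_lit 314, nat_lit 0, nat_lit 340012, [nat_lit 2257066667, nat_lit 1408000000, nat_lit 211200000], [], [nat_lit 12241886486, nat_lit 12761042360, nat_lit 12635454658, nat_lit 12267961265, nat_lit 12028304292, nat_lit 11823323949, nat_lit 13277829019, nat_lit 12747324089], nat_lit 1271250, nat_lit 1271250, nat_lit 230001, nat_lit 490000, nat_lit 0, nat_lit 230001, [nat_lit 1100000, nat_lit 1442500, nat_lit 1271250], [nat_lit 9, nat_lit 40, nat_lit 20, nat_lit 80, nat_lit 2, nat_lit 238, nat_lit 30, nat_lit 8]⟩, C1.Rw.none,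
 ⟨nat_lit 5916, nat_lit 6021, ⟨.ofNat (nat_lit 235543), .ofNat (nat_lit 314996), .ofNat (nat_lit 246214), .ofNat (nat_lit 325667), .ofNat (nat_lit 239212), .ofNat (nat_lit 317746), .ofNat (nat_lit 249882), .ofNat (nat_lit 328416)⟩, ⟨.negSucc (nat_lit 89345), .negSucc (nat_lit 9892), .negSucc (nat_lit 68003), .ofNat (nat_lit 11449), .negSucc (nat_lit 84722), .negSucc (nat_lit 6188), .negSucc (nat_lit 63383), .ofNat (nat_lit 15150)⟩⟩, []⟩
noncomputable def p034_l29 : Lf2 := ⟨nat_lit 0, nat_lit 2, [nat_lit 10, nat_lit 5, nat_lit 5, nat_lit 20], true, nat_lit 40, nat_lit 60, nat_lit 0, nat_lit 280, ⟨nat_lit 0, nat_lit 0, nat_lit 1000, nat_lit 6, nat_lit 88, nat_lit 1000, nat_lit 9, nat_lit 1000, nat_lit 600, nat_lit 221, nat_lit 72600, nat_lit 281, nat_lit 63896723, nat_lit 0, nat_lit 0, nat_lit 937621, false, false⟩,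
 nat_lit 0, nat_lit 8264, nat_lit 0, nat_lit 0, nat_lit 4591, nat_lit 0, nat_lit 934, nat_lit 0, nat_lit 0, nat_lit 0, nat_lit 0, nat_lit 0, nat_lit 0, nat_lit 28318839567340, nat_lit 80, nat_lit 1000000, nat_lit 0, nat_lit 0, [(nat_lit 6, [(nat_lit 6, nat_lit 1000)])],
 ⟨p034_k4, nat_lit 0, nat_lit 0, nat_lit 275, nat_lit 0, nat_lit 302965, [nat_lit 2257066667, nat_lit 1408000000, nat_lit 211200000], [], [nat_lit 11707787783, nat_lit 11498808882, nat_lit 12001726886, nat_lit 11429696320, nat_lit 12221743349, nat_lit 11650559708, nat_lit 12529052362, nat_lit 11961137054], nat_lit 1271250, nat_lit 1271250, nat_lit 134400, nat_lit 230001, nat_lit 230001, nat_lit 356250, [nat_lit 1100000, nat_lit 1442500, nat_lit 1271250], [nat_lit 9, nat_lit 40, nat_lit 20, nat_lit 80, nat_lit 2, nat_lit 232, nat_lit 25, nat_lit 8]⟩, C1.Rw.none,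
 ⟨nat_lit 6020, nat_lit 6124, ⟨.ofNat (nat_lit 199694), .ofNat (nat_lit 231846), .ofNat (nat_lit 205031), .ofNat (nat_lit 237183), .ofNat (nat_lit 203762), .ofNat (nat_lit 235543), .ofNat (nat_lit 209097), .ofNat (nat_lit 240879)⟩, ⟨.negSucc (nat_lit 13656), .ofNat (nat_lit 26533), .ofNat (nat_lit 7691), .ofNat (nat_lit 47881), .negSucc (nat_lit 9892), .ofNat (nat_lit 29833), .ofNat (nat_lit 11449), .ofNat (nat_lit 51175)⟩⟩, [⟨nat_lit 0, nat_lit 100, nat_lit 100, nat_lit 53, nat_lit 18292637⟩]⟩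
noncomputable def p034_l30 : Lf2 := ⟨nat_lit 0, nat_lit 2, [nat_lit 10, nat_lit 5, nat_lit 5, nat_lit 20], true, nat_lit 60, nat_lit 80, nat_lit 0, nat_lit 280, ⟨nat_lit 0, nat_lit 0, nat_lit 1000, nat_lit 6, nat_lit 88, nat_lit 1000, nat_lit 24, nat_lit 1000, nat_lit 5400, nat_lit 233, nat_lit 72600, nat_lit 281, nat_lit 63358852, nat_lit 0, nat_lit 0, nat_lit 1187562, false, false⟩,
 nat_lit 0, nat_lit 7972, nat_lit 0, nat_lit 0, nat_lit 4428, nat_lit 0, nat_lit 861, nat_lit 0, nat_lit 0, nat_lit 0, nat_lit 0, nat_lit 0, nat_lit 0, nat_lit 0, nat_lit 80, nat_lit 1000000, nat_lit 0, nat_lit 0, [(nat_lit 6, [(nat_lit 6, nat_lit 1000)])],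
 ⟨p034_k4, nat_lit 0, nat_lit 0, nat_lit 255, nat_lit 0, nat_lit 302965, [nat_lit 2257066667, nat_lit 1408000000, nat_lit 211200000], [], [nat_lit 9996964745, nat_lit 10349166812, nat_lit 9611985425, nat_lit 9960395718, nat_lit 9543095341, nat_lit 9890205501, nat_lit 9182257523, nat_lit 9525517945], nat_lit 1271250, nat_lit 1271250, nat_lit 134400, nat_lit 230001, nat_lit 356250, nat_lit 490000, [nat_lit 1100000, nat_lit 1442500, nat_lit 1271250], [nat_lit 9, nat_lit 40, nat_lit 20, nat_lit 80, nat_lit 2, nat_lit 238, nat_lit 30, nat_lit 8]⟩, C1.Rw.none,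
 ⟨nat_lit 6020, nat_lit 6124, ⟨.ofNat (nat_lit 199694), .ofNat (nat_lit 231846), .ofNat (nat_lit 205031), .ofNat (nat_lit 237183), .ofNat (nat_lit 203762), .ofNat (nat_lit 235543), .ofNat (nat_lit 209097), .ofNat (nat_lit 240879)⟩, ⟨.ofNat (nat_lit 26533), .ofNat (nat_lit 66723), .ofNat (nat_lit 47881), .ofNat (nat_lit 88071), .ofNat (nat_lit 29833), .ofNat (nat_lit 69559), .ofNat (nat_lit 51175), .ofNat (nat_lit 90902)⟩⟩, [⟨nat_lit 0, nat_lit 100, nat_lit 100, nat_lit 55, nat_lit 233163234⟩]⟩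
noncomputable def p034_l31 : Lf2 := ⟨nat_lit 0, nat_lit 2, [nat_lit 10, nat_lit 5, nat_lit 5, nat_lit 20], true, nat_lit 40, nat_lit 60, nat_lit 0, nat_lit 280, ⟨nat_lit 0, nat_lit 0, nat_lit 1000, nat_lit 6, nat_lit 90, nat_lit 1000, nat_lit 10, nat_lit 1000, nat_lit 600, nat_lit 221, nat_lit 77067, nat_lit 283, nat_lit 63769420, nat_lit 0, nat_lit 0, nat_lit 966156, false, false⟩,
 nat_lit 0, nat_lit 7831, nat_lit 0, nat_lit 0, nat_lit 4454, nat_lit 0, nat_lit 820, nat_lit 0, nat_lit 0, nat_lit 0, nat_lit 0, nat_lit 0, nat_lit 0, nat_lit 24049275484167, nat_lit 80, nat_lit 1000000, nat_lit 0, nat_lit 0, [(nat_lit 6, [(nat_lit 6, nat_lit 1000)])],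
 ⟨p034_k5, nat_lit 0, nat_lit 0, nat_lit 285, nat_lit 0, nat_lit 322064, [nat_lit 2257066667, nat_lit 1408000000, nat_lit 211200000], [], [nat_lit 11505135668, nat_lit 11699991448, nat_lit 11464146751, nat_lit 11385613338, nat_lit 11682077623, nat_lit 11355481087, nat_lit 11994798348, nat_lit 11664217457], nat_lit 1271250, nat_lit 1271250, nat_lit 134400, nat_lit 230001, nat_lit 230001, nat_lit 356250, [nat_lit 1100000, nat_lit 1442500, nat_lit 1271250], [nat_lit 9, nat_lit 40, nat_lit 20, nat_lit 80, nat_lit 2, nat_lit 232, nat_lit 25, nat_lit 8]⟩, C1.Rw.none,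
 ⟨nat_lit 5958, nat_lit 6021, ⟨.ofNat (nat_lit 203762), .ofNat (nat_lit 235543), .ofNat (nat_lit 212299), .ofNat (nat_lit 244080), .ofNat (nat_lit 206188), .ofNat (nat_lit 237748), .ofNat (nat_lit 214724), .ofNat (nat_lit 246284)⟩, ⟨.negSucc (nat_lit 9892), .ofNat (nat_lit 29833), .ofNat (nat_lit 11449), .ofNat (nat_lit 51175), .negSucc (nat_lit 7663), .ofNat (nat_lit 31786), .ofNat (nat_lit 13676), .ofNat (nat_lit 53126)⟩⟩, [⟨nat_lit 0, nat_lit 100, nat_lit 100, nat_lit 58, nat_lit 140109920⟩]⟩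
noncomputable def p034_l32 : Lf2 := ⟨nat_lit 0, nat_lit 2, [nat_lit 10, nat_lit 5, nat_lit 5, nat_lit 20], true, nat_lit 40, nat_lit 60, nat_lit 0, nat_lit 280, ⟨nat_lit 0, nat_lit 0, nat_lit 1000, nat_lit 6, nat_lit 93, nat_lit 146, nat_lit 10, nat_lit 1000, nat_lit 817, nat_lit 222, nat_lit 81667, nat_lit 285, nat_lit 63577769, nat_lit 0, nat_lit 0, nat_lit 1008378, false, false⟩,
 nat_lit 0, nat_lit 7761, nat_lit 0, nat_lit 0, nat_lit 4476, nat_lit 0, nat_lit 798, nat_lit 0, nat_lit 0, nat_lit 0, nat_lit 0, nat_lit 0, nat_lit 0, nat_lit 21943862792354, nat_lit 10, nat_lit 1000000, nat_lit 0, nat_lit 0, [(nat_lit 6, [(nat_lit 6, nat_lit 1000)])],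
 ⟨p034_k14, nat_lit 0, nat_lit 0, nat_lit 252, nat_lit 0, nat_lit 334731, [nat_lit 1137066667, nat_lit 8000000], [], [nat_lit 11572871865, nat_lit 11702703523, nat_lit 11334889403, nat_lit 11463557193, nat_lit 11228951679, nat_lit 11356700115, nat_lit 11445689530, nat_lit 11224213693], nat_lit 1271250, nat_lit 1271250, nat_lit 157850, nat_lit 230001, nat_lit 230001, nat_lit 356250, [nat_lit 1100000, nat_lit 1442500], [nat_lit 31, nat_lit 40, nat_lit 20, nat_lit 80, nat_lit 3, nat_lit 232, nat_lit 25, nat_lit 9]⟩, C1.Rw.none,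
 ⟨nat_lit 5916, nat_lit 5959, ⟨.ofNat (nat_lit 214078), .ofNat (nat_lit 237748), .ofNat (nat_lit 224748), .ofNat (nat_lit 248418), .ofNat (nat_lit 215652), .ofNat (nat_lit 239212), .ofNat (nat_lit 226322), .ofNat (nat_lit 249882)⟩, ⟨.negSucc (nat_lit 7663), .ofNat (nat_lit 31786), .ofNat (nat_lit 13676), .ofNat (nat_lit 53126), .negSucc (nat_lit 6188), .ofNat (nat_lit 33078), .ofNat (nat_lit 15150), .ofNat (nat_lit 54417)⟩⟩, [⟨nat_lit 0, nat_lit 100, nat_lit 100, nat_lit 60, nat_lit 211350199⟩]⟩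
noncomputable def p034_l33 : Lf2 := ⟨nat_lit 0, nat_lit 2, [nat_lit 10, nat_lit 5, nat_lit 5, nat_lit 20], true, nat_lit 60, nat_lit 80, nat_lit 0, nat_lit 280, ⟨nat_lit 0, nat_lit 0, nat_lit 1000, nat_lit 6, nat_lit 91, nat_lit 1000, nat_lit 25, nat_lit 1000, nat_lit 6017, nat_lit 234, nat_lit 77067, nat_lit 283, nat_lit 63134705, nat_lit 0, nat_lit 0, nat_lit 1245525, false, false⟩,
 nat_lit 0, nat_lit 8266, nat_lit 0, nat_lit 0, nat_lit 4701, nat_lit 0, nat_lit 927, nat_lit 0, nat_lit 0, nat_lit 0, nat_lit 0, nat_lit 0, nat_lit 0, nat_lit 27838408793099, nat_lit 80, nat_lit 1000000, nat_lit 0, nat_lit 0, [(nat_lit 6, [(nat_lit 6, nat_lit 1000)])],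
 ⟨p034_k5, nat_lit 0, nat_lit 0, nat_lit 274, nat_lit 0, nat_lit 340012, [nat_lit 2257066667, nat_lit 1408000000, nat_lit 211200000], [], [nat_lit 11052567860, nat_lit 11027423802, nat_lit 11361424245, nat_lit 10779901731, nat_lit 11742055061, nat_lit 11161450064, nat_lit 12064551397, nat_lit 11487242741], nat_lit 1271250, nat_lit 1271250, nat_lit 134400, nat_lit 230001, nat_lit 356250, nat_lit 490000, [nat_lit 1100000, nat_lit 1442500, nat_lit 1271250], [nat_lit 9, nat_lit 40, nat_lit 20, nat_lit 80, nat_lit 2, nat_lit 238, nat_lit 30, nat_lit 8]⟩, C1.Rw.none,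
 ⟨nat_lit 5916, nat_lit 6021, ⟨.ofNat (nat_lit 203762), .ofNat (nat_lit 235543), .ofNat (nat_lit 214433), .ofNat (nat_lit 246214), .ofNat (nat_lit 207799), .ofNat (nat_lit 239212), .ofNat (nat_lit 218469), .ofNat (nat_lit 249882)⟩, ⟨.ofNat (nat_lit 29833), .ofNat (nat_lit 69559), .ofNat (nat_lit 51175), .ofNat (nat_lit 90902), .ofNat (nat_lit 33078), .ofNat (nat_lit 72344), .ofNat (nat_lit 54417), .ofNat (nat_lit 93684)⟩⟩, [⟨nat_lit 0, nat_lit 100, nat_lit 100, nat_lit 56, nat_lit 12804888⟩]⟩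
noncomputable def p034_l34 : Lf2 := ⟨nat_lit 0, nat_lit 2, [nat_lit 10, nat_lit 5, nat_lit 5, nat_lit 20], false, nat_lit 40, nat_lit 80, nat_lit 0, nat_lit 280, ⟨nat_lit 21, nat_lit 0, nat_lit 979, nat_lit 6, nat_lit 111, nat_lit 979, nat_lit 17, nat_lit 979, nat_lit 2400, nat_lit 227, nat_lit 114817, nat_lit 298, nat_lit 62247216, nat_lit 0, nat_lit 0, nat_lit 1280275, false, false⟩,
 nat_lit 9708, nat_lit 0, nat_lit 0, nat_lit 0, nat_lit 5393, nat_lit 614, nat_lit 1305, nat_lit 0, nat_lit 0, nat_lit 0, nat_lit 0, nat_lit 0, nat_lit 0, nat_lit 27961417901375, nat_lit 72, nat_lit 979000, nat_lit 0, nat_lit 0, [(nat_lit 6, [(nat_lit 6, nat_lit 979)])],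
 ⟨p034_k4, nat_lit 0, nat_lit 0, nat_lit 259, nat_lit 0, nat_lit 302965, [nat_lit 2206996267, nat_lit 1383282001, nat_lit 221593799], [], [nat_lit 10512849595, nat_lit 11022766412, nat_lit 11804944076, nat_lit 11142519190, nat_lit 11767117574, nat_lit 11104827513, nat_lit 13136000286, nat_lit 12482964613], nat_lit 1271250, nat_lit 1271250, nat_lit 230001, nat_lit 490000, nat_lit 230001, nat_lit 490000, [nat_lit 1100000, nat_lit 1442500, nat_lit 1271250], [nat_lit 9, nat_lit 40, nat_lit 20, nat_lit 80, nat_lit 2, nat_lit 249, nat_lit 40, nat_lit 8]⟩, ⟨p034_k4, nat_lit 0, nat_lit 0, nat_lit 296, nat_lit 0, nat_lit 302965, [nat_lit 98448000, nat_lit 131250000, nat_lit 167328000], [], [nat_lit 841812902, nat_lit 859186607, nat_lit 546746662, nat_lit 592137037, nat_lit 630310817, nat_lit 657154179, nat_lit 631242490, nat_lit 561724489], nat_lit 1271250, nat_lit 1271250, nat_lit 230001, nat_lit 490000, nat_lit 0, nat_lit 1977500,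 [nat_lit 1100000, nat_lit 1442500, nat_lit 1271250], [nat_lit 9, nat_lit 40, nat_lit 20, nat_lit 80, nat_lit 2, nat_lit 317, nat_lit 100, nat_lit 11]⟩,
 ⟨nat_lit 6020, nat_lit 6124, ⟨.ofNat (nat_lit 231846), .ofNat (nat_lit 312227), .ofNat (nat_lit 237183), .ofNat (nat_lit 317564), .ofNat (nat_lit 235543), .ofNat (nat_lit 314996), .ofNat (nat_lit 240879), .ofNat (nat_lit 320331)⟩, ⟨.negSucc (nat_lit 13656), .ofNat (nat_lit 66723), .ofNat (nat_lit 7691), .ofNat (nat_lit 88071), .negSucc (nat_lit 9892), .ofNat (nat_lit 69559), .ofNat (nat_lit 11449), .ofNat (nat_lit 90902)⟩⟩, []⟩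
noncomputable def p034_l35 : Lf2 := ⟨nat_lit 0, nat_lit 2, [nat_lit 10, nat_lit 5, nat_lit 5, nat_lit 20], false, nat_lit 40, nat_lit 80, nat_lit 0, nat_lit 280, ⟨nat_lit 270, nat_lit 0, nat_lit 730, nat_lit 6, nat_lit 113, nat_lit 730, nat_lit 18, nat_lit 730, nat_lit 2817, nat_lit 228, nat_lit 120417, nat_lit 300, nat_lit 62057596, nat_lit 0, nat_lit 0, nat_lit 1316377, false, false⟩,
 nat_lit 9961, nat_lit 1158, nat_lit 0, nat_lit 0, nat_lit 6324, nat_lit 5533, nat_lit 1842, nat_lit 0, nat_lit 0, nat_lit 0, nat_lit 0, nat_lit 0, nat_lit 0, nat_lit 0, nat_lit 0, nat_lit 730000, nat_lit 0, nat_lit 0, [(nat_lit 6, [(nat_lit 6, nat_lit 730)])],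
 ⟨p034_k5, nat_lit 0, nat_lit 0, nat_lit 277, nat_lit 0, nat_lit 340012, [nat_lit 1979018667, nat_lit 1547340000, nat_lit 893406000], [], [nat_lit 11554778215, nat_lit 12201151180, nat_lit 12223370861, nat_lit 11446590779, nat_lit 12179172425, nat_lit 11402550443, nat_lit 13615683225, nat_lit 12849913227], nat_lit 1271250, nat_lit 1271250, nat_lit 230001, nat_lit 490000, nat_lit 230001, nat_lit 490000, [nat_lit 1100000, nat_lit 1442500, nat_lit 1271250], [nat_lit 9, nat_lit 40, nat_lit 20, nat_lit 80, nat_lit 2, nat_lit 249, nat_lit 40, nat_lit 8]⟩, ⟨p034_k4, nat_lit 0, nat_lit 0, nat_lit 318, nat_lit 0, nat_lit 349135, [nat_lit 1265760000, nat_lit 1687500000, nat_lit 2151360000], [], [nat_lit 10336942915, nat_lit 8896210578, nat_lit 5560651181, nat_lit 6414562838, nat_lit 8442610305, nat_lit 7393307994, nat_lit 9416530901, nat_lit 8163621782], nat_lit 1271250, nat_lit 1271250, nat_lit 230001, nat_lit 490000, nat_lit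 0, nat_lit 1977500, [nat_lit 1100000, nat_lit 1442500, nat_lit 1271250], [nat_lit 9, nat_lit 40, nat_lit 20, nat_lit 80, nat_lit 2, nat_lit 317, nat_lit 100, nat_lit 11]⟩,
 ⟨nat_lit 5916, nat_lit 6021, ⟨.ofNat (nat_lit 235543), .ofNat (nat_lit 314996), .ofNat (nat_lit 246214), .ofNat (nat_lit 325667), .ofNat (nat_lit 239212), .ofNat (nat_lit 317746), .ofNat (nat_lit 249882), .ofNat (nat_lit 328416)⟩, ⟨.negSucc (nat_lit 9892), .ofNat (nat_lit 69559), .ofNat (nat_lit 11449), .ofNat (nat_lit 90902), .negSucc (nat_lit 6188), .ofNat (nat_lit 72344), .ofNat (nat_lit 15150), .ofNat (nat_lit 93684)⟩⟩, [⟨nat_lit 7, nat_lit 100, nat_lit 100, nat_lit 55, nat_lit 29907191⟩]⟩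
noncomputable def p034_l36 : Lf2 := ⟨nat_lit 0, nat_lit 5, [nat_lit 4, nat_lit 5, nat_lit 5, nat_lit 20], true, nat_lit 0, nat_lit 40, nat_lit 0, nat_lit 280, ⟨nat_lit 0, nat_lit 0, nat_lit 1000, nat_lit 6, nat_lit 88, nat_lit 0, nat_lit 1, nat_lit 0, nat_lit 2400, nat_lit 203, nat_lit 72600, nat_lit 281, nat_lit 63896723, nat_lit 0, nat_lit 0, nat_lit 937621, false, false⟩,
 nat_lit 0, nat_lit 7852, nat_lit 0, nat_lit 0, nat_lit 4362, nat_lit 0, nat_lit 0, nat_lit 0, nat_lit 0, nat_lit 0, nat_lit 0, nat_lit 0, nat_lit 0, nat_lit 27799144551602, nat_lit 80, nat_lit 1000000, nat_lit 0, nat_lit 0, [(nat_lit 6, [(nat_lit 6, nat_lit 1000)])],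
 ⟨p034_k10, nat_lit 0, nat_lit 0, nat_lit 281, nat_lit 0, nat_lit 227376, [nat_lit 2257066667, nat_lit 1408000000, nat_lit 211200000], [], [nat_lit 12885524337, nat_lit 13301535761, nat_lit 12639609535, nat_lit 12721157598, nat_lit 12911165485, nat_lit 12364515937, nat_lit 13209517234, nat_lit 12666019668], nat_lit 1271250, nat_lit 1271250, nat_lit 134400, nat_lit 230001, nat_lit 0, nat_lit 230001, [nat_lit 1100000, nat_lit 1442500, nat_lit 1271250], [nat_lit 9, nat_lit 40, nat_lit 20, nat_lit 80, nat_lit 2, nat_lit 226, nat_lit 20, nat_lit 8]⟩, C1.Rw.none,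
 ⟨nat_lit 6020, nat_lit 6124, ⟨.ofNat (nat_lit 199694), .ofNat (nat_lit 231846), .ofNat (nat_lit 205031), .ofNat (nat_lit 237183), .ofNat (nat_lit 203762), .ofNat (nat_lit 235543), .ofNat (nat_lit 209097), .ofNat (nat_lit 240879)⟩, ⟨.negSucc (nat_lit 94037), .negSucc (nat_lit 13656), .negSucc (nat_lit 72689), .ofNat (nat_lit 7691), .negSucc (nat_lit 89345), .negSucc (nat_lit 9892), .negSucc (nat_lit 68003), .ofNat (nat_lit 11449)⟩⟩, [⟨nat_lit 0, nat_lit 100, nat_lit 100, nat_lit 55, nat_lit 17416327⟩]⟩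
noncomputable def p034_l37 : Lf2 := ⟨nat_lit 0, nat_lit 5, [nat_lit 4, nat_lit 5, nat_lit 5, nat_lit 20], true, nat_lit 0, nat_lit 40, nat_lit 0, nat_lit 280, ⟨nat_lit 0, nat_lit 0, nat_lit 1000, nat_lit 6, nat_lit 90, nat_lit 0, nat_lit 1, nat_lit 0, nat_lit 2017, nat_lit 204, nat_lit 74817, nat_lit 282, nat_lit 63794484, nat_lit 0, nat_lit 0, nat_lit 960570, false, false⟩,
 nat_lit 0, nat_lit 7370, nat_lit 0, nat_lit 0, nat_lit 4191, nat_lit 0, nat_lit 245, nat_lit 0, nat_lit 0, nat_lit 0, nat_lit 0, nat_lit 0, nat_lit 0, nat_lit 25879472962279, nat_lit 80, nat_lit 1000000, nat_lit 0, nat_lit 0, [(nat_lit 6, [(nat_lit 6, nat_lit 1000)])],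
 ⟨p034_k11, nat_lit 0, nat_lit 0, nat_lit 288, nat_lit 0, nat_lit 240248, [nat_lit 2257066667, nat_lit 1408000000, nat_lit 211200000], [], [nat_lit 13056310065, nat_lit 13260982956, nat_lit 12550144207, nat_lit 12660894405, nat_lit 12405961521, nat_lit 12325252652, nat_lit 12710636720, nat_lit 12501760214], nat_lit 1271250, nat_lit 1271250, nat_lit 134400, nat_lit 230001, nat_lit 0, nat_lit 230001, [nat_lit 1100000, nat_lit 1442500, nat_lit 1271250], [nat_lit 9, nat_lit 40, nat_lit 20, nat_lit 80, nat_lit 2, nat_lit 226, nat_lit 20, nat_lit 8]⟩, C1.Rw.none,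
 ⟨nat_lit 5979, nat_lit 6021, ⟨.ofNat (nat_lit 203762), .ofNat (nat_lit 235543), .ofNat (nat_lit 211232), .ofNat (nat_lit 243013), .ofNat (nat_lit 205380), .ofNat (nat_lit 237014), .ofNat (nat_lit 212850), .ofNat (nat_lit 244483)⟩, ⟨.negSucc (nat_lit 89345), .negSucc (nat_lit 9892), .negSucc (nat_lit 68003), .ofNat (nat_lit 11449), .negSucc (nat_lit 87488), .negSucc (nat_lit 8404), .negSucc (nat_lit 66147), .ofNat (nat_lit 12936)⟩⟩, [⟨nat_lit 0, nat_lit 100, nat_lit 100, nat_lit 57, nat_lit 53766546⟩]⟩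
noncomputable def p034_l38 : Lf2 := ⟨nat_lit 0, nat_lit 5, [nat_lit 4, nat_lit 5, nat_lit 5, nat_lit 20], true, nat_lit 0, nat_lit 40, nat_lit 0, nat_lit 280, ⟨nat_lit 0, nat_lit 0, nat_lit 1000, nat_lit 6, nat_lit 92, nat_lit 0, nat_lit 1, nat_lit 0, nat_lit 2017, nat_lit 204, nat_lit 79350, nat_lit 284, nat_lit 63639325, nat_lit 0, nat_lit 0, nat_lit 994911, false, false⟩,
 nat_lit 0, nat_lit 7365, nat_lit 0, nat_lit 0, nat_lit 4228, nat_lit 0, nat_lit 208, nat_lit 0, nat_lit 0, nat_lit 0, nat_lit 0, nat_lit 0, nat_lit 0, nat_lit 25394904045907, nat_lit 80, nat_lit 1000000, nat_lit 0, nat_lit 0, [(nat_lit 6, [(nat_lit 6, nat_lit 1000)])],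
 ⟨p034_k15, nat_lit 0, nat_lit 0, nat_lit 287, nat_lit 0, nat_lit 246985, [nat_lit 2257066667, nat_lit 1408000000, nat_lit 211200000], [], [nat_lit 13071879796, nat_lit 13174657916, nat_lit 12601427876, nat_lit 12657017497, nat_lit 12195723799, nat_lit 12237441183, nat_lit 12434047704, nat_lit 12328687424], nat_lit 1271250, nat_lit 1271250, nat_lit 157850, nat_lit 230001, nat_lit 0, nat_lit 230001, [nat_lit 1100000, nat_lit 1442500, nat_lit 1271250], [nat_lit 9, nat_lit 40, nat_lit 20, nat_lit 80, nat_lit 2, nat_lit 226, nat_lit 20, nat_lit 8]⟩, C1.Rw.none,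
 ⟨nat_lit 5958, nat_lit 5980, ⟨.ofNat (nat_lit 213289), .ofNat (nat_lit 237014), .ofNat (nat_lit 221825), .ofNat (nat_lit 245550), .ofNat (nat_lit 214078), .ofNat (nat_lit 237748), .ofNat (nat_lit 222614), .ofNat (nat_lit 246284)⟩, ⟨.negSucc (nat_lit 87488), .negSucc (nat_lit 8404), .negSucc (nat_lit 66147), .ofNat (nat_lit 12936), .negSucc (nat_lit 86563), .negSucc (nat_lit 7663), .negSucc (nat_lit 65223), .ofNat (nat_lit 13676)⟩⟩, [⟨nat_lit 0, nat_lit 100, nat_lit 100, nat_lit 58, nat_lit 69731437⟩]⟩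
noncomputable def p034_l39 : Lf2 := ⟨nat_lit 0, nat_lit 5, [nat_lit 4, nat_lit 5, nat_lit 5, nat_lit 20], true, nat_lit 0, nat_lit 40, nat_lit 0, nat_lit 280, ⟨nat_lit 0, nat_lit 0, nat_lit 1000, nat_lit 6, nat_lit 93, nat_lit 0, nat_lit 1, nat_lit 0, nat_lit 2017, nat_lit 204, nat_lit 81667, nat_lit 285, nat_lit 63577769, nat_lit 0, nat_lit 0, nat_lit 1008378, false, false⟩,
 nat_lit 0, nat_lit 7253, nat_lit 0, nat_lit 0, nat_lit 4183, nat_lit 0, nat_lit 294, nat_lit 0, nat_lit 0, nat_lit 0, nat_lit 0, nat_lit 0, nat_lit 0, nat_lit 21834870100032, nat_lit 80, nat_lit 1000000, nat_lit 0, nat_lit 0, [(nat_lit 6, [(nat_lit 6, nat_lit 1000)])],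
 ⟨p034_k16, nat_lit 0, nat_lit 0, nat_lit 295, nat_lit 0, nat_lit 264199, [nat_lit 2257066667, nat_lit 1408000000, nat_lit 211200000], [], [nat_lit 13111481549, nat_lit 13315816205, nat_lit 12649492201, nat_lit 12768691154, nat_lit 12261246635, nat_lit 12377824680, nat_lit 12280054090, nat_lit 12160218922], nat_lit 1271250, nat_lit 1271250, nat_lit 157850, nat_lit 230001, nat_lit 0, nat_lit 230001, [nat_lit 1100000, nat_lit 1442500, nat_lit 1271250], [nat_lit 9, nat_lit 40, nat_lit 20, nat_lit 80, nat_lit 2, nat_lit 226, nat_lit 20, nat_lit 8]⟩, C1.Rw.none,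
 ⟨nat_lit 5916, nat_lit 5959, ⟨.ofNat (nat_lit 214078), .ofNat (nat_lit 237748), .ofNat (nat_lit 224748), .ofNat (nat_lit 248418), .ofNat (nat_lit 215652), .ofNat (nat_lit 239212), .ofNat (nat_lit 226322), .ofNat (nat_lit 249882)⟩, ⟨.negSucc (nat_lit 86563), .negSucc (nat_lit 7663), .negSucc (nat_lit 65223), .ofNat (nat_lit 13676), .negSucc (nat_lit 84722), .negSucc (nat_lit 6188), .negSucc (nat_lit 63383), .ofNat (nat_lit 15150)⟩⟩, [⟨nat_lit 0, nat_lit 100, nat_lit 100, nat_lit 60, nat_lit 202360959⟩]⟩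
noncomputable def p034_l40 : Lf2 := ⟨nat_lit 0, nat_lit 5, [nat_lit 4, nat_lit 5, nat_lit 5, nat_lit 20], true, nat_lit 0, nat_lit 40, nat_lit 0, nat_lit 280, ⟨nat_lit 0, nat_lit 0, nat_lit 1000, nat_lit 6, nat_lit 111, nat_lit 0, nat_lit 1, nat_lit 0, nat_lit 2400, nat_lit 203, nat_lit 114817, nat_lit 298, nat_lit 62247216, nat_lit 0, nat_lit 0, nat_lit 1280275, false, false⟩,
 nat_lit 0, nat_lit 8787, nat_lit 0, nat_lit 0, nat_lit 4881, nat_lit 0, nat_lit 0, nat_lit 0, nat_lit 0, nat_lit 0, nat_lit 0, nat_lit 0, nat_lit 0, nat_lit 25360042976618, nat_lit 80, nat_lit 1000000, nat_lit 0, nat_lit 0, [(nat_lit 6, [(nat_lit 6, nat_lit 1000)])],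
 ⟨p034_k10, nat_lit 0, nat_lit 0, nat_lit 265, nat_lit 0, nat_lit 227376, [nat_lit 2257066667, nat_lit 1408000000, nat_lit 211200000], [], [nat_lit 12331234988, nat_lit 12888520314, nat_lit 12888976568, nat_lit 12280943077, nat_lit 12218566401, nat_lit 11610402343, nat_lit 13486727186, nat_lit 12887191516], nat_lit 1271250, nat_lit 1271250, nat_lit 230001, nat_lit 490000, nat_lit 0, nat_lit 230001, [nat_lit 1100000, nat_lit 1442500, nat_lit 1271250], [nat_lit 9, nat_lit 40, nat_lit 20, nat_lit 80, nat_lit 2, nat_lit 238, nat_lit 30, nat_lit 8]⟩, C1.Rw.none,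
 ⟨nat_lit 6020, nat_lit 6124, ⟨.ofNat (nat_lit 231846), .ofNat (nat_lit 312227), .ofNat (nat_lit 237183), .ofNat (nat_lit 317564), .ofNat (nat_lit 235543), .ofNat (nat_lit 314996), .ofNat (nat_lit 240879), .ofNat (nat_lit 320331)⟩, ⟨.negSucc (nat_lit 94037), .negSucc (nat_lit 13656), .negSucc (nat_lit 72689), .ofNat (nat_lit 7691), .negSucc (nat_lit 89345), .negSucc (nat_lit 9892), .negSucc (nat_lit 68003), .ofNat (nat_lit 11449)⟩⟩, []⟩
noncomputable def p034_l41 : Lf2 := ⟨nat_lit 0, nat_lit 5, [nat_lit 4, nat_lit 5, nat_lit 5, nat_lit 20], true, nat_lit 0, nat_lit 40, nat_lit 0, nat_lit 280, ⟨nat_lit 0, nat_lit 0, nat_lit 1000, nat_lit 6, nat_lit 113, nat_lit 0, nat_lit 1, nat_lit 0, nat_lit 2017, nat_lit 204, nat_lit 120417, nat_lit 300, nat_lit 62057596, nat_lit 0, nat_lit 0, nat_lit 1316377, false, false⟩,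
 nat_lit 0, nat_lit 7677, nat_lit 0, nat_lit 0, nat_lit 4366, nat_lit 0, nat_lit 458, nat_lit 0, nat_lit 0, nat_lit 0, nat_lit 0, nat_lit 0, nat_lit 0, nat_lit 27268873793103, nat_lit 80, nat_lit 1000000, nat_lit 0, nat_lit 0, [(nat_lit 6, [(nat_lit 6, nat_lit 1000)])],
 ⟨p034_k11, nat_lit 0, nat_lit 0, nat_lit 284, nat_lit 0, nat_lit 268458, [nat_lit 2257066667, nat_lit 1408000000, nat_lit 211200000], [], [nat_lit 12295964404, nat_lit 12818309040, nat_lit 12703560584, nat_lit 12164122097, nat_lit 12091108889, nat_lit 11715623073, nat_lit 13342913738, nat_lit 12806635775], nat_lit 1271250, nat_lit 1271250, nat_lit 230001, nat_lit 490000, nat_lit 0, nat_lit 230001, [nat_lit 1100000, nat_lit 1442500, nat_lit 1271250], [nat_lit 9, nat_lit 40, nat_lit 20, nat_lit 80, nat_lit 2, nat_lit 238, nat_lit 30, nat_lit 8]⟩, C1.Rw.none,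
 ⟨nat_lit 5916, nat_lit 6021, ⟨.ofNat (nat_lit 235543), .ofNat (nat_lit 314996), .ofNat (nat_lit 246214), .ofNat (nat_lit 325667), .ofNat (nat_lit 239212), .ofNat (nat_lit 317746), .ofNat (nat_lit 249882), .ofNat (nat_lit 328416)⟩, ⟨.negSucc (nat_lit 89345), .negSucc (nat_lit 9892), .negSucc (nat_lit 68003), .ofNat (nat_lit 11449), .negSucc (nat_lit 84722), .negSucc (nat_lit 6188), .negSucc (nat_lit 63383), .ofNat (nat_lit 15150)⟩⟩, []⟩
noncomputable def p034_l42 : Lf2 := ⟨nat_lit 0, nat_lit 5, [nat_lit 4, nat_lit 5, nat_lit 5, nat_lit 20], true, nat_lit 40, nat_lit 60, nat_lit 0, nat_lit 280, ⟨nat_lit 0, nat_lit 0, nat_lit 1000, nat_lit 6, nat_lit 88, nat_lit 0, nat_lit 9, nat_lit 350, nat_lit 600, nat_lit 221, nat_lit 72600, nat_lit 281, nat_lit 63896723, nat_lit 0, nat_lit 0, nat_lit 937621, false, false⟩,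
 nat_lit 0, nat_lit 7667, nat_lit 0, nat_lit 0, nat_lit 4259, nat_lit 0, nat_lit 378, nat_lit 0, nat_lit 0, nat_lit 0, nat_lit 0, nat_lit 0, nat_lit 0, nat_lit 0, nat_lit 80, nat_lit 1000000, nat_lit 0, nat_lit 0, [(nat_lit 6, [(nat_lit 6, nat_lit 1000)])],
 ⟨p034_k10, nat_lit 0, nat_lit 0, nat_lit 250, nat_lit 0, nat_lit 227376, [nat_lit 2257066667, nat_lit 1408000000, nat_lit 211200000], [], [nat_lit 10900362342, nat_lit 11224878848, nat_lit 10500247340, nat_lit 10838336502, nat_lit 10453129860, nat_lit 10797064034, nat_lit 10092039916, nat_lit 10433750458], nat_lit 1271250, nat_lit 1271250, nat_lit 134400, nat_lit 230001, nat_lit 230001, nat_lit 356250, [nat_lit 1100000, nat_lit 1442500, nat_lit 1271250], [nat_lit 9, nat_lit 40, nat_lit 20, nat_lit 80, nat_lit 2, nat_lit 232, nat_lit 25, nat_lit 8]⟩, C1.Rw.none,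
 ⟨nat_lit 6020, nat_lit 6124, ⟨.ofNat (nat_lit 199694), .ofNat (nat_lit 231846), .ofNat (nat_lit 205031), .ofNat (nat_lit 237183), .ofNat (nat_lit 203762), .ofNat (nat_lit 235543), .ofNat (nat_lit 209097), .ofNat (nat_lit 240879)⟩, ⟨.negSucc (nat_lit 13656), .ofNat (nat_lit 26533), .ofNat (nat_lit 7691), .ofNat (nat_lit 47881), .negSucc (nat_lit 9892), .ofNat (nat_lit 29833), .ofNat (nat_lit 11449), .ofNat (nat_lit 51175)⟩⟩, [⟨nat_lit 0, nat_lit 100, nat_lit 100, nat_lit 55, nat_lit 232455477⟩]⟩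
noncomputable def p034_l43 : Lf2 := ⟨nat_lit 0, nat_lit 5, [nat_lit 4, nat_lit 5, nat_lit 5, nat_lit 20], true, nat_lit 40, nat_lit 60, nat_lit 0, nat_lit 280, ⟨nat_lit 0, nat_lit 0, nat_lit 1000, nat_lit 6, nat_lit 90, nat_lit 0, nat_lit 10, nat_lit 382, nat_lit 600, nat_lit 221, nat_lit 77067, nat_lit 283, nat_lit 63769420, nat_lit 0, nat_lit 0, nat_lit 966156, false, false⟩,
 nat_lit 0, nat_lit 7357, nat_lit 0, nat_lit 0, nat_lit 4184, nat_lit 0, nat_lit 356, nat_lit 0, nat_lit 0, nat_lit 0, nat_lit 0, nat_lit 0, nat_lit 0, nat_lit 21719825357828, nat_lit 80, nat_lit 1000000, nat_lit 0, nat_lit 0, [(nat_lit 6, [(nat_lit 6, nat_lit 1000)])],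
 ⟨p034_k11, nat_lit 0, nat_lit 0, nat_lit 254, nat_lit 0, nat_lit 249637, [nat_lit 2257066667, nat_lit 1408000000, nat_lit 211200000], [], [nat_lit 11274622499, nat_lit 11465442076, nat_lit 10883132055, nat_lit 11088414555, nat_lit 10843065981, nat_lit 11048503449, nat_lit 10491050120, nat_lit 10694292488], nat_lit 1271250, nat_lit 1271250, nat_lit 134400, nat_lit 230001, nat_lit 230001, nat_lit 356250, [nat_lit 1100000, nat_lit 1442500, nat_lit 1271250], [nat_lit 9, nat_lit 40, nat_lit 20, nat_lit 80, nat_lit 2, nat_lit 232, nat_lit 25, nat_lit 8]⟩, C1.Rw.none,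
 ⟨nat_lit 5958, nat_lit 6021, ⟨.ofNat (nat_lit 203762), .ofNat (nat_lit 235543), .ofNat (nat_lit 212299), .ofNat (nat_lit 244080), .ofNat (nat_lit 206188), .ofNat (nat_lit 237748), .ofNat (nat_lit 214724), .ofNat (nat_lit 246284)⟩, ⟨.negSucc (nat_lit 9892), .ofNat (nat_lit 29833), .ofNat (nat_lit 11449), .ofNat (nat_lit 51175), .negSucc (nat_lit 7663), .ofNat (nat_lit 31786), .ofNat (nat_lit 13676), .ofNat (nat_lit 53126)⟩⟩, [⟨nat_lit 0, nat_lit 100, nat_lit 100, nat_lit 58, nat_lit 229420852⟩]⟩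
noncomputable def p034_l44 : Lf2 := ⟨nat_lit 0, nat_lit 5, [nat_lit 4, nat_lit 5, nat_lit 5, nat_lit 20], true, nat_lit 40, nat_lit 60, nat_lit 0, nat_lit 280, ⟨nat_lit 0, nat_lit 0, nat_lit 1000, nat_lit 6, nat_lit 93, nat_lit 1000, nat_lit 10, nat_lit 1000, nat_lit 817, nat_lit 222, nat_lit 81667, nat_lit 285, nat_lit 63577769, nat_lit 0, nat_lit 0, nat_lit 1008378, false, false⟩,
 nat_lit 0, nat_lit 7721, nat_lit 0, nat_lit 0, nat_lit 4452, nat_lit 0, nat_lit 462, nat_lit 0, nat_lit 0, nat_lit 0, nat_lit 0, nat_lit 0, nat_lit 0, nat_lit 24799999654303, nat_lit 80, nat_lit 1000000, nat_lit 0, nat_lit 0, [(nat_lit 6, [(nat_lit 6, nat_lit 1000)])],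
 ⟨p034_k16, nat_lit 0, nat_lit 0, nat_lit 257, nat_lit 0, nat_lit 264199, [nat_lit 2257066667, nat_lit 1408000000, nat_lit 211200000], [], [nat_lit 11564023743, nat_lit 11684016183, nat_lit 11462912795, nat_lit 11439309106, nat_lit 11750137985, nat_lit 11528898872, nat_lit 11995947268, nat_lit 11775658969], nat_lit 1271250, nat_lit 1271250, nat_lit 157850, nat_lit 230001, nat_lit 230001, nat_lit 356250, [nat_lit 1100000, nat_lit 1442500, nat_lit 1271250], [nat_lit 9, nat_lit 40, nat_lit 20, nat_lit 80, nat_lit 2, nat_lit 232, nat_lit 25, nat_lit 8]⟩, C1.Rw.none,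
 ⟨nat_lit 5916, nat_lit 5959, ⟨.ofNat (nat_lit 214078), .ofNat (nat_lit 237748), .ofNat (nat_lit 224748), .ofNat (nat_lit 248418), .ofNat (nat_lit 215652), .ofNat (nat_lit 239212), .ofNat (nat_lit 226322), .ofNat (nat_lit 249882)⟩, ⟨.negSucc (nat_lit 7663), .ofNat (nat_lit 31786), .ofNat (nat_lit 13676), .ofNat (nat_lit 53126), .negSucc (nat_lit 6188), .ofNat (nat_lit 33078), .ofNat (nat_lit 15150), .ofNat (nat_lit 54417)⟩⟩, [⟨nat_lit 0, nat_lit 100, nat_lit 100, nat_lit 60, nat_lit 119437239⟩]⟩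
noncomputable def p034_l45 : Lf2 := ⟨nat_lit 0, nat_lit 5, [nat_lit 4, nat_lit 5, nat_lit 5, nat_lit 20], true, nat_lit 40, nat_lit 60, nat_lit 0, nat_lit 280, ⟨nat_lit 0, nat_lit 0, nat_lit 1000, nat_lit 6, nat_lit 112, nat_lit 0, nat_lit 9, nat_lit 265, nat_lit 600, nat_lit 221, nat_lit 117600, nat_lit 299, nat_lit 62109910, nat_lit 0, nat_lit 0, nat_lit 1306476, false, false⟩,
 nat_lit 0, nat_lit 7927, nat_lit 0, nat_lit 0, nat_lit 4403, nat_lit 0, nat_lit 395, nat_lit 0, nat_lit 0, nat_lit 0, nat_lit 0, nat_lit 0, nat_lit 0, nat_lit 0, nat_lit 80, nat_lit 1000000, nat_lit 0, nat_lit 0, [(nat_lit 6, [(nat_lit 6, nat_lit 1000)])],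
 ⟨p034_k10, nat_lit 0, nat_lit 0, nat_lit 249, nat_lit 0, nat_lit 275820, [nat_lit 2257066667, nat_lit 1408000000, nat_lit 211200000], [], [nat_lit 10281574108, nat_lit 10976117505, nat_lit 10000332476, nat_lit 10679036501, nat_lit 9845751400, nat_lit 10540589811, nat_lit 9609447303, nat_lit 10277934977], nat_lit 1271250, nat_lit 1271250, nat_lit 230001, nat_lit 490000, nat_lit 230001, nat_lit 356250, [nat_lit 1100000, nat_lit 1442500, nat_lit 1271250], [nat_lit 9, nat_lit 40, nat_lit 20, nat_lit 80, nat_lit 2, nat_lit 249, nat_lit 40, nat_lit 8]⟩, C1.Rw.none,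
 ⟨nat_lit 5916, nat_lit 6124, ⟨.ofNat (nat_lit 231846), .ofNat (nat_lit 312227), .ofNat (nat_lit 242520), .ofNat (nat_lit 322901), .ofNat (nat_lit 239212), .ofNat (nat_lit 317746), .ofNat (nat_lit 249882), .ofNat (nat_lit 328416)⟩, ⟨.negSucc (nat_lit 13656), .ofNat (nat_lit 26533), .ofNat (nat_lit 7691), .ofNat (nat_lit 47881), .negSucc (nat_lit 6188), .ofNat (nat_lit 33078), .ofNat (nat_lit 15150), .ofNat (nat_lit 54417)⟩⟩, []⟩
noncomputable def p034_l46 : Lf2 := ⟨nat_lit 0, nat_lit 5, [nat_lit 4, nat_lit 5, nat_lit 5, nat_lit 20], true, nat_lit 60, nat_lit 80, nat_lit 0, nat_lit 280, ⟨nat_lit 0, nat_lit 0, nat_lit 1000, nat_lit 6, nat_lit 106, nat_lit 1000, nat_lit 24, nat_lit 1000, nat_lit 5400, nat_lit 233, nat_lit 104017, nat_lit 294, nat_lit 62034311, nat_lit 0, nat_lit 0, nat_lit 1476641, false, false⟩,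
 nat_lit 0, nat_lit 7992, nat_lit 0, nat_lit 0, nat_lit 4440, nat_lit 0, nat_lit 403, nat_lit 0, nat_lit 0, nat_lit 0, nat_lit 0, nat_lit 0, nat_lit 0, nat_lit 23990817019822, nat_lit 80, nat_lit 1000000, nat_lit 0, nat_lit 0, [(nat_lit 6, [(nat_lit 6, nat_lit 1000)])],
 ⟨p034_k10, nat_lit 0, nat_lit 0, nat_lit 246, nat_lit 0, nat_lit 275820, [nat_lit 2257066667, nat_lit 1408000000, nat_lit 211200000], [], [nat_lit 10167751157, nat_lit 10873119843, nat_lit 9535777447, nat_lit 10207045967, nat_lit 9711679096, nat_lit 10406846111, nat_lit 9138580407, nat_lit 9799576447], nat_lit 1271250, nat_lit 1271250, nat_lit 134400, nat_lit 490000, nat_lit 356250, nat_lit 490000, [nat_lit 1100000, nat_lit 1442500, nat_lit 1271250], [nat_lit 9, nat_lit 40, nat_lit 20, nat_lit 80, nat_lit 2, nat_lit 249, nat_lit 40, nat_lit 8]⟩, C1.Rw.none,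
 ⟨nat_lit 5916, nat_lit 6124, ⟨.ofNat (nat_lit 199694), .ofNat (nat_lit 312227), .ofNat (nat_lit 210368), .ofNat (nat_lit 322901), .ofNat (nat_lit 207799), .ofNat (nat_lit 317746), .ofNat (nat_lit 218469), .ofNat (nat_lit 328416)⟩, ⟨.ofNat (nat_lit 26533), .ofNat (nat_lit 66723), .ofNat (nat_lit 47881), .ofNat (nat_lit 88071), .ofNat (nat_lit 33078), .ofNat (nat_lit 72344), .ofNat (nat_lit 54417), .ofNat (nat_lit 93684)⟩⟩, [⟨nat_lit 0, nat_lit 100, nat_lit 100, nat_lit 60, nat_lit 172927446⟩]⟩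
noncomputable def b_VL_600_600_5_20 : St := ⟨true, nat_lit 1, nat_lit 1, nat_lit 1, nat_lit 40, nat_lit 240, nat_lit 260, nat_lit 250, nat_lit 260, nat_lit 16, nat_lit 80, nat_lit 20, nat_lit 40, nat_lit 0, nat_lit 80, nat_lit 0, nat_lit 288, nat_lit 0, nat_lit 20, nat_lit 0, nat_lit 0, nat_lit 0, nat_lit 0⟩
theorem d_VL_600_600_5_20 (h : EB TB.env) : Dead b_VL_600_600_5_20 := chkB_sound0 h (T :=
(.ord (.trZ (nat_lit 0) (nat_lit 100) (nat_lit 100) (nat_lit 50) (nat_lit 24) (.trX (nat_lit 19) (nat_lit 100) (nat_lit 95) (nat_lit 62) (nat_lit 280) (.spl (nat_lit 6) (nat_lit 8)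
(.spl (nat_lit 4) (nat_lit 40)
(.spl (nat_lit 0) (nat_lit 255)
(.ord (.spl (nat_lit 0) (nat_lit 253)
(.ord (.leaf p034_l24))
(.leaf p034_l25)))
(.spl (nat_lit 2) (nat_lit 40)
(.spl (nat_lit 0) (nat_lit 258)
(.ord (.leaf p034_l26))
(.trZ (nat_lit 0) (nat_lit 100) (nat_lit 99) (nat_lit 54) (nat_lit 28) (.leaf p034_l27)))
(.leaf p034_l28)))
(.spl (nat_lit 2) (nat_lit 40)
(.spl (nat_lit 0) (nat_lit 255)
(.ord (.spl (nat_lit 4) (nat_lit 60)
(.leaf p034_l29)
(.leaf p034_l30)))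
(.spl (nat_lit 4) (nat_lit 60)
(.spl (nat_lit 0) (nat_lit 258)
(.ord (.leaf p034_l31))
(.trZ (nat_lit 0) (nat_lit 100) (nat_lit 99) (nat_lit 54) (nat_lit 28) (.leaf p034_l32)))
(.leaf p034_l33)))
(.spl (nat_lit 0) (nat_lit 255)
(.ord (.leaf p034_l34))
(.leaf p034_l35))))
(.spl (nat_lit 4) (nat_lit 40)
(.spl (nat_lit 2) (nat_lit 40)
(.spl (nat_lit 0) (nat_lit 255)
(.ord (.leaf p034_l36))
(.spl (nat_lit 0) (nat_lit 258)
(.ord (.spl (nat_lit 0) (nat_lit 257)
(.ord (.leaf p034_l37))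
(.trZ (nat_lit 0) (nat_lit 100) (nat_lit 99) (nat_lit 53) (nat_lit 28) (.leaf p034_l38))))
(.trZ (nat_lit 0) (nat_lit 100) (nat_lit 99) (nat_lit 54) (nat_lit 28) (.leaf p034_l39))))
(.spl (nat_lit 0) (nat_lit 255)
(.ord (.leaf p034_l40))
(.leaf p034_l41)))
(.spl (nat_lit 4) (nat_lit 60)
(.spl (nat_lit 2) (nat_lit 40)
(.spl (nat_lit 0) (nat_lit 255)
(.ord (.leaf p034_l42))
(.spl (nat_lit 0) (nat_lit 258)
(.ord (.leaf p034_l43))
(.trZ (nat_lit 0) (nat_lit 100) (nat_lit 99) (nat_lit 54) (nat_lit 28) (.leaf p034_l44))))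
(.leaf p034_l45))
(.leaf p034_l46)))))))) (by decide +kernel)
noncomputable def p034_l47 : Lf2 := ⟨nat_lit 0, nat_lit 5, [nat_lit 4, nat_lit 5, nat_lit 5, nat_lit 20], false, nat_lit 0, nat_lit 80, nat_lit 0, nat_lit 80, ⟨nat_lit 1000, nat_lit 0, nat_lit 0, nat_lit 0, nat_lit 0, nat_lit 0, nat_lit 0, nat_lit 0, nat_lit 0, nat_lit 0, nat_lit 0, nat_lit 0, nat_lit 0, nat_lit 0, nat_lit 0, nat_lit 0, false, false⟩,
 nat_lit 30048, nat_lit 0, nat_lit 0, nat_lit 0, nat_lit 15907, nat_lit 15907, nat_lit 2749, nat_lit 0, nat_lit 0, nat_lit 2749, nat_lit 0, nat_lit 0, nat_lit 0, nat_lit 0, nat_lit 0, nat_lit 0, nat_lit 0, nat_lit 0, [],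
 ⟨p034_k8, nat_lit 0, nat_lit 0, nat_lit 371, nat_lit 0, nat_lit 386242, [nat_lit 4688000000, nat_lit 6250000000, nat_lit 9842000000], [], [nat_lit 24914432856, nat_lit 20297931104, nat_lit 23410887664, nat_lit 18467679158, nat_lit 15295460036, nat_lit 8105155192, nat_lit 25942076220, nat_lit 18446602378], nat_lit 1271250, nat_lit 1271250, nat_lit 490000, nat_lit 1100001, nat_lit 0, nat_lit 490000, [nat_lit 1100000, nat_lit 1442500, nat_lit 1271250], [nat_lit 11, nat_lit 40, nat_lit 20, nat_lit 80, nat_lit 1, nat_lit 345, nat_lit 125, nat_lit 10]⟩, ⟨p034_k8, nat_lit 0, nat_lit 0, nat_lit 371, nat_lit 0, nat_lit 386242, [nat_lit 4688000000, nat_lit 6250000000, nat_lit 9842000000], [], [nat_lit 24914432856, nat_lit 20297931104, nat_lit 23410887664, nat_lit 18467679158, nat_lit 15295460036, nat_lit 8105155192, nat_lit 25942076220, nat_lit 18446602378], nat_lit 1271250, nat_lit 1271250, nat_lit 490000, nat_lit 1100001, nat_lit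 0, nat_lit 490000, [nat_lit 1100000, nat_lit 1442500, nat_lit 1271250], [nat_lit 11, nat_lit 40, nat_lit 20, nat_lit 80, nat_lit 1, nat_lit 345, nat_lit 125, nat_lit 10]⟩,
 zbF0, []⟩
noncomputable def p034_l48 : Lf2 := ⟨nat_lit 0, nat_lit 1, [nat_lit 19, nat_lit 5, nat_lit 5, nat_lit 20], false, nat_lit 0, nat_lit 80, nat_lit 80, nat_lit 100, ⟨nat_lit 1000, nat_lit 0, nat_lit 0, nat_lit 0, nat_lit 0, nat_lit 0, nat_lit 0, nat_lit 0, nat_lit 0, nat_lit 0, nat_lit 0, nat_lit 0, nat_lit 0, nat_lit 0, nat_lit 0, nat_lit 0, false, false⟩,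
 nat_lit 26415, nat_lit 0, nat_lit 0, nat_lit 0, nat_lit 13984, nat_lit 13984, nat_lit 0, nat_lit 0, nat_lit 0, nat_lit 0, nat_lit 0, nat_lit 0, nat_lit 0, nat_lit 39097819108531, nat_lit 0, nat_lit 0, nat_lit 0, nat_lit 0, [],
 ⟨p034_k17, nat_lit 0, nat_lit 0, nat_lit 254, nat_lit 0, nat_lit 316145, [nat_lit 4688000000, nat_lit 6250000000], [], [nat_lit 26020527072, nat_lit 18845924000, nat_lit 20059044128, nat_lit 16776630688, nat_lit 18307747232, nat_lit 11534484960, nat_lit 22142662688, nat_lit 15462673696], nat_lit 1271250, nat_lit 1271250, nat_lit 490000, nat_lit 780000, nat_lit 0, nat_lit 490000, [nat_lit 1100000, nat_lit 1442500], [nat_lit 31, nat_lit 40, nat_lit 20, nat_lit 80, nat_lit 3, nat_lit 260, nat_lit 50, nat_lit 10]⟩, ⟨p034_k17, nat_lit 0, nat_lit 0, nat_lit 214, nat_lit 0, nat_lit 316145, [nat_lit 4688000000, nat_lit 6250000000], [], [nat_lit 1123132672, nat_lit 3109781928, nat_lit 489600512, nat_lit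 2072347632, nat_lit 1249462800, nat_lit 3149565662, nat_lit 596079672, nat_lit 2126634800], nat_lit 1271250, nat_lit 1271250, nat_lit 490000, nat_lit 780000, nat_lit 490000, nat_lit 631250, [nat_lit 1100000, nat_lit 1442500], [nat_lit 31, nat_lit 40, nat_lit 20, nat_lit 80, nat_lit 3, nat_lit 272, nat_lit 60, nat_lit 10]⟩,
 zbF0, []⟩
noncomputable def p034_l49 : Lf2 := ⟨nat_lit 0, nat_lit 1, [nat_lit 19, nat_lit 5, nat_lit 5, nat_lit 20], false, nat_lit 0, nat_lit 80, nat_lit 80, nat_lit 100, ⟨nat_lit 1000, nat_lit 0, nat_lit 0, nat_lit 0, nat_lit 0, nat_lit 0, nat_lit 0, nat_lit 0, nat_lit 0, nat_lit 0, nat_lit 0, nat_lit 0, nat_lit 0, nat_lit 0, nat_lit 0, nat_lit 0, false, false⟩,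
 nat_lit 11185, nat_lit 0, nat_lit 0, nat_lit 0, nat_lit 5921, nat_lit 5921, nat_lit 0, nat_lit 0, nat_lit 0, nat_lit 0, nat_lit 0, nat_lit 0, nat_lit 0, nat_lit 0, nat_lit 0, nat_lit 0, nat_lit 0, nat_lit 0, [],
 ⟨p034_k17, nat_lit 0, nat_lit 0, nat_lit 234, nat_lit 0, nat_lit 316145, [nat_lit 4688000000, nat_lit 6250000000], [], [nat_lit 35261353244, nat_lit 32177826706, nat_lit 34260157392, nat_lit 31392273674, nat_lit 33230642272, nat_lit 30402251624, nat_lit 36432768660, nat_lit 33642757934], nat_lit 1271250, nat_lit 1271250, nat_lit 780000, nat_lit 1100001, nat_lit 0, nat_lit 490000, [nat_lit 1100000, nat_lit 1442500], [nat_lit 31, nat_lit 40, nat_lit 20, nat_lit 80, nat_lit 3, nat_lit 272, nat_lit 60, nat_lit 11]⟩, ⟨p034_k17, nat_lit 0, nat_lit 0, nat_lit 194, nat_lit 0, nat_lit 316145, [nat_lit 4688000000, nat_lit 6250000000], [], [nat_lit 27532300168, nat_lit 26013391959, nat_lit 23320712688, nat_lit 23838941644,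 nat_lit 24516669737, nat_lit 23369955573, nat_lit 23485363890, nat_lit 23988521883], nat_lit 1271250, nat_lit 1271250, nat_lit 780000, nat_lit 1100001, nat_lit 490000, nat_lit 631250, [nat_lit 1100000, nat_lit 1442500], [nat_lit 31, nat_lit 40, nat_lit 20, nat_lit 80, nat_lit 3, nat_lit 289, nat_lit 75, nat_lit 11]⟩,
 zbF0, []⟩
noncomputable def p034_l50 : Lf2 := ⟨nat_lit 0, nat_lit 2, [nat_lit 10, nat_lit 5, nat_lit 5, nat_lit 20], false, nat_lit 0, nat_lit 80, nat_lit 80, nat_lit 100, ⟨nat_lit 1000, nat_lit 0, nat_lit 0, nat_lit 0, nat_lit 0, nat_lit 0, nat_lit 0, nat_lit 0, nat_lit 0, nat_lit 0, nat_lit 0, nat_lit 0, nat_lit 0, nat_lit 0, nat_lit 0, nat_lit 0, false, false⟩,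
 nat_lit 22402, nat_lit 0, nat_lit 0, nat_lit 0, nat_lit 11859, nat_lit 3737, nat_lit 0, nat_lit 0, nat_lit 0, nat_lit 0, nat_lit 0, nat_lit 0, nat_lit 0, nat_lit 33766353802442, nat_lit 0, nat_lit 0, nat_lit 0, nat_lit 0, [],
 ⟨p034_k0, nat_lit 0, nat_lit 0, nat_lit 256, nat_lit 0, nat_lit 271376, [nat_lit 4688000000, nat_lit 6250000000, nat_lit 7968000000], [], [nat_lit 27242810072, nat_lit 21158455250, nat_lit 27808829168, nat_lit 22064827646, nat_lit 21636457732, nat_lit 15892456210, nat_lit 30194662140, nat_lit 24606630186], nat_lit 1271250, nat_lit 1271250, nat_lit 490000, nat_lit 1100001, nat_lit 0, nat_lit 490000, [nat_lit 1100000, nat_lit 1442500, nat_lit 1271250], [nat_lit 9, nat_lit 40, nat_lit 20, nat_lit 80, nat_lit 2, nat_lit 272, nat_lit 60, nat_lit 9]⟩, ⟨p034_k0, nat_lit 0, nat_lit 0, nat_lit 210, nat_lit 0, nat_lit 271376, [nat_lit 4688000000, nat_lit 6250000000, nat_lit 7968000000], [], [nat_lit 32680814268,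 nat_lit 32254151090, nat_lit 32851353384, nat_lit 33247889327, nat_lit 32072879142, nat_lit 32502585650, nat_lit 33076070375, nat_lit 33462752711], nat_lit 1271250, nat_lit 1271250, nat_lit 490000, nat_lit 1100001, nat_lit 490000, nat_lit 631250, [nat_lit 1100000, nat_lit 1442500, nat_lit 1271250], [nat_lit 9, nat_lit 40, nat_lit 20, nat_lit 80, nat_lit 2, nat_lit 289, nat_lit 75, nat_lit 9]⟩,
 zbF0, []⟩
noncomputable def p034_l51 : Lf2 := ⟨nat_lit 0, nat_lit 2, [nat_lit 10, nat_lit 5, nat_lit 5, nat_lit 20], false, nat_lit 0, nat_lit 80, nat_lit 80, nat_lit 100, ⟨nat_lit 1000, nat_lit 0, nat_lit 0, nat_lit 0, nat_lit 0, nat_lit 0, nat_lit 0, nat_lit 0, nat_lit 0, nat_lit 0, nat_lit 0, nat_lit 0, nat_lit 0, nat_lit 0, nat_lit 0, nat_lit 0, false, false⟩,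
 nat_lit 15074, nat_lit 0, nat_lit 0, nat_lit 0, nat_lit 8374, nat_lit 2673, nat_lit 0, nat_lit 0, nat_lit 0, nat_lit 3384, nat_lit 0, nat_lit 0, nat_lit 0, nat_lit 19982239080602, nat_lit 0, nat_lit 0, nat_lit 0, nat_lit 0, [],
 ⟨p034_k4, nat_lit 0, nat_lit 0, nat_lit 290, nat_lit 0, nat_lit 349135, [nat_lit 4688000000, nat_lit 6250000000, nat_lit 7968000000], [], [nat_lit 27099180346, nat_lit 24951006500, nat_lit 29567093502, nat_lit 27539086556, nat_lit 25067536006, nat_lit 23039529060, nat_lit 31882854518, nat_lit 29909914996], nat_lit 1271250, nat_lit 1271250, nat_lit 490000, nat_lit 1100001, nat_lit 0, nat_lit 490000, [nat_lit 1100000, nat_lit 1442500, nat_lit 1271250], [nat_lit 9, nat_lit 40, nat_lit 20, nat_lit 80, nat_lit 2, nat_lit 272, nat_lit 60, nat_lit 9]⟩, ⟨p034_k4, nat_lit 0, nat_lit 0, nat_lit 211, nat_lit 0, nat_lit 349135, [nat_lit 4688000000, nat_lit 6250000000, nat_lit 7968000000], [], [nat_lit 30092683175,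 nat_lit 29583351020, nat_lit 30480100172, nat_lit 30865693800, nat_lit 29488915850, nat_lit 29903936715, nat_lit 30778409579, nat_lit 31155275588], nat_lit 1271250, nat_lit 1271250, nat_lit 490000, nat_lit 1100001, nat_lit 490000, nat_lit 631250, [nat_lit 1100000, nat_lit 1442500, nat_lit 1271250], [nat_lit 9, nat_lit 40, nat_lit 20, nat_lit 80, nat_lit 2, nat_lit 289, nat_lit 75, nat_lit 9]⟩,
 zbF0, []⟩
noncomputable def p034_l52 : Lf2 := ⟨nat_lit 0, nat_lit 5, [nat_lit 4, nat_lit 5, nat_lit 5, nat_lit 20], false, nat_lit 0, nat_lit 80, nat_lit 80, nat_lit 100, ⟨nat_lit 1000, nat_lit 0, nat_lit 0, nat_lit 0, nat_lit 0, nat_lit 0, nat_lit 0, nat_lit 0, nat_lit 0, nat_lit 0, nat_lit 0, nat_lit 0, nat_lit 0, nat_lit 0, nat_lit 0, nat_lit 0, false, false⟩,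
 nat_lit 18960, nat_lit 0, nat_lit 0, nat_lit 0, nat_lit 10037, nat_lit 5951, nat_lit 546, nat_lit 0, nat_lit 0, nat_lit 0, nat_lit 0, nat_lit 0, nat_lit 0, nat_lit 0, nat_lit 0, nat_lit 0, nat_lit 0, nat_lit 0, [],
 ⟨p034_k8, nat_lit 0, nat_lit 0, nat_lit 335, nat_lit 0, nat_lit 291621, [nat_lit 4688000000, nat_lit 6250000000, nat_lit 9842000000], [], [nat_lit 28290809896, nat_lit 26126742926, nat_lit 29788337424, nat_lit 25385130720, nat_lit 24490533276, nat_lit 20198204274, nat_lit 32108746020, nat_lit 27379251398], nat_lit 1271250, nat_lit 1271250, nat_lit 490000, nat_lit 1100001, nat_lit 0, nat_lit 490000, [nat_lit 1100000, nat_lit 1442500, nat_lit 1271250], [nat_lit 11, nat_lit 40, nat_lit 20, nat_lit 80, nat_lit 1, nat_lit 345, nat_lit 125, nat_lit 10]⟩, ⟨p034_k8, nat_lit 0, nat_lit 0, nat_lit 212, nat_lit 0, nat_lit 291621, [nat_lit 4688000000, nat_lit 6250000000, nat_lit 9842000000], [], [nat_lit 33713344164,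 nat_lit 30874413996, nat_lit 30302674588, nat_lit 31152523750, nat_lit 30637165146, nat_lit 30943941435, nat_lit 30361555537, nat_lit 31186785006], nat_lit 1271250, nat_lit 1271250, nat_lit 490000, nat_lit 1100001, nat_lit 490000, nat_lit 631250, [nat_lit 1100000, nat_lit 1442500, nat_lit 1271250], [nat_lit 11, nat_lit 40, nat_lit 20, nat_lit 80, nat_lit 1, nat_lit 373, nat_lit 150, nat_lit 11]⟩,
 zbF0, []⟩
noncomputable def p034_l53 : Lf2 := ⟨nat_lit 0, nat_lit 5, [nat_lit 4, nat_lit 5, nat_lit 5, nat_lit 20], false, nat_lit 0, nat_lit 80, nat_lit 100, nat_lit 120, ⟨nat_lit 1000, nat_lit 0, nat_lit 0, nat_lit 0, nat_lit 0, nat_lit 0, nat_lit 0, nat_lit 0, nat_lit 0, nat_lit 0, nat_lit 0, nat_lit 0, nat_lit 0, nat_lit 0, nat_lit 0, nat_lit 0, false, false⟩,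
 nat_lit 15589, nat_lit 0, nat_lit 0, nat_lit 0, nat_lit 8253, nat_lit 8253, nat_lit 458, nat_lit 0, nat_lit 0, nat_lit 0, nat_lit 0, nat_lit 0, nat_lit 0, nat_lit 0, nat_lit 0, nat_lit 0, nat_lit 0, nat_lit 0, [],
 ⟨p034_k8, nat_lit 0, nat_lit 0, nat_lit 371, nat_lit 0, nat_lit 386242, [nat_lit 4688000000, nat_lit 6250000000, nat_lit 9842000000], [], [nat_lit 29316952424, nat_lit 27912600494, nat_lit 31726560656, nat_lit 27729154082, nat_lit 27285083644, nat_lit 23817346888, nat_lit 33982909380, nat_lit 30094046262], nat_lit 1271250, nat_lit 1271250, nat_lit 490000, nat_lit 1100001, nat_lit 0, nat_lit 490000, [nat_lit 1100000, nat_lit 1442500, nat_lit 1271250], [nat_lit 11, nat_lit 40, nat_lit 20, nat_lit 80, nat_lit 1, nat_lit 345, nat_lit 125, nat_lit 10]⟩, ⟨p034_k8, nat_lit 0, nat_lit 0, nat_lit 296, nat_lit 0, nat_lit 386242, [nat_lit 4688000000, nat_lit 6250000000, nat_lit 9842000000], [], [nat_lit 30520789838,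 nat_lit 26254199290, nat_lit 28941351417, nat_lit 25025373068, nat_lit 26254665584, nat_lit 25157233819, nat_lit 30531275326, nat_lit 26641677691], nat_lit 1271250, nat_lit 1271250, nat_lit 490000, nat_lit 1100001, nat_lit 631250, nat_lit 780000, [nat_lit 1100000, nat_lit 1442500, nat_lit 1271250], [nat_lit 11, nat_lit 40, nat_lit 20, nat_lit 80, nat_lit 1, nat_lit 373, nat_lit 150, nat_lit 11]⟩,
 zbF0, []⟩
noncomputable def p034_l54 : Lf2 := ⟨nat_lit 0, nat_lit 2, [nat_lit 10, nat_lit 5, nat_lit 5, nat_lit 20], false, nat_lit 0, nat_lit 80, nat_lit 120, nat_lit 140, ⟨nat_lit 1000, nat_lit 0, nat_lit 0, nat_lit 0, nat_lit 0, nat_lit 0, nat_lit 0, nat_lit 0, nat_lit 0, nat_lit 0, nat_lit 0, nat_lit 0, nat_lit 0, nat_lit 0, nat_lit 0, nat_lit 0, false, false⟩,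
 nat_lit 30380, nat_lit 0, nat_lit 0, nat_lit 0, nat_lit 16083, nat_lit 16083, nat_lit 157, nat_lit 0, nat_lit 0, nat_lit 0, nat_lit 0, nat_lit 0, nat_lit 0, nat_lit 0, nat_lit 0, nat_lit 0, nat_lit 0, nat_lit 0, [],
 ⟨p034_k0, nat_lit 0, nat_lit 0, nat_lit 298, nat_lit 0, nat_lit 368686, [nat_lit 4688000000, nat_lit 6250000000, nat_lit 7968000000], [], [nat_lit 24813199064, nat_lit 20430379395, nat_lit 17154011336, nat_lit 18605052811, nat_lit 15019764484, nat_lit 8436533679, nat_lit 19256185056, nat_lit 11573528952], nat_lit 1271250, nat_lit 1271250, nat_lit 490000, nat_lit 780000, nat_lit 0, nat_lit 490000, [nat_lit 1100000, nat_lit 1442500, nat_lit 1271250], [nat_lit 9, nat_lit 40, nat_lit 20, nat_lit 80, nat_lit 2, nat_lit 260, nat_lit 50, nat_lit 9]⟩, ⟨p034_k0, nat_lit 0, nat_lit 0, nat_lit 198, nat_lit 0, nat_lit 368686, [nat_lit 4688000000, nat_lit 6250000000, nat_lit 7968000000], [], [nat_lit 21811359824, nat_lit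 13558030631, nat_lit 14214028666, nat_lit 6813808615, nat_lit 13497767630, nat_lit 8003035465, nat_lit 17154679089, nat_lit 9523392087], nat_lit 1271250, nat_lit 1271250, nat_lit 490000, nat_lit 780000, nat_lit 780000, nat_lit 936251, [nat_lit 1100000, nat_lit 1442500, nat_lit 1271250], [nat_lit 9, nat_lit 40, nat_lit 20, nat_lit 80, nat_lit 2, nat_lit 289, nat_lit 75, nat_lit 9]⟩,
 zbF0, []⟩
noncomputable def p034_l55 : Lf2 := ⟨nat_lit 0, nat_lit 2, [nat_lit 10, nat_lit 5, nat_lit 5, nat_lit 20], false, nat_lit 0, nat_lit 80, nat_lit 120, nat_lit 140, ⟨nat_lit 1000, nat_lit 0, nat_lit 0, nat_lit 0, nat_lit 0, nat_lit 0, nat_lit 0, nat_lit 0, nat_lit 0, nat_lit 0, nat_lit 0, nat_lit 0, nat_lit 0, nat_lit 0, nat_lit 0, nat_lit 0, false, false⟩,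
 nat_lit 11185, nat_lit 0, nat_lit 0, nat_lit 0, nat_lit 5921, nat_lit 5921, nat_lit 0, nat_lit 0, nat_lit 0, nat_lit 0, nat_lit 0, nat_lit 0, nat_lit 0, nat_lit 0, nat_lit 0, nat_lit 0, nat_lit 0, nat_lit 0, [],
 ⟨p034_k0, nat_lit 0, nat_lit 0, nat_lit 280, nat_lit 0, nat_lit 368686, [nat_lit 4688000000, nat_lit 6250000000, nat_lit 7968000000], [], [nat_lit 35261353244, nat_lit 32177826706, nat_lit 34260157392, nat_lit 31392273674, nat_lit 33230642272, nat_lit 30402251624, nat_lit 36432768660, nat_lit 33642757934], nat_lit 1271250, nat_lit 1271250, nat_lit 780000, nat_lit 1100001, nat_lit 0, nat_lit 490000, [nat_lit 1100000, nat_lit 1442500, nat_lit 1271250], [nat_lit 9, nat_lit 40, nat_lit 20, nat_lit 80, nat_lit 2, nat_lit 272, nat_lit 60, nat_lit 9]⟩, ⟨p034_k0, nat_lit 0, nat_lit 0, nat_lit 178, nat_lit 0, nat_lit 368686, [nat_lit 4688000000, nat_lit 6250000000, nat_lit 7968000000], [], [nat_lit 26016010288, nat_lit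 22977524797, nat_lit 21430354166, nat_lit 22281432733, nat_lit 22955338810, nat_lit 21812924217, nat_lit 22784108925, nat_lit 22445545603], nat_lit 1271250, nat_lit 1271250, nat_lit 780000, nat_lit 1100001, nat_lit 780000, nat_lit 936251, [nat_lit 1100000, nat_lit 1442500, nat_lit 1271250], [nat_lit 9, nat_lit 40, nat_lit 20, nat_lit 80, nat_lit 2, nat_lit 289, nat_lit 75, nat_lit 9]⟩,
 zbF0, []⟩
noncomputable def p034_l56 : Lf2 := ⟨nat_lit 0, nat_lit 2, [nat_lit 10, nat_lit 5, nat_lit 5, nat_lit 20], false, nat_lit 0, nat_lit 80, nat_lit 140, nat_lit 160, ⟨nat_lit 1000, nat_lit 0, nat_lit 0, nat_lit 0, nat_lit 0, nat_lit 0, nat_lit 0, nat_lit 0, nat_lit 0, nat_lit 0, nat_lit 0, nat_lit 0, nat_lit 0, nat_lit 0, nat_lit 0, nat_lit 0, false, false⟩,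
 nat_lit 15589, nat_lit 0, nat_lit 0, nat_lit 0, nat_lit 8253, nat_lit 8253, nat_lit 0, nat_lit 0, nat_lit 0, nat_lit 0, nat_lit 0, nat_lit 0, nat_lit 0, nat_lit 0, nat_lit 0, nat_lit 0, nat_lit 0, nat_lit 0, [],
 ⟨p034_k0, nat_lit 0, nat_lit 0, nat_lit 298, nat_lit 0, nat_lit 368686, [nat_lit 4688000000, nat_lit 6250000000, nat_lit 7968000000], [], [nat_lit 29316952424, nat_lit 25082684750, nat_lit 31726560656, nat_lit 27729154082, nat_lit 27285083644, nat_lit 23287677070, nat_lit 33982909380, nat_lit 30094046262], nat_lit 1271250, nat_lit 1271250, nat_lit 490000, nat_lit 1100001, nat_lit 0, nat_lit 490000, [nat_lit 1100000, nat_lit 1442500, nat_lit 1271250], [nat_lit 9, nat_lit 40, nat_lit 20, nat_lit 80, nat_lit 2, nat_lit 272, nat_lit 60, nat_lit 9]⟩, ⟨p034_k0, nat_lit 0, nat_lit 0, nat_lit 188, nat_lit 0, nat_lit 368686, [nat_lit 4688000000, nat_lit 6250000000, nat_lit 7968000000], [], [nat_lit 28959780198, nat_lit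 24693160764, nat_lit 19965135033, nat_lit 20964228669, nat_lit 24628952424, nat_lit 21075087630, nat_lit 20908098000, nat_lit 20927275682], nat_lit 1271250, nat_lit 1271250, nat_lit 490000, nat_lit 1100001, nat_lit 936251, nat_lit 1100001, [nat_lit 1100000, nat_lit 1442500, nat_lit 1271250], [nat_lit 9, nat_lit 40, nat_lit 20, nat_lit 80, nat_lit 2, nat_lit 317, nat_lit 100, nat_lit 10]⟩,
 zbF0, []⟩
noncomputable def p034_l57 : Lf2 := ⟨nat_lit 0, nat_lit 5, [nat_lit 4, nat_lit 5, nat_lit 5, nat_lit 20], false, nat_lit 0, nat_lit 80, nat_lit 120, nat_lit 160, ⟨nat_lit 1000, nat_lit 0, nat_lit 0, nat_lit 0, nat_lit 0, nat_lit 0, nat_lit 0, nat_lit 0, nat_lit 0, nat_lit 0, nat_lit 0, nat_lit 0, nat_lit 0, nat_lit 0, nat_lit 0, nat_lit 0, false, false⟩,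
 nat_lit 18960, nat_lit 0, nat_lit 0, nat_lit 0, nat_lit 10037, nat_lit 6757, nat_lit 546, nat_lit 0, nat_lit 0, nat_lit 0, nat_lit 0, nat_lit 0, nat_lit 0, nat_lit 0, nat_lit 0, nat_lit 0, nat_lit 0, nat_lit 0, [],
 ⟨p034_k8, nat_lit 0, nat_lit 0, nat_lit 335, nat_lit 0, nat_lit 291621, [nat_lit 4688000000, nat_lit 6250000000, nat_lit 9842000000], [], [nat_lit 28290809896, nat_lit 26126742926, nat_lit 29788337424, nat_lit 25385130720, nat_lit 24490533276, nat_lit 20198204274, nat_lit 32108746020, nat_lit 27379251398], nat_lit 1271250, nat_lit 1271250, nat_lit 490000, nat_lit 1100001, nat_lit 0, nat_lit 490000, [nat_lit 1100000, nat_lit 1442500, nat_lit 1271250], [nat_lit 11, nat_lit 40, nat_lit 20, nat_lit 80, nat_lit 1, nat_lit 345, nat_lit 125, nat_lit 10]⟩, ⟨p034_k8, nat_lit 0, nat_lit 0, nat_lit 192, nat_lit 0, nat_lit 291621, [nat_lit 4688000000, nat_lit 6250000000, nat_lit 9842000000], [], [nat_lit 32581019268,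 nat_lit 29061311482, nat_lit 28140896002, nat_lit 28981825927, nat_lit 28115180916, nat_lit 29010377250, nat_lit 28166611088, nat_lit 28953274604], nat_lit 1271250, nat_lit 1271250, nat_lit 490000, nat_lit 1100001, nat_lit 780000, nat_lit 1100001, [nat_lit 1100000, nat_lit 1442500, nat_lit 1271250], [nat_lit 11, nat_lit 40, nat_lit 20, nat_lit 80, nat_lit 1, nat_lit 373, nat_lit 150, nat_lit 11]⟩,
 zbF0, []⟩
noncomputable def p034_l58 : Lf2 := ⟨nat_lit 0, nat_lit 5, [nat_lit 4, nat_lit 5, nat_lit 5, nat_lit 20], false, nat_lit 0, nat_lit 80, nat_lit 160, nat_lit 240, ⟨nat_lit 1000, nat_lit 0, nat_lit 0, nat_lit 0, nat_lit 0, nat_lit 0, nat_lit 0, nat_lit 0, nat_lit 0, nat_lit 0, nat_lit 0, nat_lit 0, nat_lit 0, nat_lit 0, nat_lit 0, nat_lit 0, false, false⟩,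
 nat_lit 30190, nat_lit 0, nat_lit 0, nat_lit 0, nat_lit 15982, nat_lit 15982, nat_lit 2736, nat_lit 0, nat_lit 0, nat_lit 2054, nat_lit 0, nat_lit 0, nat_lit 0, nat_lit 1692344028109, nat_lit 0, nat_lit 0, nat_lit 0, nat_lit 0, [],
 ⟨p034_k8, nat_lit 0, nat_lit 0, nat_lit 371, nat_lit 0, nat_lit 386242, [nat_lit 4688000000, nat_lit 6250000000, nat_lit 9842000000], [], [nat_lit 24871293456, nat_lit 20354879004, nat_lit 23329404064, nat_lit 18505313708, nat_lit 15177976136, nat_lit 8098336892, nat_lit 25863285720, nat_lit 18332471428], nat_lit 1271250, nat_lit 1271250, nat_lit 490000, nat_lit 1100001, nat_lit 0, nat_lit 490000, [nat_lit 1100000, nat_lit 1442500, nat_lit 1271250], [nat_lit 11, nat_lit 40, nat_lit 20, nat_lit 80, nat_lit 1, nat_lit 345, nat_lit 125, nat_lit 10]⟩, ⟨p034_k8, nat_lit 0, nat_lit 0, nat_lit 220, nat_lit 0, nat_lit 386242, [nat_lit 4688000000, nat_lit 6250000000, nat_lit 9842000000], [], [nat_lit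 20183293456, nat_lit 11983600500, nat_lit 9515552000, nat_lit 6660458656, nat_lit 14610016144, nat_lit 12724696892, nat_lit 24862724952, nat_lit 17228315336], nat_lit 1271250, nat_lit 1271250, nat_lit 490000, nat_lit 1100001, nat_lit 1100001, nat_lit 1785000, [nat_lit 1100000, nat_lit 1442500, nat_lit 1271250], [nat_lit 11, nat_lit 40, nat_lit 20, nat_lit 80, nat_lit 1, nat_lit 401, nat_lit 175, nat_lit 11]⟩,
 zbF0, []⟩
noncomputable def p034_l59 : Lf2 := ⟨nat_lit 0, nat_lit 5, [nat_lit 4, nat_lit 5, nat_lit 5, nat_lit 20], false, nat_lit 0, nat_lit 80, nat_lit 240, nat_lit 288, ⟨nat_lit 1000, nat_lit 0, nat_lit 0, nat_lit 0, nat_lit 0, nat_lit 0, nat_lit 0, nat_lit 0, nat_lit 0, nat_lit 0, nat_lit 0, nat_lit 0, nat_lit 0, nat_lit 0, nat_lit 0, nat_lit 0, false, false⟩,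
 nat_lit 28618, nat_lit 0, nat_lit 0, nat_lit 0, nat_lit 15150, nat_lit 15150, nat_lit 2879, nat_lit 0, nat_lit 0, nat_lit 2498, nat_lit 0, nat_lit 0, nat_lit 0, nat_lit 17804290663128, nat_lit 0, nat_lit 0, nat_lit 0, nat_lit 0, [],
 ⟨p034_k8, nat_lit 0, nat_lit 0, nat_lit 371, nat_lit 0, nat_lit 386242, [nat_lit 4688000000, nat_lit 6250000000, nat_lit 9842000000], [], [nat_lit 25349853200, nat_lit 19727012050, nat_lit 24233328800, nat_lit 18087821100, nat_lit 16481264200, nat_lit 9143240500, nat_lit 26737335000, nat_lit 19598564100], nat_lit 1271250, nat_lit 1271250, nat_lit 490000, nat_lit 1100001, nat_lit 0, nat_lit 490000, [nat_lit 1100000, nat_lit 1442500, nat_lit 1271250], [nat_lit 11, nat_lit 40, nat_lit 20, nat_lit 80, nat_lit 1, nat_lit 345, nat_lit 125, nat_lit 10]⟩, ⟨p034_k8, nat_lit 0, nat_lit 0, nat_lit 281, nat_lit 0, nat_lit 386242, [nat_lit 4688000000, nat_lit 6250000000, nat_lit 9842000000], [], [nat_lit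 10020522100, nat_lit 12818340500, nat_lit 8573142600, nat_lit 11505440000, nat_lit 18169348520, nat_lit 20965904240, nat_lit 16187260441, nat_lit 18628476320], nat_lit 1271250, nat_lit 1271250, nat_lit 490000, nat_lit 1100001, nat_lit 1271250, nat_lit 1271250, [nat_lit 1100000, nat_lit 1442500, nat_lit 1271250], [nat_lit 11, nat_lit 40, nat_lit 20, nat_lit 80, nat_lit 1, nat_lit 428, nat_lit 200, nat_lit 12]⟩,
 zbF0, [⟨nat_lit 19, nat_lit 100, nat_lit 99, nat_lit 54, nat_lit 2009118870⟩]⟩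
noncomputable def b_VL_600_600_5_21 : St := ⟨true, nat_lit 1, nat_lit 1, nat_lit 1, nat_lit 40, nat_lit 240, nat_lit 260, nat_lit 240, nat_lit 260, nat_lit 80, nat_lit 160, nat_lit 20, nat_lit 40, nat_lit 0, nat_lit 80, nat_lit 0, nat_lit 288, nat_lit 0, nat_lit 20, nat_lit 0, nat_lit 0, nat_lit 0, nat_lit 0⟩
theorem d_VL_600_600_5_21 (h : EB TB.env) : Dead b_VL_600_600_5_21 := chkB_sound0 h (T :=
(.spl (nat_lit 5) (nat_lit 160)
(.spl (nat_lit 5) (nat_lit 80)
(.leaf p034_l47)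
(.spl (nat_lit 5) (nat_lit 120)
(.spl (nat_lit 5) (nat_lit 100)
(.spl (nat_lit 6) (nat_lit 8)
(.spl (nat_lit 1) (nat_lit 250)
(.spl (nat_lit 6) (nat_lit 4)
(.spl (nat_lit 2) (nat_lit 120)
(.leaf p034_l48)
(.leaf p034_l49))
(.leaf p034_l50))
(.ord (.leaf p034_l51)))
(.leaf p034_l52))
(.leaf p034_l53))
(.spl (nat_lit 6) (nat_lit 8)
(.spl (nat_lit 5) (nat_lit 140)
(.spl (nat_lit 2) (nat_lit 120)
(.leaf p034_l54)
(.leaf p034_l55))
(.leaf p034_l56))
(.leaf p034_l57))))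
(.spl (nat_lit 5) (nat_lit 240)
(.leaf p034_l58)
(.leaf p034_l59)))) (by decide +kernel)
noncomputable def p034_l60 : Lf2 := ⟨nat_lit 0, nat_lit 8, [nat_lit 50, nat_lit 5, nat_lit 5, nat_lit 20], true, nat_lit 0, nat_lit 80, nat_lit 0, nat_lit 288, ⟨nat_lit 0, nat_lit 0, nat_lit 1000, nat_lit 6, nat_lit 96, nat_lit 0, nat_lit 15, nat_lit 0, nat_lit 67, nat_lit 213, nat_lit 86400, nat_lit 287, nat_lit 63378861, nat_lit 0, nat_lit 0, nat_lit 1051306, false, false⟩,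
 nat_lit 0, nat_lit 7874, nat_lit 0, nat_lit 1271, nat_lit 4168, nat_lit 0, nat_lit 262, nat_lit 0, nat_lit 0, nat_lit 0, nat_lit 0, nat_lit 0, nat_lit 0, nat_lit 22317700269356, nat_lit 147, nat_lit 1000000, nat_lit 0, nat_lit 0, [(nat_lit 6, [(nat_lit 6, nat_lit 1000)])],
 ⟨p034_k18, nat_lit 0, nat_lit 0, nat_lit 304, nat_lit 0, nat_lit 78008, [nat_lit 3329066667, nat_lit 3042400001, nat_lit 177599999], [], [nat_lit 12450273013, nat_lit 13127372552, nat_lit 11232517735, nat_lit 11674967071, nat_lit 10657573095, nat_lit 11097488524, nat_lit 9897007431, nat_lit 10314389663], nat_lit 1271250, nat_lit 1271250, nat_lit 88400, nat_lit 490000, nat_lit 0, nat_lit 490000, [nat_lit 1100000, nat_lit 1442500, nat_lit 1271250], [nat_lit 11, nat_lit 40, nat_lit 20, nat_lit 80, nat_lit 1, nat_lit 345, nat_lit 125, nat_lit 10]⟩, C1.Rw.none,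
 ⟨nat_lit 6123, nat_lit 6325, ⟨.ofNat (nat_lit 164319), .ofNat (nat_lit 295942), .ofNat (nat_lit 175003), .ofNat (nat_lit 306625), .ofNat (nat_lit 172944), .ofNat (nat_lit 301553), .ofNat (nat_lit 183618), .ofNat (nat_lit 312227)⟩, ⟨.negSucc (nat_lit 103633), .ofNat (nat_lit 60895), .negSucc (nat_lit 82265), .ofNat (nat_lit 82263), .negSucc (nat_lit 94037), .ofNat (nat_lit 66723), .negSucc (nat_lit 72689), .ofNat (nat_lit 88071)⟩⟩, [⟨nat_lit 0, nat_lit 100, nat_lit 100, nat_lit 50, nat_lit 175079628⟩]⟩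
noncomputable def p034_l61 : Lf2 := ⟨nat_lit 1, nat_lit 10, [nat_lit 0, nat_lit 5, nat_lit 5, nat_lit 20], false, nat_lit 0, nat_lit 80, nat_lit 0, nat_lit 288, zbN0,
 nat_lit 0, nat_lit 0, nat_lit 0, nat_lit 0, nat_lit 0, nat_lit 0, nat_lit 0, nat_lit 0, nat_lit 0, nat_lit 0, nat_lit 0, nat_lit 0, nat_lit 0, nat_lit 0, nat_lit 0, nat_lit 0, nat_lit 0, nat_lit 0, [],
 C1.Rw.none, C1.Rw.none,
 zbF0, []⟩
noncomputable def p034_l62 : Lf2 := ⟨nat_lit 0, nat_lit 10, [nat_lit 0, nat_lit 5, nat_lit 5, nat_lit 20], true, nat_lit 0, nat_lit 40, nat_lit 0, nat_lit 288, ⟨nat_lit 0, nat_lit 0, nat_lit 1000, nat_lit 6, nat_lit 84, nat_lit 0, nat_lit 1, nat_lit 0, nat_lit 2817, nat_lit 202, nat_lit 66150, nat_lit 278, nat_lit 64190826, nat_lit 0, nat_lit 0, nat_lit 870105, false, false⟩,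
 nat_lit 0, nat_lit 7807, nat_lit 0, nat_lit 0, nat_lit 4336, nat_lit 0, nat_lit 549, nat_lit 0, nat_lit 0, nat_lit 0, nat_lit 0, nat_lit 0, nat_lit 0, nat_lit 23499506223456, nat_lit 69, nat_lit 400000, nat_lit 0, nat_lit 0, [(nat_lit 6, [(nat_lit 5, nat_lit 1000)])],
 ⟨p034_k19, nat_lit 0, nat_lit 0, nat_lit 309, nat_lit 0, nat_lit 103836, [nat_lit 2521600001, nat_lit 1460000001, nat_lit 7200000], [], [nat_lit 13864636212, nat_lit 14071598288, nat_lit 13300263198, nat_lit 13450538246, nat_lit 13433237323, nat_lit 13128036519, nat_lit 13790768579, nat_lit 13466613772], nat_lit 1271250, nat_lit 1271250, nat_lit 111251, nat_lit 230001, nat_lit 0, nat_lit 230001, [nat_lit 1100000, nat_lit 1442500, nat_lit 1271250], [nat_lit 11, nat_lit 40, nat_lit 20, nat_lit 80, nat_lit 1, nat_lit 317, nat_lit 100, nat_lit 10]⟩, C1.Rw.none,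
 ⟨nat_lit 6062, nat_lit 6124, ⟨.ofNat (nat_lit 180982), .ofNat (nat_lit 221172), .ofNat (nat_lit 194858), .ofNat (nat_lit 235048), .ofNat (nat_lit 183484), .ofNat (nat_lit 223395), .ofNat (nat_lit 197358), .ofNat (nat_lit 237269)⟩, ⟨.negSucc (nat_lit 94037), .negSucc (nat_lit 13656), .negSucc (nat_lit 72689), .ofNat (nat_lit 7691), .negSucc (nat_lit 91214), .negSucc (nat_lit 11391), .negSucc (nat_lit 69869), .ofNat (nat_lit 9953)⟩⟩, [⟨nat_lit 0, nat_lit 100, nat_lit 100, nat_lit 53, nat_lit 22926050⟩]⟩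
noncomputable def p034_l63 : Lf2 := ⟨nat_lit 0, nat_lit 10, [nat_lit 0, nat_lit 5, nat_lit 5, nat_lit 20], true, nat_lit 0, nat_lit 40, nat_lit 0, nat_lit 288, ⟨nat_lit 0, nat_lit 0, nat_lit 1000, nat_lit 6, nat_lit 85, nat_lit 0, nat_lit 1, nat_lit 0, nat_lit 2400, nat_lit 203, nat_lit 68267, nat_lit 279, nat_lit 64112337, nat_lit 0, nat_lit 0, nat_lit 888349, false, false⟩,
 nat_lit 0, nat_lit 8178, nat_lit 0, nat_lit 0, nat_lit 4607, nat_lit 0, nat_lit 667, nat_lit 0, nat_lit 0, nat_lit 0, nat_lit 0, nat_lit 0, nat_lit 0, nat_lit 19572948277509, nat_lit 69, nat_lit 400000, nat_lit 0, nat_lit 0, [(nat_lit 6, [(nat_lit 5, nat_lit 1000)])],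
 ⟨p034_k20, nat_lit 0, nat_lit 0, nat_lit 317, nat_lit 0, nat_lit 122277, [nat_lit 2521600001, nat_lit 1460000001, nat_lit 7200000], [], [nat_lit 13780949212, nat_lit 13923048223, nat_lit 12883135585, nat_lit 13024140884, nat_lit 12316303722, nat_lit 12427611535, nat_lit 12668989945, nat_lit 12439380290], nat_lit 1271250, nat_lit 1271250, nat_lit 111251, nat_lit 230001, nat_lit 0, nat_lit 230001, [nat_lit 1100000, nat_lit 1442500, nat_lit 1271250], [nat_lit 11, nat_lit 40, nat_lit 20, nat_lit 80, nat_lit 1, nat_lit 317, nat_lit 100, nat_lit 10]⟩, C1.Rw.none,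
 ⟨nat_lit 6020, nat_lit 6063, ⟨.ofNat (nat_lit 183484), .ofNat (nat_lit 223395), .ofNat (nat_lit 199492), .ofNat (nat_lit 239404), .ofNat (nat_lit 185145), .ofNat (nat_lit 224872), .ofNat (nat_lit 201152), .ofNat (nat_lit 240879)⟩, ⟨.negSucc (nat_lit 91214), .negSucc (nat_lit 11391), .negSucc (nat_lit 69869), .ofNat (nat_lit 9953), .negSucc (nat_lit 89345), .negSucc (nat_lit 9892), .negSucc (nat_lit 68003), .ofNat (nat_lit 11449)⟩⟩, [⟨nat_lit 0, nat_lit 100, nat_lit 100, nat_lit 55, nat_lit 221760539⟩]⟩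
noncomputable def p034_l64 : Lf2 := ⟨nat_lit 0, nat_lit 10, [nat_lit 0, nat_lit 5, nat_lit 5, nat_lit 20], true, nat_lit 0, nat_lit 40, nat_lit 0, nat_lit 288, ⟨nat_lit 0, nat_lit 0, nat_lit 1000, nat_lit 6, nat_lit 86, nat_lit 0, nat_lit 1, nat_lit 0, nat_lit 2017, nat_lit 204, nat_lit 68267, nat_lit 279, nat_lit 64043429, nat_lit 0, nat_lit 0, nat_lit 904228, false, false⟩,
 nat_lit 0, nat_lit 8088, nat_lit 0, nat_lit 0, nat_lit 4599, nat_lit 0, nat_lit 635, nat_lit 0, nat_lit 0, nat_lit 0, nat_lit 0, nat_lit 0, nat_lit 0, nat_lit 18292072732522, nat_lit 69, nat_lit 400000, nat_lit 0, nat_lit 0, [(nat_lit 6, [(nat_lit 5, nat_lit 1000)])],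
 ⟨p034_k21, nat_lit 0, nat_lit 0, nat_lit 324, nat_lit 0, nat_lit 141242, [nat_lit 2521600001, nat_lit 1460000001, nat_lit 7200000], [], [nat_lit 13983600961, nat_lit 14126621072, nat_lit 13086784638, nat_lit 13227669093, nat_lit 12491895231, nat_lit 12631045837, nat_lit 12382695598, nat_lit 12153484658], nat_lit 1271250, nat_lit 1271250, nat_lit 111251, nat_lit 230001, nat_lit 0, nat_lit 230001, [nat_lit 1100000, nat_lit 1442500, nat_lit 1271250], [nat_lit 11, nat_lit 40, nat_lit 20, nat_lit 80, nat_lit 1, nat_lit 317, nat_lit 100, nat_lit 10]⟩, C1.Rw.none,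
 ⟨nat_lit 5979, nat_lit 6021, ⟨.ofNat (nat_lit 185145), .ofNat (nat_lit 224872), .ofNat (nat_lit 203286), .ofNat (nat_lit 243013), .ofNat (nat_lit 186801), .ofNat (nat_lit 226344), .ofNat (nat_lit 204941), .ofNat (nat_lit 244483)⟩, ⟨.negSucc (nat_lit 89345), .negSucc (nat_lit 9892), .negSucc (nat_lit 68003), .ofNat (nat_lit 11449), .negSucc (nat_lit 87488), .negSucc (nat_lit 8404), .negSucc (nat_lit 66147), .ofNat (nat_lit 12936)⟩⟩, [⟨nat_lit 0, nat_lit 100, nat_lit 100, nat_lit 57, nat_lit 334283940⟩]⟩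
noncomputable def p034_l65 : Lf2 := ⟨nat_lit 0, nat_lit 10, [nat_lit 0, nat_lit 5, nat_lit 5, nat_lit 20], true, nat_lit 0, nat_lit 40, nat_lit 0, nat_lit 288, ⟨nat_lit 0, nat_lit 0, nat_lit 1000, nat_lit 6, nat_lit 87, nat_lit 0, nat_lit 1, nat_lit 0, nat_lit 2017, nat_lit 204, nat_lit 70417, nat_lit 280, nat_lit 63998424, nat_lit 0, nat_lit 0, nat_lit 914531, false, false⟩,
 nat_lit 0, nat_lit 7818, nat_lit 0, nat_lit 0, nat_lit 4488, nat_lit 0, nat_lit 604, nat_lit 0, nat_lit 0, nat_lit 0, nat_lit 0, nat_lit 0, nat_lit 0, nat_lit 17419607643885, nat_lit 74, nat_lit 438400, nat_lit 0, nat_lit 0, [(nat_lit 6, [(nat_lit 5, nat_lit 936), (nat_lit 6, nat_lit 64)])],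
 ⟨p034_k22, nat_lit 0, nat_lit 0, nat_lit 327, nat_lit 0, nat_lit 149710, [nat_lit 2573405867, nat_lit 1561433601, nat_lit 7424000], [], [nat_lit 13980589207, nat_lit 14062988228, nat_lit 13111705489, nat_lit 13181309356, nat_lit 12606857388, nat_lit 12667435571, nat_lit 12292120253, nat_lit 12255312988], nat_lit 1271250, nat_lit 1271250, nat_lit 111251, nat_lit 230001, nat_lit 0, nat_lit 230001, [nat_lit 1100000, nat_lit 1442500, nat_lit 1271250], [nat_lit 11, nat_lit 40, nat_lit 20, nat_lit 80, nat_lit 1, nat_lit 317, nat_lit 100, nat_lit 10]⟩, C1.Rw.none,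
 ⟨nat_lit 5958, nat_lit 5980, ⟨.ofNat (nat_lit 186801), .ofNat (nat_lit 226344), .ofNat (nat_lit 206008), .ofNat (nat_lit 245550), .ofNat (nat_lit 187628), .ofNat (nat_lit 227078), .ofNat (nat_lit 206834), .ofNat (nat_lit 246284)⟩, ⟨.negSucc (nat_lit 87488), .negSucc (nat_lit 8404), .negSucc (nat_lit 66147), .ofNat (nat_lit 12936), .negSucc (nat_lit 86563), .negSucc (nat_lit 7663), .negSucc (nat_lit 65223), .ofNat (nat_lit 13676)⟩⟩, [⟨nat_lit 0, nat_lit 100, nat_lit 100, nat_lit 58, nat_lit 327349218⟩]⟩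
noncomputable def p034_l66 : Lf2 := ⟨nat_lit 0, nat_lit 10, [nat_lit 0, nat_lit 5, nat_lit 5, nat_lit 20], true, nat_lit 0, nat_lit 20, nat_lit 0, nat_lit 288, ⟨nat_lit 0, nat_lit 0, nat_lit 1000, nat_lit 6, nat_lit 89, nat_lit 0, nat_lit 0, nat_lit 0, nat_lit 3750, nat_lit 200, nat_lit 74817, nat_lit 282, nat_lit 63833129, nat_lit 0, nat_lit 0, nat_lit 951926, false, false⟩,
 nat_lit 0, nat_lit 7559, nat_lit 0, nat_lit 0, nat_lit 4359, nat_lit 0, nat_lit 349, nat_lit 0, nat_lit 0, nat_lit 0, nat_lit 0, nat_lit 0, nat_lit 0, nat_lit 15785185279937, nat_lit 116, nat_lit 756400, nat_lit 0, nat_lit 0, [(nat_lit 6, [(nat_lit 5, nat_lit 406), (nat_lit 6, nat_lit 594)])],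
 ⟨p034_k23, nat_lit 0, nat_lit 0, nat_lit 331, nat_lit 0, nat_lit 168640, [nat_lit 3011923200, nat_lit 2413305601, nat_lit 83273599], [], [nat_lit 13639685089, nat_lit 13820318348, nat_lit 12971137648, nat_lit 13108396758, nat_lit 12956563671, nat_lit 13093288880, nat_lit 12593587516, nat_lit 12704583489], nat_lit 1271250, nat_lit 1271250, nat_lit 134400, nat_lit 230001, nat_lit 0, nat_lit 111251, [nat_lit 1100000, nat_lit 1442500, nat_lit 1271250], [nat_lit 11, nat_lit 40, nat_lit 20, nat_lit 80, nat_lit 1, nat_lit 317, nat_lit 100, nat_lit 10]⟩, C1.Rw.none,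
 ⟨nat_lit 5916, nat_lit 5959, ⟨.ofNat (nat_lit 195518), .ofNat (nat_lit 227078), .ofNat (nat_lit 216858), .ofNat (nat_lit 248418), .ofNat (nat_lit 197129), .ofNat (nat_lit 228543), .ofNat (nat_lit 218469), .ofNat (nat_lit 249882)⟩, ⟨.negSucc (nat_lit 86563), .negSucc (nat_lit 47113), .negSucc (nat_lit 65223), .negSucc (nat_lit 25773), .negSucc (nat_lit 84722), .negSucc (nat_lit 45455), .negSucc (nat_lit 63383), .negSucc (nat_lit 24116)⟩⟩, [⟨nat_lit 0, nat_lit 100, nat_lit 100, nat_lit 60, nat_lit 318968404⟩]⟩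
noncomputable def p034_l67 : Lf2 := ⟨nat_lit 0, nat_lit 10, [nat_lit 0, nat_lit 5, nat_lit 5, nat_lit 20], true, nat_lit 20, nat_lit 40, nat_lit 0, nat_lit 288, ⟨nat_lit 0, nat_lit 0, nat_lit 1000, nat_lit 6, nat_lit 89, nat_lit 0, nat_lit 1, nat_lit 0, nat_lit 417, nat_lit 210, nat_lit 74817, nat_lit 282, nat_lit 63833129, nat_lit 0, nat_lit 0, nat_lit 951926, false, false⟩,
 nat_lit 0, nat_lit 7943, nat_lit 0, nat_lit 0, nat_lit 4581, nat_lit 0, nat_lit 472, nat_lit 0, nat_lit 0, nat_lit 0, nat_lit 0, nat_lit 0, nat_lit 0, nat_lit 16632203890047, nat_lit 104, nat_lit 664000, nat_lit 0, nat_lit 0, [(nat_lit 6, [(nat_lit 5, nat_lit 560), (nat_lit 6, nat_lit 440)])],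
 ⟨p034_k23, nat_lit 0, nat_lit 0, nat_lit 314, nat_lit 0, nat_lit 168640, [nat_lit 2887765334, nat_lit 2169856001, nat_lit 40735999], [], [nat_lit 12887047497, nat_lit 13087955493, nat_lit 12208959826, nat_lit 12348086762, nat_lit 12152504239, nat_lit 12291138797, nat_lit 11986425687, nat_lit 11921330085], nat_lit 1271250, nat_lit 1271250, nat_lit 134400, nat_lit 230001, nat_lit 111251, nat_lit 230001, [nat_lit 1100000, nat_lit 1442500, nat_lit 1271250], [nat_lit 11, nat_lit 40, nat_lit 20, nat_lit 80, nat_lit 1, nat_lit 317, nat_lit 100, nat_lit 9]⟩, C1.Rw.none,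
 ⟨nat_lit 5916, nat_lit 5959, ⟨.ofNat (nat_lit 195518), .ofNat (nat_lit 227078), .ofNat (nat_lit 216858), .ofNat (nat_lit 248418), .ofNat (nat_lit 197129), .ofNat (nat_lit 228543), .ofNat (nat_lit 218469), .ofNat (nat_lit 249882)⟩, ⟨.negSucc (nat_lit 47113), .negSucc (nat_lit 7663), .negSucc (nat_lit 25773), .ofNat (nat_lit 13676), .negSucc (nat_lit 45455), .negSucc (nat_lit 6188), .negSucc (nat_lit 24116), .ofNat (nat_lit 15150)⟩⟩, [⟨nat_lit 0, nat_lit 100, nat_lit 100, nat_lit 60, nat_lit 321938838⟩]⟩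
noncomputable def p034_l68 : Lf2 := ⟨nat_lit 0, nat_lit 10, [nat_lit 0, nat_lit 5, nat_lit 5, nat_lit 20], true, nat_lit 0, nat_lit 40, nat_lit 0, nat_lit 288, ⟨nat_lit 0, nat_lit 0, nat_lit 1000, nat_lit 6, nat_lit 108, nat_lit 0, nat_lit 1, nat_lit 0, nat_lit 2400, nat_lit 203, nat_lit 109350, nat_lit 296, nat_lit 62416576, nat_lit 0, nat_lit 0, nat_lit 1247518, false, false⟩,
 nat_lit 0, nat_lit 7596, nat_lit 0, nat_lit 1696, nat_lit 4219, nat_lit 0, nat_lit 815, nat_lit 0, nat_lit 0, nat_lit 0, nat_lit 0, nat_lit 0, nat_lit 0, nat_lit 25736438784243, nat_lit 69, nat_lit 400000, nat_lit 0, nat_lit 0, [(nat_lit 6, [(nat_lit 5, nat_lit 1000)])],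
 ⟨p034_k19, nat_lit 0, nat_lit 0, nat_lit 299, nat_lit 0, nat_lit 124350, [nat_lit 2521600001, nat_lit 1460000001, nat_lit 7200000], [], [nat_lit 12028486512, nat_lit 12366347328, nat_lit 11590078234, nat_lit 11938174059, nat_lit 11206176937, nat_lit 11431874969, nat_lit 10893614727, nat_lit 11237972159], nat_lit 1271250, nat_lit 1271250, nat_lit 230001, nat_lit 490000, nat_lit 0, nat_lit 230001, [nat_lit 1100000, nat_lit 1442500, nat_lit 1271250], [nat_lit 11, nat_lit 40, nat_lit 20, nat_lit 80, nat_lit 1, nat_lit 317, nat_lit 100, nat_lit 10]⟩, C1.Rw.none,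
 ⟨nat_lit 6020, nat_lit 6124, ⟨.ofNat (nat_lit 221172), .ofNat (nat_lit 301553), .ofNat (nat_lit 237183), .ofNat (nat_lit 317564), .ofNat (nat_lit 224872), .ofNat (nat_lit 304325), .ofNat (nat_lit 240879), .ofNat (nat_lit 320331)⟩, ⟨.negSucc (nat_lit 94037), .negSucc (nat_lit 13656), .negSucc (nat_lit 72689), .ofNat (nat_lit 7691), .negSucc (nat_lit 89345), .negSucc (nat_lit 9892), .negSucc (nat_lit 68003), .ofNat (nat_lit 11449)⟩⟩, []⟩
noncomputable def p034_l69 : Lf2 := ⟨nat_lit 0, nat_lit 10, [nat_lit 0, nat_lit 5, nat_lit 5, nat_lit 20], true, nat_lit 0, nat_lit 40, nat_lit 0, nat_lit 288, ⟨nat_lit 0, nat_lit 0, nat_lit 1000, nat_lit 6, nat_lit 111, nat_lit 0, nat_lit 1, nat_lit 0, nat_lit 2017, nat_lit 204, nat_lit 114817, nat_lit 298, nat_lit 62229521, nat_lit 0, nat_lit 0, nat_lit 1283670, false, false⟩,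
 nat_lit 0, nat_lit 8047, nat_lit 0, nat_lit 0, nat_lit 4576, nat_lit 0, nat_lit 655, nat_lit 0, nat_lit 0, nat_lit 0, nat_lit 0, nat_lit 0, nat_lit 0, nat_lit 24012030429525, nat_lit 80, nat_lit 481600, nat_lit 0, nat_lit 0, [(nat_lit 6, [(nat_lit 5, nat_lit 864), (nat_lit 6, nat_lit 136)])],
 ⟨p034_k21, nat_lit 0, nat_lit 0, nat_lit 317, nat_lit 0, nat_lit 171444, [nat_lit 2637687467, nat_lit 1683046401, nat_lit 18176000], [], [nat_lit 12702168462, nat_lit 13074181440, nat_lit 12987045081, nat_lit 12590424117, nat_lit 12350906593, nat_lit 12139210821, nat_lit 13612899225, nat_lit 13050826857], nat_lit 1271250, nat_lit 1271250, nat_lit 230001, nat_lit 490000, nat_lit 0, nat_lit 230001, [nat_lit 1100000, nat_lit 1442500, nat_lit 1271250], [nat_lit 11, nat_lit 40, nat_lit 20, nat_lit 80, nat_lit 1, nat_lit 317, nat_lit 100, nat_lit 10]⟩, C1.Rw.none,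
 ⟨nat_lit 5916, nat_lit 6021, ⟨.ofNat (nat_lit 224872), .ofNat (nat_lit 304325), .ofNat (nat_lit 246214), .ofNat (nat_lit 325667), .ofNat (nat_lit 228543), .ofNat (nat_lit 307076), .ofNat (nat_lit 249882), .ofNat (nat_lit 328416)⟩, ⟨.negSucc (nat_lit 89345), .negSucc (nat_lit 9892), .negSucc (nat_lit 68003), .ofNat (nat_lit 11449), .negSucc (nat_lit 84722), .negSucc (nat_lit 6188), .negSucc (nat_lit 63383), .ofNat (nat_lit 15150)⟩⟩, []⟩
noncomputable def p034_l70 : Lf2 := ⟨nat_lit 0, nat_lit 10, [nat_lit 0, nat_lit 5, nat_lit 5, nat_lit 20], true, nat_lit 40, nat_lit 80, nat_lit 0, nat_lit 288, ⟨nat_lit 0, nat_lit 0, nat_lit 1000, nat_lit 6, nat_lit 102, nat_lit 0, nat_lit 17, nat_lit 521, nat_lit 2400, nat_lit 227, nat_lit 98817, nat_lit 292, nat_lit 62897457, nat_lit 0, nat_lit 0, nat_lit 1151713, false, false⟩,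
 nat_lit 0, nat_lit 7672, nat_lit 0, nat_lit 0, nat_lit 4261, nat_lit 0, nat_lit 743, nat_lit 0, nat_lit 0, nat_lit 0, nat_lit 0, nat_lit 0, nat_lit 0, nat_lit 18670711308236, nat_lit 69, nat_lit 400000, nat_lit 0, nat_lit 0, [(nat_lit 6, [(nat_lit 5, nat_lit 1000)])],
 ⟨p034_k19, nat_lit 0, nat_lit 0, nat_lit 303, nat_lit 0, nat_lit 176297, [nat_lit 2521600001, nat_lit 1460000001, nat_lit 7200000], [], [nat_lit 11841321755, nat_lit 12456206305, nat_lit 11091389277, nat_lit 11524742620, nat_lit 11057619942, nat_lit 11500479046, nat_lit 10381605344, nat_lit 10802258758], nat_lit 1271250, nat_lit 1271250, nat_lit 111251, nat_lit 490000, nat_lit 230001, nat_lit 490000, [nat_lit 1100000, nat_lit 1442500, nat_lit 1271250], [nat_lit 11, nat_lit 40, nat_lit 20, nat_lit 80, nat_lit 1, nat_lit 345, nat_lit 125, nat_lit 10]⟩, C1.Rw.none,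
 ⟨nat_lit 5916, nat_lit 6124, ⟨.ofNat (nat_lit 180982), .ofNat (nat_lit 301553), .ofNat (nat_lit 202330), .ofNat (nat_lit 322901), .ofNat (nat_lit 189276), .ofNat (nat_lit 307076), .ofNat (nat_lit 210615), .ofNat (nat_lit 328416)⟩, ⟨.negSucc (nat_lit 13656), .ofNat (nat_lit 66723), .ofNat (nat_lit 7691), .ofNat (nat_lit 88071), .negSucc (nat_lit 6188), .ofNat (nat_lit 72344), .ofNat (nat_lit 15150), .ofNat (nat_lit 93684)⟩⟩, [⟨nat_lit 0, nat_lit 100, nat_lit 100, nat_lit 60, nat_lit 189715275⟩]⟩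
noncomputable def p034_l71 : Lf2 := ⟨nat_lit 0, nat_lit 10, [nat_lit 0, nat_lit 5, nat_lit 5, nat_lit 20], true, nat_lit 0, nat_lit 80, nat_lit 0, nat_lit 288, ⟨nat_lit 0, nat_lit 0, nat_lit 1000, nat_lit 6, nat_lit 154, nat_lit 0, nat_lit 15, nat_lit 0, nat_lit 67, nat_lit 213, nat_lit 86400, nat_lit 287, nat_lit 58334920, nat_lit 0, nat_lit 0, nat_lit 1925549, false, false⟩,
 nat_lit 0, nat_lit 8928, nat_lit 0, nat_lit 2587, nat_lit 4726, nat_lit 0, nat_lit 811, nat_lit 0, nat_lit 0, nat_lit 0, nat_lit 0, nat_lit 0, nat_lit 0, nat_lit 20379702777612, nat_lit 166, nat_lit 1000000, nat_lit 0, nat_lit 0, [(nat_lit 6, [(nat_lit 6, nat_lit 1000)])],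
 ⟨p034_k24, nat_lit 0, nat_lit 0, nat_lit 350, nat_lit 0, nat_lit 145085, [nat_lit 3633066667, nat_lit 3172240001, nat_lit 348400000], [], [nat_lit 10180984749, nat_lit 10786654422, nat_lit 11192147260, nat_lit 11888291010, nat_lit 8074271548, nat_lit 8756328914, nat_lit 11515129964, nat_lit 10320482232], nat_lit 1271250, nat_lit 1271250, nat_lit 490000, nat_lit 1100001, nat_lit 0, nat_lit 490000, [nat_lit 1100000, nat_lit 1442500, nat_lit 1271250], [nat_lit 48, nat_lit 40, nat_lit 20, nat_lit 80, nat_lit 12, nat_lit 345, nat_lit 125, nat_lit 9]⟩, C1.Rw.none,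
 ⟨nat_lit 6123, nat_lit 6325, ⟨.ofNat (nat_lit 295942), .ofNat (nat_lit 460470), .ofNat (nat_lit 306625), .ofNat (nat_lit 471154), .ofNat (nat_lit 301553), .ofNat (nat_lit 462314), .ofNat (nat_lit 312227), .ofNat (nat_lit 472988)⟩, ⟨.negSucc (nat_lit 103633), .ofNat (nat_lit 60895), .negSucc (nat_lit 82265), .ofNat (nat_lit 82263), .negSucc (nat_lit 94037), .ofNat (nat_lit 66723), .negSucc (nat_lit 72689), .ofNat (nat_lit 88071)⟩⟩, []⟩
noncomputable def p034_l72 : Lf2 := ⟨nat_lit 0, nat_lit 10, [nat_lit 0, nat_lit 5, nat_lit 5, nat_lit 20], false, nat_lit 0, nat_lit 80, nat_lit 0, nat_lit 288, ⟨nat_lit 0, nat_lit 0, nat_lit 1000, nat_lit 6, nat_lit 158, nat_lit 0, nat_lit 16, nat_lit 0, nat_lit 0, nat_lit 215, nat_lit 58974, nat_lit 274, nat_lit 57979258, nat_lit 0, nat_lit 0, nat_lit 1975543, false, false⟩,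
 nat_lit 0, nat_lit 8368, nat_lit 0, nat_lit 0, nat_lit 4648, nat_lit 0, nat_lit 796, nat_lit 0, nat_lit 0, nat_lit 0, nat_lit 0, nat_lit 0, nat_lit 0, nat_lit 24001091687041, nat_lit 78, nat_lit 466000, nat_lit 0, nat_lit 0, [(nat_lit 6, [(nat_lit 5, nat_lit 890), (nat_lit 6, nat_lit 110)])],
 ⟨p034_k19, nat_lit 0, nat_lit 0, nat_lit 292, nat_lit 0, nat_lit 176297, [nat_lit 2617141334, nat_lit 1642464001, nat_lit 18960000], [], [nat_lit 11211544704, nat_lit 11898635856, nat_lit 12322060148, nat_lit 13014050524, nat_lit 9211930943, nat_lit 9888277884, nat_lit 10782839607, nat_lit 11348169756], nat_lit 1271250, nat_lit 1271250, nat_lit 490000, nat_lit 1100001, nat_lit 0, nat_lit 490000, [nat_lit 1100000, nat_lit 1442500, nat_lit 1271250], [nat_lit 11, nat_lit 40, nat_lit 20, nat_lit 80, nat_lit 1, nat_lit 345, nat_lit 125, nat_lit 10]⟩, ⟨p034_k24, nat_lit 0, nat_lit 0, nat_lit 366, nat_lit 0, nat_lit 186733, [nat_lit 0,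 nat_lit 0, nat_lit 0], [], [nat_lit 0, nat_lit 0, nat_lit 0, nat_lit 0, nat_lit 0, nat_lit 0, nat_lit 0, nat_lit 0], nat_lit 1271250, nat_lit 1271250, nat_lit 490000, nat_lit 1100001, nat_lit 0, nat_lit 2034000, [nat_lit 1100000, nat_lit 1442500, nat_lit 1271250], [nat_lit 48, nat_lit 40, nat_lit 20, nat_lit 80, nat_lit 12, nat_lit 428, nat_lit 200, nat_lit 11]⟩,
 ⟨nat_lit 5916, nat_lit 6124, ⟨.ofNat (nat_lit 301553), .ofNat (nat_lit 462314), .ofNat (nat_lit 322901), .ofNat (nat_lit 483662), .ofNat (nat_lit 307076), .ofNat (nat_lit 464143), .ofNat (nat_lit 328416), .ofNat (nat_lit 485483)⟩, ⟨.negSucc (nat_lit 94037), .ofNat (nat_lit 66723), .negSucc (nat_lit 72689), .ofNat (nat_lit 88071), .negSucc (nat_lit 84722), .ofNat (nat_lit 72344), .negSucc (nat_lit 63383), .ofNat (nat_lit 93684)⟩⟩, []⟩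
noncomputable def b_VL_600_600_5_22 : St := ⟨true, nat_lit 1, nat_lit 1, nat_lit 1, nat_lit 40, nat_lit 240, nat_lit 260, nat_lit 240, nat_lit 260, nat_lit 16, nat_lit 160, nat_lit 20, nat_lit 40, nat_lit 0, nat_lit 80, nat_lit 0, nat_lit 288, nat_lit 20, nat_lit 40, nat_lit 0, nat_lit 0, nat_lit 0, nat_lit 0⟩
theorem d_VL_600_600_5_22 (h : EB TB.env) : Dead b_VL_600_600_5_22 := chkB_sound0 h (T :=
(.spl (nat_lit 2) (nat_lit 80)
(.spl (nat_lit 0) (nat_lit 250)
(.ord (.spl (nat_lit 6) (nat_lit 32)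
(.leaf p034_l60)
(.leaf p034_l61)))
(.trZ (nat_lit 0) (nat_lit 100) (nat_lit 99) (nat_lit 45) (nat_lit 20) (.spl (nat_lit 4) (nat_lit 40)
(.spl (nat_lit 2) (nat_lit 40)
(.spl (nat_lit 0) (nat_lit 255)
(.ord (.spl (nat_lit 0) (nat_lit 253)
(.ord (.leaf p034_l62))
(.leaf p034_l63)))
(.spl (nat_lit 0) (nat_lit 258)
(.ord (.spl (nat_lit 0) (nat_lit 257)
(.ord (.leaf p034_l64))
(.leaf p034_l65)))
(.trZ (nat_lit 0) (nat_lit 100) (nat_lit 98) (nat_lit 49) (nat_lit 24) (.spl (nat_lit 4) (nat_lit 20)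
(.leaf p034_l66)
(.leaf p034_l67)))))
(.spl (nat_lit 0) (nat_lit 255)
(.ord (.leaf p034_l68))
(.leaf p034_l69)))
(.leaf p034_l70))))
(.spl (nat_lit 0) (nat_lit 250)
(.ord (.leaf p034_l71))
(.leaf p034_l72)))) (by decide +kernel)
noncomputable def p034_l73 : Lf2 := ⟨nat_lit 0, nat_lit 2, [nat_lit 10, nat_lit 5, nat_lit 5, nat_lit 20], false, nat_lit 0, nat_lit 40, nat_lit 0, nat_lit 288, ⟨nat_lit 188, nat_lit 0, nat_lit 812, nat_lit 6, nat_lit 93, nat_lit 0, nat_lit 2, nat_lit 0, nat_lit 1350, nat_lit 206, nat_lit 81667, nat_lit 285, nat_lit 63559630, nat_lit 0, nat_lit 0, nat_lit 1012329, false, false⟩,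
 nat_lit 4167, nat_lit 3871, nat_lit 0, nat_lit 0, nat_lit 4678, nat_lit 2205, nat_lit 317, nat_lit 0, nat_lit 0, nat_lit 0, nat_lit 0, nat_lit 0, nat_lit 0, nat_lit 0, nat_lit 0, nat_lit 812000, nat_lit 0, nat_lit 0, [(nat_lit 9, [(nat_lit 6, nat_lit 812)])],
 ⟨p034_k25, nat_lit 0, nat_lit 0, nat_lit 307, nat_lit 0, nat_lit 419839, [nat_lit 1772595200, nat_lit 574120000], [], [nat_lit 14529421812, nat_lit 15388909637, nat_lit 14140049895, nat_lit 14796455568, nat_lit 13733523137, nat_lit 14398679851, nat_lit 13387258176, nat_lit 14044863782], nat_lit 1271250, nat_lit 1271250, nat_lit 134400, nat_lit 230001, nat_lit 0, nat_lit 230001, [nat_lit 1100000, nat_lit 1442500], [nat_lit 31, nat_lit 40, nat_lit 20, nat_lit 80, nat_lit 3, nat_lit 226, nat_lit 20, nat_lit 9]⟩, ⟨p034_k26, nat_lit 0, nat_lit 0, nat_lit 0, nat_lit 0, nat_lit 467234, [nat_lit 881344000, nat_lit 1024506000, nat_lit 1332826000], [], [nat_lit 8361642076,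 nat_lit 6628717141, nat_lit 7432366876, nat_lit 5709893641, nat_lit 5997594392, nat_lit 4967656807, nat_lit 6086394284, nat_lit 4552785914], nat_lit 1271250, nat_lit 1271250, nat_lit 134400, nat_lit 230001, nat_lit 0, nat_lit 2034000, [nat_lit 1100000, nat_lit 1271250, nat_lit 1271250], [nat_lit 105, nat_lit 40, nat_lit 20, nat_lit 40]⟩,
 ⟨nat_lit 5700, nat_lit 5917, ⟨.ofNat (nat_lit 197129), .ofNat (nat_lit 228543), .ofNat (nat_lit 229138), .ofNat (nat_lit 260552), .ofNat (nat_lit 205119), .ofNat (nat_lit 235806), .ofNat (nat_lit 237132), .ofNat (nat_lit 267819)⟩, ⟨.negSucc (nat_lit 84722), .negSucc (nat_lit 6188), .negSucc (nat_lit 63383), .ofNat (nat_lit 15150), .negSucc (nat_lit 75673), .ofNat (nat_lit 1045), .negSucc (nat_lit 54331), .ofNat (nat_lit 22387)⟩⟩, [⟨nat_lit 0, nat_lit 100, nat_lit 98, nat_lit 60, nat_lit 473704603⟩]⟩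
noncomputable def p034_l74 : Lf2 := ⟨nat_lit 0, nat_lit 5, [nat_lit 4, nat_lit 5, nat_lit 5, nat_lit 20], true, nat_lit 0, nat_lit 40, nat_lit 0, nat_lit 288, ⟨nat_lit 0, nat_lit 0, nat_lit 1000, nat_lit 6, nat_lit 90, nat_lit 0, nat_lit 2, nat_lit 0, nat_lit 1350, nat_lit 206, nat_lit 74817, nat_lit 282, nat_lit 63774514, nat_lit 0, nat_lit 0, nat_lit 965022, false, false⟩,
 nat_lit 0, nat_lit 7425, nat_lit 0, nat_lit 0, nat_lit 4322, nat_lit 0, nat_lit 0, nat_lit 0, nat_lit 0, nat_lit 0, nat_lit 0, nat_lit 0, nat_lit 0, nat_lit 0, nat_lit 117, nat_lit 1000000, nat_lit 0, nat_lit 0, [(nat_lit 9, [(nat_lit 6, nat_lit 1000)])],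
 ⟨p034_k27, nat_lit 0, nat_lit 0, nat_lit 364, nat_lit 0, nat_lit 354210, [nat_lit 2969600000, nat_lit 1600000000, nat_lit 226400000], [], [nat_lit 13764746538, nat_lit 14805893564, nat_lit 13264722109, nat_lit 14304655034, nat_lit 12476353306, nat_lit 13116399750, nat_lit 12327201365, nat_lit 12963455784], nat_lit 1271250, nat_lit 1271250, nat_lit 134400, nat_lit 181601, nat_lit 0, nat_lit 230001, [nat_lit 1100000, nat_lit 1442500, nat_lit 1271250], [nat_lit 9, nat_lit 40, nat_lit 20, nat_lit 80, nat_lit 2, nat_lit 226, nat_lit 20, nat_lit 8]⟩, C1.Rw.none,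
 ⟨nat_lit 5700, nat_lit 5917, ⟨.ofNat (nat_lit 197129), .ofNat (nat_lit 212836), .ofNat (nat_lit 229138), .ofNat (nat_lit 244845), .ofNat (nat_lit 205119), .ofNat (nat_lit 220462), .ofNat (nat_lit 237132), .ofNat (nat_lit 252475)⟩, ⟨.negSucc (nat_lit 84722), .negSucc (nat_lit 6188), .negSucc (nat_lit 63383), .ofNat (nat_lit 15150), .negSucc (nat_lit 75673), .ofNat (nat_lit 1045), .negSucc (nat_lit 54331), .ofNat (nat_lit 22387)⟩⟩, [⟨nat_lit 0, nat_lit 100, nat_lit 98, nat_lit 60, nat_lit 1150424809⟩]⟩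
noncomputable def p034_l75 : Lf2 := ⟨nat_lit 0, nat_lit 5, [nat_lit 4, nat_lit 5, nat_lit 5, nat_lit 20], true, nat_lit 0, nat_lit 40, nat_lit 0, nat_lit 288, ⟨nat_lit 0, nat_lit 0, nat_lit 1000, nat_lit 6, nat_lit 91, nat_lit 0, nat_lit 2, nat_lit 0, nat_lit 1667, nat_lit 205, nat_lit 77067, nat_lit 283, nat_lit 63692169, nat_lit 0, nat_lit 0, nat_lit 983280, false, false⟩,
 nat_lit 0, nat_lit 7329, nat_lit 0, nat_lit 0, nat_lit 4266, nat_lit 0, nat_lit 0, nat_lit 0, nat_lit 0, nat_lit 0, nat_lit 0, nat_lit 0, nat_lit 0, nat_lit 0, nat_lit 117, nat_lit 1000000, nat_lit 0, nat_lit 0, [(nat_lit 9, [(nat_lit 6, nat_lit 1000)])],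
 ⟨p034_k27, nat_lit 0, nat_lit 0, nat_lit 284, nat_lit 0, nat_lit 241132, [nat_lit 2969600000, nat_lit 1600000000, nat_lit 226400000], [], [nat_lit 13188551447, nat_lit 13704717794, nat_lit 12909045056, nat_lit 13233396976, nat_lit 12451788015, nat_lit 12767921753, nat_lit 12306373872, nat_lit 12620627513], nat_lit 1271250, nat_lit 1271250, nat_lit 181601, nat_lit 230001, nat_lit 0, nat_lit 230001, [nat_lit 1100000, nat_lit 1442500, nat_lit 1271250], [nat_lit 9, nat_lit 40, nat_lit 20, nat_lit 80, nat_lit 2, nat_lit 226, nat_lit 20, nat_lit 8]⟩, C1.Rw.none,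
 ⟨nat_lit 5809, nat_lit 5917, ⟨.ofNat (nat_lit 212836), .ofNat (nat_lit 228543), .ofNat (nat_lit 223506), .ofNat (nat_lit 239212), .ofNat (nat_lit 216662), .ofNat (nat_lit 232187), .ofNat (nat_lit 227332), .ofNat (nat_lit 242856)⟩, ⟨.negSucc (nat_lit 84722), .negSucc (nat_lit 6188), .negSucc (nat_lit 63383), .ofNat (nat_lit 15150), .negSucc (nat_lit 80165), .negSucc (nat_lit 2543), .negSucc (nat_lit 58826), .ofNat (nat_lit 18795)⟩⟩, [⟨nat_lit 0, nat_lit 100, nat_lit 98, nat_lit 57, nat_lit 202837568⟩]⟩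
noncomputable def p034_l76 : Lf2 := ⟨nat_lit 0, nat_lit 5, [nat_lit 4, nat_lit 5, nat_lit 5, nat_lit 20], false, nat_lit 0, nat_lit 40, nat_lit 0, nat_lit 280, ⟨nat_lit 147, nat_lit 0, nat_lit 853, nat_lit 6, nat_lit 96, nat_lit 0, nat_lit 2, nat_lit 0, nat_lit 1667, nat_lit 205, nat_lit 86400, nat_lit 287, nat_lit 63315583, nat_lit 0, nat_lit 0, nat_lit 1064779, false, false⟩,
 nat_lit 4749, nat_lit 3356, nat_lit 0, nat_lit 0, nat_lit 4717, nat_lit 2638, nat_lit 256, nat_lit 0, nat_lit 0, nat_lit 0, nat_lit 0, nat_lit 0, nat_lit 0, nat_lit 0, nat_lit 51, nat_lit 853000, nat_lit 0, nat_lit 0, [(nat_lit 9, [(nat_lit 6, nat_lit 853)])],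
 ⟨p034_k27, nat_lit 0, nat_lit 0, nat_lit 311, nat_lit 0, nat_lit 307678, [nat_lit 2441388800, nat_lit 1307530000, nat_lit 187458200], [], [nat_lit 13887169882, nat_lit 14348768164, nat_lit 13680874070, nat_lit 13968973274, nat_lit 13044400986, nat_lit 13363975234, nat_lit 12856270164, nat_lit 13186450194], nat_lit 1271250, nat_lit 1271250, nat_lit 181601, nat_lit 230001, nat_lit 0, nat_lit 230001, [nat_lit 1100000, nat_lit 1442500, nat_lit 1271250], [nat_lit 9, nat_lit 40, nat_lit 20, nat_lit 80, nat_lit 2, nat_lit 226, nat_lit 20, nat_lit 8]⟩, ⟨p034_k10, nat_lit 0, nat_lit 0, nat_lit 0, nat_lit 0, nat_lit 324623, [nat_lit 689136000, nat_lit 918750000, nat_lit 1171296000], [], [nat_lit 6104567154, nat_lit 5071081851, nat_lit 5550771814, nat_lit 4528757631, nat_lit 4797952129, nat_lit 4188210495, nat_lit 4849654219, nat_lit 3941809602], nat_lit 1271250, nat_lit 1271250, nat_lit 181601, nat_lit 230001, nat_lit 0, nat_lit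 1977500, [nat_lit 1100000, nat_lit 1442500, nat_lit 1271250], [nat_lit 9, nat_lit 40, nat_lit 20, nat_lit 80]⟩,
 ⟨nat_lit 5809, nat_lit 5917, ⟨.ofNat (nat_lit 223506), .ofNat (nat_lit 239212), .ofNat (nat_lit 239510), .ofNat (nat_lit 255217), .ofNat (nat_lit 227332), .ofNat (nat_lit 242856), .ofNat (nat_lit 243336), .ofNat (nat_lit 258861)⟩, ⟨.negSucc (nat_lit 84722), .negSucc (nat_lit 6188), .negSucc (nat_lit 63383), .ofNat (nat_lit 15150), .negSucc (nat_lit 80165), .negSucc (nat_lit 2543), .negSucc (nat_lit 58826), .ofNat (nat_lit 18795)⟩⟩, [⟨nat_lit 0, nat_lit 100, nat_lit 99, nat_lit 60, nat_lit 486900564⟩, ⟨nat_lit 7, nat_lit 100, nat_lit 99, nat_lit 55, nat_lit 13393594⟩]⟩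
noncomputable def p034_l77 : Lf2 := ⟨nat_lit 0, nat_lit 5, [nat_lit 4, nat_lit 5, nat_lit 5, nat_lit 20], true, nat_lit 0, nat_lit 40, nat_lit 0, nat_lit 288, ⟨nat_lit 0, nat_lit 0, nat_lit 1000, nat_lit 6, nat_lit 97, nat_lit 0, nat_lit 2, nat_lit 0, nat_lit 1350, nat_lit 206, nat_lit 88817, nat_lit 288, nat_lit 63285047, nat_lit 0, nat_lit 0, nat_lit 1071250, false, false⟩,
 nat_lit 0, nat_lit 7328, nat_lit 0, nat_lit 0, nat_lit 4363, nat_lit 0, nat_lit 0, nat_lit 0, nat_lit 0, nat_lit 0, nat_lit 0, nat_lit 0, nat_lit 0, nat_lit 0, nat_lit 117, nat_lit 1000000, nat_lit 0, nat_lit 0, [(nat_lit 9, [(nat_lit 6, nat_lit 1000)])],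
 ⟨p034_k28, nat_lit 0, nat_lit 0, nat_lit 328, nat_lit 0, nat_lit 345094, [nat_lit 2969600000, nat_lit 1600000000, nat_lit 226400000], [], [nat_lit 13843238605, nat_lit 14365987295, nat_lit 13336794818, nat_lit 13858935916, nat_lit 12555572855, nat_lit 12875159570, nat_lit 12401776647, nat_lit 12719455697], nat_lit 1271250, nat_lit 1271250, nat_lit 181601, nat_lit 230001, nat_lit 0, nat_lit 230001, [nat_lit 1100000, nat_lit 1442500, nat_lit 1271250], [nat_lit 9, nat_lit 40, nat_lit 20, nat_lit 80, nat_lit 2, nat_lit 226, nat_lit 20, nat_lit 8]⟩, C1.Rw.none,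
 ⟨nat_lit 5700, nat_lit 5810, ⟨.ofNat (nat_lit 216662), .ofNat (nat_lit 232187), .ofNat (nat_lit 248671), .ofNat (nat_lit 264196), .ofNat (nat_lit 220462), .ofNat (nat_lit 235806), .ofNat (nat_lit 252475), .ofNat (nat_lit 267819)⟩, ⟨.negSucc (nat_lit 80165), .negSucc (nat_lit 2543), .negSucc (nat_lit 58826), .ofNat (nat_lit 18795), .negSucc (nat_lit 75673), .ofNat (nat_lit 1045), .negSucc (nat_lit 54331), .ofNat (nat_lit 22387)⟩⟩, [⟨nat_lit 0, nat_lit 100, nat_lit 98, nat_lit 61, nat_lit 1099679770⟩]⟩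
noncomputable def p034_l78 : Lf2 := ⟨nat_lit 0, nat_lit 2, [nat_lit 10, nat_lit 5, nat_lit 5, nat_lit 20], true, nat_lit 0, nat_lit 40, nat_lit 0, nat_lit 288, ⟨nat_lit 0, nat_lit 0, nat_lit 1000, nat_lit 6, nat_lit 95, nat_lit 0, nat_lit 3, nat_lit 0, nat_lit 817, nat_lit 208, nat_lit 86400, nat_lit 287, nat_lit 63388447, nat_lit 0, nat_lit 0, nat_lit 1049257, false, false⟩,
 nat_lit 0, nat_lit 7071, nat_lit 0, nat_lit 0, nat_lit 4306, nat_lit 0, nat_lit 0, nat_lit 0, nat_lit 0, nat_lit 0, nat_lit 0, nat_lit 0, nat_lit 0, nat_lit 0, nat_lit 37, nat_lit 1000000, nat_lit 0, nat_lit 0, [(nat_lit 9, [(nat_lit 6, nat_lit 1000)])],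
 ⟨p034_k29, nat_lit 0, nat_lit 0, nat_lit 302, nat_lit 0, nat_lit 403404, [nat_lit 1689600001, nat_lit 0], [], [nat_lit 14530205544, nat_lit 15568573813, nat_lit 13781750392, nat_lit 14818298144, nat_lit 13073846311, nat_lit 13710853068, nat_lit 12846045917, nat_lit 13477378279], nat_lit 1271250, nat_lit 1271250, nat_lit 157850, nat_lit 230001, nat_lit 0, nat_lit 230001, [nat_lit 1100000, nat_lit 1442500], [nat_lit 31, nat_lit 40, nat_lit 20, nat_lit 80, nat_lit 3, nat_lit 226, nat_lit 20, nat_lit 9]⟩, C1.Rw.none,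
 ⟨nat_lit 5477, nat_lit 5701, ⟨.ofNat (nat_lit 212791), .ofNat (nat_lit 235806), .ofNat (nat_lit 234133), .ofNat (nat_lit 257148), .ofNat (nat_lit 220501), .ofNat (nat_lit 242980), .ofNat (nat_lit 241858), .ofNat (nat_lit 264337)⟩, ⟨.negSucc (nat_lit 75673), .ofNat (nat_lit 1045), .negSucc (nat_lit 54331), .ofNat (nat_lit 22387), .negSucc (nat_lit 66879), .ofNat (nat_lit 8053), .negSucc (nat_lit 45522), .ofNat (nat_lit 29410)⟩⟩, [⟨nat_lit 0, nat_lit 100, nat_lit 96, nat_lit 61, nat_lit 1031837680⟩]⟩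
noncomputable def p034_l79 : Lf2 := ⟨nat_lit 0, nat_lit 5, [nat_lit 4, nat_lit 5, nat_lit 5, nat_lit 20], true, nat_lit 0, nat_lit 40, nat_lit 0, nat_lit 288, ⟨nat_lit 0, nat_lit 0, nat_lit 1000, nat_lit 6, nat_lit 95, nat_lit 0, nat_lit 3, nat_lit 0, nat_lit 817, nat_lit 208, nat_lit 86400, nat_lit 287, nat_lit 63388447, nat_lit 0, nat_lit 0, nat_lit 1049257, false, false⟩,
 nat_lit 0, nat_lit 7071, nat_lit 0, nat_lit 0, nat_lit 4306, nat_lit 0, nat_lit 0, nat_lit 0, nat_lit 0, nat_lit 0, nat_lit 0, nat_lit 0, nat_lit 0, nat_lit 0, nat_lit 117, nat_lit 1000000, nat_lit 0, nat_lit 0, [(nat_lit 9, [(nat_lit 6, nat_lit 1000)])],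
 ⟨p034_k30, nat_lit 0, nat_lit 0, nat_lit 334, nat_lit 0, nat_lit 340822, [nat_lit 2969600000, nat_lit 1600000000, nat_lit 226400000], [], [nat_lit 14530205544, nat_lit 15568573813, nat_lit 13781750392, nat_lit 14818298144, nat_lit 13073846308, nat_lit 13710853065, nat_lit 12846045914, nat_lit 13477378276], nat_lit 1271250, nat_lit 1271250, nat_lit 157850, nat_lit 230001, nat_lit 0, nat_lit 230001, [nat_lit 1100000, nat_lit 1442500, nat_lit 1271250], [nat_lit 9, nat_lit 40, nat_lit 20, nat_lit 80, nat_lit 2, nat_lit 226, nat_lit 20, nat_lit 8]⟩, C1.Rw.none,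
 ⟨nat_lit 5477, nat_lit 5701, ⟨.ofNat (nat_lit 212791), .ofNat (nat_lit 235806), .ofNat (nat_lit 234133), .ofNat (nat_lit 257148), .ofNat (nat_lit 220501), .ofNat (nat_lit 242980), .ofNat (nat_lit 241858), .ofNat (nat_lit 264337)⟩, ⟨.negSucc (nat_lit 75673), .ofNat (nat_lit 1045), .negSucc (nat_lit 54331), .ofNat (nat_lit 22387), .negSucc (nat_lit 66879), .ofNat (nat_lit 8053), .negSucc (nat_lit 45522), .ofNat (nat_lit 29410)⟩⟩, [⟨nat_lit 0, nat_lit 100, nat_lit 96, nat_lit 61, nat_lit 1057588426⟩]⟩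
noncomputable def p034_l80 : Lf2 := ⟨nat_lit 0, nat_lit 2, [nat_lit 10, nat_lit 5, nat_lit 5, nat_lit 20], false, nat_lit 0, nat_lit 40, nat_lit 0, nat_lit 288, ⟨nat_lit 321, nat_lit 0, nat_lit 679, nat_lit 6, nat_lit 115, nat_lit 0, nat_lit 2, nat_lit 0, nat_lit 1350, nat_lit 206, nat_lit 123267, nat_lit 301, nat_lit 61901485, nat_lit 0, nat_lit 0, nat_lit 1345657, false, false⟩,
 nat_lit 7135, nat_lit 1926, nat_lit 0, nat_lit 0, nat_lit 5274, nat_lit 3777, nat_lit 881, nat_lit 0, nat_lit 0, nat_lit 0, nat_lit 0, nat_lit 0, nat_lit 0, nat_lit 0, nat_lit 0, nat_lit 679000, nat_lit 0, nat_lit 0, [(nat_lit 9, [(nat_lit 6, nat_lit 679)])],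
 ⟨p034_k25, nat_lit 0, nat_lit 0, nat_lit 272, nat_lit 0, nat_lit 419839, [nat_lit 2250118400, nat_lit 1503790000], [], [nat_lit 14423539635, nat_lit 15092550168, nat_lit 13980896843, nat_lit 14670844072, nat_lit 13474125539, nat_lit 14153788306, nat_lit 13113318564, nat_lit 13784159814], nat_lit 1271250, nat_lit 1271250, nat_lit 230001, nat_lit 490000, nat_lit 0, nat_lit 230001, [nat_lit 1100000, nat_lit 1442500], [nat_lit 31, nat_lit 40, nat_lit 20, nat_lit 80, nat_lit 3, nat_lit 238, nat_lit 30, nat_lit 10]⟩, ⟨p034_k26, nat_lit 0, nat_lit 0, nat_lit 0, nat_lit 0, nat_lit 467234, [nat_lit 1504848000, nat_lit 1749289500, nat_lit 2275729500], [], [nat_lit 12696004680, nat_lit 9745536921, nat_lit 8762047668, nat_lit 6277712412, nat_lit 10381891491, nat_lit 7774778598, nat_lit 11141186595, nat_lit 8548771637], nat_lit 1271250, nat_lit 1271250, nat_lit 230001, nat_lit 490000, nat_lit 0, nat_lit 2034000, [nat_lit 1100000,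 nat_lit 1271250, nat_lit 1271250], [nat_lit 105, nat_lit 40, nat_lit 20, nat_lit 40]⟩,
 ⟨nat_lit 5700, nat_lit 5917, ⟨.ofNat (nat_lit 228543), .ofNat (nat_lit 307076), .ofNat (nat_lit 260552), .ofNat (nat_lit 339085), .ofNat (nat_lit 235806), .ofNat (nat_lit 312525), .ofNat (nat_lit 267819), .ofNat (nat_lit 344538)⟩, ⟨.negSucc (nat_lit 84722), .negSucc (nat_lit 6188), .negSucc (nat_lit 63383), .ofNat (nat_lit 15150), .negSucc (nat_lit 75673), .ofNat (nat_lit 1045), .negSucc (nat_lit 54331), .ofNat (nat_lit 22387)⟩⟩, [⟨nat_lit 7, nat_lit 100, nat_lit 100, nat_lit 55, nat_lit 30803776⟩]⟩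
noncomputable def p034_l81 : Lf2 := ⟨nat_lit 0, nat_lit 5, [nat_lit 4, nat_lit 5, nat_lit 5, nat_lit 20], false, nat_lit 0, nat_lit 40, nat_lit 0, nat_lit 288, ⟨nat_lit 242, nat_lit 0, nat_lit 758, nat_lit 6, nat_lit 113, nat_lit 0, nat_lit 2, nat_lit 0, nat_lit 1667, nat_lit 205, nat_lit 120417, nat_lit 300, nat_lit 62040350, nat_lit 0, nat_lit 0, nat_lit 1319631, false, false⟩,
 nat_lit 8057, nat_lit 702, nat_lit 0, nat_lit 0, nat_lit 5098, nat_lit 4265, nat_lit 553, nat_lit 0, nat_lit 0, nat_lit 34, nat_lit 0, nat_lit 0, nat_lit 0, nat_lit 0, nat_lit 8, nat_lit 758000, nat_lit 0, nat_lit 0, [(nat_lit 9, [(nat_lit 6, nat_lit 758)])],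
 ⟨p034_k27, nat_lit 0, nat_lit 0, nat_lit 303, nat_lit 0, nat_lit 307678, [nat_lit 2094476800, nat_lit 1111580000, nat_lit 153965200], [], [nat_lit 13980601180, nat_lit 14282215028, nat_lit 13589651794, nat_lit 13855807116, nat_lit 13032512118, nat_lit 13350104089, nat_lit 14190826874, nat_lit 13564636985], nat_lit 1271250, nat_lit 1271250, nat_lit 230001, nat_lit 490000, nat_lit 0, nat_lit 230001, [nat_lit 1100000, nat_lit 1442500, nat_lit 1271250], [nat_lit 9, nat_lit 40, nat_lit 20, nat_lit 80, nat_lit 2, nat_lit 238, nat_lit 30, nat_lit 8]⟩, ⟨p034_k8, nat_lit 0, nat_lit 0, nat_lit 0, nat_lit 0, nat_lit 343219, [nat_lit 1134496000, nat_lit 1512500000, nat_lit 2381764000], [], [nat_lit 10232533364, nat_lit 8535627565, nat_lit 6225157736, nat_lit 7210783429, nat_lit 9245598060, nat_lit 6805774955, nat_lit 10029143064, nat_lit 7620970524], nat_lit 1271250, nat_lit 1271250, nat_lit 230001, nat_lit 490000, nat_lit 0, nat_lit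 2034000, [nat_lit 1100000, nat_lit 1442500, nat_lit 1271250], [nat_lit 11, nat_lit 40, nat_lit 20, nat_lit 80]⟩,
 ⟨nat_lit 5809, nat_lit 5917, ⟨.ofNat (nat_lit 228543), .ofNat (nat_lit 307076), .ofNat (nat_lit 255217), .ofNat (nat_lit 333750), .ofNat (nat_lit 232187), .ofNat (nat_lit 309809), .ofNat (nat_lit 258861), .ofNat (nat_lit 336483)⟩, ⟨.negSucc (nat_lit 84722), .negSucc (nat_lit 6188), .negSucc (nat_lit 63383), .ofNat (nat_lit 15150), .negSucc (nat_lit 80165), .negSucc (nat_lit 2543), .negSucc (nat_lit 58826), .ofNat (nat_lit 18795)⟩⟩, [⟨nat_lit 0, nat_lit 100, nat_lit 100, nat_lit 65, nat_lit 37996762⟩, ⟨nat_lit 19, nat_lit 100, nat_lit 99, nat_lit 55, nat_lit 23265917⟩]⟩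
noncomputable def p034_l82 : Lf2 := ⟨nat_lit 0, nat_lit 5, [nat_lit 4, nat_lit 5, nat_lit 5, nat_lit 20], true, nat_lit 0, nat_lit 40, nat_lit 0, nat_lit 288, ⟨nat_lit 0, nat_lit 0, nat_lit 1000, nat_lit 6, nat_lit 113, nat_lit 0, nat_lit 2, nat_lit 0, nat_lit 1350, nat_lit 206, nat_lit 120417, nat_lit 300, nat_lit 62023731, nat_lit 0, nat_lit 0, nat_lit 1322762, false, false⟩,
 nat_lit 0, nat_lit 7232, nat_lit 0, nat_lit 0, nat_lit 4306, nat_lit 0, nat_lit 0, nat_lit 0, nat_lit 0, nat_lit 0, nat_lit 0, nat_lit 0, nat_lit 0, nat_lit 0, nat_lit 117, nat_lit 1000000, nat_lit 0, nat_lit 0, [(nat_lit 9, [(nat_lit 6, nat_lit 1000)])],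
 ⟨p034_k28, nat_lit 0, nat_lit 0, nat_lit 302, nat_lit 0, nat_lit 300921, [nat_lit 2969600000, nat_lit 1600000000, nat_lit 226400000], [], [nat_lit 13263476516, nat_lit 13781750392, nat_lit 12971387052, nat_lit 13284491368, nat_lit 12530379733, nat_lit 12846045914, nat_lit 12386888641, nat_lit 12690062766], nat_lit 1271250, nat_lit 1271250, nat_lit 230001, nat_lit 490000, nat_lit 0, nat_lit 230001, [nat_lit 1100000, nat_lit 1442500, nat_lit 1271250], [nat_lit 9, nat_lit 40, nat_lit 20, nat_lit 80, nat_lit 2, nat_lit 238, nat_lit 30, nat_lit 8]⟩, C1.Rw.none,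
 ⟨nat_lit 5700, nat_lit 5810, ⟨.ofNat (nat_lit 232187), .ofNat (nat_lit 309809), .ofNat (nat_lit 253526), .ofNat (nat_lit 331148), .ofNat (nat_lit 235806), .ofNat (nat_lit 312525), .ofNat (nat_lit 257148), .ofNat (nat_lit 333867)⟩, ⟨.negSucc (nat_lit 80165), .negSucc (nat_lit 2543), .negSucc (nat_lit 58826), .ofNat (nat_lit 18795), .negSucc (nat_lit 75673), .ofNat (nat_lit 1045), .negSucc (nat_lit 54331), .ofNat (nat_lit 22387)⟩⟩, [⟨nat_lit 0, nat_lit 100, nat_lit 98, nat_lit 64, nat_lit 131968992⟩]⟩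
noncomputable def p034_l83 : Lf2 := ⟨nat_lit 0, nat_lit 5, [nat_lit 4, nat_lit 5, nat_lit 5, nat_lit 20], false, nat_lit 0, nat_lit 40, nat_lit 0, nat_lit 268, ⟨nat_lit 301, nat_lit 0, nat_lit 699, nat_lit 6, nat_lit 120, nat_lit 0, nat_lit 2, nat_lit 0, nat_lit 1350, nat_lit 206, nat_lit 135000, nat_lit 305, nat_lit 61492992, nat_lit 0, nat_lit 0, nat_lit 1420475, false, false⟩,
 nat_lit 8757, nat_lit 0, nat_lit 0, nat_lit 0, nat_lit 5214, nat_lit 5097, nat_lit 675, nat_lit 0, nat_lit 0, nat_lit 232, nat_lit 0, nat_lit 0, nat_lit 0, nat_lit 0, nat_lit 0, nat_lit 699000, nat_lit 0, nat_lit 0, [(nat_lit 9, [(nat_lit 6, nat_lit 699)])],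
 ⟨p034_k28, nat_lit 0, nat_lit 0, nat_lit 320, nat_lit 0, nat_lit 345094, [nat_lit 2178310401, nat_lit 1363990000, nat_lit 582090600], [], [nat_lit 14693213464, nat_lit 15011302248, nat_lit 14239064991, nat_lit 14583800395, nat_lit 13723886330, nat_lit 14071617169, nat_lit 13857765106, nat_lit 13715231157], nat_lit 1271250, nat_lit 1271250, nat_lit 230001, nat_lit 490000, nat_lit 0, nat_lit 230001, [nat_lit 1100000, nat_lit 1442500, nat_lit 1271250], [nat_lit 9, nat_lit 40, nat_lit 20, nat_lit 80, nat_lit 2, nat_lit 238, nat_lit 30, nat_lit 8]⟩, ⟨p034_k27, nat_lit 0, nat_lit 0, nat_lit 0, nat_lit 0, nat_lit 354210, [nat_lit 1411088000, nat_lit 1881250000, nat_lit 2398368000], [], [nat_lit 9975919454, nat_lit 9295219062, nat_lit 6342491230, nat_lit 7152320227, nat_lit 8155762605, nat_lit 7426486144, nat_lit 9104270386, nat_lit 7945590274], nat_lit 1271250, nat_lit 1271250, nat_lit 230001, nat_lit 490000, nat_lit 0, nat_lit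 1892750, [nat_lit 1100000, nat_lit 1442500, nat_lit 1271250], [nat_lit 9, nat_lit 40, nat_lit 20, nat_lit 80]⟩,
 ⟨nat_lit 5700, nat_lit 5810, ⟨.ofNat (nat_lit 253526), .ofNat (nat_lit 331148), .ofNat (nat_lit 264196), .ofNat (nat_lit 341818), .ofNat (nat_lit 257148), .ofNat (nat_lit 333867), .ofNat (nat_lit 267819), .ofNat (nat_lit 344538)⟩, ⟨.negSucc (nat_lit 80165), .negSucc (nat_lit 2543), .negSucc (nat_lit 58826), .ofNat (nat_lit 18795), .negSucc (nat_lit 75673), .ofNat (nat_lit 1045), .negSucc (nat_lit 54331), .ofNat (nat_lit 22387)⟩⟩, [⟨nat_lit 0, nat_lit 100, nat_lit 100, nat_lit 66, nat_lit 178647451⟩, ⟨nat_lit 7, nat_lit 100, nat_lit 97, nat_lit 54, nat_lit 32994656⟩]⟩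
noncomputable def p034_l84 : Lf2 := ⟨nat_lit 0, nat_lit 2, [nat_lit 10, nat_lit 5, nat_lit 5, nat_lit 20], true, nat_lit 0, nat_lit 40, nat_lit 0, nat_lit 288, ⟨nat_lit 0, nat_lit 0, nat_lit 1000, nat_lit 6, nat_lit 118, nat_lit 0, nat_lit 3, nat_lit 0, nat_lit 817, nat_lit 208, nat_lit 129067, nat_lit 303, nat_lit 61655607, nat_lit 0, nat_lit 0, nat_lit 1390996, false, false⟩,
 nat_lit 0, nat_lit 5981, nat_lit 0, nat_lit 0, nat_lit 3642, nat_lit 0, nat_lit 493, nat_lit 0, nat_lit 0, nat_lit 0, nat_lit 0, nat_lit 0, nat_lit 0, nat_lit 19029124534742, nat_lit 31, nat_lit 858400, nat_lit 0, nat_lit 0, [(nat_lit 9, [(nat_lit 5, nat_lit 236), (nat_lit 6, nat_lit 764)])],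
 ⟨p034_k31, nat_lit 0, nat_lit 0, nat_lit 0, nat_lit 0, nat_lit 441624, [nat_lit 1482947200, nat_lit 1112806400, nat_lit 5929600], [], [nat_lit 12978043770, nat_lit 13355830876, nat_lit 12947329124, nat_lit 13246690708, nat_lit 12116620014, nat_lit 12420528437, nat_lit 12136988462, nat_lit 12429318826], nat_lit 1271250, nat_lit 1271250, nat_lit 230001, nat_lit 490000, nat_lit 0, nat_lit 230001, [nat_lit 936250, nat_lit 1100000, nat_lit 1442500], [nat_lit 187, nat_lit 40, nat_lit 20, nat_lit 40]⟩, C1.Rw.none,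
 ⟨nat_lit 5590, nat_lit 5701, ⟨.ofNat (nat_lit 235806), .ofNat (nat_lit 312525), .ofNat (nat_lit 273155), .ofNat (nat_lit 349874), .ofNat (nat_lit 239403), .ofNat (nat_lit 315226), .ofNat (nat_lit 276762), .ofNat (nat_lit 352585)⟩, ⟨.negSucc (nat_lit 75673), .ofNat (nat_lit 1045), .negSucc (nat_lit 54331), .ofNat (nat_lit 22387), .negSucc (nat_lit 71245), .ofNat (nat_lit 4577), .negSucc (nat_lit 49897), .ofNat (nat_lit 25924)⟩⟩, [⟨nat_lit 0, nat_lit 100, nat_lit 100, nat_lit 75, nat_lit 108932639⟩]⟩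
noncomputable def p034_l85 : Lf2 := ⟨nat_lit 0, nat_lit 2, [nat_lit 10, nat_lit 5, nat_lit 5, nat_lit 20], false, nat_lit 0, nat_lit 40, nat_lit 0, nat_lit 288, ⟨nat_lit 307, nat_lit 0, nat_lit 693, nat_lit 6, nat_lit 120, nat_lit 0, nat_lit 3, nat_lit 0, nat_lit 600, nat_lit 209, nat_lit 135000, nat_lit 305, nat_lit 61459996, nat_lit 0, nat_lit 0, nat_lit 1426408, false, false⟩,
 nat_lit 6039, nat_lit 1474, nat_lit 0, nat_lit 0, nat_lit 4677, nat_lit 3196, nat_lit 1540, nat_lit 0, nat_lit 0, nat_lit 0, nat_lit 0, nat_lit 0, nat_lit 0, nat_lit 0, nat_lit 0, nat_lit 693000, nat_lit 0, nat_lit 0, [(nat_lit 9, [(nat_lit 6, nat_lit 693)])],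
 ⟨p034_k32, nat_lit 0, nat_lit 0, nat_lit 0, nat_lit 0, nat_lit 472482, [nat_lit 1882965701, nat_lit 1743304400, nat_lit 1635020100], [], [nat_lit 15045658308, nat_lit 15371022848, nat_lit 15054983957, nat_lit 15185129312, nat_lit 14373789373, nat_lit 14290547652, nat_lit 15801754215, nat_lit 15243217521], nat_lit 1271250, nat_lit 1271250, nat_lit 230001, nat_lit 490000, nat_lit 0, nat_lit 230001, [nat_lit 936250, nat_lit 1100000, nat_lit 1271250], [nat_lit 219, nat_lit 40, nat_lit 20, nat_lit 40]⟩, ⟨p034_k26, nat_lit 0, nat_lit 0, nat_lit 0, nat_lit 0, nat_lit 566941, [nat_lit 1439216000, nat_lit 1672996500, nat_lit 2176476500], [], [nat_lit 11948151028, nat_lit 8619338052, nat_lit 8619338052, nat_lit 6479787404, nat_lit 10284141604, nat_lit 7479733721, nat_lit 10963430600, nat_lit 8038584353], nat_lit 1271250, nat_lit 1271250, nat_lit 230001, nat_lit 490000, nat_lit 0, nat_lit 2034000, [nat_lit 1100000, nat_lit 1271250,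 nat_lit 1271250], [nat_lit 105, nat_lit 40, nat_lit 20, nat_lit 40]⟩,
 ⟨nat_lit 5477, nat_lit 5591, ⟨.ofNat (nat_lit 239403), .ofNat (nat_lit 315226), .ofNat (nat_lit 282099), .ofNat (nat_lit 357922), .ofNat (nat_lit 242980), .ofNat (nat_lit 317913), .ofNat (nat_lit 285695), .ofNat (nat_lit 360628)⟩, ⟨.negSucc (nat_lit 71245), .ofNat (nat_lit 4577), .negSucc (nat_lit 49897), .ofNat (nat_lit 25924), .negSucc (nat_lit 66879), .ofNat (nat_lit 8053), .negSucc (nat_lit 45522), .ofNat (nat_lit 29410)⟩⟩, [⟨nat_lit 0, nat_lit 100, nat_lit 97, nat_lit 68, nat_lit 28543142⟩, ⟨nat_lit 7, nat_lit 100, nat_lit 98, nat_lit 54, nat_lit 48721884⟩]⟩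
noncomputable def p034_l86 : Lf2 := ⟨nat_lit 0, nat_lit 2, [nat_lit 10, nat_lit 5, nat_lit 5, nat_lit 20], true, nat_lit 0, nat_lit 40, nat_lit 0, nat_lit 288, ⟨nat_lit 0, nat_lit 0, nat_lit 1000, nat_lit 6, nat_lit 119, nat_lit 0, nat_lit 3, nat_lit 0, nat_lit 817, nat_lit 208, nat_lit 135000, nat_lit 305, nat_lit 61513305, nat_lit 0, nat_lit 0, nat_lit 1416814, false, false⟩,
 nat_lit 0, nat_lit 1000000, nat_lit 0, nat_lit 0, nat_lit 609022, nat_lit 0, nat_lit 60000, nat_lit 10077, nat_lit 0, nat_lit 0, nat_lit 0, nat_lit 0, nat_lit 0, nat_lit 400000000000000, nat_lit 0, nat_lit 1000000, nat_lit 845980922253, nat_lit 0, [(nat_lit 9, [(nat_lit 6, nat_lit 1000)])],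
 ⟨p034_k29, nat_lit 0, nat_lit 0, nat_lit 323, nat_lit 0, nat_lit 484283, [nat_lit 162329600001, nat_lit 200800000000], [], [nat_lit 197078949047, nat_lit 237289478959, nat_lit 154348936856, nat_lit 91825502256, nat_lit 85127481670, nat_lit 44250210935, nat_lit 143514511745, nat_lit 0], nat_lit 1271250, nat_lit 1271250, nat_lit 230001, nat_lit 490000, nat_lit 0, nat_lit 230001, [nat_lit 1100000, nat_lit 1442500], [nat_lit 31, nat_lit 40, nat_lit 20, nat_lit 80, nat_lit 3, nat_lit 238, nat_lit 30, nat_lit 9]⟩, C1.Rw.none,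
 ⟨nat_lit 5477, nat_lit 5701, ⟨.ofNat (nat_lit 235806), .ofNat (nat_lit 312525), .ofNat (nat_lit 278490), .ofNat (nat_lit 355209), .ofNat (nat_lit 242980), .ofNat (nat_lit 317913), .ofNat (nat_lit 285695), .ofNat (nat_lit 360628)⟩, ⟨.negSucc (nat_lit 75673), .ofNat (nat_lit 1045), .negSucc (nat_lit 54331), .ofNat (nat_lit 22387), .negSucc (nat_lit 66879), .ofNat (nat_lit 8053), .negSucc (nat_lit 45522), .ofNat (nat_lit 29410)⟩⟩, [⟨nat_lit 0, nat_lit 100, nat_lit 97, nat_lit 67, nat_lit 8547785240⟩, ⟨nat_lit 0, nat_lit 100, nat_lit 100, nat_lit 80, nat_lit 10000000000⟩]⟩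
noncomputable def p034_l87 : Lf2 := ⟨nat_lit 0, nat_lit 5, [nat_lit 4, nat_lit 5, nat_lit 5, nat_lit 20], false, nat_lit 0, nat_lit 40, nat_lit 0, nat_lit 288, ⟨nat_lit 174, nat_lit 0, nat_lit 826, nat_lit 6, nat_lit 115, nat_lit 0, nat_lit 3, nat_lit 0, nat_lit 817, nat_lit 208, nat_lit 123267, nat_lit 301, nat_lit 61920528, nat_lit 0, nat_lit 0, nat_lit 1342106, false, false⟩,
 nat_lit 6397, nat_lit 1434, nat_lit 0, nat_lit 0, nat_lit 4769, nat_lit 3386, nat_lit 236, nat_lit 0, nat_lit 0, nat_lit 0, nat_lit 0, nat_lit 0, nat_lit 0, nat_lit 0, nat_lit 39, nat_lit 826000, nat_lit 0, nat_lit 0, [(nat_lit 9, [(nat_lit 6, nat_lit 826)])],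
 ⟨p034_k30, nat_lit 0, nat_lit 0, nat_lit 311, nat_lit 0, nat_lit 316794, [nat_lit 2346329601, nat_lit 1256260001, nat_lit 183244399], [], [nat_lit 14599352590, nat_lit 14958400082, nat_lit 14183666382, nat_lit 14497245419, nat_lit 13738632746, nat_lit 14023983146, nat_lit 13433795862, nat_lit 13752393675], nat_lit 1271250, nat_lit 1271250, nat_lit 230001, nat_lit 490000, nat_lit 0, nat_lit 230001, [nat_lit 1100000, nat_lit 1442500, nat_lit 1271250], [nat_lit 9, nat_lit 40, nat_lit 20, nat_lit 80, nat_lit 2, nat_lit 238, nat_lit 30, nat_lit 8]⟩, ⟨p034_k8, nat_lit 0, nat_lit 0, nat_lit 0, nat_lit 0, nat_lit 372134, [nat_lit 815712000, nat_lit 1087500000, nat_lit 1712508000], [], [nat_lit 7506246592, nat_lit 6246657188, nat_lit 4573348336, nat_lit 5186667312, nat_lit 6518177116, nat_lit 4968589114, nat_lit 7121386872, nat_lit 5591900876], nat_lit 1271250, nat_lit 1271250, nat_lit 230001, nat_lit 490000, nat_lit 0, nat_lit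 2034000, [nat_lit 1100000, nat_lit 1442500, nat_lit 1271250], [nat_lit 11, nat_lit 40, nat_lit 20, nat_lit 80]⟩,
 ⟨nat_lit 5590, nat_lit 5701, ⟨.ofNat (nat_lit 235806), .ofNat (nat_lit 312525), .ofNat (nat_lit 257148), .ofNat (nat_lit 333867), .ofNat (nat_lit 239403), .ofNat (nat_lit 315226), .ofNat (nat_lit 260751), .ofNat (nat_lit 336574)⟩, ⟨.negSucc (nat_lit 75673), .ofNat (nat_lit 1045), .negSucc (nat_lit 54331), .ofNat (nat_lit 22387), .negSucc (nat_lit 71245), .ofNat (nat_lit 4577), .negSucc (nat_lit 49897), .ofNat (nat_lit 25924)⟩⟩, [⟨nat_lit 0, nat_lit 100, nat_lit 97, nat_lit 67, nat_lit 167241981⟩, ⟨nat_lit 7, nat_lit 99, nat_lit 100, nat_lit 54, nat_lit 15833097⟩]⟩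
noncomputable def p034_l88 : Lf2 := ⟨nat_lit 0, nat_lit 5, [nat_lit 4, nat_lit 5, nat_lit 5, nat_lit 20], false, nat_lit 0, nat_lit 40, nat_lit 0, nat_lit 268, ⟨nat_lit 309, nat_lit 0, nat_lit 691, nat_lit 6, nat_lit 122, nat_lit 0, nat_lit 3, nat_lit 0, nat_lit 817, nat_lit 208, nat_lit 141067, nat_lit 307, nat_lit 61294712, nat_lit 0, nat_lit 0, nat_lit 1455892, false, false⟩,
 nat_lit 8496, nat_lit 0, nat_lit 0, nat_lit 0, nat_lit 5174, nat_lit 4945, nat_lit 623, nat_lit 0, nat_lit 0, nat_lit 239, nat_lit 0, nat_lit 0, nat_lit 0, nat_lit 0, nat_lit 0, nat_lit 691000, nat_lit 0, nat_lit 0, [(nat_lit 9, [(nat_lit 6, nat_lit 691)])],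
 ⟨p034_k30, nat_lit 0, nat_lit 0, nat_lit 362, nat_lit 0, nat_lit 380853, [nat_lit 2207033600, nat_lit 1419910000, nat_lit 666175400], [], [nat_lit 15215549019, nat_lit 15534301172, nat_lit 14755556872, nat_lit 15098898836, nat_lit 14246622006, nat_lit 14592940305, nat_lit 13899064314, nat_lit 14231153689], nat_lit 1271250, nat_lit 1271250, nat_lit 230001, nat_lit 490000, nat_lit 0, nat_lit 230001, [nat_lit 1100000, nat_lit 1442500, nat_lit 1271250], [nat_lit 9, nat_lit 40, nat_lit 20, nat_lit 80, nat_lit 2, nat_lit 238, nat_lit 30, nat_lit 8]⟩, ⟨p034_k27, nat_lit 0, nat_lit 0, nat_lit 0, nat_lit 0, nat_lit 401056, [nat_lit 1448592000, nat_lit 1931250000, nat_lit 2462112000], [], [nat_lit 10256702478, nat_lit 9558370193, nat_lit 6294091022, nat_lit 7483912834, nat_lit 8649758304, nat_lit 7715234034, nat_lit 9587635437, nat_lit 7901445574], nat_lit 1271250, nat_lit 1271250, nat_lit 230001, nat_lit 490000, nat_lit 0, nat_lit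 1892750, [nat_lit 1100000, nat_lit 1442500, nat_lit 1271250], [nat_lit 9, nat_lit 40, nat_lit 20, nat_lit 80]⟩,
 ⟨nat_lit 5590, nat_lit 5701, ⟨.ofNat (nat_lit 257148), .ofNat (nat_lit 333867), .ofNat (nat_lit 273155), .ofNat (nat_lit 349874), .ofNat (nat_lit 260751), .ofNat (nat_lit 336574), .ofNat (nat_lit 276762), .ofNat (nat_lit 352585)⟩, ⟨.negSucc (nat_lit 75673), .ofNat (nat_lit 1045), .negSucc (nat_lit 54331), .ofNat (nat_lit 22387), .negSucc (nat_lit 71245), .ofNat (nat_lit 4577), .negSucc (nat_lit 49897), .ofNat (nat_lit 25924)⟩⟩, [⟨nat_lit 0, nat_lit 100, nat_lit 99, nat_lit 70, nat_lit 216184211⟩, ⟨nat_lit 7, nat_lit 100, nat_lit 96, nat_lit 54, nat_lit 36876606⟩]⟩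
noncomputable def p034_l89 : Lf2 := ⟨nat_lit 0, nat_lit 5, [nat_lit 4, nat_lit 5, nat_lit 5, nat_lit 20], false, nat_lit 0, nat_lit 40, nat_lit 0, nat_lit 288, ⟨nat_lit 166, nat_lit 0, nat_lit 834, nat_lit 6, nat_lit 116, nat_lit 0, nat_lit 3, nat_lit 0, nat_lit 600, nat_lit 209, nat_lit 126150, nat_lit 302, nat_lit 61817061, nat_lit 0, nat_lit 0, nat_lit 1361331, false, false⟩,
 nat_lit 6097, nat_lit 1428, nat_lit 0, nat_lit 0, nat_lit 4685, nat_lit 3227, nat_lit 178, nat_lit 0, nat_lit 0, nat_lit 0, nat_lit 0, nat_lit 0, nat_lit 0, nat_lit 0, nat_lit 42, nat_lit 834000, nat_lit 0, nat_lit 0, [(nat_lit 9, [(nat_lit 6, nat_lit 834)])],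
 ⟨p034_k33, nat_lit 0, nat_lit 0, nat_lit 0, nat_lit 0, nat_lit 332349, [nat_lit 2365606400, nat_lit 1260340000, nat_lit 171159600], [], [nat_lit 15011773453, nat_lit 15382941440, nat_lit 14605685703, nat_lit 14914189200, nat_lit 14169370347, nat_lit 14450451210, nat_lit 13868519298, nat_lit 14184318860], nat_lit 1271250, nat_lit 1271250, nat_lit 230001, nat_lit 490000, nat_lit 0, nat_lit 230001, [nat_lit 1100000, nat_lit 1442500, nat_lit 1271250], [nat_lit 9, nat_lit 40, nat_lit 20, nat_lit 80]⟩, ⟨p034_k8, nat_lit 0, nat_lit 0, nat_lit 0, nat_lit 0, nat_lit 400359, [nat_lit 778208000, nat_lit 1037500000, nat_lit 1633772000], [], [nat_lit 7159582620, nat_lit 5957600720, nat_lit 4362878396, nat_lit 4947516474, nat_lit 6219837355, nat_lit 4743015004, nat_lit 6794899080, nat_lit 5337234783], nat_lit 1271250, nat_lit 1271250, nat_lit 230001, nat_lit 490000, nat_lit 0, nat_lit 2034000, [nat_lit 1100000, nat_lit 1442500, nat_lit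 1271250], [nat_lit 11, nat_lit 40, nat_lit 20, nat_lit 80]⟩,
 ⟨nat_lit 5477, nat_lit 5591, ⟨.ofNat (nat_lit 239403), .ofNat (nat_lit 315226), .ofNat (nat_lit 260751), .ofNat (nat_lit 336574), .ofNat (nat_lit 242980), .ofNat (nat_lit 317913), .ofNat (nat_lit 264337), .ofNat (nat_lit 339271)⟩, ⟨.negSucc (nat_lit 71245), .ofNat (nat_lit 4577), .negSucc (nat_lit 49897), .ofNat (nat_lit 25924), .negSucc (nat_lit 66879), .ofNat (nat_lit 8053), .negSucc (nat_lit 45522), .ofNat (nat_lit 29410)⟩⟩, [⟨nat_lit 0, nat_lit 100, nat_lit 96, nat_lit 69, nat_lit 164542118⟩, ⟨nat_lit 7, nat_lit 99, nat_lit 100, nat_lit 54, nat_lit 15090792⟩]⟩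
noncomputable def p034_l90 : Lf2 := ⟨nat_lit 0, nat_lit 5, [nat_lit 4, nat_lit 5, nat_lit 5, nat_lit 20], false, nat_lit 0, nat_lit 40, nat_lit 0, nat_lit 80, ⟨nat_lit 673, nat_lit 0, nat_lit 327, nat_lit 6, nat_lit 126, nat_lit 0, nat_lit 3, nat_lit 0, nat_lit 600, nat_lit 209, nat_lit 147267, nat_lit 309, nat_lit 60963257, nat_lit 0, nat_lit 0, nat_lit 1513849, false, false⟩,
 nat_lit 10881, nat_lit 0, nat_lit 0, nat_lit 0, nat_lit 6774, nat_lit 6333, nat_lit 1302, nat_lit 0, nat_lit 0, nat_lit 526, nat_lit 0, nat_lit 0, nat_lit 0, nat_lit 0, nat_lit 0, nat_lit 130800, nat_lit 0, nat_lit 0, [(nat_lit 9, [(nat_lit 5, nat_lit 327)])],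
 ⟨p034_k34, nat_lit 0, nat_lit 0, nat_lit 0, nat_lit 0, nat_lit 414914, [nat_lit 3654156800, nat_lit 4937233200], [], [nat_lit 17862188405, nat_lit 18207146458, nat_lit 17056048221, nat_lit 17387932866, nat_lit 16353767489, nat_lit 16687533396, nat_lit 15604738582, nat_lit 15925633110], nat_lit 1271250, nat_lit 1271250, nat_lit 254650, nat_lit 490000, nat_lit 0, nat_lit 230001, [nat_lit 1100000, nat_lit 1785000], [nat_lit 39, nat_lit 40, nat_lit 20, nat_lit 80]⟩, ⟨p034_k35, nat_lit 0, nat_lit 0, nat_lit 0, nat_lit 0, nat_lit 448063, [nat_lit 3155024000, nat_lit 5362464000], [], [nat_lit 21923402132, nat_lit 18898223775, nat_lit 20116885346, nat_lit 17694349384, nat_lit 20557655495, nat_lit 17536589040, nat_lit 21746662326, nat_lit 18762514728], nat_lit 1271250, nat_lit 1271250, nat_lit 254650, nat_lit 490000, nat_lit 0, nat_lit 490000, [nat_lit 1100000, nat_lit 1785000], [nat_lit 39, nat_lit 40, nat_lit 20, nat_lit 80]⟩,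
 ⟨nat_lit 5477, nat_lit 5591, ⟨.ofNat (nat_lit 268334), .ofNat (nat_lit 336574), .ofNat (nat_lit 289681), .ofNat (nat_lit 357922), .ofNat (nat_lit 271831), .ofNat (nat_lit 339271), .ofNat (nat_lit 293188), .ofNat (nat_lit 360628)⟩, ⟨.negSucc (nat_lit 71245), .ofNat (nat_lit 4577), .negSucc (nat_lit 49897), .ofNat (nat_lit 25924), .negSucc (nat_lit 66879), .ofNat (nat_lit 8053), .negSucc (nat_lit 45522), .ofNat (nat_lit 29410)⟩⟩, [⟨nat_lit 0, nat_lit 100, nat_lit 97, nat_lit 67, nat_lit 445791549⟩]⟩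
noncomputable def p034_l91 : Lf2 := ⟨nat_lit 0, nat_lit 5, [nat_lit 4, nat_lit 5, nat_lit 5, nat_lit 20], false, nat_lit 0, nat_lit 40, nat_lit 80, nat_lit 160, ⟨nat_lit 830, nat_lit 0, nat_lit 170, nat_lit 6, nat_lit 126, nat_lit 0, nat_lit 3, nat_lit 0, nat_lit 600, nat_lit 209, nat_lit 147267, nat_lit 309, nat_lit 60963257, nat_lit 0, nat_lit 0, nat_lit 1513849, false, false⟩,
 nat_lit 11667, nat_lit 0, nat_lit 0, nat_lit 0, nat_lit 7264, nat_lit 6790, nat_lit 1625, nat_lit 0, nat_lit 0, nat_lit 391, nat_lit 0, nat_lit 0, nat_lit 0, nat_lit 0, nat_lit 0, nat_lit 68000, nat_lit 0, nat_lit 0, [(nat_lit 9, [(nat_lit 5, nat_lit 170)])],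
 ⟨p034_k34, nat_lit 0, nat_lit 0, nat_lit 0, nat_lit 0, nat_lit 414914, [nat_lit 4150528001, nat_lit 6392372000], [], [nat_lit 18541003349, nat_lit 18905537236, nat_lit 17627437133, nat_lit 17972388853, nat_lit 16875112186, nat_lit 17222073279, nat_lit 16023049411, nat_lit 16356428037], nat_lit 1271250, nat_lit 1271250, nat_lit 254650, nat_lit 490000, nat_lit 0, nat_lit 230001, [nat_lit 1100000, nat_lit 1785000], [nat_lit 39, nat_lit 40, nat_lit 20, nat_lit 80]⟩, ⟨p034_k35, nat_lit 0, nat_lit 0, nat_lit 0, nat_lit 0, nat_lit 448063, [nat_lit 3891040000, nat_lit 6613440000], [], [nat_lit 25385379240, nat_lit 21854573808, nat_lit 19161072420, nat_lit 20103998560, nat_lit 23176789484, nat_lit 20764418936, nat_lit 24553677940, nat_lit 21354189200], nat_lit 1271250, nat_lit 1271250, nat_lit 254650, nat_lit 490000, nat_lit 490000, nat_lit 1100001, [nat_lit 1100000, nat_lit 1785000], [nat_lit 39, nat_lit 40, nat_lit 20, nat_lit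 80]⟩,
 ⟨nat_lit 5477, nat_lit 5591, ⟨.ofNat (nat_lit 268334), .ofNat (nat_lit 336574), .ofNat (nat_lit 289681), .ofNat (nat_lit 357922), .ofNat (nat_lit 271831), .ofNat (nat_lit 339271), .ofNat (nat_lit 293188), .ofNat (nat_lit 360628)⟩, ⟨.negSucc (nat_lit 71245), .ofNat (nat_lit 4577), .negSucc (nat_lit 49897), .ofNat (nat_lit 25924), .negSucc (nat_lit 66879), .ofNat (nat_lit 8053), .negSucc (nat_lit 45522), .ofNat (nat_lit 29410)⟩⟩, [⟨nat_lit 0, nat_lit 100, nat_lit 97, nat_lit 67, nat_lit 524109663⟩]⟩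
noncomputable def p034_l92 : Lf2 := ⟨nat_lit 0, nat_lit 5, [nat_lit 4, nat_lit 5, nat_lit 5, nat_lit 20], false, nat_lit 0, nat_lit 40, nat_lit 160, nat_lit 268, ⟨nat_lit 457, nat_lit 0, nat_lit 543, nat_lit 6, nat_lit 126, nat_lit 0, nat_lit 3, nat_lit 0, nat_lit 600, nat_lit 209, nat_lit 147267, nat_lit 309, nat_lit 60963257, nat_lit 0, nat_lit 0, nat_lit 1513849, false, false⟩,
 nat_lit 9257, nat_lit 0, nat_lit 0, nat_lit 0, nat_lit 5763, nat_lit 5388, nat_lit 889, nat_lit 0, nat_lit 0, nat_lit 243, nat_lit 0, nat_lit 0, nat_lit 0, nat_lit 0, nat_lit 0, nat_lit 543000, nat_lit 0, nat_lit 0, [(nat_lit 9, [(nat_lit 6, nat_lit 543)])],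
 ⟨p034_k34, nat_lit 0, nat_lit 0, nat_lit 0, nat_lit 0, nat_lit 414914, [nat_lit 2851791200, nat_lit 2166852400], [], [nat_lit 16401376843, nat_lit 16750076019, nat_lit 15816885065, nat_lit 16157283600, nat_lit 15217858824, nat_lit 15535282696, nat_lit 14746951631, nat_lit 15098662068], nat_lit 1271250, nat_lit 1271250, nat_lit 254650, nat_lit 490000, nat_lit 0, nat_lit 230001, [nat_lit 1100000, nat_lit 1785000], [nat_lit 39, nat_lit 40, nat_lit 20, nat_lit 80]⟩, ⟨p034_k35, nat_lit 0, nat_lit 0, nat_lit 0, nat_lit 0, nat_lit 448063, [nat_lit 2142416000, nat_lit 3641376000], [], [nat_lit 12572628300, nat_lit 9770863990, nat_lit 7561346484, nat_lit 7697223440, nat_lit 10597580668, nat_lit 10526837160, nat_lit 11416312552, nat_lit 9495378932], nat_lit 1271250, nat_lit 1271250, nat_lit 254650, nat_lit 490000, nat_lit 1100001, nat_lit 2024750, [nat_lit 1100000, nat_lit 1785000], [nat_lit 39, nat_lit 40, nat_lit 20, nat_lit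 80]⟩,
 ⟨nat_lit 5477, nat_lit 5591, ⟨.ofNat (nat_lit 268334), .ofNat (nat_lit 336574), .ofNat (nat_lit 289681), .ofNat (nat_lit 357922), .ofNat (nat_lit 271831), .ofNat (nat_lit 339271), .ofNat (nat_lit 293188), .ofNat (nat_lit 360628)⟩, ⟨.negSucc (nat_lit 71245), .ofNat (nat_lit 4577), .negSucc (nat_lit 49897), .ofNat (nat_lit 25924), .negSucc (nat_lit 66879), .ofNat (nat_lit 8053), .negSucc (nat_lit 45522), .ofNat (nat_lit 29410)⟩⟩, [⟨nat_lit 0, nat_lit 100, nat_lit 98, nat_lit 73, nat_lit 390664717⟩, ⟨nat_lit 7, nat_lit 100, nat_lit 96, nat_lit 54, nat_lit 41989890⟩]⟩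
noncomputable def p034_l93 : Lf2 := ⟨nat_lit 0, nat_lit 5, [nat_lit 4, nat_lit 5, nat_lit 5, nat_lit 20], true, nat_lit 0, nat_lit 40, nat_lit 0, nat_lit 288, ⟨nat_lit 0, nat_lit 0, nat_lit 1000, nat_lit 6, nat_lit 120, nat_lit 0, nat_lit 3, nat_lit 0, nat_lit 600, nat_lit 209, nat_lit 135000, nat_lit 305, nat_lit 61459996, nat_lit 0, nat_lit 0, nat_lit 1426408, false, false⟩,
 nat_lit 0, nat_lit 530047, nat_lit 0, nat_lit 0, nat_lit 330029, nat_lit 0, nat_lit 60000, nat_lit 20000, nat_lit 0, nat_lit 0, nat_lit 0, nat_lit 0, nat_lit 0, nat_lit 0, nat_lit 0, nat_lit 1000000, nat_lit 0, nat_lit 0, [(nat_lit 9, [(nat_lit 6, nat_lit 1000)])],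
 ⟨p034_k33, nat_lit 0, nat_lit 0, nat_lit 377, nat_lit 0, nat_lit 414914, [nat_lit 321097600000, nat_lit 399260000000, nat_lit 477418400000], [], [nat_lit 487933138739, nat_lit 463425836968, nat_lit 382508959955, nat_lit 389223341852, nat_lit 360824537582, nat_lit 367647850270, nat_lit 289392738896, nat_lit 295764027372], nat_lit 1271250, nat_lit 1271250, nat_lit 230001, nat_lit 490000, nat_lit 0, nat_lit 230001, [nat_lit 1100000, nat_lit 1442500, nat_lit 1271250], [nat_lit 9, nat_lit 40, nat_lit 20, nat_lit 80, nat_lit 2, nat_lit 238, nat_lit 30, nat_lit 8]⟩, C1.Rw.none,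
 ⟨nat_lit 5477, nat_lit 5591, ⟨.ofNat (nat_lit 239403), .ofNat (nat_lit 315226), .ofNat (nat_lit 282099), .ofNat (nat_lit 357922), .ofNat (nat_lit 242980), .ofNat (nat_lit 317913), .ofNat (nat_lit 285695), .ofNat (nat_lit 360628)⟩, ⟨.negSucc (nat_lit 71245), .ofNat (nat_lit 4577), .negSucc (nat_lit 49897), .ofNat (nat_lit 25924), .negSucc (nat_lit 66879), .ofNat (nat_lit 8053), .negSucc (nat_lit 45522), .ofNat (nat_lit 29410)⟩⟩, [⟨nat_lit 0, nat_lit 100, nat_lit 100, nat_lit 80, nat_lit 10000000000⟩, ⟨nat_lit 13, nat_lit 97, nat_lit 10, nat_lit 100, nat_lit 44842503⟩]⟩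
noncomputable def p034_l94 : Lf2 := ⟨nat_lit 0, nat_lit 5, [nat_lit 4, nat_lit 5, nat_lit 5, nat_lit 20], false, nat_lit 0, nat_lit 40, nat_lit 0, nat_lit 160, ⟨nat_lit 0, nat_lit 0, nat_lit 1000, nat_lit 6, nat_lit 112, nat_lit 0, nat_lit 3, nat_lit 0, nat_lit 1067, nat_lit 207, nat_lit 117600, nat_lit 299, nat_lit 62124897, nat_lit 0, nat_lit 0, nat_lit 1303632, false, false⟩,
 nat_lit 17419, nat_lit 0, nat_lit 0, nat_lit 0, nat_lit 4294, nat_lit 9221, nat_lit 1283, nat_lit 0, nat_lit 0, nat_lit 1526, nat_lit 578, nat_lit 0, nat_lit 0, nat_lit 0, nat_lit 117, nat_lit 1000000, nat_lit 0, nat_lit 0, [(nat_lit 9, [(nat_lit 6, nat_lit 1000)])],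
 ⟨p034_k27, nat_lit 0, nat_lit 0, nat_lit 439, nat_lit 0, nat_lit 532436, [nat_lit 2969600000, nat_lit 1600000000, nat_lit 226400000], [], [nat_lit 17489136849, nat_lit 15797384538, nat_lit 17242703961, nat_lit 15191511689, nat_lit 16258497115, nat_lit 14863601060, nat_lit 18066105843, nat_lit 16042365113], nat_lit 1271250, nat_lit 1271250, nat_lit 134400, nat_lit 490000, nat_lit 0, nat_lit 230001, [nat_lit 1100000, nat_lit 1442500, nat_lit 1271250], [nat_lit 9, nat_lit 40, nat_lit 20, nat_lit 80, nat_lit 2, nat_lit 238, nat_lit 30, nat_lit 8]⟩, ⟨p034_k8, nat_lit 0, nat_lit 0, nat_lit 569, nat_lit 0, nat_lit 593938, [nat_lit 9248000000, nat_lit 11560000000, nat_lit 16184000000], [], [nat_lit 35930440684, nat_lit 26267976088, nat_lit 22440154568, nat_lit 22656081536, nat_lit 21935589281, nat_lit 18137658754, nat_lit 22680970660, nat_lit 15198426512], nat_lit 1271250, nat_lit 1271250, nat_lit 134400, nat_lit 490000, nat_lit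 0, nat_lit 1100001, [nat_lit 1100000, nat_lit 1442500, nat_lit 1271250], [nat_lit 11, nat_lit 40, nat_lit 20, nat_lit 80, nat_lit 1, nat_lit 373, nat_lit 150, nat_lit 11]⟩,
 ⟨nat_lit 5477, nat_lit 5917, ⟨.ofNat (nat_lit 197129), .ofNat (nat_lit 307076), .ofNat (nat_lit 239808), .ofNat (nat_lit 349755), .ofNat (nat_lit 213007), .ofNat (nat_lit 317913), .ofNat (nat_lit 255721), .ofNat (nat_lit 360628)⟩, ⟨.negSucc (nat_lit 84722), .negSucc (nat_lit 6188), .negSucc (nat_lit 63383), .ofNat (nat_lit 15150), .negSucc (nat_lit 66879), .ofNat (nat_lit 8053), .negSucc (nat_lit 45522), .ofNat (nat_lit 29410)⟩⟩, [⟨nat_lit 0, nat_lit 100, nat_lit 98, nat_lit 64, nat_lit 249674680⟩]⟩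
noncomputable def p034_l95 : Lf2 := ⟨nat_lit 0, nat_lit 5, [nat_lit 4, nat_lit 5, nat_lit 5, nat_lit 20], false, nat_lit 0, nat_lit 40, nat_lit 160, nat_lit 288, ⟨nat_lit 0, nat_lit 0, nat_lit 1000, nat_lit 6, nat_lit 112, nat_lit 0, nat_lit 3, nat_lit 0, nat_lit 1067, nat_lit 207, nat_lit 117600, nat_lit 299, nat_lit 62124897, nat_lit 0, nat_lit 0, nat_lit 1303632, false, false⟩,
 nat_lit 9427, nat_lit 0, nat_lit 0, nat_lit 0, nat_lit 5487, nat_lit 4990, nat_lit 265, nat_lit 0, nat_lit 0, nat_lit 747, nat_lit 292, nat_lit 0, nat_lit 0, nat_lit 0, nat_lit 117, nat_lit 1000000, nat_lit 0, nat_lit 0, [(nat_lit 9, [(nat_lit 6, nat_lit 1000)])],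
 ⟨p034_k27, nat_lit 0, nat_lit 0, nat_lit 439, nat_lit 0, nat_lit 532436, [nat_lit 2969600000, nat_lit 1600000000, nat_lit 226400000], [], [nat_lit 17525464839, nat_lit 17913087005, nat_lit 15767908003, nat_lit 14775646648, nat_lit 14649839876, nat_lit 15203399968, nat_lit 16564470964, nat_lit 13978475299], nat_lit 1271250, nat_lit 1271250, nat_lit 134400, nat_lit 490000, nat_lit 0, nat_lit 230001, [nat_lit 1100000, nat_lit 1442500, nat_lit 1271250], [nat_lit 9, nat_lit 40, nat_lit 20, nat_lit 80, nat_lit 2, nat_lit 238, nat_lit 30, nat_lit 8]⟩, ⟨p034_k8, nat_lit 0, nat_lit 0, nat_lit 442, nat_lit 0, nat_lit 593938, [nat_lit 4672000000, nat_lit 5840000000, nat_lit 8176000000], [], [nat_lit 13774141960, nat_lit 8545240720, nat_lit 6473791920, nat_lit 4781080710, nat_lit 6344890822, nat_lit 6462292823, nat_lit 4566347038, nat_lit 4704692704], nat_lit 1271250, nat_lit 1271250, nat_lit 134400, nat_lit 490000, nat_lit 1100001,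 nat_lit 2196000, [nat_lit 1100000, nat_lit 1442500, nat_lit 1271250], [nat_lit 11, nat_lit 40, nat_lit 20, nat_lit 80, nat_lit 1, nat_lit 401, nat_lit 175, nat_lit 11]⟩,
 ⟨nat_lit 5477, nat_lit 5917, ⟨.ofNat (nat_lit 197129), .ofNat (nat_lit 307076), .ofNat (nat_lit 239808), .ofNat (nat_lit 349755), .ofNat (nat_lit 213007), .ofNat (nat_lit 317913), .ofNat (nat_lit 255721), .ofNat (nat_lit 360628)⟩, ⟨.negSucc (nat_lit 84722), .negSucc (nat_lit 6188), .negSucc (nat_lit 63383), .ofNat (nat_lit 15150), .negSucc (nat_lit 66879), .ofNat (nat_lit 8053), .negSucc (nat_lit 45522), .ofNat (nat_lit 29410)⟩⟩, [⟨nat_lit 0, nat_lit 100, nat_lit 98, nat_lit 64, nat_lit 282349294⟩, ⟨nat_lit 7, nat_lit 100, nat_lit 98, nat_lit 54, nat_lit 78140326⟩]⟩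
noncomputable def b_VL_600_600_5_23 : St := ⟨true, nat_lit 1, nat_lit 1, nat_lit 1, nat_lit 40, nat_lit 260, nat_lit 280, nat_lit 240, nat_lit 280, nat_lit 24, nat_lit 80, nat_lit 20, nat_lit 40, nat_lit 0, nat_lit 40, nat_lit 0, nat_lit 288, nat_lit 0, nat_lit 20, nat_lit 0, nat_lit 0, nat_lit 0, nat_lit 0⟩
theorem d_VL_600_600_5_23 (h : EB TB.env) : Dead b_VL_600_600_5_23 := chkB_sound0 h (T :=
(.spl (nat_lit 8) (nat_lit 800)
(.spl (nat_lit 2) (nat_lit 40)
(.spl (nat_lit 0) (nat_lit 270)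
(.ord (.spl (nat_lit 6) (nat_lit 8)
(.leaf p034_l73)
(.spl (nat_lit 2) (nat_lit 32)
(.leaf p034_l74)
(.spl (nat_lit 0) (nat_lit 265)
(.ord (.spl (nat_lit 1) (nat_lit 250)
(.leaf p034_l75)
(.trX (nat_lit 19) (nat_lit 100) (nat_lit 95) (nat_lit 62) (nat_lit 280) (.leaf p034_l76))))
(.leaf p034_l77)))))
(.trZ (nat_lit 0) (nat_lit 100) (nat_lit 96) (nat_lit 54) (nat_lit 28) (.spl (nat_lit 1) (nat_lit 260)
(.spl (nat_lit 6) (nat_lit 8)
(.leaf p034_l78)
(.leaf p034_l79))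
(.emL (nat_lit 0) (nat_lit 100) (nat_lit 98) (nat_lit 64)))))
(.spl (nat_lit 0) (nat_lit 270)
(.ord (.spl (nat_lit 6) (nat_lit 8)
(.leaf p034_l80)
(.spl (nat_lit 0) (nat_lit 265)
(.ord (.leaf p034_l81))
(.spl (nat_lit 1) (nat_lit 260)
(.leaf p034_l82)
(.trX (nat_lit 19) (nat_lit 100) (nat_lit 99) (nat_lit 63) (nat_lit 268) (.leaf p034_l83))))))
(.spl (nat_lit 6) (nat_lit 8)
(.spl (nat_lit 7) (nat_lit 600)
(.spl (nat_lit 0) (nat_lit 275)
(.ord (.leaf p034_l84))
(.leaf p034_l85))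
(.leaf p034_l86))
(.spl (nat_lit 0) (nat_lit 275)
(.ord (.spl (nat_lit 1) (nat_lit 260)
(.leaf p034_l87)
(.trX (nat_lit 19) (nat_lit 100) (nat_lit 99) (nat_lit 63) (nat_lit 268) (.leaf p034_l88))))
(.spl (nat_lit 7) (nat_lit 600)
(.spl (nat_lit 1) (nat_lit 260)
(.leaf p034_l89)
(.trZ (nat_lit 0) (nat_lit 100) (nat_lit 97) (nat_lit 67) (nat_lit 44) (.trX (nat_lit 19) (nat_lit 100) (nat_lit 99) (nat_lit 63) (nat_lit 268) (.spl (nat_lit 5) (nat_lit 160)
(.spl (nat_lit 5) (nat_lit 80)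
(.leaf p034_l90)
(.leaf p034_l91))
(.leaf p034_l92)))))
(.leaf p034_l93))))))
(.spl (nat_lit 5) (nat_lit 160)
(.leaf p034_l94)
(.leaf p034_l95)))) (by decide +kernel)
noncomputable def p034_l96 : Lf2 := ⟨nat_lit 0, nat_lit 5, [nat_lit 4, nat_lit 5, nat_lit 5, nat_lit 20], false, nat_lit 0, nat_lit 40, nat_lit 0, nat_lit 80, ⟨nat_lit 1000, nat_lit 0, nat_lit 0, nat_lit 0, nat_lit 0, nat_lit 0, nat_lit 0, nat_lit 0, nat_lit 0, nat_lit 0, nat_lit 0, nat_lit 0, nat_lit 0, nat_lit 0, nat_lit 0, nat_lit 0, false, false⟩,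
 nat_lit 18169, nat_lit 0, nat_lit 0, nat_lit 0, nat_lit 10575, nat_lit 9618, nat_lit 1888, nat_lit 0, nat_lit 0, nat_lit 1870, nat_lit 0, nat_lit 0, nat_lit 0, nat_lit 0, nat_lit 0, nat_lit 0, nat_lit 0, nat_lit 0, [],
 ⟨p034_k27, nat_lit 0, nat_lit 0, nat_lit 399, nat_lit 0, nat_lit 532436, [nat_lit 4688000000, nat_lit 6250000000, nat_lit 7968000000], [], [nat_lit 22555768250, nat_lit 19965935800, nat_lit 16455454750, nat_lit 18488266800, nat_lit 13751145350, nat_lit 15566326350, nat_lit 16859303575, nat_lit 14691655550], nat_lit 1271250, nat_lit 1271250, nat_lit 490000, nat_lit 780000, nat_lit 0, nat_lit 230001, [nat_lit 1100000, nat_lit 1442500, nat_lit 1271250], [nat_lit 9, nat_lit 40, nat_lit 20, nat_lit 80, nat_lit 2, nat_lit 249, nat_lit 40, nat_lit 8]⟩, ⟨p034_k8, nat_lit 0, nat_lit 0, nat_lit 497, nat_lit 0, nat_lit 593938, [nat_lit 4688000000, nat_lit 6250000000, nat_lit 9842000000], [], [nat_lit 28531815344,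 nat_lit 24506717188, nat_lit 26101623056, nat_lit 23640501540, nat_lit 25146876664, nat_lit 19515160684, nat_lit 28146646176, nat_lit 18957839808], nat_lit 1271250, nat_lit 1271250, nat_lit 490000, nat_lit 780000, nat_lit 0, nat_lit 490000, [nat_lit 1100000, nat_lit 1442500, nat_lit 1271250], [nat_lit 11, nat_lit 40, nat_lit 20, nat_lit 80, nat_lit 1, nat_lit 345, nat_lit 125, nat_lit 10]⟩,
 zbF0, []⟩
noncomputable def p034_l97 : Lf2 := ⟨nat_lit 0, nat_lit 5, [nat_lit 4, nat_lit 5, nat_lit 5, nat_lit 20], false, nat_lit 0, nat_lit 40, nat_lit 80, nat_lit 160, ⟨nat_lit 1000, nat_lit 0, nat_lit 0, nat_lit 0, nat_lit 0, nat_lit 0, nat_lit 0, nat_lit 0, nat_lit 0, nat_lit 0, nat_lit 0, nat_lit 0, nat_lit 0, nat_lit 0, nat_lit 0, nat_lit 0, false, false⟩,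
 nat_lit 12347, nat_lit 3017, nat_lit 0, nat_lit 0, nat_lit 8942, nat_lit 6536, nat_lit 1240, nat_lit 0, nat_lit 0, nat_lit 1873, nat_lit 0, nat_lit 0, nat_lit 0, nat_lit 0, nat_lit 0, nat_lit 0, nat_lit 0, nat_lit 0, [],
 ⟨p034_k27, nat_lit 0, nat_lit 0, nat_lit 399, nat_lit 0, nat_lit 532436, [nat_lit 4688000000, nat_lit 6250000000, nat_lit 7968000000], [], [nat_lit 24332880500, nat_lit 22456281856, nat_lit 20709415928, nat_lit 21841776288, nat_lit 19320985466, nat_lit 20333914268, nat_lit 21074509262, nat_lit 19742136948], nat_lit 1271250, nat_lit 1271250, nat_lit 490000, nat_lit 780000, nat_lit 0, nat_lit 230001, [nat_lit 1100000, nat_lit 1442500, nat_lit 1271250], [nat_lit 9, nat_lit 40, nat_lit 20, nat_lit 80, nat_lit 2, nat_lit 249, nat_lit 40, nat_lit 8]⟩, ⟨p034_k8, nat_lit 0, nat_lit 0, nat_lit 435, nat_lit 0, nat_lit 593938, [nat_lit 4688000000, nat_lit 6250000000, nat_lit 9842000000], [], [nat_lit 33986167104,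 nat_lit 28752236298, nat_lit 27178557088, nat_lit 28446405226, nat_lit 30144704096, nat_lit 28549987200, nat_lit 32642126560, nat_lit 28343179168], nat_lit 1271250, nat_lit 1271250, nat_lit 490000, nat_lit 780000, nat_lit 490000, nat_lit 1100001, [nat_lit 1100000, nat_lit 1442500, nat_lit 1271250], [nat_lit 11, nat_lit 40, nat_lit 20, nat_lit 80, nat_lit 1, nat_lit 373, nat_lit 150, nat_lit 11]⟩,
 zbF0, []⟩
noncomputable def p034_l98 : Lf2 := ⟨nat_lit 0, nat_lit 5, [nat_lit 4, nat_lit 5, nat_lit 5, nat_lit 20], false, nat_lit 0, nat_lit 40, nat_lit 160, nat_lit 288, ⟨nat_lit 1000, nat_lit 0, nat_lit 0, nat_lit 0, nat_lit 0, nat_lit 0, nat_lit 0, nat_lit 0, nat_lit 0, nat_lit 0, nat_lit 0, nat_lit 0, nat_lit 0, nat_lit 0, nat_lit 0, nat_lit 0, false, false⟩,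
 nat_lit 18169, nat_lit 0, nat_lit 0, nat_lit 0, nat_lit 10575, nat_lit 9618, nat_lit 2140, nat_lit 0, nat_lit 0, nat_lit 410, nat_lit 0, nat_lit 0, nat_lit 0, nat_lit 0, nat_lit 0, nat_lit 0, nat_lit 0, nat_lit 0, [],
 ⟨p034_k27, nat_lit 0, nat_lit 0, nat_lit 399, nat_lit 0, nat_lit 532436, [nat_lit 4688000000, nat_lit 6250000000, nat_lit 7968000000], [], [nat_lit 22555768250, nat_lit 19965935800, nat_lit 16038079750, nat_lit 18488266800, nat_lit 13333770350, nat_lit 14961526350, nat_lit 16441928575, nat_lit 14086855550], nat_lit 1271250, nat_lit 1271250, nat_lit 490000, nat_lit 780000, nat_lit 0, nat_lit 230001, [nat_lit 1100000, nat_lit 1442500, nat_lit 1271250], [nat_lit 9, nat_lit 40, nat_lit 20, nat_lit 80, nat_lit 2, nat_lit 249, nat_lit 40, nat_lit 8]⟩, ⟨p034_k8, nat_lit 0, nat_lit 0, nat_lit 362, nat_lit 0, nat_lit 593938, [nat_lit 4688000000, nat_lit 6250000000, nat_lit 9842000000], [], [nat_lit 23843815344,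 nat_lit 22134826212, nat_lit 18883764500, nat_lit 21340950420, nat_lit 28277640928, nat_lit 27442831100, nat_lit 31301578551, nat_lit 26255844510], nat_lit 1271250, nat_lit 1271250, nat_lit 490000, nat_lit 780000, nat_lit 1100001, nat_lit 2196000, [nat_lit 1100000, nat_lit 1442500, nat_lit 1271250], [nat_lit 11, nat_lit 40, nat_lit 20, nat_lit 80, nat_lit 1, nat_lit 401, nat_lit 175, nat_lit 11]⟩,
 zbF0, [⟨nat_lit 7, nat_lit 100, nat_lit 98, nat_lit 54, nat_lit 736755675⟩]⟩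
noncomputable def b_VL_600_600_5_24 : St := ⟨true, nat_lit 1, nat_lit 1, nat_lit 1, nat_lit 40, nat_lit 260, nat_lit 280, nat_lit 240, nat_lit 280, nat_lit 80, nat_lit 120, nat_lit 20, nat_lit 40, nat_lit 0, nat_lit 40, nat_lit 0, nat_lit 288, nat_lit 0, nat_lit 20, nat_lit 0, nat_lit 0, nat_lit 0, nat_lit 0⟩
theorem d_VL_600_600_5_24 (h : EB TB.env) : Dead b_VL_600_600_5_24 := chkB_sound0 h (T :=
(.spl (nat_lit 5) (nat_lit 160)
(.spl (nat_lit 5) (nat_lit 80)
(.leaf p034_l96)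
(.leaf p034_l97))
(.leaf p034_l98))) (by decide +kernel)
noncomputable def p034_l99 : Lf2 := ⟨nat_lit 0, nat_lit 5, [nat_lit 4, nat_lit 5, nat_lit 5, nat_lit 20], false, nat_lit 40, nat_lit 80, nat_lit 0, nat_lit 160, ⟨nat_lit 195, nat_lit 0, nat_lit 805, nat_lit 6, nat_lit 91, nat_lit 805, nat_lit 19, nat_lit 805, nat_lit 3267, nat_lit 229, nat_lit 77067, nat_lit 283, nat_lit 63707942, nat_lit 0, nat_lit 0, nat_lit 979795, false, false⟩,
 nat_lit 3056, nat_lit 5797, nat_lit 0, nat_lit 0, nat_lit 5152, nat_lit 1617, nat_lit 1015, nat_lit 0, nat_lit 0, nat_lit 0, nat_lit 0, nat_lit 0, nat_lit 0, nat_lit 0, nat_lit 29, nat_lit 805000, nat_lit 0, nat_lit 0, [(nat_lit 9, [(nat_lit 6, nat_lit 805)])],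
 ⟨p034_k27, nat_lit 0, nat_lit 0, nat_lit 320, nat_lit 0, nat_lit 393578, [nat_lit 2261728000, nat_lit 1203050000, nat_lit 163967000], [], [nat_lit 12785584690, nat_lit 13673426822, nat_lit 12376481784, nat_lit 13067564588, nat_lit 12129744343, nat_lit 12548267597, nat_lit 12450105898, nat_lit 12167877664], nat_lit 1271250, nat_lit 1271250, nat_lit 134400, nat_lit 230001, nat_lit 230001, nat_lit 490000, [nat_lit 1100000, nat_lit 1442500, nat_lit 1271250], [nat_lit 9, nat_lit 40, nat_lit 20, nat_lit 80, nat_lit 2, nat_lit 238, nat_lit 30, nat_lit 8]⟩, ⟨p034_k8, nat_lit 0, nat_lit 0, nat_lit 476, nat_lit 0, nat_lit 439040, [nat_lit 914160000, nat_lit 1218750000, nat_lit 1919190000], [], [nat_lit 8078061408, nat_lit 7230853662, nat_lit 7396592928, nat_lit 6554494902, nat_lit 6210536422, nat_lit 5785755074, nat_lit 6278985180, nat_lit 5637889230], nat_lit 1271250, nat_lit 1271250, nat_lit 134400, nat_lit 230001, nat_lit 0,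 nat_lit 1100001, [nat_lit 1100000, nat_lit 1442500, nat_lit 1271250], [nat_lit 11, nat_lit 40, nat_lit 20, nat_lit 80, nat_lit 1, nat_lit 345, nat_lit 125, nat_lit 10]⟩,
 ⟨nat_lit 5700, nat_lit 5917, ⟨.ofNat (nat_lit 197129), .ofNat (nat_lit 228543), .ofNat (nat_lit 218469), .ofNat (nat_lit 249882), .ofNat (nat_lit 205119), .ofNat (nat_lit 235806), .ofNat (nat_lit 226461), .ofNat (nat_lit 257148)⟩, ⟨.negSucc (nat_lit 6188), .ofNat (nat_lit 72344), .ofNat (nat_lit 15150), .ofNat (nat_lit 93684), .ofNat (nat_lit 1045), .ofNat (nat_lit 77764), .ofNat (nat_lit 22387), .ofNat (nat_lit 99106)⟩⟩, [⟨nat_lit 0, nat_lit 100, nat_lit 98, nat_lit 57, nat_lit 597439176⟩]⟩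
noncomputable def p034_l100 : Lf2 := ⟨nat_lit 0, nat_lit 5, [nat_lit 4, nat_lit 5, nat_lit 5, nat_lit 20], false, nat_lit 40, nat_lit 80, nat_lit 160, nat_lit 288, ⟨nat_lit 140, nat_lit 0, nat_lit 860, nat_lit 6, nat_lit 91, nat_lit 860, nat_lit 19, nat_lit 860, nat_lit 3267, nat_lit 229, nat_lit 77067, nat_lit 283, nat_lit 63707942, nat_lit 0, nat_lit 0, nat_lit 979795, false, false⟩,
 nat_lit 3722, nat_lit 4757, nat_lit 0, nat_lit 0, nat_lit 4935, nat_lit 1970, nat_lit 717, nat_lit 0, nat_lit 0, nat_lit 174, nat_lit 0, nat_lit 0, nat_lit 0, nat_lit 0, nat_lit 54, nat_lit 860000, nat_lit 0, nat_lit 0, [(nat_lit 9, [(nat_lit 6, nat_lit 860)])],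
 ⟨p034_k27, nat_lit 0, nat_lit 0, nat_lit 320, nat_lit 0, nat_lit 393578, [nat_lit 2464256000, nat_lit 1318600000, nat_lit 185884000], [], [nat_lit 12661457988, nat_lit 13449968186, nat_lit 12281323020, nat_lit 12957079765, nat_lit 12113325684, nat_lit 12477895354, nat_lit 12436300440, nat_lit 12125191670], nat_lit 1271250, nat_lit 1271250, nat_lit 134400, nat_lit 230001, nat_lit 230001, nat_lit 490000, [nat_lit 1100000, nat_lit 1442500, nat_lit 1271250], [nat_lit 9, nat_lit 40, nat_lit 20, nat_lit 80, nat_lit 2, nat_lit 238, nat_lit 30, nat_lit 8]⟩, ⟨p034_k8, nat_lit 0, nat_lit 0, nat_lit 339, nat_lit 0, nat_lit 439040, [nat_lit 656320000, nat_lit 875000000, nat_lit 1377880000], [], [nat_lit 5861615560, nat_lit 4829457700, nat_lit 5031378760, nat_lit 4005446100, nat_lit 4399619908, nat_lit 3867907395, nat_lit 4436983240, nat_lit 3486550252], nat_lit 1271250, nat_lit 1271250, nat_lit 134400, nat_lit 230001, nat_lit 1100001,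 nat_lit 2196000, [nat_lit 1100000, nat_lit 1442500, nat_lit 1271250], [nat_lit 11, nat_lit 40, nat_lit 20, nat_lit 80, nat_lit 1, nat_lit 373, nat_lit 150, nat_lit 11]⟩,
 ⟨nat_lit 5700, nat_lit 5917, ⟨.ofNat (nat_lit 197129), .ofNat (nat_lit 228543), .ofNat (nat_lit 218469), .ofNat (nat_lit 249882), .ofNat (nat_lit 205119), .ofNat (nat_lit 235806), .ofNat (nat_lit 226461), .ofNat (nat_lit 257148)⟩, ⟨.negSucc (nat_lit 6188), .ofNat (nat_lit 72344), .ofNat (nat_lit 15150), .ofNat (nat_lit 93684), .ofNat (nat_lit 1045), .ofNat (nat_lit 77764), .ofNat (nat_lit 22387), .ofNat (nat_lit 99106)⟩⟩, [⟨nat_lit 0, nat_lit 100, nat_lit 98, nat_lit 57, nat_lit 584918207⟩, ⟨nat_lit 7, nat_lit 99, nat_lit 100, nat_lit 54, nat_lit 18613214⟩]⟩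
noncomputable def p034_l101 : Lf2 := ⟨nat_lit 0, nat_lit 5, [nat_lit 4, nat_lit 5, nat_lit 5, nat_lit 20], false, nat_lit 40, nat_lit 80, nat_lit 0, nat_lit 288, ⟨nat_lit 245, nat_lit 0, nat_lit 755, nat_lit 6, nat_lit 112, nat_lit 755, nat_lit 19, nat_lit 755, nat_lit 3267, nat_lit 229, nat_lit 117600, nat_lit 299, nat_lit 62126713, nat_lit 0, nat_lit 0, nat_lit 1303287, false, false⟩,
 nat_lit 9090, nat_lit 483, nat_lit 0, nat_lit 0, nat_lit 5572, nat_lit 4812, nat_lit 1232, nat_lit 0, nat_lit 0, nat_lit 0, nat_lit 0, nat_lit 0, nat_lit 0, nat_lit 0, nat_lit 7, nat_lit 755000, nat_lit 0, nat_lit 0, [(nat_lit 9, [(nat_lit 6, nat_lit 755)])],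
 ⟨p034_k27, nat_lit 0, nat_lit 0, nat_lit 293, nat_lit 0, nat_lit 369550, [nat_lit 2089248001, nat_lit 1112550000, nat_lit 161497000], [], [nat_lit 11952608427, nat_lit 12317026685, nat_lit 12119628137, nat_lit 11892607345, nat_lit 12080824729, nat_lit 11396552483, nat_lit 13479746681, nat_lit 12805035987], nat_lit 1271250, nat_lit 1271250, nat_lit 230001, nat_lit 490000, nat_lit 230001, nat_lit 490000, [nat_lit 1100000, nat_lit 1442500, nat_lit 1271250], [nat_lit 9, nat_lit 40, nat_lit 20, nat_lit 80, nat_lit 2, nat_lit 249, nat_lit 40, nat_lit 8]⟩, ⟨p034_k8, nat_lit 0, nat_lit 0, nat_lit 453, nat_lit 0, nat_lit 412237, [nat_lit 1148560000, nat_lit 1531250000, nat_lit 2411290000], [], [nat_lit 10589826508, nat_lit 8820334722, nat_lit 6442169348, nat_lit 7312191114, nat_lit 9159912751, nat_lit 7011124332, nat_lit 10014791268, nat_lit 7841168523], nat_lit 1271250, nat_lit 1271250, nat_lit 230001, nat_lit 490000, nat_lit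 0, nat_lit 2034000, [nat_lit 1100000, nat_lit 1442500, nat_lit 1271250], [nat_lit 11, nat_lit 40, nat_lit 20, nat_lit 80, nat_lit 1, nat_lit 401, nat_lit 175, nat_lit 12]⟩,
 ⟨nat_lit 5809, nat_lit 5917, ⟨.ofNat (nat_lit 228543), .ofNat (nat_lit 307076), .ofNat (nat_lit 249882), .ofNat (nat_lit 328416), .ofNat (nat_lit 232187), .ofNat (nat_lit 309809), .ofNat (nat_lit 253526), .ofNat (nat_lit 331148)⟩, ⟨.negSucc (nat_lit 6188), .ofNat (nat_lit 72344), .ofNat (nat_lit 15150), .ofNat (nat_lit 93684), .negSucc (nat_lit 2543), .ofNat (nat_lit 75079), .ofNat (nat_lit 18795), .ofNat (nat_lit 96418)⟩⟩, [⟨nat_lit 7, nat_lit 99, nat_lit 100, nat_lit 54, nat_lit 22467581⟩]⟩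
noncomputable def p034_l102 : Lf2 := ⟨nat_lit 0, nat_lit 5, [nat_lit 4, nat_lit 5, nat_lit 5, nat_lit 20], false, nat_lit 40, nat_lit 80, nat_lit 0, nat_lit 288, ⟨nat_lit 230, nat_lit 0, nat_lit 770, nat_lit 6, nat_lit 113, nat_lit 0, nat_lit 20, nat_lit 148, nat_lit 3750, nat_lit 230, nat_lit 120417, nat_lit 300, nat_lit 62023731, nat_lit 0, nat_lit 0, nat_lit 1322762, false, false⟩,
 nat_lit 8482, nat_lit 651, nat_lit 0, nat_lit 0, nat_lit 5438, nat_lit 4490, nat_lit 1000, nat_lit 0, nat_lit 0, nat_lit 122, nat_lit 0, nat_lit 0, nat_lit 0, nat_lit 0, nat_lit 14, nat_lit 770000, nat_lit 0, nat_lit 0, [(nat_lit 9, [(nat_lit 6, nat_lit 770)])],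
 ⟨p034_k28, nat_lit 0, nat_lit 0, nat_lit 301, nat_lit 0, nat_lit 383448, [nat_lit 2147392001, nat_lit 1147700000, nat_lit 171838000], [], [nat_lit 12453743562, nat_lit 12809504195, nat_lit 12062676146, nat_lit 12403560021, nat_lit 11476622153, nat_lit 11820340719, nat_lit 12798014520, nat_lit 12139529819], nat_lit 1271250, nat_lit 1271250, nat_lit 230001, nat_lit 490000, nat_lit 230001, nat_lit 490000, [nat_lit 1100000, nat_lit 1442500, nat_lit 1271250], [nat_lit 9, nat_lit 40, nat_lit 20, nat_lit 80, nat_lit 2, nat_lit 249, nat_lit 40, nat_lit 8]⟩, ⟨p034_k8, nat_lit 0, nat_lit 0, nat_lit 463, nat_lit 0, nat_lit 439040, [nat_lit 1078240000, nat_lit 1437500000, nat_lit 2263660000], [], [nat_lit 9928697120, nat_lit 7875392280, nat_lit 5656455700, nat_lit 6469234180, nat_lit 8610203688, nat_lit 6563613424, nat_lit 9409327320, nat_lit 7381154809], nat_lit 1271250, nat_lit 1271250, nat_lit 230001, nat_lit 490000, nat_lit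 0, nat_lit 2034000, [nat_lit 1100000, nat_lit 1442500, nat_lit 1271250], [nat_lit 11, nat_lit 40, nat_lit 20, nat_lit 80, nat_lit 1, nat_lit 401, nat_lit 175, nat_lit 12]⟩,
 ⟨nat_lit 5700, nat_lit 5810, ⟨.ofNat (nat_lit 232187), .ofNat (nat_lit 309809), .ofNat (nat_lit 253526), .ofNat (nat_lit 331148), .ofNat (nat_lit 235806), .ofNat (nat_lit 312525), .ofNat (nat_lit 257148), .ofNat (nat_lit 333867)⟩, ⟨.negSucc (nat_lit 2543), .ofNat (nat_lit 75079), .ofNat (nat_lit 18795), .ofNat (nat_lit 96418), .ofNat (nat_lit 1045), .ofNat (nat_lit 77764), .ofNat (nat_lit 22387), .ofNat (nat_lit 99106)⟩⟩, [⟨nat_lit 19, nat_lit 100, nat_lit 99, nat_lit 54, nat_lit 33492088⟩]⟩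
noncomputable def p034_l103 : Lf2 := ⟨nat_lit 0, nat_lit 5, [nat_lit 4, nat_lit 5, nat_lit 5, nat_lit 20], false, nat_lit 40, nat_lit 80, nat_lit 0, nat_lit 268, ⟨nat_lit 348, nat_lit 0, nat_lit 652, nat_lit 6, nat_lit 118, nat_lit 652, nat_lit 19, nat_lit 652, nat_lit 3267, nat_lit 229, nat_lit 129067, nat_lit 303, nat_lit 61676807, nat_lit 0, nat_lit 0, nat_lit 1387124, false, false⟩,
 nat_lit 9962, nat_lit 0, nat_lit 0, nat_lit 0, nat_lit 5798, nat_lit 5798, nat_lit 1324, nat_lit 0, nat_lit 0, nat_lit 45, nat_lit 0, nat_lit 0, nat_lit 0, nat_lit 0, nat_lit 0, nat_lit 652000, nat_lit 0, nat_lit 0, [(nat_lit 9, [(nat_lit 6, nat_lit 652)])],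
 ⟨p034_k27, nat_lit 0, nat_lit 0, nat_lit 328, nat_lit 0, nat_lit 438797, [nat_lit 2347059200, nat_lit 1692520001, nat_lit 1076088799], [], [nat_lit 12667996030, nat_lit 13407019368, nat_lit 13300537126, nat_lit 12795589578, nat_lit 13169757519, nat_lit 12295050523, nat_lit 14673639822, nat_lit 13269485980], nat_lit 1271250, nat_lit 1271250, nat_lit 205650, nat_lit 490000, nat_lit 230001, nat_lit 490000, [nat_lit 1100000, nat_lit 1442500, nat_lit 1271250], [nat_lit 9, nat_lit 40, nat_lit 20, nat_lit 80, nat_lit 2, nat_lit 249, nat_lit 40, nat_lit 8]⟩, ⟨p034_k27, nat_lit 0, nat_lit 0, nat_lit 388, nat_lit 0, nat_lit 438797, [nat_lit 1631424000, nat_lit 2175000000, nat_lit 2772864000], [], [nat_lit 12145080664, nat_lit 11009762244, nat_lit 7261237012, nat_lit 8184930466, nat_lit 9828338005, nat_lit 8815479987, nat_lit 10975710722, nat_lit 9657675154], nat_lit 1271250, nat_lit 1271250, nat_lit 205650, nat_lit 490000, nat_lit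 0, nat_lit 1892750, [nat_lit 1100000, nat_lit 1442500, nat_lit 1271250], [nat_lit 9, nat_lit 40, nat_lit 20, nat_lit 80, nat_lit 2, nat_lit 317, nat_lit 100, nat_lit 11]⟩,
 ⟨nat_lit 5700, nat_lit 5917, ⟨.ofNat (nat_lit 242029), .ofNat (nat_lit 328416), .ofNat (nat_lit 252698), .ofNat (nat_lit 339085), .ofNat (nat_lit 249476), .ofNat (nat_lit 333867), .ofNat (nat_lit 260147), .ofNat (nat_lit 344538)⟩, ⟨.negSucc (nat_lit 6188), .ofNat (nat_lit 72344), .ofNat (nat_lit 15150), .ofNat (nat_lit 93684), .ofNat (nat_lit 1045), .ofNat (nat_lit 77764), .ofNat (nat_lit 22387), .ofNat (nat_lit 99106)⟩⟩, [⟨nat_lit 0, nat_lit 100, nat_lit 100, nat_lit 65, nat_lit 22267183⟩, ⟨nat_lit 7, nat_lit 100, nat_lit 97, nat_lit 54, nat_lit 31979309⟩]⟩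
noncomputable def p034_l104 : Lf2 := ⟨nat_lit 0, nat_lit 5, [nat_lit 4, nat_lit 5, nat_lit 5, nat_lit 20], true, nat_lit 40, nat_lit 80, nat_lit 0, nat_lit 288, ⟨nat_lit 0, nat_lit 0, nat_lit 1000, nat_lit 6, nat_lit 109, nat_lit 1000, nat_lit 21, nat_lit 1000, nat_lit 4267, nat_lit 231, nat_lit 109350, nat_lit 296, nat_lit 62407591, nat_lit 0, nat_lit 0, nat_lit 1249269, false, false⟩,
 nat_lit 0, nat_lit 7123, nat_lit 0, nat_lit 0, nat_lit 4337, nat_lit 0, nat_lit 0, nat_lit 0, nat_lit 0, nat_lit 0, nat_lit 0, nat_lit 0, nat_lit 0, nat_lit 0, nat_lit 117, nat_lit 1000000, nat_lit 0, nat_lit 0, [(nat_lit 9, [(nat_lit 6, nat_lit 1000)])],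
 ⟨p034_k30, nat_lit 0, nat_lit 0, nat_lit 316, nat_lit 0, nat_lit 382845, [nat_lit 2969600000, nat_lit 1600000000, nat_lit 226400000], [], [nat_lit 13008129135, nat_lit 13647351760, nat_lit 12614373507, nat_lit 13222787132, nat_lit 12339453097, nat_lit 12958274876, nat_lit 12697918707, nat_lit 12599044264], nat_lit 1271250, nat_lit 1271250, nat_lit 157850, nat_lit 490000, nat_lit 230001, nat_lit 490000, [nat_lit 1100000, nat_lit 1442500, nat_lit 1271250], [nat_lit 9, nat_lit 40, nat_lit 20, nat_lit 80, nat_lit 2, nat_lit 249, nat_lit 40, nat_lit 8]⟩, C1.Rw.none,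
 ⟨nat_lit 5477, nat_lit 5701, ⟨.ofNat (nat_lit 212791), .ofNat (nat_lit 312525), .ofNat (nat_lit 223462), .ofNat (nat_lit 323196), .ofNat (nat_lit 220501), .ofNat (nat_lit 317913), .ofNat (nat_lit 231179), .ofNat (nat_lit 328592)⟩, ⟨.ofNat (nat_lit 1045), .ofNat (nat_lit 77764), .ofNat (nat_lit 22387), .ofNat (nat_lit 99106), .ofNat (nat_lit 8053), .ofNat (nat_lit 82986), .ofNat (nat_lit 29410), .ofNat (nat_lit 104343)⟩⟩, [⟨nat_lit 0, nat_lit 100, nat_lit 95, nat_lit 64, nat_lit 151968279⟩]⟩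
noncomputable def p034_l105 : Lf2 := ⟨nat_lit 0, nat_lit 5, [nat_lit 4, nat_lit 5, nat_lit 5, nat_lit 20], false, nat_lit 40, nat_lit 80, nat_lit 0, nat_lit 280, ⟨nat_lit 188, nat_lit 0, nat_lit 812, nat_lit 6, nat_lit 116, nat_lit 812, nat_lit 21, nat_lit 812, nat_lit 4267, nat_lit 231, nat_lit 126150, nat_lit 302, nat_lit 61818043, nat_lit 0, nat_lit 0, nat_lit 1361149, false, false⟩,
 nat_lit 6047, nat_lit 2301, nat_lit 0, nat_lit 0, nat_lit 5084, nat_lit 3359, nat_lit 438, nat_lit 0, nat_lit 0, nat_lit 456, nat_lit 0, nat_lit 0, nat_lit 0, nat_lit 0, nat_lit 32, nat_lit 812000, nat_lit 0, nat_lit 0, [(nat_lit 9, [(nat_lit 6, nat_lit 812)])],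
 ⟨p034_k30, nat_lit 0, nat_lit 0, nat_lit 325, nat_lit 0, nat_lit 421173, [nat_lit 2284595201, nat_lit 1214120000, nat_lit 162392800], [], [nat_lit 13245305021, nat_lit 13933697762, nat_lit 12815492127, nat_lit 13473674627, nat_lit 12357673406, nat_lit 13023331123, nat_lit 13196028625, nat_lit 12622123651], nat_lit 1271250, nat_lit 1271250, nat_lit 205650, nat_lit 490000, nat_lit 230001, nat_lit 490000, [nat_lit 1100000, nat_lit 1442500, nat_lit 1271250], [nat_lit 9, nat_lit 40, nat_lit 20, nat_lit 80, nat_lit 2, nat_lit 249, nat_lit 40, nat_lit 8]⟩, ⟨p034_k10, nat_lit 0, nat_lit 0, nat_lit 397, nat_lit 0, nat_lit 467940, [nat_lit 881344000, nat_lit 1175000000, nat_lit 1497984000], [], [nat_lit 7448481716, nat_lit 6572508260, nat_lit 3610283417, nat_lit 4093878258, nat_lit 5800924775, nat_lit 5029254651, nat_lit 6452366159, nat_lit 5691744122], nat_lit 1271250, nat_lit 1271250, nat_lit 205650, nat_lit 490000, nat_lit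 0, nat_lit 1977500, [nat_lit 1100000, nat_lit 1442500, nat_lit 1271250], [nat_lit 9, nat_lit 40, nat_lit 20, nat_lit 80, nat_lit 2, nat_lit 317, nat_lit 100, nat_lit 11]⟩,
 ⟨nat_lit 5477, nat_lit 5701, ⟨.ofNat (nat_lit 238805), .ofNat (nat_lit 323196), .ofNat (nat_lit 249476), .ofNat (nat_lit 333867), .ofNat (nat_lit 246166), .ofNat (nat_lit 328592), .ofNat (nat_lit 256844), .ofNat (nat_lit 339271)⟩, ⟨.ofNat (nat_lit 1045), .ofNat (nat_lit 77764), .ofNat (nat_lit 22387), .ofNat (nat_lit 99106), .ofNat (nat_lit 8053), .ofNat (nat_lit 82986), .ofNat (nat_lit 29410), .ofNat (nat_lit 104343)⟩⟩, [⟨nat_lit 0, nat_lit 100, nat_lit 96, nat_lit 69, nat_lit 197309907⟩, ⟨nat_lit 7, nat_lit 100, nat_lit 100, nat_lit 55, nat_lit 6377394⟩]⟩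
noncomputable def p034_l106 : Lf2 := ⟨nat_lit 0, nat_lit 5, [nat_lit 4, nat_lit 5, nat_lit 5, nat_lit 20], false, nat_lit 40, nat_lit 80, nat_lit 0, nat_lit 268, ⟨nat_lit 403, nat_lit 0, nat_lit 597, nat_lit 6, nat_lit 124, nat_lit 597, nat_lit 21, nat_lit 597, nat_lit 4267, nat_lit 231, nat_lit 144150, nat_lit 308, nat_lit 61148937, nat_lit 0, nat_lit 0, nat_lit 1481570, false, false⟩,
 nat_lit 10168, nat_lit 0, nat_lit 0, nat_lit 0, nat_lit 6192, nat_lit 5918, nat_lit 762, nat_lit 0, nat_lit 0, nat_lit 696, nat_lit 0, nat_lit 0, nat_lit 0, nat_lit 0, nat_lit 0, nat_lit 597000, nat_lit 0, nat_lit 0, [(nat_lit 9, [(nat_lit 6, nat_lit 597)])],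
 ⟨p034_k30, nat_lit 0, nat_lit 0, nat_lit 381, nat_lit 0, nat_lit 505614, [nat_lit 2544531200, nat_lit 2076970001, nat_lit 1654171799], [], [nat_lit 14101586113, nat_lit 14669128035, nat_lit 13530495455, nat_lit 14084453683, nat_lit 12997149083, nat_lit 13555644115, nat_lit 13625057814, nat_lit 13008412691], nat_lit 1271250, nat_lit 1271250, nat_lit 230001, nat_lit 490000, nat_lit 230001, nat_lit 490000, [nat_lit 1100000, nat_lit 1442500, nat_lit 1271250], [nat_lit 9, nat_lit 40, nat_lit 20, nat_lit 80, nat_lit 2, nat_lit 249, nat_lit 40, nat_lit 8]⟩, ⟨p034_k27, nat_lit 0, nat_lit 0, nat_lit 425, nat_lit 0, nat_lit 532436, [nat_lit 1889264000, nat_lit 2518750000, nat_lit 3211104000], [], [nat_lit 13405774784, nat_lit 12203234180, nat_lit 7807787972, nat_lit 9735844880, nat_lit 11159524866, nat_lit 10051010188, nat_lit 12316470496, nat_lit 9625841144], nat_lit 1271250, nat_lit 1271250, nat_lit 230001, nat_lit 490000, nat_lit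 0, nat_lit 1892750, [nat_lit 1100000, nat_lit 1442500, nat_lit 1271250], [nat_lit 9, nat_lit 40, nat_lit 20, nat_lit 80, nat_lit 2, nat_lit 317, nat_lit 100, nat_lit 11]⟩,
 ⟨nat_lit 5477, nat_lit 5701, ⟨.ofNat (nat_lit 257148), .ofNat (nat_lit 333867), .ofNat (nat_lit 278490), .ofNat (nat_lit 355209), .ofNat (nat_lit 264337), .ofNat (nat_lit 339271), .ofNat (nat_lit 285695), .ofNat (nat_lit 360628)⟩, ⟨.ofNat (nat_lit 1045), .ofNat (nat_lit 77764), .ofNat (nat_lit 22387), .ofNat (nat_lit 99106), .ofNat (nat_lit 8053), .ofNat (nat_lit 82986), .ofNat (nat_lit 29410), .ofNat (nat_lit 104343)⟩⟩, [⟨nat_lit 0, nat_lit 100, nat_lit 99, nat_lit 72, nat_lit 266328655⟩, ⟨nat_lit 7, nat_lit 100, nat_lit 96, nat_lit 54, nat_lit 53488879⟩]⟩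
noncomputable def p034_l107 : Lf2 := ⟨nat_lit 0, nat_lit 5, [nat_lit 4, nat_lit 5, nat_lit 5, nat_lit 20], false, nat_lit 40, nat_lit 80, nat_lit 0, nat_lit 160, ⟨nat_lit 1000, nat_lit 0, nat_lit 0, nat_lit 0, nat_lit 0, nat_lit 0, nat_lit 0, nat_lit 0, nat_lit 0, nat_lit 0, nat_lit 0, nat_lit 0, nat_lit 0, nat_lit 0, nat_lit 0, nat_lit 0, false, false⟩,
 nat_lit 12311, nat_lit 3893, nat_lit 0, nat_lit 0, nat_lit 9432, nat_lit 6517, nat_lit 3303, nat_lit 0, nat_lit 0, nat_lit 0, nat_lit 0, nat_lit 0, nat_lit 0, nat_lit 0, nat_lit 0, nat_lit 0, nat_lit 0, nat_lit 0, [],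
 ⟨p034_k27, nat_lit 0, nat_lit 0, nat_lit 365, nat_lit 0, nat_lit 532436, [nat_lit 4688000000, nat_lit 6250000000, nat_lit 7968000000], [], [nat_lit 14261660048, nat_lit 14409221568, nat_lit 16714886402, nat_lit 13471006784, nat_lit 15399178330, nat_lit 10951675765, nat_lit 18426280458, nat_lit 13920727242], nat_lit 1271250, nat_lit 1271250, nat_lit 490000, nat_lit 780000, nat_lit 230001, nat_lit 490000, [nat_lit 1100000, nat_lit 1442500, nat_lit 1271250], [nat_lit 9, nat_lit 40, nat_lit 20, nat_lit 80, nat_lit 2, nat_lit 260, nat_lit 50, nat_lit 9]⟩, ⟨p034_k8, nat_lit 0, nat_lit 0, nat_lit 497, nat_lit 0, nat_lit 593938, [nat_lit 4688000000, nat_lit 6250000000, nat_lit 9842000000], [], [nat_lit 42430877280, nat_lit 37450234536, nat_lit 35586048604, nat_lit 37118121632, nat_lit 35806646820, nat_lit 34597143668, nat_lit 38384667816, nat_lit 34248678168], nat_lit 1271250, nat_lit 1271250, nat_lit 490000, nat_lit 780000,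 nat_lit 0, nat_lit 1100001, [nat_lit 1100000, nat_lit 1442500, nat_lit 1271250], [nat_lit 11, nat_lit 40, nat_lit 20, nat_lit 80, nat_lit 1, nat_lit 373, nat_lit 150, nat_lit 11]⟩,
 zbF0, []⟩
noncomputable def p034_l108 : Lf2 := ⟨nat_lit 0, nat_lit 5, [nat_lit 4, nat_lit 5, nat_lit 5, nat_lit 20], false, nat_lit 40, nat_lit 80, nat_lit 160, nat_lit 288, ⟨nat_lit 1000, nat_lit 0, nat_lit 0, nat_lit 0, nat_lit 0, nat_lit 0, nat_lit 0, nat_lit 0, nat_lit 0, nat_lit 0, nat_lit 0, nat_lit 0, nat_lit 0, nat_lit 0, nat_lit 0, nat_lit 0, false, false⟩,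
 nat_lit 16507, nat_lit 0, nat_lit 0, nat_lit 0, nat_lit 9608, nat_lit 8738, nat_lit 3330, nat_lit 0, nat_lit 0, nat_lit 53, nat_lit 0, nat_lit 0, nat_lit 0, nat_lit 0, nat_lit 0, nat_lit 0, nat_lit 0, nat_lit 0, [],
 ⟨p034_k27, nat_lit 0, nat_lit 0, nat_lit 365, nat_lit 0, nat_lit 532436, [nat_lit 4688000000, nat_lit 6250000000, nat_lit 7968000000], [], [nat_lit 13892150512, nat_lit 14494207392, nat_lit 16331536788, nat_lit 13519857696, nat_lit 14993517020, nat_lit 10352169920, nat_lit 18055459052, nat_lit 13465832748], nat_lit 1271250, nat_lit 1271250, nat_lit 490000, nat_lit 780000, nat_lit 230001, nat_lit 490000, [nat_lit 1100000, nat_lit 1442500, nat_lit 1271250], [nat_lit 9, nat_lit 40, nat_lit 20, nat_lit 80, nat_lit 2, nat_lit 260, nat_lit 50, nat_lit 9]⟩, ⟨p034_k8, nat_lit 0, nat_lit 0, nat_lit 362, nat_lit 0, nat_lit 593938, [nat_lit 4688000000, nat_lit 6250000000, nat_lit 9842000000], [], [nat_lit 24349984304,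 nat_lit 24784033042, nat_lit 22060654058, nat_lit 24135131970, nat_lit 28894260448, nat_lit 29274410108, nat_lit 31747656887, nat_lit 28330849545], nat_lit 1271250, nat_lit 1271250, nat_lit 490000, nat_lit 780000, nat_lit 1100001, nat_lit 2196000, [nat_lit 1100000, nat_lit 1442500, nat_lit 1271250], [nat_lit 11, nat_lit 40, nat_lit 20, nat_lit 80, nat_lit 1, nat_lit 401, nat_lit 175, nat_lit 11]⟩,
 zbF0, [⟨nat_lit 7, nat_lit 100, nat_lit 98, nat_lit 54, nat_lit 744911114⟩]⟩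
noncomputable def b_VL_600_600_5_25 : St := ⟨true, nat_lit 1, nat_lit 1, nat_lit 1, nat_lit 40, nat_lit 260, nat_lit 280, nat_lit 240, nat_lit 280, nat_lit 24, nat_lit 120, nat_lit 20, nat_lit 40, nat_lit 40, nat_lit 80, nat_lit 0, nat_lit 288, nat_lit 0, nat_lit 20, nat_lit 0, nat_lit 0, nat_lit 0, nat_lit 0⟩
theorem d_VL_600_600_5_25 (h : EB TB.env) : Dead b_VL_600_600_5_25 := chkB_sound0 h (T :=
(.spl (nat_lit 2) (nat_lit 80)
(.spl (nat_lit 0) (nat_lit 270)
(.ord (.spl (nat_lit 1) (nat_lit 260)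
(.spl (nat_lit 2) (nat_lit 40)
(.spl (nat_lit 5) (nat_lit 160)
(.leaf p034_l99)
(.leaf p034_l100))
(.spl (nat_lit 0) (nat_lit 265)
(.leaf p034_l101)
(.leaf p034_l102)))
(.trZ (nat_lit 0) (nat_lit 100) (nat_lit 100) (nat_lit 60) (nat_lit 36) (.trX (nat_lit 19) (nat_lit 100) (nat_lit 99) (nat_lit 63) (nat_lit 268) (.leaf p034_l103)))))
(.trZ (nat_lit 0) (nat_lit 100) (nat_lit 96) (nat_lit 54) (nat_lit 28) (.spl (nat_lit 1) (nat_lit 260)
(.spl (nat_lit 1) (nat_lit 250)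
(.leaf p034_l104)
(.trZ (nat_lit 0) (nat_lit 100) (nat_lit 97) (nat_lit 59) (nat_lit 36) (.trX (nat_lit 19) (nat_lit 100) (nat_lit 95) (nat_lit 62) (nat_lit 280) (.leaf p034_l105))))
(.trZ (nat_lit 0) (nat_lit 100) (nat_lit 98) (nat_lit 64) (nat_lit 40) (.trX (nat_lit 19) (nat_lit 100) (nat_lit 99) (nat_lit 63) (nat_lit 268) (.leaf p034_l106))))))
(.spl (nat_lit 5) (nat_lit 160)
(.leaf p034_l107)
(.leaf p034_l108)))) (by decide +kernel)
noncomputable def p034_l109 : Lf2 := ⟨nat_lit 0, nat_lit 10, [nat_lit 0, nat_lit 5, nat_lit 5, nat_lit 20], true, nat_lit 0, nat_lit 40, nat_lit 0, nat_lit 288, ⟨nat_lit 0, nat_lit 0, nat_lit 1000, nat_lit 6, nat_lit 92, nat_lit 0, nat_lit 3, nat_lit 0, nat_lit 1067, nat_lit 207, nat_lit 79350, nat_lit 284, nat_lit 63603445, nat_lit 0, nat_lit 0, nat_lit 1002771, false, false⟩,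
 nat_lit 0, nat_lit 7487, nat_lit 0, nat_lit 0, nat_lit 4358, nat_lit 0, nat_lit 0, nat_lit 0, nat_lit 0, nat_lit 0, nat_lit 0, nat_lit 0, nat_lit 0, nat_lit 0, nat_lit 152, nat_lit 770800, nat_lit 0, nat_lit 0, [(nat_lit 9, [(nat_lit 5, nat_lit 382), (nat_lit 6, nat_lit 618)])],
 ⟨p034_k36, nat_lit 0, nat_lit 0, nat_lit 372, nat_lit 0, nat_lit 271294, [nat_lit 3693401601, nat_lit 2724914667, nat_lit 133589333], [], [nat_lit 14177173165, nat_lit 15910884084, nat_lit 13507982541, nat_lit 14895768992, nat_lit 12890069562, nat_lit 14175329443, nat_lit 12586959939, nat_lit 13856969871], nat_lit 1271250, nat_lit 1271250, nat_lit 134400, nat_lit 230001, nat_lit 0, nat_lit 230001, [nat_lit 1100000, nat_lit 1442500, nat_lit 1271250], [nat_lit 11, nat_lit 40, nat_lit 20, nat_lit 80, nat_lit 1, nat_lit 317, nat_lit 100, nat_lit 10]⟩, C1.Rw.none,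
 ⟨nat_lit 5477, nat_lit 5917, ⟨.ofNat (nat_lit 197129), .ofNat (nat_lit 228543), .ofNat (nat_lit 218469), .ofNat (nat_lit 249882), .ofNat (nat_lit 213007), .ofNat (nat_lit 242980), .ofNat (nat_lit 234364), .ofNat (nat_lit 264337)⟩, ⟨.negSucc (nat_lit 84722), .negSucc (nat_lit 6188), .negSucc (nat_lit 63383), .ofNat (nat_lit 15150), .negSucc (nat_lit 66879), .ofNat (nat_lit 8053), .negSucc (nat_lit 45522), .ofNat (nat_lit 29410)⟩⟩, [⟨nat_lit 0, nat_lit 100, nat_lit 97, nat_lit 59, nat_lit 512075914⟩]⟩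
noncomputable def p034_l110 : Lf2 := ⟨nat_lit 0, nat_lit 10, [nat_lit 0, nat_lit 5, nat_lit 5, nat_lit 20], true, nat_lit 0, nat_lit 40, nat_lit 0, nat_lit 288, ⟨nat_lit 0, nat_lit 0, nat_lit 1000, nat_lit 6, nat_lit 113, nat_lit 0, nat_lit 2, nat_lit 0, nat_lit 1350, nat_lit 206, nat_lit 117600, nat_lit 299, nat_lit 62075480, nat_lit 0, nat_lit 0, nat_lit 1312997, false, false⟩,
 nat_lit 0, nat_lit 7465, nat_lit 0, nat_lit 0, nat_lit 4345, nat_lit 0, nat_lit 0, nat_lit 0, nat_lit 0, nat_lit 0, nat_lit 0, nat_lit 0, nat_lit 0, nat_lit 0, nat_lit 166, nat_lit 851800, nat_lit 0, nat_lit 0, [(nat_lit 9, [(nat_lit 5, nat_lit 247), (nat_lit 6, nat_lit 753)])],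
 ⟨p034_k36, nat_lit 0, nat_lit 0, nat_lit 337, nat_lit 0, nat_lit 217687, [nat_lit 3859513600, nat_lit 2964774667, nat_lit 164509333], [], [nat_lit 13139647553, nat_lit 13834561540, nat_lit 12742471407, nat_lit 13325638547, nat_lit 12309644787, nat_lit 12897622977, nat_lit 13317680544, nat_lit 12687953840], nat_lit 1271250, nat_lit 1271250, nat_lit 230001, nat_lit 490000, nat_lit 0, nat_lit 230001, [nat_lit 1100000, nat_lit 1442500, nat_lit 1271250], [nat_lit 11, nat_lit 40, nat_lit 20, nat_lit 80, nat_lit 1, nat_lit 317, nat_lit 100, nat_lit 9]⟩, C1.Rw.none,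
 ⟨nat_lit 5700, nat_lit 5917, ⟨.ofNat (nat_lit 228543), .ofNat (nat_lit 307076), .ofNat (nat_lit 249882), .ofNat (nat_lit 328416), .ofNat (nat_lit 235806), .ofNat (nat_lit 312525), .ofNat (nat_lit 257148), .ofNat (nat_lit 333867)⟩, ⟨.negSucc (nat_lit 84722), .negSucc (nat_lit 6188), .negSucc (nat_lit 63383), .ofNat (nat_lit 15150), .negSucc (nat_lit 75673), .ofNat (nat_lit 1045), .negSucc (nat_lit 54331), .ofNat (nat_lit 22387)⟩⟩, [⟨nat_lit 0, nat_lit 100, nat_lit 98, nat_lit 64, nat_lit 40598146⟩]⟩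
noncomputable def p034_l111 : Lf2 := ⟨nat_lit 0, nat_lit 10, [nat_lit 0, nat_lit 5, nat_lit 5, nat_lit 20], true, nat_lit 0, nat_lit 40, nat_lit 0, nat_lit 288, ⟨nat_lit 0, nat_lit 0, nat_lit 1000, nat_lit 6, nat_lit 115, nat_lit 0, nat_lit 3, nat_lit 0, nat_lit 817, nat_lit 208, nat_lit 123267, nat_lit 301, nat_lit 61920528, nat_lit 0, nat_lit 0, nat_lit 1342106, false, false⟩,
 nat_lit 0, nat_lit 7165, nat_lit 0, nat_lit 0, nat_lit 4363, nat_lit 0, nat_lit 0, nat_lit 0, nat_lit 0, nat_lit 0, nat_lit 0, nat_lit 0, nat_lit 0, nat_lit 0, nat_lit 159, nat_lit 809800, nat_lit 0, nat_lit 0, [(nat_lit 9, [(nat_lit 5, nat_lit 317), (nat_lit 6, nat_lit 683)])],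
 ⟨p034_k37, nat_lit 0, nat_lit 0, nat_lit 343, nat_lit 0, nat_lit 231468, [nat_lit 3777529601, nat_lit 2845588001, nat_lit 155735999], [], [nat_lit 14023517251, nat_lit 14381077014, nat_lit 13570318867, nat_lit 13885408835, nat_lit 13127244500, nat_lit 13444923551, nat_lit 12958680996, nat_lit 13263753934], nat_lit 1271250, nat_lit 1271250, nat_lit 230001, nat_lit 490000, nat_lit 0, nat_lit 230001, [nat_lit 1100000, nat_lit 1442500, nat_lit 1271250], [nat_lit 11, nat_lit 40, nat_lit 20, nat_lit 80, nat_lit 1, nat_lit 317, nat_lit 100, nat_lit 9]⟩, C1.Rw.none,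
 ⟨nat_lit 5590, nat_lit 5701, ⟨.ofNat (nat_lit 235806), .ofNat (nat_lit 312525), .ofNat (nat_lit 257148), .ofNat (nat_lit 333867), .ofNat (nat_lit 239403), .ofNat (nat_lit 315226), .ofNat (nat_lit 260751), .ofNat (nat_lit 336574)⟩, ⟨.negSucc (nat_lit 75673), .ofNat (nat_lit 1045), .negSucc (nat_lit 54331), .ofNat (nat_lit 22387), .negSucc (nat_lit 71245), .ofNat (nat_lit 4577), .negSucc (nat_lit 49897), .ofNat (nat_lit 25924)⟩⟩, [⟨nat_lit 0, nat_lit 100, nat_lit 97, nat_lit 67, nat_lit 134841854⟩]⟩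
noncomputable def p034_l112 : Lf2 := ⟨nat_lit 0, nat_lit 10, [nat_lit 0, nat_lit 5, nat_lit 5, nat_lit 20], true, nat_lit 0, nat_lit 40, nat_lit 0, nat_lit 288, ⟨nat_lit 0, nat_lit 0, nat_lit 1000, nat_lit 6, nat_lit 116, nat_lit 0, nat_lit 3, nat_lit 0, nat_lit 600, nat_lit 209, nat_lit 126150, nat_lit 302, nat_lit 61817061, nat_lit 0, nat_lit 0, nat_lit 1361331, false, false⟩,
 nat_lit 0, nat_lit 6949, nat_lit 0, nat_lit 0, nat_lit 4326, nat_lit 0, nat_lit 0, nat_lit 0, nat_lit 0, nat_lit 0, nat_lit 0, nat_lit 0, nat_lit 0, nat_lit 0, nat_lit 153, nat_lit 776200, nat_lit 0, nat_lit 0, [(nat_lit 9, [(nat_lit 5, nat_lit 373), (nat_lit 6, nat_lit 627)])],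
 ⟨p034_k38, nat_lit 0, nat_lit 0, nat_lit 351, nat_lit 0, nat_lit 250637, [nat_lit 3705542401, nat_lit 2742238667, nat_lit 137517333], [], [nat_lit 14491756801, nat_lit 14848094624, nat_lit 14035326167, nat_lit 14349127203, nat_lit 13597827948, nat_lit 13914200399, nat_lit 13424898564, nat_lit 13728738939], nat_lit 1271250, nat_lit 1271250, nat_lit 230001, nat_lit 490000, nat_lit 0, nat_lit 230001, [nat_lit 1100000, nat_lit 1442500, nat_lit 1271250], [nat_lit 11, nat_lit 40, nat_lit 20, nat_lit 80, nat_lit 1, nat_lit 317, nat_lit 100, nat_lit 9]⟩, C1.Rw.none,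
 ⟨nat_lit 5477, nat_lit 5591, ⟨.ofNat (nat_lit 239403), .ofNat (nat_lit 315226), .ofNat (nat_lit 260751), .ofNat (nat_lit 336574), .ofNat (nat_lit 242980), .ofNat (nat_lit 317913), .ofNat (nat_lit 264337), .ofNat (nat_lit 339271)⟩, ⟨.negSucc (nat_lit 71245), .ofNat (nat_lit 4577), .negSucc (nat_lit 49897), .ofNat (nat_lit 25924), .negSucc (nat_lit 66879), .ofNat (nat_lit 8053), .negSucc (nat_lit 45522), .ofNat (nat_lit 29410)⟩⟩, [⟨nat_lit 0, nat_lit 100, nat_lit 96, nat_lit 69, nat_lit 134678647⟩]⟩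
noncomputable def p034_l113 : Lf2 := ⟨nat_lit 0, nat_lit 10, [nat_lit 0, nat_lit 5, nat_lit 5, nat_lit 20], true, nat_lit 40, nat_lit 80, nat_lit 0, nat_lit 288, ⟨nat_lit 0, nat_lit 0, nat_lit 1000, nat_lit 6, nat_lit 92, nat_lit 1000, nat_lit 20, nat_lit 1000, nat_lit 3750, nat_lit 230, nat_lit 79350, nat_lit 284, nat_lit 63603445, nat_lit 0, nat_lit 0, nat_lit 1002771, false, false⟩,
 nat_lit 0, nat_lit 8244, nat_lit 0, nat_lit 0, nat_lit 4798, nat_lit 0, nat_lit 0, nat_lit 0, nat_lit 0, nat_lit 0, nat_lit 0, nat_lit 0, nat_lit 0, nat_lit 0, nat_lit 163, nat_lit 832600, nat_lit 0, nat_lit 0, [(nat_lit 9, [(nat_lit 5, nat_lit 279), (nat_lit 6, nat_lit 721)])],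
 ⟨p034_k36, nat_lit 0, nat_lit 0, nat_lit 340, nat_lit 0, nat_lit 271294, [nat_lit 3825235200, nat_lit 2914289334, nat_lit 166098666], [], [nat_lit 12666799719, nat_lit 14401317429, nat_lit 11982347968, nat_lit 13403385080, nat_lit 12037350956, nat_lit 12483553671, nat_lit 12361975520, nat_lit 11967422008], nat_lit 1271250, nat_lit 1271250, nat_lit 134400, nat_lit 230001, nat_lit 230001, nat_lit 490000, [nat_lit 1100000, nat_lit 1442500, nat_lit 1271250], [nat_lit 11, nat_lit 40, nat_lit 20, nat_lit 80, nat_lit 1, nat_lit 317, nat_lit 100, nat_lit 9]⟩, C1.Rw.none,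
 ⟨nat_lit 5477, nat_lit 5917, ⟨.ofNat (nat_lit 197129), .ofNat (nat_lit 228543), .ofNat (nat_lit 218469), .ofNat (nat_lit 249882), .ofNat (nat_lit 213007), .ofNat (nat_lit 242980), .ofNat (nat_lit 234364), .ofNat (nat_lit 264337)⟩, ⟨.negSucc (nat_lit 6188), .ofNat (nat_lit 72344), .ofNat (nat_lit 15150), .ofNat (nat_lit 93684), .ofNat (nat_lit 8053), .ofNat (nat_lit 82986), .ofNat (nat_lit 29410), .ofNat (nat_lit 104343)⟩⟩, [⟨nat_lit 0, nat_lit 100, nat_lit 97, nat_lit 59, nat_lit 493202122⟩]⟩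
noncomputable def p034_l114 : Lf2 := ⟨nat_lit 0, nat_lit 10, [nat_lit 0, nat_lit 5, nat_lit 5, nat_lit 20], true, nat_lit 40, nat_lit 80, nat_lit 0, nat_lit 288, ⟨nat_lit 0, nat_lit 0, nat_lit 1000, nat_lit 6, nat_lit 113, nat_lit 0, nat_lit 19, nat_lit 453, nat_lit 3267, nat_lit 229, nat_lit 117600, nat_lit 299, nat_lit 62075480, nat_lit 0, nat_lit 0, nat_lit 1312997, false, false⟩,
 nat_lit 0, nat_lit 7348, nat_lit 0, nat_lit 0, nat_lit 4276, nat_lit 0, nat_lit 0, nat_lit 0, nat_lit 0, nat_lit 0, nat_lit 0, nat_lit 0, nat_lit 0, nat_lit 0, nat_lit 189, nat_lit 985000, nat_lit 0, nat_lit 0, [(nat_lit 9, [(nat_lit 5, nat_lit 25), (nat_lit 6, nat_lit 975)])],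
 ⟨p034_k36, nat_lit 0, nat_lit 0, nat_lit 303, nat_lit 0, nat_lit 217687, [nat_lit 4132320000, nat_lit 3358766667, nat_lit 214733333], [], [nat_lit 11246111257, nat_lit 11914012539, nat_lit 10954130995, nat_lit 11623097295, nat_lit 10393838067, nat_lit 11068537415, nat_lit 10195643379, nat_lit 10847914924], nat_lit 1271250, nat_lit 1271250, nat_lit 230001, nat_lit 490000, nat_lit 230001, nat_lit 490000, [nat_lit 1100000, nat_lit 1442500, nat_lit 1271250], [nat_lit 11, nat_lit 40, nat_lit 20, nat_lit 80, nat_lit 1, nat_lit 345, nat_lit 125, nat_lit 10]⟩, C1.Rw.none,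
 ⟨nat_lit 5700, nat_lit 5917, ⟨.ofNat (nat_lit 228543), .ofNat (nat_lit 307076), .ofNat (nat_lit 249882), .ofNat (nat_lit 328416), .ofNat (nat_lit 235806), .ofNat (nat_lit 312525), .ofNat (nat_lit 257148), .ofNat (nat_lit 333867)⟩, ⟨.negSucc (nat_lit 6188), .ofNat (nat_lit 72344), .ofNat (nat_lit 15150), .ofNat (nat_lit 93684), .ofNat (nat_lit 1045), .ofNat (nat_lit 77764), .ofNat (nat_lit 22387), .ofNat (nat_lit 99106)⟩⟩, [⟨nat_lit 0, nat_lit 100, nat_lit 98, nat_lit 64, nat_lit 148801122⟩]⟩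
noncomputable def p034_l115 : Lf2 := ⟨nat_lit 0, nat_lit 10, [nat_lit 0, nat_lit 5, nat_lit 5, nat_lit 20], true, nat_lit 40, nat_lit 80, nat_lit 0, nat_lit 288, ⟨nat_lit 0, nat_lit 0, nat_lit 1000, nat_lit 6, nat_lit 115, nat_lit 1000, nat_lit 21, nat_lit 1000, nat_lit 4267, nat_lit 231, nat_lit 123267, nat_lit 301, nat_lit 61869018, nat_lit 0, nat_lit 0, nat_lit 1351698, false, false⟩,
 nat_lit 0, nat_lit 7379, nat_lit 0, nat_lit 0, nat_lit 4493, nat_lit 0, nat_lit 0, nat_lit 0, nat_lit 0, nat_lit 0, nat_lit 0, nat_lit 0, nat_lit 0, nat_lit 0, nat_lit 170, nat_lit 875800, nat_lit 0, nat_lit 0, [(nat_lit 9, [(nat_lit 5, nat_lit 207), (nat_lit 6, nat_lit 793)])],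
 ⟨p034_k37, nat_lit 0, nat_lit 0, nat_lit 321, nat_lit 0, nat_lit 257220, [nat_lit 3906361600, nat_lit 3032881334, nat_lit 169522666], [], [nat_lit 12532816868, nat_lit 13130074954, nat_lit 12289640901, nat_lit 12863339122, nat_lit 11829899627, nat_lit 12386645598, nat_lit 13174736691, nat_lit 12161882002], nat_lit 1271250, nat_lit 1271250, nat_lit 230001, nat_lit 490000, nat_lit 230001, nat_lit 490000, [nat_lit 1100000, nat_lit 1442500, nat_lit 1271250], [nat_lit 11, nat_lit 40, nat_lit 20, nat_lit 80, nat_lit 1, nat_lit 345, nat_lit 125, nat_lit 10]⟩, C1.Rw.none,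
 ⟨nat_lit 5477, nat_lit 5701, ⟨.ofNat (nat_lit 235806), .ofNat (nat_lit 312525), .ofNat (nat_lit 257148), .ofNat (nat_lit 333867), .ofNat (nat_lit 242980), .ofNat (nat_lit 317913), .ofNat (nat_lit 264337), .ofNat (nat_lit 339271)⟩, ⟨.ofNat (nat_lit 1045), .ofNat (nat_lit 77764), .ofNat (nat_lit 22387), .ofNat (nat_lit 99106), .ofNat (nat_lit 8053), .ofNat (nat_lit 82986), .ofNat (nat_lit 29410), .ofNat (nat_lit 104343)⟩⟩, [⟨nat_lit 0, nat_lit 100, nat_lit 96, nat_lit 69, nat_lit 107163649⟩]⟩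
noncomputable def p034_l116 : Lf2 := ⟨nat_lit 0, nat_lit 10, [nat_lit 0, nat_lit 5, nat_lit 5, nat_lit 20], false, nat_lit 0, nat_lit 40, nat_lit 0, nat_lit 288, ⟨nat_lit 0, nat_lit 0, nat_lit 1000, nat_lit 6, nat_lit 145, nat_lit 0, nat_lit 3, nat_lit 0, nat_lit 1067, nat_lit 207, nat_lit 194400, nat_lit 323, nat_lit 59254904, nat_lit 0, nat_lit 0, nat_lit 1790310, false, false⟩,
 nat_lit 0, nat_lit 8413, nat_lit 0, nat_lit 0, nat_lit 4896, nat_lit 0, nat_lit 0, nat_lit 0, nat_lit 0, nat_lit 0, nat_lit 0, nat_lit 0, nat_lit 0, nat_lit 0, nat_lit 156, nat_lit 793000, nat_lit 0, nat_lit 0, [(nat_lit 9, [(nat_lit 5, nat_lit 345), (nat_lit 6, nat_lit 655)])],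
 ⟨p034_k36, nat_lit 0, nat_lit 0, nat_lit 333, nat_lit 0, nat_lit 271294, [nat_lit 3741536001, nat_lit 2793913334, nat_lit 146626666], [], [nat_lit 12748971578, nat_lit 14172765184, nat_lit 13637248589, nat_lit 14056478666, nat_lit 12256327917, nat_lit 12711224586, nat_lit 14318283725, nat_lit 12672119034], nat_lit 1271250, nat_lit 1271250, nat_lit 490000, nat_lit 780000, nat_lit 0, nat_lit 230001, [nat_lit 1100000, nat_lit 1442500, nat_lit 1271250], [nat_lit 11, nat_lit 40, nat_lit 20, nat_lit 80, nat_lit 1, nat_lit 345, nat_lit 125, nat_lit 10]⟩, ⟨p034_k24, nat_lit 0, nat_lit 0, nat_lit 405, nat_lit 0, nat_lit 303690, [nat_lit 0, nat_lit 0, nat_lit 0], [], [nat_lit 0, nat_lit 0, nat_lit 0, nat_lit 0, nat_lit 0, nat_lit 0, nat_lit 0, nat_lit 0], nat_lit 1271250, nat_lit 1271250, nat_lit 490000, nat_lit 780000, nat_lit 0, nat_lit 2034000, [nat_lit 1100000, nat_lit 1442500, nat_lit 1271250], [nat_lit 48, nat_lit 40, nat_lit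 20, nat_lit 80, nat_lit 12, nat_lit 401, nat_lit 175, nat_lit 11]⟩,
 ⟨nat_lit 5477, nat_lit 5917, ⟨.ofNat (nat_lit 307076), .ofNat (nat_lit 385610), .ofNat (nat_lit 328416), .ofNat (nat_lit 406949), .ofNat (nat_lit 317913), .ofNat (nat_lit 392847), .ofNat (nat_lit 339271), .ofNat (nat_lit 414204)⟩, ⟨.negSucc (nat_lit 84722), .negSucc (nat_lit 6188), .negSucc (nat_lit 63383), .ofNat (nat_lit 15150), .negSucc (nat_lit 66879), .ofNat (nat_lit 8053), .negSucc (nat_lit 45522), .ofNat (nat_lit 29410)⟩⟩, []⟩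
noncomputable def p034_l117 : Lf2 := ⟨nat_lit 0, nat_lit 10, [nat_lit 0, nat_lit 5, nat_lit 5, nat_lit 20], false, nat_lit 40, nat_lit 80, nat_lit 0, nat_lit 288, ⟨nat_lit 5, nat_lit 0, nat_lit 995, nat_lit 6, nat_lit 145, nat_lit 995, nat_lit 20, nat_lit 995, nat_lit 3750, nat_lit 230, nat_lit 194400, nat_lit 323, nat_lit 59254904, nat_lit 0, nat_lit 0, nat_lit 1790310, false, false⟩,
 nat_lit 66, nat_lit 7662, nat_lit 0, nat_lit 0, nat_lit 4498, nat_lit 34, nat_lit 0, nat_lit 0, nat_lit 0, nat_lit 1, nat_lit 0, nat_lit 0, nat_lit 0, nat_lit 0, nat_lit 184, nat_lit 965600, nat_lit 0, nat_lit 0, [(nat_lit 9, [(nat_lit 5, nat_lit 49), (nat_lit 6, nat_lit 946)])],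
 ⟨p034_k36, nat_lit 0, nat_lit 0, nat_lit 299, nat_lit 0, nat_lit 271294, [nat_lit 4080563201, nat_lit 3299296001, nat_lit 213075999], [], [nat_lit 10703212771, nat_lit 12027571110, nat_lit 11029937134, nat_lit 12402226586, nat_lit 9820673878, nat_lit 11175599690, nat_lit 10221536134, nat_lit 11579783546], nat_lit 1271250, nat_lit 1271250, nat_lit 490000, nat_lit 780000, nat_lit 230001, nat_lit 490000, [nat_lit 1100000, nat_lit 1442500, nat_lit 1271250], [nat_lit 11, nat_lit 40, nat_lit 20, nat_lit 80, nat_lit 1, nat_lit 345, nat_lit 125, nat_lit 10]⟩, ⟨p034_k24, nat_lit 0, nat_lit 0, nat_lit 405, nat_lit 0, nat_lit 303690, [nat_lit 23440000, nat_lit 31250000, nat_lit 59360000], [], [nat_lit 243012404, nat_lit 224756512, nat_lit 206500620, nat_lit 188523528, nat_lit 192282657, nat_lit 176722707, nat_lit 206402756, nat_lit 191044657], nat_lit 1271250, nat_lit 1271250, nat_lit 490000, nat_lit 780000, nat_lit 0, nat_lit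 2034000, [nat_lit 1100000, nat_lit 1442500, nat_lit 1271250], [nat_lit 48, nat_lit 40, nat_lit 20, nat_lit 80, nat_lit 12, nat_lit 401, nat_lit 175, nat_lit 11]⟩,
 ⟨nat_lit 5477, nat_lit 5917, ⟨.ofNat (nat_lit 307076), .ofNat (nat_lit 385610), .ofNat (nat_lit 328416), .ofNat (nat_lit 406949), .ofNat (nat_lit 317913), .ofNat (nat_lit 392847), .ofNat (nat_lit 339271), .ofNat (nat_lit 414204)⟩, ⟨.negSucc (nat_lit 6188), .ofNat (nat_lit 72344), .ofNat (nat_lit 15150), .ofNat (nat_lit 93684), .ofNat (nat_lit 8053), .ofNat (nat_lit 82986), .ofNat (nat_lit 29410), .ofNat (nat_lit 104343)⟩⟩, []⟩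
noncomputable def p034_l118 : Lf2 := ⟨nat_lit 0, nat_lit 10, [nat_lit 0, nat_lit 5, nat_lit 5, nat_lit 20], false, nat_lit 0, nat_lit 80, nat_lit 0, nat_lit 160, ⟨nat_lit 654, nat_lit 0, nat_lit 346, nat_lit 6, nat_lit 133, nat_lit 0, nat_lit 17, nat_lit 0, nat_lit 67, nat_lit 217, nat_lit 166667, nat_lit 315, nat_lit 60326691, nat_lit 0, nat_lit 0, nat_lit 1621031, false, false⟩,
 nat_lit 10975, nat_lit 0, nat_lit 0, nat_lit 0, nat_lit 6388, nat_lit 6388, nat_lit 1198, nat_lit 0, nat_lit 0, nat_lit 0, nat_lit 0, nat_lit 0, nat_lit 0, nat_lit 0, nat_lit 0, nat_lit 346000, nat_lit 0, nat_lit 0, [(nat_lit 9, [(nat_lit 6, nat_lit 346)])],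
 ⟨p034_k36, nat_lit 0, nat_lit 0, nat_lit 358, nat_lit 0, nat_lit 266321, [nat_lit 3445721600, nat_lit 3939181334, nat_lit 4583076800], [], [nat_lit 19155948081, nat_lit 19709914340, nat_lit 19585939528, nat_lit 18354350274, nat_lit 17723159229, nat_lit 16731945311, nat_lit 21688864640, nat_lit 20163129168], nat_lit 1271250, nat_lit 1271250, nat_lit 205650, nat_lit 780000, nat_lit 0, nat_lit 490000, [nat_lit 1100000, nat_lit 1442500, nat_lit 1271250], [nat_lit 11, nat_lit 40, nat_lit 20, nat_lit 80, nat_lit 1, nat_lit 345, nat_lit 125, nat_lit 10]⟩, ⟨p034_k36, nat_lit 0, nat_lit 0, nat_lit 358, nat_lit 0, nat_lit 266321, [nat_lit 3065952000, nat_lit 4087500000, nat_lit 6436668000], [], [nat_lit 22598260376, nat_lit 20952994086, nat_lit 17838144228, nat_lit 18334754546, nat_lit 16838635191, nat_lit 16121435805, nat_lit 20363021112, nat_lit 18878124124], nat_lit 1271250, nat_lit 1271250, nat_lit 205650, nat_lit 780000,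 nat_lit 0, nat_lit 1100001, [nat_lit 1100000, nat_lit 1442500, nat_lit 1271250], [nat_lit 11, nat_lit 40, nat_lit 20, nat_lit 80, nat_lit 1, nat_lit 373, nat_lit 150, nat_lit 11]⟩,
 ⟨nat_lit 5700, nat_lit 5917, ⟨.ofNat (nat_lit 242029), .ofNat (nat_lit 406949), .ofNat (nat_lit 252698), .ofNat (nat_lit 417619), .ofNat (nat_lit 249476), .ofNat (nat_lit 410586), .ofNat (nat_lit 260147), .ofNat (nat_lit 421257)⟩, ⟨.negSucc (nat_lit 84722), .ofNat (nat_lit 72344), .negSucc (nat_lit 63383), .ofNat (nat_lit 93684), .negSucc (nat_lit 75673), .ofNat (nat_lit 77764), .negSucc (nat_lit 54331), .ofNat (nat_lit 99106)⟩⟩, [⟨nat_lit 0, nat_lit 100, nat_lit 100, nat_lit 65, nat_lit 194932394⟩]⟩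
noncomputable def p034_l119 : Lf2 := ⟨nat_lit 0, nat_lit 10, [nat_lit 0, nat_lit 5, nat_lit 5, nat_lit 20], false, nat_lit 0, nat_lit 40, nat_lit 160, nat_lit 268, ⟨nat_lit 248, nat_lit 0, nat_lit 752, nat_lit 6, nat_lit 131, nat_lit 0, nat_lit 2, nat_lit 0, nat_lit 1667, nat_lit 205, nat_lit 163350, nat_lit 314, nat_lit 60472467, nat_lit 0, nat_lit 0, nat_lit 1596946, false, false⟩,
 nat_lit 8523, nat_lit 0, nat_lit 0, nat_lit 0, nat_lit 4961, nat_lit 4961, nat_lit 475, nat_lit 0, nat_lit 0, nat_lit 0, nat_lit 0, nat_lit 0, nat_lit 0, nat_lit 0, nat_lit 57, nat_lit 752000, nat_lit 0, nat_lit 0, [(nat_lit 9, [(nat_lit 6, nat_lit 752)])],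
 ⟨p034_k36, nat_lit 0, nat_lit 0, nat_lit 339, nat_lit 0, nat_lit 216423, [nat_lit 2900019201, nat_lit 2367642667, nat_lit 129739733], [], [nat_lit 14883735453, nat_lit 15183788283, nat_lit 16578581755, nat_lit 15969343670, nat_lit 13993120579, nat_lit 14283911243, nat_lit 17256444306, nat_lit 16655598993], nat_lit 1271250, nat_lit 1271250, nat_lit 205650, nat_lit 780000, nat_lit 0, nat_lit 230001, [nat_lit 1100000, nat_lit 1442500, nat_lit 1271250], [nat_lit 11, nat_lit 40, nat_lit 20, nat_lit 80, nat_lit 1, nat_lit 345, nat_lit 125, nat_lit 10]⟩, ⟨p034_k36, nat_lit 0, nat_lit 0, nat_lit 197, nat_lit 0, nat_lit 216423, [nat_lit 1162624000, nat_lit 1550000000, nat_lit 2440816000], [], [nat_lit 7534074892, nat_lit 6887200180, nat_lit 2283734282, nat_lit 2455053921, nat_lit 6413030702, nat_lit 6549365172, nat_lit 4126119457, nat_lit 4246315388], nat_lit 1271250, nat_lit 1271250, nat_lit 205650, nat_lit 780000, nat_lit 1100001,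 nat_lit 2024750, [nat_lit 1100000, nat_lit 1442500, nat_lit 1271250], [nat_lit 11, nat_lit 40, nat_lit 20, nat_lit 80, nat_lit 1, nat_lit 401, nat_lit 175, nat_lit 11]⟩,
 ⟨nat_lit 5809, nat_lit 5917, ⟨.ofNat (nat_lit 242029), .ofNat (nat_lit 406949), .ofNat (nat_lit 247363), .ofNat (nat_lit 412284), .ofNat (nat_lit 245764), .ofNat (nat_lit 408771), .ofNat (nat_lit 251099), .ofNat (nat_lit 414106)⟩, ⟨.negSucc (nat_lit 84722), .negSucc (nat_lit 6188), .negSucc (nat_lit 63383), .ofNat (nat_lit 15150), .negSucc (nat_lit 80165), .negSucc (nat_lit 2543), .negSucc (nat_lit 58826), .ofNat (nat_lit 18795)⟩⟩, [⟨nat_lit 0, nat_lit 100, nat_lit 100, nat_lit 63, nat_lit 205865082⟩, ⟨nat_lit 19, nat_lit 98, nat_lit 100, nat_lit 54, nat_lit 48355125⟩]⟩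
noncomputable def p034_l120 : Lf2 := ⟨nat_lit 0, nat_lit 10, [nat_lit 0, nat_lit 5, nat_lit 5, nat_lit 20], false, nat_lit 0, nat_lit 40, nat_lit 160, nat_lit 268, ⟨nat_lit 243, nat_lit 0, nat_lit 757, nat_lit 6, nat_lit 134, nat_lit 0, nat_lit 2, nat_lit 0, nat_lit 1350, nat_lit 206, nat_lit 166667, nat_lit 315, nat_lit 60276432, nat_lit 0, nat_lit 0, nat_lit 1629273, false, false⟩,
 nat_lit 8136, nat_lit 0, nat_lit 0, nat_lit 0, nat_lit 4844, nat_lit 4735, nat_lit 412, nat_lit 0, nat_lit 0, nat_lit 0, nat_lit 0, nat_lit 0, nat_lit 0, nat_lit 0, nat_lit 60, nat_lit 757000, nat_lit 0, nat_lit 0, [(nat_lit 9, [(nat_lit 6, nat_lit 757)])],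
 ⟨p034_k39, nat_lit 0, nat_lit 0, nat_lit 356, nat_lit 0, nat_lit 259258, [nat_lit 2930067200, nat_lit 2394249334, nat_lit 139589066], [], [nat_lit 15239014056, nat_lit 15561747891, nat_lit 16050193906, nat_lit 15455324064, nat_lit 14376354898, nat_lit 14663887153, nat_lit 16741961947, nat_lit 16155286942], nat_lit 1271250, nat_lit 1271250, nat_lit 205650, nat_lit 780000, nat_lit 0, nat_lit 230001, [nat_lit 1100000, nat_lit 1442500, nat_lit 1271250], [nat_lit 11, nat_lit 40, nat_lit 20, nat_lit 80, nat_lit 1, nat_lit 345, nat_lit 125, nat_lit 10]⟩, ⟨p034_k36, nat_lit 0, nat_lit 0, nat_lit 216, nat_lit 0, nat_lit 266321, [nat_lit 1139184000, nat_lit 1518750000, nat_lit 2391606000], [], [nat_lit 7375859576, nat_lit 6141047336, nat_lit 2367975318, nat_lit 2696958435, nat_lit 6317786708, nat_lit 6578057983, nat_lit 4144913277, nat_lit 4376124357], nat_lit 1271250, nat_lit 1271250, nat_lit 205650, nat_lit 780000, nat_lit 1100001,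 nat_lit 2024750, [nat_lit 1100000, nat_lit 1442500, nat_lit 1271250], [nat_lit 11, nat_lit 40, nat_lit 20, nat_lit 80, nat_lit 1, nat_lit 401, nat_lit 175, nat_lit 11]⟩,
 ⟨nat_lit 5700, nat_lit 5810, ⟨.ofNat (nat_lit 245764), .ofNat (nat_lit 408771), .ofNat (nat_lit 256433), .ofNat (nat_lit 419441), .ofNat (nat_lit 249476), .ofNat (nat_lit 410586), .ofNat (nat_lit 260147), .ofNat (nat_lit 421257)⟩, ⟨.negSucc (nat_lit 80165), .negSucc (nat_lit 2543), .negSucc (nat_lit 58826), .ofNat (nat_lit 18795), .negSucc (nat_lit 75673), .ofNat (nat_lit 1045), .negSucc (nat_lit 54331), .ofNat (nat_lit 22387)⟩⟩, [⟨nat_lit 0, nat_lit 100, nat_lit 100, nat_lit 66, nat_lit 243964573⟩, ⟨nat_lit 7, nat_lit 100, nat_lit 97, nat_lit 54, nat_lit 86255909⟩]⟩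
noncomputable def p034_l121 : Lf2 := ⟨nat_lit 0, nat_lit 10, [nat_lit 0, nat_lit 5, nat_lit 5, nat_lit 20], false, nat_lit 40, nat_lit 80, nat_lit 160, nat_lit 268, ⟨nat_lit 305, nat_lit 0, nat_lit 695, nat_lit 6, nat_lit 133, nat_lit 695, nat_lit 19, nat_lit 695, nat_lit 3267, nat_lit 229, nat_lit 166667, nat_lit 315, nat_lit 60326691, nat_lit 0, nat_lit 0, nat_lit 1621031, false, false⟩,
 nat_lit 10194, nat_lit 0, nat_lit 0, nat_lit 0, nat_lit 5933, nat_lit 5933, nat_lit 801, nat_lit 0, nat_lit 0, nat_lit 0, nat_lit 0, nat_lit 0, nat_lit 0, nat_lit 0, nat_lit 26, nat_lit 695000, nat_lit 0, nat_lit 0, [(nat_lit 9, [(nat_lit 6, nat_lit 695)])],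
 ⟨p034_k36, nat_lit 0, nat_lit 0, nat_lit 325, nat_lit 0, nat_lit 266321, [nat_lit 2608672000, nat_lit 2128326667, nat_lit 107057333], [], [nat_lit 12932898275, nat_lit 13722125501, nat_lit 15812361697, nat_lit 14375225940, nat_lit 13427809917, nat_lit 11968519744, nat_lit 17274686436, nat_lit 15857624984], nat_lit 1271250, nat_lit 1271250, nat_lit 205650, nat_lit 780000, nat_lit 230001, nat_lit 490000, [nat_lit 1100000, nat_lit 1442500, nat_lit 1271250], [nat_lit 11, nat_lit 40, nat_lit 20, nat_lit 80, nat_lit 1, nat_lit 345, nat_lit 125, nat_lit 10]⟩, ⟨p034_k36, nat_lit 0, nat_lit 0, nat_lit 216, nat_lit 0, nat_lit 266321, [nat_lit 1429840000, nat_lit 1906250000, nat_lit 3001810000], [], [nat_lit 9257259208, nat_lit 7710027736, nat_lit 2982602402, nat_lit 3394982217, nat_lit 7932464099, nat_lit 8258180589, nat_lit 5210644863, nat_lit 5500500352], nat_lit 1271250, nat_lit 1271250, nat_lit 205650, nat_lit 780000, nat_lit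 1100001, nat_lit 2024750, [nat_lit 1100000, nat_lit 1442500, nat_lit 1271250], [nat_lit 11, nat_lit 40, nat_lit 20, nat_lit 80, nat_lit 1, nat_lit 401, nat_lit 175, nat_lit 11]⟩,
 ⟨nat_lit 5700, nat_lit 5917, ⟨.ofNat (nat_lit 242029), .ofNat (nat_lit 406949), .ofNat (nat_lit 252698), .ofNat (nat_lit 417619), .ofNat (nat_lit 249476), .ofNat (nat_lit 410586), .ofNat (nat_lit 260147), .ofNat (nat_lit 421257)⟩, ⟨.negSucc (nat_lit 6188), .ofNat (nat_lit 72344), .ofNat (nat_lit 15150), .ofNat (nat_lit 93684), .ofNat (nat_lit 1045), .ofNat (nat_lit 77764), .ofNat (nat_lit 22387), .ofNat (nat_lit 99106)⟩⟩, [⟨nat_lit 0, nat_lit 100, nat_lit 100, nat_lit 65, nat_lit 220946598⟩, ⟨nat_lit 19, nat_lit 97, nat_lit 100, nat_lit 54, nat_lit 107459606⟩]⟩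
noncomputable def p034_l122 : Lf2 := ⟨nat_lit 0, nat_lit 10, [nat_lit 0, nat_lit 5, nat_lit 5, nat_lit 20], false, nat_lit 0, nat_lit 80, nat_lit 0, nat_lit 160, ⟨nat_lit 696, nat_lit 0, nat_lit 304, nat_lit 6, nat_lit 139, nat_lit 0, nat_lit 18, nat_lit 0, nat_lit 417, nat_lit 220, nat_lit 180267, nat_lit 319, nat_lit 59790565, nat_lit 0, nat_lit 0, nat_lit 1707374, false, false⟩,
 nat_lit 11363, nat_lit 0, nat_lit 0, nat_lit 0, nat_lit 6217, nat_lit 6614, nat_lit 1319, nat_lit 0, nat_lit 0, nat_lit 0, nat_lit 0, nat_lit 0, nat_lit 0, nat_lit 0, nat_lit 0, nat_lit 304000, nat_lit 0, nat_lit 0, [(nat_lit 9, [(nat_lit 6, nat_lit 304)])],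
 ⟨p034_k37, nat_lit 0, nat_lit 0, nat_lit 432, nat_lit 0, nat_lit 347692, [nat_lit 3596518401, nat_lit 4219685334, nat_lit 5221443200], [], [nat_lit 19208339746, nat_lit 19795757173, nat_lit 18192055786, nat_lit 18728132677, nat_lit 16403755356, nat_lit 16957369557, nat_lit 19927545919, nat_lit 18442652771], nat_lit 1271250, nat_lit 1271250, nat_lit 230001, nat_lit 780000, nat_lit 0, nat_lit 490000, [nat_lit 1100000, nat_lit 1442500, nat_lit 1271250], [nat_lit 11, nat_lit 40, nat_lit 20, nat_lit 80, nat_lit 1, nat_lit 345, nat_lit 125, nat_lit 10]⟩, ⟨p034_k36, nat_lit 0, nat_lit 0, nat_lit 439, nat_lit 0, nat_lit 366716, [nat_lit 3262848000, nat_lit 4350000000, nat_lit 6850032000], [], [nat_lit 23348658156, nat_lit 22621205800, nat_lit 19990028172, nat_lit 20762859528, nat_lit 18295285248, nat_lit 18471743016, nat_lit 21909852780, nat_lit 18834990952], nat_lit 1271250, nat_lit 1271250, nat_lit 230001, nat_lit 780000,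 nat_lit 0, nat_lit 1100001, [nat_lit 1100000, nat_lit 1442500, nat_lit 1271250], [nat_lit 11, nat_lit 40, nat_lit 20, nat_lit 80, nat_lit 1, nat_lit 373, nat_lit 150, nat_lit 11]⟩,
 ⟨nat_lit 5477, nat_lit 5701, ⟨.ofNat (nat_lit 257148), .ofNat (nat_lit 410586), .ofNat (nat_lit 278490), .ofNat (nat_lit 431928), .ofNat (nat_lit 264337), .ofNat (nat_lit 414204), .ofNat (nat_lit 285695), .ofNat (nat_lit 435561)⟩, ⟨.negSucc (nat_lit 75673), .ofNat (nat_lit 77764), .negSucc (nat_lit 54331), .ofNat (nat_lit 99106), .negSucc (nat_lit 66879), .ofNat (nat_lit 82986), .negSucc (nat_lit 45522), .ofNat (nat_lit 104343)⟩⟩, [⟨nat_lit 0, nat_lit 100, nat_lit 99, nat_lit 72, nat_lit 252022313⟩]⟩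
noncomputable def p034_l123 : Lf2 := ⟨nat_lit 0, nat_lit 10, [nat_lit 0, nat_lit 5, nat_lit 5, nat_lit 20], false, nat_lit 0, nat_lit 80, nat_lit 160, nat_lit 268, ⟨nat_lit 355, nat_lit 0, nat_lit 645, nat_lit 6, nat_lit 137, nat_lit 0, nat_lit 18, nat_lit 0, nat_lit 267, nat_lit 219, nat_lit 176817, nat_lit 318, nat_lit 59938984, nat_lit 0, nat_lit 0, nat_lit 1683814, false, false⟩,
 nat_lit 8426, nat_lit 0, nat_lit 0, nat_lit 0, nat_lit 5131, nat_lit 4904, nat_lit 552, nat_lit 0, nat_lit 0, nat_lit 0, nat_lit 0, nat_lit 0, nat_lit 0, nat_lit 0, nat_lit 0, nat_lit 645000, nat_lit 0, nat_lit 0, [(nat_lit 9, [(nat_lit 6, nat_lit 645)])],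
 ⟨p034_k37, nat_lit 0, nat_lit 0, nat_lit 368, nat_lit 0, nat_lit 300021, [nat_lit 2372192000, nat_lit 1942260001, nat_lit 120563999], [], [nat_lit 16628105523, nat_lit 16897319575, nat_lit 16223138831, nat_lit 16307244043, nat_lit 14751723355, nat_lit 14795492718, nat_lit 18332661302, nat_lit 17719907020], nat_lit 1271250, nat_lit 1271250, nat_lit 230001, nat_lit 780000, nat_lit 0, nat_lit 490000, [nat_lit 1100000, nat_lit 1442500, nat_lit 1271250], [nat_lit 11, nat_lit 40, nat_lit 20, nat_lit 80, nat_lit 1, nat_lit 345, nat_lit 125, nat_lit 10]⟩, ⟨p034_k36, nat_lit 0, nat_lit 0, nat_lit 232, nat_lit 0, nat_lit 316436, [nat_lit 1664240000, nat_lit 2218750000, nat_lit 3493910000], [], [nat_lit 10161638004, nat_lit 8246216520, nat_lit 5541564016, nat_lit 6100713211, nat_lit 9584111860, nat_lit 10032350695, nat_lit 7685179131, nat_lit 8087943450], nat_lit 1271250, nat_lit 1271250, nat_lit 230001, nat_lit 780000, nat_lit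 1100001, nat_lit 2024750, [nat_lit 1100000, nat_lit 1442500, nat_lit 1271250], [nat_lit 11, nat_lit 40, nat_lit 20, nat_lit 80, nat_lit 1, nat_lit 401, nat_lit 175, nat_lit 11]⟩,
 ⟨nat_lit 5590, nat_lit 5701, ⟨.ofNat (nat_lit 257148), .ofNat (nat_lit 410586), .ofNat (nat_lit 273155), .ofNat (nat_lit 426593), .ofNat (nat_lit 260751), .ofNat (nat_lit 412397), .ofNat (nat_lit 276762), .ofNat (nat_lit 428408)⟩, ⟨.negSucc (nat_lit 75673), .ofNat (nat_lit 77764), .negSucc (nat_lit 54331), .ofNat (nat_lit 99106), .negSucc (nat_lit 71245), .ofNat (nat_lit 80399), .negSucc (nat_lit 49897), .ofNat (nat_lit 101747)⟩⟩, [⟨nat_lit 0, nat_lit 100, nat_lit 99, nat_lit 70, nat_lit 203362264⟩, ⟨nat_lit 7, nat_lit 100, nat_lit 96, nat_lit 54, nat_lit 192579878⟩]⟩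
noncomputable def p034_l124 : Lf2 := ⟨nat_lit 0, nat_lit 10, [nat_lit 0, nat_lit 5, nat_lit 5, nat_lit 20], false, nat_lit 0, nat_lit 80, nat_lit 160, nat_lit 268, ⟨nat_lit 589, nat_lit 0, nat_lit 411, nat_lit 6, nat_lit 141, nat_lit 0, nat_lit 18, nat_lit 0, nat_lit 417, nat_lit 220, nat_lit 187267, nat_lit 321, nat_lit 59599906, nat_lit 0, nat_lit 0, nat_lit 1737264, false, false⟩,
 nat_lit 9467, nat_lit 0, nat_lit 0, nat_lit 0, nat_lit 5894, nat_lit 5510, nat_lit 1337, nat_lit 0, nat_lit 0, nat_lit 0, nat_lit 0, nat_lit 0, nat_lit 0, nat_lit 0, nat_lit 0, nat_lit 411000, nat_lit 0, nat_lit 0, [(nat_lit 9, [(nat_lit 6, nat_lit 411)])],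
 ⟨p034_k38, nat_lit 0, nat_lit 0, nat_lit 426, nat_lit 0, nat_lit 338794, [nat_lit 3212345600, nat_lit 3505068000, nat_lit 3595128800], [], [nat_lit 17103544843, nat_lit 17481611930, nat_lit 16789269415, nat_lit 17137698920, nat_lit 14824528176, nat_lit 15182202026, nat_lit 17481128032, nat_lit 16777254764], nat_lit 1271250, nat_lit 1271250, nat_lit 254650, nat_lit 780000, nat_lit 0, nat_lit 490000, [nat_lit 1100000, nat_lit 1442500, nat_lit 1271250], [nat_lit 11, nat_lit 40, nat_lit 20, nat_lit 80, nat_lit 1, nat_lit 345, nat_lit 125, nat_lit 10]⟩, ⟨p034_k36, nat_lit 0, nat_lit 0, nat_lit 296, nat_lit 0, nat_lit 366716, [nat_lit 2761232000, nat_lit 3681250000, nat_lit 5796938000], [], [nat_lit 16430965388, nat_lit 14983374206, nat_lit 12919734532, nat_lit 13632414044, nat_lit 16587561747, nat_lit 17357729519, nat_lit 15058803381, nat_lit 15587348235], nat_lit 1271250, nat_lit 1271250, nat_lit 254650, nat_lit 780000,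 nat_lit 1100001, nat_lit 2024750, [nat_lit 1100000, nat_lit 1442500, nat_lit 1271250], [nat_lit 11, nat_lit 40, nat_lit 20, nat_lit 80, nat_lit 1, nat_lit 401, nat_lit 175, nat_lit 11]⟩,
 ⟨nat_lit 5477, nat_lit 5591, ⟨.ofNat (nat_lit 268334), .ofNat (nat_lit 412397), .ofNat (nat_lit 289681), .ofNat (nat_lit 433745), .ofNat (nat_lit 271831), .ofNat (nat_lit 414204), .ofNat (nat_lit 293188), .ofNat (nat_lit 435560)⟩, ⟨.negSucc (nat_lit 71245), .ofNat (nat_lit 80399), .negSucc (nat_lit 49897), .ofNat (nat_lit 101747), .negSucc (nat_lit 66879), .ofNat (nat_lit 82986), .negSucc (nat_lit 45522), .ofNat (nat_lit 104343)⟩⟩, [⟨nat_lit 0, nat_lit 100, nat_lit 98, nat_lit 73, nat_lit 393482332⟩, ⟨nat_lit 19, nat_lit 96, nat_lit 100, nat_lit 54, nat_lit 289608061⟩]⟩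
noncomputable def b_VL_600_600_5_26 : St := ⟨true, nat_lit 1, nat_lit 1, nat_lit 1, nat_lit 40, nat_lit 260, nat_lit 280, nat_lit 240, nat_lit 280, nat_lit 24, nat_lit 120, nat_lit 20, nat_lit 40, nat_lit 0, nat_lit 80, nat_lit 0, nat_lit 288, nat_lit 20, nat_lit 40, nat_lit 0, nat_lit 0, nat_lit 0, nat_lit 0⟩
theorem d_VL_600_600_5_26 (h : EB TB.env) : Dead b_VL_600_600_5_26 := chkB_sound0 h (T :=
(.spl (nat_lit 1) (nat_lit 260)
(.spl (nat_lit 2) (nat_lit 80)
(.spl (nat_lit 4) (nat_lit 40)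
(.spl (nat_lit 2) (nat_lit 40)
(.leaf p034_l109)
(.spl (nat_lit 0) (nat_lit 270)
(.leaf p034_l110)
(.spl (nat_lit 0) (nat_lit 275)
(.leaf p034_l111)
(.leaf p034_l112))))
(.spl (nat_lit 2) (nat_lit 40)
(.leaf p034_l113)
(.spl (nat_lit 0) (nat_lit 270)
(.leaf p034_l114)
(.leaf p034_l115))))
(.spl (nat_lit 4) (nat_lit 40)
(.leaf p034_l116)
(.leaf p034_l117)))
(.trZ (nat_lit 0) (nat_lit 100) (nat_lit 100) (nat_lit 60) (nat_lit 36) (.trX (nat_lit 19) (nat_lit 100) (nat_lit 99) (nat_lit 63) (nat_lit 268) (.spl (nat_lit 0) (nat_lit 270)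
(.ord (.spl (nat_lit 5) (nat_lit 160)
(.leaf p034_l118)
(.spl (nat_lit 4) (nat_lit 40)
(.spl (nat_lit 0) (nat_lit 265)
(.ord (.leaf p034_l119))
(.leaf p034_l120))
(.leaf p034_l121))))
(.trZ (nat_lit 0) (nat_lit 100) (nat_lit 98) (nat_lit 64) (nat_lit 40) (.spl (nat_lit 5) (nat_lit 160)
(.leaf p034_l122)
(.spl (nat_lit 0) (nat_lit 275)
(.ord (.leaf p034_l123))
(.trZ (nat_lit 0) (nat_lit 100) (nat_lit 97) (nat_lit 67) (nat_lit 44) (.leaf p034_l124)))))))))) (by decide +kernel)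
noncomputable def p034_l125 : Lf2 := ⟨nat_lit 0, nat_lit 5, [nat_lit 4, nat_lit 5, nat_lit 5, nat_lit 20], false, nat_lit 0, nat_lit 80, nat_lit 0, nat_lit 160, ⟨nat_lit 766, nat_lit 0, nat_lit 234, nat_lit 6, nat_lit 172, nat_lit 0, nat_lit 18, nat_lit 0, nat_lit 150, nat_lit 218, nat_lit 86400, nat_lit 287, nat_lit 56554756, nat_lit 0, nat_lit 0, nat_lit 2164032, false, false⟩,
 nat_lit 9614, nat_lit 0, nat_lit 0, nat_lit 0, nat_lit 5596, nat_lit 5089, nat_lit 1648, nat_lit 0, nat_lit 0, nat_lit 0, nat_lit 0, nat_lit 0, nat_lit 0, nat_lit 0, nat_lit 0, nat_lit 234000, nat_lit 0, nat_lit 0, [(nat_lit 9, [(nat_lit 6, nat_lit 234)])],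
 ⟨p034_k27, nat_lit 0, nat_lit 0, nat_lit 381, nat_lit 0, nat_lit 532436, [nat_lit 3847846400, nat_lit 4614340000, nat_lit 5469519600], [], [nat_lit 26194691256, nat_lit 23615782464, nat_lit 23461893848, nat_lit 23761388816, nat_lit 24163456224, nat_lit 21696520896, nat_lit 25622275416, nat_lit 22967387520], nat_lit 1271250, nat_lit 1271250, nat_lit 780000, nat_lit 936251, nat_lit 0, nat_lit 490000, [nat_lit 1100000, nat_lit 1442500, nat_lit 1271250], [nat_lit 9, nat_lit 40, nat_lit 20, nat_lit 80, nat_lit 2, nat_lit 272, nat_lit 60, nat_lit 9]⟩, ⟨p034_k8, nat_lit 0, nat_lit 0, nat_lit 478, nat_lit 0, nat_lit 593938, [nat_lit 3591008000, nat_lit 4787500000, nat_lit 7538972000], [], [nat_lit 31453338952, nat_lit 28161339992, nat_lit 28752728788, nat_lit 28160330696, nat_lit 24916376340, nat_lit 25881614016, nat_lit 26153594756, nat_lit 25855534876], nat_lit 1271250, nat_lit 1271250, nat_lit 780000, nat_lit 936251, nat_lit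 0, nat_lit 1100001, [nat_lit 1100000, nat_lit 1442500, nat_lit 1271250], [nat_lit 11, nat_lit 40, nat_lit 20, nat_lit 80, nat_lit 1, nat_lit 373, nat_lit 150, nat_lit 11]⟩,
 ⟨nat_lit 5477, nat_lit 5917, ⟨.ofNat (nat_lit 385610), .ofNat (nat_lit 424877), .ofNat (nat_lit 428288), .ofNat (nat_lit 467551), .ofNat (nat_lit 392847), .ofNat (nat_lit 430313), .ofNat (nat_lit 435561), .ofNat (nat_lit 473023)⟩, ⟨.negSucc (nat_lit 84722), .ofNat (nat_lit 72344), .negSucc (nat_lit 63383), .ofNat (nat_lit 93684), .negSucc (nat_lit 66879), .ofNat (nat_lit 82986), .negSucc (nat_lit 45522), .ofNat (nat_lit 104343)⟩⟩, []⟩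
noncomputable def p034_l126 : Lf2 := ⟨nat_lit 0, nat_lit 10, [nat_lit 0, nat_lit 5, nat_lit 5, nat_lit 20], false, nat_lit 0, nat_lit 80, nat_lit 0, nat_lit 160, ⟨nat_lit 1000, nat_lit 0, nat_lit 0, nat_lit 0, nat_lit 0, nat_lit 0, nat_lit 0, nat_lit 0, nat_lit 0, nat_lit 0, nat_lit 0, nat_lit 0, nat_lit 0, nat_lit 0, nat_lit 0, nat_lit 0, false, false⟩,
 nat_lit 10529, nat_lit 0, nat_lit 0, nat_lit 0, nat_lit 6128, nat_lit 5574, nat_lit 547, nat_lit 0, nat_lit 0, nat_lit 519, nat_lit 0, nat_lit 0, nat_lit 0, nat_lit 0, nat_lit 0, nat_lit 0, nat_lit 0, nat_lit 0, [],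
 ⟨p034_k36, nat_lit 0, nat_lit 0, nat_lit 310, nat_lit 0, nat_lit 266321, [nat_lit 4688000000, nat_lit 6250000000, nat_lit 9842000000], [], [nat_lit 31260594258, nat_lit 30784980990, nat_lit 30416201966, nat_lit 30891490166, nat_lit 29112741682, nat_lit 28162692798, nat_lit 30650829938, nat_lit 29197188674], nat_lit 1271250, nat_lit 1271250, nat_lit 780000, nat_lit 936251, nat_lit 0, nat_lit 490000, [nat_lit 1100000, nat_lit 1442500, nat_lit 1271250], [nat_lit 11, nat_lit 40, nat_lit 20, nat_lit 80, nat_lit 1, nat_lit 345, nat_lit 125, nat_lit 10]⟩, ⟨p034_k24, nat_lit 0, nat_lit 0, nat_lit 386, nat_lit 0, nat_lit 298123, [nat_lit 4688000000, nat_lit 6250000000, nat_lit 11872000000], [], [nat_lit 39431896160, nat_lit 36218174005, nat_lit 36473908136, nat_lit 36288596929, nat_lit 33854766040, nat_lit 33847837739, nat_lit 35328489576, nat_lit 33895025341], nat_lit 1271250, nat_lit 1271250, nat_lit 780000, nat_lit 936251,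 nat_lit 0, nat_lit 1100001, [nat_lit 1100000, nat_lit 1442500, nat_lit 1271250], [nat_lit 48, nat_lit 40, nat_lit 20, nat_lit 80, nat_lit 12, nat_lit 373, nat_lit 150, nat_lit 10]⟩,
 zbF0, []⟩
noncomputable def p034_l127 : Lf2 := ⟨nat_lit 0, nat_lit 10, [nat_lit 0, nat_lit 5, nat_lit 5, nat_lit 20], false, nat_lit 0, nat_lit 80, nat_lit 0, nat_lit 160, ⟨nat_lit 1000, nat_lit 0, nat_lit 0, nat_lit 0, nat_lit 0, nat_lit 0, nat_lit 0, nat_lit 0, nat_lit 0, nat_lit 0, nat_lit 0, nat_lit 0, nat_lit 0, nat_lit 0, nat_lit 0, nat_lit 0, false, false⟩,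
 nat_lit 12339, nat_lit 0, nat_lit 0, nat_lit 0, nat_lit 7514, nat_lit 6532, nat_lit 1554, nat_lit 0, nat_lit 0, nat_lit 0, nat_lit 0, nat_lit 0, nat_lit 0, nat_lit 0, nat_lit 0, nat_lit 0, nat_lit 0, nat_lit 0, [],
 ⟨p034_k37, nat_lit 0, nat_lit 0, nat_lit 343, nat_lit 0, nat_lit 347692, [nat_lit 4688000000, nat_lit 6250000000, nat_lit 9842000000], [], [nat_lit 26259294758, nat_lit 24302731812, nat_lit 22375856680, nat_lit 22597531708, nat_lit 21780690700, nat_lit 19986016884, nat_lit 23537551062, nat_lit 21755132580], nat_lit 1271250, nat_lit 1271250, nat_lit 780000, nat_lit 936251, nat_lit 0, nat_lit 490000, [nat_lit 1100000, nat_lit 1442500, nat_lit 1271250], [nat_lit 11, nat_lit 40, nat_lit 20, nat_lit 80, nat_lit 1, nat_lit 345, nat_lit 125, nat_lit 10]⟩, ⟨p034_k24, nat_lit 0, nat_lit 0, nat_lit 487, nat_lit 0, nat_lit 410507, [nat_lit 4688000000, nat_lit 6250000000, nat_lit 11872000000], [], [nat_lit 40891734880,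 nat_lit 37496287008, nat_lit 37425359248, nat_lit 37494489888, nat_lit 32706013264, nat_lit 34171029248, nat_lit 34266761168, nat_lit 34148235648], nat_lit 1271250, nat_lit 1271250, nat_lit 780000, nat_lit 936251, nat_lit 0, nat_lit 1100001, [nat_lit 1100000, nat_lit 1442500, nat_lit 1271250], [nat_lit 48, nat_lit 40, nat_lit 20, nat_lit 80, nat_lit 12, nat_lit 373, nat_lit 150, nat_lit 10]⟩,
 zbF0, []⟩
noncomputable def p034_l128 : Lf2 := ⟨nat_lit 0, nat_lit 10, [nat_lit 0, nat_lit 5, nat_lit 5, nat_lit 20], false, nat_lit 0, nat_lit 80, nat_lit 160, nat_lit 288, ⟨nat_lit 260, nat_lit 0, nat_lit 740, nat_lit 6, nat_lit 168, nat_lit 0, nat_lit 18, nat_lit 0, nat_lit 150, nat_lit 218, nat_lit 228295, nat_lit 332, nat_lit 56990581, nat_lit 0, nat_lit 0, nat_lit 2108283, false, false⟩,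
 nat_lit 9439, nat_lit 0, nat_lit 0, nat_lit 0, nat_lit 5494, nat_lit 4997, nat_lit 937, nat_lit 0, nat_lit 0, nat_lit 373, nat_lit 0, nat_lit 0, nat_lit 0, nat_lit 0, nat_lit 0, nat_lit 296000, nat_lit 0, nat_lit 0, [(nat_lit 9, [(nat_lit 5, nat_lit 740)])],
 ⟨p034_k36, nat_lit 0, nat_lit 0, nat_lit 434, nat_lit 0, nat_lit 475451, [nat_lit 2348416000, nat_lit 1527813334, nat_lit 763088000], [], [nat_lit 21204781902, nat_lit 18343627570, nat_lit 18354659522, nat_lit 16476109569, nat_lit 17857557554, nat_lit 15233139682, nat_lit 19301178542, nat_lit 16694682098], nat_lit 1271250, nat_lit 1271250, nat_lit 780000, nat_lit 936251, nat_lit 0, nat_lit 490000, [nat_lit 1100000, nat_lit 1442500, nat_lit 1271250], [nat_lit 11, nat_lit 40, nat_lit 20, nat_lit 80, nat_lit 1, nat_lit 345, nat_lit 125, nat_lit 10]⟩, ⟨p034_k24, nat_lit 0, nat_lit 0, nat_lit 377, nat_lit 0, nat_lit 532227, [nat_lit 1218880000, nat_lit 1625000000, nat_lit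 3086720000], [], [nat_lit 2541074395, nat_lit 3121836825, nat_lit 2396064023, nat_lit 2953352825, nat_lit 6873007842, nat_lit 5022276707, nat_lit 7769907978, nat_lit 5405231636], nat_lit 1271250, nat_lit 1271250, nat_lit 780000, nat_lit 936251, nat_lit 1100001, nat_lit 2196000, [nat_lit 1100000, nat_lit 1442500, nat_lit 1271250], [nat_lit 48, nat_lit 40, nat_lit 20, nat_lit 80, nat_lit 12, nat_lit 401, nat_lit 175, nat_lit 10]⟩,
 ⟨nat_lit 5477, nat_lit 5917, ⟨.ofNat (nat_lit 385610), .ofNat (nat_lit 424877), .ofNat (nat_lit 406949), .ofNat (nat_lit 446216), .ofNat (nat_lit 392847), .ofNat (nat_lit 430313), .ofNat (nat_lit 414204), .ofNat (nat_lit 451670)⟩, ⟨.negSucc (nat_lit 84722), .ofNat (nat_lit 72344), .negSucc (nat_lit 63383), .ofNat (nat_lit 93684), .negSucc (nat_lit 66879), .ofNat (nat_lit 82986), .negSucc (nat_lit 45522), .ofNat (nat_lit 104343)⟩⟩, [⟨nat_lit 7, nat_lit 99, nat_lit 100, nat_lit 54, nat_lit 241645577⟩]⟩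
noncomputable def p034_l129 : Lf2 := ⟨nat_lit 0, nat_lit 10, [nat_lit 0, nat_lit 5, nat_lit 5, nat_lit 20], false, nat_lit 0, nat_lit 80, nat_lit 160, nat_lit 268, ⟨nat_lit 1000, nat_lit 0, nat_lit 0, nat_lit 0, nat_lit 0, nat_lit 0, nat_lit 0, nat_lit 0, nat_lit 0, nat_lit 0, nat_lit 0, nat_lit 0, nat_lit 0, nat_lit 0, nat_lit 0, nat_lit 0, false, false⟩,
 nat_lit 24312, nat_lit 0, nat_lit 0, nat_lit 0, nat_lit 13672, nat_lit 14151, nat_lit 2091, nat_lit 0, nat_lit 0, nat_lit 2424, nat_lit 0, nat_lit 0, nat_lit 0, nat_lit 29831824375258, nat_lit 0, nat_lit 0, nat_lit 0, nat_lit 0, [],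
 ⟨p034_k36, nat_lit 0, nat_lit 0, nat_lit 470, nat_lit 0, nat_lit 570775, [nat_lit 4688000000, nat_lit 6250000000, nat_lit 9842000000], [], [nat_lit 28292845042, nat_lit 21172768226, nat_lit 21200221602, nat_lit 20855775104, nat_lit 12577546018, nat_lit 11068653677, nat_lit 15239705362, nat_lit 10897676205], nat_lit 1271250, nat_lit 1271250, nat_lit 780000, nat_lit 936251, nat_lit 0, nat_lit 490000, [nat_lit 1100000, nat_lit 1442500, nat_lit 1271250], [nat_lit 11, nat_lit 40, nat_lit 20, nat_lit 80, nat_lit 1, nat_lit 345, nat_lit 125, nat_lit 10]⟩, ⟨p034_k36, nat_lit 0, nat_lit 0, nat_lit 335, nat_lit 0, nat_lit 570775, [nat_lit 4688000000, nat_lit 6250000000, nat_lit 9842000000], [], [nat_lit 5648937934, nat_lit 7786384196, nat_lit 5479434712, nat_lit 7925727284, nat_lit 16635904511, nat_lit 18413824552, nat_lit 19340420603, nat_lit 18158532477], nat_lit 1271250, nat_lit 1271250, nat_lit 780000, nat_lit 936251, nat_lit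 1100001, nat_lit 2024750, [nat_lit 1100000, nat_lit 1442500, nat_lit 1271250], [nat_lit 11, nat_lit 40, nat_lit 20, nat_lit 80, nat_lit 1, nat_lit 401, nat_lit 175, nat_lit 11]⟩,
 zbF0, [⟨nat_lit 7, nat_lit 100, nat_lit 96, nat_lit 54, nat_lit 1357741984⟩]⟩
noncomputable def p034_l130 : Lf2 := ⟨nat_lit 0, nat_lit 10, [nat_lit 0, nat_lit 5, nat_lit 5, nat_lit 20], false, nat_lit 0, nat_lit 80, nat_lit 0, nat_lit 160, ⟨nat_lit 1000, nat_lit 0, nat_lit 0, nat_lit 0, nat_lit 0, nat_lit 0, nat_lit 0, nat_lit 0, nat_lit 0, nat_lit 0, nat_lit 0, nat_lit 0, nat_lit 0, nat_lit 0, nat_lit 0, nat_lit 0, false, false⟩,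
 nat_lit 13282, nat_lit 4442, nat_lit 0, nat_lit 0, nat_lit 10316, nat_lit 7031, nat_lit 2096, nat_lit 0, nat_lit 0, nat_lit 908, nat_lit 0, nat_lit 0, nat_lit 0, nat_lit 0, nat_lit 0, nat_lit 0, nat_lit 0, nat_lit 0, [],
 ⟨p034_k40, nat_lit 0, nat_lit 0, nat_lit 469, nat_lit 0, nat_lit 570775, [nat_lit 4688000000, nat_lit 7968000001, nat_lit 9842000000], [], [nat_lit 23284645857, nat_lit 20147921474, nat_lit 21186181305, nat_lit 20277394434, nat_lit 21118658137, nat_lit 16224479521, nat_lit 23652284265, nat_lit 18791323169], nat_lit 1271250, nat_lit 1271250, nat_lit 936251, nat_lit 1100001, nat_lit 0, nat_lit 490000, [nat_lit 1100000, nat_lit 1785000, nat_lit 1271250], [nat_lit 29, nat_lit 40, nat_lit 20, nat_lit 80, nat_lit 17, nat_lit 373, nat_lit 150, nat_lit 11]⟩, ⟨p034_k41, nat_lit 0, nat_lit 0, nat_lit 569, nat_lit 0, nat_lit 638933, [nat_lit 4688000000, nat_lit 7968000000, nat_lit 11872000000], [], [nat_lit 43851322304,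 nat_lit 38289633296, nat_lit 40090131040, nat_lit 38237274500, nat_lit 33447572916, nat_lit 34312875628, nat_lit 33404446996, nat_lit 34232985956], nat_lit 1271250, nat_lit 1271250, nat_lit 936251, nat_lit 1100001, nat_lit 0, nat_lit 1100001, [nat_lit 1100000, nat_lit 1785000, nat_lit 1271250], [nat_lit 21, nat_lit 40, nat_lit 20, nat_lit 80, nat_lit 14, nat_lit 373, nat_lit 150, nat_lit 10]⟩,
 zbF0, []⟩
noncomputable def p034_l131 : Lf2 := ⟨nat_lit 0, nat_lit 10, [nat_lit 0, nat_lit 5, nat_lit 5, nat_lit 20], false, nat_lit 0, nat_lit 80, nat_lit 160, nat_lit 288, ⟨nat_lit 1000, nat_lit 0, nat_lit 0, nat_lit 0, nat_lit 0, nat_lit 0, nat_lit 0, nat_lit 0, nat_lit 0, nat_lit 0, nat_lit 0, nat_lit 0, nat_lit 0, nat_lit 0, nat_lit 0, nat_lit 0, false, false⟩,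
 nat_lit 19823, nat_lit 0, nat_lit 0, nat_lit 0, nat_lit 11538, nat_lit 10494, nat_lit 2351, nat_lit 0, nat_lit 0, nat_lit 1091, nat_lit 0, nat_lit 0, nat_lit 0, nat_lit 0, nat_lit 0, nat_lit 0, nat_lit 0, nat_lit 0, [],
 ⟨p034_k40, nat_lit 0, nat_lit 0, nat_lit 469, nat_lit 0, nat_lit 570775, [nat_lit 4688000000, nat_lit 7968000001, nat_lit 9842000000], [], [nat_lit 22163465009, nat_lit 19274839616, nat_lit 18845906373, nat_lit 19802362256, nat_lit 18615798549, nat_lit 13141871361, nat_lit 21371960653, nat_lit 15935185825], nat_lit 1271250, nat_lit 1271250, nat_lit 936251, nat_lit 1100001, nat_lit 0, nat_lit 490000, [nat_lit 1100000, nat_lit 1785000, nat_lit 1271250], [nat_lit 29, nat_lit 40, nat_lit 20, nat_lit 80, nat_lit 17, nat_lit 373, nat_lit 150, nat_lit 11]⟩, ⟨p034_k41, nat_lit 0, nat_lit 0, nat_lit 423, nat_lit 0, nat_lit 638933, [nat_lit 4688000000, nat_lit 7968000000, nat_lit 11872000000], [], [nat_lit 30242009376,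 nat_lit 21409441828, nat_lit 32633220688, nat_lit 22467514984, nat_lit 23002445336, nat_lit 24231487521, nat_lit 22752274395, nat_lit 24064379856], nat_lit 1271250, nat_lit 1271250, nat_lit 936251, nat_lit 1100001, nat_lit 1271250, nat_lit 1271250, [nat_lit 1100000, nat_lit 1785000, nat_lit 1271250], [nat_lit 21, nat_lit 40, nat_lit 20, nat_lit 80, nat_lit 14, nat_lit 428, nat_lit 200, nat_lit 11]⟩,
 zbF0, [⟨nat_lit 7, nat_lit 100, nat_lit 98, nat_lit 54, nat_lit 231530336⟩]⟩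
noncomputable def b_VL_600_600_5_27 : St := ⟨true, nat_lit 1, nat_lit 1, nat_lit 1, nat_lit 40, nat_lit 260, nat_lit 280, nat_lit 240, nat_lit 280, nat_lit 120, nat_lit 160, nat_lit 20, nat_lit 40, nat_lit 0, nat_lit 80, nat_lit 0, nat_lit 288, nat_lit 0, nat_lit 40, nat_lit 0, nat_lit 0, nat_lit 0, nat_lit 0⟩
theorem d_VL_600_600_5_27 (h : EB TB.env) : Dead b_VL_600_600_5_27 := chkB_sound0 h (T :=
(.spl (nat_lit 2) (nat_lit 140)
(.spl (nat_lit 5) (nat_lit 160)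
(.spl (nat_lit 6) (nat_lit 20)
(.leaf p034_l125)
(.spl (nat_lit 0) (nat_lit 270)
(.ord (.leaf p034_l126))
(.leaf p034_l127)))
(.spl (nat_lit 1) (nat_lit 260)
(.leaf p034_l128)
(.trX (nat_lit 19) (nat_lit 100) (nat_lit 99) (nat_lit 63) (nat_lit 268) (.leaf p034_l129))))
(.spl (nat_lit 5) (nat_lit 160)
(.leaf p034_l130)
(.leaf p034_l131)))) (by decide +kernel)

end B2
end Pool.Agent.Lib.MP_6947cd_al
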