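import Pool.Agent.Lib.MP_6947cd_al.ZB.Pre

/-!
Problem MP_6947cd_al (Chollet).  Case B, second entry in [2/5, 17/20]: certificates of the tree, part P035 (generated).
-/

set_option autoImplicit false
set_option linter.all false

namespace Pool.Agent.Lib.MP_6947cd_al
namespace B2

open Ent Fr B1 PkA

noncomputable def p035_k0 : C1.Kn := ⟨[nat_lit 80, nat_lit 100, nat_lit 140], [nat_lit 0, nat_lit 0, nat_lit 1022], [(nat_lit 0, nat_lit 0, nat_lit 0), (nat_lit 0, nat_lit 0, nat_lit 0), (nat_lit 1000, nat_lit 1000, nat_lit 399)], (nat_lit 100, nat_lit 99, nat_lit 44)⟩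
noncomputable def p035_k1 : C1.Kn := ⟨[nat_lit 80, nat_lit 100, nat_lit 140], [nat_lit 0, nat_lit 65, nat_lit 1086], [(nat_lit 0, nat_lit 0, nat_lit 0), (nat_lit 1000, nat_lit 990, nat_lit 51), (nat_lit 1000, nat_lit 990, nat_lit 399)], (nat_lit 100, nat_lit 100, nat_lit 45)⟩
noncomputable def p035_k2 : C1.Kn := ⟨[nat_lit 80, nat_lit 100, nat_lit 120], [nat_lit 0, nat_lit 132, nat_lit 640], [(nat_lit 0, nat_lit 0, nat_lit 0), (nat_lit 1000, nat_lit 979, nat_lit 103), (nat_lit 1000, nat_lit 979, nat_lit 397)], (nat_lit 99, nat_lit 100, nat_lit 44)⟩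
noncomputable def p035_k3 : C1.Kn := ⟨[nat_lit 80, nat_lit 120], [nat_lit 0, nat_lit 395], [(nat_lit 0, nat_lit 0, nat_lit 0), (nat_lit 1000, nat_lit 969, nat_lit 154)], (nat_lit 96, nat_lit 100, nat_lit 28)⟩
noncomputable def p035_k4 : C1.Kn := ⟨[nat_lit 80, nat_lit 100, nat_lit 120], [nat_lit 0, nat_lit 198, nat_lit 704], [(nat_lit 0, nat_lit 0, nat_lit 0), (nat_lit 1000, nat_lit 969, nat_lit 154), (nat_lit 1000, nat_lit 969, nat_lit 395)], (nat_lit 98, nat_lit 100, nat_lit 44)⟩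
noncomputable def p035_k5 : C1.Kn := ⟨[nat_lit 80, nat_lit 100, nat_lit 120], [nat_lit 0, nat_lit 0, nat_lit 511], [(nat_lit 0, nat_lit 0, nat_lit 0), (nat_lit 0, nat_lit 0, nat_lit 0), (nat_lit 1000, nat_lit 997, nat_lit 383)], (nat_lit 98, nat_lit 100, nat_lit 28)⟩
noncomputable def p035_k6 : C1.Kn := ⟨[nat_lit 80, nat_lit 100, nat_lit 120], [nat_lit 0, nat_lit 65, nat_lit 576], [(nat_lit 0, nat_lit 0, nat_lit 0), (nat_lit 1000, nat_lit 990, nat_lit 51), (nat_lit 1000, nat_lit 990, nat_lit 399)], (nat_lit 98, nat_lit 100, nat_lit 28)⟩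
noncomputable def p035_k7 : C1.Kn := ⟨[nat_lit 80, nat_lit 120], [nat_lit 0, nat_lit 264], [(nat_lit 0, nat_lit 0, nat_lit 0), (nat_lit 1000, nat_lit 979, nat_lit 103)], (nat_lit 97, nat_lit 100, nat_lit 28)⟩
noncomputable def p035_k8 : C1.Kn := ⟨[nat_lit 80, nat_lit 120], [nat_lit 0, nat_lit 0], [(nat_lit 0, nat_lit 0, nat_lit 0), (nat_lit 0, nat_lit 0, nat_lit 0)], (nat_lit 98, nat_lit 100, nat_lit 28)⟩
noncomputable def p035_k9 : C1.Kn := ⟨[nat_lit 80, nat_lit 100, nat_lit 120], [nat_lit 0, nat_lit 132, nat_lit 640], [(nat_lit 0, nat_lit 0, nat_lit 0), (nat_lit 1000, nat_lit 979, nat_lit 103), (nat_lit 1000, nat_lit 979, nat_lit 397)], (nat_lit 97, nat_lit 100, nat_lit 28)⟩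
noncomputable def p035_k10 : C1.Kn := ⟨[nat_lit 80, nat_lit 100, nat_lit 120], [nat_lit 0, nat_lit 198, nat_lit 704], [(nat_lit 0, nat_lit 0, nat_lit 0), (nat_lit 1000, nat_lit 969, nat_lit 154), (nat_lit 1000, nat_lit 969, nat_lit 395)], (nat_lit 96, nat_lit 100, nat_lit 28)⟩
noncomputable def p035_k11 : C1.Kn := ⟨[nat_lit 80, nat_lit 100, nat_lit 160], [nat_lit 0, nat_lit 0, nat_lit 1533], [(nat_lit 0, nat_lit 0, nat_lit 0), (nat_lit 0, nat_lit 0, nat_lit 0), (nat_lit 1000, nat_lit 1000, nat_lit 399)], (nat_lit 100, nat_lit 92, nat_lit 61)⟩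
noncomputable def p035_k12 : C1.Kn := ⟨[nat_lit 80, nat_lit 100, nat_lit 140], [nat_lit 0, nat_lit 132, nat_lit 1148], [(nat_lit 0, nat_lit 0, nat_lit 0), (nat_lit 1000, nat_lit 979, nat_lit 103), (nat_lit 1000, nat_lit 979, nat_lit 397)], (nat_lit 100, nat_lit 95, nat_lit 62)⟩
noncomputable def p035_k13 : C1.Kn := ⟨[nat_lit 80, nat_lit 100], [nat_lit 0, nat_lit 265], [(nat_lit 0, nat_lit 0, nat_lit 0), (nat_lit 1000, nat_lit 959, nat_lit 206)], (nat_lit 95, nat_lit 100, nat_lit 28)⟩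
noncomputable def p035_k14 : C1.Kn := ⟨[nat_lit 80, nat_lit 100, nat_lit 120], [nat_lit 0, nat_lit 265, nat_lit 768], [(nat_lit 0, nat_lit 0, nat_lit 0), (nat_lit 1000, nat_lit 959, nat_lit 206), (nat_lit 1000, nat_lit 958, nat_lit 392)], (nat_lit 96, nat_lit 100, nat_lit 44)⟩
noncomputable def p035_k15 : C1.Kn := ⟨[nat_lit 80, nat_lit 100, nat_lit 120], [nat_lit 0, nat_lit 332, nat_lit 833], [(nat_lit 0, nat_lit 0, nat_lit 0), (nat_lit 1000, nat_lit 948, nat_lit 259), (nat_lit 1000, nat_lit 948, nat_lit 391)], (nat_lit 95, nat_lit 100, nat_lit 44)⟩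
noncomputable def p035_k16 : C1.Kn := ⟨[nat_lit 80, nat_lit 100], [nat_lit 0, nat_lit 399], [(nat_lit 0, nat_lit 0, nat_lit 0), (nat_lit 1000, nat_lit 938, nat_lit 310)], (nat_lit 94, nat_lit 100, nat_lit 28)⟩
noncomputable def p035_k17 : C1.Kn := ⟨[nat_lit 80, nat_lit 100, nat_lit 120], [nat_lit 0, nat_lit 399, nat_lit 897], [(nat_lit 0, nat_lit 0, nat_lit 0), (nat_lit 1000, nat_lit 938, nat_lit 310), (nat_lit 1000, nat_lit 938, nat_lit 389)], (nat_lit 94, nat_lit 100, nat_lit 44)⟩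
noncomputable def p035_k18 : C1.Kn := ⟨[nat_lit 80, nat_lit 100, nat_lit 120], [nat_lit 0, nat_lit 466, nat_lit 966], [(nat_lit 0, nat_lit 0, nat_lit 0), (nat_lit 1000, nat_lit 927, nat_lit 359), (nat_lit 1000, nat_lit 927, nat_lit 391)], (nat_lit 93, nat_lit 100, nat_lit 44)⟩
noncomputable def p035_k19 : C1.Kn := ⟨[nat_lit 80, nat_lit 100, nat_lit 140], [nat_lit 0, nat_lit 265, nat_lit 1269], [(nat_lit 0, nat_lit 0, nat_lit 0), (nat_lit 1000, nat_lit 959, nat_lit 206), (nat_lit 1000, nat_lit 958, nat_lit 392)], (nat_lit 100, nat_lit 99, nat_lit 63)⟩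
noncomputable def p035_k20 : C1.Kn := ⟨[nat_lit 80, nat_lit 100, nat_lit 140], [nat_lit 0, nat_lit 399, nat_lit 1395], [(nat_lit 0, nat_lit 0, nat_lit 0), (nat_lit 1000, nat_lit 938, nat_lit 310), (nat_lit 1000, nat_lit 938, nat_lit 389)], (nat_lit 96, nat_lit 100, nat_lit 56)⟩
noncomputable def p035_k21 : C1.Kn := ⟨[nat_lit 80, nat_lit 100, nat_lit 140], [nat_lit 0, nat_lit 265, nat_lit 1269], [(nat_lit 0, nat_lit 0, nat_lit 0), (nat_lit 1000, nat_lit 959, nat_lit 206), (nat_lit 1000, nat_lit 958, nat_lit 392)], (nat_lit 99, nat_lit 100, nat_lit 56)⟩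
noncomputable def p035_k22 : C1.Kn := ⟨[nat_lit 80, nat_lit 100, nat_lit 140], [nat_lit 0, nat_lit 0, nat_lit 1022], [(nat_lit 0, nat_lit 0, nat_lit 0), (nat_lit 0, nat_lit 0, nat_lit 0), (nat_lit 1000, nat_lit 1000, nat_lit 399)], (nat_lit 100, nat_lit 95, nat_lit 55)⟩
noncomputable def p035_k23 : C1.Kn := ⟨[nat_lit 80, nat_lit 100, nat_lit 140], [nat_lit 0, nat_lit 399, nat_lit 1395], [(nat_lit 0, nat_lit 0, nat_lit 0), (nat_lit 1000, nat_lit 938, nat_lit 310), (nat_lit 1000, nat_lit 938, nat_lit 389)], (nat_lit 98, nat_lit 100, nat_lit 63)⟩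
noncomputable def p035_k24 : C1.Kn := ⟨[nat_lit 80, nat_lit 100, nat_lit 120], [nat_lit 0, nat_lit 106, nat_lit 614], [(nat_lit 0, nat_lit 0, nat_lit 0), (nat_lit 1000, nat_lit 983, nat_lit 83), (nat_lit 1000, nat_lit 983, nat_lit 397)], (nat_lit 97, nat_lit 100, nat_lit 28)⟩
noncomputable def p035_k25 : C1.Kn := ⟨[nat_lit 80, nat_lit 100], [nat_lit 0, nat_lit 0], [(nat_lit 0, nat_lit 0, nat_lit 0), (nat_lit 0, nat_lit 0, nat_lit 0)], (nat_lit 98, nat_lit 100, nat_lit 20)⟩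
noncomputable def p035_k26 : C1.Kn := ⟨[nat_lit 80, nat_lit 100], [nat_lit 0, nat_lit 65], [(nat_lit 0, nat_lit 0, nat_lit 0), (nat_lit 1000, nat_lit 990, nat_lit 51)], (nat_lit 97, nat_lit 100, nat_lit 20)⟩
noncomputable def p035_k27 : C1.Kn := ⟨[nat_lit 80, nat_lit 100], [nat_lit 0, nat_lit 106], [(nat_lit 0, nat_lit 0, nat_lit 0), (nat_lit 1000, nat_lit 983, nat_lit 83)], (nat_lit 97, nat_lit 100, nat_lit 20)⟩
noncomputable def p035_k28 : C1.Kn := ⟨[nat_lit 80, nat_lit 100], [nat_lit 0, nat_lit 119], [(nat_lit 0, nat_lit 0, nat_lit 0), (nat_lit 1000, nat_lit 981, nat_lit 93)], (nat_lit 97, nat_lit 100, nat_lit 20)⟩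
noncomputable def p035_k29 : C1.Kn := ⟨[nat_lit 80, nat_lit 100, nat_lit 120], [nat_lit 0, nat_lit 65, nat_lit 576], [(nat_lit 0, nat_lit 0, nat_lit 0), (nat_lit 1000, nat_lit 990, nat_lit 51), (nat_lit 1000, nat_lit 990, nat_lit 399)], (nat_lit 99, nat_lit 100, nat_lit 40)⟩
noncomputable def p035_k30 : C1.Kn := ⟨[nat_lit 80, nat_lit 100], [nat_lit 0, nat_lit 132], [(nat_lit 0, nat_lit 0, nat_lit 0), (nat_lit 1000, nat_lit 979, nat_lit 103)], (nat_lit 97, nat_lit 100, nat_lit 20)⟩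
noncomputable def p035_l0 : Lf2 := ⟨nat_lit 0, nat_lit 5, [nat_lit 4, nat_lit 5, nat_lit 5, nat_lit 20], true, nat_lit 80, nat_lit 120, nat_lit 0, nat_lit 288, ⟨nat_lit 0, nat_lit 0, nat_lit 1000, nat_lit 6, nat_lit 94, nat_lit 1000, nat_lit 46, nat_lit 1000, nat_lit 19267, nat_lit 249, nat_lit 81667, nat_lit 285, nat_lit 62015276, nat_lit 0, nat_lit 0, nat_lit 1601998, false, false⟩,
 nat_lit 0, nat_lit 9543, nat_lit 0, nat_lit 0, nat_lit 5052, nat_lit 0, nat_lit 480, nat_lit 0, nat_lit 0, nat_lit 0, nat_lit 0, nat_lit 0, nat_lit 0, nat_lit 4538712580904, nat_lit 147, nat_lit 1000000, nat_lit 0, nat_lit 0, [(nat_lit 6, [(nat_lit 6, nat_lit 1000)])],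
 ⟨p035_k0, nat_lit 0, nat_lit 0, nat_lit 289, nat_lit 0, nat_lit 234598, [nat_lit 3329066667, nat_lit 3042400001, nat_lit 177599999], [], [nat_lit 8991209251, nat_lit 9348663265, nat_lit 7624796428, nat_lit 7977828594, nat_lit 9403078941, nat_lit 9755579771, nat_lit 8620190124, nat_lit 8648801895], nat_lit 1271250, nat_lit 1271250, nat_lit 88400, nat_lit 490000, nat_lit 490000, nat_lit 780000, [nat_lit 1100000, nat_lit 1442500, nat_lit 1271250], [nat_lit 11, nat_lit 40, nat_lit 20, nat_lit 80, nat_lit 1, nat_lit 345, nat_lit 125, nat_lit 10]⟩, C1.Rw.none,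
 ⟨nat_lit 6224, nat_lit 6325, ⟨.ofNat (nat_lit 164319), .ofNat (nat_lit 295942), .ofNat (nat_lit 169661), .ofNat (nat_lit 301284), .ofNat (nat_lit 168651), .ofNat (nat_lit 298759), .ofNat (nat_lit 173990), .ofNat (nat_lit 304098)⟩, ⟨.ofNat (nat_lit 60895), .ofNat (nat_lit 143159), .ofNat (nat_lit 82263), .ofNat (nat_lit 164527), .ofNat (nat_lit 63835), .ofNat (nat_lit 145153), .ofNat (nat_lit 85192), .ofNat (nat_lit 166510)⟩⟩, [⟨nat_lit 0, nat_lit 100, nat_lit 100, nat_lit 45, nat_lit 201533472⟩]⟩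
noncomputable def p035_l1 : Lf2 := ⟨nat_lit 0, nat_lit 5, [nat_lit 4, nat_lit 5, nat_lit 5, nat_lit 20], true, nat_lit 80, nat_lit 120, nat_lit 0, nat_lit 288, ⟨nat_lit 0, nat_lit 0, nat_lit 1000, nat_lit 6, nat_lit 96, nat_lit 1000, nat_lit 47, nat_lit 1000, nat_lit 20417, nat_lit 250, nat_lit 86400, nat_lit 287, nat_lit 61782455, nat_lit 0, nat_lit 0, nat_lit 1657396, false, false⟩,
 nat_lit 0, nat_lit 9155, nat_lit 0, nat_lit 0, nat_lit 4965, nat_lit 0, nat_lit 942, nat_lit 0, nat_lit 0, nat_lit 0, nat_lit 0, nat_lit 0, nat_lit 0, nat_lit 0, nat_lit 147, nat_lit 1000000, nat_lit 0, nat_lit 0, [(nat_lit 6, [(nat_lit 6, nat_lit 1000)])],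
 ⟨p035_k1, nat_lit 0, nat_lit 0, nat_lit 307, nat_lit 0, nat_lit 276659, [nat_lit 3329066667, nat_lit 3042400001, nat_lit 177599999], [], [nat_lit 9044090371, nat_lit 9482551761, nat_lit 7969993901, nat_lit 8319822683, nat_lit 9712991461, nat_lit 10062314064, nat_lit 8646156165, nat_lit 8976443201], nat_lit 1271250, nat_lit 1271250, nat_lit 88400, nat_lit 490000, nat_lit 490000, nat_lit 780000, [nat_lit 1100000, nat_lit 1442500, nat_lit 1271250], [nat_lit 11, nat_lit 40, nat_lit 20, nat_lit 80, nat_lit 1, nat_lit 345, nat_lit 125, nat_lit 10]⟩, C1.Rw.none,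
 ⟨nat_lit 6123, nat_lit 6225, ⟨.ofNat (nat_lit 168651), .ofNat (nat_lit 298759), .ofNat (nat_lit 179329), .ofNat (nat_lit 309437), .ofNat (nat_lit 172944), .ofNat (nat_lit 301553), .ofNat (nat_lit 183618), .ofNat (nat_lit 312227)⟩, ⟨.ofNat (nat_lit 63835), .ofNat (nat_lit 145153), .ofNat (nat_lit 85192), .ofNat (nat_lit 166510), .ofNat (nat_lit 66723), .ofNat (nat_lit 147104), .ofNat (nat_lit 88071), .ofNat (nat_lit 168452)⟩⟩, [⟨nat_lit 0, nat_lit 100, nat_lit 100, nat_lit 50, nat_lit 198739133⟩]⟩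
noncomputable def p035_l2 : Lf2 := ⟨nat_lit 0, nat_lit 5, [nat_lit 4, nat_lit 5, nat_lit 5, nat_lit 20], true, nat_lit 80, nat_lit 120, nat_lit 0, nat_lit 288, ⟨nat_lit 0, nat_lit 0, nat_lit 1000, nat_lit 6, nat_lit 100, nat_lit 1000, nat_lit 48, nat_lit 1000, nat_lit 21600, nat_lit 251, nat_lit 93750, nat_lit 290, nat_lit 61426194, nat_lit 0, nat_lit 0, nat_lit 1738062, false, false⟩,
 nat_lit 0, nat_lit 8491, nat_lit 0, nat_lit 0, nat_lit 4717, nat_lit 0, nat_lit 786, nat_lit 0, nat_lit 0, nat_lit 0, nat_lit 0, nat_lit 0, nat_lit 0, nat_lit 0, nat_lit 80, nat_lit 1000000, nat_lit 0, nat_lit 0, [(nat_lit 6, [(nat_lit 6, nat_lit 1000)])],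
 ⟨p035_k2, nat_lit 0, nat_lit 0, nat_lit 245, nat_lit 0, nat_lit 317006, [nat_lit 2257066667, nat_lit 1408000000, nat_lit 211200000], [], [nat_lit 9184834934, nat_lit 9601343564, nat_lit 8406516224, nat_lit 8747213523, nat_lit 9854122421, nat_lit 10193895619, nat_lit 9078661666, nat_lit 9400550616], nat_lit 1271250, nat_lit 1271250, nat_lit 111251, nat_lit 490000, nat_lit 490000, nat_lit 780000, [nat_lit 1100000, nat_lit 1442500, nat_lit 1271250], [nat_lit 9, nat_lit 40, nat_lit 20, nat_lit 80, nat_lit 2, nat_lit 260, nat_lit 50, nat_lit 9]⟩, C1.Rw.none,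
 ⟨nat_lit 6020, nat_lit 6124, ⟨.ofNat (nat_lit 180982), .ofNat (nat_lit 301553), .ofNat (nat_lit 196993), .ofNat (nat_lit 317564), .ofNat (nat_lit 185145), .ofNat (nat_lit 304325), .ofNat (nat_lit 201152), .ofNat (nat_lit 320331)⟩, ⟨.ofNat (nat_lit 66723), .ofNat (nat_lit 147104), .ofNat (nat_lit 88071), .ofNat (nat_lit 168452), .ofNat (nat_lit 69559), .ofNat (nat_lit 149012), .ofNat (nat_lit 90902), .ofNat (nat_lit 170355)⟩⟩, [⟨nat_lit 0, nat_lit 100, nat_lit 100, nat_lit 55, nat_lit 179217264⟩]⟩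
noncomputable def p035_l3 : Lf2 := ⟨nat_lit 0, nat_lit 2, [nat_lit 10, nat_lit 5, nat_lit 5, nat_lit 20], true, nat_lit 80, nat_lit 120, nat_lit 0, nat_lit 288, ⟨nat_lit 0, nat_lit 0, nat_lit 1000, nat_lit 6, nat_lit 103, nat_lit 1000, nat_lit 48, nat_lit 1000, nat_lit 21600, nat_lit 251, nat_lit 98817, nat_lit 292, nat_lit 61189179, nat_lit 0, nat_lit 0, nat_lit 1792121, false, false⟩,
 nat_lit 0, nat_lit 8839, nat_lit 0, nat_lit 0, nat_lit 5027, nat_lit 0, nat_lit 1074, nat_lit 0, nat_lit 0, nat_lit 0, nat_lit 0, nat_lit 0, nat_lit 0, nat_lit 23871698628412, nat_lit 41, nat_lit 400000, nat_lit 0, nat_lit 0, [(nat_lit 6, [(nat_lit 5, nat_lit 1000)])],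
 ⟨p035_k3, nat_lit 0, nat_lit 0, nat_lit 254, nat_lit 0, nat_lit 340012, [nat_lit 2073600001, nat_lit 7600000], [], [nat_lit 9913505003, nat_lit 10288386794, nat_lit 8884014775, nat_lit 9204757547, nat_lit 10418279465, nat_lit 10775982443, nat_lit 9538971705, nat_lit 9898717925], nat_lit 1271250, nat_lit 1271250, nat_lit 111251, nat_lit 490000, nat_lit 490000, nat_lit 780000, [nat_lit 1100000, nat_lit 1785000], [nat_lit 39, nat_lit 40, nat_lit 20, nat_lit 80, nat_lit 7, nat_lit 260, nat_lit 50, nat_lit 9]⟩, C1.Rw.none,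
 ⟨nat_lit 5916, nat_lit 6021, ⟨.ofNat (nat_lit 185145), .ofNat (nat_lit 304325), .ofNat (nat_lit 206488), .ofNat (nat_lit 325667), .ofNat (nat_lit 189276), .ofNat (nat_lit 307076), .ofNat (nat_lit 210615), .ofNat (nat_lit 328416)⟩, ⟨.ofNat (nat_lit 69559), .ofNat (nat_lit 149012), .ofNat (nat_lit 90902), .ofNat (nat_lit 170355), .ofNat (nat_lit 72344), .ofNat (nat_lit 150878), .ofNat (nat_lit 93684), .ofNat (nat_lit 172217)⟩⟩, [⟨nat_lit 0, nat_lit 100, nat_lit 100, nat_lit 60, nat_lit 185389116⟩]⟩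
noncomputable def p035_l4 : Lf2 := ⟨nat_lit 0, nat_lit 5, [nat_lit 4, nat_lit 5, nat_lit 5, nat_lit 20], true, nat_lit 80, nat_lit 120, nat_lit 0, nat_lit 288, ⟨nat_lit 0, nat_lit 0, nat_lit 1000, nat_lit 6, nat_lit 103, nat_lit 1000, nat_lit 48, nat_lit 1000, nat_lit 21600, nat_lit 251, nat_lit 98817, nat_lit 292, nat_lit 61189179, nat_lit 0, nat_lit 0, nat_lit 1792121, false, false⟩,
 nat_lit 0, nat_lit 8211, nat_lit 0, nat_lit 0, nat_lit 4669, nat_lit 0, nat_lit 394, nat_lit 0, nat_lit 0, nat_lit 0, nat_lit 0, nat_lit 0, nat_lit 0, nat_lit 23598727878390, nat_lit 80, nat_lit 1000000, nat_lit 0, nat_lit 0, [(nat_lit 6, [(nat_lit 6, nat_lit 1000)])],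
 ⟨p035_k4, nat_lit 0, nat_lit 0, nat_lit 233, nat_lit 0, nat_lit 268458, [nat_lit 2257066667, nat_lit 1408000000, nat_lit 211200000], [], [nat_lit 9784993724, nat_lit 10169965368, nat_lit 8925362631, nat_lit 9264292545, nat_lit 10355433139, nat_lit 10693455260, nat_lit 9581846496, nat_lit 9902110010], nat_lit 1271250, nat_lit 1271250, nat_lit 111251, nat_lit 490000, nat_lit 490000, nat_lit 780000, [nat_lit 1100000, nat_lit 1442500, nat_lit 1271250], [nat_lit 9, nat_lit 40, nat_lit 20, nat_lit 80, nat_lit 2, nat_lit 260, nat_lit 50, nat_lit 9]⟩, C1.Rw.none,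
 ⟨nat_lit 5916, nat_lit 6021, ⟨.ofNat (nat_lit 185145), .ofNat (nat_lit 304325), .ofNat (nat_lit 206488), .ofNat (nat_lit 325667), .ofNat (nat_lit 189276), .ofNat (nat_lit 307076), .ofNat (nat_lit 210615), .ofNat (nat_lit 328416)⟩, ⟨.ofNat (nat_lit 69559), .ofNat (nat_lit 149012), .ofNat (nat_lit 90902), .ofNat (nat_lit 170355), .ofNat (nat_lit 72344), .ofNat (nat_lit 150878), .ofNat (nat_lit 93684), .ofNat (nat_lit 172217)⟩⟩, [⟨nat_lit 0, nat_lit 100, nat_lit 100, nat_lit 60, nat_lit 178245022⟩]⟩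
noncomputable def p035_l5 : Lf2 := ⟨nat_lit 0, nat_lit 2, [nat_lit 10, nat_lit 5, nat_lit 5, nat_lit 20], true, nat_lit 120, nat_lit 160, nat_lit 0, nat_lit 288, ⟨nat_lit 0, nat_lit 0, nat_lit 1000, nat_lit 6, nat_lit 95, nat_lit 1000, nat_lit 79, nat_lit 1000, nat_lit 58017, nat_lit 274, nat_lit 84017, nat_lit 286, nat_lit 60017043, nat_lit 0, nat_lit 0, nat_lit 2141445, false, false⟩,
 nat_lit 0, nat_lit 9346, nat_lit 0, nat_lit 0, nat_lit 4947, nat_lit 0, nat_lit 509, nat_lit 0, nat_lit 0, nat_lit 0, nat_lit 0, nat_lit 0, nat_lit 0, nat_lit 0, nat_lit 80, nat_lit 1000000, nat_lit 0, nat_lit 0, [(nat_lit 6, [(nat_lit 6, nat_lit 1000)])],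
 ⟨p035_k5, nat_lit 0, nat_lit 0, nat_lit 221, nat_lit 0, nat_lit 248070, [nat_lit 2257066667, nat_lit 1408000000, nat_lit 211200000], [], [nat_lit 9355366869, nat_lit 10107567560, nat_lit 8551799683, nat_lit 8911818381, nat_lit 9982598669, nat_lit 10638971189, nat_lit 11049596779, nat_lit 9799084225], nat_lit 1271250, nat_lit 1271250, nat_lit 88400, nat_lit 490000, nat_lit 780000, nat_lit 1100001, [nat_lit 1100000, nat_lit 1442500, nat_lit 1271250], [nat_lit 9, nat_lit 40, nat_lit 20, nat_lit 80, nat_lit 2, nat_lit 272, nat_lit 60, nat_lit 9]⟩, C1.Rw.none,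
 ⟨nat_lit 6123, nat_lit 6325, ⟨.ofNat (nat_lit 164319), .ofNat (nat_lit 295942), .ofNat (nat_lit 169661), .ofNat (nat_lit 301284), .ofNat (nat_lit 172944), .ofNat (nat_lit 301553), .ofNat (nat_lit 178281), .ofNat (nat_lit 306890)⟩, ⟨.ofNat (nat_lit 143159), .ofNat (nat_lit 225423), .ofNat (nat_lit 164527), .ofNat (nat_lit 246791), .ofNat (nat_lit 147104), .ofNat (nat_lit 227485), .ofNat (nat_lit 168452), .ofNat (nat_lit 248833)⟩⟩, [⟨nat_lit 0, nat_lit 100, nat_lit 99, nat_lit 47, nat_lit 68083091⟩]⟩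
noncomputable def p035_l6 : Lf2 := ⟨nat_lit 0, nat_lit 2, [nat_lit 10, nat_lit 5, nat_lit 5, nat_lit 20], true, nat_lit 120, nat_lit 160, nat_lit 0, nat_lit 284, ⟨nat_lit 0, nat_lit 0, nat_lit 1000, nat_lit 6, nat_lit 99, nat_lit 1000, nat_lit 79, nat_lit 1000, nat_lit 58017, nat_lit 274, nat_lit 91267, nat_lit 289, nat_lit 59661110, nat_lit 0, nat_lit 0, nat_lit 2217985, false, false⟩,
 nat_lit 0, nat_lit 9020, nat_lit 0, nat_lit 0, nat_lit 4892, nat_lit 0, nat_lit 1127, nat_lit 0, nat_lit 0, nat_lit 0, nat_lit 0, nat_lit 0, nat_lit 0, nat_lit 26191906052277, nat_lit 80, nat_lit 1000000, nat_lit 0, nat_lit 0, [(nat_lit 6, [(nat_lit 6, nat_lit 1000)])],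
 ⟨p035_k6, nat_lit 0, nat_lit 0, nat_lit 217, nat_lit 0, nat_lit 264247, [nat_lit 2257066667, nat_lit 1408000000, nat_lit 211200000], [], [nat_lit 9301206929, nat_lit 9703489796, nat_lit 8472510859, nat_lit 8800325878, nat_lit 9979014640, nat_lit 10304889032, nat_lit 10307216852, nat_lit 9688912080], nat_lit 1271250, nat_lit 1271250, nat_lit 111251, nat_lit 490000, nat_lit 780000, nat_lit 1100001, [nat_lit 1100000, nat_lit 1442500, nat_lit 1271250], [nat_lit 9, nat_lit 40, nat_lit 20, nat_lit 80, nat_lit 2, nat_lit 272, nat_lit 60, nat_lit 9]⟩, C1.Rw.none,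
 ⟨nat_lit 6123, nat_lit 6225, ⟨.ofNat (nat_lit 182121), .ofNat (nat_lit 304098), .ofNat (nat_lit 187461), .ofNat (nat_lit 309437), .ofNat (nat_lit 186319), .ofNat (nat_lit 306890), .ofNat (nat_lit 191656), .ofNat (nat_lit 312227)⟩, ⟨.ofNat (nat_lit 145153), .ofNat (nat_lit 226471), .ofNat (nat_lit 166510), .ofNat (nat_lit 247827), .ofNat (nat_lit 147104), .ofNat (nat_lit 227485), .ofNat (nat_lit 168452), .ofNat (nat_lit 248833)⟩⟩, [⟨nat_lit 0, nat_lit 100, nat_lit 100, nat_lit 50, nat_lit 156752419⟩]⟩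
noncomputable def p035_l7 : Lf2 := ⟨nat_lit 0, nat_lit 2, [nat_lit 10, nat_lit 5, nat_lit 5, nat_lit 20], true, nat_lit 120, nat_lit 160, nat_lit 0, nat_lit 288, ⟨nat_lit 0, nat_lit 0, nat_lit 1000, nat_lit 6, nat_lit 100, nat_lit 1000, nat_lit 80, nat_lit 1000, nat_lit 60000, nat_lit 275, nat_lit 93750, nat_lit 290, nat_lit 59525649, nat_lit 0, nat_lit 0, nat_lit 2248073, false, false⟩,
 nat_lit 0, nat_lit 9210, nat_lit 0, nat_lit 0, nat_lit 5116, nat_lit 0, nat_lit 1764, nat_lit 0, nat_lit 0, nat_lit 0, nat_lit 0, nat_lit 0, nat_lit 0, nat_lit 0, nat_lit 41, nat_lit 400000, nat_lit 0, nat_lit 0, [(nat_lit 6, [(nat_lit 5, nat_lit 1000)])],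
 ⟨p035_k7, nat_lit 0, nat_lit 0, nat_lit 218, nat_lit 0, nat_lit 304209, [nat_lit 2073600001, nat_lit 7600000], [], [nat_lit 9852836544, nat_lit 10795800696, nat_lit 8980727404, nat_lit 9706998486, nat_lit 10596283414, nat_lit 11318234234, nat_lit 10859638301, nat_lit 10411114098], nat_lit 1271250, nat_lit 1271250, nat_lit 111251, nat_lit 490000, nat_lit 780000, nat_lit 1100001, [nat_lit 1100000, nat_lit 1785000], [nat_lit 39, nat_lit 40, nat_lit 20, nat_lit 80, nat_lit 7, nat_lit 272, nat_lit 60, nat_lit 9]⟩, C1.Rw.none,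
 ⟨nat_lit 5916, nat_lit 6124, ⟨.ofNat (nat_lit 180982), .ofNat (nat_lit 301553), .ofNat (nat_lit 191656), .ofNat (nat_lit 312227), .ofNat (nat_lit 189276), .ofNat (nat_lit 307076), .ofNat (nat_lit 199946), .ofNat (nat_lit 317746)⟩, ⟨.ofNat (nat_lit 147104), .ofNat (nat_lit 227485), .ofNat (nat_lit 168452), .ofNat (nat_lit 248833), .ofNat (nat_lit 150878), .ofNat (nat_lit 229411), .ofNat (nat_lit 172217), .ofNat (nat_lit 250751)⟩⟩, [⟨nat_lit 0, nat_lit 100, nat_lit 99, nat_lit 55, nat_lit 132426683⟩]⟩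
noncomputable def p035_l8 : Lf2 := ⟨nat_lit 0, nat_lit 5, [nat_lit 4, nat_lit 5, nat_lit 5, nat_lit 20], true, nat_lit 120, nat_lit 160, nat_lit 0, nat_lit 288, ⟨nat_lit 0, nat_lit 0, nat_lit 1000, nat_lit 6, nat_lit 97, nat_lit 1000, nat_lit 79, nat_lit 1000, nat_lit 58017, nat_lit 274, nat_lit 88817, nat_lit 288, nat_lit 59794416, nat_lit 0, nat_lit 0, nat_lit 2190270, false, false⟩,
 nat_lit 0, nat_lit 9106, nat_lit 0, nat_lit 0, nat_lit 4820, nat_lit 0, nat_lit 276, nat_lit 0, nat_lit 0, nat_lit 0, nat_lit 0, nat_lit 0, nat_lit 0, nat_lit 0, nat_lit 147, nat_lit 1000000, nat_lit 0, nat_lit 0, [(nat_lit 6, [(nat_lit 6, nat_lit 1000)])],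
 ⟨p035_k0, nat_lit 0, nat_lit 0, nat_lit 282, nat_lit 0, nat_lit 241769, [nat_lit 3329066667, nat_lit 3042400001, nat_lit 177599999], [], [nat_lit 10105519880, nat_lit 11429486296, nat_lit 9119563628, nat_lit 10128127208, nat_lit 10522853367, nat_lit 11802424716, nat_lit 11586097388, nat_lit 10755598908], nat_lit 1271250, nat_lit 1271250, nat_lit 88400, nat_lit 490000, nat_lit 780000, nat_lit 1100001, [nat_lit 1100000, nat_lit 1442500, nat_lit 1271250], [nat_lit 11, nat_lit 40, nat_lit 20, nat_lit 80, nat_lit 1, nat_lit 345, nat_lit 125, nat_lit 10]⟩, C1.Rw.none,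
 ⟨nat_lit 5916, nat_lit 6325, ⟨.ofNat (nat_lit 164319), .ofNat (nat_lit 295942), .ofNat (nat_lit 175003), .ofNat (nat_lit 306625), .ofNat (nat_lit 181423), .ofNat (nat_lit 307076), .ofNat (nat_lit 192092), .ofNat (nat_lit 317746)⟩, ⟨.ofNat (nat_lit 143159), .ofNat (nat_lit 225423), .ofNat (nat_lit 164527), .ofNat (nat_lit 246791), .ofNat (nat_lit 150878), .ofNat (nat_lit 229411), .ofNat (nat_lit 172217), .ofNat (nat_lit 250751)⟩⟩, [⟨nat_lit 0, nat_lit 100, nat_lit 99, nat_lit 55, nat_lit 99556351⟩]⟩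
noncomputable def p035_l9 : Lf2 := ⟨nat_lit 0, nat_lit 2, [nat_lit 10, nat_lit 5, nat_lit 5, nat_lit 20], true, nat_lit 120, nat_lit 160, nat_lit 0, nat_lit 280, ⟨nat_lit 0, nat_lit 0, nat_lit 1000, nat_lit 6, nat_lit 104, nat_lit 1000, nat_lit 79, nat_lit 1000, nat_lit 60000, nat_lit 275, nat_lit 101400, nat_lit 293, nat_lit 59226945, nat_lit 0, nat_lit 0, nat_lit 2308898, false, false⟩,
 nat_lit 0, nat_lit 9437, nat_lit 0, nat_lit 0, nat_lit 5242, nat_lit 0, nat_lit 1819, nat_lit 0, nat_lit 0, nat_lit 0, nat_lit 0, nat_lit 0, nat_lit 0, nat_lit 26736210498679, nat_lit 41, nat_lit 400000, nat_lit 0, nat_lit 0, [(nat_lit 6, [(nat_lit 5, nat_lit 1000)])],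
 ⟨p035_k7, nat_lit 0, nat_lit 0, nat_lit 216, nat_lit 0, nat_lit 302965, [nat_lit 2073600001, nat_lit 7600000], [], [nat_lit 9551790830, nat_lit 10061288524, nat_lit 8699707651, nat_lit 9067641556, nat_lit 10246588996, nat_lit 10611224040, nat_lit 10587894851, nat_lit 9934891048], nat_lit 1271250, nat_lit 1271250, nat_lit 134400, nat_lit 490000, nat_lit 780000, nat_lit 1100001, [nat_lit 1100000, nat_lit 1785000], [nat_lit 39, nat_lit 40, nat_lit 20, nat_lit 80, nat_lit 7, nat_lit 272, nat_lit 60, nat_lit 9]⟩, C1.Rw.none,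
 ⟨nat_lit 6020, nat_lit 6124, ⟨.ofNat (nat_lit 199694), .ofNat (nat_lit 312227), .ofNat (nat_lit 205031), .ofNat (nat_lit 317564), .ofNat (nat_lit 203762), .ofNat (nat_lit 314996), .ofNat (nat_lit 209097), .ofNat (nat_lit 320331)⟩, ⟨.ofNat (nat_lit 147104), .ofNat (nat_lit 227485), .ofNat (nat_lit 168452), .ofNat (nat_lit 248833), .ofNat (nat_lit 149012), .ofNat (nat_lit 228465), .ofNat (nat_lit 170355), .ofNat (nat_lit 249807)⟩⟩, [⟨nat_lit 0, nat_lit 100, nat_lit 100, nat_lit 55, nat_lit 164804995⟩]⟩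
noncomputable def p035_l10 : Lf2 := ⟨nat_lit 0, nat_lit 2, [nat_lit 10, nat_lit 5, nat_lit 5, nat_lit 20], true, nat_lit 120, nat_lit 160, nat_lit 0, nat_lit 280, ⟨nat_lit 0, nat_lit 0, nat_lit 1000, nat_lit 6, nat_lit 107, nat_lit 1000, nat_lit 80, nat_lit 1000, nat_lit 60000, nat_lit 275, nat_lit 106667, nat_lit 295, nat_lit 58997876, nat_lit 0, nat_lit 0, nat_lit 2356361, false, false⟩,
 nat_lit 0, nat_lit 9081, nat_lit 0, nat_lit 0, nat_lit 5164, nat_lit 0, nat_lit 1171, nat_lit 0, nat_lit 0, nat_lit 0, nat_lit 0, nat_lit 0, nat_lit 0, nat_lit 0, nat_lit 41, nat_lit 400000, nat_lit 0, nat_lit 0, [(nat_lit 6, [(nat_lit 5, nat_lit 1000)])],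
 ⟨p035_k3, nat_lit 0, nat_lit 0, nat_lit 241, nat_lit 0, nat_lit 340012, [nat_lit 2073600001, nat_lit 7600000], [], [nat_lit 10052258179, nat_lit 10588453665, nat_lit 9238635749, nat_lit 9603599238, nat_lit 10757791282, nat_lit 11119506630, nat_lit 10139962350, nat_lit 10305065586], nat_lit 1271250, nat_lit 1271250, nat_lit 134400, nat_lit 490000, nat_lit 780000, nat_lit 1100001, [nat_lit 1100000, nat_lit 1785000], [nat_lit 39, nat_lit 40, nat_lit 20, nat_lit 80, nat_lit 7, nat_lit 272, nat_lit 60, nat_lit 9]⟩, C1.Rw.none,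
 ⟨nat_lit 5916, nat_lit 6021, ⟨.ofNat (nat_lit 203762), .ofNat (nat_lit 314996), .ofNat (nat_lit 214433), .ofNat (nat_lit 325667), .ofNat (nat_lit 207799), .ofNat (nat_lit 317746), .ofNat (nat_lit 218469), .ofNat (nat_lit 328416)⟩, ⟨.ofNat (nat_lit 149012), .ofNat (nat_lit 228465), .ofNat (nat_lit 170355), .ofNat (nat_lit 249807), .ofNat (nat_lit 150878), .ofNat (nat_lit 229411), .ofNat (nat_lit 172217), .ofNat (nat_lit 250751)⟩⟩, [⟨nat_lit 0, nat_lit 100, nat_lit 100, nat_lit 60, nat_lit 186970798⟩]⟩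
noncomputable def p035_l11 : Lf2 := ⟨nat_lit 0, nat_lit 5, [nat_lit 4, nat_lit 5, nat_lit 5, nat_lit 20], true, nat_lit 120, nat_lit 160, nat_lit 0, nat_lit 280, ⟨nat_lit 0, nat_lit 0, nat_lit 1000, nat_lit 6, nat_lit 106, nat_lit 1000, nat_lit 80, nat_lit 1000, nat_lit 60000, nat_lit 275, nat_lit 104017, nat_lit 294, nat_lit 59071183, nat_lit 0, nat_lit 0, nat_lit 2340982, false, false⟩,
 nat_lit 0, nat_lit 8630, nat_lit 0, nat_lit 0, nat_lit 4794, nat_lit 0, nat_lit 387, nat_lit 0, nat_lit 0, nat_lit 0, nat_lit 0, nat_lit 0, nat_lit 0, nat_lit 0, nat_lit 80, nat_lit 1000000, nat_lit 0, nat_lit 0, [(nat_lit 6, [(nat_lit 6, nat_lit 1000)])],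
 ⟨p035_k2, nat_lit 0, nat_lit 0, nat_lit 214, nat_lit 0, nat_lit 275820, [nat_lit 2257066667, nat_lit 1408000000, nat_lit 211200000], [], [nat_lit 9840813676, nat_lit 10578460134, nat_lit 9078848044, nat_lit 9727840885, nat_lit 10450317499, nat_lit 11093685734, nat_lit 9969786883, nat_lit 10357093975], nat_lit 1271250, nat_lit 1271250, nat_lit 134400, nat_lit 490000, nat_lit 780000, nat_lit 1100001, [nat_lit 1100000, nat_lit 1442500, nat_lit 1271250], [nat_lit 9, nat_lit 40, nat_lit 20, nat_lit 80, nat_lit 2, nat_lit 272, nat_lit 60, nat_lit 9]⟩, C1.Rw.none,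
 ⟨nat_lit 5916, nat_lit 6124, ⟨.ofNat (nat_lit 199694), .ofNat (nat_lit 312227), .ofNat (nat_lit 210368), .ofNat (nat_lit 322901), .ofNat (nat_lit 207799), .ofNat (nat_lit 317746), .ofNat (nat_lit 218469), .ofNat (nat_lit 328416)⟩, ⟨.ofNat (nat_lit 147104), .ofNat (nat_lit 227485), .ofNat (nat_lit 168452), .ofNat (nat_lit 248833), .ofNat (nat_lit 150878), .ofNat (nat_lit 229411), .ofNat (nat_lit 172217), .ofNat (nat_lit 250751)⟩⟩, [⟨nat_lit 0, nat_lit 100, nat_lit 100, nat_lit 60, nat_lit 179229046⟩]⟩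
noncomputable def p035_l12 : Lf2 := ⟨nat_lit 0, nat_lit 5, [nat_lit 4, nat_lit 5, nat_lit 5, nat_lit 20], false, nat_lit 80, nat_lit 120, nat_lit 0, nat_lit 288, ⟨nat_lit 0, nat_lit 0, nat_lit 1000, nat_lit 6, nat_lit 138, nat_lit 1000, nat_lit 46, nat_lit 1000, nat_lit 20417, nat_lit 250, nat_lit 176817, nat_lit 318, nat_lit 58338324, nat_lit 0, nat_lit 0, nat_lit 2298000, false, false⟩,
 nat_lit 11535, nat_lit 0, nat_lit 0, nat_lit 0, nat_lit 6106, nat_lit 0, nat_lit 1202, nat_lit 0, nat_lit 0, nat_lit 0, nat_lit 0, nat_lit 0, nat_lit 0, nat_lit 23495301426648, nat_lit 69, nat_lit 400000, nat_lit 0, nat_lit 0, [(nat_lit 6, [(nat_lit 5, nat_lit 1000)])],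
 ⟨p035_k0, nat_lit 0, nat_lit 0, nat_lit 211, nat_lit 0, nat_lit 284551, [nat_lit 2521600001, nat_lit 1460000001, nat_lit 7200000], [], [nat_lit 6084502052, nat_lit 6840137094, nat_lit 6722479650, nat_lit 6822726392, nat_lit 6769617970, nat_lit 7228797749, nat_lit 8745733718, nat_lit 7436468088], nat_lit 1271250, nat_lit 1271250, nat_lit 490000, nat_lit 780000, nat_lit 490000, nat_lit 780000, [nat_lit 1100000, nat_lit 1442500, nat_lit 1271250], [nat_lit 11, nat_lit 40, nat_lit 20, nat_lit 80, nat_lit 1, nat_lit 345, nat_lit 125, nat_lit 10]⟩, ⟨p035_k0, nat_lit 0, nat_lit 0, nat_lit 330, nat_lit 0, nat_lit 284551, [nat_lit 0, nat_lit 0, nat_lit 0], [], [nat_lit 0, nat_lit 0, nat_lit 0, nat_lit 0, nat_lit 0, nat_lit 0, nat_lit 0, nat_lit 0], nat_lit 1271250, nat_lit 1271250, nat_lit 490000, nat_lit 780000, nat_lit 0, nat_lit 2034000, [nat_lit 1100000, nat_lit 1442500, nat_lit 1271250], [nat_lit 11, nat_lit 40, nat_lit 20,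 nat_lit 80, nat_lit 1, nat_lit 401, nat_lit 175, nat_lit 12]⟩,
 ⟨nat_lit 6123, nat_lit 6325, ⟨.ofNat (nat_lit 295942), .ofNat (nat_lit 378206), .ofNat (nat_lit 306625), .ofNat (nat_lit 388890), .ofNat (nat_lit 301553), .ofNat (nat_lit 381933), .ofNat (nat_lit 312227), .ofNat (nat_lit 392607)⟩, ⟨.ofNat (nat_lit 60895), .ofNat (nat_lit 143159), .ofNat (nat_lit 82263), .ofNat (nat_lit 164527), .ofNat (nat_lit 66723), .ofNat (nat_lit 147104), .ofNat (nat_lit 88071), .ofNat (nat_lit 168452)⟩⟩, []⟩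
noncomputable def p035_l13 : Lf2 := ⟨nat_lit 0, nat_lit 2, [nat_lit 10, nat_lit 5, nat_lit 5, nat_lit 20], false, nat_lit 120, nat_lit 140, nat_lit 0, nat_lit 288, ⟨nat_lit 0, nat_lit 0, nat_lit 1000, nat_lit 6, nat_lit 136, nat_lit 1000, nat_lit 70, nat_lit 1000, nat_lit 46817, nat_lit 268, nat_lit 173400, nat_lit 317, nat_lit 57126357, nat_lit 0, nat_lit 0, nat_lit 2651721, false, false⟩,
 nat_lit 0, nat_lit 9518, nat_lit 0, nat_lit 0, nat_lit 5038, nat_lit 0, nat_lit 0, nat_lit 0, nat_lit 0, nat_lit 0, nat_lit 0, nat_lit 0, nat_lit 0, nat_lit 0, nat_lit 80, nat_lit 1000000, nat_lit 0, nat_lit 0, [(nat_lit 6, [(nat_lit 6, nat_lit 1000)])],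
 ⟨p035_k5, nat_lit 0, nat_lit 0, nat_lit 187, nat_lit 0, nat_lit 223935, [nat_lit 2257066667, nat_lit 1408000000, nat_lit 211200000], [], [nat_lit 6800138919, nat_lit 7266360831, nat_lit 7267087495, nat_lit 7676797439, nat_lit 7232978493, nat_lit 7651930471, nat_lit 7686613949, nat_lit 8084182609], nat_lit 1271250, nat_lit 1271250, nat_lit 490000, nat_lit 780000, nat_lit 780000, nat_lit 936251, [nat_lit 1100000, nat_lit 1442500, nat_lit 1271250], [nat_lit 9, nat_lit 40, nat_lit 20, nat_lit 80, nat_lit 2, nat_lit 289, nat_lit 75, nat_lit 9]⟩, ⟨p035_k5, nat_lit 0, nat_lit 0, nat_lit 247, nat_lit 0, nat_lit 223935, [nat_lit 0, nat_lit 0, nat_lit 0], [], [nat_lit 0, nat_lit 0, nat_lit 0, nat_lit 0, nat_lit 0, nat_lit 0, nat_lit 0, nat_lit 0], nat_lit 1271250, nat_lit 1271250, nat_lit 490000, nat_lit 780000, nat_lit 0, nat_lit 2034000, [nat_lit 1100000, nat_lit 1442500, nat_lit 1271250], [nat_lit 9, nat_lit 40, nat_lit 20,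 nat_lit 80, nat_lit 2, nat_lit 345, nat_lit 125, nat_lit 12]⟩,
 ⟨nat_lit 6224, nat_lit 6325, ⟨.ofNat (nat_lit 295942), .ofNat (nat_lit 378206), .ofNat (nat_lit 301284), .ofNat (nat_lit 383548), .ofNat (nat_lit 298759), .ofNat (nat_lit 380076), .ofNat (nat_lit 304098), .ofNat (nat_lit 385416)⟩, ⟨.ofNat (nat_lit 143159), .ofNat (nat_lit 184291), .ofNat (nat_lit 164527), .ofNat (nat_lit 205659), .ofNat (nat_lit 145153), .ofNat (nat_lit 185812), .ofNat (nat_lit 166510), .ofNat (nat_lit 207169)⟩⟩, []⟩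
noncomputable def p035_l14 : Lf2 := ⟨nat_lit 0, nat_lit 2, [nat_lit 10, nat_lit 5, nat_lit 5, nat_lit 20], false, nat_lit 120, nat_lit 140, nat_lit 0, nat_lit 288, ⟨nat_lit 0, nat_lit 0, nat_lit 1000, nat_lit 6, nat_lit 138, nat_lit 1000, nat_lit 71, nat_lit 1000, nat_lit 46817, nat_lit 268, nat_lit 180267, nat_lit 319, nat_lit 56904445, nat_lit 0, nat_lit 0, nat_lit 2691493, false, false⟩,
 nat_lit 0, nat_lit 9138, nat_lit 0, nat_lit 0, nat_lit 4956, nat_lit 0, nat_lit 0, nat_lit 0, nat_lit 0, nat_lit 0, nat_lit 0, nat_lit 0, nat_lit 0, nat_lit 0, nat_lit 80, nat_lit 1000000, nat_lit 0, nat_lit 0, [(nat_lit 6, [(nat_lit 6, nat_lit 1000)])],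
 ⟨p035_k6, nat_lit 0, nat_lit 0, nat_lit 187, nat_lit 0, nat_lit 264247, [nat_lit 2257066667, nat_lit 1408000000, nat_lit 211200000], [], [nat_lit 7355056780, nat_lit 7817833464, nat_lit 7809065550, nat_lit 8215063497, nat_lit 7777083125, nat_lit 8192212170, nat_lit 8218369531, nat_lit 8612376510], nat_lit 1271250, nat_lit 1271250, nat_lit 490000, nat_lit 780000, nat_lit 780000, nat_lit 936251, [nat_lit 1100000, nat_lit 1442500, nat_lit 1271250], [nat_lit 9, nat_lit 40, nat_lit 20, nat_lit 80, nat_lit 2, nat_lit 289, nat_lit 75, nat_lit 9]⟩, ⟨p035_k5, nat_lit 0, nat_lit 0, nat_lit 251, nat_lit 0, nat_lit 271617, [nat_lit 0, nat_lit 0, nat_lit 0], [], [nat_lit 0, nat_lit 0, nat_lit 0, nat_lit 0, nat_lit 0, nat_lit 0, nat_lit 0, nat_lit 0], nat_lit 1271250, nat_lit 1271250, nat_lit 490000, nat_lit 780000, nat_lit 0, nat_lit 2034000, [nat_lit 1100000, nat_lit 1442500, nat_lit 1271250], [nat_lit 9, nat_lit 40, nat_lit 20,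 nat_lit 80, nat_lit 2, nat_lit 345, nat_lit 125, nat_lit 12]⟩,
 ⟨nat_lit 6123, nat_lit 6225, ⟨.ofNat (nat_lit 298759), .ofNat (nat_lit 380076), .ofNat (nat_lit 309437), .ofNat (nat_lit 390755), .ofNat (nat_lit 301553), .ofNat (nat_lit 381933), .ofNat (nat_lit 312227), .ofNat (nat_lit 392607)⟩, ⟨.ofNat (nat_lit 145153), .ofNat (nat_lit 185812), .ofNat (nat_lit 166510), .ofNat (nat_lit 207169), .ofNat (nat_lit 147104), .ofNat (nat_lit 187294), .ofNat (nat_lit 168452), .ofNat (nat_lit 208643)⟩⟩, []⟩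
noncomputable def p035_l15 : Lf2 := ⟨nat_lit 0, nat_lit 2, [nat_lit 10, nat_lit 5, nat_lit 5, nat_lit 20], false, nat_lit 140, nat_lit 160, nat_lit 0, nat_lit 288, ⟨nat_lit 0, nat_lit 0, nat_lit 1000, nat_lit 6, nat_lit 138, nat_lit 1000, nat_lit 87, nat_lit 1000, nat_lit 70417, nat_lit 280, nat_lit 176817, nat_lit 318, nat_lit 55915487, nat_lit 0, nat_lit 0, nat_lit 2930851, false, false⟩,
 nat_lit 9436, nat_lit 0, nat_lit 0, nat_lit 0, nat_lit 4995, nat_lit 0, nat_lit 0, nat_lit 0, nat_lit 0, nat_lit 0, nat_lit 0, nat_lit 0, nat_lit 0, nat_lit 0, nat_lit 80, nat_lit 1000000, nat_lit 0, nat_lit 0, [(nat_lit 6, [(nat_lit 6, nat_lit 1000)])],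
 ⟨p035_k5, nat_lit 0, nat_lit 0, nat_lit 180, nat_lit 0, nat_lit 271617, [nat_lit 2257066667, nat_lit 1408000000, nat_lit 211200000], [], [nat_lit 7300612032, nat_lit 8170206650, nat_lit 7758847972, nat_lit 8550249871, nat_lit 7734347167, nat_lit 8543050122, nat_lit 8179301807, nat_lit 8946578787], nat_lit 1271250, nat_lit 1271250, nat_lit 490000, nat_lit 780000, nat_lit 936251, nat_lit 1100001, [nat_lit 1100000, nat_lit 1442500, nat_lit 1271250], [nat_lit 9, nat_lit 40, nat_lit 20, nat_lit 80, nat_lit 2, nat_lit 289, nat_lit 75, nat_lit 9]⟩, ⟨p035_k5, nat_lit 0, nat_lit 0, nat_lit 251, nat_lit 0, nat_lit 271617, [nat_lit 0, nat_lit 0, nat_lit 0], [], [nat_lit 0, nat_lit 0, nat_lit 0, nat_lit 0, nat_lit 0, nat_lit 0, nat_lit 0, nat_lit 0], nat_lit 1271250, nat_lit 1271250, nat_lit 490000, nat_lit 780000, nat_lit 0, nat_lit 2034000, [nat_lit 1100000, nat_lit 1442500, nat_lit 1271250], [nat_lit 9, nat_lit 40, nat_lit 20,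 nat_lit 80, nat_lit 2, nat_lit 345, nat_lit 125, nat_lit 12]⟩,
 ⟨nat_lit 6123, nat_lit 6325, ⟨.ofNat (nat_lit 295942), .ofNat (nat_lit 378206), .ofNat (nat_lit 306625), .ofNat (nat_lit 388890), .ofNat (nat_lit 301553), .ofNat (nat_lit 381933), .ofNat (nat_lit 312227), .ofNat (nat_lit 392607)⟩, ⟨.ofNat (nat_lit 184291), .ofNat (nat_lit 225423), .ofNat (nat_lit 205659), .ofNat (nat_lit 246791), .ofNat (nat_lit 187294), .ofNat (nat_lit 227485), .ofNat (nat_lit 208643), .ofNat (nat_lit 248833)⟩⟩, []⟩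
noncomputable def p035_l16 : Lf2 := ⟨nat_lit 0, nat_lit 5, [nat_lit 4, nat_lit 5, nat_lit 5, nat_lit 20], false, nat_lit 120, nat_lit 160, nat_lit 0, nat_lit 288, ⟨nat_lit 0, nat_lit 0, nat_lit 1000, nat_lit 6, nat_lit 138, nat_lit 1000, nat_lit 79, nat_lit 1000, nat_lit 58017, nat_lit 274, nat_lit 176817, nat_lit 318, nat_lit 56454111, nat_lit 0, nat_lit 0, nat_lit 2805768, false, false⟩,
 nat_lit 10343, nat_lit 0, nat_lit 0, nat_lit 0, nat_lit 5475, nat_lit 0, nat_lit 0, nat_lit 0, nat_lit 0, nat_lit 0, nat_lit 0, nat_lit 0, nat_lit 0, nat_lit 0, nat_lit 69, nat_lit 400000, nat_lit 0, nat_lit 0, [(nat_lit 6, [(nat_lit 5, nat_lit 1000)])],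
 ⟨p035_k0, nat_lit 0, nat_lit 0, nat_lit 184, nat_lit 0, nat_lit 189636, [nat_lit 2521600001, nat_lit 1460000001, nat_lit 7200000], [], [nat_lit 6562428151, nat_lit 7551752025, nat_lit 6982946351, nat_lit 7841930689, nat_lit 7409904501, nat_lit 8261523776, nat_lit 7803149701, nat_lit 8610364601], nat_lit 1271250, nat_lit 1271250, nat_lit 490000, nat_lit 780000, nat_lit 780000, nat_lit 1100001, [nat_lit 1100000, nat_lit 1442500, nat_lit 1271250], [nat_lit 11, nat_lit 40, nat_lit 20, nat_lit 80, nat_lit 1, nat_lit 373, nat_lit 150, nat_lit 11]⟩, ⟨p035_k0, nat_lit 0, nat_lit 0, nat_lit 293, nat_lit 0, nat_lit 189636, [nat_lit 0, nat_lit 0, nat_lit 0], [], [nat_lit 0, nat_lit 0, nat_lit 0, nat_lit 0, nat_lit 0, nat_lit 0, nat_lit 0, nat_lit 0], nat_lit 1271250, nat_lit 1271250, nat_lit 490000, nat_lit 780000, nat_lit 0, nat_lit 2034000, [nat_lit 1100000, nat_lit 1442500, nat_lit 1271250], [nat_lit 11, nat_lit 40, nat_lit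 20, nat_lit 80, nat_lit 1, nat_lit 401, nat_lit 175, nat_lit 12]⟩,
 ⟨nat_lit 6123, nat_lit 6325, ⟨.ofNat (nat_lit 295942), .ofNat (nat_lit 378206), .ofNat (nat_lit 306625), .ofNat (nat_lit 388890), .ofNat (nat_lit 301553), .ofNat (nat_lit 381933), .ofNat (nat_lit 312227), .ofNat (nat_lit 392607)⟩, ⟨.ofNat (nat_lit 143159), .ofNat (nat_lit 225423), .ofNat (nat_lit 164527), .ofNat (nat_lit 246791), .ofNat (nat_lit 147104), .ofNat (nat_lit 227485), .ofNat (nat_lit 168452), .ofNat (nat_lit 248833)⟩⟩, []⟩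
noncomputable def p035_l17 : Lf2 := ⟨nat_lit 0, nat_lit 2, [nat_lit 10, nat_lit 5, nat_lit 5, nat_lit 20], false, nat_lit 80, nat_lit 120, nat_lit 0, nat_lit 288, ⟨nat_lit 25, nat_lit 0, nat_lit 975, nat_lit 6, nat_lit 142, nat_lit 975, nat_lit 48, nat_lit 975, nat_lit 21600, nat_lit 251, nat_lit 187267, nat_lit 321, nat_lit 57875192, nat_lit 0, nat_lit 0, nat_lit 2385999, false, false⟩,
 nat_lit 652, nat_lit 9686, nat_lit 0, nat_lit 0, nat_lit 5743, nat_lit 345, nat_lit 2041, nat_lit 0, nat_lit 0, nat_lit 0, nat_lit 0, nat_lit 0, nat_lit 0, nat_lit 0, nat_lit 32, nat_lit 390000, nat_lit 0, nat_lit 0, [(nat_lit 6, [(nat_lit 5, nat_lit 975)])],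
 ⟨p035_k7, nat_lit 0, nat_lit 0, nat_lit 211, nat_lit 0, nat_lit 349135, [nat_lit 2011360001, nat_lit 15210000], [], [nat_lit 7228000573, nat_lit 8050433134, nat_lit 7420888248, nat_lit 8198478834, nat_lit 7745839586, nat_lit 8520458881, nat_lit 9042334108, nat_lit 8827295643], nat_lit 1271250, nat_lit 1271250, nat_lit 490000, nat_lit 780000, nat_lit 490000, nat_lit 780000, [nat_lit 1100000, nat_lit 1785000], [nat_lit 39, nat_lit 40, nat_lit 20, nat_lit 80, nat_lit 7, nat_lit 272, nat_lit 60, nat_lit 9]⟩, ⟨p035_k8, nat_lit 0, nat_lit 0, nat_lit 287, nat_lit 0, nat_lit 368686, [nat_lit 117200000, nat_lit 199200000], [], [nat_lit 1342125100, nat_lit 1159710490, nat_lit 977295880, nat_lit 797627470, nat_lit 1066798980, nat_lit 910959445, nat_lit 1184319908, nat_lit 1030473782], nat_lit 1271250, nat_lit 1271250, nat_lit 490000, nat_lit 780000, nat_lit 0, nat_lit 2034000, [nat_lit 1100000, nat_lit 1785000], [nat_lit 39, nat_lit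 40, nat_lit 20, nat_lit 80, nat_lit 7, nat_lit 345, nat_lit 125, nat_lit 12]⟩,
 ⟨nat_lit 5916, nat_lit 6124, ⟨.ofNat (nat_lit 301553), .ofNat (nat_lit 381933), .ofNat (nat_lit 322901), .ofNat (nat_lit 403281), .ofNat (nat_lit 307076), .ofNat (nat_lit 385610), .ofNat (nat_lit 328416), .ofNat (nat_lit 406949)⟩, ⟨.ofNat (nat_lit 66723), .ofNat (nat_lit 147104), .ofNat (nat_lit 88071), .ofNat (nat_lit 168452), .ofNat (nat_lit 72344), .ofNat (nat_lit 150878), .ofNat (nat_lit 93684), .ofNat (nat_lit 172217)⟩⟩, []⟩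
noncomputable def p035_l18 : Lf2 := ⟨nat_lit 0, nat_lit 5, [nat_lit 4, nat_lit 5, nat_lit 5, nat_lit 20], false, nat_lit 80, nat_lit 120, nat_lit 0, nat_lit 288, ⟨nat_lit 0, nat_lit 0, nat_lit 1000, nat_lit 6, nat_lit 142, nat_lit 1000, nat_lit 48, nat_lit 1000, nat_lit 21600, nat_lit 251, nat_lit 187267, nat_lit 321, nat_lit 57875192, nat_lit 0, nat_lit 0, nat_lit 2385999, false, false⟩,
 nat_lit 0, nat_lit 10047, nat_lit 0, nat_lit 0, nat_lit 5581, nat_lit 0, nat_lit 834, nat_lit 0, nat_lit 0, nat_lit 0, nat_lit 0, nat_lit 0, nat_lit 0, nat_lit 0, nat_lit 41, nat_lit 400000, nat_lit 0, nat_lit 0, [(nat_lit 6, [(nat_lit 5, nat_lit 1000)])],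
 ⟨p035_k2, nat_lit 0, nat_lit 0, nat_lit 206, nat_lit 0, nat_lit 275820, [nat_lit 2073600001, nat_lit 853200001, nat_lit 108399999], [], [nat_lit 7287258190, nat_lit 8096483377, nat_lit 7577548517, nat_lit 8283026756, nat_lit 7879886313, nat_lit 8582179909, nat_lit 8156538915, nat_lit 8821496878], nat_lit 1271250, nat_lit 1271250, nat_lit 490000, nat_lit 780000, nat_lit 490000, nat_lit 780000, [nat_lit 1100000, nat_lit 1442500, nat_lit 1271250], [nat_lit 9, nat_lit 40, nat_lit 20, nat_lit 80, nat_lit 2, nat_lit 272, nat_lit 60, nat_lit 9]⟩, ⟨p035_k0, nat_lit 0, nat_lit 0, nat_lit 335, nat_lit 0, nat_lit 291621, [nat_lit 0, nat_lit 0, nat_lit 0], [], [nat_lit 0, nat_lit 0, nat_lit 0, nat_lit 0, nat_lit 0, nat_lit 0, nat_lit 0, nat_lit 0], nat_lit 1271250, nat_lit 1271250, nat_lit 490000, nat_lit 780000, nat_lit 0, nat_lit 2034000, [nat_lit 1100000, nat_lit 1442500, nat_lit 1271250], [nat_lit 11, nat_lit 40, nat_lit 20,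 nat_lit 80, nat_lit 1, nat_lit 401, nat_lit 175, nat_lit 12]⟩,
 ⟨nat_lit 5916, nat_lit 6124, ⟨.ofNat (nat_lit 301553), .ofNat (nat_lit 381933), .ofNat (nat_lit 322901), .ofNat (nat_lit 403281), .ofNat (nat_lit 307076), .ofNat (nat_lit 385610), .ofNat (nat_lit 328416), .ofNat (nat_lit 406949)⟩, ⟨.ofNat (nat_lit 66723), .ofNat (nat_lit 147104), .ofNat (nat_lit 88071), .ofNat (nat_lit 168452), .ofNat (nat_lit 72344), .ofNat (nat_lit 150878), .ofNat (nat_lit 93684), .ofNat (nat_lit 172217)⟩⟩, []⟩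
noncomputable def p035_l19 : Lf2 := ⟨nat_lit 0, nat_lit 2, [nat_lit 10, nat_lit 5, nat_lit 5, nat_lit 20], false, nat_lit 120, nat_lit 140, nat_lit 0, nat_lit 288, ⟨nat_lit 0, nat_lit 0, nat_lit 1000, nat_lit 6, nat_lit 140, nat_lit 1000, nat_lit 71, nat_lit 1000, nat_lit 48600, nat_lit 269, nat_lit 183750, nat_lit 320, nat_lit 56683151, nat_lit 0, nat_lit 0, nat_lit 2730627, false, false⟩,
 nat_lit 0, nat_lit 9324, nat_lit 0, nat_lit 0, nat_lit 5179, nat_lit 0, nat_lit 1191, nat_lit 0, nat_lit 0, nat_lit 0, nat_lit 0, nat_lit 0, nat_lit 0, nat_lit 28836002933058, nat_lit 80, nat_lit 1000000, nat_lit 0, nat_lit 0, [(nat_lit 6, [(nat_lit 6, nat_lit 1000)])],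
 ⟨p035_k9, nat_lit 0, nat_lit 0, nat_lit 188, nat_lit 0, nat_lit 302965, [nat_lit 2257066667, nat_lit 1408000000, nat_lit 211200000], [], [nat_lit 7925192437, nat_lit 8262726209, nat_lit 8247410734, nat_lit 8567302493, nat_lit 8246804442, nat_lit 8574250915, nat_lit 9337656888, nat_lit 8860544663], nat_lit 1271250, nat_lit 1271250, nat_lit 490000, nat_lit 780000, nat_lit 780000, nat_lit 936251, [nat_lit 1100000, nat_lit 1442500, nat_lit 1271250], [nat_lit 9, nat_lit 40, nat_lit 20, nat_lit 80, nat_lit 2, nat_lit 289, nat_lit 75, nat_lit 9]⟩, ⟨p035_k5, nat_lit 0, nat_lit 0, nat_lit 275, nat_lit 0, nat_lit 319931, [nat_lit 0, nat_lit 0, nat_lit 0], [], [nat_lit 0, nat_lit 0, nat_lit 0, nat_lit 0, nat_lit 0, nat_lit 0, nat_lit 0, nat_lit 0], nat_lit 1271250, nat_lit 1271250, nat_lit 490000, nat_lit 780000, nat_lit 0, nat_lit 2034000, [nat_lit 1100000, nat_lit 1442500, nat_lit 1271250], [nat_lit 9, nat_lit 40, nat_lit 20,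 nat_lit 80, nat_lit 2, nat_lit 345, nat_lit 125, nat_lit 12]⟩,
 ⟨nat_lit 6020, nat_lit 6124, ⟨.ofNat (nat_lit 301553), .ofNat (nat_lit 381933), .ofNat (nat_lit 317564), .ofNat (nat_lit 397944), .ofNat (nat_lit 304325), .ofNat (nat_lit 383777), .ofNat (nat_lit 320331), .ofNat (nat_lit 399784)⟩, ⟨.ofNat (nat_lit 147104), .ofNat (nat_lit 187294), .ofNat (nat_lit 168452), .ofNat (nat_lit 208643), .ofNat (nat_lit 149012), .ofNat (nat_lit 188739), .ofNat (nat_lit 170355), .ofNat (nat_lit 210081)⟩⟩, []⟩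
noncomputable def p035_l20 : Lf2 := ⟨nat_lit 0, nat_lit 2, [nat_lit 10, nat_lit 5, nat_lit 5, nat_lit 20], false, nat_lit 120, nat_lit 140, nat_lit 0, nat_lit 288, ⟨nat_lit 0, nat_lit 0, nat_lit 1000, nat_lit 6, nat_lit 142, nat_lit 1000, nat_lit 72, nat_lit 1000, nat_lit 48600, nat_lit 269, nat_lit 190817, nat_lit 322, nat_lit 56462448, nat_lit 0, nat_lit 0, nat_lit 2769136, false, false⟩,
 nat_lit 0, nat_lit 9069, nat_lit 0, nat_lit 0, nat_lit 5158, nat_lit 0, nat_lit 567, nat_lit 0, nat_lit 0, nat_lit 0, nat_lit 0, nat_lit 0, nat_lit 0, nat_lit 28183540781428, nat_lit 80, nat_lit 1000000, nat_lit 0, nat_lit 0, [(nat_lit 6, [(nat_lit 6, nat_lit 1000)])],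
 ⟨p035_k10, nat_lit 0, nat_lit 0, nat_lit 188, nat_lit 0, nat_lit 340012, [nat_lit 2257066667, nat_lit 1408000000, nat_lit 211200000], [], [nat_lit 8447308000, nat_lit 8784130643, nat_lit 8760385709, nat_lit 9105928080, nat_lit 8759521063, nat_lit 9086356229, nat_lit 9102441979, nat_lit 9437575557], nat_lit 1271250, nat_lit 1271250, nat_lit 490000, nat_lit 780000, nat_lit 780000, nat_lit 936251, [nat_lit 1100000, nat_lit 1442500, nat_lit 1271250], [nat_lit 9, nat_lit 40, nat_lit 20, nat_lit 80, nat_lit 2, nat_lit 289, nat_lit 75, nat_lit 9]⟩, ⟨p035_k5, nat_lit 0, nat_lit 0, nat_lit 298, nat_lit 0, nat_lit 368686, [nat_lit 0, nat_lit 0, nat_lit 0], [], [nat_lit 0, nat_lit 0, nat_lit 0, nat_lit 0, nat_lit 0, nat_lit 0, nat_lit 0, nat_lit 0], nat_lit 1271250, nat_lit 1271250, nat_lit 490000, nat_lit 780000, nat_lit 0, nat_lit 2034000, [nat_lit 1100000, nat_lit 1442500, nat_lit 1271250], [nat_lit 9, nat_lit 40, nat_lit 20,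 nat_lit 80, nat_lit 2, nat_lit 345, nat_lit 125, nat_lit 12]⟩,
 ⟨nat_lit 5916, nat_lit 6021, ⟨.ofNat (nat_lit 304325), .ofNat (nat_lit 383777), .ofNat (nat_lit 325667), .ofNat (nat_lit 405120), .ofNat (nat_lit 307076), .ofNat (nat_lit 385610), .ofNat (nat_lit 328416), .ofNat (nat_lit 406949)⟩, ⟨.ofNat (nat_lit 149012), .ofNat (nat_lit 188739), .ofNat (nat_lit 170355), .ofNat (nat_lit 210081), .ofNat (nat_lit 150878), .ofNat (nat_lit 190145), .ofNat (nat_lit 172217), .ofNat (nat_lit 211484)⟩⟩, []⟩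
noncomputable def p035_l21 : Lf2 := ⟨nat_lit 0, nat_lit 5, [nat_lit 4, nat_lit 5, nat_lit 5, nat_lit 20], false, nat_lit 120, nat_lit 140, nat_lit 0, nat_lit 288, ⟨nat_lit 0, nat_lit 0, nat_lit 1000, nat_lit 6, nat_lit 142, nat_lit 1000, nat_lit 72, nat_lit 1000, nat_lit 48600, nat_lit 269, nat_lit 187267, nat_lit 321, nat_lit 56524956, nat_lit 0, nat_lit 0, nat_lit 2757412, false, false⟩,
 nat_lit 0, nat_lit 10027, nat_lit 0, nat_lit 0, nat_lit 5570, nat_lit 0, nat_lit 798, nat_lit 0, nat_lit 0, nat_lit 0, nat_lit 0, nat_lit 0, nat_lit 0, nat_lit 31045149515374, nat_lit 41, nat_lit 400000, nat_lit 0, nat_lit 0, [(nat_lit 6, [(nat_lit 5, nat_lit 1000)])],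
 ⟨p035_k2, nat_lit 0, nat_lit 0, nat_lit 186, nat_lit 0, nat_lit 275820, [nat_lit 2073600001, nat_lit 853200001, nat_lit 108399999], [], [nat_lit 7918222187, nat_lit 8664396189, nat_lit 8196121612, nat_lit 8860390722, nat_lit 8227595795, nat_lit 8907813517, nat_lit 9323245517, nat_lit 9130020892], nat_lit 1271250, nat_lit 1271250, nat_lit 490000, nat_lit 780000, nat_lit 780000, nat_lit 936251, [nat_lit 1100000, nat_lit 1442500, nat_lit 1271250], [nat_lit 9, nat_lit 40, nat_lit 20, nat_lit 80, nat_lit 2, nat_lit 289, nat_lit 75, nat_lit 9]⟩, ⟨p035_k0, nat_lit 0, nat_lit 0, nat_lit 335, nat_lit 0, nat_lit 291621, [nat_lit 0, nat_lit 0, nat_lit 0], [], [nat_lit 0, nat_lit 0, nat_lit 0, nat_lit 0, nat_lit 0, nat_lit 0, nat_lit 0, nat_lit 0], nat_lit 1271250, nat_lit 1271250, nat_lit 490000, nat_lit 780000, nat_lit 0, nat_lit 2034000, [nat_lit 1100000, nat_lit 1442500, nat_lit 1271250], [nat_lit 11, nat_lit 40, nat_lit 20,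 nat_lit 80, nat_lit 1, nat_lit 401, nat_lit 175, nat_lit 12]⟩,
 ⟨nat_lit 5916, nat_lit 6124, ⟨.ofNat (nat_lit 301553), .ofNat (nat_lit 381933), .ofNat (nat_lit 322901), .ofNat (nat_lit 403281), .ofNat (nat_lit 307076), .ofNat (nat_lit 385610), .ofNat (nat_lit 328416), .ofNat (nat_lit 406949)⟩, ⟨.ofNat (nat_lit 147104), .ofNat (nat_lit 187294), .ofNat (nat_lit 168452), .ofNat (nat_lit 208643), .ofNat (nat_lit 150878), .ofNat (nat_lit 190145), .ofNat (nat_lit 172217), .ofNat (nat_lit 211484)⟩⟩, []⟩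
noncomputable def p035_l22 : Lf2 := ⟨nat_lit 0, nat_lit 5, [nat_lit 4, nat_lit 5, nat_lit 5, nat_lit 20], false, nat_lit 140, nat_lit 160, nat_lit 0, nat_lit 288, ⟨nat_lit 0, nat_lit 0, nat_lit 1000, nat_lit 6, nat_lit 142, nat_lit 1000, nat_lit 88, nat_lit 1000, nat_lit 72600, nat_lit 281, nat_lit 187267, nat_lit 321, nat_lit 55496008, nat_lit 0, nat_lit 0, nat_lit 3001543, false, false⟩,
 nat_lit 0, nat_lit 13397, nat_lit 0, nat_lit 0, nat_lit 7442, nat_lit 0, nat_lit 1883, nat_lit 0, nat_lit 0, nat_lit 0, nat_lit 0, nat_lit 0, nat_lit 0, nat_lit 37796280580819, nat_lit 80, nat_lit 1000000, nat_lit 0, nat_lit 0, [(nat_lit 6, [(nat_lit 6, nat_lit 1000)])],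
 ⟨p035_k2, nat_lit 0, nat_lit 0, nat_lit 183, nat_lit 0, nat_lit 365315, [nat_lit 2257066667, nat_lit 1408000000, nat_lit 211200000], [], [nat_lit 10042954320, nat_lit 8147597852, nat_lit 6765861479, nat_lit 7971387414, nat_lit 7106970882, nat_lit 8338070980, nat_lit 7067004810, nat_lit 8235332484], nat_lit 1271250, nat_lit 1271250, nat_lit 490000, nat_lit 780000, nat_lit 936251, nat_lit 1100001, [nat_lit 1100000, nat_lit 1442500, nat_lit 1271250], [nat_lit 9, nat_lit 40, nat_lit 20, nat_lit 80, nat_lit 2, nat_lit 289, nat_lit 75, nat_lit 9]⟩, ⟨p035_k0, nat_lit 0, nat_lit 0, nat_lit 371, nat_lit 0, nat_lit 386242, [nat_lit 0, nat_lit 0, nat_lit 0], [], [nat_lit 0, nat_lit 0, nat_lit 0, nat_lit 0, nat_lit 0, nat_lit 0, nat_lit 0, nat_lit 0], nat_lit 1271250, nat_lit 1271250, nat_lit 490000, nat_lit 780000, nat_lit 0, nat_lit 2034000, [nat_lit 1100000, nat_lit 1442500, nat_lit 1271250], [nat_lit 11, nat_lit 40, nat_lit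 20, nat_lit 80, nat_lit 1, nat_lit 401, nat_lit 175, nat_lit 12]⟩,
 ⟨nat_lit 5916, nat_lit 6124, ⟨.ofNat (nat_lit 301553), .ofNat (nat_lit 381933), .ofNat (nat_lit 322901), .ofNat (nat_lit 403281), .ofNat (nat_lit 307076), .ofNat (nat_lit 385610), .ofNat (nat_lit 328416), .ofNat (nat_lit 406949)⟩, ⟨.ofNat (nat_lit 187294), .ofNat (nat_lit 227485), .ofNat (nat_lit 208643), .ofNat (nat_lit 248833), .ofNat (nat_lit 190145), .ofNat (nat_lit 229411), .ofNat (nat_lit 211484), .ofNat (nat_lit 250751)⟩⟩, []⟩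
noncomputable def b_VL_600_600_5_28 : St := ⟨true, nat_lit 1, nat_lit 1, nat_lit 1, nat_lit 40, nat_lit 240, nat_lit 260, nat_lit 240, nat_lit 260, nat_lit 16, nat_lit 120, nat_lit 20, nat_lit 40, nat_lit 80, nat_lit 160, nat_lit 0, nat_lit 288, nat_lit 0, nat_lit 20, nat_lit 0, nat_lit 0, nat_lit 0, nat_lit 0⟩
theorem d_VL_600_600_5_28 (h : EB TB.env) : Dead b_VL_600_600_5_28 := chkB_sound0 h (T :=
(.spl (nat_lit 2) (nat_lit 80)
(.spl (nat_lit 4) (nat_lit 120)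
(.spl (nat_lit 0) (nat_lit 250)
(.ord (.spl (nat_lit 0) (nat_lit 245)
(.ord (.leaf p035_l0))
(.leaf p035_l1)))
(.trZ (nat_lit 0) (nat_lit 100) (nat_lit 99) (nat_lit 45) (nat_lit 20) (.spl (nat_lit 0) (nat_lit 255)
(.ord (.leaf p035_l2))
(.spl (nat_lit 6) (nat_lit 8)
(.leaf p035_l3)
(.leaf p035_l4)))))
(.spl (nat_lit 1) (nat_lit 250)
(.spl (nat_lit 6) (nat_lit 8)
(.spl (nat_lit 0) (nat_lit 250)
(.spl (nat_lit 1) (nat_lit 245)
(.leaf p035_l5)
(.ord (.trZ (nat_lit 0) (nat_lit 100) (nat_lit 100) (nat_lit 45) (nat_lit 20) (.trX (nat_lit 19) (nat_lit 100) (nat_lit 94) (nat_lit 62) (nat_lit 284) (.leaf p035_l6)))))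
(.trZ (nat_lit 0) (nat_lit 100) (nat_lit 99) (nat_lit 45) (nat_lit 20) (.leaf p035_l7)))
(.leaf p035_l8))
(.ord (.trZ (nat_lit 0) (nat_lit 100) (nat_lit 100) (nat_lit 50) (nat_lit 24) (.trX (nat_lit 19) (nat_lit 100) (nat_lit 95) (nat_lit 62) (nat_lit 280) (.spl (nat_lit 6) (nat_lit 8)
(.spl (nat_lit 0) (nat_lit 255)
(.ord (.leaf p035_l9))
(.leaf p035_l10))
(.leaf p035_l11)))))))
(.spl (nat_lit 0) (nat_lit 250)
(.ord (.spl (nat_lit 4) (nat_lit 120)
(.leaf p035_l12)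
(.spl (nat_lit 6) (nat_lit 8)
(.spl (nat_lit 4) (nat_lit 140)
(.spl (nat_lit 0) (nat_lit 245)
(.ord (.leaf p035_l13))
(.leaf p035_l14))
(.leaf p035_l15))
(.leaf p035_l16))))
(.spl (nat_lit 4) (nat_lit 120)
(.spl (nat_lit 6) (nat_lit 8)
(.leaf p035_l17)
(.leaf p035_l18))
(.spl (nat_lit 4) (nat_lit 140)
(.spl (nat_lit 6) (nat_lit 8)
(.spl (nat_lit 0) (nat_lit 255)
(.ord (.leaf p035_l19))
(.leaf p035_l20))
(.leaf p035_l21))
(.leaf p035_l22)))))) (by decide +kernel)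
noncomputable def p035_l23 : Lf2 := ⟨nat_lit 0, nat_lit 10, [nat_lit 0, nat_lit 5, nat_lit 5, nat_lit 20], true, nat_lit 80, nat_lit 160, nat_lit 0, nat_lit 288, ⟨nat_lit 0, nat_lit 0, nat_lit 1000, nat_lit 6, nat_lit 112, nat_lit 1000, nat_lit 62, nat_lit 1000, nat_lit 36817, nat_lit 262, nat_lit 117600, nat_lit 299, nat_lit 59696509, nat_lit 0, nat_lit 0, nat_lit 2156192, false, false⟩,
 nat_lit 0, nat_lit 9369, nat_lit 0, nat_lit 1839, nat_lit 4960, nat_lit 0, nat_lit 801, nat_lit 0, nat_lit 0, nat_lit 0, nat_lit 0, nat_lit 0, nat_lit 0, nat_lit 27490471932904, nat_lit 166, nat_lit 1000000, nat_lit 0, nat_lit 0, [(nat_lit 6, [(nat_lit 6, nat_lit 1000)])],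
 ⟨p035_k11, nat_lit 0, nat_lit 0, nat_lit 332, nat_lit 0, nat_lit 145085, [nat_lit 3633066667, nat_lit 3172240001, nat_lit 348400000], [], [nat_lit 9240807903, nat_lit 9858715616, nat_lit 8529766348, nat_lit 8655217068, nat_lit 10003330157, nat_lit 10660571684, nat_lit 12967459948, nat_lit 11731710668], nat_lit 1271250, nat_lit 1271250, nat_lit 88400, nat_lit 780000, nat_lit 490000, nat_lit 1100001, [nat_lit 1100000, nat_lit 1442500, nat_lit 1271250], [nat_lit 48, nat_lit 40, nat_lit 20, nat_lit 80, nat_lit 12, nat_lit 373, nat_lit 150, nat_lit 10]⟩, C1.Rw.none,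
 ⟨nat_lit 6123, nat_lit 6325, ⟨.ofNat (nat_lit 164319), .ofNat (nat_lit 378206), .ofNat (nat_lit 175003), .ofNat (nat_lit 388890), .ofNat (nat_lit 172944), .ofNat (nat_lit 381933), .ofNat (nat_lit 183618), .ofNat (nat_lit 392607)⟩, ⟨.ofNat (nat_lit 60895), .ofNat (nat_lit 225423), .ofNat (nat_lit 82263), .ofNat (nat_lit 246791), .ofNat (nat_lit 66723), .ofNat (nat_lit 227485), .ofNat (nat_lit 88071), .ofNat (nat_lit 248833)⟩⟩, [⟨nat_lit 0, nat_lit 100, nat_lit 100, nat_lit 50, nat_lit 63477260⟩]⟩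
noncomputable def p035_l24 : Lf2 := ⟨nat_lit 0, nat_lit 10, [nat_lit 0, nat_lit 5, nat_lit 5, nat_lit 20], false, nat_lit 80, nat_lit 160, nat_lit 0, nat_lit 288, ⟨nat_lit 0, nat_lit 0, nat_lit 1000, nat_lit 6, nat_lit 118, nat_lit 1000, nat_lit 64, nat_lit 1000, nat_lit 38400, nat_lit 263, nat_lit 132017, nat_lit 304, nat_lit 59094533, nat_lit 0, nat_lit 0, nat_lit 2277323, false, false⟩,
 nat_lit 0, nat_lit 9001, nat_lit 0, nat_lit 0, nat_lit 5000, nat_lit 0, nat_lit 731, nat_lit 0, nat_lit 0, nat_lit 0, nat_lit 0, nat_lit 0, nat_lit 0, nat_lit 22697198238390, nat_lit 89, nat_lit 552400, nat_lit 0, nat_lit 0, [(nat_lit 6, [(nat_lit 5, nat_lit 746), (nat_lit 6, nat_lit 254)])],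
 ⟨p035_k12, nat_lit 0, nat_lit 0, nat_lit 228, nat_lit 0, nat_lit 176297, [nat_lit 2729704534, nat_lit 1865689601, nat_lit 12464000], [], [nat_lit 9808137500, nat_lit 10518889500, nat_lit 8828479635, nat_lit 9494322635, nat_lit 10644926635, nat_lit 11303997068, nat_lit 11911997635, nat_lit 10793193068], nat_lit 1271250, nat_lit 1271250, nat_lit 111251, nat_lit 780000, nat_lit 490000, nat_lit 1100001, [nat_lit 1100000, nat_lit 1442500, nat_lit 1271250], [nat_lit 11, nat_lit 40, nat_lit 20, nat_lit 80, nat_lit 1, nat_lit 373, nat_lit 150, nat_lit 11]⟩, ⟨p035_k11, nat_lit 0, nat_lit 0, nat_lit 407, nat_lit 0, nat_lit 186733, [nat_lit 0, nat_lit 0, nat_lit 0], [], [nat_lit 0, nat_lit 0, nat_lit 0, nat_lit 0, nat_lit 0, nat_lit 0, nat_lit 0, nat_lit 0], nat_lit 1271250, nat_lit 1271250, nat_lit 111251, nat_lit 780000, nat_lit 0, nat_lit 2034000, [nat_lit 1100000, nat_lit 1442500, nat_lit 1271250], [nat_lit 48, nat_lit 40,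 nat_lit 20, nat_lit 80, nat_lit 12, nat_lit 401, nat_lit 175, nat_lit 11]⟩,
 ⟨nat_lit 5916, nat_lit 6124, ⟨.ofNat (nat_lit 180982), .ofNat (nat_lit 381933), .ofNat (nat_lit 202330), .ofNat (nat_lit 403281), .ofNat (nat_lit 189276), .ofNat (nat_lit 385610), .ofNat (nat_lit 210615), .ofNat (nat_lit 406949)⟩, ⟨.ofNat (nat_lit 66723), .ofNat (nat_lit 227485), .ofNat (nat_lit 88071), .ofNat (nat_lit 248833), .ofNat (nat_lit 72344), .ofNat (nat_lit 229411), .ofNat (nat_lit 93684), .ofNat (nat_lit 250751)⟩⟩, [⟨nat_lit 0, nat_lit 100, nat_lit 100, nat_lit 60, nat_lit 129157221⟩]⟩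
noncomputable def b_VL_600_600_5_29 : St := ⟨true, nat_lit 1, nat_lit 1, nat_lit 1, nat_lit 40, nat_lit 240, nat_lit 260, nat_lit 240, nat_lit 260, nat_lit 16, nat_lit 120, nat_lit 20, nat_lit 40, nat_lit 80, nat_lit 160, nat_lit 0, nat_lit 288, nat_lit 20, nat_lit 40, nat_lit 0, nat_lit 0, nat_lit 0, nat_lit 0⟩
theorem d_VL_600_600_5_29 (h : EB TB.env) : Dead b_VL_600_600_5_29 := chkB_sound0 h (T :=
(.spl (nat_lit 0) (nat_lit 250)
(.ord (.leaf p035_l23))
(.trZ (nat_lit 0) (nat_lit 100) (nat_lit 99) (nat_lit 45) (nat_lit 20) (.leaf p035_l24)))) (by decide +kernel)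
noncomputable def p035_l25 : Lf2 := ⟨nat_lit 0, nat_lit 2, [nat_lit 10, nat_lit 5, nat_lit 5, nat_lit 20], false, nat_lit 80, nat_lit 160, nat_lit 0, nat_lit 288, ⟨nat_lit 0, nat_lit 0, nat_lit 1000, nat_lit 6, nat_lit 122, nat_lit 1000, nat_lit 65, nat_lit 1000, nat_lit 40017, nat_lit 264, nat_lit 138017, nat_lit 306, nat_lit 58673951, nat_lit 0, nat_lit 0, nat_lit 2361393, false, false⟩,
 nat_lit 0, nat_lit 8051, nat_lit 0, nat_lit 0, nat_lit 4686, nat_lit 0, nat_lit 0, nat_lit 0, nat_lit 0, nat_lit 0, nat_lit 0, nat_lit 0, nat_lit 0, nat_lit 0, nat_lit 37, nat_lit 1000000, nat_lit 0, nat_lit 0, [(nat_lit 9, [(nat_lit 6, nat_lit 1000)])],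
 ⟨p035_k13, nat_lit 0, nat_lit 0, nat_lit 237, nat_lit 0, nat_lit 376573, [nat_lit 1689600001, nat_lit 0], [], [nat_lit 9920904784, nat_lit 10985103127, nat_lit 9723504466, nat_lit 10420021038, nat_lit 11359808255, nat_lit 12047453959, nat_lit 11105730902, nat_lit 11724776592], nat_lit 1271250, nat_lit 1271250, nat_lit 134400, nat_lit 780000, nat_lit 490000, nat_lit 1100001, [nat_lit 1100000, nat_lit 1442500], [nat_lit 31, nat_lit 40, nat_lit 20, nat_lit 80, nat_lit 3, nat_lit 289, nat_lit 75, nat_lit 11]⟩, ⟨p035_k5, nat_lit 0, nat_lit 0, nat_lit 388, nat_lit 0, nat_lit 419084, [nat_lit 0, nat_lit 0, nat_lit 0], [], [nat_lit 0, nat_lit 0, nat_lit 0, nat_lit 0, nat_lit 0, nat_lit 0, nat_lit 0, nat_lit 0], nat_lit 1271250, nat_lit 1271250, nat_lit 134400, nat_lit 780000, nat_lit 0, nat_lit 2034000, [nat_lit 1100000, nat_lit 1442500, nat_lit 1271250], [nat_lit 9, nat_lit 40, nat_lit 20, nat_lit 80, nat_lit 2, nat_lit 345,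 nat_lit 125, nat_lit 12]⟩,
 ⟨nat_lit 5700, nat_lit 5917, ⟨.ofNat (nat_lit 197129), .ofNat (nat_lit 385610), .ofNat (nat_lit 218469), .ofNat (nat_lit 406949), .ofNat (nat_lit 205119), .ofNat (nat_lit 389244), .ofNat (nat_lit 226461), .ofNat (nat_lit 410586)⟩, ⟨.ofNat (nat_lit 72344), .ofNat (nat_lit 229411), .ofNat (nat_lit 93684), .ofNat (nat_lit 250751), .ofNat (nat_lit 77764), .ofNat (nat_lit 231202), .ofNat (nat_lit 99106), .ofNat (nat_lit 252544)⟩⟩, [⟨nat_lit 0, nat_lit 100, nat_lit 98, nat_lit 64, nat_lit 130402198⟩]⟩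
noncomputable def p035_l26 : Lf2 := ⟨nat_lit 0, nat_lit 2, [nat_lit 10, nat_lit 5, nat_lit 5, nat_lit 20], false, nat_lit 80, nat_lit 160, nat_lit 0, nat_lit 268, ⟨nat_lit 782, nat_lit 0, nat_lit 218, nat_lit 6, nat_lit 133, nat_lit 218, nat_lit 65, nat_lit 218, nat_lit 40017, nat_lit 264, nat_lit 166667, nat_lit 315, nat_lit 57712415, nat_lit 0, nat_lit 0, nat_lit 2528001, false, false⟩,
 nat_lit 17061, nat_lit 0, nat_lit 0, nat_lit 0, nat_lit 9931, nat_lit 9931, nat_lit 3663, nat_lit 0, nat_lit 0, nat_lit 0, nat_lit 0, nat_lit 0, nat_lit 0, nat_lit 0, nat_lit 0, nat_lit 218000, nat_lit 0, nat_lit 0, [(nat_lit 9, [(nat_lit 6, nat_lit 218)])],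
 ⟨p035_k13, nat_lit 0, nat_lit 0, nat_lit 234, nat_lit 0, nat_lit 419839, [nat_lit 3905292801, nat_lit 4726180000], [], [nat_lit 9915833157, nat_lit 11670557541, nat_lit 9866251617, nat_lit 7619153571, nat_lit 12390635154, nat_lit 11638333747, nat_lit 17560390201, nat_lit 15220616808], nat_lit 1271250, nat_lit 1271250, nat_lit 205650, nat_lit 780000, nat_lit 490000, nat_lit 1100001, [nat_lit 1100000, nat_lit 1442500], [nat_lit 31, nat_lit 40, nat_lit 20, nat_lit 80, nat_lit 3, nat_lit 289, nat_lit 75, nat_lit 11]⟩, ⟨p035_k13, nat_lit 0, nat_lit 0, nat_lit 274, nat_lit 0, nat_lit 419839, [nat_lit 3666016000, nat_lit 4887500000], [], [nat_lit 27136156620, nat_lit 24546310716, nat_lit 12582595116, nat_lit 14173705222, nat_lit 18596046061, nat_lit 17903030837, nat_lit 23976257113, nat_lit 21718683600], nat_lit 1271250, nat_lit 1271250, nat_lit 205650, nat_lit 780000, nat_lit 0, nat_lit 1892750, [nat_lit 1100000, nat_lit 1442500],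 [nat_lit 31, nat_lit 40, nat_lit 20, nat_lit 80, nat_lit 3, nat_lit 317, nat_lit 100, nat_lit 13]⟩,
 ⟨nat_lit 5700, nat_lit 5917, ⟨.ofNat (nat_lit 242029), .ofNat (nat_lit 406949), .ofNat (nat_lit 252698), .ofNat (nat_lit 417619), .ofNat (nat_lit 249476), .ofNat (nat_lit 410586), .ofNat (nat_lit 260147), .ofNat (nat_lit 421257)⟩, ⟨.ofNat (nat_lit 72344), .ofNat (nat_lit 229411), .ofNat (nat_lit 93684), .ofNat (nat_lit 250751), .ofNat (nat_lit 77764), .ofNat (nat_lit 231202), .ofNat (nat_lit 99106), .ofNat (nat_lit 252544)⟩⟩, []⟩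
noncomputable def p035_l27 : Lf2 := ⟨nat_lit 0, nat_lit 5, [nat_lit 4, nat_lit 5, nat_lit 5, nat_lit 20], false, nat_lit 80, nat_lit 160, nat_lit 0, nat_lit 288, ⟨nat_lit 0, nat_lit 0, nat_lit 1000, nat_lit 6, nat_lit 122, nat_lit 1000, nat_lit 65, nat_lit 1000, nat_lit 40017, nat_lit 264, nat_lit 141067, nat_lit 307, nat_lit 58653938, nat_lit 0, nat_lit 0, nat_lit 2363194, false, false⟩,
 nat_lit 0, nat_lit 8173, nat_lit 0, nat_lit 0, nat_lit 4757, nat_lit 0, nat_lit 0, nat_lit 0, nat_lit 0, nat_lit 0, nat_lit 0, nat_lit 0, nat_lit 0, nat_lit 0, nat_lit 117, nat_lit 1000000, nat_lit 0, nat_lit 0, [(nat_lit 9, [(nat_lit 6, nat_lit 1000)])],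
 ⟨p035_k14, nat_lit 0, nat_lit 0, nat_lit 242, nat_lit 0, nat_lit 307678, [nat_lit 2969600000, nat_lit 1600000000, nat_lit 226400000], [], [nat_lit 9982114518, nat_lit 10478233883, nat_lit 9567093168, nat_lit 9918074375, nat_lit 11229052154, nat_lit 11575532678, nat_lit 10940950550, nat_lit 11252760128], nat_lit 1271250, nat_lit 1271250, nat_lit 134400, nat_lit 780000, nat_lit 490000, nat_lit 1100001, [nat_lit 1100000, nat_lit 1442500, nat_lit 1271250], [nat_lit 9, nat_lit 40, nat_lit 20, nat_lit 80, nat_lit 2, nat_lit 289, nat_lit 75, nat_lit 10]⟩, ⟨p035_k0, nat_lit 0, nat_lit 0, nat_lit 442, nat_lit 0, nat_lit 343219, [nat_lit 0, nat_lit 0, nat_lit 0], [], [nat_lit 0, nat_lit 0, nat_lit 0, nat_lit 0, nat_lit 0, nat_lit 0, nat_lit 0, nat_lit 0], nat_lit 1271250, nat_lit 1271250, nat_lit 134400, nat_lit 780000, nat_lit 0, nat_lit 2034000, [nat_lit 1100000, nat_lit 1442500, nat_lit 1271250], [nat_lit 11, nat_lit 40, nat_lit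 20, nat_lit 80, nat_lit 1, nat_lit 401, nat_lit 175, nat_lit 12]⟩,
 ⟨nat_lit 5809, nat_lit 5917, ⟨.ofNat (nat_lit 197129), .ofNat (nat_lit 385610), .ofNat (nat_lit 223803), .ofNat (nat_lit 412284), .ofNat (nat_lit 201138), .ofNat (nat_lit 387432), .ofNat (nat_lit 227812), .ofNat (nat_lit 414106)⟩, ⟨.ofNat (nat_lit 72344), .ofNat (nat_lit 229411), .ofNat (nat_lit 93684), .ofNat (nat_lit 250751), .ofNat (nat_lit 75079), .ofNat (nat_lit 230324), .ofNat (nat_lit 96418), .ofNat (nat_lit 251663)⟩⟩, [⟨nat_lit 0, nat_lit 100, nat_lit 100, nat_lit 65, nat_lit 131075947⟩]⟩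
noncomputable def p035_l28 : Lf2 := ⟨nat_lit 0, nat_lit 5, [nat_lit 4, nat_lit 5, nat_lit 5, nat_lit 20], false, nat_lit 80, nat_lit 160, nat_lit 0, nat_lit 288, ⟨nat_lit 0, nat_lit 0, nat_lit 1000, nat_lit 6, nat_lit 123, nat_lit 1000, nat_lit 66, nat_lit 1000, nat_lit 40017, nat_lit 264, nat_lit 141067, nat_lit 307, nat_lit 58602215, nat_lit 0, nat_lit 0, nat_lit 2376114, false, false⟩,
 nat_lit 0, nat_lit 7869, nat_lit 0, nat_lit 0, nat_lit 4686, nat_lit 0, nat_lit 0, nat_lit 0, nat_lit 0, nat_lit 0, nat_lit 0, nat_lit 0, nat_lit 0, nat_lit 0, nat_lit 117, nat_lit 1000000, nat_lit 0, nat_lit 0, [(nat_lit 9, [(nat_lit 6, nat_lit 1000)])],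
 ⟨p035_k15, nat_lit 0, nat_lit 0, nat_lit 242, nat_lit 0, nat_lit 300921, [nat_lit 2969600000, nat_lit 1600000000, nat_lit 226400000], [], [nat_lit 10453003955, nat_lit 10985103127, nat_lit 10071762750, nat_lit 10420021036, nat_lit 11703631105, nat_lit 12047453957, nat_lit 11415253745, nat_lit 11724776590], nat_lit 1271250, nat_lit 1271250, nat_lit 134400, nat_lit 780000, nat_lit 490000, nat_lit 1100001, [nat_lit 1100000, nat_lit 1442500, nat_lit 1271250], [nat_lit 9, nat_lit 40, nat_lit 20, nat_lit 80, nat_lit 2, nat_lit 289, nat_lit 75, nat_lit 10]⟩, ⟨p035_k0, nat_lit 0, nat_lit 0, nat_lit 442, nat_lit 0, nat_lit 344548, [nat_lit 0, nat_lit 0, nat_lit 0], [], [nat_lit 0, nat_lit 0, nat_lit 0, nat_lit 0, nat_lit 0, nat_lit 0, nat_lit 0, nat_lit 0], nat_lit 1271250, nat_lit 1271250, nat_lit 134400, nat_lit 780000, nat_lit 0, nat_lit 2034000, [nat_lit 1100000, nat_lit 1442500, nat_lit 1271250], [nat_lit 11, nat_lit 40,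 nat_lit 20, nat_lit 80, nat_lit 1, nat_lit 401, nat_lit 175, nat_lit 12]⟩,
 ⟨nat_lit 5700, nat_lit 5810, ⟨.ofNat (nat_lit 201138), .ofNat (nat_lit 387432), .ofNat (nat_lit 222477), .ofNat (nat_lit 408771), .ofNat (nat_lit 205119), .ofNat (nat_lit 389244), .ofNat (nat_lit 226461), .ofNat (nat_lit 410586)⟩, ⟨.ofNat (nat_lit 75079), .ofNat (nat_lit 230324), .ofNat (nat_lit 96418), .ofNat (nat_lit 251663), .ofNat (nat_lit 77764), .ofNat (nat_lit 231202), .ofNat (nat_lit 99106), .ofNat (nat_lit 252544)⟩⟩, [⟨nat_lit 0, nat_lit 100, nat_lit 98, nat_lit 64, nat_lit 131175257⟩]⟩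
noncomputable def p035_l29 : Lf2 := ⟨nat_lit 0, nat_lit 5, [nat_lit 4, nat_lit 5, nat_lit 5, nat_lit 20], false, nat_lit 80, nat_lit 160, nat_lit 0, nat_lit 268, ⟨nat_lit 32, nat_lit 0, nat_lit 968, nat_lit 6, nat_lit 134, nat_lit 968, nat_lit 66, nat_lit 968, nat_lit 40017, nat_lit 264, nat_lit 166667, nat_lit 315, nat_lit 57641257, nat_lit 0, nat_lit 0, nat_lit 2541945, false, false⟩,
 nat_lit 409, nat_lit 7886, nat_lit 0, nat_lit 0, nat_lit 4939, nat_lit 238, nat_lit 0, nat_lit 0, nat_lit 0, nat_lit 273, nat_lit 0, nat_lit 0, nat_lit 0, nat_lit 22624245063434, nat_lit 102, nat_lit 968000, nat_lit 0, nat_lit 0, [(nat_lit 9, [(nat_lit 6, nat_lit 968)])],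
 ⟨p035_k15, nat_lit 0, nat_lit 0, nat_lit 249, nat_lit 0, nat_lit 345094, [nat_lit 2844492801, nat_lit 1523680000, nat_lit 202739200], [], [nat_lit 10169270637, nat_lit 10562372553, nat_lit 9764635856, nat_lit 10111859316, nat_lit 11161528017, nat_lit 11511725376, nat_lit 11066012795, nat_lit 11383684137], nat_lit 1271250, nat_lit 1271250, nat_lit 205650, nat_lit 780000, nat_lit 490000, nat_lit 1100001, [nat_lit 1100000, nat_lit 1442500, nat_lit 1271250], [nat_lit 9, nat_lit 40, nat_lit 20, nat_lit 80, nat_lit 2, nat_lit 289, nat_lit 75, nat_lit 10]⟩, ⟨p035_k14, nat_lit 0, nat_lit 0, nat_lit 328, nat_lit 0, nat_lit 354210, [nat_lit 150016000, nat_lit 200000000, nat_lit 254976000], [], [nat_lit 1103972362, nat_lit 1039976876, nat_lit 611167896, nat_lit 631927504, nat_lit 803445958, nat_lit 747056314, nat_lit 956651522, nat_lit 901831899], nat_lit 1271250, nat_lit 1271250, nat_lit 205650, nat_lit 780000, nat_lit 0, nat_lit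 1892750, [nat_lit 1100000, nat_lit 1442500, nat_lit 1271250], [nat_lit 9, nat_lit 40, nat_lit 20, nat_lit 80, nat_lit 2, nat_lit 317, nat_lit 100, nat_lit 11]⟩,
 ⟨nat_lit 5700, nat_lit 5810, ⟨.ofNat (nat_lit 245764), .ofNat (nat_lit 408771), .ofNat (nat_lit 256433), .ofNat (nat_lit 419441), .ofNat (nat_lit 249476), .ofNat (nat_lit 410586), .ofNat (nat_lit 260147), .ofNat (nat_lit 421257)⟩, ⟨.ofNat (nat_lit 75079), .ofNat (nat_lit 230324), .ofNat (nat_lit 96418), .ofNat (nat_lit 251663), .ofNat (nat_lit 77764), .ofNat (nat_lit 231202), .ofNat (nat_lit 99106), .ofNat (nat_lit 252544)⟩⟩, [⟨nat_lit 0, nat_lit 100, nat_lit 100, nat_lit 70, nat_lit 132009530⟩]⟩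
noncomputable def p035_l30 : Lf2 := ⟨nat_lit 0, nat_lit 2, [nat_lit 10, nat_lit 5, nat_lit 5, nat_lit 20], false, nat_lit 80, nat_lit 160, nat_lit 0, nat_lit 160, ⟨nat_lit 0, nat_lit 0, nat_lit 1000, nat_lit 6, nat_lit 124, nat_lit 1000, nat_lit 67, nat_lit 1000, nat_lit 41667, nat_lit 265, nat_lit 144150, nat_lit 308, nat_lit 58443689, nat_lit 0, nat_lit 0, nat_lit 2409677, false, false⟩,
 nat_lit 0, nat_lit 7537, nat_lit 0, nat_lit 0, nat_lit 4590, nat_lit 0, nat_lit 0, nat_lit 0, nat_lit 0, nat_lit 0, nat_lit 0, nat_lit 0, nat_lit 0, nat_lit 0, nat_lit 37, nat_lit 1000000, nat_lit 0, nat_lit 0, [(nat_lit 9, [(nat_lit 6, nat_lit 1000)])],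
 ⟨p035_k16, nat_lit 0, nat_lit 0, nat_lit 229, nat_lit 0, nat_lit 366693, [nat_lit 1689600001, nat_lit 0], [], [nat_lit 10744106061, nat_lit 11794097665, nat_lit 10624143342, nat_lit 11313296522, nat_lit 12123251256, nat_lit 12801744227, nat_lit 11941394352, nat_lit 12554256202], nat_lit 1271250, nat_lit 1271250, nat_lit 157850, nat_lit 780000, nat_lit 490000, nat_lit 1100001, [nat_lit 1100000, nat_lit 1442500], [nat_lit 31, nat_lit 40, nat_lit 20, nat_lit 80, nat_lit 3, nat_lit 289, nat_lit 75, nat_lit 11]⟩, ⟨p035_k5, nat_lit 0, nat_lit 0, nat_lit 386, nat_lit 0, nat_lit 429281, [nat_lit 0, nat_lit 0, nat_lit 0], [], [nat_lit 0, nat_lit 0, nat_lit 0, nat_lit 0, nat_lit 0, nat_lit 0, nat_lit 0, nat_lit 0], nat_lit 1271250, nat_lit 1271250, nat_lit 157850, nat_lit 780000, nat_lit 0, nat_lit 1100001, [nat_lit 1100000, nat_lit 1442500, nat_lit 1271250], [nat_lit 9, nat_lit 40, nat_lit 20, nat_lit 80, nat_lit 2, nat_lit 289,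 nat_lit 75, nat_lit 10]⟩,
 ⟨nat_lit 5477, nat_lit 5701, ⟨.ofNat (nat_lit 212791), .ofNat (nat_lit 389244), .ofNat (nat_lit 223462), .ofNat (nat_lit 399915), .ofNat (nat_lit 220501), .ofNat (nat_lit 392847), .ofNat (nat_lit 231179), .ofNat (nat_lit 403525)⟩, ⟨.ofNat (nat_lit 77764), .ofNat (nat_lit 231202), .ofNat (nat_lit 99106), .ofNat (nat_lit 252544), .ofNat (nat_lit 82986), .ofNat (nat_lit 232852), .ofNat (nat_lit 104343), .ofNat (nat_lit 254209)⟩⟩, [⟨nat_lit 0, nat_lit 100, nat_lit 95, nat_lit 64, nat_lit 125743156⟩]⟩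
noncomputable def p035_l31 : Lf2 := ⟨nat_lit 0, nat_lit 5, [nat_lit 4, nat_lit 5, nat_lit 5, nat_lit 20], false, nat_lit 80, nat_lit 160, nat_lit 0, nat_lit 160, ⟨nat_lit 58, nat_lit 0, nat_lit 942, nat_lit 6, nat_lit 124, nat_lit 942, nat_lit 67, nat_lit 942, nat_lit 41667, nat_lit 265, nat_lit 144150, nat_lit 308, nat_lit 58443689, nat_lit 0, nat_lit 0, nat_lit 2409677, false, false⟩,
 nat_lit 768, nat_lit 7113, nat_lit 0, nat_lit 0, nat_lit 4799, nat_lit 406, nat_lit 0, nat_lit 0, nat_lit 0, nat_lit 0, nat_lit 0, nat_lit 0, nat_lit 0, nat_lit 0, nat_lit 91, nat_lit 942000, nat_lit 0, nat_lit 0, [(nat_lit 9, [(nat_lit 6, nat_lit 942)])],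
 ⟨p035_k17, nat_lit 0, nat_lit 0, nat_lit 244, nat_lit 0, nat_lit 302355, [nat_lit 2761843201, nat_lit 1485420000, nat_lit 212014800], [], [nat_lit 11223986051, nat_lit 11981488477, nat_lit 10698469227, nat_lit 11301422374, nat_lit 12175047443, nat_lit 12857160889, nat_lit 11886285837, nat_lit 12512610422], nat_lit 1271250, nat_lit 1271250, nat_lit 157850, nat_lit 780000, nat_lit 490000, nat_lit 1100001, [nat_lit 1100000, nat_lit 1442500, nat_lit 1271250], [nat_lit 9, nat_lit 40, nat_lit 20, nat_lit 80, nat_lit 2, nat_lit 289, nat_lit 75, nat_lit 10]⟩, ⟨p035_k0, nat_lit 0, nat_lit 0, nat_lit 441, nat_lit 0, nat_lit 355172, [nat_lit 271904000, nat_lit 362500000, nat_lit 570836000], [], [nat_lit 2293384960, nat_lit 2187185916, nat_lit 1983288424, nat_lit 2006097968, nat_lit 1936362434, nat_lit 1928665242, nat_lit 2202976416, nat_lit 2108601310], nat_lit 1271250, nat_lit 1271250, nat_lit 157850, nat_lit 780000, nat_lit 0,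 nat_lit 1100001, [nat_lit 1100000, nat_lit 1442500, nat_lit 1271250], [nat_lit 11, nat_lit 40, nat_lit 20, nat_lit 80, nat_lit 1, nat_lit 373, nat_lit 150, nat_lit 11]⟩,
 ⟨nat_lit 5477, nat_lit 5701, ⟨.ofNat (nat_lit 212791), .ofNat (nat_lit 389244), .ofNat (nat_lit 223462), .ofNat (nat_lit 399915), .ofNat (nat_lit 220501), .ofNat (nat_lit 392847), .ofNat (nat_lit 231179), .ofNat (nat_lit 403525)⟩, ⟨.ofNat (nat_lit 77764), .ofNat (nat_lit 231202), .ofNat (nat_lit 99106), .ofNat (nat_lit 252544), .ofNat (nat_lit 82986), .ofNat (nat_lit 232852), .ofNat (nat_lit 104343), .ofNat (nat_lit 254209)⟩⟩, [⟨nat_lit 0, nat_lit 100, nat_lit 95, nat_lit 64, nat_lit 154441699⟩]⟩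
noncomputable def p035_l32 : Lf2 := ⟨nat_lit 0, nat_lit 2, [nat_lit 10, nat_lit 5, nat_lit 5, nat_lit 20], false, nat_lit 80, nat_lit 160, nat_lit 0, nat_lit 160, ⟨nat_lit 1000, nat_lit 0, nat_lit 0, nat_lit 0, nat_lit 0, nat_lit 0, nat_lit 0, nat_lit 0, nat_lit 0, nat_lit 0, nat_lit 0, nat_lit 0, nat_lit 0, nat_lit 0, nat_lit 0, nat_lit 0, false, false⟩,
 nat_lit 12517, nat_lit 1418, nat_lit 0, nat_lit 0, nat_lit 8486, nat_lit 6953, nat_lit 2588, nat_lit 0, nat_lit 0, nat_lit 502, nat_lit 0, nat_lit 0, nat_lit 0, nat_lit 0, nat_lit 0, nat_lit 0, nat_lit 0, nat_lit 0, [],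
 ⟨p035_k16, nat_lit 0, nat_lit 0, nat_lit 226, nat_lit 0, nat_lit 380430, [nat_lit 4688000000, nat_lit 6250000000], [], [nat_lit 11311417241, nat_lit 12093057430, nat_lit 9649922458, nat_lit 10101749675, nat_lit 11860174870, nat_lit 12300590865, nat_lit 10331123590, nat_lit 10763034935], nat_lit 1271250, nat_lit 1271250, nat_lit 205650, nat_lit 780000, nat_lit 490000, nat_lit 1100001, [nat_lit 1100000, nat_lit 1442500], [nat_lit 31, nat_lit 40, nat_lit 20, nat_lit 80, nat_lit 3, nat_lit 289, nat_lit 75, nat_lit 11]⟩, ⟨p035_k9, nat_lit 0, nat_lit 0, nat_lit 378, nat_lit 0, nat_lit 421745, [nat_lit 4688000000, nat_lit 6250000000, nat_lit 7968000000], [], [nat_lit 36225977820, nat_lit 34412746668, nat_lit 27668121093, nat_lit 27980766314, nat_lit 31539756024, nat_lit 29876770859, nat_lit 35991118941, nat_lit 34374887138], nat_lit 1271250, nat_lit 1271250, nat_lit 205650, nat_lit 780000, nat_lit 0, nat_lit 1100001, [nat_lit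 1100000, nat_lit 1442500, nat_lit 1271250], [nat_lit 9, nat_lit 40, nat_lit 20, nat_lit 80, nat_lit 2, nat_lit 289, nat_lit 75, nat_lit 10]⟩,
 zbF0, [⟨nat_lit 0, nat_lit 100, nat_lit 97, nat_lit 63, nat_lit 506165011⟩]⟩
noncomputable def p035_l33 : Lf2 := ⟨nat_lit 0, nat_lit 5, [nat_lit 4, nat_lit 5, nat_lit 5, nat_lit 20], false, nat_lit 80, nat_lit 160, nat_lit 0, nat_lit 160, ⟨nat_lit 879, nat_lit 0, nat_lit 121, nat_lit 6, nat_lit 130, nat_lit 121, nat_lit 66, nat_lit 121, nat_lit 41667, nat_lit 265, nat_lit 160067, nat_lit 313, nat_lit 57878440, nat_lit 0, nat_lit 0, nat_lit 2506107, false, false⟩,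
 nat_lit 11390, nat_lit 1801, nat_lit 0, nat_lit 0, nat_lit 8033, nat_lit 6327, nat_lit 2278, nat_lit 0, nat_lit 0, nat_lit 0, nat_lit 0, nat_lit 0, nat_lit 0, nat_lit 0, nat_lit 0, nat_lit 121000, nat_lit 0, nat_lit 0, [(nat_lit 9, [(nat_lit 6, nat_lit 121)])],
 ⟨p035_k17, nat_lit 0, nat_lit 0, nat_lit 221, nat_lit 0, nat_lit 316794, [nat_lit 4253561601, nat_lit 5404210000, nat_lit 6666717600], [], [nat_lit 11465519312, nat_lit 11991129823, nat_lit 9767623593, nat_lit 10160750050, nat_lit 11798721151, nat_lit 12263428998, nat_lit 10484411847, nat_lit 10901733195], nat_lit 1271250, nat_lit 1271250, nat_lit 205650, nat_lit 780000, nat_lit 490000, nat_lit 1100001, [nat_lit 1100000, nat_lit 1442500, nat_lit 1271250], [nat_lit 9, nat_lit 40, nat_lit 20, nat_lit 80, nat_lit 2, nat_lit 289, nat_lit 75, nat_lit 10]⟩, ⟨p035_k2, nat_lit 0, nat_lit 0, nat_lit 323, nat_lit 0, nat_lit 351971, [nat_lit 4120752000, nat_lit 5493750000,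 nat_lit 7003872000], [], [nat_lit 31909583928, nat_lit 30259603560, nat_lit 24602392776, nat_lit 25030212204, nat_lit 27791386680, nat_lit 26278125190, nat_lit 31770836283, nat_lit 30300118806], nat_lit 1271250, nat_lit 1271250, nat_lit 205650, nat_lit 780000, nat_lit 0, nat_lit 1100001, [nat_lit 1100000, nat_lit 1442500, nat_lit 1271250], [nat_lit 9, nat_lit 40, nat_lit 20, nat_lit 80, nat_lit 2, nat_lit 289, nat_lit 75, nat_lit 10]⟩,
 ⟨nat_lit 5590, nat_lit 5701, ⟨.ofNat (nat_lit 238805), .ofNat (nat_lit 399915), .ofNat (nat_lit 249476), .ofNat (nat_lit 410586), .ofNat (nat_lit 242495), .ofNat (nat_lit 401723), .ofNat (nat_lit 253169), .ofNat (nat_lit 412397)⟩, ⟨.ofNat (nat_lit 77764), .ofNat (nat_lit 231202), .ofNat (nat_lit 99106), .ofNat (nat_lit 252544), .ofNat (nat_lit 80399), .ofNat (nat_lit 232045), .ofNat (nat_lit 101747), .ofNat (nat_lit 253393)⟩⟩, [⟨nat_lit 0, nat_lit 100, nat_lit 97, nat_lit 63, nat_lit 455330849⟩]⟩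
noncomputable def p035_l34 : Lf2 := ⟨nat_lit 0, nat_lit 5, [nat_lit 4, nat_lit 5, nat_lit 5, nat_lit 20], false, nat_lit 80, nat_lit 160, nat_lit 0, nat_lit 160, ⟨nat_lit 415, nat_lit 0, nat_lit 585, nat_lit 6, nat_lit 132, nat_lit 585, nat_lit 67, nat_lit 585, nat_lit 41667, nat_lit 265, nat_lit 163350, nat_lit 314, nat_lit 57740160, nat_lit 0, nat_lit 0, nat_lit 2533290, false, false⟩,
 nat_lit 6471, nat_lit 4455, nat_lit 0, nat_lit 0, nat_lit 6802, nat_lit 3595, nat_lit 1941, nat_lit 0, nat_lit 0, nat_lit 0, nat_lit 0, nat_lit 0, nat_lit 0, nat_lit 0, nat_lit 0, nat_lit 282600, nat_lit 0, nat_lit 0, [(nat_lit 9, [(nat_lit 5, nat_lit 504), (nat_lit 6, nat_lit 81)])],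
 ⟨p035_k18, nat_lit 0, nat_lit 0, nat_lit 283, nat_lit 0, nat_lit 410703, [nat_lit 2803731201, nat_lit 2429784400, nat_lit 2474609400], [], [nat_lit 11562961848, nat_lit 12233047815, nat_lit 11155097657, nat_lit 11214199451, nat_lit 12916523241, nat_lit 12764233733, nat_lit 17435453040, nat_lit 16644887189], nat_lit 1271250, nat_lit 1271250, nat_lit 205650, nat_lit 780000, nat_lit 490000, nat_lit 1100001, [nat_lit 1100000, nat_lit 1442500, nat_lit 1271250], [nat_lit 9, nat_lit 40, nat_lit 20, nat_lit 80, nat_lit 2, nat_lit 289, nat_lit 75, nat_lit 10]⟩, ⟨p035_k2, nat_lit 0, nat_lit 0, nat_lit 397, nat_lit 0, nat_lit 467940, [nat_lit 1945520000, nat_lit 2593750000, nat_lit 3306720000], [], [nat_lit 15254394280, nat_lit 14316875800, nat_lit 10820270000, nat_lit 11021952300, nat_lit 12285165400, nat_lit 11425330556, nat_lit 14352277855, nat_lit 13516616510], nat_lit 1271250, nat_lit 1271250, nat_lit 205650, nat_lit 780000,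 nat_lit 0, nat_lit 1100001, [nat_lit 1100000, nat_lit 1442500, nat_lit 1271250], [nat_lit 9, nat_lit 40, nat_lit 20, nat_lit 80, nat_lit 2, nat_lit 289, nat_lit 75, nat_lit 10]⟩,
 ⟨nat_lit 5477, nat_lit 5591, ⟨.ofNat (nat_lit 242495), .ofNat (nat_lit 401723), .ofNat (nat_lit 253169), .ofNat (nat_lit 412397), .ofNat (nat_lit 246166), .ofNat (nat_lit 403525), .ofNat (nat_lit 256844), .ofNat (nat_lit 414204)⟩, ⟨.ofNat (nat_lit 80399), .ofNat (nat_lit 232045), .ofNat (nat_lit 101747), .ofNat (nat_lit 253393), .ofNat (nat_lit 82986), .ofNat (nat_lit 232852), .ofNat (nat_lit 104343), .ofNat (nat_lit 254209)⟩⟩, []⟩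
noncomputable def p035_l35 : Lf2 := ⟨nat_lit 0, nat_lit 5, [nat_lit 4, nat_lit 5, nat_lit 5, nat_lit 20], false, nat_lit 80, nat_lit 160, nat_lit 0, nat_lit 160, ⟨nat_lit 1000, nat_lit 0, nat_lit 0, nat_lit 0, nat_lit 0, nat_lit 0, nat_lit 0, nat_lit 0, nat_lit 0, nat_lit 0, nat_lit 0, nat_lit 0, nat_lit 0, nat_lit 0, nat_lit 0, nat_lit 0, false, false⟩,
 nat_lit 17202, nat_lit 0, nat_lit 0, nat_lit 0, nat_lit 10476, nat_lit 10013, nat_lit 3481, nat_lit 0, nat_lit 0, nat_lit 0, nat_lit 0, nat_lit 0, nat_lit 0, nat_lit 0, nat_lit 0, nat_lit 0, nat_lit 0, nat_lit 0, [],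
 ⟨p035_k17, nat_lit 0, nat_lit 0, nat_lit 321, nat_lit 0, nat_lit 505614, [nat_lit 4688000000, nat_lit 6250000000, nat_lit 7968000000], [], [nat_lit 11265494948, nat_lit 13090017696, nat_lit 10779619050, nat_lit 9111179920, nat_lit 13533950858, nat_lit 12790523232, nat_lit 19100797070, nat_lit 16665640394], nat_lit 1271250, nat_lit 1271250, nat_lit 230001, nat_lit 780000, nat_lit 490000, nat_lit 1100001, [nat_lit 1100000, nat_lit 1442500, nat_lit 1271250], [nat_lit 9, nat_lit 40, nat_lit 20, nat_lit 80, nat_lit 2, nat_lit 289, nat_lit 75, nat_lit 10]⟩, ⟨p035_k14, nat_lit 0, nat_lit 0, nat_lit 425, nat_lit 0, nat_lit 532436, [nat_lit 4688000000, nat_lit 6250000000, nat_lit 7968000000], [], [nat_lit 33519164618, nat_lit 28304614504, nat_lit 23402444184, nat_lit 24704961832, nat_lit 25463572976, nat_lit 21390495352, nat_lit 30817603898, nat_lit 26162540172], nat_lit 1271250, nat_lit 1271250, nat_lit 230001, nat_lit 780000,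 nat_lit 0, nat_lit 1100001, [nat_lit 1100000, nat_lit 1442500, nat_lit 1271250], [nat_lit 9, nat_lit 40, nat_lit 20, nat_lit 80, nat_lit 2, nat_lit 289, nat_lit 75, nat_lit 10]⟩,
 zbF0, [⟨nat_lit 0, nat_lit 100, nat_lit 98, nat_lit 64, nat_lit 188366737⟩]⟩
noncomputable def p035_l36 : Lf2 := ⟨nat_lit 0, nat_lit 2, [nat_lit 10, nat_lit 5, nat_lit 5, nat_lit 20], false, nat_lit 80, nat_lit 160, nat_lit 160, nat_lit 288, ⟨nat_lit 0, nat_lit 0, nat_lit 1000, nat_lit 6, nat_lit 124, nat_lit 1000, nat_lit 67, nat_lit 1000, nat_lit 41667, nat_lit 265, nat_lit 144150, nat_lit 308, nat_lit 58443689, nat_lit 0, nat_lit 0, nat_lit 2409677, false, false⟩,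
 nat_lit 0, nat_lit 7537, nat_lit 0, nat_lit 0, nat_lit 4590, nat_lit 0, nat_lit 0, nat_lit 0, nat_lit 0, nat_lit 0, nat_lit 0, nat_lit 0, nat_lit 0, nat_lit 0, nat_lit 37, nat_lit 1000000, nat_lit 0, nat_lit 0, [(nat_lit 9, [(nat_lit 6, nat_lit 1000)])],
 ⟨p035_k16, nat_lit 0, nat_lit 0, nat_lit 229, nat_lit 0, nat_lit 366693, [nat_lit 1689600001, nat_lit 0], [], [nat_lit 10744106061, nat_lit 11794097665, nat_lit 10624143342, nat_lit 11313296522, nat_lit 12123251256, nat_lit 12801744227, nat_lit 11941394352, nat_lit 12554256202], nat_lit 1271250, nat_lit 1271250, nat_lit 157850, nat_lit 780000, nat_lit 490000, nat_lit 1100001, [nat_lit 1100000, nat_lit 1442500], [nat_lit 31, nat_lit 40, nat_lit 20, nat_lit 80, nat_lit 3, nat_lit 289, nat_lit 75, nat_lit 11]⟩, ⟨p035_k5, nat_lit 0, nat_lit 0, nat_lit 280, nat_lit 0, nat_lit 429281, [nat_lit 0, nat_lit 0, nat_lit 0], [], [nat_lit 0, nat_lit 0, nat_lit 0, nat_lit 0, nat_lit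 0, nat_lit 0, nat_lit 0, nat_lit 0], nat_lit 1271250, nat_lit 1271250, nat_lit 157850, nat_lit 780000, nat_lit 1100001, nat_lit 2196000, [nat_lit 1100000, nat_lit 1442500, nat_lit 1271250], [nat_lit 9, nat_lit 40, nat_lit 20, nat_lit 80, nat_lit 2, nat_lit 345, nat_lit 125, nat_lit 11]⟩,
 ⟨nat_lit 5477, nat_lit 5701, ⟨.ofNat (nat_lit 212791), .ofNat (nat_lit 389244), .ofNat (nat_lit 223462), .ofNat (nat_lit 399915), .ofNat (nat_lit 220501), .ofNat (nat_lit 392847), .ofNat (nat_lit 231179), .ofNat (nat_lit 403525)⟩, ⟨.ofNat (nat_lit 77764), .ofNat (nat_lit 231202), .ofNat (nat_lit 99106), .ofNat (nat_lit 252544), .ofNat (nat_lit 82986), .ofNat (nat_lit 232852), .ofNat (nat_lit 104343), .ofNat (nat_lit 254209)⟩⟩, [⟨nat_lit 0, nat_lit 100, nat_lit 95, nat_lit 64, nat_lit 125743157⟩]⟩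
noncomputable def p035_l37 : Lf2 := ⟨nat_lit 0, nat_lit 5, [nat_lit 4, nat_lit 5, nat_lit 5, nat_lit 20], false, nat_lit 80, nat_lit 160, nat_lit 160, nat_lit 288, ⟨nat_lit 0, nat_lit 0, nat_lit 1000, nat_lit 6, nat_lit 124, nat_lit 1000, nat_lit 67, nat_lit 1000, nat_lit 41667, nat_lit 265, nat_lit 144150, nat_lit 308, nat_lit 58443689, nat_lit 0, nat_lit 0, nat_lit 2409677, false, false⟩,
 nat_lit 0, nat_lit 7537, nat_lit 0, nat_lit 0, nat_lit 4590, nat_lit 0, nat_lit 0, nat_lit 0, nat_lit 0, nat_lit 0, nat_lit 0, nat_lit 0, nat_lit 0, nat_lit 0, nat_lit 117, nat_lit 1000000, nat_lit 0, nat_lit 0, [(nat_lit 9, [(nat_lit 6, nat_lit 1000)])],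
 ⟨p035_k17, nat_lit 0, nat_lit 0, nat_lit 244, nat_lit 0, nat_lit 302355, [nat_lit 2969600000, nat_lit 1600000000, nat_lit 226400000], [], [nat_lit 10744106061, nat_lit 11794097665, nat_lit 10624143340, nat_lit 11313296520, nat_lit 12123251254, nat_lit 12801744225, nat_lit 11941394350, nat_lit 12554256200], nat_lit 1271250, nat_lit 1271250, nat_lit 157850, nat_lit 780000, nat_lit 490000, nat_lit 1100001, [nat_lit 1100000, nat_lit 1442500, nat_lit 1271250], [nat_lit 9, nat_lit 40, nat_lit 20, nat_lit 80, nat_lit 2, nat_lit 289, nat_lit 75, nat_lit 10]⟩, ⟨p035_k0, nat_lit 0, nat_lit 0, nat_lit 305, nat_lit 0, nat_lit 355172, [nat_lit 0, nat_lit 0, nat_lit 0], [], [nat_lit 0, nat_lit 0, nat_lit 0, nat_lit 0, nat_lit 0, nat_lit 0, nat_lit 0, nat_lit 0], nat_lit 1271250, nat_lit 1271250, nat_lit 157850, nat_lit 780000, nat_lit 1100001, nat_lit 2196000, [nat_lit 1100000, nat_lit 1442500, nat_lit 1271250], [nat_lit 11, nat_lit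 40, nat_lit 20, nat_lit 80, nat_lit 1, nat_lit 401, nat_lit 175, nat_lit 11]⟩,
 ⟨nat_lit 5477, nat_lit 5701, ⟨.ofNat (nat_lit 212791), .ofNat (nat_lit 389244), .ofNat (nat_lit 223462), .ofNat (nat_lit 399915), .ofNat (nat_lit 220501), .ofNat (nat_lit 392847), .ofNat (nat_lit 231179), .ofNat (nat_lit 403525)⟩, ⟨.ofNat (nat_lit 77764), .ofNat (nat_lit 231202), .ofNat (nat_lit 99106), .ofNat (nat_lit 252544), .ofNat (nat_lit 82986), .ofNat (nat_lit 232852), .ofNat (nat_lit 104343), .ofNat (nat_lit 254209)⟩⟩, [⟨nat_lit 0, nat_lit 100, nat_lit 95, nat_lit 64, nat_lit 125743156⟩]⟩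
noncomputable def p035_l38 : Lf2 := ⟨nat_lit 0, nat_lit 5, [nat_lit 4, nat_lit 5, nat_lit 5, nat_lit 20], false, nat_lit 80, nat_lit 160, nat_lit 160, nat_lit 280, ⟨nat_lit 339, nat_lit 0, nat_lit 661, nat_lit 6, nat_lit 115, nat_lit 661, nat_lit 66, nat_lit 661, nat_lit 41667, nat_lit 265, nat_lit 123267, nat_lit 301, nat_lit 59179678, nat_lit 0, nat_lit 0, nat_lit 2273198, false, false⟩,
 nat_lit 6186, nat_lit 5580, nat_lit 0, nat_lit 0, nat_lit 7165, nat_lit 3436, nat_lit 2162, nat_lit 0, nat_lit 0, nat_lit 0, nat_lit 0, nat_lit 0, nat_lit 0, nat_lit 0, nat_lit 0, nat_lit 264400, nat_lit 0, nat_lit 0, [(nat_lit 9, [(nat_lit 5, nat_lit 661)])],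
 ⟨p035_k17, nat_lit 0, nat_lit 0, nat_lit 275, nat_lit 0, nat_lit 397187, [nat_lit 2598182401, nat_lit 1982319601, nat_lit 1892086999], [], [nat_lit 10983095900, nat_lit 11677228294, nat_lit 8794861275, nat_lit 9468286268, nat_lit 12218318807, nat_lit 12188425078, nat_lit 14044944518, nat_lit 13200896771], nat_lit 1271250, nat_lit 1271250, nat_lit 205650, nat_lit 490000, nat_lit 490000, nat_lit 1100001, [nat_lit 1100000, nat_lit 1442500, nat_lit 1271250], [nat_lit 9, nat_lit 40, nat_lit 20, nat_lit 80, nat_lit 2, nat_lit 272, nat_lit 60, nat_lit 9]⟩, ⟨p035_k2, nat_lit 0, nat_lit 0, nat_lit 278, nat_lit 0, nat_lit 441290, [nat_lit 1589232000, nat_lit 2118750000, nat_lit 2701152000], [], [nat_lit 11026857908, nat_lit 10130804084, nat_lit 7100674712, nat_lit 6219241068, nat_lit 8124774518, nat_lit 8384449054, nat_lit 8266923010, nat_lit 7473568122], nat_lit 1271250, nat_lit 1271250, nat_lit 205650, nat_lit 490000, nat_lit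 1100001, nat_lit 2127500, [nat_lit 1100000, nat_lit 1442500, nat_lit 1271250], [nat_lit 9, nat_lit 40, nat_lit 20, nat_lit 80, nat_lit 2, nat_lit 317, nat_lit 100, nat_lit 10]⟩,
 ⟨nat_lit 5590, nat_lit 5701, ⟨.ofNat (nat_lit 238805), .ofNat (nat_lit 323196), .ofNat (nat_lit 249476), .ofNat (nat_lit 333867), .ofNat (nat_lit 242495), .ofNat (nat_lit 325900), .ofNat (nat_lit 253169), .ofNat (nat_lit 336574)⟩, ⟨.ofNat (nat_lit 77764), .ofNat (nat_lit 231202), .ofNat (nat_lit 99106), .ofNat (nat_lit 252544), .ofNat (nat_lit 80399), .ofNat (nat_lit 232045), .ofNat (nat_lit 101747), .ofNat (nat_lit 253393)⟩⟩, [⟨nat_lit 0, nat_lit 100, nat_lit 97, nat_lit 63, nat_lit 206635183⟩]⟩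
noncomputable def p035_l39 : Lf2 := ⟨nat_lit 0, nat_lit 5, [nat_lit 4, nat_lit 5, nat_lit 5, nat_lit 20], false, nat_lit 80, nat_lit 160, nat_lit 160, nat_lit 280, ⟨nat_lit 1000, nat_lit 0, nat_lit 0, nat_lit 0, nat_lit 0, nat_lit 0, nat_lit 0, nat_lit 0, nat_lit 0, nat_lit 0, nat_lit 0, nat_lit 0, nat_lit 0, nat_lit 0, nat_lit 0, nat_lit 0, false, false⟩,
 nat_lit 25446, nat_lit 0, nat_lit 0, nat_lit 0, nat_lit 15497, nat_lit 14136, nat_lit 5354, nat_lit 0, nat_lit 0, nat_lit 0, nat_lit 0, nat_lit 0, nat_lit 0, nat_lit 0, nat_lit 0, nat_lit 0, nat_lit 0, nat_lit 0, [],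
 ⟨p035_k17, nat_lit 0, nat_lit 0, nat_lit 242, nat_lit 0, nat_lit 397187, [nat_lit 4688000000, nat_lit 6250000000, nat_lit 7968000000], [], [nat_lit 19383741159, nat_lit 17366116993, nat_lit 5656810177, nat_lit 6802613459, nat_lit 6637626323, nat_lit 7701715020, nat_lit 5217468603, nat_lit 6222494108], nat_lit 1271250, nat_lit 1271250, nat_lit 490000, nat_lit 780000, nat_lit 490000, nat_lit 1100001, [nat_lit 1100000, nat_lit 1442500, nat_lit 1271250], [nat_lit 9, nat_lit 40, nat_lit 20, nat_lit 80, nat_lit 2, nat_lit 289, nat_lit 75, nat_lit 9]⟩, ⟨p035_k2, nat_lit 0, nat_lit 0, nat_lit 248, nat_lit 0, nat_lit 441290, [nat_lit 4688000000, nat_lit 6250000000, nat_lit 7968000000], [], [nat_lit 17618803944, nat_lit 13992510000, nat_lit 7577409064, nat_lit 8807788624, nat_lit 20298628092, nat_lit 19365658328, nat_lit 24207041096, nat_lit 20830077920], nat_lit 1271250, nat_lit 1271250, nat_lit 490000, nat_lit 780000, nat_lit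 1100001, nat_lit 2127500, [nat_lit 1100000, nat_lit 1442500, nat_lit 1271250], [nat_lit 9, nat_lit 40, nat_lit 20, nat_lit 80, nat_lit 2, nat_lit 317, nat_lit 100, nat_lit 10]⟩,
 zbF0, [⟨nat_lit 7, nat_lit 100, nat_lit 100, nat_lit 55, nat_lit 593460133⟩]⟩
noncomputable def p035_l40 : Lf2 := ⟨nat_lit 0, nat_lit 5, [nat_lit 4, nat_lit 5, nat_lit 5, nat_lit 20], false, nat_lit 80, nat_lit 160, nat_lit 160, nat_lit 280, ⟨nat_lit 352, nat_lit 0, nat_lit 648, nat_lit 6, nat_lit 132, nat_lit 648, nat_lit 67, nat_lit 648, nat_lit 41667, nat_lit 265, nat_lit 163350, nat_lit 314, nat_lit 57740160, nat_lit 0, nat_lit 0, nat_lit 2533290, false, false⟩,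
 nat_lit 6425, nat_lit 4055, nat_lit 0, nat_lit 0, nat_lit 6525, nat_lit 3569, nat_lit 1756, nat_lit 0, nat_lit 0, nat_lit 0, nat_lit 0, nat_lit 0, nat_lit 0, nat_lit 0, nat_lit 0, nat_lit 382800, nat_lit 0, nat_lit 0, [(nat_lit 9, [(nat_lit 5, nat_lit 442), (nat_lit 6, nat_lit 206)])],
 ⟨p035_k18, nat_lit 0, nat_lit 0, nat_lit 283, nat_lit 0, nat_lit 410703, [nat_lit 2550950400, nat_lit 1956331200, nat_lit 1727030400], [], [nat_lit 11475766790, nat_lit 12127503281, nat_lit 11106703750, nat_lit 11229428300, nat_lit 12802205550, nat_lit 12720954420, nat_lit 17230667288, nat_lit 16472295900], nat_lit 1271250, nat_lit 1271250, nat_lit 205650, nat_lit 780000, nat_lit 490000, nat_lit 1100001, [nat_lit 1100000, nat_lit 1442500, nat_lit 1271250], [nat_lit 9, nat_lit 40, nat_lit 20, nat_lit 80, nat_lit 2, nat_lit 289, nat_lit 75, nat_lit 10]⟩, ⟨p035_k2, nat_lit 0, nat_lit 0, nat_lit 288, nat_lit 0, nat_lit 467940, [nat_lit 1650176000,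 nat_lit 2200000000, nat_lit 2804736000], [], [nat_lit 11450101084, nat_lit 10519362988, nat_lit 5315934232, nat_lit 5569815608, nat_lit 8435819958, nat_lit 8705509013, nat_lit 9684908883, nat_lit 8832306904], nat_lit 1271250, nat_lit 1271250, nat_lit 205650, nat_lit 780000, nat_lit 1100001, nat_lit 2127500, [nat_lit 1100000, nat_lit 1442500, nat_lit 1271250], [nat_lit 9, nat_lit 40, nat_lit 20, nat_lit 80, nat_lit 2, nat_lit 317, nat_lit 100, nat_lit 10]⟩,
 ⟨nat_lit 5477, nat_lit 5591, ⟨.ofNat (nat_lit 242495), .ofNat (nat_lit 401723), .ofNat (nat_lit 253169), .ofNat (nat_lit 412397), .ofNat (nat_lit 246166), .ofNat (nat_lit 403525), .ofNat (nat_lit 256844), .ofNat (nat_lit 414204)⟩, ⟨.ofNat (nat_lit 80399), .ofNat (nat_lit 232045), .ofNat (nat_lit 101747), .ofNat (nat_lit 253393), .ofNat (nat_lit 82986), .ofNat (nat_lit 232852), .ofNat (nat_lit 104343), .ofNat (nat_lit 254209)⟩⟩, [⟨nat_lit 0, nat_lit 100, nat_lit 96,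 nat_lit 65, nat_lit 33211576⟩]⟩
noncomputable def p035_l41 : Lf2 := ⟨nat_lit 0, nat_lit 5, [nat_lit 4, nat_lit 5, nat_lit 5, nat_lit 20], false, nat_lit 80, nat_lit 160, nat_lit 160, nat_lit 268, ⟨nat_lit 1000, nat_lit 0, nat_lit 0, nat_lit 0, nat_lit 0, nat_lit 0, nat_lit 0, nat_lit 0, nat_lit 0, nat_lit 0, nat_lit 0, nat_lit 0, nat_lit 0, nat_lit 0, nat_lit 0, nat_lit 0, false, false⟩,
 nat_lit 17477, nat_lit 0, nat_lit 0, nat_lit 0, nat_lit 10643, nat_lit 10173, nat_lit 3541, nat_lit 0, nat_lit 0, nat_lit 0, nat_lit 0, nat_lit 0, nat_lit 0, nat_lit 0, nat_lit 0, nat_lit 0, nat_lit 0, nat_lit 0, [],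
 ⟨p035_k17, nat_lit 0, nat_lit 0, nat_lit 321, nat_lit 0, nat_lit 505614, [nat_lit 4688000000, nat_lit 6250000000, nat_lit 7968000000], [], [nat_lit 11297354039, nat_lit 13143974728, nat_lit 10280680150, nat_lit 9072506060, nat_lit 13075093294, nat_lit 12805391576, nat_lit 18695611135, nat_lit 16221635142], nat_lit 1271250, nat_lit 1271250, nat_lit 230001, nat_lit 780000, nat_lit 490000, nat_lit 1100001, [nat_lit 1100000, nat_lit 1442500, nat_lit 1271250], [nat_lit 9, nat_lit 40, nat_lit 20, nat_lit 80, nat_lit 2, nat_lit 289, nat_lit 75, nat_lit 10]⟩, ⟨p035_k14, nat_lit 0, nat_lit 0, nat_lit 311, nat_lit 0, nat_lit 532436, [nat_lit 4688000000, nat_lit 6250000000, nat_lit 7968000000], [], [nat_lit 28822458378, nat_lit 23524583784, nat_lit 15752132232, nat_lit 17197547000, nat_lit 23269425183, nat_lit 24869525190, nat_lit 23379641453, nat_lit 21459683402], nat_lit 1271250, nat_lit 1271250, nat_lit 230001, nat_lit 780000,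 nat_lit 1100001, nat_lit 2024750, [nat_lit 1100000, nat_lit 1442500, nat_lit 1271250], [nat_lit 9, nat_lit 40, nat_lit 20, nat_lit 80, nat_lit 2, nat_lit 317, nat_lit 100, nat_lit 10]⟩,
 zbF0, [⟨nat_lit 0, nat_lit 100, nat_lit 99, nat_lit 72, nat_lit 426780039⟩, ⟨nat_lit 19, nat_lit 96, nat_lit 100, nat_lit 54, nat_lit 77819683⟩]⟩
noncomputable def b_VL_600_600_5_30 : St := ⟨true, nat_lit 1, nat_lit 1, nat_lit 1, nat_lit 40, nat_lit 260, nat_lit 280, nat_lit 240, nat_lit 280, nat_lit 24, nat_lit 120, nat_lit 20, nat_lit 40, nat_lit 80, nat_lit 160, nat_lit 0, nat_lit 288, nat_lit 0, nat_lit 20, nat_lit 0, nat_lit 0, nat_lit 0, nat_lit 0⟩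
theorem d_VL_600_600_5_30 (h : EB TB.env) : Dead b_VL_600_600_5_30 := chkB_sound0 h (T :=
(.spl (nat_lit 0) (nat_lit 270)
(.ord (.spl (nat_lit 6) (nat_lit 8)
(.spl (nat_lit 1) (nat_lit 260)
(.leaf p035_l25)
(.trZ (nat_lit 0) (nat_lit 100) (nat_lit 100) (nat_lit 60) (nat_lit 36) (.trX (nat_lit 19) (nat_lit 100) (nat_lit 99) (nat_lit 63) (nat_lit 268) (.leaf p035_l26))))
(.spl (nat_lit 0) (nat_lit 265)
(.ord (.leaf p035_l27))
(.spl (nat_lit 1) (nat_lit 260)
(.leaf p035_l28)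
(.trZ (nat_lit 0) (nat_lit 100) (nat_lit 99) (nat_lit 62) (nat_lit 36) (.trX (nat_lit 19) (nat_lit 100) (nat_lit 99) (nat_lit 63) (nat_lit 268) (.leaf p035_l29)))))))
(.trZ (nat_lit 0) (nat_lit 100) (nat_lit 96) (nat_lit 54) (nat_lit 28) (.spl (nat_lit 5) (nat_lit 160)
(.spl (nat_lit 1) (nat_lit 260)
(.spl (nat_lit 1) (nat_lit 250)
(.spl (nat_lit 6) (nat_lit 8)
(.leaf p035_l30)
(.leaf p035_l31))
(.trZ (nat_lit 0) (nat_lit 100) (nat_lit 97) (nat_lit 59) (nat_lit 36) (.spl (nat_lit 0) (nat_lit 275)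
(.spl (nat_lit 6) (nat_lit 8)
(.leaf p035_l32)
(.leaf p035_l33))
(.leaf p035_l34))))
(.trZ (nat_lit 0) (nat_lit 100) (nat_lit 98) (nat_lit 64) (nat_lit 40) (.leaf p035_l35)))
(.spl (nat_lit 1) (nat_lit 260)
(.spl (nat_lit 1) (nat_lit 250)
(.spl (nat_lit 6) (nat_lit 8)
(.leaf p035_l36)
(.leaf p035_l37))
(.trZ (nat_lit 0) (nat_lit 100) (nat_lit 97) (nat_lit 59) (nat_lit 36) (.trX (nat_lit 19) (nat_lit 100) (nat_lit 95) (nat_lit 62) (nat_lit 280) (.spl (nat_lit 0) (nat_lit 275)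
(.spl (nat_lit 2) (nat_lit 80)
(.leaf p035_l38)
(.leaf p035_l39))
(.leaf p035_l40)))))
(.trZ (nat_lit 0) (nat_lit 100) (nat_lit 98) (nat_lit 64) (nat_lit 40) (.trX (nat_lit 19) (nat_lit 100) (nat_lit 99) (nat_lit 63) (nat_lit 268) (.leaf p035_l41)))))))) (by decide +kernel)
noncomputable def p035_l42 : Lf2 := ⟨nat_lit 0, nat_lit 10, [nat_lit 0, nat_lit 5, nat_lit 5, nat_lit 20], false, nat_lit 80, nat_lit 160, nat_lit 0, nat_lit 288, ⟨nat_lit 0, nat_lit 0, nat_lit 1000, nat_lit 6, nat_lit 124, nat_lit 1000, nat_lit 65, nat_lit 1000, nat_lit 40017, nat_lit 264, nat_lit 144150, nat_lit 308, nat_lit 58491542, nat_lit 0, nat_lit 0, nat_lit 2393999, false, false⟩,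
 nat_lit 0, nat_lit 8144, nat_lit 0, nat_lit 0, nat_lit 4740, nat_lit 0, nat_lit 0, nat_lit 0, nat_lit 0, nat_lit 0, nat_lit 0, nat_lit 0, nat_lit 0, nat_lit 17146565415581, nat_lit 179, nat_lit 925600, nat_lit 0, nat_lit 0, [(nat_lit 9, [(nat_lit 5, nat_lit 124), (nat_lit 6, nat_lit 876)])],
 ⟨p035_k19, nat_lit 0, nat_lit 0, nat_lit 300, nat_lit 0, nat_lit 266321, [nat_lit 4014771201, nat_lit 3188202667, nat_lit 199525333], [], [nat_lit 10688955198, nat_lit 11379398778, nat_lit 9713071028, nat_lit 10411544642, nat_lit 11423666382, nat_lit 12058390715, nat_lit 11086747402, nat_lit 11709271502], nat_lit 1271250, nat_lit 1271250, nat_lit 134400, nat_lit 780000, nat_lit 490000, nat_lit 1100001, [nat_lit 1100000, nat_lit 1442500, nat_lit 1271250], [nat_lit 11, nat_lit 40, nat_lit 20, nat_lit 80, nat_lit 1, nat_lit 373, nat_lit 150, nat_lit 11]⟩, ⟨p035_k11, nat_lit 0, nat_lit 0, nat_lit 505, nat_lit 0, nat_lit 298123, [nat_lit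 0, nat_lit 0, nat_lit 0], [], [nat_lit 0, nat_lit 0, nat_lit 0, nat_lit 0, nat_lit 0, nat_lit 0, nat_lit 0, nat_lit 0], nat_lit 1271250, nat_lit 1271250, nat_lit 134400, nat_lit 780000, nat_lit 0, nat_lit 2034000, [nat_lit 1100000, nat_lit 1442500, nat_lit 1271250], [nat_lit 48, nat_lit 40, nat_lit 20, nat_lit 80, nat_lit 12, nat_lit 401, nat_lit 175, nat_lit 11]⟩,
 ⟨nat_lit 5700, nat_lit 5917, ⟨.ofNat (nat_lit 197129), .ofNat (nat_lit 385610), .ofNat (nat_lit 229138), .ofNat (nat_lit 417619), .ofNat (nat_lit 205119), .ofNat (nat_lit 389244), .ofNat (nat_lit 237132), .ofNat (nat_lit 421257)⟩, ⟨.ofNat (nat_lit 72344), .ofNat (nat_lit 229411), .ofNat (nat_lit 93684), .ofNat (nat_lit 250751), .ofNat (nat_lit 77764), .ofNat (nat_lit 231202), .ofNat (nat_lit 99106), .ofNat (nat_lit 252544)⟩⟩, [⟨nat_lit 0, nat_lit 100, nat_lit 100, nat_lit 70, nat_lit 130697472⟩]⟩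
noncomputable def p035_l43 : Lf2 := ⟨nat_lit 0, nat_lit 8, [nat_lit 50, nat_lit 5, nat_lit 5, nat_lit 20], true, nat_lit 80, nat_lit 160, nat_lit 0, nat_lit 160, ⟨nat_lit 0, nat_lit 0, nat_lit 1000, nat_lit 6, nat_lit 103, nat_lit 1000, nat_lit 67, nat_lit 1000, nat_lit 41667, nat_lit 265, nat_lit 98817, nat_lit 292, nat_lit 60131413, nat_lit 0, nat_lit 0, nat_lit 2087146, false, false⟩,
 nat_lit 0, nat_lit 8011, nat_lit 0, nat_lit 0, nat_lit 4878, nat_lit 0, nat_lit 0, nat_lit 0, nat_lit 0, nat_lit 0, nat_lit 0, nat_lit 0, nat_lit 0, nat_lit 0, nat_lit 166, nat_lit 849400, nat_lit 0, nat_lit 0, [(nat_lit 9, [(nat_lit 5, nat_lit 251), (nat_lit 6, nat_lit 749)])],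
 ⟨p035_k20, nat_lit 0, nat_lit 0, nat_lit 295, nat_lit 0, nat_lit 252919, [nat_lit 3861228801, nat_lit 2965964001, nat_lit 175207999], [], [nat_lit 11550075819, nat_lit 12249077809, nat_lit 10598446937, nat_lit 11282760479, nat_lit 12188359513, nat_lit 12872467537, nat_lit 11302506349, nat_lit 11926810626], nat_lit 1271250, nat_lit 1271250, nat_lit 157850, nat_lit 356250, nat_lit 490000, nat_lit 1100001, [nat_lit 1100000, nat_lit 1442500, nat_lit 1271250], [nat_lit 11, nat_lit 40, nat_lit 20, nat_lit 80, nat_lit 1, nat_lit 345, nat_lit 125, nat_lit 10]⟩, C1.Rw.none,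
 ⟨nat_lit 5477, nat_lit 5701, ⟨.ofNat (nat_lit 212791), .ofNat (nat_lit 274166), .ofNat (nat_lit 234133), .ofNat (nat_lit 295508), .ofNat (nat_lit 220501), .ofNat (nat_lit 280447), .ofNat (nat_lit 241858), .ofNat (nat_lit 301804)⟩, ⟨.ofNat (nat_lit 77764), .ofNat (nat_lit 231202), .ofNat (nat_lit 99106), .ofNat (nat_lit 252544), .ofNat (nat_lit 82986), .ofNat (nat_lit 232852), .ofNat (nat_lit 104343), .ofNat (nat_lit 254209)⟩⟩, [⟨nat_lit 0, nat_lit 100, nat_lit 96, nat_lit 69, nat_lit 262139804⟩]⟩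
noncomputable def p035_l44 : Lf2 := ⟨nat_lit 0, nat_lit 8, [nat_lit 50, nat_lit 5, nat_lit 5, nat_lit 20], false, nat_lit 80, nat_lit 160, nat_lit 0, nat_lit 160, ⟨nat_lit 1000, nat_lit 0, nat_lit 0, nat_lit 0, nat_lit 0, nat_lit 0, nat_lit 0, nat_lit 0, nat_lit 0, nat_lit 0, nat_lit 0, nat_lit 0, nat_lit 0, nat_lit 0, nat_lit 0, nat_lit 0, false, false⟩,
 nat_lit 17663, nat_lit 2807, nat_lit 0, nat_lit 0, nat_lit 12466, nat_lit 10281, nat_lit 2350, nat_lit 0, nat_lit 0, nat_lit 0, nat_lit 0, nat_lit 0, nat_lit 0, nat_lit 0, nat_lit 0, nat_lit 0, nat_lit 0, nat_lit 0, [],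
 ⟨p035_k20, nat_lit 0, nat_lit 0, nat_lit 318, nat_lit 0, nat_lit 340962, [nat_lit 4688000000, nat_lit 6250000000, nat_lit 9842000000], [], [nat_lit 13112942476, nat_lit 14352349150, nat_lit 11313074036, nat_lit 12531499310, nat_lit 12669515028, nat_lit 12970044702, nat_lit 13556282278, nat_lit 11249372830], nat_lit 1271250, nat_lit 1271250, nat_lit 230001, nat_lit 356250, nat_lit 490000, nat_lit 1100001, [nat_lit 1100000, nat_lit 1442500, nat_lit 1271250], [nat_lit 11, nat_lit 40, nat_lit 20, nat_lit 80, nat_lit 1, nat_lit 345, nat_lit 125, nat_lit 10]⟩, ⟨p035_k21, nat_lit 0, nat_lit 0, nat_lit 436, nat_lit 0, nat_lit 359400, [nat_lit 4688000000, nat_lit 6250000000, nat_lit 9842000000], [], [nat_lit 33504581666, nat_lit 33045022092, nat_lit 29085672284, nat_lit 31321085248, nat_lit 25031329712, nat_lit 24297676128, nat_lit 25834413026, nat_lit 23141503520], nat_lit 1271250, nat_lit 1271250, nat_lit 230001, nat_lit 356250,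 nat_lit 0, nat_lit 1100001, [nat_lit 1100000, nat_lit 1442500, nat_lit 1271250], [nat_lit 11, nat_lit 40, nat_lit 20, nat_lit 80, nat_lit 1, nat_lit 345, nat_lit 125, nat_lit 10]⟩,
 zbF0, [⟨nat_lit 0, nat_lit 100, nat_lit 99, nat_lit 72, nat_lit 1225971493⟩]⟩
noncomputable def p035_l45 : Lf2 := ⟨nat_lit 0, nat_lit 8, [nat_lit 50, nat_lit 5, nat_lit 5, nat_lit 20], false, nat_lit 80, nat_lit 160, nat_lit 0, nat_lit 160, ⟨nat_lit 1000, nat_lit 0, nat_lit 0, nat_lit 0, nat_lit 0, nat_lit 0, nat_lit 0, nat_lit 0, nat_lit 0, nat_lit 0, nat_lit 0, nat_lit 0, nat_lit 0, nat_lit 0, nat_lit 0, nat_lit 0, false, false⟩,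
 nat_lit 23179, nat_lit 0, nat_lit 0, nat_lit 0, nat_lit 14116, nat_lit 12270, nat_lit 2235, nat_lit 0, nat_lit 0, nat_lit 1596, nat_lit 0, nat_lit 0, nat_lit 0, nat_lit 0, nat_lit 0, nat_lit 0, nat_lit 0, nat_lit 0, [],
 ⟨p035_k20, nat_lit 0, nat_lit 0, nat_lit 303, nat_lit 0, nat_lit 340962, [nat_lit 4688000000, nat_lit 6250000000, nat_lit 9842000000], [], [nat_lit 15187191670, nat_lit 12419291435, nat_lit 9600636183, nat_lit 10905412795, nat_lit 10838302978, nat_lit 10721334960, nat_lit 12272746266, nat_lit 9274178779], nat_lit 1271250, nat_lit 1271250, nat_lit 356250, nat_lit 490000, nat_lit 490000, nat_lit 1100001, [nat_lit 1100000, nat_lit 1442500, nat_lit 1271250], [nat_lit 11, nat_lit 40, nat_lit 20, nat_lit 80, nat_lit 1, nat_lit 373, nat_lit 150, nat_lit 11]⟩, ⟨p035_k22, nat_lit 0, nat_lit 0, nat_lit 438, nat_lit 0, nat_lit 401779, [nat_lit 4688000000, nat_lit 6250000000, nat_lit 9842000000], [], [nat_lit 33373309160,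 nat_lit 27573737600, nat_lit 27006406160, nat_lit 26225028480, nat_lit 28505334440, nat_lit 17474038240, nat_lit 29762890200, nat_lit 18199494960], nat_lit 1271250, nat_lit 1271250, nat_lit 356250, nat_lit 490000, nat_lit 0, nat_lit 1100001, [nat_lit 1100000, nat_lit 1442500, nat_lit 1271250], [nat_lit 11, nat_lit 40, nat_lit 20, nat_lit 80, nat_lit 1, nat_lit 373, nat_lit 150, nat_lit 11]⟩,
 zbF0, []⟩
noncomputable def p035_l46 : Lf2 := ⟨nat_lit 0, nat_lit 8, [nat_lit 50, nat_lit 5, nat_lit 5, nat_lit 20], true, nat_lit 80, nat_lit 160, nat_lit 160, nat_lit 288, ⟨nat_lit 0, nat_lit 0, nat_lit 1000, nat_lit 6, nat_lit 103, nat_lit 1000, nat_lit 67, nat_lit 1000, nat_lit 41667, nat_lit 265, nat_lit 98817, nat_lit 292, nat_lit 60131413, nat_lit 0, nat_lit 0, nat_lit 2087146, false, false⟩,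
 nat_lit 0, nat_lit 8011, nat_lit 0, nat_lit 0, nat_lit 4878, nat_lit 0, nat_lit 0, nat_lit 0, nat_lit 0, nat_lit 0, nat_lit 0, nat_lit 0, nat_lit 0, nat_lit 0, nat_lit 166, nat_lit 849400, nat_lit 0, nat_lit 0, [(nat_lit 9, [(nat_lit 5, nat_lit 251), (nat_lit 6, nat_lit 749)])],
 ⟨p035_k20, nat_lit 0, nat_lit 0, nat_lit 295, nat_lit 0, nat_lit 252919, [nat_lit 3861228801, nat_lit 2965964001, nat_lit 175207999], [], [nat_lit 11550075819, nat_lit 12249077809, nat_lit 10598446937, nat_lit 11282760479, nat_lit 12188359513, nat_lit 12872467537, nat_lit 11302506349, nat_lit 11926810626], nat_lit 1271250, nat_lit 1271250, nat_lit 157850, nat_lit 356250, nat_lit 490000, nat_lit 1100001, [nat_lit 1100000, nat_lit 1442500, nat_lit 1271250], [nat_lit 11, nat_lit 40, nat_lit 20, nat_lit 80, nat_lit 1, nat_lit 345, nat_lit 125, nat_lit 10]⟩, C1.Rw.none,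
 ⟨nat_lit 5477, nat_lit 5701, ⟨.ofNat (nat_lit 212791), .ofNat (nat_lit 274166), .ofNat (nat_lit 234133), .ofNat (nat_lit 295508), .ofNat (nat_lit 220501), .ofNat (nat_lit 280447), .ofNat (nat_lit 241858), .ofNat (nat_lit 301804)⟩, ⟨.ofNat (nat_lit 77764), .ofNat (nat_lit 231202), .ofNat (nat_lit 99106), .ofNat (nat_lit 252544), .ofNat (nat_lit 82986), .ofNat (nat_lit 232852), .ofNat (nat_lit 104343), .ofNat (nat_lit 254209)⟩⟩, [⟨nat_lit 0, nat_lit 100, nat_lit 96, nat_lit 69, nat_lit 262139804⟩]⟩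
noncomputable def p035_l47 : Lf2 := ⟨nat_lit 0, nat_lit 8, [nat_lit 50, nat_lit 5, nat_lit 5, nat_lit 20], false, nat_lit 80, nat_lit 160, nat_lit 160, nat_lit 268, ⟨nat_lit 872, nat_lit 0, nat_lit 128, nat_lit 6, nat_lit 116, nat_lit 128, nat_lit 67, nat_lit 128, nat_lit 41667, nat_lit 265, nat_lit 126150, nat_lit 302, nat_lit 59078061, nat_lit 0, nat_lit 0, nat_lit 2293828, false, false⟩,
 nat_lit 22746, nat_lit 0, nat_lit 0, nat_lit 0, nat_lit 13852, nat_lit 13240, nat_lit 1818, nat_lit 0, nat_lit 0, nat_lit 778, nat_lit 0, nat_lit 0, nat_lit 0, nat_lit 0, nat_lit 0, nat_lit 51200, nat_lit 0, nat_lit 0, [(nat_lit 9, [(nat_lit 5, nat_lit 128)])],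
 ⟨p035_k20, nat_lit 0, nat_lit 0, nat_lit 318, nat_lit 0, nat_lit 340962, [nat_lit 4283315200, nat_lit 5433189334, nat_lit 8271593600], [], [nat_lit 13489736422, nat_lit 14828642650, nat_lit 11448925742, nat_lit 12764910170, nat_lit 11916296606, nat_lit 13091095264, nat_lit 10320652284, nat_lit 11133123610], nat_lit 1271250, nat_lit 1271250, nat_lit 230001, nat_lit 356250, nat_lit 490000, nat_lit 1100001, [nat_lit 1100000, nat_lit 1442500, nat_lit 1271250], [nat_lit 11, nat_lit 40, nat_lit 20, nat_lit 80, nat_lit 1, nat_lit 345, nat_lit 125, nat_lit 10]⟩, ⟨p035_k21, nat_lit 0, nat_lit 0, nat_lit 296, nat_lit 0, nat_lit 359400, [nat_lit 4087936000, nat_lit 5450000000, nat_lit 8582224000], [], [nat_lit 24895441104, nat_lit 18000340384, nat_lit 18026926304, nat_lit 14178483398, nat_lit 20082495184, nat_lit 22027554584, nat_lit 18132362734, nat_lit 19673694135], nat_lit 1271250, nat_lit 1271250, nat_lit 230001, nat_lit 356250,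 nat_lit 1100001, nat_lit 2024750, [nat_lit 1100000, nat_lit 1442500, nat_lit 1271250], [nat_lit 11, nat_lit 40, nat_lit 20, nat_lit 80, nat_lit 1, nat_lit 401, nat_lit 175, nat_lit 11]⟩,
 ⟨nat_lit 5477, nat_lit 5701, ⟨.ofNat (nat_lit 257148), .ofNat (nat_lit 295508), .ofNat (nat_lit 278490), .ofNat (nat_lit 316850), .ofNat (nat_lit 264337), .ofNat (nat_lit 301804), .ofNat (nat_lit 285695), .ofNat (nat_lit 323161)⟩, ⟨.ofNat (nat_lit 77764), .ofNat (nat_lit 231202), .ofNat (nat_lit 99106), .ofNat (nat_lit 252544), .ofNat (nat_lit 82986), .ofNat (nat_lit 232852), .ofNat (nat_lit 104343), .ofNat (nat_lit 254209)⟩⟩, [⟨nat_lit 0, nat_lit 100, nat_lit 99, nat_lit 72, nat_lit 1804146724⟩]⟩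
noncomputable def p035_l48 : Lf2 := ⟨nat_lit 0, nat_lit 8, [nat_lit 50, nat_lit 5, nat_lit 5, nat_lit 20], false, nat_lit 80, nat_lit 160, nat_lit 160, nat_lit 288, ⟨nat_lit 499, nat_lit 0, nat_lit 501, nat_lit 6, nat_lit 127, nat_lit 501, nat_lit 67, nat_lit 501, nat_lit 41667, nat_lit 265, nat_lit 150417, nat_lit 310, nat_lit 58153113, nat_lit 0, nat_lit 0, nat_lit 2460768, false, false⟩,
 nat_lit 16264, nat_lit 0, nat_lit 0, nat_lit 0, nat_lit 9904, nat_lit 8610, nat_lit 1853, nat_lit 0, nat_lit 0, nat_lit 38, nat_lit 0, nat_lit 0, nat_lit 0, nat_lit 0, nat_lit 0, nat_lit 125250, nat_lit 0, nat_lit 0, [(nat_lit 9, [(nat_lit 4, nat_lit 501)])],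
 ⟨p035_k20, nat_lit 0, nat_lit 0, nat_lit 303, nat_lit 0, nat_lit 340962, [nat_lit 3892812800, nat_lit 3090627200, nat_lit 4062464000], [], [nat_lit 13323884130, nat_lit 11137794016, nat_lit 8295089640, nat_lit 9992830176, nat_lit 12347316882, nat_lit 11175978240, nat_lit 13513379954, nat_lit 11179967842], nat_lit 1271250, nat_lit 1271250, nat_lit 356250, nat_lit 490000, nat_lit 490000, nat_lit 1100001, [nat_lit 1100000, nat_lit 1442500, nat_lit 1271250], [nat_lit 11, nat_lit 40, nat_lit 20, nat_lit 80, nat_lit 1, nat_lit 373, nat_lit 150, nat_lit 11]⟩, ⟨p035_k22, nat_lit 0, nat_lit 0, nat_lit 300, nat_lit 0, nat_lit 401779, [nat_lit 2339312000, nat_lit 3118750000, nat_lit 4911158000], [], [nat_lit 14173955868, nat_lit 10001861112, nat_lit 9706226868, nat_lit 9105654796, nat_lit 11747433700, nat_lit 13505023345, nat_lit 11440427548, nat_lit 12471229943], nat_lit 1271250, nat_lit 1271250, nat_lit 356250, nat_lit 490000,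 nat_lit 1100001, nat_lit 2196000, [nat_lit 1100000, nat_lit 1442500, nat_lit 1271250], [nat_lit 11, nat_lit 40, nat_lit 20, nat_lit 80, nat_lit 1, nat_lit 401, nat_lit 175, nat_lit 11]⟩,
 ⟨nat_lit 5477, nat_lit 5701, ⟨.ofNat (nat_lit 274166), .ofNat (nat_lit 312525), .ofNat (nat_lit 316850), .ofNat (nat_lit 355209), .ofNat (nat_lit 280447), .ofNat (nat_lit 317913), .ofNat (nat_lit 323161), .ofNat (nat_lit 360628)⟩, ⟨.ofNat (nat_lit 77764), .ofNat (nat_lit 231202), .ofNat (nat_lit 99106), .ofNat (nat_lit 252544), .ofNat (nat_lit 82986), .ofNat (nat_lit 232852), .ofNat (nat_lit 104343), .ofNat (nat_lit 254209)⟩⟩, [⟨nat_lit 7, nat_lit 100, nat_lit 98, nat_lit 54, nat_lit 463176833⟩]⟩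
noncomputable def p035_l49 : Lf2 := ⟨nat_lit 0, nat_lit 10, [nat_lit 0, nat_lit 5, nat_lit 5, nat_lit 20], true, nat_lit 80, nat_lit 160, nat_lit 0, nat_lit 288, ⟨nat_lit 0, nat_lit 0, nat_lit 1000, nat_lit 6, nat_lit 111, nat_lit 1000, nat_lit 67, nat_lit 1000, nat_lit 41667, nat_lit 265, nat_lit 114817, nat_lit 298, nat_lit 59529351, nat_lit 0, nat_lit 0, nat_lit 2207584, false, false⟩,
 nat_lit 0, nat_lit 8186, nat_lit 0, nat_lit 0, nat_lit 4985, nat_lit 0, nat_lit 0, nat_lit 0, nat_lit 0, nat_lit 0, nat_lit 0, nat_lit 0, nat_lit 0, nat_lit 0, nat_lit 164, nat_lit 842200, nat_lit 0, nat_lit 0, [(nat_lit 9, [(nat_lit 5, nat_lit 263), (nat_lit 6, nat_lit 737)])],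
 ⟨p035_k23, nat_lit 0, nat_lit 0, nat_lit 214, nat_lit 0, nat_lit 173684, [nat_lit 3834374400, nat_lit 2929532001, nat_lit 151303999], [], [nat_lit 11567983427, nat_lit 12274722052, nat_lit 10320024054, nat_lit 10998806699, nat_lit 12178754531, nat_lit 12898994121, nat_lit 11014167329, nat_lit 11633118800], nat_lit 1271250, nat_lit 1271250, nat_lit 157850, nat_lit 490000, nat_lit 490000, nat_lit 1100001, [nat_lit 1100000, nat_lit 1442500, nat_lit 1271250], [nat_lit 11, nat_lit 40, nat_lit 20, nat_lit 80, nat_lit 1, nat_lit 373, nat_lit 150, nat_lit 11]⟩, C1.Rw.none,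
 ⟨nat_lit 5477, nat_lit 5701, ⟨.ofNat (nat_lit 212791), .ofNat (nat_lit 312525), .ofNat (nat_lit 234133), .ofNat (nat_lit 333867), .ofNat (nat_lit 220501), .ofNat (nat_lit 317913), .ofNat (nat_lit 241858), .ofNat (nat_lit 339271)⟩, ⟨.ofNat (nat_lit 77764), .ofNat (nat_lit 231202), .ofNat (nat_lit 99106), .ofNat (nat_lit 252544), .ofNat (nat_lit 82986), .ofNat (nat_lit 232852), .ofNat (nat_lit 104343), .ofNat (nat_lit 254209)⟩⟩, [⟨nat_lit 0, nat_lit 100, nat_lit 96, nat_lit 69, nat_lit 236311445⟩]⟩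
noncomputable def p035_l50 : Lf2 := ⟨nat_lit 0, nat_lit 10, [nat_lit 0, nat_lit 5, nat_lit 5, nat_lit 20], false, nat_lit 80, nat_lit 160, nat_lit 0, nat_lit 268, ⟨nat_lit 168, nat_lit 0, nat_lit 832, nat_lit 6, nat_lit 124, nat_lit 832, nat_lit 67, nat_lit 832, nat_lit 41667, nat_lit 265, nat_lit 144150, nat_lit 308, nat_lit 58438632, nat_lit 0, nat_lit 0, nat_lit 2410577, false, false⟩,
 nat_lit 5002, nat_lit 4106, nat_lit 0, nat_lit 0, nat_lit 5546, nat_lit 2911, nat_lit 358, nat_lit 0, nat_lit 0, nat_lit 0, nat_lit 0, nat_lit 0, nat_lit 0, nat_lit 0, nat_lit 101, nat_lit 832000, nat_lit 0, nat_lit 0, [(nat_lit 9, [(nat_lit 6, nat_lit 832)])],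
 ⟨p035_k23, nat_lit 0, nat_lit 0, nat_lit 288, nat_lit 0, nat_lit 263720, [nat_lit 3316787201, nat_lit 2713349334, nat_lit 175329066], [], [nat_lit 11159398422, nat_lit 11902025216, nat_lit 10224292214, nat_lit 10941535336, nat_lit 11662525054, nat_lit 12351595472, nat_lit 10785991804, nat_lit 11452674402], nat_lit 1271250, nat_lit 1271250, nat_lit 230001, nat_lit 490000, nat_lit 490000, nat_lit 1100001, [nat_lit 1100000, nat_lit 1442500, nat_lit 1271250], [nat_lit 11, nat_lit 40, nat_lit 20, nat_lit 80, nat_lit 1, nat_lit 373, nat_lit 150, nat_lit 11]⟩, ⟨p035_k19, nat_lit 0, nat_lit 0, nat_lit 361, nat_lit 0, nat_lit 278149, [nat_lit 787584000, nat_lit 1050000000, nat_lit 1653456000], [], [nat_lit 5831329300, nat_lit 6391028500, nat_lit 4934118582, nat_lit 5474272696, nat_lit 4702394157, nat_lit 4680357347, nat_lit 5240042701, nat_lit 3916551311], nat_lit 1271250, nat_lit 1271250, nat_lit 230001, nat_lit 490000, nat_lit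 0, nat_lit 1892750, [nat_lit 1100000, nat_lit 1442500, nat_lit 1271250], [nat_lit 11, nat_lit 40, nat_lit 20, nat_lit 80, nat_lit 1, nat_lit 401, nat_lit 175, nat_lit 12]⟩,
 ⟨nat_lit 5477, nat_lit 5701, ⟨.ofNat (nat_lit 257148), .ofNat (nat_lit 333867), .ofNat (nat_lit 278490), .ofNat (nat_lit 355209), .ofNat (nat_lit 264337), .ofNat (nat_lit 339271), .ofNat (nat_lit 285695), .ofNat (nat_lit 360628)⟩, ⟨.ofNat (nat_lit 77764), .ofNat (nat_lit 231202), .ofNat (nat_lit 99106), .ofNat (nat_lit 252544), .ofNat (nat_lit 82986), .ofNat (nat_lit 232852), .ofNat (nat_lit 104343), .ofNat (nat_lit 254209)⟩⟩, [⟨nat_lit 0, nat_lit 100, nat_lit 99, nat_lit 72, nat_lit 179045394⟩, ⟨nat_lit 0, nat_lit 100, nat_lit 100, nat_lit 80, nat_lit 250965347⟩]⟩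
noncomputable def p035_l51 : Lf2 := ⟨nat_lit 0, nat_lit 10, [nat_lit 0, nat_lit 5, nat_lit 5, nat_lit 20], false, nat_lit 80, nat_lit 160, nat_lit 0, nat_lit 288, ⟨nat_lit 38, nat_lit 0, nat_lit 962, nat_lit 6, nat_lit 150, nat_lit 962, nat_lit 67, nat_lit 962, nat_lit 41667, nat_lit 265, nat_lit 209067, nat_lit 327, nat_lit 56104212, nat_lit 0, nat_lit 0, nat_lit 2789603, false, false⟩,
 nat_lit 626, nat_lit 7796, nat_lit 0, nat_lit 0, nat_lit 5129, nat_lit 331, nat_lit 0, nat_lit 0, nat_lit 0, nat_lit 1, nat_lit 0, nat_lit 0, nat_lit 0, nat_lit 0, nat_lit 171, nat_lit 962000, nat_lit 0, nat_lit 0, [(nat_lit 9, [(nat_lit 6, nat_lit 962)])],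
 ⟨p035_k23, nat_lit 0, nat_lit 0, nat_lit 293, nat_lit 0, nat_lit 347692, [nat_lit 3970035201, nat_lit 3245122667, nat_lit 207411733], [], [nat_lit 10097196860, nat_lit 10785851713, nat_lit 10114072552, nat_lit 10769502397, nat_lit 10757343895, nat_lit 11384470212, nat_lit 10998046287, nat_lit 11645627822], nat_lit 1271250, nat_lit 1271250, nat_lit 490000, nat_lit 780000, nat_lit 490000, nat_lit 1100001, [nat_lit 1100000, nat_lit 1442500, nat_lit 1271250], [nat_lit 11, nat_lit 40, nat_lit 20, nat_lit 80, nat_lit 1, nat_lit 373, nat_lit 150, nat_lit 11]⟩, ⟨p035_k11, nat_lit 0, nat_lit 0, nat_lit 506, nat_lit 0, nat_lit 410507, [nat_lit 178144000, nat_lit 237500000, nat_lit 451136000], [], [nat_lit 2035488452, nat_lit 1680035496, nat_lit 1680035496, nat_lit 1358619967, nat_lit 1407960708, nat_lit 1285349189, nat_lit 1533039320, nat_lit 1241699368], nat_lit 1271250, nat_lit 1271250, nat_lit 490000, nat_lit 780000, nat_lit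 0, nat_lit 2034000, [nat_lit 1100000, nat_lit 1442500, nat_lit 1271250], [nat_lit 48, nat_lit 40, nat_lit 20, nat_lit 80, nat_lit 12, nat_lit 401, nat_lit 175, nat_lit 11]⟩,
 ⟨nat_lit 5477, nat_lit 5701, ⟨.ofNat (nat_lit 312525), .ofNat (nat_lit 389244), .ofNat (nat_lit 355209), .ofNat (nat_lit 431928), .ofNat (nat_lit 317913), .ofNat (nat_lit 392847), .ofNat (nat_lit 360628), .ofNat (nat_lit 435561)⟩, ⟨.ofNat (nat_lit 77764), .ofNat (nat_lit 231202), .ofNat (nat_lit 99106), .ofNat (nat_lit 252544), .ofNat (nat_lit 82986), .ofNat (nat_lit 232852), .ofNat (nat_lit 104343), .ofNat (nat_lit 254209)⟩⟩, []⟩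
noncomputable def b_VL_600_600_5_31 : St := ⟨true, nat_lit 1, nat_lit 1, nat_lit 1, nat_lit 40, nat_lit 260, nat_lit 280, nat_lit 240, nat_lit 280, nat_lit 24, nat_lit 120, nat_lit 20, nat_lit 40, nat_lit 80, nat_lit 160, nat_lit 0, nat_lit 288, nat_lit 20, nat_lit 40, nat_lit 0, nat_lit 0, nat_lit 0, nat_lit 0⟩
theorem d_VL_600_600_5_31 (h : EB TB.env) : Dead b_VL_600_600_5_31 := chkB_sound0 h (T :=
(.spl (nat_lit 0) (nat_lit 270)
(.ord (.leaf p035_l42))
(.trZ (nat_lit 0) (nat_lit 100) (nat_lit 96) (nat_lit 54) (nat_lit 28) (.spl (nat_lit 2) (nat_lit 80)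
(.spl (nat_lit 6) (nat_lit 32)
(.spl (nat_lit 5) (nat_lit 160)
(.spl (nat_lit 2) (nat_lit 60)
(.spl (nat_lit 1) (nat_lit 260)
(.leaf p035_l43)
(.trZ (nat_lit 0) (nat_lit 100) (nat_lit 98) (nat_lit 64) (nat_lit 40) (.leaf p035_l44)))
(.leaf p035_l45))
(.spl (nat_lit 2) (nat_lit 60)
(.spl (nat_lit 1) (nat_lit 260)
(.leaf p035_l46)
(.trZ (nat_lit 0) (nat_lit 100) (nat_lit 98) (nat_lit 64) (nat_lit 40) (.trX (nat_lit 19) (nat_lit 100) (nat_lit 99) (nat_lit 63) (nat_lit 268) (.leaf p035_l47))))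
(.leaf p035_l48)))
(.spl (nat_lit 1) (nat_lit 260)
(.leaf p035_l49)
(.trZ (nat_lit 0) (nat_lit 100) (nat_lit 98) (nat_lit 64) (nat_lit 40) (.trX (nat_lit 19) (nat_lit 100) (nat_lit 99) (nat_lit 63) (nat_lit 268) (.leaf p035_l50)))))
(.leaf p035_l51))))) (by decide +kernel)
noncomputable def p035_l52 : Lf2 := ⟨nat_lit 0, nat_lit 5, [nat_lit 4, nat_lit 5, nat_lit 5, nat_lit 20], false, nat_lit 80, nat_lit 160, nat_lit 0, nat_lit 80, ⟨nat_lit 1000, nat_lit 0, nat_lit 0, nat_lit 0, nat_lit 0, nat_lit 0, nat_lit 0, nat_lit 0, nat_lit 0, nat_lit 0, nat_lit 0, nat_lit 0, nat_lit 0, nat_lit 0, nat_lit 0, nat_lit 0, false, false⟩,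
 nat_lit 11687, nat_lit 0, nat_lit 0, nat_lit 0, nat_lit 6186, nat_lit 6186, nat_lit 978, nat_lit 0, nat_lit 0, nat_lit 1323, nat_lit 0, nat_lit 0, nat_lit 0, nat_lit 0, nat_lit 0, nat_lit 0, nat_lit 0, nat_lit 0, [],
 ⟨p035_k0, nat_lit 0, nat_lit 0, nat_lit 374, nat_lit 0, nat_lit 593938, [nat_lit 4688000000, nat_lit 6250000000, nat_lit 9842000000], [], [nat_lit 32260939704, nat_lit 27975719868, nat_lit 26541394268, nat_lit 28267535732, nat_lit 26406390476, nat_lit 28038338612, nat_lit 26723243124, nat_lit 28246564260], nat_lit 1271250, nat_lit 1271250, nat_lit 780000, nat_lit 1100001, nat_lit 490000, nat_lit 1100001, [nat_lit 1100000, nat_lit 1442500, nat_lit 1271250], [nat_lit 11, nat_lit 40, nat_lit 20, nat_lit 80, nat_lit 1, nat_lit 373, nat_lit 150, nat_lit 11]⟩, ⟨p035_k0, nat_lit 0, nat_lit 0, nat_lit 478, nat_lit 0, nat_lit 593938, [nat_lit 4688000000, nat_lit 6250000000, nat_lit 9842000000], [], [nat_lit 35384939704,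 nat_lit 33818234606, nat_lit 33972248672, nat_lit 33962924406, nat_lit 32866222752, nat_lit 31385472126, nat_lit 36154375560, nat_lit 31523426294], nat_lit 1271250, nat_lit 1271250, nat_lit 780000, nat_lit 1100001, nat_lit 0, nat_lit 490000, [nat_lit 1100000, nat_lit 1442500, nat_lit 1271250], [nat_lit 11, nat_lit 40, nat_lit 20, nat_lit 80, nat_lit 1, nat_lit 373, nat_lit 150, nat_lit 11]⟩,
 zbF0, []⟩
noncomputable def p035_l53 : Lf2 := ⟨nat_lit 0, nat_lit 10, [nat_lit 0, nat_lit 5, nat_lit 5, nat_lit 20], false, nat_lit 80, nat_lit 160, nat_lit 0, nat_lit 80, ⟨nat_lit 1000, nat_lit 0, nat_lit 0, nat_lit 0, nat_lit 0, nat_lit 0, nat_lit 0, nat_lit 0, nat_lit 0, nat_lit 0, nat_lit 0, nat_lit 0, nat_lit 0, nat_lit 0, nat_lit 0, nat_lit 0, false, false⟩,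
 nat_lit 15119, nat_lit 0, nat_lit 0, nat_lit 0, nat_lit 8004, nat_lit 8004, nat_lit 705, nat_lit 0, nat_lit 0, nat_lit 599, nat_lit 0, nat_lit 0, nat_lit 0, nat_lit 0, nat_lit 0, nat_lit 0, nat_lit 0, nat_lit 0, [],
 ⟨p035_k11, nat_lit 0, nat_lit 0, nat_lit 365, nat_lit 0, nat_lit 410507, [nat_lit 4688000000, nat_lit 6250000000, nat_lit 11872000000], [], [nat_lit 33108789456, nat_lit 27604925103, nat_lit 25900503919, nat_lit 27612982655, nat_lit 25358420783, nat_lit 26935032031, nat_lit 25367651727, nat_lit 26888589119], nat_lit 1271250, nat_lit 1271250, nat_lit 780000, nat_lit 1100001, nat_lit 490000, nat_lit 1100001, [nat_lit 1100000, nat_lit 1442500, nat_lit 1271250], [nat_lit 48, nat_lit 40, nat_lit 20, nat_lit 80, nat_lit 12, nat_lit 373, nat_lit 150, nat_lit 9]⟩, ⟨p035_k11, nat_lit 0, nat_lit 0, nat_lit 487, nat_lit 0, nat_lit 410507, [nat_lit 4688000000, nat_lit 6250000000, nat_lit 11872000000], [], [nat_lit 36232789456,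 nat_lit 32715089129, nat_lit 31997086208, nat_lit 32702158937, nat_lit 30366167328, nat_lit 28112731353, nat_lit 34244493840, nat_lit 28120788905], nat_lit 1271250, nat_lit 1271250, nat_lit 780000, nat_lit 1100001, nat_lit 0, nat_lit 490000, [nat_lit 1100000, nat_lit 1442500, nat_lit 1271250], [nat_lit 48, nat_lit 40, nat_lit 20, nat_lit 80, nat_lit 12, nat_lit 373, nat_lit 150, nat_lit 10]⟩,
 zbF0, []⟩
noncomputable def p035_l54 : Lf2 := ⟨nat_lit 0, nat_lit 10, [nat_lit 0, nat_lit 5, nat_lit 5, nat_lit 20], false, nat_lit 80, nat_lit 160, nat_lit 80, nat_lit 160, ⟨nat_lit 1000, nat_lit 0, nat_lit 0, nat_lit 0, nat_lit 0, nat_lit 0, nat_lit 0, nat_lit 0, nat_lit 0, nat_lit 0, nat_lit 0, nat_lit 0, nat_lit 0, nat_lit 0, nat_lit 0, nat_lit 0, false, false⟩,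
 nat_lit 12611, nat_lit 0, nat_lit 0, nat_lit 0, nat_lit 6676, nat_lit 6676, nat_lit 910, nat_lit 0, nat_lit 0, nat_lit 910, nat_lit 0, nat_lit 0, nat_lit 0, nat_lit 0, nat_lit 0, nat_lit 0, nat_lit 0, nat_lit 0, [],
 ⟨p035_k11, nat_lit 0, nat_lit 0, nat_lit 365, nat_lit 0, nat_lit 415503, [nat_lit 4688000000, nat_lit 6250000000, nat_lit 11872000000], [], [nat_lit 32489458064, nat_lit 29012744136, nat_lit 28286717186, nat_lit 29068334322, nat_lit 27958155202, nat_lit 28696121658, nat_lit 28097880738, nat_lit 28784843386], nat_lit 1271250, nat_lit 1271250, nat_lit 780000, nat_lit 1100001, nat_lit 490000, nat_lit 1100001, [nat_lit 1100000, nat_lit 1442500, nat_lit 1271250], [nat_lit 48, nat_lit 40, nat_lit 20, nat_lit 80, nat_lit 12, nat_lit 373, nat_lit 150, nat_lit 9]⟩, ⟨p035_k11, nat_lit 0, nat_lit 0, nat_lit 365, nat_lit 0, nat_lit 415503, [nat_lit 4688000000, nat_lit 6250000000, nat_lit 11872000000], [], [nat_lit 32489458064,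 nat_lit 29012744136, nat_lit 28286717186, nat_lit 29068334322, nat_lit 27958155202, nat_lit 28696121658, nat_lit 28097880738, nat_lit 28784843386], nat_lit 1271250, nat_lit 1271250, nat_lit 780000, nat_lit 1100001, nat_lit 490000, nat_lit 1100001, [nat_lit 1100000, nat_lit 1442500, nat_lit 1271250], [nat_lit 48, nat_lit 40, nat_lit 20, nat_lit 80, nat_lit 12, nat_lit 373, nat_lit 150, nat_lit 9]⟩,
 zbF0, []⟩
noncomputable def p035_l55 : Lf2 := ⟨nat_lit 0, nat_lit 10, [nat_lit 0, nat_lit 5, nat_lit 5, nat_lit 20], false, nat_lit 80, nat_lit 160, nat_lit 80, nat_lit 160, ⟨nat_lit 1000, nat_lit 0, nat_lit 0, nat_lit 0, nat_lit 0, nat_lit 0, nat_lit 0, nat_lit 0, nat_lit 0, nat_lit 0, nat_lit 0, nat_lit 0, nat_lit 0, nat_lit 0, nat_lit 0, nat_lit 0, false, false⟩,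
 nat_lit 13438, nat_lit 0, nat_lit 0, nat_lit 0, nat_lit 7822, nat_lit 7114, nat_lit 456, nat_lit 0, nat_lit 0, nat_lit 1741, nat_lit 0, nat_lit 0, nat_lit 0, nat_lit 0, nat_lit 0, nat_lit 0, nat_lit 0, nat_lit 0, [],
 ⟨p035_k19, nat_lit 0, nat_lit 0, nat_lit 364, nat_lit 0, nat_lit 570775, [nat_lit 4688000000, nat_lit 6250000000, nat_lit 9842000000], [], [nat_lit 28950385692, nat_lit 24876860176, nat_lit 23993923500, nat_lit 24949038864, nat_lit 23562830388, nat_lit 24461484624, nat_lit 24979354076, nat_lit 24513583520], nat_lit 1271250, nat_lit 1271250, nat_lit 780000, nat_lit 1100001, nat_lit 490000, nat_lit 1100001, [nat_lit 1100000, nat_lit 1442500, nat_lit 1271250], [nat_lit 11, nat_lit 40, nat_lit 20, nat_lit 80, nat_lit 1, nat_lit 373, nat_lit 150, nat_lit 11]⟩, ⟨p035_k11, nat_lit 0, nat_lit 0, nat_lit 509, nat_lit 0, nat_lit 638933, [nat_lit 4688000000, nat_lit 6250000000, nat_lit 11872000000], [], [nat_lit 32693725496,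 nat_lit 27900510675, nat_lit 26638037187, nat_lit 27832209771, nat_lit 26177343243, nat_lit 27298874483, nat_lit 26128413755, nat_lit 27165680755], nat_lit 1271250, nat_lit 1271250, nat_lit 780000, nat_lit 1100001, nat_lit 490000, nat_lit 1100001, [nat_lit 1100000, nat_lit 1442500, nat_lit 1271250], [nat_lit 48, nat_lit 40, nat_lit 20, nat_lit 80, nat_lit 12, nat_lit 373, nat_lit 150, nat_lit 9]⟩,
 zbF0, []⟩
noncomputable def p035_l56 : Lf2 := ⟨nat_lit 0, nat_lit 10, [nat_lit 0, nat_lit 5, nat_lit 5, nat_lit 20], false, nat_lit 80, nat_lit 160, nat_lit 160, nat_lit 240, ⟨nat_lit 1000, nat_lit 0, nat_lit 0, nat_lit 0, nat_lit 0, nat_lit 0, nat_lit 0, nat_lit 0, nat_lit 0, nat_lit 0, nat_lit 0, nat_lit 0, nat_lit 0, nat_lit 0, nat_lit 0, nat_lit 0, false, false⟩,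
 nat_lit 20878, nat_lit 0, nat_lit 0, nat_lit 0, nat_lit 5982, nat_lit 11052, nat_lit 1776, nat_lit 0, nat_lit 0, nat_lit 1484, nat_lit 0, nat_lit 0, nat_lit 0, nat_lit 0, nat_lit 0, nat_lit 0, nat_lit 0, nat_lit 0, [],
 ⟨p035_k11, nat_lit 0, nat_lit 0, nat_lit 365, nat_lit 0, nat_lit 415503, [nat_lit 4688000000, nat_lit 6250000000, nat_lit 11872000000], [], [nat_lit 32165801448, nat_lit 29050507452, nat_lit 25935213456, nat_lit 26650161504, nat_lit 25681294664, nat_lit 26392954356, nat_lit 25889215416, nat_lit 26553971452], nat_lit 1271250, nat_lit 1271250, nat_lit 780000, nat_lit 1100001, nat_lit 490000, nat_lit 1100001, [nat_lit 1100000, nat_lit 1442500, nat_lit 1271250], [nat_lit 48, nat_lit 40, nat_lit 20, nat_lit 80, nat_lit 12, nat_lit 373, nat_lit 150, nat_lit 9]⟩, ⟨p035_k11, nat_lit 0, nat_lit 0, nat_lit 334, nat_lit 0, nat_lit 415503, [nat_lit 4688000000, nat_lit 6250000000, nat_lit 11872000000], [], [nat_lit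 16333876020, nat_lit 17869524460, nat_lit 16782372000, nat_lit 17745692924, nat_lit 23520224496, nat_lit 20406668700, nat_lit 28240583472, nat_lit 22961175696], nat_lit 1271250, nat_lit 1271250, nat_lit 780000, nat_lit 1100001, nat_lit 1100001, nat_lit 1785000, [nat_lit 1100000, nat_lit 1442500, nat_lit 1271250], [nat_lit 48, nat_lit 40, nat_lit 20, nat_lit 80, nat_lit 12, nat_lit 401, nat_lit 175, nat_lit 10]⟩,
 zbF0, []⟩
noncomputable def p035_l57 : Lf2 := ⟨nat_lit 0, nat_lit 10, [nat_lit 0, nat_lit 5, nat_lit 5, nat_lit 20], false, nat_lit 80, nat_lit 160, nat_lit 160, nat_lit 240, ⟨nat_lit 1000, nat_lit 0, nat_lit 0, nat_lit 0, nat_lit 0, nat_lit 0, nat_lit 0, nat_lit 0, nat_lit 0, nat_lit 0, nat_lit 0, nat_lit 0, nat_lit 0, nat_lit 0, nat_lit 0, nat_lit 0, false, false⟩,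
 nat_lit 13757, nat_lit 0, nat_lit 0, nat_lit 0, nat_lit 8007, nat_lit 7282, nat_lit 369, nat_lit 0, nat_lit 0, nat_lit 1889, nat_lit 0, nat_lit 0, nat_lit 0, nat_lit 0, nat_lit 0, nat_lit 0, nat_lit 0, nat_lit 0, [],
 ⟨p035_k19, nat_lit 0, nat_lit 0, nat_lit 364, nat_lit 0, nat_lit 570775, [nat_lit 4688000000, nat_lit 6250000000, nat_lit 9842000000], [], [nat_lit 28940319102, nat_lit 24770449656, nat_lit 23919296000, nat_lit 24884819834, nat_lit 23460046628, nat_lit 24368050394, nat_lit 24642331806, nat_lit 24402494370], nat_lit 1271250, nat_lit 1271250, nat_lit 780000, nat_lit 1100001, nat_lit 490000, nat_lit 1100001, [nat_lit 1100000, nat_lit 1442500, nat_lit 1271250], [nat_lit 11, nat_lit 40, nat_lit 20, nat_lit 80, nat_lit 1, nat_lit 373, nat_lit 150, nat_lit 11]⟩, ⟨p035_k11, nat_lit 0, nat_lit 0, nat_lit 417, nat_lit 0, nat_lit 638933, [nat_lit 4688000000, nat_lit 6250000000, nat_lit 11872000000], [], [nat_lit 21633661639,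 nat_lit 23155536623, nat_lit 22339352000, nat_lit 23126546063, nat_lit 27276848536, nat_lit 24387749087, nat_lit 30823651752, nat_lit 24222230007], nat_lit 1271250, nat_lit 1271250, nat_lit 780000, nat_lit 1100001, nat_lit 1100001, nat_lit 1785000, [nat_lit 1100000, nat_lit 1442500, nat_lit 1271250], [nat_lit 48, nat_lit 40, nat_lit 20, nat_lit 80, nat_lit 12, nat_lit 401, nat_lit 175, nat_lit 10]⟩,
 zbF0, []⟩
noncomputable def p035_l58 : Lf2 := ⟨nat_lit 0, nat_lit 10, [nat_lit 0, nat_lit 5, nat_lit 5, nat_lit 20], false, nat_lit 80, nat_lit 160, nat_lit 240, nat_lit 288, ⟨nat_lit 1000, nat_lit 0, nat_lit 0, nat_lit 0, nat_lit 0, nat_lit 0, nat_lit 0, nat_lit 0, nat_lit 0, nat_lit 0, nat_lit 0, nat_lit 0, nat_lit 0, nat_lit 0, nat_lit 0, nat_lit 0, false, false⟩,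
 nat_lit 20682, nat_lit 0, nat_lit 0, nat_lit 0, nat_lit 10949, nat_lit 10949, nat_lit 214, nat_lit 0, nat_lit 0, nat_lit 2977, nat_lit 0, nat_lit 0, nat_lit 0, nat_lit 6895277784328, nat_lit 0, nat_lit 0, nat_lit 0, nat_lit 0, [],
 ⟨p035_k11, nat_lit 0, nat_lit 0, nat_lit 509, nat_lit 0, nat_lit 638933, [nat_lit 4688000000, nat_lit 6250000000, nat_lit 11872000000], [], [nat_lit 34482231436, nat_lit 26989887170, nat_lit 23607507638, nat_lit 26846530642, nat_lit 22503690490, nat_lit 25557380550, nat_lit 22504028682, nat_lit 25328654294], nat_lit 1271250, nat_lit 1271250, nat_lit 780000, nat_lit 1100001, nat_lit 490000, nat_lit 1100001, [nat_lit 1100000, nat_lit 1442500, nat_lit 1271250], [nat_lit 48, nat_lit 40, nat_lit 20, nat_lit 80, nat_lit 12, nat_lit 373, nat_lit 150, nat_lit 9]⟩, ⟨p035_k11, nat_lit 0, nat_lit 0, nat_lit 405, nat_lit 0, nat_lit 638933, [nat_lit 4688000000, nat_lit 6250000000, nat_lit 11872000000],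 [], [nat_lit 12098253128, nat_lit 14843493736, nat_lit 12251994616, nat_lit 15208889764, nat_lit 16285783988, nat_lit 20477494448, nat_lit 16557429035, nat_lit 20448364301], nat_lit 1271250, nat_lit 1271250, nat_lit 780000, nat_lit 1100001, nat_lit 1271250, nat_lit 1271250, [nat_lit 1100000, nat_lit 1442500, nat_lit 1271250], [nat_lit 48, nat_lit 40, nat_lit 20, nat_lit 80, nat_lit 12, nat_lit 428, nat_lit 200, nat_lit 10]⟩,
 zbF0, [⟨nat_lit 7, nat_lit 100, nat_lit 98, nat_lit 54, nat_lit 1555518382⟩]⟩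
noncomputable def b_VL_600_600_5_32 : St := ⟨true, nat_lit 1, nat_lit 1, nat_lit 1, nat_lit 40, nat_lit 240, nat_lit 280, nat_lit 240, nat_lit 280, nat_lit 120, nat_lit 160, nat_lit 20, nat_lit 40, nat_lit 80, nat_lit 160, nat_lit 0, nat_lit 288, nat_lit 0, nat_lit 40, nat_lit 0, nat_lit 0, nat_lit 0, nat_lit 0⟩
theorem d_VL_600_600_5_32 (h : EB TB.env) : Dead b_VL_600_600_5_32 := chkB_sound0 h (T :=
(.spl (nat_lit 5) (nat_lit 160)
(.spl (nat_lit 5) (nat_lit 80)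
(.spl (nat_lit 6) (nat_lit 20)
(.leaf p035_l52)
(.leaf p035_l53))
(.spl (nat_lit 0) (nat_lit 260)
(.ord (.leaf p035_l54))
(.leaf p035_l55)))
(.spl (nat_lit 5) (nat_lit 240)
(.spl (nat_lit 0) (nat_lit 260)
(.ord (.leaf p035_l56))
(.leaf p035_l57))
(.leaf p035_l58)))) (by decide +kernel)
noncomputable def p035_l59 : Lf2 := ⟨nat_lit 0, nat_lit 10, [nat_lit 0, nat_lit 5, nat_lit 5, nat_lit 20], false, nat_lit 0, nat_lit 160, nat_lit 0, nat_lit 160, ⟨nat_lit 1000, nat_lit 0, nat_lit 0, nat_lit 0, nat_lit 0, nat_lit 0, nat_lit 0, nat_lit 0, nat_lit 0, nat_lit 0, nat_lit 0, nat_lit 0, nat_lit 0, nat_lit 0, nat_lit 0, nat_lit 0, false, false⟩,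
 nat_lit 10327, nat_lit 0, nat_lit 0, nat_lit 0, nat_lit 5467, nat_lit 5467, nat_lit 716, nat_lit 0, nat_lit 0, nat_lit 716, nat_lit 0, nat_lit 0, nat_lit 0, nat_lit 0, nat_lit 0, nat_lit 0, nat_lit 0, nat_lit 0, [],
 ⟨p035_k11, nat_lit 0, nat_lit 0, nat_lit 375, nat_lit 0, nat_lit 306108, [nat_lit 4688000000, nat_lit 6250000000, nat_lit 11872000000], [], [nat_lit 37706845280, nat_lit 36261539957, nat_lit 36297612396, nat_lit 36624235495, nat_lit 32406915096, nat_lit 32731053629, nat_lit 33845365212, nat_lit 34118709207], nat_lit 1271250, nat_lit 1271250, nat_lit 1100001, nat_lit 1785000, nat_lit 0, nat_lit 1100001, [nat_lit 1100000, nat_lit 1442500, nat_lit 1271250], [nat_lit 48, nat_lit 40, nat_lit 20, nat_lit 80, nat_lit 12, nat_lit 401, nat_lit 175, nat_lit 10]⟩, ⟨p035_k11, nat_lit 0, nat_lit 0, nat_lit 375, nat_lit 0, nat_lit 306108, [nat_lit 4688000000, nat_lit 6250000000, nat_lit 11872000000], [], [nat_lit 37706845280,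 nat_lit 36261539957, nat_lit 36297612396, nat_lit 36624235495, nat_lit 32406915096, nat_lit 32731053629, nat_lit 33845365212, nat_lit 34118709207], nat_lit 1271250, nat_lit 1271250, nat_lit 1100001, nat_lit 1785000, nat_lit 0, nat_lit 1100001, [nat_lit 1100000, nat_lit 1442500, nat_lit 1271250], [nat_lit 48, nat_lit 40, nat_lit 20, nat_lit 80, nat_lit 12, nat_lit 401, nat_lit 175, nat_lit 10]⟩,
 zbF0, []⟩
noncomputable def p035_l60 : Lf2 := ⟨nat_lit 0, nat_lit 10, [nat_lit 0, nat_lit 5, nat_lit 5, nat_lit 20], false, nat_lit 0, nat_lit 160, nat_lit 0, nat_lit 160, ⟨nat_lit 1000, nat_lit 0, nat_lit 0, nat_lit 0, nat_lit 0, nat_lit 0, nat_lit 0, nat_lit 0, nat_lit 0, nat_lit 0, nat_lit 0, nat_lit 0, nat_lit 0, nat_lit 0, nat_lit 0, nat_lit 0, false, false⟩,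
 nat_lit 10234, nat_lit 0, nat_lit 0, nat_lit 0, nat_lit 5685, nat_lit 5417, nat_lit 899, nat_lit 0, nat_lit 0, nat_lit 764, nat_lit 0, nat_lit 0, nat_lit 0, nat_lit 0, nat_lit 0, nat_lit 0, nat_lit 0, nat_lit 0, [],
 ⟨p035_k12, nat_lit 0, nat_lit 0, nat_lit 345, nat_lit 0, nat_lit 392282, [nat_lit 4688000000, nat_lit 6250000000, nat_lit 9842000000], [], [nat_lit 36536104635, nat_lit 35033166870, nat_lit 35250692615, nat_lit 35555742930, nat_lit 31205153690, nat_lit 31508228220, nat_lit 32439219910, nat_lit 32693357760], nat_lit 1271250, nat_lit 1271250, nat_lit 1100001, nat_lit 1785000, nat_lit 0, nat_lit 1100001, [nat_lit 1100000, nat_lit 1442500, nat_lit 1271250], [nat_lit 11, nat_lit 40, nat_lit 20, nat_lit 80, nat_lit 1, nat_lit 401, nat_lit 175, nat_lit 11]⟩, ⟨p035_k11, nat_lit 0, nat_lit 0, nat_lit 414, nat_lit 0, nat_lit 415503, [nat_lit 4688000000, nat_lit 6250000000, nat_lit 11872000000], [], [nat_lit 37630653280,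 nat_lit 35188664006, nat_lit 36163437996, nat_lit 36815134494, nat_lit 32316735696, nat_lit 32963412862, nat_lit 33757628412, nat_lit 34303417902], nat_lit 1271250, nat_lit 1271250, nat_lit 1100001, nat_lit 1785000, nat_lit 0, nat_lit 1100001, [nat_lit 1100000, nat_lit 1442500, nat_lit 1271250], [nat_lit 48, nat_lit 40, nat_lit 20, nat_lit 80, nat_lit 12, nat_lit 401, nat_lit 175, nat_lit 10]⟩,
 zbF0, []⟩
noncomputable def p035_l61 : Lf2 := ⟨nat_lit 0, nat_lit 10, [nat_lit 0, nat_lit 5, nat_lit 5, nat_lit 20], false, nat_lit 0, nat_lit 160, nat_lit 0, nat_lit 160, ⟨nat_lit 1000, nat_lit 0, nat_lit 0, nat_lit 0, nat_lit 0, nat_lit 0, nat_lit 0, nat_lit 0, nat_lit 0, nat_lit 0, nat_lit 0, nat_lit 0, nat_lit 0, nat_lit 0, nat_lit 0, nat_lit 0, false, false⟩,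
 nat_lit 10800, nat_lit 0, nat_lit 0, nat_lit 0, nat_lit 6286, nat_lit 5717, nat_lit 44, nat_lit 0, nat_lit 0, nat_lit 1682, nat_lit 0, nat_lit 0, nat_lit 0, nat_lit 0, nat_lit 0, nat_lit 0, nat_lit 0, nat_lit 0, [],
 ⟨p035_k19, nat_lit 0, nat_lit 0, nat_lit 376, nat_lit 0, nat_lit 470394, [nat_lit 4688000000, nat_lit 6250000000, nat_lit 9842000000], [], [nat_lit 35631223172, nat_lit 33969399638, nat_lit 34682059236, nat_lit 35069281854, nat_lit 30107603392, nat_lit 30490623076, nat_lit 31671810640, nat_lit 31991677352], nat_lit 1271250, nat_lit 1271250, nat_lit 1100001, nat_lit 1785000, nat_lit 0, nat_lit 1100001, [nat_lit 1100000, nat_lit 1442500, nat_lit 1271250], [nat_lit 11, nat_lit 40, nat_lit 20, nat_lit 80, nat_lit 1, nat_lit 401, nat_lit 175, nat_lit 11]⟩, ⟨p035_k11, nat_lit 0, nat_lit 0, nat_lit 513, nat_lit 0, nat_lit 526565, [nat_lit 4688000000, nat_lit 6250000000, nat_lit 11872000000], [], [nat_lit 38087805280,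 nat_lit 34809208656, nat_lit 35177409622, nat_lit 35939028913, nat_lit 31576579890, nat_lit 32327812515, nat_lit 32588728586, nat_lit 33216467546], nat_lit 1271250, nat_lit 1271250, nat_lit 1100001, nat_lit 1785000, nat_lit 0, nat_lit 1100001, [nat_lit 1100000, nat_lit 1442500, nat_lit 1271250], [nat_lit 48, nat_lit 40, nat_lit 20, nat_lit 80, nat_lit 12, nat_lit 401, nat_lit 175, nat_lit 10]⟩,
 zbF0, []⟩
noncomputable def p035_l62 : Lf2 := ⟨nat_lit 0, nat_lit 10, [nat_lit 0, nat_lit 5, nat_lit 5, nat_lit 20], false, nat_lit 0, nat_lit 160, nat_lit 0, nat_lit 160, ⟨nat_lit 1000, nat_lit 0, nat_lit 0, nat_lit 0, nat_lit 0, nat_lit 0, nat_lit 0, nat_lit 0, nat_lit 0, nat_lit 0, nat_lit 0, nat_lit 0, nat_lit 0, nat_lit 0, nat_lit 0, nat_lit 0, false, false⟩,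
 nat_lit 11460, nat_lit 0, nat_lit 0, nat_lit 0, nat_lit 6979, nat_lit 6066, nat_lit 487, nat_lit 0, nat_lit 0, nat_lit 1491, nat_lit 0, nat_lit 0, nat_lit 0, nat_lit 0, nat_lit 0, nat_lit 0, nat_lit 0, nat_lit 0, [],
 ⟨p035_k23, nat_lit 0, nat_lit 0, nat_lit 446, nat_lit 0, nat_lit 541166, [nat_lit 4688000000, nat_lit 6250000000, nat_lit 9842000000], [], [nat_lit 34475797607, nat_lit 32630766356, nat_lit 33482166850, nat_lit 33783522197, nat_lit 28916118881, nat_lit 29212462829, nat_lit 29893025002, nat_lit 30136304685], nat_lit 1271250, nat_lit 1271250, nat_lit 1100001, nat_lit 1785000, nat_lit 0, nat_lit 1100001, [nat_lit 1100000, nat_lit 1442500, nat_lit 1271250], [nat_lit 11, nat_lit 40, nat_lit 20, nat_lit 80, nat_lit 1, nat_lit 401, nat_lit 175, nat_lit 11]⟩, ⟨p035_k11, nat_lit 0, nat_lit 0, nat_lit 552, nat_lit 0, nat_lit 638933, [nat_lit 4688000000, nat_lit 6250000000, nat_lit 11872000000], [], [nat_lit 38619625440,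 nat_lit 35052934213, nat_lit 35076904381, nat_lit 36100969605, nat_lit 31201133845, nat_lit 32211676845, nat_lit 32180088453, nat_lit 33018413893], nat_lit 1271250, nat_lit 1271250, nat_lit 1100001, nat_lit 1785000, nat_lit 0, nat_lit 1100001, [nat_lit 1100000, nat_lit 1442500, nat_lit 1271250], [nat_lit 48, nat_lit 40, nat_lit 20, nat_lit 80, nat_lit 12, nat_lit 401, nat_lit 175, nat_lit 10]⟩,
 zbF0, []⟩
noncomputable def p035_l63 : Lf2 := ⟨nat_lit 0, nat_lit 10, [nat_lit 0, nat_lit 5, nat_lit 5, nat_lit 20], false, nat_lit 0, nat_lit 80, nat_lit 160, nat_lit 288, ⟨nat_lit 1000, nat_lit 0, nat_lit 0, nat_lit 0, nat_lit 0, nat_lit 0, nat_lit 0, nat_lit 0, nat_lit 0, nat_lit 0, nat_lit 0, nat_lit 0, nat_lit 0, nat_lit 0, nat_lit 0, nat_lit 0, false, false⟩,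
 nat_lit 16571, nat_lit 0, nat_lit 0, nat_lit 0, nat_lit 8772, nat_lit 8772, nat_lit 911, nat_lit 0, nat_lit 0, nat_lit 2173, nat_lit 0, nat_lit 0, nat_lit 0, nat_lit 0, nat_lit 0, nat_lit 0, nat_lit 0, nat_lit 0, [],
 ⟨p035_k11, nat_lit 0, nat_lit 0, nat_lit 552, nat_lit 0, nat_lit 638933, [nat_lit 4688000000, nat_lit 6250000000, nat_lit 11872000000], [], [nat_lit 35028957008, nat_lit 31198700225, nat_lit 29991740961, nat_lit 31530895265, nat_lit 26868597392, nat_lit 26680405521, nat_lit 31875640032, nat_lit 26994054417], nat_lit 1271250, nat_lit 1271250, nat_lit 1100001, nat_lit 1442500, nat_lit 0, nat_lit 490000, [nat_lit 1100000, nat_lit 1442500, nat_lit 1271250], [nat_lit 48, nat_lit 40, nat_lit 20, nat_lit 80, nat_lit 12, nat_lit 373, nat_lit 150, nat_lit 10]⟩, ⟨p035_k11, nat_lit 0, nat_lit 0, nat_lit 404, nat_lit 0, nat_lit 638933, [nat_lit 4688000000, nat_lit 6250000000, nat_lit 11872000000], [], [nat_lit 30340957008,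 nat_lit 21204427776, nat_lit 31606475056, nat_lit 23108898304, nat_lit 20327855933, nat_lit 21963836608, nat_lit 20701036292, nat_lit 22441396996], nat_lit 1271250, nat_lit 1271250, nat_lit 1100001, nat_lit 1442500, nat_lit 1271250, nat_lit 1271250, [nat_lit 1100000, nat_lit 1442500, nat_lit 1271250], [nat_lit 48, nat_lit 40, nat_lit 20, nat_lit 80, nat_lit 12, nat_lit 428, nat_lit 200, nat_lit 10]⟩,
 zbF0, []⟩
noncomputable def p035_l64 : Lf2 := ⟨nat_lit 0, nat_lit 10, [nat_lit 0, nat_lit 5, nat_lit 5, nat_lit 20], false, nat_lit 80, nat_lit 160, nat_lit 160, nat_lit 288, ⟨nat_lit 1000, nat_lit 0, nat_lit 0, nat_lit 0, nat_lit 0, nat_lit 0, nat_lit 0, nat_lit 0, nat_lit 0, nat_lit 0, nat_lit 0, nat_lit 0, nat_lit 0, nat_lit 0, nat_lit 0, nat_lit 0, false, false⟩,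
 nat_lit 18375, nat_lit 0, nat_lit 0, nat_lit 0, nat_lit 9727, nat_lit 9727, nat_lit 2018, nat_lit 0, nat_lit 0, nat_lit 1442, nat_lit 0, nat_lit 0, nat_lit 0, nat_lit 0, nat_lit 0, nat_lit 0, nat_lit 0, nat_lit 0, [],
 ⟨p035_k11, nat_lit 0, nat_lit 0, nat_lit 495, nat_lit 0, nat_lit 638933, [nat_lit 4688000000, nat_lit 6250000000, nat_lit 11872000000], [], [nat_lit 23781119416, nat_lit 18989462086, nat_lit 17756886878, nat_lit 19605833058, nat_lit 18735422000, nat_lit 17621208386, nat_lit 23875136304, nat_lit 18287626706], nat_lit 1271250, nat_lit 1271250, nat_lit 1100001, nat_lit 1442500, nat_lit 490000, nat_lit 1100001, [nat_lit 1100000, nat_lit 1442500, nat_lit 1271250], [nat_lit 48, nat_lit 40, nat_lit 20, nat_lit 80, nat_lit 12, nat_lit 401, nat_lit 175, nat_lit 10]⟩, ⟨p035_k11, nat_lit 0, nat_lit 0, nat_lit 404, nat_lit 0, nat_lit 638933, [nat_lit 4688000000, nat_lit 6250000000, nat_lit 11872000000], [], [nat_lit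 30786334628, nat_lit 20655119416, nat_lit 31223088396, nat_lit 21800387864, nat_lit 23069158901, nat_lit 24860162975, nat_lit 23395618538, nat_lit 25011383685], nat_lit 1271250, nat_lit 1271250, nat_lit 1100001, nat_lit 1442500, nat_lit 1271250, nat_lit 1271250, [nat_lit 1100000, nat_lit 1442500, nat_lit 1271250], [nat_lit 48, nat_lit 40, nat_lit 20, nat_lit 80, nat_lit 12, nat_lit 428, nat_lit 200, nat_lit 10]⟩,
 zbF0, [⟨nat_lit 19, nat_lit 98, nat_lit 100, nat_lit 54, nat_lit 235882531⟩]⟩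
noncomputable def p035_l65 : Lf2 := ⟨nat_lit 0, nat_lit 10, [nat_lit 0, nat_lit 5, nat_lit 5, nat_lit 20], false, nat_lit 0, nat_lit 160, nat_lit 160, nat_lit 288, ⟨nat_lit 1000, nat_lit 0, nat_lit 0, nat_lit 0, nat_lit 0, nat_lit 0, nat_lit 0, nat_lit 0, nat_lit 0, nat_lit 0, nat_lit 0, nat_lit 0, nat_lit 0, nat_lit 0, nat_lit 0, nat_lit 0, false, false⟩,
 nat_lit 21671, nat_lit 0, nat_lit 0, nat_lit 0, nat_lit 8801, nat_lit 11472, nat_lit 2249, nat_lit 0, nat_lit 0, nat_lit 1897, nat_lit 0, nat_lit 0, nat_lit 0, nat_lit 17019664356204, nat_lit 0, nat_lit 0, nat_lit 0, nat_lit 0, [],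
 ⟨p035_k11, nat_lit 0, nat_lit 0, nat_lit 542, nat_lit 0, nat_lit 638933, [nat_lit 4688000000, nat_lit 6250000000, nat_lit 11872000000], [], [nat_lit 33480481564, nat_lit 25065579995, nat_lit 24487124975, nat_lit 26593416103, nat_lit 25762430448, nat_lit 20378247744, nat_lit 19885923912, nat_lit 21238809424], nat_lit 1271250, nat_lit 1271250, nat_lit 1271250, nat_lit 1271250, nat_lit 0, nat_lit 1100001, [nat_lit 1100000, nat_lit 1442500, nat_lit 1271250], [nat_lit 48, nat_lit 40, nat_lit 20, nat_lit 80, nat_lit 12, nat_lit 401, nat_lit 175, nat_lit 10]⟩, ⟨p035_k11, nat_lit 0, nat_lit 0, nat_lit 395, nat_lit 0, nat_lit 638933, [nat_lit 4688000000, nat_lit 6250000000, nat_lit 11872000000], [], [nat_lit 21979234656, nat_lit 17483207191, nat_lit 16524459607, nat_lit 18850628087, nat_lit 19871036395, nat_lit 21597331540, nat_lit 20785486628, nat_lit 23612080192], nat_lit 1271250, nat_lit 1271250, nat_lit 1271250, nat_lit 1271250,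 nat_lit 1271250, nat_lit 1271250, [nat_lit 1100000, nat_lit 1442500, nat_lit 1271250], [nat_lit 48, nat_lit 40, nat_lit 20, nat_lit 80, nat_lit 12, nat_lit 456, nat_lit 225, nat_lit 11]⟩,
 zbF0, [⟨nat_lit 7, nat_lit 100, nat_lit 98, nat_lit 54, nat_lit 447309106⟩]⟩
noncomputable def b_VL_600_600_5_33 : St := ⟨true, nat_lit 1, nat_lit 1, nat_lit 1, nat_lit 40, nat_lit 240, nat_lit 280, nat_lit 240, nat_lit 280, nat_lit 160, nat_lit 240, nat_lit 20, nat_lit 40, nat_lit 0, nat_lit 160, nat_lit 0, nat_lit 288, nat_lit 0, nat_lit 40, nat_lit 0, nat_lit 0, nat_lit 0, nat_lit 0⟩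
theorem d_VL_600_600_5_33 (h : EB TB.env) : Dead b_VL_600_600_5_33 := chkB_sound0 h (T :=
(.spl (nat_lit 5) (nat_lit 160)
(.spl (nat_lit 0) (nat_lit 260)
(.ord (.spl (nat_lit 0) (nat_lit 250)
(.ord (.leaf p035_l59))
(.leaf p035_l60)))
(.spl (nat_lit 0) (nat_lit 270)
(.ord (.leaf p035_l61))
(.leaf p035_l62)))
(.spl (nat_lit 2) (nat_lit 200)
(.spl (nat_lit 4) (nat_lit 80)
(.leaf p035_l63)
(.leaf p035_l64))
(.leaf p035_l65)))) (by decide +kernel)
noncomputable def p035_l66 : Lf2 := ⟨nat_lit 0, nat_lit 2, [nat_lit 10, nat_lit 5, nat_lit 5, nat_lit 20], true, nat_lit 160, nat_lit 180, nat_lit 0, nat_lit 288, ⟨nat_lit 0, nat_lit 0, nat_lit 1000, nat_lit 6, nat_lit 77, nat_lit 1000, nat_lit 103, nat_lit 1000, nat_lit 98817, nat_lit 292, nat_lit 56067, nat_lit 273, nat_lit 59462207, nat_lit 0, nat_lit 0, nat_lit 2256109, false, false⟩,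
 nat_lit 0, nat_lit 9149, nat_lit 0, nat_lit 0, nat_lit 4843, nat_lit 0, nat_lit 445, nat_lit 0, nat_lit 0, nat_lit 0, nat_lit 0, nat_lit 0, nat_lit 0, nat_lit 27052685587338, nat_lit 80, nat_lit 1000000, nat_lit 0, nat_lit 0, [(nat_lit 6, [(nat_lit 6, nat_lit 1000)])],
 ⟨p035_k5, nat_lit 0, nat_lit 0, nat_lit 199, nat_lit 0, nat_lit 223935, [nat_lit 2257066667, nat_lit 1408000000, nat_lit 211200000], [], [nat_lit 10170666778, nat_lit 10495377004, nat_lit 10140635555, nat_lit 9795500195, nat_lit 11364250991, nat_lit 11318226299, nat_lit 11676474010, nat_lit 11059760337], nat_lit 1271250, nat_lit 1271250, nat_lit 88400, nat_lit 230001, nat_lit 1100001, nat_lit 1271250, [nat_lit 1100000, nat_lit 1442500, nat_lit 1271250], [nat_lit 9, nat_lit 40, nat_lit 20, nat_lit 80, nat_lit 2, nat_lit 272, nat_lit 60, nat_lit 9]⟩, C1.Rw.none,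
 ⟨nat_lit 6224, nat_lit 6325, ⟨.ofNat (nat_lit 164319), .ofNat (nat_lit 213677), .ofNat (nat_lit 169661), .ofNat (nat_lit 219019), .ofNat (nat_lit 168651), .ofNat (nat_lit 217441), .ofNat (nat_lit 173990), .ofNat (nat_lit 222780)⟩, ⟨.ofNat (nat_lit 225423), .ofNat (nat_lit 266555), .ofNat (nat_lit 246791), .ofNat (nat_lit 287923), .ofNat (nat_lit 226471), .ofNat (nat_lit 267130), .ofNat (nat_lit 247827), .ofNat (nat_lit 288486)⟩⟩, [⟨nat_lit 0, nat_lit 100, nat_lit 100, nat_lit 45, nat_lit 145870553⟩]⟩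
noncomputable def p035_l67 : Lf2 := ⟨nat_lit 0, nat_lit 2, [nat_lit 10, nat_lit 5, nat_lit 5, nat_lit 20], true, nat_lit 160, nat_lit 180, nat_lit 0, nat_lit 288, ⟨nat_lit 0, nat_lit 0, nat_lit 1000, nat_lit 6, nat_lit 79, nat_lit 1000, nat_lit 103, nat_lit 1000, nat_lit 98817, nat_lit 292, nat_lit 60000, nat_lit 275, nat_lit 59313178, nat_lit 0, nat_lit 0, nat_lit 2291190, false, false⟩,
 nat_lit 0, nat_lit 8627, nat_lit 0, nat_lit 0, nat_lit 4679, nat_lit 0, nat_lit 1032, nat_lit 0, nat_lit 0, nat_lit 0, nat_lit 0, nat_lit 0, nat_lit 0, nat_lit 23840466192641, nat_lit 80, nat_lit 1000000, nat_lit 0, nat_lit 0, [(nat_lit 6, [(nat_lit 6, nat_lit 1000)])],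
 ⟨p035_k6, nat_lit 0, nat_lit 0, nat_lit 198, nat_lit 0, nat_lit 245812, [nat_lit 2257066667, nat_lit 1408000000, nat_lit 211200000], [], [nat_lit 10576839507, nat_lit 10768376780, nat_lit 9914072651, nat_lit 10102616887, nat_lit 11390989614, nat_lit 11575151034, nat_lit 11157117138, nat_lit 10900853166], nat_lit 1271250, nat_lit 1271250, nat_lit 88400, nat_lit 230001, nat_lit 1100001, nat_lit 1271250, [nat_lit 1100000, nat_lit 1442500, nat_lit 1271250], [nat_lit 9, nat_lit 40, nat_lit 20, nat_lit 80, nat_lit 2, nat_lit 272, nat_lit 60, nat_lit 9]⟩, C1.Rw.none,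
 ⟨nat_lit 6164, nat_lit 6225, ⟨.ofNat (nat_lit 168651), .ofNat (nat_lit 217441), .ofNat (nat_lit 177193), .ofNat (nat_lit 225984), .ofNat (nat_lit 171231), .ofNat (nat_lit 219683), .ofNat (nat_lit 179771), .ofNat (nat_lit 228224)⟩, ⟨.ofNat (nat_lit 226471), .ofNat (nat_lit 267130), .ofNat (nat_lit 247827), .ofNat (nat_lit 288486), .ofNat (nat_lit 227083), .ofNat (nat_lit 267460), .ofNat (nat_lit 248434), .ofNat (nat_lit 288812)⟩⟩, [⟨nat_lit 0, nat_lit 100, nat_lit 100, nat_lit 48, nat_lit 245636727⟩]⟩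
noncomputable def p035_l68 : Lf2 := ⟨nat_lit 0, nat_lit 2, [nat_lit 10, nat_lit 5, nat_lit 5, nat_lit 20], true, nat_lit 160, nat_lit 180, nat_lit 0, nat_lit 288, ⟨nat_lit 0, nat_lit 0, nat_lit 1000, nat_lit 6, nat_lit 81, nat_lit 1000, nat_lit 103, nat_lit 1000, nat_lit 98817, nat_lit 292, nat_lit 60000, nat_lit 275, nat_lit 59218083, nat_lit 0, nat_lit 0, nat_lit 2313367, false, false⟩,
 nat_lit 0, nat_lit 8355, nat_lit 0, nat_lit 0, nat_lit 4597, nat_lit 0, nat_lit 960, nat_lit 0, nat_lit 0, nat_lit 0, nat_lit 0, nat_lit 0, nat_lit 0, nat_lit 22997553496618, nat_lit 80, nat_lit 1000000, nat_lit 0, nat_lit 0, [(nat_lit 6, [(nat_lit 6, nat_lit 1000)])],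
 ⟨p035_k24, nat_lit 0, nat_lit 0, nat_lit 198, nat_lit 0, nat_lit 259988, [nat_lit 2257066667, nat_lit 1408000000, nat_lit 211200000], [], [nat_lit 10803901101, nat_lit 10930496329, nat_lit 10156729413, nat_lit 10281351435, nat_lit 11614129458, nat_lit 11745631029, nat_lit 10970486648, nat_lit 11099923909], nat_lit 1271250, nat_lit 1271250, nat_lit 88400, nat_lit 230001, nat_lit 1100001, nat_lit 1271250, [nat_lit 1100000, nat_lit 1442500, nat_lit 1271250], [nat_lit 9, nat_lit 40, nat_lit 20, nat_lit 80, nat_lit 2, nat_lit 272, nat_lit 60, nat_lit 9]⟩, C1.Rw.none,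
 ⟨nat_lit 6123, nat_lit 6165, ⟨.ofNat (nat_lit 171231), .ofNat (nat_lit 219683), .ofNat (nat_lit 181906), .ofNat (nat_lit 230359), .ofNat (nat_lit 172944), .ofNat (nat_lit 221172), .ofNat (nat_lit 183618), .ofNat (nat_lit 231846)⟩, ⟨.ofNat (nat_lit 227083), .ofNat (nat_lit 267460), .ofNat (nat_lit 248434), .ofNat (nat_lit 288812), .ofNat (nat_lit 227485), .ofNat (nat_lit 267675), .ofNat (nat_lit 248833), .ofNat (nat_lit 289023)⟩⟩, [⟨nat_lit 0, nat_lit 100, nat_lit 100, nat_lit 50, nat_lit 245227340⟩]⟩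
noncomputable def p035_l69 : Lf2 := ⟨nat_lit 0, nat_lit 1, [nat_lit 19, nat_lit 5, nat_lit 5, nat_lit 20], true, nat_lit 160, nat_lit 180, nat_lit 0, nat_lit 288, ⟨nat_lit 0, nat_lit 0, nat_lit 1000, nat_lit 6, nat_lit 95, nat_lit 1000, nat_lit 103, nat_lit 1000, nat_lit 98817, nat_lit 292, nat_lit 86400, nat_lit 287, nat_lit 58198864, nat_lit 0, nat_lit 0, nat_lit 2542746, false, false⟩,
 nat_lit 0, nat_lit 8662, nat_lit 0, nat_lit 0, nat_lit 4585, nat_lit 0, nat_lit 0, nat_lit 0, nat_lit 0, nat_lit 0, nat_lit 0, nat_lit 0, nat_lit 0, nat_lit 0, nat_lit 10, nat_lit 1000000, nat_lit 0, nat_lit 0, [(nat_lit 6, [(nat_lit 6, nat_lit 1000)])],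
 ⟨p035_k25, nat_lit 0, nat_lit 0, nat_lit 186, nat_lit 0, nat_lit 220380, [nat_lit 1137066667, nat_lit 8000000], [], [nat_lit 8702569487, nat_lit 9103425730, nat_lit 8426829547, nat_lit 8820936770, nat_lit 9737006127, nat_lit 10121955037, nat_lit 9448576857, nat_lit 9827092492], nat_lit 1271250, nat_lit 1271250, nat_lit 230001, nat_lit 356250, nat_lit 1100001, nat_lit 1271250, [nat_lit 1100000, nat_lit 1442500], [nat_lit 31, nat_lit 40, nat_lit 20, nat_lit 80, nat_lit 3, nat_lit 272, nat_lit 60, nat_lit 10]⟩, C1.Rw.none,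
 ⟨nat_lit 6224, nat_lit 6325, ⟨.ofNat (nat_lit 213677), .ofNat (nat_lit 254809), .ofNat (nat_lit 219019), .ofNat (nat_lit 260151), .ofNat (nat_lit 217441), .ofNat (nat_lit 258100), .ofNat (nat_lit 222780), .ofNat (nat_lit 263439)⟩, ⟨.ofNat (nat_lit 225423), .ofNat (nat_lit 266555), .ofNat (nat_lit 246791), .ofNat (nat_lit 287923), .ofNat (nat_lit 226471), .ofNat (nat_lit 267130), .ofNat (nat_lit 247827), .ofNat (nat_lit 288486)⟩⟩, []⟩
noncomputable def p035_l70 : Lf2 := ⟨nat_lit 0, nat_lit 1, [nat_lit 19, nat_lit 5, nat_lit 5, nat_lit 20], true, nat_lit 160, nat_lit 180, nat_lit 0, nat_lit 288, ⟨nat_lit 0, nat_lit 0, nat_lit 1000, nat_lit 6, nat_lit 97, nat_lit 1000, nat_lit 103, nat_lit 1000, nat_lit 98817, nat_lit 292, nat_lit 88817, nat_lit 288, nat_lit 58048508, nat_lit 0, nat_lit 0, nat_lit 2574438, false, false⟩,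
 nat_lit 0, nat_lit 8380, nat_lit 0, nat_lit 0, nat_lit 4545, nat_lit 0, nat_lit 0, nat_lit 0, nat_lit 0, nat_lit 0, nat_lit 0, nat_lit 0, nat_lit 0, nat_lit 0, nat_lit 10, nat_lit 1000000, nat_lit 0, nat_lit 0, [(nat_lit 6, [(nat_lit 6, nat_lit 1000)])],
 ⟨p035_k26, nat_lit 0, nat_lit 0, nat_lit 186, nat_lit 0, nat_lit 241963, [nat_lit 1137066667, nat_lit 8000000], [], [nat_lit 9155103230, nat_lit 9394489684, nat_lit 8878613310, nat_lit 9113974640, nat_lit 10170267422, nat_lit 10400173222, nat_lit 9881461692, nat_lit 10107530529], nat_lit 1271250, nat_lit 1271250, nat_lit 230001, nat_lit 356250, nat_lit 1100001, nat_lit 1271250, [nat_lit 1100000, nat_lit 1442500], [nat_lit 31, nat_lit 40, nat_lit 20, nat_lit 80, nat_lit 3, nat_lit 272, nat_lit 60, nat_lit 10]⟩, C1.Rw.none,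
 ⟨nat_lit 6164, nat_lit 6225, ⟨.ofNat (nat_lit 217441), .ofNat (nat_lit 258100), .ofNat (nat_lit 225984), .ofNat (nat_lit 266643), .ofNat (nat_lit 219683), .ofNat (nat_lit 260061), .ofNat (nat_lit 228224), .ofNat (nat_lit 268601)⟩, ⟨.ofNat (nat_lit 226471), .ofNat (nat_lit 267130), .ofNat (nat_lit 247827), .ofNat (nat_lit 288486), .ofNat (nat_lit 227083), .ofNat (nat_lit 267460), .ofNat (nat_lit 248434), .ofNat (nat_lit 288812)⟩⟩, []⟩
noncomputable def p035_l71 : Lf2 := ⟨nat_lit 0, nat_lit 1, [nat_lit 19, nat_lit 5, nat_lit 5, nat_lit 20], true, nat_lit 160, nat_lit 180, nat_lit 0, nat_lit 288, ⟨nat_lit 0, nat_lit 0, nat_lit 1000, nat_lit 6, nat_lit 98, nat_lit 1000, nat_lit 103, nat_lit 1000, nat_lit 98817, nat_lit 292, nat_lit 91267, nat_lit 289, nat_lit 57952645, nat_lit 0, nat_lit 0, nat_lit 2594467, false, false⟩,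
 nat_lit 0, nat_lit 8212, nat_lit 0, nat_lit 0, nat_lit 4518, nat_lit 0, nat_lit 0, nat_lit 0, nat_lit 0, nat_lit 0, nat_lit 0, nat_lit 0, nat_lit 0, nat_lit 0, nat_lit 10, nat_lit 1000000, nat_lit 0, nat_lit 0, [(nat_lit 6, [(nat_lit 6, nat_lit 1000)])],
 ⟨p035_k27, nat_lit 0, nat_lit 0, nat_lit 185, nat_lit 0, nat_lit 255951, [nat_lit 1137066667, nat_lit 8000000], [], [nat_lit 9428611074, nat_lit 9587694761, nat_lit 9152161776, nat_lit 9308572977, nat_lit 10432066189, nat_lit 10584858128, nat_lit 10143527372, nat_lit 10293771685], nat_lit 1271250, nat_lit 1271250, nat_lit 230001, nat_lit 356250, nat_lit 1100001, nat_lit 1271250, [nat_lit 1100000, nat_lit 1442500], [nat_lit 31, nat_lit 40, nat_lit 20, nat_lit 80, nat_lit 3, nat_lit 272, nat_lit 60, nat_lit 10]⟩, C1.Rw.none,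
 ⟨nat_lit 6123, nat_lit 6165, ⟨.ofNat (nat_lit 219683), .ofNat (nat_lit 260061), .ofNat (nat_lit 230359), .ofNat (nat_lit 270736), .ofNat (nat_lit 221172), .ofNat (nat_lit 261362), .ofNat (nat_lit 231846), .ofNat (nat_lit 272036)⟩, ⟨.ofNat (nat_lit 227083), .ofNat (nat_lit 267460), .ofNat (nat_lit 248434), .ofNat (nat_lit 288812), .ofNat (nat_lit 227485), .ofNat (nat_lit 267675), .ofNat (nat_lit 248833), .ofNat (nat_lit 289023)⟩⟩, []⟩
noncomputable def p035_l72 : Lf2 := ⟨nat_lit 0, nat_lit 2, [nat_lit 10, nat_lit 5, nat_lit 5, nat_lit 20], true, nat_lit 160, nat_lit 180, nat_lit 0, nat_lit 288, ⟨nat_lit 0, nat_lit 0, nat_lit 1000, nat_lit 6, nat_lit 97, nat_lit 1000, nat_lit 103, nat_lit 1000, nat_lit 98817, nat_lit 292, nat_lit 88817, nat_lit 288, nat_lit 58056098, nat_lit 0, nat_lit 0, nat_lit 2572899, false, false⟩,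
 nat_lit 0, nat_lit 11742, nat_lit 0, nat_lit 0, nat_lit 6216, nat_lit 0, nat_lit 0, nat_lit 0, nat_lit 0, nat_lit 0, nat_lit 0, nat_lit 0, nat_lit 0, nat_lit 34471324357119, nat_lit 80, nat_lit 1000000, nat_lit 0, nat_lit 0, [(nat_lit 6, [(nat_lit 6, nat_lit 1000)])],
 ⟨p035_k8, nat_lit 0, nat_lit 0, nat_lit 187, nat_lit 0, nat_lit 221692, [nat_lit 2814000001, nat_lit 141466667], [], [nat_lit 9982205868, nat_lit 9260150387, nat_lit 10472656428, nat_lit 8912751228, nat_lit 11805171204, nat_lit 10312699324, nat_lit 12318067740, nat_lit 10769144658], nat_lit 1271250, nat_lit 1271250, nat_lit 230001, nat_lit 356250, nat_lit 1100001, nat_lit 1271250, [nat_lit 1100000, nat_lit 1785000], [nat_lit 39, nat_lit 40, nat_lit 20, nat_lit 80, nat_lit 7, nat_lit 272, nat_lit 60, nat_lit 9]⟩, C1.Rw.none,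
 ⟨nat_lit 6123, nat_lit 6325, ⟨.ofNat (nat_lit 213677), .ofNat (nat_lit 254809), .ofNat (nat_lit 224361), .ofNat (nat_lit 265493), .ofNat (nat_lit 221172), .ofNat (nat_lit 261362), .ofNat (nat_lit 231846), .ofNat (nat_lit 272036)⟩, ⟨.ofNat (nat_lit 225423), .ofNat (nat_lit 266555), .ofNat (nat_lit 246791), .ofNat (nat_lit 287923), .ofNat (nat_lit 227485), .ofNat (nat_lit 267675), .ofNat (nat_lit 248833), .ofNat (nat_lit 289023)⟩⟩, []⟩
noncomputable def p035_l73 : Lf2 := ⟨nat_lit 0, nat_lit 2, [nat_lit 10, nat_lit 5, nat_lit 5, nat_lit 20], true, nat_lit 160, nat_lit 180, nat_lit 0, nat_lit 288, ⟨nat_lit 0, nat_lit 0, nat_lit 1000, nat_lit 6, nat_lit 114, nat_lit 1000, nat_lit 103, nat_lit 1000, nat_lit 98817, nat_lit 292, nat_lit 120417, nat_lit 300, nat_lit 56801144, nat_lit 0, nat_lit 0, nat_lit 2822917, false, false⟩,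
 nat_lit 0, nat_lit 10467, nat_lit 0, nat_lit 0, nat_lit 5541, nat_lit 0, nat_lit 363, nat_lit 0, nat_lit 0, nat_lit 0, nat_lit 0, nat_lit 0, nat_lit 0, nat_lit 31641077210385, nat_lit 80, nat_lit 1000000, nat_lit 0, nat_lit 0, [(nat_lit 6, [(nat_lit 6, nat_lit 1000)])],
 ⟨p035_k5, nat_lit 0, nat_lit 0, nat_lit 180, nat_lit 0, nat_lit 271617, [nat_lit 2257066667, nat_lit 1408000000, nat_lit 211200000], [], [nat_lit 9250553715, nat_lit 8883465004, nat_lit 9917252203, nat_lit 8649342639, nat_lit 10929627279, nat_lit 9753608473, nat_lit 11616644614, nat_lit 10225913180], nat_lit 1271250, nat_lit 1271250, nat_lit 356250, nat_lit 490000, nat_lit 1100001, nat_lit 1271250, [nat_lit 1100000, nat_lit 1442500, nat_lit 1271250], [nat_lit 9, nat_lit 40, nat_lit 20, nat_lit 80, nat_lit 2, nat_lit 289, nat_lit 75, nat_lit 9]⟩, C1.Rw.none,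
 ⟨nat_lit 6123, nat_lit 6325, ⟨.ofNat (nat_lit 254809), .ofNat (nat_lit 295942), .ofNat (nat_lit 265493), .ofNat (nat_lit 306625), .ofNat (nat_lit 261362), .ofNat (nat_lit 301553), .ofNat (nat_lit 272036), .ofNat (nat_lit 312227)⟩, ⟨.ofNat (nat_lit 225423), .ofNat (nat_lit 266555), .ofNat (nat_lit 246791), .ofNat (nat_lit 287923), .ofNat (nat_lit 227485), .ofNat (nat_lit 267675), .ofNat (nat_lit 248833), .ofNat (nat_lit 289023)⟩⟩, []⟩
noncomputable def p035_l74 : Lf2 := ⟨nat_lit 0, nat_lit 5, [nat_lit 4, nat_lit 5, nat_lit 5, nat_lit 20], true, nat_lit 160, nat_lit 180, nat_lit 0, nat_lit 288, ⟨nat_lit 0, nat_lit 0, nat_lit 1000, nat_lit 6, nat_lit 96, nat_lit 1000, nat_lit 103, nat_lit 1000, nat_lit 98817, nat_lit 292, nat_lit 86400, nat_lit 287, nat_lit 58176562, nat_lit 0, nat_lit 0, nat_lit 2547380, false, false⟩,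
 nat_lit 0, nat_lit 9477, nat_lit 0, nat_lit 0, nat_lit 5017, nat_lit 0, nat_lit 277, nat_lit 0, nat_lit 0, nat_lit 0, nat_lit 0, nat_lit 0, nat_lit 0, nat_lit 28262263713104, nat_lit 147, nat_lit 1000000, nat_lit 0, nat_lit 0, [(nat_lit 6, [(nat_lit 6, nat_lit 1000)])],
 ⟨p035_k0, nat_lit 0, nat_lit 0, nat_lit 196, nat_lit 0, nat_lit 189636, [nat_lit 3329066667, nat_lit 3042400001, nat_lit 177599999], [], [nat_lit 10435351970, nat_lit 11073417467, nat_lit 11210555500, nat_lit 9942348206, nat_lit 11364240417, nat_lit 11819536492, nat_lit 12814018707, nat_lit 11554805640], nat_lit 1271250, nat_lit 1271250, nat_lit 88400, nat_lit 490000, nat_lit 1100001, nat_lit 1271250, [nat_lit 1100000, nat_lit 1442500, nat_lit 1271250], [nat_lit 11, nat_lit 40, nat_lit 20, nat_lit 80, nat_lit 1, nat_lit 373, nat_lit 150, nat_lit 11]⟩, C1.Rw.none,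
 ⟨nat_lit 6123, nat_lit 6325, ⟨.ofNat (nat_lit 164319), .ofNat (nat_lit 295942), .ofNat (nat_lit 175003), .ofNat (nat_lit 306625), .ofNat (nat_lit 172944), .ofNat (nat_lit 301553), .ofNat (nat_lit 183618), .ofNat (nat_lit 312227)⟩, ⟨.ofNat (nat_lit 225423), .ofNat (nat_lit 266555), .ofNat (nat_lit 246791), .ofNat (nat_lit 287923), .ofNat (nat_lit 227485), .ofNat (nat_lit 267675), .ofNat (nat_lit 248833), .ofNat (nat_lit 289023)⟩⟩, [⟨nat_lit 0, nat_lit 100, nat_lit 100, nat_lit 50, nat_lit 131904472⟩]⟩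
noncomputable def p035_l75 : Lf2 := ⟨nat_lit 0, nat_lit 8, [nat_lit 50, nat_lit 5, nat_lit 5, nat_lit 20], true, nat_lit 160, nat_lit 180, nat_lit 0, nat_lit 288, ⟨nat_lit 0, nat_lit 0, nat_lit 1000, nat_lit 6, nat_lit 96, nat_lit 1000, nat_lit 103, nat_lit 1000, nat_lit 98817, nat_lit 292, nat_lit 86400, nat_lit 287, nat_lit 58176562, nat_lit 0, nat_lit 0, nat_lit 2547380, false, false⟩,
 nat_lit 0, nat_lit 8736, nat_lit 0, nat_lit 0, nat_lit 4624, nat_lit 0, nat_lit 0, nat_lit 0, nat_lit 0, nat_lit 0, nat_lit 0, nat_lit 0, nat_lit 0, nat_lit 0, nat_lit 69, nat_lit 400000, nat_lit 0, nat_lit 0, [(nat_lit 6, [(nat_lit 5, nat_lit 1000)])],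
 ⟨p035_k22, nat_lit 0, nat_lit 0, nat_lit 187, nat_lit 0, nat_lit 78008, [nat_lit 2521600001, nat_lit 1460000001, nat_lit 7200000], [], [nat_lit 9921783234, nat_lit 10738154139, nat_lit 8766143201, nat_lit 9541675417, nat_lit 10966415177, nat_lit 11750186922, nat_lit 9773695273, nat_lit 10518580037], nat_lit 1271250, nat_lit 1271250, nat_lit 88400, nat_lit 490000, nat_lit 1100001, nat_lit 1271250, [nat_lit 1100000, nat_lit 1442500, nat_lit 1271250], [nat_lit 11, nat_lit 40, nat_lit 20, nat_lit 80, nat_lit 1, nat_lit 373, nat_lit 150, nat_lit 11]⟩, C1.Rw.none,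
 ⟨nat_lit 6123, nat_lit 6325, ⟨.ofNat (nat_lit 164319), .ofNat (nat_lit 295942), .ofNat (nat_lit 175003), .ofNat (nat_lit 306625), .ofNat (nat_lit 172944), .ofNat (nat_lit 301553), .ofNat (nat_lit 183618), .ofNat (nat_lit 312227)⟩, ⟨.ofNat (nat_lit 225423), .ofNat (nat_lit 266555), .ofNat (nat_lit 246791), .ofNat (nat_lit 287923), .ofNat (nat_lit 227485), .ofNat (nat_lit 267675), .ofNat (nat_lit 248833), .ofNat (nat_lit 289023)⟩⟩, [⟨nat_lit 0, nat_lit 100, nat_lit 100, nat_lit 50, nat_lit 210138463⟩]⟩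
noncomputable def p035_l76 : Lf2 := ⟨nat_lit 0, nat_lit 2, [nat_lit 10, nat_lit 5, nat_lit 5, nat_lit 20], true, nat_lit 180, nat_lit 200, nat_lit 0, nat_lit 288, ⟨nat_lit 0, nat_lit 0, nat_lit 1000, nat_lit 6, nat_lit 77, nat_lit 1000, nat_lit 119, nat_lit 1000, nat_lit 132017, nat_lit 304, nat_lit 56067, nat_lit 273, nat_lit 58142864, nat_lit 0, nat_lit 0, nat_lit 2511400, false, false⟩,
 nat_lit 0, nat_lit 8794, nat_lit 0, nat_lit 0, nat_lit 4655, nat_lit 0, nat_lit 340, nat_lit 0, nat_lit 0, nat_lit 0, nat_lit 0, nat_lit 0, nat_lit 0, nat_lit 24643479773815, nat_lit 80, nat_lit 1000000, nat_lit 0, nat_lit 0, [(nat_lit 6, [(nat_lit 6, nat_lit 1000)])],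
 ⟨p035_k5, nat_lit 0, nat_lit 0, nat_lit 189, nat_lit 0, nat_lit 223935, [nat_lit 2257066667, nat_lit 1408000000, nat_lit 211200000], [], [nat_lit 11682349773, nat_lit 11641939734, nat_lit 12004439822, nat_lit 11411666304, nat_lit 12160880381, nat_lit 12454816789, nat_lit 11490665187, nat_lit 11780135216], nat_lit 1271250, nat_lit 1271250, nat_lit 88400, nat_lit 230001, nat_lit 1271250, nat_lit 1271250, [nat_lit 1100000, nat_lit 1442500, nat_lit 1271250], [nat_lit 9, nat_lit 40, nat_lit 20, nat_lit 80, nat_lit 2, nat_lit 272, nat_lit 60, nat_lit 9]⟩, C1.Rw.none,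
 ⟨nat_lit 6224, nat_lit 6325, ⟨.ofNat (nat_lit 164319), .ofNat (nat_lit 213677), .ofNat (nat_lit 169661), .ofNat (nat_lit 219019), .ofNat (nat_lit 168651), .ofNat (nat_lit 217441), .ofNat (nat_lit 173990), .ofNat (nat_lit 222780)⟩, ⟨.ofNat (nat_lit 266555), .ofNat (nat_lit 307688), .ofNat (nat_lit 287923), .ofNat (nat_lit 329055), .ofNat (nat_lit 267130), .ofNat (nat_lit 307788), .ofNat (nat_lit 288486), .ofNat (nat_lit 329145)⟩⟩, [⟨nat_lit 0, nat_lit 100, nat_lit 100, nat_lit 45, nat_lit 240723363⟩]⟩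
noncomputable def p035_l77 : Lf2 := ⟨nat_lit 0, nat_lit 2, [nat_lit 10, nat_lit 5, nat_lit 5, nat_lit 20], true, nat_lit 180, nat_lit 200, nat_lit 0, nat_lit 288, ⟨nat_lit 0, nat_lit 0, nat_lit 1000, nat_lit 6, nat_lit 79, nat_lit 1000, nat_lit 119, nat_lit 1000, nat_lit 132017, nat_lit 304, nat_lit 60000, nat_lit 275, nat_lit 58006337, nat_lit 0, nat_lit 0, nat_lit 2543558, false, false⟩,
 nat_lit 0, nat_lit 8310, nat_lit 0, nat_lit 0, nat_lit 4507, nat_lit 0, nat_lit 954, nat_lit 0, nat_lit 0, nat_lit 0, nat_lit 0, nat_lit 0, nat_lit 0, nat_lit 23227248867162, nat_lit 80, nat_lit 1000000, nat_lit 0, nat_lit 0, [(nat_lit 6, [(nat_lit 6, nat_lit 1000)])],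
 ⟨p035_k6, nat_lit 0, nat_lit 0, nat_lit 188, nat_lit 0, nat_lit 245812, [nat_lit 2257066667, nat_lit 1408000000, nat_lit 211200000], [], [nat_lit 11702996720, nat_lit 11883915159, nat_lit 11494917411, nat_lit 11248728984, nat_lit 12508023289, nat_lit 12681772190, nat_lit 11867048213, nat_lit 12038169838], nat_lit 1271250, nat_lit 1271250, nat_lit 88400, nat_lit 230001, nat_lit 1271250, nat_lit 1271250, [nat_lit 1100000, nat_lit 1442500, nat_lit 1271250], [nat_lit 9, nat_lit 40, nat_lit 20, nat_lit 80, nat_lit 2, nat_lit 272, nat_lit 60, nat_lit 9]⟩, C1.Rw.none,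
 ⟨nat_lit 6164, nat_lit 6225, ⟨.ofNat (nat_lit 168651), .ofNat (nat_lit 217441), .ofNat (nat_lit 177193), .ofNat (nat_lit 225984), .ofNat (nat_lit 171231), .ofNat (nat_lit 219683), .ofNat (nat_lit 179771), .ofNat (nat_lit 228224)⟩, ⟨.ofNat (nat_lit 267130), .ofNat (nat_lit 307788), .ofNat (nat_lit 288486), .ofNat (nat_lit 329145), .ofNat (nat_lit 267460), .ofNat (nat_lit 307838), .ofNat (nat_lit 288812), .ofNat (nat_lit 329189)⟩⟩, [⟨nat_lit 0, nat_lit 100, nat_lit 100, nat_lit 48, nat_lit 245054229⟩]⟩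
noncomputable def p035_l78 : Lf2 := ⟨nat_lit 0, nat_lit 2, [nat_lit 10, nat_lit 5, nat_lit 5, nat_lit 20], true, nat_lit 180, nat_lit 200, nat_lit 0, nat_lit 288, ⟨nat_lit 0, nat_lit 0, nat_lit 1000, nat_lit 6, nat_lit 81, nat_lit 1000, nat_lit 119, nat_lit 1000, nat_lit 135000, nat_lit 305, nat_lit 60000, nat_lit 275, nat_lit 57919108, nat_lit 0, nat_lit 0, nat_lit 2563907, false, false⟩,
 nat_lit 0, nat_lit 8110, nat_lit 0, nat_lit 0, nat_lit 4462, nat_lit 0, nat_lit 900, nat_lit 0, nat_lit 0, nat_lit 0, nat_lit 0, nat_lit 0, nat_lit 0, nat_lit 22608764750918, nat_lit 80, nat_lit 1000000, nat_lit 0, nat_lit 0, [(nat_lit 6, [(nat_lit 6, nat_lit 1000)])],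
 ⟨p035_k24, nat_lit 0, nat_lit 0, nat_lit 188, nat_lit 0, nat_lit 259988, [nat_lit 2257066667, nat_lit 1408000000, nat_lit 211200000], [], [nat_lit 11856207554, nat_lit 11984218102, nat_lit 11241620351, nat_lit 11369182523, nat_lit 12719484203, nat_lit 12843894899, nat_lit 12097158631, nat_lit 12219651599], nat_lit 1271250, nat_lit 1271250, nat_lit 88400, nat_lit 230001, nat_lit 1271250, nat_lit 1271250, [nat_lit 1100000, nat_lit 1442500, nat_lit 1271250], [nat_lit 9, nat_lit 40, nat_lit 20, nat_lit 80, nat_lit 2, nat_lit 272, nat_lit 60, nat_lit 9]⟩, C1.Rw.none,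
 ⟨nat_lit 6123, nat_lit 6165, ⟨.ofNat (nat_lit 171231), .ofNat (nat_lit 219683), .ofNat (nat_lit 181906), .ofNat (nat_lit 230359), .ofNat (nat_lit 172944), .ofNat (nat_lit 221172), .ofNat (nat_lit 183618), .ofNat (nat_lit 231846)⟩, ⟨.ofNat (nat_lit 267460), .ofNat (nat_lit 307838), .ofNat (nat_lit 288812), .ofNat (nat_lit 329189), .ofNat (nat_lit 267675), .ofNat (nat_lit 307865), .ofNat (nat_lit 289023), .ofNat (nat_lit 329214)⟩⟩, [⟨nat_lit 0, nat_lit 100, nat_lit 100, nat_lit 50, nat_lit 240768859⟩]⟩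
noncomputable def p035_l79 : Lf2 := ⟨nat_lit 0, nat_lit 2, [nat_lit 10, nat_lit 5, nat_lit 5, nat_lit 20], true, nat_lit 180, nat_lit 200, nat_lit 0, nat_lit 288, ⟨nat_lit 0, nat_lit 0, nat_lit 1000, nat_lit 6, nat_lit 105, nat_lit 1000, nat_lit 119, nat_lit 1000, nat_lit 132017, nat_lit 304, nat_lit 104017, nat_lit 294, nat_lit 56158023, nat_lit 0, nat_lit 0, nat_lit 2944532, false, false⟩,
 nat_lit 0, nat_lit 9175, nat_lit 0, nat_lit 0, nat_lit 4857, nat_lit 0, nat_lit 360, nat_lit 0, nat_lit 0, nat_lit 0, nat_lit 0, nat_lit 0, nat_lit 0, nat_lit 10695058773493, nat_lit 80, nat_lit 1000000, nat_lit 0, nat_lit 0, [(nat_lit 6, [(nat_lit 6, nat_lit 1000)])],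
 ⟨p035_k5, nat_lit 0, nat_lit 0, nat_lit 180, nat_lit 0, nat_lit 271617, [nat_lit 2257066667, nat_lit 1408000000, nat_lit 211200000], [], [nat_lit 11652051024, nat_lit 10889936361, nat_lit 12795335986, nat_lit 11576281199, nat_lit 11101731155, nat_lit 11692319846, nat_lit 10748159875, nat_lit 11315716539], nat_lit 1271250, nat_lit 1271250, nat_lit 230001, nat_lit 490000, nat_lit 1271250, nat_lit 1271250, [nat_lit 1100000, nat_lit 1442500, nat_lit 1271250], [nat_lit 9, nat_lit 40, nat_lit 20, nat_lit 80, nat_lit 2, nat_lit 289, nat_lit 75, nat_lit 9]⟩, C1.Rw.none,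
 ⟨nat_lit 6123, nat_lit 6325, ⟨.ofNat (nat_lit 213677), .ofNat (nat_lit 295942), .ofNat (nat_lit 224361), .ofNat (nat_lit 306625), .ofNat (nat_lit 221172), .ofNat (nat_lit 301553), .ofNat (nat_lit 231846), .ofNat (nat_lit 312227)⟩, ⟨.ofNat (nat_lit 266555), .ofNat (nat_lit 307688), .ofNat (nat_lit 287923), .ofNat (nat_lit 329055), .ofNat (nat_lit 267675), .ofNat (nat_lit 307865), .ofNat (nat_lit 289023), .ofNat (nat_lit 329214)⟩⟩, []⟩
noncomputable def p035_l80 : Lf2 := ⟨nat_lit 0, nat_lit 5, [nat_lit 4, nat_lit 5, nat_lit 5, nat_lit 20], true, nat_lit 180, nat_lit 200, nat_lit 0, nat_lit 288, ⟨nat_lit 0, nat_lit 0, nat_lit 1000, nat_lit 6, nat_lit 96, nat_lit 1000, nat_lit 119, nat_lit 1000, nat_lit 132017, nat_lit 304, nat_lit 86400, nat_lit 287, nat_lit 56881567, nat_lit 0, nat_lit 0, nat_lit 2796047, false, false⟩,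
 nat_lit 0, nat_lit 9063, nat_lit 0, nat_lit 0, nat_lit 4798, nat_lit 0, nat_lit 182, nat_lit 0, nat_lit 0, nat_lit 0, nat_lit 0, nat_lit 0, nat_lit 0, nat_lit 26825953891700, nat_lit 147, nat_lit 1000000, nat_lit 0, nat_lit 0, [(nat_lit 6, [(nat_lit 6, nat_lit 1000)])],
 ⟨p035_k0, nat_lit 0, nat_lit 0, nat_lit 186, nat_lit 0, nat_lit 189636, [nat_lit 3329066667, nat_lit 3042400001, nat_lit 177599999], [], [nat_lit 11734791658, nat_lit 12195199317, nat_lit 13191406734, nat_lit 11987160313, nat_lit 12357283915, nat_lit 12934056789, nat_lit 11169908780, nat_lit 11734258469], nat_lit 1271250, nat_lit 1271250, nat_lit 88400, nat_lit 490000, nat_lit 1271250, nat_lit 1271250, [nat_lit 1100000, nat_lit 1442500, nat_lit 1271250], [nat_lit 11, nat_lit 40, nat_lit 20, nat_lit 80, nat_lit 1, nat_lit 373, nat_lit 150, nat_lit 11]⟩, C1.Rw.none,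
 ⟨nat_lit 6123, nat_lit 6325, ⟨.ofNat (nat_lit 164319), .ofNat (nat_lit 295942), .ofNat (nat_lit 175003), .ofNat (nat_lit 306625), .ofNat (nat_lit 172944), .ofNat (nat_lit 301553), .ofNat (nat_lit 183618), .ofNat (nat_lit 312227)⟩, ⟨.ofNat (nat_lit 266555), .ofNat (nat_lit 307688), .ofNat (nat_lit 287923), .ofNat (nat_lit 329055), .ofNat (nat_lit 267675), .ofNat (nat_lit 307865), .ofNat (nat_lit 289023), .ofNat (nat_lit 329214)⟩⟩, [⟨nat_lit 0, nat_lit 100, nat_lit 100, nat_lit 50, nat_lit 160988922⟩]⟩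
noncomputable def p035_l81 : Lf2 := ⟨nat_lit 0, nat_lit 8, [nat_lit 50, nat_lit 5, nat_lit 5, nat_lit 20], true, nat_lit 180, nat_lit 200, nat_lit 0, nat_lit 288, ⟨nat_lit 0, nat_lit 0, nat_lit 1000, nat_lit 6, nat_lit 96, nat_lit 1000, nat_lit 119, nat_lit 1000, nat_lit 132017, nat_lit 304, nat_lit 86400, nat_lit 287, nat_lit 56881567, nat_lit 0, nat_lit 0, nat_lit 2796047, false, false⟩,
 nat_lit 0, nat_lit 10486, nat_lit 0, nat_lit 0, nat_lit 5551, nat_lit 0, nat_lit 48, nat_lit 0, nat_lit 0, nat_lit 0, nat_lit 0, nat_lit 0, nat_lit 0, nat_lit 28512456263497, nat_lit 147, nat_lit 1000000, nat_lit 0, nat_lit 0, [(nat_lit 6, [(nat_lit 6, nat_lit 1000)])],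
 ⟨p035_k22, nat_lit 0, nat_lit 0, nat_lit 177, nat_lit 0, nat_lit 78008, [nat_lit 3329066667, nat_lit 3042400001, nat_lit 177599999], [], [nat_lit 11730829567, nat_lit 12374717976, nat_lit 11893812285, nat_lit 10500570959, nat_lit 12523467772, nat_lit 13140445057, nat_lit 10520545041, nat_lit 11108748712], nat_lit 1271250, nat_lit 1271250, nat_lit 88400, nat_lit 490000, nat_lit 1271250, nat_lit 1271250, [nat_lit 1100000, nat_lit 1442500, nat_lit 1271250], [nat_lit 11, nat_lit 40, nat_lit 20, nat_lit 80, nat_lit 1, nat_lit 373, nat_lit 150, nat_lit 11]⟩, C1.Rw.none,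
 ⟨nat_lit 6123, nat_lit 6325, ⟨.ofNat (nat_lit 164319), .ofNat (nat_lit 295942), .ofNat (nat_lit 175003), .ofNat (nat_lit 306625), .ofNat (nat_lit 172944), .ofNat (nat_lit 301553), .ofNat (nat_lit 183618), .ofNat (nat_lit 312227)⟩, ⟨.ofNat (nat_lit 266555), .ofNat (nat_lit 307688), .ofNat (nat_lit 287923), .ofNat (nat_lit 329055), .ofNat (nat_lit 267675), .ofNat (nat_lit 307865), .ofNat (nat_lit 289023), .ofNat (nat_lit 329214)⟩⟩, [⟨nat_lit 0, nat_lit 100, nat_lit 100, nat_lit 50, nat_lit 272602510⟩]⟩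
noncomputable def b_VL_600_600_5_34 : St := ⟨true, nat_lit 1, nat_lit 1, nat_lit 1, nat_lit 40, nat_lit 240, nat_lit 250, nat_lit 240, nat_lit 250, nat_lit 16, nat_lit 80, nat_lit 20, nat_lit 40, nat_lit 160, nat_lit 200, nat_lit 0, nat_lit 288, nat_lit 0, nat_lit 32, nat_lit 0, nat_lit 0, nat_lit 0, nat_lit 0⟩
theorem d_VL_600_600_5_34 (h : EB TB.env) : Dead b_VL_600_600_5_34 := chkB_sound0 h (T :=
(.spl (nat_lit 4) (nat_lit 180)
(.spl (nat_lit 6) (nat_lit 20)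
(.spl (nat_lit 6) (nat_lit 8)
(.spl (nat_lit 2) (nat_lit 40)
(.spl (nat_lit 0) (nat_lit 245)
(.ord (.leaf p035_l66))
(.spl (nat_lit 0) (nat_lit 248)
(.ord (.leaf p035_l67))
(.leaf p035_l68)))
(.spl (nat_lit 2) (nat_lit 60)
(.spl (nat_lit 6) (nat_lit 4)
(.spl (nat_lit 0) (nat_lit 245)
(.ord (.leaf p035_l69))
(.spl (nat_lit 0) (nat_lit 248)
(.ord (.leaf p035_l70))
(.leaf p035_l71)))
(.leaf p035_l72))
(.leaf p035_l73)))
(.leaf p035_l74))
(.leaf p035_l75))
(.spl (nat_lit 6) (nat_lit 20)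
(.spl (nat_lit 6) (nat_lit 8)
(.spl (nat_lit 2) (nat_lit 40)
(.spl (nat_lit 0) (nat_lit 245)
(.ord (.leaf p035_l76))
(.spl (nat_lit 0) (nat_lit 248)
(.ord (.leaf p035_l77))
(.leaf p035_l78)))
(.leaf p035_l79))
(.leaf p035_l80))
(.leaf p035_l81)))) (by decide +kernel)
noncomputable def p035_l82 : Lf2 := ⟨nat_lit 0, nat_lit 2, [nat_lit 10, nat_lit 5, nat_lit 5, nat_lit 20], true, nat_lit 200, nat_lit 240, nat_lit 0, nat_lit 288, ⟨nat_lit 0, nat_lit 0, nat_lit 1000, nat_lit 6, nat_lit 94, nat_lit 1000, nat_lit 144, nat_lit 1000, nat_lit 194400, nat_lit 323, nat_lit 81667, nat_lit 285, nat_lit 54912932, nat_lit 0, nat_lit 0, nat_lit 3118987, false, false⟩,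
 nat_lit 0, nat_lit 8134, nat_lit 0, nat_lit 0, nat_lit 4305, nat_lit 0, nat_lit 147, nat_lit 0, nat_lit 0, nat_lit 0, nat_lit 0, nat_lit 0, nat_lit 0, nat_lit 0, nat_lit 80, nat_lit 1000000, nat_lit 0, nat_lit 0, [(nat_lit 6, [(nat_lit 6, nat_lit 1000)])],
 ⟨p035_k5, nat_lit 0, nat_lit 0, nat_lit 179, nat_lit 0, nat_lit 223935, [nat_lit 2257066667, nat_lit 1408000000, nat_lit 211200000], [], [nat_lit 12786401995, nat_lit 13046157142, nat_lit 11939627587, nat_lit 12208403801, nat_lit 14366986032, nat_lit 14627532875, nat_lit 13479473567, nat_lit 13726678665], nat_lit 1271250, nat_lit 1271250, nat_lit 88400, nat_lit 490000, nat_lit 1271250, nat_lit 1271250, [nat_lit 1100000, nat_lit 1442500, nat_lit 1271250], [nat_lit 9, nat_lit 40, nat_lit 20, nat_lit 80, nat_lit 2, nat_lit 317, nat_lit 100, nat_lit 10]⟩, C1.Rw.none,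
 ⟨nat_lit 6224, nat_lit 6325, ⟨.ofNat (nat_lit 164319), .ofNat (nat_lit 295942), .ofNat (nat_lit 169661), .ofNat (nat_lit 301284), .ofNat (nat_lit 168651), .ofNat (nat_lit 298759), .ofNat (nat_lit 173990), .ofNat (nat_lit 304098)⟩, ⟨.ofNat (nat_lit 307688), .ofNat (nat_lit 389952), .ofNat (nat_lit 329055), .ofNat (nat_lit 411320), .ofNat (nat_lit 307788), .ofNat (nat_lit 389106), .ofNat (nat_lit 329145), .ofNat (nat_lit 410463)⟩⟩, [⟨nat_lit 0, nat_lit 100, nat_lit 100, nat_lit 45, nat_lit 185473329⟩]⟩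
noncomputable def p035_l83 : Lf2 := ⟨nat_lit 0, nat_lit 2, [nat_lit 10, nat_lit 5, nat_lit 5, nat_lit 20], true, nat_lit 200, nat_lit 240, nat_lit 0, nat_lit 288, ⟨nat_lit 0, nat_lit 0, nat_lit 1000, nat_lit 6, nat_lit 95, nat_lit 1000, nat_lit 144, nat_lit 1000, nat_lit 194400, nat_lit 323, nat_lit 84017, nat_lit 286, nat_lit 54827727, nat_lit 0, nat_lit 0, nat_lit 3138056, false, false⟩,
 nat_lit 0, nat_lit 7756, nat_lit 0, nat_lit 0, nat_lit 4207, nat_lit 0, nat_lit 818, nat_lit 0, nat_lit 0, nat_lit 0, nat_lit 0, nat_lit 0, nat_lit 0, nat_lit 0, nat_lit 80, nat_lit 1000000, nat_lit 0, nat_lit 0, [(nat_lit 6, [(nat_lit 6, nat_lit 1000)])],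
 ⟨p035_k6, nat_lit 0, nat_lit 0, nat_lit 178, nat_lit 0, nat_lit 241339, [nat_lit 2257066667, nat_lit 1408000000, nat_lit 211200000], [], [nat_lit 13036299134, nat_lit 13317053120, nat_lit 12251112820, nat_lit 12532230305, nat_lit 14688510022, nat_lit 14966291139, nat_lit 13882001415, nat_lit 14145430587], nat_lit 1271250, nat_lit 1271250, nat_lit 88400, nat_lit 490000, nat_lit 1271250, nat_lit 1271250, [nat_lit 1100000, nat_lit 1442500, nat_lit 1271250], [nat_lit 9, nat_lit 40, nat_lit 20, nat_lit 80, nat_lit 2, nat_lit 317, nat_lit 100, nat_lit 10]⟩, C1.Rw.none,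
 ⟨nat_lit 6123, nat_lit 6225, ⟨.ofNat (nat_lit 168651), .ofNat (nat_lit 298759), .ofNat (nat_lit 173990), .ofNat (nat_lit 304098), .ofNat (nat_lit 172944), .ofNat (nat_lit 301553), .ofNat (nat_lit 178281), .ofNat (nat_lit 306890)⟩, ⟨.ofNat (nat_lit 307788), .ofNat (nat_lit 389106), .ofNat (nat_lit 329145), .ofNat (nat_lit 410463), .ofNat (nat_lit 307865), .ofNat (nat_lit 388246), .ofNat (nat_lit 329214), .ofNat (nat_lit 409594)⟩⟩, [⟨nat_lit 0, nat_lit 100, nat_lit 99, nat_lit 47, nat_lit 179012744⟩]⟩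
noncomputable def p035_l84 : Lf2 := ⟨nat_lit 0, nat_lit 1, [nat_lit 19, nat_lit 5, nat_lit 5, nat_lit 20], true, nat_lit 200, nat_lit 240, nat_lit 0, nat_lit 284, ⟨nat_lit 0, nat_lit 0, nat_lit 1000, nat_lit 6, nat_lit 82, nat_lit 1000, nat_lit 144, nat_lit 1000, nat_lit 194400, nat_lit 323, nat_lit 64067, nat_lit 277, nat_lit 55715027, nat_lit 0, nat_lit 0, nat_lit 2940053, false, false⟩,
 nat_lit 0, nat_lit 7889, nat_lit 0, nat_lit 0, nat_lit 4279, nat_lit 0, nat_lit 978, nat_lit 0, nat_lit 0, nat_lit 0, nat_lit 0, nat_lit 0, nat_lit 0, nat_lit 22992335274283, nat_lit 10, nat_lit 1000000, nat_lit 0, nat_lit 0, [(nat_lit 6, [(nat_lit 6, nat_lit 1000)])],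
 ⟨p035_k26, nat_lit 0, nat_lit 0, nat_lit 176, nat_lit 0, nat_lit 241963, [nat_lit 1137066667, nat_lit 8000000], [], [nat_lit 12714192388, nat_lit 12883683756, nat_lit 12294594080, nat_lit 12461771316, nat_lit 14402175754, nat_lit 14569867075, nat_lit 13976157361, nat_lit 14141583454], nat_lit 1271250, nat_lit 1271250, nat_lit 111251, nat_lit 230001, nat_lit 1271250, nat_lit 1271250, [nat_lit 1100000, nat_lit 1442500], [nat_lit 31, nat_lit 40, nat_lit 20, nat_lit 80, nat_lit 3, nat_lit 215, nat_lit 10, nat_lit 8]⟩, C1.Rw.none,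
 ⟨nat_lit 6164, nat_lit 6225, ⟨.ofNat (nat_lit 182121), .ofNat (nat_lit 222780), .ofNat (nat_lit 185325), .ofNat (nat_lit 225984), .ofNat (nat_lit 184644), .ofNat (nat_lit 225021), .ofNat (nat_lit 187847), .ofNat (nat_lit 228224)⟩, ⟨.ofNat (nat_lit 307788), .ofNat (nat_lit 389106), .ofNat (nat_lit 329145), .ofNat (nat_lit 410463), .ofNat (nat_lit 307838), .ofNat (nat_lit 388592), .ofNat (nat_lit 329189), .ofNat (nat_lit 409943)⟩⟩, [⟨nat_lit 0, nat_lit 100, nat_lit 100, nat_lit 48, nat_lit 219274776⟩]⟩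
noncomputable def p035_l85 : Lf2 := ⟨nat_lit 0, nat_lit 1, [nat_lit 19, nat_lit 5, nat_lit 5, nat_lit 20], true, nat_lit 200, nat_lit 220, nat_lit 0, nat_lit 284, ⟨nat_lit 0, nat_lit 0, nat_lit 1000, nat_lit 6, nat_lit 83, nat_lit 1000, nat_lit 135, nat_lit 1000, nat_lit 173400, nat_lit 317, nat_lit 64067, nat_lit 277, nat_lit 56358304, nat_lit 0, nat_lit 0, nat_lit 2844023, false, false⟩,
 nat_lit 0, nat_lit 7973, nat_lit 0, nat_lit 0, nat_lit 4387, nat_lit 0, nat_lit 990, nat_lit 0, nat_lit 0, nat_lit 0, nat_lit 0, nat_lit 0, nat_lit 0, nat_lit 0, nat_lit 10, nat_lit 1000000, nat_lit 0, nat_lit 0, [(nat_lit 6, [(nat_lit 6, nat_lit 1000)])],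
 ⟨p035_k27, nat_lit 0, nat_lit 0, nat_lit 175, nat_lit 0, nat_lit 255951, [nat_lit 1137066667, nat_lit 8000000], [], [nat_lit 12672913994, nat_lit 12796150721, nat_lit 12243117901, nat_lit 12364633537, nat_lit 13532620755, nat_lit 13650758835, nat_lit 13093985617, nat_lit 13210496432], nat_lit 1271250, nat_lit 1271250, nat_lit 111251, nat_lit 230001, nat_lit 1271250, nat_lit 1271250, [nat_lit 1100000, nat_lit 1442500], [nat_lit 31, nat_lit 40, nat_lit 20, nat_lit 80, nat_lit 3, nat_lit 215, nat_lit 10, nat_lit 8]⟩, C1.Rw.none,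
 ⟨nat_lit 6123, nat_lit 6165, ⟨.ofNat (nat_lit 184644), .ofNat (nat_lit 225021), .ofNat (nat_lit 189982), .ofNat (nat_lit 230359), .ofNat (nat_lit 186319), .ofNat (nat_lit 226509), .ofNat (nat_lit 191656), .ofNat (nat_lit 231846)⟩, ⟨.ofNat (nat_lit 307838), .ofNat (nat_lit 348215), .ofNat (nat_lit 329189), .ofNat (nat_lit 369566), .ofNat (nat_lit 307865), .ofNat (nat_lit 348056), .ofNat (nat_lit 329214), .ofNat (nat_lit 369404)⟩⟩, [⟨nat_lit 0, nat_lit 100, nat_lit 100, nat_lit 50, nat_lit 221601178⟩]⟩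
noncomputable def p035_l86 : Lf2 := ⟨nat_lit 0, nat_lit 1, [nat_lit 19, nat_lit 5, nat_lit 5, nat_lit 20], true, nat_lit 220, nat_lit 240, nat_lit 0, nat_lit 280, ⟨nat_lit 0, nat_lit 0, nat_lit 1000, nat_lit 6, nat_lit 76, nat_lit 1000, nat_lit 152, nat_lit 1000, nat_lit 216600, nat_lit 329, nat_lit 54150, nat_lit 272, nat_lit 55343465, nat_lit 0, nat_lit 0, nat_lit 2963981, false, false⟩,
 nat_lit 0, nat_lit 7822, nat_lit 0, nat_lit 0, nat_lit 4304, nat_lit 0, nat_lit 251, nat_lit 0, nat_lit 0, nat_lit 0, nat_lit 0, nat_lit 0, nat_lit 0, nat_lit 10268771848895, nat_lit 10, nat_lit 1000000, nat_lit 0, nat_lit 0, [(nat_lit 6, [(nat_lit 6, nat_lit 1000)])],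
 ⟨p035_k27, nat_lit 0, nat_lit 0, nat_lit 165, nat_lit 0, nat_lit 247049, [nat_lit 1137066667, nat_lit 8000000], [], [nat_lit 13743632170, nat_lit 13797973330, nat_lit 13656778126, nat_lit 13710972830, nat_lit 14578467732, nat_lit 14655632446, nat_lit 14442224779, nat_lit 14498114454], nat_lit 1271250, nat_lit 1271250, nat_lit 111251, nat_lit 134400, nat_lit 1271250, nat_lit 1271250, [nat_lit 1100000, nat_lit 1442500], [nat_lit 31, nat_lit 40, nat_lit 20, nat_lit 80, nat_lit 3, nat_lit 215, nat_lit 10, nat_lit 8]⟩, C1.Rw.none,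
 ⟨nat_lit 6144, nat_lit 6165, ⟨.ofNat (nat_lit 184644), .ofNat (nat_lit 192720), .ofNat (nat_lit 188914), .ofNat (nat_lit 196990), .ofNat (nat_lit 185482), .ofNat (nat_lit 193539), .ofNat (nat_lit 189752), .ofNat (nat_lit 197809)⟩, ⟨.ofNat (nat_lit 348215), .ofNat (nat_lit 388592), .ofNat (nat_lit 369566), .ofNat (nat_lit 409943), .ofNat (nat_lit 348136), .ofNat (nat_lit 388419), .ofNat (nat_lit 369485), .ofNat (nat_lit 409769)⟩⟩, [⟨nat_lit 0, nat_lit 100, nat_lit 100, nat_lit 49, nat_lit 858790409⟩]⟩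
noncomputable def p035_l87 : Lf2 := ⟨nat_lit 0, nat_lit 1, [nat_lit 19, nat_lit 5, nat_lit 5, nat_lit 20], true, nat_lit 220, nat_lit 240, nat_lit 0, nat_lit 284, ⟨nat_lit 0, nat_lit 0, nat_lit 1000, nat_lit 6, nat_lit 81, nat_lit 1000, nat_lit 152, nat_lit 1000, nat_lit 216600, nat_lit 329, nat_lit 62017, nat_lit 276, nat_lit 55036627, nat_lit 0, nat_lit 0, nat_lit 3037498, false, false⟩,
 nat_lit 0, nat_lit 7822, nat_lit 0, nat_lit 0, nat_lit 4304, nat_lit 0, nat_lit 954, nat_lit 0, nat_lit 0, nat_lit 0, nat_lit 0, nat_lit 0, nat_lit 0, nat_lit 0, nat_lit 10, nat_lit 1000000, nat_lit 0, nat_lit 0, [(nat_lit 6, [(nat_lit 6, nat_lit 1000)])],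
 ⟨p035_k27, nat_lit 0, nat_lit 0, nat_lit 163, nat_lit 0, nat_lit 247049, [nat_lit 1137066667, nat_lit 8000000], [], [nat_lit 13589515846, nat_lit 13647909294, nat_lit 13419930481, nat_lit 13478002327, nat_lit 14442224779, nat_lit 14498114454, nat_lit 14269134426, nat_lit 14324720993], nat_lit 1271250, nat_lit 1271250, nat_lit 134400, nat_lit 181601, nat_lit 1271250, nat_lit 1271250, [nat_lit 1100000, nat_lit 1442500], [nat_lit 31, nat_lit 40, nat_lit 20, nat_lit 80, nat_lit 3, nat_lit 215, nat_lit 10, nat_lit 8]⟩, C1.Rw.none,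
 ⟨nat_lit 6144, nat_lit 6165, ⟨.ofNat (nat_lit 192720), .ofNat (nat_lit 208870), .ofNat (nat_lit 196990), .ofNat (nat_lit 213141), .ofNat (nat_lit 193539), .ofNat (nat_lit 209652), .ofNat (nat_lit 197809), .ofNat (nat_lit 213922)⟩, ⟨.ofNat (nat_lit 348215), .ofNat (nat_lit 388592), .ofNat (nat_lit 369566), .ofNat (nat_lit 409943), .ofNat (nat_lit 348136), .ofNat (nat_lit 388419), .ofNat (nat_lit 369485), .ofNat (nat_lit 409769)⟩⟩, [⟨nat_lit 0, nat_lit 100, nat_lit 100, nat_lit 49, nat_lit 219986512⟩]⟩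
noncomputable def p035_l88 : Lf2 := ⟨nat_lit 0, nat_lit 1, [nat_lit 19, nat_lit 5, nat_lit 5, nat_lit 20], true, nat_lit 220, nat_lit 240, nat_lit 0, nat_lit 284, ⟨nat_lit 0, nat_lit 0, nat_lit 1000, nat_lit 6, nat_lit 88, nat_lit 1000, nat_lit 152, nat_lit 1000, nat_lit 216600, nat_lit 329, nat_lit 72600, nat_lit 281, nat_lit 54615145, nat_lit 0, nat_lit 0, nat_lit 3134501, false, false⟩,
 nat_lit 0, nat_lit 7953, nat_lit 0, nat_lit 0, nat_lit 4376, nat_lit 0, nat_lit 988, nat_lit 0, nat_lit 0, nat_lit 0, nat_lit 0, nat_lit 0, nat_lit 0, nat_lit 27182928343655, nat_lit 10, nat_lit 1000000, nat_lit 0, nat_lit 0, [(nat_lit 6, [(nat_lit 6, nat_lit 1000)])],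
 ⟨p035_k27, nat_lit 0, nat_lit 0, nat_lit 159, nat_lit 0, nat_lit 247049, [nat_lit 1137066667, nat_lit 8000000], [], [nat_lit 13289384237, nat_lit 13347897638, nat_lit 13114707960, nat_lit 13172896418, nat_lit 14143098495, nat_lit 14199095478, nat_lit 13964890659, nat_lit 14020581429], nat_lit 1271250, nat_lit 1271250, nat_lit 181601, nat_lit 230001, nat_lit 1271250, nat_lit 1271250, [nat_lit 1100000, nat_lit 1442500], [nat_lit 31, nat_lit 40, nat_lit 20, nat_lit 80, nat_lit 3, nat_lit 215, nat_lit 10, nat_lit 8]⟩, C1.Rw.none,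
 ⟨nat_lit 6144, nat_lit 6165, ⟨.ofNat (nat_lit 208870), .ofNat (nat_lit 225021), .ofNat (nat_lit 213141), .ofNat (nat_lit 229292), .ofNat (nat_lit 209652), .ofNat (nat_lit 225766), .ofNat (nat_lit 213922), .ofNat (nat_lit 230036)⟩, ⟨.ofNat (nat_lit 348215), .ofNat (nat_lit 388592), .ofNat (nat_lit 369566), .ofNat (nat_lit 409943), .ofNat (nat_lit 348136), .ofNat (nat_lit 388419), .ofNat (nat_lit 369485), .ofNat (nat_lit 409769)⟩⟩, []⟩
noncomputable def p035_l89 : Lf2 := ⟨nat_lit 0, nat_lit 1, [nat_lit 19, nat_lit 5, nat_lit 5, nat_lit 20], true, nat_lit 220, nat_lit 240, nat_lit 0, nat_lit 280, ⟨nat_lit 0, nat_lit 0, nat_lit 1000, nat_lit 6, nat_lit 77, nat_lit 1000, nat_lit 152, nat_lit 1000, nat_lit 216600, nat_lit 329, nat_lit 56067, nat_lit 273, nat_lit 55314043, nat_lit 0, nat_lit 0, nat_lit 2971598, false, false⟩,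
 nat_lit 0, nat_lit 7785, nat_lit 0, nat_lit 0, nat_lit 4304, nat_lit 0, nat_lit 940, nat_lit 0, nat_lit 0, nat_lit 0, nat_lit 0, nat_lit 0, nat_lit 0, nat_lit 0, nat_lit 10, nat_lit 1000000, nat_lit 0, nat_lit 0, [(nat_lit 6, [(nat_lit 6, nat_lit 1000)])],
 ⟨p035_k28, nat_lit 0, nat_lit 0, nat_lit 165, nat_lit 0, nat_lit 254589, [nat_lit 1137066667, nat_lit 8000000], [], [nat_lit 13732862777, nat_lit 13791417026, nat_lit 13647909294, nat_lit 13706302742, nat_lit 14655632446, nat_lit 14732797160, nat_lit 14498114454, nat_lit 14574449349], nat_lit 1271250, nat_lit 1271250, nat_lit 111251, nat_lit 134400, nat_lit 1271250, nat_lit 1271250, [nat_lit 1100000, nat_lit 1442500], [nat_lit 31, nat_lit 40, nat_lit 20, nat_lit 80, nat_lit 3, nat_lit 215, nat_lit 10, nat_lit 8]⟩, C1.Rw.none,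
 ⟨nat_lit 6123, nat_lit 6145, ⟨.ofNat (nat_lit 185482), .ofNat (nat_lit 193539), .ofNat (nat_lit 190819), .ofNat (nat_lit 198876), .ofNat (nat_lit 186319), .ofNat (nat_lit 194357), .ofNat (nat_lit 191656), .ofNat (nat_lit 199694)⟩, ⟨.ofNat (nat_lit 348136), .ofNat (nat_lit 388419), .ofNat (nat_lit 369485), .ofNat (nat_lit 409769), .ofNat (nat_lit 348056), .ofNat (nat_lit 388246), .ofNat (nat_lit 369404), .ofNat (nat_lit 409594)⟩⟩, [⟨nat_lit 0, nat_lit 100, nat_lit 100, nat_lit 50, nat_lit 1350636852⟩]⟩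
noncomputable def p035_l90 : Lf2 := ⟨nat_lit 0, nat_lit 1, [nat_lit 19, nat_lit 5, nat_lit 5, nat_lit 20], true, nat_lit 220, nat_lit 240, nat_lit 0, nat_lit 284, ⟨nat_lit 0, nat_lit 0, nat_lit 1000, nat_lit 6, nat_lit 80, nat_lit 1000, nat_lit 152, nat_lit 1000, nat_lit 216600, nat_lit 329, nat_lit 60000, nat_lit 275, nat_lit 55137475, nat_lit 0, nat_lit 0, nat_lit 3014048, false, false⟩,
 nat_lit 0, nat_lit 7766, nat_lit 0, nat_lit 0, nat_lit 4293, nat_lit 0, nat_lit 938, nat_lit 0, nat_lit 0, nat_lit 0, nat_lit 0, nat_lit 0, nat_lit 0, nat_lit 0, nat_lit 10, nat_lit 1000000, nat_lit 0, nat_lit 0, [(nat_lit 6, [(nat_lit 6, nat_lit 1000)])],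
 ⟨p035_k28, nat_lit 0, nat_lit 0, nat_lit 162, nat_lit 0, nat_lit 245761, [nat_lit 1137066667, nat_lit 8000000], [], [nat_lit 13667008110, nat_lit 13725333588, nat_lit 13582443771, nat_lit 13640608703, nat_lit 14516524929, nat_lit 14572351428, nat_lit 14430219355, nat_lit 14485894536], nat_lit 1271250, nat_lit 1271250, nat_lit 134400, nat_lit 157850, nat_lit 1271250, nat_lit 1271250, [nat_lit 1100000, nat_lit 1442500], [nat_lit 31, nat_lit 40, nat_lit 20, nat_lit 80, nat_lit 3, nat_lit 215, nat_lit 10, nat_lit 8]⟩, C1.Rw.none,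
 ⟨nat_lit 6123, nat_lit 6145, ⟨.ofNat (nat_lit 193539), .ofNat (nat_lit 201596), .ofNat (nat_lit 196741), .ofNat (nat_lit 204798), .ofNat (nat_lit 194357), .ofNat (nat_lit 202395), .ofNat (nat_lit 197559), .ofNat (nat_lit 205597)⟩, ⟨.ofNat (nat_lit 348136), .ofNat (nat_lit 388419), .ofNat (nat_lit 369485), .ofNat (nat_lit 409769), .ofNat (nat_lit 348056), .ofNat (nat_lit 388246), .ofNat (nat_lit 369404), .ofNat (nat_lit 409594)⟩⟩, [⟨nat_lit 0, nat_lit 100, nat_lit 100, nat_lit 49, nat_lit 219137289⟩]⟩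
noncomputable def p035_l91 : Lf2 := ⟨nat_lit 0, nat_lit 1, [nat_lit 19, nat_lit 5, nat_lit 5, nat_lit 20], true, nat_lit 220, nat_lit 240, nat_lit 0, nat_lit 280, ⟨nat_lit 0, nat_lit 0, nat_lit 1000, nat_lit 6, nat_lit 81, nat_lit 1000, nat_lit 152, nat_lit 1000, nat_lit 216600, nat_lit 329, nat_lit 62017, nat_lit 276, nat_lit 55082932, nat_lit 0, nat_lit 0, nat_lit 3026991, false, false⟩,
 nat_lit 0, nat_lit 7766, nat_lit 0, nat_lit 0, nat_lit 4293, nat_lit 0, nat_lit 937, nat_lit 0, nat_lit 0, nat_lit 0, nat_lit 0, nat_lit 0, nat_lit 0, nat_lit 0, nat_lit 10, nat_lit 1000000, nat_lit 0, nat_lit 0, [(nat_lit 6, [(nat_lit 6, nat_lit 1000)])],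
 ⟨p035_k28, nat_lit 0, nat_lit 0, nat_lit 162, nat_lit 0, nat_lit 250175, [nat_lit 1137066667, nat_lit 8000000], [], [nat_lit 13667008110, nat_lit 13725333588, nat_lit 13582443771, nat_lit 13640608703, nat_lit 14516524929, nat_lit 14572351428, nat_lit 14430219355, nat_lit 14485894536], nat_lit 1271250, nat_lit 1271250, nat_lit 134400, nat_lit 157850, nat_lit 1271250, nat_lit 1271250, [nat_lit 1100000, nat_lit 1442500], [nat_lit 31, nat_lit 40, nat_lit 20, nat_lit 80, nat_lit 3, nat_lit 215, nat_lit 10, nat_lit 8]⟩, C1.Rw.none,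
 ⟨nat_lit 6123, nat_lit 6145, ⟨.ofNat (nat_lit 196741), .ofNat (nat_lit 204798), .ofNat (nat_lit 197809), .ofNat (nat_lit 205865), .ofNat (nat_lit 197559), .ofNat (nat_lit 205597), .ofNat (nat_lit 198626), .ofNat (nat_lit 206664)⟩, ⟨.ofNat (nat_lit 348136), .ofNat (nat_lit 388419), .ofNat (nat_lit 369485), .ofNat (nat_lit 409769), .ofNat (nat_lit 348056), .ofNat (nat_lit 388246), .ofNat (nat_lit 369404), .ofNat (nat_lit 409594)⟩⟩, [⟨nat_lit 0, nat_lit 100, nat_lit 100, nat_lit 49, nat_lit 219931042⟩]⟩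
noncomputable def p035_l92 : Lf2 := ⟨nat_lit 0, nat_lit 1, [nat_lit 19, nat_lit 5, nat_lit 5, nat_lit 20], false, nat_lit 220, nat_lit 240, nat_lit 0, nat_lit 160, ⟨nat_lit 364, nat_lit 0, nat_lit 636, nat_lit 6, nat_lit 81, nat_lit 636, nat_lit 152, nat_lit 636, nat_lit 216600, nat_lit 329, nat_lit 62017, nat_lit 276, nat_lit 55055562, nat_lit 0, nat_lit 0, nat_lit 3033456, false, false⟩,
 nat_lit 10686, nat_lit 0, nat_lit 0, nat_lit 0, nat_lit 5908, nat_lit 5908, nat_lit 1687, nat_lit 0, nat_lit 0, nat_lit 294, nat_lit 0, nat_lit 0, nat_lit 0, nat_lit 1844872046256, nat_lit 0, nat_lit 636000, nat_lit 0, nat_lit 0, [(nat_lit 6, [(nat_lit 6, nat_lit 636)])],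
 ⟨p035_k28, nat_lit 0, nat_lit 0, nat_lit 163, nat_lit 0, nat_lit 254589, [nat_lit 2327846400, nat_lit 2152888000], [], [nat_lit 14166343289, nat_lit 14229292552, nat_lit 14022433422, nat_lit 14085203034, nat_lit 15032480233, nat_lit 15124095558, nat_lit 14886122306, nat_lit 14945970741], nat_lit 1271250, nat_lit 1271250, nat_lit 134400, nat_lit 157850, nat_lit 1271250, nat_lit 1271250, [nat_lit 1100000, nat_lit 1442500], [nat_lit 31, nat_lit 40, nat_lit 20, nat_lit 80, nat_lit 3, nat_lit 215, nat_lit 10, nat_lit 8]⟩, ⟨p035_k28, nat_lit 0, nat_lit 0, nat_lit 273, nat_lit 0, nat_lit 254589, [nat_lit 1706432000, nat_lit 2275000000], [], [nat_lit 10540661286, nat_lit 10553565714, nat_lit 10058897723, nat_lit 10155610204, nat_lit 6828091500, nat_lit 6686199772, nat_lit 6847765299, nat_lit 6706069244], nat_lit 1271250, nat_lit 1271250, nat_lit 134400, nat_lit 157850, nat_lit 0, nat_lit 1100001, [nat_lit 1100000, nat_lit 1442500],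 [nat_lit 31, nat_lit 40, nat_lit 20, nat_lit 80, nat_lit 3, nat_lit 260, nat_lit 50, nat_lit 11]⟩,
 ⟨nat_lit 6123, nat_lit 6145, ⟨.ofNat (nat_lit 197809), .ofNat (nat_lit 205865), .ofNat (nat_lit 198876), .ofNat (nat_lit 206933), .ofNat (nat_lit 198626), .ofNat (nat_lit 206664), .ofNat (nat_lit 199694), .ofNat (nat_lit 207732)⟩, ⟨.ofNat (nat_lit 348136), .ofNat (nat_lit 388419), .ofNat (nat_lit 369485), .ofNat (nat_lit 409769), .ofNat (nat_lit 348056), .ofNat (nat_lit 388246), .ofNat (nat_lit 369404), .ofNat (nat_lit 409594)⟩⟩, [⟨nat_lit 0, nat_lit 100, nat_lit 100, nat_lit 49, nat_lit 1028580974⟩]⟩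
noncomputable def p035_l93 : Lf2 := ⟨nat_lit 0, nat_lit 1, [nat_lit 19, nat_lit 5, nat_lit 5, nat_lit 20], false, nat_lit 220, nat_lit 240, nat_lit 160, nat_lit 200, ⟨nat_lit 182, nat_lit 0, nat_lit 818, nat_lit 6, nat_lit 81, nat_lit 818, nat_lit 152, nat_lit 818, nat_lit 216600, nat_lit 329, nat_lit 62017, nat_lit 276, nat_lit 55055562, nat_lit 0, nat_lit 0, nat_lit 3033456, false, false⟩,
 nat_lit 9384, nat_lit 0, nat_lit 0, nat_lit 0, nat_lit 5188, nat_lit 5188, nat_lit 474, nat_lit 0, nat_lit 0, nat_lit 1027, nat_lit 0, nat_lit 0, nat_lit 0, nat_lit 2387510435609, nat_lit 0, nat_lit 818000, nat_lit 0, nat_lit 0, [(nat_lit 6, [(nat_lit 6, nat_lit 818)])],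
 ⟨p035_k28, nat_lit 0, nat_lit 0, nat_lit 163, nat_lit 0, nat_lit 254589, [nat_lit 1652456534, nat_lit 980444000], [], [nat_lit 13979807817, nat_lit 14038827353, nat_lit 13861443302, nat_lit 13920298087, nat_lit 14808899160, nat_lit 14877371574, nat_lit 14688257890, nat_lit 14744476546], nat_lit 1271250, nat_lit 1271250, nat_lit 134400, nat_lit 157850, nat_lit 1271250, nat_lit 1271250, [nat_lit 1100000, nat_lit 1442500], [nat_lit 31, nat_lit 40, nat_lit 20, nat_lit 80, nat_lit 3, nat_lit 215, nat_lit 10, nat_lit 8]⟩, ⟨p035_k28, nat_lit 0, nat_lit 0, nat_lit 193, nat_lit 0, nat_lit 254589, [nat_lit 853216000, nat_lit 1137500000], [], [nat_lit 3213403132, nat_lit 3079520255, nat_lit 2676782663, nat_lit 2543098694, nat_lit 2834637953, nat_lit 2895710435, nat_lit 2577042088, nat_lit 2638004716], nat_lit 1271250, nat_lit 1271250, nat_lit 134400, nat_lit 157850, nat_lit 1100001, nat_lit 1442500, [nat_lit 1100000, nat_lit 1442500],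 [nat_lit 31, nat_lit 40, nat_lit 20, nat_lit 80, nat_lit 3, nat_lit 272, nat_lit 60, nat_lit 10]⟩,
 ⟨nat_lit 6123, nat_lit 6145, ⟨.ofNat (nat_lit 197809), .ofNat (nat_lit 205865), .ofNat (nat_lit 198876), .ofNat (nat_lit 206933), .ofNat (nat_lit 198626), .ofNat (nat_lit 206664), .ofNat (nat_lit 199694), .ofNat (nat_lit 207732)⟩, ⟨.ofNat (nat_lit 348136), .ofNat (nat_lit 388419), .ofNat (nat_lit 369485), .ofNat (nat_lit 409769), .ofNat (nat_lit 348056), .ofNat (nat_lit 388246), .ofNat (nat_lit 369404), .ofNat (nat_lit 409594)⟩⟩, [⟨nat_lit 0, nat_lit 100, nat_lit 100, nat_lit 49, nat_lit 703073930⟩]⟩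
noncomputable def p035_l94 : Lf2 := ⟨nat_lit 0, nat_lit 1, [nat_lit 19, nat_lit 5, nat_lit 5, nat_lit 20], false, nat_lit 220, nat_lit 240, nat_lit 200, nat_lit 240, ⟨nat_lit 1000, nat_lit 0, nat_lit 0, nat_lit 0, nat_lit 0, nat_lit 0, nat_lit 0, nat_lit 0, nat_lit 0, nat_lit 0, nat_lit 0, nat_lit 0, nat_lit 0, nat_lit 0, nat_lit 0, nat_lit 0, false, false⟩,
 nat_lit 17571, nat_lit 0, nat_lit 0, nat_lit 0, nat_lit 9715, nat_lit 9715, nat_lit 2131, nat_lit 0, nat_lit 0, nat_lit 2131, nat_lit 0, nat_lit 0, nat_lit 0, nat_lit 0, nat_lit 0, nat_lit 0, nat_lit 0, nat_lit 0, [],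
 ⟨p035_k28, nat_lit 0, nat_lit 0, nat_lit 163, nat_lit 0, nat_lit 254589, [nat_lit 4688000000, nat_lit 6250000000], [], [nat_lit 15043658066, nat_lit 15145623337, nat_lit 14706422285, nat_lit 14808125262, nat_lit 16328992747, nat_lit 16428648623, nat_lit 15990186516, nat_lit 16086444722], nat_lit 1271250, nat_lit 1271250, nat_lit 134400, nat_lit 157850, nat_lit 1271250, nat_lit 1271250, [nat_lit 1100000, nat_lit 1442500], [nat_lit 31, nat_lit 40, nat_lit 20, nat_lit 80, nat_lit 3, nat_lit 215, nat_lit 10, nat_lit 8]⟩, ⟨p035_k28, nat_lit 0, nat_lit 0, nat_lit 173, nat_lit 0, nat_lit 254589, [nat_lit 4688000000, nat_lit 6250000000], [], [nat_lit 13758323385, nat_lit 13865750987, nat_lit 13422658054, nat_lit 13529805803, nat_lit 16328992747, nat_lit 16428648623, nat_lit 15990186516, nat_lit 16086444722], nat_lit 1271250, nat_lit 1271250, nat_lit 134400, nat_lit 157850, nat_lit 1271250, nat_lit 1271250, [nat_lit 1100000,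 nat_lit 1442500], [nat_lit 31, nat_lit 40, nat_lit 20, nat_lit 80, nat_lit 3, nat_lit 215, nat_lit 10, nat_lit 8]⟩,
 zbF0, [⟨nat_lit 0, nat_lit 100, nat_lit 100, nat_lit 49, nat_lit 1610397310⟩]⟩
noncomputable def p035_l95 : Lf2 := ⟨nat_lit 0, nat_lit 1, [nat_lit 19, nat_lit 5, nat_lit 5, nat_lit 20], false, nat_lit 220, nat_lit 240, nat_lit 240, nat_lit 280, ⟨nat_lit 1000, nat_lit 0, nat_lit 0, nat_lit 0, nat_lit 0, nat_lit 0, nat_lit 0, nat_lit 0, nat_lit 0, nat_lit 0, nat_lit 0, nat_lit 0, nat_lit 0, nat_lit 0, nat_lit 0, nat_lit 0, false, false⟩,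
 nat_lit 16632, nat_lit 0, nat_lit 0, nat_lit 0, nat_lit 9196, nat_lit 9196, nat_lit 3556, nat_lit 0, nat_lit 0, nat_lit 460, nat_lit 0, nat_lit 0, nat_lit 0, nat_lit 0, nat_lit 0, nat_lit 0, nat_lit 0, nat_lit 0, [],
 ⟨p035_k28, nat_lit 0, nat_lit 0, nat_lit 163, nat_lit 0, nat_lit 254589, [nat_lit 4688000000, nat_lit 6250000000], [], [nat_lit 14908922814, nat_lit 15007247829, nat_lit 14593227080, nat_lit 14691300503, nat_lit 16158285542, nat_lit 16251402599, nat_lit 15841054433, nat_lit 15933936637], nat_lit 1271250, nat_lit 1271250, nat_lit 134400, nat_lit 157850, nat_lit 1271250, nat_lit 1271250, [nat_lit 1100000, nat_lit 1442500], [nat_lit 31, nat_lit 40, nat_lit 20, nat_lit 80, nat_lit 3, nat_lit 215, nat_lit 10, nat_lit 8]⟩, ⟨p035_k28, nat_lit 0, nat_lit 0, nat_lit 153, nat_lit 0, nat_lit 254589, [nat_lit 4688000000, nat_lit 6250000000], [], [nat_lit 17309610542, nat_lit 17402727599, nat_lit 16992379433, nat_lit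 17085261637, nat_lit 21209706110, nat_lit 21314791883, nat_lit 20882225110, nat_lit 20963422326], nat_lit 1271250, nat_lit 1271250, nat_lit 134400, nat_lit 157850, nat_lit 1271250, nat_lit 1271250, [nat_lit 1100000, nat_lit 1442500], [nat_lit 31, nat_lit 40, nat_lit 20, nat_lit 80, nat_lit 3, nat_lit 215, nat_lit 10, nat_lit 8]⟩,
 zbF0, [⟨nat_lit 0, nat_lit 100, nat_lit 100, nat_lit 49, nat_lit 1312807127⟩, ⟨nat_lit 19, nat_lit 100, nat_lit 98, nat_lit 54, nat_lit 1107486137⟩, ⟨nat_lit 11, nat_lit 98, nat_lit 100, nat_lit 50, nat_lit 247473120⟩]⟩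
noncomputable def p035_l96 : Lf2 := ⟨nat_lit 0, nat_lit 1, [nat_lit 19, nat_lit 5, nat_lit 5, nat_lit 20], true, nat_lit 220, nat_lit 240, nat_lit 0, nat_lit 284, ⟨nat_lit 0, nat_lit 0, nat_lit 1000, nat_lit 6, nat_lit 83, nat_lit 1000, nat_lit 152, nat_lit 1000, nat_lit 216600, nat_lit 329, nat_lit 66150, nat_lit 278, nat_lit 54902839, nat_lit 0, nat_lit 0, nat_lit 3069173, false, false⟩,
 nat_lit 0, nat_lit 7830, nat_lit 0, nat_lit 0, nat_lit 4329, nat_lit 0, nat_lit 952, nat_lit 0, nat_lit 0, nat_lit 0, nat_lit 0, nat_lit 0, nat_lit 0, nat_lit 0, nat_lit 10, nat_lit 1000000, nat_lit 0, nat_lit 0, [(nat_lit 6, [(nat_lit 6, nat_lit 1000)])],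
 ⟨p035_k28, nat_lit 0, nat_lit 0, nat_lit 161, nat_lit 0, nat_lit 254589, [nat_lit 1137066667, nat_lit 8000000], [], [nat_lit 13518664990, nat_lit 13577051534, nat_lit 13432827088, nat_lit 13491052251, nat_lit 14368686744, nat_lit 14424567910, nat_lit 14281101023, nat_lit 14336830095], nat_lit 1271250, nat_lit 1271250, nat_lit 157850, nat_lit 181601, nat_lit 1271250, nat_lit 1271250, [nat_lit 1100000, nat_lit 1442500], [nat_lit 31, nat_lit 40, nat_lit 20, nat_lit 80, nat_lit 3, nat_lit 215, nat_lit 10, nat_lit 8]⟩, C1.Rw.none,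
 ⟨nat_lit 6123, nat_lit 6145, ⟨.ofNat (nat_lit 201596), .ofNat (nat_lit 209652), .ofNat (nat_lit 206933), .ofNat (nat_lit 214990), .ofNat (nat_lit 202395), .ofNat (nat_lit 210433), .ofNat (nat_lit 207732), .ofNat (nat_lit 215770)⟩, ⟨.ofNat (nat_lit 348136), .ofNat (nat_lit 388419), .ofNat (nat_lit 369485), .ofNat (nat_lit 409769), .ofNat (nat_lit 348056), .ofNat (nat_lit 388246), .ofNat (nat_lit 369404), .ofNat (nat_lit 409594)⟩⟩, []⟩
noncomputable def p035_l97 : Lf2 := ⟨nat_lit 0, nat_lit 1, [nat_lit 19, nat_lit 5, nat_lit 5, nat_lit 20], true, nat_lit 220, nat_lit 240, nat_lit 0, nat_lit 284, ⟨nat_lit 0, nat_lit 0, nat_lit 1000, nat_lit 6, nat_lit 88, nat_lit 1000, nat_lit 152, nat_lit 1000, nat_lit 216600, nat_lit 329, nat_lit 72600, nat_lit 281, nat_lit 54585317, nat_lit 0, nat_lit 0, nat_lit 3141566, false, false⟩,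
 nat_lit 0, nat_lit 7896, nat_lit 0, nat_lit 0, nat_lit 4365, nat_lit 0, nat_lit 969, nat_lit 0, nat_lit 0, nat_lit 0, nat_lit 0, nat_lit 0, nat_lit 0, nat_lit 0, nat_lit 10, nat_lit 1000000, nat_lit 0, nat_lit 0, [(nat_lit 6, [(nat_lit 6, nat_lit 1000)])],
 ⟨p035_k28, nat_lit 0, nat_lit 0, nat_lit 159, nat_lit 0, nat_lit 254589, [nat_lit 1137066667, nat_lit 8000000], [], [nat_lit 13367774743, nat_lit 13426220684, nat_lit 13193551812, nat_lit 13251673321, nat_lit 14218288265, nat_lit 14274222546, nat_lit 14040556528, nat_lit 14096185069], nat_lit 1271250, nat_lit 1271250, nat_lit 181601, nat_lit 230001, nat_lit 1271250, nat_lit 1271250, [nat_lit 1100000, nat_lit 1442500], [nat_lit 31, nat_lit 40, nat_lit 20, nat_lit 80, nat_lit 3, nat_lit 215, nat_lit 10, nat_lit 8]⟩, C1.Rw.none,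
 ⟨nat_lit 6123, nat_lit 6145, ⟨.ofNat (nat_lit 209652), .ofNat (nat_lit 225766), .ofNat (nat_lit 214990), .ofNat (nat_lit 231103), .ofNat (nat_lit 210433), .ofNat (nat_lit 226509), .ofNat (nat_lit 215770), .ofNat (nat_lit 231846)⟩, ⟨.ofNat (nat_lit 348136), .ofNat (nat_lit 388419), .ofNat (nat_lit 369485), .ofNat (nat_lit 409769), .ofNat (nat_lit 348056), .ofNat (nat_lit 388246), .ofNat (nat_lit 369404), .ofNat (nat_lit 409594)⟩⟩, []⟩
noncomputable def p035_l98 : Lf2 := ⟨nat_lit 0, nat_lit 2, [nat_lit 10, nat_lit 5, nat_lit 5, nat_lit 20], true, nat_lit 200, nat_lit 240, nat_lit 0, nat_lit 284, ⟨nat_lit 0, nat_lit 0, nat_lit 1000, nat_lit 6, nat_lit 83, nat_lit 1000, nat_lit 144, nat_lit 1000, nat_lit 194400, nat_lit 323, nat_lit 64067, nat_lit 277, nat_lit 55669184, nat_lit 0, nat_lit 0, nat_lit 2950956, false, false⟩,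
 nat_lit 0, nat_lit 7898, nat_lit 0, nat_lit 0, nat_lit 4284, nat_lit 0, nat_lit 119, nat_lit 0, nat_lit 0, nat_lit 0, nat_lit 0, nat_lit 0, nat_lit 0, nat_lit 22992355163183, nat_lit 80, nat_lit 1000000, nat_lit 0, nat_lit 0, [(nat_lit 6, [(nat_lit 6, nat_lit 1000)])],
 ⟨p035_k6, nat_lit 0, nat_lit 0, nat_lit 174, nat_lit 0, nat_lit 215677, [nat_lit 2257066667, nat_lit 1408000000, nat_lit 211200000], [], [nat_lit 12927711990, nat_lit 13186612033, nat_lit 12487063600, nat_lit 12742550493, nat_lit 14465777932, nat_lit 14725461248, nat_lit 14029189726, nat_lit 14285430580], nat_lit 1271250, nat_lit 1271250, nat_lit 111251, nat_lit 230001, nat_lit 1271250, nat_lit 1271250, [nat_lit 1100000, nat_lit 1442500, nat_lit 1271250], [nat_lit 9, nat_lit 40, nat_lit 20, nat_lit 80, nat_lit 2, nat_lit 289, nat_lit 75, nat_lit 9]⟩, C1.Rw.none,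
 ⟨nat_lit 6123, nat_lit 6225, ⟨.ofNat (nat_lit 182121), .ofNat (nat_lit 222780), .ofNat (nat_lit 187461), .ofNat (nat_lit 228119), .ofNat (nat_lit 186319), .ofNat (nat_lit 226509), .ofNat (nat_lit 191656), .ofNat (nat_lit 231846)⟩, ⟨.ofNat (nat_lit 307788), .ofNat (nat_lit 389106), .ofNat (nat_lit 329145), .ofNat (nat_lit 410463), .ofNat (nat_lit 307865), .ofNat (nat_lit 388246), .ofNat (nat_lit 329214), .ofNat (nat_lit 409594)⟩⟩, [⟨nat_lit 0, nat_lit 100, nat_lit 100, nat_lit 50, nat_lit 221528444⟩]⟩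
noncomputable def p035_l99 : Lf2 := ⟨nat_lit 0, nat_lit 2, [nat_lit 10, nat_lit 5, nat_lit 5, nat_lit 20], true, nat_lit 200, nat_lit 240, nat_lit 0, nat_lit 284, ⟨nat_lit 0, nat_lit 0, nat_lit 1000, nat_lit 6, nat_lit 107, nat_lit 1000, nat_lit 144, nat_lit 1000, nat_lit 194400, nat_lit 323, nat_lit 106667, nat_lit 295, nat_lit 53982113, nat_lit 0, nat_lit 0, nat_lit 3311009, false, false⟩,
 nat_lit 0, nat_lit 8186, nat_lit 0, nat_lit 0, nat_lit 4440, nat_lit 0, nat_lit 362, nat_lit 0, nat_lit 0, nat_lit 0, nat_lit 0, nat_lit 0, nat_lit 0, nat_lit 0, nat_lit 80, nat_lit 1000000, nat_lit 0, nat_lit 0, [(nat_lit 6, [(nat_lit 6, nat_lit 1000)])],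
 ⟨p035_k6, nat_lit 0, nat_lit 0, nat_lit 167, nat_lit 0, nat_lit 264247, [nat_lit 2257066667, nat_lit 1408000000, nat_lit 211200000], [], [nat_lit 12114369257, nat_lit 12397640137, nat_lit 11847149987, nat_lit 12119595197, nat_lit 13700284357, nat_lit 13960415494, nat_lit 13398319394, nat_lit 13667962094], nat_lit 1271250, nat_lit 1271250, nat_lit 230001, nat_lit 490000, nat_lit 1271250, nat_lit 1271250, [nat_lit 1100000, nat_lit 1442500, nat_lit 1271250], [nat_lit 9, nat_lit 40, nat_lit 20, nat_lit 80, nat_lit 2, nat_lit 317, nat_lit 100, nat_lit 10]⟩, C1.Rw.none,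
 ⟨nat_lit 6123, nat_lit 6225, ⟨.ofNat (nat_lit 222780), .ofNat (nat_lit 304098), .ofNat (nat_lit 228119), .ofNat (nat_lit 309437), .ofNat (nat_lit 226509), .ofNat (nat_lit 306890), .ofNat (nat_lit 231846), .ofNat (nat_lit 312227)⟩, ⟨.ofNat (nat_lit 307788), .ofNat (nat_lit 389106), .ofNat (nat_lit 329145), .ofNat (nat_lit 410463), .ofNat (nat_lit 307865), .ofNat (nat_lit 388246), .ofNat (nat_lit 329214), .ofNat (nat_lit 409594)⟩⟩, []⟩
noncomputable def p035_l100 : Lf2 := ⟨nat_lit 0, nat_lit 5, [nat_lit 4, nat_lit 5, nat_lit 5, nat_lit 20], true, nat_lit 200, nat_lit 240, nat_lit 0, nat_lit 288, ⟨nat_lit 0, nat_lit 0, nat_lit 1000, nat_lit 6, nat_lit 95, nat_lit 1000, nat_lit 144, nat_lit 1000, nat_lit 194400, nat_lit 323, nat_lit 84017, nat_lit 286, nat_lit 54870781, nat_lit 0, nat_lit 0, nat_lit 3128461, false, false⟩,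
 nat_lit 0, nat_lit 8282, nat_lit 0, nat_lit 0, nat_lit 4384, nat_lit 0, nat_lit 7, nat_lit 0, nat_lit 0, nat_lit 0, nat_lit 0, nat_lit 0, nat_lit 0, nat_lit 0, nat_lit 147, nat_lit 1000000, nat_lit 0, nat_lit 0, [(nat_lit 6, [(nat_lit 6, nat_lit 1000)])],
 ⟨p035_k0, nat_lit 0, nat_lit 0, nat_lit 182, nat_lit 0, nat_lit 164884, [nat_lit 3329066667, nat_lit 3042400001, nat_lit 177599999], [], [nat_lit 13060116271, nat_lit 13613829223, nat_lit 12063509564, nat_lit 12605356076, nat_lit 14551670911, nat_lit 15061031297, nat_lit 13611337388, nat_lit 14109452604], nat_lit 1271250, nat_lit 1271250, nat_lit 88400, nat_lit 490000, nat_lit 1271250, nat_lit 1271250, [nat_lit 1100000, nat_lit 1442500, nat_lit 1271250], [nat_lit 11, nat_lit 40, nat_lit 20, nat_lit 80, nat_lit 1, nat_lit 373, nat_lit 150, nat_lit 11]⟩, C1.Rw.none,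
 ⟨nat_lit 6123, nat_lit 6325, ⟨.ofNat (nat_lit 164319), .ofNat (nat_lit 295942), .ofNat (nat_lit 169661), .ofNat (nat_lit 301284), .ofNat (nat_lit 172944), .ofNat (nat_lit 301553), .ofNat (nat_lit 178281), .ofNat (nat_lit 306890)⟩, ⟨.ofNat (nat_lit 307688), .ofNat (nat_lit 389952), .ofNat (nat_lit 329055), .ofNat (nat_lit 411320), .ofNat (nat_lit 307865), .ofNat (nat_lit 388246), .ofNat (nat_lit 329214), .ofNat (nat_lit 409594)⟩⟩, [⟨nat_lit 0, nat_lit 100, nat_lit 99, nat_lit 47, nat_lit 189345735⟩]⟩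
noncomputable def p035_l101 : Lf2 := ⟨nat_lit 0, nat_lit 4, [nat_lit 38, nat_lit 5, nat_lit 5, nat_lit 20], true, nat_lit 200, nat_lit 240, nat_lit 0, nat_lit 284, ⟨nat_lit 0, nat_lit 0, nat_lit 1000, nat_lit 6, nat_lit 99, nat_lit 1000, nat_lit 144, nat_lit 1000, nat_lit 194400, nat_lit 323, nat_lit 91267, nat_lit 289, nat_lit 54563993, nat_lit 0, nat_lit 0, nat_lit 3193513, false, false⟩,
 nat_lit 0, nat_lit 7898, nat_lit 0, nat_lit 0, nat_lit 4284, nat_lit 0, nat_lit 119, nat_lit 0, nat_lit 0, nat_lit 0, nat_lit 0, nat_lit 0, nat_lit 0, nat_lit 0, nat_lit 80, nat_lit 1000000, nat_lit 0, nat_lit 0, [(nat_lit 6, [(nat_lit 6, nat_lit 1000)])],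
 ⟨p035_k29, nat_lit 0, nat_lit 0, nat_lit 171, nat_lit 0, nat_lit 179119, [nat_lit 2257066667, nat_lit 1408000000, nat_lit 211200000], [], [nat_lit 12927711990, nat_lit 13186612033, nat_lit 12228988769, nat_lit 12497194250, nat_lit 14465777932, nat_lit 14725461248, nat_lit 13745220170, nat_lit 13991932828], nat_lit 1271250, nat_lit 1271250, nat_lit 111251, nat_lit 490000, nat_lit 1271250, nat_lit 1271250, [nat_lit 1100000, nat_lit 1442500, nat_lit 1271250], [nat_lit 9, nat_lit 40, nat_lit 20, nat_lit 80, nat_lit 2, nat_lit 317, nat_lit 100, nat_lit 10]⟩, C1.Rw.none,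
 ⟨nat_lit 6123, nat_lit 6225, ⟨.ofNat (nat_lit 182121), .ofNat (nat_lit 304098), .ofNat (nat_lit 187461), .ofNat (nat_lit 309437), .ofNat (nat_lit 186319), .ofNat (nat_lit 306890), .ofNat (nat_lit 191656), .ofNat (nat_lit 312227)⟩, ⟨.ofNat (nat_lit 307788), .ofNat (nat_lit 389106), .ofNat (nat_lit 329145), .ofNat (nat_lit 410463), .ofNat (nat_lit 307865), .ofNat (nat_lit 388246), .ofNat (nat_lit 329214), .ofNat (nat_lit 409594)⟩⟩, [⟨nat_lit 0, nat_lit 100, nat_lit 100, nat_lit 50, nat_lit 176240003⟩]⟩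
noncomputable def p035_l102 : Lf2 := ⟨nat_lit 0, nat_lit 5, [nat_lit 4, nat_lit 5, nat_lit 5, nat_lit 20], true, nat_lit 200, nat_lit 240, nat_lit 0, nat_lit 284, ⟨nat_lit 0, nat_lit 0, nat_lit 1000, nat_lit 6, nat_lit 99, nat_lit 1000, nat_lit 144, nat_lit 1000, nat_lit 194400, nat_lit 323, nat_lit 91267, nat_lit 289, nat_lit 54563993, nat_lit 0, nat_lit 0, nat_lit 3193513, false, false⟩,
 nat_lit 0, nat_lit 8204, nat_lit 0, nat_lit 0, nat_lit 4450, nat_lit 0, nat_lit 43, nat_lit 0, nat_lit 0, nat_lit 0, nat_lit 0, nat_lit 0, nat_lit 0, nat_lit 24863991258134, nat_lit 144, nat_lit 973000, nat_lit 0, nat_lit 0, [(nat_lit 6, [(nat_lit 5, nat_lit 45), (nat_lit 6, nat_lit 955)])],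
 ⟨p035_k1, nat_lit 0, nat_lit 0, nat_lit 165, nat_lit 0, nat_lit 106276, [nat_lit 3300890667, nat_lit 2981392001, nat_lit 179351999], [], [nat_lit 13053864949, nat_lit 13332342149, nat_lit 12203850081, nat_lit 12476567068, nat_lit 14529095899, nat_lit 14790408876, nat_lit 13736234568, nat_lit 13986839843], nat_lit 1271250, nat_lit 1271250, nat_lit 111251, nat_lit 490000, nat_lit 1271250, nat_lit 1271250, [nat_lit 1100000, nat_lit 1442500, nat_lit 1271250], [nat_lit 11, nat_lit 40, nat_lit 20, nat_lit 80, nat_lit 1, nat_lit 373, nat_lit 150, nat_lit 10]⟩, C1.Rw.none,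
 ⟨nat_lit 6123, nat_lit 6225, ⟨.ofNat (nat_lit 182121), .ofNat (nat_lit 304098), .ofNat (nat_lit 187461), .ofNat (nat_lit 309437), .ofNat (nat_lit 186319), .ofNat (nat_lit 306890), .ofNat (nat_lit 191656), .ofNat (nat_lit 312227)⟩, ⟨.ofNat (nat_lit 307788), .ofNat (nat_lit 389106), .ofNat (nat_lit 329145), .ofNat (nat_lit 410463), .ofNat (nat_lit 307865), .ofNat (nat_lit 388246), .ofNat (nat_lit 329214), .ofNat (nat_lit 409594)⟩⟩, [⟨nat_lit 0, nat_lit 100, nat_lit 100, nat_lit 50, nat_lit 182066892⟩]⟩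
noncomputable def p035_l103 : Lf2 := ⟨nat_lit 0, nat_lit 8, [nat_lit 50, nat_lit 5, nat_lit 5, nat_lit 20], true, nat_lit 200, nat_lit 240, nat_lit 0, nat_lit 288, ⟨nat_lit 0, nat_lit 0, nat_lit 1000, nat_lit 6, nat_lit 96, nat_lit 1000, nat_lit 144, nat_lit 1000, nat_lit 194400, nat_lit 323, nat_lit 86400, nat_lit 287, nat_lit 54796389, nat_lit 0, nat_lit 0, nat_lit 3144327, false, false⟩,
 nat_lit 0, nat_lit 8302, nat_lit 0, nat_lit 0, nat_lit 4395, nat_lit 0, nat_lit 8, nat_lit 0, nat_lit 0, nat_lit 0, nat_lit 0, nat_lit 0, nat_lit 0, nat_lit 24318391171887, nat_lit 147, nat_lit 1000000, nat_lit 0, nat_lit 0, [(nat_lit 6, [(nat_lit 6, nat_lit 1000)])],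
 ⟨p035_k22, nat_lit 0, nat_lit 0, nat_lit 167, nat_lit 0, nat_lit 78008, [nat_lit 3329066667, nat_lit 3042400001, nat_lit 177599999], [], [nat_lit 13053098398, nat_lit 13607405657, nat_lit 12039766548, nat_lit 12582210971, nat_lit 14545536447, nat_lit 15054462746, nat_lit 13588705768, nat_lit 14087336873], nat_lit 1271250, nat_lit 1271250, nat_lit 88400, nat_lit 490000, nat_lit 1271250, nat_lit 1271250, [nat_lit 1100000, nat_lit 1442500, nat_lit 1271250], [nat_lit 11, nat_lit 40, nat_lit 20, nat_lit 80, nat_lit 1, nat_lit 373, nat_lit 150, nat_lit 11]⟩, C1.Rw.none,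
 ⟨nat_lit 6123, nat_lit 6325, ⟨.ofNat (nat_lit 164319), .ofNat (nat_lit 295942), .ofNat (nat_lit 175003), .ofNat (nat_lit 306625), .ofNat (nat_lit 172944), .ofNat (nat_lit 301553), .ofNat (nat_lit 183618), .ofNat (nat_lit 312227)⟩, ⟨.ofNat (nat_lit 307688), .ofNat (nat_lit 389952), .ofNat (nat_lit 329055), .ofNat (nat_lit 411320), .ofNat (nat_lit 307865), .ofNat (nat_lit 388246), .ofNat (nat_lit 329214), .ofNat (nat_lit 409594)⟩⟩, [⟨nat_lit 0, nat_lit 100, nat_lit 100, nat_lit 50, nat_lit 189397153⟩]⟩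
noncomputable def b_VL_600_600_5_35 : St := ⟨true, nat_lit 1, nat_lit 1, nat_lit 1, nat_lit 40, nat_lit 240, nat_lit 250, nat_lit 240, nat_lit 250, nat_lit 16, nat_lit 80, nat_lit 20, nat_lit 40, nat_lit 200, nat_lit 240, nat_lit 0, nat_lit 288, nat_lit 0, nat_lit 32, nat_lit 0, nat_lit 0, nat_lit 0, nat_lit 0⟩
theorem d_VL_600_600_5_35 (h : EB TB.env) : Dead b_VL_600_600_5_35 := chkB_sound0 h (T :=
(.spl (nat_lit 6) (nat_lit 20)
(.spl (nat_lit 6) (nat_lit 8)
(.spl (nat_lit 1) (nat_lit 245)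
(.spl (nat_lit 0) (nat_lit 245)
(.leaf p035_l82)
(.leaf p035_l83))
(.ord (.trZ (nat_lit 0) (nat_lit 100) (nat_lit 100) (nat_lit 45) (nat_lit 20) (.trX (nat_lit 19) (nat_lit 100) (nat_lit 94) (nat_lit 62) (nat_lit 284) (.spl (nat_lit 2) (nat_lit 40)
(.spl (nat_lit 6) (nat_lit 4)
(.spl (nat_lit 0) (nat_lit 248)
(.ord (.leaf p035_l84))
(.spl (nat_lit 4) (nat_lit 220)
(.leaf p035_l85)
(.spl (nat_lit 0) (nat_lit 249)
(.ord (.spl (nat_lit 2) (nat_lit 32)
(.spl (nat_lit 2) (nat_lit 24)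
(.trX (nat_lit 23) (nat_lit 100) (nat_lit 93) (nat_lit 48) (nat_lit 280) (.leaf p035_l86))
(.leaf p035_l87))
(.leaf p035_l88)))
(.spl (nat_lit 2) (nat_lit 32)
(.spl (nat_lit 2) (nat_lit 24)
(.trX (nat_lit 23) (nat_lit 100) (nat_lit 93) (nat_lit 48) (nat_lit 280) (.leaf p035_l89))
(.spl (nat_lit 2) (nat_lit 28)
(.spl (nat_lit 1) (nat_lit 248)
(.leaf p035_l90)
(.trX (nat_lit 19) (nat_lit 100) (nat_lit 95) (nat_lit 62) (nat_lit 280) (.spl (nat_lit 1) (nat_lit 249)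
(.leaf p035_l91)
(.spl (nat_lit 5) (nat_lit 160)
(.leaf p035_l92)
(.spl (nat_lit 5) (nat_lit 240)
(.spl (nat_lit 5) (nat_lit 200)
(.leaf p035_l93)
(.leaf p035_l94))
(.leaf p035_l95))))))
(.leaf p035_l96)))
(.leaf p035_l97)))))
(.leaf p035_l98))
(.leaf p035_l99))))))
(.spl (nat_lit 1) (nat_lit 245)
(.leaf p035_l100)
(.ord (.trZ (nat_lit 0) (nat_lit 100) (nat_lit 100) (nat_lit 45) (nat_lit 20) (.trX (nat_lit 19) (nat_lit 100) (nat_lit 94) (nat_lit 62) (nat_lit 284) (.spl (nat_lit 6) (nat_lit 16)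
(.leaf p035_l101)
(.leaf p035_l102)))))))
(.leaf p035_l103))) (by decide +kernel)
noncomputable def p035_l104 : Lf2 := ⟨nat_lit 0, nat_lit 2, [nat_lit 10, nat_lit 5, nat_lit 5, nat_lit 20], false, nat_lit 160, nat_lit 180, nat_lit 0, nat_lit 288, ⟨nat_lit 0, nat_lit 0, nat_lit 1000, nat_lit 6, nat_lit 136, nat_lit 1000, nat_lit 103, nat_lit 1000, nat_lit 98817, nat_lit 292, nat_lit 173400, nat_lit 317, nat_lit 54915574, nat_lit 0, nat_lit 0, nat_lit 3151286, false, false⟩,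
 nat_lit 9277, nat_lit 0, nat_lit 0, nat_lit 0, nat_lit 4911, nat_lit 0, nat_lit 0, nat_lit 0, nat_lit 0, nat_lit 0, nat_lit 0, nat_lit 0, nat_lit 0, nat_lit 0, nat_lit 80, nat_lit 1000000, nat_lit 0, nat_lit 0, [(nat_lit 6, [(nat_lit 6, nat_lit 1000)])],
 ⟨p035_k5, nat_lit 0, nat_lit 0, nat_lit 167, nat_lit 0, nat_lit 223935, [nat_lit 2257066667, nat_lit 1408000000, nat_lit 211200000], [], [nat_lit 7868217967, nat_lit 8268814267, nat_lit 8322221759, nat_lit 8702365681, nat_lit 8899570375, nat_lit 9284114077, nat_lit 9303988387, nat_lit 9668995758], nat_lit 1271250, nat_lit 1271250, nat_lit 490000, nat_lit 780000, nat_lit 1100001, nat_lit 1271250, [nat_lit 1100000, nat_lit 1442500, nat_lit 1271250], [nat_lit 9, nat_lit 40, nat_lit 20, nat_lit 80, nat_lit 2, nat_lit 289, nat_lit 75, nat_lit 9]⟩, ⟨p035_k5, nat_lit 0, nat_lit 0, nat_lit 247, nat_lit 0, nat_lit 223935, [nat_lit 0, nat_lit 0, nat_lit 0], [], [nat_lit 0, nat_lit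 0, nat_lit 0, nat_lit 0, nat_lit 0, nat_lit 0, nat_lit 0, nat_lit 0], nat_lit 1271250, nat_lit 1271250, nat_lit 490000, nat_lit 780000, nat_lit 0, nat_lit 2034000, [nat_lit 1100000, nat_lit 1442500, nat_lit 1271250], [nat_lit 9, nat_lit 40, nat_lit 20, nat_lit 80, nat_lit 2, nat_lit 345, nat_lit 125, nat_lit 12]⟩,
 ⟨nat_lit 6224, nat_lit 6325, ⟨.ofNat (nat_lit 295942), .ofNat (nat_lit 378206), .ofNat (nat_lit 301284), .ofNat (nat_lit 383548), .ofNat (nat_lit 298759), .ofNat (nat_lit 380076), .ofNat (nat_lit 304098), .ofNat (nat_lit 385416)⟩, ⟨.ofNat (nat_lit 225423), .ofNat (nat_lit 266555), .ofNat (nat_lit 246791), .ofNat (nat_lit 287923), .ofNat (nat_lit 226471), .ofNat (nat_lit 267130), .ofNat (nat_lit 247827), .ofNat (nat_lit 288486)⟩⟩, []⟩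
noncomputable def p035_l105 : Lf2 := ⟨nat_lit 0, nat_lit 2, [nat_lit 10, nat_lit 5, nat_lit 5, nat_lit 20], false, nat_lit 160, nat_lit 180, nat_lit 0, nat_lit 288, ⟨nat_lit 0, nat_lit 0, nat_lit 1000, nat_lit 6, nat_lit 138, nat_lit 1000, nat_lit 103, nat_lit 1000, nat_lit 98817, nat_lit 292, nat_lit 180267, nat_lit 319, nat_lit 54720347, nat_lit 0, nat_lit 0, nat_lit 3183484, false, false⟩,
 nat_lit 0, nat_lit 8916, nat_lit 0, nat_lit 0, nat_lit 4836, nat_lit 0, nat_lit 0, nat_lit 0, nat_lit 0, nat_lit 0, nat_lit 0, nat_lit 0, nat_lit 0, nat_lit 0, nat_lit 80, nat_lit 1000000, nat_lit 0, nat_lit 0, [(nat_lit 6, [(nat_lit 6, nat_lit 1000)])],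
 ⟨p035_k6, nat_lit 0, nat_lit 0, nat_lit 167, nat_lit 0, nat_lit 264247, [nat_lit 2257066667, nat_lit 1408000000, nat_lit 211200000], [], [nat_lit 8384988929, nat_lit 8782232391, nat_lit 8826852631, nat_lit 9203876403, nat_lit 9394259611, nat_lit 9775640946, nat_lit 9787965849, nat_lit 10150032310], nat_lit 1271250, nat_lit 1271250, nat_lit 490000, nat_lit 780000, nat_lit 1100001, nat_lit 1271250, [nat_lit 1100000, nat_lit 1442500, nat_lit 1271250], [nat_lit 9, nat_lit 40, nat_lit 20, nat_lit 80, nat_lit 2, nat_lit 289, nat_lit 75, nat_lit 9]⟩, ⟨p035_k5, nat_lit 0, nat_lit 0, nat_lit 251, nat_lit 0, nat_lit 271617, [nat_lit 0, nat_lit 0, nat_lit 0], [], [nat_lit 0, nat_lit 0, nat_lit 0, nat_lit 0, nat_lit 0, nat_lit 0, nat_lit 0, nat_lit 0], nat_lit 1271250, nat_lit 1271250, nat_lit 490000, nat_lit 780000, nat_lit 0, nat_lit 2034000, [nat_lit 1100000, nat_lit 1442500, nat_lit 1271250], [nat_lit 9, nat_lit 40, nat_lit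 20, nat_lit 80, nat_lit 2, nat_lit 345, nat_lit 125, nat_lit 12]⟩,
 ⟨nat_lit 6123, nat_lit 6225, ⟨.ofNat (nat_lit 298759), .ofNat (nat_lit 380076), .ofNat (nat_lit 309437), .ofNat (nat_lit 390755), .ofNat (nat_lit 301553), .ofNat (nat_lit 381933), .ofNat (nat_lit 312227), .ofNat (nat_lit 392607)⟩, ⟨.ofNat (nat_lit 226471), .ofNat (nat_lit 267130), .ofNat (nat_lit 247827), .ofNat (nat_lit 288486), .ofNat (nat_lit 227485), .ofNat (nat_lit 267675), .ofNat (nat_lit 248833), .ofNat (nat_lit 289023)⟩⟩, []⟩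
noncomputable def p035_l106 : Lf2 := ⟨nat_lit 0, nat_lit 2, [nat_lit 10, nat_lit 5, nat_lit 5, nat_lit 20], false, nat_lit 180, nat_lit 200, nat_lit 0, nat_lit 288, ⟨nat_lit 0, nat_lit 0, nat_lit 1000, nat_lit 6, nat_lit 138, nat_lit 1000, nat_lit 119, nat_lit 1000, nat_lit 132017, nat_lit 304, nat_lit 176817, nat_lit 318, nat_lit 53554164, nat_lit 0, nat_lit 0, nat_lit 3407289, false, false⟩,
 nat_lit 8846, nat_lit 0, nat_lit 0, nat_lit 0, nat_lit 4683, nat_lit 0, nat_lit 0, nat_lit 0, nat_lit 0, nat_lit 0, nat_lit 0, nat_lit 0, nat_lit 0, nat_lit 0, nat_lit 80, nat_lit 1000000, nat_lit 0, nat_lit 0, [(nat_lit 6, [(nat_lit 6, nat_lit 1000)])],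
 ⟨p035_k5, nat_lit 0, nat_lit 0, nat_lit 160, nat_lit 0, nat_lit 271617, [nat_lit 2257066667, nat_lit 1408000000, nat_lit 211200000], [], [nat_lit 9244026391, nat_lit 9993886611, nat_lit 9674597827, nat_lit 10386731840, nat_lit 10256471215, nat_lit 10975384307, nat_lit 10639048311, nat_lit 11321999005], nat_lit 1271250, nat_lit 1271250, nat_lit 490000, nat_lit 780000, nat_lit 1271250, nat_lit 1271250, [nat_lit 1100000, nat_lit 1442500, nat_lit 1271250], [nat_lit 9, nat_lit 40, nat_lit 20, nat_lit 80, nat_lit 2, nat_lit 317, nat_lit 100, nat_lit 10]⟩, ⟨p035_k5, nat_lit 0, nat_lit 0, nat_lit 251, nat_lit 0, nat_lit 271617, [nat_lit 0, nat_lit 0, nat_lit 0], [], [nat_lit 0, nat_lit 0, nat_lit 0, nat_lit 0, nat_lit 0, nat_lit 0, nat_lit 0, nat_lit 0], nat_lit 1271250, nat_lit 1271250, nat_lit 490000, nat_lit 780000, nat_lit 0, nat_lit 2034000, [nat_lit 1100000, nat_lit 1442500, nat_lit 1271250], [nat_lit 9, nat_lit 40, nat_lit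 20, nat_lit 80, nat_lit 2, nat_lit 345, nat_lit 125, nat_lit 12]⟩,
 ⟨nat_lit 6123, nat_lit 6325, ⟨.ofNat (nat_lit 295942), .ofNat (nat_lit 378206), .ofNat (nat_lit 306625), .ofNat (nat_lit 388890), .ofNat (nat_lit 301553), .ofNat (nat_lit 381933), .ofNat (nat_lit 312227), .ofNat (nat_lit 392607)⟩, ⟨.ofNat (nat_lit 266555), .ofNat (nat_lit 307688), .ofNat (nat_lit 287923), .ofNat (nat_lit 329055), .ofNat (nat_lit 267675), .ofNat (nat_lit 307865), .ofNat (nat_lit 289023), .ofNat (nat_lit 329214)⟩⟩, []⟩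
noncomputable def p035_l107 : Lf2 := ⟨nat_lit 0, nat_lit 5, [nat_lit 4, nat_lit 5, nat_lit 5, nat_lit 20], false, nat_lit 160, nat_lit 200, nat_lit 0, nat_lit 288, ⟨nat_lit 0, nat_lit 0, nat_lit 1000, nat_lit 6, nat_lit 138, nat_lit 1000, nat_lit 111, nat_lit 1000, nat_lit 114817, nat_lit 298, nat_lit 176817, nat_lit 318, nat_lit 54171802, nat_lit 0, nat_lit 0, nat_lit 3292584, false, false⟩,
 nat_lit 9717, nat_lit 0, nat_lit 0, nat_lit 0, nat_lit 5144, nat_lit 0, nat_lit 0, nat_lit 0, nat_lit 0, nat_lit 0, nat_lit 0, nat_lit 0, nat_lit 0, nat_lit 0, nat_lit 69, nat_lit 400000, nat_lit 0, nat_lit 0, [(nat_lit 6, [(nat_lit 5, nat_lit 1000)])],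
 ⟨p035_k0, nat_lit 0, nat_lit 0, nat_lit 164, nat_lit 0, nat_lit 189636, [nat_lit 2521600001, nat_lit 1460000001, nat_lit 7200000], [], [nat_lit 7937419201, nat_lit 8759444097, nat_lit 8366322369, nat_lit 9145996745, nat_lit 10038768465, nat_lit 10794216037, nat_lit 10365247393, nat_lit 11082148201], nat_lit 1271250, nat_lit 1271250, nat_lit 490000, nat_lit 780000, nat_lit 1100001, nat_lit 1442500, [nat_lit 1100000, nat_lit 1442500, nat_lit 1271250], [nat_lit 11, nat_lit 40, nat_lit 20, nat_lit 80, nat_lit 1, nat_lit 373, nat_lit 150, nat_lit 10]⟩, ⟨p035_k0, nat_lit 0, nat_lit 0, nat_lit 293, nat_lit 0, nat_lit 189636, [nat_lit 0, nat_lit 0, nat_lit 0], [], [nat_lit 0, nat_lit 0, nat_lit 0, nat_lit 0, nat_lit 0, nat_lit 0, nat_lit 0, nat_lit 0], nat_lit 1271250, nat_lit 1271250, nat_lit 490000, nat_lit 780000, nat_lit 0, nat_lit 2034000, [nat_lit 1100000, nat_lit 1442500, nat_lit 1271250], [nat_lit 11, nat_lit 40, nat_lit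 20, nat_lit 80, nat_lit 1, nat_lit 401, nat_lit 175, nat_lit 12]⟩,
 ⟨nat_lit 6123, nat_lit 6325, ⟨.ofNat (nat_lit 295942), .ofNat (nat_lit 378206), .ofNat (nat_lit 306625), .ofNat (nat_lit 388890), .ofNat (nat_lit 301553), .ofNat (nat_lit 381933), .ofNat (nat_lit 312227), .ofNat (nat_lit 392607)⟩, ⟨.ofNat (nat_lit 225423), .ofNat (nat_lit 307688), .ofNat (nat_lit 246791), .ofNat (nat_lit 329055), .ofNat (nat_lit 227485), .ofNat (nat_lit 307865), .ofNat (nat_lit 248833), .ofNat (nat_lit 329214)⟩⟩, []⟩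
noncomputable def p035_l108 : Lf2 := ⟨nat_lit 0, nat_lit 5, [nat_lit 4, nat_lit 5, nat_lit 5, nat_lit 20], false, nat_lit 200, nat_lit 240, nat_lit 0, nat_lit 288, ⟨nat_lit 0, nat_lit 0, nat_lit 1000, nat_lit 6, nat_lit 138, nat_lit 1000, nat_lit 144, nat_lit 1000, nat_lit 194400, nat_lit 323, nat_lit 176817, nat_lit 318, nat_lit 51615810, nat_lit 0, nat_lit 0, nat_lit 3729466, false, false⟩,
 nat_lit 9342, nat_lit 0, nat_lit 0, nat_lit 0, nat_lit 4945, nat_lit 0, nat_lit 307, nat_lit 0, nat_lit 0, nat_lit 0, nat_lit 0, nat_lit 0, nat_lit 0, nat_lit 29953332272993, nat_lit 111, nat_lit 723400, nat_lit 0, nat_lit 0, [(nat_lit 6, [(nat_lit 5, nat_lit 461), (nat_lit 6, nat_lit 539)])],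
 ⟨p035_k0, nat_lit 0, nat_lit 0, nat_lit 176, nat_lit 0, nat_lit 284551, [nat_lit 2956152534, nat_lit 2312073601, nat_lit 48081599], [], [nat_lit 11122734539, nat_lit 11680261884, nat_lit 12615925055, nat_lit 11848543193, nat_lit 12649884235, nat_lit 13174309790, nat_lit 12826114895, nat_lit 13323976455], nat_lit 1271250, nat_lit 1271250, nat_lit 490000, nat_lit 780000, nat_lit 1271250, nat_lit 1271250, [nat_lit 1100000, nat_lit 1442500, nat_lit 1271250], [nat_lit 11, nat_lit 40, nat_lit 20, nat_lit 80, nat_lit 1, nat_lit 401, nat_lit 175, nat_lit 11]⟩, ⟨p035_k0, nat_lit 0, nat_lit 0, nat_lit 330, nat_lit 0, nat_lit 284551, [nat_lit 0, nat_lit 0, nat_lit 0], [], [nat_lit 0, nat_lit 0, nat_lit 0, nat_lit 0, nat_lit 0, nat_lit 0, nat_lit 0, nat_lit 0], nat_lit 1271250, nat_lit 1271250, nat_lit 490000, nat_lit 780000, nat_lit 0, nat_lit 2034000, [nat_lit 1100000, nat_lit 1442500, nat_lit 1271250], [nat_lit 11, nat_lit 40,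 nat_lit 20, nat_lit 80, nat_lit 1, nat_lit 401, nat_lit 175, nat_lit 12]⟩,
 ⟨nat_lit 6123, nat_lit 6325, ⟨.ofNat (nat_lit 295942), .ofNat (nat_lit 378206), .ofNat (nat_lit 306625), .ofNat (nat_lit 388890), .ofNat (nat_lit 301553), .ofNat (nat_lit 381933), .ofNat (nat_lit 312227), .ofNat (nat_lit 392607)⟩, ⟨.ofNat (nat_lit 307688), .ofNat (nat_lit 389952), .ofNat (nat_lit 329055), .ofNat (nat_lit 411320), .ofNat (nat_lit 307865), .ofNat (nat_lit 388246), .ofNat (nat_lit 329214), .ofNat (nat_lit 409594)⟩⟩, []⟩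
noncomputable def p035_l109 : Lf2 := ⟨nat_lit 0, nat_lit 8, [nat_lit 50, nat_lit 5, nat_lit 5, nat_lit 20], false, nat_lit 160, nat_lit 240, nat_lit 0, nat_lit 288, ⟨nat_lit 0, nat_lit 0, nat_lit 1000, nat_lit 6, nat_lit 138, nat_lit 1000, nat_lit 127, nat_lit 1000, nat_lit 153600, nat_lit 311, nat_lit 176817, nat_lit 318, nat_lit 52921205, nat_lit 0, nat_lit 0, nat_lit 3518507, false, false⟩,
 nat_lit 11870, nat_lit 0, nat_lit 0, nat_lit 0, nat_lit 6284, nat_lit 0, nat_lit 0, nat_lit 0, nat_lit 0, nat_lit 0, nat_lit 0, nat_lit 0, nat_lit 0, nat_lit 0, nat_lit 50, nat_lit 250000, nat_lit 0, nat_lit 0, [(nat_lit 6, [(nat_lit 4, nat_lit 1000)])],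
 ⟨p035_k22, nat_lit 0, nat_lit 0, nat_lit 155, nat_lit 0, nat_lit 78008, [nat_lit 3654400001, nat_lit 1089200000, nat_lit 21200000], [], [nat_lit 7557401201, nat_lit 8481352357, nat_lit 7863494449, nat_lit 8738021385, nat_lit 12138251409, nat_lit 12905886537, nat_lit 12207667377, nat_lit 12934851517], nat_lit 1271250, nat_lit 1271250, nat_lit 490000, nat_lit 780000, nat_lit 1100001, nat_lit 1785000, [nat_lit 1100000, nat_lit 1442500, nat_lit 1271250], [nat_lit 11, nat_lit 40, nat_lit 20, nat_lit 80, nat_lit 1, nat_lit 401, nat_lit 175, nat_lit 11]⟩, ⟨p035_k22, nat_lit 0, nat_lit 0, nat_lit 235, nat_lit 0, nat_lit 78008, [nat_lit 0, nat_lit 0, nat_lit 0], [], [nat_lit 0, nat_lit 0, nat_lit 0, nat_lit 0, nat_lit 0, nat_lit 0, nat_lit 0, nat_lit 0], nat_lit 1271250, nat_lit 1271250, nat_lit 490000, nat_lit 780000, nat_lit 0, nat_lit 2034000, [nat_lit 1100000, nat_lit 1442500, nat_lit 1271250], [nat_lit 11, nat_lit 40, nat_lit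 20, nat_lit 80, nat_lit 1, nat_lit 401, nat_lit 175, nat_lit 12]⟩,
 ⟨nat_lit 6123, nat_lit 6325, ⟨.ofNat (nat_lit 295942), .ofNat (nat_lit 378206), .ofNat (nat_lit 306625), .ofNat (nat_lit 388890), .ofNat (nat_lit 301553), .ofNat (nat_lit 381933), .ofNat (nat_lit 312227), .ofNat (nat_lit 392607)⟩, ⟨.ofNat (nat_lit 225423), .ofNat (nat_lit 389952), .ofNat (nat_lit 246791), .ofNat (nat_lit 411320), .ofNat (nat_lit 227485), .ofNat (nat_lit 388246), .ofNat (nat_lit 248833), .ofNat (nat_lit 409594)⟩⟩, []⟩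
noncomputable def b_VL_600_600_5_36 : St := ⟨true, nat_lit 1, nat_lit 1, nat_lit 1, nat_lit 40, nat_lit 240, nat_lit 250, nat_lit 240, nat_lit 250, nat_lit 80, nat_lit 120, nat_lit 20, nat_lit 40, nat_lit 160, nat_lit 240, nat_lit 0, nat_lit 288, nat_lit 0, nat_lit 32, nat_lit 0, nat_lit 0, nat_lit 0, nat_lit 0⟩
theorem d_VL_600_600_5_36 (h : EB TB.env) : Dead b_VL_600_600_5_36 := chkB_sound0 h (T :=
(.spl (nat_lit 6) (nat_lit 20)
(.spl (nat_lit 4) (nat_lit 200)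
(.spl (nat_lit 6) (nat_lit 8)
(.spl (nat_lit 4) (nat_lit 180)
(.spl (nat_lit 0) (nat_lit 245)
(.ord (.leaf p035_l104))
(.leaf p035_l105))
(.leaf p035_l106))
(.leaf p035_l107))
(.leaf p035_l108))
(.leaf p035_l109))) (by decide +kernel)
noncomputable def p035_l110 : Lf2 := ⟨nat_lit 0, nat_lit 1, [nat_lit 19, nat_lit 5, nat_lit 5, nat_lit 20], true, nat_lit 160, nat_lit 180, nat_lit 0, nat_lit 288, ⟨nat_lit 0, nat_lit 0, nat_lit 1000, nat_lit 6, nat_lit 86, nat_lit 1000, nat_lit 104, nat_lit 1000, nat_lit 101400, nat_lit 293, nat_lit 70417, nat_lit 280, nat_lit 58802315, nat_lit 0, nat_lit 0, nat_lit 2408939, false, false⟩,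
 nat_lit 0, nat_lit 8534, nat_lit 0, nat_lit 0, nat_lit 4740, nat_lit 0, nat_lit 608, nat_lit 0, nat_lit 0, nat_lit 0, nat_lit 0, nat_lit 0, nat_lit 0, nat_lit 19687440821974, nat_lit 10, nat_lit 1000000, nat_lit 0, nat_lit 0, [(nat_lit 6, [(nat_lit 6, nat_lit 1000)])],
 ⟨p035_k30, nat_lit 0, nat_lit 0, nat_lit 201, nat_lit 0, nat_lit 343742, [nat_lit 1137066667, nat_lit 8000000], [], [nat_lit 10555589467, nat_lit 11271989520, nat_lit 10067062227, nat_lit 10699538267, nat_lit 11453214230, nat_lit 12383009200, nat_lit 10863554382, nat_lit 11471826564], nat_lit 1271250, nat_lit 1271250, nat_lit 111251, nat_lit 230001, nat_lit 1100001, nat_lit 1271250, [nat_lit 1100000, nat_lit 1442500], [nat_lit 31, nat_lit 40, nat_lit 20, nat_lit 80, nat_lit 3, nat_lit 272, nat_lit 60, nat_lit 10]⟩, C1.Rw.none,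
 ⟨nat_lit 5916, nat_lit 6124, ⟨.ofNat (nat_lit 180982), .ofNat (nat_lit 221172), .ofNat (nat_lit 202330), .ofNat (nat_lit 242520), .ofNat (nat_lit 189276), .ofNat (nat_lit 228543), .ofNat (nat_lit 210615), .ofNat (nat_lit 249882)⟩, ⟨.ofNat (nat_lit 227485), .ofNat (nat_lit 267675), .ofNat (nat_lit 248833), .ofNat (nat_lit 289023), .ofNat (nat_lit 229411), .ofNat (nat_lit 268678), .ofNat (nat_lit 250751), .ofNat (nat_lit 290018)⟩⟩, [⟨nat_lit 0, nat_lit 100, nat_lit 100, nat_lit 60, nat_lit 336834216⟩]⟩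
noncomputable def p035_l111 : Lf2 := ⟨nat_lit 0, nat_lit 2, [nat_lit 10, nat_lit 5, nat_lit 5, nat_lit 20], true, nat_lit 160, nat_lit 180, nat_lit 0, nat_lit 288, ⟨nat_lit 0, nat_lit 0, nat_lit 1000, nat_lit 6, nat_lit 84, nat_lit 1000, nat_lit 103, nat_lit 1000, nat_lit 101400, nat_lit 293, nat_lit 66150, nat_lit 278, nat_lit 58942295, nat_lit 0, nat_lit 0, nat_lit 2377212, false, false⟩,
 nat_lit 0, nat_lit 8403, nat_lit 0, nat_lit 0, nat_lit 4668, nat_lit 0, nat_lit 329, nat_lit 0, nat_lit 0, nat_lit 0, nat_lit 0, nat_lit 0, nat_lit 0, nat_lit 22819093364655, nat_lit 80, nat_lit 1000000, nat_lit 0, nat_lit 0, [(nat_lit 6, [(nat_lit 6, nat_lit 1000)])],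
 ⟨p035_k9, nat_lit 0, nat_lit 0, nat_lit 194, nat_lit 0, nat_lit 255744, [nat_lit 2257066667, nat_lit 1408000000, nat_lit 211200000], [], [nat_lit 10799793127, nat_lit 11118191295, nat_lit 10323878559, nat_lit 10637758723, nat_lit 11600803465, nat_lit 11906961224, nat_lit 11116745280, nat_lit 11418607793], nat_lit 1271250, nat_lit 1271250, nat_lit 111251, nat_lit 230001, nat_lit 1100001, nat_lit 1271250, [nat_lit 1100000, nat_lit 1442500, nat_lit 1271250], [nat_lit 9, nat_lit 40, nat_lit 20, nat_lit 80, nat_lit 2, nat_lit 272, nat_lit 60, nat_lit 9]⟩, C1.Rw.none,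
 ⟨nat_lit 6020, nat_lit 6124, ⟨.ofNat (nat_lit 180982), .ofNat (nat_lit 221172), .ofNat (nat_lit 196993), .ofNat (nat_lit 237183), .ofNat (nat_lit 185145), .ofNat (nat_lit 224872), .ofNat (nat_lit 201152), .ofNat (nat_lit 240879)⟩, ⟨.ofNat (nat_lit 227485), .ofNat (nat_lit 267675), .ofNat (nat_lit 248833), .ofNat (nat_lit 289023), .ofNat (nat_lit 228465), .ofNat (nat_lit 268191), .ofNat (nat_lit 249807), .ofNat (nat_lit 289534)⟩⟩, [⟨nat_lit 0, nat_lit 100, nat_lit 100, nat_lit 55, nat_lit 231735899⟩]⟩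
noncomputable def p035_l112 : Lf2 := ⟨nat_lit 0, nat_lit 2, [nat_lit 10, nat_lit 5, nat_lit 5, nat_lit 20], true, nat_lit 160, nat_lit 180, nat_lit 0, nat_lit 288, ⟨nat_lit 0, nat_lit 0, nat_lit 1000, nat_lit 6, nat_lit 87, nat_lit 1000, nat_lit 104, nat_lit 1000, nat_lit 101400, nat_lit 293, nat_lit 70417, nat_lit 280, nat_lit 58735511, nat_lit 0, nat_lit 0, nat_lit 2423801, false, false⟩,
 nat_lit 0, nat_lit 8335, nat_lit 0, nat_lit 0, nat_lit 4740, nat_lit 0, nat_lit 405, nat_lit 0, nat_lit 0, nat_lit 0, nat_lit 0, nat_lit 0, nat_lit 0, nat_lit 19511744334329, nat_lit 80, nat_lit 1000000, nat_lit 0, nat_lit 0, [(nat_lit 6, [(nat_lit 6, nat_lit 1000)])],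
 ⟨p035_k10, nat_lit 0, nat_lit 0, nat_lit 195, nat_lit 0, nat_lit 294079, [nat_lit 2257066667, nat_lit 1408000000, nat_lit 211200000], [], [nat_lit 10876596957, nat_lit 11271989520, nat_lit 10383506497, nat_lit 10699744517, nat_lit 11918111715, nat_lit 12383009200, nat_lit 11167840070, nat_lit 11471919507], nat_lit 1271250, nat_lit 1271250, nat_lit 111251, nat_lit 230001, nat_lit 1100001, nat_lit 1271250, [nat_lit 1100000, nat_lit 1442500, nat_lit 1271250], [nat_lit 9, nat_lit 40, nat_lit 20, nat_lit 80, nat_lit 2, nat_lit 272, nat_lit 60, nat_lit 9]⟩, C1.Rw.none,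
 ⟨nat_lit 5916, nat_lit 6021, ⟨.ofNat (nat_lit 185145), .ofNat (nat_lit 224872), .ofNat (nat_lit 206488), .ofNat (nat_lit 246214), .ofNat (nat_lit 189276), .ofNat (nat_lit 228543), .ofNat (nat_lit 210615), .ofNat (nat_lit 249882)⟩, ⟨.ofNat (nat_lit 228465), .ofNat (nat_lit 268191), .ofNat (nat_lit 249807), .ofNat (nat_lit 289534), .ofNat (nat_lit 229411), .ofNat (nat_lit 268678), .ofNat (nat_lit 250751), .ofNat (nat_lit 290018)⟩⟩, [⟨nat_lit 0, nat_lit 100, nat_lit 100, nat_lit 60, nat_lit 337217070⟩]⟩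
noncomputable def p035_l113 : Lf2 := ⟨nat_lit 0, nat_lit 5, [nat_lit 4, nat_lit 5, nat_lit 5, nat_lit 20], true, nat_lit 160, nat_lit 180, nat_lit 0, nat_lit 288, ⟨nat_lit 0, nat_lit 0, nat_lit 1000, nat_lit 6, nat_lit 86, nat_lit 1000, nat_lit 104, nat_lit 1000, nat_lit 101400, nat_lit 293, nat_lit 70417, nat_lit 280, nat_lit 58802315, nat_lit 0, nat_lit 0, nat_lit 2408939, false, false⟩,
 nat_lit 0, nat_lit 8647, nat_lit 0, nat_lit 0, nat_lit 4803, nat_lit 0, nat_lit 333, nat_lit 0, nat_lit 0, nat_lit 0, nat_lit 0, nat_lit 0, nat_lit 0, nat_lit 20881111457877, nat_lit 80, nat_lit 1000000, nat_lit 0, nat_lit 0, [(nat_lit 6, [(nat_lit 6, nat_lit 1000)])],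
 ⟨p035_k2, nat_lit 0, nat_lit 0, nat_lit 196, nat_lit 0, nat_lit 275820, [nat_lit 2257066667, nat_lit 1408000000, nat_lit 211200000], [], [nat_lit 10632647192, nat_lit 11331243472, nat_lit 10056486999, nat_lit 10693089287, nat_lit 11478478675, nat_lit 12396326140, nat_lit 10856151409, nat_lit 11468189903], nat_lit 1271250, nat_lit 1271250, nat_lit 111251, nat_lit 230001, nat_lit 1100001, nat_lit 1271250, [nat_lit 1100000, nat_lit 1442500, nat_lit 1271250], [nat_lit 9, nat_lit 40, nat_lit 20, nat_lit 80, nat_lit 2, nat_lit 272, nat_lit 60, nat_lit 9]⟩, C1.Rw.none,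
 ⟨nat_lit 5916, nat_lit 6124, ⟨.ofNat (nat_lit 180982), .ofNat (nat_lit 221172), .ofNat (nat_lit 202330), .ofNat (nat_lit 242520), .ofNat (nat_lit 189276), .ofNat (nat_lit 228543), .ofNat (nat_lit 210615), .ofNat (nat_lit 249882)⟩, ⟨.ofNat (nat_lit 227485), .ofNat (nat_lit 267675), .ofNat (nat_lit 248833), .ofNat (nat_lit 289023), .ofNat (nat_lit 229411), .ofNat (nat_lit 268678), .ofNat (nat_lit 250751), .ofNat (nat_lit 290018)⟩⟩, [⟨nat_lit 0, nat_lit 100, nat_lit 100, nat_lit 60, nat_lit 340948524⟩]⟩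
noncomputable def p035_l114 : Lf2 := ⟨nat_lit 0, nat_lit 1, [nat_lit 19, nat_lit 5, nat_lit 5, nat_lit 20], true, nat_lit 180, nat_lit 200, nat_lit 0, nat_lit 288, ⟨nat_lit 0, nat_lit 0, nat_lit 1000, nat_lit 6, nat_lit 86, nat_lit 1000, nat_lit 119, nat_lit 1000, nat_lit 135000, nat_lit 305, nat_lit 70417, nat_lit 280, nat_lit 57524723, nat_lit 0, nat_lit 0, nat_lit 2654404, false, false⟩,
 nat_lit 0, nat_lit 8279, nat_lit 0, nat_lit 0, nat_lit 4599, nat_lit 0, nat_lit 532, nat_lit 0, nat_lit 0, nat_lit 0, nat_lit 0, nat_lit 0, nat_lit 0, nat_lit 19427666224391, nat_lit 10, nat_lit 1000000, nat_lit 0, nat_lit 0, [(nat_lit 6, [(nat_lit 6, nat_lit 1000)])],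
 ⟨p035_k30, nat_lit 0, nat_lit 0, nat_lit 191, nat_lit 0, nat_lit 343742, [nat_lit 1137066667, nat_lit 8000000], [], [nat_lit 11637274419, nat_lit 12353204620, nat_lit 11165356870, nat_lit 11764832789, nat_lit 12575692077, nat_lit 13451346488, nat_lit 11954817927, nat_lit 12576209071], nat_lit 1271250, nat_lit 1271250, nat_lit 111251, nat_lit 230001, nat_lit 1271250, nat_lit 1271250, [nat_lit 1100000, nat_lit 1442500], [nat_lit 31, nat_lit 40, nat_lit 20, nat_lit 80, nat_lit 3, nat_lit 272, nat_lit 60, nat_lit 10]⟩, C1.Rw.none,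
 ⟨nat_lit 5916, nat_lit 6124, ⟨.ofNat (nat_lit 180982), .ofNat (nat_lit 221172), .ofNat (nat_lit 202330), .ofNat (nat_lit 242520), .ofNat (nat_lit 189276), .ofNat (nat_lit 228543), .ofNat (nat_lit 210615), .ofNat (nat_lit 249882)⟩, ⟨.ofNat (nat_lit 267675), .ofNat (nat_lit 307865), .ofNat (nat_lit 289023), .ofNat (nat_lit 329214), .ofNat (nat_lit 268678), .ofNat (nat_lit 307945), .ofNat (nat_lit 290018), .ofNat (nat_lit 329284)⟩⟩, [⟨nat_lit 0, nat_lit 100, nat_lit 100, nat_lit 60, nat_lit 327462825⟩]⟩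
noncomputable def p035_l115 : Lf2 := ⟨nat_lit 0, nat_lit 2, [nat_lit 10, nat_lit 5, nat_lit 5, nat_lit 20], true, nat_lit 180, nat_lit 200, nat_lit 0, nat_lit 288, ⟨nat_lit 0, nat_lit 0, nat_lit 1000, nat_lit 6, nat_lit 84, nat_lit 1000, nat_lit 119, nat_lit 1000, nat_lit 135000, nat_lit 305, nat_lit 66150, nat_lit 278, nat_lit 57656151, nat_lit 0, nat_lit 0, nat_lit 2624661, false, false⟩,
 nat_lit 0, nat_lit 8120, nat_lit 0, nat_lit 0, nat_lit 4511, nat_lit 0, nat_lit 244, nat_lit 0, nat_lit 0, nat_lit 0, nat_lit 0, nat_lit 0, nat_lit 0, nat_lit 22378562660135, nat_lit 80, nat_lit 1000000, nat_lit 0, nat_lit 0, [(nat_lit 6, [(nat_lit 6, nat_lit 1000)])],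
 ⟨p035_k9, nat_lit 0, nat_lit 0, nat_lit 184, nat_lit 0, nat_lit 255744, [nat_lit 2257066667, nat_lit 1408000000, nat_lit 211200000], [], [nat_lit 11909383751, nat_lit 12210614575, nat_lit 11452949912, nat_lit 11749978297, nat_lit 12702366914, nat_lit 12991670427, nat_lit 12237911173, nat_lit 12523229214], nat_lit 1271250, nat_lit 1271250, nat_lit 111251, nat_lit 230001, nat_lit 1271250, nat_lit 1271250, [nat_lit 1100000, nat_lit 1442500, nat_lit 1271250], [nat_lit 9, nat_lit 40, nat_lit 20, nat_lit 80, nat_lit 2, nat_lit 272, nat_lit 60, nat_lit 9]⟩, C1.Rw.none,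
 ⟨nat_lit 6020, nat_lit 6124, ⟨.ofNat (nat_lit 180982), .ofNat (nat_lit 221172), .ofNat (nat_lit 196993), .ofNat (nat_lit 237183), .ofNat (nat_lit 185145), .ofNat (nat_lit 224872), .ofNat (nat_lit 201152), .ofNat (nat_lit 240879)⟩, ⟨.ofNat (nat_lit 267675), .ofNat (nat_lit 307865), .ofNat (nat_lit 289023), .ofNat (nat_lit 329214), .ofNat (nat_lit 268191), .ofNat (nat_lit 307918), .ofNat (nat_lit 289534), .ofNat (nat_lit 329260)⟩⟩, [⟨nat_lit 0, nat_lit 100, nat_lit 100, nat_lit 55, nat_lit 226760013⟩]⟩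
noncomputable def p035_l116 : Lf2 := ⟨nat_lit 0, nat_lit 2, [nat_lit 10, nat_lit 5, nat_lit 5, nat_lit 20], true, nat_lit 180, nat_lit 200, nat_lit 0, nat_lit 288, ⟨nat_lit 0, nat_lit 0, nat_lit 1000, nat_lit 6, nat_lit 87, nat_lit 1000, nat_lit 120, nat_lit 1000, nat_lit 135000, nat_lit 305, nat_lit 70417, nat_lit 280, nat_lit 57465562, nat_lit 0, nat_lit 0, nat_lit 2667551, false, false⟩,
 nat_lit 0, nat_lit 8086, nat_lit 0, nat_lit 0, nat_lit 4599, nat_lit 0, nat_lit 281, nat_lit 0, nat_lit 0, nat_lit 0, nat_lit 0, nat_lit 0, nat_lit 0, nat_lit 19256539186470, nat_lit 80, nat_lit 1000000, nat_lit 0, nat_lit 0, [(nat_lit 6, [(nat_lit 6, nat_lit 1000)])],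
 ⟨p035_k10, nat_lit 0, nat_lit 0, nat_lit 188, nat_lit 0, nat_lit 294079, [nat_lit 2257066667, nat_lit 1408000000, nat_lit 211200000], [], [nat_lit 11988726647, nat_lit 12353204620, nat_lit 11510676080, nat_lit 11810414039, nat_lit 13013519283, nat_lit 13451346488, nat_lit 12288185834, nat_lit 12576209071], nat_lit 1271250, nat_lit 1271250, nat_lit 111251, nat_lit 230001, nat_lit 1271250, nat_lit 1271250, [nat_lit 1100000, nat_lit 1442500, nat_lit 1271250], [nat_lit 9, nat_lit 40, nat_lit 20, nat_lit 80, nat_lit 2, nat_lit 272, nat_lit 60, nat_lit 9]⟩, C1.Rw.none,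
 ⟨nat_lit 5916, nat_lit 6021, ⟨.ofNat (nat_lit 185145), .ofNat (nat_lit 224872), .ofNat (nat_lit 206488), .ofNat (nat_lit 246214), .ofNat (nat_lit 189276), .ofNat (nat_lit 228543), .ofNat (nat_lit 210615), .ofNat (nat_lit 249882)⟩, ⟨.ofNat (nat_lit 268191), .ofNat (nat_lit 307918), .ofNat (nat_lit 289534), .ofNat (nat_lit 329260), .ofNat (nat_lit 268678), .ofNat (nat_lit 307945), .ofNat (nat_lit 290018), .ofNat (nat_lit 329284)⟩⟩, [⟨nat_lit 0, nat_lit 100, nat_lit 100, nat_lit 60, nat_lit 327845679⟩]⟩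
noncomputable def p035_l117 : Lf2 := ⟨nat_lit 0, nat_lit 5, [nat_lit 4, nat_lit 5, nat_lit 5, nat_lit 20], true, nat_lit 180, nat_lit 200, nat_lit 0, nat_lit 288, ⟨nat_lit 0, nat_lit 0, nat_lit 1000, nat_lit 6, nat_lit 86, nat_lit 1000, nat_lit 119, nat_lit 1000, nat_lit 135000, nat_lit 305, nat_lit 70417, nat_lit 280, nat_lit 57524723, nat_lit 0, nat_lit 0, nat_lit 2654404, false, false⟩,
 nat_lit 0, nat_lit 8156, nat_lit 0, nat_lit 0, nat_lit 4531, nat_lit 0, nat_lit 175, nat_lit 0, nat_lit 0, nat_lit 0, nat_lit 0, nat_lit 0, nat_lit 0, nat_lit 21682024582490, nat_lit 80, nat_lit 1000000, nat_lit 0, nat_lit 0, [(nat_lit 6, [(nat_lit 6, nat_lit 1000)])],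
 ⟨p035_k2, nat_lit 0, nat_lit 0, nat_lit 186, nat_lit 0, nat_lit 275820, [nat_lit 2257066667, nat_lit 1408000000, nat_lit 211200000], [], [nat_lit 11973116987, nat_lit 12625338065, nat_lit 11469053695, nat_lit 12038338751, nat_lit 12804375389, nat_lit 13430762072, nat_lit 12229018683, nat_lit 12800808094], nat_lit 1271250, nat_lit 1271250, nat_lit 111251, nat_lit 230001, nat_lit 1271250, nat_lit 1271250, [nat_lit 1100000, nat_lit 1442500, nat_lit 1271250], [nat_lit 9, nat_lit 40, nat_lit 20, nat_lit 80, nat_lit 2, nat_lit 272, nat_lit 60, nat_lit 9]⟩, C1.Rw.none,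
 ⟨nat_lit 5916, nat_lit 6124, ⟨.ofNat (nat_lit 180982), .ofNat (nat_lit 221172), .ofNat (nat_lit 202330), .ofNat (nat_lit 242520), .ofNat (nat_lit 189276), .ofNat (nat_lit 228543), .ofNat (nat_lit 210615), .ofNat (nat_lit 249882)⟩, ⟨.ofNat (nat_lit 267675), .ofNat (nat_lit 307865), .ofNat (nat_lit 289023), .ofNat (nat_lit 329214), .ofNat (nat_lit 268678), .ofNat (nat_lit 307945), .ofNat (nat_lit 290018), .ofNat (nat_lit 329284)⟩⟩, [⟨nat_lit 0, nat_lit 100, nat_lit 100, nat_lit 60, nat_lit 266155485⟩]⟩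
noncomputable def p035_l118 : Lf2 := ⟨nat_lit 0, nat_lit 1, [nat_lit 19, nat_lit 5, nat_lit 5, nat_lit 20], true, nat_lit 160, nat_lit 180, nat_lit 0, nat_lit 288, ⟨nat_lit 0, nat_lit 0, nat_lit 1000, nat_lit 6, nat_lit 102, nat_lit 1000, nat_lit 104, nat_lit 1000, nat_lit 101400, nat_lit 293, nat_lit 98817, nat_lit 292, nat_lit 57639340, nat_lit 0, nat_lit 0, nat_lit 2658990, false, false⟩,
 nat_lit 0, nat_lit 8534, nat_lit 0, nat_lit 0, nat_lit 4740, nat_lit 0, nat_lit 608, nat_lit 0, nat_lit 0, nat_lit 0, nat_lit 0, nat_lit 0, nat_lit 0, nat_lit 0, nat_lit 10, nat_lit 1000000, nat_lit 0, nat_lit 0, [(nat_lit 6, [(nat_lit 6, nat_lit 1000)])],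
 ⟨p035_k30, nat_lit 0, nat_lit 0, nat_lit 191, nat_lit 0, nat_lit 343742, [nat_lit 1137066667, nat_lit 8000000], [], [nat_lit 10067062227, nat_lit 10699538267, nat_lit 9827338587, nat_lit 10448284427, nat_lit 10863554382, nat_lit 11471826564, nat_lit 10882733697, nat_lit 11228326984], nat_lit 1271250, nat_lit 1271250, nat_lit 230001, nat_lit 356250, nat_lit 1100001, nat_lit 1271250, [nat_lit 1100000, nat_lit 1442500], [nat_lit 31, nat_lit 40, nat_lit 20, nat_lit 80, nat_lit 3, nat_lit 272, nat_lit 60, nat_lit 10]⟩, C1.Rw.none,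
 ⟨nat_lit 5916, nat_lit 6124, ⟨.ofNat (nat_lit 221172), .ofNat (nat_lit 261362), .ofNat (nat_lit 242520), .ofNat (nat_lit 282710), .ofNat (nat_lit 228543), .ofNat (nat_lit 267810), .ofNat (nat_lit 249882), .ofNat (nat_lit 289149)⟩, ⟨.ofNat (nat_lit 227485), .ofNat (nat_lit 267675), .ofNat (nat_lit 248833), .ofNat (nat_lit 289023), .ofNat (nat_lit 229411), .ofNat (nat_lit 268678), .ofNat (nat_lit 250751), .ofNat (nat_lit 290018)⟩⟩, []⟩
noncomputable def p035_l119 : Lf2 := ⟨nat_lit 0, nat_lit 2, [nat_lit 10, nat_lit 5, nat_lit 5, nat_lit 20], true, nat_lit 160, nat_lit 180, nat_lit 0, nat_lit 288, ⟨nat_lit 0, nat_lit 0, nat_lit 1000, nat_lit 6, nat_lit 100, nat_lit 1000, nat_lit 103, nat_lit 1000, nat_lit 101400, nat_lit 293, nat_lit 93750, nat_lit 290, nat_lit 57783298, nat_lit 0, nat_lit 0, nat_lit 2629531, false, false⟩,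
 nat_lit 0, nat_lit 9743, nat_lit 0, nat_lit 0, nat_lit 5412, nat_lit 0, nat_lit 346, nat_lit 0, nat_lit 0, nat_lit 0, nat_lit 0, nat_lit 0, nat_lit 0, nat_lit 30291001574415, nat_lit 80, nat_lit 1000000, nat_lit 0, nat_lit 0, [(nat_lit 6, [(nat_lit 6, nat_lit 1000)])],
 ⟨p035_k7, nat_lit 0, nat_lit 0, nat_lit 184, nat_lit 0, nat_lit 255744, [nat_lit 2814000001, nat_lit 141466667], [], [nat_lit 9716725136, nat_lit 10080925759, nat_lit 10098291588, nat_lit 9734559898, nat_lit 11281523499, nat_lit 10940159465, nat_lit 11803172223, nat_lit 11128882349], nat_lit 1271250, nat_lit 1271250, nat_lit 230001, nat_lit 356250, nat_lit 1100001, nat_lit 1271250, [nat_lit 1100000, nat_lit 1785000], [nat_lit 39, nat_lit 40, nat_lit 20, nat_lit 80, nat_lit 7, nat_lit 272, nat_lit 60, nat_lit 9]⟩, C1.Rw.none,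
 ⟨nat_lit 6020, nat_lit 6124, ⟨.ofNat (nat_lit 221172), .ofNat (nat_lit 261362), .ofNat (nat_lit 237183), .ofNat (nat_lit 277373), .ofNat (nat_lit 224872), .ofNat (nat_lit 264598), .ofNat (nat_lit 240879), .ofNat (nat_lit 280605)⟩, ⟨.ofNat (nat_lit 227485), .ofNat (nat_lit 267675), .ofNat (nat_lit 248833), .ofNat (nat_lit 289023), .ofNat (nat_lit 228465), .ofNat (nat_lit 268191), .ofNat (nat_lit 249807), .ofNat (nat_lit 289534)⟩⟩, []⟩
noncomputable def p035_l120 : Lf2 := ⟨nat_lit 0, nat_lit 2, [nat_lit 10, nat_lit 5, nat_lit 5, nat_lit 20], true, nat_lit 160, nat_lit 180, nat_lit 0, nat_lit 288, ⟨nat_lit 0, nat_lit 0, nat_lit 1000, nat_lit 6, nat_lit 103, nat_lit 1000, nat_lit 104, nat_lit 1000, nat_lit 101400, nat_lit 293, nat_lit 98817, nat_lit 292, nat_lit 57575117, nat_lit 0, nat_lit 0, nat_lit 2672018, false, false⟩,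
 nat_lit 0, nat_lit 9162, nat_lit 0, nat_lit 0, nat_lit 5210, nat_lit 0, nat_lit 886, nat_lit 0, nat_lit 0, nat_lit 0, nat_lit 0, nat_lit 0, nat_lit 0, nat_lit 28962016254007, nat_lit 41, nat_lit 400000, nat_lit 0, nat_lit 0, [(nat_lit 6, [(nat_lit 5, nat_lit 1000)])],
 ⟨p035_k3, nat_lit 0, nat_lit 0, nat_lit 185, nat_lit 0, nat_lit 294079, [nat_lit 2073600001, nat_lit 7600000], [], [nat_lit 10261968896, nat_lit 10613108270, nat_lit 9935795682, nat_lit 10288206082, nat_lit 11103235909, nat_lit 11448114797, nat_lit 11363087473, nat_lit 11142508477], nat_lit 1271250, nat_lit 1271250, nat_lit 230001, nat_lit 356250, nat_lit 1100001, nat_lit 1271250, [nat_lit 1100000, nat_lit 1785000], [nat_lit 39, nat_lit 40, nat_lit 20, nat_lit 80, nat_lit 7, nat_lit 272, nat_lit 60, nat_lit 9]⟩, C1.Rw.none,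
 ⟨nat_lit 5916, nat_lit 6021, ⟨.ofNat (nat_lit 224872), .ofNat (nat_lit 264598), .ofNat (nat_lit 246214), .ofNat (nat_lit 285941), .ofNat (nat_lit 228543), .ofNat (nat_lit 267810), .ofNat (nat_lit 249882), .ofNat (nat_lit 289149)⟩, ⟨.ofNat (nat_lit 228465), .ofNat (nat_lit 268191), .ofNat (nat_lit 249807), .ofNat (nat_lit 289534), .ofNat (nat_lit 229411), .ofNat (nat_lit 268678), .ofNat (nat_lit 250751), .ofNat (nat_lit 290018)⟩⟩, []⟩
noncomputable def p035_l121 : Lf2 := ⟨nat_lit 0, nat_lit 5, [nat_lit 4, nat_lit 5, nat_lit 5, nat_lit 20], true, nat_lit 160, nat_lit 180, nat_lit 0, nat_lit 288, ⟨nat_lit 0, nat_lit 0, nat_lit 1000, nat_lit 6, nat_lit 102, nat_lit 1000, nat_lit 104, nat_lit 1000, nat_lit 101400, nat_lit 293, nat_lit 98817, nat_lit 292, nat_lit 57639340, nat_lit 0, nat_lit 0, nat_lit 2658990, false, false⟩,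
 nat_lit 0, nat_lit 8647, nat_lit 0, nat_lit 0, nat_lit 4803, nat_lit 0, nat_lit 333, nat_lit 0, nat_lit 0, nat_lit 0, nat_lit 0, nat_lit 0, nat_lit 0, nat_lit 28828293466403, nat_lit 80, nat_lit 1000000, nat_lit 0, nat_lit 0, [(nat_lit 6, [(nat_lit 6, nat_lit 1000)])],
 ⟨p035_k2, nat_lit 0, nat_lit 0, nat_lit 186, nat_lit 0, nat_lit 275820, [nat_lit 2257066667, nat_lit 1408000000, nat_lit 211200000], [], [nat_lit 10056486999, nat_lit 10693089287, nat_lit 9808501791, nat_lit 10433468039, nat_lit 10856151409, nat_lit 11468189903, nat_lit 10869951296, nat_lit 11196767849], nat_lit 1271250, nat_lit 1271250, nat_lit 230001, nat_lit 356250, nat_lit 1100001, nat_lit 1271250, [nat_lit 1100000, nat_lit 1442500, nat_lit 1271250], [nat_lit 9, nat_lit 40, nat_lit 20, nat_lit 80, nat_lit 2, nat_lit 272, nat_lit 60, nat_lit 9]⟩, C1.Rw.none,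
 ⟨nat_lit 5916, nat_lit 6124, ⟨.ofNat (nat_lit 221172), .ofNat (nat_lit 261362), .ofNat (nat_lit 242520), .ofNat (nat_lit 282710), .ofNat (nat_lit 228543), .ofNat (nat_lit 267810), .ofNat (nat_lit 249882), .ofNat (nat_lit 289149)⟩, ⟨.ofNat (nat_lit 227485), .ofNat (nat_lit 267675), .ofNat (nat_lit 248833), .ofNat (nat_lit 289023), .ofNat (nat_lit 229411), .ofNat (nat_lit 268678), .ofNat (nat_lit 250751), .ofNat (nat_lit 290018)⟩⟩, []⟩
noncomputable def p035_l122 : Lf2 := ⟨nat_lit 0, nat_lit 5, [nat_lit 4, nat_lit 5, nat_lit 5, nat_lit 20], true, nat_lit 180, nat_lit 200, nat_lit 0, nat_lit 288, ⟨nat_lit 0, nat_lit 0, nat_lit 1000, nat_lit 6, nat_lit 100, nat_lit 1000, nat_lit 119, nat_lit 1000, nat_lit 135000, nat_lit 305, nat_lit 93750, nat_lit 290, nat_lit 56515144, nat_lit 0, nat_lit 0, nat_lit 2872119, false, false⟩,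
 nat_lit 0, nat_lit 8396, nat_lit 0, nat_lit 0, nat_lit 4664, nat_lit 0, nat_lit 765, nat_lit 0, nat_lit 0, nat_lit 0, nat_lit 0, nat_lit 0, nat_lit 0, nat_lit 0, nat_lit 80, nat_lit 1000000, nat_lit 0, nat_lit 0, [(nat_lit 6, [(nat_lit 6, nat_lit 1000)])],
 ⟨p035_k2, nat_lit 0, nat_lit 0, nat_lit 179, nat_lit 0, nat_lit 317006, [nat_lit 2257066667, nat_lit 1408000000, nat_lit 211200000], [], [nat_lit 10966291856, nat_lit 11292211509, nat_lit 10970236475, nat_lit 11064702330, nat_lit 11829166914, nat_lit 12141980040, nat_lit 11594332886, nat_lit 11901489814], nat_lit 1271250, nat_lit 1271250, nat_lit 230001, nat_lit 356250, nat_lit 1271250, nat_lit 1271250, [nat_lit 1100000, nat_lit 1442500, nat_lit 1271250], [nat_lit 9, nat_lit 40, nat_lit 20, nat_lit 80, nat_lit 2, nat_lit 289, nat_lit 75, nat_lit 9]⟩, C1.Rw.none,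
 ⟨nat_lit 6020, nat_lit 6124, ⟨.ofNat (nat_lit 221172), .ofNat (nat_lit 261362), .ofNat (nat_lit 237183), .ofNat (nat_lit 277373), .ofNat (nat_lit 224872), .ofNat (nat_lit 264598), .ofNat (nat_lit 240879), .ofNat (nat_lit 280605)⟩, ⟨.ofNat (nat_lit 267675), .ofNat (nat_lit 307865), .ofNat (nat_lit 289023), .ofNat (nat_lit 329214), .ofNat (nat_lit 268191), .ofNat (nat_lit 307918), .ofNat (nat_lit 289534), .ofNat (nat_lit 329260)⟩⟩, []⟩
noncomputable def p035_l123 : Lf2 := ⟨nat_lit 0, nat_lit 5, [nat_lit 4, nat_lit 5, nat_lit 5, nat_lit 20], true, nat_lit 180, nat_lit 200, nat_lit 0, nat_lit 288, ⟨nat_lit 0, nat_lit 0, nat_lit 1000, nat_lit 6, nat_lit 103, nat_lit 1000, nat_lit 120, nat_lit 1000, nat_lit 135000, nat_lit 305, nat_lit 98817, nat_lit 292, nat_lit 56323986, nat_lit 0, nat_lit 0, nat_lit 2910847, false, false⟩,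
 nat_lit 0, nat_lit 8086, nat_lit 0, nat_lit 0, nat_lit 4599, nat_lit 0, nat_lit 281, nat_lit 0, nat_lit 0, nat_lit 0, nat_lit 0, nat_lit 0, nat_lit 0, nat_lit 0, nat_lit 80, nat_lit 1000000, nat_lit 0, nat_lit 0, [(nat_lit 6, [(nat_lit 6, nat_lit 1000)])],
 ⟨p035_k4, nat_lit 0, nat_lit 0, nat_lit 194, nat_lit 0, nat_lit 355564, [nat_lit 2257066667, nat_lit 1408000000, nat_lit 211200000], [], [nat_lit 11510676080, nat_lit 11810414039, nat_lit 11272021302, nat_lit 11566372457, nat_lit 12288185834, nat_lit 12576209071, nat_lit 12037756402, nat_lit 12338754187], nat_lit 1271250, nat_lit 1271250, nat_lit 230001, nat_lit 356250, nat_lit 1271250, nat_lit 1271250, [nat_lit 1100000, nat_lit 1442500, nat_lit 1271250], [nat_lit 9, nat_lit 40, nat_lit 20, nat_lit 80, nat_lit 2, nat_lit 289, nat_lit 75, nat_lit 9]⟩, C1.Rw.none,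
 ⟨nat_lit 5916, nat_lit 6021, ⟨.ofNat (nat_lit 224872), .ofNat (nat_lit 264598), .ofNat (nat_lit 246214), .ofNat (nat_lit 285941), .ofNat (nat_lit 228543), .ofNat (nat_lit 267810), .ofNat (nat_lit 249882), .ofNat (nat_lit 289149)⟩, ⟨.ofNat (nat_lit 268191), .ofNat (nat_lit 307918), .ofNat (nat_lit 289534), .ofNat (nat_lit 329260), .ofNat (nat_lit 268678), .ofNat (nat_lit 307945), .ofNat (nat_lit 290018), .ofNat (nat_lit 329284)⟩⟩, []⟩
noncomputable def p035_l124 : Lf2 := ⟨nat_lit 0, nat_lit 5, [nat_lit 4, nat_lit 5, nat_lit 5, nat_lit 20], true, nat_lit 160, nat_lit 180, nat_lit 0, nat_lit 288, ⟨nat_lit 0, nat_lit 0, nat_lit 1000, nat_lit 6, nat_lit 116, nat_lit 1000, nat_lit 103, nat_lit 1000, nat_lit 101400, nat_lit 293, nat_lit 126150, nat_lit 302, nat_lit 56534808, nat_lit 0, nat_lit 0, nat_lit 2873148, false, false⟩,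
 nat_lit 0, nat_lit 8950, nat_lit 0, nat_lit 0, nat_lit 4972, nat_lit 0, nat_lit 889, nat_lit 0, nat_lit 0, nat_lit 0, nat_lit 0, nat_lit 0, nat_lit 0, nat_lit 5448049821038, nat_lit 80, nat_lit 1000000, nat_lit 0, nat_lit 0, [(nat_lit 6, [(nat_lit 6, nat_lit 1000)])],
 ⟨p035_k2, nat_lit 0, nat_lit 0, nat_lit 179, nat_lit 0, nat_lit 317006, [nat_lit 2257066667, nat_lit 1408000000, nat_lit 211200000], [], [nat_lit 9224320743, nat_lit 9566117710, nat_lit 9378394575, nat_lit 9511887874, nat_lit 10302011401, nat_lit 10420660355, nat_lit 10982533140, nat_lit 10358573865], nat_lit 1271250, nat_lit 1271250, nat_lit 356250, nat_lit 490000, nat_lit 1100001, nat_lit 1271250, [nat_lit 1100000, nat_lit 1442500, nat_lit 1271250], [nat_lit 9, nat_lit 40, nat_lit 20, nat_lit 80, nat_lit 2, nat_lit 289, nat_lit 75, nat_lit 9]⟩, C1.Rw.none,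
 ⟨nat_lit 6020, nat_lit 6124, ⟨.ofNat (nat_lit 261362), .ofNat (nat_lit 301553), .ofNat (nat_lit 277373), .ofNat (nat_lit 317564), .ofNat (nat_lit 264598), .ofNat (nat_lit 304325), .ofNat (nat_lit 280605), .ofNat (nat_lit 320331)⟩, ⟨.ofNat (nat_lit 227485), .ofNat (nat_lit 267675), .ofNat (nat_lit 248833), .ofNat (nat_lit 289023), .ofNat (nat_lit 228465), .ofNat (nat_lit 268191), .ofNat (nat_lit 249807), .ofNat (nat_lit 289534)⟩⟩, []⟩
noncomputable def p035_l125 : Lf2 := ⟨nat_lit 0, nat_lit 5, [nat_lit 4, nat_lit 5, nat_lit 5, nat_lit 20], true, nat_lit 160, nat_lit 180, nat_lit 0, nat_lit 288, ⟨nat_lit 0, nat_lit 0, nat_lit 1000, nat_lit 6, nat_lit 119, nat_lit 1000, nat_lit 104, nat_lit 1000, nat_lit 101400, nat_lit 293, nat_lit 132017, nat_lit 304, nat_lit 56329643, nat_lit 0, nat_lit 0, nat_lit 2911155, false, false⟩,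
 nat_lit 0, nat_lit 8609, nat_lit 0, nat_lit 0, nat_lit 4896, nat_lit 0, nat_lit 391, nat_lit 0, nat_lit 0, nat_lit 0, nat_lit 0, nat_lit 0, nat_lit 0, nat_lit 0, nat_lit 80, nat_lit 1000000, nat_lit 0, nat_lit 0, [(nat_lit 6, [(nat_lit 6, nat_lit 1000)])],
 ⟨p035_k4, nat_lit 0, nat_lit 0, nat_lit 179, nat_lit 0, nat_lit 355564, [nat_lit 2257066667, nat_lit 1408000000, nat_lit 211200000], [], [nat_lit 9824121553, nat_lit 10139572121, nat_lit 9748328913, nat_lit 10056941689, nat_lit 10603800766, nat_lit 10907403394, nat_lit 10642933597, nat_lit 10836358202], nat_lit 1271250, nat_lit 1271250, nat_lit 356250, nat_lit 490000, nat_lit 1100001, nat_lit 1271250, [nat_lit 1100000, nat_lit 1442500, nat_lit 1271250], [nat_lit 9, nat_lit 40, nat_lit 20, nat_lit 80, nat_lit 2, nat_lit 289, nat_lit 75, nat_lit 9]⟩, C1.Rw.none,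
 ⟨nat_lit 5916, nat_lit 6021, ⟨.ofNat (nat_lit 264598), .ofNat (nat_lit 304325), .ofNat (nat_lit 285941), .ofNat (nat_lit 325667), .ofNat (nat_lit 267810), .ofNat (nat_lit 307076), .ofNat (nat_lit 289149), .ofNat (nat_lit 328416)⟩, ⟨.ofNat (nat_lit 228465), .ofNat (nat_lit 268191), .ofNat (nat_lit 249807), .ofNat (nat_lit 289534), .ofNat (nat_lit 229411), .ofNat (nat_lit 268678), .ofNat (nat_lit 250751), .ofNat (nat_lit 290018)⟩⟩, []⟩
noncomputable def p035_l126 : Lf2 := ⟨nat_lit 0, nat_lit 5, [nat_lit 4, nat_lit 5, nat_lit 5, nat_lit 20], true, nat_lit 180, nat_lit 200, nat_lit 0, nat_lit 288, ⟨nat_lit 0, nat_lit 0, nat_lit 1000, nat_lit 6, nat_lit 118, nat_lit 1000, nat_lit 119, nat_lit 1000, nat_lit 135000, nat_lit 305, nat_lit 132017, nat_lit 304, nat_lit 55156342, nat_lit 0, nat_lit 0, nat_lit 3134806, false, false⟩,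
 nat_lit 0, nat_lit 8539, nat_lit 0, nat_lit 0, nat_lit 4743, nat_lit 0, nat_lit 397, nat_lit 0, nat_lit 0, nat_lit 0, nat_lit 0, nat_lit 0, nat_lit 0, nat_lit 0, nat_lit 80, nat_lit 1000000, nat_lit 0, nat_lit 0, [(nat_lit 6, [(nat_lit 6, nat_lit 1000)])],
 ⟨p035_k2, nat_lit 0, nat_lit 0, nat_lit 182, nat_lit 0, nat_lit 365315, [nat_lit 2257066667, nat_lit 1408000000, nat_lit 211200000], [], [nat_lit 10963760726, nat_lit 11289812219, nat_lit 11637580036, nat_lit 11207539938, nat_lit 11476865601, nat_lit 12050516155, nat_lit 11391821496, nat_lit 11978313389], nat_lit 1271250, nat_lit 1271250, nat_lit 356250, nat_lit 490000, nat_lit 1271250, nat_lit 1271250, [nat_lit 1100000, nat_lit 1442500, nat_lit 1271250], [nat_lit 9, nat_lit 40, nat_lit 20, nat_lit 80, nat_lit 2, nat_lit 289, nat_lit 75, nat_lit 9]⟩, C1.Rw.none,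
 ⟨nat_lit 5916, nat_lit 6124, ⟨.ofNat (nat_lit 261362), .ofNat (nat_lit 301553), .ofNat (nat_lit 282710), .ofNat (nat_lit 322901), .ofNat (nat_lit 267810), .ofNat (nat_lit 307076), .ofNat (nat_lit 289149), .ofNat (nat_lit 328416)⟩, ⟨.ofNat (nat_lit 267675), .ofNat (nat_lit 307865), .ofNat (nat_lit 289023), .ofNat (nat_lit 329214), .ofNat (nat_lit 268678), .ofNat (nat_lit 307945), .ofNat (nat_lit 290018), .ofNat (nat_lit 329284)⟩⟩, []⟩
noncomputable def p035_l127 : Lf2 := ⟨nat_lit 0, nat_lit 5, [nat_lit 4, nat_lit 5, nat_lit 5, nat_lit 20], false, nat_lit 160, nat_lit 200, nat_lit 0, nat_lit 80, ⟨nat_lit 1000, nat_lit 0, nat_lit 0, nat_lit 0, nat_lit 0, nat_lit 0, nat_lit 0, nat_lit 0, nat_lit 0, nat_lit 0, nat_lit 0, nat_lit 0, nat_lit 0, nat_lit 0, nat_lit 0, nat_lit 0, false, false⟩,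
 nat_lit 30307, nat_lit 0, nat_lit 0, nat_lit 0, nat_lit 16837, nat_lit 16044, nat_lit 0, nat_lit 0, nat_lit 0, nat_lit 2830, nat_lit 0, nat_lit 0, nat_lit 0, nat_lit 0, nat_lit 0, nat_lit 0, nat_lit 0, nat_lit 0, [],
 ⟨p035_k2, nat_lit 0, nat_lit 0, nat_lit 173, nat_lit 0, nat_lit 365315, [nat_lit 4688000000, nat_lit 6250000000, nat_lit 7968000000], [], [nat_lit 15372325523, nat_lit 11053146750, nat_lit 3975487813, nat_lit 5378960958, nat_lit 8284382613, nat_lit 9629793893, nat_lit 6622417608, nat_lit 7883074593], nat_lit 1271250, nat_lit 1271250, nat_lit 490000, nat_lit 780000, nat_lit 1100001, nat_lit 1442500, [nat_lit 1100000, nat_lit 1442500, nat_lit 1271250], [nat_lit 9, nat_lit 40, nat_lit 20, nat_lit 80, nat_lit 2, nat_lit 317, nat_lit 100, nat_lit 10]⟩, ⟨p035_k0, nat_lit 0, nat_lit 0, nat_lit 371, nat_lit 0, nat_lit 386242, [nat_lit 4688000000, nat_lit 6250000000, nat_lit 9842000000], [], [nat_lit 24835631552,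 nat_lit 20399993704, nat_lit 17207987648, nat_lit 17878516084, nat_lit 15080856112, nat_lit 7758165764, nat_lit 19309816608, nat_lit 11645790336], nat_lit 1271250, nat_lit 1271250, nat_lit 490000, nat_lit 780000, nat_lit 0, nat_lit 490000, [nat_lit 1100000, nat_lit 1442500, nat_lit 1271250], [nat_lit 11, nat_lit 40, nat_lit 20, nat_lit 80, nat_lit 1, nat_lit 345, nat_lit 125, nat_lit 10]⟩,
 zbF0, []⟩
noncomputable def p035_l128 : Lf2 := ⟨nat_lit 0, nat_lit 5, [nat_lit 4, nat_lit 5, nat_lit 5, nat_lit 20], false, nat_lit 160, nat_lit 200, nat_lit 80, nat_lit 160, ⟨nat_lit 1000, nat_lit 0, nat_lit 0, nat_lit 0, nat_lit 0, nat_lit 0, nat_lit 0, nat_lit 0, nat_lit 0, nat_lit 0, nat_lit 0, nat_lit 0, nat_lit 0, nat_lit 0, nat_lit 0, nat_lit 0, false, false⟩,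
 nat_lit 11186, nat_lit 0, nat_lit 0, nat_lit 0, nat_lit 6214, nat_lit 5922, nat_lit 213, nat_lit 0, nat_lit 0, nat_lit 635, nat_lit 0, nat_lit 0, nat_lit 0, nat_lit 0, nat_lit 0, nat_lit 0, nat_lit 0, nat_lit 0, [],
 ⟨p035_k2, nat_lit 0, nat_lit 0, nat_lit 173, nat_lit 0, nat_lit 365315, [nat_lit 4688000000, nat_lit 6250000000, nat_lit 7968000000], [], [nat_lit 24207697706, nat_lit 22613626500, nat_lit 20356610488, nat_lit 20956226896, nat_lit 21796255978, nat_lit 22378298584, nat_lit 22992282030, nat_lit 22309704804], nat_lit 1271250, nat_lit 1271250, nat_lit 490000, nat_lit 780000, nat_lit 1100001, nat_lit 1442500, [nat_lit 1100000, nat_lit 1442500, nat_lit 1271250], [nat_lit 9, nat_lit 40, nat_lit 20, nat_lit 80, nat_lit 2, nat_lit 317, nat_lit 100, nat_lit 10]⟩, ⟨p035_k0, nat_lit 0, nat_lit 0, nat_lit 303, nat_lit 0, nat_lit 386242, [nat_lit 4688000000, nat_lit 6250000000, nat_lit 9842000000], [], [nat_lit 33699819608,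 nat_lit 30615772292, nat_lit 27920863256, nat_lit 28827804618, nat_lit 31044314792, nat_lit 29201567250, nat_lit 33416098120, nat_lit 30625616188], nat_lit 1271250, nat_lit 1271250, nat_lit 490000, nat_lit 780000, nat_lit 490000, nat_lit 1100001, [nat_lit 1100000, nat_lit 1442500, nat_lit 1271250], [nat_lit 11, nat_lit 40, nat_lit 20, nat_lit 80, nat_lit 1, nat_lit 373, nat_lit 150, nat_lit 11]⟩,
 zbF0, []⟩
noncomputable def p035_l129 : Lf2 := ⟨nat_lit 0, nat_lit 5, [nat_lit 4, nat_lit 5, nat_lit 5, nat_lit 20], false, nat_lit 160, nat_lit 200, nat_lit 160, nat_lit 288, ⟨nat_lit 1000, nat_lit 0, nat_lit 0, nat_lit 0, nat_lit 0, nat_lit 0, nat_lit 0, nat_lit 0, nat_lit 0, nat_lit 0, nat_lit 0, nat_lit 0, nat_lit 0, nat_lit 0, nat_lit 0, nat_lit 0, false, false⟩,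
 nat_lit 29669, nat_lit 0, nat_lit 0, nat_lit 0, nat_lit 16482, nat_lit 15707, nat_lit 0, nat_lit 0, nat_lit 0, nat_lit 1001, nat_lit 0, nat_lit 0, nat_lit 0, nat_lit 0, nat_lit 0, nat_lit 0, nat_lit 0, nat_lit 0, [],
 ⟨p035_k2, nat_lit 0, nat_lit 0, nat_lit 173, nat_lit 0, nat_lit 365315, [nat_lit 4688000000, nat_lit 6250000000, nat_lit 7968000000], [], [nat_lit 15667586478, nat_lit 11439475500, nat_lit 4448898418, nat_lit 5829621388, nat_lit 8671878425, nat_lit 9995696298, nat_lit 7063647995, nat_lit 8304321498], nat_lit 1271250, nat_lit 1271250, nat_lit 490000, nat_lit 780000, nat_lit 1100001, nat_lit 1442500, [nat_lit 1100000, nat_lit 1442500, nat_lit 1271250], [nat_lit 9, nat_lit 40, nat_lit 20, nat_lit 80, nat_lit 2, nat_lit 317, nat_lit 100, nat_lit 10]⟩, ⟨p035_k0, nat_lit 0, nat_lit 0, nat_lit 281, nat_lit 0, nat_lit 386242, [nat_lit 4688000000, nat_lit 6250000000, nat_lit 9842000000], [], [nat_lit 20341471256,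 nat_lit 12282869250, nat_lit 8152627978, nat_lit 10455506888, nat_lit 24011054272, nat_lit 21138200828, nat_lit 28215020610, nat_lit 20731156582], nat_lit 1271250, nat_lit 1271250, nat_lit 490000, nat_lit 780000, nat_lit 1100001, nat_lit 2196000, [nat_lit 1100000, nat_lit 1442500, nat_lit 1271250], [nat_lit 11, nat_lit 40, nat_lit 20, nat_lit 80, nat_lit 1, nat_lit 401, nat_lit 175, nat_lit 11]⟩,
 zbF0, [⟨nat_lit 7, nat_lit 99, nat_lit 100, nat_lit 54, nat_lit 666745606⟩]⟩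
noncomputable def b_VL_600_600_5_37 : St := ⟨true, nat_lit 1, nat_lit 1, nat_lit 1, nat_lit 40, nat_lit 250, nat_lit 260, nat_lit 240, nat_lit 260, nat_lit 20, nat_lit 120, nat_lit 20, nat_lit 40, nat_lit 160, nat_lit 200, nat_lit 0, nat_lit 288, nat_lit 0, nat_lit 20, nat_lit 0, nat_lit 0, nat_lit 0, nat_lit 0⟩
theorem d_VL_600_600_5_37 (h : EB TB.env) : Dead b_VL_600_600_5_37 := chkB_sound0 h (T :=
(.spl (nat_lit 2) (nat_lit 80)
(.spl (nat_lit 2) (nat_lit 40)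
(.spl (nat_lit 4) (nat_lit 180)
(.spl (nat_lit 6) (nat_lit 8)
(.spl (nat_lit 6) (nat_lit 4)
(.leaf p035_l110)
(.spl (nat_lit 0) (nat_lit 255)
(.ord (.leaf p035_l111))
(.leaf p035_l112)))
(.leaf p035_l113))
(.spl (nat_lit 6) (nat_lit 8)
(.spl (nat_lit 6) (nat_lit 4)
(.leaf p035_l114)
(.spl (nat_lit 0) (nat_lit 255)
(.ord (.leaf p035_l115))
(.leaf p035_l116)))
(.leaf p035_l117)))
(.spl (nat_lit 2) (nat_lit 60)
(.spl (nat_lit 4) (nat_lit 180)
(.spl (nat_lit 6) (nat_lit 8)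
(.spl (nat_lit 6) (nat_lit 4)
(.leaf p035_l118)
(.spl (nat_lit 0) (nat_lit 255)
(.ord (.leaf p035_l119))
(.leaf p035_l120)))
(.leaf p035_l121))
(.spl (nat_lit 0) (nat_lit 255)
(.ord (.leaf p035_l122))
(.leaf p035_l123)))
(.spl (nat_lit 4) (nat_lit 180)
(.spl (nat_lit 0) (nat_lit 255)
(.ord (.leaf p035_l124))
(.leaf p035_l125))
(.leaf p035_l126))))
(.spl (nat_lit 5) (nat_lit 160)
(.spl (nat_lit 5) (nat_lit 80)
(.leaf p035_l127)
(.leaf p035_l128))
(.leaf p035_l129)))) (by decide +kernel)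

end B2
end Pool.Agent.Lib.MP_6947cd_al
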