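import Pool.Agent.Lib.MP_6947cd_al.ZB.Pre

/-!
Problem MP_6947cd_al (Chollet).  Case B, second entry in [2/5, 17/20]: certificates of the tree, part P037 (generated).
-/

set_option autoImplicit false
set_option linter.all false

namespace Pool.Agent.Lib.MP_6947cd_al
namespace B2

open Ent Fr B1 PkA

noncomputable def p037_k0 : C1.Kn := ⟨[nat_lit 80, nat_lit 100], [nat_lit 0, nat_lit 265], [(nat_lit 0, nat_lit 0, nat_lit 0), (nat_lit 1000, nat_lit 959, nat_lit 206)], (nat_lit 95, nat_lit 100, nat_lit 28)⟩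
noncomputable def p037_k1 : C1.Kn := ⟨[nat_lit 80, nat_lit 120], [nat_lit 0, nat_lit 528], [(nat_lit 0, nat_lit 0, nat_lit 0), (nat_lit 1000, nat_lit 959, nat_lit 206)], (nat_lit 96, nat_lit 100, nat_lit 44)⟩
noncomputable def p037_k2 : C1.Kn := ⟨[nat_lit 80, nat_lit 100, nat_lit 120], [nat_lit 0, nat_lit 399, nat_lit 897], [(nat_lit 0, nat_lit 0, nat_lit 0), (nat_lit 1000, nat_lit 938, nat_lit 310), (nat_lit 1000, nat_lit 938, nat_lit 389)], (nat_lit 94, nat_lit 100, nat_lit 44)⟩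
noncomputable def p037_k3 : C1.Kn := ⟨[nat_lit 80, nat_lit 100, nat_lit 120], [nat_lit 0, nat_lit 265, nat_lit 768], [(nat_lit 0, nat_lit 0, nat_lit 0), (nat_lit 1000, nat_lit 959, nat_lit 206), (nat_lit 1000, nat_lit 958, nat_lit 392)], (nat_lit 96, nat_lit 100, nat_lit 44)⟩
noncomputable def p037_k4 : C1.Kn := ⟨[nat_lit 80, nat_lit 100, nat_lit 120], [nat_lit 0, nat_lit 332, nat_lit 833], [(nat_lit 0, nat_lit 0, nat_lit 0), (nat_lit 1000, nat_lit 948, nat_lit 259), (nat_lit 1000, nat_lit 948, nat_lit 391)], (nat_lit 95, nat_lit 100, nat_lit 44)⟩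
noncomputable def p037_k5 : C1.Kn := ⟨[nat_lit 80, nat_lit 120], [nat_lit 0, nat_lit 796], [(nat_lit 0, nat_lit 0, nat_lit 0), (nat_lit 1000, nat_lit 938, nat_lit 310)], (nat_lit 94, nat_lit 100, nat_lit 44)⟩
noncomputable def p037_k6 : C1.Kn := ⟨[nat_lit 80, nat_lit 120], [nat_lit 0, nat_lit 664], [(nat_lit 0, nat_lit 0, nat_lit 0), (nat_lit 1000, nat_lit 948, nat_lit 259)], (nat_lit 95, nat_lit 100, nat_lit 44)⟩
noncomputable def p037_k7 : C1.Kn := ⟨[nat_lit 80, nat_lit 100, nat_lit 140], [nat_lit 0, nat_lit 265, nat_lit 1269], [(nat_lit 0, nat_lit 0, nat_lit 0), (nat_lit 1000, nat_lit 959, nat_lit 206), (nat_lit 1000, nat_lit 958, nat_lit 392)], (nat_lit 100, nat_lit 99, nat_lit 63)⟩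
noncomputable def p037_k8 : C1.Kn := ⟨[nat_lit 80, nat_lit 100, nat_lit 140], [nat_lit 0, nat_lit 399, nat_lit 1395], [(nat_lit 0, nat_lit 0, nat_lit 0), (nat_lit 1000, nat_lit 938, nat_lit 310), (nat_lit 1000, nat_lit 938, nat_lit 389)], (nat_lit 98, nat_lit 100, nat_lit 63)⟩
noncomputable def p037_k9 : C1.Kn := ⟨[nat_lit 80, nat_lit 100], [nat_lit 0, nat_lit 399], [(nat_lit 0, nat_lit 0, nat_lit 0), (nat_lit 1000, nat_lit 938, nat_lit 310)], (nat_lit 94, nat_lit 100, nat_lit 28)⟩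
noncomputable def p037_k10 : C1.Kn := ⟨[nat_lit 80, nat_lit 100], [nat_lit 0, nat_lit 466], [(nat_lit 0, nat_lit 0, nat_lit 0), (nat_lit 1000, nat_lit 927, nat_lit 359)], (nat_lit 93, nat_lit 100, nat_lit 28)⟩
noncomputable def p037_k11 : C1.Kn := ⟨[nat_lit 80, nat_lit 100, nat_lit 140], [nat_lit 0, nat_lit 332, nat_lit 1333], [(nat_lit 0, nat_lit 0, nat_lit 0), (nat_lit 1000, nat_lit 948, nat_lit 259), (nat_lit 1000, nat_lit 948, nat_lit 391)], (nat_lit 99, nat_lit 100, nat_lit 63)⟩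
noncomputable def p037_k12 : C1.Kn := ⟨[nat_lit 70, nat_lit 90, nat_lit 120], [nat_lit 0, nat_lit 0, nat_lit 774], [(nat_lit 0, nat_lit 0, nat_lit 0), (nat_lit 0, nat_lit 0, nat_lit 0), (nat_lit 1000, nat_lit 959, nat_lit 402)], (nat_lit 96, nat_lit 100, nat_lit 44)⟩
noncomputable def p037_k13 : C1.Kn := ⟨[nat_lit 70, nat_lit 90, nat_lit 140], [nat_lit 0, nat_lit 0, nat_lit 1289], [(nat_lit 0, nat_lit 0, nat_lit 0), (nat_lit 0, nat_lit 0, nat_lit 0), (nat_lit 1000, nat_lit 959, nat_lit 402)], (nat_lit 100, nat_lit 99, nat_lit 63)⟩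
noncomputable def p037_k14 : C1.Kn := ⟨[nat_lit 80, nat_lit 100, nat_lit 140], [nat_lit 0, nat_lit 466, nat_lit 1467], [(nat_lit 0, nat_lit 0, nat_lit 0), (nat_lit 1000, nat_lit 927, nat_lit 359), (nat_lit 1000, nat_lit 927, nat_lit 391)], (nat_lit 96, nat_lit 100, nat_lit 62)⟩
noncomputable def p037_k15 : C1.Kn := ⟨[nat_lit 80, nat_lit 120, nat_lit 160], [nat_lit 0, nat_lit 0, nat_lit 2132], [(nat_lit 0, nat_lit 0, nat_lit 0), (nat_lit 0, nat_lit 0, nat_lit 0), (nat_lit 858, nat_lit 1000, nat_lit 713)], (nat_lit 100, nat_lit 92, nat_lit 61)⟩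
noncomputable def p037_k16 : C1.Kn := ⟨[nat_lit 80, nat_lit 100, nat_lit 160], [nat_lit 0, nat_lit 0, nat_lit 1533], [(nat_lit 0, nat_lit 0, nat_lit 0), (nat_lit 0, nat_lit 0, nat_lit 0), (nat_lit 1000, nat_lit 1000, nat_lit 399)], (nat_lit 100, nat_lit 92, nat_lit 61)⟩
noncomputable def p037_k17 : C1.Kn := ⟨[nat_lit 60, nat_lit 80, nat_lit 100, nat_lit 110], [nat_lit 0, nat_lit 0, nat_lit 0, nat_lit 288], [(nat_lit 0, nat_lit 0, nat_lit 0), (nat_lit 0, nat_lit 0, nat_lit 0), (nat_lit 0, nat_lit 0, nat_lit 0), (nat_lit 1000, nat_lit 983, nat_lit 284)], (nat_lit 98, nat_lit 100, nat_lit 28)⟩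
noncomputable def p037_k18 : C1.Kn := ⟨[nat_lit 40, nat_lit 80, nat_lit 100], [nat_lit 0, nat_lit 0, nat_lit 0], [(nat_lit 0, nat_lit 0, nat_lit 0), (nat_lit 0, nat_lit 0, nat_lit 0), (nat_lit 0, nat_lit 0, nat_lit 0)], (nat_lit 98, nat_lit 100, nat_lit 20)⟩
noncomputable def p037_k19 : C1.Kn := ⟨[nat_lit 40, nat_lit 80, nat_lit 100], [nat_lit 0, nat_lit 0, nat_lit 11], [(nat_lit 0, nat_lit 0, nat_lit 0), (nat_lit 0, nat_lit 0, nat_lit 0), (nat_lit 1000, nat_lit 998, nat_lit 9)], (nat_lit 98, nat_lit 100, nat_lit 20)⟩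
noncomputable def p037_k20 : C1.Kn := ⟨[nat_lit 80, nat_lit 100], [nat_lit 0, nat_lit 11], [(nat_lit 0, nat_lit 0, nat_lit 0), (nat_lit 1000, nat_lit 998, nat_lit 9)], (nat_lit 98, nat_lit 100, nat_lit 20)⟩
noncomputable def p037_k21 : C1.Kn := ⟨[nat_lit 40, nat_lit 80, nat_lit 100], [nat_lit 0, nat_lit 0, nat_lit 24], [(nat_lit 0, nat_lit 0, nat_lit 0), (nat_lit 0, nat_lit 0, nat_lit 0), (nat_lit 1000, nat_lit 996, nat_lit 19)], (nat_lit 98, nat_lit 100, nat_lit 20)⟩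
noncomputable def p037_k22 : C1.Kn := ⟨[nat_lit 40, nat_lit 80, nat_lit 100], [nat_lit 0, nat_lit 0, nat_lit 36], [(nat_lit 0, nat_lit 0, nat_lit 0), (nat_lit 0, nat_lit 0, nat_lit 0), (nat_lit 1000, nat_lit 994, nat_lit 28)], (nat_lit 98, nat_lit 100, nat_lit 20)⟩
noncomputable def p037_k23 : C1.Kn := ⟨[nat_lit 40, nat_lit 80, nat_lit 100], [nat_lit 0, nat_lit 0, nat_lit 65], [(nat_lit 0, nat_lit 0, nat_lit 0), (nat_lit 0, nat_lit 0, nat_lit 0), (nat_lit 1000, nat_lit 990, nat_lit 51)], (nat_lit 97, nat_lit 100, nat_lit 20)⟩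
noncomputable def p037_k24 : C1.Kn := ⟨[nat_lit 40, nat_lit 80, nat_lit 100, nat_lit 120], [nat_lit 0, nat_lit 0, nat_lit 24, nat_lit 537], [(nat_lit 0, nat_lit 0, nat_lit 0), (nat_lit 0, nat_lit 0, nat_lit 0), (nat_lit 1000, nat_lit 996, nat_lit 19), (nat_lit 1000, nat_lit 995, nat_lit 395)], (nat_lit 98, nat_lit 100, nat_lit 28)⟩
noncomputable def p037_k25 : C1.Kn := ⟨[nat_lit 40, nat_lit 80, nat_lit 100], [nat_lit 0, nat_lit 0, nat_lit 52], [(nat_lit 0, nat_lit 0, nat_lit 0), (nat_lit 0, nat_lit 0, nat_lit 0), (nat_lit 1000, nat_lit 992, nat_lit 41)], (nat_lit 98, nat_lit 100, nat_lit 20)⟩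
noncomputable def p037_k26 : C1.Kn := ⟨[nat_lit 40, nat_lit 80, nat_lit 100], [nat_lit 0, nat_lit 0, nat_lit 90], [(nat_lit 0, nat_lit 0, nat_lit 0), (nat_lit 0, nat_lit 0, nat_lit 0), (nat_lit 1000, nat_lit 986, nat_lit 70)], (nat_lit 97, nat_lit 100, nat_lit 20)⟩
noncomputable def p037_k27 : C1.Kn := ⟨[nat_lit 40, nat_lit 80, nat_lit 100, nat_lit 110], [nat_lit 0, nat_lit 0, nat_lit 36, nat_lit 318], [(nat_lit 0, nat_lit 0, nat_lit 0), (nat_lit 0, nat_lit 0, nat_lit 0), (nat_lit 1000, nat_lit 994, nat_lit 28), (nat_lit 1000, nat_lit 980, nat_lit 302)], (nat_lit 98, nat_lit 100, nat_lit 28)⟩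
noncomputable def p037_k28 : C1.Kn := ⟨[nat_lit 40, nat_lit 80, nat_lit 100], [nat_lit 0, nat_lit 0, nat_lit 78], [(nat_lit 0, nat_lit 0, nat_lit 0), (nat_lit 0, nat_lit 0, nat_lit 0), (nat_lit 1000, nat_lit 988, nat_lit 61)], (nat_lit 97, nat_lit 100, nat_lit 20)⟩
noncomputable def p037_k29 : C1.Kn := ⟨[nat_lit 40, nat_lit 80, nat_lit 100, nat_lit 110], [nat_lit 0, nat_lit 0, nat_lit 65, nat_lit 339], [(nat_lit 0, nat_lit 0, nat_lit 0), (nat_lit 0, nat_lit 0, nat_lit 0), (nat_lit 1000, nat_lit 990, nat_lit 51), (nat_lit 1000, nat_lit 978, nat_lit 313)], (nat_lit 98, nat_lit 100, nat_lit 28)⟩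
noncomputable def p037_k30 : C1.Kn := ⟨[nat_lit 40, nat_lit 80, nat_lit 100, nat_lit 110], [nat_lit 0, nat_lit 0, nat_lit 90, nat_lit 360], [(nat_lit 0, nat_lit 0, nat_lit 0), (nat_lit 0, nat_lit 0, nat_lit 0), (nat_lit 1000, nat_lit 986, nat_lit 70), (nat_lit 1000, nat_lit 976, nat_lit 319)], (nat_lit 97, nat_lit 100, nat_lit 28)⟩
noncomputable def p037_k31 : C1.Kn := ⟨[nat_lit 40, nat_lit 80, nat_lit 100], [nat_lit 0, nat_lit 0, nat_lit 106], [(nat_lit 0, nat_lit 0, nat_lit 0), (nat_lit 0, nat_lit 0, nat_lit 0), (nat_lit 1000, nat_lit 983, nat_lit 83)], (nat_lit 97, nat_lit 100, nat_lit 20)⟩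
noncomputable def p037_k32 : C1.Kn := ⟨[nat_lit 40, nat_lit 80, nat_lit 100, nat_lit 110], [nat_lit 0, nat_lit 0, nat_lit 106, nat_lit 371], [(nat_lit 0, nat_lit 0, nat_lit 0), (nat_lit 0, nat_lit 0, nat_lit 0), (nat_lit 1000, nat_lit 983, nat_lit 83), (nat_lit 1000, nat_lit 974, nat_lit 323)], (nat_lit 97, nat_lit 100, nat_lit 28)⟩
noncomputable def p037_k33 : C1.Kn := ⟨[nat_lit 80, nat_lit 100, nat_lit 120], [nat_lit 0, nat_lit 0, nat_lit 511], [(nat_lit 0, nat_lit 0, nat_lit 0), (nat_lit 0, nat_lit 0, nat_lit 0), (nat_lit 1000, nat_lit 997, nat_lit 383)], (nat_lit 98, nat_lit 100, nat_lit 28)⟩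
noncomputable def p037_k34 : C1.Kn := ⟨[nat_lit 80, nat_lit 100, nat_lit 120], [nat_lit 0, nat_lit 65, nat_lit 576], [(nat_lit 0, nat_lit 0, nat_lit 0), (nat_lit 1000, nat_lit 990, nat_lit 51), (nat_lit 1000, nat_lit 990, nat_lit 399)], (nat_lit 98, nat_lit 100, nat_lit 28)⟩
noncomputable def p037_k35 : C1.Kn := ⟨[nat_lit 80, nat_lit 100, nat_lit 120], [nat_lit 0, nat_lit 106, nat_lit 614], [(nat_lit 0, nat_lit 0, nat_lit 0), (nat_lit 1000, nat_lit 983, nat_lit 83), (nat_lit 1000, nat_lit 983, nat_lit 397)], (nat_lit 97, nat_lit 100, nat_lit 28)⟩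
noncomputable def p037_k36 : C1.Kn := ⟨[nat_lit 80, nat_lit 100, nat_lit 140], [nat_lit 0, nat_lit 0, nat_lit 1022], [(nat_lit 0, nat_lit 0, nat_lit 0), (nat_lit 0, nat_lit 0, nat_lit 0), (nat_lit 1000, nat_lit 1000, nat_lit 399)], (nat_lit 100, nat_lit 99, nat_lit 44)⟩
noncomputable def p037_k37 : C1.Kn := ⟨[nat_lit 80, nat_lit 100, nat_lit 120], [nat_lit 0, nat_lit 65, nat_lit 576], [(nat_lit 0, nat_lit 0, nat_lit 0), (nat_lit 1000, nat_lit 990, nat_lit 51), (nat_lit 1000, nat_lit 990, nat_lit 399)], (nat_lit 99, nat_lit 100, nat_lit 40)⟩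
noncomputable def p037_k38 : C1.Kn := ⟨[nat_lit 80, nat_lit 100, nat_lit 140], [nat_lit 0, nat_lit 65, nat_lit 1086], [(nat_lit 0, nat_lit 0, nat_lit 0), (nat_lit 1000, nat_lit 990, nat_lit 51), (nat_lit 1000, nat_lit 990, nat_lit 399)], (nat_lit 100, nat_lit 100, nat_lit 45)⟩
noncomputable def p037_k39 : C1.Kn := ⟨[nat_lit 80, nat_lit 100, nat_lit 120], [nat_lit 0, nat_lit 0, nat_lit 511], [(nat_lit 0, nat_lit 0, nat_lit 0), (nat_lit 0, nat_lit 0, nat_lit 0), (nat_lit 1000, nat_lit 997, nat_lit 383)], (nat_lit 99, nat_lit 100, nat_lit 34)⟩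
noncomputable def p037_k40 : C1.Kn := ⟨[nat_lit 80, nat_lit 120], [nat_lit 0, nat_lit 48], [(nat_lit 0, nat_lit 0, nat_lit 0), (nat_lit 1000, nat_lit 996, nat_lit 19)], (nat_lit 99, nat_lit 100, nat_lit 34)⟩
noncomputable def p037_k41 : C1.Kn := ⟨[nat_lit 80, nat_lit 120], [nat_lit 0, nat_lit 0], [(nat_lit 0, nat_lit 0, nat_lit 0), (nat_lit 0, nat_lit 0, nat_lit 0)], (nat_lit 99, nat_lit 100, nat_lit 34)⟩
noncomputable def p037_k42 : C1.Kn := ⟨[nat_lit 80, nat_lit 100, nat_lit 120], [nat_lit 0, nat_lit 24, nat_lit 537], [(nat_lit 0, nat_lit 0, nat_lit 0), (nat_lit 1000, nat_lit 996, nat_lit 19), (nat_lit 1000, nat_lit 995, nat_lit 395)], (nat_lit 99, nat_lit 100, nat_lit 34)⟩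
noncomputable def p037_k43 : C1.Kn := ⟨[nat_lit 80, nat_lit 100, nat_lit 120], [nat_lit 0, nat_lit 36, nat_lit 550], [(nat_lit 0, nat_lit 0, nat_lit 0), (nat_lit 1000, nat_lit 994, nat_lit 28), (nat_lit 1000, nat_lit 993, nat_lit 397)], (nat_lit 99, nat_lit 100, nat_lit 34)⟩
noncomputable def p037_k44 : C1.Kn := ⟨[nat_lit 80, nat_lit 100, nat_lit 120], [nat_lit 0, nat_lit 52, nat_lit 563], [(nat_lit 0, nat_lit 0, nat_lit 0), (nat_lit 1000, nat_lit 992, nat_lit 41), (nat_lit 1000, nat_lit 992, nat_lit 398)], (nat_lit 98, nat_lit 100, nat_lit 34)⟩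
noncomputable def p037_k45 : C1.Kn := ⟨[nat_lit 80, nat_lit 100, nat_lit 120], [nat_lit 0, nat_lit 0, nat_lit 511], [(nat_lit 0, nat_lit 0, nat_lit 0), (nat_lit 0, nat_lit 0, nat_lit 0), (nat_lit 1000, nat_lit 997, nat_lit 383)], (nat_lit 100, nat_lit 100, nat_lit 40)⟩
noncomputable def p037_k46 : C1.Kn := ⟨[nat_lit 80, nat_lit 100, nat_lit 120], [nat_lit 0, nat_lit 106, nat_lit 614], [(nat_lit 0, nat_lit 0, nat_lit 0), (nat_lit 1000, nat_lit 983, nat_lit 83), (nat_lit 1000, nat_lit 983, nat_lit 397)], (nat_lit 98, nat_lit 100, nat_lit 40)⟩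
noncomputable def p037_k47 : C1.Kn := ⟨[nat_lit 80, nat_lit 100, nat_lit 120], [nat_lit 0, nat_lit 52, nat_lit 563], [(nat_lit 0, nat_lit 0, nat_lit 0), (nat_lit 1000, nat_lit 992, nat_lit 41), (nat_lit 1000, nat_lit 992, nat_lit 398)], (nat_lit 99, nat_lit 100, nat_lit 40)⟩
noncomputable def p037_k48 : C1.Kn := ⟨[nat_lit 80, nat_lit 100, nat_lit 120], [nat_lit 0, nat_lit 78, nat_lit 588], [(nat_lit 0, nat_lit 0, nat_lit 0), (nat_lit 1000, nat_lit 988, nat_lit 61), (nat_lit 1000, nat_lit 987, nat_lit 395)], (nat_lit 99, nat_lit 100, nat_lit 40)⟩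
noncomputable def p037_k49 : C1.Kn := ⟨[nat_lit 80, nat_lit 100, nat_lit 120], [nat_lit 0, nat_lit 90, nat_lit 602], [(nat_lit 0, nat_lit 0, nat_lit 0), (nat_lit 1000, nat_lit 986, nat_lit 70), (nat_lit 1000, nat_lit 986, nat_lit 399)], (nat_lit 99, nat_lit 100, nat_lit 40)⟩
noncomputable def p037_k50 : C1.Kn := ⟨[nat_lit 80, nat_lit 100, nat_lit 120], [nat_lit 0, nat_lit 65, nat_lit 576], [(nat_lit 0, nat_lit 0, nat_lit 0), (nat_lit 1000, nat_lit 990, nat_lit 51), (nat_lit 1000, nat_lit 990, nat_lit 399)], (nat_lit 98, nat_lit 100, nat_lit 34)⟩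
noncomputable def p037_k51 : C1.Kn := ⟨[nat_lit 80, nat_lit 100, nat_lit 120], [nat_lit 0, nat_lit 78, nat_lit 588], [(nat_lit 0, nat_lit 0, nat_lit 0), (nat_lit 1000, nat_lit 988, nat_lit 61), (nat_lit 1000, nat_lit 987, nat_lit 395)], (nat_lit 98, nat_lit 100, nat_lit 34)⟩
noncomputable def p037_k52 : C1.Kn := ⟨[nat_lit 80, nat_lit 100, nat_lit 120], [nat_lit 0, nat_lit 90, nat_lit 602], [(nat_lit 0, nat_lit 0, nat_lit 0), (nat_lit 1000, nat_lit 986, nat_lit 70), (nat_lit 1000, nat_lit 986, nat_lit 399)], (nat_lit 98, nat_lit 100, nat_lit 34)⟩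
noncomputable def p037_l0 : Lf2 := ⟨nat_lit 0, nat_lit 2, [nat_lit 10, nat_lit 5, nat_lit 5, nat_lit 20], false, nat_lit 160, nat_lit 180, nat_lit 0, nat_lit 160, ⟨nat_lit 1000, nat_lit 0, nat_lit 0, nat_lit 0, nat_lit 0, nat_lit 0, nat_lit 0, nat_lit 0, nat_lit 0, nat_lit 0, nat_lit 0, nat_lit 0, nat_lit 0, nat_lit 0, nat_lit 0, nat_lit 0, false, false⟩,
 nat_lit 15227, nat_lit 0, nat_lit 0, nat_lit 0, nat_lit 8863, nat_lit 6389, nat_lit 3388, nat_lit 0, nat_lit 0, nat_lit 0, nat_lit 0, nat_lit 0, nat_lit 0, nat_lit 0, nat_lit 0, nat_lit 0, nat_lit 0, nat_lit 0, [],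
 ⟨p037_k0, nat_lit 0, nat_lit 0, nat_lit 0, nat_lit 0, nat_lit 397911, [nat_lit 4688000000, nat_lit 6250000000], [], [nat_lit 10696696584, nat_lit 11610614448, nat_lit 9652825812, nat_lit 10536885020, nat_lit 11662465688, nat_lit 13036180253, nat_lit 10598973812, nat_lit 11443470285], nat_lit 1271250, nat_lit 1271250, nat_lit 205650, nat_lit 356250, nat_lit 1100001, nat_lit 1271250, [nat_lit 1100000, nat_lit 1442500], [nat_lit 31, nat_lit 40, nat_lit 20, nat_lit 80]⟩, ⟨p037_k0, nat_lit 0, nat_lit 0, nat_lit 0, nat_lit 0, nat_lit 397911, [nat_lit 4688000000, nat_lit 6250000000], [], [nat_lit 34384458684, nat_lit 33551384196, nat_lit 30401939424, nat_lit 29576333677, nat_lit 25671592670, nat_lit 24896863169, nat_lit 26418059508, nat_lit 25649782258], nat_lit 1271250, nat_lit 1271250, nat_lit 205650, nat_lit 356250, nat_lit 0, nat_lit 1100001, [nat_lit 1100000, nat_lit 1442500], [nat_lit 31, nat_lit 40, nat_lit 20, nat_lit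 80]⟩,
 zbF0, [⟨nat_lit 0, nat_lit 100, nat_lit 100, nat_lit 60, nat_lit 1609095221⟩]⟩
noncomputable def p037_l1 : Lf2 := ⟨nat_lit 0, nat_lit 5, [nat_lit 4, nat_lit 5, nat_lit 5, nat_lit 20], true, nat_lit 160, nat_lit 180, nat_lit 0, nat_lit 160, ⟨nat_lit 0, nat_lit 0, nat_lit 1000, nat_lit 6, nat_lit 109, nat_lit 1000, nat_lit 104, nat_lit 1000, nat_lit 101400, nat_lit 293, nat_lit 112067, nat_lit 297, nat_lit 57093135, nat_lit 0, nat_lit 0, nat_lit 2767837, false, false⟩,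
 nat_lit 0, nat_lit 8645, nat_lit 0, nat_lit 0, nat_lit 5032, nat_lit 0, nat_lit 0, nat_lit 0, nat_lit 0, nat_lit 0, nat_lit 0, nat_lit 0, nat_lit 0, nat_lit 0, nat_lit 81, nat_lit 656200, nat_lit 0, nat_lit 0, [(nat_lit 9, [(nat_lit 5, nat_lit 573), (nat_lit 6, nat_lit 427)])],
 ⟨p037_k1, nat_lit 0, nat_lit 0, nat_lit 0, nat_lit 0, nat_lit 331234, [nat_lit 2728460001, nat_lit 9078000], [], [nat_lit 11140587819, nat_lit 11777468377, nat_lit 10704272273, nat_lit 11386022098, nat_lit 11929634734, nat_lit 12609016431, nat_lit 11538410522, nat_lit 12203262966], nat_lit 1271250, nat_lit 1271250, nat_lit 205650, nat_lit 356250, nat_lit 1100001, nat_lit 1271250, [nat_lit 1100000, nat_lit 1785000], [nat_lit 39, nat_lit 40, nat_lit 20, nat_lit 80]⟩, C1.Rw.none,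
 ⟨nat_lit 5700, nat_lit 5917, ⟨.ofNat (nat_lit 242029), .ofNat (nat_lit 289149), .ofNat (nat_lit 247363), .ofNat (nat_lit 294484), .ofNat (nat_lit 249476), .ofNat (nat_lit 295508), .ofNat (nat_lit 254812), .ofNat (nat_lit 300843)⟩, ⟨.ofNat (nat_lit 229411), .ofNat (nat_lit 268678), .ofNat (nat_lit 250751), .ofNat (nat_lit 290018), .ofNat (nat_lit 231202), .ofNat (nat_lit 269561), .ofNat (nat_lit 252544), .ofNat (nat_lit 290903)⟩⟩, [⟨nat_lit 0, nat_lit 100, nat_lit 99, nat_lit 67, nat_lit 198187028⟩]⟩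
noncomputable def p037_l2 : Lf2 := ⟨nat_lit 0, nat_lit 5, [nat_lit 4, nat_lit 5, nat_lit 5, nat_lit 20], false, nat_lit 160, nat_lit 180, nat_lit 0, nat_lit 160, ⟨nat_lit 695, nat_lit 0, nat_lit 305, nat_lit 6, nat_lit 113, nat_lit 305, nat_lit 105, nat_lit 305, nat_lit 101400, nat_lit 293, nat_lit 120417, nat_lit 300, nat_lit 56718147, nat_lit 0, nat_lit 0, nat_lit 2840115, false, false⟩,
 nat_lit 15047, nat_lit 0, nat_lit 0, nat_lit 0, nat_lit 9163, nat_lit 8758, nat_lit 2766, nat_lit 0, nat_lit 0, nat_lit 0, nat_lit 0, nat_lit 0, nat_lit 0, nat_lit 0, nat_lit 0, nat_lit 305000, nat_lit 0, nat_lit 0, [(nat_lit 9, [(nat_lit 6, nat_lit 305)])],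
 ⟨p037_k2, nat_lit 0, nat_lit 0, nat_lit 0, nat_lit 0, nat_lit 441387, [nat_lit 3592928000, nat_lit 4118050001, nat_lit 4723266999], [], [nat_lit 11939923774, nat_lit 12673624216, nat_lit 10899768487, nat_lit 11255961780, nat_lit 12773567363, nat_lit 14058639227, nat_lit 13528658285, nat_lit 12635419425], nat_lit 1271250, nat_lit 1271250, nat_lit 230001, nat_lit 356250, nat_lit 1100001, nat_lit 1271250, [nat_lit 1100000, nat_lit 1442500, nat_lit 1271250], [nat_lit 9, nat_lit 40, nat_lit 20, nat_lit 80]⟩, ⟨p037_k3, nat_lit 0, nat_lit 0, nat_lit 0, nat_lit 0, nat_lit 464801, [nat_lit 3258160000, nat_lit 4343750000, nat_lit 5537760000], [], [nat_lit 23197930528, nat_lit 22057687097, nat_lit 18654542868, nat_lit 17522807834, nat_lit 14795726116, nat_lit 13749828240, nat_lit 15400627788, nat_lit 14361872061], nat_lit 1271250, nat_lit 1271250, nat_lit 230001, nat_lit 356250, nat_lit 0, nat_lit 1100001, [nat_lit 1100000, nat_lit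 1442500, nat_lit 1271250], [nat_lit 9, nat_lit 40, nat_lit 20, nat_lit 80]⟩,
 ⟨nat_lit 5477, nat_lit 5701, ⟨.ofNat (nat_lit 257148), .ofNat (nat_lit 295508), .ofNat (nat_lit 262484), .ofNat (nat_lit 300843), .ofNat (nat_lit 264337), .ofNat (nat_lit 301804), .ofNat (nat_lit 269677), .ofNat (nat_lit 307143)⟩, ⟨.ofNat (nat_lit 231202), .ofNat (nat_lit 269561), .ofNat (nat_lit 252544), .ofNat (nat_lit 290903), .ofNat (nat_lit 232852), .ofNat (nat_lit 270319), .ofNat (nat_lit 254209), .ofNat (nat_lit 291676)⟩⟩, [⟨nat_lit 0, nat_lit 100, nat_lit 98, nat_lit 68, nat_lit 1490840437⟩]⟩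
noncomputable def p037_l3 : Lf2 := ⟨nat_lit 0, nat_lit 5, [nat_lit 4, nat_lit 5, nat_lit 5, nat_lit 20], false, nat_lit 160, nat_lit 180, nat_lit 0, nat_lit 160, ⟨nat_lit 1000, nat_lit 0, nat_lit 0, nat_lit 0, nat_lit 0, nat_lit 0, nat_lit 0, nat_lit 0, nat_lit 0, nat_lit 0, nat_lit 0, nat_lit 0, nat_lit 0, nat_lit 0, nat_lit 0, nat_lit 0, false, false⟩,
 nat_lit 20249, nat_lit 0, nat_lit 0, nat_lit 0, nat_lit 12058, nat_lit 12058, nat_lit 3812, nat_lit 0, nat_lit 0, nat_lit 329, nat_lit 0, nat_lit 0, nat_lit 0, nat_lit 0, nat_lit 0, nat_lit 0, nat_lit 0, nat_lit 0, [],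
 ⟨p037_k4, nat_lit 0, nat_lit 0, nat_lit 0, nat_lit 0, nat_lit 474170, [nat_lit 4688000000, nat_lit 6250000000, nat_lit 7968000000], [], [nat_lit 12314330159, nat_lit 12931371856, nat_lit 9684046676, nat_lit 10943475480, nat_lit 12093203107, nat_lit 14546530682, nat_lit 12917326135, nat_lit 12552839550], nat_lit 1271250, nat_lit 1271250, nat_lit 230001, nat_lit 356250, nat_lit 1100001, nat_lit 1271250, [nat_lit 1100000, nat_lit 1442500, nat_lit 1271250], [nat_lit 9, nat_lit 40, nat_lit 20, nat_lit 80]⟩, ⟨p037_k4, nat_lit 0, nat_lit 0, nat_lit 0, nat_lit 0, nat_lit 474170, [nat_lit 4688000000, nat_lit 6250000000, nat_lit 7968000000], [], [nat_lit 31838002707, nat_lit 30268117426, nat_lit 25594388394, nat_lit 24036217460, nat_lit 20042633340, nat_lit 18602642864, nat_lit 20907072291, nat_lit 19476915114], nat_lit 1271250, nat_lit 1271250, nat_lit 230001, nat_lit 356250, nat_lit 0, nat_lit 1100001, [nat_lit 1100000, nat_lit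 1442500, nat_lit 1271250], [nat_lit 9, nat_lit 40, nat_lit 20, nat_lit 80]⟩,
 zbF0, [⟨nat_lit 0, nat_lit 100, nat_lit 99, nat_lit 70, nat_lit 2065272552⟩]⟩
noncomputable def p037_l4 : Lf2 := ⟨nat_lit 0, nat_lit 5, [nat_lit 4, nat_lit 5, nat_lit 5, nat_lit 20], false, nat_lit 160, nat_lit 180, nat_lit 0, nat_lit 160, ⟨nat_lit 1000, nat_lit 0, nat_lit 0, nat_lit 0, nat_lit 0, nat_lit 0, nat_lit 0, nat_lit 0, nat_lit 0, nat_lit 0, nat_lit 0, nat_lit 0, nat_lit 0, nat_lit 0, nat_lit 0, nat_lit 0, false, false⟩,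
 nat_lit 20727, nat_lit 0, nat_lit 0, nat_lit 0, nat_lit 12623, nat_lit 12623, nat_lit 4231, nat_lit 0, nat_lit 0, nat_lit 0, nat_lit 0, nat_lit 0, nat_lit 0, nat_lit 0, nat_lit 0, nat_lit 0, nat_lit 0, nat_lit 0, [],
 ⟨p037_k5, nat_lit 0, nat_lit 0, nat_lit 0, nat_lit 0, nat_lit 505614, [nat_lit 4688000000, nat_lit 7968000000], [], [nat_lit 10279598150, nat_lit 12142000714, nat_lit 9037012498, nat_lit 10882489380, nat_lit 12026249489, nat_lit 13799738911, nat_lit 12205133144, nat_lit 12536722925], nat_lit 1271250, nat_lit 1271250, nat_lit 279600, nat_lit 356250, nat_lit 1100001, nat_lit 1271250, [nat_lit 1100000, nat_lit 1785000], [nat_lit 39, nat_lit 40, nat_lit 20, nat_lit 80]⟩, ⟨p037_k5, nat_lit 0, nat_lit 0, nat_lit 0, nat_lit 0, nat_lit 505614, [nat_lit 4688000000, nat_lit 7968000000], [], [nat_lit 27480690843, nat_lit 26740953501, nat_lit 23974478195, nat_lit 25467423560, nat_lit 18702666539, nat_lit 16227512777,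 nat_lit 19286687259, nat_lit 16292347560], nat_lit 1271250, nat_lit 1271250, nat_lit 279600, nat_lit 356250, nat_lit 0, nat_lit 1100001, [nat_lit 1100000, nat_lit 1785000], [nat_lit 39, nat_lit 40, nat_lit 20, nat_lit 80]⟩,
 zbF0, [⟨nat_lit 0, nat_lit 100, nat_lit 100, nat_lit 75, nat_lit 2059990129⟩]⟩
noncomputable def p037_l5 : Lf2 := ⟨nat_lit 0, nat_lit 5, [nat_lit 4, nat_lit 5, nat_lit 5, nat_lit 20], false, nat_lit 160, nat_lit 180, nat_lit 0, nat_lit 160, ⟨nat_lit 1000, nat_lit 0, nat_lit 0, nat_lit 0, nat_lit 0, nat_lit 0, nat_lit 0, nat_lit 0, nat_lit 0, nat_lit 0, nat_lit 0, nat_lit 0, nat_lit 0, nat_lit 0, nat_lit 0, nat_lit 0, false, false⟩,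
 nat_lit 14199, nat_lit 0, nat_lit 0, nat_lit 0, nat_lit 8264, nat_lit 8264, nat_lit 165, nat_lit 0, nat_lit 0, nat_lit 2650, nat_lit 0, nat_lit 0, nat_lit 0, nat_lit 0, nat_lit 0, nat_lit 0, nat_lit 0, nat_lit 0, [],
 ⟨p037_k3, nat_lit 0, nat_lit 0, nat_lit 0, nat_lit 0, nat_lit 532436, [nat_lit 4688000000, nat_lit 6250000000, nat_lit 7968000000], [], [nat_lit 24639219424, nat_lit 22109304207, nat_lit 20511830815, nat_lit 21618524207, nat_lit 21543025635, nat_lit 22627804687, nat_lit 21064539587, nat_lit 22122005279], nat_lit 1271250, nat_lit 1271250, nat_lit 356250, nat_lit 490000, nat_lit 1100001, nat_lit 1271250, [nat_lit 1100000, nat_lit 1442500, nat_lit 1271250], [nat_lit 9, nat_lit 40, nat_lit 20, nat_lit 80]⟩, ⟨p037_k3, nat_lit 0, nat_lit 0, nat_lit 0, nat_lit 0, nat_lit 532436, [nat_lit 4688000000, nat_lit 6250000000, nat_lit 7968000000], [], [nat_lit 29327219424, nat_lit 25055623936, nat_lit 25070714000, nat_lit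 20830802688, nat_lit 24639984044, nat_lit 20719327580, nat_lit 25688244556, nat_lit 21794198172], nat_lit 1271250, nat_lit 1271250, nat_lit 356250, nat_lit 490000, nat_lit 0, nat_lit 1100001, [nat_lit 1100000, nat_lit 1442500, nat_lit 1271250], [nat_lit 9, nat_lit 40, nat_lit 20, nat_lit 80]⟩,
 zbF0, []⟩
noncomputable def p037_l6 : Lf2 := ⟨nat_lit 0, nat_lit 2, [nat_lit 10, nat_lit 5, nat_lit 5, nat_lit 20], false, nat_lit 160, nat_lit 180, nat_lit 160, nat_lit 268, ⟨nat_lit 676, nat_lit 0, nat_lit 324, nat_lit 6, nat_lit 110, nat_lit 324, nat_lit 104, nat_lit 324, nat_lit 101400, nat_lit 293, nat_lit 112067, nat_lit 297, nat_lit 57009534, nat_lit 0, nat_lit 0, nat_lit 2784057, false, false⟩,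
 nat_lit 12366, nat_lit 0, nat_lit 0, nat_lit 0, nat_lit 7197, nat_lit 7197, nat_lit 2394, nat_lit 0, nat_lit 0, nat_lit 0, nat_lit 0, nat_lit 0, nat_lit 0, nat_lit 0, nat_lit 0, nat_lit 324000, nat_lit 0, nat_lit 0, [(nat_lit 9, [(nat_lit 6, nat_lit 324)])],
 ⟨p037_k0, nat_lit 0, nat_lit 0, nat_lit 0, nat_lit 0, nat_lit 419839, [nat_lit 3524710400, nat_lit 3985240000], [], [nat_lit 11203347451, nat_lit 11999189650, nat_lit 10439535278, nat_lit 11217277030, nat_lit 12091516275, nat_lit 12853296362, nat_lit 11310652469, nat_lit 12080460001], nat_lit 1271250, nat_lit 1271250, nat_lit 205650, nat_lit 356250, nat_lit 1100001, nat_lit 1271250, [nat_lit 1100000, nat_lit 1442500], [nat_lit 31, nat_lit 40, nat_lit 20, nat_lit 80]⟩, ⟨p037_k0, nat_lit 0, nat_lit 0, nat_lit 0, nat_lit 0, nat_lit 419839, [nat_lit 3169088000, nat_lit 4225000000], [], [nat_lit 20219156844, nat_lit 18342294396, nat_lit 15732978864, nat_lit 13872943002,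 nat_lit 17129591575, nat_lit 15424397153, nat_lit 17794882850, nat_lit 16103540350], nat_lit 1271250, nat_lit 1271250, nat_lit 205650, nat_lit 356250, nat_lit 1100001, nat_lit 2024750, [nat_lit 1100000, nat_lit 1442500], [nat_lit 31, nat_lit 40, nat_lit 20, nat_lit 80]⟩,
 ⟨nat_lit 5700, nat_lit 5917, ⟨.ofNat (nat_lit 242029), .ofNat (nat_lit 289149), .ofNat (nat_lit 252698), .ofNat (nat_lit 299818), .ofNat (nat_lit 249476), .ofNat (nat_lit 295508), .ofNat (nat_lit 260147), .ofNat (nat_lit 306179)⟩, ⟨.ofNat (nat_lit 229411), .ofNat (nat_lit 268678), .ofNat (nat_lit 250751), .ofNat (nat_lit 290018), .ofNat (nat_lit 231202), .ofNat (nat_lit 269561), .ofNat (nat_lit 252544), .ofNat (nat_lit 290903)⟩⟩, [⟨nat_lit 0, nat_lit 100, nat_lit 100, nat_lit 65, nat_lit 526520356⟩]⟩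
noncomputable def p037_l7 : Lf2 := ⟨nat_lit 0, nat_lit 5, [nat_lit 4, nat_lit 5, nat_lit 5, nat_lit 20], true, nat_lit 160, nat_lit 180, nat_lit 160, nat_lit 268, ⟨nat_lit 0, nat_lit 0, nat_lit 1000, nat_lit 6, nat_lit 108, nat_lit 1000, nat_lit 104, nat_lit 1000, nat_lit 101400, nat_lit 293, nat_lit 109350, nat_lit 296, nat_lit 57156857, nat_lit 0, nat_lit 0, nat_lit 2755344, false, false⟩,
 nat_lit 0, nat_lit 8742, nat_lit 0, nat_lit 0, nat_lit 5088, nat_lit 0, nat_lit 0, nat_lit 0, nat_lit 0, nat_lit 0, nat_lit 0, nat_lit 0, nat_lit 0, nat_lit 24986911910879, nat_lit 85, nat_lit 698200, nat_lit 0, nat_lit 0, [(nat_lit 9, [(nat_lit 5, nat_lit 503), (nat_lit 6, nat_lit 497)])],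
 ⟨p037_k1, nat_lit 0, nat_lit 0, nat_lit 0, nat_lit 0, nat_lit 307678, [nat_lit 2777060000, nat_lit 1058000], [], [nat_lit 10930355082, nat_lit 11286067006, nat_lit 10544881824, nat_lit 10892907544, nat_lit 11793008261, nat_lit 12134651057, nat_lit 11392407180, nat_lit 11726728603], nat_lit 1271250, nat_lit 1271250, nat_lit 205650, nat_lit 356250, nat_lit 1100001, nat_lit 1271250, [nat_lit 1100000, nat_lit 1785000], [nat_lit 39, nat_lit 40, nat_lit 20, nat_lit 80]⟩, C1.Rw.none,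
 ⟨nat_lit 5809, nat_lit 5917, ⟨.ofNat (nat_lit 242029), .ofNat (nat_lit 289149), .ofNat (nat_lit 247363), .ofNat (nat_lit 294484), .ofNat (nat_lit 245764), .ofNat (nat_lit 292337), .ofNat (nat_lit 251099), .ofNat (nat_lit 297672)⟩, ⟨.ofNat (nat_lit 229411), .ofNat (nat_lit 268678), .ofNat (nat_lit 250751), .ofNat (nat_lit 290018), .ofNat (nat_lit 230324), .ofNat (nat_lit 269135), .ofNat (nat_lit 251663), .ofNat (nat_lit 290474)⟩⟩, [⟨nat_lit 0, nat_lit 100, nat_lit 100, nat_lit 65, nat_lit 198689006⟩]⟩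
noncomputable def p037_l8 : Lf2 := ⟨nat_lit 0, nat_lit 5, [nat_lit 4, nat_lit 5, nat_lit 5, nat_lit 20], false, nat_lit 160, nat_lit 180, nat_lit 160, nat_lit 268, ⟨nat_lit 497, nat_lit 0, nat_lit 503, nat_lit 6, nat_lit 110, nat_lit 503, nat_lit 104, nat_lit 503, nat_lit 101400, nat_lit 293, nat_lit 114817, nat_lit 298, nat_lit 56944663, nat_lit 0, nat_lit 0, nat_lit 2796646, false, false⟩,
 nat_lit 11151, nat_lit 0, nat_lit 0, nat_lit 0, nat_lit 6640, nat_lit 6490, nat_lit 1550, nat_lit 0, nat_lit 0, nat_lit 0, nat_lit 0, nat_lit 0, nat_lit 0, nat_lit 0, nat_lit 0, nat_lit 503000, nat_lit 0, nat_lit 0, [(nat_lit 9, [(nat_lit 6, nat_lit 503)])],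
 ⟨p037_k6, nat_lit 0, nat_lit 0, nat_lit 0, nat_lit 0, nat_lit 345094, [nat_lit 2987055200, nat_lit 2588447067], [], [nat_lit 11583431631, nat_lit 11926933444, nat_lit 10861944167, nat_lit 11213490320, nat_lit 12395833243, nat_lit 12791572861, nat_lit 11726464865, nat_lit 12113310430], nat_lit 1271250, nat_lit 1271250, nat_lit 205650, nat_lit 356250, nat_lit 1100001, nat_lit 1271250, [nat_lit 1100000, nat_lit 1785000], [nat_lit 39, nat_lit 40, nat_lit 20, nat_lit 80]⟩, ⟨p037_k1, nat_lit 0, nat_lit 0, nat_lit 0, nat_lit 0, nat_lit 354210, [nat_lit 2329936000, nat_lit 3960096000], [], [nat_lit 14925390404, nat_lit 13232902244, nat_lit 10879913804, nat_lit 9202599264, nat_lit 11191077363, nat_lit 11576549433, nat_lit 11620326496, nat_lit 10470251386], nat_lit 1271250, nat_lit 1271250, nat_lit 205650, nat_lit 356250, nat_lit 1100001, nat_lit 2024750, [nat_lit 1100000, nat_lit 1785000], [nat_lit 39, nat_lit 40, nat_lit 20, nat_lit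 80]⟩,
 ⟨nat_lit 5700, nat_lit 5810, ⟨.ofNat (nat_lit 245764), .ofNat (nat_lit 292337), .ofNat (nat_lit 256433), .ofNat (nat_lit 303007), .ofNat (nat_lit 249476), .ofNat (nat_lit 295508), .ofNat (nat_lit 260147), .ofNat (nat_lit 306179)⟩, ⟨.ofNat (nat_lit 230324), .ofNat (nat_lit 269135), .ofNat (nat_lit 251663), .ofNat (nat_lit 290474), .ofNat (nat_lit 231202), .ofNat (nat_lit 269561), .ofNat (nat_lit 252544), .ofNat (nat_lit 290903)⟩⟩, [⟨nat_lit 0, nat_lit 100, nat_lit 100, nat_lit 66, nat_lit 725445108⟩, ⟨nat_lit 0, nat_lit 100, nat_lit 99, nat_lit 62, nat_lit 32507192⟩]⟩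
noncomputable def p037_l9 : Lf2 := ⟨nat_lit 0, nat_lit 5, [nat_lit 4, nat_lit 5, nat_lit 5, nat_lit 20], false, nat_lit 160, nat_lit 180, nat_lit 160, nat_lit 240, ⟨nat_lit 721, nat_lit 0, nat_lit 279, nat_lit 6, nat_lit 116, nat_lit 279, nat_lit 105, nat_lit 279, nat_lit 101400, nat_lit 293, nat_lit 126150, nat_lit 302, nat_lit 56462138, nat_lit 0, nat_lit 0, nat_lit 2888004, false, false⟩,
 nat_lit 15118, nat_lit 0, nat_lit 0, nat_lit 0, nat_lit 9207, nat_lit 8800, nat_lit 2802, nat_lit 0, nat_lit 0, nat_lit 0, nat_lit 0, nat_lit 0, nat_lit 0, nat_lit 0, nat_lit 0, nat_lit 279000, nat_lit 0, nat_lit 0, [(nat_lit 9, [(nat_lit 6, nat_lit 279)])],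
 ⟨p037_k2, nat_lit 0, nat_lit 0, nat_lit 0, nat_lit 0, nat_lit 505614, [nat_lit 3686278400, nat_lit 4299790000, nat_lit 4996542600], [], [nat_lit 12110956397, nat_lit 12677541624, nat_lit 11124808954, nat_lit 11251212420, nat_lit 13006741318, nat_lit 14066054503, nat_lit 13763033176, nat_lit 12634164325], nat_lit 1271250, nat_lit 1271250, nat_lit 230001, nat_lit 356250, nat_lit 1100001, nat_lit 1271250, [nat_lit 1100000, nat_lit 1442500, nat_lit 1271250], [nat_lit 9, nat_lit 40, nat_lit 20, nat_lit 80]⟩, ⟨p037_k3, nat_lit 0, nat_lit 0, nat_lit 0, nat_lit 0, nat_lit 532436, [nat_lit 3380048000, nat_lit 4506250000, nat_lit 5744928000], [], [nat_lit 20701261452, nat_lit 16118415052, nat_lit 16136085452, nat_lit 11587435852, nat_lit 14016014238, nat_lit 15446764732, nat_lit 14177117852, nat_lit 14253124536], nat_lit 1271250, nat_lit 1271250, nat_lit 230001, nat_lit 356250, nat_lit 1100001, nat_lit 1785000, [nat_lit 1100000,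 nat_lit 1442500, nat_lit 1271250], [nat_lit 9, nat_lit 40, nat_lit 20, nat_lit 80]⟩,
 ⟨nat_lit 5477, nat_lit 5701, ⟨.ofNat (nat_lit 257148), .ofNat (nat_lit 295508), .ofNat (nat_lit 278490), .ofNat (nat_lit 316850), .ofNat (nat_lit 264337), .ofNat (nat_lit 301804), .ofNat (nat_lit 285695), .ofNat (nat_lit 323161)⟩, ⟨.ofNat (nat_lit 231202), .ofNat (nat_lit 269561), .ofNat (nat_lit 252544), .ofNat (nat_lit 290903), .ofNat (nat_lit 232852), .ofNat (nat_lit 270319), .ofNat (nat_lit 254209), .ofNat (nat_lit 291676)⟩⟩, [⟨nat_lit 0, nat_lit 100, nat_lit 98, nat_lit 64, nat_lit 1408237758⟩]⟩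
noncomputable def p037_l10 : Lf2 := ⟨nat_lit 0, nat_lit 5, [nat_lit 4, nat_lit 5, nat_lit 5, nat_lit 20], false, nat_lit 160, nat_lit 180, nat_lit 240, nat_lit 268, ⟨nat_lit 1000, nat_lit 0, nat_lit 0, nat_lit 0, nat_lit 0, nat_lit 0, nat_lit 0, nat_lit 0, nat_lit 0, nat_lit 0, nat_lit 0, nat_lit 0, nat_lit 0, nat_lit 0, nat_lit 0, nat_lit 0, false, false⟩,
 nat_lit 20808, nat_lit 0, nat_lit 0, nat_lit 0, nat_lit 12672, nat_lit 12112, nat_lit 2739, nat_lit 0, nat_lit 0, nat_lit 1376, nat_lit 0, nat_lit 0, nat_lit 0, nat_lit 0, nat_lit 0, nat_lit 0, nat_lit 0, nat_lit 0, [],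
 ⟨p037_k5, nat_lit 0, nat_lit 0, nat_lit 0, nat_lit 0, nat_lit 505614, [nat_lit 4688000000, nat_lit 7968000000], [], [nat_lit 11491116476, nat_lit 12986037504, nat_lit 12384192476, nat_lit 10877200320, nat_lit 14904948476, nat_lit 14650007488, nat_lit 15837957116, nat_lit 12851965052], nat_lit 1271250, nat_lit 1271250, nat_lit 230001, nat_lit 356250, nat_lit 1100001, nat_lit 1271250, [nat_lit 1100000, nat_lit 1785000], [nat_lit 39, nat_lit 40, nat_lit 20, nat_lit 80]⟩, ⟨p037_k1, nat_lit 0, nat_lit 0, nat_lit 0, nat_lit 0, nat_lit 532436, [nat_lit 4688000000, nat_lit 7968000000], [], [nat_lit 17229907824, nat_lit 19413986240, nat_lit 15626448176, nat_lit 17563763136, nat_lit 20629605090, nat_lit 23286787570, nat_lit 18586936540, nat_lit 21205824888], nat_lit 1271250, nat_lit 1271250, nat_lit 230001, nat_lit 356250, nat_lit 1271250, nat_lit 1271250, [nat_lit 1100000, nat_lit 1785000], [nat_lit 39, nat_lit 40, nat_lit 20, nat_lit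 80]⟩,
 zbF0, [⟨nat_lit 0, nat_lit 100, nat_lit 98, nat_lit 64, nat_lit 874841194⟩, ⟨nat_lit 19, nat_lit 100, nat_lit 99, nat_lit 63, nat_lit 98764900⟩, ⟨nat_lit 7, nat_lit 100, nat_lit 96, nat_lit 54, nat_lit 1497237104⟩]⟩
noncomputable def p037_l11 : Lf2 := ⟨nat_lit 0, nat_lit 5, [nat_lit 4, nat_lit 5, nat_lit 5, nat_lit 20], false, nat_lit 160, nat_lit 180, nat_lit 160, nat_lit 268, ⟨nat_lit 1000, nat_lit 0, nat_lit 0, nat_lit 0, nat_lit 0, nat_lit 0, nat_lit 0, nat_lit 0, nat_lit 0, nat_lit 0, nat_lit 0, nat_lit 0, nat_lit 0, nat_lit 0, nat_lit 0, nat_lit 0, false, false⟩,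
 nat_lit 14046, nat_lit 0, nat_lit 0, nat_lit 0, nat_lit 8175, nat_lit 8175, nat_lit 387, nat_lit 0, nat_lit 0, nat_lit 2394, nat_lit 0, nat_lit 0, nat_lit 0, nat_lit 5704682104897, nat_lit 0, nat_lit 0, nat_lit 0, nat_lit 0, [],
 ⟨p037_k3, nat_lit 0, nat_lit 0, nat_lit 0, nat_lit 0, nat_lit 532436, [nat_lit 4688000000, nat_lit 6250000000, nat_lit 7968000000], [], [nat_lit 24690232800, nat_lit 21625040525, nat_lit 20479568250, nat_lit 21143427525, nat_lit 21064142938, nat_lit 22142967400, nat_lit 20594706588, nat_lit 21646450425], nat_lit 1271250, nat_lit 1271250, nat_lit 356250, nat_lit 490000, nat_lit 1100001, nat_lit 1271250, [nat_lit 1100000, nat_lit 1442500, nat_lit 1271250], [nat_lit 9, nat_lit 40, nat_lit 20, nat_lit 80]⟩, ⟨p037_k3, nat_lit 0, nat_lit 0, nat_lit 0, nat_lit 0, nat_lit 532436, [nat_lit 4688000000, nat_lit 6250000000, nat_lit 7968000000], [], [nat_lit 24690232800, nat_lit 20464640700, nat_lit 20479568250,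 nat_lit 16285319100, nat_lit 20115131975, nat_lit 19468037025, nat_lit 21032018108, nat_lit 18859041761], nat_lit 1271250, nat_lit 1271250, nat_lit 356250, nat_lit 490000, nat_lit 1100001, nat_lit 2024750, [nat_lit 1100000, nat_lit 1442500, nat_lit 1271250], [nat_lit 9, nat_lit 40, nat_lit 20, nat_lit 80]⟩,
 zbF0, []⟩
noncomputable def p037_l12 : Lf2 := ⟨nat_lit 0, nat_lit 5, [nat_lit 4, nat_lit 5, nat_lit 5, nat_lit 20], true, nat_lit 160, nat_lit 180, nat_lit 0, nat_lit 268, ⟨nat_lit 0, nat_lit 0, nat_lit 1000, nat_lit 6, nat_lit 121, nat_lit 1000, nat_lit 104, nat_lit 1000, nat_lit 101400, nat_lit 293, nat_lit 138017, nat_lit 306, nat_lit 56094950, nat_lit 0, nat_lit 0, nat_lit 2954491, false, false⟩,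
 nat_lit 0, nat_lit 270516, nat_lit 0, nat_lit 0, nat_lit 157464, nat_lit 0, nat_lit 58841, nat_lit 3646, nat_lit 0, nat_lit 0, nat_lit 0, nat_lit 0, nat_lit 0, nat_lit 400000000000000, nat_lit 0, nat_lit 1000000, nat_lit 187551960000, nat_lit 0, [(nat_lit 9, [(nat_lit 6, nat_lit 1000)])],
 ⟨p037_k3, nat_lit 0, nat_lit 0, nat_lit 309, nat_lit 0, nat_lit 532436, [nat_lit 59433600000, nat_lit 72180000001, nat_lit 84922399999], [], [nat_lit 135298541401, nat_lit 54389633094, nat_lit 48037225548, nat_lit 0, nat_lit 67814725513, nat_lit 50035786810, nat_lit 82379442960, nat_lit 7664113404], nat_lit 1271250, nat_lit 1271250, nat_lit 205650, nat_lit 490000, nat_lit 1100001, nat_lit 1271250, [nat_lit 1100000, nat_lit 1442500, nat_lit 1271250], [nat_lit 9, nat_lit 40, nat_lit 20, nat_lit 80, nat_lit 2, nat_lit 289, nat_lit 75, nat_lit 9]⟩, C1.Rw.none,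
 ⟨nat_lit 5477, nat_lit 5917, ⟨.ofNat (nat_lit 242029), .ofNat (nat_lit 328416), .ofNat (nat_lit 263368), .ofNat (nat_lit 349755), .ofNat (nat_lit 256844), .ofNat (nat_lit 339271), .ofNat (nat_lit 278201), .ofNat (nat_lit 360628)⟩, ⟨.ofNat (nat_lit 229411), .ofNat (nat_lit 268678), .ofNat (nat_lit 250751), .ofNat (nat_lit 290018), .ofNat (nat_lit 232852), .ofNat (nat_lit 270319), .ofNat (nat_lit 254209), .ofNat (nat_lit 291676)⟩⟩, [⟨nat_lit 0, nat_lit 100, nat_lit 100, nat_lit 80, nat_lit 4925170185⟩]⟩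
noncomputable def p037_l13 : Lf2 := ⟨nat_lit 0, nat_lit 10, [nat_lit 0, nat_lit 5, nat_lit 5, nat_lit 20], false, nat_lit 160, nat_lit 180, nat_lit 0, nat_lit 268, ⟨nat_lit 164, nat_lit 0, nat_lit 836, nat_lit 6, nat_lit 119, nat_lit 836, nat_lit 104, nat_lit 836, nat_lit 101400, nat_lit 293, nat_lit 132017, nat_lit 304, nat_lit 56268944, nat_lit 0, nat_lit 0, nat_lit 2923101, false, false⟩,
 nat_lit 8903, nat_lit 0, nat_lit 0, nat_lit 0, nat_lit 5182, nat_lit 3328, nat_lit 316, nat_lit 0, nat_lit 0, nat_lit 100, nat_lit 0, nat_lit 0, nat_lit 0, nat_lit 0, nat_lit 103, nat_lit 836000, nat_lit 0, nat_lit 0, [(nat_lit 9, [(nat_lit 6, nat_lit 836)])],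
 ⟨p037_k7, nat_lit 0, nat_lit 0, nat_lit 283, nat_lit 0, nat_lit 317662, [nat_lit 3334425600, nat_lit 2726634667, nat_lit 172008533], [], [nat_lit 11616696571, nat_lit 12900893129, nat_lit 10994320791, nat_lit 12264128359, nat_lit 12341648378, nat_lit 13599410757, nat_lit 11758866484, nat_lit 12978992469], nat_lit 1271250, nat_lit 1271250, nat_lit 205650, nat_lit 490000, nat_lit 1100001, nat_lit 1271250, [nat_lit 1100000, nat_lit 1442500, nat_lit 1271250], [nat_lit 11, nat_lit 40, nat_lit 20, nat_lit 80, nat_lit 1, nat_lit 373, nat_lit 150, nat_lit 11]⟩, ⟨p037_k7, nat_lit 0, nat_lit 0, nat_lit 0, nat_lit 0, nat_lit 317662, [nat_lit 768832000, nat_lit 1025000000, nat_lit 1614088000], [], [nat_lit 5753417136, nat_lit 6041905774, nat_lit 4520121636, nat_lit 4819073872, nat_lit 4195578387, nat_lit 4520970485, nat_lit 4538957730, nat_lit 3782417135], nat_lit 1271250, nat_lit 1271250, nat_lit 205650, nat_lit 490000, nat_lit 0,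 nat_lit 1892750, [nat_lit 1100000, nat_lit 1442500, nat_lit 1271250], [nat_lit 11, nat_lit 40, nat_lit 20, nat_lit 80]⟩,
 ⟨nat_lit 5477, nat_lit 5917, ⟨.ofNat (nat_lit 242029), .ofNat (nat_lit 328416), .ofNat (nat_lit 252698), .ofNat (nat_lit 339085), .ofNat (nat_lit 256844), .ofNat (nat_lit 339271), .ofNat (nat_lit 267523), .ofNat (nat_lit 349949)⟩, ⟨.ofNat (nat_lit 229411), .ofNat (nat_lit 268678), .ofNat (nat_lit 250751), .ofNat (nat_lit 290018), .ofNat (nat_lit 232852), .ofNat (nat_lit 270319), .ofNat (nat_lit 254209), .ofNat (nat_lit 291676)⟩⟩, [⟨nat_lit 0, nat_lit 100, nat_lit 98, nat_lit 74, nat_lit 361085213⟩]⟩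
noncomputable def p037_l14 : Lf2 := ⟨nat_lit 0, nat_lit 10, [nat_lit 0, nat_lit 5, nat_lit 5, nat_lit 20], false, nat_lit 160, nat_lit 180, nat_lit 0, nat_lit 260, ⟨nat_lit 361, nat_lit 0, nat_lit 639, nat_lit 6, nat_lit 129, nat_lit 639, nat_lit 105, nat_lit 639, nat_lit 101400, nat_lit 293, nat_lit 156817, nat_lit 312, nat_lit 55414260, nat_lit 0, nat_lit 0, nat_lit 3073625, false, false⟩,
 nat_lit 9457, nat_lit 0, nat_lit 0, nat_lit 0, nat_lit 5759, nat_lit 5759, nat_lit 736, nat_lit 0, nat_lit 0, nat_lit 0, nat_lit 0, nat_lit 0, nat_lit 0, nat_lit 0, nat_lit 0, nat_lit 639000, nat_lit 0, nat_lit 0, [(nat_lit 9, [(nat_lit 6, nat_lit 639)])],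
 ⟨p037_k8, nat_lit 0, nat_lit 0, nat_lit 285, nat_lit 0, nat_lit 347692, [nat_lit 2393734400, nat_lit 1982332001, nat_lit 209544799], [], [nat_lit 12529497276, nat_lit 13200925316, nat_lit 11872287811, nat_lit 12478908395, nat_lit 13242361573, nat_lit 13886513751, nat_lit 12561888084, nat_lit 13205465400], nat_lit 1271250, nat_lit 1271250, nat_lit 279600, nat_lit 490000, nat_lit 1100001, nat_lit 1271250, [nat_lit 1100000, nat_lit 1442500, nat_lit 1271250], [nat_lit 11, nat_lit 40, nat_lit 20, nat_lit 80, nat_lit 1, nat_lit 373, nat_lit 150, nat_lit 10]⟩, ⟨p037_k8, nat_lit 0, nat_lit 0, nat_lit 0, nat_lit 0, nat_lit 347692, [nat_lit 1692368000, nat_lit 2256250000, nat_lit 3552962000], [], [nat_lit 12406172893, nat_lit 12966761778, nat_lit 11044726580, nat_lit 11589048232, nat_lit 9199777663, nat_lit 9542639048, nat_lit 10026389066, nat_lit 8713829460], nat_lit 1271250, nat_lit 1271250, nat_lit 279600, nat_lit 490000, nat_lit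 0, nat_lit 1836250, [nat_lit 1100000, nat_lit 1442500, nat_lit 1271250], [nat_lit 11, nat_lit 40, nat_lit 20, nat_lit 80]⟩,
 ⟨nat_lit 5477, nat_lit 5701, ⟨.ofNat (nat_lit 283163), .ofNat (nat_lit 344538), .ofNat (nat_lit 293834), .ofNat (nat_lit 355209), .ofNat (nat_lit 290003), .ofNat (nat_lit 349949), .ofNat (nat_lit 300681), .ofNat (nat_lit 360628)⟩, ⟨.ofNat (nat_lit 231202), .ofNat (nat_lit 269561), .ofNat (nat_lit 252544), .ofNat (nat_lit 290903), .ofNat (nat_lit 232852), .ofNat (nat_lit 270319), .ofNat (nat_lit 254209), .ofNat (nat_lit 291676)⟩⟩, [⟨nat_lit 0, nat_lit 100, nat_lit 100, nat_lit 80, nat_lit 439756213⟩]⟩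
noncomputable def b_VL_600_600_5_51 : St := ⟨true, nat_lit 1, nat_lit 1, nat_lit 1, nat_lit 40, nat_lit 260, nat_lit 280, nat_lit 260, nat_lit 280, nat_lit 36, nat_lit 80, nat_lit 20, nat_lit 40, nat_lit 160, nat_lit 180, nat_lit 0, nat_lit 268, nat_lit 0, nat_lit 40, nat_lit 0, nat_lit 0, nat_lit 0, nat_lit 800⟩
theorem d_VL_600_600_5_51 (h : EB TB.env) : Dead b_VL_600_600_5_51 := chkB_sound0 h (T :=
(.spl (nat_lit 6) (nat_lit 20)
(.spl (nat_lit 7) (nat_lit 600)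
(.spl (nat_lit 5) (nat_lit 160)
(.spl (nat_lit 2) (nat_lit 60)
(.spl (nat_lit 1) (nat_lit 270)
(.spl (nat_lit 1) (nat_lit 265)
(.spl (nat_lit 0) (nat_lit 270)
(.spl (nat_lit 6) (nat_lit 8)
(.leaf p037_l0)
(.leaf p037_l1))
(.trZ (nat_lit 0) (nat_lit 100) (nat_lit 98) (nat_lit 64) (nat_lit 40) (.leaf p037_l2)))
(.ord (.trZ (nat_lit 0) (nat_lit 100) (nat_lit 100) (nat_lit 65) (nat_lit 40) (.leaf p037_l3))))
(.ord (.trZ (nat_lit 0) (nat_lit 100) (nat_lit 100) (nat_lit 70) (nat_lit 48) (.leaf p037_l4))))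
(.leaf p037_l5))
(.spl (nat_lit 2) (nat_lit 60)
(.spl (nat_lit 0) (nat_lit 270)
(.ord (.spl (nat_lit 6) (nat_lit 8)
(.leaf p037_l6)
(.spl (nat_lit 0) (nat_lit 265)
(.ord (.leaf p037_l7))
(.leaf p037_l8))))
(.trZ (nat_lit 0) (nat_lit 100) (nat_lit 98) (nat_lit 64) (nat_lit 40) (.spl (nat_lit 5) (nat_lit 240)
(.leaf p037_l9)
(.leaf p037_l10))))
(.leaf p037_l11)))
(.leaf p037_l12))
(.spl (nat_lit 1) (nat_lit 270)
(.leaf p037_l13)
(.ord (.trZ (nat_lit 0) (nat_lit 100) (nat_lit 100) (nat_lit 70) (nat_lit 48) (.trX (nat_lit 19) (nat_lit 98) (nat_lit 100) (nat_lit 63) (nat_lit 260) (.leaf p037_l14))))))) (by decide +kernel)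
noncomputable def p037_l15 : Lf2 := ⟨nat_lit 0, nat_lit 2, [nat_lit 10, nat_lit 5, nat_lit 5, nat_lit 20], false, nat_lit 180, nat_lit 200, nat_lit 0, nat_lit 268, ⟨nat_lit 501, nat_lit 0, nat_lit 499, nat_lit 6, nat_lit 110, nat_lit 499, nat_lit 120, nat_lit 499, nat_lit 135000, nat_lit 305, nat_lit 112067, nat_lit 297, nat_lit 55788998, nat_lit 0, nat_lit 0, nat_lit 3016188, false, false⟩,
 nat_lit 10973, nat_lit 0, nat_lit 0, nat_lit 0, nat_lit 6387, nat_lit 6387, nat_lit 1586, nat_lit 0, nat_lit 0, nat_lit 376, nat_lit 0, nat_lit 0, nat_lit 0, nat_lit 0, nat_lit 0, nat_lit 499000, nat_lit 0, nat_lit 0, [(nat_lit 9, [(nat_lit 6, nat_lit 499)])],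
 ⟨p037_k0, nat_lit 0, nat_lit 0, nat_lit 0, nat_lit 0, nat_lit 419839, [nat_lit 2896390400, nat_lit 2761990000], [], [nat_lit 12384158063, nat_lit 13095865813, nat_lit 11740706464, nat_lit 12436669554, nat_lit 13234598058, nat_lit 13974050581, nat_lit 12598446089, nat_lit 13322155800], nat_lit 1271250, nat_lit 1271250, nat_lit 205650, nat_lit 356250, nat_lit 1271250, nat_lit 1271250, [nat_lit 1100000, nat_lit 1442500], [nat_lit 31, nat_lit 40, nat_lit 20, nat_lit 80]⟩, ⟨p037_k0, nat_lit 0, nat_lit 0, nat_lit 0, nat_lit 0, nat_lit 419839, [nat_lit 2348688000, nat_lit 3131250000], [], [nat_lit 17386416384, nat_lit 15720788976, nat_lit 13405143804, nat_lit 11754449202, nat_lit 11567703882, nat_lit 11484956944, nat_lit 12147039443, nat_lit 10666084795], nat_lit 1271250, nat_lit 1271250, nat_lit 205650, nat_lit 356250, nat_lit 0, nat_lit 1892750, [nat_lit 1100000, nat_lit 1442500], [nat_lit 31, nat_lit 40, nat_lit 20, nat_lit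 80]⟩,
 ⟨nat_lit 5700, nat_lit 5917, ⟨.ofNat (nat_lit 242029), .ofNat (nat_lit 289149), .ofNat (nat_lit 252698), .ofNat (nat_lit 299818), .ofNat (nat_lit 249476), .ofNat (nat_lit 295508), .ofNat (nat_lit 260147), .ofNat (nat_lit 306179)⟩, ⟨.ofNat (nat_lit 268678), .ofNat (nat_lit 307945), .ofNat (nat_lit 290018), .ofNat (nat_lit 329284), .ofNat (nat_lit 269561), .ofNat (nat_lit 307921), .ofNat (nat_lit 290903), .ofNat (nat_lit 329263)⟩⟩, [⟨nat_lit 0, nat_lit 100, nat_lit 100, nat_lit 65, nat_lit 663536624⟩]⟩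
noncomputable def p037_l16 : Lf2 := ⟨nat_lit 0, nat_lit 2, [nat_lit 10, nat_lit 5, nat_lit 5, nat_lit 20], false, nat_lit 180, nat_lit 200, nat_lit 0, nat_lit 268, ⟨nat_lit 449, nat_lit 0, nat_lit 551, nat_lit 6, nat_lit 113, nat_lit 551, nat_lit 120, nat_lit 551, nat_lit 135000, nat_lit 305, nat_lit 120417, nat_lit 300, nat_lit 55501132, nat_lit 0, nat_lit 0, nat_lit 3070882, false, false⟩,
 nat_lit 10135, nat_lit 0, nat_lit 0, nat_lit 0, nat_lit 6172, nat_lit 5899, nat_lit 854, nat_lit 0, nat_lit 0, nat_lit 864, nat_lit 0, nat_lit 0, nat_lit 0, nat_lit 0, nat_lit 0, nat_lit 551000, nat_lit 0, nat_lit 0, [(nat_lit 9, [(nat_lit 6, nat_lit 551)])],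
 ⟨p037_k9, nat_lit 0, nat_lit 0, nat_lit 0, nat_lit 0, nat_lit 420635, [nat_lit 2709689600, nat_lit 2398510000], [], [nat_lit 13018619377, nat_lit 13366790990, nat_lit 12550175057, nat_lit 12891707758, nat_lit 13827371212, nat_lit 14189011155, nat_lit 13365458922, nat_lit 13720488441], nat_lit 1271250, nat_lit 1271250, nat_lit 230001, nat_lit 356250, nat_lit 1271250, nat_lit 1271250, [nat_lit 1100000, nat_lit 1442500], [nat_lit 31, nat_lit 40, nat_lit 20, nat_lit 80]⟩, ⟨p037_k0, nat_lit 0, nat_lit 0, nat_lit 0, nat_lit 0, nat_lit 442478, [nat_lit 2104912000, nat_lit 2806250000], [], [nat_lit 14973753202, nat_lit 13437718491, nat_lit 11913528972, nat_lit 10388956018, nat_lit 9748615624, nat_lit 10118609073, nat_lit 10209846438, nat_lit 9100685892], nat_lit 1271250, nat_lit 1271250, nat_lit 230001, nat_lit 356250, nat_lit 0, nat_lit 1892750, [nat_lit 1100000, nat_lit 1442500], [nat_lit 31, nat_lit 40, nat_lit 20, nat_lit 80]⟩,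
 ⟨nat_lit 5590, nat_lit 5701, ⟨.ofNat (nat_lit 257148), .ofNat (nat_lit 295508), .ofNat (nat_lit 267819), .ofNat (nat_lit 306179), .ofNat (nat_lit 260751), .ofNat (nat_lit 298663), .ofNat (nat_lit 271425), .ofNat (nat_lit 309337)⟩, ⟨.ofNat (nat_lit 269561), .ofNat (nat_lit 307921), .ofNat (nat_lit 290903), .ofNat (nat_lit 329263), .ofNat (nat_lit 269956), .ofNat (nat_lit 307867), .ofNat (nat_lit 291304), .ofNat (nat_lit 329215)⟩⟩, [⟨nat_lit 0, nat_lit 100, nat_lit 98, nat_lit 64, nat_lit 650323595⟩]⟩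
noncomputable def p037_l17 : Lf2 := ⟨nat_lit 0, nat_lit 2, [nat_lit 10, nat_lit 5, nat_lit 5, nat_lit 20], false, nat_lit 180, nat_lit 200, nat_lit 0, nat_lit 268, ⟨nat_lit 473, nat_lit 0, nat_lit 527, nat_lit 6, nat_lit 116, nat_lit 527, nat_lit 120, nat_lit 527, nat_lit 135000, nat_lit 305, nat_lit 126150, nat_lit 302, nat_lit 55272244, nat_lit 0, nat_lit 0, nat_lit 3113472, false, false⟩,
 nat_lit 10618, nat_lit 0, nat_lit 0, nat_lit 0, nat_lit 6611, nat_lit 6180, nat_lit 1854, nat_lit 0, nat_lit 0, nat_lit 0, nat_lit 0, nat_lit 0, nat_lit 0, nat_lit 0, nat_lit 0, nat_lit 527000, nat_lit 0, nat_lit 0, [(nat_lit 9, [(nat_lit 6, nat_lit 527)])],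
 ⟨p037_k10, nat_lit 0, nat_lit 0, nat_lit 0, nat_lit 0, nat_lit 431893, [nat_lit 2795859201, nat_lit 2566270000], [], [nat_lit 14943423377, nat_lit 14149429716, nat_lit 15514442566, nat_lit 14724828031, nat_lit 14139593306, nat_lit 14625554667, nat_lit 13775698360, nat_lit 14078893231], nat_lit 1271250, nat_lit 1271250, nat_lit 254650, nat_lit 356250, nat_lit 1271250, nat_lit 1271250, [nat_lit 1100000, nat_lit 1442500], [nat_lit 31, nat_lit 40, nat_lit 20, nat_lit 80]⟩, ⟨p037_k0, nat_lit 0, nat_lit 0, nat_lit 0, nat_lit 0, nat_lit 465669, [nat_lit 2217424000, nat_lit 2956250000], [], [nat_lit 15134799436, nat_lit 13527996964, nat_lit 12570000556, nat_lit 10972804276, nat_lit 11152800449, nat_lit 10427057758, nat_lit 11556405403, nat_lit 10123447875], nat_lit 1271250, nat_lit 1271250, nat_lit 254650, nat_lit 356250, nat_lit 0, nat_lit 1892750, [nat_lit 1100000, nat_lit 1442500], [nat_lit 31, nat_lit 40, nat_lit 20, nat_lit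 80]⟩,
 ⟨nat_lit 5477, nat_lit 5591, ⟨.ofNat (nat_lit 268334), .ofNat (nat_lit 298663), .ofNat (nat_lit 279008), .ofNat (nat_lit 309337), .ofNat (nat_lit 271831), .ofNat (nat_lit 301804), .ofNat (nat_lit 282509), .ofNat (nat_lit 312483)⟩, ⟨.ofNat (nat_lit 269956), .ofNat (nat_lit 307867), .ofNat (nat_lit 291304), .ofNat (nat_lit 329215), .ofNat (nat_lit 270319), .ofNat (nat_lit 307785), .ofNat (nat_lit 291676), .ofNat (nat_lit 329142)⟩⟩, [⟨nat_lit 0, nat_lit 100, nat_lit 97, nat_lit 70, nat_lit 85820730⟩, ⟨nat_lit 7, nat_lit 100, nat_lit 97, nat_lit 54, nat_lit 14102011⟩]⟩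
noncomputable def p037_l18 : Lf2 := ⟨nat_lit 0, nat_lit 2, [nat_lit 10, nat_lit 5, nat_lit 5, nat_lit 20], false, nat_lit 180, nat_lit 200, nat_lit 0, nat_lit 260, ⟨nat_lit 1000, nat_lit 0, nat_lit 0, nat_lit 0, nat_lit 0, nat_lit 0, nat_lit 0, nat_lit 0, nat_lit 0, nat_lit 0, nat_lit 0, nat_lit 0, nat_lit 0, nat_lit 0, nat_lit 0, nat_lit 0, false, false⟩,
 nat_lit 17899, nat_lit 0, nat_lit 0, nat_lit 0, nat_lit 10900, nat_lit 10900, nat_lit 0, nat_lit 0, nat_lit 0, nat_lit 4001, nat_lit 0, nat_lit 0, nat_lit 0, nat_lit 0, nat_lit 0, nat_lit 0, nat_lit 0, nat_lit 0, [],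
 ⟨p037_k9, nat_lit 0, nat_lit 0, nat_lit 0, nat_lit 0, nat_lit 484283, [nat_lit 4688000000, nat_lit 6250000000], [], [nat_lit 18135410435, nat_lit 15326249900, nat_lit 14779865600, nat_lit 13063209200, nat_lit 13904265141, nat_lit 15165994441, nat_lit 13094230250, nat_lit 14223606400], nat_lit 1271250, nat_lit 1271250, nat_lit 279600, nat_lit 356250, nat_lit 1271250, nat_lit 1271250, [nat_lit 1100000, nat_lit 1442500], [nat_lit 31, nat_lit 40, nat_lit 20, nat_lit 80]⟩, ⟨p037_k9, nat_lit 0, nat_lit 0, nat_lit 0, nat_lit 0, nat_lit 484283, [nat_lit 4688000000, nat_lit 6250000000], [], [nat_lit 28379293580, nat_lit 25549524960, nat_lit 24999245000, nat_lit 22182183600, nat_lit 19493041880, nat_lit 20754332881, nat_lit 19204584750, nat_lit 19661485500], nat_lit 1271250, nat_lit 1271250, nat_lit 279600, nat_lit 356250, nat_lit 0, nat_lit 1836250, [nat_lit 1100000, nat_lit 1442500], [nat_lit 31, nat_lit 40, nat_lit 20, nat_lit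 80]⟩,
 zbF0, [⟨nat_lit 0, nat_lit 100, nat_lit 100, nat_lit 70, nat_lit 2192460767⟩]⟩
noncomputable def p037_l19 : Lf2 := ⟨nat_lit 0, nat_lit 5, [nat_lit 4, nat_lit 5, nat_lit 5, nat_lit 20], false, nat_lit 180, nat_lit 200, nat_lit 0, nat_lit 268, ⟨nat_lit 307, nat_lit 0, nat_lit 693, nat_lit 6, nat_lit 109, nat_lit 693, nat_lit 120, nat_lit 693, nat_lit 135000, nat_lit 305, nat_lit 112067, nat_lit 297, nat_lit 55870926, nat_lit 0, nat_lit 0, nat_lit 3000345, false, false⟩,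
 nat_lit 9753, nat_lit 0, nat_lit 0, nat_lit 0, nat_lit 5677, nat_lit 5677, nat_lit 704, nat_lit 0, nat_lit 0, nat_lit 0, nat_lit 0, nat_lit 0, nat_lit 0, nat_lit 0, nat_lit 0, nat_lit 693000, nat_lit 0, nat_lit 0, [(nat_lit 9, [(nat_lit 6, nat_lit 693)])],
 ⟨p037_k3, nat_lit 0, nat_lit 0, nat_lit 0, nat_lit 0, nat_lit 331234, [nat_lit 2199852800, nat_lit 1405930000, nat_lit 645154200], [], [nat_lit 12419127310, nat_lit 13026093887, nat_lit 11858680052, nat_lit 12485310881, nat_lit 13172313068, nat_lit 13835592383, nat_lit 12634601869, nat_lit 13305175265], nat_lit 1271250, nat_lit 1271250, nat_lit 205650, nat_lit 356250, nat_lit 1271250, nat_lit 1271250, [nat_lit 1100000, nat_lit 1442500, nat_lit 1271250], [nat_lit 9, nat_lit 40, nat_lit 20, nat_lit 80]⟩, ⟨p037_k3, nat_lit 0, nat_lit 0, nat_lit 0, nat_lit 0, nat_lit 331234, [nat_lit 1439216000, nat_lit 1918750000, nat_lit 2446176000], [], [nat_lit 10742387296, nat_lit 10058930536,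 nat_lit 7815400770, nat_lit 8266414258, nat_lit 8188589270, nat_lit 7840319197, nat_lit 8662148611, nat_lit 8012641479], nat_lit 1271250, nat_lit 1271250, nat_lit 205650, nat_lit 356250, nat_lit 0, nat_lit 1892750, [nat_lit 1100000, nat_lit 1442500, nat_lit 1271250], [nat_lit 9, nat_lit 40, nat_lit 20, nat_lit 80]⟩,
 ⟨nat_lit 5700, nat_lit 5917, ⟨.ofNat (nat_lit 242029), .ofNat (nat_lit 289149), .ofNat (nat_lit 247363), .ofNat (nat_lit 294484), .ofNat (nat_lit 249476), .ofNat (nat_lit 295508), .ofNat (nat_lit 254812), .ofNat (nat_lit 300843)⟩, ⟨.ofNat (nat_lit 268678), .ofNat (nat_lit 307945), .ofNat (nat_lit 290018), .ofNat (nat_lit 329284), .ofNat (nat_lit 269561), .ofNat (nat_lit 307921), .ofNat (nat_lit 290903), .ofNat (nat_lit 329263)⟩⟩, [⟨nat_lit 0, nat_lit 100, nat_lit 99, nat_lit 67, nat_lit 304634238⟩, ⟨nat_lit 7, nat_lit 100, nat_lit 98, nat_lit 54, nat_lit 10009019⟩]⟩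
noncomputable def p037_l20 : Lf2 := ⟨nat_lit 0, nat_lit 5, [nat_lit 4, nat_lit 5, nat_lit 5, nat_lit 20], false, nat_lit 180, nat_lit 200, nat_lit 0, nat_lit 264, ⟨nat_lit 363, nat_lit 0, nat_lit 637, nat_lit 6, nat_lit 113, nat_lit 637, nat_lit 120, nat_lit 637, nat_lit 135000, nat_lit 305, nat_lit 120417, nat_lit 300, nat_lit 55529646, nat_lit 0, nat_lit 0, nat_lit 3065564, false, false⟩,
 nat_lit 10197, nat_lit 0, nat_lit 0, nat_lit 0, nat_lit 6072, nat_lit 6072, nat_lit 951, nat_lit 0, nat_lit 0, nat_lit 294, nat_lit 0, nat_lit 0, nat_lit 0, nat_lit 0, nat_lit 0, nat_lit 637000, nat_lit 0, nat_lit 0, [(nat_lit 9, [(nat_lit 6, nat_lit 637)])],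
 ⟨p037_k6, nat_lit 0, nat_lit 0, nat_lit 0, nat_lit 0, nat_lit 345094, [nat_lit 2533920800, nat_lit 1176104934], [], [nat_lit 12495439567, nat_lit 12808541092, nat_lit 12013565151, nat_lit 12337087144, nat_lit 13297128734, nat_lit 13657256880, nat_lit 12855882528, nat_lit 13207737472], nat_lit 1271250, nat_lit 1271250, nat_lit 230001, nat_lit 356250, nat_lit 1271250, nat_lit 1271250, [nat_lit 1100000, nat_lit 1785000], [nat_lit 39, nat_lit 40, nat_lit 20, nat_lit 80]⟩, ⟨p037_k6, nat_lit 0, nat_lit 0, nat_lit 0, nat_lit 0, nat_lit 345094, [nat_lit 1701744000, nat_lit 2892384000], [], [nat_lit 11244293544, nat_lit 11108450958, nat_lit 9121686404, nat_lit 9611849313, nat_lit 8948051006, nat_lit 8646944665, nat_lit 9410983797, nat_lit 8715378817], nat_lit 1271250, nat_lit 1271250, nat_lit 230001, nat_lit 356250, nat_lit 0, nat_lit 1864500, [nat_lit 1100000, nat_lit 1785000], [nat_lit 39, nat_lit 40, nat_lit 20, nat_lit 80]⟩,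
 ⟨nat_lit 5700, nat_lit 5810, ⟨.ofNat (nat_lit 258861), .ofNat (nat_lit 297672), .ofNat (nat_lit 264196), .ofNat (nat_lit 303007), .ofNat (nat_lit 262484), .ofNat (nat_lit 300843), .ofNat (nat_lit 267819), .ofNat (nat_lit 306179)⟩, ⟨.ofNat (nat_lit 269135), .ofNat (nat_lit 307946), .ofNat (nat_lit 290474), .ofNat (nat_lit 329285), .ofNat (nat_lit 269561), .ofNat (nat_lit 307921), .ofNat (nat_lit 290903), .ofNat (nat_lit 329263)⟩⟩, [⟨nat_lit 0, nat_lit 100, nat_lit 100, nat_lit 68, nat_lit 317001474⟩, ⟨nat_lit 7, nat_lit 100, nat_lit 96, nat_lit 54, nat_lit 30580984⟩]⟩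
noncomputable def p037_l21 : Lf2 := ⟨nat_lit 0, nat_lit 5, [nat_lit 4, nat_lit 5, nat_lit 5, nat_lit 20], false, nat_lit 180, nat_lit 200, nat_lit 0, nat_lit 268, ⟨nat_lit 281, nat_lit 0, nat_lit 719, nat_lit 6, nat_lit 114, nat_lit 719, nat_lit 120, nat_lit 719, nat_lit 135000, nat_lit 305, nat_lit 123267, nat_lit 301, nat_lit 55446269, nat_lit 0, nat_lit 0, nat_lit 3081157, false, false⟩,
 nat_lit 9057, nat_lit 0, nat_lit 0, nat_lit 0, nat_lit 5515, nat_lit 5271, nat_lit 476, nat_lit 0, nat_lit 0, nat_lit 479, nat_lit 0, nat_lit 0, nat_lit 0, nat_lit 0, nat_lit 0, nat_lit 719000, nat_lit 0, nat_lit 0, [(nat_lit 9, [(nat_lit 6, nat_lit 719)])],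
 ⟨p037_k2, nat_lit 0, nat_lit 0, nat_lit 0, nat_lit 0, nat_lit 381951, [nat_lit 2106502401, nat_lit 1224190001, nat_lit 371878599], [], [nat_lit 13144086492, nat_lit 13740737210, nat_lit 12734046132, nat_lit 13319821970, nat_lit 13841853904, nat_lit 14538855390, nat_lit 13432456630, nat_lit 14100801752], nat_lit 1271250, nat_lit 1271250, nat_lit 230001, nat_lit 356250, nat_lit 1271250, nat_lit 1271250, [nat_lit 1100000, nat_lit 1442500, nat_lit 1271250], [nat_lit 9, nat_lit 40, nat_lit 20, nat_lit 80]⟩, ⟨p037_k3, nat_lit 0, nat_lit 0, nat_lit 0, nat_lit 0, nat_lit 402213, [nat_lit 1317328000, nat_lit 1756250000, nat_lit 2239008000], [], [nat_lit 9285171178, nat_lit 9371820870, nat_lit 7224672390, nat_lit 8060375395, nat_lit 6699403431, nat_lit 7221663589, nat_lit 7066150633, nat_lit 6268684154], nat_lit 1271250, nat_lit 1271250, nat_lit 230001, nat_lit 356250, nat_lit 0, nat_lit 1892750, [nat_lit 1100000, nat_lit 1442500,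 nat_lit 1271250], [nat_lit 9, nat_lit 40, nat_lit 20, nat_lit 80]⟩,
 ⟨nat_lit 5477, nat_lit 5701, ⟨.ofNat (nat_lit 257148), .ofNat (nat_lit 295508), .ofNat (nat_lit 267819), .ofNat (nat_lit 306179), .ofNat (nat_lit 264337), .ofNat (nat_lit 301804), .ofNat (nat_lit 275016), .ofNat (nat_lit 312483)⟩, ⟨.ofNat (nat_lit 269561), .ofNat (nat_lit 307921), .ofNat (nat_lit 290903), .ofNat (nat_lit 329263), .ofNat (nat_lit 270319), .ofNat (nat_lit 307785), .ofNat (nat_lit 291676), .ofNat (nat_lit 329142)⟩⟩, [⟨nat_lit 0, nat_lit 100, nat_lit 98, nat_lit 69, nat_lit 507414044⟩, ⟨nat_lit 7, nat_lit 100, nat_lit 97, nat_lit 54, nat_lit 16372568⟩]⟩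
noncomputable def p037_l22 : Lf2 := ⟨nat_lit 0, nat_lit 5, [nat_lit 4, nat_lit 5, nat_lit 5, nat_lit 20], false, nat_lit 180, nat_lit 200, nat_lit 0, nat_lit 260, ⟨nat_lit 415, nat_lit 0, nat_lit 585, nat_lit 6, nat_lit 121, nat_lit 585, nat_lit 120, nat_lit 585, nat_lit 135000, nat_lit 305, nat_lit 138017, nat_lit 306, nat_lit 54868656, nat_lit 0, nat_lit 0, nat_lit 3186617, false, false⟩,
 nat_lit 10557, nat_lit 0, nat_lit 0, nat_lit 0, nat_lit 6429, nat_lit 6429, nat_lit 811, nat_lit 0, nat_lit 0, nat_lit 626, nat_lit 0, nat_lit 0, nat_lit 0, nat_lit 0, nat_lit 0, nat_lit 502800, nat_lit 0, nat_lit 0, [(nat_lit 9, [(nat_lit 5, nat_lit 137), (nat_lit 6, nat_lit 448)])],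
 ⟨p037_k2, nat_lit 0, nat_lit 0, nat_lit 0, nat_lit 0, nat_lit 425492, [nat_lit 2646361601, nat_lit 2233953200, nat_lit 1969030200], [], [nat_lit 12896060660, nat_lit 13518559639, nat_lit 12616402352, nat_lit 13138639028, nat_lit 13604905190, nat_lit 14409628217, nat_lit 13217197665, nat_lit 13927955151], nat_lit 1271250, nat_lit 1271250, nat_lit 279600, nat_lit 356250, nat_lit 1271250, nat_lit 1271250, [nat_lit 1100000, nat_lit 1442500, nat_lit 1271250], [nat_lit 9, nat_lit 40, nat_lit 20, nat_lit 80]⟩, ⟨p037_k2, nat_lit 0, nat_lit 0, nat_lit 0, nat_lit 0, nat_lit 425492, [nat_lit 1945520000, nat_lit 2593750000, nat_lit 3306720000], [], [nat_lit 11375894360, nat_lit 12432610675, nat_lit 10431754853, nat_lit 11483469232, nat_lit 9119786206, nat_lit 9556875070, nat_lit 9448447062, nat_lit 8874469610], nat_lit 1271250, nat_lit 1271250, nat_lit 279600, nat_lit 356250, nat_lit 0, nat_lit 1836250, [nat_lit 1100000, nat_lit 1442500,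 nat_lit 1271250], [nat_lit 9, nat_lit 40, nat_lit 20, nat_lit 80]⟩,
 ⟨nat_lit 5477, nat_lit 5701, ⟨.ofNat (nat_lit 283163), .ofNat (nat_lit 306179), .ofNat (nat_lit 293834), .ofNat (nat_lit 316850), .ofNat (nat_lit 290003), .ofNat (nat_lit 312483), .ofNat (nat_lit 300681), .ofNat (nat_lit 323161)⟩, ⟨.ofNat (nat_lit 269561), .ofNat (nat_lit 307921), .ofNat (nat_lit 290903), .ofNat (nat_lit 329263), .ofNat (nat_lit 270319), .ofNat (nat_lit 307785), .ofNat (nat_lit 291676), .ofNat (nat_lit 329142)⟩⟩, [⟨nat_lit 0, nat_lit 100, nat_lit 100, nat_lit 75, nat_lit 620989844⟩, ⟨nat_lit 7, nat_lit 100, nat_lit 94, nat_lit 53, nat_lit 31235576⟩]⟩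
noncomputable def p037_l23 : Lf2 := ⟨nat_lit 0, nat_lit 5, [nat_lit 4, nat_lit 5, nat_lit 5, nat_lit 20], true, nat_lit 180, nat_lit 200, nat_lit 0, nat_lit 268, ⟨nat_lit 0, nat_lit 0, nat_lit 1000, nat_lit 6, nat_lit 113, nat_lit 1000, nat_lit 120, nat_lit 1000, nat_lit 135000, nat_lit 305, nat_lit 120417, nat_lit 300, nat_lit 55512689, nat_lit 0, nat_lit 0, nat_lit 3068745, false, false⟩,
 nat_lit 0, nat_lit 275623, nat_lit 0, nat_lit 0, nat_lit 160437, nat_lit 0, nat_lit 60000, nat_lit 6912, nat_lit 0, nat_lit 0, nat_lit 0, nat_lit 0, nat_lit 0, nat_lit 399098129593769, nat_lit 0, nat_lit 1000000, nat_lit 42757531508, nat_lit 0, [(nat_lit 9, [(nat_lit 6, nat_lit 1000)])],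
 ⟨p037_k3, nat_lit 0, nat_lit 0, nat_lit 309, nat_lit 0, nat_lit 532436, [nat_lit 111689600000, nat_lit 137500000000, nat_lit 163306400000], [], [nat_lit 86498351973, nat_lit 22710064448, nat_lit 91348449897, nat_lit 14698389651, nat_lit 9745676222, nat_lit 31971110330, nat_lit 15225746070, nat_lit 0], nat_lit 1271250, nat_lit 1271250, nat_lit 205650, nat_lit 356250, nat_lit 1271250, nat_lit 1271250, [nat_lit 1100000, nat_lit 1442500, nat_lit 1271250], [nat_lit 9, nat_lit 40, nat_lit 20, nat_lit 80, nat_lit 2, nat_lit 289, nat_lit 75, nat_lit 9]⟩, C1.Rw.none,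
 ⟨nat_lit 5477, nat_lit 5917, ⟨.ofNat (nat_lit 242029), .ofNat (nat_lit 289149), .ofNat (nat_lit 263368), .ofNat (nat_lit 310488), .ofNat (nat_lit 256844), .ofNat (nat_lit 301804), .ofNat (nat_lit 278201), .ofNat (nat_lit 323161)⟩, ⟨.ofNat (nat_lit 268678), .ofNat (nat_lit 307945), .ofNat (nat_lit 290018), .ofNat (nat_lit 329284), .ofNat (nat_lit 270319), .ofNat (nat_lit 307785), .ofNat (nat_lit 291676), .ofNat (nat_lit 329142)⟩⟩, [⟨nat_lit 0, nat_lit 100, nat_lit 100, nat_lit 70, nat_lit 6557057928⟩]⟩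
noncomputable def p037_l24 : Lf2 := ⟨nat_lit 0, nat_lit 10, [nat_lit 0, nat_lit 5, nat_lit 5, nat_lit 20], true, nat_lit 180, nat_lit 200, nat_lit 0, nat_lit 268, ⟨nat_lit 0, nat_lit 0, nat_lit 1000, nat_lit 6, nat_lit 109, nat_lit 1000, nat_lit 120, nat_lit 1000, nat_lit 135000, nat_lit 305, nat_lit 112067, nat_lit 297, nat_lit 55870926, nat_lit 0, nat_lit 0, nat_lit 3000345, false, false⟩,
 nat_lit 0, nat_lit 8094, nat_lit 0, nat_lit 0, nat_lit 4711, nat_lit 0, nat_lit 0, nat_lit 0, nat_lit 0, nat_lit 0, nat_lit 0, nat_lit 0, nat_lit 0, nat_lit 0, nat_lit 155, nat_lit 786400, nat_lit 0, nat_lit 0, [(nat_lit 9, [(nat_lit 5, nat_lit 356), (nat_lit 6, nat_lit 644)])],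
 ⟨p037_k7, nat_lit 0, nat_lit 0, nat_lit 194, nat_lit 0, nat_lit 241626, [nat_lit 3730252800, nat_lit 2777184001, nat_lit 148047999], [], [nat_lit 12352046190, nat_lit 12941807763, nat_lit 11834358123, nat_lit 12477483441, nat_lit 13061506996, nat_lit 13643378332, nat_lit 12660941317, nat_lit 13278239274], nat_lit 1271250, nat_lit 1271250, nat_lit 205650, nat_lit 356250, nat_lit 1271250, nat_lit 1271250, [nat_lit 1100000, nat_lit 1442500, nat_lit 1271250], [nat_lit 11, nat_lit 40, nat_lit 20, nat_lit 80, nat_lit 1, nat_lit 373, nat_lit 150, nat_lit 10]⟩, C1.Rw.none,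
 ⟨nat_lit 5700, nat_lit 5917, ⟨.ofNat (nat_lit 242029), .ofNat (nat_lit 289149), .ofNat (nat_lit 247363), .ofNat (nat_lit 294484), .ofNat (nat_lit 249476), .ofNat (nat_lit 295508), .ofNat (nat_lit 254812), .ofNat (nat_lit 300843)⟩, ⟨.ofNat (nat_lit 268678), .ofNat (nat_lit 307945), .ofNat (nat_lit 290018), .ofNat (nat_lit 329284), .ofNat (nat_lit 269561), .ofNat (nat_lit 307921), .ofNat (nat_lit 290903), .ofNat (nat_lit 329263)⟩⟩, [⟨nat_lit 0, nat_lit 100, nat_lit 99, nat_lit 67, nat_lit 189648088⟩]⟩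
noncomputable def p037_l25 : Lf2 := ⟨nat_lit 0, nat_lit 10, [nat_lit 0, nat_lit 5, nat_lit 5, nat_lit 20], false, nat_lit 180, nat_lit 200, nat_lit 0, nat_lit 264, ⟨nat_lit 190, nat_lit 0, nat_lit 810, nat_lit 6, nat_lit 113, nat_lit 810, nat_lit 120, nat_lit 810, nat_lit 135000, nat_lit 305, nat_lit 120417, nat_lit 300, nat_lit 55529646, nat_lit 0, nat_lit 0, nat_lit 3065564, false, false⟩,
 nat_lit 9032, nat_lit 0, nat_lit 0, nat_lit 0, nat_lit 5378, nat_lit 3473, nat_lit 365, nat_lit 0, nat_lit 0, nat_lit 149, nat_lit 0, nat_lit 0, nat_lit 0, nat_lit 0, nat_lit 89, nat_lit 810000, nat_lit 0, nat_lit 0, [(nat_lit 9, [(nat_lit 6, nat_lit 810)])],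
 ⟨p037_k11, nat_lit 0, nat_lit 0, nat_lit 197, nat_lit 0, nat_lit 259258, [nat_lit 3203776001, nat_lit 2620280001, nat_lit 165591999], [], [nat_lit 12507584500, nat_lit 12820860969, nat_lit 11975715394, nat_lit 12284036997, nat_lit 13225382933, nat_lit 13556642495, nat_lit 12739556481, nat_lit 13044531955], nat_lit 1271250, nat_lit 1271250, nat_lit 230001, nat_lit 356250, nat_lit 1271250, nat_lit 1271250, [nat_lit 1100000, nat_lit 1442500, nat_lit 1271250], [nat_lit 11, nat_lit 40, nat_lit 20, nat_lit 80, nat_lit 1, nat_lit 373, nat_lit 150, nat_lit 10]⟩, ⟨p037_k11, nat_lit 0, nat_lit 0, nat_lit 0, nat_lit 0, nat_lit 259258, [nat_lit 890720000, nat_lit 1187500000, nat_lit 1869980000], [], [nat_lit 6240252370, nat_lit 6405328297, nat_lit 5612825470, nat_lit 5775477813, nat_lit 4505825733, nat_lit 4681559165, nat_lit 4593935953, nat_lit 4196070983], nat_lit 1271250, nat_lit 1271250, nat_lit 230001, nat_lit 356250, nat_lit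 0, nat_lit 1864500, [nat_lit 1100000, nat_lit 1442500, nat_lit 1271250], [nat_lit 11, nat_lit 40, nat_lit 20, nat_lit 80]⟩,
 ⟨nat_lit 5700, nat_lit 5810, ⟨.ofNat (nat_lit 258861), .ofNat (nat_lit 297672), .ofNat (nat_lit 264196), .ofNat (nat_lit 303007), .ofNat (nat_lit 262484), .ofNat (nat_lit 300843), .ofNat (nat_lit 267819), .ofNat (nat_lit 306179)⟩, ⟨.ofNat (nat_lit 269135), .ofNat (nat_lit 307946), .ofNat (nat_lit 290474), .ofNat (nat_lit 329285), .ofNat (nat_lit 269561), .ofNat (nat_lit 307921), .ofNat (nat_lit 290903), .ofNat (nat_lit 329263)⟩⟩, [⟨nat_lit 0, nat_lit 100, nat_lit 100, nat_lit 68, nat_lit 456642417⟩]⟩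
noncomputable def p037_l26 : Lf2 := ⟨nat_lit 0, nat_lit 10, [nat_lit 0, nat_lit 5, nat_lit 5, nat_lit 20], false, nat_lit 180, nat_lit 200, nat_lit 0, nat_lit 160, ⟨nat_lit 696, nat_lit 0, nat_lit 304, nat_lit 6, nat_lit 116, nat_lit 304, nat_lit 120, nat_lit 304, nat_lit 135000, nat_lit 305, nat_lit 126150, nat_lit 302, nat_lit 55278865, nat_lit 0, nat_lit 0, nat_lit 3112264, false, false⟩,
 nat_lit 13180, nat_lit 465, nat_lit 0, nat_lit 0, nat_lit 8310, nat_lit 7671, nat_lit 1681, nat_lit 0, nat_lit 0, nat_lit 0, nat_lit 0, nat_lit 0, nat_lit 0, nat_lit 0, nat_lit 0, nat_lit 304000, nat_lit 0, nat_lit 0, [(nat_lit 9, [(nat_lit 6, nat_lit 304)])],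
 ⟨p037_k8, nat_lit 0, nat_lit 0, nat_lit 290, nat_lit 0, nat_lit 347692, [nat_lit 3596518401, nat_lit 4219685334, nat_lit 5221443200], [], [nat_lit 13126575653, nat_lit 13920527465, nat_lit 12103555713, nat_lit 12883950385, nat_lit 13981716525, nat_lit 15232088060, nat_lit 12884851850, nat_lit 13971467900], nat_lit 1271250, nat_lit 1271250, nat_lit 230001, nat_lit 356250, nat_lit 1271250, nat_lit 1271250, [nat_lit 1100000, nat_lit 1442500, nat_lit 1271250], [nat_lit 11, nat_lit 40, nat_lit 20, nat_lit 80, nat_lit 1, nat_lit 373, nat_lit 150, nat_lit 10]⟩, ⟨p037_k7, nat_lit 0, nat_lit 0, nat_lit 0, nat_lit 0, nat_lit 366716, [nat_lit 3262848000, nat_lit 4350000000, nat_lit 6850032000], [], [nat_lit 23291142558, nat_lit 23364839028, nat_lit 20428337316, nat_lit 22060799424, nat_lit 16590504912, nat_lit 16617314232, nat_lit 17164395102, nat_lit 15587207544], nat_lit 1271250, nat_lit 1271250, nat_lit 230001, nat_lit 356250,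 nat_lit 0, nat_lit 1100001, [nat_lit 1100000, nat_lit 1442500, nat_lit 1271250], [nat_lit 11, nat_lit 40, nat_lit 20, nat_lit 80]⟩,
 ⟨nat_lit 5477, nat_lit 5701, ⟨.ofNat (nat_lit 257148), .ofNat (nat_lit 295508), .ofNat (nat_lit 278490), .ofNat (nat_lit 316850), .ofNat (nat_lit 264337), .ofNat (nat_lit 301804), .ofNat (nat_lit 285695), .ofNat (nat_lit 323161)⟩, ⟨.ofNat (nat_lit 269561), .ofNat (nat_lit 307921), .ofNat (nat_lit 290903), .ofNat (nat_lit 329263), .ofNat (nat_lit 270319), .ofNat (nat_lit 307785), .ofNat (nat_lit 291676), .ofNat (nat_lit 329142)⟩⟩, [⟨nat_lit 0, nat_lit 100, nat_lit 98, nat_lit 64, nat_lit 1519491725⟩]⟩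
noncomputable def p037_l27 : Lf2 := ⟨nat_lit 0, nat_lit 10, [nat_lit 0, nat_lit 5, nat_lit 5, nat_lit 20], false, nat_lit 180, nat_lit 200, nat_lit 160, nat_lit 268, ⟨nat_lit 292, nat_lit 0, nat_lit 708, nat_lit 6, nat_lit 116, nat_lit 708, nat_lit 120, nat_lit 708, nat_lit 135000, nat_lit 305, nat_lit 126150, nat_lit 302, nat_lit 55278865, nat_lit 0, nat_lit 0, nat_lit 3112264, false, false⟩,
 nat_lit 9485, nat_lit 0, nat_lit 0, nat_lit 0, nat_lit 5776, nat_lit 5521, nat_lit 644, nat_lit 0, nat_lit 0, nat_lit 28, nat_lit 0, nat_lit 0, nat_lit 0, nat_lit 0, nat_lit 33, nat_lit 708000, nat_lit 0, nat_lit 0, [(nat_lit 9, [(nat_lit 6, nat_lit 708)])],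
 ⟨p037_k8, nat_lit 0, nat_lit 0, nat_lit 290, nat_lit 0, nat_lit 347692, [nat_lit 2673996800, nat_lit 2181504001, nat_lit 110265599], [], [nat_lit 12851828793, nat_lit 13501105043, nat_lit 12249006869, nat_lit 12887878275, nat_lit 13614343540, nat_lit 14603590176, nat_lit 13005585276, nat_lit 13842512640], nat_lit 1271250, nat_lit 1271250, nat_lit 230001, nat_lit 356250, nat_lit 1271250, nat_lit 1271250, [nat_lit 1100000, nat_lit 1442500, nat_lit 1271250], [nat_lit 11, nat_lit 40, nat_lit 20, nat_lit 80, nat_lit 1, nat_lit 373, nat_lit 150, nat_lit 10]⟩, ⟨p037_k7, nat_lit 0, nat_lit 0, nat_lit 0, nat_lit 0, nat_lit 366716, [nat_lit 1368896000, nat_lit 1825000000, nat_lit 2873864000], [], [nat_lit 8277375810, nat_lit 5807041452, nat_lit 5413246640, nat_lit 4991257708, nat_lit 7306327470, nat_lit 8075129969, nat_lit 6469032586, nat_lit 7067967138], nat_lit 1271250, nat_lit 1271250, nat_lit 230001, nat_lit 356250, nat_lit 1100001,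 nat_lit 2024750, [nat_lit 1100000, nat_lit 1442500, nat_lit 1271250], [nat_lit 11, nat_lit 40, nat_lit 20, nat_lit 80]⟩,
 ⟨nat_lit 5477, nat_lit 5701, ⟨.ofNat (nat_lit 257148), .ofNat (nat_lit 295508), .ofNat (nat_lit 278490), .ofNat (nat_lit 316850), .ofNat (nat_lit 264337), .ofNat (nat_lit 301804), .ofNat (nat_lit 285695), .ofNat (nat_lit 323161)⟩, ⟨.ofNat (nat_lit 269561), .ofNat (nat_lit 307921), .ofNat (nat_lit 290903), .ofNat (nat_lit 329263), .ofNat (nat_lit 270319), .ofNat (nat_lit 307785), .ofNat (nat_lit 291676), .ofNat (nat_lit 329142)⟩⟩, [⟨nat_lit 0, nat_lit 100, nat_lit 99, nat_lit 72, nat_lit 816229986⟩, ⟨nat_lit 7, nat_lit 100, nat_lit 96, nat_lit 54, nat_lit 130863772⟩]⟩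
noncomputable def p037_l28 : Lf2 := ⟨nat_lit 0, nat_lit 10, [nat_lit 0, nat_lit 5, nat_lit 5, nat_lit 20], false, nat_lit 180, nat_lit 200, nat_lit 0, nat_lit 160, ⟨nat_lit 1000, nat_lit 0, nat_lit 0, nat_lit 0, nat_lit 0, nat_lit 0, nat_lit 0, nat_lit 0, nat_lit 0, nat_lit 0, nat_lit 0, nat_lit 0, nat_lit 0, nat_lit 0, nat_lit 0, nat_lit 0, false, false⟩,
 nat_lit 17254, nat_lit 0, nat_lit 0, nat_lit 0, nat_lit 10043, nat_lit 10043, nat_lit 2212, nat_lit 0, nat_lit 0, nat_lit 951, nat_lit 0, nat_lit 0, nat_lit 0, nat_lit 0, nat_lit 0, nat_lit 0, nat_lit 0, nat_lit 0, [],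
 ⟨p037_k7, nat_lit 0, nat_lit 0, nat_lit 363, nat_lit 0, nat_lit 570775, [nat_lit 4688000000, nat_lit 6250000000, nat_lit 9842000000], [], [nat_lit 18504223468, nat_lit 15022198868, nat_lit 15946389565, nat_lit 14089131805, nat_lit 14141543969, nat_lit 15810213396, nat_lit 13229980412, nat_lit 14861166818], nat_lit 1271250, nat_lit 1271250, nat_lit 356250, nat_lit 490000, nat_lit 1271250, nat_lit 1271250, [nat_lit 1100000, nat_lit 1442500, nat_lit 1271250], [nat_lit 11, nat_lit 40, nat_lit 20, nat_lit 80, nat_lit 1, nat_lit 373, nat_lit 150, nat_lit 10]⟩, ⟨p037_k7, nat_lit 0, nat_lit 0, nat_lit 0, nat_lit 0, nat_lit 570775, [nat_lit 4688000000, nat_lit 6250000000, nat_lit 9842000000], [], [nat_lit 28307525088, nat_lit 27429107969, nat_lit 24099886671, nat_lit 26257412185, nat_lit 24636276528, nat_lit 19871616210, nat_lit 25795027172, nat_lit 21062705314], nat_lit 1271250, nat_lit 1271250, nat_lit 356250, nat_lit 490000,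 nat_lit 0, nat_lit 1100001, [nat_lit 1100000, nat_lit 1442500, nat_lit 1271250], [nat_lit 11, nat_lit 40, nat_lit 20, nat_lit 80]⟩,
 zbF0, []⟩
noncomputable def p037_l29 : Lf2 := ⟨nat_lit 0, nat_lit 10, [nat_lit 0, nat_lit 5, nat_lit 5, nat_lit 20], false, nat_lit 180, nat_lit 200, nat_lit 160, nat_lit 268, ⟨nat_lit 1000, nat_lit 0, nat_lit 0, nat_lit 0, nat_lit 0, nat_lit 0, nat_lit 0, nat_lit 0, nat_lit 0, nat_lit 0, nat_lit 0, nat_lit 0, nat_lit 0, nat_lit 0, nat_lit 0, nat_lit 0, false, false⟩,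
 nat_lit 21576, nat_lit 0, nat_lit 0, nat_lit 0, nat_lit 12559, nat_lit 12559, nat_lit 2433, nat_lit 0, nat_lit 0, nat_lit 1593, nat_lit 0, nat_lit 0, nat_lit 0, nat_lit 19944214062128, nat_lit 0, nat_lit 0, nat_lit 0, nat_lit 0, [],
 ⟨p037_k7, nat_lit 0, nat_lit 0, nat_lit 321, nat_lit 0, nat_lit 470394, [nat_lit 4688000000, nat_lit 6250000000, nat_lit 9842000000], [], [nat_lit 15780593084, nat_lit 12558305336, nat_lit 9387180607, nat_lit 10381155474, nat_lit 11557740472, nat_lit 12524974435, nat_lit 10321112231, nat_lit 11264067870], nat_lit 1271250, nat_lit 1271250, nat_lit 356250, nat_lit 490000, nat_lit 1271250, nat_lit 1271250, [nat_lit 1100000, nat_lit 1442500, nat_lit 1271250], [nat_lit 11, nat_lit 40, nat_lit 20, nat_lit 80, nat_lit 1, nat_lit 373, nat_lit 150, nat_lit 10]⟩, ⟨p037_k7, nat_lit 0, nat_lit 0, nat_lit 0, nat_lit 0, nat_lit 470394, [nat_lit 4688000000, nat_lit 6250000000, nat_lit 9842000000], [], [nat_lit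 22177394144, nat_lit 18931570830, nat_lit 15708680250, nat_lit 12829368077, nat_lit 19281764076, nat_lit 20059678830, nat_lit 17945125940, nat_lit 18704836160], nat_lit 1271250, nat_lit 1271250, nat_lit 356250, nat_lit 490000, nat_lit 1100001, nat_lit 2024750, [nat_lit 1100000, nat_lit 1442500, nat_lit 1271250], [nat_lit 11, nat_lit 40, nat_lit 20, nat_lit 80]⟩,
 zbF0, [⟨nat_lit 7, nat_lit 100, nat_lit 97, nat_lit 54, nat_lit 235380110⟩]⟩
noncomputable def p037_l30 : Lf2 := ⟨nat_lit 0, nat_lit 10, [nat_lit 0, nat_lit 5, nat_lit 5, nat_lit 20], false, nat_lit 180, nat_lit 200, nat_lit 160, nat_lit 268, ⟨nat_lit 1000, nat_lit 0, nat_lit 0, nat_lit 0, nat_lit 0, nat_lit 0, nat_lit 0, nat_lit 0, nat_lit 0, nat_lit 0, nat_lit 0, nat_lit 0, nat_lit 0, nat_lit 0, nat_lit 0, nat_lit 0, false, false⟩,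
 nat_lit 16615, nat_lit 0, nat_lit 0, nat_lit 0, nat_lit 10118, nat_lit 9671, nat_lit 2403, nat_lit 0, nat_lit 0, nat_lit 624, nat_lit 0, nat_lit 0, nat_lit 0, nat_lit 0, nat_lit 0, nat_lit 0, nat_lit 0, nat_lit 0, [],
 ⟨p037_k8, nat_lit 0, nat_lit 0, nat_lit 351, nat_lit 0, nat_lit 541166, [nat_lit 4688000000, nat_lit 6250000000, nat_lit 9842000000], [], [nat_lit 15827038672, nat_lit 13273641443, nat_lit 13351890560, nat_lit 12330738805, nat_lit 13225277620, nat_lit 14063523171, nat_lit 12285168365, nat_lit 13104558143], nat_lit 1271250, nat_lit 1271250, nat_lit 356250, nat_lit 490000, nat_lit 1271250, nat_lit 1271250, [nat_lit 1100000, nat_lit 1442500, nat_lit 1271250], [nat_lit 11, nat_lit 40, nat_lit 20, nat_lit 80, nat_lit 1, nat_lit 373, nat_lit 150, nat_lit 10]⟩, ⟨p037_k7, nat_lit 0, nat_lit 0, nat_lit 0, nat_lit 0, nat_lit 570775, [nat_lit 4688000000, nat_lit 6250000000, nat_lit 9842000000], [], [nat_lit 23832749536,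 nat_lit 21125032320, nat_lit 19050675280, nat_lit 20362078464, nat_lit 24518528979, nat_lit 25850364340, nat_lit 23573608189, nat_lit 24876013045], nat_lit 1271250, nat_lit 1271250, nat_lit 356250, nat_lit 490000, nat_lit 1100001, nat_lit 2024750, [nat_lit 1100000, nat_lit 1442500, nat_lit 1271250], [nat_lit 11, nat_lit 40, nat_lit 20, nat_lit 80]⟩,
 zbF0, [⟨nat_lit 7, nat_lit 100, nat_lit 96, nat_lit 54, nat_lit 626544425⟩]⟩
noncomputable def b_VL_600_600_5_52 : St := ⟨true, nat_lit 1, nat_lit 1, nat_lit 1, nat_lit 40, nat_lit 260, nat_lit 280, nat_lit 260, nat_lit 280, nat_lit 36, nat_lit 80, nat_lit 20, nat_lit 40, nat_lit 180, nat_lit 200, nat_lit 0, nat_lit 268, nat_lit 0, nat_lit 40, nat_lit 0, nat_lit 0, nat_lit 0, nat_lit 800⟩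
theorem d_VL_600_600_5_52 (h : EB TB.env) : Dead b_VL_600_600_5_52 := chkB_sound0 h (T :=
(.spl (nat_lit 2) (nat_lit 60)
(.spl (nat_lit 6) (nat_lit 20)
(.spl (nat_lit 7) (nat_lit 600)
(.spl (nat_lit 6) (nat_lit 8)
(.spl (nat_lit 0) (nat_lit 270)
(.ord (.leaf p037_l15))
(.trZ (nat_lit 0) (nat_lit 100) (nat_lit 98) (nat_lit 64) (nat_lit 40) (.spl (nat_lit 1) (nat_lit 270)
(.spl (nat_lit 0) (nat_lit 275)
(.leaf p037_l16)
(.trZ (nat_lit 0) (nat_lit 100) (nat_lit 97) (nat_lit 67) (nat_lit 44) (.leaf p037_l17)))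
(.trZ (nat_lit 0) (nat_lit 100) (nat_lit 100) (nat_lit 70) (nat_lit 48) (.trX (nat_lit 19) (nat_lit 98) (nat_lit 100) (nat_lit 63) (nat_lit 260) (.leaf p037_l18))))))
(.spl (nat_lit 0) (nat_lit 270)
(.ord (.spl (nat_lit 1) (nat_lit 265)
(.leaf p037_l19)
(.ord (.trZ (nat_lit 0) (nat_lit 100) (nat_lit 100) (nat_lit 65) (nat_lit 40) (.trX (nat_lit 19) (nat_lit 99) (nat_lit 100) (nat_lit 63) (nat_lit 264) (.leaf p037_l20))))))
(.trZ (nat_lit 0) (nat_lit 100) (nat_lit 98) (nat_lit 64) (nat_lit 40) (.spl (nat_lit 1) (nat_lit 270)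
(.leaf p037_l21)
(.trZ (nat_lit 0) (nat_lit 100) (nat_lit 100) (nat_lit 70) (nat_lit 48) (.trX (nat_lit 19) (nat_lit 98) (nat_lit 100) (nat_lit 63) (nat_lit 260) (.leaf p037_l22)))))))
(.leaf p037_l23))
(.spl (nat_lit 0) (nat_lit 270)
(.ord (.spl (nat_lit 1) (nat_lit 265)
(.leaf p037_l24)
(.ord (.trZ (nat_lit 0) (nat_lit 100) (nat_lit 100) (nat_lit 65) (nat_lit 40) (.trX (nat_lit 19) (nat_lit 99) (nat_lit 100) (nat_lit 63) (nat_lit 264) (.leaf p037_l25))))))
(.trZ (nat_lit 0) (nat_lit 100) (nat_lit 98) (nat_lit 64) (nat_lit 40) (.spl (nat_lit 5) (nat_lit 160)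
(.leaf p037_l26)
(.leaf p037_l27)))))
(.spl (nat_lit 5) (nat_lit 160)
(.leaf p037_l28)
(.spl (nat_lit 0) (nat_lit 270)
(.ord (.leaf p037_l29))
(.leaf p037_l30))))) (by decide +kernel)
noncomputable def p037_l31 : Lf2 := ⟨nat_lit 0, nat_lit 10, [nat_lit 0, nat_lit 5, nat_lit 5, nat_lit 20], false, nat_lit 160, nat_lit 200, nat_lit 0, nat_lit 160, ⟨nat_lit 1000, nat_lit 0, nat_lit 0, nat_lit 0, nat_lit 0, nat_lit 0, nat_lit 0, nat_lit 0, nat_lit 0, nat_lit 0, nat_lit 0, nat_lit 0, nat_lit 0, nat_lit 0, nat_lit 0, nat_lit 0, false, false⟩,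
 nat_lit 19330, nat_lit 0, nat_lit 0, nat_lit 0, nat_lit 11251, nat_lit 11251, nat_lit 2432, nat_lit 0, nat_lit 0, nat_lit 1155, nat_lit 0, nat_lit 0, nat_lit 0, nat_lit 0, nat_lit 0, nat_lit 0, nat_lit 0, nat_lit 0, [],
 ⟨p037_k7, nat_lit 0, nat_lit 0, nat_lit 353, nat_lit 0, nat_lit 570775, [nat_lit 4688000000, nat_lit 6250000000, nat_lit 9842000000], [], [nat_lit 17132111250, nat_lit 11533638844, nat_lit 8616294334, nat_lit 10441801964, nat_lit 11381701184, nat_lit 13135187926, nat_lit 10283853157, nat_lit 11934197342], nat_lit 1271250, nat_lit 1271250, nat_lit 490000, nat_lit 780000, nat_lit 1100001, nat_lit 1442500, [nat_lit 1100000, nat_lit 1442500, nat_lit 1271250], [nat_lit 11, nat_lit 40, nat_lit 20, nat_lit 80, nat_lit 1, nat_lit 373, nat_lit 150, nat_lit 10]⟩, ⟨p037_k7, nat_lit 0, nat_lit 0, nat_lit 0, nat_lit 0, nat_lit 570775, [nat_lit 4688000000, nat_lit 6250000000, nat_lit 9842000000], [], [nat_lit 23539411347,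 nat_lit 25872336045, nat_lit 22275248411, nat_lit 24483272625, nat_lit 23618883004, nat_lit 18317344298, nat_lit 27297891896, nat_lit 22067279494], nat_lit 1271250, nat_lit 1271250, nat_lit 490000, nat_lit 780000, nat_lit 0, nat_lit 1100001, [nat_lit 1100000, nat_lit 1442500, nat_lit 1271250], [nat_lit 11, nat_lit 40, nat_lit 20, nat_lit 80]⟩,
 zbF0, []⟩
noncomputable def p037_l32 : Lf2 := ⟨nat_lit 0, nat_lit 10, [nat_lit 0, nat_lit 5, nat_lit 5, nat_lit 20], false, nat_lit 160, nat_lit 200, nat_lit 160, nat_lit 268, ⟨nat_lit 1000, nat_lit 0, nat_lit 0, nat_lit 0, nat_lit 0, nat_lit 0, nat_lit 0, nat_lit 0, nat_lit 0, nat_lit 0, nat_lit 0, nat_lit 0, nat_lit 0, nat_lit 0, nat_lit 0, nat_lit 0, false, false⟩,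
 nat_lit 19636, nat_lit 0, nat_lit 0, nat_lit 0, nat_lit 11429, nat_lit 11429, nat_lit 2466, nat_lit 0, nat_lit 0, nat_lit 1184, nat_lit 0, nat_lit 0, nat_lit 0, nat_lit 0, nat_lit 0, nat_lit 0, nat_lit 0, nat_lit 0, [],
 ⟨p037_k7, nat_lit 0, nat_lit 0, nat_lit 353, nat_lit 0, nat_lit 570775, [nat_lit 4688000000, nat_lit 6250000000, nat_lit 9842000000], [], [nat_lit 16938402750, nat_lit 11264567826, nat_lit 8297381536, nat_lit 10141958306, nat_lit 11103078686, nat_lit 12874586504, nat_lit 9974476353, nat_lit 11850104686], nat_lit 1271250, nat_lit 1271250, nat_lit 490000, nat_lit 780000, nat_lit 1100001, nat_lit 1442500, [nat_lit 1100000, nat_lit 1442500, nat_lit 1271250], [nat_lit 11, nat_lit 40, nat_lit 20, nat_lit 80, nat_lit 1, nat_lit 373, nat_lit 150, nat_lit 10]⟩, ⟨p037_k7, nat_lit 0, nat_lit 0, nat_lit 0, nat_lit 0, nat_lit 570775, [nat_lit 4688000000, nat_lit 6250000000, nat_lit 9842000000], [], [nat_lit 16938402750,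 nat_lit 16348499076, nat_lit 13381312786, nat_lit 15225889556, nat_lit 20265800822, nat_lit 21700308656, nat_lit 20903698869, nat_lit 20232455757], nat_lit 1271250, nat_lit 1271250, nat_lit 490000, nat_lit 780000, nat_lit 1100001, nat_lit 2024750, [nat_lit 1100000, nat_lit 1442500, nat_lit 1271250], [nat_lit 11, nat_lit 40, nat_lit 20, nat_lit 80]⟩,
 zbF0, [⟨nat_lit 7, nat_lit 100, nat_lit 96, nat_lit 54, nat_lit 886427881⟩]⟩
noncomputable def b_VL_600_600_5_53 : St := ⟨true, nat_lit 1, nat_lit 1, nat_lit 1, nat_lit 40, nat_lit 260, nat_lit 280, nat_lit 260, nat_lit 280, nat_lit 80, nat_lit 120, nat_lit 20, nat_lit 40, nat_lit 160, nat_lit 200, nat_lit 0, nat_lit 268, nat_lit 0, nat_lit 40, nat_lit 0, nat_lit 0, nat_lit 0, nat_lit 800⟩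
theorem d_VL_600_600_5_53 (h : EB TB.env) : Dead b_VL_600_600_5_53 := chkB_sound0 h (T :=
(.spl (nat_lit 5) (nat_lit 160)
(.leaf p037_l31)
(.leaf p037_l32))) (by decide +kernel)
noncomputable def p037_l33 : Lf2 := ⟨nat_lit 0, nat_lit 2, [nat_lit 10, nat_lit 5, nat_lit 5, nat_lit 20], false, nat_lit 200, nat_lit 240, nat_lit 0, nat_lit 80, ⟨nat_lit 1000, nat_lit 0, nat_lit 0, nat_lit 0, nat_lit 0, nat_lit 0, nat_lit 0, nat_lit 0, nat_lit 0, nat_lit 0, nat_lit 0, nat_lit 0, nat_lit 0, nat_lit 0, nat_lit 0, nat_lit 0, false, false⟩,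
 nat_lit 14360, nat_lit 0, nat_lit 0, nat_lit 0, nat_lit 8358, nat_lit 8358, nat_lit 2825, nat_lit 0, nat_lit 0, nat_lit 348, nat_lit 0, nat_lit 0, nat_lit 0, nat_lit 8499408739557, nat_lit 0, nat_lit 0, nat_lit 0, nat_lit 0, [],
 ⟨p037_k0, nat_lit 0, nat_lit 0, nat_lit 0, nat_lit 0, nat_lit 419839, [nat_lit 4688000000, nat_lit 6250000000], [], [nat_lit 17766133724, nat_lit 15766712905, nat_lit 18622636983, nat_lit 16639634619, nat_lit 16544360322, nat_lit 17129750474, nat_lit 15635061419, nat_lit 16206058999], nat_lit 1271250, nat_lit 1271250, nat_lit 205650, nat_lit 356250, nat_lit 1271250, nat_lit 1271250, [nat_lit 1100000, nat_lit 1442500], [nat_lit 31, nat_lit 40, nat_lit 20, nat_lit 80]⟩, ⟨p037_k0, nat_lit 0, nat_lit 0, nat_lit 0, nat_lit 0, nat_lit 419839, [nat_lit 4688000000, nat_lit 6250000000], [], [nat_lit 18845371752, nat_lit 19807006208, nat_lit 17886392692, nat_lit 18738224820, nat_lit 15018208369, nat_lit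 15802642252, nat_lit 15670040924, nat_lit 14949666070], nat_lit 1271250, nat_lit 1271250, nat_lit 205650, nat_lit 356250, nat_lit 0, nat_lit 490000, [nat_lit 1100000, nat_lit 1442500], [nat_lit 31, nat_lit 40, nat_lit 20, nat_lit 80]⟩,
 zbF0, [⟨nat_lit 0, nat_lit 100, nat_lit 100, nat_lit 65, nat_lit 734807566⟩, ⟨nat_lit 4, nat_lit 100, nat_lit 97, nat_lit 54, nat_lit 183588954⟩]⟩
noncomputable def p037_l34 : Lf2 := ⟨nat_lit 0, nat_lit 2, [nat_lit 10, nat_lit 5, nat_lit 5, nat_lit 20], false, nat_lit 200, nat_lit 240, nat_lit 80, nat_lit 160, ⟨nat_lit 1000, nat_lit 0, nat_lit 0, nat_lit 0, nat_lit 0, nat_lit 0, nat_lit 0, nat_lit 0, nat_lit 0, nat_lit 0, nat_lit 0, nat_lit 0, nat_lit 0, nat_lit 0, nat_lit 0, nat_lit 0, false, false⟩,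
 nat_lit 19521, nat_lit 0, nat_lit 0, nat_lit 0, nat_lit 11362, nat_lit 11362, nat_lit 0, nat_lit 0, nat_lit 0, nat_lit 4416, nat_lit 0, nat_lit 0, nat_lit 0, nat_lit 0, nat_lit 0, nat_lit 0, nat_lit 0, nat_lit 0, [],
 ⟨p037_k0, nat_lit 0, nat_lit 0, nat_lit 0, nat_lit 0, nat_lit 419839, [nat_lit 4688000000, nat_lit 6250000000], [], [nat_lit 13387167388, nat_lit 14954854237, nat_lit 14165918612, nat_lit 12632693405, nat_lit 16829632493, nat_lit 18234233980, nat_lit 14472916020, nat_lit 15853941330], nat_lit 1271250, nat_lit 1271250, nat_lit 205650, nat_lit 356250, nat_lit 1271250, nat_lit 1271250, [nat_lit 1100000, nat_lit 1442500], [nat_lit 31, nat_lit 40, nat_lit 20, nat_lit 80]⟩, ⟨p037_k0, nat_lit 0, nat_lit 0, nat_lit 0, nat_lit 0, nat_lit 419839, [nat_lit 4688000000, nat_lit 6250000000], [], [nat_lit 10081904714, nat_lit 12026218281, nat_lit 7455767008, nat_lit 9373765828, nat_lit 11964273054, nat_lit 11675474493, nat_lit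 12822877064, nat_lit 10090316064], nat_lit 1271250, nat_lit 1271250, nat_lit 205650, nat_lit 356250, nat_lit 490000, nat_lit 1100001, [nat_lit 1100000, nat_lit 1442500], [nat_lit 31, nat_lit 40, nat_lit 20, nat_lit 80]⟩,
 zbF0, [⟨nat_lit 0, nat_lit 100, nat_lit 100, nat_lit 65, nat_lit 496617610⟩, ⟨nat_lit 4, nat_lit 100, nat_lit 97, nat_lit 54, nat_lit 1192612276⟩]⟩
noncomputable def p037_l35 : Lf2 := ⟨nat_lit 0, nat_lit 5, [nat_lit 4, nat_lit 5, nat_lit 5, nat_lit 20], false, nat_lit 200, nat_lit 240, nat_lit 0, nat_lit 80, ⟨nat_lit 1000, nat_lit 0, nat_lit 0, nat_lit 0, nat_lit 0, nat_lit 0, nat_lit 0, nat_lit 0, nat_lit 0, nat_lit 0, nat_lit 0, nat_lit 0, nat_lit 0, nat_lit 0, nat_lit 0, nat_lit 0, false, false⟩,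
 nat_lit 18037, nat_lit 0, nat_lit 0, nat_lit 0, nat_lit 10499, nat_lit 10499, nat_lit 0, nat_lit 0, nat_lit 0, nat_lit 3352, nat_lit 0, nat_lit 0, nat_lit 0, nat_lit 5136532147236, nat_lit 0, nat_lit 0, nat_lit 0, nat_lit 0, [],
 ⟨p037_k1, nat_lit 0, nat_lit 0, nat_lit 0, nat_lit 0, nat_lit 354210, [nat_lit 4688000000, nat_lit 7968000000], [], [nat_lit 18738345374, nat_lit 19741893532, nat_lit 17048593168, nat_lit 18031212537, nat_lit 20927374721, nat_lit 21827240944, nat_lit 19206284802, nat_lit 20087574137], nat_lit 1271250, nat_lit 1271250, nat_lit 205650, nat_lit 356250, nat_lit 1271250, nat_lit 1271250, [nat_lit 1100000, nat_lit 1785000], [nat_lit 39, nat_lit 40, nat_lit 20, nat_lit 80]⟩, ⟨p037_k1, nat_lit 0, nat_lit 0, nat_lit 0, nat_lit 0, nat_lit 354210, [nat_lit 4688000000, nat_lit 7968000000], [], [nat_lit 20978809885, nat_lit 22856386780, nat_lit 18977238666, nat_lit 19714072848, nat_lit 20390428772, nat_lit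 17879328347, nat_lit 21313186858, nat_lit 18822687571], nat_lit 1271250, nat_lit 1271250, nat_lit 205650, nat_lit 356250, nat_lit 0, nat_lit 490000, [nat_lit 1100000, nat_lit 1785000], [nat_lit 39, nat_lit 40, nat_lit 20, nat_lit 80]⟩,
 zbF0, [⟨nat_lit 0, nat_lit 100, nat_lit 100, nat_lit 65, nat_lit 856292423⟩, ⟨nat_lit 4, nat_lit 100, nat_lit 97, nat_lit 54, nat_lit 907633996⟩]⟩
noncomputable def p037_l36 : Lf2 := ⟨nat_lit 0, nat_lit 5, [nat_lit 4, nat_lit 5, nat_lit 5, nat_lit 20], false, nat_lit 200, nat_lit 240, nat_lit 80, nat_lit 160, ⟨nat_lit 1000, nat_lit 0, nat_lit 0, nat_lit 0, nat_lit 0, nat_lit 0, nat_lit 0, nat_lit 0, nat_lit 0, nat_lit 0, nat_lit 0, nat_lit 0, nat_lit 0, nat_lit 0, nat_lit 0, nat_lit 0, false, false⟩,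
 nat_lit 19663, nat_lit 0, nat_lit 0, nat_lit 0, nat_lit 11445, nat_lit 11445, nat_lit 1328, nat_lit 0, nat_lit 0, nat_lit 2358, nat_lit 0, nat_lit 0, nat_lit 0, nat_lit 14791792241099, nat_lit 0, nat_lit 0, nat_lit 0, nat_lit 0, [],
 ⟨p037_k3, nat_lit 0, nat_lit 0, nat_lit 0, nat_lit 0, nat_lit 354210, [nat_lit 4688000000, nat_lit 6250000000, nat_lit 7968000000], [], [nat_lit 14883105526, nat_lit 15947426049, nat_lit 13002266240, nat_lit 14044134535, nat_lit 17165081644, nat_lit 18264835250, nat_lit 15251120110, nat_lit 16183649535], nat_lit 1271250, nat_lit 1271250, nat_lit 205650, nat_lit 356250, nat_lit 1271250, nat_lit 1271250, [nat_lit 1100000, nat_lit 1442500, nat_lit 1271250], [nat_lit 9, nat_lit 40, nat_lit 20, nat_lit 80]⟩, ⟨p037_k3, nat_lit 0, nat_lit 0, nat_lit 0, nat_lit 0, nat_lit 354210, [nat_lit 4688000000, nat_lit 6250000000, nat_lit 7968000000], [], [nat_lit 10359487600, nat_lit 12046847100, nat_lit 8402789760,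 nat_lit 9719518270, nat_lit 10129129408, nat_lit 11677628709, nat_lit 8281412370, nat_lit 9432619535], nat_lit 1271250, nat_lit 1271250, nat_lit 205650, nat_lit 356250, nat_lit 490000, nat_lit 1100001, [nat_lit 1100000, nat_lit 1442500, nat_lit 1271250], [nat_lit 9, nat_lit 40, nat_lit 20, nat_lit 80]⟩,
 zbF0, [⟨nat_lit 0, nat_lit 100, nat_lit 100, nat_lit 65, nat_lit 1481184351⟩, ⟨nat_lit 16, nat_lit 97, nat_lit 100, nat_lit 54, nat_lit 954577159⟩]⟩
noncomputable def p037_l37 : Lf2 := ⟨nat_lit 0, nat_lit 5, [nat_lit 4, nat_lit 5, nat_lit 5, nat_lit 20], false, nat_lit 200, nat_lit 240, nat_lit 0, nat_lit 80, ⟨nat_lit 1000, nat_lit 0, nat_lit 0, nat_lit 0, nat_lit 0, nat_lit 0, nat_lit 0, nat_lit 0, nat_lit 0, nat_lit 0, nat_lit 0, nat_lit 0, nat_lit 0, nat_lit 0, nat_lit 0, nat_lit 0, false, false⟩,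
 nat_lit 13683, nat_lit 0, nat_lit 0, nat_lit 0, nat_lit 8333, nat_lit 7964, nat_lit 2700, nat_lit 0, nat_lit 0, nat_lit 0, nat_lit 0, nat_lit 0, nat_lit 0, nat_lit 0, nat_lit 0, nat_lit 0, nat_lit 0, nat_lit 0, [],
 ⟨p037_k2, nat_lit 0, nat_lit 0, nat_lit 0, nat_lit 0, nat_lit 505614, [nat_lit 4688000000, nat_lit 6250000000, nat_lit 7968000000], [], [nat_lit 15122712028, nat_lit 15827002358, nat_lit 15675016044, nat_lit 15153008884, nat_lit 16748325282, nat_lit 17875857660, nat_lit 16055473970, nat_lit 16678681184], nat_lit 1271250, nat_lit 1271250, nat_lit 230001, nat_lit 356250, nat_lit 1271250, nat_lit 1271250, [nat_lit 1100000, nat_lit 1442500, nat_lit 1271250], [nat_lit 9, nat_lit 40, nat_lit 20, nat_lit 80]⟩, ⟨p037_k3, nat_lit 0, nat_lit 0, nat_lit 0, nat_lit 0, nat_lit 532436, [nat_lit 4688000000, nat_lit 6250000000, nat_lit 7968000000], [], [nat_lit 33630658904, nat_lit 31188488256, nat_lit 29499174624, nat_lit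 30490563456, nat_lit 26739913440, nat_lit 27707183328, nat_lit 26122754424, nat_lit 27068867536], nat_lit 1271250, nat_lit 1271250, nat_lit 230001, nat_lit 356250, nat_lit 0, nat_lit 490000, [nat_lit 1100000, nat_lit 1442500, nat_lit 1271250], [nat_lit 9, nat_lit 40, nat_lit 20, nat_lit 80]⟩,
 zbF0, [⟨nat_lit 0, nat_lit 100, nat_lit 98, nat_lit 64, nat_lit 1616999519⟩, ⟨nat_lit 16, nat_lit 94, nat_lit 100, nat_lit 53, nat_lit 838930610⟩]⟩
noncomputable def p037_l38 : Lf2 := ⟨nat_lit 0, nat_lit 5, [nat_lit 4, nat_lit 5, nat_lit 5, nat_lit 20], false, nat_lit 200, nat_lit 240, nat_lit 80, nat_lit 160, ⟨nat_lit 1000, nat_lit 0, nat_lit 0, nat_lit 0, nat_lit 0, nat_lit 0, nat_lit 0, nat_lit 0, nat_lit 0, nat_lit 0, nat_lit 0, nat_lit 0, nat_lit 0, nat_lit 0, nat_lit 0, nat_lit 0, false, false⟩,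
 nat_lit 23285, nat_lit 0, nat_lit 0, nat_lit 0, nat_lit 14180, nat_lit 13553, nat_lit 664, nat_lit 0, nat_lit 0, nat_lit 4165, nat_lit 0, nat_lit 0, nat_lit 0, nat_lit 0, nat_lit 0, nat_lit 0, nat_lit 0, nat_lit 0, [],
 ⟨p037_k2, nat_lit 0, nat_lit 0, nat_lit 0, nat_lit 0, nat_lit 505614, [nat_lit 4688000000, nat_lit 6250000000, nat_lit 7968000000], [], [nat_lit 14983148660, nat_lit 16688000680, nat_lit 13057515840, nat_lit 14270679920, nat_lit 18599195460, nat_lit 20255703600, nat_lit 16194820700, nat_lit 17825957600], nat_lit 1271250, nat_lit 1271250, nat_lit 230001, nat_lit 356250, nat_lit 1271250, nat_lit 1271250, [nat_lit 1100000, nat_lit 1442500, nat_lit 1271250], [nat_lit 9, nat_lit 40, nat_lit 20, nat_lit 80]⟩, ⟨p037_k3, nat_lit 0, nat_lit 0, nat_lit 0, nat_lit 0, nat_lit 532436, [nat_lit 4688000000, nat_lit 6250000000, nat_lit 7968000000], [], [nat_lit 9620822850, nat_lit 14084184088, nat_lit 7114812352, nat_lit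 11523143012, nat_lit 12855809806, nat_lit 13064474696, nat_lit 13753761488, nat_lit 10782105180], nat_lit 1271250, nat_lit 1271250, nat_lit 230001, nat_lit 356250, nat_lit 490000, nat_lit 1100001, [nat_lit 1100000, nat_lit 1442500, nat_lit 1271250], [nat_lit 9, nat_lit 40, nat_lit 20, nat_lit 80]⟩,
 zbF0, [⟨nat_lit 0, nat_lit 100, nat_lit 99, nat_lit 72, nat_lit 1068722164⟩, ⟨nat_lit 4, nat_lit 100, nat_lit 94, nat_lit 53, nat_lit 1326236857⟩]⟩
noncomputable def p037_l39 : Lf2 := ⟨nat_lit 0, nat_lit 5, [nat_lit 4, nat_lit 5, nat_lit 5, nat_lit 20], false, nat_lit 200, nat_lit 240, nat_lit 160, nat_lit 200, ⟨nat_lit 752, nat_lit 0, nat_lit 248, nat_lit 6, nat_lit 109, nat_lit 248, nat_lit 143, nat_lit 248, nat_lit 190817, nat_lit 322, nat_lit 109350, nat_lit 296, nat_lit 53938274, nat_lit 0, nat_lit 0, nat_lit 3322508, false, false⟩,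
 nat_lit 16885, nat_lit 0, nat_lit 0, nat_lit 0, nat_lit 9828, nat_lit 9828, nat_lit 1371, nat_lit 0, nat_lit 0, nat_lit 1847, nat_lit 0, nat_lit 0, nat_lit 0, nat_lit 2225465098679, nat_lit 0, nat_lit 248000, nat_lit 0, nat_lit 0, [(nat_lit 9, [(nat_lit 6, nat_lit 248)])],
 ⟨p037_k3, nat_lit 0, nat_lit 0, nat_lit 0, nat_lit 0, nat_lit 532436, [nat_lit 3797580800, nat_lit 4516480000, nat_lit 5322371200], [], [nat_lit 13276158791, nat_lit 16061483887, nat_lit 12474248853, nat_lit 14984642485, nat_lit 16402790244, nat_lit 18934536797, nat_lit 15343645836, nat_lit 17855914000], nat_lit 1271250, nat_lit 1271250, nat_lit 205650, nat_lit 279600, nat_lit 1271250, nat_lit 1271250, [nat_lit 1100000, nat_lit 1442500, nat_lit 1271250], [nat_lit 9, nat_lit 40, nat_lit 20, nat_lit 80]⟩, ⟨p037_k3, nat_lit 0, nat_lit 0, nat_lit 0, nat_lit 0, nat_lit 532436, [nat_lit 3525376000, nat_lit 4700000000, nat_lit 5991936000], [], [nat_lit 12052930879,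 nat_lit 10263783444, nat_lit 9031241517, nat_lit 9134221172, nat_lit 12714342890, nat_lit 12810801071, nat_lit 13029745577, nat_lit 11680780533], nat_lit 1271250, nat_lit 1271250, nat_lit 205650, nat_lit 279600, nat_lit 1100001, nat_lit 1442500, [nat_lit 1100000, nat_lit 1442500, nat_lit 1271250], [nat_lit 9, nat_lit 40, nat_lit 20, nat_lit 80]⟩,
 ⟨nat_lit 5477, nat_lit 5917, ⟨.ofNat (nat_lit 242029), .ofNat (nat_lit 265589), .ofNat (nat_lit 263368), .ofNat (nat_lit 286928), .ofNat (nat_lit 256844), .ofNat (nat_lit 279324), .ofNat (nat_lit 278201), .ofNat (nat_lit 300681)⟩, ⟨.ofNat (nat_lit 307945), .ofNat (nat_lit 386479), .ofNat (nat_lit 329284), .ofNat (nat_lit 407818), .ofNat (nat_lit 307785), .ofNat (nat_lit 382718), .ofNat (nat_lit 329142), .ofNat (nat_lit 404075)⟩⟩, [⟨nat_lit 0, nat_lit 100, nat_lit 100, nat_lit 70, nat_lit 861910473⟩, ⟨nat_lit 16, nat_lit 96, nat_lit 100, nat_lit 54, nat_lit 985616852⟩]⟩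
noncomputable def p037_l40 : Lf2 := ⟨nat_lit 0, nat_lit 5, [nat_lit 4, nat_lit 5, nat_lit 5, nat_lit 20], false, nat_lit 200, nat_lit 240, nat_lit 200, nat_lit 240, ⟨nat_lit 1000, nat_lit 0, nat_lit 0, nat_lit 0, nat_lit 0, nat_lit 0, nat_lit 0, nat_lit 0, nat_lit 0, nat_lit 0, nat_lit 0, nat_lit 0, nat_lit 0, nat_lit 0, nat_lit 0, nat_lit 0, false, false⟩,
 nat_lit 20289, nat_lit 0, nat_lit 0, nat_lit 0, nat_lit 11810, nat_lit 11810, nat_lit 2082, nat_lit 0, nat_lit 0, nat_lit 2082, nat_lit 0, nat_lit 0, nat_lit 0, nat_lit 0, nat_lit 0, nat_lit 0, nat_lit 0, nat_lit 0, [],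
 ⟨p037_k1, nat_lit 0, nat_lit 0, nat_lit 0, nat_lit 0, nat_lit 532436, [nat_lit 4688000000, nat_lit 7968000000], [], [nat_lit 16799287676, nat_lit 16657191428, nat_lit 17252649610, nat_lit 15490123869, nat_lit 16954290464, nat_lit 19844523737, nat_lit 15639460224, nat_lit 18506208200], nat_lit 1271250, nat_lit 1271250, nat_lit 205650, nat_lit 279600, nat_lit 1271250, nat_lit 1271250, [nat_lit 1100000, nat_lit 1785000], [nat_lit 39, nat_lit 40, nat_lit 20, nat_lit 80]⟩, ⟨p037_k1, nat_lit 0, nat_lit 0, nat_lit 0, nat_lit 0, nat_lit 532436, [nat_lit 4688000000, nat_lit 7968000000], [], [nat_lit 16799287676, nat_lit 16657191428, nat_lit 17252649610, nat_lit 15490123869, nat_lit 16954290464, nat_lit 19844523737, nat_lit 15639460224, nat_lit 18506208200], nat_lit 1271250, nat_lit 1271250, nat_lit 205650, nat_lit 279600, nat_lit 1271250, nat_lit 1271250, [nat_lit 1100000, nat_lit 1785000], [nat_lit 39, nat_lit 40, nat_lit 20, nat_lit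 80]⟩,
 zbF0, [⟨nat_lit 0, nat_lit 100, nat_lit 100, nat_lit 70, nat_lit 1924017862⟩, ⟨nat_lit 4, nat_lit 100, nat_lit 96, nat_lit 54, nat_lit 25355377⟩, ⟨nat_lit 7, nat_lit 100, nat_lit 96, nat_lit 54, nat_lit 25355377⟩]⟩
noncomputable def p037_l41 : Lf2 := ⟨nat_lit 0, nat_lit 5, [nat_lit 4, nat_lit 5, nat_lit 5, nat_lit 20], false, nat_lit 200, nat_lit 240, nat_lit 240, nat_lit 268, ⟨nat_lit 1000, nat_lit 0, nat_lit 0, nat_lit 0, nat_lit 0, nat_lit 0, nat_lit 0, nat_lit 0, nat_lit 0, nat_lit 0, nat_lit 0, nat_lit 0, nat_lit 0, nat_lit 0, nat_lit 0, nat_lit 0, false, false⟩,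
 nat_lit 18948, nat_lit 0, nat_lit 0, nat_lit 0, nat_lit 11029, nat_lit 11029, nat_lit 1805, nat_lit 0, nat_lit 0, nat_lit 1900, nat_lit 0, nat_lit 0, nat_lit 0, nat_lit 0, nat_lit 0, nat_lit 0, nat_lit 0, nat_lit 0, [],
 ⟨p037_k1, nat_lit 0, nat_lit 0, nat_lit 0, nat_lit 0, nat_lit 532436, [nat_lit 4688000000, nat_lit 7968000000], [], [nat_lit 18719275949, nat_lit 17687572303, nat_lit 19162218249, nat_lit 16836361098, nat_lit 17660575866, nat_lit 19485946643, nat_lit 16811400852, nat_lit 18495094776], nat_lit 1271250, nat_lit 1271250, nat_lit 205650, nat_lit 279600, nat_lit 1271250, nat_lit 1271250, [nat_lit 1100000, nat_lit 1785000], [nat_lit 39, nat_lit 40, nat_lit 20, nat_lit 80]⟩, ⟨p037_k1, nat_lit 0, nat_lit 0, nat_lit 0, nat_lit 0, nat_lit 532436, [nat_lit 4688000000, nat_lit 7968000000], [], [nat_lit 17470176697, nat_lit 19485946643, nat_lit 16497932802, nat_lit 18338344776, nat_lit 20621650027, nat_lit 23110053784,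 nat_lit 19375283871, nat_lit 21845535479], nat_lit 1271250, nat_lit 1271250, nat_lit 205650, nat_lit 279600, nat_lit 1271250, nat_lit 1271250, [nat_lit 1100000, nat_lit 1785000], [nat_lit 39, nat_lit 40, nat_lit 20, nat_lit 80]⟩,
 zbF0, [⟨nat_lit 0, nat_lit 100, nat_lit 100, nat_lit 60, nat_lit 1492753881⟩, ⟨nat_lit 7, nat_lit 100, nat_lit 96, nat_lit 54, nat_lit 1437668151⟩]⟩
noncomputable def p037_l42 : Lf2 := ⟨nat_lit 0, nat_lit 5, [nat_lit 4, nat_lit 5, nat_lit 5, nat_lit 20], false, nat_lit 200, nat_lit 240, nat_lit 160, nat_lit 240, ⟨nat_lit 827, nat_lit 0, nat_lit 173, nat_lit 6, nat_lit 114, nat_lit 173, nat_lit 143, nat_lit 173, nat_lit 190817, nat_lit 322, nat_lit 123267, nat_lit 301, nat_lit 53492754, nat_lit 0, nat_lit 0, nat_lit 3406761, false, false⟩,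
 nat_lit 13316, nat_lit 0, nat_lit 0, nat_lit 0, nat_lit 7751, nat_lit 7751, nat_lit 2484, nat_lit 0, nat_lit 0, nat_lit 0, nat_lit 0, nat_lit 0, nat_lit 0, nat_lit 0, nat_lit 0, nat_lit 173000, nat_lit 0, nat_lit 0, [(nat_lit 9, [(nat_lit 6, nat_lit 173)])],
 ⟨p037_k3, nat_lit 0, nat_lit 0, nat_lit 0, nat_lit 0, nat_lit 438797, [nat_lit 4066860801, nat_lit 5040730001, nat_lit 6110666199], [], [nat_lit 17357806386, nat_lit 15511225198, nat_lit 17826740229, nat_lit 15987753471, nat_lit 15501252206, nat_lit 16108088432, nat_lit 15136913135, nat_lit 15736049993], nat_lit 1271250, nat_lit 1271250, nat_lit 279600, nat_lit 356250, nat_lit 1271250, nat_lit 1271250, [nat_lit 1100000, nat_lit 1442500, nat_lit 1271250], [nat_lit 9, nat_lit 40, nat_lit 20, nat_lit 80]⟩, ⟨p037_k3, nat_lit 0, nat_lit 0, nat_lit 0, nat_lit 0, nat_lit 438797, [nat_lit 3876976000, nat_lit 5168750000, nat_lit 6589536000], [], [nat_lit 22263804502, nat_lit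 20251553441, nat_lit 19851212740, nat_lit 17847997794, nat_lit 19555244668, nat_lit 18825339514, nat_lit 19971564566, nat_lit 18324841188], nat_lit 1271250, nat_lit 1271250, nat_lit 279600, nat_lit 356250, nat_lit 1100001, nat_lit 1785000, [nat_lit 1100000, nat_lit 1442500, nat_lit 1271250], [nat_lit 9, nat_lit 40, nat_lit 20, nat_lit 80]⟩,
 ⟨nat_lit 5700, nat_lit 5917, ⟨.ofNat (nat_lit 265589), .ofNat (nat_lit 289149), .ofNat (nat_lit 276258), .ofNat (nat_lit 299818), .ofNat (nat_lit 272492), .ofNat (nat_lit 295508), .ofNat (nat_lit 283163), .ofNat (nat_lit 306179)⟩, ⟨.ofNat (nat_lit 307945), .ofNat (nat_lit 386479), .ofNat (nat_lit 329284), .ofNat (nat_lit 407818), .ofNat (nat_lit 307921), .ofNat (nat_lit 384640), .ofNat (nat_lit 329263), .ofNat (nat_lit 405982)⟩⟩, [⟨nat_lit 4, nat_lit 100, nat_lit 97, nat_lit 54, nat_lit 105617435⟩]⟩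
noncomputable def p037_l43 : Lf2 := ⟨nat_lit 0, nat_lit 5, [nat_lit 4, nat_lit 5, nat_lit 5, nat_lit 20], false, nat_lit 200, nat_lit 240, nat_lit 160, nat_lit 240, ⟨nat_lit 889, nat_lit 0, nat_lit 111, nat_lit 6, nat_lit 119, nat_lit 111, nat_lit 143, nat_lit 111, nat_lit 190817, nat_lit 322, nat_lit 132017, nat_lit 304, nat_lit 53165065, nat_lit 0, nat_lit 0, nat_lit 3468010, false, false⟩,
 nat_lit 14320, nat_lit 0, nat_lit 0, nat_lit 0, nat_lit 8721, nat_lit 8335, nat_lit 1688, nat_lit 0, nat_lit 0, nat_lit 1068, nat_lit 0, nat_lit 0, nat_lit 0, nat_lit 0, nat_lit 0, nat_lit 111000, nat_lit 0, nat_lit 0, [(nat_lit 9, [(nat_lit 6, nat_lit 111)])],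
 ⟨p037_k5, nat_lit 0, nat_lit 0, nat_lit 0, nat_lit 0, nat_lit 505614, [nat_lit 4312642400, nat_lit 6774261600], [], [nat_lit 15186568071, nat_lit 15649359619, nat_lit 14141938923, nat_lit 15013200374, nat_lit 16683256012, nat_lit 17492707300, nat_lit 16042014323, nat_lit 16826998288], nat_lit 1271250, nat_lit 1271250, nat_lit 279600, nat_lit 356250, nat_lit 1271250, nat_lit 1271250, [nat_lit 1100000, nat_lit 1785000], [nat_lit 39, nat_lit 40, nat_lit 20, nat_lit 80]⟩, ⟨p037_k1, nat_lit 0, nat_lit 0, nat_lit 0, nat_lit 0, nat_lit 532436, [nat_lit 4167632000, nat_lit 7083552000], [], [nat_lit 23932154798, nat_lit 19604426092, nat_lit 21337786028, nat_lit 17482994180, nat_lit 21016627840, nat_lit 20072745619, nat_lit 21464220238, nat_lit 19512588040], nat_lit 1271250, nat_lit 1271250, nat_lit 279600, nat_lit 356250, nat_lit 1100001, nat_lit 1785000, [nat_lit 1100000, nat_lit 1785000], [nat_lit 39, nat_lit 40, nat_lit 20, nat_lit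 80]⟩,
 ⟨nat_lit 5477, nat_lit 5701, ⟨.ofNat (nat_lit 272492), .ofNat (nat_lit 295508), .ofNat (nat_lit 293834), .ofNat (nat_lit 316850), .ofNat (nat_lit 279324), .ofNat (nat_lit 301804), .ofNat (nat_lit 300681), .ofNat (nat_lit 323161)⟩, ⟨.ofNat (nat_lit 307921), .ofNat (nat_lit 384640), .ofNat (nat_lit 329263), .ofNat (nat_lit 405982), .ofNat (nat_lit 307785), .ofNat (nat_lit 382718), .ofNat (nat_lit 329142), .ofNat (nat_lit 404075)⟩⟩, [⟨nat_lit 0, nat_lit 100, nat_lit 99, nat_lit 72, nat_lit 184816817⟩, ⟨nat_lit 4, nat_lit 100, nat_lit 94, nat_lit 53, nat_lit 833087378⟩]⟩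
noncomputable def p037_l44 : Lf2 := ⟨nat_lit 0, nat_lit 5, [nat_lit 4, nat_lit 5, nat_lit 5, nat_lit 20], false, nat_lit 200, nat_lit 240, nat_lit 240, nat_lit 268, ⟨nat_lit 616, nat_lit 0, nat_lit 384, nat_lit 6, nat_lit 118, nat_lit 384, nat_lit 143, nat_lit 384, nat_lit 190817, nat_lit 322, nat_lit 129067, nat_lit 303, nat_lit 53250099, nat_lit 0, nat_lit 0, nat_lit 3452118, false, false⟩,
 nat_lit 13053, nat_lit 0, nat_lit 0, nat_lit 0, nat_lit 7597, nat_lit 7597, nat_lit 1424, nat_lit 0, nat_lit 0, nat_lit 734, nat_lit 0, nat_lit 0, nat_lit 0, nat_lit 0, nat_lit 0, nat_lit 384000, nat_lit 0, nat_lit 0, [(nat_lit 9, [(nat_lit 6, nat_lit 384)])],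
 ⟨p037_k1, nat_lit 0, nat_lit 0, nat_lit 0, nat_lit 0, nat_lit 532436, [nat_lit 3389465600, nat_lit 3842691200], [], [nat_lit 17015799955, nat_lit 15337250872, nat_lit 14685552392, nat_lit 14810916318, nat_lit 15610838709, nat_lit 17123922900, nat_lit 15087225406, nat_lit 16535430416], nat_lit 1271250, nat_lit 1271250, nat_lit 279600, nat_lit 356250, nat_lit 1271250, nat_lit 1271250, [nat_lit 1100000, nat_lit 1785000], [nat_lit 39, nat_lit 40, nat_lit 20, nat_lit 80]⟩, ⟨p037_k1, nat_lit 0, nat_lit 0, nat_lit 0, nat_lit 0, nat_lit 532436, [nat_lit 2887808000, nat_lit 4908288000], [], [nat_lit 10308793660, nat_lit 11530698754, nat_lit 9769550608, nat_lit 10911066672, nat_lit 12259435499, nat_lit 13908376191, nat_lit 11488244682, nat_lit 13122821927], nat_lit 1271250, nat_lit 1271250, nat_lit 279600, nat_lit 356250, nat_lit 1271250, nat_lit 1271250, [nat_lit 1100000, nat_lit 1785000], [nat_lit 39, nat_lit 40, nat_lit 20, nat_lit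 80]⟩,
 ⟨nat_lit 5477, nat_lit 5917, ⟨.ofNat (nat_lit 265589), .ofNat (nat_lit 289149), .ofNat (nat_lit 286928), .ofNat (nat_lit 310488), .ofNat (nat_lit 279324), .ofNat (nat_lit 301804), .ofNat (nat_lit 300681), .ofNat (nat_lit 323161)⟩, ⟨.ofNat (nat_lit 307945), .ofNat (nat_lit 386479), .ofNat (nat_lit 329284), .ofNat (nat_lit 407818), .ofNat (nat_lit 307785), .ofNat (nat_lit 382718), .ofNat (nat_lit 329142), .ofNat (nat_lit 404075)⟩⟩, [⟨nat_lit 0, nat_lit 100, nat_lit 100, nat_lit 70, nat_lit 611410806⟩, ⟨nat_lit 4, nat_lit 100, nat_lit 96, nat_lit 54, nat_lit 37277361⟩, ⟨nat_lit 19, nat_lit 96, nat_lit 100, nat_lit 54, nat_lit 946620788⟩]⟩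
noncomputable def p037_l45 : Lf2 := ⟨nat_lit 0, nat_lit 5, [nat_lit 4, nat_lit 5, nat_lit 5, nat_lit 20], true, nat_lit 200, nat_lit 240, nat_lit 0, nat_lit 268, ⟨nat_lit 0, nat_lit 0, nat_lit 1000, nat_lit 6, nat_lit 113, nat_lit 1000, nat_lit 143, nat_lit 1000, nat_lit 190817, nat_lit 322, nat_lit 120417, nat_lit 300, nat_lit 53596771, nat_lit 0, nat_lit 0, nat_lit 3387841, false, false⟩,
 nat_lit 0, nat_lit 275747, nat_lit 0, nat_lit 0, nat_lit 160509, nat_lit 0, nat_lit 60000, nat_lit 8511, nat_lit 0, nat_lit 0, nat_lit 0, nat_lit 0, nat_lit 0, nat_lit 377925338203614, nat_lit 0, nat_lit 1000000, nat_lit 0, nat_lit 0, [(nat_lit 9, [(nat_lit 6, nat_lit 1000)])],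
 ⟨p037_k3, nat_lit 0, nat_lit 0, nat_lit 309, nat_lit 0, nat_lit 532436, [nat_lit 137273600001, nat_lit 169480000000, nat_lit 201682400000], [], [nat_lit 49971064815, nat_lit 30717727471, nat_lit 55453323636, nat_lit 6196318135, nat_lit 27734781219, nat_lit 49270630072, nat_lit 3186139591, nat_lit 17019944035], nat_lit 1271250, nat_lit 1271250, nat_lit 205650, nat_lit 356250, nat_lit 1271250, nat_lit 1271250, [nat_lit 1100000, nat_lit 1442500, nat_lit 1271250], [nat_lit 9, nat_lit 40, nat_lit 20, nat_lit 80, nat_lit 2, nat_lit 289, nat_lit 75, nat_lit 9]⟩, C1.Rw.none,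
 ⟨nat_lit 5477, nat_lit 5917, ⟨.ofNat (nat_lit 242029), .ofNat (nat_lit 289149), .ofNat (nat_lit 263368), .ofNat (nat_lit 310488), .ofNat (nat_lit 256844), .ofNat (nat_lit 301804), .ofNat (nat_lit 278201), .ofNat (nat_lit 323161)⟩, ⟨.ofNat (nat_lit 307945), .ofNat (nat_lit 386479), .ofNat (nat_lit 329284), .ofNat (nat_lit 407818), .ofNat (nat_lit 307785), .ofNat (nat_lit 382718), .ofNat (nat_lit 329142), .ofNat (nat_lit 404075)⟩⟩, [⟨nat_lit 0, nat_lit 100, nat_lit 100, nat_lit 70, nat_lit 3526893853⟩, ⟨nat_lit 0, nat_lit 100, nat_lit 100, nat_lit 80, nat_lit 3303908726⟩, ⟨nat_lit 16, nat_lit 96, nat_lit 100, nat_lit 54, nat_lit 327060162⟩, ⟨nat_lit 4, nat_lit 100, nat_lit 96, nat_lit 54, nat_lit 10416666667⟩]⟩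
noncomputable def p037_l46 : Lf2 := ⟨nat_lit 0, nat_lit 5, [nat_lit 4, nat_lit 5, nat_lit 5, nat_lit 20], false, nat_lit 200, nat_lit 240, nat_lit 0, nat_lit 268, ⟨nat_lit 351, nat_lit 0, nat_lit 649, nat_lit 6, nat_lit 127, nat_lit 649, nat_lit 143, nat_lit 649, nat_lit 190817, nat_lit 322, nat_lit 150417, nat_lit 310, nat_lit 52543763, nat_lit 0, nat_lit 0, nat_lit 3576761, false, false⟩,
 nat_lit 10486, nat_lit 0, nat_lit 0, nat_lit 0, nat_lit 6103, nat_lit 6103, nat_lit 568, nat_lit 0, nat_lit 0, nat_lit 919, nat_lit 0, nat_lit 0, nat_lit 0, nat_lit 0, nat_lit 0, nat_lit 649000, nat_lit 0, nat_lit 0, [(nat_lit 9, [(nat_lit 6, nat_lit 649)])],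
 ⟨p037_k3, nat_lit 0, nat_lit 0, nat_lit 249, nat_lit 0, nat_lit 438797, [nat_lit 2357830401, nat_lit 1713490000, nat_lit 1107620600], [], [nat_lit 13039508478, nat_lit 13540037218, nat_lit 12790084048, nat_lit 13314129517, nat_lit 14551386994, nat_lit 15217786395, nat_lit 14172781946, nat_lit 14802651729], nat_lit 1271250, nat_lit 1271250, nat_lit 356250, nat_lit 490000, nat_lit 1271250, nat_lit 1271250, [nat_lit 1100000, nat_lit 1442500, nat_lit 1271250], [nat_lit 9, nat_lit 40, nat_lit 20, nat_lit 80, nat_lit 2, nat_lit 317, nat_lit 100, nat_lit 10]⟩, ⟨p037_k3, nat_lit 0, nat_lit 0, nat_lit 0, nat_lit 0, nat_lit 438797, [nat_lit 1645488000, nat_lit 2193750000, nat_lit 2796768000], [], [nat_lit 8566676082, nat_lit 9545793269, nat_lit 7516312226, nat_lit 8481801437, nat_lit 8739445290, nat_lit 7655681829, nat_lit 9408042329, nat_lit 8020672361], nat_lit 1271250, nat_lit 1271250, nat_lit 356250, nat_lit 490000, nat_lit 0,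 nat_lit 1892750, [nat_lit 1100000, nat_lit 1442500, nat_lit 1271250], [nat_lit 9, nat_lit 40, nat_lit 20, nat_lit 80]⟩,
 ⟨nat_lit 5700, nat_lit 5917, ⟨.ofNat (nat_lit 289149), .ofNat (nat_lit 328416), .ofNat (nat_lit 299818), .ofNat (nat_lit 339085), .ofNat (nat_lit 295508), .ofNat (nat_lit 333867), .ofNat (nat_lit 306179), .ofNat (nat_lit 344538)⟩, ⟨.ofNat (nat_lit 307945), .ofNat (nat_lit 386479), .ofNat (nat_lit 329284), .ofNat (nat_lit 407818), .ofNat (nat_lit 307921), .ofNat (nat_lit 384640), .ofNat (nat_lit 329263), .ofNat (nat_lit 405982)⟩⟩, [⟨nat_lit 4, nat_lit 100, nat_lit 97, nat_lit 54, nat_lit 490207362⟩, ⟨nat_lit 7, nat_lit 100, nat_lit 97, nat_lit 54, nat_lit 48297610⟩]⟩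
noncomputable def p037_l47 : Lf2 := ⟨nat_lit 0, nat_lit 5, [nat_lit 4, nat_lit 5, nat_lit 5, nat_lit 20], false, nat_lit 200, nat_lit 240, nat_lit 0, nat_lit 268, ⟨nat_lit 460, nat_lit 0, nat_lit 540, nat_lit 6, nat_lit 131, nat_lit 540, nat_lit 143, nat_lit 540, nat_lit 190817, nat_lit 322, nat_lit 160067, nat_lit 313, nat_lit 52225243, nat_lit 0, nat_lit 0, nat_lit 3631115, false, false⟩,
 nat_lit 10885, nat_lit 0, nat_lit 0, nat_lit 0, nat_lit 6629, nat_lit 6336, nat_lit 876, nat_lit 0, nat_lit 0, nat_lit 0, nat_lit 0, nat_lit 0, nat_lit 0, nat_lit 0, nat_lit 0, nat_lit 540000, nat_lit 0, nat_lit 0, [(nat_lit 9, [(nat_lit 6, nat_lit 540)])],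
 ⟨p037_k2, nat_lit 0, nat_lit 0, nat_lit 280, nat_lit 0, nat_lit 505614, [nat_lit 2749184000, nat_lit 2475400001, nat_lit 2253275999], [], [nat_lit 13283504935, nat_lit 13890759892, nat_lit 13034146768, nat_lit 13626920376, nat_lit 15281413985, nat_lit 16242361880, nat_lit 14722318053, nat_lit 15665041596], nat_lit 1271250, nat_lit 1271250, nat_lit 356250, nat_lit 490000, nat_lit 1271250, nat_lit 1271250, [nat_lit 1100000, nat_lit 1442500, nat_lit 1271250], [nat_lit 9, nat_lit 40, nat_lit 20, nat_lit 80, nat_lit 2, nat_lit 317, nat_lit 100, nat_lit 10]⟩, ⟨p037_k12, nat_lit 0, nat_lit 0, nat_lit 0, nat_lit 0, nat_lit 532436, [nat_lit 1824130000, nat_lit 2506770000, nat_lit 3665280000], [], [nat_lit 15010268416, nat_lit 11826044800, nat_lit 11723341696, nat_lit 11070120944, nat_lit 11850699556, nat_lit 9934735914, nat_lit 12633675447, nat_lit 9790443600], nat_lit 1271250, nat_lit 1271250, nat_lit 356250, nat_lit 490000, nat_lit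 0, nat_lit 1892750, [nat_lit 936250, nat_lit 1271250, nat_lit 1271250], [nat_lit 175, nat_lit 40, nat_lit 20, nat_lit 40]⟩,
 ⟨nat_lit 5477, nat_lit 5701, ⟨.ofNat (nat_lit 295508), .ofNat (nat_lit 333867), .ofNat (nat_lit 316850), .ofNat (nat_lit 355209), .ofNat (nat_lit 301804), .ofNat (nat_lit 339271), .ofNat (nat_lit 323161), .ofNat (nat_lit 360628)⟩, ⟨.ofNat (nat_lit 307921), .ofNat (nat_lit 384640), .ofNat (nat_lit 329263), .ofNat (nat_lit 405982), .ofNat (nat_lit 307785), .ofNat (nat_lit 382718), .ofNat (nat_lit 329142), .ofNat (nat_lit 404075)⟩⟩, [⟨nat_lit 4, nat_lit 100, nat_lit 94, nat_lit 53, nat_lit 747421033⟩, ⟨nat_lit 7, nat_lit 100, nat_lit 96, nat_lit 54, nat_lit 39351877⟩]⟩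
noncomputable def p037_l48 : Lf2 := ⟨nat_lit 0, nat_lit 5, [nat_lit 4, nat_lit 5, nat_lit 5, nat_lit 20], false, nat_lit 200, nat_lit 240, nat_lit 0, nat_lit 160, ⟨nat_lit 1000, nat_lit 0, nat_lit 0, nat_lit 0, nat_lit 0, nat_lit 0, nat_lit 0, nat_lit 0, nat_lit 0, nat_lit 0, nat_lit 0, nat_lit 0, nat_lit 0, nat_lit 0, nat_lit 0, nat_lit 0, false, false⟩,
 nat_lit 20984, nat_lit 0, nat_lit 0, nat_lit 0, nat_lit 12214, nat_lit 12214, nat_lit 1552, nat_lit 0, nat_lit 0, nat_lit 2767, nat_lit 0, nat_lit 0, nat_lit 0, nat_lit 0, nat_lit 0, nat_lit 0, nat_lit 0, nat_lit 0, [],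
 ⟨p037_k3, nat_lit 0, nat_lit 0, nat_lit 279, nat_lit 0, nat_lit 532436, [nat_lit 4688000000, nat_lit 6250000000, nat_lit 7968000000], [], [nat_lit 10669970846, nat_lit 12799032864, nat_lit 9643977246, nat_lit 11644820008, nat_lit 13149550660, nat_lit 16003068136, nat_lit 11990651588, nat_lit 14687141408], nat_lit 1271250, nat_lit 1271250, nat_lit 490000, nat_lit 780000, nat_lit 1271250, nat_lit 1271250, [nat_lit 1100000, nat_lit 1442500, nat_lit 1271250], [nat_lit 9, nat_lit 40, nat_lit 20, nat_lit 80, nat_lit 2, nat_lit 317, nat_lit 100, nat_lit 10]⟩, ⟨p037_k3, nat_lit 0, nat_lit 0, nat_lit 0, nat_lit 0, nat_lit 532436, [nat_lit 4688000000, nat_lit 6250000000, nat_lit 7968000000], [], [nat_lit 20772126500, nat_lit 21637886256, nat_lit 15830863048, nat_lit 19777674656, nat_lit 19483566606, nat_lit 13728256522, nat_lit 23378183494, nat_lit 17699870466], nat_lit 1271250, nat_lit 1271250, nat_lit 490000, nat_lit 780000, nat_lit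 0, nat_lit 1100001, [nat_lit 1100000, nat_lit 1442500, nat_lit 1271250], [nat_lit 9, nat_lit 40, nat_lit 20, nat_lit 80]⟩,
 zbF0, [⟨nat_lit 4, nat_lit 100, nat_lit 96, nat_lit 54, nat_lit 1186848176⟩]⟩
noncomputable def p037_l49 : Lf2 := ⟨nat_lit 0, nat_lit 5, [nat_lit 4, nat_lit 5, nat_lit 5, nat_lit 20], false, nat_lit 200, nat_lit 240, nat_lit 160, nat_lit 268, ⟨nat_lit 1000, nat_lit 0, nat_lit 0, nat_lit 0, nat_lit 0, nat_lit 0, nat_lit 0, nat_lit 0, nat_lit 0, nat_lit 0, nat_lit 0, nat_lit 0, nat_lit 0, nat_lit 0, nat_lit 0, nat_lit 0, false, false⟩,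
 nat_lit 17209, nat_lit 0, nat_lit 0, nat_lit 0, nat_lit 10017, nat_lit 10017, nat_lit 1886, nat_lit 0, nat_lit 0, nat_lit 1458, nat_lit 0, nat_lit 0, nat_lit 0, nat_lit 0, nat_lit 0, nat_lit 0, nat_lit 0, nat_lit 0, [],
 ⟨p037_k3, nat_lit 0, nat_lit 0, nat_lit 279, nat_lit 0, nat_lit 532436, [nat_lit 4688000000, nat_lit 6250000000, nat_lit 7968000000], [], [nat_lit 12132842913, nat_lit 13993992014, nat_lit 11449361613, nat_lit 13202859524, nat_lit 14200124494, nat_lit 15871311568, nat_lit 13388404148, nat_lit 14962573080], nat_lit 1271250, nat_lit 1271250, nat_lit 490000, nat_lit 780000, nat_lit 1271250, nat_lit 1271250, [nat_lit 1100000, nat_lit 1442500, nat_lit 1271250], [nat_lit 9, nat_lit 40, nat_lit 20, nat_lit 80, nat_lit 2, nat_lit 317, nat_lit 100, nat_lit 10]⟩, ⟨p037_k3, nat_lit 0, nat_lit 0, nat_lit 0, nat_lit 0, nat_lit 532436, [nat_lit 4688000000, nat_lit 6250000000, nat_lit 7968000000], [], [nat_lit 18475011750,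 nat_lit 13503006742, nat_lit 11374220478, nat_lit 12806216750, nat_lit 19257079966, nat_lit 19132604823, nat_lit 22357974887, nat_lit 18097500635], nat_lit 1271250, nat_lit 1271250, nat_lit 490000, nat_lit 780000, nat_lit 1100001, nat_lit 2024750, [nat_lit 1100000, nat_lit 1442500, nat_lit 1271250], [nat_lit 9, nat_lit 40, nat_lit 20, nat_lit 80]⟩,
 zbF0, [⟨nat_lit 4, nat_lit 100, nat_lit 96, nat_lit 54, nat_lit 776785863⟩, ⟨nat_lit 7, nat_lit 100, nat_lit 96, nat_lit 54, nat_lit 519907062⟩]⟩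
noncomputable def b_VL_600_600_5_54 : St := ⟨true, nat_lit 1, nat_lit 1, nat_lit 1, nat_lit 40, nat_lit 260, nat_lit 280, nat_lit 260, nat_lit 280, nat_lit 36, nat_lit 120, nat_lit 20, nat_lit 40, nat_lit 200, nat_lit 240, nat_lit 0, nat_lit 268, nat_lit 0, nat_lit 20, nat_lit 0, nat_lit 0, nat_lit 0, nat_lit 800⟩
theorem d_VL_600_600_5_54 (h : EB TB.env) : Dead b_VL_600_600_5_54 := chkB_sound0 h (T :=
(.spl (nat_lit 2) (nat_lit 80)
(.spl (nat_lit 2) (nat_lit 60)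
(.spl (nat_lit 7) (nat_lit 600)
(.spl (nat_lit 5) (nat_lit 160)
(.spl (nat_lit 0) (nat_lit 270)
(.ord (.spl (nat_lit 6) (nat_lit 8)
(.spl (nat_lit 5) (nat_lit 80)
(.leaf p037_l33)
(.leaf p037_l34))
(.spl (nat_lit 5) (nat_lit 80)
(.leaf p037_l35)
(.leaf p037_l36))))
(.trZ (nat_lit 0) (nat_lit 100) (nat_lit 98) (nat_lit 64) (nat_lit 40) (.spl (nat_lit 5) (nat_lit 80)
(.leaf p037_l37)
(.leaf p037_l38))))
(.spl (nat_lit 2) (nat_lit 48)
(.spl (nat_lit 5) (nat_lit 240)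
(.spl (nat_lit 5) (nat_lit 200)
(.leaf p037_l39)
(.leaf p037_l40))
(.leaf p037_l41))
(.spl (nat_lit 5) (nat_lit 240)
(.spl (nat_lit 0) (nat_lit 270)
(.ord (.leaf p037_l42))
(.leaf p037_l43))
(.leaf p037_l44))))
(.leaf p037_l45))
(.spl (nat_lit 0) (nat_lit 270)
(.ord (.leaf p037_l46))
(.leaf p037_l47)))
(.spl (nat_lit 5) (nat_lit 160)
(.leaf p037_l48)
(.leaf p037_l49)))) (by decide +kernel)
noncomputable def p037_l50 : Lf2 := ⟨nat_lit 0, nat_lit 10, [nat_lit 0, nat_lit 5, nat_lit 5, nat_lit 20], false, nat_lit 200, nat_lit 240, nat_lit 0, nat_lit 80, ⟨nat_lit 1000, nat_lit 0, nat_lit 0, nat_lit 0, nat_lit 0, nat_lit 0, nat_lit 0, nat_lit 0, nat_lit 0, nat_lit 0, nat_lit 0, nat_lit 0, nat_lit 0, nat_lit 0, nat_lit 0, nat_lit 0, false, false⟩,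
 nat_lit 18177, nat_lit 0, nat_lit 0, nat_lit 0, nat_lit 10580, nat_lit 8826, nat_lit 2173, nat_lit 0, nat_lit 0, nat_lit 532, nat_lit 0, nat_lit 0, nat_lit 0, nat_lit 6991954285571, nat_lit 0, nat_lit 0, nat_lit 0, nat_lit 0, [],
 ⟨p037_k7, nat_lit 0, nat_lit 0, nat_lit 281, nat_lit 0, nat_lit 317662, [nat_lit 4688000000, nat_lit 6250000000, nat_lit 9842000000], [], [nat_lit 15715241956, nat_lit 17475138268, nat_lit 11968927935, nat_lit 13556577235, nat_lit 17520221691, nat_lit 19279799249, nat_lit 13600539275, nat_lit 15022214475], nat_lit 1271250, nat_lit 1271250, nat_lit 205650, nat_lit 780000, nat_lit 1271250, nat_lit 1271250, [nat_lit 1100000, nat_lit 1442500, nat_lit 1271250], [nat_lit 11, nat_lit 40, nat_lit 20, nat_lit 80, nat_lit 1, nat_lit 401, nat_lit 175, nat_lit 11]⟩, ⟨p037_k7, nat_lit 0, nat_lit 0, nat_lit 0, nat_lit 0, nat_lit 317662, [nat_lit 4688000000, nat_lit 6250000000, nat_lit 9842000000], [], [nat_lit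 28493660778, nat_lit 29283716373, nat_lit 25680387476, nat_lit 26395433646, nat_lit 23233147171, nat_lit 23882881004, nat_lit 24138579944, nat_lit 22030542800], nat_lit 1271250, nat_lit 1271250, nat_lit 205650, nat_lit 780000, nat_lit 0, nat_lit 490000, [nat_lit 1100000, nat_lit 1442500, nat_lit 1271250], [nat_lit 11, nat_lit 40, nat_lit 20, nat_lit 80]⟩,
 zbF0, [⟨nat_lit 0, nat_lit 100, nat_lit 99, nat_lit 67, nat_lit 1030151438⟩, ⟨nat_lit 4, nat_lit 100, nat_lit 96, nat_lit 54, nat_lit 849497185⟩]⟩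
noncomputable def p037_l51 : Lf2 := ⟨nat_lit 0, nat_lit 10, [nat_lit 0, nat_lit 5, nat_lit 5, nat_lit 20], false, nat_lit 200, nat_lit 240, nat_lit 80, nat_lit 160, ⟨nat_lit 1000, nat_lit 0, nat_lit 0, nat_lit 0, nat_lit 0, nat_lit 0, nat_lit 0, nat_lit 0, nat_lit 0, nat_lit 0, nat_lit 0, nat_lit 0, nat_lit 0, nat_lit 0, nat_lit 0, nat_lit 0, false, false⟩,
 nat_lit 25248, nat_lit 0, nat_lit 0, nat_lit 0, nat_lit 14696, nat_lit 14696, nat_lit 1325, nat_lit 0, nat_lit 0, nat_lit 2579, nat_lit 0, nat_lit 0, nat_lit 0, nat_lit 0, nat_lit 0, nat_lit 0, nat_lit 0, nat_lit 0, [],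
 ⟨p037_k7, nat_lit 0, nat_lit 0, nat_lit 221, nat_lit 0, nat_lit 294106, [nat_lit 4688000000, nat_lit 6250000000, nat_lit 9842000000], [], [nat_lit 17140427332, nat_lit 19340432706, nat_lit 11295657147, nat_lit 13267884907, nat_lit 19216154255, nat_lit 21170583048, nat_lit 13147774955, nat_lit 14897659995], nat_lit 1271250, nat_lit 1271250, nat_lit 205650, nat_lit 780000, nat_lit 1271250, nat_lit 1271250, [nat_lit 1100000, nat_lit 1442500, nat_lit 1271250], [nat_lit 11, nat_lit 40, nat_lit 20, nat_lit 80, nat_lit 1, nat_lit 401, nat_lit 175, nat_lit 11]⟩, ⟨p037_k7, nat_lit 0, nat_lit 0, nat_lit 0, nat_lit 0, nat_lit 294106, [nat_lit 4688000000, nat_lit 6250000000, nat_lit 9842000000], [], [nat_lit 11730330156, nat_lit 12431644284, nat_lit 5902758101, nat_lit 6535684241, nat_lit 10091806658, nat_lit 10703202147, nat_lit 4470645589, nat_lit 5019288209], nat_lit 1271250, nat_lit 1271250, nat_lit 205650, nat_lit 780000, nat_lit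 490000, nat_lit 1100001, [nat_lit 1100000, nat_lit 1442500, nat_lit 1271250], [nat_lit 11, nat_lit 40, nat_lit 20, nat_lit 80]⟩,
 zbF0, [⟨nat_lit 0, nat_lit 100, nat_lit 97, nat_lit 71, nat_lit 1384384386⟩, ⟨nat_lit 4, nat_lit 100, nat_lit 96, nat_lit 54, nat_lit 855559941⟩]⟩
noncomputable def p037_l52 : Lf2 := ⟨nat_lit 0, nat_lit 10, [nat_lit 0, nat_lit 5, nat_lit 5, nat_lit 20], false, nat_lit 200, nat_lit 240, nat_lit 80, nat_lit 160, ⟨nat_lit 1000, nat_lit 0, nat_lit 0, nat_lit 0, nat_lit 0, nat_lit 0, nat_lit 0, nat_lit 0, nat_lit 0, nat_lit 0, nat_lit 0, nat_lit 0, nat_lit 0, nat_lit 0, nat_lit 0, nat_lit 0, false, false⟩,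
 nat_lit 24453, nat_lit 0, nat_lit 0, nat_lit 0, nat_lit 14561, nat_lit 14561, nat_lit 1362, nat_lit 0, nat_lit 0, nat_lit 2398, nat_lit 0, nat_lit 0, nat_lit 0, nat_lit 0, nat_lit 0, nat_lit 0, nat_lit 0, nat_lit 0, [],
 ⟨p037_k11, nat_lit 0, nat_lit 0, nat_lit 223, nat_lit 0, nat_lit 309238, [nat_lit 4688000000, nat_lit 6250000000, nat_lit 9842000000], [], [nat_lit 16770729659, nat_lit 18405936926, nat_lit 11498812586, nat_lit 12968523112, nat_lit 18776313038, nat_lit 20410778220, nat_lit 13288574565, nat_lit 14592914670], nat_lit 1271250, nat_lit 1271250, nat_lit 230001, nat_lit 780000, nat_lit 1271250, nat_lit 1271250, [nat_lit 1100000, nat_lit 1442500, nat_lit 1271250], [nat_lit 11, nat_lit 40, nat_lit 20, nat_lit 80, nat_lit 1, nat_lit 401, nat_lit 175, nat_lit 11]⟩, ⟨p037_k11, nat_lit 0, nat_lit 0, nat_lit 0, nat_lit 0, nat_lit 309238, [nat_lit 4688000000, nat_lit 6250000000, nat_lit 9842000000], [], [nat_lit 12111127707,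 nat_lit 12806030021, nat_lit 6878931719, nat_lit 7507551021, nat_lit 10449558779, nat_lit 11056065688, nat_lit 5393463107, nat_lit 5938490089], nat_lit 1271250, nat_lit 1271250, nat_lit 230001, nat_lit 780000, nat_lit 490000, nat_lit 1100001, [nat_lit 1100000, nat_lit 1442500, nat_lit 1271250], [nat_lit 11, nat_lit 40, nat_lit 20, nat_lit 80]⟩,
 zbF0, [⟨nat_lit 0, nat_lit 100, nat_lit 99, nat_lit 70, nat_lit 128884127⟩, ⟨nat_lit 0, nat_lit 100, nat_lit 98, nat_lit 74, nat_lit 1191726477⟩, ⟨nat_lit 16, nat_lit 95, nat_lit 100, nat_lit 54, nat_lit 907323918⟩]⟩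
noncomputable def p037_l53 : Lf2 := ⟨nat_lit 0, nat_lit 10, [nat_lit 0, nat_lit 5, nat_lit 5, nat_lit 20], false, nat_lit 200, nat_lit 240, nat_lit 160, nat_lit 240, ⟨nat_lit 236, nat_lit 0, nat_lit 764, nat_lit 6, nat_lit 119, nat_lit 764, nat_lit 143, nat_lit 764, nat_lit 190817, nat_lit 322, nat_lit 132017, nat_lit 304, nat_lit 53179125, nat_lit 0, nat_lit 0, nat_lit 3465032, false, false⟩,
 nat_lit 9023, nat_lit 0, nat_lit 0, nat_lit 0, nat_lit 5252, nat_lit 5252, nat_lit 307, nat_lit 0, nat_lit 0, nat_lit 29, nat_lit 0, nat_lit 0, nat_lit 0, nat_lit 9423393724088, nat_lit 64, nat_lit 764000, nat_lit 0, nat_lit 0, [(nat_lit 9, [(nat_lit 6, nat_lit 764)])],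
 ⟨p037_k7, nat_lit 0, nat_lit 0, nat_lit 281, nat_lit 0, nat_lit 317662, [nat_lit 2968934400, nat_lit 2427498667, nat_lit 147778133], [], [nat_lit 14137106931, nat_lit 15327299383, nat_lit 13168520626, nat_lit 14314656610, nat_lit 15591615089, nat_lit 16833578052, nat_lit 14661875948, nat_lit 15739523044], nat_lit 1271250, nat_lit 1271250, nat_lit 205650, nat_lit 490000, nat_lit 1271250, nat_lit 1271250, [nat_lit 1100000, nat_lit 1442500, nat_lit 1271250], [nat_lit 11, nat_lit 40, nat_lit 20, nat_lit 80, nat_lit 1, nat_lit 373, nat_lit 150, nat_lit 10]⟩, ⟨p037_k13, nat_lit 0, nat_lit 0, nat_lit 0, nat_lit 0, nat_lit 317662, [nat_lit 935858000, nat_lit 1286082000, nat_lit 2322712000], [], [nat_lit 3721448896, nat_lit 4118899452, nat_lit 2164795567, nat_lit 2543815979, nat_lit 4935858510, nat_lit 5251021936, nat_lit 3330477927, nat_lit 3628181967], nat_lit 1271250, nat_lit 1271250, nat_lit 205650, nat_lit 490000, nat_lit 1100001,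 nat_lit 1785000, [nat_lit 936250, nat_lit 1271250, nat_lit 1271250], [nat_lit 169, nat_lit 40, nat_lit 20, nat_lit 40]⟩,
 ⟨nat_lit 5477, nat_lit 5917, ⟨.ofNat (nat_lit 242029), .ofNat (nat_lit 328416), .ofNat (nat_lit 252698), .ofNat (nat_lit 339085), .ofNat (nat_lit 256844), .ofNat (nat_lit 339271), .ofNat (nat_lit 267523), .ofNat (nat_lit 349949)⟩, ⟨.ofNat (nat_lit 307945), .ofNat (nat_lit 386479), .ofNat (nat_lit 329284), .ofNat (nat_lit 407818), .ofNat (nat_lit 307785), .ofNat (nat_lit 382718), .ofNat (nat_lit 329142), .ofNat (nat_lit 404075)⟩⟩, [⟨nat_lit 0, nat_lit 100, nat_lit 99, nat_lit 67, nat_lit 552161289⟩, ⟨nat_lit 4, nat_lit 100, nat_lit 96, nat_lit 54, nat_lit 373617034⟩, ⟨nat_lit 7, nat_lit 100, nat_lit 97, nat_lit 54, nat_lit 221864867⟩]⟩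
noncomputable def p037_l54 : Lf2 := ⟨nat_lit 0, nat_lit 10, [nat_lit 0, nat_lit 5, nat_lit 5, nat_lit 20], false, nat_lit 200, nat_lit 240, nat_lit 160, nat_lit 240, ⟨nat_lit 1000, nat_lit 0, nat_lit 0, nat_lit 0, nat_lit 0, nat_lit 0, nat_lit 0, nat_lit 0, nat_lit 0, nat_lit 0, nat_lit 0, nat_lit 0, nat_lit 0, nat_lit 0, nat_lit 0, nat_lit 0, false, false⟩,
 nat_lit 24030, nat_lit 0, nat_lit 0, nat_lit 0, nat_lit 13987, nat_lit 13987, nat_lit 1931, nat_lit 0, nat_lit 0, nat_lit 1774, nat_lit 0, nat_lit 0, nat_lit 0, nat_lit 0, nat_lit 0, nat_lit 0, nat_lit 0, nat_lit 0, [],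
 ⟨p037_k7, nat_lit 0, nat_lit 0, nat_lit 200, nat_lit 0, nat_lit 317662, [nat_lit 4688000000, nat_lit 6250000000, nat_lit 9842000000], [], [nat_lit 11158294733, nat_lit 13188779587, nat_lit 9587728834, nat_lit 11493711179, nat_lit 13114796797, nat_lit 16110377188, nat_lit 11485243754, nat_lit 14469190064], nat_lit 1271250, nat_lit 1271250, nat_lit 490000, nat_lit 780000, nat_lit 1271250, nat_lit 1271250, [nat_lit 1100000, nat_lit 1442500, nat_lit 1271250], [nat_lit 11, nat_lit 40, nat_lit 20, nat_lit 80, nat_lit 1, nat_lit 401, nat_lit 175, nat_lit 11]⟩, ⟨p037_k13, nat_lit 0, nat_lit 0, nat_lit 0, nat_lit 0, nat_lit 317662, [nat_lit 3965500000, nat_lit 5449500000, nat_lit 9842000000], [], [nat_lit 14193659250, nat_lit 10841147536, nat_lit 8285322408, nat_lit 9344630063, nat_lit 13626524922, nat_lit 14529957859, nat_lit 11913591510, nat_lit 12977216909], nat_lit 1271250, nat_lit 1271250, nat_lit 490000, nat_lit 780000, nat_lit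 1100001, nat_lit 1785000, [nat_lit 936250, nat_lit 1271250, nat_lit 1271250], [nat_lit 169, nat_lit 40, nat_lit 20, nat_lit 40]⟩,
 zbF0, [⟨nat_lit 4, nat_lit 100, nat_lit 96, nat_lit 54, nat_lit 1118632797⟩, ⟨nat_lit 7, nat_lit 100, nat_lit 97, nat_lit 54, nat_lit 556705150⟩]⟩
noncomputable def p037_l55 : Lf2 := ⟨nat_lit 0, nat_lit 10, [nat_lit 0, nat_lit 5, nat_lit 5, nat_lit 20], false, nat_lit 200, nat_lit 240, nat_lit 240, nat_lit 268, ⟨nat_lit 234, nat_lit 0, nat_lit 766, nat_lit 6, nat_lit 134, nat_lit 766, nat_lit 143, nat_lit 766, nat_lit 190817, nat_lit 322, nat_lit 170017, nat_lit 316, nat_lit 51987108, nat_lit 0, nat_lit 0, nat_lit 3670203, false, false⟩,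
 nat_lit 9218, nat_lit 0, nat_lit 0, nat_lit 0, nat_lit 5365, nat_lit 5365, nat_lit 289, nat_lit 0, nat_lit 0, nat_lit 0, nat_lit 0, nat_lit 0, nat_lit 0, nat_lit 0, nat_lit 65, nat_lit 766000, nat_lit 0, nat_lit 0, [(nat_lit 9, [(nat_lit 6, nat_lit 766)])],
 ⟨p037_k7, nat_lit 0, nat_lit 0, nat_lit 281, nat_lit 0, nat_lit 317662, [nat_lit 2977753601, nat_lit 2434141334, nat_lit 146117866], [], [nat_lit 14125631582, nat_lit 15327906718, nat_lit 13038075796, nat_lit 14163365500, nat_lit 15587572789, nat_lit 16885459245, nat_lit 14497231970, nat_lit 15529081810], nat_lit 1271250, nat_lit 1271250, nat_lit 205650, nat_lit 780000, nat_lit 1271250, nat_lit 1271250, [nat_lit 1100000, nat_lit 1442500, nat_lit 1271250], [nat_lit 11, nat_lit 40, nat_lit 20, nat_lit 80, nat_lit 1, nat_lit 401, nat_lit 175, nat_lit 11]⟩, ⟨p037_k13, nat_lit 0, nat_lit 0, nat_lit 0, nat_lit 0, nat_lit 317662, [nat_lit 927927000, nat_lit 1275183000, nat_lit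 2303028000], [], [nat_lit 4946066324, nat_lit 5264593549, nat_lit 2520554776, nat_lit 2802086368, nat_lit 6179266615, nat_lit 6693945337, nat_lit 3438631164, nat_lit 3904864640], nat_lit 1271250, nat_lit 1271250, nat_lit 205650, nat_lit 780000, nat_lit 1271250, nat_lit 1271250, [nat_lit 936250, nat_lit 1271250, nat_lit 1271250], [nat_lit 169, nat_lit 40, nat_lit 20, nat_lit 40]⟩,
 ⟨nat_lit 5477, nat_lit 5917, ⟨.ofNat (nat_lit 242029), .ofNat (nat_lit 406949), .ofNat (nat_lit 252698), .ofNat (nat_lit 417619), .ofNat (nat_lit 256844), .ofNat (nat_lit 414204), .ofNat (nat_lit 267523), .ofNat (nat_lit 424882)⟩, ⟨.ofNat (nat_lit 307945), .ofNat (nat_lit 386479), .ofNat (nat_lit 329284), .ofNat (nat_lit 407818), .ofNat (nat_lit 307785), .ofNat (nat_lit 382718), .ofNat (nat_lit 329142), .ofNat (nat_lit 404075)⟩⟩, [⟨nat_lit 0, nat_lit 100, nat_lit 99, nat_lit 67, nat_lit 466379856⟩, ⟨nat_lit 4, nat_lit 100, nat_lit 96, nat_lit 54,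 nat_lit 86992031⟩, ⟨nat_lit 7, nat_lit 100, nat_lit 97, nat_lit 54, nat_lit 607116087⟩]⟩
noncomputable def p037_l56 : Lf2 := ⟨nat_lit 0, nat_lit 10, [nat_lit 0, nat_lit 5, nat_lit 5, nat_lit 20], false, nat_lit 200, nat_lit 240, nat_lit 0, nat_lit 160, ⟨nat_lit 1000, nat_lit 0, nat_lit 0, nat_lit 0, nat_lit 0, nat_lit 0, nat_lit 0, nat_lit 0, nat_lit 0, nat_lit 0, nat_lit 0, nat_lit 0, nat_lit 0, nat_lit 0, nat_lit 0, nat_lit 0, false, false⟩,
 nat_lit 14646, nat_lit 0, nat_lit 0, nat_lit 0, nat_lit 8919, nat_lit 8919, nat_lit 2286, nat_lit 0, nat_lit 0, nat_lit 344, nat_lit 0, nat_lit 0, nat_lit 0, nat_lit 1997689482707, nat_lit 0, nat_lit 0, nat_lit 0, nat_lit 0, [],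
 ⟨p037_k8, nat_lit 0, nat_lit 0, nat_lit 223, nat_lit 0, nat_lit 324154, [nat_lit 4688000000, nat_lit 6250000000, nat_lit 9842000000], [], [nat_lit 15166434241, nat_lit 15950313080, nat_lit 12965691666, nat_lit 13681918548, nat_lit 16774993167, nat_lit 17557671101, nat_lit 14436704900, nat_lit 15092189168], nat_lit 1271250, nat_lit 1271250, nat_lit 279600, nat_lit 780000, nat_lit 1271250, nat_lit 1271250, [nat_lit 1100000, nat_lit 1442500, nat_lit 1271250], [nat_lit 11, nat_lit 40, nat_lit 20, nat_lit 80, nat_lit 1, nat_lit 401, nat_lit 175, nat_lit 11]⟩, ⟨p037_k8, nat_lit 0, nat_lit 0, nat_lit 0, nat_lit 0, nat_lit 324154, [nat_lit 4688000000, nat_lit 6250000000, nat_lit 9842000000], [], [nat_lit 29412452038, nat_lit 29489131897, nat_lit 26927187749, nat_lit 27286898427, nat_lit 24515452997, nat_lit 23639445627, nat_lit 29306375705, nat_lit 28269760471], nat_lit 1271250, nat_lit 1271250, nat_lit 279600, nat_lit 780000,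 nat_lit 0, nat_lit 1100001, [nat_lit 1100000, nat_lit 1442500, nat_lit 1271250], [nat_lit 11, nat_lit 40, nat_lit 20, nat_lit 80]⟩,
 zbF0, [⟨nat_lit 0, nat_lit 100, nat_lit 99, nat_lit 74, nat_lit 475849549⟩, ⟨nat_lit 4, nat_lit 100, nat_lit 94, nat_lit 53, nat_lit 834658226⟩]⟩
noncomputable def p037_l57 : Lf2 := ⟨nat_lit 0, nat_lit 10, [nat_lit 0, nat_lit 5, nat_lit 5, nat_lit 20], false, nat_lit 200, nat_lit 240, nat_lit 160, nat_lit 260, ⟨nat_lit 258, nat_lit 0, nat_lit 742, nat_lit 6, nat_lit 143, nat_lit 742, nat_lit 143, nat_lit 742, nat_lit 190817, nat_lit 322, nat_lit 190817, nat_lit 322, nat_lit 51293706, nat_lit 0, nat_lit 0, nat_lit 3780065, false, false⟩,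
 nat_lit 8585, nat_lit 0, nat_lit 0, nat_lit 0, nat_lit 5228, nat_lit 5228, nat_lit 381, nat_lit 0, nat_lit 0, nat_lit 3, nat_lit 0, nat_lit 0, nat_lit 0, nat_lit 6625465823427, nat_lit 52, nat_lit 742000, nat_lit 0, nat_lit 0, [(nat_lit 9, [(nat_lit 6, nat_lit 742)])],
 ⟨p037_k8, nat_lit 0, nat_lit 0, nat_lit 223, nat_lit 0, nat_lit 324154, [nat_lit 2855923200, nat_lit 2334429334, nat_lit 138041066], [], [nat_lit 14254951677, nat_lit 14843765227, nat_lit 13902196137, nat_lit 14493115032, nat_lit 15693978590, nat_lit 16346654001, nat_lit 15426604808, nat_lit 15977836224], nat_lit 1271250, nat_lit 1271250, nat_lit 279600, nat_lit 780000, nat_lit 1271250, nat_lit 1271250, [nat_lit 1100000, nat_lit 1442500, nat_lit 1271250], [nat_lit 11, nat_lit 40, nat_lit 20, nat_lit 80, nat_lit 1, nat_lit 401, nat_lit 175, nat_lit 11]⟩, ⟨p037_k8, nat_lit 0, nat_lit 0, nat_lit 0, nat_lit 0, nat_lit 324154, [nat_lit 1209504000, nat_lit 1612500000,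 nat_lit 2539236000], [], [nat_lit 4852432390, nat_lit 4544686977, nat_lit 2653536867, nat_lit 2833557903, nat_lit 6141410268, nat_lit 6289194762, nat_lit 4251458534, nat_lit 4382026759], nat_lit 1271250, nat_lit 1271250, nat_lit 279600, nat_lit 780000, nat_lit 1100001, nat_lit 1956250, [nat_lit 1100000, nat_lit 1442500, nat_lit 1271250], [nat_lit 11, nat_lit 40, nat_lit 20, nat_lit 80]⟩,
 ⟨nat_lit 5477, nat_lit 5701, ⟨.ofNat (nat_lit 283163), .ofNat (nat_lit 421257), .ofNat (nat_lit 288499), .ofNat (nat_lit 426593), .ofNat (nat_lit 290003), .ofNat (nat_lit 424882), .ofNat (nat_lit 295342), .ofNat (nat_lit 430221)⟩, ⟨.ofNat (nat_lit 307921), .ofNat (nat_lit 384640), .ofNat (nat_lit 329263), .ofNat (nat_lit 405982), .ofNat (nat_lit 307785), .ofNat (nat_lit 382718), .ofNat (nat_lit 329142), .ofNat (nat_lit 404075)⟩⟩, [⟨nat_lit 0, nat_lit 100, nat_lit 99, nat_lit 74, nat_lit 408675942⟩, ⟨nat_lit 16, nat_lit 94, nat_lit 100,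 nat_lit 53, nat_lit 394712490⟩, ⟨nat_lit 7, nat_lit 100, nat_lit 95, nat_lit 54, nat_lit 242087841⟩]⟩
noncomputable def p037_l58 : Lf2 := ⟨nat_lit 0, nat_lit 10, [nat_lit 0, nat_lit 5, nat_lit 5, nat_lit 20], false, nat_lit 200, nat_lit 240, nat_lit 0, nat_lit 160, ⟨nat_lit 1000, nat_lit 0, nat_lit 0, nat_lit 0, nat_lit 0, nat_lit 0, nat_lit 0, nat_lit 0, nat_lit 0, nat_lit 0, nat_lit 0, nat_lit 0, nat_lit 0, nat_lit 0, nat_lit 0, nat_lit 0, false, false⟩,
 nat_lit 14364, nat_lit 0, nat_lit 0, nat_lit 0, nat_lit 8943, nat_lit 8943, nat_lit 2181, nat_lit 0, nat_lit 0, nat_lit 990, nat_lit 0, nat_lit 0, nat_lit 0, nat_lit 1055083478948, nat_lit 0, nat_lit 0, nat_lit 0, nat_lit 0, [],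
 ⟨p037_k14, nat_lit 0, nat_lit 0, nat_lit 223, nat_lit 0, nat_lit 338794, [nat_lit 4688000000, nat_lit 6250000000, nat_lit 9842000000], [], [nat_lit 15055743830, nat_lit 15445593620, nat_lit 13268962080, nat_lit 13627636131, nat_lit 16619343736, nat_lit 17006951141, nat_lit 14705207880, nat_lit 15089238896], nat_lit 1271250, nat_lit 1271250, nat_lit 330400, nat_lit 780000, nat_lit 1271250, nat_lit 1271250, [nat_lit 1100000, nat_lit 1442500, nat_lit 1271250], [nat_lit 11, nat_lit 40, nat_lit 20, nat_lit 80, nat_lit 1, nat_lit 401, nat_lit 175, nat_lit 11]⟩, ⟨p037_k14, nat_lit 0, nat_lit 0, nat_lit 0, nat_lit 0, nat_lit 338794, [nat_lit 4688000000, nat_lit 6250000000, nat_lit 9842000000], [], [nat_lit 26393762769, nat_lit 26394876281, nat_lit 23708601175, nat_lit 24182300250, nat_lit 21707036057, nat_lit 20644879524, nat_lit 26204718739, nat_lit 25165314092], nat_lit 1271250, nat_lit 1271250, nat_lit 330400, nat_lit 780000,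 nat_lit 0, nat_lit 1100001, [nat_lit 1100000, nat_lit 1442500, nat_lit 1271250], [nat_lit 11, nat_lit 40, nat_lit 20, nat_lit 80]⟩,
 zbF0, [⟨nat_lit 0, nat_lit 100, nat_lit 100, nat_lit 77, nat_lit 413247504⟩, ⟨nat_lit 4, nat_lit 100, nat_lit 93, nat_lit 53, nat_lit 832228083⟩]⟩
noncomputable def p037_l59 : Lf2 := ⟨nat_lit 0, nat_lit 10, [nat_lit 0, nat_lit 5, nat_lit 5, nat_lit 20], false, nat_lit 200, nat_lit 240, nat_lit 160, nat_lit 252, ⟨nat_lit 1000, nat_lit 0, nat_lit 0, nat_lit 0, nat_lit 0, nat_lit 0, nat_lit 0, nat_lit 0, nat_lit 0, nat_lit 0, nat_lit 0, nat_lit 0, nat_lit 0, nat_lit 0, nat_lit 0, nat_lit 0, false, false⟩,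
 nat_lit 19432, nat_lit 0, nat_lit 0, nat_lit 0, nat_lit 12098, nat_lit 12098, nat_lit 1707, nat_lit 0, nat_lit 0, nat_lit 1172, nat_lit 0, nat_lit 0, nat_lit 0, nat_lit 0, nat_lit 0, nat_lit 0, nat_lit 0, nat_lit 0, [],
 ⟨p037_k14, nat_lit 0, nat_lit 0, nat_lit 223, nat_lit 0, nat_lit 338794, [nat_lit 4688000000, nat_lit 6250000000, nat_lit 9842000000], [], [nat_lit 15439824658, nat_lit 15912302794, nat_lit 12569275484, nat_lit 13001646391, nat_lit 17172853270, nat_lit 17793114040, nat_lit 14142138305, nat_lit 14701401056], nat_lit 1271250, nat_lit 1271250, nat_lit 330400, nat_lit 780000, nat_lit 1271250, nat_lit 1271250, [nat_lit 1100000, nat_lit 1442500, nat_lit 1271250], [nat_lit 11, nat_lit 40, nat_lit 20, nat_lit 80, nat_lit 1, nat_lit 401, nat_lit 175, nat_lit 11]⟩, ⟨p037_k14, nat_lit 0, nat_lit 0, nat_lit 0, nat_lit 0, nat_lit 338794, [nat_lit 4688000000, nat_lit 6250000000, nat_lit 9842000000], [], [nat_lit 18999776374,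 nat_lit 17434085879, nat_lit 13449053287, nat_lit 13928114972, nat_lit 20615496964, nat_lit 21019990292, nat_lit 17501592299, nat_lit 17871407787], nat_lit 1271250, nat_lit 1271250, nat_lit 330400, nat_lit 780000, nat_lit 1100001, nat_lit 1887750, [nat_lit 1100000, nat_lit 1442500, nat_lit 1271250], [nat_lit 11, nat_lit 40, nat_lit 20, nat_lit 80]⟩,
 zbF0, [⟨nat_lit 0, nat_lit 100, nat_lit 100, nat_lit 75, nat_lit 1095070104⟩, ⟨nat_lit 16, nat_lit 93, nat_lit 100, nat_lit 53, nat_lit 875196888⟩, ⟨nat_lit 7, nat_lit 100, nat_lit 93, nat_lit 53, nat_lit 599806894⟩]⟩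
noncomputable def b_VL_600_600_5_55 : St := ⟨true, nat_lit 1, nat_lit 1, nat_lit 1, nat_lit 40, nat_lit 260, nat_lit 280, nat_lit 260, nat_lit 280, nat_lit 36, nat_lit 120, nat_lit 20, nat_lit 40, nat_lit 200, nat_lit 240, nat_lit 0, nat_lit 268, nat_lit 20, nat_lit 40, nat_lit 0, nat_lit 0, nat_lit 0, nat_lit 800⟩
theorem d_VL_600_600_5_55 (h : EB TB.env) : Dead b_VL_600_600_5_55 := chkB_sound0 h (T :=
(.spl (nat_lit 1) (nat_lit 270)
(.spl (nat_lit 5) (nat_lit 160)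
(.spl (nat_lit 5) (nat_lit 80)
(.leaf p037_l50)
(.spl (nat_lit 1) (nat_lit 265)
(.leaf p037_l51)
(.ord (.trZ (nat_lit 0) (nat_lit 100) (nat_lit 100) (nat_lit 65) (nat_lit 40) (.leaf p037_l52)))))
(.spl (nat_lit 5) (nat_lit 240)
(.spl (nat_lit 2) (nat_lit 80)
(.leaf p037_l53)
(.leaf p037_l54))
(.leaf p037_l55)))
(.ord (.trZ (nat_lit 0) (nat_lit 100) (nat_lit 100) (nat_lit 70) (nat_lit 48) (.trX (nat_lit 19) (nat_lit 98) (nat_lit 100) (nat_lit 63) (nat_lit 260) (.spl (nat_lit 1) (nat_lit 275)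
(.spl (nat_lit 5) (nat_lit 160)
(.leaf p037_l56)
(.leaf p037_l57))
(.ord (.trZ (nat_lit 0) (nat_lit 100) (nat_lit 100) (nat_lit 75) (nat_lit 56) (.trX (nat_lit 19) (nat_lit 96) (nat_lit 100) (nat_lit 62) (nat_lit 252) (.spl (nat_lit 5) (nat_lit 160)
(.leaf p037_l58)
(.leaf p037_l59))))))))))) (by decide +kernel)
noncomputable def p037_l60 : Lf2 := ⟨nat_lit 0, nat_lit 10, [nat_lit 0, nat_lit 5, nat_lit 5, nat_lit 20], false, nat_lit 160, nat_lit 240, nat_lit 0, nat_lit 160, ⟨nat_lit 0, nat_lit 0, nat_lit 1000, nat_lit 6, nat_lit 136, nat_lit 1000, nat_lit 127, nat_lit 1000, nat_lit 153600, nat_lit 311, nat_lit 173400, nat_lit 317, nat_lit 53052579, nat_lit 0, nat_lit 0, nat_lit 3497549, false, false⟩,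
 nat_lit 420453, nat_lit 0, nat_lit 0, nat_lit 0, nat_lit 86919, nat_lit 244741, nat_lit 0, nat_lit 0, nat_lit 0, nat_lit 60000, nat_lit 20000, nat_lit 0, nat_lit 0, nat_lit 0, nat_lit 56, nat_lit 219125, nat_lit 41374051962, nat_lit 0, [(nat_lit 9, [(nat_lit 3, nat_lit 475), (nat_lit 4, nat_lit 525)])],
 ⟨p037_k7, nat_lit 0, nat_lit 0, nat_lit 423, nat_lit 0, nat_lit 570775, [nat_lit 24565440000, nat_lit 1083690001, nat_lit 24670000], [], [nat_lit 113072453326, nat_lit 67738284334, nat_lit 0, nat_lit 18946871486, nat_lit 79227752156, nat_lit 95703040389, nat_lit 32069445660, nat_lit 46877857130], nat_lit 1271250, nat_lit 1271250, nat_lit 205650, nat_lit 780000, nat_lit 1100001, nat_lit 1785000, [nat_lit 1100000, nat_lit 1442500, nat_lit 1271250], [nat_lit 11, nat_lit 40, nat_lit 20, nat_lit 80, nat_lit 1, nat_lit 401, nat_lit 175, nat_lit 11]⟩, ⟨p037_k7, nat_lit 0, nat_lit 0, nat_lit 516, nat_lit 0, nat_lit 570775, [nat_lit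 320000000000, nat_lit 400000000000, nat_lit 560000000000], [], [nat_lit 972275229596, nat_lit 844626155708, nat_lit 648027861614, nat_lit 658415159136, nat_lit 625523157105, nat_lit 557841720034, nat_lit 702986914186, nat_lit 589206333804], nat_lit 1271250, nat_lit 1271250, nat_lit 205650, nat_lit 780000, nat_lit 0, nat_lit 1100001, [nat_lit 1100000, nat_lit 1442500, nat_lit 1271250], [nat_lit 11, nat_lit 40, nat_lit 20, nat_lit 80, nat_lit 1, nat_lit 373, nat_lit 150, nat_lit 11]⟩,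
 ⟨nat_lit 5477, nat_lit 5917, ⟨.ofNat (nat_lit 242029), .ofNat (nat_lit 406949), .ofNat (nat_lit 263368), .ofNat (nat_lit 428288), .ofNat (nat_lit 256844), .ofNat (nat_lit 414204), .ofNat (nat_lit 278201), .ofNat (nat_lit 435561)⟩, ⟨.ofNat (nat_lit 229411), .ofNat (nat_lit 386479), .ofNat (nat_lit 250751), .ofNat (nat_lit 407818), .ofNat (nat_lit 232852), .ofNat (nat_lit 382718), .ofNat (nat_lit 254209), .ofNat (nat_lit 404075)⟩⟩, [⟨nat_lit 4, nat_lit 100, nat_lit 96, nat_lit 54, nat_lit 3293258470⟩]⟩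
noncomputable def p037_l61 : Lf2 := ⟨nat_lit 0, nat_lit 10, [nat_lit 0, nat_lit 5, nat_lit 5, nat_lit 20], false, nat_lit 160, nat_lit 240, nat_lit 160, nat_lit 268, ⟨nat_lit 0, nat_lit 0, nat_lit 1000, nat_lit 6, nat_lit 136, nat_lit 1000, nat_lit 127, nat_lit 1000, nat_lit 153600, nat_lit 311, nat_lit 173400, nat_lit 317, nat_lit 53052579, nat_lit 0, nat_lit 0, nat_lit 3497549, false, false⟩,
 nat_lit 607568, nat_lit 0, nat_lit 0, nat_lit 0, nat_lit 16136, nat_lit 353658, nat_lit 0, nat_lit 0, nat_lit 0, nat_lit 60000, nat_lit 20000, nat_lit 0, nat_lit 0, nat_lit 0, nat_lit 192, nat_lit 1000000, nat_lit 0, nat_lit 0, [(nat_lit 9, [(nat_lit 6, nat_lit 1000)])],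
 ⟨p037_k7, nat_lit 0, nat_lit 0, nat_lit 423, nat_lit 0, nat_lit 570775, [nat_lit 4169600001, nat_lit 3411333334, nat_lit 231866666], [], [nat_lit 23004529218, nat_lit 14588507970, nat_lit 2808555072, nat_lit 6962204256, nat_lit 18158018999, nat_lit 21830701082, nat_lit 10872654112, nat_lit 14205017792], nat_lit 1271250, nat_lit 1271250, nat_lit 205650, nat_lit 780000, nat_lit 1100001, nat_lit 1785000, [nat_lit 1100000, nat_lit 1442500, nat_lit 1271250], [nat_lit 11, nat_lit 40, nat_lit 20, nat_lit 80, nat_lit 1, nat_lit 401, nat_lit 175, nat_lit 11]⟩, ⟨p037_k7, nat_lit 0, nat_lit 0, nat_lit 423, nat_lit 0, nat_lit 570775, [nat_lit 320000000000, nat_lit 400000000000, nat_lit 560000000000], [], [nat_lit 321875623786, nat_lit 203178506962, nat_lit 46357637580, nat_lit 59074270904, nat_lit 200323755375, nat_lit 211191121082, nat_lit 54701961685, nat_lit 62855228582], nat_lit 1271250, nat_lit 1271250, nat_lit 205650, nat_lit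 780000, nat_lit 1100001, nat_lit 2024750, [nat_lit 1100000, nat_lit 1442500, nat_lit 1271250], [nat_lit 11, nat_lit 40, nat_lit 20, nat_lit 80, nat_lit 1, nat_lit 401, nat_lit 175, nat_lit 11]⟩,
 ⟨nat_lit 5477, nat_lit 5917, ⟨.ofNat (nat_lit 242029), .ofNat (nat_lit 406949), .ofNat (nat_lit 263368), .ofNat (nat_lit 428288), .ofNat (nat_lit 256844), .ofNat (nat_lit 414204), .ofNat (nat_lit 278201), .ofNat (nat_lit 435561)⟩, ⟨.ofNat (nat_lit 229411), .ofNat (nat_lit 386479), .ofNat (nat_lit 250751), .ofNat (nat_lit 407818), .ofNat (nat_lit 232852), .ofNat (nat_lit 382718), .ofNat (nat_lit 254209), .ofNat (nat_lit 404075)⟩⟩, [⟨nat_lit 0, nat_lit 100, nat_lit 100, nat_lit 80, nat_lit 9395739513⟩, ⟨nat_lit 4, nat_lit 100, nat_lit 96, nat_lit 54, nat_lit 799048839⟩, ⟨nat_lit 19, nat_lit 96, nat_lit 100, nat_lit 54, nat_lit 10416666667⟩, ⟨nat_lit 7, nat_lit 100, nat_lit 96, nat_lit 54, nat_lit 5395580397⟩]⟩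
noncomputable def b_VL_600_600_5_56 : St := ⟨true, nat_lit 1, nat_lit 1, nat_lit 1, nat_lit 40, nat_lit 260, nat_lit 280, nat_lit 260, nat_lit 280, nat_lit 36, nat_lit 120, nat_lit 20, nat_lit 40, nat_lit 160, nat_lit 240, nat_lit 0, nat_lit 268, nat_lit 0, nat_lit 40, nat_lit 0, nat_lit 0, nat_lit 800, nat_lit 0⟩
theorem d_VL_600_600_5_56 (h : EB TB.env) : Dead b_VL_600_600_5_56 := chkB_sound0 h (T :=
(.spl (nat_lit 5) (nat_lit 160)
(.leaf p037_l60)
(.leaf p037_l61))) (by decide +kernel)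
noncomputable def p037_l62 : Lf2 := ⟨nat_lit 0, nat_lit 10, [nat_lit 0, nat_lit 5, nat_lit 5, nat_lit 20], false, nat_lit 160, nat_lit 240, nat_lit 0, nat_lit 160, ⟨nat_lit 1000, nat_lit 0, nat_lit 0, nat_lit 0, nat_lit 0, nat_lit 0, nat_lit 0, nat_lit 0, nat_lit 0, nat_lit 0, nat_lit 0, nat_lit 0, nat_lit 0, nat_lit 0, nat_lit 0, nat_lit 0, false, false⟩,
 nat_lit 19422, nat_lit 0, nat_lit 0, nat_lit 0, nat_lit 11305, nat_lit 6687, nat_lit 2701, nat_lit 0, nat_lit 0, nat_lit 808, nat_lit 0, nat_lit 0, nat_lit 0, nat_lit 349746583186, nat_lit 0, nat_lit 0, nat_lit 0, nat_lit 0, [],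
 ⟨p037_k7, nat_lit 0, nat_lit 0, nat_lit 335, nat_lit 0, nat_lit 570775, [nat_lit 4688000000, nat_lit 6250000000, nat_lit 9842000000], [], [nat_lit 7493696245, nat_lit 9324988895, nat_lit 8619419665, nat_lit 9774338000, nat_lit 15555689325, nat_lit 14798882960, nat_lit 20430208515, nat_lit 15143540980], nat_lit 1271250, nat_lit 1271250, nat_lit 780000, nat_lit 1100001, nat_lit 1100001, nat_lit 1785000, [nat_lit 1100000, nat_lit 1442500, nat_lit 1271250], [nat_lit 11, nat_lit 40, nat_lit 20, nat_lit 80, nat_lit 1, nat_lit 401, nat_lit 175, nat_lit 11]⟩, ⟨p037_k7, nat_lit 0, nat_lit 0, nat_lit 470, nat_lit 0, nat_lit 570775, [nat_lit 4688000000, nat_lit 6250000000, nat_lit 9842000000], [], [nat_lit 36923134074, nat_lit 33387463068, nat_lit 31473857034, nat_lit 32193580052, nat_lit 28631705498, nat_lit 29087624848, nat_lit 32211342050, nat_lit 29102542376], nat_lit 1271250, nat_lit 1271250, nat_lit 780000, nat_lit 1100001,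 nat_lit 0, nat_lit 1100001, [nat_lit 1100000, nat_lit 1442500, nat_lit 1271250], [nat_lit 11, nat_lit 40, nat_lit 20, nat_lit 80, nat_lit 1, nat_lit 373, nat_lit 150, nat_lit 11]⟩,
 zbF0, [⟨nat_lit 4, nat_lit 100, nat_lit 96, nat_lit 54, nat_lit 1055514726⟩]⟩
noncomputable def p037_l63 : Lf2 := ⟨nat_lit 0, nat_lit 10, [nat_lit 0, nat_lit 5, nat_lit 5, nat_lit 20], false, nat_lit 160, nat_lit 240, nat_lit 160, nat_lit 268, ⟨nat_lit 1000, nat_lit 0, nat_lit 0, nat_lit 0, nat_lit 0, nat_lit 0, nat_lit 0, nat_lit 0, nat_lit 0, nat_lit 0, nat_lit 0, nat_lit 0, nat_lit 0, nat_lit 0, nat_lit 0, nat_lit 0, false, false⟩,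
 nat_lit 24102, nat_lit 0, nat_lit 0, nat_lit 0, nat_lit 14029, nat_lit 14029, nat_lit 1577, nat_lit 0, nat_lit 0, nat_lit 2233, nat_lit 0, nat_lit 0, nat_lit 0, nat_lit 0, nat_lit 0, nat_lit 0, nat_lit 0, nat_lit 0, [],
 ⟨p037_k7, nat_lit 0, nat_lit 0, nat_lit 335, nat_lit 0, nat_lit 570775, [nat_lit 4688000000, nat_lit 6250000000, nat_lit 9842000000], [], [nat_lit 9133990561, nat_lit 11257105331, nat_lit 9120480957, nat_lit 11076914559, nat_lit 12766759795, nat_lit 14464027088, nat_lit 18193412167, nat_lit 14643512644], nat_lit 1271250, nat_lit 1271250, nat_lit 780000, nat_lit 1100001, nat_lit 1100001, nat_lit 1785000, [nat_lit 1100000, nat_lit 1442500, nat_lit 1271250], [nat_lit 11, nat_lit 40, nat_lit 20, nat_lit 80, nat_lit 1, nat_lit 401, nat_lit 175, nat_lit 11]⟩, ⟨p037_k7, nat_lit 0, nat_lit 0, nat_lit 335, nat_lit 0, nat_lit 570775, [nat_lit 4688000000, nat_lit 6250000000, nat_lit 9842000000], [], [nat_lit 6532540561,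 nat_lit 8655655331, nat_lit 6519030957, nat_lit 8572509200, nat_lit 16939334344, nat_lit 18402996808, nat_lit 22807330597, nat_lit 18295403110], nat_lit 1271250, nat_lit 1271250, nat_lit 780000, nat_lit 1100001, nat_lit 1100001, nat_lit 2024750, [nat_lit 1100000, nat_lit 1442500, nat_lit 1271250], [nat_lit 11, nat_lit 40, nat_lit 20, nat_lit 80, nat_lit 1, nat_lit 428, nat_lit 200, nat_lit 12]⟩,
 zbF0, [⟨nat_lit 16, nat_lit 96, nat_lit 100, nat_lit 54, nat_lit 771454198⟩, ⟨nat_lit 7, nat_lit 100, nat_lit 96, nat_lit 54, nat_lit 1279079969⟩]⟩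
noncomputable def b_VL_600_600_5_57 : St := ⟨true, nat_lit 1, nat_lit 1, nat_lit 1, nat_lit 40, nat_lit 260, nat_lit 280, nat_lit 260, nat_lit 280, nat_lit 120, nat_lit 160, nat_lit 20, nat_lit 40, nat_lit 160, nat_lit 240, nat_lit 0, nat_lit 268, nat_lit 0, nat_lit 40, nat_lit 0, nat_lit 0, nat_lit 0, nat_lit 0⟩
theorem d_VL_600_600_5_57 (h : EB TB.env) : Dead b_VL_600_600_5_57 := chkB_sound0 h (T :=
(.spl (nat_lit 5) (nat_lit 160)
(.leaf p037_l62)
(.leaf p037_l63))) (by decide +kernel)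
noncomputable def p037_l64 : Lf2 := ⟨nat_lit 0, nat_lit 10, [nat_lit 0, nat_lit 5, nat_lit 5, nat_lit 20], false, nat_lit 160, nat_lit 200, nat_lit 0, nat_lit 160, ⟨nat_lit 1000, nat_lit 0, nat_lit 0, nat_lit 0, nat_lit 0, nat_lit 0, nat_lit 0, nat_lit 0, nat_lit 0, nat_lit 0, nat_lit 0, nat_lit 0, nat_lit 0, nat_lit 0, nat_lit 0, nat_lit 0, false, false⟩,
 nat_lit 10840, nat_lit 0, nat_lit 0, nat_lit 0, nat_lit 3692, nat_lit 5738, nat_lit 1093, nat_lit 0, nat_lit 0, nat_lit 755, nat_lit 0, nat_lit 0, nat_lit 0, nat_lit 0, nat_lit 0, nat_lit 0, nat_lit 0, nat_lit 0, [],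
 ⟨p037_k15, nat_lit 0, nat_lit 0, nat_lit 321, nat_lit 0, nat_lit 415503, [nat_lit 4688000000, nat_lit 7968000001, nat_lit 11872000000], [], [nat_lit 30314029280, nat_lit 28361928584, nat_lit 28999243697, nat_lit 29773449673, nat_lit 27940544020, nat_lit 28628323256, nat_lit 31745997384, nat_lit 30744339369], nat_lit 1271250, nat_lit 1271250, nat_lit 1100001, nat_lit 1785000, nat_lit 1100001, nat_lit 1442500, [nat_lit 1100000, nat_lit 1785000, nat_lit 1271250], [nat_lit 21, nat_lit 40, nat_lit 20, nat_lit 80, nat_lit 14, nat_lit 401, nat_lit 175, nat_lit 10]⟩, ⟨p037_k15, nat_lit 0, nat_lit 0, nat_lit 429, nat_lit 0, nat_lit 415503, [nat_lit 4688000000, nat_lit 7968000000, nat_lit 11872000000], [], [nat_lit 38119805920, nat_lit 36010070172, nat_lit 36822777684, nat_lit 37423997028, nat_lit 32708571044, nat_lit 33306758416, nat_lit 37348657480, nat_lit 34644877452], nat_lit 1271250, nat_lit 1271250, nat_lit 1100001, nat_lit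 1785000, nat_lit 0, nat_lit 1100001, [nat_lit 1100000, nat_lit 1785000, nat_lit 1271250], [nat_lit 21, nat_lit 40, nat_lit 20, nat_lit 80, nat_lit 14, nat_lit 401, nat_lit 175, nat_lit 10]⟩,
 zbF0, []⟩
noncomputable def p037_l65 : Lf2 := ⟨nat_lit 0, nat_lit 10, [nat_lit 0, nat_lit 5, nat_lit 5, nat_lit 20], false, nat_lit 200, nat_lit 240, nat_lit 0, nat_lit 160, ⟨nat_lit 1000, nat_lit 0, nat_lit 0, nat_lit 0, nat_lit 0, nat_lit 0, nat_lit 0, nat_lit 0, nat_lit 0, nat_lit 0, nat_lit 0, nat_lit 0, nat_lit 0, nat_lit 0, nat_lit 0, nat_lit 0, false, false⟩,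
 nat_lit 13837, nat_lit 0, nat_lit 0, nat_lit 0, nat_lit 7325, nat_lit 5142, nat_lit 1058, nat_lit 0, nat_lit 0, nat_lit 1031, nat_lit 0, nat_lit 0, nat_lit 0, nat_lit 19567588511627, nat_lit 0, nat_lit 0, nat_lit 0, nat_lit 0, [],
 ⟨p037_k15, nat_lit 0, nat_lit 0, nat_lit 257, nat_lit 0, nat_lit 415503, [nat_lit 4688000000, nat_lit 7968000001, nat_lit 11872000000], [], [nat_lit 28162435300, nat_lit 24346857450, nat_lit 23578389150, nat_lit 23927575725, nat_lit 22340387700, nat_lit 23118240300, nat_lit 23975901100, nat_lit 24746324250], nat_lit 1271250, nat_lit 1271250, nat_lit 1100001, nat_lit 1785000, nat_lit 1271250, nat_lit 1271250, [nat_lit 1100000, nat_lit 1785000, nat_lit 1271250], [nat_lit 21, nat_lit 40, nat_lit 20, nat_lit 80, nat_lit 14, nat_lit 428, nat_lit 200, nat_lit 10]⟩, ⟨p037_k15, nat_lit 0, nat_lit 0, nat_lit 429, nat_lit 0, nat_lit 415503, [nat_lit 4688000000, nat_lit 7968000000, nat_lit 11872000000],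 [], [nat_lit 37211597280, nat_lit 35262231548, nat_lit 36123737156, nat_lit 36711315252, nat_lit 32530601396, nat_lit 33114428744, nat_lit 37509899320, nat_lit 35086958068], nat_lit 1271250, nat_lit 1271250, nat_lit 1100001, nat_lit 1785000, nat_lit 0, nat_lit 1100001, [nat_lit 1100000, nat_lit 1785000, nat_lit 1271250], [nat_lit 21, nat_lit 40, nat_lit 20, nat_lit 80, nat_lit 14, nat_lit 401, nat_lit 175, nat_lit 10]⟩,
 zbF0, []⟩
noncomputable def p037_l66 : Lf2 := ⟨nat_lit 0, nat_lit 10, [nat_lit 0, nat_lit 5, nat_lit 5, nat_lit 20], false, nat_lit 160, nat_lit 240, nat_lit 160, nat_lit 240, ⟨nat_lit 1000, nat_lit 0, nat_lit 0, nat_lit 0, nat_lit 0, nat_lit 0, nat_lit 0, nat_lit 0, nat_lit 0, nat_lit 0, nat_lit 0, nat_lit 0, nat_lit 0, nat_lit 0, nat_lit 0, nat_lit 0, false, false⟩,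
 nat_lit 8751, nat_lit 0, nat_lit 0, nat_lit 5291, nat_lit 4632, nat_lit 4632, nat_lit 1096, nat_lit 0, nat_lit 0, nat_lit 1096, nat_lit 0, nat_lit 0, nat_lit 0, nat_lit 0, nat_lit 0, nat_lit 0, nat_lit 0, nat_lit 0, [],
 ⟨p037_k15, nat_lit 0, nat_lit 0, nat_lit 321, nat_lit 0, nat_lit 415503, [nat_lit 4688000000, nat_lit 7968000001, nat_lit 11872000000], [], [nat_lit 31746438880, nat_lit 29297324464, nat_lit 27120117312, nat_lit 27796221713, nat_lit 27120117312, nat_lit 27796221713, nat_lit 32523126337, nat_lit 30279580081], nat_lit 1271250, nat_lit 1271250, nat_lit 1100001, nat_lit 1785000, nat_lit 1100001, nat_lit 1785000, [nat_lit 1100000, nat_lit 1785000, nat_lit 1271250], [nat_lit 21, nat_lit 40, nat_lit 20, nat_lit 80, nat_lit 14, nat_lit 428, nat_lit 200, nat_lit 10]⟩, ⟨p037_k15, nat_lit 0, nat_lit 0, nat_lit 321, nat_lit 0, nat_lit 415503, [nat_lit 4688000000, nat_lit 7968000000, nat_lit 11872000000], [], [nat_lit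 31746438880, nat_lit 29297324464, nat_lit 27120117312, nat_lit 27796221712, nat_lit 27120117312, nat_lit 27796221712, nat_lit 32523126336, nat_lit 30279580080], nat_lit 1271250, nat_lit 1271250, nat_lit 1100001, nat_lit 1785000, nat_lit 1100001, nat_lit 1785000, [nat_lit 1100000, nat_lit 1785000, nat_lit 1271250], [nat_lit 21, nat_lit 40, nat_lit 20, nat_lit 80, nat_lit 14, nat_lit 428, nat_lit 200, nat_lit 10]⟩,
 zbF0, []⟩
noncomputable def p037_l67 : Lf2 := ⟨nat_lit 0, nat_lit 10, [nat_lit 0, nat_lit 5, nat_lit 5, nat_lit 20], false, nat_lit 160, nat_lit 240, nat_lit 240, nat_lit 288, ⟨nat_lit 1000, nat_lit 0, nat_lit 0, nat_lit 0, nat_lit 0, nat_lit 0, nat_lit 0, nat_lit 0, nat_lit 0, nat_lit 0, nat_lit 0, nat_lit 0, nat_lit 0, nat_lit 0, nat_lit 0, nat_lit 0, false, false⟩,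
 nat_lit 20868, nat_lit 0, nat_lit 0, nat_lit 0, nat_lit 5507, nat_lit 11047, nat_lit 1132, nat_lit 0, nat_lit 0, nat_lit 1537, nat_lit 0, nat_lit 0, nat_lit 0, nat_lit 0, nat_lit 0, nat_lit 0, nat_lit 0, nat_lit 0, [],
 ⟨p037_k15, nat_lit 0, nat_lit 0, nat_lit 321, nat_lit 0, nat_lit 415503, [nat_lit 4688000000, nat_lit 7968000001, nat_lit 11872000000], [], [nat_lit 33079798880, nat_lit 30168038714, nat_lit 25586767977, nat_lit 25955716963, nat_lit 25586767977, nat_lit 25955716963, nat_lit 32517480837, nat_lit 29850121331], nat_lit 1271250, nat_lit 1271250, nat_lit 1100001, nat_lit 1785000, nat_lit 1100001, nat_lit 1785000, [nat_lit 1100000, nat_lit 1785000, nat_lit 1271250], [nat_lit 21, nat_lit 40, nat_lit 20, nat_lit 80, nat_lit 14, nat_lit 428, nat_lit 200, nat_lit 10]⟩, ⟨p037_k15, nat_lit 0, nat_lit 0, nat_lit 264, nat_lit 0, nat_lit 415503, [nat_lit 4688000000, nat_lit 7968000000, nat_lit 11872000000], [], [nat_lit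 15741781432, nat_lit 16881737172, nat_lit 23482137280, nat_lit 19572890694, nat_lit 19380717784, nat_lit 20683414705, nat_lit 21628609741, nat_lit 22669102624], nat_lit 1271250, nat_lit 1271250, nat_lit 1100001, nat_lit 1785000, nat_lit 1271250, nat_lit 1271250, [nat_lit 1100000, nat_lit 1785000, nat_lit 1271250], [nat_lit 21, nat_lit 40, nat_lit 20, nat_lit 80, nat_lit 14, nat_lit 428, nat_lit 200, nat_lit 10]⟩,
 zbF0, [⟨nat_lit 7, nat_lit 99, nat_lit 100, nat_lit 54, nat_lit 1170830684⟩]⟩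
noncomputable def p037_l68 : Lf2 := ⟨nat_lit 0, nat_lit 10, [nat_lit 0, nat_lit 5, nat_lit 5, nat_lit 20], false, nat_lit 160, nat_lit 200, nat_lit 0, nat_lit 288, ⟨nat_lit 1000, nat_lit 0, nat_lit 0, nat_lit 0, nat_lit 0, nat_lit 0, nat_lit 0, nat_lit 0, nat_lit 0, nat_lit 0, nat_lit 0, nat_lit 0, nat_lit 0, nat_lit 0, nat_lit 0, nat_lit 0, false, false⟩,
 nat_lit 15347, nat_lit 0, nat_lit 0, nat_lit 0, nat_lit 8933, nat_lit 8124, nat_lit 1246, nat_lit 0, nat_lit 0, nat_lit 1316, nat_lit 0, nat_lit 0, nat_lit 0, nat_lit 0, nat_lit 0, nat_lit 0, nat_lit 0, nat_lit 0, [],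
 ⟨p037_k7, nat_lit 0, nat_lit 0, nat_lit 323, nat_lit 0, nat_lit 570775, [nat_lit 4688000000, nat_lit 6250000000, nat_lit 9842000000], [], [nat_lit 24732087988, nat_lit 20079978114, nat_lit 19379162252, nat_lit 18638812632, nat_lit 19439611863, nat_lit 18887503814, nat_lit 24452119010, nat_lit 20184092404], nat_lit 1271250, nat_lit 1271250, nat_lit 1100001, nat_lit 1442500, nat_lit 1100001, nat_lit 1442500, [nat_lit 1100000, nat_lit 1442500, nat_lit 1271250], [nat_lit 11, nat_lit 40, nat_lit 20, nat_lit 80, nat_lit 1, nat_lit 401, nat_lit 175, nat_lit 11]⟩, ⟨p037_k16, nat_lit 0, nat_lit 0, nat_lit 552, nat_lit 0, nat_lit 638933, [nat_lit 4688000000, nat_lit 6250000000, nat_lit 11872000000], [], [nat_lit 41755688160, nat_lit 33164753136, nat_lit 33164753136, nat_lit 30829914380, nat_lit 30083669837, nat_lit 27598508851, nat_lit 34946686874, nat_lit 27556016214], nat_lit 1271250, nat_lit 1271250, nat_lit 1100001, nat_lit 1442500,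 nat_lit 0, nat_lit 2034000, [nat_lit 1100000, nat_lit 1442500, nat_lit 1271250], [nat_lit 48, nat_lit 40, nat_lit 20, nat_lit 80, nat_lit 12, nat_lit 428, nat_lit 200, nat_lit 11]⟩,
 zbF0, []⟩
noncomputable def p037_l69 : Lf2 := ⟨nat_lit 0, nat_lit 10, [nat_lit 0, nat_lit 5, nat_lit 5, nat_lit 20], false, nat_lit 160, nat_lit 200, nat_lit 0, nat_lit 288, ⟨nat_lit 1000, nat_lit 0, nat_lit 0, nat_lit 0, nat_lit 0, nat_lit 0, nat_lit 0, nat_lit 0, nat_lit 0, nat_lit 0, nat_lit 0, nat_lit 0, nat_lit 0, nat_lit 0, nat_lit 0, nat_lit 0, false, false⟩,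
 nat_lit 20046, nat_lit 0, nat_lit 0, nat_lit 0, nat_lit 11668, nat_lit 10612, nat_lit 1918, nat_lit 0, nat_lit 0, nat_lit 1890, nat_lit 0, nat_lit 0, nat_lit 0, nat_lit 0, nat_lit 0, nat_lit 0, nat_lit 0, nat_lit 0, [],
 ⟨p037_k7, nat_lit 0, nat_lit 0, nat_lit 317, nat_lit 0, nat_lit 570775, [nat_lit 4688000000, nat_lit 6250000000, nat_lit 9842000000], [], [nat_lit 11963967250, nat_lit 13055845170, nat_lit 13409340674, nat_lit 15076907248, nat_lit 12796326886, nat_lit 14208169368, nat_lit 14948188396, nat_lit 17133296856], nat_lit 1271250, nat_lit 1271250, nat_lit 1271250, nat_lit 1271250, nat_lit 1100001, nat_lit 1442500, [nat_lit 1100000, nat_lit 1442500, nat_lit 1271250], [nat_lit 11, nat_lit 40, nat_lit 20, nat_lit 80, nat_lit 1, nat_lit 428, nat_lit 200, nat_lit 12]⟩, ⟨p037_k16, nat_lit 0, nat_lit 0, nat_lit 542, nat_lit 0, nat_lit 638933, [nat_lit 4688000000, nat_lit 6250000000, nat_lit 11872000000], [], [nat_lit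 34325066768, nat_lit 27409838686, nat_lit 26338143982, nat_lit 29032811486, nat_lit 26002557357, nat_lit 22238875557, nat_lit 21483575339, nat_lit 23416399232], nat_lit 1271250, nat_lit 1271250, nat_lit 1271250, nat_lit 1271250, nat_lit 0, nat_lit 2034000, [nat_lit 1100000, nat_lit 1442500, nat_lit 1271250], [nat_lit 48, nat_lit 40, nat_lit 20, nat_lit 80, nat_lit 12, nat_lit 456, nat_lit 225, nat_lit 12]⟩,
 zbF0, [⟨nat_lit 19, nat_lit 98, nat_lit 100, nat_lit 54, nat_lit 106118076⟩]⟩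
noncomputable def p037_l70 : Lf2 := ⟨nat_lit 0, nat_lit 10, [nat_lit 0, nat_lit 5, nat_lit 5, nat_lit 20], false, nat_lit 200, nat_lit 240, nat_lit 0, nat_lit 288, ⟨nat_lit 961, nat_lit 0, nat_lit 39, nat_lit 6, nat_lit 226, nat_lit 39, nat_lit 143, nat_lit 39, nat_lit 190817, nat_lit 322, nat_lit 56426, nat_lit 200, nat_lit 44304737, nat_lit 0, nat_lit 0, nat_lit 4577187, false, false⟩,
 nat_lit 14649, nat_lit 0, nat_lit 0, nat_lit 0, nat_lit 8526, nat_lit 7755, nat_lit 2335, nat_lit 0, nat_lit 0, nat_lit 89, nat_lit 0, nat_lit 0, nat_lit 0, nat_lit 0, nat_lit 0, nat_lit 15600, nat_lit 0, nat_lit 0, [(nat_lit 9, [(nat_lit 5, nat_lit 39)])],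
 ⟨p037_k7, nat_lit 0, nat_lit 0, nat_lit 319, nat_lit 0, nat_lit 570775, [nat_lit 4564697600, nat_lit 6001128000, nat_lit 9363516800], [], [nat_lit 14853905907, nat_lit 14520302170, nat_lit 22082201943, nat_lit 18063940773, nat_lit 14610169570, nat_lit 15653665336, nat_lit 17675594804, nat_lit 19274998048], nat_lit 1271250, nat_lit 1271250, nat_lit 1100001, nat_lit 1785000, nat_lit 1271250, nat_lit 1271250, [nat_lit 1100000, nat_lit 1442500, nat_lit 1271250], [nat_lit 11, nat_lit 40, nat_lit 20, nat_lit 80, nat_lit 1, nat_lit 428, nat_lit 200, nat_lit 12]⟩, ⟨p037_k16, nat_lit 0, nat_lit 0, nat_lit 552, nat_lit 0, nat_lit 638933, [nat_lit 4505168000, nat_lit 6006250000, nat_lit 11408992000], [], [nat_lit 40047726732, nat_lit 35000685851, nat_lit 34845109627, nat_lit 36126167755, nat_lit 34924015128, nat_lit 32303278961, nat_lit 31880293423, nat_lit 32552486663], nat_lit 1271250, nat_lit 1271250, nat_lit 1271250, nat_lit 1271250,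 nat_lit 0, nat_lit 2034000, [nat_lit 1100000, nat_lit 1442500, nat_lit 1271250], [nat_lit 48, nat_lit 40, nat_lit 20, nat_lit 80, nat_lit 12, nat_lit 456, nat_lit 225, nat_lit 12]⟩,
 ⟨nat_lit 5477, nat_lit 5917, ⟨.ofNat (nat_lit 464143), .ofNat (nat_lit 621176), .ofNat (nat_lit 506809), .ofNat (nat_lit 663838), .ofNat (nat_lit 467780), .ofNat (nat_lit 617611), .ofNat (nat_lit 510480), .ofNat (nat_lit 660309)⟩, ⟨.ofNat (nat_lit 307945), .ofNat (nat_lit 386479), .ofNat (nat_lit 329284), .ofNat (nat_lit 407818), .ofNat (nat_lit 307785), .ofNat (nat_lit 382718), .ofNat (nat_lit 329142), .ofNat (nat_lit 404075)⟩⟩, [⟨nat_lit 4, nat_lit 100, nat_lit 96, nat_lit 54, nat_lit 668074288⟩, ⟨nat_lit 19, nat_lit 98, nat_lit 100, nat_lit 54, nat_lit 154790235⟩]⟩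
noncomputable def b_VL_600_600_5_58 : St := ⟨true, nat_lit 1, nat_lit 1, nat_lit 1, nat_lit 40, nat_lit 240, nat_lit 280, nat_lit 240, nat_lit 280, nat_lit 160, nat_lit 240, nat_lit 20, nat_lit 40, nat_lit 160, nat_lit 240, nat_lit 0, nat_lit 288, nat_lit 0, nat_lit 40, nat_lit 0, nat_lit 0, nat_lit 0, nat_lit 0⟩
theorem d_VL_600_600_5_58 (h : EB TB.env) : Dead b_VL_600_600_5_58 := chkB_sound0 h (T :=
(.spl (nat_lit 0) (nat_lit 260)
(.ord (.spl (nat_lit 5) (nat_lit 160)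
(.spl (nat_lit 4) (nat_lit 200)
(.leaf p037_l64)
(.leaf p037_l65))
(.spl (nat_lit 5) (nat_lit 240)
(.leaf p037_l66)
(.leaf p037_l67))))
(.spl (nat_lit 4) (nat_lit 200)
(.spl (nat_lit 2) (nat_lit 200)
(.leaf p037_l68)
(.leaf p037_l69))
(.leaf p037_l70)))) (by decide +kernel)
noncomputable def p037_l71 : Lf2 := ⟨nat_lit 0, nat_lit 2, [nat_lit 10, nat_lit 5, nat_lit 5, nat_lit 20], true, nat_lit 240, nat_lit 260, nat_lit 0, nat_lit 288, ⟨nat_lit 0, nat_lit 0, nat_lit 1000, nat_lit 6, nat_lit 78, nat_lit 1000, nat_lit 168, nat_lit 1000, nat_lit 212817, nat_lit 328, nat_lit 58017, nat_lit 274, nat_lit 53689047, nat_lit 0, nat_lit 0, nat_lit 3203192, false, false⟩,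
 nat_lit 0, nat_lit 6332, nat_lit 0, nat_lit 0, nat_lit 3352, nat_lit 0, nat_lit 88, nat_lit 0, nat_lit 0, nat_lit 0, nat_lit 0, nat_lit 0, nat_lit 0, nat_lit 8374950735295, nat_lit 44, nat_lit 1000000, nat_lit 0, nat_lit 0, [(nat_lit 6, [(nat_lit 6, nat_lit 1000)])],
 ⟨p037_k17, nat_lit 0, nat_lit 0, nat_lit 0, nat_lit 0, nat_lit 248070, [nat_lit 1260800001, nat_lit 1544800000, nat_lit 688000000, nat_lit 17600000], [], [nat_lit 14770372545, nat_lit 15297495136, nat_lit 14419600449, nat_lit 14892221665, nat_lit 15841921088, nat_lit 16343715104, nat_lit 15379161473, nat_lit 15850327360], nat_lit 1271250, nat_lit 1271250, nat_lit 88400, nat_lit 230001, nat_lit 1271250, nat_lit 1271250, [nat_lit 780000, nat_lit 1100000, nat_lit 1442500, nat_lit 1271250], [nat_lit 249, nat_lit 10, nat_lit 4, nat_lit 20]⟩, C1.Rw.none,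
 ⟨nat_lit 6123, nat_lit 6325, ⟨.ofNat (nat_lit 164319), .ofNat (nat_lit 213677), .ofNat (nat_lit 169661), .ofNat (nat_lit 219019), .ofNat (nat_lit 172944), .ofNat (nat_lit 221172), .ofNat (nat_lit 178281), .ofNat (nat_lit 226509)⟩, ⟨.ofNat (nat_lit 389952), .ofNat (nat_lit 431084), .ofNat (nat_lit 411320), .ofNat (nat_lit 452452), .ofNat (nat_lit 388246), .ofNat (nat_lit 428436), .ofNat (nat_lit 409594), .ofNat (nat_lit 449785)⟩⟩, [⟨nat_lit 0, nat_lit 100, nat_lit 100, nat_lit 44, nat_lit 187504376⟩, ⟨nat_lit 16, nat_lit 100, nat_lit 97, nat_lit 54, nat_lit 383101782⟩]⟩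
noncomputable def p037_l72 : Lf2 := ⟨nat_lit 0, nat_lit 1, [nat_lit 19, nat_lit 5, nat_lit 5, nat_lit 20], true, nat_lit 260, nat_lit 288, nat_lit 0, nat_lit 232, ⟨nat_lit 0, nat_lit 0, nat_lit 1000, nat_lit 6, nat_lit 68, nat_lit 1000, nat_lit 188, nat_lit 1000, nat_lit 29345, nat_lit 255, nat_lit 43350, nat_lit 266, nat_lit 52328185, nat_lit 0, nat_lit 0, nat_lit 3290673, false, false⟩,
 nat_lit 0, nat_lit 6705, nat_lit 0, nat_lit 0, nat_lit 3549, nat_lit 0, nat_lit 0, nat_lit 0, nat_lit 0, nat_lit 0, nat_lit 0, nat_lit 0, nat_lit 0, nat_lit 11143084307541, nat_lit 10, nat_lit 1000000, nat_lit 0, nat_lit 0, [(nat_lit 6, [(nat_lit 6, nat_lit 1000)])],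
 ⟨p037_k18, nat_lit 0, nat_lit 0, nat_lit 0, nat_lit 0, nat_lit 202031, [nat_lit 596400000, nat_lit 1109200000, nat_lit 8000000], [], [nat_lit 15817725354, nat_lit 16086466866, nat_lit 15650050286, nat_lit 15918584027, nat_lit 17447156625, nat_lit 17699596722, nat_lit 17277948675, nat_lit 17527440936], nat_lit 1271250, nat_lit 1271250, nat_lit 88400, nat_lit 111251, nat_lit 1271250, nat_lit 1271250, [nat_lit 490000, nat_lit 1100000, nat_lit 1442500], [nat_lit 6, nat_lit 40, nat_lit 20, nat_lit 40]⟩, C1.Rw.none,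
 ⟨nat_lit 6224, nat_lit 6325, ⟨.ofNat (nat_lit 164319), .ofNat (nat_lit 172545), .ofNat (nat_lit 165387), .ofNat (nat_lit 173614), .ofNat (nat_lit 168651), .ofNat (nat_lit 176782), .ofNat (nat_lit 169718), .ofNat (nat_lit 177850)⟩, ⟨.ofNat (nat_lit 431084), .ofNat (nat_lit 488669), .ofNat (nat_lit 452452), .ofNat (nat_lit 510037), .ofNat (nat_lit 429765), .ofNat (nat_lit 486687), .ofNat (nat_lit 451122), .ofNat (nat_lit 508044)⟩⟩, [⟨nat_lit 0, nat_lit 100, nat_lit 100, nat_lit 41, nat_lit 320530883⟩, ⟨nat_lit 16, nat_lit 100, nat_lit 92, nat_lit 61, nat_lit 42025568⟩, ⟨nat_lit 4, nat_lit 96, nat_lit 100, nat_lit 54, nat_lit 440219276⟩]⟩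
noncomputable def p037_l73 : Lf2 := ⟨nat_lit 0, nat_lit 1, [nat_lit 19, nat_lit 5, nat_lit 5, nat_lit 20], true, nat_lit 260, nat_lit 288, nat_lit 0, nat_lit 256, ⟨nat_lit 0, nat_lit 0, nat_lit 1000, nat_lit 6, nat_lit 75, nat_lit 1000, nat_lit 188, nat_lit 1000, nat_lit 29345, nat_lit 255, nat_lit 52267, nat_lit 271, nat_lit 51961902, nat_lit 0, nat_lit 0, nat_lit 3386224, false, false⟩,
 nat_lit 0, nat_lit 6790, nat_lit 0, nat_lit 0, nat_lit 3594, nat_lit 0, nat_lit 0, nat_lit 0, nat_lit 0, nat_lit 0, nat_lit 0, nat_lit 0, nat_lit 0, nat_lit 5819756173007, nat_lit 10, nat_lit 1000000, nat_lit 0, nat_lit 0, [(nat_lit 6, [(nat_lit 6, nat_lit 1000)])],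
 ⟨p037_k18, nat_lit 0, nat_lit 0, nat_lit 0, nat_lit 0, nat_lit 202031, [nat_lit 596400000, nat_lit 1109200000, nat_lit 8000000], [], [nat_lit 15624013916, nat_lit 15893896386, nat_lit 15366725157, nat_lit 15634838641, nat_lit 17260668927, nat_lit 17512267160, nat_lit 16991942484, nat_lit 17241060181], nat_lit 1271250, nat_lit 1271250, nat_lit 111251, nat_lit 181601, nat_lit 1271250, nat_lit 1271250, [nat_lit 490000, nat_lit 1100000, nat_lit 1442500], [nat_lit 6, nat_lit 40, nat_lit 20, nat_lit 40]⟩, C1.Rw.none,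
 ⟨nat_lit 6224, nat_lit 6325, ⟨.ofNat (nat_lit 172545), .ofNat (nat_lit 197224), .ofNat (nat_lit 173614), .ofNat (nat_lit 198293), .ofNat (nat_lit 176782), .ofNat (nat_lit 201178), .ofNat (nat_lit 177850), .ofNat (nat_lit 202245)⟩, ⟨.ofNat (nat_lit 431084), .ofNat (nat_lit 488669), .ofNat (nat_lit 452452), .ofNat (nat_lit 510037), .ofNat (nat_lit 429765), .ofNat (nat_lit 486687), .ofNat (nat_lit 451122), .ofNat (nat_lit 508044)⟩⟩, [⟨nat_lit 16, nat_lit 100, nat_lit 92, nat_lit 61, nat_lit 15498157⟩, ⟨nat_lit 4, nat_lit 96, nat_lit 100, nat_lit 54, nat_lit 472580997⟩]⟩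
noncomputable def p037_l74 : Lf2 := ⟨nat_lit 0, nat_lit 1, [nat_lit 19, nat_lit 5, nat_lit 5, nat_lit 20], true, nat_lit 260, nat_lit 288, nat_lit 0, nat_lit 268, ⟨nat_lit 0, nat_lit 0, nat_lit 1000, nat_lit 6, nat_lit 83, nat_lit 1000, nat_lit 188, nat_lit 1000, nat_lit 29345, nat_lit 255, nat_lit 64067, nat_lit 277, nat_lit 51485029, nat_lit 0, nat_lit 0, nat_lit 3503946, false, false⟩,
 nat_lit 0, nat_lit 7046, nat_lit 0, nat_lit 0, nat_lit 3730, nat_lit 0, nat_lit 0, nat_lit 0, nat_lit 0, nat_lit 0, nat_lit 0, nat_lit 0, nat_lit 0, nat_lit 5449413654132, nat_lit 10, nat_lit 1000000, nat_lit 0, nat_lit 0, [(nat_lit 6, [(nat_lit 6, nat_lit 1000)])],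
 ⟨p037_k18, nat_lit 0, nat_lit 0, nat_lit 0, nat_lit 0, nat_lit 202031, [nat_lit 596400000, nat_lit 1109200000, nat_lit 8000000], [], [nat_lit 15270991220, nat_lit 15543146305, nat_lit 15088101220, nat_lit 15359053943, nat_lit 16922434799, nat_lit 17217141794, nat_lit 16731760873, nat_lit 16983347479], nat_lit 1271250, nat_lit 1271250, nat_lit 181601, nat_lit 230001, nat_lit 1271250, nat_lit 1271250, [nat_lit 490000, nat_lit 1100000, nat_lit 1442500], [nat_lit 6, nat_lit 40, nat_lit 20, nat_lit 40]⟩, C1.Rw.none,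
 ⟨nat_lit 6224, nat_lit 6325, ⟨.ofNat (nat_lit 197224), .ofNat (nat_lit 213677), .ofNat (nat_lit 198293), .ofNat (nat_lit 214746), .ofNat (nat_lit 201178), .ofNat (nat_lit 217441), .ofNat (nat_lit 202245), .ofNat (nat_lit 218509)⟩, ⟨.ofNat (nat_lit 431084), .ofNat (nat_lit 488669), .ofNat (nat_lit 452452), .ofNat (nat_lit 510037), .ofNat (nat_lit 429765), .ofNat (nat_lit 486687), .ofNat (nat_lit 451122), .ofNat (nat_lit 508044)⟩⟩, [⟨nat_lit 4, nat_lit 96, nat_lit 100, nat_lit 54, nat_lit 508293173⟩]⟩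
noncomputable def p037_l75 : Lf2 := ⟨nat_lit 0, nat_lit 1, [nat_lit 19, nat_lit 5, nat_lit 5, nat_lit 20], false, nat_lit 260, nat_lit 288, nat_lit 0, nat_lit 80, ⟨nat_lit 1000, nat_lit 0, nat_lit 0, nat_lit 0, nat_lit 0, nat_lit 0, nat_lit 0, nat_lit 0, nat_lit 0, nat_lit 0, nat_lit 0, nat_lit 0, nat_lit 0, nat_lit 0, nat_lit 0, nat_lit 0, false, false⟩,
 nat_lit 17226, nat_lit 0, nat_lit 0, nat_lit 0, nat_lit 9164, nat_lit 7901, nat_lit 0, nat_lit 0, nat_lit 0, nat_lit 3513, nat_lit 0, nat_lit 0, nat_lit 0, nat_lit 0, nat_lit 0, nat_lit 0, nat_lit 0, nat_lit 0, [],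
 ⟨p037_k19, nat_lit 0, nat_lit 0, nat_lit 0, nat_lit 0, nat_lit 191555, [nat_lit 2032000001, nat_lit 4688000000, nat_lit 6250000000], [], [nat_lit 19437365880, nat_lit 19524773525, nat_lit 18930654920, nat_lit 19018019943, nat_lit 22151722522, nat_lit 22253594301, nat_lit 21643022245, nat_lit 21722224372], nat_lit 1271250, nat_lit 1271250, nat_lit 88400, nat_lit 111251, nat_lit 1271250, nat_lit 1271250, [nat_lit 490000, nat_lit 1100000, nat_lit 1442500], [nat_lit 6, nat_lit 40, nat_lit 20, nat_lit 40]⟩, ⟨p037_k20, nat_lit 0, nat_lit 0, nat_lit 276, nat_lit 0, nat_lit 191555, [nat_lit 4688000000, nat_lit 6250000000], [], [nat_lit 18286790190, nat_lit 18409490955, nat_lit 17737556209, nat_lit 17859334927, nat_lit 13755256387, nat_lit 13852504048, nat_lit 13385463213, nat_lit 13482573820], nat_lit 1271250, nat_lit 1271250, nat_lit 88400, nat_lit 111251, nat_lit 0, nat_lit 490000, [nat_lit 1100000, nat_lit 1442500], [nat_lit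 31, nat_lit 40, nat_lit 20, nat_lit 80, nat_lit 3, nat_lit 232, nat_lit 25, nat_lit 9]⟩,
 zbF0, [⟨nat_lit 0, nat_lit 100, nat_lit 100, nat_lit 41, nat_lit 2121199824⟩, ⟨nat_lit 16, nat_lit 100, nat_lit 93, nat_lit 61, nat_lit 949595363⟩, ⟨nat_lit 4, nat_lit 96, nat_lit 100, nat_lit 54, nat_lit 271378338⟩]⟩
noncomputable def p037_l76 : Lf2 := ⟨nat_lit 0, nat_lit 1, [nat_lit 19, nat_lit 5, nat_lit 5, nat_lit 20], false, nat_lit 260, nat_lit 288, nat_lit 80, nat_lit 160, ⟨nat_lit 1000, nat_lit 0, nat_lit 0, nat_lit 0, nat_lit 0, nat_lit 0, nat_lit 0, nat_lit 0, nat_lit 0, nat_lit 0, nat_lit 0, nat_lit 0, nat_lit 0, nat_lit 0, nat_lit 0, nat_lit 0, false, false⟩,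
 nat_lit 17032, nat_lit 0, nat_lit 0, nat_lit 0, nat_lit 9061, nat_lit 9061, nat_lit 3470, nat_lit 0, nat_lit 0, nat_lit 0, nat_lit 0, nat_lit 0, nat_lit 0, nat_lit 34542555601513, nat_lit 0, nat_lit 0, nat_lit 0, nat_lit 0, [],
 ⟨p037_k19, nat_lit 0, nat_lit 0, nat_lit 0, nat_lit 0, nat_lit 191555, [nat_lit 2032000001, nat_lit 4688000000, nat_lit 6250000000], [], [nat_lit 19370843152, nat_lit 19457633359, nat_lit 18870350610, nat_lit 18957098215, nat_lit 22065228188, nat_lit 22166673332, nat_lit 21562754880, nat_lit 21641419468], nat_lit 1271250, nat_lit 1271250, nat_lit 88400, nat_lit 111251, nat_lit 1271250, nat_lit 1271250, [nat_lit 490000, nat_lit 1100000, nat_lit 1442500], [nat_lit 6, nat_lit 40, nat_lit 20, nat_lit 40]⟩, ⟨p037_k20, nat_lit 0, nat_lit 0, nat_lit 236, nat_lit 0, nat_lit 191555, [nat_lit 4688000000, nat_lit 6250000000], [], [nat_lit 9208222350, nat_lit 9372995489, nat_lit 8509770715, nat_lit 8674586693,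 nat_lit 9637693088, nat_lit 9785133085, nat_lit 8989426446, nat_lit 9136862787], nat_lit 1271250, nat_lit 1271250, nat_lit 88400, nat_lit 111251, nat_lit 490000, nat_lit 1100001, [nat_lit 1100000, nat_lit 1442500], [nat_lit 31, nat_lit 40, nat_lit 20, nat_lit 80, nat_lit 3, nat_lit 260, nat_lit 50, nat_lit 10]⟩,
 zbF0, [⟨nat_lit 0, nat_lit 100, nat_lit 100, nat_lit 41, nat_lit 2235985315⟩, ⟨nat_lit 16, nat_lit 100, nat_lit 96, nat_lit 54, nat_lit 200297120⟩, ⟨nat_lit 16, nat_lit 100, nat_lit 93, nat_lit 61, nat_lit 1006657759⟩]⟩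
noncomputable def p037_l77 : Lf2 := ⟨nat_lit 0, nat_lit 1, [nat_lit 19, nat_lit 5, nat_lit 5, nat_lit 20], false, nat_lit 260, nat_lit 288, nat_lit 160, nat_lit 180, ⟨nat_lit 1000, nat_lit 0, nat_lit 0, nat_lit 0, nat_lit 0, nat_lit 0, nat_lit 0, nat_lit 0, nat_lit 0, nat_lit 0, nat_lit 0, nat_lit 0, nat_lit 0, nat_lit 0, nat_lit 0, nat_lit 0, false, false⟩,
 nat_lit 17032, nat_lit 0, nat_lit 0, nat_lit 0, nat_lit 9061, nat_lit 7960, nat_lit 3470, nat_lit 0, nat_lit 0, nat_lit 0, nat_lit 0, nat_lit 0, nat_lit 0, nat_lit 0, nat_lit 0, nat_lit 0, nat_lit 0, nat_lit 0, [],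
 ⟨p037_k19, nat_lit 0, nat_lit 0, nat_lit 0, nat_lit 0, nat_lit 191555, [nat_lit 2032000001, nat_lit 4688000000, nat_lit 6250000000], [], [nat_lit 19370843152, nat_lit 19457633359, nat_lit 18870350610, nat_lit 18957098215, nat_lit 22065228188, nat_lit 22166673332, nat_lit 21562754880, nat_lit 21641419468], nat_lit 1271250, nat_lit 1271250, nat_lit 88400, nat_lit 111251, nat_lit 1271250, nat_lit 1271250, [nat_lit 490000, nat_lit 1100000, nat_lit 1442500], [nat_lit 6, nat_lit 40, nat_lit 20, nat_lit 40]⟩, ⟨p037_k20, nat_lit 0, nat_lit 0, nat_lit 196, nat_lit 0, nat_lit 191555, [nat_lit 4688000000, nat_lit 6250000000], [], [nat_lit 9731688683, nat_lit 9845157685, nat_lit 9290514432, nat_lit 9403877825, nat_lit 11182027800, nat_lit 11310572431, nat_lit 10621537199, nat_lit 10749908717], nat_lit 1271250, nat_lit 1271250, nat_lit 88400, nat_lit 111251, nat_lit 1100001, nat_lit 1271250, [nat_lit 1100000, nat_lit 1442500], [nat_lit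 31, nat_lit 40, nat_lit 20, nat_lit 80, nat_lit 3, nat_lit 260, nat_lit 50, nat_lit 10]⟩,
 zbF0, [⟨nat_lit 0, nat_lit 100, nat_lit 100, nat_lit 41, nat_lit 2126475144⟩, ⟨nat_lit 16, nat_lit 100, nat_lit 96, nat_lit 54, nat_lit 200297120⟩, ⟨nat_lit 16, nat_lit 100, nat_lit 93, nat_lit 61, nat_lit 1006657759⟩]⟩
noncomputable def p037_l78 : Lf2 := ⟨nat_lit 0, nat_lit 1, [nat_lit 19, nat_lit 5, nat_lit 5, nat_lit 20], false, nat_lit 260, nat_lit 288, nat_lit 180, nat_lit 200, ⟨nat_lit 1000, nat_lit 0, nat_lit 0, nat_lit 0, nat_lit 0, nat_lit 0, nat_lit 0, nat_lit 0, nat_lit 0, nat_lit 0, nat_lit 0, nat_lit 0, nat_lit 0, nat_lit 0, nat_lit 0, nat_lit 0, false, false⟩,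
 nat_lit 17032, nat_lit 0, nat_lit 0, nat_lit 0, nat_lit 9061, nat_lit 7781, nat_lit 3470, nat_lit 0, nat_lit 0, nat_lit 0, nat_lit 0, nat_lit 0, nat_lit 0, nat_lit 0, nat_lit 0, nat_lit 0, nat_lit 0, nat_lit 0, [],
 ⟨p037_k19, nat_lit 0, nat_lit 0, nat_lit 0, nat_lit 0, nat_lit 191555, [nat_lit 2032000001, nat_lit 4688000000, nat_lit 6250000000], [], [nat_lit 19370843152, nat_lit 19457633359, nat_lit 18870350610, nat_lit 18957098215, nat_lit 22065228188, nat_lit 22166673332, nat_lit 21562754880, nat_lit 21641419468], nat_lit 1271250, nat_lit 1271250, nat_lit 88400, nat_lit 111251, nat_lit 1271250, nat_lit 1271250, [nat_lit 490000, nat_lit 1100000, nat_lit 1442500], [nat_lit 6, nat_lit 40, nat_lit 20, nat_lit 40]⟩, ⟨p037_k20, nat_lit 0, nat_lit 0, nat_lit 186, nat_lit 0, nat_lit 191555, [nat_lit 4688000000, nat_lit 6250000000], [], [nat_lit 11236249634, nat_lit 11343043423, nat_lit 10807144197, nat_lit 10913842979, nat_lit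 12665843410, nat_lit 12786496978, nat_lit 12122642258, nat_lit 12242790736], nat_lit 1271250, nat_lit 1271250, nat_lit 88400, nat_lit 111251, nat_lit 1271250, nat_lit 1271250, [nat_lit 1100000, nat_lit 1442500], [nat_lit 31, nat_lit 40, nat_lit 20, nat_lit 80, nat_lit 3, nat_lit 272, nat_lit 60, nat_lit 10]⟩,
 zbF0, [⟨nat_lit 0, nat_lit 100, nat_lit 100, nat_lit 41, nat_lit 2105313604⟩, ⟨nat_lit 16, nat_lit 100, nat_lit 96, nat_lit 54, nat_lit 200297120⟩, ⟨nat_lit 16, nat_lit 100, nat_lit 93, nat_lit 61, nat_lit 1006657759⟩]⟩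
noncomputable def p037_l79 : Lf2 := ⟨nat_lit 0, nat_lit 1, [nat_lit 19, nat_lit 5, nat_lit 5, nat_lit 20], false, nat_lit 260, nat_lit 288, nat_lit 200, nat_lit 232, ⟨nat_lit 1000, nat_lit 0, nat_lit 0, nat_lit 0, nat_lit 0, nat_lit 0, nat_lit 0, nat_lit 0, nat_lit 0, nat_lit 0, nat_lit 0, nat_lit 0, nat_lit 0, nat_lit 0, nat_lit 0, nat_lit 0, false, false⟩,
 nat_lit 19716, nat_lit 0, nat_lit 0, nat_lit 0, nat_lit 9898, nat_lit 10489, nat_lit 0, nat_lit 0, nat_lit 0, nat_lit 4165, nat_lit 0, nat_lit 0, nat_lit 0, nat_lit 12905376142379, nat_lit 0, nat_lit 0, nat_lit 0, nat_lit 0, [],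
 ⟨p037_k19, nat_lit 0, nat_lit 0, nat_lit 0, nat_lit 0, nat_lit 191555, [nat_lit 2032000001, nat_lit 4688000000, nat_lit 6250000000], [], [nat_lit 19061397384, nat_lit 19153205021, nat_lit 18510372649, nat_lit 18602137525, nat_lit 22765259935, nat_lit 22873011692, nat_lit 22071333802, nat_lit 22179149860], nat_lit 1271250, nat_lit 1271250, nat_lit 88400, nat_lit 111251, nat_lit 1271250, nat_lit 1271250, [nat_lit 490000, nat_lit 1100000, nat_lit 1442500], [nat_lit 6, nat_lit 40, nat_lit 20, nat_lit 40]⟩, ⟨p037_k20, nat_lit 0, nat_lit 0, nat_lit 176, nat_lit 0, nat_lit 191555, [nat_lit 4688000000, nat_lit 6250000000], [], [nat_lit 13812839233, nat_lit 13926453457, nat_lit 13224091486, nat_lit 13337624297, nat_lit 16030250513, nat_lit 16134470222, nat_lit 15444071007, nat_lit 15548227072], nat_lit 1271250, nat_lit 1271250, nat_lit 88400, nat_lit 111251, nat_lit 1271250, nat_lit 1271250, [nat_lit 1100000, nat_lit 1442500], [nat_lit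 31, nat_lit 40, nat_lit 20, nat_lit 80, nat_lit 3, nat_lit 215, nat_lit 10, nat_lit 8]⟩,
 zbF0, [⟨nat_lit 0, nat_lit 100, nat_lit 100, nat_lit 42, nat_lit 890364891⟩, ⟨nat_lit 4, nat_lit 96, nat_lit 100, nat_lit 54, nat_lit 1394195571⟩, ⟨nat_lit 11, nat_lit 100, nat_lit 94, nat_lit 42, nat_lit 1412878040⟩]⟩
noncomputable def p037_l80 : Lf2 := ⟨nat_lit 0, nat_lit 1, [nat_lit 19, nat_lit 5, nat_lit 5, nat_lit 20], true, nat_lit 260, nat_lit 284, nat_lit 0, nat_lit 232, ⟨nat_lit 0, nat_lit 0, nat_lit 1000, nat_lit 6, nat_lit 69, nat_lit 1000, nat_lit 186, nat_lit 1000, nat_lit 36494, nat_lit 261, nat_lit 45067, nat_lit 267, nat_lit 52466592, nat_lit 0, nat_lit 0, nat_lit 3278723, false, false⟩,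
 nat_lit 0, nat_lit 6644, nat_lit 0, nat_lit 0, nat_lit 3551, nat_lit 0, nat_lit 448, nat_lit 0, nat_lit 0, nat_lit 0, nat_lit 0, nat_lit 0, nat_lit 0, nat_lit 0, nat_lit 10, nat_lit 1000000, nat_lit 0, nat_lit 0, [(nat_lit 6, [(nat_lit 6, nat_lit 1000)])],
 ⟨p037_k21, nat_lit 0, nat_lit 0, nat_lit 0, nat_lit 0, nat_lit 195126, [nat_lit 596400000, nat_lit 1109200000, nat_lit 8000000], [], [nat_lit 15890609510, nat_lit 15944369802, nat_lit 15722730588, nat_lit 15776449325, nat_lit 17263651130, nat_lit 17314148988, nat_lit 17094538405, nat_lit 17145002968], nat_lit 1271250, nat_lit 1271250, nat_lit 88400, nat_lit 111251, nat_lit 1271250, nat_lit 1271250, [nat_lit 490000, nat_lit 1100000, nat_lit 1442500], [nat_lit 6, nat_lit 40, nat_lit 20, nat_lit 40]⟩, C1.Rw.none,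
 ⟨nat_lit 6264, nat_lit 6285, ⟨.ofNat (nat_lit 167124), .ofNat (nat_lit 175313), .ofNat (nat_lit 168193), .ofNat (nat_lit 176381), .ofNat (nat_lit 167991), .ofNat (nat_lit 176160), .ofNat (nat_lit 169059), .ofNat (nat_lit 177228)⟩, ⟨.ofNat (nat_lit 430557), .ofNat (nat_lit 479688), .ofNat (nat_lit 451921), .ofNat (nat_lit 501051), .ofNat (nat_lit 430294), .ofNat (nat_lit 479311), .ofNat (nat_lit 451654), .ofNat (nat_lit 500672)⟩⟩, [⟨nat_lit 0, nat_lit 100, nat_lit 100, nat_lit 42, nat_lit 320559389⟩, ⟨nat_lit 4, nat_lit 96, nat_lit 100, nat_lit 54, nat_lit 476035767⟩]⟩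
noncomputable def p037_l81 : Lf2 := ⟨nat_lit 0, nat_lit 1, [nat_lit 19, nat_lit 5, nat_lit 5, nat_lit 20], true, nat_lit 260, nat_lit 284, nat_lit 0, nat_lit 232, ⟨nat_lit 0, nat_lit 0, nat_lit 1000, nat_lit 6, nat_lit 69, nat_lit 1000, nat_lit 186, nat_lit 1000, nat_lit 35504, nat_lit 261, nat_lit 45067, nat_lit 267, nat_lit 52457283, nat_lit 0, nat_lit 0, nat_lit 3284099, false, false⟩,
 nat_lit 0, nat_lit 6653, nat_lit 0, nat_lit 0, nat_lit 3574, nat_lit 0, nat_lit 477, nat_lit 0, nat_lit 0, nat_lit 0, nat_lit 0, nat_lit 0, nat_lit 0, nat_lit 0, nat_lit 10, nat_lit 1000000, nat_lit 0, nat_lit 0, [(nat_lit 6, [(nat_lit 6, nat_lit 1000)])],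
 ⟨p037_k22, nat_lit 0, nat_lit 0, nat_lit 0, nat_lit 0, nat_lit 203250, [nat_lit 596400000, nat_lit 1109200000, nat_lit 8000000], [], [nat_lit 15912802022, nat_lit 16020598353, nat_lit 15743492957, nat_lit 15851206171, nat_lit 17286279419, nat_lit 17411022941, nat_lit 17115743590, nat_lit 17216918001], nat_lit 1271250, nat_lit 1271250, nat_lit 88400, nat_lit 111251, nat_lit 1271250, nat_lit 1271250, [nat_lit 490000, nat_lit 1100000, nat_lit 1442500], [nat_lit 6, nat_lit 40, nat_lit 20, nat_lit 40]⟩, C1.Rw.none,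
 ⟨nat_lit 6224, nat_lit 6265, ⟨.ofNat (nat_lit 167991), .ofNat (nat_lit 176160), .ofNat (nat_lit 169059), .ofNat (nat_lit 177228), .ofNat (nat_lit 169718), .ofNat (nat_lit 177850), .ofNat (nat_lit 170786), .ofNat (nat_lit 178918)⟩, ⟨.ofNat (nat_lit 430294), .ofNat (nat_lit 479311), .ofNat (nat_lit 451654), .ofNat (nat_lit 500672), .ofNat (nat_lit 429765), .ofNat (nat_lit 478556), .ofNat (nat_lit 451122), .ofNat (nat_lit 499912)⟩⟩, [⟨nat_lit 0, nat_lit 100, nat_lit 100, nat_lit 43, nat_lit 323276982⟩, ⟨nat_lit 16, nat_lit 100, nat_lit 93, nat_lit 61, nat_lit 29458233⟩, ⟨nat_lit 4, nat_lit 97, nat_lit 100, nat_lit 54, nat_lit 443522386⟩]⟩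
noncomputable def p037_l82 : Lf2 := ⟨nat_lit 0, nat_lit 1, [nat_lit 19, nat_lit 5, nat_lit 5, nat_lit 20], true, nat_lit 260, nat_lit 288, nat_lit 0, nat_lit 256, ⟨nat_lit 0, nat_lit 0, nat_lit 1000, nat_lit 6, nat_lit 76, nat_lit 1000, nat_lit 188, nat_lit 1000, nat_lit 28327, nat_lit 255, nat_lit 54150, nat_lit 272, nat_lit 51934591, nat_lit 0, nat_lit 0, nat_lit 3394082, false, false⟩,
 nat_lit 0, nat_lit 6732, nat_lit 0, nat_lit 0, nat_lit 3581, nat_lit 0, nat_lit 439, nat_lit 0, nat_lit 0, nat_lit 0, nat_lit 0, nat_lit 0, nat_lit 0, nat_lit 6015046470428, nat_lit 10, nat_lit 1000000, nat_lit 0, nat_lit 0, [(nat_lit 6, [(nat_lit 6, nat_lit 1000)])],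
 ⟨p037_k19, nat_lit 0, nat_lit 0, nat_lit 0, nat_lit 0, nat_lit 205485, [nat_lit 596400000, nat_lit 1109200000, nat_lit 8000000], [], [nat_lit 15670343477, nat_lit 15885937746, nat_lit 15414331000, nat_lit 15628512724, nat_lit 17300635684, nat_lit 17501976186, nat_lit 17033252214, nat_lit 17232277166], nat_lit 1271250, nat_lit 1271250, nat_lit 111251, nat_lit 181601, nat_lit 1271250, nat_lit 1271250, [nat_lit 490000, nat_lit 1100000, nat_lit 1442500], [nat_lit 6, nat_lit 40, nat_lit 20, nat_lit 40]⟩, C1.Rw.none,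
 ⟨nat_lit 6224, nat_lit 6305, ⟨.ofNat (nat_lit 174464), .ofNat (nat_lit 199086), .ofNat (nat_lit 175532), .ofNat (nat_lit 200155), .ofNat (nat_lit 177850), .ofNat (nat_lit 202245), .ofNat (nat_lit 178918), .ofNat (nat_lit 203313)⟩, ⟨.ofNat (nat_lit 430821), .ofNat (nat_lit 488273), .ofNat (nat_lit 452186), .ofNat (nat_lit 509638), .ofNat (nat_lit 429765), .ofNat (nat_lit 486687), .ofNat (nat_lit 451122), .ofNat (nat_lit 508044)⟩⟩, [⟨nat_lit 16, nat_lit 100, nat_lit 93, nat_lit 61, nat_lit 67799092⟩, ⟨nat_lit 4, nat_lit 97, nat_lit 100, nat_lit 54, nat_lit 412513852⟩]⟩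
noncomputable def p037_l83 : Lf2 := ⟨nat_lit 0, nat_lit 1, [nat_lit 19, nat_lit 5, nat_lit 5, nat_lit 20], true, nat_lit 260, nat_lit 288, nat_lit 0, nat_lit 268, ⟨nat_lit 0, nat_lit 0, nat_lit 1000, nat_lit 6, nat_lit 84, nat_lit 1000, nat_lit 188, nat_lit 1000, nat_lit 28327, nat_lit 255, nat_lit 66150, nat_lit 278, nat_lit 51456741, nat_lit 0, nat_lit 0, nat_lit 3511526, false, false⟩,
 nat_lit 0, nat_lit 6921, nat_lit 0, nat_lit 0, nat_lit 3681, nat_lit 0, nat_lit 482, nat_lit 0, nat_lit 0, nat_lit 0, nat_lit 0, nat_lit 0, nat_lit 0, nat_lit 5567696547681, nat_lit 10, nat_lit 1000000, nat_lit 0, nat_lit 0, [(nat_lit 6, [(nat_lit 6, nat_lit 1000)])],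
 ⟨p037_k19, nat_lit 0, nat_lit 0, nat_lit 0, nat_lit 0, nat_lit 205485, [nat_lit 596400000, nat_lit 1109200000, nat_lit 8000000], [], [nat_lit 15343054628, nat_lit 15559613764, nat_lit 15164020256, nat_lit 15379624143, nat_lit 16981183200, nat_lit 17186050236, nat_lit 16794452000, nat_lit 16994712047], nat_lit 1271250, nat_lit 1271250, nat_lit 181601, nat_lit 230001, nat_lit 1271250, nat_lit 1271250, [nat_lit 490000, nat_lit 1100000, nat_lit 1442500], [nat_lit 6, nat_lit 40, nat_lit 20, nat_lit 40]⟩, C1.Rw.none,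
 ⟨nat_lit 6224, nat_lit 6305, ⟨.ofNat (nat_lit 199086), .ofNat (nat_lit 215501), .ofNat (nat_lit 200155), .ofNat (nat_lit 216569), .ofNat (nat_lit 202245), .ofNat (nat_lit 218509), .ofNat (nat_lit 203313), .ofNat (nat_lit 219577)⟩, ⟨.ofNat (nat_lit 430821), .ofNat (nat_lit 488273), .ofNat (nat_lit 452186), .ofNat (nat_lit 509638), .ofNat (nat_lit 429765), .ofNat (nat_lit 486687), .ofNat (nat_lit 451122), .ofNat (nat_lit 508044)⟩⟩, [⟨nat_lit 4, nat_lit 97, nat_lit 100, nat_lit 54, nat_lit 492730413⟩]⟩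
noncomputable def p037_l84 : Lf2 := ⟨nat_lit 0, nat_lit 1, [nat_lit 19, nat_lit 5, nat_lit 5, nat_lit 20], true, nat_lit 260, nat_lit 284, nat_lit 0, nat_lit 268, ⟨nat_lit 0, nat_lit 0, nat_lit 1000, nat_lit 6, nat_lit 78, nat_lit 1000, nat_lit 186, nat_lit 1000, nat_lit 38520, nat_lit 262, nat_lit 58017, nat_lit 274, nat_lit 51984986, nat_lit 0, nat_lit 0, nat_lit 3411265, false, false⟩,
 nat_lit 0, nat_lit 6491, nat_lit 0, nat_lit 0, nat_lit 3520, nat_lit 0, nat_lit 541, nat_lit 0, nat_lit 0, nat_lit 0, nat_lit 0, nat_lit 0, nat_lit 0, nat_lit 0, nat_lit 9, nat_lit 950500, nat_lit 0, nat_lit 0, [(nat_lit 6, [(nat_lit 4, nat_lit 66), (nat_lit 6, nat_lit 934)])],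
 ⟨p037_k23, nat_lit 0, nat_lit 0, nat_lit 0, nat_lit 0, nat_lit 224407, [nat_lit 648512801, nat_lit 1075564800, nat_lit 6559200], [], [nat_lit 16009294415, nat_lit 16277166719, nat_lit 15426889445, nat_lit 15691637035, nat_lit 17367605338, nat_lit 17676738286, nat_lit 16769399098, nat_lit 17036192469], nat_lit 1271250, nat_lit 1271250, nat_lit 88400, nat_lit 230001, nat_lit 1271250, nat_lit 1271250, [nat_lit 490000, nat_lit 1100000, nat_lit 1442500], [nat_lit 6, nat_lit 40, nat_lit 20, nat_lit 40]⟩, C1.Rw.none,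
 ⟨nat_lit 6123, nat_lit 6225, ⟨.ofNat (nat_lit 168651), .ofNat (nat_lit 217441), .ofNat (nat_lit 170786), .ofNat (nat_lit 219577), .ofNat (nat_lit 172944), .ofNat (nat_lit 221172), .ofNat (nat_lit 175078), .ofNat (nat_lit 223307)⟩, ⟨.ofNat (nat_lit 429765), .ofNat (nat_lit 478556), .ofNat (nat_lit 451122), .ofNat (nat_lit 499912), .ofNat (nat_lit 428436), .ofNat (nat_lit 476665), .ofNat (nat_lit 449785), .ofNat (nat_lit 498013)⟩⟩, [⟨nat_lit 0, nat_lit 100, nat_lit 99, nat_lit 44, nat_lit 235481770⟩, ⟨nat_lit 16, nat_lit 100, nat_lit 94, nat_lit 62, nat_lit 99805607⟩, ⟨nat_lit 4, nat_lit 98, nat_lit 100, nat_lit 54, nat_lit 358437384⟩]⟩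
noncomputable def p037_l85 : Lf2 := ⟨nat_lit 0, nat_lit 2, [nat_lit 10, nat_lit 5, nat_lit 5, nat_lit 20], true, nat_lit 260, nat_lit 288, nat_lit 0, nat_lit 268, ⟨nat_lit 0, nat_lit 0, nat_lit 1000, nat_lit 6, nat_lit 78, nat_lit 1000, nat_lit 188, nat_lit 1000, nat_lit 29345, nat_lit 255, nat_lit 56067, nat_lit 273, nat_lit 51841990, nat_lit 0, nat_lit 0, nat_lit 3420992, false, false⟩,
 nat_lit 0, nat_lit 6812, nat_lit 0, nat_lit 0, nat_lit 3606, nat_lit 0, nat_lit 0, nat_lit 0, nat_lit 0, nat_lit 0, nat_lit 0, nat_lit 0, nat_lit 0, nat_lit 7502836932728, nat_lit 44, nat_lit 1000000, nat_lit 0, nat_lit 0, [(nat_lit 6, [(nat_lit 6, nat_lit 1000)])],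
 ⟨p037_k17, nat_lit 0, nat_lit 0, nat_lit 0, nat_lit 0, nat_lit 184310, [nat_lit 1260800001, nat_lit 1544800000, nat_lit 688000000, nat_lit 17600000], [], [nat_lit 15756516144, nat_lit 16251347776, nat_lit 15196861528, nat_lit 15686013688, nat_lit 17370953232, nat_lit 17956991570, nat_lit 16795110101, nat_lit 17267310280], nat_lit 1271250, nat_lit 1271250, nat_lit 88400, nat_lit 230001, nat_lit 1271250, nat_lit 1271250, [nat_lit 780000, nat_lit 1100000, nat_lit 1442500, nat_lit 1271250], [nat_lit 249, nat_lit 10, nat_lit 4, nat_lit 20]⟩, C1.Rw.none,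
 ⟨nat_lit 6123, nat_lit 6325, ⟨.ofNat (nat_lit 164319), .ofNat (nat_lit 213677), .ofNat (nat_lit 166456), .ofNat (nat_lit 215814), .ofNat (nat_lit 172944), .ofNat (nat_lit 221172), .ofNat (nat_lit 175078), .ofNat (nat_lit 223307)⟩, ⟨.ofNat (nat_lit 431084), .ofNat (nat_lit 488669), .ofNat (nat_lit 452452), .ofNat (nat_lit 510037), .ofNat (nat_lit 428436), .ofNat (nat_lit 484703), .ofNat (nat_lit 449785), .ofNat (nat_lit 506051)⟩⟩, [⟨nat_lit 0, nat_lit 100, nat_lit 100, nat_lit 43, nat_lit 230603531⟩, ⟨nat_lit 16, nat_lit 100, nat_lit 92, nat_lit 61, nat_lit 113508515⟩, ⟨nat_lit 4, nat_lit 97, nat_lit 100, nat_lit 54, nat_lit 354469398⟩]⟩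
noncomputable def p037_l86 : Lf2 := ⟨nat_lit 0, nat_lit 1, [nat_lit 19, nat_lit 5, nat_lit 5, nat_lit 20], true, nat_lit 260, nat_lit 284, nat_lit 0, nat_lit 268, ⟨nat_lit 0, nat_lit 0, nat_lit 1000, nat_lit 6, nat_lit 79, nat_lit 1000, nat_lit 186, nat_lit 1000, nat_lit 36494, nat_lit 261, nat_lit 58017, nat_lit 274, nat_lit 51957056, nat_lit 0, nat_lit 0, nat_lit 3415653, false, false⟩,
 nat_lit 0, nat_lit 6611, nat_lit 0, nat_lit 0, nat_lit 3534, nat_lit 0, nat_lit 468, nat_lit 0, nat_lit 0, nat_lit 0, nat_lit 0, nat_lit 0, nat_lit 0, nat_lit 9352912895802, nat_lit 10, nat_lit 1000000, nat_lit 0, nat_lit 0, [(nat_lit 6, [(nat_lit 6, nat_lit 1000)])],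
 ⟨p037_k21, nat_lit 0, nat_lit 0, nat_lit 0, nat_lit 0, nat_lit 232553, [nat_lit 596400000, nat_lit 1109200000, nat_lit 8000000], [], [nat_lit 15897715320, nat_lit 16326982395, nat_lit 15313412983, nat_lit 15737671007, nat_lit 17268012197, nat_lit 17688777744, nat_lit 16666803942, nat_lit 17065611208], nat_lit 1271250, nat_lit 1271250, nat_lit 88400, nat_lit 230001, nat_lit 1271250, nat_lit 1271250, [nat_lit 490000, nat_lit 1100000, nat_lit 1442500], [nat_lit 6, nat_lit 40, nat_lit 20, nat_lit 40]⟩, C1.Rw.none,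
 ⟨nat_lit 6123, nat_lit 6285, ⟨.ofNat (nat_lit 168193), .ofNat (nat_lit 217323), .ofNat (nat_lit 169261), .ofNat (nat_lit 218391), .ofNat (nat_lit 175078), .ofNat (nat_lit 223307), .ofNat (nat_lit 176146), .ofNat (nat_lit 224374)⟩, ⟨.ofNat (nat_lit 430557), .ofNat (nat_lit 479688), .ofNat (nat_lit 451921), .ofNat (nat_lit 501051), .ofNat (nat_lit 428436), .ofNat (nat_lit 476665), .ofNat (nat_lit 449785), .ofNat (nat_lit 498013)⟩⟩, [⟨nat_lit 0, nat_lit 100, nat_lit 100, nat_lit 42, nat_lit 235480759⟩, ⟨nat_lit 16, nat_lit 100, nat_lit 93, nat_lit 61, nat_lit 36337196⟩, ⟨nat_lit 4, nat_lit 97, nat_lit 100, nat_lit 54, nat_lit 433869248⟩]⟩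
noncomputable def p037_l87 : Lf2 := ⟨nat_lit 0, nat_lit 2, [nat_lit 10, nat_lit 5, nat_lit 5, nat_lit 20], true, nat_lit 260, nat_lit 284, nat_lit 0, nat_lit 268, ⟨nat_lit 0, nat_lit 0, nat_lit 1000, nat_lit 6, nat_lit 79, nat_lit 1000, nat_lit 186, nat_lit 1000, nat_lit 36494, nat_lit 261, nat_lit 58017, nat_lit 274, nat_lit 51957056, nat_lit 0, nat_lit 0, nat_lit 3415653, false, false⟩,
 nat_lit 0, nat_lit 6726, nat_lit 0, nat_lit 0, nat_lit 3595, nat_lit 0, nat_lit 96, nat_lit 0, nat_lit 0, nat_lit 0, nat_lit 0, nat_lit 0, nat_lit 0, nat_lit 7463574158484, nat_lit 80, nat_lit 1000000, nat_lit 0, nat_lit 0, [(nat_lit 6, [(nat_lit 6, nat_lit 1000)])],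
 ⟨p037_k24, nat_lit 0, nat_lit 0, nat_lit 0, nat_lit 0, nat_lit 186795, [nat_lit 1156400000, nat_lit 2229200000, nat_lit 1408000000, nat_lit 211200000], [], [nat_lit 15970052164, nat_lit 16388130736, nat_lit 15354105306, nat_lit 15780742693, nat_lit 17385629667, nat_lit 17884225289, nat_lit 16764926682, nat_lit 17165748706], nat_lit 1271250, nat_lit 1271250, nat_lit 88400, nat_lit 230001, nat_lit 1271250, nat_lit 1271250, [nat_lit 490000, nat_lit 1100000, nat_lit 1442500, nat_lit 1271250], [nat_lit 98, nat_lit 40, nat_lit 20, nat_lit 80]⟩, C1.Rw.none,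
 ⟨nat_lit 6123, nat_lit 6285, ⟨.ofNat (nat_lit 168193), .ofNat (nat_lit 217323), .ofNat (nat_lit 169261), .ofNat (nat_lit 218391), .ofNat (nat_lit 175078), .ofNat (nat_lit 223307), .ofNat (nat_lit 176146), .ofNat (nat_lit 224374)⟩, ⟨.ofNat (nat_lit 430557), .ofNat (nat_lit 479688), .ofNat (nat_lit 451921), .ofNat (nat_lit 501051), .ofNat (nat_lit 428436), .ofNat (nat_lit 476665), .ofNat (nat_lit 449785), .ofNat (nat_lit 498013)⟩⟩, [⟨nat_lit 0, nat_lit 100, nat_lit 100, nat_lit 44, nat_lit 242115755⟩, ⟨nat_lit 16, nat_lit 100, nat_lit 97, nat_lit 54, nat_lit 315187304⟩, ⟨nat_lit 16, nat_lit 100, nat_lit 93, nat_lit 61, nat_lit 156976934⟩]⟩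
noncomputable def p037_l88 : Lf2 := ⟨nat_lit 0, nat_lit 1, [nat_lit 19, nat_lit 5, nat_lit 5, nat_lit 20], true, nat_lit 260, nat_lit 284, nat_lit 0, nat_lit 268, ⟨nat_lit 0, nat_lit 0, nat_lit 1000, nat_lit 6, nat_lit 78, nat_lit 1000, nat_lit 186, nat_lit 1000, nat_lit 35504, nat_lit 261, nat_lit 58017, nat_lit 274, nat_lit 51944321, nat_lit 0, nat_lit 0, nat_lit 3415426, false, false⟩,
 nat_lit 0, nat_lit 6608, nat_lit 0, nat_lit 0, nat_lit 3549, nat_lit 0, nat_lit 521, nat_lit 0, nat_lit 0, nat_lit 0, nat_lit 0, nat_lit 0, nat_lit 0, nat_lit 10505659932289, nat_lit 10, nat_lit 1000000, nat_lit 0, nat_lit 0, [(nat_lit 6, [(nat_lit 6, nat_lit 1000)])],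
 ⟨p037_k22, nat_lit 0, nat_lit 0, nat_lit 0, nat_lit 0, nat_lit 212275, [nat_lit 596400000, nat_lit 1109200000, nat_lit 8000000], [], [nat_lit 15920357761, nat_lit 16027854366, nat_lit 15331386380, nat_lit 15437628176, nat_lit 17289815364, nat_lit 17390789756, nat_lit 16683971476, nat_lit 16783831104], nat_lit 1271250, nat_lit 1271250, nat_lit 88400, nat_lit 230001, nat_lit 1271250, nat_lit 1271250, [nat_lit 490000, nat_lit 1100000, nat_lit 1442500], [nat_lit 6, nat_lit 40, nat_lit 20, nat_lit 40]⟩, C1.Rw.none,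
 ⟨nat_lit 6224, nat_lit 6265, ⟨.ofNat (nat_lit 170127), .ofNat (nat_lit 219144), .ofNat (nat_lit 171195), .ofNat (nat_lit 220212), .ofNat (nat_lit 171854), .ofNat (nat_lit 220645), .ofNat (nat_lit 172922), .ofNat (nat_lit 221712)⟩, ⟨.ofNat (nat_lit 430294), .ofNat (nat_lit 479311), .ofNat (nat_lit 451654), .ofNat (nat_lit 500672), .ofNat (nat_lit 429765), .ofNat (nat_lit 478556), .ofNat (nat_lit 451122), .ofNat (nat_lit 499912)⟩⟩, [⟨nat_lit 0, nat_lit 100, nat_lit 100, nat_lit 44, nat_lit 234746177⟩, ⟨nat_lit 16, nat_lit 100, nat_lit 97, nat_lit 54, nat_lit 431246228⟩, ⟨nat_lit 16, nat_lit 100, nat_lit 93, nat_lit 61, nat_lit 39409030⟩]⟩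
noncomputable def p037_l89 : Lf2 := ⟨nat_lit 0, nat_lit 1, [nat_lit 19, nat_lit 5, nat_lit 5, nat_lit 20], true, nat_lit 260, nat_lit 284, nat_lit 0, nat_lit 268, ⟨nat_lit 0, nat_lit 0, nat_lit 1000, nat_lit 6, nat_lit 80, nat_lit 1000, nat_lit 186, nat_lit 1000, nat_lit 38520, nat_lit 262, nat_lit 60000, nat_lit 275, nat_lit 51922370, nat_lit 0, nat_lit 0, nat_lit 3426690, false, false⟩,
 nat_lit 0, nat_lit 6480, nat_lit 0, nat_lit 0, nat_lit 3514, nat_lit 0, nat_lit 612, nat_lit 0, nat_lit 0, nat_lit 0, nat_lit 0, nat_lit 0, nat_lit 0, nat_lit 0, nat_lit 9, nat_lit 930250, nat_lit 0, nat_lit 0, [(nat_lit 6, [(nat_lit 4, nat_lit 93), (nat_lit 6, nat_lit 907)])],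
 ⟨p037_k23, nat_lit 0, nat_lit 0, nat_lit 0, nat_lit 0, nat_lit 233176, [nat_lit 673104401, nat_lit 1068350400, nat_lit 14151600], [], [nat_lit 16005394383, nat_lit 16273086851, nat_lit 15424607597, nat_lit 15689177897, nat_lit 17362748520, nat_lit 17671578518, nat_lit 16766002492, nat_lit 17032616913], nat_lit 1271250, nat_lit 1271250, nat_lit 88400, nat_lit 230001, nat_lit 1271250, nat_lit 1271250, [nat_lit 490000, nat_lit 1100000, nat_lit 1442500], [nat_lit 6, nat_lit 40, nat_lit 20, nat_lit 40]⟩, C1.Rw.none,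
 ⟨nat_lit 6123, nat_lit 6225, ⟨.ofNat (nat_lit 171854), .ofNat (nat_lit 220645), .ofNat (nat_lit 172922), .ofNat (nat_lit 221712), .ofNat (nat_lit 176146), .ofNat (nat_lit 224374), .ofNat (nat_lit 177213), .ofNat (nat_lit 225442)⟩, ⟨.ofNat (nat_lit 429765), .ofNat (nat_lit 478556), .ofNat (nat_lit 451122), .ofNat (nat_lit 499912), .ofNat (nat_lit 428436), .ofNat (nat_lit 476665), .ofNat (nat_lit 449785), .ofNat (nat_lit 498013)⟩⟩, [⟨nat_lit 0, nat_lit 100, nat_lit 100, nat_lit 45, nat_lit 233981459⟩, ⟨nat_lit 16, nat_lit 100, nat_lit 94, nat_lit 62, nat_lit 100647050⟩, ⟨nat_lit 4, nat_lit 98, nat_lit 100, nat_lit 54, nat_lit 357098776⟩]⟩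
noncomputable def p037_l90 : Lf2 := ⟨nat_lit 0, nat_lit 1, [nat_lit 19, nat_lit 5, nat_lit 5, nat_lit 20], true, nat_lit 260, nat_lit 284, nat_lit 0, nat_lit 256, ⟨nat_lit 0, nat_lit 0, nat_lit 1000, nat_lit 6, nat_lit 76, nat_lit 1000, nat_lit 186, nat_lit 1000, nat_lit 39516, nat_lit 262, nat_lit 54150, nat_lit 272, nat_lit 52098964, nat_lit 0, nat_lit 0, nat_lit 3379390, false, false⟩,
 nat_lit 0, nat_lit 6512, nat_lit 0, nat_lit 0, nat_lit 3515, nat_lit 0, nat_lit 574, nat_lit 0, nat_lit 0, nat_lit 0, nat_lit 0, nat_lit 0, nat_lit 0, nat_lit 9861248149070, nat_lit 10, nat_lit 978250, nat_lit 0, nat_lit 0, [(nat_lit 6, [(nat_lit 4, nat_lit 29), (nat_lit 6, nat_lit 971)])],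
 ⟨p037_k25, nat_lit 0, nat_lit 0, nat_lit 0, nat_lit 0, nat_lit 224843, [nat_lit 622813200, nat_lit 1101451200, nat_lit 16154800], [], [nat_lit 15964402355, nat_lit 16125035819, nat_lit 15549827742, nat_lit 15709287216, nat_lit 17325321156, nat_lit 17487126523, nat_lit 16900193337, nat_lit 17060861030], nat_lit 1271250, nat_lit 1271250, nat_lit 88400, nat_lit 181601, nat_lit 1271250, nat_lit 1271250, [nat_lit 490000, nat_lit 1100000, nat_lit 1442500], [nat_lit 6, nat_lit 40, nat_lit 20, nat_lit 40]⟩, C1.Rw.none,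
 ⟨nat_lit 6184, nat_lit 6245, ⟨.ofNat (nat_lit 172059), .ofNat (nat_lit 204662), .ofNat (nat_lit 173127), .ofNat (nat_lit 205730), .ofNat (nat_lit 174643), .ofNat (nat_lit 207020), .ofNat (nat_lit 175710), .ofNat (nat_lit 208087)⟩, ⟨.ofNat (nat_lit 430030), .ofNat (nat_lit 478933), .ofNat (nat_lit 451388), .ofNat (nat_lit 500292), .ofNat (nat_lit 429235), .ofNat (nat_lit 477800), .ofNat (nat_lit 450588), .ofNat (nat_lit 499153)⟩⟩, [⟨nat_lit 0, nat_lit 100, nat_lit 100, nat_lit 45, nat_lit 241753121⟩, ⟨nat_lit 16, nat_lit 100, nat_lit 94, nat_lit 62, nat_lit 62984992⟩, ⟨nat_lit 4, nat_lit 97, nat_lit 100, nat_lit 54, nat_lit 400475125⟩]⟩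
noncomputable def p037_l91 : Lf2 := ⟨nat_lit 0, nat_lit 1, [nat_lit 19, nat_lit 5, nat_lit 5, nat_lit 20], true, nat_lit 260, nat_lit 280, nat_lit 0, nat_lit 256, ⟨nat_lit 0, nat_lit 0, nat_lit 1000, nat_lit 6, nat_lit 79, nat_lit 1000, nat_lit 184, nat_lit 1000, nat_lit 49699, nat_lit 269, nat_lit 58017, nat_lit 274, nat_lit 52142630, nat_lit 0, nat_lit 0, nat_lit 3394827, false, false⟩,
 nat_lit 0, nat_lit 6491, nat_lit 0, nat_lit 0, nat_lit 3554, nat_lit 0, nat_lit 724, nat_lit 0, nat_lit 0, nat_lit 0, nat_lit 0, nat_lit 0, nat_lit 0, nat_lit 0, nat_lit 7, nat_lit 840250, nat_lit 0, nat_lit 0, [(nat_lit 6, [(nat_lit 4, nat_lit 213), (nat_lit 6, nat_lit 787)])],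
 ⟨p037_k26, nat_lit 0, nat_lit 0, nat_lit 0, nat_lit 0, nat_lit 235016, [nat_lit 766400401, nat_lit 1004286400, nat_lit 7895600], [], [nat_lit 15879584996, nat_lit 16040795155, nat_lit 15624847486, nat_lit 15785002353, nat_lit 16989530512, nat_lit 17177445668, nat_lit 16728921814, nat_lit 16892091280], nat_lit 1271250, nat_lit 1271250, nat_lit 111251, nat_lit 181601, nat_lit 1271250, nat_lit 1271250, [nat_lit 490000, nat_lit 1100000, nat_lit 1442500], [nat_lit 6, nat_lit 40, nat_lit 20, nat_lit 40]⟩, C1.Rw.none,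
 ⟨nat_lit 6123, nat_lit 6185, ⟨.ofNat (nat_lit 182737), .ofNat (nat_lit 207020), .ofNat (nat_lit 183805), .ofNat (nat_lit 208087), .ofNat (nat_lit 185251), .ofNat (nat_lit 209365), .ofNat (nat_lit 186319), .ofNat (nat_lit 210433)⟩, ⟨.ofNat (nat_lit 429235), .ofNat (nat_lit 469706), .ofNat (nat_lit 450588), .ofNat (nat_lit 491059), .ofNat (nat_lit 428436), .ofNat (nat_lit 468627), .ofNat (nat_lit 449785), .ofNat (nat_lit 489975)⟩⟩, [⟨nat_lit 0, nat_lit 100, nat_lit 100, nat_lit 46, nat_lit 218014665⟩, ⟨nat_lit 16, nat_lit 100, nat_lit 95, nat_lit 62, nat_lit 23452767⟩, ⟨nat_lit 4, nat_lit 98, nat_lit 100, nat_lit 54, nat_lit 432576514⟩]⟩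
noncomputable def p037_l92 : Lf2 := ⟨nat_lit 0, nat_lit 1, [nat_lit 19, nat_lit 5, nat_lit 5, nat_lit 20], true, nat_lit 260, nat_lit 284, nat_lit 0, nat_lit 268, ⟨nat_lit 0, nat_lit 0, nat_lit 1000, nat_lit 6, nat_lit 86, nat_lit 1000, nat_lit 186, nat_lit 1000, nat_lit 39516, nat_lit 262, nat_lit 70417, nat_lit 280, nat_lit 51512991, nat_lit 0, nat_lit 0, nat_lit 3523919, false, false⟩,
 nat_lit 0, nat_lit 6813, nat_lit 0, nat_lit 0, nat_lit 3677, nat_lit 0, nat_lit 652, nat_lit 0, nat_lit 0, nat_lit 0, nat_lit 0, nat_lit 0, nat_lit 0, nat_lit 2926709263912, nat_lit 10, nat_lit 975250, nat_lit 0, nat_lit 0, [(nat_lit 6, [(nat_lit 4, nat_lit 33), (nat_lit 6, nat_lit 967)])],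
 ⟨p037_k25, nat_lit 0, nat_lit 0, nat_lit 0, nat_lit 0, nat_lit 238851, [nat_lit 626456400, nat_lit 1100382400, nat_lit 17279600], [], [nat_lit 15428092938, nat_lit 15752788997, nat_lit 15248676911, nat_lit 15571940909, nat_lit 16808869590, nat_lit 17185558619, nat_lit 16624022608, nat_lit 16949793635], nat_lit 1271250, nat_lit 1271250, nat_lit 181601, nat_lit 230001, nat_lit 1271250, nat_lit 1271250, [nat_lit 490000, nat_lit 1100000, nat_lit 1442500], [nat_lit 6, nat_lit 40, nat_lit 20, nat_lit 40]⟩, C1.Rw.none,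
 ⟨nat_lit 6123, nat_lit 6245, ⟨.ofNat (nat_lit 204662), .ofNat (nat_lit 220963), .ofNat (nat_lit 205730), .ofNat (nat_lit 222031), .ofNat (nat_lit 209365), .ofNat (nat_lit 225442), .ofNat (nat_lit 210433), .ofNat (nat_lit 226509)⟩, ⟨.ofNat (nat_lit 430030), .ofNat (nat_lit 478933), .ofNat (nat_lit 451388), .ofNat (nat_lit 500292), .ofNat (nat_lit 428436), .ofNat (nat_lit 476665), .ofNat (nat_lit 449785), .ofNat (nat_lit 498013)⟩⟩, [⟨nat_lit 4, nat_lit 98, nat_lit 100, nat_lit 54, nat_lit 480509315⟩]⟩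
noncomputable def p037_l93 : Lf2 := ⟨nat_lit 0, nat_lit 2, [nat_lit 10, nat_lit 5, nat_lit 5, nat_lit 20], true, nat_lit 260, nat_lit 284, nat_lit 0, nat_lit 268, ⟨nat_lit 0, nat_lit 0, nat_lit 1000, nat_lit 6, nat_lit 79, nat_lit 1000, nat_lit 186, nat_lit 1000, nat_lit 35504, nat_lit 261, nat_lit 60000, nat_lit 275, nat_lit 51916261, nat_lit 0, nat_lit 0, nat_lit 3426535, false, false⟩,
 nat_lit 0, nat_lit 6606, nat_lit 0, nat_lit 0, nat_lit 3548, nat_lit 0, nat_lit 24, nat_lit 0, nat_lit 0, nat_lit 0, nat_lit 0, nat_lit 0, nat_lit 0, nat_lit 10613355068240, nat_lit 44, nat_lit 1000000, nat_lit 0, nat_lit 0, [(nat_lit 6, [(nat_lit 6, nat_lit 1000)])],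
 ⟨p037_k27, nat_lit 0, nat_lit 0, nat_lit 0, nat_lit 0, nat_lit 194746, [nat_lit 868400000, nat_lit 1653200000, nat_lit 688000000, nat_lit 17600000], [], [nat_lit 15995373765, nat_lit 16356667048, nat_lit 15401524563, nat_lit 15759873554, nat_lit 17346067301, nat_lit 17700817202, nat_lit 16740495367, nat_lit 17089967243], nat_lit 1271250, nat_lit 1271250, nat_lit 88400, nat_lit 230001, nat_lit 1271250, nat_lit 1271250, [nat_lit 490000, nat_lit 1100000, nat_lit 1442500, nat_lit 1271250], [nat_lit 101, nat_lit 40, nat_lit 20, nat_lit 40]⟩, C1.Rw.none,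
 ⟨nat_lit 6123, nat_lit 6265, ⟨.ofNat (nat_lit 170127), .ofNat (nat_lit 219144), .ofNat (nat_lit 172263), .ofNat (nat_lit 221280), .ofNat (nat_lit 176146), .ofNat (nat_lit 224374), .ofNat (nat_lit 178281), .ofNat (nat_lit 226509)⟩, ⟨.ofNat (nat_lit 430294), .ofNat (nat_lit 479311), .ofNat (nat_lit 451654), .ofNat (nat_lit 500672), .ofNat (nat_lit 428436), .ofNat (nat_lit 476665), .ofNat (nat_lit 449785), .ofNat (nat_lit 498013)⟩⟩, [⟨nat_lit 0, nat_lit 100, nat_lit 100, nat_lit 45, nat_lit 237376108⟩, ⟨nat_lit 16, nat_lit 100, nat_lit 93, nat_lit 61, nat_lit 2070355⟩, ⟨nat_lit 4, nat_lit 98, nat_lit 100, nat_lit 54, nat_lit 466239725⟩]⟩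
noncomputable def b_VL_600_600_5_59 : St := ⟨true, nat_lit 1, nat_lit 1, nat_lit 1, nat_lit 40, nat_lit 240, nat_lit 250, nat_lit 240, nat_lit 245, nat_lit 16, nat_lit 40, nat_lit 20, nat_lit 40, nat_lit 240, nat_lit 288, nat_lit 0, nat_lit 288, nat_lit 0, nat_lit 8, nat_lit 0, nat_lit 600, nat_lit 0, nat_lit 0⟩
theorem d_VL_600_600_5_59 (h : EB TB.env) : Dead b_VL_600_600_5_59 := chkB_sound0 h (T :=
(.spl (nat_lit 4) (nat_lit 260)
(.leaf p037_l71)
(.trX (nat_lit 23) (nat_lit 100) (nat_lit 99) (nat_lit 63) (nat_lit 268) (.spl (nat_lit 1) (nat_lit 243)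
(.spl (nat_lit 1) (nat_lit 242)
(.spl (nat_lit 6) (nat_lit 4)
(.spl (nat_lit 0) (nat_lit 245)
(.spl (nat_lit 1) (nat_lit 241)
(.spl (nat_lit 2) (nat_lit 32)
(.trX (nat_lit 23) (nat_lit 99) (nat_lit 100) (nat_lit 56) (nat_lit 256) (.spl (nat_lit 2) (nat_lit 20)
(.trX (nat_lit 23) (nat_lit 96) (nat_lit 100) (nat_lit 44) (nat_lit 232) (.leaf p037_l72))
(.leaf p037_l73)))
(.leaf p037_l74))
(.ord (.spl (nat_lit 2) (nat_lit 32)
(.trX (nat_lit 23) (nat_lit 99) (nat_lit 100) (nat_lit 56) (nat_lit 256) (.spl (nat_lit 2) (nat_lit 20)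
(.trX (nat_lit 23) (nat_lit 96) (nat_lit 100) (nat_lit 44) (nat_lit 232) (.spl (nat_lit 0) (nat_lit 243)
(.spl (nat_lit 0) (nat_lit 242)
(.spl (nat_lit 5) (nat_lit 80)
(.leaf p037_l75)
(.spl (nat_lit 5) (nat_lit 160)
(.leaf p037_l76)
(.spl (nat_lit 5) (nat_lit 200)
(.spl (nat_lit 5) (nat_lit 180)
(.leaf p037_l77)
(.leaf p037_l78))
(.leaf p037_l79))))
(.trX (nat_lit 16) (nat_lit 100) (nat_lit 93) (nat_lit 61) (nat_lit 284) (.leaf p037_l80)))
(.trX (nat_lit 16) (nat_lit 100) (nat_lit 93) (nat_lit 61) (nat_lit 284) (.leaf p037_l81))))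
(.leaf p037_l82)))
(.leaf p037_l83))))
(.trX (nat_lit 16) (nat_lit 100) (nat_lit 94) (nat_lit 62) (nat_lit 284) (.leaf p037_l84)))
(.leaf p037_l85))
(.ord (.trX (nat_lit 16) (nat_lit 100) (nat_lit 93) (nat_lit 61) (nat_lit 284) (.spl (nat_lit 6) (nat_lit 4)
(.leaf p037_l86)
(.leaf p037_l87)))))
(.ord (.trX (nat_lit 16) (nat_lit 100) (nat_lit 93) (nat_lit 61) (nat_lit 284) (.spl (nat_lit 6) (nat_lit 4)
(.spl (nat_lit 1) (nat_lit 244)
(.spl (nat_lit 0) (nat_lit 245)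
(.leaf p037_l88)
(.leaf p037_l89))
(.ord (.spl (nat_lit 2) (nat_lit 32)
(.trX (nat_lit 23) (nat_lit 99) (nat_lit 100) (nat_lit 56) (nat_lit 256) (.spl (nat_lit 0) (nat_lit 247)
(.leaf p037_l90)
(.trZ (nat_lit 0) (nat_lit 100) (nat_lit 100) (nat_lit 45) (nat_lit 20) (.trX (nat_lit 16) (nat_lit 100) (nat_lit 95) (nat_lit 62) (nat_lit 280) (.leaf p037_l91)))))
(.leaf p037_l92))))
(.leaf p037_l93)))))))) (by decide +kernel)
noncomputable def p037_l94 : Lf2 := ⟨nat_lit 0, nat_lit 1, [nat_lit 19, nat_lit 5, nat_lit 5, nat_lit 20], true, nat_lit 240, nat_lit 284, nat_lit 0, nat_lit 284, ⟨nat_lit 0, nat_lit 0, nat_lit 1000, nat_lit 6, nat_lit 81, nat_lit 1000, nat_lit 178, nat_lit 1000, nat_lit 38520, nat_lit 262, nat_lit 62017, nat_lit 276, nat_lit 52573104, nat_lit 0, nat_lit 0, nat_lit 3364405, false, false⟩,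
 nat_lit 0, nat_lit 6539, nat_lit 0, nat_lit 0, nat_lit 3546, nat_lit 0, nat_lit 663, nat_lit 0, nat_lit 0, nat_lit 0, nat_lit 0, nat_lit 0, nat_lit 0, nat_lit 20517687545331, nat_lit 9, nat_lit 915250, nat_lit 0, nat_lit 0, [(nat_lit 6, [(nat_lit 4, nat_lit 113), (nat_lit 6, nat_lit 887)])],
 ⟨p037_k23, nat_lit 0, nat_lit 0, nat_lit 0, nat_lit 0, nat_lit 223602, [nat_lit 691320400, nat_lit 1063006400, nat_lit 19775600], [], [nat_lit 14703121918, nat_lit 14759506442, nat_lit 14293880206, nat_lit 14349628351, nat_lit 17178581817, nat_lit 17229186848, nat_lit 16741349941, nat_lit 16793810691], nat_lit 1271250, nat_lit 1271250, nat_lit 111251, nat_lit 230001, nat_lit 1271250, nat_lit 1271250, [nat_lit 490000, nat_lit 1100000, nat_lit 1442500], [nat_lit 6, nat_lit 40, nat_lit 20, nat_lit 40]⟩, C1.Rw.none,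
 ⟨nat_lit 6204, nat_lit 6225, ⟨.ofNat (nat_lit 182121), .ofNat (nat_lit 222780), .ofNat (nat_lit 183189), .ofNat (nat_lit 223848), .ofNat (nat_lit 182964), .ofNat (nat_lit 223529), .ofNat (nat_lit 184032), .ofNat (nat_lit 224596)⟩, ⟨.ofNat (nat_lit 389106), .ofNat (nat_lit 478556), .ofNat (nat_lit 410463), .ofNat (nat_lit 499912), .ofNat (nat_lit 388935), .ofNat (nat_lit 478178), .ofNat (nat_lit 410290), .ofNat (nat_lit 499533)⟩⟩, [⟨nat_lit 0, nat_lit 100, nat_lit 100, nat_lit 46, nat_lit 214988515⟩, ⟨nat_lit 16, nat_lit 100, nat_lit 94, nat_lit 62, nat_lit 27788180⟩, ⟨nat_lit 4, nat_lit 97, nat_lit 100, nat_lit 54, nat_lit 434754753⟩]⟩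
noncomputable def p037_l95 : Lf2 := ⟨nat_lit 0, nat_lit 1, [nat_lit 19, nat_lit 5, nat_lit 5, nat_lit 20], true, nat_lit 240, nat_lit 280, nat_lit 0, nat_lit 284, ⟨nat_lit 0, nat_lit 0, nat_lit 1000, nat_lit 6, nat_lit 82, nat_lit 1000, nat_lit 176, nat_lit 1000, nat_lit 50670, nat_lit 269, nat_lit 62017, nat_lit 276, nat_lit 52706890, nat_lit 0, nat_lit 0, nat_lit 3352016, false, false⟩,
 nat_lit 0, nat_lit 6509, nat_lit 0, nat_lit 0, nat_lit 3547, nat_lit 0, nat_lit 673, nat_lit 0, nat_lit 0, nat_lit 0, nat_lit 0, nat_lit 0, nat_lit 0, nat_lit 20332208077309, nat_lit 8, nat_lit 894250, nat_lit 0, nat_lit 0, [(nat_lit 6, [(nat_lit 4, nat_lit 141), (nat_lit 6, nat_lit 859)])],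
 ⟨p037_k28, nat_lit 0, nat_lit 0, nat_lit 0, nat_lit 0, nat_lit 231557, [nat_lit 708822800, nat_lit 1039524800, nat_lit 7649200], [], [nat_lit 14737337980, nat_lit 14793729047, nat_lit 14327252322, nat_lit 14383006914, nat_lit 16960624950, nat_lit 17011889964, nat_lit 16525689838, nat_lit 16579029853], nat_lit 1271250, nat_lit 1271250, nat_lit 111251, nat_lit 230001, nat_lit 1271250, nat_lit 1271250, [nat_lit 490000, nat_lit 1100000, nat_lit 1442500], [nat_lit 6, nat_lit 40, nat_lit 20, nat_lit 40]⟩, C1.Rw.none,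
 ⟨nat_lit 6184, nat_lit 6205, ⟨.ofNat (nat_lit 182964), .ofNat (nat_lit 223529), .ofNat (nat_lit 185099), .ofNat (nat_lit 225664), .ofNat (nat_lit 183805), .ofNat (nat_lit 224276), .ofNat (nat_lit 185940), .ofNat (nat_lit 226411)⟩, ⟨.ofNat (nat_lit 388935), .ofNat (nat_lit 470065), .ofNat (nat_lit 410290), .ofNat (nat_lit 491420), .ofNat (nat_lit 388764), .ofNat (nat_lit 469706), .ofNat (nat_lit 410117), .ofNat (nat_lit 491059)⟩⟩, [⟨nat_lit 0, nat_lit 100, nat_lit 100, nat_lit 47, nat_lit 215027834⟩, ⟨nat_lit 4, nat_lit 98, nat_lit 100, nat_lit 54, nat_lit 455881708⟩]⟩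
noncomputable def p037_l96 : Lf2 := ⟨nat_lit 0, nat_lit 2, [nat_lit 10, nat_lit 5, nat_lit 5, nat_lit 20], true, nat_lit 240, nat_lit 284, nat_lit 0, nat_lit 284, ⟨nat_lit 0, nat_lit 0, nat_lit 1000, nat_lit 6, nat_lit 82, nat_lit 1000, nat_lit 178, nat_lit 1000, nat_lit 38520, nat_lit 262, nat_lit 62017, nat_lit 276, nat_lit 52555808, nat_lit 0, nat_lit 0, nat_lit 3369183, false, false⟩,
 nat_lit 0, nat_lit 6563, nat_lit 0, nat_lit 0, nat_lit 3560, nat_lit 0, nat_lit 89, nat_lit 0, nat_lit 0, nat_lit 0, nat_lit 0, nat_lit 0, nat_lit 0, nat_lit 20067930790120, nat_lit 44, nat_lit 1000000, nat_lit 0, nat_lit 0, [(nat_lit 6, [(nat_lit 6, nat_lit 1000)])],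
 ⟨p037_k29, nat_lit 0, nat_lit 0, nat_lit 0, nat_lit 0, nat_lit 187817, [nat_lit 868400000, nat_lit 1653200000, nat_lit 688000000, nat_lit 17600000], [], [nat_lit 14783009205, nat_lit 14891437486, nat_lit 14366319535, nat_lit 14477996360, nat_lit 17257951172, nat_lit 17358976279, nat_lit 16817755899, nat_lit 16917731256], nat_lit 1271250, nat_lit 1271250, nat_lit 111251, nat_lit 230001, nat_lit 1271250, nat_lit 1271250, [nat_lit 490000, nat_lit 1100000, nat_lit 1442500, nat_lit 1271250], [nat_lit 101, nat_lit 40, nat_lit 20, nat_lit 40]⟩, C1.Rw.none,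
 ⟨nat_lit 6184, nat_lit 6225, ⟨.ofNat (nat_lit 182121), .ofNat (nat_lit 222780), .ofNat (nat_lit 184257), .ofNat (nat_lit 224916), .ofNat (nat_lit 183805), .ofNat (nat_lit 224276), .ofNat (nat_lit 185940), .ofNat (nat_lit 226411)⟩, ⟨.ofNat (nat_lit 389106), .ofNat (nat_lit 478556), .ofNat (nat_lit 410463), .ofNat (nat_lit 499912), .ofNat (nat_lit 388764), .ofNat (nat_lit 477800), .ofNat (nat_lit 410117), .ofNat (nat_lit 499153)⟩⟩, [⟨nat_lit 0, nat_lit 100, nat_lit 100, nat_lit 47, nat_lit 215677227⟩, ⟨nat_lit 16, nat_lit 100, nat_lit 97, nat_lit 54, nat_lit 467310133⟩]⟩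
noncomputable def p037_l97 : Lf2 := ⟨nat_lit 0, nat_lit 2, [nat_lit 10, nat_lit 5, nat_lit 5, nat_lit 20], true, nat_lit 240, nat_lit 280, nat_lit 0, nat_lit 284, ⟨nat_lit 0, nat_lit 0, nat_lit 1000, nat_lit 6, nat_lit 82, nat_lit 1000, nat_lit 176, nat_lit 1000, nat_lit 49699, nat_lit 269, nat_lit 64067, nat_lit 277, nat_lit 52684651, nat_lit 0, nat_lit 0, nat_lit 3358500, false, false⟩,
 nat_lit 0, nat_lit 6353, nat_lit 0, nat_lit 0, nat_lit 3479, nat_lit 0, nat_lit 442, nat_lit 0, nat_lit 0, nat_lit 0, nat_lit 0, nat_lit 0, nat_lit 0, nat_lit 17780558310448, nat_lit 41, nat_lit 940000, nat_lit 0, nat_lit 0, [(nat_lit 6, [(nat_lit 4, nat_lit 80), (nat_lit 6, nat_lit 920)])],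
 ⟨p037_k30, nat_lit 0, nat_lit 0, nat_lit 0, nat_lit 0, nat_lit 243158, [nat_lit 917264001, nat_lit 1583824000, nat_lit 650496000, nat_lit 4528000], [], [nat_lit 14861434868, nat_lit 14917381017, nat_lit 14464833779, nat_lit 14520149927, nat_lit 17062054756, nat_lit 17112784783, nat_lit 16640954747, nat_lit 16693800085], nat_lit 1271250, nat_lit 1271250, nat_lit 111251, nat_lit 230001, nat_lit 1271250, nat_lit 1271250, [nat_lit 490000, nat_lit 1100000, nat_lit 1442500, nat_lit 1271250], [nat_lit 101, nat_lit 40, nat_lit 20, nat_lit 40]⟩, C1.Rw.none,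
 ⟨nat_lit 6164, nat_lit 6185, ⟨.ofNat (nat_lit 183805), .ofNat (nat_lit 224276), .ofNat (nat_lit 187008), .ofNat (nat_lit 227478), .ofNat (nat_lit 184644), .ofNat (nat_lit 225021), .ofNat (nat_lit 187847), .ofNat (nat_lit 228224)⟩, ⟨.ofNat (nat_lit 388764), .ofNat (nat_lit 469706), .ofNat (nat_lit 410117), .ofNat (nat_lit 491059), .ofNat (nat_lit 388592), .ofNat (nat_lit 469346), .ofNat (nat_lit 409943), .ofNat (nat_lit 490698)⟩⟩, [⟨nat_lit 0, nat_lit 100, nat_lit 100, nat_lit 48, nat_lit 211524591⟩, ⟨nat_lit 16, nat_lit 100, nat_lit 98, nat_lit 54, nat_lit 451789726⟩]⟩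
noncomputable def p037_l98 : Lf2 := ⟨nat_lit 0, nat_lit 1, [nat_lit 19, nat_lit 5, nat_lit 5, nat_lit 20], true, nat_lit 240, nat_lit 280, nat_lit 0, nat_lit 284, ⟨nat_lit 0, nat_lit 0, nat_lit 1000, nat_lit 6, nat_lit 83, nat_lit 1000, nat_lit 176, nat_lit 1000, nat_lit 48728, nat_lit 269, nat_lit 64067, nat_lit 277, nat_lit 52644642, nat_lit 0, nat_lit 0, nat_lit 3369740, false, false⟩,
 nat_lit 0, nat_lit 6369, nat_lit 0, nat_lit 0, nat_lit 3504, nat_lit 0, nat_lit 784, nat_lit 0, nat_lit 0, nat_lit 0, nat_lit 0, nat_lit 0, nat_lit 0, nat_lit 19698114657875, nat_lit 5, nat_lit 745750, nat_lit 0, nat_lit 0, [(nat_lit 6, [(nat_lit 4, nat_lit 339), (nat_lit 6, nat_lit 661)])],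
 ⟨p037_k31, nat_lit 0, nat_lit 0, nat_lit 0, nat_lit 0, nat_lit 255951, [nat_lit 865161201, nat_lit 938619200, nat_lit 3326800], [], [nat_lit 14838396797, nat_lit 14950616240, nat_lit 14435971767, nat_lit 14546926448, nat_lit 17040022154, nat_lit 17141550720, nat_lit 16613107364, nat_lit 16715992160], nat_lit 1271250, nat_lit 1271250, nat_lit 111251, nat_lit 230001, nat_lit 1271250, nat_lit 1271250, [nat_lit 490000, nat_lit 1100000, nat_lit 1442500], [nat_lit 6, nat_lit 40, nat_lit 20, nat_lit 40]⟩, C1.Rw.none,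
 ⟨nat_lit 6123, nat_lit 6165, ⟨.ofNat (nat_lit 184644), .ofNat (nat_lit 225021), .ofNat (nat_lit 189982), .ofNat (nat_lit 230359), .ofNat (nat_lit 186319), .ofNat (nat_lit 226509), .ofNat (nat_lit 191656), .ofNat (nat_lit 231846)⟩, ⟨.ofNat (nat_lit 388592), .ofNat (nat_lit 469346), .ofNat (nat_lit 409943), .ofNat (nat_lit 490698), .ofNat (nat_lit 388246), .ofNat (nat_lit 468627), .ofNat (nat_lit 409594), .ofNat (nat_lit 489975)⟩⟩, [⟨nat_lit 0, nat_lit 100, nat_lit 100, nat_lit 50, nat_lit 212486055⟩, ⟨nat_lit 16, nat_lit 100, nat_lit 98, nat_lit 54, nat_lit 401972168⟩, ⟨nat_lit 16, nat_lit 100, nat_lit 95, nat_lit 62, nat_lit 44509856⟩]⟩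
noncomputable def p037_l99 : Lf2 := ⟨nat_lit 0, nat_lit 2, [nat_lit 10, nat_lit 5, nat_lit 5, nat_lit 20], true, nat_lit 240, nat_lit 280, nat_lit 0, nat_lit 284, ⟨nat_lit 0, nat_lit 0, nat_lit 1000, nat_lit 6, nat_lit 83, nat_lit 1000, nat_lit 176, nat_lit 1000, nat_lit 48728, nat_lit 269, nat_lit 64067, nat_lit 277, nat_lit 52644642, nat_lit 0, nat_lit 0, nat_lit 3369740, false, false⟩,
 nat_lit 0, nat_lit 6465, nat_lit 0, nat_lit 0, nat_lit 3557, nat_lit 0, nat_lit 84, nat_lit 0, nat_lit 0, nat_lit 0, nat_lit 0, nat_lit 0, nat_lit 0, nat_lit 20026908128489, nat_lit 44, nat_lit 1000000, nat_lit 0, nat_lit 0, [(nat_lit 6, [(nat_lit 6, nat_lit 1000)])],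
 ⟨p037_k32, nat_lit 0, nat_lit 0, nat_lit 0, nat_lit 0, nat_lit 212201, [nat_lit 868400000, nat_lit 1653200000, nat_lit 688000000, nat_lit 17600000], [], [nat_lit 14944323060, nat_lit 15053031645, nat_lit 14526682472, nat_lit 14638320609, nat_lit 17155149789, nat_lit 17257255610, nat_lit 16717030926, nat_lit 16818065488], nat_lit 1271250, nat_lit 1271250, nat_lit 111251, nat_lit 230001, nat_lit 1271250, nat_lit 1271250, [nat_lit 490000, nat_lit 1100000, nat_lit 1442500, nat_lit 1271250], [nat_lit 101, nat_lit 40, nat_lit 20, nat_lit 40]⟩, C1.Rw.none,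
 ⟨nat_lit 6123, nat_lit 6165, ⟨.ofNat (nat_lit 184644), .ofNat (nat_lit 225021), .ofNat (nat_lit 189982), .ofNat (nat_lit 230359), .ofNat (nat_lit 186319), .ofNat (nat_lit 226509), .ofNat (nat_lit 191656), .ofNat (nat_lit 231846)⟩, ⟨.ofNat (nat_lit 388592), .ofNat (nat_lit 469346), .ofNat (nat_lit 409943), .ofNat (nat_lit 490698), .ofNat (nat_lit 388246), .ofNat (nat_lit 468627), .ofNat (nat_lit 409594), .ofNat (nat_lit 489975)⟩⟩, [⟨nat_lit 0, nat_lit 100, nat_lit 100, nat_lit 50, nat_lit 215207318⟩, ⟨nat_lit 4, nat_lit 98, nat_lit 100, nat_lit 54, nat_lit 456114332⟩]⟩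
noncomputable def b_VL_600_600_5_60 : St := ⟨true, nat_lit 1, nat_lit 1, nat_lit 1, nat_lit 40, nat_lit 240, nat_lit 250, nat_lit 245, nat_lit 250, nat_lit 16, nat_lit 40, nat_lit 20, nat_lit 40, nat_lit 240, nat_lit 288, nat_lit 0, nat_lit 288, nat_lit 0, nat_lit 8, nat_lit 0, nat_lit 600, nat_lit 0, nat_lit 0⟩
theorem d_VL_600_600_5_60 (h : EB TB.env) : Dead b_VL_600_600_5_60 := chkB_sound0 h (T :=
(.ord (.trZ (nat_lit 0) (nat_lit 100) (nat_lit 100) (nat_lit 45) (nat_lit 20) (.trX (nat_lit 16) (nat_lit 100) (nat_lit 94) (nat_lit 62) (nat_lit 284) (.trX (nat_lit 19) (nat_lit 100) (nat_lit 94) (nat_lit 62) (nat_lit 284) (.spl (nat_lit 0) (nat_lit 248)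
(.ord (.spl (nat_lit 0) (nat_lit 247)
(.ord (.spl (nat_lit 6) (nat_lit 4)
(.spl (nat_lit 0) (nat_lit 246)
(.ord (.leaf p037_l94))
(.trX (nat_lit 16) (nat_lit 100) (nat_lit 94) (nat_lit 62) (nat_lit 280) (.leaf p037_l95)))
(.leaf p037_l96)))
(.trX (nat_lit 16) (nat_lit 100) (nat_lit 95) (nat_lit 62) (nat_lit 280) (.leaf p037_l97))))
(.trX (nat_lit 16) (nat_lit 100) (nat_lit 95) (nat_lit 62) (nat_lit 280) (.spl (nat_lit 6) (nat_lit 4)
(.leaf p037_l98)
(.leaf p037_l99))))))))) (by decide +kernel)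
noncomputable def p037_l100 : Lf2 := ⟨nat_lit 0, nat_lit 2, [nat_lit 10, nat_lit 5, nat_lit 5, nat_lit 20], true, nat_lit 240, nat_lit 288, nat_lit 0, nat_lit 288, ⟨nat_lit 0, nat_lit 0, nat_lit 1000, nat_lit 6, nat_lit 104, nat_lit 1000, nat_lit 180, nat_lit 1000, nat_lit 29345, nat_lit 255, nat_lit 101400, nat_lit 293, nat_lit 50970301, nat_lit 0, nat_lit 0, nat_lit 3701010, false, false⟩,
 nat_lit 0, nat_lit 8155, nat_lit 0, nat_lit 0, nat_lit 4317, nat_lit 0, nat_lit 45, nat_lit 0, nat_lit 0, nat_lit 0, nat_lit 0, nat_lit 0, nat_lit 0, nat_lit 7571236828970, nat_lit 80, nat_lit 1000000, nat_lit 0, nat_lit 0, [(nat_lit 6, [(nat_lit 6, nat_lit 1000)])],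
 ⟨p037_k33, nat_lit 0, nat_lit 0, nat_lit 165, nat_lit 0, nat_lit 223935, [nat_lit 2257066667, nat_lit 1408000000, nat_lit 211200000], [], [nat_lit 13758296576, nat_lit 13994226872, nat_lit 13454784527, nat_lit 13702271019, nat_lit 17071581458, nat_lit 17403940021, nat_lit 16323656646, nat_lit 16646476655], nat_lit 1271250, nat_lit 1271250, nat_lit 230001, nat_lit 490000, nat_lit 1271250, nat_lit 1271250, [nat_lit 1100000, nat_lit 1442500, nat_lit 1271250], [nat_lit 9, nat_lit 40, nat_lit 20, nat_lit 80, nat_lit 2, nat_lit 226, nat_lit 20, nat_lit 7]⟩, C1.Rw.none,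
 ⟨nat_lit 6224, nat_lit 6325, ⟨.ofNat (nat_lit 213677), .ofNat (nat_lit 295942), .ofNat (nat_lit 219019), .ofNat (nat_lit 301284), .ofNat (nat_lit 217441), .ofNat (nat_lit 298759), .ofNat (nat_lit 222780), .ofNat (nat_lit 304098)⟩, ⟨.ofNat (nat_lit 389952), .ofNat (nat_lit 488669), .ofNat (nat_lit 411320), .ofNat (nat_lit 510037), .ofNat (nat_lit 389106), .ofNat (nat_lit 486687), .ofNat (nat_lit 410463), .ofNat (nat_lit 508044)⟩⟩, [⟨nat_lit 4, nat_lit 96, nat_lit 100, nat_lit 54, nat_lit 609320641⟩]⟩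
noncomputable def p037_l101 : Lf2 := ⟨nat_lit 0, nat_lit 2, [nat_lit 10, nat_lit 5, nat_lit 5, nat_lit 20], true, nat_lit 240, nat_lit 284, nat_lit 0, nat_lit 288, ⟨nat_lit 0, nat_lit 0, nat_lit 1000, nat_lit 6, nat_lit 105, nat_lit 1000, nat_lit 178, nat_lit 1000, nat_lit 38520, nat_lit 262, nat_lit 104017, nat_lit 294, nat_lit 51049300, nat_lit 0, nat_lit 0, nat_lit 3701244, false, false⟩,
 nat_lit 0, nat_lit 7726, nat_lit 0, nat_lit 0, nat_lit 4190, nat_lit 0, nat_lit 703, nat_lit 0, nat_lit 0, nat_lit 0, nat_lit 0, nat_lit 0, nat_lit 0, nat_lit 23441794762978, nat_lit 80, nat_lit 1000000, nat_lit 0, nat_lit 0, [(nat_lit 6, [(nat_lit 6, nat_lit 1000)])],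
 ⟨p037_k34, nat_lit 0, nat_lit 0, nat_lit 172, nat_lit 0, nat_lit 245812, [nat_lit 2257066667, nat_lit 1408000000, nat_lit 211200000], [], [nat_lit 14139787999, nat_lit 14303703647, nat_lit 13917291519, nat_lit 14075077014, nat_lit 17017629211, nat_lit 17216770984, nat_lit 16329176715, nat_lit 16508609907], nat_lit 1271250, nat_lit 1271250, nat_lit 230001, nat_lit 490000, nat_lit 1271250, nat_lit 1271250, [nat_lit 1100000, nat_lit 1442500, nat_lit 1271250], [nat_lit 9, nat_lit 40, nat_lit 20, nat_lit 80, nat_lit 2, nat_lit 226, nat_lit 20, nat_lit 7]⟩, C1.Rw.none,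
 ⟨nat_lit 6164, nat_lit 6225, ⟨.ofNat (nat_lit 217441), .ofNat (nat_lit 298759), .ofNat (nat_lit 225984), .ofNat (nat_lit 307301), .ofNat (nat_lit 219683), .ofNat (nat_lit 300438), .ofNat (nat_lit 228224), .ofNat (nat_lit 308978)⟩, ⟨.ofNat (nat_lit 389106), .ofNat (nat_lit 478556), .ofNat (nat_lit 410463), .ofNat (nat_lit 499912), .ofNat (nat_lit 388592), .ofNat (nat_lit 477422), .ofNat (nat_lit 409943), .ofNat (nat_lit 498773)⟩⟩, [⟨nat_lit 16, nat_lit 100, nat_lit 98, nat_lit 54, nat_lit 562639142⟩]⟩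
noncomputable def p037_l102 : Lf2 := ⟨nat_lit 0, nat_lit 2, [nat_lit 10, nat_lit 5, nat_lit 5, nat_lit 20], true, nat_lit 240, nat_lit 280, nat_lit 0, nat_lit 288, ⟨nat_lit 0, nat_lit 0, nat_lit 1000, nat_lit 6, nat_lit 106, nat_lit 1000, nat_lit 176, nat_lit 1000, nat_lit 48728, nat_lit 269, nat_lit 106667, nat_lit 295, nat_lit 51150068, nat_lit 0, nat_lit 0, nat_lit 3695009, false, false⟩,
 nat_lit 0, nat_lit 7616, nat_lit 0, nat_lit 0, nat_lit 4190, nat_lit 0, nat_lit 547, nat_lit 0, nat_lit 0, nat_lit 0, nat_lit 0, nat_lit 0, nat_lit 0, nat_lit 25939127326791, nat_lit 80, nat_lit 1000000, nat_lit 0, nat_lit 0, [(nat_lit 6, [(nat_lit 6, nat_lit 1000)])],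
 ⟨p037_k35, nat_lit 0, nat_lit 0, nat_lit 177, nat_lit 0, nat_lit 259988, [nat_lit 2257066667, nat_lit 1408000000, nat_lit 211200000], [], [nat_lit 14303703647, nat_lit 14412980744, nat_lit 14075077014, nat_lit 14180267344, nat_lit 16903845896, nat_lit 17038259350, nat_lit 16252590938, nat_lit 16347708614], nat_lit 1271250, nat_lit 1271250, nat_lit 230001, nat_lit 490000, nat_lit 1271250, nat_lit 1271250, [nat_lit 1100000, nat_lit 1442500, nat_lit 1271250], [nat_lit 9, nat_lit 40, nat_lit 20, nat_lit 80, nat_lit 2, nat_lit 226, nat_lit 20, nat_lit 7]⟩, C1.Rw.none,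
 ⟨nat_lit 6123, nat_lit 6165, ⟨.ofNat (nat_lit 219683), .ofNat (nat_lit 300438), .ofNat (nat_lit 230359), .ofNat (nat_lit 311113), .ofNat (nat_lit 221172), .ofNat (nat_lit 301553), .ofNat (nat_lit 231846), .ofNat (nat_lit 312227)⟩, ⟨.ofNat (nat_lit 388592), .ofNat (nat_lit 469346), .ofNat (nat_lit 409943), .ofNat (nat_lit 490698), .ofNat (nat_lit 388246), .ofNat (nat_lit 468627), .ofNat (nat_lit 409594), .ofNat (nat_lit 489975)⟩⟩, [⟨nat_lit 16, nat_lit 100, nat_lit 98, nat_lit 54, nat_lit 554016574⟩]⟩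
noncomputable def b_VL_600_600_5_61 : St := ⟨true, nat_lit 1, nat_lit 1, nat_lit 1, nat_lit 40, nat_lit 240, nat_lit 250, nat_lit 240, nat_lit 250, nat_lit 40, nat_lit 80, nat_lit 20, nat_lit 40, nat_lit 240, nat_lit 288, nat_lit 0, nat_lit 288, nat_lit 0, nat_lit 8, nat_lit 0, nat_lit 0, nat_lit 0, nat_lit 0⟩
theorem d_VL_600_600_5_61 (h : EB TB.env) : Dead b_VL_600_600_5_61 := chkB_sound0 h (T :=
(.spl (nat_lit 0) (nat_lit 245)
(.ord (.leaf p037_l100))
(.trX (nat_lit 16) (nat_lit 100) (nat_lit 94) (nat_lit 62) (nat_lit 284) (.spl (nat_lit 0) (nat_lit 248)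
(.ord (.leaf p037_l101))
(.trX (nat_lit 16) (nat_lit 100) (nat_lit 95) (nat_lit 62) (nat_lit 280) (.leaf p037_l102)))))) (by decide +kernel)
noncomputable def p037_l103 : Lf2 := ⟨nat_lit 0, nat_lit 5, [nat_lit 4, nat_lit 5, nat_lit 5, nat_lit 20], true, nat_lit 240, nat_lit 260, nat_lit 0, nat_lit 288, ⟨nat_lit 0, nat_lit 0, nat_lit 1000, nat_lit 6, nat_lit 78, nat_lit 1000, nat_lit 168, nat_lit 1000, nat_lit 212817, nat_lit 328, nat_lit 58017, nat_lit 274, nat_lit 53689047, nat_lit 0, nat_lit 0, nat_lit 3203192, false, false⟩,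
 nat_lit 0, nat_lit 8178, nat_lit 0, nat_lit 0, nat_lit 4329, nat_lit 0, nat_lit 0, nat_lit 0, nat_lit 0, nat_lit 0, nat_lit 0, nat_lit 0, nat_lit 0, nat_lit 8456777278435, nat_lit 146, nat_lit 987400, nat_lit 0, nat_lit 0, [(nat_lit 6, [(nat_lit 5, nat_lit 21), (nat_lit 6, nat_lit 979)])],
 ⟨p037_k36, nat_lit 0, nat_lit 0, nat_lit 190, nat_lit 0, nat_lit 164884, [nat_lit 3322317867, nat_lit 3021929601, nat_lit 189617599], [], [nat_lit 14632050628, nat_lit 15154364796, nat_lit 14018541948, nat_lit 14533266321, nat_lit 15890454167, nat_lit 16621319346, nat_lit 15107079773, nat_lit 15596839364], nat_lit 1271250, nat_lit 1271250, nat_lit 88400, nat_lit 230001, nat_lit 1271250, nat_lit 1271250, [nat_lit 1100000, nat_lit 1442500, nat_lit 1271250], [nat_lit 11, nat_lit 40, nat_lit 20, nat_lit 80, nat_lit 1, nat_lit 373, nat_lit 150, nat_lit 10]⟩, C1.Rw.none,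
 ⟨nat_lit 6123, nat_lit 6325, ⟨.ofNat (nat_lit 164319), .ofNat (nat_lit 213677), .ofNat (nat_lit 169661), .ofNat (nat_lit 219019), .ofNat (nat_lit 172944), .ofNat (nat_lit 221172), .ofNat (nat_lit 178281), .ofNat (nat_lit 226509)⟩, ⟨.ofNat (nat_lit 389952), .ofNat (nat_lit 431084), .ofNat (nat_lit 411320), .ofNat (nat_lit 452452), .ofNat (nat_lit 388246), .ofNat (nat_lit 428436), .ofNat (nat_lit 409594), .ofNat (nat_lit 449785)⟩⟩, [⟨nat_lit 0, nat_lit 100, nat_lit 100, nat_lit 44, nat_lit 242243742⟩, ⟨nat_lit 4, nat_lit 97, nat_lit 100, nat_lit 54, nat_lit 569805671⟩]⟩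
noncomputable def p037_l104 : Lf2 := ⟨nat_lit 0, nat_lit 4, [nat_lit 38, nat_lit 5, nat_lit 5, nat_lit 20], true, nat_lit 240, nat_lit 260, nat_lit 0, nat_lit 284, ⟨nat_lit 0, nat_lit 0, nat_lit 1000, nat_lit 6, nat_lit 83, nat_lit 1000, nat_lit 168, nat_lit 1000, nat_lit 240009, nat_lit 335, nat_lit 64067, nat_lit 277, nat_lit 53427722, nat_lit 0, nat_lit 0, nat_lit 3267984, false, false⟩,
 nat_lit 0, nat_lit 7834, nat_lit 0, nat_lit 0, nat_lit 4249, nat_lit 0, nat_lit 95, nat_lit 0, nat_lit 0, nat_lit 0, nat_lit 0, nat_lit 0, nat_lit 0, nat_lit 20850090954754, nat_lit 80, nat_lit 1000000, nat_lit 0, nat_lit 0, [(nat_lit 6, [(nat_lit 6, nat_lit 1000)])],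
 ⟨p037_k37, nat_lit 0, nat_lit 0, nat_lit 154, nat_lit 0, nat_lit 179119, [nat_lit 2257066667, nat_lit 1408000000, nat_lit 211200000], [], [nat_lit 14527148707, nat_lit 14785943058, nat_lit 14096783379, nat_lit 14352152085, nat_lit 15931661643, nat_lit 16293741801, nat_lit 15177594734, nat_lit 15501196117], nat_lit 1271250, nat_lit 1271250, nat_lit 111251, nat_lit 230001, nat_lit 1271250, nat_lit 1271250, [nat_lit 1100000, nat_lit 1442500, nat_lit 1271250], [nat_lit 9, nat_lit 40, nat_lit 20, nat_lit 80, nat_lit 2, nat_lit 215, nat_lit 10, nat_lit 7]⟩, C1.Rw.none,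
 ⟨nat_lit 6123, nat_lit 6225, ⟨.ofNat (nat_lit 182121), .ofNat (nat_lit 222780), .ofNat (nat_lit 187461), .ofNat (nat_lit 228119), .ofNat (nat_lit 186319), .ofNat (nat_lit 226509), .ofNat (nat_lit 191656), .ofNat (nat_lit 231846)⟩, ⟨.ofNat (nat_lit 389106), .ofNat (nat_lit 429765), .ofNat (nat_lit 410463), .ofNat (nat_lit 451122), .ofNat (nat_lit 388246), .ofNat (nat_lit 428436), .ofNat (nat_lit 409594), .ofNat (nat_lit 449785)⟩⟩, [⟨nat_lit 0, nat_lit 100, nat_lit 100, nat_lit 50, nat_lit 219971888⟩, ⟨nat_lit 16, nat_lit 100, nat_lit 98, nat_lit 54, nat_lit 591935947⟩]⟩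
noncomputable def p037_l105 : Lf2 := ⟨nat_lit 0, nat_lit 5, [nat_lit 4, nat_lit 5, nat_lit 5, nat_lit 20], true, nat_lit 240, nat_lit 260, nat_lit 0, nat_lit 284, ⟨nat_lit 0, nat_lit 0, nat_lit 1000, nat_lit 6, nat_lit 83, nat_lit 1000, nat_lit 168, nat_lit 1000, nat_lit 240009, nat_lit 335, nat_lit 64067, nat_lit 277, nat_lit 53427722, nat_lit 0, nat_lit 0, nat_lit 3267984, false, false⟩,
 nat_lit 0, nat_lit 8194, nat_lit 0, nat_lit 0, nat_lit 4444, nat_lit 0, nat_lit 0, nat_lit 0, nat_lit 0, nat_lit 0, nat_lit 0, nat_lit 0, nat_lit 0, nat_lit 19330176070425, nat_lit 142, nat_lit 957400, nat_lit 0, nat_lit 0, [(nat_lit 6, [(nat_lit 5, nat_lit 71), (nat_lit 6, nat_lit 929)])],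
 ⟨p037_k38, nat_lit 0, nat_lit 0, nat_lit 163, nat_lit 0, nat_lit 106276, [nat_lit 3280344534, nat_lit 2940809601, nat_lit 172897599], [], [nat_lit 14726397907, nat_lit 14981872711, nat_lit 14090735229, nat_lit 14350963043, nat_lit 16038030633, nat_lit 16408245606, nat_lit 15197790386, nat_lit 15564987052], nat_lit 1271250, nat_lit 1271250, nat_lit 111251, nat_lit 230001, nat_lit 1271250, nat_lit 1271250, [nat_lit 1100000, nat_lit 1442500, nat_lit 1271250], [nat_lit 11, nat_lit 40, nat_lit 20, nat_lit 80, nat_lit 1, nat_lit 373, nat_lit 150, nat_lit 10]⟩, C1.Rw.none,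
 ⟨nat_lit 6123, nat_lit 6225, ⟨.ofNat (nat_lit 182121), .ofNat (nat_lit 222780), .ofNat (nat_lit 187461), .ofNat (nat_lit 228119), .ofNat (nat_lit 186319), .ofNat (nat_lit 226509), .ofNat (nat_lit 191656), .ofNat (nat_lit 231846)⟩, ⟨.ofNat (nat_lit 389106), .ofNat (nat_lit 429765), .ofNat (nat_lit 410463), .ofNat (nat_lit 451122), .ofNat (nat_lit 388246), .ofNat (nat_lit 428436), .ofNat (nat_lit 409594), .ofNat (nat_lit 449785)⟩⟩, [⟨nat_lit 0, nat_lit 100, nat_lit 100, nat_lit 50, nat_lit 271298064⟩, ⟨nat_lit 4, nat_lit 98, nat_lit 100, nat_lit 54, nat_lit 550889328⟩]⟩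
noncomputable def b_VL_600_600_5_62 : St := ⟨true, nat_lit 1, nat_lit 1, nat_lit 1, nat_lit 40, nat_lit 240, nat_lit 250, nat_lit 240, nat_lit 250, nat_lit 16, nat_lit 40, nat_lit 20, nat_lit 40, nat_lit 240, nat_lit 260, nat_lit 0, nat_lit 288, nat_lit 8, nat_lit 20, nat_lit 0, nat_lit 0, nat_lit 0, nat_lit 0⟩
theorem d_VL_600_600_5_62 (h : EB TB.env) : Dead b_VL_600_600_5_62 := chkB_sound0 h (T :=
(.spl (nat_lit 1) (nat_lit 245)
(.leaf p037_l103)
(.ord (.trZ (nat_lit 0) (nat_lit 100) (nat_lit 100) (nat_lit 45) (nat_lit 20) (.trX (nat_lit 19) (nat_lit 100) (nat_lit 94) (nat_lit 62) (nat_lit 284) (.spl (nat_lit 6) (nat_lit 16)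
(.leaf p037_l104)
(.leaf p037_l105))))))) (by decide +kernel)
noncomputable def p037_l106 : Lf2 := ⟨nat_lit 0, nat_lit 3, [nat_lit 45, nat_lit 5, nat_lit 5, nat_lit 20], false, nat_lit 260, nat_lit 288, nat_lit 0, nat_lit 80, ⟨nat_lit 1000, nat_lit 0, nat_lit 0, nat_lit 0, nat_lit 0, nat_lit 0, nat_lit 0, nat_lit 0, nat_lit 0, nat_lit 0, nat_lit 0, nat_lit 0, nat_lit 0, nat_lit 0, nat_lit 0, nat_lit 0, false, false⟩,
 nat_lit 19591, nat_lit 0, nat_lit 0, nat_lit 10060, nat_lit 10371, nat_lit 7785, nat_lit 2370, nat_lit 0, nat_lit 0, nat_lit 3272, nat_lit 0, nat_lit 0, nat_lit 0, nat_lit 19798980098463, nat_lit 0, nat_lit 0, nat_lit 0, nat_lit 0, [],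
 ⟨p037_k39, nat_lit 0, nat_lit 0, nat_lit 143, nat_lit 0, nat_lit 104828, [nat_lit 4688000000, nat_lit 6250000000, nat_lit 7968000000], [], [nat_lit 19444428426, nat_lit 19630600938, nat_lit 18866347361, nat_lit 19034885610, nat_lit 23378138968, nat_lit 23599974001, nat_lit 22647749799, nat_lit 22869728112], nat_lit 1271250, nat_lit 1271250, nat_lit 88400, nat_lit 111251, nat_lit 1271250, nat_lit 1271250, [nat_lit 1100000, nat_lit 1442500, nat_lit 1271250], [nat_lit 9, nat_lit 40, nat_lit 20, nat_lit 80, nat_lit 2, nat_lit 215, nat_lit 10, nat_lit 7]⟩, ⟨p037_k39, nat_lit 0, nat_lit 0, nat_lit 269, nat_lit 0, nat_lit 104828, [nat_lit 4688000000, nat_lit 6250000000, nat_lit 7968000000], [], [nat_lit 18298001157, nat_lit 18515123239, nat_lit 17871625040, nat_lit 18076112069, nat_lit 13974156272, nat_lit 14166812333, nat_lit 13610722300, nat_lit 13803106747], nat_lit 1271250, nat_lit 1271250, nat_lit 88400, nat_lit 111251, nat_lit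 0, nat_lit 490000, [nat_lit 1100000, nat_lit 1442500, nat_lit 1271250], [nat_lit 9, nat_lit 40, nat_lit 20, nat_lit 80, nat_lit 2, nat_lit 232, nat_lit 25, nat_lit 8]⟩,
 zbF0, [⟨nat_lit 0, nat_lit 100, nat_lit 100, nat_lit 41, nat_lit 2058897103⟩, ⟨nat_lit 16, nat_lit 100, nat_lit 96, nat_lit 54, nat_lit 1759138451⟩]⟩
noncomputable def p037_l107 : Lf2 := ⟨nat_lit 0, nat_lit 3, [nat_lit 45, nat_lit 5, nat_lit 5, nat_lit 20], false, nat_lit 260, nat_lit 288, nat_lit 80, nat_lit 232, ⟨nat_lit 1000, nat_lit 0, nat_lit 0, nat_lit 0, nat_lit 0, nat_lit 0, nat_lit 0, nat_lit 0, nat_lit 0, nat_lit 0, nat_lit 0, nat_lit 0, nat_lit 0, nat_lit 0, nat_lit 0, nat_lit 0, false, false⟩,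
 nat_lit 18619, nat_lit 0, nat_lit 0, nat_lit 0, nat_lit 9856, nat_lit 7491, nat_lit 2665, nat_lit 0, nat_lit 0, nat_lit 0, nat_lit 0, nat_lit 0, nat_lit 0, nat_lit 14389120184986, nat_lit 0, nat_lit 0, nat_lit 0, nat_lit 0, [],
 ⟨p037_k39, nat_lit 0, nat_lit 0, nat_lit 143, nat_lit 0, nat_lit 104828, [nat_lit 4688000000, nat_lit 6250000000, nat_lit 7968000000], [], [nat_lit 19161817847, nat_lit 19325341713, nat_lit 18614689621, nat_lit 18777953703, nat_lit 22935826974, nat_lit 23150182407, nat_lit 22243706343, nat_lit 22458194372], nat_lit 1271250, nat_lit 1271250, nat_lit 88400, nat_lit 111251, nat_lit 1271250, nat_lit 1271250, [nat_lit 1100000, nat_lit 1442500, nat_lit 1271250], [nat_lit 9, nat_lit 40, nat_lit 20, nat_lit 80, nat_lit 2, nat_lit 215, nat_lit 10, nat_lit 7]⟩, ⟨p037_k39, nat_lit 0, nat_lit 0, nat_lit 229, nat_lit 0, nat_lit 104828, [nat_lit 4688000000, nat_lit 6250000000, nat_lit 7968000000], [], [nat_lit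 8789067763, nat_lit 9076836655, nat_lit 8347122992, nat_lit 8593440674, nat_lit 14853461806, nat_lit 15070411761, nat_lit 14371141837, nat_lit 14554355482], nat_lit 1271250, nat_lit 1271250, nat_lit 88400, nat_lit 111251, nat_lit 490000, nat_lit 1677500, [nat_lit 1100000, nat_lit 1442500, nat_lit 1271250], [nat_lit 9, nat_lit 40, nat_lit 20, nat_lit 80, nat_lit 2, nat_lit 289, nat_lit 75, nat_lit 10]⟩,
 zbF0, [⟨nat_lit 0, nat_lit 100, nat_lit 100, nat_lit 41, nat_lit 1225783566⟩, ⟨nat_lit 4, nat_lit 96, nat_lit 100, nat_lit 54, nat_lit 1141342695⟩, ⟨nat_lit 23, nat_lit 96, nat_lit 100, nat_lit 44, nat_lit 900990639⟩]⟩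
noncomputable def p037_l108 : Lf2 := ⟨nat_lit 0, nat_lit 3, [nat_lit 45, nat_lit 5, nat_lit 5, nat_lit 20], false, nat_lit 260, nat_lit 284, nat_lit 0, nat_lit 80, ⟨nat_lit 1000, nat_lit 0, nat_lit 0, nat_lit 0, nat_lit 0, nat_lit 0, nat_lit 0, nat_lit 0, nat_lit 0, nat_lit 0, nat_lit 0, nat_lit 0, nat_lit 0, nat_lit 0, nat_lit 0, nat_lit 0, false, false⟩,
 nat_lit 14077, nat_lit 10807, nat_lit 0, nat_lit 0, nat_lit 13302, nat_lit 7452, nat_lit 0, nat_lit 0, nat_lit 0, nat_lit 0, nat_lit 0, nat_lit 0, nat_lit 0, nat_lit 0, nat_lit 0, nat_lit 0, nat_lit 0, nat_lit 0, [],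
 ⟨p037_k40, nat_lit 0, nat_lit 0, nat_lit 140, nat_lit 0, nat_lit 113205, [nat_lit 4688000000, nat_lit 7968000000], [], [nat_lit 22354993850, nat_lit 22454288791, nat_lit 21600717095, nat_lit 21699994551, nat_lit 25476169737, nat_lit 25610610818, nat_lit 24528187244, nat_lit 24662725997], nat_lit 1271250, nat_lit 1271250, nat_lit 88400, nat_lit 111251, nat_lit 1271250, nat_lit 1271250, [nat_lit 1100000, nat_lit 1785000], [nat_lit 39, nat_lit 40, nat_lit 20, nat_lit 80, nat_lit 7, nat_lit 215, nat_lit 10, nat_lit 7]⟩, ⟨p037_k41, nat_lit 0, nat_lit 0, nat_lit 270, nat_lit 0, nat_lit 114475, [nat_lit 4688000000, nat_lit 7968000000], [], [nat_lit 23396139328, nat_lit 23713625922, nat_lit 22887780608, nat_lit 23201151970, nat_lit 19075847248, nat_lit 19329061117, nat_lit 18728346704, nat_lit 18981238946], nat_lit 1271250, nat_lit 1271250, nat_lit 88400, nat_lit 111251, nat_lit 0, nat_lit 490000, [nat_lit 1100000, nat_lit 1785000],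 [nat_lit 39, nat_lit 40, nat_lit 20, nat_lit 80, nat_lit 7, nat_lit 232, nat_lit 25, nat_lit 8]⟩,
 zbF0, [⟨nat_lit 0, nat_lit 100, nat_lit 100, nat_lit 42, nat_lit 2378767012⟩, ⟨nat_lit 4, nat_lit 96, nat_lit 100, nat_lit 54, nat_lit 1649216385⟩]⟩
noncomputable def p037_l109 : Lf2 := ⟨nat_lit 0, nat_lit 3, [nat_lit 45, nat_lit 5, nat_lit 5, nat_lit 20], false, nat_lit 260, nat_lit 284, nat_lit 80, nat_lit 232, ⟨nat_lit 1000, nat_lit 0, nat_lit 0, nat_lit 0, nat_lit 0, nat_lit 0, nat_lit 0, nat_lit 0, nat_lit 0, nat_lit 0, nat_lit 0, nat_lit 0, nat_lit 0, nat_lit 0, nat_lit 0, nat_lit 0, false, false⟩,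
 nat_lit 14203, nat_lit 3894, nat_lit 0, nat_lit 0, nat_lit 9674, nat_lit 7519, nat_lit 2639, nat_lit 0, nat_lit 0, nat_lit 0, nat_lit 0, nat_lit 0, nat_lit 0, nat_lit 8730998572499, nat_lit 0, nat_lit 0, nat_lit 0, nat_lit 0, [],
 ⟨p037_k42, nat_lit 0, nat_lit 0, nat_lit 144, nat_lit 0, nat_lit 113205, [nat_lit 4688000000, nat_lit 6250000000, nat_lit 7968000000], [], [nat_lit 19216968257, nat_lit 19333640801, nat_lit 18680732561, nat_lit 18769194491, nat_lit 22451909251, nat_lit 22559448408, nat_lit 21773488493, nat_lit 21881088766], nat_lit 1271250, nat_lit 1271250, nat_lit 88400, nat_lit 111251, nat_lit 1271250, nat_lit 1271250, [nat_lit 1100000, nat_lit 1442500, nat_lit 1271250], [nat_lit 9, nat_lit 40, nat_lit 20, nat_lit 80, nat_lit 2, nat_lit 215, nat_lit 10, nat_lit 7]⟩, ⟨p037_k39, nat_lit 0, nat_lit 0, nat_lit 230, nat_lit 0, nat_lit 114475, [nat_lit 4688000000, nat_lit 6250000000, nat_lit 7968000000], [], [nat_lit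 8793604502, nat_lit 9226375451, nat_lit 8318454128, nat_lit 8688863605, nat_lit 14862874517, nat_lit 15189085694, nat_lit 14348209724, nat_lit 14670328300], nat_lit 1271250, nat_lit 1271250, nat_lit 88400, nat_lit 111251, nat_lit 490000, nat_lit 1677500, [nat_lit 1100000, nat_lit 1442500, nat_lit 1271250], [nat_lit 9, nat_lit 40, nat_lit 20, nat_lit 80, nat_lit 2, nat_lit 289, nat_lit 75, nat_lit 10]⟩,
 zbF0, [⟨nat_lit 0, nat_lit 100, nat_lit 100, nat_lit 42, nat_lit 1251124167⟩, ⟨nat_lit 4, nat_lit 96, nat_lit 100, nat_lit 54, nat_lit 1137839394⟩, ⟨nat_lit 23, nat_lit 96, nat_lit 100, nat_lit 44, nat_lit 898894757⟩]⟩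
noncomputable def p037_l110 : Lf2 := ⟨nat_lit 0, nat_lit 3, [nat_lit 45, nat_lit 5, nat_lit 5, nat_lit 20], false, nat_lit 260, nat_lit 284, nat_lit 0, nat_lit 80, ⟨nat_lit 1000, nat_lit 0, nat_lit 0, nat_lit 0, nat_lit 0, nat_lit 0, nat_lit 0, nat_lit 0, nat_lit 0, nat_lit 0, nat_lit 0, nat_lit 0, nat_lit 0, nat_lit 0, nat_lit 0, nat_lit 0, false, false⟩,
 nat_lit 14072, nat_lit 3725, nat_lit 0, nat_lit 9723, nat_lit 9560, nat_lit 7449, nat_lit 2618, nat_lit 0, nat_lit 0, nat_lit 2931, nat_lit 0, nat_lit 0, nat_lit 0, nat_lit 4870842366293, nat_lit 0, nat_lit 0, nat_lit 0, nat_lit 0, [],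
 ⟨p037_k43, nat_lit 0, nat_lit 0, nat_lit 152, nat_lit 0, nat_lit 131391, [nat_lit 4688000000, nat_lit 6250000000, nat_lit 7968000000], [], [nat_lit 19266544133, nat_lit 19498254626, nat_lit 18737136534, nat_lit 18914167465, nat_lit 22463573955, nat_lit 22676961629, nat_lit 21793683406, nat_lit 22007191016], nat_lit 1271250, nat_lit 1271250, nat_lit 88400, nat_lit 111251, nat_lit 1271250, nat_lit 1271250, [nat_lit 1100000, nat_lit 1442500, nat_lit 1271250], [nat_lit 9, nat_lit 40, nat_lit 20, nat_lit 80, nat_lit 2, nat_lit 215, nat_lit 10, nat_lit 7]⟩, ⟨p037_k39, nat_lit 0, nat_lit 0, nat_lit 272, nat_lit 0, nat_lit 133603, [nat_lit 4688000000, nat_lit 6250000000, nat_lit 7968000000], [], [nat_lit 18714565712, nat_lit 19243573508, nat_lit 18209692271, nat_lit 18731342278, nat_lit 14540108221, nat_lit 15008429567, nat_lit 14194697020, nat_lit 14662357410], nat_lit 1271250, nat_lit 1271250, nat_lit 88400, nat_lit 111251, nat_lit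 0, nat_lit 490000, [nat_lit 1100000, nat_lit 1442500, nat_lit 1271250], [nat_lit 9, nat_lit 40, nat_lit 20, nat_lit 80, nat_lit 2, nat_lit 232, nat_lit 25, nat_lit 8]⟩,
 zbF0, [⟨nat_lit 0, nat_lit 100, nat_lit 100, nat_lit 43, nat_lit 2092738721⟩, ⟨nat_lit 4, nat_lit 97, nat_lit 100, nat_lit 54, nat_lit 1678794785⟩]⟩
noncomputable def p037_l111 : Lf2 := ⟨nat_lit 0, nat_lit 3, [nat_lit 45, nat_lit 5, nat_lit 5, nat_lit 20], false, nat_lit 260, nat_lit 284, nat_lit 80, nat_lit 232, ⟨nat_lit 1000, nat_lit 0, nat_lit 0, nat_lit 0, nat_lit 0, nat_lit 0, nat_lit 0, nat_lit 0, nat_lit 0, nat_lit 0, nat_lit 0, nat_lit 0, nat_lit 0, nat_lit 0, nat_lit 0, nat_lit 0, false, false⟩,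
 nat_lit 14121, nat_lit 3676, nat_lit 0, nat_lit 0, nat_lit 9560, nat_lit 7475, nat_lit 2619, nat_lit 0, nat_lit 0, nat_lit 0, nat_lit 0, nat_lit 0, nat_lit 0, nat_lit 0, nat_lit 0, nat_lit 0, nat_lit 0, nat_lit 0, [],
 ⟨p037_k43, nat_lit 0, nat_lit 0, nat_lit 148, nat_lit 0, nat_lit 122040, [nat_lit 4688000000, nat_lit 6250000000, nat_lit 7968000000], [], [nat_lit 19266006827, nat_lit 19498254626, nat_lit 18735417784, nat_lit 18914054965, nat_lit 22463573955, nat_lit 22676961629, nat_lit 21793683406, nat_lit 22007191016], nat_lit 1271250, nat_lit 1271250, nat_lit 88400, nat_lit 111251, nat_lit 1271250, nat_lit 1271250, [nat_lit 1100000, nat_lit 1442500, nat_lit 1271250], [nat_lit 9, nat_lit 40, nat_lit 20, nat_lit 80, nat_lit 2, nat_lit 215, nat_lit 10, nat_lit 7]⟩, ⟨p037_k39, nat_lit 0, nat_lit 0, nat_lit 231, nat_lit 0, nat_lit 124095, [nat_lit 4688000000, nat_lit 6250000000, nat_lit 7968000000], [], [nat_lit 8798971200,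 nat_lit 9217490043, nat_lit 8363505200, nat_lit 8732448606, nat_lit 14848083114, nat_lit 15173058764, nat_lit 14384245901, nat_lit 14658701956], nat_lit 1271250, nat_lit 1271250, nat_lit 88400, nat_lit 111251, nat_lit 490000, nat_lit 1677500, [nat_lit 1100000, nat_lit 1442500, nat_lit 1271250], [nat_lit 9, nat_lit 40, nat_lit 20, nat_lit 80, nat_lit 2, nat_lit 289, nat_lit 75, nat_lit 10]⟩,
 zbF0, [⟨nat_lit 0, nat_lit 100, nat_lit 100, nat_lit 43, nat_lit 1241986619⟩, ⟨nat_lit 4, nat_lit 97, nat_lit 100, nat_lit 54, nat_lit 1125917551⟩, ⟨nat_lit 23, nat_lit 96, nat_lit 100, nat_lit 44, nat_lit 896067987⟩]⟩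
noncomputable def p037_l112 : Lf2 := ⟨nat_lit 0, nat_lit 3, [nat_lit 45, nat_lit 5, nat_lit 5, nat_lit 20], false, nat_lit 260, nat_lit 284, nat_lit 80, nat_lit 232, ⟨nat_lit 1000, nat_lit 0, nat_lit 0, nat_lit 0, nat_lit 0, nat_lit 0, nat_lit 0, nat_lit 0, nat_lit 0, nat_lit 0, nat_lit 0, nat_lit 0, nat_lit 0, nat_lit 0, nat_lit 0, nat_lit 0, false, false⟩,
 nat_lit 21025, nat_lit 0, nat_lit 0, nat_lit 0, nat_lit 11294, nat_lit 11294, nat_lit 1752, nat_lit 0, nat_lit 0, nat_lit 2452, nat_lit 0, nat_lit 0, nat_lit 0, nat_lit 12230581636385, nat_lit 0, nat_lit 0, nat_lit 0, nat_lit 0, [],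
 ⟨p037_k43, nat_lit 0, nat_lit 0, nat_lit 152, nat_lit 0, nat_lit 131391, [nat_lit 4688000000, nat_lit 6250000000, nat_lit 7968000000], [], [nat_lit 20310771179, nat_lit 20573052158, nat_lit 19513424830, nat_lit 19774582333, nat_lit 23921874842, nat_lit 24160978028, nat_lit 23123164927, nat_lit 23362422991], nat_lit 1271250, nat_lit 1271250, nat_lit 88400, nat_lit 111251, nat_lit 1271250, nat_lit 1271250, [nat_lit 1100000, nat_lit 1442500, nat_lit 1271250], [nat_lit 9, nat_lit 40, nat_lit 20, nat_lit 80, nat_lit 2, nat_lit 215, nat_lit 10, nat_lit 7]⟩, ⟨p037_k43, nat_lit 0, nat_lit 0, nat_lit 230, nat_lit 0, nat_lit 131391, [nat_lit 4688000000, nat_lit 6250000000, nat_lit 7968000000], [], [nat_lit 12020221142, nat_lit 12289038192, nat_lit 11346021879, nat_lit 11614691936, nat_lit 16564123434, nat_lit 16852265975, nat_lit 15764156955, nat_lit 16051814531], nat_lit 1271250, nat_lit 1271250, nat_lit 88400, nat_lit 111251, nat_lit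 490000, nat_lit 1677500, [nat_lit 1100000, nat_lit 1442500, nat_lit 1271250], [nat_lit 9, nat_lit 40, nat_lit 20, nat_lit 80, nat_lit 2, nat_lit 289, nat_lit 75, nat_lit 10]⟩,
 zbF0, [⟨nat_lit 0, nat_lit 100, nat_lit 100, nat_lit 43, nat_lit 2045222601⟩, ⟨nat_lit 4, nat_lit 97, nat_lit 100, nat_lit 54, nat_lit 1258422146⟩, ⟨nat_lit 23, nat_lit 96, nat_lit 100, nat_lit 44, nat_lit 778608001⟩]⟩
noncomputable def p037_l113 : Lf2 := ⟨nat_lit 0, nat_lit 3, [nat_lit 45, nat_lit 5, nat_lit 5, nat_lit 20], true, nat_lit 260, nat_lit 288, nat_lit 0, nat_lit 256, ⟨nat_lit 0, nat_lit 0, nat_lit 1000, nat_lit 6, nat_lit 75, nat_lit 1000, nat_lit 188, nat_lit 1000, nat_lit 29345, nat_lit 255, nat_lit 52267, nat_lit 271, nat_lit 51943147, nat_lit 0, nat_lit 0, nat_lit 3389137, false, false⟩,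
 nat_lit 0, nat_lit 7656, nat_lit 0, nat_lit 269, nat_lit 4053, nat_lit 0, nat_lit 0, nat_lit 0, nat_lit 0, nat_lit 0, nat_lit 0, nat_lit 0, nat_lit 0, nat_lit 10896575879250, nat_lit 79, nat_lit 984400, nat_lit 0, nat_lit 0, [(nat_lit 6, [(nat_lit 5, nat_lit 26), (nat_lit 6, nat_lit 974)])],
 ⟨p037_k39, nat_lit 0, nat_lit 0, nat_lit 141, nat_lit 0, nat_lit 114475, [nat_lit 2252520534, nat_lit 1393855201, nat_lit 208863199], [], [nat_lit 15710372683, nat_lit 15843661281, nat_lit 15456695847, nat_lit 15598478583, nat_lit 17690960372, nat_lit 17886092079, nat_lit 17236614516, nat_lit 17430884149], nat_lit 1271250, nat_lit 1271250, nat_lit 111251, nat_lit 181601, nat_lit 1271250, nat_lit 1271250, [nat_lit 1100000, nat_lit 1442500, nat_lit 1271250], [nat_lit 9, nat_lit 40, nat_lit 20, nat_lit 80, nat_lit 2, nat_lit 215, nat_lit 10, nat_lit 6]⟩, C1.Rw.none,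
 ⟨nat_lit 6264, nat_lit 6325, ⟨.ofNat (nat_lit 172545), .ofNat (nat_lit 197224), .ofNat (nat_lit 175750), .ofNat (nat_lit 200430), .ofNat (nat_lit 175092), .ofNat (nat_lit 199601), .ofNat (nat_lit 178296), .ofNat (nat_lit 202805)⟩, ⟨.ofNat (nat_lit 431084), .ofNat (nat_lit 488669), .ofNat (nat_lit 452452), .ofNat (nat_lit 510037), .ofNat (nat_lit 430294), .ofNat (nat_lit 487480), .ofNat (nat_lit 451654), .ofNat (nat_lit 508841)⟩⟩, [⟨nat_lit 16, nat_lit 100, nat_lit 92, nat_lit 61, nat_lit 555817426⟩]⟩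
noncomputable def p037_l114 : Lf2 := ⟨nat_lit 0, nat_lit 3, [nat_lit 45, nat_lit 5, nat_lit 5, nat_lit 20], true, nat_lit 260, nat_lit 284, nat_lit 0, nat_lit 256, ⟨nat_lit 0, nat_lit 0, nat_lit 1000, nat_lit 6, nat_lit 76, nat_lit 1000, nat_lit 186, nat_lit 1000, nat_lit 35504, nat_lit 261, nat_lit 54150, nat_lit 272, nat_lit 52079244, nat_lit 0, nat_lit 0, nat_lit 3380862, false, false⟩,
 nat_lit 0, nat_lit 7496, nat_lit 0, nat_lit 0, nat_lit 4026, nat_lit 0, nat_lit 0, nat_lit 0, nat_lit 0, nat_lit 0, nat_lit 0, nat_lit 0, nat_lit 0, nat_lit 23501388717128, nat_lit 79, nat_lit 977800, nat_lit 0, nat_lit 0, [(nat_lit 6, [(nat_lit 5, nat_lit 37), (nat_lit 6, nat_lit 963)])],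
 ⟨p037_k43, nat_lit 0, nat_lit 0, nat_lit 143, nat_lit 0, nat_lit 122013, [nat_lit 2257366400, nat_lit 1396332401, nat_lit 218028399], [], [nat_lit 15895797864, nat_lit 15940121252, nat_lit 15649539409, nat_lit 15700022845, nat_lit 17550689901, nat_lit 17616352870, nat_lit 17101540094, nat_lit 17166908143], nat_lit 1271250, nat_lit 1271250, nat_lit 111251, nat_lit 181601, nat_lit 1271250, nat_lit 1271250, [nat_lit 1100000, nat_lit 1442500, nat_lit 1271250], [nat_lit 9, nat_lit 40, nat_lit 20, nat_lit 80, nat_lit 2, nat_lit 215, nat_lit 10, nat_lit 6]⟩, C1.Rw.none,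
 ⟨nat_lit 6244, nat_lit 6265, ⟨.ofNat (nat_lit 175092), .ofNat (nat_lit 199601), .ofNat (nat_lit 179364), .ofNat (nat_lit 203873), .ofNat (nat_lit 175938), .ofNat (nat_lit 200390), .ofNat (nat_lit 180210), .ofNat (nat_lit 204662)⟩, ⟨.ofNat (nat_lit 430294), .ofNat (nat_lit 479311), .ofNat (nat_lit 451654), .ofNat (nat_lit 500672), .ofNat (nat_lit 430030), .ofNat (nat_lit 478933), .ofNat (nat_lit 451388), .ofNat (nat_lit 500292)⟩⟩, [⟨nat_lit 16, nat_lit 100, nat_lit 93, nat_lit 61, nat_lit 528031725⟩]⟩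
noncomputable def p037_l115 : Lf2 := ⟨nat_lit 0, nat_lit 3, [nat_lit 45, nat_lit 5, nat_lit 5, nat_lit 20], true, nat_lit 260, nat_lit 284, nat_lit 0, nat_lit 240, ⟨nat_lit 0, nat_lit 0, nat_lit 1000, nat_lit 6, nat_lit 73, nat_lit 1000, nat_lit 186, nat_lit 1000, nat_lit 39516, nat_lit 262, nat_lit 50417, nat_lit 270, nat_lit 52271485, nat_lit 0, nat_lit 0, nat_lit 3333620, false, false⟩,
 nat_lit 0, nat_lit 7587, nat_lit 0, nat_lit 0, nat_lit 4095, nat_lit 0, nat_lit 0, nat_lit 0, nat_lit 0, nat_lit 0, nat_lit 0, nat_lit 0, nat_lit 0, nat_lit 0, nat_lit 75, nat_lit 916600, nat_lit 0, nat_lit 0, [(nat_lit 6, [(nat_lit 5, nat_lit 139), (nat_lit 6, nat_lit 861)])],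
 ⟨p037_k44, nat_lit 0, nat_lit 0, nat_lit 143, nat_lit 0, nat_lit 121368, [nat_lit 2238300800, nat_lit 1339302800, nat_lit 207014800], [], [nat_lit 15972881435, nat_lit 16024564957, nat_lit 15886359481, nat_lit 15930844018, nat_lit 17669768450, nat_lit 17735943756, nat_lit 17516336218, nat_lit 17582412496], nat_lit 1271250, nat_lit 1271250, nat_lit 111251, nat_lit 134400, nat_lit 1271250, nat_lit 1271250, [nat_lit 1100000, nat_lit 1442500, nat_lit 1271250], [nat_lit 9, nat_lit 40, nat_lit 20, nat_lit 80, nat_lit 2, nat_lit 215, nat_lit 10, nat_lit 6]⟩, C1.Rw.none,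
 ⟨nat_lit 6224, nat_lit 6245, ⟨.ofNat (nat_lit 175938), .ofNat (nat_lit 184089), .ofNat (nat_lit 179142), .ofNat (nat_lit 187292), .ofNat (nat_lit 176782), .ofNat (nat_lit 184914), .ofNat (nat_lit 179986), .ofNat (nat_lit 188118)⟩, ⟨.ofNat (nat_lit 430030), .ofNat (nat_lit 478933), .ofNat (nat_lit 451388), .ofNat (nat_lit 500292), .ofNat (nat_lit 429765), .ofNat (nat_lit 478556), .ofNat (nat_lit 451122), .ofNat (nat_lit 499912)⟩⟩, [⟨nat_lit 16, nat_lit 100, nat_lit 94, nat_lit 62, nat_lit 525046174⟩]⟩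
noncomputable def p037_l116 : Lf2 := ⟨nat_lit 0, nat_lit 3, [nat_lit 45, nat_lit 5, nat_lit 5, nat_lit 20], false, nat_lit 260, nat_lit 284, nat_lit 0, nat_lit 160, ⟨nat_lit 1000, nat_lit 0, nat_lit 0, nat_lit 0, nat_lit 0, nat_lit 0, nat_lit 0, nat_lit 0, nat_lit 0, nat_lit 0, nat_lit 0, nat_lit 0, nat_lit 0, nat_lit 0, nat_lit 0, nat_lit 0, false, false⟩,
 nat_lit 15774, nat_lit 712, nat_lit 0, nat_lit 4301, nat_lit 8899, nat_lit 8474, nat_lit 2427, nat_lit 0, nat_lit 0, nat_lit 3277, nat_lit 0, nat_lit 0, nat_lit 0, nat_lit 14361943414938, nat_lit 0, nat_lit 0, nat_lit 0, nat_lit 0, [],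
 ⟨p037_k44, nat_lit 0, nat_lit 0, nat_lit 146, nat_lit 0, nat_lit 130667, [nat_lit 4688000000, nat_lit 6250000000, nat_lit 7968000000], [], [nat_lit 19315023532, nat_lit 19391755207, nat_lit 19002282805, nat_lit 19078836721, nat_lit 21414149767, nat_lit 21491312362, nat_lit 21097512254, nat_lit 21176150969], nat_lit 1271250, nat_lit 1271250, nat_lit 111251, nat_lit 134400, nat_lit 1271250, nat_lit 1271250, [nat_lit 1100000, nat_lit 1442500, nat_lit 1271250], [nat_lit 9, nat_lit 40, nat_lit 20, nat_lit 80, nat_lit 2, nat_lit 215, nat_lit 10, nat_lit 6]⟩, ⟨p037_k43, nat_lit 0, nat_lit 0, nat_lit 268, nat_lit 0, nat_lit 131391, [nat_lit 4688000000, nat_lit 6250000000, nat_lit 7968000000], [], [nat_lit 17906609676, nat_lit 18136958846, nat_lit 17534424789, nat_lit 17764317327, nat_lit 13270954667, nat_lit 13449125556, nat_lit 13044362070, nat_lit 13221980306], nat_lit 1271250, nat_lit 1271250, nat_lit 111251, nat_lit 134400,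 nat_lit 0, nat_lit 1100001, [nat_lit 1100000, nat_lit 1442500, nat_lit 1271250], [nat_lit 9, nat_lit 40, nat_lit 20, nat_lit 80, nat_lit 2, nat_lit 260, nat_lit 50, nat_lit 9]⟩,
 zbF0, [⟨nat_lit 0, nat_lit 100, nat_lit 100, nat_lit 45, nat_lit 692855216⟩, ⟨nat_lit 4, nat_lit 97, nat_lit 100, nat_lit 54, nat_lit 1254516433⟩]⟩
noncomputable def p037_l117 : Lf2 := ⟨nat_lit 0, nat_lit 3, [nat_lit 45, nat_lit 5, nat_lit 5, nat_lit 20], false, nat_lit 260, nat_lit 284, nat_lit 160, nat_lit 200, ⟨nat_lit 1000, nat_lit 0, nat_lit 0, nat_lit 0, nat_lit 0, nat_lit 0, nat_lit 0, nat_lit 0, nat_lit 0, nat_lit 0, nat_lit 0, nat_lit 0, nat_lit 0, nat_lit 0, nat_lit 0, nat_lit 0, false, false⟩,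
 nat_lit 14418, nat_lit 2068, nat_lit 0, nat_lit 231, nat_lit 8899, nat_lit 7745, nat_lit 2427, nat_lit 0, nat_lit 0, nat_lit 0, nat_lit 0, nat_lit 0, nat_lit 0, nat_lit 17116128490128, nat_lit 0, nat_lit 0, nat_lit 0, nat_lit 0, [],
 ⟨p037_k44, nat_lit 0, nat_lit 0, nat_lit 146, nat_lit 0, nat_lit 130667, [nat_lit 4688000000, nat_lit 6250000000, nat_lit 7968000000], [], [nat_lit 19315023532, nat_lit 19391755207, nat_lit 19002282805, nat_lit 19078836721, nat_lit 21414149767, nat_lit 21491312362, nat_lit 21097512254, nat_lit 21176150969], nat_lit 1271250, nat_lit 1271250, nat_lit 111251, nat_lit 134400, nat_lit 1271250, nat_lit 1271250, [nat_lit 1100000, nat_lit 1442500, nat_lit 1271250], [nat_lit 9, nat_lit 40, nat_lit 20, nat_lit 80, nat_lit 2, nat_lit 215, nat_lit 10, nat_lit 6]⟩, ⟨p037_k43, nat_lit 0, nat_lit 0, nat_lit 188, nat_lit 0, nat_lit 131391, [nat_lit 4688000000, nat_lit 6250000000, nat_lit 7968000000], [], [nat_lit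 9754723852, nat_lit 9977350500, nat_lit 9506203753, nat_lit 9728247713, nat_lit 12359721897, nat_lit 12599472733, nat_lit 12107839655, nat_lit 12310192702], nat_lit 1271250, nat_lit 1271250, nat_lit 111251, nat_lit 134400, nat_lit 1100001, nat_lit 1442500, [nat_lit 1100000, nat_lit 1442500, nat_lit 1271250], [nat_lit 9, nat_lit 40, nat_lit 20, nat_lit 80, nat_lit 2, nat_lit 272, nat_lit 60, nat_lit 9]⟩,
 zbF0, [⟨nat_lit 0, nat_lit 100, nat_lit 100, nat_lit 45, nat_lit 526072509⟩, ⟨nat_lit 16, nat_lit 100, nat_lit 97, nat_lit 54, nat_lit 124679004⟩, ⟨nat_lit 16, nat_lit 100, nat_lit 94, nat_lit 62, nat_lit 984051954⟩]⟩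
noncomputable def p037_l118 : Lf2 := ⟨nat_lit 0, nat_lit 3, [nat_lit 45, nat_lit 5, nat_lit 5, nat_lit 20], false, nat_lit 260, nat_lit 284, nat_lit 200, nat_lit 240, ⟨nat_lit 1000, nat_lit 0, nat_lit 0, nat_lit 0, nat_lit 0, nat_lit 0, nat_lit 0, nat_lit 0, nat_lit 0, nat_lit 0, nat_lit 0, nat_lit 0, nat_lit 0, nat_lit 0, nat_lit 0, nat_lit 0, false, false⟩,
 nat_lit 20623, nat_lit 0, nat_lit 0, nat_lit 0, nat_lit 11132, nat_lit 11078, nat_lit 1751, nat_lit 0, nat_lit 0, nat_lit 2365, nat_lit 0, nat_lit 0, nat_lit 0, nat_lit 16111553205346, nat_lit 0, nat_lit 0, nat_lit 0, nat_lit 0, [],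
 ⟨p037_k44, nat_lit 0, nat_lit 0, nat_lit 146, nat_lit 0, nat_lit 130667, [nat_lit 4688000000, nat_lit 6250000000, nat_lit 7968000000], [], [nat_lit 19598708038, nat_lit 19686873900, nat_lit 19191863554, nat_lit 19279820341, nat_lit 23117383467, nat_lit 23235809624, nat_lit 22595036736, nat_lit 22713290313], nat_lit 1271250, nat_lit 1271250, nat_lit 111251, nat_lit 134400, nat_lit 1271250, nat_lit 1271250, [nat_lit 1100000, nat_lit 1442500, nat_lit 1271250], [nat_lit 9, nat_lit 40, nat_lit 20, nat_lit 80, nat_lit 2, nat_lit 215, nat_lit 10, nat_lit 6]⟩, ⟨p037_k43, nat_lit 0, nat_lit 0, nat_lit 168, nat_lit 0, nat_lit 131391, [nat_lit 4688000000, nat_lit 6250000000, nat_lit 7968000000], [], [nat_lit 14081340692, nat_lit 14291616389, nat_lit 13684846185, nat_lit 13894590154, nat_lit 16522444538, nat_lit 16710707876, nat_lit 16123350306, nat_lit 16311150081], nat_lit 1271250, nat_lit 1271250, nat_lit 111251, nat_lit 134400,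 nat_lit 1271250, nat_lit 1271250, [nat_lit 1100000, nat_lit 1442500, nat_lit 1271250], [nat_lit 9, nat_lit 40, nat_lit 20, nat_lit 80, nat_lit 2, nat_lit 289, nat_lit 75, nat_lit 9]⟩,
 zbF0, [⟨nat_lit 0, nat_lit 100, nat_lit 100, nat_lit 45, nat_lit 637229820⟩, ⟨nat_lit 4, nat_lit 97, nat_lit 100, nat_lit 54, nat_lit 1275265068⟩, ⟨nat_lit 11, nat_lit 100, nat_lit 94, nat_lit 45, nat_lit 1222579971⟩]⟩
noncomputable def p037_l119 : Lf2 := ⟨nat_lit 0, nat_lit 3, [nat_lit 45, nat_lit 5, nat_lit 5, nat_lit 20], true, nat_lit 260, nat_lit 284, nat_lit 0, nat_lit 256, ⟨nat_lit 0, nat_lit 0, nat_lit 1000, nat_lit 6, nat_lit 78, nat_lit 1000, nat_lit 186, nat_lit 1000, nat_lit 39516, nat_lit 262, nat_lit 58017, nat_lit 274, nat_lit 51966101, nat_lit 0, nat_lit 0, nat_lit 3410874, false, false⟩,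
 nat_lit 0, nat_lit 7541, nat_lit 0, nat_lit 0, nat_lit 4070, nat_lit 0, nat_lit 0, nat_lit 0, nat_lit 0, nat_lit 0, nat_lit 0, nat_lit 0, nat_lit 0, nat_lit 23527236137465, nat_lit 79, nat_lit 971800, nat_lit 0, nat_lit 0, [(nat_lit 6, [(nat_lit 5, nat_lit 47), (nat_lit 6, nat_lit 953)])],
 ⟨p037_k44, nat_lit 0, nat_lit 0, nat_lit 142, nat_lit 0, nat_lit 130667, [nat_lit 2261771734, nat_lit 1398584400, nat_lit 226360400], [], [nat_lit 15805286915, nat_lit 15849732678, nat_lit 15636279754, nat_lit 15687916573, nat_lit 17498293372, nat_lit 17564184281, nat_lit 17194050156, nat_lit 17259743532], nat_lit 1271250, nat_lit 1271250, nat_lit 134400, nat_lit 181601, nat_lit 1271250, nat_lit 1271250, [nat_lit 1100000, nat_lit 1442500, nat_lit 1271250], [nat_lit 9, nat_lit 40, nat_lit 20, nat_lit 80, nat_lit 2, nat_lit 215, nat_lit 10, nat_lit 6]⟩, C1.Rw.none,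
 ⟨nat_lit 6224, nat_lit 6245, ⟨.ofNat (nat_lit 184089), .ofNat (nat_lit 200390), .ofNat (nat_lit 189428), .ofNat (nat_lit 205730), .ofNat (nat_lit 184914), .ofNat (nat_lit 201178), .ofNat (nat_lit 190253), .ofNat (nat_lit 206517)⟩, ⟨.ofNat (nat_lit 430030), .ofNat (nat_lit 478933), .ofNat (nat_lit 451388), .ofNat (nat_lit 500292), .ofNat (nat_lit 429765), .ofNat (nat_lit 478556), .ofNat (nat_lit 451122), .ofNat (nat_lit 499912)⟩⟩, [⟨nat_lit 16, nat_lit 100, nat_lit 97, nat_lit 54, nat_lit 10712473⟩, ⟨nat_lit 16, nat_lit 100, nat_lit 94, nat_lit 62, nat_lit 523129497⟩]⟩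
noncomputable def p037_l120 : Lf2 := ⟨nat_lit 0, nat_lit 4, [nat_lit 38, nat_lit 5, nat_lit 5, nat_lit 20], true, nat_lit 260, nat_lit 288, nat_lit 0, nat_lit 256, ⟨nat_lit 0, nat_lit 0, nat_lit 1000, nat_lit 6, nat_lit 74, nat_lit 1000, nat_lit 188, nat_lit 1000, nat_lit 29345, nat_lit 255, nat_lit 52267, nat_lit 271, nat_lit 52006372, nat_lit 0, nat_lit 0, nat_lit 3374874, false, false⟩,
 nat_lit 0, nat_lit 8584, nat_lit 0, nat_lit 405, nat_lit 4544, nat_lit 0, nat_lit 0, nat_lit 0, nat_lit 0, nat_lit 0, nat_lit 0, nat_lit 0, nat_lit 0, nat_lit 13924067184807, nat_lit 41, nat_lit 400000, nat_lit 0, nat_lit 0, [(nat_lit 6, [(nat_lit 5, nat_lit 1000)])],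
 ⟨p037_k45, nat_lit 0, nat_lit 0, nat_lit 141, nat_lit 0, nat_lit 95570, [nat_lit 2073600001, nat_lit 853200001, nat_lit 108399999], [], [nat_lit 16517850118, nat_lit 16790163375, nat_lit 15944802863, nat_lit 16174850334, nat_lit 18373572003, nat_lit 18716588558, nat_lit 17600197511, nat_lit 17886106792], nat_lit 1271250, nat_lit 1271250, nat_lit 88400, nat_lit 181601, nat_lit 1271250, nat_lit 1271250, [nat_lit 1100000, nat_lit 1442500, nat_lit 1271250], [nat_lit 9, nat_lit 40, nat_lit 20, nat_lit 80, nat_lit 2, nat_lit 215, nat_lit 10, nat_lit 7]⟩, C1.Rw.none,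
 ⟨nat_lit 6224, nat_lit 6325, ⟨.ofNat (nat_lit 164319), .ofNat (nat_lit 197224), .ofNat (nat_lit 169661), .ofNat (nat_lit 202566), .ofNat (nat_lit 168651), .ofNat (nat_lit 201178), .ofNat (nat_lit 173990), .ofNat (nat_lit 206517)⟩, ⟨.ofNat (nat_lit 431084), .ofNat (nat_lit 488669), .ofNat (nat_lit 452452), .ofNat (nat_lit 510037), .ofNat (nat_lit 429765), .ofNat (nat_lit 486687), .ofNat (nat_lit 451122), .ofNat (nat_lit 508044)⟩⟩, [⟨nat_lit 0, nat_lit 100, nat_lit 100, nat_lit 45, nat_lit 302977849⟩, ⟨nat_lit 4, nat_lit 96, nat_lit 100, nat_lit 54, nat_lit 591872193⟩]⟩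
noncomputable def b_VL_600_600_5_63 : St := ⟨true, nat_lit 1, nat_lit 1, nat_lit 1, nat_lit 40, nat_lit 240, nat_lit 245, nat_lit 240, nat_lit 250, nat_lit 16, nat_lit 32, nat_lit 20, nat_lit 40, nat_lit 260, nat_lit 288, nat_lit 0, nat_lit 256, nat_lit 8, nat_lit 16, nat_lit 0, nat_lit 0, nat_lit 0, nat_lit 0⟩
theorem d_VL_600_600_5_63 (h : EB TB.env) : Dead b_VL_600_600_5_63 := chkB_sound0 h (T :=
(.ord (.spl (nat_lit 6) (nat_lit 12)
(.spl (nat_lit 2) (nat_lit 20)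
(.trX (nat_lit 23) (nat_lit 96) (nat_lit 100) (nat_lit 44) (nat_lit 232) (.spl (nat_lit 0) (nat_lit 243)
(.ord (.spl (nat_lit 0) (nat_lit 242)
(.ord (.spl (nat_lit 5) (nat_lit 80)
(.leaf p037_l106)
(.leaf p037_l107)))
(.trX (nat_lit 16) (nat_lit 100) (nat_lit 93) (nat_lit 61) (nat_lit 284) (.spl (nat_lit 5) (nat_lit 80)
(.leaf p037_l108)
(.leaf p037_l109)))))
(.trX (nat_lit 16) (nat_lit 100) (nat_lit 93) (nat_lit 61) (nat_lit 284) (.spl (nat_lit 5) (nat_lit 80)
(.leaf p037_l110)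
(.spl (nat_lit 1) (nat_lit 243)
(.leaf p037_l111)
(.leaf p037_l112))))))
(.spl (nat_lit 0) (nat_lit 243)
(.ord (.leaf p037_l113))
(.trX (nat_lit 16) (nat_lit 100) (nat_lit 93) (nat_lit 61) (nat_lit 284) (.spl (nat_lit 0) (nat_lit 244)
(.ord (.leaf p037_l114))
(.spl (nat_lit 2) (nat_lit 24)
(.trX (nat_lit 23) (nat_lit 97) (nat_lit 100) (nat_lit 48) (nat_lit 240) (.spl (nat_lit 1) (nat_lit 243)
(.leaf p037_l115)
(.spl (nat_lit 5) (nat_lit 160)
(.leaf p037_l116)
(.spl (nat_lit 5) (nat_lit 200)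
(.leaf p037_l117)
(.leaf p037_l118)))))
(.leaf p037_l119))))))
(.leaf p037_l120)))) (by decide +kernel)
noncomputable def p037_l121 : Lf2 := ⟨nat_lit 0, nat_lit 4, [nat_lit 38, nat_lit 5, nat_lit 5, nat_lit 20], true, nat_lit 260, nat_lit 284, nat_lit 0, nat_lit 232, ⟨nat_lit 0, nat_lit 0, nat_lit 1000, nat_lit 6, nat_lit 71, nat_lit 1000, nat_lit 186, nat_lit 1000, nat_lit 38520, nat_lit 262, nat_lit 46817, nat_lit 268, nat_lit 52381924, nat_lit 0, nat_lit 0, nat_lit 3308666, false, false⟩,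
 nat_lit 0, nat_lit 7459, nat_lit 0, nat_lit 0, nat_lit 4045, nat_lit 0, nat_lit 0, nat_lit 0, nat_lit 0, nat_lit 0, nat_lit 0, nat_lit 0, nat_lit 0, nat_lit 0, nat_lit 79, nat_lit 974200, nat_lit 0, nat_lit 0, [(nat_lit 6, [(nat_lit 5, nat_lit 43), (nat_lit 6, nat_lit 957)])],
 ⟨p037_k37, nat_lit 0, nat_lit 0, nat_lit 164, nat_lit 0, nat_lit 160034, [nat_lit 2260009601, nat_lit 1397683600, nat_lit 223027600], [], [nat_lit 16162631290, nat_lit 16318356086, nat_lit 15965513871, nat_lit 16121248448, nat_lit 17957036347, nat_lit 18154435293, nat_lit 17696865556, nat_lit 17894277697], nat_lit 1271250, nat_lit 1271250, nat_lit 88400, nat_lit 111251, nat_lit 1271250, nat_lit 1271250, [nat_lit 1100000, nat_lit 1442500, nat_lit 1271250], [nat_lit 9, nat_lit 40, nat_lit 20, nat_lit 80, nat_lit 2, nat_lit 215, nat_lit 10, nat_lit 6]⟩, C1.Rw.none,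
 ⟨nat_lit 6164, nat_lit 6225, ⟨.ofNat (nat_lit 168651), .ofNat (nat_lit 176782), .ofNat (nat_lit 177193), .ofNat (nat_lit 185325), .ofNat (nat_lit 171231), .ofNat (nat_lit 179306), .ofNat (nat_lit 179771), .ofNat (nat_lit 187847)⟩, ⟨.ofNat (nat_lit 429765), .ofNat (nat_lit 478556), .ofNat (nat_lit 451122), .ofNat (nat_lit 499912), .ofNat (nat_lit 428969), .ofNat (nat_lit 477422), .ofNat (nat_lit 450320), .ofNat (nat_lit 498773)⟩⟩, [⟨nat_lit 0, nat_lit 100, nat_lit 100, nat_lit 45, nat_lit 1316991211⟩, ⟨nat_lit 16, nat_lit 100, nat_lit 94, nat_lit 62, nat_lit 489738777⟩, ⟨nat_lit 4, nat_lit 98, nat_lit 100, nat_lit 54, nat_lit 55322596⟩]⟩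
noncomputable def p037_l122 : Lf2 := ⟨nat_lit 0, nat_lit 4, [nat_lit 38, nat_lit 5, nat_lit 5, nat_lit 20], true, nat_lit 260, nat_lit 280, nat_lit 0, nat_lit 232, ⟨nat_lit 0, nat_lit 0, nat_lit 1000, nat_lit 6, nat_lit 73, nat_lit 1000, nat_lit 184, nat_lit 1000, nat_lit 48728, nat_lit 269, nat_lit 48600, nat_lit 269, nat_lit 52500003, nat_lit 0, nat_lit 0, nat_lit 3305592, false, false⟩,
 nat_lit 0, nat_lit 7328, nat_lit 0, nat_lit 0, nat_lit 4032, nat_lit 0, nat_lit 0, nat_lit 0, nat_lit 0, nat_lit 0, nat_lit 0, nat_lit 0, nat_lit 0, nat_lit 0, nat_lit 76, nat_lit 937000, nat_lit 0, nat_lit 0, [(nat_lit 6, [(nat_lit 5, nat_lit 105), (nat_lit 6, nat_lit 895)])],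
 ⟨p037_k46, nat_lit 0, nat_lit 0, nat_lit 169, nat_lit 0, nat_lit 176188, [nat_lit 2239322667, nat_lit 1351646000, nat_lit 202686000], [], [nat_lit 16374239542, nat_lit 16477922979, nat_lit 16195674274, nat_lit 16299321190, nat_lit 17833121570, nat_lit 17966163989, nat_lit 17574041252, nat_lit 17707088956], nat_lit 1271250, nat_lit 1271250, nat_lit 88400, nat_lit 111251, nat_lit 1271250, nat_lit 1271250, [nat_lit 1100000, nat_lit 1442500, nat_lit 1271250], [nat_lit 9, nat_lit 40, nat_lit 20, nat_lit 80, nat_lit 2, nat_lit 215, nat_lit 10, nat_lit 6]⟩, C1.Rw.none,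
 ⟨nat_lit 6123, nat_lit 6165, ⟨.ofNat (nat_lit 171231), .ofNat (nat_lit 179306), .ofNat (nat_lit 181906), .ofNat (nat_lit 189982), .ofNat (nat_lit 172944), .ofNat (nat_lit 180982), .ofNat (nat_lit 183618), .ofNat (nat_lit 191656)⟩, ⟨.ofNat (nat_lit 428969), .ofNat (nat_lit 469346), .ofNat (nat_lit 450320), .ofNat (nat_lit 490698), .ofNat (nat_lit 428436), .ofNat (nat_lit 468627), .ofNat (nat_lit 449785), .ofNat (nat_lit 489975)⟩⟩, [⟨nat_lit 0, nat_lit 100, nat_lit 99, nat_lit 44, nat_lit 1530355855⟩, ⟨nat_lit 16, nat_lit 100, nat_lit 95, nat_lit 62, nat_lit 510052746⟩]⟩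
noncomputable def b_VL_600_600_5_64 : St := ⟨true, nat_lit 1, nat_lit 1, nat_lit 1, nat_lit 40, nat_lit 245, nat_lit 250, nat_lit 240, nat_lit 250, nat_lit 16, nat_lit 20, nat_lit 20, nat_lit 40, nat_lit 260, nat_lit 284, nat_lit 0, nat_lit 256, nat_lit 8, nat_lit 16, nat_lit 0, nat_lit 0, nat_lit 0, nat_lit 0⟩
theorem d_VL_600_600_5_64 (h : EB TB.env) : Dead b_VL_600_600_5_64 := chkB_sound0 h (T :=
(.trX (nat_lit 23) (nat_lit 96) (nat_lit 100) (nat_lit 44) (nat_lit 232) (.spl (nat_lit 0) (nat_lit 248)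
(.ord (.leaf p037_l121))
(.trX (nat_lit 16) (nat_lit 100) (nat_lit 95) (nat_lit 62) (nat_lit 280) (.leaf p037_l122))))) (by decide +kernel)
noncomputable def p037_l123 : Lf2 := ⟨nat_lit 0, nat_lit 4, [nat_lit 38, nat_lit 5, nat_lit 5, nat_lit 20], true, nat_lit 260, nat_lit 284, nat_lit 0, nat_lit 240, ⟨nat_lit 0, nat_lit 0, nat_lit 1000, nat_lit 6, nat_lit 73, nat_lit 1000, nat_lit 186, nat_lit 1000, nat_lit 38520, nat_lit 262, nat_lit 50417, nat_lit 270, nat_lit 52259030, nat_lit 0, nat_lit 0, nat_lit 3340473, false, false⟩,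
 nat_lit 0, nat_lit 7426, nat_lit 0, nat_lit 0, nat_lit 4027, nat_lit 0, nat_lit 0, nat_lit 0, nat_lit 0, nat_lit 0, nat_lit 0, nat_lit 0, nat_lit 0, nat_lit 0, nat_lit 78, nat_lit 970600, nat_lit 0, nat_lit 0, [(nat_lit 6, [(nat_lit 5, nat_lit 49), (nat_lit 6, nat_lit 951)])],
 ⟨p037_k37, nat_lit 0, nat_lit 0, nat_lit 150, nat_lit 0, nat_lit 136356, [nat_lit 2246652800, nat_lit 1379034801, nat_lit 204026799], [], [nat_lit 15998446402, nat_lit 16153895948, nat_lit 15919083955, nat_lit 16074129351, nat_lit 17682797403, nat_lit 17879808586, nat_lit 17532831752, nat_lit 17729547984], nat_lit 1271250, nat_lit 1271250, nat_lit 111251, nat_lit 134400, nat_lit 1271250, nat_lit 1271250, [nat_lit 1100000, nat_lit 1442500, nat_lit 1271250], [nat_lit 9, nat_lit 40, nat_lit 20, nat_lit 80, nat_lit 2, nat_lit 215, nat_lit 10, nat_lit 6]⟩, C1.Rw.none,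
 ⟨nat_lit 6164, nat_lit 6225, ⟨.ofNat (nat_lit 176782), .ofNat (nat_lit 184914), .ofNat (nat_lit 179986), .ofNat (nat_lit 188118), .ofNat (nat_lit 179306), .ofNat (nat_lit 187382), .ofNat (nat_lit 182509), .ofNat (nat_lit 190584)⟩, ⟨.ofNat (nat_lit 429765), .ofNat (nat_lit 478556), .ofNat (nat_lit 451122), .ofNat (nat_lit 499912), .ofNat (nat_lit 428969), .ofNat (nat_lit 477422), .ofNat (nat_lit 450320), .ofNat (nat_lit 498773)⟩⟩, [⟨nat_lit 16, nat_lit 100, nat_lit 94, nat_lit 62, nat_lit 522185371⟩]⟩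
noncomputable def p037_l124 : Lf2 := ⟨nat_lit 0, nat_lit 4, [nat_lit 38, nat_lit 5, nat_lit 5, nat_lit 20], true, nat_lit 260, nat_lit 284, nat_lit 0, nat_lit 240, ⟨nat_lit 0, nat_lit 0, nat_lit 1000, nat_lit 6, nat_lit 74, nat_lit 1000, nat_lit 186, nat_lit 1000, nat_lit 38520, nat_lit 262, nat_lit 52267, nat_lit 271, nat_lit 52216629, nat_lit 0, nat_lit 0, nat_lit 3349529, false, false⟩,
 nat_lit 0, nat_lit 7437, nat_lit 0, nat_lit 0, nat_lit 4033, nat_lit 0, nat_lit 0, nat_lit 0, nat_lit 0, nat_lit 0, nat_lit 0, nat_lit 0, nat_lit 0, nat_lit 0, nat_lit 79, nat_lit 971800, nat_lit 0, nat_lit 0, [(nat_lit 6, [(nat_lit 5, nat_lit 47), (nat_lit 6, nat_lit 953)])],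
 ⟨p037_k37, nat_lit 0, nat_lit 0, nat_lit 147, nat_lit 0, nat_lit 131259, [nat_lit 2261771734, nat_lit 1398584400, nat_lit 226360400], [], [nat_lit 15987468892, nat_lit 16039317078, nat_lit 15907890780, nat_lit 15959604131, nat_lit 17687486788, nat_lit 17753201733, nat_lit 17537206524, nat_lit 17602823089], nat_lit 1271250, nat_lit 1271250, nat_lit 111251, nat_lit 134400, nat_lit 1271250, nat_lit 1271250, [nat_lit 1100000, nat_lit 1442500, nat_lit 1271250], [nat_lit 9, nat_lit 40, nat_lit 20, nat_lit 80, nat_lit 2, nat_lit 215, nat_lit 10, nat_lit 6]⟩, C1.Rw.none,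
 ⟨nat_lit 6204, nat_lit 6225, ⟨.ofNat (nat_lit 179986), .ofNat (nat_lit 188118), .ofNat (nat_lit 181054), .ofNat (nat_lit 189185), .ofNat (nat_lit 180828), .ofNat (nat_lit 188941), .ofNat (nat_lit 181896), .ofNat (nat_lit 190009)⟩, ⟨.ofNat (nat_lit 429765), .ofNat (nat_lit 478556), .ofNat (nat_lit 451122), .ofNat (nat_lit 499912), .ofNat (nat_lit 429500), .ofNat (nat_lit 478178), .ofNat (nat_lit 450855), .ofNat (nat_lit 499533)⟩⟩, [⟨nat_lit 16, nat_lit 100, nat_lit 94, nat_lit 62, nat_lit 527440688⟩]⟩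
noncomputable def p037_l125 : Lf2 := ⟨nat_lit 0, nat_lit 4, [nat_lit 38, nat_lit 5, nat_lit 5, nat_lit 20], false, nat_lit 260, nat_lit 284, nat_lit 0, nat_lit 160, ⟨nat_lit 1000, nat_lit 0, nat_lit 0, nat_lit 0, nat_lit 0, nat_lit 0, nat_lit 0, nat_lit 0, nat_lit 0, nat_lit 0, nat_lit 0, nat_lit 0, nat_lit 0, nat_lit 0, nat_lit 0, nat_lit 0, false, false⟩,
 nat_lit 15607, nat_lit 4684, nat_lit 0, nat_lit 3341, nat_lit 11006, nat_lit 8425, nat_lit 1159, nat_lit 0, nat_lit 0, nat_lit 3230, nat_lit 0, nat_lit 0, nat_lit 0, nat_lit 0, nat_lit 0, nat_lit 0, nat_lit 0, nat_lit 0, [],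
 ⟨p037_k37, nat_lit 0, nat_lit 0, nat_lit 149, nat_lit 0, nat_lit 135927, [nat_lit 4688000000, nat_lit 6250000000, nat_lit 7968000000], [], [nat_lit 20731797013, nat_lit 20819317686, nat_lit 20330055150, nat_lit 20417368514, nat_lit 23137446386, nat_lit 23254823145, nat_lit 22729473124, nat_lit 22809366973], nat_lit 1271250, nat_lit 1271250, nat_lit 111251, nat_lit 134400, nat_lit 1271250, nat_lit 1271250, [nat_lit 1100000, nat_lit 1442500, nat_lit 1271250], [nat_lit 9, nat_lit 40, nat_lit 20, nat_lit 80, nat_lit 2, nat_lit 215, nat_lit 10, nat_lit 6]⟩, ⟨p037_k47, nat_lit 0, nat_lit 0, nat_lit 268, nat_lit 0, nat_lit 136682, [nat_lit 4688000000, nat_lit 6250000000, nat_lit 7968000000], [], [nat_lit 17954677471, nat_lit 18069869075, nat_lit 17584815768, nat_lit 17699316513, nat_lit 13293660840, nat_lit 13382419200, nat_lit 13068501256, nat_lit 13156984521], nat_lit 1271250, nat_lit 1271250, nat_lit 111251, nat_lit 134400,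 nat_lit 0, nat_lit 1100001, [nat_lit 1100000, nat_lit 1442500, nat_lit 1271250], [nat_lit 9, nat_lit 40, nat_lit 20, nat_lit 80, nat_lit 2, nat_lit 260, nat_lit 50, nat_lit 9]⟩,
 zbF0, [⟨nat_lit 0, nat_lit 100, nat_lit 100, nat_lit 45, nat_lit 1565281916⟩, ⟨nat_lit 4, nat_lit 97, nat_lit 100, nat_lit 54, nat_lit 1372788217⟩]⟩
noncomputable def p037_l126 : Lf2 := ⟨nat_lit 0, nat_lit 4, [nat_lit 38, nat_lit 5, nat_lit 5, nat_lit 20], false, nat_lit 260, nat_lit 284, nat_lit 160, nat_lit 200, ⟨nat_lit 1000, nat_lit 0, nat_lit 0, nat_lit 0, nat_lit 0, nat_lit 0, nat_lit 0, nat_lit 0, nat_lit 0, nat_lit 0, nat_lit 0, nat_lit 0, nat_lit 0, nat_lit 0, nat_lit 0, nat_lit 0, false, false⟩,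
 nat_lit 14301, nat_lit 1950, nat_lit 0, nat_lit 1513, nat_lit 8815, nat_lit 7720, nat_lit 2417, nat_lit 0, nat_lit 0, nat_lit 0, nat_lit 0, nat_lit 0, nat_lit 0, nat_lit 0, nat_lit 0, nat_lit 0, nat_lit 0, nat_lit 0, [],
 ⟨p037_k37, nat_lit 0, nat_lit 0, nat_lit 149, nat_lit 0, nat_lit 135927, [nat_lit 4688000000, nat_lit 6250000000, nat_lit 7968000000], [], [nat_lit 19344796657, nat_lit 19421098205, nat_lit 19035419302, nat_lit 19111544270, nat_lit 21425293866, nat_lit 21526147896, nat_lit 21113698068, nat_lit 21191891492], nat_lit 1271250, nat_lit 1271250, nat_lit 111251, nat_lit 134400, nat_lit 1271250, nat_lit 1271250, [nat_lit 1100000, nat_lit 1442500, nat_lit 1271250], [nat_lit 9, nat_lit 40, nat_lit 20, nat_lit 80, nat_lit 2, nat_lit 215, nat_lit 10, nat_lit 6]⟩, ⟨p037_k47, nat_lit 0, nat_lit 0, nat_lit 188, nat_lit 0, nat_lit 136682, [nat_lit 4688000000, nat_lit 6250000000, nat_lit 7968000000], [], [nat_lit 9893413057,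 nat_lit 10004488000, nat_lit 9645633095, nat_lit 9756417400, nat_lit 12484278809, nat_lit 12595804520, nat_lit 12233172517, nat_lit 12334138270], nat_lit 1271250, nat_lit 1271250, nat_lit 111251, nat_lit 134400, nat_lit 1100001, nat_lit 1442500, [nat_lit 1100000, nat_lit 1442500, nat_lit 1271250], [nat_lit 9, nat_lit 40, nat_lit 20, nat_lit 80, nat_lit 2, nat_lit 272, nat_lit 60, nat_lit 9]⟩,
 zbF0, [⟨nat_lit 0, nat_lit 100, nat_lit 100, nat_lit 45, nat_lit 1483409143⟩, ⟨nat_lit 16, nat_lit 100, nat_lit 94, nat_lit 62, nat_lit 507859857⟩, ⟨nat_lit 4, nat_lit 97, nat_lit 100, nat_lit 54, nat_lit 664203295⟩]⟩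
noncomputable def p037_l127 : Lf2 := ⟨nat_lit 0, nat_lit 4, [nat_lit 38, nat_lit 5, nat_lit 5, nat_lit 20], false, nat_lit 260, nat_lit 284, nat_lit 200, nat_lit 240, ⟨nat_lit 1000, nat_lit 0, nat_lit 0, nat_lit 0, nat_lit 0, nat_lit 0, nat_lit 0, nat_lit 0, nat_lit 0, nat_lit 0, nat_lit 0, nat_lit 0, nat_lit 0, nat_lit 0, nat_lit 0, nat_lit 0, false, false⟩,
 nat_lit 22158, nat_lit 0, nat_lit 0, nat_lit 0, nat_lit 12019, nat_lit 11961, nat_lit 1230, nat_lit 0, nat_lit 0, nat_lit 1873, nat_lit 0, nat_lit 0, nat_lit 0, nat_lit 0, nat_lit 0, nat_lit 0, nat_lit 0, nat_lit 0, [],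
 ⟨p037_k37, nat_lit 0, nat_lit 0, nat_lit 149, nat_lit 0, nat_lit 135927, [nat_lit 4688000000, nat_lit 6250000000, nat_lit 7968000000], [], [nat_lit 20198334832, nat_lit 20307301033, nat_lit 19753888612, nat_lit 19846374886, nat_lit 23929056891, nat_lit 24054069165, nat_lit 23360027364, nat_lit 23484857787], nat_lit 1271250, nat_lit 1271250, nat_lit 111251, nat_lit 134400, nat_lit 1271250, nat_lit 1271250, [nat_lit 1100000, nat_lit 1442500, nat_lit 1271250], [nat_lit 9, nat_lit 40, nat_lit 20, nat_lit 80, nat_lit 2, nat_lit 215, nat_lit 10, nat_lit 6]⟩, ⟨p037_k47, nat_lit 0, nat_lit 0, nat_lit 168, nat_lit 0, nat_lit 136682, [nat_lit 4688000000, nat_lit 6250000000, nat_lit 7968000000], [], [nat_lit 14388973980, nat_lit 14499850181, nat_lit 13955395546, nat_lit 14065989424, nat_lit 16918337447, nat_lit 17017432812, nat_lit 16482126334, nat_lit 16580975860], nat_lit 1271250, nat_lit 1271250, nat_lit 111251, nat_lit 134400,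 nat_lit 1271250, nat_lit 1271250, [nat_lit 1100000, nat_lit 1442500, nat_lit 1271250], [nat_lit 9, nat_lit 40, nat_lit 20, nat_lit 80, nat_lit 2, nat_lit 289, nat_lit 75, nat_lit 9]⟩,
 zbF0, [⟨nat_lit 0, nat_lit 100, nat_lit 100, nat_lit 45, nat_lit 702610929⟩, ⟨nat_lit 4, nat_lit 97, nat_lit 100, nat_lit 54, nat_lit 1518427962⟩, ⟨nat_lit 11, nat_lit 100, nat_lit 94, nat_lit 45, nat_lit 1251663091⟩]⟩
noncomputable def p037_l128 : Lf2 := ⟨nat_lit 0, nat_lit 4, [nat_lit 38, nat_lit 5, nat_lit 5, nat_lit 20], true, nat_lit 260, nat_lit 280, nat_lit 0, nat_lit 240, ⟨nat_lit 0, nat_lit 0, nat_lit 1000, nat_lit 6, nat_lit 75, nat_lit 1000, nat_lit 184, nat_lit 1000, nat_lit 50670, nat_lit 269, nat_lit 52267, nat_lit 271, nat_lit 52356825, nat_lit 0, nat_lit 0, nat_lit 3337916, false, false⟩,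
 nat_lit 0, nat_lit 7433, nat_lit 0, nat_lit 0, nat_lit 4051, nat_lit 0, nat_lit 0, nat_lit 0, nat_lit 0, nat_lit 0, nat_lit 0, nat_lit 0, nat_lit 0, nat_lit 0, nat_lit 78, nat_lit 956800, nat_lit 0, nat_lit 0, [(nat_lit 6, [(nat_lit 5, nat_lit 72), (nat_lit 6, nat_lit 928)])],
 ⟨p037_k48, nat_lit 0, nat_lit 0, nat_lit 148, nat_lit 0, nat_lit 139979, [nat_lit 2256785067, nat_lit 1384214400, nat_lit 223190400], [], [nat_lit 16038342138, nat_lit 16090175128, nat_lit 15953432326, nat_lit 16005240337, nat_lit 17455239656, nat_lit 17521907494, nat_lit 17304512597, nat_lit 17371079065], nat_lit 1271250, nat_lit 1271250, nat_lit 111251, nat_lit 134400, nat_lit 1271250, nat_lit 1271250, [nat_lit 1100000, nat_lit 1442500, nat_lit 1271250], [nat_lit 9, nat_lit 40, nat_lit 20, nat_lit 80, nat_lit 2, nat_lit 215, nat_lit 10, nat_lit 6]⟩, C1.Rw.none,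
 ⟨nat_lit 6184, nat_lit 6205, ⟨.ofNat (nat_lit 180828), .ofNat (nat_lit 188941), .ofNat (nat_lit 182964), .ofNat (nat_lit 191077), .ofNat (nat_lit 181669), .ofNat (nat_lit 189764), .ofNat (nat_lit 183805), .ofNat (nat_lit 191899)⟩, ⟨.ofNat (nat_lit 429500), .ofNat (nat_lit 470065), .ofNat (nat_lit 450855), .ofNat (nat_lit 491420), .ofNat (nat_lit 429235), .ofNat (nat_lit 469706), .ofNat (nat_lit 450588), .ofNat (nat_lit 491059)⟩⟩, [⟨nat_lit 0, nat_lit 100, nat_lit 100, nat_lit 46, nat_lit 217501296⟩, ⟨nat_lit 16, nat_lit 100, nat_lit 98, nat_lit 54, nat_lit 80774437⟩, ⟨nat_lit 16, nat_lit 100, nat_lit 94, nat_lit 62, nat_lit 452615302⟩]⟩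
noncomputable def p037_l129 : Lf2 := ⟨nat_lit 0, nat_lit 4, [nat_lit 38, nat_lit 5, nat_lit 5, nat_lit 20], true, nat_lit 260, nat_lit 280, nat_lit 0, nat_lit 240, ⟨nat_lit 0, nat_lit 0, nat_lit 1000, nat_lit 6, nat_lit 75, nat_lit 1000, nat_lit 184, nat_lit 1000, nat_lit 49699, nat_lit 269, nat_lit 52267, nat_lit 271, nat_lit 52349963, nat_lit 0, nat_lit 0, nat_lit 3341359, false, false⟩,
 nat_lit 0, nat_lit 7399, nat_lit 0, nat_lit 0, nat_lit 4052, nat_lit 0, nat_lit 0, nat_lit 0, nat_lit 0, nat_lit 0, nat_lit 0, nat_lit 0, nat_lit 0, nat_lit 0, nat_lit 77, nat_lit 945400, nat_lit 0, nat_lit 0, [(nat_lit 6, [(nat_lit 5, nat_lit 91), (nat_lit 6, nat_lit 909)])],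
 ⟨p037_k49, nat_lit 0, nat_lit 0, nat_lit 150, nat_lit 0, nat_lit 144041, [nat_lit 2249155200, nat_lit 1368493201, nat_lit 215021199], [], [nat_lit 16105615712, nat_lit 16157528080, nat_lit 16020419280, nat_lit 16072232550, nat_lit 17522664867, nat_lit 17589340284, nat_lit 17371784063, nat_lit 17438358098], nat_lit 1271250, nat_lit 1271250, nat_lit 111251, nat_lit 134400, nat_lit 1271250, nat_lit 1271250, [nat_lit 1100000, nat_lit 1442500, nat_lit 1271250], [nat_lit 9, nat_lit 40, nat_lit 20, nat_lit 80, nat_lit 2, nat_lit 215, nat_lit 10, nat_lit 6]⟩, C1.Rw.none,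
 ⟨nat_lit 6164, nat_lit 6185, ⟨.ofNat (nat_lit 181669), .ofNat (nat_lit 189764), .ofNat (nat_lit 183805), .ofNat (nat_lit 191899), .ofNat (nat_lit 182509), .ofNat (nat_lit 190584), .ofNat (nat_lit 184644), .ofNat (nat_lit 192720)⟩, ⟨.ofNat (nat_lit 429235), .ofNat (nat_lit 469706), .ofNat (nat_lit 450588), .ofNat (nat_lit 491059), .ofNat (nat_lit 428969), .ofNat (nat_lit 469346), .ofNat (nat_lit 450320), .ofNat (nat_lit 490698)⟩⟩, [⟨nat_lit 0, nat_lit 100, nat_lit 100, nat_lit 46, nat_lit 217143455⟩, ⟨nat_lit 16, nat_lit 100, nat_lit 95, nat_lit 62, nat_lit 477646038⟩, ⟨nat_lit 4, nat_lit 98, nat_lit 100, nat_lit 54, nat_lit 53188470⟩]⟩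
noncomputable def p037_l130 : Lf2 := ⟨nat_lit 0, nat_lit 4, [nat_lit 38, nat_lit 5, nat_lit 5, nat_lit 20], true, nat_lit 260, nat_lit 280, nat_lit 0, nat_lit 240, ⟨nat_lit 0, nat_lit 0, nat_lit 1000, nat_lit 6, nat_lit 75, nat_lit 1000, nat_lit 184, nat_lit 1000, nat_lit 48728, nat_lit 269, nat_lit 52267, nat_lit 271, nat_lit 52376626, nat_lit 0, nat_lit 0, nat_lit 3337146, false, false⟩,
 nat_lit 0, nat_lit 7402, nat_lit 0, nat_lit 0, nat_lit 4073, nat_lit 0, nat_lit 0, nat_lit 0, nat_lit 0, nat_lit 0, nat_lit 0, nat_lit 0, nat_lit 0, nat_lit 0, nat_lit 76, nat_lit 938200, nat_lit 0, nat_lit 0, [(nat_lit 6, [(nat_lit 5, nat_lit 103), (nat_lit 6, nat_lit 897)])],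
 ⟨p037_k46, nat_lit 0, nat_lit 0, nat_lit 154, nat_lit 0, nat_lit 152860, [nat_lit 2238441600, nat_lit 1351195600, nat_lit 201019600], [], [nat_lit 16159439495, nat_lit 16263479295, nat_lit 16050128006, nat_lit 16153975417, nat_lit 17605404267, nat_lit 17739073384, nat_lit 17453321963, nat_lit 17586787857], nat_lit 1271250, nat_lit 1271250, nat_lit 111251, nat_lit 134400, nat_lit 1271250, nat_lit 1271250, [nat_lit 1100000, nat_lit 1442500, nat_lit 1271250], [nat_lit 9, nat_lit 40, nat_lit 20, nat_lit 80, nat_lit 2, nat_lit 215, nat_lit 10, nat_lit 6]⟩, C1.Rw.none,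
 ⟨nat_lit 6123, nat_lit 6165, ⟨.ofNat (nat_lit 179306), .ofNat (nat_lit 187382), .ofNat (nat_lit 184644), .ofNat (nat_lit 192720), .ofNat (nat_lit 180982), .ofNat (nat_lit 189020), .ofNat (nat_lit 186319), .ofNat (nat_lit 194357)⟩, ⟨.ofNat (nat_lit 428969), .ofNat (nat_lit 469346), .ofNat (nat_lit 450320), .ofNat (nat_lit 490698), .ofNat (nat_lit 428436), .ofNat (nat_lit 468627), .ofNat (nat_lit 449785), .ofNat (nat_lit 489975)⟩⟩, [⟨nat_lit 0, nat_lit 100, nat_lit 99, nat_lit 46, nat_lit 249799564⟩, ⟨nat_lit 16, nat_lit 100, nat_lit 95, nat_lit 62, nat_lit 534840617⟩, ⟨nat_lit 4, nat_lit 98, nat_lit 100, nat_lit 54, nat_lit 2176985⟩]⟩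
noncomputable def p037_l131 : Lf2 := ⟨nat_lit 0, nat_lit 4, [nat_lit 38, nat_lit 5, nat_lit 5, nat_lit 20], true, nat_lit 260, nat_lit 284, nat_lit 0, nat_lit 256, ⟨nat_lit 0, nat_lit 0, nat_lit 1000, nat_lit 6, nat_lit 79, nat_lit 1000, nat_lit 186, nat_lit 1000, nat_lit 38520, nat_lit 262, nat_lit 58017, nat_lit 274, nat_lit 51947456, nat_lit 0, nat_lit 0, nat_lit 3420525, false, false⟩,
 nat_lit 0, nat_lit 7505, nat_lit 0, nat_lit 0, nat_lit 4070, nat_lit 0, nat_lit 0, nat_lit 0, nat_lit 0, nat_lit 0, nat_lit 0, nat_lit 0, nat_lit 0, nat_lit 0, nat_lit 79, nat_lit 971800, nat_lit 0, nat_lit 0, [(nat_lit 6, [(nat_lit 5, nat_lit 47), (nat_lit 6, nat_lit 953)])],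
 ⟨p037_k37, nat_lit 0, nat_lit 0, nat_lit 154, nat_lit 0, nat_lit 155402, [nat_lit 2261771734, nat_lit 1398584400, nat_lit 226360400], [], [nat_lit 15849732678, nat_lit 16109272324, nat_lit 15687916573, nat_lit 15946100665, nat_lit 17564184281, nat_lit 17893638829, nat_lit 17259743532, nat_lit 17588210414], nat_lit 1271250, nat_lit 1271250, nat_lit 134400, nat_lit 181601, nat_lit 1271250, nat_lit 1271250, [nat_lit 1100000, nat_lit 1442500, nat_lit 1271250], [nat_lit 9, nat_lit 40, nat_lit 20, nat_lit 80, nat_lit 2, nat_lit 215, nat_lit 10, nat_lit 6]⟩, C1.Rw.none,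
 ⟨nat_lit 6123, nat_lit 6225, ⟨.ofNat (nat_lit 184914), .ofNat (nat_lit 201178), .ofNat (nat_lit 190253), .ofNat (nat_lit 206517), .ofNat (nat_lit 189020), .ofNat (nat_lit 205096), .ofNat (nat_lit 194357), .ofNat (nat_lit 210433)⟩, ⟨.ofNat (nat_lit 429765), .ofNat (nat_lit 478556), .ofNat (nat_lit 451122), .ofNat (nat_lit 499912), .ofNat (nat_lit 428436), .ofNat (nat_lit 476665), .ofNat (nat_lit 449785), .ofNat (nat_lit 498013)⟩⟩, [⟨nat_lit 16, nat_lit 100, nat_lit 94, nat_lit 62, nat_lit 507747020⟩, ⟨nat_lit 4, nat_lit 98, nat_lit 100, nat_lit 54, nat_lit 28373835⟩]⟩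
noncomputable def b_VL_600_600_5_65 : St := ⟨true, nat_lit 1, nat_lit 1, nat_lit 1, nat_lit 40, nat_lit 245, nat_lit 250, nat_lit 240, nat_lit 245, nat_lit 20, nat_lit 32, nat_lit 20, nat_lit 40, nat_lit 260, nat_lit 284, nat_lit 0, nat_lit 256, nat_lit 8, nat_lit 16, nat_lit 0, nat_lit 0, nat_lit 0, nat_lit 0⟩
theorem d_VL_600_600_5_65 (h : EB TB.env) : Dead b_VL_600_600_5_65 := chkB_sound0 h (T :=
(.spl (nat_lit 2) (nat_lit 24)
(.trX (nat_lit 23) (nat_lit 97) (nat_lit 100) (nat_lit 48) (nat_lit 240) (.spl (nat_lit 0) (nat_lit 248)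
(.spl (nat_lit 1) (nat_lit 243)
(.leaf p037_l123)
(.spl (nat_lit 0) (nat_lit 247)
(.spl (nat_lit 0) (nat_lit 246)
(.spl (nat_lit 1) (nat_lit 244)
(.leaf p037_l124)
(.spl (nat_lit 5) (nat_lit 160)
(.leaf p037_l125)
(.spl (nat_lit 5) (nat_lit 200)
(.leaf p037_l126)
(.leaf p037_l127))))
(.trX (nat_lit 16) (nat_lit 100) (nat_lit 94) (nat_lit 62) (nat_lit 280) (.leaf p037_l128)))
(.trX (nat_lit 16) (nat_lit 100) (nat_lit 95) (nat_lit 62) (nat_lit 280) (.leaf p037_l129))))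
(.trX (nat_lit 16) (nat_lit 100) (nat_lit 95) (nat_lit 62) (nat_lit 280) (.leaf p037_l130))))
(.leaf p037_l131))) (by decide +kernel)
noncomputable def p037_l132 : Lf2 := ⟨nat_lit 0, nat_lit 3, [nat_lit 45, nat_lit 5, nat_lit 5, nat_lit 20], false, nat_lit 260, nat_lit 284, nat_lit 0, nat_lit 160, ⟨nat_lit 1000, nat_lit 0, nat_lit 0, nat_lit 0, nat_lit 0, nat_lit 0, nat_lit 0, nat_lit 0, nat_lit 0, nat_lit 0, nat_lit 0, nat_lit 0, nat_lit 0, nat_lit 0, nat_lit 0, nat_lit 0, false, false⟩,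
 nat_lit 16251, nat_lit 0, nat_lit 0, nat_lit 4464, nat_lit 8815, nat_lit 8375, nat_lit 2417, nat_lit 0, nat_lit 0, nat_lit 3162, nat_lit 0, nat_lit 0, nat_lit 0, nat_lit 14720200196144, nat_lit 0, nat_lit 0, nat_lit 0, nat_lit 0, [],
 ⟨p037_k50, nat_lit 0, nat_lit 0, nat_lit 150, nat_lit 0, nat_lit 139430, [nat_lit 4688000000, nat_lit 6250000000, nat_lit 7968000000], [], [nat_lit 19344796657, nat_lit 19421098205, nat_lit 19035419302, nat_lit 19111544270, nat_lit 21425293866, nat_lit 21526147896, nat_lit 21113698068, nat_lit 21191891492], nat_lit 1271250, nat_lit 1271250, nat_lit 111251, nat_lit 134400, nat_lit 1271250, nat_lit 1271250, [nat_lit 1100000, nat_lit 1442500, nat_lit 1271250], [nat_lit 9, nat_lit 40, nat_lit 20, nat_lit 80, nat_lit 2, nat_lit 215, nat_lit 10, nat_lit 6]⟩, ⟨p037_k50, nat_lit 0, nat_lit 0, nat_lit 268, nat_lit 0, nat_lit 139430, [nat_lit 4688000000, nat_lit 6250000000, nat_lit 7968000000], [],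 [nat_lit 18043122625, nat_lit 18160608251, nat_lit 17675637238, nat_lit 17789683365, nat_lit 13356345750, nat_lit 13444770351, nat_lit 13132656551, nat_lit 13220807310], nat_lit 1271250, nat_lit 1271250, nat_lit 111251, nat_lit 134400, nat_lit 0, nat_lit 1100001, [nat_lit 1100000, nat_lit 1442500, nat_lit 1271250], [nat_lit 9, nat_lit 40, nat_lit 20, nat_lit 80, nat_lit 2, nat_lit 260, nat_lit 50, nat_lit 9]⟩,
 zbF0, [⟨nat_lit 0, nat_lit 100, nat_lit 100, nat_lit 45, nat_lit 1447624682⟩, ⟨nat_lit 4, nat_lit 97, nat_lit 100, nat_lit 54, nat_lit 1247301649⟩]⟩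
noncomputable def p037_l133 : Lf2 := ⟨nat_lit 0, nat_lit 3, [nat_lit 45, nat_lit 5, nat_lit 5, nat_lit 20], false, nat_lit 260, nat_lit 284, nat_lit 160, nat_lit 200, ⟨nat_lit 1000, nat_lit 0, nat_lit 0, nat_lit 0, nat_lit 0, nat_lit 0, nat_lit 0, nat_lit 0, nat_lit 0, nat_lit 0, nat_lit 0, nat_lit 0, nat_lit 0, nat_lit 0, nat_lit 0, nat_lit 0, false, false⟩,
 nat_lit 16251, nat_lit 0, nat_lit 0, nat_lit 407, nat_lit 8815, nat_lit 7710, nat_lit 2417, nat_lit 0, nat_lit 0, nat_lit 0, nat_lit 0, nat_lit 0, nat_lit 0, nat_lit 7594270680395, nat_lit 0, nat_lit 0, nat_lit 0, nat_lit 0, [],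
 ⟨p037_k50, nat_lit 0, nat_lit 0, nat_lit 150, nat_lit 0, nat_lit 139430, [nat_lit 4688000000, nat_lit 6250000000, nat_lit 7968000000], [], [nat_lit 19344796657, nat_lit 19421098205, nat_lit 19035419302, nat_lit 19111544270, nat_lit 21425293866, nat_lit 21526147896, nat_lit 21113698068, nat_lit 21191891492], nat_lit 1271250, nat_lit 1271250, nat_lit 111251, nat_lit 134400, nat_lit 1271250, nat_lit 1271250, [nat_lit 1100000, nat_lit 1442500, nat_lit 1271250], [nat_lit 9, nat_lit 40, nat_lit 20, nat_lit 80, nat_lit 2, nat_lit 215, nat_lit 10, nat_lit 6]⟩, ⟨p037_k50, nat_lit 0, nat_lit 0, nat_lit 188, nat_lit 0, nat_lit 139430, [nat_lit 4688000000, nat_lit 6250000000, nat_lit 7968000000], [], [nat_lit 10015343000, nat_lit 10126322592, nat_lit 9767685275, nat_lit 9878374511, nat_lit 12594667570, nat_lit 12714253654, nat_lit 12343716498, nat_lit 12444597943], nat_lit 1271250, nat_lit 1271250, nat_lit 111251, nat_lit 134400, nat_lit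 1100001, nat_lit 1442500, [nat_lit 1100000, nat_lit 1442500, nat_lit 1271250], [nat_lit 9, nat_lit 40, nat_lit 20, nat_lit 80, nat_lit 2, nat_lit 272, nat_lit 60, nat_lit 9]⟩,
 zbF0, [⟨nat_lit 0, nat_lit 100, nat_lit 100, nat_lit 45, nat_lit 1481697447⟩, ⟨nat_lit 16, nat_lit 100, nat_lit 97, nat_lit 54, nat_lit 113085468⟩, ⟨nat_lit 16, nat_lit 100, nat_lit 94, nat_lit 62, nat_lit 987865706⟩]⟩
noncomputable def p037_l134 : Lf2 := ⟨nat_lit 0, nat_lit 3, [nat_lit 45, nat_lit 5, nat_lit 5, nat_lit 20], false, nat_lit 260, nat_lit 284, nat_lit 200, nat_lit 240, ⟨nat_lit 1000, nat_lit 0, nat_lit 0, nat_lit 0, nat_lit 0, nat_lit 0, nat_lit 0, nat_lit 0, nat_lit 0, nat_lit 0, nat_lit 0, nat_lit 0, nat_lit 0, nat_lit 0, nat_lit 0, nat_lit 0, false, false⟩,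
 nat_lit 20280, nat_lit 0, nat_lit 0, nat_lit 0, nat_lit 11000, nat_lit 11000, nat_lit 1758, nat_lit 0, nat_lit 0, nat_lit 2272, nat_lit 0, nat_lit 0, nat_lit 0, nat_lit 14856026253848, nat_lit 0, nat_lit 0, nat_lit 0, nat_lit 0, [],
 ⟨p037_k50, nat_lit 0, nat_lit 0, nat_lit 150, nat_lit 0, nat_lit 139430, [nat_lit 4688000000, nat_lit 6250000000, nat_lit 7968000000], [], [nat_lit 19655999750, nat_lit 19743489701, nat_lit 19254510825, nat_lit 19341793551, nat_lit 23132643176, nat_lit 23250089210, nat_lit 22617045341, nat_lit 22734320177], nat_lit 1271250, nat_lit 1271250, nat_lit 111251, nat_lit 134400, nat_lit 1271250, nat_lit 1271250, [nat_lit 1100000, nat_lit 1442500, nat_lit 1271250], [nat_lit 9, nat_lit 40, nat_lit 20, nat_lit 80, nat_lit 2, nat_lit 215, nat_lit 10, nat_lit 6]⟩, ⟨p037_k50, nat_lit 0, nat_lit 0, nat_lit 168, nat_lit 0, nat_lit 139430, [nat_lit 4688000000, nat_lit 6250000000, nat_lit 7968000000], [], [nat_lit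 14316442750, nat_lit 14421073701, nat_lit 13922670300, nat_lit 14027036841, nat_lit 16726834000, nat_lit 16820527201, nat_lit 16330535701, nat_lit 16423998360], nat_lit 1271250, nat_lit 1271250, nat_lit 111251, nat_lit 134400, nat_lit 1271250, nat_lit 1271250, [nat_lit 1100000, nat_lit 1442500, nat_lit 1271250], [nat_lit 9, nat_lit 40, nat_lit 20, nat_lit 80, nat_lit 2, nat_lit 289, nat_lit 75, nat_lit 9]⟩,
 zbF0, [⟨nat_lit 0, nat_lit 100, nat_lit 100, nat_lit 46, nat_lit 704445996⟩, ⟨nat_lit 16, nat_lit 100, nat_lit 97, nat_lit 54, nat_lit 1272580206⟩, ⟨nat_lit 23, nat_lit 97, nat_lit 100, nat_lit 48, nat_lit 1104768519⟩]⟩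
noncomputable def p037_l135 : Lf2 := ⟨nat_lit 0, nat_lit 3, [nat_lit 45, nat_lit 5, nat_lit 5, nat_lit 20], true, nat_lit 260, nat_lit 284, nat_lit 0, nat_lit 256, ⟨nat_lit 0, nat_lit 0, nat_lit 1000, nat_lit 6, nat_lit 80, nat_lit 1000, nat_lit 186, nat_lit 1000, nat_lit 38520, nat_lit 262, nat_lit 60000, nat_lit 275, nat_lit 51884709, nat_lit 0, nat_lit 0, nat_lit 3432613, false, false⟩,
 nat_lit 0, nat_lit 7507, nat_lit 0, nat_lit 0, nat_lit 4071, nat_lit 0, nat_lit 0, nat_lit 0, nat_lit 0, nat_lit 0, nat_lit 0, nat_lit 0, nat_lit 0, nat_lit 23883001615869, nat_lit 78, nat_lit 960400, nat_lit 0, nat_lit 0, [(nat_lit 6, [(nat_lit 5, nat_lit 66), (nat_lit 6, nat_lit 934)])],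
 ⟨p037_k50, nat_lit 0, nat_lit 0, nat_lit 146, nat_lit 0, nat_lit 139430, [nat_lit 2254141867, nat_lit 1382863201, nat_lit 218191199], [], [nat_lit 15872433953, nat_lit 15916824496, nat_lit 15703013110, nat_lit 15754655148, nat_lit 17564913410, nat_lit 17630811734, nat_lit 17260367790, nat_lit 17326068560], nat_lit 1271250, nat_lit 1271250, nat_lit 134400, nat_lit 181601, nat_lit 1271250, nat_lit 1271250, [nat_lit 1100000, nat_lit 1442500, nat_lit 1271250], [nat_lit 9, nat_lit 40, nat_lit 20, nat_lit 80, nat_lit 2, nat_lit 215, nat_lit 10, nat_lit 6]⟩, C1.Rw.none,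
 ⟨nat_lit 6204, nat_lit 6225, ⟨.ofNat (nat_lit 190253), .ofNat (nat_lit 206517), .ofNat (nat_lit 191321), .ofNat (nat_lit 207585), .ofNat (nat_lit 191077), .ofNat (nat_lit 207303), .ofNat (nat_lit 192144), .ofNat (nat_lit 208370)⟩, ⟨.ofNat (nat_lit 429765), .ofNat (nat_lit 478556), .ofNat (nat_lit 451122), .ofNat (nat_lit 499912), .ofNat (nat_lit 429500), .ofNat (nat_lit 478178), .ofNat (nat_lit 450855), .ofNat (nat_lit 499533)⟩⟩, [⟨nat_lit 16, nat_lit 100, nat_lit 94, nat_lit 62, nat_lit 498784105⟩, ⟨nat_lit 4, nat_lit 97, nat_lit 100, nat_lit 54, nat_lit 39499562⟩]⟩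
noncomputable def p037_l136 : Lf2 := ⟨nat_lit 0, nat_lit 3, [nat_lit 45, nat_lit 5, nat_lit 5, nat_lit 20], false, nat_lit 260, nat_lit 280, nat_lit 0, nat_lit 160, ⟨nat_lit 1000, nat_lit 0, nat_lit 0, nat_lit 0, nat_lit 0, nat_lit 0, nat_lit 0, nat_lit 0, nat_lit 0, nat_lit 0, nat_lit 0, nat_lit 0, nat_lit 0, nat_lit 0, nat_lit 0, nat_lit 0, false, false⟩,
 nat_lit 15500, nat_lit 655, nat_lit 0, nat_lit 4272, nat_lit 8805, nat_lit 8407, nat_lit 2440, nat_lit 0, nat_lit 0, nat_lit 3117, nat_lit 0, nat_lit 0, nat_lit 0, nat_lit 2545203737587, nat_lit 0, nat_lit 0, nat_lit 0, nat_lit 0, [],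
 ⟨p037_k51, nat_lit 0, nat_lit 0, nat_lit 152, nat_lit 0, nat_lit 148150, [nat_lit 4688000000, nat_lit 6250000000, nat_lit 7968000000], [], [nat_lit 19292151562, nat_lit 19368401905, nat_lit 18983019330, nat_lit 19059093233, nat_lit 21019969968, nat_lit 21122460637, nat_lit 20709624822, nat_lit 20788894855], nat_lit 1271250, nat_lit 1271250, nat_lit 111251, nat_lit 134400, nat_lit 1271250, nat_lit 1271250, [nat_lit 1100000, nat_lit 1442500, nat_lit 1271250], [nat_lit 9, nat_lit 40, nat_lit 20, nat_lit 80, nat_lit 2, nat_lit 215, nat_lit 10, nat_lit 6]⟩, ⟨p037_k50, nat_lit 0, nat_lit 0, nat_lit 268, nat_lit 0, nat_lit 148964, [nat_lit 4688000000, nat_lit 6250000000, nat_lit 7968000000], [], [nat_lit 18135282529, nat_lit 18364488955, nat_lit 17766147974, nat_lit 17994822139, nat_lit 13307033383, nat_lit 13484309796, nat_lit 13082227076, nat_lit 13258954201], nat_lit 1271250, nat_lit 1271250, nat_lit 111251, nat_lit 134400,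 nat_lit 0, nat_lit 1100001, [nat_lit 1100000, nat_lit 1442500, nat_lit 1271250], [nat_lit 9, nat_lit 40, nat_lit 20, nat_lit 80, nat_lit 2, nat_lit 260, nat_lit 50, nat_lit 9]⟩,
 zbF0, [⟨nat_lit 0, nat_lit 100, nat_lit 100, nat_lit 46, nat_lit 1625089970⟩, ⟨nat_lit 4, nat_lit 98, nat_lit 100, nat_lit 54, nat_lit 1242555618⟩]⟩
noncomputable def p037_l137 : Lf2 := ⟨nat_lit 0, nat_lit 3, [nat_lit 45, nat_lit 5, nat_lit 5, nat_lit 20], false, nat_lit 260, nat_lit 280, nat_lit 160, nat_lit 200, ⟨nat_lit 1000, nat_lit 0, nat_lit 0, nat_lit 0, nat_lit 0, nat_lit 0, nat_lit 0, nat_lit 0, nat_lit 0, nat_lit 0, nat_lit 0, nat_lit 0, nat_lit 0, nat_lit 0, nat_lit 0, nat_lit 0, false, false⟩,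
 nat_lit 14357, nat_lit 1798, nat_lit 0, nat_lit 33, nat_lit 8805, nat_lit 7787, nat_lit 2440, nat_lit 0, nat_lit 0, nat_lit 0, nat_lit 0, nat_lit 0, nat_lit 0, nat_lit 0, nat_lit 0, nat_lit 0, nat_lit 0, nat_lit 0, [],
 ⟨p037_k51, nat_lit 0, nat_lit 0, nat_lit 152, nat_lit 0, nat_lit 148150, [nat_lit 4688000000, nat_lit 6250000000, nat_lit 7968000000], [], [nat_lit 19292151562, nat_lit 19368401905, nat_lit 18983019330, nat_lit 19059093233, nat_lit 21019969968, nat_lit 21122460637, nat_lit 20709624822, nat_lit 20788894855], nat_lit 1271250, nat_lit 1271250, nat_lit 111251, nat_lit 134400, nat_lit 1271250, nat_lit 1271250, [nat_lit 1100000, nat_lit 1442500, nat_lit 1271250], [nat_lit 9, nat_lit 40, nat_lit 20, nat_lit 80, nat_lit 2, nat_lit 215, nat_lit 10, nat_lit 6]⟩, ⟨p037_k50, nat_lit 0, nat_lit 0, nat_lit 188, nat_lit 0, nat_lit 148964, [nat_lit 4688000000, nat_lit 6250000000, nat_lit 7968000000], [], [nat_lit 9931759500,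 nat_lit 10155187105, nat_lit 9680922638, nat_lit 9903765185, nat_lit 12605635330, nat_lit 12847069599, nat_lit 12269964146, nat_lit 12508454840], nat_lit 1271250, nat_lit 1271250, nat_lit 111251, nat_lit 134400, nat_lit 1100001, nat_lit 1442500, [nat_lit 1100000, nat_lit 1442500, nat_lit 1271250], [nat_lit 9, nat_lit 40, nat_lit 20, nat_lit 80, nat_lit 2, nat_lit 272, nat_lit 60, nat_lit 9]⟩,
 zbF0, [⟨nat_lit 0, nat_lit 100, nat_lit 100, nat_lit 46, nat_lit 1586431091⟩, ⟨nat_lit 16, nat_lit 100, nat_lit 94, nat_lit 62, nat_lit 1082225861⟩]⟩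
noncomputable def p037_l138 : Lf2 := ⟨nat_lit 0, nat_lit 3, [nat_lit 45, nat_lit 5, nat_lit 5, nat_lit 20], false, nat_lit 260, nat_lit 280, nat_lit 200, nat_lit 240, ⟨nat_lit 1000, nat_lit 0, nat_lit 0, nat_lit 0, nat_lit 0, nat_lit 0, nat_lit 0, nat_lit 0, nat_lit 0, nat_lit 0, nat_lit 0, nat_lit 0, nat_lit 0, nat_lit 0, nat_lit 0, nat_lit 0, false, false⟩,
 nat_lit 20128, nat_lit 0, nat_lit 0, nat_lit 0, nat_lit 10970, nat_lit 10918, nat_lit 1715, nat_lit 0, nat_lit 0, nat_lit 2287, nat_lit 0, nat_lit 0, nat_lit 0, nat_lit 13471709088102, nat_lit 0, nat_lit 0, nat_lit 0, nat_lit 0, [],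
 ⟨p037_k51, nat_lit 0, nat_lit 0, nat_lit 152, nat_lit 0, nat_lit 148150, [nat_lit 4688000000, nat_lit 6250000000, nat_lit 7968000000], [], [nat_lit 19768437272, nat_lit 19855773605, nat_lit 19368006232, nat_lit 19455135761, nat_lit 22643072644, nat_lit 22762174048, nat_lit 22130034365, nat_lit 22248958428], nat_lit 1271250, nat_lit 1271250, nat_lit 111251, nat_lit 134400, nat_lit 1271250, nat_lit 1271250, [nat_lit 1100000, nat_lit 1442500, nat_lit 1271250], [nat_lit 9, nat_lit 40, nat_lit 20, nat_lit 80, nat_lit 2, nat_lit 215, nat_lit 10, nat_lit 6]⟩, ⟨p037_k50, nat_lit 0, nat_lit 0, nat_lit 168, nat_lit 0, nat_lit 148964, [nat_lit 4688000000, nat_lit 6250000000, nat_lit 7968000000], [], [nat_lit 14341568059, nat_lit 14549764173, nat_lit 13951216256, nat_lit 14158886606, nat_lit 16742812906, nat_lit 16929277397, nat_lit 16349941255, nat_lit 16535947277], nat_lit 1271250, nat_lit 1271250, nat_lit 111251, nat_lit 134400,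 nat_lit 1271250, nat_lit 1271250, [nat_lit 1100000, nat_lit 1442500, nat_lit 1271250], [nat_lit 9, nat_lit 40, nat_lit 20, nat_lit 80, nat_lit 2, nat_lit 289, nat_lit 75, nat_lit 9]⟩,
 zbF0, [⟨nat_lit 0, nat_lit 100, nat_lit 100, nat_lit 47, nat_lit 701288075⟩, ⟨nat_lit 4, nat_lit 98, nat_lit 100, nat_lit 54, nat_lit 1270131579⟩, ⟨nat_lit 23, nat_lit 97, nat_lit 100, nat_lit 48, nat_lit 1099410975⟩]⟩
noncomputable def p037_l139 : Lf2 := ⟨nat_lit 0, nat_lit 3, [nat_lit 45, nat_lit 5, nat_lit 5, nat_lit 20], true, nat_lit 260, nat_lit 280, nat_lit 0, nat_lit 256, ⟨nat_lit 0, nat_lit 0, nat_lit 1000, nat_lit 6, nat_lit 80, nat_lit 1000, nat_lit 184, nat_lit 1000, nat_lit 50670, nat_lit 269, nat_lit 60000, nat_lit 275, nat_lit 52023035, nat_lit 0, nat_lit 0, nat_lit 3420960, false, false⟩,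
 nat_lit 0, nat_lit 7472, nat_lit 0, nat_lit 0, nat_lit 4072, nat_lit 0, nat_lit 0, nat_lit 0, nat_lit 0, nat_lit 0, nat_lit 0, nat_lit 0, nat_lit 0, nat_lit 23753894535674, nat_lit 77, nat_lit 949000, nat_lit 0, nat_lit 0, [(nat_lit 6, [(nat_lit 5, nat_lit 85), (nat_lit 6, nat_lit 915)])],
 ⟨p037_k51, nat_lit 0, nat_lit 0, nat_lit 148, nat_lit 0, nat_lit 148150, [nat_lit 2246512000, nat_lit 1367142001, nat_lit 210021999], [], [nat_lit 15939588826, nat_lit 15983983286, nat_lit 15769756904, nat_lit 15821404163, nat_lit 17319158638, nat_lit 17385884018, nat_lit 17015505204, nat_lit 17082027383], nat_lit 1271250, nat_lit 1271250, nat_lit 134400, nat_lit 181601, nat_lit 1271250, nat_lit 1271250, [nat_lit 1100000, nat_lit 1442500, nat_lit 1271250], [nat_lit 9, nat_lit 40, nat_lit 20, nat_lit 80, nat_lit 2, nat_lit 215, nat_lit 10, nat_lit 6]⟩, C1.Rw.none,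
 ⟨nat_lit 6184, nat_lit 6205, ⟨.ofNat (nat_lit 191077), .ofNat (nat_lit 207303), .ofNat (nat_lit 193212), .ofNat (nat_lit 209438), .ofNat (nat_lit 191899), .ofNat (nat_lit 208087), .ofNat (nat_lit 194034), .ofNat (nat_lit 210222)⟩, ⟨.ofNat (nat_lit 429500), .ofNat (nat_lit 470065), .ofNat (nat_lit 450855), .ofNat (nat_lit 491420), .ofNat (nat_lit 429235), .ofNat (nat_lit 469706), .ofNat (nat_lit 450588), .ofNat (nat_lit 491059)⟩⟩, [⟨nat_lit 16, nat_lit 100, nat_lit 94, nat_lit 62, nat_lit 378195184⟩, ⟨nat_lit 4, nat_lit 98, nat_lit 100, nat_lit 54, nat_lit 161309214⟩]⟩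
noncomputable def p037_l140 : Lf2 := ⟨nat_lit 0, nat_lit 3, [nat_lit 45, nat_lit 5, nat_lit 5, nat_lit 20], true, nat_lit 260, nat_lit 280, nat_lit 0, nat_lit 240, ⟨nat_lit 0, nat_lit 0, nat_lit 1000, nat_lit 6, nat_lit 76, nat_lit 1000, nat_lit 184, nat_lit 1000, nat_lit 49699, nat_lit 269, nat_lit 54150, nat_lit 272, nat_lit 52300637, nat_lit 0, nat_lit 0, nat_lit 3353822, false, false⟩,
 nat_lit 0, nat_lit 7436, nat_lit 0, nat_lit 0, nat_lit 4072, nat_lit 0, nat_lit 0, nat_lit 0, nat_lit 0, nat_lit 0, nat_lit 0, nat_lit 0, nat_lit 0, nat_lit 0, nat_lit 77, nat_lit 949000, nat_lit 0, nat_lit 0, [(nat_lit 6, [(nat_lit 5, nat_lit 85), (nat_lit 6, nat_lit 915)])],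
 ⟨p037_k52, nat_lit 0, nat_lit 0, nat_lit 153, nat_lit 0, nat_lit 152045, [nat_lit 2246512000, nat_lit 1367142001, nat_lit 210021999], [], [nat_lit 16092812209, nat_lit 16144826988, nat_lit 15983983286, nat_lit 16035824870, nat_lit 17537812335, nat_lit 17604639316, nat_lit 17385884018, nat_lit 17452609398], nat_lit 1271250, nat_lit 1271250, nat_lit 111251, nat_lit 134400, nat_lit 1271250, nat_lit 1271250, [nat_lit 1100000, nat_lit 1442500, nat_lit 1271250], [nat_lit 9, nat_lit 40, nat_lit 20, nat_lit 80, nat_lit 2, nat_lit 215, nat_lit 10, nat_lit 6]⟩, C1.Rw.none,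
 ⟨nat_lit 6164, nat_lit 6185, ⟨.ofNat (nat_lit 183805), .ofNat (nat_lit 191899), .ofNat (nat_lit 185940), .ofNat (nat_lit 194034), .ofNat (nat_lit 184644), .ofNat (nat_lit 192720), .ofNat (nat_lit 186779), .ofNat (nat_lit 194855)⟩, ⟨.ofNat (nat_lit 429235), .ofNat (nat_lit 469706), .ofNat (nat_lit 450588), .ofNat (nat_lit 491059), .ofNat (nat_lit 428969), .ofNat (nat_lit 469346), .ofNat (nat_lit 450320), .ofNat (nat_lit 490698)⟩⟩, [⟨nat_lit 0, nat_lit 100, nat_lit 100, nat_lit 47, nat_lit 301279601⟩, ⟨nat_lit 16, nat_lit 100, nat_lit 95, nat_lit 62, nat_lit 417387228⟩, ⟨nat_lit 4, nat_lit 98, nat_lit 100, nat_lit 54, nat_lit 116310942⟩]⟩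
noncomputable def p037_l141 : Lf2 := ⟨nat_lit 0, nat_lit 3, [nat_lit 45, nat_lit 5, nat_lit 5, nat_lit 20], false, nat_lit 260, nat_lit 280, nat_lit 0, nat_lit 160, ⟨nat_lit 1000, nat_lit 0, nat_lit 0, nat_lit 0, nat_lit 0, nat_lit 0, nat_lit 0, nat_lit 0, nat_lit 0, nat_lit 0, nat_lit 0, nat_lit 0, nat_lit 0, nat_lit 0, nat_lit 0, nat_lit 0, false, false⟩,
 nat_lit 15909, nat_lit 0, nat_lit 0, nat_lit 1277, nat_lit 8712, nat_lit 8323, nat_lit 2417, nat_lit 0, nat_lit 0, nat_lit 3028, nat_lit 0, nat_lit 0, nat_lit 0, nat_lit 12265131066090, nat_lit 0, nat_lit 0, nat_lit 0, nat_lit 0, [],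
 ⟨p037_k52, nat_lit 0, nat_lit 0, nat_lit 155, nat_lit 0, nat_lit 156719, [nat_lit 4688000000, nat_lit 6250000000, nat_lit 7968000000], [], [nat_lit 19341210664, nat_lit 19416984795, nat_lit 19035825139, nat_lit 19111424135, nat_lit 21052089399, nat_lit 21154014740, nat_lit 20743263419, nat_lit 20822030114], nat_lit 1271250, nat_lit 1271250, nat_lit 111251, nat_lit 134400, nat_lit 1271250, nat_lit 1271250, [nat_lit 1100000, nat_lit 1442500, nat_lit 1271250], [nat_lit 9, nat_lit 40, nat_lit 20, nat_lit 80, nat_lit 2, nat_lit 215, nat_lit 10, nat_lit 6]⟩, ⟨p037_k52, nat_lit 0, nat_lit 0, nat_lit 268, nat_lit 0, nat_lit 156719, [nat_lit 4688000000, nat_lit 6250000000, nat_lit 7968000000], [], [nat_lit 18247707137, nat_lit 18405689368, nat_lit 17882503944, nat_lit 17996077269, nat_lit 13418143092, nat_lit 13506220581, nat_lit 13195724123, nat_lit 13283529079], nat_lit 1271250, nat_lit 1271250, nat_lit 111251, nat_lit 134400,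 nat_lit 0, nat_lit 1100001, [nat_lit 1100000, nat_lit 1442500, nat_lit 1271250], [nat_lit 9, nat_lit 40, nat_lit 20, nat_lit 80, nat_lit 2, nat_lit 260, nat_lit 50, nat_lit 9]⟩,
 zbF0, [⟨nat_lit 0, nat_lit 100, nat_lit 100, nat_lit 47, nat_lit 1618907171⟩, ⟨nat_lit 16, nat_lit 100, nat_lit 95, nat_lit 62, nat_lit 1073864008⟩]⟩
noncomputable def p037_l142 : Lf2 := ⟨nat_lit 0, nat_lit 3, [nat_lit 45, nat_lit 5, nat_lit 5, nat_lit 20], false, nat_lit 260, nat_lit 280, nat_lit 160, nat_lit 200, ⟨nat_lit 1000, nat_lit 0, nat_lit 0, nat_lit 0, nat_lit 0, nat_lit 0, nat_lit 0, nat_lit 0, nat_lit 0, nat_lit 0, nat_lit 0, nat_lit 0, nat_lit 0, nat_lit 0, nat_lit 0, nat_lit 0, false, false⟩,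
 nat_lit 24425, nat_lit 0, nat_lit 0, nat_lit 0, nat_lit 9257, nat_lit 13376, nat_lit 2578, nat_lit 0, nat_lit 0, nat_lit 1853, nat_lit 0, nat_lit 0, nat_lit 0, nat_lit 23759299213852, nat_lit 0, nat_lit 0, nat_lit 0, nat_lit 0, [],
 ⟨p037_k52, nat_lit 0, nat_lit 0, nat_lit 155, nat_lit 0, nat_lit 156719, [nat_lit 4688000000, nat_lit 6250000000, nat_lit 7968000000], [], [nat_lit 18891835057, nat_lit 19006034836, nat_lit 18497286148, nat_lit 18587416164, nat_lit 21464793414, nat_lit 21570913362, nat_lit 21041297300, nat_lit 21147258715], nat_lit 1271250, nat_lit 1271250, nat_lit 111251, nat_lit 134400, nat_lit 1271250, nat_lit 1271250, [nat_lit 1100000, nat_lit 1442500, nat_lit 1271250], [nat_lit 9, nat_lit 40, nat_lit 20, nat_lit 80, nat_lit 2, nat_lit 215, nat_lit 10, nat_lit 6]⟩, ⟨p037_k52, nat_lit 0, nat_lit 0, nat_lit 188, nat_lit 0, nat_lit 156719, [nat_lit 4688000000, nat_lit 6250000000, nat_lit 7968000000], [], [nat_lit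 11000498186, nat_lit 11133592263, nat_lit 10509612132, nat_lit 10642357176, nat_lit 13783374089, nat_lit 13962210676, nat_lit 13156362448, nat_lit 13333140345], nat_lit 1271250, nat_lit 1271250, nat_lit 111251, nat_lit 134400, nat_lit 1100001, nat_lit 1442500, [nat_lit 1100000, nat_lit 1442500, nat_lit 1271250], [nat_lit 9, nat_lit 40, nat_lit 20, nat_lit 80, nat_lit 2, nat_lit 272, nat_lit 60, nat_lit 9]⟩,
 zbF0, [⟨nat_lit 0, nat_lit 100, nat_lit 100, nat_lit 47, nat_lit 2055141443⟩, ⟨nat_lit 16, nat_lit 100, nat_lit 98, nat_lit 54, nat_lit 1634072727⟩]⟩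
noncomputable def p037_l143 : Lf2 := ⟨nat_lit 0, nat_lit 3, [nat_lit 45, nat_lit 5, nat_lit 5, nat_lit 20], false, nat_lit 260, nat_lit 280, nat_lit 200, nat_lit 240, ⟨nat_lit 1000, nat_lit 0, nat_lit 0, nat_lit 0, nat_lit 0, nat_lit 0, nat_lit 0, nat_lit 0, nat_lit 0, nat_lit 0, nat_lit 0, nat_lit 0, nat_lit 0, nat_lit 0, nat_lit 0, nat_lit 0, false, false⟩,
 nat_lit 19932, nat_lit 0, nat_lit 0, nat_lit 0, nat_lit 10916, nat_lit 10916, nat_lit 1738, nat_lit 0, nat_lit 0, nat_lit 2222, nat_lit 0, nat_lit 0, nat_lit 0, nat_lit 10667719771476, nat_lit 0, nat_lit 0, nat_lit 0, nat_lit 0, [],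
 ⟨p037_k52, nat_lit 0, nat_lit 0, nat_lit 155, nat_lit 0, nat_lit 156719, [nat_lit 4688000000, nat_lit 6250000000, nat_lit 7968000000], [], [nat_lit 19824473096, nat_lit 19952514576, nat_lit 19360185336, nat_lit 19447651196, nat_lit 22721275885, nat_lit 22839968066, nat_lit 22210888550, nat_lit 22329403984], nat_lit 1271250, nat_lit 1271250, nat_lit 111251, nat_lit 134400, nat_lit 1271250, nat_lit 1271250, [nat_lit 1100000, nat_lit 1442500, nat_lit 1271250], [nat_lit 9, nat_lit 40, nat_lit 20, nat_lit 80, nat_lit 2, nat_lit 215, nat_lit 10, nat_lit 6]⟩, ⟨p037_k52, nat_lit 0, nat_lit 0, nat_lit 168, nat_lit 0, nat_lit 156719, [nat_lit 4688000000, nat_lit 6250000000, nat_lit 7968000000], [], [nat_lit 14487472027, nat_lit 14591557086, nat_lit 14096677965, nat_lit 14200500180, nat_lit 16927670308, nat_lit 17065061085, nat_lit 16473519197, nat_lit 16566510997], nat_lit 1271250, nat_lit 1271250, nat_lit 111251, nat_lit 134400,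 nat_lit 1271250, nat_lit 1271250, [nat_lit 1100000, nat_lit 1442500, nat_lit 1271250], [nat_lit 9, nat_lit 40, nat_lit 20, nat_lit 80, nat_lit 2, nat_lit 289, nat_lit 75, nat_lit 9]⟩,
 zbF0, [⟨nat_lit 0, nat_lit 100, nat_lit 100, nat_lit 48, nat_lit 963709147⟩, ⟨nat_lit 4, nat_lit 98, nat_lit 100, nat_lit 54, nat_lit 1263164007⟩, ⟨nat_lit 23, nat_lit 97, nat_lit 100, nat_lit 48, nat_lit 1096442366⟩]⟩
noncomputable def p037_l144 : Lf2 := ⟨nat_lit 0, nat_lit 3, [nat_lit 45, nat_lit 5, nat_lit 5, nat_lit 20], true, nat_lit 260, nat_lit 280, nat_lit 0, nat_lit 256, ⟨nat_lit 0, nat_lit 0, nat_lit 1000, nat_lit 6, nat_lit 81, nat_lit 1000, nat_lit 184, nat_lit 1000, nat_lit 49699, nat_lit 269, nat_lit 62017, nat_lit 276, nat_lit 52003451, nat_lit 0, nat_lit 0, nat_lit 3427281, false, false⟩,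
 nat_lit 0, nat_lit 7438, nat_lit 0, nat_lit 0, nat_lit 4073, nat_lit 0, nat_lit 0, nat_lit 0, nat_lit 0, nat_lit 0, nat_lit 0, nat_lit 0, nat_lit 0, nat_lit 23612618419956, nat_lit 76, nat_lit 938200, nat_lit 0, nat_lit 0, [(nat_lit 6, [(nat_lit 5, nat_lit 103), (nat_lit 6, nat_lit 897)])],
 ⟨p037_k52, nat_lit 0, nat_lit 0, nat_lit 151, nat_lit 0, nat_lit 156719, [nat_lit 2238441600, nat_lit 1351195600, nat_lit 201019600], [], [nat_lit 16005477800, nat_lit 16050128006, nat_lit 15835630073, nat_lit 15887282551, nat_lit 17386589016, nat_lit 17453321963, nat_lit 17082627629, nat_lit 17149157353], nat_lit 1271250, nat_lit 1271250, nat_lit 134400, nat_lit 181601, nat_lit 1271250, nat_lit 1271250, [nat_lit 1100000, nat_lit 1442500, nat_lit 1271250], [nat_lit 9, nat_lit 40, nat_lit 20, nat_lit 80, nat_lit 2, nat_lit 215, nat_lit 10, nat_lit 6]⟩, C1.Rw.none,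
 ⟨nat_lit 6164, nat_lit 6185, ⟨.ofNat (nat_lit 191899), .ofNat (nat_lit 208087), .ofNat (nat_lit 195102), .ofNat (nat_lit 211290), .ofNat (nat_lit 192720), .ofNat (nat_lit 208870), .ofNat (nat_lit 195922), .ofNat (nat_lit 212073)⟩, ⟨.ofNat (nat_lit 429235), .ofNat (nat_lit 469706), .ofNat (nat_lit 450588), .ofNat (nat_lit 491059), .ofNat (nat_lit 428969), .ofNat (nat_lit 469346), .ofNat (nat_lit 450320), .ofNat (nat_lit 490698)⟩⟩, [⟨nat_lit 16, nat_lit 100, nat_lit 98, nat_lit 54, nat_lit 164380186⟩, ⟨nat_lit 16, nat_lit 100, nat_lit 95, nat_lit 62, nat_lit 376516594⟩]⟩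
noncomputable def b_VL_600_600_5_66 : St := ⟨true, nat_lit 1, nat_lit 1, nat_lit 1, nat_lit 40, nat_lit 245, nat_lit 248, nat_lit 245, nat_lit 250, nat_lit 20, nat_lit 32, nat_lit 20, nat_lit 40, nat_lit 260, nat_lit 284, nat_lit 0, nat_lit 256, nat_lit 8, nat_lit 12, nat_lit 0, nat_lit 0, nat_lit 0, nat_lit 0⟩
theorem d_VL_600_600_5_66 (h : EB TB.env) : Dead b_VL_600_600_5_66 := chkB_sound0 h (T :=
(.ord (.spl (nat_lit 0) (nat_lit 247)
(.ord (.spl (nat_lit 0) (nat_lit 246)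
(.ord (.spl (nat_lit 2) (nat_lit 24)
(.trX (nat_lit 23) (nat_lit 97) (nat_lit 100) (nat_lit 48) (nat_lit 240) (.spl (nat_lit 5) (nat_lit 160)
(.leaf p037_l132)
(.spl (nat_lit 5) (nat_lit 200)
(.leaf p037_l133)
(.leaf p037_l134))))
(.leaf p037_l135)))
(.trX (nat_lit 16) (nat_lit 100) (nat_lit 94) (nat_lit 62) (nat_lit 280) (.spl (nat_lit 2) (nat_lit 24)
(.trX (nat_lit 23) (nat_lit 97) (nat_lit 100) (nat_lit 48) (nat_lit 240) (.spl (nat_lit 5) (nat_lit 160)
(.leaf p037_l136)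
(.spl (nat_lit 5) (nat_lit 200)
(.leaf p037_l137)
(.leaf p037_l138))))
(.leaf p037_l139)))))
(.trX (nat_lit 16) (nat_lit 100) (nat_lit 95) (nat_lit 62) (nat_lit 280) (.spl (nat_lit 2) (nat_lit 24)
(.trX (nat_lit 23) (nat_lit 97) (nat_lit 100) (nat_lit 48) (nat_lit 240) (.spl (nat_lit 1) (nat_lit 247)
(.leaf p037_l140)
(.spl (nat_lit 5) (nat_lit 160)
(.leaf p037_l141)
(.spl (nat_lit 5) (nat_lit 200)
(.leaf p037_l142)
(.leaf p037_l143)))))
(.leaf p037_l144)))))) (by decide +kernel)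

end B2
end Pool.Agent.Lib.MP_6947cd_al
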