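import Pool.Agent.Lib.MP_6947cd_al.ZB.Pre

/-!
Problem MP_6947cd_al (Chollet).  Case B, second entry in [2/5, 17/20]: certificates of the tree, part P038 (generated).
-/

set_option autoImplicit false
set_option linter.all false

namespace Pool.Agent.Lib.MP_6947cd_al
namespace B2

open Ent Fr B1 PkA

noncomputable def p038_k0 : C1.Kn := ⟨[nat_lit 80, nat_lit 100, nat_lit 120], [nat_lit 0, nat_lit 106, nat_lit 614], [(nat_lit 0, nat_lit 0, nat_lit 0), (nat_lit 1000, nat_lit 983, nat_lit 83), (nat_lit 1000, nat_lit 983, nat_lit 397)], (nat_lit 98, nat_lit 100, nat_lit 34)⟩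
noncomputable def p038_k1 : C1.Kn := ⟨[nat_lit 80, nat_lit 100, nat_lit 120], [nat_lit 0, nat_lit 65, nat_lit 576], [(nat_lit 0, nat_lit 0, nat_lit 0), (nat_lit 1000, nat_lit 990, nat_lit 51), (nat_lit 1000, nat_lit 990, nat_lit 399)], (nat_lit 98, nat_lit 100, nat_lit 34)⟩
noncomputable def p038_k2 : C1.Kn := ⟨[nat_lit 80, nat_lit 100, nat_lit 140], [nat_lit 0, nat_lit 0, nat_lit 1022], [(nat_lit 0, nat_lit 0, nat_lit 0), (nat_lit 0, nat_lit 0, nat_lit 0), (nat_lit 1000, nat_lit 1000, nat_lit 399)], (nat_lit 100, nat_lit 99, nat_lit 44)⟩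
noncomputable def p038_k3 : C1.Kn := ⟨[nat_lit 80, nat_lit 120, nat_lit 140], [nat_lit 0, nat_lit 130, nat_lit 1260], [(nat_lit 0, nat_lit 0, nat_lit 0), (nat_lit 1000, nat_lit 990, nat_lit 51), (nat_lit 946, nat_lit 1000, nat_lit 600)], (nat_lit 100, nat_lit 100, nat_lit 45)⟩
noncomputable def p038_k4 : C1.Kn := ⟨[nat_lit 80, nat_lit 120, nat_lit 140], [nat_lit 0, nat_lit 212, nat_lit 1320], [(nat_lit 0, nat_lit 0, nat_lit 0), (nat_lit 1000, nat_lit 983, nat_lit 83), (nat_lit 946, nat_lit 1000, nat_lit 623)], (nat_lit 99, nat_lit 100, nat_lit 45)⟩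
noncomputable def p038_k5 : C1.Kn := ⟨[nat_lit 80, nat_lit 100, nat_lit 140], [nat_lit 0, nat_lit 65, nat_lit 1086], [(nat_lit 0, nat_lit 0, nat_lit 0), (nat_lit 1000, nat_lit 990, nat_lit 51), (nat_lit 1000, nat_lit 990, nat_lit 399)], (nat_lit 100, nat_lit 100, nat_lit 45)⟩
noncomputable def p038_k6 : C1.Kn := ⟨[nat_lit 80, nat_lit 100, nat_lit 140], [nat_lit 0, nat_lit 0, nat_lit 1022], [(nat_lit 0, nat_lit 0, nat_lit 0), (nat_lit 0, nat_lit 0, nat_lit 0), (nat_lit 1000, nat_lit 1000, nat_lit 399)], (nat_lit 100, nat_lit 95, nat_lit 55)⟩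
noncomputable def p038_k7 : C1.Kn := ⟨[nat_lit 40, nat_lit 80, nat_lit 100, nat_lit 110], [nat_lit 0, nat_lit 0, nat_lit 132, nat_lit 394], [(nat_lit 0, nat_lit 0, nat_lit 0), (nat_lit 0, nat_lit 0, nat_lit 0), (nat_lit 1000, nat_lit 979, nat_lit 103), (nat_lit 1000, nat_lit 972, nat_lit 338)], (nat_lit 97, nat_lit 100, nat_lit 28)⟩
noncomputable def p038_k8 : C1.Kn := ⟨[nat_lit 40, nat_lit 80, nat_lit 100, nat_lit 110], [nat_lit 0, nat_lit 0, nat_lit 171, nat_lit 429], [(nat_lit 0, nat_lit 0, nat_lit 0), (nat_lit 0, nat_lit 0, nat_lit 0), (nat_lit 1000, nat_lit 973, nat_lit 133), (nat_lit 1000, nat_lit 968, nat_lit 354)], (nat_lit 96, nat_lit 100, nat_lit 28)⟩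
noncomputable def p038_k9 : C1.Kn := ⟨[nat_lit 40, nat_lit 80, nat_lit 100], [nat_lit 0, nat_lit 0, nat_lit 132], [(nat_lit 0, nat_lit 0, nat_lit 0), (nat_lit 0, nat_lit 0, nat_lit 0), (nat_lit 1000, nat_lit 979, nat_lit 103)], (nat_lit 97, nat_lit 100, nat_lit 20)⟩
noncomputable def p038_k10 : C1.Kn := ⟨[nat_lit 40, nat_lit 80, nat_lit 100], [nat_lit 0, nat_lit 0, nat_lit 158], [(nat_lit 0, nat_lit 0, nat_lit 0), (nat_lit 0, nat_lit 0, nat_lit 0), (nat_lit 1000, nat_lit 975, nat_lit 123)], (nat_lit 97, nat_lit 100, nat_lit 20)⟩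
noncomputable def p038_k11 : C1.Kn := ⟨[nat_lit 40, nat_lit 80, nat_lit 100], [nat_lit 0, nat_lit 0, nat_lit 171], [(nat_lit 0, nat_lit 0, nat_lit 0), (nat_lit 0, nat_lit 0, nat_lit 0), (nat_lit 1000, nat_lit 973, nat_lit 133)], (nat_lit 97, nat_lit 100, nat_lit 20)⟩
noncomputable def p038_k12 : C1.Kn := ⟨[nat_lit 40, nat_lit 80, nat_lit 100, nat_lit 110], [nat_lit 0, nat_lit 0, nat_lit 158, nat_lit 417], [(nat_lit 0, nat_lit 0, nat_lit 0), (nat_lit 0, nat_lit 0, nat_lit 0), (nat_lit 1000, nat_lit 975, nat_lit 123), (nat_lit 1000, nat_lit 970, nat_lit 347)], (nat_lit 97, nat_lit 100, nat_lit 28)⟩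
noncomputable def p038_k13 : C1.Kn := ⟨[nat_lit 40, nat_lit 80, nat_lit 100, nat_lit 120], [nat_lit 0, nat_lit 0, nat_lit 132, nat_lit 640], [(nat_lit 0, nat_lit 0, nat_lit 0), (nat_lit 0, nat_lit 0, nat_lit 0), (nat_lit 1000, nat_lit 979, nat_lit 103), (nat_lit 1000, nat_lit 979, nat_lit 397)], (nat_lit 99, nat_lit 100, nat_lit 44)⟩
noncomputable def p038_k14 : C1.Kn := ⟨[nat_lit 40, nat_lit 80, nat_lit 100, nat_lit 120], [nat_lit 0, nat_lit 0, nat_lit 158, nat_lit 666], [(nat_lit 0, nat_lit 0, nat_lit 0), (nat_lit 0, nat_lit 0, nat_lit 0), (nat_lit 1000, nat_lit 975, nat_lit 123), (nat_lit 1000, nat_lit 975, nat_lit 397)], (nat_lit 98, nat_lit 100, nat_lit 44)⟩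
noncomputable def p038_k15 : C1.Kn := ⟨[nat_lit 40, nat_lit 80, nat_lit 100, nat_lit 120], [nat_lit 0, nat_lit 0, nat_lit 171, nat_lit 678], [(nat_lit 0, nat_lit 0, nat_lit 0), (nat_lit 0, nat_lit 0, nat_lit 0), (nat_lit 1000, nat_lit 973, nat_lit 133), (nat_lit 1000, nat_lit 973, nat_lit 395)], (nat_lit 98, nat_lit 100, nat_lit 44)⟩
noncomputable def p038_k16 : C1.Kn := ⟨[nat_lit 80, nat_lit 100, nat_lit 120], [nat_lit 0, nat_lit 132, nat_lit 640], [(nat_lit 0, nat_lit 0, nat_lit 0), (nat_lit 1000, nat_lit 979, nat_lit 103), (nat_lit 1000, nat_lit 979, nat_lit 397)], (nat_lit 99, nat_lit 100, nat_lit 44)⟩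
noncomputable def p038_k17 : C1.Kn := ⟨[nat_lit 80, nat_lit 100], [nat_lit 0, nat_lit 198], [(nat_lit 0, nat_lit 0, nat_lit 0), (nat_lit 1000, nat_lit 969, nat_lit 154)], (nat_lit 96, nat_lit 100, nat_lit 20)⟩
noncomputable def p038_k18 : C1.Kn := ⟨[nat_lit 80, nat_lit 100], [nat_lit 0, nat_lit 106], [(nat_lit 0, nat_lit 0, nat_lit 0), (nat_lit 1000, nat_lit 983, nat_lit 83)], (nat_lit 97, nat_lit 100, nat_lit 20)⟩
noncomputable def p038_k19 : C1.Kn := ⟨[nat_lit 80, nat_lit 100], [nat_lit 0, nat_lit 211], [(nat_lit 0, nat_lit 0, nat_lit 0), (nat_lit 1000, nat_lit 967, nat_lit 164)], (nat_lit 96, nat_lit 100, nat_lit 20)⟩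
noncomputable def p038_k20 : C1.Kn := ⟨[nat_lit 80, nat_lit 100], [nat_lit 0, nat_lit 119], [(nat_lit 0, nat_lit 0, nat_lit 0), (nat_lit 1000, nat_lit 981, nat_lit 93)], (nat_lit 97, nat_lit 100, nat_lit 20)⟩
noncomputable def p038_k21 : C1.Kn := ⟨[nat_lit 80, nat_lit 100], [nat_lit 0, nat_lit 226], [(nat_lit 0, nat_lit 0, nat_lit 0), (nat_lit 1000, nat_lit 965, nat_lit 177)], (nat_lit 96, nat_lit 100, nat_lit 20)⟩
noncomputable def p038_k22 : C1.Kn := ⟨[nat_lit 80, nat_lit 100], [nat_lit 0, nat_lit 238], [(nat_lit 0, nat_lit 0, nat_lit 0), (nat_lit 1000, nat_lit 963, nat_lit 185)], (nat_lit 96, nat_lit 100, nat_lit 20)⟩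
noncomputable def p038_k23 : C1.Kn := ⟨[nat_lit 80, nat_lit 100, nat_lit 120], [nat_lit 0, nat_lit 198, nat_lit 704], [(nat_lit 0, nat_lit 0, nat_lit 0), (nat_lit 1000, nat_lit 969, nat_lit 154), (nat_lit 1000, nat_lit 969, nat_lit 395)], (nat_lit 96, nat_lit 100, nat_lit 28)⟩
noncomputable def p038_k24 : C1.Kn := ⟨[nat_lit 40, nat_lit 80, nat_lit 100, nat_lit 110], [nat_lit 0, nat_lit 0, nat_lit 198, nat_lit 453], [(nat_lit 0, nat_lit 0, nat_lit 0), (nat_lit 0, nat_lit 0, nat_lit 0), (nat_lit 1000, nat_lit 969, nat_lit 154), (nat_lit 1000, nat_lit 965, nat_lit 360)], (nat_lit 96, nat_lit 100, nat_lit 28)⟩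
noncomputable def p038_k25 : C1.Kn := ⟨[nat_lit 80, nat_lit 120], [nat_lit 0, nat_lit 395], [(nat_lit 0, nat_lit 0, nat_lit 0), (nat_lit 1000, nat_lit 969, nat_lit 154)], (nat_lit 96, nat_lit 100, nat_lit 28)⟩
noncomputable def p038_k26 : C1.Kn := ⟨[nat_lit 80, nat_lit 100, nat_lit 120], [nat_lit 0, nat_lit 132, nat_lit 640], [(nat_lit 0, nat_lit 0, nat_lit 0), (nat_lit 1000, nat_lit 979, nat_lit 103), (nat_lit 1000, nat_lit 979, nat_lit 397)], (nat_lit 97, nat_lit 100, nat_lit 28)⟩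
noncomputable def p038_k27 : C1.Kn := ⟨[nat_lit 80, nat_lit 100], [nat_lit 0, nat_lit 184], [(nat_lit 0, nat_lit 0, nat_lit 0), (nat_lit 1000, nat_lit 971, nat_lit 143)], (nat_lit 97, nat_lit 100, nat_lit 20)⟩
noncomputable def p038_k28 : C1.Kn := ⟨[nat_lit 80, nat_lit 100], [nat_lit 0, nat_lit 251], [(nat_lit 0, nat_lit 0, nat_lit 0), (nat_lit 1000, nat_lit 961, nat_lit 195)], (nat_lit 96, nat_lit 100, nat_lit 20)⟩
noncomputable def p038_k29 : C1.Kn := ⟨[nat_lit 40, nat_lit 80, nat_lit 100], [nat_lit 0, nat_lit 0, nat_lit 198], [(nat_lit 0, nat_lit 0, nat_lit 0), (nat_lit 0, nat_lit 0, nat_lit 0), (nat_lit 1000, nat_lit 969, nat_lit 154)], (nat_lit 96, nat_lit 100, nat_lit 20)⟩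
noncomputable def p038_k30 : C1.Kn := ⟨[nat_lit 80, nat_lit 100], [nat_lit 0, nat_lit 238], [(nat_lit 0, nat_lit 0, nat_lit 0), (nat_lit 1000, nat_lit 963, nat_lit 185)], (nat_lit 96, nat_lit 100, nat_lit 28)⟩
noncomputable def p038_k31 : C1.Kn := ⟨[nat_lit 80, nat_lit 100, nat_lit 120], [nat_lit 0, nat_lit 198, nat_lit 704], [(nat_lit 0, nat_lit 0, nat_lit 0), (nat_lit 1000, nat_lit 969, nat_lit 154), (nat_lit 1000, nat_lit 969, nat_lit 395)], (nat_lit 98, nat_lit 100, nat_lit 44)⟩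
noncomputable def p038_k32 : C1.Kn := ⟨[nat_lit 80, nat_lit 100, nat_lit 120], [nat_lit 0, nat_lit 198, nat_lit 704], [(nat_lit 0, nat_lit 0, nat_lit 0), (nat_lit 1000, nat_lit 969, nat_lit 154), (nat_lit 1000, nat_lit 969, nat_lit 395)], (nat_lit 97, nat_lit 100, nat_lit 39)⟩
noncomputable def p038_k33 : C1.Kn := ⟨[nat_lit 80, nat_lit 100, nat_lit 120], [nat_lit 0, nat_lit 132, nat_lit 640], [(nat_lit 0, nat_lit 0, nat_lit 0), (nat_lit 1000, nat_lit 979, nat_lit 103), (nat_lit 1000, nat_lit 979, nat_lit 397)], (nat_lit 98, nat_lit 100, nat_lit 40)⟩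
noncomputable def p038_k34 : C1.Kn := ⟨[nat_lit 80, nat_lit 120], [nat_lit 0, nat_lit 395], [(nat_lit 0, nat_lit 0, nat_lit 0), (nat_lit 1000, nat_lit 969, nat_lit 154)], (nat_lit 98, nat_lit 100, nat_lit 44)⟩
noncomputable def p038_k35 : C1.Kn := ⟨[nat_lit 80, nat_lit 120], [nat_lit 0, nat_lit 475], [(nat_lit 0, nat_lit 0, nat_lit 0), (nat_lit 1000, nat_lit 963, nat_lit 185)], (nat_lit 97, nat_lit 100, nat_lit 44)⟩
noncomputable def p038_k36 : C1.Kn := ⟨[nat_lit 80, nat_lit 100, nat_lit 140], [nat_lit 0, nat_lit 132, nat_lit 1148], [(nat_lit 0, nat_lit 0, nat_lit 0), (nat_lit 1000, nat_lit 979, nat_lit 103), (nat_lit 1000, nat_lit 979, nat_lit 397)], (nat_lit 100, nat_lit 95, nat_lit 62)⟩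
noncomputable def p038_k37 : C1.Kn := ⟨[nat_lit 80, nat_lit 120, nat_lit 140], [nat_lit 0, nat_lit 395, nat_lit 1464], [(nat_lit 0, nat_lit 0, nat_lit 0), (nat_lit 1000, nat_lit 969, nat_lit 154), (nat_lit 957, nat_lit 1000, nat_lit 654)], (nat_lit 100, nat_lit 97, nat_lit 62)⟩
noncomputable def p038_k38 : C1.Kn := ⟨[nat_lit 80, nat_lit 120, nat_lit 140], [nat_lit 0, nat_lit 264, nat_lit 1360], [(nat_lit 0, nat_lit 0, nat_lit 0), (nat_lit 1000, nat_lit 979, nat_lit 103), (nat_lit 951, nat_lit 1000, nat_lit 628)], (nat_lit 100, nat_lit 95, nat_lit 62)⟩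
noncomputable def p038_k39 : C1.Kn := ⟨[nat_lit 80, nat_lit 100, nat_lit 160], [nat_lit 0, nat_lit 0, nat_lit 1533], [(nat_lit 0, nat_lit 0, nat_lit 0), (nat_lit 0, nat_lit 0, nat_lit 0), (nat_lit 1000, nat_lit 1000, nat_lit 399)], (nat_lit 100, nat_lit 92, nat_lit 61)⟩
noncomputable def p038_k40 : C1.Kn := ⟨[nat_lit 80, nat_lit 100], [nat_lit 0, nat_lit 265], [(nat_lit 0, nat_lit 0, nat_lit 0), (nat_lit 1000, nat_lit 959, nat_lit 206)], (nat_lit 95, nat_lit 100, nat_lit 28)⟩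
noncomputable def p038_k41 : C1.Kn := ⟨[nat_lit 80, nat_lit 100], [nat_lit 0, nat_lit 399], [(nat_lit 0, nat_lit 0, nat_lit 0), (nat_lit 1000, nat_lit 938, nat_lit 310)], (nat_lit 94, nat_lit 100, nat_lit 28)⟩
noncomputable def p038_k42 : C1.Kn := ⟨[nat_lit 80, nat_lit 100, nat_lit 120], [nat_lit 0, nat_lit 265, nat_lit 768], [(nat_lit 0, nat_lit 0, nat_lit 0), (nat_lit 1000, nat_lit 959, nat_lit 206), (nat_lit 1000, nat_lit 958, nat_lit 392)], (nat_lit 96, nat_lit 100, nat_lit 44)⟩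
noncomputable def p038_k43 : C1.Kn := ⟨[nat_lit 40, nat_lit 70, nat_lit 90], [nat_lit 0, nat_lit 0, nat_lit 0], [(nat_lit 0, nat_lit 0, nat_lit 0), (nat_lit 0, nat_lit 0, nat_lit 0), (nat_lit 0, nat_lit 0, nat_lit 0)], (nat_lit 96, nat_lit 100, nat_lit 20)⟩
noncomputable def p038_k44 : C1.Kn := ⟨[nat_lit 50, nat_lit 70, nat_lit 90, nat_lit 100], [nat_lit 0, nat_lit 0, nat_lit 0, nat_lit 294], [(nat_lit 0, nat_lit 0, nat_lit 0), (nat_lit 0, nat_lit 0, nat_lit 0), (nat_lit 0, nat_lit 0, nat_lit 0), (nat_lit 1000, nat_lit 954, nat_lit 287)], (nat_lit 95, nat_lit 100, nat_lit 28)⟩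
noncomputable def p038_k45 : C1.Kn := ⟨[nat_lit 40, nat_lit 80, nat_lit 100, nat_lit 120], [nat_lit 0, nat_lit 0, nat_lit 265, nat_lit 768], [(nat_lit 0, nat_lit 0, nat_lit 0), (nat_lit 0, nat_lit 0, nat_lit 0), (nat_lit 1000, nat_lit 959, nat_lit 206), (nat_lit 1000, nat_lit 958, nat_lit 392)], (nat_lit 96, nat_lit 100, nat_lit 44)⟩
noncomputable def p038_k46 : C1.Kn := ⟨[nat_lit 80, nat_lit 100, nat_lit 140], [nat_lit 0, nat_lit 265, nat_lit 1269], [(nat_lit 0, nat_lit 0, nat_lit 0), (nat_lit 1000, nat_lit 959, nat_lit 206), (nat_lit 1000, nat_lit 958, nat_lit 392)], (nat_lit 100, nat_lit 99, nat_lit 63)⟩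
noncomputable def p038_k47 : C1.Kn := ⟨[nat_lit 70, nat_lit 80, nat_lit 90], [nat_lit 0, nat_lit 0, nat_lit 133], [(nat_lit 0, nat_lit 0, nat_lit 0), (nat_lit 0, nat_lit 0, nat_lit 0), (nat_lit 1000, nat_lit 960, nat_lit 196)], (nat_lit 96, nat_lit 100, nat_lit 20)⟩
noncomputable def p038_k48 : C1.Kn := ⟨[nat_lit 80, nat_lit 100], [nat_lit 0, nat_lit 265], [(nat_lit 0, nat_lit 0, nat_lit 0), (nat_lit 1000, nat_lit 959, nat_lit 206)], (nat_lit 96, nat_lit 100, nat_lit 20)⟩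
noncomputable def p038_k49 : C1.Kn := ⟨[nat_lit 70, nat_lit 80, nat_lit 90], [nat_lit 0, nat_lit 20, nat_lit 154], [(nat_lit 0, nat_lit 0, nat_lit 0), (nat_lit 1000, nat_lit 990, nat_lit 32), (nat_lit 1000, nat_lit 955, nat_lit 206)], (nat_lit 96, nat_lit 100, nat_lit 20)⟩
noncomputable def p038_k50 : C1.Kn := ⟨[nat_lit 70, nat_lit 90, nat_lit 100], [nat_lit 0, nat_lit 0, nat_lit 294], [(nat_lit 0, nat_lit 0, nat_lit 0), (nat_lit 0, nat_lit 0, nat_lit 0), (nat_lit 1000, nat_lit 954, nat_lit 287)], (nat_lit 95, nat_lit 100, nat_lit 28)⟩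
noncomputable def p038_k51 : C1.Kn := ⟨[nat_lit 40, nat_lit 80, nat_lit 100], [nat_lit 0, nat_lit 0, nat_lit 332], [(nat_lit 0, nat_lit 0, nat_lit 0), (nat_lit 0, nat_lit 0, nat_lit 0), (nat_lit 1000, nat_lit 948, nat_lit 259)], (nat_lit 95, nat_lit 100, nat_lit 28)⟩
noncomputable def p038_k52 : C1.Kn := ⟨[nat_lit 40, nat_lit 80, nat_lit 100, nat_lit 120], [nat_lit 0, nat_lit 0, nat_lit 265, nat_lit 768], [(nat_lit 0, nat_lit 0, nat_lit 0), (nat_lit 0, nat_lit 0, nat_lit 0), (nat_lit 1000, nat_lit 959, nat_lit 206), (nat_lit 1000, nat_lit 958, nat_lit 392)], (nat_lit 96, nat_lit 100, nat_lit 39)⟩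
noncomputable def p038_k53 : C1.Kn := ⟨[nat_lit 40, nat_lit 80, nat_lit 100, nat_lit 120], [nat_lit 0, nat_lit 0, nat_lit 292, nat_lit 794], [(nat_lit 0, nat_lit 0, nat_lit 0), (nat_lit 0, nat_lit 0, nat_lit 0), (nat_lit 1000, nat_lit 954, nat_lit 227), (nat_lit 1000, nat_lit 954, nat_lit 392)], (nat_lit 95, nat_lit 100, nat_lit 39)⟩
noncomputable def p038_k54 : C1.Kn := ⟨[nat_lit 40, nat_lit 80, nat_lit 100, nat_lit 120], [nat_lit 0, nat_lit 0, nat_lit 305, nat_lit 806], [(nat_lit 0, nat_lit 0, nat_lit 0), (nat_lit 0, nat_lit 0, nat_lit 0), (nat_lit 1000, nat_lit 952, nat_lit 237), (nat_lit 1000, nat_lit 952, nat_lit 391)], (nat_lit 96, nat_lit 100, nat_lit 44)⟩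
noncomputable def p038_k55 : C1.Kn := ⟨[nat_lit 40, nat_lit 80, nat_lit 100, nat_lit 120], [nat_lit 0, nat_lit 0, nat_lit 319, nat_lit 820], [(nat_lit 0, nat_lit 0, nat_lit 0), (nat_lit 0, nat_lit 0, nat_lit 0), (nat_lit 1000, nat_lit 950, nat_lit 248), (nat_lit 1000, nat_lit 950, nat_lit 392)], (nat_lit 95, nat_lit 100, nat_lit 44)⟩
noncomputable def p038_k56 : C1.Kn := ⟨[nat_lit 40, nat_lit 80, nat_lit 100, nat_lit 120], [nat_lit 0, nat_lit 0, nat_lit 332, nat_lit 833], [(nat_lit 0, nat_lit 0, nat_lit 0), (nat_lit 0, nat_lit 0, nat_lit 0), (nat_lit 1000, nat_lit 948, nat_lit 259), (nat_lit 1000, nat_lit 948, nat_lit 391)], (nat_lit 95, nat_lit 100, nat_lit 44)⟩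
noncomputable def p038_k57 : C1.Kn := ⟨[nat_lit 80, nat_lit 120], [nat_lit 0, nat_lit 664], [(nat_lit 0, nat_lit 0, nat_lit 0), (nat_lit 1000, nat_lit 948, nat_lit 259)], (nat_lit 95, nat_lit 100, nat_lit 44)⟩
noncomputable def p038_k58 : C1.Kn := ⟨[nat_lit 80, nat_lit 100, nat_lit 120], [nat_lit 0, nat_lit 399, nat_lit 897], [(nat_lit 0, nat_lit 0, nat_lit 0), (nat_lit 1000, nat_lit 938, nat_lit 310), (nat_lit 1000, nat_lit 938, nat_lit 389)], (nat_lit 94, nat_lit 100, nat_lit 44)⟩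
noncomputable def p038_k59 : C1.Kn := ⟨[nat_lit 80, nat_lit 100, nat_lit 140], [nat_lit 0, nat_lit 292, nat_lit 1296], [(nat_lit 0, nat_lit 0, nat_lit 0), (nat_lit 1000, nat_lit 954, nat_lit 227), (nat_lit 1000, nat_lit 954, nat_lit 392)], (nat_lit 100, nat_lit 100, nat_lit 63)⟩
noncomputable def p038_k60 : C1.Kn := ⟨[nat_lit 80, nat_lit 100, nat_lit 140], [nat_lit 0, nat_lit 305, nat_lit 1307], [(nat_lit 0, nat_lit 0, nat_lit 0), (nat_lit 1000, nat_lit 952, nat_lit 237), (nat_lit 1000, nat_lit 952, nat_lit 391)], (nat_lit 100, nat_lit 100, nat_lit 63)⟩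
noncomputable def p038_k61 : C1.Kn := ⟨[nat_lit 80, nat_lit 100, nat_lit 140], [nat_lit 0, nat_lit 319, nat_lit 1322], [(nat_lit 0, nat_lit 0, nat_lit 0), (nat_lit 1000, nat_lit 950, nat_lit 248), (nat_lit 1000, nat_lit 950, nat_lit 392)], (nat_lit 100, nat_lit 100, nat_lit 63)⟩
noncomputable def p038_k62 : C1.Kn := ⟨[nat_lit 80, nat_lit 100, nat_lit 140], [nat_lit 0, nat_lit 332, nat_lit 1333], [(nat_lit 0, nat_lit 0, nat_lit 0), (nat_lit 1000, nat_lit 948, nat_lit 259), (nat_lit 1000, nat_lit 948, nat_lit 391)], (nat_lit 99, nat_lit 100, nat_lit 63)⟩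
noncomputable def p038_k63 : C1.Kn := ⟨[nat_lit 80, nat_lit 100, nat_lit 140], [nat_lit 0, nat_lit 399, nat_lit 1395], [(nat_lit 0, nat_lit 0, nat_lit 0), (nat_lit 1000, nat_lit 938, nat_lit 310), (nat_lit 1000, nat_lit 938, nat_lit 389)], (nat_lit 98, nat_lit 100, nat_lit 63)⟩
noncomputable def p038_l0 : Lf2 := ⟨nat_lit 0, nat_lit 3, [nat_lit 45, nat_lit 5, nat_lit 5, nat_lit 20], false, nat_lit 260, nat_lit 280, nat_lit 0, nat_lit 80, ⟨nat_lit 1000, nat_lit 0, nat_lit 0, nat_lit 0, nat_lit 0, nat_lit 0, nat_lit 0, nat_lit 0, nat_lit 0, nat_lit 0, nat_lit 0, nat_lit 0, nat_lit 0, nat_lit 0, nat_lit 0, nat_lit 0, false, false⟩,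
 nat_lit 20175, nat_lit 0, nat_lit 0, nat_lit 0, nat_lit 8631, nat_lit 10943, nat_lit 2519, nat_lit 0, nat_lit 0, nat_lit 1635, nat_lit 0, nat_lit 0, nat_lit 0, nat_lit 0, nat_lit 0, nat_lit 0, nat_lit 0, nat_lit 0, [],
 ⟨p038_k0, nat_lit 0, nat_lit 0, nat_lit 159, nat_lit 0, nat_lit 165167, [nat_lit 4688000000, nat_lit 6250000000, nat_lit 7968000000], [], [nat_lit 19161827458, nat_lit 19312546192, nat_lit 18859684868, nat_lit 19010055602, nat_lit 21092053660, nat_lit 21294805648, nat_lit 20701270190, nat_lit 20903641722], nat_lit 1271250, nat_lit 1271250, nat_lit 111251, nat_lit 134400, nat_lit 1271250, nat_lit 1271250, [nat_lit 1100000, nat_lit 1442500, nat_lit 1271250], [nat_lit 9, nat_lit 40, nat_lit 20, nat_lit 80, nat_lit 2, nat_lit 215, nat_lit 10, nat_lit 6]⟩, ⟨p038_k1, nat_lit 0, nat_lit 0, nat_lit 270, nat_lit 0, nat_lit 167894, [nat_lit 4688000000, nat_lit 6250000000, nat_lit 7968000000], [], [nat_lit 21687304921,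 nat_lit 22100215051, nat_lit 21187473802, nat_lit 21599659572, nat_lit 19144844204, nat_lit 18332772929, nat_lit 19165856570, nat_lit 18354936279], nat_lit 1271250, nat_lit 1271250, nat_lit 111251, nat_lit 134400, nat_lit 0, nat_lit 490000, [nat_lit 1100000, nat_lit 1442500, nat_lit 1271250], [nat_lit 9, nat_lit 40, nat_lit 20, nat_lit 80, nat_lit 2, nat_lit 238, nat_lit 30, nat_lit 8]⟩,
 zbF0, [⟨nat_lit 0, nat_lit 100, nat_lit 100, nat_lit 48, nat_lit 1886540953⟩, ⟨nat_lit 16, nat_lit 100, nat_lit 98, nat_lit 54, nat_lit 1295047443⟩]⟩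
noncomputable def p038_l1 : Lf2 := ⟨nat_lit 0, nat_lit 3, [nat_lit 45, nat_lit 5, nat_lit 5, nat_lit 20], false, nat_lit 260, nat_lit 280, nat_lit 80, nat_lit 160, ⟨nat_lit 1000, nat_lit 0, nat_lit 0, nat_lit 0, nat_lit 0, nat_lit 0, nat_lit 0, nat_lit 0, nat_lit 0, nat_lit 0, nat_lit 0, nat_lit 0, nat_lit 0, nat_lit 0, nat_lit 0, nat_lit 0, false, false⟩,
 nat_lit 28731, nat_lit 0, nat_lit 0, nat_lit 0, nat_lit 9133, nat_lit 15584, nat_lit 2583, nat_lit 0, nat_lit 0, nat_lit 1829, nat_lit 0, nat_lit 0, nat_lit 0, nat_lit 0, nat_lit 0, nat_lit 0, nat_lit 0, nat_lit 0, [],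
 ⟨p038_k0, nat_lit 0, nat_lit 0, nat_lit 159, nat_lit 0, nat_lit 165167, [nat_lit 4688000000, nat_lit 6250000000, nat_lit 7968000000], [], [nat_lit 18935291323, nat_lit 19161621717, nat_lit 18523118910, nat_lit 18749080112, nat_lit 21476059363, nat_lit 21686419864, nat_lit 21058900660, nat_lit 21268946821], nat_lit 1271250, nat_lit 1271250, nat_lit 111251, nat_lit 134400, nat_lit 1271250, nat_lit 1271250, [nat_lit 1100000, nat_lit 1442500, nat_lit 1271250], [nat_lit 9, nat_lit 40, nat_lit 20, nat_lit 80, nat_lit 2, nat_lit 215, nat_lit 10, nat_lit 6]⟩, ⟨p038_k1, nat_lit 0, nat_lit 0, nat_lit 230, nat_lit 0, nat_lit 167894, [nat_lit 4688000000, nat_lit 6250000000, nat_lit 7968000000], [], [nat_lit 10126271832, nat_lit 10881269261, nat_lit 9504681264, nat_lit 10052819497, nat_lit 9278213356, nat_lit 9889570119, nat_lit 8696079828, nat_lit 9143032098], nat_lit 1271250, nat_lit 1271250, nat_lit 111251, nat_lit 134400, nat_lit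 490000, nat_lit 1100001, [nat_lit 1100000, nat_lit 1442500, nat_lit 1271250], [nat_lit 9, nat_lit 40, nat_lit 20, nat_lit 80, nat_lit 2, nat_lit 260, nat_lit 50, nat_lit 9]⟩,
 zbF0, [⟨nat_lit 0, nat_lit 100, nat_lit 100, nat_lit 48, nat_lit 2221848177⟩, ⟨nat_lit 4, nat_lit 98, nat_lit 100, nat_lit 54, nat_lit 2080366199⟩]⟩
noncomputable def p038_l2 : Lf2 := ⟨nat_lit 0, nat_lit 3, [nat_lit 45, nat_lit 5, nat_lit 5, nat_lit 20], false, nat_lit 260, nat_lit 280, nat_lit 160, nat_lit 240, ⟨nat_lit 87, nat_lit 0, nat_lit 913, nat_lit 6, nat_lit 76, nat_lit 913, nat_lit 184, nat_lit 913, nat_lit 48728, nat_lit 269, nat_lit 54150, nat_lit 272, nat_lit 52277785, nat_lit 0, nat_lit 0, nat_lit 3362062, false, false⟩,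
 nat_lit 3403, nat_lit 4504, nat_lit 0, nat_lit 0, nat_lit 4350, nat_lit 1845, nat_lit 171, nat_lit 0, nat_lit 0, nat_lit 0, nat_lit 0, nat_lit 0, nat_lit 0, nat_lit 0, nat_lit 45, nat_lit 913000, nat_lit 0, nat_lit 0, [(nat_lit 6, [(nat_lit 6, nat_lit 913)])],
 ⟨p038_k0, nat_lit 0, nat_lit 0, nat_lit 159, nat_lit 0, nat_lit 165167, [nat_lit 2019917867, nat_lit 1268454000, nat_lit 209688600], [], [nat_lit 16477331040, nat_lit 16584207625, nat_lit 16359400443, nat_lit 16462488468, nat_lit 17817295861, nat_lit 17955163300, nat_lit 17650702457, nat_lit 17788360591], nat_lit 1271250, nat_lit 1271250, nat_lit 111251, nat_lit 134400, nat_lit 1271250, nat_lit 1271250, [nat_lit 1100000, nat_lit 1442500, nat_lit 1271250], [nat_lit 9, nat_lit 40, nat_lit 20, nat_lit 80, nat_lit 2, nat_lit 215, nat_lit 10, nat_lit 6]⟩, ⟨p038_k1, nat_lit 0, nat_lit 0, nat_lit 190, nat_lit 0, nat_lit 167894, [nat_lit 407856000, nat_lit 543750000, nat_lit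 693216000], [], [nat_lit 2349331869, nat_lit 2206282008, nat_lit 2158211456, nat_lit 2015373807, nat_lit 1761037301, nat_lit 1821361301, nat_lit 1671532012, nat_lit 1731749435], nat_lit 1271250, nat_lit 1271250, nat_lit 111251, nat_lit 134400, nat_lit 1100001, nat_lit 1785000, [nat_lit 1100000, nat_lit 1442500, nat_lit 1271250], [nat_lit 9, nat_lit 40, nat_lit 20, nat_lit 80, nat_lit 2, nat_lit 289, nat_lit 75, nat_lit 9]⟩,
 ⟨nat_lit 6123, nat_lit 6165, ⟨.ofNat (nat_lit 184644), .ofNat (nat_lit 192720), .ofNat (nat_lit 187847), .ofNat (nat_lit 195922), .ofNat (nat_lit 186319), .ofNat (nat_lit 194357), .ofNat (nat_lit 189521), .ofNat (nat_lit 197559)⟩, ⟨.ofNat (nat_lit 428969), .ofNat (nat_lit 469346), .ofNat (nat_lit 450320), .ofNat (nat_lit 490698), .ofNat (nat_lit 428436), .ofNat (nat_lit 468627), .ofNat (nat_lit 449785), .ofNat (nat_lit 489975)⟩⟩, [⟨nat_lit 0, nat_lit 100, nat_lit 100, nat_lit 48, nat_lit 615490597⟩,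 ⟨nat_lit 16, nat_lit 100, nat_lit 98, nat_lit 54, nat_lit 370125015⟩, ⟨nat_lit 16, nat_lit 100, nat_lit 95, nat_lit 62, nat_lit 189835292⟩]⟩
noncomputable def p038_l3 : Lf2 := ⟨nat_lit 0, nat_lit 3, [nat_lit 45, nat_lit 5, nat_lit 5, nat_lit 20], false, nat_lit 260, nat_lit 280, nat_lit 0, nat_lit 80, ⟨nat_lit 1000, nat_lit 0, nat_lit 0, nat_lit 0, nat_lit 0, nat_lit 0, nat_lit 0, nat_lit 0, nat_lit 0, nat_lit 0, nat_lit 0, nat_lit 0, nat_lit 0, nat_lit 0, nat_lit 0, nat_lit 0, false, false⟩,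
 nat_lit 18873, nat_lit 0, nat_lit 0, nat_lit 0, nat_lit 8658, nat_lit 10385, nat_lit 2426, nat_lit 0, nat_lit 0, nat_lit 1834, nat_lit 0, nat_lit 0, nat_lit 0, nat_lit 25577515139177, nat_lit 0, nat_lit 0, nat_lit 0, nat_lit 0, [],
 ⟨p038_k0, nat_lit 0, nat_lit 0, nat_lit 161, nat_lit 0, nat_lit 169761, [nat_lit 4688000000, nat_lit 6250000000, nat_lit 7968000000], [], [nat_lit 19329873654, nat_lit 19480868897, nat_lit 19026591707, nat_lit 19177238193, nat_lit 21112707353, nat_lit 21315868564, nat_lit 20721543416, nat_lit 20923289606], nat_lit 1271250, nat_lit 1271250, nat_lit 111251, nat_lit 134400, nat_lit 1271250, nat_lit 1271250, [nat_lit 1100000, nat_lit 1442500, nat_lit 1271250], [nat_lit 9, nat_lit 40, nat_lit 20, nat_lit 80, nat_lit 2, nat_lit 215, nat_lit 10, nat_lit 6]⟩, ⟨p038_k0, nat_lit 0, nat_lit 0, nat_lit 269, nat_lit 0, nat_lit 169761, [nat_lit 4688000000, nat_lit 6250000000, nat_lit 7968000000], [], [nat_lit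 21314378929, nat_lit 21499401848, nat_lit 20842608036, nat_lit 20974929767, nat_lit 18786551488, nat_lit 18529663975, nat_lit 18812306305, nat_lit 18555782889], nat_lit 1271250, nat_lit 1271250, nat_lit 111251, nat_lit 134400, nat_lit 0, nat_lit 490000, [nat_lit 1100000, nat_lit 1442500, nat_lit 1271250], [nat_lit 9, nat_lit 40, nat_lit 20, nat_lit 80, nat_lit 2, nat_lit 238, nat_lit 30, nat_lit 8]⟩,
 zbF0, [⟨nat_lit 0, nat_lit 100, nat_lit 100, nat_lit 48, nat_lit 1852333975⟩, ⟨nat_lit 16, nat_lit 100, nat_lit 98, nat_lit 54, nat_lit 1025932828⟩, ⟨nat_lit 16, nat_lit 100, nat_lit 95, nat_lit 62, nat_lit 175587572⟩]⟩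
noncomputable def p038_l4 : Lf2 := ⟨nat_lit 0, nat_lit 3, [nat_lit 45, nat_lit 5, nat_lit 5, nat_lit 20], false, nat_lit 260, nat_lit 280, nat_lit 80, nat_lit 160, ⟨nat_lit 1000, nat_lit 0, nat_lit 0, nat_lit 0, nat_lit 0, nat_lit 0, nat_lit 0, nat_lit 0, nat_lit 0, nat_lit 0, nat_lit 0, nat_lit 0, nat_lit 0, nat_lit 0, nat_lit 0, nat_lit 0, false, false⟩,
 nat_lit 28195, nat_lit 0, nat_lit 0, nat_lit 0, nat_lit 9133, nat_lit 15515, nat_lit 2583, nat_lit 0, nat_lit 0, nat_lit 1741, nat_lit 0, nat_lit 0, nat_lit 0, nat_lit 29928903805786, nat_lit 0, nat_lit 0, nat_lit 0, nat_lit 0, [],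
 ⟨p038_k0, nat_lit 0, nat_lit 0, nat_lit 161, nat_lit 0, nat_lit 169761, [nat_lit 4688000000, nat_lit 6250000000, nat_lit 7968000000], [], [nat_lit 18935291323, nat_lit 19161621717, nat_lit 18523118910, nat_lit 18749080112, nat_lit 21476059363, nat_lit 21686419864, nat_lit 21058900660, nat_lit 21268946821], nat_lit 1271250, nat_lit 1271250, nat_lit 111251, nat_lit 134400, nat_lit 1271250, nat_lit 1271250, [nat_lit 1100000, nat_lit 1442500, nat_lit 1271250], [nat_lit 9, nat_lit 40, nat_lit 20, nat_lit 80, nat_lit 2, nat_lit 215, nat_lit 10, nat_lit 6]⟩, ⟨p038_k0, nat_lit 0, nat_lit 0, nat_lit 229, nat_lit 0, nat_lit 169761, [nat_lit 4688000000, nat_lit 6250000000, nat_lit 7968000000], [], [nat_lit 10868387568, nat_lit 11119134684, nat_lit 10043898802, nat_lit 10294322462, nat_lit 9890965464, nat_lit 10113843902, nat_lit 9147597139, nat_lit 9369543615], nat_lit 1271250, nat_lit 1271250, nat_lit 111251, nat_lit 134400, nat_lit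 490000, nat_lit 1100001, [nat_lit 1100000, nat_lit 1442500, nat_lit 1271250], [nat_lit 9, nat_lit 40, nat_lit 20, nat_lit 80, nat_lit 2, nat_lit 260, nat_lit 50, nat_lit 9]⟩,
 zbF0, [⟨nat_lit 0, nat_lit 100, nat_lit 100, nat_lit 49, nat_lit 2216358879⟩, ⟨nat_lit 4, nat_lit 98, nat_lit 100, nat_lit 54, nat_lit 2040340928⟩]⟩
noncomputable def p038_l5 : Lf2 := ⟨nat_lit 0, nat_lit 3, [nat_lit 45, nat_lit 5, nat_lit 5, nat_lit 20], false, nat_lit 260, nat_lit 280, nat_lit 160, nat_lit 240, ⟨nat_lit 238, nat_lit 0, nat_lit 762, nat_lit 6, nat_lit 77, nat_lit 762, nat_lit 184, nat_lit 762, nat_lit 48728, nat_lit 269, nat_lit 56067, nat_lit 273, nat_lit 52228021, nat_lit 0, nat_lit 0, nat_lit 3374488, false, false⟩,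
 nat_lit 9147, nat_lit 0, nat_lit 0, nat_lit 0, nat_lit 5033, nat_lit 5033, nat_lit 628, nat_lit 0, nat_lit 0, nat_lit 0, nat_lit 0, nat_lit 0, nat_lit 0, nat_lit 22634219008546, nat_lit 0, nat_lit 591600, nat_lit 0, nat_lit 0, [(nat_lit 6, [(nat_lit 5, nat_lit 284), (nat_lit 6, nat_lit 478)])],
 ⟨p038_k0, nat_lit 0, nat_lit 0, nat_lit 161, nat_lit 0, nat_lit 169761, [nat_lit 1985380267, nat_lit 1405152801, nat_lit 821625199], [], [nat_lit 17029379278, nat_lit 17143250534, nat_lit 16888649352, nat_lit 16994128542, nat_lit 18339757803, nat_lit 18487977064, nat_lit 18137384324, nat_lit 18285379281], nat_lit 1271250, nat_lit 1271250, nat_lit 111251, nat_lit 134400, nat_lit 1271250, nat_lit 1271250, [nat_lit 1100000, nat_lit 1442500, nat_lit 1271250], [nat_lit 9, nat_lit 40, nat_lit 20, nat_lit 80, nat_lit 2, nat_lit 215, nat_lit 10, nat_lit 6]⟩, ⟨p038_k0, nat_lit 0, nat_lit 0, nat_lit 189, nat_lit 0, nat_lit 169761, [nat_lit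 1115744000, nat_lit 1487500000, nat_lit 1896384000], [], [nat_lit 6039322246, nat_lit 5909246374, nat_lit 5518541228, nat_lit 5388658321, nat_lit 4977218798, nat_lit 5032097171, nat_lit 4732808337, nat_lit 4787589756], nat_lit 1271250, nat_lit 1271250, nat_lit 111251, nat_lit 134400, nat_lit 1100001, nat_lit 1785000, [nat_lit 1100000, nat_lit 1442500, nat_lit 1271250], [nat_lit 9, nat_lit 40, nat_lit 20, nat_lit 80, nat_lit 2, nat_lit 289, nat_lit 75, nat_lit 9]⟩,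
 ⟨nat_lit 6123, nat_lit 6165, ⟨.ofNat (nat_lit 187847), .ofNat (nat_lit 195922), .ofNat (nat_lit 188914), .ofNat (nat_lit 196990), .ofNat (nat_lit 189521), .ofNat (nat_lit 197559), .ofNat (nat_lit 190588), .ofNat (nat_lit 198626)⟩, ⟨.ofNat (nat_lit 428969), .ofNat (nat_lit 469346), .ofNat (nat_lit 450320), .ofNat (nat_lit 490698), .ofNat (nat_lit 428436), .ofNat (nat_lit 468627), .ofNat (nat_lit 449785), .ofNat (nat_lit 489975)⟩⟩, [⟨nat_lit 0, nat_lit 100, nat_lit 100, nat_lit 48, nat_lit 1172688457⟩, ⟨nat_lit 16, nat_lit 100, nat_lit 95, nat_lit 62, nat_lit 81261188⟩, ⟨nat_lit 4, nat_lit 98, nat_lit 100, nat_lit 54, nat_lit 551686336⟩]⟩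
noncomputable def p038_l6 : Lf2 := ⟨nat_lit 0, nat_lit 3, [nat_lit 45, nat_lit 5, nat_lit 5, nat_lit 20], true, nat_lit 260, nat_lit 280, nat_lit 0, nat_lit 248, ⟨nat_lit 0, nat_lit 0, nat_lit 1000, nat_lit 6, nat_lit 80, nat_lit 1000, nat_lit 184, nat_lit 1000, nat_lit 48728, nat_lit 269, nat_lit 60000, nat_lit 275, nat_lit 52088778, nat_lit 0, nat_lit 0, nat_lit 3408843, false, false⟩,
 nat_lit 0, nat_lit 7402, nat_lit 0, nat_lit 0, nat_lit 4073, nat_lit 0, nat_lit 0, nat_lit 0, nat_lit 0, nat_lit 0, nat_lit 0, nat_lit 0, nat_lit 0, nat_lit 0, nat_lit 76, nat_lit 938200, nat_lit 0, nat_lit 0, [(nat_lit 6, [(nat_lit 5, nat_lit 103), (nat_lit 6, nat_lit 897)])],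
 ⟨p038_k0, nat_lit 0, nat_lit 0, nat_lit 155, nat_lit 0, nat_lit 165167, [nat_lit 2238441600, nat_lit 1351195600, nat_lit 201019600], [], [nat_lit 16050128006, nat_lit 16153975417, nat_lit 15968705278, nat_lit 16072281462, nat_lit 17453321963, nat_lit 17586787857, nat_lit 17301239658, nat_lit 17434502329], nat_lit 1271250, nat_lit 1271250, nat_lit 134400, nat_lit 157850, nat_lit 1271250, nat_lit 1271250, [nat_lit 1100000, nat_lit 1442500, nat_lit 1271250], [nat_lit 9, nat_lit 40, nat_lit 20, nat_lit 80, nat_lit 2, nat_lit 215, nat_lit 10, nat_lit 6]⟩, C1.Rw.none,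
 ⟨nat_lit 6123, nat_lit 6165, ⟨.ofNat (nat_lit 192720), .ofNat (nat_lit 200795), .ofNat (nat_lit 195922), .ofNat (nat_lit 203998), .ofNat (nat_lit 194357), .ofNat (nat_lit 202395), .ofNat (nat_lit 197559), .ofNat (nat_lit 205597)⟩, ⟨.ofNat (nat_lit 428969), .ofNat (nat_lit 469346), .ofNat (nat_lit 450320), .ofNat (nat_lit 490698), .ofNat (nat_lit 428436), .ofNat (nat_lit 468627), .ofNat (nat_lit 449785), .ofNat (nat_lit 489975)⟩⟩, [⟨nat_lit 16, nat_lit 100, nat_lit 95, nat_lit 62, nat_lit 394323934⟩, ⟨nat_lit 4, nat_lit 98, nat_lit 100, nat_lit 54, nat_lit 143934722⟩]⟩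
noncomputable def p038_l7 : Lf2 := ⟨nat_lit 0, nat_lit 3, [nat_lit 45, nat_lit 5, nat_lit 5, nat_lit 20], false, nat_lit 260, nat_lit 280, nat_lit 0, nat_lit 80, ⟨nat_lit 1000, nat_lit 0, nat_lit 0, nat_lit 0, nat_lit 0, nat_lit 0, nat_lit 0, nat_lit 0, nat_lit 0, nat_lit 0, nat_lit 0, nat_lit 0, nat_lit 0, nat_lit 0, nat_lit 0, nat_lit 0, false, false⟩,
 nat_lit 18915, nat_lit 0, nat_lit 0, nat_lit 0, nat_lit 8613, nat_lit 10408, nat_lit 2440, nat_lit 0, nat_lit 0, nat_lit 1873, nat_lit 0, nat_lit 0, nat_lit 0, nat_lit 18872543317277, nat_lit 0, nat_lit 0, nat_lit 0, nat_lit 0, [],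
 ⟨p038_k0, nat_lit 0, nat_lit 0, nat_lit 159, nat_lit 0, nat_lit 174356, [nat_lit 4688000000, nat_lit 6250000000, nat_lit 7968000000], [], [nat_lit 19018957392, nat_lit 19169144291, nat_lit 18717574372, nat_lit 18867413777, nat_lit 20734967291, nat_lit 20891429057, nat_lit 20432397339, nat_lit 20588498192], nat_lit 1271250, nat_lit 1271250, nat_lit 134400, nat_lit 157850, nat_lit 1271250, nat_lit 1271250, [nat_lit 1100000, nat_lit 1442500, nat_lit 1271250], [nat_lit 9, nat_lit 40, nat_lit 20, nat_lit 80, nat_lit 2, nat_lit 215, nat_lit 10, nat_lit 6]⟩, ⟨p038_k0, nat_lit 0, nat_lit 0, nat_lit 267, nat_lit 0, nat_lit 174356, [nat_lit 4688000000, nat_lit 6250000000, nat_lit 7968000000], [], [nat_lit 20775239999, nat_lit 21040301708, nat_lit 20302282644, nat_lit 20566878846, nat_lit 18744913152, nat_lit 18230730059, nat_lit 18784255166, nat_lit 18270801881], nat_lit 1271250, nat_lit 1271250, nat_lit 134400, nat_lit 157850,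 nat_lit 0, nat_lit 490000, [nat_lit 1100000, nat_lit 1442500, nat_lit 1271250], [nat_lit 9, nat_lit 40, nat_lit 20, nat_lit 80, nat_lit 2, nat_lit 238, nat_lit 30, nat_lit 8]⟩,
 zbF0, [⟨nat_lit 0, nat_lit 100, nat_lit 100, nat_lit 49, nat_lit 767509949⟩, ⟨nat_lit 16, nat_lit 100, nat_lit 98, nat_lit 54, nat_lit 1240380374⟩]⟩
noncomputable def p038_l8 : Lf2 := ⟨nat_lit 0, nat_lit 3, [nat_lit 45, nat_lit 5, nat_lit 5, nat_lit 20], false, nat_lit 260, nat_lit 280, nat_lit 80, nat_lit 160, ⟨nat_lit 1000, nat_lit 0, nat_lit 0, nat_lit 0, nat_lit 0, nat_lit 0, nat_lit 0, nat_lit 0, nat_lit 0, nat_lit 0, nat_lit 0, nat_lit 0, nat_lit 0, nat_lit 0, nat_lit 0, nat_lit 0, false, false⟩,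
 nat_lit 28186, nat_lit 0, nat_lit 0, nat_lit 0, nat_lit 9085, nat_lit 15510, nat_lit 2579, nat_lit 0, nat_lit 0, nat_lit 1743, nat_lit 0, nat_lit 0, nat_lit 0, nat_lit 40443147425923, nat_lit 0, nat_lit 0, nat_lit 0, nat_lit 0, [],
 ⟨p038_k0, nat_lit 0, nat_lit 0, nat_lit 159, nat_lit 0, nat_lit 174356, [nat_lit 4688000000, nat_lit 6250000000, nat_lit 7968000000], [], [nat_lit 18551163056, nat_lit 18724341424, nat_lit 18233678508, nat_lit 18406436762, nat_lit 21024697542, nat_lit 21234017250, nat_lit 20610053398, nat_lit 20819059818], nat_lit 1271250, nat_lit 1271250, nat_lit 134400, nat_lit 157850, nat_lit 1271250, nat_lit 1271250, [nat_lit 1100000, nat_lit 1442500, nat_lit 1271250], [nat_lit 9, nat_lit 40, nat_lit 20, nat_lit 80, nat_lit 2, nat_lit 215, nat_lit 10, nat_lit 6]⟩, ⟨p038_k0, nat_lit 0, nat_lit 0, nat_lit 227, nat_lit 0, nat_lit 174356, [nat_lit 4688000000, nat_lit 6250000000, nat_lit 7968000000], [], [nat_lit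 10043252375, nat_lit 10543966715, nat_lit 9393548427, nat_lit 9733540274, nat_lit 9147593610, nat_lit 9592265169, nat_lit 8567357749, nat_lit 8863448214], nat_lit 1271250, nat_lit 1271250, nat_lit 134400, nat_lit 157850, nat_lit 490000, nat_lit 1100001, [nat_lit 1100000, nat_lit 1442500, nat_lit 1271250], [nat_lit 9, nat_lit 40, nat_lit 20, nat_lit 80, nat_lit 2, nat_lit 260, nat_lit 50, nat_lit 9]⟩,
 zbF0, [⟨nat_lit 0, nat_lit 100, nat_lit 100, nat_lit 49, nat_lit 1888514188⟩, ⟨nat_lit 4, nat_lit 98, nat_lit 100, nat_lit 54, nat_lit 2064039595⟩]⟩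
noncomputable def p038_l9 : Lf2 := ⟨nat_lit 0, nat_lit 3, [nat_lit 45, nat_lit 5, nat_lit 5, nat_lit 20], false, nat_lit 260, nat_lit 280, nat_lit 160, nat_lit 200, ⟨nat_lit 1000, nat_lit 0, nat_lit 0, nat_lit 0, nat_lit 0, nat_lit 0, nat_lit 0, nat_lit 0, nat_lit 0, nat_lit 0, nat_lit 0, nat_lit 0, nat_lit 0, nat_lit 0, nat_lit 0, nat_lit 0, false, false⟩,
 nat_lit 23423, nat_lit 0, nat_lit 0, nat_lit 0, nat_lit 9089, nat_lit 12889, nat_lit 2568, nat_lit 0, nat_lit 0, nat_lit 1927, nat_lit 0, nat_lit 0, nat_lit 0, nat_lit 20901396618128, nat_lit 0, nat_lit 0, nat_lit 0, nat_lit 0, [],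
 ⟨p038_k0, nat_lit 0, nat_lit 0, nat_lit 159, nat_lit 0, nat_lit 174356, [nat_lit 4688000000, nat_lit 6250000000, nat_lit 7968000000], [], [nat_lit 18569965924, nat_lit 18725799130, nat_lit 18248496466, nat_lit 18407726421, nat_lit 21027547802, nat_lit 21236928047, nat_lit 20612694111, nat_lit 20821760982], nat_lit 1271250, nat_lit 1271250, nat_lit 134400, nat_lit 157850, nat_lit 1271250, nat_lit 1271250, [nat_lit 1100000, nat_lit 1442500, nat_lit 1271250], [nat_lit 9, nat_lit 40, nat_lit 20, nat_lit 80, nat_lit 2, nat_lit 215, nat_lit 10, nat_lit 6]⟩, ⟨p038_k0, nat_lit 0, nat_lit 0, nat_lit 187, nat_lit 0, nat_lit 174356, [nat_lit 4688000000, nat_lit 6250000000, nat_lit 7968000000], [], [nat_lit 10804310893, nat_lit 11062637563, nat_lit 10333386668, nat_lit 10591036080, nat_lit 13385072027, nat_lit 13618706051, nat_lit 12911600702, nat_lit 13144216206], nat_lit 1271250, nat_lit 1271250, nat_lit 134400, nat_lit 157850,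 nat_lit 1100001, nat_lit 1442500, [nat_lit 1100000, nat_lit 1442500, nat_lit 1271250], [nat_lit 9, nat_lit 40, nat_lit 20, nat_lit 80, nat_lit 2, nat_lit 272, nat_lit 60, nat_lit 9]⟩,
 zbF0, [⟨nat_lit 0, nat_lit 100, nat_lit 100, nat_lit 49, nat_lit 875700119⟩, ⟨nat_lit 4, nat_lit 98, nat_lit 100, nat_lit 54, nat_lit 1605542102⟩]⟩
noncomputable def p038_l10 : Lf2 := ⟨nat_lit 0, nat_lit 3, [nat_lit 45, nat_lit 5, nat_lit 5, nat_lit 20], false, nat_lit 260, nat_lit 280, nat_lit 200, nat_lit 248, ⟨nat_lit 1000, nat_lit 0, nat_lit 0, nat_lit 0, nat_lit 0, nat_lit 0, nat_lit 0, nat_lit 0, nat_lit 0, nat_lit 0, nat_lit 0, nat_lit 0, nat_lit 0, nat_lit 0, nat_lit 0, nat_lit 0, false, false⟩,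
 nat_lit 19417, nat_lit 0, nat_lit 0, nat_lit 0, nat_lit 10685, nat_lit 10685, nat_lit 1776, nat_lit 0, nat_lit 0, nat_lit 2058, nat_lit 0, nat_lit 0, nat_lit 0, nat_lit 14352196288178, nat_lit 0, nat_lit 0, nat_lit 0, nat_lit 0, [],
 ⟨p038_k0, nat_lit 0, nat_lit 0, nat_lit 159, nat_lit 0, nat_lit 174356, [nat_lit 4688000000, nat_lit 6250000000, nat_lit 7968000000], [], [nat_lit 19407656296, nat_lit 19579688474, nat_lit 19018838191, nat_lit 19189780917, nat_lit 22164801478, nat_lit 22398336290, nat_lit 21666338710, nat_lit 21899525098], nat_lit 1271250, nat_lit 1271250, nat_lit 134400, nat_lit 157850, nat_lit 1271250, nat_lit 1271250, [nat_lit 1100000, nat_lit 1442500, nat_lit 1271250], [nat_lit 9, nat_lit 40, nat_lit 20, nat_lit 80, nat_lit 2, nat_lit 215, nat_lit 10, nat_lit 6]⟩, ⟨p038_k0, nat_lit 0, nat_lit 0, nat_lit 167, nat_lit 0, nat_lit 174356, [nat_lit 4688000000, nat_lit 6250000000, nat_lit 7968000000], [], [nat_lit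 14583836519, nat_lit 14788487161, nat_lit 14202428742, nat_lit 14406562307, nat_lit 17701450064, nat_lit 17888499784, nat_lit 17315635905, nat_lit 17493778685], nat_lit 1271250, nat_lit 1271250, nat_lit 134400, nat_lit 157850, nat_lit 1271250, nat_lit 1271250, [nat_lit 1100000, nat_lit 1442500, nat_lit 1271250], [nat_lit 9, nat_lit 40, nat_lit 20, nat_lit 80, nat_lit 2, nat_lit 289, nat_lit 75, nat_lit 9]⟩,
 zbF0, [⟨nat_lit 0, nat_lit 100, nat_lit 100, nat_lit 49, nat_lit 645044250⟩, ⟨nat_lit 4, nat_lit 98, nat_lit 100, nat_lit 54, nat_lit 1278769066⟩, ⟨nat_lit 23, nat_lit 95, nat_lit 100, nat_lit 50, nat_lit 1136190575⟩]⟩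
noncomputable def p038_l11 : Lf2 := ⟨nat_lit 0, nat_lit 3, [nat_lit 45, nat_lit 5, nat_lit 5, nat_lit 20], true, nat_lit 260, nat_lit 280, nat_lit 0, nat_lit 256, ⟨nat_lit 0, nat_lit 0, nat_lit 1000, nat_lit 6, nat_lit 83, nat_lit 1000, nat_lit 184, nat_lit 1000, nat_lit 48728, nat_lit 269, nat_lit 64067, nat_lit 277, nat_lit 51870912, nat_lit 0, nat_lit 0, nat_lit 3461425, false, false⟩,
 nat_lit 0, nat_lit 7442, nat_lit 0, nat_lit 0, nat_lit 4095, nat_lit 0, nat_lit 0, nat_lit 0, nat_lit 0, nat_lit 0, nat_lit 0, nat_lit 0, nat_lit 0, nat_lit 24620188154681, nat_lit 80, nat_lit 989200, nat_lit 0, nat_lit 0, [(nat_lit 6, [(nat_lit 5, nat_lit 18), (nat_lit 6, nat_lit 982)])],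
 ⟨p038_k0, nat_lit 0, nat_lit 0, nat_lit 155, nat_lit 0, nat_lit 174356, [nat_lit 2264996267, nat_lit 1412053600, nat_lit 226197600], [], [nat_lit 15858789141, nat_lit 15962595855, nat_lit 15776574351, nat_lit 15880108980, nat_lit 17315763581, nat_lit 17449358726, nat_lit 17162528770, nat_lit 17295920209], nat_lit 1271250, nat_lit 1271250, nat_lit 157850, nat_lit 181601, nat_lit 1271250, nat_lit 1271250, [nat_lit 1100000, nat_lit 1442500, nat_lit 1271250], [nat_lit 9, nat_lit 40, nat_lit 20, nat_lit 80, nat_lit 2, nat_lit 215, nat_lit 10, nat_lit 6]⟩, C1.Rw.none,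
 ⟨nat_lit 6123, nat_lit 6165, ⟨.ofNat (nat_lit 200795), .ofNat (nat_lit 208870), .ofNat (nat_lit 206133), .ofNat (nat_lit 214208), .ofNat (nat_lit 202395), .ofNat (nat_lit 210433), .ofNat (nat_lit 207732), .ofNat (nat_lit 215770)⟩, ⟨.ofNat (nat_lit 428969), .ofNat (nat_lit 469346), .ofNat (nat_lit 450320), .ofNat (nat_lit 490698), .ofNat (nat_lit 428436), .ofNat (nat_lit 468627), .ofNat (nat_lit 449785), .ofNat (nat_lit 489975)⟩⟩, [⟨nat_lit 16, nat_lit 100, nat_lit 95, nat_lit 62, nat_lit 555339166⟩]⟩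
noncomputable def b_VL_600_600_5_67 : St := ⟨true, nat_lit 1, nat_lit 1, nat_lit 1, nat_lit 40, nat_lit 248, nat_lit 250, nat_lit 245, nat_lit 250, nat_lit 20, nat_lit 32, nat_lit 20, nat_lit 40, nat_lit 260, nat_lit 284, nat_lit 0, nat_lit 256, nat_lit 8, nat_lit 12, nat_lit 0, nat_lit 0, nat_lit 0, nat_lit 0⟩
theorem d_VL_600_600_5_67 (h : EB TB.env) : Dead b_VL_600_600_5_67 := chkB_sound0 h (T :=
(.trX (nat_lit 16) (nat_lit 100) (nat_lit 95) (nat_lit 62) (nat_lit 280) (.spl (nat_lit 2) (nat_lit 24)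
(.trX (nat_lit 23) (nat_lit 97) (nat_lit 100) (nat_lit 48) (nat_lit 240) (.spl (nat_lit 1) (nat_lit 248)
(.spl (nat_lit 5) (nat_lit 160)
(.spl (nat_lit 5) (nat_lit 80)
(.leaf p038_l0)
(.leaf p038_l1))
(.leaf p038_l2))
(.spl (nat_lit 1) (nat_lit 249)
(.spl (nat_lit 5) (nat_lit 160)
(.spl (nat_lit 5) (nat_lit 80)
(.leaf p038_l3)
(.leaf p038_l4))
(.leaf p038_l5))
(.ord (.emL (nat_lit 0) (nat_lit 100) (nat_lit 100) (nat_lit 49))))))
(.spl (nat_lit 2) (nat_lit 28)
(.trX (nat_lit 23) (nat_lit 98) (nat_lit 100) (nat_lit 52) (nat_lit 248) (.spl (nat_lit 1) (nat_lit 248)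
(.leaf p038_l6)
(.spl (nat_lit 5) (nat_lit 160)
(.spl (nat_lit 5) (nat_lit 80)
(.leaf p038_l7)
(.leaf p038_l8))
(.spl (nat_lit 5) (nat_lit 200)
(.leaf p038_l9)
(.leaf p038_l10)))))
(.leaf p038_l11))))) (by decide +kernel)
noncomputable def p038_l12 : Lf2 := ⟨nat_lit 0, nat_lit 5, [nat_lit 4, nat_lit 5, nat_lit 5, nat_lit 20], true, nat_lit 260, nat_lit 288, nat_lit 0, nat_lit 256, ⟨nat_lit 0, nat_lit 0, nat_lit 1000, nat_lit 6, nat_lit 75, nat_lit 1000, nat_lit 188, nat_lit 1000, nat_lit 29345, nat_lit 255, nat_lit 52267, nat_lit 271, nat_lit 51992247, nat_lit 0, nat_lit 0, nat_lit 3383153, false, false⟩,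
 nat_lit 0, nat_lit 8028, nat_lit 0, nat_lit 3741, nat_lit 4249, nat_lit 0, nat_lit 0, nat_lit 0, nat_lit 0, nat_lit 0, nat_lit 0, nat_lit 0, nat_lit 0, nat_lit 6382422784714, nat_lit 132, nat_lit 886000, nat_lit 0, nat_lit 0, [(nat_lit 6, [(nat_lit 5, nat_lit 190), (nat_lit 6, nat_lit 810)])],
 ⟨p038_k2, nat_lit 0, nat_lit 0, nat_lit 172, nat_lit 0, nat_lit 84543, [nat_lit 3172768001, nat_lit 2738144001, nat_lit 119663999], [], [nat_lit 16043172996, nat_lit 16568398338, nat_lit 15490913617, nat_lit 15979571941, nat_lit 18120208822, nat_lit 18784819775, nat_lit 17359535493, nat_lit 18021295939], nat_lit 1271250, nat_lit 1271250, nat_lit 88400, nat_lit 181601, nat_lit 1271250, nat_lit 1271250, [nat_lit 1100000, nat_lit 1442500, nat_lit 1271250], [nat_lit 11, nat_lit 40, nat_lit 20, nat_lit 80, nat_lit 1, nat_lit 373, nat_lit 150, nat_lit 10]⟩, C1.Rw.none,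
 ⟨nat_lit 6123, nat_lit 6325, ⟨.ofNat (nat_lit 164319), .ofNat (nat_lit 197224), .ofNat (nat_lit 169661), .ofNat (nat_lit 202566), .ofNat (nat_lit 172944), .ofNat (nat_lit 205096), .ofNat (nat_lit 178281), .ofNat (nat_lit 210433)⟩, ⟨.ofNat (nat_lit 431084), .ofNat (nat_lit 488669), .ofNat (nat_lit 452452), .ofNat (nat_lit 510037), .ofNat (nat_lit 428436), .ofNat (nat_lit 484703), .ofNat (nat_lit 449785), .ofNat (nat_lit 506051)⟩⟩, [⟨nat_lit 0, nat_lit 100, nat_lit 100, nat_lit 44, nat_lit 292866649⟩, ⟨nat_lit 16, nat_lit 100, nat_lit 97, nat_lit 54, nat_lit 693226910⟩]⟩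
noncomputable def p038_l13 : Lf2 := ⟨nat_lit 0, nat_lit 5, [nat_lit 4, nat_lit 5, nat_lit 5, nat_lit 20], true, nat_lit 260, nat_lit 284, nat_lit 0, nat_lit 256, ⟨nat_lit 0, nat_lit 0, nat_lit 1000, nat_lit 6, nat_lit 79, nat_lit 1000, nat_lit 186, nat_lit 1000, nat_lit 38520, nat_lit 262, nat_lit 58017, nat_lit 274, nat_lit 51948509, nat_lit 0, nat_lit 0, nat_lit 3418593, false, false⟩,
 nat_lit 0, nat_lit 8425, nat_lit 0, nat_lit 2891, nat_lit 4570, nat_lit 0, nat_lit 235, nat_lit 0, nat_lit 0, nat_lit 0, nat_lit 0, nat_lit 0, nat_lit 0, nat_lit 24508063543993, nat_lit 89, nat_lit 550000, nat_lit 0, nat_lit 0, [(nat_lit 6, [(nat_lit 5, nat_lit 750), (nat_lit 6, nat_lit 250)])],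
 ⟨p038_k3, nat_lit 0, nat_lit 0, nat_lit 171, nat_lit 0, nat_lit 86901, [nat_lit 2870700001, nat_lit 959066667, nat_lit 21200000], [], [nat_lit 16186115908, nat_lit 16333191807, nat_lit 15781095414, nat_lit 15927295564, nat_lit 18107186656, nat_lit 18316293424, nat_lit 17571872402, nat_lit 17780043237], nat_lit 1271250, nat_lit 1271250, nat_lit 111251, nat_lit 181601, nat_lit 1271250, nat_lit 1271250, [nat_lit 1100000, nat_lit 1785000, nat_lit 1271250], [nat_lit 29, nat_lit 40, nat_lit 20, nat_lit 80, nat_lit 17, nat_lit 373, nat_lit 150, nat_lit 10]⟩, C1.Rw.none,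
 ⟨nat_lit 6164, nat_lit 6225, ⟨.ofNat (nat_lit 182121), .ofNat (nat_lit 206517), .ofNat (nat_lit 185325), .ofNat (nat_lit 209720), .ofNat (nat_lit 184644), .ofNat (nat_lit 208870), .ofNat (nat_lit 187847), .ofNat (nat_lit 212073)⟩, ⟨.ofNat (nat_lit 429765), .ofNat (nat_lit 478556), .ofNat (nat_lit 451122), .ofNat (nat_lit 499912), .ofNat (nat_lit 428969), .ofNat (nat_lit 477422), .ofNat (nat_lit 450320), .ofNat (nat_lit 498773)⟩⟩, [⟨nat_lit 0, nat_lit 100, nat_lit 100, nat_lit 48, nat_lit 280426808⟩, ⟨nat_lit 4, nat_lit 98, nat_lit 100, nat_lit 54, nat_lit 717907997⟩]⟩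
noncomputable def p038_l14 : Lf2 := ⟨nat_lit 0, nat_lit 5, [nat_lit 4, nat_lit 5, nat_lit 5, nat_lit 20], true, nat_lit 260, nat_lit 280, nat_lit 0, nat_lit 256, ⟨nat_lit 0, nat_lit 0, nat_lit 1000, nat_lit 6, nat_lit 80, nat_lit 1000, nat_lit 184, nat_lit 1000, nat_lit 48728, nat_lit 269, nat_lit 60000, nat_lit 275, nat_lit 52063497, nat_lit 0, nat_lit 0, nat_lit 3415017, false, false⟩,
 nat_lit 0, nat_lit 8185, nat_lit 0, nat_lit 1910, nat_lit 4504, nat_lit 0, nat_lit 333, nat_lit 0, nat_lit 0, nat_lit 0, nat_lit 0, nat_lit 0, nat_lit 0, nat_lit 22327673903760, nat_lit 69, nat_lit 400000, nat_lit 0, nat_lit 0, [(nat_lit 6, [(nat_lit 5, nat_lit 1000)])],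
 ⟨p038_k4, nat_lit 0, nat_lit 0, nat_lit 178, nat_lit 0, nat_lit 104525, [nat_lit 2521600001, nat_lit 679600001, nat_lit 7200000], [], [nat_lit 16443265804, nat_lit 16540762616, nat_lit 16051526758, nat_lit 16143234803, nat_lit 17935098407, nat_lit 18075299932, nat_lit 17411115567, nat_lit 17550679029], nat_lit 1271250, nat_lit 1271250, nat_lit 111251, nat_lit 181601, nat_lit 1271250, nat_lit 1271250, [nat_lit 1100000, nat_lit 1785000, nat_lit 1271250], [nat_lit 29, nat_lit 40, nat_lit 20, nat_lit 80, nat_lit 17, nat_lit 373, nat_lit 150, nat_lit 10]⟩, C1.Rw.none,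
 ⟨nat_lit 6123, nat_lit 6165, ⟨.ofNat (nat_lit 184644), .ofNat (nat_lit 208870), .ofNat (nat_lit 189982), .ofNat (nat_lit 214208), .ofNat (nat_lit 186319), .ofNat (nat_lit 210433), .ofNat (nat_lit 191656), .ofNat (nat_lit 215770)⟩, ⟨.ofNat (nat_lit 428969), .ofNat (nat_lit 469346), .ofNat (nat_lit 450320), .ofNat (nat_lit 490698), .ofNat (nat_lit 428436), .ofNat (nat_lit 468627), .ofNat (nat_lit 449785), .ofNat (nat_lit 489975)⟩⟩, [⟨nat_lit 0, nat_lit 100, nat_lit 100, nat_lit 50, nat_lit 276869527⟩, ⟨nat_lit 4, nat_lit 98, nat_lit 100, nat_lit 54, nat_lit 659265067⟩]⟩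
noncomputable def b_VL_600_600_5_68 : St := ⟨true, nat_lit 1, nat_lit 1, nat_lit 1, nat_lit 40, nat_lit 240, nat_lit 250, nat_lit 240, nat_lit 250, nat_lit 16, nat_lit 32, nat_lit 20, nat_lit 40, nat_lit 260, nat_lit 288, nat_lit 0, nat_lit 256, nat_lit 16, nat_lit 20, nat_lit 0, nat_lit 0, nat_lit 0, nat_lit 0⟩
theorem d_VL_600_600_5_68 (h : EB TB.env) : Dead b_VL_600_600_5_68 := chkB_sound0 h (T :=
(.spl (nat_lit 1) (nat_lit 245)
(.leaf p038_l12)
(.ord (.trZ (nat_lit 0) (nat_lit 100) (nat_lit 100) (nat_lit 45) (nat_lit 20) (.trX (nat_lit 16) (nat_lit 100) (nat_lit 94) (nat_lit 62) (nat_lit 284) (.spl (nat_lit 0) (nat_lit 248)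
(.ord (.leaf p038_l13))
(.trX (nat_lit 16) (nat_lit 100) (nat_lit 95) (nat_lit 62) (nat_lit 280) (.leaf p038_l14)))))))) (by decide +kernel)
noncomputable def p038_l15 : Lf2 := ⟨nat_lit 0, nat_lit 5, [nat_lit 4, nat_lit 5, nat_lit 5, nat_lit 20], true, nat_lit 260, nat_lit 288, nat_lit 0, nat_lit 268, ⟨nat_lit 0, nat_lit 0, nat_lit 1000, nat_lit 6, nat_lit 84, nat_lit 1000, nat_lit 188, nat_lit 1000, nat_lit 29345, nat_lit 255, nat_lit 66150, nat_lit 278, nat_lit 51434068, nat_lit 0, nat_lit 0, nat_lit 3516117, false, false⟩,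
 nat_lit 0, nat_lit 8249, nat_lit 0, nat_lit 0, nat_lit 4366, nat_lit 0, nat_lit 0, nat_lit 0, nat_lit 0, nat_lit 0, nat_lit 0, nat_lit 0, nat_lit 0, nat_lit 24563379729349, nat_lit 139, nat_lit 939400, nat_lit 0, nat_lit 0, [(nat_lit 6, [(nat_lit 5, nat_lit 101), (nat_lit 6, nat_lit 899)])],
 ⟨p038_k2, nat_lit 0, nat_lit 0, nat_lit 174, nat_lit 0, nat_lit 139520, [nat_lit 3245560534, nat_lit 2880137601, nat_lit 146065599], [], [nat_lit 15262560945, nat_lit 15509570963, nat_lit 15077428605, nat_lit 15323149762, nat_lit 17432911790, nat_lit 17768028787, nat_lit 17097169885, nat_lit 17431297960], nat_lit 1271250, nat_lit 1271250, nat_lit 181601, nat_lit 230001, nat_lit 1271250, nat_lit 1271250, [nat_lit 1100000, nat_lit 1442500, nat_lit 1271250], [nat_lit 11, nat_lit 40, nat_lit 20, nat_lit 80, nat_lit 1, nat_lit 373, nat_lit 150, nat_lit 10]⟩, C1.Rw.none,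
 ⟨nat_lit 6224, nat_lit 6325, ⟨.ofNat (nat_lit 197224), .ofNat (nat_lit 213677), .ofNat (nat_lit 202566), .ofNat (nat_lit 219019), .ofNat (nat_lit 201178), .ofNat (nat_lit 217441), .ofNat (nat_lit 206517), .ofNat (nat_lit 222780)⟩, ⟨.ofNat (nat_lit 431084), .ofNat (nat_lit 488669), .ofNat (nat_lit 452452), .ofNat (nat_lit 510037), .ofNat (nat_lit 429765), .ofNat (nat_lit 486687), .ofNat (nat_lit 451122), .ofNat (nat_lit 508044)⟩⟩, [⟨nat_lit 16, nat_lit 100, nat_lit 92, nat_lit 61, nat_lit 621556096⟩]⟩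
noncomputable def p038_l16 : Lf2 := ⟨nat_lit 0, nat_lit 5, [nat_lit 4, nat_lit 5, nat_lit 5, nat_lit 20], true, nat_lit 260, nat_lit 284, nat_lit 0, nat_lit 268, ⟨nat_lit 0, nat_lit 0, nat_lit 1000, nat_lit 6, nat_lit 87, nat_lit 1000, nat_lit 186, nat_lit 1000, nat_lit 38520, nat_lit 262, nat_lit 70417, nat_lit 280, nat_lit 51496851, nat_lit 0, nat_lit 0, nat_lit 3528430, false, false⟩,
 nat_lit 0, nat_lit 7963, nat_lit 0, nat_lit 0, nat_lit 4319, nat_lit 0, nat_lit 0, nat_lit 0, nat_lit 0, nat_lit 0, nat_lit 0, nat_lit 0, nat_lit 0, nat_lit 24832493766953, nat_lit 136, nat_lit 914200, nat_lit 0, nat_lit 0, [(nat_lit 6, [(nat_lit 5, nat_lit 143), (nat_lit 6, nat_lit 857)])],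
 ⟨p038_k5, nat_lit 0, nat_lit 0, nat_lit 190, nat_lit 0, nat_lit 184376, [nat_lit 3216062934, nat_lit 2819196801, nat_lit 142100799], [], [nat_lit 15602837893, nat_lit 15848770986, nat_lit 15419798991, nat_lit 15664451391, nat_lit 17415183710, nat_lit 17752855877, nat_lit 17084630122, nat_lit 17421288597], nat_lit 1271250, nat_lit 1271250, nat_lit 181601, nat_lit 230001, nat_lit 1271250, nat_lit 1271250, [nat_lit 1100000, nat_lit 1442500, nat_lit 1271250], [nat_lit 11, nat_lit 40, nat_lit 20, nat_lit 80, nat_lit 1, nat_lit 373, nat_lit 150, nat_lit 10]⟩, C1.Rw.none,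
 ⟨nat_lit 6123, nat_lit 6225, ⟨.ofNat (nat_lit 201178), .ofNat (nat_lit 217441), .ofNat (nat_lit 211856), .ofNat (nat_lit 228119), .ofNat (nat_lit 205096), .ofNat (nat_lit 221172), .ofNat (nat_lit 215770), .ofNat (nat_lit 231846)⟩, ⟨.ofNat (nat_lit 429765), .ofNat (nat_lit 478556), .ofNat (nat_lit 451122), .ofNat (nat_lit 499912), .ofNat (nat_lit 428436), .ofNat (nat_lit 476665), .ofNat (nat_lit 449785), .ofNat (nat_lit 498013)⟩⟩, [⟨nat_lit 16, nat_lit 100, nat_lit 98, nat_lit 54, nat_lit 146997529⟩, ⟨nat_lit 16, nat_lit 100, nat_lit 94, nat_lit 62, nat_lit 472430411⟩]⟩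
noncomputable def b_VL_600_600_5_69 : St := ⟨true, nat_lit 1, nat_lit 1, nat_lit 1, nat_lit 40, nat_lit 240, nat_lit 250, nat_lit 240, nat_lit 250, nat_lit 32, nat_lit 40, nat_lit 20, nat_lit 40, nat_lit 260, nat_lit 288, nat_lit 0, nat_lit 268, nat_lit 8, nat_lit 20, nat_lit 0, nat_lit 0, nat_lit 0, nat_lit 0⟩
theorem d_VL_600_600_5_69 (h : EB TB.env) : Dead b_VL_600_600_5_69 := chkB_sound0 h (T :=
(.spl (nat_lit 0) (nat_lit 245)
(.ord (.leaf p038_l15))
(.trX (nat_lit 16) (nat_lit 100) (nat_lit 94) (nat_lit 62) (nat_lit 284) (.leaf p038_l16)))) (by decide +kernel)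
noncomputable def p038_l17 : Lf2 := ⟨nat_lit 0, nat_lit 8, [nat_lit 50, nat_lit 5, nat_lit 5, nat_lit 20], true, nat_lit 240, nat_lit 260, nat_lit 0, nat_lit 288, ⟨nat_lit 0, nat_lit 0, nat_lit 1000, nat_lit 6, nat_lit 96, nat_lit 1000, nat_lit 168, nat_lit 1000, nat_lit 212817, nat_lit 328, nat_lit 86400, nat_lit 287, nat_lit 52584306, nat_lit 0, nat_lit 0, nat_lit 3455741, false, false⟩,
 nat_lit 0, nat_lit 8438, nat_lit 0, nat_lit 0, nat_lit 4466, nat_lit 0, nat_lit 0, nat_lit 0, nat_lit 0, nat_lit 0, nat_lit 0, nat_lit 0, nat_lit 0, nat_lit 20184205123702, nat_lit 137, nat_lit 923800, nat_lit 0, nat_lit 0, [(nat_lit 6, [(nat_lit 5, nat_lit 127), (nat_lit 6, nat_lit 873)])],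
 ⟨p038_k6, nat_lit 0, nat_lit 0, nat_lit 158, nat_lit 0, nat_lit 78008, [nat_lit 3225014401, nat_lit 2839555201, nat_lit 139611199], [], [nat_lit 14794116678, nat_lit 15306334267, nat_lit 13495731882, nat_lit 13997692816, nat_lit 15969662306, nat_lit 16711946572, nat_lit 14557894628, nat_lit 15035555070], nat_lit 1271250, nat_lit 1271250, nat_lit 88400, nat_lit 490000, nat_lit 1271250, nat_lit 1271250, [nat_lit 1100000, nat_lit 1442500, nat_lit 1271250], [nat_lit 11, nat_lit 40, nat_lit 20, nat_lit 80, nat_lit 1, nat_lit 373, nat_lit 150, nat_lit 10]⟩, C1.Rw.none,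
 ⟨nat_lit 6123, nat_lit 6325, ⟨.ofNat (nat_lit 164319), .ofNat (nat_lit 295942), .ofNat (nat_lit 175003), .ofNat (nat_lit 306625), .ofNat (nat_lit 172944), .ofNat (nat_lit 301553), .ofNat (nat_lit 183618), .ofNat (nat_lit 312227)⟩, ⟨.ofNat (nat_lit 389952), .ofNat (nat_lit 431084), .ofNat (nat_lit 411320), .ofNat (nat_lit 452452), .ofNat (nat_lit 388246), .ofNat (nat_lit 428436), .ofNat (nat_lit 409594), .ofNat (nat_lit 449785)⟩⟩, [⟨nat_lit 0, nat_lit 100, nat_lit 100, nat_lit 50, nat_lit 217297793⟩, ⟨nat_lit 4, nat_lit 97, nat_lit 100, nat_lit 54, nat_lit 543666083⟩]⟩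
noncomputable def p038_l18 : Lf2 := ⟨nat_lit 0, nat_lit 8, [nat_lit 50, nat_lit 5, nat_lit 5, nat_lit 20], true, nat_lit 260, nat_lit 288, nat_lit 0, nat_lit 288, ⟨nat_lit 0, nat_lit 0, nat_lit 1000, nat_lit 6, nat_lit 96, nat_lit 1000, nat_lit 188, nat_lit 1000, nat_lit 29345, nat_lit 255, nat_lit 86400, nat_lit 287, nat_lit 50754559, nat_lit 0, nat_lit 0, nat_lit 3675006, false, false⟩,
 nat_lit 0, nat_lit 8333, nat_lit 0, nat_lit 317161, nat_lit 4411, nat_lit 0, nat_lit 0, nat_lit 0, nat_lit 0, nat_lit 0, nat_lit 0, nat_lit 0, nat_lit 0, nat_lit 400000000000000, nat_lit 126, nat_lit 839800, nat_lit 0, nat_lit 0, [(nat_lit 6, [(nat_lit 5, nat_lit 267), (nat_lit 6, nat_lit 733)])],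
 ⟨p038_k6, nat_lit 0, nat_lit 0, nat_lit 170, nat_lit 0, nat_lit 78008, [nat_lit 3110689067, nat_lit 2616419201, nat_lit 98395199], [], [nat_lit 16163790444, nat_lit 16675563379, nat_lit 14723811939, nat_lit 15199120430, nat_lit 18259343857, nat_lit 18935718841, nat_lit 16339672065, nat_lit 16991842866], nat_lit 1271250, nat_lit 1271250, nat_lit 88400, nat_lit 490000, nat_lit 1271250, nat_lit 1271250, [nat_lit 1100000, nat_lit 1442500, nat_lit 1271250], [nat_lit 11, nat_lit 40, nat_lit 20, nat_lit 80, nat_lit 1, nat_lit 401, nat_lit 175, nat_lit 11]⟩, C1.Rw.none,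
 ⟨nat_lit 6123, nat_lit 6325, ⟨.ofNat (nat_lit 164319), .ofNat (nat_lit 295942), .ofNat (nat_lit 175003), .ofNat (nat_lit 306625), .ofNat (nat_lit 172944), .ofNat (nat_lit 301553), .ofNat (nat_lit 183618), .ofNat (nat_lit 312227)⟩, ⟨.ofNat (nat_lit 431084), .ofNat (nat_lit 488669), .ofNat (nat_lit 452452), .ofNat (nat_lit 510037), .ofNat (nat_lit 428436), .ofNat (nat_lit 484703), .ofNat (nat_lit 449785), .ofNat (nat_lit 506051)⟩⟩, [⟨nat_lit 0, nat_lit 100, nat_lit 100, nat_lit 50, nat_lit 229380901⟩, ⟨nat_lit 16, nat_lit 100, nat_lit 97, nat_lit 54, nat_lit 10309278351⟩, ⟨nat_lit 4, nat_lit 97, nat_lit 100, nat_lit 54, nat_lit 10309278351⟩]⟩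
noncomputable def b_VL_600_600_5_70 : St := ⟨true, nat_lit 1, nat_lit 1, nat_lit 1, nat_lit 40, nat_lit 240, nat_lit 250, nat_lit 240, nat_lit 250, nat_lit 16, nat_lit 80, nat_lit 20, nat_lit 40, nat_lit 240, nat_lit 288, nat_lit 0, nat_lit 288, nat_lit 20, nat_lit 32, nat_lit 0, nat_lit 0, nat_lit 0, nat_lit 0⟩
theorem d_VL_600_600_5_70 (h : EB TB.env) : Dead b_VL_600_600_5_70 := chkB_sound0 h (T :=
(.spl (nat_lit 4) (nat_lit 260)
(.leaf p038_l17)
(.leaf p038_l18))) (by decide +kernel)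
noncomputable def p038_l19 : Lf2 := ⟨nat_lit 0, nat_lit 2, [nat_lit 10, nat_lit 5, nat_lit 5, nat_lit 20], true, nat_lit 240, nat_lit 260, nat_lit 0, nat_lit 288, ⟨nat_lit 0, nat_lit 0, nat_lit 1000, nat_lit 6, nat_lit 84, nat_lit 1000, nat_lit 167, nat_lit 1000, nat_lit 264600, nat_lit 341, nat_lit 66150, nat_lit 278, nat_lit 53408496, nat_lit 0, nat_lit 0, nat_lit 3275990, false, false⟩,
 nat_lit 0, nat_lit 4816, nat_lit 0, nat_lit 0, nat_lit 2675, nat_lit 0, nat_lit 50, nat_lit 0, nat_lit 0, nat_lit 0, nat_lit 0, nat_lit 0, nat_lit 0, nat_lit 16513253949017, nat_lit 44, nat_lit 1000000, nat_lit 0, nat_lit 0, [(nat_lit 6, [(nat_lit 6, nat_lit 1000)])],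
 ⟨p038_k7, nat_lit 0, nat_lit 0, nat_lit 0, nat_lit 0, nat_lit 284763, [nat_lit 868400000, nat_lit 1653200000, nat_lit 688000000, nat_lit 17600000], [], [nat_lit 15628252875, nat_lit 15780309848, nat_lit 15404237125, nat_lit 15548478543, nat_lit 16619786313, nat_lit 16765189372, nat_lit 16377832588, nat_lit 16521700179], nat_lit 1271250, nat_lit 1271250, nat_lit 111251, nat_lit 230001, nat_lit 1271250, nat_lit 1271250, [nat_lit 490000, nat_lit 1100000, nat_lit 1442500, nat_lit 1271250], [nat_lit 101, nat_lit 40, nat_lit 20, nat_lit 40]⟩, C1.Rw.none,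
 ⟨nat_lit 6062, nat_lit 6124, ⟨.ofNat (nat_lit 180982), .ofNat (nat_lit 221172), .ofNat (nat_lit 194858), .ofNat (nat_lit 235048), .ofNat (nat_lit 183484), .ofNat (nat_lit 223395), .ofNat (nat_lit 197358), .ofNat (nat_lit 237269)⟩, ⟨.ofNat (nat_lit 388246), .ofNat (nat_lit 428436), .ofNat (nat_lit 409594), .ofNat (nat_lit 449785), .ofNat (nat_lit 387723), .ofNat (nat_lit 427634), .ofNat (nat_lit 409067), .ofNat (nat_lit 448979)⟩⟩, [⟨nat_lit 0, nat_lit 100, nat_lit 100, nat_lit 53, nat_lit 171606580⟩, ⟨nat_lit 4, nat_lit 99, nat_lit 100, nat_lit 55, nat_lit 338338805⟩]⟩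
noncomputable def p038_l20 : Lf2 := ⟨nat_lit 0, nat_lit 2, [nat_lit 10, nat_lit 5, nat_lit 5, nat_lit 20], true, nat_lit 240, nat_lit 260, nat_lit 0, nat_lit 288, ⟨nat_lit 0, nat_lit 0, nat_lit 1000, nat_lit 6, nat_lit 85, nat_lit 1000, nat_lit 167, nat_lit 1000, nat_lit 260417, nat_lit 340, nat_lit 68267, nat_lit 279, nat_lit 53352927, nat_lit 0, nat_lit 0, nat_lit 3291083, false, false⟩,
 nat_lit 0, nat_lit 5666, nat_lit 0, nat_lit 0, nat_lit 3192, nat_lit 0, nat_lit 895, nat_lit 0, nat_lit 0, nat_lit 0, nat_lit 0, nat_lit 0, nat_lit 0, nat_lit 17536924402232, nat_lit 20, nat_lit 400000, nat_lit 0, nat_lit 0, [(nat_lit 6, [(nat_lit 5, nat_lit 1000)])],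
 ⟨p038_k8, nat_lit 0, nat_lit 0, nat_lit 0, nat_lit 0, nat_lit 298173, [nat_lit 1016933334, nat_lit 1106266667, nat_lit 433200001, nat_lit 18800000], [], [nat_lit 15225061507, nat_lit 15333198180, nat_lit 14890038323, nat_lit 14992614927, nat_lit 16273907812, nat_lit 16377041342, nat_lit 15921848051, nat_lit 16023870356], nat_lit 1271250, nat_lit 1271250, nat_lit 111251, nat_lit 230001, nat_lit 1271250, nat_lit 1271250, [nat_lit 490000, nat_lit 1100000, nat_lit 1442500, nat_lit 1271250], [nat_lit 101, nat_lit 40, nat_lit 20, nat_lit 40]⟩, C1.Rw.none,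
 ⟨nat_lit 6020, nat_lit 6063, ⟨.ofNat (nat_lit 183484), .ofNat (nat_lit 223395), .ofNat (nat_lit 199492), .ofNat (nat_lit 239404), .ofNat (nat_lit 185145), .ofNat (nat_lit 224872), .ofNat (nat_lit 201152), .ofNat (nat_lit 240879)⟩, ⟨.ofNat (nat_lit 387723), .ofNat (nat_lit 427634), .ofNat (nat_lit 409067), .ofNat (nat_lit 448979), .ofNat (nat_lit 387371), .ofNat (nat_lit 427097), .ofNat (nat_lit 408713), .ofNat (nat_lit 448439)⟩⟩, [⟨nat_lit 0, nat_lit 100, nat_lit 100, nat_lit 55, nat_lit 195922370⟩, ⟨nat_lit 4, nat_lit 100, nat_lit 100, nat_lit 55, nat_lit 392802375⟩]⟩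
noncomputable def p038_l21 : Lf2 := ⟨nat_lit 0, nat_lit 1, [nat_lit 19, nat_lit 5, nat_lit 5, nat_lit 20], true, nat_lit 260, nat_lit 280, nat_lit 0, nat_lit 268, ⟨nat_lit 0, nat_lit 0, nat_lit 1000, nat_lit 6, nat_lit 83, nat_lit 1000, nat_lit 184, nat_lit 1000, nat_lit 51683, nat_lit 270, nat_lit 64067, nat_lit 277, nat_lit 51895696, nat_lit 0, nat_lit 0, nat_lit 3458506, false, false⟩,
 nat_lit 0, nat_lit 6154, nat_lit 0, nat_lit 0, nat_lit 3418, nat_lit 0, nat_lit 1174, nat_lit 0, nat_lit 0, nat_lit 0, nat_lit 0, nat_lit 0, nat_lit 0, nat_lit 18907663428614, nat_lit 0, nat_lit 345550, nat_lit 0, nat_lit 0, [(nat_lit 6, [(nat_lit 4, nat_lit 363), (nat_lit 5, nat_lit 637)])],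
 ⟨p038_k9, nat_lit 0, nat_lit 0, nat_lit 0, nat_lit 0, nat_lit 271376, [nat_lit 1063940134, nat_lit 748417867, nat_lit 53528000], [], [nat_lit 16016312935, nat_lit 16122155912, nat_lit 15623951987, nat_lit 15724599815, nat_lit 17100998140, nat_lit 17201590029, nat_lit 16691212912, nat_lit 16790754170], nat_lit 1271250, nat_lit 1271250, nat_lit 111251, nat_lit 230001, nat_lit 1271250, nat_lit 1271250, [nat_lit 490000, nat_lit 1100000, nat_lit 1442500], [nat_lit 6, nat_lit 40, nat_lit 20, nat_lit 40]⟩, C1.Rw.none,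
 ⟨nat_lit 6082, nat_lit 6124, ⟨.ofNat (nat_lit 180982), .ofNat (nat_lit 221172), .ofNat (nat_lit 193790), .ofNat (nat_lit 233981), .ofNat (nat_lit 182651), .ofNat (nat_lit 222656), .ofNat (nat_lit 195459), .ofNat (nat_lit 235463)⟩, ⟨.ofNat (nat_lit 428436), .ofNat (nat_lit 468627), .ofNat (nat_lit 449785), .ofNat (nat_lit 489975), .ofNat (nat_lit 427902), .ofNat (nat_lit 467906), .ofNat (nat_lit 449248), .ofNat (nat_lit 489252)⟩⟩, [⟨nat_lit 0, nat_lit 100, nat_lit 100, nat_lit 52, nat_lit 210234128⟩, ⟨nat_lit 16, nat_lit 100, nat_lit 99, nat_lit 54, nat_lit 271525648⟩, ⟨nat_lit 16, nat_lit 100, nat_lit 95, nat_lit 62, nat_lit 155815490⟩]⟩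
noncomputable def p038_l22 : Lf2 := ⟨nat_lit 0, nat_lit 1, [nat_lit 19, nat_lit 5, nat_lit 5, nat_lit 20], true, nat_lit 260, nat_lit 276, nat_lit 0, nat_lit 268, ⟨nat_lit 0, nat_lit 0, nat_lit 1000, nat_lit 6, nat_lit 84, nat_lit 1000, nat_lit 182, nat_lit 1000, nat_lit 66628, nat_lit 278, nat_lit 66150, nat_lit 278, nat_lit 52026283, nat_lit 0, nat_lit 0, nat_lit 3448406, false, false⟩,
 nat_lit 0, nat_lit 6108, nat_lit 0, nat_lit 0, nat_lit 3425, nat_lit 0, nat_lit 1104, nat_lit 0, nat_lit 0, nat_lit 0, nat_lit 0, nat_lit 0, nat_lit 0, nat_lit 18643839734910, nat_lit 0, nat_lit 353050, nat_lit 0, nat_lit 0, [(nat_lit 6, [(nat_lit 4, nat_lit 313), (nat_lit 5, nat_lit 687)])],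
 ⟨p038_k10, nat_lit 0, nat_lit 0, nat_lit 0, nat_lit 0, nat_lit 277417, [nat_lit 1035426801, nat_lit 753631201, nat_lit 50728000], [], [nat_lit 16054984335, nat_lit 16107947784, nat_lit 15657639773, nat_lit 15708003659, nat_lit 16946230259, nat_lit 17000749081, nat_lit 16539035265, nat_lit 16592970865], nat_lit 1271250, nat_lit 1271250, nat_lit 111251, nat_lit 230001, nat_lit 1271250, nat_lit 1271250, [nat_lit 490000, nat_lit 1100000, nat_lit 1442500], [nat_lit 6, nat_lit 40, nat_lit 20, nat_lit 40]⟩, C1.Rw.none,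
 ⟨nat_lit 6062, nat_lit 6083, ⟨.ofNat (nat_lit 182651), .ofNat (nat_lit 222656), .ofNat (nat_lit 196526), .ofNat (nat_lit 236530), .ofNat (nat_lit 183484), .ofNat (nat_lit 223395), .ofNat (nat_lit 197358), .ofNat (nat_lit 237269)⟩, ⟨.ofNat (nat_lit 427902), .ofNat (nat_lit 459905), .ofNat (nat_lit 449248), .ofNat (nat_lit 481251), .ofNat (nat_lit 427634), .ofNat (nat_lit 459563), .ofNat (nat_lit 448979), .ofNat (nat_lit 480908)⟩⟩, [⟨nat_lit 0, nat_lit 100, nat_lit 100, nat_lit 53, nat_lit 210968902⟩, ⟨nat_lit 16, nat_lit 100, nat_lit 96, nat_lit 62, nat_lit 192848112⟩, ⟨nat_lit 4, nat_lit 99, nat_lit 100, nat_lit 55, nat_lit 236435602⟩]⟩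
noncomputable def p038_l23 : Lf2 := ⟨nat_lit 0, nat_lit 1, [nat_lit 19, nat_lit 5, nat_lit 5, nat_lit 20], true, nat_lit 260, nat_lit 276, nat_lit 0, nat_lit 268, ⟨nat_lit 0, nat_lit 0, nat_lit 1000, nat_lit 6, nat_lit 84, nat_lit 1000, nat_lit 182, nat_lit 1000, nat_lit 70484, nat_lit 279, nat_lit 66150, nat_lit 278, nat_lit 52054232, nat_lit 0, nat_lit 0, nat_lit 3443909, false, false⟩,
 nat_lit 0, nat_lit 6083, nat_lit 0, nat_lit 0, nat_lit 3427, nat_lit 0, nat_lit 1074, nat_lit 0, nat_lit 0, nat_lit 0, nat_lit 0, nat_lit 0, nat_lit 0, nat_lit 0, nat_lit 0, nat_lit 356500, nat_lit 0, nat_lit 0, [(nat_lit 6, [(nat_lit 4, nat_lit 290), (nat_lit 5, nat_lit 710)])],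
 ⟨p038_k11, nat_lit 0, nat_lit 0, nat_lit 0, nat_lit 0, nat_lit 271709, [nat_lit 1022310667, nat_lit 756029334, nat_lit 49440000], [], [nat_lit 16076839715, nat_lit 16190498088, nat_lit 15679853313, nat_lit 15791388069, nat_lit 17002273654, nat_lit 17127308402, nat_lit 16594070170, nat_lit 16701966191], nat_lit 1271250, nat_lit 1271250, nat_lit 111251, nat_lit 230001, nat_lit 1271250, nat_lit 1271250, [nat_lit 490000, nat_lit 1100000, nat_lit 1442500], [nat_lit 6, nat_lit 40, nat_lit 20, nat_lit 40]⟩, C1.Rw.none,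
 ⟨nat_lit 6020, nat_lit 6063, ⟨.ofNat (nat_lit 183484), .ofNat (nat_lit 223395), .ofNat (nat_lit 194156), .ofNat (nat_lit 234068), .ofNat (nat_lit 185145), .ofNat (nat_lit 224872), .ofNat (nat_lit 195817), .ofNat (nat_lit 235543)⟩, ⟨.ofNat (nat_lit 427634), .ofNat (nat_lit 459563), .ofNat (nat_lit 448979), .ofNat (nat_lit 480908), .ofNat (nat_lit 427097), .ofNat (nat_lit 458878), .ofNat (nat_lit 448439), .ofNat (nat_lit 480220)⟩⟩, [⟨nat_lit 0, nat_lit 100, nat_lit 99, nat_lit 52, nat_lit 212315725⟩, ⟨nat_lit 16, nat_lit 100, nat_lit 100, nat_lit 55, nat_lit 101662769⟩, ⟨nat_lit 16, nat_lit 100, nat_lit 96, nat_lit 62, nat_lit 328174692⟩]⟩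
noncomputable def p038_l24 : Lf2 := ⟨nat_lit 0, nat_lit 1, [nat_lit 19, nat_lit 5, nat_lit 5, nat_lit 20], true, nat_lit 260, nat_lit 276, nat_lit 0, nat_lit 268, ⟨nat_lit 0, nat_lit 0, nat_lit 1000, nat_lit 6, nat_lit 89, nat_lit 1000, nat_lit 182, nat_lit 1000, nat_lit 70484, nat_lit 279, nat_lit 72600, nat_lit 281, nat_lit 51759714, nat_lit 0, nat_lit 0, nat_lit 3512435, false, false⟩,
 nat_lit 0, nat_lit 5750, nat_lit 0, nat_lit 0, nat_lit 3239, nat_lit 0, nat_lit 976, nat_lit 0, nat_lit 0, nat_lit 0, nat_lit 0, nat_lit 0, nat_lit 0, nat_lit 18411434201036, nat_lit 0, nat_lit 389500, nat_lit 0, nat_lit 0, [(nat_lit 6, [(nat_lit 4, nat_lit 70), (nat_lit 5, nat_lit 930)])],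
 ⟨p038_k11, nat_lit 0, nat_lit 0, nat_lit 0, nat_lit 0, nat_lit 293603, [nat_lit 896852001, nat_lit 778968001, nat_lit 37120000], [], [nat_lit 16138626479, nat_lit 16242133437, nat_lit 15857598463, nat_lit 15956202038, nat_lit 17033681286, nat_lit 17140151843, nat_lit 16739098689, nat_lit 16844661581], nat_lit 1271250, nat_lit 1271250, nat_lit 134400, nat_lit 230001, nat_lit 1271250, nat_lit 1271250, [nat_lit 490000, nat_lit 1100000, nat_lit 1442500], [nat_lit 6, nat_lit 40, nat_lit 20, nat_lit 40]⟩, C1.Rw.none,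
 ⟨nat_lit 6020, nat_lit 6063, ⟨.ofNat (nat_lit 202138), .ofNat (nat_lit 234068), .ofNat (nat_lit 207475), .ofNat (nat_lit 239404), .ofNat (nat_lit 203762), .ofNat (nat_lit 235543), .ofNat (nat_lit 209097), .ofNat (nat_lit 240879)⟩, ⟨.ofNat (nat_lit 427634), .ofNat (nat_lit 459563), .ofNat (nat_lit 448979), .ofNat (nat_lit 480908), .ofNat (nat_lit 427097), .ofNat (nat_lit 458878), .ofNat (nat_lit 448439), .ofNat (nat_lit 480220)⟩⟩, [⟨nat_lit 0, nat_lit 100, nat_lit 100, nat_lit 55, nat_lit 201921964⟩, ⟨nat_lit 16, nat_lit 100, nat_lit 100, nat_lit 55, nat_lit 11110649⟩, ⟨nat_lit 16, nat_lit 100, nat_lit 96, nat_lit 62, nat_lit 396711498⟩]⟩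
noncomputable def p038_l25 : Lf2 := ⟨nat_lit 0, nat_lit 2, [nat_lit 10, nat_lit 5, nat_lit 5, nat_lit 20], true, nat_lit 260, nat_lit 280, nat_lit 0, nat_lit 268, ⟨nat_lit 0, nat_lit 0, nat_lit 1000, nat_lit 6, nat_lit 83, nat_lit 1000, nat_lit 184, nat_lit 1000, nat_lit 51683, nat_lit 270, nat_lit 64067, nat_lit 277, nat_lit 51895696, nat_lit 0, nat_lit 0, nat_lit 3458506, false, false⟩,
 nat_lit 0, nat_lit 6615, nat_lit 0, nat_lit 0, nat_lit 3674, nat_lit 0, nat_lit 541, nat_lit 0, nat_lit 0, nat_lit 0, nat_lit 0, nat_lit 0, nat_lit 0, nat_lit 19707744740877, nat_lit 14, nat_lit 263650, nat_lit 0, nat_lit 0, [(nat_lit 6, [(nat_lit 4, nat_lit 909), (nat_lit 5, nat_lit 91)])],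
 ⟨p038_k7, nat_lit 0, nat_lit 0, nat_lit 0, nat_lit 0, nat_lit 228294, [nat_lit 1487305734, nat_lit 915488267, nat_lit 364104001, nat_lit 7151600], [], [nat_lit 16175228956, nat_lit 16284141040, nat_lit 15729644424, nat_lit 15831875946, nat_lit 17292009521, nat_lit 17395389660, nat_lit 16828068517, nat_lit 16930360034], nat_lit 1271250, nat_lit 1271250, nat_lit 111251, nat_lit 230001, nat_lit 1271250, nat_lit 1271250, [nat_lit 490000, nat_lit 1100000, nat_lit 1442500, nat_lit 1271250], [nat_lit 101, nat_lit 40, nat_lit 20, nat_lit 40]⟩, C1.Rw.none,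
 ⟨nat_lit 6082, nat_lit 6124, ⟨.ofNat (nat_lit 180982), .ofNat (nat_lit 221172), .ofNat (nat_lit 193790), .ofNat (nat_lit 233981), .ofNat (nat_lit 182651), .ofNat (nat_lit 222656), .ofNat (nat_lit 195459), .ofNat (nat_lit 235463)⟩, ⟨.ofNat (nat_lit 428436), .ofNat (nat_lit 468627), .ofNat (nat_lit 449785), .ofNat (nat_lit 489975), .ofNat (nat_lit 427902), .ofNat (nat_lit 467906), .ofNat (nat_lit 449248), .ofNat (nat_lit 489252)⟩⟩, [⟨nat_lit 0, nat_lit 100, nat_lit 100, nat_lit 52, nat_lit 223652376⟩, ⟨nat_lit 4, nat_lit 99, nat_lit 100, nat_lit 54, nat_lit 465135869⟩]⟩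
noncomputable def p038_l26 : Lf2 := ⟨nat_lit 0, nat_lit 2, [nat_lit 10, nat_lit 5, nat_lit 5, nat_lit 20], true, nat_lit 260, nat_lit 276, nat_lit 0, nat_lit 268, ⟨nat_lit 0, nat_lit 0, nat_lit 1000, nat_lit 6, nat_lit 84, nat_lit 1000, nat_lit 182, nat_lit 1000, nat_lit 66628, nat_lit 278, nat_lit 66150, nat_lit 278, nat_lit 52026283, nat_lit 0, nat_lit 0, nat_lit 3448406, false, false⟩,
 nat_lit 0, nat_lit 6211, nat_lit 0, nat_lit 0, nat_lit 3483, nat_lit 0, nat_lit 949, nat_lit 0, nat_lit 0, nat_lit 0, nat_lit 0, nat_lit 0, nat_lit 0, nat_lit 18115513751690, nat_lit 16, nat_lit 300100, nat_lit 0, nat_lit 0, [(nat_lit 6, [(nat_lit 4, nat_lit 666), (nat_lit 5, nat_lit 334)])],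
 ⟨p038_k12, nat_lit 0, nat_lit 0, nat_lit 0, nat_lit 0, nat_lit 234982, [nat_lit 1364730934, nat_lit 972825067, nat_lit 390496001, nat_lit 18978400], [], [nat_lit 16121897666, nat_lit 16175208787, nat_lit 15712091774, nat_lit 15762159356, nat_lit 16991907281, nat_lit 17043089442, nat_lit 16569712520, nat_lit 16620354519], nat_lit 1271250, nat_lit 1271250, nat_lit 111251, nat_lit 230001, nat_lit 1271250, nat_lit 1271250, [nat_lit 490000, nat_lit 1100000, nat_lit 1442500, nat_lit 1271250], [nat_lit 101, nat_lit 40, nat_lit 20, nat_lit 40]⟩, C1.Rw.none,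
 ⟨nat_lit 6062, nat_lit 6083, ⟨.ofNat (nat_lit 182651), .ofNat (nat_lit 222656), .ofNat (nat_lit 196526), .ofNat (nat_lit 236530), .ofNat (nat_lit 183484), .ofNat (nat_lit 223395), .ofNat (nat_lit 197358), .ofNat (nat_lit 237269)⟩, ⟨.ofNat (nat_lit 427902), .ofNat (nat_lit 459905), .ofNat (nat_lit 449248), .ofNat (nat_lit 481251), .ofNat (nat_lit 427634), .ofNat (nat_lit 459563), .ofNat (nat_lit 448979), .ofNat (nat_lit 480908)⟩⟩, [⟨nat_lit 0, nat_lit 100, nat_lit 100, nat_lit 53, nat_lit 214014238⟩, ⟨nat_lit 16, nat_lit 100, nat_lit 99, nat_lit 55, nat_lit 402327977⟩, ⟨nat_lit 16, nat_lit 100, nat_lit 96, nat_lit 62, nat_lit 33082444⟩]⟩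
noncomputable def p038_l27 : Lf2 := ⟨nat_lit 0, nat_lit 2, [nat_lit 10, nat_lit 5, nat_lit 5, nat_lit 20], true, nat_lit 260, nat_lit 276, nat_lit 0, nat_lit 268, ⟨nat_lit 0, nat_lit 0, nat_lit 1000, nat_lit 6, nat_lit 85, nat_lit 1000, nat_lit 182, nat_lit 1000, nat_lit 70484, nat_lit 279, nat_lit 68267, nat_lit 279, nat_lit 51989245, nat_lit 0, nat_lit 0, nat_lit 3459233, false, false⟩,
 nat_lit 0, nat_lit 6113, nat_lit 0, nat_lit 0, nat_lit 3444, nat_lit 0, nat_lit 889, nat_lit 0, nat_lit 0, nat_lit 0, nat_lit 0, nat_lit 0, nat_lit 0, nat_lit 18194761433279, nat_lit 17, nat_lit 337600, nat_lit 0, nat_lit 0, [(nat_lit 6, [(nat_lit 4, nat_lit 416), (nat_lit 5, nat_lit 584)])],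
 ⟨p038_k8, nat_lit 0, nat_lit 0, nat_lit 0, nat_lit 0, nat_lit 251699, [nat_lit 1230164267, nat_lit 1014891734, nat_lit 396496000, nat_lit 7878400], [], [nat_lit 16174243880, nat_lit 16280398562, nat_lit 15773735121, nat_lit 15874679878, nat_lit 17038264257, nat_lit 17140195250, nat_lit 16623774522, nat_lit 16724631141], nat_lit 1271250, nat_lit 1271250, nat_lit 111251, nat_lit 230001, nat_lit 1271250, nat_lit 1271250, [nat_lit 490000, nat_lit 1100000, nat_lit 1442500, nat_lit 1271250], [nat_lit 101, nat_lit 40, nat_lit 20, nat_lit 40]⟩, C1.Rw.none,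
 ⟨nat_lit 6020, nat_lit 6063, ⟨.ofNat (nat_lit 183484), .ofNat (nat_lit 223395), .ofNat (nat_lit 199492), .ofNat (nat_lit 239404), .ofNat (nat_lit 185145), .ofNat (nat_lit 224872), .ofNat (nat_lit 201152), .ofNat (nat_lit 240879)⟩, ⟨.ofNat (nat_lit 427634), .ofNat (nat_lit 459563), .ofNat (nat_lit 448979), .ofNat (nat_lit 480908), .ofNat (nat_lit 427097), .ofNat (nat_lit 458878), .ofNat (nat_lit 448439), .ofNat (nat_lit 480220)⟩⟩, [⟨nat_lit 0, nat_lit 100, nat_lit 100, nat_lit 55, nat_lit 211972954⟩, ⟨nat_lit 16, nat_lit 100, nat_lit 96, nat_lit 62, nat_lit 80973522⟩, ⟨nat_lit 4, nat_lit 100, nat_lit 100, nat_lit 55, nat_lit 345271526⟩]⟩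
noncomputable def p038_l28 : Lf2 := ⟨nat_lit 0, nat_lit 2, [nat_lit 10, nat_lit 5, nat_lit 5, nat_lit 20], true, nat_lit 240, nat_lit 280, nat_lit 0, nat_lit 288, ⟨nat_lit 0, nat_lit 0, nat_lit 1000, nat_lit 6, nat_lit 108, nat_lit 1000, nat_lit 175, nat_lit 1000, nat_lit 51683, nat_lit 270, nat_lit 109350, nat_lit 296, nat_lit 51050465, nat_lit 0, nat_lit 0, nat_lit 3717554, false, false⟩,
 nat_lit 0, nat_lit 6181, nat_lit 0, nat_lit 0, nat_lit 3433, nat_lit 0, nat_lit 1033, nat_lit 0, nat_lit 0, nat_lit 0, nat_lit 0, nat_lit 0, nat_lit 0, nat_lit 22665409645561, nat_lit 17, nat_lit 338800, nat_lit 0, nat_lit 0, [(nat_lit 6, [(nat_lit 4, nat_lit 408), (nat_lit 5, nat_lit 592)])],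
 ⟨p038_k7, nat_lit 0, nat_lit 0, nat_lit 0, nat_lit 0, nat_lit 302965, [nat_lit 1225602134, nat_lit 1015725867, nat_lit 396048000, nat_lit 6819200], [], [nat_lit 14606023430, nat_lit 14869941606, nat_lit 14639382845, nat_lit 14893597430, nat_lit 16742823172, nat_lit 16992079186, nat_lit 16628030315, nat_lit 16859710295], nat_lit 1271250, nat_lit 1271250, nat_lit 230001, nat_lit 490000, nat_lit 1271250, nat_lit 1271250, [nat_lit 490000, nat_lit 1100000, nat_lit 1442500, nat_lit 1271250], [nat_lit 101, nat_lit 40, nat_lit 20, nat_lit 40]⟩, C1.Rw.none,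
 ⟨nat_lit 6020, nat_lit 6124, ⟨.ofNat (nat_lit 221172), .ofNat (nat_lit 301553), .ofNat (nat_lit 237183), .ofNat (nat_lit 317564), .ofNat (nat_lit 224872), .ofNat (nat_lit 304325), .ofNat (nat_lit 240879), .ofNat (nat_lit 320331)⟩, ⟨.ofNat (nat_lit 388246), .ofNat (nat_lit 468627), .ofNat (nat_lit 409594), .ofNat (nat_lit 489975), .ofNat (nat_lit 387371), .ofNat (nat_lit 466823), .ofNat (nat_lit 408713), .ofNat (nat_lit 488166)⟩⟩, [⟨nat_lit 4, nat_lit 99, nat_lit 100, nat_lit 55, nat_lit 434950304⟩]⟩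
noncomputable def p038_l29 : Lf2 := ⟨nat_lit 0, nat_lit 5, [nat_lit 4, nat_lit 5, nat_lit 5, nat_lit 20], true, nat_lit 240, nat_lit 280, nat_lit 0, nat_lit 288, ⟨nat_lit 0, nat_lit 0, nat_lit 1000, nat_lit 6, nat_lit 83, nat_lit 1000, nat_lit 176, nat_lit 1000, nat_lit 51683, nat_lit 270, nat_lit 64067, nat_lit 277, nat_lit 52665651, nat_lit 0, nat_lit 0, nat_lit 3367109, false, false⟩,
 nat_lit 0, nat_lit 6217, nat_lit 0, nat_lit 0, nat_lit 3453, nat_lit 0, nat_lit 557, nat_lit 0, nat_lit 0, nat_lit 0, nat_lit 0, nat_lit 0, nat_lit 0, nat_lit 17120009534247, nat_lit 36, nat_lit 320800, nat_lit 0, nat_lit 0, [(nat_lit 6, [(nat_lit 4, nat_lit 528), (nat_lit 5, nat_lit 472)])],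
 ⟨p038_k13, nat_lit 0, nat_lit 0, nat_lit 0, nat_lit 0, nat_lit 198691, [nat_lit 1446034134, nat_lit 1307213867, nat_lit 782768001, nat_lit 98646399], [], [nat_lit 15181054621, nat_lit 15284391774, nat_lit 14786378044, nat_lit 14890956865, nat_lit 17350986191, nat_lit 17451959286, nat_lit 16933796853, nat_lit 17033714123], nat_lit 1271250, nat_lit 1271250, nat_lit 111251, nat_lit 230001, nat_lit 1271250, nat_lit 1271250, [nat_lit 490000, nat_lit 1100000, nat_lit 1442500, nat_lit 1271250], [nat_lit 98, nat_lit 40, nat_lit 20, nat_lit 40]⟩, C1.Rw.none,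
 ⟨nat_lit 6082, nat_lit 6124, ⟨.ofNat (nat_lit 180982), .ofNat (nat_lit 221172), .ofNat (nat_lit 193790), .ofNat (nat_lit 233981), .ofNat (nat_lit 182651), .ofNat (nat_lit 222656), .ofNat (nat_lit 195459), .ofNat (nat_lit 235463)⟩, ⟨.ofNat (nat_lit 388246), .ofNat (nat_lit 468627), .ofNat (nat_lit 409594), .ofNat (nat_lit 489975), .ofNat (nat_lit 387898), .ofNat (nat_lit 467906), .ofNat (nat_lit 409243), .ofNat (nat_lit 489252)⟩⟩, [⟨nat_lit 0, nat_lit 100, nat_lit 100, nat_lit 52, nat_lit 209074052⟩, ⟨nat_lit 4, nat_lit 99, nat_lit 100, nat_lit 54, nat_lit 449180179⟩]⟩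
noncomputable def p038_l30 : Lf2 := ⟨nat_lit 0, nat_lit 5, [nat_lit 4, nat_lit 5, nat_lit 5, nat_lit 20], true, nat_lit 240, nat_lit 276, nat_lit 0, nat_lit 288, ⟨nat_lit 0, nat_lit 0, nat_lit 1000, nat_lit 6, nat_lit 84, nat_lit 1000, nat_lit 174, nat_lit 1000, nat_lit 66628, nat_lit 278, nat_lit 66150, nat_lit 278, nat_lit 52791070, nat_lit 0, nat_lit 0, nat_lit 3356423, false, false⟩,
 nat_lit 0, nat_lit 5953, nat_lit 0, nat_lit 0, nat_lit 3338, nat_lit 0, nat_lit 529, nat_lit 0, nat_lit 0, nat_lit 0, nat_lit 0, nat_lit 0, nat_lit 0, nat_lit 16775457291844, nat_lit 37, nat_lit 342250, nat_lit 0, nat_lit 0, [(nat_lit 6, [(nat_lit 4, nat_lit 385), (nat_lit 5, nat_lit 615)])],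
 ⟨p038_k14, nat_lit 0, nat_lit 0, nat_lit 0, nat_lit 0, nat_lit 206018, [nat_lit 1372486001, nat_lit 1338124001, nat_lit 794760000, nat_lit 92788000], [], [nat_lit 15322502029, nat_lit 15373124062, nat_lit 14950310595, nat_lit 15001912109, nat_lit 17242595134, nat_lit 17292971747, nat_lit 16851044500, nat_lit 16900892013], nat_lit 1271250, nat_lit 1271250, nat_lit 111251, nat_lit 230001, nat_lit 1271250, nat_lit 1271250, [nat_lit 490000, nat_lit 1100000, nat_lit 1442500, nat_lit 1271250], [nat_lit 98, nat_lit 40, nat_lit 20, nat_lit 40]⟩, C1.Rw.none,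
 ⟨nat_lit 6062, nat_lit 6083, ⟨.ofNat (nat_lit 182651), .ofNat (nat_lit 222656), .ofNat (nat_lit 196526), .ofNat (nat_lit 236530), .ofNat (nat_lit 183484), .ofNat (nat_lit 223395), .ofNat (nat_lit 197358), .ofNat (nat_lit 237269)⟩, ⟨.ofNat (nat_lit 387898), .ofNat (nat_lit 459905), .ofNat (nat_lit 409243), .ofNat (nat_lit 481251), .ofNat (nat_lit 387723), .ofNat (nat_lit 459563), .ofNat (nat_lit 409067), .ofNat (nat_lit 480908)⟩⟩, [⟨nat_lit 0, nat_lit 100, nat_lit 100, nat_lit 53, nat_lit 203472525⟩, ⟨nat_lit 4, nat_lit 99, nat_lit 100, nat_lit 55, nat_lit 428260010⟩]⟩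
noncomputable def p038_l31 : Lf2 := ⟨nat_lit 0, nat_lit 5, [nat_lit 4, nat_lit 5, nat_lit 5, nat_lit 20], true, nat_lit 240, nat_lit 276, nat_lit 0, nat_lit 288, ⟨nat_lit 0, nat_lit 0, nat_lit 1000, nat_lit 6, nat_lit 85, nat_lit 1000, nat_lit 174, nat_lit 1000, nat_lit 70484, nat_lit 279, nat_lit 68267, nat_lit 279, nat_lit 52750076, nat_lit 0, nat_lit 0, nat_lit 3367636, false, false⟩,
 nat_lit 0, nat_lit 6026, nat_lit 0, nat_lit 0, nat_lit 3395, nat_lit 0, nat_lit 538, nat_lit 0, nat_lit 0, nat_lit 0, nat_lit 0, nat_lit 0, nat_lit 0, nat_lit 17591572079827, nat_lit 37, nat_lit 329950, nat_lit 0, nat_lit 0, [(nat_lit 6, [(nat_lit 4, nat_lit 467), (nat_lit 5, nat_lit 533)])],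
 ⟨p038_k15, nat_lit 0, nat_lit 0, nat_lit 0, nat_lit 0, nat_lit 223701, [nat_lit 1419247867, nat_lit 1329574134, nat_lit 799352001, nat_lit 109909599], [], [nat_lit 15324027189, nat_lit 15426028054, nat_lit 14937920468, nat_lit 15041894574, nat_lit 17248368103, nat_lit 17349754656, nat_lit 16844237709, nat_lit 16944557365], nat_lit 1271250, nat_lit 1271250, nat_lit 111251, nat_lit 230001, nat_lit 1271250, nat_lit 1271250, [nat_lit 490000, nat_lit 1100000, nat_lit 1442500, nat_lit 1271250], [nat_lit 98, nat_lit 40, nat_lit 20, nat_lit 40]⟩, C1.Rw.none,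
 ⟨nat_lit 6020, nat_lit 6063, ⟨.ofNat (nat_lit 183484), .ofNat (nat_lit 223395), .ofNat (nat_lit 199492), .ofNat (nat_lit 239404), .ofNat (nat_lit 185145), .ofNat (nat_lit 224872), .ofNat (nat_lit 201152), .ofNat (nat_lit 240879)⟩, ⟨.ofNat (nat_lit 387723), .ofNat (nat_lit 459563), .ofNat (nat_lit 409067), .ofNat (nat_lit 480908), .ofNat (nat_lit 387371), .ofNat (nat_lit 458878), .ofNat (nat_lit 408713), .ofNat (nat_lit 480220)⟩⟩, [⟨nat_lit 0, nat_lit 100, nat_lit 100, nat_lit 55, nat_lit 206470317⟩, ⟨nat_lit 4, nat_lit 100, nat_lit 100, nat_lit 55, nat_lit 430588847⟩]⟩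
noncomputable def p038_l32 : Lf2 := ⟨nat_lit 0, nat_lit 5, [nat_lit 4, nat_lit 5, nat_lit 5, nat_lit 20], true, nat_lit 240, nat_lit 280, nat_lit 0, nat_lit 288, ⟨nat_lit 0, nat_lit 0, nat_lit 1000, nat_lit 6, nat_lit 108, nat_lit 1000, nat_lit 175, nat_lit 1000, nat_lit 51683, nat_lit 270, nat_lit 109350, nat_lit 296, nat_lit 51050465, nat_lit 0, nat_lit 0, nat_lit 3717554, false, false⟩,
 nat_lit 0, nat_lit 5947, nat_lit 0, nat_lit 0, nat_lit 3303, nat_lit 0, nat_lit 509, nat_lit 0, nat_lit 0, nat_lit 0, nat_lit 0, nat_lit 0, nat_lit 0, nat_lit 20984393764222, nat_lit 38, nat_lit 347350, nat_lit 0, nat_lit 0, [(nat_lit 6, [(nat_lit 4, nat_lit 351), (nat_lit 5, nat_lit 649)])],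
 ⟨p038_k13, nat_lit 0, nat_lit 0, nat_lit 0, nat_lit 0, nat_lit 227376, [nat_lit 1361096934, nat_lit 1357669067, nat_lit 812856000, nat_lit 109688800], [], [nat_lit 14938535902, nat_lit 15189311669, nat_lit 14889129276, nat_lit 15137135965, nat_lit 17034407252, nat_lit 17280171726, nat_lit 16829220375, nat_lit 17063616273], nat_lit 1271250, nat_lit 1271250, nat_lit 230001, nat_lit 490000, nat_lit 1271250, nat_lit 1271250, [nat_lit 490000, nat_lit 1100000, nat_lit 1442500, nat_lit 1271250], [nat_lit 98, nat_lit 40, nat_lit 20, nat_lit 40]⟩, C1.Rw.none,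
 ⟨nat_lit 6020, nat_lit 6124, ⟨.ofNat (nat_lit 221172), .ofNat (nat_lit 301553), .ofNat (nat_lit 237183), .ofNat (nat_lit 317564), .ofNat (nat_lit 224872), .ofNat (nat_lit 304325), .ofNat (nat_lit 240879), .ofNat (nat_lit 320331)⟩, ⟨.ofNat (nat_lit 388246), .ofNat (nat_lit 468627), .ofNat (nat_lit 409594), .ofNat (nat_lit 489975), .ofNat (nat_lit 387371), .ofNat (nat_lit 466823), .ofNat (nat_lit 408713), .ofNat (nat_lit 488166)⟩⟩, [⟨nat_lit 4, nat_lit 99, nat_lit 100, nat_lit 55, nat_lit 427832038⟩]⟩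
noncomputable def p038_l33 : Lf2 := ⟨nat_lit 0, nat_lit 5, [nat_lit 4, nat_lit 5, nat_lit 5, nat_lit 20], true, nat_lit 240, nat_lit 280, nat_lit 0, nat_lit 288, ⟨nat_lit 0, nat_lit 0, nat_lit 1000, nat_lit 6, nat_lit 100, nat_lit 1000, nat_lit 175, nat_lit 1000, nat_lit 51683, nat_lit 270, nat_lit 93750, nat_lit 290, nat_lit 51587313, nat_lit 0, nat_lit 0, nat_lit 3608246, false, false⟩,
 nat_lit 0, nat_lit 523881, nat_lit 0, nat_lit 0, nat_lit 291044, nat_lit 0, nat_lit 60000, nat_lit 17740, nat_lit 0, nat_lit 0, nat_lit 0, nat_lit 0, nat_lit 0, nat_lit 400000000000000, nat_lit 0, nat_lit 1000000, nat_lit 0, nat_lit 0, [(nat_lit 6, [(nat_lit 6, nat_lit 1000)])],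
 ⟨p038_k16, nat_lit 0, nat_lit 0, nat_lit 242, nat_lit 0, nat_lit 317006, [nat_lit 284817066667, nat_lit 354608000001, nat_lit 424051199999], [], [nat_lit 180346994498, nat_lit 186798657563, nat_lit 55861364166, nat_lit 61812089972, nat_lit 250272157035, nat_lit 257147186869, nat_lit 111301916382, nat_lit 117063348915], nat_lit 1271250, nat_lit 1271250, nat_lit 111251, nat_lit 490000, nat_lit 1271250, nat_lit 1271250, [nat_lit 1100000, nat_lit 1442500, nat_lit 1271250], [nat_lit 9, nat_lit 40, nat_lit 20, nat_lit 80, nat_lit 2, nat_lit 226, nat_lit 20, nat_lit 7]⟩, C1.Rw.none,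
 ⟨nat_lit 6020, nat_lit 6124, ⟨.ofNat (nat_lit 180982), .ofNat (nat_lit 301553), .ofNat (nat_lit 196993), .ofNat (nat_lit 317564), .ofNat (nat_lit 185145), .ofNat (nat_lit 304325), .ofNat (nat_lit 201152), .ofNat (nat_lit 320331)⟩, ⟨.ofNat (nat_lit 388246), .ofNat (nat_lit 468627), .ofNat (nat_lit 409594), .ofNat (nat_lit 489975), .ofNat (nat_lit 387371), .ofNat (nat_lit 466823), .ofNat (nat_lit 408713), .ofNat (nat_lit 488166)⟩⟩, [⟨nat_lit 0, nat_lit 100, nat_lit 99, nat_lit 50, nat_lit 533999886⟩, ⟨nat_lit 0, nat_lit 100, nat_lit 100, nat_lit 55, nat_lit 10000000000⟩, ⟨nat_lit 16, nat_lit 100, nat_lit 99, nat_lit 55, nat_lit 10101010101⟩, ⟨nat_lit 16, nat_lit 100, nat_lit 95, nat_lit 62, nat_lit 10526315789⟩, ⟨nat_lit 4, nat_lit 99, nat_lit 100, nat_lit 55, nat_lit 10101010101⟩]⟩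
noncomputable def b_VL_600_600_5_71 : St := ⟨true, nat_lit 1, nat_lit 1, nat_lit 1, nat_lit 40, nat_lit 250, nat_lit 255, nat_lit 240, nat_lit 260, nat_lit 20, nat_lit 80, nat_lit 20, nat_lit 40, nat_lit 240, nat_lit 280, nat_lit 0, nat_lit 288, nat_lit 0, nat_lit 20, nat_lit 0, nat_lit 0, nat_lit 0, nat_lit 0⟩
theorem d_VL_600_600_5_71 (h : EB TB.env) : Dead b_VL_600_600_5_71 := chkB_sound0 h (T :=
(.ord (.spl (nat_lit 7) (nat_lit 600)
(.spl (nat_lit 6) (nat_lit 8)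
(.spl (nat_lit 2) (nat_lit 40)
(.spl (nat_lit 4) (nat_lit 260)
(.spl (nat_lit 0) (nat_lit 253)
(.ord (.leaf p038_l19))
(.leaf p038_l20))
(.trX (nat_lit 23) (nat_lit 100) (nat_lit 99) (nat_lit 63) (nat_lit 268) (.spl (nat_lit 6) (nat_lit 4)
(.spl (nat_lit 0) (nat_lit 253)
(.ord (.spl (nat_lit 0) (nat_lit 252)
(.ord (.leaf p038_l21))
(.trX (nat_lit 16) (nat_lit 100) (nat_lit 96) (nat_lit 62) (nat_lit 276) (.leaf p038_l22))))
(.trX (nat_lit 16) (nat_lit 100) (nat_lit 96) (nat_lit 62) (nat_lit 276) (.spl (nat_lit 1) (nat_lit 250)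
(.leaf p038_l23)
(.trZ (nat_lit 0) (nat_lit 100) (nat_lit 100) (nat_lit 51) (nat_lit 24) (.leaf p038_l24)))))
(.spl (nat_lit 0) (nat_lit 253)
(.ord (.spl (nat_lit 0) (nat_lit 252)
(.ord (.leaf p038_l25))
(.trX (nat_lit 16) (nat_lit 100) (nat_lit 96) (nat_lit 62) (nat_lit 276) (.leaf p038_l26))))
(.trX (nat_lit 16) (nat_lit 100) (nat_lit 96) (nat_lit 62) (nat_lit 276) (.leaf p038_l27))))))
(.leaf p038_l28))
(.spl (nat_lit 2) (nat_lit 40)
(.spl (nat_lit 0) (nat_lit 253)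
(.ord (.spl (nat_lit 0) (nat_lit 252)
(.ord (.leaf p038_l29))
(.trX (nat_lit 16) (nat_lit 100) (nat_lit 96) (nat_lit 62) (nat_lit 276) (.leaf p038_l30))))
(.trX (nat_lit 16) (nat_lit 100) (nat_lit 96) (nat_lit 62) (nat_lit 276) (.leaf p038_l31)))
(.leaf p038_l32)))
(.leaf p038_l33)))) (by decide +kernel)
noncomputable def p038_l34 : Lf2 := ⟨nat_lit 0, nat_lit 1, [nat_lit 19, nat_lit 5, nat_lit 5, nat_lit 20], true, nat_lit 240, nat_lit 272, nat_lit 0, nat_lit 288, ⟨nat_lit 0, nat_lit 0, nat_lit 1000, nat_lit 6, nat_lit 84, nat_lit 1000, nat_lit 172, nat_lit 1000, nat_lit 88902, nat_lit 288, nat_lit 66150, nat_lit 278, nat_lit 52999721, nat_lit 0, nat_lit 0, nat_lit 3329393, false, false⟩,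
 nat_lit 0, nat_lit 6977, nat_lit 0, nat_lit 0, nat_lit 3968, nat_lit 0, nat_lit 70, nat_lit 0, nat_lit 0, nat_lit 0, nat_lit 0, nat_lit 0, nat_lit 0, nat_lit 0, nat_lit 10, nat_lit 1000000, nat_lit 0, nat_lit 0, [(nat_lit 6, [(nat_lit 6, nat_lit 1000)])],
 ⟨p038_k17, nat_lit 0, nat_lit 0, nat_lit 158, nat_lit 0, nat_lit 271289, [nat_lit 1137066667, nat_lit 8000000], [], [nat_lit 15460027911, nat_lit 15730365926, nat_lit 15081772050, nat_lit 15348685414, nat_lit 17384052395, nat_lit 17722312010, nat_lit 16819826358, nat_lit 17066376448], nat_lit 1271250, nat_lit 1271250, nat_lit 111251, nat_lit 230001, nat_lit 1271250, nat_lit 1271250, [nat_lit 1100000, nat_lit 1442500], [nat_lit 31, nat_lit 40, nat_lit 20, nat_lit 80, nat_lit 3, nat_lit 215, nat_lit 10, nat_lit 8]⟩, C1.Rw.none,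
 ⟨nat_lit 5916, nat_lit 6021, ⟨.ofNat (nat_lit 185145), .ofNat (nat_lit 224872), .ofNat (nat_lit 190481), .ofNat (nat_lit 230207), .ofNat (nat_lit 189276), .ofNat (nat_lit 228543), .ofNat (nat_lit 194611), .ofNat (nat_lit 233878)⟩, ⟨.ofNat (nat_lit 387371), .ofNat (nat_lit 450933), .ofNat (nat_lit 408713), .ofNat (nat_lit 472275), .ofNat (nat_lit 386479), .ofNat (nat_lit 449305), .ofNat (nat_lit 407818), .ofNat (nat_lit 470645)⟩⟩, [⟨nat_lit 0, nat_lit 100, nat_lit 98, nat_lit 50, nat_lit 208341294⟩, ⟨nat_lit 4, nat_lit 100, nat_lit 99, nat_lit 55, nat_lit 489789095⟩]⟩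
noncomputable def p038_l35 : Lf2 := ⟨nat_lit 0, nat_lit 1, [nat_lit 19, nat_lit 5, nat_lit 5, nat_lit 20], true, nat_lit 240, nat_lit 272, nat_lit 0, nat_lit 276, ⟨nat_lit 0, nat_lit 0, nat_lit 1000, nat_lit 6, nat_lit 84, nat_lit 1000, nat_lit 172, nat_lit 1000, nat_lit 88902, nat_lit 288, nat_lit 66150, nat_lit 278, nat_lit 53006811, nat_lit 0, nat_lit 0, nat_lit 3326160, false, false⟩,
 nat_lit 0, nat_lit 7047, nat_lit 0, nat_lit 0, nat_lit 4008, nat_lit 0, nat_lit 70, nat_lit 0, nat_lit 0, nat_lit 0, nat_lit 0, nat_lit 0, nat_lit 0, nat_lit 0, nat_lit 10, nat_lit 1000000, nat_lit 0, nat_lit 0, [(nat_lit 6, [(nat_lit 6, nat_lit 1000)])],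
 ⟨p038_k17, nat_lit 0, nat_lit 0, nat_lit 153, nat_lit 0, nat_lit 269692, [nat_lit 1137066667, nat_lit 8000000], [], [nat_lit 15318666019, nat_lit 15427040772, nat_lit 15164577255, nat_lit 15272375858, nat_lit 17265497782, nat_lit 17401219458, nat_lit 16968999292, nat_lit 17104295143], nat_lit 1271250, nat_lit 1271250, nat_lit 134400, nat_lit 181601, nat_lit 1271250, nat_lit 1271250, [nat_lit 1100000, nat_lit 1442500], [nat_lit 31, nat_lit 40, nat_lit 20, nat_lit 80, nat_lit 3, nat_lit 215, nat_lit 10, nat_lit 8]⟩, C1.Rw.none,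
 ⟨nat_lit 5979, nat_lit 6021, ⟨.ofNat (nat_lit 198426), .ofNat (nat_lit 214317), .ofNat (nat_lit 201628), .ofNat (nat_lit 217518), .ofNat (nat_lit 200045), .ofNat (nat_lit 215862), .ofNat (nat_lit 203246), .ofNat (nat_lit 219063)⟩, ⟨.ofNat (nat_lit 387371), .ofNat (nat_lit 450933), .ofNat (nat_lit 408713), .ofNat (nat_lit 472275), .ofNat (nat_lit 387016), .ofNat (nat_lit 450283), .ofNat (nat_lit 408357), .ofNat (nat_lit 471624)⟩⟩, [⟨nat_lit 0, nat_lit 100, nat_lit 99, nat_lit 51, nat_lit 208783595⟩, ⟨nat_lit 4, nat_lit 100, nat_lit 100, nat_lit 55, nat_lit 491207621⟩]⟩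
noncomputable def p038_l36 : Lf2 := ⟨nat_lit 0, nat_lit 1, [nat_lit 19, nat_lit 5, nat_lit 5, nat_lit 20], false, nat_lit 240, nat_lit 272, nat_lit 0, nat_lit 160, ⟨nat_lit 294, nat_lit 0, nat_lit 706, nat_lit 6, nat_lit 83, nat_lit 706, nat_lit 172, nat_lit 706, nat_lit 88902, nat_lit 288, nat_lit 64067, nat_lit 277, nat_lit 53057328, nat_lit 0, nat_lit 0, nat_lit 3313722, false, false⟩,
 nat_lit 8760, nat_lit 0, nat_lit 0, nat_lit 0, nat_lit 4982, nat_lit 4820, nat_lit 1202, nat_lit 0, nat_lit 0, nat_lit 157, nat_lit 0, nat_lit 0, nat_lit 0, nat_lit 0, nat_lit 0, nat_lit 706000, nat_lit 0, nat_lit 0, [(nat_lit 6, [(nat_lit 6, nat_lit 706)])],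
 ⟨p038_k17, nat_lit 0, nat_lit 0, nat_lit 153, nat_lit 0, nat_lit 269262, [nat_lit 2068081067, nat_lit 1701948000], [], [nat_lit 16045662000, nat_lit 16100993250, nat_lit 15932012827, nat_lit 15987192963, nat_lit 17937611527, nat_lit 18013139931, nat_lit 17738467598, nat_lit 17813821963], nat_lit 1271250, nat_lit 1271250, nat_lit 134400, nat_lit 157850, nat_lit 1271250, nat_lit 1271250, [nat_lit 1100000, nat_lit 1442500], [nat_lit 31, nat_lit 40, nat_lit 20, nat_lit 80, nat_lit 3, nat_lit 215, nat_lit 10, nat_lit 8]⟩, ⟨p038_k18, nat_lit 0, nat_lit 0, nat_lit 275, nat_lit 0, nat_lit 279389, [nat_lit 1378272000, nat_lit 1837500000], [], [nat_lit 8655404853, nat_lit 8531018680, nat_lit 8156663643, nat_lit 8186216029, nat_lit 5638469248, nat_lit 5522707886, nat_lit 5654082051, nat_lit 5538480328], nat_lit 1271250, nat_lit 1271250, nat_lit 134400, nat_lit 157850, nat_lit 0, nat_lit 1100001, [nat_lit 1100000, nat_lit 1442500],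 [nat_lit 31, nat_lit 40, nat_lit 20, nat_lit 80, nat_lit 3, nat_lit 260, nat_lit 50, nat_lit 11]⟩,
 ⟨nat_lit 6000, nat_lit 6021, ⟨.ofNat (nat_lit 201628), .ofNat (nat_lit 209573), .ofNat (nat_lit 202695), .ofNat (nat_lit 210640), .ofNat (nat_lit 202438), .ofNat (nat_lit 210364), .ofNat (nat_lit 203505), .ofNat (nat_lit 211431)⟩, ⟨.ofNat (nat_lit 387371), .ofNat (nat_lit 450933), .ofNat (nat_lit 408713), .ofNat (nat_lit 472275), .ofNat (nat_lit 387194), .ofNat (nat_lit 450608), .ofNat (nat_lit 408535), .ofNat (nat_lit 471950)⟩⟩, [⟨nat_lit 0, nat_lit 100, nat_lit 99, nat_lit 51, nat_lit 1184599667⟩, ⟨nat_lit 16, nat_lit 100, nat_lit 97, nat_lit 62, nat_lit 53187778⟩, ⟨nat_lit 4, nat_lit 100, nat_lit 100, nat_lit 55, nat_lit 533595169⟩]⟩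
noncomputable def p038_l37 : Lf2 := ⟨nat_lit 0, nat_lit 1, [nat_lit 19, nat_lit 5, nat_lit 5, nat_lit 20], false, nat_lit 240, nat_lit 272, nat_lit 160, nat_lit 200, ⟨nat_lit 142, nat_lit 0, nat_lit 858, nat_lit 6, nat_lit 83, nat_lit 858, nat_lit 172, nat_lit 858, nat_lit 88902, nat_lit 288, nat_lit 64067, nat_lit 277, nat_lit 53057328, nat_lit 0, nat_lit 0, nat_lit 3313722, false, false⟩,
 nat_lit 7823, nat_lit 0, nat_lit 0, nat_lit 0, nat_lit 4449, nat_lit 4304, nat_lit 722, nat_lit 0, nat_lit 0, nat_lit 313, nat_lit 0, nat_lit 0, nat_lit 0, nat_lit 0, nat_lit 0, nat_lit 858000, nat_lit 0, nat_lit 0, [(nat_lit 6, [(nat_lit 6, nat_lit 858)])],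
 ⟨p038_k17, nat_lit 0, nat_lit 0, nat_lit 153, nat_lit 0, nat_lit 269262, [nat_lit 1504019201, nat_lit 722764000], [], [nat_lit 15651746295, nat_lit 15706393207, nat_lit 15557152671, nat_lit 15613457565, nat_lit 17569812116, nat_lit 17641144614, nat_lit 17401145999, nat_lit 17469714621], nat_lit 1271250, nat_lit 1271250, nat_lit 134400, nat_lit 157850, nat_lit 1271250, nat_lit 1271250, [nat_lit 1100000, nat_lit 1442500], [nat_lit 31, nat_lit 40, nat_lit 20, nat_lit 80, nat_lit 3, nat_lit 215, nat_lit 10, nat_lit 8]⟩, ⟨p038_k18, nat_lit 0, nat_lit 0, nat_lit 195, nat_lit 0, nat_lit 279389, [nat_lit 665696000, nat_lit 887500000], [], [nat_lit 2712005422, nat_lit 2600935279, nat_lit 2266656425, nat_lit 2155751297, nat_lit 2196272879, nat_lit 2246582422, nat_lit 1982071483, nat_lit 2032290495], nat_lit 1271250, nat_lit 1271250, nat_lit 134400, nat_lit 157850, nat_lit 1100001, nat_lit 1442500, [nat_lit 1100000, nat_lit 1442500],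 [nat_lit 31, nat_lit 40, nat_lit 20, nat_lit 80, nat_lit 3, nat_lit 272, nat_lit 60, nat_lit 10]⟩,
 ⟨nat_lit 6000, nat_lit 6021, ⟨.ofNat (nat_lit 201628), .ofNat (nat_lit 209573), .ofNat (nat_lit 202695), .ofNat (nat_lit 210640), .ofNat (nat_lit 202438), .ofNat (nat_lit 210364), .ofNat (nat_lit 203505), .ofNat (nat_lit 211431)⟩, ⟨.ofNat (nat_lit 387371), .ofNat (nat_lit 450933), .ofNat (nat_lit 408713), .ofNat (nat_lit 472275), .ofNat (nat_lit 387194), .ofNat (nat_lit 450608), .ofNat (nat_lit 408535), .ofNat (nat_lit 471950)⟩⟩, [⟨nat_lit 0, nat_lit 100, nat_lit 99, nat_lit 51, nat_lit 982829102⟩, ⟨nat_lit 4, nat_lit 100, nat_lit 100, nat_lit 55, nat_lit 530622674⟩]⟩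
noncomputable def p038_l38 : Lf2 := ⟨nat_lit 0, nat_lit 1, [nat_lit 19, nat_lit 5, nat_lit 5, nat_lit 20], false, nat_lit 240, nat_lit 272, nat_lit 200, nat_lit 240, ⟨nat_lit 1000, nat_lit 0, nat_lit 0, nat_lit 0, nat_lit 0, nat_lit 0, nat_lit 0, nat_lit 0, nat_lit 0, nat_lit 0, nat_lit 0, nat_lit 0, nat_lit 0, nat_lit 0, nat_lit 0, nat_lit 0, false, false⟩,
 nat_lit 17860, nat_lit 0, nat_lit 0, nat_lit 0, nat_lit 8380, nat_lit 9828, nat_lit 2036, nat_lit 0, nat_lit 0, nat_lit 2168, nat_lit 0, nat_lit 0, nat_lit 0, nat_lit 0, nat_lit 0, nat_lit 0, nat_lit 0, nat_lit 0, [],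
 ⟨p038_k17, nat_lit 0, nat_lit 0, nat_lit 153, nat_lit 0, nat_lit 269262, [nat_lit 4688000000, nat_lit 6250000000], [], [nat_lit 17312436386, nat_lit 17400229973, nat_lit 17028658001, nat_lit 17115385234, nat_lit 20282419029, nat_lit 20384697318, nat_lit 19906164209, nat_lit 20007586964], nat_lit 1271250, nat_lit 1271250, nat_lit 134400, nat_lit 157850, nat_lit 1271250, nat_lit 1271250, [nat_lit 1100000, nat_lit 1442500], [nat_lit 31, nat_lit 40, nat_lit 20, nat_lit 80, nat_lit 3, nat_lit 215, nat_lit 10, nat_lit 8]⟩, ⟨p038_k18, nat_lit 0, nat_lit 0, nat_lit 175, nat_lit 0, nat_lit 279389, [nat_lit 4688000000, nat_lit 6250000000], [], [nat_lit 13630488842, nat_lit 13738764407, nat_lit 13290423673, nat_lit 13398416876, nat_lit 16227857720, nat_lit 16340113285, nat_lit 15884600901, nat_lit 15981594152], nat_lit 1271250, nat_lit 1271250, nat_lit 134400, nat_lit 157850, nat_lit 1271250, nat_lit 1271250, [nat_lit 1100000, nat_lit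 1442500], [nat_lit 31, nat_lit 40, nat_lit 20, nat_lit 80, nat_lit 3, nat_lit 215, nat_lit 10, nat_lit 8]⟩,
 zbF0, [⟨nat_lit 0, nat_lit 100, nat_lit 99, nat_lit 51, nat_lit 1673222787⟩, ⟨nat_lit 16, nat_lit 100, nat_lit 100, nat_lit 55, nat_lit 923342152⟩, ⟨nat_lit 16, nat_lit 100, nat_lit 97, nat_lit 62, nat_lit 281024387⟩]⟩
noncomputable def p038_l39 : Lf2 := ⟨nat_lit 0, nat_lit 1, [nat_lit 19, nat_lit 5, nat_lit 5, nat_lit 20], true, nat_lit 240, nat_lit 268, nat_lit 240, nat_lit 268, ⟨nat_lit 0, nat_lit 0, nat_lit 1000, nat_lit 6, nat_lit 83, nat_lit 1000, nat_lit 170, nat_lit 1000, nat_lit 121740, nat_lit 300, nat_lit 64067, nat_lit 277, nat_lit 53208209, nat_lit 0, nat_lit 0, nat_lit 3294642, false, false⟩,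
 nat_lit 0, nat_lit 7204, nat_lit 0, nat_lit 0, nat_lit 4097, nat_lit 0, nat_lit 73, nat_lit 0, nat_lit 0, nat_lit 0, nat_lit 0, nat_lit 0, nat_lit 0, nat_lit 0, nat_lit 10, nat_lit 1000000, nat_lit 0, nat_lit 0, [(nat_lit 6, [(nat_lit 6, nat_lit 1000)])],
 ⟨p038_k17, nat_lit 0, nat_lit 0, nat_lit 151, nat_lit 0, nat_lit 269262, [nat_lit 1137066667, nat_lit 8000000], [], [nat_lit 15174488223, nat_lit 15227471747, nat_lit 15092552510, nat_lit 15147106223, nat_lit 17020956317, nat_lit 17090341239, nat_lit 16868625337, nat_lit 16937899905], nat_lit 1271250, nat_lit 1271250, nat_lit 134400, nat_lit 157850, nat_lit 1271250, nat_lit 1271250, [nat_lit 1100000, nat_lit 1442500], [nat_lit 31, nat_lit 40, nat_lit 20, nat_lit 80, nat_lit 3, nat_lit 215, nat_lit 10, nat_lit 8]⟩, C1.Rw.none,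
 ⟨nat_lit 6000, nat_lit 6021, ⟨.ofNat (nat_lit 201628), .ofNat (nat_lit 209573), .ofNat (nat_lit 202695), .ofNat (nat_lit 210640), .ofNat (nat_lit 202438), .ofNat (nat_lit 210364), .ofNat (nat_lit 203505), .ofNat (nat_lit 211431)⟩, ⟨.ofNat (nat_lit 387371), .ofNat (nat_lit 442988), .ofNat (nat_lit 408713), .ofNat (nat_lit 464330), .ofNat (nat_lit 387194), .ofNat (nat_lit 442681), .ofNat (nat_lit 408535), .ofNat (nat_lit 464023)⟩⟩, [⟨nat_lit 0, nat_lit 100, nat_lit 99, nat_lit 52, nat_lit 303824783⟩, ⟨nat_lit 16, nat_lit 100, nat_lit 100, nat_lit 55, nat_lit 505853843⟩]⟩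
noncomputable def p038_l40 : Lf2 := ⟨nat_lit 0, nat_lit 1, [nat_lit 19, nat_lit 5, nat_lit 5, nat_lit 20], true, nat_lit 240, nat_lit 272, nat_lit 0, nat_lit 268, ⟨nat_lit 0, nat_lit 0, nat_lit 1000, nat_lit 6, nat_lit 83, nat_lit 1000, nat_lit 172, nat_lit 1000, nat_lit 92686, nat_lit 289, nat_lit 64067, nat_lit 277, nat_lit 53047076, nat_lit 0, nat_lit 0, nat_lit 3317202, false, false⟩,
 nat_lit 0, nat_lit 7061, nat_lit 0, nat_lit 0, nat_lit 4034, nat_lit 0, nat_lit 59, nat_lit 0, nat_lit 0, nat_lit 0, nat_lit 0, nat_lit 0, nat_lit 0, nat_lit 0, nat_lit 10, nat_lit 1000000, nat_lit 0, nat_lit 0, [(nat_lit 6, [(nat_lit 6, nat_lit 1000)])],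
 ⟨p038_k19, nat_lit 0, nat_lit 0, nat_lit 154, nat_lit 0, nat_lit 272420, [nat_lit 1137066667, nat_lit 8000000], [], [nat_lit 15332032133, nat_lit 15384719719, nat_lit 15252264986, nat_lit 15306458227, nat_lit 17351504733, nat_lit 17419570249, nat_lit 17201788643, nat_lit 17269747390], nat_lit 1271250, nat_lit 1271250, nat_lit 134400, nat_lit 157850, nat_lit 1271250, nat_lit 1271250, [nat_lit 1100000, nat_lit 1442500], [nat_lit 31, nat_lit 40, nat_lit 20, nat_lit 80, nat_lit 3, nat_lit 215, nat_lit 10, nat_lit 7]⟩, C1.Rw.none,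
 ⟨nat_lit 5979, nat_lit 6000, ⟨.ofNat (nat_lit 202438), .ofNat (nat_lit 210364), .ofNat (nat_lit 203505), .ofNat (nat_lit 211431), .ofNat (nat_lit 203246), .ofNat (nat_lit 211155), .ofNat (nat_lit 204313), .ofNat (nat_lit 212222)⟩, ⟨.ofNat (nat_lit 387194), .ofNat (nat_lit 450608), .ofNat (nat_lit 408535), .ofNat (nat_lit 471950), .ofNat (nat_lit 387016), .ofNat (nat_lit 450283), .ofNat (nat_lit 408357), .ofNat (nat_lit 471624)⟩⟩, [⟨nat_lit 0, nat_lit 100, nat_lit 99, nat_lit 52, nat_lit 299985527⟩, ⟨nat_lit 4, nat_lit 100, nat_lit 99, nat_lit 55, nat_lit 497550936⟩]⟩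
noncomputable def p038_l41 : Lf2 := ⟨nat_lit 0, nat_lit 1, [nat_lit 19, nat_lit 5, nat_lit 5, nat_lit 20], true, nat_lit 240, nat_lit 272, nat_lit 0, nat_lit 276, ⟨nat_lit 0, nat_lit 0, nat_lit 1000, nat_lit 6, nat_lit 86, nat_lit 1000, nat_lit 172, nat_lit 1000, nat_lit 88902, nat_lit 288, nat_lit 68267, nat_lit 279, nat_lit 52854269, nat_lit 0, nat_lit 0, nat_lit 3361697, false, false⟩,
 nat_lit 0, nat_lit 7117, nat_lit 0, nat_lit 0, nat_lit 4047, nat_lit 0, nat_lit 70, nat_lit 0, nat_lit 0, nat_lit 0, nat_lit 0, nat_lit 0, nat_lit 0, nat_lit 0, nat_lit 10, nat_lit 1000000, nat_lit 0, nat_lit 0, [(nat_lit 6, [(nat_lit 6, nat_lit 1000)])],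
 ⟨p038_k17, nat_lit 0, nat_lit 0, nat_lit 151, nat_lit 0, nat_lit 273840, [nat_lit 1137066667, nat_lit 8000000], [], [nat_lit 15176297935, nat_lit 15284833182, nat_lit 15097863952, nat_lit 15206107173, nat_lit 17142120575, nat_lit 17278242434, nat_lit 16991831216, nat_lit 17127739224], nat_lit 1271250, nat_lit 1271250, nat_lit 157850, nat_lit 181601, nat_lit 1271250, nat_lit 1271250, [nat_lit 1100000, nat_lit 1442500], [nat_lit 31, nat_lit 40, nat_lit 20, nat_lit 80, nat_lit 3, nat_lit 215, nat_lit 10, nat_lit 7]⟩, C1.Rw.none,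
 ⟨nat_lit 5979, nat_lit 6021, ⟨.ofNat (nat_lit 209573), .ofNat (nat_lit 217518), .ofNat (nat_lit 210640), .ofNat (nat_lit 218585), .ofNat (nat_lit 211155), .ofNat (nat_lit 219063), .ofNat (nat_lit 212222), .ofNat (nat_lit 220130)⟩, ⟨.ofNat (nat_lit 387371), .ofNat (nat_lit 450933), .ofNat (nat_lit 408713), .ofNat (nat_lit 472275), .ofNat (nat_lit 387016), .ofNat (nat_lit 450283), .ofNat (nat_lit 408357), .ofNat (nat_lit 471624)⟩⟩, [⟨nat_lit 4, nat_lit 100, nat_lit 100, nat_lit 55, nat_lit 496904668⟩]⟩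
noncomputable def p038_l42 : Lf2 := ⟨nat_lit 0, nat_lit 1, [nat_lit 19, nat_lit 5, nat_lit 5, nat_lit 20], false, nat_lit 240, nat_lit 272, nat_lit 0, nat_lit 160, ⟨nat_lit 347, nat_lit 0, nat_lit 653, nat_lit 6, nat_lit 85, nat_lit 653, nat_lit 172, nat_lit 653, nat_lit 88902, nat_lit 288, nat_lit 68267, nat_lit 279, nat_lit 52926953, nat_lit 0, nat_lit 0, nat_lit 3344841, false, false⟩,
 nat_lit 9482, nat_lit 0, nat_lit 0, nat_lit 0, nat_lit 5392, nat_lit 5242, nat_lit 528, nat_lit 0, nat_lit 0, nat_lit 1124, nat_lit 0, nat_lit 0, nat_lit 0, nat_lit 0, nat_lit 0, nat_lit 653000, nat_lit 0, nat_lit 0, [(nat_lit 6, [(nat_lit 6, nat_lit 653)])],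
 ⟨p038_k17, nat_lit 0, nat_lit 0, nat_lit 156, nat_lit 0, nat_lit 277988, [nat_lit 2264760534, nat_lit 2043374000], [], [nat_lit 16345166382, nat_lit 16459978557, nat_lit 16088551807, nat_lit 16202728004, nat_lit 18226347633, nat_lit 18378046198, nat_lit 17959211709, nat_lit 18063838191], nat_lit 1271250, nat_lit 1271250, nat_lit 134400, nat_lit 181601, nat_lit 1271250, nat_lit 1271250, [nat_lit 1100000, nat_lit 1442500], [nat_lit 31, nat_lit 40, nat_lit 20, nat_lit 80, nat_lit 3, nat_lit 215, nat_lit 10, nat_lit 8]⟩, ⟨p038_k20, nat_lit 0, nat_lit 0, nat_lit 275, nat_lit 0, nat_lit 286909, [nat_lit 1626736000, nat_lit 2168750000], [], [nat_lit 9887653506, nat_lit 9752377091, nat_lit 8803241595, nat_lit 8824301781, nat_lit 6407311589, nat_lit 6281415104, nat_lit 6453461371, nat_lit 6327912116], nat_lit 1271250, nat_lit 1271250, nat_lit 134400, nat_lit 181601, nat_lit 0, nat_lit 1100001, [nat_lit 1100000, nat_lit 1442500],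 [nat_lit 31, nat_lit 40, nat_lit 20, nat_lit 80, nat_lit 3, nat_lit 260, nat_lit 50, nat_lit 11]⟩,
 ⟨nat_lit 5979, nat_lit 6021, ⟨.ofNat (nat_lit 202695), .ofNat (nat_lit 218585), .ofNat (nat_lit 203762), .ofNat (nat_lit 219652), .ofNat (nat_lit 204313), .ofNat (nat_lit 220130), .ofNat (nat_lit 205380), .ofNat (nat_lit 221197)⟩, ⟨.ofNat (nat_lit 387371), .ofNat (nat_lit 450933), .ofNat (nat_lit 408713), .ofNat (nat_lit 472275), .ofNat (nat_lit 387016), .ofNat (nat_lit 450283), .ofNat (nat_lit 408357), .ofNat (nat_lit 471624)⟩⟩, [⟨nat_lit 0, nat_lit 100, nat_lit 99, nat_lit 52, nat_lit 1189994458⟩, ⟨nat_lit 16, nat_lit 100, nat_lit 97, nat_lit 62, nat_lit 67655955⟩, ⟨nat_lit 4, nat_lit 100, nat_lit 100, nat_lit 55, nat_lit 561055798⟩]⟩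
noncomputable def p038_l43 : Lf2 := ⟨nat_lit 0, nat_lit 1, [nat_lit 19, nat_lit 5, nat_lit 5, nat_lit 20], false, nat_lit 240, nat_lit 272, nat_lit 160, nat_lit 200, ⟨nat_lit 203, nat_lit 0, nat_lit 797, nat_lit 6, nat_lit 85, nat_lit 797, nat_lit 172, nat_lit 797, nat_lit 88902, nat_lit 288, nat_lit 68267, nat_lit 279, nat_lit 52926953, nat_lit 0, nat_lit 0, nat_lit 3344841, false, false⟩,
 nat_lit 8648, nat_lit 0, nat_lit 0, nat_lit 0, nat_lit 4918, nat_lit 4781, nat_lit 0, nat_lit 0, nat_lit 0, nat_lit 1324, nat_lit 0, nat_lit 0, nat_lit 0, nat_lit 0, nat_lit 0, nat_lit 797000, nat_lit 0, nat_lit 0, [(nat_lit 6, [(nat_lit 6, nat_lit 797)])],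
 ⟨p038_k17, nat_lit 0, nat_lit 0, nat_lit 156, nat_lit 0, nat_lit 277988, [nat_lit 1730386134, nat_lit 1115726000], [], [nat_lit 15967826151, nat_lit 16077840896, nat_lit 15745103997, nat_lit 15854519207, nat_lit 17893447996, nat_lit 18043497156, nat_lit 17538340658, nat_lit 17657069262], nat_lit 1271250, nat_lit 1271250, nat_lit 134400, nat_lit 181601, nat_lit 1271250, nat_lit 1271250, [nat_lit 1100000, nat_lit 1442500], [nat_lit 31, nat_lit 40, nat_lit 20, nat_lit 80, nat_lit 3, nat_lit 215, nat_lit 10, nat_lit 8]⟩, ⟨p038_k20, nat_lit 0, nat_lit 0, nat_lit 195, nat_lit 0, nat_lit 286909, [nat_lit 951664000, nat_lit 1268750000], [], [nat_lit 3912332143, nat_lit 3788952414, nat_lit 2923287247, nat_lit 2800274125, nat_lit 3024571358, nat_lit 3082252287, nat_lit 2554417245, nat_lit 2611890944], nat_lit 1271250, nat_lit 1271250, nat_lit 134400, nat_lit 181601, nat_lit 1100001, nat_lit 1442500, [nat_lit 1100000, nat_lit 1442500],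 [nat_lit 31, nat_lit 40, nat_lit 20, nat_lit 80, nat_lit 3, nat_lit 272, nat_lit 60, nat_lit 10]⟩,
 ⟨nat_lit 5979, nat_lit 6021, ⟨.ofNat (nat_lit 202695), .ofNat (nat_lit 218585), .ofNat (nat_lit 203762), .ofNat (nat_lit 219652), .ofNat (nat_lit 204313), .ofNat (nat_lit 220130), .ofNat (nat_lit 205380), .ofNat (nat_lit 221197)⟩, ⟨.ofNat (nat_lit 387371), .ofNat (nat_lit 450933), .ofNat (nat_lit 408713), .ofNat (nat_lit 472275), .ofNat (nat_lit 387016), .ofNat (nat_lit 450283), .ofNat (nat_lit 408357), .ofNat (nat_lit 471624)⟩⟩, [⟨nat_lit 0, nat_lit 100, nat_lit 99, nat_lit 52, nat_lit 1009100266⟩, ⟨nat_lit 4, nat_lit 100, nat_lit 100, nat_lit 55, nat_lit 582595062⟩]⟩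
noncomputable def p038_l44 : Lf2 := ⟨nat_lit 0, nat_lit 1, [nat_lit 19, nat_lit 5, nat_lit 5, nat_lit 20], false, nat_lit 240, nat_lit 272, nat_lit 200, nat_lit 240, ⟨nat_lit 1000, nat_lit 0, nat_lit 0, nat_lit 0, nat_lit 0, nat_lit 0, nat_lit 0, nat_lit 0, nat_lit 0, nat_lit 0, nat_lit 0, nat_lit 0, nat_lit 0, nat_lit 0, nat_lit 0, nat_lit 0, false, false⟩,
 nat_lit 17402, nat_lit 0, nat_lit 0, nat_lit 0, nat_lit 8433, nat_lit 9621, nat_lit 1802, nat_lit 0, nat_lit 0, nat_lit 2412, nat_lit 0, nat_lit 0, nat_lit 0, nat_lit 0, nat_lit 0, nat_lit 0, nat_lit 0, nat_lit 0, [],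
 ⟨p038_k17, nat_lit 0, nat_lit 0, nat_lit 156, nat_lit 0, nat_lit 277988, [nat_lit 4688000000, nat_lit 6250000000], [], [nat_lit 17422615666, nat_lit 17598894368, nat_lit 16849769791, nat_lit 17024343634, nat_lit 20319971175, nat_lit 20524382989, nat_lit 19731346412, nat_lit 19889467564], nat_lit 1271250, nat_lit 1271250, nat_lit 134400, nat_lit 181601, nat_lit 1271250, nat_lit 1271250, [nat_lit 1100000, nat_lit 1442500], [nat_lit 31, nat_lit 40, nat_lit 20, nat_lit 80, nat_lit 3, nat_lit 215, nat_lit 10, nat_lit 8]⟩, ⟨p038_k20, nat_lit 0, nat_lit 0, nat_lit 175, nat_lit 0, nat_lit 286909, [nat_lit 4688000000, nat_lit 6250000000], [], [nat_lit 13731916888, nat_lit 13838639104, nat_lit 13068376081, nat_lit 13174542765, nat_lit 16289555947, nat_lit 16396437437, nat_lit 15619758751, nat_lit 15715162561], nat_lit 1271250, nat_lit 1271250, nat_lit 134400, nat_lit 181601, nat_lit 1271250, nat_lit 1271250, [nat_lit 1100000, nat_lit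 1442500], [nat_lit 31, nat_lit 40, nat_lit 20, nat_lit 80, nat_lit 3, nat_lit 215, nat_lit 10, nat_lit 8]⟩,
 zbF0, [⟨nat_lit 0, nat_lit 100, nat_lit 99, nat_lit 52, nat_lit 1554036402⟩, ⟨nat_lit 16, nat_lit 100, nat_lit 97, nat_lit 62, nat_lit 601796416⟩, ⟨nat_lit 4, nat_lit 100, nat_lit 100, nat_lit 55, nat_lit 562892926⟩]⟩
noncomputable def p038_l45 : Lf2 := ⟨nat_lit 0, nat_lit 1, [nat_lit 19, nat_lit 5, nat_lit 5, nat_lit 20], false, nat_lit 240, nat_lit 272, nat_lit 240, nat_lit 276, ⟨nat_lit 884, nat_lit 0, nat_lit 116, nat_lit 6, nat_lit 85, nat_lit 116, nat_lit 172, nat_lit 116, nat_lit 88902, nat_lit 288, nat_lit 68267, nat_lit 279, nat_lit 52926953, nat_lit 0, nat_lit 0, nat_lit 3344841, false, false⟩,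
 nat_lit 14427, nat_lit 0, nat_lit 0, nat_lit 0, nat_lit 8205, nat_lit 7976, nat_lit 2354, nat_lit 0, nat_lit 0, nat_lit 1081, nat_lit 0, nat_lit 0, nat_lit 0, nat_lit 0, nat_lit 0, nat_lit 29000, nat_lit 0, nat_lit 0, [(nat_lit 6, [(nat_lit 4, nat_lit 116)])],
 ⟨p038_k17, nat_lit 0, nat_lit 0, nat_lit 156, nat_lit 0, nat_lit 277988, [nat_lit 4475302400, nat_lit 5535347200], [], [nat_lit 16515293514, nat_lit 16698716609, nat_lit 15961771093, nat_lit 16133072236, nat_lit 20161659372, nat_lit 20363460664, nat_lit 19426065538, nat_lit 19627238945], nat_lit 1271250, nat_lit 1271250, nat_lit 134400, nat_lit 181601, nat_lit 1271250, nat_lit 1271250, [nat_lit 1100000, nat_lit 1442500], [nat_lit 31, nat_lit 40, nat_lit 20, nat_lit 80, nat_lit 3, nat_lit 215, nat_lit 10, nat_lit 8]⟩, ⟨p038_k20, nat_lit 0, nat_lit 0, nat_lit 158, nat_lit 0, nat_lit 286909, [nat_lit 4144192000, nat_lit 5525000000], [], [nat_lit 15156996471, nat_lit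 15238312076, nat_lit 14608874409, nat_lit 14689780633, nat_lit 18221386668, nat_lit 18293522553, nat_lit 17657189194, nat_lit 17728987443], nat_lit 1271250, nat_lit 1271250, nat_lit 134400, nat_lit 181601, nat_lit 1271250, nat_lit 1271250, [nat_lit 1100000, nat_lit 1442500], [nat_lit 31, nat_lit 40, nat_lit 20, nat_lit 80, nat_lit 3, nat_lit 215, nat_lit 10, nat_lit 8]⟩,
 ⟨nat_lit 5979, nat_lit 6021, ⟨.ofNat (nat_lit 202695), .ofNat (nat_lit 218585), .ofNat (nat_lit 203762), .ofNat (nat_lit 219652), .ofNat (nat_lit 204313), .ofNat (nat_lit 220130), .ofNat (nat_lit 205380), .ofNat (nat_lit 221197)⟩, ⟨.ofNat (nat_lit 387371), .ofNat (nat_lit 450933), .ofNat (nat_lit 408713), .ofNat (nat_lit 472275), .ofNat (nat_lit 387016), .ofNat (nat_lit 450283), .ofNat (nat_lit 408357), .ofNat (nat_lit 471624)⟩⟩, [⟨nat_lit 0, nat_lit 100, nat_lit 99, nat_lit 53, nat_lit 553482370⟩, ⟨nat_lit 4, nat_lit 100, nat_lit 100, nat_lit 55, nat_lit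 604122222⟩, ⟨nat_lit 7, nat_lit 98, nat_lit 100, nat_lit 54, nat_lit 336924081⟩, ⟨nat_lit 11, nat_lit 99, nat_lit 100, nat_lit 53, nat_lit 842044291⟩]⟩
noncomputable def p038_l46 : Lf2 := ⟨nat_lit 0, nat_lit 1, [nat_lit 19, nat_lit 5, nat_lit 5, nat_lit 20], true, nat_lit 240, nat_lit 272, nat_lit 0, nat_lit 276, ⟨nat_lit 0, nat_lit 0, nat_lit 1000, nat_lit 6, nat_lit 84, nat_lit 1000, nat_lit 172, nat_lit 1000, nat_lit 91744, nat_lit 289, nat_lit 66150, nat_lit 278, nat_lit 52964994, nat_lit 0, nat_lit 0, nat_lit 3337510, false, false⟩,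
 nat_lit 0, nat_lit 6935, nat_lit 0, nat_lit 0, nat_lit 3981, nat_lit 0, nat_lit 49, nat_lit 0, nat_lit 0, nat_lit 0, nat_lit 0, nat_lit 0, nat_lit 0, nat_lit 0, nat_lit 10, nat_lit 1000000, nat_lit 0, nat_lit 0, [(nat_lit 6, [(nat_lit 6, nat_lit 1000)])],
 ⟨p038_k21, nat_lit 0, nat_lit 0, nat_lit 157, nat_lit 0, nat_lit 279624, [nat_lit 1137066667, nat_lit 8000000], [], [nat_lit 15471079687, nat_lit 15525024135, nat_lit 15318254179, nat_lit 15371999574, nat_lit 17382162867, nat_lit 17449811154, nat_lit 17088064625, nat_lit 17155500650], nat_lit 1271250, nat_lit 1271250, nat_lit 134400, nat_lit 181601, nat_lit 1271250, nat_lit 1271250, [nat_lit 1100000, nat_lit 1442500], [nat_lit 31, nat_lit 40, nat_lit 20, nat_lit 80, nat_lit 3, nat_lit 215, nat_lit 10, nat_lit 7]⟩, C1.Rw.none,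
 ⟨nat_lit 5958, nat_lit 5980, ⟨.ofNat (nat_lit 200045), .ofNat (nat_lit 215862), .ofNat (nat_lit 205380), .ofNat (nat_lit 221197), .ofNat (nat_lit 200853), .ofNat (nat_lit 216633), .ofNat (nat_lit 206188), .ofNat (nat_lit 221968)⟩, ⟨.ofNat (nat_lit 387016), .ofNat (nat_lit 450283), .ofNat (nat_lit 408357), .ofNat (nat_lit 471624), .ofNat (nat_lit 386838), .ofNat (nat_lit 449958), .ofNat (nat_lit 408178), .ofNat (nat_lit 471298)⟩⟩, [⟨nat_lit 0, nat_lit 100, nat_lit 99, nat_lit 54, nat_lit 206882519⟩, ⟨nat_lit 4, nat_lit 100, nat_lit 99, nat_lit 55, nat_lit 487632706⟩]⟩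
noncomputable def p038_l47 : Lf2 := ⟨nat_lit 0, nat_lit 1, [nat_lit 19, nat_lit 5, nat_lit 5, nat_lit 20], true, nat_lit 240, nat_lit 272, nat_lit 0, nat_lit 276, ⟨nat_lit 0, nat_lit 0, nat_lit 1000, nat_lit 6, nat_lit 85, nat_lit 1000, nat_lit 172, nat_lit 1000, nat_lit 95515, nat_lit 290, nat_lit 68267, nat_lit 279, nat_lit 52949801, nat_lit 0, nat_lit 0, nat_lit 3342591, false, false⟩,
 nat_lit 0, nat_lit 6853, nat_lit 0, nat_lit 0, nat_lit 3952, nat_lit 0, nat_lit 40, nat_lit 0, nat_lit 0, nat_lit 0, nat_lit 0, nat_lit 0, nat_lit 0, nat_lit 0, nat_lit 10, nat_lit 1000000, nat_lit 0, nat_lit 0, [(nat_lit 6, [(nat_lit 6, nat_lit 1000)])],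
 ⟨p038_k22, nat_lit 0, nat_lit 0, nat_lit 160, nat_lit 0, nat_lit 287247, [nat_lit 1137066667, nat_lit 8000000], [], [nat_lit 15572135712, nat_lit 15679797869, nat_lit 15421110983, nat_lit 15528271162, nat_lit 17429114669, nat_lit 17563954653, nat_lit 17153314051, nat_lit 17272257130], nat_lit 1271250, nat_lit 1271250, nat_lit 134400, nat_lit 181601, nat_lit 1271250, nat_lit 1271250, [nat_lit 1100000, nat_lit 1442500], [nat_lit 31, nat_lit 40, nat_lit 20, nat_lit 80, nat_lit 3, nat_lit 215, nat_lit 10, nat_lit 7]⟩, C1.Rw.none,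
 ⟨nat_lit 5916, nat_lit 5959, ⟨.ofNat (nat_lit 200853), .ofNat (nat_lit 216633), .ofNat (nat_lit 206188), .ofNat (nat_lit 221968), .ofNat (nat_lit 202464), .ofNat (nat_lit 218171), .ofNat (nat_lit 207799), .ofNat (nat_lit 223506)⟩, ⟨.ofNat (nat_lit 386838), .ofNat (nat_lit 449958), .ofNat (nat_lit 408178), .ofNat (nat_lit 471298), .ofNat (nat_lit 386479), .ofNat (nat_lit 449305), .ofNat (nat_lit 407818), .ofNat (nat_lit 470645)⟩⟩, [⟨nat_lit 0, nat_lit 100, nat_lit 98, nat_lit 53, nat_lit 208103807⟩, ⟨nat_lit 4, nat_lit 100, nat_lit 99, nat_lit 54, nat_lit 481200574⟩]⟩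
noncomputable def p038_l48 : Lf2 := ⟨nat_lit 0, nat_lit 1, [nat_lit 19, nat_lit 5, nat_lit 5, nat_lit 20], true, nat_lit 240, nat_lit 272, nat_lit 0, nat_lit 284, ⟨nat_lit 0, nat_lit 0, nat_lit 1000, nat_lit 6, nat_lit 91, nat_lit 1000, nat_lit 172, nat_lit 1000, nat_lit 88902, nat_lit 288, nat_lit 77067, nat_lit 283, nat_lit 52564482, nat_lit 0, nat_lit 0, nat_lit 3428941, false, false⟩,
 nat_lit 0, nat_lit 7187, nat_lit 0, nat_lit 0, nat_lit 4087, nat_lit 0, nat_lit 69, nat_lit 0, nat_lit 0, nat_lit 0, nat_lit 0, nat_lit 0, nat_lit 0, nat_lit 0, nat_lit 10, nat_lit 1000000, nat_lit 0, nat_lit 0, [(nat_lit 6, [(nat_lit 6, nat_lit 1000)])],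
 ⟨p038_k17, nat_lit 0, nat_lit 0, nat_lit 155, nat_lit 0, nat_lit 291744, [nat_lit 1137066667, nat_lit 8000000], [], [nat_lit 15029651247, nat_lit 15301188148, nat_lit 14869716966, nat_lit 15139996304, nat_lit 17015248573, nat_lit 17356588228, nat_lit 16710485005, nat_lit 17050750589], nat_lit 1271250, nat_lit 1271250, nat_lit 181601, nat_lit 230001, nat_lit 1271250, nat_lit 1271250, [nat_lit 1100000, nat_lit 1442500], [nat_lit 31, nat_lit 40, nat_lit 20, nat_lit 80, nat_lit 3, nat_lit 215, nat_lit 10, nat_lit 7]⟩, C1.Rw.none,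
 ⟨nat_lit 5916, nat_lit 6021, ⟨.ofNat (nat_lit 214317), .ofNat (nat_lit 230207), .ofNat (nat_lit 219652), .ofNat (nat_lit 235543), .ofNat (nat_lit 218171), .ofNat (nat_lit 233878), .ofNat (nat_lit 223506), .ofNat (nat_lit 239212)⟩, ⟨.ofNat (nat_lit 387371), .ofNat (nat_lit 450933), .ofNat (nat_lit 408713), .ofNat (nat_lit 472275), .ofNat (nat_lit 386479), .ofNat (nat_lit 449305), .ofNat (nat_lit 407818), .ofNat (nat_lit 470645)⟩⟩, [⟨nat_lit 4, nat_lit 100, nat_lit 99, nat_lit 55, nat_lit 507525192⟩]⟩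
noncomputable def p038_l49 : Lf2 := ⟨nat_lit 0, nat_lit 2, [nat_lit 10, nat_lit 5, nat_lit 5, nat_lit 20], true, nat_lit 240, nat_lit 272, nat_lit 0, nat_lit 288, ⟨nat_lit 0, nat_lit 0, nat_lit 1000, nat_lit 6, nat_lit 85, nat_lit 1000, nat_lit 172, nat_lit 1000, nat_lit 88902, nat_lit 288, nat_lit 68267, nat_lit 279, nat_lit 52933070, nat_lit 0, nat_lit 0, nat_lit 3344956, false, false⟩,
 nat_lit 0, nat_lit 7029, nat_lit 0, nat_lit 0, nat_lit 3997, nat_lit 0, nat_lit 8, nat_lit 0, nat_lit 0, nat_lit 0, nat_lit 0, nat_lit 0, nat_lit 0, nat_lit 0, nat_lit 80, nat_lit 1000000, nat_lit 0, nat_lit 0, [(nat_lit 6, [(nat_lit 6, nat_lit 1000)])],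
 ⟨p038_k23, nat_lit 0, nat_lit 0, nat_lit 191, nat_lit 0, nat_lit 250271, [nat_lit 2257066667, nat_lit 1408000000, nat_lit 211200000], [], [nat_lit 15453052768, nat_lit 15705446571, nat_lit 15060883041, nat_lit 15309972285, nat_lit 17405581003, nat_lit 17744983839, nat_lit 16773631965, nat_lit 17020891839], nat_lit 1271250, nat_lit 1271250, nat_lit 111251, nat_lit 230001, nat_lit 1271250, nat_lit 1271250, [nat_lit 1100000, nat_lit 1442500, nat_lit 1271250], [nat_lit 9, nat_lit 40, nat_lit 20, nat_lit 80, nat_lit 2, nat_lit 215, nat_lit 10, nat_lit 7]⟩, C1.Rw.none,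
 ⟨nat_lit 5916, nat_lit 6021, ⟨.ofNat (nat_lit 185145), .ofNat (nat_lit 224872), .ofNat (nat_lit 195817), .ofNat (nat_lit 235543), .ofNat (nat_lit 189276), .ofNat (nat_lit 228543), .ofNat (nat_lit 199946), .ofNat (nat_lit 239212)⟩, ⟨.ofNat (nat_lit 387371), .ofNat (nat_lit 450933), .ofNat (nat_lit 408713), .ofNat (nat_lit 472275), .ofNat (nat_lit 386479), .ofNat (nat_lit 449305), .ofNat (nat_lit 407818), .ofNat (nat_lit 470645)⟩⟩, [⟨nat_lit 0, nat_lit 100, nat_lit 98, nat_lit 51, nat_lit 212748013⟩, ⟨nat_lit 4, nat_lit 100, nat_lit 99, nat_lit 55, nat_lit 498030354⟩]⟩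
noncomputable def p038_l50 : Lf2 := ⟨nat_lit 0, nat_lit 2, [nat_lit 10, nat_lit 5, nat_lit 5, nat_lit 20], true, nat_lit 240, nat_lit 272, nat_lit 0, nat_lit 288, ⟨nat_lit 0, nat_lit 0, nat_lit 1000, nat_lit 6, nat_lit 109, nat_lit 1000, nat_lit 172, nat_lit 1000, nat_lit 88902, nat_lit 288, nat_lit 109350, nat_lit 296, nat_lit 51372109, nat_lit 0, nat_lit 0, nat_lit 3679027, false, false⟩,
 nat_lit 0, nat_lit 7361, nat_lit 0, nat_lit 0, nat_lit 4186, nat_lit 0, nat_lit 70, nat_lit 0, nat_lit 0, nat_lit 0, nat_lit 0, nat_lit 0, nat_lit 0, nat_lit 0, nat_lit 80, nat_lit 1000000, nat_lit 0, nat_lit 0, [(nat_lit 6, [(nat_lit 6, nat_lit 1000)])],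
 ⟨p038_k23, nat_lit 0, nat_lit 0, nat_lit 191, nat_lit 0, nat_lit 296261, [nat_lit 2257066667, nat_lit 1408000000, nat_lit 211200000], [], [nat_lit 14693301391, nat_lit 14966380994, nat_lit 14451333383, nat_lit 14714202538, nat_lit 16758085463, nat_lit 17102223976, nat_lit 16164427119, nat_lit 16407165418], nat_lit 1271250, nat_lit 1271250, nat_lit 230001, nat_lit 490000, nat_lit 1271250, nat_lit 1271250, [nat_lit 1100000, nat_lit 1442500, nat_lit 1271250], [nat_lit 9, nat_lit 40, nat_lit 20, nat_lit 80, nat_lit 2, nat_lit 226, nat_lit 20, nat_lit 7]⟩, C1.Rw.none,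
 ⟨nat_lit 5916, nat_lit 6021, ⟨.ofNat (nat_lit 224872), .ofNat (nat_lit 304325), .ofNat (nat_lit 235543), .ofNat (nat_lit 314996), .ofNat (nat_lit 228543), .ofNat (nat_lit 307076), .ofNat (nat_lit 239212), .ofNat (nat_lit 317746)⟩, ⟨.ofNat (nat_lit 387371), .ofNat (nat_lit 450933), .ofNat (nat_lit 408713), .ofNat (nat_lit 472275), .ofNat (nat_lit 386479), .ofNat (nat_lit 449305), .ofNat (nat_lit 407818), .ofNat (nat_lit 470645)⟩⟩, [⟨nat_lit 16, nat_lit 99, nat_lit 100, nat_lit 55, nat_lit 530206264⟩]⟩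
noncomputable def b_VL_600_600_5_72 : St := ⟨true, nat_lit 1, nat_lit 1, nat_lit 1, nat_lit 40, nat_lit 255, nat_lit 260, nat_lit 240, nat_lit 250, nat_lit 20, nat_lit 80, nat_lit 20, nat_lit 40, nat_lit 240, nat_lit 272, nat_lit 0, nat_lit 288, nat_lit 0, nat_lit 8, nat_lit 0, nat_lit 0, nat_lit 0, nat_lit 0⟩
theorem d_VL_600_600_5_72 (h : EB TB.env) : Dead b_VL_600_600_5_72 := chkB_sound0 h (T :=
(.spl (nat_lit 2) (nat_lit 40)
(.spl (nat_lit 6) (nat_lit 4)
(.spl (nat_lit 1) (nat_lit 245)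
(.leaf p038_l34)
(.trZ (nat_lit 0) (nat_lit 100) (nat_lit 99) (nat_lit 50) (nat_lit 24) (.trX (nat_lit 19) (nat_lit 100) (nat_lit 94) (nat_lit 62) (nat_lit 284) (.spl (nat_lit 2) (nat_lit 32)
(.trX (nat_lit 23) (nat_lit 100) (nat_lit 95) (nat_lit 55) (nat_lit 276) (.spl (nat_lit 0) (nat_lit 258)
(.spl (nat_lit 0) (nat_lit 257)
(.spl (nat_lit 1) (nat_lit 248)
(.leaf p038_l35)
(.spl (nat_lit 1) (nat_lit 249)
(.spl (nat_lit 2) (nat_lit 28)
(.trX (nat_lit 23) (nat_lit 100) (nat_lit 96) (nat_lit 52) (nat_lit 268) (.spl (nat_lit 0) (nat_lit 256)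
(.spl (nat_lit 5) (nat_lit 160)
(.leaf p038_l36)
(.spl (nat_lit 5) (nat_lit 240)
(.spl (nat_lit 5) (nat_lit 200)
(.leaf p038_l37)
(.leaf p038_l38))
(.trX (nat_lit 11) (nat_lit 100) (nat_lit 96) (nat_lit 52) (nat_lit 268) (.leaf p038_l39))))
(.leaf p038_l40)))
(.leaf p038_l41))
(.spl (nat_lit 5) (nat_lit 160)
(.leaf p038_l42)
(.spl (nat_lit 5) (nat_lit 240)
(.spl (nat_lit 5) (nat_lit 200)
(.leaf p038_l43)
(.leaf p038_l44))
(.leaf p038_l45)))))
(.leaf p038_l46))
(.leaf p038_l47)))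
(.leaf p038_l48)))))
(.leaf p038_l49))
(.leaf p038_l50))) (by decide +kernel)
noncomputable def p038_l51 : Lf2 := ⟨nat_lit 0, nat_lit 2, [nat_lit 10, nat_lit 5, nat_lit 5, nat_lit 20], false, nat_lit 240, nat_lit 272, nat_lit 0, nat_lit 160, ⟨nat_lit 373, nat_lit 0, nat_lit 627, nat_lit 6, nat_lit 91, nat_lit 627, nat_lit 172, nat_lit 627, nat_lit 88902, nat_lit 288, nat_lit 77067, nat_lit 283, nat_lit 52561819, nat_lit 0, nat_lit 0, nat_lit 3429536, false, false⟩,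
 nat_lit 9488, nat_lit 0, nat_lit 0, nat_lit 0, nat_lit 5396, nat_lit 5271, nat_lit 1145, nat_lit 0, nat_lit 0, nat_lit 793, nat_lit 0, nat_lit 0, nat_lit 0, nat_lit 0, nat_lit 0, nat_lit 155010, nat_lit 0, nat_lit 0, [(nat_lit 6, [(nat_lit 3, nat_lit 29), (nat_lit 4, nat_lit 598)])],
 ⟨p038_k24, nat_lit 0, nat_lit 0, nat_lit 0, nat_lit 0, nat_lit 340012, [nat_lit 2124724801, nat_lit 2175855200, nat_lit 2387839600, nat_lit 2464837100], [], [nat_lit 16212561424, nat_lit 16499693073, nat_lit 15701167053, nat_lit 15982710474, nat_lit 18048160915, nat_lit 18440568919, nat_lit 17445934728, nat_lit 17706515966], nat_lit 1271250, nat_lit 1271250, nat_lit 134400, nat_lit 230001, nat_lit 1271250, nat_lit 1271250, [nat_lit 490000, nat_lit 1100000, nat_lit 1442500, nat_lit 1271250], [nat_lit 101, nat_lit 40, nat_lit 20, nat_lit 40]⟩, ⟨p038_k7, nat_lit 0, nat_lit 0, nat_lit 0, nat_lit 0, nat_lit 349135, [nat_lit 757936000, nat_lit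 1748624000, nat_lit 2331250000, nat_lit 2644383500], [], [nat_lit 10757402500, nat_lit 10629692640, nat_lit 8577388585, nat_lit 9219375040, nat_lit 9291314753, nat_lit 8059466240, nat_lit 9475689331, nat_lit 8250440110], nat_lit 1271250, nat_lit 1271250, nat_lit 134400, nat_lit 230001, nat_lit 0, nat_lit 1100001, [nat_lit 490000, nat_lit 1100000, nat_lit 1442500, nat_lit 1271250], [nat_lit 101, nat_lit 40, nat_lit 20, nat_lit 40]⟩,
 ⟨nat_lit 5916, nat_lit 6021, ⟨.ofNat (nat_lit 203762), .ofNat (nat_lit 235543), .ofNat (nat_lit 214433), .ofNat (nat_lit 246214), .ofNat (nat_lit 207799), .ofNat (nat_lit 239212), .ofNat (nat_lit 218469), .ofNat (nat_lit 249882)⟩, ⟨.ofNat (nat_lit 387371), .ofNat (nat_lit 450933), .ofNat (nat_lit 408713), .ofNat (nat_lit 472275), .ofNat (nat_lit 386479), .ofNat (nat_lit 449305), .ofNat (nat_lit 407818), .ofNat (nat_lit 470645)⟩⟩, [⟨nat_lit 0, nat_lit 100, nat_lit 100, nat_lit 56, nat_lit 451925792⟩,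 ⟨nat_lit 4, nat_lit 100, nat_lit 99, nat_lit 55, nat_lit 646752050⟩]⟩
noncomputable def p038_l52 : Lf2 := ⟨nat_lit 0, nat_lit 2, [nat_lit 10, nat_lit 5, nat_lit 5, nat_lit 20], false, nat_lit 240, nat_lit 272, nat_lit 160, nat_lit 240, ⟨nat_lit 301, nat_lit 0, nat_lit 699, nat_lit 6, nat_lit 91, nat_lit 699, nat_lit 172, nat_lit 699, nat_lit 88902, nat_lit 288, nat_lit 77067, nat_lit 283, nat_lit 52561819, nat_lit 0, nat_lit 0, nat_lit 3429536, false, false⟩,
 nat_lit 8582, nat_lit 0, nat_lit 0, nat_lit 0, nat_lit 4881, nat_lit 4767, nat_lit 1702, nat_lit 0, nat_lit 0, nat_lit 0, nat_lit 0, nat_lit 0, nat_lit 0, nat_lit 0, nat_lit 0, nat_lit 174090, nat_lit 0, nat_lit 0, [(nat_lit 6, [(nat_lit 3, nat_lit 11), (nat_lit 4, nat_lit 688)])],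
 ⟨p038_k24, nat_lit 0, nat_lit 0, nat_lit 0, nat_lit 0, nat_lit 340012, [nat_lit 1788254401, nat_lit 1887660800, nat_lit 1943851600, nat_lit 1932649100], [], [nat_lit 15959281302, nat_lit 16233381957, nat_lit 15519128216, nat_lit 15790245414, nat_lit 17705372599, nat_lit 18079738124, nat_lit 17189474996, nat_lit 17438991098], nat_lit 1271250, nat_lit 1271250, nat_lit 134400, nat_lit 230001, nat_lit 1271250, nat_lit 1271250, [nat_lit 490000, nat_lit 1100000, nat_lit 1442500, nat_lit 1271250], [nat_lit 101, nat_lit 40, nat_lit 20, nat_lit 40]⟩, ⟨p038_k7, nat_lit 0, nat_lit 0, nat_lit 0, nat_lit 0, nat_lit 349135, [nat_lit 611632000, nat_lit 1411088000, nat_lit 1881250000, nat_lit 2133939500], [], [nat_lit 7319093974, nat_lit 6088909560, nat_lit 5347527605, nat_lit 4124653862, nat_lit 5576494426, nat_lit 6123998592, nat_lit 5420575111, nat_lit 5212718644], nat_lit 1271250, nat_lit 1271250, nat_lit 134400, nat_lit 230001,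 nat_lit 1100001, nat_lit 1785000, [nat_lit 490000, nat_lit 1100000, nat_lit 1442500, nat_lit 1271250], [nat_lit 101, nat_lit 40, nat_lit 20, nat_lit 40]⟩,
 ⟨nat_lit 5916, nat_lit 6021, ⟨.ofNat (nat_lit 203762), .ofNat (nat_lit 235543), .ofNat (nat_lit 214433), .ofNat (nat_lit 246214), .ofNat (nat_lit 207799), .ofNat (nat_lit 239212), .ofNat (nat_lit 218469), .ofNat (nat_lit 249882)⟩, ⟨.ofNat (nat_lit 387371), .ofNat (nat_lit 450933), .ofNat (nat_lit 408713), .ofNat (nat_lit 472275), .ofNat (nat_lit 386479), .ofNat (nat_lit 449305), .ofNat (nat_lit 407818), .ofNat (nat_lit 470645)⟩⟩, [⟨nat_lit 0, nat_lit 100, nat_lit 99, nat_lit 52, nat_lit 733851235⟩, ⟨nat_lit 4, nat_lit 100, nat_lit 99, nat_lit 55, nat_lit 586410940⟩]⟩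
noncomputable def p038_l53 : Lf2 := ⟨nat_lit 0, nat_lit 2, [nat_lit 10, nat_lit 5, nat_lit 5, nat_lit 20], false, nat_lit 240, nat_lit 272, nat_lit 240, nat_lit 280, ⟨nat_lit 645, nat_lit 0, nat_lit 355, nat_lit 6, nat_lit 91, nat_lit 355, nat_lit 172, nat_lit 355, nat_lit 88902, nat_lit 288, nat_lit 77067, nat_lit 283, nat_lit 52561819, nat_lit 0, nat_lit 0, nat_lit 3429536, false, false⟩,
 nat_lit 11990, nat_lit 0, nat_lit 0, nat_lit 0, nat_lit 6819, nat_lit 6661, nat_lit 1490, nat_lit 0, nat_lit 0, nat_lit 1123, nat_lit 0, nat_lit 0, nat_lit 0, nat_lit 0, nat_lit 0, nat_lit 84070, nat_lit 0, nat_lit 0, [(nat_lit 6, [(nat_lit 3, nat_lit 78), (nat_lit 4, nat_lit 277)])],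
 ⟨p038_k24, nat_lit 0, nat_lit 0, nat_lit 0, nat_lit 0, nat_lit 340012, [nat_lit 3086636801, nat_lit 3264840400, nat_lit 4064694400, nat_lit 4474321900], [], [nat_lit 16725273347, nat_lit 17094717249, nat_lit 15849330372, nat_lit 16207950114, nat_lit 18987689220, nat_lit 19437582941, nat_lit 18083261551, nat_lit 18415651169], nat_lit 1271250, nat_lit 1271250, nat_lit 134400, nat_lit 230001, nat_lit 1271250, nat_lit 1271250, [nat_lit 490000, nat_lit 1100000, nat_lit 1442500, nat_lit 1271250], [nat_lit 101, nat_lit 40, nat_lit 20, nat_lit 40]⟩, ⟨p038_k7, nat_lit 0, nat_lit 0, nat_lit 0, nat_lit 0, nat_lit 349135, [nat_lit 1310640000, nat_lit 3023760000, nat_lit 4031250000, nat_lit 4572727500], [], [nat_lit 10809460746, nat_lit 11581855362, nat_lit 10016489291, nat_lit 10472463806, nat_lit 14019912149, nat_lit 14757806038, nat_lit 12786844933, nat_lit 13520246446], nat_lit 1271250, nat_lit 1271250, nat_lit 134400, nat_lit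 230001, nat_lit 1271250, nat_lit 1271250, [nat_lit 490000, nat_lit 1100000, nat_lit 1442500, nat_lit 1271250], [nat_lit 101, nat_lit 40, nat_lit 20, nat_lit 40]⟩,
 ⟨nat_lit 5916, nat_lit 6021, ⟨.ofNat (nat_lit 203762), .ofNat (nat_lit 235543), .ofNat (nat_lit 214433), .ofNat (nat_lit 246214), .ofNat (nat_lit 207799), .ofNat (nat_lit 239212), .ofNat (nat_lit 218469), .ofNat (nat_lit 249882)⟩, ⟨.ofNat (nat_lit 387371), .ofNat (nat_lit 450933), .ofNat (nat_lit 408713), .ofNat (nat_lit 472275), .ofNat (nat_lit 386479), .ofNat (nat_lit 449305), .ofNat (nat_lit 407818), .ofNat (nat_lit 470645)⟩⟩, [⟨nat_lit 0, nat_lit 100, nat_lit 100, nat_lit 56, nat_lit 612227234⟩, ⟨nat_lit 16, nat_lit 99, nat_lit 100, nat_lit 55, nat_lit 342109353⟩, ⟨nat_lit 7, nat_lit 100, nat_lit 100, nat_lit 55, nat_lit 448110532⟩, ⟨nat_lit 11, nat_lit 100, nat_lit 100, nat_lit 57, nat_lit 529222283⟩]⟩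
noncomputable def p038_l54 : Lf2 := ⟨nat_lit 0, nat_lit 2, [nat_lit 10, nat_lit 5, nat_lit 5, nat_lit 20], true, nat_lit 240, nat_lit 272, nat_lit 0, nat_lit 280, ⟨nat_lit 0, nat_lit 0, nat_lit 1000, nat_lit 6, nat_lit 91, nat_lit 1000, nat_lit 172, nat_lit 1000, nat_lit 88902, nat_lit 288, nat_lit 77067, nat_lit 283, nat_lit 52561819, nat_lit 0, nat_lit 0, nat_lit 3429536, false, false⟩,
 nat_lit 0, nat_lit 378222, nat_lit 0, nat_lit 0, nat_lit 215122, nat_lit 0, nat_lit 60000, nat_lit 12090, nat_lit 0, nat_lit 0, nat_lit 0, nat_lit 0, nat_lit 0, nat_lit 84798976361430, nat_lit 0, nat_lit 1000000, nat_lit 0, nat_lit 0, [(nat_lit 6, [(nat_lit 6, nat_lit 1000)])],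
 ⟨p038_k25, nat_lit 0, nat_lit 0, nat_lit 245, nat_lit 0, nat_lit 340012, [nat_lit 194974000001, nat_lit 288381466667], [], [nat_lit 123630738842, nat_lit 129819061085, nat_lit 90403584617, nat_lit 93905331011, nat_lit 165372407365, nat_lit 170696508587, nat_lit 129040658456, nat_lit 134308280472], nat_lit 1271250, nat_lit 1271250, nat_lit 134400, nat_lit 230001, nat_lit 1271250, nat_lit 1271250, [nat_lit 1100000, nat_lit 1785000], [nat_lit 39, nat_lit 40, nat_lit 20, nat_lit 80, nat_lit 7, nat_lit 215, nat_lit 10, nat_lit 7]⟩, C1.Rw.none,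
 ⟨nat_lit 5916, nat_lit 6021, ⟨.ofNat (nat_lit 203762), .ofNat (nat_lit 235543), .ofNat (nat_lit 214433), .ofNat (nat_lit 246214), .ofNat (nat_lit 207799), .ofNat (nat_lit 239212), .ofNat (nat_lit 218469), .ofNat (nat_lit 249882)⟩, ⟨.ofNat (nat_lit 387371), .ofNat (nat_lit 450933), .ofNat (nat_lit 408713), .ofNat (nat_lit 472275), .ofNat (nat_lit 386479), .ofNat (nat_lit 449305), .ofNat (nat_lit 407818), .ofNat (nat_lit 470645)⟩⟩, [⟨nat_lit 0, nat_lit 100, nat_lit 100, nat_lit 56, nat_lit 1333958704⟩, ⟨nat_lit 0, nat_lit 100, nat_lit 100, nat_lit 60, nat_lit 10000000000⟩, ⟨nat_lit 16, nat_lit 99, nat_lit 100, nat_lit 55, nat_lit 10101010101⟩, ⟨nat_lit 16, nat_lit 100, nat_lit 97, nat_lit 62, nat_lit 10309278351⟩, ⟨nat_lit 4, nat_lit 100, nat_lit 99, nat_lit 55, nat_lit 10101010101⟩]⟩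
noncomputable def p038_l55 : Lf2 := ⟨nat_lit 0, nat_lit 2, [nat_lit 10, nat_lit 5, nat_lit 5, nat_lit 20], false, nat_lit 240, nat_lit 272, nat_lit 0, nat_lit 280, ⟨nat_lit 0, nat_lit 0, nat_lit 1000, nat_lit 6, nat_lit 91, nat_lit 1000, nat_lit 172, nat_lit 1000, nat_lit 88902, nat_lit 288, nat_lit 77067, nat_lit 283, nat_lit 52561819, nat_lit 0, nat_lit 0, nat_lit 3429536, false, false⟩,
 nat_lit 9727, nat_lit 0, nat_lit 0, nat_lit 0, nat_lit 4860, nat_lit 5403, nat_lit 256, nat_lit 0, nat_lit 0, nat_lit 1636, nat_lit 235, nat_lit 0, nat_lit 0, nat_lit 0, nat_lit 41, nat_lit 400000, nat_lit 0, nat_lit 0, [(nat_lit 6, [(nat_lit 5, nat_lit 1000)])],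
 ⟨p038_k23, nat_lit 0, nat_lit 0, nat_lit 246, nat_lit 0, nat_lit 340012, [nat_lit 2073600001, nat_lit 853200001, nat_lit 108399999], [], [nat_lit 15175407854, nat_lit 15585840617, nat_lit 14516032741, nat_lit 14831949640, nat_lit 17853424795, nat_lit 18226264745, nat_lit 17082153222, nat_lit 17452658952], nat_lit 1271250, nat_lit 1271250, nat_lit 134400, nat_lit 230001, nat_lit 1271250, nat_lit 1271250, [nat_lit 1100000, nat_lit 1442500, nat_lit 1271250], [nat_lit 9, nat_lit 40, nat_lit 20, nat_lit 80, nat_lit 2, nat_lit 215, nat_lit 10, nat_lit 7]⟩, ⟨p038_k26, nat_lit 0, nat_lit 0, nat_lit 333, nat_lit 0, nat_lit 349135, [nat_lit 3760000000, nat_lit 4700000000, nat_lit 5640000000], [], [nat_lit 14661386505, nat_lit 13245967998, nat_lit 12392882925, nat_lit 10986001158, nat_lit 8088286223, nat_lit 6842106425, nat_lit 8157582940, nat_lit 6917986157], nat_lit 1271250, nat_lit 1271250, nat_lit 134400, nat_lit 230001, nat_lit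 0, nat_lit 1977500, [nat_lit 1100000, nat_lit 1442500, nat_lit 1271250], [nat_lit 9, nat_lit 40, nat_lit 20, nat_lit 80, nat_lit 2, nat_lit 317, nat_lit 100, nat_lit 11]⟩,
 ⟨nat_lit 5916, nat_lit 6021, ⟨.ofNat (nat_lit 203762), .ofNat (nat_lit 235543), .ofNat (nat_lit 214433), .ofNat (nat_lit 246214), .ofNat (nat_lit 207799), .ofNat (nat_lit 239212), .ofNat (nat_lit 218469), .ofNat (nat_lit 249882)⟩, ⟨.ofNat (nat_lit 387371), .ofNat (nat_lit 450933), .ofNat (nat_lit 408713), .ofNat (nat_lit 472275), .ofNat (nat_lit 386479), .ofNat (nat_lit 449305), .ofNat (nat_lit 407818), .ofNat (nat_lit 470645)⟩⟩, [⟨nat_lit 0, nat_lit 100, nat_lit 100, nat_lit 56, nat_lit 296832528⟩, ⟨nat_lit 4, nat_lit 100, nat_lit 99, nat_lit 55, nat_lit 705857304⟩]⟩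
noncomputable def b_VL_600_600_5_73 : St := ⟨true, nat_lit 1, nat_lit 1, nat_lit 1, nat_lit 40, nat_lit 255, nat_lit 260, nat_lit 250, nat_lit 260, nat_lit 24, nat_lit 40, nat_lit 20, nat_lit 40, nat_lit 240, nat_lit 272, nat_lit 0, nat_lit 280, nat_lit 0, nat_lit 8, nat_lit 0, nat_lit 0, nat_lit 0, nat_lit 0⟩
theorem d_VL_600_600_5_73 (h : EB TB.env) : Dead b_VL_600_600_5_73 := chkB_sound0 h (T :=
(.spl (nat_lit 8) (nat_lit 800)
(.spl (nat_lit 7) (nat_lit 600)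
(.spl (nat_lit 5) (nat_lit 160)
(.leaf p038_l51)
(.spl (nat_lit 5) (nat_lit 240)
(.leaf p038_l52)
(.leaf p038_l53)))
(.leaf p038_l54))
(.leaf p038_l55))) (by decide +kernel)
noncomputable def p038_l56 : Lf2 := ⟨nat_lit 0, nat_lit 1, [nat_lit 19, nat_lit 5, nat_lit 5, nat_lit 20], true, nat_lit 240, nat_lit 272, nat_lit 0, nat_lit 280, ⟨nat_lit 0, nat_lit 0, nat_lit 1000, nat_lit 6, nat_lit 97, nat_lit 1000, nat_lit 172, nat_lit 1000, nat_lit 88902, nat_lit 288, nat_lit 88817, nat_lit 288, nat_lit 52144199, nat_lit 0, nat_lit 0, nat_lit 3520665, false, false⟩,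
 nat_lit 0, nat_lit 7331, nat_lit 0, nat_lit 0, nat_lit 4169, nat_lit 0, nat_lit 69, nat_lit 0, nat_lit 0, nat_lit 0, nat_lit 0, nat_lit 0, nat_lit 0, nat_lit 0, nat_lit 10, nat_lit 1000000, nat_lit 0, nat_lit 0, [(nat_lit 6, [(nat_lit 6, nat_lit 1000)])],
 ⟨p038_k17, nat_lit 0, nat_lit 0, nat_lit 153, nat_lit 0, nat_lit 304446, [nat_lit 1137066667, nat_lit 8000000], [], [nat_lit 14723594975, nat_lit 14996193724, nat_lit 14683781381, nat_lit 14955438121, nat_lit 16749911647, nat_lit 17093385111, nat_lit 16657171673, nat_lit 16999769919], nat_lit 1271250, nat_lit 1271250, nat_lit 230001, nat_lit 254650, nat_lit 1271250, nat_lit 1271250, [nat_lit 1100000, nat_lit 1442500], [nat_lit 31, nat_lit 40, nat_lit 20, nat_lit 80, nat_lit 3, nat_lit 226, nat_lit 20, nat_lit 8]⟩, C1.Rw.none,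
 ⟨nat_lit 5916, nat_lit 6021, ⟨.ofNat (nat_lit 235543), .ofNat (nat_lit 243488), .ofNat (nat_lit 238744), .ofNat (nat_lit 246690), .ofNat (nat_lit 239212), .ofNat (nat_lit 247066), .ofNat (nat_lit 242413), .ofNat (nat_lit 250267)⟩, ⟨.ofNat (nat_lit 387371), .ofNat (nat_lit 450933), .ofNat (nat_lit 408713), .ofNat (nat_lit 472275), .ofNat (nat_lit 386479), .ofNat (nat_lit 449305), .ofNat (nat_lit 407818), .ofNat (nat_lit 470645)⟩⟩, [⟨nat_lit 4, nat_lit 100, nat_lit 99, nat_lit 55, nat_lit 519222996⟩]⟩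
noncomputable def p038_l57 : Lf2 := ⟨nat_lit 0, nat_lit 1, [nat_lit 19, nat_lit 5, nat_lit 5, nat_lit 20], true, nat_lit 240, nat_lit 272, nat_lit 0, nat_lit 276, ⟨nat_lit 0, nat_lit 0, nat_lit 1000, nat_lit 6, nat_lit 98, nat_lit 1000, nat_lit 172, nat_lit 1000, nat_lit 88902, nat_lit 288, nat_lit 91267, nat_lit 289, nat_lit 52087721, nat_lit 0, nat_lit 0, nat_lit 3532681, false, false⟩,
 nat_lit 0, nat_lit 7332, nat_lit 0, nat_lit 0, nat_lit 4170, nat_lit 0, nat_lit 69, nat_lit 0, nat_lit 0, nat_lit 0, nat_lit 0, nat_lit 0, nat_lit 0, nat_lit 0, nat_lit 10, nat_lit 1000000, nat_lit 0, nat_lit 0, [(nat_lit 6, [(nat_lit 6, nat_lit 1000)])],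
 ⟨p038_k17, nat_lit 0, nat_lit 0, nat_lit 154, nat_lit 0, nat_lit 308680, [nat_lit 1137066667, nat_lit 8000000], [], [nat_lit 14721812999, nat_lit 14994440034, nat_lit 14681972180, nat_lit 14953657058, nat_lit 16750392459, nat_lit 17093905045, nat_lit 16657612729, nat_lit 17000249969], nat_lit 1271250, nat_lit 1271250, nat_lit 230001, nat_lit 254650, nat_lit 1271250, nat_lit 1271250, [nat_lit 1100000, nat_lit 1442500], [nat_lit 31, nat_lit 40, nat_lit 20, nat_lit 80, nat_lit 3, nat_lit 226, nat_lit 20, nat_lit 8]⟩, C1.Rw.none,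
 ⟨nat_lit 5916, nat_lit 6021, ⟨.ofNat (nat_lit 238744), .ofNat (nat_lit 246690), .ofNat (nat_lit 239811), .ofNat (nat_lit 247757), .ofNat (nat_lit 242413), .ofNat (nat_lit 250267), .ofNat (nat_lit 243480), .ofNat (nat_lit 251334)⟩, ⟨.ofNat (nat_lit 387371), .ofNat (nat_lit 450933), .ofNat (nat_lit 408713), .ofNat (nat_lit 472275), .ofNat (nat_lit 386479), .ofNat (nat_lit 449305), .ofNat (nat_lit 407818), .ofNat (nat_lit 470645)⟩⟩, [⟨nat_lit 4, nat_lit 100, nat_lit 99, nat_lit 55, nat_lit 519630481⟩]⟩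
noncomputable def p038_l58 : Lf2 := ⟨nat_lit 0, nat_lit 1, [nat_lit 19, nat_lit 5, nat_lit 5, nat_lit 20], false, nat_lit 240, nat_lit 272, nat_lit 0, nat_lit 160, ⟨nat_lit 1000, nat_lit 0, nat_lit 0, nat_lit 0, nat_lit 0, nat_lit 0, nat_lit 0, nat_lit 0, nat_lit 0, nat_lit 0, nat_lit 0, nat_lit 0, nat_lit 0, nat_lit 0, nat_lit 0, nat_lit 0, false, false⟩,
 nat_lit 19440, nat_lit 0, nat_lit 0, nat_lit 0, nat_lit 9703, nat_lit 11005, nat_lit 0, nat_lit 0, nat_lit 0, nat_lit 4719, nat_lit 0, nat_lit 0, nat_lit 0, nat_lit 0, nat_lit 0, nat_lit 0, nat_lit 0, nat_lit 0, [],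
 ⟨p038_k17, nat_lit 0, nat_lit 0, nat_lit 152, nat_lit 0, nat_lit 303969, [nat_lit 4688000000, nat_lit 6250000000], [], [nat_lit 16349214177, nat_lit 16635554076, nat_lit 16116124222, nat_lit 16401417798, nat_lit 19490306949, nat_lit 19747601683, nat_lit 19245636831, nat_lit 19502021390], nat_lit 1271250, nat_lit 1271250, nat_lit 230001, nat_lit 254650, nat_lit 1271250, nat_lit 1271250, [nat_lit 1100000, nat_lit 1442500], [nat_lit 31, nat_lit 40, nat_lit 20, nat_lit 80, nat_lit 3, nat_lit 226, nat_lit 20, nat_lit 8]⟩, ⟨p038_k27, nat_lit 0, nat_lit 0, nat_lit 266, nat_lit 0, nat_lit 305558, [nat_lit 4688000000, nat_lit 6250000000], [], [nat_lit 19740203124, nat_lit 19934757970, nat_lit 19227232234, nat_lit 19421480075, nat_lit 15327776927, nat_lit 15061258938, nat_lit 15446953598, nat_lit 15180805156], nat_lit 1271250, nat_lit 1271250, nat_lit 230001, nat_lit 254650, nat_lit 0, nat_lit 1100001, [nat_lit 1100000, nat_lit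 1442500], [nat_lit 31, nat_lit 40, nat_lit 20, nat_lit 80, nat_lit 3, nat_lit 272, nat_lit 60, nat_lit 11]⟩,
 zbF0, [⟨nat_lit 16, nat_lit 100, nat_lit 97, nat_lit 62, nat_lit 13722676⟩, ⟨nat_lit 4, nat_lit 100, nat_lit 99, nat_lit 55, nat_lit 1304089206⟩]⟩
noncomputable def p038_l59 : Lf2 := ⟨nat_lit 0, nat_lit 1, [nat_lit 19, nat_lit 5, nat_lit 5, nat_lit 20], false, nat_lit 240, nat_lit 272, nat_lit 160, nat_lit 200, ⟨nat_lit 1000, nat_lit 0, nat_lit 0, nat_lit 0, nat_lit 0, nat_lit 0, nat_lit 0, nat_lit 0, nat_lit 0, nat_lit 0, nat_lit 0, nat_lit 0, nat_lit 0, nat_lit 0, nat_lit 0, nat_lit 0, false, false⟩,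
 nat_lit 16677, nat_lit 0, nat_lit 0, nat_lit 0, nat_lit 9485, nat_lit 9441, nat_lit 385, nat_lit 0, nat_lit 0, nat_lit 3498, nat_lit 0, nat_lit 0, nat_lit 0, nat_lit 0, nat_lit 0, nat_lit 0, nat_lit 0, nat_lit 0, [],
 ⟨p038_k17, nat_lit 0, nat_lit 0, nat_lit 152, nat_lit 0, nat_lit 303969, [nat_lit 4688000000, nat_lit 6250000000], [], [nat_lit 16289695368, nat_lit 16571818471, nat_lit 16063502541, nat_lit 16344598182, nat_lit 19383815506, nat_lit 19637465877, nat_lit 19146252938, nat_lit 19399009280], nat_lit 1271250, nat_lit 1271250, nat_lit 230001, nat_lit 254650, nat_lit 1271250, nat_lit 1271250, [nat_lit 1100000, nat_lit 1442500], [nat_lit 31, nat_lit 40, nat_lit 20, nat_lit 80, nat_lit 3, nat_lit 226, nat_lit 20, nat_lit 8]⟩, ⟨p038_k27, nat_lit 0, nat_lit 0, nat_lit 186, nat_lit 0, nat_lit 305558, [nat_lit 4688000000, nat_lit 6250000000], [], [nat_lit 9581882999, nat_lit 9675920272, nat_lit 9409089973, nat_lit 9502738689,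 nat_lit 11991198015, nat_lit 12095474412, nat_lit 11773496667, nat_lit 11877389364], nat_lit 1271250, nat_lit 1271250, nat_lit 230001, nat_lit 254650, nat_lit 1100001, nat_lit 1442500, [nat_lit 1100000, nat_lit 1442500], [nat_lit 31, nat_lit 40, nat_lit 20, nat_lit 80, nat_lit 3, nat_lit 289, nat_lit 75, nat_lit 11]⟩,
 zbF0, [⟨nat_lit 16, nat_lit 100, nat_lit 97, nat_lit 62, nat_lit 1147304216⟩]⟩
noncomputable def p038_l60 : Lf2 := ⟨nat_lit 0, nat_lit 1, [nat_lit 19, nat_lit 5, nat_lit 5, nat_lit 20], false, nat_lit 240, nat_lit 272, nat_lit 200, nat_lit 240, ⟨nat_lit 1000, nat_lit 0, nat_lit 0, nat_lit 0, nat_lit 0, nat_lit 0, nat_lit 0, nat_lit 0, nat_lit 0, nat_lit 0, nat_lit 0, nat_lit 0, nat_lit 0, nat_lit 0, nat_lit 0, nat_lit 0, false, false⟩,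
 nat_lit 16132, nat_lit 0, nat_lit 0, nat_lit 0, nat_lit 9175, nat_lit 9132, nat_lit 933, nat_lit 0, nat_lit 0, nat_lit 2813, nat_lit 0, nat_lit 0, nat_lit 0, nat_lit 0, nat_lit 0, nat_lit 0, nat_lit 0, nat_lit 0, [],
 ⟨p038_k17, nat_lit 0, nat_lit 0, nat_lit 152, nat_lit 0, nat_lit 303969, [nat_lit 4688000000, nat_lit 6250000000], [], [nat_lit 16204734963, nat_lit 16480861705, nat_lit 15988349978, nat_lit 16263476080, nat_lit 19232059153, nat_lit 19480527173, nat_lit 19004603651, nat_lit 19252200602], nat_lit 1271250, nat_lit 1271250, nat_lit 230001, nat_lit 254650, nat_lit 1271250, nat_lit 1271250, [nat_lit 1100000, nat_lit 1442500], [nat_lit 31, nat_lit 40, nat_lit 20, nat_lit 80, nat_lit 3, nat_lit 226, nat_lit 20, nat_lit 8]⟩, ⟨p038_k27, nat_lit 0, nat_lit 0, nat_lit 166, nat_lit 0, nat_lit 305558, [nat_lit 4688000000, nat_lit 6250000000], [], [nat_lit 12681531879, nat_lit 12783516948, nat_lit 12473446939, nat_lit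 12575058440, nat_lit 15108036870, nat_lit 15199801866, nat_lit 14893344635, nat_lit 14984777324], nat_lit 1271250, nat_lit 1271250, nat_lit 230001, nat_lit 254650, nat_lit 1271250, nat_lit 1271250, [nat_lit 1100000, nat_lit 1442500], [nat_lit 31, nat_lit 40, nat_lit 20, nat_lit 80, nat_lit 3, nat_lit 226, nat_lit 20, nat_lit 8]⟩,
 zbF0, [⟨nat_lit 16, nat_lit 100, nat_lit 97, nat_lit 62, nat_lit 1130658115⟩]⟩
noncomputable def p038_l61 : Lf2 := ⟨nat_lit 0, nat_lit 1, [nat_lit 19, nat_lit 5, nat_lit 5, nat_lit 20], false, nat_lit 240, nat_lit 272, nat_lit 240, nat_lit 276, ⟨nat_lit 1000, nat_lit 0, nat_lit 0, nat_lit 0, nat_lit 0, nat_lit 0, nat_lit 0, nat_lit 0, nat_lit 0, nat_lit 0, nat_lit 0, nat_lit 0, nat_lit 0, nat_lit 0, nat_lit 0, nat_lit 0, false, false⟩,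
 nat_lit 15088, nat_lit 0, nat_lit 0, nat_lit 0, nat_lit 8581, nat_lit 8541, nat_lit 1980, nat_lit 0, nat_lit 0, nat_lit 2140, nat_lit 0, nat_lit 0, nat_lit 0, nat_lit 0, nat_lit 0, nat_lit 0, nat_lit 0, nat_lit 0, [],
 ⟨p038_k17, nat_lit 0, nat_lit 0, nat_lit 152, nat_lit 0, nat_lit 303969, [nat_lit 4688000000, nat_lit 6250000000], [], [nat_lit 16043820066, nat_lit 16308457007, nat_lit 15846228172, nat_lit 16109915865, nat_lit 18943154601, nat_lit 19181692569, nat_lit 18735065542, nat_lit 18972776435], nat_lit 1271250, nat_lit 1271250, nat_lit 230001, nat_lit 254650, nat_lit 1271250, nat_lit 1271250, [nat_lit 1100000, nat_lit 1442500], [nat_lit 31, nat_lit 40, nat_lit 20, nat_lit 80, nat_lit 3, nat_lit 226, nat_lit 20, nat_lit 8]⟩, ⟨p038_k27, nat_lit 0, nat_lit 0, nat_lit 153, nat_lit 0, nat_lit 305558, [nat_lit 4688000000, nat_lit 6250000000], [], [nat_lit 15999588864, nat_lit 16072052646, nat_lit 15836472121, nat_lit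 15908646914, nat_lit 19245082533, nat_lit 19323289212, nat_lit 19037259927, nat_lit 19115196971], nat_lit 1271250, nat_lit 1271250, nat_lit 230001, nat_lit 254650, nat_lit 1271250, nat_lit 1271250, [nat_lit 1100000, nat_lit 1442500], [nat_lit 31, nat_lit 40, nat_lit 20, nat_lit 80, nat_lit 3, nat_lit 226, nat_lit 20, nat_lit 8]⟩,
 zbF0, [⟨nat_lit 16, nat_lit 100, nat_lit 97, nat_lit 62, nat_lit 495723768⟩, ⟨nat_lit 19, nat_lit 100, nat_lit 97, nat_lit 62, nat_lit 501701928⟩, ⟨nat_lit 11, nat_lit 100, nat_lit 100, nat_lit 65, nat_lit 575267710⟩]⟩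
noncomputable def p038_l62 : Lf2 := ⟨nat_lit 0, nat_lit 1, [nat_lit 19, nat_lit 5, nat_lit 5, nat_lit 20], false, nat_lit 240, nat_lit 272, nat_lit 0, nat_lit 160, ⟨nat_lit 1000, nat_lit 0, nat_lit 0, nat_lit 0, nat_lit 0, nat_lit 0, nat_lit 0, nat_lit 0, nat_lit 0, nat_lit 0, nat_lit 0, nat_lit 0, nat_lit 0, nat_lit 0, nat_lit 0, nat_lit 0, false, false⟩,
 nat_lit 19441, nat_lit 0, nat_lit 0, nat_lit 0, nat_lit 10281, nat_lit 11005, nat_lit 0, nat_lit 0, nat_lit 0, nat_lit 4716, nat_lit 0, nat_lit 0, nat_lit 0, nat_lit 0, nat_lit 0, nat_lit 0, nat_lit 0, nat_lit 0, [],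
 ⟨p038_k22, nat_lit 0, nat_lit 0, nat_lit 152, nat_lit 0, nat_lit 303687, [nat_lit 4688000000, nat_lit 6250000000], [], [nat_lit 16172933627, nat_lit 16272107031, nat_lit 15920460461, nat_lit 16019268420, nat_lit 20038185646, nat_lit 20154701238, nat_lit 19701464716, nat_lit 19817652073], nat_lit 1271250, nat_lit 1271250, nat_lit 230001, nat_lit 254650, nat_lit 1271250, nat_lit 1271250, [nat_lit 1100000, nat_lit 1442500], [nat_lit 31, nat_lit 40, nat_lit 20, nat_lit 80, nat_lit 3, nat_lit 226, nat_lit 20, nat_lit 8]⟩, ⟨p038_k27, nat_lit 0, nat_lit 0, nat_lit 266, nat_lit 0, nat_lit 310055, [nat_lit 4688000000, nat_lit 6250000000], [], [nat_lit 19740203124, nat_lit 19934757970, nat_lit 19227232234, nat_lit 19421480075, nat_lit 15329501927, nat_lit 15062983938, nat_lit 15448678598, nat_lit 15182530156], nat_lit 1271250, nat_lit 1271250, nat_lit 230001, nat_lit 254650, nat_lit 0, nat_lit 1100001, [nat_lit 1100000, nat_lit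 1442500], [nat_lit 31, nat_lit 40, nat_lit 20, nat_lit 80, nat_lit 3, nat_lit 272, nat_lit 60, nat_lit 11]⟩,
 zbF0, [⟨nat_lit 16, nat_lit 100, nat_lit 98, nat_lit 63, nat_lit 1331903746⟩]⟩
noncomputable def p038_l63 : Lf2 := ⟨nat_lit 0, nat_lit 1, [nat_lit 19, nat_lit 5, nat_lit 5, nat_lit 20], false, nat_lit 240, nat_lit 272, nat_lit 160, nat_lit 200, ⟨nat_lit 1000, nat_lit 0, nat_lit 0, nat_lit 0, nat_lit 0, nat_lit 0, nat_lit 0, nat_lit 0, nat_lit 0, nat_lit 0, nat_lit 0, nat_lit 0, nat_lit 0, nat_lit 0, nat_lit 0, nat_lit 0, false, false⟩,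
 nat_lit 16656, nat_lit 0, nat_lit 0, nat_lit 0, nat_lit 9433, nat_lit 9429, nat_lit 362, nat_lit 0, nat_lit 0, nat_lit 3517, nat_lit 0, nat_lit 0, nat_lit 0, nat_lit 0, nat_lit 0, nat_lit 0, nat_lit 0, nat_lit 0, [],
 ⟨p038_k22, nat_lit 0, nat_lit 0, nat_lit 152, nat_lit 0, nat_lit 303687, [nat_lit 4688000000, nat_lit 6250000000], [], [nat_lit 16582419554, nat_lit 16676125308, nat_lit 16356848951, nat_lit 16450213717, nat_lit 19636999022, nat_lit 19721259380, nat_lit 19400241655, nat_lit 19484205287], nat_lit 1271250, nat_lit 1271250, nat_lit 230001, nat_lit 254650, nat_lit 1271250, nat_lit 1271250, [nat_lit 1100000, nat_lit 1442500], [nat_lit 31, nat_lit 40, nat_lit 20, nat_lit 80, nat_lit 3, nat_lit 226, nat_lit 20, nat_lit 8]⟩, ⟨p038_k27, nat_lit 0, nat_lit 0, nat_lit 186, nat_lit 0, nat_lit 310055, [nat_lit 4688000000, nat_lit 6250000000], [], [nat_lit 9594265090, nat_lit 9688223768, nat_lit 9421788404, nat_lit 9515358928,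 nat_lit 11991785980, nat_lit 12095973394, nat_lit 11774458086, nat_lit 11878262192], nat_lit 1271250, nat_lit 1271250, nat_lit 230001, nat_lit 254650, nat_lit 1100001, nat_lit 1442500, [nat_lit 1100000, nat_lit 1442500], [nat_lit 31, nat_lit 40, nat_lit 20, nat_lit 80, nat_lit 3, nat_lit 289, nat_lit 75, nat_lit 11]⟩,
 zbF0, [⟨nat_lit 16, nat_lit 100, nat_lit 98, nat_lit 63, nat_lit 1124015200⟩]⟩
noncomputable def p038_l64 : Lf2 := ⟨nat_lit 0, nat_lit 1, [nat_lit 19, nat_lit 5, nat_lit 5, nat_lit 20], false, nat_lit 240, nat_lit 272, nat_lit 200, nat_lit 240, ⟨nat_lit 1000, nat_lit 0, nat_lit 0, nat_lit 0, nat_lit 0, nat_lit 0, nat_lit 0, nat_lit 0, nat_lit 0, nat_lit 0, nat_lit 0, nat_lit 0, nat_lit 0, nat_lit 0, nat_lit 0, nat_lit 0, false, false⟩,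
 nat_lit 15949, nat_lit 0, nat_lit 0, nat_lit 0, nat_lit 9198, nat_lit 9029, nat_lit 709, nat_lit 0, nat_lit 0, nat_lit 2993, nat_lit 0, nat_lit 0, nat_lit 0, nat_lit 0, nat_lit 0, nat_lit 0, nat_lit 0, nat_lit 0, [],
 ⟨p038_k22, nat_lit 0, nat_lit 0, nat_lit 152, nat_lit 0, nat_lit 303687, [nat_lit 4688000000, nat_lit 6250000000], [], [nat_lit 16512427933, nat_lit 16604618478, nat_lit 16294312639, nat_lit 16386168973, nat_lit 19516988835, nat_lit 19600087082, nat_lit 19287910682, nat_lit 19370570597], nat_lit 1271250, nat_lit 1271250, nat_lit 230001, nat_lit 254650, nat_lit 1271250, nat_lit 1271250, [nat_lit 1100000, nat_lit 1442500], [nat_lit 31, nat_lit 40, nat_lit 20, nat_lit 80, nat_lit 3, nat_lit 226, nat_lit 20, nat_lit 8]⟩, ⟨p038_k27, nat_lit 0, nat_lit 0, nat_lit 166, nat_lit 0, nat_lit 310055, [nat_lit 4688000000, nat_lit 6250000000], [], [nat_lit 12676851500, nat_lit 12778072794, nat_lit 12495255994, nat_lit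 12578034995, nat_lit 15089632607, nat_lit 15180733490, nat_lit 14878196135, nat_lit 14968967682], nat_lit 1271250, nat_lit 1271250, nat_lit 230001, nat_lit 254650, nat_lit 1271250, nat_lit 1271250, [nat_lit 1100000, nat_lit 1442500], [nat_lit 31, nat_lit 40, nat_lit 20, nat_lit 80, nat_lit 3, nat_lit 226, nat_lit 20, nat_lit 8]⟩,
 zbF0, [⟨nat_lit 16, nat_lit 100, nat_lit 98, nat_lit 63, nat_lit 1111826567⟩]⟩
noncomputable def p038_l65 : Lf2 := ⟨nat_lit 0, nat_lit 1, [nat_lit 19, nat_lit 5, nat_lit 5, nat_lit 20], false, nat_lit 240, nat_lit 272, nat_lit 240, nat_lit 276, ⟨nat_lit 1000, nat_lit 0, nat_lit 0, nat_lit 0, nat_lit 0, nat_lit 0, nat_lit 0, nat_lit 0, nat_lit 0, nat_lit 0, nat_lit 0, nat_lit 0, nat_lit 0, nat_lit 0, nat_lit 0, nat_lit 0, false, false⟩,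
 nat_lit 15081, nat_lit 0, nat_lit 0, nat_lit 0, nat_lit 8697, nat_lit 8537, nat_lit 1444, nat_lit 0, nat_lit 0, nat_lit 2149, nat_lit 0, nat_lit 0, nat_lit 0, nat_lit 0, nat_lit 0, nat_lit 0, nat_lit 0, nat_lit 0, [],
 ⟨p038_k22, nat_lit 0, nat_lit 0, nat_lit 152, nat_lit 0, nat_lit 303687, [nat_lit 4688000000, nat_lit 6250000000], [], [nat_lit 16366762765, nat_lit 16455723012, nat_lit 16164541555, nat_lit 16253182040, nat_lit 19264688342, nat_lit 19344847399, nat_lit 19051981618, nat_lit 19131862119], nat_lit 1271250, nat_lit 1271250, nat_lit 230001, nat_lit 254650, nat_lit 1271250, nat_lit 1271250, [nat_lit 1100000, nat_lit 1442500], [nat_lit 31, nat_lit 40, nat_lit 20, nat_lit 80, nat_lit 3, nat_lit 226, nat_lit 20, nat_lit 8]⟩, ⟨p038_k27, nat_lit 0, nat_lit 0, nat_lit 155, nat_lit 0, nat_lit 310055, [nat_lit 4688000000, nat_lit 6250000000], [], [nat_lit 16001402297, nat_lit 16073846144, nat_lit 15838395656, nat_lit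 15910550620, nat_lit 19242238665, nat_lit 19320423491, nat_lit 19034546858, nat_lit 19112462147], nat_lit 1271250, nat_lit 1271250, nat_lit 230001, nat_lit 254650, nat_lit 1271250, nat_lit 1271250, [nat_lit 1100000, nat_lit 1442500], [nat_lit 31, nat_lit 40, nat_lit 20, nat_lit 80, nat_lit 3, nat_lit 226, nat_lit 20, nat_lit 8]⟩,
 zbF0, [⟨nat_lit 16, nat_lit 100, nat_lit 98, nat_lit 63, nat_lit 491799961⟩, ⟨nat_lit 19, nat_lit 100, nat_lit 97, nat_lit 62, nat_lit 500596815⟩, ⟨nat_lit 11, nat_lit 100, nat_lit 100, nat_lit 65, nat_lit 575266193⟩]⟩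
noncomputable def p038_l66 : Lf2 := ⟨nat_lit 0, nat_lit 1, [nat_lit 19, nat_lit 5, nat_lit 5, nat_lit 20], true, nat_lit 240, nat_lit 268, nat_lit 0, nat_lit 276, ⟨nat_lit 0, nat_lit 0, nat_lit 1000, nat_lit 6, nat_lit 99, nat_lit 1000, nat_lit 170, nat_lit 1000, nat_lit 127312, nat_lit 302, nat_lit 91267, nat_lit 289, nat_lit 52184817, nat_lit 0, nat_lit 0, nat_lit 3526136, false, false⟩,
 nat_lit 0, nat_lit 7158, nat_lit 0, nat_lit 0, nat_lit 4147, nat_lit 0, nat_lit 34, nat_lit 0, nat_lit 0, nat_lit 0, nat_lit 0, nat_lit 0, nat_lit 0, nat_lit 0, nat_lit 10, nat_lit 1000000, nat_lit 0, nat_lit 0, [(nat_lit 6, [(nat_lit 6, nat_lit 1000)])],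
 ⟨p038_k28, nat_lit 0, nat_lit 0, nat_lit 152, nat_lit 0, nat_lit 306511, [nat_lit 1137066667, nat_lit 8000000], [], [nat_lit 14980379611, nat_lit 15034774904, nat_lit 14940413965, nat_lit 14994621503, nat_lit 16711170237, nat_lit 16780512468, nat_lit 16619453896, nat_lit 16688618094], nat_lit 1271250, nat_lit 1271250, nat_lit 230001, nat_lit 254650, nat_lit 1271250, nat_lit 1271250, [nat_lit 1100000, nat_lit 1442500], [nat_lit 31, nat_lit 40, nat_lit 20, nat_lit 80, nat_lit 3, nat_lit 226, nat_lit 20, nat_lit 8]⟩, C1.Rw.none,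
 ⟨nat_lit 5916, nat_lit 5938, ⟨.ofNat (nat_lit 242749), .ofNat (nat_lit 250620), .ofNat (nat_lit 243816), .ofNat (nat_lit 251687), .ofNat (nat_lit 243480), .ofNat (nat_lit 251334), .ofNat (nat_lit 244547), .ofNat (nat_lit 252401)⟩, ⟨.ofNat (nat_lit 386658), .ofNat (nat_lit 441760), .ofNat (nat_lit 407998), .ofNat (nat_lit 463100), .ofNat (nat_lit 386479), .ofNat (nat_lit 441452), .ofNat (nat_lit 407818), .ofNat (nat_lit 462791)⟩⟩, [⟨nat_lit 4, nat_lit 100, nat_lit 99, nat_lit 54, nat_lit 508518230⟩]⟩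
noncomputable def p038_l67 : Lf2 := ⟨nat_lit 0, nat_lit 1, [nat_lit 19, nat_lit 5, nat_lit 5, nat_lit 20], true, nat_lit 240, nat_lit 272, nat_lit 0, nat_lit 280, ⟨nat_lit 0, nat_lit 0, nat_lit 1000, nat_lit 6, nat_lit 101, nat_lit 1000, nat_lit 172, nat_lit 1000, nat_lit 88902, nat_lit 288, nat_lit 96267, nat_lit 291, nat_lit 51905662, nat_lit 0, nat_lit 0, nat_lit 3570937, false, false⟩,
 nat_lit 0, nat_lit 7386, nat_lit 0, nat_lit 0, nat_lit 4200, nat_lit 0, nat_lit 66, nat_lit 0, nat_lit 0, nat_lit 0, nat_lit 0, nat_lit 0, nat_lit 0, nat_lit 0, nat_lit 10, nat_lit 1000000, nat_lit 0, nat_lit 0, [(nat_lit 6, [(nat_lit 6, nat_lit 1000)])],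
 ⟨p038_k17, nat_lit 0, nat_lit 0, nat_lit 153, nat_lit 0, nat_lit 312914, [nat_lit 1137066667, nat_lit 8000000], [], [nat_lit 14627696135, nat_lit 14900225174, nat_lit 14587038534, nat_lit 14858621014, nat_lit 16670844393, nat_lit 17014651489, nat_lit 16576871945, nat_lit 16919799936], nat_lit 1271250, nat_lit 1271250, nat_lit 254650, nat_lit 279600, nat_lit 1271250, nat_lit 1271250, [nat_lit 1100000, nat_lit 1442500], [nat_lit 31, nat_lit 40, nat_lit 20, nat_lit 80, nat_lit 3, nat_lit 226, nat_lit 20, nat_lit 8]⟩, C1.Rw.none,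
 ⟨nat_lit 5916, nat_lit 6021, ⟨.ofNat (nat_lit 243488), .ofNat (nat_lit 251434), .ofNat (nat_lit 248824), .ofNat (nat_lit 256769), .ofNat (nat_lit 247066), .ofNat (nat_lit 254919), .ofNat (nat_lit 252401), .ofNat (nat_lit 260254)⟩, ⟨.ofNat (nat_lit 387371), .ofNat (nat_lit 450933), .ofNat (nat_lit 408713), .ofNat (nat_lit 472275), .ofNat (nat_lit 386479), .ofNat (nat_lit 449305), .ofNat (nat_lit 407818), .ofNat (nat_lit 470645)⟩⟩, [⟨nat_lit 4, nat_lit 100, nat_lit 99, nat_lit 55, nat_lit 524189447⟩]⟩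
noncomputable def p038_l68 : Lf2 := ⟨nat_lit 0, nat_lit 1, [nat_lit 19, nat_lit 5, nat_lit 5, nat_lit 20], true, nat_lit 240, nat_lit 272, nat_lit 0, nat_lit 280, ⟨nat_lit 0, nat_lit 0, nat_lit 1000, nat_lit 6, nat_lit 107, nat_lit 1000, nat_lit 172, nat_lit 1000, nat_lit 88902, nat_lit 288, nat_lit 106667, nat_lit 295, nat_lit 51477707, nat_lit 0, nat_lit 0, nat_lit 3658094, false, false⟩,
 nat_lit 0, nat_lit 7439, nat_lit 0, nat_lit 0, nat_lit 4231, nat_lit 0, nat_lit 63, nat_lit 0, nat_lit 0, nat_lit 0, nat_lit 0, nat_lit 0, nat_lit 0, nat_lit 0, nat_lit 10, nat_lit 1000000, nat_lit 0, nat_lit 0, [(nat_lit 6, [(nat_lit 6, nat_lit 1000)])],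
 ⟨p038_k17, nat_lit 0, nat_lit 0, nat_lit 151, nat_lit 0, nat_lit 312914, [nat_lit 1137066667, nat_lit 8000000], [], [nat_lit 14530109282, nat_lit 14802559511, nat_lit 14405604464, nat_lit 14675201360, nat_lit 16589312189, nat_lit 16933445147, nat_lit 16303697422, nat_lit 16645181413], nat_lit 1271250, nat_lit 1271250, nat_lit 279600, nat_lit 356250, nat_lit 1271250, nat_lit 1271250, [nat_lit 1100000, nat_lit 1442500], [nat_lit 31, nat_lit 40, nat_lit 20, nat_lit 80, nat_lit 3, nat_lit 226, nat_lit 20, nat_lit 8]⟩, C1.Rw.none,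
 ⟨nat_lit 5916, nat_lit 6021, ⟨.ofNat (nat_lit 251434), .ofNat (nat_lit 275269), .ofNat (nat_lit 256769), .ofNat (nat_lit 280605), .ofNat (nat_lit 254919), .ofNat (nat_lit 278479), .ofNat (nat_lit 260254), .ofNat (nat_lit 283814)⟩, ⟨.ofNat (nat_lit 387371), .ofNat (nat_lit 450933), .ofNat (nat_lit 408713), .ofNat (nat_lit 472275), .ofNat (nat_lit 386479), .ofNat (nat_lit 449305), .ofNat (nat_lit 407818), .ofNat (nat_lit 470645)⟩⟩, [⟨nat_lit 4, nat_lit 100, nat_lit 99, nat_lit 55, nat_lit 528400125⟩]⟩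
noncomputable def p038_l69 : Lf2 := ⟨nat_lit 0, nat_lit 2, [nat_lit 10, nat_lit 5, nat_lit 5, nat_lit 20], true, nat_lit 240, nat_lit 272, nat_lit 0, nat_lit 280, ⟨nat_lit 0, nat_lit 0, nat_lit 1000, nat_lit 6, nat_lit 104, nat_lit 1000, nat_lit 172, nat_lit 1000, nat_lit 88902, nat_lit 288, nat_lit 101400, nat_lit 293, nat_lit 51692876, nat_lit 0, nat_lit 0, nat_lit 3614748, false, false⟩,
 nat_lit 0, nat_lit 7381, nat_lit 0, nat_lit 0, nat_lit 4198, nat_lit 0, nat_lit 11, nat_lit 0, nat_lit 0, nat_lit 0, nat_lit 0, nat_lit 0, nat_lit 0, nat_lit 0, nat_lit 80, nat_lit 1000000, nat_lit 0, nat_lit 0, [(nat_lit 6, [(nat_lit 6, nat_lit 1000)])],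
 ⟨p038_k23, nat_lit 0, nat_lit 0, nat_lit 181, nat_lit 0, nat_lit 271850, [nat_lit 2257066667, nat_lit 1408000000, nat_lit 211200000], [], [nat_lit 14708859766, nat_lit 14962957629, nat_lit 14490122786, nat_lit 14739879677, nat_lit 16763855215, nat_lit 17108463174, nat_lit 16294390548, nat_lit 16634604240], nat_lit 1271250, nat_lit 1271250, nat_lit 230001, nat_lit 356250, nat_lit 1271250, nat_lit 1271250, [nat_lit 1100000, nat_lit 1442500, nat_lit 1271250], [nat_lit 9, nat_lit 40, nat_lit 20, nat_lit 80, nat_lit 2, nat_lit 226, nat_lit 20, nat_lit 7]⟩, C1.Rw.none,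
 ⟨nat_lit 5916, nat_lit 6021, ⟨.ofNat (nat_lit 235543), .ofNat (nat_lit 275269), .ofNat (nat_lit 240879), .ofNat (nat_lit 280605), .ofNat (nat_lit 239212), .ofNat (nat_lit 278479), .ofNat (nat_lit 244547), .ofNat (nat_lit 283814)⟩, ⟨.ofNat (nat_lit 387371), .ofNat (nat_lit 450933), .ofNat (nat_lit 408713), .ofNat (nat_lit 472275), .ofNat (nat_lit 386479), .ofNat (nat_lit 449305), .ofNat (nat_lit 407818), .ofNat (nat_lit 470645)⟩⟩, [⟨nat_lit 4, nat_lit 100, nat_lit 99, nat_lit 55, nat_lit 527191664⟩]⟩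
noncomputable def p038_l70 : Lf2 := ⟨nat_lit 0, nat_lit 1, [nat_lit 19, nat_lit 5, nat_lit 5, nat_lit 20], true, nat_lit 240, nat_lit 272, nat_lit 0, nat_lit 272, ⟨nat_lit 0, nat_lit 0, nat_lit 1000, nat_lit 6, nat_lit 100, nat_lit 1000, nat_lit 172, nat_lit 1000, nat_lit 88902, nat_lit 288, nat_lit 93750, nat_lit 290, nat_lit 51974211, nat_lit 0, nat_lit 0, nat_lit 3556618, false, false⟩,
 nat_lit 0, nat_lit 5703, nat_lit 0, nat_lit 0, nat_lit 3243, nat_lit 0, nat_lit 948, nat_lit 0, nat_lit 0, nat_lit 0, nat_lit 0, nat_lit 0, nat_lit 0, nat_lit 22743621033939, nat_lit 0, nat_lit 400000, nat_lit 0, nat_lit 0, [(nat_lit 6, [(nat_lit 5, nat_lit 1000)])],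
 ⟨p038_k29, nat_lit 0, nat_lit 0, nat_lit 0, nat_lit 0, nat_lit 334828, [nat_lit 856933334, nat_lit 786266667, nat_lit 33200000], [], [nat_lit 14877183491, nat_lit 15135207201, nat_lit 14871180885, nat_lit 15128328938, nat_lit 16626791518, nat_lit 16893536100, nat_lit 16595080874, nat_lit 16861042401], nat_lit 1271250, nat_lit 1271250, nat_lit 230001, nat_lit 254650, nat_lit 1271250, nat_lit 1271250, [nat_lit 490000, nat_lit 1100000, nat_lit 1442500], [nat_lit 6, nat_lit 40, nat_lit 20, nat_lit 40]⟩, C1.Rw.none,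
 ⟨nat_lit 5916, nat_lit 6021, ⟨.ofNat (nat_lit 240879), .ofNat (nat_lit 248824), .ofNat (nat_lit 246214), .ofNat (nat_lit 254159), .ofNat (nat_lit 244547), .ofNat (nat_lit 252401), .ofNat (nat_lit 249882), .ofNat (nat_lit 257735)⟩, ⟨.ofNat (nat_lit 387371), .ofNat (nat_lit 450933), .ofNat (nat_lit 408713), .ofNat (nat_lit 472275), .ofNat (nat_lit 386479), .ofNat (nat_lit 449305), .ofNat (nat_lit 407818), .ofNat (nat_lit 470645)⟩⟩, [⟨nat_lit 16, nat_lit 99, nat_lit 100, nat_lit 55, nat_lit 59410536⟩, ⟨nat_lit 16, nat_lit 100, nat_lit 97, nat_lit 62, nat_lit 341120627⟩]⟩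
noncomputable def p038_l71 : Lf2 := ⟨nat_lit 0, nat_lit 1, [nat_lit 19, nat_lit 5, nat_lit 5, nat_lit 20], true, nat_lit 240, nat_lit 272, nat_lit 0, nat_lit 272, ⟨nat_lit 0, nat_lit 0, nat_lit 1000, nat_lit 6, nat_lit 100, nat_lit 1000, nat_lit 172, nat_lit 1000, nat_lit 88902, nat_lit 288, nat_lit 93750, nat_lit 290, nat_lit 51974211, nat_lit 0, nat_lit 0, nat_lit 3556618, false, false⟩,
 nat_lit 0, nat_lit 583474, nat_lit 0, nat_lit 0, nat_lit 331864, nat_lit 0, nat_lit 60000, nat_lit 20000, nat_lit 0, nat_lit 0, nat_lit 0, nat_lit 0, nat_lit 0, nat_lit 400000000000000, nat_lit 0, nat_lit 1000000, nat_lit 0, nat_lit 0, [(nat_lit 6, [(nat_lit 6, nat_lit 1000)])],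
 ⟨p038_k17, nat_lit 0, nat_lit 0, nat_lit 163, nat_lit 0, nat_lit 334828, [nat_lit 320977066667, nat_lit 399808000000], [], [nat_lit 126755699599, nat_lit 135174742683, nat_lit 117684098572, nat_lit 126058759416, nat_lit 183404630371, nat_lit 190661783605, nat_lit 174040450070, nat_lit 181258857124], nat_lit 1271250, nat_lit 1271250, nat_lit 230001, nat_lit 254650, nat_lit 1271250, nat_lit 1271250, [nat_lit 1100000, nat_lit 1442500], [nat_lit 31, nat_lit 40, nat_lit 20, nat_lit 80, nat_lit 3, nat_lit 226, nat_lit 20, nat_lit 8]⟩, C1.Rw.none,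
 ⟨nat_lit 5916, nat_lit 6021, ⟨.ofNat (nat_lit 240879), .ofNat (nat_lit 248824), .ofNat (nat_lit 246214), .ofNat (nat_lit 254159), .ofNat (nat_lit 244547), .ofNat (nat_lit 252401), .ofNat (nat_lit 249882), .ofNat (nat_lit 257735)⟩, ⟨.ofNat (nat_lit 387371), .ofNat (nat_lit 450933), .ofNat (nat_lit 408713), .ofNat (nat_lit 472275), .ofNat (nat_lit 386479), .ofNat (nat_lit 449305), .ofNat (nat_lit 407818), .ofNat (nat_lit 470645)⟩⟩, [⟨nat_lit 16, nat_lit 99, nat_lit 100, nat_lit 55, nat_lit 10101010101⟩, ⟨nat_lit 16, nat_lit 100, nat_lit 97, nat_lit 62, nat_lit 10309278351⟩, ⟨nat_lit 4, nat_lit 100, nat_lit 99, nat_lit 55, nat_lit 10101010101⟩]⟩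
noncomputable def p038_l72 : Lf2 := ⟨nat_lit 0, nat_lit 1, [nat_lit 19, nat_lit 5, nat_lit 5, nat_lit 20], false, nat_lit 240, nat_lit 272, nat_lit 0, nat_lit 272, ⟨nat_lit 328, nat_lit 0, nat_lit 672, nat_lit 6, nat_lit 103, nat_lit 672, nat_lit 172, nat_lit 672, nat_lit 88902, nat_lit 288, nat_lit 98817, nat_lit 292, nat_lit 51762210, nat_lit 0, nat_lit 0, nat_lit 3600577, false, false⟩,
 nat_lit 9223, nat_lit 0, nat_lit 0, nat_lit 0, nat_lit 5245, nat_lit 5245, nat_lit 1491, nat_lit 0, nat_lit 0, nat_lit 0, nat_lit 0, nat_lit 0, nat_lit 0, nat_lit 0, nat_lit 0, nat_lit 672000, nat_lit 0, nat_lit 0, [(nat_lit 6, [(nat_lit 6, nat_lit 672)])],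
 ⟨p038_k17, nat_lit 0, nat_lit 0, nat_lit 161, nat_lit 0, nat_lit 334828, [nat_lit 2194252800, nat_lit 1920976000], [], [nat_lit 15226673208, nat_lit 15505853505, nat_lit 15154078868, nat_lit 15432251928, nat_lit 17143774691, nat_lit 17516304407, nat_lit 17067496955, nat_lit 17379775580], nat_lit 1271250, nat_lit 1271250, nat_lit 254650, nat_lit 279600, nat_lit 1271250, nat_lit 1271250, [nat_lit 1100000, nat_lit 1442500], [nat_lit 31, nat_lit 40, nat_lit 20, nat_lit 80, nat_lit 3, nat_lit 226, nat_lit 20, nat_lit 8]⟩, ⟨p038_k17, nat_lit 0, nat_lit 0, nat_lit 266, nat_lit 0, nat_lit 334828, [nat_lit 1537664000, nat_lit 2050000000], [], [nat_lit 11025255825, nat_lit 10343404776, nat_lit 10480046992, nat_lit 9799215046, nat_lit 7173774847, nat_lit 7437353534, nat_lit 7205863924, nat_lit 7252000412], nat_lit 1271250, nat_lit 1271250, nat_lit 254650, nat_lit 279600, nat_lit 0, nat_lit 1921000, [nat_lit 1100000, nat_lit 1442500],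 [nat_lit 31, nat_lit 40, nat_lit 20, nat_lit 80, nat_lit 3, nat_lit 317, nat_lit 100, nat_lit 13]⟩,
 ⟨nat_lit 5916, nat_lit 6021, ⟨.ofNat (nat_lit 248824), .ofNat (nat_lit 256769), .ofNat (nat_lit 254159), .ofNat (nat_lit 262105), .ofNat (nat_lit 252401), .ofNat (nat_lit 260254), .ofNat (nat_lit 257735), .ofNat (nat_lit 265589)⟩, ⟨.ofNat (nat_lit 387371), .ofNat (nat_lit 450933), .ofNat (nat_lit 408713), .ofNat (nat_lit 472275), .ofNat (nat_lit 386479), .ofNat (nat_lit 449305), .ofNat (nat_lit 407818), .ofNat (nat_lit 470645)⟩⟩, [⟨nat_lit 16, nat_lit 100, nat_lit 97, nat_lit 62, nat_lit 159051470⟩, ⟨nat_lit 4, nat_lit 100, nat_lit 99, nat_lit 55, nat_lit 466879277⟩]⟩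
noncomputable def p038_l73 : Lf2 := ⟨nat_lit 0, nat_lit 2, [nat_lit 10, nat_lit 5, nat_lit 5, nat_lit 20], false, nat_lit 240, nat_lit 272, nat_lit 0, nat_lit 160, ⟨nat_lit 1000, nat_lit 0, nat_lit 0, nat_lit 0, nat_lit 0, nat_lit 0, nat_lit 0, nat_lit 0, nat_lit 0, nat_lit 0, nat_lit 0, nat_lit 0, nat_lit 0, nat_lit 0, nat_lit 0, nat_lit 0, false, false⟩,
 nat_lit 18246, nat_lit 0, nat_lit 0, nat_lit 0, nat_lit 8347, nat_lit 10377, nat_lit 2498, nat_lit 0, nat_lit 0, nat_lit 8306, nat_lit 0, nat_lit 0, nat_lit 0, nat_lit 0, nat_lit 0, nat_lit 0, nat_lit 0, nat_lit 0, [],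
 ⟨p038_k23, nat_lit 0, nat_lit 0, nat_lit 190, nat_lit 0, nat_lit 294079, [nat_lit 4688000000, nat_lit 6250000000, nat_lit 7968000000], [], [nat_lit 16094887299, nat_lit 16452372018, nat_lit 15778766011, nat_lit 16133412367, nat_lit 18764037467, nat_lit 19265666021, nat_lit 18363117759, nat_lit 18751462161], nat_lit 1271250, nat_lit 1271250, nat_lit 230001, nat_lit 279600, nat_lit 1271250, nat_lit 1271250, [nat_lit 1100000, nat_lit 1442500, nat_lit 1271250], [nat_lit 9, nat_lit 40, nat_lit 20, nat_lit 80, nat_lit 2, nat_lit 226, nat_lit 20, nat_lit 7]⟩, ⟨p038_k23, nat_lit 0, nat_lit 0, nat_lit 295, nat_lit 0, nat_lit 294079, [nat_lit 4688000000, nat_lit 6250000000, nat_lit 7968000000], [], [nat_lit 20524904967, nat_lit 20142351880, nat_lit 18399473299, nat_lit 19179777341, nat_lit 15837063398, nat_lit 14597821304, nat_lit 16115040611, nat_lit 14879183495], nat_lit 1271250, nat_lit 1271250, nat_lit 230001, nat_lit 279600,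 nat_lit 0, nat_lit 1100001, [nat_lit 1100000, nat_lit 1442500, nat_lit 1271250], [nat_lit 9, nat_lit 40, nat_lit 20, nat_lit 80, nat_lit 2, nat_lit 272, nat_lit 60, nat_lit 9]⟩,
 zbF0, [⟨nat_lit 16, nat_lit 99, nat_lit 100, nat_lit 55, nat_lit 1234363482⟩]⟩
noncomputable def p038_l74 : Lf2 := ⟨nat_lit 0, nat_lit 2, [nat_lit 10, nat_lit 5, nat_lit 5, nat_lit 20], false, nat_lit 240, nat_lit 272, nat_lit 160, nat_lit 200, ⟨nat_lit 1000, nat_lit 0, nat_lit 0, nat_lit 0, nat_lit 0, nat_lit 0, nat_lit 0, nat_lit 0, nat_lit 0, nat_lit 0, nat_lit 0, nat_lit 0, nat_lit 0, nat_lit 0, nat_lit 0, nat_lit 0, false, false⟩,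
 nat_lit 24643, nat_lit 0, nat_lit 0, nat_lit 0, nat_lit 11454, nat_lit 14016, nat_lit 1638, nat_lit 0, nat_lit 0, nat_lit 3607, nat_lit 0, nat_lit 0, nat_lit 0, nat_lit 0, nat_lit 0, nat_lit 0, nat_lit 0, nat_lit 0, [],
 ⟨p038_k23, nat_lit 0, nat_lit 0, nat_lit 190, nat_lit 0, nat_lit 294079, [nat_lit 4688000000, nat_lit 6250000000, nat_lit 7968000000], [], [nat_lit 15849091222, nat_lit 16325319196, nat_lit 15253816908, nat_lit 15725589722, nat_lit 20252632166, nat_lit 20881098473, nat_lit 19487889232, nat_lit 20112779189], nat_lit 1271250, nat_lit 1271250, nat_lit 230001, nat_lit 279600, nat_lit 1271250, nat_lit 1271250, [nat_lit 1100000, nat_lit 1442500, nat_lit 1271250], [nat_lit 9, nat_lit 40, nat_lit 20, nat_lit 80, nat_lit 2, nat_lit 226, nat_lit 20, nat_lit 7]⟩, ⟨p038_k23, nat_lit 0, nat_lit 0, nat_lit 185, nat_lit 0, nat_lit 294079, [nat_lit 4688000000, nat_lit 6250000000, nat_lit 7968000000], [], [nat_lit 15251023982,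 nat_lit 13453268750, nat_lit 12380247240, nat_lit 10587781646, nat_lit 12051408726, nat_lit 12970591864, nat_lit 11125199720, nat_lit 12038786405], nat_lit 1271250, nat_lit 1271250, nat_lit 230001, nat_lit 279600, nat_lit 1100001, nat_lit 1442500, [nat_lit 1100000, nat_lit 1442500, nat_lit 1271250], [nat_lit 9, nat_lit 40, nat_lit 20, nat_lit 80, nat_lit 2, nat_lit 289, nat_lit 75, nat_lit 9]⟩,
 zbF0, [⟨nat_lit 4, nat_lit 100, nat_lit 99, nat_lit 55, nat_lit 1733963619⟩]⟩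
noncomputable def p038_l75 : Lf2 := ⟨nat_lit 0, nat_lit 2, [nat_lit 10, nat_lit 5, nat_lit 5, nat_lit 20], false, nat_lit 240, nat_lit 272, nat_lit 200, nat_lit 240, ⟨nat_lit 1000, nat_lit 0, nat_lit 0, nat_lit 0, nat_lit 0, nat_lit 0, nat_lit 0, nat_lit 0, nat_lit 0, nat_lit 0, nat_lit 0, nat_lit 0, nat_lit 0, nat_lit 0, nat_lit 0, nat_lit 0, false, false⟩,
 nat_lit 15806, nat_lit 0, nat_lit 0, nat_lit 0, nat_lit 8274, nat_lit 8990, nat_lit 2448, nat_lit 0, nat_lit 0, nat_lit 2619, nat_lit 0, nat_lit 0, nat_lit 0, nat_lit 26620065888052, nat_lit 0, nat_lit 0, nat_lit 0, nat_lit 0, [],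
 ⟨p038_k23, nat_lit 0, nat_lit 0, nat_lit 190, nat_lit 0, nat_lit 294079, [nat_lit 4688000000, nat_lit 6250000000, nat_lit 7968000000], [], [nat_lit 16252999887, nat_lit 16609208248, nat_lit 15940901191, nat_lit 16293747886, nat_lit 18839085487, nat_lit 19228095102, nat_lit 18442925882, nat_lit 18829254372], nat_lit 1271250, nat_lit 1271250, nat_lit 230001, nat_lit 279600, nat_lit 1271250, nat_lit 1271250, [nat_lit 1100000, nat_lit 1442500, nat_lit 1271250], [nat_lit 9, nat_lit 40, nat_lit 20, nat_lit 80, nat_lit 2, nat_lit 226, nat_lit 20, nat_lit 7]⟩, ⟨p038_k23, nat_lit 0, nat_lit 0, nat_lit 175, nat_lit 0, nat_lit 294079, [nat_lit 4688000000, nat_lit 6250000000, nat_lit 7968000000], [], [nat_lit 13276662455, nat_lit 13728831680, nat_lit 12851263108, nat_lit 13300186481, nat_lit 15360638070, nat_lit 15767645480, nat_lit 14924269581, nat_lit 15343072659], nat_lit 1271250, nat_lit 1271250, nat_lit 230001, nat_lit 279600,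 nat_lit 1271250, nat_lit 1271250, [nat_lit 1100000, nat_lit 1442500, nat_lit 1271250], [nat_lit 9, nat_lit 40, nat_lit 20, nat_lit 80, nat_lit 2, nat_lit 289, nat_lit 75, nat_lit 9]⟩,
 zbF0, [⟨nat_lit 16, nat_lit 100, nat_lit 97, nat_lit 62, nat_lit 856905234⟩, ⟨nat_lit 4, nat_lit 100, nat_lit 99, nat_lit 55, nat_lit 202616812⟩]⟩
noncomputable def p038_l76 : Lf2 := ⟨nat_lit 0, nat_lit 2, [nat_lit 10, nat_lit 5, nat_lit 5, nat_lit 20], false, nat_lit 240, nat_lit 272, nat_lit 240, nat_lit 272, ⟨nat_lit 1000, nat_lit 0, nat_lit 0, nat_lit 0, nat_lit 0, nat_lit 0, nat_lit 0, nat_lit 0, nat_lit 0, nat_lit 0, nat_lit 0, nat_lit 0, nat_lit 0, nat_lit 0, nat_lit 0, nat_lit 0, false, false⟩,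
 nat_lit 14547, nat_lit 0, nat_lit 0, nat_lit 0, nat_lit 8273, nat_lit 8273, nat_lit 2448, nat_lit 0, nat_lit 0, nat_lit 2448, nat_lit 0, nat_lit 0, nat_lit 0, nat_lit 0, nat_lit 0, nat_lit 0, nat_lit 0, nat_lit 0, [],
 ⟨p038_k23, nat_lit 0, nat_lit 0, nat_lit 190, nat_lit 0, nat_lit 294079, [nat_lit 4688000000, nat_lit 6250000000, nat_lit 7968000000], [], [nat_lit 16254742012, nat_lit 16610382762, nat_lit 15942698420, nat_lit 16295520462, nat_lit 18839689740, nat_lit 19228671494, nat_lit 18443595342, nat_lit 18829896217], nat_lit 1271250, nat_lit 1271250, nat_lit 230001, nat_lit 279600, nat_lit 1271250, nat_lit 1271250, [nat_lit 1100000, nat_lit 1442500, nat_lit 1271250], [nat_lit 9, nat_lit 40, nat_lit 20, nat_lit 80, nat_lit 2, nat_lit 226, nat_lit 20, nat_lit 7]⟩, ⟨p038_k23, nat_lit 0, nat_lit 0, nat_lit 190, nat_lit 0, nat_lit 294079, [nat_lit 4688000000, nat_lit 6250000000, nat_lit 7968000000], [], [nat_lit 16254742012,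 nat_lit 16610382762, nat_lit 15942698420, nat_lit 16295520462, nat_lit 18839689740, nat_lit 19228671494, nat_lit 18443595342, nat_lit 18829896217], nat_lit 1271250, nat_lit 1271250, nat_lit 230001, nat_lit 279600, nat_lit 1271250, nat_lit 1271250, [nat_lit 1100000, nat_lit 1442500, nat_lit 1271250], [nat_lit 9, nat_lit 40, nat_lit 20, nat_lit 80, nat_lit 2, nat_lit 226, nat_lit 20, nat_lit 7]⟩,
 zbF0, [⟨nat_lit 16, nat_lit 100, nat_lit 97, nat_lit 62, nat_lit 481266134⟩, ⟨nat_lit 19, nat_lit 100, nat_lit 97, nat_lit 62, nat_lit 481266134⟩, ⟨nat_lit 11, nat_lit 100, nat_lit 100, nat_lit 66, nat_lit 520031964⟩]⟩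
noncomputable def p038_l77 : Lf2 := ⟨nat_lit 0, nat_lit 2, [nat_lit 10, nat_lit 5, nat_lit 5, nat_lit 20], false, nat_lit 240, nat_lit 272, nat_lit 0, nat_lit 272, ⟨nat_lit 197, nat_lit 0, nat_lit 803, nat_lit 6, nat_lit 109, nat_lit 803, nat_lit 172, nat_lit 803, nat_lit 88902, nat_lit 288, nat_lit 109350, nat_lit 296, nat_lit 51369683, nat_lit 0, nat_lit 0, nat_lit 3678840, false, false⟩,
 nat_lit 8695, nat_lit 0, nat_lit 0, nat_lit 0, nat_lit 4945, nat_lit 3889, nat_lit 456, nat_lit 0, nat_lit 0, nat_lit 659, nat_lit 0, nat_lit 0, nat_lit 0, nat_lit 4385388094021, nat_lit 0, nat_lit 803000, nat_lit 0, nat_lit 0, [(nat_lit 6, [(nat_lit 6, nat_lit 803)])],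
 ⟨p038_k23, nat_lit 0, nat_lit 0, nat_lit 194, nat_lit 0, nat_lit 322064, [nat_lit 1708120534, nat_lit 1077074000, nat_lit 189846600], [], [nat_lit 15003619402, nat_lit 15166085716, nat_lit 14810633182, nat_lit 14971358184, nat_lit 16875839118, nat_lit 17098970741, nat_lit 16564176239, nat_lit 16726445524], nat_lit 1271250, nat_lit 1271250, nat_lit 279600, nat_lit 356250, nat_lit 1271250, nat_lit 1271250, [nat_lit 1100000, nat_lit 1442500, nat_lit 1271250], [nat_lit 9, nat_lit 40, nat_lit 20, nat_lit 80, nat_lit 2, nat_lit 226, nat_lit 20, nat_lit 7]⟩, ⟨p038_k23, nat_lit 0, nat_lit 0, nat_lit 299, nat_lit 0, nat_lit 322064, [nat_lit 923536000, nat_lit 1231250000, nat_lit 1569696000], [], [nat_lit 6196810852, nat_lit 5893921765, nat_lit 4984046035, nat_lit 5126874499, nat_lit 4886121937, nat_lit 4618448056, nat_lit 5067256453, nat_lit 4800639602], nat_lit 1271250, nat_lit 1271250, nat_lit 279600, nat_lit 356250, nat_lit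 0, nat_lit 1921000, [nat_lit 1100000, nat_lit 1442500, nat_lit 1271250], [nat_lit 9, nat_lit 40, nat_lit 20, nat_lit 80, nat_lit 2, nat_lit 317, nat_lit 100, nat_lit 11]⟩,
 ⟨nat_lit 5958, nat_lit 6021, ⟨.ofNat (nat_lit 256769), .ofNat (nat_lit 280605), .ofNat (nat_lit 259970), .ofNat (nat_lit 283806), .ofNat (nat_lit 258863), .ofNat (nat_lit 282533), .ofNat (nat_lit 262064), .ofNat (nat_lit 285734)⟩, ⟨.ofNat (nat_lit 387371), .ofNat (nat_lit 450933), .ofNat (nat_lit 408713), .ofNat (nat_lit 472275), .ofNat (nat_lit 386838), .ofNat (nat_lit 449958), .ofNat (nat_lit 408178), .ofNat (nat_lit 471298)⟩⟩, [⟨nat_lit 16, nat_lit 99, nat_lit 100, nat_lit 55, nat_lit 592381114⟩, ⟨nat_lit 19, nat_lit 99, nat_lit 100, nat_lit 55, nat_lit 18356617⟩]⟩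
noncomputable def p038_l78 : Lf2 := ⟨nat_lit 0, nat_lit 2, [nat_lit 10, nat_lit 5, nat_lit 5, nat_lit 20], false, nat_lit 240, nat_lit 272, nat_lit 0, nat_lit 272, ⟨nat_lit 232, nat_lit 0, nat_lit 768, nat_lit 6, nat_lit 110, nat_lit 768, nat_lit 172, nat_lit 768, nat_lit 95515, nat_lit 290, nat_lit 112067, nat_lit 297, nat_lit 51317031, nat_lit 0, nat_lit 0, nat_lit 3690828, false, false⟩,
 nat_lit 7916, nat_lit 729, nat_lit 0, nat_lit 0, nat_lit 4985, nat_lit 4502, nat_lit 508, nat_lit 0, nat_lit 0, nat_lit 621, nat_lit 0, nat_lit 0, nat_lit 0, nat_lit 0, nat_lit 0, nat_lit 768000, nat_lit 0, nat_lit 0, [(nat_lit 6, [(nat_lit 6, nat_lit 768)])],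
 ⟨p038_k30, nat_lit 0, nat_lit 0, nat_lit 158, nat_lit 0, nat_lit 334731, [nat_lit 1838003201, nat_lit 1302544000], [], [nat_lit 15354465913, nat_lit 15463171235, nat_lit 15156422579, nat_lit 15263960651, nat_lit 17120370487, nat_lit 17265331879, nat_lit 16903463796, nat_lit 17002308839], nat_lit 1271250, nat_lit 1271250, nat_lit 279600, nat_lit 356250, nat_lit 1271250, nat_lit 1271250, [nat_lit 1100000, nat_lit 1442500], [nat_lit 31, nat_lit 40, nat_lit 20, nat_lit 80, nat_lit 3, nat_lit 226, nat_lit 20, nat_lit 8]⟩, ⟨p038_k23, nat_lit 0, nat_lit 0, nat_lit 308, nat_lit 0, nat_lit 340012, [nat_lit 1087616000, nat_lit 1450000000, nat_lit 1848576000], [], [nat_lit 7308064102, nat_lit 6778142016, nat_lit 5904138362, nat_lit 6107716920, nat_lit 6009901081, nat_lit 5493458203, nat_lit 6220797231, nat_lit 5706393759], nat_lit 1271250, nat_lit 1271250, nat_lit 279600, nat_lit 356250, nat_lit 0, nat_lit 1921000, [nat_lit 1100000,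 nat_lit 1442500, nat_lit 1271250], [nat_lit 9, nat_lit 40, nat_lit 20, nat_lit 80, nat_lit 2, nat_lit 317, nat_lit 100, nat_lit 11]⟩,
 ⟨nat_lit 5916, nat_lit 5959, ⟨.ofNat (nat_lit 258863), .ofNat (nat_lit 282533), .ofNat (nat_lit 264198), .ofNat (nat_lit 287868), .ofNat (nat_lit 260254), .ofNat (nat_lit 283814), .ofNat (nat_lit 265589), .ofNat (nat_lit 289149)⟩, ⟨.ofNat (nat_lit 386838), .ofNat (nat_lit 449958), .ofNat (nat_lit 408178), .ofNat (nat_lit 471298), .ofNat (nat_lit 386479), .ofNat (nat_lit 449305), .ofNat (nat_lit 407818), .ofNat (nat_lit 470645)⟩⟩, [⟨nat_lit 4, nat_lit 100, nat_lit 99, nat_lit 54, nat_lit 572752822⟩, ⟨nat_lit 7, nat_lit 100, nat_lit 99, nat_lit 55, nat_lit 29876240⟩]⟩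
noncomputable def p038_l79 : Lf2 := ⟨nat_lit 0, nat_lit 2, [nat_lit 10, nat_lit 5, nat_lit 5, nat_lit 20], true, nat_lit 240, nat_lit 272, nat_lit 0, nat_lit 280, ⟨nat_lit 0, nat_lit 0, nat_lit 1000, nat_lit 6, nat_lit 121, nat_lit 1000, nat_lit 172, nat_lit 1000, nat_lit 88902, nat_lit 288, nat_lit 138017, nat_lit 306, nat_lit 50519154, nat_lit 0, nat_lit 0, nat_lit 3840340, false, false⟩,
 nat_lit 0, nat_lit 7552, nat_lit 0, nat_lit 0, nat_lit 4295, nat_lit 0, nat_lit 20, nat_lit 0, nat_lit 0, nat_lit 0, nat_lit 0, nat_lit 0, nat_lit 0, nat_lit 6206914416264, nat_lit 80, nat_lit 1000000, nat_lit 0, nat_lit 0, [(nat_lit 6, [(nat_lit 6, nat_lit 1000)])],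
 ⟨p038_k23, nat_lit 0, nat_lit 0, nat_lit 193, nat_lit 0, nat_lit 340012, [nat_lit 2257066667, nat_lit 1408000000, nat_lit 211200000], [], [nat_lit 14302205240, nat_lit 14554314817, nat_lit 14230875052, nat_lit 14496650964, nat_lit 16321747118, nat_lit 16665694718, nat_lit 16081607665, nat_lit 16419718638], nat_lit 1271250, nat_lit 1271250, nat_lit 356250, nat_lit 490000, nat_lit 1271250, nat_lit 1271250, [nat_lit 1100000, nat_lit 1442500, nat_lit 1271250], [nat_lit 9, nat_lit 40, nat_lit 20, nat_lit 80, nat_lit 2, nat_lit 226, nat_lit 20, nat_lit 7]⟩, C1.Rw.none,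
 ⟨nat_lit 5916, nat_lit 6021, ⟨.ofNat (nat_lit 275269), .ofNat (nat_lit 314996), .ofNat (nat_lit 285941), .ofNat (nat_lit 325667), .ofNat (nat_lit 278479), .ofNat (nat_lit 317746), .ofNat (nat_lit 289149), .ofNat (nat_lit 328416)⟩, ⟨.ofNat (nat_lit 387371), .ofNat (nat_lit 450933), .ofNat (nat_lit 408713), .ofNat (nat_lit 472275), .ofNat (nat_lit 386479), .ofNat (nat_lit 449305), .ofNat (nat_lit 407818), .ofNat (nat_lit 470645)⟩⟩, [⟨nat_lit 4, nat_lit 100, nat_lit 99, nat_lit 55, nat_lit 549018498⟩]⟩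
noncomputable def b_VL_600_600_5_74 : St := ⟨true, nat_lit 1, nat_lit 1, nat_lit 1, nat_lit 40, nat_lit 255, nat_lit 260, nat_lit 250, nat_lit 260, nat_lit 40, nat_lit 80, nat_lit 20, nat_lit 40, nat_lit 240, nat_lit 272, nat_lit 0, nat_lit 280, nat_lit 0, nat_lit 8, nat_lit 0, nat_lit 0, nat_lit 0, nat_lit 0⟩
theorem d_VL_600_600_5_74 (h : EB TB.env) : Dead b_VL_600_600_5_74 := chkB_sound0 h (T :=
(.spl (nat_lit 2) (nat_lit 60)
(.spl (nat_lit 1) (nat_lit 255)
(.spl (nat_lit 6) (nat_lit 4)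
(.spl (nat_lit 2) (nat_lit 48)
(.spl (nat_lit 2) (nat_lit 44)
(.spl (nat_lit 1) (nat_lit 253)
(.leaf p038_l56)
(.trX (nat_lit 19) (nat_lit 100) (nat_lit 96) (nat_lit 62) (nat_lit 276) (.spl (nat_lit 1) (nat_lit 254)
(.leaf p038_l57)
(.spl (nat_lit 0) (nat_lit 258)
(.spl (nat_lit 5) (nat_lit 160)
(.leaf p038_l58)
(.spl (nat_lit 5) (nat_lit 240)
(.spl (nat_lit 5) (nat_lit 200)
(.leaf p038_l59)
(.leaf p038_l60))
(.leaf p038_l61)))
(.spl (nat_lit 0) (nat_lit 259)
(.spl (nat_lit 5) (nat_lit 160)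
(.leaf p038_l62)
(.spl (nat_lit 5) (nat_lit 240)
(.spl (nat_lit 5) (nat_lit 200)
(.leaf p038_l63)
(.leaf p038_l64))
(.leaf p038_l65)))
(.trX (nat_lit 16) (nat_lit 100) (nat_lit 99) (nat_lit 63) (nat_lit 268) (.leaf p038_l66)))))))
(.leaf p038_l67))
(.leaf p038_l68))
(.leaf p038_l69))
(.trX (nat_lit 19) (nat_lit 100) (nat_lit 97) (nat_lit 62) (nat_lit 272) (.spl (nat_lit 2) (nat_lit 48)
(.spl (nat_lit 6) (nat_lit 4)
(.spl (nat_lit 2) (nat_lit 44)
(.spl (nat_lit 7) (nat_lit 600)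
(.leaf p038_l70)
(.leaf p038_l71))
(.leaf p038_l72))
(.spl (nat_lit 5) (nat_lit 160)
(.leaf p038_l73)
(.spl (nat_lit 5) (nat_lit 240)
(.spl (nat_lit 5) (nat_lit 200)
(.leaf p038_l74)
(.leaf p038_l75))
(.leaf p038_l76))))
(.spl (nat_lit 0) (nat_lit 258)
(.ord (.leaf p038_l77))
(.leaf p038_l78)))))
(.leaf p038_l79))) (by decide +kernel)
noncomputable def p038_l80 : Lf2 := ⟨nat_lit 0, nat_lit 5, [nat_lit 4, nat_lit 5, nat_lit 5, nat_lit 20], true, nat_lit 240, nat_lit 272, nat_lit 0, nat_lit 288, ⟨nat_lit 0, nat_lit 0, nat_lit 1000, nat_lit 6, nat_lit 101, nat_lit 1000, nat_lit 172, nat_lit 1000, nat_lit 88902, nat_lit 288, nat_lit 96267, nat_lit 291, nat_lit 51908434, nat_lit 0, nat_lit 0, nat_lit 3570360, false, false⟩,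
 nat_lit 0, nat_lit 7092, nat_lit 0, nat_lit 0, nat_lit 4033, nat_lit 0, nat_lit 10, nat_lit 0, nat_lit 0, nat_lit 0, nat_lit 0, nat_lit 0, nat_lit 0, nat_lit 0, nat_lit 80, nat_lit 1000000, nat_lit 0, nat_lit 0, [(nat_lit 6, [(nat_lit 6, nat_lit 1000)])],
 ⟨p038_k31, nat_lit 0, nat_lit 0, nat_lit 181, nat_lit 0, nat_lit 222566, [nat_lit 2257066667, nat_lit 1408000000, nat_lit 211200000], [], [nat_lit 15395907552, nat_lit 15648842223, nat_lit 14760784069, nat_lit 15019573096, nat_lit 17432306172, nat_lit 17773128178, nat_lit 16446568345, nat_lit 16685779336], nat_lit 1271250, nat_lit 1271250, nat_lit 111251, nat_lit 490000, nat_lit 1271250, nat_lit 1271250, [nat_lit 1100000, nat_lit 1442500, nat_lit 1271250], [nat_lit 9, nat_lit 40, nat_lit 20, nat_lit 80, nat_lit 2, nat_lit 226, nat_lit 20, nat_lit 7]⟩, C1.Rw.none,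
 ⟨nat_lit 5916, nat_lit 6021, ⟨.ofNat (nat_lit 185145), .ofNat (nat_lit 304325), .ofNat (nat_lit 195817), .ofNat (nat_lit 314996), .ofNat (nat_lit 189276), .ofNat (nat_lit 307076), .ofNat (nat_lit 199946), .ofNat (nat_lit 317746)⟩, ⟨.ofNat (nat_lit 387371), .ofNat (nat_lit 450933), .ofNat (nat_lit 408713), .ofNat (nat_lit 472275), .ofNat (nat_lit 386479), .ofNat (nat_lit 449305), .ofNat (nat_lit 407818), .ofNat (nat_lit 470645)⟩⟩, [⟨nat_lit 0, nat_lit 100, nat_lit 98, nat_lit 51, nat_lit 170195084⟩, ⟨nat_lit 4, nat_lit 100, nat_lit 99, nat_lit 55, nat_lit 522229572⟩]⟩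
noncomputable def p038_l81 : Lf2 := ⟨nat_lit 0, nat_lit 4, [nat_lit 38, nat_lit 5, nat_lit 5, nat_lit 20], false, nat_lit 240, nat_lit 272, nat_lit 0, nat_lit 160, ⟨nat_lit 359, nat_lit 0, nat_lit 641, nat_lit 6, nat_lit 91, nat_lit 641, nat_lit 172, nat_lit 641, nat_lit 88902, nat_lit 288, nat_lit 77067, nat_lit 283, nat_lit 52561819, nat_lit 0, nat_lit 0, nat_lit 3429536, false, false⟩,
 nat_lit 9505, nat_lit 0, nat_lit 0, nat_lit 0, nat_lit 5406, nat_lit 5280, nat_lit 868, nat_lit 0, nat_lit 0, nat_lit 0, nat_lit 0, nat_lit 0, nat_lit 0, nat_lit 0, nat_lit 0, nat_lit 575000, nat_lit 0, nat_lit 0, [(nat_lit 6, [(nat_lit 5, nat_lit 110), (nat_lit 6, nat_lit 531)])],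
 ⟨p038_k32, nat_lit 0, nat_lit 0, nat_lit 192, nat_lit 0, nat_lit 262221, [nat_lit 2357750400, nat_lit 2145450000, nat_lit 1842822200], [], [nat_lit 16307469589, nat_lit 16594854267, nat_lit 15792238353, nat_lit 16076437764, nat_lit 18230194924, nat_lit 18624526099, nat_lit 17654726398, nat_lit 17915199131], nat_lit 1271250, nat_lit 1271250, nat_lit 134400, nat_lit 230001, nat_lit 1271250, nat_lit 1271250, [nat_lit 1100000, nat_lit 1442500, nat_lit 1271250], [nat_lit 9, nat_lit 40, nat_lit 20, nat_lit 80, nat_lit 2, nat_lit 215, nat_lit 10, nat_lit 7]⟩, ⟨p038_k33, nat_lit 0, nat_lit 0, nat_lit 301, nat_lit 0, nat_lit 269362, [nat_lit 1682992000, nat_lit 2243750000, nat_lit 2860512000], [], [nat_lit 10581987620, nat_lit 10541383090, nat_lit 8398251428, nat_lit 9125360600, nat_lit 7560038824, nat_lit 6291947560, nat_lit 7684333060, nat_lit 6423236740], nat_lit 1271250, nat_lit 1271250, nat_lit 134400, nat_lit 230001, nat_lit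 0, nat_lit 1100001, [nat_lit 1100000, nat_lit 1442500, nat_lit 1271250], [nat_lit 9, nat_lit 40, nat_lit 20, nat_lit 80, nat_lit 2, nat_lit 260, nat_lit 50, nat_lit 9]⟩,
 ⟨nat_lit 5916, nat_lit 6021, ⟨.ofNat (nat_lit 203762), .ofNat (nat_lit 235543), .ofNat (nat_lit 214433), .ofNat (nat_lit 246214), .ofNat (nat_lit 207799), .ofNat (nat_lit 239212), .ofNat (nat_lit 218469), .ofNat (nat_lit 249882)⟩, ⟨.ofNat (nat_lit 387371), .ofNat (nat_lit 450933), .ofNat (nat_lit 408713), .ofNat (nat_lit 472275), .ofNat (nat_lit 386479), .ofNat (nat_lit 449305), .ofNat (nat_lit 407818), .ofNat (nat_lit 470645)⟩⟩, [⟨nat_lit 0, nat_lit 100, nat_lit 99, nat_lit 52, nat_lit 893630549⟩, ⟨nat_lit 4, nat_lit 100, nat_lit 99, nat_lit 55, nat_lit 659539033⟩]⟩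
noncomputable def p038_l82 : Lf2 := ⟨nat_lit 0, nat_lit 4, [nat_lit 38, nat_lit 5, nat_lit 5, nat_lit 20], false, nat_lit 240, nat_lit 272, nat_lit 160, nat_lit 200, ⟨nat_lit 273, nat_lit 0, nat_lit 727, nat_lit 6, nat_lit 91, nat_lit 727, nat_lit 172, nat_lit 727, nat_lit 88902, nat_lit 288, nat_lit 77067, nat_lit 283, nat_lit 52561819, nat_lit 0, nat_lit 0, nat_lit 3429536, false, false⟩,
 nat_lit 9662, nat_lit 0, nat_lit 0, nat_lit 0, nat_lit 5495, nat_lit 5367, nat_lit 718, nat_lit 0, nat_lit 0, nat_lit 0, nat_lit 0, nat_lit 0, nat_lit 0, nat_lit 0, nat_lit 0, nat_lit 290800, nat_lit 0, nat_lit 0, [(nat_lit 6, [(nat_lit 5, nat_lit 727)])],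
 ⟨p038_k32, nat_lit 0, nat_lit 0, nat_lit 192, nat_lit 0, nat_lit 262221, [nat_lit 2310419201, nat_lit 1730386401, nat_lit 1528055799], [], [nat_lit 16142310300, nat_lit 16455056196, nat_lit 15598930400, nat_lit 15859793620, nat_lit 18291609835, nat_lit 18689444159, nat_lit 17508877397, nat_lit 17791988608], nat_lit 1271250, nat_lit 1271250, nat_lit 134400, nat_lit 230001, nat_lit 1271250, nat_lit 1271250, [nat_lit 1100000, nat_lit 1442500, nat_lit 1271250], [nat_lit 9, nat_lit 40, nat_lit 20, nat_lit 80, nat_lit 2, nat_lit 215, nat_lit 10, nat_lit 7]⟩, ⟨p038_k33, nat_lit 0, nat_lit 0, nat_lit 193, nat_lit 0, nat_lit 269362, [nat_lit 1279824000, nat_lit 1706250000, nat_lit 2175264000], [], [nat_lit 6201948878, nat_lit 4816926904, nat_lit 3982230669, nat_lit 2605439526, nat_lit 3989153535, nat_lit 4654561593, nat_lit 2944934928, nat_lit 3605568738], nat_lit 1271250, nat_lit 1271250, nat_lit 134400, nat_lit 230001, nat_lit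 1100001, nat_lit 1442500, [nat_lit 1100000, nat_lit 1442500, nat_lit 1271250], [nat_lit 9, nat_lit 40, nat_lit 20, nat_lit 80, nat_lit 2, nat_lit 272, nat_lit 60, nat_lit 9]⟩,
 ⟨nat_lit 5916, nat_lit 6021, ⟨.ofNat (nat_lit 203762), .ofNat (nat_lit 235543), .ofNat (nat_lit 214433), .ofNat (nat_lit 246214), .ofNat (nat_lit 207799), .ofNat (nat_lit 239212), .ofNat (nat_lit 218469), .ofNat (nat_lit 249882)⟩, ⟨.ofNat (nat_lit 387371), .ofNat (nat_lit 450933), .ofNat (nat_lit 408713), .ofNat (nat_lit 472275), .ofNat (nat_lit 386479), .ofNat (nat_lit 449305), .ofNat (nat_lit 407818), .ofNat (nat_lit 470645)⟩⟩, [⟨nat_lit 0, nat_lit 100, nat_lit 99, nat_lit 52, nat_lit 1161270562⟩, ⟨nat_lit 4, nat_lit 100, nat_lit 99, nat_lit 55, nat_lit 684768381⟩]⟩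
noncomputable def p038_l83 : Lf2 := ⟨nat_lit 0, nat_lit 4, [nat_lit 38, nat_lit 5, nat_lit 5, nat_lit 20], false, nat_lit 240, nat_lit 272, nat_lit 200, nat_lit 240, ⟨nat_lit 1000, nat_lit 0, nat_lit 0, nat_lit 0, nat_lit 0, nat_lit 0, nat_lit 0, nat_lit 0, nat_lit 0, nat_lit 0, nat_lit 0, nat_lit 0, nat_lit 0, nat_lit 0, nat_lit 0, nat_lit 0, false, false⟩,
 nat_lit 19109, nat_lit 0, nat_lit 0, nat_lit 0, nat_lit 10868, nat_lit 10615, nat_lit 1135, nat_lit 0, nat_lit 0, nat_lit 2021, nat_lit 0, nat_lit 0, nat_lit 0, nat_lit 0, nat_lit 0, nat_lit 0, nat_lit 0, nat_lit 0, [],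
 ⟨p038_k32, nat_lit 0, nat_lit 0, nat_lit 192, nat_lit 0, nat_lit 262221, [nat_lit 4688000000, nat_lit 6250000000, nat_lit 7968000000], [], [nat_lit 18925064692, nat_lit 19388678375, nat_lit 17352798224, nat_lit 17811843136, nat_lit 21999276317, nat_lit 22608598476, nat_lit 20395537408, nat_lit 20806407812], nat_lit 1271250, nat_lit 1271250, nat_lit 134400, nat_lit 230001, nat_lit 1271250, nat_lit 1271250, [nat_lit 1100000, nat_lit 1442500, nat_lit 1271250], [nat_lit 9, nat_lit 40, nat_lit 20, nat_lit 80, nat_lit 2, nat_lit 215, nat_lit 10, nat_lit 7]⟩, ⟨p038_k33, nat_lit 0, nat_lit 0, nat_lit 181, nat_lit 0, nat_lit 269362, [nat_lit 4688000000, nat_lit 6250000000, nat_lit 7968000000], [], [nat_lit 14740423919, nat_lit 15759141089, nat_lit 13224430855, nat_lit 14232858680, nat_lit 17052538190, nat_lit 18081183294, nat_lit 15527210910, nat_lit 16431279980], nat_lit 1271250, nat_lit 1271250, nat_lit 134400, nat_lit 230001,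 nat_lit 1271250, nat_lit 1271250, [nat_lit 1100000, nat_lit 1442500, nat_lit 1271250], [nat_lit 9, nat_lit 40, nat_lit 20, nat_lit 80, nat_lit 2, nat_lit 289, nat_lit 75, nat_lit 9]⟩,
 zbF0, [⟨nat_lit 0, nat_lit 100, nat_lit 100, nat_lit 56, nat_lit 1713010089⟩, ⟨nat_lit 16, nat_lit 99, nat_lit 100, nat_lit 55, nat_lit 1308824816⟩]⟩
noncomputable def p038_l84 : Lf2 := ⟨nat_lit 0, nat_lit 4, [nat_lit 38, nat_lit 5, nat_lit 5, nat_lit 20], false, nat_lit 240, nat_lit 272, nat_lit 240, nat_lit 280, ⟨nat_lit 600, nat_lit 0, nat_lit 400, nat_lit 6, nat_lit 91, nat_lit 400, nat_lit 172, nat_lit 400, nat_lit 88902, nat_lit 288, nat_lit 77067, nat_lit 283, nat_lit 52561819, nat_lit 0, nat_lit 0, nat_lit 3429536, false, false⟩,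
 nat_lit 11853, nat_lit 0, nat_lit 0, nat_lit 0, nat_lit 6741, nat_lit 6585, nat_lit 1422, nat_lit 0, nat_lit 0, nat_lit 600, nat_lit 0, nat_lit 0, nat_lit 0, nat_lit 1177011189828, nat_lit 0, nat_lit 160000, nat_lit 0, nat_lit 0, [(nat_lit 6, [(nat_lit 5, nat_lit 400)])],
 ⟨p038_k32, nat_lit 0, nat_lit 0, nat_lit 192, nat_lit 0, nat_lit 262221, [nat_lit 3379840000, nat_lit 3763280000, nat_lit 4407160000], [], [nat_lit 16837044150, nat_lit 17184988753, nat_lit 15957981520, nat_lit 16301938532, nat_lit 19151418589, nat_lit 19598296993, nat_lit 18227919417, nat_lit 18540658015], nat_lit 1271250, nat_lit 1271250, nat_lit 134400, nat_lit 230001, nat_lit 1271250, nat_lit 1271250, [nat_lit 1100000, nat_lit 1442500, nat_lit 1271250], [nat_lit 9, nat_lit 40, nat_lit 20, nat_lit 80, nat_lit 2, nat_lit 215, nat_lit 10, nat_lit 7]⟩, ⟨p038_k33, nat_lit 0, nat_lit 0, nat_lit 198, nat_lit 0, nat_lit 269362, [nat_lit 2812800000, nat_lit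 3750000000, nat_lit 4780800000], [], [nat_lit 11340537810, nat_lit 11900472949, nat_lit 10389167490, nat_lit 10943579220, nat_lit 13698363929, nat_lit 14279392867, nat_lit 12722681183, nat_lit 13204200225], nat_lit 1271250, nat_lit 1271250, nat_lit 134400, nat_lit 230001, nat_lit 1271250, nat_lit 1271250, [nat_lit 1100000, nat_lit 1442500, nat_lit 1271250], [nat_lit 9, nat_lit 40, nat_lit 20, nat_lit 80, nat_lit 2, nat_lit 215, nat_lit 10, nat_lit 7]⟩,
 ⟨nat_lit 5916, nat_lit 6021, ⟨.ofNat (nat_lit 203762), .ofNat (nat_lit 235543), .ofNat (nat_lit 214433), .ofNat (nat_lit 246214), .ofNat (nat_lit 207799), .ofNat (nat_lit 239212), .ofNat (nat_lit 218469), .ofNat (nat_lit 249882)⟩, ⟨.ofNat (nat_lit 387371), .ofNat (nat_lit 450933), .ofNat (nat_lit 408713), .ofNat (nat_lit 472275), .ofNat (nat_lit 386479), .ofNat (nat_lit 449305), .ofNat (nat_lit 407818), .ofNat (nat_lit 470645)⟩⟩, [⟨nat_lit 0, nat_lit 100, nat_lit 100, nat_lit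 56, nat_lit 633862157⟩, ⟨nat_lit 4, nat_lit 100, nat_lit 99, nat_lit 55, nat_lit 445830456⟩, ⟨nat_lit 7, nat_lit 100, nat_lit 100, nat_lit 55, nat_lit 348341007⟩, ⟨nat_lit 11, nat_lit 99, nat_lit 100, nat_lit 56, nat_lit 435147119⟩]⟩
noncomputable def p038_l85 : Lf2 := ⟨nat_lit 0, nat_lit 5, [nat_lit 4, nat_lit 5, nat_lit 5, nat_lit 20], true, nat_lit 240, nat_lit 272, nat_lit 0, nat_lit 280, ⟨nat_lit 0, nat_lit 0, nat_lit 1000, nat_lit 6, nat_lit 90, nat_lit 1000, nat_lit 172, nat_lit 1000, nat_lit 88902, nat_lit 288, nat_lit 77067, nat_lit 283, nat_lit 52599458, nat_lit 0, nat_lit 0, nat_lit 3420180, false, false⟩,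
 nat_lit 0, nat_lit 8212, nat_lit 0, nat_lit 0, nat_lit 4670, nat_lit 0, nat_lit 0, nat_lit 0, nat_lit 0, nat_lit 0, nat_lit 0, nat_lit 0, nat_lit 0, nat_lit 19742518956832, nat_lit 41, nat_lit 400000, nat_lit 0, nat_lit 0, [(nat_lit 6, [(nat_lit 5, nat_lit 1000)])],
 ⟨p038_k34, nat_lit 0, nat_lit 0, nat_lit 151, nat_lit 0, nat_lit 175705, [nat_lit 2073600001, nat_lit 7600000], [], [nat_lit 15637817879, nat_lit 15811757793, nat_lit 15132423901, nat_lit 15278420114, nat_lit 17722314311, nat_lit 17941531102, nat_lit 16990798809, nat_lit 17208642510], nat_lit 1271250, nat_lit 1271250, nat_lit 134400, nat_lit 230001, nat_lit 1271250, nat_lit 1271250, [nat_lit 1100000, nat_lit 1785000], [nat_lit 39, nat_lit 40, nat_lit 20, nat_lit 80, nat_lit 7, nat_lit 215, nat_lit 10, nat_lit 7]⟩, C1.Rw.none,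
 ⟨nat_lit 5958, nat_lit 6021, ⟨.ofNat (nat_lit 203762), .ofNat (nat_lit 235543), .ofNat (nat_lit 212299), .ofNat (nat_lit 244080), .ofNat (nat_lit 206188), .ofNat (nat_lit 237748), .ofNat (nat_lit 214724), .ofNat (nat_lit 246284)⟩, ⟨.ofNat (nat_lit 387371), .ofNat (nat_lit 450933), .ofNat (nat_lit 408713), .ofNat (nat_lit 472275), .ofNat (nat_lit 386838), .ofNat (nat_lit 449958), .ofNat (nat_lit 408178), .ofNat (nat_lit 471298)⟩⟩, [⟨nat_lit 0, nat_lit 100, nat_lit 100, nat_lit 58, nat_lit 278437615⟩, ⟨nat_lit 4, nat_lit 100, nat_lit 99, nat_lit 55, nat_lit 602357530⟩]⟩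
noncomputable def p038_l86 : Lf2 := ⟨nat_lit 0, nat_lit 5, [nat_lit 4, nat_lit 5, nat_lit 5, nat_lit 20], true, nat_lit 240, nat_lit 272, nat_lit 0, nat_lit 280, ⟨nat_lit 0, nat_lit 0, nat_lit 1000, nat_lit 6, nat_lit 93, nat_lit 1000, nat_lit 172, nat_lit 1000, nat_lit 95515, nat_lit 290, nat_lit 81667, nat_lit 285, nat_lit 52444323, nat_lit 0, nat_lit 0, nat_lit 3456925, false, false⟩,
 nat_lit 0, nat_lit 8066, nat_lit 0, nat_lit 0, nat_lit 4652, nat_lit 0, nat_lit 0, nat_lit 0, nat_lit 0, nat_lit 0, nat_lit 0, nat_lit 0, nat_lit 0, nat_lit 20369956534317, nat_lit 41, nat_lit 400000, nat_lit 0, nat_lit 0, [(nat_lit 6, [(nat_lit 5, nat_lit 1000)])],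
 ⟨p038_k35, nat_lit 0, nat_lit 0, nat_lit 154, nat_lit 0, nat_lit 191443, [nat_lit 2073600001, nat_lit 7600000], [], [nat_lit 15687923921, nat_lit 15803423108, nat_lit 15307670589, nat_lit 15404848353, nat_lit 17746405100, nat_lit 17892037812, nat_lit 17199565381, nat_lit 17344512847], nat_lit 1271250, nat_lit 1271250, nat_lit 157850, nat_lit 230001, nat_lit 1271250, nat_lit 1271250, [nat_lit 1100000, nat_lit 1785000], [nat_lit 39, nat_lit 40, nat_lit 20, nat_lit 80, nat_lit 7, nat_lit 215, nat_lit 10, nat_lit 6]⟩, C1.Rw.none,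
 ⟨nat_lit 5916, nat_lit 5959, ⟨.ofNat (nat_lit 214078), .ofNat (nat_lit 237748), .ofNat (nat_lit 224748), .ofNat (nat_lit 248418), .ofNat (nat_lit 215652), .ofNat (nat_lit 239212), .ofNat (nat_lit 226322), .ofNat (nat_lit 249882)⟩, ⟨.ofNat (nat_lit 386838), .ofNat (nat_lit 449958), .ofNat (nat_lit 408178), .ofNat (nat_lit 471298), .ofNat (nat_lit 386479), .ofNat (nat_lit 449305), .ofNat (nat_lit 407818), .ofNat (nat_lit 470645)⟩⟩, [⟨nat_lit 0, nat_lit 100, nat_lit 100, nat_lit 60, nat_lit 277915903⟩, ⟨nat_lit 4, nat_lit 100, nat_lit 99, nat_lit 54, nat_lit 591345696⟩]⟩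
noncomputable def p038_l87 : Lf2 := ⟨nat_lit 0, nat_lit 4, [nat_lit 38, nat_lit 5, nat_lit 5, nat_lit 20], false, nat_lit 240, nat_lit 272, nat_lit 0, nat_lit 160, ⟨nat_lit 680, nat_lit 0, nat_lit 320, nat_lit 6, nat_lit 105, nat_lit 320, nat_lit 172, nat_lit 320, nat_lit 88902, nat_lit 288, nat_lit 104017, nat_lit 294, nat_lit 51620474, nat_lit 0, nat_lit 0, nat_lit 3629439, false, false⟩,
 nat_lit 17444, nat_lit 0, nat_lit 0, nat_lit 0, nat_lit 7650, nat_lit 9690, nat_lit 1898, nat_lit 0, nat_lit 0, nat_lit 24, nat_lit 0, nat_lit 0, nat_lit 0, nat_lit 0, nat_lit 0, nat_lit 80000, nat_lit 0, nat_lit 0, [(nat_lit 6, [(nat_lit 4, nat_lit 320)])],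
 ⟨p038_k32, nat_lit 0, nat_lit 0, nat_lit 177, nat_lit 0, nat_lit 262221, [nat_lit 4101248000, nat_lit 4278544000, nat_lit 5181056000], [], [nat_lit 15122190075, nat_lit 15463812100, nat_lit 14427905575, nat_lit 14761389000, nat_lit 18423620655, nat_lit 18903272581, nat_lit 17267946026, nat_lit 17741040660], nat_lit 1271250, nat_lit 1271250, nat_lit 230001, nat_lit 356250, nat_lit 1271250, nat_lit 1271250, [nat_lit 1100000, nat_lit 1442500, nat_lit 1271250], [nat_lit 9, nat_lit 40, nat_lit 20, nat_lit 80, nat_lit 2, nat_lit 226, nat_lit 20, nat_lit 7]⟩, ⟨p038_k33, nat_lit 0, nat_lit 0, nat_lit 285, nat_lit 0, nat_lit 269362, [nat_lit 3187840000, nat_lit 4250000000, nat_lit 5418240000], [], [nat_lit 16156411670, nat_lit 16905731600, nat_lit 14161680350, nat_lit 15275078180, nat_lit 14962954840, nat_lit 12648556480, nat_lit 15571499590, nat_lit 13272905620], nat_lit 1271250, nat_lit 1271250, nat_lit 230001, nat_lit 356250,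 nat_lit 0, nat_lit 1100001, [nat_lit 1100000, nat_lit 1442500, nat_lit 1271250], [nat_lit 9, nat_lit 40, nat_lit 20, nat_lit 80, nat_lit 2, nat_lit 272, nat_lit 60, nat_lit 9]⟩,
 ⟨nat_lit 5916, nat_lit 6021, ⟨.ofNat (nat_lit 235543), .ofNat (nat_lit 275269), .ofNat (nat_lit 246214), .ofNat (nat_lit 285941), .ofNat (nat_lit 239212), .ofNat (nat_lit 278479), .ofNat (nat_lit 249882), .ofNat (nat_lit 289149)⟩, ⟨.ofNat (nat_lit 387371), .ofNat (nat_lit 450933), .ofNat (nat_lit 408713), .ofNat (nat_lit 472275), .ofNat (nat_lit 386479), .ofNat (nat_lit 449305), .ofNat (nat_lit 407818), .ofNat (nat_lit 470645)⟩⟩, [⟨nat_lit 4, nat_lit 100, nat_lit 99, nat_lit 55, nat_lit 1258998140⟩]⟩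
noncomputable def p038_l88 : Lf2 := ⟨nat_lit 0, nat_lit 4, [nat_lit 38, nat_lit 5, nat_lit 5, nat_lit 20], false, nat_lit 240, nat_lit 272, nat_lit 160, nat_lit 200, ⟨nat_lit 1000, nat_lit 0, nat_lit 0, nat_lit 0, nat_lit 0, nat_lit 0, nat_lit 0, nat_lit 0, nat_lit 0, nat_lit 0, nat_lit 0, nat_lit 0, nat_lit 0, nat_lit 0, nat_lit 0, nat_lit 0, false, false⟩,
 nat_lit 30543, nat_lit 0, nat_lit 0, nat_lit 0, nat_lit 15564, nat_lit 16968, nat_lit 0, nat_lit 0, nat_lit 0, nat_lit 213, nat_lit 0, nat_lit 0, nat_lit 0, nat_lit 0, nat_lit 0, nat_lit 0, nat_lit 0, nat_lit 0, [],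
 ⟨p038_k32, nat_lit 0, nat_lit 0, nat_lit 177, nat_lit 0, nat_lit 262221, [nat_lit 4688000000, nat_lit 6250000000, nat_lit 7968000000], [], [nat_lit 16667520952, nat_lit 17256687328, nat_lit 14516690142, nat_lit 15094507672, nat_lit 22228772363, nat_lit 23018023925, nat_lit 19499903746, nat_lit 20277639106], nat_lit 1271250, nat_lit 1271250, nat_lit 230001, nat_lit 356250, nat_lit 1271250, nat_lit 1271250, [nat_lit 1100000, nat_lit 1442500, nat_lit 1271250], [nat_lit 9, nat_lit 40, nat_lit 20, nat_lit 80, nat_lit 2, nat_lit 226, nat_lit 20, nat_lit 7]⟩, ⟨p038_k33, nat_lit 0, nat_lit 0, nat_lit 185, nat_lit 0, nat_lit 269362, [nat_lit 4688000000, nat_lit 6250000000, nat_lit 7968000000], [], [nat_lit 16737507572, nat_lit 12384723500, nat_lit 8032974476, nat_lit 7966571088, nat_lit 11680378136, nat_lit 13095747376, nat_lit 9359875068, nat_lit 10747654376], nat_lit 1271250, nat_lit 1271250, nat_lit 230001, nat_lit 356250,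 nat_lit 1100001, nat_lit 1442500, [nat_lit 1100000, nat_lit 1442500, nat_lit 1271250], [nat_lit 9, nat_lit 40, nat_lit 20, nat_lit 80, nat_lit 2, nat_lit 289, nat_lit 75, nat_lit 9]⟩,
 zbF0, [⟨nat_lit 4, nat_lit 100, nat_lit 99, nat_lit 55, nat_lit 2276189149⟩]⟩
noncomputable def p038_l89 : Lf2 := ⟨nat_lit 0, nat_lit 4, [nat_lit 38, nat_lit 5, nat_lit 5, nat_lit 20], false, nat_lit 240, nat_lit 272, nat_lit 200, nat_lit 240, ⟨nat_lit 1000, nat_lit 0, nat_lit 0, nat_lit 0, nat_lit 0, nat_lit 0, nat_lit 0, nat_lit 0, nat_lit 0, nat_lit 0, nat_lit 0, nat_lit 0, nat_lit 0, nat_lit 0, nat_lit 0, nat_lit 0, false, false⟩,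
 nat_lit 18913, nat_lit 0, nat_lit 0, nat_lit 0, nat_lit 10757, nat_lit 10507, nat_lit 1329, nat_lit 0, nat_lit 0, nat_lit 2216, nat_lit 0, nat_lit 0, nat_lit 0, nat_lit 0, nat_lit 0, nat_lit 0, nat_lit 0, nat_lit 0, [],
 ⟨p038_k32, nat_lit 0, nat_lit 0, nat_lit 177, nat_lit 0, nat_lit 262221, [nat_lit 4688000000, nat_lit 6250000000, nat_lit 7968000000], [], [nat_lit 17001218151, nat_lit 17457187364, nat_lit 15625407934, nat_lit 16073039886, nat_lit 20023191743, nat_lit 20518705033, nat_lit 18591700883, nat_lit 18992684404], nat_lit 1271250, nat_lit 1271250, nat_lit 230001, nat_lit 356250, nat_lit 1271250, nat_lit 1271250, [nat_lit 1100000, nat_lit 1442500, nat_lit 1271250], [nat_lit 9, nat_lit 40, nat_lit 20, nat_lit 80, nat_lit 2, nat_lit 226, nat_lit 20, nat_lit 7]⟩, ⟨p038_k33, nat_lit 0, nat_lit 0, nat_lit 165, nat_lit 0, nat_lit 269362, [nat_lit 4688000000, nat_lit 6250000000, nat_lit 7968000000], [], [nat_lit 12922150939,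 nat_lit 13923660824, nat_lit 11626207407, nat_lit 12609327824, nat_lit 15213390438, nat_lit 16111474364, nat_lit 13886067731, nat_lit 14767790386], nat_lit 1271250, nat_lit 1271250, nat_lit 230001, nat_lit 356250, nat_lit 1271250, nat_lit 1271250, [nat_lit 1100000, nat_lit 1442500, nat_lit 1271250], [nat_lit 9, nat_lit 40, nat_lit 20, nat_lit 80, nat_lit 2, nat_lit 289, nat_lit 75, nat_lit 9]⟩,
 zbF0, [⟨nat_lit 4, nat_lit 100, nat_lit 99, nat_lit 55, nat_lit 1305375646⟩]⟩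
noncomputable def p038_l90 : Lf2 := ⟨nat_lit 0, nat_lit 4, [nat_lit 38, nat_lit 5, nat_lit 5, nat_lit 20], false, nat_lit 240, nat_lit 272, nat_lit 240, nat_lit 280, ⟨nat_lit 1000, nat_lit 0, nat_lit 0, nat_lit 0, nat_lit 0, nat_lit 0, nat_lit 0, nat_lit 0, nat_lit 0, nat_lit 0, nat_lit 0, nat_lit 0, nat_lit 0, nat_lit 0, nat_lit 0, nat_lit 0, false, false⟩,
 nat_lit 17926, nat_lit 0, nat_lit 0, nat_lit 0, nat_lit 10195, nat_lit 9958, nat_lit 1541, nat_lit 0, nat_lit 0, nat_lit 1651, nat_lit 0, nat_lit 0, nat_lit 0, nat_lit 12476422898075, nat_lit 0, nat_lit 0, nat_lit 0, nat_lit 0, [],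
 ⟨p038_k32, nat_lit 0, nat_lit 0, nat_lit 177, nat_lit 0, nat_lit 262221, [nat_lit 4688000000, nat_lit 6250000000, nat_lit 7968000000], [], [nat_lit 16915661385, nat_lit 17356058140, nat_lit 15630461023, nat_lit 16062872610, nat_lit 19832497478, nat_lit 20227365289, nat_lit 18493988338, nat_lit 18881909687], nat_lit 1271250, nat_lit 1271250, nat_lit 230001, nat_lit 356250, nat_lit 1271250, nat_lit 1271250, [nat_lit 1100000, nat_lit 1442500, nat_lit 1271250], [nat_lit 9, nat_lit 40, nat_lit 20, nat_lit 80, nat_lit 2, nat_lit 226, nat_lit 20, nat_lit 7]⟩, ⟨p038_k33, nat_lit 0, nat_lit 0, nat_lit 184, nat_lit 0, nat_lit 269362, [nat_lit 4688000000, nat_lit 6250000000, nat_lit 7968000000], [], [nat_lit 16730636372, nat_lit 17598295816, nat_lit 15491483614, nat_lit 16343469684, nat_lit 20377006431, nat_lit 21133172630, nat_lit 19071196511, nat_lit 19814232302], nat_lit 1271250, nat_lit 1271250, nat_lit 230001, nat_lit 356250,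 nat_lit 1271250, nat_lit 1271250, [nat_lit 1100000, nat_lit 1442500, nat_lit 1271250], [nat_lit 9, nat_lit 40, nat_lit 20, nat_lit 80, nat_lit 2, nat_lit 226, nat_lit 20, nat_lit 7]⟩,
 zbF0, [⟨nat_lit 16, nat_lit 100, nat_lit 97, nat_lit 62, nat_lit 654271920⟩, ⟨nat_lit 19, nat_lit 100, nat_lit 95, nat_lit 62, nat_lit 641995260⟩, ⟨nat_lit 11, nat_lit 99, nat_lit 100, nat_lit 58, nat_lit 479485544⟩]⟩
noncomputable def p038_l91 : Lf2 := ⟨nat_lit 0, nat_lit 4, [nat_lit 38, nat_lit 5, nat_lit 5, nat_lit 20], true, nat_lit 240, nat_lit 272, nat_lit 0, nat_lit 280, ⟨nat_lit 0, nat_lit 0, nat_lit 1000, nat_lit 6, nat_lit 121, nat_lit 1000, nat_lit 172, nat_lit 1000, nat_lit 88902, nat_lit 288, nat_lit 138017, nat_lit 306, nat_lit 50519154, nat_lit 0, nat_lit 0, nat_lit 3840340, false, false⟩,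
 nat_lit 0, nat_lit 7588, nat_lit 0, nat_lit 0, nat_lit 4315, nat_lit 0, nat_lit 15, nat_lit 0, nat_lit 0, nat_lit 0, nat_lit 0, nat_lit 0, nat_lit 0, nat_lit 26581653765100, nat_lit 80, nat_lit 989800, nat_lit 0, nat_lit 0, [(nat_lit 6, [(nat_lit 5, nat_lit 17), (nat_lit 6, nat_lit 983)])],
 ⟨p038_k32, nat_lit 0, nat_lit 0, nat_lit 162, nat_lit 0, nat_lit 262221, [nat_lit 2264555734, nat_lit 1411828400, nat_lit 225364400], [], [nat_lit 14279018767, nat_lit 14531613434, nat_lit 14205402116, nat_lit 14471711378, nat_lit 16327387648, nat_lit 16672105126, nat_lit 16084227927, nat_lit 16423090966], nat_lit 1271250, nat_lit 1271250, nat_lit 356250, nat_lit 490000, nat_lit 1271250, nat_lit 1271250, [nat_lit 1100000, nat_lit 1442500, nat_lit 1271250], [nat_lit 9, nat_lit 40, nat_lit 20, nat_lit 80, nat_lit 2, nat_lit 226, nat_lit 20, nat_lit 7]⟩, C1.Rw.none,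
 ⟨nat_lit 5916, nat_lit 6021, ⟨.ofNat (nat_lit 275269), .ofNat (nat_lit 314996), .ofNat (nat_lit 285941), .ofNat (nat_lit 325667), .ofNat (nat_lit 278479), .ofNat (nat_lit 317746), .ofNat (nat_lit 289149), .ofNat (nat_lit 328416)⟩, ⟨.ofNat (nat_lit 387371), .ofNat (nat_lit 450933), .ofNat (nat_lit 408713), .ofNat (nat_lit 472275), .ofNat (nat_lit 386479), .ofNat (nat_lit 449305), .ofNat (nat_lit 407818), .ofNat (nat_lit 470645)⟩⟩, [⟨nat_lit 4, nat_lit 100, nat_lit 99, nat_lit 55, nat_lit 557872927⟩]⟩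
noncomputable def p038_l92 : Lf2 := ⟨nat_lit 0, nat_lit 5, [nat_lit 4, nat_lit 5, nat_lit 5, nat_lit 20], true, nat_lit 240, nat_lit 272, nat_lit 0, nat_lit 280, ⟨nat_lit 0, nat_lit 0, nat_lit 1000, nat_lit 6, nat_lit 113, nat_lit 1000, nat_lit 172, nat_lit 1000, nat_lit 88902, nat_lit 288, nat_lit 120417, nat_lit 300, nat_lit 51076414, nat_lit 0, nat_lit 0, nat_lit 3736483, false, false⟩,
 nat_lit 0, nat_lit 8180, nat_lit 0, nat_lit 0, nat_lit 4652, nat_lit 0, nat_lit 207, nat_lit 0, nat_lit 0, nat_lit 0, nat_lit 0, nat_lit 0, nat_lit 0, nat_lit 26987618857668, nat_lit 41, nat_lit 400000, nat_lit 0, nat_lit 0, [(nat_lit 6, [(nat_lit 5, nat_lit 1000)])],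
 ⟨p038_k31, nat_lit 0, nat_lit 0, nat_lit 151, nat_lit 0, nat_lit 194529, [nat_lit 2073600001, nat_lit 853200001, nat_lit 108399999], [], [nat_lit 14807303940, nat_lit 15050248352, nat_lit 14389890120, nat_lit 14665186330, nat_lit 16982144181, nat_lit 17344512847, nat_lit 16186161687, nat_lit 16479914693], nat_lit 1271250, nat_lit 1271250, nat_lit 230001, nat_lit 490000, nat_lit 1271250, nat_lit 1271250, [nat_lit 1100000, nat_lit 1442500, nat_lit 1271250], [nat_lit 9, nat_lit 40, nat_lit 20, nat_lit 80, nat_lit 2, nat_lit 226, nat_lit 20, nat_lit 7]⟩, C1.Rw.none,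
 ⟨nat_lit 5916, nat_lit 6021, ⟨.ofNat (nat_lit 235543), .ofNat (nat_lit 314996), .ofNat (nat_lit 246214), .ofNat (nat_lit 325667), .ofNat (nat_lit 239212), .ofNat (nat_lit 317746), .ofNat (nat_lit 249882), .ofNat (nat_lit 328416)⟩, ⟨.ofNat (nat_lit 387371), .ofNat (nat_lit 450933), .ofNat (nat_lit 408713), .ofNat (nat_lit 472275), .ofNat (nat_lit 386479), .ofNat (nat_lit 449305), .ofNat (nat_lit 407818), .ofNat (nat_lit 470645)⟩⟩, [⟨nat_lit 4, nat_lit 100, nat_lit 99, nat_lit 55, nat_lit 601386957⟩]⟩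
noncomputable def b_VL_600_600_5_75 : St := ⟨true, nat_lit 1, nat_lit 1, nat_lit 1, nat_lit 40, nat_lit 255, nat_lit 260, nat_lit 240, nat_lit 260, nat_lit 20, nat_lit 80, nat_lit 20, nat_lit 40, nat_lit 240, nat_lit 272, nat_lit 0, nat_lit 288, nat_lit 8, nat_lit 20, nat_lit 0, nat_lit 0, nat_lit 0, nat_lit 0⟩
theorem d_VL_600_600_5_75 (h : EB TB.env) : Dead b_VL_600_600_5_75 := chkB_sound0 h (T :=
(.spl (nat_lit 1) (nat_lit 250)
(.leaf p038_l80)
(.trZ (nat_lit 0) (nat_lit 100) (nat_lit 99) (nat_lit 52) (nat_lit 24) (.trX (nat_lit 19) (nat_lit 100) (nat_lit 95) (nat_lit 62) (nat_lit 280) (.spl (nat_lit 2) (nat_lit 40)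
(.spl (nat_lit 6) (nat_lit 16)
(.spl (nat_lit 5) (nat_lit 160)
(.leaf p038_l81)
(.spl (nat_lit 5) (nat_lit 240)
(.spl (nat_lit 5) (nat_lit 200)
(.leaf p038_l82)
(.leaf p038_l83))
(.leaf p038_l84)))
(.spl (nat_lit 0) (nat_lit 258)
(.ord (.leaf p038_l85))
(.trZ (nat_lit 0) (nat_lit 100) (nat_lit 99) (nat_lit 54) (nat_lit 28) (.leaf p038_l86))))
(.spl (nat_lit 6) (nat_lit 16)
(.spl (nat_lit 2) (nat_lit 60)
(.spl (nat_lit 5) (nat_lit 160)
(.leaf p038_l87)
(.spl (nat_lit 5) (nat_lit 240)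
(.spl (nat_lit 5) (nat_lit 200)
(.leaf p038_l88)
(.leaf p038_l89))
(.leaf p038_l90)))
(.leaf p038_l91))
(.leaf p038_l92))))))) (by decide +kernel)
noncomputable def p038_l93 : Lf2 := ⟨nat_lit 0, nat_lit 10, [nat_lit 0, nat_lit 5, nat_lit 5, nat_lit 20], true, nat_lit 240, nat_lit 260, nat_lit 0, nat_lit 288, ⟨nat_lit 0, nat_lit 0, nat_lit 1000, nat_lit 6, nat_lit 84, nat_lit 1000, nat_lit 167, nat_lit 1000, nat_lit 264600, nat_lit 341, nat_lit 66150, nat_lit 278, nat_lit 53370251, nat_lit 0, nat_lit 0, nat_lit 3285780, false, false⟩,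
 nat_lit 0, nat_lit 8400, nat_lit 0, nat_lit 0, nat_lit 4666, nat_lit 0, nat_lit 460, nat_lit 0, nat_lit 0, nat_lit 0, nat_lit 0, nat_lit 0, nat_lit 0, nat_lit 18302401191705, nat_lit 69, nat_lit 400000, nat_lit 0, nat_lit 0, [(nat_lit 6, [(nat_lit 5, nat_lit 1000)])],
 ⟨p038_k36, nat_lit 0, nat_lit 0, nat_lit 172, nat_lit 0, nat_lit 124350, [nat_lit 2521600001, nat_lit 1460000001, nat_lit 7200000], [], [nat_lit 15147542668, nat_lit 15408165874, nat_lit 14461395896, nat_lit 14719321140, nat_lit 16538603784, nat_lit 16918079931, nat_lit 15637610578, nat_lit 16013992827], nat_lit 1271250, nat_lit 1271250, nat_lit 111251, nat_lit 230001, nat_lit 1271250, nat_lit 1271250, [nat_lit 1100000, nat_lit 1442500, nat_lit 1271250], [nat_lit 11, nat_lit 40, nat_lit 20, nat_lit 80, nat_lit 1, nat_lit 373, nat_lit 150, nat_lit 10]⟩, C1.Rw.none,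
 ⟨nat_lit 6020, nat_lit 6124, ⟨.ofNat (nat_lit 180982), .ofNat (nat_lit 221172), .ofNat (nat_lit 196993), .ofNat (nat_lit 237183), .ofNat (nat_lit 185145), .ofNat (nat_lit 224872), .ofNat (nat_lit 201152), .ofNat (nat_lit 240879)⟩, ⟨.ofNat (nat_lit 388246), .ofNat (nat_lit 428436), .ofNat (nat_lit 409594), .ofNat (nat_lit 449785), .ofNat (nat_lit 387371), .ofNat (nat_lit 427097), .ofNat (nat_lit 408713), .ofNat (nat_lit 448439)⟩⟩, [⟨nat_lit 0, nat_lit 100, nat_lit 100, nat_lit 55, nat_lit 281887022⟩, ⟨nat_lit 4, nat_lit 99, nat_lit 100, nat_lit 55, nat_lit 584969999⟩]⟩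
noncomputable def p038_l94 : Lf2 := ⟨nat_lit 0, nat_lit 10, [nat_lit 0, nat_lit 5, nat_lit 5, nat_lit 20], true, nat_lit 240, nat_lit 260, nat_lit 0, nat_lit 288, ⟨nat_lit 0, nat_lit 0, nat_lit 1000, nat_lit 6, nat_lit 87, nat_lit 1000, nat_lit 167, nat_lit 1000, nat_lit 260417, nat_lit 340, nat_lit 70417, nat_lit 280, nat_lit 53244937, nat_lit 0, nat_lit 0, nat_lit 3318869, false, false⟩,
 nat_lit 0, nat_lit 8316, nat_lit 0, nat_lit 0, nat_lit 4729, nat_lit 0, nat_lit 373, nat_lit 0, nat_lit 0, nat_lit 0, nat_lit 0, nat_lit 0, nat_lit 0, nat_lit 17034138502969, nat_lit 69, nat_lit 400000, nat_lit 0, nat_lit 0, [(nat_lit 6, [(nat_lit 5, nat_lit 1000)])],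
 ⟨p038_k37, nat_lit 0, nat_lit 0, nat_lit 202, nat_lit 0, nat_lit 171444, [nat_lit 2521600001, nat_lit 679600001, nat_lit 7200000], [], [nat_lit 15335698781, nat_lit 15710729104, nat_lit 14633457160, nat_lit 14895193992, nat_lit 16957701639, nat_lit 17339805957, nat_lit 16037208926, nat_lit 16416197894], nat_lit 1271250, nat_lit 1271250, nat_lit 111251, nat_lit 230001, nat_lit 1271250, nat_lit 1271250, [nat_lit 1100000, nat_lit 1785000, nat_lit 1271250], [nat_lit 29, nat_lit 40, nat_lit 20, nat_lit 80, nat_lit 17, nat_lit 373, nat_lit 150, nat_lit 10]⟩, C1.Rw.none,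
 ⟨nat_lit 5916, nat_lit 6021, ⟨.ofNat (nat_lit 185145), .ofNat (nat_lit 224872), .ofNat (nat_lit 206488), .ofNat (nat_lit 246214), .ofNat (nat_lit 189276), .ofNat (nat_lit 228543), .ofNat (nat_lit 210615), .ofNat (nat_lit 249882)⟩, ⟨.ofNat (nat_lit 387371), .ofNat (nat_lit 427097), .ofNat (nat_lit 408713), .ofNat (nat_lit 448439), .ofNat (nat_lit 386479), .ofNat (nat_lit 425745), .ofNat (nat_lit 407818), .ofNat (nat_lit 447085)⟩⟩, [⟨nat_lit 0, nat_lit 100, nat_lit 100, nat_lit 60, nat_lit 313188066⟩, ⟨nat_lit 16, nat_lit 99, nat_lit 100, nat_lit 55, nat_lit 658641852⟩]⟩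
noncomputable def p038_l95 : Lf2 := ⟨nat_lit 0, nat_lit 10, [nat_lit 0, nat_lit 5, nat_lit 5, nat_lit 20], true, nat_lit 260, nat_lit 280, nat_lit 0, nat_lit 268, ⟨nat_lit 0, nat_lit 0, nat_lit 1000, nat_lit 6, nat_lit 84, nat_lit 1000, nat_lit 183, nat_lit 1000, nat_lit 51683, nat_lit 270, nat_lit 66150, nat_lit 278, nat_lit 51846747, nat_lit 0, nat_lit 0, nat_lit 3472335, false, false⟩,
 nat_lit 0, nat_lit 8113, nat_lit 0, nat_lit 281, nat_lit 4507, nat_lit 0, nat_lit 315, nat_lit 0, nat_lit 0, nat_lit 0, nat_lit 0, nat_lit 0, nat_lit 0, nat_lit 18600684349235, nat_lit 69, nat_lit 400000, nat_lit 0, nat_lit 0, [(nat_lit 6, [(nat_lit 5, nat_lit 1000)])],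
 ⟨p038_k38, nat_lit 0, nat_lit 0, nat_lit 188, nat_lit 0, nat_lit 124350, [nat_lit 2521600001, nat_lit 679600001, nat_lit 7200000], [], [nat_lit 16575099766, nat_lit 16818904728, nat_lit 15911100499, nat_lit 16152489654, nat_lit 18077640256, nat_lit 18428257743, nat_lit 17202485955, nat_lit 17550444021], nat_lit 1271250, nat_lit 1271250, nat_lit 111251, nat_lit 230001, nat_lit 1271250, nat_lit 1271250, [nat_lit 1100000, nat_lit 1785000, nat_lit 1271250], [nat_lit 29, nat_lit 40, nat_lit 20, nat_lit 80, nat_lit 17, nat_lit 373, nat_lit 150, nat_lit 10]⟩, C1.Rw.none,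
 ⟨nat_lit 6020, nat_lit 6124, ⟨.ofNat (nat_lit 180982), .ofNat (nat_lit 221172), .ofNat (nat_lit 196993), .ofNat (nat_lit 237183), .ofNat (nat_lit 185145), .ofNat (nat_lit 224872), .ofNat (nat_lit 201152), .ofNat (nat_lit 240879)⟩, ⟨.ofNat (nat_lit 428436), .ofNat (nat_lit 468627), .ofNat (nat_lit 449785), .ofNat (nat_lit 489975), .ofNat (nat_lit 427097), .ofNat (nat_lit 466823), .ofNat (nat_lit 448439), .ofNat (nat_lit 488166)⟩⟩, [⟨nat_lit 0, nat_lit 100, nat_lit 100, nat_lit 55, nat_lit 276261334⟩, ⟨nat_lit 16, nat_lit 100, nat_lit 95, nat_lit 62, nat_lit 609879144⟩]⟩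
noncomputable def p038_l96 : Lf2 := ⟨nat_lit 0, nat_lit 10, [nat_lit 0, nat_lit 5, nat_lit 5, nat_lit 20], true, nat_lit 260, nat_lit 272, nat_lit 0, nat_lit 268, ⟨nat_lit 0, nat_lit 0, nat_lit 1000, nat_lit 6, nat_lit 87, nat_lit 1000, nat_lit 180, nat_lit 1000, nat_lit 88902, nat_lit 288, nat_lit 70417, nat_lit 280, nat_lit 52048643, nat_lit 0, nat_lit 0, nat_lit 3467554, false, false⟩,
 nat_lit 0, nat_lit 8006, nat_lit 0, nat_lit 0, nat_lit 4553, nat_lit 0, nat_lit 306, nat_lit 0, nat_lit 0, nat_lit 0, nat_lit 0, nat_lit 0, nat_lit 0, nat_lit 16376345693931, nat_lit 69, nat_lit 400000, nat_lit 0, nat_lit 0, [(nat_lit 6, [(nat_lit 5, nat_lit 1000)])],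
 ⟨p038_k37, nat_lit 0, nat_lit 0, nat_lit 207, nat_lit 0, nat_lit 171444, [nat_lit 2521600001, nat_lit 679600001, nat_lit 7200000], [], [nat_lit 16847012423, nat_lit 17221774549, nat_lit 16075794030, nat_lit 16345134261, nat_lit 17818336388, nat_lit 18179657522, nat_lit 16934543724, nat_lit 17293039460], nat_lit 1271250, nat_lit 1271250, nat_lit 111251, nat_lit 230001, nat_lit 1271250, nat_lit 1271250, [nat_lit 1100000, nat_lit 1785000, nat_lit 1271250], [nat_lit 29, nat_lit 40, nat_lit 20, nat_lit 80, nat_lit 17, nat_lit 373, nat_lit 150, nat_lit 10]⟩, C1.Rw.none,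
 ⟨nat_lit 5916, nat_lit 6021, ⟨.ofNat (nat_lit 185145), .ofNat (nat_lit 224872), .ofNat (nat_lit 206488), .ofNat (nat_lit 246214), .ofNat (nat_lit 189276), .ofNat (nat_lit 228543), .ofNat (nat_lit 210615), .ofNat (nat_lit 249882)⟩, ⟨.ofNat (nat_lit 427097), .ofNat (nat_lit 450933), .ofNat (nat_lit 448439), .ofNat (nat_lit 472275), .ofNat (nat_lit 425745), .ofNat (nat_lit 449305), .ofNat (nat_lit 447085), .ofNat (nat_lit 470645)⟩⟩, [⟨nat_lit 0, nat_lit 100, nat_lit 100, nat_lit 60, nat_lit 328393292⟩, ⟨nat_lit 16, nat_lit 100, nat_lit 97, nat_lit 62, nat_lit 380448562⟩, ⟨nat_lit 4, nat_lit 100, nat_lit 99, nat_lit 55, nat_lit 246124528⟩]⟩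
noncomputable def p038_l97 : Lf2 := ⟨nat_lit 0, nat_lit 10, [nat_lit 0, nat_lit 5, nat_lit 5, nat_lit 20], true, nat_lit 240, nat_lit 280, nat_lit 0, nat_lit 288, ⟨nat_lit 0, nat_lit 0, nat_lit 1000, nat_lit 6, nat_lit 108, nat_lit 1000, nat_lit 175, nat_lit 1000, nat_lit 51683, nat_lit 270, nat_lit 109350, nat_lit 296, nat_lit 51050465, nat_lit 0, nat_lit 0, nat_lit 3717554, false, false⟩,
 nat_lit 0, nat_lit 8396, nat_lit 0, nat_lit 0, nat_lit 4664, nat_lit 0, nat_lit 426, nat_lit 0, nat_lit 0, nat_lit 0, nat_lit 0, nat_lit 0, nat_lit 0, nat_lit 24143525252283, nat_lit 69, nat_lit 400000, nat_lit 0, nat_lit 0, [(nat_lit 6, [(nat_lit 5, nat_lit 1000)])],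
 ⟨p038_k36, nat_lit 0, nat_lit 0, nat_lit 161, nat_lit 0, nat_lit 124350, [nat_lit 2521600001, nat_lit 1460000001, nat_lit 7200000], [], [nat_lit 14584357584, nat_lit 14842237060, nat_lit 13931451320, nat_lit 14180683152, nat_lit 17283822160, nat_lit 17637686016, nat_lit 16415245316, nat_lit 16758675694], nat_lit 1271250, nat_lit 1271250, nat_lit 230001, nat_lit 490000, nat_lit 1271250, nat_lit 1271250, [nat_lit 1100000, nat_lit 1442500, nat_lit 1271250], [nat_lit 11, nat_lit 40, nat_lit 20, nat_lit 80, nat_lit 1, nat_lit 401, nat_lit 175, nat_lit 11]⟩, C1.Rw.none,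
 ⟨nat_lit 6020, nat_lit 6124, ⟨.ofNat (nat_lit 221172), .ofNat (nat_lit 301553), .ofNat (nat_lit 237183), .ofNat (nat_lit 317564), .ofNat (nat_lit 224872), .ofNat (nat_lit 304325), .ofNat (nat_lit 240879), .ofNat (nat_lit 320331)⟩, ⟨.ofNat (nat_lit 388246), .ofNat (nat_lit 468627), .ofNat (nat_lit 409594), .ofNat (nat_lit 489975), .ofNat (nat_lit 387371), .ofNat (nat_lit 466823), .ofNat (nat_lit 408713), .ofNat (nat_lit 488166)⟩⟩, [⟨nat_lit 4, nat_lit 99, nat_lit 100, nat_lit 55, nat_lit 587940514⟩]⟩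
noncomputable def p038_l98 : Lf2 := ⟨nat_lit 0, nat_lit 10, [nat_lit 0, nat_lit 5, nat_lit 5, nat_lit 20], true, nat_lit 240, nat_lit 272, nat_lit 0, nat_lit 288, ⟨nat_lit 0, nat_lit 0, nat_lit 1000, nat_lit 6, nat_lit 111, nat_lit 1000, nat_lit 172, nat_lit 1000, nat_lit 88902, nat_lit 288, nat_lit 114817, nat_lit 298, nat_lit 51224756, nat_lit 0, nat_lit 0, nat_lit 3707869, false, false⟩,
 nat_lit 0, nat_lit 8291, nat_lit 0, nat_lit 0, nat_lit 4715, nat_lit 0, nat_lit 369, nat_lit 0, nat_lit 0, nat_lit 0, nat_lit 0, nat_lit 0, nat_lit 0, nat_lit 24067977178699, nat_lit 69, nat_lit 400000, nat_lit 0, nat_lit 0, [(nat_lit 6, [(nat_lit 5, nat_lit 1000)])],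
 ⟨p038_k37, nat_lit 0, nat_lit 0, nat_lit 185, nat_lit 0, nat_lit 171444, [nat_lit 2521600001, nat_lit 679600001, nat_lit 7200000], [], [nat_lit 14658343600, nat_lit 14919745652, nat_lit 14262469250, nat_lit 14539445512, nat_lit 17012435381, nat_lit 17377268639, nat_lit 16136633167, nat_lit 16490537526], nat_lit 1271250, nat_lit 1271250, nat_lit 230001, nat_lit 490000, nat_lit 1271250, nat_lit 1271250, [nat_lit 1100000, nat_lit 1785000, nat_lit 1271250], [nat_lit 29, nat_lit 40, nat_lit 20, nat_lit 80, nat_lit 17, nat_lit 401, nat_lit 175, nat_lit 11]⟩, C1.Rw.none,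
 ⟨nat_lit 5916, nat_lit 6021, ⟨.ofNat (nat_lit 224872), .ofNat (nat_lit 304325), .ofNat (nat_lit 246214), .ofNat (nat_lit 325667), .ofNat (nat_lit 228543), .ofNat (nat_lit 307076), .ofNat (nat_lit 249882), .ofNat (nat_lit 328416)⟩, ⟨.ofNat (nat_lit 387371), .ofNat (nat_lit 450933), .ofNat (nat_lit 408713), .ofNat (nat_lit 472275), .ofNat (nat_lit 386479), .ofNat (nat_lit 449305), .ofNat (nat_lit 407818), .ofNat (nat_lit 470645)⟩⟩, [⟨nat_lit 16, nat_lit 99, nat_lit 100, nat_lit 55, nat_lit 648709304⟩]⟩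
noncomputable def b_VL_600_600_5_76 : St := ⟨true, nat_lit 1, nat_lit 1, nat_lit 1, nat_lit 40, nat_lit 250, nat_lit 260, nat_lit 240, nat_lit 260, nat_lit 20, nat_lit 80, nat_lit 20, nat_lit 40, nat_lit 240, nat_lit 280, nat_lit 0, nat_lit 288, nat_lit 20, nat_lit 40, nat_lit 0, nat_lit 0, nat_lit 0, nat_lit 0⟩
theorem d_VL_600_600_5_76 (h : EB TB.env) : Dead b_VL_600_600_5_76 := chkB_sound0 h (T :=
(.spl (nat_lit 2) (nat_lit 40)
(.spl (nat_lit 4) (nat_lit 260)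
(.spl (nat_lit 0) (nat_lit 255)
(.ord (.leaf p038_l93))
(.leaf p038_l94))
(.trX (nat_lit 23) (nat_lit 100) (nat_lit 99) (nat_lit 63) (nat_lit 268) (.spl (nat_lit 0) (nat_lit 255)
(.ord (.leaf p038_l95))
(.trX (nat_lit 16) (nat_lit 100) (nat_lit 97) (nat_lit 62) (nat_lit 272) (.leaf p038_l96)))))
(.spl (nat_lit 0) (nat_lit 255)
(.ord (.leaf p038_l97))
(.trX (nat_lit 16) (nat_lit 100) (nat_lit 97) (nat_lit 62) (nat_lit 272) (.leaf p038_l98))))) (by decide +kernel)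
noncomputable def p038_l99 : Lf2 := ⟨nat_lit 0, nat_lit 10, [nat_lit 0, nat_lit 5, nat_lit 5, nat_lit 20], false, nat_lit 240, nat_lit 288, nat_lit 0, nat_lit 288, ⟨nat_lit 0, nat_lit 0, nat_lit 1000, nat_lit 6, nat_lit 138, nat_lit 1000, nat_lit 179, nat_lit 1000, nat_lit 29345, nat_lit 255, nat_lit 176817, nat_lit 318, nat_lit 48610351, nat_lit 0, nat_lit 0, nat_lit 4133732, false, false⟩,
 nat_lit 8880, nat_lit 0, nat_lit 0, nat_lit 44, nat_lit 4701, nat_lit 0, nat_lit 337, nat_lit 0, nat_lit 0, nat_lit 0, nat_lit 0, nat_lit 0, nat_lit 0, nat_lit 11486134115611, nat_lit 166, nat_lit 1000000, nat_lit 0, nat_lit 0, [(nat_lit 6, [(nat_lit 6, nat_lit 1000)])],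
 ⟨p038_k39, nat_lit 0, nat_lit 0, nat_lit 238, nat_lit 0, nat_lit 306108, [nat_lit 3633066667, nat_lit 3172240001, nat_lit 348400000], [], [nat_lit 12780208163, nat_lit 13222426930, nat_lit 12918295236, nat_lit 13405662844, nat_lit 16389081337, nat_lit 17061400294, nat_lit 16409664333, nat_lit 17051816838], nat_lit 1271250, nat_lit 1271250, nat_lit 490000, nat_lit 780000, nat_lit 1271250, nat_lit 1271250, [nat_lit 1100000, nat_lit 1442500, nat_lit 1271250], [nat_lit 48, nat_lit 40, nat_lit 20, nat_lit 80, nat_lit 12, nat_lit 401, nat_lit 175, nat_lit 10]⟩, ⟨p038_k39, nat_lit 0, nat_lit 0, nat_lit 405, nat_lit 0, nat_lit 306108, [nat_lit 0, nat_lit 0, nat_lit 0], [], [nat_lit 0, nat_lit 0, nat_lit 0, nat_lit 0, nat_lit 0, nat_lit 0, nat_lit 0, nat_lit 0], nat_lit 1271250, nat_lit 1271250, nat_lit 490000, nat_lit 780000, nat_lit 0, nat_lit 2034000, [nat_lit 1100000, nat_lit 1442500, nat_lit 1271250], [nat_lit 48, nat_lit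 40, nat_lit 20, nat_lit 80, nat_lit 12, nat_lit 401, nat_lit 175, nat_lit 11]⟩,
 ⟨nat_lit 6123, nat_lit 6325, ⟨.ofNat (nat_lit 295942), .ofNat (nat_lit 378206), .ofNat (nat_lit 306625), .ofNat (nat_lit 388890), .ofNat (nat_lit 301553), .ofNat (nat_lit 381933), .ofNat (nat_lit 312227), .ofNat (nat_lit 392607)⟩, ⟨.ofNat (nat_lit 389952), .ofNat (nat_lit 488669), .ofNat (nat_lit 411320), .ofNat (nat_lit 510037), .ofNat (nat_lit 388246), .ofNat (nat_lit 484703), .ofNat (nat_lit 409594), .ofNat (nat_lit 506051)⟩⟩, [⟨nat_lit 4, nat_lit 97, nat_lit 100, nat_lit 54, nat_lit 698460608⟩]⟩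
noncomputable def p038_l100 : Lf2 := ⟨nat_lit 0, nat_lit 5, [nat_lit 4, nat_lit 5, nat_lit 5, nat_lit 20], false, nat_lit 240, nat_lit 280, nat_lit 0, nat_lit 288, ⟨nat_lit 0, nat_lit 0, nat_lit 1000, nat_lit 6, nat_lit 142, nat_lit 1000, nat_lit 175, nat_lit 1000, nat_lit 51683, nat_lit 270, nat_lit 187267, nat_lit 321, nat_lit 48686456, nat_lit 0, nat_lit 0, nat_lit 4136328, false, false⟩,
 nat_lit 0, nat_lit 8008, nat_lit 0, nat_lit 0, nat_lit 4448, nat_lit 0, nat_lit 40, nat_lit 0, nat_lit 0, nat_lit 0, nat_lit 0, nat_lit 0, nat_lit 0, nat_lit 5533711363337, nat_lit 80, nat_lit 1000000, nat_lit 0, nat_lit 0, [(nat_lit 6, [(nat_lit 6, nat_lit 1000)])],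
 ⟨p038_k16, nat_lit 0, nat_lit 0, nat_lit 194, nat_lit 0, nat_lit 365315, [nat_lit 2257066667, nat_lit 1408000000, nat_lit 211200000], [], [nat_lit 13669879259, nat_lit 14191319136, nat_lit 13930991150, nat_lit 14443946406, nat_lit 16379252912, nat_lit 17050487904, nat_lit 16447954720, nat_lit 17089171632], nat_lit 1271250, nat_lit 1271250, nat_lit 490000, nat_lit 780000, nat_lit 1271250, nat_lit 1271250, [nat_lit 1100000, nat_lit 1442500, nat_lit 1271250], [nat_lit 9, nat_lit 40, nat_lit 20, nat_lit 80, nat_lit 2, nat_lit 238, nat_lit 30, nat_lit 7]⟩, ⟨p038_k2, nat_lit 0, nat_lit 0, nat_lit 371, nat_lit 0, nat_lit 386242, [nat_lit 0, nat_lit 0, nat_lit 0], [], [nat_lit 0, nat_lit 0, nat_lit 0, nat_lit 0, nat_lit 0, nat_lit 0, nat_lit 0, nat_lit 0], nat_lit 1271250, nat_lit 1271250, nat_lit 490000, nat_lit 780000, nat_lit 0, nat_lit 2034000, [nat_lit 1100000, nat_lit 1442500, nat_lit 1271250], [nat_lit 11, nat_lit 40,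 nat_lit 20, nat_lit 80, nat_lit 1, nat_lit 401, nat_lit 175, nat_lit 12]⟩,
 ⟨nat_lit 5916, nat_lit 6124, ⟨.ofNat (nat_lit 301553), .ofNat (nat_lit 381933), .ofNat (nat_lit 322901), .ofNat (nat_lit 403281), .ofNat (nat_lit 307076), .ofNat (nat_lit 385610), .ofNat (nat_lit 328416), .ofNat (nat_lit 406949)⟩, ⟨.ofNat (nat_lit 388246), .ofNat (nat_lit 468627), .ofNat (nat_lit 409594), .ofNat (nat_lit 489975), .ofNat (nat_lit 386479), .ofNat (nat_lit 465012), .ofNat (nat_lit 407818), .ofNat (nat_lit 486351)⟩⟩, [⟨nat_lit 16, nat_lit 100, nat_lit 100, nat_lit 55, nat_lit 608008867⟩]⟩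
noncomputable def p038_l101 : Lf2 := ⟨nat_lit 0, nat_lit 10, [nat_lit 0, nat_lit 5, nat_lit 5, nat_lit 20], false, nat_lit 240, nat_lit 280, nat_lit 0, nat_lit 288, ⟨nat_lit 0, nat_lit 0, nat_lit 1000, nat_lit 6, nat_lit 142, nat_lit 1000, nat_lit 175, nat_lit 1000, nat_lit 51683, nat_lit 270, nat_lit 187267, nat_lit 321, nat_lit 48686456, nat_lit 0, nat_lit 0, nat_lit 4136328, false, false⟩,
 nat_lit 0, nat_lit 8920, nat_lit 0, nat_lit 0, nat_lit 4955, nat_lit 0, nat_lit 494, nat_lit 0, nat_lit 0, nat_lit 0, nat_lit 0, nat_lit 0, nat_lit 0, nat_lit 24384484068188, nat_lit 69, nat_lit 400000, nat_lit 0, nat_lit 0, [(nat_lit 6, [(nat_lit 5, nat_lit 1000)])],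
 ⟨p038_k36, nat_lit 0, nat_lit 0, nat_lit 154, nat_lit 0, nat_lit 176297, [nat_lit 2521600001, nat_lit 1460000001, nat_lit 7200000], [], [nat_lit 13457867400, nat_lit 13968953480, nat_lit 13406736050, nat_lit 14059887610, nat_lit 16463735083, nat_lit 17171647215, nat_lit 16436079513, nat_lit 17111585595], nat_lit 1271250, nat_lit 1271250, nat_lit 490000, nat_lit 780000, nat_lit 1271250, nat_lit 1271250, [nat_lit 1100000, nat_lit 1442500, nat_lit 1271250], [nat_lit 11, nat_lit 40, nat_lit 20, nat_lit 80, nat_lit 1, nat_lit 401, nat_lit 175, nat_lit 11]⟩, ⟨p038_k39, nat_lit 0, nat_lit 0, nat_lit 366, nat_lit 0, nat_lit 186733, [nat_lit 0, nat_lit 0, nat_lit 0], [], [nat_lit 0, nat_lit 0, nat_lit 0, nat_lit 0, nat_lit 0, nat_lit 0, nat_lit 0, nat_lit 0], nat_lit 1271250, nat_lit 1271250, nat_lit 490000, nat_lit 780000, nat_lit 0, nat_lit 2034000, [nat_lit 1100000, nat_lit 1442500, nat_lit 1271250], [nat_lit 48, nat_lit 40,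 nat_lit 20, nat_lit 80, nat_lit 12, nat_lit 401, nat_lit 175, nat_lit 11]⟩,
 ⟨nat_lit 5916, nat_lit 6124, ⟨.ofNat (nat_lit 301553), .ofNat (nat_lit 381933), .ofNat (nat_lit 322901), .ofNat (nat_lit 403281), .ofNat (nat_lit 307076), .ofNat (nat_lit 385610), .ofNat (nat_lit 328416), .ofNat (nat_lit 406949)⟩, ⟨.ofNat (nat_lit 388246), .ofNat (nat_lit 468627), .ofNat (nat_lit 409594), .ofNat (nat_lit 489975), .ofNat (nat_lit 386479), .ofNat (nat_lit 465012), .ofNat (nat_lit 407818), .ofNat (nat_lit 486351)⟩⟩, [⟨nat_lit 4, nat_lit 100, nat_lit 100, nat_lit 55, nat_lit 695451434⟩]⟩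
noncomputable def b_VL_600_600_5_77 : St := ⟨true, nat_lit 1, nat_lit 1, nat_lit 1, nat_lit 40, nat_lit 240, nat_lit 260, nat_lit 240, nat_lit 260, nat_lit 80, nat_lit 120, nat_lit 20, nat_lit 40, nat_lit 240, nat_lit 288, nat_lit 0, nat_lit 288, nat_lit 0, nat_lit 40, nat_lit 0, nat_lit 0, nat_lit 0, nat_lit 0⟩
theorem d_VL_600_600_5_77 (h : EB TB.env) : Dead b_VL_600_600_5_77 := chkB_sound0 h (T :=
(.spl (nat_lit 0) (nat_lit 250)
(.ord (.leaf p038_l99))
(.trX (nat_lit 16) (nat_lit 100) (nat_lit 95) (nat_lit 62) (nat_lit 280) (.spl (nat_lit 6) (nat_lit 20)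
(.leaf p038_l100)
(.leaf p038_l101))))) (by decide +kernel)
noncomputable def p038_l102 : Lf2 := ⟨nat_lit 0, nat_lit 2, [nat_lit 10, nat_lit 5, nat_lit 5, nat_lit 20], true, nat_lit 240, nat_lit 268, nat_lit 0, nat_lit 288, ⟨nat_lit 0, nat_lit 0, nat_lit 1000, nat_lit 6, nat_lit 89, nat_lit 1000, nat_lit 169, nat_lit 1000, nat_lit 126379, nat_lit 302, nat_lit 74817, nat_lit 282, nat_lit 52906045, nat_lit 0, nat_lit 0, nat_lit 3373531, false, false⟩,
 nat_lit 0, nat_lit 7074, nat_lit 0, nat_lit 0, nat_lit 4117, nat_lit 0, nat_lit 0, nat_lit 0, nat_lit 0, nat_lit 0, nat_lit 0, nat_lit 0, nat_lit 0, nat_lit 0, nat_lit 37, nat_lit 1000000, nat_lit 0, nat_lit 0, [(nat_lit 9, [(nat_lit 6, nat_lit 1000)])],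
 ⟨p038_k40, nat_lit 0, nat_lit 0, nat_lit 177, nat_lit 0, nat_lit 335940, [nat_lit 1689600001, nat_lit 0], [], [nat_lit 15655131575, nat_lit 16203288283, nat_lit 15328452272, nat_lit 15870708079, nat_lit 17381729700, nat_lit 18077183865, nat_lit 16855584574, nat_lit 17457044909], nat_lit 1271250, nat_lit 1271250, nat_lit 134400, nat_lit 230001, nat_lit 1271250, nat_lit 1271250, [nat_lit 1100000, nat_lit 1442500], [nat_lit 31, nat_lit 40, nat_lit 20, nat_lit 80, nat_lit 3, nat_lit 215, nat_lit 10, nat_lit 7]⟩, C1.Rw.none,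
 ⟨nat_lit 5700, nat_lit 5917, ⟨.ofNat (nat_lit 197129), .ofNat (nat_lit 228543), .ofNat (nat_lit 207799), .ofNat (nat_lit 239212), .ofNat (nat_lit 205119), .ofNat (nat_lit 235806), .ofNat (nat_lit 215790), .ofNat (nat_lit 246477)⟩, ⟨.ofNat (nat_lit 386479), .ofNat (nat_lit 441452), .ofNat (nat_lit 407818), .ofNat (nat_lit 462791), .ofNat (nat_lit 384640), .ofNat (nat_lit 438343), .ofNat (nat_lit 405982), .ofNat (nat_lit 459685)⟩⟩, [⟨nat_lit 0, nat_lit 100, nat_lit 97, nat_lit 54, nat_lit 218390106⟩, ⟨nat_lit 4, nat_lit 100, nat_lit 97, nat_lit 54, nat_lit 519593763⟩]⟩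
noncomputable def p038_l103 : Lf2 := ⟨nat_lit 0, nat_lit 2, [nat_lit 10, nat_lit 5, nat_lit 5, nat_lit 20], true, nat_lit 240, nat_lit 268, nat_lit 0, nat_lit 288, ⟨nat_lit 0, nat_lit 0, nat_lit 1000, nat_lit 6, nat_lit 111, nat_lit 1000, nat_lit 169, nat_lit 1000, nat_lit 126379, nat_lit 302, nat_lit 114817, nat_lit 298, nat_lit 51449459, nat_lit 0, nat_lit 0, nat_lit 3678504, false, false⟩,
 nat_lit 0, nat_lit 7349, nat_lit 0, nat_lit 0, nat_lit 4277, nat_lit 0, nat_lit 0, nat_lit 0, nat_lit 0, nat_lit 0, nat_lit 0, nat_lit 0, nat_lit 0, nat_lit 0, nat_lit 37, nat_lit 1000000, nat_lit 0, nat_lit 0, [(nat_lit 9, [(nat_lit 6, nat_lit 1000)])],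
 ⟨p038_k40, nat_lit 0, nat_lit 0, nat_lit 165, nat_lit 0, nat_lit 335940, [nat_lit 1689600001, nat_lit 0], [], [nat_lit 15047861872, nat_lit 15599169039, nat_lit 14773643580, nat_lit 15304235375, nat_lit 16843335072, nat_lit 17547124237, nat_lit 16268910921, nat_lit 16803083599], nat_lit 1271250, nat_lit 1271250, nat_lit 230001, nat_lit 490000, nat_lit 1271250, nat_lit 1271250, [nat_lit 1100000, nat_lit 1442500], [nat_lit 31, nat_lit 40, nat_lit 20, nat_lit 80, nat_lit 3, nat_lit 226, nat_lit 20, nat_lit 8]⟩, C1.Rw.none,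
 ⟨nat_lit 5700, nat_lit 5917, ⟨.ofNat (nat_lit 228543), .ofNat (nat_lit 307076), .ofNat (nat_lit 239212), .ofNat (nat_lit 317746), .ofNat (nat_lit 235806), .ofNat (nat_lit 312525), .ofNat (nat_lit 246477), .ofNat (nat_lit 323196)⟩, ⟨.ofNat (nat_lit 386479), .ofNat (nat_lit 441452), .ofNat (nat_lit 407818), .ofNat (nat_lit 462791), .ofNat (nat_lit 384640), .ofNat (nat_lit 438343), .ofNat (nat_lit 405982), .ofNat (nat_lit 459685)⟩⟩, [⟨nat_lit 4, nat_lit 100, nat_lit 97, nat_lit 54, nat_lit 543139912⟩]⟩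
noncomputable def p038_l104 : Lf2 := ⟨nat_lit 0, nat_lit 2, [nat_lit 10, nat_lit 5, nat_lit 5, nat_lit 20], true, nat_lit 240, nat_lit 260, nat_lit 0, nat_lit 288, ⟨nat_lit 0, nat_lit 0, nat_lit 1000, nat_lit 6, nat_lit 109, nat_lit 1000, nat_lit 165, nat_lit 1000, nat_lit 256267, nat_lit 339, nat_lit 109350, nat_lit 296, nat_lit 51954383, nat_lit 0, nat_lit 0, nat_lit 3603992, false, false⟩,
 nat_lit 0, nat_lit 7301, nat_lit 0, nat_lit 0, nat_lit 4446, nat_lit 0, nat_lit 0, nat_lit 0, nat_lit 0, nat_lit 0, nat_lit 0, nat_lit 0, nat_lit 0, nat_lit 0, nat_lit 37, nat_lit 1000000, nat_lit 0, nat_lit 0, [(nat_lit 9, [(nat_lit 6, nat_lit 1000)])],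
 ⟨p038_k41, nat_lit 0, nat_lit 0, nat_lit 205, nat_lit 0, nat_lit 366693, [nat_lit 1689600001, nat_lit 0], [], [nat_lit 16038178114, nat_lit 16803026613, nat_lit 15527408121, nat_lit 15980061451, nat_lit 17548271777, nat_lit 18286453401, nat_lit 16421059240, nat_lit 16962554140], nat_lit 1271250, nat_lit 1271250, nat_lit 157850, nat_lit 490000, nat_lit 1271250, nat_lit 1271250, [nat_lit 1100000, nat_lit 1442500], [nat_lit 31, nat_lit 40, nat_lit 20, nat_lit 80, nat_lit 3, nat_lit 226, nat_lit 20, nat_lit 8]⟩, C1.Rw.none,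
 ⟨nat_lit 5477, nat_lit 5701, ⟨.ofNat (nat_lit 212791), .ofNat (nat_lit 312525), .ofNat (nat_lit 223462), .ofNat (nat_lit 323196), .ofNat (nat_lit 220501), .ofNat (nat_lit 317913), .ofNat (nat_lit 231179), .ofNat (nat_lit 328592)⟩, ⟨.ofNat (nat_lit 384640), .ofNat (nat_lit 422999), .ofNat (nat_lit 405982), .ofNat (nat_lit 444341), .ofNat (nat_lit 382718), .ofNat (nat_lit 420185), .ofNat (nat_lit 404075), .ofNat (nat_lit 441542)⟩⟩, [⟨nat_lit 0, nat_lit 100, nat_lit 95, nat_lit 59, nat_lit 166487466⟩, ⟨nat_lit 16, nat_lit 98, nat_lit 100, nat_lit 63, nat_lit 539595695⟩]⟩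
noncomputable def p038_l105 : Lf2 := ⟨nat_lit 0, nat_lit 5, [nat_lit 4, nat_lit 5, nat_lit 5, nat_lit 20], true, nat_lit 240, nat_lit 268, nat_lit 0, nat_lit 288, ⟨nat_lit 0, nat_lit 0, nat_lit 1000, nat_lit 6, nat_lit 106, nat_lit 1000, nat_lit 169, nat_lit 1000, nat_lit 126379, nat_lit 302, nat_lit 104017, nat_lit 294, nat_lit 51833051, nat_lit 0, nat_lit 0, nat_lit 3605966, false, false⟩,
 nat_lit 0, nat_lit 7319, nat_lit 0, nat_lit 0, nat_lit 4260, nat_lit 0, nat_lit 0, nat_lit 0, nat_lit 0, nat_lit 0, nat_lit 0, nat_lit 0, nat_lit 0, nat_lit 0, nat_lit 100, nat_lit 839800, nat_lit 0, nat_lit 0, [(nat_lit 9, [(nat_lit 5, nat_lit 267), (nat_lit 6, nat_lit 733)])],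
 ⟨p038_k42, nat_lit 0, nat_lit 0, nat_lit 242, nat_lit 0, nat_lit 318394, [nat_lit 2812089600, nat_lit 1402471200, nat_lit 186219200], [], [nat_lit 15653946832, nat_lit 16858306224, nat_lit 15109415000, nat_lit 16095923040, nat_lit 17480748449, nat_lit 18894607580, nat_lit 16529218841, nat_lit 17517195229], nat_lit 1271250, nat_lit 1271250, nat_lit 134400, nat_lit 490000, nat_lit 1271250, nat_lit 1271250, [nat_lit 1100000, nat_lit 1442500, nat_lit 1271250], [nat_lit 9, nat_lit 40, nat_lit 20, nat_lit 80, nat_lit 2, nat_lit 226, nat_lit 20, nat_lit 7]⟩, C1.Rw.none,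
 ⟨nat_lit 5477, nat_lit 5917, ⟨.ofNat (nat_lit 197129), .ofNat (nat_lit 307076), .ofNat (nat_lit 207799), .ofNat (nat_lit 317746), .ofNat (nat_lit 213007), .ofNat (nat_lit 317913), .ofNat (nat_lit 223686), .ofNat (nat_lit 328592)⟩, ⟨.ofNat (nat_lit 386479), .ofNat (nat_lit 441452), .ofNat (nat_lit 407818), .ofNat (nat_lit 462791), .ofNat (nat_lit 382718), .ofNat (nat_lit 435171), .ofNat (nat_lit 404075), .ofNat (nat_lit 456528)⟩⟩, [⟨nat_lit 0, nat_lit 100, nat_lit 96, nat_lit 57, nat_lit 168832362⟩, ⟨nat_lit 16, nat_lit 96, nat_lit 100, nat_lit 54, nat_lit 559318795⟩]⟩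
noncomputable def p038_l106 : Lf2 := ⟨nat_lit 0, nat_lit 1, [nat_lit 19, nat_lit 5, nat_lit 5, nat_lit 20], true, nat_lit 240, nat_lit 268, nat_lit 0, nat_lit 280, ⟨nat_lit 0, nat_lit 0, nat_lit 1000, nat_lit 6, nat_lit 96, nat_lit 1000, nat_lit 169, nat_lit 1000, nat_lit 126379, nat_lit 302, nat_lit 86400, nat_lit 287, nat_lit 52476753, nat_lit 0, nat_lit 0, nat_lit 3472378, false, false⟩,
 nat_lit 0, nat_lit 6112, nat_lit 0, nat_lit 0, nat_lit 3557, nat_lit 0, nat_lit 0, nat_lit 0, nat_lit 0, nat_lit 0, nat_lit 0, nat_lit 0, nat_lit 0, nat_lit 0, nat_lit 4, nat_lit 1000000, nat_lit 0, nat_lit 0, [(nat_lit 9, [(nat_lit 6, nat_lit 1000)])],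
 ⟨p038_k43, nat_lit 0, nat_lit 0, nat_lit 0, nat_lit 0, nat_lit 417966, [nat_lit 712600000, nat_lit 988400001, nat_lit 17200000], [], [nat_lit 15281264412, nat_lit 16315681848, nat_lit 15095004585, nat_lit 16123298306, nat_lit 16761618253, nat_lit 18062430827, nat_lit 16487506341, nat_lit 17683952009], nat_lit 1271250, nat_lit 1271250, nat_lit 157850, nat_lit 230001, nat_lit 1271250, nat_lit 1271250, [nat_lit 490000, nat_lit 936250, nat_lit 1271250], [nat_lit 178, nat_lit 40, nat_lit 20, nat_lit 40]⟩, C1.Rw.none,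
 ⟨nat_lit 5477, nat_lit 5917, ⟨.ofNat (nat_lit 215652), .ofNat (nat_lit 239212), .ofNat (nat_lit 226322), .ofNat (nat_lit 249882), .ofNat (nat_lit 231179), .ofNat (nat_lit 253659), .ofNat (nat_lit 241858), .ofNat (nat_lit 264337)⟩, ⟨.ofNat (nat_lit 386479), .ofNat (nat_lit 441452), .ofNat (nat_lit 407818), .ofNat (nat_lit 462791), .ofNat (nat_lit 382718), .ofNat (nat_lit 435171), .ofNat (nat_lit 404075), .ofNat (nat_lit 456528)⟩⟩, [⟨nat_lit 0, nat_lit 100, nat_lit 97, nat_lit 62, nat_lit 197186730⟩, ⟨nat_lit 4, nat_lit 100, nat_lit 96, nat_lit 54, nat_lit 440445413⟩]⟩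
noncomputable def p038_l107 : Lf2 := ⟨nat_lit 0, nat_lit 1, [nat_lit 19, nat_lit 5, nat_lit 5, nat_lit 20], true, nat_lit 240, nat_lit 268, nat_lit 0, nat_lit 280, ⟨nat_lit 0, nat_lit 0, nat_lit 1000, nat_lit 6, nat_lit 108, nat_lit 1000, nat_lit 169, nat_lit 1000, nat_lit 126379, nat_lit 302, nat_lit 109350, nat_lit 296, nat_lit 51644481, nat_lit 0, nat_lit 0, nat_lit 3643480, false, false⟩,
 nat_lit 0, nat_lit 6291, nat_lit 0, nat_lit 0, nat_lit 3661, nat_lit 0, nat_lit 0, nat_lit 0, nat_lit 0, nat_lit 0, nat_lit 0, nat_lit 0, nat_lit 0, nat_lit 0, nat_lit 4, nat_lit 1000000, nat_lit 0, nat_lit 0, [(nat_lit 9, [(nat_lit 6, nat_lit 1000)])],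
 ⟨p038_k43, nat_lit 0, nat_lit 0, nat_lit 0, nat_lit 0, nat_lit 417966, [nat_lit 712600000, nat_lit 988400001, nat_lit 17200000], [], [nat_lit 14914950633, nat_lit 15974260220, nat_lit 14778294453, nat_lit 15810907718, nat_lit 16437112160, nat_lit 17748275843, nat_lit 16173170143, nat_lit 17371858478], nat_lit 1271250, nat_lit 1271250, nat_lit 230001, nat_lit 356250, nat_lit 1271250, nat_lit 1271250, [nat_lit 490000, nat_lit 936250, nat_lit 1271250], [nat_lit 178, nat_lit 40, nat_lit 20, nat_lit 40]⟩, C1.Rw.none,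
 ⟨nat_lit 5477, nat_lit 5917, ⟨.ofNat (nat_lit 239212), .ofNat (nat_lit 278479), .ofNat (nat_lit 249882), .ofNat (nat_lit 289149), .ofNat (nat_lit 253659), .ofNat (nat_lit 291125), .ofNat (nat_lit 264337), .ofNat (nat_lit 301804)⟩, ⟨.ofNat (nat_lit 386479), .ofNat (nat_lit 441452), .ofNat (nat_lit 407818), .ofNat (nat_lit 462791), .ofNat (nat_lit 382718), .ofNat (nat_lit 435171), .ofNat (nat_lit 404075), .ofNat (nat_lit 456528)⟩⟩, [⟨nat_lit 16, nat_lit 96, nat_lit 100, nat_lit 54, nat_lit 455002928⟩]⟩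
noncomputable def p038_l108 : Lf2 := ⟨nat_lit 0, nat_lit 2, [nat_lit 10, nat_lit 5, nat_lit 5, nat_lit 20], true, nat_lit 240, nat_lit 268, nat_lit 0, nat_lit 280, ⟨nat_lit 0, nat_lit 0, nat_lit 1000, nat_lit 6, nat_lit 104, nat_lit 1000, nat_lit 169, nat_lit 1000, nat_lit 126379, nat_lit 302, nat_lit 101400, nat_lit 293, nat_lit 51960904, nat_lit 0, nat_lit 0, nat_lit 3580125, false, false⟩,
 nat_lit 0, nat_lit 6136, nat_lit 0, nat_lit 0, nat_lit 3571, nat_lit 0, nat_lit 0, nat_lit 0, nat_lit 0, nat_lit 0, nat_lit 0, nat_lit 0, nat_lit 0, nat_lit 0, nat_lit 36, nat_lit 959800, nat_lit 0, nat_lit 0, [(nat_lit 9, [(nat_lit 5, nat_lit 67), (nat_lit 6, nat_lit 933)])],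
 ⟨p038_k44, nat_lit 0, nat_lit 0, nat_lit 0, nat_lit 0, nat_lit 379879, [nat_lit 1063956001, nat_lit 1426618000, nat_lit 609146001, nat_lit 15751200], [], [nat_lit 15277173901, nat_lit 16310106913, nat_lit 14952835566, nat_lit 15955447037, nat_lit 16770229583, nat_lit 18073291552, nat_lit 16308056851, nat_lit 17334254534], nat_lit 1271250, nat_lit 1271250, nat_lit 157850, nat_lit 356250, nat_lit 1271250, nat_lit 1271250, [nat_lit 631250, nat_lit 936250, nat_lit 1271250, nat_lit 1271250], [nat_lit 209, nat_lit 40, nat_lit 20, nat_lit 40]⟩, C1.Rw.none,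
 ⟨nat_lit 5477, nat_lit 5917, ⟨.ofNat (nat_lit 215652), .ofNat (nat_lit 278479), .ofNat (nat_lit 226322), .ofNat (nat_lit 289149), .ofNat (nat_lit 231179), .ofNat (nat_lit 291125), .ofNat (nat_lit 241858), .ofNat (nat_lit 301804)⟩, ⟨.ofNat (nat_lit 386479), .ofNat (nat_lit 441452), .ofNat (nat_lit 407818), .ofNat (nat_lit 462791), .ofNat (nat_lit 382718), .ofNat (nat_lit 435171), .ofNat (nat_lit 404075), .ofNat (nat_lit 456528)⟩⟩, [⟨nat_lit 0, nat_lit 100, nat_lit 97, nat_lit 62, nat_lit 171134009⟩, ⟨nat_lit 4, nat_lit 100, nat_lit 96, nat_lit 54, nat_lit 444806147⟩]⟩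
noncomputable def p038_l109 : Lf2 := ⟨nat_lit 0, nat_lit 5, [nat_lit 4, nat_lit 5, nat_lit 5, nat_lit 20], true, nat_lit 240, nat_lit 268, nat_lit 0, nat_lit 280, ⟨nat_lit 0, nat_lit 0, nat_lit 1000, nat_lit 6, nat_lit 104, nat_lit 1000, nat_lit 169, nat_lit 1000, nat_lit 126379, nat_lit 302, nat_lit 101400, nat_lit 293, nat_lit 51960904, nat_lit 0, nat_lit 0, nat_lit 3580125, false, false⟩,
 nat_lit 0, nat_lit 6437, nat_lit 0, nat_lit 0, nat_lit 3746, nat_lit 0, nat_lit 333, nat_lit 0, nat_lit 0, nat_lit 0, nat_lit 0, nat_lit 0, nat_lit 0, nat_lit 0, nat_lit 51, nat_lit 368350, nat_lit 0, nat_lit 0, [(nat_lit 9, [(nat_lit 4, nat_lit 211), (nat_lit 5, nat_lit 789)])],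
 ⟨p038_k45, nat_lit 0, nat_lit 0, nat_lit 0, nat_lit 0, nat_lit 358901, [nat_lit 1448811201, nat_lit 1472362000, nat_lit 841874001, nat_lit 92837199], [], [nat_lit 15373901609, nat_lit 16408690853, nat_lit 15003330941, nat_lit 15975648392, nat_lit 16990308403, nat_lit 18319554168, nat_lit 16393077780, nat_lit 17513080854], nat_lit 1271250, nat_lit 1271250, nat_lit 157850, nat_lit 356250, nat_lit 1271250, nat_lit 1271250, [nat_lit 490000, nat_lit 1100000, nat_lit 1442500, nat_lit 1271250], [nat_lit 98, nat_lit 40, nat_lit 20, nat_lit 80]⟩, C1.Rw.none,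
 ⟨nat_lit 5477, nat_lit 5917, ⟨.ofNat (nat_lit 215652), .ofNat (nat_lit 278479), .ofNat (nat_lit 226322), .ofNat (nat_lit 289149), .ofNat (nat_lit 231179), .ofNat (nat_lit 291125), .ofNat (nat_lit 241858), .ofNat (nat_lit 301804)⟩, ⟨.ofNat (nat_lit 386479), .ofNat (nat_lit 441452), .ofNat (nat_lit 407818), .ofNat (nat_lit 462791), .ofNat (nat_lit 382718), .ofNat (nat_lit 435171), .ofNat (nat_lit 404075), .ofNat (nat_lit 456528)⟩⟩, [⟨nat_lit 0, nat_lit 100, nat_lit 97, nat_lit 62, nat_lit 178615634⟩, ⟨nat_lit 4, nat_lit 100, nat_lit 96, nat_lit 54, nat_lit 487309138⟩]⟩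
noncomputable def p038_l110 : Lf2 := ⟨nat_lit 0, nat_lit 5, [nat_lit 4, nat_lit 5, nat_lit 5, nat_lit 20], true, nat_lit 240, nat_lit 268, nat_lit 0, nat_lit 280, ⟨nat_lit 0, nat_lit 0, nat_lit 1000, nat_lit 6, nat_lit 104, nat_lit 1000, nat_lit 169, nat_lit 1000, nat_lit 126379, nat_lit 302, nat_lit 101400, nat_lit 293, nat_lit 51960904, nat_lit 0, nat_lit 0, nat_lit 3580125, false, false⟩,
 nat_lit 0, nat_lit 361453, nat_lit 0, nat_lit 0, nat_lit 210397, nat_lit 0, nat_lit 60000, nat_lit 11357, nat_lit 0, nat_lit 0, nat_lit 0, nat_lit 0, nat_lit 0, nat_lit 0, nat_lit 0, nat_lit 1000000, nat_lit 0, nat_lit 0, [(nat_lit 9, [(nat_lit 6, nat_lit 1000)])],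
 ⟨p038_k42, nat_lit 0, nat_lit 0, nat_lit 287, nat_lit 0, nat_lit 443515, [nat_lit 182809600000, nat_lit 226400000000, nat_lit 269986400000], [], [nat_lit 55423208839, nat_lit 83456378709, nat_lit 5382497604, nat_lit 23353925784, nat_lit 95557835923, nat_lit 120962516963, nat_lit 35075225568, nat_lit 59585570310], nat_lit 1271250, nat_lit 1271250, nat_lit 157850, nat_lit 356250, nat_lit 1271250, nat_lit 1271250, [nat_lit 1100000, nat_lit 1442500, nat_lit 1271250], [nat_lit 9, nat_lit 40, nat_lit 20, nat_lit 80, nat_lit 2, nat_lit 226, nat_lit 20, nat_lit 7]⟩, C1.Rw.none,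
 ⟨nat_lit 5477, nat_lit 5917, ⟨.ofNat (nat_lit 215652), .ofNat (nat_lit 278479), .ofNat (nat_lit 226322), .ofNat (nat_lit 289149), .ofNat (nat_lit 231179), .ofNat (nat_lit 291125), .ofNat (nat_lit 241858), .ofNat (nat_lit 301804)⟩, ⟨.ofNat (nat_lit 386479), .ofNat (nat_lit 441452), .ofNat (nat_lit 407818), .ofNat (nat_lit 462791), .ofNat (nat_lit 382718), .ofNat (nat_lit 435171), .ofNat (nat_lit 404075), .ofNat (nat_lit 456528)⟩⟩, [⟨nat_lit 0, nat_lit 100, nat_lit 96, nat_lit 69, nat_lit 9891010880⟩, ⟨nat_lit 16, nat_lit 96, nat_lit 100, nat_lit 54, nat_lit 10416666667⟩, ⟨nat_lit 16, nat_lit 100, nat_lit 99, nat_lit 63, nat_lit 10101010101⟩, ⟨nat_lit 4, nat_lit 100, nat_lit 96, nat_lit 54, nat_lit 10416666667⟩]⟩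
noncomputable def p038_l111 : Lf2 := ⟨nat_lit 0, nat_lit 5, [nat_lit 4, nat_lit 5, nat_lit 5, nat_lit 20], false, nat_lit 240, nat_lit 268, nat_lit 0, nat_lit 280, ⟨nat_lit 217, nat_lit 0, nat_lit 783, nat_lit 6, nat_lit 124, nat_lit 783, nat_lit 169, nat_lit 783, nat_lit 126379, nat_lit 302, nat_lit 144150, nat_lit 308, nat_lit 50556465, nat_lit 0, nat_lit 0, nat_lit 3846929, false, false⟩,
 nat_lit 8371, nat_lit 1097, nat_lit 0, nat_lit 0, nat_lit 5511, nat_lit 4650, nat_lit 165, nat_lit 0, nat_lit 0, nat_lit 858, nat_lit 0, nat_lit 0, nat_lit 0, nat_lit 0, nat_lit 19, nat_lit 783000, nat_lit 0, nat_lit 0, [(nat_lit 9, [(nat_lit 6, nat_lit 783)])],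
 ⟨p038_k42, nat_lit 0, nat_lit 0, nat_lit 262, nat_lit 0, nat_lit 443515, [nat_lit 2180716801, nat_lit 1156830000, nat_lit 155200200], [], [nat_lit 14601641455, nat_lit 16007894920, nat_lit 14438708261, nat_lit 15597375764, nat_lit 16709073498, nat_lit 18292150089, nat_lit 16284876170, nat_lit 17839761681], nat_lit 1271250, nat_lit 1271250, nat_lit 356250, nat_lit 490000, nat_lit 1271250, nat_lit 1271250, [nat_lit 1100000, nat_lit 1442500, nat_lit 1271250], [nat_lit 9, nat_lit 40, nat_lit 20, nat_lit 80, nat_lit 2, nat_lit 226, nat_lit 20, nat_lit 7]⟩, ⟨p038_k16, nat_lit 0, nat_lit 0, nat_lit 379, nat_lit 0, nat_lit 467940, [nat_lit 1017296000, nat_lit 1356250000, nat_lit 1729056000], [], [nat_lit 5928358904, nat_lit 6130610778, nat_lit 4595468458, nat_lit 5308706476, nat_lit 6264572629, nat_lit 5207436296, nat_lit 6748382654, nat_lit 5695422704], nat_lit 1271250, nat_lit 1271250, nat_lit 356250, nat_lit 490000, nat_lit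 0, nat_lit 1977500, [nat_lit 1100000, nat_lit 1442500, nat_lit 1271250], [nat_lit 9, nat_lit 40, nat_lit 20, nat_lit 80, nat_lit 2, nat_lit 317, nat_lit 100, nat_lit 11]⟩,
 ⟨nat_lit 5477, nat_lit 5917, ⟨.ofNat (nat_lit 278479), .ofNat (nat_lit 317746), .ofNat (nat_lit 289149), .ofNat (nat_lit 328416), .ofNat (nat_lit 291125), .ofNat (nat_lit 328592), .ofNat (nat_lit 301804), .ofNat (nat_lit 339271)⟩, ⟨.ofNat (nat_lit 386479), .ofNat (nat_lit 441452), .ofNat (nat_lit 407818), .ofNat (nat_lit 462791), .ofNat (nat_lit 382718), .ofNat (nat_lit 435171), .ofNat (nat_lit 404075), .ofNat (nat_lit 456528)⟩⟩, [⟨nat_lit 16, nat_lit 100, nat_lit 99, nat_lit 63, nat_lit 683028751⟩, ⟨nat_lit 19, nat_lit 100, nat_lit 95, nat_lit 62, nat_lit 34979071⟩]⟩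
noncomputable def p038_l112 : Lf2 := ⟨nat_lit 0, nat_lit 5, [nat_lit 4, nat_lit 5, nat_lit 5, nat_lit 20], false, nat_lit 240, nat_lit 268, nat_lit 0, nat_lit 288, ⟨nat_lit 0, nat_lit 0, nat_lit 1000, nat_lit 6, nat_lit 145, nat_lit 1000, nat_lit 169, nat_lit 1000, nat_lit 126379, nat_lit 302, nat_lit 194400, nat_lit 323, nat_lit 49007837, nat_lit 0, nat_lit 0, nat_lit 4102590, false, false⟩,
 nat_lit 0, nat_lit 8224, nat_lit 0, nat_lit 0, nat_lit 4787, nat_lit 0, nat_lit 0, nat_lit 0, nat_lit 0, nat_lit 0, nat_lit 0, nat_lit 0, nat_lit 0, nat_lit 0, nat_lit 117, nat_lit 1000000, nat_lit 0, nat_lit 0, [(nat_lit 9, [(nat_lit 6, nat_lit 1000)])],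
 ⟨p038_k42, nat_lit 0, nat_lit 0, nat_lit 250, nat_lit 0, nat_lit 443515, [nat_lit 2969600000, nat_lit 1600000000, nat_lit 226400000], [], [nat_lit 14122709386, nat_lit 15553556388, nat_lit 14291299150, nat_lit 15600127664, nat_lit 16188266985, nat_lit 17632179007, nat_lit 16205244145, nat_lit 17582750824], nat_lit 1271250, nat_lit 1271250, nat_lit 490000, nat_lit 780000, nat_lit 1271250, nat_lit 1271250, [nat_lit 1100000, nat_lit 1442500, nat_lit 1271250], [nat_lit 9, nat_lit 40, nat_lit 20, nat_lit 80, nat_lit 2, nat_lit 238, nat_lit 30, nat_lit 7]⟩, ⟨p038_k2, nat_lit 0, nat_lit 0, nat_lit 458, nat_lit 0, nat_lit 494746, [nat_lit 0, nat_lit 0, nat_lit 0], [], [nat_lit 0, nat_lit 0, nat_lit 0, nat_lit 0, nat_lit 0, nat_lit 0, nat_lit 0, nat_lit 0], nat_lit 1271250, nat_lit 1271250, nat_lit 490000, nat_lit 780000, nat_lit 0, nat_lit 2034000, [nat_lit 1100000, nat_lit 1442500, nat_lit 1271250], [nat_lit 11, nat_lit 40,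 nat_lit 20, nat_lit 80, nat_lit 1, nat_lit 401, nat_lit 175, nat_lit 12]⟩,
 ⟨nat_lit 5477, nat_lit 5917, ⟨.ofNat (nat_lit 307076), .ofNat (nat_lit 385610), .ofNat (nat_lit 328416), .ofNat (nat_lit 406949), .ofNat (nat_lit 317913), .ofNat (nat_lit 392847), .ofNat (nat_lit 339271), .ofNat (nat_lit 414204)⟩, ⟨.ofNat (nat_lit 386479), .ofNat (nat_lit 441452), .ofNat (nat_lit 407818), .ofNat (nat_lit 462791), .ofNat (nat_lit 382718), .ofNat (nat_lit 435171), .ofNat (nat_lit 404075), .ofNat (nat_lit 456528)⟩⟩, [⟨nat_lit 16, nat_lit 100, nat_lit 99, nat_lit 63, nat_lit 57887890⟩, ⟨nat_lit 4, nat_lit 100, nat_lit 96, nat_lit 54, nat_lit 599172899⟩]⟩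
noncomputable def p038_l113 : Lf2 := ⟨nat_lit 0, nat_lit 10, [nat_lit 0, nat_lit 5, nat_lit 5, nat_lit 20], true, nat_lit 240, nat_lit 268, nat_lit 0, nat_lit 288, ⟨nat_lit 0, nat_lit 0, nat_lit 1000, nat_lit 6, nat_lit 106, nat_lit 1000, nat_lit 169, nat_lit 1000, nat_lit 126379, nat_lit 302, nat_lit 104017, nat_lit 294, nat_lit 51833051, nat_lit 0, nat_lit 0, nat_lit 3605966, false, false⟩,
 nat_lit 0, nat_lit 7517, nat_lit 0, nat_lit 0, nat_lit 4375, nat_lit 0, nat_lit 0, nat_lit 0, nat_lit 0, nat_lit 0, nat_lit 0, nat_lit 0, nat_lit 0, nat_lit 0, nat_lit 125, nat_lit 614200, nat_lit 0, nat_lit 0, [(nat_lit 9, [(nat_lit 5, nat_lit 643), (nat_lit 6, nat_lit 357)])],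
 ⟨p038_k46, nat_lit 0, nat_lit 0, nat_lit 216, nat_lit 0, nat_lit 227786, [nat_lit 3373318400, nat_lit 2262518667, nat_lit 75677333], [], [nat_lit 15791058650, nat_lit 16929082100, nat_lit 15129483550, nat_lit 16201120800, nat_lit 17560378910, nat_lit 18992694980, nat_lit 16639746851, nat_lit 17638535976], nat_lit 1271250, nat_lit 1271250, nat_lit 134400, nat_lit 490000, nat_lit 1271250, nat_lit 1271250, [nat_lit 1100000, nat_lit 1442500, nat_lit 1271250], [nat_lit 11, nat_lit 40, nat_lit 20, nat_lit 80, nat_lit 1, nat_lit 401, nat_lit 175, nat_lit 11]⟩, C1.Rw.none,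
 ⟨nat_lit 5477, nat_lit 5917, ⟨.ofNat (nat_lit 197129), .ofNat (nat_lit 307076), .ofNat (nat_lit 207799), .ofNat (nat_lit 317746), .ofNat (nat_lit 213007), .ofNat (nat_lit 317913), .ofNat (nat_lit 223686), .ofNat (nat_lit 328592)⟩, ⟨.ofNat (nat_lit 386479), .ofNat (nat_lit 441452), .ofNat (nat_lit 407818), .ofNat (nat_lit 462791), .ofNat (nat_lit 382718), .ofNat (nat_lit 435171), .ofNat (nat_lit 404075), .ofNat (nat_lit 456528)⟩⟩, [⟨nat_lit 0, nat_lit 100, nat_lit 96, nat_lit 57, nat_lit 179737725⟩, ⟨nat_lit 4, nat_lit 100, nat_lit 96, nat_lit 54, nat_lit 539851958⟩]⟩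
noncomputable def p038_l114 : Lf2 := ⟨nat_lit 0, nat_lit 10, [nat_lit 0, nat_lit 5, nat_lit 5, nat_lit 20], true, nat_lit 240, nat_lit 268, nat_lit 0, nat_lit 280, ⟨nat_lit 0, nat_lit 0, nat_lit 1000, nat_lit 6, nat_lit 111, nat_lit 1000, nat_lit 169, nat_lit 1000, nat_lit 126379, nat_lit 302, nat_lit 117600, nat_lit 299, nat_lit 51430823, nat_lit 0, nat_lit 0, nat_lit 3685146, false, false⟩,
 nat_lit 0, nat_lit 7705, nat_lit 0, nat_lit 0, nat_lit 4485, nat_lit 0, nat_lit 0, nat_lit 0, nat_lit 0, nat_lit 0, nat_lit 0, nat_lit 0, nat_lit 0, nat_lit 0, nat_lit 131, nat_lit 649600, nat_lit 0, nat_lit 0, [(nat_lit 9, [(nat_lit 5, nat_lit 584), (nat_lit 6, nat_lit 416)])],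
 ⟨p038_k46, nat_lit 0, nat_lit 0, nat_lit 228, nat_lit 0, nat_lit 271294, [nat_lit 3444019201, nat_lit 2364976001, nat_lit 85871999], [], [nat_lit 15468461897, nat_lit 16824996749, nat_lit 14859337692, nat_lit 15942708642, nat_lit 17463373194, nat_lit 18911039156, nat_lit 16386433193, nat_lit 17545590654], nat_lit 1271250, nat_lit 1271250, nat_lit 157850, nat_lit 490000, nat_lit 1271250, nat_lit 1271250, [nat_lit 1100000, nat_lit 1442500, nat_lit 1271250], [nat_lit 11, nat_lit 40, nat_lit 20, nat_lit 80, nat_lit 1, nat_lit 401, nat_lit 175, nat_lit 11]⟩, C1.Rw.none,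
 ⟨nat_lit 5477, nat_lit 5917, ⟨.ofNat (nat_lit 215652), .ofNat (nat_lit 317746), .ofNat (nat_lit 226322), .ofNat (nat_lit 328416), .ofNat (nat_lit 231179), .ofNat (nat_lit 328592), .ofNat (nat_lit 241858), .ofNat (nat_lit 339271)⟩, ⟨.ofNat (nat_lit 386479), .ofNat (nat_lit 441452), .ofNat (nat_lit 407818), .ofNat (nat_lit 462791), .ofNat (nat_lit 382718), .ofNat (nat_lit 435171), .ofNat (nat_lit 404075), .ofNat (nat_lit 456528)⟩⟩, [⟨nat_lit 0, nat_lit 100, nat_lit 97, nat_lit 62, nat_lit 180568428⟩, ⟨nat_lit 4, nat_lit 100, nat_lit 96, nat_lit 54, nat_lit 616998431⟩]⟩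
noncomputable def p038_l115 : Lf2 := ⟨nat_lit 0, nat_lit 10, [nat_lit 0, nat_lit 5, nat_lit 5, nat_lit 20], false, nat_lit 240, nat_lit 268, nat_lit 0, nat_lit 288, ⟨nat_lit 0, nat_lit 0, nat_lit 1000, nat_lit 6, nat_lit 145, nat_lit 1000, nat_lit 169, nat_lit 1000, nat_lit 126379, nat_lit 302, nat_lit 194400, nat_lit 323, nat_lit 49007837, nat_lit 0, nat_lit 0, nat_lit 4102590, false, false⟩,
 nat_lit 0, nat_lit 8237, nat_lit 0, nat_lit 0, nat_lit 4794, nat_lit 0, nat_lit 0, nat_lit 0, nat_lit 0, nat_lit 0, nat_lit 0, nat_lit 0, nat_lit 0, nat_lit 0, nat_lit 130, nat_lit 645400, nat_lit 0, nat_lit 0, [(nat_lit 9, [(nat_lit 5, nat_lit 591), (nat_lit 6, nat_lit 409)])],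
 ⟨p038_k46, nat_lit 0, nat_lit 0, nat_lit 191, nat_lit 0, nat_lit 271294, [nat_lit 3431020801, nat_lit 2347057334, nat_lit 76594666], [], [nat_lit 14248612118, nat_lit 15553980056, nat_lit 14454481618, nat_lit 15599267168, nat_lit 16189201052, nat_lit 17634186022, nat_lit 16204862147, nat_lit 17583372088], nat_lit 1271250, nat_lit 1271250, nat_lit 490000, nat_lit 780000, nat_lit 1271250, nat_lit 1271250, [nat_lit 1100000, nat_lit 1442500, nat_lit 1271250], [nat_lit 11, nat_lit 40, nat_lit 20, nat_lit 80, nat_lit 1, nat_lit 401, nat_lit 175, nat_lit 11]⟩, ⟨p038_k39, nat_lit 0, nat_lit 0, nat_lit 405, nat_lit 0, nat_lit 303690, [nat_lit 0, nat_lit 0, nat_lit 0], [], [nat_lit 0, nat_lit 0, nat_lit 0, nat_lit 0, nat_lit 0, nat_lit 0, nat_lit 0, nat_lit 0], nat_lit 1271250, nat_lit 1271250, nat_lit 490000, nat_lit 780000, nat_lit 0, nat_lit 2034000, [nat_lit 1100000, nat_lit 1442500, nat_lit 1271250], [nat_lit 48, nat_lit 40,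 nat_lit 20, nat_lit 80, nat_lit 12, nat_lit 401, nat_lit 175, nat_lit 11]⟩,
 ⟨nat_lit 5477, nat_lit 5917, ⟨.ofNat (nat_lit 307076), .ofNat (nat_lit 385610), .ofNat (nat_lit 328416), .ofNat (nat_lit 406949), .ofNat (nat_lit 317913), .ofNat (nat_lit 392847), .ofNat (nat_lit 339271), .ofNat (nat_lit 414204)⟩, ⟨.ofNat (nat_lit 386479), .ofNat (nat_lit 441452), .ofNat (nat_lit 407818), .ofNat (nat_lit 462791), .ofNat (nat_lit 382718), .ofNat (nat_lit 435171), .ofNat (nat_lit 404075), .ofNat (nat_lit 456528)⟩⟩, [⟨nat_lit 4, nat_lit 100, nat_lit 96, nat_lit 54, nat_lit 670081510⟩]⟩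
noncomputable def b_VL_600_600_5_78 : St := ⟨true, nat_lit 1, nat_lit 1, nat_lit 1, nat_lit 40, nat_lit 260, nat_lit 280, nat_lit 240, nat_lit 260, nat_lit 24, nat_lit 120, nat_lit 20, nat_lit 40, nat_lit 240, nat_lit 268, nat_lit 0, nat_lit 288, nat_lit 0, nat_lit 40, nat_lit 0, nat_lit 0, nat_lit 0, nat_lit 0⟩
theorem d_VL_600_600_5_78 (h : EB TB.env) : Dead b_VL_600_600_5_78 := chkB_sound0 h (T :=
(.spl (nat_lit 6) (nat_lit 20)
(.spl (nat_lit 2) (nat_lit 80)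
(.spl (nat_lit 1) (nat_lit 250)
(.spl (nat_lit 6) (nat_lit 8)
(.spl (nat_lit 0) (nat_lit 270)
(.spl (nat_lit 2) (nat_lit 40)
(.leaf p038_l102)
(.leaf p038_l103))
(.trZ (nat_lit 0) (nat_lit 100) (nat_lit 96) (nat_lit 54) (nat_lit 28) (.trX (nat_lit 16) (nat_lit 98) (nat_lit 100) (nat_lit 63) (nat_lit 260) (.leaf p038_l104))))
(.leaf p038_l105))
(.trZ (nat_lit 0) (nat_lit 100) (nat_lit 99) (nat_lit 55) (nat_lit 28) (.trX (nat_lit 19) (nat_lit 100) (nat_lit 95) (nat_lit 62) (nat_lit 280) (.spl (nat_lit 2) (nat_lit 60)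
(.spl (nat_lit 7) (nat_lit 600)
(.spl (nat_lit 6) (nat_lit 8)
(.spl (nat_lit 6) (nat_lit 4)
(.spl (nat_lit 2) (nat_lit 40)
(.leaf p038_l106)
(.leaf p038_l107))
(.leaf p038_l108))
(.leaf p038_l109))
(.leaf p038_l110))
(.leaf p038_l111)))))
(.leaf p038_l112))
(.spl (nat_lit 2) (nat_lit 80)
(.spl (nat_lit 1) (nat_lit 250)
(.leaf p038_l113)
(.trZ (nat_lit 0) (nat_lit 100) (nat_lit 99) (nat_lit 55) (nat_lit 28) (.trX (nat_lit 19) (nat_lit 100) (nat_lit 95) (nat_lit 62) (nat_lit 280) (.leaf p038_l114))))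
(.leaf p038_l115)))) (by decide +kernel)
noncomputable def p038_l116 : Lf2 := ⟨nat_lit 0, nat_lit 1, [nat_lit 19, nat_lit 5, nat_lit 5, nat_lit 20], false, nat_lit 240, nat_lit 268, nat_lit 0, nat_lit 268, ⟨nat_lit 63, nat_lit 0, nat_lit 937, nat_lit 6, nat_lit 107, nat_lit 937, nat_lit 170, nat_lit 937, nat_lit 126379, nat_lit 302, nat_lit 106667, nat_lit 295, nat_lit 51642228, nat_lit 0, nat_lit 0, nat_lit 3638447, false, false⟩,
 nat_lit 6472, nat_lit 0, nat_lit 0, nat_lit 0, nat_lit 3767, nat_lit 872, nat_lit 370, nat_lit 0, nat_lit 0, nat_lit 215, nat_lit 0, nat_lit 0, nat_lit 0, nat_lit 11586503611089, nat_lit 0, nat_lit 937000, nat_lit 0, nat_lit 0, [(nat_lit 9, [(nat_lit 6, nat_lit 937)])],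
 ⟨p038_k47, nat_lit 0, nat_lit 0, nat_lit 0, nat_lit 0, nat_lit 352462, [nat_lit 1149721301, nat_lit 706499600, nat_lit 291970900], [], [nat_lit 15211370328, nat_lit 15373280997, nat_lit 14996969009, nat_lit 15155941043, nat_lit 16664024558, nat_lit 16820316645, nat_lit 16425904129, nat_lit 16579221174], nat_lit 1271250, nat_lit 1271250, nat_lit 205650, nat_lit 356250, nat_lit 1271250, nat_lit 1271250, [nat_lit 936250, nat_lit 1100000, nat_lit 1271250], [nat_lit 219, nat_lit 40, nat_lit 20, nat_lit 40]⟩, ⟨p038_k48, nat_lit 0, nat_lit 0, nat_lit 269, nat_lit 0, nat_lit 352462, [nat_lit 295344000, nat_lit 393750000], [], [nat_lit 2189768788, nat_lit 2121547694, nat_lit 1646216308, nat_lit 1578606835, nat_lit 1394048563, nat_lit 1421809254, nat_lit 1294131252, nat_lit 1233474021], nat_lit 1271250, nat_lit 1271250, nat_lit 205650, nat_lit 356250, nat_lit 0, nat_lit 1892750, [nat_lit 1100000, nat_lit 1442500], [nat_lit 31,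 nat_lit 40, nat_lit 20, nat_lit 80, nat_lit 3, nat_lit 317, nat_lit 100, nat_lit 13]⟩,
 ⟨nat_lit 5852, nat_lit 5917, ⟨.ofNat (nat_lit 242029), .ofNat (nat_lit 289149), .ofNat (nat_lit 245230), .ofNat (nat_lit 292350), .ofNat (nat_lit 244273), .ofNat (nat_lit 291064), .ofNat (nat_lit 247473), .ofNat (nat_lit 294265)⟩, ⟨.ofNat (nat_lit 386479), .ofNat (nat_lit 441452), .ofNat (nat_lit 407818), .ofNat (nat_lit 462791), .ofNat (nat_lit 385935), .ofNat (nat_lit 440525), .ofNat (nat_lit 407274), .ofNat (nat_lit 461864)⟩⟩, [⟨nat_lit 0, nat_lit 100, nat_lit 100, nat_lit 62, nat_lit 261162331⟩, ⟨nat_lit 16, nat_lit 100, nat_lit 99, nat_lit 63, nat_lit 7530443⟩, ⟨nat_lit 4, nat_lit 100, nat_lit 98, nat_lit 54, nat_lit 443727169⟩]⟩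
noncomputable def p038_l117 : Lf2 := ⟨nat_lit 0, nat_lit 1, [nat_lit 19, nat_lit 5, nat_lit 5, nat_lit 20], false, nat_lit 240, nat_lit 264, nat_lit 0, nat_lit 268, ⟨nat_lit 150, nat_lit 0, nat_lit 850, nat_lit 6, nat_lit 108, nat_lit 850, nat_lit 168, nat_lit 850, nat_lit 190840, nat_lit 322, nat_lit 109350, nat_lit 296, nat_lit 51728173, nat_lit 0, nat_lit 0, nat_lit 3632894, false, false⟩,
 nat_lit 3847, nat_lit 3058, nat_lit 0, nat_lit 0, nat_lit 4074, nat_lit 2239, nat_lit 762, nat_lit 0, nat_lit 0, nat_lit 0, nat_lit 0, nat_lit 0, nat_lit 0, nat_lit 0, nat_lit 0, nat_lit 850000, nat_lit 0, nat_lit 0, [(nat_lit 9, [(nat_lit 6, nat_lit 850)])],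
 ⟨p038_k49, nat_lit 0, nat_lit 0, nat_lit 0, nat_lit 0, nat_lit 364176, [nat_lit 1411165001, nat_lit 1076180000, nat_lit 770845000], [], [nat_lit 15437926544, nat_lit 15549702331, nat_lit 15167365352, nat_lit 15276916135, nat_lit 16705373431, nat_lit 16844129167, nat_lit 16410194719, nat_lit 16513503760], nat_lit 1271250, nat_lit 1271250, nat_lit 205650, nat_lit 356250, nat_lit 1271250, nat_lit 1271250, [nat_lit 936250, nat_lit 1100000, nat_lit 1271250], [nat_lit 219, nat_lit 40, nat_lit 20, nat_lit 40]⟩, ⟨p038_k48, nat_lit 0, nat_lit 0, nat_lit 270, nat_lit 0, nat_lit 369776, [nat_lit 703200000, nat_lit 937500000], [], [nat_lit 5221901084, nat_lit 4929953396, nat_lit 3826242824, nat_lit 3536912527, nat_lit 3406355526, nat_lit 3523018851, nat_lit 3281824488, nat_lit 3022919558], nat_lit 1271250, nat_lit 1271250, nat_lit 205650, nat_lit 356250, nat_lit 0, nat_lit 1892750, [nat_lit 1100000, nat_lit 1442500], [nat_lit 31,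 nat_lit 40, nat_lit 20, nat_lit 80, nat_lit 3, nat_lit 317, nat_lit 100, nat_lit 13]⟩,
 ⟨nat_lit 5809, nat_lit 5853, ⟨.ofNat (nat_lit 244273), .ofNat (nat_lit 291064), .ofNat (nat_lit 249607), .ofNat (nat_lit 296399), .ofNat (nat_lit 245764), .ofNat (nat_lit 292337), .ofNat (nat_lit 251099), .ofNat (nat_lit 297672)⟩, ⟨.ofNat (nat_lit 385935), .ofNat (nat_lit 432727), .ofNat (nat_lit 407274), .ofNat (nat_lit 454065), .ofNat (nat_lit 385569), .ofNat (nat_lit 432142), .ofNat (nat_lit 406908), .ofNat (nat_lit 453481)⟩⟩, [⟨nat_lit 0, nat_lit 100, nat_lit 99, nat_lit 61, nat_lit 369738406⟩, ⟨nat_lit 16, nat_lit 97, nat_lit 100, nat_lit 54, nat_lit 362210662⟩, ⟨nat_lit 16, nat_lit 100, nat_lit 100, nat_lit 63, nat_lit 114959746⟩]⟩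
noncomputable def p038_l118 : Lf2 := ⟨nat_lit 0, nat_lit 2, [nat_lit 10, nat_lit 5, nat_lit 5, nat_lit 20], false, nat_lit 240, nat_lit 268, nat_lit 0, nat_lit 268, ⟨nat_lit 65, nat_lit 0, nat_lit 935, nat_lit 6, nat_lit 108, nat_lit 935, nat_lit 170, nat_lit 935, nat_lit 126379, nat_lit 302, nat_lit 109350, nat_lit 296, nat_lit 51602692, nat_lit 0, nat_lit 0, nat_lit 3646921, false, false⟩,
 nat_lit 6603, nat_lit 0, nat_lit 0, nat_lit 0, nat_lit 3843, nat_lit 976, nat_lit 71, nat_lit 0, nat_lit 0, nat_lit 0, nat_lit 0, nat_lit 0, nat_lit 0, nat_lit 11577697928384, nat_lit 15, nat_lit 935000, nat_lit 0, nat_lit 0, [(nat_lit 9, [(nat_lit 6, nat_lit 935)])],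
 ⟨p038_k50, nat_lit 0, nat_lit 0, nat_lit 0, nat_lit 0, nat_lit 330819, [nat_lit 1365731501, nat_lit 572979501, nat_lit 14350000], [], [nat_lit 15253320770, nat_lit 15516623408, nat_lit 15019307878, nat_lit 15277461706, nat_lit 16659562819, nat_lit 16995170867, nat_lit 16398059250, nat_lit 16639485561], nat_lit 1271250, nat_lit 1271250, nat_lit 205650, nat_lit 356250, nat_lit 1271250, nat_lit 1271250, [nat_lit 936250, nat_lit 1271250, nat_lit 1271250], [nat_lit 185, nat_lit 40, nat_lit 20, nat_lit 40]⟩, ⟨p038_k40, nat_lit 0, nat_lit 0, nat_lit 267, nat_lit 0, nat_lit 330819, [nat_lit 304720000, nat_lit 406250000], [], [nat_lit 2263113036, nat_lit 2135850444, nat_lit 1654733196, nat_lit 1528611548, nat_lit 1479175720, nat_lit 1529960122, nat_lit 1414212544, nat_lit 1311798542], nat_lit 1271250, nat_lit 1271250, nat_lit 205650, nat_lit 356250, nat_lit 0, nat_lit 1892750, [nat_lit 1100000, nat_lit 1442500], [nat_lit 31, nat_lit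 40, nat_lit 20, nat_lit 80, nat_lit 3, nat_lit 317, nat_lit 100, nat_lit 13]⟩,
 ⟨nat_lit 5809, nat_lit 5917, ⟨.ofNat (nat_lit 242029), .ofNat (nat_lit 289149), .ofNat (nat_lit 247363), .ofNat (nat_lit 294484), .ofNat (nat_lit 245764), .ofNat (nat_lit 292337), .ofNat (nat_lit 251099), .ofNat (nat_lit 297672)⟩, ⟨.ofNat (nat_lit 386479), .ofNat (nat_lit 441452), .ofNat (nat_lit 407818), .ofNat (nat_lit 462791), .ofNat (nat_lit 385569), .ofNat (nat_lit 439905), .ofNat (nat_lit 406908), .ofNat (nat_lit 461244)⟩⟩, [⟨nat_lit 0, nat_lit 100, nat_lit 100, nat_lit 63, nat_lit 250410935⟩, ⟨nat_lit 16, nat_lit 98, nat_lit 100, nat_lit 54, nat_lit 465025946⟩]⟩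
noncomputable def p038_l119 : Lf2 := ⟨nat_lit 0, nat_lit 2, [nat_lit 10, nat_lit 5, nat_lit 5, nat_lit 20], false, nat_lit 240, nat_lit 264, nat_lit 0, nat_lit 268, ⟨nat_lit 209, nat_lit 0, nat_lit 791, nat_lit 6, nat_lit 110, nat_lit 791, nat_lit 168, nat_lit 791, nat_lit 198029, nat_lit 324, nat_lit 114817, nat_lit 298, nat_lit 51616770, nat_lit 0, nat_lit 0, nat_lit 3656695, false, false⟩,
 nat_lit 4672, nat_lit 2809, nat_lit 0, nat_lit 0, nat_lit 4454, nat_lit 2719, nat_lit 924, nat_lit 0, nat_lit 0, nat_lit 467, nat_lit 0, nat_lit 0, nat_lit 0, nat_lit 0, nat_lit 0, nat_lit 228650, nat_lit 0, nat_lit 0, [(nat_lit 9, [(nat_lit 4, nat_lit 585), (nat_lit 5, nat_lit 206)])],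
 ⟨p038_k51, nat_lit 0, nat_lit 0, nat_lit 0, nat_lit 0, nat_lit 409255, [nat_lit 1518005867, nat_lit 1446851334, nat_lit 1221377600], [], [nat_lit 15811631059, nat_lit 16092562872, nat_lit 15534970643, nat_lit 15794025703, nat_lit 17153938485, nat_lit 17514882491, nat_lit 16784830980, nat_lit 17044311513], nat_lit 1271250, nat_lit 1271250, nat_lit 205650, nat_lit 356250, nat_lit 1271250, nat_lit 1271250, [nat_lit 490000, nat_lit 1100000, nat_lit 1442500], [nat_lit 6, nat_lit 40, nat_lit 20, nat_lit 80]⟩, ⟨p038_k40, nat_lit 0, nat_lit 0, nat_lit 274, nat_lit 0, nat_lit 419839, [nat_lit 979792000, nat_lit 1306250000], [], [nat_lit 7255752672, nat_lit 6546680976, nat_lit 5560891212, nat_lit 4858176538, nat_lit 4531608977, nat_lit 4824708742, nat_lit 4735632557, nat_lit 4226428266], nat_lit 1271250, nat_lit 1271250, nat_lit 205650, nat_lit 356250, nat_lit 0, nat_lit 1892750, [nat_lit 1100000, nat_lit 1442500], [nat_lit 31,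 nat_lit 40, nat_lit 20, nat_lit 80, nat_lit 3, nat_lit 317, nat_lit 100, nat_lit 13]⟩,
 ⟨nat_lit 5700, nat_lit 5810, ⟨.ofNat (nat_lit 245764), .ofNat (nat_lit 292337), .ofNat (nat_lit 256433), .ofNat (nat_lit 303007), .ofNat (nat_lit 249476), .ofNat (nat_lit 295508), .ofNat (nat_lit 260147), .ofNat (nat_lit 306179)⟩, ⟨.ofNat (nat_lit 385569), .ofNat (nat_lit 432142), .ofNat (nat_lit 406908), .ofNat (nat_lit 453481), .ofNat (nat_lit 384640), .ofNat (nat_lit 430671), .ofNat (nat_lit 405982), .ofNat (nat_lit 452013)⟩⟩, [⟨nat_lit 0, nat_lit 100, nat_lit 99, nat_lit 62, nat_lit 421059609⟩, ⟨nat_lit 16, nat_lit 96, nat_lit 100, nat_lit 54, nat_lit 326764803⟩, ⟨nat_lit 16, nat_lit 99, nat_lit 100, nat_lit 63, nat_lit 200339544⟩]⟩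
noncomputable def p038_l120 : Lf2 := ⟨nat_lit 0, nat_lit 2, [nat_lit 10, nat_lit 5, nat_lit 5, nat_lit 20], false, nat_lit 240, nat_lit 260, nat_lit 0, nat_lit 268, ⟨nat_lit 397, nat_lit 0, nat_lit 603, nat_lit 6, nat_lit 114, nat_lit 603, nat_lit 165, nat_lit 603, nat_lit 256267, nat_lit 339, nat_lit 123267, nat_lit 301, nat_lit 51565973, nat_lit 0, nat_lit 0, nat_lit 3678864, false, false⟩,
 nat_lit 9727, nat_lit 0, nat_lit 0, nat_lit 0, nat_lit 5923, nat_lit 5661, nat_lit 408, nat_lit 0, nat_lit 0, nat_lit 1095, nat_lit 0, nat_lit 0, nat_lit 0, nat_lit 0, nat_lit 0, nat_lit 603000, nat_lit 0, nat_lit 0, [(nat_lit 9, [(nat_lit 6, nat_lit 603)])],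
 ⟨p038_k41, nat_lit 0, nat_lit 0, nat_lit 0, nat_lit 0, nat_lit 442680, [nat_lit 2522988800, nat_lit 2035030000], [], [nat_lit 16346527624, nat_lit 16894939460, nat_lit 15953953470, nat_lit 16477487904, nat_lit 17762386797, nat_lit 18619171816, nat_lit 16987436055, nat_lit 17794090215], nat_lit 1271250, nat_lit 1271250, nat_lit 230001, nat_lit 356250, nat_lit 1271250, nat_lit 1271250, [nat_lit 1100000, nat_lit 1442500], [nat_lit 31, nat_lit 40, nat_lit 20, nat_lit 80]⟩, ⟨p038_k40, nat_lit 0, nat_lit 0, nat_lit 311, nat_lit 0, nat_lit 465669, [nat_lit 1861136000, nat_lit 2481250000], [], [nat_lit 13215375110, nat_lit 11741312981, nat_lit 10278618140, nat_lit 9447999983, nat_lit 8601941925, nat_lit 9197378131, nat_lit 8142501732, nat_lit 8208282815], nat_lit 1271250, nat_lit 1271250, nat_lit 230001, nat_lit 356250, nat_lit 0, nat_lit 1892750, [nat_lit 1100000, nat_lit 1442500], [nat_lit 31, nat_lit 40, nat_lit 20, nat_lit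 80, nat_lit 3, nat_lit 317, nat_lit 100, nat_lit 13]⟩,
 ⟨nat_lit 5477, nat_lit 5701, ⟨.ofNat (nat_lit 257148), .ofNat (nat_lit 295508), .ofNat (nat_lit 267819), .ofNat (nat_lit 306179), .ofNat (nat_lit 264337), .ofNat (nat_lit 301804), .ofNat (nat_lit 275016), .ofNat (nat_lit 312483)⟩, ⟨.ofNat (nat_lit 384640), .ofNat (nat_lit 422999), .ofNat (nat_lit 405982), .ofNat (nat_lit 444341), .ofNat (nat_lit 382718), .ofNat (nat_lit 420185), .ofNat (nat_lit 404075), .ofNat (nat_lit 441542)⟩⟩, [⟨nat_lit 0, nat_lit 100, nat_lit 98, nat_lit 64, nat_lit 806986151⟩, ⟨nat_lit 16, nat_lit 98, nat_lit 100, nat_lit 63, nat_lit 679475782⟩]⟩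
noncomputable def p038_l121 : Lf2 := ⟨nat_lit 0, nat_lit 4, [nat_lit 38, nat_lit 5, nat_lit 5, nat_lit 20], true, nat_lit 240, nat_lit 268, nat_lit 0, nat_lit 268, ⟨nat_lit 0, nat_lit 0, nat_lit 1000, nat_lit 6, nat_lit 109, nat_lit 1000, nat_lit 169, nat_lit 1000, nat_lit 126379, nat_lit 302, nat_lit 112067, nat_lit 297, nat_lit 51573210, nat_lit 0, nat_lit 0, nat_lit 3657476, false, false⟩,
 nat_lit 0, nat_lit 6527, nat_lit 0, nat_lit 0, nat_lit 3799, nat_lit 0, nat_lit 351, nat_lit 0, nat_lit 0, nat_lit 0, nat_lit 0, nat_lit 0, nat_lit 0, nat_lit 4840916767357, nat_lit 49, nat_lit 348250, nat_lit 0, nat_lit 0, [(nat_lit 9, [(nat_lit 4, nat_lit 345), (nat_lit 5, nat_lit 655)])],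
 ⟨p038_k52, nat_lit 0, nat_lit 0, nat_lit 0, nat_lit 0, nat_lit 359939, [nat_lit 1519357334, nat_lit 1423656667, nat_lit 819830001, nat_lit 91093999], [], [nat_lit 15130674232, nat_lit 16166468555, nat_lit 14944465293, nat_lit 15889596296, nat_lit 16749639433, nat_lit 18083113735, nat_lit 16285438028, nat_lit 17536475001], nat_lit 1271250, nat_lit 1271250, nat_lit 205650, nat_lit 356250, nat_lit 1271250, nat_lit 1271250, [nat_lit 490000, nat_lit 1100000, nat_lit 1442500, nat_lit 1271250], [nat_lit 98, nat_lit 40, nat_lit 20, nat_lit 80]⟩, C1.Rw.none,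
 ⟨nat_lit 5477, nat_lit 5917, ⟨.ofNat (nat_lit 242029), .ofNat (nat_lit 289149), .ofNat (nat_lit 244163), .ofNat (nat_lit 291283), .ofNat (nat_lit 256844), .ofNat (nat_lit 301804), .ofNat (nat_lit 258980), .ofNat (nat_lit 303940)⟩, ⟨.ofNat (nat_lit 386479), .ofNat (nat_lit 441452), .ofNat (nat_lit 407818), .ofNat (nat_lit 462791), .ofNat (nat_lit 382718), .ofNat (nat_lit 435171), .ofNat (nat_lit 404075), .ofNat (nat_lit 456528)⟩⟩, [⟨nat_lit 0, nat_lit 100, nat_lit 100, nat_lit 60, nat_lit 156043391⟩, ⟨nat_lit 4, nat_lit 100, nat_lit 96, nat_lit 54, nat_lit 487438844⟩]⟩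
noncomputable def p038_l122 : Lf2 := ⟨nat_lit 0, nat_lit 4, [nat_lit 38, nat_lit 5, nat_lit 5, nat_lit 20], true, nat_lit 240, nat_lit 268, nat_lit 0, nat_lit 268, ⟨nat_lit 0, nat_lit 0, nat_lit 1000, nat_lit 6, nat_lit 110, nat_lit 1000, nat_lit 169, nat_lit 1000, nat_lit 129135, nat_lit 303, nat_lit 114817, nat_lit 298, nat_lit 51518170, nat_lit 0, nat_lit 0, nat_lit 3668809, false, false⟩,
 nat_lit 0, nat_lit 6410, nat_lit 0, nat_lit 0, nat_lit 3765, nat_lit 0, nat_lit 324, nat_lit 0, nat_lit 0, nat_lit 0, nat_lit 0, nat_lit 0, nat_lit 0, nat_lit 5407154941869, nat_lit 52, nat_lit 370300, nat_lit 0, nat_lit 0, [(nat_lit 9, [(nat_lit 4, nat_lit 198), (nat_lit 5, nat_lit 802)])],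
 ⟨p038_k53, nat_lit 0, nat_lit 0, nat_lit 0, nat_lit 0, nat_lit 360377, [nat_lit 1448414934, nat_lit 1489982667, nat_lit 860132001, nat_lit 112349599], [], [nat_lit 15279691044, nat_lit 16183070135, nat_lit 15043273596, nat_lit 15945063114, nat_lit 16864235117, nat_lit 18059473907, nat_lit 16459410923, nat_lit 17521467435], nat_lit 1271250, nat_lit 1271250, nat_lit 205650, nat_lit 356250, nat_lit 1271250, nat_lit 1271250, [nat_lit 490000, nat_lit 1100000, nat_lit 1442500, nat_lit 1271250], [nat_lit 98, nat_lit 40, nat_lit 20, nat_lit 80]⟩, C1.Rw.none,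
 ⟨nat_lit 5477, nat_lit 5874, ⟨.ofNat (nat_lit 245659), .ofNat (nat_lit 292560), .ofNat (nat_lit 246726), .ofNat (nat_lit 293627), .ofNat (nat_lit 258980), .ofNat (nat_lit 303940), .ofNat (nat_lit 260048), .ofNat (nat_lit 305008)⟩, ⟨.ofNat (nat_lit 386117), .ofNat (nat_lit 440835), .ofNat (nat_lit 407456), .ofNat (nat_lit 462173), .ofNat (nat_lit 382718), .ofNat (nat_lit 435171), .ofNat (nat_lit 404075), .ofNat (nat_lit 456528)⟩⟩, [⟨nat_lit 0, nat_lit 100, nat_lit 100, nat_lit 62, nat_lit 166054479⟩, ⟨nat_lit 4, nat_lit 100, nat_lit 95, nat_lit 54, nat_lit 482883872⟩]⟩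
noncomputable def p038_l123 : Lf2 := ⟨nat_lit 0, nat_lit 5, [nat_lit 4, nat_lit 5, nat_lit 5, nat_lit 20], true, nat_lit 240, nat_lit 268, nat_lit 0, nat_lit 268, ⟨nat_lit 0, nat_lit 0, nat_lit 1000, nat_lit 6, nat_lit 110, nat_lit 1000, nat_lit 169, nat_lit 1000, nat_lit 126379, nat_lit 302, nat_lit 112067, nat_lit 297, nat_lit 51558368, nat_lit 0, nat_lit 0, nat_lit 3660379, false, false⟩,
 nat_lit 0, nat_lit 6577, nat_lit 0, nat_lit 0, nat_lit 3828, nat_lit 0, nat_lit 322, nat_lit 0, nat_lit 0, nat_lit 0, nat_lit 0, nat_lit 0, nat_lit 0, nat_lit 5017590526073, nat_lit 50, nat_lit 352750, nat_lit 0, nat_lit 0, [(nat_lit 9, [(nat_lit 4, nat_lit 315), (nat_lit 5, nat_lit 685)])],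
 ⟨p038_k45, nat_lit 0, nat_lit 0, nat_lit 0, nat_lit 0, nat_lit 299679, [nat_lit 1507981334, nat_lit 1443396667, nat_lit 835810001, nat_lit 104737999], [], [nat_lit 15147195556, nat_lit 16204973820, nat_lit 14877098986, nat_lit 15825663183, nat_lit 16765170319, nat_lit 18103277119, nat_lit 16255086415, nat_lit 17549275572], nat_lit 1271250, nat_lit 1271250, nat_lit 205650, nat_lit 356250, nat_lit 1271250, nat_lit 1271250, [nat_lit 490000, nat_lit 1100000, nat_lit 1442500, nat_lit 1271250], [nat_lit 98, nat_lit 40, nat_lit 20, nat_lit 80]⟩, C1.Rw.none,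
 ⟨nat_lit 5477, nat_lit 5917, ⟨.ofNat (nat_lit 242029), .ofNat (nat_lit 289149), .ofNat (nat_lit 245230), .ofNat (nat_lit 292350), .ofNat (nat_lit 256844), .ofNat (nat_lit 301804), .ofNat (nat_lit 260048), .ofNat (nat_lit 305008)⟩, ⟨.ofNat (nat_lit 386479), .ofNat (nat_lit 441452), .ofNat (nat_lit 407818), .ofNat (nat_lit 462791), .ofNat (nat_lit 382718), .ofNat (nat_lit 435171), .ofNat (nat_lit 404075), .ofNat (nat_lit 456528)⟩⟩, [⟨nat_lit 0, nat_lit 100, nat_lit 100, nat_lit 60, nat_lit 173946264⟩, ⟨nat_lit 4, nat_lit 100, nat_lit 96, nat_lit 54, nat_lit 487894142⟩]⟩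
noncomputable def p038_l124 : Lf2 := ⟨nat_lit 0, nat_lit 5, [nat_lit 4, nat_lit 5, nat_lit 5, nat_lit 20], true, nat_lit 240, nat_lit 264, nat_lit 0, nat_lit 264, ⟨nat_lit 0, nat_lit 0, nat_lit 1000, nat_lit 6, nat_lit 111, nat_lit 1000, nat_lit 167, nat_lit 1000, nat_lit 190840, nat_lit 322, nat_lit 114817, nat_lit 298, nat_lit 51620766, nat_lit 0, nat_lit 0, nat_lit 3658224, false, false⟩,
 nat_lit 0, nat_lit 6455, nat_lit 0, nat_lit 0, nat_lit 3809, nat_lit 0, nat_lit 329, nat_lit 0, nat_lit 0, nat_lit 0, nat_lit 0, nat_lit 0, nat_lit 0, nat_lit 5413570488306, nat_lit 51, nat_lit 366100, nat_lit 0, nat_lit 0, [(nat_lit 9, [(nat_lit 4, nat_lit 226), (nat_lit 5, nat_lit 774)])],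
 ⟨p038_k54, nat_lit 0, nat_lit 0, nat_lit 0, nat_lit 0, nat_lit 370127, [nat_lit 1458499201, nat_lit 1470492000, nat_lit 843884000, nat_lit 98015200], [], [nat_lit 15237083082, nat_lit 16171059811, nat_lit 14992593366, nat_lit 15859746468, nat_lit 16667996205, nat_lit 17815922795, nat_lit 16218814695, nat_lit 17270897918], nat_lit 1271250, nat_lit 1271250, nat_lit 205650, nat_lit 356250, nat_lit 1271250, nat_lit 1271250, [nat_lit 490000, nat_lit 1100000, nat_lit 1442500, nat_lit 1271250], [nat_lit 98, nat_lit 40, nat_lit 20, nat_lit 80]⟩, C1.Rw.none,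
 ⟨nat_lit 5477, nat_lit 5853, ⟨.ofNat (nat_lit 247473), .ofNat (nat_lit 294265), .ofNat (nat_lit 248540), .ofNat (nat_lit 295332), .ofNat (nat_lit 260048), .ofNat (nat_lit 305008), .ofNat (nat_lit 261116), .ofNat (nat_lit 306075)⟩, ⟨.ofNat (nat_lit 385935), .ofNat (nat_lit 432727), .ofNat (nat_lit 407274), .ofNat (nat_lit 454065), .ofNat (nat_lit 382718), .ofNat (nat_lit 427678), .ofNat (nat_lit 404075), .ofNat (nat_lit 449035)⟩⟩, [⟨nat_lit 0, nat_lit 100, nat_lit 100, nat_lit 63, nat_lit 167668696⟩, ⟨nat_lit 4, nat_lit 100, nat_lit 95, nat_lit 54, nat_lit 498611282⟩]⟩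
noncomputable def p038_l125 : Lf2 := ⟨nat_lit 0, nat_lit 5, [nat_lit 4, nat_lit 5, nat_lit 5, nat_lit 20], true, nat_lit 240, nat_lit 264, nat_lit 0, nat_lit 264, ⟨nat_lit 0, nat_lit 0, nat_lit 1000, nat_lit 6, nat_lit 113, nat_lit 1000, nat_lit 167, nat_lit 1000, nat_lit 194441, nat_lit 323, nat_lit 120417, nat_lit 300, nat_lit 51477784, nat_lit 0, nat_lit 0, nat_lit 3685959, false, false⟩,
 nat_lit 0, nat_lit 6441, nat_lit 0, nat_lit 0, nat_lit 3818, nat_lit 0, nat_lit 339, nat_lit 0, nat_lit 0, nat_lit 0, nat_lit 0, nat_lit 0, nat_lit 0, nat_lit 4894560314748, nat_lit 50, nat_lit 351100, nat_lit 0, nat_lit 0, [(nat_lit 9, [(nat_lit 4, nat_lit 326), (nat_lit 5, nat_lit 674)])],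
 ⟨p038_k55, nat_lit 0, nat_lit 0, nat_lit 0, nat_lit 0, nat_lit 372392, [nat_lit 1515085867, nat_lit 1442025334, nat_lit 837284001, nat_lit 108535199], [], [nat_lit 15174931233, nat_lit 16038162360, nat_lit 15058346368, nat_lit 15836157631, nat_lit 16602112585, nat_lit 17681933516, nat_lit 16226964710, nat_lit 17274572637], nat_lit 1271250, nat_lit 1271250, nat_lit 230001, nat_lit 356250, nat_lit 1271250, nat_lit 1271250, [nat_lit 490000, nat_lit 1100000, nat_lit 1442500, nat_lit 1271250], [nat_lit 98, nat_lit 40, nat_lit 20, nat_lit 80]⟩, C1.Rw.none,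
 ⟨nat_lit 5477, nat_lit 5831, ⟨.ofNat (nat_lit 257067), .ofNat (nat_lit 295969), .ofNat (nat_lit 258134), .ofNat (nat_lit 297036), .ofNat (nat_lit 268609), .ofNat (nat_lit 306075), .ofNat (nat_lit 269677), .ofNat (nat_lit 307143)⟩, ⟨.ofNat (nat_lit 385752), .ofNat (nat_lit 432435), .ofNat (nat_lit 407091), .ofNat (nat_lit 453774), .ofNat (nat_lit 382718), .ofNat (nat_lit 427678), .ofNat (nat_lit 404075), .ofNat (nat_lit 449035)⟩⟩, [⟨nat_lit 0, nat_lit 100, nat_lit 100, nat_lit 64, nat_lit 146116884⟩, ⟨nat_lit 4, nat_lit 100, nat_lit 95, nat_lit 54, nat_lit 497790319⟩]⟩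
noncomputable def p038_l126 : Lf2 := ⟨nat_lit 0, nat_lit 5, [nat_lit 4, nat_lit 5, nat_lit 5, nat_lit 20], false, nat_lit 240, nat_lit 264, nat_lit 0, nat_lit 264, ⟨nat_lit 261, nat_lit 0, nat_lit 739, nat_lit 6, nat_lit 114, nat_lit 739, nat_lit 167, nat_lit 739, nat_lit 198029, nat_lit 324, nat_lit 123267, nat_lit 301, nat_lit 51381771, nat_lit 0, nat_lit 0, nat_lit 3704440, false, false⟩,
 nat_lit 7862, nat_lit 0, nat_lit 0, nat_lit 0, nat_lit 4681, nat_lit 4681, nat_lit 978, nat_lit 0, nat_lit 0, nat_lit 0, nat_lit 0, nat_lit 0, nat_lit 0, nat_lit 6322257800683, nat_lit 0, nat_lit 191650, nat_lit 0, nat_lit 0, [(nat_lit 9, [(nat_lit 4, nat_lit 693), (nat_lit 5, nat_lit 46)])],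
 ⟨p038_k56, nat_lit 0, nat_lit 0, nat_lit 0, nat_lit 0, nat_lit 391861, [nat_lit 1646387734, nat_lit 1641664667, nat_lit 1571582401, nat_lit 1418936599], [], [nat_lit 15820823718, nat_lit 16618392776, nat_lit 15526365725, nat_lit 16309809296, nat_lit 17093807197, nat_lit 18207557819, nat_lit 16781657777, nat_lit 17626937263], nat_lit 1271250, nat_lit 1271250, nat_lit 230001, nat_lit 356250, nat_lit 1271250, nat_lit 1271250, [nat_lit 490000, nat_lit 1100000, nat_lit 1442500, nat_lit 1271250], [nat_lit 98, nat_lit 40, nat_lit 20, nat_lit 80]⟩, ⟨p038_k57, nat_lit 0, nat_lit 0, nat_lit 364, nat_lit 0, nat_lit 391861, [nat_lit 1223568000, nat_lit 2079648000], [], [nat_lit 8037259035, nat_lit 8413865830, nat_lit 6879685863, nat_lit 7253334455, nat_lit 6523841746, nat_lit 6383583124, nat_lit 6871208560, nat_lit 6334955775], nat_lit 1271250, nat_lit 1271250, nat_lit 230001, nat_lit 356250, nat_lit 0, nat_lit 1864500, [nat_lit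 1100000, nat_lit 1785000], [nat_lit 39, nat_lit 40, nat_lit 20, nat_lit 80, nat_lit 7, nat_lit 317, nat_lit 100, nat_lit 11]⟩,
 ⟨nat_lit 5477, nat_lit 5810, ⟨.ofNat (nat_lit 258861), .ofNat (nat_lit 297672), .ofNat (nat_lit 264196), .ofNat (nat_lit 303007), .ofNat (nat_lit 269677), .ofNat (nat_lit 307143), .ofNat (nat_lit 275016), .ofNat (nat_lit 312483)⟩, ⟨.ofNat (nat_lit 385569), .ofNat (nat_lit 432142), .ofNat (nat_lit 406908), .ofNat (nat_lit 453481), .ofNat (nat_lit 382718), .ofNat (nat_lit 427678), .ofNat (nat_lit 404075), .ofNat (nat_lit 449035)⟩⟩, [⟨nat_lit 0, nat_lit 100, nat_lit 99, nat_lit 70, nat_lit 261551889⟩, ⟨nat_lit 16, nat_lit 99, nat_lit 100, nat_lit 63, nat_lit 38117257⟩, ⟨nat_lit 4, nat_lit 100, nat_lit 95, nat_lit 54, nat_lit 527591500⟩, ⟨nat_lit 7, nat_lit 100, nat_lit 96, nat_lit 54, nat_lit 12246051⟩]⟩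
noncomputable def p038_l127 : Lf2 := ⟨nat_lit 0, nat_lit 5, [nat_lit 4, nat_lit 5, nat_lit 5, nat_lit 20], true, nat_lit 240, nat_lit 268, nat_lit 0, nat_lit 268, ⟨nat_lit 0, nat_lit 0, nat_lit 1000, nat_lit 6, nat_lit 111, nat_lit 1000, nat_lit 169, nat_lit 1000, nat_lit 126379, nat_lit 302, nat_lit 114817, nat_lit 298, nat_lit 51454201, nat_lit 0, nat_lit 0, nat_lit 3680629, false, false⟩,
 nat_lit 0, nat_lit 361926, nat_lit 0, nat_lit 0, nat_lit 210673, nat_lit 0, nat_lit 60000, nat_lit 11375, nat_lit 0, nat_lit 0, nat_lit 0, nat_lit 0, nat_lit 0, nat_lit 0, nat_lit 0, nat_lit 1000000, nat_lit 0, nat_lit 0, [(nat_lit 9, [(nat_lit 6, nat_lit 1000)])],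
 ⟨p038_k42, nat_lit 0, nat_lit 0, nat_lit 297, nat_lit 0, nat_lit 486696, [nat_lit 183097600000, nat_lit 226760000000, nat_lit 270418400000], [], [nat_lit 38125409463, nat_lit 66031646983, nat_lit 5502879636, nat_lit 23487515256, nat_lit 78071956314, nat_lit 103175240747, nat_lit 35223858558, nat_lit 59686921667], nat_lit 1271250, nat_lit 1271250, nat_lit 205650, nat_lit 356250, nat_lit 1271250, nat_lit 1271250, [nat_lit 1100000, nat_lit 1442500, nat_lit 1271250], [nat_lit 9, nat_lit 40, nat_lit 20, nat_lit 80, nat_lit 2, nat_lit 226, nat_lit 20, nat_lit 7]⟩, C1.Rw.none,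
 ⟨nat_lit 5477, nat_lit 5917, ⟨.ofNat (nat_lit 242029), .ofNat (nat_lit 289149), .ofNat (nat_lit 252698), .ofNat (nat_lit 299818), .ofNat (nat_lit 256844), .ofNat (nat_lit 301804), .ofNat (nat_lit 267523), .ofNat (nat_lit 312483)⟩, ⟨.ofNat (nat_lit 386479), .ofNat (nat_lit 441452), .ofNat (nat_lit 407818), .ofNat (nat_lit 462791), .ofNat (nat_lit 382718), .ofNat (nat_lit 435171), .ofNat (nat_lit 404075), .ofNat (nat_lit 456528)⟩⟩, [⟨nat_lit 0, nat_lit 100, nat_lit 99, nat_lit 67, nat_lit 8717475131⟩, ⟨nat_lit 0, nat_lit 100, nat_lit 98, nat_lit 74, nat_lit 347260711⟩, ⟨nat_lit 16, nat_lit 96, nat_lit 100, nat_lit 54, nat_lit 10416666667⟩, ⟨nat_lit 16, nat_lit 100, nat_lit 99, nat_lit 63, nat_lit 10101010101⟩, ⟨nat_lit 4, nat_lit 100, nat_lit 96, nat_lit 54, nat_lit 10416666667⟩]⟩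
noncomputable def p038_l128 : Lf2 := ⟨nat_lit 0, nat_lit 5, [nat_lit 4, nat_lit 5, nat_lit 5, nat_lit 20], false, nat_lit 240, nat_lit 268, nat_lit 0, nat_lit 268, ⟨nat_lit 339, nat_lit 0, nat_lit 661, nat_lit 6, nat_lit 128, nat_lit 661, nat_lit 169, nat_lit 661, nat_lit 126379, nat_lit 302, nat_lit 153600, nat_lit 311, nat_lit 50245628, nat_lit 0, nat_lit 0, nat_lit 3901266, false, false⟩,
 nat_lit 10120, nat_lit 0, nat_lit 0, nat_lit 0, nat_lit 5890, nat_lit 5890, nat_lit 451, nat_lit 0, nat_lit 0, nat_lit 862, nat_lit 0, nat_lit 0, nat_lit 0, nat_lit 0, nat_lit 0, nat_lit 661000, nat_lit 0, nat_lit 0, [(nat_lit 9, [(nat_lit 6, nat_lit 661)])],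
 ⟨p038_k42, nat_lit 0, nat_lit 0, nat_lit 279, nat_lit 0, nat_lit 486696, [nat_lit 2314745600, nat_lit 1629610000, nat_lit 981493400], [], [nat_lit 14894600280, nat_lit 16142259320, nat_lit 14694656220, nat_lit 15764515960, nat_lit 16816892024, nat_lit 18459440310, nat_lit 16335449210, nat_lit 17948427196], nat_lit 1271250, nat_lit 1271250, nat_lit 356250, nat_lit 490000, nat_lit 1271250, nat_lit 1271250, [nat_lit 1100000, nat_lit 1442500, nat_lit 1271250], [nat_lit 9, nat_lit 40, nat_lit 20, nat_lit 80, nat_lit 2, nat_lit 226, nat_lit 20, nat_lit 7]⟩, ⟨p038_k42, nat_lit 0, nat_lit 0, nat_lit 389, nat_lit 0, nat_lit 486696, [nat_lit 1589232000, nat_lit 2118750000, nat_lit 2701152000], [], [nat_lit 8269658766, nat_lit 9214716137, nat_lit 7256060732, nat_lit 8187964598, nat_lit 8487046445, nat_lit 7392370172, nat_lit 9132442727, nat_lit 7793493175], nat_lit 1271250, nat_lit 1271250, nat_lit 356250, nat_lit 490000, nat_lit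 0, nat_lit 1892750, [nat_lit 1100000, nat_lit 1442500, nat_lit 1271250], [nat_lit 9, nat_lit 40, nat_lit 20, nat_lit 80, nat_lit 2, nat_lit 317, nat_lit 100, nat_lit 11]⟩,
 ⟨nat_lit 5477, nat_lit 5917, ⟨.ofNat (nat_lit 289149), .ofNat (nat_lit 328416), .ofNat (nat_lit 299818), .ofNat (nat_lit 339085), .ofNat (nat_lit 301804), .ofNat (nat_lit 339271), .ofNat (nat_lit 312483), .ofNat (nat_lit 349949)⟩, ⟨.ofNat (nat_lit 386479), .ofNat (nat_lit 441452), .ofNat (nat_lit 407818), .ofNat (nat_lit 462791), .ofNat (nat_lit 382718), .ofNat (nat_lit 435171), .ofNat (nat_lit 404075), .ofNat (nat_lit 456528)⟩⟩, [⟨nat_lit 16, nat_lit 100, nat_lit 99, nat_lit 63, nat_lit 709764063⟩, ⟨nat_lit 19, nat_lit 100, nat_lit 99, nat_lit 63, nat_lit 38832372⟩]⟩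
noncomputable def p038_l129 : Lf2 := ⟨nat_lit 0, nat_lit 5, [nat_lit 4, nat_lit 5, nat_lit 5, nat_lit 20], false, nat_lit 240, nat_lit 260, nat_lit 0, nat_lit 260, ⟨nat_lit 420, nat_lit 0, nat_lit 580, nat_lit 6, nat_lit 129, nat_lit 580, nat_lit 165, nat_lit 580, nat_lit 256267, nat_lit 339, nat_lit 156817, nat_lit 312, nat_lit 50484781, nat_lit 0, nat_lit 0, nat_lit 3873237, false, false⟩,
 nat_lit 9913, nat_lit 0, nat_lit 0, nat_lit 0, nat_lit 6037, nat_lit 6037, nat_lit 537, nat_lit 0, nat_lit 0, nat_lit 783, nat_lit 0, nat_lit 0, nat_lit 0, nat_lit 10070862841153, nat_lit 0, nat_lit 580000, nat_lit 0, nat_lit 0, [(nat_lit 9, [(nat_lit 6, nat_lit 580)])],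
 ⟨p038_k58, nat_lit 0, nat_lit 0, nat_lit 293, nat_lit 0, nat_lit 505614, [nat_lit 2605568000, nat_lit 2195800000, nat_lit 1832852000], [], [nat_lit 16207315913, nat_lit 16852359803, nat_lit 15672773521, nat_lit 16188836156, nat_lit 17484111293, nat_lit 18345605337, nat_lit 16692121197, nat_lit 17315899330], nat_lit 1271250, nat_lit 1271250, nat_lit 279600, nat_lit 490000, nat_lit 1271250, nat_lit 1271250, [nat_lit 1100000, nat_lit 1442500, nat_lit 1271250], [nat_lit 9, nat_lit 40, nat_lit 20, nat_lit 80, nat_lit 2, nat_lit 226, nat_lit 20, nat_lit 7]⟩, ⟨p038_k58, nat_lit 0, nat_lit 0, nat_lit 409, nat_lit 0, nat_lit 505614, [nat_lit 1968960000, nat_lit 2625000000, nat_lit 3346560000], [], [nat_lit 11158385490, nat_lit 11933512044, nat_lit 9025906535, nat_lit 10013268968, nat_lit 9433317304, nat_lit 9439487605, nat_lit 10453457931, nat_lit 9077538094], nat_lit 1271250, nat_lit 1271250, nat_lit 279600, nat_lit 490000, nat_lit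 0, nat_lit 1836250, [nat_lit 1100000, nat_lit 1442500, nat_lit 1271250], [nat_lit 9, nat_lit 40, nat_lit 20, nat_lit 80, nat_lit 2, nat_lit 317, nat_lit 100, nat_lit 11]⟩,
 ⟨nat_lit 5477, nat_lit 5701, ⟨.ofNat (nat_lit 283163), .ofNat (nat_lit 344538), .ofNat (nat_lit 293834), .ofNat (nat_lit 355209), .ofNat (nat_lit 290003), .ofNat (nat_lit 349949), .ofNat (nat_lit 300681), .ofNat (nat_lit 360628)⟩, ⟨.ofNat (nat_lit 384640), .ofNat (nat_lit 422999), .ofNat (nat_lit 405982), .ofNat (nat_lit 444341), .ofNat (nat_lit 382718), .ofNat (nat_lit 420185), .ofNat (nat_lit 404075), .ofNat (nat_lit 441542)⟩⟩, [⟨nat_lit 0, nat_lit 100, nat_lit 100, nat_lit 75, nat_lit 280519351⟩, ⟨nat_lit 16, nat_lit 98, nat_lit 100, nat_lit 63, nat_lit 693403010⟩, ⟨nat_lit 19, nat_lit 98, nat_lit 100, nat_lit 63, nat_lit 38499447⟩]⟩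
noncomputable def p038_l130 : Lf2 := ⟨nat_lit 0, nat_lit 5, [nat_lit 4, nat_lit 5, nat_lit 5, nat_lit 20], false, nat_lit 240, nat_lit 268, nat_lit 0, nat_lit 268, ⟨nat_lit 108, nat_lit 0, nat_lit 892, nat_lit 6, nat_lit 150, nat_lit 892, nat_lit 169, nat_lit 892, nat_lit 126379, nat_lit 302, nat_lit 212817, nat_lit 328, nat_lit 48547628, nat_lit 0, nat_lit 0, nat_lit 4170880, false, false⟩,
 nat_lit 8645, nat_lit 0, nat_lit 0, nat_lit 0, nat_lit 5032, nat_lit 1357, nat_lit 0, nat_lit 0, nat_lit 0, nat_lit 906, nat_lit 0, nat_lit 0, nat_lit 0, nat_lit 18496146123968, nat_lit 59, nat_lit 806200, nat_lit 0, nat_lit 0, [(nat_lit 9, [(nat_lit 5, nat_lit 143), (nat_lit 6, nat_lit 749)])],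
 ⟨p038_k42, nat_lit 0, nat_lit 0, nat_lit 245, nat_lit 0, nat_lit 438797, [nat_lit 2490681600, nat_lit 1271224800, nat_lit 166541600], [], [nat_lit 14318652720, nat_lit 14764068424, nat_lit 14398015616, nat_lit 14880206152, nat_lit 16220959320, nat_lit 16961691923, nat_lit 16191874225, nat_lit 16898184645], nat_lit 1271250, nat_lit 1271250, nat_lit 490000, nat_lit 780000, nat_lit 1271250, nat_lit 1271250, [nat_lit 1100000, nat_lit 1442500, nat_lit 1271250], [nat_lit 9, nat_lit 40, nat_lit 20, nat_lit 80, nat_lit 2, nat_lit 238, nat_lit 30, nat_lit 7]⟩, ⟨p038_k42, nat_lit 0, nat_lit 0, nat_lit 332, nat_lit 0, nat_lit 438797, [nat_lit 506304000, nat_lit 675000000, nat_lit 860544000], [], [nat_lit 3359792210, nat_lit 3001043477, nat_lit 1935598998, nat_lit 1947886742, nat_lit 2302420142, nat_lit 2002769814, nat_lit 2775841070, nat_lit 2471332781], nat_lit 1271250, nat_lit 1271250, nat_lit 490000, nat_lit 780000, nat_lit 0,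 nat_lit 1892750, [nat_lit 1100000, nat_lit 1442500, nat_lit 1271250], [nat_lit 9, nat_lit 40, nat_lit 20, nat_lit 80, nat_lit 2, nat_lit 317, nat_lit 100, nat_lit 11]⟩,
 ⟨nat_lit 5700, nat_lit 5917, ⟨.ofNat (nat_lit 328416), .ofNat (nat_lit 406949), .ofNat (nat_lit 339085), .ofNat (nat_lit 417619), .ofNat (nat_lit 333867), .ofNat (nat_lit 410586), .ofNat (nat_lit 344538), .ofNat (nat_lit 421257)⟩, ⟨.ofNat (nat_lit 386479), .ofNat (nat_lit 441452), .ofNat (nat_lit 407818), .ofNat (nat_lit 462791), .ofNat (nat_lit 384640), .ofNat (nat_lit 438343), .ofNat (nat_lit 405982), .ofNat (nat_lit 459685)⟩⟩, [⟨nat_lit 16, nat_lit 100, nat_lit 99, nat_lit 63, nat_lit 408364831⟩, ⟨nat_lit 4, nat_lit 100, nat_lit 97, nat_lit 54, nat_lit 254475005⟩]⟩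
noncomputable def p038_l131 : Lf2 := ⟨nat_lit 0, nat_lit 5, [nat_lit 4, nat_lit 5, nat_lit 5, nat_lit 20], false, nat_lit 240, nat_lit 260, nat_lit 0, nat_lit 268, ⟨nat_lit 263, nat_lit 0, nat_lit 737, nat_lit 6, nat_lit 154, nat_lit 737, nat_lit 165, nat_lit 737, nat_lit 256267, nat_lit 339, nat_lit 224267, nat_lit 331, nat_lit 48573941, nat_lit 0, nat_lit 0, nat_lit 4172398, false, false⟩,
 nat_lit 5783, nat_lit 3518, nat_lit 0, nat_lit 0, nat_lit 5664, nat_lit 3366, nat_lit 226, nat_lit 0, nat_lit 0, nat_lit 851, nat_lit 0, nat_lit 0, nat_lit 0, nat_lit 4416875449423, nat_lit 0, nat_lit 737000, nat_lit 0, nat_lit 0, [(nat_lit 9, [(nat_lit 6, nat_lit 737)])],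
 ⟨p038_k58, nat_lit 0, nat_lit 0, nat_lit 273, nat_lit 0, nat_lit 505614, [nat_lit 2041875200, nat_lit 1098370000, nat_lit 182687800], [], [nat_lit 15008216112, nat_lit 15606635936, nat_lit 15033695248, nat_lit 15508096096, nat_lit 16423913688, nat_lit 17233059760, nat_lit 16270718620, nat_lit 17041081608], nat_lit 1271250, nat_lit 1271250, nat_lit 490000, nat_lit 780000, nat_lit 1271250, nat_lit 1271250, [nat_lit 1100000, nat_lit 1442500, nat_lit 1271250], [nat_lit 9, nat_lit 40, nat_lit 20, nat_lit 80, nat_lit 2, nat_lit 238, nat_lit 30, nat_lit 7]⟩, ⟨p038_k42, nat_lit 0, nat_lit 0, nat_lit 399, nat_lit 0, nat_lit 532436, [nat_lit 1232944000, nat_lit 1643750000, nat_lit 2095584000], [], [nat_lit 10487547738, nat_lit 8707815630, nat_lit 6954876882, nat_lit 5322459000, nat_lit 7799599492, nat_lit 6269241533, nat_lit 8968233187, nat_lit 7457584841], nat_lit 1271250, nat_lit 1271250, nat_lit 490000, nat_lit 780000, nat_lit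 0, nat_lit 1892750, [nat_lit 1100000, nat_lit 1442500, nat_lit 1271250], [nat_lit 9, nat_lit 40, nat_lit 20, nat_lit 80, nat_lit 2, nat_lit 317, nat_lit 100, nat_lit 11]⟩,
 ⟨nat_lit 5477, nat_lit 5701, ⟨.ofNat (nat_lit 333867), .ofNat (nat_lit 410586), .ofNat (nat_lit 355209), .ofNat (nat_lit 431928), .ofNat (nat_lit 339271), .ofNat (nat_lit 414204), .ofNat (nat_lit 360628), .ofNat (nat_lit 435561)⟩, ⟨.ofNat (nat_lit 384640), .ofNat (nat_lit 422999), .ofNat (nat_lit 405982), .ofNat (nat_lit 444341), .ofNat (nat_lit 382718), .ofNat (nat_lit 420185), .ofNat (nat_lit 404075), .ofNat (nat_lit 441542)⟩⟩, [⟨nat_lit 16, nat_lit 98, nat_lit 100, nat_lit 63, nat_lit 707591753⟩]⟩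
noncomputable def b_VL_600_600_5_79 : St := ⟨true, nat_lit 1, nat_lit 1, nat_lit 1, nat_lit 40, nat_lit 260, nat_lit 280, nat_lit 260, nat_lit 280, nat_lit 36, nat_lit 120, nat_lit 20, nat_lit 40, nat_lit 240, nat_lit 268, nat_lit 0, nat_lit 268, nat_lit 0, nat_lit 20, nat_lit 0, nat_lit 0, nat_lit 0, nat_lit 0⟩
theorem d_VL_600_600_5_79 (h : EB TB.env) : Dead b_VL_600_600_5_79 := chkB_sound0 h (T :=
(.spl (nat_lit 2) (nat_lit 80)
(.spl (nat_lit 1) (nat_lit 270)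
(.spl (nat_lit 2) (nat_lit 60)
(.spl (nat_lit 7) (nat_lit 600)
(.spl (nat_lit 6) (nat_lit 8)
(.spl (nat_lit 0) (nat_lit 270)
(.spl (nat_lit 0) (nat_lit 265)
(.ord (.spl (nat_lit 6) (nat_lit 4)
(.spl (nat_lit 0) (nat_lit 263)
(.ord (.leaf p038_l116))
(.trX (nat_lit 16) (nat_lit 100) (nat_lit 100) (nat_lit 63) (nat_lit 264) (.leaf p038_l117)))
(.leaf p038_l118)))
(.trX (nat_lit 16) (nat_lit 99) (nat_lit 100) (nat_lit 63) (nat_lit 264) (.leaf p038_l119)))
(.trZ (nat_lit 0) (nat_lit 100) (nat_lit 98) (nat_lit 64) (nat_lit 40) (.trX (nat_lit 16) (nat_lit 98) (nat_lit 100) (nat_lit 63) (nat_lit 260) (.leaf p038_l120))))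
(.spl (nat_lit 1) (nat_lit 265)
(.spl (nat_lit 1) (nat_lit 263)
(.spl (nat_lit 6) (nat_lit 16)
(.spl (nat_lit 1) (nat_lit 262)
(.leaf p038_l121)
(.ord (.leaf p038_l122)))
(.leaf p038_l123))
(.ord (.trX (nat_lit 16) (nat_lit 100) (nat_lit 100) (nat_lit 63) (nat_lit 264) (.trX (nat_lit 19) (nat_lit 100) (nat_lit 100) (nat_lit 63) (nat_lit 264) (.spl (nat_lit 1) (nat_lit 264)
(.leaf p038_l124)
(.ord (.trZ (nat_lit 0) (nat_lit 100) (nat_lit 100) (nat_lit 64) (nat_lit 40) (.leaf p038_l125))))))))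
(.ord (.trZ (nat_lit 0) (nat_lit 100) (nat_lit 100) (nat_lit 65) (nat_lit 40) (.trX (nat_lit 16) (nat_lit 99) (nat_lit 100) (nat_lit 63) (nat_lit 264) (.trX (nat_lit 19) (nat_lit 99) (nat_lit 100) (nat_lit 63) (nat_lit 264) (.leaf p038_l126)))))))
(.leaf p038_l127))
(.leaf p038_l128))
(.ord (.trZ (nat_lit 0) (nat_lit 100) (nat_lit 100) (nat_lit 70) (nat_lit 48) (.trX (nat_lit 16) (nat_lit 98) (nat_lit 100) (nat_lit 63) (nat_lit 260) (.trX (nat_lit 19) (nat_lit 98) (nat_lit 100) (nat_lit 63) (nat_lit 260) (.leaf p038_l129))))))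
(.spl (nat_lit 0) (nat_lit 270)
(.ord (.leaf p038_l130))
(.trX (nat_lit 16) (nat_lit 98) (nat_lit 100) (nat_lit 63) (nat_lit 260) (.leaf p038_l131))))) (by decide +kernel)
noncomputable def p038_l132 : Lf2 := ⟨nat_lit 0, nat_lit 10, [nat_lit 0, nat_lit 5, nat_lit 5, nat_lit 20], true, nat_lit 240, nat_lit 268, nat_lit 0, nat_lit 268, ⟨nat_lit 0, nat_lit 0, nat_lit 1000, nat_lit 6, nat_lit 109, nat_lit 1000, nat_lit 169, nat_lit 1000, nat_lit 126379, nat_lit 302, nat_lit 112067, nat_lit 297, nat_lit 51573210, nat_lit 0, nat_lit 0, nat_lit 3657476, false, false⟩,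
 nat_lit 0, nat_lit 7846, nat_lit 0, nat_lit 0, nat_lit 4567, nat_lit 0, nat_lit 0, nat_lit 0, nat_lit 0, nat_lit 0, nat_lit 0, nat_lit 0, nat_lit 0, nat_lit 3201379103582, nat_lit 133, nat_lit 661000, nat_lit 0, nat_lit 0, [(nat_lit 9, [(nat_lit 5, nat_lit 565), (nat_lit 6, nat_lit 435)])],
 ⟨p038_k46, nat_lit 0, nat_lit 0, nat_lit 224, nat_lit 0, nat_lit 280397, [nat_lit 3467872000, nat_lit 2399326667, nat_lit 91053333], [], [nat_lit 15121614156, nat_lit 16519077016, nat_lit 14765585882, nat_lit 15881002684, nat_lit 17160940143, nat_lit 18617095749, nat_lit 16440522868, nat_lit 17875469434], nat_lit 1271250, nat_lit 1271250, nat_lit 205650, nat_lit 356250, nat_lit 1271250, nat_lit 1271250, [nat_lit 1100000, nat_lit 1442500, nat_lit 1271250], [nat_lit 11, nat_lit 40, nat_lit 20, nat_lit 80, nat_lit 1, nat_lit 401, nat_lit 175, nat_lit 11]⟩, C1.Rw.none,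
 ⟨nat_lit 5477, nat_lit 5917, ⟨.ofNat (nat_lit 242029), .ofNat (nat_lit 289149), .ofNat (nat_lit 244163), .ofNat (nat_lit 291283), .ofNat (nat_lit 256844), .ofNat (nat_lit 301804), .ofNat (nat_lit 258980), .ofNat (nat_lit 303940)⟩, ⟨.ofNat (nat_lit 386479), .ofNat (nat_lit 441452), .ofNat (nat_lit 407818), .ofNat (nat_lit 462791), .ofNat (nat_lit 382718), .ofNat (nat_lit 435171), .ofNat (nat_lit 404075), .ofNat (nat_lit 456528)⟩⟩, [⟨nat_lit 0, nat_lit 100, nat_lit 100, nat_lit 60, nat_lit 191453886⟩, ⟨nat_lit 16, nat_lit 96, nat_lit 100, nat_lit 54, nat_lit 632480007⟩]⟩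
noncomputable def p038_l133 : Lf2 := ⟨nat_lit 0, nat_lit 10, [nat_lit 0, nat_lit 5, nat_lit 5, nat_lit 20], true, nat_lit 240, nat_lit 268, nat_lit 0, nat_lit 268, ⟨nat_lit 0, nat_lit 0, nat_lit 1000, nat_lit 6, nat_lit 110, nat_lit 1000, nat_lit 169, nat_lit 1000, nat_lit 129135, nat_lit 303, nat_lit 114817, nat_lit 298, nat_lit 51518170, nat_lit 0, nat_lit 0, nat_lit 3668809, false, false⟩,
 nat_lit 0, nat_lit 7740, nat_lit 0, nat_lit 0, nat_lit 4546, nat_lit 0, nat_lit 0, nat_lit 0, nat_lit 0, nat_lit 0, nat_lit 0, nat_lit 0, nat_lit 0, nat_lit 3569666699216, nat_lit 131, nat_lit 649000, nat_lit 0, nat_lit 0, [(nat_lit 9, [(nat_lit 5, nat_lit 585), (nat_lit 6, nat_lit 415)])],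
 ⟨p038_k59, nat_lit 0, nat_lit 0, nat_lit 225, nat_lit 0, nat_lit 281885, [nat_lit 3444448000, nat_lit 2365273334, nat_lit 88546666], [], [nat_lit 15288460410, nat_lit 16509435378, nat_lit 14933749764, nat_lit 15935541992, nat_lit 17294973743, nat_lit 18602494678, nat_lit 16577713884, nat_lit 17866200054], nat_lit 1271250, nat_lit 1271250, nat_lit 205650, nat_lit 356250, nat_lit 1271250, nat_lit 1271250, [nat_lit 1100000, nat_lit 1442500, nat_lit 1271250], [nat_lit 11, nat_lit 40, nat_lit 20, nat_lit 80, nat_lit 1, nat_lit 401, nat_lit 175, nat_lit 11]⟩, C1.Rw.none,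
 ⟨nat_lit 5477, nat_lit 5874, ⟨.ofNat (nat_lit 245659), .ofNat (nat_lit 292560), .ofNat (nat_lit 246726), .ofNat (nat_lit 293627), .ofNat (nat_lit 258980), .ofNat (nat_lit 303940), .ofNat (nat_lit 260048), .ofNat (nat_lit 305008)⟩, ⟨.ofNat (nat_lit 386117), .ofNat (nat_lit 440835), .ofNat (nat_lit 407456), .ofNat (nat_lit 462173), .ofNat (nat_lit 382718), .ofNat (nat_lit 435171), .ofNat (nat_lit 404075), .ofNat (nat_lit 456528)⟩⟩, [⟨nat_lit 0, nat_lit 100, nat_lit 100, nat_lit 62, nat_lit 190850124⟩, ⟨nat_lit 4, nat_lit 100, nat_lit 95, nat_lit 54, nat_lit 629861048⟩]⟩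
noncomputable def p038_l134 : Lf2 := ⟨nat_lit 0, nat_lit 10, [nat_lit 0, nat_lit 5, nat_lit 5, nat_lit 20], true, nat_lit 240, nat_lit 264, nat_lit 0, nat_lit 264, ⟨nat_lit 0, nat_lit 0, nat_lit 1000, nat_lit 6, nat_lit 111, nat_lit 1000, nat_lit 167, nat_lit 1000, nat_lit 190840, nat_lit 322, nat_lit 114817, nat_lit 298, nat_lit 51620766, nat_lit 0, nat_lit 0, nat_lit 3658224, false, false⟩,
 nat_lit 0, nat_lit 7739, nat_lit 0, nat_lit 0, nat_lit 4566, nat_lit 0, nat_lit 0, nat_lit 0, nat_lit 0, nat_lit 0, nat_lit 0, nat_lit 0, nat_lit 0, nat_lit 3629652377405, nat_lit 132, nat_lit 655600, nat_lit 0, nat_lit 0, [(nat_lit 9, [(nat_lit 5, nat_lit 574), (nat_lit 6, nat_lit 426)])],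
 ⟨p038_k60, nat_lit 0, nat_lit 0, nat_lit 225, nat_lit 0, nat_lit 284852, [nat_lit 3455731200, nat_lit 2382002667, nat_lit 87125333], [], [nat_lit 15301818914, nat_lit 16518617890, nat_lit 14942490826, nat_lit 15890501432, nat_lit 17064062827, nat_lit 18316717236, nat_lit 16345730251, nat_lit 17579982533], nat_lit 1271250, nat_lit 1271250, nat_lit 205650, nat_lit 356250, nat_lit 1271250, nat_lit 1271250, [nat_lit 1100000, nat_lit 1442500, nat_lit 1271250], [nat_lit 11, nat_lit 40, nat_lit 20, nat_lit 80, nat_lit 1, nat_lit 401, nat_lit 175, nat_lit 11]⟩, C1.Rw.none,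
 ⟨nat_lit 5477, nat_lit 5853, ⟨.ofNat (nat_lit 247473), .ofNat (nat_lit 294265), .ofNat (nat_lit 248540), .ofNat (nat_lit 295332), .ofNat (nat_lit 260048), .ofNat (nat_lit 305008), .ofNat (nat_lit 261116), .ofNat (nat_lit 306075)⟩, ⟨.ofNat (nat_lit 385935), .ofNat (nat_lit 432727), .ofNat (nat_lit 407274), .ofNat (nat_lit 454065), .ofNat (nat_lit 382718), .ofNat (nat_lit 427678), .ofNat (nat_lit 404075), .ofNat (nat_lit 449035)⟩⟩, [⟨nat_lit 0, nat_lit 100, nat_lit 100, nat_lit 63, nat_lit 191623338⟩, ⟨nat_lit 4, nat_lit 100, nat_lit 95, nat_lit 54, nat_lit 633355412⟩]⟩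
noncomputable def p038_l135 : Lf2 := ⟨nat_lit 0, nat_lit 10, [nat_lit 0, nat_lit 5, nat_lit 5, nat_lit 20], true, nat_lit 240, nat_lit 264, nat_lit 0, nat_lit 264, ⟨nat_lit 0, nat_lit 0, nat_lit 1000, nat_lit 6, nat_lit 113, nat_lit 1000, nat_lit 167, nat_lit 1000, nat_lit 194441, nat_lit 323, nat_lit 120417, nat_lit 300, nat_lit 51477784, nat_lit 0, nat_lit 0, nat_lit 3685959, false, false⟩,
 nat_lit 0, nat_lit 7754, nat_lit 0, nat_lit 0, nat_lit 4596, nat_lit 0, nat_lit 0, nat_lit 0, nat_lit 0, nat_lit 0, nat_lit 0, nat_lit 0, nat_lit 0, nat_lit 3424425645302, nat_lit 132, nat_lit 654400, nat_lit 0, nat_lit 0, [(nat_lit 9, [(nat_lit 5, nat_lit 576), (nat_lit 6, nat_lit 424)])],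
 ⟨p038_k61, nat_lit 0, nat_lit 0, nat_lit 222, nat_lit 0, nat_lit 287838, [nat_lit 3456588801, nat_lit 2382597334, nat_lit 92474666], [], [nat_lit 15210153689, nat_lit 16354823920, nat_lit 14943915974, nat_lit 15838806194, nat_lit 16974827489, nat_lit 18155787175, nat_lit 16426745766, nat_lit 17592231593], nat_lit 1271250, nat_lit 1271250, nat_lit 230001, nat_lit 356250, nat_lit 1271250, nat_lit 1271250, [nat_lit 1100000, nat_lit 1442500, nat_lit 1271250], [nat_lit 11, nat_lit 40, nat_lit 20, nat_lit 80, nat_lit 1, nat_lit 401, nat_lit 175, nat_lit 11]⟩, C1.Rw.none,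
 ⟨nat_lit 5477, nat_lit 5831, ⟨.ofNat (nat_lit 257067), .ofNat (nat_lit 295969), .ofNat (nat_lit 258134), .ofNat (nat_lit 297036), .ofNat (nat_lit 268609), .ofNat (nat_lit 306075), .ofNat (nat_lit 269677), .ofNat (nat_lit 307143)⟩, ⟨.ofNat (nat_lit 385752), .ofNat (nat_lit 432435), .ofNat (nat_lit 407091), .ofNat (nat_lit 453774), .ofNat (nat_lit 382718), .ofNat (nat_lit 427678), .ofNat (nat_lit 404075), .ofNat (nat_lit 449035)⟩⟩, [⟨nat_lit 0, nat_lit 100, nat_lit 100, nat_lit 64, nat_lit 183541605⟩, ⟨nat_lit 16, nat_lit 95, nat_lit 100, nat_lit 54, nat_lit 635019510⟩]⟩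
noncomputable def p038_l136 : Lf2 := ⟨nat_lit 0, nat_lit 10, [nat_lit 0, nat_lit 5, nat_lit 5, nat_lit 20], false, nat_lit 240, nat_lit 264, nat_lit 0, nat_lit 160, ⟨nat_lit 1000, nat_lit 0, nat_lit 0, nat_lit 0, nat_lit 0, nat_lit 0, nat_lit 0, nat_lit 0, nat_lit 0, nat_lit 0, nat_lit 0, nat_lit 0, nat_lit 0, nat_lit 0, nat_lit 0, nat_lit 0, false, false⟩,
 nat_lit 23314, nat_lit 0, nat_lit 0, nat_lit 0, nat_lit 13883, nat_lit 11799, nat_lit 1394, nat_lit 0, nat_lit 0, nat_lit 2147, nat_lit 0, nat_lit 0, nat_lit 0, nat_lit 5867881894334, nat_lit 0, nat_lit 0, nat_lit 0, nat_lit 0, [],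
 ⟨p038_k62, nat_lit 0, nat_lit 0, nat_lit 230, nat_lit 0, nat_lit 309238, [nat_lit 4688000000, nat_lit 6250000000, nat_lit 9842000000], [], [nat_lit 18930954214, nat_lit 20337495430, nat_lit 16956478279, nat_lit 18337105462, nat_lit 21573197931, nat_lit 23812186832, nat_lit 19194618331, nat_lit 21384132267], nat_lit 1271250, nat_lit 1271250, nat_lit 230001, nat_lit 356250, nat_lit 1271250, nat_lit 1271250, [nat_lit 1100000, nat_lit 1442500, nat_lit 1271250], [nat_lit 11, nat_lit 40, nat_lit 20, nat_lit 80, nat_lit 1, nat_lit 401, nat_lit 175, nat_lit 11]⟩, ⟨p038_k62, nat_lit 0, nat_lit 0, nat_lit 370, nat_lit 0, nat_lit 309238, [nat_lit 4688000000, nat_lit 6250000000, nat_lit 9842000000], [], [nat_lit 23305551785, nat_lit 23929663721, nat_lit 21301335600, nat_lit 21916599239, nat_lit 16718941270, nat_lit 15309881092, nat_lit 17575659561, nat_lit 16176221467], nat_lit 1271250, nat_lit 1271250, nat_lit 230001, nat_lit 356250,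 nat_lit 0, nat_lit 1100001, [nat_lit 1100000, nat_lit 1442500, nat_lit 1271250], [nat_lit 11, nat_lit 40, nat_lit 20, nat_lit 80, nat_lit 1, nat_lit 345, nat_lit 125, nat_lit 10]⟩,
 zbF0, [⟨nat_lit 0, nat_lit 100, nat_lit 100, nat_lit 65, nat_lit 1443851771⟩, ⟨nat_lit 4, nat_lit 100, nat_lit 95, nat_lit 54, nat_lit 1521833733⟩]⟩
noncomputable def p038_l137 : Lf2 := ⟨nat_lit 0, nat_lit 10, [nat_lit 0, nat_lit 5, nat_lit 5, nat_lit 20], false, nat_lit 240, nat_lit 264, nat_lit 160, nat_lit 264, ⟨nat_lit 184, nat_lit 0, nat_lit 816, nat_lit 6, nat_lit 114, nat_lit 816, nat_lit 167, nat_lit 816, nat_lit 198029, nat_lit 324, nat_lit 123267, nat_lit 301, nat_lit 51381771, nat_lit 0, nat_lit 0, nat_lit 3704440, false, false⟩,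
 nat_lit 8262, nat_lit 0, nat_lit 0, nat_lit 0, nat_lit 4919, nat_lit 3715, nat_lit 125, nat_lit 0, nat_lit 0, nat_lit 0, nat_lit 0, nat_lit 0, nat_lit 0, nat_lit 10376702478063, nat_lit 92, nat_lit 816000, nat_lit 0, nat_lit 0, [(nat_lit 9, [(nat_lit 6, nat_lit 816)])],
 ⟨p038_k62, nat_lit 0, nat_lit 0, nat_lit 230, nat_lit 0, nat_lit 309238, [nat_lit 3230233600, nat_lit 2640208001, nat_lit 160611199], [], [nat_lit 15766682626, nat_lit 16557827314, nat_lit 15319708517, nat_lit 16121441673, nat_lit 17206000776, nat_lit 18352515622, nat_lit 16602961418, nat_lit 17724113139], nat_lit 1271250, nat_lit 1271250, nat_lit 230001, nat_lit 356250, nat_lit 1271250, nat_lit 1271250, [nat_lit 1100000, nat_lit 1442500, nat_lit 1271250], [nat_lit 11, nat_lit 40, nat_lit 20, nat_lit 80, nat_lit 1, nat_lit 401, nat_lit 175, nat_lit 11]⟩, ⟨p038_k62, nat_lit 0, nat_lit 0, nat_lit 227, nat_lit 0, nat_lit 309238, [nat_lit 862592000, nat_lit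 1150000000, nat_lit 1810928000], [], [nat_lit 4719365631, nat_lit 4235693063, nat_lit 2795744203, nat_lit 2787364135, nat_lit 4609048994, nat_lit 4719339944, nat_lit 4041303840, nat_lit 4141790081], nat_lit 1271250, nat_lit 1271250, nat_lit 230001, nat_lit 356250, nat_lit 1100001, nat_lit 1990500, [nat_lit 1100000, nat_lit 1442500, nat_lit 1271250], [nat_lit 11, nat_lit 40, nat_lit 20, nat_lit 80, nat_lit 1, nat_lit 373, nat_lit 150, nat_lit 10]⟩,
 ⟨nat_lit 5477, nat_lit 5810, ⟨.ofNat (nat_lit 258861), .ofNat (nat_lit 297672), .ofNat (nat_lit 264196), .ofNat (nat_lit 303007), .ofNat (nat_lit 269677), .ofNat (nat_lit 307143), .ofNat (nat_lit 275016), .ofNat (nat_lit 312483)⟩, ⟨.ofNat (nat_lit 385569), .ofNat (nat_lit 432142), .ofNat (nat_lit 406908), .ofNat (nat_lit 453481), .ofNat (nat_lit 382718), .ofNat (nat_lit 427678), .ofNat (nat_lit 404075), .ofNat (nat_lit 449035)⟩⟩, [⟨nat_lit 0, nat_lit 100, nat_lit 99, nat_lit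 70, nat_lit 489080148⟩, ⟨nat_lit 4, nat_lit 100, nat_lit 95, nat_lit 54, nat_lit 587255630⟩, ⟨nat_lit 7, nat_lit 100, nat_lit 96, nat_lit 54, nat_lit 64816181⟩]⟩
noncomputable def p038_l138 : Lf2 := ⟨nat_lit 0, nat_lit 10, [nat_lit 0, nat_lit 5, nat_lit 5, nat_lit 20], false, nat_lit 240, nat_lit 268, nat_lit 0, nat_lit 268, ⟨nat_lit 169, nat_lit 0, nat_lit 831, nat_lit 6, nat_lit 128, nat_lit 831, nat_lit 169, nat_lit 831, nat_lit 126379, nat_lit 302, nat_lit 153600, nat_lit 311, nat_lit 50245628, nat_lit 0, nat_lit 0, nat_lit 3901266, false, false⟩,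
 nat_lit 8306, nat_lit 0, nat_lit 0, nat_lit 0, nat_lit 4834, nat_lit 3209, nat_lit 61, nat_lit 0, nat_lit 0, nat_lit 99, nat_lit 0, nat_lit 0, nat_lit 0, nat_lit 5298843533171, nat_lit 100, nat_lit 831000, nat_lit 0, nat_lit 0, [(nat_lit 9, [(nat_lit 6, nat_lit 831)])],
 ⟨p038_k46, nat_lit 0, nat_lit 0, nat_lit 220, nat_lit 0, nat_lit 317662, [nat_lit 3304377601, nat_lit 2700028001, nat_lit 162159199], [], [nat_lit 15137528738, nat_lit 16196059569, nat_lit 14998361229, nat_lit 16036800761, nat_lit 16635237831, nat_lit 17993322966, nat_lit 16467223434, nat_lit 17645654678], nat_lit 1271250, nat_lit 1271250, nat_lit 356250, nat_lit 490000, nat_lit 1271250, nat_lit 1271250, [nat_lit 1100000, nat_lit 1442500, nat_lit 1271250], [nat_lit 11, nat_lit 40, nat_lit 20, nat_lit 80, nat_lit 1, nat_lit 401, nat_lit 175, nat_lit 11]⟩, ⟨p038_k46, nat_lit 0, nat_lit 0, nat_lit 359, nat_lit 0, nat_lit 317662, [nat_lit 792272000, nat_lit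 1056250000, nat_lit 1663298000], [], [nat_lit 5050218309, nat_lit 5348476345, nat_lit 4628631993, nat_lit 4920693203, nat_lit 4527002332, nat_lit 3792717187, nat_lit 4870231658, nat_lit 4140742845], nat_lit 1271250, nat_lit 1271250, nat_lit 356250, nat_lit 490000, nat_lit 0, nat_lit 1892750, [nat_lit 1100000, nat_lit 1442500, nat_lit 1271250], [nat_lit 11, nat_lit 40, nat_lit 20, nat_lit 80, nat_lit 1, nat_lit 401, nat_lit 175, nat_lit 12]⟩,
 ⟨nat_lit 5477, nat_lit 5917, ⟨.ofNat (nat_lit 289149), .ofNat (nat_lit 328416), .ofNat (nat_lit 299818), .ofNat (nat_lit 339085), .ofNat (nat_lit 301804), .ofNat (nat_lit 339271), .ofNat (nat_lit 312483), .ofNat (nat_lit 349949)⟩, ⟨.ofNat (nat_lit 386479), .ofNat (nat_lit 441452), .ofNat (nat_lit 407818), .ofNat (nat_lit 462791), .ofNat (nat_lit 382718), .ofNat (nat_lit 435171), .ofNat (nat_lit 404075), .ofNat (nat_lit 456528)⟩⟩, [⟨nat_lit 4, nat_lit 100, nat_lit 96, nat_lit 54, nat_lit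 657084125⟩]⟩
noncomputable def p038_l139 : Lf2 := ⟨nat_lit 0, nat_lit 10, [nat_lit 0, nat_lit 5, nat_lit 5, nat_lit 20], false, nat_lit 240, nat_lit 260, nat_lit 0, nat_lit 160, ⟨nat_lit 1000, nat_lit 0, nat_lit 0, nat_lit 0, nat_lit 0, nat_lit 0, nat_lit 0, nat_lit 0, nat_lit 0, nat_lit 0, nat_lit 0, nat_lit 0, nat_lit 0, nat_lit 0, nat_lit 0, nat_lit 0, false, false⟩,
 nat_lit 22616, nat_lit 0, nat_lit 0, nat_lit 0, nat_lit 13773, nat_lit 10762, nat_lit 1327, nat_lit 0, nat_lit 0, nat_lit 2119, nat_lit 0, nat_lit 0, nat_lit 0, nat_lit 25177641272627, nat_lit 0, nat_lit 0, nat_lit 0, nat_lit 0, [],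
 ⟨p038_k63, nat_lit 0, nat_lit 0, nat_lit 285, nat_lit 0, nat_lit 347692, [nat_lit 4688000000, nat_lit 6250000000, nat_lit 9842000000], [], [nat_lit 18680113541, nat_lit 19605908292, nat_lit 16040692911, nat_lit 16934268559, nat_lit 20679893120, nat_lit 22177379196, nat_lit 17820285791, nat_lit 19033987570], nat_lit 1271250, nat_lit 1271250, nat_lit 279600, nat_lit 490000, nat_lit 1271250, nat_lit 1271250, [nat_lit 1100000, nat_lit 1442500, nat_lit 1271250], [nat_lit 11, nat_lit 40, nat_lit 20, nat_lit 80, nat_lit 1, nat_lit 401, nat_lit 175, nat_lit 11]⟩, ⟨p038_k63, nat_lit 0, nat_lit 0, nat_lit 426, nat_lit 0, nat_lit 347692, [nat_lit 4688000000, nat_lit 6250000000, nat_lit 9842000000], [], [nat_lit 22256812617, nat_lit 23420846116, nat_lit 19912555977, nat_lit 21043517415, nat_lit 16692315918, nat_lit 14181968398, nat_lit 18456169812, nat_lit 15920610326], nat_lit 1271250, nat_lit 1271250, nat_lit 279600, nat_lit 490000,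 nat_lit 0, nat_lit 1100001, [nat_lit 1100000, nat_lit 1442500, nat_lit 1271250], [nat_lit 11, nat_lit 40, nat_lit 20, nat_lit 80, nat_lit 1, nat_lit 373, nat_lit 150, nat_lit 11]⟩,
 zbF0, [⟨nat_lit 0, nat_lit 100, nat_lit 100, nat_lit 75, nat_lit 936503522⟩, ⟨nat_lit 4, nat_lit 100, nat_lit 94, nat_lit 53, nat_lit 1750609558⟩]⟩
noncomputable def p038_l140 : Lf2 := ⟨nat_lit 0, nat_lit 10, [nat_lit 0, nat_lit 5, nat_lit 5, nat_lit 20], false, nat_lit 240, nat_lit 260, nat_lit 160, nat_lit 260, ⟨nat_lit 294, nat_lit 0, nat_lit 706, nat_lit 6, nat_lit 129, nat_lit 706, nat_lit 165, nat_lit 706, nat_lit 256267, nat_lit 339, nat_lit 156817, nat_lit 312, nat_lit 50484781, nat_lit 0, nat_lit 0, nat_lit 3873237, false, false⟩,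
 nat_lit 9169, nat_lit 0, nat_lit 0, nat_lit 0, nat_lit 5584, nat_lit 5584, nat_lit 353, nat_lit 0, nat_lit 0, nat_lit 73, nat_lit 0, nat_lit 0, nat_lit 0, nat_lit 10760860990927, nat_lit 32, nat_lit 706000, nat_lit 0, nat_lit 0, [(nat_lit 9, [(nat_lit 6, nat_lit 706)])],
 ⟨p038_k63, nat_lit 0, nat_lit 0, nat_lit 285, nat_lit 0, nat_lit 347692, [nat_lit 2665177600, nat_lit 2174861334, nat_lit 111925866], [], [nat_lit 16139014896, nat_lit 16693402466, nat_lit 15459272475, nat_lit 15950711163, nat_lit 17296974637, nat_lit 18121226645, nat_lit 16480713667, nat_lit 17215292560], nat_lit 1271250, nat_lit 1271250, nat_lit 279600, nat_lit 490000, nat_lit 1271250, nat_lit 1271250, [nat_lit 1100000, nat_lit 1442500, nat_lit 1271250], [nat_lit 11, nat_lit 40, nat_lit 20, nat_lit 80, nat_lit 1, nat_lit 401, nat_lit 175, nat_lit 11]⟩, ⟨p038_k63, nat_lit 0, nat_lit 0, nat_lit 285, nat_lit 0, nat_lit 347692, [nat_lit 1378272000, nat_lit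 1837500000, nat_lit 2893548000], [], [nat_lit 5724302789, nat_lit 5298629789, nat_lit 3774803919, nat_lit 4191494633, nat_lit 6836208323, nat_lit 7280331613, nat_lit 5677029778, nat_lit 5981416027], nat_lit 1271250, nat_lit 1271250, nat_lit 279600, nat_lit 490000, nat_lit 1100001, nat_lit 1956250, [nat_lit 1100000, nat_lit 1442500, nat_lit 1271250], [nat_lit 11, nat_lit 40, nat_lit 20, nat_lit 80, nat_lit 1, nat_lit 401, nat_lit 175, nat_lit 11]⟩,
 ⟨nat_lit 5477, nat_lit 5701, ⟨.ofNat (nat_lit 283163), .ofNat (nat_lit 344538), .ofNat (nat_lit 293834), .ofNat (nat_lit 355209), .ofNat (nat_lit 290003), .ofNat (nat_lit 349949), .ofNat (nat_lit 300681), .ofNat (nat_lit 360628)⟩, ⟨.ofNat (nat_lit 384640), .ofNat (nat_lit 422999), .ofNat (nat_lit 405982), .ofNat (nat_lit 444341), .ofNat (nat_lit 382718), .ofNat (nat_lit 420185), .ofNat (nat_lit 404075), .ofNat (nat_lit 441542)⟩⟩, [⟨nat_lit 0, nat_lit 100, nat_lit 100, nat_lit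 75, nat_lit 573256091⟩, ⟨nat_lit 16, nat_lit 98, nat_lit 100, nat_lit 63, nat_lit 509057284⟩, ⟨nat_lit 19, nat_lit 98, nat_lit 100, nat_lit 63, nat_lit 189941657⟩]⟩
noncomputable def p038_l141 : Lf2 := ⟨nat_lit 0, nat_lit 10, [nat_lit 0, nat_lit 5, nat_lit 5, nat_lit 20], false, nat_lit 240, nat_lit 268, nat_lit 0, nat_lit 268, ⟨nat_lit 0, nat_lit 0, nat_lit 1000, nat_lit 6, nat_lit 150, nat_lit 1000, nat_lit 169, nat_lit 1000, nat_lit 126379, nat_lit 302, nat_lit 212817, nat_lit 328, nat_lit 48547628, nat_lit 0, nat_lit 0, nat_lit 4170880, false, false⟩,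
 nat_lit 8278, nat_lit 0, nat_lit 0, nat_lit 0, nat_lit 4818, nat_lit 0, nat_lit 0, nat_lit 0, nat_lit 0, nat_lit 0, nat_lit 0, nat_lit 0, nat_lit 0, nat_lit 4724357057548, nat_lit 129, nat_lit 637600, nat_lit 0, nat_lit 0, [(nat_lit 9, [(nat_lit 5, nat_lit 604), (nat_lit 6, nat_lit 396)])],
 ⟨p038_k46, nat_lit 0, nat_lit 0, nat_lit 186, nat_lit 0, nat_lit 266321, [nat_lit 3420595200, nat_lit 2330922667, nat_lit 83365333], [], [nat_lit 14239510741, nat_lit 14771305682, nat_lit 14414483152, nat_lit 14945595048, nat_lit 16192403566, nat_lit 16916735391, nat_lit 16203552441, nat_lit 16894527289], nat_lit 1271250, nat_lit 1271250, nat_lit 490000, nat_lit 780000, nat_lit 1271250, nat_lit 1271250, [nat_lit 1100000, nat_lit 1442500, nat_lit 1271250], [nat_lit 11, nat_lit 40, nat_lit 20, nat_lit 80, nat_lit 1, nat_lit 401, nat_lit 175, nat_lit 11]⟩, ⟨p038_k46, nat_lit 0, nat_lit 0, nat_lit 328, nat_lit 0, nat_lit 266321, [nat_lit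 0, nat_lit 0, nat_lit 0], [], [nat_lit 0, nat_lit 0, nat_lit 0, nat_lit 0, nat_lit 0, nat_lit 0, nat_lit 0, nat_lit 0], nat_lit 1271250, nat_lit 1271250, nat_lit 490000, nat_lit 780000, nat_lit 0, nat_lit 1892750, [nat_lit 1100000, nat_lit 1442500, nat_lit 1271250], [nat_lit 11, nat_lit 40, nat_lit 20, nat_lit 80, nat_lit 1, nat_lit 401, nat_lit 175, nat_lit 12]⟩,
 ⟨nat_lit 5700, nat_lit 5917, ⟨.ofNat (nat_lit 328416), .ofNat (nat_lit 406949), .ofNat (nat_lit 339085), .ofNat (nat_lit 417619), .ofNat (nat_lit 333867), .ofNat (nat_lit 410586), .ofNat (nat_lit 344538), .ofNat (nat_lit 421257)⟩, ⟨.ofNat (nat_lit 386479), .ofNat (nat_lit 441452), .ofNat (nat_lit 407818), .ofNat (nat_lit 462791), .ofNat (nat_lit 384640), .ofNat (nat_lit 438343), .ofNat (nat_lit 405982), .ofNat (nat_lit 459685)⟩⟩, [⟨nat_lit 16, nat_lit 100, nat_lit 99, nat_lit 63, nat_lit 24998527⟩, ⟨nat_lit 4, nat_lit 100, nat_lit 97, nat_lit 54, nat_lit 644315416⟩]⟩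
noncomputable def p038_l142 : Lf2 := ⟨nat_lit 0, nat_lit 10, [nat_lit 0, nat_lit 5, nat_lit 5, nat_lit 20], false, nat_lit 240, nat_lit 260, nat_lit 0, nat_lit 268, ⟨nat_lit 243, nat_lit 0, nat_lit 757, nat_lit 6, nat_lit 154, nat_lit 757, nat_lit 165, nat_lit 757, nat_lit 256267, nat_lit 339, nat_lit 224267, nat_lit 331, nat_lit 48573941, nat_lit 0, nat_lit 0, nat_lit 4172398, false, false⟩,
 nat_lit 5341, nat_lit 3410, nat_lit 0, nat_lit 0, nat_lit 5329, nat_lit 3108, nat_lit 309, nat_lit 0, nat_lit 0, nat_lit 0, nat_lit 0, nat_lit 0, nat_lit 0, nat_lit 5108472282247, nat_lit 60, nat_lit 757000, nat_lit 0, nat_lit 0, [(nat_lit 9, [(nat_lit 6, nat_lit 757)])],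
 ⟨p038_k63, nat_lit 0, nat_lit 0, nat_lit 217, nat_lit 0, nat_lit 347692, [nat_lit 2930067200, nat_lit 2394249334, nat_lit 139589066], [], [nat_lit 15026921119, nat_lit 15592306336, nat_lit 15108604344, nat_lit 15664792032, nat_lit 16376147462, nat_lit 17158659610, nat_lit 16286154164, nat_lit 17031610488], nat_lit 1271250, nat_lit 1271250, nat_lit 490000, nat_lit 780000, nat_lit 1271250, nat_lit 1271250, [nat_lit 1100000, nat_lit 1442500, nat_lit 1271250], [nat_lit 11, nat_lit 40, nat_lit 20, nat_lit 80, nat_lit 1, nat_lit 401, nat_lit 175, nat_lit 11]⟩, ⟨p038_k46, nat_lit 0, nat_lit 0, nat_lit 368, nat_lit 0, nat_lit 366716, [nat_lit 1139184000, nat_lit 1518750000, nat_lit 2391606000], [], [nat_lit 10990279932, nat_lit 9346962228, nat_lit 7728384204, nat_lit 7117987428, nat_lit 8510473594, nat_lit 7097415800, nat_lit 9589716899, nat_lit 8194857999], nat_lit 1271250, nat_lit 1271250, nat_lit 490000, nat_lit 780000, nat_lit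 0, nat_lit 1892750, [nat_lit 1100000, nat_lit 1442500, nat_lit 1271250], [nat_lit 11, nat_lit 40, nat_lit 20, nat_lit 80, nat_lit 1, nat_lit 401, nat_lit 175, nat_lit 12]⟩,
 ⟨nat_lit 5477, nat_lit 5701, ⟨.ofNat (nat_lit 333867), .ofNat (nat_lit 410586), .ofNat (nat_lit 355209), .ofNat (nat_lit 431928), .ofNat (nat_lit 339271), .ofNat (nat_lit 414204), .ofNat (nat_lit 360628), .ofNat (nat_lit 435561)⟩, ⟨.ofNat (nat_lit 384640), .ofNat (nat_lit 422999), .ofNat (nat_lit 405982), .ofNat (nat_lit 444341), .ofNat (nat_lit 382718), .ofNat (nat_lit 420185), .ofNat (nat_lit 404075), .ofNat (nat_lit 441542)⟩⟩, [⟨nat_lit 16, nat_lit 98, nat_lit 100, nat_lit 63, nat_lit 677629907⟩]⟩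
noncomputable def b_VL_600_600_5_80 : St := ⟨true, nat_lit 1, nat_lit 1, nat_lit 1, nat_lit 40, nat_lit 260, nat_lit 280, nat_lit 260, nat_lit 280, nat_lit 36, nat_lit 120, nat_lit 20, nat_lit 40, nat_lit 240, nat_lit 268, nat_lit 0, nat_lit 268, nat_lit 20, nat_lit 40, nat_lit 0, nat_lit 0, nat_lit 0, nat_lit 0⟩
theorem d_VL_600_600_5_80 (h : EB TB.env) : Dead b_VL_600_600_5_80 := chkB_sound0 h (T :=
(.spl (nat_lit 2) (nat_lit 80)
(.spl (nat_lit 1) (nat_lit 270)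
(.spl (nat_lit 2) (nat_lit 60)
(.spl (nat_lit 1) (nat_lit 265)
(.spl (nat_lit 1) (nat_lit 263)
(.spl (nat_lit 1) (nat_lit 262)
(.leaf p038_l132)
(.ord (.leaf p038_l133)))
(.ord (.trX (nat_lit 16) (nat_lit 100) (nat_lit 100) (nat_lit 63) (nat_lit 264) (.trX (nat_lit 19) (nat_lit 100) (nat_lit 100) (nat_lit 63) (nat_lit 264) (.spl (nat_lit 1) (nat_lit 264)
(.leaf p038_l134)
(.ord (.trZ (nat_lit 0) (nat_lit 100) (nat_lit 100) (nat_lit 64) (nat_lit 40) (.leaf p038_l135))))))))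
(.ord (.trZ (nat_lit 0) (nat_lit 100) (nat_lit 100) (nat_lit 65) (nat_lit 40) (.trX (nat_lit 16) (nat_lit 99) (nat_lit 100) (nat_lit 63) (nat_lit 264) (.trX (nat_lit 19) (nat_lit 99) (nat_lit 100) (nat_lit 63) (nat_lit 264) (.spl (nat_lit 5) (nat_lit 160)
(.leaf p038_l136)
(.leaf p038_l137)))))))
(.leaf p038_l138))
(.ord (.trZ (nat_lit 0) (nat_lit 100) (nat_lit 100) (nat_lit 70) (nat_lit 48) (.trX (nat_lit 16) (nat_lit 98) (nat_lit 100) (nat_lit 63) (nat_lit 260) (.trX (nat_lit 19) (nat_lit 98) (nat_lit 100) (nat_lit 63) (nat_lit 260) (.spl (nat_lit 5) (nat_lit 160)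
(.leaf p038_l139)
(.leaf p038_l140)))))))
(.spl (nat_lit 0) (nat_lit 270)
(.ord (.leaf p038_l141))
(.trX (nat_lit 16) (nat_lit 98) (nat_lit 100) (nat_lit 63) (nat_lit 260) (.leaf p038_l142))))) (by decide +kernel)
noncomputable def p038_l143 : Lf2 := ⟨nat_lit 0, nat_lit 5, [nat_lit 4, nat_lit 5, nat_lit 5, nat_lit 20], false, nat_lit 240, nat_lit 288, nat_lit 0, nat_lit 288, ⟨nat_lit 620, nat_lit 0, nat_lit 380, nat_lit 6, nat_lit 205, nat_lit 380, nat_lit 179, nat_lit 380, nat_lit 29345, nat_lit 255, nat_lit 21394, nat_lit 200, nat_lit 43554230, nat_lit 0, nat_lit 0, nat_lit 4778708, false, false⟩,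
 nat_lit 16750, nat_lit 0, nat_lit 0, nat_lit 0, nat_lit 8867, nat_lit 3327, nat_lit 1787, nat_lit 0, nat_lit 0, nat_lit 1122, nat_lit 0, nat_lit 0, nat_lit 0, nat_lit 3328294668744, nat_lit 0, nat_lit 380000, nat_lit 0, nat_lit 0, [(nat_lit 6, [(nat_lit 6, nat_lit 380)])],
 ⟨p038_k2, nat_lit 0, nat_lit 0, nat_lit 218, nat_lit 0, nat_lit 386242, [nat_lit 3277845334, nat_lit 3913912001, nat_lit 4540696000], [], [nat_lit 11512211830, nat_lit 12946278721, nat_lit 15990280020, nat_lit 17628009618, nat_lit 16327064218, nat_lit 18152489301, nat_lit 20242810256, nat_lit 21631079584], nat_lit 1271250, nat_lit 1271250, nat_lit 780000, nat_lit 1762500, nat_lit 1271250, nat_lit 1271250, [nat_lit 1100000, nat_lit 1442500, nat_lit 1271250], [nat_lit 11, nat_lit 40, nat_lit 20, nat_lit 80, nat_lit 1, nat_lit 428, nat_lit 200, nat_lit 12]⟩, ⟨p038_k2, nat_lit 0, nat_lit 0, nat_lit 353, nat_lit 0, nat_lit 386242, [nat_lit 2906560000, nat_lit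 3875000000, nat_lit 6102040000], [], [nat_lit 26855728572, nat_lit 25069335846, nat_lit 18748102640, nat_lit 19203549002, nat_lit 18374819563, nat_lit 18732130150, nat_lit 24313658751, nat_lit 22791071840], nat_lit 1271250, nat_lit 1271250, nat_lit 780000, nat_lit 1762500, nat_lit 0, nat_lit 2034000, [nat_lit 1100000, nat_lit 1442500, nat_lit 1271250], [nat_lit 11, nat_lit 40, nat_lit 20, nat_lit 80, nat_lit 1, nat_lit 428, nat_lit 200, nat_lit 12]⟩,
 ⟨nat_lit 5916, nat_lit 6325, ⟨.ofNat (nat_lit 378206), .ofNat (nat_lit 624961), .ofNat (nat_lit 399574), .ofNat (nat_lit 646322), .ofNat (nat_lit 385610), .ofNat (nat_lit 621173), .ofNat (nat_lit 406949), .ofNat (nat_lit 642505)⟩, ⟨.ofNat (nat_lit 389952), .ofNat (nat_lit 488669), .ofNat (nat_lit 411320), .ofNat (nat_lit 510037), .ofNat (nat_lit 386479), .ofNat (nat_lit 480719), .ofNat (nat_lit 407818), .ofNat (nat_lit 502058)⟩⟩, [⟨nat_lit 4, nat_lit 99, nat_lit 100, nat_lit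 54, nat_lit 1263872455⟩]⟩
noncomputable def p038_l144 : Lf2 := ⟨nat_lit 0, nat_lit 10, [nat_lit 0, nat_lit 5, nat_lit 5, nat_lit 20], false, nat_lit 240, nat_lit 288, nat_lit 0, nat_lit 288, ⟨nat_lit 1000, nat_lit 0, nat_lit 0, nat_lit 0, nat_lit 0, nat_lit 0, nat_lit 0, nat_lit 0, nat_lit 0, nat_lit 0, nat_lit 0, nat_lit 0, nat_lit 0, nat_lit 0, nat_lit 0, nat_lit 0, false, false⟩,
 nat_lit 92310, nat_lit 0, nat_lit 0, nat_lit 0, nat_lit 48870, nat_lit 6883, nat_lit 0, nat_lit 0, nat_lit 0, nat_lit 0, nat_lit 0, nat_lit 0, nat_lit 0, nat_lit 0, nat_lit 0, nat_lit 0, nat_lit 7097961560, nat_lit 0, [],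
 ⟨p038_k39, nat_lit 0, nat_lit 0, nat_lit 95, nat_lit 0, nat_lit 77162, [nat_lit 4688000000, nat_lit 6250000000, nat_lit 11872000000], [], [nat_lit 0, nat_lit 4319763550, nat_lit 13009885760, nat_lit 16076799150, nat_lit 22631878296, nat_lit 26142577673, nat_lit 29397150033, nat_lit 31852720794], nat_lit 1271250, nat_lit 1271250, nat_lit 780000, nat_lit 1762500, nat_lit 1271250, nat_lit 1271250, [nat_lit 1100000, nat_lit 1442500, nat_lit 1271250], [nat_lit 48, nat_lit 40, nat_lit 20, nat_lit 80, nat_lit 12, nat_lit 428, nat_lit 200, nat_lit 10]⟩, ⟨p038_k39, nat_lit 0, nat_lit 0, nat_lit 217, nat_lit 0, nat_lit 77162, [nat_lit 4688000000, nat_lit 6250000000, nat_lit 11872000000], [], [nat_lit 47256091228, nat_lit 45408219101, nat_lit 37015334904, nat_lit 37363901755, nat_lit 34911101009, nat_lit 35175886670, nat_lit 39146766082, nat_lit 37571778750], nat_lit 1271250, nat_lit 1271250, nat_lit 780000, nat_lit 1762500, nat_lit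 0, nat_lit 2034000, [nat_lit 1100000, nat_lit 1442500, nat_lit 1271250], [nat_lit 48, nat_lit 40, nat_lit 20, nat_lit 80, nat_lit 12, nat_lit 428, nat_lit 200, nat_lit 11]⟩,
 zbF0, [⟨nat_lit 4, nat_lit 97, nat_lit 100, nat_lit 54, nat_lit 4647059208⟩]⟩
noncomputable def p038_l145 : Lf2 := ⟨nat_lit 0, nat_lit 10, [nat_lit 0, nat_lit 5, nat_lit 5, nat_lit 20], false, nat_lit 240, nat_lit 280, nat_lit 0, nat_lit 288, ⟨nat_lit 1000, nat_lit 0, nat_lit 0, nat_lit 0, nat_lit 0, nat_lit 0, nat_lit 0, nat_lit 0, nat_lit 0, nat_lit 0, nat_lit 0, nat_lit 0, nat_lit 0, nat_lit 0, nat_lit 0, nat_lit 0, false, false⟩,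
 nat_lit 9688, nat_lit 12076, nat_lit 0, nat_lit 0, nat_lit 12090, nat_lit 5128, nat_lit 0, nat_lit 0, nat_lit 0, nat_lit 1920, nat_lit 0, nat_lit 0, nat_lit 0, nat_lit 0, nat_lit 0, nat_lit 0, nat_lit 0, nat_lit 0, [],
 ⟨p038_k36, nat_lit 0, nat_lit 0, nat_lit 98, nat_lit 0, nat_lit 176297, [nat_lit 4688000000, nat_lit 6250000000, nat_lit 9842000000], [], [nat_lit 10687805930, nat_lit 12025998780, nat_lit 16178265130, nat_lit 17178252860, nat_lit 16268959975, nat_lit 17427016810, nat_lit 20400162720, nat_lit 21263537120], nat_lit 1271250, nat_lit 1271250, nat_lit 780000, nat_lit 1762500, nat_lit 1271250, nat_lit 1271250, [nat_lit 1100000, nat_lit 1442500, nat_lit 1271250], [nat_lit 11, nat_lit 40, nat_lit 20, nat_lit 80, nat_lit 1, nat_lit 428, nat_lit 200, nat_lit 12]⟩, ⟨p038_k39, nat_lit 0, nat_lit 0, nat_lit 347, nat_lit 0, nat_lit 186733, [nat_lit 4688000000, nat_lit 6250000000, nat_lit 11872000000], [], [nat_lit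 42697099648, nat_lit 39943681584, nat_lit 31179058464, nat_lit 31821797696, nat_lit 30371900141, nat_lit 30879189280, nat_lit 39226381306, nat_lit 36879574669], nat_lit 1271250, nat_lit 1271250, nat_lit 780000, nat_lit 1762500, nat_lit 0, nat_lit 2034000, [nat_lit 1100000, nat_lit 1442500, nat_lit 1271250], [nat_lit 48, nat_lit 40, nat_lit 20, nat_lit 80, nat_lit 12, nat_lit 428, nat_lit 200, nat_lit 11]⟩,
 zbF0, [⟨nat_lit 4, nat_lit 100, nat_lit 100, nat_lit 55, nat_lit 1653481849⟩]⟩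
noncomputable def p038_l146 : Lf2 := ⟨nat_lit 0, nat_lit 10, [nat_lit 0, nat_lit 5, nat_lit 5, nat_lit 20], false, nat_lit 240, nat_lit 268, nat_lit 0, nat_lit 288, ⟨nat_lit 342, nat_lit 0, nat_lit 658, nat_lit 6, nat_lit 177, nat_lit 658, nat_lit 169, nat_lit 658, nat_lit 126379, nat_lit 302, nat_lit 38425, nat_lit 263, nat_lit 46469427, nat_lit 0, nat_lit 0, nat_lit 4449448, false, false⟩,
 nat_lit 8587, nat_lit 1661, nat_lit 0, nat_lit 0, nat_lit 5964, nat_lit 4546, nat_lit 759, nat_lit 0, nat_lit 0, nat_lit 0, nat_lit 0, nat_lit 0, nat_lit 0, nat_lit 0, nat_lit 6, nat_lit 658000, nat_lit 0, nat_lit 0, [(nat_lit 9, [(nat_lit 6, nat_lit 658)])],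
 ⟨p038_k46, nat_lit 0, nat_lit 0, nat_lit 292, nat_lit 0, nat_lit 470394, [nat_lit 2421516800, nat_lit 1975437334, nat_lit 95772266], [], [nat_lit 14366871491, nat_lit 14814850487, nat_lit 14760719875, nat_lit 15336634632, nat_lit 16141013960, nat_lit 16914112944, nat_lit 16768644352, nat_lit 17492545556], nat_lit 1271250, nat_lit 1271250, nat_lit 780000, nat_lit 1100001, nat_lit 1271250, nat_lit 1271250, [nat_lit 1100000, nat_lit 1442500, nat_lit 1271250], [nat_lit 11, nat_lit 40, nat_lit 20, nat_lit 80, nat_lit 1, nat_lit 401, nat_lit 175, nat_lit 11]⟩, ⟨p038_k39, nat_lit 0, nat_lit 0, nat_lit 527, nat_lit 0, nat_lit 526565, [nat_lit 1603296000, nat_lit 2137500000, nat_lit 4060224000], [], [nat_lit 17508176744, nat_lit 13902712322, nat_lit 12700890848, nat_lit 12213509594, nat_lit 13028495928, nat_lit 10247655531, nat_lit 15178219071, nat_lit 12137416946], nat_lit 1271250, nat_lit 1271250, nat_lit 780000, nat_lit 1100001,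 nat_lit 0, nat_lit 2034000, [nat_lit 1100000, nat_lit 1442500, nat_lit 1271250], [nat_lit 48, nat_lit 40, nat_lit 20, nat_lit 80, nat_lit 12, nat_lit 428, nat_lit 200, nat_lit 11]⟩,
 ⟨nat_lit 5700, nat_lit 5917, ⟨.ofNat (nat_lit 385610), .ofNat (nat_lit 464143), .ofNat (nat_lit 417619), .ofNat (nat_lit 496151), .ofNat (nat_lit 389244), .ofNat (nat_lit 465963), .ofNat (nat_lit 421257), .ofNat (nat_lit 497975)⟩, ⟨.ofNat (nat_lit 386479), .ofNat (nat_lit 441452), .ofNat (nat_lit 407818), .ofNat (nat_lit 462791), .ofNat (nat_lit 384640), .ofNat (nat_lit 438343), .ofNat (nat_lit 405982), .ofNat (nat_lit 459685)⟩⟩, [⟨nat_lit 16, nat_lit 97, nat_lit 100, nat_lit 54, nat_lit 851279776⟩]⟩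
noncomputable def p038_l147 : Lf2 := ⟨nat_lit 0, nat_lit 10, [nat_lit 0, nat_lit 5, nat_lit 5, nat_lit 20], false, nat_lit 240, nat_lit 260, nat_lit 0, nat_lit 288, ⟨nat_lit 386, nat_lit 0, nat_lit 614, nat_lit 6, nat_lit 180, nat_lit 614, nat_lit 165, nat_lit 614, nat_lit 256267, nat_lit 339, nat_lit 25395, nat_lit 254, nat_lit 46520328, nat_lit 0, nat_lit 0, nat_lit 4439819, false, false⟩,
 nat_lit 9200, nat_lit 824, nat_lit 0, nat_lit 0, nat_lit 6104, nat_lit 4870, nat_lit 609, nat_lit 0, nat_lit 0, nat_lit 197, nat_lit 0, nat_lit 0, nat_lit 0, nat_lit 0, nat_lit 0, nat_lit 614000, nat_lit 0, nat_lit 0, [(nat_lit 9, [(nat_lit 6, nat_lit 614)])],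
 ⟨p038_k63, nat_lit 0, nat_lit 0, nat_lit 318, nat_lit 0, nat_lit 541166, [nat_lit 2483494400, nat_lit 2149298667, nat_lit 580298133], [], [nat_lit 15087725928, nat_lit 15578101856, nat_lit 15520119632, nat_lit 16098257344, nat_lit 16250445070, nat_lit 17053521288, nat_lit 16860730566, nat_lit 17612228784], nat_lit 1271250, nat_lit 1271250, nat_lit 780000, nat_lit 1100001, nat_lit 1271250, nat_lit 1271250, [nat_lit 1100000, nat_lit 1442500, nat_lit 1271250], [nat_lit 11, nat_lit 40, nat_lit 20, nat_lit 80, nat_lit 1, nat_lit 401, nat_lit 175, nat_lit 11]⟩, ⟨p038_k39, nat_lit 0, nat_lit 0, nat_lit 566, nat_lit 0, nat_lit 638933, [nat_lit 1809568000, nat_lit 2412500000, nat_lit 4582592000], [], [nat_lit 19363173432, nat_lit 14213265312, nat_lit 14213265312, nat_lit 13117639259, nat_lit 14832671912, nat_lit 10970258624, nat_lit 17160729224, nat_lit 12817363232], nat_lit 1271250, nat_lit 1271250, nat_lit 780000, nat_lit 1100001,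 nat_lit 0, nat_lit 2034000, [nat_lit 1100000, nat_lit 1442500, nat_lit 1271250], [nat_lit 48, nat_lit 40, nat_lit 20, nat_lit 80, nat_lit 12, nat_lit 428, nat_lit 200, nat_lit 11]⟩,
 ⟨nat_lit 5477, nat_lit 5701, ⟨.ofNat (nat_lit 389244), .ofNat (nat_lit 465963), .ofNat (nat_lit 431928), .ofNat (nat_lit 508644), .ofNat (nat_lit 392847), .ofNat (nat_lit 467780), .ofNat (nat_lit 435561), .ofNat (nat_lit 510490)⟩, ⟨.ofNat (nat_lit 384640), .ofNat (nat_lit 422999), .ofNat (nat_lit 405982), .ofNat (nat_lit 444341), .ofNat (nat_lit 382718), .ofNat (nat_lit 420185), .ofNat (nat_lit 404075), .ofNat (nat_lit 441542)⟩⟩, [⟨nat_lit 16, nat_lit 94, nat_lit 100, nat_lit 53, nat_lit 723667337⟩, ⟨nat_lit 16, nat_lit 98, nat_lit 100, nat_lit 63, nat_lit 134382196⟩]⟩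
noncomputable def p038_l148 : Lf2 := ⟨nat_lit 0, nat_lit 10, [nat_lit 0, nat_lit 5, nat_lit 5, nat_lit 20], false, nat_lit 240, nat_lit 268, nat_lit 0, nat_lit 288, ⟨nat_lit 841, nat_lit 0, nat_lit 159, nat_lit 6, nat_lit 226, nat_lit 159, nat_lit 169, nat_lit 159, nat_lit 126379, nat_lit 302, nat_lit 56426, nat_lit 200, nat_lit 42632362, nat_lit 0, nat_lit 0, nat_lit 4831296, false, false⟩,
 nat_lit 14032, nat_lit 0, nat_lit 0, nat_lit 0, nat_lit 8167, nat_lit 7428, nat_lit 1922, nat_lit 0, nat_lit 0, nat_lit 0, nat_lit 0, nat_lit 0, nat_lit 0, nat_lit 0, nat_lit 0, nat_lit 159000, nat_lit 0, nat_lit 0, [(nat_lit 9, [(nat_lit 6, nat_lit 159)])],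
 ⟨p038_k46, nat_lit 0, nat_lit 0, nat_lit 317, nat_lit 0, nat_lit 570775, [nat_lit 4117126400, nat_lit 5188092000, nat_lit 7425327200], [], [nat_lit 14549337806, nat_lit 15719564812, nat_lit 17725691818, nat_lit 19284745616, nat_lit 16502898224, nat_lit 18238014130, nat_lit 19946884105, nat_lit 21370353672], nat_lit 1271250, nat_lit 1271250, nat_lit 1100001, nat_lit 1785000, nat_lit 1271250, nat_lit 1271250, [nat_lit 1100000, nat_lit 1442500, nat_lit 1271250], [nat_lit 11, nat_lit 40, nat_lit 20, nat_lit 80, nat_lit 1, nat_lit 428, nat_lit 200, nat_lit 11]⟩, ⟨p038_k39, nat_lit 0, nat_lit 0, nat_lit 552, nat_lit 0, nat_lit 638933, [nat_lit 3942608000, nat_lit 5256250000, nat_lit 9984352000], [], [nat_lit 36024309612, nat_lit 29814377456, nat_lit 29602739212, nat_lit 31436567352, nat_lit 30471442630, nat_lit 27194238011, nat_lit 26838887576, nat_lit 27998825226], nat_lit 1271250, nat_lit 1271250, nat_lit 1271250, nat_lit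 1271250, nat_lit 0, nat_lit 2034000, [nat_lit 1100000, nat_lit 1442500, nat_lit 1271250], [nat_lit 48, nat_lit 40, nat_lit 20, nat_lit 80, nat_lit 12, nat_lit 456, nat_lit 225, nat_lit 12]⟩,
 ⟨nat_lit 5477, nat_lit 5917, ⟨.ofNat (nat_lit 464143), .ofNat (nat_lit 621176), .ofNat (nat_lit 506809), .ofNat (nat_lit 663838), .ofNat (nat_lit 467780), .ofNat (nat_lit 617611), .ofNat (nat_lit 510480), .ofNat (nat_lit 660309)⟩, ⟨.ofNat (nat_lit 386479), .ofNat (nat_lit 441452), .ofNat (nat_lit 407818), .ofNat (nat_lit 462791), .ofNat (nat_lit 382718), .ofNat (nat_lit 435171), .ofNat (nat_lit 404075), .ofNat (nat_lit 456528)⟩⟩, [⟨nat_lit 16, nat_lit 100, nat_lit 99, nat_lit 63, nat_lit 960490895⟩, ⟨nat_lit 4, nat_lit 100, nat_lit 96, nat_lit 54, nat_lit 68013307⟩, ⟨nat_lit 19, nat_lit 100, nat_lit 92, nat_lit 61, nat_lit 86750163⟩]⟩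
noncomputable def b_VL_600_600_5_81 : St := ⟨true, nat_lit 1, nat_lit 1, nat_lit 1, nat_lit 40, nat_lit 240, nat_lit 280, nat_lit 240, nat_lit 280, nat_lit 120, nat_lit 240, nat_lit 20, nat_lit 40, nat_lit 240, nat_lit 288, nat_lit 0, nat_lit 288, nat_lit 0, nat_lit 40, nat_lit 0, nat_lit 0, nat_lit 0, nat_lit 0⟩
theorem d_VL_600_600_5_81 (h : EB TB.env) : Dead b_VL_600_600_5_81 := chkB_sound0 h (T :=
(.spl (nat_lit 0) (nat_lit 260)
(.ord (.spl (nat_lit 6) (nat_lit 20)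
(.leaf p038_l143)
(.spl (nat_lit 0) (nat_lit 250)
(.ord (.leaf p038_l144))
(.trX (nat_lit 16) (nat_lit 100) (nat_lit 95) (nat_lit 62) (nat_lit 280) (.leaf p038_l145)))))
(.trX (nat_lit 16) (nat_lit 100) (nat_lit 99) (nat_lit 63) (nat_lit 268) (.spl (nat_lit 2) (nat_lit 160)
(.spl (nat_lit 0) (nat_lit 270)
(.ord (.leaf p038_l146))
(.trX (nat_lit 16) (nat_lit 98) (nat_lit 100) (nat_lit 63) (nat_lit 260) (.leaf p038_l147)))
(.leaf p038_l148))))) (by decide +kernel)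

end B2
end Pool.Agent.Lib.MP_6947cd_al
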