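import Pool.Agent.Lib.MP_6947cd_al.ZB.Pre

/-!
Problem MP_6947cd_al (Chollet).  Case B, second entry in [2/5, 17/20]: certificates of the tree, part P039 (generated).
-/

set_option autoImplicit false
set_option linter.all false

namespace Pool.Agent.Lib.MP_6947cd_al
namespace B2

open Ent Fr B1 PkA

noncomputable def p039_k0 : C1.Kn := ⟨[nat_lit 80, nat_lit 120, nat_lit 160], [nat_lit 0, nat_lit 0, nat_lit 2132], [(nat_lit 0, nat_lit 0, nat_lit 0), (nat_lit 0, nat_lit 0, nat_lit 0), (nat_lit 858, nat_lit 1000, nat_lit 713)], (nat_lit 100, nat_lit 92, nat_lit 61)⟩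
noncomputable def p039_k1 : C1.Kn := ⟨[nat_lit 80, nat_lit 120, nat_lit 140], [nat_lit 0, nat_lit 528, nat_lit 1572], [(nat_lit 0, nat_lit 0, nat_lit 0), (nat_lit 1000, nat_lit 959, nat_lit 206), (nat_lit 966, nat_lit 1000, nat_lit 679)], (nat_lit 100, nat_lit 99, nat_lit 63)⟩
noncomputable def p039_k2 : C1.Kn := ⟨[nat_lit 80, nat_lit 100, nat_lit 140], [nat_lit 0, nat_lit 0, nat_lit 1022], [(nat_lit 0, nat_lit 0, nat_lit 0), (nat_lit 0, nat_lit 0, nat_lit 0), (nat_lit 1000, nat_lit 1000, nat_lit 399)], (nat_lit 100, nat_lit 95, nat_lit 55)⟩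
noncomputable def p039_k3 : C1.Kn := ⟨[nat_lit 80, nat_lit 100, nat_lit 140], [nat_lit 0, nat_lit 132, nat_lit 1148], [(nat_lit 0, nat_lit 0, nat_lit 0), (nat_lit 1000, nat_lit 979, nat_lit 103), (nat_lit 1000, nat_lit 979, nat_lit 397)], (nat_lit 100, nat_lit 95, nat_lit 62)⟩
noncomputable def p039_k4 : C1.Kn := ⟨[nat_lit 80, nat_lit 100, nat_lit 160], [nat_lit 0, nat_lit 0, nat_lit 1533], [(nat_lit 0, nat_lit 0, nat_lit 0), (nat_lit 0, nat_lit 0, nat_lit 0), (nat_lit 1000, nat_lit 1000, nat_lit 399)], (nat_lit 100, nat_lit 92, nat_lit 61)⟩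
noncomputable def p039_k5 : C1.Kn := ⟨[nat_lit 80, nat_lit 100, nat_lit 140], [nat_lit 0, nat_lit 198, nat_lit 1210], [(nat_lit 0, nat_lit 0, nat_lit 0), (nat_lit 1000, nat_lit 969, nat_lit 154), (nat_lit 1000, nat_lit 969, nat_lit 395)], (nat_lit 100, nat_lit 97, nat_lit 62)⟩
noncomputable def p039_k6 : C1.Kn := ⟨[nat_lit 80, nat_lit 100, nat_lit 120], [nat_lit 0, nat_lit 132, nat_lit 640], [(nat_lit 0, nat_lit 0, nat_lit 0), (nat_lit 1000, nat_lit 979, nat_lit 103), (nat_lit 1000, nat_lit 979, nat_lit 397)], (nat_lit 99, nat_lit 100, nat_lit 44)⟩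
noncomputable def p039_k7 : C1.Kn := ⟨[nat_lit 80, nat_lit 100, nat_lit 140], [nat_lit 0, nat_lit 0, nat_lit 1022], [(nat_lit 0, nat_lit 0, nat_lit 0), (nat_lit 0, nat_lit 0, nat_lit 0), (nat_lit 1000, nat_lit 1000, nat_lit 399)], (nat_lit 100, nat_lit 99, nat_lit 44)⟩
noncomputable def p039_k8 : C1.Kn := ⟨[nat_lit 80, nat_lit 100, nat_lit 140], [nat_lit 0, nat_lit 65, nat_lit 1086], [(nat_lit 0, nat_lit 0, nat_lit 0), (nat_lit 1000, nat_lit 990, nat_lit 51), (nat_lit 1000, nat_lit 990, nat_lit 399)], (nat_lit 100, nat_lit 97, nat_lit 56)⟩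
noncomputable def p039_k9 : C1.Kn := ⟨[nat_lit 80, nat_lit 100, nat_lit 120], [nat_lit 0, nat_lit 198, nat_lit 704], [(nat_lit 0, nat_lit 0, nat_lit 0), (nat_lit 1000, nat_lit 969, nat_lit 154), (nat_lit 1000, nat_lit 969, nat_lit 395)], (nat_lit 98, nat_lit 100, nat_lit 44)⟩
noncomputable def p039_k10 : C1.Kn := ⟨[nat_lit 80, nat_lit 100, nat_lit 140], [nat_lit 0, nat_lit 265, nat_lit 1269], [(nat_lit 0, nat_lit 0, nat_lit 0), (nat_lit 1000, nat_lit 959, nat_lit 206), (nat_lit 1000, nat_lit 958, nat_lit 392)], (nat_lit 100, nat_lit 99, nat_lit 63)⟩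
noncomputable def p039_k11 : C1.Kn := ⟨[nat_lit 80, nat_lit 100, nat_lit 140], [nat_lit 0, nat_lit 399, nat_lit 1395], [(nat_lit 0, nat_lit 0, nat_lit 0), (nat_lit 1000, nat_lit 938, nat_lit 310), (nat_lit 1000, nat_lit 938, nat_lit 389)], (nat_lit 98, nat_lit 100, nat_lit 63)⟩
noncomputable def p039_k12 : C1.Kn := ⟨[nat_lit 80, nat_lit 140], [nat_lit 0, nat_lit 1192], [(nat_lit 0, nat_lit 0, nat_lit 0), (nat_lit 1000, nat_lit 938, nat_lit 310)], (nat_lit 98, nat_lit 100, nat_lit 63)⟩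
noncomputable def p039_k13 : C1.Kn := ⟨[nat_lit 80, nat_lit 160], [nat_lit 0, nat_lit 0], [(nat_lit 0, nat_lit 0, nat_lit 0), (nat_lit 0, nat_lit 0, nat_lit 0)], (nat_lit 100, nat_lit 92, nat_lit 61)⟩
noncomputable def p039_k14 : C1.Kn := ⟨[nat_lit 80, nat_lit 100, nat_lit 120], [nat_lit 0, nat_lit 265, nat_lit 768], [(nat_lit 0, nat_lit 0, nat_lit 0), (nat_lit 1000, nat_lit 959, nat_lit 206), (nat_lit 1000, nat_lit 958, nat_lit 392)], (nat_lit 96, nat_lit 100, nat_lit 44)⟩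
noncomputable def p039_k15 : C1.Kn := ⟨[nat_lit 80, nat_lit 120, nat_lit 140], [nat_lit 0, nat_lit 264, nat_lit 1360], [(nat_lit 0, nat_lit 0, nat_lit 0), (nat_lit 1000, nat_lit 979, nat_lit 103), (nat_lit 951, nat_lit 1000, nat_lit 628)], (nat_lit 100, nat_lit 95, nat_lit 62)⟩
noncomputable def p039_k16 : C1.Kn := ⟨[nat_lit 80, nat_lit 120, nat_lit 140], [nat_lit 0, nat_lit 796, nat_lit 1801], [(nat_lit 0, nat_lit 0, nat_lit 0), (nat_lit 1000, nat_lit 938, nat_lit 310), (nat_lit 982, nat_lit 1000, nat_lit 736)], (nat_lit 98, nat_lit 100, nat_lit 63)⟩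
noncomputable def p039_k17 : C1.Kn := ⟨[nat_lit 80, nat_lit 120, nat_lit 140], [nat_lit 0, nat_lit 395, nat_lit 1464], [(nat_lit 0, nat_lit 0, nat_lit 0), (nat_lit 1000, nat_lit 969, nat_lit 154), (nat_lit 957, nat_lit 1000, nat_lit 654)], (nat_lit 100, nat_lit 97, nat_lit 62)⟩
noncomputable def p039_k18 : C1.Kn := ⟨[nat_lit 80, nat_lit 100, nat_lit 140], [nat_lit 0, nat_lit 332, nat_lit 1333], [(nat_lit 0, nat_lit 0, nat_lit 0), (nat_lit 1000, nat_lit 948, nat_lit 259), (nat_lit 1000, nat_lit 948, nat_lit 391)], (nat_lit 99, nat_lit 100, nat_lit 63)⟩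
noncomputable def p039_k19 : C1.Kn := ⟨[nat_lit 80, nat_lit 120, nat_lit 140], [nat_lit 0, nat_lit 745, nat_lit 1754], [(nat_lit 0, nat_lit 0, nat_lit 0), (nat_lit 1000, nat_lit 942, nat_lit 291), (nat_lit 977, nat_lit 1000, nat_lit 726)], (nat_lit 98, nat_lit 100, nat_lit 63)⟩
noncomputable def p039_l0 : Lf2 := ⟨nat_lit 0, nat_lit 10, [nat_lit 0, nat_lit 5, nat_lit 5, nat_lit 20], false, nat_lit 0, nat_lit 288, nat_lit 0, nat_lit 288, ⟨nat_lit 1000, nat_lit 0, nat_lit 0, nat_lit 0, nat_lit 0, nat_lit 0, nat_lit 0, nat_lit 0, nat_lit 0, nat_lit 0, nat_lit 0, nat_lit 0, nat_lit 0, nat_lit 0, nat_lit 0, nat_lit 0, false, false⟩,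
 nat_lit 17971, nat_lit 0, nat_lit 0, nat_lit 0, nat_lit 9514, nat_lit 9514, nat_lit 853, nat_lit 0, nat_lit 0, nat_lit 853, nat_lit 0, nat_lit 0, nat_lit 0, nat_lit 0, nat_lit 0, nat_lit 0, nat_lit 0, nat_lit 0, [],
 ⟨p039_k0, nat_lit 0, nat_lit 0, nat_lit 430, nat_lit 0, nat_lit 415503, [nat_lit 4688000000, nat_lit 7968000001, nat_lit 11872000000], [], [nat_lit 33086740470, nat_lit 33625493502, nat_lit 42636381088, nat_lit 43774888856, nat_lit 27415728747, nat_lit 27784595335, nat_lit 34762124093, nat_lit 35426097844], nat_lit 1271250, nat_lit 1271250, nat_lit 1271250, nat_lit 1271250, nat_lit 0, nat_lit 2034000, [nat_lit 1100000, nat_lit 1785000, nat_lit 1271250], [nat_lit 21, nat_lit 40, nat_lit 20, nat_lit 80, nat_lit 14, nat_lit 483, nat_lit 250, nat_lit 12]⟩, ⟨p039_k0, nat_lit 0, nat_lit 0, nat_lit 430, nat_lit 0, nat_lit 415503, [nat_lit 4688000000, nat_lit 7968000000, nat_lit 11872000000], [], [nat_lit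 33086740468, nat_lit 33625493500, nat_lit 42636381088, nat_lit 43774888856, nat_lit 27415728744, nat_lit 27784595332, nat_lit 34762124093, nat_lit 35426097844], nat_lit 1271250, nat_lit 1271250, nat_lit 1271250, nat_lit 1271250, nat_lit 0, nat_lit 2034000, [nat_lit 1100000, nat_lit 1785000, nat_lit 1271250], [nat_lit 21, nat_lit 40, nat_lit 20, nat_lit 80, nat_lit 14, nat_lit 483, nat_lit 250, nat_lit 12]⟩,
 zbF0, [⟨nat_lit 4, nat_lit 99, nat_lit 100, nat_lit 54, nat_lit 60650586⟩, ⟨nat_lit 7, nat_lit 99, nat_lit 100, nat_lit 54, nat_lit 60650586⟩]⟩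
noncomputable def p039_l1 : Lf2 := ⟨nat_lit 0, nat_lit 10, [nat_lit 0, nat_lit 5, nat_lit 5, nat_lit 20], false, nat_lit 0, nat_lit 268, nat_lit 0, nat_lit 288, ⟨nat_lit 1000, nat_lit 0, nat_lit 0, nat_lit 0, nat_lit 0, nat_lit 0, nat_lit 0, nat_lit 0, nat_lit 0, nat_lit 0, nat_lit 0, nat_lit 0, nat_lit 0, nat_lit 0, nat_lit 0, nat_lit 0, false, false⟩,
 nat_lit 16200, nat_lit 0, nat_lit 0, nat_lit 0, nat_lit 7701, nat_lit 8576, nat_lit 2143, nat_lit 0, nat_lit 0, nat_lit 864, nat_lit 0, nat_lit 0, nat_lit 0, nat_lit 0, nat_lit 0, nat_lit 0, nat_lit 0, nat_lit 0, [],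
 ⟨p039_k1, nat_lit 0, nat_lit 0, nat_lit 461, nat_lit 0, nat_lit 570775, [nat_lit 4688000000, nat_lit 7968000001, nat_lit 9842000000], [], [nat_lit 25611898735, nat_lit 26187209095, nat_lit 39133239004, nat_lit 40169471816, nat_lit 22374801720, nat_lit 22778654278, nat_lit 32690517412, nat_lit 33376478262], nat_lit 1271250, nat_lit 1271250, nat_lit 1271250, nat_lit 1271250, nat_lit 0, nat_lit 1892750, [nat_lit 1100000, nat_lit 1785000, nat_lit 1271250], [nat_lit 29, nat_lit 40, nat_lit 20, nat_lit 80, nat_lit 17, nat_lit 483, nat_lit 250, nat_lit 14]⟩, ⟨p039_k0, nat_lit 0, nat_lit 0, nat_lit 542, nat_lit 0, nat_lit 638933, [nat_lit 4688000000, nat_lit 7968000000, nat_lit 11872000000], [], [nat_lit 34889254112, nat_lit 35948397888, nat_lit 41347302336, nat_lit 42462186400, nat_lit 30349984096, nat_lit 31094954880, nat_lit 34853207764, nat_lit 35082843732], nat_lit 1271250, nat_lit 1271250, nat_lit 1271250, nat_lit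 1271250, nat_lit 0, nat_lit 2034000, [nat_lit 1100000, nat_lit 1785000, nat_lit 1271250], [nat_lit 21, nat_lit 40, nat_lit 20, nat_lit 80, nat_lit 14, nat_lit 483, nat_lit 250, nat_lit 12]⟩,
 zbF0, [⟨nat_lit 4, nat_lit 100, nat_lit 96, nat_lit 54, nat_lit 88901956⟩, ⟨nat_lit 7, nat_lit 100, nat_lit 98, nat_lit 54, nat_lit 93722954⟩]⟩
noncomputable def b_VL_600_600_5_82 : St := ⟨true, nat_lit 1, nat_lit 1, nat_lit 1, nat_lit 40, nat_lit 240, nat_lit 280, nat_lit 240, nat_lit 280, nat_lit 240, nat_lit 400, nat_lit 20, nat_lit 40, nat_lit 0, nat_lit 288, nat_lit 0, nat_lit 288, nat_lit 0, nat_lit 40, nat_lit 0, nat_lit 0, nat_lit 0, nat_lit 0⟩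
theorem d_VL_600_600_5_82 (h : EB TB.env) : Dead b_VL_600_600_5_82 := chkB_sound0 h (T :=
(.spl (nat_lit 0) (nat_lit 260)
(.ord (.leaf p039_l0))
(.trX (nat_lit 16) (nat_lit 100) (nat_lit 99) (nat_lit 63) (nat_lit 268) (.leaf p039_l1)))) (by decide +kernel)
noncomputable def p039_l2 : Lf2 := ⟨nat_lit 0, nat_lit 8, [nat_lit 50, nat_lit 5, nat_lit 5, nat_lit 20], true, nat_lit 0, nat_lit 160, nat_lit 0, nat_lit 288, ⟨nat_lit 0, nat_lit 1000, nat_lit 0, nat_lit 6, nat_lit 96, nat_lit 1000, nat_lit 47, nat_lit 0, nat_lit 0, nat_lit 0, nat_lit 0, nat_lit 0, nat_lit 0, nat_lit 0, nat_lit 0, nat_lit 5000000, false, false⟩,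
 nat_lit 0, nat_lit 6883, nat_lit 0, nat_lit 0, nat_lit 3643, nat_lit 0, nat_lit 296, nat_lit 0, nat_lit 0, nat_lit 0, nat_lit 0, nat_lit 0, nat_lit 0, nat_lit 25921933952977, nat_lit 0, nat_lit 400000, nat_lit 0, nat_lit 0, [(nat_lit 6, [(nat_lit 1, nat_lit 1000)])],
 ⟨p039_k2, nat_lit 0, nat_lit 0, nat_lit 431, nat_lit 0, nat_lit 297485, [nat_lit 2692266667, nat_lit 3151066667, nat_lit 3294533333], [], [nat_lit 32081558987, nat_lit 31124306092, nat_lit 29497646768, nat_lit 29784547520, nat_lit 29535342808, nat_lit 29793843328, nat_lit 30632298781, nat_lit 29773997052], nat_lit 1271250, nat_lit 1271250, nat_lit 88400, nat_lit 490000, nat_lit 0, nat_lit 1100001, [nat_lit 1100000, nat_lit 1442500, nat_lit 1271250], [nat_lit 11, nat_lit 40, nat_lit 20, nat_lit 80, nat_lit 1, nat_lit 345, nat_lit 125, nat_lit 10]⟩, C1.Rw.none,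
 ⟨nat_lit 6123, nat_lit 6325, ⟨.ofNat (nat_lit 164319), .ofNat (nat_lit 295942), .ofNat (nat_lit 175003), .ofNat (nat_lit 306625), .ofNat (nat_lit 172944), .ofNat (nat_lit 301553), .ofNat (nat_lit 183618), .ofNat (nat_lit 312227)⟩, ⟨.negSucc (nat_lit 103633), .ofNat (nat_lit 225423), .negSucc (nat_lit 82265), .ofNat (nat_lit 246791), .negSucc (nat_lit 94037), .ofNat (nat_lit 227485), .negSucc (nat_lit 72689), .ofNat (nat_lit 248833)⟩⟩, []⟩
noncomputable def p039_l3 : Lf2 := ⟨nat_lit 0, nat_lit 8, [nat_lit 50, nat_lit 5, nat_lit 5, nat_lit 20], false, nat_lit 0, nat_lit 80, nat_lit 0, nat_lit 288, ⟨nat_lit 170, nat_lit 830, nat_lit 0, nat_lit 6, nat_lit 154, nat_lit 830, nat_lit 15, nat_lit 0, nat_lit 0, nat_lit 0, nat_lit 0, nat_lit 0, nat_lit 0, nat_lit 0, nat_lit 0, nat_lit 5000000, false, false⟩,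
 nat_lit 0, nat_lit 5383, nat_lit 0, nat_lit 0, nat_lit 2849, nat_lit 1869, nat_lit 982, nat_lit 0, nat_lit 0, nat_lit 427, nat_lit 0, nat_lit 0, nat_lit 0, nat_lit 19264942102845, nat_lit 0, nat_lit 332000, nat_lit 0, nat_lit 0, [(nat_lit 6, [(nat_lit 1, nat_lit 830)])],
 ⟨p039_k2, nat_lit 0, nat_lit 0, nat_lit 485, nat_lit 0, nat_lit 566946, [nat_lit 3031541334, nat_lit 3677885334, nat_lit 4381082666], [], [nat_lit 31697202828, nat_lit 30944015547, nat_lit 31374658352, nat_lit 31710277727, nat_lit 30011084676, nat_lit 30336731285, nat_lit 32859339542, nat_lit 32188106595], nat_lit 1271250, nat_lit 1271250, nat_lit 490000, nat_lit 1100001, nat_lit 0, nat_lit 490000, [nat_lit 1100000, nat_lit 1442500, nat_lit 1271250], [nat_lit 11, nat_lit 40, nat_lit 20, nat_lit 80, nat_lit 1, nat_lit 345, nat_lit 125, nat_lit 10]⟩, ⟨p039_k2, nat_lit 0, nat_lit 0, nat_lit 153, nat_lit 0, nat_lit 0, [nat_lit 796960000, nat_lit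 1062500000, nat_lit 1673140000], [], [nat_lit 3017378866, nat_lit 3212507067, nat_lit 2893512074, nat_lit 3064939753, nat_lit 2974834963, nat_lit 3157040199, nat_lit 2814087099, nat_lit 2979904405], nat_lit 0, nat_lit 0, nat_lit 0, nat_lit 0, nat_lit 0, nat_lit 0, [], [nat_lit 11, nat_lit 40, nat_lit 20, nat_lit 80, nat_lit 1, nat_lit 401, nat_lit 175, nat_lit 12]⟩,
 ⟨nat_lit 6123, nat_lit 6325, ⟨.ofNat (nat_lit 295942), .ofNat (nat_lit 460470), .ofNat (nat_lit 306625), .ofNat (nat_lit 471154), .ofNat (nat_lit 301553), .ofNat (nat_lit 462314), .ofNat (nat_lit 312227), .ofNat (nat_lit 472988)⟩, ⟨.negSucc (nat_lit 103633), .ofNat (nat_lit 60895), .negSucc (nat_lit 82265), .ofNat (nat_lit 82263), .negSucc (nat_lit 94037), .ofNat (nat_lit 66723), .negSucc (nat_lit 72689), .ofNat (nat_lit 88071)⟩⟩, [⟨nat_lit 7, nat_lit 97, nat_lit 100, nat_lit 54, nat_lit 53179463⟩]⟩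
noncomputable def p039_l4 : Lf2 := ⟨nat_lit 0, nat_lit 8, [nat_lit 50, nat_lit 5, nat_lit 5, nat_lit 20], true, nat_lit 80, nat_lit 160, nat_lit 0, nat_lit 288, ⟨nat_lit 0, nat_lit 1000, nat_lit 0, nat_lit 6, nat_lit 154, nat_lit 1000, nat_lit 62, nat_lit 0, nat_lit 0, nat_lit 0, nat_lit 0, nat_lit 0, nat_lit 0, nat_lit 0, nat_lit 0, nat_lit 5000000, false, false⟩,
 nat_lit 0, nat_lit 3021, nat_lit 0, nat_lit 0, nat_lit 1599, nat_lit 0, nat_lit 536, nat_lit 0, nat_lit 0, nat_lit 0, nat_lit 0, nat_lit 0, nat_lit 0, nat_lit 18361465771973, nat_lit 0, nat_lit 400000, nat_lit 0, nat_lit 0, [(nat_lit 6, [(nat_lit 1, nat_lit 1000)])],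
 ⟨p039_k2, nat_lit 0, nat_lit 0, nat_lit 422, nat_lit 0, nat_lit 566946, [nat_lit 2692266667, nat_lit 3151066667, nat_lit 3294533333], [], [nat_lit 28236995549, nat_lit 28527187753, nat_lit 29382107637, nat_lit 29651773674, nat_lit 29382107637, nat_lit 29651773674, nat_lit 31082312937, nat_lit 30706641259], nat_lit 1271250, nat_lit 1271250, nat_lit 490000, nat_lit 1100001, nat_lit 490000, nat_lit 1100001, [nat_lit 1100000, nat_lit 1442500, nat_lit 1271250], [nat_lit 11, nat_lit 40, nat_lit 20, nat_lit 80, nat_lit 1, nat_lit 373, nat_lit 150, nat_lit 11]⟩, C1.Rw.none,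
 ⟨nat_lit 6123, nat_lit 6325, ⟨.ofNat (nat_lit 295942), .ofNat (nat_lit 460470), .ofNat (nat_lit 306625), .ofNat (nat_lit 471154), .ofNat (nat_lit 301553), .ofNat (nat_lit 462314), .ofNat (nat_lit 312227), .ofNat (nat_lit 472988)⟩, ⟨.ofNat (nat_lit 60895), .ofNat (nat_lit 225423), .ofNat (nat_lit 82263), .ofNat (nat_lit 246791), .ofNat (nat_lit 66723), .ofNat (nat_lit 227485), .ofNat (nat_lit 88071), .ofNat (nat_lit 248833)⟩⟩, []⟩
noncomputable def p039_l5 : Lf2 := ⟨nat_lit 1, nat_lit 10, [nat_lit 0, nat_lit 5, nat_lit 5, nat_lit 20], false, nat_lit 0, nat_lit 160, nat_lit 0, nat_lit 288, zbN0,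
 nat_lit 0, nat_lit 0, nat_lit 0, nat_lit 0, nat_lit 0, nat_lit 0, nat_lit 0, nat_lit 0, nat_lit 0, nat_lit 0, nat_lit 0, nat_lit 0, nat_lit 0, nat_lit 0, nat_lit 0, nat_lit 0, nat_lit 0, nat_lit 0, [],
 C1.Rw.none, C1.Rw.none,
 zbF0, []⟩
noncomputable def p039_l6 : Lf2 := ⟨nat_lit 0, nat_lit 10, [nat_lit 0, nat_lit 5, nat_lit 5, nat_lit 20], true, nat_lit 0, nat_lit 80, nat_lit 0, nat_lit 288, ⟨nat_lit 0, nat_lit 1000, nat_lit 0, nat_lit 6, nat_lit 102, nat_lit 0, nat_lit 16, nat_lit 0, nat_lit 0, nat_lit 0, nat_lit 0, nat_lit 0, nat_lit 0, nat_lit 0, nat_lit 0, nat_lit 5000000, false, false⟩,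
 nat_lit 0, nat_lit 7396, nat_lit 0, nat_lit 0, nat_lit 4108, nat_lit 0, nat_lit 927, nat_lit 0, nat_lit 0, nat_lit 0, nat_lit 0, nat_lit 0, nat_lit 0, nat_lit 25071996001910, nat_lit 0, nat_lit 400000, nat_lit 0, nat_lit 0, [(nat_lit 6, [(nat_lit 1, nat_lit 1000)])],
 ⟨p039_k3, nat_lit 0, nat_lit 0, nat_lit 462, nat_lit 0, nat_lit 392282, [nat_lit 2692266667, nat_lit 3151066667, nat_lit 3294533333], [], [nat_lit 26860280797, nat_lit 25798584629, nat_lit 23942524804, nat_lit 24356519232, nat_lit 23357895340, nat_lit 23768090032, nat_lit 23824780853, nat_lit 23320872912], nat_lit 1271250, nat_lit 1271250, nat_lit 111251, nat_lit 490000, nat_lit 0, nat_lit 490000, [nat_lit 1100000, nat_lit 1442500, nat_lit 1271250], [nat_lit 11, nat_lit 40, nat_lit 20, nat_lit 80, nat_lit 1, nat_lit 345, nat_lit 125, nat_lit 10]⟩, C1.Rw.none,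
 ⟨nat_lit 5916, nat_lit 6124, ⟨.ofNat (nat_lit 180982), .ofNat (nat_lit 301553), .ofNat (nat_lit 202330), .ofNat (nat_lit 322901), .ofNat (nat_lit 189276), .ofNat (nat_lit 307076), .ofNat (nat_lit 210615), .ofNat (nat_lit 328416)⟩, ⟨.negSucc (nat_lit 94037), .ofNat (nat_lit 66723), .negSucc (nat_lit 72689), .ofNat (nat_lit 88071), .negSucc (nat_lit 84722), .ofNat (nat_lit 72344), .negSucc (nat_lit 63383), .ofNat (nat_lit 93684)⟩⟩, [⟨nat_lit 0, nat_lit 100, nat_lit 100, nat_lit 60, nat_lit 34515914⟩]⟩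
noncomputable def p039_l7 : Lf2 := ⟨nat_lit 0, nat_lit 10, [nat_lit 0, nat_lit 5, nat_lit 5, nat_lit 20], false, nat_lit 0, nat_lit 80, nat_lit 0, nat_lit 288, ⟨nat_lit 430, nat_lit 570, nat_lit 0, nat_lit 6, nat_lit 156, nat_lit 570, nat_lit 16, nat_lit 0, nat_lit 0, nat_lit 0, nat_lit 0, nat_lit 0, nat_lit 0, nat_lit 0, nat_lit 0, nat_lit 5000000, false, false⟩,
 nat_lit 0, nat_lit 9729, nat_lit 0, nat_lit 0, nat_lit 5405, nat_lit 4249, nat_lit 1641, nat_lit 0, nat_lit 0, nat_lit 1250, nat_lit 0, nat_lit 0, nat_lit 0, nat_lit 19012763220084, nat_lit 0, nat_lit 228000, nat_lit 0, nat_lit 0, [(nat_lit 6, [(nat_lit 1, nat_lit 570)])],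
 ⟨p039_k3, nat_lit 0, nat_lit 0, nat_lit 512, nat_lit 0, nat_lit 638764, [nat_lit 3550432000, nat_lit 4483608000, nat_lit 6054313334], [], [nat_lit 26155855995, nat_lit 25529600454, nat_lit 27487610065, nat_lit 26833121318, nat_lit 24413184445, nat_lit 23763881984, nat_lit 29677236085, nat_lit 29040518978], nat_lit 1271250, nat_lit 1271250, nat_lit 490000, nat_lit 1100001, nat_lit 0, nat_lit 490000, [nat_lit 1100000, nat_lit 1442500, nat_lit 1271250], [nat_lit 11, nat_lit 40, nat_lit 20, nat_lit 80, nat_lit 1, nat_lit 345, nat_lit 125, nat_lit 10]⟩, ⟨p039_k4, nat_lit 0, nat_lit 0, nat_lit 209, nat_lit 0, nat_lit 0, [nat_lit 2015840000, nat_lit 2687500000, nat_lit 5104960000], [], [nat_lit 8351862506, nat_lit 8934936722, nat_lit 7868934530, nat_lit 8383878404, nat_lit 7578268466, nat_lit 8092622267, nat_lit 7308812603, nat_lit 7751511871], nat_lit 0, nat_lit 0, nat_lit 0, nat_lit 0, nat_lit 0, nat_lit 0, [], [nat_lit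 48, nat_lit 40, nat_lit 20, nat_lit 80, nat_lit 12, nat_lit 428, nat_lit 200, nat_lit 11]⟩,
 ⟨nat_lit 6020, nat_lit 6124, ⟨.ofNat (nat_lit 301553), .ofNat (nat_lit 462314), .ofNat (nat_lit 317564), .ofNat (nat_lit 478325), .ofNat (nat_lit 304325), .ofNat (nat_lit 463230), .ofNat (nat_lit 320331), .ofNat (nat_lit 479237)⟩, ⟨.negSucc (nat_lit 94037), .ofNat (nat_lit 66723), .negSucc (nat_lit 72689), .ofNat (nat_lit 88071), .negSucc (nat_lit 89345), .ofNat (nat_lit 69559), .negSucc (nat_lit 68003), .ofNat (nat_lit 90902)⟩⟩, [⟨nat_lit 19, nat_lit 100, nat_lit 98, nat_lit 54, nat_lit 114452353⟩]⟩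
noncomputable def p039_l8 : Lf2 := ⟨nat_lit 0, nat_lit 10, [nat_lit 0, nat_lit 5, nat_lit 5, nat_lit 20], false, nat_lit 0, nat_lit 80, nat_lit 0, nat_lit 288, ⟨nat_lit 355, nat_lit 645, nat_lit 0, nat_lit 6, nat_lit 158, nat_lit 268, nat_lit 16, nat_lit 0, nat_lit 0, nat_lit 0, nat_lit 0, nat_lit 0, nat_lit 0, nat_lit 0, nat_lit 0, nat_lit 5000000, false, false⟩,
 nat_lit 0, nat_lit 9438, nat_lit 0, nat_lit 0, nat_lit 5368, nat_lit 3476, nat_lit 2100, nat_lit 0, nat_lit 0, nat_lit 987, nat_lit 0, nat_lit 0, nat_lit 0, nat_lit 18304883676559, nat_lit 0, nat_lit 258000, nat_lit 0, nat_lit 0, [(nat_lit 6, [(nat_lit 1, nat_lit 645)])],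
 ⟨p039_k5, nat_lit 0, nat_lit 0, nat_lit 579, nat_lit 0, nat_lit 718438, [nat_lit 3400752000, nat_lit 4251188000, nat_lit 5566196667], [], [nat_lit 25049065836, nat_lit 24465781296, nat_lit 25027315828, nat_lit 24704512320, nat_lit 22658421552, nat_lit 22822526336, nat_lit 27233019924, nat_lit 26600661472], nat_lit 1271250, nat_lit 1271250, nat_lit 490000, nat_lit 1100001, nat_lit 0, nat_lit 490000, [nat_lit 1100000, nat_lit 1442500, nat_lit 1271250], [nat_lit 11, nat_lit 40, nat_lit 20, nat_lit 80, nat_lit 1, nat_lit 345, nat_lit 125, nat_lit 10]⟩, ⟨p039_k4, nat_lit 0, nat_lit 0, nat_lit 212, nat_lit 0, nat_lit 0, [nat_lit 1664240000, nat_lit 2218750000, nat_lit 4214560000], [], [nat_lit 7095467529, nat_lit 7733600281, nat_lit 6706408165, nat_lit 7270115143, nat_lit 6484025746, nat_lit 6854473774, nat_lit 6069365954, nat_lit 6556245515], nat_lit 0, nat_lit 0, nat_lit 0, nat_lit 0, nat_lit 0, nat_lit 0, [], [nat_lit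 48, nat_lit 40, nat_lit 20, nat_lit 80, nat_lit 12, nat_lit 428, nat_lit 200, nat_lit 11]⟩,
 ⟨nat_lit 5916, nat_lit 6021, ⟨.ofNat (nat_lit 304325), .ofNat (nat_lit 463230), .ofNat (nat_lit 325667), .ofNat (nat_lit 484573), .ofNat (nat_lit 307076), .ofNat (nat_lit 464143), .ofNat (nat_lit 328416), .ofNat (nat_lit 485483)⟩, ⟨.negSucc (nat_lit 89345), .ofNat (nat_lit 69559), .negSucc (nat_lit 68003), .ofNat (nat_lit 90902), .negSucc (nat_lit 84722), .ofNat (nat_lit 72344), .negSucc (nat_lit 63383), .ofNat (nat_lit 93684)⟩⟩, [⟨nat_lit 7, nat_lit 99, nat_lit 100, nat_lit 54, nat_lit 88572959⟩]⟩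
noncomputable def p039_l9 : Lf2 := ⟨nat_lit 0, nat_lit 5, [nat_lit 4, nat_lit 5, nat_lit 5, nat_lit 20], true, nat_lit 80, nat_lit 160, nat_lit 0, nat_lit 288, ⟨nat_lit 0, nat_lit 1000, nat_lit 0, nat_lit 6, nat_lit 102, nat_lit 1000, nat_lit 64, nat_lit 0, nat_lit 0, nat_lit 0, nat_lit 0, nat_lit 0, nat_lit 0, nat_lit 0, nat_lit 0, nat_lit 5000000, false, false⟩,
 nat_lit 0, nat_lit 8234, nat_lit 0, nat_lit 0, nat_lit 4574, nat_lit 0, nat_lit 1329, nat_lit 0, nat_lit 0, nat_lit 0, nat_lit 0, nat_lit 0, nat_lit 0, nat_lit 30440384131123, nat_lit 0, nat_lit 400000, nat_lit 0, nat_lit 0, [(nat_lit 6, [(nat_lit 1, nat_lit 1000)])],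
 ⟨p039_k6, nat_lit 0, nat_lit 0, nat_lit 269, nat_lit 0, nat_lit 365315, [nat_lit 2692266667, nat_lit 3030400001, nat_lit 3280799999], [], [nat_lit 28307066202, nat_lit 27107013266, nat_lit 22408975475, nat_lit 21301248729, nat_lit 25349777293, nat_lit 24249730293, nat_lit 27238839587, nat_lit 26161191465], nat_lit 1271250, nat_lit 1271250, nat_lit 111251, nat_lit 490000, nat_lit 490000, nat_lit 1100001, [nat_lit 1100000, nat_lit 1442500, nat_lit 1271250], [nat_lit 9, nat_lit 40, nat_lit 20, nat_lit 80, nat_lit 2, nat_lit 272, nat_lit 60, nat_lit 9]⟩, C1.Rw.none,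
 ⟨nat_lit 5916, nat_lit 6124, ⟨.ofNat (nat_lit 180982), .ofNat (nat_lit 301553), .ofNat (nat_lit 202330), .ofNat (nat_lit 322901), .ofNat (nat_lit 189276), .ofNat (nat_lit 307076), .ofNat (nat_lit 210615), .ofNat (nat_lit 328416)⟩, ⟨.ofNat (nat_lit 66723), .ofNat (nat_lit 227485), .ofNat (nat_lit 88071), .ofNat (nat_lit 248833), .ofNat (nat_lit 72344), .ofNat (nat_lit 229411), .ofNat (nat_lit 93684), .ofNat (nat_lit 250751)⟩⟩, []⟩
noncomputable def p039_l10 : Lf2 := ⟨nat_lit 0, nat_lit 5, [nat_lit 4, nat_lit 5, nat_lit 5, nat_lit 20], false, nat_lit 80, nat_lit 160, nat_lit 0, nat_lit 288, ⟨nat_lit 314, nat_lit 686, nat_lit 0, nat_lit 6, nat_lit 156, nat_lit 686, nat_lit 64, nat_lit 0, nat_lit 0, nat_lit 0, nat_lit 0, nat_lit 0, nat_lit 0, nat_lit 0, nat_lit 0, nat_lit 5000000, false, false⟩,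
 nat_lit 0, nat_lit 3266, nat_lit 0, nat_lit 0, nat_lit 1814, nat_lit 3140, nat_lit 121, nat_lit 0, nat_lit 0, nat_lit 826, nat_lit 0, nat_lit 0, nat_lit 0, nat_lit 0, nat_lit 0, nat_lit 274400, nat_lit 0, nat_lit 0, [(nat_lit 6, [(nat_lit 1, nat_lit 686)])],
 ⟨p039_k6, nat_lit 0, nat_lit 0, nat_lit 334, nat_lit 0, nat_lit 612016, [nat_lit 3318926934, nat_lit 4041354400, nat_lit 4740334800], [], [nat_lit 30211325614, nat_lit 30570119178, nat_lit 31633241256, nat_lit 31899395574, nat_lit 31633241256, nat_lit 31899395574, nat_lit 35068421982, nat_lit 34646755868], nat_lit 1271250, nat_lit 1271250, nat_lit 490000, nat_lit 1100001, nat_lit 490000, nat_lit 1100001, [nat_lit 1100000, nat_lit 1442500, nat_lit 1271250], [nat_lit 9, nat_lit 40, nat_lit 20, nat_lit 80, nat_lit 2, nat_lit 317, nat_lit 100, nat_lit 10]⟩, ⟨p039_k7, nat_lit 0, nat_lit 0, nat_lit 153, nat_lit 0, nat_lit 0, [nat_lit 1472032000, nat_lit 1962500000,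 nat_lit 3090388000], [], [nat_lit 5435237852, nat_lit 5772989126, nat_lit 5282641388, nat_lit 5580021368, nat_lit 5561032281, nat_lit 5756368074, nat_lit 5295861703, nat_lit 5513145746], nat_lit 0, nat_lit 0, nat_lit 0, nat_lit 0, nat_lit 0, nat_lit 0, [], [nat_lit 11, nat_lit 40, nat_lit 20, nat_lit 80, nat_lit 1, nat_lit 401, nat_lit 175, nat_lit 12]⟩,
 ⟨nat_lit 5916, nat_lit 6124, ⟨.ofNat (nat_lit 301553), .ofNat (nat_lit 462314), .ofNat (nat_lit 312227), .ofNat (nat_lit 472988), .ofNat (nat_lit 307076), .ofNat (nat_lit 464143), .ofNat (nat_lit 317746), .ofNat (nat_lit 474813)⟩, ⟨.ofNat (nat_lit 66723), .ofNat (nat_lit 227485), .ofNat (nat_lit 88071), .ofNat (nat_lit 248833), .ofNat (nat_lit 72344), .ofNat (nat_lit 229411), .ofNat (nat_lit 93684), .ofNat (nat_lit 250751)⟩⟩, [⟨nat_lit 7, nat_lit 97, nat_lit 100, nat_lit 54, nat_lit 101155587⟩]⟩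
noncomputable def p039_l11 : Lf2 := ⟨nat_lit 0, nat_lit 5, [nat_lit 4, nat_lit 5, nat_lit 5, nat_lit 20], false, nat_lit 80, nat_lit 160, nat_lit 0, nat_lit 280, ⟨nat_lit 499, nat_lit 501, nat_lit 0, nat_lit 6, nat_lit 160, nat_lit 501, nat_lit 64, nat_lit 0, nat_lit 0, nat_lit 0, nat_lit 0, nat_lit 0, nat_lit 0, nat_lit 0, nat_lit 0, nat_lit 5000000, false, false⟩,
 nat_lit 0, nat_lit 7569, nat_lit 0, nat_lit 0, nat_lit 4205, nat_lit 3650, nat_lit 2891, nat_lit 0, nat_lit 0, nat_lit 0, nat_lit 0, nat_lit 0, nat_lit 0, nat_lit 21065785470160, nat_lit 0, nat_lit 200400, nat_lit 0, nat_lit 0, [(nat_lit 6, [(nat_lit 1, nat_lit 501)])],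
 ⟨p039_k6, nat_lit 0, nat_lit 0, nat_lit 406, nat_lit 0, nat_lit 715882, [nat_lit 3688137600, nat_lit 4636980400, nat_lit 5600251800], [], [nat_lit 27998717375, nat_lit 26903781630, nat_lit 27750380460, nat_lit 26746041440, nat_lit 27750380460, nat_lit 26746041440, nat_lit 32497285305, nat_lit 31519828850], nat_lit 1271250, nat_lit 1271250, nat_lit 490000, nat_lit 1100001, nat_lit 490000, nat_lit 1100001, [nat_lit 1100000, nat_lit 1442500, nat_lit 1271250], [nat_lit 9, nat_lit 40, nat_lit 20, nat_lit 80, nat_lit 2, nat_lit 317, nat_lit 100, nat_lit 10]⟩, ⟨p039_k6, nat_lit 0, nat_lit 0, nat_lit 69, nat_lit 0, nat_lit 0, [nat_lit 2339312000, nat_lit 3118750000, nat_lit 3976032000], [], [nat_lit 6186119426, nat_lit 6891869372, nat_lit 6482714036, nat_lit 7063883458, nat_lit 8477280781, nat_lit 8850031914, nat_lit 8569101169, nat_lit 8894928660], nat_lit 0, nat_lit 0, nat_lit 0, nat_lit 0, nat_lit 0, nat_lit 0, [],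 [nat_lit 9, nat_lit 40, nat_lit 20, nat_lit 80, nat_lit 2, nat_lit 345, nat_lit 125, nat_lit 12]⟩,
 ⟨nat_lit 5916, nat_lit 6124, ⟨.ofNat (nat_lit 312227), .ofNat (nat_lit 472988), .ofNat (nat_lit 322901), .ofNat (nat_lit 483662), .ofNat (nat_lit 317746), .ofNat (nat_lit 474813), .ofNat (nat_lit 328416), .ofNat (nat_lit 485483)⟩, ⟨.ofNat (nat_lit 66723), .ofNat (nat_lit 227485), .ofNat (nat_lit 88071), .ofNat (nat_lit 248833), .ofNat (nat_lit 72344), .ofNat (nat_lit 229411), .ofNat (nat_lit 93684), .ofNat (nat_lit 250751)⟩⟩, [⟨nat_lit 7, nat_lit 100, nat_lit 100, nat_lit 55, nat_lit 223304476⟩]⟩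
noncomputable def p039_l12 : Lf2 := ⟨nat_lit 0, nat_lit 10, [nat_lit 0, nat_lit 5, nat_lit 5, nat_lit 20], true, nat_lit 80, nat_lit 160, nat_lit 0, nat_lit 288, ⟨nat_lit 0, nat_lit 1000, nat_lit 0, nat_lit 6, nat_lit 132, nat_lit 1000, nat_lit 63, nat_lit 0, nat_lit 0, nat_lit 0, nat_lit 0, nat_lit 0, nat_lit 0, nat_lit 0, nat_lit 0, nat_lit 5000000, false, false⟩,
 nat_lit 0, nat_lit 3843, nat_lit 0, nat_lit 2004, nat_lit 2135, nat_lit 0, nat_lit 649, nat_lit 0, nat_lit 0, nat_lit 0, nat_lit 0, nat_lit 0, nat_lit 0, nat_lit 22642095443696, nat_lit 0, nat_lit 400000, nat_lit 0, nat_lit 0, [(nat_lit 6, [(nat_lit 1, nat_lit 1000)])],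
 ⟨p039_k3, nat_lit 0, nat_lit 0, nat_lit 286, nat_lit 0, nat_lit 233340, [nat_lit 2692266667, nat_lit 3151066667, nat_lit 3294533333], [], [nat_lit 29402361999, nat_lit 29117974662, nat_lit 27049450298, nat_lit 27189043801, nat_lit 26983660438, nat_lit 27128901211, nat_lit 27956604323, nat_lit 28085531638], nat_lit 1271250, nat_lit 1271250, nat_lit 111251, nat_lit 1100001, nat_lit 490000, nat_lit 1100001, [nat_lit 1100000, nat_lit 1442500, nat_lit 1271250], [nat_lit 11, nat_lit 40, nat_lit 20, nat_lit 80, nat_lit 1, nat_lit 373, nat_lit 150, nat_lit 11]⟩, C1.Rw.none,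
 ⟨nat_lit 6020, nat_lit 6124, ⟨.ofNat (nat_lit 180982), .ofNat (nat_lit 462314), .ofNat (nat_lit 196993), .ofNat (nat_lit 478325), .ofNat (nat_lit 185145), .ofNat (nat_lit 463230), .ofNat (nat_lit 201152), .ofNat (nat_lit 479237)⟩, ⟨.ofNat (nat_lit 66723), .ofNat (nat_lit 227485), .ofNat (nat_lit 88071), .ofNat (nat_lit 248833), .ofNat (nat_lit 69559), .ofNat (nat_lit 228465), .ofNat (nat_lit 90902), .ofNat (nat_lit 249807)⟩⟩, []⟩
noncomputable def p039_l13 : Lf2 := ⟨nat_lit 0, nat_lit 10, [nat_lit 0, nat_lit 5, nat_lit 5, nat_lit 20], false, nat_lit 80, nat_lit 160, nat_lit 0, nat_lit 288, ⟨nat_lit 110, nat_lit 890, nat_lit 0, nat_lit 6, nat_lit 134, nat_lit 890, nat_lit 64, nat_lit 0, nat_lit 0, nat_lit 0, nat_lit 0, nat_lit 0, nat_lit 0, nat_lit 0, nat_lit 0, nat_lit 5000000, false, false⟩,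
 nat_lit 0, nat_lit 4792, nat_lit 0, nat_lit 0, nat_lit 2725, nat_lit 1078, nat_lit 0, nat_lit 0, nat_lit 0, nat_lit 284, nat_lit 0, nat_lit 0, nat_lit 0, nat_lit 30089232995463, nat_lit 0, nat_lit 356000, nat_lit 0, nat_lit 0, [(nat_lit 6, [(nat_lit 1, nat_lit 890)])],
 ⟨p039_k5, nat_lit 0, nat_lit 0, nat_lit 323, nat_lit 0, nat_lit 322876, [nat_lit 2911797334, nat_lit 3491949334, nat_lit 3997594666], [], [nat_lit 30925014631, nat_lit 30562037818, nat_lit 29180679597, nat_lit 29347766584, nat_lit 29265155797, nat_lit 29439996284, nat_lit 32385387240, nat_lit 32068672752], nat_lit 1271250, nat_lit 1271250, nat_lit 111251, nat_lit 1100001, nat_lit 490000, nat_lit 1100001, [nat_lit 1100000, nat_lit 1442500, nat_lit 1271250], [nat_lit 11, nat_lit 40, nat_lit 20, nat_lit 80, nat_lit 1, nat_lit 373, nat_lit 150, nat_lit 11]⟩, ⟨p039_k4, nat_lit 0, nat_lit 0, nat_lit 347, nat_lit 0, nat_lit 0, [nat_lit 515680000, nat_lit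 687500000, nat_lit 1305920000], [], [nat_lit 2869319604, nat_lit 3074456932, nat_lit 2182786460, nat_lit 2357547464, nat_lit 2585968756, nat_lit 2705014505, nat_lit 1931239270, nat_lit 2031540483], nat_lit 0, nat_lit 0, nat_lit 0, nat_lit 0, nat_lit 0, nat_lit 0, [], [nat_lit 48, nat_lit 40, nat_lit 20, nat_lit 80, nat_lit 12, nat_lit 428, nat_lit 200, nat_lit 11]⟩,
 ⟨nat_lit 5916, nat_lit 6021, ⟨.ofNat (nat_lit 185145), .ofNat (nat_lit 463230), .ofNat (nat_lit 206488), .ofNat (nat_lit 484573), .ofNat (nat_lit 189276), .ofNat (nat_lit 464143), .ofNat (nat_lit 210615), .ofNat (nat_lit 485483)⟩, ⟨.ofNat (nat_lit 69559), .ofNat (nat_lit 228465), .ofNat (nat_lit 90902), .ofNat (nat_lit 249807), .ofNat (nat_lit 72344), .ofNat (nat_lit 229411), .ofNat (nat_lit 93684), .ofNat (nat_lit 250751)⟩⟩, [⟨nat_lit 7, nat_lit 99, nat_lit 100, nat_lit 54, nat_lit 25759873⟩]⟩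
noncomputable def p039_l14 : Lf2 := ⟨nat_lit 0, nat_lit 10, [nat_lit 0, nat_lit 5, nat_lit 5, nat_lit 20], false, nat_lit 0, nat_lit 160, nat_lit 0, nat_lit 288, ⟨nat_lit 1000, nat_lit 0, nat_lit 0, nat_lit 0, nat_lit 0, nat_lit 0, nat_lit 0, nat_lit 0, nat_lit 0, nat_lit 0, nat_lit 0, nat_lit 0, nat_lit 0, nat_lit 0, nat_lit 0, nat_lit 0, false, false⟩,
 nat_lit 0, nat_lit 11020, nat_lit 0, nat_lit 0, nat_lit 5834, nat_lit 18782, nat_lit 1548, nat_lit 0, nat_lit 0, nat_lit 1599, nat_lit 0, nat_lit 0, nat_lit 0, nat_lit 29467577977267, nat_lit 0, nat_lit 0, nat_lit 0, nat_lit 0, [],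
 ⟨p039_k4, nat_lit 0, nat_lit 0, nat_lit 530, nat_lit 0, nat_lit 575568, [nat_lit 4688000000, nat_lit 6250000000, nat_lit 11872000000], [], [nat_lit 38266094560, nat_lit 36723765814, nat_lit 35478908644, nat_lit 35733500238, nat_lit 31785906780, nat_lit 32037063530, nat_lit 32786927372, nat_lit 32996286012], nat_lit 1271250, nat_lit 1271250, nat_lit 1100001, nat_lit 1785000, nat_lit 0, nat_lit 1100001, [nat_lit 1100000, nat_lit 1442500, nat_lit 1271250], [nat_lit 48, nat_lit 40, nat_lit 20, nat_lit 80, nat_lit 12, nat_lit 401, nat_lit 175, nat_lit 10]⟩, ⟨p039_k4, nat_lit 0, nat_lit 0, nat_lit 185, nat_lit 0, nat_lit 0, [nat_lit 4688000000, nat_lit 6250000000, nat_lit 11872000000], [], [nat_lit 26101940185, nat_lit 27337091053, nat_lit 29804421977, nat_lit 30771579763, nat_lit 15867291912, nat_lit 17302137955, nat_lit 20752496780, nat_lit 21883214673], nat_lit 0, nat_lit 0, nat_lit 0, nat_lit 0, nat_lit 0, nat_lit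 0, [], [nat_lit 48, nat_lit 40, nat_lit 20, nat_lit 80, nat_lit 12, nat_lit 428, nat_lit 200, nat_lit 11]⟩,
 zbF0, []⟩
noncomputable def p039_l15 : Lf2 := ⟨nat_lit 0, nat_lit 10, [nat_lit 0, nat_lit 5, nat_lit 5, nat_lit 20], false, nat_lit 0, nat_lit 160, nat_lit 0, nat_lit 288, ⟨nat_lit 1000, nat_lit 0, nat_lit 0, nat_lit 0, nat_lit 0, nat_lit 0, nat_lit 0, nat_lit 0, nat_lit 0, nat_lit 0, nat_lit 0, nat_lit 0, nat_lit 0, nat_lit 0, nat_lit 0, nat_lit 0, false, false⟩,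
 nat_lit 0, nat_lit 11226, nat_lit 0, nat_lit 0, nat_lit 6236, nat_lit 13849, nat_lit 1637, nat_lit 0, nat_lit 0, nat_lit 2179, nat_lit 0, nat_lit 0, nat_lit 0, nat_lit 18291492074638, nat_lit 0, nat_lit 0, nat_lit 0, nat_lit 0, [],
 ⟨p039_k3, nat_lit 0, nat_lit 0, nat_lit 522, nat_lit 0, nat_lit 742849, [nat_lit 4688000000, nat_lit 6250000000, nat_lit 9842000000], [], [nat_lit 37230073156, nat_lit 35581468072, nat_lit 34255016208, nat_lit 34474500424, nat_lit 30683610540, nat_lit 30898247552, nat_lit 31688844868, nat_lit 31909328568], nat_lit 1271250, nat_lit 1271250, nat_lit 1100001, nat_lit 1785000, nat_lit 0, nat_lit 1100001, [nat_lit 1100000, nat_lit 1442500, nat_lit 1271250], [nat_lit 11, nat_lit 40, nat_lit 20, nat_lit 80, nat_lit 1, nat_lit 401, nat_lit 175, nat_lit 11]⟩, ⟨p039_k4, nat_lit 0, nat_lit 0, nat_lit 188, nat_lit 0, nat_lit 0, [nat_lit 4688000000, nat_lit 6250000000, nat_lit 11872000000], [],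 [nat_lit 22472040545, nat_lit 24458178197, nat_lit 25774673089, nat_lit 27354572343, nat_lit 16602430330, nat_lit 18589585788, nat_lit 20498912955, nat_lit 22325923110], nat_lit 0, nat_lit 0, nat_lit 0, nat_lit 0, nat_lit 0, nat_lit 0, [], [nat_lit 48, nat_lit 40, nat_lit 20, nat_lit 80, nat_lit 12, nat_lit 428, nat_lit 200, nat_lit 11]⟩,
 zbF0, [⟨nat_lit 7, nat_lit 99, nat_lit 100, nat_lit 54, nat_lit 140362205⟩]⟩
noncomputable def p039_l16 : Lf2 := ⟨nat_lit 0, nat_lit 8, [nat_lit 50, nat_lit 5, nat_lit 5, nat_lit 20], true, nat_lit 160, nat_lit 288, nat_lit 0, nat_lit 288, ⟨nat_lit 0, nat_lit 1000, nat_lit 0, nat_lit 6, nat_lit 96, nat_lit 1000, nat_lit 147, nat_lit 0, nat_lit 0, nat_lit 0, nat_lit 0, nat_lit 0, nat_lit 0, nat_lit 0, nat_lit 0, nat_lit 5000000, false, false⟩,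
 nat_lit 0, nat_lit 6795, nat_lit 0, nat_lit 0, nat_lit 3597, nat_lit 0, nat_lit 772, nat_lit 0, nat_lit 0, nat_lit 0, nat_lit 0, nat_lit 0, nat_lit 0, nat_lit 26075029028026, nat_lit 0, nat_lit 400000, nat_lit 0, nat_lit 0, [(nat_lit 6, [(nat_lit 1, nat_lit 1000)])],
 ⟨p039_k2, nat_lit 0, nat_lit 0, nat_lit 295, nat_lit 0, nat_lit 297485, [nat_lit 2692266667, nat_lit 3151066667, nat_lit 3294533333], [], [nat_lit 29338724557, nat_lit 28393558852, nat_lit 23315579710, nat_lit 23039551556, nat_lit 26774807459, nat_lit 27069422484, nat_lit 27401913046, nat_lit 26533054819], nat_lit 1271250, nat_lit 1271250, nat_lit 88400, nat_lit 490000, nat_lit 1100001, nat_lit 2196000, [nat_lit 1100000, nat_lit 1442500, nat_lit 1271250], [nat_lit 11, nat_lit 40, nat_lit 20, nat_lit 80, nat_lit 1, nat_lit 401, nat_lit 175, nat_lit 11]⟩, C1.Rw.none,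
 ⟨nat_lit 6123, nat_lit 6325, ⟨.ofNat (nat_lit 164319), .ofNat (nat_lit 295942), .ofNat (nat_lit 175003), .ofNat (nat_lit 306625), .ofNat (nat_lit 172944), .ofNat (nat_lit 301553), .ofNat (nat_lit 183618), .ofNat (nat_lit 312227)⟩, ⟨.ofNat (nat_lit 225423), .ofNat (nat_lit 488669), .ofNat (nat_lit 246791), .ofNat (nat_lit 510037), .ofNat (nat_lit 227485), .ofNat (nat_lit 484703), .ofNat (nat_lit 248833), .ofNat (nat_lit 506051)⟩⟩, [⟨nat_lit 0, nat_lit 100, nat_lit 100, nat_lit 50, nat_lit 40403064⟩, ⟨nat_lit 4, nat_lit 97, nat_lit 100, nat_lit 54, nat_lit 38760018⟩]⟩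
noncomputable def p039_l17 : Lf2 := ⟨nat_lit 0, nat_lit 8, [nat_lit 50, nat_lit 5, nat_lit 5, nat_lit 20], true, nat_lit 160, nat_lit 288, nat_lit 0, nat_lit 288, ⟨nat_lit 0, nat_lit 1000, nat_lit 0, nat_lit 6, nat_lit 138, nat_lit 1000, nat_lit 147, nat_lit 0, nat_lit 0, nat_lit 0, nat_lit 0, nat_lit 0, nat_lit 0, nat_lit 0, nat_lit 0, nat_lit 5000000, false, false⟩,
 nat_lit 0, nat_lit 5198, nat_lit 0, nat_lit 0, nat_lit 2751, nat_lit 0, nat_lit 982, nat_lit 0, nat_lit 0, nat_lit 0, nat_lit 0, nat_lit 0, nat_lit 0, nat_lit 21977341571219, nat_lit 0, nat_lit 400000, nat_lit 0, nat_lit 0, [(nat_lit 6, [(nat_lit 1, nat_lit 1000)])],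
 ⟨p039_k2, nat_lit 0, nat_lit 0, nat_lit 348, nat_lit 0, nat_lit 566946, [nat_lit 2692266667, nat_lit 3151066667, nat_lit 3294533333], [], [nat_lit 24462990929, nat_lit 24851769765, nat_lit 24946955709, nat_lit 25319015178, nat_lit 28417653473, nat_lit 28728014152, nat_lit 29687843627, nat_lit 29034798462], nat_lit 1271250, nat_lit 1271250, nat_lit 490000, nat_lit 780000, nat_lit 1100001, nat_lit 2196000, [nat_lit 1100000, nat_lit 1442500, nat_lit 1271250], [nat_lit 11, nat_lit 40, nat_lit 20, nat_lit 80, nat_lit 1, nat_lit 401, nat_lit 175, nat_lit 11]⟩, C1.Rw.none,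
 ⟨nat_lit 6123, nat_lit 6325, ⟨.ofNat (nat_lit 295942), .ofNat (nat_lit 378206), .ofNat (nat_lit 306625), .ofNat (nat_lit 388890), .ofNat (nat_lit 301553), .ofNat (nat_lit 381933), .ofNat (nat_lit 312227), .ofNat (nat_lit 392607)⟩, ⟨.ofNat (nat_lit 225423), .ofNat (nat_lit 488669), .ofNat (nat_lit 246791), .ofNat (nat_lit 510037), .ofNat (nat_lit 227485), .ofNat (nat_lit 484703), .ofNat (nat_lit 248833), .ofNat (nat_lit 506051)⟩⟩, [⟨nat_lit 4, nat_lit 97, nat_lit 100, nat_lit 54, nat_lit 403417062⟩]⟩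
noncomputable def p039_l18 : Lf2 := ⟨nat_lit 0, nat_lit 8, [nat_lit 50, nat_lit 5, nat_lit 5, nat_lit 20], false, nat_lit 160, nat_lit 288, nat_lit 0, nat_lit 288, ⟨nat_lit 1000, nat_lit 0, nat_lit 0, nat_lit 0, nat_lit 0, nat_lit 0, nat_lit 0, nat_lit 0, nat_lit 0, nat_lit 0, nat_lit 0, nat_lit 0, nat_lit 0, nat_lit 0, nat_lit 0, nat_lit 0, false, false⟩,
 nat_lit 0, nat_lit 9132, nat_lit 0, nat_lit 0, nat_lit 4834, nat_lit 7607, nat_lit 1826, nat_lit 0, nat_lit 0, nat_lit 0, nat_lit 0, nat_lit 0, nat_lit 0, nat_lit 12867957861688, nat_lit 0, nat_lit 0, nat_lit 0, nat_lit 0, [],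
 ⟨p039_k2, nat_lit 0, nat_lit 0, nat_lit 290, nat_lit 0, nat_lit 462975, [nat_lit 4688000000, nat_lit 6250000000, nat_lit 9842000000], [], [nat_lit 33616254560, nat_lit 32977274687, nat_lit 35972139888, nat_lit 35394853940, nat_lit 31049220609, nat_lit 31190340897, nat_lit 32875820183, nat_lit 33011743762], nat_lit 1271250, nat_lit 1271250, nat_lit 780000, nat_lit 1762500, nat_lit 1271250, nat_lit 1271250, [nat_lit 1100000, nat_lit 1442500, nat_lit 1271250], [nat_lit 11, nat_lit 40, nat_lit 20, nat_lit 80, nat_lit 1, nat_lit 428, nat_lit 200, nat_lit 12]⟩, ⟨p039_k2, nat_lit 0, nat_lit 0, nat_lit 66, nat_lit 0, nat_lit 0, [nat_lit 4688000000, nat_lit 6250000000, nat_lit 9842000000], [], [nat_lit 10585061720, nat_lit 11281095171, nat_lit 17582854928, nat_lit 18118837536, nat_lit 16352616172, nat_lit 16767487537, nat_lit 20178039200, nat_lit 20497365994], nat_lit 0, nat_lit 0, nat_lit 0, nat_lit 0, nat_lit 0, nat_lit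 0, [], [nat_lit 11, nat_lit 40, nat_lit 20, nat_lit 80, nat_lit 1, nat_lit 428, nat_lit 200, nat_lit 12]⟩,
 zbF0, [⟨nat_lit 4, nat_lit 96, nat_lit 100, nat_lit 54, nat_lit 271906956⟩, ⟨nat_lit 7, nat_lit 96, nat_lit 100, nat_lit 54, nat_lit 505456856⟩]⟩
noncomputable def p039_l19 : Lf2 := ⟨nat_lit 0, nat_lit 8, [nat_lit 50, nat_lit 5, nat_lit 5, nat_lit 20], false, nat_lit 160, nat_lit 284, nat_lit 0, nat_lit 288, ⟨nat_lit 305, nat_lit 695, nat_lit 0, nat_lit 6, nat_lit 203, nat_lit 695, nat_lit 145, nat_lit 0, nat_lit 0, nat_lit 0, nat_lit 0, nat_lit 0, nat_lit 0, nat_lit 0, nat_lit 0, nat_lit 5000000, false, false⟩,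
 nat_lit 0, nat_lit 6807, nat_lit 0, nat_lit 0, nat_lit 3692, nat_lit 3087, nat_lit 1046, nat_lit 0, nat_lit 0, nat_lit 789, nat_lit 0, nat_lit 0, nat_lit 0, nat_lit 16249783093708, nat_lit 0, nat_lit 278000, nat_lit 0, nat_lit 0, [(nat_lit 6, [(nat_lit 1, nat_lit 695)])],
 ⟨p039_k8, nat_lit 0, nat_lit 0, nat_lit 321, nat_lit 0, nat_lit 547645, [nat_lit 3300965334, nat_lit 4096241334, nat_lit 5243930666], [], [nat_lit 29021776690, nat_lit 28533751516, nat_lit 31880943638, nat_lit 31440037614, nat_lit 28151970978, nat_lit 28311805963, nat_lit 30158839900, nat_lit 30290376383], nat_lit 1271250, nat_lit 1271250, nat_lit 780000, nat_lit 1762500, nat_lit 1271250, nat_lit 1271250, [nat_lit 1100000, nat_lit 1442500, nat_lit 1271250], [nat_lit 11, nat_lit 40, nat_lit 20, nat_lit 80, nat_lit 1, nat_lit 428, nat_lit 200, nat_lit 12]⟩, ⟨p039_k2, nat_lit 0, nat_lit 0, nat_lit 142, nat_lit 0, nat_lit 0, [nat_lit 1429840000,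 nat_lit 1906250000, nat_lit 3001810000], [], [nat_lit 5039980634, nat_lit 5353323858, nat_lit 6347604306, nat_lit 6583913127, nat_lit 5072853735, nat_lit 5280642013, nat_lit 6193723112, nat_lit 6422279516], nat_lit 0, nat_lit 0, nat_lit 0, nat_lit 0, nat_lit 0, nat_lit 0, [], [nat_lit 11, nat_lit 40, nat_lit 20, nat_lit 80, nat_lit 1, nat_lit 428, nat_lit 200, nat_lit 12]⟩,
 ⟨nat_lit 6123, nat_lit 6225, ⟨.ofNat (nat_lit 380076), .ofNat (nat_lit 624028), .ofNat (nat_lit 390755), .ofNat (nat_lit 634706), .ofNat (nat_lit 381933), .ofNat (nat_lit 623074), .ofNat (nat_lit 392607), .ofNat (nat_lit 633747)⟩, ⟨.ofNat (nat_lit 226471), .ofNat (nat_lit 478556), .ofNat (nat_lit 247827), .ofNat (nat_lit 499912), .ofNat (nat_lit 227485), .ofNat (nat_lit 476665), .ofNat (nat_lit 248833), .ofNat (nat_lit 498013)⟩⟩, [⟨nat_lit 4, nat_lit 98, nat_lit 100, nat_lit 54, nat_lit 198164635⟩, ⟨nat_lit 19, nat_lit 100, nat_lit 97, nat_lit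 54, nat_lit 97820590⟩]⟩
noncomputable def p039_l20 : Lf2 := ⟨nat_lit 1, nat_lit 10, [nat_lit 0, nat_lit 5, nat_lit 5, nat_lit 20], false, nat_lit 160, nat_lit 288, nat_lit 0, nat_lit 288, zbN0,
 nat_lit 0, nat_lit 0, nat_lit 0, nat_lit 0, nat_lit 0, nat_lit 0, nat_lit 0, nat_lit 0, nat_lit 0, nat_lit 0, nat_lit 0, nat_lit 0, nat_lit 0, nat_lit 0, nat_lit 0, nat_lit 0, nat_lit 0, nat_lit 0, [],
 C1.Rw.none, C1.Rw.none,
 zbF0, []⟩
noncomputable def p039_l21 : Lf2 := ⟨nat_lit 0, nat_lit 5, [nat_lit 4, nat_lit 5, nat_lit 5, nat_lit 20], true, nat_lit 160, nat_lit 240, nat_lit 0, nat_lit 288, ⟨nat_lit 0, nat_lit 1000, nat_lit 0, nat_lit 6, nat_lit 102, nat_lit 1000, nat_lit 127, nat_lit 0, nat_lit 0, nat_lit 0, nat_lit 0, nat_lit 0, nat_lit 0, nat_lit 0, nat_lit 0, nat_lit 5000000, false, false⟩,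
 nat_lit 0, nat_lit 6362, nat_lit 0, nat_lit 0, nat_lit 3534, nat_lit 0, nat_lit 0, nat_lit 0, nat_lit 0, nat_lit 0, nat_lit 0, nat_lit 0, nat_lit 0, nat_lit 26659094619444, nat_lit 0, nat_lit 400000, nat_lit 0, nat_lit 0, [(nat_lit 6, [(nat_lit 1, nat_lit 1000)])],
 ⟨p039_k6, nat_lit 0, nat_lit 0, nat_lit 250, nat_lit 0, nat_lit 365315, [nat_lit 2692266667, nat_lit 3030400001, nat_lit 3280799999], [], [nat_lit 27967192534, nat_lit 27039998158, nat_lit 23917395581, nat_lit 24306899807, nat_lit 27192558449, nat_lit 26755800563, nat_lit 28996568503, nat_lit 28163947501], nat_lit 1271250, nat_lit 1271250, nat_lit 111251, nat_lit 490000, nat_lit 1100001, nat_lit 1785000, [nat_lit 1100000, nat_lit 1442500, nat_lit 1271250], [nat_lit 9, nat_lit 40, nat_lit 20, nat_lit 80, nat_lit 2, nat_lit 317, nat_lit 100, nat_lit 10]⟩, C1.Rw.none,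
 ⟨nat_lit 5916, nat_lit 6124, ⟨.ofNat (nat_lit 180982), .ofNat (nat_lit 301553), .ofNat (nat_lit 202330), .ofNat (nat_lit 322901), .ofNat (nat_lit 189276), .ofNat (nat_lit 307076), .ofNat (nat_lit 210615), .ofNat (nat_lit 328416)⟩, ⟨.ofNat (nat_lit 227485), .ofNat (nat_lit 388246), .ofNat (nat_lit 248833), .ofNat (nat_lit 409594), .ofNat (nat_lit 229411), .ofNat (nat_lit 386479), .ofNat (nat_lit 250751), .ofNat (nat_lit 407818)⟩⟩, [⟨nat_lit 4, nat_lit 100, nat_lit 100, nat_lit 55, nat_lit 241866492⟩]⟩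
noncomputable def p039_l22 : Lf2 := ⟨nat_lit 0, nat_lit 5, [nat_lit 4, nat_lit 5, nat_lit 5, nat_lit 20], true, nat_lit 160, nat_lit 240, nat_lit 0, nat_lit 288, ⟨nat_lit 0, nat_lit 1000, nat_lit 0, nat_lit 6, nat_lit 156, nat_lit 1000, nat_lit 127, nat_lit 0, nat_lit 0, nat_lit 0, nat_lit 0, nat_lit 0, nat_lit 0, nat_lit 0, nat_lit 0, nat_lit 5000000, false, false⟩,
 nat_lit 0, nat_lit 4588, nat_lit 0, nat_lit 0, nat_lit 2548, nat_lit 0, nat_lit 1479, nat_lit 0, nat_lit 0, nat_lit 0, nat_lit 0, nat_lit 0, nat_lit 0, nat_lit 22552441635015, nat_lit 0, nat_lit 400000, nat_lit 0, nat_lit 0, [(nat_lit 6, [(nat_lit 1, nat_lit 1000)])],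
 ⟨p039_k6, nat_lit 0, nat_lit 0, nat_lit 308, nat_lit 0, nat_lit 615364, [nat_lit 2692266667, nat_lit 3030400001, nat_lit 3280799999], [], [nat_lit 23979821341, nat_lit 24170065905, nat_lit 25195954469, nat_lit 25369232045, nat_lit 26152803945, nat_lit 26320438427, nat_lit 27633222784, nat_lit 27330524753], nat_lit 1271250, nat_lit 1271250, nat_lit 490000, nat_lit 1100001, nat_lit 1100001, nat_lit 1785000, [nat_lit 1100000, nat_lit 1442500, nat_lit 1271250], [nat_lit 9, nat_lit 40, nat_lit 20, nat_lit 80, nat_lit 2, nat_lit 317, nat_lit 100, nat_lit 10]⟩, C1.Rw.none,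
 ⟨nat_lit 6020, nat_lit 6124, ⟨.ofNat (nat_lit 301553), .ofNat (nat_lit 462314), .ofNat (nat_lit 317564), .ofNat (nat_lit 478325), .ofNat (nat_lit 304325), .ofNat (nat_lit 463230), .ofNat (nat_lit 320331), .ofNat (nat_lit 479237)⟩, ⟨.ofNat (nat_lit 227485), .ofNat (nat_lit 388246), .ofNat (nat_lit 248833), .ofNat (nat_lit 409594), .ofNat (nat_lit 228465), .ofNat (nat_lit 387371), .ofNat (nat_lit 249807), .ofNat (nat_lit 408713)⟩⟩, [⟨nat_lit 4, nat_lit 99, nat_lit 100, nat_lit 55, nat_lit 350872025⟩]⟩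
noncomputable def p039_l23 : Lf2 := ⟨nat_lit 0, nat_lit 5, [nat_lit 4, nat_lit 5, nat_lit 5, nat_lit 20], false, nat_lit 160, nat_lit 240, nat_lit 0, nat_lit 288, ⟨nat_lit 151, nat_lit 849, nat_lit 0, nat_lit 6, nat_lit 158, nat_lit 849, nat_lit 127, nat_lit 0, nat_lit 0, nat_lit 0, nat_lit 0, nat_lit 0, nat_lit 0, nat_lit 0, nat_lit 0, nat_lit 5000000, false, false⟩,
 nat_lit 0, nat_lit 7801, nat_lit 0, nat_lit 0, nat_lit 4437, nat_lit 1473, nat_lit 2389, nat_lit 0, nat_lit 0, nat_lit 510, nat_lit 0, nat_lit 0, nat_lit 0, nat_lit 40070671015463, nat_lit 0, nat_lit 339600, nat_lit 0, nat_lit 0, [(nat_lit 6, [(nat_lit 1, nat_lit 849)])],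
 ⟨p039_k9, nat_lit 0, nat_lit 0, nat_lit 367, nat_lit 0, nat_lit 692518, [nat_lit 2993622400, nat_lit 3516559600, nat_lit 3982678200], [], [nat_lit 21727801137, nat_lit 21160563184, nat_lit 21742594112, nat_lit 21926365452, nat_lit 23041118259, nat_lit 23217631204, nat_lit 25277305340, nat_lit 24747429926], nat_lit 1271250, nat_lit 1271250, nat_lit 490000, nat_lit 1100001, nat_lit 1100001, nat_lit 1785000, [nat_lit 1100000, nat_lit 1442500, nat_lit 1271250], [nat_lit 9, nat_lit 40, nat_lit 20, nat_lit 80, nat_lit 2, nat_lit 317, nat_lit 100, nat_lit 10]⟩, ⟨p039_k7, nat_lit 0, nat_lit 0, nat_lit 160, nat_lit 0, nat_lit 0, [nat_lit 707888000, nat_lit 943750000, nat_lit 1486142000], [], [nat_lit 2251319380, nat_lit 2570790636, nat_lit 2186968260, nat_lit 2468418266, nat_lit 2676512556, nat_lit 2913856182, nat_lit 2587739235, nat_lit 2793482132], nat_lit 0, nat_lit 0, nat_lit 0, nat_lit 0, nat_lit 0, nat_lit 0, [],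 [nat_lit 11, nat_lit 40, nat_lit 20, nat_lit 80, nat_lit 1, nat_lit 428, nat_lit 200, nat_lit 13]⟩,
 ⟨nat_lit 5916, nat_lit 6021, ⟨.ofNat (nat_lit 304325), .ofNat (nat_lit 463230), .ofNat (nat_lit 325667), .ofNat (nat_lit 484573), .ofNat (nat_lit 307076), .ofNat (nat_lit 464143), .ofNat (nat_lit 328416), .ofNat (nat_lit 485483)⟩, ⟨.ofNat (nat_lit 228465), .ofNat (nat_lit 387371), .ofNat (nat_lit 249807), .ofNat (nat_lit 408713), .ofNat (nat_lit 229411), .ofNat (nat_lit 386479), .ofNat (nat_lit 250751), .ofNat (nat_lit 407818)⟩⟩, [⟨nat_lit 4, nat_lit 100, nat_lit 99, nat_lit 55, nat_lit 405069192⟩, ⟨nat_lit 7, nat_lit 99, nat_lit 100, nat_lit 54, nat_lit 60002266⟩]⟩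
noncomputable def p039_l24 : Lf2 := ⟨nat_lit 0, nat_lit 10, [nat_lit 0, nat_lit 5, nat_lit 5, nat_lit 20], true, nat_lit 160, nat_lit 240, nat_lit 0, nat_lit 288, ⟨nat_lit 0, nat_lit 1000, nat_lit 0, nat_lit 6, nat_lit 134, nat_lit 1000, nat_lit 127, nat_lit 0, nat_lit 0, nat_lit 0, nat_lit 0, nat_lit 0, nat_lit 0, nat_lit 0, nat_lit 0, nat_lit 5000000, false, false⟩,
 nat_lit 0, nat_lit 6138, nat_lit 0, nat_lit 0, nat_lit 3409, nat_lit 0, nat_lit 576, nat_lit 0, nat_lit 0, nat_lit 0, nat_lit 0, nat_lit 0, nat_lit 0, nat_lit 32049258758072, nat_lit 0, nat_lit 400000, nat_lit 0, nat_lit 0, [(nat_lit 6, [(nat_lit 1, nat_lit 1000)])],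
 ⟨p039_k3, nat_lit 0, nat_lit 0, nat_lit 299, nat_lit 0, nat_lit 333847, [nat_lit 2692266667, nat_lit 3151066667, nat_lit 3294533333], [], [nat_lit 27875842534, nat_lit 26981443658, nat_lit 24874289199, nat_lit 25148372041, nat_lit 26394601367, nat_lit 26670425077, nat_lit 27330806062, nat_lit 26516586866], nat_lit 1271250, nat_lit 1271250, nat_lit 111251, nat_lit 1100001, nat_lit 1100001, nat_lit 1785000, [nat_lit 1100000, nat_lit 1442500, nat_lit 1271250], [nat_lit 11, nat_lit 40, nat_lit 20, nat_lit 80, nat_lit 1, nat_lit 401, nat_lit 175, nat_lit 11]⟩, C1.Rw.none,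
 ⟨nat_lit 5916, nat_lit 6124, ⟨.ofNat (nat_lit 180982), .ofNat (nat_lit 462314), .ofNat (nat_lit 202330), .ofNat (nat_lit 483662), .ofNat (nat_lit 189276), .ofNat (nat_lit 464143), .ofNat (nat_lit 210615), .ofNat (nat_lit 485483)⟩, ⟨.ofNat (nat_lit 227485), .ofNat (nat_lit 388246), .ofNat (nat_lit 248833), .ofNat (nat_lit 409594), .ofNat (nat_lit 229411), .ofNat (nat_lit 386479), .ofNat (nat_lit 250751), .ofNat (nat_lit 407818)⟩⟩, [⟨nat_lit 4, nat_lit 100, nat_lit 100, nat_lit 55, nat_lit 95447064⟩]⟩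
noncomputable def p039_l25 : Lf2 := ⟨nat_lit 0, nat_lit 10, [nat_lit 0, nat_lit 5, nat_lit 5, nat_lit 20], true, nat_lit 240, nat_lit 280, nat_lit 0, nat_lit 288, ⟨nat_lit 0, nat_lit 1000, nat_lit 0, nat_lit 6, nat_lit 134, nat_lit 1000, nat_lit 175, nat_lit 0, nat_lit 0, nat_lit 0, nat_lit 0, nat_lit 0, nat_lit 0, nat_lit 0, nat_lit 0, nat_lit 5000000, false, false⟩,
 nat_lit 0, nat_lit 11623, nat_lit 0, nat_lit 0, nat_lit 6457, nat_lit 0, nat_lit 2705, nat_lit 0, nat_lit 0, nat_lit 0, nat_lit 0, nat_lit 0, nat_lit 0, nat_lit 31799692343436, nat_lit 0, nat_lit 400000, nat_lit 0, nat_lit 0, [(nat_lit 6, [(nat_lit 1, nat_lit 1000)])],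
 ⟨p039_k3, nat_lit 0, nat_lit 0, nat_lit 488, nat_lit 0, nat_lit 742849, [nat_lit 2692266667, nat_lit 3151066667, nat_lit 3294533333], [], [nat_lit 16701701208, nat_lit 16549972406, nat_lit 16059380107, nat_lit 15196585766, nat_lit 19598850856, nat_lit 20447860730, nat_lit 16977806986, nat_lit 17704840588], nat_lit 1271250, nat_lit 1271250, nat_lit 111251, nat_lit 1100001, nat_lit 1271250, nat_lit 1271250, [nat_lit 1100000, nat_lit 1442500, nat_lit 1271250], [nat_lit 11, nat_lit 40, nat_lit 20, nat_lit 80, nat_lit 1, nat_lit 401, nat_lit 175, nat_lit 11]⟩, C1.Rw.none,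
 ⟨nat_lit 5916, nat_lit 6124, ⟨.ofNat (nat_lit 180982), .ofNat (nat_lit 462314), .ofNat (nat_lit 202330), .ofNat (nat_lit 483662), .ofNat (nat_lit 189276), .ofNat (nat_lit 464143), .ofNat (nat_lit 210615), .ofNat (nat_lit 485483)⟩, ⟨.ofNat (nat_lit 388246), .ofNat (nat_lit 468627), .ofNat (nat_lit 409594), .ofNat (nat_lit 489975), .ofNat (nat_lit 386479), .ofNat (nat_lit 465012), .ofNat (nat_lit 407818), .ofNat (nat_lit 486351)⟩⟩, [⟨nat_lit 0, nat_lit 100, nat_lit 100, nat_lit 60, nat_lit 20614377⟩, ⟨nat_lit 4, nat_lit 100, nat_lit 100, nat_lit 55, nat_lit 1707508685⟩]⟩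
noncomputable def p039_l26 : Lf2 := ⟨nat_lit 0, nat_lit 10, [nat_lit 0, nat_lit 5, nat_lit 5, nat_lit 20], false, nat_lit 160, nat_lit 280, nat_lit 0, nat_lit 288, ⟨nat_lit 1000, nat_lit 0, nat_lit 0, nat_lit 0, nat_lit 0, nat_lit 0, nat_lit 0, nat_lit 0, nat_lit 0, nat_lit 0, nat_lit 0, nat_lit 0, nat_lit 0, nat_lit 0, nat_lit 0, nat_lit 0, false, false⟩,
 nat_lit 0, nat_lit 10620, nat_lit 0, nat_lit 0, nat_lit 5899, nat_lit 18782, nat_lit 1810, nat_lit 0, nat_lit 0, nat_lit 1536, nat_lit 0, nat_lit 0, nat_lit 0, nat_lit 24759392835213, nat_lit 0, nat_lit 0, nat_lit 0, nat_lit 0, [],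
 ⟨p039_k3, nat_lit 0, nat_lit 0, nat_lit 347, nat_lit 0, nat_lit 638764, [nat_lit 4688000000, nat_lit 6250000000, nat_lit 9842000000], [], [nat_lit 32117631429, nat_lit 31337875064, nat_lit 29769232731, nat_lit 29054925771, nat_lit 26796980205, nat_lit 26937488465, nat_lit 28225558712, nat_lit 28370104612], nat_lit 1271250, nat_lit 1271250, nat_lit 1100001, nat_lit 1785000, nat_lit 1271250, nat_lit 1271250, [nat_lit 1100000, nat_lit 1442500, nat_lit 1271250], [nat_lit 11, nat_lit 40, nat_lit 20, nat_lit 80, nat_lit 1, nat_lit 428, nat_lit 200, nat_lit 12]⟩, ⟨p039_k4, nat_lit 0, nat_lit 0, nat_lit 187, nat_lit 0, nat_lit 0, [nat_lit 4688000000, nat_lit 6250000000, nat_lit 11872000000], [], [nat_lit 26403749560, nat_lit 28256475862, nat_lit 30106231352, nat_lit 31556968031, nat_lit 16169101287, nat_lit 18019592463, nat_lit 20752496780, nat_lit 22448573620], nat_lit 0, nat_lit 0, nat_lit 0, nat_lit 0, nat_lit 0, nat_lit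 0, [], [nat_lit 48, nat_lit 40, nat_lit 20, nat_lit 80, nat_lit 12, nat_lit 428, nat_lit 200, nat_lit 11]⟩,
 zbF0, [⟨nat_lit 4, nat_lit 99, nat_lit 100, nat_lit 55, nat_lit 45257109⟩]⟩
noncomputable def p039_l27 : Lf2 := ⟨nat_lit 0, nat_lit 10, [nat_lit 0, nat_lit 5, nat_lit 5, nat_lit 20], false, nat_lit 160, nat_lit 272, nat_lit 0, nat_lit 288, ⟨nat_lit 1000, nat_lit 0, nat_lit 0, nat_lit 0, nat_lit 0, nat_lit 0, nat_lit 0, nat_lit 0, nat_lit 0, nat_lit 0, nat_lit 0, nat_lit 0, nat_lit 0, nat_lit 0, nat_lit 0, nat_lit 0, false, false⟩,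
 nat_lit 0, nat_lit 11412, nat_lit 0, nat_lit 0, nat_lit 6490, nat_lit 12661, nat_lit 1701, nat_lit 0, nat_lit 0, nat_lit 2159, nat_lit 0, nat_lit 0, nat_lit 0, nat_lit 8427285194851, nat_lit 0, nat_lit 0, nat_lit 0, nat_lit 0, [],
 ⟨p039_k5, nat_lit 0, nat_lit 0, nat_lit 380, nat_lit 0, nat_lit 718438, [nat_lit 4688000000, nat_lit 6250000000, nat_lit 9842000000], [], [nat_lit 32004101385, nat_lit 31146223980, nat_lit 28602975955, nat_lit 27817105100, nat_lit 26264485170, nat_lit 26384169777, nat_lit 27366648056, nat_lit 27489878429], nat_lit 1271250, nat_lit 1271250, nat_lit 1100001, nat_lit 1785000, nat_lit 1271250, nat_lit 1271250, [nat_lit 1100000, nat_lit 1442500, nat_lit 1271250], [nat_lit 11, nat_lit 40, nat_lit 20, nat_lit 80, nat_lit 1, nat_lit 428, nat_lit 200, nat_lit 12]⟩, ⟨p039_k4, nat_lit 0, nat_lit 0, nat_lit 188, nat_lit 0, nat_lit 0, [nat_lit 4688000000, nat_lit 6250000000, nat_lit 11872000000],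 [], [nat_lit 22362828005, nat_lit 24232365833, nat_lit 25569166021, nat_lit 27063712227, nat_lit 17544437173, nat_lit 18554551812, nat_lit 20437843102, nat_lit 22160231799], nat_lit 0, nat_lit 0, nat_lit 0, nat_lit 0, nat_lit 0, nat_lit 0, [], [nat_lit 48, nat_lit 40, nat_lit 20, nat_lit 80, nat_lit 12, nat_lit 428, nat_lit 200, nat_lit 11]⟩,
 zbF0, [⟨nat_lit 7, nat_lit 99, nat_lit 100, nat_lit 54, nat_lit 146521194⟩]⟩
noncomputable def b_VL_600_600_5_83 : St := ⟨true, nat_lit 1, nat_lit 0, nat_lit 2, nat_lit 40, nat_lit 240, nat_lit 260, nat_lit 240, nat_lit 260, nat_lit 16, nat_lit 240, nat_lit 20, nat_lit 40, nat_lit 0, nat_lit 288, nat_lit 0, nat_lit 288, nat_lit 0, nat_lit 40, nat_lit 0, nat_lit 0, nat_lit 0, nat_lit 0⟩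
theorem d_VL_600_600_5_83 (h : EB TB.env) : Dead b_VL_600_600_5_83 := chkB_sound0 h (T :=
(.spl (nat_lit 4) (nat_lit 160)
(.spl (nat_lit 2) (nat_lit 160)
(.spl (nat_lit 0) (nat_lit 250)
(.ord (.spl (nat_lit 6) (nat_lit 32)
(.spl (nat_lit 2) (nat_lit 80)
(.leaf p039_l2)
(.spl (nat_lit 4) (nat_lit 80)
(.leaf p039_l3)
(.leaf p039_l4)))
(.leaf p039_l5)))
(.trZ (nat_lit 0) (nat_lit 100) (nat_lit 99) (nat_lit 45) (nat_lit 20) (.spl (nat_lit 4) (nat_lit 80)
(.spl (nat_lit 2) (nat_lit 80)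
(.leaf p039_l6)
(.spl (nat_lit 0) (nat_lit 255)
(.ord (.leaf p039_l7))
(.leaf p039_l8)))
(.spl (nat_lit 6) (nat_lit 20)
(.spl (nat_lit 2) (nat_lit 80)
(.leaf p039_l9)
(.spl (nat_lit 1) (nat_lit 250)
(.leaf p039_l10)
(.trX (nat_lit 19) (nat_lit 100) (nat_lit 95) (nat_lit 62) (nat_lit 280) (.leaf p039_l11))))
(.spl (nat_lit 0) (nat_lit 255)
(.ord (.leaf p039_l12))
(.leaf p039_l13))))))
(.spl (nat_lit 0) (nat_lit 250)
(.ord (.leaf p039_l14))
(.leaf p039_l15)))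
(.spl (nat_lit 0) (nat_lit 250)
(.ord (.spl (nat_lit 6) (nat_lit 32)
(.spl (nat_lit 2) (nat_lit 120)
(.spl (nat_lit 2) (nat_lit 80)
(.leaf p039_l16)
(.leaf p039_l17))
(.spl (nat_lit 0) (nat_lit 245)
(.ord (.leaf p039_l18))
(.trX (nat_lit 16) (nat_lit 100) (nat_lit 94) (nat_lit 62) (nat_lit 284) (.leaf p039_l19))))
(.leaf p039_l20)))
(.trZ (nat_lit 0) (nat_lit 100) (nat_lit 99) (nat_lit 45) (nat_lit 20) (.trX (nat_lit 16) (nat_lit 100) (nat_lit 95) (nat_lit 62) (nat_lit 280) (.spl (nat_lit 2) (nat_lit 160)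
(.spl (nat_lit 4) (nat_lit 240)
(.spl (nat_lit 6) (nat_lit 20)
(.spl (nat_lit 2) (nat_lit 80)
(.leaf p039_l21)
(.spl (nat_lit 0) (nat_lit 255)
(.ord (.leaf p039_l22))
(.leaf p039_l23)))
(.leaf p039_l24))
(.leaf p039_l25))
(.spl (nat_lit 0) (nat_lit 255)
(.ord (.leaf p039_l26))
(.trX (nat_lit 16) (nat_lit 100) (nat_lit 97) (nat_lit 62) (nat_lit 272) (.leaf p039_l27))))))))) (by decide +kernel)
noncomputable def p039_l28 : Lf2 := ⟨nat_lit 0, nat_lit 10, [nat_lit 0, nat_lit 5, nat_lit 5, nat_lit 20], false, nat_lit 0, nat_lit 288, nat_lit 0, nat_lit 288, ⟨nat_lit 1000, nat_lit 0, nat_lit 0, nat_lit 0, nat_lit 0, nat_lit 0, nat_lit 0, nat_lit 0, nat_lit 0, nat_lit 0, nat_lit 0, nat_lit 0, nat_lit 0, nat_lit 0, nat_lit 0, nat_lit 0, false, false⟩,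
 nat_lit 0, nat_lit 14052, nat_lit 0, nat_lit 0, nat_lit 7439, nat_lit 7656, nat_lit 1902, nat_lit 0, nat_lit 0, nat_lit 2231, nat_lit 0, nat_lit 0, nat_lit 0, nat_lit 11075612548285, nat_lit 0, nat_lit 0, nat_lit 0, nat_lit 0, [],
 ⟨p039_k4, nat_lit 0, nat_lit 0, nat_lit 514, nat_lit 0, nat_lit 575568, [nat_lit 4688000000, nat_lit 6250000000, nat_lit 11872000000], [], [nat_lit 29112824074, nat_lit 29377271973, nat_lit 37441012688, nat_lit 37951739122, nat_lit 27714417361, nat_lit 27929702621, nat_lit 32786208627, nat_lit 32914393280], nat_lit 1271250, nat_lit 1271250, nat_lit 1271250, nat_lit 1271250, nat_lit 0, nat_lit 2034000, [nat_lit 1100000, nat_lit 1442500, nat_lit 1271250], [nat_lit 48, nat_lit 40, nat_lit 20, nat_lit 80, nat_lit 12, nat_lit 483, nat_lit 250, nat_lit 12]⟩, ⟨p039_k4, nat_lit 0, nat_lit 0, nat_lit 239, nat_lit 0, nat_lit 0, [nat_lit 4688000000, nat_lit 6250000000, nat_lit 11872000000], [],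 [nat_lit 23954792841, nat_lit 24522271329, nat_lit 37984335552, nat_lit 38501182688, nat_lit 22134184560, nat_lit 22467903594, nat_lit 32824907892, nat_lit 33141516473], nat_lit 0, nat_lit 0, nat_lit 0, nat_lit 0, nat_lit 0, nat_lit 0, [], [nat_lit 48, nat_lit 40, nat_lit 20, nat_lit 80, nat_lit 12, nat_lit 483, nat_lit 250, nat_lit 12]⟩,
 zbF0, [⟨nat_lit 4, nat_lit 97, nat_lit 100, nat_lit 54, nat_lit 167081074⟩, ⟨nat_lit 19, nat_lit 100, nat_lit 97, nat_lit 54, nat_lit 156737040⟩]⟩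
noncomputable def p039_l29 : Lf2 := ⟨nat_lit 0, nat_lit 10, [nat_lit 0, nat_lit 5, nat_lit 5, nat_lit 20], false, nat_lit 0, nat_lit 280, nat_lit 0, nat_lit 288, ⟨nat_lit 1000, nat_lit 0, nat_lit 0, nat_lit 0, nat_lit 0, nat_lit 0, nat_lit 0, nat_lit 0, nat_lit 0, nat_lit 0, nat_lit 0, nat_lit 0, nat_lit 0, nat_lit 0, nat_lit 0, nat_lit 0, false, false⟩,
 nat_lit 0, nat_lit 12910, nat_lit 0, nat_lit 0, nat_lit 7172, nat_lit 7527, nat_lit 2440, nat_lit 0, nat_lit 0, nat_lit 2191, nat_lit 0, nat_lit 0, nat_lit 0, nat_lit 0, nat_lit 0, nat_lit 0, nat_lit 0, nat_lit 0, [],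
 ⟨p039_k3, nat_lit 0, nat_lit 0, nat_lit 515, nat_lit 0, nat_lit 742849, [nat_lit 4688000000, nat_lit 6250000000, nat_lit 9842000000], [], [nat_lit 29169597372, nat_lit 29450122472, nat_lit 37275695656, nat_lit 37778891088, nat_lit 27424084994, nat_lit 27580035516, nat_lit 32304836144, nat_lit 32627248568], nat_lit 1271250, nat_lit 1271250, nat_lit 1271250, nat_lit 1271250, nat_lit 0, nat_lit 1977500, [nat_lit 1100000, nat_lit 1442500, nat_lit 1271250], [nat_lit 11, nat_lit 40, nat_lit 20, nat_lit 80, nat_lit 1, nat_lit 483, nat_lit 250, nat_lit 14]⟩, ⟨p039_k4, nat_lit 0, nat_lit 0, nat_lit 239, nat_lit 0, nat_lit 0, [nat_lit 4688000000, nat_lit 6250000000, nat_lit 11872000000], [], [nat_lit 24113698797, nat_lit 25239387639, nat_lit 37661346384, nat_lit 38687763508, nat_lit 22425492710, nat_lit 23087147384, nat_lit 32690407951, nat_lit 33321489698], nat_lit 0, nat_lit 0, nat_lit 0, nat_lit 0, nat_lit 0, nat_lit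 0, [], [nat_lit 48, nat_lit 40, nat_lit 20, nat_lit 80, nat_lit 12, nat_lit 483, nat_lit 250, nat_lit 12]⟩,
 zbF0, [⟨nat_lit 16, nat_lit 100, nat_lit 100, nat_lit 55, nat_lit 152275171⟩, ⟨nat_lit 7, nat_lit 99, nat_lit 100, nat_lit 54, nat_lit 156516616⟩]⟩
noncomputable def b_VL_600_600_5_84 : St := ⟨true, nat_lit 1, nat_lit 0, nat_lit 2, nat_lit 40, nat_lit 240, nat_lit 260, nat_lit 240, nat_lit 260, nat_lit 240, nat_lit 400, nat_lit 20, nat_lit 40, nat_lit 0, nat_lit 288, nat_lit 0, nat_lit 288, nat_lit 0, nat_lit 40, nat_lit 0, nat_lit 0, nat_lit 0, nat_lit 0⟩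
theorem d_VL_600_600_5_84 (h : EB TB.env) : Dead b_VL_600_600_5_84 := chkB_sound0 h (T :=
(.spl (nat_lit 0) (nat_lit 250)
(.ord (.leaf p039_l28))
(.trX (nat_lit 16) (nat_lit 100) (nat_lit 95) (nat_lit 62) (nat_lit 280) (.leaf p039_l29)))) (by decide +kernel)
noncomputable def p039_l30 : Lf2 := ⟨nat_lit 0, nat_lit 10, [nat_lit 0, nat_lit 5, nat_lit 5, nat_lit 20], true, nat_lit 0, nat_lit 80, nat_lit 0, nat_lit 288, ⟨nat_lit 0, nat_lit 1000, nat_lit 0, nat_lit 6, nat_lit 109, nat_lit 1000, nat_lit 17, nat_lit 0, nat_lit 0, nat_lit 0, nat_lit 0, nat_lit 0, nat_lit 0, nat_lit 0, nat_lit 0, nat_lit 5000000, false, false⟩,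
 nat_lit 0, nat_lit 5179, nat_lit 0, nat_lit 0, nat_lit 3014, nat_lit 0, nat_lit 0, nat_lit 0, nat_lit 0, nat_lit 0, nat_lit 0, nat_lit 0, nat_lit 0, nat_lit 23549442459396, nat_lit 0, nat_lit 907600, nat_lit 0, nat_lit 0, [(nat_lit 9, [(nat_lit 1, nat_lit 154), (nat_lit 2, nat_lit 846)])],
 ⟨p039_k10, nat_lit 0, nat_lit 0, nat_lit 488, nat_lit 0, nat_lit 470394, [nat_lit 2669511680, nat_lit 2713020801, nat_lit 738943999], [], [nat_lit 29105239164, nat_lit 28369448203, nat_lit 27833142449, nat_lit 28155272321, nat_lit 27418850595, nat_lit 27737642129, nat_lit 28425584220, nat_lit 27715476778], nat_lit 1271250, nat_lit 1271250, nat_lit 134400, nat_lit 490000, nat_lit 0, nat_lit 490000, [nat_lit 1100000, nat_lit 1442500, nat_lit 1271250], [nat_lit 11, nat_lit 40, nat_lit 20, nat_lit 80, nat_lit 1, nat_lit 345, nat_lit 125, nat_lit 10]⟩, C1.Rw.none,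
 ⟨nat_lit 5700, nat_lit 5917, ⟨.ofNat (nat_lit 197129), .ofNat (nat_lit 307076), .ofNat (nat_lit 229138), .ofNat (nat_lit 339085), .ofNat (nat_lit 205119), .ofNat (nat_lit 312525), .ofNat (nat_lit 237132), .ofNat (nat_lit 344538)⟩, ⟨.negSucc (nat_lit 84722), .ofNat (nat_lit 72344), .negSucc (nat_lit 63383), .ofNat (nat_lit 93684), .negSucc (nat_lit 75673), .ofNat (nat_lit 77764), .negSucc (nat_lit 54331), .ofNat (nat_lit 99106)⟩⟩, []⟩
noncomputable def p039_l31 : Lf2 := ⟨nat_lit 0, nat_lit 10, [nat_lit 0, nat_lit 5, nat_lit 5, nat_lit 20], false, nat_lit 0, nat_lit 80, nat_lit 0, nat_lit 160, ⟨nat_lit 1000, nat_lit 0, nat_lit 0, nat_lit 0, nat_lit 0, nat_lit 0, nat_lit 0, nat_lit 0, nat_lit 0, nat_lit 0, nat_lit 0, nat_lit 0, nat_lit 0, nat_lit 0, nat_lit 0, nat_lit 0, false, false⟩,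
 nat_lit 0, nat_lit 15017, nat_lit 0, nat_lit 0, nat_lit 8741, nat_lit 8821, nat_lit 1764, nat_lit 0, nat_lit 0, nat_lit 3707, nat_lit 0, nat_lit 0, nat_lit 0, nat_lit 34762582247942, nat_lit 0, nat_lit 0, nat_lit 0, nat_lit 0, [],
 ⟨p039_k10, nat_lit 0, nat_lit 0, nat_lit 646, nat_lit 0, nat_lit 896947, [nat_lit 4688000000, nat_lit 6250000000, nat_lit 9842000000], [], [nat_lit 24551618750, nat_lit 22310365981, nat_lit 24040975754, nat_lit 21924089115, nat_lit 19365256790, nat_lit 19004295560, nat_lit 26429809214, nat_lit 24370403391], nat_lit 1271250, nat_lit 1271250, nat_lit 490000, nat_lit 1100001, nat_lit 0, nat_lit 490000, [nat_lit 1100000, nat_lit 1442500, nat_lit 1271250], [nat_lit 11, nat_lit 40, nat_lit 20, nat_lit 80, nat_lit 1, nat_lit 373, nat_lit 150, nat_lit 11]⟩, ⟨p039_k4, nat_lit 0, nat_lit 0, nat_lit 216, nat_lit 0, nat_lit 0, [nat_lit 4688000000, nat_lit 6250000000, nat_lit 11872000000], [], [nat_lit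 15086929529, nat_lit 17614717592, nat_lit 14742255832, nat_lit 17937714863, nat_lit 10348849068, nat_lit 12928362024, nat_lit 11001093932, nat_lit 13252590299], nat_lit 0, nat_lit 0, nat_lit 0, nat_lit 0, nat_lit 0, nat_lit 0, [], [nat_lit 48, nat_lit 40, nat_lit 20, nat_lit 80, nat_lit 12, nat_lit 373, nat_lit 150, nat_lit 10]⟩,
 zbF0, []⟩
noncomputable def p039_l32 : Lf2 := ⟨nat_lit 0, nat_lit 10, [nat_lit 0, nat_lit 5, nat_lit 5, nat_lit 20], false, nat_lit 0, nat_lit 80, nat_lit 160, nat_lit 288, ⟨nat_lit 1000, nat_lit 0, nat_lit 0, nat_lit 0, nat_lit 0, nat_lit 0, nat_lit 0, nat_lit 0, nat_lit 0, nat_lit 0, nat_lit 0, nat_lit 0, nat_lit 0, nat_lit 0, nat_lit 0, nat_lit 0, false, false⟩,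
 nat_lit 0, nat_lit 13171, nat_lit 0, nat_lit 0, nat_lit 7666, nat_lit 25400, nat_lit 2795, nat_lit 0, nat_lit 0, nat_lit 0, nat_lit 0, nat_lit 0, nat_lit 0, nat_lit 23466688012172, nat_lit 0, nat_lit 0, nat_lit 0, nat_lit 7675298400, [],
 ⟨p039_k10, nat_lit 0, nat_lit 0, nat_lit 646, nat_lit 0, nat_lit 896947, [nat_lit 4688000000, nat_lit 6250000000, nat_lit 9842000000], [], [nat_lit 25721487500, nat_lit 23756845837, nat_lit 24021998454, nat_lit 23778689058, nat_lit 20863512296, nat_lit 21284362944, nat_lit 26358092414, nat_lit 24551959816], nat_lit 1271250, nat_lit 1271250, nat_lit 490000, nat_lit 1100001, nat_lit 0, nat_lit 490000, [nat_lit 1100000, nat_lit 1442500, nat_lit 1271250], [nat_lit 11, nat_lit 40, nat_lit 20, nat_lit 80, nat_lit 1, nat_lit 373, nat_lit 150, nat_lit 11]⟩, ⟨p039_k4, nat_lit 0, nat_lit 0, nat_lit 35, nat_lit 0, nat_lit 0, [nat_lit 4688000000, nat_lit 6250000000, nat_lit 11872000000],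 [], [nat_lit 1015623200, nat_lit 10708817000, nat_lit 0, nat_lit 8423191800, nat_lit 27591009120, nat_lit 33922242001, nat_lit 22959386241, nat_lit 28435570761], nat_lit 0, nat_lit 0, nat_lit 0, nat_lit 0, nat_lit 0, nat_lit 0, [], [nat_lit 48, nat_lit 40, nat_lit 20, nat_lit 80, nat_lit 12, nat_lit 428, nat_lit 200, nat_lit 11]⟩,
 zbF0, [⟨nat_lit 7, nat_lit 100, nat_lit 100, nat_lit 55, nat_lit 2042710214⟩]⟩
noncomputable def p039_l33 : Lf2 := ⟨nat_lit 0, nat_lit 10, [nat_lit 0, nat_lit 5, nat_lit 5, nat_lit 20], true, nat_lit 80, nat_lit 160, nat_lit 0, nat_lit 288, ⟨nat_lit 0, nat_lit 1000, nat_lit 0, nat_lit 6, nat_lit 109, nat_lit 1000, nat_lit 65, nat_lit 0, nat_lit 0, nat_lit 0, nat_lit 0, nat_lit 0, nat_lit 0, nat_lit 0, nat_lit 0, nat_lit 5000000, false, false⟩,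
 nat_lit 0, nat_lit 8461, nat_lit 0, nat_lit 0, nat_lit 4925, nat_lit 0, nat_lit 1193, nat_lit 0, nat_lit 0, nat_lit 0, nat_lit 0, nat_lit 0, nat_lit 0, nat_lit 29161126550204, nat_lit 0, nat_lit 400000, nat_lit 0, nat_lit 0, [(nat_lit 9, [(nat_lit 1, nat_lit 1000)])],
 ⟨p039_k10, nat_lit 0, nat_lit 0, nat_lit 425, nat_lit 0, nat_lit 470394, [nat_lit 2702720000, nat_lit 2968400001, nat_lit 2997199999], [], [nat_lit 25752945802, nat_lit 24462748477, nat_lit 19588386502, nat_lit 18395654927, nat_lit 22768544212, nat_lit 21585712872, nat_lit 24634030702, nat_lit 23473685927], nat_lit 1271250, nat_lit 1271250, nat_lit 134400, nat_lit 490000, nat_lit 490000, nat_lit 1100001, [nat_lit 1100000, nat_lit 1442500, nat_lit 1271250], [nat_lit 11, nat_lit 40, nat_lit 20, nat_lit 80, nat_lit 1, nat_lit 373, nat_lit 150, nat_lit 11]⟩, C1.Rw.none,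
 ⟨nat_lit 5700, nat_lit 5917, ⟨.ofNat (nat_lit 197129), .ofNat (nat_lit 307076), .ofNat (nat_lit 229138), .ofNat (nat_lit 339085), .ofNat (nat_lit 205119), .ofNat (nat_lit 312525), .ofNat (nat_lit 237132), .ofNat (nat_lit 344538)⟩, ⟨.ofNat (nat_lit 72344), .ofNat (nat_lit 229411), .ofNat (nat_lit 93684), .ofNat (nat_lit 250751), .ofNat (nat_lit 77764), .ofNat (nat_lit 231202), .ofNat (nat_lit 99106), .ofNat (nat_lit 252544)⟩⟩, []⟩
noncomputable def p039_l34 : Lf2 := ⟨nat_lit 0, nat_lit 10, [nat_lit 0, nat_lit 5, nat_lit 5, nat_lit 20], false, nat_lit 80, nat_lit 160, nat_lit 0, nat_lit 160, ⟨nat_lit 671, nat_lit 329, nat_lit 0, nat_lit 6, nat_lit 161, nat_lit 329, nat_lit 65, nat_lit 0, nat_lit 0, nat_lit 0, nat_lit 0, nat_lit 0, nat_lit 0, nat_lit 0, nat_lit 0, nat_lit 5000000, false, false⟩,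
 nat_lit 0, nat_lit 10944, nat_lit 0, nat_lit 0, nat_lit 6370, nat_lit 5919, nat_lit 1346, nat_lit 0, nat_lit 0, nat_lit 2487, nat_lit 0, nat_lit 0, nat_lit 0, nat_lit 29954846600150, nat_lit 0, nat_lit 131600, nat_lit 0, nat_lit 0, [(nat_lit 9, [(nat_lit 1, nat_lit 329)])],
 ⟨p039_k10, nat_lit 0, nat_lit 0, nat_lit 589, nat_lit 0, nat_lit 896947, [nat_lit 4034842881, nat_lit 5170353601, nat_lit 7552160000], [], [nat_lit 27743935052, nat_lit 26085257122, nat_lit 23844431873, nat_lit 23993022885, nat_lit 23844431873, nat_lit 23993022885, nat_lit 29819798613, nat_lit 28339085743], nat_lit 1271250, nat_lit 1271250, nat_lit 490000, nat_lit 1100001, nat_lit 490000, nat_lit 1100001, [nat_lit 1100000, nat_lit 1442500, nat_lit 1271250], [nat_lit 11, nat_lit 40, nat_lit 20, nat_lit 80, nat_lit 1, nat_lit 373, nat_lit 150, nat_lit 11]⟩, ⟨p039_k4, nat_lit 0, nat_lit 0, nat_lit 216, nat_lit 0, nat_lit 0, [nat_lit 3145648000,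 nat_lit 4193750000, nat_lit 7966112000], [], [nat_lit 10125283337, nat_lit 11821196705, nat_lit 9891879088, nat_lit 12036158430, nat_lit 6943831440, nat_lit 8674704846, nat_lit 7381472700, nat_lit 8892243573], nat_lit 0, nat_lit 0, nat_lit 0, nat_lit 0, nat_lit 0, nat_lit 0, [], [nat_lit 48, nat_lit 40, nat_lit 20, nat_lit 80, nat_lit 12, nat_lit 373, nat_lit 150, nat_lit 10]⟩,
 ⟨nat_lit 5700, nat_lit 5917, ⟨.ofNat (nat_lit 307076), .ofNat (nat_lit 464143), .ofNat (nat_lit 339085), .ofNat (nat_lit 496151), .ofNat (nat_lit 312525), .ofNat (nat_lit 465963), .ofNat (nat_lit 344538), .ofNat (nat_lit 497975)⟩, ⟨.ofNat (nat_lit 72344), .ofNat (nat_lit 229411), .ofNat (nat_lit 93684), .ofNat (nat_lit 250751), .ofNat (nat_lit 77764), .ofNat (nat_lit 231202), .ofNat (nat_lit 99106), .ofNat (nat_lit 252544)⟩⟩, []⟩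
noncomputable def p039_l35 : Lf2 := ⟨nat_lit 0, nat_lit 10, [nat_lit 0, nat_lit 5, nat_lit 5, nat_lit 20], false, nat_lit 80, nat_lit 160, nat_lit 160, nat_lit 288, ⟨nat_lit 1000, nat_lit 0, nat_lit 0, nat_lit 0, nat_lit 0, nat_lit 0, nat_lit 0, nat_lit 0, nat_lit 0, nat_lit 0, nat_lit 0, nat_lit 0, nat_lit 0, nat_lit 0, nat_lit 0, nat_lit 0, false, false⟩,
 nat_lit 0, nat_lit 11404, nat_lit 0, nat_lit 0, nat_lit 6638, nat_lit 8543, nat_lit 3302, nat_lit 0, nat_lit 0, nat_lit 0, nat_lit 0, nat_lit 0, nat_lit 0, nat_lit 4158861478841, nat_lit 0, nat_lit 0, nat_lit 0, nat_lit 0, [],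
 ⟨p039_k10, nat_lit 0, nat_lit 0, nat_lit 589, nat_lit 0, nat_lit 896947, [nat_lit 4688000000, nat_lit 6250000000, nat_lit 9842000000], [], [nat_lit 27842343118, nat_lit 26113880936, nat_lit 24089895674, nat_lit 23459290412, nat_lit 24089895674, nat_lit 23459290412, nat_lit 30214002950, nat_lit 28670993212], nat_lit 1271250, nat_lit 1271250, nat_lit 490000, nat_lit 1100001, nat_lit 490000, nat_lit 1100001, [nat_lit 1100000, nat_lit 1442500, nat_lit 1271250], [nat_lit 11, nat_lit 40, nat_lit 20, nat_lit 80, nat_lit 1, nat_lit 373, nat_lit 150, nat_lit 11]⟩, ⟨p039_k4, nat_lit 0, nat_lit 0, nat_lit 35, nat_lit 0, nat_lit 0, [nat_lit 4688000000, nat_lit 6250000000, nat_lit 11872000000], [], [nat_lit 5790832900, nat_lit 9168611161, nat_lit 6970159064, nat_lit 9930824912, nat_lit 17043669003, nat_lit 19861410859, nat_lit 16769432281, nat_lit 19261745746], nat_lit 0, nat_lit 0, nat_lit 0, nat_lit 0, nat_lit 0, nat_lit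 0, [], [nat_lit 48, nat_lit 40, nat_lit 20, nat_lit 80, nat_lit 12, nat_lit 428, nat_lit 200, nat_lit 11]⟩,
 zbF0, [⟨nat_lit 19, nat_lit 100, nat_lit 100, nat_lit 55, nat_lit 1153449309⟩]⟩
noncomputable def p039_l36 : Lf2 := ⟨nat_lit 0, nat_lit 10, [nat_lit 0, nat_lit 5, nat_lit 5, nat_lit 20], true, nat_lit 0, nat_lit 160, nat_lit 0, nat_lit 288, ⟨nat_lit 0, nat_lit 1000, nat_lit 0, nat_lit 6, nat_lit 115, nat_lit 1000, nat_lit 49, nat_lit 0, nat_lit 0, nat_lit 0, nat_lit 0, nat_lit 0, nat_lit 0, nat_lit 0, nat_lit 0, nat_lit 5000000, false, false⟩,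
 nat_lit 0, nat_lit 5736, nat_lit 0, nat_lit 0, nat_lit 3493, nat_lit 0, nat_lit 633, nat_lit 0, nat_lit 0, nat_lit 0, nat_lit 0, nat_lit 0, nat_lit 0, nat_lit 25238001457945, nat_lit 0, nat_lit 400000, nat_lit 0, nat_lit 0, [(nat_lit 9, [(nat_lit 1, nat_lit 1000)])],
 ⟨p039_k11, nat_lit 0, nat_lit 0, nat_lit 511, nat_lit 0, nat_lit 541166, [nat_lit 2702720000, nat_lit 2968400001, nat_lit 2997199999], [], [nat_lit 28100214946, nat_lit 27186536964, nat_lit 25346936356, nat_lit 25680489420, nat_lit 25392474163, nat_lit 25690545269, nat_lit 26387572195, nat_lit 25564610916], nat_lit 1271250, nat_lit 1271250, nat_lit 157850, nat_lit 490000, nat_lit 0, nat_lit 1100001, [nat_lit 1100000, nat_lit 1442500, nat_lit 1271250], [nat_lit 11, nat_lit 40, nat_lit 20, nat_lit 80, nat_lit 1, nat_lit 373, nat_lit 150, nat_lit 11]⟩, C1.Rw.none,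
 ⟨nat_lit 5477, nat_lit 5701, ⟨.ofNat (nat_lit 212791), .ofNat (nat_lit 312525), .ofNat (nat_lit 255475), .ofNat (nat_lit 355209), .ofNat (nat_lit 220501), .ofNat (nat_lit 317913), .ofNat (nat_lit 263215), .ofNat (nat_lit 360628)⟩, ⟨.negSucc (nat_lit 75673), .ofNat (nat_lit 231202), .negSucc (nat_lit 54331), .ofNat (nat_lit 252544), .negSucc (nat_lit 66879), .ofNat (nat_lit 232852), .negSucc (nat_lit 45522), .ofNat (nat_lit 254209)⟩⟩, [⟨nat_lit 0, nat_lit 100, nat_lit 100, nat_lit 80, nat_lit 6695609⟩]⟩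
noncomputable def p039_l37 : Lf2 := ⟨nat_lit 0, nat_lit 10, [nat_lit 0, nat_lit 5, nat_lit 5, nat_lit 20], false, nat_lit 0, nat_lit 80, nat_lit 0, nat_lit 160, ⟨nat_lit 845, nat_lit 155, nat_lit 0, nat_lit 6, nat_lit 165, nat_lit 0, nat_lit 18, nat_lit 0, nat_lit 0, nat_lit 0, nat_lit 0, nat_lit 0, nat_lit 0, nat_lit 0, nat_lit 0, nat_lit 5000000, false, false⟩,
 nat_lit 0, nat_lit 13210, nat_lit 0, nat_lit 0, nat_lit 8045, nat_lit 7266, nat_lit 1636, nat_lit 0, nat_lit 0, nat_lit 3023, nat_lit 0, nat_lit 0, nat_lit 0, nat_lit 0, nat_lit 0, nat_lit 155000, nat_lit 0, nat_lit 0, [(nat_lit 9, [(nat_lit 2, nat_lit 155)])],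
 ⟨p039_k11, nat_lit 0, nat_lit 0, nat_lit 727, nat_lit 0, nat_lit 1038891, [nat_lit 4374197334, nat_lit 5694562667, nat_lit 8309112000], [], [nat_lit 22303856947, nat_lit 20723119904, nat_lit 20603099343, nat_lit 20609901964, nat_lit 17599623284, nat_lit 18029580544, nat_lit 23010690963, nat_lit 21115264828], nat_lit 1271250, nat_lit 1271250, nat_lit 490000, nat_lit 1100001, nat_lit 0, nat_lit 490000, [nat_lit 1100000, nat_lit 1442500, nat_lit 1271250], [nat_lit 11, nat_lit 40, nat_lit 20, nat_lit 80, nat_lit 1, nat_lit 373, nat_lit 150, nat_lit 11]⟩, ⟨p039_k4, nat_lit 0, nat_lit 0, nat_lit 220, nat_lit 0, nat_lit 0, [nat_lit 3961360000, nat_lit 5281250000, nat_lit 10031840000], [], [nat_lit 13183494629, nat_lit 15987478213, nat_lit 12757900072, nat_lit 16166904000, nat_lit 9168985788, nat_lit 12028817476, nat_lit 9746044512, nat_lit 12244123288], nat_lit 0, nat_lit 0, nat_lit 0, nat_lit 0, nat_lit 0, nat_lit 0,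 [], [nat_lit 48, nat_lit 40, nat_lit 20, nat_lit 80, nat_lit 12, nat_lit 373, nat_lit 150, nat_lit 10]⟩,
 ⟨nat_lit 5477, nat_lit 5701, ⟨.ofNat (nat_lit 312525), .ofNat (nat_lit 465963), .ofNat (nat_lit 355209), .ofNat (nat_lit 508644), .ofNat (nat_lit 317913), .ofNat (nat_lit 467780), .ofNat (nat_lit 360628), .ofNat (nat_lit 510490)⟩, ⟨.negSucc (nat_lit 75673), .ofNat (nat_lit 77764), .negSucc (nat_lit 54331), .ofNat (nat_lit 99106), .negSucc (nat_lit 66879), .ofNat (nat_lit 82986), .negSucc (nat_lit 45522), .ofNat (nat_lit 104343)⟩⟩, []⟩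
noncomputable def p039_l38 : Lf2 := ⟨nat_lit 0, nat_lit 10, [nat_lit 0, nat_lit 5, nat_lit 5, nat_lit 20], false, nat_lit 80, nat_lit 160, nat_lit 0, nat_lit 160, ⟨nat_lit 604, nat_lit 396, nat_lit 0, nat_lit 6, nat_lit 161, nat_lit 396, nat_lit 67, nat_lit 0, nat_lit 0, nat_lit 0, nat_lit 0, nat_lit 0, nat_lit 0, nat_lit 0, nat_lit 0, nat_lit 5000000, false, false⟩,
 nat_lit 0, nat_lit 10565, nat_lit 0, nat_lit 0, nat_lit 6434, nat_lit 5468, nat_lit 1203, nat_lit 0, nat_lit 0, nat_lit 2321, nat_lit 0, nat_lit 0, nat_lit 0, nat_lit 0, nat_lit 0, nat_lit 158400, nat_lit 0, nat_lit 0, [(nat_lit 9, [(nat_lit 1, nat_lit 396)])],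
 ⟨p039_k11, nat_lit 0, nat_lit 0, nat_lit 564, nat_lit 0, nat_lit 835775, [nat_lit 3901829120, nat_lit 4950486400, nat_lit 7085840000], [], [nat_lit 25326894393, nat_lit 23651551567, nat_lit 21505704454, nat_lit 21799710539, nat_lit 21505704454, nat_lit 21799710539, nat_lit 27364157381, nat_lit 25868567647], nat_lit 1271250, nat_lit 1271250, nat_lit 490000, nat_lit 1100001, nat_lit 490000, nat_lit 1100001, [nat_lit 1100000, nat_lit 1442500, nat_lit 1271250], [nat_lit 11, nat_lit 40, nat_lit 20, nat_lit 80, nat_lit 1, nat_lit 373, nat_lit 150, nat_lit 11]⟩, ⟨p039_k4, nat_lit 0, nat_lit 0, nat_lit 212, nat_lit 0, nat_lit 0, [nat_lit 2831552000, nat_lit 3775000000, nat_lit 7170688000], [], [nat_lit 8786324751, nat_lit 9826088272, nat_lit 8715483520, nat_lit 10086737744, nat_lit 5934113856, nat_lit 6990119440, nat_lit 6308731504, nat_lit 7229740488], nat_lit 0, nat_lit 0, nat_lit 0, nat_lit 0, nat_lit 0, nat_lit 0,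 [], [nat_lit 48, nat_lit 40, nat_lit 20, nat_lit 80, nat_lit 12, nat_lit 373, nat_lit 150, nat_lit 10]⟩,
 ⟨nat_lit 5477, nat_lit 5701, ⟨.ofNat (nat_lit 312525), .ofNat (nat_lit 465963), .ofNat (nat_lit 333867), .ofNat (nat_lit 487304), .ofNat (nat_lit 317913), .ofNat (nat_lit 467780), .ofNat (nat_lit 339271), .ofNat (nat_lit 489135)⟩, ⟨.ofNat (nat_lit 77764), .ofNat (nat_lit 231202), .ofNat (nat_lit 99106), .ofNat (nat_lit 252544), .ofNat (nat_lit 82986), .ofNat (nat_lit 232852), .ofNat (nat_lit 104343), .ofNat (nat_lit 254209)⟩⟩, []⟩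
noncomputable def p039_l39 : Lf2 := ⟨nat_lit 0, nat_lit 10, [nat_lit 0, nat_lit 5, nat_lit 5, nat_lit 20], false, nat_lit 80, nat_lit 160, nat_lit 0, nat_lit 160, ⟨nat_lit 1000, nat_lit 0, nat_lit 0, nat_lit 0, nat_lit 0, nat_lit 0, nat_lit 0, nat_lit 0, nat_lit 0, nat_lit 0, nat_lit 0, nat_lit 0, nat_lit 0, nat_lit 0, nat_lit 0, nat_lit 0, false, false⟩,
 nat_lit 0, nat_lit 12726, nat_lit 0, nat_lit 0, nat_lit 7750, nat_lit 8099, nat_lit 1587, nat_lit 0, nat_lit 0, nat_lit 3002, nat_lit 0, nat_lit 0, nat_lit 0, nat_lit 51445796578321, nat_lit 0, nat_lit 0, nat_lit 0, nat_lit 0, [],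
 ⟨p039_k11, nat_lit 0, nat_lit 0, nat_lit 644, nat_lit 0, nat_lit 1038891, [nat_lit 4688000000, nat_lit 6250000000, nat_lit 9842000000], [], [nat_lit 26519498125, nat_lit 24501483375, nat_lit 21578959875, nat_lit 21847522875, nat_lit 21578959875, nat_lit 21847522875, nat_lit 27624896625, nat_lit 25823401375], nat_lit 1271250, nat_lit 1271250, nat_lit 490000, nat_lit 1100001, nat_lit 490000, nat_lit 1100001, [nat_lit 1100000, nat_lit 1442500, nat_lit 1271250], [nat_lit 11, nat_lit 40, nat_lit 20, nat_lit 80, nat_lit 1, nat_lit 373, nat_lit 150, nat_lit 11]⟩, ⟨p039_k10, nat_lit 0, nat_lit 0, nat_lit 173, nat_lit 0, nat_lit 0, [nat_lit 4688000000, nat_lit 6250000000, nat_lit 9842000000], [], [nat_lit 15566466228, nat_lit 17441726830, nat_lit 15328831732, nat_lit 17274312088, nat_lit 11124589818, nat_lit 12755008594, nat_lit 11672826440, nat_lit 13099589422], nat_lit 0, nat_lit 0, nat_lit 0, nat_lit 0, nat_lit 0, nat_lit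 0, [], [nat_lit 11, nat_lit 40, nat_lit 20, nat_lit 80, nat_lit 1, nat_lit 373, nat_lit 150, nat_lit 11]⟩,
 zbF0, []⟩
noncomputable def p039_l40 : Lf2 := ⟨nat_lit 0, nat_lit 10, [nat_lit 0, nat_lit 5, nat_lit 5, nat_lit 20], false, nat_lit 0, nat_lit 160, nat_lit 160, nat_lit 240, ⟨nat_lit 1000, nat_lit 0, nat_lit 0, nat_lit 0, nat_lit 0, nat_lit 0, nat_lit 0, nat_lit 0, nat_lit 0, nat_lit 0, nat_lit 0, nat_lit 0, nat_lit 0, nat_lit 0, nat_lit 0, nat_lit 0, false, false⟩,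
 nat_lit 0, nat_lit 14821, nat_lit 0, nat_lit 0, nat_lit 9026, nat_lit 45812, nat_lit 5188, nat_lit 0, nat_lit 0, nat_lit 0, nat_lit 0, nat_lit 0, nat_lit 0, nat_lit 49745917787357, nat_lit 0, nat_lit 0, nat_lit 0, nat_lit 24493888272, [],
 ⟨p039_k12, nat_lit 0, nat_lit 0, nat_lit 725, nat_lit 0, nat_lit 1038891, [nat_lit 4688000000, nat_lit 9842000000], [], [nat_lit 21926036746, nat_lit 19610605992, nat_lit 17704130738, nat_lit 18132063088, nat_lit 14810643070, nat_lit 14923309512, nat_lit 22763700792, nat_lit 20720178288], nat_lit 1271250, nat_lit 1271250, nat_lit 490000, nat_lit 1100001, nat_lit 0, nat_lit 1100001, [nat_lit 1100000, nat_lit 2127500], [nat_lit 70, nat_lit 40, nat_lit 20, nat_lit 80, nat_lit 13, nat_lit 373, nat_lit 150, nat_lit 11]⟩, ⟨p039_k13, nat_lit 0, nat_lit 0, nat_lit 5, nat_lit 0, nat_lit 0, [nat_lit 4688000000, nat_lit 11872000000], [], [nat_lit 3585657296, nat_lit 25602971808, nat_lit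 0, nat_lit 19043737872, nat_lit 25176055344, nat_lit 42530441760, nat_lit 18375149600, nat_lit 33303186304], nat_lit 0, nat_lit 0, nat_lit 0, nat_lit 0, nat_lit 0, nat_lit 0, [], [nat_lit 116, nat_lit 40, nat_lit 20, nat_lit 80, nat_lit 65, nat_lit 401, nat_lit 175, nat_lit 10]⟩,
 zbF0, [⟨nat_lit 7, nat_lit 100, nat_lit 98, nat_lit 54, nat_lit 2386580582⟩]⟩
noncomputable def p039_l41 : Lf2 := ⟨nat_lit 0, nat_lit 10, [nat_lit 0, nat_lit 5, nat_lit 5, nat_lit 20], false, nat_lit 0, nat_lit 160, nat_lit 240, nat_lit 288, ⟨nat_lit 1000, nat_lit 0, nat_lit 0, nat_lit 0, nat_lit 0, nat_lit 0, nat_lit 0, nat_lit 0, nat_lit 0, nat_lit 0, nat_lit 0, nat_lit 0, nat_lit 0, nat_lit 0, nat_lit 0, nat_lit 0, false, false⟩,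
 nat_lit 0, nat_lit 14809, nat_lit 0, nat_lit 0, nat_lit 9018, nat_lit 15513, nat_lit 4588, nat_lit 0, nat_lit 0, nat_lit 0, nat_lit 0, nat_lit 0, nat_lit 0, nat_lit 0, nat_lit 0, nat_lit 0, nat_lit 0, nat_lit 0, [],
 ⟨p039_k12, nat_lit 0, nat_lit 0, nat_lit 725, nat_lit 0, nat_lit 1038891, [nat_lit 4688000000, nat_lit 9842000000], [], [nat_lit 21936794978, nat_lit 19623416456, nat_lit 17739863434, nat_lit 18167623984, nat_lit 17056205510, nat_lit 14962763816, nat_lit 25004376856, nat_lit 22962665584], nat_lit 1271250, nat_lit 1271250, nat_lit 490000, nat_lit 1100001, nat_lit 0, nat_lit 1100001, [nat_lit 1100000, nat_lit 2127500], [nat_lit 70, nat_lit 40, nat_lit 20, nat_lit 80, nat_lit 13, nat_lit 373, nat_lit 150, nat_lit 11]⟩, ⟨p039_k13, nat_lit 0, nat_lit 0, nat_lit 32, nat_lit 0, nat_lit 0, [nat_lit 4688000000, nat_lit 11872000000], [], [nat_lit 9352044128, nat_lit 16202736812, nat_lit 8399208972, nat_lit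 14371103668, nat_lit 18231195299, nat_lit 23925186472, nat_lit 16155274913, nat_lit 21123379901], nat_lit 0, nat_lit 0, nat_lit 0, nat_lit 0, nat_lit 0, nat_lit 0, [], [nat_lit 116, nat_lit 40, nat_lit 20, nat_lit 80, nat_lit 65, nat_lit 428, nat_lit 200, nat_lit 10]⟩,
 zbF0, [⟨nat_lit 7, nat_lit 100, nat_lit 98, nat_lit 54, nat_lit 2384499561⟩]⟩
noncomputable def p039_l42 : Lf2 := ⟨nat_lit 0, nat_lit 10, [nat_lit 0, nat_lit 5, nat_lit 5, nat_lit 20], false, nat_lit 0, nat_lit 160, nat_lit 0, nat_lit 160, ⟨nat_lit 1000, nat_lit 0, nat_lit 0, nat_lit 0, nat_lit 0, nat_lit 0, nat_lit 0, nat_lit 0, nat_lit 0, nat_lit 0, nat_lit 0, nat_lit 0, nat_lit 0, nat_lit 0, nat_lit 0, nat_lit 0, false, false⟩,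
 nat_lit 0, nat_lit 12456, nat_lit 0, nat_lit 0, nat_lit 7250, nat_lit 8623, nat_lit 1272, nat_lit 0, nat_lit 0, nat_lit 3305, nat_lit 0, nat_lit 0, nat_lit 0, nat_lit 49005323405339, nat_lit 0, nat_lit 0, nat_lit 0, nat_lit 0, [],
 ⟨p039_k10, nat_lit 0, nat_lit 0, nat_lit 721, nat_lit 0, nat_lit 1107523, [nat_lit 4688000000, nat_lit 6250000000, nat_lit 9842000000], [], [nat_lit 36590501500, nat_lit 32757151000, nat_lit 31712705500, nat_lit 32024955000, nat_lit 27768866500, nat_lit 28072454000, nat_lit 28011430500, nat_lit 28247112000], nat_lit 1271250, nat_lit 1271250, nat_lit 1100001, nat_lit 1785000, nat_lit 0, nat_lit 1100001, [nat_lit 1100000, nat_lit 1442500, nat_lit 1271250], [nat_lit 11, nat_lit 40, nat_lit 20, nat_lit 80, nat_lit 1, nat_lit 401, nat_lit 175, nat_lit 11]⟩, ⟨p039_k4, nat_lit 0, nat_lit 0, nat_lit 193, nat_lit 0, nat_lit 0, [nat_lit 4688000000, nat_lit 6250000000, nat_lit 11872000000], [],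 [nat_lit 16175893715, nat_lit 19123791480, nat_lit 19728652472, nat_lit 23324023916, nat_lit 11475800516, nat_lit 14437079744, nat_lit 14856245460, nat_lit 17523474640], nat_lit 0, nat_lit 0, nat_lit 0, nat_lit 0, nat_lit 0, nat_lit 0, [], [nat_lit 48, nat_lit 40, nat_lit 20, nat_lit 80, nat_lit 12, nat_lit 401, nat_lit 175, nat_lit 10]⟩,
 zbF0, []⟩
noncomputable def p039_l43 : Lf2 := ⟨nat_lit 0, nat_lit 10, [nat_lit 0, nat_lit 5, nat_lit 5, nat_lit 20], false, nat_lit 0, nat_lit 160, nat_lit 160, nat_lit 288, ⟨nat_lit 1000, nat_lit 0, nat_lit 0, nat_lit 0, nat_lit 0, nat_lit 0, nat_lit 0, nat_lit 0, nat_lit 0, nat_lit 0, nat_lit 0, nat_lit 0, nat_lit 0, nat_lit 0, nat_lit 0, nat_lit 0, false, false⟩,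
 nat_lit 0, nat_lit 11449, nat_lit 0, nat_lit 0, nat_lit 6664, nat_lit 30135, nat_lit 3760, nat_lit 0, nat_lit 0, nat_lit 0, nat_lit 0, nat_lit 0, nat_lit 0, nat_lit 4956194890324, nat_lit 0, nat_lit 0, nat_lit 0, nat_lit 11576730060, [],
 ⟨p039_k10, nat_lit 0, nat_lit 0, nat_lit 721, nat_lit 0, nat_lit 1107523, [nat_lit 4688000000, nat_lit 6250000000, nat_lit 9842000000], [], [nat_lit 36007371728, nat_lit 32483861696, nat_lit 30643621856, nat_lit 31107951376, nat_lit 27350733312, nat_lit 27797829200, nat_lit 28135160496, nat_lit 28502893168], nat_lit 1271250, nat_lit 1271250, nat_lit 1100001, nat_lit 1785000, nat_lit 0, nat_lit 1100001, [nat_lit 1100000, nat_lit 1442500, nat_lit 1271250], [nat_lit 11, nat_lit 40, nat_lit 20, nat_lit 80, nat_lit 1, nat_lit 401, nat_lit 175, nat_lit 11]⟩, ⟨p039_k4, nat_lit 0, nat_lit 0, nat_lit 20, nat_lit 0, nat_lit 0, [nat_lit 4688000000, nat_lit 6250000000, nat_lit 11872000000],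 [], [nat_lit 0, nat_lit 13043272060, nat_lit 12969720000, nat_lit 23263760920, nat_lit 26443596217, nat_lit 34862703760, nat_lit 32912834617, nat_lit 39435314620], nat_lit 0, nat_lit 0, nat_lit 0, nat_lit 0, nat_lit 0, nat_lit 0, [], [nat_lit 48, nat_lit 40, nat_lit 20, nat_lit 80, nat_lit 12, nat_lit 456, nat_lit 225, nat_lit 11]⟩,
 zbF0, [⟨nat_lit 7, nat_lit 100, nat_lit 98, nat_lit 54, nat_lit 1835786046⟩]⟩
noncomputable def b_VL_600_600_5_85 : St := ⟨true, nat_lit 1, nat_lit 0, nat_lit 2, nat_lit 40, nat_lit 260, nat_lit 280, nat_lit 240, nat_lit 280, nat_lit 24, nat_lit 240, nat_lit 20, nat_lit 40, nat_lit 0, nat_lit 160, nat_lit 0, nat_lit 288, nat_lit 0, nat_lit 40, nat_lit 0, nat_lit 0, nat_lit 0, nat_lit 0⟩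
theorem d_VL_600_600_5_85 (h : EB TB.env) : Dead b_VL_600_600_5_85 := chkB_sound0 h (T :=
(.spl (nat_lit 2) (nat_lit 160)
(.spl (nat_lit 0) (nat_lit 270)
(.ord (.spl (nat_lit 4) (nat_lit 80)
(.spl (nat_lit 2) (nat_lit 80)
(.leaf p039_l30)
(.spl (nat_lit 5) (nat_lit 160)
(.leaf p039_l31)
(.leaf p039_l32)))
(.spl (nat_lit 2) (nat_lit 80)
(.leaf p039_l33)
(.spl (nat_lit 5) (nat_lit 160)
(.leaf p039_l34)
(.leaf p039_l35)))))
(.trZ (nat_lit 0) (nat_lit 100) (nat_lit 96) (nat_lit 54) (nat_lit 28) (.spl (nat_lit 2) (nat_lit 80)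
(.leaf p039_l36)
(.spl (nat_lit 5) (nat_lit 160)
(.spl (nat_lit 4) (nat_lit 80)
(.leaf p039_l37)
(.spl (nat_lit 1) (nat_lit 260)
(.leaf p039_l38)
(.leaf p039_l39)))
(.spl (nat_lit 5) (nat_lit 240)
(.leaf p039_l40)
(.leaf p039_l41))))))
(.spl (nat_lit 5) (nat_lit 160)
(.leaf p039_l42)
(.leaf p039_l43)))) (by decide +kernel)
noncomputable def p039_l44 : Lf2 := ⟨nat_lit 0, nat_lit 10, [nat_lit 0, nat_lit 5, nat_lit 5, nat_lit 20], true, nat_lit 160, nat_lit 268, nat_lit 0, nat_lit 288, ⟨nat_lit 0, nat_lit 1000, nat_lit 0, nat_lit 6, nat_lit 109, nat_lit 1000, nat_lit 138, nat_lit 0, nat_lit 0, nat_lit 0, nat_lit 0, nat_lit 0, nat_lit 0, nat_lit 0, nat_lit 0, nat_lit 5000000, false, false⟩,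
 nat_lit 0, nat_lit 6219, nat_lit 0, nat_lit 0, nat_lit 3620, nat_lit 0, nat_lit 0, nat_lit 0, nat_lit 0, nat_lit 0, nat_lit 0, nat_lit 0, nat_lit 0, nat_lit 27530938630181, nat_lit 0, nat_lit 847000, nat_lit 0, nat_lit 0, [(nat_lit 9, [(nat_lit 1, nat_lit 255), (nat_lit 2, nat_lit 745)])],
 ⟨p039_k10, nat_lit 0, nat_lit 0, nat_lit 351, nat_lit 0, nat_lit 470394, [nat_lit 2673476267, nat_lit 2743509334, nat_lit 1008546666], [], [nat_lit 26664159454, nat_lit 25715831674, nat_lit 22993271267, nat_lit 23352622487, nat_lit 28257851256, nat_lit 27396632369, nat_lit 30050942007, nat_lit 29205936086], nat_lit 1271250, nat_lit 1271250, nat_lit 134400, nat_lit 490000, nat_lit 1100001, nat_lit 2024750, [nat_lit 1100000, nat_lit 1442500, nat_lit 1271250], [nat_lit 11, nat_lit 40, nat_lit 20, nat_lit 80, nat_lit 1, nat_lit 401, nat_lit 175, nat_lit 11]⟩, C1.Rw.none,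
 ⟨nat_lit 5700, nat_lit 5917, ⟨.ofNat (nat_lit 197129), .ofNat (nat_lit 307076), .ofNat (nat_lit 229138), .ofNat (nat_lit 339085), .ofNat (nat_lit 205119), .ofNat (nat_lit 312525), .ofNat (nat_lit 237132), .ofNat (nat_lit 344538)⟩, ⟨.ofNat (nat_lit 229411), .ofNat (nat_lit 441452), .ofNat (nat_lit 250751), .ofNat (nat_lit 462791), .ofNat (nat_lit 231202), .ofNat (nat_lit 438343), .ofNat (nat_lit 252544), .ofNat (nat_lit 459685)⟩⟩, [⟨nat_lit 4, nat_lit 100, nat_lit 97, nat_lit 54, nat_lit 442528696⟩]⟩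
noncomputable def p039_l45 : Lf2 := ⟨nat_lit 0, nat_lit 10, [nat_lit 0, nat_lit 5, nat_lit 5, nat_lit 20], false, nat_lit 160, nat_lit 268, nat_lit 0, nat_lit 160, ⟨nat_lit 845, nat_lit 155, nat_lit 0, nat_lit 6, nat_lit 146, nat_lit 155, nat_lit 138, nat_lit 0, nat_lit 0, nat_lit 0, nat_lit 0, nat_lit 0, nat_lit 0, nat_lit 0, nat_lit 0, nat_lit 5000000, false, false⟩,
 nat_lit 0, nat_lit 13909, nat_lit 0, nat_lit 0, nat_lit 8096, nat_lit 7458, nat_lit 1880, nat_lit 0, nat_lit 0, nat_lit 3134, nat_lit 0, nat_lit 0, nat_lit 0, nat_lit 34550968492325, nat_lit 0, nat_lit 62000, nat_lit 0, nat_lit 0, [(nat_lit 9, [(nat_lit 1, nat_lit 155)])],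
 ⟨p039_k10, nat_lit 0, nat_lit 0, nat_lit 532, nat_lit 0, nat_lit 896947, [nat_lit 4380281600, nat_lit 5741352000, nat_lit 8763200000], [], [nat_lit 19950103200, nat_lit 17873244416, nat_lit 16473238576, nat_lit 16778558632, nat_lit 20750675487, nat_lit 19095560068, nat_lit 23479357256, nat_lit 21537309826], nat_lit 1271250, nat_lit 1271250, nat_lit 490000, nat_lit 780000, nat_lit 1100001, nat_lit 2024750, [nat_lit 1100000, nat_lit 1442500, nat_lit 1271250], [nat_lit 11, nat_lit 40, nat_lit 20, nat_lit 80, nat_lit 1, nat_lit 401, nat_lit 175, nat_lit 11]⟩, ⟨p039_k4, nat_lit 0, nat_lit 0, nat_lit 216, nat_lit 0, nat_lit 0, [nat_lit 3961360000, nat_lit 5281250000, nat_lit 10031840000], [], [nat_lit 12742882262, nat_lit 14883385176, nat_lit 11923920610, nat_lit 14483418835, nat_lit 8735163324, nat_lit 10915640802, nat_lit 8657936672, nat_lit 10709999720], nat_lit 0, nat_lit 0, nat_lit 0, nat_lit 0, nat_lit 0, nat_lit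 0, [], [nat_lit 48, nat_lit 40, nat_lit 20, nat_lit 80, nat_lit 12, nat_lit 373, nat_lit 150, nat_lit 10]⟩,
 ⟨nat_lit 5700, nat_lit 5917, ⟨.ofNat (nat_lit 307076), .ofNat (nat_lit 385610), .ofNat (nat_lit 339085), .ofNat (nat_lit 417619), .ofNat (nat_lit 312525), .ofNat (nat_lit 389244), .ofNat (nat_lit 344538), .ofNat (nat_lit 421257)⟩, ⟨.ofNat (nat_lit 229411), .ofNat (nat_lit 441452), .ofNat (nat_lit 250751), .ofNat (nat_lit 462791), .ofNat (nat_lit 231202), .ofNat (nat_lit 438343), .ofNat (nat_lit 252544), .ofNat (nat_lit 459685)⟩⟩, [⟨nat_lit 4, nat_lit 100, nat_lit 97, nat_lit 54, nat_lit 473086860⟩]⟩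
noncomputable def p039_l46 : Lf2 := ⟨nat_lit 0, nat_lit 10, [nat_lit 0, nat_lit 5, nat_lit 5, nat_lit 20], true, nat_lit 160, nat_lit 268, nat_lit 160, nat_lit 288, ⟨nat_lit 0, nat_lit 1000, nat_lit 0, nat_lit 6, nat_lit 138, nat_lit 1000, nat_lit 138, nat_lit 0, nat_lit 0, nat_lit 0, nat_lit 0, nat_lit 0, nat_lit 0, nat_lit 0, nat_lit 0, nat_lit 5000000, false, false⟩,
 nat_lit 0, nat_lit 7883, nat_lit 0, nat_lit 0, nat_lit 4588, nat_lit 0, nat_lit 1011, nat_lit 0, nat_lit 0, nat_lit 0, nat_lit 0, nat_lit 0, nat_lit 0, nat_lit 29176386987100, nat_lit 0, nat_lit 400000, nat_lit 0, nat_lit 0, [(nat_lit 9, [(nat_lit 1, nat_lit 1000)])],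
 ⟨p039_k10, nat_lit 0, nat_lit 0, nat_lit 311, nat_lit 0, nat_lit 470394, [nat_lit 2702720000, nat_lit 2968400001, nat_lit 2997199999], [], [nat_lit 20412561000, nat_lit 19235605948, nat_lit 18067588320, nat_lit 18459035468, nat_lit 21876274556, nat_lit 21730721800, nat_lit 22809534505, nat_lit 21701309987], nat_lit 1271250, nat_lit 1271250, nat_lit 490000, nat_lit 631250, nat_lit 1100001, nat_lit 2024750, [nat_lit 1100000, nat_lit 1442500, nat_lit 1271250], [nat_lit 11, nat_lit 40, nat_lit 20, nat_lit 80, nat_lit 1, nat_lit 401, nat_lit 175, nat_lit 11]⟩, C1.Rw.none,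
 ⟨nat_lit 5700, nat_lit 5917, ⟨.ofNat (nat_lit 307076), .ofNat (nat_lit 346343), .ofNat (nat_lit 339085), .ofNat (nat_lit 378352), .ofNat (nat_lit 312525), .ofNat (nat_lit 350885), .ofNat (nat_lit 344538), .ofNat (nat_lit 382898)⟩, ⟨.ofNat (nat_lit 229411), .ofNat (nat_lit 441452), .ofNat (nat_lit 250751), .ofNat (nat_lit 462791), .ofNat (nat_lit 231202), .ofNat (nat_lit 438343), .ofNat (nat_lit 252544), .ofNat (nat_lit 459685)⟩⟩, [⟨nat_lit 4, nat_lit 100, nat_lit 97, nat_lit 54, nat_lit 355620411⟩]⟩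
noncomputable def p039_l47 : Lf2 := ⟨nat_lit 0, nat_lit 10, [nat_lit 0, nat_lit 5, nat_lit 5, nat_lit 20], false, nat_lit 160, nat_lit 268, nat_lit 160, nat_lit 288, ⟨nat_lit 1000, nat_lit 0, nat_lit 0, nat_lit 0, nat_lit 0, nat_lit 0, nat_lit 0, nat_lit 0, nat_lit 0, nat_lit 0, nat_lit 0, nat_lit 0, nat_lit 0, nat_lit 0, nat_lit 0, nat_lit 0, false, false⟩,
 nat_lit 0, nat_lit 14197, nat_lit 0, nat_lit 0, nat_lit 8263, nat_lit 17204, nat_lit 3587, nat_lit 0, nat_lit 0, nat_lit 0, nat_lit 0, nat_lit 0, nat_lit 0, nat_lit 11360497618485, nat_lit 0, nat_lit 0, nat_lit 0, nat_lit 2234943168, [],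
 ⟨p039_k10, nat_lit 0, nat_lit 0, nat_lit 513, nat_lit 0, nat_lit 896947, [nat_lit 4688000000, nat_lit 6250000000, nat_lit 9842000000], [], [nat_lit 16160500320, nat_lit 16309829213, nat_lit 15787879780, nat_lit 16232432608, nat_lit 21150474994, nat_lit 19157394571, nat_lit 22683277568, nat_lit 20701170612], nat_lit 1271250, nat_lit 1271250, nat_lit 631250, nat_lit 780000, nat_lit 1100001, nat_lit 2024750, [nat_lit 1100000, nat_lit 1442500, nat_lit 1271250], [nat_lit 11, nat_lit 40, nat_lit 20, nat_lit 80, nat_lit 1, nat_lit 401, nat_lit 175, nat_lit 11]⟩, ⟨p039_k4, nat_lit 0, nat_lit 0, nat_lit 25, nat_lit 0, nat_lit 0, [nat_lit 4688000000, nat_lit 6250000000, nat_lit 11872000000], [], [nat_lit 283924128, nat_lit 7058632752, nat_lit 0, nat_lit 6565282164, nat_lit 19266915364, nat_lit 23770292125, nat_lit 18396708020, nat_lit 22759180037], nat_lit 0, nat_lit 0, nat_lit 0, nat_lit 0, nat_lit 0, nat_lit 0, [], [nat_lit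 48, nat_lit 40, nat_lit 20, nat_lit 80, nat_lit 12, nat_lit 401, nat_lit 175, nat_lit 10]⟩,
 zbF0, [⟨nat_lit 4, nat_lit 100, nat_lit 97, nat_lit 54, nat_lit 656089204⟩, ⟨nat_lit 7, nat_lit 100, nat_lit 100, nat_lit 55, nat_lit 1580922185⟩]⟩
noncomputable def p039_l48 : Lf2 := ⟨nat_lit 0, nat_lit 10, [nat_lit 0, nat_lit 5, nat_lit 5, nat_lit 20], false, nat_lit 160, nat_lit 268, nat_lit 0, nat_lit 288, ⟨nat_lit 1000, nat_lit 0, nat_lit 0, nat_lit 0, nat_lit 0, nat_lit 0, nat_lit 0, nat_lit 0, nat_lit 0, nat_lit 0, nat_lit 0, nat_lit 0, nat_lit 0, nat_lit 0, nat_lit 0, nat_lit 0, false, false⟩,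
 nat_lit 0, nat_lit 14438, nat_lit 0, nat_lit 0, nat_lit 8404, nat_lit 9907, nat_lit 2429, nat_lit 0, nat_lit 0, nat_lit 2706, nat_lit 0, nat_lit 0, nat_lit 0, nat_lit 0, nat_lit 0, nat_lit 0, nat_lit 0, nat_lit 0, [],
 ⟨p039_k10, nat_lit 0, nat_lit 0, nat_lit 462, nat_lit 0, nat_lit 790343, [nat_lit 4688000000, nat_lit 6250000000, nat_lit 9842000000], [], [nat_lit 17266148687, nat_lit 15172350915, nat_lit 29624234551, nat_lit 27616989575, nat_lit 17196625263, nat_lit 17548417302, nat_lit 19952385776, nat_lit 20675757520], nat_lit 1271250, nat_lit 1271250, nat_lit 780000, nat_lit 1762500, nat_lit 1271250, nat_lit 1271250, [nat_lit 1100000, nat_lit 1442500, nat_lit 1271250], [nat_lit 11, nat_lit 40, nat_lit 20, nat_lit 80, nat_lit 1, nat_lit 428, nat_lit 200, nat_lit 12]⟩, ⟨p039_k4, nat_lit 0, nat_lit 0, nat_lit 194, nat_lit 0, nat_lit 0, [nat_lit 4688000000, nat_lit 6250000000, nat_lit 11872000000], [], [nat_lit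 19202092310, nat_lit 20921305482, nat_lit 22250180602, nat_lit 23546862924, nat_lit 17288188034, nat_lit 18267613431, nat_lit 20296272080, nat_lit 21776129216], nat_lit 0, nat_lit 0, nat_lit 0, nat_lit 0, nat_lit 0, nat_lit 0, [], [nat_lit 48, nat_lit 40, nat_lit 20, nat_lit 80, nat_lit 12, nat_lit 428, nat_lit 200, nat_lit 11]⟩,
 zbF0, [⟨nat_lit 16, nat_lit 97, nat_lit 100, nat_lit 54, nat_lit 402139423⟩, ⟨nat_lit 7, nat_lit 99, nat_lit 100, nat_lit 54, nat_lit 243715677⟩]⟩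
noncomputable def p039_l49 : Lf2 := ⟨nat_lit 0, nat_lit 10, [nat_lit 0, nat_lit 5, nat_lit 5, nat_lit 20], false, nat_lit 160, nat_lit 268, nat_lit 0, nat_lit 268, ⟨nat_lit 1000, nat_lit 0, nat_lit 0, nat_lit 0, nat_lit 0, nat_lit 0, nat_lit 0, nat_lit 0, nat_lit 0, nat_lit 0, nat_lit 0, nat_lit 0, nat_lit 0, nat_lit 0, nat_lit 0, nat_lit 0, false, false⟩,
 nat_lit 0, nat_lit 13518, nat_lit 0, nat_lit 0, nat_lit 7868, nat_lit 8191, nat_lit 2358, nat_lit 0, nat_lit 0, nat_lit 2530, nat_lit 0, nat_lit 0, nat_lit 0, nat_lit 6250603062214, nat_lit 0, nat_lit 0, nat_lit 0, nat_lit 0, [],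
 ⟨p039_k10, nat_lit 0, nat_lit 0, nat_lit 504, nat_lit 0, nat_lit 896947, [nat_lit 4688000000, nat_lit 6250000000, nat_lit 9842000000], [], [nat_lit 18166852554, nat_lit 18453450396, nat_lit 29987402242, nat_lit 28108177650, nat_lit 20380700062, nat_lit 20681735454, nat_lit 21364802156, nat_lit 21612437028], nat_lit 1271250, nat_lit 1271250, nat_lit 780000, nat_lit 1762500, nat_lit 1271250, nat_lit 1271250, [nat_lit 1100000, nat_lit 1442500, nat_lit 1271250], [nat_lit 11, nat_lit 40, nat_lit 20, nat_lit 80, nat_lit 1, nat_lit 428, nat_lit 200, nat_lit 12]⟩, ⟨p039_k10, nat_lit 0, nat_lit 0, nat_lit 150, nat_lit 0, nat_lit 0, [nat_lit 4688000000, nat_lit 6250000000, nat_lit 9842000000], [], [nat_lit 16783388876, nat_lit 17679758563, nat_lit 20464063364, nat_lit 21352230149, nat_lit 16368434637, nat_lit 16953628017, nat_lit 19947441236, nat_lit 20660354446], nat_lit 0, nat_lit 0, nat_lit 0, nat_lit 0, nat_lit 0, nat_lit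 0, [], [nat_lit 11, nat_lit 40, nat_lit 20, nat_lit 80, nat_lit 1, nat_lit 428, nat_lit 200, nat_lit 12]⟩,
 zbF0, [⟨nat_lit 16, nat_lit 97, nat_lit 100, nat_lit 54, nat_lit 601306317⟩, ⟨nat_lit 7, nat_lit 100, nat_lit 97, nat_lit 54, nat_lit 304061051⟩]⟩
noncomputable def p039_l50 : Lf2 := ⟨nat_lit 0, nat_lit 10, [nat_lit 0, nat_lit 5, nat_lit 5, nat_lit 20], true, nat_lit 160, nat_lit 260, nat_lit 0, nat_lit 288, ⟨nat_lit 0, nat_lit 1000, nat_lit 0, nat_lit 6, nat_lit 115, nat_lit 1000, nat_lit 135, nat_lit 0, nat_lit 0, nat_lit 0, nat_lit 0, nat_lit 0, nat_lit 0, nat_lit 0, nat_lit 0, nat_lit 5000000, false, false⟩,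
 nat_lit 0, nat_lit 6233, nat_lit 0, nat_lit 0, nat_lit 3796, nat_lit 0, nat_lit 0, nat_lit 0, nat_lit 0, nat_lit 0, nat_lit 0, nat_lit 0, nat_lit 0, nat_lit 27224561318810, nat_lit 0, nat_lit 901600, nat_lit 0, nat_lit 0, [(nat_lit 9, [(nat_lit 1, nat_lit 164), (nat_lit 2, nat_lit 836)])],
 ⟨p039_k11, nat_lit 0, nat_lit 0, nat_lit 376, nat_lit 0, nat_lit 541166, [nat_lit 2669904214, nat_lit 2716039467, nat_lit 765637333], [], [nat_lit 25331173140, nat_lit 24338238236, nat_lit 22615858290, nat_lit 22980160566, nat_lit 26604887103, nat_lit 25846450580, nat_lit 28330039469, nat_lit 27441590414], nat_lit 1271250, nat_lit 1271250, nat_lit 157850, nat_lit 490000, nat_lit 1100001, nat_lit 1956250, [nat_lit 1100000, nat_lit 1442500, nat_lit 1271250], [nat_lit 11, nat_lit 40, nat_lit 20, nat_lit 80, nat_lit 1, nat_lit 401, nat_lit 175, nat_lit 11]⟩, C1.Rw.none,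
 ⟨nat_lit 5477, nat_lit 5701, ⟨.ofNat (nat_lit 212791), .ofNat (nat_lit 312525), .ofNat (nat_lit 255475), .ofNat (nat_lit 355209), .ofNat (nat_lit 220501), .ofNat (nat_lit 317913), .ofNat (nat_lit 263215), .ofNat (nat_lit 360628)⟩, ⟨.ofNat (nat_lit 231202), .ofNat (nat_lit 422999), .ofNat (nat_lit 252544), .ofNat (nat_lit 444341), .ofNat (nat_lit 232852), .ofNat (nat_lit 420185), .ofNat (nat_lit 254209), .ofNat (nat_lit 441542)⟩⟩, [⟨nat_lit 16, nat_lit 94, nat_lit 100, nat_lit 53, nat_lit 457695999⟩]⟩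
noncomputable def p039_l51 : Lf2 := ⟨nat_lit 0, nat_lit 10, [nat_lit 0, nat_lit 5, nat_lit 5, nat_lit 20], false, nat_lit 160, nat_lit 260, nat_lit 0, nat_lit 160, ⟨nat_lit 658, nat_lit 342, nat_lit 0, nat_lit 6, nat_lit 146, nat_lit 342, nat_lit 135, nat_lit 0, nat_lit 0, nat_lit 0, nat_lit 0, nat_lit 0, nat_lit 0, nat_lit 0, nat_lit 0, nat_lit 5000000, false, false⟩,
 nat_lit 0, nat_lit 11817, nat_lit 0, nat_lit 0, nat_lit 7196, nat_lit 5949, nat_lit 1367, nat_lit 0, nat_lit 0, nat_lit 2525, nat_lit 0, nat_lit 0, nat_lit 0, nat_lit 0, nat_lit 0, nat_lit 255000, nat_lit 0, nat_lit 0, [(nat_lit 9, [(nat_lit 1, nat_lit 145), (nat_lit 2, nat_lit 197)])],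
 ⟨p039_k11, nat_lit 0, nat_lit 0, nat_lit 498, nat_lit 0, nat_lit 835775, [nat_lit 4001301334, nat_lit 5068225067, nat_lit 6892186578], [], [nat_lit 18325584984, nat_lit 17083915531, nat_lit 16343252071, nat_lit 16727674811, nat_lit 19006764550, nat_lit 19403809060, nat_lit 20749740596, nat_lit 19093217388], nat_lit 1271250, nat_lit 1271250, nat_lit 490000, nat_lit 780000, nat_lit 1100001, nat_lit 1956250, [nat_lit 1100000, nat_lit 1442500, nat_lit 1271250], [nat_lit 11, nat_lit 40, nat_lit 20, nat_lit 80, nat_lit 1, nat_lit 401, nat_lit 175, nat_lit 11]⟩, ⟨p039_k4, nat_lit 0, nat_lit 0, nat_lit 212, nat_lit 0, nat_lit 0, [nat_lit 3084704000, nat_lit 4112500000, nat_lit 7811776000], [], [nat_lit 9584924239, nat_lit 10710415599, nat_lit 8917542203, nat_lit 10417661608, nat_lit 6482408916, nat_lit 7631853796, nat_lit 6406399312, nat_lit 7487826278], nat_lit 0, nat_lit 0, nat_lit 0, nat_lit 0, nat_lit 0, nat_lit 0,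 [], [nat_lit 48, nat_lit 40, nat_lit 20, nat_lit 80, nat_lit 12, nat_lit 373, nat_lit 150, nat_lit 10]⟩,
 ⟨nat_lit 5477, nat_lit 5701, ⟨.ofNat (nat_lit 312525), .ofNat (nat_lit 389244), .ofNat (nat_lit 333867), .ofNat (nat_lit 410586), .ofNat (nat_lit 317913), .ofNat (nat_lit 392847), .ofNat (nat_lit 339271), .ofNat (nat_lit 414204)⟩, ⟨.ofNat (nat_lit 231202), .ofNat (nat_lit 422999), .ofNat (nat_lit 252544), .ofNat (nat_lit 444341), .ofNat (nat_lit 232852), .ofNat (nat_lit 420185), .ofNat (nat_lit 254209), .ofNat (nat_lit 441542)⟩⟩, [⟨nat_lit 4, nat_lit 100, nat_lit 94, nat_lit 53, nat_lit 556650517⟩]⟩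
noncomputable def p039_l52 : Lf2 := ⟨nat_lit 0, nat_lit 10, [nat_lit 0, nat_lit 5, nat_lit 5, nat_lit 20], false, nat_lit 160, nat_lit 260, nat_lit 0, nat_lit 160, ⟨nat_lit 1000, nat_lit 0, nat_lit 0, nat_lit 0, nat_lit 0, nat_lit 0, nat_lit 0, nat_lit 0, nat_lit 0, nat_lit 0, nat_lit 0, nat_lit 0, nat_lit 0, nat_lit 0, nat_lit 0, nat_lit 0, false, false⟩,
 nat_lit 0, nat_lit 14086, nat_lit 0, nat_lit 0, nat_lit 8578, nat_lit 8099, nat_lit 2117, nat_lit 0, nat_lit 0, nat_lit 3002, nat_lit 0, nat_lit 0, nat_lit 0, nat_lit 57149190693106, nat_lit 0, nat_lit 0, nat_lit 0, nat_lit 0, [],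
 ⟨p039_k11, nat_lit 0, nat_lit 0, nat_lit 611, nat_lit 0, nat_lit 1038891, [nat_lit 4688000000, nat_lit 6250000000, nat_lit 9842000000], [], [nat_lit 17840497738, nat_lit 15656214360, nat_lit 14847949648, nat_lit 15300300616, nat_lit 17829840525, nat_lit 18203062252, nat_lit 19590599385, nat_lit 17646710384], nat_lit 1271250, nat_lit 1271250, nat_lit 490000, nat_lit 780000, nat_lit 1100001, nat_lit 1956250, [nat_lit 1100000, nat_lit 1442500, nat_lit 1271250], [nat_lit 11, nat_lit 40, nat_lit 20, nat_lit 80, nat_lit 1, nat_lit 401, nat_lit 175, nat_lit 11]⟩, ⟨p039_k10, nat_lit 0, nat_lit 0, nat_lit 173, nat_lit 0, nat_lit 0, [nat_lit 4688000000, nat_lit 6250000000, nat_lit 9842000000], [], [nat_lit 15566466228, nat_lit 17441726830, nat_lit 14910437564, nat_lit 16690691250, nat_lit 11124589818, nat_lit 12755008594, nat_lit 11020418192, nat_lit 12556481538], nat_lit 0, nat_lit 0, nat_lit 0, nat_lit 0, nat_lit 0, nat_lit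 0, [], [nat_lit 11, nat_lit 40, nat_lit 20, nat_lit 80, nat_lit 1, nat_lit 373, nat_lit 150, nat_lit 11]⟩,
 zbF0, [⟨nat_lit 4, nat_lit 100, nat_lit 94, nat_lit 53, nat_lit 676873508⟩]⟩
noncomputable def p039_l53 : Lf2 := ⟨nat_lit 0, nat_lit 10, [nat_lit 0, nat_lit 5, nat_lit 5, nat_lit 20], true, nat_lit 160, nat_lit 260, nat_lit 160, nat_lit 288, ⟨nat_lit 0, nat_lit 1000, nat_lit 0, nat_lit 6, nat_lit 142, nat_lit 1000, nat_lit 135, nat_lit 0, nat_lit 0, nat_lit 0, nat_lit 0, nat_lit 0, nat_lit 0, nat_lit 0, nat_lit 0, nat_lit 5000000, false, false⟩,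
 nat_lit 0, nat_lit 9874, nat_lit 0, nat_lit 0, nat_lit 6013, nat_lit 0, nat_lit 679, nat_lit 0, nat_lit 0, nat_lit 0, nat_lit 0, nat_lit 0, nat_lit 0, nat_lit 33933021662602, nat_lit 2, nat_lit 1000000, nat_lit 0, nat_lit 0, [(nat_lit 9, [(nat_lit 2, nat_lit 1000)])],
 ⟨p039_k11, nat_lit 0, nat_lit 0, nat_lit 341, nat_lit 0, nat_lit 541166, [nat_lit 2695466667, nat_lit 2706533334, nat_lit 383866666], [], [nat_lit 17240789207, nat_lit 15698280330, nat_lit 14178831308, nat_lit 14175310081, nat_lit 17329838152, nat_lit 17418700177, nat_lit 18379643793, nat_lit 17304884403], nat_lit 1271250, nat_lit 1271250, nat_lit 490000, nat_lit 631250, nat_lit 1100001, nat_lit 1956250, [nat_lit 1100000, nat_lit 1442500, nat_lit 1271250], [nat_lit 11, nat_lit 40, nat_lit 20, nat_lit 80, nat_lit 1, nat_lit 401, nat_lit 175, nat_lit 11]⟩, C1.Rw.none,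
 ⟨nat_lit 5477, nat_lit 5701, ⟨.ofNat (nat_lit 312525), .ofNat (nat_lit 350885), .ofNat (nat_lit 355209), .ofNat (nat_lit 393569), .ofNat (nat_lit 317913), .ofNat (nat_lit 355380), .ofNat (nat_lit 360628), .ofNat (nat_lit 398094)⟩, ⟨.ofNat (nat_lit 231202), .ofNat (nat_lit 422999), .ofNat (nat_lit 252544), .ofNat (nat_lit 444341), .ofNat (nat_lit 232852), .ofNat (nat_lit 420185), .ofNat (nat_lit 254209), .ofNat (nat_lit 441542)⟩⟩, [⟨nat_lit 4, nat_lit 100, nat_lit 94, nat_lit 53, nat_lit 333146273⟩]⟩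
noncomputable def p039_l54 : Lf2 := ⟨nat_lit 0, nat_lit 10, [nat_lit 0, nat_lit 5, nat_lit 5, nat_lit 20], false, nat_lit 160, nat_lit 260, nat_lit 160, nat_lit 288, ⟨nat_lit 1000, nat_lit 0, nat_lit 0, nat_lit 0, nat_lit 0, nat_lit 0, nat_lit 0, nat_lit 0, nat_lit 0, nat_lit 0, nat_lit 0, nat_lit 0, nat_lit 0, nat_lit 0, nat_lit 0, nat_lit 0, false, false⟩,
 nat_lit 0, nat_lit 14279, nat_lit 0, nat_lit 0, nat_lit 8696, nat_lit 18485, nat_lit 2166, nat_lit 0, nat_lit 0, nat_lit 0, nat_lit 0, nat_lit 0, nat_lit 0, nat_lit 34377135398440, nat_lit 0, nat_lit 0, nat_lit 0, nat_lit 3302262120, [],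
 ⟨p039_k11, nat_lit 0, nat_lit 0, nat_lit 601, nat_lit 0, nat_lit 1038891, [nat_lit 4688000000, nat_lit 6250000000, nat_lit 9842000000], [], [nat_lit 14430458096, nat_lit 14901615968, nat_lit 14329317936, nat_lit 14784590112, nat_lit 17765805818, nat_lit 17357127312, nat_lit 19350841070, nat_lit 17259148710], nat_lit 1271250, nat_lit 1271250, nat_lit 631250, nat_lit 780000, nat_lit 1100001, nat_lit 1956250, [nat_lit 1100000, nat_lit 1442500, nat_lit 1271250], [nat_lit 11, nat_lit 40, nat_lit 20, nat_lit 80, nat_lit 1, nat_lit 401, nat_lit 175, nat_lit 11]⟩, ⟨p039_k4, nat_lit 0, nat_lit 0, nat_lit 30, nat_lit 0, nat_lit 0, [nat_lit 4688000000, nat_lit 6250000000, nat_lit 11872000000], [], [nat_lit 344684520, nat_lit 9932056400, nat_lit 0, nat_lit 9289152180, nat_lit 20408799788, nat_lit 26758694580, nat_lit 19438628328, nat_lit 25588034840], nat_lit 0, nat_lit 0, nat_lit 0, nat_lit 0, nat_lit 0, nat_lit 0, [], [nat_lit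 48, nat_lit 40, nat_lit 20, nat_lit 80, nat_lit 12, nat_lit 401, nat_lit 175, nat_lit 10]⟩,
 zbF0, [⟨nat_lit 16, nat_lit 94, nat_lit 100, nat_lit 53, nat_lit 667706046⟩, ⟨nat_lit 7, nat_lit 100, nat_lit 98, nat_lit 54, nat_lit 1651572987⟩]⟩
noncomputable def p039_l55 : Lf2 := ⟨nat_lit 0, nat_lit 10, [nat_lit 0, nat_lit 5, nat_lit 5, nat_lit 20], false, nat_lit 160, nat_lit 260, nat_lit 0, nat_lit 160, ⟨nat_lit 1000, nat_lit 0, nat_lit 0, nat_lit 0, nat_lit 0, nat_lit 0, nat_lit 0, nat_lit 0, nat_lit 0, nat_lit 0, nat_lit 0, nat_lit 0, nat_lit 0, nat_lit 0, nat_lit 0, nat_lit 0, false, false⟩,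
 nat_lit 0, nat_lit 13799, nat_lit 0, nat_lit 0, nat_lit 8403, nat_lit 8140, nat_lit 1853, nat_lit 0, nat_lit 0, nat_lit 3154, nat_lit 0, nat_lit 0, nat_lit 0, nat_lit 52525790505269, nat_lit 0, nat_lit 0, nat_lit 0, nat_lit 0, [],
 ⟨p039_k11, nat_lit 0, nat_lit 0, nat_lit 592, nat_lit 0, nat_lit 1038891, [nat_lit 4688000000, nat_lit 6250000000, nat_lit 9842000000], [], [nat_lit 15740620841, nat_lit 16065748341, nat_lit 27318852525, nat_lit 25311846393, nat_lit 18060814136, nat_lit 18609745869, nat_lit 20049931819, nat_lit 20793102104], nat_lit 1271250, nat_lit 1271250, nat_lit 780000, nat_lit 1762500, nat_lit 1271250, nat_lit 1271250, [nat_lit 1100000, nat_lit 1442500, nat_lit 1271250], [nat_lit 11, nat_lit 40, nat_lit 20, nat_lit 80, nat_lit 1, nat_lit 428, nat_lit 200, nat_lit 12]⟩, ⟨p039_k4, nat_lit 0, nat_lit 0, nat_lit 202, nat_lit 0, nat_lit 0, [nat_lit 4688000000, nat_lit 6250000000, nat_lit 11872000000],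 [], [nat_lit 16587495950, nat_lit 19642850830, nat_lit 19925588960, nat_lit 23394400880, nat_lit 11873146560, nat_lit 14954625680, nat_lit 15942502800, nat_lit 18301600000], nat_lit 0, nat_lit 0, nat_lit 0, nat_lit 0, nat_lit 0, nat_lit 0, [], [nat_lit 48, nat_lit 40, nat_lit 20, nat_lit 80, nat_lit 12, nat_lit 401, nat_lit 175, nat_lit 10]⟩,
 zbF0, [⟨nat_lit 16, nat_lit 94, nat_lit 100, nat_lit 53, nat_lit 676847079⟩]⟩
noncomputable def p039_l56 : Lf2 := ⟨nat_lit 0, nat_lit 10, [nat_lit 0, nat_lit 5, nat_lit 5, nat_lit 20], false, nat_lit 160, nat_lit 260, nat_lit 160, nat_lit 288, ⟨nat_lit 1000, nat_lit 0, nat_lit 0, nat_lit 0, nat_lit 0, nat_lit 0, nat_lit 0, nat_lit 0, nat_lit 0, nat_lit 0, nat_lit 0, nat_lit 0, nat_lit 0, nat_lit 0, nat_lit 0, nat_lit 0, false, false⟩,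
 nat_lit 0, nat_lit 13695, nat_lit 0, nat_lit 0, nat_lit 8340, nat_lit 17410, nat_lit 4762, nat_lit 0, nat_lit 0, nat_lit 0, nat_lit 0, nat_lit 0, nat_lit 0, nat_lit 8098964160300, nat_lit 0, nat_lit 0, nat_lit 0, nat_lit 2406580720, [],
 ⟨p039_k11, nat_lit 0, nat_lit 0, nat_lit 592, nat_lit 0, nat_lit 1038891, [nat_lit 4688000000, nat_lit 6250000000, nat_lit 9842000000], [], [nat_lit 15894003440, nat_lit 16340462480, nat_lit 23742515250, nat_lit 21750556290, nat_lit 18335474495, nat_lit 18680837520, nat_lit 20048177930, nat_lit 20788127120], nat_lit 1271250, nat_lit 1271250, nat_lit 780000, nat_lit 1762500, nat_lit 1271250, nat_lit 1271250, [nat_lit 1100000, nat_lit 1442500, nat_lit 1271250], [nat_lit 11, nat_lit 40, nat_lit 20, nat_lit 80, nat_lit 1, nat_lit 428, nat_lit 200, nat_lit 12]⟩, ⟨p039_k4, nat_lit 0, nat_lit 0, nat_lit 22, nat_lit 0, nat_lit 0, [nat_lit 4688000000, nat_lit 6250000000, nat_lit 11872000000],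 [], [nat_lit 0, nat_lit 8839815080, nat_lit 9896830760, nat_lit 16429463480, nat_lit 18564261168, nat_lit 24434405040, nat_lit 23088549017, nat_lit 27369769680], nat_lit 0, nat_lit 0, nat_lit 0, nat_lit 0, nat_lit 0, nat_lit 0, [], [nat_lit 48, nat_lit 40, nat_lit 20, nat_lit 80, nat_lit 12, nat_lit 456, nat_lit 225, nat_lit 11]⟩,
 zbF0, [⟨nat_lit 4, nat_lit 100, nat_lit 94, nat_lit 53, nat_lit 656150538⟩, ⟨nat_lit 19, nat_lit 98, nat_lit 100, nat_lit 54, nat_lit 1560619104⟩]⟩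
noncomputable def b_VL_600_600_5_86 : St := ⟨true, nat_lit 1, nat_lit 0, nat_lit 2, nat_lit 40, nat_lit 260, nat_lit 280, nat_lit 240, nat_lit 280, nat_lit 24, nat_lit 240, nat_lit 20, nat_lit 40, nat_lit 160, nat_lit 268, nat_lit 0, nat_lit 288, nat_lit 0, nat_lit 40, nat_lit 0, nat_lit 0, nat_lit 0, nat_lit 0⟩
theorem d_VL_600_600_5_86 (h : EB TB.env) : Dead b_VL_600_600_5_86 := chkB_sound0 h (T :=
(.spl (nat_lit 0) (nat_lit 270)
(.ord (.spl (nat_lit 2) (nat_lit 120)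
(.spl (nat_lit 2) (nat_lit 80)
(.leaf p039_l44)
(.spl (nat_lit 5) (nat_lit 160)
(.leaf p039_l45)
(.spl (nat_lit 2) (nat_lit 100)
(.leaf p039_l46)
(.leaf p039_l47))))
(.spl (nat_lit 1) (nat_lit 260)
(.leaf p039_l48)
(.trX (nat_lit 19) (nat_lit 100) (nat_lit 99) (nat_lit 63) (nat_lit 268) (.leaf p039_l49)))))
(.trZ (nat_lit 0) (nat_lit 100) (nat_lit 96) (nat_lit 54) (nat_lit 28) (.trX (nat_lit 16) (nat_lit 98) (nat_lit 100) (nat_lit 63) (nat_lit 260) (.spl (nat_lit 2) (nat_lit 120)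
(.spl (nat_lit 2) (nat_lit 80)
(.leaf p039_l50)
(.spl (nat_lit 5) (nat_lit 160)
(.spl (nat_lit 1) (nat_lit 260)
(.leaf p039_l51)
(.leaf p039_l52))
(.spl (nat_lit 2) (nat_lit 100)
(.leaf p039_l53)
(.leaf p039_l54))))
(.spl (nat_lit 5) (nat_lit 160)
(.leaf p039_l55)
(.leaf p039_l56))))))) (by decide +kernel)
noncomputable def p039_l57 : Lf2 := ⟨nat_lit 0, nat_lit 10, [nat_lit 0, nat_lit 5, nat_lit 5, nat_lit 20], false, nat_lit 0, nat_lit 268, nat_lit 0, nat_lit 160, ⟨nat_lit 1000, nat_lit 0, nat_lit 0, nat_lit 0, nat_lit 0, nat_lit 0, nat_lit 0, nat_lit 0, nat_lit 0, nat_lit 0, nat_lit 0, nat_lit 0, nat_lit 0, nat_lit 0, nat_lit 0, nat_lit 0, false, false⟩,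
 nat_lit 0, nat_lit 11449, nat_lit 0, nat_lit 0, nat_lit 6664, nat_lit 6704, nat_lit 1933, nat_lit 0, nat_lit 0, nat_lit 2243, nat_lit 0, nat_lit 0, nat_lit 0, nat_lit 39942024684725, nat_lit 0, nat_lit 0, nat_lit 0, nat_lit 0, [],
 ⟨p039_k10, nat_lit 0, nat_lit 0, nat_lit 698, nat_lit 0, nat_lit 1107523, [nat_lit 4688000000, nat_lit 6250000000, nat_lit 9842000000], [], [nat_lit 32589262501, nat_lit 32975889429, nat_lit 36760089424, nat_lit 37456041024, nat_lit 30640301163, nat_lit 30911474684, nat_lit 33789777461, nat_lit 33929973031], nat_lit 1271250, nat_lit 1271250, nat_lit 1271250, nat_lit 1271250, nat_lit 0, nat_lit 1892750, [nat_lit 1100000, nat_lit 1442500, nat_lit 1271250], [nat_lit 11, nat_lit 40, nat_lit 20, nat_lit 80, nat_lit 1, nat_lit 483, nat_lit 250, nat_lit 14]⟩, ⟨p039_k4, nat_lit 0, nat_lit 0, nat_lit 239, nat_lit 0, nat_lit 0, [nat_lit 4688000000, nat_lit 6250000000, nat_lit 11872000000], [],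 [nat_lit 23703273149, nat_lit 25788963037, nat_lit 35600725568, nat_lit 37560705664, nat_lit 19804517789, nat_lit 21312619613, nat_lit 29439474304, nat_lit 30840049056], nat_lit 0, nat_lit 0, nat_lit 0, nat_lit 0, nat_lit 0, nat_lit 0, [], [nat_lit 48, nat_lit 40, nat_lit 20, nat_lit 80, nat_lit 12, nat_lit 456, nat_lit 225, nat_lit 11]⟩,
 zbF0, [⟨nat_lit 4, nat_lit 100, nat_lit 96, nat_lit 54, nat_lit 206399189⟩]⟩
noncomputable def p039_l58 : Lf2 := ⟨nat_lit 0, nat_lit 10, [nat_lit 0, nat_lit 5, nat_lit 5, nat_lit 20], false, nat_lit 0, nat_lit 268, nat_lit 160, nat_lit 288, ⟨nat_lit 1000, nat_lit 0, nat_lit 0, nat_lit 0, nat_lit 0, nat_lit 0, nat_lit 0, nat_lit 0, nat_lit 0, nat_lit 0, nat_lit 0, nat_lit 0, nat_lit 0, nat_lit 0, nat_lit 0, nat_lit 0, false, false⟩,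
 nat_lit 0, nat_lit 11655, nat_lit 0, nat_lit 0, nat_lit 6784, nat_lit 5821, nat_lit 4164, nat_lit 0, nat_lit 0, nat_lit 0, nat_lit 0, nat_lit 0, nat_lit 0, nat_lit 0, nat_lit 0, nat_lit 0, nat_lit 0, nat_lit 0, [],
 ⟨p039_k10, nat_lit 0, nat_lit 0, nat_lit 595, nat_lit 0, nat_lit 896947, [nat_lit 4688000000, nat_lit 6250000000, nat_lit 9842000000], [], [nat_lit 28949120960, nat_lit 29265998320, nat_lit 36785531936, nat_lit 37277783440, nat_lit 28069716575, nat_lit 28261954651, nat_lit 31993391891, nat_lit 32088825986], nat_lit 1271250, nat_lit 1271250, nat_lit 1271250, nat_lit 1271250, nat_lit 0, nat_lit 1892750, [nat_lit 1100000, nat_lit 1442500, nat_lit 1271250], [nat_lit 11, nat_lit 40, nat_lit 20, nat_lit 80, nat_lit 1, nat_lit 483, nat_lit 250, nat_lit 14]⟩, ⟨p039_k4, nat_lit 0, nat_lit 0, nat_lit 81, nat_lit 0, nat_lit 0, [nat_lit 4688000000, nat_lit 6250000000, nat_lit 11872000000], [], [nat_lit 15499788304,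 nat_lit 17456208841, nat_lit 27656748100, nat_lit 28752355768, nat_lit 21474270758, nat_lit 22899447030, nat_lit 30911672300, nat_lit 31815934258], nat_lit 0, nat_lit 0, nat_lit 0, nat_lit 0, nat_lit 0, nat_lit 0, [], [nat_lit 48, nat_lit 40, nat_lit 20, nat_lit 80, nat_lit 12, nat_lit 483, nat_lit 250, nat_lit 12]⟩,
 zbF0, [⟨nat_lit 4, nat_lit 100, nat_lit 97, nat_lit 54, nat_lit 145008330⟩, ⟨nat_lit 7, nat_lit 100, nat_lit 100, nat_lit 55, nat_lit 766646362⟩]⟩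
noncomputable def p039_l59 : Lf2 := ⟨nat_lit 0, nat_lit 10, [nat_lit 0, nat_lit 5, nat_lit 5, nat_lit 20], false, nat_lit 0, nat_lit 260, nat_lit 160, nat_lit 288, ⟨nat_lit 1000, nat_lit 0, nat_lit 0, nat_lit 0, nat_lit 0, nat_lit 0, nat_lit 0, nat_lit 0, nat_lit 0, nat_lit 0, nat_lit 0, nat_lit 0, nat_lit 0, nat_lit 0, nat_lit 0, nat_lit 0, false, false⟩,
 nat_lit 0, nat_lit 11374, nat_lit 0, nat_lit 0, nat_lit 6927, nat_lit 6008, nat_lit 3415, nat_lit 0, nat_lit 0, nat_lit 0, nat_lit 0, nat_lit 0, nat_lit 0, nat_lit 24052498430423, nat_lit 0, nat_lit 0, nat_lit 0, nat_lit 0, [],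
 ⟨p039_k11, nat_lit 0, nat_lit 0, nat_lit 647, nat_lit 0, nat_lit 1038891, [nat_lit 4688000000, nat_lit 6250000000, nat_lit 9842000000], [], [nat_lit 30733371910, nat_lit 30988853704, nat_lit 37647926070, nat_lit 38144211032, nat_lit 29031196604, nat_lit 29184708875, nat_lit 32205068004, nat_lit 32274546472], nat_lit 1271250, nat_lit 1271250, nat_lit 1271250, nat_lit 1271250, nat_lit 0, nat_lit 1836250, [nat_lit 1100000, nat_lit 1442500, nat_lit 1271250], [nat_lit 11, nat_lit 40, nat_lit 20, nat_lit 80, nat_lit 1, nat_lit 483, nat_lit 250, nat_lit 13]⟩, ⟨p039_k4, nat_lit 0, nat_lit 0, nat_lit 82, nat_lit 0, nat_lit 0, [nat_lit 4688000000, nat_lit 6250000000, nat_lit 11872000000], [], [nat_lit 15232120992, nat_lit 17884064960, nat_lit 27686361760, nat_lit 29378013504, nat_lit 21281990925, nat_lit 23207458388, nat_lit 31106645082, nat_lit 32318518740], nat_lit 0, nat_lit 0, nat_lit 0, nat_lit 0, nat_lit 0, nat_lit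 0, [], [nat_lit 48, nat_lit 40, nat_lit 20, nat_lit 80, nat_lit 12, nat_lit 483, nat_lit 250, nat_lit 12]⟩,
 zbF0, [⟨nat_lit 4, nat_lit 100, nat_lit 94, nat_lit 53, nat_lit 116332703⟩, ⟨nat_lit 7, nat_lit 100, nat_lit 98, nat_lit 54, nat_lit 802447203⟩]⟩
noncomputable def b_VL_600_600_5_87 : St := ⟨true, nat_lit 1, nat_lit 0, nat_lit 2, nat_lit 40, nat_lit 260, nat_lit 280, nat_lit 240, nat_lit 280, nat_lit 240, nat_lit 400, nat_lit 20, nat_lit 40, nat_lit 0, nat_lit 268, nat_lit 0, nat_lit 288, nat_lit 0, nat_lit 40, nat_lit 0, nat_lit 0, nat_lit 0, nat_lit 0⟩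
theorem d_VL_600_600_5_87 (h : EB TB.env) : Dead b_VL_600_600_5_87 := chkB_sound0 h (T :=
(.spl (nat_lit 5) (nat_lit 160)
(.leaf p039_l57)
(.spl (nat_lit 0) (nat_lit 270)
(.ord (.leaf p039_l58))
(.trX (nat_lit 16) (nat_lit 98) (nat_lit 100) (nat_lit 63) (nat_lit 260) (.leaf p039_l59))))) (by decide +kernel)
noncomputable def p039_l60 : Lf2 := ⟨nat_lit 0, nat_lit 10, [nat_lit 0, nat_lit 5, nat_lit 5, nat_lit 20], true, nat_lit 0, nat_lit 80, nat_lit 0, nat_lit 288, ⟨nat_lit 0, nat_lit 1000, nat_lit 0, nat_lit 6, nat_lit 99, nat_lit 0, nat_lit 15, nat_lit 0, nat_lit 0, nat_lit 0, nat_lit 0, nat_lit 0, nat_lit 0, nat_lit 0, nat_lit 0, nat_lit 5000000, false, false⟩,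
 nat_lit 0, nat_lit 6563, nat_lit 0, nat_lit 0, nat_lit 3474, nat_lit 0, nat_lit 725, nat_lit 0, nat_lit 0, nat_lit 0, nat_lit 0, nat_lit 0, nat_lit 0, nat_lit 24360010013440, nat_lit 0, nat_lit 400000, nat_lit 0, nat_lit 0, [(nat_lit 6, [(nat_lit 1, nat_lit 1000)])],
 ⟨p039_k4, nat_lit 0, nat_lit 0, nat_lit 551, nat_lit 0, nat_lit 415503, [nat_lit 2692266667, nat_lit 3429200000, nat_lit 3039200000], [], [nat_lit 31895777422, nat_lit 30070086202, nat_lit 27825639486, nat_lit 28430598530, nat_lit 27435840466, nat_lit 28037343174, nat_lit 27133824419, nat_lit 27517897702], nat_lit 1271250, nat_lit 1271250, nat_lit 88400, nat_lit 490000, nat_lit 0, nat_lit 490000, [nat_lit 1100000, nat_lit 1442500, nat_lit 1271250], [nat_lit 48, nat_lit 40, nat_lit 20, nat_lit 80, nat_lit 12, nat_lit 345, nat_lit 125, nat_lit 9]⟩, C1.Rw.none,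
 ⟨nat_lit 5916, nat_lit 6325, ⟨.ofNat (nat_lit 164319), .ofNat (nat_lit 295942), .ofNat (nat_lit 185687), .ofNat (nat_lit 317309), .ofNat (nat_lit 181423), .ofNat (nat_lit 307076), .ofNat (nat_lit 202762), .ofNat (nat_lit 328416)⟩, ⟨.negSucc (nat_lit 103633), .ofNat (nat_lit 60895), .negSucc (nat_lit 82265), .ofNat (nat_lit 82263), .negSucc (nat_lit 84722), .ofNat (nat_lit 72344), .negSucc (nat_lit 63383), .ofNat (nat_lit 93684)⟩⟩, [⟨nat_lit 0, nat_lit 100, nat_lit 100, nat_lit 50, nat_lit 37424439⟩]⟩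
noncomputable def p039_l61 : Lf2 := ⟨nat_lit 0, nat_lit 10, [nat_lit 0, nat_lit 5, nat_lit 5, nat_lit 20], false, nat_lit 0, nat_lit 80, nat_lit 0, nat_lit 288, ⟨nat_lit 0, nat_lit 1000, nat_lit 0, nat_lit 6, nat_lit 141, nat_lit 1000, nat_lit 15, nat_lit 0, nat_lit 0, nat_lit 0, nat_lit 0, nat_lit 0, nat_lit 0, nat_lit 0, nat_lit 0, nat_lit 5000000, false, false⟩,
 nat_lit 15566, nat_lit 0, nat_lit 0, nat_lit 0, nat_lit 8240, nat_lit 0, nat_lit 1304, nat_lit 0, nat_lit 0, nat_lit 0, nat_lit 0, nat_lit 0, nat_lit 0, nat_lit 47562428213069, nat_lit 0, nat_lit 400000, nat_lit 0, nat_lit 0, [(nat_lit 6, [(nat_lit 1, nat_lit 1000)])],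
 ⟨p039_k4, nat_lit 0, nat_lit 0, nat_lit 508, nat_lit 0, nat_lit 415503, [nat_lit 2692266667, nat_lit 3429200000, nat_lit 3039200000], [], [nat_lit 23337229921, nat_lit 19109632001, nat_lit 20371452747, nat_lit 18182377240, nat_lit 19668114187, nat_lit 15677004267, nat_lit 22404294347, nat_lit 18468145227], nat_lit 1271250, nat_lit 1271250, nat_lit 490000, nat_lit 780000, nat_lit 0, nat_lit 490000, [nat_lit 1100000, nat_lit 1442500, nat_lit 1271250], [nat_lit 48, nat_lit 40, nat_lit 20, nat_lit 80, nat_lit 12, nat_lit 345, nat_lit 125, nat_lit 9]⟩, ⟨p039_k4, nat_lit 0, nat_lit 0, nat_lit 508, nat_lit 0, nat_lit 415503, [nat_lit 0, nat_lit 0, nat_lit 0], [], [nat_lit 0, nat_lit 0, nat_lit 0, nat_lit 0, nat_lit 0, nat_lit 0, nat_lit 0, nat_lit 0], nat_lit 1271250, nat_lit 1271250, nat_lit 490000, nat_lit 780000, nat_lit 0, nat_lit 2034000, [nat_lit 1100000, nat_lit 1442500, nat_lit 1271250], [nat_lit 48, nat_lit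 40, nat_lit 20, nat_lit 80, nat_lit 12, nat_lit 401, nat_lit 175, nat_lit 11]⟩,
 ⟨nat_lit 5916, nat_lit 6325, ⟨.ofNat (nat_lit 295942), .ofNat (nat_lit 378206), .ofNat (nat_lit 317309), .ofNat (nat_lit 399574), .ofNat (nat_lit 307076), .ofNat (nat_lit 385610), .ofNat (nat_lit 328416), .ofNat (nat_lit 406949)⟩, ⟨.negSucc (nat_lit 103633), .ofNat (nat_lit 60895), .negSucc (nat_lit 82265), .ofNat (nat_lit 82263), .negSucc (nat_lit 84722), .ofNat (nat_lit 72344), .negSucc (nat_lit 63383), .ofNat (nat_lit 93684)⟩⟩, []⟩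
noncomputable def p039_l62 : Lf2 := ⟨nat_lit 0, nat_lit 10, [nat_lit 0, nat_lit 5, nat_lit 5, nat_lit 20], true, nat_lit 80, nat_lit 160, nat_lit 0, nat_lit 288, ⟨nat_lit 0, nat_lit 1000, nat_lit 0, nat_lit 6, nat_lit 99, nat_lit 1000, nat_lit 63, nat_lit 0, nat_lit 0, nat_lit 0, nat_lit 0, nat_lit 0, nat_lit 0, nat_lit 0, nat_lit 0, nat_lit 5000000, false, false⟩,
 nat_lit 0, nat_lit 2952, nat_lit 0, nat_lit 0, nat_lit 1562, nat_lit 0, nat_lit 0, nat_lit 0, nat_lit 0, nat_lit 0, nat_lit 0, nat_lit 0, nat_lit 0, nat_lit 20025475661424, nat_lit 0, nat_lit 400000, nat_lit 0, nat_lit 0, [(nat_lit 6, [(nat_lit 1, nat_lit 1000)])],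
 ⟨p039_k4, nat_lit 0, nat_lit 0, nat_lit 492, nat_lit 0, nat_lit 415503, [nat_lit 2692266667, nat_lit 3429200000, nat_lit 3039200000], [], [nat_lit 30427328917, nat_lit 31057301738, nat_lit 30756409739, nat_lit 31362226863, nat_lit 31657293483, nat_lit 32240501795, nat_lit 33374739187, nat_lit 32638715415], nat_lit 1271250, nat_lit 1271250, nat_lit 88400, nat_lit 490000, nat_lit 490000, nat_lit 1100001, [nat_lit 1100000, nat_lit 1442500, nat_lit 1271250], [nat_lit 48, nat_lit 40, nat_lit 20, nat_lit 80, nat_lit 12, nat_lit 345, nat_lit 125, nat_lit 9]⟩, C1.Rw.none,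
 ⟨nat_lit 5916, nat_lit 6325, ⟨.ofNat (nat_lit 164319), .ofNat (nat_lit 295942), .ofNat (nat_lit 185687), .ofNat (nat_lit 317309), .ofNat (nat_lit 181423), .ofNat (nat_lit 307076), .ofNat (nat_lit 202762), .ofNat (nat_lit 328416)⟩, ⟨.ofNat (nat_lit 60895), .ofNat (nat_lit 225423), .ofNat (nat_lit 82263), .ofNat (nat_lit 246791), .ofNat (nat_lit 72344), .ofNat (nat_lit 229411), .ofNat (nat_lit 93684), .ofNat (nat_lit 250751)⟩⟩, []⟩
noncomputable def p039_l63 : Lf2 := ⟨nat_lit 0, nat_lit 10, [nat_lit 0, nat_lit 5, nat_lit 5, nat_lit 20], false, nat_lit 80, nat_lit 160, nat_lit 0, nat_lit 288, ⟨nat_lit 0, nat_lit 1000, nat_lit 0, nat_lit 6, nat_lit 141, nat_lit 1000, nat_lit 63, nat_lit 0, nat_lit 0, nat_lit 0, nat_lit 0, nat_lit 0, nat_lit 0, nat_lit 0, nat_lit 0, nat_lit 5000000, false, false⟩,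
 nat_lit 0, nat_lit 10044, nat_lit 0, nat_lit 0, nat_lit 5317, nat_lit 0, nat_lit 0, nat_lit 0, nat_lit 0, nat_lit 0, nat_lit 0, nat_lit 0, nat_lit 0, nat_lit 35474150449364, nat_lit 0, nat_lit 400000, nat_lit 0, nat_lit 0, [(nat_lit 6, [(nat_lit 1, nat_lit 1000)])],
 ⟨p039_k4, nat_lit 0, nat_lit 0, nat_lit 383, nat_lit 0, nat_lit 415503, [nat_lit 2692266667, nat_lit 3429200000, nat_lit 3039200000], [], [nat_lit 28601136055, nat_lit 25832159429, nat_lit 23063182803, nat_lit 22868254853, nat_lit 25118472346, nat_lit 23167174291, nat_lit 27366458154, nat_lit 24861055852], nat_lit 1271250, nat_lit 1271250, nat_lit 490000, nat_lit 780000, nat_lit 490000, nat_lit 1100001, [nat_lit 1100000, nat_lit 1442500, nat_lit 1271250], [nat_lit 48, nat_lit 40, nat_lit 20, nat_lit 80, nat_lit 12, nat_lit 373, nat_lit 150, nat_lit 10]⟩, ⟨p039_k4, nat_lit 0, nat_lit 0, nat_lit 508, nat_lit 0, nat_lit 415503, [nat_lit 0, nat_lit 0,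 nat_lit 0], [], [nat_lit 0, nat_lit 0, nat_lit 0, nat_lit 0, nat_lit 0, nat_lit 0, nat_lit 0, nat_lit 0], nat_lit 1271250, nat_lit 1271250, nat_lit 490000, nat_lit 780000, nat_lit 0, nat_lit 2034000, [nat_lit 1100000, nat_lit 1442500, nat_lit 1271250], [nat_lit 48, nat_lit 40, nat_lit 20, nat_lit 80, nat_lit 12, nat_lit 401, nat_lit 175, nat_lit 11]⟩,
 ⟨nat_lit 5916, nat_lit 6325, ⟨.ofNat (nat_lit 295942), .ofNat (nat_lit 378206), .ofNat (nat_lit 317309), .ofNat (nat_lit 399574), .ofNat (nat_lit 307076), .ofNat (nat_lit 385610), .ofNat (nat_lit 328416), .ofNat (nat_lit 406949)⟩, ⟨.ofNat (nat_lit 60895), .ofNat (nat_lit 225423), .ofNat (nat_lit 82263), .ofNat (nat_lit 246791), .ofNat (nat_lit 72344), .ofNat (nat_lit 229411), .ofNat (nat_lit 93684), .ofNat (nat_lit 250751)⟩⟩, []⟩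
noncomputable def p039_l64 : Lf2 := ⟨nat_lit 0, nat_lit 10, [nat_lit 0, nat_lit 5, nat_lit 5, nat_lit 20], false, nat_lit 0, nat_lit 160, nat_lit 0, nat_lit 288, ⟨nat_lit 0, nat_lit 1000, nat_lit 0, nat_lit 6, nat_lit 173, nat_lit 1000, nat_lit 48, nat_lit 0, nat_lit 0, nat_lit 0, nat_lit 0, nat_lit 0, nat_lit 0, nat_lit 0, nat_lit 0, nat_lit 5000000, false, false⟩,
 nat_lit 5286, nat_lit 0, nat_lit 0, nat_lit 0, nat_lit 2798, nat_lit 0, nat_lit 170, nat_lit 0, nat_lit 0, nat_lit 0, nat_lit 0, nat_lit 0, nat_lit 0, nat_lit 24791317055326, nat_lit 0, nat_lit 400000, nat_lit 0, nat_lit 0, [(nat_lit 6, [(nat_lit 1, nat_lit 1000)])],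
 ⟨p039_k0, nat_lit 0, nat_lit 0, nat_lit 490, nat_lit 0, nat_lit 415503, [nat_lit 2838000000, nat_lit 3296133334, nat_lit 3042266666], [], [nat_lit 32944421368, nat_lit 31442068844, nat_lit 29939716320, nat_lit 29937867312, nat_lit 28973606736, nat_lit 29526902584, nat_lit 29900220272, nat_lit 29974817836], nat_lit 1271250, nat_lit 1271250, nat_lit 780000, nat_lit 1100001, nat_lit 0, nat_lit 1100001, [nat_lit 1100000, nat_lit 1785000, nat_lit 1271250], [nat_lit 21, nat_lit 40, nat_lit 20, nat_lit 80, nat_lit 14, nat_lit 373, nat_lit 150, nat_lit 10]⟩, ⟨p039_k0, nat_lit 0, nat_lit 0, nat_lit 490, nat_lit 0, nat_lit 415503, [nat_lit 0, nat_lit 0, nat_lit 0], [], [nat_lit 0, nat_lit 0, nat_lit 0, nat_lit 0, nat_lit 0, nat_lit 0, nat_lit 0, nat_lit 0], nat_lit 1271250, nat_lit 1271250, nat_lit 780000, nat_lit 1100001, nat_lit 0, nat_lit 2034000, [nat_lit 1100000, nat_lit 1785000, nat_lit 1271250], [nat_lit 21, nat_lit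 40, nat_lit 20, nat_lit 80, nat_lit 14, nat_lit 428, nat_lit 200, nat_lit 11]⟩,
 ⟨nat_lit 5916, nat_lit 6325, ⟨.ofNat (nat_lit 378206), .ofNat (nat_lit 460470), .ofNat (nat_lit 399574), .ofNat (nat_lit 481838), .ofNat (nat_lit 385610), .ofNat (nat_lit 464143), .ofNat (nat_lit 406949), .ofNat (nat_lit 485483)⟩, ⟨.negSucc (nat_lit 103633), .ofNat (nat_lit 225423), .negSucc (nat_lit 82265), .ofNat (nat_lit 246791), .negSucc (nat_lit 84722), .ofNat (nat_lit 229411), .negSucc (nat_lit 63383), .ofNat (nat_lit 250751)⟩⟩, []⟩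
noncomputable def p039_l65 : Lf2 := ⟨nat_lit 0, nat_lit 5, [nat_lit 4, nat_lit 5, nat_lit 5, nat_lit 20], false, nat_lit 0, nat_lit 160, nat_lit 0, nat_lit 288, ⟨nat_lit 0, nat_lit 1000, nat_lit 0, nat_lit 6, nat_lit 127, nat_lit 1000, nat_lit 48, nat_lit 0, nat_lit 0, nat_lit 0, nat_lit 0, nat_lit 0, nat_lit 0, nat_lit 0, nat_lit 0, nat_lit 5000000, false, false⟩,
 nat_lit 0, nat_lit 7296, nat_lit 0, nat_lit 0, nat_lit 4246, nat_lit 0, nat_lit 510, nat_lit 0, nat_lit 0, nat_lit 0, nat_lit 0, nat_lit 0, nat_lit 0, nat_lit 27836221228841, nat_lit 0, nat_lit 1000000, nat_lit 0, nat_lit 0, [(nat_lit 9, [(nat_lit 2, nat_lit 1000)])],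
 ⟨p039_k14, nat_lit 0, nat_lit 0, nat_lit 439, nat_lit 0, nat_lit 532436, [nat_lit 2663466667, nat_lit 2329200000, nat_lit 1646800000], [], [nat_lit 29535387037, nat_lit 27310746289, nat_lit 21553569413, nat_lit 22350488081, nat_lit 23676462619, nat_lit 22164101752, nat_lit 27591507083, nat_lit 25617533191], nat_lit 1271250, nat_lit 1271250, nat_lit 134400, nat_lit 780000, nat_lit 0, nat_lit 1100001, [nat_lit 1100000, nat_lit 1442500, nat_lit 1271250], [nat_lit 9, nat_lit 40, nat_lit 20, nat_lit 80, nat_lit 2, nat_lit 289, nat_lit 75, nat_lit 10]⟩, ⟨p039_k7, nat_lit 0, nat_lit 0, nat_lit 569, nat_lit 0, nat_lit 593938, [nat_lit 0, nat_lit 0, nat_lit 0], [], [nat_lit 0, nat_lit 0, nat_lit 0, nat_lit 0, nat_lit 0, nat_lit 0, nat_lit 0, nat_lit 0], nat_lit 1271250, nat_lit 1271250, nat_lit 134400, nat_lit 780000, nat_lit 0, nat_lit 2034000, [nat_lit 1100000, nat_lit 1442500, nat_lit 1271250], [nat_lit 11, nat_lit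 40, nat_lit 20, nat_lit 80, nat_lit 1, nat_lit 401, nat_lit 175, nat_lit 12]⟩,
 ⟨nat_lit 5477, nat_lit 5917, ⟨.ofNat (nat_lit 197129), .ofNat (nat_lit 385610), .ofNat (nat_lit 239808), .ofNat (nat_lit 428288), .ofNat (nat_lit 213007), .ofNat (nat_lit 392847), .ofNat (nat_lit 255721), .ofNat (nat_lit 435561)⟩, ⟨.negSucc (nat_lit 84722), .ofNat (nat_lit 229411), .negSucc (nat_lit 63383), .ofNat (nat_lit 250751), .negSucc (nat_lit 66879), .ofNat (nat_lit 232852), .negSucc (nat_lit 45522), .ofNat (nat_lit 254209)⟩⟩, []⟩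
noncomputable def p039_l66 : Lf2 := ⟨nat_lit 0, nat_lit 5, [nat_lit 4, nat_lit 5, nat_lit 5, nat_lit 20], false, nat_lit 0, nat_lit 160, nat_lit 0, nat_lit 288, ⟨nat_lit 40, nat_lit 960, nat_lit 0, nat_lit 6, nat_lit 180, nat_lit 960, nat_lit 48, nat_lit 0, nat_lit 0, nat_lit 0, nat_lit 0, nat_lit 0, nat_lit 0, nat_lit 0, nat_lit 0, nat_lit 5000000, false, false⟩,
 nat_lit 1784, nat_lit 5561, nat_lit 0, nat_lit 0, nat_lit 4275, nat_lit 944, nat_lit 558, nat_lit 0, nat_lit 0, nat_lit 0, nat_lit 0, nat_lit 0, nat_lit 0, nat_lit 22090928965722, nat_lit 0, nat_lit 960000, nat_lit 0, nat_lit 0, [(nat_lit 9, [(nat_lit 2, nat_lit 960)])],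
 ⟨p039_k14, nat_lit 0, nat_lit 0, nat_lit 381, nat_lit 0, nat_lit 532436, [nat_lit 2744448000, nat_lit 2486032000, nat_lit 1898088000], [], [nat_lit 29022459300, nat_lit 26762104350, nat_lit 24535778400, nat_lit 23185757850, nat_lit 25364636100, nat_lit 23350230450, nat_lit 28114795500, nat_lit 26127339450], nat_lit 1271250, nat_lit 1271250, nat_lit 780000, nat_lit 1100001, nat_lit 0, nat_lit 1100001, [nat_lit 1100000, nat_lit 1442500, nat_lit 1271250], [nat_lit 9, nat_lit 40, nat_lit 20, nat_lit 80, nat_lit 2, nat_lit 317, nat_lit 100, nat_lit 10]⟩, ⟨p039_k7, nat_lit 0, nat_lit 0, nat_lit 478, nat_lit 0, nat_lit 593938, [nat_lit 187520000, nat_lit 250000000, nat_lit 393680000], [], [nat_lit 2676025440, nat_lit 1677768096, nat_lit 1677768096, nat_lit 1194915680, nat_lit 1321501216, nat_lit 940525088, nat_lit 1728198938, nat_lit 892777888], nat_lit 1271250, nat_lit 1271250, nat_lit 780000, nat_lit 1100001, nat_lit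 0, nat_lit 2034000, [nat_lit 1100000, nat_lit 1442500, nat_lit 1271250], [nat_lit 11, nat_lit 40, nat_lit 20, nat_lit 80, nat_lit 1, nat_lit 428, nat_lit 200, nat_lit 12]⟩,
 ⟨nat_lit 5477, nat_lit 5917, ⟨.ofNat (nat_lit 385610), .ofNat (nat_lit 464143), .ofNat (nat_lit 428288), .ofNat (nat_lit 506809), .ofNat (nat_lit 392847), .ofNat (nat_lit 467780), .ofNat (nat_lit 435561), .ofNat (nat_lit 510480)⟩, ⟨.negSucc (nat_lit 84722), .ofNat (nat_lit 229411), .negSucc (nat_lit 63383), .ofNat (nat_lit 250751), .negSucc (nat_lit 66879), .ofNat (nat_lit 232852), .negSucc (nat_lit 45522), .ofNat (nat_lit 254209)⟩⟩, [⟨nat_lit 7, nat_lit 100, nat_lit 98, nat_lit 54, nat_lit 3527386⟩]⟩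
noncomputable def p039_l67 : Lf2 := ⟨nat_lit 0, nat_lit 10, [nat_lit 0, nat_lit 5, nat_lit 5, nat_lit 20], false, nat_lit 0, nat_lit 160, nat_lit 0, nat_lit 288, ⟨nat_lit 0, nat_lit 1000, nat_lit 0, nat_lit 6, nat_lit 127, nat_lit 1000, nat_lit 48, nat_lit 0, nat_lit 0, nat_lit 0, nat_lit 0, nat_lit 0, nat_lit 0, nat_lit 0, nat_lit 0, nat_lit 5000000, false, false⟩,
 nat_lit 0, nat_lit 9487, nat_lit 0, nat_lit 0, nat_lit 5522, nat_lit 0, nat_lit 0, nat_lit 0, nat_lit 0, nat_lit 0, nat_lit 0, nat_lit 0, nat_lit 0, nat_lit 33448615861030, nat_lit 0, nat_lit 400000, nat_lit 0, nat_lit 0, [(nat_lit 9, [(nat_lit 1, nat_lit 1000)])],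
 ⟨p039_k10, nat_lit 0, nat_lit 0, nat_lit 452, nat_lit 0, nat_lit 366716, [nat_lit 2702720000, nat_lit 2968400001, nat_lit 2997199999], [], [nat_lit 30117440052, nat_lit 27224254416, nat_lit 23782959389, nat_lit 24506766113, nat_lit 23782257921, nat_lit 23721996091, nat_lit 28097786214, nat_lit 25530597370], nat_lit 1271250, nat_lit 1271250, nat_lit 134400, nat_lit 780000, nat_lit 0, nat_lit 1100001, [nat_lit 1100000, nat_lit 1442500, nat_lit 1271250], [nat_lit 11, nat_lit 40, nat_lit 20, nat_lit 80, nat_lit 1, nat_lit 373, nat_lit 150, nat_lit 11]⟩, ⟨p039_k4, nat_lit 0, nat_lit 0, nat_lit 543, nat_lit 0, nat_lit 410507, [nat_lit 0, nat_lit 0, nat_lit 0], [], [nat_lit 0, nat_lit 0, nat_lit 0, nat_lit 0, nat_lit 0, nat_lit 0, nat_lit 0, nat_lit 0], nat_lit 1271250, nat_lit 1271250, nat_lit 134400, nat_lit 780000, nat_lit 0, nat_lit 2034000, [nat_lit 1100000, nat_lit 1442500, nat_lit 1271250], [nat_lit 48, nat_lit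 40, nat_lit 20, nat_lit 80, nat_lit 12, nat_lit 401, nat_lit 175, nat_lit 11]⟩,
 ⟨nat_lit 5477, nat_lit 5917, ⟨.ofNat (nat_lit 197129), .ofNat (nat_lit 385610), .ofNat (nat_lit 239808), .ofNat (nat_lit 428288), .ofNat (nat_lit 213007), .ofNat (nat_lit 392847), .ofNat (nat_lit 255721), .ofNat (nat_lit 435561)⟩, ⟨.negSucc (nat_lit 84722), .ofNat (nat_lit 229411), .negSucc (nat_lit 63383), .ofNat (nat_lit 250751), .negSucc (nat_lit 66879), .ofNat (nat_lit 232852), .negSucc (nat_lit 45522), .ofNat (nat_lit 254209)⟩⟩, []⟩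
noncomputable def p039_l68 : Lf2 := ⟨nat_lit 0, nat_lit 10, [nat_lit 0, nat_lit 5, nat_lit 5, nat_lit 20], false, nat_lit 0, nat_lit 160, nat_lit 0, nat_lit 288, ⟨nat_lit 22, nat_lit 978, nat_lit 0, nat_lit 6, nat_lit 180, nat_lit 978, nat_lit 48, nat_lit 0, nat_lit 0, nat_lit 0, nat_lit 0, nat_lit 0, nat_lit 0, nat_lit 0, nat_lit 0, nat_lit 5000000, false, false⟩,
 nat_lit 991, nat_lit 6933, nat_lit 0, nat_lit 0, nat_lit 4612, nat_lit 524, nat_lit 0, nat_lit 0, nat_lit 0, nat_lit 37, nat_lit 0, nat_lit 0, nat_lit 0, nat_lit 26329150663138, nat_lit 0, nat_lit 391200, nat_lit 0, nat_lit 0, [(nat_lit 9, [(nat_lit 1, nat_lit 978)])],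
 ⟨p039_k10, nat_lit 0, nat_lit 0, nat_lit 350, nat_lit 0, nat_lit 366716, [nat_lit 2746396160, nat_lit 3040595201, nat_lit 3144353599], [], [nat_lit 30376413785, nat_lit 27937874129, nat_lit 25536045993, nat_lit 25332348528, nat_lit 25801590969, nat_lit 23656479264, nat_lit 28667643321, nat_lit 26523515297], nat_lit 1271250, nat_lit 1271250, nat_lit 780000, nat_lit 1100001, nat_lit 0, nat_lit 1100001, [nat_lit 1100000, nat_lit 1442500, nat_lit 1271250], [nat_lit 11, nat_lit 40, nat_lit 20, nat_lit 80, nat_lit 1, nat_lit 373, nat_lit 150, nat_lit 11]⟩, ⟨p039_k4, nat_lit 0, nat_lit 0, nat_lit 487, nat_lit 0, nat_lit 410507, [nat_lit 103136000, nat_lit 137500000, nat_lit 261184000], [], [nat_lit 1479128424, nat_lit 925011000, nat_lit 925011000, nat_lit 715077427, nat_lit 724470520, nat_lit 518440568, nat_lit 949961882, nat_lit 491737759], nat_lit 1271250, nat_lit 1271250, nat_lit 780000, nat_lit 1100001, nat_lit 0,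 nat_lit 2034000, [nat_lit 1100000, nat_lit 1442500, nat_lit 1271250], [nat_lit 48, nat_lit 40, nat_lit 20, nat_lit 80, nat_lit 12, nat_lit 428, nat_lit 200, nat_lit 11]⟩,
 ⟨nat_lit 5477, nat_lit 5917, ⟨.ofNat (nat_lit 385610), .ofNat (nat_lit 464143), .ofNat (nat_lit 428288), .ofNat (nat_lit 506809), .ofNat (nat_lit 392847), .ofNat (nat_lit 467780), .ofNat (nat_lit 435561), .ofNat (nat_lit 510480)⟩, ⟨.negSucc (nat_lit 84722), .ofNat (nat_lit 229411), .negSucc (nat_lit 63383), .ofNat (nat_lit 250751), .negSucc (nat_lit 66879), .ofNat (nat_lit 232852), .negSucc (nat_lit 45522), .ofNat (nat_lit 254209)⟩⟩, []⟩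
noncomputable def p039_l69 : Lf2 := ⟨nat_lit 0, nat_lit 10, [nat_lit 0, nat_lit 5, nat_lit 5, nat_lit 20], false, nat_lit 0, nat_lit 160, nat_lit 0, nat_lit 288, ⟨nat_lit 6, nat_lit 994, nat_lit 0, nat_lit 6, nat_lit 221, nat_lit 994, nat_lit 48, nat_lit 0, nat_lit 0, nat_lit 0, nat_lit 0, nat_lit 0, nat_lit 0, nat_lit 0, nat_lit 0, nat_lit 5000000, false, false⟩,
 nat_lit 6257, nat_lit 0, nat_lit 0, nat_lit 0, nat_lit 3312, nat_lit 67, nat_lit 648, nat_lit 0, nat_lit 0, nat_lit 12, nat_lit 0, nat_lit 0, nat_lit 0, nat_lit 23031802798692, nat_lit 0, nat_lit 397600, nat_lit 0, nat_lit 0, [(nat_lit 6, [(nat_lit 1, nat_lit 994)])],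
 ⟨p039_k4, nat_lit 0, nat_lit 0, nat_lit 414, nat_lit 0, nat_lit 415503, [nat_lit 2704241067, nat_lit 3446124800, nat_lit 3090792800], [], [nat_lit 30455452214, nat_lit 28704271958, nat_lit 27182461923, nat_lit 27768916051, nat_lit 25187949123, nat_lit 25767270499, nat_lit 28756118699, nat_lit 27241755307], nat_lit 1271250, nat_lit 1271250, nat_lit 1100001, nat_lit 1785000, nat_lit 0, nat_lit 1100001, [nat_lit 1100000, nat_lit 1442500, nat_lit 1271250], [nat_lit 48, nat_lit 40, nat_lit 20, nat_lit 80, nat_lit 12, nat_lit 401, nat_lit 175, nat_lit 10]⟩, ⟨p039_k4, nat_lit 0, nat_lit 0, nat_lit 414, nat_lit 0, nat_lit 415503, [nat_lit 28128000, nat_lit 37500000, nat_lit 71232000], [], [nat_lit 278353352, nat_lit 242927906, nat_lit 155711152, nat_lit 164034258, nat_lit 215393739, nat_lit 183902640, nat_lit 123167969, nat_lit 131710896], nat_lit 1271250, nat_lit 1271250, nat_lit 1271250, nat_lit 1271250, nat_lit 0,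 nat_lit 2034000, [nat_lit 1100000, nat_lit 1442500, nat_lit 1271250], [nat_lit 48, nat_lit 40, nat_lit 20, nat_lit 80, nat_lit 12, nat_lit 428, nat_lit 200, nat_lit 11]⟩,
 ⟨nat_lit 5916, nat_lit 6325, ⟨.ofNat (nat_lit 460470), .ofNat (nat_lit 624961), .ofNat (nat_lit 481838), .ofNat (nat_lit 646322), .ofNat (nat_lit 464143), .ofNat (nat_lit 621173), .ofNat (nat_lit 485483), .ofNat (nat_lit 642505)⟩, ⟨.negSucc (nat_lit 103633), .ofNat (nat_lit 225423), .negSucc (nat_lit 82265), .ofNat (nat_lit 246791), .negSucc (nat_lit 84722), .ofNat (nat_lit 229411), .negSucc (nat_lit 63383), .ofNat (nat_lit 250751)⟩⟩, []⟩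
noncomputable def p039_l70 : Lf2 := ⟨nat_lit 0, nat_lit 10, [nat_lit 0, nat_lit 5, nat_lit 5, nat_lit 20], false, nat_lit 0, nat_lit 160, nat_lit 0, nat_lit 288, ⟨nat_lit 130, nat_lit 870, nat_lit 0, nat_lit 6, nat_lit 226, nat_lit 870, nat_lit 48, nat_lit 0, nat_lit 0, nat_lit 0, nat_lit 0, nat_lit 0, nat_lit 0, nat_lit 0, nat_lit 0, nat_lit 5000000, false, false⟩,
 nat_lit 2907, nat_lit 3914, nat_lit 0, nat_lit 0, nat_lit 3970, nat_lit 1539, nat_lit 690, nat_lit 0, nat_lit 0, nat_lit 201, nat_lit 0, nat_lit 0, nat_lit 0, nat_lit 14580554290757, nat_lit 0, nat_lit 348000, nat_lit 0, nat_lit 0, [(nat_lit 9, [(nat_lit 1, nat_lit 870)])],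
 ⟨p039_k10, nat_lit 0, nat_lit 0, nat_lit 457, nat_lit 0, nat_lit 570775, [nat_lit 2960806400, nat_lit 3395008001, nat_lit 3866743999], [], [nat_lit 29872179740, nat_lit 27773089880, nat_lit 28202657191, nat_lit 28740415611, nat_lit 26003174091, nat_lit 26530795371, nat_lit 27271054071, nat_lit 27747331253], nat_lit 1271250, nat_lit 1271250, nat_lit 1100001, nat_lit 1785000, nat_lit 0, nat_lit 1100001, [nat_lit 1100000, nat_lit 1442500, nat_lit 1271250], [nat_lit 11, nat_lit 40, nat_lit 20, nat_lit 80, nat_lit 1, nat_lit 401, nat_lit 175, nat_lit 11]⟩, ⟨p039_k4, nat_lit 0, nat_lit 0, nat_lit 552, nat_lit 0, nat_lit 638933, [nat_lit 609440000, nat_lit 812500000, nat_lit 1543360000], [], [nat_lit 6164071320, nat_lit 4536615756, nat_lit 3678539379, nat_lit 4051756407, nat_lit 4654389569, nat_lit 3207679090, nat_lit 2883800449, nat_lit 3081056176], nat_lit 1271250, nat_lit 1271250, nat_lit 1271250, nat_lit 1271250,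 nat_lit 0, nat_lit 2034000, [nat_lit 1100000, nat_lit 1442500, nat_lit 1271250], [nat_lit 48, nat_lit 40, nat_lit 20, nat_lit 80, nat_lit 12, nat_lit 456, nat_lit 225, nat_lit 12]⟩,
 ⟨nat_lit 5477, nat_lit 5917, ⟨.ofNat (nat_lit 464143), .ofNat (nat_lit 621176), .ofNat (nat_lit 506809), .ofNat (nat_lit 663838), .ofNat (nat_lit 467780), .ofNat (nat_lit 617611), .ofNat (nat_lit 510480), .ofNat (nat_lit 660309)⟩, ⟨.negSucc (nat_lit 84722), .ofNat (nat_lit 229411), .negSucc (nat_lit 63383), .ofNat (nat_lit 250751), .negSucc (nat_lit 66879), .ofNat (nat_lit 232852), .negSucc (nat_lit 45522), .ofNat (nat_lit 254209)⟩⟩, []⟩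
noncomputable def p039_l71 : Lf2 := ⟨nat_lit 0, nat_lit 10, [nat_lit 0, nat_lit 5, nat_lit 5, nat_lit 20], false, nat_lit 160, nat_lit 288, nat_lit 0, nat_lit 288, ⟨nat_lit 0, nat_lit 1000, nat_lit 0, nat_lit 6, nat_lit 161, nat_lit 1000, nat_lit 147, nat_lit 0, nat_lit 0, nat_lit 0, nat_lit 0, nat_lit 0, nat_lit 0, nat_lit 0, nat_lit 0, nat_lit 5000000, false, false⟩,
 nat_lit 8135, nat_lit 0, nat_lit 0, nat_lit 0, nat_lit 4306, nat_lit 0, nat_lit 516, nat_lit 0, nat_lit 0, nat_lit 0, nat_lit 0, nat_lit 0, nat_lit 0, nat_lit 30483939063403, nat_lit 0, nat_lit 400000, nat_lit 0, nat_lit 0, [(nat_lit 6, [(nat_lit 1, nat_lit 1000)])],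
 ⟨p039_k4, nat_lit 0, nat_lit 0, nat_lit 358, nat_lit 0, nat_lit 306108, [nat_lit 2692266667, nat_lit 3429200000, nat_lit 3039200000], [], [nat_lit 30118127690, nat_lit 28986661600, nat_lit 29961611259, nat_lit 28933148995, nat_lit 26819674331, nat_lit 27092902336, nat_lit 26872193689, nat_lit 27074448578], nat_lit 1271250, nat_lit 1271250, nat_lit 88400, nat_lit 1704000, nat_lit 1271250, nat_lit 1271250, [nat_lit 1100000, nat_lit 1442500, nat_lit 1271250], [nat_lit 48, nat_lit 40, nat_lit 20, nat_lit 80, nat_lit 12, nat_lit 428, nat_lit 200, nat_lit 11]⟩, ⟨p039_k4, nat_lit 0, nat_lit 0, nat_lit 515, nat_lit 0, nat_lit 306108, [nat_lit 0, nat_lit 0, nat_lit 0], [], [nat_lit 0, nat_lit 0, nat_lit 0, nat_lit 0, nat_lit 0, nat_lit 0, nat_lit 0, nat_lit 0], nat_lit 1271250, nat_lit 1271250, nat_lit 88400, nat_lit 1704000, nat_lit 0, nat_lit 2034000, [nat_lit 1100000, nat_lit 1442500, nat_lit 1271250], [nat_lit 48,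 nat_lit 40, nat_lit 20, nat_lit 80, nat_lit 12, nat_lit 428, nat_lit 200, nat_lit 11]⟩,
 ⟨nat_lit 6123, nat_lit 6325, ⟨.ofNat (nat_lit 164319), .ofNat (nat_lit 624989), .ofNat (nat_lit 175003), .ofNat (nat_lit 635673), .ofNat (nat_lit 172944), .ofNat (nat_lit 623066), .ofNat (nat_lit 183618), .ofNat (nat_lit 633740)⟩, ⟨.ofNat (nat_lit 225423), .ofNat (nat_lit 488669), .ofNat (nat_lit 246791), .ofNat (nat_lit 510037), .ofNat (nat_lit 227485), .ofNat (nat_lit 484703), .ofNat (nat_lit 248833), .ofNat (nat_lit 506051)⟩⟩, []⟩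
noncomputable def p039_l72 : Lf2 := ⟨nat_lit 0, nat_lit 10, [nat_lit 0, nat_lit 5, nat_lit 5, nat_lit 20], false, nat_lit 160, nat_lit 280, nat_lit 0, nat_lit 288, ⟨nat_lit 0, nat_lit 1000, nat_lit 0, nat_lit 6, nat_lit 166, nat_lit 1000, nat_lit 143, nat_lit 0, nat_lit 0, nat_lit 0, nat_lit 0, nat_lit 0, nat_lit 0, nat_lit 0, nat_lit 0, nat_lit 5000000, false, false⟩,
 nat_lit 0, nat_lit 7953, nat_lit 0, nat_lit 0, nat_lit 4418, nat_lit 0, nat_lit 1056, nat_lit 0, nat_lit 0, nat_lit 0, nat_lit 0, nat_lit 0, nat_lit 0, nat_lit 26278341170399, nat_lit 0, nat_lit 400000, nat_lit 0, nat_lit 0, [(nat_lit 6, [(nat_lit 1, nat_lit 1000)])],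
 ⟨p039_k3, nat_lit 0, nat_lit 0, nat_lit 324, nat_lit 0, nat_lit 392282, [nat_lit 2692266667, nat_lit 3151066667, nat_lit 3294533333], [], [nat_lit 28613219734, nat_lit 27454095582, nat_lit 28205120318, nat_lit 27149907526, nat_lit 23887577455, nat_lit 24261503557, nat_lit 25062963485, nat_lit 25336208585], nat_lit 1271250, nat_lit 1271250, nat_lit 111251, nat_lit 1706250, nat_lit 1271250, nat_lit 1271250, [nat_lit 1100000, nat_lit 1442500, nat_lit 1271250], [nat_lit 11, nat_lit 40, nat_lit 20, nat_lit 80, nat_lit 1, nat_lit 428, nat_lit 200, nat_lit 12]⟩, ⟨p039_k4, nat_lit 0, nat_lit 0, nat_lit 547, nat_lit 0, nat_lit 415503, [nat_lit 0, nat_lit 0, nat_lit 0], [], [nat_lit 0, nat_lit 0, nat_lit 0, nat_lit 0, nat_lit 0, nat_lit 0, nat_lit 0, nat_lit 0], nat_lit 1271250, nat_lit 1271250, nat_lit 111251, nat_lit 1706250, nat_lit 0, nat_lit 2034000, [nat_lit 1100000, nat_lit 1442500, nat_lit 1271250], [nat_lit 48,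 nat_lit 40, nat_lit 20, nat_lit 80, nat_lit 12, nat_lit 428, nat_lit 200, nat_lit 11]⟩,
 ⟨nat_lit 5916, nat_lit 6124, ⟨.ofNat (nat_lit 180982), .ofNat (nat_lit 623067), .ofNat (nat_lit 202330), .ofNat (nat_lit 644413), .ofNat (nat_lit 189276), .ofNat (nat_lit 621203), .ofNat (nat_lit 210615), .ofNat (nat_lit 642539)⟩, ⟨.ofNat (nat_lit 227485), .ofNat (nat_lit 468627), .ofNat (nat_lit 248833), .ofNat (nat_lit 489975), .ofNat (nat_lit 229411), .ofNat (nat_lit 465012), .ofNat (nat_lit 250751), .ofNat (nat_lit 486351)⟩⟩, []⟩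
noncomputable def p039_l73 : Lf2 := ⟨nat_lit 0, nat_lit 10, [nat_lit 0, nat_lit 5, nat_lit 5, nat_lit 20], false, nat_lit 160, nat_lit 268, nat_lit 0, nat_lit 288, ⟨nat_lit 0, nat_lit 1000, nat_lit 0, nat_lit 6, nat_lit 143, nat_lit 1000, nat_lit 138, nat_lit 0, nat_lit 0, nat_lit 0, nat_lit 0, nat_lit 0, nat_lit 0, nat_lit 0, nat_lit 0, nat_lit 5000000, false, false⟩,
 nat_lit 0, nat_lit 7430, nat_lit 0, nat_lit 0, nat_lit 4324, nat_lit 0, nat_lit 983, nat_lit 0, nat_lit 0, nat_lit 0, nat_lit 0, nat_lit 0, nat_lit 0, nat_lit 28215867538111, nat_lit 0, nat_lit 400000, nat_lit 0, nat_lit 0, [(nat_lit 9, [(nat_lit 1, nat_lit 1000)])],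
 ⟨p039_k10, nat_lit 0, nat_lit 0, nat_lit 433, nat_lit 0, nat_lit 570775, [nat_lit 2702720000, nat_lit 2968400001, nat_lit 2997199999], [], [nat_lit 26978808584, nat_lit 24713300672, nat_lit 22034477594, nat_lit 22668809554, nat_lit 24698171112, nat_lit 25299589815, nat_lit 26956871052, nat_lit 24913232577], nat_lit 1271250, nat_lit 1271250, nat_lit 134400, nat_lit 1100001, nat_lit 1100001, nat_lit 2024750, [nat_lit 1100000, nat_lit 1442500, nat_lit 1271250], [nat_lit 11, nat_lit 40, nat_lit 20, nat_lit 80, nat_lit 1, nat_lit 428, nat_lit 200, nat_lit 12]⟩, ⟨p039_k4, nat_lit 0, nat_lit 0, nat_lit 670, nat_lit 0, nat_lit 638933, [nat_lit 0, nat_lit 0, nat_lit 0], [], [nat_lit 0, nat_lit 0, nat_lit 0, nat_lit 0, nat_lit 0, nat_lit 0, nat_lit 0, nat_lit 0], nat_lit 1271250, nat_lit 1271250, nat_lit 134400, nat_lit 1100001, nat_lit 0, nat_lit 2034000, [nat_lit 1100000, nat_lit 1442500, nat_lit 1271250], [nat_lit 48,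 nat_lit 40, nat_lit 20, nat_lit 80, nat_lit 12, nat_lit 428, nat_lit 200, nat_lit 11]⟩,
 ⟨nat_lit 5477, nat_lit 5917, ⟨.ofNat (nat_lit 197129), .ofNat (nat_lit 464143), .ofNat (nat_lit 239808), .ofNat (nat_lit 506809), .ofNat (nat_lit 213007), .ofNat (nat_lit 467780), .ofNat (nat_lit 255721), .ofNat (nat_lit 510480)⟩, ⟨.ofNat (nat_lit 229411), .ofNat (nat_lit 441452), .ofNat (nat_lit 250751), .ofNat (nat_lit 462791), .ofNat (nat_lit 232852), .ofNat (nat_lit 435171), .ofNat (nat_lit 254209), .ofNat (nat_lit 456528)⟩⟩, [⟨nat_lit 0, nat_lit 100, nat_lit 98, nat_lit 64, nat_lit 5101621⟩, ⟨nat_lit 4, nat_lit 100, nat_lit 96, nat_lit 54, nat_lit 193640871⟩]⟩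
noncomputable def p039_l74 : Lf2 := ⟨nat_lit 0, nat_lit 10, [nat_lit 0, nat_lit 5, nat_lit 5, nat_lit 20], false, nat_lit 160, nat_lit 268, nat_lit 0, nat_lit 288, ⟨nat_lit 156, nat_lit 844, nat_lit 0, nat_lit 6, nat_lit 226, nat_lit 844, nat_lit 138, nat_lit 0, nat_lit 0, nat_lit 0, nat_lit 0, nat_lit 0, nat_lit 0, nat_lit 0, nat_lit 0, nat_lit 5000000, false, false⟩,
 nat_lit 3486, nat_lit 3105, nat_lit 0, nat_lit 0, nat_lit 3836, nat_lit 1845, nat_lit 178, nat_lit 0, nat_lit 0, nat_lit 241, nat_lit 0, nat_lit 0, nat_lit 0, nat_lit 11761628812044, nat_lit 0, nat_lit 774400, nat_lit 0, nat_lit 0, [(nat_lit 9, [(nat_lit 1, nat_lit 116), (nat_lit 2, nat_lit 728)])],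
 ⟨p039_k10, nat_lit 0, nat_lit 0, nat_lit 323, nat_lit 0, nat_lit 570775, [nat_lit 2983847254, nat_lit 3260570667, nat_lit 2097378133], [], [nat_lit 26801070526, nat_lit 24787434314, nat_lit 26759739348, nat_lit 26331753818, nat_lit 26580067177, nat_lit 27117318990, nat_lit 27852468276, nat_lit 28340295303], nat_lit 1271250, nat_lit 1271250, nat_lit 1100001, nat_lit 1785000, nat_lit 1271250, nat_lit 1271250, [nat_lit 1100000, nat_lit 1442500, nat_lit 1271250], [nat_lit 11, nat_lit 40, nat_lit 20, nat_lit 80, nat_lit 1, nat_lit 428, nat_lit 200, nat_lit 12]⟩, ⟨p039_k4, nat_lit 0, nat_lit 0, nat_lit 552, nat_lit 0, nat_lit 638933, [nat_lit 731328000, nat_lit 975000000, nat_lit 1852032000], [], [nat_lit 7394142672, nat_lit 5443099452, nat_lit 4414748835, nat_lit 4862350623, nat_lit 5585524596, nat_lit 3851164080, nat_lit 3462909591, nat_lit 3699533763], nat_lit 1271250, nat_lit 1271250, nat_lit 1271250, nat_lit 1271250,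 nat_lit 0, nat_lit 2034000, [nat_lit 1100000, nat_lit 1442500, nat_lit 1271250], [nat_lit 48, nat_lit 40, nat_lit 20, nat_lit 80, nat_lit 12, nat_lit 456, nat_lit 225, nat_lit 12]⟩,
 ⟨nat_lit 5477, nat_lit 5917, ⟨.ofNat (nat_lit 464143), .ofNat (nat_lit 621176), .ofNat (nat_lit 506809), .ofNat (nat_lit 663838), .ofNat (nat_lit 467780), .ofNat (nat_lit 617611), .ofNat (nat_lit 510480), .ofNat (nat_lit 660309)⟩, ⟨.ofNat (nat_lit 229411), .ofNat (nat_lit 441452), .ofNat (nat_lit 250751), .ofNat (nat_lit 462791), .ofNat (nat_lit 232852), .ofNat (nat_lit 435171), .ofNat (nat_lit 254209), .ofNat (nat_lit 456528)⟩⟩, [⟨nat_lit 4, nat_lit 100, nat_lit 96, nat_lit 54, nat_lit 255880910⟩]⟩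
noncomputable def p039_l75 : Lf2 := ⟨nat_lit 0, nat_lit 10, [nat_lit 0, nat_lit 5, nat_lit 5, nat_lit 20], false, nat_lit 0, nat_lit 288, nat_lit 0, nat_lit 288, ⟨nat_lit 1000, nat_lit 0, nat_lit 0, nat_lit 0, nat_lit 0, nat_lit 0, nat_lit 0, nat_lit 0, nat_lit 0, nat_lit 0, nat_lit 0, nat_lit 0, nat_lit 0, nat_lit 0, nat_lit 0, nat_lit 0, false, false⟩,
 nat_lit 15373, nat_lit 0, nat_lit 0, nat_lit 0, nat_lit 8138, nat_lit 8138, nat_lit 1338, nat_lit 0, nat_lit 0, nat_lit 1497, nat_lit 0, nat_lit 0, nat_lit 0, nat_lit 0, nat_lit 0, nat_lit 0, nat_lit 0, nat_lit 0, [],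
 ⟨p039_k4, nat_lit 0, nat_lit 0, nat_lit 535, nat_lit 0, nat_lit 638933, [nat_lit 4688000000, nat_lit 6250000000, nat_lit 11872000000], [], [nat_lit 30158422550, nat_lit 31494774854, nat_lit 40207168518, nat_lit 41315366950, nat_lit 27003453066, nat_lit 27702026944, nat_lit 33399495539, nat_lit 34609850052], nat_lit 1271250, nat_lit 1271250, nat_lit 1271250, nat_lit 1271250, nat_lit 0, nat_lit 2034000, [nat_lit 1100000, nat_lit 1442500, nat_lit 1271250], [nat_lit 48, nat_lit 40, nat_lit 20, nat_lit 80, nat_lit 12, nat_lit 483, nat_lit 250, nat_lit 12]⟩, ⟨p039_k4, nat_lit 0, nat_lit 0, nat_lit 535, nat_lit 0, nat_lit 638933, [nat_lit 4688000000, nat_lit 6250000000, nat_lit 11872000000], [], [nat_lit 29396713175, nat_lit 30733065479, nat_lit 39445459143, nat_lit 41312933008, nat_lit 26241743691, nat_lit 26940317569, nat_lit 33327458058, nat_lit 34609850052], nat_lit 1271250, nat_lit 1271250, nat_lit 1271250, nat_lit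 1271250, nat_lit 0, nat_lit 2034000, [nat_lit 1100000, nat_lit 1442500, nat_lit 1271250], [nat_lit 48, nat_lit 40, nat_lit 20, nat_lit 80, nat_lit 12, nat_lit 483, nat_lit 250, nat_lit 12]⟩,
 zbF0, [⟨nat_lit 16, nat_lit 98, nat_lit 100, nat_lit 54, nat_lit 115842263⟩, ⟨nat_lit 19, nat_lit 98, nat_lit 100, nat_lit 54, nat_lit 115842263⟩]⟩
noncomputable def b_VL_600_600_5_88 : St := ⟨true, nat_lit 1, nat_lit 1, nat_lit 2, nat_lit 40, nat_lit 240, nat_lit 280, nat_lit 240, nat_lit 280, nat_lit 16, nat_lit 400, nat_lit 20, nat_lit 40, nat_lit 0, nat_lit 288, nat_lit 0, nat_lit 288, nat_lit 0, nat_lit 40, nat_lit 0, nat_lit 0, nat_lit 0, nat_lit 0⟩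
theorem d_VL_600_600_5_88 (h : EB TB.env) : Dead b_VL_600_600_5_88 := chkB_sound0 h (T :=
(.spl (nat_lit 2) (nat_lit 240)
(.spl (nat_lit 4) (nat_lit 160)
(.spl (nat_lit 2) (nat_lit 160)
(.spl (nat_lit 0) (nat_lit 260)
(.ord (.spl (nat_lit 2) (nat_lit 120)
(.spl (nat_lit 4) (nat_lit 80)
(.spl (nat_lit 2) (nat_lit 80)
(.leaf p039_l60)
(.leaf p039_l61))
(.spl (nat_lit 2) (nat_lit 80)
(.leaf p039_l62)
(.leaf p039_l63)))
(.leaf p039_l64)))
(.trZ (nat_lit 0) (nat_lit 100) (nat_lit 97) (nat_lit 49) (nat_lit 24) (.spl (nat_lit 6) (nat_lit 20)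
(.spl (nat_lit 2) (nat_lit 120)
(.leaf p039_l65)
(.leaf p039_l66))
(.spl (nat_lit 2) (nat_lit 120)
(.leaf p039_l67)
(.leaf p039_l68)))))
(.spl (nat_lit 0) (nat_lit 260)
(.ord (.leaf p039_l69))
(.leaf p039_l70)))
(.spl (nat_lit 0) (nat_lit 260)
(.ord (.spl (nat_lit 0) (nat_lit 250)
(.ord (.leaf p039_l71))
(.trZ (nat_lit 0) (nat_lit 100) (nat_lit 99) (nat_lit 45) (nat_lit 20) (.trX (nat_lit 16) (nat_lit 100) (nat_lit 95) (nat_lit 62) (nat_lit 280) (.leaf p039_l72)))))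
(.trZ (nat_lit 0) (nat_lit 100) (nat_lit 97) (nat_lit 49) (nat_lit 24) (.trX (nat_lit 16) (nat_lit 100) (nat_lit 99) (nat_lit 63) (nat_lit 268) (.spl (nat_lit 2) (nat_lit 160)
(.leaf p039_l73)
(.leaf p039_l74))))))
(.leaf p039_l75))) (by decide +kernel)
noncomputable def p039_l76 : Lf2 := ⟨nat_lit 1, nat_lit 10, [nat_lit 0, nat_lit 5, nat_lit 5, nat_lit 20], false, nat_lit 0, nat_lit 160, nat_lit 0, nat_lit 288, zbN0,
 nat_lit 0, nat_lit 0, nat_lit 0, nat_lit 0, nat_lit 0, nat_lit 0, nat_lit 0, nat_lit 0, nat_lit 0, nat_lit 0, nat_lit 0, nat_lit 0, nat_lit 0, nat_lit 0, nat_lit 0, nat_lit 0, nat_lit 0, nat_lit 0, [],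
 C1.Rw.none, C1.Rw.none,
 zbF0, []⟩
noncomputable def p039_l77 : Lf2 := ⟨nat_lit 0, nat_lit 10, [nat_lit 0, nat_lit 5, nat_lit 5, nat_lit 20], true, nat_lit 0, nat_lit 80, nat_lit 0, nat_lit 280, ⟨nat_lit 0, nat_lit 0, nat_lit 1000, nat_lit 6, nat_lit 122, nat_lit 0, nat_lit 16, nat_lit 0, nat_lit 0, nat_lit 215, nat_lit 138017, nat_lit 306, nat_lit 61317232, nat_lit 0, nat_lit 0, nat_lit 1451898, false, false⟩,
 nat_lit 0, nat_lit 0, nat_lit 0, nat_lit 5395, nat_lit 4107, nat_lit 0, nat_lit 340, nat_lit 0, nat_lit 0, nat_lit 0, nat_lit 0, nat_lit 0, nat_lit 0, nat_lit 16435000965578, nat_lit 69, nat_lit 400000, nat_lit 0, nat_lit 0, [(nat_lit 6, [(nat_lit 5, nat_lit 1000)])],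
 ⟨p039_k15, nat_lit 0, nat_lit 0, nat_lit 229, nat_lit 0, nat_lit 0, [nat_lit 2521600001, nat_lit 679600001, nat_lit 7200000], [], [nat_lit 14065754483, nat_lit 14737165428, nat_lit 13324490784, nat_lit 13854576239, nat_lit 12155287985, nat_lit 12706659895, nat_lit 11780470184, nat_lit 12282970014], nat_lit 0, nat_lit 0, nat_lit 0, nat_lit 0, nat_lit 0, nat_lit 0, [], [nat_lit 29, nat_lit 40, nat_lit 20, nat_lit 80, nat_lit 17, nat_lit 345, nat_lit 125, nat_lit 10]⟩, C1.Rw.none,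
 ⟨nat_lit 5916, nat_lit 6124, ⟨.ofNat (nat_lit 199694), .ofNat (nat_lit 392607), .ofNat (nat_lit 210368), .ofNat (nat_lit 403281), .ofNat (nat_lit 207799), .ofNat (nat_lit 396280), .ofNat (nat_lit 218469), .ofNat (nat_lit 406949)⟩, ⟨.negSucc (nat_lit 94037), .ofNat (nat_lit 66723), .negSucc (nat_lit 72689), .ofNat (nat_lit 88071), .negSucc (nat_lit 84722), .ofNat (nat_lit 72344), .negSucc (nat_lit 63383), .ofNat (nat_lit 93684)⟩⟩, [⟨nat_lit 0, nat_lit 100, nat_lit 100, nat_lit 60, nat_lit 138922553⟩]⟩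
noncomputable def p039_l78 : Lf2 := ⟨nat_lit 0, nat_lit 10, [nat_lit 0, nat_lit 5, nat_lit 5, nat_lit 20], true, nat_lit 80, nat_lit 160, nat_lit 0, nat_lit 280, ⟨nat_lit 0, nat_lit 0, nat_lit 1000, nat_lit 6, nat_lit 122, nat_lit 1000, nat_lit 64, nat_lit 1000, nat_lit 38400, nat_lit 263, nat_lit 138017, nat_lit 306, nat_lit 58780115, nat_lit 0, nat_lit 0, nat_lit 2334794, false, false⟩,
 nat_lit 0, nat_lit 0, nat_lit 0, nat_lit 2328, nat_lit 6608, nat_lit 0, nat_lit 0, nat_lit 0, nat_lit 0, nat_lit 0, nat_lit 0, nat_lit 0, nat_lit 0, nat_lit 3529373001127, nat_lit 50, nat_lit 250000, nat_lit 0, nat_lit 0, [(nat_lit 6, [(nat_lit 4, nat_lit 1000)])],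
 ⟨p039_k15, nat_lit 0, nat_lit 0, nat_lit 46, nat_lit 0, nat_lit 0, [nat_lit 3654400001, nat_lit 458800000, nat_lit 21200000], [], [nat_lit 9156310492, nat_lit 10476096010, nat_lit 6791206073, nat_lit 7812845425, nat_lit 10029915975, nat_lit 11215418842, nat_lit 8213716809, nat_lit 9115201841], nat_lit 0, nat_lit 0, nat_lit 0, nat_lit 0, nat_lit 0, nat_lit 0, [], [nat_lit 29, nat_lit 40, nat_lit 20, nat_lit 80, nat_lit 17, nat_lit 373, nat_lit 150, nat_lit 11]⟩, C1.Rw.none,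
 ⟨nat_lit 5916, nat_lit 6124, ⟨.ofNat (nat_lit 199694), .ofNat (nat_lit 392607), .ofNat (nat_lit 210368), .ofNat (nat_lit 403281), .ofNat (nat_lit 207799), .ofNat (nat_lit 396280), .ofNat (nat_lit 218469), .ofNat (nat_lit 406949)⟩, ⟨.ofNat (nat_lit 66723), .ofNat (nat_lit 227485), .ofNat (nat_lit 88071), .ofNat (nat_lit 248833), .ofNat (nat_lit 72344), .ofNat (nat_lit 229411), .ofNat (nat_lit 93684), .ofNat (nat_lit 250751)⟩⟩, [⟨nat_lit 0, nat_lit 100, nat_lit 100, nat_lit 60, nat_lit 226234636⟩]⟩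
noncomputable def p039_l79 : Lf2 := ⟨nat_lit 1, nat_lit 10, [nat_lit 0, nat_lit 5, nat_lit 5, nat_lit 20], false, nat_lit 0, nat_lit 160, nat_lit 0, nat_lit 288, zbN0,
 nat_lit 0, nat_lit 0, nat_lit 0, nat_lit 0, nat_lit 0, nat_lit 0, nat_lit 0, nat_lit 0, nat_lit 0, nat_lit 0, nat_lit 0, nat_lit 0, nat_lit 0, nat_lit 0, nat_lit 0, nat_lit 0, nat_lit 0, nat_lit 0, [],
 C1.Rw.none, C1.Rw.none,
 zbF0, []⟩
noncomputable def p039_l80 : Lf2 := ⟨nat_lit 0, nat_lit 10, [nat_lit 0, nat_lit 5, nat_lit 5, nat_lit 20], true, nat_lit 0, nat_lit 80, nat_lit 0, nat_lit 288, ⟨nat_lit 0, nat_lit 0, nat_lit 1000, nat_lit 6, nat_lit 124, nat_lit 0, nat_lit 17, nat_lit 0, nat_lit 67, nat_lit 217, nat_lit 144150, nat_lit 308, nat_lit 61116091, nat_lit 0, nat_lit 0, nat_lit 1487315, false, false⟩,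
 nat_lit 0, nat_lit 0, nat_lit 0, nat_lit 3638, nat_lit 4102, nat_lit 0, nat_lit 0, nat_lit 0, nat_lit 0, nat_lit 0, nat_lit 0, nat_lit 0, nat_lit 0, nat_lit 12510019168274, nat_lit 87, nat_lit 400000, nat_lit 0, nat_lit 0, [(nat_lit 9, [(nat_lit 5, nat_lit 1000)])],
 ⟨p039_k10, nat_lit 0, nat_lit 0, nat_lit 213, nat_lit 0, nat_lit 0, [nat_lit 2918400000, nat_lit 1608666667, nat_lit 9200000], [], [nat_lit 15676328408, nat_lit 16347359450, nat_lit 14911547068, nat_lit 15441364698, nat_lit 13764351170, nat_lit 14315435916, nat_lit 13342578412, nat_lit 13843948986], nat_lit 0, nat_lit 0, nat_lit 0, nat_lit 0, nat_lit 0, nat_lit 0, [], [nat_lit 11, nat_lit 40, nat_lit 20, nat_lit 80, nat_lit 1, nat_lit 345, nat_lit 125, nat_lit 10]⟩, C1.Rw.none,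
 ⟨nat_lit 5700, nat_lit 5917, ⟨.ofNat (nat_lit 197129), .ofNat (nat_lit 385610), .ofNat (nat_lit 229138), .ofNat (nat_lit 417619), .ofNat (nat_lit 205119), .ofNat (nat_lit 389244), .ofNat (nat_lit 237132), .ofNat (nat_lit 421257)⟩, ⟨.negSucc (nat_lit 84722), .ofNat (nat_lit 72344), .negSucc (nat_lit 63383), .ofNat (nat_lit 93684), .negSucc (nat_lit 75673), .ofNat (nat_lit 77764), .negSucc (nat_lit 54331), .ofNat (nat_lit 99106)⟩⟩, [⟨nat_lit 0, nat_lit 100, nat_lit 100, nat_lit 70, nat_lit 137053778⟩]⟩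
noncomputable def p039_l81 : Lf2 := ⟨nat_lit 0, nat_lit 10, [nat_lit 0, nat_lit 5, nat_lit 5, nat_lit 20], true, nat_lit 0, nat_lit 80, nat_lit 0, nat_lit 288, ⟨nat_lit 0, nat_lit 0, nat_lit 1000, nat_lit 6, nat_lit 130, nat_lit 0, nat_lit 18, nat_lit 0, nat_lit 417, nat_lit 220, nat_lit 160067, nat_lit 313, nat_lit 60592251, nat_lit 0, nat_lit 0, nat_lit 1576955, false, false⟩,
 nat_lit 0, nat_lit 0, nat_lit 0, nat_lit 3608, nat_lit 4462, nat_lit 0, nat_lit 0, nat_lit 0, nat_lit 0, nat_lit 0, nat_lit 0, nat_lit 0, nat_lit 0, nat_lit 10240837877249, nat_lit 87, nat_lit 400000, nat_lit 0, nat_lit 0, [(nat_lit 9, [(nat_lit 5, nat_lit 1000)])],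
 ⟨p039_k11, nat_lit 0, nat_lit 0, nat_lit 214, nat_lit 0, nat_lit 0, [nat_lit 2918400000, nat_lit 1608666667, nat_lit 9200000], [], [nat_lit 16477160496, nat_lit 17174467327, nat_lit 15143272066, nat_lit 15786603000, nat_lit 13806290483, nat_lit 14376612378, nat_lit 13236032466, nat_lit 13755200360], nat_lit 0, nat_lit 0, nat_lit 0, nat_lit 0, nat_lit 0, nat_lit 0, [], [nat_lit 11, nat_lit 40, nat_lit 20, nat_lit 80, nat_lit 1, nat_lit 345, nat_lit 125, nat_lit 10]⟩, C1.Rw.none,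
 ⟨nat_lit 5477, nat_lit 5701, ⟨.ofNat (nat_lit 212791), .ofNat (nat_lit 389244), .ofNat (nat_lit 255475), .ofNat (nat_lit 431928), .ofNat (nat_lit 220501), .ofNat (nat_lit 392847), .ofNat (nat_lit 263215), .ofNat (nat_lit 435561)⟩, ⟨.negSucc (nat_lit 75673), .ofNat (nat_lit 77764), .negSucc (nat_lit 54331), .ofNat (nat_lit 99106), .negSucc (nat_lit 66879), .ofNat (nat_lit 82986), .negSucc (nat_lit 45522), .ofNat (nat_lit 104343)⟩⟩, [⟨nat_lit 0, nat_lit 100, nat_lit 100, nat_lit 80, nat_lit 185502505⟩]⟩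
noncomputable def p039_l82 : Lf2 := ⟨nat_lit 0, nat_lit 10, [nat_lit 0, nat_lit 5, nat_lit 5, nat_lit 20], true, nat_lit 80, nat_lit 160, nat_lit 0, nat_lit 288, ⟨nat_lit 0, nat_lit 0, nat_lit 1000, nat_lit 6, nat_lit 127, nat_lit 1000, nat_lit 66, nat_lit 1000, nat_lit 41667, nat_lit 265, nat_lit 153600, nat_lit 311, nat_lit 58166143, nat_lit 0, nat_lit 0, nat_lit 2454686, false, false⟩,
 nat_lit 0, nat_lit 0, nat_lit 0, nat_lit 2585, nat_lit 6866, nat_lit 0, nat_lit 0, nat_lit 0, nat_lit 0, nat_lit 0, nat_lit 0, nat_lit 0, nat_lit 0, nat_lit 6167257603581, nat_lit 61, nat_lit 250000, nat_lit 0, nat_lit 0, [(nat_lit 9, [(nat_lit 4, nat_lit 1000)])],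
 ⟨p039_k10, nat_lit 0, nat_lit 0, nat_lit 52, nat_lit 0, nat_lit 0, [nat_lit 4076800001, nat_lit 1163866667, nat_lit 14000000], [], [nat_lit 10550622200, nat_lit 13258810813, nat_lit 7693034549, nat_lit 9947183720, nat_lit 11232837764, nat_lit 13664049552, nat_lit 8965566681, nat_lit 10811470009], nat_lit 0, nat_lit 0, nat_lit 0, nat_lit 0, nat_lit 0, nat_lit 0, [], [nat_lit 11, nat_lit 40, nat_lit 20, nat_lit 80, nat_lit 1, nat_lit 373, nat_lit 150, nat_lit 11]⟩, C1.Rw.none,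
 ⟨nat_lit 5477, nat_lit 5917, ⟨.ofNat (nat_lit 197129), .ofNat (nat_lit 385610), .ofNat (nat_lit 239808), .ofNat (nat_lit 428288), .ofNat (nat_lit 213007), .ofNat (nat_lit 392847), .ofNat (nat_lit 255721), .ofNat (nat_lit 435561)⟩, ⟨.ofNat (nat_lit 72344), .ofNat (nat_lit 229411), .ofNat (nat_lit 93684), .ofNat (nat_lit 250751), .ofNat (nat_lit 82986), .ofNat (nat_lit 232852), .ofNat (nat_lit 104343), .ofNat (nat_lit 254209)⟩⟩, [⟨nat_lit 0, nat_lit 100, nat_lit 100, nat_lit 80, nat_lit 268091625⟩]⟩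
noncomputable def p039_l83 : Lf2 := ⟨nat_lit 1, nat_lit 10, [nat_lit 0, nat_lit 5, nat_lit 5, nat_lit 20], false, nat_lit 160, nat_lit 288, nat_lit 0, nat_lit 288, zbN0,
 nat_lit 0, nat_lit 0, nat_lit 0, nat_lit 0, nat_lit 0, nat_lit 0, nat_lit 0, nat_lit 0, nat_lit 0, nat_lit 0, nat_lit 0, nat_lit 0, nat_lit 0, nat_lit 0, nat_lit 0, nat_lit 0, nat_lit 0, nat_lit 0, [],
 C1.Rw.none, C1.Rw.none,
 zbF0, []⟩
noncomputable def p039_l84 : Lf2 := ⟨nat_lit 0, nat_lit 10, [nat_lit 0, nat_lit 5, nat_lit 5, nat_lit 20], true, nat_lit 160, nat_lit 280, nat_lit 0, nat_lit 288, ⟨nat_lit 0, nat_lit 0, nat_lit 1000, nat_lit 6, nat_lit 118, nat_lit 1000, nat_lit 143, nat_lit 1000, nat_lit 51683, nat_lit 270, nat_lit 132017, nat_lit 304, nat_lit 53187889, nat_lit 0, nat_lit 0, nat_lit 3462083, false, false⟩,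
 nat_lit 0, nat_lit 0, nat_lit 0, nat_lit 8209, nat_lit 3879, nat_lit 0, nat_lit 0, nat_lit 0, nat_lit 0, nat_lit 0, nat_lit 0, nat_lit 0, nat_lit 0, nat_lit 20680130746404, nat_lit 69, nat_lit 400000, nat_lit 0, nat_lit 0, [(nat_lit 6, [(nat_lit 5, nat_lit 1000)])],
 ⟨p039_k15, nat_lit 0, nat_lit 0, nat_lit 97, nat_lit 0, nat_lit 0, [nat_lit 2521600001, nat_lit 679600001, nat_lit 7200000], [], [nat_lit 11275744705, nat_lit 12020247113, nat_lit 11193050105, nat_lit 11867471421, nat_lit 17675900823, nat_lit 18242456536, nat_lit 17062474389, nat_lit 17579647279], nat_lit 0, nat_lit 0, nat_lit 0, nat_lit 0, nat_lit 0, nat_lit 0, [], [nat_lit 29, nat_lit 40, nat_lit 20, nat_lit 80, nat_lit 17, nat_lit 401, nat_lit 175, nat_lit 11]⟩, C1.Rw.none,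
 ⟨nat_lit 5916, nat_lit 6124, ⟨.ofNat (nat_lit 180982), .ofNat (nat_lit 381933), .ofNat (nat_lit 202330), .ofNat (nat_lit 403281), .ofNat (nat_lit 189276), .ofNat (nat_lit 385610), .ofNat (nat_lit 210615), .ofNat (nat_lit 406949)⟩, ⟨.ofNat (nat_lit 227485), .ofNat (nat_lit 468627), .ofNat (nat_lit 248833), .ofNat (nat_lit 489975), .ofNat (nat_lit 229411), .ofNat (nat_lit 465012), .ofNat (nat_lit 250751), .ofNat (nat_lit 486351)⟩⟩, [⟨nat_lit 0, nat_lit 100, nat_lit 100, nat_lit 60, nat_lit 122886775⟩, ⟨nat_lit 4, nat_lit 100, nat_lit 100, nat_lit 55, nat_lit 416072155⟩]⟩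
noncomputable def p039_l85 : Lf2 := ⟨nat_lit 1, nat_lit 10, [nat_lit 0, nat_lit 5, nat_lit 5, nat_lit 20], false, nat_lit 160, nat_lit 288, nat_lit 0, nat_lit 288, zbN0,
 nat_lit 0, nat_lit 0, nat_lit 0, nat_lit 0, nat_lit 0, nat_lit 0, nat_lit 0, nat_lit 0, nat_lit 0, nat_lit 0, nat_lit 0, nat_lit 0, nat_lit 0, nat_lit 0, nat_lit 0, nat_lit 0, nat_lit 0, nat_lit 0, [],
 C1.Rw.none, C1.Rw.none,
 zbF0, []⟩
noncomputable def p039_l86 : Lf2 := ⟨nat_lit 0, nat_lit 10, [nat_lit 0, nat_lit 5, nat_lit 5, nat_lit 20], true, nat_lit 160, nat_lit 268, nat_lit 0, nat_lit 288, ⟨nat_lit 0, nat_lit 0, nat_lit 1000, nat_lit 6, nat_lit 127, nat_lit 1000, nat_lit 138, nat_lit 1000, nat_lit 126379, nat_lit 302, nat_lit 153600, nat_lit 311, nat_lit 52898530, nat_lit 0, nat_lit 0, nat_lit 3522122, false, false⟩,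
 nat_lit 0, nat_lit 0, nat_lit 0, nat_lit 3805, nat_lit 4087, nat_lit 0, nat_lit 0, nat_lit 0, nat_lit 0, nat_lit 0, nat_lit 0, nat_lit 0, nat_lit 0, nat_lit 11946772573854, nat_lit 87, nat_lit 400000, nat_lit 0, nat_lit 0, [(nat_lit 9, [(nat_lit 5, nat_lit 1000)])],
 ⟨p039_k10, nat_lit 0, nat_lit 0, nat_lit 73, nat_lit 0, nat_lit 0, [nat_lit 2918400000, nat_lit 1608666667, nat_lit 9200000], [], [nat_lit 11832118097, nat_lit 13357027042, nat_lit 11656987260, nat_lit 13040442756, nat_lit 17393418155, nat_lit 18747050012, nat_lit 16772046852, nat_lit 17863475527], nat_lit 0, nat_lit 0, nat_lit 0, nat_lit 0, nat_lit 0, nat_lit 0, [], [nat_lit 11, nat_lit 40, nat_lit 20, nat_lit 80, nat_lit 1, nat_lit 401, nat_lit 175, nat_lit 11]⟩, C1.Rw.none,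
 ⟨nat_lit 5477, nat_lit 5917, ⟨.ofNat (nat_lit 197129), .ofNat (nat_lit 385610), .ofNat (nat_lit 239808), .ofNat (nat_lit 428288), .ofNat (nat_lit 213007), .ofNat (nat_lit 392847), .ofNat (nat_lit 255721), .ofNat (nat_lit 435561)⟩, ⟨.ofNat (nat_lit 229411), .ofNat (nat_lit 441452), .ofNat (nat_lit 250751), .ofNat (nat_lit 462791), .ofNat (nat_lit 232852), .ofNat (nat_lit 435171), .ofNat (nat_lit 254209), .ofNat (nat_lit 456528)⟩⟩, [⟨nat_lit 0, nat_lit 100, nat_lit 98, nat_lit 64, nat_lit 45172302⟩, ⟨nat_lit 0, nat_lit 100, nat_lit 100, nat_lit 80, nat_lit 108788200⟩, ⟨nat_lit 16, nat_lit 100, nat_lit 99, nat_lit 63, nat_lit 306048088⟩]⟩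
noncomputable def p039_l87 : Lf2 := ⟨nat_lit 0, nat_lit 10, [nat_lit 0, nat_lit 5, nat_lit 5, nat_lit 20], false, nat_lit 0, nat_lit 288, nat_lit 0, nat_lit 288, ⟨nat_lit 1000, nat_lit 0, nat_lit 0, nat_lit 0, nat_lit 0, nat_lit 0, nat_lit 0, nat_lit 0, nat_lit 0, nat_lit 0, nat_lit 0, nat_lit 0, nat_lit 0, nat_lit 0, nat_lit 0, nat_lit 0, false, false⟩,
 nat_lit 0, nat_lit 0, nat_lit 0, nat_lit 16432, nat_lit 16903, nat_lit 16903, nat_lit 1026, nat_lit 0, nat_lit 0, nat_lit 1026, nat_lit 0, nat_lit 0, nat_lit 0, nat_lit 0, nat_lit 0, nat_lit 0, nat_lit 0, nat_lit 0, [],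
 ⟨p039_k0, nat_lit 0, nat_lit 0, nat_lit 212, nat_lit 0, nat_lit 0, [nat_lit 4688000000, nat_lit 7968000001, nat_lit 11872000000], [], [nat_lit 27184298240, nat_lit 32139401416, nat_lit 30152324308, nat_lit 33750958184, nat_lit 19310725436, nat_lit 21906168656, nat_lit 20655905657, nat_lit 24847828209], nat_lit 0, nat_lit 0, nat_lit 0, nat_lit 0, nat_lit 0, nat_lit 0, [], [nat_lit 21, nat_lit 40, nat_lit 20, nat_lit 80, nat_lit 14, nat_lit 456, nat_lit 225, nat_lit 12]⟩, ⟨p039_k0, nat_lit 0, nat_lit 0, nat_lit 212, nat_lit 0, nat_lit 0, [nat_lit 4688000000, nat_lit 7968000000, nat_lit 11872000000], [], [nat_lit 27184298240, nat_lit 32139401416, nat_lit 30152324308, nat_lit 33750958184, nat_lit 19310725436, nat_lit 21906168656, nat_lit 20655905657, nat_lit 24847828209], nat_lit 0, nat_lit 0, nat_lit 0, nat_lit 0, nat_lit 0, nat_lit 0, [], [nat_lit 21, nat_lit 40, nat_lit 20, nat_lit 80, nat_lit 14, nat_lit 456,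 nat_lit 225, nat_lit 12]⟩,
 zbF0, []⟩
noncomputable def p039_l88 : Lf2 := ⟨nat_lit 0, nat_lit 10, [nat_lit 0, nat_lit 5, nat_lit 5, nat_lit 20], false, nat_lit 0, nat_lit 288, nat_lit 0, nat_lit 288, ⟨nat_lit 1000, nat_lit 0, nat_lit 0, nat_lit 0, nat_lit 0, nat_lit 0, nat_lit 0, nat_lit 0, nat_lit 0, nat_lit 0, nat_lit 0, nat_lit 0, nat_lit 0, nat_lit 0, nat_lit 0, nat_lit 0, false, false⟩,
 nat_lit 0, nat_lit 0, nat_lit 0, nat_lit 8538, nat_lit 10126, nat_lit 10034, nat_lit 447, nat_lit 0, nat_lit 0, nat_lit 447, nat_lit 0, nat_lit 0, nat_lit 0, nat_lit 0, nat_lit 0, nat_lit 0, nat_lit 0, nat_lit 0, [],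
 ⟨p039_k0, nat_lit 0, nat_lit 0, nat_lit 251, nat_lit 0, nat_lit 0, [nat_lit 4688000000, nat_lit 7968000001, nat_lit 11872000000], [], [nat_lit 32291020636, nat_lit 34915853828, nat_lit 45847825636, nat_lit 46986368900, nat_lit 27935269563, nat_lit 29373942608, nat_lit 36104675038, nat_lit 36748425943], nat_lit 0, nat_lit 0, nat_lit 0, nat_lit 0, nat_lit 0, nat_lit 0, [], [nat_lit 21, nat_lit 40, nat_lit 20, nat_lit 80, nat_lit 14, nat_lit 483, nat_lit 250, nat_lit 12]⟩, ⟨p039_k0, nat_lit 0, nat_lit 0, nat_lit 251, nat_lit 0, nat_lit 0, [nat_lit 4688000000, nat_lit 7968000000, nat_lit 11872000000], [], [nat_lit 32267686124, nat_lit 34879299652, nat_lit 45745601124, nat_lit 46882740100, nat_lit 28006361422, nat_lit 29440807545, nat_lit 36138297579, nat_lit 36649457642], nat_lit 0, nat_lit 0, nat_lit 0, nat_lit 0, nat_lit 0, nat_lit 0, [], [nat_lit 21, nat_lit 40, nat_lit 20, nat_lit 80, nat_lit 14, nat_lit 483,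 nat_lit 250, nat_lit 12]⟩,
 zbF0, []⟩
noncomputable def p039_l89 : Lf2 := ⟨nat_lit 1, nat_lit 10, [nat_lit 0, nat_lit 5, nat_lit 5, nat_lit 20], false, nat_lit 0, nat_lit 288, nat_lit 0, nat_lit 288, zbN0,
 nat_lit 0, nat_lit 0, nat_lit 0, nat_lit 0, nat_lit 0, nat_lit 0, nat_lit 0, nat_lit 0, nat_lit 0, nat_lit 0, nat_lit 0, nat_lit 0, nat_lit 0, nat_lit 0, nat_lit 0, nat_lit 0, nat_lit 0, nat_lit 0, [],
 C1.Rw.none, C1.Rw.none,
 zbF0, []⟩
noncomputable def p039_l90 : Lf2 := ⟨nat_lit 0, nat_lit 10, [nat_lit 0, nat_lit 5, nat_lit 5, nat_lit 20], true, nat_lit 0, nat_lit 80, nat_lit 0, nat_lit 280, ⟨nat_lit 0, nat_lit 0, nat_lit 1000, nat_lit 6, nat_lit 122, nat_lit 0, nat_lit 16, nat_lit 0, nat_lit 0, nat_lit 215, nat_lit 138017, nat_lit 306, nat_lit 61317232, nat_lit 0, nat_lit 0, nat_lit 1451898, false, false⟩,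
 nat_lit 0, nat_lit 0, nat_lit 0, nat_lit 5395, nat_lit 4107, nat_lit 0, nat_lit 340, nat_lit 0, nat_lit 0, nat_lit 0, nat_lit 0, nat_lit 0, nat_lit 0, nat_lit 16435000965578, nat_lit 69, nat_lit 400000, nat_lit 0, nat_lit 0, [(nat_lit 6, [(nat_lit 5, nat_lit 1000)])],
 ⟨p039_k15, nat_lit 0, nat_lit 0, nat_lit 229, nat_lit 0, nat_lit 0, [nat_lit 2521600001, nat_lit 679600001, nat_lit 7200000], [], [nat_lit 14065754483, nat_lit 14737165428, nat_lit 13324490784, nat_lit 13854576239, nat_lit 12155287985, nat_lit 12706659895, nat_lit 11780470184, nat_lit 12282970014], nat_lit 0, nat_lit 0, nat_lit 0, nat_lit 0, nat_lit 0, nat_lit 0, [], [nat_lit 29, nat_lit 40, nat_lit 20, nat_lit 80, nat_lit 17, nat_lit 345, nat_lit 125, nat_lit 10]⟩, C1.Rw.none,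
 ⟨nat_lit 5916, nat_lit 6124, ⟨.ofNat (nat_lit 199694), .ofNat (nat_lit 392607), .ofNat (nat_lit 210368), .ofNat (nat_lit 403281), .ofNat (nat_lit 207799), .ofNat (nat_lit 396280), .ofNat (nat_lit 218469), .ofNat (nat_lit 406949)⟩, ⟨.negSucc (nat_lit 94037), .ofNat (nat_lit 66723), .negSucc (nat_lit 72689), .ofNat (nat_lit 88071), .negSucc (nat_lit 84722), .ofNat (nat_lit 72344), .negSucc (nat_lit 63383), .ofNat (nat_lit 93684)⟩⟩, [⟨nat_lit 0, nat_lit 100, nat_lit 100, nat_lit 60, nat_lit 138922553⟩]⟩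
noncomputable def p039_l91 : Lf2 := ⟨nat_lit 0, nat_lit 10, [nat_lit 0, nat_lit 5, nat_lit 5, nat_lit 20], true, nat_lit 80, nat_lit 160, nat_lit 0, nat_lit 280, ⟨nat_lit 0, nat_lit 0, nat_lit 1000, nat_lit 6, nat_lit 122, nat_lit 1000, nat_lit 64, nat_lit 1000, nat_lit 38400, nat_lit 263, nat_lit 138017, nat_lit 306, nat_lit 58780115, nat_lit 0, nat_lit 0, nat_lit 2334794, false, false⟩,
 nat_lit 0, nat_lit 0, nat_lit 0, nat_lit 2328, nat_lit 6608, nat_lit 0, nat_lit 0, nat_lit 0, nat_lit 0, nat_lit 0, nat_lit 0, nat_lit 0, nat_lit 0, nat_lit 3529373001127, nat_lit 50, nat_lit 250000, nat_lit 0, nat_lit 0, [(nat_lit 6, [(nat_lit 4, nat_lit 1000)])],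
 ⟨p039_k15, nat_lit 0, nat_lit 0, nat_lit 46, nat_lit 0, nat_lit 0, [nat_lit 3654400001, nat_lit 458800000, nat_lit 21200000], [], [nat_lit 9156310492, nat_lit 10476096010, nat_lit 6791206073, nat_lit 7812845425, nat_lit 10029915975, nat_lit 11215418842, nat_lit 8213716809, nat_lit 9115201841], nat_lit 0, nat_lit 0, nat_lit 0, nat_lit 0, nat_lit 0, nat_lit 0, [], [nat_lit 29, nat_lit 40, nat_lit 20, nat_lit 80, nat_lit 17, nat_lit 373, nat_lit 150, nat_lit 11]⟩, C1.Rw.none,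
 ⟨nat_lit 5916, nat_lit 6124, ⟨.ofNat (nat_lit 199694), .ofNat (nat_lit 392607), .ofNat (nat_lit 210368), .ofNat (nat_lit 403281), .ofNat (nat_lit 207799), .ofNat (nat_lit 396280), .ofNat (nat_lit 218469), .ofNat (nat_lit 406949)⟩, ⟨.ofNat (nat_lit 66723), .ofNat (nat_lit 227485), .ofNat (nat_lit 88071), .ofNat (nat_lit 248833), .ofNat (nat_lit 72344), .ofNat (nat_lit 229411), .ofNat (nat_lit 93684), .ofNat (nat_lit 250751)⟩⟩, [⟨nat_lit 0, nat_lit 100, nat_lit 100, nat_lit 60, nat_lit 226234636⟩]⟩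
noncomputable def p039_l92 : Lf2 := ⟨nat_lit 0, nat_lit 10, [nat_lit 0, nat_lit 5, nat_lit 5, nat_lit 20], true, nat_lit 0, nat_lit 160, nat_lit 0, nat_lit 280, ⟨nat_lit 0, nat_lit 0, nat_lit 1000, nat_lit 6, nat_lit 208, nat_lit 0, nat_lit 48, nat_lit 16, nat_lit 9600, nat_lit 239, nat_lit 17576, nat_lit 200, nat_lit 52784195, nat_lit 0, nat_lit 0, nat_lit 2584127, false, false⟩,
 nat_lit 0, nat_lit 0, nat_lit 0, nat_lit 3418, nat_lit 6998, nat_lit 0, nat_lit 0, nat_lit 0, nat_lit 0, nat_lit 0, nat_lit 0, nat_lit 0, nat_lit 0, nat_lit 2067010715156, nat_lit 50, nat_lit 248080, nat_lit 0, nat_lit 0, [(nat_lit 6, [(nat_lit 3, nat_lit 32), (nat_lit 4, nat_lit 968)])],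
 ⟨p039_k15, nat_lit 0, nat_lit 0, nat_lit 148, nat_lit 0, nat_lit 0, [nat_lit 4695910401, nat_lit 461833600, nat_lit 28188800], [], [nat_lit 14771938942, nat_lit 15587355228, nat_lit 18574995598, nat_lit 19205316092, nat_lit 11423574739, nat_lit 11991456293, nat_lit 14114440227, nat_lit 14567015664], nat_lit 0, nat_lit 0, nat_lit 0, nat_lit 0, nat_lit 0, nat_lit 0, [], [nat_lit 29, nat_lit 40, nat_lit 20, nat_lit 80, nat_lit 17, nat_lit 401, nat_lit 175, nat_lit 12]⟩, C1.Rw.none,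
 ⟨nat_lit 5916, nat_lit 6124, ⟨.ofNat (nat_lit 392607), .ofNat (nat_lit 633740), .ofNat (nat_lit 403281), .ofNat (nat_lit 644413), .ofNat (nat_lit 396280), .ofNat (nat_lit 631870), .ofNat (nat_lit 406949), .ofNat (nat_lit 642539)⟩, ⟨.negSucc (nat_lit 94037), .ofNat (nat_lit 227485), .negSucc (nat_lit 72689), .ofNat (nat_lit 248833), .negSucc (nat_lit 84722), .ofNat (nat_lit 229411), .negSucc (nat_lit 63383), .ofNat (nat_lit 250751)⟩⟩, []⟩
noncomputable def p039_l93 : Lf2 := ⟨nat_lit 1, nat_lit 10, [nat_lit 0, nat_lit 5, nat_lit 5, nat_lit 20], false, nat_lit 160, nat_lit 280, nat_lit 0, nat_lit 280, zbN0,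
 nat_lit 0, nat_lit 0, nat_lit 0, nat_lit 0, nat_lit 0, nat_lit 0, nat_lit 0, nat_lit 0, nat_lit 0, nat_lit 0, nat_lit 0, nat_lit 0, nat_lit 0, nat_lit 0, nat_lit 0, nat_lit 0, nat_lit 0, nat_lit 0, [],
 C1.Rw.none, C1.Rw.none,
 zbF0, []⟩
noncomputable def p039_l94 : Lf2 := ⟨nat_lit 0, nat_lit 10, [nat_lit 0, nat_lit 5, nat_lit 5, nat_lit 20], true, nat_lit 160, nat_lit 272, nat_lit 0, nat_lit 272, ⟨nat_lit 0, nat_lit 0, nat_lit 1000, nat_lit 6, nat_lit 172, nat_lit 1000, nat_lit 140, nat_lit 1000, nat_lit 88902, nat_lit 288, nat_lit 15702, nat_lit 200, nat_lit 49049063, nat_lit 0, nat_lit 0, nat_lit 4087087, false, false⟩,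
 nat_lit 0, nat_lit 0, nat_lit 0, nat_lit 7641, nat_lit 5260, nat_lit 0, nat_lit 0, nat_lit 0, nat_lit 0, nat_lit 0, nat_lit 0, nat_lit 0, nat_lit 0, nat_lit 2025124272103, nat_lit 50, nat_lit 250000, nat_lit 0, nat_lit 0, [(nat_lit 6, [(nat_lit 4, nat_lit 1000)])],
 ⟨p039_k5, nat_lit 0, nat_lit 0, nat_lit 61, nat_lit 0, nat_lit 0, [nat_lit 3654400001, nat_lit 1089200000, nat_lit 21200000], [], [nat_lit 11419970477, nat_lit 11855850065, nat_lit 15398594351, nat_lit 15708395721, nat_lit 17972121077, nat_lit 18304448008, nat_lit 20043488378, nat_lit 20282460801], nat_lit 0, nat_lit 0, nat_lit 0, nat_lit 0, nat_lit 0, nat_lit 0, [], [nat_lit 11, nat_lit 40, nat_lit 20, nat_lit 80, nat_lit 1, nat_lit 428, nat_lit 200, nat_lit 12]⟩, C1.Rw.none,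
 ⟨nat_lit 5916, nat_lit 6021, ⟨.ofNat (nat_lit 217043), .ofNat (nat_lit 638141), .ofNat (nat_lit 222378), .ofNat (nat_lit 643476), .ofNat (nat_lit 220987), .ofNat (nat_lit 637213), .ofNat (nat_lit 226322), .ofNat (nat_lit 642548)⟩, ⟨.ofNat (nat_lit 228465), .ofNat (nat_lit 450933), .ofNat (nat_lit 249807), .ofNat (nat_lit 472275), .ofNat (nat_lit 229411), .ofNat (nat_lit 449305), .ofNat (nat_lit 250751), .ofNat (nat_lit 470645)⟩⟩, [⟨nat_lit 4, nat_lit 100, nat_lit 99, nat_lit 55, nat_lit 389547324⟩]⟩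
noncomputable def p039_l95 : Lf2 := ⟨nat_lit 1, nat_lit 10, [nat_lit 0, nat_lit 5, nat_lit 5, nat_lit 20], false, nat_lit 0, nat_lit 288, nat_lit 0, nat_lit 288, zbN0,
 nat_lit 0, nat_lit 0, nat_lit 0, nat_lit 0, nat_lit 0, nat_lit 0, nat_lit 0, nat_lit 0, nat_lit 0, nat_lit 0, nat_lit 0, nat_lit 0, nat_lit 0, nat_lit 0, nat_lit 0, nat_lit 0, nat_lit 0, nat_lit 0, [],
 C1.Rw.none, C1.Rw.none,
 zbF0, []⟩
noncomputable def p039_l96 : Lf2 := ⟨nat_lit 0, nat_lit 10, [nat_lit 0, nat_lit 5, nat_lit 5, nat_lit 20], true, nat_lit 0, nat_lit 80, nat_lit 0, nat_lit 288, ⟨nat_lit 0, nat_lit 0, nat_lit 1000, nat_lit 6, nat_lit 124, nat_lit 0, nat_lit 17, nat_lit 0, nat_lit 67, nat_lit 217, nat_lit 144150, nat_lit 308, nat_lit 61116091, nat_lit 0, nat_lit 0, nat_lit 1487315, false, false⟩,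
 nat_lit 0, nat_lit 0, nat_lit 0, nat_lit 3638, nat_lit 4102, nat_lit 0, nat_lit 0, nat_lit 0, nat_lit 0, nat_lit 0, nat_lit 0, nat_lit 0, nat_lit 0, nat_lit 12510019168274, nat_lit 87, nat_lit 400000, nat_lit 0, nat_lit 0, [(nat_lit 9, [(nat_lit 5, nat_lit 1000)])],
 ⟨p039_k10, nat_lit 0, nat_lit 0, nat_lit 213, nat_lit 0, nat_lit 0, [nat_lit 2918400000, nat_lit 1608666667, nat_lit 9200000], [], [nat_lit 15676328408, nat_lit 16347359450, nat_lit 14911547068, nat_lit 15441364698, nat_lit 13764351170, nat_lit 14315435916, nat_lit 13342578412, nat_lit 13843948986], nat_lit 0, nat_lit 0, nat_lit 0, nat_lit 0, nat_lit 0, nat_lit 0, [], [nat_lit 11, nat_lit 40, nat_lit 20, nat_lit 80, nat_lit 1, nat_lit 345, nat_lit 125, nat_lit 10]⟩, C1.Rw.none,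
 ⟨nat_lit 5700, nat_lit 5917, ⟨.ofNat (nat_lit 197129), .ofNat (nat_lit 385610), .ofNat (nat_lit 229138), .ofNat (nat_lit 417619), .ofNat (nat_lit 205119), .ofNat (nat_lit 389244), .ofNat (nat_lit 237132), .ofNat (nat_lit 421257)⟩, ⟨.negSucc (nat_lit 84722), .ofNat (nat_lit 72344), .negSucc (nat_lit 63383), .ofNat (nat_lit 93684), .negSucc (nat_lit 75673), .ofNat (nat_lit 77764), .negSucc (nat_lit 54331), .ofNat (nat_lit 99106)⟩⟩, [⟨nat_lit 0, nat_lit 100, nat_lit 100, nat_lit 70, nat_lit 137053778⟩]⟩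
noncomputable def p039_l97 : Lf2 := ⟨nat_lit 0, nat_lit 10, [nat_lit 0, nat_lit 5, nat_lit 5, nat_lit 20], true, nat_lit 0, nat_lit 80, nat_lit 0, nat_lit 288, ⟨nat_lit 0, nat_lit 0, nat_lit 1000, nat_lit 6, nat_lit 130, nat_lit 0, nat_lit 18, nat_lit 0, nat_lit 417, nat_lit 220, nat_lit 160067, nat_lit 313, nat_lit 60592251, nat_lit 0, nat_lit 0, nat_lit 1576955, false, false⟩,
 nat_lit 0, nat_lit 0, nat_lit 0, nat_lit 3608, nat_lit 4462, nat_lit 0, nat_lit 0, nat_lit 0, nat_lit 0, nat_lit 0, nat_lit 0, nat_lit 0, nat_lit 0, nat_lit 10240837877249, nat_lit 87, nat_lit 400000, nat_lit 0, nat_lit 0, [(nat_lit 9, [(nat_lit 5, nat_lit 1000)])],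
 ⟨p039_k11, nat_lit 0, nat_lit 0, nat_lit 214, nat_lit 0, nat_lit 0, [nat_lit 2918400000, nat_lit 1608666667, nat_lit 9200000], [], [nat_lit 16477160496, nat_lit 17174467327, nat_lit 15143272066, nat_lit 15786603000, nat_lit 13806290483, nat_lit 14376612378, nat_lit 13236032466, nat_lit 13755200360], nat_lit 0, nat_lit 0, nat_lit 0, nat_lit 0, nat_lit 0, nat_lit 0, [], [nat_lit 11, nat_lit 40, nat_lit 20, nat_lit 80, nat_lit 1, nat_lit 345, nat_lit 125, nat_lit 10]⟩, C1.Rw.none,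
 ⟨nat_lit 5477, nat_lit 5701, ⟨.ofNat (nat_lit 212791), .ofNat (nat_lit 389244), .ofNat (nat_lit 255475), .ofNat (nat_lit 431928), .ofNat (nat_lit 220501), .ofNat (nat_lit 392847), .ofNat (nat_lit 263215), .ofNat (nat_lit 435561)⟩, ⟨.negSucc (nat_lit 75673), .ofNat (nat_lit 77764), .negSucc (nat_lit 54331), .ofNat (nat_lit 99106), .negSucc (nat_lit 66879), .ofNat (nat_lit 82986), .negSucc (nat_lit 45522), .ofNat (nat_lit 104343)⟩⟩, [⟨nat_lit 0, nat_lit 100, nat_lit 100, nat_lit 80, nat_lit 185502505⟩]⟩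
noncomputable def p039_l98 : Lf2 := ⟨nat_lit 0, nat_lit 10, [nat_lit 0, nat_lit 5, nat_lit 5, nat_lit 20], true, nat_lit 80, nat_lit 160, nat_lit 0, nat_lit 288, ⟨nat_lit 0, nat_lit 0, nat_lit 1000, nat_lit 6, nat_lit 127, nat_lit 1000, nat_lit 66, nat_lit 1000, nat_lit 41667, nat_lit 265, nat_lit 153600, nat_lit 311, nat_lit 58166143, nat_lit 0, nat_lit 0, nat_lit 2454686, false, false⟩,
 nat_lit 0, nat_lit 0, nat_lit 0, nat_lit 2585, nat_lit 6866, nat_lit 0, nat_lit 0, nat_lit 0, nat_lit 0, nat_lit 0, nat_lit 0, nat_lit 0, nat_lit 0, nat_lit 6167257603581, nat_lit 61, nat_lit 250000, nat_lit 0, nat_lit 0, [(nat_lit 9, [(nat_lit 4, nat_lit 1000)])],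
 ⟨p039_k10, nat_lit 0, nat_lit 0, nat_lit 52, nat_lit 0, nat_lit 0, [nat_lit 4076800001, nat_lit 1163866667, nat_lit 14000000], [], [nat_lit 10550622200, nat_lit 13258810813, nat_lit 7693034549, nat_lit 9947183720, nat_lit 11232837764, nat_lit 13664049552, nat_lit 8965566681, nat_lit 10811470009], nat_lit 0, nat_lit 0, nat_lit 0, nat_lit 0, nat_lit 0, nat_lit 0, [], [nat_lit 11, nat_lit 40, nat_lit 20, nat_lit 80, nat_lit 1, nat_lit 373, nat_lit 150, nat_lit 11]⟩, C1.Rw.none,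
 ⟨nat_lit 5477, nat_lit 5917, ⟨.ofNat (nat_lit 197129), .ofNat (nat_lit 385610), .ofNat (nat_lit 239808), .ofNat (nat_lit 428288), .ofNat (nat_lit 213007), .ofNat (nat_lit 392847), .ofNat (nat_lit 255721), .ofNat (nat_lit 435561)⟩, ⟨.ofNat (nat_lit 72344), .ofNat (nat_lit 229411), .ofNat (nat_lit 93684), .ofNat (nat_lit 250751), .ofNat (nat_lit 82986), .ofNat (nat_lit 232852), .ofNat (nat_lit 104343), .ofNat (nat_lit 254209)⟩⟩, [⟨nat_lit 0, nat_lit 100, nat_lit 100, nat_lit 80, nat_lit 268091625⟩]⟩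
noncomputable def p039_l99 : Lf2 := ⟨nat_lit 0, nat_lit 10, [nat_lit 0, nat_lit 5, nat_lit 5, nat_lit 20], true, nat_lit 160, nat_lit 268, nat_lit 0, nat_lit 288, ⟨nat_lit 0, nat_lit 0, nat_lit 1000, nat_lit 6, nat_lit 127, nat_lit 1000, nat_lit 138, nat_lit 1000, nat_lit 126379, nat_lit 302, nat_lit 153600, nat_lit 311, nat_lit 52898530, nat_lit 0, nat_lit 0, nat_lit 3522122, false, false⟩,
 nat_lit 0, nat_lit 0, nat_lit 0, nat_lit 3805, nat_lit 4087, nat_lit 0, nat_lit 0, nat_lit 0, nat_lit 0, nat_lit 0, nat_lit 0, nat_lit 0, nat_lit 0, nat_lit 11946772573854, nat_lit 87, nat_lit 400000, nat_lit 0, nat_lit 0, [(nat_lit 9, [(nat_lit 5, nat_lit 1000)])],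
 ⟨p039_k10, nat_lit 0, nat_lit 0, nat_lit 73, nat_lit 0, nat_lit 0, [nat_lit 2918400000, nat_lit 1608666667, nat_lit 9200000], [], [nat_lit 11832118097, nat_lit 13357027042, nat_lit 11656987260, nat_lit 13040442756, nat_lit 17393418155, nat_lit 18747050012, nat_lit 16772046852, nat_lit 17863475527], nat_lit 0, nat_lit 0, nat_lit 0, nat_lit 0, nat_lit 0, nat_lit 0, [], [nat_lit 11, nat_lit 40, nat_lit 20, nat_lit 80, nat_lit 1, nat_lit 401, nat_lit 175, nat_lit 11]⟩, C1.Rw.none,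
 ⟨nat_lit 5477, nat_lit 5917, ⟨.ofNat (nat_lit 197129), .ofNat (nat_lit 385610), .ofNat (nat_lit 239808), .ofNat (nat_lit 428288), .ofNat (nat_lit 213007), .ofNat (nat_lit 392847), .ofNat (nat_lit 255721), .ofNat (nat_lit 435561)⟩, ⟨.ofNat (nat_lit 229411), .ofNat (nat_lit 441452), .ofNat (nat_lit 250751), .ofNat (nat_lit 462791), .ofNat (nat_lit 232852), .ofNat (nat_lit 435171), .ofNat (nat_lit 254209), .ofNat (nat_lit 456528)⟩⟩, [⟨nat_lit 0, nat_lit 100, nat_lit 98, nat_lit 64, nat_lit 45172302⟩, ⟨nat_lit 0, nat_lit 100, nat_lit 100, nat_lit 80, nat_lit 108788200⟩, ⟨nat_lit 16, nat_lit 100, nat_lit 99, nat_lit 63, nat_lit 306048088⟩]⟩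
noncomputable def p039_l100 : Lf2 := ⟨nat_lit 0, nat_lit 10, [nat_lit 0, nat_lit 5, nat_lit 5, nat_lit 20], true, nat_lit 0, nat_lit 160, nat_lit 0, nat_lit 288, ⟨nat_lit 0, nat_lit 0, nat_lit 1000, nat_lit 6, nat_lit 206, nat_lit 0, nat_lit 48, nat_lit 597, nat_lit 12150, nat_lit 242, nat_lit 13764, nat_lit 200, nat_lit 52955741, nat_lit 0, nat_lit 0, nat_lit 2567234, false, false⟩,
 nat_lit 0, nat_lit 0, nat_lit 0, nat_lit 3133, nat_lit 5373, nat_lit 0, nat_lit 0, nat_lit 0, nat_lit 0, nat_lit 0, nat_lit 0, nat_lit 0, nat_lit 0, nat_lit 0, nat_lit 74, nat_lit 322600, nat_lit 0, nat_lit 0, [(nat_lit 9, [(nat_lit 4, nat_lit 516), (nat_lit 5, nat_lit 484)])],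
 ⟨p039_k10, nat_lit 0, nat_lit 0, nat_lit 154, nat_lit 0, nat_lit 0, [nat_lit 3522790401, nat_lit 1387469867, nat_lit 23324800], [], [nat_lit 14889713978, nat_lit 16300011300, nat_lit 18422251842, nat_lit 19550742532, nat_lit 12928734543, nat_lit 13932147901, nat_lit 15548750791, nat_lit 16492160632], nat_lit 0, nat_lit 0, nat_lit 0, nat_lit 0, nat_lit 0, nat_lit 0, [], [nat_lit 11, nat_lit 40, nat_lit 20, nat_lit 80, nat_lit 1, nat_lit 401, nat_lit 175, nat_lit 12]⟩, C1.Rw.none,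
 ⟨nat_lit 5477, nat_lit 5917, ⟨.ofNat (nat_lit 385610), .ofNat (nat_lit 621176), .ofNat (nat_lit 406949), .ofNat (nat_lit 642507), .ofNat (nat_lit 392847), .ofNat (nat_lit 617611), .ofNat (nat_lit 414204), .ofNat (nat_lit 638960)⟩, ⟨.negSucc (nat_lit 84722), .ofNat (nat_lit 229411), .negSucc (nat_lit 63383), .ofNat (nat_lit 250751), .negSucc (nat_lit 66879), .ofNat (nat_lit 232852), .negSucc (nat_lit 45522), .ofNat (nat_lit 254209)⟩⟩, []⟩
noncomputable def p039_l101 : Lf2 := ⟨nat_lit 0, nat_lit 10, [nat_lit 0, nat_lit 5, nat_lit 5, nat_lit 20], false, nat_lit 0, nat_lit 160, nat_lit 0, nat_lit 268, ⟨nat_lit 156, nat_lit 0, nat_lit 844, nat_lit 6, nat_lit 215, nat_lit 0, nat_lit 48, nat_lit 0, nat_lit 12150, nat_lit 242, nat_lit 56426, nat_lit 200, nat_lit 52032908, nat_lit 0, nat_lit 0, nat_lit 2655821, false, false⟩,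
 nat_lit 0, nat_lit 0, nat_lit 1978, nat_lit 0, nat_lit 7262, nat_lit 1151, nat_lit 0, nat_lit 0, nat_lit 0, nat_lit 111, nat_lit 0, nat_lit 0, nat_lit 0, nat_lit 3678754961896, nat_lit 13, nat_lit 306675, nat_lit 0, nat_lit 0, [(nat_lit 9, [(nat_lit 3, nat_lit 35), (nat_lit 4, nat_lit 156), (nat_lit 5, nat_lit 653)])],
 ⟨p039_k10, nat_lit 0, nat_lit 0, nat_lit 154, nat_lit 0, nat_lit 0, [nat_lit 4043904001, nat_lit 1139978534, nat_lit 2199600], [], [nat_lit 16600741532, nat_lit 18267402600, nat_lit 20232580348, nat_lit 21517642920, nat_lit 12426252549, nat_lit 13583517401, nat_lit 15307632416, nat_lit 16385588608], nat_lit 0, nat_lit 0, nat_lit 0, nat_lit 0, nat_lit 0, nat_lit 0, [], [nat_lit 11, nat_lit 40, nat_lit 20, nat_lit 80, nat_lit 1, nat_lit 401, nat_lit 175, nat_lit 12]⟩, ⟨p039_k10, nat_lit 0, nat_lit 0, nat_lit 424, nat_lit 0, nat_lit 446743, [nat_lit 731328000, nat_lit 975000000, nat_lit 1535352000],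 [], [nat_lit 6954613350, nat_lit 6336597712, nat_lit 5373609677, nat_lit 5448735115, nat_lit 4850635479, nat_lit 4909340351, nat_lit 5274358366, nat_lit 4876473047], nat_lit 1271250, nat_lit 1271250, nat_lit 780000, nat_lit 1762500, nat_lit 0, nat_lit 1892750, [nat_lit 1100000, nat_lit 1442500, nat_lit 1271250], [nat_lit 11, nat_lit 40, nat_lit 20, nat_lit 80, nat_lit 1, nat_lit 428, nat_lit 200, nat_lit 12]⟩,
 ⟨nat_lit 5477, nat_lit 5917, ⟨.ofNat (nat_lit 406949), .ofNat (nat_lit 642507), .ofNat (nat_lit 428288), .ofNat (nat_lit 663838), .ofNat (nat_lit 414204), .ofNat (nat_lit 638960), .ofNat (nat_lit 435561), .ofNat (nat_lit 660309)⟩, ⟨.negSucc (nat_lit 84722), .ofNat (nat_lit 229411), .negSucc (nat_lit 63383), .ofNat (nat_lit 250751), .negSucc (nat_lit 66879), .ofNat (nat_lit 232852), .negSucc (nat_lit 45522), .ofNat (nat_lit 254209)⟩⟩, []⟩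
noncomputable def p039_l102 : Lf2 := ⟨nat_lit 0, nat_lit 10, [nat_lit 0, nat_lit 5, nat_lit 5, nat_lit 20], true, nat_lit 160, nat_lit 268, nat_lit 0, nat_lit 288, ⟨nat_lit 0, nat_lit 1000, nat_lit 0, nat_lit 6, nat_lit 210, nat_lit 1000, nat_lit 138, nat_lit 0, nat_lit 0, nat_lit 0, nat_lit 0, nat_lit 0, nat_lit 45925989, nat_lit 13891718, nat_lit 7182293, nat_lit 4414496, false, false⟩,
 nat_lit 0, nat_lit 0, nat_lit 0, nat_lit 2694, nat_lit 6201, nat_lit 0, nat_lit 0, nat_lit 0, nat_lit 0, nat_lit 0, nat_lit 0, nat_lit 0, nat_lit 0, nat_lit 12737672231029, nat_lit 0, nat_lit 250000, nat_lit 0, nat_lit 0, [(nat_lit 9, [(nat_lit 0, nat_lit 1000)])],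
 ⟨p039_k1, nat_lit 0, nat_lit 0, nat_lit 14, nat_lit 0, nat_lit 0, [nat_lit 3116800000, nat_lit 3378800001, nat_lit 3614800000], [], [nat_lit 10002354980, nat_lit 11737596988, nat_lit 14733025022, nat_lit 16081384620, nat_lit 16128080609, nat_lit 17708246152, nat_lit 19901245774, nat_lit 21131649816], nat_lit 0, nat_lit 0, nat_lit 0, nat_lit 0, nat_lit 0, nat_lit 0, [], [nat_lit 29, nat_lit 40, nat_lit 20, nat_lit 80, nat_lit 17, nat_lit 428, nat_lit 200, nat_lit 12]⟩, C1.Rw.none,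
 ⟨nat_lit 5477, nat_lit 5917, ⟨.ofNat (nat_lit 385610), .ofNat (nat_lit 621176), .ofNat (nat_lit 428288), .ofNat (nat_lit 663838), .ofNat (nat_lit 392847), .ofNat (nat_lit 617611), .ofNat (nat_lit 435561), .ofNat (nat_lit 660309)⟩, ⟨.ofNat (nat_lit 229411), .ofNat (nat_lit 441452), .ofNat (nat_lit 250751), .ofNat (nat_lit 462791), .ofNat (nat_lit 232852), .ofNat (nat_lit 435171), .ofNat (nat_lit 254209), .ofNat (nat_lit 456528)⟩⟩, [⟨nat_lit 16, nat_lit 100, nat_lit 99, nat_lit 63, nat_lit 315073226⟩]⟩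
noncomputable def p039_l103 : Lf2 := ⟨nat_lit 0, nat_lit 10, [nat_lit 0, nat_lit 5, nat_lit 5, nat_lit 20], false, nat_lit 0, nat_lit 288, nat_lit 0, nat_lit 288, ⟨nat_lit 1000, nat_lit 0, nat_lit 0, nat_lit 0, nat_lit 0, nat_lit 0, nat_lit 0, nat_lit 0, nat_lit 0, nat_lit 0, nat_lit 0, nat_lit 0, nat_lit 0, nat_lit 0, nat_lit 0, nat_lit 0, false, false⟩,
 nat_lit 0, nat_lit 0, nat_lit 15955, nat_lit 0, nat_lit 7766, nat_lit 8446, nat_lit 1107, nat_lit 0, nat_lit 0, nat_lit 972, nat_lit 0, nat_lit 0, nat_lit 0, nat_lit 0, nat_lit 0, nat_lit 0, nat_lit 0, nat_lit 0, [],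
 ⟨p039_k0, nat_lit 0, nat_lit 0, nat_lit 251, nat_lit 0, nat_lit 0, [nat_lit 4688000000, nat_lit 7968000001, nat_lit 11872000000], [], [nat_lit 27295189676, nat_lit 29580909748, nat_lit 38828294676, nat_lit 40340881097, nat_lit 25361680299, nat_lit 26693804123, nat_lit 33981031929, nat_lit 34843663085], nat_lit 0, nat_lit 0, nat_lit 0, nat_lit 0, nat_lit 0, nat_lit 0, [], [nat_lit 21, nat_lit 40, nat_lit 20, nat_lit 80, nat_lit 14, nat_lit 483, nat_lit 250, nat_lit 12]⟩, ⟨p039_k0, nat_lit 0, nat_lit 0, nat_lit 388, nat_lit 0, nat_lit 291708, [nat_lit 4688000000, nat_lit 7968000000, nat_lit 11872000000], [], [nat_lit 32583843552, nat_lit 33177938948, nat_lit 40483304656, nat_lit 41040590984, nat_lit 27920343167, nat_lit 28357454792, nat_lit 34353309133, nat_lit 34608707580], nat_lit 1271250, nat_lit 1271250, nat_lit 1271250, nat_lit 1271250, nat_lit 0, nat_lit 2034000, [nat_lit 1100000, nat_lit 1785000, nat_lit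 1271250], [nat_lit 21, nat_lit 40, nat_lit 20, nat_lit 80, nat_lit 14, nat_lit 483, nat_lit 250, nat_lit 12]⟩,
 zbF0, [⟨nat_lit 16, nat_lit 98, nat_lit 100, nat_lit 54, nat_lit 172635815⟩, ⟨nat_lit 19, nat_lit 100, nat_lit 99, nat_lit 54, nat_lit 122182743⟩]⟩
noncomputable def p039_l104 : Lf2 := ⟨nat_lit 0, nat_lit 10, [nat_lit 0, nat_lit 5, nat_lit 5, nat_lit 20], false, nat_lit 0, nat_lit 268, nat_lit 0, nat_lit 268, ⟨nat_lit 1000, nat_lit 0, nat_lit 0, nat_lit 0, nat_lit 0, nat_lit 0, nat_lit 0, nat_lit 0, nat_lit 0, nat_lit 0, nat_lit 0, nat_lit 0, nat_lit 0, nat_lit 0, nat_lit 0, nat_lit 0, false, false⟩,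
 nat_lit 0, nat_lit 0, nat_lit 11886, nat_lit 0, nat_lit 9790, nat_lit 6918, nat_lit 0, nat_lit 0, nat_lit 0, nat_lit 1420, nat_lit 0, nat_lit 0, nat_lit 0, nat_lit 0, nat_lit 0, nat_lit 0, nat_lit 0, nat_lit 0, [],
 ⟨p039_k10, nat_lit 0, nat_lit 0, nat_lit 215, nat_lit 0, nat_lit 0, [nat_lit 4688000000, nat_lit 6250000000, nat_lit 9842000000], [], [nat_lit 30601595660, nat_lit 32120513400, nat_lit 44937057780, nat_lit 45635728320, nat_lit 26516784463, nat_lit 27435366483, nat_lit 35743305849, nat_lit 36131849710], nat_lit 0, nat_lit 0, nat_lit 0, nat_lit 0, nat_lit 0, nat_lit 0, [], [nat_lit 11, nat_lit 40, nat_lit 20, nat_lit 80, nat_lit 1, nat_lit 483, nat_lit 250, nat_lit 14]⟩, ⟨p039_k10, nat_lit 0, nat_lit 0, nat_lit 403, nat_lit 0, nat_lit 446743, [nat_lit 4688000000, nat_lit 6250000000, nat_lit 9842000000], [], [nat_lit 29610134584, nat_lit 30086676580, nat_lit 37128599272, nat_lit 38120661488, nat_lit 26644271357,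 nat_lit 26917064033, nat_lit 31890329153, nat_lit 32558962526], nat_lit 1271250, nat_lit 1271250, nat_lit 1271250, nat_lit 1271250, nat_lit 0, nat_lit 1892750, [nat_lit 1100000, nat_lit 1442500, nat_lit 1271250], [nat_lit 11, nat_lit 40, nat_lit 20, nat_lit 80, nat_lit 1, nat_lit 483, nat_lit 250, nat_lit 14]⟩,
 zbF0, [⟨nat_lit 7, nat_lit 100, nat_lit 96, nat_lit 54, nat_lit 133187679⟩]⟩
noncomputable def b_VL_600_600_5_89 : St := ⟨true, nat_lit 0, nat_lit 2, nat_lit 1, nat_lit 40, nat_lit 240, nat_lit 280, nat_lit 240, nat_lit 280, nat_lit 16, nat_lit 400, nat_lit 20, nat_lit 40, nat_lit 0, nat_lit 288, nat_lit 0, nat_lit 288, nat_lit 40, nat_lit 68, nat_lit 0, nat_lit 0, nat_lit 0, nat_lit 0⟩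
theorem d_VL_600_600_5_89 (h : EB TB.env) : Dead b_VL_600_600_5_89 := chkB_sound0 h (T :=
(.st (nat_lit 1)
(.spl (nat_lit 2) (nat_lit 120)
(.spl (nat_lit 4) (nat_lit 160)
(.spl (nat_lit 0) (nat_lit 260)
(.ord (.spl (nat_lit 6) (nat_lit 44)
(.spl (nat_lit 1) (nat_lit 250)
(.leaf p039_l76)
(.ord (.trZ (nat_lit 0) (nat_lit 100) (nat_lit 100) (nat_lit 50) (nat_lit 24) (.trX (nat_lit 19) (nat_lit 100) (nat_lit 95) (nat_lit 62) (nat_lit 280) (.spl (nat_lit 4) (nat_lit 80)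
(.leaf p039_l77)
(.leaf p039_l78))))))
(.leaf p039_l79)))
(.trZ (nat_lit 0) (nat_lit 100) (nat_lit 97) (nat_lit 49) (nat_lit 24) (.spl (nat_lit 4) (nat_lit 80)
(.spl (nat_lit 0) (nat_lit 270)
(.ord (.leaf p039_l80))
(.trZ (nat_lit 0) (nat_lit 100) (nat_lit 96) (nat_lit 54) (nat_lit 28) (.leaf p039_l81)))
(.leaf p039_l82))))
(.spl (nat_lit 0) (nat_lit 260)
(.ord (.spl (nat_lit 6) (nat_lit 44)
(.spl (nat_lit 0) (nat_lit 250)
(.ord (.leaf p039_l83))
(.trZ (nat_lit 0) (nat_lit 100) (nat_lit 99) (nat_lit 45) (nat_lit 20) (.trX (nat_lit 16) (nat_lit 100) (nat_lit 95) (nat_lit 62) (nat_lit 280) (.leaf p039_l84))))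
(.leaf p039_l85)))
(.trZ (nat_lit 0) (nat_lit 100) (nat_lit 97) (nat_lit 49) (nat_lit 24) (.trX (nat_lit 16) (nat_lit 100) (nat_lit 99) (nat_lit 63) (nat_lit 268) (.leaf p039_l86)))))
(.spl (nat_lit 2) (nat_lit 240)
(.leaf p039_l87)
(.leaf p039_l88)))
(.spl (nat_lit 2) (nat_lit 240)
(.spl (nat_lit 0) (nat_lit 260)
(.ord (.spl (nat_lit 6) (nat_lit 44)
(.spl (nat_lit 1) (nat_lit 250)
(.leaf p039_l89)
(.ord (.trZ (nat_lit 0) (nat_lit 100) (nat_lit 100) (nat_lit 50) (nat_lit 24) (.trX (nat_lit 16) (nat_lit 100) (nat_lit 95) (nat_lit 62) (nat_lit 280) (.trX (nat_lit 19) (nat_lit 100) (nat_lit 95) (nat_lit 62) (nat_lit 280) (.spl (nat_lit 4) (nat_lit 160)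
(.spl (nat_lit 2) (nat_lit 120)
(.spl (nat_lit 4) (nat_lit 80)
(.leaf p039_l90)
(.leaf p039_l91))
(.leaf p039_l92))
(.spl (nat_lit 1) (nat_lit 255)
(.leaf p039_l93)
(.ord (.trZ (nat_lit 0) (nat_lit 100) (nat_lit 100) (nat_lit 55) (nat_lit 28) (.trX (nat_lit 16) (nat_lit 100) (nat_lit 97) (nat_lit 62) (nat_lit 272) (.trX (nat_lit 19) (nat_lit 100) (nat_lit 97) (nat_lit 62) (nat_lit 272) (.leaf p039_l94))))))))))))
(.leaf p039_l95)))
(.trZ (nat_lit 0) (nat_lit 100) (nat_lit 97) (nat_lit 49) (nat_lit 24) (.trX (nat_lit 16) (nat_lit 100) (nat_lit 99) (nat_lit 63) (nat_lit 268) (.spl (nat_lit 2) (nat_lit 120)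
(.spl (nat_lit 4) (nat_lit 160)
(.spl (nat_lit 4) (nat_lit 80)
(.spl (nat_lit 0) (nat_lit 270)
(.ord (.leaf p039_l96))
(.trZ (nat_lit 0) (nat_lit 100) (nat_lit 96) (nat_lit 54) (nat_lit 28) (.leaf p039_l97)))
(.leaf p039_l98))
(.leaf p039_l99))
(.spl (nat_lit 4) (nat_lit 160)
(.spl (nat_lit 1) (nat_lit 260)
(.leaf p039_l100)
(.trX (nat_lit 19) (nat_lit 100) (nat_lit 99) (nat_lit 63) (nat_lit 268) (.leaf p039_l101)))
(.leaf p039_l102))))))
(.spl (nat_lit 1) (nat_lit 260)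
(.leaf p039_l103)
(.ord (.trX (nat_lit 16) (nat_lit 100) (nat_lit 99) (nat_lit 63) (nat_lit 268) (.trX (nat_lit 19) (nat_lit 100) (nat_lit 99) (nat_lit 63) (nat_lit 268) (.leaf p039_l104)))))))) (by decide +kernel)
noncomputable def p039_l105 : Lf2 := ⟨nat_lit 0, nat_lit 10, [nat_lit 0, nat_lit 5, nat_lit 5, nat_lit 20], true, nat_lit 0, nat_lit 288, nat_lit 0, nat_lit 288, ⟨nat_lit 0, nat_lit 1000, nat_lit 0, nat_lit 6, nat_lit 169, nat_lit 1000, nat_lit 98, nat_lit 0, nat_lit 0, nat_lit 0, nat_lit 0, nat_lit 0, nat_lit 0, nat_lit 0, nat_lit 0, nat_lit 5000000, false, false⟩,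
 nat_lit 0, nat_lit 0, nat_lit 0, nat_lit 5571, nat_lit 7079, nat_lit 0, nat_lit 0, nat_lit 0, nat_lit 0, nat_lit 0, nat_lit 0, nat_lit 0, nat_lit 0, nat_lit 19642210113240, nat_lit 0, nat_lit 688000, nat_lit 0, nat_lit 0, [(nat_lit 6, [(nat_lit 0, nat_lit 416), (nat_lit 2, nat_lit 584)]), (nat_lit 9, [(nat_lit 0, nat_lit 416), (nat_lit 2, nat_lit 584)])],
 ⟨p039_k13, nat_lit 0, nat_lit 0, nat_lit 350, nat_lit 0, nat_lit 0, [nat_lit 3752132480, nat_lit 1781621120], [], [nat_lit 29438092804, nat_lit 31097292737, nat_lit 26309545488, nat_lit 27458568996, nat_lit 26595868902, nat_lit 27613027528, nat_lit 23177559650, nat_lit 24476238889], nat_lit 0, nat_lit 0, nat_lit 0, nat_lit 0, nat_lit 0, nat_lit 0, [], [nat_lit 116, nat_lit 40, nat_lit 20, nat_lit 80, nat_lit 65, nat_lit 456, nat_lit 225, nat_lit 12]⟩, C1.Rw.none,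
 ⟨nat_lit 5477, nat_lit 6325, ⟨.ofNat (nat_lit 164319), .ofNat (nat_lit 624852), .ofNat (nat_lit 207055), .ofNat (nat_lit 667525), .ofNat (nat_lit 198021), .ofNat (nat_lit 617499), .ofNat (nat_lit 240735), .ofNat (nat_lit 660151)⟩, ⟨.negSucc (nat_lit 103633), .ofNat (nat_lit 488669), .negSucc (nat_lit 82265), .ofNat (nat_lit 510037), .negSucc (nat_lit 66879), .ofNat (nat_lit 472638), .negSucc (nat_lit 45522), .ofNat (nat_lit 493995)⟩⟩, [⟨nat_lit 0, nat_lit 100, nat_lit 100, nat_lit 80, nat_lit 56750228⟩]⟩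
noncomputable def p039_l106 : Lf2 := ⟨nat_lit 0, nat_lit 10, [nat_lit 0, nat_lit 5, nat_lit 5, nat_lit 20], false, nat_lit 0, nat_lit 288, nat_lit 0, nat_lit 288, ⟨nat_lit 1000, nat_lit 0, nat_lit 0, nat_lit 0, nat_lit 0, nat_lit 0, nat_lit 0, nat_lit 0, nat_lit 0, nat_lit 0, nat_lit 0, nat_lit 0, nat_lit 0, nat_lit 0, nat_lit 0, nat_lit 0, false, false⟩,
 nat_lit 0, nat_lit 0, nat_lit 0, nat_lit 8538, nat_lit 10034, nat_lit 10126, nat_lit 447, nat_lit 0, nat_lit 0, nat_lit 447, nat_lit 0, nat_lit 0, nat_lit 0, nat_lit 0, nat_lit 0, nat_lit 0, nat_lit 0, nat_lit 0, [],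
 ⟨p039_k0, nat_lit 0, nat_lit 0, nat_lit 251, nat_lit 0, nat_lit 0, [nat_lit 4688000000, nat_lit 7968000001, nat_lit 11872000000], [], [nat_lit 32267686124, nat_lit 34879299652, nat_lit 45745601124, nat_lit 46882740100, nat_lit 28006361422, nat_lit 29440807545, nat_lit 36138297579, nat_lit 36649457642], nat_lit 0, nat_lit 0, nat_lit 0, nat_lit 0, nat_lit 0, nat_lit 0, [], [nat_lit 21, nat_lit 40, nat_lit 20, nat_lit 80, nat_lit 14, nat_lit 483, nat_lit 250, nat_lit 12]⟩, ⟨p039_k0, nat_lit 0, nat_lit 0, nat_lit 251, nat_lit 0, nat_lit 0, [nat_lit 4688000000, nat_lit 7968000000, nat_lit 11872000000], [], [nat_lit 32291020636, nat_lit 34915853828, nat_lit 45847825636, nat_lit 46986368900, nat_lit 27935269563, nat_lit 29373942608, nat_lit 36104675038, nat_lit 36748425943], nat_lit 0, nat_lit 0, nat_lit 0, nat_lit 0, nat_lit 0, nat_lit 0, [], [nat_lit 21, nat_lit 40, nat_lit 20, nat_lit 80, nat_lit 14, nat_lit 483,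 nat_lit 250, nat_lit 12]⟩,
 zbF0, []⟩
noncomputable def p039_l107 : Lf2 := ⟨nat_lit 0, nat_lit 10, [nat_lit 0, nat_lit 5, nat_lit 5, nat_lit 20], true, nat_lit 0, nat_lit 288, nat_lit 0, nat_lit 288, ⟨nat_lit 0, nat_lit 1000, nat_lit 0, nat_lit 6, nat_lit 169, nat_lit 1000, nat_lit 98, nat_lit 0, nat_lit 0, nat_lit 0, nat_lit 0, nat_lit 0, nat_lit 0, nat_lit 0, nat_lit 0, nat_lit 5000000, false, false⟩,
 nat_lit 0, nat_lit 0, nat_lit 0, nat_lit 5571, nat_lit 7079, nat_lit 0, nat_lit 0, nat_lit 0, nat_lit 0, nat_lit 0, nat_lit 0, nat_lit 0, nat_lit 0, nat_lit 19642210113240, nat_lit 0, nat_lit 688000, nat_lit 0, nat_lit 0, [(nat_lit 6, [(nat_lit 0, nat_lit 416), (nat_lit 2, nat_lit 584)]), (nat_lit 9, [(nat_lit 0, nat_lit 416), (nat_lit 2, nat_lit 584)])],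
 ⟨p039_k13, nat_lit 0, nat_lit 0, nat_lit 350, nat_lit 0, nat_lit 0, [nat_lit 3752132480, nat_lit 1781621120], [], [nat_lit 29438092804, nat_lit 31097292737, nat_lit 26309545488, nat_lit 27458568996, nat_lit 26595868902, nat_lit 27613027528, nat_lit 23177559650, nat_lit 24476238889], nat_lit 0, nat_lit 0, nat_lit 0, nat_lit 0, nat_lit 0, nat_lit 0, [], [nat_lit 116, nat_lit 40, nat_lit 20, nat_lit 80, nat_lit 65, nat_lit 456, nat_lit 225, nat_lit 12]⟩, C1.Rw.none,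
 ⟨nat_lit 5477, nat_lit 6325, ⟨.ofNat (nat_lit 164319), .ofNat (nat_lit 624852), .ofNat (nat_lit 207055), .ofNat (nat_lit 667525), .ofNat (nat_lit 198021), .ofNat (nat_lit 617499), .ofNat (nat_lit 240735), .ofNat (nat_lit 660151)⟩, ⟨.negSucc (nat_lit 103633), .ofNat (nat_lit 488669), .negSucc (nat_lit 82265), .ofNat (nat_lit 510037), .negSucc (nat_lit 66879), .ofNat (nat_lit 472638), .negSucc (nat_lit 45522), .ofNat (nat_lit 493995)⟩⟩, [⟨nat_lit 0, nat_lit 100, nat_lit 100, nat_lit 80, nat_lit 56750228⟩]⟩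
noncomputable def p039_l108 : Lf2 := ⟨nat_lit 0, nat_lit 10, [nat_lit 0, nat_lit 5, nat_lit 5, nat_lit 20], false, nat_lit 0, nat_lit 288, nat_lit 0, nat_lit 288, ⟨nat_lit 728, nat_lit 272, nat_lit 0, nat_lit 6, nat_lit 316, nat_lit 272, nat_lit 98, nat_lit 0, nat_lit 0, nat_lit 0, nat_lit 0, nat_lit 0, nat_lit 0, nat_lit 0, nat_lit 0, nat_lit 5000000, true, true⟩,
 nat_lit 0, nat_lit 0, nat_lit 11776, nat_lit 0, nat_lit 7381, nat_lit 6234, nat_lit 708, nat_lit 0, nat_lit 0, nat_lit 636, nat_lit 0, nat_lit 0, nat_lit 0, nat_lit 0, nat_lit 0, nat_lit 68000, nat_lit 0, nat_lit 0, [(nat_lit 6, [(nat_lit 0, nat_lit 272)]), (nat_lit 9, [(nat_lit 0, nat_lit 272)])],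
 ⟨p039_k0, nat_lit 0, nat_lit 0, nat_lit 251, nat_lit 0, nat_lit 0, [nat_lit 4263680000, nat_lit 6763946667, nat_lit 9671628800], [], [nat_lit 27655506116, nat_lit 29885904768, nat_lit 38858473616, nat_lit 39955117200, nat_lit 26117150575, nat_lit 27429705144, nat_lit 33168585626, nat_lit 33795513055], nat_lit 0, nat_lit 0, nat_lit 0, nat_lit 0, nat_lit 0, nat_lit 0, [], [nat_lit 21, nat_lit 40, nat_lit 20, nat_lit 80, nat_lit 14, nat_lit 483, nat_lit 250, nat_lit 12]⟩, ⟨p039_k0, nat_lit 0, nat_lit 0, nat_lit 388, nat_lit 0, nat_lit 291708, [nat_lit 3412864000, nat_lit 5800704000, nat_lit 8642816000], [], [nat_lit 24615748960, nat_lit 25049472588, nat_lit 30043780624, nat_lit 30449527232, nat_lit 20736261460, nat_lit 20953145367, nat_lit 24861837415, nat_lit 25057037217], nat_lit 1271250, nat_lit 1271250, nat_lit 1271250, nat_lit 1271250, nat_lit 0, nat_lit 2034000, [nat_lit 1100000, nat_lit 1785000, nat_lit 1271250],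 [nat_lit 21, nat_lit 40, nat_lit 20, nat_lit 80, nat_lit 14, nat_lit 483, nat_lit 250, nat_lit 12]⟩,
 ⟨nat_lit 5477, nat_lit 6325, ⟨.ofNat (nat_lit 624852), .ofNat (nat_lit 953563), .ofNat (nat_lit 646189), .ofNat (nat_lit 974900), .ofNat (nat_lit 617499), .ofNat (nat_lit 916886), .ofNat (nat_lit 638825), .ofNat (nat_lit 938212)⟩, ⟨.negSucc (nat_lit 103633), .ofNat (nat_lit 488669), .negSucc (nat_lit 82265), .ofNat (nat_lit 510037), .negSucc (nat_lit 66879), .ofNat (nat_lit 472638), .negSucc (nat_lit 45522), .ofNat (nat_lit 493995)⟩⟩, [⟨nat_lit 4, nat_lit 100, nat_lit 98, nat_lit 54, nat_lit 73081419⟩, ⟨nat_lit 7, nat_lit 99, nat_lit 100, nat_lit 54, nat_lit 66150138⟩]⟩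
noncomputable def p039_l109 : Lf2 := ⟨nat_lit 0, nat_lit 10, [nat_lit 0, nat_lit 5, nat_lit 5, nat_lit 20], false, nat_lit 0, nat_lit 268, nat_lit 0, nat_lit 268, ⟨nat_lit 813, nat_lit 187, nat_lit 0, nat_lit 6, nat_lit 322, nat_lit 187, nat_lit 90, nat_lit 0, nat_lit 0, nat_lit 0, nat_lit 0, nat_lit 0, nat_lit 0, nat_lit 0, nat_lit 0, nat_lit 5000000, true, true⟩,
 nat_lit 0, nat_lit 0, nat_lit 10846, nat_lit 0, nat_lit 8845, nat_lit 6313, nat_lit 66, nat_lit 0, nat_lit 0, nat_lit 641, nat_lit 0, nat_lit 0, nat_lit 0, nat_lit 0, nat_lit 0, nat_lit 46750, nat_lit 0, nat_lit 0, [(nat_lit 9, [(nat_lit 0, nat_lit 187)])],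
 ⟨p039_k1, nat_lit 0, nat_lit 0, nat_lit 226, nat_lit 0, nat_lit 0, [nat_lit 4394185600, nat_lit 7109819600, nat_lit 8677513600], [], [nat_lit 29051124730, nat_lit 30482624300, nat_lit 42485408390, nat_lit 43165910360, nat_lit 25905883847, nat_lit 26785459952, nat_lit 34647191770, nat_lit 35041012605], nat_lit 0, nat_lit 0, nat_lit 0, nat_lit 0, nat_lit 0, nat_lit 0, [], [nat_lit 29, nat_lit 40, nat_lit 20, nat_lit 80, nat_lit 17, nat_lit 483, nat_lit 250, nat_lit 14]⟩, ⟨p039_k1, nat_lit 0, nat_lit 0, nat_lit 400, nat_lit 0, nat_lit 446743, [nat_lit 3811344000, nat_lit 6477984000, nat_lit 8001546000], [], [nat_lit 26924282662, nat_lit 27357564036, nat_lit 31948676656, nat_lit 32794072264, nat_lit 23522673906, nat_lit 23806671407, nat_lit 27063688195, nat_lit 27193656657], nat_lit 1271250, nat_lit 1271250, nat_lit 1271250, nat_lit 1271250, nat_lit 0, nat_lit 1892750, [nat_lit 1100000, nat_lit 1785000, nat_lit 1271250],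 [nat_lit 29, nat_lit 40, nat_lit 20, nat_lit 80, nat_lit 17, nat_lit 483, nat_lit 250, nat_lit 14]⟩,
 ⟨nat_lit 5477, nat_lit 5917, ⟨.ofNat (nat_lit 642507), .ofNat (nat_lit 956565), .ofNat (nat_lit 663838), .ofNat (nat_lit 977896), .ofNat (nat_lit 638960), .ofNat (nat_lit 938616), .ofNat (nat_lit 660309), .ofNat (nat_lit 959965)⟩, ⟨.negSucc (nat_lit 84722), .ofNat (nat_lit 441452), .negSucc (nat_lit 63383), .ofNat (nat_lit 462791), .negSucc (nat_lit 66879), .ofNat (nat_lit 435171), .negSucc (nat_lit 45522), .ofNat (nat_lit 456528)⟩⟩, [⟨nat_lit 7, nat_lit 100, nat_lit 96, nat_lit 54, nat_lit 69259550⟩]⟩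
noncomputable def b_VL_600_600_5_90 : St := ⟨true, nat_lit 0, nat_lit 2, nat_lit 2, nat_lit 40, nat_lit 240, nat_lit 280, nat_lit 240, nat_lit 280, nat_lit 16, nat_lit 400, nat_lit 20, nat_lit 40, nat_lit 0, nat_lit 288, nat_lit 0, nat_lit 288, nat_lit 40, nat_lit 68, nat_lit 0, nat_lit 0, nat_lit 0, nat_lit 0⟩
theorem d_VL_600_600_5_90 (h : EB TB.env) : Dead b_VL_600_600_5_90 := chkB_sound0 h (T :=
(.st (nat_lit 1)
(.spl (nat_lit 2) (nat_lit 240)
(.leaf p039_l105)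
(.leaf p039_l106))
(.spl (nat_lit 2) (nat_lit 240)
(.leaf p039_l107)
(.spl (nat_lit 1) (nat_lit 260)
(.leaf p039_l108)
(.ord (.trX (nat_lit 16) (nat_lit 100) (nat_lit 99) (nat_lit 63) (nat_lit 268) (.trX (nat_lit 19) (nat_lit 100) (nat_lit 99) (nat_lit 63) (nat_lit 268) (.leaf p039_l109)))))))) (by decide +kernel)
noncomputable def p039_l110 : Lf2 := ⟨nat_lit 1, nat_lit 10, [nat_lit 0, nat_lit 5, nat_lit 5, nat_lit 20], false, nat_lit 0, nat_lit 80, nat_lit 0, nat_lit 288, zbN0,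
 nat_lit 0, nat_lit 0, nat_lit 0, nat_lit 0, nat_lit 0, nat_lit 0, nat_lit 0, nat_lit 0, nat_lit 0, nat_lit 0, nat_lit 0, nat_lit 0, nat_lit 0, nat_lit 0, nat_lit 0, nat_lit 0, nat_lit 0, nat_lit 0, [],
 C1.Rw.none, C1.Rw.none,
 zbF0, []⟩
noncomputable def p039_l111 : Lf2 := ⟨nat_lit 0, nat_lit 10, [nat_lit 0, nat_lit 5, nat_lit 5, nat_lit 20], true, nat_lit 0, nat_lit 80, nat_lit 0, nat_lit 280, ⟨nat_lit 0, nat_lit 0, nat_lit 1000, nat_lit 6, nat_lit 106, nat_lit 0, nat_lit 16, nat_lit 0, nat_lit 0, nat_lit 215, nat_lit 104017, nat_lit 294, nat_lit 62612878, nat_lit 0, nat_lit 0, nat_lit 1208921, false, false⟩,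
 nat_lit 0, nat_lit 7394, nat_lit 0, nat_lit 0, nat_lit 4107, nat_lit 0, nat_lit 371, nat_lit 0, nat_lit 0, nat_lit 0, nat_lit 0, nat_lit 0, nat_lit 0, nat_lit 19092003558673, nat_lit 69, nat_lit 400000, nat_lit 0, nat_lit 0, [(nat_lit 6, [(nat_lit 5, nat_lit 1000)])],
 ⟨p039_k15, nat_lit 0, nat_lit 0, nat_lit 254, nat_lit 0, nat_lit 23834, [nat_lit 2521600001, nat_lit 679600001, nat_lit 7200000], [], [nat_lit 13934004483, nat_lit 14605415428, nat_lit 12972047323, nat_lit 13527957985, nat_lit 12023537985, nat_lit 12574909895, nat_lit 11376230624, nat_lit 11903357138], nat_lit 1271250, nat_lit 1271250, nat_lit 134400, nat_lit 490000, nat_lit 0, nat_lit 490000, [nat_lit 1100000, nat_lit 1785000, nat_lit 1271250], [nat_lit 29, nat_lit 40, nat_lit 20, nat_lit 80, nat_lit 17, nat_lit 345, nat_lit 125, nat_lit 10]⟩, C1.Rw.none,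
 ⟨nat_lit 5916, nat_lit 6124, ⟨.ofNat (nat_lit 199694), .ofNat (nat_lit 312227), .ofNat (nat_lit 210368), .ofNat (nat_lit 322901), .ofNat (nat_lit 207799), .ofNat (nat_lit 317746), .ofNat (nat_lit 218469), .ofNat (nat_lit 328416)⟩, ⟨.negSucc (nat_lit 94037), .ofNat (nat_lit 66723), .negSucc (nat_lit 72689), .ofNat (nat_lit 88071), .negSucc (nat_lit 84722), .ofNat (nat_lit 72344), .negSucc (nat_lit 63383), .ofNat (nat_lit 93684)⟩⟩, [⟨nat_lit 0, nat_lit 100, nat_lit 100, nat_lit 60, nat_lit 173494240⟩]⟩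
noncomputable def p039_l112 : Lf2 := ⟨nat_lit 0, nat_lit 10, [nat_lit 0, nat_lit 5, nat_lit 5, nat_lit 20], true, nat_lit 0, nat_lit 80, nat_lit 0, nat_lit 280, ⟨nat_lit 0, nat_lit 0, nat_lit 1000, nat_lit 6, nat_lit 160, nat_lit 0, nat_lit 16, nat_lit 0, nat_lit 0, nat_lit 215, nat_lit 58974, nat_lit 274, nat_lit 57767403, nat_lit 0, nat_lit 0, nat_lit 2004746, false, false⟩,
 nat_lit 0, nat_lit 8022, nat_lit 0, nat_lit 0, nat_lit 4456, nat_lit 0, nat_lit 395, nat_lit 0, nat_lit 0, nat_lit 0, nat_lit 0, nat_lit 0, nat_lit 0, nat_lit 23992898645183, nat_lit 69, nat_lit 400000, nat_lit 0, nat_lit 0, [(nat_lit 6, [(nat_lit 5, nat_lit 1000)])],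
 ⟨p039_k15, nat_lit 0, nat_lit 0, nat_lit 228, nat_lit 0, nat_lit 46020, [nat_lit 2521600001, nat_lit 679600001, nat_lit 7200000], [], [nat_lit 12603125088, nat_lit 13276277232, nat_lit 13453913090, nat_lit 14026884634, nat_lit 10700610385, nat_lit 11246648890, nat_lit 13174802802, nat_lit 12336504986], nat_lit 1271250, nat_lit 1271250, nat_lit 490000, nat_lit 1100001, nat_lit 0, nat_lit 490000, [nat_lit 1100000, nat_lit 1785000, nat_lit 1271250], [nat_lit 29, nat_lit 40, nat_lit 20, nat_lit 80, nat_lit 17, nat_lit 345, nat_lit 125, nat_lit 10]⟩, C1.Rw.none,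
 ⟨nat_lit 5916, nat_lit 6124, ⟨.ofNat (nat_lit 312227), .ofNat (nat_lit 472988), .ofNat (nat_lit 322901), .ofNat (nat_lit 483662), .ofNat (nat_lit 317746), .ofNat (nat_lit 474813), .ofNat (nat_lit 328416), .ofNat (nat_lit 485483)⟩, ⟨.negSucc (nat_lit 94037), .ofNat (nat_lit 66723), .negSucc (nat_lit 72689), .ofNat (nat_lit 88071), .negSucc (nat_lit 84722), .ofNat (nat_lit 72344), .negSucc (nat_lit 63383), .ofNat (nat_lit 93684)⟩⟩, []⟩
noncomputable def p039_l113 : Lf2 := ⟨nat_lit 1, nat_lit 10, [nat_lit 0, nat_lit 5, nat_lit 5, nat_lit 20], false, nat_lit 80, nat_lit 160, nat_lit 0, nat_lit 288, zbN0,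
 nat_lit 0, nat_lit 0, nat_lit 0, nat_lit 0, nat_lit 0, nat_lit 0, nat_lit 0, nat_lit 0, nat_lit 0, nat_lit 0, nat_lit 0, nat_lit 0, nat_lit 0, nat_lit 0, nat_lit 0, nat_lit 0, nat_lit 0, nat_lit 0, [],
 C1.Rw.none, C1.Rw.none,
 zbF0, []⟩
noncomputable def p039_l114 : Lf2 := ⟨nat_lit 0, nat_lit 10, [nat_lit 0, nat_lit 5, nat_lit 5, nat_lit 20], true, nat_lit 80, nat_lit 160, nat_lit 0, nat_lit 288, ⟨nat_lit 0, nat_lit 0, nat_lit 1000, nat_lit 6, nat_lit 134, nat_lit 1000, nat_lit 64, nat_lit 1000, nat_lit 38400, nat_lit 263, nat_lit 58974, nat_lit 274, nat_lit 57719925, nat_lit 0, nat_lit 0, nat_lit 2518119, false, false⟩,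
 nat_lit 0, nat_lit 24822, nat_lit 0, nat_lit 0, nat_lit 13789, nat_lit 0, nat_lit 0, nat_lit 0, nat_lit 0, nat_lit 0, nat_lit 0, nat_lit 0, nat_lit 0, nat_lit 41142661463981, nat_lit 49, nat_lit 237340, nat_lit 0, nat_lit 0, [(nat_lit 6, [(nat_lit 3, nat_lit 211), (nat_lit 4, nat_lit 789)])],
 ⟨p039_k3, nat_lit 0, nat_lit 0, nat_lit 218, nat_lit 0, nat_lit 46020, [nat_lit 10505859200, nat_lit 1074010800, nat_lit 39282400], [], [nat_lit 11930579525, nat_lit 13279843586, nat_lit 4961202868, nat_lit 5863859560, nat_lit 10554777094, nat_lit 12358303872, nat_lit 8239173921, nat_lit 5869955608], nat_lit 1271250, nat_lit 1271250, nat_lit 111251, nat_lit 1100001, nat_lit 490000, nat_lit 1100001, [nat_lit 1100000, nat_lit 1442500, nat_lit 1271250], [nat_lit 11, nat_lit 40, nat_lit 20, nat_lit 80, nat_lit 1, nat_lit 373, nat_lit 150, nat_lit 11]⟩, C1.Rw.none,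
 ⟨nat_lit 5916, nat_lit 6124, ⟨.ofNat (nat_lit 180982), .ofNat (nat_lit 462314), .ofNat (nat_lit 202330), .ofNat (nat_lit 483662), .ofNat (nat_lit 189276), .ofNat (nat_lit 464143), .ofNat (nat_lit 210615), .ofNat (nat_lit 485483)⟩, ⟨.ofNat (nat_lit 66723), .ofNat (nat_lit 227485), .ofNat (nat_lit 88071), .ofNat (nat_lit 248833), .ofNat (nat_lit 72344), .ofNat (nat_lit 229411), .ofNat (nat_lit 93684), .ofNat (nat_lit 250751)⟩⟩, [⟨nat_lit 0, nat_lit 100, nat_lit 100, nat_lit 60, nat_lit 367197111⟩]⟩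
noncomputable def p039_l115 : Lf2 := ⟨nat_lit 1, nat_lit 10, [nat_lit 0, nat_lit 5, nat_lit 5, nat_lit 20], false, nat_lit 0, nat_lit 160, nat_lit 0, nat_lit 288, zbN0,
 nat_lit 0, nat_lit 0, nat_lit 0, nat_lit 0, nat_lit 0, nat_lit 0, nat_lit 0, nat_lit 0, nat_lit 0, nat_lit 0, nat_lit 0, nat_lit 0, nat_lit 0, nat_lit 0, nat_lit 0, nat_lit 0, nat_lit 0, nat_lit 0, [],
 C1.Rw.none, C1.Rw.none,
 zbF0, []⟩
noncomputable def p039_l116 : Lf2 := ⟨nat_lit 0, nat_lit 10, [nat_lit 0, nat_lit 5, nat_lit 5, nat_lit 20], true, nat_lit 0, nat_lit 40, nat_lit 0, nat_lit 288, ⟨nat_lit 0, nat_lit 0, nat_lit 1000, nat_lit 6, nat_lit 106, nat_lit 0, nat_lit 2, nat_lit 0, nat_lit 1350, nat_lit 206, nat_lit 106667, nat_lit 295, nat_lit 62568484, nat_lit 0, nat_lit 0, nat_lit 1217710, false, false⟩,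
 nat_lit 0, nat_lit 6589, nat_lit 0, nat_lit 0, nat_lit 3835, nat_lit 0, nat_lit 0, nat_lit 0, nat_lit 0, nat_lit 0, nat_lit 0, nat_lit 0, nat_lit 0, nat_lit 0, nat_lit 169, nat_lit 866800, nat_lit 0, nat_lit 0, [(nat_lit 9, [(nat_lit 5, nat_lit 222), (nat_lit 6, nat_lit 778)])],
 ⟨p039_k10, nat_lit 0, nat_lit 0, nat_lit 301, nat_lit 0, nat_lit 75925, [nat_lit 3896793601, nat_lit 3017341334, nat_lit 181642666], [], [nat_lit 13347874206, nat_lit 14008340677, nat_lit 12689732401, nat_lit 13119277321, nat_lit 12623848212, nat_lit 13061272045, nat_lit 12103117831, nat_lit 12520724936], nat_lit 1271250, nat_lit 1271250, nat_lit 134400, nat_lit 490000, nat_lit 0, nat_lit 230001, [nat_lit 1100000, nat_lit 1442500, nat_lit 1271250], [nat_lit 11, nat_lit 40, nat_lit 20, nat_lit 80, nat_lit 1, nat_lit 317, nat_lit 100, nat_lit 10]⟩, C1.Rw.none,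
 ⟨nat_lit 5700, nat_lit 5917, ⟨.ofNat (nat_lit 197129), .ofNat (nat_lit 307076), .ofNat (nat_lit 218469), .ofNat (nat_lit 328416), .ofNat (nat_lit 205119), .ofNat (nat_lit 312525), .ofNat (nat_lit 226461), .ofNat (nat_lit 333867)⟩, ⟨.negSucc (nat_lit 84722), .negSucc (nat_lit 6188), .negSucc (nat_lit 63383), .ofNat (nat_lit 15150), .negSucc (nat_lit 75673), .ofNat (nat_lit 1045), .negSucc (nat_lit 54331), .ofNat (nat_lit 22387)⟩⟩, [⟨nat_lit 0, nat_lit 100, nat_lit 98, nat_lit 64, nat_lit 159745571⟩]⟩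
noncomputable def p039_l117 : Lf2 := ⟨nat_lit 0, nat_lit 10, [nat_lit 0, nat_lit 5, nat_lit 5, nat_lit 20], true, nat_lit 0, nat_lit 40, nat_lit 0, nat_lit 288, ⟨nat_lit 0, nat_lit 0, nat_lit 1000, nat_lit 6, nat_lit 111, nat_lit 0, nat_lit 3, nat_lit 0, nat_lit 817, nat_lit 208, nat_lit 114817, nat_lit 298, nat_lit 62238064, nat_lit 0, nat_lit 0, nat_lit 1282032, false, false⟩,
 nat_lit 0, nat_lit 6757, nat_lit 0, nat_lit 0, nat_lit 4115, nat_lit 0, nat_lit 0, nat_lit 0, nat_lit 0, nat_lit 0, nat_lit 0, nat_lit 0, nat_lit 0, nat_lit 0, nat_lit 136, nat_lit 679000, nat_lit 0, nat_lit 0, [(nat_lit 9, [(nat_lit 5, nat_lit 535), (nat_lit 6, nat_lit 465)])],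
 ⟨p039_k11, nat_lit 0, nat_lit 0, nat_lit 318, nat_lit 0, nat_lit 124757, [nat_lit 3503008000, nat_lit 2450406667, nat_lit 94813333], [], [nat_lit 14916317788, nat_lit 15587298561, nat_lit 14305090153, nat_lit 14777950373, nat_lit 14169299258, nat_lit 14649811002, nat_lit 13635949793, nat_lit 14119149007], nat_lit 1271250, nat_lit 1271250, nat_lit 157850, nat_lit 490000, nat_lit 0, nat_lit 230001, [nat_lit 1100000, nat_lit 1442500, nat_lit 1271250], [nat_lit 11, nat_lit 40, nat_lit 20, nat_lit 80, nat_lit 1, nat_lit 317, nat_lit 100, nat_lit 9]⟩, C1.Rw.none,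
 ⟨nat_lit 5477, nat_lit 5701, ⟨.ofNat (nat_lit 212791), .ofNat (nat_lit 312525), .ofNat (nat_lit 234133), .ofNat (nat_lit 333867), .ofNat (nat_lit 220501), .ofNat (nat_lit 317913), .ofNat (nat_lit 241858), .ofNat (nat_lit 339271)⟩, ⟨.negSucc (nat_lit 75673), .ofNat (nat_lit 1045), .negSucc (nat_lit 54331), .ofNat (nat_lit 22387), .negSucc (nat_lit 66879), .ofNat (nat_lit 8053), .negSucc (nat_lit 45522), .ofNat (nat_lit 29410)⟩⟩, [⟨nat_lit 0, nat_lit 100, nat_lit 96, nat_lit 69, nat_lit 164933785⟩]⟩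
noncomputable def p039_l118 : Lf2 := ⟨nat_lit 0, nat_lit 10, [nat_lit 0, nat_lit 5, nat_lit 5, nat_lit 20], true, nat_lit 40, nat_lit 80, nat_lit 0, nat_lit 288, ⟨nat_lit 0, nat_lit 0, nat_lit 1000, nat_lit 6, nat_lit 108, nat_lit 1000, nat_lit 20, nat_lit 1000, nat_lit 3750, nat_lit 230, nat_lit 109350, nat_lit 296, nat_lit 62464669, nat_lit 0, nat_lit 0, nat_lit 1238126, false, false⟩,
 nat_lit 0, nat_lit 7070, nat_lit 0, nat_lit 0, nat_lit 4115, nat_lit 0, nat_lit 0, nat_lit 0, nat_lit 0, nat_lit 0, nat_lit 0, nat_lit 0, nat_lit 0, nat_lit 0, nat_lit 158, nat_lit 808600, nat_lit 0, nat_lit 0, [(nat_lit 9, [(nat_lit 5, nat_lit 319), (nat_lit 6, nat_lit 681)])],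
 ⟨p039_k10, nat_lit 0, nat_lit 0, nat_lit 289, nat_lit 0, nat_lit 131731, [nat_lit 3762387201, nat_lit 2826182667, nat_lit 133085333], [], [nat_lit 12566295220, nat_lit 13883459468, nat_lit 11841842071, nat_lit 12830218192, nat_lit 11730439442, nat_lit 12696569131, nat_lit 11165923741, nat_lit 12111833342], nat_lit 1271250, nat_lit 1271250, nat_lit 134400, nat_lit 490000, nat_lit 230001, nat_lit 490000, [nat_lit 1100000, nat_lit 1442500, nat_lit 1271250], [nat_lit 11, nat_lit 40, nat_lit 20, nat_lit 80, nat_lit 1, nat_lit 345, nat_lit 125, nat_lit 10]⟩, C1.Rw.none,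
 ⟨nat_lit 5477, nat_lit 5917, ⟨.ofNat (nat_lit 197129), .ofNat (nat_lit 307076), .ofNat (nat_lit 218469), .ofNat (nat_lit 328416), .ofNat (nat_lit 213007), .ofNat (nat_lit 317913), .ofNat (nat_lit 234364), .ofNat (nat_lit 339271)⟩, ⟨.negSucc (nat_lit 6188), .ofNat (nat_lit 72344), .ofNat (nat_lit 15150), .ofNat (nat_lit 93684), .ofNat (nat_lit 8053), .ofNat (nat_lit 82986), .ofNat (nat_lit 29410), .ofNat (nat_lit 104343)⟩⟩, [⟨nat_lit 0, nat_lit 100, nat_lit 96, nat_lit 69, nat_lit 207524482⟩]⟩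
noncomputable def p039_l119 : Lf2 := ⟨nat_lit 1, nat_lit 10, [nat_lit 0, nat_lit 5, nat_lit 5, nat_lit 20], false, nat_lit 0, nat_lit 80, nat_lit 0, nat_lit 288, zbN0,
 nat_lit 0, nat_lit 0, nat_lit 0, nat_lit 0, nat_lit 0, nat_lit 0, nat_lit 0, nat_lit 0, nat_lit 0, nat_lit 0, nat_lit 0, nat_lit 0, nat_lit 0, nat_lit 0, nat_lit 0, nat_lit 0, nat_lit 0, nat_lit 0, [],
 C1.Rw.none, C1.Rw.none,
 zbF0, []⟩
noncomputable def p039_l120 : Lf2 := ⟨nat_lit 0, nat_lit 10, [nat_lit 0, nat_lit 5, nat_lit 5, nat_lit 20], false, nat_lit 0, nat_lit 80, nat_lit 0, nat_lit 160, ⟨nat_lit 1000, nat_lit 0, nat_lit 0, nat_lit 0, nat_lit 0, nat_lit 0, nat_lit 0, nat_lit 0, nat_lit 0, nat_lit 0, nat_lit 0, nat_lit 0, nat_lit 0, nat_lit 0, nat_lit 0, nat_lit 0, false, false⟩,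
 nat_lit 0, nat_lit 15196, nat_lit 0, nat_lit 414, nat_lit 8845, nat_lit 7512, nat_lit 2055, nat_lit 0, nat_lit 0, nat_lit 0, nat_lit 0, nat_lit 0, nat_lit 0, nat_lit 2276925396204, nat_lit 0, nat_lit 0, nat_lit 0, nat_lit 0, [],
 ⟨p039_k10, nat_lit 0, nat_lit 0, nat_lit 351, nat_lit 0, nat_lit 240242, [nat_lit 4688000000, nat_lit 6250000000, nat_lit 9842000000], [], [nat_lit 23042492521, nat_lit 24284115695, nat_lit 20702390270, nat_lit 21894827530, nat_lit 17440287622, nat_lit 18617351938, nat_lit 18670003800, nat_lit 16517251390], nat_lit 1271250, nat_lit 1271250, nat_lit 205650, nat_lit 490000, nat_lit 0, nat_lit 490000, [nat_lit 1100000, nat_lit 1442500, nat_lit 1271250], [nat_lit 11, nat_lit 40, nat_lit 20, nat_lit 80, nat_lit 1, nat_lit 345, nat_lit 125, nat_lit 10]⟩, ⟨p039_k10, nat_lit 0, nat_lit 0, nat_lit 206, nat_lit 0, nat_lit 0, [nat_lit 4688000000, nat_lit 6250000000, nat_lit 9842000000], [], [nat_lit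 29564917696, nat_lit 31416633485, nat_lit 27350513664, nat_lit 29140543040, nat_lit 24690966176, nat_lit 25996214592, nat_lit 23305577680, nat_lit 24553141952], nat_lit 0, nat_lit 0, nat_lit 0, nat_lit 0, nat_lit 0, nat_lit 0, [], [nat_lit 11, nat_lit 40, nat_lit 20, nat_lit 80, nat_lit 1, nat_lit 373, nat_lit 150, nat_lit 11]⟩,
 zbF0, [⟨nat_lit 0, nat_lit 100, nat_lit 100, nat_lit 70, nat_lit 1137099350⟩]⟩
noncomputable def p039_l121 : Lf2 := ⟨nat_lit 0, nat_lit 10, [nat_lit 0, nat_lit 5, nat_lit 5, nat_lit 20], false, nat_lit 0, nat_lit 80, nat_lit 160, nat_lit 268, ⟨nat_lit 1000, nat_lit 0, nat_lit 0, nat_lit 0, nat_lit 0, nat_lit 0, nat_lit 0, nat_lit 0, nat_lit 0, nat_lit 0, nat_lit 0, nat_lit 0, nat_lit 0, nat_lit 0, nat_lit 0, nat_lit 0, false, false⟩,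
 nat_lit 0, nat_lit 13522, nat_lit 0, nat_lit 3877, nat_lit 7871, nat_lit 7020, nat_lit 2283, nat_lit 0, nat_lit 0, nat_lit 0, nat_lit 0, nat_lit 0, nat_lit 0, nat_lit 0, nat_lit 0, nat_lit 0, nat_lit 0, nat_lit 0, [],
 ⟨p039_k10, nat_lit 0, nat_lit 0, nat_lit 351, nat_lit 0, nat_lit 240242, [nat_lit 4688000000, nat_lit 6250000000, nat_lit 9842000000], [], [nat_lit 21466480157, nat_lit 22636558464, nat_lit 19467248686, nat_lit 20591011154, nat_lit 18654954424, nat_lit 17770947390, nat_lit 20289867740, nat_lit 16477485922], nat_lit 1271250, nat_lit 1271250, nat_lit 205650, nat_lit 490000, nat_lit 0, nat_lit 490000, [nat_lit 1100000, nat_lit 1442500, nat_lit 1271250], [nat_lit 11, nat_lit 40, nat_lit 20, nat_lit 80, nat_lit 1, nat_lit 345, nat_lit 125, nat_lit 10]⟩, ⟨p039_k10, nat_lit 0, nat_lit 0, nat_lit 61, nat_lit 0, nat_lit 0, [nat_lit 4688000000, nat_lit 6250000000, nat_lit 9842000000], [], [nat_lit 11437412096,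 nat_lit 13503747425, nat_lit 10197550360, nat_lit 12177062720, nat_lit 18474834025, nat_lit 20322639862, nat_lit 16987871219, nat_lit 18491396996], nat_lit 0, nat_lit 0, nat_lit 0, nat_lit 0, nat_lit 0, nat_lit 0, [], [nat_lit 11, nat_lit 40, nat_lit 20, nat_lit 80, nat_lit 1, nat_lit 401, nat_lit 175, nat_lit 11]⟩,
 zbF0, [⟨nat_lit 0, nat_lit 100, nat_lit 100, nat_lit 70, nat_lit 736333375⟩, ⟨nat_lit 7, nat_lit 100, nat_lit 96, nat_lit 54, nat_lit 1037105825⟩]⟩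
noncomputable def p039_l122 : Lf2 := ⟨nat_lit 0, nat_lit 10, [nat_lit 0, nat_lit 5, nat_lit 5, nat_lit 20], true, nat_lit 80, nat_lit 160, nat_lit 0, nat_lit 288, ⟨nat_lit 0, nat_lit 0, nat_lit 1000, nat_lit 6, nat_lit 108, nat_lit 1000, nat_lit 66, nat_lit 1000, nat_lit 41667, nat_lit 265, nat_lit 109350, nat_lit 296, nat_lit 59803438, nat_lit 0, nat_lit 0, nat_lit 2150783, false, false⟩,
 nat_lit 0, nat_lit 8533, nat_lit 0, nat_lit 0, nat_lit 4966, nat_lit 0, nat_lit 0, nat_lit 0, nat_lit 0, nat_lit 0, nat_lit 0, nat_lit 0, nat_lit 0, nat_lit 0, nat_lit 163, nat_lit 834400, nat_lit 0, nat_lit 0, [(nat_lit 9, [(nat_lit 5, nat_lit 276), (nat_lit 6, nat_lit 724)])],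
 ⟨p039_k10, nat_lit 0, nat_lit 0, nat_lit 218, nat_lit 0, nat_lit 136769, [nat_lit 3823948801, nat_lit 2913397334, nat_lit 158074666], [], [nat_lit 11059386024, nat_lit 12473032788, nat_lit 9688257462, nat_lit 11043217586, nat_lit 11737923010, nat_lit 13092392752, nat_lit 10458748858, nat_lit 11683597602], nat_lit 1271250, nat_lit 1271250, nat_lit 134400, nat_lit 490000, nat_lit 490000, nat_lit 1100001, [nat_lit 1100000, nat_lit 1442500, nat_lit 1271250], [nat_lit 11, nat_lit 40, nat_lit 20, nat_lit 80, nat_lit 1, nat_lit 373, nat_lit 150, nat_lit 11]⟩, C1.Rw.none,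
 ⟨nat_lit 5477, nat_lit 5917, ⟨.ofNat (nat_lit 197129), .ofNat (nat_lit 307076), .ofNat (nat_lit 218469), .ofNat (nat_lit 328416), .ofNat (nat_lit 213007), .ofNat (nat_lit 317913), .ofNat (nat_lit 234364), .ofNat (nat_lit 339271)⟩, ⟨.ofNat (nat_lit 72344), .ofNat (nat_lit 229411), .ofNat (nat_lit 93684), .ofNat (nat_lit 250751), .ofNat (nat_lit 82986), .ofNat (nat_lit 232852), .ofNat (nat_lit 104343), .ofNat (nat_lit 254209)⟩⟩, [⟨nat_lit 0, nat_lit 100, nat_lit 96, nat_lit 69, nat_lit 239467319⟩]⟩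
noncomputable def p039_l123 : Lf2 := ⟨nat_lit 0, nat_lit 10, [nat_lit 0, nat_lit 5, nat_lit 5, nat_lit 20], false, nat_lit 80, nat_lit 160, nat_lit 0, nat_lit 268, ⟨nat_lit 652, nat_lit 0, nat_lit 348, nat_lit 6, nat_lit 121, nat_lit 348, nat_lit 66, nat_lit 348, nat_lit 41667, nat_lit 265, nat_lit 138017, nat_lit 306, nat_lit 58721609, nat_lit 0, nat_lit 0, nat_lit 2356185, false, false⟩,
 nat_lit 0, nat_lit 12810, nat_lit 0, nat_lit 0, nat_lit 7456, nat_lit 10627, nat_lit 1315, nat_lit 0, nat_lit 0, nat_lit 0, nat_lit 0, nat_lit 0, nat_lit 0, nat_lit 4344508638966, nat_lit 0, nat_lit 348000, nat_lit 0, nat_lit 0, [(nat_lit 9, [(nat_lit 6, nat_lit 348)])],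
 ⟨p039_k10, nat_lit 0, nat_lit 0, nat_lit 282, nat_lit 0, nat_lit 240242, [nat_lit 3438540801, nat_lit 3925824001, nat_lit 4552678400], [], [nat_lit 14134107236, nat_lit 15353254012, nat_lit 12525500922, nat_lit 13561190122, nat_lit 13699607826, nat_lit 15261394293, nat_lit 12094685231, nat_lit 13535942389], nat_lit 1271250, nat_lit 1271250, nat_lit 205650, nat_lit 490000, nat_lit 490000, nat_lit 1100001, [nat_lit 1100000, nat_lit 1442500, nat_lit 1271250], [nat_lit 11, nat_lit 40, nat_lit 20, nat_lit 80, nat_lit 1, nat_lit 373, nat_lit 150, nat_lit 11]⟩, ⟨p039_k10, nat_lit 0, nat_lit 0, nat_lit 206, nat_lit 0, nat_lit 0, [nat_lit 3056576000, nat_lit 4075000000, nat_lit 6416984000], [], [nat_lit 22773461202, nat_lit 24847503392, nat_lit 19011152454, nat_lit 21010116504, nat_lit 17512982832, nat_lit 18741977793, nat_lit 14311199421, nat_lit 15485102353], nat_lit 0, nat_lit 0, nat_lit 0, nat_lit 0, nat_lit 0, nat_lit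 0, [], [nat_lit 11, nat_lit 40, nat_lit 20, nat_lit 80, nat_lit 1, nat_lit 401, nat_lit 175, nat_lit 12]⟩,
 ⟨nat_lit 5477, nat_lit 5917, ⟨.ofNat (nat_lit 242029), .ofNat (nat_lit 328416), .ofNat (nat_lit 263368), .ofNat (nat_lit 349755), .ofNat (nat_lit 256844), .ofNat (nat_lit 339271), .ofNat (nat_lit 278201), .ofNat (nat_lit 360628)⟩, ⟨.ofNat (nat_lit 72344), .ofNat (nat_lit 229411), .ofNat (nat_lit 93684), .ofNat (nat_lit 250751), .ofNat (nat_lit 82986), .ofNat (nat_lit 232852), .ofNat (nat_lit 104343), .ofNat (nat_lit 254209)⟩⟩, [⟨nat_lit 0, nat_lit 100, nat_lit 100, nat_lit 70, nat_lit 700548004⟩, ⟨nat_lit 0, nat_lit 100, nat_lit 100, nat_lit 80, nat_lit 333998488⟩]⟩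
noncomputable def p039_l124 : Lf2 := ⟨nat_lit 0, nat_lit 10, [nat_lit 0, nat_lit 5, nat_lit 5, nat_lit 20], false, nat_lit 0, nat_lit 160, nat_lit 0, nat_lit 160, ⟨nat_lit 1000, nat_lit 0, nat_lit 0, nat_lit 0, nat_lit 0, nat_lit 0, nat_lit 0, nat_lit 0, nat_lit 0, nat_lit 0, nat_lit 0, nat_lit 0, nat_lit 0, nat_lit 0, nat_lit 0, nat_lit 0, false, false⟩,
 nat_lit 0, nat_lit 12531, nat_lit 0, nat_lit 1015, nat_lit 7294, nat_lit 8477, nat_lit 0, nat_lit 0, nat_lit 0, nat_lit 1919, nat_lit 0, nat_lit 0, nat_lit 0, nat_lit 0, nat_lit 0, nat_lit 0, nat_lit 0, nat_lit 0, [],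
 ⟨p039_k1, nat_lit 0, nat_lit 0, nat_lit 330, nat_lit 0, nat_lit 240894, [nat_lit 4688000000, nat_lit 7968000001, nat_lit 9842000000], [], [nat_lit 39914285989, nat_lit 36057671017, nat_lit 33939282021, nat_lit 34832867705, nat_lit 31709400677, nat_lit 31370925025, nat_lit 38381543945, nat_lit 35035260977], nat_lit 1271250, nat_lit 1271250, nat_lit 490000, nat_lit 1100001, nat_lit 0, nat_lit 1100001, [nat_lit 1100000, nat_lit 1785000, nat_lit 1271250], [nat_lit 29, nat_lit 40, nat_lit 20, nat_lit 80, nat_lit 17, nat_lit 373, nat_lit 150, nat_lit 11]⟩, ⟨p039_k0, nat_lit 0, nat_lit 0, nat_lit 225, nat_lit 0, nat_lit 0, [nat_lit 4688000000, nat_lit 7968000000, nat_lit 11872000000], [], [nat_lit 19897133848, nat_lit 21542161112, nat_lit 19738550588, nat_lit 21684605280, nat_lit 15342524788, nat_lit 16851722378, nat_lit 15705863920, nat_lit 17024880264], nat_lit 0, nat_lit 0, nat_lit 0, nat_lit 0, nat_lit 0, nat_lit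 0, [], [nat_lit 21, nat_lit 40, nat_lit 20, nat_lit 80, nat_lit 14, nat_lit 373, nat_lit 150, nat_lit 10]⟩,
 zbF0, []⟩
noncomputable def p039_l125 : Lf2 := ⟨nat_lit 1, nat_lit 10, [nat_lit 0, nat_lit 5, nat_lit 5, nat_lit 20], false, nat_lit 0, nat_lit 160, nat_lit 0, nat_lit 160, zbN0,
 nat_lit 0, nat_lit 0, nat_lit 0, nat_lit 0, nat_lit 0, nat_lit 0, nat_lit 0, nat_lit 0, nat_lit 0, nat_lit 0, nat_lit 0, nat_lit 0, nat_lit 0, nat_lit 0, nat_lit 0, nat_lit 0, nat_lit 0, nat_lit 0, [],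
 C1.Rw.none, C1.Rw.none,
 zbF0, []⟩
noncomputable def p039_l126 : Lf2 := ⟨nat_lit 0, nat_lit 10, [nat_lit 0, nat_lit 5, nat_lit 5, nat_lit 20], false, nat_lit 0, nat_lit 160, nat_lit 0, nat_lit 160, ⟨nat_lit 1000, nat_lit 0, nat_lit 0, nat_lit 0, nat_lit 0, nat_lit 0, nat_lit 0, nat_lit 0, nat_lit 0, nat_lit 0, nat_lit 0, nat_lit 0, nat_lit 0, nat_lit 0, nat_lit 0, nat_lit 0, false, false⟩,
 nat_lit 0, nat_lit 10367, nat_lit 0, nat_lit 0, nat_lit 6034, nat_lit 7694, nat_lit 868, nat_lit 0, nat_lit 0, nat_lit 815, nat_lit 0, nat_lit 0, nat_lit 0, nat_lit 2659403412064, nat_lit 0, nat_lit 0, nat_lit 0, nat_lit 0, [],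
 ⟨p039_k1, nat_lit 0, nat_lit 0, nat_lit 375, nat_lit 0, nat_lit 342134, [nat_lit 4688000000, nat_lit 7968000001, nat_lit 9842000000], [], [nat_lit 37228257469, nat_lit 34037852377, nat_lit 31358411420, nat_lit 32099345296, nat_lit 32194600637, nat_lit 29352211832, nat_lit 38135664185, nat_lit 35367433937], nat_lit 1271250, nat_lit 1271250, nat_lit 490000, nat_lit 1100001, nat_lit 0, nat_lit 1100001, [nat_lit 1100000, nat_lit 1785000, nat_lit 1271250], [nat_lit 29, nat_lit 40, nat_lit 20, nat_lit 80, nat_lit 17, nat_lit 373, nat_lit 150, nat_lit 11]⟩, ⟨p039_k1, nat_lit 0, nat_lit 0, nat_lit 175, nat_lit 0, nat_lit 0, [nat_lit 4688000000, nat_lit 7968000000, nat_lit 9842000000], [], [nat_lit 23384267568, nat_lit 24292495274, nat_lit 23254324192, nat_lit 24059134746, nat_lit 18974224660, nat_lit 19606092692, nat_lit 18964829360, nat_lit 19519204702], nat_lit 0, nat_lit 0, nat_lit 0, nat_lit 0, nat_lit 0, nat_lit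 0, [], [nat_lit 29, nat_lit 40, nat_lit 20, nat_lit 80, nat_lit 17, nat_lit 373, nat_lit 150, nat_lit 11]⟩,
 zbF0, []⟩
noncomputable def p039_l127 : Lf2 := ⟨nat_lit 0, nat_lit 10, [nat_lit 0, nat_lit 5, nat_lit 5, nat_lit 20], false, nat_lit 0, nat_lit 160, nat_lit 0, nat_lit 160, ⟨nat_lit 1000, nat_lit 0, nat_lit 0, nat_lit 0, nat_lit 0, nat_lit 0, nat_lit 0, nat_lit 0, nat_lit 0, nat_lit 0, nat_lit 0, nat_lit 0, nat_lit 0, nat_lit 0, nat_lit 0, nat_lit 0, false, false⟩,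
 nat_lit 0, nat_lit 10459, nat_lit 0, nat_lit 0, nat_lit 6369, nat_lit 8225, nat_lit 1243, nat_lit 0, nat_lit 0, nat_lit 1803, nat_lit 0, nat_lit 0, nat_lit 0, nat_lit 18524246769498, nat_lit 0, nat_lit 0, nat_lit 0, nat_lit 0, [],
 ⟨p039_k16, nat_lit 0, nat_lit 0, nat_lit 434, nat_lit 0, nat_lit 418837, [nat_lit 4688000000, nat_lit 7968000001, nat_lit 9842000000], [], [nat_lit 34218087978, nat_lit 32534321817, nat_lit 30100537042, nat_lit 30426377047, nat_lit 28524497720, nat_lit 27848182767, nat_lit 34699531711, nat_lit 33238572277], nat_lit 1271250, nat_lit 1271250, nat_lit 490000, nat_lit 1100001, nat_lit 0, nat_lit 1100001, [nat_lit 1100000, nat_lit 1785000, nat_lit 1271250], [nat_lit 29, nat_lit 40, nat_lit 20, nat_lit 80, nat_lit 17, nat_lit 373, nat_lit 150, nat_lit 11]⟩, ⟨p039_k16, nat_lit 0, nat_lit 0, nat_lit 182, nat_lit 0, nat_lit 0, [nat_lit 4688000000, nat_lit 7968000000, nat_lit 9842000000], [],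 [nat_lit 18296461850, nat_lit 19244675400, nat_lit 18237550550, nat_lit 19191955600, nat_lit 13610881525, nat_lit 14352039900, nat_lit 13738940800, nat_lit 14387351900], nat_lit 0, nat_lit 0, nat_lit 0, nat_lit 0, nat_lit 0, nat_lit 0, [], [nat_lit 29, nat_lit 40, nat_lit 20, nat_lit 80, nat_lit 17, nat_lit 373, nat_lit 150, nat_lit 11]⟩,
 zbF0, []⟩
noncomputable def p039_l128 : Lf2 := ⟨nat_lit 0, nat_lit 10, [nat_lit 0, nat_lit 5, nat_lit 5, nat_lit 20], false, nat_lit 0, nat_lit 160, nat_lit 160, nat_lit 288, ⟨nat_lit 1000, nat_lit 0, nat_lit 0, nat_lit 0, nat_lit 0, nat_lit 0, nat_lit 0, nat_lit 0, nat_lit 0, nat_lit 0, nat_lit 0, nat_lit 0, nat_lit 0, nat_lit 0, nat_lit 0, nat_lit 0, false, false⟩,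
 nat_lit 0, nat_lit 12301, nat_lit 0, nat_lit 0, nat_lit 7160, nat_lit 8311, nat_lit 915, nat_lit 0, nat_lit 0, nat_lit 0, nat_lit 0, nat_lit 0, nat_lit 0, nat_lit 1197726499653, nat_lit 0, nat_lit 0, nat_lit 0, nat_lit 0, [],
 ⟨p039_k1, nat_lit 0, nat_lit 0, nat_lit 446, nat_lit 0, nat_lit 446743, [nat_lit 4688000000, nat_lit 7968000001, nat_lit 9842000000], [], [nat_lit 38271192321, nat_lit 34485428241, nat_lit 32337354361, nat_lit 32921946662, nat_lit 30403564641, nat_lit 29799844102, nat_lit 36997958161, nat_lit 33713150641], nat_lit 1271250, nat_lit 1271250, nat_lit 490000, nat_lit 1100001, nat_lit 0, nat_lit 1100001, [nat_lit 1100000, nat_lit 1785000, nat_lit 1271250], [nat_lit 29, nat_lit 40, nat_lit 20, nat_lit 80, nat_lit 17, nat_lit 373, nat_lit 150, nat_lit 11]⟩, ⟨p039_k0, nat_lit 0, nat_lit 0, nat_lit 52, nat_lit 0, nat_lit 0, [nat_lit 4688000000, nat_lit 7968000000, nat_lit 11872000000], [], [nat_lit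 6160571300, nat_lit 10581304096, nat_lit 7363851928, nat_lit 11241145656, nat_lit 17004141585, nat_lit 20696656627, nat_lit 16789874822, nat_lit 20058204101], nat_lit 0, nat_lit 0, nat_lit 0, nat_lit 0, nat_lit 0, nat_lit 0, [], [nat_lit 21, nat_lit 40, nat_lit 20, nat_lit 80, nat_lit 14, nat_lit 428, nat_lit 200, nat_lit 11]⟩,
 zbF0, [⟨nat_lit 19, nat_lit 98, nat_lit 100, nat_lit 54, nat_lit 1156208637⟩]⟩
noncomputable def p039_l129 : Lf2 := ⟨nat_lit 0, nat_lit 10, [nat_lit 0, nat_lit 5, nat_lit 5, nat_lit 20], false, nat_lit 0, nat_lit 160, nat_lit 0, nat_lit 288, ⟨nat_lit 1000, nat_lit 0, nat_lit 0, nat_lit 0, nat_lit 0, nat_lit 0, nat_lit 0, nat_lit 0, nat_lit 0, nat_lit 0, nat_lit 0, nat_lit 0, nat_lit 0, nat_lit 0, nat_lit 0, nat_lit 0, false, false⟩,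
 nat_lit 0, nat_lit 13521, nat_lit 0, nat_lit 5387, nat_lit 7158, nat_lit 17489, nat_lit 0, nat_lit 0, nat_lit 0, nat_lit 1450, nat_lit 0, nat_lit 0, nat_lit 0, nat_lit 24918148405721, nat_lit 0, nat_lit 0, nat_lit 0, nat_lit 0, [],
 ⟨p039_k4, nat_lit 0, nat_lit 0, nat_lit 205, nat_lit 0, nat_lit 51563, [nat_lit 4688000000, nat_lit 6250000000, nat_lit 11872000000], [], [nat_lit 40283658720, nat_lit 36498952116, nat_lit 36488569104, nat_lit 37194226156, nat_lit 31109960904, nat_lit 31812346588, nat_lit 32465802288, nat_lit 33042877548], nat_lit 1271250, nat_lit 1271250, nat_lit 1100001, nat_lit 1785000, nat_lit 0, nat_lit 1100001, [nat_lit 1100000, nat_lit 1442500, nat_lit 1271250], [nat_lit 48, nat_lit 40, nat_lit 20, nat_lit 80, nat_lit 12, nat_lit 401, nat_lit 175, nat_lit 10]⟩, ⟨p039_k4, nat_lit 0, nat_lit 0, nat_lit 188, nat_lit 0, nat_lit 0, [nat_lit 4688000000, nat_lit 6250000000, nat_lit 11872000000], [],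 [nat_lit 26592597370, nat_lit 28935993742, nat_lit 30190273754, nat_lit 32031692448, nat_lit 17502079283, nat_lit 18700792984, nat_lit 20686029339, nat_lit 22833596822], nat_lit 0, nat_lit 0, nat_lit 0, nat_lit 0, nat_lit 0, nat_lit 0, [], [nat_lit 48, nat_lit 40, nat_lit 20, nat_lit 80, nat_lit 12, nat_lit 428, nat_lit 200, nat_lit 11]⟩,
 zbF0, []⟩
noncomputable def p039_l130 : Lf2 := ⟨nat_lit 0, nat_lit 10, [nat_lit 0, nat_lit 5, nat_lit 5, nat_lit 20], false, nat_lit 0, nat_lit 160, nat_lit 0, nat_lit 288, ⟨nat_lit 1000, nat_lit 0, nat_lit 0, nat_lit 0, nat_lit 0, nat_lit 0, nat_lit 0, nat_lit 0, nat_lit 0, nat_lit 0, nat_lit 0, nat_lit 0, nat_lit 0, nat_lit 0, nat_lit 0, nat_lit 0, false, false⟩,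
 nat_lit 0, nat_lit 10175, nat_lit 0, nat_lit 0, nat_lit 5922, nat_lit 16348, nat_lit 1318, nat_lit 0, nat_lit 0, nat_lit 1320, nat_lit 0, nat_lit 0, nat_lit 0, nat_lit 12037741813030, nat_lit 0, nat_lit 0, nat_lit 0, nat_lit 0, [],
 ⟨p039_k10, nat_lit 0, nat_lit 0, nat_lit 369, nat_lit 0, nat_lit 446743, [nat_lit 4688000000, nat_lit 6250000000, nat_lit 9842000000], [], [nat_lit 35269006044, nat_lit 32137819608, nat_lit 31090951816, nat_lit 31706834772, nat_lit 26837349964, nat_lit 27449536836, nat_lit 28003444612, nat_lit 28514663852], nat_lit 1271250, nat_lit 1271250, nat_lit 1100001, nat_lit 1785000, nat_lit 0, nat_lit 1100001, [nat_lit 1100000, nat_lit 1442500, nat_lit 1271250], [nat_lit 11, nat_lit 40, nat_lit 20, nat_lit 80, nat_lit 1, nat_lit 401, nat_lit 175, nat_lit 11]⟩, ⟨p039_k4, nat_lit 0, nat_lit 0, nat_lit 193, nat_lit 0, nat_lit 0, [nat_lit 4688000000, nat_lit 6250000000, nat_lit 11872000000], [],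 [nat_lit 27018464840, nat_lit 31481283848, nat_lit 30523656328, nat_lit 34042541144, nat_lit 18937577490, nat_lit 21246876401, nat_lit 20627375549, nat_lit 24721545729], nat_lit 0, nat_lit 0, nat_lit 0, nat_lit 0, nat_lit 0, nat_lit 0, [], [nat_lit 48, nat_lit 40, nat_lit 20, nat_lit 80, nat_lit 12, nat_lit 456, nat_lit 225, nat_lit 12]⟩,
 zbF0, []⟩
noncomputable def b_VL_600_600_5_91 : St := ⟨true, nat_lit 1, nat_lit 0, nat_lit 1, nat_lit 40, nat_lit 240, nat_lit 280, nat_lit 240, nat_lit 280, nat_lit 16, nat_lit 240, nat_lit 20, nat_lit 40, nat_lit 0, nat_lit 160, nat_lit 0, nat_lit 288, nat_lit 40, nat_lit 68, nat_lit 0, nat_lit 0, nat_lit 0, nat_lit 0⟩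
theorem d_VL_600_600_5_91 (h : EB TB.env) : Dead b_VL_600_600_5_91 := chkB_sound0 h (T :=
(.spl (nat_lit 2) (nat_lit 160)
(.spl (nat_lit 0) (nat_lit 260)
(.ord (.spl (nat_lit 6) (nat_lit 44)
(.spl (nat_lit 4) (nat_lit 80)
(.spl (nat_lit 1) (nat_lit 250)
(.leaf p039_l110)
(.ord (.trZ (nat_lit 0) (nat_lit 100) (nat_lit 100) (nat_lit 50) (nat_lit 24) (.trX (nat_lit 19) (nat_lit 100) (nat_lit 95) (nat_lit 62) (nat_lit 280) (.spl (nat_lit 2) (nat_lit 80)
(.leaf p039_l111)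
(.leaf p039_l112))))))
(.spl (nat_lit 0) (nat_lit 250)
(.ord (.leaf p039_l113))
(.trZ (nat_lit 0) (nat_lit 100) (nat_lit 99) (nat_lit 45) (nat_lit 20) (.leaf p039_l114))))
(.leaf p039_l115)))
(.trZ (nat_lit 0) (nat_lit 100) (nat_lit 97) (nat_lit 49) (nat_lit 24) (.spl (nat_lit 2) (nat_lit 80)
(.spl (nat_lit 4) (nat_lit 80)
(.spl (nat_lit 1) (nat_lit 260)
(.spl (nat_lit 6) (nat_lit 56)
(.spl (nat_lit 4) (nat_lit 40)
(.spl (nat_lit 0) (nat_lit 270)
(.leaf p039_l116)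
(.trZ (nat_lit 0) (nat_lit 100) (nat_lit 96) (nat_lit 54) (nat_lit 28) (.leaf p039_l117)))
(.leaf p039_l118))
(.leaf p039_l119))
(.trZ (nat_lit 0) (nat_lit 100) (nat_lit 100) (nat_lit 60) (nat_lit 36) (.trX (nat_lit 19) (nat_lit 100) (nat_lit 99) (nat_lit 63) (nat_lit 268) (.spl (nat_lit 5) (nat_lit 160)
(.leaf p039_l120)
(.leaf p039_l121)))))
(.spl (nat_lit 1) (nat_lit 260)
(.leaf p039_l122)
(.trZ (nat_lit 0) (nat_lit 100) (nat_lit 100) (nat_lit 60) (nat_lit 36) (.trX (nat_lit 19) (nat_lit 100) (nat_lit 99) (nat_lit 63) (nat_lit 268) (.leaf p039_l123)))))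
(.spl (nat_lit 5) (nat_lit 160)
(.spl (nat_lit 1) (nat_lit 260)
(.spl (nat_lit 6) (nat_lit 56)
(.leaf p039_l124)
(.leaf p039_l125))
(.spl (nat_lit 1) (nat_lit 270)
(.leaf p039_l126)
(.ord (.leaf p039_l127))))
(.leaf p039_l128)))))
(.spl (nat_lit 0) (nat_lit 260)
(.ord (.leaf p039_l129))
(.leaf p039_l130)))) (by decide +kernel)
noncomputable def p039_l131 : Lf2 := ⟨nat_lit 1, nat_lit 10, [nat_lit 0, nat_lit 5, nat_lit 5, nat_lit 20], false, nat_lit 160, nat_lit 288, nat_lit 0, nat_lit 288, zbN0,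
 nat_lit 0, nat_lit 0, nat_lit 0, nat_lit 0, nat_lit 0, nat_lit 0, nat_lit 0, nat_lit 0, nat_lit 0, nat_lit 0, nat_lit 0, nat_lit 0, nat_lit 0, nat_lit 0, nat_lit 0, nat_lit 0, nat_lit 0, nat_lit 0, [],
 C1.Rw.none, C1.Rw.none,
 zbF0, []⟩
noncomputable def p039_l132 : Lf2 := ⟨nat_lit 0, nat_lit 10, [nat_lit 0, nat_lit 5, nat_lit 5, nat_lit 20], true, nat_lit 160, nat_lit 240, nat_lit 0, nat_lit 160, ⟨nat_lit 0, nat_lit 0, nat_lit 1000, nat_lit 6, nat_lit 138, nat_lit 1000, nat_lit 127, nat_lit 1000, nat_lit 153600, nat_lit 311, nat_lit 58974, nat_lit 274, nat_lit 52936791, nat_lit 0, nat_lit 0, nat_lit 3516075, false, false⟩,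
 nat_lit 0, nat_lit 7718, nat_lit 0, nat_lit 0, nat_lit 4287, nat_lit 0, nat_lit 0, nat_lit 0, nat_lit 0, nat_lit 0, nat_lit 0, nat_lit 0, nat_lit 0, nat_lit 3988019325081, nat_lit 69, nat_lit 400000, nat_lit 0, nat_lit 0, [(nat_lit 6, [(nat_lit 5, nat_lit 1000)])],
 ⟨p039_k3, nat_lit 0, nat_lit 0, nat_lit 176, nat_lit 0, nat_lit 46020, [nat_lit 2521600001, nat_lit 1460000001, nat_lit 7200000], [], [nat_lit 10745013105, nat_lit 11526481538, nat_lit 11586645121, nat_lit 12251303465, nat_lit 14679102264, nat_lit 15338089481, nat_lit 14988288802, nat_lit 15551458515], nat_lit 1271250, nat_lit 1271250, nat_lit 134400, nat_lit 1100001, nat_lit 1100001, nat_lit 1785000, [nat_lit 1100000, nat_lit 1442500, nat_lit 1271250], [nat_lit 11, nat_lit 40, nat_lit 20, nat_lit 80, nat_lit 1, nat_lit 401, nat_lit 175, nat_lit 11]⟩, C1.Rw.none,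
 ⟨nat_lit 5916, nat_lit 6124, ⟨.ofNat (nat_lit 199694), .ofNat (nat_lit 472988), .ofNat (nat_lit 210368), .ofNat (nat_lit 483662), .ofNat (nat_lit 207799), .ofNat (nat_lit 474813), .ofNat (nat_lit 218469), .ofNat (nat_lit 485483)⟩, ⟨.ofNat (nat_lit 227485), .ofNat (nat_lit 388246), .ofNat (nat_lit 248833), .ofNat (nat_lit 409594), .ofNat (nat_lit 229411), .ofNat (nat_lit 386479), .ofNat (nat_lit 250751), .ofNat (nat_lit 407818)⟩⟩, [⟨nat_lit 0, nat_lit 100, nat_lit 100, nat_lit 60, nat_lit 76213021⟩, ⟨nat_lit 4, nat_lit 100, nat_lit 100, nat_lit 55, nat_lit 341946769⟩]⟩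
noncomputable def p039_l133 : Lf2 := ⟨nat_lit 0, nat_lit 10, [nat_lit 0, nat_lit 5, nat_lit 5, nat_lit 20], true, nat_lit 240, nat_lit 280, nat_lit 0, nat_lit 160, ⟨nat_lit 0, nat_lit 0, nat_lit 1000, nat_lit 6, nat_lit 138, nat_lit 1000, nat_lit 175, nat_lit 1000, nat_lit 51683, nat_lit 270, nat_lit 58974, nat_lit 274, nat_lit 48997750, nat_lit 0, nat_lit 0, nat_lit 4086691, false, false⟩,
 nat_lit 0, nat_lit 14060, nat_lit 0, nat_lit 324860, nat_lit 7811, nat_lit 0, nat_lit 0, nat_lit 0, nat_lit 0, nat_lit 0, nat_lit 0, nat_lit 0, nat_lit 0, nat_lit 400000000000000, nat_lit 50, nat_lit 247060, nat_lit 0, nat_lit 0, [(nat_lit 6, [(nat_lit 3, nat_lit 49), (nat_lit 4, nat_lit 951)])],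
 ⟨p039_k15, nat_lit 0, nat_lit 0, nat_lit 151, nat_lit 0, nat_lit 46020, [nat_lit 5249212800, nat_lit 463445200, nat_lit 31901600], [], [nat_lit 16199950506, nat_lit 16865602917, nat_lit 13182645260, nat_lit 13947679242, nat_lit 20306928214, nat_lit 21257120368, nat_lit 16853507078, nat_lit 17663792724], nat_lit 1271250, nat_lit 1271250, nat_lit 134400, nat_lit 1100001, nat_lit 1271250, nat_lit 1271250, [nat_lit 1100000, nat_lit 1785000, nat_lit 1271250], [nat_lit 29, nat_lit 40, nat_lit 20, nat_lit 80, nat_lit 17, nat_lit 401, nat_lit 175, nat_lit 11]⟩, C1.Rw.none,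
 ⟨nat_lit 5916, nat_lit 6124, ⟨.ofNat (nat_lit 199694), .ofNat (nat_lit 472988), .ofNat (nat_lit 210368), .ofNat (nat_lit 483662), .ofNat (nat_lit 207799), .ofNat (nat_lit 474813), .ofNat (nat_lit 218469), .ofNat (nat_lit 485483)⟩, ⟨.ofNat (nat_lit 388246), .ofNat (nat_lit 468627), .ofNat (nat_lit 409594), .ofNat (nat_lit 489975), .ofNat (nat_lit 386479), .ofNat (nat_lit 465012), .ofNat (nat_lit 407818), .ofNat (nat_lit 486351)⟩⟩, [⟨nat_lit 0, nat_lit 100, nat_lit 100, nat_lit 60, nat_lit 210504355⟩, ⟨nat_lit 16, nat_lit 100, nat_lit 100, nat_lit 55, nat_lit 10000000000⟩, ⟨nat_lit 4, nat_lit 100, nat_lit 100, nat_lit 55, nat_lit 10000000000⟩]⟩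
noncomputable def p039_l134 : Lf2 := ⟨nat_lit 1, nat_lit 10, [nat_lit 0, nat_lit 5, nat_lit 5, nat_lit 20], false, nat_lit 160, nat_lit 280, nat_lit 160, nat_lit 280, zbN0,
 nat_lit 0, nat_lit 0, nat_lit 0, nat_lit 0, nat_lit 0, nat_lit 0, nat_lit 0, nat_lit 0, nat_lit 0, nat_lit 0, nat_lit 0, nat_lit 0, nat_lit 0, nat_lit 0, nat_lit 0, nat_lit 0, nat_lit 0, nat_lit 0, [],
 C1.Rw.none, C1.Rw.none,
 zbF0, []⟩
noncomputable def p039_l135 : Lf2 := ⟨nat_lit 0, nat_lit 10, [nat_lit 0, nat_lit 5, nat_lit 5, nat_lit 20], false, nat_lit 160, nat_lit 272, nat_lit 160, nat_lit 272, ⟨nat_lit 1000, nat_lit 0, nat_lit 0, nat_lit 0, nat_lit 0, nat_lit 0, nat_lit 0, nat_lit 0, nat_lit 0, nat_lit 0, nat_lit 0, nat_lit 0, nat_lit 0, nat_lit 0, nat_lit 0, nat_lit 0, false, false⟩,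
 nat_lit 0, nat_lit 12486, nat_lit 0, nat_lit 13267, nat_lit 7101, nat_lit 6901, nat_lit 0, nat_lit 0, nat_lit 0, nat_lit 0, nat_lit 0, nat_lit 0, nat_lit 0, nat_lit 0, nat_lit 0, nat_lit 0, nat_lit 0, nat_lit 0, [],
 ⟨p039_k17, nat_lit 0, nat_lit 0, nat_lit 171, nat_lit 0, nat_lit 44493, [nat_lit 4688000000, nat_lit 7968000001, nat_lit 9842000000], [], [nat_lit 32145991383, nat_lit 31217272896, nat_lit 31415764135, nat_lit 30555907595, nat_lit 29858439927, nat_lit 30098066990, nat_lit 27611003387, nat_lit 27811568477], nat_lit 1271250, nat_lit 1271250, nat_lit 157850, nat_lit 1100001, nat_lit 1271250, nat_lit 1271250, [nat_lit 1100000, nat_lit 1785000, nat_lit 1271250], [nat_lit 29, nat_lit 40, nat_lit 20, nat_lit 80, nat_lit 17, nat_lit 401, nat_lit 175, nat_lit 11]⟩, ⟨p039_k17, nat_lit 0, nat_lit 0, nat_lit 80, nat_lit 0, nat_lit 0, [nat_lit 4688000000, nat_lit 7968000000, nat_lit 9842000000], [], [nat_lit 11492305853,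 nat_lit 12005958667, nat_lit 11050408516, nat_lit 11481693272, nat_lit 18962996225, nat_lit 19414713366, nat_lit 17369065399, nat_lit 17693765638], nat_lit 0, nat_lit 0, nat_lit 0, nat_lit 0, nat_lit 0, nat_lit 0, [], [nat_lit 29, nat_lit 40, nat_lit 20, nat_lit 80, nat_lit 17, nat_lit 401, nat_lit 175, nat_lit 11]⟩,
 zbF0, [⟨nat_lit 0, nat_lit 100, nat_lit 100, nat_lit 58, nat_lit 706974997⟩, ⟨nat_lit 16, nat_lit 99, nat_lit 100, nat_lit 55, nat_lit 220755833⟩, ⟨nat_lit 7, nat_lit 100, nat_lit 99, nat_lit 55, nat_lit 998342846⟩]⟩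
noncomputable def p039_l136 : Lf2 := ⟨nat_lit 0, nat_lit 10, [nat_lit 0, nat_lit 5, nat_lit 5, nat_lit 20], false, nat_lit 160, nat_lit 288, nat_lit 0, nat_lit 288, ⟨nat_lit 1000, nat_lit 0, nat_lit 0, nat_lit 0, nat_lit 0, nat_lit 0, nat_lit 0, nat_lit 0, nat_lit 0, nat_lit 0, nat_lit 0, nat_lit 0, nat_lit 0, nat_lit 0, nat_lit 0, nat_lit 0, false, false⟩,
 nat_lit 0, nat_lit 12665, nat_lit 0, nat_lit 5477, nat_lit 6705, nat_lit 17489, nat_lit 0, nat_lit 0, nat_lit 0, nat_lit 1043, nat_lit 0, nat_lit 0, nat_lit 0, nat_lit 23720059100613, nat_lit 0, nat_lit 0, nat_lit 0, nat_lit 0, [],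
 ⟨p039_k0, nat_lit 0, nat_lit 0, nat_lit 113, nat_lit 0, nat_lit 49341, [nat_lit 4688000000, nat_lit 7968000001, nat_lit 11872000000], [], [nat_lit 34905359200, nat_lit 31360170910, nat_lit 29945278621, nat_lit 26604270991, nat_lit 24973221885, nat_lit 25813187225, nat_lit 26728876146, nat_lit 27425092334], nat_lit 1271250, nat_lit 1271250, nat_lit 1100001, nat_lit 1785000, nat_lit 1271250, nat_lit 1271250, [nat_lit 1100000, nat_lit 1785000, nat_lit 1271250], [nat_lit 21, nat_lit 40, nat_lit 20, nat_lit 80, nat_lit 14, nat_lit 428, nat_lit 200, nat_lit 10]⟩, ⟨p039_k0, nat_lit 0, nat_lit 0, nat_lit 194, nat_lit 0, nat_lit 0, [nat_lit 4688000000, nat_lit 7968000000, nat_lit 11872000000], [], [nat_lit 26590016120, nat_lit 28933412492, nat_lit 30187692504, nat_lit 32029111198, nat_lit 17499498033, nat_lit 18698395580, nat_lit 20686029339, nat_lit 22833596822], nat_lit 0, nat_lit 0, nat_lit 0, nat_lit 0, nat_lit 0,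 nat_lit 0, [], [nat_lit 21, nat_lit 40, nat_lit 20, nat_lit 80, nat_lit 14, nat_lit 428, nat_lit 200, nat_lit 11]⟩,
 zbF0, []⟩
noncomputable def p039_l137 : Lf2 := ⟨nat_lit 1, nat_lit 10, [nat_lit 0, nat_lit 5, nat_lit 5, nat_lit 20], false, nat_lit 160, nat_lit 288, nat_lit 0, nat_lit 288, zbN0,
 nat_lit 0, nat_lit 0, nat_lit 0, nat_lit 0, nat_lit 0, nat_lit 0, nat_lit 0, nat_lit 0, nat_lit 0, nat_lit 0, nat_lit 0, nat_lit 0, nat_lit 0, nat_lit 0, nat_lit 0, nat_lit 0, nat_lit 0, nat_lit 0, [],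
 C1.Rw.none, C1.Rw.none,
 zbF0, []⟩
noncomputable def p039_l138 : Lf2 := ⟨nat_lit 0, nat_lit 10, [nat_lit 0, nat_lit 5, nat_lit 5, nat_lit 20], true, nat_lit 160, nat_lit 240, nat_lit 0, nat_lit 288, ⟨nat_lit 0, nat_lit 0, nat_lit 1000, nat_lit 6, nat_lit 93, nat_lit 1000, nat_lit 127, nat_lit 1000, nat_lit 153600, nat_lit 311, nat_lit 81667, nat_lit 285, nat_lit 56380488, nat_lit 0, nat_lit 0, nat_lit 2877755, false, false⟩,
 nat_lit 0, nat_lit 12395, nat_lit 0, nat_lit 0, nat_lit 7214, nat_lit 0, nat_lit 0, nat_lit 0, nat_lit 0, nat_lit 0, nat_lit 0, nat_lit 0, nat_lit 0, nat_lit 8884886236477, nat_lit 61, nat_lit 248895, nat_lit 0, nat_lit 0, [(nat_lit 9, [(nat_lit 3, nat_lit 17), (nat_lit 4, nat_lit 983)])],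
 ⟨p039_k10, nat_lit 0, nat_lit 0, nat_lit 177, nat_lit 0, nat_lit 126609, [nat_lit 4812940801, nat_lit 1164576134, nat_lit 19392400], [], [nat_lit 13537214193, nat_lit 14308663769, nat_lit 12558744681, nat_lit 13322558442, nat_lit 16710588804, nat_lit 17641423866, nat_lit 15723265136, nat_lit 16392735858], nat_lit 1271250, nat_lit 1271250, nat_lit 134400, nat_lit 230001, nat_lit 1100001, nat_lit 1785000, [nat_lit 1100000, nat_lit 1442500, nat_lit 1271250], [nat_lit 11, nat_lit 40, nat_lit 20, nat_lit 80, nat_lit 1, nat_lit 373, nat_lit 150, nat_lit 11]⟩, C1.Rw.none,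
 ⟨nat_lit 5700, nat_lit 5917, ⟨.ofNat (nat_lit 197129), .ofNat (nat_lit 228543), .ofNat (nat_lit 229138), .ofNat (nat_lit 260552), .ofNat (nat_lit 205119), .ofNat (nat_lit 235806), .ofNat (nat_lit 237132), .ofNat (nat_lit 267819)⟩, ⟨.ofNat (nat_lit 229411), .ofNat (nat_lit 386479), .ofNat (nat_lit 250751), .ofNat (nat_lit 407818), .ofNat (nat_lit 231202), .ofNat (nat_lit 384640), .ofNat (nat_lit 252544), .ofNat (nat_lit 405982)⟩⟩, [⟨nat_lit 0, nat_lit 100, nat_lit 98, nat_lit 60, nat_lit 1089519875⟩, ⟨nat_lit 4, nat_lit 100, nat_lit 97, nat_lit 54, nat_lit 281892307⟩]⟩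
noncomputable def p039_l139 : Lf2 := ⟨nat_lit 0, nat_lit 10, [nat_lit 0, nat_lit 5, nat_lit 5, nat_lit 20], true, nat_lit 160, nat_lit 200, nat_lit 0, nat_lit 288, ⟨nat_lit 0, nat_lit 0, nat_lit 1000, nat_lit 6, nat_lit 115, nat_lit 1000, nat_lit 112, nat_lit 1000, nat_lit 117600, nat_lit 299, nat_lit 123267, nat_lit 301, nat_lit 56011913, nat_lit 0, nat_lit 0, nat_lit 2976644, false, false⟩,
 nat_lit 0, nat_lit 8175, nat_lit 0, nat_lit 0, nat_lit 4758, nat_lit 0, nat_lit 0, nat_lit 0, nat_lit 0, nat_lit 0, nat_lit 0, nat_lit 0, nat_lit 0, nat_lit 20863583304509, nat_lit 155, nat_lit 789400, nat_lit 0, nat_lit 0, [(nat_lit 9, [(nat_lit 5, nat_lit 351), (nat_lit 6, nat_lit 649)])],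
 ⟨p039_k10, nat_lit 0, nat_lit 0, nat_lit 169, nat_lit 0, nat_lit 126609, [nat_lit 3728108800, nat_lit 2775697334, nat_lit 134674666], [], [nat_lit 11464171038, nat_lit 12079023740, nat_lit 10840285562, nat_lit 11433866990, nat_lit 12884982548, nat_lit 13466756445, nat_lit 12289392476, nat_lit 12787112893], nat_lit 1271250, nat_lit 1271250, nat_lit 230001, nat_lit 490000, nat_lit 1100001, nat_lit 1442500, [nat_lit 1100000, nat_lit 1442500, nat_lit 1271250], [nat_lit 11, nat_lit 40, nat_lit 20, nat_lit 80, nat_lit 1, nat_lit 373, nat_lit 150, nat_lit 11]⟩, C1.Rw.none,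
 ⟨nat_lit 5700, nat_lit 5917, ⟨.ofNat (nat_lit 228543), .ofNat (nat_lit 307076), .ofNat (nat_lit 260552), .ofNat (nat_lit 339085), .ofNat (nat_lit 235806), .ofNat (nat_lit 312525), .ofNat (nat_lit 267819), .ofNat (nat_lit 344538)⟩, ⟨.ofNat (nat_lit 229411), .ofNat (nat_lit 307945), .ofNat (nat_lit 250751), .ofNat (nat_lit 329284), .ofNat (nat_lit 231202), .ofNat (nat_lit 307921), .ofNat (nat_lit 252544), .ofNat (nat_lit 329263)⟩⟩, [⟨nat_lit 0, nat_lit 100, nat_lit 100, nat_lit 70, nat_lit 196016238⟩]⟩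
noncomputable def p039_l140 : Lf2 := ⟨nat_lit 0, nat_lit 10, [nat_lit 0, nat_lit 5, nat_lit 5, nat_lit 20], true, nat_lit 200, nat_lit 240, nat_lit 0, nat_lit 288, ⟨nat_lit 0, nat_lit 0, nat_lit 1000, nat_lit 6, nat_lit 113, nat_lit 1000, nat_lit 143, nat_lit 1000, nat_lit 190817, nat_lit 322, nat_lit 120417, nat_lit 300, nat_lit 53582745, nat_lit 0, nat_lit 0, nat_lit 3389590, false, false⟩,
 nat_lit 0, nat_lit 7735, nat_lit 0, nat_lit 0, nat_lit 4502, nat_lit 0, nat_lit 0, nat_lit 0, nat_lit 0, nat_lit 0, nat_lit 0, nat_lit 0, nat_lit 0, nat_lit 20198901960789, nat_lit 87, nat_lit 400000, nat_lit 0, nat_lit 0, [(nat_lit 9, [(nat_lit 5, nat_lit 1000)])],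
 ⟨p039_k10, nat_lit 0, nat_lit 0, nat_lit 145, nat_lit 0, nat_lit 74625, [nat_lit 2918400000, nat_lit 1608666667, nat_lit 9200000], [], [nat_lit 12879835086, nat_lit 13245419028, nat_lit 12473381814, nat_lit 12825666190, nat_lit 14808807224, nat_lit 15143017416, nat_lit 14348140392, nat_lit 14670396984], nat_lit 1271250, nat_lit 1271250, nat_lit 230001, nat_lit 490000, nat_lit 1271250, nat_lit 1271250, [nat_lit 1100000, nat_lit 1442500, nat_lit 1271250], [nat_lit 11, nat_lit 40, nat_lit 20, nat_lit 80, nat_lit 1, nat_lit 373, nat_lit 150, nat_lit 10]⟩, C1.Rw.none,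
 ⟨nat_lit 5809, nat_lit 5917, ⟨.ofNat (nat_lit 228543), .ofNat (nat_lit 307076), .ofNat (nat_lit 255217), .ofNat (nat_lit 333750), .ofNat (nat_lit 232187), .ofNat (nat_lit 309809), .ofNat (nat_lit 258861), .ofNat (nat_lit 336483)⟩, ⟨.ofNat (nat_lit 307945), .ofNat (nat_lit 386479), .ofNat (nat_lit 329284), .ofNat (nat_lit 407818), .ofNat (nat_lit 307946), .ofNat (nat_lit 385569), .ofNat (nat_lit 329285), .ofNat (nat_lit 406908)⟩⟩, [⟨nat_lit 0, nat_lit 100, nat_lit 100, nat_lit 65, nat_lit 165128539⟩, ⟨nat_lit 4, nat_lit 100, nat_lit 98, nat_lit 54, nat_lit 357958018⟩]⟩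
noncomputable def p039_l141 : Lf2 := ⟨nat_lit 0, nat_lit 10, [nat_lit 0, nat_lit 5, nat_lit 5, nat_lit 20], true, nat_lit 200, nat_lit 240, nat_lit 0, nat_lit 288, ⟨nat_lit 0, nat_lit 0, nat_lit 1000, nat_lit 6, nat_lit 115, nat_lit 1000, nat_lit 143, nat_lit 1000, nat_lit 190817, nat_lit 322, nat_lit 123267, nat_lit 301, nat_lit 53471177, nat_lit 0, nat_lit 0, nat_lit 3410937, false, false⟩,
 nat_lit 0, nat_lit 7563, nat_lit 0, nat_lit 0, nat_lit 4503, nat_lit 0, nat_lit 0, nat_lit 0, nat_lit 0, nat_lit 0, nat_lit 0, nat_lit 0, nat_lit 0, nat_lit 20349411300712, nat_lit 134, nat_lit 671200, nat_lit 0, nat_lit 0, [(nat_lit 9, [(nat_lit 5, nat_lit 548), (nat_lit 6, nat_lit 452)])],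
 ⟨p039_k18, nat_lit 0, nat_lit 0, nat_lit 145, nat_lit 0, nat_lit 103083, [nat_lit 3476582400, nat_lit 2414272001, nat_lit 73583999], [], [nat_lit 13819744589, nat_lit 13985902801, nat_lit 13249560239, nat_lit 13385776583, nat_lit 15201030423, nat_lit 15377447478, nat_lit 14613132634, nat_lit 14764241493], nat_lit 1271250, nat_lit 1271250, nat_lit 230001, nat_lit 490000, nat_lit 1271250, nat_lit 1271250, [nat_lit 1100000, nat_lit 1442500, nat_lit 1271250], [nat_lit 11, nat_lit 40, nat_lit 20, nat_lit 80, nat_lit 1, nat_lit 373, nat_lit 150, nat_lit 10]⟩, C1.Rw.none,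
 ⟨nat_lit 5744, nat_lit 5810, ⟨.ofNat (nat_lit 232187), .ofNat (nat_lit 309809), .ofNat (nat_lit 262062), .ofNat (nat_lit 339684), .ofNat (nat_lit 234361), .ofNat (nat_lit 311441), .ofNat (nat_lit 264238), .ofNat (nat_lit 341318)⟩, ⟨.ofNat (nat_lit 307946), .ofNat (nat_lit 385569), .ofNat (nat_lit 329285), .ofNat (nat_lit 406908), .ofNat (nat_lit 307934), .ofNat (nat_lit 385014), .ofNat (nat_lit 329275), .ofNat (nat_lit 406354)⟩⟩, [⟨nat_lit 0, nat_lit 100, nat_lit 100, nat_lit 68, nat_lit 187237994⟩, ⟨nat_lit 4, nat_lit 100, nat_lit 97, nat_lit 54, nat_lit 238677663⟩]⟩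
noncomputable def p039_l142 : Lf2 := ⟨nat_lit 0, nat_lit 10, [nat_lit 0, nat_lit 5, nat_lit 5, nat_lit 20], true, nat_lit 200, nat_lit 240, nat_lit 0, nat_lit 288, ⟨nat_lit 0, nat_lit 0, nat_lit 1000, nat_lit 6, nat_lit 116, nat_lit 1000, nat_lit 143, nat_lit 1000, nat_lit 190817, nat_lit 322, nat_lit 126150, nat_lit 302, nat_lit 53399513, nat_lit 0, nat_lit 0, nat_lit 3424509, false, false⟩,
 nat_lit 0, nat_lit 7766, nat_lit 0, nat_lit 0, nat_lit 4687, nat_lit 0, nat_lit 190, nat_lit 0, nat_lit 0, nat_lit 0, nat_lit 0, nat_lit 0, nat_lit 0, nat_lit 21019105540843, nat_lit 87, nat_lit 400000, nat_lit 0, nat_lit 0, [(nat_lit 9, [(nat_lit 5, nat_lit 1000)])],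
 ⟨p039_k19, nat_lit 0, nat_lit 0, nat_lit 150, nat_lit 0, nat_lit 121199, [nat_lit 2918400000, nat_lit 787600001, nat_lit 9200000], [], [nat_lit 14109460321, nat_lit 14222194583, nat_lit 13471083653, nat_lit 13563311091, nat_lit 15488109081, nat_lit 15592316189, nat_lit 14797169422, nat_lit 14897061684], nat_lit 1271250, nat_lit 1271250, nat_lit 230001, nat_lit 490000, nat_lit 1271250, nat_lit 1271250, [nat_lit 1100000, nat_lit 1785000, nat_lit 1271250], [nat_lit 29, nat_lit 40, nat_lit 20, nat_lit 80, nat_lit 17, nat_lit 373, nat_lit 150, nat_lit 10]⟩, C1.Rw.none,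
 ⟨nat_lit 5700, nat_lit 5745, ⟨.ofNat (nat_lit 234361), .ofNat (nat_lit 311441), .ofNat (nat_lit 266372), .ofNat (nat_lit 343452), .ofNat (nat_lit 235806), .ofNat (nat_lit 312525), .ofNat (nat_lit 267819), .ofNat (nat_lit 344538)⟩, ⟨.ofNat (nat_lit 307934), .ofNat (nat_lit 385014), .ofNat (nat_lit 329275), .ofNat (nat_lit 406354), .ofNat (nat_lit 307921), .ofNat (nat_lit 384640), .ofNat (nat_lit 329263), .ofNat (nat_lit 405982)⟩⟩, [⟨nat_lit 0, nat_lit 100, nat_lit 100, nat_lit 70, nat_lit 194141433⟩, ⟨nat_lit 4, nat_lit 100, nat_lit 96, nat_lit 54, nat_lit 243904209⟩]⟩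
noncomputable def p039_l143 : Lf2 := ⟨nat_lit 0, nat_lit 10, [nat_lit 0, nat_lit 5, nat_lit 5, nat_lit 20], true, nat_lit 240, nat_lit 268, nat_lit 0, nat_lit 288, ⟨nat_lit 0, nat_lit 0, nat_lit 1000, nat_lit 6, nat_lit 109, nat_lit 1000, nat_lit 169, nat_lit 1000, nat_lit 126379, nat_lit 302, nat_lit 109350, nat_lit 296, nat_lit 51584303, nat_lit 0, nat_lit 0, nat_lit 3652133, false, false⟩,
 nat_lit 0, nat_lit 11722, nat_lit 0, nat_lit 0, nat_lit 6823, nat_lit 0, nat_lit 0, nat_lit 0, nat_lit 0, nat_lit 0, nat_lit 0, nat_lit 0, nat_lit 0, nat_lit 20257803242942, nat_lit 61, nat_lit 249415, nat_lit 0, nat_lit 0, [(nat_lit 9, [(nat_lit 3, nat_lit 9), (nat_lit 4, nat_lit 991)])],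
 ⟨p039_k10, nat_lit 0, nat_lit 0, nat_lit 177, nat_lit 0, nat_lit 126609, [nat_lit 4466521600, nat_lit 1164242267, nat_lit 16854800], [], [nat_lit 16816440783, nat_lit 17436389104, nat_lit 14581783488, nat_lit 15173895936, nat_lit 19255469093, nat_lit 20168073155, nat_lit 16459946957, nat_lit 17337940277], nat_lit 1271250, nat_lit 1271250, nat_lit 134400, nat_lit 490000, nat_lit 1271250, nat_lit 1271250, [nat_lit 1100000, nat_lit 1442500, nat_lit 1271250], [nat_lit 11, nat_lit 40, nat_lit 20, nat_lit 80, nat_lit 1, nat_lit 401, nat_lit 175, nat_lit 11]⟩, C1.Rw.none,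
 ⟨nat_lit 5700, nat_lit 5917, ⟨.ofNat (nat_lit 197129), .ofNat (nat_lit 307076), .ofNat (nat_lit 229138), .ofNat (nat_lit 339085), .ofNat (nat_lit 205119), .ofNat (nat_lit 312525), .ofNat (nat_lit 237132), .ofNat (nat_lit 344538)⟩, ⟨.ofNat (nat_lit 386479), .ofNat (nat_lit 441452), .ofNat (nat_lit 407818), .ofNat (nat_lit 462791), .ofNat (nat_lit 384640), .ofNat (nat_lit 438343), .ofNat (nat_lit 405982), .ofNat (nat_lit 459685)⟩⟩, [⟨nat_lit 0, nat_lit 100, nat_lit 100, nat_lit 70, nat_lit 311799613⟩, ⟨nat_lit 4, nat_lit 100, nat_lit 97, nat_lit 54, nat_lit 881929317⟩]⟩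
noncomputable def p039_l144 : Lf2 := ⟨nat_lit 1, nat_lit 10, [nat_lit 0, nat_lit 5, nat_lit 5, nat_lit 20], false, nat_lit 160, nat_lit 268, nat_lit 0, nat_lit 288, zbN0,
 nat_lit 0, nat_lit 0, nat_lit 0, nat_lit 0, nat_lit 0, nat_lit 0, nat_lit 0, nat_lit 0, nat_lit 0, nat_lit 0, nat_lit 0, nat_lit 0, nat_lit 0, nat_lit 0, nat_lit 0, nat_lit 0, nat_lit 0, nat_lit 0, [],
 C1.Rw.none, C1.Rw.none,
 zbF0, []⟩
noncomputable def p039_l145 : Lf2 := ⟨nat_lit 0, nat_lit 10, [nat_lit 0, nat_lit 5, nat_lit 5, nat_lit 20], true, nat_lit 160, nat_lit 260, nat_lit 0, nat_lit 288, ⟨nat_lit 0, nat_lit 0, nat_lit 1000, nat_lit 6, nat_lit 111, nat_lit 1000, nat_lit 135, nat_lit 1000, nat_lit 170017, nat_lit 316, nat_lit 114817, nat_lit 298, nat_lit 54453768, nat_lit 0, nat_lit 0, nat_lit 3246174, false, false⟩,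
 nat_lit 0, nat_lit 7913, nat_lit 0, nat_lit 0, nat_lit 4819, nat_lit 0, nat_lit 0, nat_lit 0, nat_lit 0, nat_lit 0, nat_lit 0, nat_lit 0, nat_lit 0, nat_lit 0, nat_lit 87, nat_lit 400000, nat_lit 0, nat_lit 0, [(nat_lit 9, [(nat_lit 5, nat_lit 1000)])],
 ⟨p039_k11, nat_lit 0, nat_lit 0, nat_lit 174, nat_lit 0, nat_lit 129429, [nat_lit 2918400000, nat_lit 1608666667, nat_lit 9200000], [], [nat_lit 14257345513, nat_lit 14880041160, nat_lit 13227684692, nat_lit 13759970236, nat_lit 18061035272, nat_lit 18559735369, nat_lit 16847717873, nat_lit 17326987947], nat_lit 1271250, nat_lit 1271250, nat_lit 157850, nat_lit 490000, nat_lit 1100001, nat_lit 1956250, [nat_lit 1100000, nat_lit 1442500, nat_lit 1271250], [nat_lit 11, nat_lit 40, nat_lit 20, nat_lit 80, nat_lit 1, nat_lit 401, nat_lit 175, nat_lit 11]⟩, C1.Rw.none,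
 ⟨nat_lit 5477, nat_lit 5701, ⟨.ofNat (nat_lit 212791), .ofNat (nat_lit 312525), .ofNat (nat_lit 234133), .ofNat (nat_lit 333867), .ofNat (nat_lit 220501), .ofNat (nat_lit 317913), .ofNat (nat_lit 241858), .ofNat (nat_lit 339271)⟩, ⟨.ofNat (nat_lit 231202), .ofNat (nat_lit 422999), .ofNat (nat_lit 252544), .ofNat (nat_lit 444341), .ofNat (nat_lit 232852), .ofNat (nat_lit 420185), .ofNat (nat_lit 254209), .ofNat (nat_lit 441542)⟩⟩, [⟨nat_lit 0, nat_lit 100, nat_lit 96, nat_lit 69, nat_lit 219850121⟩, ⟨nat_lit 4, nat_lit 100, nat_lit 94, nat_lit 53, nat_lit 292245405⟩]⟩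
noncomputable def p039_l146 : Lf2 := ⟨nat_lit 0, nat_lit 10, [nat_lit 0, nat_lit 5, nat_lit 5, nat_lit 20], false, nat_lit 160, nat_lit 260, nat_lit 0, nat_lit 160, ⟨nat_lit 1000, nat_lit 0, nat_lit 0, nat_lit 0, nat_lit 0, nat_lit 0, nat_lit 0, nat_lit 0, nat_lit 0, nat_lit 0, nat_lit 0, nat_lit 0, nat_lit 0, nat_lit 0, nat_lit 0, nat_lit 0, false, false⟩,
 nat_lit 0, nat_lit 16016, nat_lit 0, nat_lit 0, nat_lit 9754, nat_lit 7481, nat_lit 1977, nat_lit 0, nat_lit 0, nat_lit 0, nat_lit 0, nat_lit 0, nat_lit 0, nat_lit 6756001938888, nat_lit 0, nat_lit 0, nat_lit 0, nat_lit 0, [],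
 ⟨p039_k11, nat_lit 0, nat_lit 0, nat_lit 199, nat_lit 0, nat_lit 227349, [nat_lit 4688000000, nat_lit 6250000000, nat_lit 9842000000], [], [nat_lit 14917953287, nat_lit 15836907513, nat_lit 12805846037, nat_lit 13688526001, nat_lit 19736023327, nat_lit 20823498568, nat_lit 17460455869, nat_lit 18141407860], nat_lit 1271250, nat_lit 1271250, nat_lit 230001, nat_lit 490000, nat_lit 1100001, nat_lit 1956250, [nat_lit 1100000, nat_lit 1442500, nat_lit 1271250], [nat_lit 11, nat_lit 40, nat_lit 20, nat_lit 80, nat_lit 1, nat_lit 401, nat_lit 175, nat_lit 11]⟩, ⟨p039_k10, nat_lit 0, nat_lit 0, nat_lit 202, nat_lit 0, nat_lit 0, [nat_lit 4688000000, nat_lit 6250000000, nat_lit 9842000000], [], [nat_lit 29215264556, nat_lit 31059452492, nat_lit 27344136282, nat_lit 29129664520, nat_lit 24527581420, nat_lit 25826202428, nat_lit 23361388840, nat_lit 24606198576], nat_lit 0, nat_lit 0, nat_lit 0, nat_lit 0, nat_lit 0, nat_lit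 0, [], [nat_lit 11, nat_lit 40, nat_lit 20, nat_lit 80, nat_lit 1, nat_lit 373, nat_lit 150, nat_lit 11]⟩,
 zbF0, [⟨nat_lit 0, nat_lit 100, nat_lit 99, nat_lit 72, nat_lit 1099013667⟩, ⟨nat_lit 4, nat_lit 100, nat_lit 94, nat_lit 53, nat_lit 904817355⟩]⟩
noncomputable def p039_l147 : Lf2 := ⟨nat_lit 0, nat_lit 10, [nat_lit 0, nat_lit 5, nat_lit 5, nat_lit 20], false, nat_lit 160, nat_lit 260, nat_lit 160, nat_lit 268, ⟨nat_lit 1000, nat_lit 0, nat_lit 0, nat_lit 0, nat_lit 0, nat_lit 0, nat_lit 0, nat_lit 0, nat_lit 0, nat_lit 0, nat_lit 0, nat_lit 0, nat_lit 0, nat_lit 0, nat_lit 0, nat_lit 0, false, false⟩,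
 nat_lit 0, nat_lit 27181, nat_lit 0, nat_lit 0, nat_lit 16553, nat_lit 7083, nat_lit 571, nat_lit 0, nat_lit 0, nat_lit 0, nat_lit 0, nat_lit 0, nat_lit 0, nat_lit 0, nat_lit 0, nat_lit 0, nat_lit 0, nat_lit 0, [],
 ⟨p039_k11, nat_lit 0, nat_lit 0, nat_lit 199, nat_lit 0, nat_lit 227349, [nat_lit 4688000000, nat_lit 6250000000, nat_lit 9842000000], [], [nat_lit 17522653334, nat_lit 18855455891, nat_lit 13414189709, nat_lit 14690300607, nat_lit 23756151092, nat_lit 24737865687, nat_lit 19404835336, nat_lit 20344433164], nat_lit 1271250, nat_lit 1271250, nat_lit 230001, nat_lit 490000, nat_lit 1100001, nat_lit 1956250, [nat_lit 1100000, nat_lit 1442500, nat_lit 1271250], [nat_lit 11, nat_lit 40, nat_lit 20, nat_lit 80, nat_lit 1, nat_lit 401, nat_lit 175, nat_lit 11]⟩, ⟨p039_k10, nat_lit 0, nat_lit 0, nat_lit 57, nat_lit 0, nat_lit 0, [nat_lit 4688000000, nat_lit 6250000000, nat_lit 9842000000], [], [nat_lit 11141664842,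 nat_lit 13214419048, nat_lit 10108412794, nat_lit 12099190688, nat_lit 18199681917, nat_lit 20054444087, nat_lit 16929472795, nat_lit 18440698994], nat_lit 0, nat_lit 0, nat_lit 0, nat_lit 0, nat_lit 0, nat_lit 0, [], [nat_lit 11, nat_lit 40, nat_lit 20, nat_lit 80, nat_lit 1, nat_lit 401, nat_lit 175, nat_lit 11]⟩,
 zbF0, [⟨nat_lit 0, nat_lit 100, nat_lit 99, nat_lit 72, nat_lit 1394899372⟩, ⟨nat_lit 4, nat_lit 100, nat_lit 94, nat_lit 53, nat_lit 988733301⟩, ⟨nat_lit 7, nat_lit 100, nat_lit 96, nat_lit 54, nat_lit 985970497⟩]⟩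
noncomputable def p039_l148 : Lf2 := ⟨nat_lit 0, nat_lit 10, [nat_lit 0, nat_lit 5, nat_lit 5, nat_lit 20], true, nat_lit 160, nat_lit 268, nat_lit 0, nat_lit 288, ⟨nat_lit 0, nat_lit 0, nat_lit 1000, nat_lit 6, nat_lit 144, nat_lit 1000, nat_lit 138, nat_lit 1000, nat_lit 126379, nat_lit 302, nat_lit 194400, nat_lit 323, nat_lit 51577678, nat_lit 0, nat_lit 0, nat_lit 3735491, false, false⟩,
 nat_lit 0, nat_lit 7587, nat_lit 0, nat_lit 0, nat_lit 4416, nat_lit 0, nat_lit 0, nat_lit 0, nat_lit 0, nat_lit 0, nat_lit 0, nat_lit 0, nat_lit 0, nat_lit 0, nat_lit 87, nat_lit 400000, nat_lit 0, nat_lit 0, [(nat_lit 9, [(nat_lit 5, nat_lit 1000)])],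
 ⟨p039_k10, nat_lit 0, nat_lit 0, nat_lit 150, nat_lit 0, nat_lit 138842, [nat_lit 2918400000, nat_lit 1608666667, nat_lit 9200000], [], [nat_lit 10720303088, nat_lit 11477238232, nat_lit 11151965680, nat_lit 11871067544, nat_lit 16240072715, nat_lit 16832693576, nat_lit 16414580982, nat_lit 16978920832], nat_lit 1271250, nat_lit 1271250, nat_lit 490000, nat_lit 780000, nat_lit 1100001, nat_lit 2024750, [nat_lit 1100000, nat_lit 1442500, nat_lit 1271250], [nat_lit 11, nat_lit 40, nat_lit 20, nat_lit 80, nat_lit 1, nat_lit 401, nat_lit 175, nat_lit 11]⟩, C1.Rw.none,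
 ⟨nat_lit 5700, nat_lit 5917, ⟨.ofNat (nat_lit 307076), .ofNat (nat_lit 385610), .ofNat (nat_lit 328416), .ofNat (nat_lit 406949), .ofNat (nat_lit 312525), .ofNat (nat_lit 389244), .ofNat (nat_lit 333867), .ofNat (nat_lit 410586)⟩, ⟨.ofNat (nat_lit 229411), .ofNat (nat_lit 441452), .ofNat (nat_lit 250751), .ofNat (nat_lit 462791), .ofNat (nat_lit 231202), .ofNat (nat_lit 438343), .ofNat (nat_lit 252544), .ofNat (nat_lit 459685)⟩⟩, [⟨nat_lit 4, nat_lit 100, nat_lit 97, nat_lit 54, nat_lit 400610693⟩]⟩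
noncomputable def p039_l149 : Lf2 := ⟨nat_lit 0, nat_lit 10, [nat_lit 0, nat_lit 5, nat_lit 5, nat_lit 20], true, nat_lit 160, nat_lit 260, nat_lit 0, nat_lit 288, ⟨nat_lit 0, nat_lit 0, nat_lit 1000, nat_lit 6, nat_lit 146, nat_lit 1000, nat_lit 135, nat_lit 1000, nat_lit 170017, nat_lit 316, nat_lit 198017, nat_lit 324, nat_lit 51692055, nat_lit 0, nat_lit 0, nat_lit 3715813, false, false⟩,
 nat_lit 0, nat_lit 7769, nat_lit 0, nat_lit 0, nat_lit 4731, nat_lit 0, nat_lit 0, nat_lit 0, nat_lit 0, nat_lit 0, nat_lit 0, nat_lit 0, nat_lit 0, nat_lit 0, nat_lit 101, nat_lit 477400, nat_lit 0, nat_lit 0, [(nat_lit 9, [(nat_lit 5, nat_lit 871), (nat_lit 6, nat_lit 129)])],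
 ⟨p039_k11, nat_lit 0, nat_lit 0, nat_lit 171, nat_lit 0, nat_lit 225984, [nat_lit 3087084801, nat_lit 1850310667, nat_lit 23178400], [], [nat_lit 12948869909, nat_lit 13449097777, nat_lit 13033337588, nat_lit 13508900101, nat_lit 16523861791, nat_lit 17025849790, nat_lit 18418294988, nat_lit 17280323903], nat_lit 1271250, nat_lit 1271250, nat_lit 490000, nat_lit 780000, nat_lit 1100001, nat_lit 1956250, [nat_lit 1100000, nat_lit 1442500, nat_lit 1271250], [nat_lit 11, nat_lit 40, nat_lit 20, nat_lit 80, nat_lit 1, nat_lit 401, nat_lit 175, nat_lit 11]⟩, C1.Rw.none,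
 ⟨nat_lit 5477, nat_lit 5701, ⟨.ofNat (nat_lit 312525), .ofNat (nat_lit 389244), .ofNat (nat_lit 333867), .ofNat (nat_lit 410586), .ofNat (nat_lit 317913), .ofNat (nat_lit 392847), .ofNat (nat_lit 339271), .ofNat (nat_lit 414204)⟩, ⟨.ofNat (nat_lit 231202), .ofNat (nat_lit 422999), .ofNat (nat_lit 252544), .ofNat (nat_lit 444341), .ofNat (nat_lit 232852), .ofNat (nat_lit 420185), .ofNat (nat_lit 254209), .ofNat (nat_lit 441542)⟩⟩, [⟨nat_lit 4, nat_lit 100, nat_lit 94, nat_lit 53, nat_lit 279378490⟩]⟩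
noncomputable def p039_l150 : Lf2 := ⟨nat_lit 1, nat_lit 10, [nat_lit 0, nat_lit 5, nat_lit 5, nat_lit 20], false, nat_lit 160, nat_lit 268, nat_lit 0, nat_lit 288, zbN0,
 nat_lit 0, nat_lit 0, nat_lit 0, nat_lit 0, nat_lit 0, nat_lit 0, nat_lit 0, nat_lit 0, nat_lit 0, nat_lit 0, nat_lit 0, nat_lit 0, nat_lit 0, nat_lit 0, nat_lit 0, nat_lit 0, nat_lit 0, nat_lit 0, [],
 C1.Rw.none, C1.Rw.none,
 zbF0, []⟩
noncomputable def p039_l151 : Lf2 := ⟨nat_lit 0, nat_lit 10, [nat_lit 0, nat_lit 5, nat_lit 5, nat_lit 20], false, nat_lit 160, nat_lit 268, nat_lit 0, nat_lit 268, ⟨nat_lit 1000, nat_lit 0, nat_lit 0, nat_lit 0, nat_lit 0, nat_lit 0, nat_lit 0, nat_lit 0, nat_lit 0, nat_lit 0, nat_lit 0, nat_lit 0, nat_lit 0, nat_lit 0, nat_lit 0, nat_lit 0, false, false⟩,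
 nat_lit 0, nat_lit 13902, nat_lit 0, nat_lit 0, nat_lit 8092, nat_lit 17182, nat_lit 0, nat_lit 0, nat_lit 0, nat_lit 0, nat_lit 0, nat_lit 0, nat_lit 0, nat_lit 33934210647821, nat_lit 0, nat_lit 0, nat_lit 0, nat_lit 0, [],
 ⟨p039_k10, nat_lit 0, nat_lit 0, nat_lit 179, nat_lit 0, nat_lit 240242, [nat_lit 4688000000, nat_lit 6250000000, nat_lit 9842000000], [], [nat_lit 22261368880, nat_lit 23560469632, nat_lit 21964546904, nat_lit 23228351472, nat_lit 27024531102, nat_lit 28208283740, nat_lit 26545469549, nat_lit 27698890507], nat_lit 1271250, nat_lit 1271250, nat_lit 490000, nat_lit 631250, nat_lit 1100001, nat_lit 2024750, [nat_lit 1100000, nat_lit 1442500, nat_lit 1271250], [nat_lit 11, nat_lit 40, nat_lit 20, nat_lit 80, nat_lit 1, nat_lit 401, nat_lit 175, nat_lit 11]⟩, ⟨p039_k10, nat_lit 0, nat_lit 0, nat_lit 173, nat_lit 0, nat_lit 0, [nat_lit 4688000000, nat_lit 6250000000, nat_lit 9842000000], [],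 [nat_lit 29339845404, nat_lit 32533939440, nat_lit 27832206264, nat_lit 30942893328, nat_lit 21403739601, nat_lit 23270550291, nat_lit 19947142175, nat_lit 21756886585], nat_lit 0, nat_lit 0, nat_lit 0, nat_lit 0, nat_lit 0, nat_lit 0, [], [nat_lit 11, nat_lit 40, nat_lit 20, nat_lit 80, nat_lit 1, nat_lit 401, nat_lit 175, nat_lit 12]⟩,
 zbF0, [⟨nat_lit 4, nat_lit 100, nat_lit 96, nat_lit 54, nat_lit 823696983⟩]⟩
noncomputable def p039_l152 : Lf2 := ⟨nat_lit 0, nat_lit 10, [nat_lit 0, nat_lit 5, nat_lit 5, nat_lit 20], false, nat_lit 160, nat_lit 268, nat_lit 0, nat_lit 268, ⟨nat_lit 1000, nat_lit 0, nat_lit 0, nat_lit 0, nat_lit 0, nat_lit 0, nat_lit 0, nat_lit 0, nat_lit 0, nat_lit 0, nat_lit 0, nat_lit 0, nat_lit 0, nat_lit 0, nat_lit 0, nat_lit 0, false, false⟩,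
 nat_lit 0, nat_lit 14255, nat_lit 0, nat_lit 0, nat_lit 8297, nat_lit 18035, nat_lit 0, nat_lit 0, nat_lit 0, nat_lit 0, nat_lit 0, nat_lit 0, nat_lit 0, nat_lit 0, nat_lit 0, nat_lit 0, nat_lit 0, nat_lit 0, [],
 ⟨p039_k10, nat_lit 0, nat_lit 0, nat_lit 166, nat_lit 0, nat_lit 240406, [nat_lit 4688000000, nat_lit 6250000000, nat_lit 9842000000], [], [nat_lit 21577745114, nat_lit 22218396183, nat_lit 21462298838, nat_lit 22083079569, nat_lit 26396662386, nat_lit 26980773652, nat_lit 26114517065, nat_lit 26681073864], nat_lit 1271250, nat_lit 1271250, nat_lit 631250, nat_lit 780000, nat_lit 1100001, nat_lit 2024750, [nat_lit 1100000, nat_lit 1442500, nat_lit 1271250], [nat_lit 11, nat_lit 40, nat_lit 20, nat_lit 80, nat_lit 1, nat_lit 401, nat_lit 175, nat_lit 11]⟩, ⟨p039_k10, nat_lit 0, nat_lit 0, nat_lit 156, nat_lit 0, nat_lit 0, [nat_lit 4688000000, nat_lit 6250000000, nat_lit 9842000000], [], [nat_lit 27911067820,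 nat_lit 29526484730, nat_lit 26942285510, nat_lit 28506639505, nat_lit 19327959199, nat_lit 20263625899, nat_lit 18231526214, nat_lit 19133106243], nat_lit 0, nat_lit 0, nat_lit 0, nat_lit 0, nat_lit 0, nat_lit 0, [], [nat_lit 11, nat_lit 40, nat_lit 20, nat_lit 80, nat_lit 1, nat_lit 401, nat_lit 175, nat_lit 12]⟩,
 zbF0, [⟨nat_lit 4, nat_lit 100, nat_lit 97, nat_lit 54, nat_lit 825368428⟩]⟩
noncomputable def p039_l153 : Lf2 := ⟨nat_lit 0, nat_lit 10, [nat_lit 0, nat_lit 5, nat_lit 5, nat_lit 20], false, nat_lit 160, nat_lit 260, nat_lit 0, nat_lit 268, ⟨nat_lit 1000, nat_lit 0, nat_lit 0, nat_lit 0, nat_lit 0, nat_lit 0, nat_lit 0, nat_lit 0, nat_lit 0, nat_lit 0, nat_lit 0, nat_lit 0, nat_lit 0, nat_lit 0, nat_lit 0, nat_lit 0, false, false⟩,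
 nat_lit 0, nat_lit 12971, nat_lit 0, nat_lit 0, nat_lit 7899, nat_lit 17269, nat_lit 2311, nat_lit 0, nat_lit 0, nat_lit 0, nat_lit 0, nat_lit 0, nat_lit 0, nat_lit 7506023840212, nat_lit 0, nat_lit 0, nat_lit 0, nat_lit 0, [],
 ⟨p039_k11, nat_lit 0, nat_lit 0, nat_lit 282, nat_lit 0, nat_lit 418837, [nat_lit 4688000000, nat_lit 6250000000, nat_lit 9842000000], [], [nat_lit 13187133514, nat_lit 13653262542, nat_lit 13027643627, nat_lit 13478916458, nat_lit 18882468755, nat_lit 17270850054, nat_lit 20376765955, nat_lit 18476779990], nat_lit 1271250, nat_lit 1271250, nat_lit 631250, nat_lit 780000, nat_lit 1100001, nat_lit 1956250, [nat_lit 1100000, nat_lit 1442500, nat_lit 1271250], [nat_lit 11, nat_lit 40, nat_lit 20, nat_lit 80, nat_lit 1, nat_lit 401, nat_lit 175, nat_lit 11]⟩, ⟨p039_k10, nat_lit 0, nat_lit 0, nat_lit 162, nat_lit 0, nat_lit 0, [nat_lit 4688000000, nat_lit 6250000000, nat_lit 9842000000], [],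 [nat_lit 27840249588, nat_lit 30963190776, nat_lit 26932491434, nat_lit 29957242500, nat_lit 19883989867, nat_lit 21700015920, nat_lit 18851609495, nat_lit 20602063085], nat_lit 0, nat_lit 0, nat_lit 0, nat_lit 0, nat_lit 0, nat_lit 0, [], [nat_lit 11, nat_lit 40, nat_lit 20, nat_lit 80, nat_lit 1, nat_lit 401, nat_lit 175, nat_lit 12]⟩,
 zbF0, [⟨nat_lit 16, nat_lit 94, nat_lit 100, nat_lit 53, nat_lit 784481554⟩]⟩
noncomputable def p039_l154 : Lf2 := ⟨nat_lit 0, nat_lit 10, [nat_lit 0, nat_lit 5, nat_lit 5, nat_lit 20], false, nat_lit 160, nat_lit 268, nat_lit 0, nat_lit 288, ⟨nat_lit 1000, nat_lit 0, nat_lit 0, nat_lit 0, nat_lit 0, nat_lit 0, nat_lit 0, nat_lit 0, nat_lit 0, nat_lit 0, nat_lit 0, nat_lit 0, nat_lit 0, nat_lit 0, nat_lit 0, nat_lit 0, false, false⟩,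
 nat_lit 0, nat_lit 12692, nat_lit 0, nat_lit 0, nat_lit 7387, nat_lit 18193, nat_lit 0, nat_lit 0, nat_lit 0, nat_lit 1135, nat_lit 0, nat_lit 0, nat_lit 0, nat_lit 0, nat_lit 0, nat_lit 0, nat_lit 0, nat_lit 0, [],
 ⟨p039_k1, nat_lit 0, nat_lit 0, nat_lit 168, nat_lit 0, nat_lit 245932, [nat_lit 4688000000, nat_lit 7968000001, nat_lit 9842000000], [], [nat_lit 27566055783, nat_lit 24405651300, nat_lit 38411969751, nat_lit 34931171029, nat_lit 27034827861, nat_lit 27922562588, nat_lit 28748931884, nat_lit 29568327435], nat_lit 1271250, nat_lit 1271250, nat_lit 780000, nat_lit 1762500, nat_lit 1271250, nat_lit 1271250, [nat_lit 1100000, nat_lit 1785000, nat_lit 1271250], [nat_lit 29, nat_lit 40, nat_lit 20, nat_lit 80, nat_lit 17, nat_lit 428, nat_lit 200, nat_lit 12]⟩, ⟨p039_k0, nat_lit 0, nat_lit 0, nat_lit 202, nat_lit 0, nat_lit 0, [nat_lit 4688000000, nat_lit 7968000000, nat_lit 11872000000], [], [nat_lit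 26800038940, nat_lit 29417421368, nat_lit 29753302248, nat_lit 31645300526, nat_lit 17827556416, nat_lit 19182764905, nat_lit 20722218881, nat_lit 22931784265], nat_lit 0, nat_lit 0, nat_lit 0, nat_lit 0, nat_lit 0, nat_lit 0, [], [nat_lit 21, nat_lit 40, nat_lit 20, nat_lit 80, nat_lit 14, nat_lit 428, nat_lit 200, nat_lit 11]⟩,
 zbF0, [⟨nat_lit 4, nat_lit 100, nat_lit 96, nat_lit 54, nat_lit 609806196⟩]⟩
noncomputable def p039_l155 : Lf2 := ⟨nat_lit 0, nat_lit 10, [nat_lit 0, nat_lit 5, nat_lit 5, nat_lit 20], false, nat_lit 160, nat_lit 268, nat_lit 0, nat_lit 268, ⟨nat_lit 1000, nat_lit 0, nat_lit 0, nat_lit 0, nat_lit 0, nat_lit 0, nat_lit 0, nat_lit 0, nat_lit 0, nat_lit 0, nat_lit 0, nat_lit 0, nat_lit 0, nat_lit 0, nat_lit 0, nat_lit 0, false, false⟩,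
 nat_lit 0, nat_lit 13231, nat_lit 0, nat_lit 0, nat_lit 7701, nat_lit 17165, nat_lit 978, nat_lit 0, nat_lit 0, nat_lit 303, nat_lit 0, nat_lit 0, nat_lit 0, nat_lit 59999786546235, nat_lit 0, nat_lit 0, nat_lit 0, nat_lit 0, [],
 ⟨p039_k1, nat_lit 0, nat_lit 0, nat_lit 286, nat_lit 0, nat_lit 446743, [nat_lit 4688000000, nat_lit 7968000001, nat_lit 9842000000], [], [nat_lit 25935269787, nat_lit 23464252896, nat_lit 36752190251, nat_lit 33123432845, nat_lit 25008683021, nat_lit 25677003772, nat_lit 25923668337, nat_lit 26558107598], nat_lit 1271250, nat_lit 1271250, nat_lit 780000, nat_lit 1762500, nat_lit 1271250, nat_lit 1271250, [nat_lit 1100000, nat_lit 1785000, nat_lit 1271250], [nat_lit 29, nat_lit 40, nat_lit 20, nat_lit 80, nat_lit 17, nat_lit 428, nat_lit 200, nat_lit 12]⟩, ⟨p039_k1, nat_lit 0, nat_lit 0, nat_lit 158, nat_lit 0, nat_lit 0, [nat_lit 4688000000, nat_lit 7968000000, nat_lit 9842000000],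 [], [nat_lit 25442674190, nat_lit 28453311000, nat_lit 29595093910, nat_lit 31796545860, nat_lit 17447310848, nat_lit 19190608468, nat_lit 20155761877, nat_lit 22462854840], nat_lit 0, nat_lit 0, nat_lit 0, nat_lit 0, nat_lit 0, nat_lit 0, [], [nat_lit 29, nat_lit 40, nat_lit 20, nat_lit 80, nat_lit 17, nat_lit 428, nat_lit 200, nat_lit 12]⟩,
 zbF0, [⟨nat_lit 4, nat_lit 100, nat_lit 96, nat_lit 54, nat_lit 606082590⟩]⟩
noncomputable def b_VL_600_600_5_92 : St := ⟨true, nat_lit 1, nat_lit 0, nat_lit 1, nat_lit 40, nat_lit 240, nat_lit 280, nat_lit 240, nat_lit 280, nat_lit 16, nat_lit 240, nat_lit 20, nat_lit 40, nat_lit 160, nat_lit 288, nat_lit 0, nat_lit 288, nat_lit 40, nat_lit 68, nat_lit 0, nat_lit 0, nat_lit 0, nat_lit 0⟩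
theorem d_VL_600_600_5_92 (h : EB TB.env) : Dead b_VL_600_600_5_92 := chkB_sound0 h (T :=
(.spl (nat_lit 0) (nat_lit 260)
(.ord (.spl (nat_lit 6) (nat_lit 44)
(.spl (nat_lit 2) (nat_lit 160)
(.spl (nat_lit 1) (nat_lit 250)
(.leaf p039_l131)
(.ord (.trZ (nat_lit 0) (nat_lit 100) (nat_lit 100) (nat_lit 50) (nat_lit 24) (.trX (nat_lit 16) (nat_lit 100) (nat_lit 95) (nat_lit 62) (nat_lit 280) (.trX (nat_lit 19) (nat_lit 100) (nat_lit 95) (nat_lit 62) (nat_lit 280) (.spl (nat_lit 5) (nat_lit 160)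
(.spl (nat_lit 4) (nat_lit 240)
(.leaf p039_l132)
(.leaf p039_l133))
(.spl (nat_lit 1) (nat_lit 255)
(.leaf p039_l134)
(.ord (.trZ (nat_lit 0) (nat_lit 100) (nat_lit 100) (nat_lit 55) (nat_lit 28) (.trX (nat_lit 16) (nat_lit 100) (nat_lit 97) (nat_lit 62) (nat_lit 272) (.trX (nat_lit 19) (nat_lit 100) (nat_lit 97) (nat_lit 62) (nat_lit 272) (.leaf p039_l135))))))))))))
(.leaf p039_l136))
(.leaf p039_l137)))
(.trZ (nat_lit 0) (nat_lit 100) (nat_lit 97) (nat_lit 49) (nat_lit 24) (.trX (nat_lit 16) (nat_lit 100) (nat_lit 99) (nat_lit 63) (nat_lit 268) (.spl (nat_lit 2) (nat_lit 120)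
(.spl (nat_lit 2) (nat_lit 80)
(.spl (nat_lit 0) (nat_lit 270)
(.ord (.spl (nat_lit 6) (nat_lit 56)
(.spl (nat_lit 4) (nat_lit 240)
(.spl (nat_lit 2) (nat_lit 40)
(.leaf p039_l138)
(.spl (nat_lit 4) (nat_lit 200)
(.leaf p039_l139)
(.spl (nat_lit 0) (nat_lit 265)
(.ord (.leaf p039_l140))
(.spl (nat_lit 0) (nat_lit 268)
(.ord (.leaf p039_l141))
(.leaf p039_l142)))))
(.leaf p039_l143))
(.leaf p039_l144)))
(.trZ (nat_lit 0) (nat_lit 100) (nat_lit 96) (nat_lit 54) (nat_lit 28) (.trX (nat_lit 16) (nat_lit 98) (nat_lit 100) (nat_lit 63) (nat_lit 260) (.spl (nat_lit 1) (nat_lit 260)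
(.leaf p039_l145)
(.trZ (nat_lit 0) (nat_lit 100) (nat_lit 98) (nat_lit 64) (nat_lit 40) (.trX (nat_lit 19) (nat_lit 100) (nat_lit 99) (nat_lit 63) (nat_lit 268) (.spl (nat_lit 5) (nat_lit 160)
(.leaf p039_l146)
(.leaf p039_l147))))))))
(.spl (nat_lit 1) (nat_lit 260)
(.spl (nat_lit 6) (nat_lit 56)
(.spl (nat_lit 0) (nat_lit 270)
(.leaf p039_l148)
(.trX (nat_lit 16) (nat_lit 98) (nat_lit 100) (nat_lit 63) (nat_lit 260) (.leaf p039_l149)))
(.leaf p039_l150))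
(.trX (nat_lit 19) (nat_lit 100) (nat_lit 99) (nat_lit 63) (nat_lit 268) (.spl (nat_lit 2) (nat_lit 100)
(.leaf p039_l151)
(.spl (nat_lit 0) (nat_lit 270)
(.ord (.leaf p039_l152))
(.trX (nat_lit 16) (nat_lit 98) (nat_lit 100) (nat_lit 63) (nat_lit 260) (.leaf p039_l153)))))))
(.spl (nat_lit 1) (nat_lit 260)
(.leaf p039_l154)
(.trX (nat_lit 19) (nat_lit 100) (nat_lit 99) (nat_lit 63) (nat_lit 268) (.leaf p039_l155)))))))) (by decide +kernel)
noncomputable def p039_l156 : Lf2 := ⟨nat_lit 0, nat_lit 10, [nat_lit 0, nat_lit 5, nat_lit 5, nat_lit 20], false, nat_lit 0, nat_lit 288, nat_lit 0, nat_lit 288, ⟨nat_lit 1000, nat_lit 0, nat_lit 0, nat_lit 0, nat_lit 0, nat_lit 0, nat_lit 0, nat_lit 0, nat_lit 0, nat_lit 0, nat_lit 0, nat_lit 0, nat_lit 0, nat_lit 0, nat_lit 0, nat_lit 0, false, false⟩,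
 nat_lit 0, nat_lit 15528, nat_lit 0, nat_lit 0, nat_lit 8220, nat_lit 8340, nat_lit 944, nat_lit 0, nat_lit 0, nat_lit 1158, nat_lit 0, nat_lit 0, nat_lit 0, nat_lit 0, nat_lit 0, nat_lit 0, nat_lit 0, nat_lit 0, [],
 ⟨p039_k0, nat_lit 0, nat_lit 0, nat_lit 385, nat_lit 0, nat_lit 281853, [nat_lit 4688000000, nat_lit 7968000001, nat_lit 11872000000], [], [nat_lit 33114756640, nat_lit 34296472080, nat_lit 40418737920, nat_lit 41528188000, nat_lit 28548818450, nat_lit 29418904914, nat_lit 34743711298, nat_lit 35262346595], nat_lit 1271250, nat_lit 1271250, nat_lit 1271250, nat_lit 1271250, nat_lit 0, nat_lit 2034000, [nat_lit 1100000, nat_lit 1785000, nat_lit 1271250], [nat_lit 21, nat_lit 40, nat_lit 20, nat_lit 80, nat_lit 14, nat_lit 483, nat_lit 250, nat_lit 12]⟩, ⟨p039_k0, nat_lit 0, nat_lit 0, nat_lit 251, nat_lit 0, nat_lit 0, [nat_lit 4688000000, nat_lit 7968000000, nat_lit 11872000000], [], [nat_lit 27100989240,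 nat_lit 28285088880, nat_lit 39696929280, nat_lit 40769209360, nat_lit 24578341416, nat_lit 25257972393, nat_lit 33753904720, nat_lit 34183884945], nat_lit 0, nat_lit 0, nat_lit 0, nat_lit 0, nat_lit 0, nat_lit 0, [], [nat_lit 21, nat_lit 40, nat_lit 20, nat_lit 80, nat_lit 14, nat_lit 483, nat_lit 250, nat_lit 12]⟩,
 zbF0, [⟨nat_lit 4, nat_lit 100, nat_lit 98, nat_lit 54, nat_lit 135325284⟩, ⟨nat_lit 7, nat_lit 99, nat_lit 100, nat_lit 54, nat_lit 117271341⟩]⟩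
noncomputable def p039_l157 : Lf2 := ⟨nat_lit 0, nat_lit 10, [nat_lit 0, nat_lit 5, nat_lit 5, nat_lit 20], false, nat_lit 0, nat_lit 268, nat_lit 0, nat_lit 268, ⟨nat_lit 1000, nat_lit 0, nat_lit 0, nat_lit 0, nat_lit 0, nat_lit 0, nat_lit 0, nat_lit 0, nat_lit 0, nat_lit 0, nat_lit 0, nat_lit 0, nat_lit 0, nat_lit 0, nat_lit 0, nat_lit 0, false, false⟩,
 nat_lit 0, nat_lit 11886, nat_lit 0, nat_lit 0, nat_lit 6918, nat_lit 9790, nat_lit 1420, nat_lit 0, nat_lit 0, nat_lit 0, nat_lit 0, nat_lit 0, nat_lit 0, nat_lit 0, nat_lit 0, nat_lit 0, nat_lit 0, nat_lit 0, [],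
 ⟨p039_k10, nat_lit 0, nat_lit 0, nat_lit 403, nat_lit 0, nat_lit 446743, [nat_lit 4688000000, nat_lit 6250000000, nat_lit 9842000000], [], [nat_lit 29610134584, nat_lit 30086676580, nat_lit 37128599272, nat_lit 38120661488, nat_lit 26644271357, nat_lit 26917064033, nat_lit 31890329153, nat_lit 32558962526], nat_lit 1271250, nat_lit 1271250, nat_lit 1271250, nat_lit 1271250, nat_lit 0, nat_lit 1892750, [nat_lit 1100000, nat_lit 1442500, nat_lit 1271250], [nat_lit 11, nat_lit 40, nat_lit 20, nat_lit 80, nat_lit 1, nat_lit 483, nat_lit 250, nat_lit 14]⟩, ⟨p039_k10, nat_lit 0, nat_lit 0, nat_lit 215, nat_lit 0, nat_lit 0, [nat_lit 4688000000, nat_lit 6250000000, nat_lit 9842000000], [], [nat_lit 30601595660, nat_lit 32120513400, nat_lit 44937057780, nat_lit 45635728320, nat_lit 26516784463, nat_lit 27435366483, nat_lit 35743305849, nat_lit 36131849710], nat_lit 0, nat_lit 0, nat_lit 0, nat_lit 0, nat_lit 0, nat_lit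 0, [], [nat_lit 11, nat_lit 40, nat_lit 20, nat_lit 80, nat_lit 1, nat_lit 483, nat_lit 250, nat_lit 14]⟩,
 zbF0, [⟨nat_lit 4, nat_lit 100, nat_lit 96, nat_lit 54, nat_lit 133187679⟩]⟩
noncomputable def b_VL_600_600_5_93 : St := ⟨true, nat_lit 1, nat_lit 0, nat_lit 1, nat_lit 40, nat_lit 240, nat_lit 280, nat_lit 240, nat_lit 280, nat_lit 240, nat_lit 400, nat_lit 20, nat_lit 40, nat_lit 0, nat_lit 288, nat_lit 0, nat_lit 288, nat_lit 40, nat_lit 68, nat_lit 0, nat_lit 0, nat_lit 0, nat_lit 0⟩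
theorem d_VL_600_600_5_93 (h : EB TB.env) : Dead b_VL_600_600_5_93 := chkB_sound0 h (T :=
(.spl (nat_lit 1) (nat_lit 260)
(.leaf p039_l156)
(.ord (.trX (nat_lit 16) (nat_lit 100) (nat_lit 99) (nat_lit 63) (nat_lit 268) (.trX (nat_lit 19) (nat_lit 100) (nat_lit 99) (nat_lit 63) (nat_lit 268) (.leaf p039_l157)))))) (by decide +kernel)

end B2
end Pool.Agent.Lib.MP_6947cd_al
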