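import Pool.Agent.Lib.MP_6947cd_al.ZB.Pre

/-!
Problem MP_6947cd_al (Chollet).  Case B, second entry in [2/5, 17/20]: certificates of the tree, part P040 (generated).
-/

set_option autoImplicit false
set_option linter.all false

namespace Pool.Agent.Lib.MP_6947cd_al
namespace B2

open Ent Fr B1 PkA

noncomputable def p040_k0 : C1.Kn := ⟨[nat_lit 80, nat_lit 120, nat_lit 140], [nat_lit 0, nat_lit 395, nat_lit 1464], [(nat_lit 0, nat_lit 0, nat_lit 0), (nat_lit 1000, nat_lit 969, nat_lit 154), (nat_lit 957, nat_lit 1000, nat_lit 654)], (nat_lit 100, nat_lit 97, nat_lit 62)⟩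
noncomputable def p040_k1 : C1.Kn := ⟨[nat_lit 80, nat_lit 120, nat_lit 140], [nat_lit 0, nat_lit 264, nat_lit 1360], [(nat_lit 0, nat_lit 0, nat_lit 0), (nat_lit 1000, nat_lit 979, nat_lit 103), (nat_lit 951, nat_lit 1000, nat_lit 628)], (nat_lit 100, nat_lit 95, nat_lit 62)⟩
noncomputable def p040_k2 : C1.Kn := ⟨[nat_lit 80, nat_lit 100, nat_lit 140], [nat_lit 0, nat_lit 132, nat_lit 1148], [(nat_lit 0, nat_lit 0, nat_lit 0), (nat_lit 1000, nat_lit 979, nat_lit 103), (nat_lit 1000, nat_lit 979, nat_lit 397)], (nat_lit 100, nat_lit 95, nat_lit 62)⟩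
noncomputable def p040_k3 : C1.Kn := ⟨[nat_lit 80, nat_lit 100, nat_lit 140], [nat_lit 0, nat_lit 265, nat_lit 1269], [(nat_lit 0, nat_lit 0, nat_lit 0), (nat_lit 1000, nat_lit 959, nat_lit 206), (nat_lit 1000, nat_lit 958, nat_lit 392)], (nat_lit 100, nat_lit 99, nat_lit 63)⟩
noncomputable def p040_k4 : C1.Kn := ⟨[nat_lit 80, nat_lit 100, nat_lit 140], [nat_lit 0, nat_lit 399, nat_lit 1395], [(nat_lit 0, nat_lit 0, nat_lit 0), (nat_lit 1000, nat_lit 938, nat_lit 310), (nat_lit 1000, nat_lit 938, nat_lit 389)], (nat_lit 98, nat_lit 100, nat_lit 63)⟩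
noncomputable def p040_k5 : C1.Kn := ⟨[nat_lit 80, nat_lit 100, nat_lit 160], [nat_lit 0, nat_lit 0, nat_lit 1533], [(nat_lit 0, nat_lit 0, nat_lit 0), (nat_lit 0, nat_lit 0, nat_lit 0), (nat_lit 1000, nat_lit 1000, nat_lit 399)], (nat_lit 100, nat_lit 92, nat_lit 61)⟩
noncomputable def p040_k6 : C1.Kn := ⟨[nat_lit 80, nat_lit 100, nat_lit 140], [nat_lit 0, nat_lit 466, nat_lit 1467], [(nat_lit 0, nat_lit 0, nat_lit 0), (nat_lit 1000, nat_lit 927, nat_lit 359), (nat_lit 1000, nat_lit 927, nat_lit 391)], (nat_lit 96, nat_lit 100, nat_lit 62)⟩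
noncomputable def p040_k7 : C1.Kn := ⟨[nat_lit 80, nat_lit 120, nat_lit 140], [nat_lit 0, nat_lit 528, nat_lit 1572], [(nat_lit 0, nat_lit 0, nat_lit 0), (nat_lit 1000, nat_lit 959, nat_lit 206), (nat_lit 966, nat_lit 1000, nat_lit 679)], (nat_lit 100, nat_lit 99, nat_lit 63)⟩
noncomputable def p040_k8 : C1.Kn := ⟨[nat_lit 80, nat_lit 120, nat_lit 160], [nat_lit 0, nat_lit 0, nat_lit 2132], [(nat_lit 0, nat_lit 0, nat_lit 0), (nat_lit 0, nat_lit 0, nat_lit 0), (nat_lit 858, nat_lit 1000, nat_lit 713)], (nat_lit 100, nat_lit 92, nat_lit 61)⟩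
noncomputable def p040_k9 : C1.Kn := ⟨[nat_lit 80, nat_lit 120, nat_lit 140], [nat_lit 0, nat_lit 796, nat_lit 1801], [(nat_lit 0, nat_lit 0, nat_lit 0), (nat_lit 1000, nat_lit 938, nat_lit 310), (nat_lit 982, nat_lit 1000, nat_lit 736)], (nat_lit 98, nat_lit 100, nat_lit 63)⟩
noncomputable def p040_k10 : C1.Kn := ⟨[nat_lit 80, nat_lit 100, nat_lit 140], [nat_lit 0, nat_lit 332, nat_lit 1333], [(nat_lit 0, nat_lit 0, nat_lit 0), (nat_lit 1000, nat_lit 948, nat_lit 259), (nat_lit 1000, nat_lit 948, nat_lit 391)], (nat_lit 99, nat_lit 100, nat_lit 63)⟩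
noncomputable def p040_k11 : C1.Kn := ⟨[nat_lit 80, nat_lit 120, nat_lit 140], [nat_lit 0, nat_lit 929, nat_lit 1922], [(nat_lit 0, nat_lit 0, nat_lit 0), (nat_lit 1000, nat_lit 927, nat_lit 362), (nat_lit 993, nat_lit 1000, nat_lit 764)], (nat_lit 96, nat_lit 100, nat_lit 62)⟩
noncomputable def p040_k12 : C1.Kn := ⟨[nat_lit 80, nat_lit 160], [nat_lit 0, nat_lit 0], [(nat_lit 0, nat_lit 0, nat_lit 0), (nat_lit 0, nat_lit 0, nat_lit 0)], (nat_lit 100, nat_lit 92, nat_lit 61)⟩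
noncomputable def p040_k13 : C1.Kn := ⟨[nat_lit 80, nat_lit 140], [nat_lit 0, nat_lit 1192], [(nat_lit 0, nat_lit 0, nat_lit 0), (nat_lit 1000, nat_lit 938, nat_lit 310)], (nat_lit 98, nat_lit 100, nat_lit 63)⟩
noncomputable def p040_k14 : C1.Kn := ⟨[nat_lit 80, nat_lit 100, nat_lit 140], [nat_lit 0, nat_lit 292, nat_lit 1296], [(nat_lit 0, nat_lit 0, nat_lit 0), (nat_lit 1000, nat_lit 954, nat_lit 227), (nat_lit 1000, nat_lit 954, nat_lit 392)], (nat_lit 100, nat_lit 100, nat_lit 63)⟩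
noncomputable def p040_k15 : C1.Kn := ⟨[nat_lit 80, nat_lit 120, nat_lit 140], [nat_lit 0, nat_lit 582, nat_lit 1616], [(nat_lit 0, nat_lit 0, nat_lit 0), (nat_lit 1000, nat_lit 954, nat_lit 227), (nat_lit 970, nat_lit 1000, nat_lit 688)], (nat_lit 100, nat_lit 100, nat_lit 63)⟩
noncomputable def p040_k16 : C1.Kn := ⟨[nat_lit 80, nat_lit 100, nat_lit 140], [nat_lit 0, nat_lit 278, nat_lit 1287], [(nat_lit 0, nat_lit 0, nat_lit 0), (nat_lit 1000, nat_lit 956, nat_lit 216), (nat_lit 1000, nat_lit 956, nat_lit 394)], (nat_lit 100, nat_lit 99, nat_lit 63)⟩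
noncomputable def p040_k17 : C1.Kn := ⟨[nat_lit 80, nat_lit 120, nat_lit 140], [nat_lit 0, nat_lit 554, nat_lit 1594], [(nat_lit 0, nat_lit 0, nat_lit 0), (nat_lit 1000, nat_lit 956, nat_lit 216), (nat_lit 967, nat_lit 1000, nat_lit 685)], (nat_lit 100, nat_lit 99, nat_lit 63)⟩
noncomputable def p040_k18 : C1.Kn := ⟨[nat_lit 80, nat_lit 100, nat_lit 140], [nat_lit 0, nat_lit 305, nat_lit 1307], [(nat_lit 0, nat_lit 0, nat_lit 0), (nat_lit 1000, nat_lit 952, nat_lit 237), (nat_lit 1000, nat_lit 952, nat_lit 391)], (nat_lit 100, nat_lit 100, nat_lit 63)⟩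
noncomputable def p040_k19 : C1.Kn := ⟨[nat_lit 80, nat_lit 120, nat_lit 140], [nat_lit 0, nat_lit 608, nat_lit 1639], [(nat_lit 0, nat_lit 0, nat_lit 0), (nat_lit 1000, nat_lit 952, nat_lit 237), (nat_lit 969, nat_lit 1000, nat_lit 697)], (nat_lit 100, nat_lit 100, nat_lit 63)⟩
noncomputable def p040_k20 : C1.Kn := ⟨[nat_lit 80, nat_lit 120, nat_lit 140], [nat_lit 0, nat_lit 664, nat_lit 1684], [(nat_lit 0, nat_lit 0, nat_lit 0), (nat_lit 1000, nat_lit 948, nat_lit 259), (nat_lit 975, nat_lit 1000, nat_lit 704)], (nat_lit 99, nat_lit 100, nat_lit 63)⟩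
noncomputable def p040_l0 : Lf2 := ⟨nat_lit 1, nat_lit 10, [nat_lit 0, nat_lit 5, nat_lit 5, nat_lit 20], false, nat_lit 0, nat_lit 160, nat_lit 0, nat_lit 288, zbN0,
 nat_lit 0, nat_lit 0, nat_lit 0, nat_lit 0, nat_lit 0, nat_lit 0, nat_lit 0, nat_lit 0, nat_lit 0, nat_lit 0, nat_lit 0, nat_lit 0, nat_lit 0, nat_lit 0, nat_lit 0, nat_lit 0, nat_lit 0, nat_lit 0, [],
 C1.Rw.none, C1.Rw.none,
 zbF0, []⟩
noncomputable def p040_l1 : Lf2 := ⟨nat_lit 1, nat_lit 10, [nat_lit 0, nat_lit 5, nat_lit 5, nat_lit 20], false, nat_lit 0, nat_lit 80, nat_lit 0, nat_lit 280, zbN0,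
 nat_lit 0, nat_lit 0, nat_lit 0, nat_lit 0, nat_lit 0, nat_lit 0, nat_lit 0, nat_lit 0, nat_lit 0, nat_lit 0, nat_lit 0, nat_lit 0, nat_lit 0, nat_lit 0, nat_lit 0, nat_lit 0, nat_lit 0, nat_lit 0, [],
 C1.Rw.none, C1.Rw.none,
 zbF0, []⟩
noncomputable def p040_l2 : Lf2 := ⟨nat_lit 0, nat_lit 10, [nat_lit 0, nat_lit 5, nat_lit 5, nat_lit 20], false, nat_lit 0, nat_lit 80, nat_lit 0, nat_lit 280, ⟨nat_lit 0, nat_lit 0, nat_lit 1000, nat_lit 6, nat_lit 138, nat_lit 0, nat_lit 16, nat_lit 0, nat_lit 17, nat_lit 216, nat_lit 58974, nat_lit 274, nat_lit 59858626, nat_lit 0, nat_lit 0, nat_lit 1696602, false, false⟩,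
 nat_lit 0, nat_lit 7222, nat_lit 0, nat_lit 0, nat_lit 4107, nat_lit 0, nat_lit 412, nat_lit 0, nat_lit 0, nat_lit 0, nat_lit 0, nat_lit 0, nat_lit 0, nat_lit 20929746986843, nat_lit 69, nat_lit 400000, nat_lit 0, nat_lit 0, [(nat_lit 6, [(nat_lit 5, nat_lit 1000)])],
 ⟨p040_k0, nat_lit 0, nat_lit 0, nat_lit 252, nat_lit 0, nat_lit 23168, [nat_lit 2521600001, nat_lit 679600001, nat_lit 7200000], [], [nat_lit 13961559956, nat_lit 14297265428, nat_lit 14026899110, nat_lit 14303264056, nat_lit 11991073940, nat_lit 12266759895, nat_lit 13107504827, nat_lit 12850381700], nat_lit 1271250, nat_lit 1271250, nat_lit 134400, nat_lit 1100001, nat_lit 0, nat_lit 490000, [nat_lit 1100000, nat_lit 1785000, nat_lit 1271250], [nat_lit 29, nat_lit 40, nat_lit 20, nat_lit 80, nat_lit 17, nat_lit 345, nat_lit 125, nat_lit 10]⟩, ⟨p040_k1, nat_lit 0, nat_lit 0, nat_lit 254, nat_lit 0, nat_lit 23834, [nat_lit 0, nat_lit 0, nat_lit 0], [],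 [nat_lit 0, nat_lit 0, nat_lit 0, nat_lit 0, nat_lit 0, nat_lit 0, nat_lit 0, nat_lit 0], nat_lit 1271250, nat_lit 1271250, nat_lit 134400, nat_lit 1100001, nat_lit 0, nat_lit 1977500, [nat_lit 1100000, nat_lit 1785000, nat_lit 1271250], [nat_lit 29, nat_lit 40, nat_lit 20, nat_lit 80, nat_lit 17, nat_lit 401, nat_lit 175, nat_lit 12]⟩,
 ⟨nat_lit 5916, nat_lit 6021, ⟨.ofNat (nat_lit 203762), .ofNat (nat_lit 473901), .ofNat (nat_lit 214433), .ofNat (nat_lit 484573), .ofNat (nat_lit 207799), .ofNat (nat_lit 474813), .ofNat (nat_lit 218469), .ofNat (nat_lit 485483)⟩, ⟨.negSucc (nat_lit 89345), .ofNat (nat_lit 69559), .negSucc (nat_lit 68003), .ofNat (nat_lit 90902), .negSucc (nat_lit 84722), .ofNat (nat_lit 72344), .negSucc (nat_lit 63383), .ofNat (nat_lit 93684)⟩⟩, [⟨nat_lit 0, nat_lit 100, nat_lit 100, nat_lit 60, nat_lit 81364934⟩]⟩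
noncomputable def p040_l3 : Lf2 := ⟨nat_lit 0, nat_lit 10, [nat_lit 0, nat_lit 5, nat_lit 5, nat_lit 20], true, nat_lit 80, nat_lit 160, nat_lit 0, nat_lit 280, ⟨nat_lit 0, nat_lit 0, nat_lit 1000, nat_lit 6, nat_lit 138, nat_lit 1000, nat_lit 64, nat_lit 1000, nat_lit 38400, nat_lit 263, nat_lit 58974, nat_lit 274, nat_lit 57386242, nat_lit 0, nat_lit 0, nat_lit 2572702, false, false⟩,
 nat_lit 0, nat_lit 25520, nat_lit 0, nat_lit 0, nat_lit 14177, nat_lit 0, nat_lit 0, nat_lit 0, nat_lit 0, nat_lit 0, nat_lit 0, nat_lit 0, nat_lit 0, nat_lit 43691156554160, nat_lit 49, nat_lit 236680, nat_lit 0, nat_lit 0, [(nat_lit 6, [(nat_lit 3, nat_lit 222), (nat_lit 4, nat_lit 778)])],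
 ⟨p040_k2, nat_lit 0, nat_lit 0, nat_lit 216, nat_lit 0, nat_lit 46020, [nat_lit 10863878401, nat_lit 1074261601, nat_lit 41684800], [], [nat_lit 11288518269, nat_lit 12662927298, nat_lit 4605846725, nat_lit 5525741481, nat_lit 9852072295, nat_lit 11726441391, nat_lit 7930234855, nat_lit 5628309945], nat_lit 1271250, nat_lit 1271250, nat_lit 134400, nat_lit 1100001, nat_lit 490000, nat_lit 1100001, [nat_lit 1100000, nat_lit 1442500, nat_lit 1271250], [nat_lit 11, nat_lit 40, nat_lit 20, nat_lit 80, nat_lit 1, nat_lit 373, nat_lit 150, nat_lit 11]⟩, C1.Rw.none,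
 ⟨nat_lit 5916, nat_lit 6124, ⟨.ofNat (nat_lit 199694), .ofNat (nat_lit 472988), .ofNat (nat_lit 210368), .ofNat (nat_lit 483662), .ofNat (nat_lit 207799), .ofNat (nat_lit 474813), .ofNat (nat_lit 218469), .ofNat (nat_lit 485483)⟩, ⟨.ofNat (nat_lit 66723), .ofNat (nat_lit 227485), .ofNat (nat_lit 88071), .ofNat (nat_lit 248833), .ofNat (nat_lit 72344), .ofNat (nat_lit 229411), .ofNat (nat_lit 93684), .ofNat (nat_lit 250751)⟩⟩, [⟨nat_lit 0, nat_lit 100, nat_lit 100, nat_lit 60, nat_lit 365413058⟩]⟩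
noncomputable def p040_l4 : Lf2 := ⟨nat_lit 1, nat_lit 10, [nat_lit 0, nat_lit 5, nat_lit 5, nat_lit 20], false, nat_lit 0, nat_lit 160, nat_lit 0, nat_lit 288, zbN0,
 nat_lit 0, nat_lit 0, nat_lit 0, nat_lit 0, nat_lit 0, nat_lit 0, nat_lit 0, nat_lit 0, nat_lit 0, nat_lit 0, nat_lit 0, nat_lit 0, nat_lit 0, nat_lit 0, nat_lit 0, nat_lit 0, nat_lit 0, nat_lit 0, [],
 C1.Rw.none, C1.Rw.none,
 zbF0, []⟩
noncomputable def p040_l5 : Lf2 := ⟨nat_lit 0, nat_lit 10, [nat_lit 0, nat_lit 5, nat_lit 5, nat_lit 20], true, nat_lit 0, nat_lit 80, nat_lit 0, nat_lit 288, ⟨nat_lit 0, nat_lit 0, nat_lit 1000, nat_lit 6, nat_lit 92, nat_lit 0, nat_lit 18, nat_lit 0, nat_lit 150, nat_lit 218, nat_lit 79350, nat_lit 284, nat_lit 63603445, nat_lit 0, nat_lit 0, nat_lit 1002771, false, false⟩,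
 nat_lit 0, nat_lit 8130, nat_lit 0, nat_lit 0, nat_lit 4732, nat_lit 0, nat_lit 0, nat_lit 0, nat_lit 0, nat_lit 0, nat_lit 0, nat_lit 0, nat_lit 0, nat_lit 0, nat_lit 96, nat_lit 450400, nat_lit 0, nat_lit 0, [(nat_lit 9, [(nat_lit 5, nat_lit 916), (nat_lit 6, nat_lit 84)])],
 ⟨p040_k3, nat_lit 0, nat_lit 0, nat_lit 325, nat_lit 0, nat_lit 136769, [nat_lit 3026380801, nat_lit 1763690667, nat_lit 15046400], [], [nat_lit 15913639328, nat_lit 17351437220, nat_lit 15166160032, nat_lit 16595095024, nat_lit 13233407709, nat_lit 14209482324, nat_lit 13153528703, nat_lit 13742171282], nat_lit 1271250, nat_lit 1271250, nat_lit 134400, nat_lit 230001, nat_lit 0, nat_lit 490000, [nat_lit 1100000, nat_lit 1442500, nat_lit 1271250], [nat_lit 11, nat_lit 40, nat_lit 20, nat_lit 80, nat_lit 1, nat_lit 317, nat_lit 100, nat_lit 10]⟩, C1.Rw.none,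
 ⟨nat_lit 5477, nat_lit 5917, ⟨.ofNat (nat_lit 197129), .ofNat (nat_lit 228543), .ofNat (nat_lit 218469), .ofNat (nat_lit 249882), .ofNat (nat_lit 213007), .ofNat (nat_lit 242980), .ofNat (nat_lit 234364), .ofNat (nat_lit 264337)⟩, ⟨.negSucc (nat_lit 84722), .ofNat (nat_lit 72344), .negSucc (nat_lit 63383), .ofNat (nat_lit 93684), .negSucc (nat_lit 66879), .ofNat (nat_lit 82986), .negSucc (nat_lit 45522), .ofNat (nat_lit 104343)⟩⟩, [⟨nat_lit 0, nat_lit 100, nat_lit 97, nat_lit 59, nat_lit 662546584⟩]⟩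
noncomputable def p040_l6 : Lf2 := ⟨nat_lit 0, nat_lit 10, [nat_lit 0, nat_lit 5, nat_lit 5, nat_lit 20], true, nat_lit 0, nat_lit 80, nat_lit 0, nat_lit 268, ⟨nat_lit 0, nat_lit 0, nat_lit 1000, nat_lit 6, nat_lit 106, nat_lit 0, nat_lit 18, nat_lit 0, nat_lit 150, nat_lit 218, nat_lit 104017, nat_lit 294, nat_lit 62636252, nat_lit 0, nat_lit 0, nat_lit 1204279, false, false⟩,
 nat_lit 0, nat_lit 8130, nat_lit 0, nat_lit 0, nat_lit 4732, nat_lit 0, nat_lit 0, nat_lit 0, nat_lit 0, nat_lit 0, nat_lit 0, nat_lit 0, nat_lit 0, nat_lit 8735733884404, nat_lit 96, nat_lit 450400, nat_lit 0, nat_lit 0, [(nat_lit 9, [(nat_lit 5, nat_lit 916), (nat_lit 6, nat_lit 84)])],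
 ⟨p040_k3, nat_lit 0, nat_lit 0, nat_lit 351, nat_lit 0, nat_lit 240242, [nat_lit 3026380801, nat_lit 1763690667, nat_lit 15046400], [], [nat_lit 15353029856, nat_lit 16784180573, nat_lit 15166160032, nat_lit 16595095024, nat_lit 13061839067, nat_lit 13838476076, nat_lit 13153528703, nat_lit 13742171282], nat_lit 1271250, nat_lit 1271250, nat_lit 205650, nat_lit 230001, nat_lit 0, nat_lit 490000, [nat_lit 1100000, nat_lit 1442500, nat_lit 1271250], [nat_lit 11, nat_lit 40, nat_lit 20, nat_lit 80, nat_lit 1, nat_lit 317, nat_lit 100, nat_lit 9]⟩, C1.Rw.none,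
 ⟨nat_lit 5477, nat_lit 5917, ⟨.ofNat (nat_lit 242029), .ofNat (nat_lit 249882), .ofNat (nat_lit 263368), .ofNat (nat_lit 271221), .ofNat (nat_lit 256844), .ofNat (nat_lit 264337), .ofNat (nat_lit 278201), .ofNat (nat_lit 285695)⟩, ⟨.negSucc (nat_lit 84722), .ofNat (nat_lit 72344), .negSucc (nat_lit 63383), .ofNat (nat_lit 93684), .negSucc (nat_lit 66879), .ofNat (nat_lit 82986), .negSucc (nat_lit 45522), .ofNat (nat_lit 104343)⟩⟩, [⟨nat_lit 0, nat_lit 100, nat_lit 100, nat_lit 60, nat_lit 1009795374⟩]⟩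
noncomputable def p040_l7 : Lf2 := ⟨nat_lit 0, nat_lit 10, [nat_lit 0, nat_lit 5, nat_lit 5, nat_lit 20], true, nat_lit 0, nat_lit 80, nat_lit 0, nat_lit 288, ⟨nat_lit 0, nat_lit 0, nat_lit 1000, nat_lit 6, nat_lit 113, nat_lit 0, nat_lit 17, nat_lit 0, nat_lit 67, nat_lit 217, nat_lit 117600, nat_lit 299, nat_lit 62075480, nat_lit 0, nat_lit 0, nat_lit 1312997, false, false⟩,
 nat_lit 0, nat_lit 7029, nat_lit 0, nat_lit 0, nat_lit 4091, nat_lit 0, nat_lit 0, nat_lit 0, nat_lit 0, nat_lit 0, nat_lit 0, nat_lit 0, nat_lit 0, nat_lit 0, nat_lit 171, nat_lit 882400, nat_lit 0, nat_lit 0, [(nat_lit 9, [(nat_lit 5, nat_lit 196), (nat_lit 6, nat_lit 804)])],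
 ⟨p040_k3, nat_lit 0, nat_lit 0, nat_lit 286, nat_lit 0, nat_lit 76893, [nat_lit 3917644801, nat_lit 3049610667, nat_lit 168101333], [], [nat_lit 12861488249, nat_lit 13527542297, nat_lit 12187572326, nat_lit 12831493544, nat_lit 11066005825, nat_lit 11504352961, nat_lit 10805950237, nat_lit 11367580211], nat_lit 1271250, nat_lit 1271250, nat_lit 230001, nat_lit 490000, nat_lit 0, nat_lit 490000, [nat_lit 1100000, nat_lit 1442500, nat_lit 1271250], [nat_lit 11, nat_lit 40, nat_lit 20, nat_lit 80, nat_lit 1, nat_lit 345, nat_lit 125, nat_lit 10]⟩, C1.Rw.none,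
 ⟨nat_lit 5700, nat_lit 5917, ⟨.ofNat (nat_lit 228543), .ofNat (nat_lit 307076), .ofNat (nat_lit 249882), .ofNat (nat_lit 328416), .ofNat (nat_lit 235806), .ofNat (nat_lit 312525), .ofNat (nat_lit 257148), .ofNat (nat_lit 333867)⟩, ⟨.negSucc (nat_lit 84722), .ofNat (nat_lit 72344), .negSucc (nat_lit 63383), .ofNat (nat_lit 93684), .negSucc (nat_lit 75673), .ofNat (nat_lit 77764), .negSucc (nat_lit 54331), .ofNat (nat_lit 99106)⟩⟩, [⟨nat_lit 0, nat_lit 100, nat_lit 98, nat_lit 64, nat_lit 129123718⟩]⟩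
noncomputable def p040_l8 : Lf2 := ⟨nat_lit 0, nat_lit 10, [nat_lit 0, nat_lit 5, nat_lit 5, nat_lit 20], true, nat_lit 0, nat_lit 80, nat_lit 0, nat_lit 288, ⟨nat_lit 0, nat_lit 0, nat_lit 1000, nat_lit 6, nat_lit 115, nat_lit 0, nat_lit 18, nat_lit 0, nat_lit 417, nat_lit 220, nat_lit 123267, nat_lit 301, nat_lit 61869018, nat_lit 0, nat_lit 0, nat_lit 1351698, false, false⟩,
 nat_lit 0, nat_lit 7085, nat_lit 0, nat_lit 0, nat_lit 4314, nat_lit 0, nat_lit 0, nat_lit 0, nat_lit 0, nat_lit 0, nat_lit 0, nat_lit 0, nat_lit 0, nat_lit 0, nat_lit 140, nat_lit 700600, nat_lit 0, nat_lit 0, [(nat_lit 9, [(nat_lit 5, nat_lit 499), (nat_lit 6, nat_lit 501)])],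
 ⟨p040_k4, nat_lit 0, nat_lit 0, nat_lit 307, nat_lit 0, nat_lit 126315, [nat_lit 3551571201, nat_lit 2519702667, nat_lit 110525333], [], [nat_lit 14479259989, nat_lit 15162156781, nat_lit 13828498087, nat_lit 14366826213, nat_lit 12660799253, nat_lit 13154945341, nat_lit 13884033989, nat_lit 12969520933], nat_lit 1271250, nat_lit 1271250, nat_lit 230001, nat_lit 490000, nat_lit 0, nat_lit 490000, [nat_lit 1100000, nat_lit 1442500, nat_lit 1271250], [nat_lit 11, nat_lit 40, nat_lit 20, nat_lit 80, nat_lit 1, nat_lit 345, nat_lit 125, nat_lit 10]⟩, C1.Rw.none,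
 ⟨nat_lit 5477, nat_lit 5701, ⟨.ofNat (nat_lit 235806), .ofNat (nat_lit 312525), .ofNat (nat_lit 257148), .ofNat (nat_lit 333867), .ofNat (nat_lit 242980), .ofNat (nat_lit 317913), .ofNat (nat_lit 264337), .ofNat (nat_lit 339271)⟩, ⟨.negSucc (nat_lit 75673), .ofNat (nat_lit 77764), .negSucc (nat_lit 54331), .ofNat (nat_lit 99106), .negSucc (nat_lit 66879), .ofNat (nat_lit 82986), .negSucc (nat_lit 45522), .ofNat (nat_lit 104343)⟩⟩, [⟨nat_lit 0, nat_lit 100, nat_lit 96, nat_lit 69, nat_lit 9522463⟩]⟩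
noncomputable def p040_l9 : Lf2 := ⟨nat_lit 0, nat_lit 10, [nat_lit 0, nat_lit 5, nat_lit 5, nat_lit 20], false, nat_lit 0, nat_lit 80, nat_lit 0, nat_lit 160, ⟨nat_lit 455, nat_lit 0, nat_lit 545, nat_lit 6, nat_lit 119, nat_lit 0, nat_lit 17, nat_lit 0, nat_lit 67, nat_lit 217, nat_lit 132017, nat_lit 304, nat_lit 61546744, nat_lit 0, nat_lit 0, nat_lit 1410774, false, false⟩,
 nat_lit 10408, nat_lit 0, nat_lit 0, nat_lit 0, nat_lit 6058, nat_lit 6058, nat_lit 736, nat_lit 0, nat_lit 0, nat_lit 542, nat_lit 0, nat_lit 0, nat_lit 0, nat_lit 10100116912280, nat_lit 0, nat_lit 545000, nat_lit 0, nat_lit 0, [(nat_lit 9, [(nat_lit 6, nat_lit 545)])],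
 ⟨p040_k3, nat_lit 0, nat_lit 0, nat_lit 305, nat_lit 0, nat_lit 128224, [nat_lit 2731232000, nat_lit 2610126667, nat_lit 1603577333], [], [nat_lit 17489557578, nat_lit 18078617365, nat_lit 16326968594, nat_lit 16824934326, nat_lit 15903462226, nat_lit 14556706498, nat_lit 17333690354, nat_lit 15866569972], nat_lit 1271250, nat_lit 1271250, nat_lit 230001, nat_lit 490000, nat_lit 0, nat_lit 490000, [nat_lit 1100000, nat_lit 1442500, nat_lit 1271250], [nat_lit 11, nat_lit 40, nat_lit 20, nat_lit 80, nat_lit 1, nat_lit 345, nat_lit 125, nat_lit 10]⟩, ⟨p040_k3, nat_lit 0, nat_lit 0, nat_lit 305, nat_lit 0, nat_lit 128224, [nat_lit 2133040000, nat_lit 2843750000, nat_lit 4478110000], [], [nat_lit 12882470752, nat_lit 13244806267, nat_lit 11340070178, nat_lit 11683039545, nat_lit 8265603416, nat_lit 8088885488, nat_lit 9290697512, nat_lit 7863414538], nat_lit 1271250, nat_lit 1271250, nat_lit 230001, nat_lit 490000, nat_lit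 0, nat_lit 1100001, [nat_lit 1100000, nat_lit 1442500, nat_lit 1271250], [nat_lit 11, nat_lit 40, nat_lit 20, nat_lit 80, nat_lit 1, nat_lit 373, nat_lit 150, nat_lit 11]⟩,
 ⟨nat_lit 5700, nat_lit 5917, ⟨.ofNat (nat_lit 249882), .ofNat (nat_lit 328416), .ofNat (nat_lit 260552), .ofNat (nat_lit 339085), .ofNat (nat_lit 257148), .ofNat (nat_lit 333867), .ofNat (nat_lit 267819), .ofNat (nat_lit 344538)⟩, ⟨.negSucc (nat_lit 84722), .ofNat (nat_lit 72344), .negSucc (nat_lit 63383), .ofNat (nat_lit 93684), .negSucc (nat_lit 75673), .ofNat (nat_lit 77764), .negSucc (nat_lit 54331), .ofNat (nat_lit 99106)⟩⟩, [⟨nat_lit 0, nat_lit 100, nat_lit 100, nat_lit 70, nat_lit 386685664⟩]⟩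
noncomputable def p040_l10 : Lf2 := ⟨nat_lit 0, nat_lit 10, [nat_lit 0, nat_lit 5, nat_lit 5, nat_lit 20], false, nat_lit 0, nat_lit 80, nat_lit 0, nat_lit 160, ⟨nat_lit 470, nat_lit 0, nat_lit 530, nat_lit 6, nat_lit 124, nat_lit 0, nat_lit 18, nat_lit 0, nat_lit 417, nat_lit 220, nat_lit 144150, nat_lit 308, nat_lit 61148937, nat_lit 0, nat_lit 0, nat_lit 1481570, false, false⟩,
 nat_lit 10222, nat_lit 0, nat_lit 0, nat_lit 0, nat_lit 6225, nat_lit 5949, nat_lit 1045, nat_lit 0, nat_lit 0, nat_lit 560, nat_lit 0, nat_lit 0, nat_lit 0, nat_lit 0, nat_lit 0, nat_lit 212000, nat_lit 0, nat_lit 0, [(nat_lit 9, [(nat_lit 5, nat_lit 530)])],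
 ⟨p040_k4, nat_lit 0, nat_lit 0, nat_lit 341, nat_lit 0, nat_lit 221878, [nat_lit 3012352001, nat_lit 2867893334, nat_lit 3339536000], [], [nat_lit 18283541025, nat_lit 19110771825, nat_lit 16930768500, nat_lit 17630898125, nat_lit 14585542650, nat_lit 15084674627, nat_lit 14893325394, nat_lit 14312177427], nat_lit 1271250, nat_lit 1271250, nat_lit 230001, nat_lit 490000, nat_lit 0, nat_lit 490000, [nat_lit 1100000, nat_lit 1442500, nat_lit 1271250], [nat_lit 11, nat_lit 40, nat_lit 20, nat_lit 80, nat_lit 1, nat_lit 345, nat_lit 125, nat_lit 10]⟩, ⟨p040_k3, nat_lit 0, nat_lit 0, nat_lit 346, nat_lit 0, nat_lit 234342, [nat_lit 2203360000, nat_lit 2937500000, nat_lit 4625740000], [], [nat_lit 13393035896, nat_lit 14108892152, nat_lit 11894546184, nat_lit 12581331456, nat_lit 9035786648, nat_lit 9049680700, nat_lit 10066550566, nat_lit 7725951484], nat_lit 1271250, nat_lit 1271250, nat_lit 230001, nat_lit 490000, nat_lit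 0, nat_lit 1100001, [nat_lit 1100000, nat_lit 1442500, nat_lit 1271250], [nat_lit 11, nat_lit 40, nat_lit 20, nat_lit 80, nat_lit 1, nat_lit 373, nat_lit 150, nat_lit 11]⟩,
 ⟨nat_lit 5477, nat_lit 5701, ⟨.ofNat (nat_lit 257148), .ofNat (nat_lit 333867), .ofNat (nat_lit 278490), .ofNat (nat_lit 355209), .ofNat (nat_lit 264337), .ofNat (nat_lit 339271), .ofNat (nat_lit 285695), .ofNat (nat_lit 360628)⟩, ⟨.negSucc (nat_lit 75673), .ofNat (nat_lit 77764), .negSucc (nat_lit 54331), .ofNat (nat_lit 99106), .negSucc (nat_lit 66879), .ofNat (nat_lit 82986), .negSucc (nat_lit 45522), .ofNat (nat_lit 104343)⟩⟩, [⟨nat_lit 0, nat_lit 100, nat_lit 99, nat_lit 72, nat_lit 738450424⟩]⟩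
noncomputable def p040_l11 : Lf2 := ⟨nat_lit 0, nat_lit 10, [nat_lit 0, nat_lit 5, nat_lit 5, nat_lit 20], false, nat_lit 0, nat_lit 80, nat_lit 160, nat_lit 268, ⟨nat_lit 327, nat_lit 0, nat_lit 673, nat_lit 6, nat_lit 120, nat_lit 0, nat_lit 18, nat_lit 0, nat_lit 150, nat_lit 218, nat_lit 135000, nat_lit 305, nat_lit 61440340, nat_lit 0, nat_lit 0, nat_lit 1429935, false, false⟩,
 nat_lit 11052, nat_lit 0, nat_lit 0, nat_lit 0, nat_lit 6433, nat_lit 6433, nat_lit 101, nat_lit 0, nat_lit 0, nat_lit 0, nat_lit 0, nat_lit 0, nat_lit 0, nat_lit 0, nat_lit 14, nat_lit 673000, nat_lit 0, nat_lit 0, [(nat_lit 9, [(nat_lit 6, nat_lit 673)])],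
 ⟨p040_k3, nat_lit 0, nat_lit 0, nat_lit 327, nat_lit 0, nat_lit 182481, [nat_lit 2495660800, nat_lit 2035257334, nat_lit 97320266], [], [nat_lit 18623811194, nat_lit 19779074297, nat_lit 17346116710, nat_lit 18368488674, nat_lit 14912787674, nat_lit 15919562554, nat_lit 15447045488, nat_lit 14786434278], nat_lit 1271250, nat_lit 1271250, nat_lit 230001, nat_lit 490000, nat_lit 0, nat_lit 490000, [nat_lit 1100000, nat_lit 1442500, nat_lit 1271250], [nat_lit 11, nat_lit 40, nat_lit 20, nat_lit 80, nat_lit 1, nat_lit 345, nat_lit 125, nat_lit 10]⟩, ⟨p040_k3, nat_lit 0, nat_lit 0, nat_lit 182, nat_lit 0, nat_lit 182481, [nat_lit 1532976000, nat_lit 2043750000, nat_lit 3218334000], [], [nat_lit 5517101410, nat_lit 6015024513, nat_lit 3895688422, nat_lit 4372009785, nat_lit 8228044191, nat_lit 8579318956, nat_lit 6495386328, nat_lit 6831211703], nat_lit 1271250, nat_lit 1271250, nat_lit 230001, nat_lit 490000, nat_lit 1100001,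 nat_lit 2024750, [nat_lit 1100000, nat_lit 1442500, nat_lit 1271250], [nat_lit 11, nat_lit 40, nat_lit 20, nat_lit 80, nat_lit 1, nat_lit 401, nat_lit 175, nat_lit 11]⟩,
 ⟨nat_lit 5477, nat_lit 5917, ⟨.ofNat (nat_lit 249882), .ofNat (nat_lit 328416), .ofNat (nat_lit 260552), .ofNat (nat_lit 339085), .ofNat (nat_lit 264337), .ofNat (nat_lit 339271), .ofNat (nat_lit 275016), .ofNat (nat_lit 349949)⟩, ⟨.negSucc (nat_lit 84722), .ofNat (nat_lit 72344), .negSucc (nat_lit 63383), .ofNat (nat_lit 93684), .negSucc (nat_lit 66879), .ofNat (nat_lit 82986), .negSucc (nat_lit 45522), .ofNat (nat_lit 104343)⟩⟩, [⟨nat_lit 0, nat_lit 100, nat_lit 99, nat_lit 67, nat_lit 670116036⟩, ⟨nat_lit 7, nat_lit 100, nat_lit 97, nat_lit 54, nat_lit 358620441⟩]⟩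
noncomputable def p040_l12 : Lf2 := ⟨nat_lit 0, nat_lit 10, [nat_lit 0, nat_lit 5, nat_lit 5, nat_lit 20], false, nat_lit 0, nat_lit 80, nat_lit 160, nat_lit 260, ⟨nat_lit 1000, nat_lit 0, nat_lit 0, nat_lit 0, nat_lit 0, nat_lit 0, nat_lit 0, nat_lit 0, nat_lit 0, nat_lit 0, nat_lit 0, nat_lit 0, nat_lit 0, nat_lit 0, nat_lit 0, nat_lit 0, false, false⟩,
 nat_lit 19052, nat_lit 0, nat_lit 0, nat_lit 0, nat_lit 7521, nat_lit 11602, nat_lit 2185, nat_lit 0, nat_lit 0, nat_lit 1192, nat_lit 0, nat_lit 0, nat_lit 0, nat_lit 0, nat_lit 0, nat_lit 0, nat_lit 0, nat_lit 0, [],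
 ⟨p040_k4, nat_lit 0, nat_lit 0, nat_lit 335, nat_lit 0, nat_lit 221878, [nat_lit 4688000000, nat_lit 6250000000, nat_lit 9842000000], [], [nat_lit 20529416550, nat_lit 21096153556, nat_lit 19279335420, nat_lit 19828877754, nat_lit 16360869551, nat_lit 16965881106, nat_lit 17518597981, nat_lit 16144672773], nat_lit 1271250, nat_lit 1271250, nat_lit 279600, nat_lit 490000, nat_lit 0, nat_lit 490000, [nat_lit 1100000, nat_lit 1442500, nat_lit 1271250], [nat_lit 11, nat_lit 40, nat_lit 20, nat_lit 80, nat_lit 1, nat_lit 345, nat_lit 125, nat_lit 10]⟩, ⟨p040_k4, nat_lit 0, nat_lit 0, nat_lit 191, nat_lit 0, nat_lit 221878, [nat_lit 4688000000, nat_lit 6250000000, nat_lit 9842000000], [], [nat_lit 16758796064, nat_lit 17782810591, nat_lit 14727338756, nat_lit 15716955088, nat_lit 21932532178, nat_lit 22703707796, nat_lit 19745089366, nat_lit 20490458226], nat_lit 1271250, nat_lit 1271250, nat_lit 279600, nat_lit 490000,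 nat_lit 1100001, nat_lit 1956250, [nat_lit 1100000, nat_lit 1442500, nat_lit 1271250], [nat_lit 11, nat_lit 40, nat_lit 20, nat_lit 80, nat_lit 1, nat_lit 401, nat_lit 175, nat_lit 11]⟩,
 zbF0, [⟨nat_lit 0, nat_lit 100, nat_lit 100, nat_lit 75, nat_lit 1167080592⟩, ⟨nat_lit 7, nat_lit 100, nat_lit 94, nat_lit 53, nat_lit 940527575⟩]⟩
noncomputable def p040_l13 : Lf2 := ⟨nat_lit 0, nat_lit 10, [nat_lit 0, nat_lit 5, nat_lit 5, nat_lit 20], true, nat_lit 0, nat_lit 80, nat_lit 0, nat_lit 288, ⟨nat_lit 0, nat_lit 0, nat_lit 1000, nat_lit 6, nat_lit 118, nat_lit 0, nat_lit 18, nat_lit 0, nat_lit 150, nat_lit 218, nat_lit 132017, nat_lit 304, nat_lit 61620172, nat_lit 0, nat_lit 0, nat_lit 1397453, false, false⟩,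
 nat_lit 0, nat_lit 7519, nat_lit 0, nat_lit 0, nat_lit 4376, nat_lit 0, nat_lit 0, nat_lit 0, nat_lit 0, nat_lit 0, nat_lit 0, nat_lit 0, nat_lit 0, nat_lit 15980324789683, nat_lit 87, nat_lit 400000, nat_lit 0, nat_lit 0, [(nat_lit 9, [(nat_lit 5, nat_lit 1000)])],
 ⟨p040_k3, nat_lit 0, nat_lit 0, nat_lit 242, nat_lit 0, nat_lit 36037, [nat_lit 2918400000, nat_lit 1608666667, nat_lit 9200000], [], [nat_lit 15213638576, nat_lit 16588797632, nat_lit 14477508112, nat_lit 15771257920, nat_lit 13037717488, nat_lit 14159983808, nat_lit 12658568736, nat_lit 13740407680], nat_lit 1271250, nat_lit 1271250, nat_lit 230001, nat_lit 490000, nat_lit 0, nat_lit 490000, [nat_lit 1100000, nat_lit 1442500, nat_lit 1271250], [nat_lit 11, nat_lit 40, nat_lit 20, nat_lit 80, nat_lit 1, nat_lit 345, nat_lit 125, nat_lit 10]⟩, C1.Rw.none,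
 ⟨nat_lit 5477, nat_lit 5917, ⟨.ofNat (nat_lit 228543), .ofNat (nat_lit 307076), .ofNat (nat_lit 271221), .ofNat (nat_lit 349755), .ofNat (nat_lit 242980), .ofNat (nat_lit 317913), .ofNat (nat_lit 285695), .ofNat (nat_lit 360628)⟩, ⟨.negSucc (nat_lit 84722), .ofNat (nat_lit 72344), .negSucc (nat_lit 63383), .ofNat (nat_lit 93684), .negSucc (nat_lit 66879), .ofNat (nat_lit 82986), .negSucc (nat_lit 45522), .ofNat (nat_lit 104343)⟩⟩, [⟨nat_lit 0, nat_lit 100, nat_lit 100, nat_lit 80, nat_lit 209776882⟩]⟩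
noncomputable def p040_l14 : Lf2 := ⟨nat_lit 0, nat_lit 10, [nat_lit 0, nat_lit 5, nat_lit 5, nat_lit 20], false, nat_lit 0, nat_lit 40, nat_lit 0, nat_lit 288, ⟨nat_lit 0, nat_lit 0, nat_lit 1000, nat_lit 6, nat_lit 161, nat_lit 0, nat_lit 2, nat_lit 0, nat_lit 1350, nat_lit 206, nat_lit 38425, nat_lit 263, nat_lit 57621651, nat_lit 0, nat_lit 0, nat_lit 2024592, false, false⟩,
 nat_lit 0, nat_lit 7085, nat_lit 0, nat_lit 0, nat_lit 4124, nat_lit 0, nat_lit 0, nat_lit 0, nat_lit 0, nat_lit 0, nat_lit 0, nat_lit 0, nat_lit 0, nat_lit 0, nat_lit 166, nat_lit 853600, nat_lit 0, nat_lit 0, [(nat_lit 9, [(nat_lit 5, nat_lit 244), (nat_lit 6, nat_lit 756)])],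
 ⟨p040_k3, nat_lit 0, nat_lit 0, nat_lit 230, nat_lit 0, nat_lit 131452, [nat_lit 3858227201, nat_lit 2963882667, nat_lit 156485333], [], [nat_lit 12320012861, nat_lit 12969062137, nat_lit 13490078930, nat_lit 14142396218, nat_lit 11489098610, nat_lit 12042268914, nat_lit 12831058338, nat_lit 13463981146], nat_lit 1271250, nat_lit 1271250, nat_lit 490000, nat_lit 1100001, nat_lit 0, nat_lit 230001, [nat_lit 1100000, nat_lit 1442500, nat_lit 1271250], [nat_lit 11, nat_lit 40, nat_lit 20, nat_lit 80, nat_lit 1, nat_lit 345, nat_lit 125, nat_lit 10]⟩, ⟨p040_k5, nat_lit 0, nat_lit 0, nat_lit 354, nat_lit 0, nat_lit 147761, [nat_lit 0, nat_lit 0, nat_lit 0], [], [nat_lit 0, nat_lit 0, nat_lit 0, nat_lit 0, nat_lit 0, nat_lit 0, nat_lit 0, nat_lit 0], nat_lit 1271250, nat_lit 1271250, nat_lit 490000, nat_lit 1100001, nat_lit 0, nat_lit 2034000, [nat_lit 1100000, nat_lit 1442500, nat_lit 1271250], [nat_lit 48, nat_lit 40,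 nat_lit 20, nat_lit 80, nat_lit 12, nat_lit 428, nat_lit 200, nat_lit 11]⟩,
 ⟨nat_lit 5700, nat_lit 5917, ⟨.ofNat (nat_lit 307076), .ofNat (nat_lit 464143), .ofNat (nat_lit 339085), .ofNat (nat_lit 496151), .ofNat (nat_lit 312525), .ofNat (nat_lit 465963), .ofNat (nat_lit 344538), .ofNat (nat_lit 497975)⟩, ⟨.negSucc (nat_lit 84722), .negSucc (nat_lit 6188), .negSucc (nat_lit 63383), .ofNat (nat_lit 15150), .negSucc (nat_lit 75673), .ofNat (nat_lit 1045), .negSucc (nat_lit 54331), .ofNat (nat_lit 22387)⟩⟩, []⟩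
noncomputable def p040_l15 : Lf2 := ⟨nat_lit 0, nat_lit 10, [nat_lit 0, nat_lit 5, nat_lit 5, nat_lit 20], false, nat_lit 0, nat_lit 40, nat_lit 0, nat_lit 288, ⟨nat_lit 0, nat_lit 0, nat_lit 1000, nat_lit 6, nat_lit 146, nat_lit 0, nat_lit 3, nat_lit 0, nat_lit 817, nat_lit 208, nat_lit 198017, nat_lit 324, nat_lit 59168691, nat_lit 0, nat_lit 0, nat_lit 1803361, false, false⟩,
 nat_lit 0, nat_lit 6692, nat_lit 0, nat_lit 0, nat_lit 4075, nat_lit 0, nat_lit 0, nat_lit 0, nat_lit 0, nat_lit 0, nat_lit 0, nat_lit 0, nat_lit 0, nat_lit 0, nat_lit 158, nat_lit 803800, nat_lit 0, nat_lit 0, [(nat_lit 9, [(nat_lit 5, nat_lit 327), (nat_lit 6, nat_lit 673)])],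
 ⟨p040_k4, nat_lit 0, nat_lit 0, nat_lit 224, nat_lit 0, nat_lit 129429, [nat_lit 3765817601, nat_lit 2828561334, nat_lit 154482666], [], [nat_lit 13177421741, nat_lit 13822913666, nat_lit 13336541192, nat_lit 14006101302, nat_lit 12346376805, nat_lit 12900473152, nat_lit 12657490827, nat_lit 13327681302], nat_lit 1271250, nat_lit 1271250, nat_lit 490000, nat_lit 780000, nat_lit 0, nat_lit 230001, [nat_lit 1100000, nat_lit 1442500, nat_lit 1271250], [nat_lit 11, nat_lit 40, nat_lit 20, nat_lit 80, nat_lit 1, nat_lit 345, nat_lit 125, nat_lit 10]⟩, ⟨p040_k5, nat_lit 0, nat_lit 0, nat_lit 355, nat_lit 0, nat_lit 153738, [nat_lit 0, nat_lit 0, nat_lit 0], [], [nat_lit 0, nat_lit 0, nat_lit 0, nat_lit 0, nat_lit 0, nat_lit 0, nat_lit 0, nat_lit 0], nat_lit 1271250, nat_lit 1271250, nat_lit 490000, nat_lit 780000, nat_lit 0, nat_lit 2034000, [nat_lit 1100000, nat_lit 1442500, nat_lit 1271250], [nat_lit 48, nat_lit 40, nat_lit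 20, nat_lit 80, nat_lit 12, nat_lit 401, nat_lit 175, nat_lit 11]⟩,
 ⟨nat_lit 5477, nat_lit 5701, ⟨.ofNat (nat_lit 312525), .ofNat (nat_lit 389244), .ofNat (nat_lit 333867), .ofNat (nat_lit 410586), .ofNat (nat_lit 317913), .ofNat (nat_lit 392847), .ofNat (nat_lit 339271), .ofNat (nat_lit 414204)⟩, ⟨.negSucc (nat_lit 75673), .ofNat (nat_lit 1045), .negSucc (nat_lit 54331), .ofNat (nat_lit 22387), .negSucc (nat_lit 66879), .ofNat (nat_lit 8053), .negSucc (nat_lit 45522), .ofNat (nat_lit 29410)⟩⟩, []⟩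
noncomputable def p040_l16 : Lf2 := ⟨nat_lit 0, nat_lit 10, [nat_lit 0, nat_lit 5, nat_lit 5, nat_lit 20], false, nat_lit 0, nat_lit 40, nat_lit 0, nat_lit 268, ⟨nat_lit 243, nat_lit 0, nat_lit 757, nat_lit 6, nat_lit 153, nat_lit 0, nat_lit 3, nat_lit 0, nat_lit 817, nat_lit 208, nat_lit 216600, nat_lit 329, nat_lit 58493019, nat_lit 0, nat_lit 0, nat_lit 1902926, false, false⟩,
 nat_lit 5275, nat_lit 2531, nat_lit 0, nat_lit 0, nat_lit 4754, nat_lit 3070, nat_lit 540, nat_lit 0, nat_lit 0, nat_lit 0, nat_lit 0, nat_lit 0, nat_lit 0, nat_lit 0, nat_lit 60, nat_lit 757000, nat_lit 0, nat_lit 0, [(nat_lit 9, [(nat_lit 6, nat_lit 757)])],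
 ⟨p040_k4, nat_lit 0, nat_lit 0, nat_lit 296, nat_lit 0, nat_lit 175796, [nat_lit 2930067200, nat_lit 2394249334, nat_lit 139589066], [], [nat_lit 13824501328, nat_lit 14088838923, nat_lit 13895065632, nat_lit 14240300613, nat_lit 12931197154, nat_lit 13156985205, nat_lit 12979816214, nat_lit 13314698986], nat_lit 1271250, nat_lit 1271250, nat_lit 490000, nat_lit 780000, nat_lit 0, nat_lit 230001, [nat_lit 1100000, nat_lit 1442500, nat_lit 1271250], [nat_lit 11, nat_lit 40, nat_lit 20, nat_lit 80, nat_lit 1, nat_lit 345, nat_lit 125, nat_lit 10]⟩, ⟨p040_k3, nat_lit 0, nat_lit 0, nat_lit 300, nat_lit 0, nat_lit 185765, [nat_lit 1139184000, nat_lit 1518750000, nat_lit 2391606000], [], [nat_lit 10952466056, nat_lit 9735046811, nat_lit 8046002008, nat_lit 8295629599, nat_lit 8542565271, nat_lit 7495729501, nat_lit 9612059603, nat_lit 8578706123], nat_lit 1271250, nat_lit 1271250, nat_lit 490000, nat_lit 780000, nat_lit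 0, nat_lit 1892750, [nat_lit 1100000, nat_lit 1442500, nat_lit 1271250], [nat_lit 11, nat_lit 40, nat_lit 20, nat_lit 80, nat_lit 1, nat_lit 401, nat_lit 175, nat_lit 12]⟩,
 ⟨nat_lit 5590, nat_lit 5701, ⟨.ofNat (nat_lit 333867), .ofNat (nat_lit 410586), .ofNat (nat_lit 349874), .ofNat (nat_lit 426593), .ofNat (nat_lit 336574), .ofNat (nat_lit 412397), .ofNat (nat_lit 352585), .ofNat (nat_lit 428408)⟩, ⟨.negSucc (nat_lit 75673), .ofNat (nat_lit 1045), .negSucc (nat_lit 54331), .ofNat (nat_lit 22387), .negSucc (nat_lit 71245), .ofNat (nat_lit 4577), .negSucc (nat_lit 49897), .ofNat (nat_lit 25924)⟩⟩, []⟩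
noncomputable def p040_l17 : Lf2 := ⟨nat_lit 0, nat_lit 10, [nat_lit 0, nat_lit 5, nat_lit 5, nat_lit 20], false, nat_lit 0, nat_lit 40, nat_lit 0, nat_lit 268, ⟨nat_lit 319, nat_lit 0, nat_lit 681, nat_lit 6, nat_lit 155, nat_lit 0, nat_lit 3, nat_lit 0, nat_lit 600, nat_lit 209, nat_lit 224267, nat_lit 331, nat_lit 58300507, nat_lit 0, nat_lit 0, nat_lit 1930440, false, false⟩,
 nat_lit 7007, nat_lit 1327, nat_lit 0, nat_lit 0, nat_lit 5189, nat_lit 4078, nat_lit 560, nat_lit 0, nat_lit 0, nat_lit 0, nat_lit 0, nat_lit 0, nat_lit 0, nat_lit 0, nat_lit 19, nat_lit 681000, nat_lit 0, nat_lit 0, [(nat_lit 9, [(nat_lit 6, nat_lit 681)])],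
 ⟨p040_k6, nat_lit 0, nat_lit 0, nat_lit 314, nat_lit 0, nat_lit 221331, [nat_lit 2546937601, nat_lit 2081828001, nat_lit 118679199], [], [nat_lit 15243982199, nat_lit 15530873087, nat_lit 15413515520, nat_lit 15714557071, nat_lit 14307751943, nat_lit 14615159327, nat_lit 15291393486, nat_lit 14813434223], nat_lit 1271250, nat_lit 1271250, nat_lit 490000, nat_lit 780000, nat_lit 0, nat_lit 230001, [nat_lit 1100000, nat_lit 1442500, nat_lit 1271250], [nat_lit 11, nat_lit 40, nat_lit 20, nat_lit 80, nat_lit 1, nat_lit 345, nat_lit 125, nat_lit 10]⟩, ⟨p040_k3, nat_lit 0, nat_lit 0, nat_lit 321, nat_lit 0, nat_lit 240242, [nat_lit 1495472000, nat_lit 1993750000, nat_lit 3139598000], [], [nat_lit 14425529784, nat_lit 12269336220, nat_lit 10524999336, nat_lit 10965015452, nat_lit 11173916240, nat_lit 9319846200, nat_lit 12590174888, nat_lit 10759983577], nat_lit 1271250, nat_lit 1271250, nat_lit 490000, nat_lit 780000, nat_lit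 0, nat_lit 1892750, [nat_lit 1100000, nat_lit 1442500, nat_lit 1271250], [nat_lit 11, nat_lit 40, nat_lit 20, nat_lit 80, nat_lit 1, nat_lit 401, nat_lit 175, nat_lit 12]⟩,
 ⟨nat_lit 5477, nat_lit 5591, ⟨.ofNat (nat_lit 336574), .ofNat (nat_lit 412397), .ofNat (nat_lit 357922), .ofNat (nat_lit 433745), .ofNat (nat_lit 339271), .ofNat (nat_lit 414204), .ofNat (nat_lit 360628), .ofNat (nat_lit 435560)⟩, ⟨.negSucc (nat_lit 71245), .ofNat (nat_lit 4577), .negSucc (nat_lit 49897), .ofNat (nat_lit 25924), .negSucc (nat_lit 66879), .ofNat (nat_lit 8053), .negSucc (nat_lit 45522), .ofNat (nat_lit 29410)⟩⟩, []⟩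
noncomputable def p040_l18 : Lf2 := ⟨nat_lit 0, nat_lit 10, [nat_lit 0, nat_lit 5, nat_lit 5, nat_lit 20], false, nat_lit 0, nat_lit 40, nat_lit 0, nat_lit 288, ⟨nat_lit 236, nat_lit 0, nat_lit 764, nat_lit 6, nat_lit 180, nat_lit 0, nat_lit 3, nat_lit 0, nat_lit 817, nat_lit 208, nat_lit 25395, nat_lit 254, nat_lit 55704447, nat_lit 0, nat_lit 0, nat_lit 2268218, false, false⟩,
 nat_lit 6352, nat_lit 1505, nat_lit 0, nat_lit 0, nat_lit 4785, nat_lit 3362, nat_lit 410, nat_lit 0, nat_lit 0, nat_lit 162, nat_lit 0, nat_lit 0, nat_lit 0, nat_lit 0, nat_lit 64, nat_lit 764000, nat_lit 0, nat_lit 0, [(nat_lit 9, [(nat_lit 6, nat_lit 764)])],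
 ⟨p040_k4, nat_lit 0, nat_lit 0, nat_lit 298, nat_lit 0, nat_lit 227349, [nat_lit 2968934400, nat_lit 2427498667, nat_lit 147778133], [], [nat_lit 14348548500, nat_lit 14829802883, nat_lit 14797434267, nat_lit 15446725677, nat_lit 13461415693, nat_lit 13891748690, nat_lit 13903206395, nat_lit 14499778227], nat_lit 1271250, nat_lit 1271250, nat_lit 780000, nat_lit 1100001, nat_lit 0, nat_lit 230001, [nat_lit 1100000, nat_lit 1442500, nat_lit 1271250], [nat_lit 11, nat_lit 40, nat_lit 20, nat_lit 80, nat_lit 1, nat_lit 345, nat_lit 125, nat_lit 10]⟩, ⟨p040_k5, nat_lit 0, nat_lit 0, nat_lit 378, nat_lit 0, nat_lit 270049, [nat_lit 1106368000, nat_lit 1475000000, nat_lit 2801792000], [], [nat_lit 12424520912, nat_lit 8869892716, nat_lit 8869286600, nat_lit 8554544868, nat_lit 8880029360, nat_lit 6317462063, nat_lit 10448193781, nat_lit 7449755082], nat_lit 1271250, nat_lit 1271250, nat_lit 780000, nat_lit 1100001, nat_lit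 0, nat_lit 2034000, [nat_lit 1100000, nat_lit 1442500, nat_lit 1271250], [nat_lit 48, nat_lit 40, nat_lit 20, nat_lit 80, nat_lit 12, nat_lit 428, nat_lit 200, nat_lit 11]⟩,
 ⟨nat_lit 5477, nat_lit 5701, ⟨.ofNat (nat_lit 389244), .ofNat (nat_lit 465963), .ofNat (nat_lit 431928), .ofNat (nat_lit 508644), .ofNat (nat_lit 392847), .ofNat (nat_lit 467780), .ofNat (nat_lit 435561), .ofNat (nat_lit 510490)⟩, ⟨.negSucc (nat_lit 75673), .ofNat (nat_lit 1045), .negSucc (nat_lit 54331), .ofNat (nat_lit 22387), .negSucc (nat_lit 66879), .ofNat (nat_lit 8053), .negSucc (nat_lit 45522), .ofNat (nat_lit 29410)⟩⟩, []⟩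
noncomputable def p040_l19 : Lf2 := ⟨nat_lit 0, nat_lit 10, [nat_lit 0, nat_lit 5, nat_lit 5, nat_lit 20], false, nat_lit 40, nat_lit 80, nat_lit 0, nat_lit 288, ⟨nat_lit 30, nat_lit 0, nat_lit 970, nat_lit 6, nat_lit 146, nat_lit 0, nat_lit 19, nat_lit 366, nat_lit 3267, nat_lit 229, nat_lit 198017, nat_lit 324, nat_lit 59137796, nat_lit 0, nat_lit 0, nat_lit 1808018, false, false⟩,
 nat_lit 819, nat_lit 6945, nat_lit 0, nat_lit 0, nat_lit 4519, nat_lit 433, nat_lit 0, nat_lit 0, nat_lit 0, nat_lit 7, nat_lit 0, nat_lit 0, nat_lit 0, nat_lit 0, nat_lit 159, nat_lit 875800, nat_lit 0, nat_lit 0, [(nat_lit 9, [(nat_lit 5, nat_lit 157), (nat_lit 6, nat_lit 813)])],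
 ⟨p040_k7, nat_lit 0, nat_lit 0, nat_lit 210, nat_lit 0, nat_lit 131452, [nat_lit 3986388000, nat_lit 1696535600, nat_lit 10848800], [], [nat_lit 11293792231, nat_lit 11862590147, nat_lit 11566606038, nat_lit 12272295645, nat_lit 10339275512, nat_lit 11026089781, nat_lit 10780977456, nat_lit 11464684794], nat_lit 1271250, nat_lit 1271250, nat_lit 490000, nat_lit 780000, nat_lit 230001, nat_lit 490000, [nat_lit 1100000, nat_lit 1785000, nat_lit 1271250], [nat_lit 29, nat_lit 40, nat_lit 20, nat_lit 80, nat_lit 17, nat_lit 345, nat_lit 125, nat_lit 10]⟩, ⟨p040_k8, nat_lit 0, nat_lit 0, nat_lit 360, nat_lit 0, nat_lit 147761, [nat_lit 140640000, nat_lit 239040000, nat_lit 356160000], [], [nat_lit 1639503080, nat_lit 1296087749, nat_lit 1181615972, nat_lit 1214163777, nat_lit 1274826312, nat_lit 981441447, nat_lit 1420726492, nat_lit 1131094437], nat_lit 1271250, nat_lit 1271250, nat_lit 490000, nat_lit 780000, nat_lit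 0, nat_lit 2034000, [nat_lit 1100000, nat_lit 1785000, nat_lit 1271250], [nat_lit 21, nat_lit 40, nat_lit 20, nat_lit 80, nat_lit 14, nat_lit 401, nat_lit 175, nat_lit 11]⟩,
 ⟨nat_lit 5700, nat_lit 5917, ⟨.ofNat (nat_lit 307076), .ofNat (nat_lit 385610), .ofNat (nat_lit 339085), .ofNat (nat_lit 417619), .ofNat (nat_lit 312525), .ofNat (nat_lit 389244), .ofNat (nat_lit 344538), .ofNat (nat_lit 421257)⟩, ⟨.negSucc (nat_lit 6188), .ofNat (nat_lit 72344), .ofNat (nat_lit 15150), .ofNat (nat_lit 93684), .ofNat (nat_lit 1045), .ofNat (nat_lit 77764), .ofNat (nat_lit 22387), .ofNat (nat_lit 99106)⟩⟩, []⟩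
noncomputable def p040_l20 : Lf2 := ⟨nat_lit 0, nat_lit 10, [nat_lit 0, nat_lit 5, nat_lit 5, nat_lit 20], false, nat_lit 40, nat_lit 80, nat_lit 0, nat_lit 288, ⟨nat_lit 291, nat_lit 0, nat_lit 709, nat_lit 6, nat_lit 150, nat_lit 709, nat_lit 21, nat_lit 709, nat_lit 4267, nat_lit 231, nat_lit 209067, nat_lit 327, nat_lit 58759731, nat_lit 0, nat_lit 0, nat_lit 1864190, false, false⟩,
 nat_lit 8035, nat_lit 814, nat_lit 0, nat_lit 0, nat_lit 5389, nat_lit 4253, nat_lit 700, nat_lit 0, nat_lit 0, nat_lit 156, nat_lit 0, nat_lit 0, nat_lit 0, nat_lit 0, nat_lit 0, nat_lit 283600, nat_lit 0, nat_lit 0, [(nat_lit 9, [(nat_lit 5, nat_lit 709)])],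
 ⟨p040_k9, nat_lit 0, nat_lit 0, nat_lit 283, nat_lit 0, nat_lit 227349, [nat_lit 2446425600, nat_lit 1396704400, nat_lit 1143420800], [], [nat_lit 13485311015, nat_lit 14099069954, nat_lit 13531675839, nat_lit 14181641652, nat_lit 12195130880, nat_lit 12859738088, nat_lit 12347835886, nat_lit 12977939448], nat_lit 1271250, nat_lit 1271250, nat_lit 490000, nat_lit 780000, nat_lit 230001, nat_lit 490000, [nat_lit 1100000, nat_lit 1785000, nat_lit 1271250], [nat_lit 29, nat_lit 40, nat_lit 20, nat_lit 80, nat_lit 17, nat_lit 345, nat_lit 125, nat_lit 10]⟩, ⟨p040_k8, nat_lit 0, nat_lit 0, nat_lit 409, nat_lit 0, nat_lit 270049, [nat_lit 1364208000, nat_lit 2318688000, nat_lit 3454752000], [], [nat_lit 15983791012, nat_lit 11486345584, nat_lit 11486345584, nat_lit 10729230796, nat_lit 12350968524, nat_lit 8508733472, nat_lit 13779773472, nat_lit 9986686087], nat_lit 1271250, nat_lit 1271250, nat_lit 490000, nat_lit 780000,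 nat_lit 0, nat_lit 2034000, [nat_lit 1100000, nat_lit 1785000, nat_lit 1271250], [nat_lit 21, nat_lit 40, nat_lit 20, nat_lit 80, nat_lit 14, nat_lit 401, nat_lit 175, nat_lit 11]⟩,
 ⟨nat_lit 5477, nat_lit 5701, ⟨.ofNat (nat_lit 312525), .ofNat (nat_lit 389244), .ofNat (nat_lit 355209), .ofNat (nat_lit 431928), .ofNat (nat_lit 317913), .ofNat (nat_lit 392847), .ofNat (nat_lit 360628), .ofNat (nat_lit 435561)⟩, ⟨.ofNat (nat_lit 1045), .ofNat (nat_lit 77764), .ofNat (nat_lit 22387), .ofNat (nat_lit 99106), .ofNat (nat_lit 8053), .ofNat (nat_lit 82986), .ofNat (nat_lit 29410), .ofNat (nat_lit 104343)⟩⟩, []⟩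
noncomputable def p040_l21 : Lf2 := ⟨nat_lit 0, nat_lit 10, [nat_lit 0, nat_lit 5, nat_lit 5, nat_lit 20], false, nat_lit 40, nat_lit 80, nat_lit 0, nat_lit 288, ⟨nat_lit 374, nat_lit 0, nat_lit 626, nat_lit 6, nat_lit 180, nat_lit 626, nat_lit 20, nat_lit 626, nat_lit 3750, nat_lit 230, nat_lit 25370, nat_lit 254, nat_lit 55761452, nat_lit 0, nat_lit 0, nat_lit 2261417, false, false⟩,
 nat_lit 9179, nat_lit 223, nat_lit 0, nat_lit 0, nat_lit 5472, nat_lit 4859, nat_lit 0, nat_lit 0, nat_lit 0, nat_lit 226, nat_lit 0, nat_lit 0, nat_lit 0, nat_lit 0, nat_lit 0, nat_lit 626000, nat_lit 0, nat_lit 0, [(nat_lit 9, [(nat_lit 6, nat_lit 626)])],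
 ⟨p040_k3, nat_lit 0, nat_lit 0, nat_lit 209, nat_lit 0, nat_lit 240242, [nat_lit 2440409600, nat_lit 2069154667, nat_lit 402336533], [], [nat_lit 15971210773, nat_lit 17143511717, nat_lit 16551547461, nat_lit 17692090917, nat_lit 14704535765, nat_lit 15842734293, nat_lit 15291058213, nat_lit 16357356245], nat_lit 1271250, nat_lit 1271250, nat_lit 780000, nat_lit 1100001, nat_lit 230001, nat_lit 490000, [nat_lit 1100000, nat_lit 1442500, nat_lit 1271250], [nat_lit 11, nat_lit 40, nat_lit 20, nat_lit 80, nat_lit 1, nat_lit 373, nat_lit 150, nat_lit 11]⟩, ⟨p040_k5, nat_lit 0, nat_lit 0, nat_lit 378, nat_lit 0, nat_lit 270049, [nat_lit 1753312000, nat_lit 2337500000, nat_lit 4440128000], [], [nat_lit 18975155048, nat_lit 14538511444, nat_lit 13836879164, nat_lit 14108849352, nat_lit 14302664984, nat_lit 10714032389, nat_lit 16611219798, nat_lit 12277664284], nat_lit 1271250, nat_lit 1271250, nat_lit 780000, nat_lit 1100001,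 nat_lit 0, nat_lit 2034000, [nat_lit 1100000, nat_lit 1442500, nat_lit 1271250], [nat_lit 48, nat_lit 40, nat_lit 20, nat_lit 80, nat_lit 12, nat_lit 428, nat_lit 200, nat_lit 11]⟩,
 ⟨nat_lit 5477, nat_lit 5917, ⟨.ofNat (nat_lit 385610), .ofNat (nat_lit 464143), .ofNat (nat_lit 428288), .ofNat (nat_lit 506809), .ofNat (nat_lit 392847), .ofNat (nat_lit 467780), .ofNat (nat_lit 435561), .ofNat (nat_lit 510480)⟩, ⟨.negSucc (nat_lit 6188), .ofNat (nat_lit 72344), .ofNat (nat_lit 15150), .ofNat (nat_lit 93684), .ofNat (nat_lit 8053), .ofNat (nat_lit 82986), .ofNat (nat_lit 29410), .ofNat (nat_lit 104343)⟩⟩, []⟩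
noncomputable def p040_l22 : Lf2 := ⟨nat_lit 0, nat_lit 10, [nat_lit 0, nat_lit 5, nat_lit 5, nat_lit 20], true, nat_lit 80, nat_lit 160, nat_lit 0, nat_lit 288, ⟨nat_lit 0, nat_lit 0, nat_lit 1000, nat_lit 6, nat_lit 108, nat_lit 1000, nat_lit 66, nat_lit 1000, nat_lit 41667, nat_lit 265, nat_lit 109350, nat_lit 296, nat_lit 59803438, nat_lit 0, nat_lit 0, nat_lit 2150783, false, false⟩,
 nat_lit 0, nat_lit 8533, nat_lit 0, nat_lit 0, nat_lit 4966, nat_lit 0, nat_lit 0, nat_lit 0, nat_lit 0, nat_lit 0, nat_lit 0, nat_lit 0, nat_lit 0, nat_lit 0, nat_lit 163, nat_lit 834400, nat_lit 0, nat_lit 0, [(nat_lit 9, [(nat_lit 5, nat_lit 276), (nat_lit 6, nat_lit 724)])],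
 ⟨p040_k3, nat_lit 0, nat_lit 0, nat_lit 218, nat_lit 0, nat_lit 136769, [nat_lit 3823948801, nat_lit 2913397334, nat_lit 158074666], [], [nat_lit 11059386024, nat_lit 12473032788, nat_lit 9688257462, nat_lit 11043217586, nat_lit 11737923010, nat_lit 13092392752, nat_lit 10458748858, nat_lit 11683597602], nat_lit 1271250, nat_lit 1271250, nat_lit 134400, nat_lit 490000, nat_lit 490000, nat_lit 1100001, [nat_lit 1100000, nat_lit 1442500, nat_lit 1271250], [nat_lit 11, nat_lit 40, nat_lit 20, nat_lit 80, nat_lit 1, nat_lit 373, nat_lit 150, nat_lit 11]⟩, C1.Rw.none,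
 ⟨nat_lit 5477, nat_lit 5917, ⟨.ofNat (nat_lit 197129), .ofNat (nat_lit 307076), .ofNat (nat_lit 218469), .ofNat (nat_lit 328416), .ofNat (nat_lit 213007), .ofNat (nat_lit 317913), .ofNat (nat_lit 234364), .ofNat (nat_lit 339271)⟩, ⟨.ofNat (nat_lit 72344), .ofNat (nat_lit 229411), .ofNat (nat_lit 93684), .ofNat (nat_lit 250751), .ofNat (nat_lit 82986), .ofNat (nat_lit 232852), .ofNat (nat_lit 104343), .ofNat (nat_lit 254209)⟩⟩, [⟨nat_lit 0, nat_lit 100, nat_lit 96, nat_lit 69, nat_lit 239467319⟩]⟩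
noncomputable def p040_l23 : Lf2 := ⟨nat_lit 0, nat_lit 10, [nat_lit 0, nat_lit 5, nat_lit 5, nat_lit 20], false, nat_lit 80, nat_lit 160, nat_lit 0, nat_lit 268, ⟨nat_lit 140, nat_lit 0, nat_lit 860, nat_lit 6, nat_lit 121, nat_lit 860, nat_lit 66, nat_lit 860, nat_lit 41667, nat_lit 265, nat_lit 138017, nat_lit 306, nat_lit 58721609, nat_lit 0, nat_lit 0, nat_lit 2356185, false, false⟩,
 nat_lit 8363, nat_lit 0, nat_lit 0, nat_lit 0, nat_lit 4868, nat_lit 2478, nat_lit 62, nat_lit 0, nat_lit 0, nat_lit 33, nat_lit 0, nat_lit 0, nat_lit 0, nat_lit 3711182206054, nat_lit 116, nat_lit 860000, nat_lit 0, nat_lit 0, [(nat_lit 9, [(nat_lit 6, nat_lit 860)])],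
 ⟨p040_k3, nat_lit 0, nat_lit 0, nat_lit 282, nat_lit 0, nat_lit 240242, [nat_lit 3456256001, nat_lit 2826346667, nat_lit 180085333], [], [nat_lit 12012169918, nat_lit 13092805643, nat_lit 11467800429, nat_lit 12351808493, nat_lit 12546740085, nat_lit 13682382887, nat_lit 11992342501, nat_lit 12859859126], nat_lit 1271250, nat_lit 1271250, nat_lit 205650, nat_lit 490000, nat_lit 490000, nat_lit 1100001, [nat_lit 1100000, nat_lit 1442500, nat_lit 1271250], [nat_lit 11, nat_lit 40, nat_lit 20, nat_lit 80, nat_lit 1, nat_lit 373, nat_lit 150, nat_lit 11]⟩, ⟨p040_k3, nat_lit 0, nat_lit 0, nat_lit 351, nat_lit 0, nat_lit 240242, [nat_lit 656320000, nat_lit 875000000, nat_lit 1377880000], [], [nat_lit 4950352523, nat_lit 5353877315, nat_lit 4188880398, nat_lit 4449334615, nat_lit 3787547091, nat_lit 3884765814, nat_lit 4267990322, nat_lit 3141363162], nat_lit 1271250, nat_lit 1271250, nat_lit 205650, nat_lit 490000, nat_lit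 0, nat_lit 1892750, [nat_lit 1100000, nat_lit 1442500, nat_lit 1271250], [nat_lit 11, nat_lit 40, nat_lit 20, nat_lit 80, nat_lit 1, nat_lit 401, nat_lit 175, nat_lit 12]⟩,
 ⟨nat_lit 5477, nat_lit 5917, ⟨.ofNat (nat_lit 242029), .ofNat (nat_lit 328416), .ofNat (nat_lit 263368), .ofNat (nat_lit 349755), .ofNat (nat_lit 256844), .ofNat (nat_lit 339271), .ofNat (nat_lit 278201), .ofNat (nat_lit 360628)⟩, ⟨.ofNat (nat_lit 72344), .ofNat (nat_lit 229411), .ofNat (nat_lit 93684), .ofNat (nat_lit 250751), .ofNat (nat_lit 82986), .ofNat (nat_lit 232852), .ofNat (nat_lit 104343), .ofNat (nat_lit 254209)⟩⟩, [⟨nat_lit 0, nat_lit 100, nat_lit 100, nat_lit 80, nat_lit 384565613⟩]⟩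
noncomputable def p040_l24 : Lf2 := ⟨nat_lit 0, nat_lit 10, [nat_lit 0, nat_lit 5, nat_lit 5, nat_lit 20], false, nat_lit 80, nat_lit 160, nat_lit 0, nat_lit 288, ⟨nat_lit 0, nat_lit 0, nat_lit 1000, nat_lit 6, nat_lit 149, nat_lit 1000, nat_lit 66, nat_lit 1000, nat_lit 41667, nat_lit 265, nat_lit 209067, nat_lit 327, nat_lit 56231231, nat_lit 0, nat_lit 0, nat_lit 2765887, false, false⟩,
 nat_lit 0, nat_lit 7799, nat_lit 0, nat_lit 0, nat_lit 4539, nat_lit 0, nat_lit 0, nat_lit 0, nat_lit 0, nat_lit 0, nat_lit 0, nat_lit 0, nat_lit 0, nat_lit 28261893695443, nat_lit 146, nat_lit 734800, nat_lit 0, nat_lit 0, [(nat_lit 9, [(nat_lit 5, nat_lit 442), (nat_lit 6, nat_lit 558)])],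
 ⟨p040_k3, nat_lit 0, nat_lit 0, nat_lit 198, nat_lit 0, nat_lit 240242, [nat_lit 3623129600, nat_lit 2622754667, nat_lit 126069333], [], [nat_lit 10624995387, nat_lit 11724306953, nat_lit 10808630267, nat_lit 11854579353, nat_lit 11453246893, nat_lit 12456512751, nat_lit 11606196265, nat_lit 12725570335], nat_lit 1271250, nat_lit 1271250, nat_lit 490000, nat_lit 780000, nat_lit 490000, nat_lit 1100001, [nat_lit 1100000, nat_lit 1442500, nat_lit 1271250], [nat_lit 11, nat_lit 40, nat_lit 20, nat_lit 80, nat_lit 1, nat_lit 373, nat_lit 150, nat_lit 11]⟩, ⟨p040_k5, nat_lit 0, nat_lit 0, nat_lit 396, nat_lit 0, nat_lit 270049, [nat_lit 0, nat_lit 0, nat_lit 0], [], [nat_lit 0, nat_lit 0, nat_lit 0, nat_lit 0, nat_lit 0, nat_lit 0, nat_lit 0, nat_lit 0], nat_lit 1271250, nat_lit 1271250, nat_lit 490000, nat_lit 780000, nat_lit 0, nat_lit 2034000, [nat_lit 1100000, nat_lit 1442500, nat_lit 1271250], [nat_lit 48, nat_lit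 40, nat_lit 20, nat_lit 80, nat_lit 12, nat_lit 401, nat_lit 175, nat_lit 11]⟩,
 ⟨nat_lit 5477, nat_lit 5917, ⟨.ofNat (nat_lit 307076), .ofNat (nat_lit 385610), .ofNat (nat_lit 349755), .ofNat (nat_lit 428288), .ofNat (nat_lit 317913), .ofNat (nat_lit 392847), .ofNat (nat_lit 360628), .ofNat (nat_lit 435561)⟩, ⟨.ofNat (nat_lit 72344), .ofNat (nat_lit 229411), .ofNat (nat_lit 93684), .ofNat (nat_lit 250751), .ofNat (nat_lit 82986), .ofNat (nat_lit 232852), .ofNat (nat_lit 104343), .ofNat (nat_lit 254209)⟩⟩, []⟩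
noncomputable def p040_l25 : Lf2 := ⟨nat_lit 0, nat_lit 10, [nat_lit 0, nat_lit 5, nat_lit 5, nat_lit 20], false, nat_lit 80, nat_lit 160, nat_lit 0, nat_lit 288, ⟨nat_lit 798, nat_lit 0, nat_lit 202, nat_lit 6, nat_lit 180, nat_lit 202, nat_lit 66, nat_lit 202, nat_lit 41667, nat_lit 265, nat_lit 25370, nat_lit 254, nat_lit 53283709, nat_lit 0, nat_lit 0, nat_lit 3159852, false, false⟩,
 nat_lit 19585, nat_lit 7252, nat_lit 0, nat_lit 0, nat_lit 15621, nat_lit 10368, nat_lit 0, nat_lit 0, nat_lit 0, nat_lit 543, nat_lit 0, nat_lit 0, nat_lit 0, nat_lit 0, nat_lit 0, nat_lit 202000, nat_lit 0, nat_lit 0, [(nat_lit 9, [(nat_lit 6, nat_lit 202)])],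
 ⟨p040_k3, nat_lit 0, nat_lit 0, nat_lit 178, nat_lit 0, nat_lit 240242, [nat_lit 3962739200, nat_lit 4900909334, nat_lit 6771761600], [], [nat_lit 12310437126, nat_lit 14960180936, nat_lit 12367779152, nat_lit 14812138724, nat_lit 10671150514, nat_lit 12964816244, nat_lit 10548308718, nat_lit 12658430816], nat_lit 1271250, nat_lit 1271250, nat_lit 780000, nat_lit 1100001, nat_lit 490000, nat_lit 1100001, [nat_lit 1100000, nat_lit 1442500, nat_lit 1271250], [nat_lit 11, nat_lit 40, nat_lit 20, nat_lit 80, nat_lit 1, nat_lit 373, nat_lit 150, nat_lit 11]⟩, ⟨p040_k5, nat_lit 0, nat_lit 0, nat_lit 378, nat_lit 0, nat_lit 270049, [nat_lit 3741024000, nat_lit 4987500000, nat_lit 9473856000], [], [nat_lit 40487706696, nat_lit 30438106938, nat_lit 29523795528, nat_lit 29521281354, nat_lit 30517254168, nat_lit 22277375068, nat_lit 35443145156, nat_lit 26196324087], nat_lit 1271250, nat_lit 1271250, nat_lit 780000, nat_lit 1100001,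 nat_lit 0, nat_lit 2034000, [nat_lit 1100000, nat_lit 1442500, nat_lit 1271250], [nat_lit 48, nat_lit 40, nat_lit 20, nat_lit 80, nat_lit 12, nat_lit 428, nat_lit 200, nat_lit 11]⟩,
 ⟨nat_lit 5477, nat_lit 5917, ⟨.ofNat (nat_lit 385610), .ofNat (nat_lit 464143), .ofNat (nat_lit 428288), .ofNat (nat_lit 506809), .ofNat (nat_lit 392847), .ofNat (nat_lit 467780), .ofNat (nat_lit 435561), .ofNat (nat_lit 510480)⟩, ⟨.ofNat (nat_lit 72344), .ofNat (nat_lit 229411), .ofNat (nat_lit 93684), .ofNat (nat_lit 250751), .ofNat (nat_lit 82986), .ofNat (nat_lit 232852), .ofNat (nat_lit 104343), .ofNat (nat_lit 254209)⟩⟩, []⟩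
noncomputable def b_VL_600_600_5_94 : St := ⟨true, nat_lit 1, nat_lit 1, nat_lit 1, nat_lit 40, nat_lit 240, nat_lit 280, nat_lit 240, nat_lit 280, nat_lit 16, nat_lit 160, nat_lit 20, nat_lit 40, nat_lit 0, nat_lit 160, nat_lit 0, nat_lit 288, nat_lit 40, nat_lit 68, nat_lit 0, nat_lit 0, nat_lit 0, nat_lit 0⟩
theorem d_VL_600_600_5_94 (h : EB TB.env) : Dead b_VL_600_600_5_94 := chkB_sound0 h (T :=
(.spl (nat_lit 0) (nat_lit 260)
(.ord (.spl (nat_lit 6) (nat_lit 44)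
(.spl (nat_lit 1) (nat_lit 250)
(.leaf p040_l0)
(.ord (.trZ (nat_lit 0) (nat_lit 100) (nat_lit 100) (nat_lit 50) (nat_lit 24) (.trX (nat_lit 19) (nat_lit 100) (nat_lit 95) (nat_lit 62) (nat_lit 280) (.spl (nat_lit 4) (nat_lit 80)
(.spl (nat_lit 0) (nat_lit 255)
(.ord (.leaf p040_l1))
(.leaf p040_l2))
(.leaf p040_l3))))))
(.leaf p040_l4)))
(.trZ (nat_lit 0) (nat_lit 100) (nat_lit 97) (nat_lit 49) (nat_lit 24) (.spl (nat_lit 4) (nat_lit 80)
(.spl (nat_lit 2) (nat_lit 80)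
(.spl (nat_lit 2) (nat_lit 40)
(.spl (nat_lit 1) (nat_lit 260)
(.leaf p040_l5)
(.trZ (nat_lit 0) (nat_lit 100) (nat_lit 100) (nat_lit 60) (nat_lit 36) (.trX (nat_lit 19) (nat_lit 100) (nat_lit 99) (nat_lit 63) (nat_lit 268) (.leaf p040_l6))))
(.spl (nat_lit 6) (nat_lit 60)
(.spl (nat_lit 1) (nat_lit 260)
(.spl (nat_lit 0) (nat_lit 270)
(.leaf p040_l7)
(.leaf p040_l8))
(.trX (nat_lit 19) (nat_lit 100) (nat_lit 99) (nat_lit 63) (nat_lit 268) (.spl (nat_lit 5) (nat_lit 160)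
(.spl (nat_lit 0) (nat_lit 270)
(.ord (.leaf p040_l9))
(.leaf p040_l10))
(.spl (nat_lit 1) (nat_lit 270)
(.leaf p040_l11)
(.ord (.trZ (nat_lit 0) (nat_lit 100) (nat_lit 100) (nat_lit 70) (nat_lit 48) (.trX (nat_lit 19) (nat_lit 98) (nat_lit 100) (nat_lit 63) (nat_lit 260) (.leaf p040_l12))))))))
(.leaf p040_l13)))
(.spl (nat_lit 4) (nat_lit 40)
(.spl (nat_lit 0) (nat_lit 270)
(.ord (.leaf p040_l14))
(.spl (nat_lit 2) (nat_lit 120)
(.spl (nat_lit 1) (nat_lit 260)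
(.leaf p040_l15)
(.trX (nat_lit 19) (nat_lit 100) (nat_lit 99) (nat_lit 63) (nat_lit 268) (.spl (nat_lit 0) (nat_lit 275)
(.ord (.leaf p040_l16))
(.leaf p040_l17))))
(.leaf p040_l18)))
(.spl (nat_lit 2) (nat_lit 120)
(.spl (nat_lit 0) (nat_lit 270)
(.ord (.leaf p040_l19))
(.leaf p040_l20))
(.leaf p040_l21))))
(.spl (nat_lit 2) (nat_lit 120)
(.spl (nat_lit 2) (nat_lit 80)
(.spl (nat_lit 1) (nat_lit 260)
(.leaf p040_l22)
(.trZ (nat_lit 0) (nat_lit 100) (nat_lit 100) (nat_lit 60) (nat_lit 36) (.trX (nat_lit 19) (nat_lit 100) (nat_lit 99) (nat_lit 63) (nat_lit 268) (.leaf p040_l23))))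
(.leaf p040_l24))
(.leaf p040_l25)))))) (by decide +kernel)
noncomputable def p040_l26 : Lf2 := ⟨nat_lit 0, nat_lit 10, [nat_lit 0, nat_lit 5, nat_lit 5, nat_lit 20], false, nat_lit 0, nat_lit 160, nat_lit 0, nat_lit 288, ⟨nat_lit 1000, nat_lit 0, nat_lit 0, nat_lit 0, nat_lit 0, nat_lit 0, nat_lit 0, nat_lit 0, nat_lit 0, nat_lit 0, nat_lit 0, nat_lit 0, nat_lit 0, nat_lit 0, nat_lit 0, nat_lit 0, false, false⟩,
 nat_lit 21560, nat_lit 0, nat_lit 0, nat_lit 27644, nat_lit 7158, nat_lit 11414, nat_lit 0, nat_lit 0, nat_lit 0, nat_lit 0, nat_lit 0, nat_lit 0, nat_lit 0, nat_lit 0, nat_lit 0, nat_lit 0, nat_lit 0, nat_lit 0, [],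
 ⟨p040_k5, nat_lit 0, nat_lit 0, nat_lit 197, nat_lit 0, nat_lit 27489, [nat_lit 4688000000, nat_lit 6250000000, nat_lit 11872000000], [], [nat_lit 40283658720, nat_lit 36498952116, nat_lit 36488569104, nat_lit 37194226156, nat_lit 31109960904, nat_lit 31812346588, nat_lit 32465802288, nat_lit 33042877548], nat_lit 1271250, nat_lit 1271250, nat_lit 1100001, nat_lit 1785000, nat_lit 0, nat_lit 1100001, [nat_lit 1100000, nat_lit 1442500, nat_lit 1271250], [nat_lit 48, nat_lit 40, nat_lit 20, nat_lit 80, nat_lit 12, nat_lit 401, nat_lit 175, nat_lit 10]⟩, ⟨p040_k5, nat_lit 0, nat_lit 0, nat_lit 197, nat_lit 0, nat_lit 27489, [nat_lit 4688000000, nat_lit 6250000000, nat_lit 11872000000], [], [nat_lit 46769121760, nat_lit 40734106228, nat_lit 35595841304, nat_lit 37000795548, nat_lit 35863627109, nat_lit 30498859920, nat_lit 29918121034, nat_lit 30667046008], nat_lit 1271250, nat_lit 1271250, nat_lit 1271250, nat_lit 1271250,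 nat_lit 0, nat_lit 2034000, [nat_lit 1100000, nat_lit 1442500, nat_lit 1271250], [nat_lit 48, nat_lit 40, nat_lit 20, nat_lit 80, nat_lit 12, nat_lit 428, nat_lit 200, nat_lit 11]⟩,
 zbF0, []⟩
noncomputable def p040_l27 : Lf2 := ⟨nat_lit 0, nat_lit 10, [nat_lit 0, nat_lit 5, nat_lit 5, nat_lit 20], false, nat_lit 0, nat_lit 80, nat_lit 0, nat_lit 288, ⟨nat_lit 1000, nat_lit 0, nat_lit 0, nat_lit 0, nat_lit 0, nat_lit 0, nat_lit 0, nat_lit 0, nat_lit 0, nat_lit 0, nat_lit 0, nat_lit 0, nat_lit 0, nat_lit 0, nat_lit 0, nat_lit 0, false, false⟩,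
 nat_lit 20800, nat_lit 0, nat_lit 0, nat_lit 0, nat_lit 7370, nat_lit 11011, nat_lit 0, nat_lit 0, nat_lit 0, nat_lit 478, nat_lit 0, nat_lit 0, nat_lit 0, nat_lit 0, nat_lit 0, nat_lit 0, nat_lit 0, nat_lit 0, [],
 ⟨p040_k3, nat_lit 0, nat_lit 0, nat_lit 197, nat_lit 0, nat_lit 131452, [nat_lit 4688000000, nat_lit 6250000000, nat_lit 9842000000], [], [nat_lit 27406096460, nat_lit 28062889990, nat_lit 30443438980, nat_lit 31090965590, nat_lit 23561228800, nat_lit 24178702160, nat_lit 26127609200, nat_lit 26638963660], nat_lit 1271250, nat_lit 1271250, nat_lit 1100001, nat_lit 1785000, nat_lit 0, nat_lit 490000, [nat_lit 1100000, nat_lit 1442500, nat_lit 1271250], [nat_lit 11, nat_lit 40, nat_lit 20, nat_lit 80, nat_lit 1, nat_lit 373, nat_lit 150, nat_lit 11]⟩, ⟨p040_k5, nat_lit 0, nat_lit 0, nat_lit 323, nat_lit 0, nat_lit 147761, [nat_lit 4688000000, nat_lit 6250000000, nat_lit 11872000000], [], [nat_lit 46155014240,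 nat_lit 39613848897, nat_lit 39164797332, nat_lit 40111059711, nat_lit 35921191952, nat_lit 31737727299, nat_lit 30847235160, nat_lit 31239849645], nat_lit 1271250, nat_lit 1271250, nat_lit 1271250, nat_lit 1271250, nat_lit 0, nat_lit 2034000, [nat_lit 1100000, nat_lit 1442500, nat_lit 1271250], [nat_lit 48, nat_lit 40, nat_lit 20, nat_lit 80, nat_lit 12, nat_lit 428, nat_lit 200, nat_lit 11]⟩,
 zbF0, []⟩
noncomputable def p040_l28 : Lf2 := ⟨nat_lit 0, nat_lit 10, [nat_lit 0, nat_lit 5, nat_lit 5, nat_lit 20], false, nat_lit 0, nat_lit 80, nat_lit 0, nat_lit 288, ⟨nat_lit 948, nat_lit 0, nat_lit 52, nat_lit 6, nat_lit 226, nat_lit 0, nat_lit 18, nat_lit 0, nat_lit 417, nat_lit 220, nat_lit 52898, nat_lit 200, nat_lit 50829096, nat_lit 0, nat_lit 0, nat_lit 2763193, false, false⟩,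
 nat_lit 19714, nat_lit 0, nat_lit 0, nat_lit 0, nat_lit 12006, nat_lit 10436, nat_lit 1021, nat_lit 0, nat_lit 0, nat_lit 711, nat_lit 0, nat_lit 0, nat_lit 0, nat_lit 0, nat_lit 0, nat_lit 52000, nat_lit 0, nat_lit 0, [(nat_lit 9, [(nat_lit 6, nat_lit 52)])],
 ⟨p040_k4, nat_lit 0, nat_lit 0, nat_lit 287, nat_lit 0, nat_lit 227349, [nat_lit 4501299200, nat_lit 5902709334, nat_lit 9051641600], [], [nat_lit 25351436341, nat_lit 23898870925, nat_lit 26367095367, nat_lit 27229050885, nat_lit 15845919346, nat_lit 16419418226, nat_lit 17825387517, nat_lit 18642317773], nat_lit 1271250, nat_lit 1271250, nat_lit 1100001, nat_lit 1785000, nat_lit 0, nat_lit 490000, [nat_lit 1100000, nat_lit 1442500, nat_lit 1271250], [nat_lit 11, nat_lit 40, nat_lit 20, nat_lit 80, nat_lit 1, nat_lit 373, nat_lit 150, nat_lit 11]⟩, ⟨p040_k5, nat_lit 0, nat_lit 0, nat_lit 365, nat_lit 0, nat_lit 270049, [nat_lit 4444224000, nat_lit 5925000000,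 nat_lit 11254656000], [], [nat_lit 43751253616, nat_lit 35472144274, nat_lit 34659340514, nat_lit 35855346594, nat_lit 34053636788, nat_lit 27803203612, nat_lit 26777255980, nat_lit 27273584351], nat_lit 1271250, nat_lit 1271250, nat_lit 1271250, nat_lit 1271250, nat_lit 0, nat_lit 2034000, [nat_lit 1100000, nat_lit 1442500, nat_lit 1271250], [nat_lit 48, nat_lit 40, nat_lit 20, nat_lit 80, nat_lit 12, nat_lit 456, nat_lit 225, nat_lit 12]⟩,
 ⟨nat_lit 5477, nat_lit 5701, ⟨.ofNat (nat_lit 465963), .ofNat (nat_lit 619394), .ofNat (nat_lit 508644), .ofNat (nat_lit 662074), .ofNat (nat_lit 467780), .ofNat (nat_lit 617638), .ofNat (nat_lit 510490), .ofNat (nat_lit 660348)⟩, ⟨.negSucc (nat_lit 75673), .ofNat (nat_lit 77764), .negSucc (nat_lit 54331), .ofNat (nat_lit 99106), .negSucc (nat_lit 66879), .ofNat (nat_lit 82986), .negSucc (nat_lit 45522), .ofNat (nat_lit 104343)⟩⟩, []⟩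
noncomputable def p040_l29 : Lf2 := ⟨nat_lit 0, nat_lit 10, [nat_lit 0, nat_lit 5, nat_lit 5, nat_lit 20], false, nat_lit 80, nat_lit 160, nat_lit 0, nat_lit 288, ⟨nat_lit 1000, nat_lit 0, nat_lit 0, nat_lit 0, nat_lit 0, nat_lit 0, nat_lit 0, nat_lit 0, nat_lit 0, nat_lit 0, nat_lit 0, nat_lit 0, nat_lit 0, nat_lit 0, nat_lit 0, nat_lit 0, false, false⟩,
 nat_lit 26003, nat_lit 12514, nat_lit 0, nat_lit 0, nat_lit 22420, nat_lit 13766, nat_lit 0, nat_lit 0, nat_lit 0, nat_lit 761, nat_lit 0, nat_lit 0, nat_lit 0, nat_lit 0, nat_lit 0, nat_lit 0, nat_lit 0, nat_lit 0, [],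
 ⟨p040_k3, nat_lit 0, nat_lit 0, nat_lit 170, nat_lit 0, nat_lit 240242, [nat_lit 4688000000, nat_lit 6250000000, nat_lit 9842000000], [], [nat_lit 9523649040, nat_lit 12754870480, nat_lit 14483559520, nat_lit 17020855360, nat_lit 6120324360, nat_lit 8886808320, nat_lit 10043724560, nat_lit 13103227120], nat_lit 1271250, nat_lit 1271250, nat_lit 1100001, nat_lit 1785000, nat_lit 490000, nat_lit 1100001, [nat_lit 1100000, nat_lit 1442500, nat_lit 1271250], [nat_lit 11, nat_lit 40, nat_lit 20, nat_lit 80, nat_lit 1, nat_lit 401, nat_lit 175, nat_lit 11]⟩, ⟨p040_k5, nat_lit 0, nat_lit 0, nat_lit 365, nat_lit 0, nat_lit 270049, [nat_lit 4688000000, nat_lit 6250000000, nat_lit 11872000000], [], [nat_lit 50353193440, nat_lit 35797310390, nat_lit 34529520142, nat_lit 35870139574, nat_lit 35527665548, nat_lit 25561216054, nat_lit 24454976574, nat_lit 26060888691], nat_lit 1271250, nat_lit 1271250, nat_lit 1271250, nat_lit 1271250,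 nat_lit 0, nat_lit 2034000, [nat_lit 1100000, nat_lit 1442500, nat_lit 1271250], [nat_lit 48, nat_lit 40, nat_lit 20, nat_lit 80, nat_lit 12, nat_lit 456, nat_lit 225, nat_lit 12]⟩,
 zbF0, []⟩
noncomputable def b_VL_600_600_5_95 : St := ⟨true, nat_lit 1, nat_lit 1, nat_lit 1, nat_lit 40, nat_lit 240, nat_lit 280, nat_lit 240, nat_lit 280, nat_lit 160, nat_lit 240, nat_lit 20, nat_lit 40, nat_lit 0, nat_lit 160, nat_lit 0, nat_lit 288, nat_lit 40, nat_lit 68, nat_lit 0, nat_lit 0, nat_lit 0, nat_lit 0⟩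
theorem d_VL_600_600_5_95 (h : EB TB.env) : Dead b_VL_600_600_5_95 := chkB_sound0 h (T :=
(.spl (nat_lit 0) (nat_lit 260)
(.ord (.leaf p040_l26))
(.spl (nat_lit 4) (nat_lit 80)
(.spl (nat_lit 0) (nat_lit 270)
(.ord (.leaf p040_l27))
(.leaf p040_l28))
(.leaf p040_l29)))) (by decide +kernel)
noncomputable def p040_l30 : Lf2 := ⟨nat_lit 1, nat_lit 10, [nat_lit 0, nat_lit 5, nat_lit 5, nat_lit 20], false, nat_lit 160, nat_lit 240, nat_lit 0, nat_lit 288, zbN0,
 nat_lit 0, nat_lit 0, nat_lit 0, nat_lit 0, nat_lit 0, nat_lit 0, nat_lit 0, nat_lit 0, nat_lit 0, nat_lit 0, nat_lit 0, nat_lit 0, nat_lit 0, nat_lit 0, nat_lit 0, nat_lit 0, nat_lit 0, nat_lit 0, [],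
 C1.Rw.none, C1.Rw.none,
 zbF0, []⟩
noncomputable def p040_l31 : Lf2 := ⟨nat_lit 0, nat_lit 10, [nat_lit 0, nat_lit 5, nat_lit 5, nat_lit 20], true, nat_lit 160, nat_lit 240, nat_lit 0, nat_lit 288, ⟨nat_lit 0, nat_lit 0, nat_lit 1000, nat_lit 6, nat_lit 118, nat_lit 1000, nat_lit 127, nat_lit 1000, nat_lit 153600, nat_lit 311, nat_lit 132017, nat_lit 304, nat_lit 54514373, nat_lit 0, nat_lit 0, nat_lit 3247504, false, false⟩,
 nat_lit 0, nat_lit 7646, nat_lit 0, nat_lit 0, nat_lit 4247, nat_lit 0, nat_lit 0, nat_lit 0, nat_lit 0, nat_lit 0, nat_lit 0, nat_lit 0, nat_lit 0, nat_lit 19382836690399, nat_lit 69, nat_lit 400000, nat_lit 0, nat_lit 0, [(nat_lit 6, [(nat_lit 5, nat_lit 1000)])],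
 ⟨p040_k2, nat_lit 0, nat_lit 0, nat_lit 178, nat_lit 0, nat_lit 46020, [nat_lit 2521600001, nat_lit 1460000001, nat_lit 7200000], [], [nat_lit 10893825473, nat_lit 11673417417, nat_lit 10597543673, nat_lit 11302584061, nat_lit 14819994009, nat_lit 15477579729, nat_lit 14214494904, nat_lit 14811137899], nat_lit 1271250, nat_lit 1271250, nat_lit 111251, nat_lit 780000, nat_lit 1100001, nat_lit 1785000, [nat_lit 1100000, nat_lit 1442500, nat_lit 1271250], [nat_lit 11, nat_lit 40, nat_lit 20, nat_lit 80, nat_lit 1, nat_lit 401, nat_lit 175, nat_lit 11]⟩, C1.Rw.none,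
 ⟨nat_lit 5916, nat_lit 6124, ⟨.ofNat (nat_lit 180982), .ofNat (nat_lit 381933), .ofNat (nat_lit 202330), .ofNat (nat_lit 403281), .ofNat (nat_lit 189276), .ofNat (nat_lit 385610), .ofNat (nat_lit 210615), .ofNat (nat_lit 406949)⟩, ⟨.ofNat (nat_lit 227485), .ofNat (nat_lit 388246), .ofNat (nat_lit 248833), .ofNat (nat_lit 409594), .ofNat (nat_lit 229411), .ofNat (nat_lit 386479), .ofNat (nat_lit 250751), .ofNat (nat_lit 407818)⟩⟩, [⟨nat_lit 0, nat_lit 100, nat_lit 100, nat_lit 60, nat_lit 148565853⟩, ⟨nat_lit 4, nat_lit 100, nat_lit 100, nat_lit 55, nat_lit 307508535⟩]⟩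
noncomputable def p040_l32 : Lf2 := ⟨nat_lit 1, nat_lit 10, [nat_lit 0, nat_lit 5, nat_lit 5, nat_lit 20], false, nat_lit 160, nat_lit 240, nat_lit 0, nat_lit 288, zbN0,
 nat_lit 0, nat_lit 0, nat_lit 0, nat_lit 0, nat_lit 0, nat_lit 0, nat_lit 0, nat_lit 0, nat_lit 0, nat_lit 0, nat_lit 0, nat_lit 0, nat_lit 0, nat_lit 0, nat_lit 0, nat_lit 0, nat_lit 0, nat_lit 0, [],
 C1.Rw.none, C1.Rw.none,
 zbF0, []⟩
noncomputable def p040_l33 : Lf2 := ⟨nat_lit 0, nat_lit 10, [nat_lit 0, nat_lit 5, nat_lit 5, nat_lit 20], true, nat_lit 160, nat_lit 240, nat_lit 0, nat_lit 288, ⟨nat_lit 0, nat_lit 0, nat_lit 1000, nat_lit 6, nat_lit 108, nat_lit 1000, nat_lit 127, nat_lit 1000, nat_lit 153600, nat_lit 311, nat_lit 109350, nat_lit 296, nat_lit 55304552, nat_lit 0, nat_lit 0, nat_lit 3098595, false, false⟩,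
 nat_lit 0, nat_lit 8777, nat_lit 0, nat_lit 0, nat_lit 5108, nat_lit 0, nat_lit 0, nat_lit 0, nat_lit 0, nat_lit 0, nat_lit 0, nat_lit 0, nat_lit 0, nat_lit 0, nat_lit 97, nat_lit 456400, nat_lit 0, nat_lit 0, [(nat_lit 9, [(nat_lit 5, nat_lit 906), (nat_lit 6, nat_lit 94)])],
 ⟨p040_k3, nat_lit 0, nat_lit 0, nat_lit 178, nat_lit 0, nat_lit 136769, [nat_lit 3038092800, nat_lit 1780717334, nat_lit 13742400], [], [nat_lit 13383601522, nat_lit 14667313568, nat_lit 12038892496, nat_lit 13266561552, nat_lit 16280745591, nat_lit 17380201380, nat_lit 15255827294, nat_lit 15885067264], nat_lit 1271250, nat_lit 1271250, nat_lit 134400, nat_lit 490000, nat_lit 1100001, nat_lit 1785000, [nat_lit 1100000, nat_lit 1442500, nat_lit 1271250], [nat_lit 11, nat_lit 40, nat_lit 20, nat_lit 80, nat_lit 1, nat_lit 373, nat_lit 150, nat_lit 11]⟩, C1.Rw.none,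
 ⟨nat_lit 5477, nat_lit 5917, ⟨.ofNat (nat_lit 197129), .ofNat (nat_lit 307076), .ofNat (nat_lit 218469), .ofNat (nat_lit 328416), .ofNat (nat_lit 213007), .ofNat (nat_lit 317913), .ofNat (nat_lit 234364), .ofNat (nat_lit 339271)⟩, ⟨.ofNat (nat_lit 229411), .ofNat (nat_lit 386479), .ofNat (nat_lit 250751), .ofNat (nat_lit 407818), .ofNat (nat_lit 232852), .ofNat (nat_lit 382718), .ofNat (nat_lit 254209), .ofNat (nat_lit 404075)⟩⟩, [⟨nat_lit 0, nat_lit 100, nat_lit 96, nat_lit 69, nat_lit 238552805⟩, ⟨nat_lit 4, nat_lit 100, nat_lit 96, nat_lit 54, nat_lit 250684630⟩]⟩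
noncomputable def p040_l34 : Lf2 := ⟨nat_lit 0, nat_lit 10, [nat_lit 0, nat_lit 5, nat_lit 5, nat_lit 20], true, nat_lit 160, nat_lit 240, nat_lit 0, nat_lit 268, ⟨nat_lit 0, nat_lit 0, nat_lit 1000, nat_lit 6, nat_lit 116, nat_lit 1000, nat_lit 127, nat_lit 1000, nat_lit 153600, nat_lit 311, nat_lit 126150, nat_lit 302, nat_lit 54638515, nat_lit 0, nat_lit 0, nat_lit 3224774, false, false⟩,
 nat_lit 0, nat_lit 9342, nat_lit 0, nat_lit 0, nat_lit 5437, nat_lit 0, nat_lit 0, nat_lit 0, nat_lit 0, nat_lit 0, nat_lit 0, nat_lit 0, nat_lit 0, nat_lit 0, nat_lit 105, nat_lit 500200, nat_lit 0, nat_lit 0, [(nat_lit 9, [(nat_lit 5, nat_lit 833), (nat_lit 6, nat_lit 167)])],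
 ⟨p040_k3, nat_lit 0, nat_lit 0, nat_lit 169, nat_lit 0, nat_lit 100937, [nat_lit 3134790401, nat_lit 1919012001, nat_lit 23863999], [], [nat_lit 12528871021, nat_lit 13186533378, nat_lit 11538820943, nat_lit 12171693385, nat_lit 15462225642, nat_lit 16049745731, nat_lit 14654958892, nat_lit 14922387183], nat_lit 1271250, nat_lit 1271250, nat_lit 205650, nat_lit 490000, nat_lit 1100001, nat_lit 1785000, [nat_lit 1100000, nat_lit 1442500, nat_lit 1271250], [nat_lit 11, nat_lit 40, nat_lit 20, nat_lit 80, nat_lit 1, nat_lit 373, nat_lit 150, nat_lit 11]⟩, C1.Rw.none,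
 ⟨nat_lit 5700, nat_lit 5917, ⟨.ofNat (nat_lit 242029), .ofNat (nat_lit 328416), .ofNat (nat_lit 247363), .ofNat (nat_lit 333750), .ofNat (nat_lit 249476), .ofNat (nat_lit 333867), .ofNat (nat_lit 254812), .ofNat (nat_lit 339203)⟩, ⟨.ofNat (nat_lit 229411), .ofNat (nat_lit 386479), .ofNat (nat_lit 250751), .ofNat (nat_lit 407818), .ofNat (nat_lit 231202), .ofNat (nat_lit 384640), .ofNat (nat_lit 252544), .ofNat (nat_lit 405982)⟩⟩, [⟨nat_lit 0, nat_lit 100, nat_lit 99, nat_lit 67, nat_lit 230100567⟩, ⟨nat_lit 4, nat_lit 100, nat_lit 97, nat_lit 54, nat_lit 252930611⟩]⟩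
noncomputable def p040_l35 : Lf2 := ⟨nat_lit 0, nat_lit 10, [nat_lit 0, nat_lit 5, nat_lit 5, nat_lit 20], false, nat_lit 160, nat_lit 240, nat_lit 0, nat_lit 160, ⟨nat_lit 1000, nat_lit 0, nat_lit 0, nat_lit 0, nat_lit 0, nat_lit 0, nat_lit 0, nat_lit 0, nat_lit 0, nat_lit 0, nat_lit 0, nat_lit 0, nat_lit 0, nat_lit 0, nat_lit 0, nat_lit 0, false, false⟩,
 nat_lit 24235, nat_lit 0, nat_lit 0, nat_lit 0, nat_lit 14431, nat_lit 7861, nat_lit 1514, nat_lit 0, nat_lit 0, nat_lit 2793, nat_lit 0, nat_lit 0, nat_lit 0, nat_lit 149863337438, nat_lit 0, nat_lit 0, nat_lit 0, nat_lit 0, [],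
 ⟨p040_k10, nat_lit 0, nat_lit 0, nat_lit 166, nat_lit 0, nat_lit 123182, [nat_lit 4688000000, nat_lit 6250000000, nat_lit 9842000000], [], [nat_lit 14203319374, nat_lit 14805138643, nat_lit 10743087645, nat_lit 11319747268, nat_lit 18198347998, nat_lit 18679735502, nat_lit 14595610614, nat_lit 15056669142], nat_lit 1271250, nat_lit 1271250, nat_lit 230001, nat_lit 490000, nat_lit 1100001, nat_lit 1785000, [nat_lit 1100000, nat_lit 1442500, nat_lit 1271250], [nat_lit 11, nat_lit 40, nat_lit 20, nat_lit 80, nat_lit 1, nat_lit 373, nat_lit 150, nat_lit 10]⟩, ⟨p040_k10, nat_lit 0, nat_lit 0, nat_lit 303, nat_lit 0, nat_lit 123182, [nat_lit 4688000000, nat_lit 6250000000, nat_lit 9842000000], [], [nat_lit 18268140115, nat_lit 18743537419, nat_lit 16247895887, nat_lit 16708071756, nat_lit 12955247886, nat_lit 13205797285, nat_lit 11783220521, nat_lit 12022547916], nat_lit 1271250, nat_lit 1271250, nat_lit 230001, nat_lit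 490000, nat_lit 0, nat_lit 1100001, [nat_lit 1100000, nat_lit 1442500, nat_lit 1271250], [nat_lit 11, nat_lit 40, nat_lit 20, nat_lit 80, nat_lit 1, nat_lit 373, nat_lit 150, nat_lit 11]⟩,
 zbF0, [⟨nat_lit 0, nat_lit 100, nat_lit 100, nat_lit 70, nat_lit 1357091907⟩, ⟨nat_lit 4, nat_lit 100, nat_lit 96, nat_lit 54, nat_lit 862594871⟩]⟩
noncomputable def p040_l36 : Lf2 := ⟨nat_lit 0, nat_lit 10, [nat_lit 0, nat_lit 5, nat_lit 5, nat_lit 20], false, nat_lit 160, nat_lit 240, nat_lit 160, nat_lit 264, ⟨nat_lit 1000, nat_lit 0, nat_lit 0, nat_lit 0, nat_lit 0, nat_lit 0, nat_lit 0, nat_lit 0, nat_lit 0, nat_lit 0, nat_lit 0, nat_lit 0, nat_lit 0, nat_lit 0, nat_lit 0, nat_lit 0, false, false⟩,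
 nat_lit 33817, nat_lit 0, nat_lit 0, nat_lit 0, nat_lit 20138, nat_lit 20138, nat_lit 530, nat_lit 0, nat_lit 0, nat_lit 0, nat_lit 0, nat_lit 0, nat_lit 0, nat_lit 0, nat_lit 0, nat_lit 0, nat_lit 0, nat_lit 0, [],
 ⟨p040_k10, nat_lit 0, nat_lit 0, nat_lit 166, nat_lit 0, nat_lit 123182, [nat_lit 4688000000, nat_lit 6250000000, nat_lit 9842000000], [], [nat_lit 15170113003, nat_lit 15945621964, nat_lit 10042732460, nat_lit 10784512714, nat_lit 19873605754, nat_lit 20486374086, nat_lit 14562398022, nat_lit 15147229966], nat_lit 1271250, nat_lit 1271250, nat_lit 230001, nat_lit 490000, nat_lit 1100001, nat_lit 1785000, [nat_lit 1100000, nat_lit 1442500, nat_lit 1271250], [nat_lit 11, nat_lit 40, nat_lit 20, nat_lit 80, nat_lit 1, nat_lit 373, nat_lit 150, nat_lit 10]⟩, ⟨p040_k10, nat_lit 0, nat_lit 0, nat_lit 166, nat_lit 0, nat_lit 123182, [nat_lit 4688000000, nat_lit 6250000000, nat_lit 9842000000], [], [nat_lit 17377894253,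 nat_lit 18153403214, nat_lit 12250513710, nat_lit 12992293964, nat_lit 25065480090, nat_lit 25621204356, nat_lit 19622712125, nat_lit 20153888701], nat_lit 1271250, nat_lit 1271250, nat_lit 230001, nat_lit 490000, nat_lit 1100001, nat_lit 1990500, [nat_lit 1100000, nat_lit 1442500, nat_lit 1271250], [nat_lit 11, nat_lit 40, nat_lit 20, nat_lit 80, nat_lit 1, nat_lit 401, nat_lit 175, nat_lit 11]⟩,
 zbF0, [⟨nat_lit 0, nat_lit 100, nat_lit 100, nat_lit 70, nat_lit 1957207081⟩, ⟨nat_lit 16, nat_lit 96, nat_lit 100, nat_lit 54, nat_lit 942804269⟩, ⟨nat_lit 7, nat_lit 100, nat_lit 96, nat_lit 54, nat_lit 1099308021⟩]⟩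
noncomputable def p040_l37 : Lf2 := ⟨nat_lit 1, nat_lit 10, [nat_lit 0, nat_lit 5, nat_lit 5, nat_lit 20], false, nat_lit 160, nat_lit 240, nat_lit 0, nat_lit 268, zbN0,
 nat_lit 0, nat_lit 0, nat_lit 0, nat_lit 0, nat_lit 0, nat_lit 0, nat_lit 0, nat_lit 0, nat_lit 0, nat_lit 0, nat_lit 0, nat_lit 0, nat_lit 0, nat_lit 0, nat_lit 0, nat_lit 0, nat_lit 0, nat_lit 0, [],
 C1.Rw.none, C1.Rw.none,
 zbF0, []⟩
noncomputable def p040_l38 : Lf2 := ⟨nat_lit 0, nat_lit 10, [nat_lit 0, nat_lit 5, nat_lit 5, nat_lit 20], false, nat_lit 160, nat_lit 240, nat_lit 0, nat_lit 80, ⟨nat_lit 1000, nat_lit 0, nat_lit 0, nat_lit 0, nat_lit 0, nat_lit 0, nat_lit 0, nat_lit 0, nat_lit 0, nat_lit 0, nat_lit 0, nat_lit 0, nat_lit 0, nat_lit 0, nat_lit 0, nat_lit 0, false, false⟩,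
 nat_lit 16065, nat_lit 1524, nat_lit 0, nat_lit 0, nat_lit 10712, nat_lit 9351, nat_lit 315, nat_lit 0, nat_lit 0, nat_lit 2173, nat_lit 0, nat_lit 0, nat_lit 0, nat_lit 8162565917461, nat_lit 0, nat_lit 0, nat_lit 0, nat_lit 0, [],
 ⟨p040_k4, nat_lit 0, nat_lit 0, nat_lit 192, nat_lit 0, nat_lit 227349, [nat_lit 4688000000, nat_lit 6250000000, nat_lit 9842000000], [], [nat_lit 21666610211, nat_lit 22643876939, nat_lit 19273210211, nat_lit 20211325803, nat_lit 25107612579, nat_lit 25900176395, nat_lit 22602328859, nat_lit 23363130571], nat_lit 1271250, nat_lit 1271250, nat_lit 230001, nat_lit 490000, nat_lit 1100001, nat_lit 1785000, [nat_lit 1100000, nat_lit 1442500, nat_lit 1271250], [nat_lit 11, nat_lit 40, nat_lit 20, nat_lit 80, nat_lit 1, nat_lit 373, nat_lit 150, nat_lit 10]⟩, ⟨p040_k3, nat_lit 0, nat_lit 0, nat_lit 348, nat_lit 0, nat_lit 240242, [nat_lit 4688000000, nat_lit 6250000000, nat_lit 9842000000],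 [], [nat_lit 21642098614, nat_lit 23768226207, nat_lit 19468729866, nat_lit 21168581795, nat_lit 15794506424, nat_lit 16900852534, nat_lit 17436856440, nat_lit 14942595562], nat_lit 1271250, nat_lit 1271250, nat_lit 230001, nat_lit 490000, nat_lit 0, nat_lit 490000, [nat_lit 1100000, nat_lit 1442500, nat_lit 1271250], [nat_lit 11, nat_lit 40, nat_lit 20, nat_lit 80, nat_lit 1, nat_lit 345, nat_lit 125, nat_lit 10]⟩,
 zbF0, [⟨nat_lit 0, nat_lit 100, nat_lit 99, nat_lit 72, nat_lit 1275844818⟩, ⟨nat_lit 4, nat_lit 100, nat_lit 94, nat_lit 53, nat_lit 829130344⟩]⟩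
noncomputable def p040_l39 : Lf2 := ⟨nat_lit 0, nat_lit 10, [nat_lit 0, nat_lit 5, nat_lit 5, nat_lit 20], false, nat_lit 160, nat_lit 240, nat_lit 80, nat_lit 160, ⟨nat_lit 1000, nat_lit 0, nat_lit 0, nat_lit 0, nat_lit 0, nat_lit 0, nat_lit 0, nat_lit 0, nat_lit 0, nat_lit 0, nat_lit 0, nat_lit 0, nat_lit 0, nat_lit 0, nat_lit 0, nat_lit 0, false, false⟩,
 nat_lit 31385, nat_lit 0, nat_lit 0, nat_lit 0, nat_lit 19113, nat_lit 18268, nat_lit 463, nat_lit 0, nat_lit 0, nat_lit 0, nat_lit 0, nat_lit 0, nat_lit 0, nat_lit 24254033212815, nat_lit 0, nat_lit 0, nat_lit 0, nat_lit 0, [],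
 ⟨p040_k4, nat_lit 0, nat_lit 0, nat_lit 192, nat_lit 0, nat_lit 227349, [nat_lit 4688000000, nat_lit 6250000000, nat_lit 9842000000], [], [nat_lit 16666369514, nat_lit 18154996711, nat_lit 11806225889, nat_lit 13230473747, nat_lit 21086836071, nat_lit 22263896855, nat_lit 16056547791, nat_lit 17181751279], nat_lit 1271250, nat_lit 1271250, nat_lit 230001, nat_lit 490000, nat_lit 1100001, nat_lit 1785000, [nat_lit 1100000, nat_lit 1442500, nat_lit 1271250], [nat_lit 11, nat_lit 40, nat_lit 20, nat_lit 80, nat_lit 1, nat_lit 373, nat_lit 150, nat_lit 10]⟩, ⟨p040_k3, nat_lit 0, nat_lit 0, nat_lit 218, nat_lit 0, nat_lit 240242, [nat_lit 4688000000, nat_lit 6250000000, nat_lit 9842000000], [], [nat_lit 20144354296, nat_lit 23456207200, nat_lit 15363123608, nat_lit 18541974160, nat_lit 17685612712, nat_lit 20559998496, nat_lit 13135424016, nat_lit 15886126192], nat_lit 1271250, nat_lit 1271250, nat_lit 230001, nat_lit 490000,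 nat_lit 490000, nat_lit 1100001, [nat_lit 1100000, nat_lit 1442500, nat_lit 1271250], [nat_lit 11, nat_lit 40, nat_lit 20, nat_lit 80, nat_lit 1, nat_lit 373, nat_lit 150, nat_lit 11]⟩,
 zbF0, [⟨nat_lit 0, nat_lit 100, nat_lit 100, nat_lit 80, nat_lit 1894990408⟩, ⟨nat_lit 4, nat_lit 100, nat_lit 94, nat_lit 53, nat_lit 907186222⟩]⟩
noncomputable def p040_l40 : Lf2 := ⟨nat_lit 0, nat_lit 10, [nat_lit 0, nat_lit 5, nat_lit 5, nat_lit 20], false, nat_lit 160, nat_lit 240, nat_lit 160, nat_lit 268, ⟨nat_lit 1000, nat_lit 0, nat_lit 0, nat_lit 0, nat_lit 0, nat_lit 0, nat_lit 0, nat_lit 0, nat_lit 0, nat_lit 0, nat_lit 0, nat_lit 0, nat_lit 0, nat_lit 0, nat_lit 0, nat_lit 0, false, false⟩,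
 nat_lit 33050, nat_lit 0, nat_lit 0, nat_lit 0, nat_lit 20128, nat_lit 19238, nat_lit 397, nat_lit 0, nat_lit 0, nat_lit 0, nat_lit 0, nat_lit 0, nat_lit 0, nat_lit 0, nat_lit 0, nat_lit 0, nat_lit 0, nat_lit 0, [],
 ⟨p040_k4, nat_lit 0, nat_lit 0, nat_lit 171, nat_lit 0, nat_lit 175796, [nat_lit 4688000000, nat_lit 6250000000, nat_lit 9842000000], [], [nat_lit 16427915309, nat_lit 17203119925, nat_lit 11269742309, nat_lit 12011233233, nat_lit 20966719701, nat_lit 21579932588, nat_lit 15631363021, nat_lit 16215978085], nat_lit 1271250, nat_lit 1271250, nat_lit 230001, nat_lit 490000, nat_lit 1100001, nat_lit 1785000, [nat_lit 1100000, nat_lit 1442500, nat_lit 1271250], [nat_lit 11, nat_lit 40, nat_lit 20, nat_lit 80, nat_lit 1, nat_lit 373, nat_lit 150, nat_lit 10]⟩, ⟨p040_k3, nat_lit 0, nat_lit 0, nat_lit 185, nat_lit 0, nat_lit 185765, [nat_lit 4688000000, nat_lit 6250000000, nat_lit 9842000000], [], [nat_lit 17123724692,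 nat_lit 19368078425, nat_lit 12291632656, nat_lit 14438854318, nat_lit 25298413820, nat_lit 26918531456, nat_lit 20132414262, nat_lit 21648394173], nat_lit 1271250, nat_lit 1271250, nat_lit 230001, nat_lit 490000, nat_lit 1100001, nat_lit 2024750, [nat_lit 1100000, nat_lit 1442500, nat_lit 1271250], [nat_lit 11, nat_lit 40, nat_lit 20, nat_lit 80, nat_lit 1, nat_lit 401, nat_lit 175, nat_lit 11]⟩,
 zbF0, [⟨nat_lit 0, nat_lit 100, nat_lit 100, nat_lit 75, nat_lit 1942443608⟩, ⟨nat_lit 4, nat_lit 100, nat_lit 95, nat_lit 54, nat_lit 911885838⟩, ⟨nat_lit 7, nat_lit 100, nat_lit 96, nat_lit 54, nat_lit 1082915200⟩]⟩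
noncomputable def p040_l41 : Lf2 := ⟨nat_lit 0, nat_lit 10, [nat_lit 0, nat_lit 5, nat_lit 5, nat_lit 20], false, nat_lit 160, nat_lit 240, nat_lit 160, nat_lit 268, ⟨nat_lit 274, nat_lit 0, nat_lit 726, nat_lit 6, nat_lit 126, nat_lit 726, nat_lit 127, nat_lit 726, nat_lit 153600, nat_lit 311, nat_lit 147267, nat_lit 309, nat_lit 53897809, nat_lit 0, nat_lit 0, nat_lit 3356794, false, false⟩,
 nat_lit 8878, nat_lit 0, nat_lit 0, nat_lit 0, nat_lit 5527, nat_lit 5167, nat_lit 507, nat_lit 0, nat_lit 0, nat_lit 0, nat_lit 0, nat_lit 0, nat_lit 0, nat_lit 0, nat_lit 19, nat_lit 586800, nat_lit 0, nat_lit 0, [(nat_lit 9, [(nat_lit 5, nat_lit 232), (nat_lit 6, nat_lit 494)])],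
 ⟨p040_k6, nat_lit 0, nat_lit 0, nat_lit 187, nat_lit 0, nat_lit 221331, [nat_lit 2484851201, nat_lit 1850269334, nat_lit 71845866], [], [nat_lit 13320220155, nat_lit 13649992489, nat_lit 12549355338, nat_lit 12868395529, nat_lit 16152793384, nat_lit 16589257720, nat_lit 15341179298, nat_lit 15639809570], nat_lit 1271250, nat_lit 1271250, nat_lit 254650, nat_lit 490000, nat_lit 1100001, nat_lit 1785000, [nat_lit 1100000, nat_lit 1442500, nat_lit 1271250], [nat_lit 11, nat_lit 40, nat_lit 20, nat_lit 80, nat_lit 1, nat_lit 373, nat_lit 150, nat_lit 10]⟩, ⟨p040_k3, nat_lit 0, nat_lit 0, nat_lit 203, nat_lit 0, nat_lit 240242, [nat_lit 1284512000, nat_lit 1712500000, nat_lit 2696708000], [], [nat_lit 7231773232, nat_lit 5406873839, nat_lit 3458560116, nat_lit 4230951100, nat_lit 6807737555, nat_lit 7380100080, nat_lit 5580720884, nat_lit 6126727982], nat_lit 1271250, nat_lit 1271250, nat_lit 254650, nat_lit 490000, nat_lit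 1100001, nat_lit 2024750, [nat_lit 1100000, nat_lit 1442500, nat_lit 1271250], [nat_lit 11, nat_lit 40, nat_lit 20, nat_lit 80, nat_lit 1, nat_lit 401, nat_lit 175, nat_lit 11]⟩,
 ⟨nat_lit 5477, nat_lit 5591, ⟨.ofNat (nat_lit 268334), .ofNat (nat_lit 336574), .ofNat (nat_lit 289681), .ofNat (nat_lit 357922), .ofNat (nat_lit 271831), .ofNat (nat_lit 339271), .ofNat (nat_lit 293188), .ofNat (nat_lit 360628)⟩, ⟨.ofNat (nat_lit 232045), .ofNat (nat_lit 383690), .ofNat (nat_lit 253393), .ofNat (nat_lit 405038), .ofNat (nat_lit 232852), .ofNat (nat_lit 382718), .ofNat (nat_lit 254209), .ofNat (nat_lit 404075)⟩⟩, [⟨nat_lit 0, nat_lit 100, nat_lit 98, nat_lit 73, nat_lit 552687427⟩, ⟨nat_lit 4, nat_lit 100, nat_lit 93, nat_lit 53, nat_lit 405382656⟩, ⟨nat_lit 7, nat_lit 100, nat_lit 96, nat_lit 54, nat_lit 170409437⟩]⟩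
noncomputable def p040_l42 : Lf2 := ⟨nat_lit 0, nat_lit 10, [nat_lit 0, nat_lit 5, nat_lit 5, nat_lit 20], false, nat_lit 160, nat_lit 240, nat_lit 0, nat_lit 288, ⟨nat_lit 0, nat_lit 0, nat_lit 1000, nat_lit 6, nat_lit 146, nat_lit 1000, nat_lit 127, nat_lit 1000, nat_lit 153600, nat_lit 311, nat_lit 198017, nat_lit 324, nat_lit 52254954, nat_lit 0, nat_lit 0, nat_lit 3621537, false, false⟩,
 nat_lit 0, nat_lit 8093, nat_lit 0, nat_lit 0, nat_lit 4710, nat_lit 0, nat_lit 0, nat_lit 0, nat_lit 0, nat_lit 0, nat_lit 0, nat_lit 0, nat_lit 0, nat_lit 25991642990123, nat_lit 87, nat_lit 400000, nat_lit 0, nat_lit 0, [(nat_lit 9, [(nat_lit 5, nat_lit 1000)])],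
 ⟨p040_k3, nat_lit 0, nat_lit 0, nat_lit 150, nat_lit 0, nat_lit 131452, [nat_lit 2918400000, nat_lit 1608666667, nat_lit 9200000], [], [nat_lit 10304327780, nat_lit 11087549170, nat_lit 10700669800, nat_lit 11444233640, nat_lit 14114389160, nat_lit 14773273480, nat_lit 14332175140, nat_lit 14958489490], nat_lit 1271250, nat_lit 1271250, nat_lit 490000, nat_lit 780000, nat_lit 1100001, nat_lit 1785000, [nat_lit 1100000, nat_lit 1442500, nat_lit 1271250], [nat_lit 11, nat_lit 40, nat_lit 20, nat_lit 80, nat_lit 1, nat_lit 401, nat_lit 175, nat_lit 11]⟩, ⟨p040_k5, nat_lit 0, nat_lit 0, nat_lit 354, nat_lit 0, nat_lit 147761, [nat_lit 0, nat_lit 0, nat_lit 0], [], [nat_lit 0, nat_lit 0, nat_lit 0, nat_lit 0, nat_lit 0, nat_lit 0, nat_lit 0, nat_lit 0], nat_lit 1271250, nat_lit 1271250, nat_lit 490000, nat_lit 780000, nat_lit 0, nat_lit 2034000, [nat_lit 1100000, nat_lit 1442500, nat_lit 1271250], [nat_lit 48, nat_lit 40,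 nat_lit 20, nat_lit 80, nat_lit 12, nat_lit 401, nat_lit 175, nat_lit 11]⟩,
 ⟨nat_lit 5700, nat_lit 5917, ⟨.ofNat (nat_lit 307076), .ofNat (nat_lit 385610), .ofNat (nat_lit 339085), .ofNat (nat_lit 417619), .ofNat (nat_lit 312525), .ofNat (nat_lit 389244), .ofNat (nat_lit 344538), .ofNat (nat_lit 421257)⟩, ⟨.ofNat (nat_lit 229411), .ofNat (nat_lit 386479), .ofNat (nat_lit 250751), .ofNat (nat_lit 407818), .ofNat (nat_lit 231202), .ofNat (nat_lit 384640), .ofNat (nat_lit 252544), .ofNat (nat_lit 405982)⟩⟩, [⟨nat_lit 4, nat_lit 100, nat_lit 97, nat_lit 54, nat_lit 355290372⟩]⟩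
noncomputable def p040_l43 : Lf2 := ⟨nat_lit 0, nat_lit 10, [nat_lit 0, nat_lit 5, nat_lit 5, nat_lit 20], false, nat_lit 160, nat_lit 240, nat_lit 0, nat_lit 288, ⟨nat_lit 0, nat_lit 0, nat_lit 1000, nat_lit 6, nat_lit 148, nat_lit 1000, nat_lit 127, nat_lit 1000, nat_lit 153600, nat_lit 311, nat_lit 205350, nat_lit 326, nat_lit 52051883, nat_lit 0, nat_lit 0, nat_lit 3651771, false, false⟩,
 nat_lit 0, nat_lit 7690, nat_lit 0, nat_lit 0, nat_lit 4683, nat_lit 0, nat_lit 0, nat_lit 0, nat_lit 0, nat_lit 0, nat_lit 0, nat_lit 0, nat_lit 0, nat_lit 27068413731543, nat_lit 127, nat_lit 627400, nat_lit 0, nat_lit 0, [(nat_lit 9, [(nat_lit 5, nat_lit 621), (nat_lit 6, nat_lit 379)])],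
 ⟨p040_k4, nat_lit 0, nat_lit 0, nat_lit 148, nat_lit 0, nat_lit 175796, [nat_lit 3395884801, nat_lit 2295977334, nat_lit 72834666], [], [nat_lit 12247610911, nat_lit 12511549379, nat_lit 12339513358, nat_lit 12576317263, nat_lit 14884943322, nat_lit 15160227112, nat_lit 16646116648, nat_lit 16079054520], nat_lit 1271250, nat_lit 1271250, nat_lit 490000, nat_lit 780000, nat_lit 1100001, nat_lit 1785000, [nat_lit 1100000, nat_lit 1442500, nat_lit 1271250], [nat_lit 11, nat_lit 40, nat_lit 20, nat_lit 80, nat_lit 1, nat_lit 401, nat_lit 175, nat_lit 11]⟩, ⟨p040_k5, nat_lit 0, nat_lit 0, nat_lit 375, nat_lit 0, nat_lit 208813, [nat_lit 0, nat_lit 0, nat_lit 0], [], [nat_lit 0, nat_lit 0, nat_lit 0, nat_lit 0, nat_lit 0, nat_lit 0, nat_lit 0, nat_lit 0], nat_lit 1271250, nat_lit 1271250, nat_lit 490000, nat_lit 780000, nat_lit 0, nat_lit 2034000, [nat_lit 1100000, nat_lit 1442500, nat_lit 1271250], [nat_lit 48, nat_lit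 40, nat_lit 20, nat_lit 80, nat_lit 12, nat_lit 401, nat_lit 175, nat_lit 11]⟩,
 ⟨nat_lit 5590, nat_lit 5701, ⟨.ofNat (nat_lit 312525), .ofNat (nat_lit 389244), .ofNat (nat_lit 349874), .ofNat (nat_lit 426593), .ofNat (nat_lit 315226), .ofNat (nat_lit 391049), .ofNat (nat_lit 352585), .ofNat (nat_lit 428408)⟩, ⟨.ofNat (nat_lit 231202), .ofNat (nat_lit 384640), .ofNat (nat_lit 252544), .ofNat (nat_lit 405982), .ofNat (nat_lit 232045), .ofNat (nat_lit 383690), .ofNat (nat_lit 253393), .ofNat (nat_lit 405038)⟩⟩, [⟨nat_lit 4, nat_lit 100, nat_lit 95, nat_lit 54, nat_lit 238954412⟩]⟩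
noncomputable def p040_l44 : Lf2 := ⟨nat_lit 0, nat_lit 10, [nat_lit 0, nat_lit 5, nat_lit 5, nat_lit 20], false, nat_lit 160, nat_lit 200, nat_lit 0, nat_lit 288, ⟨nat_lit 0, nat_lit 0, nat_lit 1000, nat_lit 6, nat_lit 150, nat_lit 1000, nat_lit 112, nat_lit 1000, nat_lit 117600, nat_lit 299, nat_lit 212817, nat_lit 328, nat_lit 53018422, nat_lit 0, nat_lit 0, nat_lit 3471783, false, false⟩,
 nat_lit 0, nat_lit 7773, nat_lit 0, nat_lit 0, nat_lit 4839, nat_lit 0, nat_lit 255, nat_lit 0, nat_lit 0, nat_lit 0, nat_lit 0, nat_lit 0, nat_lit 0, nat_lit 26896913073714, nat_lit 87, nat_lit 400000, nat_lit 0, nat_lit 0, [(nat_lit 9, [(nat_lit 5, nat_lit 1000)])],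
 ⟨p040_k11, nat_lit 0, nat_lit 0, nat_lit 156, nat_lit 0, nat_lit 208146, [nat_lit 2918400000, nat_lit 787600001, nat_lit 9200000], [], [nat_lit 11914159079, nat_lit 12213293366, nat_lit 11968692052, nat_lit 12229963046, nat_lit 13233665905, nat_lit 13509746664, nat_lit 14189612741, nat_lit 13724411594], nat_lit 1271250, nat_lit 1271250, nat_lit 490000, nat_lit 780000, nat_lit 1100001, nat_lit 1442500, [nat_lit 1100000, nat_lit 1785000, nat_lit 1271250], [nat_lit 29, nat_lit 40, nat_lit 20, nat_lit 80, nat_lit 17, nat_lit 373, nat_lit 150, nat_lit 10]⟩, ⟨p040_k8, nat_lit 0, nat_lit 0, nat_lit 402, nat_lit 0, nat_lit 252739, [nat_lit 0, nat_lit 0, nat_lit 0], [], [nat_lit 0, nat_lit 0, nat_lit 0, nat_lit 0, nat_lit 0, nat_lit 0, nat_lit 0, nat_lit 0], nat_lit 1271250, nat_lit 1271250, nat_lit 490000, nat_lit 780000, nat_lit 0, nat_lit 2034000, [nat_lit 1100000, nat_lit 1785000, nat_lit 1271250], [nat_lit 21, nat_lit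 40, nat_lit 20, nat_lit 80, nat_lit 14, nat_lit 401, nat_lit 175, nat_lit 11]⟩,
 ⟨nat_lit 5477, nat_lit 5591, ⟨.ofNat (nat_lit 315226), .ofNat (nat_lit 391049), .ofNat (nat_lit 357922), .ofNat (nat_lit 433745), .ofNat (nat_lit 317913), .ofNat (nat_lit 392847), .ofNat (nat_lit 360628), .ofNat (nat_lit 435560)⟩, ⟨.ofNat (nat_lit 232045), .ofNat (nat_lit 307867), .ofNat (nat_lit 253393), .ofNat (nat_lit 329215), .ofNat (nat_lit 232852), .ofNat (nat_lit 307785), .ofNat (nat_lit 254209), .ofNat (nat_lit 329142)⟩⟩, []⟩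
noncomputable def p040_l45 : Lf2 := ⟨nat_lit 0, nat_lit 10, [nat_lit 0, nat_lit 5, nat_lit 5, nat_lit 20], true, nat_lit 200, nat_lit 240, nat_lit 0, nat_lit 288, ⟨nat_lit 0, nat_lit 0, nat_lit 1000, nat_lit 6, nat_lit 146, nat_lit 1000, nat_lit 142, nat_lit 1000, nat_lit 190817, nat_lit 322, nat_lit 198017, nat_lit 324, nat_lit 51060790, nat_lit 0, nat_lit 0, nat_lit 3815432, false, false⟩,
 nat_lit 0, nat_lit 7833, nat_lit 0, nat_lit 0, nat_lit 4876, nat_lit 0, nat_lit 165, nat_lit 0, nat_lit 0, nat_lit 0, nat_lit 0, nat_lit 0, nat_lit 0, nat_lit 0, nat_lit 87, nat_lit 400000, nat_lit 0, nat_lit 0, [(nat_lit 9, [(nat_lit 5, nat_lit 1000)])],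
 ⟨p040_k11, nat_lit 0, nat_lit 0, nat_lit 165, nat_lit 0, nat_lit 216076, [nat_lit 2918400000, nat_lit 787600001, nat_lit 9200000], [], [nat_lit 13747148678, nat_lit 14025793392, nat_lit 13950360091, nat_lit 14241670744, nat_lit 15279517054, nat_lit 15560786784, nat_lit 15431423972, nat_lit 15698403008], nat_lit 1271250, nat_lit 1271250, nat_lit 490000, nat_lit 780000, nat_lit 1271250, nat_lit 1271250, [nat_lit 1100000, nat_lit 1785000, nat_lit 1271250], [nat_lit 29, nat_lit 40, nat_lit 20, nat_lit 80, nat_lit 17, nat_lit 401, nat_lit 175, nat_lit 11]⟩, C1.Rw.none,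
 ⟨nat_lit 5477, nat_lit 5591, ⟨.ofNat (nat_lit 315226), .ofNat (nat_lit 391049), .ofNat (nat_lit 336574), .ofNat (nat_lit 412397), .ofNat (nat_lit 317913), .ofNat (nat_lit 392847), .ofNat (nat_lit 339271), .ofNat (nat_lit 414204)⟩, ⟨.ofNat (nat_lit 307867), .ofNat (nat_lit 383690), .ofNat (nat_lit 329215), .ofNat (nat_lit 405038), .ofNat (nat_lit 307785), .ofNat (nat_lit 382718), .ofNat (nat_lit 329142), .ofNat (nat_lit 404075)⟩⟩, [⟨nat_lit 4, nat_lit 100, nat_lit 93, nat_lit 53, nat_lit 311558906⟩]⟩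
noncomputable def p040_l46 : Lf2 := ⟨nat_lit 0, nat_lit 10, [nat_lit 0, nat_lit 5, nat_lit 5, nat_lit 20], false, nat_lit 200, nat_lit 240, nat_lit 0, nat_lit 268, ⟨nat_lit 335, nat_lit 0, nat_lit 665, nat_lit 6, nat_lit 155, nat_lit 665, nat_lit 142, nat_lit 665, nat_lit 190817, nat_lit 322, nat_lit 224267, nat_lit 331, nat_lit 50362155, nat_lit 0, nat_lit 0, nat_lit 3917345, false, false⟩,
 nat_lit 7362, nat_lit 2215, nat_lit 0, nat_lit 0, nat_lit 5963, nat_lit 4285, nat_lit 707, nat_lit 0, nat_lit 0, nat_lit 0, nat_lit 0, nat_lit 0, nat_lit 0, nat_lit 0, nat_lit 0, nat_lit 266000, nat_lit 0, nat_lit 0, [(nat_lit 9, [(nat_lit 5, nat_lit 665)])],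
 ⟨p040_k11, nat_lit 0, nat_lit 0, nat_lit 161, nat_lit 0, nat_lit 208146, [nat_lit 2585536000, nat_lit 1804514001, nat_lit 1683248000], [], [nat_lit 13826541345, nat_lit 14111710708, nat_lit 13748703925, nat_lit 14063648722, nat_lit 15315223690, nat_lit 15625480992, nat_lit 15313163036, nat_lit 15606812704], nat_lit 1271250, nat_lit 1271250, nat_lit 490000, nat_lit 780000, nat_lit 1271250, nat_lit 1271250, [nat_lit 1100000, nat_lit 1785000, nat_lit 1271250], [nat_lit 29, nat_lit 40, nat_lit 20, nat_lit 80, nat_lit 17, nat_lit 401, nat_lit 175, nat_lit 11]⟩, ⟨p040_k7, nat_lit 0, nat_lit 0, nat_lit 323, nat_lit 0, nat_lit 225492, [nat_lit 1570480000, nat_lit 2669280000, nat_lit 3297070000], [], [nat_lit 15203776090, nat_lit 12938133760, nat_lit 10706600030, nat_lit 9960938100, nat_lit 11784545248, nat_lit 9836362285, nat_lit 13272470139, nat_lit 11349377993], nat_lit 1271250, nat_lit 1271250, nat_lit 490000, nat_lit 780000,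 nat_lit 0, nat_lit 1892750, [nat_lit 1100000, nat_lit 1785000, nat_lit 1271250], [nat_lit 29, nat_lit 40, nat_lit 20, nat_lit 80, nat_lit 17, nat_lit 401, nat_lit 175, nat_lit 12]⟩,
 ⟨nat_lit 5477, nat_lit 5591, ⟨.ofNat (nat_lit 336574), .ofNat (nat_lit 412397), .ofNat (nat_lit 357922), .ofNat (nat_lit 433745), .ofNat (nat_lit 339271), .ofNat (nat_lit 414204), .ofNat (nat_lit 360628), .ofNat (nat_lit 435560)⟩, ⟨.ofNat (nat_lit 307867), .ofNat (nat_lit 383690), .ofNat (nat_lit 329215), .ofNat (nat_lit 405038), .ofNat (nat_lit 307785), .ofNat (nat_lit 382718), .ofNat (nat_lit 329142), .ofNat (nat_lit 404075)⟩⟩, [⟨nat_lit 16, nat_lit 93, nat_lit 100, nat_lit 53, nat_lit 478035595⟩]⟩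
noncomputable def p040_l47 : Lf2 := ⟨nat_lit 0, nat_lit 10, [nat_lit 0, nat_lit 5, nat_lit 5, nat_lit 20], false, nat_lit 160, nat_lit 240, nat_lit 0, nat_lit 288, ⟨nat_lit 0, nat_lit 0, nat_lit 1000, nat_lit 6, nat_lit 150, nat_lit 1000, nat_lit 127, nat_lit 1000, nat_lit 153600, nat_lit 311, nat_lit 212817, nat_lit 328, nat_lit 51887504, nat_lit 0, nat_lit 0, nat_lit 3675839, false, false⟩,
 nat_lit 0, nat_lit 7385, nat_lit 0, nat_lit 0, nat_lit 4598, nat_lit 0, nat_lit 0, nat_lit 0, nat_lit 0, nat_lit 0, nat_lit 0, nat_lit 0, nat_lit 0, nat_lit 0, nat_lit 87, nat_lit 400000, nat_lit 0, nat_lit 0, [(nat_lit 9, [(nat_lit 5, nat_lit 1000)])],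
 ⟨p040_k6, nat_lit 0, nat_lit 0, nat_lit 143, nat_lit 0, nat_lit 142314, [nat_lit 2918400000, nat_lit 1608666667, nat_lit 9200000], [], [nat_lit 11622605937, nat_lit 12009209728, nat_lit 11973959528, nat_lit 12341082024, nat_lit 15216974232, nat_lit 15542547240, nat_lit 15403060577, nat_lit 15712628992], nat_lit 1271250, nat_lit 1271250, nat_lit 490000, nat_lit 780000, nat_lit 1100001, nat_lit 1785000, [nat_lit 1100000, nat_lit 1442500, nat_lit 1271250], [nat_lit 11, nat_lit 40, nat_lit 20, nat_lit 80, nat_lit 1, nat_lit 401, nat_lit 175, nat_lit 11]⟩, ⟨p040_k5, nat_lit 0, nat_lit 0, nat_lit 364, nat_lit 0, nat_lit 173317, [nat_lit 0, nat_lit 0, nat_lit 0], [], [nat_lit 0, nat_lit 0, nat_lit 0, nat_lit 0, nat_lit 0, nat_lit 0, nat_lit 0, nat_lit 0], nat_lit 1271250, nat_lit 1271250, nat_lit 490000, nat_lit 780000, nat_lit 0, nat_lit 2034000, [nat_lit 1100000, nat_lit 1442500, nat_lit 1271250], [nat_lit 48, nat_lit 40,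 nat_lit 20, nat_lit 80, nat_lit 12, nat_lit 401, nat_lit 175, nat_lit 11]⟩,
 ⟨nat_lit 5477, nat_lit 5591, ⟨.ofNat (nat_lit 315226), .ofNat (nat_lit 391049), .ofNat (nat_lit 357922), .ofNat (nat_lit 433745), .ofNat (nat_lit 317913), .ofNat (nat_lit 392847), .ofNat (nat_lit 360628), .ofNat (nat_lit 435560)⟩, ⟨.ofNat (nat_lit 232045), .ofNat (nat_lit 383690), .ofNat (nat_lit 253393), .ofNat (nat_lit 405038), .ofNat (nat_lit 232852), .ofNat (nat_lit 382718), .ofNat (nat_lit 254209), .ofNat (nat_lit 404075)⟩⟩, [⟨nat_lit 16, nat_lit 93, nat_lit 100, nat_lit 53, nat_lit 370000696⟩]⟩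
noncomputable def p040_l48 : Lf2 := ⟨nat_lit 0, nat_lit 10, [nat_lit 0, nat_lit 5, nat_lit 5, nat_lit 20], true, nat_lit 160, nat_lit 240, nat_lit 0, nat_lit 288, ⟨nat_lit 0, nat_lit 0, nat_lit 1000, nat_lit 6, nat_lit 150, nat_lit 1000, nat_lit 127, nat_lit 1000, nat_lit 153600, nat_lit 311, nat_lit 212817, nat_lit 328, nat_lit 51887504, nat_lit 0, nat_lit 0, nat_lit 3675839, false, false⟩,
 nat_lit 0, nat_lit 10757, nat_lit 0, nat_lit 0, nat_lit 6697, nat_lit 0, nat_lit 0, nat_lit 0, nat_lit 0, nat_lit 0, nat_lit 0, nat_lit 0, nat_lit 0, nat_lit 27270859716595, nat_lit 61, nat_lit 250000, nat_lit 0, nat_lit 0, [(nat_lit 9, [(nat_lit 4, nat_lit 1000)])],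
 ⟨p040_k6, nat_lit 0, nat_lit 0, nat_lit 137, nat_lit 0, nat_lit 60889, [nat_lit 4076800001, nat_lit 1163866667, nat_lit 14000000], [], [nat_lit 10508672857, nat_lit 10989111393, nat_lit 10588320343, nat_lit 11042765437, nat_lit 15194848779, nat_lit 15669157228, nat_lit 14914830532, nat_lit 15365335184], nat_lit 1271250, nat_lit 1271250, nat_lit 490000, nat_lit 780000, nat_lit 1100001, nat_lit 1785000, [nat_lit 1100000, nat_lit 1442500, nat_lit 1271250], [nat_lit 11, nat_lit 40, nat_lit 20, nat_lit 80, nat_lit 1, nat_lit 401, nat_lit 175, nat_lit 11]⟩, C1.Rw.none,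
 ⟨nat_lit 5477, nat_lit 5591, ⟨.ofNat (nat_lit 315226), .ofNat (nat_lit 391049), .ofNat (nat_lit 357922), .ofNat (nat_lit 433745), .ofNat (nat_lit 317913), .ofNat (nat_lit 392847), .ofNat (nat_lit 360628), .ofNat (nat_lit 435560)⟩, ⟨.ofNat (nat_lit 232045), .ofNat (nat_lit 383690), .ofNat (nat_lit 253393), .ofNat (nat_lit 405038), .ofNat (nat_lit 232852), .ofNat (nat_lit 382718), .ofNat (nat_lit 254209), .ofNat (nat_lit 404075)⟩⟩, [⟨nat_lit 16, nat_lit 93, nat_lit 100, nat_lit 53, nat_lit 515503597⟩]⟩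
noncomputable def p040_l49 : Lf2 := ⟨nat_lit 0, nat_lit 10, [nat_lit 0, nat_lit 5, nat_lit 5, nat_lit 20], false, nat_lit 160, nat_lit 240, nat_lit 0, nat_lit 288, ⟨nat_lit 502, nat_lit 63, nat_lit 435, nat_lit 6, nat_lit 174, nat_lit 498, nat_lit 127, nat_lit 435, nat_lit 153600, nat_lit 311, nat_lit 54279, nat_lit 271, nat_lit 49824940, nat_lit 10639362, nat_lit 6535698, nat_lit 3951567, false, false⟩,
 nat_lit 14426, nat_lit 0, nat_lit 0, nat_lit 0, nat_lit 7637, nat_lit 6367, nat_lit 0, nat_lit 0, nat_lit 0, nat_lit 0, nat_lit 0, nat_lit 0, nat_lit 0, nat_lit 0, nat_lit 0, nat_lit 124500, nat_lit 0, nat_lit 0, [(nat_lit 6, [(nat_lit 0, nat_lit 63), (nat_lit 4, nat_lit 435)]), (nat_lit 9, [(nat_lit 0, nat_lit 63), (nat_lit 4, nat_lit 435)])],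
 ⟨p040_k5, nat_lit 0, nat_lit 0, nat_lit 141, nat_lit 0, nat_lit 153738, [nat_lit 3899288000, nat_lit 3391812400, nat_lit 5637929200], [], [nat_lit 6606350364, nat_lit 10554758156, nat_lit 7718885576, nat_lit 11392659600, nat_lit 11361553868, nat_lit 15249782864, nat_lit 12173041628, nat_lit 15816853732], nat_lit 1271250, nat_lit 1271250, nat_lit 780000, nat_lit 1100001, nat_lit 1100001, nat_lit 1785000, [nat_lit 1100000, nat_lit 1442500, nat_lit 1271250], [nat_lit 48, nat_lit 40, nat_lit 20, nat_lit 80, nat_lit 12, nat_lit 401, nat_lit 175, nat_lit 10]⟩, ⟨p040_k5, nat_lit 0, nat_lit 0, nat_lit 336, nat_lit 0, nat_lit 153738, [nat_lit 2353376000, nat_lit 3137500000, nat_lit 5959744000], [], [nat_lit 25233171304, nat_lit 22006040878, nat_lit 21060044784, nat_lit 21494595990, nat_lit 19273733272, nat_lit 17317252664, nat_lit 22314020889, nat_lit 19474779486], nat_lit 1271250, nat_lit 1271250, nat_lit 780000, nat_lit 1100001,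 nat_lit 0, nat_lit 2034000, [nat_lit 1100000, nat_lit 1442500, nat_lit 1271250], [nat_lit 48, nat_lit 40, nat_lit 20, nat_lit 80, nat_lit 12, nat_lit 428, nat_lit 200, nat_lit 11]⟩,
 ⟨nat_lit 5477, nat_lit 6325, ⟨.ofNat (nat_lit 378206), .ofNat (nat_lit 460470), .ofNat (nat_lit 399574), .ofNat (nat_lit 481826), .ofNat (nat_lit 392847), .ofNat (nat_lit 467780), .ofNat (nat_lit 414204), .ofNat (nat_lit 489125)⟩, ⟨.ofNat (nat_lit 225423), .ofNat (nat_lit 389952), .ofNat (nat_lit 246791), .ofNat (nat_lit 411320), .ofNat (nat_lit 232852), .ofNat (nat_lit 382718), .ofNat (nat_lit 254209), .ofNat (nat_lit 404075)⟩⟩, [⟨nat_lit 4, nat_lit 100, nat_lit 98, nat_lit 54, nat_lit 680421607⟩]⟩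
noncomputable def p040_l50 : Lf2 := ⟨nat_lit 0, nat_lit 10, [nat_lit 0, nat_lit 5, nat_lit 5, nat_lit 20], false, nat_lit 160, nat_lit 240, nat_lit 0, nat_lit 268, ⟨nat_lit 1000, nat_lit 0, nat_lit 0, nat_lit 0, nat_lit 0, nat_lit 0, nat_lit 0, nat_lit 0, nat_lit 0, nat_lit 0, nat_lit 0, nat_lit 0, nat_lit 0, nat_lit 0, nat_lit 0, nat_lit 0, false, false⟩,
 nat_lit 33728, nat_lit 0, nat_lit 0, nat_lit 0, nat_lit 19632, nat_lit 12208, nat_lit 0, nat_lit 0, nat_lit 0, nat_lit 0, nat_lit 0, nat_lit 0, nat_lit 0, nat_lit 0, nat_lit 0, nat_lit 0, nat_lit 0, nat_lit 0, [],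
 ⟨p040_k3, nat_lit 0, nat_lit 0, nat_lit 152, nat_lit 0, nat_lit 240242, [nat_lit 4688000000, nat_lit 6250000000, nat_lit 9842000000], [], [nat_lit 9593349088, nat_lit 12316713248, nat_lit 9195047856, nat_lit 11692383872, nat_lit 13826457360, nat_lit 15969939040, nat_lit 12983905536, nat_lit 14845113088], nat_lit 1271250, nat_lit 1271250, nat_lit 780000, nat_lit 1100001, nat_lit 1100001, nat_lit 1785000, [nat_lit 1100000, nat_lit 1442500, nat_lit 1271250], [nat_lit 11, nat_lit 40, nat_lit 20, nat_lit 80, nat_lit 1, nat_lit 401, nat_lit 175, nat_lit 11]⟩, ⟨p040_k3, nat_lit 0, nat_lit 0, nat_lit 303, nat_lit 0, nat_lit 240242, [nat_lit 4688000000, nat_lit 6250000000, nat_lit 9842000000], [], [nat_lit 43086217216, nat_lit 36631383712, nat_lit 32969727216, nat_lit 34203876960, nat_lit 31178458698, nat_lit 27368322453, nat_lit 37055457125, nat_lit 31576551895], nat_lit 1271250, nat_lit 1271250, nat_lit 780000, nat_lit 1100001,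 nat_lit 0, nat_lit 1892750, [nat_lit 1100000, nat_lit 1442500, nat_lit 1271250], [nat_lit 11, nat_lit 40, nat_lit 20, nat_lit 80, nat_lit 1, nat_lit 428, nat_lit 200, nat_lit 12]⟩,
 zbF0, [⟨nat_lit 4, nat_lit 100, nat_lit 96, nat_lit 54, nat_lit 835900937⟩]⟩
noncomputable def p040_l51 : Lf2 := ⟨nat_lit 0, nat_lit 10, [nat_lit 0, nat_lit 5, nat_lit 5, nat_lit 20], false, nat_lit 160, nat_lit 240, nat_lit 0, nat_lit 160, ⟨nat_lit 1000, nat_lit 0, nat_lit 0, nat_lit 0, nat_lit 0, nat_lit 0, nat_lit 0, nat_lit 0, nat_lit 0, nat_lit 0, nat_lit 0, nat_lit 0, nat_lit 0, nat_lit 0, nat_lit 0, nat_lit 0, false, false⟩,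
 nat_lit 11429, nat_lit 0, nat_lit 0, nat_lit 19657, nat_lit 5206, nat_lit 6050, nat_lit 0, nat_lit 0, nat_lit 0, nat_lit 0, nat_lit 0, nat_lit 0, nat_lit 0, nat_lit 0, nat_lit 0, nat_lit 0, nat_lit 0, nat_lit 0, [],
 ⟨p040_k8, nat_lit 0, nat_lit 0, nat_lit 112, nat_lit 0, nat_lit 27489, [nat_lit 4688000000, nat_lit 7968000001, nat_lit 11872000000], [], [nat_lit 32621123040, nat_lit 29868513012, nat_lit 25817765009, nat_lit 26588850597, nat_lit 25817765009, nat_lit 26588850597, nat_lit 32519422889, nat_lit 29997855141], nat_lit 1271250, nat_lit 1271250, nat_lit 1100001, nat_lit 1785000, nat_lit 1100001, nat_lit 1785000, [nat_lit 1100000, nat_lit 1785000, nat_lit 1271250], [nat_lit 21, nat_lit 40, nat_lit 20, nat_lit 80, nat_lit 14, nat_lit 428, nat_lit 200, nat_lit 10]⟩, ⟨p040_k8, nat_lit 0, nat_lit 0, nat_lit 205, nat_lit 0, nat_lit 27489, [nat_lit 4688000000, nat_lit 7968000000, nat_lit 11872000000], [], [nat_lit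 38595244000, nat_lit 35396379100, nat_lit 35017653800, nat_lit 35885672800, nat_lit 29839209200, nat_lit 30709713100, nat_lit 37264249000, nat_lit 34413452700], nat_lit 1271250, nat_lit 1271250, nat_lit 1100001, nat_lit 1785000, nat_lit 0, nat_lit 1100001, [nat_lit 1100000, nat_lit 1785000, nat_lit 1271250], [nat_lit 21, nat_lit 40, nat_lit 20, nat_lit 80, nat_lit 14, nat_lit 401, nat_lit 175, nat_lit 10]⟩,
 zbF0, []⟩
noncomputable def p040_l52 : Lf2 := ⟨nat_lit 0, nat_lit 10, [nat_lit 0, nat_lit 5, nat_lit 5, nat_lit 20], false, nat_lit 160, nat_lit 240, nat_lit 0, nat_lit 160, ⟨nat_lit 1000, nat_lit 0, nat_lit 0, nat_lit 0, nat_lit 0, nat_lit 0, nat_lit 0, nat_lit 0, nat_lit 0, nat_lit 0, nat_lit 0, nat_lit 0, nat_lit 0, nat_lit 0, nat_lit 0, nat_lit 0, false, false⟩,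
 nat_lit 11543, nat_lit 428, nat_lit 0, nat_lit 0, nat_lit 6968, nat_lit 6111, nat_lit 0, nat_lit 0, nat_lit 0, nat_lit 945, nat_lit 0, nat_lit 0, nat_lit 0, nat_lit 0, nat_lit 0, nat_lit 0, nat_lit 0, nat_lit 0, [],
 ⟨p040_k7, nat_lit 0, nat_lit 0, nat_lit 142, nat_lit 0, nat_lit 240242, [nat_lit 4688000000, nat_lit 7968000001, nat_lit 9842000000], [], [nat_lit 31621882736, nat_lit 27937636352, nat_lit 26619099440, nat_lit 27495835488, nat_lit 27393687920, nat_lit 27495835488, nat_lit 28298037216, nat_lit 29023095840], nat_lit 1271250, nat_lit 1271250, nat_lit 1271250, nat_lit 1271250, nat_lit 1100001, nat_lit 1785000, [nat_lit 1100000, nat_lit 1785000, nat_lit 1271250], [nat_lit 29, nat_lit 40, nat_lit 20, nat_lit 80, nat_lit 17, nat_lit 428, nat_lit 200, nat_lit 12]⟩, ⟨p040_k8, nat_lit 0, nat_lit 0, nat_lit 373, nat_lit 0, nat_lit 270049, [nat_lit 4688000000, nat_lit 7968000000, nat_lit 11872000000], [], [nat_lit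 38688198240, nat_lit 35270109420, nat_lit 35141361224, nat_lit 36084297444, nat_lit 30673034560, nat_lit 31620865928, nat_lit 37247746060, nat_lit 32632342000], nat_lit 1271250, nat_lit 1271250, nat_lit 1100001, nat_lit 1785000, nat_lit 0, nat_lit 1100001, [nat_lit 1100000, nat_lit 1785000, nat_lit 1271250], [nat_lit 21, nat_lit 40, nat_lit 20, nat_lit 80, nat_lit 14, nat_lit 401, nat_lit 175, nat_lit 10]⟩,
 zbF0, []⟩
noncomputable def p040_l53 : Lf2 := ⟨nat_lit 0, nat_lit 10, [nat_lit 0, nat_lit 5, nat_lit 5, nat_lit 20], false, nat_lit 160, nat_lit 240, nat_lit 160, nat_lit 288, ⟨nat_lit 1000, nat_lit 0, nat_lit 0, nat_lit 0, nat_lit 0, nat_lit 0, nat_lit 0, nat_lit 0, nat_lit 0, nat_lit 0, nat_lit 0, nat_lit 0, nat_lit 0, nat_lit 0, nat_lit 0, nat_lit 0, false, false⟩,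
 nat_lit 12665, nat_lit 0, nat_lit 0, nat_lit 20632, nat_lit 5206, nat_lit 6705, nat_lit 0, nat_lit 0, nat_lit 0, nat_lit 0, nat_lit 0, nat_lit 0, nat_lit 0, nat_lit 0, nat_lit 0, nat_lit 0, nat_lit 0, nat_lit 0, [],
 ⟨p040_k8, nat_lit 0, nat_lit 0, nat_lit 112, nat_lit 0, nat_lit 27489, [nat_lit 4688000000, nat_lit 7968000001, nat_lit 11872000000], [], [nat_lit 32621123040, nat_lit 29868513012, nat_lit 25817765009, nat_lit 26588850597, nat_lit 25817765009, nat_lit 26588850597, nat_lit 32519422889, nat_lit 29997855141], nat_lit 1271250, nat_lit 1271250, nat_lit 1100001, nat_lit 1785000, nat_lit 1100001, nat_lit 1785000, [nat_lit 1100000, nat_lit 1785000, nat_lit 1271250], [nat_lit 21, nat_lit 40, nat_lit 20, nat_lit 80, nat_lit 14, nat_lit 428, nat_lit 200, nat_lit 10]⟩, ⟨p040_k8, nat_lit 0, nat_lit 0, nat_lit 112, nat_lit 0, nat_lit 27489, [nat_lit 4688000000, nat_lit 7968000000, nat_lit 11872000000], [], [nat_lit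 34905359200, nat_lit 31360170910, nat_lit 29945278620, nat_lit 26604270990, nat_lit 24973221884, nat_lit 25813187224, nat_lit 26728876145, nat_lit 27425092333], nat_lit 1271250, nat_lit 1271250, nat_lit 1100001, nat_lit 1785000, nat_lit 1271250, nat_lit 1271250, [nat_lit 1100000, nat_lit 1785000, nat_lit 1271250], [nat_lit 21, nat_lit 40, nat_lit 20, nat_lit 80, nat_lit 14, nat_lit 428, nat_lit 200, nat_lit 10]⟩,
 zbF0, []⟩
noncomputable def p040_l54 : Lf2 := ⟨nat_lit 0, nat_lit 10, [nat_lit 0, nat_lit 5, nat_lit 5, nat_lit 20], false, nat_lit 160, nat_lit 240, nat_lit 160, nat_lit 288, ⟨nat_lit 1000, nat_lit 0, nat_lit 0, nat_lit 0, nat_lit 0, nat_lit 0, nat_lit 0, nat_lit 0, nat_lit 0, nat_lit 0, nat_lit 0, nat_lit 0, nat_lit 0, nat_lit 0, nat_lit 0, nat_lit 0, false, false⟩,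
 nat_lit 12358, nat_lit 0, nat_lit 0, nat_lit 0, nat_lit 7193, nat_lit 6542, nat_lit 0, nat_lit 0, nat_lit 0, nat_lit 0, nat_lit 0, nat_lit 0, nat_lit 0, nat_lit 0, nat_lit 0, nat_lit 0, nat_lit 0, nat_lit 0, [],
 ⟨p040_k7, nat_lit 0, nat_lit 0, nat_lit 142, nat_lit 0, nat_lit 240242, [nat_lit 4688000000, nat_lit 7968000001, nat_lit 9842000000], [], [nat_lit 31845780686, nat_lit 28042568252, nat_lit 26171986190, nat_lit 27060351588, nat_lit 27194380670, nat_lit 27060351588, nat_lit 27846509916, nat_lit 28579256340], nat_lit 1271250, nat_lit 1271250, nat_lit 1271250, nat_lit 1271250, nat_lit 1100001, nat_lit 1785000, [nat_lit 1100000, nat_lit 1785000, nat_lit 1271250], [nat_lit 29, nat_lit 40, nat_lit 20, nat_lit 80, nat_lit 17, nat_lit 428, nat_lit 200, nat_lit 12]⟩, ⟨p040_k8, nat_lit 0, nat_lit 0, nat_lit 206, nat_lit 0, nat_lit 270049, [nat_lit 4688000000, nat_lit 7968000000, nat_lit 11872000000], [], [nat_lit 34656973280,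 nat_lit 30712220760, nat_lit 30939713016, nat_lit 32348332424, nat_lit 32817320058, nat_lit 34108909314, nat_lit 33994493140, nat_lit 35058543080], nat_lit 1271250, nat_lit 1271250, nat_lit 1100001, nat_lit 1785000, nat_lit 1271250, nat_lit 1271250, [nat_lit 1100000, nat_lit 1785000, nat_lit 1271250], [nat_lit 21, nat_lit 40, nat_lit 20, nat_lit 80, nat_lit 14, nat_lit 456, nat_lit 225, nat_lit 11]⟩,
 zbF0, [⟨nat_lit 7, nat_lit 100, nat_lit 98, nat_lit 54, nat_lit 391037757⟩]⟩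
noncomputable def b_VL_600_600_5_96 : St := ⟨true, nat_lit 1, nat_lit 1, nat_lit 1, nat_lit 40, nat_lit 240, nat_lit 280, nat_lit 240, nat_lit 280, nat_lit 16, nat_lit 240, nat_lit 20, nat_lit 40, nat_lit 160, nat_lit 240, nat_lit 0, nat_lit 288, nat_lit 40, nat_lit 68, nat_lit 0, nat_lit 0, nat_lit 0, nat_lit 0⟩
theorem d_VL_600_600_5_96 (h : EB TB.env) : Dead b_VL_600_600_5_96 := chkB_sound0 h (T :=
(.spl (nat_lit 2) (nat_lit 160)
(.spl (nat_lit 2) (nat_lit 120)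
(.spl (nat_lit 0) (nat_lit 260)
(.ord (.spl (nat_lit 6) (nat_lit 44)
(.spl (nat_lit 0) (nat_lit 250)
(.ord (.leaf p040_l30))
(.trZ (nat_lit 0) (nat_lit 100) (nat_lit 99) (nat_lit 45) (nat_lit 20) (.leaf p040_l31)))
(.leaf p040_l32)))
(.trZ (nat_lit 0) (nat_lit 100) (nat_lit 97) (nat_lit 49) (nat_lit 24) (.spl (nat_lit 2) (nat_lit 80)
(.spl (nat_lit 1) (nat_lit 260)
(.leaf p040_l33)
(.trZ (nat_lit 0) (nat_lit 100) (nat_lit 100) (nat_lit 60) (nat_lit 36) (.trX (nat_lit 19) (nat_lit 100) (nat_lit 99) (nat_lit 63) (nat_lit 268) (.spl (nat_lit 0) (nat_lit 270)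
(.ord (.spl (nat_lit 6) (nat_lit 56)
(.spl (nat_lit 1) (nat_lit 265)
(.leaf p040_l34)
(.ord (.trZ (nat_lit 0) (nat_lit 100) (nat_lit 100) (nat_lit 65) (nat_lit 40) (.trX (nat_lit 19) (nat_lit 99) (nat_lit 100) (nat_lit 63) (nat_lit 264) (.spl (nat_lit 5) (nat_lit 160)
(.leaf p040_l35)
(.leaf p040_l36))))))
(.leaf p040_l37)))
(.trZ (nat_lit 0) (nat_lit 100) (nat_lit 98) (nat_lit 64) (nat_lit 40) (.spl (nat_lit 5) (nat_lit 160)
(.spl (nat_lit 5) (nat_lit 80)
(.leaf p040_l38)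
(.leaf p040_l39))
(.spl (nat_lit 0) (nat_lit 275)
(.ord (.leaf p040_l40))
(.trZ (nat_lit 0) (nat_lit 100) (nat_lit 97) (nat_lit 67) (nat_lit 44) (.leaf p040_l41)))))))))
(.spl (nat_lit 0) (nat_lit 270)
(.ord (.leaf p040_l42))
(.spl (nat_lit 0) (nat_lit 275)
(.ord (.leaf p040_l43))
(.spl (nat_lit 6) (nat_lit 60)
(.spl (nat_lit 6) (nat_lit 48)
(.spl (nat_lit 4) (nat_lit 200)
(.leaf p040_l44)
(.spl (nat_lit 1) (nat_lit 260)
(.leaf p040_l45)
(.trX (nat_lit 19) (nat_lit 100) (nat_lit 99) (nat_lit 63) (nat_lit 268) (.leaf p040_l46))))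
(.leaf p040_l47))
(.leaf p040_l48)))))))
(.spl (nat_lit 1) (nat_lit 260)
(.leaf p040_l49)
(.ord (.trX (nat_lit 19) (nat_lit 100) (nat_lit 99) (nat_lit 63) (nat_lit 268) (.leaf p040_l50)))))
(.spl (nat_lit 5) (nat_lit 160)
(.spl (nat_lit 0) (nat_lit 260)
(.ord (.leaf p040_l51))
(.leaf p040_l52))
(.spl (nat_lit 0) (nat_lit 260)
(.ord (.leaf p040_l53))
(.leaf p040_l54))))) (by decide +kernel)
noncomputable def p040_l55 : Lf2 := ⟨nat_lit 0, nat_lit 10, [nat_lit 0, nat_lit 5, nat_lit 5, nat_lit 20], true, nat_lit 240, nat_lit 288, nat_lit 0, nat_lit 288, ⟨nat_lit 0, nat_lit 0, nat_lit 1000, nat_lit 6, nat_lit 163, nat_lit 1000, nat_lit 179, nat_lit 1000, nat_lit 29345, nat_lit 255, nat_lit 21394, nat_lit 200, nat_lit 46762730, nat_lit 0, nat_lit 0, nat_lit 4408906, false, false⟩,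
 nat_lit 0, nat_lit 8239, nat_lit 0, nat_lit 330722, nat_lit 4361, nat_lit 0, nat_lit 0, nat_lit 0, nat_lit 0, nat_lit 0, nat_lit 0, nat_lit 0, nat_lit 0, nat_lit 0, nat_lit 166, nat_lit 1000000, nat_lit 0, nat_lit 0, [(nat_lit 6, [(nat_lit 6, nat_lit 1000)])],
 ⟨p040_k12, nat_lit 0, nat_lit 0, nat_lit 194, nat_lit 0, nat_lit 51563, [nat_lit 4113520001, nat_lit 348400000], [], [nat_lit 16091673099, nat_lit 16989082748, nat_lit 22068015881, nat_lit 20118648881, nat_lit 18405625833, nat_lit 19561889166, nat_lit 20011176622, nat_lit 21002624159], nat_lit 1271250, nat_lit 1271250, nat_lit 88400, nat_lit 1704000, nat_lit 1271250, nat_lit 1271250, [nat_lit 1100000, nat_lit 2470000], [nat_lit 116, nat_lit 40, nat_lit 20, nat_lit 80, nat_lit 65, nat_lit 428, nat_lit 200, nat_lit 11]⟩, C1.Rw.none,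
 ⟨nat_lit 5916, nat_lit 6325, ⟨.ofNat (nat_lit 164319), .ofNat (nat_lit 624961), .ofNat (nat_lit 185687), .ofNat (nat_lit 646322), .ofNat (nat_lit 181423), .ofNat (nat_lit 621173), .ofNat (nat_lit 202762), .ofNat (nat_lit 642505)⟩, ⟨.ofNat (nat_lit 389952), .ofNat (nat_lit 488669), .ofNat (nat_lit 411320), .ofNat (nat_lit 510037), .ofNat (nat_lit 386479), .ofNat (nat_lit 480719), .ofNat (nat_lit 407818), .ofNat (nat_lit 502058)⟩⟩, [⟨nat_lit 16, nat_lit 100, nat_lit 99, nat_lit 54, nat_lit 10101010101⟩, ⟨nat_lit 4, nat_lit 99, nat_lit 100, nat_lit 54, nat_lit 10101010101⟩]⟩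
noncomputable def p040_l56 : Lf2 := ⟨nat_lit 0, nat_lit 10, [nat_lit 0, nat_lit 5, nat_lit 5, nat_lit 20], true, nat_lit 240, nat_lit 268, nat_lit 0, nat_lit 288, ⟨nat_lit 0, nat_lit 0, nat_lit 1000, nat_lit 6, nat_lit 109, nat_lit 1000, nat_lit 169, nat_lit 1000, nat_lit 126379, nat_lit 302, nat_lit 109350, nat_lit 296, nat_lit 51584303, nat_lit 0, nat_lit 0, nat_lit 3652133, false, false⟩,
 nat_lit 0, nat_lit 11722, nat_lit 0, nat_lit 0, nat_lit 6823, nat_lit 0, nat_lit 0, nat_lit 0, nat_lit 0, nat_lit 0, nat_lit 0, nat_lit 0, nat_lit 0, nat_lit 20257803242942, nat_lit 61, nat_lit 249415, nat_lit 0, nat_lit 0, [(nat_lit 9, [(nat_lit 3, nat_lit 9), (nat_lit 4, nat_lit 991)])],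
 ⟨p040_k3, nat_lit 0, nat_lit 0, nat_lit 179, nat_lit 0, nat_lit 131452, [nat_lit 4466521600, nat_lit 1164242267, nat_lit 16854800], [], [nat_lit 16816440783, nat_lit 17436389104, nat_lit 14581783488, nat_lit 15173895936, nat_lit 19255469093, nat_lit 20168073155, nat_lit 16459946957, nat_lit 17337940277], nat_lit 1271250, nat_lit 1271250, nat_lit 134400, nat_lit 490000, nat_lit 1271250, nat_lit 1271250, [nat_lit 1100000, nat_lit 1442500, nat_lit 1271250], [nat_lit 11, nat_lit 40, nat_lit 20, nat_lit 80, nat_lit 1, nat_lit 401, nat_lit 175, nat_lit 11]⟩, C1.Rw.none,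
 ⟨nat_lit 5700, nat_lit 5917, ⟨.ofNat (nat_lit 197129), .ofNat (nat_lit 307076), .ofNat (nat_lit 229138), .ofNat (nat_lit 339085), .ofNat (nat_lit 205119), .ofNat (nat_lit 312525), .ofNat (nat_lit 237132), .ofNat (nat_lit 344538)⟩, ⟨.ofNat (nat_lit 386479), .ofNat (nat_lit 441452), .ofNat (nat_lit 407818), .ofNat (nat_lit 462791), .ofNat (nat_lit 384640), .ofNat (nat_lit 438343), .ofNat (nat_lit 405982), .ofNat (nat_lit 459685)⟩⟩, [⟨nat_lit 0, nat_lit 100, nat_lit 100, nat_lit 70, nat_lit 311799613⟩, ⟨nat_lit 4, nat_lit 100, nat_lit 97, nat_lit 54, nat_lit 909332390⟩]⟩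
noncomputable def p040_l57 : Lf2 := ⟨nat_lit 0, nat_lit 10, [nat_lit 0, nat_lit 5, nat_lit 5, nat_lit 20], true, nat_lit 240, nat_lit 260, nat_lit 0, nat_lit 288, ⟨nat_lit 0, nat_lit 0, nat_lit 1000, nat_lit 6, nat_lit 107, nat_lit 1000, nat_lit 165, nat_lit 1000, nat_lit 256267, nat_lit 339, nat_lit 109350, nat_lit 296, nat_lit 52036553, nat_lit 0, nat_lit 0, nat_lit 3587786, false, false⟩,
 nat_lit 0, nat_lit 11274, nat_lit 0, nat_lit 0, nat_lit 6866, nat_lit 0, nat_lit 0, nat_lit 0, nat_lit 0, nat_lit 0, nat_lit 0, nat_lit 0, nat_lit 0, nat_lit 15015685838997, nat_lit 61, nat_lit 249285, nat_lit 0, nat_lit 0, [(nat_lit 9, [(nat_lit 3, nat_lit 11), (nat_lit 4, nat_lit 989)])],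
 ⟨p040_k13, nat_lit 0, nat_lit 0, nat_lit 198, nat_lit 0, nat_lit 227349, [nat_lit 4553126400, nat_lit 17489200], [], [nat_lit 17193734045, nat_lit 18166301669, nat_lit 15685625380, nat_lit 16292145024, nat_lit 19120051613, nat_lit 20059484309, nat_lit 17226020697, nat_lit 18147908530], nat_lit 1271250, nat_lit 1271250, nat_lit 157850, nat_lit 356250, nat_lit 1271250, nat_lit 1271250, [nat_lit 1100000, nat_lit 2127500], [nat_lit 70, nat_lit 40, nat_lit 20, nat_lit 80, nat_lit 13, nat_lit 373, nat_lit 150, nat_lit 10]⟩, C1.Rw.none,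
 ⟨nat_lit 5477, nat_lit 5701, ⟨.ofNat (nat_lit 212791), .ofNat (nat_lit 274166), .ofNat (nat_lit 255475), .ofNat (nat_lit 316850), .ofNat (nat_lit 220501), .ofNat (nat_lit 280447), .ofNat (nat_lit 263215), .ofNat (nat_lit 323161)⟩, ⟨.ofNat (nat_lit 384640), .ofNat (nat_lit 422999), .ofNat (nat_lit 405982), .ofNat (nat_lit 444341), .ofNat (nat_lit 382718), .ofNat (nat_lit 420185), .ofNat (nat_lit 404075), .ofNat (nat_lit 441542)⟩⟩, [⟨nat_lit 0, nat_lit 100, nat_lit 100, nat_lit 80, nat_lit 445907030⟩, ⟨nat_lit 4, nat_lit 100, nat_lit 94, nat_lit 53, nat_lit 1018450550⟩]⟩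
noncomputable def p040_l58 : Lf2 := ⟨nat_lit 0, nat_lit 10, [nat_lit 0, nat_lit 5, nat_lit 5, nat_lit 20], true, nat_lit 240, nat_lit 260, nat_lit 0, nat_lit 288, ⟨nat_lit 0, nat_lit 0, nat_lit 1000, nat_lit 6, nat_lit 127, nat_lit 1000, nat_lit 165, nat_lit 1000, nat_lit 256267, nat_lit 339, nat_lit 150417, nat_lit 310, nat_lit 50621820, nat_lit 0, nat_lit 0, nat_lit 3849680, false, false⟩,
 nat_lit 0, nat_lit 7983, nat_lit 0, nat_lit 0, nat_lit 4861, nat_lit 0, nat_lit 131, nat_lit 0, nat_lit 0, nat_lit 0, nat_lit 0, nat_lit 0, nat_lit 0, nat_lit 17960689771762, nat_lit 87, nat_lit 400000, nat_lit 0, nat_lit 0, [(nat_lit 9, [(nat_lit 5, nat_lit 1000)])],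
 ⟨p040_k9, nat_lit 0, nat_lit 0, nat_lit 194, nat_lit 0, nat_lit 227349, [nat_lit 2918400000, nat_lit 787600001, nat_lit 9200000], [], [nat_lit 15353438155, nat_lit 15871576920, nat_lit 15079002777, nat_lit 15589125024, nat_lit 16636942675, nat_lit 17395622505, nat_lit 16309417331, nat_lit 17054721490], nat_lit 1271250, nat_lit 1271250, nat_lit 356250, nat_lit 490000, nat_lit 1271250, nat_lit 1271250, [nat_lit 1100000, nat_lit 1785000, nat_lit 1271250], [nat_lit 29, nat_lit 40, nat_lit 20, nat_lit 80, nat_lit 17, nat_lit 401, nat_lit 175, nat_lit 11]⟩, C1.Rw.none,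
 ⟨nat_lit 5477, nat_lit 5701, ⟨.ofNat (nat_lit 274166), .ofNat (nat_lit 312525), .ofNat (nat_lit 316850), .ofNat (nat_lit 355209), .ofNat (nat_lit 280447), .ofNat (nat_lit 317913), .ofNat (nat_lit 323161), .ofNat (nat_lit 360628)⟩, ⟨.ofNat (nat_lit 384640), .ofNat (nat_lit 422999), .ofNat (nat_lit 405982), .ofNat (nat_lit 444341), .ofNat (nat_lit 382718), .ofNat (nat_lit 420185), .ofNat (nat_lit 404075), .ofNat (nat_lit 441542)⟩⟩, [⟨nat_lit 0, nat_lit 100, nat_lit 100, nat_lit 80, nat_lit 180439763⟩, ⟨nat_lit 16, nat_lit 98, nat_lit 100, nat_lit 63, nat_lit 677633389⟩]⟩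
noncomputable def p040_l59 : Lf2 := ⟨nat_lit 0, nat_lit 10, [nat_lit 0, nat_lit 5, nat_lit 5, nat_lit 20], false, nat_lit 240, nat_lit 268, nat_lit 0, nat_lit 288, ⟨nat_lit 0, nat_lit 0, nat_lit 1000, nat_lit 6, nat_lit 149, nat_lit 1000, nat_lit 169, nat_lit 1000, nat_lit 126379, nat_lit 302, nat_lit 209067, nat_lit 327, nat_lit 48683467, nat_lit 0, nat_lit 0, nat_lit 4151616, false, false⟩,
 nat_lit 0, nat_lit 11936, nat_lit 0, nat_lit 0, nat_lit 6947, nat_lit 0, nat_lit 0, nat_lit 0, nat_lit 0, nat_lit 0, nat_lit 0, nat_lit 0, nat_lit 0, nat_lit 31186789770256, nat_lit 61, nat_lit 249350, nat_lit 0, nat_lit 0, [(nat_lit 9, [(nat_lit 3, nat_lit 10), (nat_lit 4, nat_lit 990)])],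
 ⟨p040_k7, nat_lit 0, nat_lit 0, nat_lit 188, nat_lit 0, nat_lit 240242, [nat_lit 4509824000, nat_lit 536812001, nat_lit 17172000], [], [nat_lit 14489628432, nat_lit 15684610576, nat_lit 14231752208, nat_lit 15502924576, nat_lit 16476493281, nat_lit 18251486431, nat_lit 16087370569, nat_lit 17774455144], nat_lit 1271250, nat_lit 1271250, nat_lit 490000, nat_lit 780000, nat_lit 1271250, nat_lit 1271250, [nat_lit 1100000, nat_lit 1785000, nat_lit 1271250], [nat_lit 29, nat_lit 40, nat_lit 20, nat_lit 80, nat_lit 17, nat_lit 401, nat_lit 175, nat_lit 11]⟩, ⟨p040_k8, nat_lit 0, nat_lit 0, nat_lit 409, nat_lit 0, nat_lit 270049, [nat_lit 0, nat_lit 0, nat_lit 0], [], [nat_lit 0, nat_lit 0, nat_lit 0, nat_lit 0, nat_lit 0, nat_lit 0, nat_lit 0, nat_lit 0], nat_lit 1271250, nat_lit 1271250, nat_lit 490000, nat_lit 780000, nat_lit 0, nat_lit 2034000, [nat_lit 1100000, nat_lit 1785000, nat_lit 1271250], [nat_lit 21, nat_lit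 40, nat_lit 20, nat_lit 80, nat_lit 14, nat_lit 401, nat_lit 175, nat_lit 11]⟩,
 ⟨nat_lit 5477, nat_lit 5917, ⟨.ofNat (nat_lit 307076), .ofNat (nat_lit 385610), .ofNat (nat_lit 349755), .ofNat (nat_lit 428288), .ofNat (nat_lit 317913), .ofNat (nat_lit 392847), .ofNat (nat_lit 360628), .ofNat (nat_lit 435561)⟩, ⟨.ofNat (nat_lit 386479), .ofNat (nat_lit 441452), .ofNat (nat_lit 407818), .ofNat (nat_lit 462791), .ofNat (nat_lit 382718), .ofNat (nat_lit 435171), .ofNat (nat_lit 404075), .ofNat (nat_lit 456528)⟩⟩, [⟨nat_lit 4, nat_lit 100, nat_lit 96, nat_lit 54, nat_lit 1062308177⟩]⟩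
noncomputable def p040_l60 : Lf2 := ⟨nat_lit 0, nat_lit 10, [nat_lit 0, nat_lit 5, nat_lit 5, nat_lit 20], false, nat_lit 240, nat_lit 268, nat_lit 0, nat_lit 288, ⟨nat_lit 1000, nat_lit 0, nat_lit 0, nat_lit 0, nat_lit 0, nat_lit 0, nat_lit 0, nat_lit 0, nat_lit 0, nat_lit 0, nat_lit 0, nat_lit 0, nat_lit 0, nat_lit 0, nat_lit 0, nat_lit 0, false, false⟩,
 nat_lit 14877, nat_lit 24055, nat_lit 0, nat_lit 0, nat_lit 22661, nat_lit 7876, nat_lit 0, nat_lit 0, nat_lit 0, nat_lit 860, nat_lit 0, nat_lit 0, nat_lit 0, nat_lit 0, nat_lit 0, nat_lit 0, nat_lit 0, nat_lit 0, [],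
 ⟨p040_k7, nat_lit 0, nat_lit 0, nat_lit 165, nat_lit 0, nat_lit 240242, [nat_lit 4688000000, nat_lit 7968000001, nat_lit 9842000000], [], [nat_lit 11018513780, nat_lit 13403527920, nat_lit 15703112094, nat_lit 18891204528, nat_lit 15229840303, nat_lit 19169104072, nat_lit 20283344922, nat_lit 23130157176], nat_lit 1271250, nat_lit 1271250, nat_lit 780000, nat_lit 1762500, nat_lit 1271250, nat_lit 1271250, [nat_lit 1100000, nat_lit 1785000, nat_lit 1271250], [nat_lit 29, nat_lit 40, nat_lit 20, nat_lit 80, nat_lit 17, nat_lit 428, nat_lit 200, nat_lit 12]⟩, ⟨p040_k8, nat_lit 0, nat_lit 0, nat_lit 387, nat_lit 0, nat_lit 270049, [nat_lit 4688000000, nat_lit 7968000000, nat_lit 11872000000], [], [nat_lit 49835623216, nat_lit 41377775840, nat_lit 34474267712, nat_lit 35646126864, nat_lit 32805777860, nat_lit 31143628477, nat_lit 45771005344, nat_lit 38655688327], nat_lit 1271250, nat_lit 1271250, nat_lit 780000, nat_lit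 1762500, nat_lit 0, nat_lit 2034000, [nat_lit 1100000, nat_lit 1785000, nat_lit 1271250], [nat_lit 21, nat_lit 40, nat_lit 20, nat_lit 80, nat_lit 14, nat_lit 456, nat_lit 225, nat_lit 12]⟩,
 zbF0, [⟨nat_lit 4, nat_lit 100, nat_lit 96, nat_lit 54, nat_lit 3472638088⟩]⟩
noncomputable def b_VL_600_600_5_97 : St := ⟨true, nat_lit 1, nat_lit 1, nat_lit 1, nat_lit 40, nat_lit 240, nat_lit 280, nat_lit 240, nat_lit 280, nat_lit 16, nat_lit 240, nat_lit 20, nat_lit 40, nat_lit 240, nat_lit 288, nat_lit 0, nat_lit 288, nat_lit 40, nat_lit 68, nat_lit 0, nat_lit 0, nat_lit 0, nat_lit 0⟩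
theorem d_VL_600_600_5_97 (h : EB TB.env) : Dead b_VL_600_600_5_97 := chkB_sound0 h (T :=
(.spl (nat_lit 0) (nat_lit 260)
(.ord (.leaf p040_l55))
(.trZ (nat_lit 0) (nat_lit 100) (nat_lit 97) (nat_lit 49) (nat_lit 24) (.trX (nat_lit 16) (nat_lit 100) (nat_lit 99) (nat_lit 63) (nat_lit 268) (.spl (nat_lit 2) (nat_lit 120)
(.spl (nat_lit 2) (nat_lit 80)
(.spl (nat_lit 0) (nat_lit 270)
(.ord (.leaf p040_l56))
(.trZ (nat_lit 0) (nat_lit 100) (nat_lit 96) (nat_lit 54) (nat_lit 28) (.trX (nat_lit 16) (nat_lit 98) (nat_lit 100) (nat_lit 63) (nat_lit 260) (.spl (nat_lit 2) (nat_lit 60)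
(.leaf p040_l57)
(.leaf p040_l58)))))
(.leaf p040_l59))
(.leaf p040_l60)))))) (by decide +kernel)
noncomputable def p040_l61 : Lf2 := ⟨nat_lit 0, nat_lit 10, [nat_lit 0, nat_lit 5, nat_lit 5, nat_lit 20], true, nat_lit 0, nat_lit 160, nat_lit 0, nat_lit 288, ⟨nat_lit 0, nat_lit 1000, nat_lit 0, nat_lit 6, nat_lit 115, nat_lit 1000, nat_lit 48, nat_lit 0, nat_lit 0, nat_lit 0, nat_lit 0, nat_lit 0, nat_lit 0, nat_lit 0, nat_lit 0, nat_lit 5000000, false, false⟩,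
 nat_lit 0, nat_lit 12972, nat_lit 0, nat_lit 0, nat_lit 6867, nat_lit 0, nat_lit 0, nat_lit 0, nat_lit 0, nat_lit 0, nat_lit 0, nat_lit 0, nat_lit 0, nat_lit 30405272440344, nat_lit 0, nat_lit 250000, nat_lit 0, nat_lit 0, [(nat_lit 6, [(nat_lit 0, nat_lit 1000)])],
 ⟨p040_k5, nat_lit 0, nat_lit 0, nat_lit 368, nat_lit 0, nat_lit 49341, [nat_lit 3128000000, nat_lit 3420800001, nat_lit 3855200000], [], [nat_lit 30008070588, nat_lit 29173916306, nat_lit 23349145857, nat_lit 24732569692, nat_lit 26125969058, nat_lit 23480245037, nat_lit 30874734618, nat_lit 27682252584], nat_lit 1271250, nat_lit 1271250, nat_lit 88400, nat_lit 780000, nat_lit 0, nat_lit 1100001, [nat_lit 1100000, nat_lit 1442500, nat_lit 1271250], [nat_lit 48, nat_lit 40, nat_lit 20, nat_lit 80, nat_lit 12, nat_lit 373, nat_lit 150, nat_lit 10]⟩, C1.Rw.none,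
 ⟨nat_lit 5916, nat_lit 6325, ⟨.ofNat (nat_lit 164319), .ofNat (nat_lit 378206), .ofNat (nat_lit 185687), .ofNat (nat_lit 399574), .ofNat (nat_lit 181423), .ofNat (nat_lit 385610), .ofNat (nat_lit 202762), .ofNat (nat_lit 406949)⟩, ⟨.negSucc (nat_lit 103633), .ofNat (nat_lit 225423), .negSucc (nat_lit 82265), .ofNat (nat_lit 246791), .negSucc (nat_lit 84722), .ofNat (nat_lit 229411), .negSucc (nat_lit 63383), .ofNat (nat_lit 250751)⟩⟩, []⟩
noncomputable def p040_l62 : Lf2 := ⟨nat_lit 0, nat_lit 10, [nat_lit 0, nat_lit 5, nat_lit 5, nat_lit 20], true, nat_lit 0, nat_lit 160, nat_lit 0, nat_lit 288, ⟨nat_lit 0, nat_lit 1000, nat_lit 0, nat_lit 6, nat_lit 205, nat_lit 1000, nat_lit 48, nat_lit 0, nat_lit 0, nat_lit 0, nat_lit 0, nat_lit 0, nat_lit 0, nat_lit 0, nat_lit 0, nat_lit 5000000, false, false⟩,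
 nat_lit 0, nat_lit 6345, nat_lit 0, nat_lit 2824, nat_lit 3358, nat_lit 0, nat_lit 0, nat_lit 0, nat_lit 0, nat_lit 0, nat_lit 0, nat_lit 0, nat_lit 0, nat_lit 24287788865421, nat_lit 0, nat_lit 400000, nat_lit 0, nat_lit 0, [(nat_lit 6, [(nat_lit 1, nat_lit 1000)])],
 ⟨p040_k8, nat_lit 0, nat_lit 0, nat_lit 224, nat_lit 0, nat_lit 49341, [nat_lit 2838000000, nat_lit 3296133334, nat_lit 3042266666], [], [nat_lit 34399142328, nat_lit 32596104524, nat_lit 31052953344, nat_lit 31599699248, nat_lit 28605953656, nat_lit 29175756064, nat_lit 31078456014, nat_lit 30911474512], nat_lit 1271250, nat_lit 1271250, nat_lit 780000, nat_lit 1762500, nat_lit 0, nat_lit 1100001, [nat_lit 1100000, nat_lit 1785000, nat_lit 1271250], [nat_lit 21, nat_lit 40, nat_lit 20, nat_lit 80, nat_lit 14, nat_lit 401, nat_lit 175, nat_lit 10]⟩, C1.Rw.none,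
 ⟨nat_lit 5916, nat_lit 6325, ⟨.ofNat (nat_lit 378206), .ofNat (nat_lit 624961), .ofNat (nat_lit 399574), .ofNat (nat_lit 646322), .ofNat (nat_lit 385610), .ofNat (nat_lit 621173), .ofNat (nat_lit 406949), .ofNat (nat_lit 642505)⟩, ⟨.negSucc (nat_lit 103633), .ofNat (nat_lit 225423), .negSucc (nat_lit 82265), .ofNat (nat_lit 246791), .negSucc (nat_lit 84722), .ofNat (nat_lit 229411), .negSucc (nat_lit 63383), .ofNat (nat_lit 250751)⟩⟩, []⟩
noncomputable def p040_l63 : Lf2 := ⟨nat_lit 0, nat_lit 10, [nat_lit 0, nat_lit 5, nat_lit 5, nat_lit 20], true, nat_lit 160, nat_lit 288, nat_lit 0, nat_lit 288, ⟨nat_lit 0, nat_lit 1000, nat_lit 0, nat_lit 6, nat_lit 163, nat_lit 1000, nat_lit 147, nat_lit 0, nat_lit 0, nat_lit 0, nat_lit 0, nat_lit 0, nat_lit 0, nat_lit 0, nat_lit 0, nat_lit 5000000, false, false⟩,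
 nat_lit 0, nat_lit 10960, nat_lit 0, nat_lit 1906, nat_lit 5802, nat_lit 0, nat_lit 0, nat_lit 0, nat_lit 0, nat_lit 0, nat_lit 0, nat_lit 0, nat_lit 0, nat_lit 32744686218212, nat_lit 0, nat_lit 400000, nat_lit 0, nat_lit 0, [(nat_lit 6, [(nat_lit 1, nat_lit 1000)])],
 ⟨p040_k5, nat_lit 0, nat_lit 0, nat_lit 199, nat_lit 0, nat_lit 49341, [nat_lit 2692266667, nat_lit 3429200000, nat_lit 3039200000], [], [nat_lit 31762679293, nat_lit 28713554233, nat_lit 29476655931, nat_lit 26705110155, nat_lit 26906005521, nat_lit 27589371474, nat_lit 25580929636, nat_lit 26061389614], nat_lit 1271250, nat_lit 1271250, nat_lit 88400, nat_lit 1704000, nat_lit 1271250, nat_lit 1271250, [nat_lit 1100000, nat_lit 1442500, nat_lit 1271250], [nat_lit 48, nat_lit 40, nat_lit 20, nat_lit 80, nat_lit 12, nat_lit 428, nat_lit 200, nat_lit 11]⟩, C1.Rw.none,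
 ⟨nat_lit 5916, nat_lit 6325, ⟨.ofNat (nat_lit 164319), .ofNat (nat_lit 624961), .ofNat (nat_lit 185687), .ofNat (nat_lit 646322), .ofNat (nat_lit 181423), .ofNat (nat_lit 621173), .ofNat (nat_lit 202762), .ofNat (nat_lit 642505)⟩, ⟨.ofNat (nat_lit 225423), .ofNat (nat_lit 488669), .ofNat (nat_lit 246791), .ofNat (nat_lit 510037), .ofNat (nat_lit 229411), .ofNat (nat_lit 480719), .ofNat (nat_lit 250751), .ofNat (nat_lit 502058)⟩⟩, [⟨nat_lit 0, nat_lit 100, nat_lit 100, nat_lit 60, nat_lit 24816062⟩, ⟨nat_lit 4, nat_lit 99, nat_lit 100, nat_lit 54, nat_lit 59359212⟩]⟩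
noncomputable def p040_l64 : Lf2 := ⟨nat_lit 1, nat_lit 10, [nat_lit 0, nat_lit 5, nat_lit 5, nat_lit 20], false, nat_lit 0, nat_lit 288, nat_lit 0, nat_lit 288, zbN0,
 nat_lit 0, nat_lit 0, nat_lit 0, nat_lit 0, nat_lit 0, nat_lit 0, nat_lit 0, nat_lit 0, nat_lit 0, nat_lit 0, nat_lit 0, nat_lit 0, nat_lit 0, nat_lit 0, nat_lit 0, nat_lit 0, nat_lit 0, nat_lit 0, [],
 C1.Rw.none, C1.Rw.none,
 zbF0, []⟩
noncomputable def p040_l65 : Lf2 := ⟨nat_lit 0, nat_lit 10, [nat_lit 0, nat_lit 5, nat_lit 5, nat_lit 20], true, nat_lit 0, nat_lit 268, nat_lit 0, nat_lit 288, ⟨nat_lit 0, nat_lit 1000, nat_lit 0, nat_lit 6, nat_lit 140, nat_lit 1000, nat_lit 90, nat_lit 0, nat_lit 0, nat_lit 0, nat_lit 0, nat_lit 0, nat_lit 0, nat_lit 0, nat_lit 0, nat_lit 5000000, false, false⟩,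
 nat_lit 0, nat_lit 423, nat_lit 0, nat_lit 1885, nat_lit 246, nat_lit 0, nat_lit 0, nat_lit 0, nat_lit 386, nat_lit 0, nat_lit 0, nat_lit 0, nat_lit 0, nat_lit 16854860656250, nat_lit 0, nat_lit 307300, nat_lit 0, nat_lit 0, [(nat_lit 9, [(nat_lit 0, nat_lit 618), (nat_lit 1, nat_lit 382)])],
 ⟨p040_k3, nat_lit 0, nat_lit 0, nat_lit 0, nat_lit 0, nat_lit 235564, [nat_lit 2958621440, nat_lit 3014544000, nat_lit 3410353600], [], [nat_lit 11202154140, nat_lit 11135697880, nat_lit 10644424992, nat_lit 11055280438, nat_lit 14701299105, nat_lit 15086114965, nat_lit 18402329926, nat_lit 18346407754], nat_lit 1271250, nat_lit 1271250, nat_lit 134400, nat_lit 1100001, nat_lit 0, nat_lit 1892750, [nat_lit 1100000, nat_lit 1442500, nat_lit 1271250], [nat_lit 11, nat_lit 40, nat_lit 20, nat_lit 80]⟩, C1.Rw.none,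
 ⟨nat_lit 5700, nat_lit 5917, ⟨.ofNat (nat_lit 197129), .ofNat (nat_lit 464143), .ofNat (nat_lit 229138), .ofNat (nat_lit 496151), .ofNat (nat_lit 205119), .ofNat (nat_lit 465963), .ofNat (nat_lit 237132), .ofNat (nat_lit 497975)⟩, ⟨.negSucc (nat_lit 84722), .ofNat (nat_lit 441452), .negSucc (nat_lit 63383), .ofNat (nat_lit 462791), .negSucc (nat_lit 75673), .ofNat (nat_lit 438343), .negSucc (nat_lit 54331), .ofNat (nat_lit 459685)⟩⟩, []⟩
noncomputable def p040_l66 : Lf2 := ⟨nat_lit 0, nat_lit 10, [nat_lit 0, nat_lit 5, nat_lit 5, nat_lit 20], true, nat_lit 0, nat_lit 268, nat_lit 0, nat_lit 288, ⟨nat_lit 0, nat_lit 1000, nat_lit 0, nat_lit 6, nat_lit 223, nat_lit 1000, nat_lit 90, nat_lit 0, nat_lit 0, nat_lit 0, nat_lit 0, nat_lit 0, nat_lit 0, nat_lit 0, nat_lit 0, nat_lit 5000000, false, false⟩,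
 nat_lit 0, nat_lit 1290, nat_lit 0, nat_lit 1025, nat_lit 750, nat_lit 0, nat_lit 0, nat_lit 0, nat_lit 276, nat_lit 0, nat_lit 0, nat_lit 0, nat_lit 0, nat_lit 14664753009337, nat_lit 0, nat_lit 400000, nat_lit 0, nat_lit 0, [(nat_lit 9, [(nat_lit 1, nat_lit 1000)])],
 ⟨p040_k7, nat_lit 0, nat_lit 0, nat_lit 0, nat_lit 0, nat_lit 235564, [nat_lit 2742800000, nat_lit 3038800001, nat_lit 2882000000], [], [nat_lit 17399938500, nat_lit 17201661750, nat_lit 16374152501, nat_lit 16666261251, nat_lit 21895106726, nat_lit 21720036439, nat_lit 21199010400, nat_lit 21453708875], nat_lit 1271250, nat_lit 1271250, nat_lit 1271250, nat_lit 1271250, nat_lit 0, nat_lit 1892750, [nat_lit 1100000, nat_lit 1785000, nat_lit 1271250], [nat_lit 29, nat_lit 40, nat_lit 20, nat_lit 80]⟩, C1.Rw.none,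
 ⟨nat_lit 5700, nat_lit 5917, ⟨.ofNat (nat_lit 464143), .ofNat (nat_lit 621202), .ofNat (nat_lit 496151), .ofNat (nat_lit 653208), .ofNat (nat_lit 465963), .ofNat (nat_lit 619393), .ofNat (nat_lit 497975), .ofNat (nat_lit 651403)⟩, ⟨.negSucc (nat_lit 84722), .ofNat (nat_lit 441452), .negSucc (nat_lit 63383), .ofNat (nat_lit 462791), .negSucc (nat_lit 75673), .ofNat (nat_lit 438343), .negSucc (nat_lit 54331), .ofNat (nat_lit 459685)⟩⟩, []⟩
noncomputable def p040_l67 : Lf2 := ⟨nat_lit 0, nat_lit 10, [nat_lit 0, nat_lit 5, nat_lit 5, nat_lit 20], true, nat_lit 0, nat_lit 160, nat_lit 0, nat_lit 288, ⟨nat_lit 0, nat_lit 1000, nat_lit 0, nat_lit 6, nat_lit 124, nat_lit 1000, nat_lit 48, nat_lit 0, nat_lit 0, nat_lit 0, nat_lit 0, nat_lit 0, nat_lit 0, nat_lit 0, nat_lit 0, nat_lit 5000000, false, false⟩,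
 nat_lit 0, nat_lit 14443, nat_lit 0, nat_lit 0, nat_lit 8407, nat_lit 0, nat_lit 0, nat_lit 0, nat_lit 0, nat_lit 0, nat_lit 0, nat_lit 0, nat_lit 0, nat_lit 62454705358022, nat_lit 0, nat_lit 820600, nat_lit 0, nat_lit 0, [(nat_lit 9, [(nat_lit 1, nat_lit 299), (nat_lit 2, nat_lit 701)])],
 ⟨p040_k3, nat_lit 0, nat_lit 0, nat_lit 0, nat_lit 0, nat_lit 235564, [nat_lit 2675203414, nat_lit 2756791467, nat_lit 1125997333], [], [nat_lit 22923291731, nat_lit 23531475647, nat_lit 18988004344, nat_lit 19536680663, nat_lit 18681732839, nat_lit 17241002320, nat_lit 23902743770, nat_lit 21948528213], nat_lit 1271250, nat_lit 1271250, nat_lit 134400, nat_lit 780000, nat_lit 0, nat_lit 1100001, [nat_lit 1100000, nat_lit 1442500, nat_lit 1271250], [nat_lit 11, nat_lit 40, nat_lit 20, nat_lit 80]⟩, C1.Rw.none,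
 ⟨nat_lit 5700, nat_lit 5917, ⟨.ofNat (nat_lit 197129), .ofNat (nat_lit 385610), .ofNat (nat_lit 229138), .ofNat (nat_lit 417619), .ofNat (nat_lit 205119), .ofNat (nat_lit 389244), .ofNat (nat_lit 237132), .ofNat (nat_lit 421257)⟩, ⟨.negSucc (nat_lit 84722), .ofNat (nat_lit 229411), .negSucc (nat_lit 63383), .ofNat (nat_lit 250751), .negSucc (nat_lit 75673), .ofNat (nat_lit 231202), .negSucc (nat_lit 54331), .ofNat (nat_lit 252544)⟩⟩, []⟩
noncomputable def p040_l68 : Lf2 := ⟨nat_lit 0, nat_lit 10, [nat_lit 0, nat_lit 5, nat_lit 5, nat_lit 20], true, nat_lit 0, nat_lit 160, nat_lit 0, nat_lit 288, ⟨nat_lit 0, nat_lit 1000, nat_lit 0, nat_lit 6, nat_lit 177, nat_lit 1000, nat_lit 48, nat_lit 0, nat_lit 0, nat_lit 0, nat_lit 0, nat_lit 0, nat_lit 0, nat_lit 0, nat_lit 0, nat_lit 5000000, false, false⟩,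
 nat_lit 0, nat_lit 24507, nat_lit 0, nat_lit 0, nat_lit 14265, nat_lit 0, nat_lit 0, nat_lit 0, nat_lit 0, nat_lit 0, nat_lit 0, nat_lit 0, nat_lit 0, nat_lit 96079962952793, nat_lit 0, nat_lit 400000, nat_lit 0, nat_lit 0, [(nat_lit 9, [(nat_lit 1, nat_lit 1000)])],
 ⟨p040_k7, nat_lit 0, nat_lit 0, nat_lit 0, nat_lit 0, nat_lit 235564, [nat_lit 2742800000, nat_lit 3038800001, nat_lit 2882000000], [], [nat_lit 25005396291, nat_lit 21290947206, nat_lit 19902555770, nat_lit 21112737885, nat_lit 16635528691, nat_lit 13319615176, nat_lit 22998580141, nat_lit 19726388851], nat_lit 1271250, nat_lit 1271250, nat_lit 780000, nat_lit 1100001, nat_lit 0, nat_lit 1100001, [nat_lit 1100000, nat_lit 1785000, nat_lit 1271250], [nat_lit 29, nat_lit 40, nat_lit 20, nat_lit 80]⟩, C1.Rw.none,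
 ⟨nat_lit 5700, nat_lit 5917, ⟨.ofNat (nat_lit 385610), .ofNat (nat_lit 464143), .ofNat (nat_lit 417619), .ofNat (nat_lit 496151), .ofNat (nat_lit 389244), .ofNat (nat_lit 465963), .ofNat (nat_lit 421257), .ofNat (nat_lit 497975)⟩, ⟨.negSucc (nat_lit 84722), .ofNat (nat_lit 229411), .negSucc (nat_lit 63383), .ofNat (nat_lit 250751), .negSucc (nat_lit 75673), .ofNat (nat_lit 231202), .negSucc (nat_lit 54331), .ofNat (nat_lit 252544)⟩⟩, []⟩
noncomputable def p040_l69 : Lf2 := ⟨nat_lit 0, nat_lit 10, [nat_lit 0, nat_lit 5, nat_lit 5, nat_lit 20], true, nat_lit 0, nat_lit 160, nat_lit 0, nat_lit 288, ⟨nat_lit 0, nat_lit 1000, nat_lit 0, nat_lit 6, nat_lit 223, nat_lit 1000, nat_lit 48, nat_lit 0, nat_lit 0, nat_lit 0, nat_lit 0, nat_lit 0, nat_lit 0, nat_lit 0, nat_lit 0, nat_lit 5000000, false, false⟩,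
 nat_lit 0, nat_lit 491102, nat_lit 0, nat_lit 0, nat_lit 285865, nat_lit 0, nat_lit 0, nat_lit 20000, nat_lit 0, nat_lit 0, nat_lit 0, nat_lit 0, nat_lit 0, nat_lit 400000000000000, nat_lit 0, nat_lit 400000, nat_lit 0, nat_lit 0, [(nat_lit 9, [(nat_lit 1, nat_lit 1000)])],
 ⟨p040_k7, nat_lit 0, nat_lit 0, nat_lit 0, nat_lit 0, nat_lit 235564, [nat_lit 322742800000, nat_lit 483038800000, nat_lit 562882000000], [], [nat_lit 949950445230, nat_lit 874376601045, nat_lit 616998816320, nat_lit 627430429740, nat_lit 380249306270, nat_lit 341609015295, nat_lit 619987395710, nat_lit 552636744115], nat_lit 1271250, nat_lit 1271250, nat_lit 1100001, nat_lit 1785000, nat_lit 0, nat_lit 1100001, [nat_lit 1100000, nat_lit 1785000, nat_lit 1271250], [nat_lit 29, nat_lit 40, nat_lit 20, nat_lit 80]⟩, C1.Rw.none,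
 ⟨nat_lit 5700, nat_lit 5917, ⟨.ofNat (nat_lit 464143), .ofNat (nat_lit 621202), .ofNat (nat_lit 496151), .ofNat (nat_lit 653208), .ofNat (nat_lit 465963), .ofNat (nat_lit 619393), .ofNat (nat_lit 497975), .ofNat (nat_lit 651403)⟩, ⟨.negSucc (nat_lit 84722), .ofNat (nat_lit 229411), .negSucc (nat_lit 63383), .ofNat (nat_lit 250751), .negSucc (nat_lit 75673), .ofNat (nat_lit 231202), .negSucc (nat_lit 54331), .ofNat (nat_lit 252544)⟩⟩, []⟩
noncomputable def p040_l70 : Lf2 := ⟨nat_lit 0, nat_lit 10, [nat_lit 0, nat_lit 5, nat_lit 5, nat_lit 20], true, nat_lit 160, nat_lit 268, nat_lit 0, nat_lit 288, ⟨nat_lit 0, nat_lit 1000, nat_lit 0, nat_lit 6, nat_lit 171, nat_lit 1000, nat_lit 138, nat_lit 0, nat_lit 0, nat_lit 0, nat_lit 0, nat_lit 0, nat_lit 0, nat_lit 0, nat_lit 0, nat_lit 5000000, false, false⟩,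
 nat_lit 0, nat_lit 9915, nat_lit 0, nat_lit 0, nat_lit 5771, nat_lit 0, nat_lit 0, nat_lit 0, nat_lit 0, nat_lit 0, nat_lit 0, nat_lit 0, nat_lit 0, nat_lit 38465068090052, nat_lit 0, nat_lit 400000, nat_lit 0, nat_lit 0, [(nat_lit 9, [(nat_lit 1, nat_lit 1000)])],
 ⟨p040_k3, nat_lit 0, nat_lit 0, nat_lit 0, nat_lit 0, nat_lit 235564, [nat_lit 2702720000, nat_lit 2968400001, nat_lit 2997199999], [], [nat_lit 27505322686, nat_lit 25993499587, nat_lit 26401499025, nat_lit 25023130301, nat_lit 23862387547, nat_lit 24274356700, nat_lit 23566793187, nat_lit 23858242648], nat_lit 1271250, nat_lit 1271250, nat_lit 134400, nat_lit 1708500, nat_lit 1271250, nat_lit 1271250, [nat_lit 1100000, nat_lit 1442500, nat_lit 1271250], [nat_lit 11, nat_lit 40, nat_lit 20, nat_lit 80]⟩, C1.Rw.none,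
 ⟨nat_lit 5700, nat_lit 5917, ⟨.ofNat (nat_lit 197129), .ofNat (nat_lit 621202), .ofNat (nat_lit 229138), .ofNat (nat_lit 653208), .ofNat (nat_lit 205119), .ofNat (nat_lit 619393), .ofNat (nat_lit 237132), .ofNat (nat_lit 651403)⟩, ⟨.ofNat (nat_lit 229411), .ofNat (nat_lit 441452), .ofNat (nat_lit 250751), .ofNat (nat_lit 462791), .ofNat (nat_lit 231202), .ofNat (nat_lit 438343), .ofNat (nat_lit 252544), .ofNat (nat_lit 459685)⟩⟩, []⟩
noncomputable def p040_l71 : Lf2 := ⟨nat_lit 0, nat_lit 10, [nat_lit 0, nat_lit 5, nat_lit 5, nat_lit 20], true, nat_lit 0, nat_lit 268, nat_lit 0, nat_lit 288, ⟨nat_lit 0, nat_lit 1000, nat_lit 0, nat_lit 6, nat_lit 171, nat_lit 1000, nat_lit 90, nat_lit 0, nat_lit 0, nat_lit 0, nat_lit 0, nat_lit 0, nat_lit 0, nat_lit 0, nat_lit 0, nat_lit 5000000, false, false⟩,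
 nat_lit 0, nat_lit 370810, nat_lit 0, nat_lit 0, nat_lit 215844, nat_lit 0, nat_lit 12318, nat_lit 20000, nat_lit 0, nat_lit 0, nat_lit 0, nat_lit 0, nat_lit 0, nat_lit 400000000000000, nat_lit 0, nat_lit 1000000, nat_lit 0, nat_lit 0, [(nat_lit 9, [(nat_lit 2, nat_lit 1000)])],
 ⟨p040_k3, nat_lit 0, nat_lit 0, nat_lit 357, nat_lit 0, nat_lit 235564, [nat_lit 322663466667, nat_lit 402666533334, nat_lit 560327866666], [], [nat_lit 1508117471435, nat_lit 1448884352229, nat_lit 953819743131, nat_lit 956688523087, nat_lit 907680627848, nat_lit 909850513613, nat_lit 847441058492, nat_lit 801927739380], nat_lit 1271250, nat_lit 1271250, nat_lit 134400, nat_lit 1708500, nat_lit 0, nat_lit 1892750, [nat_lit 1100000, nat_lit 1442500, nat_lit 1271250], [nat_lit 11, nat_lit 40, nat_lit 20, nat_lit 80, nat_lit 1, nat_lit 428, nat_lit 200, nat_lit 13]⟩, C1.Rw.none,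
 ⟨nat_lit 5700, nat_lit 5917, ⟨.ofNat (nat_lit 197129), .ofNat (nat_lit 621202), .ofNat (nat_lit 229138), .ofNat (nat_lit 653208), .ofNat (nat_lit 205119), .ofNat (nat_lit 619393), .ofNat (nat_lit 237132), .ofNat (nat_lit 651403)⟩, ⟨.negSucc (nat_lit 84722), .ofNat (nat_lit 441452), .negSucc (nat_lit 63383), .ofNat (nat_lit 462791), .negSucc (nat_lit 75673), .ofNat (nat_lit 438343), .negSucc (nat_lit 54331), .ofNat (nat_lit 459685)⟩⟩, [⟨nat_lit 0, nat_lit 100, nat_lit 100, nat_lit 70, nat_lit 2487618736⟩]⟩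
noncomputable def p040_l72 : Lf2 := ⟨nat_lit 0, nat_lit 10, [nat_lit 0, nat_lit 5, nat_lit 5, nat_lit 20], false, nat_lit 0, nat_lit 268, nat_lit 0, nat_lit 288, ⟨nat_lit 0, nat_lit 1000, nat_lit 0, nat_lit 6, nat_lit 171, nat_lit 0, nat_lit 90, nat_lit 0, nat_lit 0, nat_lit 0, nat_lit 0, nat_lit 0, nat_lit 0, nat_lit 0, nat_lit 0, nat_lit 5000000, false, false⟩,
 nat_lit 0, nat_lit 0, nat_lit 0, nat_lit 1000000, nat_lit 0, nat_lit 1000000, nat_lit 0, nat_lit 0, nat_lit 0, nat_lit 60000, nat_lit 20000, nat_lit 0, nat_lit 0, nat_lit 400000000000000, nat_lit 0, nat_lit 250000, nat_lit 0, nat_lit 1165259900000, [(nat_lit 9, [(nat_lit 0, nat_lit 1000)])],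
 ⟨p040_k3, nat_lit 0, nat_lit 0, nat_lit 357, nat_lit 0, nat_lit 235564, [nat_lit 3116800000, nat_lit 3043066667, nat_lit 3665733333], [], [nat_lit 38199712400, nat_lit 38464319800, nat_lit 42439606000, nat_lit 42671519000, nat_lit 43369890740, nat_lit 43595032170, nat_lit 47104578200, nat_lit 47305440500], nat_lit 1271250, nat_lit 1271250, nat_lit 134400, nat_lit 1708500, nat_lit 0, nat_lit 1892750, [nat_lit 1100000, nat_lit 1442500, nat_lit 1271250], [nat_lit 11, nat_lit 40, nat_lit 20, nat_lit 80, nat_lit 1, nat_lit 428, nat_lit 200, nat_lit 13]⟩, ⟨p040_k5, nat_lit 0, nat_lit 0, nat_lit 345, nat_lit 0, nat_lit 0, [nat_lit 320000000000, nat_lit 400000000000, nat_lit 640000000000], [], [nat_lit 2120589700001, nat_lit 2182781500000, nat_lit 1172096900000, nat_lit 1193585900000, nat_lit 938111300000, nat_lit 944701940000, nat_lit 0, nat_lit 10063800000], nat_lit 0, nat_lit 0, nat_lit 0, nat_lit 0, nat_lit 0, nat_lit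 0, [], [nat_lit 48, nat_lit 40, nat_lit 20, nat_lit 80, nat_lit 12, nat_lit 428, nat_lit 200, nat_lit 11]⟩,
 ⟨nat_lit 5700, nat_lit 5917, ⟨.ofNat (nat_lit 197129), .ofNat (nat_lit 621202), .ofNat (nat_lit 229138), .ofNat (nat_lit 653208), .ofNat (nat_lit 205119), .ofNat (nat_lit 619393), .ofNat (nat_lit 237132), .ofNat (nat_lit 651403)⟩, ⟨.negSucc (nat_lit 84722), .ofNat (nat_lit 441452), .negSucc (nat_lit 63383), .ofNat (nat_lit 462791), .negSucc (nat_lit 75673), .ofNat (nat_lit 438343), .negSucc (nat_lit 54331), .ofNat (nat_lit 459685)⟩⟩, [⟨nat_lit 0, nat_lit 100, nat_lit 98, nat_lit 60, nat_lit 10204081633⟩, ⟨nat_lit 0, nat_lit 100, nat_lit 100, nat_lit 70, nat_lit 10000000000⟩, ⟨nat_lit 0, nat_lit 100, nat_lit 97, nat_lit 49, nat_lit 3208475005⟩, ⟨nat_lit 13, nat_lit 98, nat_lit 5, nat_lit 100, nat_lit 348287320⟩, ⟨nat_lit 11, nat_lit 100, nat_lit 7, nat_lit 98, nat_lit 274027802⟩]⟩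
noncomputable def p040_l73 : Lf2 := ⟨nat_lit 1, nat_lit 10, [nat_lit 0, nat_lit 5, nat_lit 5, nat_lit 20], false, nat_lit 0, nat_lit 268, nat_lit 0, nat_lit 288, zbN0,
 nat_lit 0, nat_lit 0, nat_lit 0, nat_lit 0, nat_lit 0, nat_lit 0, nat_lit 0, nat_lit 0, nat_lit 0, nat_lit 0, nat_lit 0, nat_lit 0, nat_lit 0, nat_lit 0, nat_lit 0, nat_lit 0, nat_lit 0, nat_lit 0, [],
 C1.Rw.none, C1.Rw.none,
 zbF0, []⟩
noncomputable def p040_l74 : Lf2 := ⟨nat_lit 0, nat_lit 10, [nat_lit 0, nat_lit 5, nat_lit 5, nat_lit 20], true, nat_lit 0, nat_lit 80, nat_lit 0, nat_lit 288, ⟨nat_lit 0, nat_lit 1000, nat_lit 0, nat_lit 6, nat_lit 130, nat_lit 741, nat_lit 18, nat_lit 0, nat_lit 0, nat_lit 0, nat_lit 0, nat_lit 0, nat_lit 0, nat_lit 0, nat_lit 0, nat_lit 5000000, false, false⟩,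
 nat_lit 0, nat_lit 5220, nat_lit 0, nat_lit 0, nat_lit 3178, nat_lit 0, nat_lit 619, nat_lit 0, nat_lit 0, nat_lit 0, nat_lit 0, nat_lit 0, nat_lit 0, nat_lit 27771239586832, nat_lit 0, nat_lit 400000, nat_lit 0, nat_lit 0, [(nat_lit 9, [(nat_lit 1, nat_lit 1000)])],
 ⟨p040_k4, nat_lit 0, nat_lit 0, nat_lit 467, nat_lit 0, nat_lit 418837, [nat_lit 2702720000, nat_lit 2968400001, nat_lit 2997199999], [], [nat_lit 28100932516, nat_lit 27269650344, nat_lit 26647740896, nat_lit 26916474732, nat_lit 25992025922, nat_lit 26269004029, nat_lit 25881801312, nat_lit 26138219674], nat_lit 1271250, nat_lit 1271250, nat_lit 157850, nat_lit 780000, nat_lit 0, nat_lit 490000, [nat_lit 1100000, nat_lit 1442500, nat_lit 1271250], [nat_lit 11, nat_lit 40, nat_lit 20, nat_lit 80, nat_lit 1, nat_lit 345, nat_lit 125, nat_lit 10]⟩, C1.Rw.none,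
 ⟨nat_lit 5477, nat_lit 5701, ⟨.ofNat (nat_lit 212791), .ofNat (nat_lit 389244), .ofNat (nat_lit 255475), .ofNat (nat_lit 431928), .ofNat (nat_lit 220501), .ofNat (nat_lit 392847), .ofNat (nat_lit 263215), .ofNat (nat_lit 435561)⟩, ⟨.negSucc (nat_lit 75673), .ofNat (nat_lit 77764), .negSucc (nat_lit 54331), .ofNat (nat_lit 99106), .negSucc (nat_lit 66879), .ofNat (nat_lit 82986), .negSucc (nat_lit 45522), .ofNat (nat_lit 104343)⟩⟩, []⟩
noncomputable def p040_l75 : Lf2 := ⟨nat_lit 0, nat_lit 10, [nat_lit 0, nat_lit 5, nat_lit 5, nat_lit 20], true, nat_lit 80, nat_lit 160, nat_lit 0, nat_lit 288, ⟨nat_lit 0, nat_lit 1000, nat_lit 0, nat_lit 6, nat_lit 115, nat_lit 1000, nat_lit 67, nat_lit 0, nat_lit 0, nat_lit 0, nat_lit 0, nat_lit 0, nat_lit 0, nat_lit 0, nat_lit 0, nat_lit 5000000, false, false⟩,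
 nat_lit 0, nat_lit 9861, nat_lit 0, nat_lit 0, nat_lit 6005, nat_lit 0, nat_lit 1086, nat_lit 0, nat_lit 0, nat_lit 0, nat_lit 0, nat_lit 0, nat_lit 0, nat_lit 25384750563688, nat_lit 0, nat_lit 586600, nat_lit 0, nat_lit 0, [(nat_lit 9, [(nat_lit 1, nat_lit 689), (nat_lit 2, nat_lit 311)])],
 ⟨p040_k4, nat_lit 0, nat_lit 0, nat_lit 285, nat_lit 0, nat_lit 227349, [nat_lit 2690512214, nat_lit 2874519467, nat_lit 2167037333], [], [nat_lit 13306181675, nat_lit 14086671400, nat_lit 12088861364, nat_lit 12570858234, nat_lit 13654683239, nat_lit 14350162283, nat_lit 12299130419, nat_lit 12727604211], nat_lit 1271250, nat_lit 1271250, nat_lit 157850, nat_lit 490000, nat_lit 490000, nat_lit 1100001, [nat_lit 1100000, nat_lit 1442500, nat_lit 1271250], [nat_lit 11, nat_lit 40, nat_lit 20, nat_lit 80, nat_lit 1, nat_lit 373, nat_lit 150, nat_lit 11]⟩, C1.Rw.none,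
 ⟨nat_lit 5477, nat_lit 5701, ⟨.ofNat (nat_lit 212791), .ofNat (nat_lit 312525), .ofNat (nat_lit 255475), .ofNat (nat_lit 355209), .ofNat (nat_lit 220501), .ofNat (nat_lit 317913), .ofNat (nat_lit 263215), .ofNat (nat_lit 360628)⟩, ⟨.ofNat (nat_lit 77764), .ofNat (nat_lit 231202), .ofNat (nat_lit 99106), .ofNat (nat_lit 252544), .ofNat (nat_lit 82986), .ofNat (nat_lit 232852), .ofNat (nat_lit 104343), .ofNat (nat_lit 254209)⟩⟩, [⟨nat_lit 0, nat_lit 100, nat_lit 100, nat_lit 80, nat_lit 151092482⟩]⟩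
noncomputable def p040_l76 : Lf2 := ⟨nat_lit 0, nat_lit 10, [nat_lit 0, nat_lit 5, nat_lit 5, nat_lit 20], true, nat_lit 80, nat_lit 160, nat_lit 0, nat_lit 288, ⟨nat_lit 0, nat_lit 1000, nat_lit 0, nat_lit 6, nat_lit 150, nat_lit 1000, nat_lit 67, nat_lit 0, nat_lit 0, nat_lit 0, nat_lit 0, nat_lit 0, nat_lit 0, nat_lit 0, nat_lit 0, nat_lit 5000000, false, false⟩,
 nat_lit 0, nat_lit 20079, nat_lit 0, nat_lit 0, nat_lit 12228, nat_lit 0, nat_lit 0, nat_lit 0, nat_lit 0, nat_lit 0, nat_lit 0, nat_lit 0, nat_lit 0, nat_lit 88965697173783, nat_lit 0, nat_lit 400000, nat_lit 0, nat_lit 0, [(nat_lit 9, [(nat_lit 1, nat_lit 1000)])],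
 ⟨p040_k9, nat_lit 0, nat_lit 0, nat_lit 330, nat_lit 0, nat_lit 418837, [nat_lit 2742800000, nat_lit 3038800001, nat_lit 2882000000], [], [nat_lit 13471208364, nat_lit 14646549360, nat_lit 12278045308, nat_lit 13386426848, nat_lit 12500552429, nat_lit 13481228432, nat_lit 16436846461, nat_lit 13594435633], nat_lit 1271250, nat_lit 1271250, nat_lit 490000, nat_lit 780000, nat_lit 490000, nat_lit 1100001, [nat_lit 1100000, nat_lit 1785000, nat_lit 1271250], [nat_lit 29, nat_lit 40, nat_lit 20, nat_lit 80, nat_lit 17, nat_lit 373, nat_lit 150, nat_lit 11]⟩, C1.Rw.none,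
 ⟨nat_lit 5477, nat_lit 5701, ⟨.ofNat (nat_lit 312525), .ofNat (nat_lit 389244), .ofNat (nat_lit 355209), .ofNat (nat_lit 431928), .ofNat (nat_lit 317913), .ofNat (nat_lit 392847), .ofNat (nat_lit 360628), .ofNat (nat_lit 435561)⟩, ⟨.ofNat (nat_lit 77764), .ofNat (nat_lit 231202), .ofNat (nat_lit 99106), .ofNat (nat_lit 252544), .ofNat (nat_lit 82986), .ofNat (nat_lit 232852), .ofNat (nat_lit 104343), .ofNat (nat_lit 254209)⟩⟩, []⟩
noncomputable def p040_l77 : Lf2 := ⟨nat_lit 0, nat_lit 10, [nat_lit 0, nat_lit 5, nat_lit 5, nat_lit 20], true, nat_lit 160, nat_lit 260, nat_lit 0, nat_lit 288, ⟨nat_lit 0, nat_lit 1000, nat_lit 0, nat_lit 6, nat_lit 130, nat_lit 1000, nat_lit 135, nat_lit 0, nat_lit 0, nat_lit 0, nat_lit 0, nat_lit 0, nat_lit 0, nat_lit 0, nat_lit 0, nat_lit 5000000, false, false⟩,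
 nat_lit 0, nat_lit 5019, nat_lit 0, nat_lit 0, nat_lit 3056, nat_lit 0, nat_lit 615, nat_lit 0, nat_lit 0, nat_lit 0, nat_lit 0, nat_lit 0, nat_lit 0, nat_lit 22794800598324, nat_lit 0, nat_lit 400000, nat_lit 0, nat_lit 0, [(nat_lit 9, [(nat_lit 1, nat_lit 1000)])],
 ⟨p040_k4, nat_lit 0, nat_lit 0, nat_lit 329, nat_lit 0, nat_lit 418837, [nat_lit 2702720000, nat_lit 2968400001, nat_lit 2997199999], [], [nat_lit 25398490432, nat_lit 24599120288, nat_lit 24184159788, nat_lit 24467623724, nat_lit 26343792197, nat_lit 26603726235, nat_lit 26193832754, nat_lit 26471736938], nat_lit 1271250, nat_lit 1271250, nat_lit 157850, nat_lit 780000, nat_lit 1100001, nat_lit 1956250, [nat_lit 1100000, nat_lit 1442500, nat_lit 1271250], [nat_lit 11, nat_lit 40, nat_lit 20, nat_lit 80, nat_lit 1, nat_lit 401, nat_lit 175, nat_lit 11]⟩, C1.Rw.none,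
 ⟨nat_lit 5477, nat_lit 5701, ⟨.ofNat (nat_lit 212791), .ofNat (nat_lit 389244), .ofNat (nat_lit 255475), .ofNat (nat_lit 431928), .ofNat (nat_lit 220501), .ofNat (nat_lit 392847), .ofNat (nat_lit 263215), .ofNat (nat_lit 435561)⟩, ⟨.ofNat (nat_lit 231202), .ofNat (nat_lit 422999), .ofNat (nat_lit 252544), .ofNat (nat_lit 444341), .ofNat (nat_lit 232852), .ofNat (nat_lit 420185), .ofNat (nat_lit 254209), .ofNat (nat_lit 441542)⟩⟩, [⟨nat_lit 4, nat_lit 100, nat_lit 94, nat_lit 53, nat_lit 361697737⟩]⟩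
noncomputable def p040_l78 : Lf2 := ⟨nat_lit 0, nat_lit 10, [nat_lit 0, nat_lit 5, nat_lit 5, nat_lit 20], false, nat_lit 0, nat_lit 260, nat_lit 0, nat_lit 288, ⟨nat_lit 140, nat_lit 860, nat_lit 0, nat_lit 6, nat_lit 206, nat_lit 860, nat_lit 86, nat_lit 0, nat_lit 0, nat_lit 0, nat_lit 0, nat_lit 0, nat_lit 0, nat_lit 0, nat_lit 0, nat_lit 5000000, false, false⟩,
 nat_lit 0, nat_lit 6458, nat_lit 0, nat_lit 0, nat_lit 3933, nat_lit 2556, nat_lit 0, nat_lit 0, nat_lit 0, nat_lit 177, nat_lit 0, nat_lit 0, nat_lit 0, nat_lit 0, nat_lit 0, nat_lit 680600, nat_lit 0, nat_lit 0, [(nat_lit 9, [(nat_lit 1, nat_lit 299), (nat_lit 2, nat_lit 561)])],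
 ⟨p040_k4, nat_lit 0, nat_lit 0, nat_lit 300, nat_lit 0, nat_lit 230656, [nat_lit 2958638080, nat_lit 3258476801, nat_lit 2436135999], [], [nat_lit 32966439457, nat_lit 31910550880, nat_lit 29161940619, nat_lit 29445618286, nat_lit 28214187476, nat_lit 28460359548, nat_lit 30475818802, nat_lit 29628948948], nat_lit 1271250, nat_lit 1271250, nat_lit 780000, nat_lit 1762500, nat_lit 0, nat_lit 1836250, [nat_lit 1100000, nat_lit 1442500, nat_lit 1271250], [nat_lit 11, nat_lit 40, nat_lit 20, nat_lit 80, nat_lit 1, nat_lit 428, nat_lit 200, nat_lit 12]⟩, ⟨p040_k5, nat_lit 0, nat_lit 0, nat_lit 194, nat_lit 0, nat_lit 0, [nat_lit 656320000, nat_lit 875000000, nat_lit 1662080000], [], [nat_lit 3965116495, nat_lit 4332523431, nat_lit 4378470591, nat_lit 4643995527, nat_lit 2701319167, nat_lit 2891456396, nat_lit 2901572266, nat_lit 3211702245], nat_lit 0, nat_lit 0, nat_lit 0, nat_lit 0, nat_lit 0, nat_lit 0, [], [nat_lit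 48, nat_lit 40, nat_lit 20, nat_lit 80, nat_lit 12, nat_lit 428, nat_lit 200, nat_lit 11]⟩,
 ⟨nat_lit 5477, nat_lit 5701, ⟨.ofNat (nat_lit 389244), .ofNat (nat_lit 619394), .ofNat (nat_lit 410586), .ofNat (nat_lit 640734), .ofNat (nat_lit 392847), .ofNat (nat_lit 617638), .ofNat (nat_lit 414204), .ofNat (nat_lit 638993)⟩, ⟨.negSucc (nat_lit 75673), .ofNat (nat_lit 422999), .negSucc (nat_lit 54331), .ofNat (nat_lit 444341), .negSucc (nat_lit 66879), .ofNat (nat_lit 420185), .negSucc (nat_lit 45522), .ofNat (nat_lit 441542)⟩⟩, []⟩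
noncomputable def p040_l79 : Lf2 := ⟨nat_lit 0, nat_lit 10, [nat_lit 0, nat_lit 5, nat_lit 5, nat_lit 20], false, nat_lit 0, nat_lit 260, nat_lit 0, nat_lit 268, ⟨nat_lit 1000, nat_lit 0, nat_lit 0, nat_lit 0, nat_lit 0, nat_lit 0, nat_lit 0, nat_lit 0, nat_lit 0, nat_lit 0, nat_lit 0, nat_lit 0, nat_lit 0, nat_lit 0, nat_lit 0, nat_lit 0, false, false⟩,
 nat_lit 0, nat_lit 9111, nat_lit 0, nat_lit 0, nat_lit 5548, nat_lit 17528, nat_lit 966, nat_lit 0, nat_lit 0, nat_lit 418, nat_lit 0, nat_lit 0, nat_lit 0, nat_lit 5349413536855, nat_lit 0, nat_lit 0, nat_lit 0, nat_lit 0, [],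
 ⟨p040_k9, nat_lit 0, nat_lit 0, nat_lit 342, nat_lit 0, nat_lit 321217, [nat_lit 4688000000, nat_lit 7968000001, nat_lit 9842000000], [], [nat_lit 39319742332, nat_lit 38575009326, nat_lit 31614252459, nat_lit 31783387475, nat_lit 29550603465, nat_lit 29693661898, nat_lit 36982462663, nat_lit 36350227840], nat_lit 1271250, nat_lit 1271250, nat_lit 780000, nat_lit 1762500, nat_lit 0, nat_lit 1836250, [nat_lit 1100000, nat_lit 1785000, nat_lit 1271250], [nat_lit 29, nat_lit 40, nat_lit 20, nat_lit 80, nat_lit 17, nat_lit 428, nat_lit 200, nat_lit 12]⟩, ⟨p040_k7, nat_lit 0, nat_lit 0, nat_lit 155, nat_lit 0, nat_lit 0, [nat_lit 4688000000, nat_lit 7968000000, nat_lit 9842000000], [], [nat_lit 24882378008, nat_lit 27177303752, nat_lit 29053879912, nat_lit 31187392372, nat_lit 16588521871, nat_lit 17914727901, nat_lit 20164188487, nat_lit 21921243758], nat_lit 0, nat_lit 0, nat_lit 0, nat_lit 0, nat_lit 0, nat_lit 0, [],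 [nat_lit 29, nat_lit 40, nat_lit 20, nat_lit 80, nat_lit 17, nat_lit 428, nat_lit 200, nat_lit 12]⟩,
 zbF0, []⟩
noncomputable def p040_l80 : Lf2 := ⟨nat_lit 0, nat_lit 10, [nat_lit 0, nat_lit 5, nat_lit 5, nat_lit 20], false, nat_lit 0, nat_lit 252, nat_lit 0, nat_lit 268, ⟨nat_lit 1000, nat_lit 0, nat_lit 0, nat_lit 0, nat_lit 0, nat_lit 0, nat_lit 0, nat_lit 0, nat_lit 0, nat_lit 0, nat_lit 0, nat_lit 0, nat_lit 0, nat_lit 0, nat_lit 0, nat_lit 0, false, false⟩,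
 nat_lit 0, nat_lit 7277, nat_lit 0, nat_lit 0, nat_lit 4530, nat_lit 17165, nat_lit 1636, nat_lit 0, nat_lit 0, nat_lit 407, nat_lit 0, nat_lit 0, nat_lit 0, nat_lit 12435277169235, nat_lit 0, nat_lit 0, nat_lit 0, nat_lit 0, [],
 ⟨p040_k11, nat_lit 0, nat_lit 0, nat_lit 381, nat_lit 0, nat_lit 405919, [nat_lit 4688000000, nat_lit 7968000001, nat_lit 9842000000], [], [nat_lit 36887089485, nat_lit 36279007200, nat_lit 28966896057, nat_lit 29143804322, nat_lit 27614293836, nat_lit 27768683635, nat_lit 34121412831, nat_lit 33603853309], nat_lit 1271250, nat_lit 1271250, nat_lit 780000, nat_lit 1762500, nat_lit 0, nat_lit 1779750, [nat_lit 1100000, nat_lit 1785000, nat_lit 1271250], [nat_lit 29, nat_lit 40, nat_lit 20, nat_lit 80, nat_lit 17, nat_lit 428, nat_lit 200, nat_lit 12]⟩, ⟨p040_k7, nat_lit 0, nat_lit 0, nat_lit 158, nat_lit 0, nat_lit 0, [nat_lit 4688000000, nat_lit 7968000000, nat_lit 9842000000], [], [nat_lit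 24931774190, nat_lit 27942411000, nat_lit 29084193910, nat_lit 31796545860, nat_lit 16936410848, nat_lit 18681323080, nat_lit 20155761877, nat_lit 22462854840], nat_lit 0, nat_lit 0, nat_lit 0, nat_lit 0, nat_lit 0, nat_lit 0, [], [nat_lit 29, nat_lit 40, nat_lit 20, nat_lit 80, nat_lit 17, nat_lit 428, nat_lit 200, nat_lit 12]⟩,
 zbF0, []⟩
noncomputable def p040_l81 : Lf2 := ⟨nat_lit 0, nat_lit 10, [nat_lit 0, nat_lit 5, nat_lit 5, nat_lit 20], false, nat_lit 0, nat_lit 288, nat_lit 0, nat_lit 288, ⟨nat_lit 1000, nat_lit 0, nat_lit 0, nat_lit 0, nat_lit 0, nat_lit 0, nat_lit 0, nat_lit 0, nat_lit 0, nat_lit 0, nat_lit 0, nat_lit 0, nat_lit 0, nat_lit 0, nat_lit 0, nat_lit 0, false, false⟩,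
 nat_lit 0, nat_lit 15528, nat_lit 0, nat_lit 0, nat_lit 8220, nat_lit 8340, nat_lit 944, nat_lit 0, nat_lit 0, nat_lit 1158, nat_lit 0, nat_lit 0, nat_lit 0, nat_lit 0, nat_lit 0, nat_lit 0, nat_lit 0, nat_lit 0, [],
 ⟨p040_k8, nat_lit 0, nat_lit 0, nat_lit 385, nat_lit 0, nat_lit 281853, [nat_lit 4688000000, nat_lit 7968000001, nat_lit 11872000000], [], [nat_lit 33114756640, nat_lit 34296472080, nat_lit 40418737920, nat_lit 41528188000, nat_lit 28548818450, nat_lit 29418904914, nat_lit 34743711298, nat_lit 35262346595], nat_lit 1271250, nat_lit 1271250, nat_lit 1271250, nat_lit 1271250, nat_lit 0, nat_lit 2034000, [nat_lit 1100000, nat_lit 1785000, nat_lit 1271250], [nat_lit 21, nat_lit 40, nat_lit 20, nat_lit 80, nat_lit 14, nat_lit 483, nat_lit 250, nat_lit 12]⟩, ⟨p040_k8, nat_lit 0, nat_lit 0, nat_lit 251, nat_lit 0, nat_lit 0, [nat_lit 4688000000, nat_lit 7968000000, nat_lit 11872000000], [], [nat_lit 27100989240,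 nat_lit 28285088880, nat_lit 39696929280, nat_lit 40769209360, nat_lit 24578341416, nat_lit 25257972393, nat_lit 33753904720, nat_lit 34183884945], nat_lit 0, nat_lit 0, nat_lit 0, nat_lit 0, nat_lit 0, nat_lit 0, [], [nat_lit 21, nat_lit 40, nat_lit 20, nat_lit 80, nat_lit 14, nat_lit 483, nat_lit 250, nat_lit 12]⟩,
 zbF0, [⟨nat_lit 4, nat_lit 100, nat_lit 98, nat_lit 54, nat_lit 135325284⟩, ⟨nat_lit 7, nat_lit 99, nat_lit 100, nat_lit 54, nat_lit 117271341⟩]⟩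
noncomputable def p040_l82 : Lf2 := ⟨nat_lit 0, nat_lit 10, [nat_lit 0, nat_lit 5, nat_lit 5, nat_lit 20], false, nat_lit 0, nat_lit 268, nat_lit 0, nat_lit 268, ⟨nat_lit 1000, nat_lit 0, nat_lit 0, nat_lit 0, nat_lit 0, nat_lit 0, nat_lit 0, nat_lit 0, nat_lit 0, nat_lit 0, nat_lit 0, nat_lit 0, nat_lit 0, nat_lit 0, nat_lit 0, nat_lit 0, false, false⟩,
 nat_lit 0, nat_lit 11886, nat_lit 0, nat_lit 0, nat_lit 6918, nat_lit 9790, nat_lit 1420, nat_lit 0, nat_lit 0, nat_lit 0, nat_lit 0, nat_lit 0, nat_lit 0, nat_lit 0, nat_lit 0, nat_lit 0, nat_lit 0, nat_lit 0, [],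
 ⟨p040_k3, nat_lit 0, nat_lit 0, nat_lit 403, nat_lit 0, nat_lit 446743, [nat_lit 4688000000, nat_lit 6250000000, nat_lit 9842000000], [], [nat_lit 29610134584, nat_lit 30086676580, nat_lit 37128599272, nat_lit 38120661488, nat_lit 26644271357, nat_lit 26917064033, nat_lit 31890329153, nat_lit 32558962526], nat_lit 1271250, nat_lit 1271250, nat_lit 1271250, nat_lit 1271250, nat_lit 0, nat_lit 1892750, [nat_lit 1100000, nat_lit 1442500, nat_lit 1271250], [nat_lit 11, nat_lit 40, nat_lit 20, nat_lit 80, nat_lit 1, nat_lit 483, nat_lit 250, nat_lit 14]⟩, ⟨p040_k3, nat_lit 0, nat_lit 0, nat_lit 215, nat_lit 0, nat_lit 0, [nat_lit 4688000000, nat_lit 6250000000, nat_lit 9842000000], [], [nat_lit 30601595660, nat_lit 32120513400, nat_lit 44937057780, nat_lit 45635728320, nat_lit 26516784463, nat_lit 27435366483, nat_lit 35743305849, nat_lit 36131849710], nat_lit 0, nat_lit 0, nat_lit 0, nat_lit 0, nat_lit 0, nat_lit 0, [],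 [nat_lit 11, nat_lit 40, nat_lit 20, nat_lit 80, nat_lit 1, nat_lit 483, nat_lit 250, nat_lit 14]⟩,
 zbF0, [⟨nat_lit 4, nat_lit 100, nat_lit 96, nat_lit 54, nat_lit 133187679⟩]⟩
noncomputable def b_VL_600_600_5_98 : St := ⟨true, nat_lit 1, nat_lit 0, nat_lit 2, nat_lit 40, nat_lit 240, nat_lit 280, nat_lit 240, nat_lit 280, nat_lit 16, nat_lit 400, nat_lit 20, nat_lit 40, nat_lit 0, nat_lit 288, nat_lit 0, nat_lit 288, nat_lit 40, nat_lit 68, nat_lit 0, nat_lit 0, nat_lit 0, nat_lit 0⟩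
theorem d_VL_600_600_5_98 (h : EB TB.env) : Dead b_VL_600_600_5_98 := chkB_sound0 h (T :=
(.spl (nat_lit 2) (nat_lit 240)
(.spl (nat_lit 0) (nat_lit 260)
(.ord (.spl (nat_lit 6) (nat_lit 44)
(.spl (nat_lit 4) (nat_lit 160)
(.spl (nat_lit 2) (nat_lit 120)
(.leaf p040_l61)
(.leaf p040_l62))
(.leaf p040_l63))
(.leaf p040_l64)))
(.trZ (nat_lit 0) (nat_lit 100) (nat_lit 97) (nat_lit 49) (nat_lit 24) (.trX (nat_lit 16) (nat_lit 100) (nat_lit 99) (nat_lit 63) (nat_lit 268) (.spl (nat_lit 0) (nat_lit 270)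
(.ord (.spl (nat_lit 6) (nat_lit 56)
(.spl (nat_lit 8) (nat_lit 800)
(.spl (nat_lit 7) (nat_lit 600)
(.spl (nat_lit 2) (nat_lit 160)
(.leaf p040_l65)
(.leaf p040_l66))
(.spl (nat_lit 7) (nat_lit 900)
(.spl (nat_lit 4) (nat_lit 160)
(.spl (nat_lit 2) (nat_lit 160)
(.spl (nat_lit 2) (nat_lit 120)
(.leaf p040_l67)
(.leaf p040_l68))
(.leaf p040_l69))
(.leaf p040_l70))
(.leaf p040_l71)))
(.leaf p040_l72))
(.leaf p040_l73)))
(.trZ (nat_lit 0) (nat_lit 100) (nat_lit 96) (nat_lit 54) (nat_lit 28) (.trX (nat_lit 16) (nat_lit 98) (nat_lit 100) (nat_lit 63) (nat_lit 260) (.spl (nat_lit 2) (nat_lit 120)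
(.spl (nat_lit 4) (nat_lit 160)
(.spl (nat_lit 4) (nat_lit 80)
(.leaf p040_l74)
(.spl (nat_lit 2) (nat_lit 80)
(.leaf p040_l75)
(.leaf p040_l76)))
(.leaf p040_l77))
(.spl (nat_lit 1) (nat_lit 260)
(.leaf p040_l78)
(.trX (nat_lit 19) (nat_lit 100) (nat_lit 99) (nat_lit 63) (nat_lit 268) (.spl (nat_lit 0) (nat_lit 275)
(.ord (.leaf p040_l79))
(.trX (nat_lit 16) (nat_lit 96) (nat_lit 100) (nat_lit 62) (nat_lit 252) (.leaf p040_l80))))))))))))
(.spl (nat_lit 1) (nat_lit 260)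
(.leaf p040_l81)
(.ord (.trX (nat_lit 16) (nat_lit 100) (nat_lit 99) (nat_lit 63) (nat_lit 268) (.trX (nat_lit 19) (nat_lit 100) (nat_lit 99) (nat_lit 63) (nat_lit 268) (.leaf p040_l82))))))) (by decide +kernel)
noncomputable def p040_l83 : Lf2 := ⟨nat_lit 0, nat_lit 10, [nat_lit 0, nat_lit 5, nat_lit 5, nat_lit 20], true, nat_lit 0, nat_lit 160, nat_lit 0, nat_lit 288, ⟨nat_lit 0, nat_lit 1000, nat_lit 0, nat_lit 6, nat_lit 115, nat_lit 1000, nat_lit 48, nat_lit 0, nat_lit 0, nat_lit 0, nat_lit 0, nat_lit 0, nat_lit 0, nat_lit 0, nat_lit 0, nat_lit 5000000, false, false⟩,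
 nat_lit 0, nat_lit 12972, nat_lit 0, nat_lit 0, nat_lit 6867, nat_lit 0, nat_lit 0, nat_lit 0, nat_lit 0, nat_lit 0, nat_lit 0, nat_lit 0, nat_lit 0, nat_lit 30405272440344, nat_lit 0, nat_lit 250000, nat_lit 0, nat_lit 0, [(nat_lit 6, [(nat_lit 0, nat_lit 1000)])],
 ⟨p040_k5, nat_lit 0, nat_lit 0, nat_lit 368, nat_lit 0, nat_lit 49341, [nat_lit 3128000000, nat_lit 3420800001, nat_lit 3855200000], [], [nat_lit 30008070588, nat_lit 29173916306, nat_lit 23349145857, nat_lit 24732569692, nat_lit 26125969058, nat_lit 23480245037, nat_lit 30874734618, nat_lit 27682252584], nat_lit 1271250, nat_lit 1271250, nat_lit 88400, nat_lit 780000, nat_lit 0, nat_lit 1100001, [nat_lit 1100000, nat_lit 1442500, nat_lit 1271250], [nat_lit 48, nat_lit 40, nat_lit 20, nat_lit 80, nat_lit 12, nat_lit 373, nat_lit 150, nat_lit 10]⟩, C1.Rw.none,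
 ⟨nat_lit 5916, nat_lit 6325, ⟨.ofNat (nat_lit 164319), .ofNat (nat_lit 378206), .ofNat (nat_lit 185687), .ofNat (nat_lit 399574), .ofNat (nat_lit 181423), .ofNat (nat_lit 385610), .ofNat (nat_lit 202762), .ofNat (nat_lit 406949)⟩, ⟨.negSucc (nat_lit 103633), .ofNat (nat_lit 225423), .negSucc (nat_lit 82265), .ofNat (nat_lit 246791), .negSucc (nat_lit 84722), .ofNat (nat_lit 229411), .negSucc (nat_lit 63383), .ofNat (nat_lit 250751)⟩⟩, []⟩
noncomputable def p040_l84 : Lf2 := ⟨nat_lit 0, nat_lit 10, [nat_lit 0, nat_lit 5, nat_lit 5, nat_lit 20], true, nat_lit 0, nat_lit 160, nat_lit 0, nat_lit 288, ⟨nat_lit 0, nat_lit 1000, nat_lit 0, nat_lit 6, nat_lit 205, nat_lit 1000, nat_lit 48, nat_lit 0, nat_lit 0, nat_lit 0, nat_lit 0, nat_lit 0, nat_lit 0, nat_lit 0, nat_lit 0, nat_lit 5000000, false, false⟩,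
 nat_lit 0, nat_lit 6345, nat_lit 0, nat_lit 2824, nat_lit 3358, nat_lit 0, nat_lit 0, nat_lit 0, nat_lit 0, nat_lit 0, nat_lit 0, nat_lit 0, nat_lit 0, nat_lit 24287788865421, nat_lit 0, nat_lit 400000, nat_lit 0, nat_lit 0, [(nat_lit 6, [(nat_lit 1, nat_lit 1000)])],
 ⟨p040_k8, nat_lit 0, nat_lit 0, nat_lit 224, nat_lit 0, nat_lit 49341, [nat_lit 2838000000, nat_lit 3296133334, nat_lit 3042266666], [], [nat_lit 34399142328, nat_lit 32596104524, nat_lit 31052953344, nat_lit 31599699248, nat_lit 28605953656, nat_lit 29175756064, nat_lit 31078456014, nat_lit 30911474512], nat_lit 1271250, nat_lit 1271250, nat_lit 780000, nat_lit 1762500, nat_lit 0, nat_lit 1100001, [nat_lit 1100000, nat_lit 1785000, nat_lit 1271250], [nat_lit 21, nat_lit 40, nat_lit 20, nat_lit 80, nat_lit 14, nat_lit 401, nat_lit 175, nat_lit 10]⟩, C1.Rw.none,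
 ⟨nat_lit 5916, nat_lit 6325, ⟨.ofNat (nat_lit 378206), .ofNat (nat_lit 624961), .ofNat (nat_lit 399574), .ofNat (nat_lit 646322), .ofNat (nat_lit 385610), .ofNat (nat_lit 621173), .ofNat (nat_lit 406949), .ofNat (nat_lit 642505)⟩, ⟨.negSucc (nat_lit 103633), .ofNat (nat_lit 225423), .negSucc (nat_lit 82265), .ofNat (nat_lit 246791), .negSucc (nat_lit 84722), .ofNat (nat_lit 229411), .negSucc (nat_lit 63383), .ofNat (nat_lit 250751)⟩⟩, []⟩
noncomputable def p040_l85 : Lf2 := ⟨nat_lit 0, nat_lit 10, [nat_lit 0, nat_lit 5, nat_lit 5, nat_lit 20], true, nat_lit 160, nat_lit 288, nat_lit 0, nat_lit 288, ⟨nat_lit 0, nat_lit 1000, nat_lit 0, nat_lit 6, nat_lit 163, nat_lit 1000, nat_lit 147, nat_lit 0, nat_lit 0, nat_lit 0, nat_lit 0, nat_lit 0, nat_lit 0, nat_lit 0, nat_lit 0, nat_lit 5000000, false, false⟩,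
 nat_lit 0, nat_lit 10960, nat_lit 0, nat_lit 1906, nat_lit 5802, nat_lit 0, nat_lit 0, nat_lit 0, nat_lit 0, nat_lit 0, nat_lit 0, nat_lit 0, nat_lit 0, nat_lit 32744686218212, nat_lit 0, nat_lit 400000, nat_lit 0, nat_lit 0, [(nat_lit 6, [(nat_lit 1, nat_lit 1000)])],
 ⟨p040_k5, nat_lit 0, nat_lit 0, nat_lit 199, nat_lit 0, nat_lit 49341, [nat_lit 2692266667, nat_lit 3429200000, nat_lit 3039200000], [], [nat_lit 31762679293, nat_lit 28713554233, nat_lit 29476655931, nat_lit 26705110155, nat_lit 26906005521, nat_lit 27589371474, nat_lit 25580929636, nat_lit 26061389614], nat_lit 1271250, nat_lit 1271250, nat_lit 88400, nat_lit 1704000, nat_lit 1271250, nat_lit 1271250, [nat_lit 1100000, nat_lit 1442500, nat_lit 1271250], [nat_lit 48, nat_lit 40, nat_lit 20, nat_lit 80, nat_lit 12, nat_lit 428, nat_lit 200, nat_lit 11]⟩, C1.Rw.none,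
 ⟨nat_lit 5916, nat_lit 6325, ⟨.ofNat (nat_lit 164319), .ofNat (nat_lit 624961), .ofNat (nat_lit 185687), .ofNat (nat_lit 646322), .ofNat (nat_lit 181423), .ofNat (nat_lit 621173), .ofNat (nat_lit 202762), .ofNat (nat_lit 642505)⟩, ⟨.ofNat (nat_lit 225423), .ofNat (nat_lit 488669), .ofNat (nat_lit 246791), .ofNat (nat_lit 510037), .ofNat (nat_lit 229411), .ofNat (nat_lit 480719), .ofNat (nat_lit 250751), .ofNat (nat_lit 502058)⟩⟩, [⟨nat_lit 0, nat_lit 100, nat_lit 100, nat_lit 60, nat_lit 24816062⟩, ⟨nat_lit 4, nat_lit 99, nat_lit 100, nat_lit 54, nat_lit 59359212⟩]⟩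
noncomputable def p040_l86 : Lf2 := ⟨nat_lit 1, nat_lit 10, [nat_lit 0, nat_lit 5, nat_lit 5, nat_lit 20], false, nat_lit 0, nat_lit 288, nat_lit 0, nat_lit 288, zbN0,
 nat_lit 0, nat_lit 0, nat_lit 0, nat_lit 0, nat_lit 0, nat_lit 0, nat_lit 0, nat_lit 0, nat_lit 0, nat_lit 0, nat_lit 0, nat_lit 0, nat_lit 0, nat_lit 0, nat_lit 0, nat_lit 0, nat_lit 0, nat_lit 0, [],
 C1.Rw.none, C1.Rw.none,
 zbF0, []⟩
noncomputable def b_VL_600_600_5_99 : St := ⟨true, nat_lit 1, nat_lit 1, nat_lit 2, nat_lit 40, nat_lit 240, nat_lit 260, nat_lit 240, nat_lit 280, nat_lit 16, nat_lit 240, nat_lit 20, nat_lit 40, nat_lit 0, nat_lit 288, nat_lit 0, nat_lit 288, nat_lit 40, nat_lit 68, nat_lit 0, nat_lit 0, nat_lit 0, nat_lit 0⟩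
theorem d_VL_600_600_5_99 (h : EB TB.env) : Dead b_VL_600_600_5_99 := chkB_sound0 h (T :=
(.ord (.spl (nat_lit 6) (nat_lit 44)
(.spl (nat_lit 4) (nat_lit 160)
(.spl (nat_lit 2) (nat_lit 120)
(.leaf p040_l83)
(.leaf p040_l84))
(.leaf p040_l85))
(.leaf p040_l86)))) (by decide +kernel)
noncomputable def p040_l87 : Lf2 := ⟨nat_lit 0, nat_lit 10, [nat_lit 0, nat_lit 5, nat_lit 5, nat_lit 20], true, nat_lit 0, nat_lit 160, nat_lit 0, nat_lit 288, ⟨nat_lit 0, nat_lit 1000, nat_lit 0, nat_lit 6, nat_lit 143, nat_lit 1000, nat_lit 48, nat_lit 0, nat_lit 0, nat_lit 0, nat_lit 0, nat_lit 0, nat_lit 0, nat_lit 0, nat_lit 0, nat_lit 5000000, false, false⟩,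
 nat_lit 0, nat_lit 962, nat_lit 0, nat_lit 874, nat_lit 559, nat_lit 0, nat_lit 0, nat_lit 0, nat_lit 330, nat_lit 0, nat_lit 0, nat_lit 0, nat_lit 0, nat_lit 16496369558476, nat_lit 0, nat_lit 252700, nat_lit 0, nat_lit 0, [(nat_lit 9, [(nat_lit 0, nat_lit 982), (nat_lit 1, nat_lit 18)])],
 ⟨p040_k3, nat_lit 0, nat_lit 0, nat_lit 0, nat_lit 0, nat_lit 446743, [nat_lit 3109346561, nat_lit 3041722667, nat_lit 3653699733], [], [nat_lit 14276535644, nat_lit 13974510851, nat_lit 13496912502, nat_lit 14104016532, nat_lit 13854460440, nat_lit 14301124807, nat_lit 18091499979, nat_lit 17835046431], nat_lit 1271250, nat_lit 1271250, nat_lit 134400, nat_lit 1100001, nat_lit 0, nat_lit 1100001, [nat_lit 1100000, nat_lit 1442500, nat_lit 1271250], [nat_lit 11, nat_lit 40, nat_lit 20, nat_lit 80]⟩, C1.Rw.none,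
 ⟨nat_lit 5477, nat_lit 5917, ⟨.ofNat (nat_lit 197129), .ofNat (nat_lit 464143), .ofNat (nat_lit 239808), .ofNat (nat_lit 506809), .ofNat (nat_lit 213007), .ofNat (nat_lit 467780), .ofNat (nat_lit 255721), .ofNat (nat_lit 510480)⟩, ⟨.negSucc (nat_lit 84722), .ofNat (nat_lit 229411), .negSucc (nat_lit 63383), .ofNat (nat_lit 250751), .negSucc (nat_lit 66879), .ofNat (nat_lit 232852), .negSucc (nat_lit 45522), .ofNat (nat_lit 254209)⟩⟩, []⟩
noncomputable def p040_l88 : Lf2 := ⟨nat_lit 0, nat_lit 10, [nat_lit 0, nat_lit 5, nat_lit 5, nat_lit 20], true, nat_lit 0, nat_lit 160, nat_lit 0, nat_lit 288, ⟨nat_lit 0, nat_lit 1000, nat_lit 0, nat_lit 6, nat_lit 226, nat_lit 1000, nat_lit 48, nat_lit 0, nat_lit 0, nat_lit 0, nat_lit 0, nat_lit 0, nat_lit 0, nat_lit 0, nat_lit 0, nat_lit 5000000, false, false⟩,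
 nat_lit 0, nat_lit 2050, nat_lit 0, nat_lit 0, nat_lit 1193, nat_lit 0, nat_lit 0, nat_lit 0, nat_lit 204, nat_lit 0, nat_lit 0, nat_lit 0, nat_lit 0, nat_lit 14360463427842, nat_lit 0, nat_lit 400000, nat_lit 0, nat_lit 0, [(nat_lit 9, [(nat_lit 1, nat_lit 1000)])],
 ⟨p040_k7, nat_lit 0, nat_lit 0, nat_lit 0, nat_lit 0, nat_lit 446743, [nat_lit 2742800000, nat_lit 3038800001, nat_lit 2882000000], [], [nat_lit 20144768686, nat_lit 19513984252, nat_lit 20204281154, nat_lit 20704785968, nat_lit 20062856916, nat_lit 20554567784, nat_lit 22981713023, nat_lit 22419564265], nat_lit 1271250, nat_lit 1271250, nat_lit 1100001, nat_lit 1785000, nat_lit 0, nat_lit 1100001, [nat_lit 1100000, nat_lit 1785000, nat_lit 1271250], [nat_lit 29, nat_lit 40, nat_lit 20, nat_lit 80]⟩, C1.Rw.none,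
 ⟨nat_lit 5477, nat_lit 5917, ⟨.ofNat (nat_lit 464143), .ofNat (nat_lit 621176), .ofNat (nat_lit 506809), .ofNat (nat_lit 663838), .ofNat (nat_lit 467780), .ofNat (nat_lit 617611), .ofNat (nat_lit 510480), .ofNat (nat_lit 660309)⟩, ⟨.negSucc (nat_lit 84722), .ofNat (nat_lit 229411), .negSucc (nat_lit 63383), .ofNat (nat_lit 250751), .negSucc (nat_lit 66879), .ofNat (nat_lit 232852), .negSucc (nat_lit 45522), .ofNat (nat_lit 254209)⟩⟩, []⟩
noncomputable def p040_l89 : Lf2 := ⟨nat_lit 0, nat_lit 10, [nat_lit 0, nat_lit 5, nat_lit 5, nat_lit 20], false, nat_lit 160, nat_lit 268, nat_lit 0, nat_lit 288, ⟨nat_lit 0, nat_lit 1000, nat_lit 0, nat_lit 6, nat_lit 173, nat_lit 1000, nat_lit 138, nat_lit 0, nat_lit 0, nat_lit 0, nat_lit 0, nat_lit 0, nat_lit 0, nat_lit 0, nat_lit 0, nat_lit 5000000, false, false⟩,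
 nat_lit 0, nat_lit 9902, nat_lit 0, nat_lit 0, nat_lit 5763, nat_lit 0, nat_lit 0, nat_lit 0, nat_lit 0, nat_lit 0, nat_lit 0, nat_lit 0, nat_lit 0, nat_lit 29836351317165, nat_lit 0, nat_lit 400000, nat_lit 0, nat_lit 0, [(nat_lit 9, [(nat_lit 1, nat_lit 1000)])],
 ⟨p040_k3, nat_lit 0, nat_lit 0, nat_lit 0, nat_lit 0, nat_lit 240242, [nat_lit 2702720000, nat_lit 2968400001, nat_lit 2997199999], [], [nat_lit 27502411758, nat_lit 24482957064, nat_lit 26407769873, nat_lit 23654853929, nat_lit 23872336918, nat_lit 24695863909, nat_lit 23582949944, nat_lit 24165683687], nat_lit 1271250, nat_lit 1271250, nat_lit 134400, nat_lit 1708500, nat_lit 1271250, nat_lit 1271250, [nat_lit 1100000, nat_lit 1442500, nat_lit 1271250], [nat_lit 11, nat_lit 40, nat_lit 20, nat_lit 80]⟩, ⟨p040_k5, nat_lit 0, nat_lit 0, nat_lit 496, nat_lit 0, nat_lit 270049, [nat_lit 0, nat_lit 0, nat_lit 0], [], [nat_lit 0, nat_lit 0, nat_lit 0, nat_lit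 0, nat_lit 0, nat_lit 0, nat_lit 0, nat_lit 0], nat_lit 1271250, nat_lit 1271250, nat_lit 134400, nat_lit 1708500, nat_lit 0, nat_lit 2034000, [nat_lit 1100000, nat_lit 1442500, nat_lit 1271250], [nat_lit 48, nat_lit 40, nat_lit 20, nat_lit 80, nat_lit 12, nat_lit 456, nat_lit 225, nat_lit 12]⟩,
 ⟨nat_lit 5477, nat_lit 5917, ⟨.ofNat (nat_lit 197129), .ofNat (nat_lit 621176), .ofNat (nat_lit 239808), .ofNat (nat_lit 663838), .ofNat (nat_lit 213007), .ofNat (nat_lit 617611), .ofNat (nat_lit 255721), .ofNat (nat_lit 660309)⟩, ⟨.ofNat (nat_lit 229411), .ofNat (nat_lit 441452), .ofNat (nat_lit 250751), .ofNat (nat_lit 462791), .ofNat (nat_lit 232852), .ofNat (nat_lit 435171), .ofNat (nat_lit 254209), .ofNat (nat_lit 456528)⟩⟩, [⟨nat_lit 16, nat_lit 96, nat_lit 100, nat_lit 54, nat_lit 178739714⟩]⟩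
noncomputable def b_VL_600_600_5_100 : St := ⟨true, nat_lit 1, nat_lit 1, nat_lit 2, nat_lit 40, nat_lit 260, nat_lit 280, nat_lit 240, nat_lit 280, nat_lit 24, nat_lit 240, nat_lit 20, nat_lit 40, nat_lit 0, nat_lit 268, nat_lit 0, nat_lit 288, nat_lit 40, nat_lit 68, nat_lit 0, nat_lit 600, nat_lit 0, nat_lit 0⟩
theorem d_VL_600_600_5_100 (h : EB TB.env) : Dead b_VL_600_600_5_100 := chkB_sound0 h (T :=
(.spl (nat_lit 4) (nat_lit 160)
(.spl (nat_lit 2) (nat_lit 160)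
(.leaf p040_l87)
(.leaf p040_l88))
(.leaf p040_l89))) (by decide +kernel)
noncomputable def p040_l90 : Lf2 := ⟨nat_lit 0, nat_lit 10, [nat_lit 0, nat_lit 5, nat_lit 5, nat_lit 20], true, nat_lit 0, nat_lit 268, nat_lit 0, nat_lit 288, ⟨nat_lit 0, nat_lit 1000, nat_lit 0, nat_lit 6, nat_lit 119, nat_lit 1000, nat_lit 90, nat_lit 0, nat_lit 0, nat_lit 0, nat_lit 0, nat_lit 0, nat_lit 0, nat_lit 0, nat_lit 0, nat_lit 5000000, false, false⟩,
 nat_lit 0, nat_lit 534969, nat_lit 0, nat_lit 191704, nat_lit 311399, nat_lit 0, nat_lit 60000, nat_lit 19081, nat_lit 0, nat_lit 0, nat_lit 0, nat_lit 0, nat_lit 0, nat_lit 0, nat_lit 0, nat_lit 1000000, nat_lit 0, nat_lit 0, [(nat_lit 9, [(nat_lit 2, nat_lit 1000)])],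
 ⟨p040_k3, nat_lit 0, nat_lit 0, nat_lit 0, nat_lit 0, nat_lit 26774, [nat_lit 307959466667, nat_lit 384286533334, nat_lit 534595866666], [], [nat_lit 580826161981, nat_lit 586829897049, nat_lit 372856667778, nat_lit 378011752570, nat_lit 277409492719, nat_lit 280282207817, nat_lit 131402046040, nat_lit 108976476485], nat_lit 1271250, nat_lit 1271250, nat_lit 134400, nat_lit 780000, nat_lit 0, nat_lit 1892750, [nat_lit 1100000, nat_lit 1442500, nat_lit 1271250], [nat_lit 11, nat_lit 40, nat_lit 20, nat_lit 80]⟩, C1.Rw.none,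
 ⟨nat_lit 5809, nat_lit 5917, ⟨.ofNat (nat_lit 197129), .ofNat (nat_lit 385610), .ofNat (nat_lit 207799), .ofNat (nat_lit 396280), .ofNat (nat_lit 201138), .ofNat (nat_lit 387432), .ofNat (nat_lit 211807), .ofNat (nat_lit 398101)⟩, ⟨.negSucc (nat_lit 84722), .ofNat (nat_lit 441452), .negSucc (nat_lit 63383), .ofNat (nat_lit 462791), .negSucc (nat_lit 80165), .ofNat (nat_lit 439905), .negSucc (nat_lit 58826), .ofNat (nat_lit 461244)⟩⟩, [⟨nat_lit 0, nat_lit 100, nat_lit 98, nat_lit 57, nat_lit 9098140166⟩, ⟨nat_lit 4, nat_lit 100, nat_lit 98, nat_lit 54, nat_lit 7324978245⟩]⟩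
noncomputable def p040_l91 : Lf2 := ⟨nat_lit 0, nat_lit 10, [nat_lit 0, nat_lit 5, nat_lit 5, nat_lit 20], true, nat_lit 0, nat_lit 268, nat_lit 0, nat_lit 288, ⟨nat_lit 0, nat_lit 1000, nat_lit 0, nat_lit 6, nat_lit 204, nat_lit 1000, nat_lit 90, nat_lit 0, nat_lit 0, nat_lit 0, nat_lit 0, nat_lit 0, nat_lit 0, nat_lit 0, nat_lit 0, nat_lit 5000000, false, false⟩,
 nat_lit 0, nat_lit 436769, nat_lit 0, nat_lit 349613, nat_lit 254238, nat_lit 0, nat_lit 0, nat_lit 20000, nat_lit 0, nat_lit 0, nat_lit 0, nat_lit 0, nat_lit 0, nat_lit 0, nat_lit 0, nat_lit 400000, nat_lit 0, nat_lit 0, [(nat_lit 9, [(nat_lit 1, nat_lit 1000)])],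
 ⟨p040_k3, nat_lit 0, nat_lit 0, nat_lit 0, nat_lit 0, nat_lit 26774, [nat_lit 322702720000, nat_lit 402968400001, nat_lit 562997199999], [], [nat_lit 1189333529164, nat_lit 1155206018353, nat_lit 801379216588, nat_lit 804258519985, nat_lit 614413102782, nat_lit 616244444943, nat_lit 598746130539, nat_lit 569466232878], nat_lit 1271250, nat_lit 1271250, nat_lit 780000, nat_lit 1762500, nat_lit 0, nat_lit 1892750, [nat_lit 1100000, nat_lit 1442500, nat_lit 1271250], [nat_lit 11, nat_lit 40, nat_lit 20, nat_lit 80]⟩, C1.Rw.none,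
 ⟨nat_lit 5809, nat_lit 5917, ⟨.ofNat (nat_lit 385610), .ofNat (nat_lit 621209), .ofNat (nat_lit 396280), .ofNat (nat_lit 631878), .ofNat (nat_lit 387432), .ofNat (nat_lit 620298), .ofNat (nat_lit 398101), .ofNat (nat_lit 630967)⟩, ⟨.negSucc (nat_lit 84722), .ofNat (nat_lit 441452), .negSucc (nat_lit 63383), .ofNat (nat_lit 462791), .negSucc (nat_lit 80165), .ofNat (nat_lit 439905), .negSucc (nat_lit 58826), .ofNat (nat_lit 461244)⟩⟩, []⟩
noncomputable def b_VL_600_600_5_101 : St := ⟨true, nat_lit 1, nat_lit 1, nat_lit 2, nat_lit 40, nat_lit 260, nat_lit 265, nat_lit 240, nat_lit 250, nat_lit 24, nat_lit 240, nat_lit 20, nat_lit 40, nat_lit 0, nat_lit 268, nat_lit 0, nat_lit 288, nat_lit 40, nat_lit 48, nat_lit 600, nat_lit 900, nat_lit 0, nat_lit 0⟩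
theorem d_VL_600_600_5_101 (h : EB TB.env) : Dead b_VL_600_600_5_101 := chkB_sound0 h (T :=
(.spl (nat_lit 2) (nat_lit 120)
(.leaf p040_l90)
(.leaf p040_l91))) (by decide +kernel)
noncomputable def p040_l92 : Lf2 := ⟨nat_lit 0, nat_lit 10, [nat_lit 0, nat_lit 5, nat_lit 5, nat_lit 20], false, nat_lit 0, nat_lit 268, nat_lit 0, nat_lit 280, ⟨nat_lit 0, nat_lit 1000, nat_lit 0, nat_lit 6, nat_lit 126, nat_lit 1000, nat_lit 90, nat_lit 0, nat_lit 0, nat_lit 0, nat_lit 0, nat_lit 0, nat_lit 0, nat_lit 0, nat_lit 0, nat_lit 5000000, false, false⟩,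
 nat_lit 0, nat_lit 534969, nat_lit 0, nat_lit 0, nat_lit 311399, nat_lit 0, nat_lit 101, nat_lit 11829, nat_lit 0, nat_lit 0, nat_lit 0, nat_lit 0, nat_lit 0, nat_lit 400000000000000, nat_lit 0, nat_lit 1000000, nat_lit 0, nat_lit 0, [(nat_lit 9, [(nat_lit 2, nat_lit 1000)])],
 ⟨p040_k3, nat_lit 0, nat_lit 0, nat_lit 0, nat_lit 0, nat_lit 72723, [nat_lit 191927466667, nat_lit 239246533334, nat_lit 331539866666], [], [nat_lit 676526927105, nat_lit 642438663348, nat_lit 441818611528, nat_lit 446973696320, nat_lit 319984536492, nat_lit 322460568506, nat_lit 137932907852, nat_lit 139849265821], nat_lit 1271250, nat_lit 1271250, nat_lit 157850, nat_lit 780000, nat_lit 0, nat_lit 1892750, [nat_lit 1100000, nat_lit 1442500, nat_lit 1271250], [nat_lit 11, nat_lit 40, nat_lit 20, nat_lit 80]⟩, ⟨p040_k2, nat_lit 0, nat_lit 0, nat_lit 0, nat_lit 0, nat_lit 76904, [nat_lit 0, nat_lit 0, nat_lit 0], [], [nat_lit 0, nat_lit 0, nat_lit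 0, nat_lit 0, nat_lit 0, nat_lit 0, nat_lit 0, nat_lit 0], nat_lit 1271250, nat_lit 1271250, nat_lit 157850, nat_lit 780000, nat_lit 0, nat_lit 1977500, [nat_lit 1100000, nat_lit 1442500, nat_lit 1271250], [nat_lit 11, nat_lit 40, nat_lit 20, nat_lit 80]⟩,
 ⟨nat_lit 5809, nat_lit 5917, ⟨.ofNat (nat_lit 215652), .ofNat (nat_lit 396280), .ofNat (nat_lit 231657), .ofNat (nat_lit 412284), .ofNat (nat_lit 219570), .ofNat (nat_lit 398101), .ofNat (nat_lit 235574), .ofNat (nat_lit 414106)⟩, ⟨.negSucc (nat_lit 84722), .ofNat (nat_lit 441452), .negSucc (nat_lit 63383), .ofNat (nat_lit 462791), .negSucc (nat_lit 80165), .ofNat (nat_lit 439905), .negSucc (nat_lit 58826), .ofNat (nat_lit 461244)⟩⟩, [⟨nat_lit 0, nat_lit 100, nat_lit 100, nat_lit 65, nat_lit 9920433444⟩]⟩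
noncomputable def p040_l93 : Lf2 := ⟨nat_lit 0, nat_lit 10, [nat_lit 0, nat_lit 5, nat_lit 5, nat_lit 20], false, nat_lit 0, nat_lit 268, nat_lit 0, nat_lit 280, ⟨nat_lit 0, nat_lit 1000, nat_lit 0, nat_lit 6, nat_lit 209, nat_lit 1000, nat_lit 90, nat_lit 0, nat_lit 0, nat_lit 0, nat_lit 0, nat_lit 0, nat_lit 0, nat_lit 0, nat_lit 0, nat_lit 5000000, false, false⟩,
 nat_lit 0, nat_lit 436769, nat_lit 0, nat_lit 0, nat_lit 254238, nat_lit 0, nat_lit 0, nat_lit 20000, nat_lit 0, nat_lit 0, nat_lit 0, nat_lit 0, nat_lit 0, nat_lit 400000000000000, nat_lit 0, nat_lit 400000, nat_lit 0, nat_lit 0, [(nat_lit 9, [(nat_lit 1, nat_lit 1000)])],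
 ⟨p040_k3, nat_lit 0, nat_lit 0, nat_lit 0, nat_lit 0, nat_lit 72723, [nat_lit 322702720000, nat_lit 402968400001, nat_lit 562997199999], [], [nat_lit 1189333529164, nat_lit 1155206018353, nat_lit 801379216588, nat_lit 804258519985, nat_lit 614413102782, nat_lit 616244444943, nat_lit 598746130539, nat_lit 569466232878], nat_lit 1271250, nat_lit 1271250, nat_lit 780000, nat_lit 1762500, nat_lit 0, nat_lit 1892750, [nat_lit 1100000, nat_lit 1442500, nat_lit 1271250], [nat_lit 11, nat_lit 40, nat_lit 20, nat_lit 80]⟩, ⟨p040_k2, nat_lit 0, nat_lit 0, nat_lit 0, nat_lit 0, nat_lit 76904, [nat_lit 0, nat_lit 0, nat_lit 0], [], [nat_lit 0, nat_lit 0, nat_lit 0, nat_lit 0, nat_lit 0, nat_lit 0, nat_lit 0, nat_lit 0], nat_lit 1271250, nat_lit 1271250, nat_lit 780000, nat_lit 1762500, nat_lit 0, nat_lit 1977500, [nat_lit 1100000, nat_lit 1442500, nat_lit 1271250], [nat_lit 11, nat_lit 40, nat_lit 20, nat_lit 80]⟩,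
 ⟨nat_lit 5809, nat_lit 5917, ⟨.ofNat (nat_lit 396280), .ofNat (nat_lit 631878), .ofNat (nat_lit 412284), .ofNat (nat_lit 647883), .ofNat (nat_lit 398101), .ofNat (nat_lit 630967), .ofNat (nat_lit 414106), .ofNat (nat_lit 646971)⟩, ⟨.negSucc (nat_lit 84722), .ofNat (nat_lit 441452), .negSucc (nat_lit 63383), .ofNat (nat_lit 462791), .negSucc (nat_lit 80165), .ofNat (nat_lit 439905), .negSucc (nat_lit 58826), .ofNat (nat_lit 461244)⟩⟩, []⟩
noncomputable def b_VL_600_600_5_102 : St := ⟨true, nat_lit 1, nat_lit 1, nat_lit 2, nat_lit 40, nat_lit 260, nat_lit 265, nat_lit 250, nat_lit 265, nat_lit 28, nat_lit 240, nat_lit 20, nat_lit 40, nat_lit 0, nat_lit 268, nat_lit 0, nat_lit 280, nat_lit 40, nat_lit 48, nat_lit 600, nat_lit 760, nat_lit 0, nat_lit 800⟩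
theorem d_VL_600_600_5_102 (h : EB TB.env) : Dead b_VL_600_600_5_102 := chkB_sound0 h (T :=
(.spl (nat_lit 2) (nat_lit 120)
(.leaf p040_l92)
(.leaf p040_l93))) (by decide +kernel)
noncomputable def p040_l94 : Lf2 := ⟨nat_lit 0, nat_lit 10, [nat_lit 0, nat_lit 5, nat_lit 5, nat_lit 20], true, nat_lit 0, nat_lit 268, nat_lit 0, nat_lit 280, ⟨nat_lit 0, nat_lit 1000, nat_lit 0, nat_lit 6, nat_lit 124, nat_lit 1000, nat_lit 90, nat_lit 0, nat_lit 0, nat_lit 0, nat_lit 0, nat_lit 0, nat_lit 0, nat_lit 0, nat_lit 0, nat_lit 5000000, false, false⟩,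
 nat_lit 0, nat_lit 1000000, nat_lit 0, nat_lit 1000000, nat_lit 311400, nat_lit 0, nat_lit 60000, nat_lit 9466, nat_lit 0, nat_lit 0, nat_lit 0, nat_lit 0, nat_lit 0, nat_lit 0, nat_lit 0, nat_lit 1000000, nat_lit 377647059460, nat_lit 0, [(nat_lit 9, [(nat_lit 2, nat_lit 1000)])],
 ⟨p040_k3, nat_lit 0, nat_lit 0, nat_lit 0, nat_lit 0, nat_lit 43883, [nat_lit 154119466667, nat_lit 191986533334, nat_lit 265375866666], [], [nat_lit 434752798181, nat_lit 443343564620, nat_lit 252569665860, nat_lit 260044485860, nat_lit 173696277237, nat_lit 177814799883, nat_lit 0, nat_lit 3389173945], nat_lit 1271250, nat_lit 1271250, nat_lit 157850, nat_lit 780000, nat_lit 0, nat_lit 1892750, [nat_lit 1100000, nat_lit 1442500, nat_lit 1271250], [nat_lit 11, nat_lit 40, nat_lit 20, nat_lit 80]⟩, C1.Rw.none,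
 ⟨nat_lit 5809, nat_lit 5917, ⟨.ofNat (nat_lit 215652), .ofNat (nat_lit 396280), .ofNat (nat_lit 220987), .ofNat (nat_lit 401614), .ofNat (nat_lit 219570), .ofNat (nat_lit 398101), .ofNat (nat_lit 224904), .ofNat (nat_lit 403436)⟩, ⟨.negSucc (nat_lit 84722), .ofNat (nat_lit 441452), .negSucc (nat_lit 63383), .ofNat (nat_lit 462791), .negSucc (nat_lit 80165), .ofNat (nat_lit 439905), .negSucc (nat_lit 58826), .ofNat (nat_lit 461244)⟩⟩, [⟨nat_lit 0, nat_lit 100, nat_lit 98, nat_lit 57, nat_lit 7333656257⟩, ⟨nat_lit 0, nat_lit 100, nat_lit 98, nat_lit 60, nat_lit 10204081633⟩]⟩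
noncomputable def p040_l95 : Lf2 := ⟨nat_lit 0, nat_lit 10, [nat_lit 0, nat_lit 5, nat_lit 5, nat_lit 20], true, nat_lit 0, nat_lit 268, nat_lit 0, nat_lit 280, ⟨nat_lit 0, nat_lit 1000, nat_lit 0, nat_lit 6, nat_lit 207, nat_lit 1000, nat_lit 90, nat_lit 0, nat_lit 0, nat_lit 0, nat_lit 0, nat_lit 0, nat_lit 0, nat_lit 0, nat_lit 0, nat_lit 5000000, false, false⟩,
 nat_lit 0, nat_lit 1000000, nat_lit 0, nat_lit 1000000, nat_lit 284766, nat_lit 0, nat_lit 0, nat_lit 20000, nat_lit 0, nat_lit 0, nat_lit 0, nat_lit 0, nat_lit 0, nat_lit 0, nat_lit 0, nat_lit 400000, nat_lit 0, nat_lit 0, [(nat_lit 9, [(nat_lit 1, nat_lit 1000)])],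
 ⟨p040_k7, nat_lit 0, nat_lit 0, nat_lit 0, nat_lit 0, nat_lit 43883, [nat_lit 322742800000, nat_lit 483038800000, nat_lit 562882000000], [], [nat_lit 1252325119948, nat_lit 1214099698321, nat_lit 824949944392, nat_lit 827504159564, nat_lit 608727194732, nat_lit 610227165866, nat_lit 545131043766, nat_lit 545464827677], nat_lit 1271250, nat_lit 1271250, nat_lit 780000, nat_lit 1762500, nat_lit 0, nat_lit 1892750, [nat_lit 1100000, nat_lit 1785000, nat_lit 1271250], [nat_lit 29, nat_lit 40, nat_lit 20, nat_lit 80]⟩, C1.Rw.none,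
 ⟨nat_lit 5809, nat_lit 5917, ⟨.ofNat (nat_lit 396280), .ofNat (nat_lit 631878), .ofNat (nat_lit 401614), .ofNat (nat_lit 637213), .ofNat (nat_lit 398101), .ofNat (nat_lit 630967), .ofNat (nat_lit 403436), .ofNat (nat_lit 636302)⟩, ⟨.negSucc (nat_lit 84722), .ofNat (nat_lit 441452), .negSucc (nat_lit 63383), .ofNat (nat_lit 462791), .negSucc (nat_lit 80165), .ofNat (nat_lit 439905), .negSucc (nat_lit 58826), .ofNat (nat_lit 461244)⟩⟩, []⟩
noncomputable def p040_l96 : Lf2 := ⟨nat_lit 2, nat_lit 10, [nat_lit 0, nat_lit 5, nat_lit 5, nat_lit 20], true, nat_lit 0, nat_lit 268, nat_lit 0, nat_lit 272, zbN0,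
 nat_lit 0, nat_lit 0, nat_lit 0, nat_lit 0, nat_lit 0, nat_lit 0, nat_lit 0, nat_lit 0, nat_lit 0, nat_lit 0, nat_lit 0, nat_lit 0, nat_lit 0, nat_lit 0, nat_lit 0, nat_lit 0, nat_lit 0, nat_lit 0, [],
 ⟨p040_k3, nat_lit 0, nat_lit 0, nat_lit 0, nat_lit 0, nat_lit 43131, [], [], [], nat_lit 1271250, nat_lit 1271250, nat_lit 181601, nat_lit 780000, nat_lit 0, nat_lit 1892750, [nat_lit 1100000, nat_lit 1442500, nat_lit 1271250], [nat_lit 11, nat_lit 40, nat_lit 20, nat_lit 80]⟩, C1.Rw.none,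
 zbF0, []⟩
noncomputable def p040_l97 : Lf2 := ⟨nat_lit 0, nat_lit 10, [nat_lit 0, nat_lit 5, nat_lit 5, nat_lit 20], true, nat_lit 0, nat_lit 268, nat_lit 0, nat_lit 272, ⟨nat_lit 0, nat_lit 1000, nat_lit 0, nat_lit 6, nat_lit 208, nat_lit 1000, nat_lit 90, nat_lit 0, nat_lit 0, nat_lit 0, nat_lit 0, nat_lit 0, nat_lit 0, nat_lit 0, nat_lit 0, nat_lit 5000000, false, false⟩,
 nat_lit 0, nat_lit 1000000, nat_lit 0, nat_lit 1000000, nat_lit 253402, nat_lit 0, nat_lit 0, nat_lit 19027, nat_lit 0, nat_lit 0, nat_lit 0, nat_lit 0, nat_lit 0, nat_lit 0, nat_lit 0, nat_lit 400000, nat_lit 0, nat_lit 0, [(nat_lit 9, [(nat_lit 1, nat_lit 1000)])],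
 ⟨p040_k7, nat_lit 0, nat_lit 0, nat_lit 0, nat_lit 0, nat_lit 43131, [nat_lit 307174800001, nat_lit 459686800001, nat_lit 535638000000], [], [nat_lit 1156554878758, nat_lit 1142948762451, nat_lit 821726843226, nat_lit 822641364780, nat_lit 629594117049, nat_lit 630132997140, nat_lit 573257342658, nat_lit 573380776146], nat_lit 1271250, nat_lit 1271250, nat_lit 780000, nat_lit 1762500, nat_lit 0, nat_lit 1892750, [nat_lit 1100000, nat_lit 1785000, nat_lit 1271250], [nat_lit 29, nat_lit 40, nat_lit 20, nat_lit 80]⟩, C1.Rw.none,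
 ⟨nat_lit 5873, nat_lit 5917, ⟨.ofNat (nat_lit 401614), .ofNat (nat_lit 637215), .ofNat (nat_lit 404815), .ofNat (nat_lit 640416), .ofNat (nat_lit 402344), .ofNat (nat_lit 636848), .ofNat (nat_lit 405545), .ofNat (nat_lit 640049)⟩, ⟨.negSucc (nat_lit 84722), .ofNat (nat_lit 441452), .negSucc (nat_lit 63383), .ofNat (nat_lit 462791), .negSucc (nat_lit 82891), .ofNat (nat_lit 440835), .negSucc (nat_lit 61552), .ofNat (nat_lit 462173)⟩⟩, []⟩
noncomputable def p040_l98 : Lf2 := ⟨nat_lit 2, nat_lit 10, [nat_lit 0, nat_lit 5, nat_lit 5, nat_lit 20], true, nat_lit 0, nat_lit 268, nat_lit 0, nat_lit 272, zbN0,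
 nat_lit 0, nat_lit 0, nat_lit 0, nat_lit 0, nat_lit 0, nat_lit 0, nat_lit 0, nat_lit 0, nat_lit 0, nat_lit 0, nat_lit 0, nat_lit 0, nat_lit 0, nat_lit 0, nat_lit 0, nat_lit 0, nat_lit 0, nat_lit 0, [],
 ⟨p040_k14, nat_lit 0, nat_lit 0, nat_lit 0, nat_lit 0, nat_lit 50261, [], [], [], nat_lit 1271250, nat_lit 1271250, nat_lit 181601, nat_lit 780000, nat_lit 0, nat_lit 1892750, [nat_lit 1100000, nat_lit 1442500, nat_lit 1271250], [nat_lit 11, nat_lit 40, nat_lit 20, nat_lit 80]⟩, C1.Rw.none,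
 zbF0, []⟩
noncomputable def p040_l99 : Lf2 := ⟨nat_lit 0, nat_lit 10, [nat_lit 0, nat_lit 5, nat_lit 5, nat_lit 20], true, nat_lit 0, nat_lit 268, nat_lit 0, nat_lit 272, ⟨nat_lit 0, nat_lit 1000, nat_lit 0, nat_lit 6, nat_lit 208, nat_lit 1000, nat_lit 90, nat_lit 0, nat_lit 0, nat_lit 0, nat_lit 0, nat_lit 0, nat_lit 0, nat_lit 0, nat_lit 0, nat_lit 5000000, false, false⟩,
 nat_lit 0, nat_lit 958627, nat_lit 0, nat_lit 1000000, nat_lit 267757, nat_lit 0, nat_lit 0, nat_lit 20000, nat_lit 0, nat_lit 0, nat_lit 0, nat_lit 0, nat_lit 0, nat_lit 0, nat_lit 0, nat_lit 400000, nat_lit 0, nat_lit 0, [(nat_lit 9, [(nat_lit 1, nat_lit 1000)])],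
 ⟨p040_k15, nat_lit 0, nat_lit 0, nat_lit 0, nat_lit 0, nat_lit 50261, [nat_lit 322742800000, nat_lit 483038800000, nat_lit 562882000000], [], [nat_lit 1202896456140, nat_lit 1195708010737, nat_lit 860046971202, nat_lit 860528756061, nat_lit 656491752931, nat_lit 656775177331, nat_lit 596393630210, nat_lit 596457653731], nat_lit 1271250, nat_lit 1271250, nat_lit 780000, nat_lit 1762500, nat_lit 0, nat_lit 1892750, [nat_lit 1100000, nat_lit 1785000, nat_lit 1271250], [nat_lit 29, nat_lit 40, nat_lit 20, nat_lit 80]⟩, C1.Rw.none,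
 ⟨nat_lit 5852, nat_lit 5874, ⟨.ofNat (nat_lit 402344), .ofNat (nat_lit 636848), .ofNat (nat_lit 405545), .ofNat (nat_lit 640049), .ofNat (nat_lit 402708), .ofNat (nat_lit 636666), .ofNat (nat_lit 405909), .ofNat (nat_lit 639867)⟩, ⟨.negSucc (nat_lit 82891), .ofNat (nat_lit 440835), .negSucc (nat_lit 61552), .ofNat (nat_lit 462173), .negSucc (nat_lit 81980), .ofNat (nat_lit 440525), .negSucc (nat_lit 60641), .ofNat (nat_lit 461864)⟩⟩, []⟩
noncomputable def p040_l100 : Lf2 := ⟨nat_lit 0, nat_lit 10, [nat_lit 0, nat_lit 5, nat_lit 5, nat_lit 20], true, nat_lit 0, nat_lit 268, nat_lit 0, nat_lit 272, ⟨nat_lit 0, nat_lit 1000, nat_lit 0, nat_lit 6, nat_lit 128, nat_lit 1000, nat_lit 90, nat_lit 0, nat_lit 0, nat_lit 0, nat_lit 0, nat_lit 0, nat_lit 0, nat_lit 0, nat_lit 0, nat_lit 5000000, false, false⟩,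
 nat_lit 0, nat_lit 212854, nat_lit 0, nat_lit 0, nat_lit 123900, nat_lit 0, nat_lit 0, nat_lit 8198, nat_lit 0, nat_lit 0, nat_lit 0, nat_lit 0, nat_lit 0, nat_lit 0, nat_lit 0, nat_lit 400000, nat_lit 0, nat_lit 0, [(nat_lit 9, [(nat_lit 1, nat_lit 1000)])],
 ⟨p040_k3, nat_lit 0, nat_lit 0, nat_lit 0, nat_lit 0, nat_lit 50587, [nat_lit 133870720001, nat_lit 166928400000, nat_lit 232541200000], [], [nat_lit 440782723403, nat_lit 434310707783, nat_lit 219421447603, nat_lit 220534015163, nat_lit 198974732925, nat_lit 199589664661, nat_lit 147775963984, nat_lit 148272362055], nat_lit 1271250, nat_lit 1271250, nat_lit 181601, nat_lit 780000, nat_lit 0, nat_lit 1892750, [nat_lit 1100000, nat_lit 1442500, nat_lit 1271250], [nat_lit 11, nat_lit 40, nat_lit 20, nat_lit 80]⟩, C1.Rw.none,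
 ⟨nat_lit 5873, nat_lit 5917, ⟨.ofNat (nat_lit 232041), .ofNat (nat_lit 404815), .ofNat (nat_lit 233108), .ofNat (nat_lit 405882), .ofNat (nat_lit 233575), .ofNat (nat_lit 405545), .ofNat (nat_lit 234642), .ofNat (nat_lit 406612)⟩, ⟨.negSucc (nat_lit 84722), .ofNat (nat_lit 441452), .negSucc (nat_lit 63383), .ofNat (nat_lit 462791), .negSucc (nat_lit 82891), .ofNat (nat_lit 440835), .negSucc (nat_lit 61552), .ofNat (nat_lit 462173)⟩⟩, [⟨nat_lit 0, nat_lit 100, nat_lit 100, nat_lit 59, nat_lit 3715760441⟩]⟩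
noncomputable def p040_l101 : Lf2 := ⟨nat_lit 0, nat_lit 10, [nat_lit 0, nat_lit 5, nat_lit 5, nat_lit 20], true, nat_lit 0, nat_lit 268, nat_lit 0, nat_lit 272, ⟨nat_lit 0, nat_lit 1000, nat_lit 0, nat_lit 6, nat_lit 209, nat_lit 1000, nat_lit 90, nat_lit 0, nat_lit 0, nat_lit 0, nat_lit 0, nat_lit 0, nat_lit 0, nat_lit 0, nat_lit 0, nat_lit 5000000, false, false⟩,
 nat_lit 0, nat_lit 928632, nat_lit 0, nat_lit 1000000, nat_lit 266191, nat_lit 0, nat_lit 0, nat_lit 20000, nat_lit 0, nat_lit 0, nat_lit 0, nat_lit 0, nat_lit 0, nat_lit 0, nat_lit 0, nat_lit 400000, nat_lit 0, nat_lit 0, [(nat_lit 9, [(nat_lit 1, nat_lit 1000)])],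
 ⟨p040_k7, nat_lit 0, nat_lit 0, nat_lit 0, nat_lit 0, nat_lit 50587, [nat_lit 322742800000, nat_lit 483038800000, nat_lit 562882000000], [], [nat_lit 1214046168598, nat_lit 1199753362283, nat_lit 862226031492, nat_lit 863184250501, nat_lit 660270345542, nat_lit 660834143208, nat_lit 600973484203, nat_lit 601101027948], nat_lit 1271250, nat_lit 1271250, nat_lit 780000, nat_lit 1762500, nat_lit 0, nat_lit 1892750, [nat_lit 1100000, nat_lit 1785000, nat_lit 1271250], [nat_lit 29, nat_lit 40, nat_lit 20, nat_lit 80]⟩, C1.Rw.none,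
 ⟨nat_lit 5873, nat_lit 5917, ⟨.ofNat (nat_lit 404815), .ofNat (nat_lit 640416), .ofNat (nat_lit 405882), .ofNat (nat_lit 641483), .ofNat (nat_lit 405545), .ofNat (nat_lit 640049), .ofNat (nat_lit 406612), .ofNat (nat_lit 641116)⟩, ⟨.negSucc (nat_lit 84722), .ofNat (nat_lit 441452), .negSucc (nat_lit 63383), .ofNat (nat_lit 462791), .negSucc (nat_lit 82891), .ofNat (nat_lit 440835), .negSucc (nat_lit 61552), .ofNat (nat_lit 462173)⟩⟩, []⟩
noncomputable def p040_l102 : Lf2 := ⟨nat_lit 0, nat_lit 10, [nat_lit 0, nat_lit 5, nat_lit 5, nat_lit 20], true, nat_lit 0, nat_lit 268, nat_lit 0, nat_lit 268, ⟨nat_lit 0, nat_lit 1000, nat_lit 0, nat_lit 6, nat_lit 128, nat_lit 1000, nat_lit 90, nat_lit 0, nat_lit 0, nat_lit 0, nat_lit 0, nat_lit 0, nat_lit 0, nat_lit 0, nat_lit 0, nat_lit 5000000, false, false⟩,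
 nat_lit 0, nat_lit 105482, nat_lit 0, nat_lit 0, nat_lit 61399, nat_lit 0, nat_lit 0, nat_lit 4081, nat_lit 0, nat_lit 0, nat_lit 0, nat_lit 0, nat_lit 0, nat_lit 0, nat_lit 0, nat_lit 400000, nat_lit 0, nat_lit 0, [(nat_lit 9, [(nat_lit 1, nat_lit 1000)])],
 ⟨p040_k3, nat_lit 0, nat_lit 0, nat_lit 0, nat_lit 0, nat_lit 50364, [nat_lit 67998720001, nat_lit 84588400000, nat_lit 117265200000], [], [nat_lit 233496193677, nat_lit 231892580735, nat_lit 127671958859, nat_lit 127961663374, nat_lit 119514267053, nat_lit 119678989199, nat_lit 94900647216, nat_lit 95035457563], nat_lit 1271250, nat_lit 1271250, nat_lit 181601, nat_lit 780000, nat_lit 0, nat_lit 1892750, [nat_lit 1100000, nat_lit 1442500, nat_lit 1271250], [nat_lit 11, nat_lit 40, nat_lit 20, nat_lit 80]⟩, C1.Rw.none,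
 ⟨nat_lit 5894, nat_lit 5917, ⟨.ofNat (nat_lit 233108), .ofNat (nat_lit 405882), .ofNat (nat_lit 234175), .ofNat (nat_lit 406949), .ofNat (nat_lit 233876), .ofNat (nat_lit 406247), .ofNat (nat_lit 234943), .ofNat (nat_lit 407314)⟩, ⟨.negSucc (nat_lit 84722), .ofNat (nat_lit 441452), .negSucc (nat_lit 63383), .ofNat (nat_lit 462791), .negSucc (nat_lit 83805), .ofNat (nat_lit 441144), .negSucc (nat_lit 62466), .ofNat (nat_lit 462483)⟩⟩, [⟨nat_lit 0, nat_lit 100, nat_lit 100, nat_lit 60, nat_lit 1397342279⟩]⟩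
noncomputable def p040_l103 : Lf2 := ⟨nat_lit 0, nat_lit 10, [nat_lit 0, nat_lit 5, nat_lit 5, nat_lit 20], true, nat_lit 0, nat_lit 268, nat_lit 0, nat_lit 268, ⟨nat_lit 0, nat_lit 1000, nat_lit 0, nat_lit 6, nat_lit 210, nat_lit 1000, nat_lit 90, nat_lit 0, nat_lit 0, nat_lit 0, nat_lit 0, nat_lit 0, nat_lit 0, nat_lit 0, nat_lit 0, nat_lit 5000000, false, false⟩,
 nat_lit 0, nat_lit 899598, nat_lit 0, nat_lit 1000000, nat_lit 264643, nat_lit 0, nat_lit 0, nat_lit 20000, nat_lit 0, nat_lit 0, nat_lit 0, nat_lit 0, nat_lit 0, nat_lit 0, nat_lit 0, nat_lit 400000, nat_lit 0, nat_lit 0, [(nat_lit 9, [(nat_lit 1, nat_lit 1000)])],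
 ⟨p040_k7, nat_lit 0, nat_lit 0, nat_lit 0, nat_lit 0, nat_lit 50364, [nat_lit 322742800000, nat_lit 483038800000, nat_lit 562882000000], [], [nat_lit 1210856084254, nat_lit 1203751240098, nat_lit 865332539316, nat_lit 865809004218, nat_lit 664565839348, nat_lit 664846230151, nat_lit 605627271433, nat_lit 605690794550], nat_lit 1271250, nat_lit 1271250, nat_lit 780000, nat_lit 1762500, nat_lit 0, nat_lit 1892750, [nat_lit 1100000, nat_lit 1785000, nat_lit 1271250], [nat_lit 29, nat_lit 40, nat_lit 20, nat_lit 80]⟩, C1.Rw.none,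
 ⟨nat_lit 5894, nat_lit 5917, ⟨.ofNat (nat_lit 405882), .ofNat (nat_lit 641483), .ofNat (nat_lit 406949), .ofNat (nat_lit 642550), .ofNat (nat_lit 406247), .ofNat (nat_lit 641299), .ofNat (nat_lit 407314), .ofNat (nat_lit 642366)⟩, ⟨.negSucc (nat_lit 84722), .ofNat (nat_lit 441452), .negSucc (nat_lit 63383), .ofNat (nat_lit 462791), .negSucc (nat_lit 83805), .ofNat (nat_lit 441144), .negSucc (nat_lit 62466), .ofNat (nat_lit 462483)⟩⟩, []⟩
noncomputable def p040_l104 : Lf2 := ⟨nat_lit 0, nat_lit 10, [nat_lit 0, nat_lit 5, nat_lit 5, nat_lit 20], true, nat_lit 0, nat_lit 268, nat_lit 0, nat_lit 268, ⟨nat_lit 0, nat_lit 1000, nat_lit 0, nat_lit 6, nat_lit 130, nat_lit 1000, nat_lit 90, nat_lit 0, nat_lit 0, nat_lit 0, nat_lit 0, nat_lit 0, nat_lit 0, nat_lit 0, nat_lit 0, nat_lit 5000000, false, false⟩,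
 nat_lit 0, nat_lit 104999, nat_lit 0, nat_lit 0, nat_lit 61399, nat_lit 0, nat_lit 0, nat_lit 3942, nat_lit 0, nat_lit 0, nat_lit 0, nat_lit 0, nat_lit 0, nat_lit 0, nat_lit 0, nat_lit 400000, nat_lit 0, nat_lit 0, [(nat_lit 9, [(nat_lit 1, nat_lit 1000)])],
 ⟨p040_k16, nat_lit 0, nat_lit 0, nat_lit 0, nat_lit 0, nat_lit 59309, [nat_lit 65774720001, nat_lit 81808400000, nat_lit 113373200000], [], [nat_lit 218802512566, nat_lit 217201324884, nat_lit 118509663374, nat_lit 118799367889, nat_lit 108468382235, nat_lit 108632220320, nat_lit 85583457563, nat_lit 85718267910], nat_lit 1271250, nat_lit 1271250, nat_lit 205650, nat_lit 780000, nat_lit 0, nat_lit 1892750, [nat_lit 1100000, nat_lit 1442500, nat_lit 1271250], [nat_lit 11, nat_lit 40, nat_lit 20, nat_lit 80]⟩, C1.Rw.none,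
 ⟨nat_lit 5873, nat_lit 5895, ⟨.ofNat (nat_lit 241711), .ofNat (nat_lit 406247), .ofNat (nat_lit 242778), .ofNat (nat_lit 407314), .ofNat (nat_lit 242459), .ofNat (nat_lit 406612), .ofNat (nat_lit 243526), .ofNat (nat_lit 407679)⟩, ⟨.negSucc (nat_lit 83805), .ofNat (nat_lit 441144), .negSucc (nat_lit 62466), .ofNat (nat_lit 462483), .negSucc (nat_lit 82891), .ofNat (nat_lit 440835), .negSucc (nat_lit 61552), .ofNat (nat_lit 462173)⟩⟩, [⟨nat_lit 0, nat_lit 100, nat_lit 100, nat_lit 61, nat_lit 1360769084⟩]⟩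
noncomputable def p040_l105 : Lf2 := ⟨nat_lit 0, nat_lit 10, [nat_lit 0, nat_lit 5, nat_lit 5, nat_lit 20], true, nat_lit 0, nat_lit 268, nat_lit 0, nat_lit 268, ⟨nat_lit 0, nat_lit 1000, nat_lit 0, nat_lit 6, nat_lit 210, nat_lit 1000, nat_lit 90, nat_lit 0, nat_lit 0, nat_lit 0, nat_lit 0, nat_lit 0, nat_lit 0, nat_lit 0, nat_lit 0, nat_lit 5000000, false, false⟩,
 nat_lit 0, nat_lit 729272, nat_lit 0, nat_lit 1000000, nat_lit 266191, nat_lit 0, nat_lit 0, nat_lit 20000, nat_lit 0, nat_lit 0, nat_lit 0, nat_lit 0, nat_lit 0, nat_lit 0, nat_lit 0, nat_lit 400000, nat_lit 0, nat_lit 0, [(nat_lit 9, [(nat_lit 1, nat_lit 1000)])],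
 ⟨p040_k17, nat_lit 0, nat_lit 0, nat_lit 0, nat_lit 0, nat_lit 59309, [nat_lit 322742800000, nat_lit 483038800000, nat_lit 562882000000], [], [nat_lit 1206899765441, nat_lit 1199753362283, nat_lit 862705140997, nat_lit 863184250501, nat_lit 660552244375, nat_lit 660834143208, nat_lit 601037256076, nat_lit 601101027948], nat_lit 1271250, nat_lit 1271250, nat_lit 780000, nat_lit 1762500, nat_lit 0, nat_lit 1892750, [nat_lit 1100000, nat_lit 1785000, nat_lit 1271250], [nat_lit 29, nat_lit 40, nat_lit 20, nat_lit 80]⟩, C1.Rw.none,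
 ⟨nat_lit 5873, nat_lit 5895, ⟨.ofNat (nat_lit 406247), .ofNat (nat_lit 641299), .ofNat (nat_lit 407314), .ofNat (nat_lit 642366), .ofNat (nat_lit 406612), .ofNat (nat_lit 641116), .ofNat (nat_lit 407679), .ofNat (nat_lit 642183)⟩, ⟨.negSucc (nat_lit 83805), .ofNat (nat_lit 441144), .negSucc (nat_lit 62466), .ofNat (nat_lit 462483), .negSucc (nat_lit 82891), .ofNat (nat_lit 440835), .negSucc (nat_lit 61552), .ofNat (nat_lit 462173)⟩⟩, []⟩
noncomputable def p040_l106 : Lf2 := ⟨nat_lit 0, nat_lit 10, [nat_lit 0, nat_lit 5, nat_lit 5, nat_lit 20], true, nat_lit 0, nat_lit 268, nat_lit 0, nat_lit 272, ⟨nat_lit 0, nat_lit 1000, nat_lit 0, nat_lit 6, nat_lit 130, nat_lit 1000, nat_lit 90, nat_lit 0, nat_lit 0, nat_lit 0, nat_lit 0, nat_lit 0, nat_lit 0, nat_lit 0, nat_lit 0, nat_lit 5000000, false, false⟩,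
 nat_lit 0, nat_lit 104521, nat_lit 0, nat_lit 0, nat_lit 61400, nat_lit 0, nat_lit 0, nat_lit 3904, nat_lit 0, nat_lit 0, nat_lit 0, nat_lit 0, nat_lit 0, nat_lit 0, nat_lit 0, nat_lit 400000, nat_lit 0, nat_lit 0, [(nat_lit 9, [(nat_lit 1, nat_lit 1000)])],
 ⟨p040_k14, nat_lit 0, nat_lit 0, nat_lit 0, nat_lit 0, nat_lit 68138, [nat_lit 65166720001, nat_lit 81048400001, nat_lit 112309199999], [], [nat_lit 215377322883, nat_lit 213776109123, nat_lit 116212365164, nat_lit 116502073944, nat_lit 106044987390, nat_lit 106208827744, nat_lit 83130638306, nat_lit 83265450468], nat_lit 1271250, nat_lit 1271250, nat_lit 205650, nat_lit 780000, nat_lit 0, nat_lit 1892750, [nat_lit 1100000, nat_lit 1442500, nat_lit 1271250], [nat_lit 11, nat_lit 40, nat_lit 20, nat_lit 80]⟩, C1.Rw.none,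
 ⟨nat_lit 5852, nat_lit 5874, ⟨.ofNat (nat_lit 241392), .ofNat (nat_lit 405545), .ofNat (nat_lit 243526), .ofNat (nat_lit 407679), .ofNat (nat_lit 242139), .ofNat (nat_lit 405909), .ofNat (nat_lit 244273), .ofNat (nat_lit 408043)⟩, ⟨.negSucc (nat_lit 82891), .ofNat (nat_lit 440835), .negSucc (nat_lit 61552), .ofNat (nat_lit 462173), .negSucc (nat_lit 81980), .ofNat (nat_lit 440525), .negSucc (nat_lit 60641), .ofNat (nat_lit 461864)⟩⟩, [⟨nat_lit 0, nat_lit 100, nat_lit 99, nat_lit 61, nat_lit 1375944756⟩]⟩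
noncomputable def p040_l107 : Lf2 := ⟨nat_lit 0, nat_lit 10, [nat_lit 0, nat_lit 5, nat_lit 5, nat_lit 20], true, nat_lit 0, nat_lit 268, nat_lit 0, nat_lit 272, ⟨nat_lit 0, nat_lit 1000, nat_lit 0, nat_lit 6, nat_lit 210, nat_lit 1000, nat_lit 90, nat_lit 0, nat_lit 0, nat_lit 0, nat_lit 0, nat_lit 0, nat_lit 0, nat_lit 0, nat_lit 0, nat_lit 5000000, false, false⟩,
 nat_lit 0, nat_lit 605181, nat_lit 0, nat_lit 1000000, nat_lit 267757, nat_lit 0, nat_lit 0, nat_lit 20000, nat_lit 0, nat_lit 0, nat_lit 0, nat_lit 0, nat_lit 0, nat_lit 0, nat_lit 0, nat_lit 400000, nat_lit 0, nat_lit 0, [(nat_lit 9, [(nat_lit 1, nat_lit 1000)])],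
 ⟨p040_k15, nat_lit 0, nat_lit 0, nat_lit 0, nat_lit 0, nat_lit 68138, [nat_lit 322742800000, nat_lit 483038800000, nat_lit 562882000000], [], [nat_lit 1202896456140, nat_lit 1195708010737, nat_lit 860046971202, nat_lit 860528756061, nat_lit 656491752931, nat_lit 656775177331, nat_lit 596393630210, nat_lit 596457653731], nat_lit 1271250, nat_lit 1271250, nat_lit 780000, nat_lit 1762500, nat_lit 0, nat_lit 1892750, [nat_lit 1100000, nat_lit 1785000, nat_lit 1271250], [nat_lit 29, nat_lit 40, nat_lit 20, nat_lit 80]⟩, C1.Rw.none,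
 ⟨nat_lit 5852, nat_lit 5874, ⟨.ofNat (nat_lit 405545), .ofNat (nat_lit 640049), .ofNat (nat_lit 407679), .ofNat (nat_lit 642183), .ofNat (nat_lit 405909), .ofNat (nat_lit 639867), .ofNat (nat_lit 408043), .ofNat (nat_lit 642001)⟩, ⟨.negSucc (nat_lit 82891), .ofNat (nat_lit 440835), .negSucc (nat_lit 61552), .ofNat (nat_lit 462173), .negSucc (nat_lit 81980), .ofNat (nat_lit 440525), .negSucc (nat_lit 60641), .ofNat (nat_lit 461864)⟩⟩, []⟩
noncomputable def p040_l108 : Lf2 := ⟨nat_lit 0, nat_lit 10, [nat_lit 0, nat_lit 5, nat_lit 5, nat_lit 20], true, nat_lit 0, nat_lit 264, nat_lit 0, nat_lit 272, ⟨nat_lit 0, nat_lit 1000, nat_lit 0, nat_lit 6, nat_lit 128, nat_lit 1000, nat_lit 89, nat_lit 0, nat_lit 0, nat_lit 0, nat_lit 0, nat_lit 0, nat_lit 0, nat_lit 0, nat_lit 0, nat_lit 5000000, false, false⟩,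
 nat_lit 0, nat_lit 209955, nat_lit 0, nat_lit 0, nat_lit 123900, nat_lit 0, nat_lit 0, nat_lit 8333, nat_lit 0, nat_lit 0, nat_lit 0, nat_lit 0, nat_lit 0, nat_lit 0, nat_lit 0, nat_lit 400000, nat_lit 0, nat_lit 0, [(nat_lit 9, [(nat_lit 1, nat_lit 1000)])],
 ⟨p040_k18, nat_lit 0, nat_lit 0, nat_lit 0, nat_lit 0, nat_lit 86103, [nat_lit 136030720001, nat_lit 169628400000, nat_lit 236321200000], [], [nat_lit 437554699973, nat_lit 431082684353, nat_lit 230270298943, nat_lit 231382866503, nat_lit 207589330185, nat_lit 208218399482, nat_lit 156468804518, nat_lit 156977778034], nat_lit 1271250, nat_lit 1271250, nat_lit 181601, nat_lit 780000, nat_lit 0, nat_lit 1864500, [nat_lit 1100000, nat_lit 1442500, nat_lit 1271250], [nat_lit 11, nat_lit 40, nat_lit 20, nat_lit 80]⟩, C1.Rw.none,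
 ⟨nat_lit 5809, nat_lit 5853, ⟨.ofNat (nat_lit 231139), .ofNat (nat_lit 402708), .ofNat (nat_lit 236474), .ofNat (nat_lit 408043), .ofNat (nat_lit 232667), .ofNat (nat_lit 403436), .ofNat (nat_lit 238001), .ofNat (nat_lit 408771)⟩, ⟨.negSucc (nat_lit 81980), .ofNat (nat_lit 432727), .negSucc (nat_lit 60641), .ofNat (nat_lit 454065), .negSucc (nat_lit 80165), .ofNat (nat_lit 432142), .negSucc (nat_lit 58826), .ofNat (nat_lit 453481)⟩⟩, [⟨nat_lit 0, nat_lit 100, nat_lit 99, nat_lit 62, nat_lit 2936646425⟩]⟩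
noncomputable def p040_l109 : Lf2 := ⟨nat_lit 0, nat_lit 10, [nat_lit 0, nat_lit 5, nat_lit 5, nat_lit 20], true, nat_lit 0, nat_lit 264, nat_lit 0, nat_lit 272, ⟨nat_lit 0, nat_lit 1000, nat_lit 0, nat_lit 6, nat_lit 209, nat_lit 1000, nat_lit 89, nat_lit 0, nat_lit 0, nat_lit 0, nat_lit 0, nat_lit 0, nat_lit 0, nat_lit 0, nat_lit 0, nat_lit 5000000, false, false⟩,
 nat_lit 0, nat_lit 455628, nat_lit 0, nat_lit 997393, nat_lit 268878, nat_lit 0, nat_lit 0, nat_lit 20000, nat_lit 0, nat_lit 0, nat_lit 0, nat_lit 0, nat_lit 0, nat_lit 0, nat_lit 0, nat_lit 400000, nat_lit 0, nat_lit 0, [(nat_lit 9, [(nat_lit 1, nat_lit 1000)])],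
 ⟨p040_k19, nat_lit 0, nat_lit 0, nat_lit 0, nat_lit 0, nat_lit 86103, [nat_lit 322742800000, nat_lit 483038800000, nat_lit 562882000000], [], [nat_lit 1197927856750, nat_lit 1183490775193, nat_lit 858284892062, nat_lit 859252292012, nat_lit 652010489093, nat_lit 652603194696, nat_lit 592359980189, nat_lit 592507498102], nat_lit 1271250, nat_lit 1271250, nat_lit 780000, nat_lit 1762500, nat_lit 0, nat_lit 1864500, [nat_lit 1100000, nat_lit 1785000, nat_lit 1271250], [nat_lit 29, nat_lit 40, nat_lit 20, nat_lit 80]⟩, C1.Rw.none,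
 ⟨nat_lit 5809, nat_lit 5853, ⟨.ofNat (nat_lit 402708), .ofNat (nat_lit 636666), .ofNat (nat_lit 408043), .ofNat (nat_lit 642001), .ofNat (nat_lit 403436), .ofNat (nat_lit 636303), .ofNat (nat_lit 408771), .ofNat (nat_lit 641638)⟩, ⟨.negSucc (nat_lit 81980), .ofNat (nat_lit 432727), .negSucc (nat_lit 60641), .ofNat (nat_lit 454065), .negSucc (nat_lit 80165), .ofNat (nat_lit 432142), .negSucc (nat_lit 58826), .ofNat (nat_lit 453481)⟩⟩, []⟩
noncomputable def p040_l110 : Lf2 := ⟨nat_lit 0, nat_lit 10, [nat_lit 0, nat_lit 5, nat_lit 5, nat_lit 20], true, nat_lit 0, nat_lit 268, nat_lit 0, nat_lit 272, ⟨nat_lit 0, nat_lit 1000, nat_lit 0, nat_lit 6, nat_lit 175, nat_lit 1000, nat_lit 90, nat_lit 0, nat_lit 0, nat_lit 0, nat_lit 0, nat_lit 0, nat_lit 0, nat_lit 0, nat_lit 0, nat_lit 5000000, false, false⟩,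
 nat_lit 0, nat_lit 206945, nat_lit 0, nat_lit 324639, nat_lit 120460, nat_lit 0, nat_lit 0, nat_lit 20000, nat_lit 0, nat_lit 0, nat_lit 0, nat_lit 0, nat_lit 0, nat_lit 0, nat_lit 0, nat_lit 400000, nat_lit 0, nat_lit 0, [(nat_lit 9, [(nat_lit 1, nat_lit 1000)])],
 ⟨p040_k3, nat_lit 0, nat_lit 0, nat_lit 0, nat_lit 0, nat_lit 34100, [nat_lit 322702720000, nat_lit 402968400001, nat_lit 562997199999], [], [nat_lit 1150678371121, nat_lit 1137652598090, nat_lit 1071901609960, nat_lit 1073331896950, nat_lit 1041830196302, nat_lit 1043003728630, nat_lit 1080713373175, nat_lit 1067536810903], nat_lit 1271250, nat_lit 1271250, nat_lit 181601, nat_lit 1713000, nat_lit 0, nat_lit 1892750, [nat_lit 1100000, nat_lit 1442500, nat_lit 1271250], [nat_lit 11, nat_lit 40, nat_lit 20, nat_lit 80]⟩, C1.Rw.none,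
 ⟨nat_lit 5809, nat_lit 5917, ⟨.ofNat (nat_lit 228840), .ofNat (nat_lit 637213), .ofNat (nat_lit 234175), .ofNat (nat_lit 642548), .ofNat (nat_lit 232667), .ofNat (nat_lit 636302), .ofNat (nat_lit 238001), .ofNat (nat_lit 641636)⟩, ⟨.negSucc (nat_lit 84722), .ofNat (nat_lit 441452), .negSucc (nat_lit 63383), .ofNat (nat_lit 462791), .negSucc (nat_lit 80165), .ofNat (nat_lit 439905), .negSucc (nat_lit 58826), .ofNat (nat_lit 461244)⟩⟩, [⟨nat_lit 16, nat_lit 98, nat_lit 100, nat_lit 54, nat_lit 10204081633⟩, ⟨nat_lit 4, nat_lit 100, nat_lit 98, nat_lit 54, nat_lit 6338001691⟩]⟩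
noncomputable def p040_l111 : Lf2 := ⟨nat_lit 0, nat_lit 10, [nat_lit 0, nat_lit 5, nat_lit 5, nat_lit 20], true, nat_lit 0, nat_lit 160, nat_lit 0, nat_lit 272, ⟨nat_lit 0, nat_lit 1000, nat_lit 0, nat_lit 6, nat_lit 175, nat_lit 1000, nat_lit 48, nat_lit 0, nat_lit 0, nat_lit 0, nat_lit 0, nat_lit 0, nat_lit 0, nat_lit 0, nat_lit 0, nat_lit 5000000, false, false⟩,
 nat_lit 0, nat_lit 440696, nat_lit 0, nat_lit 0, nat_lit 256524, nat_lit 0, nat_lit 0, nat_lit 20000, nat_lit 0, nat_lit 0, nat_lit 0, nat_lit 0, nat_lit 0, nat_lit 0, nat_lit 0, nat_lit 250000, nat_lit 0, nat_lit 0, [(nat_lit 9, [(nat_lit 0, nat_lit 1000)])],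
 ⟨p040_k3, nat_lit 0, nat_lit 0, nat_lit 0, nat_lit 0, nat_lit 88411, [nat_lit 323116800000, nat_lit 403043066667, nat_lit 563665733333], [], [nat_lit 1410046100750, nat_lit 1375504092402, nat_lit 979392276338, nat_lit 981074793976, nat_lit 907673746111, nat_lit 910317752392, nat_lit 1082367773350, nat_lit 1053701216350], nat_lit 1271250, nat_lit 1271250, nat_lit 181601, nat_lit 1713000, nat_lit 0, nat_lit 1100001, [nat_lit 1100000, nat_lit 1442500, nat_lit 1271250], [nat_lit 11, nat_lit 40, nat_lit 20, nat_lit 80]⟩, C1.Rw.none,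
 ⟨nat_lit 5809, nat_lit 5917, ⟨.ofNat (nat_lit 228840), .ofNat (nat_lit 637213), .ofNat (nat_lit 234175), .ofNat (nat_lit 642548), .ofNat (nat_lit 232667), .ofNat (nat_lit 636302), .ofNat (nat_lit 238001), .ofNat (nat_lit 641636)⟩, ⟨.negSucc (nat_lit 84722), .ofNat (nat_lit 229411), .negSucc (nat_lit 63383), .ofNat (nat_lit 250751), .negSucc (nat_lit 80165), .ofNat (nat_lit 230324), .negSucc (nat_lit 58826), .ofNat (nat_lit 251663)⟩⟩, []⟩
noncomputable def p040_l112 : Lf2 := ⟨nat_lit 0, nat_lit 10, [nat_lit 0, nat_lit 5, nat_lit 5, nat_lit 20], true, nat_lit 160, nat_lit 268, nat_lit 0, nat_lit 272, ⟨nat_lit 0, nat_lit 1000, nat_lit 0, nat_lit 6, nat_lit 175, nat_lit 1000, nat_lit 138, nat_lit 0, nat_lit 0, nat_lit 0, nat_lit 0, nat_lit 0, nat_lit 0, nat_lit 0, nat_lit 0, nat_lit 5000000, false, false⟩,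
 nat_lit 0, nat_lit 1000000, nat_lit 0, nat_lit 1000000, nat_lit 311400, nat_lit 0, nat_lit 0, nat_lit 20000, nat_lit 0, nat_lit 0, nat_lit 0, nat_lit 0, nat_lit 0, nat_lit 0, nat_lit 0, nat_lit 400000, nat_lit 0, nat_lit 0, [(nat_lit 9, [(nat_lit 1, nat_lit 1000)])],
 ⟨p040_k3, nat_lit 0, nat_lit 0, nat_lit 0, nat_lit 0, nat_lit 88411, [nat_lit 322702720000, nat_lit 402968400001, nat_lit 562997199999], [], [nat_lit 713587128400, nat_lit 672921558100, nat_lit 141679849601, nat_lit 146103390601, nat_lit 331012875934, nat_lit 336223071909, nat_lit 163973830821, nat_lit 166484611566], nat_lit 1271250, nat_lit 1271250, nat_lit 181601, nat_lit 1713000, nat_lit 1271250, nat_lit 1271250, [nat_lit 1100000, nat_lit 1442500, nat_lit 1271250], [nat_lit 11, nat_lit 40, nat_lit 20, nat_lit 80]⟩, C1.Rw.none,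
 ⟨nat_lit 5809, nat_lit 5917, ⟨.ofNat (nat_lit 228840), .ofNat (nat_lit 637213), .ofNat (nat_lit 234175), .ofNat (nat_lit 642548), .ofNat (nat_lit 232667), .ofNat (nat_lit 636302), .ofNat (nat_lit 238001), .ofNat (nat_lit 641636)⟩, ⟨.ofNat (nat_lit 229411), .ofNat (nat_lit 441452), .ofNat (nat_lit 250751), .ofNat (nat_lit 462791), .ofNat (nat_lit 230324), .ofNat (nat_lit 439905), .ofNat (nat_lit 251663), .ofNat (nat_lit 461244)⟩⟩, [⟨nat_lit 0, nat_lit 100, nat_lit 99, nat_lit 60, nat_lit 2200775503⟩, ⟨nat_lit 0, nat_lit 100, nat_lit 99, nat_lit 62, nat_lit 10101010101⟩, ⟨nat_lit 16, nat_lit 98, nat_lit 100, nat_lit 54, nat_lit 8885912729⟩, ⟨nat_lit 4, nat_lit 100, nat_lit 98, nat_lit 54, nat_lit 10204081633⟩]⟩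
noncomputable def b_VL_600_600_5_103 : St := ⟨true, nat_lit 1, nat_lit 1, nat_lit 2, nat_lit 40, nat_lit 260, nat_lit 265, nat_lit 250, nat_lit 260, nat_lit 28, nat_lit 240, nat_lit 20, nat_lit 40, nat_lit 0, nat_lit 268, nat_lit 0, nat_lit 280, nat_lit 40, nat_lit 48, nat_lit 760, nat_lit 800, nat_lit 0, nat_lit 800⟩
theorem d_VL_600_600_5_103 (h : EB TB.env) : Dead b_VL_600_600_5_103 := chkB_sound0 h (T :=
(.spl (nat_lit 1) (nat_lit 255)
(.spl (nat_lit 2) (nat_lit 120)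
(.leaf p040_l94)
(.leaf p040_l95))
(.trZ (nat_lit 0) (nat_lit 100) (nat_lit 99) (nat_lit 57) (nat_lit 32) (.trX (nat_lit 19) (nat_lit 100) (nat_lit 97) (nat_lit 62) (nat_lit 272) (.spl (nat_lit 7) (nat_lit 780)
(.spl (nat_lit 6) (nat_lit 44)
(.spl (nat_lit 0) (nat_lit 263)
(.spl (nat_lit 1) (nat_lit 258)
(.spl (nat_lit 0) (nat_lit 262)
(.spl (nat_lit 2) (nat_lit 120)
(.leaf p040_l96)
(.leaf p040_l97))
(.spl (nat_lit 2) (nat_lit 120)
(.leaf p040_l98)
(.leaf p040_l99)))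
(.spl (nat_lit 0) (nat_lit 262)
(.spl (nat_lit 1) (nat_lit 259)
(.spl (nat_lit 2) (nat_lit 120)
(.leaf p040_l100)
(.leaf p040_l101))
(.trX (nat_lit 19) (nat_lit 100) (nat_lit 99) (nat_lit 63) (nat_lit 268) (.spl (nat_lit 0) (nat_lit 261)
(.spl (nat_lit 2) (nat_lit 120)
(.leaf p040_l102)
(.leaf p040_l103))
(.trZ (nat_lit 0) (nat_lit 100) (nat_lit 100) (nat_lit 60) (nat_lit 36) (.spl (nat_lit 2) (nat_lit 120)
(.leaf p040_l104)
(.leaf p040_l105))))))
(.trZ (nat_lit 0) (nat_lit 100) (nat_lit 99) (nat_lit 60) (nat_lit 36) (.spl (nat_lit 2) (nat_lit 120)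
(.leaf p040_l106)
(.leaf p040_l107)))))
(.trX (nat_lit 16) (nat_lit 100) (nat_lit 100) (nat_lit 63) (nat_lit 264) (.spl (nat_lit 2) (nat_lit 120)
(.leaf p040_l108)
(.leaf p040_l109))))
(.leaf p040_l110))
(.spl (nat_lit 4) (nat_lit 160)
(.leaf p040_l111)
(.leaf p040_l112))))))) (by decide +kernel)
noncomputable def p040_l113 : Lf2 := ⟨nat_lit 0, nat_lit 10, [nat_lit 0, nat_lit 5, nat_lit 5, nat_lit 20], true, nat_lit 0, nat_lit 268, nat_lit 0, nat_lit 20, ⟨nat_lit 0, nat_lit 1000, nat_lit 0, nat_lit 6, nat_lit 177, nat_lit 1000, nat_lit 90, nat_lit 0, nat_lit 0, nat_lit 0, nat_lit 0, nat_lit 0, nat_lit 0, nat_lit 0, nat_lit 0, nat_lit 5000000, false, false⟩,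
 nat_lit 0, nat_lit 105482, nat_lit 0, nat_lit 0, nat_lit 61399, nat_lit 0, nat_lit 5208, nat_lit 6794, nat_lit 0, nat_lit 0, nat_lit 0, nat_lit 0, nat_lit 0, nat_lit 400000000000000, nat_lit 0, nat_lit 400000, nat_lit 0, nat_lit 0, [(nat_lit 9, [(nat_lit 1, nat_lit 1000)])],
 ⟨p040_k7, nat_lit 0, nat_lit 0, nat_lit 0, nat_lit 0, nat_lit 59747, [nat_lit 111446800000, nat_lit 166094800000, nat_lit 193114000000], [], [nat_lit 510218226908, nat_lit 508514419394, nat_lit 341014659588, nat_lit 341143902440, nat_lit 323446829679, nat_lit 323556047535, nat_lit 291209883545, nat_lit 291263886681], nat_lit 1271250, nat_lit 1271250, nat_lit 205650, nat_lit 1715250, nat_lit 0, nat_lit 1892750, [nat_lit 1100000, nat_lit 1785000, nat_lit 1271250], [nat_lit 29, nat_lit 40, nat_lit 20, nat_lit 80]⟩, C1.Rw.none,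
 ⟨nat_lit 5894, nat_lit 5917, ⟨.ofNat (nat_lit 242029), .ofNat (nat_lit 642550), .ofNat (nat_lit 243096), .ofNat (nat_lit 643617), .ofNat (nat_lit 242778), .ofNat (nat_lit 642366), .ofNat (nat_lit 243845), .ofNat (nat_lit 643433)⟩, ⟨.negSucc (nat_lit 84722), .ofNat (nat_lit 441452), .negSucc (nat_lit 63383), .ofNat (nat_lit 462791), .negSucc (nat_lit 83805), .ofNat (nat_lit 441144), .negSucc (nat_lit 62466), .ofNat (nat_lit 462483)⟩⟩, [⟨nat_lit 0, nat_lit 100, nat_lit 100, nat_lit 61, nat_lit 784072563⟩]⟩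
noncomputable def p040_l114 : Lf2 := ⟨nat_lit 0, nat_lit 10, [nat_lit 0, nat_lit 5, nat_lit 5, nat_lit 20], false, nat_lit 0, nat_lit 268, nat_lit 0, nat_lit 20, ⟨nat_lit 0, nat_lit 1000, nat_lit 0, nat_lit 6, nat_lit 177, nat_lit 1000, nat_lit 90, nat_lit 0, nat_lit 0, nat_lit 0, nat_lit 0, nat_lit 0, nat_lit 0, nat_lit 0, nat_lit 0, nat_lit 5000000, false, false⟩,
 nat_lit 478699, nat_lit 0, nat_lit 0, nat_lit 0, nat_lit 61400, nat_lit 278645, nat_lit 0, nat_lit 5951, nat_lit 0, nat_lit 0, nat_lit 20000, nat_lit 0, nat_lit 0, nat_lit 0, nat_lit 0, nat_lit 400000, nat_lit 0, nat_lit 0, [(nat_lit 9, [(nat_lit 1, nat_lit 1000)])],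
 ⟨p040_k3, nat_lit 0, nat_lit 0, nat_lit 0, nat_lit 0, nat_lit 32037, [nat_lit 97918720001, nat_lit 121988400000, nat_lit 169625200000], [], [nat_lit 439619228001, nat_lit 437942219625, nat_lit 292195206401, nat_lit 292353322122, nat_lit 275425767606, nat_lit 275556641283, nat_lit 350637975662, nat_lit 349294723257], nat_lit 1271250, nat_lit 1271250, nat_lit 205650, nat_lit 1715250, nat_lit 0, nat_lit 1892750, [nat_lit 1100000, nat_lit 1442500, nat_lit 1271250], [nat_lit 11, nat_lit 40, nat_lit 20, nat_lit 80]⟩, ⟨p040_k3, nat_lit 0, nat_lit 0, nat_lit 0, nat_lit 0, nat_lit 32037, [nat_lit 320000000000, nat_lit 400000000000, nat_lit 560000000000], [], [nat_lit 730494920037, nat_lit 732195646513, nat_lit 595661725360, nat_lit 596651138027, nat_lit 677863783689, nat_lit 679535375044, nat_lit 546563919070, nat_lit 547532781668], nat_lit 1271250, nat_lit 1271250, nat_lit 205650, nat_lit 1715250, nat_lit 0, nat_lit 111251,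 [nat_lit 1100000, nat_lit 1442500, nat_lit 1271250], [nat_lit 11, nat_lit 40, nat_lit 20, nat_lit 80]⟩,
 ⟨nat_lit 5894, nat_lit 5917, ⟨.ofNat (nat_lit 242029), .ofNat (nat_lit 642550), .ofNat (nat_lit 243096), .ofNat (nat_lit 643617), .ofNat (nat_lit 242778), .ofNat (nat_lit 642366), .ofNat (nat_lit 243845), .ofNat (nat_lit 643433)⟩, ⟨.negSucc (nat_lit 84722), .ofNat (nat_lit 441452), .negSucc (nat_lit 63383), .ofNat (nat_lit 462791), .negSucc (nat_lit 83805), .ofNat (nat_lit 441144), .negSucc (nat_lit 62466), .ofNat (nat_lit 462483)⟩⟩, [⟨nat_lit 0, nat_lit 100, nat_lit 100, nat_lit 61, nat_lit 1507415162⟩]⟩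
noncomputable def p040_l115 : Lf2 := ⟨nat_lit 0, nat_lit 10, [nat_lit 0, nat_lit 5, nat_lit 5, nat_lit 20], true, nat_lit 0, nat_lit 268, nat_lit 20, nat_lit 40, ⟨nat_lit 0, nat_lit 1000, nat_lit 0, nat_lit 6, nat_lit 177, nat_lit 1000, nat_lit 90, nat_lit 0, nat_lit 0, nat_lit 0, nat_lit 0, nat_lit 0, nat_lit 0, nat_lit 0, nat_lit 0, nat_lit 5000000, false, false⟩,
 nat_lit 0, nat_lit 105482, nat_lit 0, nat_lit 0, nat_lit 61399, nat_lit 0, nat_lit 5208, nat_lit 6794, nat_lit 0, nat_lit 0, nat_lit 0, nat_lit 0, nat_lit 0, nat_lit 400000000000000, nat_lit 0, nat_lit 400000, nat_lit 0, nat_lit 0, [(nat_lit 9, [(nat_lit 1, nat_lit 1000)])],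
 ⟨p040_k7, nat_lit 0, nat_lit 0, nat_lit 0, nat_lit 0, nat_lit 59747, [nat_lit 111446800000, nat_lit 166094800000, nat_lit 193114000000], [], [nat_lit 510218226908, nat_lit 508514419394, nat_lit 341014659588, nat_lit 341143902440, nat_lit 323446829679, nat_lit 323556047535, nat_lit 291209883545, nat_lit 291263886681], nat_lit 1271250, nat_lit 1271250, nat_lit 205650, nat_lit 1715250, nat_lit 0, nat_lit 1892750, [nat_lit 1100000, nat_lit 1785000, nat_lit 1271250], [nat_lit 29, nat_lit 40, nat_lit 20, nat_lit 80]⟩, C1.Rw.none,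
 ⟨nat_lit 5894, nat_lit 5917, ⟨.ofNat (nat_lit 242029), .ofNat (nat_lit 642550), .ofNat (nat_lit 243096), .ofNat (nat_lit 643617), .ofNat (nat_lit 242778), .ofNat (nat_lit 642366), .ofNat (nat_lit 243845), .ofNat (nat_lit 643433)⟩, ⟨.negSucc (nat_lit 84722), .ofNat (nat_lit 441452), .negSucc (nat_lit 63383), .ofNat (nat_lit 462791), .negSucc (nat_lit 83805), .ofNat (nat_lit 441144), .negSucc (nat_lit 62466), .ofNat (nat_lit 462483)⟩⟩, [⟨nat_lit 0, nat_lit 100, nat_lit 100, nat_lit 61, nat_lit 784072563⟩]⟩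
noncomputable def p040_l116 : Lf2 := ⟨nat_lit 0, nat_lit 10, [nat_lit 0, nat_lit 5, nat_lit 5, nat_lit 20], true, nat_lit 0, nat_lit 268, nat_lit 40, nat_lit 80, ⟨nat_lit 0, nat_lit 1000, nat_lit 0, nat_lit 6, nat_lit 177, nat_lit 1000, nat_lit 90, nat_lit 0, nat_lit 0, nat_lit 0, nat_lit 0, nat_lit 0, nat_lit 0, nat_lit 0, nat_lit 0, nat_lit 5000000, false, false⟩,
 nat_lit 0, nat_lit 105482, nat_lit 0, nat_lit 0, nat_lit 61399, nat_lit 0, nat_lit 5208, nat_lit 6794, nat_lit 0, nat_lit 0, nat_lit 0, nat_lit 0, nat_lit 0, nat_lit 400000000000000, nat_lit 0, nat_lit 400000, nat_lit 0, nat_lit 0, [(nat_lit 9, [(nat_lit 1, nat_lit 1000)])],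
 ⟨p040_k7, nat_lit 0, nat_lit 0, nat_lit 0, nat_lit 0, nat_lit 59747, [nat_lit 111446800000, nat_lit 166094800000, nat_lit 193114000000], [], [nat_lit 510218226908, nat_lit 508514419394, nat_lit 341014659588, nat_lit 341143902440, nat_lit 323446829679, nat_lit 323556047535, nat_lit 291209883545, nat_lit 291263886681], nat_lit 1271250, nat_lit 1271250, nat_lit 205650, nat_lit 1715250, nat_lit 0, nat_lit 1892750, [nat_lit 1100000, nat_lit 1785000, nat_lit 1271250], [nat_lit 29, nat_lit 40, nat_lit 20, nat_lit 80]⟩, C1.Rw.none,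
 ⟨nat_lit 5894, nat_lit 5917, ⟨.ofNat (nat_lit 242029), .ofNat (nat_lit 642550), .ofNat (nat_lit 243096), .ofNat (nat_lit 643617), .ofNat (nat_lit 242778), .ofNat (nat_lit 642366), .ofNat (nat_lit 243845), .ofNat (nat_lit 643433)⟩, ⟨.negSucc (nat_lit 84722), .ofNat (nat_lit 441452), .negSucc (nat_lit 63383), .ofNat (nat_lit 462791), .negSucc (nat_lit 83805), .ofNat (nat_lit 441144), .negSucc (nat_lit 62466), .ofNat (nat_lit 462483)⟩⟩, [⟨nat_lit 0, nat_lit 100, nat_lit 100, nat_lit 61, nat_lit 784072563⟩]⟩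
noncomputable def p040_l117 : Lf2 := ⟨nat_lit 0, nat_lit 10, [nat_lit 0, nat_lit 5, nat_lit 5, nat_lit 20], false, nat_lit 0, nat_lit 268, nat_lit 80, nat_lit 160, ⟨nat_lit 1000, nat_lit 0, nat_lit 0, nat_lit 0, nat_lit 0, nat_lit 0, nat_lit 0, nat_lit 0, nat_lit 0, nat_lit 0, nat_lit 0, nat_lit 0, nat_lit 0, nat_lit 0, nat_lit 0, nat_lit 0, false, false⟩,
 nat_lit 105482, nat_lit 0, nat_lit 0, nat_lit 0, nat_lit 61399, nat_lit 61399, nat_lit 0, nat_lit 8899, nat_lit 0, nat_lit 0, nat_lit 0, nat_lit 0, nat_lit 0, nat_lit 322114230036315, nat_lit 0, nat_lit 0, nat_lit 0, nat_lit 3819628640, [],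
 ⟨p040_k3, nat_lit 0, nat_lit 0, nat_lit 0, nat_lit 0, nat_lit 32037, [nat_lit 147072000001, nat_lit 184230000001, nat_lit 259014000000], [], [nat_lit 551010855362, nat_lit 549333874299, nat_lit 492980908576, nat_lit 493139022130, nat_lit 476211761717, nat_lit 476342633657, nat_lit 511186125157, nat_lit 509842894629], nat_lit 1271250, nat_lit 1271250, nat_lit 205650, nat_lit 1715250, nat_lit 0, nat_lit 1892750, [nat_lit 1100000, nat_lit 1442500, nat_lit 1271250], [nat_lit 11, nat_lit 40, nat_lit 20, nat_lit 80]⟩, ⟨p040_k3, nat_lit 0, nat_lit 0, nat_lit 0, nat_lit 0, nat_lit 32037, [nat_lit 4688000000, nat_lit 6250000000, nat_lit 9842000000], [], [nat_lit 19708467308, nat_lit 20565824867, nat_lit 11420619450, nat_lit 11989566964, nat_lit 9256837844, nat_lit 10010532404, nat_lit 0, nat_lit 488385731], nat_lit 1271250, nat_lit 1271250, nat_lit 205650, nat_lit 1715250, nat_lit 490000, nat_lit 1100001, [nat_lit 1100000,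 nat_lit 1442500, nat_lit 1271250], [nat_lit 11, nat_lit 40, nat_lit 20, nat_lit 80]⟩,
 zbF0, [⟨nat_lit 4, nat_lit 100, nat_lit 98, nat_lit 54, nat_lit 6160931575⟩]⟩
noncomputable def p040_l118 : Lf2 := ⟨nat_lit 0, nat_lit 10, [nat_lit 0, nat_lit 5, nat_lit 5, nat_lit 20], true, nat_lit 0, nat_lit 268, nat_lit 160, nat_lit 268, ⟨nat_lit 0, nat_lit 1000, nat_lit 0, nat_lit 6, nat_lit 177, nat_lit 1000, nat_lit 90, nat_lit 0, nat_lit 0, nat_lit 0, nat_lit 0, nat_lit 0, nat_lit 0, nat_lit 0, nat_lit 0, nat_lit 5000000, false, false⟩,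
 nat_lit 0, nat_lit 105482, nat_lit 0, nat_lit 0, nat_lit 61399, nat_lit 0, nat_lit 5208, nat_lit 6794, nat_lit 0, nat_lit 0, nat_lit 0, nat_lit 0, nat_lit 0, nat_lit 400000000000000, nat_lit 0, nat_lit 400000, nat_lit 0, nat_lit 0, [(nat_lit 9, [(nat_lit 1, nat_lit 1000)])],
 ⟨p040_k7, nat_lit 0, nat_lit 0, nat_lit 0, nat_lit 0, nat_lit 59747, [nat_lit 111446800000, nat_lit 166094800000, nat_lit 193114000000], [], [nat_lit 510218226908, nat_lit 508514419394, nat_lit 341014659588, nat_lit 341143902440, nat_lit 323446829679, nat_lit 323556047535, nat_lit 291209883545, nat_lit 291263886681], nat_lit 1271250, nat_lit 1271250, nat_lit 205650, nat_lit 1715250, nat_lit 0, nat_lit 1892750, [nat_lit 1100000, nat_lit 1785000, nat_lit 1271250], [nat_lit 29, nat_lit 40, nat_lit 20, nat_lit 80]⟩, C1.Rw.none,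
 ⟨nat_lit 5894, nat_lit 5917, ⟨.ofNat (nat_lit 242029), .ofNat (nat_lit 642550), .ofNat (nat_lit 243096), .ofNat (nat_lit 643617), .ofNat (nat_lit 242778), .ofNat (nat_lit 642366), .ofNat (nat_lit 243845), .ofNat (nat_lit 643433)⟩, ⟨.negSucc (nat_lit 84722), .ofNat (nat_lit 441452), .negSucc (nat_lit 63383), .ofNat (nat_lit 462791), .negSucc (nat_lit 83805), .ofNat (nat_lit 441144), .negSucc (nat_lit 62466), .ofNat (nat_lit 462483)⟩⟩, [⟨nat_lit 0, nat_lit 100, nat_lit 100, nat_lit 61, nat_lit 784072563⟩]⟩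
noncomputable def p040_l119 : Lf2 := ⟨nat_lit 0, nat_lit 10, [nat_lit 0, nat_lit 5, nat_lit 5, nat_lit 20], true, nat_lit 0, nat_lit 268, nat_lit 0, nat_lit 268, ⟨nat_lit 0, nat_lit 1000, nat_lit 0, nat_lit 6, nat_lit 178, nat_lit 1000, nat_lit 90, nat_lit 0, nat_lit 0, nat_lit 0, nat_lit 0, nat_lit 0, nat_lit 0, nat_lit 0, nat_lit 0, nat_lit 5000000, false, false⟩,
 nat_lit 0, nat_lit 104999, nat_lit 0, nat_lit 0, nat_lit 61399, nat_lit 0, nat_lit 5148, nat_lit 6771, nat_lit 0, nat_lit 0, nat_lit 0, nat_lit 0, nat_lit 0, nat_lit 400000000000000, nat_lit 0, nat_lit 400000, nat_lit 0, nat_lit 0, [(nat_lit 9, [(nat_lit 1, nat_lit 1000)])],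
 ⟨p040_k17, nat_lit 0, nat_lit 0, nat_lit 0, nat_lit 0, nat_lit 77914, [nat_lit 111078800000, nat_lit 165542800001, nat_lit 192470000000], [], [nat_lit 507778419394, nat_lit 506074611880, nat_lit 339201452441, nat_lit 339330695293, nat_lit 321609063824, nat_lit 321716507952, nat_lit 289288611682, nat_lit 289342614819], nat_lit 1271250, nat_lit 1271250, nat_lit 205650, nat_lit 1715250, nat_lit 0, nat_lit 1892750, [nat_lit 1100000, nat_lit 1785000, nat_lit 1271250], [nat_lit 29, nat_lit 40, nat_lit 20, nat_lit 80]⟩, C1.Rw.none,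
 ⟨nat_lit 5873, nat_lit 5895, ⟨.ofNat (nat_lit 242778), .ofNat (nat_lit 642366), .ofNat (nat_lit 244911), .ofNat (nat_lit 644500), .ofNat (nat_lit 243526), .ofNat (nat_lit 642183), .ofNat (nat_lit 245659), .ofNat (nat_lit 644317)⟩, ⟨.negSucc (nat_lit 83805), .ofNat (nat_lit 441144), .negSucc (nat_lit 62466), .ofNat (nat_lit 462483), .negSucc (nat_lit 82891), .ofNat (nat_lit 440835), .negSucc (nat_lit 61552), .ofNat (nat_lit 462173)⟩⟩, [⟨nat_lit 0, nat_lit 100, nat_lit 100, nat_lit 62, nat_lit 786103529⟩]⟩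
noncomputable def p040_l120 : Lf2 := ⟨nat_lit 0, nat_lit 10, [nat_lit 0, nat_lit 5, nat_lit 5, nat_lit 20], true, nat_lit 0, nat_lit 268, nat_lit 0, nat_lit 268, ⟨nat_lit 0, nat_lit 1000, nat_lit 0, nat_lit 6, nat_lit 178, nat_lit 1000, nat_lit 90, nat_lit 0, nat_lit 0, nat_lit 0, nat_lit 0, nat_lit 0, nat_lit 0, nat_lit 0, nat_lit 0, nat_lit 5000000, false, false⟩,
 nat_lit 0, nat_lit 104521, nat_lit 0, nat_lit 0, nat_lit 61400, nat_lit 0, nat_lit 5090, nat_lit 6748, nat_lit 0, nat_lit 0, nat_lit 0, nat_lit 0, nat_lit 0, nat_lit 400000000000000, nat_lit 0, nat_lit 400000, nat_lit 0, nat_lit 0, [(nat_lit 9, [(nat_lit 1, nat_lit 1000)])],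
 ⟨p040_k15, nat_lit 0, nat_lit 0, nat_lit 0, nat_lit 0, nat_lit 96004, [nat_lit 110710800000, nat_lit 164990800001, nat_lit 191826000000], [], [nat_lit 505342910272, nat_lit 503639075008, nat_lit 337358704422, nat_lit 337487948981, nat_lit 319741451887, nat_lit 319848073301, nat_lit 287337854725, nat_lit 287391858397], nat_lit 1271250, nat_lit 1271250, nat_lit 205650, nat_lit 1715250, nat_lit 0, nat_lit 1892750, [nat_lit 1100000, nat_lit 1785000, nat_lit 1271250], [nat_lit 29, nat_lit 40, nat_lit 20, nat_lit 80]⟩, C1.Rw.none,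
 ⟨nat_lit 5852, nat_lit 5874, ⟨.ofNat (nat_lit 243526), .ofNat (nat_lit 642183), .ofNat (nat_lit 246726), .ofNat (nat_lit 645384), .ofNat (nat_lit 244273), .ofNat (nat_lit 642001), .ofNat (nat_lit 247473), .ofNat (nat_lit 645202)⟩, ⟨.negSucc (nat_lit 82891), .ofNat (nat_lit 440835), .negSucc (nat_lit 61552), .ofNat (nat_lit 462173), .negSucc (nat_lit 81980), .ofNat (nat_lit 440525), .negSucc (nat_lit 60641), .ofNat (nat_lit 461864)⟩⟩, [⟨nat_lit 0, nat_lit 100, nat_lit 100, nat_lit 63, nat_lit 787752918⟩]⟩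
noncomputable def p040_l121 : Lf2 := ⟨nat_lit 0, nat_lit 10, [nat_lit 0, nat_lit 5, nat_lit 5, nat_lit 20], true, nat_lit 0, nat_lit 268, nat_lit 0, nat_lit 268, ⟨nat_lit 0, nat_lit 1000, nat_lit 0, nat_lit 6, nat_lit 178, nat_lit 1000, nat_lit 90, nat_lit 0, nat_lit 0, nat_lit 0, nat_lit 0, nat_lit 0, nat_lit 0, nat_lit 0, nat_lit 0, nat_lit 5000000, false, false⟩,
 nat_lit 0, nat_lit 105482, nat_lit 0, nat_lit 0, nat_lit 61399, nat_lit 0, nat_lit 5233, nat_lit 6747, nat_lit 0, nat_lit 0, nat_lit 0, nat_lit 0, nat_lit 0, nat_lit 169363750172754, nat_lit 0, nat_lit 400000, nat_lit 0, nat_lit 0, [(nat_lit 9, [(nat_lit 1, nat_lit 1000)])],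
 ⟨p040_k7, nat_lit 0, nat_lit 0, nat_lit 0, nat_lit 0, nat_lit 37787, [nat_lit 110694800000, nat_lit 164966800000, nat_lit 191798000000], [], [nat_lit 508714226908, nat_lit 503602804366, nat_lit 337654597088, nat_lit 338042325643, nat_lit 320086767179, nat_lit 320402268366, nat_lit 287784633545, nat_lit 287946642954], nat_lit 1271250, nat_lit 1271250, nat_lit 205650, nat_lit 1715250, nat_lit 0, nat_lit 1892750, [nat_lit 1100000, nat_lit 1785000, nat_lit 1271250], [nat_lit 29, nat_lit 40, nat_lit 20, nat_lit 80]⟩, C1.Rw.none,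
 ⟨nat_lit 5852, nat_lit 5917, ⟨.ofNat (nat_lit 242029), .ofNat (nat_lit 642549), .ofNat (nat_lit 245230), .ofNat (nat_lit 645750), .ofNat (nat_lit 244273), .ofNat (nat_lit 642000), .ofNat (nat_lit 247473), .ofNat (nat_lit 645201)⟩, ⟨.negSucc (nat_lit 84722), .ofNat (nat_lit 441452), .negSucc (nat_lit 63383), .ofNat (nat_lit 462791), .negSucc (nat_lit 81980), .ofNat (nat_lit 440525), .negSucc (nat_lit 60641), .ofNat (nat_lit 461864)⟩⟩, [⟨nat_lit 0, nat_lit 100, nat_lit 100, nat_lit 62, nat_lit 787752156⟩]⟩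
noncomputable def p040_l122 : Lf2 := ⟨nat_lit 0, nat_lit 10, [nat_lit 0, nat_lit 5, nat_lit 5, nat_lit 20], false, nat_lit 0, nat_lit 268, nat_lit 0, nat_lit 268, ⟨nat_lit 0, nat_lit 1000, nat_lit 0, nat_lit 6, nat_lit 178, nat_lit 1000, nat_lit 90, nat_lit 0, nat_lit 0, nat_lit 0, nat_lit 0, nat_lit 0, nat_lit 0, nat_lit 0, nat_lit 0, nat_lit 5000000, false, false⟩,
 nat_lit 105482, nat_lit 0, nat_lit 0, nat_lit 49208, nat_lit 61399, nat_lit 0, nat_lit 0, nat_lit 11876, nat_lit 0, nat_lit 0, nat_lit 0, nat_lit 0, nat_lit 0, nat_lit 239962704130755, nat_lit 0, nat_lit 400000, nat_lit 0, nat_lit 0, [(nat_lit 9, [(nat_lit 1, nat_lit 1000)])],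
 ⟨p040_k3, nat_lit 0, nat_lit 0, nat_lit 0, nat_lit 0, nat_lit 52653, [nat_lit 192718720000, nat_lit 240488400001, nat_lit 335525199999], [], [nat_lit 699230471598, nat_lit 700079469062, nat_lit 671397228574, nat_lit 671871569236, nat_lit 654628081715, nat_lit 655020697535, nat_lit 658737965155, nat_lit 654708273571], nat_lit 1271250, nat_lit 1271250, nat_lit 205650, nat_lit 1715250, nat_lit 0, nat_lit 1892750, [nat_lit 1100000, nat_lit 1442500, nat_lit 1271250], [nat_lit 11, nat_lit 40, nat_lit 20, nat_lit 80]⟩, ⟨p040_k3, nat_lit 0, nat_lit 0, nat_lit 0, nat_lit 0, nat_lit 52653, [nat_lit 0, nat_lit 0, nat_lit 0], [], [nat_lit 0, nat_lit 0, nat_lit 0, nat_lit 0, nat_lit 0, nat_lit 0, nat_lit 0, nat_lit 0], nat_lit 1271250, nat_lit 1271250, nat_lit 205650, nat_lit 1715250, nat_lit 0, nat_lit 1892750, [nat_lit 1100000, nat_lit 1442500, nat_lit 1271250], [nat_lit 11, nat_lit 40, nat_lit 20, nat_lit 80]⟩,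
 ⟨nat_lit 5852, nat_lit 5917, ⟨.ofNat (nat_lit 242029), .ofNat (nat_lit 642549), .ofNat (nat_lit 245230), .ofNat (nat_lit 645750), .ofNat (nat_lit 244273), .ofNat (nat_lit 642000), .ofNat (nat_lit 247473), .ofNat (nat_lit 645201)⟩, ⟨.negSucc (nat_lit 84722), .ofNat (nat_lit 441452), .negSucc (nat_lit 63383), .ofNat (nat_lit 462791), .negSucc (nat_lit 81980), .ofNat (nat_lit 440525), .negSucc (nat_lit 60641), .ofNat (nat_lit 461864)⟩⟩, [⟨nat_lit 4, nat_lit 100, nat_lit 98, nat_lit 54, nat_lit 9736108998⟩]⟩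
noncomputable def p040_l123 : Lf2 := ⟨nat_lit 0, nat_lit 10, [nat_lit 0, nat_lit 5, nat_lit 5, nat_lit 20], false, nat_lit 0, nat_lit 264, nat_lit 0, nat_lit 268, ⟨nat_lit 0, nat_lit 1000, nat_lit 0, nat_lit 6, nat_lit 178, nat_lit 1000, nat_lit 89, nat_lit 0, nat_lit 0, nat_lit 0, nat_lit 0, nat_lit 0, nat_lit 0, nat_lit 0, nat_lit 0, nat_lit 5000000, false, false⟩,
 nat_lit 0, nat_lit 209955, nat_lit 0, nat_lit 0, nat_lit 123900, nat_lit 0, nat_lit 10445, nat_lit 13895, nat_lit 0, nat_lit 0, nat_lit 0, nat_lit 0, nat_lit 0, nat_lit 266271463852232, nat_lit 0, nat_lit 400000, nat_lit 0, nat_lit 0, [(nat_lit 9, [(nat_lit 1, nat_lit 1000)])],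
 ⟨p040_k19, nat_lit 0, nat_lit 0, nat_lit 0, nat_lit 0, nat_lit 71542, [nat_lit 225062800001, nat_lit 336518800001, nat_lit 391942000000], [], [nat_lit 999258245010, nat_lit 992381854482, nat_lit 659998477107, nat_lit 660470516227, nat_lit 622249087056, nat_lit 622635922957, nat_lit 553511059067, nat_lit 553695297549], nat_lit 1271250, nat_lit 1271250, nat_lit 205650, nat_lit 1715250, nat_lit 0, nat_lit 1864500, [nat_lit 1100000, nat_lit 1785000, nat_lit 1271250], [nat_lit 29, nat_lit 40, nat_lit 20, nat_lit 80]⟩, ⟨p040_k7, nat_lit 0, nat_lit 0, nat_lit 0, nat_lit 0, nat_lit 72723, [nat_lit 0, nat_lit 0, nat_lit 0], [], [nat_lit 0, nat_lit 0, nat_lit 0, nat_lit 0, nat_lit 0, nat_lit 0, nat_lit 0, nat_lit 0], nat_lit 1271250, nat_lit 1271250, nat_lit 205650, nat_lit 1715250, nat_lit 0, nat_lit 1892750, [nat_lit 1100000, nat_lit 1785000, nat_lit 1271250], [nat_lit 29, nat_lit 40, nat_lit 20, nat_lit 80]⟩,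
 ⟨nat_lit 5809, nat_lit 5853, ⟨.ofNat (nat_lit 244273), .ofNat (nat_lit 642001), .ofNat (nat_lit 249607), .ofNat (nat_lit 647335), .ofNat (nat_lit 245764), .ofNat (nat_lit 641638), .ofNat (nat_lit 251099), .ofNat (nat_lit 646973)⟩, ⟨.negSucc (nat_lit 81980), .ofNat (nat_lit 432727), .negSucc (nat_lit 60641), .ofNat (nat_lit 454065), .negSucc (nat_lit 80165), .ofNat (nat_lit 432142), .negSucc (nat_lit 58826), .ofNat (nat_lit 453481)⟩⟩, [⟨nat_lit 0, nat_lit 100, nat_lit 100, nat_lit 65, nat_lit 1681269468⟩]⟩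
noncomputable def b_VL_600_600_5_104 : St := ⟨true, nat_lit 1, nat_lit 1, nat_lit 2, nat_lit 40, nat_lit 260, nat_lit 265, nat_lit 260, nat_lit 265, nat_lit 28, nat_lit 240, nat_lit 20, nat_lit 40, nat_lit 0, nat_lit 268, nat_lit 0, nat_lit 280, nat_lit 40, nat_lit 48, nat_lit 760, nat_lit 800, nat_lit 0, nat_lit 800⟩
theorem d_VL_600_600_5_104 (h : EB TB.env) : Dead b_VL_600_600_5_104 := chkB_sound0 h (T :=
(.trZ (nat_lit 0) (nat_lit 100) (nat_lit 100) (nat_lit 60) (nat_lit 36) (.trX (nat_lit 19) (nat_lit 100) (nat_lit 99) (nat_lit 63) (nat_lit 268) (.spl (nat_lit 0) (nat_lit 263)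
(.ord (.spl (nat_lit 7) (nat_lit 780)
(.spl (nat_lit 6) (nat_lit 44)
(.spl (nat_lit 0) (nat_lit 262)
(.ord (.spl (nat_lit 0) (nat_lit 261)
(.ord (.spl (nat_lit 5) (nat_lit 160)
(.spl (nat_lit 5) (nat_lit 80)
(.spl (nat_lit 5) (nat_lit 40)
(.spl (nat_lit 5) (nat_lit 20)
(.spl (nat_lit 8) (nat_lit 400)
(.leaf p040_l113)
(.leaf p040_l114))
(.leaf p040_l115))
(.leaf p040_l116))
(.leaf p040_l117))
(.leaf p040_l118)))
(.leaf p040_l119)))
(.leaf p040_l120))
(.leaf p040_l121))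
(.leaf p040_l122)))
(.trX (nat_lit 16) (nat_lit 100) (nat_lit 100) (nat_lit 63) (nat_lit 264) (.leaf p040_l123)))))) (by decide +kernel)
noncomputable def p040_l124 : Lf2 := ⟨nat_lit 0, nat_lit 10, [nat_lit 0, nat_lit 5, nat_lit 5, nat_lit 20], false, nat_lit 0, nat_lit 264, nat_lit 0, nat_lit 288, ⟨nat_lit 0, nat_lit 1000, nat_lit 0, nat_lit 6, nat_lit 167, nat_lit 1000, nat_lit 88, nat_lit 0, nat_lit 0, nat_lit 0, nat_lit 0, nat_lit 0, nat_lit 0, nat_lit 0, nat_lit 0, nat_lit 5000000, false, false⟩,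
 nat_lit 0, nat_lit 4782, nat_lit 0, nat_lit 0, nat_lit 2847, nat_lit 0, nat_lit 0, nat_lit 0, nat_lit 0, nat_lit 0, nat_lit 0, nat_lit 0, nat_lit 0, nat_lit 0, nat_lit 0, nat_lit 400000, nat_lit 0, nat_lit 0, [(nat_lit 9, [(nat_lit 1, nat_lit 1000)])],
 ⟨p040_k10, nat_lit 0, nat_lit 0, nat_lit 0, nat_lit 0, nat_lit 26738, [nat_lit 2702720000, nat_lit 2968400001, nat_lit 2997199999], [], [nat_lit 35476266052, nat_lit 35085621210, nat_lit 29891922403, nat_lit 30048284183, nat_lit 30194502335, nat_lit 30342446475, nat_lit 32125677854, nat_lit 32247211148], nat_lit 1271250, nat_lit 1271250, nat_lit 134400, nat_lit 1708500, nat_lit 0, nat_lit 1864500, [nat_lit 1100000, nat_lit 1442500, nat_lit 1271250], [nat_lit 11, nat_lit 40, nat_lit 20, nat_lit 80]⟩, ⟨p040_k5, nat_lit 0, nat_lit 0, nat_lit 352, nat_lit 0, nat_lit 30794, [nat_lit 0, nat_lit 0, nat_lit 0], [], [nat_lit 0, nat_lit 0, nat_lit 0, nat_lit 0, nat_lit 0, nat_lit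 0, nat_lit 0, nat_lit 0], nat_lit 1271250, nat_lit 1271250, nat_lit 134400, nat_lit 1708500, nat_lit 0, nat_lit 2034000, [nat_lit 1100000, nat_lit 1442500, nat_lit 1271250], [nat_lit 48, nat_lit 40, nat_lit 20, nat_lit 80, nat_lit 12, nat_lit 428, nat_lit 200, nat_lit 11]⟩,
 ⟨nat_lit 5700, nat_lit 5810, ⟨.ofNat (nat_lit 201138), .ofNat (nat_lit 620298), .ofNat (nat_lit 211807), .ofNat (nat_lit 630967), .ofNat (nat_lit 205119), .ofNat (nat_lit 619400), .ofNat (nat_lit 215790), .ofNat (nat_lit 630071)⟩, ⟨.negSucc (nat_lit 80165), .ofNat (nat_lit 432142), .negSucc (nat_lit 58826), .ofNat (nat_lit 453481), .negSucc (nat_lit 75673), .ofNat (nat_lit 430671), .negSucc (nat_lit 54331), .ofNat (nat_lit 452013)⟩⟩, []⟩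
noncomputable def p040_l125 : Lf2 := ⟨nat_lit 0, nat_lit 10, [nat_lit 0, nat_lit 5, nat_lit 5, nat_lit 20], false, nat_lit 0, nat_lit 264, nat_lit 0, nat_lit 280, ⟨nat_lit 0, nat_lit 1000, nat_lit 0, nat_lit 6, nat_lit 128, nat_lit 1000, nat_lit 88, nat_lit 0, nat_lit 0, nat_lit 0, nat_lit 0, nat_lit 0, nat_lit 0, nat_lit 0, nat_lit 0, nat_lit 5000000, false, false⟩,
 nat_lit 0, nat_lit 5478, nat_lit 0, nat_lit 0, nat_lit 3261, nat_lit 0, nat_lit 45, nat_lit 0, nat_lit 0, nat_lit 0, nat_lit 0, nat_lit 0, nat_lit 0, nat_lit 0, nat_lit 0, nat_lit 400000, nat_lit 0, nat_lit 0, [(nat_lit 9, [(nat_lit 1, nat_lit 1000)])],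
 ⟨p040_k20, nat_lit 0, nat_lit 0, nat_lit 0, nat_lit 0, nat_lit 72006, [nat_lit 2742800000, nat_lit 3038800001, nat_lit 2882000000], [], [nat_lit 32672581255, nat_lit 32233474235, nat_lit 27436621200, nat_lit 27617308668, nat_lit 29745278563, nat_lit 29885863662, nat_lit 29647927301, nat_lit 29785874807], nat_lit 1271250, nat_lit 1271250, nat_lit 181601, nat_lit 780000, nat_lit 0, nat_lit 1864500, [nat_lit 1100000, nat_lit 1785000, nat_lit 1271250], [nat_lit 29, nat_lit 40, nat_lit 20, nat_lit 80]⟩, ⟨p040_k1, nat_lit 0, nat_lit 0, nat_lit 0, nat_lit 0, nat_lit 78243, [nat_lit 0, nat_lit 0, nat_lit 0], [], [nat_lit 0, nat_lit 0, nat_lit 0, nat_lit 0, nat_lit 0, nat_lit 0, nat_lit 0, nat_lit 0], nat_lit 1271250, nat_lit 1271250, nat_lit 181601, nat_lit 780000, nat_lit 0, nat_lit 1977500, [nat_lit 1100000, nat_lit 1785000, nat_lit 1271250], [nat_lit 29, nat_lit 40, nat_lit 20, nat_lit 80]⟩,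
 ⟨nat_lit 5700, nat_lit 5810, ⟨.ofNat (nat_lit 227332), .ofNat (nat_lit 398101), .ofNat (nat_lit 238001), .ofNat (nat_lit 408771), .ofNat (nat_lit 231133), .ofNat (nat_lit 399915), .ofNat (nat_lit 241804), .ofNat (nat_lit 410586)⟩, ⟨.negSucc (nat_lit 80165), .ofNat (nat_lit 432142), .negSucc (nat_lit 58826), .ofNat (nat_lit 453481), .negSucc (nat_lit 75673), .ofNat (nat_lit 430671), .negSucc (nat_lit 54331), .ofNat (nat_lit 452013)⟩⟩, []⟩
noncomputable def p040_l126 : Lf2 := ⟨nat_lit 0, nat_lit 10, [nat_lit 0, nat_lit 5, nat_lit 5, nat_lit 20], true, nat_lit 0, nat_lit 264, nat_lit 0, nat_lit 280, ⟨nat_lit 0, nat_lit 1000, nat_lit 0, nat_lit 6, nat_lit 208, nat_lit 1000, nat_lit 88, nat_lit 0, nat_lit 0, nat_lit 0, nat_lit 0, nat_lit 0, nat_lit 0, nat_lit 0, nat_lit 0, nat_lit 5000000, false, false⟩,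
 nat_lit 0, nat_lit 17532, nat_lit 0, nat_lit 0, nat_lit 10440, nat_lit 0, nat_lit 0, nat_lit 535, nat_lit 0, nat_lit 0, nat_lit 0, nat_lit 0, nat_lit 0, nat_lit 0, nat_lit 0, nat_lit 400000, nat_lit 0, nat_lit 0, [(nat_lit 9, [(nat_lit 1, nat_lit 1000)])],
 ⟨p040_k10, nat_lit 0, nat_lit 0, nat_lit 0, nat_lit 0, nat_lit 132571, [nat_lit 11262720001, nat_lit 13668400000, nat_lit 17977200000], [], [nat_lit 62638566142, nat_lit 61237157962, nat_lit 48859798801, nat_lit 49098404161, nat_lit 43418921296, nat_lit 43608345798, nat_lit 44988474335, nat_lit 43790208338], nat_lit 1271250, nat_lit 1271250, nat_lit 780000, nat_lit 1762500, nat_lit 0, nat_lit 1864500, [nat_lit 1100000, nat_lit 1442500, nat_lit 1271250], [nat_lit 11, nat_lit 40, nat_lit 20, nat_lit 80]⟩, C1.Rw.none,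
 ⟨nat_lit 5700, nat_lit 5810, ⟨.ofNat (nat_lit 398101), .ofNat (nat_lit 630967), .ofNat (nat_lit 408771), .ofNat (nat_lit 641636), .ofNat (nat_lit 399915), .ofNat (nat_lit 630071), .ofNat (nat_lit 410586), .ofNat (nat_lit 640741)⟩, ⟨.negSucc (nat_lit 80165), .ofNat (nat_lit 432142), .negSucc (nat_lit 58826), .ofNat (nat_lit 453481), .negSucc (nat_lit 75673), .ofNat (nat_lit 430671), .negSucc (nat_lit 54331), .ofNat (nat_lit 452013)⟩⟩, []⟩
noncomputable def p040_l127 : Lf2 := ⟨nat_lit 0, nat_lit 10, [nat_lit 0, nat_lit 5, nat_lit 5, nat_lit 20], false, nat_lit 0, nat_lit 264, nat_lit 0, nat_lit 280, ⟨nat_lit 0, nat_lit 1000, nat_lit 0, nat_lit 6, nat_lit 174, nat_lit 1000, nat_lit 88, nat_lit 0, nat_lit 0, nat_lit 0, nat_lit 0, nat_lit 0, nat_lit 0, nat_lit 0, nat_lit 0, nat_lit 5000000, false, false⟩,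
 nat_lit 337834, nat_lit 0, nat_lit 0, nat_lit 0, nat_lit 2404, nat_lit 187685, nat_lit 0, nat_lit 0, nat_lit 0, nat_lit 0, nat_lit 20000, nat_lit 0, nat_lit 0, nat_lit 0, nat_lit 0, nat_lit 400000, nat_lit 0, nat_lit 0, [(nat_lit 9, [(nat_lit 1, nat_lit 1000)])],
 ⟨p040_k20, nat_lit 0, nat_lit 0, nat_lit 0, nat_lit 0, nat_lit 72006, [nat_lit 2742800000, nat_lit 3038800001, nat_lit 2882000000], [], [nat_lit 35885816994, nat_lit 35551729268, nat_lit 32005125503, nat_lit 32155437717, nat_lit 32434896766, nat_lit 32576825333, nat_lit 38930053989, nat_lit 38663418777], nat_lit 1271250, nat_lit 1271250, nat_lit 181601, nat_lit 1713000, nat_lit 0, nat_lit 1864500, [nat_lit 1100000, nat_lit 1785000, nat_lit 1271250], [nat_lit 29, nat_lit 40, nat_lit 20, nat_lit 80]⟩, ⟨p040_k1, nat_lit 0, nat_lit 0, nat_lit 293, nat_lit 0, nat_lit 78243, [nat_lit 320000000000, nat_lit 480000000000, nat_lit 560000000000], [], [nat_lit 1530213077792,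 nat_lit 1478047308300, nat_lit 980149583680, nat_lit 983355994220, nat_lit 934501720100, nat_lit 936724417249, nat_lit 797061270858, nat_lit 797164028395], nat_lit 1271250, nat_lit 1271250, nat_lit 181601, nat_lit 1713000, nat_lit 0, nat_lit 1977500, [nat_lit 1100000, nat_lit 1785000, nat_lit 1271250], [nat_lit 29, nat_lit 40, nat_lit 20, nat_lit 80, nat_lit 17, nat_lit 428, nat_lit 200, nat_lit 13]⟩,
 ⟨nat_lit 5700, nat_lit 5810, ⟨.ofNat (nat_lit 227332), .ofNat (nat_lit 630967), .ofNat (nat_lit 238001), .ofNat (nat_lit 641636), .ofNat (nat_lit 231133), .ofNat (nat_lit 630071), .ofNat (nat_lit 241804), .ofNat (nat_lit 640741)⟩, ⟨.negSucc (nat_lit 80165), .ofNat (nat_lit 432142), .negSucc (nat_lit 58826), .ofNat (nat_lit 453481), .negSucc (nat_lit 75673), .ofNat (nat_lit 430671), .negSucc (nat_lit 54331), .ofNat (nat_lit 452013)⟩⟩, [⟨nat_lit 0, nat_lit 100, nat_lit 98, nat_lit 64, nat_lit 3262746054⟩]⟩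
noncomputable def p040_l128 : Lf2 := ⟨nat_lit 0, nat_lit 10, [nat_lit 0, nat_lit 5, nat_lit 5, nat_lit 20], true, nat_lit 0, nat_lit 264, nat_lit 0, nat_lit 288, ⟨nat_lit 0, nat_lit 1000, nat_lit 0, nat_lit 6, nat_lit 167, nat_lit 1000, nat_lit 88, nat_lit 0, nat_lit 0, nat_lit 0, nat_lit 0, nat_lit 0, nat_lit 0, nat_lit 0, nat_lit 0, nat_lit 5000000, false, false⟩,
 nat_lit 0, nat_lit 199793, nat_lit 0, nat_lit 62739, nat_lit 118977, nat_lit 0, nat_lit 0, nat_lit 20000, nat_lit 0, nat_lit 0, nat_lit 0, nat_lit 0, nat_lit 0, nat_lit 0, nat_lit 0, nat_lit 400000, nat_lit 0, nat_lit 0, [(nat_lit 9, [(nat_lit 1, nat_lit 1000)])],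
 ⟨p040_k10, nat_lit 0, nat_lit 0, nat_lit 0, nat_lit 0, nat_lit 48363, [nat_lit 322702720000, nat_lit 402968400001, nat_lit 562997199999], [], [nat_lit 1155430680268, nat_lit 1151016645131, nat_lit 1076314717878, nat_lit 1077728941753, nat_lit 1052981896592, nat_lit 1054186950057, nat_lit 1062335497350, nat_lit 1049304987588], nat_lit 1271250, nat_lit 1271250, nat_lit 134400, nat_lit 1708500, nat_lit 0, nat_lit 1864500, [nat_lit 1100000, nat_lit 1442500, nat_lit 1271250], [nat_lit 11, nat_lit 40, nat_lit 20, nat_lit 80]⟩, C1.Rw.none,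
 ⟨nat_lit 5700, nat_lit 5810, ⟨.ofNat (nat_lit 201138), .ofNat (nat_lit 620298), .ofNat (nat_lit 211807), .ofNat (nat_lit 630967), .ofNat (nat_lit 205119), .ofNat (nat_lit 619400), .ofNat (nat_lit 215790), .ofNat (nat_lit 630071)⟩, ⟨.negSucc (nat_lit 80165), .ofNat (nat_lit 432142), .negSucc (nat_lit 58826), .ofNat (nat_lit 453481), .negSucc (nat_lit 75673), .ofNat (nat_lit 430671), .negSucc (nat_lit 54331), .ofNat (nat_lit 452013)⟩⟩, [⟨nat_lit 16, nat_lit 96, nat_lit 100, nat_lit 54, nat_lit 5594802898⟩, ⟨nat_lit 4, nat_lit 100, nat_lit 96, nat_lit 54, nat_lit 10416666667⟩]⟩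
noncomputable def p040_l129 : Lf2 := ⟨nat_lit 0, nat_lit 10, [nat_lit 0, nat_lit 5, nat_lit 5, nat_lit 20], false, nat_lit 0, nat_lit 264, nat_lit 0, nat_lit 280, ⟨nat_lit 0, nat_lit 1000, nat_lit 0, nat_lit 6, nat_lit 173, nat_lit 1000, nat_lit 88, nat_lit 0, nat_lit 0, nat_lit 0, nat_lit 0, nat_lit 0, nat_lit 0, nat_lit 0, nat_lit 0, nat_lit 5000000, false, false⟩,
 nat_lit 0, nat_lit 206691, nat_lit 0, nat_lit 63746, nat_lit 123085, nat_lit 0, nat_lit 0, nat_lit 20000, nat_lit 0, nat_lit 0, nat_lit 0, nat_lit 0, nat_lit 0, nat_lit 0, nat_lit 0, nat_lit 400000, nat_lit 0, nat_lit 0, [(nat_lit 9, [(nat_lit 1, nat_lit 1000)])],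
 ⟨p040_k10, nat_lit 0, nat_lit 0, nat_lit 0, nat_lit 0, nat_lit 48983, [nat_lit 322702720000, nat_lit 402968400001, nat_lit 562997199999], [], [nat_lit 1142668457087, nat_lit 1136571709609, nat_lit 1068052122888, nat_lit 1069510842565, nat_lit 1035828715183, nat_lit 1037058341248, nat_lit 1063945272532, nat_lit 1050464849476], nat_lit 1271250, nat_lit 1271250, nat_lit 181601, nat_lit 1713000, nat_lit 0, nat_lit 1864500, [nat_lit 1100000, nat_lit 1442500, nat_lit 1271250], [nat_lit 11, nat_lit 40, nat_lit 20, nat_lit 80]⟩, ⟨p040_k2, nat_lit 0, nat_lit 0, nat_lit 0, nat_lit 0, nat_lit 53227, [nat_lit 0, nat_lit 0, nat_lit 0], [], [nat_lit 0, nat_lit 0, nat_lit 0, nat_lit 0, nat_lit 0, nat_lit 0, nat_lit 0, nat_lit 0], nat_lit 1271250, nat_lit 1271250, nat_lit 181601, nat_lit 1713000, nat_lit 0, nat_lit 1977500, [nat_lit 1100000, nat_lit 1442500, nat_lit 1271250], [nat_lit 11, nat_lit 40, nat_lit 20, nat_lit 80]⟩,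
 ⟨nat_lit 5700, nat_lit 5810, ⟨.ofNat (nat_lit 227332), .ofNat (nat_lit 630967), .ofNat (nat_lit 232667), .ofNat (nat_lit 636302), .ofNat (nat_lit 231133), .ofNat (nat_lit 630071), .ofNat (nat_lit 236469), .ofNat (nat_lit 635406)⟩, ⟨.negSucc (nat_lit 80165), .ofNat (nat_lit 432142), .negSucc (nat_lit 58826), .ofNat (nat_lit 453481), .negSucc (nat_lit 75673), .ofNat (nat_lit 430671), .negSucc (nat_lit 54331), .ofNat (nat_lit 452013)⟩⟩, [⟨nat_lit 16, nat_lit 96, nat_lit 100, nat_lit 54, nat_lit 10416666667⟩, ⟨nat_lit 4, nat_lit 100, nat_lit 96, nat_lit 54, nat_lit 6118181103⟩]⟩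
noncomputable def p040_l130 : Lf2 := ⟨nat_lit 0, nat_lit 10, [nat_lit 0, nat_lit 5, nat_lit 5, nat_lit 20], true, nat_lit 0, nat_lit 264, nat_lit 0, nat_lit 272, ⟨nat_lit 0, nat_lit 1000, nat_lit 0, nat_lit 6, nat_lit 177, nat_lit 1000, nat_lit 88, nat_lit 0, nat_lit 0, nat_lit 0, nat_lit 0, nat_lit 0, nat_lit 0, nat_lit 0, nat_lit 0, nat_lit 5000000, false, false⟩,
 nat_lit 0, nat_lit 303170, nat_lit 0, nat_lit 0, nat_lit 180539, nat_lit 0, nat_lit 15138, nat_lit 20000, nat_lit 0, nat_lit 0, nat_lit 0, nat_lit 0, nat_lit 0, nat_lit 0, nat_lit 0, nat_lit 400000, nat_lit 0, nat_lit 0, [(nat_lit 9, [(nat_lit 1, nat_lit 1000)])],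
 ⟨p040_k20, nat_lit 0, nat_lit 0, nat_lit 0, nat_lit 0, nat_lit 132571, [nat_lit 322742800000, nat_lit 483038800000, nat_lit 562882000000], [], [nat_lit 1426483350185, nat_lit 1401433780582, nat_lit 924700270406, nat_lit 926364178544, nat_lit 869101761010, nat_lit 870457040877, nat_lit 766475693322, nat_lit 767098415833], nat_lit 1271250, nat_lit 1271250, nat_lit 205650, nat_lit 1715250, nat_lit 0, nat_lit 1864500, [nat_lit 1100000, nat_lit 1785000, nat_lit 1271250], [nat_lit 29, nat_lit 40, nat_lit 20, nat_lit 80]⟩, C1.Rw.none,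
 ⟨nat_lit 5700, nat_lit 5810, ⟨.ofNat (nat_lit 240429), .ofNat (nat_lit 636302), .ofNat (nat_lit 245764), .ofNat (nat_lit 641636), .ofNat (nat_lit 244141), .ofNat (nat_lit 635406), .ofNat (nat_lit 249476), .ofNat (nat_lit 640741)⟩, ⟨.negSucc (nat_lit 80165), .ofNat (nat_lit 432142), .negSucc (nat_lit 58826), .ofNat (nat_lit 453481), .negSucc (nat_lit 75673), .ofNat (nat_lit 430671), .negSucc (nat_lit 54331), .ofNat (nat_lit 452013)⟩⟩, [⟨nat_lit 0, nat_lit 100, nat_lit 98, nat_lit 64, nat_lit 2574157610⟩]⟩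
noncomputable def p040_l131 : Lf2 := ⟨nat_lit 0, nat_lit 10, [nat_lit 0, nat_lit 5, nat_lit 5, nat_lit 20], false, nat_lit 0, nat_lit 264, nat_lit 0, nat_lit 280, ⟨nat_lit 0, nat_lit 1000, nat_lit 0, nat_lit 6, nat_lit 174, nat_lit 1000, nat_lit 88, nat_lit 0, nat_lit 0, nat_lit 0, nat_lit 0, nat_lit 0, nat_lit 0, nat_lit 0, nat_lit 0, nat_lit 5000000, false, false⟩,
 nat_lit 337471, nat_lit 0, nat_lit 0, nat_lit 0, nat_lit 177977, nat_lit 187483, nat_lit 14817, nat_lit 20000, nat_lit 0, nat_lit 0, nat_lit 20000, nat_lit 0, nat_lit 0, nat_lit 0, nat_lit 0, nat_lit 400000, nat_lit 0, nat_lit 0, [(nat_lit 9, [(nat_lit 1, nat_lit 1000)])],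
 ⟨p040_k20, nat_lit 0, nat_lit 0, nat_lit 0, nat_lit 0, nat_lit 72006, [nat_lit 322742800000, nat_lit 483038800000, nat_lit 562882000000], [], [nat_lit 1435451204407, nat_lit 1410717455954, nat_lit 932175114158, nat_lit 933817137692, nat_lit 883257993225, nat_lit 884604599591, nat_lit 1017589746048, nat_lit 997849756350], nat_lit 1271250, nat_lit 1271250, nat_lit 181601, nat_lit 1713000, nat_lit 0, nat_lit 1864500, [nat_lit 1100000, nat_lit 1785000, nat_lit 1271250], [nat_lit 29, nat_lit 40, nat_lit 20, nat_lit 80]⟩, ⟨p040_k1, nat_lit 0, nat_lit 0, nat_lit 293, nat_lit 0, nat_lit 78243, [nat_lit 320000000000, nat_lit 480000000000, nat_lit 560000000000], [], [nat_lit 1529254966906, nat_lit 1477145341940, nat_lit 980558405824, nat_lit 983761365396, nat_lit 934959671735, nat_lit 937179976659, nat_lit 797667145719, nat_lit 797769792661], nat_lit 1271250, nat_lit 1271250, nat_lit 181601, nat_lit 1713000, nat_lit 0, nat_lit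 1977500, [nat_lit 1100000, nat_lit 1785000, nat_lit 1271250], [nat_lit 29, nat_lit 40, nat_lit 20, nat_lit 80, nat_lit 17, nat_lit 428, nat_lit 200, nat_lit 13]⟩,
 ⟨nat_lit 5700, nat_lit 5810, ⟨.ofNat (nat_lit 227332), .ofNat (nat_lit 630967), .ofNat (nat_lit 238001), .ofNat (nat_lit 641636), .ofNat (nat_lit 231133), .ofNat (nat_lit 630071), .ofNat (nat_lit 241804), .ofNat (nat_lit 640741)⟩, ⟨.negSucc (nat_lit 80165), .ofNat (nat_lit 432142), .negSucc (nat_lit 58826), .ofNat (nat_lit 453481), .negSucc (nat_lit 75673), .ofNat (nat_lit 430671), .negSucc (nat_lit 54331), .ofNat (nat_lit 452013)⟩⟩, [⟨nat_lit 0, nat_lit 100, nat_lit 98, nat_lit 61, nat_lit 630566573⟩]⟩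
noncomputable def p040_l132 : Lf2 := ⟨nat_lit 0, nat_lit 10, [nat_lit 0, nat_lit 5, nat_lit 5, nat_lit 20], false, nat_lit 0, nat_lit 264, nat_lit 0, nat_lit 280, ⟨nat_lit 0, nat_lit 1000, nat_lit 0, nat_lit 6, nat_lit 174, nat_lit 1000, nat_lit 88, nat_lit 0, nat_lit 0, nat_lit 0, nat_lit 0, nat_lit 0, nat_lit 0, nat_lit 0, nat_lit 0, nat_lit 5000000, false, false⟩,
 nat_lit 0, nat_lit 234629, nat_lit 0, nat_lit 0, nat_lit 139722, nat_lit 0, nat_lit 8259, nat_lit 20000, nat_lit 0, nat_lit 0, nat_lit 0, nat_lit 0, nat_lit 0, nat_lit 0, nat_lit 0, nat_lit 400000, nat_lit 0, nat_lit 0, [(nat_lit 9, [(nat_lit 1, nat_lit 1000)])],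
 ⟨p040_k20, nat_lit 0, nat_lit 0, nat_lit 0, nat_lit 0, nat_lit 72006, [nat_lit 322742800000, nat_lit 483038800000, nat_lit 562882000000], [], [nat_lit 1269952102065, nat_lit 1250534712170, nat_lit 1056737339888, nat_lit 1058052589212, nat_lit 1018542940523, nat_lit 1019624722552, nat_lit 1027341784152, nat_lit 1011844777008], nat_lit 1271250, nat_lit 1271250, nat_lit 181601, nat_lit 1713000, nat_lit 0, nat_lit 1864500, [nat_lit 1100000, nat_lit 1785000, nat_lit 1271250], [nat_lit 29, nat_lit 40, nat_lit 20, nat_lit 80]⟩, ⟨p040_k1, nat_lit 0, nat_lit 0, nat_lit 293, nat_lit 0, nat_lit 78243, [nat_lit 0, nat_lit 0, nat_lit 0], [], [nat_lit 0, nat_lit 0, nat_lit 0, nat_lit 0, nat_lit 0, nat_lit 0, nat_lit 0, nat_lit 0], nat_lit 1271250, nat_lit 1271250, nat_lit 181601, nat_lit 1713000, nat_lit 0, nat_lit 1977500, [nat_lit 1100000, nat_lit 1785000, nat_lit 1271250], [nat_lit 29, nat_lit 40, nat_lit 20, nat_lit 80, nat_lit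 17, nat_lit 428, nat_lit 200, nat_lit 13]⟩,
 ⟨nat_lit 5700, nat_lit 5810, ⟨.ofNat (nat_lit 227332), .ofNat (nat_lit 630967), .ofNat (nat_lit 238001), .ofNat (nat_lit 641636), .ofNat (nat_lit 231133), .ofNat (nat_lit 630071), .ofNat (nat_lit 241804), .ofNat (nat_lit 640741)⟩, ⟨.negSucc (nat_lit 80165), .ofNat (nat_lit 432142), .negSucc (nat_lit 58826), .ofNat (nat_lit 453481), .negSucc (nat_lit 75673), .ofNat (nat_lit 430671), .negSucc (nat_lit 54331), .ofNat (nat_lit 452013)⟩⟩, [⟨nat_lit 16, nat_lit 96, nat_lit 100, nat_lit 54, nat_lit 129986421⟩, ⟨nat_lit 4, nat_lit 100, nat_lit 96, nat_lit 54, nat_lit 10416666667⟩]⟩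
noncomputable def p040_l133 : Lf2 := ⟨nat_lit 0, nat_lit 10, [nat_lit 0, nat_lit 5, nat_lit 5, nat_lit 20], true, nat_lit 0, nat_lit 264, nat_lit 0, nat_lit 280, ⟨nat_lit 0, nat_lit 1000, nat_lit 0, nat_lit 6, nat_lit 174, nat_lit 1000, nat_lit 88, nat_lit 0, nat_lit 0, nat_lit 0, nat_lit 0, nat_lit 0, nat_lit 0, nat_lit 0, nat_lit 0, nat_lit 5000000, false, false⟩,
 nat_lit 0, nat_lit 299927, nat_lit 0, nat_lit 0, nat_lit 178607, nat_lit 0, nat_lit 14925, nat_lit 20000, nat_lit 0, nat_lit 0, nat_lit 0, nat_lit 0, nat_lit 0, nat_lit 0, nat_lit 0, nat_lit 400000, nat_lit 0, nat_lit 0, [(nat_lit 9, [(nat_lit 1, nat_lit 1000)])],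
 ⟨p040_k20, nat_lit 0, nat_lit 0, nat_lit 0, nat_lit 0, nat_lit 132571, [nat_lit 322742800000, nat_lit 483038800000, nat_lit 562882000000], [], [nat_lit 1438176715699, nat_lit 1413355415138, nat_lit 930123769178, nat_lit 931771174172, nat_lit 881030061797, nat_lit 882381029405, nat_lit 774258775566, nat_lit 774875967823], nat_lit 1271250, nat_lit 1271250, nat_lit 181601, nat_lit 1713000, nat_lit 0, nat_lit 1864500, [nat_lit 1100000, nat_lit 1785000, nat_lit 1271250], [nat_lit 29, nat_lit 40, nat_lit 20, nat_lit 80]⟩, C1.Rw.none,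
 ⟨nat_lit 5700, nat_lit 5810, ⟨.ofNat (nat_lit 227332), .ofNat (nat_lit 630967), .ofNat (nat_lit 238001), .ofNat (nat_lit 641636), .ofNat (nat_lit 231133), .ofNat (nat_lit 630071), .ofNat (nat_lit 241804), .ofNat (nat_lit 640741)⟩, ⟨.negSucc (nat_lit 80165), .ofNat (nat_lit 432142), .negSucc (nat_lit 58826), .ofNat (nat_lit 453481), .negSucc (nat_lit 75673), .ofNat (nat_lit 430671), .negSucc (nat_lit 54331), .ofNat (nat_lit 452013)⟩⟩, [⟨nat_lit 0, nat_lit 100, nat_lit 98, nat_lit 64, nat_lit 2625836447⟩]⟩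
noncomputable def p040_l134 : Lf2 := ⟨nat_lit 0, nat_lit 10, [nat_lit 0, nat_lit 5, nat_lit 5, nat_lit 20], true, nat_lit 0, nat_lit 264, nat_lit 0, nat_lit 280, ⟨nat_lit 0, nat_lit 1000, nat_lit 0, nat_lit 6, nat_lit 174, nat_lit 1000, nat_lit 88, nat_lit 0, nat_lit 0, nat_lit 0, nat_lit 0, nat_lit 0, nat_lit 0, nat_lit 0, nat_lit 0, nat_lit 5000000, false, false⟩,
 nat_lit 0, nat_lit 384218, nat_lit 0, nat_lit 0, nat_lit 228803, nat_lit 0, nat_lit 56711, nat_lit 20000, nat_lit 0, nat_lit 0, nat_lit 0, nat_lit 0, nat_lit 0, nat_lit 0, nat_lit 0, nat_lit 400000, nat_lit 0, nat_lit 0, [(nat_lit 9, [(nat_lit 1, nat_lit 1000)])],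
 ⟨p040_k20, nat_lit 0, nat_lit 0, nat_lit 0, nat_lit 0, nat_lit 132571, [nat_lit 322742800000, nat_lit 483038800000, nat_lit 562882000000], [], [nat_lit 1198151953460, nat_lit 1167342691418, nat_lit 687120740752, nat_lit 689835814037, nat_lit 634085980647, nat_lit 636364912014, nat_lit 496820828056, nat_lit 497581703853], nat_lit 1271250, nat_lit 1271250, nat_lit 181601, nat_lit 1713000, nat_lit 0, nat_lit 1864500, [nat_lit 1100000, nat_lit 1785000, nat_lit 1271250], [nat_lit 29, nat_lit 40, nat_lit 20, nat_lit 80]⟩, C1.Rw.none,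
 ⟨nat_lit 5700, nat_lit 5810, ⟨.ofNat (nat_lit 227332), .ofNat (nat_lit 630967), .ofNat (nat_lit 238001), .ofNat (nat_lit 641636), .ofNat (nat_lit 231133), .ofNat (nat_lit 630071), .ofNat (nat_lit 241804), .ofNat (nat_lit 640741)⟩, ⟨.negSucc (nat_lit 80165), .ofNat (nat_lit 432142), .negSucc (nat_lit 58826), .ofNat (nat_lit 453481), .negSucc (nat_lit 75673), .ofNat (nat_lit 430671), .negSucc (nat_lit 54331), .ofNat (nat_lit 452013)⟩⟩, []⟩
noncomputable def p040_l135 : Lf2 := ⟨nat_lit 1, nat_lit 10, [nat_lit 0, nat_lit 5, nat_lit 5, nat_lit 20], false, nat_lit 0, nat_lit 264, nat_lit 0, nat_lit 288, zbN0,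
 nat_lit 0, nat_lit 0, nat_lit 0, nat_lit 0, nat_lit 0, nat_lit 0, nat_lit 0, nat_lit 0, nat_lit 0, nat_lit 0, nat_lit 0, nat_lit 0, nat_lit 0, nat_lit 0, nat_lit 0, nat_lit 0, nat_lit 0, nat_lit 0, [],
 C1.Rw.none, C1.Rw.none,
 zbF0, []⟩
noncomputable def p040_l136 : Lf2 := ⟨nat_lit 0, nat_lit 10, [nat_lit 0, nat_lit 5, nat_lit 5, nat_lit 20], false, nat_lit 0, nat_lit 160, nat_lit 0, nat_lit 268, ⟨nat_lit 0, nat_lit 1000, nat_lit 0, nat_lit 6, nat_lit 179, nat_lit 0, nat_lit 48, nat_lit 0, nat_lit 0, nat_lit 0, nat_lit 0, nat_lit 0, nat_lit 0, nat_lit 0, nat_lit 0, nat_lit 5000000, false, false⟩,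
 nat_lit 0, nat_lit 389433, nat_lit 0, nat_lit 0, nat_lit 231909, nat_lit 0, nat_lit 0, nat_lit 20000, nat_lit 0, nat_lit 0, nat_lit 0, nat_lit 0, nat_lit 0, nat_lit 0, nat_lit 0, nat_lit 400000, nat_lit 0, nat_lit 0, [(nat_lit 9, [(nat_lit 1, nat_lit 1000)])],
 ⟨p040_k10, nat_lit 0, nat_lit 0, nat_lit 0, nat_lit 0, nat_lit 96965, [nat_lit 322702720000, nat_lit 402968400001, nat_lit 562997199999], [], [nat_lit 969500721476, nat_lit 939261643148, nat_lit 705992032075, nat_lit 709318796002, nat_lit 617450522380, nat_lit 621850311007, nat_lit 525681172103, nat_lit 527947741078], nat_lit 1271250, nat_lit 1271250, nat_lit 205650, nat_lit 1715250, nat_lit 0, nat_lit 1100001, [nat_lit 1100000, nat_lit 1442500, nat_lit 1271250], [nat_lit 11, nat_lit 40, nat_lit 20, nat_lit 80]⟩, ⟨p040_k3, nat_lit 0, nat_lit 0, nat_lit 0, nat_lit 0, nat_lit 99650, [nat_lit 0, nat_lit 0, nat_lit 0], [], [nat_lit 0, nat_lit 0, nat_lit 0, nat_lit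 0, nat_lit 0, nat_lit 0, nat_lit 0, nat_lit 0], nat_lit 1271250, nat_lit 1271250, nat_lit 205650, nat_lit 1715250, nat_lit 0, nat_lit 1892750, [nat_lit 1100000, nat_lit 1442500, nat_lit 1271250], [nat_lit 11, nat_lit 40, nat_lit 20, nat_lit 80]⟩,
 ⟨nat_lit 5700, nat_lit 5810, ⟨.ofNat (nat_lit 245764), .ofNat (nat_lit 641636), .ofNat (nat_lit 251099), .ofNat (nat_lit 646971), .ofNat (nat_lit 249476), .ofNat (nat_lit 640741), .ofNat (nat_lit 254812), .ofNat (nat_lit 646077)⟩, ⟨.negSucc (nat_lit 80165), .ofNat (nat_lit 230324), .negSucc (nat_lit 58826), .ofNat (nat_lit 251663), .negSucc (nat_lit 75673), .ofNat (nat_lit 231202), .negSucc (nat_lit 54331), .ofNat (nat_lit 252544)⟩⟩, [⟨nat_lit 0, nat_lit 100, nat_lit 99, nat_lit 65, nat_lit 13869363⟩]⟩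
noncomputable def p040_l137 : Lf2 := ⟨nat_lit 0, nat_lit 10, [nat_lit 0, nat_lit 5, nat_lit 5, nat_lit 20], true, nat_lit 160, nat_lit 264, nat_lit 0, nat_lit 268, ⟨nat_lit 0, nat_lit 1000, nat_lit 0, nat_lit 6, nat_lit 179, nat_lit 1000, nat_lit 137, nat_lit 0, nat_lit 0, nat_lit 0, nat_lit 0, nat_lit 0, nat_lit 0, nat_lit 0, nat_lit 0, nat_lit 5000000, false, false⟩,
 nat_lit 0, nat_lit 47913, nat_lit 0, nat_lit 0, nat_lit 28532, nat_lit 0, nat_lit 0, nat_lit 1533, nat_lit 0, nat_lit 0, nat_lit 0, nat_lit 0, nat_lit 0, nat_lit 0, nat_lit 0, nat_lit 400000, nat_lit 0, nat_lit 0, [(nat_lit 9, [(nat_lit 1, nat_lit 1000)])],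
 ⟨p040_k20, nat_lit 0, nat_lit 0, nat_lit 0, nat_lit 0, nat_lit 179032, [nat_lit 27270800001, nat_lit 39830800000, nat_lit 45806000000], [], [nat_lit 72252318450, nat_lit 68531973906, nat_lit 80811880603, nat_lit 77450768205, nat_lit 59733944085, nat_lit 60306909317, nat_lit 45794382853, nat_lit 46114716126], nat_lit 1271250, nat_lit 1271250, nat_lit 205650, nat_lit 1715250, nat_lit 1271250, nat_lit 1271250, [nat_lit 1100000, nat_lit 1785000, nat_lit 1271250], [nat_lit 29, nat_lit 40, nat_lit 20, nat_lit 80]⟩, C1.Rw.none,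
 ⟨nat_lit 5700, nat_lit 5810, ⟨.ofNat (nat_lit 245764), .ofNat (nat_lit 641636), .ofNat (nat_lit 251099), .ofNat (nat_lit 646971), .ofNat (nat_lit 249476), .ofNat (nat_lit 640741), .ofNat (nat_lit 254812), .ofNat (nat_lit 646077)⟩, ⟨.ofNat (nat_lit 230324), .ofNat (nat_lit 432142), .ofNat (nat_lit 251663), .ofNat (nat_lit 453481), .ofNat (nat_lit 231202), .ofNat (nat_lit 430671), .ofNat (nat_lit 252544), .ofNat (nat_lit 452013)⟩⟩, []⟩
noncomputable def p040_l138 : Lf2 := ⟨nat_lit 1, nat_lit 10, [nat_lit 0, nat_lit 5, nat_lit 5, nat_lit 20], false, nat_lit 0, nat_lit 264, nat_lit 0, nat_lit 268, zbN0,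
 nat_lit 0, nat_lit 0, nat_lit 0, nat_lit 0, nat_lit 0, nat_lit 0, nat_lit 0, nat_lit 0, nat_lit 0, nat_lit 0, nat_lit 0, nat_lit 0, nat_lit 0, nat_lit 0, nat_lit 0, nat_lit 0, nat_lit 0, nat_lit 0, [],
 C1.Rw.none, C1.Rw.none,
 zbF0, []⟩
noncomputable def p040_l139 : Lf2 := ⟨nat_lit 0, nat_lit 10, [nat_lit 0, nat_lit 5, nat_lit 5, nat_lit 20], true, nat_lit 0, nat_lit 264, nat_lit 0, nat_lit 264, ⟨nat_lit 0, nat_lit 1000, nat_lit 0, nat_lit 6, nat_lit 121, nat_lit 1000, nat_lit 88, nat_lit 0, nat_lit 0, nat_lit 0, nat_lit 0, nat_lit 0, nat_lit 0, nat_lit 0, nat_lit 0, nat_lit 5000000, false, false⟩,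
 nat_lit 0, nat_lit 5944, nat_lit 0, nat_lit 0, nat_lit 3539, nat_lit 0, nat_lit 0, nat_lit 0, nat_lit 0, nat_lit 0, nat_lit 0, nat_lit 0, nat_lit 0, nat_lit 28252839624527, nat_lit 0, nat_lit 593200, nat_lit 0, nat_lit 0, [(nat_lit 9, [(nat_lit 1, nat_lit 678), (nat_lit 2, nat_lit 322)])],
 ⟨p040_k20, nat_lit 0, nat_lit 0, nat_lit 0, nat_lit 0, nat_lit 124736, [nat_lit 2877524801, nat_lit 2599592001, nat_lit 1938668800], [], [nat_lit 32295166249, nat_lit 31820110353, nat_lit 28530993835, nat_lit 28063192889, nat_lit 28690990072, nat_lit 28842802546, nat_lit 29236114989, nat_lit 28822515775], nat_lit 1271250, nat_lit 1271250, nat_lit 230001, nat_lit 490000, nat_lit 0, nat_lit 1864500, [nat_lit 1100000, nat_lit 1785000, nat_lit 1271250], [nat_lit 29, nat_lit 40, nat_lit 20, nat_lit 80]⟩, C1.Rw.none,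
 ⟨nat_lit 5700, nat_lit 5810, ⟨.ofNat (nat_lit 258861), .ofNat (nat_lit 336483), .ofNat (nat_lit 264196), .ofNat (nat_lit 341818), .ofNat (nat_lit 262484), .ofNat (nat_lit 339203), .ofNat (nat_lit 267819), .ofNat (nat_lit 344538)⟩, ⟨.negSucc (nat_lit 80165), .ofNat (nat_lit 432142), .negSucc (nat_lit 58826), .ofNat (nat_lit 453481), .negSucc (nat_lit 75673), .ofNat (nat_lit 430671), .negSucc (nat_lit 54331), .ofNat (nat_lit 452013)⟩⟩, []⟩
noncomputable def p040_l140 : Lf2 := ⟨nat_lit 0, nat_lit 10, [nat_lit 0, nat_lit 5, nat_lit 5, nat_lit 20], false, nat_lit 0, nat_lit 264, nat_lit 0, nat_lit 264, ⟨nat_lit 0, nat_lit 1000, nat_lit 0, nat_lit 6, nat_lit 152, nat_lit 1000, nat_lit 88, nat_lit 0, nat_lit 0, nat_lit 0, nat_lit 0, nat_lit 0, nat_lit 0, nat_lit 0, nat_lit 0, nat_lit 5000000, false, false⟩,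
 nat_lit 7059, nat_lit 0, nat_lit 0, nat_lit 0, nat_lit 4203, nat_lit 0, nat_lit 303, nat_lit 0, nat_lit 0, nat_lit 0, nat_lit 0, nat_lit 0, nat_lit 0, nat_lit 25673960318462, nat_lit 0, nat_lit 400000, nat_lit 0, nat_lit 0, [(nat_lit 9, [(nat_lit 1, nat_lit 1000)])],
 ⟨p040_k20, nat_lit 0, nat_lit 0, nat_lit 0, nat_lit 0, nat_lit 124736, [nat_lit 2742800000, nat_lit 3038800001, nat_lit 2882000000], [], [nat_lit 28779729254, nat_lit 28224157800, nat_lit 24376977476, nat_lit 23969237742, nat_lit 25104395791, nat_lit 25245593686, nat_lit 25053048378, nat_lit 25200642060], nat_lit 1271250, nat_lit 1271250, nat_lit 490000, nat_lit 780000, nat_lit 0, nat_lit 1864500, [nat_lit 1100000, nat_lit 1785000, nat_lit 1271250], [nat_lit 29, nat_lit 40, nat_lit 20, nat_lit 80]⟩, ⟨p040_k20, nat_lit 0, nat_lit 0, nat_lit 0, nat_lit 0, nat_lit 124736, [nat_lit 0, nat_lit 0, nat_lit 0], [], [nat_lit 0, nat_lit 0, nat_lit 0, nat_lit 0,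 nat_lit 0, nat_lit 0, nat_lit 0, nat_lit 0], nat_lit 1271250, nat_lit 1271250, nat_lit 490000, nat_lit 780000, nat_lit 0, nat_lit 1864500, [nat_lit 1100000, nat_lit 1785000, nat_lit 1271250], [nat_lit 29, nat_lit 40, nat_lit 20, nat_lit 80]⟩,
 ⟨nat_lit 5700, nat_lit 5810, ⟨.ofNat (nat_lit 336483), .ofNat (nat_lit 414106), .ofNat (nat_lit 341818), .ofNat (nat_lit 419441), .ofNat (nat_lit 339203), .ofNat (nat_lit 415922), .ofNat (nat_lit 344538), .ofNat (nat_lit 421257)⟩, ⟨.negSucc (nat_lit 80165), .ofNat (nat_lit 432142), .negSucc (nat_lit 58826), .ofNat (nat_lit 453481), .negSucc (nat_lit 75673), .ofNat (nat_lit 430671), .negSucc (nat_lit 54331), .ofNat (nat_lit 452013)⟩⟩, []⟩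
noncomputable def p040_l141 : Lf2 := ⟨nat_lit 0, nat_lit 10, [nat_lit 0, nat_lit 5, nat_lit 5, nat_lit 20], false, nat_lit 0, nat_lit 264, nat_lit 0, nat_lit 264, ⟨nat_lit 0, nat_lit 1000, nat_lit 0, nat_lit 6, nat_lit 213, nat_lit 1000, nat_lit 88, nat_lit 0, nat_lit 0, nat_lit 0, nat_lit 0, nat_lit 0, nat_lit 0, nat_lit 0, nat_lit 0, nat_lit 5000000, false, false⟩,
 nat_lit 0, nat_lit 17325, nat_lit 0, nat_lit 0, nat_lit 10317, nat_lit 0, nat_lit 0, nat_lit 526, nat_lit 0, nat_lit 0, nat_lit 0, nat_lit 0, nat_lit 0, nat_lit 33751113025357, nat_lit 0, nat_lit 400000, nat_lit 0, nat_lit 0, [(nat_lit 9, [(nat_lit 1, nat_lit 1000)])],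
 ⟨p040_k10, nat_lit 0, nat_lit 0, nat_lit 0, nat_lit 0, nat_lit 124736, [nat_lit 11118720001, nat_lit 13488400000, nat_lit 17725200000], [], [nat_lit 62113601292, nat_lit 60728703955, nat_lit 48531193929, nat_lit 48768467014, nat_lit 43183410344, nat_lit 43371975747, nat_lit 44756201911, nat_lit 43579541474], nat_lit 1271250, nat_lit 1271250, nat_lit 780000, nat_lit 1762500, nat_lit 0, nat_lit 1864500, [nat_lit 1100000, nat_lit 1442500, nat_lit 1271250], [nat_lit 11, nat_lit 40, nat_lit 20, nat_lit 80]⟩, ⟨p040_k10, nat_lit 0, nat_lit 0, nat_lit 0, nat_lit 0, nat_lit 124736, [nat_lit 0, nat_lit 0, nat_lit 0], [], [nat_lit 0, nat_lit 0, nat_lit 0, nat_lit 0, nat_lit 0, nat_lit 0, nat_lit 0, nat_lit 0], nat_lit 1271250, nat_lit 1271250, nat_lit 780000, nat_lit 1762500, nat_lit 0, nat_lit 1864500, [nat_lit 1100000, nat_lit 1442500, nat_lit 1271250], [nat_lit 11, nat_lit 40, nat_lit 20, nat_lit 80]⟩,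
 ⟨nat_lit 5700, nat_lit 5810, ⟨.ofNat (nat_lit 414106), .ofNat (nat_lit 646971), .ofNat (nat_lit 419441), .ofNat (nat_lit 652306), .ofNat (nat_lit 415922), .ofNat (nat_lit 646077), .ofNat (nat_lit 421257), .ofNat (nat_lit 651412)⟩, ⟨.negSucc (nat_lit 80165), .ofNat (nat_lit 432142), .negSucc (nat_lit 58826), .ofNat (nat_lit 453481), .negSucc (nat_lit 75673), .ofNat (nat_lit 430671), .negSucc (nat_lit 54331), .ofNat (nat_lit 452013)⟩⟩, []⟩
noncomputable def p040_l142 : Lf2 := ⟨nat_lit 0, nat_lit 10, [nat_lit 0, nat_lit 5, nat_lit 5, nat_lit 20], false, nat_lit 0, nat_lit 264, nat_lit 0, nat_lit 268, ⟨nat_lit 0, nat_lit 1000, nat_lit 0, nat_lit 6, nat_lit 180, nat_lit 1000, nat_lit 88, nat_lit 0, nat_lit 0, nat_lit 0, nat_lit 0, nat_lit 0, nat_lit 0, nat_lit 0, nat_lit 0, nat_lit 5000000, false, false⟩,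
 nat_lit 305625, nat_lit 0, nat_lit 0, nat_lit 0, nat_lit 2439, nat_lit 177900, nat_lit 0, nat_lit 0, nat_lit 0, nat_lit 16191, nat_lit 20000, nat_lit 0, nat_lit 0, nat_lit 0, nat_lit 0, nat_lit 400000, nat_lit 0, nat_lit 0, [(nat_lit 9, [(nat_lit 1, nat_lit 1000)])],
 ⟨p040_k20, nat_lit 0, nat_lit 0, nat_lit 0, nat_lit 0, nat_lit 124736, [nat_lit 2742800000, nat_lit 3038800001, nat_lit 2882000000], [], [nat_lit 35766346265, nat_lit 35427937942, nat_lit 31901978771, nat_lit 32052687482, nat_lit 32308410300, nat_lit 32450321489, nat_lit 34621618918, nat_lit 34734539084], nat_lit 1271250, nat_lit 1271250, nat_lit 205650, nat_lit 1715250, nat_lit 0, nat_lit 1864500, [nat_lit 1100000, nat_lit 1785000, nat_lit 1271250], [nat_lit 29, nat_lit 40, nat_lit 20, nat_lit 80]⟩, ⟨p040_k7, nat_lit 0, nat_lit 0, nat_lit 314, nat_lit 0, nat_lit 128224, [nat_lit 320000000000, nat_lit 480000000000, nat_lit 560000000000], [], [nat_lit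 1414557386800, nat_lit 1365190563760, nat_lit 896738977300, nat_lit 899778220900, nat_lit 842579364593, nat_lit 844931476559, nat_lit 737502471030, nat_lit 738455045475], nat_lit 1271250, nat_lit 1271250, nat_lit 205650, nat_lit 1715250, nat_lit 0, nat_lit 1892750, [nat_lit 1100000, nat_lit 1785000, nat_lit 1271250], [nat_lit 29, nat_lit 40, nat_lit 20, nat_lit 80, nat_lit 17, nat_lit 428, nat_lit 200, nat_lit 13]⟩,
 ⟨nat_lit 5700, nat_lit 5810, ⟨.ofNat (nat_lit 245764), .ofNat (nat_lit 641636), .ofNat (nat_lit 256433), .ofNat (nat_lit 652306), .ofNat (nat_lit 249476), .ofNat (nat_lit 640741), .ofNat (nat_lit 260147), .ofNat (nat_lit 651412)⟩, ⟨.negSucc (nat_lit 80165), .ofNat (nat_lit 432142), .negSucc (nat_lit 58826), .ofNat (nat_lit 453481), .negSucc (nat_lit 75673), .ofNat (nat_lit 430671), .negSucc (nat_lit 54331), .ofNat (nat_lit 452013)⟩⟩, [⟨nat_lit 0, nat_lit 100, nat_lit 100, nat_lit 70, nat_lit 2544272203⟩]⟩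
noncomputable def p040_l143 : Lf2 := ⟨nat_lit 0, nat_lit 10, [nat_lit 0, nat_lit 5, nat_lit 5, nat_lit 20], false, nat_lit 0, nat_lit 264, nat_lit 0, nat_lit 268, ⟨nat_lit 0, nat_lit 1000, nat_lit 0, nat_lit 6, nat_lit 180, nat_lit 1000, nat_lit 88, nat_lit 0, nat_lit 0, nat_lit 0, nat_lit 0, nat_lit 0, nat_lit 0, nat_lit 0, nat_lit 0, nat_lit 5000000, false, false⟩,
 nat_lit 0, nat_lit 303170, nat_lit 0, nat_lit 0, nat_lit 180539, nat_lit 0, nat_lit 15138, nat_lit 20000, nat_lit 0, nat_lit 0, nat_lit 0, nat_lit 0, nat_lit 0, nat_lit 400000000000000, nat_lit 0, nat_lit 400000, nat_lit 0, nat_lit 0, [(nat_lit 9, [(nat_lit 1, nat_lit 1000)])],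
 ⟨p040_k20, nat_lit 0, nat_lit 0, nat_lit 0, nat_lit 0, nat_lit 124736, [nat_lit 322742800000, nat_lit 483038800000, nat_lit 562882000000], [], [nat_lit 1426483350185, nat_lit 1401433780582, nat_lit 924700270406, nat_lit 926364178544, nat_lit 869101761010, nat_lit 870457040877, nat_lit 766475693322, nat_lit 767098415833], nat_lit 1271250, nat_lit 1271250, nat_lit 205650, nat_lit 1715250, nat_lit 0, nat_lit 1864500, [nat_lit 1100000, nat_lit 1785000, nat_lit 1271250], [nat_lit 29, nat_lit 40, nat_lit 20, nat_lit 80]⟩, ⟨p040_k7, nat_lit 0, nat_lit 0, nat_lit 314, nat_lit 0, nat_lit 128224, [nat_lit 0, nat_lit 0, nat_lit 0], [], [nat_lit 0, nat_lit 0, nat_lit 0, nat_lit 0, nat_lit 0, nat_lit 0, nat_lit 0, nat_lit 0], nat_lit 1271250, nat_lit 1271250, nat_lit 205650, nat_lit 1715250, nat_lit 0, nat_lit 1892750, [nat_lit 1100000, nat_lit 1785000, nat_lit 1271250], [nat_lit 29, nat_lit 40, nat_lit 20, nat_lit 80, nat_lit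 17, nat_lit 428, nat_lit 200, nat_lit 13]⟩,
 ⟨nat_lit 5700, nat_lit 5810, ⟨.ofNat (nat_lit 245764), .ofNat (nat_lit 641636), .ofNat (nat_lit 256433), .ofNat (nat_lit 652306), .ofNat (nat_lit 249476), .ofNat (nat_lit 640741), .ofNat (nat_lit 260147), .ofNat (nat_lit 651412)⟩, ⟨.negSucc (nat_lit 80165), .ofNat (nat_lit 432142), .negSucc (nat_lit 58826), .ofNat (nat_lit 453481), .negSucc (nat_lit 75673), .ofNat (nat_lit 430671), .negSucc (nat_lit 54331), .ofNat (nat_lit 452013)⟩⟩, [⟨nat_lit 0, nat_lit 100, nat_lit 100, nat_lit 70, nat_lit 2523796465⟩]⟩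
noncomputable def b_VL_600_600_5_105 : St := ⟨true, nat_lit 1, nat_lit 1, nat_lit 2, nat_lit 40, nat_lit 265, nat_lit 270, nat_lit 240, nat_lit 270, nat_lit 24, nat_lit 240, nat_lit 20, nat_lit 40, nat_lit 0, nat_lit 268, nat_lit 0, nat_lit 288, nat_lit 40, nat_lit 60, nat_lit 600, nat_lit 900, nat_lit 0, nat_lit 0⟩
theorem d_VL_600_600_5_105 (h : EB TB.env) : Dead b_VL_600_600_5_105 := chkB_sound0 h (T :=
(.trX (nat_lit 16) (nat_lit 99) (nat_lit 100) (nat_lit 63) (nat_lit 264) (.spl (nat_lit 1) (nat_lit 260)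
(.spl (nat_lit 6) (nat_lit 48)
(.spl (nat_lit 7) (nat_lit 760)
(.spl (nat_lit 1) (nat_lit 250)
(.leaf p040_l124)
(.trZ (nat_lit 0) (nat_lit 100) (nat_lit 98) (nat_lit 57) (nat_lit 32) (.trX (nat_lit 19) (nat_lit 100) (nat_lit 95) (nat_lit 62) (nat_lit 280) (.spl (nat_lit 8) (nat_lit 800)
(.spl (nat_lit 2) (nat_lit 120)
(.leaf p040_l125)
(.leaf p040_l126))
(.leaf p040_l127)))))
(.spl (nat_lit 1) (nat_lit 250)
(.leaf p040_l128)
(.trZ (nat_lit 0) (nat_lit 100) (nat_lit 98) (nat_lit 57) (nat_lit 32) (.trX (nat_lit 19) (nat_lit 100) (nat_lit 95) (nat_lit 62) (nat_lit 280) (.spl (nat_lit 7) (nat_lit 840)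
(.spl (nat_lit 7) (nat_lit 800)
(.spl (nat_lit 7) (nat_lit 780)
(.spl (nat_lit 8) (nat_lit 800)
(.spl (nat_lit 1) (nat_lit 255)
(.leaf p040_l129)
(.trZ (nat_lit 0) (nat_lit 100) (nat_lit 98) (nat_lit 60) (nat_lit 36) (.trX (nat_lit 19) (nat_lit 100) (nat_lit 97) (nat_lit 62) (nat_lit 272) (.leaf p040_l130))))
(.leaf p040_l131))
(.leaf p040_l132))
(.leaf p040_l133))
(.leaf p040_l134))))))
(.leaf p040_l135))
(.trZ (nat_lit 0) (nat_lit 100) (nat_lit 99) (nat_lit 62) (nat_lit 36) (.trX (nat_lit 19) (nat_lit 100) (nat_lit 99) (nat_lit 63) (nat_lit 268) (.spl (nat_lit 7) (nat_lit 760)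
(.spl (nat_lit 8) (nat_lit 800)
(.spl (nat_lit 1) (nat_lit 265)
(.spl (nat_lit 6) (nat_lit 52)
(.spl (nat_lit 4) (nat_lit 160)
(.leaf p040_l136)
(.leaf p040_l137))
(.leaf p040_l138))
(.trZ (nat_lit 0) (nat_lit 100) (nat_lit 100) (nat_lit 65) (nat_lit 40) (.trX (nat_lit 19) (nat_lit 99) (nat_lit 100) (nat_lit 63) (nat_lit 264) (.spl (nat_lit 2) (nat_lit 120)
(.spl (nat_lit 2) (nat_lit 80)
(.leaf p040_l139)
(.leaf p040_l140))
(.leaf p040_l141)))))
(.leaf p040_l142))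
(.leaf p040_l143))))))) (by decide +kernel)
noncomputable def p040_l144 : Lf2 := ⟨nat_lit 0, nat_lit 10, [nat_lit 0, nat_lit 5, nat_lit 5, nat_lit 20], false, nat_lit 0, nat_lit 160, nat_lit 0, nat_lit 288, ⟨nat_lit 0, nat_lit 1000, nat_lit 0, nat_lit 6, nat_lit 130, nat_lit 1000, nat_lit 49, nat_lit 0, nat_lit 0, nat_lit 0, nat_lit 0, nat_lit 0, nat_lit 0, nat_lit 0, nat_lit 0, nat_lit 5000000, false, false⟩,
 nat_lit 0, nat_lit 618071, nat_lit 0, nat_lit 0, nat_lit 376419, nat_lit 0, nat_lit 49107, nat_lit 20000, nat_lit 0, nat_lit 0, nat_lit 0, nat_lit 0, nat_lit 0, nat_lit 400000000000000, nat_lit 0, nat_lit 400000, nat_lit 0, nat_lit 0, [(nat_lit 9, [(nat_lit 1, nat_lit 1000)])],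
 ⟨p040_k4, nat_lit 0, nat_lit 0, nat_lit 0, nat_lit 0, nat_lit 221878, [nat_lit 322702720000, nat_lit 402968400001, nat_lit 562997199999], [], [nat_lit 676518403205, nat_lit 690937644891, nat_lit 438886950197, nat_lit 451291869120, nat_lit 332571846404, nat_lit 283058832984, nat_lit 456768076957, nat_lit 369269103988], nat_lit 1271250, nat_lit 1271250, nat_lit 157850, nat_lit 780000, nat_lit 0, nat_lit 1100001, [nat_lit 1100000, nat_lit 1442500, nat_lit 1271250], [nat_lit 11, nat_lit 40, nat_lit 20, nat_lit 80]⟩, ⟨p040_k5, nat_lit 0, nat_lit 0, nat_lit 491, nat_lit 0, nat_lit 263125, [nat_lit 0, nat_lit 0, nat_lit 0], [], [nat_lit 0, nat_lit 0, nat_lit 0, nat_lit 0, nat_lit 0, nat_lit 0, nat_lit 0, nat_lit 0], nat_lit 1271250, nat_lit 1271250, nat_lit 157850, nat_lit 780000, nat_lit 0, nat_lit 2034000, [nat_lit 1100000, nat_lit 1442500, nat_lit 1271250], [nat_lit 48, nat_lit 40, nat_lit 20, nat_lit 80, nat_lit 12, nat_lit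 401, nat_lit 175, nat_lit 11]⟩,
 ⟨nat_lit 5477, nat_lit 5701, ⟨.ofNat (nat_lit 212791), .ofNat (nat_lit 389244), .ofNat (nat_lit 255475), .ofNat (nat_lit 431928), .ofNat (nat_lit 220501), .ofNat (nat_lit 392847), .ofNat (nat_lit 263215), .ofNat (nat_lit 435561)⟩, ⟨.negSucc (nat_lit 75673), .ofNat (nat_lit 231202), .negSucc (nat_lit 54331), .ofNat (nat_lit 252544), .negSucc (nat_lit 66879), .ofNat (nat_lit 232852), .negSucc (nat_lit 45522), .ofNat (nat_lit 254209)⟩⟩, []⟩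
noncomputable def p040_l145 : Lf2 := ⟨nat_lit 0, nat_lit 10, [nat_lit 0, nat_lit 5, nat_lit 5, nat_lit 20], false, nat_lit 0, nat_lit 160, nat_lit 0, nat_lit 288, ⟨nat_lit 0, nat_lit 1000, nat_lit 0, nat_lit 6, nat_lit 210, nat_lit 1000, nat_lit 49, nat_lit 0, nat_lit 0, nat_lit 0, nat_lit 0, nat_lit 0, nat_lit 0, nat_lit 0, nat_lit 0, nat_lit 5000000, false, false⟩,
 nat_lit 0, nat_lit 27340, nat_lit 0, nat_lit 0, nat_lit 16650, nat_lit 0, nat_lit 2336, nat_lit 1478, nat_lit 0, nat_lit 0, nat_lit 0, nat_lit 0, nat_lit 0, nat_lit 71456255349356, nat_lit 0, nat_lit 400000, nat_lit 0, nat_lit 0, [(nat_lit 9, [(nat_lit 1, nat_lit 1000)])],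
 ⟨p040_k9, nat_lit 0, nat_lit 0, nat_lit 0, nat_lit 0, nat_lit 221878, [nat_lit 26390800001, nat_lit 38510800000, nat_lit 44266000000], [], [nat_lit 102623556852, nat_lit 98153548002, nat_lit 85075752401, nat_lit 85603689001, nat_lit 72399118051, nat_lit 72984707801, nat_lit 72163302151, nat_lit 72559011401], nat_lit 1271250, nat_lit 1271250, nat_lit 780000, nat_lit 1762500, nat_lit 0, nat_lit 1100001, [nat_lit 1100000, nat_lit 1785000, nat_lit 1271250], [nat_lit 29, nat_lit 40, nat_lit 20, nat_lit 80]⟩, ⟨p040_k8, nat_lit 0, nat_lit 0, nat_lit 385, nat_lit 0, nat_lit 263125, [nat_lit 0, nat_lit 0, nat_lit 0], [], [nat_lit 0, nat_lit 0, nat_lit 0, nat_lit 0, nat_lit 0, nat_lit 0, nat_lit 0, nat_lit 0], nat_lit 1271250, nat_lit 1271250, nat_lit 780000, nat_lit 1762500, nat_lit 0, nat_lit 2034000, [nat_lit 1100000, nat_lit 1785000, nat_lit 1271250], [nat_lit 21, nat_lit 40, nat_lit 20, nat_lit 80, nat_lit 14, nat_lit 456,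 nat_lit 225, nat_lit 12]⟩,
 ⟨nat_lit 5477, nat_lit 5701, ⟨.ofNat (nat_lit 389244), .ofNat (nat_lit 619394), .ofNat (nat_lit 431928), .ofNat (nat_lit 662074), .ofNat (nat_lit 392847), .ofNat (nat_lit 617638), .ofNat (nat_lit 435561), .ofNat (nat_lit 660348)⟩, ⟨.negSucc (nat_lit 75673), .ofNat (nat_lit 231202), .negSucc (nat_lit 54331), .ofNat (nat_lit 252544), .negSucc (nat_lit 66879), .ofNat (nat_lit 232852), .negSucc (nat_lit 45522), .ofNat (nat_lit 254209)⟩⟩, []⟩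
noncomputable def p040_l146 : Lf2 := ⟨nat_lit 0, nat_lit 10, [nat_lit 0, nat_lit 5, nat_lit 5, nat_lit 20], false, nat_lit 160, nat_lit 260, nat_lit 0, nat_lit 288, ⟨nat_lit 0, nat_lit 1000, nat_lit 0, nat_lit 6, nat_lit 176, nat_lit 1000, nat_lit 135, nat_lit 0, nat_lit 0, nat_lit 0, nat_lit 0, nat_lit 0, nat_lit 0, nat_lit 0, nat_lit 0, nat_lit 5000000, false, false⟩,
 nat_lit 0, nat_lit 27151, nat_lit 0, nat_lit 0, nat_lit 16535, nat_lit 0, nat_lit 0, nat_lit 1270, nat_lit 0, nat_lit 0, nat_lit 0, nat_lit 0, nat_lit 0, nat_lit 67006411887144, nat_lit 0, nat_lit 400000, nat_lit 0, nat_lit 0, [(nat_lit 9, [(nat_lit 1, nat_lit 1000)])],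
 ⟨p040_k4, nat_lit 0, nat_lit 0, nat_lit 0, nat_lit 0, nat_lit 221878, [nat_lit 23022720000, nat_lit 28368400000, nat_lit 38557200000], [], [nat_lit 66007785270, nat_lit 61682659180, nat_lit 55343372055, nat_lit 56028980060, nat_lit 65245850066, nat_lit 66041556354, nat_lit 69314218249, nat_lit 65495637750], nat_lit 1271250, nat_lit 1271250, nat_lit 157850, nat_lit 1710750, nat_lit 1100001, nat_lit 1956250, [nat_lit 1100000, nat_lit 1442500, nat_lit 1271250], [nat_lit 11, nat_lit 40, nat_lit 20, nat_lit 80]⟩, ⟨p040_k5, nat_lit 0, nat_lit 0, nat_lit 491, nat_lit 0, nat_lit 263125, [nat_lit 0, nat_lit 0, nat_lit 0], [], [nat_lit 0, nat_lit 0, nat_lit 0, nat_lit 0, nat_lit 0, nat_lit 0, nat_lit 0, nat_lit 0], nat_lit 1271250, nat_lit 1271250, nat_lit 157850, nat_lit 1710750, nat_lit 0, nat_lit 2034000, [nat_lit 1100000, nat_lit 1442500, nat_lit 1271250], [nat_lit 48, nat_lit 40, nat_lit 20, nat_lit 80, nat_lit 12, nat_lit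 456, nat_lit 225, nat_lit 12]⟩,
 ⟨nat_lit 5477, nat_lit 5701, ⟨.ofNat (nat_lit 212791), .ofNat (nat_lit 619394), .ofNat (nat_lit 255475), .ofNat (nat_lit 662074), .ofNat (nat_lit 220501), .ofNat (nat_lit 617638), .ofNat (nat_lit 263215), .ofNat (nat_lit 660348)⟩, ⟨.ofNat (nat_lit 231202), .ofNat (nat_lit 422999), .ofNat (nat_lit 252544), .ofNat (nat_lit 444341), .ofNat (nat_lit 232852), .ofNat (nat_lit 420185), .ofNat (nat_lit 254209), .ofNat (nat_lit 441542)⟩⟩, [⟨nat_lit 16, nat_lit 94, nat_lit 100, nat_lit 53, nat_lit 1811350185⟩]⟩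
noncomputable def b_VL_600_600_5_106 : St := ⟨true, nat_lit 1, nat_lit 1, nat_lit 2, nat_lit 40, nat_lit 270, nat_lit 280, nat_lit 240, nat_lit 280, nat_lit 24, nat_lit 240, nat_lit 20, nat_lit 40, nat_lit 0, nat_lit 268, nat_lit 0, nat_lit 288, nat_lit 40, nat_lit 60, nat_lit 600, nat_lit 900, nat_lit 0, nat_lit 0⟩
theorem d_VL_600_600_5_106 (h : EB TB.env) : Dead b_VL_600_600_5_106 := chkB_sound0 h (T :=
(.trZ (nat_lit 0) (nat_lit 100) (nat_lit 96) (nat_lit 54) (nat_lit 28) (.trX (nat_lit 16) (nat_lit 98) (nat_lit 100) (nat_lit 63) (nat_lit 260) (.spl (nat_lit 4) (nat_lit 160)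
(.spl (nat_lit 2) (nat_lit 120)
(.leaf p040_l144)
(.leaf p040_l145))
(.leaf p040_l146))))) (by decide +kernel)
noncomputable def p040_l147 : Lf2 := ⟨nat_lit 1, nat_lit 10, [nat_lit 0, nat_lit 5, nat_lit 5, nat_lit 20], false, nat_lit 0, nat_lit 268, nat_lit 0, nat_lit 288, zbN0,
 nat_lit 0, nat_lit 0, nat_lit 0, nat_lit 0, nat_lit 0, nat_lit 0, nat_lit 0, nat_lit 0, nat_lit 0, nat_lit 0, nat_lit 0, nat_lit 0, nat_lit 0, nat_lit 0, nat_lit 0, nat_lit 0, nat_lit 0, nat_lit 0, [],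
 C1.Rw.none, C1.Rw.none,
 zbF0, []⟩
noncomputable def p040_l148 : Lf2 := ⟨nat_lit 0, nat_lit 10, [nat_lit 0, nat_lit 5, nat_lit 5, nat_lit 20], true, nat_lit 0, nat_lit 260, nat_lit 0, nat_lit 288, ⟨nat_lit 0, nat_lit 1000, nat_lit 0, nat_lit 6, nat_lit 130, nat_lit 1000, nat_lit 86, nat_lit 0, nat_lit 0, nat_lit 0, nat_lit 0, nat_lit 0, nat_lit 0, nat_lit 0, nat_lit 0, nat_lit 5000000, false, false⟩,
 nat_lit 0, nat_lit 863080, nat_lit 0, nat_lit 0, nat_lit 525635, nat_lit 0, nat_lit 16175, nat_lit 20000, nat_lit 0, nat_lit 0, nat_lit 0, nat_lit 0, nat_lit 0, nat_lit 400000000000000, nat_lit 0, nat_lit 1000000, nat_lit 0, nat_lit 0, [(nat_lit 9, [(nat_lit 2, nat_lit 1000)])],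
 ⟨p040_k4, nat_lit 0, nat_lit 0, nat_lit 0, nat_lit 0, nat_lit 62827, [nat_lit 322663466667, nat_lit 402666533334, nat_lit 560327866666], [], [nat_lit 941154694656, nat_lit 961173098878, nat_lit 608668301667, nat_lit 625880512462, nat_lit 415872620722, nat_lit 438110076495, nat_lit 88608059429, nat_lit 107796152521], nat_lit 1271250, nat_lit 1271250, nat_lit 157850, nat_lit 780000, nat_lit 0, nat_lit 1836250, [nat_lit 1100000, nat_lit 1442500, nat_lit 1271250], [nat_lit 11, nat_lit 40, nat_lit 20, nat_lit 80]⟩, C1.Rw.none,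
 ⟨nat_lit 5477, nat_lit 5701, ⟨.ofNat (nat_lit 212791), .ofNat (nat_lit 389244), .ofNat (nat_lit 255475), .ofNat (nat_lit 431928), .ofNat (nat_lit 220501), .ofNat (nat_lit 392847), .ofNat (nat_lit 263215), .ofNat (nat_lit 435561)⟩, ⟨.negSucc (nat_lit 75673), .ofNat (nat_lit 422999), .negSucc (nat_lit 54331), .ofNat (nat_lit 444341), .negSucc (nat_lit 66879), .ofNat (nat_lit 420185), .negSucc (nat_lit 45522), .ofNat (nat_lit 441542)⟩⟩, [⟨nat_lit 0, nat_lit 100, nat_lit 97, nat_lit 67, nat_lit 8190361708⟩, ⟨nat_lit 0, nat_lit 100, nat_lit 100, nat_lit 80, nat_lit 10000000000⟩]⟩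
noncomputable def p040_l149 : Lf2 := ⟨nat_lit 0, nat_lit 10, [nat_lit 0, nat_lit 5, nat_lit 5, nat_lit 20], true, nat_lit 0, nat_lit 260, nat_lit 0, nat_lit 288, ⟨nat_lit 0, nat_lit 1000, nat_lit 0, nat_lit 6, nat_lit 210, nat_lit 1000, nat_lit 86, nat_lit 0, nat_lit 0, nat_lit 0, nat_lit 0, nat_lit 0, nat_lit 0, nat_lit 0, nat_lit 0, nat_lit 5000000, false, false⟩,
 nat_lit 0, nat_lit 244697, nat_lit 0, nat_lit 0, nat_lit 149025, nat_lit 0, nat_lit 0, nat_lit 18176, nat_lit 0, nat_lit 0, nat_lit 0, nat_lit 0, nat_lit 0, nat_lit 400000000000000, nat_lit 0, nat_lit 250000, nat_lit 0, nat_lit 0, [(nat_lit 9, [(nat_lit 0, nat_lit 1000)])],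
 ⟨p040_k9, nat_lit 0, nat_lit 0, nat_lit 0, nat_lit 0, nat_lit 62827, [nat_lit 293932800000, nat_lit 439602800000, nat_lit 512542800000], [], [nat_lit 874964460725, nat_lit 834955868000, nat_lit 743967236375, nat_lit 749046996600, nat_lit 638803808769, nat_lit 642517498875, nat_lit 698958198163, nat_lit 664993239800], nat_lit 1271250, nat_lit 1271250, nat_lit 780000, nat_lit 1762500, nat_lit 0, nat_lit 1836250, [nat_lit 1100000, nat_lit 1785000, nat_lit 1271250], [nat_lit 29, nat_lit 40, nat_lit 20, nat_lit 80]⟩, C1.Rw.none,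
 ⟨nat_lit 5477, nat_lit 5701, ⟨.ofNat (nat_lit 389244), .ofNat (nat_lit 619394), .ofNat (nat_lit 431928), .ofNat (nat_lit 662074), .ofNat (nat_lit 392847), .ofNat (nat_lit 617638), .ofNat (nat_lit 435561), .ofNat (nat_lit 660348)⟩, ⟨.negSucc (nat_lit 75673), .ofNat (nat_lit 422999), .negSucc (nat_lit 54331), .ofNat (nat_lit 444341), .negSucc (nat_lit 66879), .ofNat (nat_lit 420185), .negSucc (nat_lit 45522), .ofNat (nat_lit 441542)⟩⟩, [⟨nat_lit 16, nat_lit 94, nat_lit 100, nat_lit 53, nat_lit 935264160⟩, ⟨nat_lit 4, nat_lit 100, nat_lit 94, nat_lit 53, nat_lit 10638297872⟩]⟩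
noncomputable def b_VL_600_600_5_107 : St := ⟨true, nat_lit 1, nat_lit 1, nat_lit 2, nat_lit 40, nat_lit 260, nat_lit 280, nat_lit 240, nat_lit 280, nat_lit 24, nat_lit 240, nat_lit 20, nat_lit 40, nat_lit 0, nat_lit 268, nat_lit 0, nat_lit 288, nat_lit 60, nat_lit 68, nat_lit 600, nat_lit 900, nat_lit 0, nat_lit 0⟩
theorem d_VL_600_600_5_107 (h : EB TB.env) : Dead b_VL_600_600_5_107 := chkB_sound0 h (T :=
(.spl (nat_lit 0) (nat_lit 270)
(.ord (.leaf p040_l147))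
(.trZ (nat_lit 0) (nat_lit 100) (nat_lit 96) (nat_lit 54) (nat_lit 28) (.trX (nat_lit 16) (nat_lit 98) (nat_lit 100) (nat_lit 63) (nat_lit 260) (.spl (nat_lit 2) (nat_lit 120)
(.leaf p040_l148)
(.leaf p040_l149)))))) (by decide +kernel)

end B2
end Pool.Agent.Lib.MP_6947cd_al
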