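import Pool.Agent.Lib.MP_6947cd_al.ZB.Pre

/-!
Problem MP_6947cd_al (Chollet).  Case B, second entry in [2/5, 17/20]: certificates of the tree, part P041 (generated).
-/

set_option autoImplicit false
set_option linter.all false

namespace Pool.Agent.Lib.MP_6947cd_al
namespace B2

open Ent Fr B1 PkA

noncomputable def p041_k0 : C1.Kn := ⟨[nat_lit 100, nat_lit 120], [nat_lit 0, nat_lit 0], [(nat_lit 0, nat_lit 0, nat_lit 0), (nat_lit 0, nat_lit 0, nat_lit 0)], (nat_lit 100, nat_lit 98, nat_lit 20)⟩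
noncomputable def p041_k1 : C1.Kn := ⟨[nat_lit 100, nat_lit 120], [nat_lit 0, nat_lit 448], [(nat_lit 0, nat_lit 0, nat_lit 0), (nat_lit 1000, nat_lit 1000, nat_lit 350)], (nat_lit 98, nat_lit 100, nat_lit 20)⟩
noncomputable def p041_k2 : C1.Kn := ⟨[nat_lit 100, nat_lit 120], [nat_lit 0, nat_lit 383], [(nat_lit 0, nat_lit 0, nat_lit 0), (nat_lit 1000, nat_lit 1000, nat_lit 299)], (nat_lit 99, nat_lit 100, nat_lit 20)⟩
noncomputable def p041_k3 : C1.Kn := ⟨[nat_lit 100, nat_lit 120], [nat_lit 0, nat_lit 254], [(nat_lit 0, nat_lit 0, nat_lit 0), (nat_lit 1000, nat_lit 1000, nat_lit 198)], (nat_lit 100, nat_lit 100, nat_lit 20)⟩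
noncomputable def p041_k4 : C1.Kn := ⟨[nat_lit 80, nat_lit 120], [nat_lit 0, nat_lit 0], [(nat_lit 0, nat_lit 0, nat_lit 0), (nat_lit 0, nat_lit 0, nat_lit 0)], (nat_lit 100, nat_lit 100, nat_lit 40)⟩
noncomputable def p041_k5 : C1.Kn := ⟨[nat_lit 80, nat_lit 100, nat_lit 120], [nat_lit 0, nat_lit 0, nat_lit 511], [(nat_lit 0, nat_lit 0, nat_lit 0), (nat_lit 0, nat_lit 0, nat_lit 0), (nat_lit 1000, nat_lit 997, nat_lit 383)], (nat_lit 100, nat_lit 100, nat_lit 40)⟩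
noncomputable def p041_k6 : C1.Kn := ⟨[nat_lit 120, nat_lit 160], [nat_lit 0, nat_lit 0], [(nat_lit 0, nat_lit 0, nat_lit 0), (nat_lit 0, nat_lit 0, nat_lit 0)], (nat_lit 100, nat_lit 84, nat_lit 40)⟩
noncomputable def p041_k7 : C1.Kn := ⟨[nat_lit 120, nat_lit 140, nat_lit 160], [nat_lit 0, nat_lit 0, nat_lit 609], [(nat_lit 0, nat_lit 0, nat_lit 0), (nat_lit 0, nat_lit 0, nat_lit 0), (nat_lit 840, nat_lit 1000, nat_lit 400)], (nat_lit 100, nat_lit 84, nat_lit 40)⟩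
noncomputable def p041_k8 : C1.Kn := ⟨[nat_lit 120, nat_lit 140, nat_lit 160], [nat_lit 0, nat_lit 266, nat_lit 862], [(nat_lit 0, nat_lit 0, nat_lit 0), (nat_lit 960, nat_lit 1000, nat_lit 200), (nat_lit 874, nat_lit 1000, nat_lit 406)], (nat_lit 100, nat_lit 88, nat_lit 39)⟩
noncomputable def p041_k9 : C1.Kn := ⟨[nat_lit 80, nat_lit 120], [nat_lit 0, nat_lit 528], [(nat_lit 0, nat_lit 0, nat_lit 0), (nat_lit 1000, nat_lit 959, nat_lit 206)], (nat_lit 96, nat_lit 100, nat_lit 39)⟩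
noncomputable def p041_k10 : C1.Kn := ⟨[nat_lit 80, nat_lit 100, nat_lit 120], [nat_lit 0, nat_lit 265, nat_lit 768], [(nat_lit 0, nat_lit 0, nat_lit 0), (nat_lit 1000, nat_lit 959, nat_lit 206), (nat_lit 1000, nat_lit 958, nat_lit 392)], (nat_lit 96, nat_lit 100, nat_lit 39)⟩
noncomputable def p041_k11 : C1.Kn := ⟨[nat_lit 80, nat_lit 140], [nat_lit 0, nat_lit 792], [(nat_lit 0, nat_lit 0, nat_lit 0), (nat_lit 1000, nat_lit 959, nat_lit 206)], (nat_lit 99, nat_lit 100, nat_lit 56)⟩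
noncomputable def p041_k12 : C1.Kn := ⟨[nat_lit 80, nat_lit 140], [nat_lit 0, nat_lit 0], [(nat_lit 0, nat_lit 0, nat_lit 0), (nat_lit 0, nat_lit 0, nat_lit 0)], (nat_lit 100, nat_lit 95, nat_lit 55)⟩
noncomputable def p041_k13 : C1.Kn := ⟨[nat_lit 80, nat_lit 100, nat_lit 120], [nat_lit 0, nat_lit 0, nat_lit 511], [(nat_lit 0, nat_lit 0, nat_lit 0), (nat_lit 0, nat_lit 0, nat_lit 0), (nat_lit 1000, nat_lit 997, nat_lit 383)], (nat_lit 98, nat_lit 100, nat_lit 28)⟩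
noncomputable def p041_k14 : C1.Kn := ⟨[nat_lit 80, nat_lit 100], [nat_lit 0, nat_lit 265], [(nat_lit 0, nat_lit 0, nat_lit 0), (nat_lit 1000, nat_lit 959, nat_lit 206)], (nat_lit 95, nat_lit 100, nat_lit 28)⟩
noncomputable def p041_k15 : C1.Kn := ⟨[nat_lit 80, nat_lit 140], [nat_lit 0, nat_lit 0], [(nat_lit 0, nat_lit 0, nat_lit 0), (nat_lit 0, nat_lit 0, nat_lit 0)], (nat_lit 100, nat_lit 99, nat_lit 44)⟩
noncomputable def p041_k16 : C1.Kn := ⟨[nat_lit 80, nat_lit 100, nat_lit 140], [nat_lit 0, nat_lit 0, nat_lit 1022], [(nat_lit 0, nat_lit 0, nat_lit 0), (nat_lit 0, nat_lit 0, nat_lit 0), (nat_lit 1000, nat_lit 1000, nat_lit 399)], (nat_lit 100, nat_lit 95, nat_lit 55)⟩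
noncomputable def p041_k17 : C1.Kn := ⟨[nat_lit 100, nat_lit 120, nat_lit 160], [nat_lit 0, nat_lit 254, nat_lit 1301], [(nat_lit 0, nat_lit 0, nat_lit 0), (nat_lit 1000, nat_lit 1000, nat_lit 198), (nat_lit 960, nat_lit 1000, nat_lit 392)], (nat_lit 100, nat_lit 89, nat_lit 55)⟩
noncomputable def p041_k18 : C1.Kn := ⟨[nat_lit 100, nat_lit 120, nat_lit 160], [nat_lit 0, nat_lit 383, nat_lit 1421], [(nat_lit 0, nat_lit 0, nat_lit 0), (nat_lit 1000, nat_lit 1000, nat_lit 299), (nat_lit 979, nat_lit 1000, nat_lit 397)], (nat_lit 100, nat_lit 92, nat_lit 55)⟩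
noncomputable def p041_k19 : C1.Kn := ⟨[nat_lit 80, nat_lit 100, nat_lit 140], [nat_lit 0, nat_lit 0, nat_lit 1022], [(nat_lit 0, nat_lit 0, nat_lit 0), (nat_lit 0, nat_lit 0, nat_lit 0), (nat_lit 1000, nat_lit 1000, nat_lit 399)], (nat_lit 100, nat_lit 99, nat_lit 44)⟩
noncomputable def p041_k20 : C1.Kn := ⟨[nat_lit 100, nat_lit 120, nat_lit 140], [nat_lit 0, nat_lit 254, nat_lit 778], [(nat_lit 0, nat_lit 0, nat_lit 0), (nat_lit 1000, nat_lit 1000, nat_lit 198), (nat_lit 960, nat_lit 1000, nat_lit 392)], (nat_lit 100, nat_lit 94, nat_lit 44)⟩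
noncomputable def p041_k21 : C1.Kn := ⟨[nat_lit 100, nat_lit 120, nat_lit 160], [nat_lit 0, nat_lit 0, nat_lit 1063], [(nat_lit 0, nat_lit 0, nat_lit 0), (nat_lit 0, nat_lit 0, nat_lit 0), (nat_lit 924, nat_lit 1000, nat_lit 383)], (nat_lit 100, nat_lit 84, nat_lit 54)⟩
noncomputable def p041_l0 : Lf2 := ⟨nat_lit 0, nat_lit 1, [nat_lit 19, nat_lit 5, nat_lit 5, nat_lit 20], true, nat_lit 0, nat_lit 160, nat_lit 0, nat_lit 360, ⟨nat_lit 0, nat_lit 0, nat_lit 1000, nat_lit 5, nat_lit 88, nat_lit 0, nat_lit 53, nat_lit 942, nat_lit 12150, nat_lit 242, nat_lit 72600, nat_lit 281, nat_lit 63918195, nat_lit 0, nat_lit 0, nat_lit 932768, false, false⟩,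
 nat_lit 0, nat_lit 0, nat_lit 0, nat_lit 5161, nat_lit 5039, nat_lit 0, nat_lit 0, nat_lit 0, nat_lit 0, nat_lit 0, nat_lit 0, nat_lit 0, nat_lit 0, nat_lit 14782583059963, nat_lit 34, nat_lit 1000000, nat_lit 0, nat_lit 0, [(nat_lit 0, [(nat_lit 6, nat_lit 1000)]), (nat_lit 3, [(nat_lit 6, nat_lit 1000)])],
 ⟨p041_k0, nat_lit 0, nat_lit 0, nat_lit 183, nat_lit 0, nat_lit 0, [nat_lit 1721142858, nat_lit 8800000], [], [nat_lit 12936500146, nat_lit 15173921154, nat_lit 10711119962, nat_lit 12746381334, nat_lit 11582883438, nat_lit 13485620678, nat_lit 9873427278, nat_lit 11721770136], nat_lit 0, nat_lit 0, nat_lit 0, nat_lit 0, nat_lit 0, nat_lit 0, [], [nat_lit 26, nat_lit 40, nat_lit 40, nat_lit 80, nat_lit 2, nat_lit 373, nat_lit 150, nat_lit 13]⟩, C1.Rw.none,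
 ⟨nat_lit 6324, nat_lit 7072, ⟨.ofNat (nat_lit 48812), .ofNat (nat_lit 319525), .ofNat (nat_lit 91909), .ofNat (nat_lit 362621), .ofNat (nat_lit 88675), .ofNat (nat_lit 335470), .ofNat (nat_lit 131412), .ofNat (nat_lit 378206)⟩, ⟨.negSucc (nat_lit 123573), .ofNat (nat_lit 237375), .negSucc (nat_lit 80477), .ofNat (nat_lit 280472), .negSucc (nat_lit 82267), .ofNat (nat_lit 246790), .negSucc (nat_lit 39532), .ofNat (nat_lit 289527)⟩⟩, [⟨nat_lit 0, nat_lit 100, nat_lit 100, nat_lit 40, nat_lit 182826400⟩]⟩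
noncomputable def p041_l1 : Lf2 := ⟨nat_lit 1, nat_lit 1, [nat_lit 19, nat_lit 5, nat_lit 5, nat_lit 20], false, nat_lit 160, nat_lit 344, nat_lit 0, nat_lit 344, zbN0,
 nat_lit 0, nat_lit 0, nat_lit 0, nat_lit 0, nat_lit 0, nat_lit 0, nat_lit 0, nat_lit 0, nat_lit 0, nat_lit 0, nat_lit 0, nat_lit 0, nat_lit 0, nat_lit 0, nat_lit 0, nat_lit 0, nat_lit 0, nat_lit 0, [],
 C1.Rw.none, C1.Rw.none,
 zbF0, []⟩
noncomputable def p041_l2 : Lf2 := ⟨nat_lit 1, nat_lit 1, [nat_lit 19, nat_lit 5, nat_lit 5, nat_lit 20], false, nat_lit 160, nat_lit 332, nat_lit 0, nat_lit 332, zbN0,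
 nat_lit 0, nat_lit 0, nat_lit 0, nat_lit 0, nat_lit 0, nat_lit 0, nat_lit 0, nat_lit 0, nat_lit 0, nat_lit 0, nat_lit 0, nat_lit 0, nat_lit 0, nat_lit 0, nat_lit 0, nat_lit 0, nat_lit 0, nat_lit 0, [],
 C1.Rw.none, C1.Rw.none,
 zbF0, []⟩
noncomputable def p041_l3 : Lf2 := ⟨nat_lit 1, nat_lit 1, [nat_lit 19, nat_lit 5, nat_lit 5, nat_lit 20], false, nat_lit 160, nat_lit 324, nat_lit 0, nat_lit 160, zbN0,
 nat_lit 0, nat_lit 0, nat_lit 0, nat_lit 0, nat_lit 0, nat_lit 0, nat_lit 0, nat_lit 0, nat_lit 0, nat_lit 0, nat_lit 0, nat_lit 0, nat_lit 0, nat_lit 0, nat_lit 0, nat_lit 0, nat_lit 0, nat_lit 0, [],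
 C1.Rw.none, C1.Rw.none,
 zbF0, []⟩
noncomputable def p041_l4 : Lf2 := ⟨nat_lit 0, nat_lit 1, [nat_lit 19, nat_lit 5, nat_lit 5, nat_lit 20], false, nat_lit 160, nat_lit 320, nat_lit 0, nat_lit 160, ⟨nat_lit 1000, nat_lit 0, nat_lit 0, nat_lit 0, nat_lit 0, nat_lit 0, nat_lit 0, nat_lit 0, nat_lit 0, nat_lit 0, nat_lit 0, nat_lit 0, nat_lit 0, nat_lit 0, nat_lit 0, nat_lit 0, false, false⟩,
 nat_lit 0, nat_lit 0, nat_lit 0, nat_lit 33786, nat_lit 8639, nat_lit 9518, nat_lit 2756, nat_lit 0, nat_lit 0, nat_lit 4011, nat_lit 0, nat_lit 0, nat_lit 0, nat_lit 22744122662027, nat_lit 0, nat_lit 0, nat_lit 0, nat_lit 0, [],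
 ⟨p041_k1, nat_lit 0, nat_lit 0, nat_lit 134, nat_lit 0, nat_lit 0, [nat_lit 6250000000, nat_lit 7968000000], [], [nat_lit 17696731470, nat_lit 17998904992, nat_lit 13544811536, nat_lit 13812428552, nat_lit 27115036842, nat_lit 27308996425, nat_lit 22135713972, nat_lit 22308226436], nat_lit 0, nat_lit 0, nat_lit 0, nat_lit 0, nat_lit 0, nat_lit 0, [], [nat_lit 26, nat_lit 40, nat_lit 40, nat_lit 80, nat_lit 2, nat_lit 401, nat_lit 175, nat_lit 13]⟩, ⟨p041_k2, nat_lit 0, nat_lit 0, nat_lit 172, nat_lit 0, nat_lit 0, [nat_lit 6250000000, nat_lit 7968000000], [], [nat_lit 20905072361, nat_lit 21675769290, nat_lit 15474299054, nat_lit 16260182048, nat_lit 15581162625, nat_lit 16303104626, nat_lit 11141598826, nat_lit 11778572040], nat_lit 0, nat_lit 0, nat_lit 0, nat_lit 0, nat_lit 0, nat_lit 0, [], [nat_lit 26, nat_lit 40, nat_lit 40, nat_lit 80, nat_lit 2, nat_lit 373, nat_lit 150, nat_lit 13]⟩,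
 zbF0, [⟨nat_lit 0, nat_lit 100, nat_lit 100, nat_lit 40, nat_lit 1157394446⟩, ⟨nat_lit 4, nat_lit 88, nat_lit 100, nat_lit 67, nat_lit 769364451⟩]⟩
noncomputable def p041_l5 : Lf2 := ⟨nat_lit 0, nat_lit 1, [nat_lit 19, nat_lit 5, nat_lit 5, nat_lit 20], false, nat_lit 160, nat_lit 324, nat_lit 160, nat_lit 240, ⟨nat_lit 1000, nat_lit 0, nat_lit 0, nat_lit 0, nat_lit 0, nat_lit 0, nat_lit 0, nat_lit 0, nat_lit 0, nat_lit 0, nat_lit 0, nat_lit 0, nat_lit 0, nat_lit 0, nat_lit 0, nat_lit 0, false, false⟩,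
 nat_lit 0, nat_lit 0, nat_lit 0, nat_lit 17885, nat_lit 8540, nat_lit 10203, nat_lit 3443, nat_lit 0, nat_lit 0, nat_lit 0, nat_lit 0, nat_lit 0, nat_lit 0, nat_lit 7783350577919, nat_lit 0, nat_lit 0, nat_lit 0, nat_lit 0, [],
 ⟨p041_k2, nat_lit 0, nat_lit 0, nat_lit 136, nat_lit 0, nat_lit 0, [nat_lit 6250000000, nat_lit 7968000000], [], [nat_lit 17281175108, nat_lit 17881942096, nat_lit 13571623460, nat_lit 14211834400, nat_lit 27395274614, nat_lit 27773575796, nat_lit 23185194825, nat_lit 23545286441], nat_lit 0, nat_lit 0, nat_lit 0, nat_lit 0, nat_lit 0, nat_lit 0, [], [nat_lit 26, nat_lit 40, nat_lit 40, nat_lit 80, nat_lit 2, nat_lit 401, nat_lit 175, nat_lit 13]⟩, ⟨p041_k2, nat_lit 0, nat_lit 0, nat_lit 52, nat_lit 0, nat_lit 0, [nat_lit 6250000000, nat_lit 7968000000], [], [nat_lit 11690308612, nat_lit 12702041668, nat_lit 6220872343, nat_lit 7185857728, nat_lit 17356260938, nat_lit 18159402610,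 nat_lit 11681490242, nat_lit 12448672288], nat_lit 0, nat_lit 0, nat_lit 0, nat_lit 0, nat_lit 0, nat_lit 0, [], [nat_lit 26, nat_lit 40, nat_lit 40, nat_lit 80, nat_lit 2, nat_lit 373, nat_lit 150, nat_lit 12]⟩,
 zbF0, [⟨nat_lit 0, nat_lit 100, nat_lit 100, nat_lit 40, nat_lit 617464743⟩, ⟨nat_lit 11, nat_lit 100, nat_lit 100, nat_lit 66, nat_lit 798577186⟩]⟩
noncomputable def p041_l6 : Lf2 := ⟨nat_lit 0, nat_lit 1, [nat_lit 19, nat_lit 5, nat_lit 5, nat_lit 20], true, nat_lit 160, nat_lit 324, nat_lit 160, nat_lit 240, ⟨nat_lit 0, nat_lit 1000, nat_lit 0, nat_lit 5, nat_lit 132, nat_lit 1000, nat_lit 171, nat_lit 0, nat_lit 0, nat_lit 0, nat_lit 0, nat_lit 0, nat_lit 49802204, nat_lit 6884364, nat_lit 10313432, nat_lit 3969321, false, false⟩,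
 nat_lit 0, nat_lit 0, nat_lit 0, nat_lit 8296, nat_lit 6555, nat_lit 0, nat_lit 0, nat_lit 0, nat_lit 0, nat_lit 0, nat_lit 0, nat_lit 0, nat_lit 0, nat_lit 5081163441443, nat_lit 0, nat_lit 1000000, nat_lit 0, nat_lit 0, [(nat_lit 3, [(nat_lit 2, nat_lit 1000)])],
 ⟨p041_k2, nat_lit 0, nat_lit 0, nat_lit 47, nat_lit 0, nat_lit 0, [nat_lit 3292500000, nat_lit 2888400000], [], [nat_lit 8850718455, nat_lit 9590275680, nat_lit 9063109115, nat_lit 9763233040, nat_lit 19933922793, nat_lit 20372128529, nat_lit 19560994855, nat_lit 19976731341], nat_lit 0, nat_lit 0, nat_lit 0, nat_lit 0, nat_lit 0, nat_lit 0, [], [nat_lit 26, nat_lit 40, nat_lit 40, nat_lit 80, nat_lit 2, nat_lit 401, nat_lit 175, nat_lit 13]⟩, C1.Rw.none,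
 ⟨nat_lit 6324, nat_lit 6520, ⟨.ofNat (nat_lit 279532), .ofNat (nat_lit 363720), .ofNat (nat_lit 290231), .ofNat (nat_lit 374419), .ofNat (nat_lit 285258), .ofNat (nat_lit 367522), .ofNat (nat_lit 295942), .ofNat (nat_lit 378206)⟩, ⟨.ofNat (nat_lit 244626), .ofNat (nat_lit 589789), .ofNat (nat_lit 266024), .ofNat (nat_lit 611186), .ofNat (nat_lit 246791), .ofNat (nat_lit 584068), .ofNat (nat_lit 268159), .ofNat (nat_lit 605434)⟩⟩, [⟨nat_lit 16, nat_lit 100, nat_lit 87, nat_lit 67, nat_lit 351443961⟩]⟩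
noncomputable def p041_l7 : Lf2 := ⟨nat_lit 0, nat_lit 1, [nat_lit 19, nat_lit 5, nat_lit 5, nat_lit 20], true, nat_lit 160, nat_lit 240, nat_lit 240, nat_lit 324, ⟨nat_lit 0, nat_lit 0, nat_lit 1000, nat_lit 5, nat_lit 102, nat_lit 1000, nat_lit 136, nat_lit 1000, nat_lit 173400, nat_lit 317, nat_lit 96267, nat_lit 291, nat_lit 55036311, nat_lit 0, nat_lit 0, nat_lit 3128643, false, false⟩,
 nat_lit 0, nat_lit 0, nat_lit 0, nat_lit 5161, nat_lit 5285, nat_lit 0, nat_lit 0, nat_lit 0, nat_lit 0, nat_lit 0, nat_lit 0, nat_lit 0, nat_lit 0, nat_lit 5595954876157, nat_lit 53, nat_lit 1000000, nat_lit 0, nat_lit 0, [(nat_lit 3, [(nat_lit 6, nat_lit 1000)])],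
 ⟨p041_k2, nat_lit 0, nat_lit 0, nat_lit 52, nat_lit 0, nat_lit 0, [nat_lit 2101142858, nat_lit 11600000], [], [nat_lit 10741403398, nat_lit 11432195642, nat_lit 8902434863, nat_lit 9529997338, nat_lit 14886241930, nat_lit 15456152371, nat_lit 12706207753, nat_lit 13225142798], nat_lit 0, nat_lit 0, nat_lit 0, nat_lit 0, nat_lit 0, nat_lit 0, [], [nat_lit 26, nat_lit 40, nat_lit 40, nat_lit 80, nat_lit 2, nat_lit 373, nat_lit 150, nat_lit 12]⟩, C1.Rw.none,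
 ⟨nat_lit 6324, nat_lit 6520, ⟨.ofNat (nat_lit 127994), .ofNat (nat_lit 363720), .ofNat (nat_lit 138693), .ofNat (nat_lit 374419), .ofNat (nat_lit 137182), .ofNat (nat_lit 367522), .ofNat (nat_lit 147866), .ofNat (nat_lit 378206)⟩, ⟨.ofNat (nat_lit 244626), .ofNat (nat_lit 413002), .ofNat (nat_lit 266024), .ofNat (nat_lit 434400), .ofNat (nat_lit 246791), .ofNat (nat_lit 411320), .ofNat (nat_lit 268159), .ofNat (nat_lit 432688)⟩⟩, [⟨nat_lit 0, nat_lit 100, nat_lit 100, nat_lit 40, nat_lit 217149084⟩]⟩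
noncomputable def p041_l8 : Lf2 := ⟨nat_lit 0, nat_lit 1, [nat_lit 19, nat_lit 5, nat_lit 5, nat_lit 20], false, nat_lit 240, nat_lit 324, nat_lit 240, nat_lit 324, ⟨nat_lit 1000, nat_lit 0, nat_lit 0, nat_lit 0, nat_lit 0, nat_lit 0, nat_lit 0, nat_lit 0, nat_lit 0, nat_lit 0, nat_lit 0, nat_lit 0, nat_lit 0, nat_lit 0, nat_lit 0, nat_lit 0, false, false⟩,
 nat_lit 0, nat_lit 0, nat_lit 0, nat_lit 34418, nat_lit 10947, nat_lit 10947, nat_lit 3450, nat_lit 0, nat_lit 0, nat_lit 3450, nat_lit 0, nat_lit 0, nat_lit 0, nat_lit 0, nat_lit 0, nat_lit 0, nat_lit 0, nat_lit 0, [],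
 ⟨p041_k2, nat_lit 0, nat_lit 0, nat_lit 128, nat_lit 0, nat_lit 0, [nat_lit 6250000000, nat_lit 7968000000], [], [nat_lit 16683412667, nat_lit 17297397421, nat_lit 11562174676, nat_lit 12102598584, nat_lit 29122910189, nat_lit 29845089849, nat_lit 20538967717, nat_lit 21219470384], nat_lit 0, nat_lit 0, nat_lit 0, nat_lit 0, nat_lit 0, nat_lit 0, [], [nat_lit 26, nat_lit 40, nat_lit 40, nat_lit 80, nat_lit 2, nat_lit 317, nat_lit 100, nat_lit 10]⟩, ⟨p041_k2, nat_lit 0, nat_lit 0, nat_lit 128, nat_lit 0, nat_lit 0, [nat_lit 6250000000, nat_lit 7968000000], [], [nat_lit 16683412667, nat_lit 17297397421, nat_lit 11562174676, nat_lit 12102598584, nat_lit 29122910189, nat_lit 29845089849, nat_lit 20538967717, nat_lit 21219470384], nat_lit 0, nat_lit 0, nat_lit 0, nat_lit 0, nat_lit 0, nat_lit 0, [], [nat_lit 26, nat_lit 40, nat_lit 40, nat_lit 80, nat_lit 2, nat_lit 317, nat_lit 100, nat_lit 10]⟩,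
 zbF0, [⟨nat_lit 11, nat_lit 100, nat_lit 100, nat_lit 82, nat_lit 1209743494⟩]⟩
noncomputable def p041_l9 : Lf2 := ⟨nat_lit 1, nat_lit 1, [nat_lit 19, nat_lit 5, nat_lit 5, nat_lit 20], false, nat_lit 160, nat_lit 360, nat_lit 0, nat_lit 360, zbN0,
 nat_lit 0, nat_lit 0, nat_lit 0, nat_lit 0, nat_lit 0, nat_lit 0, nat_lit 0, nat_lit 0, nat_lit 0, nat_lit 0, nat_lit 0, nat_lit 0, nat_lit 0, nat_lit 0, nat_lit 0, nat_lit 0, nat_lit 0, nat_lit 0, [],
 C1.Rw.none, C1.Rw.none,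
 zbF0, []⟩
noncomputable def p041_l10 : Lf2 := ⟨nat_lit 1, nat_lit 1, [nat_lit 19, nat_lit 5, nat_lit 5, nat_lit 20], false, nat_lit 0, nat_lit 360, nat_lit 0, nat_lit 360, zbN0,
 nat_lit 0, nat_lit 0, nat_lit 0, nat_lit 0, nat_lit 0, nat_lit 0, nat_lit 0, nat_lit 0, nat_lit 0, nat_lit 0, nat_lit 0, nat_lit 0, nat_lit 0, nat_lit 0, nat_lit 0, nat_lit 0, nat_lit 0, nat_lit 0, [],
 C1.Rw.none, C1.Rw.none,
 zbF0, []⟩
noncomputable def p041_l11 : Lf2 := ⟨nat_lit 0, nat_lit 1, [nat_lit 19, nat_lit 5, nat_lit 5, nat_lit 20], false, nat_lit 0, nat_lit 348, nat_lit 0, nat_lit 348, ⟨nat_lit 1000, nat_lit 0, nat_lit 0, nat_lit 0, nat_lit 0, nat_lit 0, nat_lit 0, nat_lit 0, nat_lit 0, nat_lit 0, nat_lit 0, nat_lit 0, nat_lit 0, nat_lit 0, nat_lit 0, nat_lit 0, false, false⟩,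
 nat_lit 0, nat_lit 0, nat_lit 0, nat_lit 34404, nat_lit 9000, nat_lit 9000, nat_lit 3448, nat_lit 0, nat_lit 0, nat_lit 3448, nat_lit 0, nat_lit 0, nat_lit 0, nat_lit 0, nat_lit 0, nat_lit 0, nat_lit 0, nat_lit 0, [],
 ⟨p041_k3, nat_lit 0, nat_lit 0, nat_lit 191, nat_lit 0, nat_lit 0, [nat_lit 6250000000, nat_lit 7968000000], [], [nat_lit 17361676000, nat_lit 18705194000, nat_lit 40647928000, nat_lit 41349432000, nat_lit 23475760901, nat_lit 23985224001, nat_lit 37386664100, nat_lit 37585338201], nat_lit 0, nat_lit 0, nat_lit 0, nat_lit 0, nat_lit 0, nat_lit 0, [], [nat_lit 26, nat_lit 40, nat_lit 40, nat_lit 80, nat_lit 2, nat_lit 483, nat_lit 250, nat_lit 16]⟩, ⟨p041_k3, nat_lit 0, nat_lit 0, nat_lit 191, nat_lit 0, nat_lit 0, [nat_lit 6250000000, nat_lit 7968000000], [], [nat_lit 17361676000, nat_lit 18705194000, nat_lit 40647928000, nat_lit 41349432000, nat_lit 23475760901, nat_lit 23985224001,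 nat_lit 37386664100, nat_lit 37585338201], nat_lit 0, nat_lit 0, nat_lit 0, nat_lit 0, nat_lit 0, nat_lit 0, [], [nat_lit 26, nat_lit 40, nat_lit 40, nat_lit 80, nat_lit 2, nat_lit 483, nat_lit 250, nat_lit 16]⟩,
 zbF0, [⟨nat_lit 4, nat_lit 81, nat_lit 100, nat_lit 72, nat_lit 260602556⟩, ⟨nat_lit 7, nat_lit 81, nat_lit 100, nat_lit 72, nat_lit 191999365⟩]⟩
noncomputable def p041_l12 : Lf2 := ⟨nat_lit 0, nat_lit 1, [nat_lit 19, nat_lit 5, nat_lit 5, nat_lit 20], true, nat_lit 0, nat_lit 160, nat_lit 0, nat_lit 360, ⟨nat_lit 0, nat_lit 0, nat_lit 1000, nat_lit 5, nat_lit 105, nat_lit 0, nat_lit 53, nat_lit 942, nat_lit 12150, nat_lit 242, nat_lit 104017, nat_lit 294, nat_lit 62674612, nat_lit 0, nat_lit 0, nat_lit 1196639, false, false⟩,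
 nat_lit 0, nat_lit 0, nat_lit 0, nat_lit 5161, nat_lit 5039, nat_lit 0, nat_lit 0, nat_lit 0, nat_lit 0, nat_lit 0, nat_lit 0, nat_lit 0, nat_lit 0, nat_lit 15121019724251, nat_lit 34, nat_lit 1000000, nat_lit 0, nat_lit 0, [(nat_lit 0, [(nat_lit 6, nat_lit 1000)]), (nat_lit 3, [(nat_lit 6, nat_lit 1000)])],
 ⟨p041_k0, nat_lit 0, nat_lit 0, nat_lit 183, nat_lit 0, nat_lit 0, [nat_lit 1721142858, nat_lit 8800000], [], [nat_lit 12936500146, nat_lit 15173921154, nat_lit 11582883438, nat_lit 13485620678, nat_lit 11582883438, nat_lit 13485620678, nat_lit 10703111616, nat_lit 12465359608], nat_lit 0, nat_lit 0, nat_lit 0, nat_lit 0, nat_lit 0, nat_lit 0, [], [nat_lit 26, nat_lit 40, nat_lit 40, nat_lit 80, nat_lit 2, nat_lit 373, nat_lit 150, nat_lit 13]⟩, C1.Rw.none,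
 ⟨nat_lit 6324, nat_lit 7072, ⟨.ofNat (nat_lit 48812), .ofNat (nat_lit 409762), .ofNat (nat_lit 91909), .ofNat (nat_lit 452858), .ofNat (nat_lit 88675), .ofNat (nat_lit 417734), .ofNat (nat_lit 131412), .ofNat (nat_lit 460470)⟩, ⟨.negSucc (nat_lit 123573), .ofNat (nat_lit 237375), .negSucc (nat_lit 80477), .ofNat (nat_lit 280472), .negSucc (nat_lit 82267), .ofNat (nat_lit 246790), .negSucc (nat_lit 39532), .ofNat (nat_lit 289527)⟩⟩, [⟨nat_lit 0, nat_lit 100, nat_lit 100, nat_lit 40, nat_lit 145874774⟩]⟩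
noncomputable def p041_l13 : Lf2 := ⟨nat_lit 0, nat_lit 1, [nat_lit 19, nat_lit 5, nat_lit 5, nat_lit 20], true, nat_lit 0, nat_lit 160, nat_lit 0, nat_lit 360, ⟨nat_lit 0, nat_lit 1000, nat_lit 0, nat_lit 5, nat_lit 209, nat_lit 243, nat_lit 53, nat_lit 0, nat_lit 0, nat_lit 0, nat_lit 0, nat_lit 0, nat_lit 52679664, nat_lit 14320336, nat_lit 0, nat_lit 2594324, false, false⟩,
 nat_lit 0, nat_lit 0, nat_lit 0, nat_lit 5408, nat_lit 7240, nat_lit 0, nat_lit 0, nat_lit 0, nat_lit 0, nat_lit 0, nat_lit 0, nat_lit 0, nat_lit 0, nat_lit 11034265537518, nat_lit 0, nat_lit 1000000, nat_lit 0, nat_lit 0, [(nat_lit 0, [(nat_lit 2, nat_lit 1000)]), (nat_lit 3, [(nat_lit 2, nat_lit 1000)])],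
 ⟨p041_k0, nat_lit 0, nat_lit 0, nat_lit 63, nat_lit 0, nat_lit 0, [nat_lit 3292500000, nat_lit 3405100000], [], [nat_lit 9458086400, nat_lit 12738779680, nat_lit 14679722080, nat_lit 17335051360, nat_lit 6885287360, nat_lit 9628898080, nat_lit 11278796800, nat_lit 13501031200], nat_lit 0, nat_lit 0, nat_lit 0, nat_lit 0, nat_lit 0, nat_lit 0, [], [nat_lit 26, nat_lit 40, nat_lit 40, nat_lit 80, nat_lit 2, nat_lit 401, nat_lit 175, nat_lit 13]⟩, C1.Rw.none,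
 ⟨nat_lit 6324, nat_lit 7072, ⟨.ofNat (nat_lit 409762), .ofNat (nat_lit 590110), .ofNat (nat_lit 452858), .ofNat (nat_lit 633154), .ofNat (nat_lit 417734), .ofNat (nat_lit 582138), .ofNat (nat_lit 460470), .ofNat (nat_lit 624821)⟩, ⟨.negSucc (nat_lit 123573), .ofNat (nat_lit 237375), .negSucc (nat_lit 80477), .ofNat (nat_lit 280472), .negSucc (nat_lit 82267), .ofNat (nat_lit 246790), .negSucc (nat_lit 39532), .ofNat (nat_lit 289527)⟩⟩, []⟩
noncomputable def p041_l14 : Lf2 := ⟨nat_lit 1, nat_lit 1, [nat_lit 19, nat_lit 5, nat_lit 5, nat_lit 20], false, nat_lit 160, nat_lit 344, nat_lit 0, nat_lit 344, zbN0,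
 nat_lit 0, nat_lit 0, nat_lit 0, nat_lit 0, nat_lit 0, nat_lit 0, nat_lit 0, nat_lit 0, nat_lit 0, nat_lit 0, nat_lit 0, nat_lit 0, nat_lit 0, nat_lit 0, nat_lit 0, nat_lit 0, nat_lit 0, nat_lit 0, [],
 C1.Rw.none, C1.Rw.none,
 zbF0, []⟩
noncomputable def p041_l15 : Lf2 := ⟨nat_lit 1, nat_lit 1, [nat_lit 19, nat_lit 5, nat_lit 5, nat_lit 20], false, nat_lit 160, nat_lit 332, nat_lit 0, nat_lit 332, zbN0,
 nat_lit 0, nat_lit 0, nat_lit 0, nat_lit 0, nat_lit 0, nat_lit 0, nat_lit 0, nat_lit 0, nat_lit 0, nat_lit 0, nat_lit 0, nat_lit 0, nat_lit 0, nat_lit 0, nat_lit 0, nat_lit 0, nat_lit 0, nat_lit 0, [],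
 C1.Rw.none, C1.Rw.none,
 zbF0, []⟩
noncomputable def p041_l16 : Lf2 := ⟨nat_lit 0, nat_lit 1, [nat_lit 19, nat_lit 5, nat_lit 5, nat_lit 20], true, nat_lit 160, nat_lit 240, nat_lit 0, nat_lit 324, ⟨nat_lit 0, nat_lit 0, nat_lit 1000, nat_lit 5, nat_lit 102, nat_lit 1000, nat_lit 136, nat_lit 1000, nat_lit 173400, nat_lit 317, nat_lit 96267, nat_lit 291, nat_lit 55036311, nat_lit 0, nat_lit 0, nat_lit 3128643, false, false⟩,
 nat_lit 0, nat_lit 0, nat_lit 0, nat_lit 5161, nat_lit 5285, nat_lit 0, nat_lit 0, nat_lit 0, nat_lit 0, nat_lit 0, nat_lit 0, nat_lit 0, nat_lit 0, nat_lit 15459145045926, nat_lit 53, nat_lit 1000000, nat_lit 0, nat_lit 0, [(nat_lit 3, [(nat_lit 6, nat_lit 1000)])],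
 ⟨p041_k2, nat_lit 0, nat_lit 0, nat_lit 52, nat_lit 0, nat_lit 0, [nat_lit 2101142858, nat_lit 11600000], [], [nat_lit 10741403398, nat_lit 11432195642, nat_lit 8902434863, nat_lit 9529997338, nat_lit 14886241930, nat_lit 15456152371, nat_lit 12706207753, nat_lit 13225142798], nat_lit 0, nat_lit 0, nat_lit 0, nat_lit 0, nat_lit 0, nat_lit 0, [], [nat_lit 26, nat_lit 40, nat_lit 40, nat_lit 80, nat_lit 2, nat_lit 373, nat_lit 150, nat_lit 12]⟩, C1.Rw.none,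
 ⟨nat_lit 6324, nat_lit 6520, ⟨.ofNat (nat_lit 127994), .ofNat (nat_lit 363720), .ofNat (nat_lit 138693), .ofNat (nat_lit 374419), .ofNat (nat_lit 137182), .ofNat (nat_lit 367522), .ofNat (nat_lit 147866), .ofNat (nat_lit 378206)⟩, ⟨.ofNat (nat_lit 244626), .ofNat (nat_lit 413002), .ofNat (nat_lit 266024), .ofNat (nat_lit 434400), .ofNat (nat_lit 246791), .ofNat (nat_lit 411320), .ofNat (nat_lit 268159), .ofNat (nat_lit 432688)⟩⟩, [⟨nat_lit 0, nat_lit 100, nat_lit 100, nat_lit 40, nat_lit 217149084⟩]⟩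
noncomputable def p041_l17 : Lf2 := ⟨nat_lit 0, nat_lit 1, [nat_lit 19, nat_lit 5, nat_lit 5, nat_lit 20], false, nat_lit 240, nat_lit 280, nat_lit 0, nat_lit 160, ⟨nat_lit 1000, nat_lit 0, nat_lit 0, nat_lit 0, nat_lit 0, nat_lit 0, nat_lit 0, nat_lit 0, nat_lit 0, nat_lit 0, nat_lit 0, nat_lit 0, nat_lit 0, nat_lit 0, nat_lit 0, nat_lit 0, false, false⟩,
 nat_lit 0, nat_lit 0, nat_lit 19503, nat_lit 0, nat_lit 9076, nat_lit 9822, nat_lit 0, nat_lit 0, nat_lit 0, nat_lit 3468, nat_lit 0, nat_lit 0, nat_lit 0, nat_lit 0, nat_lit 0, nat_lit 0, nat_lit 0, nat_lit 0, [],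
 ⟨p041_k2, nat_lit 0, nat_lit 0, nat_lit 82, nat_lit 0, nat_lit 0, [nat_lit 6250000000, nat_lit 7968000000], [], [nat_lit 17983888140, nat_lit 18733582964, nat_lit 13073544864, nat_lit 13790144896, nat_lit 22079227871, nat_lit 22717724380, nat_lit 16945468068, nat_lit 17558607296], nat_lit 0, nat_lit 0, nat_lit 0, nat_lit 0, nat_lit 0, nat_lit 0, [], [nat_lit 26, nat_lit 40, nat_lit 40, nat_lit 80, nat_lit 2, nat_lit 317, nat_lit 100, nat_lit 10]⟩, ⟨p041_k2, nat_lit 0, nat_lit 0, nat_lit 273, nat_lit 0, nat_lit 30191, [nat_lit 6250000000, nat_lit 7968000000], [], [nat_lit 21385677643, nat_lit 22170750771, nat_lit 15969333608, nat_lit 16719415612, nat_lit 16989162168, nat_lit 15968157117, nat_lit 18251683700, nat_lit 15768858896], nat_lit 1271250, nat_lit 1271250, nat_lit 43600, nat_lit 490000, nat_lit 0, nat_lit 1100001, [nat_lit 1412500, nat_lit 1271250], [nat_lit 26, nat_lit 40, nat_lit 40, nat_lit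 80, nat_lit 2, nat_lit 345, nat_lit 125, nat_lit 12]⟩,
 zbF0, [⟨nat_lit 0, nat_lit 100, nat_lit 100, nat_lit 35, nat_lit 1050086792⟩]⟩
noncomputable def p041_l18 : Lf2 := ⟨nat_lit 0, nat_lit 1, [nat_lit 19, nat_lit 5, nat_lit 5, nat_lit 20], false, nat_lit 240, nat_lit 280, nat_lit 160, nat_lit 288, ⟨nat_lit 502, nat_lit 0, nat_lit 498, nat_lit 5, nat_lit 68, nat_lit 498, nat_lit 186, nat_lit 498, nat_lit 20030, nat_lit 249, nat_lit 43350, nat_lit 266, nat_lit 52534395, nat_lit 0, nat_lit 0, nat_lit 3267791, false, false⟩,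
 nat_lit 0, nat_lit 0, nat_lit 16180, nat_lit 0, nat_lit 6856, nat_lit 8148, nat_lit 0, nat_lit 0, nat_lit 0, nat_lit 1022, nat_lit 0, nat_lit 0, nat_lit 0, nat_lit 0, nat_lit 0, nat_lit 498000, nat_lit 0, nat_lit 0, [(nat_lit 3, [(nat_lit 6, nat_lit 498)])],
 ⟨p041_k2, nat_lit 0, nat_lit 0, nat_lit 82, nat_lit 0, nat_lit 0, [nat_lit 3655989143, nat_lit 3372256800], [], [nat_lit 16626197059, nat_lit 17270610603, nat_lit 14292959215, nat_lit 14932608503, nat_lit 20054224326, nat_lit 20611027499, nat_lit 17672881071, nat_lit 18226976503], nat_lit 0, nat_lit 0, nat_lit 0, nat_lit 0, nat_lit 0, nat_lit 0, [], [nat_lit 26, nat_lit 40, nat_lit 40, nat_lit 80, nat_lit 2, nat_lit 289, nat_lit 75, nat_lit 9]⟩, ⟨p041_k2, nat_lit 0, nat_lit 0, nat_lit 193, nat_lit 0, nat_lit 30191, [nat_lit 3137500000, nat_lit 3999936000], [], [nat_lit 5430309357, nat_lit 6043098408, nat_lit 3498065932, nat_lit 2933854542, nat_lit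 15388379260, nat_lit 15621350168, nat_lit 15427833993, nat_lit 13431862432], nat_lit 1271250, nat_lit 1271250, nat_lit 43600, nat_lit 230001, nat_lit 1100001, nat_lit 2196000, [nat_lit 1412500, nat_lit 1271250], [nat_lit 26, nat_lit 40, nat_lit 40, nat_lit 80, nat_lit 2, nat_lit 373, nat_lit 150, nat_lit 12]⟩,
 ⟨nat_lit 6324, nat_lit 6520, ⟨.ofNat (nat_lit 127994), .ofNat (nat_lit 195344), .ofNat (nat_lit 138693), .ofNat (nat_lit 206043), .ofNat (nat_lit 137182), .ofNat (nat_lit 202993), .ofNat (nat_lit 147866), .ofNat (nat_lit 213677)⟩, ⟨.ofNat (nat_lit 413002), .ofNat (nat_lit 497189), .ofNat (nat_lit 434400), .ofNat (nat_lit 518586), .ofNat (nat_lit 411320), .ofNat (nat_lit 493584), .ofNat (nat_lit 432688), .ofNat (nat_lit 514950)⟩⟩, [⟨nat_lit 11, nat_lit 100, nat_lit 94, nat_lit 48, nat_lit 1070475174⟩]⟩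
noncomputable def p041_l19 : Lf2 := ⟨nat_lit 0, nat_lit 1, [nat_lit 19, nat_lit 5, nat_lit 5, nat_lit 20], true, nat_lit 240, nat_lit 280, nat_lit 160, nat_lit 324, ⟨nat_lit 0, nat_lit 0, nat_lit 1000, nat_lit 5, nat_lit 98, nat_lit 1000, nat_lit 186, nat_lit 1000, nat_lit 20030, nat_lit 249, nat_lit 91267, nat_lit 289, nat_lit 50742029, nat_lit 0, nat_lit 0, nat_lit 3695281, false, false⟩,
 nat_lit 0, nat_lit 0, nat_lit 0, nat_lit 5161, nat_lit 5053, nat_lit 0, nat_lit 0, nat_lit 0, nat_lit 0, nat_lit 0, nat_lit 0, nat_lit 0, nat_lit 0, nat_lit 2018892693894, nat_lit 53, nat_lit 1000000, nat_lit 0, nat_lit 0, [(nat_lit 3, [(nat_lit 6, nat_lit 1000)])],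
 ⟨p041_k2, nat_lit 0, nat_lit 0, nat_lit 42, nat_lit 0, nat_lit 0, [nat_lit 2101142858, nat_lit 11600000], [], [nat_lit 13415642394, nat_lit 13970103538, nat_lit 12833841000, nat_lit 13369880746, nat_lit 16261649072, nat_lit 16749264288, nat_lit 15574178787, nat_lit 16046500946], nat_lit 0, nat_lit 0, nat_lit 0, nat_lit 0, nat_lit 0, nat_lit 0, [], [nat_lit 26, nat_lit 40, nat_lit 40, nat_lit 80, nat_lit 2, nat_lit 317, nat_lit 100, nat_lit 10]⟩, C1.Rw.none,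
 ⟨nat_lit 6324, nat_lit 6520, ⟨.ofNat (nat_lit 195344), .ofNat (nat_lit 279532), .ofNat (nat_lit 206043), .ofNat (nat_lit 290231), .ofNat (nat_lit 202993), .ofNat (nat_lit 285258), .ofNat (nat_lit 213677), .ofNat (nat_lit 295942)⟩, ⟨.ofNat (nat_lit 413002), .ofNat (nat_lit 497189), .ofNat (nat_lit 434400), .ofNat (nat_lit 518586), .ofNat (nat_lit 411320), .ofNat (nat_lit 493584), .ofNat (nat_lit 432688), .ofNat (nat_lit 514950)⟩⟩, []⟩
noncomputable def p041_l20 : Lf2 := ⟨nat_lit 0, nat_lit 1, [nat_lit 19, nat_lit 5, nat_lit 5, nat_lit 20], true, nat_lit 240, nat_lit 280, nat_lit 0, nat_lit 324, ⟨nat_lit 0, nat_lit 1000, nat_lit 0, nat_lit 5, nat_lit 132, nat_lit 1000, nat_lit 186, nat_lit 0, nat_lit 0, nat_lit 0, nat_lit 0, nat_lit 0, nat_lit 48499558, nat_lit 6826141, nat_lit 11674301, nat_lit 4123818, false, false⟩,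
 nat_lit 0, nat_lit 0, nat_lit 0, nat_lit 2291, nat_lit 7603, nat_lit 0, nat_lit 0, nat_lit 0, nat_lit 0, nat_lit 0, nat_lit 0, nat_lit 0, nat_lit 0, nat_lit 5306983761306, nat_lit 0, nat_lit 400000, nat_lit 0, nat_lit 0, [(nat_lit 3, [(nat_lit 1, nat_lit 1000)])],
 ⟨p041_k2, nat_lit 0, nat_lit 0, nat_lit 10, nat_lit 0, nat_lit 0, [nat_lit 3344000000, nat_lit 3405600000], [], [nat_lit 11986973842, nat_lit 12637462688, nat_lit 11818910441, nat_lit 12433201052, nat_lit 15444573079, nat_lit 16006152888, nat_lit 15088607300, nat_lit 15619280078], nat_lit 0, nat_lit 0, nat_lit 0, nat_lit 0, nat_lit 0, nat_lit 0, [], [nat_lit 26, nat_lit 40, nat_lit 40, nat_lit 80, nat_lit 2, nat_lit 317, nat_lit 100, nat_lit 10]⟩, C1.Rw.none,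
 ⟨nat_lit 6324, nat_lit 6520, ⟨.ofNat (nat_lit 279532), .ofNat (nat_lit 363720), .ofNat (nat_lit 290231), .ofNat (nat_lit 374419), .ofNat (nat_lit 285258), .ofNat (nat_lit 367522), .ofNat (nat_lit 295942), .ofNat (nat_lit 378206)⟩, ⟨.ofNat (nat_lit 413002), .ofNat (nat_lit 497189), .ofNat (nat_lit 434400), .ofNat (nat_lit 518586), .ofNat (nat_lit 411320), .ofNat (nat_lit 493584), .ofNat (nat_lit 432688), .ofNat (nat_lit 514950)⟩⟩, []⟩
noncomputable def p041_l21 : Lf2 := ⟨nat_lit 0, nat_lit 1, [nat_lit 19, nat_lit 5, nat_lit 5, nat_lit 20], false, nat_lit 280, nat_lit 300, nat_lit 0, nat_lit 160, ⟨nat_lit 1000, nat_lit 0, nat_lit 0, nat_lit 0, nat_lit 0, nat_lit 0, nat_lit 0, nat_lit 0, nat_lit 0, nat_lit 0, nat_lit 0, nat_lit 0, nat_lit 0, nat_lit 0, nat_lit 0, nat_lit 0, false, false⟩,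
 nat_lit 0, nat_lit 0, nat_lit 18898, nat_lit 16969, nat_lit 9589, nat_lit 9517, nat_lit 2909, nat_lit 0, nat_lit 0, nat_lit 4011, nat_lit 0, nat_lit 0, nat_lit 0, nat_lit 6640197506881, nat_lit 0, nat_lit 0, nat_lit 0, nat_lit 0, [],
 ⟨p041_k2, nat_lit 0, nat_lit 0, nat_lit 123, nat_lit 0, nat_lit 0, [nat_lit 6250000000, nat_lit 7968000000], [], [nat_lit 22717532669, nat_lit 23205419259, nat_lit 18074117141, nat_lit 18535949912, nat_lit 25131762620, nat_lit 25896523859, nat_lit 19579210430, nat_lit 20001029860], nat_lit 0, nat_lit 0, nat_lit 0, nat_lit 0, nat_lit 0, nat_lit 0, [], [nat_lit 26, nat_lit 40, nat_lit 40, nat_lit 80, nat_lit 2, nat_lit 317, nat_lit 100, nat_lit 10]⟩, ⟨p041_k2, nat_lit 0, nat_lit 0, nat_lit 273, nat_lit 0, nat_lit 30191, [nat_lit 6250000000, nat_lit 7968000000], [], [nat_lit 20905629262, nat_lit 21676468463, nat_lit 15734934059, nat_lit 16569648856, nat_lit 17440987399, nat_lit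 16304718747, nat_lit 18719751950, nat_lit 16314025656], nat_lit 1271250, nat_lit 1271250, nat_lit 43600, nat_lit 490000, nat_lit 0, nat_lit 1100001, [nat_lit 1412500, nat_lit 1271250], [nat_lit 26, nat_lit 40, nat_lit 40, nat_lit 80, nat_lit 2, nat_lit 345, nat_lit 125, nat_lit 12]⟩,
 zbF0, [⟨nat_lit 0, nat_lit 100, nat_lit 100, nat_lit 35, nat_lit 1014969313⟩, ⟨nat_lit 4, nat_lit 87, nat_lit 100, nat_lit 67, nat_lit 1375881617⟩]⟩
noncomputable def p041_l22 : Lf2 := ⟨nat_lit 0, nat_lit 1, [nat_lit 19, nat_lit 5, nat_lit 5, nat_lit 20], false, nat_lit 280, nat_lit 300, nat_lit 160, nat_lit 248, ⟨nat_lit 1000, nat_lit 0, nat_lit 0, nat_lit 0, nat_lit 0, nat_lit 0, nat_lit 0, nat_lit 0, nat_lit 0, nat_lit 0, nat_lit 0, nat_lit 0, nat_lit 0, nat_lit 0, nat_lit 0, nat_lit 0, false, false⟩,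
 nat_lit 0, nat_lit 0, nat_lit 23448, nat_lit 0, nat_lit 9589, nat_lit 11809, nat_lit 2857, nat_lit 0, nat_lit 0, nat_lit 0, nat_lit 0, nat_lit 0, nat_lit 0, nat_lit 0, nat_lit 0, nat_lit 0, nat_lit 0, nat_lit 0, [],
 ⟨p041_k2, nat_lit 0, nat_lit 0, nat_lit 123, nat_lit 0, nat_lit 0, [nat_lit 6250000000, nat_lit 7968000000], [], [nat_lit 22779770169, nat_lit 23205419259, nat_lit 19844709538, nat_lit 20281572418, nat_lit 25131762620, nat_lit 25896523859, nat_lit 21373277176, nat_lit 21814528485], nat_lit 0, nat_lit 0, nat_lit 0, nat_lit 0, nat_lit 0, nat_lit 0, [], [nat_lit 26, nat_lit 40, nat_lit 40, nat_lit 80, nat_lit 2, nat_lit 289, nat_lit 75, nat_lit 9]⟩, ⟨p041_k2, nat_lit 0, nat_lit 0, nat_lit 193, nat_lit 0, nat_lit 30191, [nat_lit 6250000000, nat_lit 7968000000], [], [nat_lit 10299197836, nat_lit 11415735882, nat_lit 5955085676, nat_lit 7062417056, nat_lit 19186192846, nat_lit 20295431440, nat_lit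 13650748313, nat_lit 14764646420], nat_lit 1271250, nat_lit 1271250, nat_lit 43600, nat_lit 230001, nat_lit 1100001, nat_lit 1853500, [nat_lit 1412500, nat_lit 1271250], [nat_lit 26, nat_lit 40, nat_lit 40, nat_lit 80, nat_lit 2, nat_lit 373, nat_lit 150, nat_lit 12]⟩,
 zbF0, [⟨nat_lit 0, nat_lit 100, nat_lit 100, nat_lit 40, nat_lit 417144123⟩, ⟨nat_lit 16, nat_lit 100, nat_lit 87, nat_lit 67, nat_lit 182646047⟩, ⟨nat_lit 11, nat_lit 100, nat_lit 89, nat_lit 47, nat_lit 1700995387⟩]⟩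
noncomputable def p041_l23 : Lf2 := ⟨nat_lit 0, nat_lit 1, [nat_lit 19, nat_lit 5, nat_lit 5, nat_lit 20], true, nat_lit 280, nat_lit 300, nat_lit 160, nat_lit 300, ⟨nat_lit 0, nat_lit 1000, nat_lit 0, nat_lit 5, nat_lit 98, nat_lit 1000, nat_lit 211, nat_lit 0, nat_lit 0, nat_lit 0, nat_lit 0, nat_lit 0, nat_lit 48375833, nat_lit 4361926, nat_lit 14262241, nat_lit 3936849, false, false⟩,
 nat_lit 0, nat_lit 0, nat_lit 0, nat_lit 9616, nat_lit 6711, nat_lit 0, nat_lit 0, nat_lit 0, nat_lit 0, nat_lit 0, nat_lit 0, nat_lit 0, nat_lit 0, nat_lit 5496996440631, nat_lit 0, nat_lit 1000000, nat_lit 0, nat_lit 0, [(nat_lit 3, [(nat_lit 2, nat_lit 1000)])],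
 ⟨p041_k2, nat_lit 0, nat_lit 0, nat_lit 57, nat_lit 0, nat_lit 0, [nat_lit 3292500000, nat_lit 2888400000], [], [nat_lit 17406188418, nat_lit 17954937410, nat_lit 16243958123, nat_lit 16774315256, nat_lit 19074680211, nat_lit 19581404535, nat_lit 17847307308, nat_lit 18337615956], nat_lit 0, nat_lit 0, nat_lit 0, nat_lit 0, nat_lit 0, nat_lit 0, [], [nat_lit 26, nat_lit 40, nat_lit 40, nat_lit 80, nat_lit 2, nat_lit 317, nat_lit 100, nat_lit 10]⟩, C1.Rw.none,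
 ⟨nat_lit 6324, nat_lit 6520, ⟨.ofNat (nat_lit 195344), .ofNat (nat_lit 279532), .ofNat (nat_lit 206043), .ofNat (nat_lit 290231), .ofNat (nat_lit 202993), .ofNat (nat_lit 285258), .ofNat (nat_lit 213677), .ofNat (nat_lit 295942)⟩, ⟨.ofNat (nat_lit 497189), .ofNat (nat_lit 539281), .ofNat (nat_lit 518586), .ofNat (nat_lit 560677), .ofNat (nat_lit 493584), .ofNat (nat_lit 534713), .ofNat (nat_lit 514950), .ofNat (nat_lit 556079)⟩⟩, [⟨nat_lit 4, nat_lit 87, nat_lit 100, nat_lit 67, nat_lit 465827986⟩]⟩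
noncomputable def p041_l24 : Lf2 := ⟨nat_lit 0, nat_lit 1, [nat_lit 19, nat_lit 5, nat_lit 5, nat_lit 20], true, nat_lit 280, nat_lit 300, nat_lit 0, nat_lit 324, ⟨nat_lit 0, nat_lit 1000, nat_lit 0, nat_lit 5, nat_lit 132, nat_lit 1000, nat_lit 211, nat_lit 0, nat_lit 0, nat_lit 0, nat_lit 0, nat_lit 0, nat_lit 46302649, nat_lit 6698799, nat_lit 13998552, nat_lit 4346321, false, false⟩,
 nat_lit 0, nat_lit 0, nat_lit 0, nat_lit 13529, nat_lit 7552, nat_lit 0, nat_lit 0, nat_lit 0, nat_lit 0, nat_lit 0, nat_lit 0, nat_lit 0, nat_lit 0, nat_lit 30716996276512, nat_lit 0, nat_lit 1000000, nat_lit 0, nat_lit 0, [(nat_lit 3, [(nat_lit 2, nat_lit 1000)])],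
 ⟨p041_k2, nat_lit 0, nat_lit 0, nat_lit 27, nat_lit 0, nat_lit 0, [nat_lit 3292500000, nat_lit 2888400000], [], [nat_lit 15441722336, nat_lit 16001516992, nat_lit 15093974008, nat_lit 15623021952, nat_lit 17523129250, nat_lit 18186022864, nat_lit 16964067146, nat_lit 17596683176], nat_lit 0, nat_lit 0, nat_lit 0, nat_lit 0, nat_lit 0, nat_lit 0, [], [nat_lit 26, nat_lit 40, nat_lit 40, nat_lit 80, nat_lit 2, nat_lit 317, nat_lit 100, nat_lit 10]⟩, C1.Rw.none,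
 ⟨nat_lit 6324, nat_lit 6520, ⟨.ofNat (nat_lit 279532), .ofNat (nat_lit 363720), .ofNat (nat_lit 290231), .ofNat (nat_lit 374419), .ofNat (nat_lit 285258), .ofNat (nat_lit 367522), .ofNat (nat_lit 295942), .ofNat (nat_lit 378206)⟩, ⟨.ofNat (nat_lit 497189), .ofNat (nat_lit 539281), .ofNat (nat_lit 518586), .ofNat (nat_lit 560677), .ofNat (nat_lit 493584), .ofNat (nat_lit 534713), .ofNat (nat_lit 514950), .ofNat (nat_lit 556079)⟩⟩, [⟨nat_lit 4, nat_lit 87, nat_lit 100, nat_lit 67, nat_lit 679076750⟩]⟩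
noncomputable def p041_l25 : Lf2 := ⟨nat_lit 0, nat_lit 1, [nat_lit 19, nat_lit 5, nat_lit 5, nat_lit 20], true, nat_lit 300, nat_lit 324, nat_lit 0, nat_lit 320, ⟨nat_lit 0, nat_lit 0, nat_lit 1000, nat_lit 5, nat_lit 102, nat_lit 1000, nat_lit 229, nat_lit 1000, nat_lit 6129, nat_lit 209, nat_lit 96267, nat_lit 291, nat_lit 46445442, nat_lit 0, nat_lit 0, nat_lit 4127252, false, false⟩,
 nat_lit 0, nat_lit 0, nat_lit 0, nat_lit 100000, nat_lit 4534, nat_lit 0, nat_lit 0, nat_lit 0, nat_lit 0, nat_lit 0, nat_lit 0, nat_lit 0, nat_lit 0, nat_lit 159190259018247, nat_lit 53, nat_lit 1000000, nat_lit 0, nat_lit 0, [(nat_lit 3, [(nat_lit 6, nat_lit 1000)])],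
 ⟨p041_k2, nat_lit 0, nat_lit 0, nat_lit 136, nat_lit 0, nat_lit 0, [nat_lit 2101142858, nat_lit 11600000], [], [nat_lit 19738578329, nat_lit 20088996363, nat_lit 18141055420, nat_lit 18459956590, nat_lit 21676972567, nat_lit 22163200788, nat_lit 19338997305, nat_lit 19633161254], nat_lit 0, nat_lit 0, nat_lit 0, nat_lit 0, nat_lit 0, nat_lit 0, [], [nat_lit 26, nat_lit 40, nat_lit 40, nat_lit 80, nat_lit 2, nat_lit 317, nat_lit 100, nat_lit 10]⟩, C1.Rw.none,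
 ⟨nat_lit 6324, nat_lit 6520, ⟨.ofNat (nat_lit 127994), .ofNat (nat_lit 363720), .ofNat (nat_lit 138693), .ofNat (nat_lit 374419), .ofNat (nat_lit 137182), .ofNat (nat_lit 367522), .ofNat (nat_lit 147866), .ofNat (nat_lit 378206)⟩, ⟨.ofNat (nat_lit 539281), .ofNat (nat_lit 589789), .ofNat (nat_lit 560677), .ofNat (nat_lit 611186), .ofNat (nat_lit 534713), .ofNat (nat_lit 584068), .ofNat (nat_lit 556079), .ofNat (nat_lit 605434)⟩⟩, [⟨nat_lit 0, nat_lit 100, nat_lit 100, nat_lit 40, nat_lit 190288669⟩, ⟨nat_lit 4, nat_lit 87, nat_lit 100, nat_lit 67, nat_lit 5392280203⟩]⟩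
noncomputable def p041_l26 : Lf2 := ⟨nat_lit 0, nat_lit 1, [nat_lit 19, nat_lit 5, nat_lit 5, nat_lit 20], true, nat_lit 160, nat_lit 332, nat_lit 0, nat_lit 332, ⟨nat_lit 0, nat_lit 1000, nat_lit 0, nat_lit 5, nat_lit 196, nat_lit 1000, nat_lit 175, nat_lit 0, nat_lit 0, nat_lit 0, nat_lit 0, nat_lit 0, nat_lit 44585997, nat_lit 12230966, nat_lit 10183037, nat_lit 4667381, false, false⟩,
 nat_lit 0, nat_lit 0, nat_lit 0, nat_lit 9569, nat_lit 8499, nat_lit 0, nat_lit 0, nat_lit 0, nat_lit 0, nat_lit 0, nat_lit 0, nat_lit 0, nat_lit 0, nat_lit 18810442452583, nat_lit 0, nat_lit 1000000, nat_lit 0, nat_lit 0, [(nat_lit 3, [(nat_lit 2, nat_lit 1000)])],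
 ⟨p041_k3, nat_lit 0, nat_lit 0, nat_lit 36, nat_lit 0, nat_lit 0, [nat_lit 3292500000, nat_lit 2888400000], [], [nat_lit 5051688342, nat_lit 6674077072, nat_lit 10557817200, nat_lit 11760312620, nat_lit 20394915359, nat_lit 21536863694, nat_lit 23429957805, nat_lit 24267879427], nat_lit 0, nat_lit 0, nat_lit 0, nat_lit 0, nat_lit 0, nat_lit 0, [], [nat_lit 26, nat_lit 40, nat_lit 40, nat_lit 80, nat_lit 2, nat_lit 456, nat_lit 225, nat_lit 15]⟩, C1.Rw.none,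
 ⟨nat_lit 6324, nat_lit 6709, ⟨.ofNat (nat_lit 349126), .ofNat (nat_lit 607557), .ofNat (nat_lit 370564), .ofNat (nat_lit 628989), .ofNat (nat_lit 356838), .ofNat (nat_lit 603596), .ofNat (nat_lit 378206), .ofNat (nat_lit 624956)⟩, ⟨.ofNat (nat_lit 242336), .ofNat (nat_lit 612763), .ofNat (nat_lit 263774), .ofNat (nat_lit 634195), .ofNat (nat_lit 246791), .ofNat (nat_lit 600485), .ofNat (nat_lit 268159), .ofNat (nat_lit 621847)⟩⟩, [⟨nat_lit 16, nat_lit 100, nat_lit 85, nat_lit 67, nat_lit 429696733⟩]⟩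
noncomputable def p041_l27 : Lf2 := ⟨nat_lit 1, nat_lit 1, [nat_lit 19, nat_lit 5, nat_lit 5, nat_lit 20], false, nat_lit 160, nat_lit 360, nat_lit 0, nat_lit 360, zbN0,
 nat_lit 0, nat_lit 0, nat_lit 0, nat_lit 0, nat_lit 0, nat_lit 0, nat_lit 0, nat_lit 0, nat_lit 0, nat_lit 0, nat_lit 0, nat_lit 0, nat_lit 0, nat_lit 0, nat_lit 0, nat_lit 0, nat_lit 0, nat_lit 0, [],
 C1.Rw.none, C1.Rw.none,
 zbF0, []⟩
noncomputable def p041_l28 : Lf2 := ⟨nat_lit 0, nat_lit 1, [nat_lit 19, nat_lit 5, nat_lit 5, nat_lit 20], false, nat_lit 0, nat_lit 360, nat_lit 0, nat_lit 360, ⟨nat_lit 1000, nat_lit 0, nat_lit 0, nat_lit 0, nat_lit 0, nat_lit 0, nat_lit 0, nat_lit 0, nat_lit 0, nat_lit 0, nat_lit 0, nat_lit 0, nat_lit 0, nat_lit 0, nat_lit 0, nat_lit 0, false, false⟩,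
 nat_lit 0, nat_lit 0, nat_lit 20359, nat_lit 23203, nat_lit 8288, nat_lit 8725, nat_lit 0, nat_lit 0, nat_lit 0, nat_lit 0, nat_lit 0, nat_lit 0, nat_lit 0, nat_lit 0, nat_lit 0, nat_lit 0, nat_lit 0, nat_lit 0, [],
 ⟨p041_k0, nat_lit 0, nat_lit 0, nat_lit 191, nat_lit 0, nat_lit 0, [nat_lit 6250000000, nat_lit 7968000000], [], [nat_lit 24278607648, nat_lit 26172214688, nat_lit 38309959584, nat_lit 39566732096, nat_lit 28661479120, nat_lit 29278145616, nat_lit 37108130528, nat_lit 37478020256], nat_lit 0, nat_lit 0, nat_lit 0, nat_lit 0, nat_lit 0, nat_lit 0, [], [nat_lit 26, nat_lit 40, nat_lit 40, nat_lit 80, nat_lit 2, nat_lit 373, nat_lit 150, nat_lit 12]⟩, ⟨p041_k0, nat_lit 0, nat_lit 0, nat_lit 214, nat_lit 0, nat_lit 76354, [nat_lit 6250000000, nat_lit 7968000000], [], [nat_lit 23688044100, nat_lit 25623856600, nat_lit 39265988200, nat_lit 40660889200, nat_lit 37987409800, nat_lit 30185916150,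 nat_lit 37697362100, nat_lit 38039067950], nat_lit 1271250, nat_lit 1271250, nat_lit 1271250, nat_lit 1271250, nat_lit 0, nat_lit 2542500, [nat_lit 1412500, nat_lit 1271250], [nat_lit 26, nat_lit 40, nat_lit 40, nat_lit 80, nat_lit 2, nat_lit 373, nat_lit 150, nat_lit 12]⟩,
 zbF0, [⟨nat_lit 4, nat_lit 77, nat_lit 100, nat_lit 72, nat_lit 230888957⟩, ⟨nat_lit 19, nat_lit 100, nat_lit 77, nat_lit 72, nat_lit 220599845⟩]⟩
noncomputable def b_V_500_500_10_0 : St := ⟨true, nat_lit 0, nat_lit 2, nat_lit 1, nat_lit 80, nat_lit 200, nat_lit 240, nat_lit 200, nat_lit 240, nat_lit 0, nat_lit 400, nat_lit 40, nat_lit 80, nat_lit 0, nat_lit 360, nat_lit 0, nat_lit 360, nat_lit 0, nat_lit 4, nat_lit 0, nat_lit 0, nat_lit 0, nat_lit 0⟩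
theorem d_V_500_500_10_0 (h : EB TB.env) : Dead b_V_500_500_10_0 := chkB_sound0 h (T :=
(.st (nat_lit 1)
(.spl (nat_lit 2) (nat_lit 120)
(.spl (nat_lit 4) (nat_lit 160)
(.leaf p041_l0)
(.spl (nat_lit 3) (nat_lit 60)
(.trX (nat_lit 16) (nat_lit 100) (nat_lit 70) (nat_lit 71) (nat_lit 344) (.trX (nat_lit 19) (nat_lit 100) (nat_lit 70) (nat_lit 71) (nat_lit 344) (.spl (nat_lit 1) (nat_lit 220)
(.leaf p041_l1)
(.ord (.trZ (nat_lit 0) (nat_lit 100) (nat_lit 100) (nat_lit 20) (nat_lit 4) (.trX (nat_lit 16) (nat_lit 100) (nat_lit 77) (nat_lit 72) (nat_lit 332) (.trX (nat_lit 19) (nat_lit 100) (nat_lit 77) (nat_lit 72) (nat_lit 332) (.spl (nat_lit 1) (nat_lit 230)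
(.leaf p041_l2)
(.ord (.trZ (nat_lit 0) (nat_lit 100) (nat_lit 100) (nat_lit 30) (nat_lit 8) (.trX (nat_lit 16) (nat_lit 100) (nat_lit 81) (nat_lit 72) (nat_lit 324) (.trX (nat_lit 19) (nat_lit 100) (nat_lit 81) (nat_lit 72) (nat_lit 324) (.spl (nat_lit 5) (nat_lit 160)
(.spl (nat_lit 0) (nat_lit 235)
(.ord (.leaf p041_l3))
(.trX (nat_lit 16) (nat_lit 100) (nat_lit 83) (nat_lit 73) (nat_lit 320) (.leaf p041_l4)))
(.spl (nat_lit 5) (nat_lit 240)
(.spl (nat_lit 2) (nat_lit 80)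
(.leaf p041_l5)
(.leaf p041_l6))
(.spl (nat_lit 4) (nat_lit 240)
(.leaf p041_l7)
(.trZ (nat_lit 11) (nat_lit 100) (nat_lit 100) (nat_lit 40) (nat_lit 16) (.leaf p041_l8)))))))))))))))))
(.leaf p041_l9)))
(.spl (nat_lit 1) (nat_lit 220)
(.leaf p041_l10)
(.ord (.trX (nat_lit 16) (nat_lit 100) (nat_lit 68) (nat_lit 80) (nat_lit 348) (.trX (nat_lit 19) (nat_lit 100) (nat_lit 68) (nat_lit 80) (nat_lit 348) (.leaf p041_l11))))))
(.spl (nat_lit 2) (nat_lit 240)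
(.spl (nat_lit 4) (nat_lit 160)
(.spl (nat_lit 2) (nat_lit 160)
(.leaf p041_l12)
(.leaf p041_l13))
(.spl (nat_lit 3) (nat_lit 60)
(.trX (nat_lit 16) (nat_lit 100) (nat_lit 70) (nat_lit 71) (nat_lit 344) (.trX (nat_lit 19) (nat_lit 100) (nat_lit 70) (nat_lit 71) (nat_lit 344) (.spl (nat_lit 1) (nat_lit 220)
(.leaf p041_l14)
(.ord (.trZ (nat_lit 0) (nat_lit 100) (nat_lit 100) (nat_lit 20) (nat_lit 4) (.trX (nat_lit 16) (nat_lit 100) (nat_lit 77) (nat_lit 72) (nat_lit 332) (.trX (nat_lit 19) (nat_lit 100) (nat_lit 77) (nat_lit 72) (nat_lit 332) (.spl (nat_lit 2) (nat_lit 120)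
(.spl (nat_lit 1) (nat_lit 230)
(.leaf p041_l15)
(.ord (.trZ (nat_lit 0) (nat_lit 100) (nat_lit 100) (nat_lit 30) (nat_lit 8) (.trX (nat_lit 16) (nat_lit 100) (nat_lit 81) (nat_lit 72) (nat_lit 324) (.trX (nat_lit 19) (nat_lit 100) (nat_lit 81) (nat_lit 72) (nat_lit 324) (.spl (nat_lit 4) (nat_lit 240)
(.leaf p041_l16)
(.spl (nat_lit 4) (nat_lit 280)
(.spl (nat_lit 2) (nat_lit 80)
(.spl (nat_lit 5) (nat_lit 160)
(.leaf p041_l17)
(.spl (nat_lit 2) (nat_lit 40)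
(.trX (nat_lit 23) (nat_lit 100) (nat_lit 92) (nat_lit 61) (nat_lit 288) (.leaf p041_l18))
(.leaf p041_l19)))
(.leaf p041_l20))
(.spl (nat_lit 4) (nat_lit 300)
(.spl (nat_lit 2) (nat_lit 80)
(.trX (nat_lit 23) (nat_lit 100) (nat_lit 95) (nat_lit 87) (nat_lit 300) (.spl (nat_lit 5) (nat_lit 160)
(.leaf p041_l21)
(.spl (nat_lit 2) (nat_lit 40)
(.trX (nat_lit 23) (nat_lit 94) (nat_lit 100) (nat_lit 62) (nat_lit 248) (.leaf p041_l22))
(.leaf p041_l23))))
(.leaf p041_l24))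
(.trX (nat_lit 23) (nat_lit 94) (nat_lit 88) (nat_lit 100) (nat_lit 320) (.leaf p041_l25))))))))))
(.leaf p041_l26)))))))))
(.leaf p041_l27)))
(.leaf p041_l28)))) (by decide +kernel)
noncomputable def p041_l29 : Lf2 := ⟨nat_lit 0, nat_lit 1, [nat_lit 19, nat_lit 5, nat_lit 5, nat_lit 20], true, nat_lit 0, nat_lit 360, nat_lit 0, nat_lit 360, ⟨nat_lit 0, nat_lit 1000, nat_lit 0, nat_lit 5, nat_lit 140, nat_lit 1000, nat_lit 139, nat_lit 0, nat_lit 0, nat_lit 0, nat_lit 0, nat_lit 0, nat_lit 0, nat_lit 0, nat_lit 0, nat_lit 5000000, false, false⟩,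
 nat_lit 0, nat_lit 0, nat_lit 0, nat_lit 7561, nat_lit 5551, nat_lit 0, nat_lit 0, nat_lit 0, nat_lit 0, nat_lit 0, nat_lit 0, nat_lit 0, nat_lit 0, nat_lit 17556829201165, nat_lit 0, nat_lit 1000000, nat_lit 0, nat_lit 0, [(nat_lit 0, [(nat_lit 2, nat_lit 1000)]), (nat_lit 3, [(nat_lit 2, nat_lit 1000)])],
 ⟨p041_k0, nat_lit 0, nat_lit 0, nat_lit 183, nat_lit 0, nat_lit 0, [nat_lit 3292500000, nat_lit 3405100000], [], [nat_lit 19094181992, nat_lit 21428817464, nat_lit 20457000396, nat_lit 22086267976, nat_lit 27889061140, nat_lit 28909060776, nat_lit 26049231740, nat_lit 26744335182], nat_lit 0, nat_lit 0, nat_lit 0, nat_lit 0, nat_lit 0, nat_lit 0, [], [nat_lit 26, nat_lit 40, nat_lit 40, nat_lit 80, nat_lit 2, nat_lit 456, nat_lit 225, nat_lit 16]⟩, C1.Rw.none,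
 ⟨nat_lit 6324, nat_lit 7072, ⟨.ofNat (nat_lit 48812), .ofNat (nat_lit 590110), .ofNat (nat_lit 91909), .ofNat (nat_lit 633154), .ofNat (nat_lit 88675), .ofNat (nat_lit 582138), .ofNat (nat_lit 131412), .ofNat (nat_lit 624821)⟩, ⟨.negSucc (nat_lit 123573), .ofNat (nat_lit 688265), .negSucc (nat_lit 80477), .ofNat (nat_lit 731310), .negSucc (nat_lit 82267), .ofNat (nat_lit 657817), .negSucc (nat_lit 39532), .ofNat (nat_lit 700501)⟩⟩, [⟨nat_lit 16, nat_lit 100, nat_lit 77, nat_lit 72, nat_lit 195249901⟩]⟩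
noncomputable def p041_l30 : Lf2 := ⟨nat_lit 0, nat_lit 1, [nat_lit 19, nat_lit 5, nat_lit 5, nat_lit 20], false, nat_lit 0, nat_lit 360, nat_lit 0, nat_lit 360, ⟨nat_lit 1000, nat_lit 0, nat_lit 0, nat_lit 0, nat_lit 0, nat_lit 0, nat_lit 0, nat_lit 0, nat_lit 0, nat_lit 0, nat_lit 0, nat_lit 0, nat_lit 0, nat_lit 0, nat_lit 0, nat_lit 0, false, false⟩,
 nat_lit 0, nat_lit 0, nat_lit 0, nat_lit 14356, nat_lit 8176, nat_lit 8288, nat_lit 0, nat_lit 0, nat_lit 0, nat_lit 0, nat_lit 0, nat_lit 0, nat_lit 0, nat_lit 0, nat_lit 0, nat_lit 0, nat_lit 0, nat_lit 0, [],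
 ⟨p041_k0, nat_lit 0, nat_lit 0, nat_lit 191, nat_lit 0, nat_lit 0, [nat_lit 6250000000, nat_lit 7968000000], [], [nat_lit 24429964896, nat_lit 26312754976, nat_lit 38204559968, nat_lit 39286307392, nat_lit 28862324240, nat_lit 29482200432, nat_lit 36957114656, nat_lit 37334227712], nat_lit 0, nat_lit 0, nat_lit 0, nat_lit 0, nat_lit 0, nat_lit 0, [], [nat_lit 26, nat_lit 40, nat_lit 40, nat_lit 80, nat_lit 2, nat_lit 373, nat_lit 150, nat_lit 12]⟩, ⟨p041_k0, nat_lit 0, nat_lit 0, nat_lit 191, nat_lit 0, nat_lit 0, [nat_lit 6250000000, nat_lit 7968000000], [], [nat_lit 24278607648, nat_lit 26172214688, nat_lit 38309959584, nat_lit 39566732096, nat_lit 28661479120, nat_lit 29278145616, nat_lit 37108130528, nat_lit 37478020256], nat_lit 0, nat_lit 0, nat_lit 0, nat_lit 0, nat_lit 0, nat_lit 0, [], [nat_lit 26, nat_lit 40, nat_lit 40, nat_lit 80, nat_lit 2, nat_lit 373, nat_lit 150, nat_lit 12]⟩,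
 zbF0, [⟨nat_lit 4, nat_lit 77, nat_lit 100, nat_lit 72, nat_lit 233511500⟩, ⟨nat_lit 7, nat_lit 77, nat_lit 100, nat_lit 72, nat_lit 230888957⟩]⟩
noncomputable def p041_l31 : Lf2 := ⟨nat_lit 0, nat_lit 1, [nat_lit 19, nat_lit 5, nat_lit 5, nat_lit 20], true, nat_lit 0, nat_lit 360, nat_lit 0, nat_lit 360, ⟨nat_lit 0, nat_lit 1000, nat_lit 0, nat_lit 5, nat_lit 140, nat_lit 1000, nat_lit 139, nat_lit 0, nat_lit 0, nat_lit 0, nat_lit 0, nat_lit 0, nat_lit 0, nat_lit 0, nat_lit 0, nat_lit 5000000, false, false⟩,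
 nat_lit 0, nat_lit 0, nat_lit 0, nat_lit 7561, nat_lit 5551, nat_lit 0, nat_lit 0, nat_lit 0, nat_lit 0, nat_lit 0, nat_lit 0, nat_lit 0, nat_lit 0, nat_lit 17556829201165, nat_lit 0, nat_lit 1000000, nat_lit 0, nat_lit 0, [(nat_lit 0, [(nat_lit 2, nat_lit 1000)]), (nat_lit 3, [(nat_lit 2, nat_lit 1000)])],
 ⟨p041_k0, nat_lit 0, nat_lit 0, nat_lit 183, nat_lit 0, nat_lit 0, [nat_lit 3292500000, nat_lit 3405100000], [], [nat_lit 19094181992, nat_lit 21428817464, nat_lit 20457000396, nat_lit 22086267976, nat_lit 27889061140, nat_lit 28909060776, nat_lit 26049231740, nat_lit 26744335182], nat_lit 0, nat_lit 0, nat_lit 0, nat_lit 0, nat_lit 0, nat_lit 0, [], [nat_lit 26, nat_lit 40, nat_lit 40, nat_lit 80, nat_lit 2, nat_lit 456, nat_lit 225, nat_lit 16]⟩, C1.Rw.none,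
 ⟨nat_lit 6324, nat_lit 7072, ⟨.ofNat (nat_lit 48812), .ofNat (nat_lit 590110), .ofNat (nat_lit 91909), .ofNat (nat_lit 633154), .ofNat (nat_lit 88675), .ofNat (nat_lit 582138), .ofNat (nat_lit 131412), .ofNat (nat_lit 624821)⟩, ⟨.negSucc (nat_lit 123573), .ofNat (nat_lit 688265), .negSucc (nat_lit 80477), .ofNat (nat_lit 731310), .negSucc (nat_lit 82267), .ofNat (nat_lit 657817), .negSucc (nat_lit 39532), .ofNat (nat_lit 700501)⟩⟩, [⟨nat_lit 16, nat_lit 100, nat_lit 77, nat_lit 72, nat_lit 195249901⟩]⟩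
noncomputable def p041_l32 : Lf2 := ⟨nat_lit 0, nat_lit 1, [nat_lit 19, nat_lit 5, nat_lit 5, nat_lit 20], false, nat_lit 0, nat_lit 360, nat_lit 0, nat_lit 360, ⟨nat_lit 778, nat_lit 222, nat_lit 0, nat_lit 6, nat_lit 312, nat_lit 222, nat_lit 139, nat_lit 0, nat_lit 0, nat_lit 0, nat_lit 0, nat_lit 0, nat_lit 0, nat_lit 0, nat_lit 0, nat_lit 5000000, true, true⟩,
 nat_lit 0, nat_lit 0, nat_lit 14065, nat_lit 15611, nat_lit 7722, nat_lit 6027, nat_lit 0, nat_lit 0, nat_lit 0, nat_lit 0, nat_lit 0, nat_lit 0, nat_lit 0, nat_lit 0, nat_lit 0, nat_lit 222000, nat_lit 0, nat_lit 0, [(nat_lit 0, [(nat_lit 2, nat_lit 222)]), (nat_lit 3, [(nat_lit 2, nat_lit 222)])],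
 ⟨p041_k0, nat_lit 0, nat_lit 0, nat_lit 191, nat_lit 0, nat_lit 0, [nat_lit 5593435000, nat_lit 6931082400], [], [nat_lit 23350019712, nat_lit 25188962472, nat_lit 36784253264, nat_lit 38149585824, nat_lit 27982981680, nat_lit 28615868604, nat_lit 36344961032, nat_lit 36751354364], nat_lit 0, nat_lit 0, nat_lit 0, nat_lit 0, nat_lit 0, nat_lit 0, [], [nat_lit 26, nat_lit 40, nat_lit 40, nat_lit 80, nat_lit 2, nat_lit 373, nat_lit 150, nat_lit 12]⟩, ⟨p041_k0, nat_lit 0, nat_lit 0, nat_lit 214, nat_lit 0, nat_lit 76354, [nat_lit 4862500000, nat_lit 6199104000], [], [nat_lit 19457784324, nat_lit 20890344240, nat_lit 29408898700, nat_lit 30187499164, nat_lit 29923399312, nat_lit 24534333154, nat_lit 28458560882, nat_lit 28617311690], nat_lit 1271250, nat_lit 1271250, nat_lit 1271250, nat_lit 1271250, nat_lit 0, nat_lit 2542500, [nat_lit 1412500, nat_lit 1271250], [nat_lit 26, nat_lit 40, nat_lit 40, nat_lit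 80, nat_lit 2, nat_lit 373, nat_lit 150, nat_lit 12]⟩,
 ⟨nat_lit 6324, nat_lit 7072, ⟨.ofNat (nat_lit 590110), .ofNat (nat_lit 950552), .ofNat (nat_lit 633154), .ofNat (nat_lit 993595), .ofNat (nat_lit 582138), .ofNat (nat_lit 910689), .ofNat (nat_lit 624821), .ofNat (nat_lit 953372)⟩, ⟨.negSucc (nat_lit 123573), .ofNat (nat_lit 688265), .negSucc (nat_lit 80477), .ofNat (nat_lit 731310), .negSucc (nat_lit 82267), .ofNat (nat_lit 657817), .negSucc (nat_lit 39532), .ofNat (nat_lit 700501)⟩⟩, [⟨nat_lit 16, nat_lit 100, nat_lit 77, nat_lit 72, nat_lit 199791138⟩, ⟨nat_lit 7, nat_lit 77, nat_lit 100, nat_lit 72, nat_lit 180729956⟩]⟩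
noncomputable def b_V_500_500_10_1 : St := ⟨true, nat_lit 0, nat_lit 2, nat_lit 2, nat_lit 80, nat_lit 200, nat_lit 240, nat_lit 200, nat_lit 240, nat_lit 0, nat_lit 400, nat_lit 40, nat_lit 80, nat_lit 0, nat_lit 360, nat_lit 0, nat_lit 360, nat_lit 0, nat_lit 4, nat_lit 0, nat_lit 0, nat_lit 0, nat_lit 0⟩
theorem d_V_500_500_10_1 (h : EB TB.env) : Dead b_V_500_500_10_1 := chkB_sound0 h (T :=
(.st (nat_lit 1)
(.spl (nat_lit 2) (nat_lit 240)
(.leaf p041_l29)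
(.leaf p041_l30))
(.spl (nat_lit 2) (nat_lit 240)
(.leaf p041_l31)
(.leaf p041_l32)))) (by decide +kernel)
noncomputable def p041_l33 : Lf2 := ⟨nat_lit 1, nat_lit 1, [nat_lit 19, nat_lit 5, nat_lit 5, nat_lit 20], false, nat_lit 0, nat_lit 160, nat_lit 0, nat_lit 360, zbN0,
 nat_lit 0, nat_lit 0, nat_lit 0, nat_lit 0, nat_lit 0, nat_lit 0, nat_lit 0, nat_lit 0, nat_lit 0, nat_lit 0, nat_lit 0, nat_lit 0, nat_lit 0, nat_lit 0, nat_lit 0, nat_lit 0, nat_lit 0, nat_lit 0, [],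
 C1.Rw.none, C1.Rw.none,
 zbF0, []⟩
noncomputable def p041_l34 : Lf2 := ⟨nat_lit 0, nat_lit 1, [nat_lit 19, nat_lit 5, nat_lit 5, nat_lit 20], true, nat_lit 0, nat_lit 160, nat_lit 0, nat_lit 348, ⟨nat_lit 0, nat_lit 0, nat_lit 1000, nat_lit 5, nat_lit 80, nat_lit 69, nat_lit 53, nat_lit 1000, nat_lit 14017, nat_lit 244, nat_lit 60000, nat_lit 275, nat_lit 64436086, nat_lit 0, nat_lit 0, nat_lit 811975, false, false⟩,
 nat_lit 0, nat_lit 10354, nat_lit 0, nat_lit 0, nat_lit 4951, nat_lit 0, nat_lit 0, nat_lit 0, nat_lit 0, nat_lit 0, nat_lit 0, nat_lit 0, nat_lit 0, nat_lit 26161108384837, nat_lit 53, nat_lit 1000000, nat_lit 0, nat_lit 0, [(nat_lit 3, [(nat_lit 6, nat_lit 1000)])],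
 ⟨p041_k3, nat_lit 0, nat_lit 0, nat_lit 280, nat_lit 0, nat_lit 34618, [nat_lit 2101142858, nat_lit 11600000], [], [nat_lit 13452010880, nat_lit 14644304846, nat_lit 11228833902, nat_lit 12406587484, nat_lit 15062037203, nat_lit 13411375486, nat_lit 16560773248, nat_lit 14057725884], nat_lit 1271250, nat_lit 1271250, nat_lit 21650, nat_lit 490000, nat_lit 0, nat_lit 1100001, [nat_lit 1412500, nat_lit 1271250], [nat_lit 26, nat_lit 40, nat_lit 40, nat_lit 80, nat_lit 2, nat_lit 345, nat_lit 125, nat_lit 12]⟩, C1.Rw.none,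
 ⟨nat_lit 6324, nat_lit 6709, ⟨.ofNat (nat_lit 99275), .ofNat (nat_lit 262970), .ofNat (nat_lit 120713), .ofNat (nat_lit 284409), .ofNat (nat_lit 118272), .ofNat (nat_lit 274574), .ofNat (nat_lit 139640), .ofNat (nat_lit 295942)⟩, ⟨.negSucc (nat_lit 102285), .ofNat (nat_lit 242336), .negSucc (nat_lit 59408), .ofNat (nat_lit 285213), .negSucc (nat_lit 82265), .ofNat (nat_lit 246791), .negSucc (nat_lit 39529), .ofNat (nat_lit 289527)⟩⟩, [⟨nat_lit 0, nat_lit 100, nat_lit 100, nat_lit 40, nat_lit 34117341⟩]⟩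
noncomputable def p041_l35 : Lf2 := ⟨nat_lit 0, nat_lit 1, [nat_lit 19, nat_lit 5, nat_lit 5, nat_lit 20], true, nat_lit 0, nat_lit 160, nat_lit 0, nat_lit 348, ⟨nat_lit 0, nat_lit 0, nat_lit 1000, nat_lit 5, nat_lit 129, nat_lit 0, nat_lit 53, nat_lit 891, nat_lit 14017, nat_lit 244, nat_lit 153600, nat_lit 311, nat_lit 60720702, nat_lit 0, nat_lit 0, nat_lit 1555312, false, false⟩,
 nat_lit 0, nat_lit 12162, nat_lit 0, nat_lit 0, nat_lit 5816, nat_lit 0, nat_lit 0, nat_lit 0, nat_lit 0, nat_lit 0, nat_lit 0, nat_lit 0, nat_lit 0, nat_lit 29606774824597, nat_lit 53, nat_lit 1000000, nat_lit 0, nat_lit 0, [(nat_lit 3, [(nat_lit 6, nat_lit 1000)])],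
 ⟨p041_k3, nat_lit 0, nat_lit 0, nat_lit 244, nat_lit 0, nat_lit 64968, [nat_lit 2101142858, nat_lit 11600000], [], [nat_lit 8620567226, nat_lit 10249855210, nat_lit 8856271594, nat_lit 10411344106, nat_lit 7037337034, nat_lit 8425118474, nat_lit 8046026970, nat_lit 8686200106], nat_lit 1271250, nat_lit 1271250, nat_lit 490000, nat_lit 780000, nat_lit 0, nat_lit 1100001, [nat_lit 1412500, nat_lit 1271250], [nat_lit 26, nat_lit 40, nat_lit 40, nat_lit 80, nat_lit 2, nat_lit 373, nat_lit 150, nat_lit 13]⟩, C1.Rw.none,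
 ⟨nat_lit 6324, nat_lit 6709, ⟨.ofNat (nat_lit 262970), .ofNat (nat_lit 349126), .ofNat (nat_lit 284409), .ofNat (nat_lit 370564), .ofNat (nat_lit 274574), .ofNat (nat_lit 356838), .ofNat (nat_lit 295942), .ofNat (nat_lit 378206)⟩, ⟨.negSucc (nat_lit 102285), .ofNat (nat_lit 242336), .negSucc (nat_lit 59408), .ofNat (nat_lit 285213), .negSucc (nat_lit 82265), .ofNat (nat_lit 246791), .negSucc (nat_lit 39529), .ofNat (nat_lit 289527)⟩⟩, []⟩
noncomputable def p041_l36 : Lf2 := ⟨nat_lit 0, nat_lit 1, [nat_lit 19, nat_lit 5, nat_lit 5, nat_lit 20], false, nat_lit 0, nat_lit 160, nat_lit 0, nat_lit 360, ⟨nat_lit 1000, nat_lit 0, nat_lit 0, nat_lit 0, nat_lit 0, nat_lit 0, nat_lit 0, nat_lit 0, nat_lit 0, nat_lit 0, nat_lit 0, nat_lit 0, nat_lit 0, nat_lit 0, nat_lit 0, nat_lit 0, false, false⟩,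
 nat_lit 0, nat_lit 14817, nat_lit 0, nat_lit 13592, nat_lit 6350, nat_lit 8355, nat_lit 0, nat_lit 0, nat_lit 0, nat_lit 0, nat_lit 0, nat_lit 0, nat_lit 0, nat_lit 15056852737693, nat_lit 0, nat_lit 0, nat_lit 0, nat_lit 0, [],
 ⟨p041_k0, nat_lit 0, nat_lit 0, nat_lit 235, nat_lit 0, nat_lit 76354, [nat_lit 6250000000, nat_lit 7968000000], [], [nat_lit 42176396000, nat_lit 35461423400, nat_lit 34432554600, nat_lit 35576184600, nat_lit 30500822800, nat_lit 30773673000, nat_lit 40668224600, nat_lit 34601587000], nat_lit 1271250, nat_lit 1271250, nat_lit 780000, nat_lit 1762500, nat_lit 0, nat_lit 1100001, [nat_lit 1412500, nat_lit 1271250], [nat_lit 26, nat_lit 40, nat_lit 40, nat_lit 80, nat_lit 2, nat_lit 401, nat_lit 175, nat_lit 14]⟩, ⟨p041_k0, nat_lit 0, nat_lit 0, nat_lit 63, nat_lit 0, nat_lit 0, [nat_lit 6250000000, nat_lit 7968000000], [], [nat_lit 10024537720, nat_lit 13866838940, nat_lit 16970889160,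 nat_lit 19837925720, nat_lit 23725430590, nat_lit 25205963640, nat_lit 25784636530, nat_lit 27176515800], nat_lit 0, nat_lit 0, nat_lit 0, nat_lit 0, nat_lit 0, nat_lit 0, [], [nat_lit 26, nat_lit 40, nat_lit 40, nat_lit 80, nat_lit 2, nat_lit 456, nat_lit 225, nat_lit 15]⟩,
 zbF0, [⟨nat_lit 7, nat_lit 77, nat_lit 100, nat_lit 72, nat_lit 489916134⟩]⟩
noncomputable def p041_l37 : Lf2 := ⟨nat_lit 1, nat_lit 1, [nat_lit 19, nat_lit 5, nat_lit 5, nat_lit 20], false, nat_lit 160, nat_lit 360, nat_lit 0, nat_lit 360, zbN0,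
 nat_lit 0, nat_lit 0, nat_lit 0, nat_lit 0, nat_lit 0, nat_lit 0, nat_lit 0, nat_lit 0, nat_lit 0, nat_lit 0, nat_lit 0, nat_lit 0, nat_lit 0, nat_lit 0, nat_lit 0, nat_lit 0, nat_lit 0, nat_lit 0, [],
 C1.Rw.none, C1.Rw.none,
 zbF0, []⟩
noncomputable def p041_l38 : Lf2 := ⟨nat_lit 1, nat_lit 1, [nat_lit 19, nat_lit 5, nat_lit 5, nat_lit 20], false, nat_lit 160, nat_lit 240, nat_lit 0, nat_lit 348, zbN0,
 nat_lit 0, nat_lit 0, nat_lit 0, nat_lit 0, nat_lit 0, nat_lit 0, nat_lit 0, nat_lit 0, nat_lit 0, nat_lit 0, nat_lit 0, nat_lit 0, nat_lit 0, nat_lit 0, nat_lit 0, nat_lit 0, nat_lit 0, nat_lit 0, [],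
 C1.Rw.none, C1.Rw.none,
 zbF0, []⟩
noncomputable def p041_l39 : Lf2 := ⟨nat_lit 0, nat_lit 1, [nat_lit 19, nat_lit 5, nat_lit 5, nat_lit 20], true, nat_lit 160, nat_lit 240, nat_lit 0, nat_lit 348, ⟨nat_lit 0, nat_lit 0, nat_lit 1000, nat_lit 5, nat_lit 98, nat_lit 1000, nat_lit 140, nat_lit 1000, nat_lit 170017, nat_lit 316, nat_lit 88817, nat_lit 288, nat_lit 54939081, nat_lit 0, nat_lit 0, nat_lit 3131395, false, false⟩,
 nat_lit 0, nat_lit 10370, nat_lit 0, nat_lit 0, nat_lit 5222, nat_lit 0, nat_lit 0, nat_lit 0, nat_lit 0, nat_lit 0, nat_lit 0, nat_lit 0, nat_lit 0, nat_lit 23481467529735, nat_lit 53, nat_lit 1000000, nat_lit 0, nat_lit 0, [(nat_lit 3, [(nat_lit 6, nat_lit 1000)])],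
 ⟨p041_k2, nat_lit 0, nat_lit 0, nat_lit 197, nat_lit 0, nat_lit 60273, [nat_lit 2101142858, nat_lit 11600000], [], [nat_lit 11002523807, nat_lit 11689994637, nat_lit 9006145904, nat_lit 9630108874, nat_lit 15129895126, nat_lit 15697377438, nat_lit 13641903592, nat_lit 13309255106], nat_lit 1271250, nat_lit 1271250, nat_lit 21650, nat_lit 780000, nat_lit 1100001, nat_lit 1785000, [nat_lit 1412500, nat_lit 1271250], [nat_lit 26, nat_lit 40, nat_lit 40, nat_lit 80, nat_lit 2, nat_lit 373, nat_lit 150, nat_lit 12]⟩, C1.Rw.none,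
 ⟨nat_lit 6324, nat_lit 6520, ⟨.ofNat (nat_lit 108876), .ofNat (nat_lit 353021), .ofNat (nat_lit 130274), .ofNat (nat_lit 374419), .ofNat (nat_lit 118272), .ofNat (nat_lit 356838), .ofNat (nat_lit 139640), .ofNat (nat_lit 378206)⟩, ⟨.ofNat (nat_lit 244626), .ofNat (nat_lit 413002), .ofNat (nat_lit 287422), .ofNat (nat_lit 455798), .ofNat (nat_lit 246791), .ofNat (nat_lit 411320), .ofNat (nat_lit 289527), .ofNat (nat_lit 454055)⟩⟩, [⟨nat_lit 0, nat_lit 100, nat_lit 100, nat_lit 40, nat_lit 218415903⟩]⟩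
noncomputable def p041_l40 : Lf2 := ⟨nat_lit 0, nat_lit 1, [nat_lit 19, nat_lit 5, nat_lit 5, nat_lit 20], false, nat_lit 160, nat_lit 240, nat_lit 0, nat_lit 348, ⟨nat_lit 1000, nat_lit 0, nat_lit 0, nat_lit 0, nat_lit 0, nat_lit 0, nat_lit 0, nat_lit 0, nat_lit 0, nat_lit 0, nat_lit 0, nat_lit 0, nat_lit 0, nat_lit 0, nat_lit 0, nat_lit 0, false, false⟩,
 nat_lit 0, nat_lit 7307, nat_lit 0, nat_lit 13037, nat_lit 3494, nat_lit 8661, nat_lit 3806, nat_lit 0, nat_lit 0, nat_lit 0, nat_lit 0, nat_lit 0, nat_lit 0, nat_lit 7939076497379, nat_lit 0, nat_lit 0, nat_lit 0, nat_lit 0, [],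
 ⟨p041_k3, nat_lit 0, nat_lit 0, nat_lit 144, nat_lit 0, nat_lit 64968, [nat_lit 6250000000, nat_lit 7968000000], [], [nat_lit 33450370332, nat_lit 31574308960, nat_lit 28281481440, nat_lit 28949822896, nat_lit 27644443788, nat_lit 28295959708, nat_lit 30445309176, nat_lit 31018570504], nat_lit 1271250, nat_lit 1271250, nat_lit 780000, nat_lit 1762500, nat_lit 1100001, nat_lit 1785000, [nat_lit 1412500, nat_lit 1271250], [nat_lit 26, nat_lit 40, nat_lit 40, nat_lit 80, nat_lit 2, nat_lit 428, nat_lit 200, nat_lit 14]⟩, ⟨p041_k3, nat_lit 0, nat_lit 0, nat_lit 63, nat_lit 0, nat_lit 0, [nat_lit 6250000000, nat_lit 7968000000], [], [nat_lit 11690253606, nat_lit 13655523908, nat_lit 18250589808, nat_lit 19713158504, nat_lit 22981077939, nat_lit 23787370669, nat_lit 25296521534, nat_lit 26059061471], nat_lit 0, nat_lit 0, nat_lit 0, nat_lit 0, nat_lit 0, nat_lit 0, [], [nat_lit 26, nat_lit 40, nat_lit 40,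 nat_lit 80, nat_lit 2, nat_lit 456, nat_lit 225, nat_lit 15]⟩,
 zbF0, [⟨nat_lit 7, nat_lit 81, nat_lit 100, nat_lit 72, nat_lit 469302931⟩]⟩
noncomputable def p041_l41 : Lf2 := ⟨nat_lit 1, nat_lit 1, [nat_lit 19, nat_lit 5, nat_lit 5, nat_lit 20], false, nat_lit 240, nat_lit 320, nat_lit 0, nat_lit 160, zbN0,
 nat_lit 0, nat_lit 0, nat_lit 0, nat_lit 0, nat_lit 0, nat_lit 0, nat_lit 0, nat_lit 0, nat_lit 0, nat_lit 0, nat_lit 0, nat_lit 0, nat_lit 0, nat_lit 0, nat_lit 0, nat_lit 0, nat_lit 0, nat_lit 0, [],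
 C1.Rw.none, C1.Rw.none,
 zbF0, []⟩
noncomputable def p041_l42 : Lf2 := ⟨nat_lit 0, nat_lit 1, [nat_lit 19, nat_lit 5, nat_lit 5, nat_lit 20], false, nat_lit 240, nat_lit 320, nat_lit 0, nat_lit 160, ⟨nat_lit 1000, nat_lit 0, nat_lit 0, nat_lit 0, nat_lit 0, nat_lit 0, nat_lit 0, nat_lit 0, nat_lit 0, nat_lit 0, nat_lit 0, nat_lit 0, nat_lit 0, nat_lit 0, nat_lit 0, nat_lit 0, false, false⟩,
 nat_lit 0, nat_lit 17155, nat_lit 0, nat_lit 17477, nat_lit 8639, nat_lit 9518, nat_lit 3041, nat_lit 0, nat_lit 0, nat_lit 4011, nat_lit 0, nat_lit 0, nat_lit 0, nat_lit 7082616965389, nat_lit 0, nat_lit 0, nat_lit 0, nat_lit 0, [],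
 ⟨p041_k2, nat_lit 0, nat_lit 0, nat_lit 153, nat_lit 0, nat_lit 32505, [nat_lit 6250000000, nat_lit 7968000000], [], [nat_lit 20971015177, nat_lit 21451535763, nat_lit 17018111913, nat_lit 17533393216, nat_lit 26921077259, nat_lit 27308996425, nat_lit 22671591269, nat_lit 23040571408], nat_lit 1271250, nat_lit 1271250, nat_lit 43600, nat_lit 490000, nat_lit 1271250, nat_lit 1271250, [nat_lit 1412500, nat_lit 1271250], [nat_lit 26, nat_lit 40, nat_lit 40, nat_lit 80, nat_lit 2, nat_lit 317, nat_lit 100, nat_lit 10]⟩, ⟨p041_k2, nat_lit 0, nat_lit 0, nat_lit 172, nat_lit 0, nat_lit 0, [nat_lit 6250000000, nat_lit 7968000000], [], [nat_lit 20905072361, nat_lit 21675769290, nat_lit 15733510386, nat_lit 16568279024, nat_lit 15581162625, nat_lit 16303104626, nat_lit 11389264382, nat_lit 12069192880], nat_lit 0, nat_lit 0, nat_lit 0, nat_lit 0, nat_lit 0, nat_lit 0, [], [nat_lit 26, nat_lit 40, nat_lit 40,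 nat_lit 80, nat_lit 2, nat_lit 345, nat_lit 125, nat_lit 12]⟩,
 zbF0, [⟨nat_lit 0, nat_lit 100, nat_lit 100, nat_lit 40, nat_lit 1378244924⟩, ⟨nat_lit 4, nat_lit 83, nat_lit 100, nat_lit 73, nat_lit 835808477⟩]⟩
noncomputable def p041_l43 : Lf2 := ⟨nat_lit 0, nat_lit 1, [nat_lit 19, nat_lit 5, nat_lit 5, nat_lit 20], false, nat_lit 240, nat_lit 320, nat_lit 160, nat_lit 288, ⟨nat_lit 1000, nat_lit 0, nat_lit 0, nat_lit 0, nat_lit 0, nat_lit 0, nat_lit 0, nat_lit 0, nat_lit 0, nat_lit 0, nat_lit 0, nat_lit 0, nat_lit 0, nat_lit 0, nat_lit 0, nat_lit 0, false, false⟩,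
 nat_lit 0, nat_lit 21634, nat_lit 0, nat_lit 30272, nat_lit 10346, nat_lit 12889, nat_lit 4763, nat_lit 0, nat_lit 0, nat_lit 5934, nat_lit 0, nat_lit 0, nat_lit 0, nat_lit 0, nat_lit 0, nat_lit 0, nat_lit 0, nat_lit 0, [],
 ⟨p041_k3, nat_lit 0, nat_lit 0, nat_lit 160, nat_lit 0, nat_lit 34618, [nat_lit 6250000000, nat_lit 7968000000], [], [nat_lit 18370057122, nat_lit 19414770342, nat_lit 14833829462, nat_lit 15865302598, nat_lit 28791063805, nat_lit 30219448738, nat_lit 23282334048, nat_lit 24730948656], nat_lit 1271250, nat_lit 1271250, nat_lit 21650, nat_lit 230001, nat_lit 1271250, nat_lit 1271250, [nat_lit 1412500, nat_lit 1271250], [nat_lit 26, nat_lit 40, nat_lit 40, nat_lit 80, nat_lit 2, nat_lit 289, nat_lit 75, nat_lit 9]⟩, ⟨p041_k3, nat_lit 0, nat_lit 0, nat_lit 121, nat_lit 0, nat_lit 0, [nat_lit 6250000000, nat_lit 7968000000], [], [nat_lit 10234754533, nat_lit 12338665578, nat_lit 5389811702,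 nat_lit 6886046724, nat_lit 26497697613, nat_lit 28444455287, nat_lit 19581057476, nat_lit 21547989580], nat_lit 0, nat_lit 0, nat_lit 0, nat_lit 0, nat_lit 0, nat_lit 0, [], [nat_lit 26, nat_lit 40, nat_lit 40, nat_lit 80, nat_lit 2, nat_lit 373, nat_lit 150, nat_lit 12]⟩,
 zbF0, [⟨nat_lit 0, nat_lit 100, nat_lit 100, nat_lit 40, nat_lit 208765279⟩, ⟨nat_lit 23, nat_lit 92, nat_lit 100, nat_lit 46, nat_lit 1998681374⟩]⟩
noncomputable def p041_l44 : Lf2 := ⟨nat_lit 0, nat_lit 1, [nat_lit 19, nat_lit 5, nat_lit 5, nat_lit 20], false, nat_lit 240, nat_lit 320, nat_lit 160, nat_lit 336, ⟨nat_lit 1000, nat_lit 0, nat_lit 0, nat_lit 0, nat_lit 0, nat_lit 0, nat_lit 0, nat_lit 0, nat_lit 0, nat_lit 0, nat_lit 0, nat_lit 0, nat_lit 0, nat_lit 0, nat_lit 0, nat_lit 0, false, false⟩,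
 nat_lit 0, nat_lit 19933, nat_lit 0, nat_lit 0, nat_lit 9533, nat_lit 10329, nat_lit 0, nat_lit 0, nat_lit 0, nat_lit 0, nat_lit 0, nat_lit 0, nat_lit 0, nat_lit 0, nat_lit 0, nat_lit 0, nat_lit 0, nat_lit 0, [],
 ⟨p041_k3, nat_lit 0, nat_lit 0, nat_lit 142, nat_lit 0, nat_lit 34618, [nat_lit 6250000000, nat_lit 7968000000], [], [nat_lit 13541045112, nat_lit 15073309480, nat_lit 11771953756, nat_lit 13246175968, nat_lit 22663081704, nat_lit 24048243288, nat_lit 19988840184, nat_lit 21311779892], nat_lit 1271250, nat_lit 1271250, nat_lit 230001, nat_lit 490000, nat_lit 1271250, nat_lit 1271250, [nat_lit 1412500, nat_lit 1271250], [nat_lit 26, nat_lit 40, nat_lit 40, nat_lit 80, nat_lit 2, nat_lit 317, nat_lit 100, nat_lit 10]⟩, ⟨p041_k3, nat_lit 0, nat_lit 0, nat_lit 85, nat_lit 0, nat_lit 0, [nat_lit 6250000000, nat_lit 7968000000], [], [nat_lit 6830445176, nat_lit 8853240736, nat_lit 5055116794, nat_lit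 7000659904, nat_lit 26137630760, nat_lit 27447875084, nat_lit 23028889707, nat_lit 24316004418], nat_lit 0, nat_lit 0, nat_lit 0, nat_lit 0, nat_lit 0, nat_lit 0, [], [nat_lit 26, nat_lit 40, nat_lit 40, nat_lit 80, nat_lit 2, nat_lit 401, nat_lit 175, nat_lit 13]⟩,
 zbF0, [⟨nat_lit 11, nat_lit 100, nat_lit 94, nat_lit 63, nat_lit 1277722883⟩]⟩
noncomputable def p041_l45 : Lf2 := ⟨nat_lit 0, nat_lit 1, [nat_lit 19, nat_lit 5, nat_lit 5, nat_lit 20], true, nat_lit 240, nat_lit 320, nat_lit 0, nat_lit 348, ⟨nat_lit 0, nat_lit 1000, nat_lit 0, nat_lit 5, nat_lit 129, nat_lit 1000, nat_lit 207, nat_lit 0, nat_lit 0, nat_lit 0, nat_lit 0, nat_lit 0, nat_lit 46799463, nat_lit 6487097, nat_lit 13713440, nat_lit 4283246, false, false⟩,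
 nat_lit 0, nat_lit 13899, nat_lit 0, nat_lit 0, nat_lit 6647, nat_lit 0, nat_lit 0, nat_lit 0, nat_lit 0, nat_lit 0, nat_lit 0, nat_lit 0, nat_lit 0, nat_lit 0, nat_lit 0, nat_lit 1000000, nat_lit 0, nat_lit 0, [(nat_lit 3, [(nat_lit 2, nat_lit 1000)])],
 ⟨p041_k3, nat_lit 0, nat_lit 0, nat_lit 124, nat_lit 0, nat_lit 64968, [nat_lit 3292500000, nat_lit 2888400000], [], [nat_lit 12508730004, nat_lit 13723893312, nat_lit 12508144670, nat_lit 13658071948, nat_lit 19045052456, nat_lit 19942356912, nat_lit 18697583788, nat_lit 19548516896], nat_lit 1271250, nat_lit 1271250, nat_lit 490000, nat_lit 780000, nat_lit 1271250, nat_lit 1271250, [nat_lit 1412500, nat_lit 1271250], [nat_lit 26, nat_lit 40, nat_lit 40, nat_lit 80, nat_lit 2, nat_lit 317, nat_lit 100, nat_lit 10]⟩, C1.Rw.none,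
 ⟨nat_lit 6324, nat_lit 6709, ⟨.ofNat (nat_lit 262970), .ofNat (nat_lit 349126), .ofNat (nat_lit 284409), .ofNat (nat_lit 370564), .ofNat (nat_lit 274574), .ofNat (nat_lit 356838), .ofNat (nat_lit 295942), .ofNat (nat_lit 378206)⟩, ⟨.ofNat (nat_lit 414647), .ofNat (nat_lit 586925), .ofNat (nat_lit 457524), .ofNat (nat_lit 629788), .ofNat (nat_lit 411320), .ofNat (nat_lit 575816), .ofNat (nat_lit 454055), .ofNat (nat_lit 618537)⟩⟩, [⟨nat_lit 4, nat_lit 81, nat_lit 100, nat_lit 72, nat_lit 401548640⟩]⟩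
noncomputable def p041_l46 : Lf2 := ⟨nat_lit 0, nat_lit 1, [nat_lit 19, nat_lit 5, nat_lit 5, nat_lit 20], true, nat_lit 240, nat_lit 320, nat_lit 0, nat_lit 348, ⟨nat_lit 0, nat_lit 1000, nat_lit 0, nat_lit 5, nat_lit 196, nat_lit 1000, nat_lit 207, nat_lit 0, nat_lit 0, nat_lit 0, nat_lit 0, nat_lit 0, nat_lit 42182362, nat_lit 11849495, nat_lit 12968143, nat_lit 4934394, false, false⟩,
 nat_lit 0, nat_lit 15475, nat_lit 0, nat_lit 0, nat_lit 7401, nat_lit 0, nat_lit 0, nat_lit 0, nat_lit 0, nat_lit 0, nat_lit 0, nat_lit 0, nat_lit 0, nat_lit 0, nat_lit 0, nat_lit 1000000, nat_lit 0, nat_lit 0, [(nat_lit 3, [(nat_lit 2, nat_lit 1000)])],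
 ⟨p041_k3, nat_lit 0, nat_lit 0, nat_lit 104, nat_lit 0, nat_lit 64968, [nat_lit 3292500000, nat_lit 2888400000], [], [nat_lit 11439432610, nat_lit 12651394484, nat_lit 15455773286, nat_lit 16359743576, nat_lit 18487571704, nat_lit 19629233080, nat_lit 21851987970, nat_lit 22706000036], nat_lit 1271250, nat_lit 1271250, nat_lit 780000, nat_lit 1762500, nat_lit 1271250, nat_lit 1271250, [nat_lit 1412500, nat_lit 1271250], [nat_lit 26, nat_lit 40, nat_lit 40, nat_lit 80, nat_lit 2, nat_lit 345, nat_lit 125, nat_lit 11]⟩, C1.Rw.none,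
 ⟨nat_lit 6324, nat_lit 6709, ⟨.ofNat (nat_lit 349126), .ofNat (nat_lit 607557), .ofNat (nat_lit 370564), .ofNat (nat_lit 628989), .ofNat (nat_lit 356838), .ofNat (nat_lit 603596), .ofNat (nat_lit 378206), .ofNat (nat_lit 624956)⟩, ⟨.ofNat (nat_lit 414647), .ofNat (nat_lit 586925), .ofNat (nat_lit 457524), .ofNat (nat_lit 629788), .ofNat (nat_lit 411320), .ofNat (nat_lit 575816), .ofNat (nat_lit 454055), .ofNat (nat_lit 618537)⟩⟩, [⟨nat_lit 4, nat_lit 81, nat_lit 100, nat_lit 72, nat_lit 425624805⟩]⟩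
noncomputable def p041_l47 : Lf2 := ⟨nat_lit 0, nat_lit 1, [nat_lit 19, nat_lit 5, nat_lit 5, nat_lit 20], true, nat_lit 320, nat_lit 348, nat_lit 0, nat_lit 348, ⟨nat_lit 0, nat_lit 0, nat_lit 1000, nat_lit 5, nat_lit 147, nat_lit 1000, nat_lit 253, nat_lit 1000, nat_lit 108904, nat_lit 200, nat_lit 5598, nat_lit 203, nat_lit 41728433, nat_lit 0, nat_lit 0, nat_lit 4782218, false, false⟩,
 nat_lit 0, nat_lit 100000, nat_lit 0, nat_lit 100000, nat_lit 4234, nat_lit 0, nat_lit 0, nat_lit 0, nat_lit 0, nat_lit 0, nat_lit 0, nat_lit 0, nat_lit 0, nat_lit 0, nat_lit 53, nat_lit 1000000, nat_lit 0, nat_lit 0, [(nat_lit 3, [(nat_lit 6, nat_lit 1000)])],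
 ⟨p041_k3, nat_lit 0, nat_lit 0, nat_lit 178, nat_lit 0, nat_lit 64968, [nat_lit 2101142858, nat_lit 11600000], [], [nat_lit 20939579050, nat_lit 21585412664, nat_lit 21506892112, nat_lit 21974910116, nat_lit 23394357002, nat_lit 24244172425, nat_lit 23223591622, nat_lit 23872907936], nat_lit 1271250, nat_lit 1271250, nat_lit 21650, nat_lit 1697250, nat_lit 1271250, nat_lit 1271250, [nat_lit 1412500, nat_lit 1271250], [nat_lit 26, nat_lit 40, nat_lit 40, nat_lit 80, nat_lit 2, nat_lit 345, nat_lit 125, nat_lit 11]⟩, C1.Rw.none,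
 ⟨nat_lit 6324, nat_lit 6709, ⟨.ofNat (nat_lit 99275), .ofNat (nat_lit 607557), .ofNat (nat_lit 120713), .ofNat (nat_lit 628989), .ofNat (nat_lit 118272), .ofNat (nat_lit 603596), .ofNat (nat_lit 139640), .ofNat (nat_lit 624956)⟩, ⟨.ofNat (nat_lit 586925), .ofNat (nat_lit 647214), .ofNat (nat_lit 629788), .ofNat (nat_lit 690077), .ofNat (nat_lit 575816), .ofNat (nat_lit 633380), .ofNat (nat_lit 618537), .ofNat (nat_lit 676102)⟩⟩, [⟨nat_lit 0, nat_lit 100, nat_lit 100, nat_lit 40, nat_lit 69371265⟩, ⟨nat_lit 4, nat_lit 81, nat_lit 100, nat_lit 72, nat_lit 10284973232⟩]⟩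
noncomputable def p041_l48 : Lf2 := ⟨nat_lit 0, nat_lit 1, [nat_lit 19, nat_lit 5, nat_lit 5, nat_lit 20], false, nat_lit 0, nat_lit 360, nat_lit 0, nat_lit 360, ⟨nat_lit 1000, nat_lit 0, nat_lit 0, nat_lit 0, nat_lit 0, nat_lit 0, nat_lit 0, nat_lit 0, nat_lit 0, nat_lit 0, nat_lit 0, nat_lit 0, nat_lit 0, nat_lit 0, nat_lit 0, nat_lit 0, false, false⟩,
 nat_lit 0, nat_lit 20359, nat_lit 0, nat_lit 7614, nat_lit 8725, nat_lit 8288, nat_lit 0, nat_lit 0, nat_lit 0, nat_lit 0, nat_lit 0, nat_lit 0, nat_lit 0, nat_lit 20931832579645, nat_lit 0, nat_lit 0, nat_lit 0, nat_lit 0, [],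
 ⟨p041_k0, nat_lit 0, nat_lit 0, nat_lit 214, nat_lit 0, nat_lit 76354, [nat_lit 6250000000, nat_lit 7968000000], [], [nat_lit 23688044100, nat_lit 25623856600, nat_lit 39265988200, nat_lit 40660889200, nat_lit 37987409800, nat_lit 30185916150, nat_lit 37697362100, nat_lit 38039067950], nat_lit 1271250, nat_lit 1271250, nat_lit 1271250, nat_lit 1271250, nat_lit 0, nat_lit 2542500, [nat_lit 1412500, nat_lit 1271250], [nat_lit 26, nat_lit 40, nat_lit 40, nat_lit 80, nat_lit 2, nat_lit 373, nat_lit 150, nat_lit 12]⟩, ⟨p041_k0, nat_lit 0, nat_lit 0, nat_lit 191, nat_lit 0, nat_lit 0, [nat_lit 6250000000, nat_lit 7968000000], [], [nat_lit 24278607648, nat_lit 26172214688, nat_lit 38309959584, nat_lit 39566732096, nat_lit 28661479120, nat_lit 29278145616, nat_lit 37108130528, nat_lit 37478020256], nat_lit 0, nat_lit 0, nat_lit 0, nat_lit 0, nat_lit 0, nat_lit 0, [], [nat_lit 26, nat_lit 40, nat_lit 40, nat_lit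 80, nat_lit 2, nat_lit 373, nat_lit 150, nat_lit 12]⟩,
 zbF0, [⟨nat_lit 4, nat_lit 77, nat_lit 100, nat_lit 72, nat_lit 220599845⟩, ⟨nat_lit 7, nat_lit 77, nat_lit 100, nat_lit 72, nat_lit 230888957⟩]⟩
noncomputable def b_V_500_500_10_2 : St := ⟨true, nat_lit 1, nat_lit 0, nat_lit 1, nat_lit 80, nat_lit 200, nat_lit 240, nat_lit 200, nat_lit 240, nat_lit 0, nat_lit 400, nat_lit 40, nat_lit 80, nat_lit 0, nat_lit 360, nat_lit 0, nat_lit 360, nat_lit 0, nat_lit 4, nat_lit 0, nat_lit 0, nat_lit 0, nat_lit 0⟩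
theorem d_V_500_500_10_2 (h : EB TB.env) : Dead b_V_500_500_10_2 := chkB_sound0 h (T :=
(.spl (nat_lit 2) (nat_lit 240)
(.spl (nat_lit 4) (nat_lit 160)
(.spl (nat_lit 2) (nat_lit 120)
(.spl (nat_lit 1) (nat_lit 220)
(.leaf p041_l33)
(.ord (.trZ (nat_lit 0) (nat_lit 100) (nat_lit 100) (nat_lit 20) (nat_lit 4) (.trX (nat_lit 19) (nat_lit 100) (nat_lit 68) (nat_lit 80) (nat_lit 348) (.spl (nat_lit 2) (nat_lit 80)
(.leaf p041_l34)
(.leaf p041_l35))))))
(.leaf p041_l36))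
(.spl (nat_lit 1) (nat_lit 220)
(.leaf p041_l37)
(.ord (.trZ (nat_lit 0) (nat_lit 100) (nat_lit 100) (nat_lit 20) (nat_lit 4) (.trX (nat_lit 16) (nat_lit 100) (nat_lit 68) (nat_lit 80) (nat_lit 348) (.trX (nat_lit 19) (nat_lit 100) (nat_lit 68) (nat_lit 80) (nat_lit 348) (.spl (nat_lit 4) (nat_lit 240)
(.spl (nat_lit 2) (nat_lit 120)
(.spl (nat_lit 0) (nat_lit 230)
(.ord (.leaf p041_l38))
(.leaf p041_l39))
(.leaf p041_l40))
(.spl (nat_lit 4) (nat_lit 320)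
(.spl (nat_lit 2) (nat_lit 120)
(.spl (nat_lit 2) (nat_lit 80)
(.trX (nat_lit 23) (nat_lit 100) (nat_lit 76) (nat_lit 82) (nat_lit 336) (.spl (nat_lit 5) (nat_lit 160)
(.spl (nat_lit 1) (nat_lit 230)
(.leaf p041_l41)
(.ord (.trZ (nat_lit 0) (nat_lit 100) (nat_lit 100) (nat_lit 30) (nat_lit 8) (.leaf p041_l42))))
(.spl (nat_lit 2) (nat_lit 40)
(.trX (nat_lit 23) (nat_lit 100) (nat_lit 92) (nat_lit 61) (nat_lit 288) (.leaf p041_l43))
(.leaf p041_l44))))
(.leaf p041_l45))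
(.leaf p041_l46))
(.leaf p041_l47)))))))))
(.leaf p041_l48))) (by decide +kernel)
noncomputable def p041_l49 : Lf2 := ⟨nat_lit 1, nat_lit 1, [nat_lit 19, nat_lit 5, nat_lit 5, nat_lit 20], false, nat_lit 0, nat_lit 160, nat_lit 0, nat_lit 360, zbN0,
 nat_lit 0, nat_lit 0, nat_lit 0, nat_lit 0, nat_lit 0, nat_lit 0, nat_lit 0, nat_lit 0, nat_lit 0, nat_lit 0, nat_lit 0, nat_lit 0, nat_lit 0, nat_lit 0, nat_lit 0, nat_lit 0, nat_lit 0, nat_lit 0, [],
 C1.Rw.none, C1.Rw.none,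
 zbF0, []⟩
noncomputable def p041_l50 : Lf2 := ⟨nat_lit 1, nat_lit 1, [nat_lit 19, nat_lit 5, nat_lit 5, nat_lit 20], false, nat_lit 0, nat_lit 160, nat_lit 0, nat_lit 348, zbN0,
 nat_lit 0, nat_lit 0, nat_lit 0, nat_lit 0, nat_lit 0, nat_lit 0, nat_lit 0, nat_lit 0, nat_lit 0, nat_lit 0, nat_lit 0, nat_lit 0, nat_lit 0, nat_lit 0, nat_lit 0, nat_lit 0, nat_lit 0, nat_lit 0, [],
 C1.Rw.none, C1.Rw.none,
 zbF0, []⟩
noncomputable def p041_l51 : Lf2 := ⟨nat_lit 0, nat_lit 1, [nat_lit 19, nat_lit 5, nat_lit 5, nat_lit 20], false, nat_lit 0, nat_lit 160, nat_lit 0, nat_lit 344, ⟨nat_lit 0, nat_lit 0, nat_lit 1000, nat_lit 5, nat_lit 102, nat_lit 132, nat_lit 53, nat_lit 1000, nat_lit 15000, nat_lit 245, nat_lit 96267, nat_lit 291, nat_lit 62925869, nat_lit 0, nat_lit 0, nat_lit 1145917, false, false⟩,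
 nat_lit 9986, nat_lit 0, nat_lit 0, nat_lit 0, nat_lit 5029, nat_lit 0, nat_lit 0, nat_lit 0, nat_lit 0, nat_lit 0, nat_lit 0, nat_lit 0, nat_lit 0, nat_lit 26831951032860, nat_lit 53, nat_lit 1000000, nat_lit 0, nat_lit 0, [(nat_lit 3, [(nat_lit 6, nat_lit 1000)])],
 ⟨p041_k2, nat_lit 0, nat_lit 0, nat_lit 273, nat_lit 0, nat_lit 32505, [nat_lit 2101142858, nat_lit 11600000], [], [nat_lit 13777125031, nat_lit 14396641705, nat_lit 12011154553, nat_lit 12574459460, nat_lit 13671770285, nat_lit 13131178613, nat_lit 17153125747, nat_lit 15900185600], nat_lit 1271250, nat_lit 1271250, nat_lit 43600, nat_lit 780000, nat_lit 0, nat_lit 1100001, [nat_lit 1412500, nat_lit 1271250], [nat_lit 26, nat_lit 40, nat_lit 40, nat_lit 80, nat_lit 2, nat_lit 373, nat_lit 150, nat_lit 13]⟩, ⟨p041_k2, nat_lit 0, nat_lit 0, nat_lit 273, nat_lit 0, nat_lit 32505, [nat_lit 0, nat_lit 0], [], [nat_lit 0, nat_lit 0, nat_lit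 0, nat_lit 0, nat_lit 0, nat_lit 0, nat_lit 0, nat_lit 0], nat_lit 1271250, nat_lit 1271250, nat_lit 43600, nat_lit 780000, nat_lit 0, nat_lit 2429500, [nat_lit 1412500, nat_lit 1271250], [nat_lit 26, nat_lit 40, nat_lit 40, nat_lit 80, nat_lit 2, nat_lit 428, nat_lit 200, nat_lit 15]⟩,
 ⟨nat_lit 6324, nat_lit 6520, ⟨.ofNat (nat_lit 127994), .ofNat (nat_lit 363720), .ofNat (nat_lit 138693), .ofNat (nat_lit 374419), .ofNat (nat_lit 137182), .ofNat (nat_lit 367522), .ofNat (nat_lit 147866), .ofNat (nat_lit 378206)⟩, ⟨.negSucc (nat_lit 92125), .ofNat (nat_lit 244626), .negSucc (nat_lit 49329), .ofNat (nat_lit 287422), .negSucc (nat_lit 82265), .ofNat (nat_lit 246791), .negSucc (nat_lit 39529), .ofNat (nat_lit 289527)⟩⟩, []⟩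
noncomputable def p041_l52 : Lf2 := ⟨nat_lit 1, nat_lit 1, [nat_lit 19, nat_lit 5, nat_lit 5, nat_lit 20], false, nat_lit 0, nat_lit 80, nat_lit 0, nat_lit 360, zbN0,
 nat_lit 0, nat_lit 0, nat_lit 0, nat_lit 0, nat_lit 0, nat_lit 0, nat_lit 0, nat_lit 0, nat_lit 0, nat_lit 0, nat_lit 0, nat_lit 0, nat_lit 0, nat_lit 0, nat_lit 0, nat_lit 0, nat_lit 0, nat_lit 0, [],
 C1.Rw.none, C1.Rw.none,
 zbF0, []⟩
noncomputable def p041_l53 : Lf2 := ⟨nat_lit 0, nat_lit 1, [nat_lit 19, nat_lit 5, nat_lit 5, nat_lit 20], true, nat_lit 0, nat_lit 80, nat_lit 0, nat_lit 360, ⟨nat_lit 0, nat_lit 0, nat_lit 1000, nat_lit 5, nat_lit 158, nat_lit 0, nat_lit 20, nat_lit 0, nat_lit 267, nat_lit 219, nat_lit 138017, nat_lit 306, nat_lit 57953783, nat_lit 0, nat_lit 0, nat_lit 1979077, false, false⟩,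
 nat_lit 0, nat_lit 12745, nat_lit 0, nat_lit 0, nat_lit 6095, nat_lit 0, nat_lit 0, nat_lit 0, nat_lit 0, nat_lit 0, nat_lit 0, nat_lit 0, nat_lit 0, nat_lit 27736144411628, nat_lit 53, nat_lit 1000000, nat_lit 0, nat_lit 0, [(nat_lit 3, [(nat_lit 6, nat_lit 1000)])],
 ⟨p041_k3, nat_lit 0, nat_lit 0, nat_lit 224, nat_lit 0, nat_lit 64968, [nat_lit 2101142858, nat_lit 11600000], [], [nat_lit 8623375228, nat_lit 10218674518, nat_lit 9796743478, nat_lit 11287397398, nat_lit 5376310358, nat_lit 6901492818, nat_lit 6592774528, nat_lit 8015037578], nat_lit 1271250, nat_lit 1271250, nat_lit 780000, nat_lit 1100001, nat_lit 0, nat_lit 490000, [nat_lit 1412500, nat_lit 1271250], [nat_lit 26, nat_lit 40, nat_lit 40, nat_lit 80, nat_lit 2, nat_lit 345, nat_lit 125, nat_lit 12]⟩, C1.Rw.none,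
 ⟨nat_lit 6324, nat_lit 6709, ⟨.ofNat (nat_lit 327688), .ofNat (nat_lit 413843), .ofNat (nat_lit 370564), .ofNat (nat_lit 456720), .ofNat (nat_lit 335470), .ofNat (nat_lit 417734), .ofNat (nat_lit 378206), .ofNat (nat_lit 460470)⟩, ⟨.negSucc (nat_lit 102285), .ofNat (nat_lit 70025), .negSucc (nat_lit 59408), .ofNat (nat_lit 112902), .negSucc (nat_lit 82265), .ofNat (nat_lit 82263), .negSucc (nat_lit 39529), .ofNat (nat_lit 124999)⟩⟩, []⟩
noncomputable def p041_l54 : Lf2 := ⟨nat_lit 2, nat_lit 1, [nat_lit 19, nat_lit 5, nat_lit 5, nat_lit 20], true, nat_lit 80, nat_lit 160, nat_lit 0, nat_lit 360, zbN0,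
 nat_lit 0, nat_lit 0, nat_lit 0, nat_lit 0, nat_lit 0, nat_lit 0, nat_lit 0, nat_lit 0, nat_lit 0, nat_lit 0, nat_lit 0, nat_lit 0, nat_lit 0, nat_lit 0, nat_lit 0, nat_lit 0, nat_lit 0, nat_lit 0, [],
 ⟨p041_k0, nat_lit 0, nat_lit 0, nat_lit 195, nat_lit 0, nat_lit 76354, [], [], [], nat_lit 1271250, nat_lit 1271250, nat_lit 780000, nat_lit 1100001, nat_lit 490000, nat_lit 1100001, [nat_lit 1412500, nat_lit 1271250], [nat_lit 26, nat_lit 40, nat_lit 40, nat_lit 80, nat_lit 2, nat_lit 373, nat_lit 150, nat_lit 12]⟩, C1.Rw.none,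
 zbF0, []⟩
noncomputable def p041_l55 : Lf2 := ⟨nat_lit 0, nat_lit 1, [nat_lit 19, nat_lit 5, nat_lit 5, nat_lit 20], false, nat_lit 0, nat_lit 160, nat_lit 0, nat_lit 360, ⟨nat_lit 1000, nat_lit 0, nat_lit 0, nat_lit 0, nat_lit 0, nat_lit 0, nat_lit 0, nat_lit 0, nat_lit 0, nat_lit 0, nat_lit 0, nat_lit 0, nat_lit 0, nat_lit 0, nat_lit 0, nat_lit 0, false, false⟩,
 nat_lit 63195, nat_lit 0, nat_lit 0, nat_lit 13580, nat_lit 27083, nat_lit 4795, nat_lit 0, nat_lit 0, nat_lit 0, nat_lit 0, nat_lit 0, nat_lit 0, nat_lit 0, nat_lit 55718961801666, nat_lit 0, nat_lit 0, nat_lit 159062852, nat_lit 0, [],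
 ⟨p041_k0, nat_lit 0, nat_lit 0, nat_lit 212, nat_lit 0, nat_lit 39631, [nat_lit 6250000000, nat_lit 7968000000], [], [nat_lit 45289611064, nat_lit 17081149916, nat_lit 34364065288, nat_lit 30898033684, nat_lit 26607530852, nat_lit 0, nat_lit 50711572240, nat_lit 24837124032], nat_lit 1271250, nat_lit 1271250, nat_lit 1100001, nat_lit 1785000, nat_lit 0, nat_lit 1100001, [nat_lit 1412500, nat_lit 1271250], [nat_lit 26, nat_lit 40, nat_lit 40, nat_lit 80, nat_lit 2, nat_lit 401, nat_lit 175, nat_lit 13]⟩, ⟨p041_k0, nat_lit 0, nat_lit 0, nat_lit 212, nat_lit 0, nat_lit 39631, [nat_lit 6250000000, nat_lit 7968000000], [], [nat_lit 34736227380, nat_lit 34003822280, nat_lit 34920203140, nat_lit 36129465220, nat_lit 48637496150, nat_lit 44237076700, nat_lit 39893899960, nat_lit 39843652210], nat_lit 1271250, nat_lit 1271250, nat_lit 1271250, nat_lit 1271250, nat_lit 0, nat_lit 2542500, [nat_lit 1412500, nat_lit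 1271250], [nat_lit 26, nat_lit 40, nat_lit 40, nat_lit 80, nat_lit 2, nat_lit 456, nat_lit 225, nat_lit 15]⟩,
 zbF0, [⟨nat_lit 19, nat_lit 100, nat_lit 77, nat_lit 72, nat_lit 342822423⟩]⟩
noncomputable def p041_l56 : Lf2 := ⟨nat_lit 1, nat_lit 1, [nat_lit 19, nat_lit 5, nat_lit 5, nat_lit 20], false, nat_lit 160, nat_lit 344, nat_lit 0, nat_lit 344, zbN0,
 nat_lit 0, nat_lit 0, nat_lit 0, nat_lit 0, nat_lit 0, nat_lit 0, nat_lit 0, nat_lit 0, nat_lit 0, nat_lit 0, nat_lit 0, nat_lit 0, nat_lit 0, nat_lit 0, nat_lit 0, nat_lit 0, nat_lit 0, nat_lit 0, [],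
 C1.Rw.none, C1.Rw.none,
 zbF0, []⟩
noncomputable def p041_l57 : Lf2 := ⟨nat_lit 1, nat_lit 1, [nat_lit 19, nat_lit 5, nat_lit 5, nat_lit 20], false, nat_lit 160, nat_lit 332, nat_lit 0, nat_lit 332, zbN0,
 nat_lit 0, nat_lit 0, nat_lit 0, nat_lit 0, nat_lit 0, nat_lit 0, nat_lit 0, nat_lit 0, nat_lit 0, nat_lit 0, nat_lit 0, nat_lit 0, nat_lit 0, nat_lit 0, nat_lit 0, nat_lit 0, nat_lit 0, nat_lit 0, [],
 C1.Rw.none, C1.Rw.none,
 zbF0, []⟩
noncomputable def p041_l58 : Lf2 := ⟨nat_lit 0, nat_lit 1, [nat_lit 19, nat_lit 5, nat_lit 5, nat_lit 20], true, nat_lit 160, nat_lit 240, nat_lit 0, nat_lit 324, ⟨nat_lit 0, nat_lit 0, nat_lit 1000, nat_lit 5, nat_lit 118, nat_lit 1000, nat_lit 136, nat_lit 1000, nat_lit 173400, nat_lit 317, nat_lit 132017, nat_lit 304, nat_lit 53789102, nat_lit 0, nat_lit 0, nat_lit 3368345, false, false⟩,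
 nat_lit 0, nat_lit 10494, nat_lit 0, nat_lit 0, nat_lit 5285, nat_lit 0, nat_lit 0, nat_lit 0, nat_lit 0, nat_lit 0, nat_lit 0, nat_lit 0, nat_lit 0, nat_lit 25468482136097, nat_lit 53, nat_lit 1000000, nat_lit 0, nat_lit 0, [(nat_lit 3, [(nat_lit 6, nat_lit 1000)])],
 ⟨p041_k2, nat_lit 0, nat_lit 0, nat_lit 195, nat_lit 0, nat_lit 57959, [nat_lit 2101142858, nat_lit 11600000], [], [nat_lit 10741403398, nat_lit 11432195642, nat_lit 9922793833, nat_lit 10508684578, nat_lit 14886241930, nat_lit 15456152371, nat_lit 16165197983, nat_lit 14809442218], nat_lit 1271250, nat_lit 1271250, nat_lit 43600, nat_lit 1100001, nat_lit 1100001, nat_lit 1785000, [nat_lit 1412500, nat_lit 1271250], [nat_lit 26, nat_lit 40, nat_lit 40, nat_lit 80, nat_lit 2, nat_lit 401, nat_lit 175, nat_lit 13]⟩, C1.Rw.none,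
 ⟨nat_lit 6324, nat_lit 6520, ⟨.ofNat (nat_lit 127994), .ofNat (nat_lit 447908), .ofNat (nat_lit 138693), .ofNat (nat_lit 458607), .ofNat (nat_lit 137182), .ofNat (nat_lit 449786), .ofNat (nat_lit 147866), .ofNat (nat_lit 460470)⟩, ⟨.ofNat (nat_lit 244626), .ofNat (nat_lit 413002), .ofNat (nat_lit 266024), .ofNat (nat_lit 434400), .ofNat (nat_lit 246791), .ofNat (nat_lit 411320), .ofNat (nat_lit 268159), .ofNat (nat_lit 432688)⟩⟩, [⟨nat_lit 0, nat_lit 100, nat_lit 100, nat_lit 40, nat_lit 136873911⟩]⟩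
noncomputable def p041_l59 : Lf2 := ⟨nat_lit 0, nat_lit 1, [nat_lit 19, nat_lit 5, nat_lit 5, nat_lit 20], false, nat_lit 240, nat_lit 324, nat_lit 0, nat_lit 160, ⟨nat_lit 1000, nat_lit 0, nat_lit 0, nat_lit 0, nat_lit 0, nat_lit 0, nat_lit 0, nat_lit 0, nat_lit 0, nat_lit 0, nat_lit 0, nat_lit 0, nat_lit 0, nat_lit 0, nat_lit 0, nat_lit 0, false, false⟩,
 nat_lit 18898, nat_lit 0, nat_lit 0, nat_lit 15794, nat_lit 8580, nat_lit 9517, nat_lit 3037, nat_lit 0, nat_lit 0, nat_lit 4011, nat_lit 0, nat_lit 0, nat_lit 0, nat_lit 0, nat_lit 0, nat_lit 0, nat_lit 0, nat_lit 0, [],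
 ⟨p041_k2, nat_lit 0, nat_lit 0, nat_lit 153, nat_lit 0, nat_lit 30191, [nat_lit 6250000000, nat_lit 7968000000], [], [nat_lit 21056381289, nat_lit 21535990641, nat_lit 17139476860, nat_lit 17653107520, nat_lit 27354430648, nat_lit 27828962995, nat_lit 23119427749, nat_lit 23480029081], nat_lit 1271250, nat_lit 1271250, nat_lit 43600, nat_lit 490000, nat_lit 1271250, nat_lit 1271250, [nat_lit 1412500, nat_lit 1271250], [nat_lit 26, nat_lit 40, nat_lit 40, nat_lit 80, nat_lit 2, nat_lit 317, nat_lit 100, nat_lit 10]⟩, ⟨p041_k2, nat_lit 0, nat_lit 0, nat_lit 273, nat_lit 0, nat_lit 30191, [nat_lit 6250000000, nat_lit 7968000000], [], [nat_lit 20905629262, nat_lit 21676468463, nat_lit 15734934059, nat_lit 16569648856, nat_lit 17440987399, nat_lit 16304718747, nat_lit 18719751950, nat_lit 16314025656], nat_lit 1271250, nat_lit 1271250, nat_lit 43600, nat_lit 490000, nat_lit 0, nat_lit 1100001, [nat_lit 1412500,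 nat_lit 1271250], [nat_lit 26, nat_lit 40, nat_lit 40, nat_lit 80, nat_lit 2, nat_lit 345, nat_lit 125, nat_lit 12]⟩,
 zbF0, [⟨nat_lit 0, nat_lit 100, nat_lit 100, nat_lit 40, nat_lit 970768645⟩, ⟨nat_lit 4, nat_lit 87, nat_lit 100, nat_lit 67, nat_lit 924961465⟩]⟩
noncomputable def p041_l60 : Lf2 := ⟨nat_lit 0, nat_lit 1, [nat_lit 19, nat_lit 5, nat_lit 5, nat_lit 20], false, nat_lit 240, nat_lit 324, nat_lit 160, nat_lit 240, ⟨nat_lit 1000, nat_lit 0, nat_lit 0, nat_lit 0, nat_lit 0, nat_lit 0, nat_lit 0, nat_lit 0, nat_lit 0, nat_lit 0, nat_lit 0, nat_lit 0, nat_lit 0, nat_lit 0, nat_lit 0, nat_lit 0, false, false⟩,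
 nat_lit 21429, nat_lit 0, nat_lit 0, nat_lit 0, nat_lit 8788, nat_lit 10792, nat_lit 3053, nat_lit 0, nat_lit 0, nat_lit 0, nat_lit 0, nat_lit 0, nat_lit 0, nat_lit 0, nat_lit 0, nat_lit 0, nat_lit 0, nat_lit 0, [],
 ⟨p041_k2, nat_lit 0, nat_lit 0, nat_lit 153, nat_lit 0, nat_lit 30191, [nat_lit 6250000000, nat_lit 7968000000], [], [nat_lit 20753157536, nat_lit 21237265685, nat_lit 16711613996, nat_lit 17231063872, nat_lit 27479156013, nat_lit 28120233024, nat_lit 22777438953, nat_lit 23140690809], nat_lit 1271250, nat_lit 1271250, nat_lit 43600, nat_lit 490000, nat_lit 1271250, nat_lit 1271250, [nat_lit 1412500, nat_lit 1271250], [nat_lit 26, nat_lit 40, nat_lit 40, nat_lit 80, nat_lit 2, nat_lit 317, nat_lit 100, nat_lit 10]⟩, ⟨p041_k2, nat_lit 0, nat_lit 0, nat_lit 193, nat_lit 0, nat_lit 30191, [nat_lit 6250000000, nat_lit 7968000000], [], [nat_lit 11180119168, nat_lit 12230289421, nat_lit 5318748752,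 nat_lit 6320131392, nat_lit 17403082741, nat_lit 18482281530, nat_lit 10953965688, nat_lit 11747583232], nat_lit 1271250, nat_lit 1271250, nat_lit 43600, nat_lit 490000, nat_lit 1100001, nat_lit 1785000, [nat_lit 1412500, nat_lit 1271250], [nat_lit 26, nat_lit 40, nat_lit 40, nat_lit 80, nat_lit 2, nat_lit 373, nat_lit 150, nat_lit 12]⟩,
 zbF0, [⟨nat_lit 11, nat_lit 100, nat_lit 91, nat_lit 41, nat_lit 1596952325⟩]⟩
noncomputable def p041_l61 : Lf2 := ⟨nat_lit 0, nat_lit 1, [nat_lit 19, nat_lit 5, nat_lit 5, nat_lit 20], false, nat_lit 240, nat_lit 324, nat_lit 240, nat_lit 324, ⟨nat_lit 1000, nat_lit 0, nat_lit 0, nat_lit 0, nat_lit 0, nat_lit 0, nat_lit 0, nat_lit 0, nat_lit 0, nat_lit 0, nat_lit 0, nat_lit 0, nat_lit 0, nat_lit 0, nat_lit 0, nat_lit 0, false, false⟩,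
 nat_lit 21737, nat_lit 0, nat_lit 0, nat_lit 12182, nat_lit 10947, nat_lit 10947, nat_lit 3450, nat_lit 0, nat_lit 0, nat_lit 3450, nat_lit 0, nat_lit 0, nat_lit 0, nat_lit 0, nat_lit 0, nat_lit 0, nat_lit 0, nat_lit 0, [],
 ⟨p041_k2, nat_lit 0, nat_lit 0, nat_lit 149, nat_lit 0, nat_lit 30191, [nat_lit 6250000000, nat_lit 7968000000], [], [nat_lit 16683412667, nat_lit 17297397421, nat_lit 12270479749, nat_lit 12850331968, nat_lit 29122910189, nat_lit 29845089849, nat_lit 21954282730, nat_lit 22669538491], nat_lit 1271250, nat_lit 1271250, nat_lit 88400, nat_lit 490000, nat_lit 1271250, nat_lit 1271250, [nat_lit 1412500, nat_lit 1271250], [nat_lit 26, nat_lit 40, nat_lit 40, nat_lit 80, nat_lit 2, nat_lit 317, nat_lit 100, nat_lit 10]⟩, ⟨p041_k2, nat_lit 0, nat_lit 0, nat_lit 149, nat_lit 0, nat_lit 30191, [nat_lit 6250000000, nat_lit 7968000000], [], [nat_lit 16683412667, nat_lit 17297397421, nat_lit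 12270479749, nat_lit 12850331968, nat_lit 29122910189, nat_lit 29845089849, nat_lit 21954282730, nat_lit 22669538491], nat_lit 1271250, nat_lit 1271250, nat_lit 88400, nat_lit 490000, nat_lit 1271250, nat_lit 1271250, [nat_lit 1412500, nat_lit 1271250], [nat_lit 26, nat_lit 40, nat_lit 40, nat_lit 80, nat_lit 2, nat_lit 317, nat_lit 100, nat_lit 10]⟩,
 zbF0, [⟨nat_lit 11, nat_lit 100, nat_lit 100, nat_lit 69, nat_lit 1437666182⟩]⟩
noncomputable def p041_l62 : Lf2 := ⟨nat_lit 0, nat_lit 1, [nat_lit 19, nat_lit 5, nat_lit 5, nat_lit 20], true, nat_lit 240, nat_lit 324, nat_lit 0, nat_lit 324, ⟨nat_lit 0, nat_lit 1000, nat_lit 0, nat_lit 5, nat_lit 148, nat_lit 1000, nat_lit 204, nat_lit 0, nat_lit 0, nat_lit 0, nat_lit 0, nat_lit 0, nat_lit 45767761, nat_lit 8009694, nat_lit 13222545, nat_lit 4475581, false, false⟩,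
 nat_lit 0, nat_lit 17227, nat_lit 0, nat_lit 0, nat_lit 8676, nat_lit 0, nat_lit 0, nat_lit 0, nat_lit 0, nat_lit 0, nat_lit 0, nat_lit 0, nat_lit 0, nat_lit 0, nat_lit 0, nat_lit 1000000, nat_lit 0, nat_lit 0, [(nat_lit 3, [(nat_lit 2, nat_lit 1000)])],
 ⟨p041_k2, nat_lit 0, nat_lit 0, nat_lit 119, nat_lit 0, nat_lit 57959, [nat_lit 3292500000, nat_lit 2888400000], [], [nat_lit 10610119264, nat_lit 11308766496, nat_lit 10907917840, nat_lit 11675198544, nat_lit 20849641760, nat_lit 21481517982, nat_lit 20098406872, nat_lit 20658435013], nat_lit 1271250, nat_lit 1271250, nat_lit 490000, nat_lit 1100001, nat_lit 1271250, nat_lit 1271250, [nat_lit 1412500, nat_lit 1271250], [nat_lit 26, nat_lit 40, nat_lit 40, nat_lit 80, nat_lit 2, nat_lit 317, nat_lit 100, nat_lit 10]⟩, C1.Rw.none,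
 ⟨nat_lit 6324, nat_lit 6520, ⟨.ofNat (nat_lit 279532), .ofNat (nat_lit 447908), .ofNat (nat_lit 290231), .ofNat (nat_lit 458607), .ofNat (nat_lit 285258), .ofNat (nat_lit 449786), .ofNat (nat_lit 295942), .ofNat (nat_lit 460470)⟩, ⟨.ofNat (nat_lit 413002), .ofNat (nat_lit 589789), .ofNat (nat_lit 434400), .ofNat (nat_lit 611186), .ofNat (nat_lit 411320), .ofNat (nat_lit 584068), .ofNat (nat_lit 432688), .ofNat (nat_lit 605434)⟩⟩, [⟨nat_lit 4, nat_lit 87, nat_lit 100, nat_lit 67, nat_lit 769453722⟩]⟩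
noncomputable def p041_l63 : Lf2 := ⟨nat_lit 0, nat_lit 1, [nat_lit 19, nat_lit 5, nat_lit 5, nat_lit 20], false, nat_lit 160, nat_lit 324, nat_lit 0, nat_lit 160, ⟨nat_lit 1000, nat_lit 0, nat_lit 0, nat_lit 0, nat_lit 0, nat_lit 0, nat_lit 0, nat_lit 0, nat_lit 0, nat_lit 0, nat_lit 0, nat_lit 0, nat_lit 0, nat_lit 0, nat_lit 0, nat_lit 0, false, false⟩,
 nat_lit 22796, nat_lit 0, nat_lit 0, nat_lit 0, nat_lit 8501, nat_lit 11481, nat_lit 2324, nat_lit 0, nat_lit 0, nat_lit 0, nat_lit 0, nat_lit 0, nat_lit 0, nat_lit 27020703599860, nat_lit 0, nat_lit 0, nat_lit 0, nat_lit 0, [],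
 ⟨p041_k2, nat_lit 0, nat_lit 0, nat_lit 117, nat_lit 0, nat_lit 30191, [nat_lit 6250000000, nat_lit 7968000000], [], [nat_lit 32461973233, nat_lit 30214572364, nat_lit 24699085721, nat_lit 22518332692, nat_lit 22554419785, nat_lit 22820409779, nat_lit 24004185976, nat_lit 24238746015], nat_lit 1271250, nat_lit 1271250, nat_lit 1100001, nat_lit 1785000, nat_lit 1271250, nat_lit 1271250, [nat_lit 1412500, nat_lit 1271250], [nat_lit 26, nat_lit 40, nat_lit 40, nat_lit 80, nat_lit 2, nat_lit 456, nat_lit 225, nat_lit 14]⟩, ⟨p041_k2, nat_lit 0, nat_lit 0, nat_lit 197, nat_lit 0, nat_lit 30191, [nat_lit 6250000000, nat_lit 7968000000], [], [nat_lit 11635829684, nat_lit 12733228692, nat_lit 19075677302, nat_lit 20199757424, nat_lit 4891119035, nat_lit 5793978552, nat_lit 15241409225, nat_lit 12296199776], nat_lit 1271250, nat_lit 1271250, nat_lit 1100001, nat_lit 1785000, nat_lit 0, nat_lit 1100001, [nat_lit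 1412500, nat_lit 1271250], [nat_lit 26, nat_lit 40, nat_lit 40, nat_lit 80, nat_lit 2, nat_lit 401, nat_lit 175, nat_lit 13]⟩,
 zbF0, []⟩
noncomputable def p041_l64 : Lf2 := ⟨nat_lit 0, nat_lit 1, [nat_lit 19, nat_lit 5, nat_lit 5, nat_lit 20], false, nat_lit 160, nat_lit 324, nat_lit 160, nat_lit 324, ⟨nat_lit 1000, nat_lit 0, nat_lit 0, nat_lit 0, nat_lit 0, nat_lit 0, nat_lit 0, nat_lit 0, nat_lit 0, nat_lit 0, nat_lit 0, nat_lit 0, nat_lit 0, nat_lit 0, nat_lit 0, nat_lit 0, false, false⟩,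
 nat_lit 16880, nat_lit 0, nat_lit 0, nat_lit 23695, nat_lit 8501, nat_lit 8501, nat_lit 2324, nat_lit 0, nat_lit 0, nat_lit 2324, nat_lit 0, nat_lit 0, nat_lit 0, nat_lit 0, nat_lit 0, nat_lit 0, nat_lit 0, nat_lit 0, [],
 ⟨p041_k2, nat_lit 0, nat_lit 0, nat_lit 117, nat_lit 0, nat_lit 30191, [nat_lit 6250000000, nat_lit 7968000000], [], [nat_lit 32461973233, nat_lit 30214572364, nat_lit 24699085721, nat_lit 22518332692, nat_lit 22554419785, nat_lit 22820409779, nat_lit 24004185976, nat_lit 24238746015], nat_lit 1271250, nat_lit 1271250, nat_lit 1100001, nat_lit 1785000, nat_lit 1271250, nat_lit 1271250, [nat_lit 1412500, nat_lit 1271250], [nat_lit 26, nat_lit 40, nat_lit 40, nat_lit 80, nat_lit 2, nat_lit 456, nat_lit 225, nat_lit 14]⟩, ⟨p041_k2, nat_lit 0, nat_lit 0, nat_lit 117, nat_lit 0, nat_lit 30191, [nat_lit 6250000000, nat_lit 7968000000], [], [nat_lit 32461973233, nat_lit 30214572364, nat_lit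 24699085721, nat_lit 22518332692, nat_lit 22554419785, nat_lit 22820409779, nat_lit 24004185976, nat_lit 24238746015], nat_lit 1271250, nat_lit 1271250, nat_lit 1100001, nat_lit 1785000, nat_lit 1271250, nat_lit 1271250, [nat_lit 1412500, nat_lit 1271250], [nat_lit 26, nat_lit 40, nat_lit 40, nat_lit 80, nat_lit 2, nat_lit 456, nat_lit 225, nat_lit 14]⟩,
 zbF0, []⟩
noncomputable def p041_l65 : Lf2 := ⟨nat_lit 1, nat_lit 1, [nat_lit 19, nat_lit 5, nat_lit 5, nat_lit 20], false, nat_lit 160, nat_lit 360, nat_lit 0, nat_lit 360, zbN0,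
 nat_lit 0, nat_lit 0, nat_lit 0, nat_lit 0, nat_lit 0, nat_lit 0, nat_lit 0, nat_lit 0, nat_lit 0, nat_lit 0, nat_lit 0, nat_lit 0, nat_lit 0, nat_lit 0, nat_lit 0, nat_lit 0, nat_lit 0, nat_lit 0, [],
 C1.Rw.none, C1.Rw.none,
 zbF0, []⟩
noncomputable def p041_l66 : Lf2 := ⟨nat_lit 0, nat_lit 1, [nat_lit 19, nat_lit 5, nat_lit 5, nat_lit 20], false, nat_lit 0, nat_lit 360, nat_lit 0, nat_lit 360, ⟨nat_lit 1000, nat_lit 0, nat_lit 0, nat_lit 0, nat_lit 0, nat_lit 0, nat_lit 0, nat_lit 0, nat_lit 0, nat_lit 0, nat_lit 0, nat_lit 0, nat_lit 0, nat_lit 0, nat_lit 0, nat_lit 0, false, false⟩,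
 nat_lit 20511, nat_lit 0, nat_lit 0, nat_lit 23855, nat_lit 8790, nat_lit 8790, nat_lit 0, nat_lit 0, nat_lit 0, nat_lit 0, nat_lit 0, nat_lit 0, nat_lit 0, nat_lit 0, nat_lit 0, nat_lit 0, nat_lit 0, nat_lit 0, [],
 ⟨p041_k0, nat_lit 0, nat_lit 0, nat_lit 203, nat_lit 0, nat_lit 39631, [nat_lit 6250000000, nat_lit 7968000000], [], [nat_lit 23600202840, nat_lit 25542293040, nat_lit 39426818480, nat_lit 40823635680, nat_lit 37955877520, nat_lit 30096263860, nat_lit 37785005240, nat_lit 38122518980], nat_lit 1271250, nat_lit 1271250, nat_lit 1271250, nat_lit 1271250, nat_lit 0, nat_lit 2542500, [nat_lit 1412500, nat_lit 1271250], [nat_lit 26, nat_lit 40, nat_lit 40, nat_lit 80, nat_lit 2, nat_lit 373, nat_lit 150, nat_lit 12]⟩, ⟨p041_k0, nat_lit 0, nat_lit 0, nat_lit 203, nat_lit 0, nat_lit 39631, [nat_lit 6250000000, nat_lit 7968000000], [], [nat_lit 23600202840, nat_lit 25542293040, nat_lit 39426818480,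 nat_lit 40823635680, nat_lit 37955877520, nat_lit 30096263860, nat_lit 37785005240, nat_lit 38122518980], nat_lit 1271250, nat_lit 1271250, nat_lit 1271250, nat_lit 1271250, nat_lit 0, nat_lit 2542500, [nat_lit 1412500, nat_lit 1271250], [nat_lit 26, nat_lit 40, nat_lit 40, nat_lit 80, nat_lit 2, nat_lit 373, nat_lit 150, nat_lit 12]⟩,
 zbF0, [⟨nat_lit 4, nat_lit 77, nat_lit 100, nat_lit 72, nat_lit 219070621⟩, ⟨nat_lit 7, nat_lit 77, nat_lit 100, nat_lit 72, nat_lit 219070621⟩]⟩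
noncomputable def b_V_500_500_10_3 : St := ⟨true, nat_lit 1, nat_lit 1, nat_lit 1, nat_lit 80, nat_lit 200, nat_lit 240, nat_lit 200, nat_lit 240, nat_lit 0, nat_lit 400, nat_lit 40, nat_lit 80, nat_lit 0, nat_lit 360, nat_lit 0, nat_lit 360, nat_lit 0, nat_lit 4, nat_lit 0, nat_lit 0, nat_lit 0, nat_lit 0⟩
theorem d_V_500_500_10_3 (h : EB TB.env) : Dead b_V_500_500_10_3 := chkB_sound0 h (T :=
(.spl (nat_lit 2) (nat_lit 240)
(.spl (nat_lit 4) (nat_lit 160)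
(.spl (nat_lit 2) (nat_lit 120)
(.spl (nat_lit 1) (nat_lit 220)
(.leaf p041_l49)
(.ord (.trZ (nat_lit 0) (nat_lit 100) (nat_lit 100) (nat_lit 20) (nat_lit 4) (.trX (nat_lit 19) (nat_lit 100) (nat_lit 68) (nat_lit 80) (nat_lit 348) (.spl (nat_lit 1) (nat_lit 230)
(.leaf p041_l50)
(.ord (.trZ (nat_lit 0) (nat_lit 100) (nat_lit 100) (nat_lit 30) (nat_lit 8) (.trX (nat_lit 19) (nat_lit 100) (nat_lit 72) (nat_lit 81) (nat_lit 344) (.leaf p041_l51)))))))))
(.spl (nat_lit 2) (nat_lit 160)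
(.spl (nat_lit 4) (nat_lit 80)
(.spl (nat_lit 0) (nat_lit 220)
(.ord (.leaf p041_l52))
(.leaf p041_l53))
(.leaf p041_l54))
(.leaf p041_l55)))
(.spl (nat_lit 3) (nat_lit 60)
(.trX (nat_lit 16) (nat_lit 100) (nat_lit 70) (nat_lit 71) (nat_lit 344) (.trX (nat_lit 19) (nat_lit 100) (nat_lit 70) (nat_lit 71) (nat_lit 344) (.spl (nat_lit 1) (nat_lit 220)
(.leaf p041_l56)
(.ord (.trZ (nat_lit 0) (nat_lit 100) (nat_lit 100) (nat_lit 20) (nat_lit 4) (.trX (nat_lit 16) (nat_lit 100) (nat_lit 77) (nat_lit 72) (nat_lit 332) (.trX (nat_lit 19) (nat_lit 100) (nat_lit 77) (nat_lit 72) (nat_lit 332) (.spl (nat_lit 1) (nat_lit 230)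
(.leaf p041_l57)
(.ord (.trZ (nat_lit 0) (nat_lit 100) (nat_lit 100) (nat_lit 30) (nat_lit 8) (.trX (nat_lit 16) (nat_lit 100) (nat_lit 81) (nat_lit 72) (nat_lit 324) (.trX (nat_lit 19) (nat_lit 100) (nat_lit 81) (nat_lit 72) (nat_lit 324) (.spl (nat_lit 2) (nat_lit 160)
(.spl (nat_lit 4) (nat_lit 240)
(.leaf p041_l58)
(.spl (nat_lit 2) (nat_lit 80)
(.spl (nat_lit 5) (nat_lit 160)
(.leaf p041_l59)
(.spl (nat_lit 5) (nat_lit 240)
(.leaf p041_l60)
(.trZ (nat_lit 11) (nat_lit 100) (nat_lit 100) (nat_lit 40) (nat_lit 16) (.leaf p041_l61))))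
(.leaf p041_l62)))
(.spl (nat_lit 5) (nat_lit 160)
(.leaf p041_l63)
(.leaf p041_l64)))))))))))))))
(.leaf p041_l65)))
(.leaf p041_l66))) (by decide +kernel)
noncomputable def p041_l67 : Lf2 := ⟨nat_lit 0, nat_lit 1, [nat_lit 19, nat_lit 5, nat_lit 5, nat_lit 20], true, nat_lit 0, nat_lit 160, nat_lit 0, nat_lit 360, ⟨nat_lit 0, nat_lit 1000, nat_lit 0, nat_lit 5, nat_lit 88, nat_lit 1000, nat_lit 53, nat_lit 0, nat_lit 0, nat_lit 0, nat_lit 0, nat_lit 0, nat_lit 0, nat_lit 0, nat_lit 0, nat_lit 5000000, false, false⟩,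
 nat_lit 0, nat_lit 29992, nat_lit 0, nat_lit 0, nat_lit 12853, nat_lit 0, nat_lit 0, nat_lit 0, nat_lit 0, nat_lit 0, nat_lit 0, nat_lit 0, nat_lit 0, nat_lit 55088955239277, nat_lit 0, nat_lit 1000000, nat_lit 0, nat_lit 0, [(nat_lit 0, [(nat_lit 2, nat_lit 1000)]), (nat_lit 3, [(nat_lit 2, nat_lit 1000)])],
 ⟨p041_k0, nat_lit 0, nat_lit 0, nat_lit 295, nat_lit 0, nat_lit 76354, [nat_lit 3292500000, nat_lit 3405100000], [], [nat_lit 24077664224, nat_lit 29164018504, nat_lit 28305387176, nat_lit 15678034444, nat_lit 33409929856, nat_lit 20959023108, nat_lit 39788113944, nat_lit 27837343132], nat_lit 1271250, nat_lit 1271250, nat_lit 0, nat_lit 780000, nat_lit 0, nat_lit 1100001, [nat_lit 1412500, nat_lit 1271250], [nat_lit 26, nat_lit 40, nat_lit 40, nat_lit 80, nat_lit 2, nat_lit 373, nat_lit 150, nat_lit 13]⟩, C1.Rw.none,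
 ⟨nat_lit 6324, nat_lit 7072, ⟨.ofNat (nat_lit 48812), .ofNat (nat_lit 319525), .ofNat (nat_lit 91909), .ofNat (nat_lit 362621), .ofNat (nat_lit 88675), .ofNat (nat_lit 335470), .ofNat (nat_lit 131412), .ofNat (nat_lit 378206)⟩, ⟨.negSucc (nat_lit 123573), .ofNat (nat_lit 237375), .negSucc (nat_lit 80477), .ofNat (nat_lit 280472), .negSucc (nat_lit 82267), .ofNat (nat_lit 246790), .negSucc (nat_lit 39532), .ofNat (nat_lit 289527)⟩⟩, []⟩
noncomputable def p041_l68 : Lf2 := ⟨nat_lit 0, nat_lit 1, [nat_lit 19, nat_lit 5, nat_lit 5, nat_lit 20], true, nat_lit 160, nat_lit 240, nat_lit 0, nat_lit 360, ⟨nat_lit 0, nat_lit 1000, nat_lit 0, nat_lit 5, nat_lit 88, nat_lit 1000, nat_lit 140, nat_lit 0, nat_lit 0, nat_lit 0, nat_lit 0, nat_lit 0, nat_lit 0, nat_lit 0, nat_lit 0, nat_lit 5000000, false, false⟩,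
 nat_lit 0, nat_lit 29372, nat_lit 0, nat_lit 0, nat_lit 12587, nat_lit 0, nat_lit 0, nat_lit 0, nat_lit 0, nat_lit 0, nat_lit 0, nat_lit 0, nat_lit 0, nat_lit 39061237925163, nat_lit 0, nat_lit 1000000, nat_lit 0, nat_lit 0, [(nat_lit 0, [(nat_lit 2, nat_lit 1000)]), (nat_lit 3, [(nat_lit 2, nat_lit 1000)])],
 ⟨p041_k0, nat_lit 0, nat_lit 0, nat_lit 215, nat_lit 0, nat_lit 76354, [nat_lit 3292500000, nat_lit 3405100000], [], [nat_lit 32455135668, nat_lit 19345070296, nat_lit 20672529416, nat_lit 8128677652, nat_lit 28236483204, nat_lit 20946864848, nat_lit 32990980676, nat_lit 20797752384], nat_lit 1271250, nat_lit 1271250, nat_lit 0, nat_lit 780000, nat_lit 1100001, nat_lit 1785000, [nat_lit 1412500, nat_lit 1271250], [nat_lit 26, nat_lit 40, nat_lit 40, nat_lit 80, nat_lit 2, nat_lit 373, nat_lit 150, nat_lit 12]⟩, C1.Rw.none,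
 ⟨nat_lit 6324, nat_lit 7072, ⟨.ofNat (nat_lit 48812), .ofNat (nat_lit 319525), .ofNat (nat_lit 91909), .ofNat (nat_lit 362621), .ofNat (nat_lit 88675), .ofNat (nat_lit 335470), .ofNat (nat_lit 131412), .ofNat (nat_lit 378206)⟩, ⟨.ofNat (nat_lit 237375), .ofNat (nat_lit 417850), .ofNat (nat_lit 280472), .ofNat (nat_lit 460946), .ofNat (nat_lit 246790), .ofNat (nat_lit 411320), .ofNat (nat_lit 289527), .ofNat (nat_lit 454055)⟩⟩, []⟩
noncomputable def p041_l69 : Lf2 := ⟨nat_lit 0, nat_lit 1, [nat_lit 19, nat_lit 5, nat_lit 5, nat_lit 20], true, nat_lit 240, nat_lit 360, nat_lit 0, nat_lit 360, ⟨nat_lit 0, nat_lit 1000, nat_lit 0, nat_lit 5, nat_lit 88, nat_lit 1000, nat_lit 226, nat_lit 0, nat_lit 0, nat_lit 0, nat_lit 0, nat_lit 0, nat_lit 0, nat_lit 0, nat_lit 0, nat_lit 5000000, false, false⟩,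
 nat_lit 0, nat_lit 14085, nat_lit 0, nat_lit 0, nat_lit 6036, nat_lit 0, nat_lit 0, nat_lit 0, nat_lit 0, nat_lit 0, nat_lit 0, nat_lit 0, nat_lit 0, nat_lit 9482300151096, nat_lit 0, nat_lit 1000000, nat_lit 0, nat_lit 0, [(nat_lit 0, [(nat_lit 2, nat_lit 1000)]), (nat_lit 3, [(nat_lit 2, nat_lit 1000)])],
 ⟨p041_k0, nat_lit 0, nat_lit 0, nat_lit 193, nat_lit 0, nat_lit 76354, [nat_lit 3292500000, nat_lit 3405100000], [], [nat_lit 19801569456, nat_lit 21477678336, nat_lit 17657127728, nat_lit 18470146752, nat_lit 27896462696, nat_lit 29197729360, nat_lit 23895857728, nat_lit 24827189424], nat_lit 1271250, nat_lit 1271250, nat_lit 0, nat_lit 780000, nat_lit 1271250, nat_lit 1271250, [nat_lit 1412500, nat_lit 1271250], [nat_lit 26, nat_lit 40, nat_lit 40, nat_lit 80, nat_lit 2, nat_lit 317, nat_lit 100, nat_lit 10]⟩, C1.Rw.none,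
 ⟨nat_lit 6324, nat_lit 7072, ⟨.ofNat (nat_lit 48812), .ofNat (nat_lit 319525), .ofNat (nat_lit 91909), .ofNat (nat_lit 362621), .ofNat (nat_lit 88675), .ofNat (nat_lit 335470), .ofNat (nat_lit 131412), .ofNat (nat_lit 378206)⟩, ⟨.ofNat (nat_lit 417850), .ofNat (nat_lit 688265), .ofNat (nat_lit 460946), .ofNat (nat_lit 731310), .ofNat (nat_lit 411320), .ofNat (nat_lit 657817), .ofNat (nat_lit 454055), .ofNat (nat_lit 700501)⟩⟩, [⟨nat_lit 0, nat_lit 100, nat_lit 100, nat_lit 40, nat_lit 119060146⟩, ⟨nat_lit 16, nat_lit 100, nat_lit 77, nat_lit 72, nat_lit 550846293⟩]⟩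
noncomputable def p041_l70 : Lf2 := ⟨nat_lit 1, nat_lit 1, [nat_lit 19, nat_lit 5, nat_lit 5, nat_lit 20], false, nat_lit 0, nat_lit 160, nat_lit 0, nat_lit 360, zbN0,
 nat_lit 0, nat_lit 0, nat_lit 0, nat_lit 0, nat_lit 0, nat_lit 0, nat_lit 0, nat_lit 0, nat_lit 0, nat_lit 0, nat_lit 0, nat_lit 0, nat_lit 0, nat_lit 0, nat_lit 0, nat_lit 0, nat_lit 0, nat_lit 0, [],
 C1.Rw.none, C1.Rw.none,
 zbF0, []⟩
noncomputable def p041_l71 : Lf2 := ⟨nat_lit 0, nat_lit 1, [nat_lit 19, nat_lit 5, nat_lit 5, nat_lit 20], false, nat_lit 0, nat_lit 160, nat_lit 0, nat_lit 348, ⟨nat_lit 1000, nat_lit 0, nat_lit 0, nat_lit 0, nat_lit 0, nat_lit 0, nat_lit 0, nat_lit 0, nat_lit 0, nat_lit 0, nat_lit 0, nat_lit 0, nat_lit 0, nat_lit 0, nat_lit 0, nat_lit 0, false, false⟩,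
 nat_lit 0, nat_lit 10875, nat_lit 0, nat_lit 11752, nat_lit 5201, nat_lit 8554, nat_lit 1266, nat_lit 0, nat_lit 0, nat_lit 3443, nat_lit 0, nat_lit 0, nat_lit 0, nat_lit 13915450107703, nat_lit 0, nat_lit 0, nat_lit 0, nat_lit 0, [],
 ⟨p041_k3, nat_lit 0, nat_lit 0, nat_lit 224, nat_lit 0, nat_lit 64968, [nat_lit 6250000000, nat_lit 7968000000], [], [nat_lit 37675537502, nat_lit 34925571164, nat_lit 42984877944, nat_lit 41435377380, nat_lit 29579300362, nat_lit 30238327456, nat_lit 50920251292, nat_lit 48565196884], nat_lit 1271250, nat_lit 1271250, nat_lit 780000, nat_lit 3072500, nat_lit 0, nat_lit 1100001, [nat_lit 1412500, nat_lit 1271250], [nat_lit 26, nat_lit 40, nat_lit 40, nat_lit 80, nat_lit 2, nat_lit 428, nat_lit 200, nat_lit 14]⟩, ⟨p041_k3, nat_lit 0, nat_lit 0, nat_lit 191, nat_lit 0, nat_lit 0, [nat_lit 6250000000, nat_lit 7968000000], [], [nat_lit 17997800690, nat_lit 19304624486, nat_lit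 39537810808, nat_lit 40232740768, nat_lit 24218778321, nat_lit 24726372684, nat_lit 36824336017, nat_lit 37035846487], nat_lit 0, nat_lit 0, nat_lit 0, nat_lit 0, nat_lit 0, nat_lit 0, [], [nat_lit 26, nat_lit 40, nat_lit 40, nat_lit 80, nat_lit 2, nat_lit 483, nat_lit 250, nat_lit 16]⟩,
 zbF0, [⟨nat_lit 7, nat_lit 81, nat_lit 100, nat_lit 72, nat_lit 203303867⟩]⟩
noncomputable def p041_l72 : Lf2 := ⟨nat_lit 0, nat_lit 1, [nat_lit 19, nat_lit 5, nat_lit 5, nat_lit 20], true, nat_lit 160, nat_lit 360, nat_lit 0, nat_lit 360, ⟨nat_lit 0, nat_lit 1000, nat_lit 0, nat_lit 5, nat_lit 191, nat_lit 1000, nat_lit 192, nat_lit 0, nat_lit 0, nat_lit 0, nat_lit 0, nat_lit 0, nat_lit 0, nat_lit 0, nat_lit 0, nat_lit 5000000, false, false⟩,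
 nat_lit 0, nat_lit 11748, nat_lit 0, nat_lit 2869, nat_lit 5034, nat_lit 0, nat_lit 0, nat_lit 0, nat_lit 0, nat_lit 0, nat_lit 0, nat_lit 0, nat_lit 0, nat_lit 27429239607755, nat_lit 0, nat_lit 1000000, nat_lit 0, nat_lit 0, [(nat_lit 0, [(nat_lit 2, nat_lit 1000)]), (nat_lit 3, [(nat_lit 2, nat_lit 1000)])],
 ⟨p041_k0, nat_lit 0, nat_lit 0, nat_lit 155, nat_lit 0, nat_lit 76354, [nat_lit 3292500000, nat_lit 3405100000], [], [nat_lit 36369414344, nat_lit 30963522560, nat_lit 26129295472, nat_lit 21026114992, nat_lit 25488488632, nat_lit 26417880456, nat_lit 26976347160, nat_lit 27686266788], nat_lit 1271250, nat_lit 1271250, nat_lit 780000, nat_lit 1762500, nat_lit 1271250, nat_lit 1271250, [nat_lit 1412500, nat_lit 1271250], [nat_lit 26, nat_lit 40, nat_lit 40, nat_lit 80, nat_lit 2, nat_lit 456, nat_lit 225, nat_lit 15]⟩, C1.Rw.none,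
 ⟨nat_lit 6324, nat_lit 7072, ⟨.ofNat (nat_lit 319525), .ofNat (nat_lit 590110), .ofNat (nat_lit 362621), .ofNat (nat_lit 633154), .ofNat (nat_lit 335470), .ofNat (nat_lit 582138), .ofNat (nat_lit 378206), .ofNat (nat_lit 624821)⟩, ⟨.ofNat (nat_lit 237375), .ofNat (nat_lit 688265), .ofNat (nat_lit 280472), .ofNat (nat_lit 731310), .ofNat (nat_lit 246790), .ofNat (nat_lit 657817), .ofNat (nat_lit 289527), .ofNat (nat_lit 700501)⟩⟩, []⟩
noncomputable def p041_l73 : Lf2 := ⟨nat_lit 0, nat_lit 1, [nat_lit 19, nat_lit 5, nat_lit 5, nat_lit 20], false, nat_lit 160, nat_lit 360, nat_lit 0, nat_lit 360, ⟨nat_lit 1000, nat_lit 0, nat_lit 0, nat_lit 0, nat_lit 0, nat_lit 0, nat_lit 0, nat_lit 0, nat_lit 0, nat_lit 0, nat_lit 0, nat_lit 0, nat_lit 0, nat_lit 0, nat_lit 0, nat_lit 0, false, false⟩,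
 nat_lit 0, nat_lit 19339, nat_lit 0, nat_lit 0, nat_lit 8288, nat_lit 8176, nat_lit 0, nat_lit 0, nat_lit 0, nat_lit 0, nat_lit 0, nat_lit 0, nat_lit 0, nat_lit 0, nat_lit 0, nat_lit 0, nat_lit 0, nat_lit 0, [],
 ⟨p041_k0, nat_lit 0, nat_lit 0, nat_lit 130, nat_lit 0, nat_lit 76354, [nat_lit 6250000000, nat_lit 7968000000], [], [nat_lit 21482820704, nat_lit 21466097344, nat_lit 30670039488, nat_lit 31533427136, nat_lit 28661479120, nat_lit 29278145616, nat_lit 37108130528, nat_lit 37478020256], nat_lit 1271250, nat_lit 1271250, nat_lit 1271250, nat_lit 1271250, nat_lit 1271250, nat_lit 1271250, [nat_lit 1412500, nat_lit 1271250], [nat_lit 26, nat_lit 40, nat_lit 40, nat_lit 80, nat_lit 2, nat_lit 373, nat_lit 150, nat_lit 11]⟩, ⟨p041_k0, nat_lit 0, nat_lit 0, nat_lit 191, nat_lit 0, nat_lit 0, [nat_lit 6250000000, nat_lit 7968000000], [], [nat_lit 24429964896, nat_lit 26312754976, nat_lit 38204559968,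 nat_lit 39286307392, nat_lit 28862324240, nat_lit 29482200432, nat_lit 36957114656, nat_lit 37334227712], nat_lit 0, nat_lit 0, nat_lit 0, nat_lit 0, nat_lit 0, nat_lit 0, [], [nat_lit 26, nat_lit 40, nat_lit 40, nat_lit 80, nat_lit 2, nat_lit 373, nat_lit 150, nat_lit 12]⟩,
 zbF0, [⟨nat_lit 4, nat_lit 77, nat_lit 100, nat_lit 72, nat_lit 531756918⟩, ⟨nat_lit 7, nat_lit 77, nat_lit 100, nat_lit 72, nat_lit 233511500⟩]⟩
noncomputable def p041_l74 : Lf2 := ⟨nat_lit 0, nat_lit 1, [nat_lit 19, nat_lit 5, nat_lit 5, nat_lit 20], false, nat_lit 0, nat_lit 160, nat_lit 0, nat_lit 360, ⟨nat_lit 0, nat_lit 1000, nat_lit 0, nat_lit 5, nat_lit 140, nat_lit 1000, nat_lit 53, nat_lit 0, nat_lit 0, nat_lit 0, nat_lit 0, nat_lit 0, nat_lit 0, nat_lit 0, nat_lit 0, nat_lit 5000000, false, false⟩,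
 nat_lit 4798, nat_lit 0, nat_lit 0, nat_lit 5271, nat_lit 2056, nat_lit 0, nat_lit 0, nat_lit 0, nat_lit 0, nat_lit 0, nat_lit 0, nat_lit 0, nat_lit 0, nat_lit 21440722493630, nat_lit 0, nat_lit 1000000, nat_lit 0, nat_lit 0, [(nat_lit 0, [(nat_lit 2, nat_lit 1000)]), (nat_lit 3, [(nat_lit 2, nat_lit 1000)])],
 ⟨p041_k0, nat_lit 0, nat_lit 0, nat_lit 292, nat_lit 0, nat_lit 39631, [nat_lit 3292500000, nat_lit 3405100000], [], [nat_lit 36447043648, nat_lit 34168568000, nat_lit 30589462752, nat_lit 31666639296, nat_lit 28446106816, nat_lit 29660778304, nat_lit 32404438816, nat_lit 32609128160], nat_lit 1271250, nat_lit 1271250, nat_lit 0, nat_lit 1695000, nat_lit 0, nat_lit 1100001, [nat_lit 1412500, nat_lit 1271250], [nat_lit 26, nat_lit 40, nat_lit 40, nat_lit 80, nat_lit 2, nat_lit 401, nat_lit 175, nat_lit 14]⟩, ⟨p041_k0, nat_lit 0, nat_lit 0, nat_lit 292, nat_lit 0, nat_lit 39631, [nat_lit 0, nat_lit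 0], [], [nat_lit 0, nat_lit 0, nat_lit 0, nat_lit 0, nat_lit 0, nat_lit 0, nat_lit 0, nat_lit 0], nat_lit 1271250, nat_lit 1271250, nat_lit 0, nat_lit 1695000, nat_lit 0, nat_lit 2542500, [nat_lit 1412500, nat_lit 1271250], [nat_lit 26, nat_lit 40, nat_lit 40, nat_lit 80, nat_lit 2, nat_lit 456, nat_lit 225, nat_lit 16]⟩,
 ⟨nat_lit 6324, nat_lit 7072, ⟨.ofNat (nat_lit 48812), .ofNat (nat_lit 590110), .ofNat (nat_lit 91909), .ofNat (nat_lit 633154), .ofNat (nat_lit 88675), .ofNat (nat_lit 582138), .ofNat (nat_lit 131412), .ofNat (nat_lit 624821)⟩, ⟨.negSucc (nat_lit 123573), .ofNat (nat_lit 237375), .negSucc (nat_lit 80477), .ofNat (nat_lit 280472), .negSucc (nat_lit 82267), .ofNat (nat_lit 246790), .negSucc (nat_lit 39532), .ofNat (nat_lit 289527)⟩⟩, []⟩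
noncomputable def p041_l75 : Lf2 := ⟨nat_lit 0, nat_lit 1, [nat_lit 19, nat_lit 5, nat_lit 5, nat_lit 20], true, nat_lit 160, nat_lit 360, nat_lit 0, nat_lit 360, ⟨nat_lit 0, nat_lit 1000, nat_lit 0, nat_lit 5, nat_lit 140, nat_lit 1000, nat_lit 192, nat_lit 0, nat_lit 0, nat_lit 0, nat_lit 0, nat_lit 0, nat_lit 0, nat_lit 0, nat_lit 0, nat_lit 5000000, false, false⟩,
 nat_lit 0, nat_lit 12708, nat_lit 0, nat_lit 549, nat_lit 5446, nat_lit 0, nat_lit 0, nat_lit 0, nat_lit 0, nat_lit 0, nat_lit 0, nat_lit 0, nat_lit 0, nat_lit 26347522889769, nat_lit 0, nat_lit 1000000, nat_lit 0, nat_lit 0, [(nat_lit 0, [(nat_lit 2, nat_lit 1000)]), (nat_lit 3, [(nat_lit 2, nat_lit 1000)])],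
 ⟨p041_k0, nat_lit 0, nat_lit 0, nat_lit 215, nat_lit 0, nat_lit 76354, [nat_lit 3292500000, nat_lit 3405100000], [], [nat_lit 29124830344, nat_lit 23452516368, nat_lit 37107517072, nat_lit 31904539376, nat_lit 28743930784, nat_lit 29530024040, nat_lit 26954463624, nat_lit 27471627348], nat_lit 1271250, nat_lit 1271250, nat_lit 0, nat_lit 1695000, nat_lit 1271250, nat_lit 1271250, [nat_lit 1412500, nat_lit 1271250], [nat_lit 26, nat_lit 40, nat_lit 40, nat_lit 80, nat_lit 2, nat_lit 456, nat_lit 225, nat_lit 15]⟩, C1.Rw.none,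
 ⟨nat_lit 6324, nat_lit 7072, ⟨.ofNat (nat_lit 48812), .ofNat (nat_lit 590110), .ofNat (nat_lit 91909), .ofNat (nat_lit 633154), .ofNat (nat_lit 88675), .ofNat (nat_lit 582138), .ofNat (nat_lit 131412), .ofNat (nat_lit 624821)⟩, ⟨.ofNat (nat_lit 237375), .ofNat (nat_lit 688265), .ofNat (nat_lit 280472), .ofNat (nat_lit 731310), .ofNat (nat_lit 246790), .ofNat (nat_lit 657817), .ofNat (nat_lit 289527), .ofNat (nat_lit 700501)⟩⟩, []⟩
noncomputable def p041_l76 : Lf2 := ⟨nat_lit 0, nat_lit 1, [nat_lit 19, nat_lit 5, nat_lit 5, nat_lit 20], false, nat_lit 0, nat_lit 360, nat_lit 0, nat_lit 360, ⟨nat_lit 1000, nat_lit 0, nat_lit 0, nat_lit 0, nat_lit 0, nat_lit 0, nat_lit 0, nat_lit 0, nat_lit 0, nat_lit 0, nat_lit 0, nat_lit 0, nat_lit 0, nat_lit 0, nat_lit 0, nat_lit 0, false, false⟩,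
 nat_lit 20511, nat_lit 0, nat_lit 0, nat_lit 23855, nat_lit 8790, nat_lit 8790, nat_lit 0, nat_lit 0, nat_lit 0, nat_lit 0, nat_lit 0, nat_lit 0, nat_lit 0, nat_lit 0, nat_lit 0, nat_lit 0, nat_lit 0, nat_lit 0, [],
 ⟨p041_k0, nat_lit 0, nat_lit 0, nat_lit 203, nat_lit 0, nat_lit 39631, [nat_lit 6250000000, nat_lit 7968000000], [], [nat_lit 23600202840, nat_lit 25542293040, nat_lit 39426818480, nat_lit 40823635680, nat_lit 37955877520, nat_lit 30096263860, nat_lit 37785005240, nat_lit 38122518980], nat_lit 1271250, nat_lit 1271250, nat_lit 1271250, nat_lit 1271250, nat_lit 0, nat_lit 2542500, [nat_lit 1412500, nat_lit 1271250], [nat_lit 26, nat_lit 40, nat_lit 40, nat_lit 80, nat_lit 2, nat_lit 373, nat_lit 150, nat_lit 12]⟩, ⟨p041_k0, nat_lit 0, nat_lit 0, nat_lit 203, nat_lit 0, nat_lit 39631, [nat_lit 6250000000, nat_lit 7968000000], [], [nat_lit 23600202840, nat_lit 25542293040, nat_lit 39426818480,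 nat_lit 40823635680, nat_lit 37955877520, nat_lit 30096263860, nat_lit 37785005240, nat_lit 38122518980], nat_lit 1271250, nat_lit 1271250, nat_lit 1271250, nat_lit 1271250, nat_lit 0, nat_lit 2542500, [nat_lit 1412500, nat_lit 1271250], [nat_lit 26, nat_lit 40, nat_lit 40, nat_lit 80, nat_lit 2, nat_lit 373, nat_lit 150, nat_lit 12]⟩,
 zbF0, [⟨nat_lit 4, nat_lit 77, nat_lit 100, nat_lit 72, nat_lit 219070621⟩, ⟨nat_lit 19, nat_lit 100, nat_lit 77, nat_lit 72, nat_lit 219070621⟩]⟩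
noncomputable def b_V_500_500_10_4 : St := ⟨true, nat_lit 1, nat_lit 2, nat_lit 2, nat_lit 80, nat_lit 200, nat_lit 240, nat_lit 200, nat_lit 240, nat_lit 0, nat_lit 400, nat_lit 40, nat_lit 80, nat_lit 0, nat_lit 360, nat_lit 0, nat_lit 360, nat_lit 0, nat_lit 4, nat_lit 0, nat_lit 0, nat_lit 0, nat_lit 0⟩
theorem d_V_500_500_10_4 (h : EB TB.env) : Dead b_V_500_500_10_4 := chkB_sound0 h (T :=
(.st (nat_lit 1)
(.spl (nat_lit 2) (nat_lit 120)
(.spl (nat_lit 4) (nat_lit 160)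
(.leaf p041_l67)
(.spl (nat_lit 4) (nat_lit 240)
(.leaf p041_l68)
(.leaf p041_l69)))
(.spl (nat_lit 4) (nat_lit 160)
(.spl (nat_lit 1) (nat_lit 220)
(.leaf p041_l70)
(.ord (.trX (nat_lit 19) (nat_lit 100) (nat_lit 68) (nat_lit 80) (nat_lit 348) (.leaf p041_l71))))
(.spl (nat_lit 2) (nat_lit 240)
(.leaf p041_l72)
(.leaf p041_l73))))
(.spl (nat_lit 2) (nat_lit 240)
(.spl (nat_lit 4) (nat_lit 160)
(.leaf p041_l74)
(.leaf p041_l75))
(.leaf p041_l76)))) (by decide +kernel)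
noncomputable def p041_l77 : Lf2 := ⟨nat_lit 0, nat_lit 4, [nat_lit 38, nat_lit 5, nat_lit 5, nat_lit 20], true, nat_lit 0, nat_lit 160, nat_lit 0, nat_lit 384, ⟨nat_lit 0, nat_lit 0, nat_lit 1000, nat_lit 4, nat_lit 97, nat_lit 474, nat_lit 54, nat_lit 1000, nat_lit 19267, nat_lit 249, nat_lit 88817, nat_lit 288, nat_lit 63268950, nat_lit 0, nat_lit 0, nat_lit 1074654, false, false⟩,
 nat_lit 0, nat_lit 0, nat_lit 0, nat_lit 6077, nat_lit 3603, nat_lit 0, nat_lit 0, nat_lit 0, nat_lit 0, nat_lit 0, nat_lit 0, nat_lit 0, nat_lit 0, nat_lit 0, nat_lit 78, nat_lit 959800, nat_lit 0, nat_lit 0, [(nat_lit 6, [(nat_lit 5, nat_lit 67), (nat_lit 6, nat_lit 933)]), (nat_lit 9, [(nat_lit 5, nat_lit 67), (nat_lit 6, nat_lit 933)])],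
 ⟨p041_k4, nat_lit 0, nat_lit 0, nat_lit 188, nat_lit 0, nat_lit 0, [nat_lit 2781490801, nat_lit 140911600], [], [nat_lit 13908359333, nat_lit 16365794744, nat_lit 13788982673, nat_lit 16183568890, nat_lit 13788982673, nat_lit 16183568890, nat_lit 14354005870, nat_lit 16423279402], nat_lit 0, nat_lit 0, nat_lit 0, nat_lit 0, nat_lit 0, nat_lit 0, [], [nat_lit 39, nat_lit 40, nat_lit 40, nat_lit 80, nat_lit 7, nat_lit 317, nat_lit 100, nat_lit 11]⟩, C1.Rw.none,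
 ⟨nat_lit 5477, nat_lit 6325, ⟨.ofNat (nat_lit 45942), .ofNat (nat_lit 374999), .ofNat (nat_lit 88677), .ofNat (nat_lit 417734), .ofNat (nat_lit 82619), .ofNat (nat_lit 382351), .ofNat (nat_lit 125333), .ofNat (nat_lit 425065)⟩, ⟨.negSucc (nat_lit 82265), .ofNat (nat_lit 246791), .negSucc (nat_lit 39529), .ofNat (nat_lit 289527), .negSucc (nat_lit 45522), .ofNat (nat_lit 254209), .negSucc (nat_lit 2808), .ofNat (nat_lit 296923)⟩⟩, [⟨nat_lit 0, nat_lit 100, nat_lit 92, nat_lit 40, nat_lit 84677950⟩]⟩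
noncomputable def p041_l78 : Lf2 := ⟨nat_lit 0, nat_lit 4, [nat_lit 38, nat_lit 5, nat_lit 5, nat_lit 20], true, nat_lit 160, nat_lit 336, nat_lit 0, nat_lit 384, ⟨nat_lit 0, nat_lit 0, nat_lit 1000, nat_lit 4, nat_lit 97, nat_lit 1000, nat_lit 178, nat_lit 1000, nat_lit 31510, nat_lit 200, nat_lit 88817, nat_lit 288, nat_lit 51567025, nat_lit 0, nat_lit 0, nat_lit 3591154, false, false⟩,
 nat_lit 0, nat_lit 0, nat_lit 0, nat_lit 9589, nat_lit 3153, nat_lit 0, nat_lit 493, nat_lit 0, nat_lit 0, nat_lit 0, nat_lit 0, nat_lit 0, nat_lit 0, nat_lit 0, nat_lit 80, nat_lit 1000000, nat_lit 0, nat_lit 0, [(nat_lit 6, [(nat_lit 6, nat_lit 1000)]), (nat_lit 9, [(nat_lit 6, nat_lit 1000)])],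
 ⟨p041_k5, nat_lit 0, nat_lit 0, nat_lit 162, nat_lit 0, nat_lit 0, [nat_lit 2377600001, nat_lit 1408000000, nat_lit 211200000], [], [nat_lit 13787769977, nat_lit 15946084289, nat_lit 14589424070, nat_lit 16553827802, nat_lit 21959768826, nat_lit 23518979763, nat_lit 21736469025, nat_lit 23090629412], nat_lit 0, nat_lit 0, nat_lit 0, nat_lit 0, nat_lit 0, nat_lit 0, [], [nat_lit 9, nat_lit 40, nat_lit 40, nat_lit 80, nat_lit 2, nat_lit 345, nat_lit 125, nat_lit 11]⟩, C1.Rw.none,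
 ⟨nat_lit 5477, nat_lit 6325, ⟨.ofNat (nat_lit 45942), .ofNat (nat_lit 374999), .ofNat (nat_lit 88677), .ofNat (nat_lit 417734), .ofNat (nat_lit 82619), .ofNat (nat_lit 382351), .ofNat (nat_lit 125333), .ofNat (nat_lit 425065)⟩, ⟨.ofNat (nat_lit 246791), .ofNat (nat_lit 608692), .ofNat (nat_lit 289527), .ofNat (nat_lit 651380), .ofNat (nat_lit 254209), .ofNat (nat_lit 583853), .ofNat (nat_lit 296923), .ofNat (nat_lit 626519)⟩⟩, [⟨nat_lit 0, nat_lit 100, nat_lit 92, nat_lit 40, nat_lit 73758772⟩, ⟨nat_lit 4, nat_lit 92, nat_lit 100, nat_lit 75, nat_lit 295701062⟩]⟩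
noncomputable def p041_l79 : Lf2 := ⟨nat_lit 0, nat_lit 4, [nat_lit 38, nat_lit 5, nat_lit 5, nat_lit 20], false, nat_lit 0, nat_lit 160, nat_lit 0, nat_lit 384, ⟨nat_lit 647, nat_lit 0, nat_lit 353, nat_lit 4, nat_lit 253, nat_lit 353, nat_lit 54, nat_lit 353, nat_lit 19267, nat_lit 249, nat_lit 534094, nat_lit 200, nat_lit 47889463, nat_lit 0, nat_lit 0, nat_lit 2989134, false, true⟩,
 nat_lit 0, nat_lit 0, nat_lit 0, nat_lit 4696, nat_lit 7393, nat_lit 6238, nat_lit 0, nat_lit 0, nat_lit 0, nat_lit 0, nat_lit 0, nat_lit 0, nat_lit 0, nat_lit 0, nat_lit 0, nat_lit 353000, nat_lit 0, nat_lit 0, [(nat_lit 6, [(nat_lit 6, nat_lit 353)]), (nat_lit 9, [(nat_lit 6, nat_lit 353)])],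
 ⟨p041_k4, nat_lit 0, nat_lit 0, nat_lit 181, nat_lit 0, nat_lit 0, [nat_lit 3574638000, nat_lit 4478242000], [], [nat_lit 16768197692, nat_lit 20339885348, nat_lit 36767264335, nat_lit 38859427250, nat_lit 13566719280, nat_lit 16013811872, nat_lit 28619258163, nat_lit 30486295378], nat_lit 0, nat_lit 0, nat_lit 0, nat_lit 0, nat_lit 0, nat_lit 0, [], [nat_lit 39, nat_lit 40, nat_lit 40, nat_lit 80, nat_lit 7, nat_lit 373, nat_lit 150, nat_lit 12]⟩, ⟨p041_k6, nat_lit 0, nat_lit 0, nat_lit 263, nat_lit 0, nat_lit 0, [nat_lit 5155296000, nat_lit 7681184000], [], [nat_lit 21154345536, nat_lit 21741211000, nat_lit 30694009265, nat_lit 30614918878, nat_lit 23560646296, nat_lit 23546383933, nat_lit 28073625637, nat_lit 27584606160], nat_lit 0, nat_lit 0, nat_lit 0, nat_lit 0, nat_lit 0, nat_lit 0, [], [nat_lit 143, nat_lit 40, nat_lit 40, nat_lit 80, nat_lit 14, nat_lit 483, nat_lit 250, nat_lit 13]⟩,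
 ⟨nat_lit 5477, nat_lit 6325, ⟨.ofNat (nat_lit 374999), .ofNat (nat_lit 859998), .ofNat (nat_lit 417734), .ofNat (nat_lit 902672), .ofNat (nat_lit 382351), .ofNat (nat_lit 824097), .ofNat (nat_lit 425065), .ofNat (nat_lit 866749)⟩, ⟨.negSucc (nat_lit 82265), .ofNat (nat_lit 246791), .negSucc (nat_lit 39529), .ofNat (nat_lit 289527), .negSucc (nat_lit 45522), .ofNat (nat_lit 254209), .negSucc (nat_lit 2808), .ofNat (nat_lit 296923)⟩⟩, [⟨nat_lit 22, nat_lit 100, nat_lit 94, nat_lit 87, nat_lit 110256247⟩]⟩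
noncomputable def p041_l80 : Lf2 := ⟨nat_lit 0, nat_lit 4, [nat_lit 38, nat_lit 5, nat_lit 5, nat_lit 20], false, nat_lit 160, nat_lit 336, nat_lit 0, nat_lit 384, ⟨nat_lit 405, nat_lit 595, nat_lit 0, nat_lit 4, nat_lit 253, nat_lit 595, nat_lit 178, nat_lit 0, nat_lit 0, nat_lit 0, nat_lit 0, nat_lit 0, nat_lit 39951063, nat_lit 17221897, nat_lit 9827040, nat_lit 5056482, false, true⟩,
 nat_lit 0, nat_lit 0, nat_lit 0, nat_lit 10861, nat_lit 4891, nat_lit 4159, nat_lit 0, nat_lit 0, nat_lit 0, nat_lit 973, nat_lit 0, nat_lit 0, nat_lit 0, nat_lit 0, nat_lit 0, nat_lit 238000, nat_lit 0, nat_lit 0, [(nat_lit 6, [(nat_lit 1, nat_lit 595)]), (nat_lit 9, [(nat_lit 1, nat_lit 595)])],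
 ⟨p041_k5, nat_lit 0, nat_lit 0, nat_lit 81, nat_lit 0, nat_lit 0, [nat_lit 3506758401, nat_lit 4334338001, nat_lit 5163320999], [], [nat_lit 11986186169, nat_lit 14827739737, nat_lit 26389032211, nat_lit 27807873827, nat_lit 21913869972, nat_lit 23710872679, nat_lit 31678674239, nat_lit 32693628795], nat_lit 0, nat_lit 0, nat_lit 0, nat_lit 0, nat_lit 0, nat_lit 0, [], [nat_lit 9, nat_lit 40, nat_lit 40, nat_lit 80, nat_lit 2, nat_lit 428, nat_lit 200, nat_lit 13]⟩, ⟨p041_k7, nat_lit 0, nat_lit 0, nat_lit 280, nat_lit 0, nat_lit 0, [nat_lit 3227040000, nat_lit 3986010000, nat_lit 4808160000], [], [nat_lit 11157079567, nat_lit 11522298859, nat_lit 17673602027, nat_lit 17597330844, nat_lit 12882612494, nat_lit 12932385004, nat_lit 16978900810, nat_lit 16738167779], nat_lit 0, nat_lit 0, nat_lit 0, nat_lit 0, nat_lit 0, nat_lit 0, [], [nat_lit 106, nat_lit 40, nat_lit 40, nat_lit 80, nat_lit 41, nat_lit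 483, nat_lit 250, nat_lit 13]⟩,
 ⟨nat_lit 5477, nat_lit 6325, ⟨.ofNat (nat_lit 374999), .ofNat (nat_lit 859998), .ofNat (nat_lit 417734), .ofNat (nat_lit 902672), .ofNat (nat_lit 382351), .ofNat (nat_lit 824097), .ofNat (nat_lit 425065), .ofNat (nat_lit 866749)⟩, ⟨.ofNat (nat_lit 246791), .ofNat (nat_lit 608692), .ofNat (nat_lit 289527), .ofNat (nat_lit 651380), .ofNat (nat_lit 254209), .ofNat (nat_lit 583853), .ofNat (nat_lit 296923), .ofNat (nat_lit 626519)⟩⟩, [⟨nat_lit 4, nat_lit 92, nat_lit 100, nat_lit 75, nat_lit 264068765⟩, ⟨nat_lit 7, nat_lit 63, nat_lit 100, nat_lit 72, nat_lit 97540078⟩]⟩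
noncomputable def p041_l81 : Lf2 := ⟨nat_lit 0, nat_lit 4, [nat_lit 38, nat_lit 5, nat_lit 5, nat_lit 20], true, nat_lit 0, nat_lit 160, nat_lit 0, nat_lit 384, ⟨nat_lit 0, nat_lit 0, nat_lit 1000, nat_lit 4, nat_lit 97, nat_lit 474, nat_lit 54, nat_lit 1000, nat_lit 19267, nat_lit 249, nat_lit 88817, nat_lit 288, nat_lit 63268950, nat_lit 0, nat_lit 0, nat_lit 1074654, false, false⟩,
 nat_lit 0, nat_lit 0, nat_lit 0, nat_lit 6077, nat_lit 3603, nat_lit 0, nat_lit 0, nat_lit 0, nat_lit 0, nat_lit 0, nat_lit 0, nat_lit 0, nat_lit 0, nat_lit 0, nat_lit 78, nat_lit 959800, nat_lit 0, nat_lit 0, [(nat_lit 6, [(nat_lit 5, nat_lit 67), (nat_lit 6, nat_lit 933)]), (nat_lit 9, [(nat_lit 5, nat_lit 67), (nat_lit 6, nat_lit 933)])],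
 ⟨p041_k4, nat_lit 0, nat_lit 0, nat_lit 188, nat_lit 0, nat_lit 0, [nat_lit 2781490801, nat_lit 140911600], [], [nat_lit 13908359333, nat_lit 16365794744, nat_lit 13788982673, nat_lit 16183568890, nat_lit 13788982673, nat_lit 16183568890, nat_lit 14354005870, nat_lit 16423279402], nat_lit 0, nat_lit 0, nat_lit 0, nat_lit 0, nat_lit 0, nat_lit 0, [], [nat_lit 39, nat_lit 40, nat_lit 40, nat_lit 80, nat_lit 7, nat_lit 317, nat_lit 100, nat_lit 11]⟩, C1.Rw.none,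
 ⟨nat_lit 5477, nat_lit 6325, ⟨.ofNat (nat_lit 45942), .ofNat (nat_lit 374999), .ofNat (nat_lit 88677), .ofNat (nat_lit 417734), .ofNat (nat_lit 82619), .ofNat (nat_lit 382351), .ofNat (nat_lit 125333), .ofNat (nat_lit 425065)⟩, ⟨.negSucc (nat_lit 82265), .ofNat (nat_lit 246791), .negSucc (nat_lit 39529), .ofNat (nat_lit 289527), .negSucc (nat_lit 45522), .ofNat (nat_lit 254209), .negSucc (nat_lit 2808), .ofNat (nat_lit 296923)⟩⟩, [⟨nat_lit 0, nat_lit 100, nat_lit 92, nat_lit 40, nat_lit 84677950⟩]⟩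
noncomputable def p041_l82 : Lf2 := ⟨nat_lit 0, nat_lit 4, [nat_lit 38, nat_lit 5, nat_lit 5, nat_lit 20], true, nat_lit 0, nat_lit 160, nat_lit 0, nat_lit 384, ⟨nat_lit 0, nat_lit 1000, nat_lit 0, nat_lit 4, nat_lit 191, nat_lit 876, nat_lit 54, nat_lit 0, nat_lit 0, nat_lit 0, nat_lit 0, nat_lit 0, nat_lit 54512951, nat_lit 12487049, nat_lit 0, nat_lit 2404609, false, true⟩,
 nat_lit 0, nat_lit 0, nat_lit 0, nat_lit 4401, nat_lit 4979, nat_lit 0, nat_lit 0, nat_lit 0, nat_lit 0, nat_lit 0, nat_lit 0, nat_lit 0, nat_lit 0, nat_lit 0, nat_lit 0, nat_lit 400000, nat_lit 0, nat_lit 0, [(nat_lit 6, [(nat_lit 1, nat_lit 1000)]), (nat_lit 9, [(nat_lit 1, nat_lit 1000)])],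
 ⟨p041_k4, nat_lit 0, nat_lit 0, nat_lit 68, nat_lit 0, nat_lit 0, [nat_lit 2838000000, nat_lit 3261466667], [], [nat_lit 11988707076, nat_lit 15403369200, nat_lit 16284638276, nat_lit 19142766844, nat_lit 11168095992, nat_lit 14036300184, nat_lit 14855006896, nat_lit 17268226980], nat_lit 0, nat_lit 0, nat_lit 0, nat_lit 0, nat_lit 0, nat_lit 0, [], [nat_lit 39, nat_lit 40, nat_lit 40, nat_lit 80, nat_lit 7, nat_lit 317, nat_lit 100, nat_lit 10]⟩, C1.Rw.none,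
 ⟨nat_lit 5477, nat_lit 6325, ⟨.ofNat (nat_lit 374999), .ofNat (nat_lit 539501), .ofNat (nat_lit 417734), .ofNat (nat_lit 582178), .ofNat (nat_lit 382351), .ofNat (nat_lit 532191), .ofNat (nat_lit 425065), .ofNat (nat_lit 574846)⟩, ⟨.negSucc (nat_lit 82265), .ofNat (nat_lit 246791), .negSucc (nat_lit 39529), .ofNat (nat_lit 289527), .negSucc (nat_lit 45522), .ofNat (nat_lit 254209), .negSucc (nat_lit 2808), .ofNat (nat_lit 296923)⟩⟩, []⟩
noncomputable def p041_l83 : Lf2 := ⟨nat_lit 0, nat_lit 4, [nat_lit 38, nat_lit 5, nat_lit 5, nat_lit 20], false, nat_lit 0, nat_lit 160, nat_lit 0, nat_lit 384, ⟨nat_lit 117, nat_lit 883, nat_lit 0, nat_lit 6, nat_lit 278, nat_lit 883, nat_lit 54, nat_lit 0, nat_lit 0, nat_lit 0, nat_lit 0, nat_lit 0, nat_lit 45148818, nat_lit 21851182, nat_lit 0, nat_lit 3157044, false, true⟩,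
 nat_lit 0, nat_lit 0, nat_lit 3079, nat_lit 2969, nat_lit 4510, nat_lit 1026, nat_lit 823, nat_lit 0, nat_lit 0, nat_lit 190, nat_lit 0, nat_lit 0, nat_lit 0, nat_lit 0, nat_lit 0, nat_lit 353200, nat_lit 0, nat_lit 0, [(nat_lit 6, [(nat_lit 1, nat_lit 883)]), (nat_lit 9, [(nat_lit 1, nat_lit 883)])],
 ⟨p041_k5, nat_lit 0, nat_lit 0, nat_lit 189, nat_lit 0, nat_lit 0, [nat_lit 2934997761, nat_lit 3407093201, nat_lit 3824639399], [], [nat_lit 21084841835, nat_lit 23040550555, nat_lit 29701938378, nat_lit 31082995185, nat_lit 20015218915, nat_lit 21669280475, nat_lit 27409926754, nat_lit 28549939026], nat_lit 0, nat_lit 0, nat_lit 0, nat_lit 0, nat_lit 0, nat_lit 0, [], [nat_lit 9, nat_lit 40, nat_lit 40, nat_lit 80, nat_lit 2, nat_lit 249, nat_lit 40, nat_lit 8]⟩, ⟨p041_k7, nat_lit 0, nat_lit 0, nat_lit 436, nat_lit 0, nat_lit 340698, [nat_lit 932256000, nat_lit 1151514000, nat_lit 1389024000], [], [nat_lit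 4616889486, nat_lit 4623211590, nat_lit 5329480557, nat_lit 5311097679, nat_lit 5954944263, nat_lit 6288431177, nat_lit 4833275088, nat_lit 4795694344], nat_lit 1100001, nat_lit 1271250, nat_lit 1271250, nat_lit 1271250, nat_lit 0, nat_lit 2712000, [nat_lit 1695000, nat_lit 1271250, nat_lit 1271250], [nat_lit 106, nat_lit 40, nat_lit 40, nat_lit 80, nat_lit 41, nat_lit 483, nat_lit 250, nat_lit 12]⟩,
 ⟨nat_lit 5477, nat_lit 6325, ⟨.ofNat (nat_lit 539501), .ofNat (nat_lit 851781), .ofNat (nat_lit 560841), .ofNat (nat_lit 873117), .ofNat (nat_lit 532191), .ofNat (nat_lit 816612), .ofNat (nat_lit 553520), .ofNat (nat_lit 837938)⟩, ⟨.negSucc (nat_lit 82265), .ofNat (nat_lit 246791), .negSucc (nat_lit 39529), .ofNat (nat_lit 289527), .negSucc (nat_lit 45522), .ofNat (nat_lit 254209), .negSucc (nat_lit 2808), .ofNat (nat_lit 296923)⟩⟩, [⟨nat_lit 10, nat_lit 100, nat_lit 57, nat_lit 80, nat_lit 37097018⟩]⟩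
noncomputable def p041_l84 : Lf2 := ⟨nat_lit 0, nat_lit 4, [nat_lit 38, nat_lit 5, nat_lit 5, nat_lit 20], false, nat_lit 0, nat_lit 160, nat_lit 0, nat_lit 372, ⟨nat_lit 129, nat_lit 871, nat_lit 0, nat_lit 6, nat_lit 288, nat_lit 871, nat_lit 54, nat_lit 0, nat_lit 0, nat_lit 0, nat_lit 0, nat_lit 0, nat_lit 44085838, nat_lit 22914162, nat_lit 0, nat_lit 3211772, true, true⟩,
 nat_lit 0, nat_lit 0, nat_lit 2986, nat_lit 1710, nat_lit 4486, nat_lit 1135, nat_lit 823, nat_lit 0, nat_lit 0, nat_lit 188, nat_lit 0, nat_lit 0, nat_lit 0, nat_lit 0, nat_lit 0, nat_lit 348400, nat_lit 0, nat_lit 0, [(nat_lit 6, [(nat_lit 1, nat_lit 871)]), (nat_lit 9, [(nat_lit 1, nat_lit 871)])],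
 ⟨p041_k5, nat_lit 0, nat_lit 0, nat_lit 191, nat_lit 0, nat_lit 0, [nat_lit 2958821121, nat_lit 3445728401, nat_lit 3880417799], [], [nat_lit 21194816075, nat_lit 23146347067, nat_lit 30042313232, nat_lit 31389753540, nat_lit 20146852963, nat_lit 21797814779, nat_lit 27741606372, nat_lit 28863014326], nat_lit 0, nat_lit 0, nat_lit 0, nat_lit 0, nat_lit 0, nat_lit 0, [], [nat_lit 9, nat_lit 40, nat_lit 40, nat_lit 80, nat_lit 2, nat_lit 249, nat_lit 40, nat_lit 8]⟩, ⟨p041_k8, nat_lit 0, nat_lit 0, nat_lit 480, nat_lit 0, nat_lit 425426, [nat_lit 1027872000, nat_lit 1269618000, nat_lit 1531488000], [], [nat_lit 5108615632, nat_lit 5099364200, nat_lit 5637431321, nat_lit 5608403489, nat_lit 6807699640, nat_lit 6308586454, nat_lit 4981626324, nat_lit 4943897111], nat_lit 1271250, nat_lit 1271250, nat_lit 1271250, nat_lit 1271250, nat_lit 0, nat_lit 2627250, [nat_lit 1695000, nat_lit 1271250, nat_lit 1271250],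 [nat_lit 106, nat_lit 40, nat_lit 40, nat_lit 80, nat_lit 41, nat_lit 483, nat_lit 250, nat_lit 12]⟩,
 ⟨nat_lit 5477, nat_lit 6325, ⟨.ofNat (nat_lit 560841), .ofNat (nat_lit 881335), .ofNat (nat_lit 582178), .ofNat (nat_lit 902672), .ofNat (nat_lit 553520), .ofNat (nat_lit 845423), .ofNat (nat_lit 574846), .ofNat (nat_lit 866749)⟩, ⟨.negSucc (nat_lit 82265), .ofNat (nat_lit 246791), .negSucc (nat_lit 39529), .ofNat (nat_lit 289527), .negSucc (nat_lit 45522), .ofNat (nat_lit 254209), .negSucc (nat_lit 2808), .ofNat (nat_lit 296923)⟩⟩, [⟨nat_lit 22, nat_lit 84, nat_lit 100, nat_lit 84, nat_lit 23592662⟩]⟩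
noncomputable def p041_l85 : Lf2 := ⟨nat_lit 0, nat_lit 4, [nat_lit 38, nat_lit 5, nat_lit 5, nat_lit 20], true, nat_lit 160, nat_lit 336, nat_lit 0, nat_lit 384, ⟨nat_lit 0, nat_lit 0, nat_lit 1000, nat_lit 4, nat_lit 97, nat_lit 1000, nat_lit 178, nat_lit 1000, nat_lit 31510, nat_lit 200, nat_lit 88817, nat_lit 288, nat_lit 51567025, nat_lit 0, nat_lit 0, nat_lit 3591154, false, false⟩,
 nat_lit 0, nat_lit 0, nat_lit 0, nat_lit 9589, nat_lit 3153, nat_lit 0, nat_lit 493, nat_lit 0, nat_lit 0, nat_lit 0, nat_lit 0, nat_lit 0, nat_lit 0, nat_lit 0, nat_lit 80, nat_lit 1000000, nat_lit 0, nat_lit 0, [(nat_lit 6, [(nat_lit 6, nat_lit 1000)]), (nat_lit 9, [(nat_lit 6, nat_lit 1000)])],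
 ⟨p041_k5, nat_lit 0, nat_lit 0, nat_lit 162, nat_lit 0, nat_lit 0, [nat_lit 2377600001, nat_lit 1408000000, nat_lit 211200000], [], [nat_lit 13787769977, nat_lit 15946084289, nat_lit 14589424070, nat_lit 16553827802, nat_lit 21959768826, nat_lit 23518979763, nat_lit 21736469025, nat_lit 23090629412], nat_lit 0, nat_lit 0, nat_lit 0, nat_lit 0, nat_lit 0, nat_lit 0, [], [nat_lit 9, nat_lit 40, nat_lit 40, nat_lit 80, nat_lit 2, nat_lit 345, nat_lit 125, nat_lit 11]⟩, C1.Rw.none,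
 ⟨nat_lit 5477, nat_lit 6325, ⟨.ofNat (nat_lit 45942), .ofNat (nat_lit 374999), .ofNat (nat_lit 88677), .ofNat (nat_lit 417734), .ofNat (nat_lit 82619), .ofNat (nat_lit 382351), .ofNat (nat_lit 125333), .ofNat (nat_lit 425065)⟩, ⟨.ofNat (nat_lit 246791), .ofNat (nat_lit 608692), .ofNat (nat_lit 289527), .ofNat (nat_lit 651380), .ofNat (nat_lit 254209), .ofNat (nat_lit 583853), .ofNat (nat_lit 296923), .ofNat (nat_lit 626519)⟩⟩, [⟨nat_lit 0, nat_lit 100, nat_lit 92, nat_lit 40, nat_lit 73758772⟩, ⟨nat_lit 4, nat_lit 92, nat_lit 100, nat_lit 75, nat_lit 295701062⟩]⟩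
noncomputable def p041_l86 : Lf2 := ⟨nat_lit 0, nat_lit 4, [nat_lit 38, nat_lit 5, nat_lit 5, nat_lit 20], true, nat_lit 160, nat_lit 336, nat_lit 0, nat_lit 384, ⟨nat_lit 0, nat_lit 1000, nat_lit 0, nat_lit 4, nat_lit 191, nat_lit 1000, nat_lit 178, nat_lit 0, nat_lit 0, nat_lit 0, nat_lit 0, nat_lit 0, nat_lit 44693524, nat_lit 11798728, nat_lit 10507748, nat_lit 4660336, false, true⟩,
 nat_lit 0, nat_lit 0, nat_lit 0, nat_lit 8119, nat_lit 5794, nat_lit 0, nat_lit 0, nat_lit 0, nat_lit 0, nat_lit 0, nat_lit 0, nat_lit 0, nat_lit 0, nat_lit 0, nat_lit 0, nat_lit 400000, nat_lit 0, nat_lit 0, [(nat_lit 6, [(nat_lit 1, nat_lit 1000)]), (nat_lit 9, [(nat_lit 1, nat_lit 1000)])],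
 ⟨p041_k5, nat_lit 0, nat_lit 0, nat_lit 44, nat_lit 0, nat_lit 0, [nat_lit 2702720000, nat_lit 3030400001, nat_lit 3280799999], [], [nat_lit 9649800112, nat_lit 12764825424, nat_lit 13553155456, nat_lit 16155452280, nat_lit 21212786752, nat_lit 23459941290, nat_lit 23638329567, nat_lit 25520885599], nat_lit 0, nat_lit 0, nat_lit 0, nat_lit 0, nat_lit 0, nat_lit 0, [], [nat_lit 9, nat_lit 40, nat_lit 40, nat_lit 80, nat_lit 2, nat_lit 373, nat_lit 150, nat_lit 12]⟩, C1.Rw.none,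
 ⟨nat_lit 5477, nat_lit 6325, ⟨.ofNat (nat_lit 374999), .ofNat (nat_lit 539501), .ofNat (nat_lit 417734), .ofNat (nat_lit 582178), .ofNat (nat_lit 382351), .ofNat (nat_lit 532191), .ofNat (nat_lit 425065), .ofNat (nat_lit 574846)⟩, ⟨.ofNat (nat_lit 246791), .ofNat (nat_lit 608692), .ofNat (nat_lit 289527), .ofNat (nat_lit 651380), .ofNat (nat_lit 254209), .ofNat (nat_lit 583853), .ofNat (nat_lit 296923), .ofNat (nat_lit 626519)⟩⟩, [⟨nat_lit 4, nat_lit 92, nat_lit 100, nat_lit 75, nat_lit 267654904⟩]⟩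
noncomputable def p041_l87 : Lf2 := ⟨nat_lit 0, nat_lit 4, [nat_lit 38, nat_lit 5, nat_lit 5, nat_lit 20], true, nat_lit 160, nat_lit 336, nat_lit 0, nat_lit 384, ⟨nat_lit 0, nat_lit 1000, nat_lit 0, nat_lit 6, nat_lit 254, nat_lit 1000, nat_lit 178, nat_lit 0, nat_lit 0, nat_lit 0, nat_lit 0, nat_lit 0, nat_lit 39828947, nat_lit 17363862, nat_lit 9807191, nat_lit 5063747, false, true⟩,
 nat_lit 0, nat_lit 0, nat_lit 0, nat_lit 5508, nat_lit 4254, nat_lit 0, nat_lit 0, nat_lit 0, nat_lit 0, nat_lit 0, nat_lit 0, nat_lit 0, nat_lit 0, nat_lit 0, nat_lit 0, nat_lit 400000, nat_lit 0, nat_lit 0, [(nat_lit 6, [(nat_lit 1, nat_lit 1000)]), (nat_lit 9, [(nat_lit 1, nat_lit 1000)])],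
 ⟨p041_k5, nat_lit 0, nat_lit 0, nat_lit 58, nat_lit 0, nat_lit 0, [nat_lit 2702720000, nat_lit 3030400001, nat_lit 3280799999], [], [nat_lit 15757474496, nat_lit 18002497480, nat_lit 20498132672, nat_lit 22298503624, nat_lit 23688269957, nat_lit 25152540640, nat_lit 26839858580, nat_lit 28023142148], nat_lit 0, nat_lit 0, nat_lit 0, nat_lit 0, nat_lit 0, nat_lit 0, [], [nat_lit 9, nat_lit 40, nat_lit 40, nat_lit 80, nat_lit 2, nat_lit 317, nat_lit 100, nat_lit 9]⟩, C1.Rw.none,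
 ⟨nat_lit 5477, nat_lit 6325, ⟨.ofNat (nat_lit 539501), .ofNat (nat_lit 703860), .ofNat (nat_lit 582178), .ofNat (nat_lit 746534), .ofNat (nat_lit 532191), .ofNat (nat_lit 681888), .ofNat (nat_lit 574846), .ofNat (nat_lit 724540)⟩, ⟨.ofNat (nat_lit 246791), .ofNat (nat_lit 608692), .ofNat (nat_lit 289527), .ofNat (nat_lit 651380), .ofNat (nat_lit 254209), .ofNat (nat_lit 583853), .ofNat (nat_lit 296923), .ofNat (nat_lit 626519)⟩⟩, [⟨nat_lit 16, nat_lit 100, nat_lit 92, nat_lit 75, nat_lit 142901990⟩]⟩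
noncomputable def p041_l88 : Lf2 := ⟨nat_lit 0, nat_lit 4, [nat_lit 38, nat_lit 5, nat_lit 5, nat_lit 20], true, nat_lit 160, nat_lit 336, nat_lit 16, nat_lit 384, ⟨nat_lit 0, nat_lit 1000, nat_lit 0, nat_lit 8, nat_lit 316, nat_lit 1000, nat_lit 178, nat_lit 0, nat_lit 0, nat_lit 0, nat_lit 0, nat_lit 0, nat_lit 35269013, nat_lit 22734884, nat_lit 8996103, nat_lit 5239802, true, true⟩,
 nat_lit 0, nat_lit 0, nat_lit 0, nat_lit 4770, nat_lit 3968, nat_lit 0, nat_lit 0, nat_lit 0, nat_lit 0, nat_lit 0, nat_lit 0, nat_lit 0, nat_lit 0, nat_lit 0, nat_lit 0, nat_lit 400000, nat_lit 0, nat_lit 0, [(nat_lit 6, [(nat_lit 1, nat_lit 1000)]), (nat_lit 9, [(nat_lit 1, nat_lit 1000)])],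
 ⟨p041_k4, nat_lit 0, nat_lit 0, nat_lit 71, nat_lit 0, nat_lit 0, [nat_lit 2838000000, nat_lit 3261466667], [], [nat_lit 20895626624, nat_lit 22652243008, nat_lit 25972676282, nat_lit 27321207450, nat_lit 27124989767, nat_lit 28294890823, nat_lit 30718219107, nat_lit 31620412587], nat_lit 0, nat_lit 0, nat_lit 0, nat_lit 0, nat_lit 0, nat_lit 0, [], [nat_lit 39, nat_lit 40, nat_lit 40, nat_lit 80, nat_lit 7, nat_lit 317, nat_lit 100, nat_lit 9]⟩, C1.Rw.none,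
 ⟨nat_lit 5477, nat_lit 6325, ⟨.ofNat (nat_lit 703860), .ofNat (nat_lit 859998), .ofNat (nat_lit 746534), .ofNat (nat_lit 902672), .ofNat (nat_lit 681888), .ofNat (nat_lit 824097), .ofNat (nat_lit 724540), .ofNat (nat_lit 866749)⟩, ⟨.ofNat (nat_lit 246791), .ofNat (nat_lit 608692), .ofNat (nat_lit 289527), .ofNat (nat_lit 651380), .ofNat (nat_lit 254209), .ofNat (nat_lit 583853), .ofNat (nat_lit 296923), .ofNat (nat_lit 626519)⟩⟩, [⟨nat_lit 13, nat_lit 96, nat_lit 40, nat_lit 100, nat_lit 151060650⟩, ⟨nat_lit 4, nat_lit 92, nat_lit 100, nat_lit 75, nat_lit 104158105⟩]⟩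
noncomputable def p041_l89 : Lf2 := ⟨nat_lit 0, nat_lit 4, [nat_lit 38, nat_lit 5, nat_lit 5, nat_lit 20], true, nat_lit 0, nat_lit 336, nat_lit 0, nat_lit 384, ⟨nat_lit 0, nat_lit 1000, nat_lit 0, nat_lit 4, nat_lit 190, nat_lit 1000, nat_lit 124, nat_lit 0, nat_lit 0, nat_lit 0, nat_lit 0, nat_lit 0, nat_lit 0, nat_lit 0, nat_lit 0, nat_lit 5000000, false, true⟩,
 nat_lit 0, nat_lit 0, nat_lit 0, nat_lit 6168, nat_lit 4472, nat_lit 0, nat_lit 0, nat_lit 0, nat_lit 0, nat_lit 0, nat_lit 0, nat_lit 0, nat_lit 0, nat_lit 0, nat_lit 0, nat_lit 852400, nat_lit 0, nat_lit 0, [(nat_lit 6, [(nat_lit 1, nat_lit 246), (nat_lit 2, nat_lit 754)]), (nat_lit 9, [(nat_lit 1, nat_lit 246), (nat_lit 2, nat_lit 754)])],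
 ⟨p041_k4, nat_lit 0, nat_lit 0, nat_lit 188, nat_lit 0, nat_lit 0, [nat_lit 3207158401, nat_lit 2616042667], [], [nat_lit 19512771436, nat_lit 22221034860, nat_lit 30345359142, nat_lit 31533267580, nat_lit 26643166771, nat_lit 28128217388, nat_lit 31537734916, nat_lit 32207019458], nat_lit 0, nat_lit 0, nat_lit 0, nat_lit 0, nat_lit 0, nat_lit 0, [], [nat_lit 39, nat_lit 40, nat_lit 40, nat_lit 80, nat_lit 7, nat_lit 428, nat_lit 200, nat_lit 15]⟩, C1.Rw.none,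
 ⟨nat_lit 5477, nat_lit 6325, ⟨.ofNat (nat_lit 45942), .ofNat (nat_lit 859998), .ofNat (nat_lit 88677), .ofNat (nat_lit 902672), .ofNat (nat_lit 82619), .ofNat (nat_lit 824097), .ofNat (nat_lit 125333), .ofNat (nat_lit 866749)⟩, ⟨.negSucc (nat_lit 82265), .ofNat (nat_lit 608692), .negSucc (nat_lit 39529), .ofNat (nat_lit 651380), .negSucc (nat_lit 45522), .ofNat (nat_lit 583853), .negSucc (nat_lit 2808), .ofNat (nat_lit 626519)⟩⟩, [⟨nat_lit 13, nat_lit 96, nat_lit 40, nat_lit 100, nat_lit 100696586⟩, ⟨nat_lit 4, nat_lit 92, nat_lit 100, nat_lit 75, nat_lit 91999896⟩]⟩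
noncomputable def b_V_600_400_10_0 : St := ⟨true, nat_lit 0, nat_lit 2, nat_lit 0, nat_lit 80, nat_lit 240, nat_lit 280, nat_lit 160, nat_lit 200, nat_lit 0, nat_lit 396, nat_lit 40, nat_lit 80, nat_lit 0, nat_lit 336, nat_lit 0, nat_lit 384, nat_lit 0, nat_lit 16, nat_lit 0, nat_lit 0, nat_lit 0, nat_lit 0⟩
theorem d_V_600_400_10_0 (h : EB TB.env) : Dead b_V_600_400_10_0 := chkB_sound0 h (T :=
(.gv
(.st (nat_lit 1)
(.spl (nat_lit 2) (nat_lit 160)
(.spl (nat_lit 4) (nat_lit 160)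
(.leaf p041_l77)
(.leaf p041_l78))
(.spl (nat_lit 4) (nat_lit 160)
(.leaf p041_l79)
(.leaf p041_l80)))
(.spl (nat_lit 4) (nat_lit 160)
(.spl (nat_lit 2) (nat_lit 160)
(.leaf p041_l81)
(.spl (nat_lit 2) (nat_lit 240)
(.leaf p041_l82)
(.spl (nat_lit 1) (nat_lit 180)
(.trX (nat_lit 13) (nat_lit 98) (nat_lit 30) (nat_lit 100) (nat_lit 392) (.leaf p041_l83))
(.trX (nat_lit 19) (nat_lit 100) (nat_lit 52) (nat_lit 80) (nat_lit 372) (.leaf p041_l84)))))
(.spl (nat_lit 2) (nat_lit 160)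
(.leaf p041_l85)
(.spl (nat_lit 2) (nat_lit 240)
(.leaf p041_l86)
(.spl (nat_lit 2) (nat_lit 320)
(.leaf p041_l87)
(.trZ (nat_lit 9) (nat_lit 100) (nat_lit 82) (nat_lit 44) (nat_lit 16) (.leaf p041_l88)))))))
(.leaf p041_l89))) (by decide +kernel)
noncomputable def p041_l90 : Lf2 := ⟨nat_lit 1, nat_lit 4, [nat_lit 38, nat_lit 5, nat_lit 5, nat_lit 20], false, nat_lit 0, nat_lit 160, nat_lit 0, nat_lit 384, zbN0,
 nat_lit 0, nat_lit 0, nat_lit 0, nat_lit 0, nat_lit 0, nat_lit 0, nat_lit 0, nat_lit 0, nat_lit 0, nat_lit 0, nat_lit 0, nat_lit 0, nat_lit 0, nat_lit 0, nat_lit 0, nat_lit 0, nat_lit 0, nat_lit 0, [],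
 C1.Rw.none, C1.Rw.none,
 zbF0, []⟩
noncomputable def p041_l91 : Lf2 := ⟨nat_lit 0, nat_lit 4, [nat_lit 38, nat_lit 5, nat_lit 5, nat_lit 20], true, nat_lit 0, nat_lit 160, nat_lit 0, nat_lit 384, ⟨nat_lit 0, nat_lit 0, nat_lit 1000, nat_lit 4, nat_lit 69, nat_lit 996, nat_lit 55, nat_lit 1000, nat_lit 21600, nat_lit 251, nat_lit 45067, nat_lit 267, nat_lit 65080975, nat_lit 0, nat_lit 0, nat_lit 649923, false, false⟩,
 nat_lit 0, nat_lit 6499, nat_lit 0, nat_lit 0, nat_lit 3782, nat_lit 0, nat_lit 308, nat_lit 0, nat_lit 0, nat_lit 0, nat_lit 0, nat_lit 0, nat_lit 0, nat_lit 0, nat_lit 117, nat_lit 1000000, nat_lit 0, nat_lit 0, [(nat_lit 9, [(nat_lit 6, nat_lit 1000)])],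
 ⟨p041_k9, nat_lit 0, nat_lit 0, nat_lit 274, nat_lit 0, nat_lit 119411, [nat_lit 3178400000, nat_lit 158133334], [], [nat_lit 15533395104, nat_lit 16786242672, nat_lit 14442378992, nat_lit 15621780000, nat_lit 17018961042, nat_lit 16876793200, nat_lit 19164505962, nat_lit 17382404870], nat_lit 1271250, nat_lit 1271250, nat_lit 0, nat_lit 490000, nat_lit 0, nat_lit 1100001, [nat_lit 1100000, nat_lit 1785000], [nat_lit 39, nat_lit 40, nat_lit 40, nat_lit 80, nat_lit 7, nat_lit 272, nat_lit 60, nat_lit 9]⟩, C1.Rw.none,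
 ⟨nat_lit 5477, nat_lit 5917, ⟨.ofNat (nat_lit 64652), .ofNat (nat_lit 221719), .ofNat (nat_lit 107331), .ofNat (nat_lit 264398), .ofNat (nat_lit 82619), .ofNat (nat_lit 232485), .ofNat (nat_lit 125333), .ofNat (nat_lit 275199)⟩, ⟨.negSucc (nat_lit 63383), .ofNat (nat_lit 250751), .negSucc (nat_lit 20704), .ofNat (nat_lit 293429), .negSucc (nat_lit 45522), .ofNat (nat_lit 254209), .negSucc (nat_lit 2808), .ofNat (nat_lit 296923)⟩⟩, []⟩
noncomputable def p041_l92 : Lf2 := ⟨nat_lit 1, nat_lit 4, [nat_lit 38, nat_lit 5, nat_lit 5, nat_lit 20], false, nat_lit 0, nat_lit 160, nat_lit 0, nat_lit 384, zbN0,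
 nat_lit 0, nat_lit 0, nat_lit 0, nat_lit 0, nat_lit 0, nat_lit 0, nat_lit 0, nat_lit 0, nat_lit 0, nat_lit 0, nat_lit 0, nat_lit 0, nat_lit 0, nat_lit 0, nat_lit 0, nat_lit 0, nat_lit 0, nat_lit 0, [],
 C1.Rw.none, C1.Rw.none,
 zbF0, []⟩
noncomputable def p041_l93 : Lf2 := ⟨nat_lit 0, nat_lit 4, [nat_lit 38, nat_lit 5, nat_lit 5, nat_lit 20], true, nat_lit 0, nat_lit 160, nat_lit 0, nat_lit 384, ⟨nat_lit 0, nat_lit 0, nat_lit 1000, nat_lit 4, nat_lit 130, nat_lit 464, nat_lit 55, nat_lit 1000, nat_lit 21600, nat_lit 251, nat_lit 160067, nat_lit 313, nat_lit 60592670, nat_lit 0, nat_lit 0, nat_lit 1576885, false, false⟩,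
 nat_lit 0, nat_lit 7310, nat_lit 0, nat_lit 0, nat_lit 4255, nat_lit 0, nat_lit 0, nat_lit 0, nat_lit 0, nat_lit 0, nat_lit 0, nat_lit 0, nat_lit 0, nat_lit 0, nat_lit 117, nat_lit 1000000, nat_lit 0, nat_lit 0, [(nat_lit 9, [(nat_lit 6, nat_lit 1000)])],
 ⟨p041_k9, nat_lit 0, nat_lit 0, nat_lit 235, nat_lit 0, nat_lit 195529, [nat_lit 3178400000, nat_lit 158133334], [], [nat_lit 12034499090, nat_lit 13519579680, nat_lit 13495960360, nat_lit 14820431480, nat_lit 12090959280, nat_lit 13336270000, nat_lit 15477790824, nat_lit 14516833000], nat_lit 1271250, nat_lit 1271250, nat_lit 490000, nat_lit 1100001, nat_lit 0, nat_lit 1100001, [nat_lit 1100000, nat_lit 1785000], [nat_lit 39, nat_lit 40, nat_lit 40, nat_lit 80, nat_lit 7, nat_lit 317, nat_lit 100, nat_lit 11]⟩, C1.Rw.none,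
 ⟨nat_lit 5477, nat_lit 5917, ⟨.ofNat (nat_lit 221719), .ofNat (nat_lit 378786), .ofNat (nat_lit 264398), .ofNat (nat_lit 421465), .ofNat (nat_lit 232485), .ofNat (nat_lit 382351), .ofNat (nat_lit 275199), .ofNat (nat_lit 425065)⟩, ⟨.negSucc (nat_lit 63383), .ofNat (nat_lit 250751), .negSucc (nat_lit 20704), .ofNat (nat_lit 293429), .negSucc (nat_lit 45522), .ofNat (nat_lit 254209), .negSucc (nat_lit 2808), .ofNat (nat_lit 296923)⟩⟩, []⟩
noncomputable def p041_l94 : Lf2 := ⟨nat_lit 0, nat_lit 4, [nat_lit 38, nat_lit 5, nat_lit 5, nat_lit 20], true, nat_lit 160, nat_lit 240, nat_lit 0, nat_lit 384, ⟨nat_lit 0, nat_lit 0, nat_lit 1000, nat_lit 4, nat_lit 66, nat_lit 1000, nat_lit 140, nat_lit 1000, nat_lit 183750, nat_lit 320, nat_lit 40017, nat_lit 264, nat_lit 57049957, nat_lit 0, nat_lit 0, nat_lit 2637842, false, false⟩,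
 nat_lit 0, nat_lit 8451, nat_lit 0, nat_lit 14096, nat_lit 4473, nat_lit 0, nat_lit 0, nat_lit 0, nat_lit 0, nat_lit 0, nat_lit 0, nat_lit 0, nat_lit 0, nat_lit 0, nat_lit 80, nat_lit 1000000, nat_lit 0, nat_lit 0, [(nat_lit 6, [(nat_lit 6, nat_lit 1000)]), (nat_lit 9, [(nat_lit 6, nat_lit 1000)])],
 ⟨p041_k5, nat_lit 0, nat_lit 0, nat_lit 200, nat_lit 0, nat_lit 134000, [nat_lit 2377600001, nat_lit 1408000000, nat_lit 211200000], [], [nat_lit 22991658173, nat_lit 18332778185, nat_lit 13742961317, nat_lit 13211169058, nat_lit 16342636317, nat_lit 18616106932, nat_lit 18089274217, nat_lit 15537184326], nat_lit 1271250, nat_lit 1271250, nat_lit 0, nat_lit 490000, nat_lit 1100001, nat_lit 1785000, [nat_lit 1100000, nat_lit 1442500, nat_lit 1271250], [nat_lit 9, nat_lit 40, nat_lit 40, nat_lit 80, nat_lit 2, nat_lit 317, nat_lit 100, nat_lit 10]⟩, C1.Rw.none,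
 ⟨nat_lit 5477, nat_lit 6325, ⟨.ofNat (nat_lit 45942), .ofNat (nat_lit 210470), .ofNat (nat_lit 88677), .ofNat (nat_lit 253206), .ofNat (nat_lit 82619), .ofNat (nat_lit 232485), .ofNat (nat_lit 125333), .ofNat (nat_lit 275199)⟩, ⟨.ofNat (nat_lit 246791), .ofNat (nat_lit 411320), .ofNat (nat_lit 289527), .ofNat (nat_lit 454055), .ofNat (nat_lit 254209), .ofNat (nat_lit 404075), .ofNat (nat_lit 296923), .ofNat (nat_lit 446789)⟩⟩, [⟨nat_lit 0, nat_lit 100, nat_lit 92, nat_lit 40, nat_lit 328818720⟩]⟩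
noncomputable def p041_l95 : Lf2 := ⟨nat_lit 0, nat_lit 4, [nat_lit 38, nat_lit 5, nat_lit 5, nat_lit 20], true, nat_lit 160, nat_lit 240, nat_lit 0, nat_lit 384, ⟨nat_lit 0, nat_lit 0, nat_lit 1000, nat_lit 4, nat_lit 129, nat_lit 1000, nat_lit 140, nat_lit 1000, nat_lit 183750, nat_lit 320, nat_lit 153600, nat_lit 311, nat_lit 52638514, nat_lit 0, nat_lit 0, nat_lit 3564244, false, false⟩,
 nat_lit 0, nat_lit 10084, nat_lit 0, nat_lit 4665, nat_lit 5338, nat_lit 0, nat_lit 0, nat_lit 0, nat_lit 0, nat_lit 0, nat_lit 0, nat_lit 0, nat_lit 0, nat_lit 0, nat_lit 80, nat_lit 1000000, nat_lit 0, nat_lit 0, [(nat_lit 6, [(nat_lit 6, nat_lit 1000)]), (nat_lit 9, [(nat_lit 6, nat_lit 1000)])],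
 ⟨p041_k5, nat_lit 0, nat_lit 0, nat_lit 167, nat_lit 0, nat_lit 223334, [nat_lit 2377600001, nat_lit 1408000000, nat_lit 211200000], [], [nat_lit 19124837106, nat_lit 13647429898, nat_lit 15172408001, nat_lit 12406978400, nat_lit 17073757297, nat_lit 15586905112, nat_lit 22123210569, nat_lit 17023413481], nat_lit 1271250, nat_lit 1271250, nat_lit 490000, nat_lit 1100001, nat_lit 1100001, nat_lit 1785000, [nat_lit 1100000, nat_lit 1442500, nat_lit 1271250], [nat_lit 9, nat_lit 40, nat_lit 40, nat_lit 80, nat_lit 2, nat_lit 317, nat_lit 100, nat_lit 10]⟩, C1.Rw.none,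
 ⟨nat_lit 5477, nat_lit 6325, ⟨.ofNat (nat_lit 210470), .ofNat (nat_lit 374999), .ofNat (nat_lit 253206), .ofNat (nat_lit 417734), .ofNat (nat_lit 232485), .ofNat (nat_lit 382351), .ofNat (nat_lit 275199), .ofNat (nat_lit 425065)⟩, ⟨.ofNat (nat_lit 246791), .ofNat (nat_lit 411320), .ofNat (nat_lit 289527), .ofNat (nat_lit 454055), .ofNat (nat_lit 254209), .ofNat (nat_lit 404075), .ofNat (nat_lit 296923), .ofNat (nat_lit 446789)⟩⟩, []⟩
noncomputable def p041_l96 : Lf2 := ⟨nat_lit 0, nat_lit 4, [nat_lit 38, nat_lit 5, nat_lit 5, nat_lit 20], true, nat_lit 240, nat_lit 336, nat_lit 0, nat_lit 336, ⟨nat_lit 0, nat_lit 0, nat_lit 1000, nat_lit 4, nat_lit 66, nat_lit 1000, nat_lit 209, nat_lit 1000, nat_lit 31510, nat_lit 200, nat_lit 40017, nat_lit 264, nat_lit 50323831, nat_lit 0, nat_lit 0, nat_lit 3472487, false, false⟩,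
 nat_lit 0, nat_lit 8011, nat_lit 0, nat_lit 4567, nat_lit 4241, nat_lit 0, nat_lit 0, nat_lit 0, nat_lit 0, nat_lit 0, nat_lit 0, nat_lit 0, nat_lit 0, nat_lit 0, nat_lit 61, nat_lit 699400, nat_lit 0, nat_lit 0, [(nat_lit 6, [(nat_lit 5, nat_lit 501), (nat_lit 6, nat_lit 499)]), (nat_lit 9, [(nat_lit 5, nat_lit 501), (nat_lit 6, nat_lit 499)])],
 ⟨p041_k4, nat_lit 0, nat_lit 0, nat_lit 192, nat_lit 0, nat_lit 134000, [nat_lit 2506192400, nat_lit 40241467], [], [nat_lit 16133747184, nat_lit 18375754220, nat_lit 14653336804, nat_lit 16768023744, nat_lit 23339074519, nat_lit 25580030015, nat_lit 20247184591, nat_lit 22425133041], nat_lit 1271250, nat_lit 1271250, nat_lit 0, nat_lit 490000, nat_lit 1271250, nat_lit 1271250, [nat_lit 1100000, nat_lit 1785000], [nat_lit 39, nat_lit 40, nat_lit 40, nat_lit 80, nat_lit 7, nat_lit 226, nat_lit 20, nat_lit 7]⟩, C1.Rw.none,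
 ⟨nat_lit 5477, nat_lit 6325, ⟨.ofNat (nat_lit 45942), .ofNat (nat_lit 210470), .ofNat (nat_lit 88677), .ofNat (nat_lit 253206), .ofNat (nat_lit 82619), .ofNat (nat_lit 232485), .ofNat (nat_lit 125333), .ofNat (nat_lit 275199)⟩, ⟨.ofNat (nat_lit 411320), .ofNat (nat_lit 608692), .ofNat (nat_lit 454055), .ofNat (nat_lit 651380), .ofNat (nat_lit 404075), .ofNat (nat_lit 583853), .ofNat (nat_lit 446789), .ofNat (nat_lit 626519)⟩⟩, [⟨nat_lit 0, nat_lit 100, nat_lit 92, nat_lit 40, nat_lit 197356909⟩, ⟨nat_lit 4, nat_lit 92, nat_lit 100, nat_lit 75, nat_lit 521879469⟩]⟩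
noncomputable def p041_l97 : Lf2 := ⟨nat_lit 0, nat_lit 4, [nat_lit 38, nat_lit 5, nat_lit 5, nat_lit 20], true, nat_lit 240, nat_lit 336, nat_lit 0, nat_lit 384, ⟨nat_lit 0, nat_lit 28, nat_lit 972, nat_lit 4, nat_lit 129, nat_lit 1000, nat_lit 209, nat_lit 972, nat_lit 31510, nat_lit 200, nat_lit 153600, nat_lit 311, nat_lit 46633777, nat_lit 6472731, nat_lit 13893492, nat_lit 4298337, false, false⟩,
 nat_lit 0, nat_lit 8469, nat_lit 0, nat_lit 1094, nat_lit 4483, nat_lit 0, nat_lit 505, nat_lit 0, nat_lit 0, nat_lit 0, nat_lit 0, nat_lit 0, nat_lit 0, nat_lit 0, nat_lit 74, nat_lit 983200, nat_lit 0, nat_lit 0, [(nat_lit 6, [(nat_lit 1, nat_lit 28), (nat_lit 6, nat_lit 972)]), (nat_lit 9, [(nat_lit 1, nat_lit 28), (nat_lit 6, nat_lit 972)])],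
 ⟨p041_k5, nat_lit 0, nat_lit 0, nat_lit 171, nat_lit 0, nat_lit 223334, [nat_lit 2326543361, nat_lit 1378227201, nat_lit 206908799], [], [nat_lit 13369220174, nat_lit 15535535394, nat_lit 14413472402, nat_lit 16395814588, nat_lit 20408921516, nat_lit 22637376720, nat_lit 20765725264, nat_lit 22782103948], nat_lit 1271250, nat_lit 1271250, nat_lit 490000, nat_lit 1100001, nat_lit 1271250, nat_lit 1271250, [nat_lit 1100000, nat_lit 1442500, nat_lit 1271250], [nat_lit 9, nat_lit 40, nat_lit 40, nat_lit 80, nat_lit 2, nat_lit 249, nat_lit 40, nat_lit 7]⟩, C1.Rw.none,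
 ⟨nat_lit 5477, nat_lit 6325, ⟨.ofNat (nat_lit 210470), .ofNat (nat_lit 374999), .ofNat (nat_lit 253206), .ofNat (nat_lit 417734), .ofNat (nat_lit 232485), .ofNat (nat_lit 382351), .ofNat (nat_lit 275199), .ofNat (nat_lit 425065)⟩, ⟨.ofNat (nat_lit 411320), .ofNat (nat_lit 608692), .ofNat (nat_lit 454055), .ofNat (nat_lit 651380), .ofNat (nat_lit 404075), .ofNat (nat_lit 583853), .ofNat (nat_lit 446789), .ofNat (nat_lit 626519)⟩⟩, [⟨nat_lit 4, nat_lit 92, nat_lit 100, nat_lit 75, nat_lit 511605781⟩]⟩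
noncomputable def p041_l98 : Lf2 := ⟨nat_lit 0, nat_lit 4, [nat_lit 38, nat_lit 5, nat_lit 5, nat_lit 20], false, nat_lit 0, nat_lit 160, nat_lit 0, nat_lit 160, ⟨nat_lit 1000, nat_lit 0, nat_lit 0, nat_lit 0, nat_lit 0, nat_lit 0, nat_lit 0, nat_lit 0, nat_lit 0, nat_lit 0, nat_lit 0, nat_lit 0, nat_lit 0, nat_lit 0, nat_lit 0, nat_lit 0, false, false⟩,
 nat_lit 0, nat_lit 12559, nat_lit 0, nat_lit 27209, nat_lit 6648, nat_lit 30906, nat_lit 0, nat_lit 0, nat_lit 0, nat_lit 8417, nat_lit 0, nat_lit 0, nat_lit 0, nat_lit 0, nat_lit 0, nat_lit 0, nat_lit 0, nat_lit 15104634224, [],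
 ⟨p041_k5, nat_lit 0, nat_lit 0, nat_lit 207, nat_lit 0, nat_lit 223334, [nat_lit 4688000000, nat_lit 6250000000, nat_lit 7968000000], [], [nat_lit 39506500320, nat_lit 32476399872, nat_lit 29722593024, nat_lit 31496828000, nat_lit 24863532192, nat_lit 26613334432, nat_lit 31258045728, nat_lit 28299565888], nat_lit 1271250, nat_lit 1271250, nat_lit 1100001, nat_lit 1785000, nat_lit 0, nat_lit 1100001, [nat_lit 1100000, nat_lit 1442500, nat_lit 1271250], [nat_lit 9, nat_lit 40, nat_lit 40, nat_lit 80, nat_lit 2, nat_lit 317, nat_lit 100, nat_lit 10]⟩, ⟨p041_k7, nat_lit 0, nat_lit 0, nat_lit 186, nat_lit 0, nat_lit 0, [nat_lit 7968000000, nat_lit 9842000000, nat_lit 11872000000], [], [nat_lit 27506923739, nat_lit 29860046784, nat_lit 36492137240, nat_lit 38773846776, nat_lit 0, nat_lit 3000584400, nat_lit 8280535944, nat_lit 9963604304], nat_lit 0, nat_lit 0, nat_lit 0, nat_lit 0, nat_lit 0, nat_lit 0,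 [], [nat_lit 106, nat_lit 40, nat_lit 40, nat_lit 80, nat_lit 41, nat_lit 373, nat_lit 150, nat_lit 10]⟩,
 zbF0, []⟩
noncomputable def p041_l99 : Lf2 := ⟨nat_lit 0, nat_lit 4, [nat_lit 38, nat_lit 5, nat_lit 5, nat_lit 20], false, nat_lit 0, nat_lit 160, nat_lit 160, nat_lit 384, ⟨nat_lit 1000, nat_lit 0, nat_lit 0, nat_lit 0, nat_lit 0, nat_lit 0, nat_lit 0, nat_lit 0, nat_lit 0, nat_lit 0, nat_lit 0, nat_lit 0, nat_lit 0, nat_lit 0, nat_lit 0, nat_lit 0, false, false⟩,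
 nat_lit 0, nat_lit 11120, nat_lit 0, nat_lit 8970, nat_lit 5886, nat_lit 10705, nat_lit 3079, nat_lit 0, nat_lit 0, nat_lit 0, nat_lit 0, nat_lit 0, nat_lit 0, nat_lit 0, nat_lit 0, nat_lit 0, nat_lit 0, nat_lit 0, [],
 ⟨p041_k5, nat_lit 0, nat_lit 0, nat_lit 207, nat_lit 0, nat_lit 223334, [nat_lit 4688000000, nat_lit 6250000000, nat_lit 7968000000], [], [nat_lit 38345334240, nat_lit 32121030504, nat_lit 28280183024, nat_lit 30137551616, nat_lit 24397056000, nat_lit 25915689392, nat_lit 31780140696, nat_lit 27834405648], nat_lit 1271250, nat_lit 1271250, nat_lit 1100001, nat_lit 1785000, nat_lit 0, nat_lit 1100001, [nat_lit 1100000, nat_lit 1442500, nat_lit 1271250], [nat_lit 9, nat_lit 40, nat_lit 40, nat_lit 80, nat_lit 2, nat_lit 317, nat_lit 100, nat_lit 10]⟩, ⟨p041_k7, nat_lit 0, nat_lit 0, nat_lit 105, nat_lit 0, nat_lit 0, [nat_lit 7968000000, nat_lit 9842000000, nat_lit 11872000000], [], [nat_lit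 6581348840, nat_lit 8754826360, nat_lit 11788947920, nat_lit 13385752900, nat_lit 27789661488, nat_lit 28458024536, nat_lit 30061245460, nat_lit 30407992016], nat_lit 0, nat_lit 0, nat_lit 0, nat_lit 0, nat_lit 0, nat_lit 0, [], [nat_lit 106, nat_lit 40, nat_lit 40, nat_lit 80, nat_lit 41, nat_lit 456, nat_lit 225, nat_lit 11]⟩,
 zbF0, [⟨nat_lit 7, nat_lit 63, nat_lit 100, nat_lit 72, nat_lit 903003764⟩, ⟨nat_lit 22, nat_lit 100, nat_lit 60, nat_lit 80, nat_lit 79174715⟩]⟩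
noncomputable def p041_l100 : Lf2 := ⟨nat_lit 1, nat_lit 4, [nat_lit 38, nat_lit 5, nat_lit 5, nat_lit 20], false, nat_lit 160, nat_lit 336, nat_lit 0, nat_lit 384, zbN0,
 nat_lit 0, nat_lit 0, nat_lit 0, nat_lit 0, nat_lit 0, nat_lit 0, nat_lit 0, nat_lit 0, nat_lit 0, nat_lit 0, nat_lit 0, nat_lit 0, nat_lit 0, nat_lit 0, nat_lit 0, nat_lit 0, nat_lit 0, nat_lit 0, [],
 C1.Rw.none, C1.Rw.none,
 zbF0, []⟩
noncomputable def p041_l101 : Lf2 := ⟨nat_lit 0, nat_lit 4, [nat_lit 38, nat_lit 5, nat_lit 5, nat_lit 20], true, nat_lit 160, nat_lit 320, nat_lit 0, nat_lit 384, ⟨nat_lit 0, nat_lit 0, nat_lit 1000, nat_lit 4, nat_lit 176, nat_lit 1000, nat_lit 171, nat_lit 1000, nat_lit 4618, nat_lit 210, nat_lit 38748, nat_lit 262, nat_lit 46411705, nat_lit 0, nat_lit 0, nat_lit 4457251, false, false⟩,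
 nat_lit 0, nat_lit 6279, nat_lit 0, nat_lit 43, nat_lit 3654, nat_lit 0, nat_lit 0, nat_lit 0, nat_lit 0, nat_lit 0, nat_lit 0, nat_lit 0, nat_lit 0, nat_lit 0, nat_lit 117, nat_lit 1000000, nat_lit 0, nat_lit 0, [(nat_lit 9, [(nat_lit 6, nat_lit 1000)])],
 ⟨p041_k10, nat_lit 0, nat_lit 0, nat_lit 122, nat_lit 0, nat_lit 195529, [nat_lit 2969600000, nat_lit 1600000000, nat_lit 226400000], [], [nat_lit 19061183244, nat_lit 17158260432, nat_lit 21310862260, nat_lit 19541018128, nat_lit 20707688868, nat_lit 21442488120, nat_lit 21498945772, nat_lit 22186858144], nat_lit 1271250, nat_lit 1271250, nat_lit 1100001, nat_lit 1442500, nat_lit 1271250, nat_lit 1271250, [nat_lit 1100000, nat_lit 1442500, nat_lit 1271250], [nat_lit 9, nat_lit 40, nat_lit 40, nat_lit 80, nat_lit 2, nat_lit 373, nat_lit 150, nat_lit 12]⟩, C1.Rw.none,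
 ⟨nat_lit 5477, nat_lit 5917, ⟨.ofNat (nat_lit 378786), .ofNat (nat_lit 457320), .ofNat (nat_lit 421465), .ofNat (nat_lit 499999), .ofNat (nat_lit 382351), .ofNat (nat_lit 457284), .ofNat (nat_lit 425065), .ofNat (nat_lit 499999)⟩, ⟨.ofNat (nat_lit 250751), .ofNat (nat_lit 564885), .ofNat (nat_lit 293429), .ofNat (nat_lit 607556), .ofNat (nat_lit 254209), .ofNat (nat_lit 553941), .ofNat (nat_lit 296923), .ofNat (nat_lit 596648)⟩⟩, [⟨nat_lit 4, nat_lit 97, nat_lit 100, nat_lit 76, nat_lit 72592903⟩]⟩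
noncomputable def p041_l102 : Lf2 := ⟨nat_lit 0, nat_lit 4, [nat_lit 38, nat_lit 5, nat_lit 5, nat_lit 20], false, nat_lit 160, nat_lit 336, nat_lit 0, nat_lit 384, ⟨nat_lit 743, nat_lit 0, nat_lit 257, nat_lit 5, nat_lit 207, nat_lit 257, nat_lit 178, nat_lit 257, nat_lit 31510, nat_lit 200, nat_lit 3720, nat_lit 219, nat_lit 43474214, nat_lit 0, nat_lit 0, nat_lit 4784487, false, true⟩,
 nat_lit 0, nat_lit 13031, nat_lit 0, nat_lit 10679, nat_lit 6898, nat_lit 9687, nat_lit 1156, nat_lit 0, nat_lit 0, nat_lit 2487, nat_lit 0, nat_lit 0, nat_lit 0, nat_lit 0, nat_lit 0, nat_lit 257000, nat_lit 0, nat_lit 0, [(nat_lit 6, [(nat_lit 6, nat_lit 257)]), (nat_lit 9, [(nat_lit 6, nat_lit 257)])],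
 ⟨p041_k5, nat_lit 0, nat_lit 0, nat_lit 135, nat_lit 0, nat_lit 223334, [nat_lit 3765267201, nat_lit 4594406000, nat_lit 5452085400], [], [nat_lit 24370339305, nat_lit 17688136337, nat_lit 17688136337, nat_lit 18726448413, nat_lit 23177374817, nat_lit 24779537321, nat_lit 24216081381, nat_lit 26092551813], nat_lit 1271250, nat_lit 1271250, nat_lit 1271250, nat_lit 1271250, nat_lit 1271250, nat_lit 1271250, [nat_lit 1100000, nat_lit 1442500, nat_lit 1271250], [nat_lit 9, nat_lit 40, nat_lit 40, nat_lit 80, nat_lit 2, nat_lit 373, nat_lit 150, nat_lit 11]⟩, ⟨p041_k7, nat_lit 0, nat_lit 0, nat_lit 186, nat_lit 0, nat_lit 0, [nat_lit 5920224000, nat_lit 7312606000, nat_lit 8820896000], [], [nat_lit 17899255065, nat_lit 18545824380, nat_lit 19615629321, nat_lit 20419315309, nat_lit 22987721261, nat_lit 22848263752, nat_lit 23802285977, nat_lit 23958394237], nat_lit 0, nat_lit 0, nat_lit 0, nat_lit 0, nat_lit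 0, nat_lit 0, [], [nat_lit 106, nat_lit 40, nat_lit 40, nat_lit 80, nat_lit 41, nat_lit 456, nat_lit 225, nat_lit 12]⟩,
 ⟨nat_lit 5477, nat_lit 6325, ⟨.ofNat (nat_lit 457263), .ofNat (nat_lit 539501), .ofNat (nat_lit 499999), .ofNat (nat_lit 582178), .ofNat (nat_lit 457284), .ofNat (nat_lit 532191), .ofNat (nat_lit 499999), .ofNat (nat_lit 574846)⟩, ⟨.ofNat (nat_lit 246791), .ofNat (nat_lit 608692), .ofNat (nat_lit 289527), .ofNat (nat_lit 651380), .ofNat (nat_lit 254209), .ofNat (nat_lit 583853), .ofNat (nat_lit 296923), .ofNat (nat_lit 626519)⟩⟩, [⟨nat_lit 4, nat_lit 92, nat_lit 100, nat_lit 75, nat_lit 497685705⟩, ⟨nat_lit 19, nat_lit 100, nat_lit 63, nat_lit 72, nat_lit 285340813⟩]⟩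
noncomputable def p041_l103 : Lf2 := ⟨nat_lit 0, nat_lit 4, [nat_lit 38, nat_lit 5, nat_lit 5, nat_lit 20], false, nat_lit 0, nat_lit 160, nat_lit 0, nat_lit 384, ⟨nat_lit 1000, nat_lit 0, nat_lit 0, nat_lit 0, nat_lit 0, nat_lit 0, nat_lit 0, nat_lit 0, nat_lit 0, nat_lit 0, nat_lit 0, nat_lit 0, nat_lit 0, nat_lit 0, nat_lit 0, nat_lit 0, false, false⟩,
 nat_lit 0, nat_lit 16983, nat_lit 0, nat_lit 0, nat_lit 8990, nat_lit 9718, nat_lit 1917, nat_lit 0, nat_lit 0, nat_lit 2115, nat_lit 0, nat_lit 0, nat_lit 0, nat_lit 0, nat_lit 0, nat_lit 0, nat_lit 0, nat_lit 0, [],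
 ⟨p041_k5, nat_lit 0, nat_lit 0, nat_lit 277, nat_lit 0, nat_lit 223334, [nat_lit 4688000000, nat_lit 6250000000, nat_lit 7968000000], [], [nat_lit 24205035920, nat_lit 24833671890, nat_lit 40680622765, nat_lit 42962994129, nat_lit 17099589560, nat_lit 18910217625, nat_lit 30169680060, nat_lit 32196431969], nat_lit 1271250, nat_lit 1271250, nat_lit 1271250, nat_lit 1271250, nat_lit 0, nat_lit 1100001, [nat_lit 1100000, nat_lit 1442500, nat_lit 1271250], [nat_lit 9, nat_lit 40, nat_lit 40, nat_lit 80, nat_lit 2, nat_lit 249, nat_lit 40, nat_lit 8]⟩, ⟨p041_k7, nat_lit 0, nat_lit 0, nat_lit 280, nat_lit 0, nat_lit 0, [nat_lit 7968000000, nat_lit 9842000000, nat_lit 11872000000], [], [nat_lit 31081223033, nat_lit 31658689161, nat_lit 43509361877, nat_lit 43379058458, nat_lit 32918883047, nat_lit 32879698799, nat_lit 41051383686, nat_lit 40533768466], nat_lit 0, nat_lit 0, nat_lit 0, nat_lit 0, nat_lit 0,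 nat_lit 0, [], [nat_lit 106, nat_lit 40, nat_lit 40, nat_lit 80, nat_lit 41, nat_lit 483, nat_lit 250, nat_lit 12]⟩,
 zbF0, [⟨nat_lit 7, nat_lit 63, nat_lit 100, nat_lit 72, nat_lit 18598302⟩, ⟨nat_lit 22, nat_lit 84, nat_lit 100, nat_lit 84, nat_lit 213511563⟩]⟩
noncomputable def p041_l104 : Lf2 := ⟨nat_lit 0, nat_lit 4, [nat_lit 38, nat_lit 5, nat_lit 5, nat_lit 20], false, nat_lit 160, nat_lit 336, nat_lit 0, nat_lit 384, ⟨nat_lit 1000, nat_lit 0, nat_lit 0, nat_lit 0, nat_lit 0, nat_lit 0, nat_lit 0, nat_lit 0, nat_lit 0, nat_lit 0, nat_lit 0, nat_lit 0, nat_lit 0, nat_lit 0, nat_lit 0, nat_lit 0, false, false⟩,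
 nat_lit 0, nat_lit 13747, nat_lit 0, nat_lit 6035, nat_lit 7277, nat_lit 9625, nat_lit 1625, nat_lit 0, nat_lit 0, nat_lit 2049, nat_lit 0, nat_lit 0, nat_lit 0, nat_lit 0, nat_lit 0, nat_lit 0, nat_lit 0, nat_lit 0, [],
 ⟨p041_k5, nat_lit 0, nat_lit 0, nat_lit 169, nat_lit 0, nat_lit 223334, [nat_lit 4688000000, nat_lit 6250000000, nat_lit 7968000000], [], [nat_lit 20502339816, nat_lit 20643435013, nat_lit 28922374683, nat_lit 30363264852, nat_lit 27580261416, nat_lit 27119734905, nat_lit 34432880041, nat_lit 35468143274], nat_lit 1271250, nat_lit 1271250, nat_lit 1271250, nat_lit 1271250, nat_lit 1100001, nat_lit 2607000, [nat_lit 1100000, nat_lit 1442500, nat_lit 1271250], [nat_lit 9, nat_lit 40, nat_lit 40, nat_lit 80, nat_lit 2, nat_lit 317, nat_lit 100, nat_lit 9]⟩, ⟨p041_k7, nat_lit 0, nat_lit 0, nat_lit 280, nat_lit 0, nat_lit 0, [nat_lit 7968000000, nat_lit 9842000000, nat_lit 11872000000],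 [], [nat_lit 31287743375, nat_lit 31868604375, nat_lit 43520855825, nat_lit 43400342925, nat_lit 33069858801, nat_lit 32922872301, nat_lit 40904269271, nat_lit 40399611331], nat_lit 0, nat_lit 0, nat_lit 0, nat_lit 0, nat_lit 0, nat_lit 0, [], [nat_lit 106, nat_lit 40, nat_lit 40, nat_lit 80, nat_lit 41, nat_lit 483, nat_lit 250, nat_lit 12]⟩,
 zbF0, [⟨nat_lit 4, nat_lit 92, nat_lit 100, nat_lit 75, nat_lit 497947979⟩, ⟨nat_lit 7, nat_lit 63, nat_lit 100, nat_lit 72, nat_lit 225035174⟩]⟩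
noncomputable def p041_l105 : Lf2 := ⟨nat_lit 1, nat_lit 4, [nat_lit 38, nat_lit 5, nat_lit 5, nat_lit 20], false, nat_lit 0, nat_lit 160, nat_lit 0, nat_lit 384, zbN0,
 nat_lit 0, nat_lit 0, nat_lit 0, nat_lit 0, nat_lit 0, nat_lit 0, nat_lit 0, nat_lit 0, nat_lit 0, nat_lit 0, nat_lit 0, nat_lit 0, nat_lit 0, nat_lit 0, nat_lit 0, nat_lit 0, nat_lit 0, nat_lit 0, [],
 C1.Rw.none, C1.Rw.none,
 zbF0, []⟩
noncomputable def p041_l106 : Lf2 := ⟨nat_lit 0, nat_lit 4, [nat_lit 38, nat_lit 5, nat_lit 5, nat_lit 20], false, nat_lit 0, nat_lit 160, nat_lit 0, nat_lit 384, ⟨nat_lit 0, nat_lit 0, nat_lit 1000, nat_lit 4, nat_lit 99, nat_lit 183, nat_lit 55, nat_lit 1000, nat_lit 21600, nat_lit 251, nat_lit 93750, nat_lit 290, nat_lit 63104703, nat_lit 0, nat_lit 0, nat_lit 1109069, false, false⟩,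
 nat_lit 0, nat_lit 6986, nat_lit 0, nat_lit 10794, nat_lit 4066, nat_lit 0, nat_lit 2019, nat_lit 0, nat_lit 0, nat_lit 0, nat_lit 0, nat_lit 0, nat_lit 0, nat_lit 0, nat_lit 117, nat_lit 1000000, nat_lit 0, nat_lit 0, [(nat_lit 9, [(nat_lit 6, nat_lit 1000)])],
 ⟨p041_k10, nat_lit 0, nat_lit 0, nat_lit 282, nat_lit 0, nat_lit 119411, [nat_lit 2969600000, nat_lit 1600000000, nat_lit 226400000], [], [nat_lit 19561980301, nat_lit 17444496953, nat_lit 14529225148, nat_lit 15617811600, nat_lit 14529225148, nat_lit 15617811600, nat_lit 21050617028, nat_lit 19134693432], nat_lit 1271250, nat_lit 1271250, nat_lit 0, nat_lit 1100001, nat_lit 0, nat_lit 1100001, [nat_lit 1100000, nat_lit 1442500, nat_lit 1271250], [nat_lit 9, nat_lit 40, nat_lit 40, nat_lit 80, nat_lit 2, nat_lit 317, nat_lit 100, nat_lit 11]⟩, ⟨p041_k7, nat_lit 0, nat_lit 0, nat_lit 536, nat_lit 0, nat_lit 241200, [nat_lit 0, nat_lit 0, nat_lit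 0], [], [nat_lit 0, nat_lit 0, nat_lit 0, nat_lit 0, nat_lit 0, nat_lit 0, nat_lit 0, nat_lit 0], nat_lit 1100001, nat_lit 1442500, nat_lit 0, nat_lit 1100001, nat_lit 0, nat_lit 2712000, [nat_lit 1695000, nat_lit 1271250, nat_lit 1271250], [nat_lit 106, nat_lit 40, nat_lit 40, nat_lit 80, nat_lit 41, nat_lit 428, nat_lit 200, nat_lit 12]⟩,
 ⟨nat_lit 5477, nat_lit 5917, ⟨.ofNat (nat_lit 64652), .ofNat (nat_lit 378786), .ofNat (nat_lit 107331), .ofNat (nat_lit 421465), .ofNat (nat_lit 82619), .ofNat (nat_lit 382351), .ofNat (nat_lit 125333), .ofNat (nat_lit 425065)⟩, ⟨.negSucc (nat_lit 63383), .ofNat (nat_lit 250751), .negSucc (nat_lit 20704), .ofNat (nat_lit 293429), .negSucc (nat_lit 45522), .ofNat (nat_lit 254209), .negSucc (nat_lit 2808), .ofNat (nat_lit 296923)⟩⟩, []⟩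
noncomputable def p041_l107 : Lf2 := ⟨nat_lit 1, nat_lit 4, [nat_lit 38, nat_lit 5, nat_lit 5, nat_lit 20], false, nat_lit 160, nat_lit 240, nat_lit 0, nat_lit 384, zbN0,
 nat_lit 0, nat_lit 0, nat_lit 0, nat_lit 0, nat_lit 0, nat_lit 0, nat_lit 0, nat_lit 0, nat_lit 0, nat_lit 0, nat_lit 0, nat_lit 0, nat_lit 0, nat_lit 0, nat_lit 0, nat_lit 0, nat_lit 0, nat_lit 0, [],
 C1.Rw.none, C1.Rw.none,
 zbF0, []⟩
noncomputable def p041_l108 : Lf2 := ⟨nat_lit 0, nat_lit 4, [nat_lit 38, nat_lit 5, nat_lit 5, nat_lit 20], false, nat_lit 160, nat_lit 240, nat_lit 0, nat_lit 384, ⟨nat_lit 0, nat_lit 0, nat_lit 1000, nat_lit 4, nat_lit 99, nat_lit 1000, nat_lit 140, nat_lit 1000, nat_lit 183750, nat_lit 320, nat_lit 93750, nat_lit 290, nat_lit 54830709, nat_lit 0, nat_lit 0, nat_lit 3153493, false, false⟩,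
 nat_lit 0, nat_lit 6622, nat_lit 0, nat_lit 8948, nat_lit 3854, nat_lit 0, nat_lit 1629, nat_lit 0, nat_lit 0, nat_lit 0, nat_lit 0, nat_lit 0, nat_lit 0, nat_lit 0, nat_lit 117, nat_lit 1000000, nat_lit 0, nat_lit 0, [(nat_lit 9, [(nat_lit 6, nat_lit 1000)])],
 ⟨p041_k10, nat_lit 0, nat_lit 0, nat_lit 189, nat_lit 0, nat_lit 119411, [nat_lit 2969600000, nat_lit 1600000000, nat_lit 226400000], [], [nat_lit 18798884819, nat_lit 16791806407, nat_lit 13928536612, nat_lit 14992420400, nat_lit 16898617188, nat_lit 17974729480, nat_lit 19646329676, nat_lit 17779613944], nat_lit 1271250, nat_lit 1271250, nat_lit 0, nat_lit 1100001, nat_lit 1100001, nat_lit 1785000, [nat_lit 1100000, nat_lit 1442500, nat_lit 1271250], [nat_lit 9, nat_lit 40, nat_lit 40, nat_lit 80, nat_lit 2, nat_lit 317, nat_lit 100, nat_lit 10]⟩, ⟨p041_k7, nat_lit 0, nat_lit 0, nat_lit 536, nat_lit 0, nat_lit 241200, [nat_lit 0, nat_lit 0,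 nat_lit 0], [], [nat_lit 0, nat_lit 0, nat_lit 0, nat_lit 0, nat_lit 0, nat_lit 0, nat_lit 0, nat_lit 0], nat_lit 1100001, nat_lit 1442500, nat_lit 0, nat_lit 1100001, nat_lit 0, nat_lit 2712000, [nat_lit 1695000, nat_lit 1271250, nat_lit 1271250], [nat_lit 106, nat_lit 40, nat_lit 40, nat_lit 80, nat_lit 41, nat_lit 428, nat_lit 200, nat_lit 12]⟩,
 ⟨nat_lit 5477, nat_lit 5917, ⟨.ofNat (nat_lit 64652), .ofNat (nat_lit 378786), .ofNat (nat_lit 107331), .ofNat (nat_lit 421465), .ofNat (nat_lit 82619), .ofNat (nat_lit 382351), .ofNat (nat_lit 125333), .ofNat (nat_lit 425065)⟩, ⟨.ofNat (nat_lit 250751), .ofNat (nat_lit 407818), .ofNat (nat_lit 293429), .ofNat (nat_lit 450496), .ofNat (nat_lit 254209), .ofNat (nat_lit 404075), .ofNat (nat_lit 296923), .ofNat (nat_lit 446789)⟩⟩, [⟨nat_lit 0, nat_lit 100, nat_lit 92, nat_lit 40, nat_lit 101070633⟩]⟩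
noncomputable def p041_l109 : Lf2 := ⟨nat_lit 0, nat_lit 4, [nat_lit 38, nat_lit 5, nat_lit 5, nat_lit 20], false, nat_lit 240, nat_lit 336, nat_lit 0, nat_lit 384, ⟨nat_lit 0, nat_lit 0, nat_lit 1000, nat_lit 4, nat_lit 97, nat_lit 1000, nat_lit 209, nat_lit 1000, nat_lit 31510, nat_lit 200, nat_lit 88817, nat_lit 288, nat_lit 48588937, nat_lit 0, nat_lit 0, nat_lit 3907004, false, false⟩,
 nat_lit 0, nat_lit 7281, nat_lit 0, nat_lit 4802, nat_lit 3854, nat_lit 0, nat_lit 23, nat_lit 0, nat_lit 0, nat_lit 0, nat_lit 0, nat_lit 0, nat_lit 0, nat_lit 0, nat_lit 80, nat_lit 1000000, nat_lit 0, nat_lit 0, [(nat_lit 6, [(nat_lit 6, nat_lit 1000)]), (nat_lit 9, [(nat_lit 6, nat_lit 1000)])],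
 ⟨p041_k5, nat_lit 0, nat_lit 0, nat_lit 205, nat_lit 0, nat_lit 134000, [nat_lit 2377600001, nat_lit 1408000000, nat_lit 211200000], [], [nat_lit 15822504898, nat_lit 17974729482, nat_lit 15753327842, nat_lit 17577046818, nat_lit 22688162810, nat_lit 24846278634, nat_lit 20551231232, nat_lit 22456886794], nat_lit 1271250, nat_lit 1271250, nat_lit 0, nat_lit 1100001, nat_lit 1271250, nat_lit 1271250, [nat_lit 1100000, nat_lit 1442500, nat_lit 1271250], [nat_lit 9, nat_lit 40, nat_lit 40, nat_lit 80, nat_lit 2, nat_lit 249, nat_lit 40, nat_lit 8]⟩, ⟨p041_k7, nat_lit 0, nat_lit 0, nat_lit 536, nat_lit 0, nat_lit 241200, [nat_lit 0, nat_lit 0, nat_lit 0], [], [nat_lit 0, nat_lit 0, nat_lit 0, nat_lit 0, nat_lit 0, nat_lit 0, nat_lit 0, nat_lit 0], nat_lit 1100001, nat_lit 1442500, nat_lit 0, nat_lit 1100001, nat_lit 0, nat_lit 2712000, [nat_lit 1695000, nat_lit 1271250, nat_lit 1271250], [nat_lit 106, nat_lit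 40, nat_lit 40, nat_lit 80, nat_lit 41, nat_lit 428, nat_lit 200, nat_lit 12]⟩,
 ⟨nat_lit 5477, nat_lit 6325, ⟨.ofNat (nat_lit 45942), .ofNat (nat_lit 374999), .ofNat (nat_lit 88677), .ofNat (nat_lit 417734), .ofNat (nat_lit 82619), .ofNat (nat_lit 382351), .ofNat (nat_lit 125333), .ofNat (nat_lit 425065)⟩, ⟨.ofNat (nat_lit 411320), .ofNat (nat_lit 608692), .ofNat (nat_lit 454055), .ofNat (nat_lit 651380), .ofNat (nat_lit 404075), .ofNat (nat_lit 583853), .ofNat (nat_lit 446789), .ofNat (nat_lit 626519)⟩⟩, [⟨nat_lit 0, nat_lit 100, nat_lit 92, nat_lit 40, nat_lit 106343608⟩, ⟨nat_lit 4, nat_lit 92, nat_lit 100, nat_lit 75, nat_lit 498857040⟩]⟩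
noncomputable def p041_l110 : Lf2 := ⟨nat_lit 1, nat_lit 4, [nat_lit 38, nat_lit 5, nat_lit 5, nat_lit 20], false, nat_lit 0, nat_lit 160, nat_lit 0, nat_lit 384, zbN0,
 nat_lit 0, nat_lit 0, nat_lit 0, nat_lit 0, nat_lit 0, nat_lit 0, nat_lit 0, nat_lit 0, nat_lit 0, nat_lit 0, nat_lit 0, nat_lit 0, nat_lit 0, nat_lit 0, nat_lit 0, nat_lit 0, nat_lit 0, nat_lit 0, [],
 C1.Rw.none, C1.Rw.none,
 zbF0, []⟩
noncomputable def p041_l111 : Lf2 := ⟨nat_lit 0, nat_lit 4, [nat_lit 38, nat_lit 5, nat_lit 5, nat_lit 20], false, nat_lit 0, nat_lit 160, nat_lit 0, nat_lit 384, ⟨nat_lit 0, nat_lit 0, nat_lit 1000, nat_lit 4, nat_lit 191, nat_lit 377, nat_lit 55, nat_lit 1000, nat_lit 21600, nat_lit 251, nat_lit 1481, nat_lit 220, nat_lit 54511385, nat_lit 0, nat_lit 0, nat_lit 2404781, false, true⟩,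
 nat_lit 0, nat_lit 6771, nat_lit 0, nat_lit 7547, nat_lit 3941, nat_lit 0, nat_lit 1409, nat_lit 0, nat_lit 0, nat_lit 0, nat_lit 0, nat_lit 0, nat_lit 0, nat_lit 0, nat_lit 117, nat_lit 1000000, nat_lit 0, nat_lit 0, [(nat_lit 9, [(nat_lit 6, nat_lit 1000)])],
 ⟨p041_k10, nat_lit 0, nat_lit 0, nat_lit 189, nat_lit 0, nat_lit 119411, [nat_lit 2969600000, nat_lit 1600000000, nat_lit 226400000], [], [nat_lit 18976338301, nat_lit 16923952203, nat_lit 16784179302, nat_lit 18063633444, nat_lit 13724615398, nat_lit 14798636600, nat_lit 19509669554, nat_lit 17600814676], nat_lit 1271250, nat_lit 1271250, nat_lit 1100001, nat_lit 1785000, nat_lit 0, nat_lit 1100001, [nat_lit 1100000, nat_lit 1442500, nat_lit 1271250], [nat_lit 9, nat_lit 40, nat_lit 40, nat_lit 80, nat_lit 2, nat_lit 317, nat_lit 100, nat_lit 10]⟩, ⟨p041_k7, nat_lit 0, nat_lit 0, nat_lit 373, nat_lit 0, nat_lit 241200, [nat_lit 0, nat_lit 0,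 nat_lit 0], [], [nat_lit 0, nat_lit 0, nat_lit 0, nat_lit 0, nat_lit 0, nat_lit 0, nat_lit 0, nat_lit 0], nat_lit 1100001, nat_lit 1442500, nat_lit 1271250, nat_lit 1271250, nat_lit 0, nat_lit 2712000, [nat_lit 1695000, nat_lit 1271250, nat_lit 1271250], [nat_lit 106, nat_lit 40, nat_lit 40, nat_lit 80, nat_lit 41, nat_lit 456, nat_lit 225, nat_lit 12]⟩,
 ⟨nat_lit 5477, nat_lit 5917, ⟨.ofNat (nat_lit 378786), .ofNat (nat_lit 535851), .ofNat (nat_lit 421465), .ofNat (nat_lit 578514), .ofNat (nat_lit 382351), .ofNat (nat_lit 532215), .ofNat (nat_lit 425065), .ofNat (nat_lit 574913)⟩, ⟨.negSucc (nat_lit 63383), .ofNat (nat_lit 250751), .negSucc (nat_lit 20704), .ofNat (nat_lit 293429), .negSucc (nat_lit 45522), .ofNat (nat_lit 254209), .negSucc (nat_lit 2808), .ofNat (nat_lit 296923)⟩⟩, []⟩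
noncomputable def p041_l112 : Lf2 := ⟨nat_lit 0, nat_lit 4, [nat_lit 38, nat_lit 5, nat_lit 5, nat_lit 20], false, nat_lit 0, nat_lit 160, nat_lit 0, nat_lit 384, ⟨nat_lit 81, nat_lit 919, nat_lit 0, nat_lit 6, nat_lit 254, nat_lit 919, nat_lit 54, nat_lit 0, nat_lit 0, nat_lit 0, nat_lit 0, nat_lit 0, nat_lit 47717241, nat_lit 19282759, nat_lit 0, nat_lit 3000860, false, true⟩,
 nat_lit 2499, nat_lit 7265, nat_lit 0, nat_lit 0, nat_lit 5169, nat_lit 833, nat_lit 980, nat_lit 0, nat_lit 0, nat_lit 179, nat_lit 0, nat_lit 0, nat_lit 0, nat_lit 0, nat_lit 0, nat_lit 919000, nat_lit 0, nat_lit 0, [(nat_lit 6, [(nat_lit 2, nat_lit 919)]), (nat_lit 9, [(nat_lit 2, nat_lit 919)])],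
 ⟨p041_k5, nat_lit 0, nat_lit 0, nat_lit 197, nat_lit 0, nat_lit 134000, [nat_lit 2970572801, nat_lit 3080185200, nat_lit 2913281800], [], [nat_lit 19124372221, nat_lit 21394149921, nat_lit 23951947765, nat_lit 25789419032, nat_lit 17736980381, nat_lit 19639791401, nat_lit 21788242901, nat_lit 23309259185], nat_lit 1271250, nat_lit 1271250, nat_lit 1271250, nat_lit 1271250, nat_lit 0, nat_lit 1100001, [nat_lit 1100000, nat_lit 1442500, nat_lit 1271250], [nat_lit 9, nat_lit 40, nat_lit 40, nat_lit 80, nat_lit 2, nat_lit 249, nat_lit 40, nat_lit 8]⟩, ⟨p041_k7, nat_lit 0, nat_lit 0, nat_lit 376, nat_lit 0, nat_lit 241200, [nat_lit 645408000, nat_lit 797202000, nat_lit 961632000], [], [nat_lit 2883922812, nat_lit 2897734788, nat_lit 3150607000, nat_lit 3138521996, nat_lit 4164458720, nat_lit 4686804446, nat_lit 2943717675, nat_lit 3254016457], nat_lit 1100001, nat_lit 1442500, nat_lit 1271250, nat_lit 1271250,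 nat_lit 0, nat_lit 2712000, [nat_lit 1695000, nat_lit 1271250, nat_lit 1271250], [nat_lit 106, nat_lit 40, nat_lit 40, nat_lit 80, nat_lit 41, nat_lit 483, nat_lit 250, nat_lit 12]⟩,
 ⟨nat_lit 5477, nat_lit 6325, ⟨.ofNat (nat_lit 539501), .ofNat (nat_lit 703860), .ofNat (nat_lit 582178), .ofNat (nat_lit 746534), .ofNat (nat_lit 532191), .ofNat (nat_lit 681888), .ofNat (nat_lit 574846), .ofNat (nat_lit 724540)⟩, ⟨.negSucc (nat_lit 82265), .ofNat (nat_lit 246791), .negSucc (nat_lit 39529), .ofNat (nat_lit 289527), .negSucc (nat_lit 45522), .ofNat (nat_lit 254209), .negSucc (nat_lit 2808), .ofNat (nat_lit 296923)⟩⟩, [⟨nat_lit 22, nat_lit 100, nat_lit 95, nat_lit 87, nat_lit 20434706⟩]⟩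
noncomputable def p041_l113 : Lf2 := ⟨nat_lit 0, nat_lit 4, [nat_lit 38, nat_lit 5, nat_lit 5, nat_lit 20], false, nat_lit 0, nat_lit 160, nat_lit 0, nat_lit 336, ⟨nat_lit 1000, nat_lit 0, nat_lit 0, nat_lit 0, nat_lit 0, nat_lit 0, nat_lit 0, nat_lit 0, nat_lit 0, nat_lit 0, nat_lit 0, nat_lit 0, nat_lit 0, nat_lit 0, nat_lit 0, nat_lit 0, false, false⟩,
 nat_lit 30089, nat_lit 0, nat_lit 0, nat_lit 0, nat_lit 8066, nat_lit 10029, nat_lit 1644, nat_lit 0, nat_lit 0, nat_lit 1867, nat_lit 0, nat_lit 0, nat_lit 0, nat_lit 0, nat_lit 0, nat_lit 0, nat_lit 0, nat_lit 0, [],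
 ⟨p041_k5, nat_lit 0, nat_lit 0, nat_lit 248, nat_lit 0, nat_lit 134000, [nat_lit 4688000000, nat_lit 6250000000, nat_lit 7968000000], [], [nat_lit 29182951808, nat_lit 30777064152, nat_lit 38416412878, nat_lit 40588732516, nat_lit 23558298488, nat_lit 24999671800, nat_lit 29272629444, nat_lit 31206972852], nat_lit 1271250, nat_lit 1271250, nat_lit 1271250, nat_lit 1271250, nat_lit 0, nat_lit 1100001, [nat_lit 1100000, nat_lit 1442500, nat_lit 1271250], [nat_lit 9, nat_lit 40, nat_lit 40, nat_lit 80, nat_lit 2, nat_lit 249, nat_lit 40, nat_lit 7]⟩, ⟨p041_k7, nat_lit 0, nat_lit 0, nat_lit 398, nat_lit 0, nat_lit 241200, [nat_lit 7968000000, nat_lit 9842000000, nat_lit 11872000000], [], [nat_lit 39558839285, nat_lit 39533752465, nat_lit 45084661243, nat_lit 44649530494, nat_lit 34534330447, nat_lit 35741933018, nat_lit 37861263234, nat_lit 37158641536], nat_lit 1100001, nat_lit 1442500, nat_lit 1271250,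 nat_lit 1271250, nat_lit 0, nat_lit 2373000, [nat_lit 1695000, nat_lit 1271250, nat_lit 1271250], [nat_lit 106, nat_lit 40, nat_lit 40, nat_lit 80, nat_lit 41, nat_lit 373, nat_lit 150, nat_lit 9]⟩,
 zbF0, [⟨nat_lit 22, nat_lit 61, nat_lit 100, nat_lit 80, nat_lit 159657760⟩]⟩
noncomputable def p041_l114 : Lf2 := ⟨nat_lit 1, nat_lit 4, [nat_lit 38, nat_lit 5, nat_lit 5, nat_lit 20], false, nat_lit 160, nat_lit 336, nat_lit 0, nat_lit 384, zbN0,
 nat_lit 0, nat_lit 0, nat_lit 0, nat_lit 0, nat_lit 0, nat_lit 0, nat_lit 0, nat_lit 0, nat_lit 0, nat_lit 0, nat_lit 0, nat_lit 0, nat_lit 0, nat_lit 0, nat_lit 0, nat_lit 0, nat_lit 0, nat_lit 0, [],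
 C1.Rw.none, C1.Rw.none,
 zbF0, []⟩
noncomputable def p041_l115 : Lf2 := ⟨nat_lit 0, nat_lit 4, [nat_lit 38, nat_lit 5, nat_lit 5, nat_lit 20], false, nat_lit 160, nat_lit 320, nat_lit 0, nat_lit 384, ⟨nat_lit 0, nat_lit 1000, nat_lit 0, nat_lit 4, nat_lit 191, nat_lit 1000, nat_lit 171, nat_lit 0, nat_lit 0, nat_lit 0, nat_lit 0, nat_lit 0, nat_lit 45204618, nat_lit 11869899, nat_lit 9925483, nat_lit 4596022, false, true⟩,
 nat_lit 0, nat_lit 8102, nat_lit 0, nat_lit 0, nat_lit 4716, nat_lit 0, nat_lit 0, nat_lit 0, nat_lit 0, nat_lit 0, nat_lit 0, nat_lit 0, nat_lit 0, nat_lit 0, nat_lit 0, nat_lit 1000000, nat_lit 0, nat_lit 0, [(nat_lit 9, [(nat_lit 2, nat_lit 1000)])],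
 ⟨p041_k10, nat_lit 0, nat_lit 0, nat_lit 109, nat_lit 0, nat_lit 119411, [nat_lit 2663466667, nat_lit 2329200000, nat_lit 1646800000], [], [nat_lit 12834138619, nat_lit 14228416203, nat_lit 16330931667, nat_lit 17409130587, nat_lit 20970828659, nat_lit 21906354363, nat_lit 23077181883, nat_lit 23872604603], nat_lit 1271250, nat_lit 1271250, nat_lit 1100001, nat_lit 1785000, nat_lit 1271250, nat_lit 1271250, [nat_lit 1100000, nat_lit 1442500, nat_lit 1271250], [nat_lit 9, nat_lit 40, nat_lit 40, nat_lit 80, nat_lit 2, nat_lit 373, nat_lit 150, nat_lit 12]⟩, ⟨p041_k7, nat_lit 0, nat_lit 0, nat_lit 373, nat_lit 0, nat_lit 241200, [nat_lit 0, nat_lit 0, nat_lit 0], [], [nat_lit 0, nat_lit 0, nat_lit 0, nat_lit 0, nat_lit 0, nat_lit 0, nat_lit 0, nat_lit 0], nat_lit 1100001, nat_lit 1442500, nat_lit 1271250, nat_lit 1271250, nat_lit 0, nat_lit 2712000, [nat_lit 1695000, nat_lit 1271250, nat_lit 1271250],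 [nat_lit 106, nat_lit 40, nat_lit 40, nat_lit 80, nat_lit 41, nat_lit 456, nat_lit 225, nat_lit 12]⟩,
 ⟨nat_lit 5477, nat_lit 5917, ⟨.ofNat (nat_lit 378786), .ofNat (nat_lit 535851), .ofNat (nat_lit 421465), .ofNat (nat_lit 578514), .ofNat (nat_lit 382351), .ofNat (nat_lit 532215), .ofNat (nat_lit 425065), .ofNat (nat_lit 574913)⟩, ⟨.ofNat (nat_lit 250751), .ofNat (nat_lit 564885), .ofNat (nat_lit 293429), .ofNat (nat_lit 607556), .ofNat (nat_lit 254209), .ofNat (nat_lit 553941), .ofNat (nat_lit 296923), .ofNat (nat_lit 596648)⟩⟩, [⟨nat_lit 4, nat_lit 97, nat_lit 100, nat_lit 76, nat_lit 183199815⟩]⟩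
noncomputable def p041_l116 : Lf2 := ⟨nat_lit 0, nat_lit 4, [nat_lit 38, nat_lit 5, nat_lit 5, nat_lit 20], false, nat_lit 160, nat_lit 336, nat_lit 0, nat_lit 384, ⟨nat_lit 78, nat_lit 922, nat_lit 0, nat_lit 6, nat_lit 254, nat_lit 922, nat_lit 178, nat_lit 0, nat_lit 0, nat_lit 0, nat_lit 0, nat_lit 0, nat_lit 39828947, nat_lit 17363862, nat_lit 9807191, nat_lit 5063747, false, true⟩,
 nat_lit 3061, nat_lit 7122, nat_lit 0, nat_lit 0, nat_lit 5390, nat_lit 1020, nat_lit 0, nat_lit 0, nat_lit 0, nat_lit 199, nat_lit 0, nat_lit 0, nat_lit 0, nat_lit 0, nat_lit 0, nat_lit 922000, nat_lit 0, nat_lit 0, [(nat_lit 6, [(nat_lit 2, nat_lit 922)]), (nat_lit 9, [(nat_lit 2, nat_lit 922)])],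
 ⟨p041_k5, nat_lit 0, nat_lit 0, nat_lit 98, nat_lit 0, nat_lit 134000, [nat_lit 2964966401, nat_lit 3069837601, nat_lit 2896908399], [], [nat_lit 19864693521, nat_lit 19160754002, nat_lit 21352411002, nat_lit 22894607042, nat_lit 26538971922, nat_lit 25311688905, nat_lit 27466283265, nat_lit 28892949153], nat_lit 1271250, nat_lit 1271250, nat_lit 1271250, nat_lit 1271250, nat_lit 1100001, nat_lit 2607000, [nat_lit 1100000, nat_lit 1442500, nat_lit 1271250], [nat_lit 9, nat_lit 40, nat_lit 40, nat_lit 80, nat_lit 2, nat_lit 317, nat_lit 100, nat_lit 9]⟩, ⟨p041_k7, nat_lit 0, nat_lit 0, nat_lit 376, nat_lit 0, nat_lit 241200, [nat_lit 621504000, nat_lit 767676000, nat_lit 926016000], [], [nat_lit 2472862173, nat_lit 2488124637, nat_lit 2859841656, nat_lit 2861157837, nat_lit 4084448256, nat_lit 4695033720, nat_lit 2976218064, nat_lit 2948352672], nat_lit 1100001, nat_lit 1442500, nat_lit 1271250, nat_lit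 1271250, nat_lit 0, nat_lit 2712000, [nat_lit 1695000, nat_lit 1271250, nat_lit 1271250], [nat_lit 106, nat_lit 40, nat_lit 40, nat_lit 80, nat_lit 41, nat_lit 483, nat_lit 250, nat_lit 12]⟩,
 ⟨nat_lit 5477, nat_lit 6325, ⟨.ofNat (nat_lit 539501), .ofNat (nat_lit 703860), .ofNat (nat_lit 582178), .ofNat (nat_lit 746534), .ofNat (nat_lit 532191), .ofNat (nat_lit 681888), .ofNat (nat_lit 574846), .ofNat (nat_lit 724540)⟩, ⟨.ofNat (nat_lit 246791), .ofNat (nat_lit 608692), .ofNat (nat_lit 289527), .ofNat (nat_lit 651380), .ofNat (nat_lit 254209), .ofNat (nat_lit 583853), .ofNat (nat_lit 296923), .ofNat (nat_lit 626519)⟩⟩, [⟨nat_lit 4, nat_lit 92, nat_lit 100, nat_lit 75, nat_lit 182923632⟩, ⟨nat_lit 7, nat_lit 63, nat_lit 100, nat_lit 72, nat_lit 23406607⟩]⟩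
noncomputable def p041_l117 : Lf2 := ⟨nat_lit 0, nat_lit 4, [nat_lit 38, nat_lit 5, nat_lit 5, nat_lit 20], false, nat_lit 160, nat_lit 336, nat_lit 16, nat_lit 384, ⟨nat_lit 380, nat_lit 620, nat_lit 0, nat_lit 8, nat_lit 316, nat_lit 620, nat_lit 178, nat_lit 0, nat_lit 0, nat_lit 0, nat_lit 0, nat_lit 0, nat_lit 35269013, nat_lit 22734884, nat_lit 8996103, nat_lit 5239802, true, true⟩,
 nat_lit 10596, nat_lit 0, nat_lit 0, nat_lit 0, nat_lit 5466, nat_lit 3531, nat_lit 776, nat_lit 0, nat_lit 0, nat_lit 698, nat_lit 0, nat_lit 0, nat_lit 0, nat_lit 0, nat_lit 0, nat_lit 620000, nat_lit 0, nat_lit 0, [(nat_lit 6, [(nat_lit 2, nat_lit 620)]), (nat_lit 9, [(nat_lit 2, nat_lit 620)])],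
 ⟨p041_k5, nat_lit 0, nat_lit 0, nat_lit 140, nat_lit 0, nat_lit 134000, [nat_lit 3529344001, nat_lit 4111496000, nat_lit 4545164000], [], [nat_lit 23138901057, nat_lit 24552102753, nat_lit 27570865379, nat_lit 28730608581, nat_lit 28136342686, nat_lit 29170893242, nat_lit 32342407825, nat_lit 33362256551], nat_lit 1271250, nat_lit 1271250, nat_lit 1271250, nat_lit 1271250, nat_lit 1100001, nat_lit 2607000, [nat_lit 1100000, nat_lit 1442500, nat_lit 1271250], [nat_lit 9, nat_lit 40, nat_lit 40, nat_lit 80, nat_lit 2, nat_lit 317, nat_lit 100, nat_lit 9]⟩, ⟨p041_k7, nat_lit 0, nat_lit 0, nat_lit 384, nat_lit 0, nat_lit 241200, [nat_lit 3027840000, nat_lit 3739960000, nat_lit 4511360000], [], [nat_lit 15108198358, nat_lit 15067588194, nat_lit 16747495749, nat_lit 16619613516, nat_lit 14425112831, nat_lit 14229031736, nat_lit 15453239687, nat_lit 15174995014], nat_lit 1100001, nat_lit 1442500, nat_lit 1271250,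 nat_lit 1271250, nat_lit 88400, nat_lit 2742600, [nat_lit 1695000, nat_lit 1271250, nat_lit 1271250], [nat_lit 106, nat_lit 40, nat_lit 40, nat_lit 80, nat_lit 41, nat_lit 373, nat_lit 150, nat_lit 9]⟩,
 ⟨nat_lit 5477, nat_lit 6325, ⟨.ofNat (nat_lit 703860), .ofNat (nat_lit 859998), .ofNat (nat_lit 746534), .ofNat (nat_lit 902672), .ofNat (nat_lit 681888), .ofNat (nat_lit 824097), .ofNat (nat_lit 724540), .ofNat (nat_lit 866749)⟩, ⟨.ofNat (nat_lit 246791), .ofNat (nat_lit 608692), .ofNat (nat_lit 289527), .ofNat (nat_lit 651380), .ofNat (nat_lit 254209), .ofNat (nat_lit 583853), .ofNat (nat_lit 296923), .ofNat (nat_lit 626519)⟩⟩, [⟨nat_lit 13, nat_lit 96, nat_lit 40, nat_lit 100, nat_lit 113582500⟩, ⟨nat_lit 16, nat_lit 100, nat_lit 92, nat_lit 75, nat_lit 254840261⟩, ⟨nat_lit 19, nat_lit 100, nat_lit 63, nat_lit 72, nat_lit 80879370⟩]⟩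
noncomputable def b_V_600_400_10_1 : St := ⟨true, nat_lit 1, nat_lit 2, nat_lit 1, nat_lit 80, nat_lit 240, nat_lit 280, nat_lit 160, nat_lit 200, nat_lit 0, nat_lit 396, nat_lit 40, nat_lit 80, nat_lit 0, nat_lit 336, nat_lit 0, nat_lit 384, nat_lit 0, nat_lit 16, nat_lit 0, nat_lit 0, nat_lit 0, nat_lit 0⟩
theorem d_V_600_400_10_1 (h : EB TB.env) : Dead b_V_600_400_10_1 := chkB_sound0 h (T :=
(.st (nat_lit 1)
(.spl (nat_lit 2) (nat_lit 160)
(.spl (nat_lit 4) (nat_lit 160)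
(.spl (nat_lit 2) (nat_lit 80)
(.spl (nat_lit 0) (nat_lit 260)
(.leaf p041_l90)
(.leaf p041_l91))
(.spl (nat_lit 0) (nat_lit 260)
(.leaf p041_l92)
(.leaf p041_l93)))
(.spl (nat_lit 4) (nat_lit 240)
(.spl (nat_lit 2) (nat_lit 80)
(.leaf p041_l94)
(.leaf p041_l95))
(.spl (nat_lit 2) (nat_lit 80)
(.trX (nat_lit 23) (nat_lit 100) (nat_lit 76) (nat_lit 82) (nat_lit 336) (.leaf p041_l96))
(.leaf p041_l97))))
(.spl (nat_lit 2) (nat_lit 240)
(.spl (nat_lit 4) (nat_lit 160)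
(.spl (nat_lit 5) (nat_lit 160)
(.leaf p041_l98)
(.leaf p041_l99))
(.spl (nat_lit 2) (nat_lit 200)
(.spl (nat_lit 0) (nat_lit 260)
(.leaf p041_l100)
(.trX (nat_lit 16) (nat_lit 100) (nat_lit 85) (nat_lit 84) (nat_lit 320) (.leaf p041_l101)))
(.leaf p041_l102)))
(.spl (nat_lit 4) (nat_lit 160)
(.leaf p041_l103)
(.leaf p041_l104))))
(.spl (nat_lit 2) (nat_lit 160)
(.spl (nat_lit 4) (nat_lit 160)
(.spl (nat_lit 0) (nat_lit 260)
(.leaf p041_l105)
(.leaf p041_l106))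
(.spl (nat_lit 4) (nat_lit 240)
(.spl (nat_lit 0) (nat_lit 260)
(.leaf p041_l107)
(.leaf p041_l108))
(.leaf p041_l109)))
(.spl (nat_lit 4) (nat_lit 160)
(.spl (nat_lit 2) (nat_lit 240)
(.spl (nat_lit 0) (nat_lit 260)
(.leaf p041_l110)
(.leaf p041_l111))
(.spl (nat_lit 2) (nat_lit 320)
(.leaf p041_l112)
(.trX (nat_lit 22) (nat_lit 82) (nat_lit 76) (nat_lit 100) (nat_lit 336) (.leaf p041_l113))))
(.spl (nat_lit 2) (nat_lit 240)
(.spl (nat_lit 0) (nat_lit 260)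
(.leaf p041_l114)
(.trX (nat_lit 16) (nat_lit 100) (nat_lit 85) (nat_lit 84) (nat_lit 320) (.leaf p041_l115)))
(.spl (nat_lit 2) (nat_lit 320)
(.leaf p041_l116)
(.trZ (nat_lit 9) (nat_lit 100) (nat_lit 82) (nat_lit 44) (nat_lit 16) (.leaf p041_l117)))))))) (by decide +kernel)
noncomputable def p041_l118 : Lf2 := ⟨nat_lit 1, nat_lit 4, [nat_lit 38, nat_lit 5, nat_lit 5, nat_lit 20], false, nat_lit 0, nat_lit 336, nat_lit 0, nat_lit 384, zbN0,
 nat_lit 0, nat_lit 0, nat_lit 0, nat_lit 0, nat_lit 0, nat_lit 0, nat_lit 0, nat_lit 0, nat_lit 0, nat_lit 0, nat_lit 0, nat_lit 0, nat_lit 0, nat_lit 0, nat_lit 0, nat_lit 0, nat_lit 0, nat_lit 0, [],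
 C1.Rw.none, C1.Rw.none,
 zbF0, []⟩
noncomputable def p041_l119 : Lf2 := ⟨nat_lit 0, nat_lit 4, [nat_lit 38, nat_lit 5, nat_lit 5, nat_lit 20], true, nat_lit 0, nat_lit 320, nat_lit 0, nat_lit 384, ⟨nat_lit 0, nat_lit 1000, nat_lit 0, nat_lit 4, nat_lit 84, nat_lit 1000, nat_lit 116, nat_lit 0, nat_lit 0, nat_lit 0, nat_lit 0, nat_lit 0, nat_lit 0, nat_lit 0, nat_lit 0, nat_lit 5000000, false, false⟩,
 nat_lit 0, nat_lit 10244, nat_lit 0, nat_lit 15213, nat_lit 5962, nat_lit 0, nat_lit 5307, nat_lit 0, nat_lit 0, nat_lit 0, nat_lit 0, nat_lit 0, nat_lit 0, nat_lit 0, nat_lit 0, nat_lit 400000, nat_lit 0, nat_lit 0, [(nat_lit 9, [(nat_lit 1, nat_lit 1000)])],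
 ⟨p041_k9, nat_lit 0, nat_lit 0, nat_lit 297, nat_lit 0, nat_lit 195529, [nat_lit 2742800000, nat_lit 3014800000], [], [nat_lit 34161210124, nat_lit 31008874168, nat_lit 15810864072, nat_lit 16964979992, nat_lit 25752701844, nat_lit 27149009928, nat_lit 29401598256, nat_lit 26701956960], nat_lit 1271250, nat_lit 1271250, nat_lit 0, nat_lit 780000, nat_lit 0, nat_lit 2260000, [nat_lit 1100000, nat_lit 1785000], [nat_lit 39, nat_lit 40, nat_lit 40, nat_lit 80, nat_lit 7, nat_lit 345, nat_lit 125, nat_lit 12]⟩, C1.Rw.none,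
 ⟨nat_lit 5477, nat_lit 5917, ⟨.ofNat (nat_lit 64652), .ofNat (nat_lit 300253), .ofNat (nat_lit 107331), .ofNat (nat_lit 342931), .ofNat (nat_lit 82619), .ofNat (nat_lit 307418), .ofNat (nat_lit 125333), .ofNat (nat_lit 350132)⟩, ⟨.negSucc (nat_lit 63383), .ofNat (nat_lit 564885), .negSucc (nat_lit 20704), .ofNat (nat_lit 607556), .negSucc (nat_lit 45522), .ofNat (nat_lit 553941), .negSucc (nat_lit 2808), .ofNat (nat_lit 596648)⟩⟩, [⟨nat_lit 4, nat_lit 97, nat_lit 100, nat_lit 76, nat_lit 3000784⟩]⟩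
noncomputable def p041_l120 : Lf2 := ⟨nat_lit 1, nat_lit 4, [nat_lit 38, nat_lit 5, nat_lit 5, nat_lit 20], false, nat_lit 0, nat_lit 336, nat_lit 0, nat_lit 384, zbN0,
 nat_lit 0, nat_lit 0, nat_lit 0, nat_lit 0, nat_lit 0, nat_lit 0, nat_lit 0, nat_lit 0, nat_lit 0, nat_lit 0, nat_lit 0, nat_lit 0, nat_lit 0, nat_lit 0, nat_lit 0, nat_lit 0, nat_lit 0, nat_lit 0, [],
 C1.Rw.none, C1.Rw.none,
 zbF0, []⟩
noncomputable def p041_l121 : Lf2 := ⟨nat_lit 0, nat_lit 4, [nat_lit 38, nat_lit 5, nat_lit 5, nat_lit 20], true, nat_lit 0, nat_lit 320, nat_lit 0, nat_lit 384, ⟨nat_lit 0, nat_lit 1000, nat_lit 0, nat_lit 4, nat_lit 234, nat_lit 1000, nat_lit 116, nat_lit 0, nat_lit 0, nat_lit 0, nat_lit 0, nat_lit 0, nat_lit 0, nat_lit 0, nat_lit 0, nat_lit 5000000, false, true⟩,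
 nat_lit 0, nat_lit 7381, nat_lit 0, nat_lit 0, nat_lit 4296, nat_lit 0, nat_lit 0, nat_lit 0, nat_lit 0, nat_lit 0, nat_lit 0, nat_lit 0, nat_lit 0, nat_lit 0, nat_lit 0, nat_lit 1000000, nat_lit 0, nat_lit 0, [(nat_lit 9, [(nat_lit 2, nat_lit 1000)])],
 ⟨p041_k10, nat_lit 0, nat_lit 0, nat_lit 266, nat_lit 0, nat_lit 195529, [nat_lit 2663466667, nat_lit 2329200000, nat_lit 1646800000], [], [nat_lit 34180047622, nat_lit 31873361974, nat_lit 29776280235, nat_lit 30543184807, nat_lit 34485760667, nat_lit 32461459691, nat_lit 30710895454, nat_lit 31075782990], nat_lit 1271250, nat_lit 1271250, nat_lit 1271250, nat_lit 1271250, nat_lit 0, nat_lit 2260000, [nat_lit 1100000, nat_lit 1442500, nat_lit 1271250], [nat_lit 9, nat_lit 40, nat_lit 40, nat_lit 80, nat_lit 2, nat_lit 428, nat_lit 200, nat_lit 14]⟩, C1.Rw.none,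
 ⟨nat_lit 5477, nat_lit 5917, ⟨.ofNat (nat_lit 300253), .ofNat (nat_lit 834207), .ofNat (nat_lit 342931), .ofNat (nat_lit 876870), .ofNat (nat_lit 307418), .ofNat (nat_lit 816889), .ofNat (nat_lit 350132), .ofNat (nat_lit 859587)⟩, ⟨.negSucc (nat_lit 63383), .ofNat (nat_lit 564885), .negSucc (nat_lit 20704), .ofNat (nat_lit 607556), .negSucc (nat_lit 45522), .ofNat (nat_lit 553941), .negSucc (nat_lit 2808), .ofNat (nat_lit 596648)⟩⟩, [⟨nat_lit 13, nat_lit 94, nat_lit 44, nat_lit 100, nat_lit 12983389⟩, ⟨nat_lit 4, nat_lit 97, nat_lit 100, nat_lit 76, nat_lit 93246824⟩]⟩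
noncomputable def p041_l122 : Lf2 := ⟨nat_lit 1, nat_lit 4, [nat_lit 38, nat_lit 5, nat_lit 5, nat_lit 20], false, nat_lit 0, nat_lit 336, nat_lit 0, nat_lit 384, zbN0,
 nat_lit 0, nat_lit 0, nat_lit 0, nat_lit 0, nat_lit 0, nat_lit 0, nat_lit 0, nat_lit 0, nat_lit 0, nat_lit 0, nat_lit 0, nat_lit 0, nat_lit 0, nat_lit 0, nat_lit 0, nat_lit 0, nat_lit 0, nat_lit 0, [],
 C1.Rw.none, C1.Rw.none,
 zbF0, []⟩
noncomputable def p041_l123 : Lf2 := ⟨nat_lit 0, nat_lit 4, [nat_lit 38, nat_lit 5, nat_lit 5, nat_lit 20], true, nat_lit 0, nat_lit 320, nat_lit 0, nat_lit 384, ⟨nat_lit 0, nat_lit 1000, nat_lit 0, nat_lit 4, nat_lit 84, nat_lit 1000, nat_lit 116, nat_lit 0, nat_lit 0, nat_lit 0, nat_lit 0, nat_lit 0, nat_lit 0, nat_lit 0, nat_lit 0, nat_lit 5000000, false, false⟩,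
 nat_lit 0, nat_lit 10124, nat_lit 0, nat_lit 15259, nat_lit 5892, nat_lit 0, nat_lit 4678, nat_lit 0, nat_lit 0, nat_lit 0, nat_lit 0, nat_lit 0, nat_lit 0, nat_lit 0, nat_lit 0, nat_lit 1000000, nat_lit 0, nat_lit 0, [(nat_lit 9, [(nat_lit 2, nat_lit 1000)])],
 ⟨p041_k10, nat_lit 0, nat_lit 0, nat_lit 311, nat_lit 0, nat_lit 195529, [nat_lit 2663466667, nat_lit 2329200000, nat_lit 1646800000], [], [nat_lit 33853552985, nat_lit 30738228689, nat_lit 15706669820, nat_lit 16853984540, nat_lit 25640970504, nat_lit 27028900848, nat_lit 29249916097, nat_lit 26581971361], nat_lit 1271250, nat_lit 1271250, nat_lit 0, nat_lit 780000, nat_lit 0, nat_lit 2260000, [nat_lit 1100000, nat_lit 1442500, nat_lit 1271250], [nat_lit 9, nat_lit 40, nat_lit 40, nat_lit 80, nat_lit 2, nat_lit 345, nat_lit 125, nat_lit 12]⟩, C1.Rw.none,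
 ⟨nat_lit 5477, nat_lit 5917, ⟨.ofNat (nat_lit 64652), .ofNat (nat_lit 300253), .ofNat (nat_lit 107331), .ofNat (nat_lit 342931), .ofNat (nat_lit 82619), .ofNat (nat_lit 307418), .ofNat (nat_lit 125333), .ofNat (nat_lit 350132)⟩, ⟨.negSucc (nat_lit 63383), .ofNat (nat_lit 564885), .negSucc (nat_lit 20704), .ofNat (nat_lit 607556), .negSucc (nat_lit 45522), .ofNat (nat_lit 553941), .negSucc (nat_lit 2808), .ofNat (nat_lit 596648)⟩⟩, [⟨nat_lit 4, nat_lit 97, nat_lit 100, nat_lit 76, nat_lit 6096626⟩]⟩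
noncomputable def p041_l124 : Lf2 := ⟨nat_lit 1, nat_lit 4, [nat_lit 38, nat_lit 5, nat_lit 5, nat_lit 20], false, nat_lit 0, nat_lit 336, nat_lit 0, nat_lit 384, zbN0,
 nat_lit 0, nat_lit 0, nat_lit 0, nat_lit 0, nat_lit 0, nat_lit 0, nat_lit 0, nat_lit 0, nat_lit 0, nat_lit 0, nat_lit 0, nat_lit 0, nat_lit 0, nat_lit 0, nat_lit 0, nat_lit 0, nat_lit 0, nat_lit 0, [],
 C1.Rw.none, C1.Rw.none,
 zbF0, []⟩
noncomputable def p041_l125 : Lf2 := ⟨nat_lit 0, nat_lit 4, [nat_lit 38, nat_lit 5, nat_lit 5, nat_lit 20], true, nat_lit 0, nat_lit 320, nat_lit 0, nat_lit 384, ⟨nat_lit 0, nat_lit 1000, nat_lit 0, nat_lit 4, nat_lit 234, nat_lit 1000, nat_lit 116, nat_lit 0, nat_lit 0, nat_lit 0, nat_lit 0, nat_lit 0, nat_lit 0, nat_lit 0, nat_lit 0, nat_lit 5000000, false, true⟩,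
 nat_lit 0, nat_lit 7381, nat_lit 0, nat_lit 0, nat_lit 4296, nat_lit 0, nat_lit 0, nat_lit 0, nat_lit 0, nat_lit 0, nat_lit 0, nat_lit 0, nat_lit 0, nat_lit 0, nat_lit 0, nat_lit 1000000, nat_lit 0, nat_lit 0, [(nat_lit 9, [(nat_lit 2, nat_lit 1000)])],
 ⟨p041_k10, nat_lit 0, nat_lit 0, nat_lit 266, nat_lit 0, nat_lit 195529, [nat_lit 2663466667, nat_lit 2329200000, nat_lit 1646800000], [], [nat_lit 34180047622, nat_lit 31873361974, nat_lit 29776280235, nat_lit 30543184807, nat_lit 34485760667, nat_lit 32461459691, nat_lit 30710895454, nat_lit 31075782990], nat_lit 1271250, nat_lit 1271250, nat_lit 1271250, nat_lit 1271250, nat_lit 0, nat_lit 2260000, [nat_lit 1100000, nat_lit 1442500, nat_lit 1271250], [nat_lit 9, nat_lit 40, nat_lit 40, nat_lit 80, nat_lit 2, nat_lit 428, nat_lit 200, nat_lit 14]⟩, C1.Rw.none,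
 ⟨nat_lit 5477, nat_lit 5917, ⟨.ofNat (nat_lit 300253), .ofNat (nat_lit 834207), .ofNat (nat_lit 342931), .ofNat (nat_lit 876870), .ofNat (nat_lit 307418), .ofNat (nat_lit 816889), .ofNat (nat_lit 350132), .ofNat (nat_lit 859587)⟩, ⟨.negSucc (nat_lit 63383), .ofNat (nat_lit 564885), .negSucc (nat_lit 20704), .ofNat (nat_lit 607556), .negSucc (nat_lit 45522), .ofNat (nat_lit 553941), .negSucc (nat_lit 2808), .ofNat (nat_lit 596648)⟩⟩, [⟨nat_lit 13, nat_lit 94, nat_lit 44, nat_lit 100, nat_lit 12983389⟩, ⟨nat_lit 4, nat_lit 97, nat_lit 100, nat_lit 76, nat_lit 93246824⟩]⟩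
noncomputable def b_V_600_400_10_2 : St := ⟨true, nat_lit 1, nat_lit 2, nat_lit 2, nat_lit 80, nat_lit 240, nat_lit 280, nat_lit 160, nat_lit 200, nat_lit 0, nat_lit 396, nat_lit 40, nat_lit 80, nat_lit 0, nat_lit 336, nat_lit 0, nat_lit 384, nat_lit 0, nat_lit 16, nat_lit 0, nat_lit 0, nat_lit 0, nat_lit 0⟩
theorem d_V_600_400_10_2 (h : EB TB.env) : Dead b_V_600_400_10_2 := chkB_sound0 h (T :=
(.st (nat_lit 1)
(.spl (nat_lit 2) (nat_lit 120)
(.spl (nat_lit 0) (nat_lit 260)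
(.leaf p041_l118)
(.trX (nat_lit 16) (nat_lit 100) (nat_lit 85) (nat_lit 84) (nat_lit 320) (.leaf p041_l119)))
(.spl (nat_lit 0) (nat_lit 260)
(.leaf p041_l120)
(.trX (nat_lit 13) (nat_lit 95) (nat_lit 30) (nat_lit 100) (nat_lit 392) (.trX (nat_lit 16) (nat_lit 100) (nat_lit 85) (nat_lit 84) (nat_lit 320) (.leaf p041_l121)))))
(.spl (nat_lit 2) (nat_lit 120)
(.spl (nat_lit 0) (nat_lit 260)
(.leaf p041_l122)
(.trX (nat_lit 16) (nat_lit 100) (nat_lit 85) (nat_lit 84) (nat_lit 320) (.leaf p041_l123)))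
(.spl (nat_lit 0) (nat_lit 260)
(.leaf p041_l124)
(.trX (nat_lit 13) (nat_lit 95) (nat_lit 30) (nat_lit 100) (nat_lit 392) (.trX (nat_lit 16) (nat_lit 100) (nat_lit 85) (nat_lit 84) (nat_lit 320) (.leaf p041_l125))))))) (by decide +kernel)
noncomputable def p041_l126 : Lf2 := ⟨nat_lit 0, nat_lit 4, [nat_lit 38, nat_lit 5, nat_lit 5, nat_lit 20], true, nat_lit 0, nat_lit 160, nat_lit 0, nat_lit 360, ⟨nat_lit 0, nat_lit 0, nat_lit 1000, nat_lit 5, nat_lit 146, nat_lit 285, nat_lit 54, nat_lit 1000, nat_lit 18150, nat_lit 248, nat_lit 3671, nat_lit 204, nat_lit 59140080, nat_lit 0, nat_lit 0, nat_lit 1807674, false, false⟩,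
 nat_lit 0, nat_lit 0, nat_lit 0, nat_lit 6178, nat_lit 3950, nat_lit 0, nat_lit 0, nat_lit 0, nat_lit 0, nat_lit 0, nat_lit 0, nat_lit 0, nat_lit 0, nat_lit 0, nat_lit 78, nat_lit 968800, nat_lit 0, nat_lit 0, [(nat_lit 6, [(nat_lit 5, nat_lit 52), (nat_lit 6, nat_lit 948)])],
 ⟨p041_k4, nat_lit 0, nat_lit 0, nat_lit 174, nat_lit 0, nat_lit 0, [nat_lit 2775947201, nat_lit 132175467], [], [nat_lit 13583145948, nat_lit 14909536040, nat_lit 16545787202, nat_lit 17633035302, nat_lit 13165076349, nat_lit 14299247682, nat_lit 16395810402, nat_lit 17316124802], nat_lit 0, nat_lit 0, nat_lit 0, nat_lit 0, nat_lit 0, nat_lit 0, [], [nat_lit 39, nat_lit 40, nat_lit 40, nat_lit 80, nat_lit 7, nat_lit 317, nat_lit 100, nat_lit 11]⟩, C1.Rw.none,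
 ⟨nat_lit 5916, nat_lit 6325, ⟨.ofNat (nat_lit 96904), .ofNat (nat_lit 582240), .ofNat (nat_lit 139640), .ofNat (nat_lit 624961), .ofNat (nat_lit 115184), .ofNat (nat_lit 578509), .ofNat (nat_lit 157863), .ofNat (nat_lit 621173)⟩, ⟨.negSucc (nat_lit 82265), .ofNat (nat_lit 246791), .negSucc (nat_lit 39529), .ofNat (nat_lit 289527), .negSucc (nat_lit 63383), .ofNat (nat_lit 250751), .negSucc (nat_lit 20704), .ofNat (nat_lit 293429)⟩⟩, [⟨nat_lit 0, nat_lit 100, nat_lit 97, nat_lit 49, nat_lit 3345826⟩]⟩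
noncomputable def p041_l127 : Lf2 := ⟨nat_lit 1, nat_lit 8, [nat_lit 50, nat_lit 5, nat_lit 5, nat_lit 20], false, nat_lit 0, nat_lit 160, nat_lit 0, nat_lit 360, zbN0,
 nat_lit 0, nat_lit 0, nat_lit 0, nat_lit 0, nat_lit 0, nat_lit 0, nat_lit 0, nat_lit 0, nat_lit 0, nat_lit 0, nat_lit 0, nat_lit 0, nat_lit 0, nat_lit 0, nat_lit 0, nat_lit 0, nat_lit 0, nat_lit 0, [],
 C1.Rw.none, C1.Rw.none,
 zbF0, []⟩
noncomputable def p041_l128 : Lf2 := ⟨nat_lit 0, nat_lit 8, [nat_lit 50, nat_lit 5, nat_lit 5, nat_lit 20], true, nat_lit 0, nat_lit 160, nat_lit 0, nat_lit 360, ⟨nat_lit 0, nat_lit 0, nat_lit 1000, nat_lit 5, nat_lit 150, nat_lit 182, nat_lit 55, nat_lit 1000, nat_lit 21600, nat_lit 251, nat_lit 2161, nat_lit 205, nat_lit 58718857, nat_lit 0, nat_lit 0, nat_lit 1870174, false, false⟩,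
 nat_lit 0, nat_lit 0, nat_lit 0, nat_lit 4864, nat_lit 4311, nat_lit 0, nat_lit 0, nat_lit 0, nat_lit 0, nat_lit 0, nat_lit 0, nat_lit 0, nat_lit 0, nat_lit 0, nat_lit 123, nat_lit 605200, nat_lit 0, nat_lit 0, [(nat_lit 9, [(nat_lit 5, nat_lit 658), (nat_lit 6, nat_lit 342)])],
 ⟨p041_k11, nat_lit 0, nat_lit 0, nat_lit 295, nat_lit 0, nat_lit 0, [nat_lit 3668546401, nat_lit 15003200], [], [nat_lit 15951642517, nat_lit 17376731476, nat_lit 17503382244, nat_lit 18632505622, nat_lit 15033796556, nat_lit 15893321571, nat_lit 16872549754, nat_lit 17824658146], nat_lit 0, nat_lit 0, nat_lit 0, nat_lit 0, nat_lit 0, nat_lit 0, [], [nat_lit 70, nat_lit 40, nat_lit 40, nat_lit 80, nat_lit 13, nat_lit 401, nat_lit 175, nat_lit 12]⟩, C1.Rw.none,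
 ⟨nat_lit 5477, nat_lit 5917, ⟨.ofNat (nat_lit 123037), .ofNat (nat_lit 578514), .ofNat (nat_lit 165716), .ofNat (nat_lit 621176), .ofNat (nat_lit 140320), .ofNat (nat_lit 574913), .ofNat (nat_lit 183034), .ofNat (nat_lit 617611)⟩, ⟨.negSucc (nat_lit 63383), .ofNat (nat_lit 250751), .negSucc (nat_lit 20704), .ofNat (nat_lit 293429), .negSucc (nat_lit 45522), .ofNat (nat_lit 254209), .negSucc (nat_lit 2808), .ofNat (nat_lit 296923)⟩⟩, [⟨nat_lit 0, nat_lit 100, nat_lit 94, nat_lit 59, nat_lit 26613808⟩]⟩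
noncomputable def p041_l129 : Lf2 := ⟨nat_lit 0, nat_lit 8, [nat_lit 50, nat_lit 5, nat_lit 5, nat_lit 20], true, nat_lit 160, nat_lit 240, nat_lit 0, nat_lit 360, ⟨nat_lit 0, nat_lit 0, nat_lit 1000, nat_lit 5, nat_lit 100, nat_lit 1000, nat_lit 140, nat_lit 1000, nat_lit 183750, nat_lit 320, nat_lit 93750, nat_lit 290, nat_lit 54784274, nat_lit 0, nat_lit 0, nat_lit 3163250, false, false⟩,
 nat_lit 0, nat_lit 0, nat_lit 0, nat_lit 5414, nat_lit 5210, nat_lit 0, nat_lit 0, nat_lit 0, nat_lit 0, nat_lit 0, nat_lit 0, nat_lit 0, nat_lit 0, nat_lit 0, nat_lit 106, nat_lit 683800, nat_lit 0, nat_lit 0, [(nat_lit 6, [(nat_lit 5, nat_lit 527), (nat_lit 6, nat_lit 473)]), (nat_lit 9, [(nat_lit 5, nat_lit 527), (nat_lit 6, nat_lit 473)])],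
 ⟨p041_k12, nat_lit 0, nat_lit 0, nat_lit 148, nat_lit 0, nat_lit 0, [nat_lit 3544796800, nat_lit 10168000], [], [nat_lit 13090588920, nat_lit 15693187512, nat_lit 10857548480, nat_lit 12886594440, nat_lit 16193430520, nat_lit 19103796097, nat_lit 13462784800, nat_lit 15664177280], nat_lit 0, nat_lit 0, nat_lit 0, nat_lit 0, nat_lit 0, nat_lit 0, [], [nat_lit 70, nat_lit 40, nat_lit 40, nat_lit 80, nat_lit 13, nat_lit 401, nat_lit 175, nat_lit 12]⟩, C1.Rw.none,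
 ⟨nat_lit 5477, nat_lit 6325, ⟨.ofNat (nat_lit 96904), .ofNat (nat_lit 335470), .ofNat (nat_lit 139640), .ofNat (nat_lit 378206), .ofNat (nat_lit 132827), .ofNat (nat_lit 350132), .ofNat (nat_lit 175541), .ofNat (nat_lit 392847)⟩, ⟨.ofNat (nat_lit 246791), .ofNat (nat_lit 411320), .ofNat (nat_lit 289527), .ofNat (nat_lit 454055), .ofNat (nat_lit 254209), .ofNat (nat_lit 404075), .ofNat (nat_lit 296923), .ofNat (nat_lit 446789)⟩⟩, [⟨nat_lit 0, nat_lit 100, nat_lit 96, nat_lit 40, nat_lit 247278102⟩]⟩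
noncomputable def p041_l130 : Lf2 := ⟨nat_lit 0, nat_lit 2, [nat_lit 10, nat_lit 5, nat_lit 5, nat_lit 20], true, nat_lit 240, nat_lit 280, nat_lit 0, nat_lit 252, ⟨nat_lit 0, nat_lit 0, nat_lit 1000, nat_lit 5, nat_lit 57, nat_lit 1000, nat_lit 184, nat_lit 1000, nat_lit 21600, nat_lit 251, nat_lit 30817, nat_lit 258, nat_lit 53286169, nat_lit 0, nat_lit 0, nat_lit 3084757, false, false⟩,
 nat_lit 0, nat_lit 0, nat_lit 0, nat_lit 5643, nat_lit 3871, nat_lit 0, nat_lit 0, nat_lit 0, nat_lit 0, nat_lit 0, nat_lit 0, nat_lit 0, nat_lit 0, nat_lit 0, nat_lit 80, nat_lit 1000000, nat_lit 0, nat_lit 0, [(nat_lit 6, [(nat_lit 6, nat_lit 1000)])],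
 ⟨p041_k13, nat_lit 0, nat_lit 0, nat_lit 124, nat_lit 0, nat_lit 0, [nat_lit 2257066667, nat_lit 1408000000, nat_lit 211200000], [], [nat_lit 15603634709, nat_lit 16542432192, nat_lit 15152706553, nat_lit 16093035769, nat_lit 17970203596, nat_lit 19275188750, nat_lit 17195968216, nat_lit 18495577998], nat_lit 0, nat_lit 0, nat_lit 0, nat_lit 0, nat_lit 0, nat_lit 0, [], [nat_lit 9, nat_lit 40, nat_lit 40, nat_lit 80, nat_lit 2, nat_lit 215, nat_lit 10, nat_lit 7]⟩, C1.Rw.none,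
 ⟨nat_lit 5916, nat_lit 6325, ⟨.ofNat (nat_lit 96904), .ofNat (nat_lit 129809), .ofNat (nat_lit 139640), .ofNat (nat_lit 172545), .ofNat (nat_lit 115184), .ofNat (nat_lit 146597), .ofNat (nat_lit 157863), .ofNat (nat_lit 189276)⟩, ⟨.ofNat (nat_lit 411320), .ofNat (nat_lit 493584), .ofNat (nat_lit 432688), .ofNat (nat_lit 514952), .ofNat (nat_lit 407818), .ofNat (nat_lit 486351), .ofNat (nat_lit 429157), .ofNat (nat_lit 507691)⟩⟩, [⟨nat_lit 0, nat_lit 100, nat_lit 97, nat_lit 35, nat_lit 358620937⟩]⟩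
noncomputable def p041_l131 : Lf2 := ⟨nat_lit 0, nat_lit 2, [nat_lit 10, nat_lit 5, nat_lit 5, nat_lit 20], true, nat_lit 240, nat_lit 280, nat_lit 0, nat_lit 252, ⟨nat_lit 0, nat_lit 0, nat_lit 1000, nat_lit 5, nat_lit 66, nat_lit 1000, nat_lit 182, nat_lit 1000, nat_lit 28439, nat_lit 256, nat_lit 40017, nat_lit 264, nat_lit 53056637, nat_lit 0, nat_lit 0, nat_lit 3184913, false, false⟩,
 nat_lit 0, nat_lit 0, nat_lit 0, nat_lit 5750, nat_lit 3580, nat_lit 0, nat_lit 0, nat_lit 0, nat_lit 0, nat_lit 0, nat_lit 0, nat_lit 0, nat_lit 0, nat_lit 0, nat_lit 37, nat_lit 1000000, nat_lit 0, nat_lit 0, [(nat_lit 9, [(nat_lit 6, nat_lit 1000)])],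
 ⟨p041_k14, nat_lit 0, nat_lit 0, nat_lit 80, nat_lit 0, nat_lit 0, [nat_lit 1689600001, nat_lit 0], [], [nat_lit 16181575554, nat_lit 17399973041, nat_lit 15798626081, nat_lit 17011173281, nat_lit 18760208760, nat_lit 20020397121, nat_lit 18231125061, nat_lit 19488035120], nat_lit 0, nat_lit 0, nat_lit 0, nat_lit 0, nat_lit 0, nat_lit 0, [], [nat_lit 31, nat_lit 40, nat_lit 40, nat_lit 80, nat_lit 3, nat_lit 215, nat_lit 10, nat_lit 8]⟩, C1.Rw.none,
 ⟨nat_lit 5477, nat_lit 5917, ⟨.ofNat (nat_lit 123037), .ofNat (nat_lit 146597), .ofNat (nat_lit 165716), .ofNat (nat_lit 189276), .ofNat (nat_lit 140320), .ofNat (nat_lit 162800), .ofNat (nat_lit 183034), .ofNat (nat_lit 205514)⟩, ⟨.ofNat (nat_lit 407818), .ofNat (nat_lit 486351), .ofNat (nat_lit 429157), .ofNat (nat_lit 507691), .ofNat (nat_lit 404075), .ofNat (nat_lit 479008), .ofNat (nat_lit 425432), .ofNat (nat_lit 500365)⟩⟩, [⟨nat_lit 0, nat_lit 100,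 nat_lit 94, nat_lit 44, nat_lit 1074786349⟩, ⟨nat_lit 4, nat_lit 100, nat_lit 100, nat_lit 71, nat_lit 190053215⟩]⟩
noncomputable def p041_l132 : Lf2 := ⟨nat_lit 0, nat_lit 5, [nat_lit 4, nat_lit 5, nat_lit 5, nat_lit 20], true, nat_lit 240, nat_lit 280, nat_lit 0, nat_lit 252, ⟨nat_lit 0, nat_lit 0, nat_lit 1000, nat_lit 5, nat_lit 61, nat_lit 1000, nat_lit 183, nat_lit 1000, nat_lit 21600, nat_lit 251, nat_lit 35267, nat_lit 261, nat_lit 53220598, nat_lit 0, nat_lit 0, nat_lit 3122454, false, false⟩,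
 nat_lit 0, nat_lit 0, nat_lit 0, nat_lit 36128, nat_lit 4694, nat_lit 0, nat_lit 0, nat_lit 0, nat_lit 0, nat_lit 0, nat_lit 0, nat_lit 0, nat_lit 0, nat_lit 0, nat_lit 104, nat_lit 669400, nat_lit 0, nat_lit 0, [(nat_lit 6, [(nat_lit 5, nat_lit 551), (nat_lit 6, nat_lit 449)]), (nat_lit 9, [(nat_lit 5, nat_lit 551), (nat_lit 6, nat_lit 449)])],
 ⟨p041_k15, nat_lit 0, nat_lit 0, nat_lit 160, nat_lit 0, nat_lit 0, [nat_lit 3496438401, nat_lit 6584000], [], [nat_lit 16286274088, nat_lit 18600521895, nat_lit 15559731445, nat_lit 17686485786, nat_lit 18803635944, nat_lit 21661451056, nat_lit 17820345150, nat_lit 20669392016], nat_lit 0, nat_lit 0, nat_lit 0, nat_lit 0, nat_lit 0, nat_lit 0, [], [nat_lit 70, nat_lit 40, nat_lit 40, nat_lit 80, nat_lit 13, nat_lit 373, nat_lit 150, nat_lit 10]⟩, C1.Rw.none,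
 ⟨nat_lit 5477, nat_lit 6325, ⟨.ofNat (nat_lit 96904), .ofNat (nat_lit 129809), .ofNat (nat_lit 139640), .ofNat (nat_lit 172545), .ofNat (nat_lit 132827), .ofNat (nat_lit 162800), .ofNat (nat_lit 175541), .ofNat (nat_lit 205514)⟩, ⟨.ofNat (nat_lit 411320), .ofNat (nat_lit 493584), .ofNat (nat_lit 432688), .ofNat (nat_lit 514952), .ofNat (nat_lit 404075), .ofNat (nat_lit 479008), .ofNat (nat_lit 425432), .ofNat (nat_lit 500365)⟩⟩, [⟨nat_lit 0, nat_lit 100, nat_lit 96, nat_lit 40, nat_lit 3238177622⟩, ⟨nat_lit 4, nat_lit 96, nat_lit 100, nat_lit 69, nat_lit 354600968⟩]⟩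
noncomputable def p041_l133 : Lf2 := ⟨nat_lit 0, nat_lit 8, [nat_lit 50, nat_lit 5, nat_lit 5, nat_lit 20], true, nat_lit 240, nat_lit 280, nat_lit 0, nat_lit 252, ⟨nat_lit 0, nat_lit 0, nat_lit 1000, nat_lit 5, nat_lit 61, nat_lit 1000, nat_lit 183, nat_lit 1000, nat_lit 21600, nat_lit 251, nat_lit 35267, nat_lit 261, nat_lit 53220598, nat_lit 0, nat_lit 0, nat_lit 3122454, false, false⟩,
 nat_lit 0, nat_lit 0, nat_lit 0, nat_lit 100000, nat_lit 4732, nat_lit 0, nat_lit 0, nat_lit 0, nat_lit 0, nat_lit 0, nat_lit 0, nat_lit 0, nat_lit 0, nat_lit 0, nat_lit 105, nat_lit 676600, nat_lit 0, nat_lit 0, [(nat_lit 6, [(nat_lit 5, nat_lit 539), (nat_lit 6, nat_lit 461)]), (nat_lit 9, [(nat_lit 5, nat_lit 539), (nat_lit 6, nat_lit 461)])],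
 ⟨p041_k12, nat_lit 0, nat_lit 0, nat_lit 160, nat_lit 0, nat_lit 0, [nat_lit 3520617601, nat_lit 8376000], [], [nat_lit 16257088864, nat_lit 18637584724, nat_lit 15499889376, nat_lit 17648885554, nat_lit 18842117632, nat_lit 21711376368, nat_lit 17848379584, nat_lit 20709689648], nat_lit 0, nat_lit 0, nat_lit 0, nat_lit 0, nat_lit 0, nat_lit 0, [], [nat_lit 70, nat_lit 40, nat_lit 40, nat_lit 80, nat_lit 13, nat_lit 373, nat_lit 150, nat_lit 10]⟩, C1.Rw.none,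
 ⟨nat_lit 5477, nat_lit 6325, ⟨.ofNat (nat_lit 96904), .ofNat (nat_lit 129809), .ofNat (nat_lit 139640), .ofNat (nat_lit 172545), .ofNat (nat_lit 132827), .ofNat (nat_lit 162800), .ofNat (nat_lit 175541), .ofNat (nat_lit 205514)⟩, ⟨.ofNat (nat_lit 411320), .ofNat (nat_lit 493584), .ofNat (nat_lit 432688), .ofNat (nat_lit 514952), .ofNat (nat_lit 404075), .ofNat (nat_lit 479008), .ofNat (nat_lit 425432), .ofNat (nat_lit 500365)⟩⟩, [⟨nat_lit 0, nat_lit 100, nat_lit 96, nat_lit 40, nat_lit 7749764919⟩, ⟨nat_lit 4, nat_lit 96, nat_lit 100, nat_lit 69, nat_lit 544324048⟩]⟩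
noncomputable def p041_l134 : Lf2 := ⟨nat_lit 0, nat_lit 8, [nat_lit 50, nat_lit 5, nat_lit 5, nat_lit 20], true, nat_lit 240, nat_lit 280, nat_lit 0, nat_lit 288, ⟨nat_lit 0, nat_lit 0, nat_lit 1000, nat_lit 5, nat_lit 72, nat_lit 1000, nat_lit 184, nat_lit 1000, nat_lit 21600, nat_lit 251, nat_lit 48600, nat_lit 269, nat_lit 52504413, nat_lit 0, nat_lit 0, nat_lit 3299237, false, false⟩,
 nat_lit 0, nat_lit 0, nat_lit 0, nat_lit 6388, nat_lit 4064, nat_lit 0, nat_lit 0, nat_lit 0, nat_lit 0, nat_lit 0, nat_lit 0, nat_lit 0, nat_lit 0, nat_lit 0, nat_lit 125, nat_lit 831400, nat_lit 0, nat_lit 0, [(nat_lit 6, [(nat_lit 5, nat_lit 281), (nat_lit 6, nat_lit 719)])],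
 ⟨p041_k16, nat_lit 0, nat_lit 0, nat_lit 141, nat_lit 0, nat_lit 0, [nat_lit 3100856534, nat_lit 2596105601, nat_lit 97073599], [], [nat_lit 15217719151, nat_lit 16215655503, nat_lit 14608729815, nat_lit 15611764951, nat_lit 17342685351, nat_lit 18671196032, nat_lit 16726750215, nat_lit 17635571072], nat_lit 0, nat_lit 0, nat_lit 0, nat_lit 0, nat_lit 0, nat_lit 0, [], [nat_lit 11, nat_lit 40, nat_lit 40, nat_lit 80, nat_lit 1, nat_lit 373, nat_lit 150, nat_lit 10]⟩, C1.Rw.none,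
 ⟨nat_lit 5916, nat_lit 6325, ⟨.ofNat (nat_lit 129809), .ofNat (nat_lit 170942), .ofNat (nat_lit 172545), .ofNat (nat_lit 213677), .ofNat (nat_lit 146597), .ofNat (nat_lit 185864), .ofNat (nat_lit 189276), .ofNat (nat_lit 228543)⟩, ⟨.ofNat (nat_lit 411320), .ofNat (nat_lit 493584), .ofNat (nat_lit 432688), .ofNat (nat_lit 514952), .ofNat (nat_lit 407818), .ofNat (nat_lit 486351), .ofNat (nat_lit 429157), .ofNat (nat_lit 507691)⟩⟩, [⟨nat_lit 4, nat_lit 92, nat_lit 100, nat_lit 68, nat_lit 207080898⟩]⟩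
noncomputable def p041_l135 : Lf2 := ⟨nat_lit 0, nat_lit 8, [nat_lit 50, nat_lit 5, nat_lit 5, nat_lit 20], true, nat_lit 240, nat_lit 280, nat_lit 0, nat_lit 288, ⟨nat_lit 0, nat_lit 0, nat_lit 1000, nat_lit 5, nat_lit 78, nat_lit 1000, nat_lit 182, nat_lit 1000, nat_lit 28439, nat_lit 256, nat_lit 58017, nat_lit 274, nat_lit 52357790, nat_lit 0, nat_lit 0, nat_lit 3365588, false, false⟩,
 nat_lit 0, nat_lit 0, nat_lit 0, nat_lit 4065, nat_lit 4293, nat_lit 0, nat_lit 0, nat_lit 0, nat_lit 0, nat_lit 0, nat_lit 0, nat_lit 0, nat_lit 0, nat_lit 0, nat_lit 98, nat_lit 463600, nat_lit 0, nat_lit 0, [(nat_lit 9, [(nat_lit 5, nat_lit 894), (nat_lit 6, nat_lit 106)])],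
 ⟨p041_k11, nat_lit 0, nat_lit 0, nat_lit 146, nat_lit 0, nat_lit 0, [nat_lit 3148375200, nat_lit 6577600], [], [nat_lit 16861313200, nat_lit 17826356230, nat_lit 16180578176, nat_lit 17089777836, nat_lit 18881436477, nat_lit 20244145952, nat_lit 18207726947, nat_lit 19204143610], nat_lit 0, nat_lit 0, nat_lit 0, nat_lit 0, nat_lit 0, nat_lit 0, [], [nat_lit 70, nat_lit 40, nat_lit 40, nat_lit 80, nat_lit 13, nat_lit 373, nat_lit 150, nat_lit 10]⟩, C1.Rw.none,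
 ⟨nat_lit 5477, nat_lit 5917, ⟨.ofNat (nat_lit 146597), .ofNat (nat_lit 185864), .ofNat (nat_lit 189276), .ofNat (nat_lit 228543), .ofNat (nat_lit 162800), .ofNat (nat_lit 200266), .ofNat (nat_lit 205514), .ofNat (nat_lit 242980)⟩, ⟨.ofNat (nat_lit 407818), .ofNat (nat_lit 486351), .ofNat (nat_lit 429157), .ofNat (nat_lit 507691), .ofNat (nat_lit 404075), .ofNat (nat_lit 479008), .ofNat (nat_lit 425432), .ofNat (nat_lit 500365)⟩⟩, [⟨nat_lit 0, nat_lit 100, nat_lit 94, nat_lit 44, nat_lit 288937119⟩, ⟨nat_lit 4, nat_lit 100, nat_lit 100, nat_lit 71, nat_lit 109817445⟩]⟩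
noncomputable def p041_l136 : Lf2 := ⟨nat_lit 0, nat_lit 8, [nat_lit 50, nat_lit 5, nat_lit 5, nat_lit 20], true, nat_lit 240, nat_lit 280, nat_lit 0, nat_lit 288, ⟨nat_lit 0, nat_lit 0, nat_lit 1000, nat_lit 5, nat_lit 69, nat_lit 1000, nat_lit 192, nat_lit 1000, nat_lit 10541, nat_lit 239, nat_lit 43350, nat_lit 266, nat_lit 51947652, nat_lit 0, nat_lit 0, nat_lit 3334359, false, false⟩,
 nat_lit 0, nat_lit 0, nat_lit 0, nat_lit 6671, nat_lit 4259, nat_lit 0, nat_lit 0, nat_lit 0, nat_lit 0, nat_lit 0, nat_lit 0, nat_lit 0, nat_lit 0, nat_lit 0, nat_lit 127, nat_lit 842800, nat_lit 0, nat_lit 0, [(nat_lit 6, [(nat_lit 5, nat_lit 262), (nat_lit 6, nat_lit 738)]), (nat_lit 9, [(nat_lit 5, nat_lit 262), (nat_lit 6, nat_lit 738)])],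
 ⟨p041_k16, nat_lit 0, nat_lit 0, nat_lit 164, nat_lit 0, nat_lit 0, [nat_lit 3241945600, nat_lit 2636531200, nat_lit 116867200], [], [nat_lit 15786638668, nat_lit 18176250039, nat_lit 14363952880, nat_lit 16408896012, nat_lit 18363121884, nat_lit 21089937616, nat_lit 16525429030, nat_lit 19105780876], nat_lit 0, nat_lit 0, nat_lit 0, nat_lit 0, nat_lit 0, nat_lit 0, [], [nat_lit 11, nat_lit 40, nat_lit 40, nat_lit 80, nat_lit 1, nat_lit 373, nat_lit 150, nat_lit 10]⟩, C1.Rw.none,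
 ⟨nat_lit 5477, nat_lit 6325, ⟨.ofNat (nat_lit 96904), .ofNat (nat_lit 170942), .ofNat (nat_lit 139640), .ofNat (nat_lit 213677), .ofNat (nat_lit 132827), .ofNat (nat_lit 200266), .ofNat (nat_lit 175541), .ofNat (nat_lit 242980)⟩, ⟨.ofNat (nat_lit 432688), .ofNat (nat_lit 514952), .ofNat (nat_lit 454055), .ofNat (nat_lit 536314), .ofNat (nat_lit 425432), .ofNat (nat_lit 500365), .ofNat (nat_lit 446789), .ofNat (nat_lit 521717)⟩⟩, [⟨nat_lit 0, nat_lit 100, nat_lit 96, nat_lit 40, nat_lit 315758137⟩, ⟨nat_lit 0, nat_lit 100, nat_lit 94, nat_lit 59, nat_lit 66156384⟩]⟩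
noncomputable def p041_l137 : Lf2 := ⟨nat_lit 0, nat_lit 8, [nat_lit 50, nat_lit 5, nat_lit 5, nat_lit 20], true, nat_lit 240, nat_lit 280, nat_lit 0, nat_lit 336, ⟨nat_lit 0, nat_lit 1000, nat_lit 0, nat_lit 5, nat_lit 99, nat_lit 1000, nat_lit 187, nat_lit 0, nat_lit 0, nat_lit 0, nat_lit 0, nat_lit 0, nat_lit 50591987, nat_lit 4424356, nat_lit 11983657, nat_lit 3712437, false, false⟩,
 nat_lit 0, nat_lit 0, nat_lit 0, nat_lit 2546, nat_lit 5490, nat_lit 0, nat_lit 0, nat_lit 0, nat_lit 0, nat_lit 0, nat_lit 0, nat_lit 0, nat_lit 0, nat_lit 0, nat_lit 0, nat_lit 250000, nat_lit 0, nat_lit 0, [(nat_lit 6, [(nat_lit 0, nat_lit 1000)]), (nat_lit 9, [(nat_lit 0, nat_lit 1000)])],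
 ⟨p041_k12, nat_lit 0, nat_lit 0, nat_lit 51, nat_lit 0, nat_lit 0, [nat_lit 3128000000, nat_lit 3710400000], [], [nat_lit 14093695720, nat_lit 17054656040, nat_lit 13413869880, nat_lit 16264974200, nat_lit 17234782860, nat_lit 20021354360, nat_lit 16436345880, nat_lit 18975917060], nat_lit 0, nat_lit 0, nat_lit 0, nat_lit 0, nat_lit 0, nat_lit 0, [], [nat_lit 70, nat_lit 40, nat_lit 40, nat_lit 80, nat_lit 13, nat_lit 401, nat_lit 175, nat_lit 11]⟩, C1.Rw.none,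
 ⟨nat_lit 5477, nat_lit 6325, ⟨.ofNat (nat_lit 170942), .ofNat (nat_lit 253206), .ofNat (nat_lit 213677), .ofNat (nat_lit 295942), .ofNat (nat_lit 200266), .ofNat (nat_lit 275199), .ofNat (nat_lit 242980), .ofNat (nat_lit 317913)⟩, ⟨.ofNat (nat_lit 411320), .ofNat (nat_lit 493584), .ofNat (nat_lit 454055), .ofNat (nat_lit 536314), .ofNat (nat_lit 404075), .ofNat (nat_lit 479008), .ofNat (nat_lit 446789), .ofNat (nat_lit 521717)⟩⟩, [⟨nat_lit 4, nat_lit 92, nat_lit 100, nat_lit 75, nat_lit 18920350⟩]⟩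
noncomputable def p041_l138 : Lf2 := ⟨nat_lit 0, nat_lit 8, [nat_lit 50, nat_lit 5, nat_lit 5, nat_lit 20], true, nat_lit 240, nat_lit 280, nat_lit 0, nat_lit 360, ⟨nat_lit 0, nat_lit 1000, nat_lit 0, nat_lit 5, nat_lit 130, nat_lit 1000, nat_lit 187, nat_lit 0, nat_lit 0, nat_lit 0, nat_lit 0, nat_lit 0, nat_lit 48488719, nat_lit 6682550, nat_lit 11828731, nat_lit 4117448, false, false⟩,
 nat_lit 0, nat_lit 0, nat_lit 0, nat_lit 2501, nat_lit 5856, nat_lit 0, nat_lit 0, nat_lit 0, nat_lit 0, nat_lit 0, nat_lit 0, nat_lit 0, nat_lit 0, nat_lit 0, nat_lit 0, nat_lit 250000, nat_lit 0, nat_lit 0, [(nat_lit 6, [(nat_lit 0, nat_lit 1000)]), (nat_lit 9, [(nat_lit 0, nat_lit 1000)])],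
 ⟨p041_k16, nat_lit 0, nat_lit 0, nat_lit 35, nat_lit 0, nat_lit 0, [nat_lit 3128000000, nat_lit 3146133334, nat_lit 3771466666], [], [nat_lit 12951982272, nat_lit 15904237280, nat_lit 13079455584, nat_lit 15878478624, nat_lit 16085722272, nat_lit 18933145536, nat_lit 16051469072, nat_lit 18624302032], nat_lit 0, nat_lit 0, nat_lit 0, nat_lit 0, nat_lit 0, nat_lit 0, [], [nat_lit 11, nat_lit 40, nat_lit 40, nat_lit 80, nat_lit 1, nat_lit 401, nat_lit 175, nat_lit 11]⟩, C1.Rw.none,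
 ⟨nat_lit 5477, nat_lit 6325, ⟨.ofNat (nat_lit 253206), .ofNat (nat_lit 335470), .ofNat (nat_lit 295942), .ofNat (nat_lit 378206), .ofNat (nat_lit 275199), .ofNat (nat_lit 350132), .ofNat (nat_lit 317913), .ofNat (nat_lit 392847)⟩, ⟨.ofNat (nat_lit 411320), .ofNat (nat_lit 493584), .ofNat (nat_lit 454055), .ofNat (nat_lit 536314), .ofNat (nat_lit 404075), .ofNat (nat_lit 479008), .ofNat (nat_lit 446789), .ofNat (nat_lit 521717)⟩⟩, [⟨nat_lit 4, nat_lit 92, nat_lit 100, nat_lit 75, nat_lit 27879894⟩]⟩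
noncomputable def p041_l139 : Lf2 := ⟨nat_lit 0, nat_lit 8, [nat_lit 50, nat_lit 5, nat_lit 5, nat_lit 20], true, nat_lit 280, nat_lit 320, nat_lit 0, nat_lit 248, ⟨nat_lit 0, nat_lit 0, nat_lit 1000, nat_lit 5, nat_lit 64, nat_lit 1000, nat_lit 219, nat_lit 1000, nat_lit 2869, nat_lit 206, nat_lit 38400, nat_lit 263, nat_lit 49433647, nat_lit 0, nat_lit 0, nat_lit 3540612, false, false⟩,
 nat_lit 0, nat_lit 0, nat_lit 0, nat_lit 13139, nat_lit 3630, nat_lit 0, nat_lit 0, nat_lit 0, nat_lit 0, nat_lit 0, nat_lit 0, nat_lit 0, nat_lit 0, nat_lit 0, nat_lit 147, nat_lit 1000000, nat_lit 0, nat_lit 0, [(nat_lit 6, [(nat_lit 6, nat_lit 1000)]), (nat_lit 9, [(nat_lit 6, nat_lit 1000)])],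
 ⟨p041_k16, nat_lit 0, nat_lit 0, nat_lit 177, nat_lit 0, nat_lit 0, [nat_lit 3449600001, nat_lit 3042400001, nat_lit 177599999], [], [nat_lit 18358378069, nat_lit 20263542320, nat_lit 17421597102, nat_lit 19185377102, nat_lit 20731046329, nat_lit 22964321952, nat_lit 19481529042, nat_lit 21314264040], nat_lit 0, nat_lit 0, nat_lit 0, nat_lit 0, nat_lit 0, nat_lit 0, [], [nat_lit 11, nat_lit 40, nat_lit 40, nat_lit 80, nat_lit 1, nat_lit 317, nat_lit 100, nat_lit 9]⟩, C1.Rw.none,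
 ⟨nat_lit 5477, nat_lit 6325, ⟨.ofNat (nat_lit 96904), .ofNat (nat_lit 170942), .ofNat (nat_lit 118272), .ofNat (nat_lit 192309), .ofNat (nat_lit 132827), .ofNat (nat_lit 200266), .ofNat (nat_lit 154184), .ofNat (nat_lit 221623)⟩, ⟨.ofNat (nat_lit 493584), .ofNat (nat_lit 575816), .ofNat (nat_lit 536314), .ofNat (nat_lit 618504), .ofNat (nat_lit 479008), .ofNat (nat_lit 553909), .ofNat (nat_lit 521717), .ofNat (nat_lit 596575)⟩⟩, [⟨nat_lit 0, nat_lit 100, nat_lit 96, nat_lit 35, nat_lit 246523990⟩, ⟨nat_lit 4, nat_lit 92, nat_lit 100, nat_lit 75, nat_lit 471649335⟩]⟩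
noncomputable def p041_l140 : Lf2 := ⟨nat_lit 0, nat_lit 8, [nat_lit 50, nat_lit 5, nat_lit 5, nat_lit 20], false, nat_lit 280, nat_lit 320, nat_lit 0, nat_lit 160, ⟨nat_lit 1000, nat_lit 0, nat_lit 0, nat_lit 0, nat_lit 0, nat_lit 0, nat_lit 0, nat_lit 0, nat_lit 0, nat_lit 0, nat_lit 0, nat_lit 0, nat_lit 0, nat_lit 0, nat_lit 0, nat_lit 0, false, false⟩,
 nat_lit 0, nat_lit 0, nat_lit 0, nat_lit 53698, nat_lit 8325, nat_lit 10996, nat_lit 2661, nat_lit 0, nat_lit 0, nat_lit 4676, nat_lit 0, nat_lit 0, nat_lit 0, nat_lit 0, nat_lit 0, nat_lit 0, nat_lit 0, nat_lit 0, [],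
 ⟨p041_k16, nat_lit 0, nat_lit 0, nat_lit 173, nat_lit 0, nat_lit 0, [nat_lit 4688000000, nat_lit 6250000000, nat_lit 9842000000], [], [nat_lit 22882576991, nat_lit 25954009510, nat_lit 19894503750, nat_lit 22933192550, nat_lit 26883021240, nat_lit 30240289261, nat_lit 23608638500, nat_lit 26387249100], nat_lit 0, nat_lit 0, nat_lit 0, nat_lit 0, nat_lit 0, nat_lit 0, [], [nat_lit 11, nat_lit 40, nat_lit 40, nat_lit 80, nat_lit 1, nat_lit 317, nat_lit 100, nat_lit 9]⟩, ⟨p041_k17, nat_lit 0, nat_lit 0, nat_lit 366, nat_lit 0, nat_lit 0, [nat_lit 6250000000, nat_lit 7968000000, nat_lit 11872000000], [], [nat_lit 21867778220, nat_lit 22607733198, nat_lit 18030502512, nat_lit 18561714280, nat_lit 14691313865, nat_lit 15182428530, nat_lit 11790401480, nat_lit 12272762200], nat_lit 0, nat_lit 0, nat_lit 0, nat_lit 0, nat_lit 0, nat_lit 0, [], [nat_lit 53, nat_lit 40, nat_lit 40, nat_lit 80, nat_lit 14, nat_lit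 345, nat_lit 125, nat_lit 9]⟩,
 zbF0, [⟨nat_lit 0, nat_lit 100, nat_lit 96, nat_lit 42, nat_lit 1930876146⟩, ⟨nat_lit 4, nat_lit 92, nat_lit 100, nat_lit 75, nat_lit 2142688735⟩]⟩
noncomputable def p041_l141 : Lf2 := ⟨nat_lit 0, nat_lit 8, [nat_lit 50, nat_lit 5, nat_lit 5, nat_lit 20], false, nat_lit 280, nat_lit 320, nat_lit 0, nat_lit 160, ⟨nat_lit 1000, nat_lit 0, nat_lit 0, nat_lit 0, nat_lit 0, nat_lit 0, nat_lit 0, nat_lit 0, nat_lit 0, nat_lit 0, nat_lit 0, nat_lit 0, nat_lit 0, nat_lit 0, nat_lit 0, nat_lit 0, false, false⟩,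
 nat_lit 0, nat_lit 0, nat_lit 0, nat_lit 48075, nat_lit 8643, nat_lit 10124, nat_lit 2690, nat_lit 0, nat_lit 0, nat_lit 4220, nat_lit 0, nat_lit 0, nat_lit 0, nat_lit 0, nat_lit 0, nat_lit 0, nat_lit 0, nat_lit 0, [],
 ⟨p041_k16, nat_lit 0, nat_lit 0, nat_lit 169, nat_lit 0, nat_lit 0, [nat_lit 4688000000, nat_lit 6250000000, nat_lit 9842000000], [], [nat_lit 22422919028, nat_lit 25853453192, nat_lit 19693944330, nat_lit 22800730922, nat_lit 26810649123, nat_lit 30243686578, nat_lit 23498947580, nat_lit 26730850644], nat_lit 0, nat_lit 0, nat_lit 0, nat_lit 0, nat_lit 0, nat_lit 0, [], [nat_lit 11, nat_lit 40, nat_lit 40, nat_lit 80, nat_lit 1, nat_lit 317, nat_lit 100, nat_lit 9]⟩, ⟨p041_k18, nat_lit 0, nat_lit 0, nat_lit 362, nat_lit 0, nat_lit 0, [nat_lit 6250000000, nat_lit 7968000000, nat_lit 11872000000], [], [nat_lit 21261180926, nat_lit 21851115357, nat_lit 18594869168, nat_lit 19178277244,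 nat_lit 15551036110, nat_lit 16022727616, nat_lit 13238264300, nat_lit 13702687980], nat_lit 0, nat_lit 0, nat_lit 0, nat_lit 0, nat_lit 0, nat_lit 0, [], [nat_lit 53, nat_lit 40, nat_lit 40, nat_lit 80, nat_lit 14, nat_lit 345, nat_lit 125, nat_lit 9]⟩,
 zbF0, [⟨nat_lit 0, nat_lit 100, nat_lit 97, nat_lit 47, nat_lit 1809707378⟩, ⟨nat_lit 4, nat_lit 92, nat_lit 100, nat_lit 75, nat_lit 1673758703⟩]⟩
noncomputable def p041_l142 : Lf2 := ⟨nat_lit 0, nat_lit 5, [nat_lit 4, nat_lit 5, nat_lit 5, nat_lit 20], false, nat_lit 280, nat_lit 320, nat_lit 160, nat_lit 248, ⟨nat_lit 1000, nat_lit 0, nat_lit 0, nat_lit 0, nat_lit 0, nat_lit 0, nat_lit 0, nat_lit 0, nat_lit 0, nat_lit 0, nat_lit 0, nat_lit 0, nat_lit 0, nat_lit 0, nat_lit 0, nat_lit 0, false, false⟩,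
 nat_lit 0, nat_lit 0, nat_lit 0, nat_lit 18044, nat_lit 8596, nat_lit 13201, nat_lit 2686, nat_lit 0, nat_lit 0, nat_lit 0, nat_lit 0, nat_lit 0, nat_lit 0, nat_lit 0, nat_lit 0, nat_lit 0, nat_lit 0, nat_lit 0, [],
 ⟨p041_k19, nat_lit 0, nat_lit 0, nat_lit 173, nat_lit 0, nat_lit 0, [nat_lit 4688000000, nat_lit 6250000000, nat_lit 9842000000], [], [nat_lit 22824206046, nat_lit 26292824864, nat_lit 19723586760, nat_lit 22820308584, nat_lit 27248635796, nat_lit 30670847773, nat_lit 23515159760, nat_lit 26680066768], nat_lit 0, nat_lit 0, nat_lit 0, nat_lit 0, nat_lit 0, nat_lit 0, [], [nat_lit 11, nat_lit 40, nat_lit 40, nat_lit 80, nat_lit 1, nat_lit 317, nat_lit 100, nat_lit 9]⟩, ⟨p041_k20, nat_lit 0, nat_lit 0, nat_lit 81, nat_lit 0, nat_lit 0, [nat_lit 6250000000, nat_lit 7968000000, nat_lit 9842000000], [], [nat_lit 8484845534, nat_lit 11609957528, nat_lit 2982953144, nat_lit 5378074784, nat_lit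 18776061753, nat_lit 21171755352, nat_lit 12532204823, nat_lit 14939076269], nat_lit 0, nat_lit 0, nat_lit 0, nat_lit 0, nat_lit 0, nat_lit 0, [], [nat_lit 25, nat_lit 40, nat_lit 40, nat_lit 80, nat_lit 17, nat_lit 373, nat_lit 150, nat_lit 11]⟩,
 zbF0, [⟨nat_lit 0, nat_lit 100, nat_lit 96, nat_lit 44, nat_lit 717859447⟩, ⟨nat_lit 16, nat_lit 100, nat_lit 92, nat_lit 75, nat_lit 482368647⟩, ⟨nat_lit 11, nat_lit 100, nat_lit 89, nat_lit 48, nat_lit 1756226970⟩]⟩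
noncomputable def p041_l143 : Lf2 := ⟨nat_lit 0, nat_lit 8, [nat_lit 50, nat_lit 5, nat_lit 5, nat_lit 20], true, nat_lit 280, nat_lit 320, nat_lit 160, nat_lit 248, ⟨nat_lit 0, nat_lit 0, nat_lit 1000, nat_lit 5, nat_lit 74, nat_lit 1000, nat_lit 219, nat_lit 1000, nat_lit 2869, nat_lit 206, nat_lit 52267, nat_lit 271, nat_lit 48925413, nat_lit 0, nat_lit 0, nat_lit 3682490, false, false⟩,
 nat_lit 0, nat_lit 0, nat_lit 0, nat_lit 100000, nat_lit 4132, nat_lit 0, nat_lit 0, nat_lit 0, nat_lit 0, nat_lit 0, nat_lit 0, nat_lit 0, nat_lit 0, nat_lit 0, nat_lit 98, nat_lit 619600, nat_lit 0, nat_lit 0, [(nat_lit 6, [(nat_lit 5, nat_lit 634), (nat_lit 6, nat_lit 366)]), (nat_lit 9, [(nat_lit 5, nat_lit 634), (nat_lit 6, nat_lit 366)])],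
 ⟨p041_k16, nat_lit 0, nat_lit 0, nat_lit 173, nat_lit 0, nat_lit 0, [nat_lit 2937459201, nat_lit 2048198401, nat_lit 19856000], [], [nat_lit 18469964076, nat_lit 20710664288, nat_lit 17176973912, nat_lit 19012224442, nat_lit 21226114119, nat_lit 23578548138, nat_lit 19512829152, nat_lit 21856679056], nat_lit 0, nat_lit 0, nat_lit 0, nat_lit 0, nat_lit 0, nat_lit 0, [], [nat_lit 11, nat_lit 40, nat_lit 40, nat_lit 80, nat_lit 1, nat_lit 317, nat_lit 100, nat_lit 9]⟩, C1.Rw.none,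
 ⟨nat_lit 5477, nat_lit 6325, ⟨.ofNat (nat_lit 126498), .ofNat (nat_lit 192309), .ofNat (nat_lit 147866), .ofNat (nat_lit 213677), .ofNat (nat_lit 161677), .ofNat (nat_lit 221623), .ofNat (nat_lit 183034), .ofNat (nat_lit 242980)⟩, ⟨.ofNat (nat_lit 493584), .ofNat (nat_lit 575816), .ofNat (nat_lit 536314), .ofNat (nat_lit 618504), .ofNat (nat_lit 479008), .ofNat (nat_lit 553909), .ofNat (nat_lit 521717), .ofNat (nat_lit 596575)⟩⟩, [⟨nat_lit 0, nat_lit 100, nat_lit 94, nat_lit 59, nat_lit 381035735⟩, ⟨nat_lit 4, nat_lit 92, nat_lit 100, nat_lit 75, nat_lit 4393354094⟩]⟩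
noncomputable def p041_l144 : Lf2 := ⟨nat_lit 0, nat_lit 8, [nat_lit 50, nat_lit 5, nat_lit 5, nat_lit 20], true, nat_lit 280, nat_lit 320, nat_lit 0, nat_lit 300, ⟨nat_lit 0, nat_lit 1000, nat_lit 0, nat_lit 5, nat_lit 99, nat_lit 1000, nat_lit 219, nat_lit 0, nat_lit 0, nat_lit 0, nat_lit 0, nat_lit 0, nat_lit 47608566, nat_lit 4339552, nat_lit 15051882, nat_lit 4005473, false, false⟩,
 nat_lit 0, nat_lit 0, nat_lit 0, nat_lit 9246, nat_lit 5031, nat_lit 0, nat_lit 0, nat_lit 0, nat_lit 0, nat_lit 0, nat_lit 0, nat_lit 0, nat_lit 0, nat_lit 0, nat_lit 0, nat_lit 250000, nat_lit 0, nat_lit 0, [(nat_lit 6, [(nat_lit 0, nat_lit 1000)]), (nat_lit 9, [(nat_lit 0, nat_lit 1000)])],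
 ⟨p041_k12, nat_lit 0, nat_lit 0, nat_lit 70, nat_lit 0, nat_lit 0, [nat_lit 3128000000, nat_lit 3710400000], [], [nat_lit 17543224434, nat_lit 20064857126, nat_lit 16876062372, nat_lit 19309704614, nat_lit 20537529800, nat_lit 22828055748, nat_lit 19759002372, nat_lit 21902035448], nat_lit 0, nat_lit 0, nat_lit 0, nat_lit 0, nat_lit 0, nat_lit 0, [], [nat_lit 70, nat_lit 40, nat_lit 40, nat_lit 80, nat_lit 13, nat_lit 317, nat_lit 100, nat_lit 9]⟩, C1.Rw.none,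
 ⟨nat_lit 5477, nat_lit 6325, ⟨.ofNat (nat_lit 170942), .ofNat (nat_lit 253206), .ofNat (nat_lit 213677), .ofNat (nat_lit 295942), .ofNat (nat_lit 200266), .ofNat (nat_lit 275199), .ofNat (nat_lit 242980), .ofNat (nat_lit 317913)⟩, ⟨.ofNat (nat_lit 493584), .ofNat (nat_lit 575816), .ofNat (nat_lit 536314), .ofNat (nat_lit 618504), .ofNat (nat_lit 479008), .ofNat (nat_lit 553909), .ofNat (nat_lit 521717), .ofNat (nat_lit 596575)⟩⟩, [⟨nat_lit 4, nat_lit 92, nat_lit 100, nat_lit 75, nat_lit 384439636⟩]⟩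
noncomputable def p041_l145 : Lf2 := ⟨nat_lit 0, nat_lit 8, [nat_lit 50, nat_lit 5, nat_lit 5, nat_lit 20], true, nat_lit 280, nat_lit 320, nat_lit 0, nat_lit 336, ⟨nat_lit 0, nat_lit 1000, nat_lit 0, nat_lit 5, nat_lit 130, nat_lit 1000, nat_lit 219, nat_lit 0, nat_lit 0, nat_lit 0, nat_lit 0, nat_lit 0, nat_lit 45707841, nat_lit 6519201, nat_lit 14772958, nat_lit 4388255, false, false⟩,
 nat_lit 0, nat_lit 0, nat_lit 0, nat_lit 8918, nat_lit 4944, nat_lit 0, nat_lit 0, nat_lit 0, nat_lit 0, nat_lit 0, nat_lit 0, nat_lit 0, nat_lit 0, nat_lit 0, nat_lit 0, nat_lit 400000, nat_lit 0, nat_lit 0, [(nat_lit 6, [(nat_lit 1, nat_lit 1000)]), (nat_lit 9, [(nat_lit 1, nat_lit 1000)])],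
 ⟨p041_k16, nat_lit 0, nat_lit 0, nat_lit 60, nat_lit 0, nat_lit 0, [nat_lit 2702720000, nat_lit 3151066667, nat_lit 3294533333], [], [nat_lit 16534127328, nat_lit 18947691536, nat_lit 16643012528, nat_lit 18939230688, nat_lit 19390619328, nat_lit 21603443872, nat_lit 19357205440, nat_lit 21384400800], nat_lit 0, nat_lit 0, nat_lit 0, nat_lit 0, nat_lit 0, nat_lit 0, [], [nat_lit 11, nat_lit 40, nat_lit 40, nat_lit 80, nat_lit 1, nat_lit 317, nat_lit 100, nat_lit 8]⟩, C1.Rw.none,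
 ⟨nat_lit 5477, nat_lit 6325, ⟨.ofNat (nat_lit 253206), .ofNat (nat_lit 335470), .ofNat (nat_lit 295942), .ofNat (nat_lit 378206), .ofNat (nat_lit 275199), .ofNat (nat_lit 350132), .ofNat (nat_lit 317913), .ofNat (nat_lit 392847)⟩, ⟨.ofNat (nat_lit 493584), .ofNat (nat_lit 575816), .ofNat (nat_lit 536314), .ofNat (nat_lit 618504), .ofNat (nat_lit 479008), .ofNat (nat_lit 553909), .ofNat (nat_lit 521717), .ofNat (nat_lit 596575)⟩⟩, [⟨nat_lit 16, nat_lit 100, nat_lit 92, nat_lit 75, nat_lit 370024178⟩]⟩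
noncomputable def p041_l146 : Lf2 := ⟨nat_lit 0, nat_lit 8, [nat_lit 50, nat_lit 5, nat_lit 5, nat_lit 20], true, nat_lit 320, nat_lit 336, nat_lit 0, nat_lit 300, ⟨nat_lit 0, nat_lit 0, nat_lit 1000, nat_lit 5, nat_lit 100, nat_lit 1000, nat_lit 241, nat_lit 1000, nat_lit 31510, nat_lit 200, nat_lit 93750, nat_lit 290, nat_lit 45432782, nat_lit 0, nat_lit 0, nat_lit 4187611, false, false⟩,
 nat_lit 0, nat_lit 0, nat_lit 0, nat_lit 100000, nat_lit 3852, nat_lit 0, nat_lit 0, nat_lit 0, nat_lit 0, nat_lit 0, nat_lit 0, nat_lit 0, nat_lit 0, nat_lit 0, nat_lit 77, nat_lit 462400, nat_lit 0, nat_lit 0, [(nat_lit 6, [(nat_lit 5, nat_lit 896), (nat_lit 6, nat_lit 104)]), (nat_lit 9, [(nat_lit 5, nat_lit 896), (nat_lit 6, nat_lit 104)])],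
 ⟨p041_k12, nat_lit 0, nat_lit 0, nat_lit 178, nat_lit 0, nat_lit 0, [nat_lit 2829286400, nat_lit 4064000], [], [nat_lit 21240470785, nat_lit 23331134861, nat_lit 20060589856, nat_lit 21639661344, nat_lit 22486205732, nat_lit 24643158296, nat_lit 21008829028, nat_lit 22515382132], nat_lit 0, nat_lit 0, nat_lit 0, nat_lit 0, nat_lit 0, nat_lit 0, [], [nat_lit 70, nat_lit 40, nat_lit 40, nat_lit 80, nat_lit 13, nat_lit 317, nat_lit 100, nat_lit 9]⟩, C1.Rw.none,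
 ⟨nat_lit 5477, nat_lit 6325, ⟨.ofNat (nat_lit 96904), .ofNat (nat_lit 335470), .ofNat (nat_lit 139640), .ofNat (nat_lit 378206), .ofNat (nat_lit 132827), .ofNat (nat_lit 350132), .ofNat (nat_lit 175541), .ofNat (nat_lit 392847)⟩, ⟨.ofNat (nat_lit 575816), .ofNat (nat_lit 608692), .ofNat (nat_lit 618504), .ofNat (nat_lit 651380), .ofNat (nat_lit 553909), .ofNat (nat_lit 583853), .ofNat (nat_lit 596575), .ofNat (nat_lit 626519)⟩⟩, [⟨nat_lit 0, nat_lit 100, nat_lit 96, nat_lit 40, nat_lit 174938371⟩, ⟨nat_lit 16, nat_lit 100, nat_lit 76, nat_lit 82, nat_lit 6524041697⟩]⟩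
noncomputable def p041_l147 : Lf2 := ⟨nat_lit 0, nat_lit 8, [nat_lit 50, nat_lit 5, nat_lit 5, nat_lit 20], true, nat_lit 160, nat_lit 336, nat_lit 0, nat_lit 360, ⟨nat_lit 0, nat_lit 1000, nat_lit 0, nat_lit 5, nat_lit 193, nat_lit 1000, nat_lit 178, nat_lit 0, nat_lit 0, nat_lit 0, nat_lit 0, nat_lit 0, nat_lit 44588403, nat_lit 11916838, nat_lit 10494759, nat_lit 4671692, false, false⟩,
 nat_lit 0, nat_lit 0, nat_lit 0, nat_lit 6641, nat_lit 5047, nat_lit 0, nat_lit 0, nat_lit 0, nat_lit 0, nat_lit 0, nat_lit 0, nat_lit 0, nat_lit 0, nat_lit 0, nat_lit 0, nat_lit 400000, nat_lit 0, nat_lit 0, [(nat_lit 6, [(nat_lit 1, nat_lit 1000)]), (nat_lit 9, [(nat_lit 1, nat_lit 1000)])],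
 ⟨p041_k16, nat_lit 0, nat_lit 0, nat_lit 54, nat_lit 0, nat_lit 0, [nat_lit 2702720000, nat_lit 3151066667, nat_lit 3294533333], [], [nat_lit 9816480884, nat_lit 12902895236, nat_lit 14622393328, nat_lit 17051389140, nat_lit 20562132062, nat_lit 22778253990, nat_lit 23346338024, nat_lit 25134078840], nat_lit 0, nat_lit 0, nat_lit 0, nat_lit 0, nat_lit 0, nat_lit 0, [], [nat_lit 11, nat_lit 40, nat_lit 40, nat_lit 80, nat_lit 1, nat_lit 456, nat_lit 225, nat_lit 13]⟩, C1.Rw.none,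
 ⟨nat_lit 5477, nat_lit 6325, ⟨.ofNat (nat_lit 335470), .ofNat (nat_lit 582178), .ofNat (nat_lit 378206), .ofNat (nat_lit 624852), .ofNat (nat_lit 350132), .ofNat (nat_lit 574846), .ofNat (nat_lit 392847), .ofNat (nat_lit 617499)⟩, ⟨.ofNat (nat_lit 246791), .ofNat (nat_lit 608692), .ofNat (nat_lit 289527), .ofNat (nat_lit 651380), .ofNat (nat_lit 254209), .ofNat (nat_lit 583853), .ofNat (nat_lit 296923), .ofNat (nat_lit 626519)⟩⟩, [⟨nat_lit 16, nat_lit 100, nat_lit 92, nat_lit 75, nat_lit 229450863⟩]⟩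
noncomputable def p041_l148 : Lf2 := ⟨nat_lit 0, nat_lit 8, [nat_lit 50, nat_lit 5, nat_lit 5, nat_lit 20], false, nat_lit 0, nat_lit 336, nat_lit 0, nat_lit 360, ⟨nat_lit 1000, nat_lit 0, nat_lit 0, nat_lit 0, nat_lit 0, nat_lit 0, nat_lit 0, nat_lit 0, nat_lit 0, nat_lit 0, nat_lit 0, nat_lit 0, nat_lit 0, nat_lit 0, nat_lit 0, nat_lit 0, false, false⟩,
 nat_lit 0, nat_lit 0, nat_lit 0, nat_lit 25804, nat_lit 6828, nat_lit 8467, nat_lit 1464, nat_lit 0, nat_lit 0, nat_lit 2097, nat_lit 0, nat_lit 0, nat_lit 0, nat_lit 0, nat_lit 0, nat_lit 0, nat_lit 0, nat_lit 0, [],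
 ⟨p041_k16, nat_lit 0, nat_lit 0, nat_lit 215, nat_lit 0, nat_lit 0, [nat_lit 4688000000, nat_lit 6250000000, nat_lit 9842000000], [], [nat_lit 24919515056, nat_lit 27013785552, nat_lit 36601459968, nat_lit 37885166048, nat_lit 27242869120, nat_lit 28484957194, nat_lit 34215094660, nat_lit 35220420266], nat_lit 0, nat_lit 0, nat_lit 0, nat_lit 0, nat_lit 0, nat_lit 0, [], [nat_lit 11, nat_lit 40, nat_lit 40, nat_lit 80, nat_lit 1, nat_lit 538, nat_lit 300, nat_lit 15]⟩, ⟨p041_k21, nat_lit 0, nat_lit 0, nat_lit 255, nat_lit 0, nat_lit 0, [nat_lit 6250000000, nat_lit 7968000000, nat_lit 11872000000], [], [nat_lit 26788188401, nat_lit 28133918209, nat_lit 39425992833, nat_lit 40016616637, nat_lit 28623468565, nat_lit 29160699835, nat_lit 37349486252, nat_lit 37707831554], nat_lit 0, nat_lit 0, nat_lit 0, nat_lit 0, nat_lit 0, nat_lit 0, [], [nat_lit 53, nat_lit 40, nat_lit 40, nat_lit 80, nat_lit 14, nat_lit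 483, nat_lit 250, nat_lit 12]⟩,
 zbF0, [⟨nat_lit 4, nat_lit 92, nat_lit 100, nat_lit 75, nat_lit 199646420⟩, ⟨nat_lit 19, nat_lit 100, nat_lit 77, nat_lit 72, nat_lit 226664541⟩]⟩
noncomputable def b_V_600_500_10_0 : St := ⟨true, nat_lit 0, nat_lit 0, nat_lit 1, nat_lit 80, nat_lit 240, nat_lit 280, nat_lit 200, nat_lit 240, nat_lit 4, nat_lit 400, nat_lit 40, nat_lit 80, nat_lit 0, nat_lit 336, nat_lit 0, nat_lit 360, nat_lit 0, nat_lit 32, nat_lit 0, nat_lit 0, nat_lit 0, nat_lit 0⟩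
theorem d_V_600_500_10_0 (h : EB TB.env) : Dead b_V_600_500_10_0 := chkB_sound0 h (T :=
(.spl (nat_lit 2) (nat_lit 240)
(.spl (nat_lit 4) (nat_lit 160)
(.spl (nat_lit 0) (nat_lit 260)
(.spl (nat_lit 6) (nat_lit 16)
(.leaf p041_l126)
(.leaf p041_l127))
(.trZ (nat_lit 0) (nat_lit 100) (nat_lit 95) (nat_lit 30) (nat_lit 8) (.leaf p041_l128)))
(.spl (nat_lit 2) (nat_lit 120)
(.spl (nat_lit 4) (nat_lit 240)
(.leaf p041_l129)
(.spl (nat_lit 4) (nat_lit 280)
(.spl (nat_lit 2) (nat_lit 80)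
(.trX (nat_lit 23) (nat_lit 100) (nat_lit 76) (nat_lit 82) (nat_lit 336) (.spl (nat_lit 2) (nat_lit 40)
(.trX (nat_lit 23) (nat_lit 100) (nat_lit 92) (nat_lit 61) (nat_lit 288) (.spl (nat_lit 3) (nat_lit 60)
(.spl (nat_lit 2) (nat_lit 20)
(.trX (nat_lit 23) (nat_lit 100) (nat_lit 99) (nat_lit 44) (nat_lit 252) (.spl (nat_lit 6) (nat_lit 20)
(.spl (nat_lit 6) (nat_lit 8)
(.spl (nat_lit 0) (nat_lit 260)
(.leaf p041_l130)
(.trZ (nat_lit 0) (nat_lit 100) (nat_lit 95) (nat_lit 30) (nat_lit 8) (.leaf p041_l131)))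
(.leaf p041_l132))
(.leaf p041_l133)))
(.spl (nat_lit 0) (nat_lit 260)
(.leaf p041_l134)
(.leaf p041_l135)))
(.leaf p041_l136)))
(.leaf p041_l137)))
(.leaf p041_l138))
(.trX (nat_lit 23) (nat_lit 100) (nat_lit 80) (nat_lit 100) (nat_lit 336) (.spl (nat_lit 4) (nat_lit 320)
(.spl (nat_lit 2) (nat_lit 80)
(.trX (nat_lit 23) (nat_lit 100) (nat_lit 95) (nat_lit 87) (nat_lit 300) (.spl (nat_lit 2) (nat_lit 40)
(.trX (nat_lit 23) (nat_lit 94) (nat_lit 100) (nat_lit 62) (nat_lit 248) (.spl (nat_lit 1) (nat_lit 220)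
(.leaf p041_l139)
(.trZ (nat_lit 0) (nat_lit 100) (nat_lit 98) (nat_lit 30) (nat_lit 8) (.spl (nat_lit 5) (nat_lit 160)
(.spl (nat_lit 1) (nat_lit 230)
(.leaf p041_l140)
(.trZ (nat_lit 0) (nat_lit 100) (nat_lit 99) (nat_lit 35) (nat_lit 12) (.leaf p041_l141)))
(.spl (nat_lit 6) (nat_lit 20)
(.leaf p041_l142)
(.leaf p041_l143))))))
(.leaf p041_l144)))
(.leaf p041_l145))
(.trX (nat_lit 23) (nat_lit 87) (nat_lit 95) (nat_lit 100) (nat_lit 300) (.leaf p041_l146))))))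
(.leaf p041_l147)))
(.leaf p041_l148))) (by decide +kernel)
noncomputable def p041_l149 : Lf2 := ⟨nat_lit 0, nat_lit 4, [nat_lit 38, nat_lit 5, nat_lit 5, nat_lit 20], true, nat_lit 0, nat_lit 160, nat_lit 0, nat_lit 360, ⟨nat_lit 0, nat_lit 0, nat_lit 1000, nat_lit 5, nat_lit 146, nat_lit 285, nat_lit 54, nat_lit 1000, nat_lit 18150, nat_lit 248, nat_lit 3671, nat_lit 204, nat_lit 59140080, nat_lit 0, nat_lit 0, nat_lit 1807674, false, false⟩,
 nat_lit 0, nat_lit 0, nat_lit 0, nat_lit 6178, nat_lit 3950, nat_lit 0, nat_lit 0, nat_lit 0, nat_lit 0, nat_lit 0, nat_lit 0, nat_lit 0, nat_lit 0, nat_lit 0, nat_lit 78, nat_lit 968800, nat_lit 0, nat_lit 0, [(nat_lit 6, [(nat_lit 5, nat_lit 52), (nat_lit 6, nat_lit 948)])],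
 ⟨p041_k4, nat_lit 0, nat_lit 0, nat_lit 174, nat_lit 0, nat_lit 0, [nat_lit 2775947201, nat_lit 132175467], [], [nat_lit 13583145948, nat_lit 14909536040, nat_lit 16545787202, nat_lit 17633035302, nat_lit 13165076349, nat_lit 14299247682, nat_lit 16395810402, nat_lit 17316124802], nat_lit 0, nat_lit 0, nat_lit 0, nat_lit 0, nat_lit 0, nat_lit 0, [], [nat_lit 39, nat_lit 40, nat_lit 40, nat_lit 80, nat_lit 7, nat_lit 317, nat_lit 100, nat_lit 11]⟩, C1.Rw.none,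
 ⟨nat_lit 5916, nat_lit 6325, ⟨.ofNat (nat_lit 96904), .ofNat (nat_lit 582240), .ofNat (nat_lit 139640), .ofNat (nat_lit 624961), .ofNat (nat_lit 115184), .ofNat (nat_lit 578509), .ofNat (nat_lit 157863), .ofNat (nat_lit 621173)⟩, ⟨.negSucc (nat_lit 82265), .ofNat (nat_lit 246791), .negSucc (nat_lit 39529), .ofNat (nat_lit 289527), .negSucc (nat_lit 63383), .ofNat (nat_lit 250751), .negSucc (nat_lit 20704), .ofNat (nat_lit 293429)⟩⟩, [⟨nat_lit 0, nat_lit 100, nat_lit 97, nat_lit 49, nat_lit 3345826⟩]⟩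
noncomputable def p041_l150 : Lf2 := ⟨nat_lit 1, nat_lit 8, [nat_lit 50, nat_lit 5, nat_lit 5, nat_lit 20], false, nat_lit 0, nat_lit 160, nat_lit 0, nat_lit 360, zbN0,
 nat_lit 0, nat_lit 0, nat_lit 0, nat_lit 0, nat_lit 0, nat_lit 0, nat_lit 0, nat_lit 0, nat_lit 0, nat_lit 0, nat_lit 0, nat_lit 0, nat_lit 0, nat_lit 0, nat_lit 0, nat_lit 0, nat_lit 0, nat_lit 0, [],
 C1.Rw.none, C1.Rw.none,
 zbF0, []⟩
noncomputable def p041_l151 : Lf2 := ⟨nat_lit 0, nat_lit 8, [nat_lit 50, nat_lit 5, nat_lit 5, nat_lit 20], true, nat_lit 0, nat_lit 160, nat_lit 0, nat_lit 360, ⟨nat_lit 0, nat_lit 0, nat_lit 1000, nat_lit 5, nat_lit 150, nat_lit 182, nat_lit 55, nat_lit 1000, nat_lit 21600, nat_lit 251, nat_lit 2161, nat_lit 205, nat_lit 58718857, nat_lit 0, nat_lit 0, nat_lit 1870174, false, false⟩,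
 nat_lit 0, nat_lit 0, nat_lit 0, nat_lit 4864, nat_lit 4311, nat_lit 0, nat_lit 0, nat_lit 0, nat_lit 0, nat_lit 0, nat_lit 0, nat_lit 0, nat_lit 0, nat_lit 0, nat_lit 123, nat_lit 605200, nat_lit 0, nat_lit 0, [(nat_lit 9, [(nat_lit 5, nat_lit 658), (nat_lit 6, nat_lit 342)])],
 ⟨p041_k11, nat_lit 0, nat_lit 0, nat_lit 295, nat_lit 0, nat_lit 0, [nat_lit 3668546401, nat_lit 15003200], [], [nat_lit 15951642517, nat_lit 17376731476, nat_lit 17503382244, nat_lit 18632505622, nat_lit 15033796556, nat_lit 15893321571, nat_lit 16872549754, nat_lit 17824658146], nat_lit 0, nat_lit 0, nat_lit 0, nat_lit 0, nat_lit 0, nat_lit 0, [], [nat_lit 70, nat_lit 40, nat_lit 40, nat_lit 80, nat_lit 13, nat_lit 401, nat_lit 175, nat_lit 12]⟩, C1.Rw.none,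
 ⟨nat_lit 5477, nat_lit 5917, ⟨.ofNat (nat_lit 123037), .ofNat (nat_lit 578514), .ofNat (nat_lit 165716), .ofNat (nat_lit 621176), .ofNat (nat_lit 140320), .ofNat (nat_lit 574913), .ofNat (nat_lit 183034), .ofNat (nat_lit 617611)⟩, ⟨.negSucc (nat_lit 63383), .ofNat (nat_lit 250751), .negSucc (nat_lit 20704), .ofNat (nat_lit 293429), .negSucc (nat_lit 45522), .ofNat (nat_lit 254209), .negSucc (nat_lit 2808), .ofNat (nat_lit 296923)⟩⟩, [⟨nat_lit 0, nat_lit 100, nat_lit 94, nat_lit 59, nat_lit 26613808⟩]⟩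
noncomputable def b_V_600_500_10_1 : St := ⟨true, nat_lit 0, nat_lit 1, nat_lit 1, nat_lit 80, nat_lit 240, nat_lit 280, nat_lit 200, nat_lit 240, nat_lit 4, nat_lit 240, nat_lit 40, nat_lit 80, nat_lit 0, nat_lit 160, nat_lit 0, nat_lit 360, nat_lit 0, nat_lit 32, nat_lit 0, nat_lit 0, nat_lit 0, nat_lit 0⟩
theorem d_V_600_500_10_1 (h : EB TB.env) : Dead b_V_600_500_10_1 := chkB_sound0 h (T :=
(.spl (nat_lit 0) (nat_lit 260)
(.spl (nat_lit 6) (nat_lit 16)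
(.leaf p041_l149)
(.leaf p041_l150))
(.trZ (nat_lit 0) (nat_lit 100) (nat_lit 95) (nat_lit 30) (nat_lit 8) (.leaf p041_l151)))) (by decide +kernel)
noncomputable def p041_l152 : Lf2 := ⟨nat_lit 0, nat_lit 2, [nat_lit 10, nat_lit 5, nat_lit 5, nat_lit 20], true, nat_lit 240, nat_lit 280, nat_lit 0, nat_lit 252, ⟨nat_lit 0, nat_lit 0, nat_lit 1000, nat_lit 5, nat_lit 57, nat_lit 1000, nat_lit 184, nat_lit 1000, nat_lit 21600, nat_lit 251, nat_lit 30817, nat_lit 258, nat_lit 53286169, nat_lit 0, nat_lit 0, nat_lit 3084757, false, false⟩,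
 nat_lit 0, nat_lit 0, nat_lit 0, nat_lit 5643, nat_lit 3871, nat_lit 0, nat_lit 0, nat_lit 0, nat_lit 0, nat_lit 0, nat_lit 0, nat_lit 0, nat_lit 0, nat_lit 0, nat_lit 80, nat_lit 1000000, nat_lit 0, nat_lit 0, [(nat_lit 6, [(nat_lit 6, nat_lit 1000)])],
 ⟨p041_k13, nat_lit 0, nat_lit 0, nat_lit 124, nat_lit 0, nat_lit 0, [nat_lit 2257066667, nat_lit 1408000000, nat_lit 211200000], [], [nat_lit 15603634709, nat_lit 16542432192, nat_lit 15152706553, nat_lit 16093035769, nat_lit 17970203596, nat_lit 19275188750, nat_lit 17195968216, nat_lit 18495577998], nat_lit 0, nat_lit 0, nat_lit 0, nat_lit 0, nat_lit 0, nat_lit 0, [], [nat_lit 9, nat_lit 40, nat_lit 40, nat_lit 80, nat_lit 2, nat_lit 215, nat_lit 10, nat_lit 7]⟩, C1.Rw.none,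
 ⟨nat_lit 5916, nat_lit 6325, ⟨.ofNat (nat_lit 96904), .ofNat (nat_lit 129809), .ofNat (nat_lit 139640), .ofNat (nat_lit 172545), .ofNat (nat_lit 115184), .ofNat (nat_lit 146597), .ofNat (nat_lit 157863), .ofNat (nat_lit 189276)⟩, ⟨.ofNat (nat_lit 411320), .ofNat (nat_lit 493584), .ofNat (nat_lit 432688), .ofNat (nat_lit 514952), .ofNat (nat_lit 407818), .ofNat (nat_lit 486351), .ofNat (nat_lit 429157), .ofNat (nat_lit 507691)⟩⟩, [⟨nat_lit 0, nat_lit 100, nat_lit 97, nat_lit 35, nat_lit 358620937⟩]⟩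
noncomputable def p041_l153 : Lf2 := ⟨nat_lit 0, nat_lit 2, [nat_lit 10, nat_lit 5, nat_lit 5, nat_lit 20], true, nat_lit 240, nat_lit 280, nat_lit 0, nat_lit 252, ⟨nat_lit 0, nat_lit 0, nat_lit 1000, nat_lit 5, nat_lit 66, nat_lit 1000, nat_lit 182, nat_lit 1000, nat_lit 28439, nat_lit 256, nat_lit 40017, nat_lit 264, nat_lit 53056637, nat_lit 0, nat_lit 0, nat_lit 3184913, false, false⟩,
 nat_lit 0, nat_lit 0, nat_lit 0, nat_lit 5750, nat_lit 3580, nat_lit 0, nat_lit 0, nat_lit 0, nat_lit 0, nat_lit 0, nat_lit 0, nat_lit 0, nat_lit 0, nat_lit 0, nat_lit 37, nat_lit 1000000, nat_lit 0, nat_lit 0, [(nat_lit 9, [(nat_lit 6, nat_lit 1000)])],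
 ⟨p041_k14, nat_lit 0, nat_lit 0, nat_lit 80, nat_lit 0, nat_lit 0, [nat_lit 1689600001, nat_lit 0], [], [nat_lit 16181575554, nat_lit 17399973041, nat_lit 15798626081, nat_lit 17011173281, nat_lit 18760208760, nat_lit 20020397121, nat_lit 18231125061, nat_lit 19488035120], nat_lit 0, nat_lit 0, nat_lit 0, nat_lit 0, nat_lit 0, nat_lit 0, [], [nat_lit 31, nat_lit 40, nat_lit 40, nat_lit 80, nat_lit 3, nat_lit 215, nat_lit 10, nat_lit 8]⟩, C1.Rw.none,
 ⟨nat_lit 5477, nat_lit 5917, ⟨.ofNat (nat_lit 123037), .ofNat (nat_lit 146597), .ofNat (nat_lit 165716), .ofNat (nat_lit 189276), .ofNat (nat_lit 140320), .ofNat (nat_lit 162800), .ofNat (nat_lit 183034), .ofNat (nat_lit 205514)⟩, ⟨.ofNat (nat_lit 407818), .ofNat (nat_lit 486351), .ofNat (nat_lit 429157), .ofNat (nat_lit 507691), .ofNat (nat_lit 404075), .ofNat (nat_lit 479008), .ofNat (nat_lit 425432), .ofNat (nat_lit 500365)⟩⟩, [⟨nat_lit 0, nat_lit 100,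 nat_lit 94, nat_lit 44, nat_lit 1074786349⟩, ⟨nat_lit 4, nat_lit 100, nat_lit 100, nat_lit 71, nat_lit 190053215⟩]⟩
noncomputable def p041_l154 : Lf2 := ⟨nat_lit 0, nat_lit 5, [nat_lit 4, nat_lit 5, nat_lit 5, nat_lit 20], true, nat_lit 240, nat_lit 280, nat_lit 0, nat_lit 252, ⟨nat_lit 0, nat_lit 0, nat_lit 1000, nat_lit 5, nat_lit 61, nat_lit 1000, nat_lit 183, nat_lit 1000, nat_lit 21600, nat_lit 251, nat_lit 35267, nat_lit 261, nat_lit 53220598, nat_lit 0, nat_lit 0, nat_lit 3122454, false, false⟩,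
 nat_lit 0, nat_lit 0, nat_lit 0, nat_lit 36128, nat_lit 4694, nat_lit 0, nat_lit 0, nat_lit 0, nat_lit 0, nat_lit 0, nat_lit 0, nat_lit 0, nat_lit 0, nat_lit 0, nat_lit 104, nat_lit 669400, nat_lit 0, nat_lit 0, [(nat_lit 6, [(nat_lit 5, nat_lit 551), (nat_lit 6, nat_lit 449)]), (nat_lit 9, [(nat_lit 5, nat_lit 551), (nat_lit 6, nat_lit 449)])],
 ⟨p041_k15, nat_lit 0, nat_lit 0, nat_lit 160, nat_lit 0, nat_lit 0, [nat_lit 3496438401, nat_lit 6584000], [], [nat_lit 16286274088, nat_lit 18600521895, nat_lit 15559731445, nat_lit 17686485786, nat_lit 18803635944, nat_lit 21661451056, nat_lit 17820345150, nat_lit 20669392016], nat_lit 0, nat_lit 0, nat_lit 0, nat_lit 0, nat_lit 0, nat_lit 0, [], [nat_lit 70, nat_lit 40, nat_lit 40, nat_lit 80, nat_lit 13, nat_lit 373, nat_lit 150, nat_lit 10]⟩, C1.Rw.none,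
 ⟨nat_lit 5477, nat_lit 6325, ⟨.ofNat (nat_lit 96904), .ofNat (nat_lit 129809), .ofNat (nat_lit 139640), .ofNat (nat_lit 172545), .ofNat (nat_lit 132827), .ofNat (nat_lit 162800), .ofNat (nat_lit 175541), .ofNat (nat_lit 205514)⟩, ⟨.ofNat (nat_lit 411320), .ofNat (nat_lit 493584), .ofNat (nat_lit 432688), .ofNat (nat_lit 514952), .ofNat (nat_lit 404075), .ofNat (nat_lit 479008), .ofNat (nat_lit 425432), .ofNat (nat_lit 500365)⟩⟩, [⟨nat_lit 0, nat_lit 100, nat_lit 96, nat_lit 40, nat_lit 3238177622⟩, ⟨nat_lit 4, nat_lit 96, nat_lit 100, nat_lit 69, nat_lit 354600968⟩]⟩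
noncomputable def p041_l155 : Lf2 := ⟨nat_lit 0, nat_lit 8, [nat_lit 50, nat_lit 5, nat_lit 5, nat_lit 20], true, nat_lit 240, nat_lit 280, nat_lit 0, nat_lit 252, ⟨nat_lit 0, nat_lit 0, nat_lit 1000, nat_lit 5, nat_lit 61, nat_lit 1000, nat_lit 183, nat_lit 1000, nat_lit 21600, nat_lit 251, nat_lit 35267, nat_lit 261, nat_lit 53220598, nat_lit 0, nat_lit 0, nat_lit 3122454, false, false⟩,
 nat_lit 0, nat_lit 0, nat_lit 0, nat_lit 100000, nat_lit 4732, nat_lit 0, nat_lit 0, nat_lit 0, nat_lit 0, nat_lit 0, nat_lit 0, nat_lit 0, nat_lit 0, nat_lit 0, nat_lit 105, nat_lit 676600, nat_lit 0, nat_lit 0, [(nat_lit 6, [(nat_lit 5, nat_lit 539), (nat_lit 6, nat_lit 461)]), (nat_lit 9, [(nat_lit 5, nat_lit 539), (nat_lit 6, nat_lit 461)])],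
 ⟨p041_k12, nat_lit 0, nat_lit 0, nat_lit 160, nat_lit 0, nat_lit 0, [nat_lit 3520617601, nat_lit 8376000], [], [nat_lit 16257088864, nat_lit 18637584724, nat_lit 15499889376, nat_lit 17648885554, nat_lit 18842117632, nat_lit 21711376368, nat_lit 17848379584, nat_lit 20709689648], nat_lit 0, nat_lit 0, nat_lit 0, nat_lit 0, nat_lit 0, nat_lit 0, [], [nat_lit 70, nat_lit 40, nat_lit 40, nat_lit 80, nat_lit 13, nat_lit 373, nat_lit 150, nat_lit 10]⟩, C1.Rw.none,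
 ⟨nat_lit 5477, nat_lit 6325, ⟨.ofNat (nat_lit 96904), .ofNat (nat_lit 129809), .ofNat (nat_lit 139640), .ofNat (nat_lit 172545), .ofNat (nat_lit 132827), .ofNat (nat_lit 162800), .ofNat (nat_lit 175541), .ofNat (nat_lit 205514)⟩, ⟨.ofNat (nat_lit 411320), .ofNat (nat_lit 493584), .ofNat (nat_lit 432688), .ofNat (nat_lit 514952), .ofNat (nat_lit 404075), .ofNat (nat_lit 479008), .ofNat (nat_lit 425432), .ofNat (nat_lit 500365)⟩⟩, [⟨nat_lit 0, nat_lit 100, nat_lit 96, nat_lit 40, nat_lit 7749764919⟩, ⟨nat_lit 4, nat_lit 96, nat_lit 100, nat_lit 69, nat_lit 544324048⟩]⟩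
noncomputable def p041_l156 : Lf2 := ⟨nat_lit 0, nat_lit 8, [nat_lit 50, nat_lit 5, nat_lit 5, nat_lit 20], true, nat_lit 240, nat_lit 280, nat_lit 0, nat_lit 288, ⟨nat_lit 0, nat_lit 0, nat_lit 1000, nat_lit 5, nat_lit 72, nat_lit 1000, nat_lit 184, nat_lit 1000, nat_lit 21600, nat_lit 251, nat_lit 48600, nat_lit 269, nat_lit 52504413, nat_lit 0, nat_lit 0, nat_lit 3299237, false, false⟩,
 nat_lit 0, nat_lit 0, nat_lit 0, nat_lit 6388, nat_lit 4064, nat_lit 0, nat_lit 0, nat_lit 0, nat_lit 0, nat_lit 0, nat_lit 0, nat_lit 0, nat_lit 0, nat_lit 0, nat_lit 125, nat_lit 831400, nat_lit 0, nat_lit 0, [(nat_lit 6, [(nat_lit 5, nat_lit 281), (nat_lit 6, nat_lit 719)])],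
 ⟨p041_k16, nat_lit 0, nat_lit 0, nat_lit 141, nat_lit 0, nat_lit 0, [nat_lit 3100856534, nat_lit 2596105601, nat_lit 97073599], [], [nat_lit 15217719151, nat_lit 16215655503, nat_lit 14608729815, nat_lit 15611764951, nat_lit 17342685351, nat_lit 18671196032, nat_lit 16726750215, nat_lit 17635571072], nat_lit 0, nat_lit 0, nat_lit 0, nat_lit 0, nat_lit 0, nat_lit 0, [], [nat_lit 11, nat_lit 40, nat_lit 40, nat_lit 80, nat_lit 1, nat_lit 373, nat_lit 150, nat_lit 10]⟩, C1.Rw.none,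
 ⟨nat_lit 5916, nat_lit 6325, ⟨.ofNat (nat_lit 129809), .ofNat (nat_lit 170942), .ofNat (nat_lit 172545), .ofNat (nat_lit 213677), .ofNat (nat_lit 146597), .ofNat (nat_lit 185864), .ofNat (nat_lit 189276), .ofNat (nat_lit 228543)⟩, ⟨.ofNat (nat_lit 411320), .ofNat (nat_lit 493584), .ofNat (nat_lit 432688), .ofNat (nat_lit 514952), .ofNat (nat_lit 407818), .ofNat (nat_lit 486351), .ofNat (nat_lit 429157), .ofNat (nat_lit 507691)⟩⟩, [⟨nat_lit 4, nat_lit 92, nat_lit 100, nat_lit 68, nat_lit 207080898⟩]⟩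
noncomputable def p041_l157 : Lf2 := ⟨nat_lit 0, nat_lit 8, [nat_lit 50, nat_lit 5, nat_lit 5, nat_lit 20], true, nat_lit 240, nat_lit 280, nat_lit 0, nat_lit 288, ⟨nat_lit 0, nat_lit 0, nat_lit 1000, nat_lit 5, nat_lit 78, nat_lit 1000, nat_lit 182, nat_lit 1000, nat_lit 28439, nat_lit 256, nat_lit 58017, nat_lit 274, nat_lit 52357790, nat_lit 0, nat_lit 0, nat_lit 3365588, false, false⟩,
 nat_lit 0, nat_lit 0, nat_lit 0, nat_lit 4065, nat_lit 4293, nat_lit 0, nat_lit 0, nat_lit 0, nat_lit 0, nat_lit 0, nat_lit 0, nat_lit 0, nat_lit 0, nat_lit 0, nat_lit 98, nat_lit 463600, nat_lit 0, nat_lit 0, [(nat_lit 9, [(nat_lit 5, nat_lit 894), (nat_lit 6, nat_lit 106)])],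
 ⟨p041_k11, nat_lit 0, nat_lit 0, nat_lit 146, nat_lit 0, nat_lit 0, [nat_lit 3148375200, nat_lit 6577600], [], [nat_lit 16861313200, nat_lit 17826356230, nat_lit 16180578176, nat_lit 17089777836, nat_lit 18881436477, nat_lit 20244145952, nat_lit 18207726947, nat_lit 19204143610], nat_lit 0, nat_lit 0, nat_lit 0, nat_lit 0, nat_lit 0, nat_lit 0, [], [nat_lit 70, nat_lit 40, nat_lit 40, nat_lit 80, nat_lit 13, nat_lit 373, nat_lit 150, nat_lit 10]⟩, C1.Rw.none,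
 ⟨nat_lit 5477, nat_lit 5917, ⟨.ofNat (nat_lit 146597), .ofNat (nat_lit 185864), .ofNat (nat_lit 189276), .ofNat (nat_lit 228543), .ofNat (nat_lit 162800), .ofNat (nat_lit 200266), .ofNat (nat_lit 205514), .ofNat (nat_lit 242980)⟩, ⟨.ofNat (nat_lit 407818), .ofNat (nat_lit 486351), .ofNat (nat_lit 429157), .ofNat (nat_lit 507691), .ofNat (nat_lit 404075), .ofNat (nat_lit 479008), .ofNat (nat_lit 425432), .ofNat (nat_lit 500365)⟩⟩, [⟨nat_lit 0, nat_lit 100, nat_lit 94, nat_lit 44, nat_lit 288937119⟩, ⟨nat_lit 4, nat_lit 100, nat_lit 100, nat_lit 71, nat_lit 109817445⟩]⟩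
noncomputable def p041_l158 : Lf2 := ⟨nat_lit 0, nat_lit 8, [nat_lit 50, nat_lit 5, nat_lit 5, nat_lit 20], true, nat_lit 240, nat_lit 280, nat_lit 0, nat_lit 288, ⟨nat_lit 0, nat_lit 0, nat_lit 1000, nat_lit 5, nat_lit 69, nat_lit 1000, nat_lit 192, nat_lit 1000, nat_lit 10541, nat_lit 239, nat_lit 43350, nat_lit 266, nat_lit 51947652, nat_lit 0, nat_lit 0, nat_lit 3334359, false, false⟩,
 nat_lit 0, nat_lit 0, nat_lit 0, nat_lit 6671, nat_lit 4259, nat_lit 0, nat_lit 0, nat_lit 0, nat_lit 0, nat_lit 0, nat_lit 0, nat_lit 0, nat_lit 0, nat_lit 0, nat_lit 127, nat_lit 842800, nat_lit 0, nat_lit 0, [(nat_lit 6, [(nat_lit 5, nat_lit 262), (nat_lit 6, nat_lit 738)]), (nat_lit 9, [(nat_lit 5, nat_lit 262), (nat_lit 6, nat_lit 738)])],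
 ⟨p041_k16, nat_lit 0, nat_lit 0, nat_lit 164, nat_lit 0, nat_lit 0, [nat_lit 3241945600, nat_lit 2636531200, nat_lit 116867200], [], [nat_lit 15786638668, nat_lit 18176250039, nat_lit 14363952880, nat_lit 16408896012, nat_lit 18363121884, nat_lit 21089937616, nat_lit 16525429030, nat_lit 19105780876], nat_lit 0, nat_lit 0, nat_lit 0, nat_lit 0, nat_lit 0, nat_lit 0, [], [nat_lit 11, nat_lit 40, nat_lit 40, nat_lit 80, nat_lit 1, nat_lit 373, nat_lit 150, nat_lit 10]⟩, C1.Rw.none,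
 ⟨nat_lit 5477, nat_lit 6325, ⟨.ofNat (nat_lit 96904), .ofNat (nat_lit 170942), .ofNat (nat_lit 139640), .ofNat (nat_lit 213677), .ofNat (nat_lit 132827), .ofNat (nat_lit 200266), .ofNat (nat_lit 175541), .ofNat (nat_lit 242980)⟩, ⟨.ofNat (nat_lit 432688), .ofNat (nat_lit 514952), .ofNat (nat_lit 454055), .ofNat (nat_lit 536314), .ofNat (nat_lit 425432), .ofNat (nat_lit 500365), .ofNat (nat_lit 446789), .ofNat (nat_lit 521717)⟩⟩, [⟨nat_lit 0, nat_lit 100, nat_lit 96, nat_lit 40, nat_lit 315758137⟩, ⟨nat_lit 0, nat_lit 100, nat_lit 94, nat_lit 59, nat_lit 66156384⟩]⟩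
noncomputable def p041_l159 : Lf2 := ⟨nat_lit 0, nat_lit 8, [nat_lit 50, nat_lit 5, nat_lit 5, nat_lit 20], true, nat_lit 240, nat_lit 280, nat_lit 0, nat_lit 336, ⟨nat_lit 0, nat_lit 1000, nat_lit 0, nat_lit 5, nat_lit 99, nat_lit 1000, nat_lit 187, nat_lit 0, nat_lit 0, nat_lit 0, nat_lit 0, nat_lit 0, nat_lit 50591987, nat_lit 4424356, nat_lit 11983657, nat_lit 3712437, false, false⟩,
 nat_lit 0, nat_lit 0, nat_lit 0, nat_lit 2546, nat_lit 5490, nat_lit 0, nat_lit 0, nat_lit 0, nat_lit 0, nat_lit 0, nat_lit 0, nat_lit 0, nat_lit 0, nat_lit 0, nat_lit 0, nat_lit 250000, nat_lit 0, nat_lit 0, [(nat_lit 6, [(nat_lit 0, nat_lit 1000)]), (nat_lit 9, [(nat_lit 0, nat_lit 1000)])],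
 ⟨p041_k12, nat_lit 0, nat_lit 0, nat_lit 51, nat_lit 0, nat_lit 0, [nat_lit 3128000000, nat_lit 3710400000], [], [nat_lit 14093695720, nat_lit 17054656040, nat_lit 13413869880, nat_lit 16264974200, nat_lit 17234782860, nat_lit 20021354360, nat_lit 16436345880, nat_lit 18975917060], nat_lit 0, nat_lit 0, nat_lit 0, nat_lit 0, nat_lit 0, nat_lit 0, [], [nat_lit 70, nat_lit 40, nat_lit 40, nat_lit 80, nat_lit 13, nat_lit 401, nat_lit 175, nat_lit 11]⟩, C1.Rw.none,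
 ⟨nat_lit 5477, nat_lit 6325, ⟨.ofNat (nat_lit 170942), .ofNat (nat_lit 253206), .ofNat (nat_lit 213677), .ofNat (nat_lit 295942), .ofNat (nat_lit 200266), .ofNat (nat_lit 275199), .ofNat (nat_lit 242980), .ofNat (nat_lit 317913)⟩, ⟨.ofNat (nat_lit 411320), .ofNat (nat_lit 493584), .ofNat (nat_lit 454055), .ofNat (nat_lit 536314), .ofNat (nat_lit 404075), .ofNat (nat_lit 479008), .ofNat (nat_lit 446789), .ofNat (nat_lit 521717)⟩⟩, [⟨nat_lit 4, nat_lit 92, nat_lit 100, nat_lit 75, nat_lit 18920350⟩]⟩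
noncomputable def p041_l160 : Lf2 := ⟨nat_lit 0, nat_lit 8, [nat_lit 50, nat_lit 5, nat_lit 5, nat_lit 20], true, nat_lit 240, nat_lit 280, nat_lit 0, nat_lit 360, ⟨nat_lit 0, nat_lit 1000, nat_lit 0, nat_lit 5, nat_lit 130, nat_lit 1000, nat_lit 187, nat_lit 0, nat_lit 0, nat_lit 0, nat_lit 0, nat_lit 0, nat_lit 48488719, nat_lit 6682550, nat_lit 11828731, nat_lit 4117448, false, false⟩,
 nat_lit 0, nat_lit 0, nat_lit 0, nat_lit 2501, nat_lit 5856, nat_lit 0, nat_lit 0, nat_lit 0, nat_lit 0, nat_lit 0, nat_lit 0, nat_lit 0, nat_lit 0, nat_lit 0, nat_lit 0, nat_lit 250000, nat_lit 0, nat_lit 0, [(nat_lit 6, [(nat_lit 0, nat_lit 1000)]), (nat_lit 9, [(nat_lit 0, nat_lit 1000)])],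
 ⟨p041_k12, nat_lit 0, nat_lit 0, nat_lit 28, nat_lit 0, nat_lit 0, [nat_lit 3128000000, nat_lit 3710400000], [], [nat_lit 12951982272, nat_lit 15904237280, nat_lit 13079455584, nat_lit 15878478624, nat_lit 16085722272, nat_lit 18933145536, nat_lit 16051469072, nat_lit 18624302032], nat_lit 0, nat_lit 0, nat_lit 0, nat_lit 0, nat_lit 0, nat_lit 0, [], [nat_lit 70, nat_lit 40, nat_lit 40, nat_lit 80, nat_lit 13, nat_lit 401, nat_lit 175, nat_lit 11]⟩, C1.Rw.none,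
 ⟨nat_lit 5477, nat_lit 6325, ⟨.ofNat (nat_lit 253206), .ofNat (nat_lit 335470), .ofNat (nat_lit 295942), .ofNat (nat_lit 378206), .ofNat (nat_lit 275199), .ofNat (nat_lit 350132), .ofNat (nat_lit 317913), .ofNat (nat_lit 392847)⟩, ⟨.ofNat (nat_lit 411320), .ofNat (nat_lit 493584), .ofNat (nat_lit 454055), .ofNat (nat_lit 536314), .ofNat (nat_lit 404075), .ofNat (nat_lit 479008), .ofNat (nat_lit 446789), .ofNat (nat_lit 521717)⟩⟩, [⟨nat_lit 4, nat_lit 92, nat_lit 100, nat_lit 75, nat_lit 27879894⟩]⟩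
noncomputable def b_V_600_500_10_2 : St := ⟨true, nat_lit 0, nat_lit 1, nat_lit 1, nat_lit 80, nat_lit 240, nat_lit 280, nat_lit 200, nat_lit 240, nat_lit 4, nat_lit 120, nat_lit 40, nat_lit 80, nat_lit 240, nat_lit 280, nat_lit 0, nat_lit 360, nat_lit 0, nat_lit 32, nat_lit 0, nat_lit 0, nat_lit 0, nat_lit 0⟩
theorem d_V_600_500_10_2 (h : EB TB.env) : Dead b_V_600_500_10_2 := chkB_sound0 h (T :=
(.spl (nat_lit 2) (nat_lit 80)
(.trX (nat_lit 23) (nat_lit 100) (nat_lit 76) (nat_lit 82) (nat_lit 336) (.spl (nat_lit 2) (nat_lit 40)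
(.trX (nat_lit 23) (nat_lit 100) (nat_lit 92) (nat_lit 61) (nat_lit 288) (.spl (nat_lit 3) (nat_lit 60)
(.spl (nat_lit 2) (nat_lit 20)
(.trX (nat_lit 23) (nat_lit 100) (nat_lit 99) (nat_lit 44) (nat_lit 252) (.spl (nat_lit 6) (nat_lit 20)
(.spl (nat_lit 6) (nat_lit 8)
(.spl (nat_lit 0) (nat_lit 260)
(.leaf p041_l152)
(.trZ (nat_lit 0) (nat_lit 100) (nat_lit 95) (nat_lit 30) (nat_lit 8) (.leaf p041_l153)))
(.leaf p041_l154))
(.leaf p041_l155)))
(.spl (nat_lit 0) (nat_lit 260)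
(.leaf p041_l156)
(.leaf p041_l157)))
(.leaf p041_l158)))
(.leaf p041_l159)))
(.leaf p041_l160))) (by decide +kernel)

end B2
end Pool.Agent.Lib.MP_6947cd_al
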