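import Pool.Agent.Lib.MP_6947cd_al.ZB.Pre

/-!
Problem MP_6947cd_al (Chollet).  Case B, second entry in [2/5, 17/20]: certificates of the tree, part P042 (generated).
-/

set_option autoImplicit false
set_option linter.all false

namespace Pool.Agent.Lib.MP_6947cd_al
namespace B2

open Ent Fr B1 PkA

noncomputable def p042_k0 : C1.Kn := ⟨[nat_lit 80, nat_lit 100, nat_lit 140], [nat_lit 0, nat_lit 0, nat_lit 1022], [(nat_lit 0, nat_lit 0, nat_lit 0), (nat_lit 0, nat_lit 0, nat_lit 0), (nat_lit 1000, nat_lit 1000, nat_lit 399)], (nat_lit 100, nat_lit 95, nat_lit 55)⟩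
noncomputable def p042_k1 : C1.Kn := ⟨[nat_lit 80, nat_lit 100, nat_lit 120], [nat_lit 0, nat_lit 0, nat_lit 511], [(nat_lit 0, nat_lit 0, nat_lit 0), (nat_lit 0, nat_lit 0, nat_lit 0), (nat_lit 1000, nat_lit 997, nat_lit 383)], (nat_lit 98, nat_lit 100, nat_lit 28)⟩
noncomputable def p042_k2 : C1.Kn := ⟨[nat_lit 80, nat_lit 100, nat_lit 110], [nat_lit 0, nat_lit 0, nat_lit 288], [(nat_lit 0, nat_lit 0, nat_lit 0), (nat_lit 0, nat_lit 0, nat_lit 0), (nat_lit 1000, nat_lit 983, nat_lit 284)], (nat_lit 98, nat_lit 100, nat_lit 28)⟩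
noncomputable def p042_k3 : C1.Kn := ⟨[nat_lit 100, nat_lit 120], [nat_lit 0, nat_lit 383], [(nat_lit 0, nat_lit 0, nat_lit 0), (nat_lit 1000, nat_lit 1000, nat_lit 299)], (nat_lit 100, nat_lit 100, nat_lit 28)⟩
noncomputable def p042_k4 : C1.Kn := ⟨[nat_lit 80, nat_lit 100, nat_lit 120], [nat_lit 0, nat_lit 65, nat_lit 576], [(nat_lit 0, nat_lit 0, nat_lit 0), (nat_lit 1000, nat_lit 990, nat_lit 51), (nat_lit 1000, nat_lit 990, nat_lit 399)], (nat_lit 98, nat_lit 100, nat_lit 28)⟩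
noncomputable def p042_k5 : C1.Kn := ⟨[nat_lit 80, nat_lit 100, nat_lit 110], [nat_lit 0, nat_lit 132, nat_lit 394], [(nat_lit 0, nat_lit 0, nat_lit 0), (nat_lit 1000, nat_lit 979, nat_lit 103), (nat_lit 1000, nat_lit 972, nat_lit 338)], (nat_lit 97, nat_lit 100, nat_lit 28)⟩
noncomputable def p042_k6 : C1.Kn := ⟨[nat_lit 80, nat_lit 120], [nat_lit 0, nat_lit 0], [(nat_lit 0, nat_lit 0, nat_lit 0), (nat_lit 0, nat_lit 0, nat_lit 0)], (nat_lit 98, nat_lit 100, nat_lit 28)⟩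
noncomputable def p042_k7 : C1.Kn := ⟨[nat_lit 80, nat_lit 100], [nat_lit 0, nat_lit 265], [(nat_lit 0, nat_lit 0, nat_lit 0), (nat_lit 1000, nat_lit 959, nat_lit 206)], (nat_lit 95, nat_lit 100, nat_lit 28)⟩
noncomputable def p042_k8 : C1.Kn := ⟨[nat_lit 50, nat_lit 70, nat_lit 90, nat_lit 100], [nat_lit 0, nat_lit 0, nat_lit 0, nat_lit 294], [(nat_lit 0, nat_lit 0, nat_lit 0), (nat_lit 0, nat_lit 0, nat_lit 0), (nat_lit 0, nat_lit 0, nat_lit 0), (nat_lit 1000, nat_lit 954, nat_lit 287)], (nat_lit 95, nat_lit 100, nat_lit 28)⟩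
noncomputable def p042_k9 : C1.Kn := ⟨[nat_lit 80, nat_lit 140], [nat_lit 0, nat_lit 0], [(nat_lit 0, nat_lit 0, nat_lit 0), (nat_lit 0, nat_lit 0, nat_lit 0)], (nat_lit 100, nat_lit 99, nat_lit 44)⟩
noncomputable def p042_k10 : C1.Kn := ⟨[nat_lit 80, nat_lit 120], [nat_lit 0, nat_lit 528], [(nat_lit 0, nat_lit 0, nat_lit 0), (nat_lit 1000, nat_lit 959, nat_lit 206)], (nat_lit 96, nat_lit 100, nat_lit 44)⟩
noncomputable def p042_k11 : C1.Kn := ⟨[nat_lit 80, nat_lit 120], [nat_lit 0, nat_lit 0], [(nat_lit 0, nat_lit 0, nat_lit 0), (nat_lit 0, nat_lit 0, nat_lit 0)], (nat_lit 99, nat_lit 100, nat_lit 34)⟩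
noncomputable def p042_k12 : C1.Kn := ⟨[nat_lit 80, nat_lit 140], [nat_lit 0, nat_lit 0], [(nat_lit 0, nat_lit 0, nat_lit 0), (nat_lit 0, nat_lit 0, nat_lit 0)], (nat_lit 100, nat_lit 95, nat_lit 55)⟩
noncomputable def p042_k13 : C1.Kn := ⟨[nat_lit 100, nat_lit 120, nat_lit 160], [nat_lit 0, nat_lit 0, nat_lit 1063], [(nat_lit 0, nat_lit 0, nat_lit 0), (nat_lit 0, nat_lit 0, nat_lit 0), (nat_lit 924, nat_lit 1000, nat_lit 383)], (nat_lit 100, nat_lit 84, nat_lit 54)⟩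
noncomputable def p042_k14 : C1.Kn := ⟨[nat_lit 100, nat_lit 120, nat_lit 160], [nat_lit 0, nat_lit 254, nat_lit 1301], [(nat_lit 0, nat_lit 0, nat_lit 0), (nat_lit 1000, nat_lit 1000, nat_lit 198), (nat_lit 960, nat_lit 1000, nat_lit 392)], (nat_lit 100, nat_lit 89, nat_lit 55)⟩
noncomputable def p042_k15 : C1.Kn := ⟨[nat_lit 80, nat_lit 100, nat_lit 140], [nat_lit 0, nat_lit 0, nat_lit 1022], [(nat_lit 0, nat_lit 0, nat_lit 0), (nat_lit 0, nat_lit 0, nat_lit 0), (nat_lit 1000, nat_lit 1000, nat_lit 399)], (nat_lit 100, nat_lit 99, nat_lit 44)⟩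
noncomputable def p042_k16 : C1.Kn := ⟨[nat_lit 100, nat_lit 120, nat_lit 160], [nat_lit 0, nat_lit 0, nat_lit 1063], [(nat_lit 0, nat_lit 0, nat_lit 0), (nat_lit 0, nat_lit 0, nat_lit 0), (nat_lit 924, nat_lit 1000, nat_lit 383)], (nat_lit 100, nat_lit 90, nat_lit 44)⟩
noncomputable def p042_k17 : C1.Kn := ⟨[nat_lit 100, nat_lit 120, nat_lit 160], [nat_lit 0, nat_lit 383, nat_lit 1421], [(nat_lit 0, nat_lit 0, nat_lit 0), (nat_lit 1000, nat_lit 1000, nat_lit 299), (nat_lit 979, nat_lit 1000, nat_lit 397)], (nat_lit 100, nat_lit 92, nat_lit 55)⟩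
noncomputable def p042_k18 : C1.Kn := ⟨[nat_lit 80, nat_lit 100, nat_lit 120], [nat_lit 0, nat_lit 0, nat_lit 511], [(nat_lit 0, nat_lit 0, nat_lit 0), (nat_lit 0, nat_lit 0, nat_lit 0), (nat_lit 1000, nat_lit 997, nat_lit 383)], (nat_lit 100, nat_lit 100, nat_lit 40)⟩
noncomputable def p042_k19 : C1.Kn := ⟨[nat_lit 80, nat_lit 100, nat_lit 120], [nat_lit 0, nat_lit 132, nat_lit 640], [(nat_lit 0, nat_lit 0, nat_lit 0), (nat_lit 1000, nat_lit 979, nat_lit 103), (nat_lit 1000, nat_lit 979, nat_lit 397)], (nat_lit 98, nat_lit 100, nat_lit 40)⟩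
noncomputable def p042_k20 : C1.Kn := ⟨[nat_lit 80, nat_lit 100, nat_lit 140], [nat_lit 0, nat_lit 265, nat_lit 1269], [(nat_lit 0, nat_lit 0, nat_lit 0), (nat_lit 1000, nat_lit 959, nat_lit 206), (nat_lit 1000, nat_lit 958, nat_lit 392)], (nat_lit 99, nat_lit 100, nat_lit 56)⟩
noncomputable def p042_k21 : C1.Kn := ⟨[nat_lit 80, nat_lit 120], [nat_lit 0, nat_lit 264], [(nat_lit 0, nat_lit 0, nat_lit 0), (nat_lit 1000, nat_lit 979, nat_lit 103)], (nat_lit 97, nat_lit 100, nat_lit 28)⟩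
noncomputable def p042_k22 : C1.Kn := ⟨[nat_lit 80, nat_lit 120], [nat_lit 0, nat_lit 528], [(nat_lit 0, nat_lit 0, nat_lit 0), (nat_lit 1000, nat_lit 959, nat_lit 206)], (nat_lit 97, nat_lit 100, nat_lit 48)⟩
noncomputable def p042_k23 : C1.Kn := ⟨[nat_lit 80, nat_lit 120], [nat_lit 0, nat_lit 796], [(nat_lit 0, nat_lit 0, nat_lit 0), (nat_lit 1000, nat_lit 938, nat_lit 310)], (nat_lit 95, nat_lit 100, nat_lit 48)⟩
noncomputable def p042_k24 : C1.Kn := ⟨[nat_lit 80, nat_lit 100], [nat_lit 0, nat_lit 0], [(nat_lit 0, nat_lit 0, nat_lit 0), (nat_lit 0, nat_lit 0, nat_lit 0)], (nat_lit 98, nat_lit 100, nat_lit 20)⟩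
noncomputable def p042_k25 : C1.Kn := ⟨[nat_lit 80, nat_lit 120], [nat_lit 0, nat_lit 0], [(nat_lit 0, nat_lit 0, nat_lit 0), (nat_lit 0, nat_lit 0, nat_lit 0)], (nat_lit 100, nat_lit 100, nat_lit 40)⟩
noncomputable def p042_k26 : C1.Kn := ⟨[nat_lit 80, nat_lit 100, nat_lit 120], [nat_lit 0, nat_lit 265, nat_lit 768], [(nat_lit 0, nat_lit 0, nat_lit 0), (nat_lit 1000, nat_lit 959, nat_lit 206), (nat_lit 1000, nat_lit 958, nat_lit 392)], (nat_lit 96, nat_lit 100, nat_lit 44)⟩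
noncomputable def p042_k27 : C1.Kn := ⟨[nat_lit 80, nat_lit 100, nat_lit 120], [nat_lit 0, nat_lit 265, nat_lit 768], [(nat_lit 0, nat_lit 0, nat_lit 0), (nat_lit 1000, nat_lit 959, nat_lit 206), (nat_lit 1000, nat_lit 958, nat_lit 392)], (nat_lit 96, nat_lit 100, nat_lit 39)⟩
noncomputable def p042_k28 : C1.Kn := ⟨[nat_lit 100, nat_lit 120, nat_lit 140], [nat_lit 0, nat_lit 254, nat_lit 778], [(nat_lit 0, nat_lit 0, nat_lit 0), (nat_lit 1000, nat_lit 1000, nat_lit 198), (nat_lit 960, nat_lit 1000, nat_lit 392)], (nat_lit 100, nat_lit 96, nat_lit 39)⟩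
noncomputable def p042_k29 : C1.Kn := ⟨[nat_lit 100, nat_lit 120, nat_lit 140], [nat_lit 0, nat_lit 0, nat_lit 533], [(nat_lit 0, nat_lit 0, nat_lit 0), (nat_lit 0, nat_lit 0, nat_lit 0), (nat_lit 924, nat_lit 1000, nat_lit 383)], (nat_lit 100, nat_lit 92, nat_lit 39)⟩
noncomputable def p042_k30 : C1.Kn := ⟨[nat_lit 80, nat_lit 100], [nat_lit 0, nat_lit 132], [(nat_lit 0, nat_lit 0, nat_lit 0), (nat_lit 1000, nat_lit 979, nat_lit 103)], (nat_lit 97, nat_lit 100, nat_lit 20)⟩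
noncomputable def p042_k31 : C1.Kn := ⟨[nat_lit 100, nat_lit 120], [nat_lit 0, nat_lit 0], [(nat_lit 0, nat_lit 0, nat_lit 0), (nat_lit 0, nat_lit 0, nat_lit 0)], (nat_lit 100, nat_lit 98, nat_lit 20)⟩
noncomputable def p042_k32 : C1.Kn := ⟨[nat_lit 100, nat_lit 120], [nat_lit 0, nat_lit 254], [(nat_lit 0, nat_lit 0, nat_lit 0), (nat_lit 1000, nat_lit 1000, nat_lit 198)], (nat_lit 100, nat_lit 100, nat_lit 20)⟩
noncomputable def p042_k33 : C1.Kn := ⟨[nat_lit 100, nat_lit 120, nat_lit 140], [nat_lit 0, nat_lit 254, nat_lit 778], [(nat_lit 0, nat_lit 0, nat_lit 0), (nat_lit 1000, nat_lit 1000, nat_lit 198), (nat_lit 960, nat_lit 1000, nat_lit 392)], (nat_lit 100, nat_lit 94, nat_lit 44)⟩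
noncomputable def p042_k34 : C1.Kn := ⟨[nat_lit 100, nat_lit 160], [nat_lit 0, nat_lit 0], [(nat_lit 0, nat_lit 0, nat_lit 0), (nat_lit 0, nat_lit 0, nat_lit 0)], (nat_lit 100, nat_lit 90, nat_lit 44)⟩
noncomputable def p042_k35 : C1.Kn := ⟨[nat_lit 80, nat_lit 120], [nat_lit 0, nat_lit 796], [(nat_lit 0, nat_lit 0, nat_lit 0), (nat_lit 1000, nat_lit 938, nat_lit 310)], (nat_lit 94, nat_lit 100, nat_lit 44)⟩
noncomputable def p042_k36 : C1.Kn := ⟨[nat_lit 100, nat_lit 140], [nat_lit 0, nat_lit 508], [(nat_lit 0, nat_lit 0, nat_lit 0), (nat_lit 1000, nat_lit 1000, nat_lit 198)], (nat_lit 100, nat_lit 97, nat_lit 34)⟩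
noncomputable def p042_k37 : C1.Kn := ⟨[nat_lit 100, nat_lit 120], [nat_lit 0, nat_lit 254], [(nat_lit 0, nat_lit 0, nat_lit 0), (nat_lit 1000, nat_lit 1000, nat_lit 198)], (nat_lit 100, nat_lit 99, nat_lit 28)⟩
noncomputable def p042_k38 : C1.Kn := ⟨[nat_lit 100, nat_lit 140], [nat_lit 0, nat_lit 508], [(nat_lit 0, nat_lit 0, nat_lit 0), (nat_lit 1000, nat_lit 1000, nat_lit 198)], (nat_lit 100, nat_lit 94, nat_lit 44)⟩
noncomputable def p042_k39 : C1.Kn := ⟨[nat_lit 100, nat_lit 140], [nat_lit 0, nat_lit 0], [(nat_lit 0, nat_lit 0, nat_lit 0), (nat_lit 0, nat_lit 0, nat_lit 0)], (nat_lit 100, nat_lit 92, nat_lit 39)⟩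
noncomputable def p042_k40 : C1.Kn := ⟨[nat_lit 80, nat_lit 120], [nat_lit 0, nat_lit 264], [(nat_lit 0, nat_lit 0, nat_lit 0), (nat_lit 1000, nat_lit 979, nat_lit 103)], (nat_lit 98, nat_lit 100, nat_lit 40)⟩
noncomputable def p042_k41 : C1.Kn := ⟨[nat_lit 80, nat_lit 100, nat_lit 140], [nat_lit 0, nat_lit 399, nat_lit 1395], [(nat_lit 0, nat_lit 0, nat_lit 0), (nat_lit 1000, nat_lit 938, nat_lit 310), (nat_lit 1000, nat_lit 938, nat_lit 389)], (nat_lit 96, nat_lit 100, nat_lit 56)⟩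
noncomputable def p042_l0 : Lf2 := ⟨nat_lit 0, nat_lit 8, [nat_lit 50, nat_lit 5, nat_lit 5, nat_lit 20], true, nat_lit 280, nat_lit 320, nat_lit 0, nat_lit 248, ⟨nat_lit 0, nat_lit 0, nat_lit 1000, nat_lit 5, nat_lit 64, nat_lit 1000, nat_lit 219, nat_lit 1000, nat_lit 2869, nat_lit 206, nat_lit 38400, nat_lit 263, nat_lit 49433647, nat_lit 0, nat_lit 0, nat_lit 3540612, false, false⟩,
 nat_lit 0, nat_lit 0, nat_lit 0, nat_lit 13139, nat_lit 3630, nat_lit 0, nat_lit 0, nat_lit 0, nat_lit 0, nat_lit 0, nat_lit 0, nat_lit 0, nat_lit 0, nat_lit 0, nat_lit 147, nat_lit 1000000, nat_lit 0, nat_lit 0, [(nat_lit 6, [(nat_lit 6, nat_lit 1000)]), (nat_lit 9, [(nat_lit 6, nat_lit 1000)])],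
 ⟨p042_k0, nat_lit 0, nat_lit 0, nat_lit 177, nat_lit 0, nat_lit 0, [nat_lit 3449600001, nat_lit 3042400001, nat_lit 177599999], [], [nat_lit 18358378069, nat_lit 20263542320, nat_lit 17421597102, nat_lit 19185377102, nat_lit 20731046329, nat_lit 22964321952, nat_lit 19481529042, nat_lit 21314264040], nat_lit 0, nat_lit 0, nat_lit 0, nat_lit 0, nat_lit 0, nat_lit 0, [], [nat_lit 11, nat_lit 40, nat_lit 40, nat_lit 80, nat_lit 1, nat_lit 317, nat_lit 100, nat_lit 9]⟩, C1.Rw.none,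
 ⟨nat_lit 5477, nat_lit 6325, ⟨.ofNat (nat_lit 96904), .ofNat (nat_lit 170942), .ofNat (nat_lit 118272), .ofNat (nat_lit 192309), .ofNat (nat_lit 132827), .ofNat (nat_lit 200266), .ofNat (nat_lit 154184), .ofNat (nat_lit 221623)⟩, ⟨.ofNat (nat_lit 493584), .ofNat (nat_lit 575816), .ofNat (nat_lit 536314), .ofNat (nat_lit 618504), .ofNat (nat_lit 479008), .ofNat (nat_lit 553909), .ofNat (nat_lit 521717), .ofNat (nat_lit 596575)⟩⟩, [⟨nat_lit 0, nat_lit 100, nat_lit 96, nat_lit 35, nat_lit 246523990⟩, ⟨nat_lit 4, nat_lit 92, nat_lit 100, nat_lit 75, nat_lit 471649335⟩]⟩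
noncomputable def p042_l1 : Lf2 := ⟨nat_lit 0, nat_lit 2, [nat_lit 10, nat_lit 5, nat_lit 5, nat_lit 20], true, nat_lit 280, nat_lit 300, nat_lit 0, nat_lit 248, ⟨nat_lit 0, nat_lit 0, nat_lit 1000, nat_lit 5, nat_lit 72, nat_lit 1000, nat_lit 207, nat_lit 1000, nat_lit 7700, nat_lit 230, nat_lit 48600, nat_lit 269, nat_lit 50248355, nat_lit 0, nat_lit 0, nat_lit 3541520, false, false⟩,
 nat_lit 0, nat_lit 0, nat_lit 0, nat_lit 12771, nat_lit 3900, nat_lit 0, nat_lit 0, nat_lit 0, nat_lit 0, nat_lit 0, nat_lit 0, nat_lit 0, nat_lit 0, nat_lit 0, nat_lit 80, nat_lit 1000000, nat_lit 0, nat_lit 0, [(nat_lit 6, [(nat_lit 6, nat_lit 1000)]), (nat_lit 9, [(nat_lit 6, nat_lit 1000)])],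
 ⟨p042_k1, nat_lit 0, nat_lit 0, nat_lit 137, nat_lit 0, nat_lit 0, [nat_lit 2377600001, nat_lit 1408000000, nat_lit 211200000], [], [nat_lit 17804919362, nat_lit 20420552001, nat_lit 16880931202, nat_lit 18838769600, nat_lit 19358465641, nat_lit 21815251961, nat_lit 17996875202, nat_lit 20222385400], nat_lit 0, nat_lit 0, nat_lit 0, nat_lit 0, nat_lit 0, nat_lit 0, [], [nat_lit 9, nat_lit 40, nat_lit 40, nat_lit 80, nat_lit 2, nat_lit 215, nat_lit 10, nat_lit 6]⟩, C1.Rw.none,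
 ⟨nat_lit 5477, nat_lit 6325, ⟨.ofNat (nat_lit 126498), .ofNat (nat_lit 192309), .ofNat (nat_lit 137182), .ofNat (nat_lit 202993), .ofNat (nat_lit 161677), .ofNat (nat_lit 221623), .ofNat (nat_lit 172356), .ofNat (nat_lit 232302)⟩, ⟨.ofNat (nat_lit 493584), .ofNat (nat_lit 534716), .ofNat (nat_lit 514952), .ofNat (nat_lit 556065), .ofNat (nat_lit 479008), .ofNat (nat_lit 516475), .ofNat (nat_lit 500365), .ofNat (nat_lit 537813)⟩⟩, [⟨nat_lit 0, nat_lit 100, nat_lit 96, nat_lit 42, nat_lit 199156421⟩, ⟨nat_lit 0, nat_lit 100, nat_lit 98, nat_lit 30, nat_lit 65983076⟩, ⟨nat_lit 4, nat_lit 96, nat_lit 100, nat_lit 69, nat_lit 538420851⟩]⟩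
noncomputable def p042_l2 : Lf2 := ⟨nat_lit 0, nat_lit 2, [nat_lit 10, nat_lit 5, nat_lit 5, nat_lit 20], true, nat_lit 280, nat_lit 300, nat_lit 0, nat_lit 248, ⟨nat_lit 0, nat_lit 0, nat_lit 1000, nat_lit 5, nat_lit 72, nat_lit 1000, nat_lit 215, nat_lit 1000, nat_lit 4824, nat_lit 221, nat_lit 48600, nat_lit 269, nat_lit 49394099, nat_lit 0, nat_lit 0, nat_lit 3621030, false, false⟩,
 nat_lit 0, nat_lit 0, nat_lit 0, nat_lit 11879, nat_lit 3510, nat_lit 0, nat_lit 0, nat_lit 0, nat_lit 0, nat_lit 0, nat_lit 0, nat_lit 0, nat_lit 0, nat_lit 0, nat_lit 80, nat_lit 1000000, nat_lit 0, nat_lit 0, [(nat_lit 6, [(nat_lit 6, nat_lit 1000)]), (nat_lit 9, [(nat_lit 6, nat_lit 1000)])],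
 ⟨p042_k1, nat_lit 0, nat_lit 0, nat_lit 137, nat_lit 0, nat_lit 0, [nat_lit 2377600001, nat_lit 1408000000, nat_lit 211200000], [], [nat_lit 18297304346, nat_lit 20169988046, nat_lit 17511253882, nat_lit 19356740702, nat_lit 19382286455, nat_lit 21261596105, nat_lit 18578326982, nat_lit 20330722792], nat_lit 0, nat_lit 0, nat_lit 0, nat_lit 0, nat_lit 0, nat_lit 0, [], [nat_lit 9, nat_lit 40, nat_lit 40, nat_lit 80, nat_lit 2, nat_lit 215, nat_lit 10, nat_lit 6]⟩, C1.Rw.none,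
 ⟨nat_lit 5477, nat_lit 6325, ⟨.ofNat (nat_lit 126498), .ofNat (nat_lit 192309), .ofNat (nat_lit 137182), .ofNat (nat_lit 202993), .ofNat (nat_lit 161677), .ofNat (nat_lit 221623), .ofNat (nat_lit 172356), .ofNat (nat_lit 232302)⟩, ⟨.ofNat (nat_lit 514952), .ofNat (nat_lit 556065), .ofNat (nat_lit 536314), .ofNat (nat_lit 577409), .ofNat (nat_lit 500365), .ofNat (nat_lit 537813), .ofNat (nat_lit 521717), .ofNat (nat_lit 559146)⟩⟩, [⟨nat_lit 0, nat_lit 100, nat_lit 96, nat_lit 42, nat_lit 246735850⟩, ⟨nat_lit 4, nat_lit 89, nat_lit 100, nat_lit 80, nat_lit 313267758⟩]⟩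
noncomputable def p042_l3 : Lf2 := ⟨nat_lit 0, nat_lit 2, [nat_lit 10, nat_lit 5, nat_lit 5, nat_lit 20], true, nat_lit 300, nat_lit 320, nat_lit 0, nat_lit 224, ⟨nat_lit 0, nat_lit 237, nat_lit 763, nat_lit 5, nat_lit 72, nat_lit 1000, nat_lit 227, nat_lit 763, nat_lit 2869, nat_lit 206, nat_lit 48600, nat_lit 269, nat_lit 48248104, nat_lit 2727572, nat_lit 16024324, nat_lit 3719043, false, false⟩,
 nat_lit 0, nat_lit 0, nat_lit 0, nat_lit 28006, nat_lit 4058, nat_lit 0, nat_lit 147, nat_lit 0, nat_lit 0, nat_lit 0, nat_lit 0, nat_lit 0, nat_lit 0, nat_lit 0, nat_lit 30, nat_lit 857800, nat_lit 0, nat_lit 0, [(nat_lit 6, [(nat_lit 1, nat_lit 237), (nat_lit 6, nat_lit 763)]), (nat_lit 9, [(nat_lit 1, nat_lit 237), (nat_lit 6, nat_lit 763)])],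
 ⟨p042_k1, nat_lit 0, nat_lit 0, nat_lit 145, nat_lit 0, nat_lit 0, [nat_lit 1958013441, nat_lit 1171708801, nat_lit 193735199], [], [nat_lit 19659631573, nat_lit 22039553564, nat_lit 18647416152, nat_lit 20367219164, nat_lit 21126278410, nat_lit 23460978655, nat_lit 19705757802, nat_lit 21776721464], nat_lit 0, nat_lit 0, nat_lit 0, nat_lit 0, nat_lit 0, nat_lit 0, [], [nat_lit 9, nat_lit 40, nat_lit 40, nat_lit 80, nat_lit 2, nat_lit 215, nat_lit 10, nat_lit 6]⟩, C1.Rw.none,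
 ⟨nat_lit 5477, nat_lit 6325, ⟨.ofNat (nat_lit 126498), .ofNat (nat_lit 192309), .ofNat (nat_lit 137182), .ofNat (nat_lit 202993), .ofNat (nat_lit 161677), .ofNat (nat_lit 221623), .ofNat (nat_lit 172356), .ofNat (nat_lit 232302)⟩, ⟨.ofNat (nat_lit 534716), .ofNat (nat_lit 575816), .ofNat (nat_lit 577409), .ofNat (nat_lit 618504), .ofNat (nat_lit 516475), .ofNat (nat_lit 553909), .ofNat (nat_lit 559146), .ofNat (nat_lit 596575)⟩⟩, [⟨nat_lit 0, nat_lit 100, nat_lit 93, nat_lit 54, nat_lit 372805588⟩, ⟨nat_lit 4, nat_lit 92, nat_lit 100, nat_lit 75, nat_lit 1216934538⟩]⟩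
noncomputable def p042_l4 : Lf2 := ⟨nat_lit 0, nat_lit 2, [nat_lit 10, nat_lit 5, nat_lit 5, nat_lit 20], false, nat_lit 280, nat_lit 312, nat_lit 0, nat_lit 208, ⟨nat_lit 1000, nat_lit 0, nat_lit 0, nat_lit 0, nat_lit 0, nat_lit 0, nat_lit 0, nat_lit 0, nat_lit 0, nat_lit 0, nat_lit 0, nat_lit 0, nat_lit 0, nat_lit 0, nat_lit 0, nat_lit 0, false, false⟩,
 nat_lit 0, nat_lit 0, nat_lit 23992, nat_lit 3254, nat_lit 6717, nat_lit 12083, nat_lit 0, nat_lit 0, nat_lit 0, nat_lit 1329, nat_lit 0, nat_lit 0, nat_lit 0, nat_lit 0, nat_lit 0, nat_lit 0, nat_lit 0, nat_lit 0, [],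
 ⟨p042_k2, nat_lit 0, nat_lit 0, nat_lit 0, nat_lit 0, nat_lit 0, [nat_lit 4688000000, nat_lit 6250000000, nat_lit 7089500000], [], [nat_lit 19582602754, nat_lit 20008964345, nat_lit 18855182848, nat_lit 19226462515, nat_lit 23188616708, nat_lit 23573639278, nat_lit 22270226557, nat_lit 22655727387], nat_lit 0, nat_lit 0, nat_lit 0, nat_lit 0, nat_lit 0, nat_lit 0, [], [nat_lit 176, nat_lit 40, nat_lit 20, nat_lit 40]⟩, ⟨p042_k3, nat_lit 0, nat_lit 0, nat_lit 273, nat_lit 0, nat_lit 57782, [nat_lit 6250000000, nat_lit 7968000000], [], [nat_lit 23696256546, nat_lit 24861848715, nat_lit 22280604969, nat_lit 23447238553, nat_lit 18110028858, nat_lit 17820619390, nat_lit 18040072048, nat_lit 16699390093], nat_lit 1271250, nat_lit 1271250, nat_lit 65850, nat_lit 111251, nat_lit 0, nat_lit 1469000, [nat_lit 1412500, nat_lit 1271250], [nat_lit 26, nat_lit 40, nat_lit 40, nat_lit 80, nat_lit 2, nat_lit 345, nat_lit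 125, nat_lit 12]⟩,
 zbF0, [⟨nat_lit 0, nat_lit 100, nat_lit 99, nat_lit 39, nat_lit 1334827152⟩, ⟨nat_lit 4, nat_lit 89, nat_lit 100, nat_lit 68, nat_lit 1199106461⟩]⟩
noncomputable def p042_l5 : Lf2 := ⟨nat_lit 0, nat_lit 2, [nat_lit 10, nat_lit 5, nat_lit 5, nat_lit 20], false, nat_lit 280, nat_lit 308, nat_lit 0, nat_lit 208, ⟨nat_lit 1000, nat_lit 0, nat_lit 0, nat_lit 0, nat_lit 0, nat_lit 0, nat_lit 0, nat_lit 0, nat_lit 0, nat_lit 0, nat_lit 0, nat_lit 0, nat_lit 0, nat_lit 0, nat_lit 0, nat_lit 0, false, false⟩,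
 nat_lit 0, nat_lit 0, nat_lit 24021, nat_lit 4900, nat_lit 8333, nat_lit 12098, nat_lit 3984, nat_lit 0, nat_lit 0, nat_lit 1317, nat_lit 0, nat_lit 0, nat_lit 0, nat_lit 0, nat_lit 0, nat_lit 0, nat_lit 0, nat_lit 0, [],
 ⟨p042_k4, nat_lit 0, nat_lit 0, nat_lit 0, nat_lit 0, nat_lit 0, [nat_lit 4688000000, nat_lit 6250000000, nat_lit 7968000000], [], [nat_lit 22081284036, nat_lit 22523279428, nat_lit 21332419590, nat_lit 21715029278, nat_lit 25391272704, nat_lit 25833267231, nat_lit 24430852177, nat_lit 24872606921], nat_lit 0, nat_lit 0, nat_lit 0, nat_lit 0, nat_lit 0, nat_lit 0, [], [nat_lit 9, nat_lit 40, nat_lit 40, nat_lit 80]⟩, ⟨p042_k3, nat_lit 0, nat_lit 0, nat_lit 275, nat_lit 0, nat_lit 85771, [nat_lit 6250000000, nat_lit 7968000000], [], [nat_lit 23716919610, nat_lit 24883968012, nat_lit 22299376989, nat_lit 23467011793, nat_lit 18091414628, nat_lit 17827542906, nat_lit 18021145527, nat_lit 16704782551],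 nat_lit 1271250, nat_lit 1271250, nat_lit 65850, nat_lit 111251, nat_lit 0, nat_lit 1469000, [nat_lit 1412500, nat_lit 1271250], [nat_lit 26, nat_lit 40, nat_lit 40, nat_lit 80, nat_lit 2, nat_lit 345, nat_lit 125, nat_lit 12]⟩,
 zbF0, [⟨nat_lit 0, nat_lit 100, nat_lit 99, nat_lit 41, nat_lit 1513762672⟩, ⟨nat_lit 4, nat_lit 91, nat_lit 100, nat_lit 68, nat_lit 1238082460⟩]⟩
noncomputable def p042_l6 : Lf2 := ⟨nat_lit 0, nat_lit 2, [nat_lit 10, nat_lit 5, nat_lit 5, nat_lit 20], true, nat_lit 280, nat_lit 304, nat_lit 0, nat_lit 208, ⟨nat_lit 0, nat_lit 1000, nat_lit 0, nat_lit 5, nat_lit 70, nat_lit 1000, nat_lit 209, nat_lit 0, nat_lit 0, nat_lit 0, nat_lit 0, nat_lit 0, nat_lit 50112481, nat_lit 2644194, nat_lit 14243325, nat_lit 3535985, false, false⟩,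
 nat_lit 0, nat_lit 0, nat_lit 0, nat_lit 9526, nat_lit 4796, nat_lit 0, nat_lit 0, nat_lit 0, nat_lit 0, nat_lit 0, nat_lit 0, nat_lit 0, nat_lit 0, nat_lit 0, nat_lit 0, nat_lit 400000, nat_lit 0, nat_lit 0, [(nat_lit 6, [(nat_lit 1, nat_lit 1000)])],
 ⟨p042_k5, nat_lit 0, nat_lit 0, nat_lit 0, nat_lit 0, nat_lit 0, [nat_lit 2692266667, nat_lit 3030400001, nat_lit 3155600000], [], [nat_lit 18669695859, nat_lit 19294125699, nat_lit 18422955883, nat_lit 19046985675, nat_lit 20564108158, nat_lit 21231739446, nat_lit 20249266827, nat_lit 20915893693], nat_lit 0, nat_lit 0, nat_lit 0, nat_lit 0, nat_lit 0, nat_lit 0, [], [nat_lit 176, nat_lit 40, nat_lit 20, nat_lit 40]⟩, C1.Rw.none,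
 ⟨nat_lit 5916, nat_lit 6124, ⟨.ofNat (nat_lit 162269), .ofNat (nat_lit 170308), .ofNat (nat_lit 172944), .ofNat (nat_lit 180982), .ofNat (nat_lit 170753), .ofNat (nat_lit 178606), .ofNat (nat_lit 181423), .ofNat (nat_lit 189276)⟩, ⟨.ofNat (nat_lit 489975), .ofNat (nat_lit 538203), .ofNat (nat_lit 511323), .ofNat (nat_lit 559550), .ofNat (nat_lit 486351), .ofNat (nat_lit 533471), .ofNat (nat_lit 507691), .ofNat (nat_lit 554809)⟩⟩, [⟨nat_lit 0, nat_lit 100, nat_lit 98, nat_lit 45, nat_lit 1443326491⟩, ⟨nat_lit 4, nat_lit 94, nat_lit 100, nat_lit 69, nat_lit 438259028⟩]⟩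
noncomputable def p042_l7 : Lf2 := ⟨nat_lit 0, nat_lit 2, [nat_lit 10, nat_lit 5, nat_lit 5, nat_lit 20], false, nat_lit 280, nat_lit 312, nat_lit 0, nat_lit 160, ⟨nat_lit 1000, nat_lit 0, nat_lit 0, nat_lit 0, nat_lit 0, nat_lit 0, nat_lit 0, nat_lit 0, nat_lit 0, nat_lit 0, nat_lit 0, nat_lit 0, nat_lit 0, nat_lit 0, nat_lit 0, nat_lit 0, false, false⟩,
 nat_lit 0, nat_lit 0, nat_lit 20393, nat_lit 439, nat_lit 11323, nat_lit 10270, nat_lit 0, nat_lit 0, nat_lit 0, nat_lit 3562, nat_lit 0, nat_lit 0, nat_lit 0, nat_lit 0, nat_lit 0, nat_lit 0, nat_lit 0, nat_lit 0, [],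
 ⟨p042_k6, nat_lit 0, nat_lit 0, nat_lit 0, nat_lit 0, nat_lit 0, [nat_lit 4688000000, nat_lit 7968000000], [], [nat_lit 24863915298, nat_lit 26510358910, nat_lit 22223692692, nat_lit 23860487155, nat_lit 28168638678, nat_lit 29814774288, nat_lit 25501441432, nat_lit 26938383443], nat_lit 0, nat_lit 0, nat_lit 0, nat_lit 0, nat_lit 0, nat_lit 0, [], [nat_lit 39, nat_lit 40, nat_lit 40, nat_lit 80]⟩, ⟨p042_k3, nat_lit 0, nat_lit 0, nat_lit 276, nat_lit 0, nat_lit 144476, [nat_lit 6250000000, nat_lit 7968000000], [], [nat_lit 19627926330, nat_lit 20432233490, nat_lit 17301670490, nat_lit 18102624450, nat_lit 16201848590, nat_lit 14032432750, nat_lit 16266171830, nat_lit 13631619000], nat_lit 1271250, nat_lit 1271250, nat_lit 111251, nat_lit 230001, nat_lit 0, nat_lit 1100001, [nat_lit 1412500, nat_lit 1271250], [nat_lit 26, nat_lit 40, nat_lit 40, nat_lit 80, nat_lit 2, nat_lit 345, nat_lit 125, nat_lit 12]⟩,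
 zbF0, [⟨nat_lit 4, nat_lit 92, nat_lit 100, nat_lit 68, nat_lit 1129663664⟩]⟩
noncomputable def p042_l8 : Lf2 := ⟨nat_lit 0, nat_lit 2, [nat_lit 10, nat_lit 5, nat_lit 5, nat_lit 20], false, nat_lit 280, nat_lit 312, nat_lit 160, nat_lit 248, ⟨nat_lit 292, nat_lit 0, nat_lit 708, nat_lit 5, nat_lit 78, nat_lit 708, nat_lit 213, nat_lit 708, nat_lit 586, nat_lit 219, nat_lit 58017, nat_lit 274, nat_lit 49287774, nat_lit 0, nat_lit 0, nat_lit 3684995, false, false⟩,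
 nat_lit 0, nat_lit 0, nat_lit 9516, nat_lit 0, nat_lit 5079, nat_lit 4792, nat_lit 694, nat_lit 0, nat_lit 0, nat_lit 723, nat_lit 0, nat_lit 0, nat_lit 0, nat_lit 0, nat_lit 0, nat_lit 708000, nat_lit 0, nat_lit 0, [(nat_lit 6, [(nat_lit 6, nat_lit 708)])],
 ⟨p042_k1, nat_lit 0, nat_lit 0, nat_lit 0, nat_lit 0, nat_lit 0, [nat_lit 2060659201, nat_lit 1689064000, nat_lit 1105437600], [], [nat_lit 18500855702, nat_lit 19594783102, nat_lit 17661570831, nat_lit 18652841949, nat_lit 20966667536, nat_lit 22293868795, nat_lit 19610059691, nat_lit 20922745419], nat_lit 0, nat_lit 0, nat_lit 0, nat_lit 0, nat_lit 0, nat_lit 0, [], [nat_lit 9, nat_lit 40, nat_lit 40, nat_lit 80]⟩, ⟨p042_k3, nat_lit 0, nat_lit 0, nat_lit 196, nat_lit 0, nat_lit 144476, [nat_lit 1825000000, nat_lit 2326656000], [], [nat_lit 2285975221, nat_lit 2646370520, nat_lit 1952803208, nat_lit 1500616959, nat_lit 6656215401, nat_lit 5912516386,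 nat_lit 6681333740, nat_lit 5490777632], nat_lit 1271250, nat_lit 1271250, nat_lit 111251, nat_lit 230001, nat_lit 1100001, nat_lit 1853500, [nat_lit 1412500, nat_lit 1271250], [nat_lit 26, nat_lit 40, nat_lit 40, nat_lit 80, nat_lit 2, nat_lit 373, nat_lit 150, nat_lit 12]⟩,
 ⟨nat_lit 5916, nat_lit 6325, ⟨.ofNat (nat_lit 161861), .ofNat (nat_lit 202993), .ofNat (nat_lit 172545), .ofNat (nat_lit 213677), .ofNat (nat_lit 178606), .ofNat (nat_lit 217873), .ofNat (nat_lit 189276), .ofNat (nat_lit 228543)⟩, ⟨.ofNat (nat_lit 493584), .ofNat (nat_lit 559386), .ofNat (nat_lit 514952), .ofNat (nat_lit 580747), .ofNat (nat_lit 486351), .ofNat (nat_lit 549169), .ofNat (nat_lit 507691), .ofNat (nat_lit 570502)⟩⟩, [⟨nat_lit 0, nat_lit 100, nat_lit 98, nat_lit 42, nat_lit 26103357⟩, ⟨nat_lit 16, nat_lit 100, nat_lit 92, nat_lit 68, nat_lit 339442358⟩, ⟨nat_lit 11, nat_lit 100, nat_lit 88, nat_lit 50, nat_lit 559322118⟩]⟩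
noncomputable def p042_l9 : Lf2 := ⟨nat_lit 0, nat_lit 2, [nat_lit 10, nat_lit 5, nat_lit 5, nat_lit 20], true, nat_lit 280, nat_lit 296, nat_lit 0, nat_lit 248, ⟨nat_lit 0, nat_lit 0, nat_lit 1000, nat_lit 5, nat_lit 84, nat_lit 1000, nat_lit 203, nat_lit 1000, nat_lit 11818, nat_lit 238, nat_lit 66150, nat_lit 278, nat_lit 49890385, nat_lit 0, nat_lit 0, nat_lit 3681611, false, false⟩,
 nat_lit 0, nat_lit 0, nat_lit 0, nat_lit 5790, nat_lit 3453, nat_lit 0, nat_lit 0, nat_lit 0, nat_lit 0, nat_lit 0, nat_lit 0, nat_lit 0, nat_lit 0, nat_lit 0, nat_lit 37, nat_lit 1000000, nat_lit 0, nat_lit 0, [(nat_lit 9, [(nat_lit 6, nat_lit 1000)])],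
 ⟨p042_k7, nat_lit 0, nat_lit 0, nat_lit 0, nat_lit 0, nat_lit 0, [nat_lit 1689600001, nat_lit 0], [], [nat_lit 18268014497, nat_lit 19353356192, nat_lit 17642519141, nat_lit 18711819939, nat_lit 19225855065, nat_lit 20405408007, nat_lit 18592379503, nat_lit 19615667439], nat_lit 0, nat_lit 0, nat_lit 0, nat_lit 0, nat_lit 0, nat_lit 0, [], [nat_lit 31, nat_lit 40, nat_lit 40, nat_lit 80]⟩, C1.Rw.none,
 ⟨nat_lit 5477, nat_lit 5917, ⟨.ofNat (nat_lit 178606), .ofNat (nat_lit 217873), .ofNat (nat_lit 189276), .ofNat (nat_lit 228543), .ofNat (nat_lit 194835), .ofNat (nat_lit 232302), .ofNat (nat_lit 205514), .ofNat (nat_lit 242980)⟩, ⟨.ofNat (nat_lit 486351), .ofNat (nat_lit 517765), .ofNat (nat_lit 507691), .ofNat (nat_lit 539104), .ofNat (nat_lit 479008), .ofNat (nat_lit 508982), .ofNat (nat_lit 500365), .ofNat (nat_lit 530339)⟩⟩, [⟨nat_lit 0, nat_lit 100, nat_lit 95, nat_lit 52, nat_lit 279363243⟩, ⟨nat_lit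 16, nat_lit 100, nat_lit 92, nat_lit 75, nat_lit 385539503⟩]⟩
noncomputable def p042_l10 : Lf2 := ⟨nat_lit 1, nat_lit 2, [nat_lit 10, nat_lit 5, nat_lit 5, nat_lit 20], false, nat_lit 280, nat_lit 320, nat_lit 0, nat_lit 248, zbN0,
 nat_lit 0, nat_lit 0, nat_lit 0, nat_lit 0, nat_lit 0, nat_lit 0, nat_lit 0, nat_lit 0, nat_lit 0, nat_lit 0, nat_lit 0, nat_lit 0, nat_lit 0, nat_lit 0, nat_lit 0, nat_lit 0, nat_lit 0, nat_lit 0, [],
 C1.Rw.none, C1.Rw.none,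
 zbF0, []⟩
noncomputable def p042_l11 : Lf2 := ⟨nat_lit 0, nat_lit 2, [nat_lit 10, nat_lit 5, nat_lit 5, nat_lit 20], false, nat_lit 280, nat_lit 320, nat_lit 0, nat_lit 248, ⟨nat_lit 1000, nat_lit 0, nat_lit 0, nat_lit 0, nat_lit 0, nat_lit 0, nat_lit 0, nat_lit 0, nat_lit 0, nat_lit 0, nat_lit 0, nat_lit 0, nat_lit 0, nat_lit 0, nat_lit 0, nat_lit 0, false, false⟩,
 nat_lit 0, nat_lit 0, nat_lit 22575, nat_lit 47084, nat_lit 7129, nat_lit 11369, nat_lit 6415, nat_lit 0, nat_lit 0, nat_lit 2816, nat_lit 0, nat_lit 0, nat_lit 0, nat_lit 0, nat_lit 0, nat_lit 0, nat_lit 0, nat_lit 0, [],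
 ⟨p042_k5, nat_lit 0, nat_lit 0, nat_lit 0, nat_lit 0, nat_lit 0, [nat_lit 4688000000, nat_lit 6250000000, nat_lit 7089500000], [], [nat_lit 20637227175, nat_lit 21227073549, nat_lit 19332887767, nat_lit 19917836780, nat_lit 24889087246, nat_lit 25659409473, nat_lit 22795878841, nat_lit 23562239738], nat_lit 0, nat_lit 0, nat_lit 0, nat_lit 0, nat_lit 0, nat_lit 0, [], [nat_lit 176, nat_lit 40, nat_lit 20, nat_lit 40]⟩, ⟨p042_k3, nat_lit 0, nat_lit 0, nat_lit 268, nat_lit 0, nat_lit 19902, [nat_lit 6250000000, nat_lit 7968000000], [], [nat_lit 21338588059, nat_lit 22848554821, nat_lit 17135446128, nat_lit 18098167432, nat_lit 21447689460, nat_lit 18692799736, nat_lit 21649844116, nat_lit 18825254720], nat_lit 1271250, nat_lit 1271250, nat_lit 88400, nat_lit 230001, nat_lit 0, nat_lit 1751500, [nat_lit 1412500, nat_lit 1271250], [nat_lit 26, nat_lit 40, nat_lit 40, nat_lit 80, nat_lit 2, nat_lit 373, nat_lit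 150, nat_lit 13]⟩,
 zbF0, [⟨nat_lit 0, nat_lit 100, nat_lit 97, nat_lit 49, nat_lit 864011885⟩, ⟨nat_lit 16, nat_lit 100, nat_lit 87, nat_lit 79, nat_lit 900361414⟩, ⟨nat_lit 23, nat_lit 87, nat_lit 100, nat_lit 51, nat_lit 189566625⟩]⟩
noncomputable def p042_l12 : Lf2 := ⟨nat_lit 0, nat_lit 2, [nat_lit 10, nat_lit 5, nat_lit 5, nat_lit 20], true, nat_lit 280, nat_lit 320, nat_lit 0, nat_lit 248, ⟨nat_lit 0, nat_lit 194, nat_lit 806, nat_lit 5, nat_lit 84, nat_lit 1000, nat_lit 221, nat_lit 806, nat_lit 4618, nat_lit 210, nat_lit 66150, nat_lit 278, nat_lit 48153138, nat_lit 3450033, nat_lit 15396829, nat_lit 3840404, false, false⟩,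
 nat_lit 0, nat_lit 0, nat_lit 0, nat_lit 11649, nat_lit 3098, nat_lit 0, nat_lit 46, nat_lit 0, nat_lit 0, nat_lit 0, nat_lit 0, nat_lit 0, nat_lit 0, nat_lit 0, nat_lit 8, nat_lit 1000000, nat_lit 0, nat_lit 0, [(nat_lit 9, [(nat_lit 2, nat_lit 194), (nat_lit 6, nat_lit 806)])],
 ⟨p042_k8, nat_lit 0, nat_lit 0, nat_lit 0, nat_lit 0, nat_lit 0, [nat_lit 947040801, nat_lit 1348747200, nat_lit 582425600, nat_lit 15424800], [], [nat_lit 17956286724, nat_lit 18961801856, nat_lit 17612393629, nat_lit 18607125232, nat_lit 20289041668, nat_lit 21281009280, nat_lit 19916881880, nat_lit 20809962568], nat_lit 0, nat_lit 0, nat_lit 0, nat_lit 0, nat_lit 0, nat_lit 0, [], [nat_lit 209, nat_lit 40, nat_lit 20, nat_lit 40]⟩, C1.Rw.none,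
 ⟨nat_lit 5477, nat_lit 5917, ⟨.ofNat (nat_lit 178606), .ofNat (nat_lit 217873), .ofNat (nat_lit 189276), .ofNat (nat_lit 228543), .ofNat (nat_lit 194835), .ofNat (nat_lit 232302), .ofNat (nat_lit 205514), .ofNat (nat_lit 242980)⟩, ⟨.ofNat (nat_lit 507691), .ofNat (nat_lit 586223), .ofNat (nat_lit 529030), .ofNat (nat_lit 607556), .ofNat (nat_lit 500365), .ofNat (nat_lit 575297), .ofNat (nat_lit 521722), .ofNat (nat_lit 596648)⟩⟩, [⟨nat_lit 0, nat_lit 100, nat_lit 95, nat_lit 52, nat_lit 200762318⟩, ⟨nat_lit 4, nat_lit 93, nat_lit 100, nat_lit 81, nat_lit 344531643⟩]⟩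
noncomputable def p042_l13 : Lf2 := ⟨nat_lit 0, nat_lit 2, [nat_lit 10, nat_lit 5, nat_lit 5, nat_lit 20], true, nat_lit 280, nat_lit 320, nat_lit 0, nat_lit 248, ⟨nat_lit 0, nat_lit 0, nat_lit 1000, nat_lit 5, nat_lit 78, nat_lit 1000, nat_lit 219, nat_lit 1000, nat_lit 2869, nat_lit 206, nat_lit 58017, nat_lit 274, nat_lit 48731656, nat_lit 0, nat_lit 0, nat_lit 3733747, false, false⟩,
 nat_lit 0, nat_lit 0, nat_lit 0, nat_lit 100000, nat_lit 100000, nat_lit 0, nat_lit 19790, nat_lit 6639, nat_lit 0, nat_lit 0, nat_lit 0, nat_lit 0, nat_lit 0, nat_lit 0, nat_lit 0, nat_lit 1000000, nat_lit 0, nat_lit 0, [(nat_lit 6, [(nat_lit 6, nat_lit 1000)]), (nat_lit 9, [(nat_lit 6, nat_lit 1000)])],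
 ⟨p042_k1, nat_lit 0, nat_lit 0, nat_lit 141, nat_lit 0, nat_lit 0, [nat_lit 107321600000, nat_lit 132588000001, nat_lit 157627199999], [], [nat_lit 136038504550, nat_lit 151215244749, nat_lit 105555573749, nat_lit 120515407749, nat_lit 156852825349, nat_lit 172638980401, nat_lit 126011884001, nat_lit 140072220001], nat_lit 0, nat_lit 0, nat_lit 0, nat_lit 0, nat_lit 0, nat_lit 0, [], [nat_lit 9, nat_lit 40, nat_lit 40, nat_lit 80, nat_lit 2, nat_lit 215, nat_lit 10, nat_lit 6]⟩, C1.Rw.none,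
 ⟨nat_lit 5477, nat_lit 6325, ⟨.ofNat (nat_lit 145408), .ofNat (nat_lit 202993), .ofNat (nat_lit 156092), .ofNat (nat_lit 213677), .ofNat (nat_lit 179849), .ofNat (nat_lit 232302), .ofNat (nat_lit 190527), .ofNat (nat_lit 242980)⟩, ⟨.ofNat (nat_lit 493584), .ofNat (nat_lit 575816), .ofNat (nat_lit 536314), .ofNat (nat_lit 618504), .ofNat (nat_lit 479008), .ofNat (nat_lit 553909), .ofNat (nat_lit 521717), .ofNat (nat_lit 596575)⟩⟩, [⟨nat_lit 0, nat_lit 100, nat_lit 97, nat_lit 47, nat_lit 5796189355⟩, ⟨nat_lit 16, nat_lit 100, nat_lit 76, nat_lit 82, nat_lit 5275980598⟩]⟩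
noncomputable def p042_l14 : Lf2 := ⟨nat_lit 0, nat_lit 5, [nat_lit 4, nat_lit 5, nat_lit 5, nat_lit 20], true, nat_lit 280, nat_lit 312, nat_lit 0, nat_lit 248, ⟨nat_lit 0, nat_lit 0, nat_lit 1000, nat_lit 5, nat_lit 71, nat_lit 1000, nat_lit 213, nat_lit 1000, nat_lit 586, nat_lit 219, nat_lit 46817, nat_lit 268, nat_lit 49655226, nat_lit 0, nat_lit 0, nat_lit 3587652, false, false⟩,
 nat_lit 0, nat_lit 0, nat_lit 0, nat_lit 100000, nat_lit 4361, nat_lit 0, nat_lit 0, nat_lit 0, nat_lit 0, nat_lit 0, nat_lit 0, nat_lit 0, nat_lit 0, nat_lit 0, nat_lit 91, nat_lit 569200, nat_lit 0, nat_lit 0, [(nat_lit 6, [(nat_lit 5, nat_lit 718), (nat_lit 6, nat_lit 282)])],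
 ⟨p042_k9, nat_lit 0, nat_lit 0, nat_lit 162, nat_lit 0, nat_lit 0, [nat_lit 3096492801, nat_lit 7312000], [], [nat_lit 18672221800, nat_lit 19619247842, nat_lit 17307962095, nat_lit 18224457921, nat_lit 20876346243, nat_lit 22114826844, nat_lit 19099582126, nat_lit 20286053750], nat_lit 0, nat_lit 0, nat_lit 0, nat_lit 0, nat_lit 0, nat_lit 0, [], [nat_lit 70, nat_lit 40, nat_lit 40, nat_lit 80, nat_lit 13, nat_lit 289, nat_lit 75, nat_lit 8]⟩, C1.Rw.none,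
 ⟨nat_lit 5916, nat_lit 6325, ⟨.ofNat (nat_lit 126498), .ofNat (nat_lit 192309), .ofNat (nat_lit 147866), .ofNat (nat_lit 213677), .ofNat (nat_lit 144377), .ofNat (nat_lit 207203), .ofNat (nat_lit 165716), .ofNat (nat_lit 228543)⟩, ⟨.ofNat (nat_lit 493584), .ofNat (nat_lit 559386), .ofNat (nat_lit 514952), .ofNat (nat_lit 580747), .ofNat (nat_lit 486351), .ofNat (nat_lit 549169), .ofNat (nat_lit 507691), .ofNat (nat_lit 570502)⟩⟩, [⟨nat_lit 0, nat_lit 100, nat_lit 97, nat_lit 49, nat_lit 328209333⟩, ⟨nat_lit 4, nat_lit 92, nat_lit 100, nat_lit 68, nat_lit 5083934179⟩]⟩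
noncomputable def p042_l15 : Lf2 := ⟨nat_lit 0, nat_lit 5, [nat_lit 4, nat_lit 5, nat_lit 5, nat_lit 20], true, nat_lit 280, nat_lit 296, nat_lit 0, nat_lit 248, ⟨nat_lit 0, nat_lit 0, nat_lit 1000, nat_lit 5, nat_lit 81, nat_lit 1000, nat_lit 203, nat_lit 1000, nat_lit 11818, nat_lit 238, nat_lit 62017, nat_lit 276, nat_lit 50098438, nat_lit 0, nat_lit 0, nat_lit 3630490, false, false⟩,
 nat_lit 0, nat_lit 0, nat_lit 0, nat_lit 19798, nat_lit 4427, nat_lit 0, nat_lit 0, nat_lit 0, nat_lit 0, nat_lit 0, nat_lit 0, nat_lit 0, nat_lit 0, nat_lit 0, nat_lit 55, nat_lit 400000, nat_lit 0, nat_lit 0, [(nat_lit 9, [(nat_lit 5, nat_lit 1000)])],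
 ⟨p042_k10, nat_lit 0, nat_lit 0, nat_lit 125, nat_lit 0, nat_lit 0, [nat_lit 2406400000, nat_lit 19600000], [], [nat_lit 19231616582, nat_lit 20617351108, nat_lit 17895812333, nat_lit 19230733228, nat_lit 20486470727, nat_lit 21802124745, nat_lit 19097758986, nat_lit 20408611504], nat_lit 0, nat_lit 0, nat_lit 0, nat_lit 0, nat_lit 0, nat_lit 0, [], [nat_lit 39, nat_lit 40, nat_lit 40, nat_lit 80, nat_lit 7, nat_lit 215, nat_lit 10, nat_lit 6]⟩, C1.Rw.none,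
 ⟨nat_lit 5477, nat_lit 5917, ⟨.ofNat (nat_lit 160083), .ofNat (nat_lit 207203), .ofNat (nat_lit 181423), .ofNat (nat_lit 228543), .ofNat (nat_lit 176664), .ofNat (nat_lit 221623), .ofNat (nat_lit 198021), .ofNat (nat_lit 242980)⟩, ⟨.ofNat (nat_lit 486351), .ofNat (nat_lit 517765), .ofNat (nat_lit 507691), .ofNat (nat_lit 539104), .ofNat (nat_lit 479008), .ofNat (nat_lit 508982), .ofNat (nat_lit 500365), .ofNat (nat_lit 530339)⟩⟩, [⟨nat_lit 0, nat_lit 100, nat_lit 95, nat_lit 49, nat_lit 404718354⟩, ⟨nat_lit 4, nat_lit 100, nat_lit 100, nat_lit 71, nat_lit 874367239⟩]⟩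
noncomputable def p042_l16 : Lf2 := ⟨nat_lit 0, nat_lit 3, [nat_lit 45, nat_lit 5, nat_lit 5, nat_lit 20], true, nat_lit 280, nat_lit 320, nat_lit 0, nat_lit 248, ⟨nat_lit 0, nat_lit 0, nat_lit 1000, nat_lit 5, nat_lit 74, nat_lit 1000, nat_lit 223, nat_lit 1000, nat_lit 2869, nat_lit 206, nat_lit 52267, nat_lit 271, nat_lit 48499149, nat_lit 0, nat_lit 0, nat_lit 3718892, false, false⟩,
 nat_lit 0, nat_lit 0, nat_lit 0, nat_lit 17588, nat_lit 4276, nat_lit 0, nat_lit 0, nat_lit 0, nat_lit 0, nat_lit 0, nat_lit 0, nat_lit 0, nat_lit 0, nat_lit 0, nat_lit 41, nat_lit 400000, nat_lit 0, nat_lit 0, [(nat_lit 6, [(nat_lit 5, nat_lit 1000)]), (nat_lit 9, [(nat_lit 5, nat_lit 1000)])],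
 ⟨p042_k11, nat_lit 0, nat_lit 0, nat_lit 141, nat_lit 0, nat_lit 0, [nat_lit 2182400000, nat_lit 7600000], [], [nat_lit 18249641951, nat_lit 20890733985, nat_lit 17174857080, nat_lit 19120469720, nat_lit 21420389012, nat_lit 23807331997, nat_lit 19633751136, nat_lit 22012272208], nat_lit 0, nat_lit 0, nat_lit 0, nat_lit 0, nat_lit 0, nat_lit 0, [], [nat_lit 39, nat_lit 40, nat_lit 40, nat_lit 80, nat_lit 7, nat_lit 215, nat_lit 10, nat_lit 6]⟩, C1.Rw.none,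
 ⟨nat_lit 5477, nat_lit 6325, ⟨.ofNat (nat_lit 126498), .ofNat (nat_lit 192309), .ofNat (nat_lit 147866), .ofNat (nat_lit 213677), .ofNat (nat_lit 161677), .ofNat (nat_lit 221623), .ofNat (nat_lit 183034), .ofNat (nat_lit 242980)⟩, ⟨.ofNat (nat_lit 514952), .ofNat (nat_lit 597160), .ofNat (nat_lit 536314), .ofNat (nat_lit 618504), .ofNat (nat_lit 500365), .ofNat (nat_lit 575242), .ofNat (nat_lit 521717), .ofNat (nat_lit 596575)⟩⟩, [⟨nat_lit 0, nat_lit 100, nat_lit 94, nat_lit 59, nat_lit 393208214⟩, ⟨nat_lit 4, nat_lit 89, nat_lit 100, nat_lit 80, nat_lit 474184778⟩]⟩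
noncomputable def p042_l17 : Lf2 := ⟨nat_lit 1, nat_lit 5, [nat_lit 4, nat_lit 5, nat_lit 5, nat_lit 20], false, nat_lit 280, nat_lit 320, nat_lit 0, nat_lit 248, zbN0,
 nat_lit 0, nat_lit 0, nat_lit 0, nat_lit 0, nat_lit 0, nat_lit 0, nat_lit 0, nat_lit 0, nat_lit 0, nat_lit 0, nat_lit 0, nat_lit 0, nat_lit 0, nat_lit 0, nat_lit 0, nat_lit 0, nat_lit 0, nat_lit 0, [],
 C1.Rw.none, C1.Rw.none,
 zbF0, []⟩
noncomputable def p042_l18 : Lf2 := ⟨nat_lit 0, nat_lit 8, [nat_lit 50, nat_lit 5, nat_lit 5, nat_lit 20], true, nat_lit 280, nat_lit 320, nat_lit 0, nat_lit 248, ⟨nat_lit 0, nat_lit 0, nat_lit 1000, nat_lit 5, nat_lit 74, nat_lit 1000, nat_lit 219, nat_lit 1000, nat_lit 2869, nat_lit 206, nat_lit 52267, nat_lit 271, nat_lit 48925413, nat_lit 0, nat_lit 0, nat_lit 3682490, false, false⟩,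
 nat_lit 0, nat_lit 0, nat_lit 0, nat_lit 100000, nat_lit 4420, nat_lit 0, nat_lit 0, nat_lit 0, nat_lit 0, nat_lit 0, nat_lit 0, nat_lit 0, nat_lit 0, nat_lit 0, nat_lit 87, nat_lit 537400, nat_lit 0, nat_lit 0, [(nat_lit 6, [(nat_lit 5, nat_lit 771), (nat_lit 6, nat_lit 229)]), (nat_lit 9, [(nat_lit 5, nat_lit 771), (nat_lit 6, nat_lit 229)])],
 ⟨p042_k12, nat_lit 0, nat_lit 0, nat_lit 168, nat_lit 0, nat_lit 0, [nat_lit 3074486401, nat_lit 11064000], [], [nat_lit 18792817912, nat_lit 21070803681, nat_lit 17384869081, nat_lit 19227006202, nat_lit 21614663904, nat_lit 24036115857, nat_lit 19754673120, nat_lit 22167865360], nat_lit 0, nat_lit 0, nat_lit 0, nat_lit 0, nat_lit 0, nat_lit 0, [], [nat_lit 70, nat_lit 40, nat_lit 40, nat_lit 80, nat_lit 13, nat_lit 317, nat_lit 100, nat_lit 9]⟩, C1.Rw.none,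
 ⟨nat_lit 5477, nat_lit 6325, ⟨.ofNat (nat_lit 126498), .ofNat (nat_lit 192309), .ofNat (nat_lit 147866), .ofNat (nat_lit 213677), .ofNat (nat_lit 161677), .ofNat (nat_lit 221623), .ofNat (nat_lit 183034), .ofNat (nat_lit 242980)⟩, ⟨.ofNat (nat_lit 493584), .ofNat (nat_lit 575816), .ofNat (nat_lit 536314), .ofNat (nat_lit 618504), .ofNat (nat_lit 479008), .ofNat (nat_lit 553909), .ofNat (nat_lit 521717), .ofNat (nat_lit 596575)⟩⟩, [⟨nat_lit 0, nat_lit 100, nat_lit 94, nat_lit 59, nat_lit 405301808⟩, ⟨nat_lit 4, nat_lit 92, nat_lit 100, nat_lit 75, nat_lit 4393354094⟩]⟩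
noncomputable def p042_l19 : Lf2 := ⟨nat_lit 0, nat_lit 8, [nat_lit 50, nat_lit 5, nat_lit 5, nat_lit 20], true, nat_lit 280, nat_lit 320, nat_lit 0, nat_lit 300, ⟨nat_lit 0, nat_lit 1000, nat_lit 0, nat_lit 5, nat_lit 99, nat_lit 1000, nat_lit 219, nat_lit 0, nat_lit 0, nat_lit 0, nat_lit 0, nat_lit 0, nat_lit 47608566, nat_lit 4339552, nat_lit 15051882, nat_lit 4005473, false, false⟩,
 nat_lit 0, nat_lit 0, nat_lit 0, nat_lit 9246, nat_lit 5031, nat_lit 0, nat_lit 0, nat_lit 0, nat_lit 0, nat_lit 0, nat_lit 0, nat_lit 0, nat_lit 0, nat_lit 0, nat_lit 0, nat_lit 250000, nat_lit 0, nat_lit 0, [(nat_lit 6, [(nat_lit 0, nat_lit 1000)]), (nat_lit 9, [(nat_lit 0, nat_lit 1000)])],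
 ⟨p042_k12, nat_lit 0, nat_lit 0, nat_lit 70, nat_lit 0, nat_lit 0, [nat_lit 3128000000, nat_lit 3710400000], [], [nat_lit 17543224434, nat_lit 20064857126, nat_lit 16876062372, nat_lit 19309704614, nat_lit 20537529800, nat_lit 22828055748, nat_lit 19759002372, nat_lit 21902035448], nat_lit 0, nat_lit 0, nat_lit 0, nat_lit 0, nat_lit 0, nat_lit 0, [], [nat_lit 70, nat_lit 40, nat_lit 40, nat_lit 80, nat_lit 13, nat_lit 317, nat_lit 100, nat_lit 9]⟩, C1.Rw.none,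
 ⟨nat_lit 5477, nat_lit 6325, ⟨.ofNat (nat_lit 170942), .ofNat (nat_lit 253206), .ofNat (nat_lit 213677), .ofNat (nat_lit 295942), .ofNat (nat_lit 200266), .ofNat (nat_lit 275199), .ofNat (nat_lit 242980), .ofNat (nat_lit 317913)⟩, ⟨.ofNat (nat_lit 493584), .ofNat (nat_lit 575816), .ofNat (nat_lit 536314), .ofNat (nat_lit 618504), .ofNat (nat_lit 479008), .ofNat (nat_lit 553909), .ofNat (nat_lit 521717), .ofNat (nat_lit 596575)⟩⟩, [⟨nat_lit 4, nat_lit 92, nat_lit 100, nat_lit 75, nat_lit 384439636⟩]⟩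
noncomputable def p042_l20 : Lf2 := ⟨nat_lit 0, nat_lit 8, [nat_lit 50, nat_lit 5, nat_lit 5, nat_lit 20], true, nat_lit 280, nat_lit 320, nat_lit 0, nat_lit 336, ⟨nat_lit 0, nat_lit 1000, nat_lit 0, nat_lit 5, nat_lit 130, nat_lit 1000, nat_lit 219, nat_lit 0, nat_lit 0, nat_lit 0, nat_lit 0, nat_lit 0, nat_lit 45707841, nat_lit 6519201, nat_lit 14772958, nat_lit 4388255, false, false⟩,
 nat_lit 0, nat_lit 0, nat_lit 0, nat_lit 8971, nat_lit 5320, nat_lit 0, nat_lit 0, nat_lit 0, nat_lit 0, nat_lit 0, nat_lit 0, nat_lit 0, nat_lit 0, nat_lit 0, nat_lit 0, nat_lit 250000, nat_lit 0, nat_lit 0, [(nat_lit 6, [(nat_lit 0, nat_lit 1000)]), (nat_lit 9, [(nat_lit 0, nat_lit 1000)])],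
 ⟨p042_k12, nat_lit 0, nat_lit 0, nat_lit 49, nat_lit 0, nat_lit 0, [nat_lit 3128000000, nat_lit 3710400000], [], [nat_lit 16599203840, nat_lit 19099542080, nat_lit 16649075840, nat_lit 19025622640, nat_lit 19569999840, nat_lit 21869196160, nat_lit 19469563200, nat_lit 21561032000], nat_lit 0, nat_lit 0, nat_lit 0, nat_lit 0, nat_lit 0, nat_lit 0, [], [nat_lit 70, nat_lit 40, nat_lit 40, nat_lit 80, nat_lit 13, nat_lit 317, nat_lit 100, nat_lit 8]⟩, C1.Rw.none,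
 ⟨nat_lit 5477, nat_lit 6325, ⟨.ofNat (nat_lit 253206), .ofNat (nat_lit 335470), .ofNat (nat_lit 295942), .ofNat (nat_lit 378206), .ofNat (nat_lit 275199), .ofNat (nat_lit 350132), .ofNat (nat_lit 317913), .ofNat (nat_lit 392847)⟩, ⟨.ofNat (nat_lit 493584), .ofNat (nat_lit 575816), .ofNat (nat_lit 536314), .ofNat (nat_lit 618504), .ofNat (nat_lit 479008), .ofNat (nat_lit 553909), .ofNat (nat_lit 521717), .ofNat (nat_lit 596575)⟩⟩, [⟨nat_lit 16, nat_lit 100, nat_lit 92, nat_lit 75, nat_lit 389092881⟩]⟩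
noncomputable def p042_l21 : Lf2 := ⟨nat_lit 0, nat_lit 8, [nat_lit 50, nat_lit 5, nat_lit 5, nat_lit 20], true, nat_lit 320, nat_lit 336, nat_lit 0, nat_lit 300, ⟨nat_lit 0, nat_lit 0, nat_lit 1000, nat_lit 5, nat_lit 100, nat_lit 1000, nat_lit 241, nat_lit 1000, nat_lit 31510, nat_lit 200, nat_lit 93750, nat_lit 290, nat_lit 45432782, nat_lit 0, nat_lit 0, nat_lit 4187611, false, false⟩,
 nat_lit 0, nat_lit 0, nat_lit 0, nat_lit 100000, nat_lit 3852, nat_lit 0, nat_lit 0, nat_lit 0, nat_lit 0, nat_lit 0, nat_lit 0, nat_lit 0, nat_lit 0, nat_lit 0, nat_lit 77, nat_lit 462400, nat_lit 0, nat_lit 0, [(nat_lit 6, [(nat_lit 5, nat_lit 896), (nat_lit 6, nat_lit 104)]), (nat_lit 9, [(nat_lit 5, nat_lit 896), (nat_lit 6, nat_lit 104)])],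
 ⟨p042_k12, nat_lit 0, nat_lit 0, nat_lit 178, nat_lit 0, nat_lit 0, [nat_lit 2829286400, nat_lit 4064000], [], [nat_lit 21240470785, nat_lit 23331134861, nat_lit 20060589856, nat_lit 21639661344, nat_lit 22486205732, nat_lit 24643158296, nat_lit 21008829028, nat_lit 22515382132], nat_lit 0, nat_lit 0, nat_lit 0, nat_lit 0, nat_lit 0, nat_lit 0, [], [nat_lit 70, nat_lit 40, nat_lit 40, nat_lit 80, nat_lit 13, nat_lit 317, nat_lit 100, nat_lit 9]⟩, C1.Rw.none,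
 ⟨nat_lit 5477, nat_lit 6325, ⟨.ofNat (nat_lit 96904), .ofNat (nat_lit 335470), .ofNat (nat_lit 139640), .ofNat (nat_lit 378206), .ofNat (nat_lit 132827), .ofNat (nat_lit 350132), .ofNat (nat_lit 175541), .ofNat (nat_lit 392847)⟩, ⟨.ofNat (nat_lit 575816), .ofNat (nat_lit 608692), .ofNat (nat_lit 618504), .ofNat (nat_lit 651380), .ofNat (nat_lit 553909), .ofNat (nat_lit 583853), .ofNat (nat_lit 596575), .ofNat (nat_lit 626519)⟩⟩, [⟨nat_lit 0, nat_lit 100, nat_lit 96, nat_lit 40, nat_lit 174938371⟩, ⟨nat_lit 16, nat_lit 100, nat_lit 76, nat_lit 82, nat_lit 6524041697⟩]⟩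
noncomputable def b_V_600_500_10_3 : St := ⟨true, nat_lit 0, nat_lit 1, nat_lit 1, nat_lit 80, nat_lit 240, nat_lit 280, nat_lit 200, nat_lit 240, nat_lit 4, nat_lit 120, nat_lit 40, nat_lit 80, nat_lit 280, nat_lit 336, nat_lit 0, nat_lit 360, nat_lit 0, nat_lit 32, nat_lit 0, nat_lit 0, nat_lit 0, nat_lit 0⟩
theorem d_V_600_500_10_3 (h : EB TB.env) : Dead b_V_600_500_10_3 := chkB_sound0 h (T :=
(.trX (nat_lit 23) (nat_lit 100) (nat_lit 80) (nat_lit 100) (nat_lit 336) (.spl (nat_lit 4) (nat_lit 320)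
(.spl (nat_lit 2) (nat_lit 80)
(.trX (nat_lit 23) (nat_lit 100) (nat_lit 95) (nat_lit 87) (nat_lit 300) (.spl (nat_lit 2) (nat_lit 40)
(.trX (nat_lit 23) (nat_lit 94) (nat_lit 100) (nat_lit 62) (nat_lit 248) (.spl (nat_lit 1) (nat_lit 220)
(.leaf p042_l0)
(.trZ (nat_lit 0) (nat_lit 100) (nat_lit 98) (nat_lit 30) (nat_lit 8) (.spl (nat_lit 6) (nat_lit 20)
(.spl (nat_lit 6) (nat_lit 8)
(.spl (nat_lit 1) (nat_lit 230)
(.spl (nat_lit 4) (nat_lit 300)
(.spl (nat_lit 3) (nat_lit 60)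
(.leaf p042_l1)
(.leaf p042_l2))
(.trX (nat_lit 23) (nat_lit 87) (nat_lit 100) (nat_lit 60) (nat_lit 224) (.leaf p042_l3)))
(.trZ (nat_lit 0) (nat_lit 100) (nat_lit 99) (nat_lit 35) (nat_lit 12) (.spl (nat_lit 7) (nat_lit 600)
(.spl (nat_lit 3) (nat_lit 60)
(.trX (nat_lit 16) (nat_lit 100) (nat_lit 85) (nat_lit 73) (nat_lit 312) (.spl (nat_lit 0) (nat_lit 260)
(.spl (nat_lit 2) (nat_lit 20)
(.trX (nat_lit 23) (nat_lit 92) (nat_lit 100) (nat_lit 44) (nat_lit 208) (.spl (nat_lit 0) (nat_lit 250)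
(.spl (nat_lit 0) (nat_lit 245)
(.leaf p042_l4)
(.trX (nat_lit 16) (nat_lit 100) (nat_lit 86) (nat_lit 73) (nat_lit 308) (.leaf p042_l5)))
(.trZ (nat_lit 0) (nat_lit 100) (nat_lit 98) (nat_lit 40) (nat_lit 16) (.trX (nat_lit 16) (nat_lit 100) (nat_lit 88) (nat_lit 74) (nat_lit 304) (.leaf p042_l6)))))
(.spl (nat_lit 5) (nat_lit 160)
(.leaf p042_l7)
(.leaf p042_l8)))
(.trZ (nat_lit 0) (nat_lit 100) (nat_lit 96) (nat_lit 44) (nat_lit 20) (.trX (nat_lit 16) (nat_lit 100) (nat_lit 92) (nat_lit 75) (nat_lit 296) (.leaf p042_l9)))))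
(.spl (nat_lit 0) (nat_lit 260)
(.spl (nat_lit 0) (nat_lit 250)
(.leaf p042_l10)
(.trZ (nat_lit 0) (nat_lit 100) (nat_lit 98) (nat_lit 40) (nat_lit 16) (.leaf p042_l11)))
(.trZ (nat_lit 0) (nat_lit 100) (nat_lit 96) (nat_lit 44) (nat_lit 20) (.leaf p042_l12))))
(.leaf p042_l13))))
(.spl (nat_lit 3) (nat_lit 60)
(.trX (nat_lit 16) (nat_lit 100) (nat_lit 85) (nat_lit 73) (nat_lit 312) (.spl (nat_lit 0) (nat_lit 260)
(.leaf p042_l14)
(.trZ (nat_lit 0) (nat_lit 100) (nat_lit 96) (nat_lit 40) (nat_lit 16) (.trX (nat_lit 16) (nat_lit 100) (nat_lit 92) (nat_lit 75) (nat_lit 296) (.leaf p042_l15)))))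
(.spl (nat_lit 6) (nat_lit 12)
(.leaf p042_l16)
(.leaf p042_l17))))
(.leaf p042_l18)))))
(.leaf p042_l19)))
(.leaf p042_l20))
(.trX (nat_lit 23) (nat_lit 87) (nat_lit 95) (nat_lit 100) (nat_lit 300) (.leaf p042_l21))))) (by decide +kernel)
noncomputable def p042_l22 : Lf2 := ⟨nat_lit 0, nat_lit 8, [nat_lit 50, nat_lit 5, nat_lit 5, nat_lit 20], false, nat_lit 0, nat_lit 160, nat_lit 0, nat_lit 360, ⟨nat_lit 598, nat_lit 402, nat_lit 0, nat_lit 6, nat_lit 298, nat_lit 402, nat_lit 54, nat_lit 0, nat_lit 0, nat_lit 0, nat_lit 0, nat_lit 0, nat_lit 43036491, nat_lit 23963509, nat_lit 0, nat_lit 3260311, true, true⟩,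
 nat_lit 0, nat_lit 0, nat_lit 11286, nat_lit 0, nat_lit 6793, nat_lit 4836, nat_lit 1667, nat_lit 0, nat_lit 0, nat_lit 1013, nat_lit 0, nat_lit 0, nat_lit 0, nat_lit 0, nat_lit 0, nat_lit 160800, nat_lit 0, nat_lit 0, [(nat_lit 6, [(nat_lit 1, nat_lit 402)]), (nat_lit 9, [(nat_lit 1, nat_lit 402)])],
 ⟨p042_k0, nat_lit 0, nat_lit 0, nat_lit 215, nat_lit 0, nat_lit 0, [nat_lit 3889917441, nat_lit 5004228800, nat_lit 7159534400], [], [nat_lit 21157605614, nat_lit 23640960130, nat_lit 35823563056, nat_lit 37793584488, nat_lit 17294633783, nat_lit 19080250041, nat_lit 28482916960, nat_lit 30249118584], nat_lit 0, nat_lit 0, nat_lit 0, nat_lit 0, nat_lit 0, nat_lit 0, [], [nat_lit 11, nat_lit 40, nat_lit 40, nat_lit 80, nat_lit 1, nat_lit 456, nat_lit 225, nat_lit 13]⟩, ⟨p042_k13, nat_lit 0, nat_lit 0, nat_lit 516, nat_lit 0, nat_lit 543882, [nat_lit 3737500000, nat_lit 4764864000, nat_lit 7099456000], [], [nat_lit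 21791969873, nat_lit 21924775013, nat_lit 24972336569, nat_lit 25006545096, nat_lit 22901565544, nat_lit 20739501172, nat_lit 22610966768, nat_lit 22559222998], nat_lit 1271250, nat_lit 1271250, nat_lit 1271250, nat_lit 1271250, nat_lit 0, nat_lit 2542500, [nat_lit 1412500, nat_lit 1271250, nat_lit 1271250], [nat_lit 53, nat_lit 40, nat_lit 40, nat_lit 80, nat_lit 14, nat_lit 483, nat_lit 250, nat_lit 12]⟩,
 ⟨nat_lit 5477, nat_lit 6325, ⟨.ofNat (nat_lit 582178), .ofNat (nat_lit 910890), .ofNat (nat_lit 603514), .ofNat (nat_lit 932227), .ofNat (nat_lit 574846), .ofNat (nat_lit 874234), .ofNat (nat_lit 596172), .ofNat (nat_lit 895560)⟩, ⟨.negSucc (nat_lit 82265), .ofNat (nat_lit 246791), .negSucc (nat_lit 39529), .ofNat (nat_lit 289527), .negSucc (nat_lit 45522), .ofNat (nat_lit 254209), .negSucc (nat_lit 2808), .ofNat (nat_lit 296923)⟩⟩, [⟨nat_lit 22, nat_lit 83, nat_lit 100, nat_lit 83, nat_lit 120189557⟩]⟩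
noncomputable def p042_l23 : Lf2 := ⟨nat_lit 0, nat_lit 8, [nat_lit 50, nat_lit 5, nat_lit 5, nat_lit 20], false, nat_lit 0, nat_lit 160, nat_lit 0, nat_lit 348, ⟨nat_lit 1000, nat_lit 0, nat_lit 0, nat_lit 0, nat_lit 0, nat_lit 0, nat_lit 0, nat_lit 0, nat_lit 0, nat_lit 0, nat_lit 0, nat_lit 0, nat_lit 0, nat_lit 0, nat_lit 0, nat_lit 0, false, false⟩,
 nat_lit 0, nat_lit 0, nat_lit 15221, nat_lit 0, nat_lit 7859, nat_lit 7279, nat_lit 2233, nat_lit 0, nat_lit 0, nat_lit 2517, nat_lit 0, nat_lit 0, nat_lit 0, nat_lit 0, nat_lit 0, nat_lit 0, nat_lit 0, nat_lit 0, [],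
 ⟨p042_k0, nat_lit 0, nat_lit 0, nat_lit 215, nat_lit 0, nat_lit 0, [nat_lit 4688000000, nat_lit 6250000000, nat_lit 9842000000], [], [nat_lit 22003464682, nat_lit 24684041990, nat_lit 38492605328, nat_lit 40582897144, nat_lit 16794098946, nat_lit 18890943906, nat_lit 29564608480, nat_lit 31432045992], nat_lit 0, nat_lit 0, nat_lit 0, nat_lit 0, nat_lit 0, nat_lit 0, [], [nat_lit 11, nat_lit 40, nat_lit 40, nat_lit 80, nat_lit 1, nat_lit 456, nat_lit 225, nat_lit 13]⟩, ⟨p042_k14, nat_lit 0, nat_lit 0, nat_lit 551, nat_lit 0, nat_lit 652259, [nat_lit 6250000000, nat_lit 7968000000, nat_lit 11872000000], [], [nat_lit 32457075486, nat_lit 32818641418, nat_lit 38146741442, nat_lit 38289972344, nat_lit 34580423214, nat_lit 31885971360, nat_lit 35475013627, nat_lit 35468702593], nat_lit 1271250, nat_lit 1271250, nat_lit 1271250, nat_lit 1271250, nat_lit 0, nat_lit 2457750, [nat_lit 1412500, nat_lit 1271250, nat_lit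 1271250], [nat_lit 53, nat_lit 40, nat_lit 40, nat_lit 80, nat_lit 14, nat_lit 483, nat_lit 250, nat_lit 12]⟩,
 zbF0, [⟨nat_lit 19, nat_lit 100, nat_lit 81, nat_lit 72, nat_lit 115269849⟩, ⟨nat_lit 22, nat_lit 83, nat_lit 100, nat_lit 83, nat_lit 99832156⟩]⟩
noncomputable def p042_l24 : Lf2 := ⟨nat_lit 0, nat_lit 5, [nat_lit 4, nat_lit 5, nat_lit 5, nat_lit 20], true, nat_lit 160, nat_lit 336, nat_lit 0, nat_lit 360, ⟨nat_lit 0, nat_lit 1000, nat_lit 0, nat_lit 6, nat_lit 267, nat_lit 1000, nat_lit 178, nat_lit 0, nat_lit 0, nat_lit 0, nat_lit 0, nat_lit 0, nat_lit 38853265, nat_lit 18501874, nat_lit 9644861, nat_lit 5116863, true, true⟩,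
 nat_lit 0, nat_lit 0, nat_lit 0, nat_lit 4928, nat_lit 4254, nat_lit 0, nat_lit 0, nat_lit 0, nat_lit 0, nat_lit 0, nat_lit 0, nat_lit 0, nat_lit 0, nat_lit 0, nat_lit 0, nat_lit 400000, nat_lit 0, nat_lit 0, [(nat_lit 6, [(nat_lit 1, nat_lit 1000)]), (nat_lit 9, [(nat_lit 1, nat_lit 1000)])],
 ⟨p042_k15, nat_lit 0, nat_lit 0, nat_lit 58, nat_lit 0, nat_lit 0, [nat_lit 2702720000, nat_lit 3151066667, nat_lit 3294533333], [], [nat_lit 15757474496, nat_lit 18002497480, nat_lit 20498132672, nat_lit 22298503624, nat_lit 23688269957, nat_lit 25152540640, nat_lit 26839858580, nat_lit 28023142148], nat_lit 0, nat_lit 0, nat_lit 0, nat_lit 0, nat_lit 0, nat_lit 0, [], [nat_lit 11, nat_lit 40, nat_lit 40, nat_lit 80, nat_lit 1, nat_lit 483, nat_lit 250, nat_lit 13]⟩, C1.Rw.none,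
 ⟨nat_lit 5477, nat_lit 6325, ⟨.ofNat (nat_lit 582178), .ofNat (nat_lit 746534), .ofNat (nat_lit 603514), .ofNat (nat_lit 767871), .ofNat (nat_lit 574846), .ofNat (nat_lit 724540), .ofNat (nat_lit 596172), .ofNat (nat_lit 745866)⟩, ⟨.ofNat (nat_lit 246791), .ofNat (nat_lit 608692), .ofNat (nat_lit 289527), .ofNat (nat_lit 651380), .ofNat (nat_lit 254209), .ofNat (nat_lit 583853), .ofNat (nat_lit 296923), .ofNat (nat_lit 626519)⟩⟩, [⟨nat_lit 4, nat_lit 92, nat_lit 100, nat_lit 75, nat_lit 156637407⟩]⟩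
noncomputable def p042_l25 : Lf2 := ⟨nat_lit 0, nat_lit 5, [nat_lit 4, nat_lit 5, nat_lit 5, nat_lit 20], false, nat_lit 160, nat_lit 336, nat_lit 16, nat_lit 360, ⟨nat_lit 200, nat_lit 800, nat_lit 0, nat_lit 8, nat_lit 330, nat_lit 800, nat_lit 178, nat_lit 0, nat_lit 0, nat_lit 0, nat_lit 0, nat_lit 0, nat_lit 34246819, nat_lit 23955819, nat_lit 8797362, nat_lit 5254924, true, true⟩,
 nat_lit 0, nat_lit 0, nat_lit 3856, nat_lit 0, nat_lit 4145, nat_lit 1652, nat_lit 0, nat_lit 0, nat_lit 0, nat_lit 339, nat_lit 0, nat_lit 0, nat_lit 0, nat_lit 0, nat_lit 0, nat_lit 320000, nat_lit 0, nat_lit 0, [(nat_lit 6, [(nat_lit 1, nat_lit 800)]), (nat_lit 9, [(nat_lit 1, nat_lit 800)])],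
 ⟨p042_k15, nat_lit 0, nat_lit 0, nat_lit 83, nat_lit 0, nat_lit 0, [nat_lit 3099776000, nat_lit 3770853334, nat_lit 4572826666], [], [nat_lit 20995123360, nat_lit 22778818620, nat_lit 26467244500, nat_lit 27807141380, nat_lit 27294025696, nat_lit 28472208937, nat_lit 31152669916, nat_lit 32039800697], nat_lit 0, nat_lit 0, nat_lit 0, nat_lit 0, nat_lit 0, nat_lit 0, [], [nat_lit 11, nat_lit 40, nat_lit 40, nat_lit 80, nat_lit 1, nat_lit 401, nat_lit 175, nat_lit 10]⟩, ⟨p042_k16, nat_lit 0, nat_lit 0, nat_lit 500, nat_lit 0, nat_lit 532371, [nat_lit 1250000000, nat_lit 1593600000, nat_lit 2374400000], [], [nat_lit 7419470321, nat_lit 7440078769, nat_lit 8108832942, nat_lit 8120504132, nat_lit 6986502664, nat_lit 6988381352, nat_lit 7461873664, nat_lit 7451244868], nat_lit 1271250, nat_lit 1271250, nat_lit 1271250, nat_lit 1271250, nat_lit 88400, nat_lit 2569500, [nat_lit 1412500, nat_lit 1271250, nat_lit 1271250],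 [nat_lit 53, nat_lit 40, nat_lit 40, nat_lit 80, nat_lit 14, nat_lit 373, nat_lit 150, nat_lit 9]⟩,
 ⟨nat_lit 5477, nat_lit 6325, ⟨.ofNat (nat_lit 746534), .ofNat (nat_lit 910890), .ofNat (nat_lit 767871), .ofNat (nat_lit 932227), .ofNat (nat_lit 724540), .ofNat (nat_lit 874234), .ofNat (nat_lit 745866), .ofNat (nat_lit 895560)⟩, ⟨.ofNat (nat_lit 246791), .ofNat (nat_lit 608692), .ofNat (nat_lit 289527), .ofNat (nat_lit 651380), .ofNat (nat_lit 254209), .ofNat (nat_lit 583853), .ofNat (nat_lit 296923), .ofNat (nat_lit 626519)⟩⟩, [⟨nat_lit 13, nat_lit 96, nat_lit 25, nat_lit 100, nat_lit 86592214⟩, ⟨nat_lit 4, nat_lit 92, nat_lit 100, nat_lit 75, nat_lit 177380347⟩, ⟨nat_lit 7, nat_lit 74, nat_lit 100, nat_lit 72, nat_lit 41745264⟩]⟩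
noncomputable def p042_l26 : Lf2 := ⟨nat_lit 1, nat_lit 8, [nat_lit 50, nat_lit 5, nat_lit 5, nat_lit 20], false, nat_lit 160, nat_lit 336, nat_lit 0, nat_lit 360, zbN0,
 nat_lit 0, nat_lit 0, nat_lit 0, nat_lit 0, nat_lit 0, nat_lit 0, nat_lit 0, nat_lit 0, nat_lit 0, nat_lit 0, nat_lit 0, nat_lit 0, nat_lit 0, nat_lit 0, nat_lit 0, nat_lit 0, nat_lit 0, nat_lit 0, [],
 C1.Rw.none, C1.Rw.none,
 zbF0, []⟩
noncomputable def p042_l27 : Lf2 := ⟨nat_lit 0, nat_lit 8, [nat_lit 50, nat_lit 5, nat_lit 5, nat_lit 20], false, nat_lit 160, nat_lit 336, nat_lit 0, nat_lit 348, ⟨nat_lit 439, nat_lit 561, nat_lit 0, nat_lit 6, nat_lit 305, nat_lit 561, nat_lit 178, nat_lit 0, nat_lit 0, nat_lit 0, nat_lit 0, nat_lit 0, nat_lit 36038774, nat_lit 21819292, nat_lit 9141934, nat_lit 5222682, true, true⟩,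
 nat_lit 0, nat_lit 0, nat_lit 6699, nat_lit 0, nat_lit 4905, nat_lit 3203, nat_lit 0, nat_lit 0, nat_lit 0, nat_lit 1054, nat_lit 0, nat_lit 0, nat_lit 0, nat_lit 0, nat_lit 0, nat_lit 224400, nat_lit 0, nat_lit 0, [(nat_lit 6, [(nat_lit 1, nat_lit 561)]), (nat_lit 9, [(nat_lit 1, nat_lit 561)])],
 ⟨p042_k0, nat_lit 0, nat_lit 0, nat_lit 83, nat_lit 0, nat_lit 0, [nat_lit 3574257920, nat_lit 4511498400, nat_lit 6112887334], [], [nat_lit 15697186640, nat_lit 18093239020, nat_lit 26760922420, nat_lit 28155648740, nat_lit 24065333796, nat_lit 25591658320, nat_lit 31945519292, nat_lit 32940559157], nat_lit 0, nat_lit 0, nat_lit 0, nat_lit 0, nat_lit 0, nat_lit 0, [], [nat_lit 11, nat_lit 40, nat_lit 40, nat_lit 80, nat_lit 1, nat_lit 538, nat_lit 300, nat_lit 15]⟩, ⟨p042_k14, nat_lit 0, nat_lit 0, nat_lit 514, nat_lit 0, nat_lit 552097, [nat_lit 2743750000, nat_lit 3497952000, nat_lit 5211808000], [], [nat_lit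 14346535840, nat_lit 14425870644, nat_lit 16833697968, nat_lit 16857192142, nat_lit 15173264491, nat_lit 14454517216, nat_lit 15544952113, nat_lit 15543391100], nat_lit 1271250, nat_lit 1271250, nat_lit 1271250, nat_lit 1271250, nat_lit 0, nat_lit 2457750, [nat_lit 1412500, nat_lit 1271250, nat_lit 1271250], [nat_lit 53, nat_lit 40, nat_lit 40, nat_lit 80, nat_lit 14, nat_lit 483, nat_lit 250, nat_lit 12]⟩,
 ⟨nat_lit 5477, nat_lit 6325, ⟨.ofNat (nat_lit 603514), .ofNat (nat_lit 932227), .ofNat (nat_lit 614183), .ofNat (nat_lit 942895), .ofNat (nat_lit 596172), .ofNat (nat_lit 895560), .ofNat (nat_lit 606835), .ofNat (nat_lit 906223)⟩, ⟨.ofNat (nat_lit 246791), .ofNat (nat_lit 608692), .ofNat (nat_lit 289527), .ofNat (nat_lit 651380), .ofNat (nat_lit 254209), .ofNat (nat_lit 583853), .ofNat (nat_lit 296923), .ofNat (nat_lit 626519)⟩⟩, [⟨nat_lit 4, nat_lit 92, nat_lit 100, nat_lit 75, nat_lit 280394210⟩, ⟨nat_lit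 19, nat_lit 100, nat_lit 79, nat_lit 72, nat_lit 90945996⟩]⟩
noncomputable def p042_l28 : Lf2 := ⟨nat_lit 0, nat_lit 8, [nat_lit 50, nat_lit 5, nat_lit 5, nat_lit 20], false, nat_lit 160, nat_lit 336, nat_lit 0, nat_lit 344, ⟨nat_lit 503, nat_lit 497, nat_lit 0, nat_lit 6, nat_lit 309, nat_lit 497, nat_lit 178, nat_lit 0, nat_lit 0, nat_lit 0, nat_lit 0, nat_lit 0, nat_lit 35728728, nat_lit 22187670, nat_lit 9083602, nat_lit 5230175, true, true⟩,
 nat_lit 0, nat_lit 0, nat_lit 7300, nat_lit 0, nat_lit 5005, nat_lit 3676, nat_lit 0, nat_lit 0, nat_lit 0, nat_lit 874, nat_lit 0, nat_lit 0, nat_lit 0, nat_lit 0, nat_lit 0, nat_lit 198800, nat_lit 0, nat_lit 0, [(nat_lit 6, [(nat_lit 1, nat_lit 497)]), (nat_lit 9, [(nat_lit 1, nat_lit 497)])],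
 ⟨p042_k0, nat_lit 0, nat_lit 0, nat_lit 83, nat_lit 0, nat_lit 0, [nat_lit 3701315840, nat_lit 4709830134, nat_lit 6529413556], [], [nat_lit 15681106960, nat_lit 18100358940, nat_lit 26864190340, nat_lit 28266131060, nat_lit 24116435636, nat_lit 25652292240, nat_lit 32063541932, nat_lit 33059116677], nat_lit 0, nat_lit 0, nat_lit 0, nat_lit 0, nat_lit 0, nat_lit 0, [], [nat_lit 11, nat_lit 40, nat_lit 40, nat_lit 80, nat_lit 1, nat_lit 538, nat_lit 300, nat_lit 15]⟩, ⟨p042_k17, nat_lit 0, nat_lit 0, nat_lit 530, nat_lit 0, nat_lit 604147, [nat_lit 3143750000, nat_lit 4007904000, nat_lit 5971616000], [], [nat_lit 16548549663, nat_lit 16608565558, nat_lit 19129802353, nat_lit 19175423548, nat_lit 16409741136, nat_lit 15909278717, nat_lit 17739046457, nat_lit 17738175789], nat_lit 1271250, nat_lit 1271250, nat_lit 1271250, nat_lit 1271250, nat_lit 0, nat_lit 2429500, [nat_lit 1412500, nat_lit 1271250, nat_lit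 1271250], [nat_lit 53, nat_lit 40, nat_lit 40, nat_lit 80, nat_lit 14, nat_lit 483, nat_lit 250, nat_lit 12]⟩,
 ⟨nat_lit 5477, nat_lit 6325, ⟨.ofNat (nat_lit 614183), .ofNat (nat_lit 942895), .ofNat (nat_lit 624852), .ofNat (nat_lit 953563), .ofNat (nat_lit 606835), .ofNat (nat_lit 906223), .ofNat (nat_lit 617499), .ofNat (nat_lit 916886)⟩, ⟨.ofNat (nat_lit 246791), .ofNat (nat_lit 608692), .ofNat (nat_lit 289527), .ofNat (nat_lit 651380), .ofNat (nat_lit 254209), .ofNat (nat_lit 583853), .ofNat (nat_lit 296923), .ofNat (nat_lit 626519)⟩⟩, [⟨nat_lit 16, nat_lit 100, nat_lit 92, nat_lit 75, nat_lit 304817259⟩, ⟨nat_lit 7, nat_lit 83, nat_lit 100, nat_lit 73, nat_lit 103237447⟩]⟩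
noncomputable def b_V_600_500_10_4 : St := ⟨true, nat_lit 0, nat_lit 1, nat_lit 1, nat_lit 80, nat_lit 240, nat_lit 280, nat_lit 200, nat_lit 240, nat_lit 240, nat_lit 400, nat_lit 40, nat_lit 80, nat_lit 0, nat_lit 336, nat_lit 0, nat_lit 360, nat_lit 0, nat_lit 32, nat_lit 0, nat_lit 0, nat_lit 0, nat_lit 0⟩
theorem d_V_600_500_10_4 (h : EB TB.env) : Dead b_V_600_500_10_4 := chkB_sound0 h (T :=
(.spl (nat_lit 4) (nat_lit 160)
(.spl (nat_lit 1) (nat_lit 220)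
(.leaf p042_l22)
(.trX (nat_lit 19) (nat_lit 100) (nat_lit 68) (nat_lit 80) (nat_lit 348) (.leaf p042_l23)))
(.spl (nat_lit 1) (nat_lit 220)
(.spl (nat_lit 6) (nat_lit 20)
(.spl (nat_lit 2) (nat_lit 320)
(.leaf p042_l24)
(.trZ (nat_lit 9) (nat_lit 100) (nat_lit 82) (nat_lit 44) (nat_lit 16) (.leaf p042_l25)))
(.leaf p042_l26))
(.trX (nat_lit 19) (nat_lit 100) (nat_lit 68) (nat_lit 80) (nat_lit 348) (.spl (nat_lit 1) (nat_lit 230)
(.leaf p042_l27)
(.trX (nat_lit 19) (nat_lit 100) (nat_lit 72) (nat_lit 81) (nat_lit 344) (.leaf p042_l28))))))) (by decide +kernel)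
noncomputable def p042_l29 : Lf2 := ⟨nat_lit 0, nat_lit 8, [nat_lit 50, nat_lit 5, nat_lit 5, nat_lit 20], true, nat_lit 0, nat_lit 336, nat_lit 0, nat_lit 360, ⟨nat_lit 0, nat_lit 1000, nat_lit 0, nat_lit 5, nat_lit 147, nat_lit 1000, nat_lit 124, nat_lit 0, nat_lit 0, nat_lit 0, nat_lit 0, nat_lit 0, nat_lit 0, nat_lit 0, nat_lit 0, nat_lit 5000000, false, false⟩,
 nat_lit 0, nat_lit 0, nat_lit 0, nat_lit 6871, nat_lit 6108, nat_lit 0, nat_lit 0, nat_lit 0, nat_lit 0, nat_lit 0, nat_lit 0, nat_lit 0, nat_lit 0, nat_lit 0, nat_lit 0, nat_lit 892600, nat_lit 0, nat_lit 0, [(nat_lit 6, [(nat_lit 1, nat_lit 179), (nat_lit 2, nat_lit 821)]), (nat_lit 9, [(nat_lit 1, nat_lit 179), (nat_lit 2, nat_lit 821)])],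
 ⟨p042_k12, nat_lit 0, nat_lit 0, nat_lit 299, nat_lit 0, nat_lit 0, [nat_lit 4070058401, nat_lit 1630723600], [], [nat_lit 24956493657, nat_lit 26785933348, nat_lit 23521054641, nat_lit 24761896609, nat_lit 27047322196, nat_lit 28776642105, nat_lit 25219931904, nat_lit 26366756823], nat_lit 0, nat_lit 0, nat_lit 0, nat_lit 0, nat_lit 0, nat_lit 0, [], [nat_lit 70, nat_lit 40, nat_lit 40, nat_lit 80, nat_lit 13, nat_lit 456, nat_lit 225, nat_lit 14]⟩, C1.Rw.none,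
 ⟨nat_lit 5477, nat_lit 6325, ⟨.ofNat (nat_lit 96904), .ofNat (nat_lit 582178), .ofNat (nat_lit 139640), .ofNat (nat_lit 624852), .ofNat (nat_lit 132827), .ofNat (nat_lit 574846), .ofNat (nat_lit 175541), .ofNat (nat_lit 617499)⟩, ⟨.negSucc (nat_lit 82265), .ofNat (nat_lit 608692), .negSucc (nat_lit 39529), .ofNat (nat_lit 651380), .negSucc (nat_lit 45522), .ofNat (nat_lit 583853), .negSucc (nat_lit 2808), .ofNat (nat_lit 626519)⟩⟩, [⟨nat_lit 0, nat_lit 100, nat_lit 96, nat_lit 40, nat_lit 25537748⟩, ⟨nat_lit 4, nat_lit 92, nat_lit 100, nat_lit 75, nat_lit 109779686⟩]⟩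
noncomputable def p042_l30 : Lf2 := ⟨nat_lit 0, nat_lit 8, [nat_lit 50, nat_lit 5, nat_lit 5, nat_lit 20], false, nat_lit 0, nat_lit 336, nat_lit 0, nat_lit 360, ⟨nat_lit 668, nat_lit 332, nat_lit 0, nat_lit 6, nat_lit 303, nat_lit 332, nat_lit 124, nat_lit 0, nat_lit 0, nat_lit 0, nat_lit 0, nat_lit 0, nat_lit 0, nat_lit 0, nat_lit 0, nat_lit 5000000, true, true⟩,
 nat_lit 0, nat_lit 0, nat_lit 0, nat_lit 16115, nat_lit 6006, nat_lit 5176, nat_lit 754, nat_lit 0, nat_lit 0, nat_lit 1079, nat_lit 0, nat_lit 0, nat_lit 0, nat_lit 0, nat_lit 0, nat_lit 332000, nat_lit 0, nat_lit 0, [(nat_lit 6, [(nat_lit 2, nat_lit 332)]), (nat_lit 9, [(nat_lit 2, nat_lit 332)])],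
 ⟨p042_k0, nat_lit 0, nat_lit 0, nat_lit 215, nat_lit 0, nat_lit 0, [nat_lit 4067558401, nat_lit 5231246934, nat_lit 6943696889], [], [nat_lit 24565503102, nat_lit 26543023294, nat_lit 35148919925, nat_lit 36400758637, nat_lit 27407254346, nat_lit 28424821578, nat_lit 33540129286, nat_lit 34245877452], nat_lit 0, nat_lit 0, nat_lit 0, nat_lit 0, nat_lit 0, nat_lit 0, [], [nat_lit 11, nat_lit 40, nat_lit 40, nat_lit 80, nat_lit 1, nat_lit 538, nat_lit 300, nat_lit 15]⟩, ⟨p042_k13, nat_lit 0, nat_lit 0, nat_lit 255, nat_lit 0, nat_lit 0, [nat_lit 4175000000, nat_lit 5322624000, nat_lit 7930496000], [], [nat_lit 19417692859, nat_lit 20297526603, nat_lit 26852368491, nat_lit 27266769611, nat_lit 20490176619, nat_lit 20804067731, nat_lit 24571685891, nat_lit 24572634208], nat_lit 0, nat_lit 0, nat_lit 0, nat_lit 0, nat_lit 0, nat_lit 0, [], [nat_lit 53, nat_lit 40, nat_lit 40, nat_lit 80, nat_lit 14, nat_lit 483,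 nat_lit 250, nat_lit 12]⟩,
 ⟨nat_lit 5477, nat_lit 6325, ⟨.ofNat (nat_lit 582178), .ofNat (nat_lit 910890), .ofNat (nat_lit 624852), .ofNat (nat_lit 953563), .ofNat (nat_lit 574846), .ofNat (nat_lit 874234), .ofNat (nat_lit 617499), .ofNat (nat_lit 916886)⟩, ⟨.negSucc (nat_lit 82265), .ofNat (nat_lit 608692), .negSucc (nat_lit 39529), .ofNat (nat_lit 651380), .negSucc (nat_lit 45522), .ofNat (nat_lit 583853), .negSucc (nat_lit 2808), .ofNat (nat_lit 626519)⟩⟩, [⟨nat_lit 16, nat_lit 100, nat_lit 92, nat_lit 75, nat_lit 152393680⟩, ⟨nat_lit 19, nat_lit 100, nat_lit 77, nat_lit 72, nat_lit 129227318⟩]⟩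
noncomputable def p042_l31 : Lf2 := ⟨nat_lit 0, nat_lit 8, [nat_lit 50, nat_lit 5, nat_lit 5, nat_lit 20], true, nat_lit 0, nat_lit 160, nat_lit 0, nat_lit 360, ⟨nat_lit 0, nat_lit 1000, nat_lit 0, nat_lit 5, nat_lit 210, nat_lit 540, nat_lit 54, nat_lit 0, nat_lit 0, nat_lit 0, nat_lit 0, nat_lit 0, nat_lit 0, nat_lit 0, nat_lit 0, nat_lit 5000000, false, true⟩,
 nat_lit 0, nat_lit 0, nat_lit 0, nat_lit 5731, nat_lit 5049, nat_lit 0, nat_lit 0, nat_lit 0, nat_lit 0, nat_lit 0, nat_lit 0, nat_lit 0, nat_lit 0, nat_lit 0, nat_lit 0, nat_lit 731800, nat_lit 0, nat_lit 0, [(nat_lit 6, [(nat_lit 1, nat_lit 447), (nat_lit 2, nat_lit 553)]), (nat_lit 9, [(nat_lit 1, nat_lit 447), (nat_lit 2, nat_lit 553)])],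
 ⟨p042_k12, nat_lit 0, nat_lit 0, nat_lit 299, nat_lit 0, nat_lit 0, [nat_lit 3767111201, nat_lit 2163614800], [], [nat_lit 26771676219, nat_lit 28424579291, nat_lit 32277384461, nat_lit 33230206184, nat_lit 24628689138, nat_lit 26028853875, nat_lit 29492144394, nat_lit 30276551634], nat_lit 0, nat_lit 0, nat_lit 0, nat_lit 0, nat_lit 0, nat_lit 0, [], [nat_lit 70, nat_lit 40, nat_lit 40, nat_lit 80, nat_lit 13, nat_lit 456, nat_lit 225, nat_lit 14]⟩, C1.Rw.none,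
 ⟨nat_lit 5477, nat_lit 6325, ⟨.ofNat (nat_lit 96904), .ofNat (nat_lit 910890), .ofNat (nat_lit 139640), .ofNat (nat_lit 953563), .ofNat (nat_lit 132827), .ofNat (nat_lit 874234), .ofNat (nat_lit 175541), .ofNat (nat_lit 916886)⟩, ⟨.negSucc (nat_lit 82265), .ofNat (nat_lit 246791), .negSucc (nat_lit 39529), .ofNat (nat_lit 289527), .negSucc (nat_lit 45522), .ofNat (nat_lit 254209), .negSucc (nat_lit 2808), .ofNat (nat_lit 296923)⟩⟩, [⟨nat_lit 13, nat_lit 96, nat_lit 20, nat_lit 100, nat_lit 51481921⟩]⟩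
noncomputable def p042_l32 : Lf2 := ⟨nat_lit 0, nat_lit 8, [nat_lit 50, nat_lit 5, nat_lit 5, nat_lit 20], true, nat_lit 160, nat_lit 336, nat_lit 0, nat_lit 360, ⟨nat_lit 0, nat_lit 1000, nat_lit 0, nat_lit 5, nat_lit 147, nat_lit 1000, nat_lit 178, nat_lit 0, nat_lit 0, nat_lit 0, nat_lit 0, nat_lit 0, nat_lit 0, nat_lit 0, nat_lit 0, nat_lit 5000000, false, false⟩,
 nat_lit 0, nat_lit 0, nat_lit 0, nat_lit 11297, nat_lit 5864, nat_lit 0, nat_lit 0, nat_lit 0, nat_lit 0, nat_lit 0, nat_lit 0, nat_lit 0, nat_lit 0, nat_lit 0, nat_lit 0, nat_lit 1000000, nat_lit 0, nat_lit 0, [(nat_lit 6, [(nat_lit 2, nat_lit 1000)]), (nat_lit 9, [(nat_lit 2, nat_lit 1000)])],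
 ⟨p042_k12, nat_lit 0, nat_lit 0, nat_lit 178, nat_lit 0, nat_lit 0, [nat_lit 4272400001, nat_lit 1274800000], [], [nat_lit 18714270766, nat_lit 21046237854, nat_lit 19010460417, nat_lit 20649809825, nat_lit 26713706356, nat_lit 28329580913, nat_lit 25069674402, nat_lit 26433650121], nat_lit 0, nat_lit 0, nat_lit 0, nat_lit 0, nat_lit 0, nat_lit 0, [], [nat_lit 70, nat_lit 40, nat_lit 40, nat_lit 80, nat_lit 13, nat_lit 456, nat_lit 225, nat_lit 13]⟩, C1.Rw.none,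
 ⟨nat_lit 5477, nat_lit 6325, ⟨.ofNat (nat_lit 96904), .ofNat (nat_lit 582178), .ofNat (nat_lit 139640), .ofNat (nat_lit 624852), .ofNat (nat_lit 132827), .ofNat (nat_lit 574846), .ofNat (nat_lit 175541), .ofNat (nat_lit 617499)⟩, ⟨.ofNat (nat_lit 246791), .ofNat (nat_lit 608692), .ofNat (nat_lit 289527), .ofNat (nat_lit 651380), .ofNat (nat_lit 254209), .ofNat (nat_lit 583853), .ofNat (nat_lit 296923), .ofNat (nat_lit 626519)⟩⟩, [⟨nat_lit 4, nat_lit 92, nat_lit 100, nat_lit 75, nat_lit 367376909⟩]⟩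
noncomputable def p042_l33 : Lf2 := ⟨nat_lit 0, nat_lit 8, [nat_lit 50, nat_lit 5, nat_lit 5, nat_lit 20], true, nat_lit 160, nat_lit 336, nat_lit 0, nat_lit 360, ⟨nat_lit 0, nat_lit 1000, nat_lit 0, nat_lit 6, nat_lit 303, nat_lit 1000, nat_lit 178, nat_lit 0, nat_lit 0, nat_lit 0, nat_lit 0, nat_lit 0, nat_lit 0, nat_lit 0, nat_lit 0, nat_lit 5000000, true, true⟩,
 nat_lit 0, nat_lit 0, nat_lit 0, nat_lit 9183, nat_lit 3845, nat_lit 0, nat_lit 0, nat_lit 0, nat_lit 0, nat_lit 0, nat_lit 0, nat_lit 0, nat_lit 0, nat_lit 0, nat_lit 0, nat_lit 400000, nat_lit 0, nat_lit 0, [(nat_lit 6, [(nat_lit 1, nat_lit 1000)]), (nat_lit 9, [(nat_lit 1, nat_lit 1000)])],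
 ⟨p042_k0, nat_lit 0, nat_lit 0, nat_lit 83, nat_lit 0, nat_lit 0, [nat_lit 2702720000, nat_lit 3151066667, nat_lit 3294533333], [], [nat_lit 16342907280, nat_lit 18493043900, nat_lit 26141558500, nat_lit 27459812180, nat_lit 23998930324, nat_lit 25424214800, nat_lit 30796401676, nat_lit 31685031257], nat_lit 0, nat_lit 0, nat_lit 0, nat_lit 0, nat_lit 0, nat_lit 0, [], [nat_lit 11, nat_lit 40, nat_lit 40, nat_lit 80, nat_lit 1, nat_lit 538, nat_lit 300, nat_lit 15]⟩, C1.Rw.none,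
 ⟨nat_lit 5477, nat_lit 6325, ⟨.ofNat (nat_lit 582178), .ofNat (nat_lit 910890), .ofNat (nat_lit 624852), .ofNat (nat_lit 953563), .ofNat (nat_lit 574846), .ofNat (nat_lit 874234), .ofNat (nat_lit 617499), .ofNat (nat_lit 916886)⟩, ⟨.ofNat (nat_lit 246791), .ofNat (nat_lit 608692), .ofNat (nat_lit 289527), .ofNat (nat_lit 651380), .ofNat (nat_lit 254209), .ofNat (nat_lit 583853), .ofNat (nat_lit 296923), .ofNat (nat_lit 626519)⟩⟩, [⟨nat_lit 13, nat_lit 96, nat_lit 20, nat_lit 100, nat_lit 219781128⟩, ⟨nat_lit 4, nat_lit 92, nat_lit 100, nat_lit 75, nat_lit 267829344⟩]⟩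
noncomputable def b_V_600_500_10_5 : St := ⟨true, nat_lit 0, nat_lit 2, nat_lit 2, nat_lit 80, nat_lit 240, nat_lit 280, nat_lit 200, nat_lit 240, nat_lit 4, nat_lit 400, nat_lit 40, nat_lit 80, nat_lit 0, nat_lit 336, nat_lit 0, nat_lit 360, nat_lit 0, nat_lit 32, nat_lit 0, nat_lit 0, nat_lit 0, nat_lit 0⟩
theorem d_V_600_500_10_5 (h : EB TB.env) : Dead b_V_600_500_10_5 := chkB_sound0 h (T :=
(.st (nat_lit 1)
(.spl (nat_lit 2) (nat_lit 240)
(.leaf p042_l29)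
(.leaf p042_l30))
(.spl (nat_lit 4) (nat_lit 160)
(.leaf p042_l31)
(.spl (nat_lit 2) (nat_lit 240)
(.leaf p042_l32)
(.leaf p042_l33))))) (by decide +kernel)
noncomputable def p042_l34 : Lf2 := ⟨nat_lit 0, nat_lit 4, [nat_lit 38, nat_lit 5, nat_lit 5, nat_lit 20], true, nat_lit 0, nat_lit 80, nat_lit 0, nat_lit 360, ⟨nat_lit 0, nat_lit 0, nat_lit 1000, nat_lit 5, nat_lit 80, nat_lit 0, nat_lit 21, nat_lit 638, nat_lit 1067, nat_lit 223, nat_lit 60000, nat_lit 275, nat_lit 64419784, nat_lit 0, nat_lit 0, nat_lit 815893, false, false⟩,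
 nat_lit 0, nat_lit 6831, nat_lit 0, nat_lit 3435, nat_lit 3616, nat_lit 0, nat_lit 861, nat_lit 0, nat_lit 0, nat_lit 0, nat_lit 0, nat_lit 0, nat_lit 0, nat_lit 0, nat_lit 80, nat_lit 1000000, nat_lit 0, nat_lit 0, [(nat_lit 6, [(nat_lit 6, nat_lit 1000)])],
 ⟨p042_k18, nat_lit 0, nat_lit 0, nat_lit 274, nat_lit 0, nat_lit 89198, [nat_lit 2257066667, nat_lit 1408000000, nat_lit 211200000], [], [nat_lit 12821161756, nat_lit 13308770596, nat_lit 11813326572, nat_lit 12275423356, nat_lit 11730376355, nat_lit 12191478160, nat_lit 10931942796, nat_lit 11367548412], nat_lit 1271250, nat_lit 1271250, nat_lit 21650, nat_lit 490000, nat_lit 0, nat_lit 490000, [nat_lit 1100000, nat_lit 1442500, nat_lit 1271250], [nat_lit 9, nat_lit 40, nat_lit 40, nat_lit 80, nat_lit 2, nat_lit 249, nat_lit 40, nat_lit 9]⟩, C1.Rw.none,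
 ⟨nat_lit 6123, nat_lit 6325, ⟨.ofNat (nat_lit 96904), .ofNat (nat_lit 253206), .ofNat (nat_lit 139640), .ofNat (nat_lit 295942), .ofNat (nat_lit 106133), .ofNat (nat_lit 258856), .ofNat (nat_lit 148829), .ofNat (nat_lit 301553)⟩, ⟨.negSucc (nat_lit 82265), .ofNat (nat_lit 82263), .negSucc (nat_lit 39529), .ofNat (nat_lit 124999), .negSucc (nat_lit 72689), .ofNat (nat_lit 88071), .negSucc (nat_lit 29993), .ofNat (nat_lit 130768)⟩⟩, [⟨nat_lit 0, nat_lit 100, nat_lit 99, nat_lit 45, nat_lit 160864727⟩]⟩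
noncomputable def p042_l35 : Lf2 := ⟨nat_lit 0, nat_lit 4, [nat_lit 38, nat_lit 5, nat_lit 5, nat_lit 20], true, nat_lit 0, nat_lit 80, nat_lit 0, nat_lit 360, ⟨nat_lit 0, nat_lit 0, nat_lit 1000, nat_lit 5, nat_lit 83, nat_lit 807, nat_lit 22, nat_lit 1000, nat_lit 1667, nat_lit 225, nat_lit 64067, nat_lit 277, nat_lit 64234656, nat_lit 0, nat_lit 0, nat_lit 859844, false, false⟩,
 nat_lit 0, nat_lit 6834, nat_lit 0, nat_lit 0, nat_lit 3796, nat_lit 0, nat_lit 255, nat_lit 0, nat_lit 0, nat_lit 0, nat_lit 0, nat_lit 0, nat_lit 0, nat_lit 0, nat_lit 80, nat_lit 1000000, nat_lit 0, nat_lit 0, [(nat_lit 6, [(nat_lit 6, nat_lit 1000)])],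
 ⟨p042_k19, nat_lit 0, nat_lit 0, nat_lit 277, nat_lit 0, nat_lit 141670, [nat_lit 2257066667, nat_lit 1408000000, nat_lit 211200000], [], [nat_lit 14066968497, nat_lit 14607707845, nat_lit 14627889783, nat_lit 13682142955, nat_lit 14666265399, nat_lit 13721859319, nat_lit 16542140391, nat_lit 15622828907], nat_lit 1271250, nat_lit 1271250, nat_lit 21650, nat_lit 490000, nat_lit 0, nat_lit 490000, [nat_lit 1100000, nat_lit 1442500, nat_lit 1271250], [nat_lit 9, nat_lit 40, nat_lit 40, nat_lit 80, nat_lit 2, nat_lit 249, nat_lit 40, nat_lit 9]⟩, C1.Rw.none,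
 ⟨nat_lit 5916, nat_lit 6124, ⟨.ofNat (nat_lit 106133), .ofNat (nat_lit 258856), .ofNat (nat_lit 148829), .ofNat (nat_lit 301553), .ofNat (nat_lit 115184), .ofNat (nat_lit 264398), .ofNat (nat_lit 157863), .ofNat (nat_lit 307076)⟩, ⟨.negSucc (nat_lit 72689), .ofNat (nat_lit 88071), .negSucc (nat_lit 29993), .ofNat (nat_lit 130768), .negSucc (nat_lit 63383), .ofNat (nat_lit 93684), .negSucc (nat_lit 20704), .ofNat (nat_lit 136362)⟩⟩, []⟩
noncomputable def p042_l36 : Lf2 := ⟨nat_lit 1, nat_lit 8, [nat_lit 50, nat_lit 5, nat_lit 5, nat_lit 20], false, nat_lit 0, nat_lit 80, nat_lit 0, nat_lit 360, zbN0,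
 nat_lit 0, nat_lit 0, nat_lit 0, nat_lit 0, nat_lit 0, nat_lit 0, nat_lit 0, nat_lit 0, nat_lit 0, nat_lit 0, nat_lit 0, nat_lit 0, nat_lit 0, nat_lit 0, nat_lit 0, nat_lit 0, nat_lit 0, nat_lit 0, [],
 C1.Rw.none, C1.Rw.none,
 zbF0, []⟩
noncomputable def p042_l37 : Lf2 := ⟨nat_lit 0, nat_lit 8, [nat_lit 50, nat_lit 5, nat_lit 5, nat_lit 20], true, nat_lit 0, nat_lit 80, nat_lit 0, nat_lit 360, ⟨nat_lit 0, nat_lit 0, nat_lit 1000, nat_lit 5, nat_lit 89, nat_lit 0, nat_lit 24, nat_lit 700, nat_lit 2817, nat_lit 228, nat_lit 74817, nat_lit 282, nat_lit 63850725, nat_lit 0, nat_lit 0, nat_lit 947978, false, false⟩,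
 nat_lit 0, nat_lit 6362, nat_lit 0, nat_lit 0, nat_lit 3703, nat_lit 0, nat_lit 12, nat_lit 0, nat_lit 0, nat_lit 0, nat_lit 0, nat_lit 0, nat_lit 0, nat_lit 0, nat_lit 192, nat_lit 1000000, nat_lit 0, nat_lit 0, [(nat_lit 9, [(nat_lit 6, nat_lit 1000)])],
 ⟨p042_k20, nat_lit 0, nat_lit 0, nat_lit 433, nat_lit 0, nat_lit 264708, [nat_lit 4169600001, nat_lit 3411333334, nat_lit 231866666], [], [nat_lit 14828276386, nat_lit 16063859732, nat_lit 13990517171, nat_lit 15158910003, nat_lit 13826007959, nat_lit 14988842361, nat_lit 15651254239, nat_lit 14298118619], nat_lit 1271250, nat_lit 1271250, nat_lit 43600, nat_lit 490000, nat_lit 0, nat_lit 490000, [nat_lit 1100000, nat_lit 1442500, nat_lit 1271250], [nat_lit 11, nat_lit 40, nat_lit 40, nat_lit 80, nat_lit 1, nat_lit 345, nat_lit 125, nat_lit 10]⟩, C1.Rw.none,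
 ⟨nat_lit 5477, nat_lit 5917, ⟨.ofNat (nat_lit 123037), .ofNat (nat_lit 264398), .ofNat (nat_lit 165716), .ofNat (nat_lit 307076), .ofNat (nat_lit 140320), .ofNat (nat_lit 275199), .ofNat (nat_lit 183034), .ofNat (nat_lit 317913)⟩, ⟨.negSucc (nat_lit 63383), .ofNat (nat_lit 93684), .negSucc (nat_lit 20704), .ofNat (nat_lit 136362), .negSucc (nat_lit 45522), .ofNat (nat_lit 104343), .negSucc (nat_lit 2808), .ofNat (nat_lit 147057)⟩⟩, [⟨nat_lit 0, nat_lit 100, nat_lit 94, nat_lit 59, nat_lit 37047223⟩]⟩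
noncomputable def p042_l38 : Lf2 := ⟨nat_lit 0, nat_lit 5, [nat_lit 4, nat_lit 5, nat_lit 5, nat_lit 20], true, nat_lit 80, nat_lit 160, nat_lit 0, nat_lit 360, ⟨nat_lit 0, nat_lit 0, nat_lit 1000, nat_lit 5, nat_lit 80, nat_lit 1000, nat_lit 77, nat_lit 1000, nat_lit 56067, nat_lit 273, nat_lit 60000, nat_lit 275, nat_lit 61129306, nat_lit 0, nat_lit 0, nat_lit 1886343, false, false⟩,
 nat_lit 0, nat_lit 12377, nat_lit 0, nat_lit 0, nat_lit 6552, nat_lit 0, nat_lit 0, nat_lit 0, nat_lit 0, nat_lit 0, nat_lit 0, nat_lit 0, nat_lit 0, nat_lit 0, nat_lit 147, nat_lit 1000000, nat_lit 0, nat_lit 0, [(nat_lit 6, [(nat_lit 6, nat_lit 1000)]), (nat_lit 9, [(nat_lit 6, nat_lit 1000)])],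
 ⟨p042_k15, nat_lit 0, nat_lit 0, nat_lit 303, nat_lit 0, nat_lit 202504, [nat_lit 3449600001, nat_lit 3042400001, nat_lit 177599999], [], [nat_lit 12229660557, nat_lit 15458070567, nat_lit 14064018499, nat_lit 10706038239, nat_lit 17708309184, nat_lit 15767500608, nat_lit 19884277923, nat_lit 13709594499], nat_lit 1271250, nat_lit 1271250, nat_lit 21650, nat_lit 490000, nat_lit 490000, nat_lit 1100001, [nat_lit 1100000, nat_lit 1442500, nat_lit 1271250], [nat_lit 11, nat_lit 40, nat_lit 40, nat_lit 80, nat_lit 1, nat_lit 373, nat_lit 150, nat_lit 11]⟩, C1.Rw.none,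
 ⟨nat_lit 5477, nat_lit 6325, ⟨.ofNat (nat_lit 96904), .ofNat (nat_lit 253206), .ofNat (nat_lit 118272), .ofNat (nat_lit 274574), .ofNat (nat_lit 132827), .ofNat (nat_lit 275199), .ofNat (nat_lit 154184), .ofNat (nat_lit 296556)⟩, ⟨.ofNat (nat_lit 82263), .ofNat (nat_lit 246791), .ofNat (nat_lit 124999), .ofNat (nat_lit 289527), .ofNat (nat_lit 104343), .ofNat (nat_lit 254209), .ofNat (nat_lit 147057), .ofNat (nat_lit 296923)⟩⟩, []⟩
noncomputable def p042_l39 : Lf2 := ⟨nat_lit 1, nat_lit 8, [nat_lit 50, nat_lit 5, nat_lit 5, nat_lit 20], false, nat_lit 80, nat_lit 160, nat_lit 0, nat_lit 360, zbN0,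
 nat_lit 0, nat_lit 0, nat_lit 0, nat_lit 0, nat_lit 0, nat_lit 0, nat_lit 0, nat_lit 0, nat_lit 0, nat_lit 0, nat_lit 0, nat_lit 0, nat_lit 0, nat_lit 0, nat_lit 0, nat_lit 0, nat_lit 0, nat_lit 0, [],
 C1.Rw.none, C1.Rw.none,
 zbF0, []⟩
noncomputable def p042_l40 : Lf2 := ⟨nat_lit 0, nat_lit 2, [nat_lit 10, nat_lit 5, nat_lit 5, nat_lit 20], true, nat_lit 80, nat_lit 160, nat_lit 0, nat_lit 348, ⟨nat_lit 0, nat_lit 0, nat_lit 1000, nat_lit 5, nat_lit 84, nat_lit 1000, nat_lit 75, nat_lit 1000, nat_lit 52267, nat_lit 271, nat_lit 66150, nat_lit 278, nat_lit 61016561, nat_lit 0, nat_lit 0, nat_lit 1911802, false, false⟩,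
 nat_lit 0, nat_lit 8663, nat_lit 0, nat_lit 0, nat_lit 4586, nat_lit 0, nat_lit 0, nat_lit 0, nat_lit 0, nat_lit 0, nat_lit 0, nat_lit 0, nat_lit 0, nat_lit 0, nat_lit 41, nat_lit 400000, nat_lit 0, nat_lit 0, [(nat_lit 6, [(nat_lit 5, nat_lit 1000)])],
 ⟨p042_k6, nat_lit 0, nat_lit 0, nat_lit 228, nat_lit 0, nat_lit 37247, [nat_lit 2073600001, nat_lit 7600000], [], [nat_lit 9119073676, nat_lit 10169960959, nat_lit 7057690289, nat_lit 7924320101, nat_lit 10542050211, nat_lit 11355259299, nat_lit 8826703801, nat_lit 9598838475], nat_lit 1271250, nat_lit 1271250, nat_lit 43600, nat_lit 490000, nat_lit 490000, nat_lit 1100001, [nat_lit 1100000, nat_lit 1785000], [nat_lit 39, nat_lit 40, nat_lit 40, nat_lit 80, nat_lit 7, nat_lit 272, nat_lit 60, nat_lit 9]⟩, C1.Rw.none,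
 ⟨nat_lit 6123, nat_lit 6325, ⟨.ofNat (nat_lit 126498), .ofNat (nat_lit 274574), .ofNat (nat_lit 137182), .ofNat (nat_lit 285258), .ofNat (nat_lit 135519), .ofNat (nat_lit 280205), .ofNat (nat_lit 146193), .ofNat (nat_lit 290879)⟩, ⟨.ofNat (nat_lit 82263), .ofNat (nat_lit 246791), .ofNat (nat_lit 124999), .ofNat (nat_lit 289527), .ofNat (nat_lit 88071), .ofNat (nat_lit 248833), .ofNat (nat_lit 130768), .ofNat (nat_lit 291529)⟩⟩, [⟨nat_lit 0, nat_lit 100, nat_lit 98, nat_lit 40, nat_lit 233712962⟩]⟩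
noncomputable def p042_l41 : Lf2 := ⟨nat_lit 0, nat_lit 2, [nat_lit 10, nat_lit 5, nat_lit 5, nat_lit 20], true, nat_lit 80, nat_lit 160, nat_lit 0, nat_lit 348, ⟨nat_lit 0, nat_lit 0, nat_lit 1000, nat_lit 5, nat_lit 88, nat_lit 1000, nat_lit 77, nat_lit 1000, nat_lit 54150, nat_lit 272, nat_lit 72600, nat_lit 281, nat_lit 60599263, nat_lit 0, nat_lit 0, nat_lit 2009632, false, false⟩,
 nat_lit 0, nat_lit 8912, nat_lit 0, nat_lit 0, nat_lit 4951, nat_lit 0, nat_lit 1728, nat_lit 0, nat_lit 0, nat_lit 0, nat_lit 0, nat_lit 0, nat_lit 0, nat_lit 0, nat_lit 41, nat_lit 400000, nat_lit 0, nat_lit 0, [(nat_lit 6, [(nat_lit 5, nat_lit 1000)])],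
 ⟨p042_k21, nat_lit 0, nat_lit 0, nat_lit 226, nat_lit 0, nat_lit 93474, [nat_lit 2073600001, nat_lit 7600000], [], [nat_lit 10164649776, nat_lit 11154572912, nat_lit 8606941377, nat_lit 9349210944, nat_lit 11467749217, nat_lit 12177965718, nat_lit 11185773176, nat_lit 10775655858], nat_lit 1271250, nat_lit 1271250, nat_lit 65850, nat_lit 490000, nat_lit 490000, nat_lit 1100001, [nat_lit 1100000, nat_lit 1785000], [nat_lit 39, nat_lit 40, nat_lit 40, nat_lit 80, nat_lit 7, nat_lit 272, nat_lit 60, nat_lit 9]⟩, C1.Rw.none,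
 ⟨nat_lit 5916, nat_lit 6124, ⟨.ofNat (nat_lit 143557), .ofNat (nat_lit 280205), .ofNat (nat_lit 154231), .ofNat (nat_lit 290879), .ofNat (nat_lit 152230), .ofNat (nat_lit 285737), .ofNat (nat_lit 162900), .ofNat (nat_lit 296407)⟩, ⟨.ofNat (nat_lit 88071), .ofNat (nat_lit 248833), .ofNat (nat_lit 130768), .ofNat (nat_lit 291529), .ofNat (nat_lit 93684), .ofNat (nat_lit 250751), .ofNat (nat_lit 136362), .ofNat (nat_lit 293429)⟩⟩, [⟨nat_lit 0, nat_lit 100, nat_lit 96, nat_lit 44, nat_lit 158248403⟩]⟩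
noncomputable def p042_l42 : Lf2 := ⟨nat_lit 1, nat_lit 6, [nat_lit 47, nat_lit 5, nat_lit 5, nat_lit 20], false, nat_lit 80, nat_lit 160, nat_lit 0, nat_lit 348, zbN0,
 nat_lit 0, nat_lit 0, nat_lit 0, nat_lit 0, nat_lit 0, nat_lit 0, nat_lit 0, nat_lit 0, nat_lit 0, nat_lit 0, nat_lit 0, nat_lit 0, nat_lit 0, nat_lit 0, nat_lit 0, nat_lit 0, nat_lit 0, nat_lit 0, [],
 C1.Rw.none, C1.Rw.none,
 zbF0, []⟩
noncomputable def p042_l43 : Lf2 := ⟨nat_lit 0, nat_lit 6, [nat_lit 47, nat_lit 5, nat_lit 5, nat_lit 20], true, nat_lit 80, nat_lit 160, nat_lit 0, nat_lit 348, ⟨nat_lit 0, nat_lit 0, nat_lit 1000, nat_lit 5, nat_lit 93, nat_lit 1000, nat_lit 78, nat_lit 1000, nat_lit 58017, nat_lit 274, nat_lit 79350, nat_lit 284, nat_lit 60184519, nat_lit 0, nat_lit 0, nat_lit 2104198, false, false⟩,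
 nat_lit 0, nat_lit 8167, nat_lit 0, nat_lit 0, nat_lit 4753, nat_lit 0, nat_lit 531, nat_lit 0, nat_lit 0, nat_lit 0, nat_lit 0, nat_lit 0, nat_lit 0, nat_lit 0, nat_lit 117, nat_lit 1000000, nat_lit 0, nat_lit 0, [(nat_lit 9, [(nat_lit 6, nat_lit 1000)])],
 ⟨p042_k22, nat_lit 0, nat_lit 0, nat_lit 223, nat_lit 0, nat_lit 154306, [nat_lit 3178400000, nat_lit 158133334], [], [nat_lit 10769343619, nat_lit 11840926761, nat_lit 9542404626, nat_lit 10282299347, nat_lit 12141261029, nat_lit 12835071199, nat_lit 10990705968, nat_lit 11648057984], nat_lit 1271250, nat_lit 1271250, nat_lit 88400, nat_lit 490000, nat_lit 490000, nat_lit 1100001, [nat_lit 1100000, nat_lit 1785000], [nat_lit 39, nat_lit 40, nat_lit 40, nat_lit 80, nat_lit 7, nat_lit 272, nat_lit 60, nat_lit 9]⟩, C1.Rw.none,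
 ⟨nat_lit 5700, nat_lit 5917, ⟨.ofNat (nat_lit 160083), .ofNat (nat_lit 285737), .ofNat (nat_lit 170753), .ofNat (nat_lit 296407), .ofNat (nat_lit 168433), .ofNat (nat_lit 291183), .ofNat (nat_lit 179104), .ofNat (nat_lit 301854)⟩, ⟨.ofNat (nat_lit 93684), .ofNat (nat_lit 250751), .ofNat (nat_lit 136362), .ofNat (nat_lit 293429), .ofNat (nat_lit 99106), .ofNat (nat_lit 252544), .ofNat (nat_lit 141790), .ofNat (nat_lit 295228)⟩⟩, [⟨nat_lit 0, nat_lit 100, nat_lit 95, nat_lit 49, nat_lit 203651077⟩]⟩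
noncomputable def p042_l44 : Lf2 := ⟨nat_lit 0, nat_lit 6, [nat_lit 47, nat_lit 5, nat_lit 5, nat_lit 20], true, nat_lit 80, nat_lit 160, nat_lit 0, nat_lit 348, ⟨nat_lit 0, nat_lit 0, nat_lit 1000, nat_lit 5, nat_lit 97, nat_lit 1000, nat_lit 80, nat_lit 1000, nat_lit 60000, nat_lit 275, nat_lit 88817, nat_lit 288, nat_lit 59773034, nat_lit 0, nat_lit 0, nat_lit 2195533, false, false⟩,
 nat_lit 0, nat_lit 7668, nat_lit 0, nat_lit 0, nat_lit 4669, nat_lit 0, nat_lit 0, nat_lit 0, nat_lit 0, nat_lit 0, nat_lit 0, nat_lit 0, nat_lit 0, nat_lit 0, nat_lit 117, nat_lit 1000000, nat_lit 0, nat_lit 0, [(nat_lit 9, [(nat_lit 6, nat_lit 1000)])],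
 ⟨p042_k23, nat_lit 0, nat_lit 0, nat_lit 220, nat_lit 0, nat_lit 206943, [nat_lit 3178400000, nat_lit 158133334], [], [nat_lit 11517771076, nat_lit 12577500400, nat_lit 10451668631, nat_lit 11184620164, nat_lit 12829169030, nat_lit 13515169724, nat_lit 11827790432, nat_lit 12479290000], nat_lit 1271250, nat_lit 1271250, nat_lit 111251, nat_lit 490000, nat_lit 490000, nat_lit 1100001, [nat_lit 1100000, nat_lit 1785000], [nat_lit 39, nat_lit 40, nat_lit 40, nat_lit 80, nat_lit 7, nat_lit 272, nat_lit 60, nat_lit 9]⟩, C1.Rw.none,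
 ⟨nat_lit 5477, nat_lit 5701, ⟨.ofNat (nat_lit 176105), .ofNat (nat_lit 291183), .ofNat (nat_lit 186776), .ofNat (nat_lit 301854), .ofNat (nat_lit 184157), .ofNat (nat_lit 296556), .ofNat (nat_lit 194835), .ofNat (nat_lit 307235)⟩, ⟨.ofNat (nat_lit 99106), .ofNat (nat_lit 252544), .ofNat (nat_lit 141790), .ofNat (nat_lit 295228), .ofNat (nat_lit 104343), .ofNat (nat_lit 254209), .ofNat (nat_lit 147057), .ofNat (nat_lit 296923)⟩⟩, [⟨nat_lit 0, nat_lit 100, nat_lit 93, nat_lit 54, nat_lit 197851310⟩]⟩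
noncomputable def p042_l45 : Lf2 := ⟨nat_lit 1, nat_lit 8, [nat_lit 50, nat_lit 5, nat_lit 5, nat_lit 20], false, nat_lit 80, nat_lit 160, nat_lit 0, nat_lit 348, zbN0,
 nat_lit 0, nat_lit 0, nat_lit 0, nat_lit 0, nat_lit 0, nat_lit 0, nat_lit 0, nat_lit 0, nat_lit 0, nat_lit 0, nat_lit 0, nat_lit 0, nat_lit 0, nat_lit 0, nat_lit 0, nat_lit 0, nat_lit 0, nat_lit 0, [],
 C1.Rw.none, C1.Rw.none,
 zbF0, []⟩
noncomputable def p042_l46 : Lf2 := ⟨nat_lit 0, nat_lit 1, [nat_lit 19, nat_lit 5, nat_lit 5, nat_lit 20], true, nat_lit 80, nat_lit 160, nat_lit 0, nat_lit 324, ⟨nat_lit 0, nat_lit 0, nat_lit 1000, nat_lit 5, nat_lit 91, nat_lit 1000, nat_lit 72, nat_lit 1000, nat_lit 48600, nat_lit 269, nat_lit 77067, nat_lit 283, nat_lit 60724213, nat_lit 0, nat_lit 0, nat_lit 1973558, false, false⟩,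
 nat_lit 0, nat_lit 8820, nat_lit 0, nat_lit 0, nat_lit 4669, nat_lit 0, nat_lit 0, nat_lit 0, nat_lit 0, nat_lit 0, nat_lit 0, nat_lit 0, nat_lit 0, nat_lit 0, nat_lit 10, nat_lit 1000000, nat_lit 0, nat_lit 0, [(nat_lit 6, [(nat_lit 6, nat_lit 1000)])],
 ⟨p042_k24, nat_lit 0, nat_lit 0, nat_lit 234, nat_lit 0, nat_lit 134221, [nat_lit 1137066667, nat_lit 8000000], [], [nat_lit 9415057161, nat_lit 11000637233, nat_lit 8152360387, nat_lit 9508080045, nat_lit 10816378275, nat_lit 12091164241, nat_lit 11579549291, nat_lit 10783714975], nat_lit 1271250, nat_lit 1271250, nat_lit 65850, nat_lit 490000, nat_lit 490000, nat_lit 1100001, [nat_lit 1100000, nat_lit 1442500], [nat_lit 31, nat_lit 40, nat_lit 40, nat_lit 80, nat_lit 3, nat_lit 272, nat_lit 60, nat_lit 11]⟩, C1.Rw.none,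
 ⟨nat_lit 5916, nat_lit 6325, ⟨.ofNat (nat_lit 145408), .ofNat (nat_lit 285258), .ofNat (nat_lit 156092), .ofNat (nat_lit 295942), .ofNat (nat_lit 162900), .ofNat (nat_lit 296407), .ofNat (nat_lit 173569), .ofNat (nat_lit 307076)⟩, ⟨.ofNat (nat_lit 82263), .ofNat (nat_lit 246791), .ofNat (nat_lit 103631), .ofNat (nat_lit 268159), .ofNat (nat_lit 93684), .ofNat (nat_lit 250751), .ofNat (nat_lit 115023), .ofNat (nat_lit 272090)⟩⟩, [⟨nat_lit 0, nat_lit 100, nat_lit 97, nat_lit 49, nat_lit 122597314⟩]⟩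
noncomputable def p042_l47 : Lf2 := ⟨nat_lit 0, nat_lit 2, [nat_lit 10, nat_lit 5, nat_lit 5, nat_lit 20], true, nat_lit 80, nat_lit 160, nat_lit 0, nat_lit 324, ⟨nat_lit 0, nat_lit 0, nat_lit 1000, nat_lit 5, nat_lit 90, nat_lit 1000, nat_lit 71, nat_lit 1000, nat_lit 46817, nat_lit 268, nat_lit 74817, nat_lit 282, nat_lit 60874806, nat_lit 0, nat_lit 0, nat_lit 1938358, false, false⟩,
 nat_lit 0, nat_lit 8774, nat_lit 0, nat_lit 0, nat_lit 4644, nat_lit 0, nat_lit 0, nat_lit 0, nat_lit 0, nat_lit 0, nat_lit 0, nat_lit 0, nat_lit 0, nat_lit 0, nat_lit 41, nat_lit 400000, nat_lit 0, nat_lit 0, [(nat_lit 6, [(nat_lit 5, nat_lit 1000)])],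
 ⟨p042_k6, nat_lit 0, nat_lit 0, nat_lit 226, nat_lit 0, nat_lit 28278, [nat_lit 2073600001, nat_lit 7600000], [], [nat_lit 8871275076, nat_lit 9929132764, nat_lit 6970087553, nat_lit 7842792401, nat_lit 10310264811, nat_lit 11127568114, nat_lit 8734269201, nat_lit 9511589597], nat_lit 1271250, nat_lit 1271250, nat_lit 65850, nat_lit 490000, nat_lit 490000, nat_lit 1100001, [nat_lit 1100000, nat_lit 1785000], [nat_lit 39, nat_lit 40, nat_lit 40, nat_lit 80, nat_lit 7, nat_lit 272, nat_lit 60, nat_lit 9]⟩, C1.Rw.none,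
 ⟨nat_lit 6123, nat_lit 6325, ⟨.ofNat (nat_lit 145408), .ofNat (nat_lit 285258), .ofNat (nat_lit 156092), .ofNat (nat_lit 295942), .ofNat (nat_lit 154231), .ofNat (nat_lit 290879), .ofNat (nat_lit 164905), .ofNat (nat_lit 301553)⟩, ⟨.ofNat (nat_lit 82263), .ofNat (nat_lit 246791), .ofNat (nat_lit 103631), .ofNat (nat_lit 268159), .ofNat (nat_lit 88071), .ofNat (nat_lit 248833), .ofNat (nat_lit 109420), .ofNat (nat_lit 270181)⟩⟩, [⟨nat_lit 0, nat_lit 100, nat_lit 99, nat_lit 45, nat_lit 231445823⟩]⟩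
noncomputable def p042_l48 : Lf2 := ⟨nat_lit 0, nat_lit 2, [nat_lit 10, nat_lit 5, nat_lit 5, nat_lit 20], true, nat_lit 80, nat_lit 160, nat_lit 0, nat_lit 324, ⟨nat_lit 0, nat_lit 0, nat_lit 1000, nat_lit 5, nat_lit 94, nat_lit 1000, nat_lit 72, nat_lit 1000, nat_lit 48600, nat_lit 269, nat_lit 84017, nat_lit 286, nat_lit 60451523, nat_lit 0, nat_lit 0, nat_lit 2035304, false, false⟩,
 nat_lit 0, nat_lit 8235, nat_lit 0, nat_lit 0, nat_lit 4575, nat_lit 0, nat_lit 0, nat_lit 0, nat_lit 0, nat_lit 0, nat_lit 0, nat_lit 0, nat_lit 0, nat_lit 0, nat_lit 41, nat_lit 400000, nat_lit 0, nat_lit 0, [(nat_lit 6, [(nat_lit 5, nat_lit 1000)])],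
 ⟨p042_k21, nat_lit 0, nat_lit 0, nat_lit 223, nat_lit 0, nat_lit 79085, [nat_lit 2073600001, nat_lit 7600000], [], [nat_lit 9636580275, nat_lit 10684572971, nat_lit 7939782251, nat_lit 8805259901, nat_lit 11012621476, nat_lit 11821935011, nat_lit 9615385676, nat_lit 10386536851], nat_lit 1271250, nat_lit 1271250, nat_lit 88400, nat_lit 490000, nat_lit 490000, nat_lit 1100001, [nat_lit 1100000, nat_lit 1785000], [nat_lit 39, nat_lit 40, nat_lit 40, nat_lit 80, nat_lit 7, nat_lit 272, nat_lit 60, nat_lit 9]⟩, C1.Rw.none,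
 ⟨nat_lit 5916, nat_lit 6124, ⟨.ofNat (nat_lit 162269), .ofNat (nat_lit 290879), .ofNat (nat_lit 172944), .ofNat (nat_lit 301553), .ofNat (nat_lit 170753), .ofNat (nat_lit 296407), .ofNat (nat_lit 181423), .ofNat (nat_lit 307076)⟩, ⟨.ofNat (nat_lit 88071), .ofNat (nat_lit 248833), .ofNat (nat_lit 109420), .ofNat (nat_lit 270181), .ofNat (nat_lit 93684), .ofNat (nat_lit 250751), .ofNat (nat_lit 115023), .ofNat (nat_lit 272090)⟩⟩, [⟨nat_lit 0, nat_lit 100, nat_lit 97, nat_lit 49, nat_lit 226150501⟩]⟩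
noncomputable def p042_l49 : Lf2 := ⟨nat_lit 0, nat_lit 4, [nat_lit 38, nat_lit 5, nat_lit 5, nat_lit 20], true, nat_lit 80, nat_lit 160, nat_lit 0, nat_lit 324, ⟨nat_lit 0, nat_lit 0, nat_lit 1000, nat_lit 5, nat_lit 91, nat_lit 1000, nat_lit 72, nat_lit 1000, nat_lit 48600, nat_lit 269, nat_lit 77067, nat_lit 283, nat_lit 60724213, nat_lit 0, nat_lit 0, nat_lit 1973558, false, false⟩,
 nat_lit 0, nat_lit 8534, nat_lit 0, nat_lit 0, nat_lit 4518, nat_lit 0, nat_lit 0, nat_lit 0, nat_lit 0, nat_lit 0, nat_lit 0, nat_lit 0, nat_lit 0, nat_lit 0, nat_lit 41, nat_lit 400000, nat_lit 0, nat_lit 0, [(nat_lit 6, [(nat_lit 5, nat_lit 1000)])],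
 ⟨p042_k25, nat_lit 0, nat_lit 0, nat_lit 226, nat_lit 0, nat_lit 40008, [nat_lit 2073600001, nat_lit 7600000], [], [nat_lit 8835901735, nat_lit 10918210682, nat_lit 7160396945, nat_lit 8879411657, nat_lit 10433548453, nat_lit 12044173578, nat_lit 8935075401, nat_lit 10467185125], nat_lit 1271250, nat_lit 1271250, nat_lit 65850, nat_lit 490000, nat_lit 490000, nat_lit 1100001, [nat_lit 1100000, nat_lit 1785000], [nat_lit 39, nat_lit 40, nat_lit 40, nat_lit 80, nat_lit 7, nat_lit 272, nat_lit 60, nat_lit 9]⟩, C1.Rw.none,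
 ⟨nat_lit 5916, nat_lit 6325, ⟨.ofNat (nat_lit 145408), .ofNat (nat_lit 285258), .ofNat (nat_lit 156092), .ofNat (nat_lit 295942), .ofNat (nat_lit 162900), .ofNat (nat_lit 296407), .ofNat (nat_lit 173569), .ofNat (nat_lit 307076)⟩, ⟨.ofNat (nat_lit 82263), .ofNat (nat_lit 246791), .ofNat (nat_lit 103631), .ofNat (nat_lit 268159), .ofNat (nat_lit 93684), .ofNat (nat_lit 250751), .ofNat (nat_lit 115023), .ofNat (nat_lit 272090)⟩⟩, [⟨nat_lit 0, nat_lit 100, nat_lit 97, nat_lit 49, nat_lit 228454538⟩]⟩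
noncomputable def p042_l50 : Lf2 := ⟨nat_lit 1, nat_lit 8, [nat_lit 50, nat_lit 5, nat_lit 5, nat_lit 20], false, nat_lit 80, nat_lit 160, nat_lit 0, nat_lit 324, zbN0,
 nat_lit 0, nat_lit 0, nat_lit 0, nat_lit 0, nat_lit 0, nat_lit 0, nat_lit 0, nat_lit 0, nat_lit 0, nat_lit 0, nat_lit 0, nat_lit 0, nat_lit 0, nat_lit 0, nat_lit 0, nat_lit 0, nat_lit 0, nat_lit 0, [],
 C1.Rw.none, C1.Rw.none,
 zbF0, []⟩
noncomputable def p042_l51 : Lf2 := ⟨nat_lit 0, nat_lit 8, [nat_lit 50, nat_lit 5, nat_lit 5, nat_lit 20], true, nat_lit 80, nat_lit 160, nat_lit 0, nat_lit 324, ⟨nat_lit 0, nat_lit 0, nat_lit 1000, nat_lit 5, nat_lit 100, nat_lit 1000, nat_lit 75, nat_lit 1000, nat_lit 52267, nat_lit 271, nat_lit 93750, nat_lit 290, nat_lit 59883907, nat_lit 0, nat_lit 0, nat_lit 2161619, false, false⟩,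
 nat_lit 0, nat_lit 9914, nat_lit 0, nat_lit 0, nat_lit 5770, nat_lit 0, nat_lit 600, nat_lit 0, nat_lit 0, nat_lit 0, nat_lit 0, nat_lit 0, nat_lit 0, nat_lit 0, nat_lit 192, nat_lit 1000000, nat_lit 0, nat_lit 0, [(nat_lit 9, [(nat_lit 6, nat_lit 1000)])],
 ⟨p042_k20, nat_lit 0, nat_lit 0, nat_lit 304, nat_lit 0, nat_lit 248653, [nat_lit 4169600001, nat_lit 3411333334, nat_lit 231866666], [], [nat_lit 10905717160, nat_lit 13316932000, nat_lit 10438354969, nat_lit 10217537880, nat_lit 13925156419, nat_lit 13966887440, nat_lit 15931058249, nat_lit 13212199629], nat_lit 1271250, nat_lit 1271250, nat_lit 111251, nat_lit 490000, nat_lit 490000, nat_lit 1100001, [nat_lit 1100000, nat_lit 1442500, nat_lit 1271250], [nat_lit 11, nat_lit 40, nat_lit 40, nat_lit 80, nat_lit 1, nat_lit 373, nat_lit 150, nat_lit 11]⟩, C1.Rw.none,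
 ⟨nat_lit 5477, nat_lit 5917, ⟨.ofNat (nat_lit 178606), .ofNat (nat_lit 296407), .ofNat (nat_lit 189276), .ofNat (nat_lit 307076), .ofNat (nat_lit 194835), .ofNat (nat_lit 307235), .ofNat (nat_lit 205514), .ofNat (nat_lit 317913)⟩, ⟨.ofNat (nat_lit 93684), .ofNat (nat_lit 250751), .ofNat (nat_lit 115023), .ofNat (nat_lit 272090), .ofNat (nat_lit 104343), .ofNat (nat_lit 254209), .ofNat (nat_lit 125700), .ofNat (nat_lit 275566)⟩⟩, []⟩
noncomputable def p042_l52 : Lf2 := ⟨nat_lit 0, nat_lit 8, [nat_lit 50, nat_lit 5, nat_lit 5, nat_lit 20], true, nat_lit 80, nat_lit 160, nat_lit 0, nat_lit 344, ⟨nat_lit 0, nat_lit 0, nat_lit 1000, nat_lit 5, nat_lit 94, nat_lit 1000, nat_lit 82, nat_lit 1000, nat_lit 62017, nat_lit 276, nat_lit 81667, nat_lit 285, nat_lit 59861245, nat_lit 0, nat_lit 0, nat_lit 2179546, false, false⟩,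
 nat_lit 0, nat_lit 8835, nat_lit 0, nat_lit 0, nat_lit 4677, nat_lit 0, nat_lit 161, nat_lit 0, nat_lit 0, nat_lit 0, nat_lit 0, nat_lit 0, nat_lit 0, nat_lit 0, nat_lit 147, nat_lit 1000000, nat_lit 0, nat_lit 0, [(nat_lit 6, [(nat_lit 6, nat_lit 1000)]), (nat_lit 9, [(nat_lit 6, nat_lit 1000)])],
 ⟨p042_k0, nat_lit 0, nat_lit 0, nat_lit 235, nat_lit 0, nat_lit 153388, [nat_lit 3449600001, nat_lit 3042400001, nat_lit 177599999], [], [nat_lit 10499804130, nat_lit 13245844977, nat_lit 8611276434, nat_lit 11263920590, nat_lit 11348520157, nat_lit 14013399177, nat_lit 11979232194, nat_lit 12388938814], nat_lit 1271250, nat_lit 1271250, nat_lit 65850, nat_lit 490000, nat_lit 490000, nat_lit 1100001, [nat_lit 1100000, nat_lit 1442500, nat_lit 1271250], [nat_lit 11, nat_lit 40, nat_lit 40, nat_lit 80, nat_lit 1, nat_lit 373, nat_lit 150, nat_lit 11]⟩, C1.Rw.none,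
 ⟨nat_lit 5477, nat_lit 6325, ⟨.ofNat (nat_lit 145408), .ofNat (nat_lit 285258), .ofNat (nat_lit 156092), .ofNat (nat_lit 295942), .ofNat (nat_lit 179849), .ofNat (nat_lit 307235), .ofNat (nat_lit 190527), .ofNat (nat_lit 317913)⟩, ⟨.ofNat (nat_lit 103631), .ofNat (nat_lit 268159), .ofNat (nat_lit 124999), .ofNat (nat_lit 289527), .ofNat (nat_lit 125700), .ofNat (nat_lit 275566), .ofNat (nat_lit 147057), .ofNat (nat_lit 296923)⟩⟩, [⟨nat_lit 0, nat_lit 100, nat_lit 94, nat_lit 59, nat_lit 186502777⟩]⟩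
noncomputable def p042_l53 : Lf2 := ⟨nat_lit 0, nat_lit 8, [nat_lit 50, nat_lit 5, nat_lit 5, nat_lit 20], false, nat_lit 0, nat_lit 80, nat_lit 0, nat_lit 160, ⟨nat_lit 1000, nat_lit 0, nat_lit 0, nat_lit 0, nat_lit 0, nat_lit 0, nat_lit 0, nat_lit 0, nat_lit 0, nat_lit 0, nat_lit 0, nat_lit 0, nat_lit 0, nat_lit 0, nat_lit 0, nat_lit 0, false, false⟩,
 nat_lit 0, nat_lit 18711, nat_lit 0, nat_lit 8403, nat_lit 9905, nat_lit 11947, nat_lit 2471, nat_lit 0, nat_lit 0, nat_lit 4813, nat_lit 0, nat_lit 0, nat_lit 0, nat_lit 0, nat_lit 0, nat_lit 0, nat_lit 0, nat_lit 0, [],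
 ⟨p042_k0, nat_lit 0, nat_lit 0, nat_lit 471, nat_lit 0, nat_lit 523819, [nat_lit 4688000000, nat_lit 6250000000, nat_lit 9842000000], [], [nat_lit 28366735240, nat_lit 22092024620, nat_lit 29931748560, nat_lit 21634246520, nat_lit 24697304940, nat_lit 17205202580, nat_lit 32247417300, nat_lit 22912826440], nat_lit 1271250, nat_lit 1271250, nat_lit 490000, nat_lit 1100001, nat_lit 0, nat_lit 490000, [nat_lit 1100000, nat_lit 1442500, nat_lit 1271250], [nat_lit 11, nat_lit 40, nat_lit 40, nat_lit 80, nat_lit 1, nat_lit 373, nat_lit 150, nat_lit 11]⟩, ⟨p042_k13, nat_lit 0, nat_lit 0, nat_lit 215, nat_lit 0, nat_lit 0, [nat_lit 6250000000, nat_lit 7968000000, nat_lit 11872000000], [], [nat_lit 15259264481, nat_lit 18341579253, nat_lit 15013036340, nat_lit 18075879268, nat_lit 8465642520, nat_lit 11189603260, nat_lit 8348124916, nat_lit 10660635940], nat_lit 0, nat_lit 0, nat_lit 0, nat_lit 0, nat_lit 0, nat_lit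 0, [], [nat_lit 53, nat_lit 40, nat_lit 40, nat_lit 80, nat_lit 14, nat_lit 373, nat_lit 150, nat_lit 10]⟩,
 zbF0, []⟩
noncomputable def p042_l54 : Lf2 := ⟨nat_lit 0, nat_lit 8, [nat_lit 50, nat_lit 5, nat_lit 5, nat_lit 20], false, nat_lit 0, nat_lit 80, nat_lit 160, nat_lit 360, ⟨nat_lit 1000, nat_lit 0, nat_lit 0, nat_lit 0, nat_lit 0, nat_lit 0, nat_lit 0, nat_lit 0, nat_lit 0, nat_lit 0, nat_lit 0, nat_lit 0, nat_lit 0, nat_lit 0, nat_lit 0, nat_lit 0, false, false⟩,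
 nat_lit 0, nat_lit 20467, nat_lit 0, nat_lit 0, nat_lit 10835, nat_lit 8175, nat_lit 2122, nat_lit 0, nat_lit 0, nat_lit 0, nat_lit 0, nat_lit 0, nat_lit 0, nat_lit 0, nat_lit 0, nat_lit 0, nat_lit 0, nat_lit 0, [],
 ⟨p042_k0, nat_lit 0, nat_lit 0, nat_lit 330, nat_lit 0, nat_lit 278459, [nat_lit 4688000000, nat_lit 6250000000, nat_lit 9842000000], [], [nat_lit 27831806680, nat_lit 22275750860, nat_lit 28921351920, nat_lit 23673332990, nat_lit 23240504580, nat_lit 17992485650, nat_lit 31270415100, nat_lit 26164898090], nat_lit 1271250, nat_lit 1271250, nat_lit 490000, nat_lit 1100001, nat_lit 0, nat_lit 490000, [nat_lit 1100000, nat_lit 1442500, nat_lit 1271250], [nat_lit 11, nat_lit 40, nat_lit 40, nat_lit 80, nat_lit 1, nat_lit 345, nat_lit 125, nat_lit 10]⟩, ⟨p042_k13, nat_lit 0, nat_lit 0, nat_lit 96, nat_lit 0, nat_lit 0, [nat_lit 6250000000, nat_lit 7968000000, nat_lit 11872000000], [], [nat_lit 6808000300,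 nat_lit 10166660800, nat_lit 8153956700, nat_lit 11088894600, nat_lit 24634888100, nat_lit 26191043600, nat_lit 23824036050, nat_lit 25178359300], nat_lit 0, nat_lit 0, nat_lit 0, nat_lit 0, nat_lit 0, nat_lit 0, [], [nat_lit 53, nat_lit 40, nat_lit 40, nat_lit 80, nat_lit 14, nat_lit 428, nat_lit 200, nat_lit 11]⟩,
 zbF0, [⟨nat_lit 7, nat_lit 77, nat_lit 100, nat_lit 72, nat_lit 881771380⟩]⟩
noncomputable def p042_l55 : Lf2 := ⟨nat_lit 0, nat_lit 8, [nat_lit 50, nat_lit 5, nat_lit 5, nat_lit 20], false, nat_lit 0, nat_lit 80, nat_lit 160, nat_lit 360, ⟨nat_lit 1000, nat_lit 0, nat_lit 0, nat_lit 0, nat_lit 0, nat_lit 0, nat_lit 0, nat_lit 0, nat_lit 0, nat_lit 0, nat_lit 0, nat_lit 0, nat_lit 0, nat_lit 0, nat_lit 0, nat_lit 0, false, false⟩,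
 nat_lit 0, nat_lit 16309, nat_lit 0, nat_lit 883, nat_lit 9493, nat_lit 8520, nat_lit 2767, nat_lit 0, nat_lit 0, nat_lit 0, nat_lit 0, nat_lit 0, nat_lit 0, nat_lit 0, nat_lit 0, nat_lit 0, nat_lit 0, nat_lit 0, [],
 ⟨p042_k20, nat_lit 0, nat_lit 0, nat_lit 446, nat_lit 0, nat_lit 457369, [nat_lit 4688000000, nat_lit 6250000000, nat_lit 9842000000], [], [nat_lit 23733254750, nat_lit 18862831185, nat_lit 21198510892, nat_lit 18299058216, nat_lit 16161828920, nat_lit 12021349285, nat_lit 23624237472, nat_lit 19151078914], nat_lit 1271250, nat_lit 1271250, nat_lit 490000, nat_lit 1100001, nat_lit 0, nat_lit 490000, [nat_lit 1100000, nat_lit 1442500, nat_lit 1271250], [nat_lit 11, nat_lit 40, nat_lit 40, nat_lit 80, nat_lit 1, nat_lit 373, nat_lit 150, nat_lit 11]⟩, ⟨p042_k13, nat_lit 0, nat_lit 0, nat_lit 96, nat_lit 0, nat_lit 0, [nat_lit 6250000000, nat_lit 7968000000, nat_lit 11872000000], [], [nat_lit 6215633920,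 nat_lit 9659571520, nat_lit 7530805280, nat_lit 10536339840, nat_lit 24514225040, nat_lit 26521142000, nat_lit 23597373120, nat_lit 25177236000], nat_lit 0, nat_lit 0, nat_lit 0, nat_lit 0, nat_lit 0, nat_lit 0, [], [nat_lit 53, nat_lit 40, nat_lit 40, nat_lit 80, nat_lit 14, nat_lit 428, nat_lit 200, nat_lit 11]⟩,
 zbF0, [⟨nat_lit 19, nat_lit 100, nat_lit 77, nat_lit 72, nat_lit 910889047⟩]⟩
noncomputable def p042_l56 : Lf2 := ⟨nat_lit 0, nat_lit 8, [nat_lit 50, nat_lit 5, nat_lit 5, nat_lit 20], false, nat_lit 80, nat_lit 160, nat_lit 0, nat_lit 160, ⟨nat_lit 1000, nat_lit 0, nat_lit 0, nat_lit 0, nat_lit 0, nat_lit 0, nat_lit 0, nat_lit 0, nat_lit 0, nat_lit 0, nat_lit 0, nat_lit 0, nat_lit 0, nat_lit 0, nat_lit 0, nat_lit 0, false, false⟩,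
 nat_lit 0, nat_lit 12410, nat_lit 0, nat_lit 17877, nat_lit 6569, nat_lit 11947, nat_lit 1884, nat_lit 0, nat_lit 0, nat_lit 4813, nat_lit 0, nat_lit 0, nat_lit 0, nat_lit 0, nat_lit 0, nat_lit 0, nat_lit 0, nat_lit 0, [],
 ⟨p042_k0, nat_lit 0, nat_lit 0, nat_lit 364, nat_lit 0, nat_lit 523819, [nat_lit 4688000000, nat_lit 6250000000, nat_lit 9842000000], [], [nat_lit 34001557116, nat_lit 27159575752, nat_lit 30096353684, nat_lit 24507878012, nat_lit 30096353684, nat_lit 24507878012, nat_lit 36098174588, nat_lit 29990292112], nat_lit 1271250, nat_lit 1271250, nat_lit 490000, nat_lit 1100001, nat_lit 490000, nat_lit 1100001, [nat_lit 1100000, nat_lit 1442500, nat_lit 1271250], [nat_lit 11, nat_lit 40, nat_lit 40, nat_lit 80, nat_lit 1, nat_lit 373, nat_lit 150, nat_lit 11]⟩, ⟨p042_k13, nat_lit 0, nat_lit 0, nat_lit 215, nat_lit 0, nat_lit 0, [nat_lit 6250000000, nat_lit 7968000000, nat_lit 11872000000], [],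 [nat_lit 15259264481, nat_lit 18341579253, nat_lit 15013036340, nat_lit 18075879268, nat_lit 8465642520, nat_lit 11189603260, nat_lit 8348124916, nat_lit 10660635940], nat_lit 0, nat_lit 0, nat_lit 0, nat_lit 0, nat_lit 0, nat_lit 0, [], [nat_lit 53, nat_lit 40, nat_lit 40, nat_lit 80, nat_lit 14, nat_lit 373, nat_lit 150, nat_lit 10]⟩,
 zbF0, []⟩
noncomputable def p042_l57 : Lf2 := ⟨nat_lit 0, nat_lit 5, [nat_lit 4, nat_lit 5, nat_lit 5, nat_lit 20], true, nat_lit 80, nat_lit 160, nat_lit 160, nat_lit 344, ⟨nat_lit 0, nat_lit 0, nat_lit 1000, nat_lit 5, nat_lit 140, nat_lit 1000, nat_lit 72, nat_lit 1000, nat_lit 48600, nat_lit 269, nat_lit 183750, nat_lit 320, nat_lit 56711717, nat_lit 0, nat_lit 0, nat_lit 2726886, false, false⟩,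
 nat_lit 0, nat_lit 15780, nat_lit 0, nat_lit 0, nat_lit 8353, nat_lit 0, nat_lit 0, nat_lit 0, nat_lit 0, nat_lit 0, nat_lit 0, nat_lit 0, nat_lit 0, nat_lit 0, nat_lit 147, nat_lit 1000000, nat_lit 0, nat_lit 0, [(nat_lit 6, [(nat_lit 6, nat_lit 1000)])],
 ⟨p042_k15, nat_lit 0, nat_lit 0, nat_lit 197, nat_lit 0, nat_lit 96479, [nat_lit 3329066667, nat_lit 3042400001, nat_lit 177599999], [], [nat_lit 4080962424, nat_lit 7079049378, nat_lit 5239949056, nat_lit 7905063570, nat_lit 5239949056, nat_lit 7905063570, nat_lit 6370679532, nat_lit 8723719966], nat_lit 1271250, nat_lit 1271250, nat_lit 490000, nat_lit 1100001, nat_lit 490000, nat_lit 1100001, [nat_lit 1100000, nat_lit 1442500, nat_lit 1271250], [nat_lit 11, nat_lit 40, nat_lit 40, nat_lit 80, nat_lit 1, nat_lit 373, nat_lit 150, nat_lit 11]⟩, C1.Rw.none,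
 ⟨nat_lit 5916, nat_lit 6325, ⟨.ofNat (nat_lit 253206), .ofNat (nat_lit 417734), .ofNat (nat_lit 274574), .ofNat (nat_lit 439102), .ofNat (nat_lit 264398), .ofNat (nat_lit 421465), .ofNat (nat_lit 285737), .ofNat (nat_lit 442804)⟩, ⟨.ofNat (nat_lit 82263), .ofNat (nat_lit 246791), .ofNat (nat_lit 103631), .ofNat (nat_lit 268159), .ofNat (nat_lit 93684), .ofNat (nat_lit 250751), .ofNat (nat_lit 115023), .ofNat (nat_lit 272090)⟩⟩, []⟩
noncomputable def p042_l58 : Lf2 := ⟨nat_lit 0, nat_lit 5, [nat_lit 4, nat_lit 5, nat_lit 5, nat_lit 20], false, nat_lit 80, nat_lit 160, nat_lit 160, nat_lit 344, ⟨nat_lit 1000, nat_lit 0, nat_lit 0, nat_lit 0, nat_lit 0, nat_lit 0, nat_lit 0, nat_lit 0, nat_lit 0, nat_lit 0, nat_lit 0, nat_lit 0, nat_lit 0, nat_lit 0, nat_lit 0, nat_lit 0, false, false⟩,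
 nat_lit 0, nat_lit 8554, nat_lit 0, nat_lit 13470, nat_lit 4979, nat_lit 9016, nat_lit 4340, nat_lit 0, nat_lit 0, nat_lit 0, nat_lit 0, nat_lit 0, nat_lit 0, nat_lit 0, nat_lit 0, nat_lit 0, nat_lit 0, nat_lit 0, [],
 ⟨p042_k26, nat_lit 0, nat_lit 0, nat_lit 202, nat_lit 0, nat_lit 293870, [nat_lit 4688000000, nat_lit 6250000000, nat_lit 7968000000], [], [nat_lit 27073022194, nat_lit 24480068532, nat_lit 20789598650, nat_lit 21824660988, nat_lit 20789598650, nat_lit 21824660988, nat_lit 21647838938, nat_lit 22568089620], nat_lit 1271250, nat_lit 1271250, nat_lit 490000, nat_lit 1100001, nat_lit 490000, nat_lit 1100001, [nat_lit 1100000, nat_lit 1442500, nat_lit 1271250], [nat_lit 9, nat_lit 40, nat_lit 40, nat_lit 80, nat_lit 2, nat_lit 317, nat_lit 100, nat_lit 10]⟩, ⟨p042_k16, nat_lit 0, nat_lit 0, nat_lit 77, nat_lit 0, nat_lit 0, [nat_lit 6250000000, nat_lit 7968000000, nat_lit 11872000000], [], [nat_lit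 5363999936, nat_lit 7147269376, nat_lit 6634912224, nat_lit 8188427248, nat_lit 22337744420, nat_lit 23480755813, nat_lit 21494943213, nat_lit 22350670954], nat_lit 0, nat_lit 0, nat_lit 0, nat_lit 0, nat_lit 0, nat_lit 0, [], [nat_lit 53, nat_lit 40, nat_lit 40, nat_lit 80, nat_lit 14, nat_lit 428, nat_lit 200, nat_lit 11]⟩,
 zbF0, [⟨nat_lit 7, nat_lit 78, nat_lit 100, nat_lit 66, nat_lit 1021571171⟩]⟩
noncomputable def p042_l59 : Lf2 := ⟨nat_lit 1, nat_lit 8, [nat_lit 50, nat_lit 5, nat_lit 5, nat_lit 20], false, nat_lit 80, nat_lit 160, nat_lit 160, nat_lit 344, zbN0,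
 nat_lit 0, nat_lit 0, nat_lit 0, nat_lit 0, nat_lit 0, nat_lit 0, nat_lit 0, nat_lit 0, nat_lit 0, nat_lit 0, nat_lit 0, nat_lit 0, nat_lit 0, nat_lit 0, nat_lit 0, nat_lit 0, nat_lit 0, nat_lit 0, [],
 C1.Rw.none, C1.Rw.none,
 zbF0, []⟩
noncomputable def p042_l60 : Lf2 := ⟨nat_lit 3, nat_lit 8, [nat_lit 50, nat_lit 5, nat_lit 5, nat_lit 20], false, nat_lit 80, nat_lit 160, nat_lit 160, nat_lit 240, zbN0,
 nat_lit 0, nat_lit 0, nat_lit 0, nat_lit 0, nat_lit 0, nat_lit 0, nat_lit 0, nat_lit 0, nat_lit 0, nat_lit 0, nat_lit 0, nat_lit 0, nat_lit 0, nat_lit 0, nat_lit 0, nat_lit 0, nat_lit 0, nat_lit 0, [],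
 C1.Rw.none, ⟨p042_k14, nat_lit 0, nat_lit 0, nat_lit 1, nat_lit 0, nat_lit 0, [], [], [], nat_lit 0, nat_lit 0, nat_lit 0, nat_lit 0, nat_lit 0, nat_lit 0, [], [nat_lit 53, nat_lit 40, nat_lit 40, nat_lit 80, nat_lit 14, nat_lit 401, nat_lit 175, nat_lit 10]⟩,
 zbF0, []⟩
noncomputable def p042_l61 : Lf2 := ⟨nat_lit 0, nat_lit 8, [nat_lit 50, nat_lit 5, nat_lit 5, nat_lit 20], false, nat_lit 80, nat_lit 160, nat_lit 240, nat_lit 332, ⟨nat_lit 1000, nat_lit 0, nat_lit 0, nat_lit 0, nat_lit 0, nat_lit 0, nat_lit 0, nat_lit 0, nat_lit 0, nat_lit 0, nat_lit 0, nat_lit 0, nat_lit 0, nat_lit 0, nat_lit 0, nat_lit 0, false, false⟩,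
 nat_lit 0, nat_lit 11709, nat_lit 0, nat_lit 6117, nat_lit 6198, nat_lit 9168, nat_lit 2079, nat_lit 0, nat_lit 0, nat_lit 0, nat_lit 0, nat_lit 0, nat_lit 0, nat_lit 0, nat_lit 0, nat_lit 0, nat_lit 0, nat_lit 0, [],
 ⟨p042_k0, nat_lit 0, nat_lit 0, nat_lit 322, nat_lit 0, nat_lit 419457, [nat_lit 4688000000, nat_lit 6250000000, nat_lit 9842000000], [], [nat_lit 33828536072, nat_lit 27372971984, nat_lit 30639929528, nat_lit 24719999126, nat_lit 30639929528, nat_lit 24719999126, nat_lit 36440588296, nat_lit 30677663104], nat_lit 1271250, nat_lit 1271250, nat_lit 490000, nat_lit 1100001, nat_lit 490000, nat_lit 1100001, [nat_lit 1100000, nat_lit 1442500, nat_lit 1271250], [nat_lit 11, nat_lit 40, nat_lit 40, nat_lit 80, nat_lit 1, nat_lit 373, nat_lit 150, nat_lit 11]⟩, ⟨p042_k14, nat_lit 0, nat_lit 0, nat_lit 66, nat_lit 0, nat_lit 0, [nat_lit 6250000000, nat_lit 7968000000, nat_lit 11872000000], [], [nat_lit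 12239178576, nat_lit 12959907752, nat_lit 12541788400, nat_lit 13167314120, nat_lit 21699008242, nat_lit 22319149667, nat_lit 20855822246, nat_lit 21281017718], nat_lit 0, nat_lit 0, nat_lit 0, nat_lit 0, nat_lit 0, nat_lit 0, [], [nat_lit 53, nat_lit 40, nat_lit 40, nat_lit 80, nat_lit 14, nat_lit 428, nat_lit 200, nat_lit 11]⟩,
 zbF0, [⟨nat_lit 19, nat_lit 100, nat_lit 83, nat_lit 67, nat_lit 1127780755⟩]⟩
noncomputable def p042_l62 : Lf2 := ⟨nat_lit 0, nat_lit 8, [nat_lit 50, nat_lit 5, nat_lit 5, nat_lit 20], false, nat_lit 80, nat_lit 160, nat_lit 240, nat_lit 324, ⟨nat_lit 1000, nat_lit 0, nat_lit 0, nat_lit 0, nat_lit 0, nat_lit 0, nat_lit 0, nat_lit 0, nat_lit 0, nat_lit 0, nat_lit 0, nat_lit 0, nat_lit 0, nat_lit 0, nat_lit 0, nat_lit 0, false, false⟩,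
 nat_lit 0, nat_lit 12100, nat_lit 0, nat_lit 3678, nat_lit 6405, nat_lit 9293, nat_lit 1948, nat_lit 0, nat_lit 0, nat_lit 0, nat_lit 0, nat_lit 0, nat_lit 0, nat_lit 0, nat_lit 0, nat_lit 0, nat_lit 0, nat_lit 0, [],
 ⟨p042_k0, nat_lit 0, nat_lit 0, nat_lit 356, nat_lit 0, nat_lit 504977, [nat_lit 4688000000, nat_lit 6250000000, nat_lit 9842000000], [], [nat_lit 33925073420, nat_lit 27253907240, nat_lit 30336640580, nat_lit 24599872360, nat_lit 30336640580, nat_lit 24599872360, nat_lit 36249538060, nat_lit 30294143440], nat_lit 1271250, nat_lit 1271250, nat_lit 490000, nat_lit 1100001, nat_lit 490000, nat_lit 1100001, [nat_lit 1100000, nat_lit 1442500, nat_lit 1271250], [nat_lit 11, nat_lit 40, nat_lit 40, nat_lit 80, nat_lit 1, nat_lit 373, nat_lit 150, nat_lit 11]⟩, ⟨p042_k17, nat_lit 0, nat_lit 0, nat_lit 60, nat_lit 0, nat_lit 0, [nat_lit 6250000000, nat_lit 7968000000, nat_lit 11872000000], [], [nat_lit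 12805509502, nat_lit 13531848928, nat_lit 12989950370, nat_lit 13620012340, nat_lit 21150365556, nat_lit 21804287094, nat_lit 20314720262, nat_lit 20790896891], nat_lit 0, nat_lit 0, nat_lit 0, nat_lit 0, nat_lit 0, nat_lit 0, [], [nat_lit 53, nat_lit 40, nat_lit 40, nat_lit 80, nat_lit 14, nat_lit 428, nat_lit 200, nat_lit 10]⟩,
 zbF0, [⟨nat_lit 19, nat_lit 100, nat_lit 87, nat_lit 67, nat_lit 1100652635⟩]⟩
noncomputable def p042_l63 : Lf2 := ⟨nat_lit 2, nat_lit 4, [nat_lit 38, nat_lit 5, nat_lit 5, nat_lit 20], true, nat_lit 80, nat_lit 160, nat_lit 160, nat_lit 360, zbN0,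
 nat_lit 0, nat_lit 0, nat_lit 0, nat_lit 0, nat_lit 0, nat_lit 0, nat_lit 0, nat_lit 0, nat_lit 0, nat_lit 0, nat_lit 0, nat_lit 0, nat_lit 0, nat_lit 0, nat_lit 0, nat_lit 0, nat_lit 0, nat_lit 0, [],
 ⟨p042_k18, nat_lit 0, nat_lit 0, nat_lit 193, nat_lit 0, nat_lit 41604, [], [], [], nat_lit 1271250, nat_lit 1271250, nat_lit 490000, nat_lit 1100001, nat_lit 490000, nat_lit 1100001, [nat_lit 1100000, nat_lit 1442500, nat_lit 1271250], [nat_lit 9, nat_lit 40, nat_lit 40, nat_lit 80, nat_lit 2, nat_lit 317, nat_lit 100, nat_lit 10]⟩, C1.Rw.none,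
 zbF0, []⟩
noncomputable def p042_l64 : Lf2 := ⟨nat_lit 0, nat_lit 4, [nat_lit 38, nat_lit 5, nat_lit 5, nat_lit 20], true, nat_lit 80, nat_lit 160, nat_lit 160, nat_lit 360, ⟨nat_lit 0, nat_lit 0, nat_lit 1000, nat_lit 5, nat_lit 147, nat_lit 1000, nat_lit 83, nat_lit 1000, nat_lit 64067, nat_lit 277, nat_lit 104024, nat_lit 294, nat_lit 55328231, nat_lit 0, nat_lit 0, nat_lit 3004235, false, false⟩,
 nat_lit 0, nat_lit 8007, nat_lit 0, nat_lit 0, nat_lit 4660, nat_lit 0, nat_lit 92, nat_lit 0, nat_lit 0, nat_lit 0, nat_lit 0, nat_lit 0, nat_lit 0, nat_lit 0, nat_lit 117, nat_lit 1000000, nat_lit 0, nat_lit 0, [(nat_lit 9, [(nat_lit 6, nat_lit 1000)])],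
 ⟨p042_k27, nat_lit 0, nat_lit 0, nat_lit 197, nat_lit 0, nat_lit 229030, [nat_lit 2969600000, nat_lit 1600000000, nat_lit 226400000], [], [nat_lit 9054233680, nat_lit 10376809540, nat_lit 10299283620, nat_lit 11504559460, nat_lit 10299283620, nat_lit 11504559460, nat_lit 13258497980, nat_lit 12740619360], nat_lit 1271250, nat_lit 1271250, nat_lit 490000, nat_lit 1100001, nat_lit 490000, nat_lit 1100001, [nat_lit 1100000, nat_lit 1442500, nat_lit 1271250], [nat_lit 9, nat_lit 40, nat_lit 40, nat_lit 80, nat_lit 2, nat_lit 317, nat_lit 100, nat_lit 10]⟩, C1.Rw.none,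
 ⟨nat_lit 5477, nat_lit 5917, ⟨.ofNat (nat_lit 264398), .ofNat (nat_lit 421465), .ofNat (nat_lit 307076), .ofNat (nat_lit 464143), .ofNat (nat_lit 275199), .ofNat (nat_lit 425065), .ofNat (nat_lit 317913), .ofNat (nat_lit 467780)⟩, ⟨.ofNat (nat_lit 115023), .ofNat (nat_lit 272090), .ofNat (nat_lit 136362), .ofNat (nat_lit 293429), .ofNat (nat_lit 125700), .ofNat (nat_lit 275566), .ofNat (nat_lit 147057), .ofNat (nat_lit 296923)⟩⟩, []⟩
noncomputable def p042_l65 : Lf2 := ⟨nat_lit 1, nat_lit 8, [nat_lit 50, nat_lit 5, nat_lit 5, nat_lit 20], false, nat_lit 80, nat_lit 160, nat_lit 160, nat_lit 360, zbN0,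
 nat_lit 0, nat_lit 0, nat_lit 0, nat_lit 0, nat_lit 0, nat_lit 0, nat_lit 0, nat_lit 0, nat_lit 0, nat_lit 0, nat_lit 0, nat_lit 0, nat_lit 0, nat_lit 0, nat_lit 0, nat_lit 0, nat_lit 0, nat_lit 0, [],
 C1.Rw.none, C1.Rw.none,
 zbF0, []⟩
noncomputable def b_V_600_500_10_6 : St := ⟨true, nat_lit 1, nat_lit 0, nat_lit 1, nat_lit 80, nat_lit 240, nat_lit 280, nat_lit 200, nat_lit 240, nat_lit 4, nat_lit 160, nat_lit 40, nat_lit 80, nat_lit 0, nat_lit 160, nat_lit 0, nat_lit 360, nat_lit 0, nat_lit 32, nat_lit 0, nat_lit 0, nat_lit 0, nat_lit 0⟩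
theorem d_V_600_500_10_6 (h : EB TB.env) : Dead b_V_600_500_10_6 := chkB_sound0 h (T :=
(.spl (nat_lit 2) (nat_lit 80)
(.spl (nat_lit 4) (nat_lit 80)
(.spl (nat_lit 0) (nat_lit 260)
(.spl (nat_lit 6) (nat_lit 16)
(.spl (nat_lit 0) (nat_lit 250)
(.leaf p042_l34)
(.leaf p042_l35))
(.leaf p042_l36))
(.trZ (nat_lit 0) (nat_lit 100) (nat_lit 95) (nat_lit 30) (nat_lit 8) (.leaf p042_l37)))
(.spl (nat_lit 1) (nat_lit 220)
(.spl (nat_lit 6) (nat_lit 20)
(.leaf p042_l38)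
(.leaf p042_l39))
(.trZ (nat_lit 0) (nat_lit 100) (nat_lit 98) (nat_lit 30) (nat_lit 8) (.trX (nat_lit 19) (nat_lit 100) (nat_lit 68) (nat_lit 80) (nat_lit 348) (.spl (nat_lit 1) (nat_lit 230)
(.spl (nat_lit 6) (nat_lit 24)
(.spl (nat_lit 0) (nat_lit 260)
(.spl (nat_lit 6) (nat_lit 8)
(.spl (nat_lit 0) (nat_lit 250)
(.leaf p042_l40)
(.trZ (nat_lit 0) (nat_lit 100) (nat_lit 97) (nat_lit 35) (nat_lit 12) (.leaf p042_l41)))
(.leaf p042_l42))
(.trZ (nat_lit 0) (nat_lit 100) (nat_lit 96) (nat_lit 40) (nat_lit 16) (.spl (nat_lit 0) (nat_lit 270)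
(.leaf p042_l43)
(.trZ (nat_lit 0) (nat_lit 100) (nat_lit 94) (nat_lit 44) (nat_lit 20) (.leaf p042_l44)))))
(.leaf p042_l45))
(.trZ (nat_lit 0) (nat_lit 100) (nat_lit 99) (nat_lit 35) (nat_lit 12) (.trX (nat_lit 19) (nat_lit 100) (nat_lit 72) (nat_lit 81) (nat_lit 344) (.spl (nat_lit 3) (nat_lit 60)
(.trX (nat_lit 19) (nat_lit 100) (nat_lit 81) (nat_lit 72) (nat_lit 324) (.spl (nat_lit 0) (nat_lit 260)
(.spl (nat_lit 6) (nat_lit 16)
(.spl (nat_lit 6) (nat_lit 8)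
(.spl (nat_lit 6) (nat_lit 4)
(.leaf p042_l46)
(.spl (nat_lit 0) (nat_lit 250)
(.leaf p042_l47)
(.trZ (nat_lit 0) (nat_lit 100) (nat_lit 98) (nat_lit 40) (nat_lit 16) (.leaf p042_l48))))
(.leaf p042_l49))
(.leaf p042_l50))
(.trZ (nat_lit 0) (nat_lit 100) (nat_lit 96) (nat_lit 44) (nat_lit 20) (.leaf p042_l51))))
(.leaf p042_l52)))))))))
(.spl (nat_lit 4) (nat_lit 80)
(.spl (nat_lit 5) (nat_lit 160)
(.leaf p042_l53)
(.spl (nat_lit 0) (nat_lit 260)
(.leaf p042_l54)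
(.leaf p042_l55)))
(.spl (nat_lit 5) (nat_lit 160)
(.leaf p042_l56)
(.spl (nat_lit 3) (nat_lit 60)
(.trX (nat_lit 19) (nat_lit 100) (nat_lit 70) (nat_lit 71) (nat_lit 344) (.spl (nat_lit 1) (nat_lit 220)
(.spl (nat_lit 6) (nat_lit 20)
(.spl (nat_lit 0) (nat_lit 260)
(.leaf p042_l57)
(.leaf p042_l58))
(.leaf p042_l59))
(.trX (nat_lit 19) (nat_lit 100) (nat_lit 77) (nat_lit 72) (nat_lit 332) (.spl (nat_lit 5) (nat_lit 240)
(.leaf p042_l60)
(.spl (nat_lit 1) (nat_lit 230)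
(.leaf p042_l61)
(.trX (nat_lit 19) (nat_lit 100) (nat_lit 81) (nat_lit 72) (nat_lit 324) (.leaf p042_l62)))))))
(.spl (nat_lit 6) (nat_lit 16)
(.spl (nat_lit 0) (nat_lit 260)
(.leaf p042_l63)
(.leaf p042_l64))
(.leaf p042_l65))))))) (by decide +kernel)
noncomputable def p042_l66 : Lf2 := ⟨nat_lit 0, nat_lit 8, [nat_lit 50, nat_lit 5, nat_lit 5, nat_lit 20], false, nat_lit 0, nat_lit 160, nat_lit 0, nat_lit 160, ⟨nat_lit 1000, nat_lit 0, nat_lit 0, nat_lit 0, nat_lit 0, nat_lit 0, nat_lit 0, nat_lit 0, nat_lit 0, nat_lit 0, nat_lit 0, nat_lit 0, nat_lit 0, nat_lit 0, nat_lit 0, nat_lit 0, false, false⟩,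
 nat_lit 0, nat_lit 13325, nat_lit 0, nat_lit 16816, nat_lit 7054, nat_lit 17049, nat_lit 1489, nat_lit 0, nat_lit 0, nat_lit 5368, nat_lit 0, nat_lit 0, nat_lit 0, nat_lit 0, nat_lit 0, nat_lit 0, nat_lit 0, nat_lit 1405774792, [],
 ⟨p042_k0, nat_lit 0, nat_lit 0, nat_lit 439, nat_lit 0, nat_lit 523819, [nat_lit 4688000000, nat_lit 6250000000, nat_lit 9842000000], [], [nat_lit 40125179360, nat_lit 32665743656, nat_lit 31655204564, nat_lit 32610225740, nat_lit 27033789820, nat_lit 27978380772, nat_lit 30979869144, nat_lit 28545890060], nat_lit 1271250, nat_lit 1271250, nat_lit 1100001, nat_lit 1785000, nat_lit 0, nat_lit 1100001, [nat_lit 1100000, nat_lit 1442500, nat_lit 1271250], [nat_lit 11, nat_lit 40, nat_lit 40, nat_lit 80, nat_lit 1, nat_lit 401, nat_lit 175, nat_lit 12]⟩, ⟨p042_k13, nat_lit 0, nat_lit 0, nat_lit 187, nat_lit 0, nat_lit 0, [nat_lit 6250000000, nat_lit 7968000000, nat_lit 11872000000],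 [], [nat_lit 13696548792, nat_lit 17037018212, nat_lit 19416843728, nat_lit 25366738488, nat_lit 0, nat_lit 4114073368, nat_lit 6020186412, nat_lit 9144852312], nat_lit 0, nat_lit 0, nat_lit 0, nat_lit 0, nat_lit 0, nat_lit 0, [], [nat_lit 53, nat_lit 40, nat_lit 40, nat_lit 80, nat_lit 14, nat_lit 401, nat_lit 175, nat_lit 10]⟩,
 zbF0, []⟩
noncomputable def p042_l67 : Lf2 := ⟨nat_lit 0, nat_lit 8, [nat_lit 50, nat_lit 5, nat_lit 5, nat_lit 20], false, nat_lit 0, nat_lit 160, nat_lit 160, nat_lit 360, ⟨nat_lit 1000, nat_lit 0, nat_lit 0, nat_lit 0, nat_lit 0, nat_lit 0, nat_lit 0, nat_lit 0, nat_lit 0, nat_lit 0, nat_lit 0, nat_lit 0, nat_lit 0, nat_lit 0, nat_lit 0, nat_lit 0, false, false⟩,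
 nat_lit 0, nat_lit 12702, nat_lit 0, nat_lit 3295, nat_lit 6724, nat_lit 8697, nat_lit 1778, nat_lit 0, nat_lit 0, nat_lit 0, nat_lit 0, nat_lit 0, nat_lit 0, nat_lit 0, nat_lit 0, nat_lit 0, nat_lit 0, nat_lit 0, [],
 ⟨p042_k0, nat_lit 0, nat_lit 0, nat_lit 439, nat_lit 0, nat_lit 523819, [nat_lit 4688000000, nat_lit 6250000000, nat_lit 9842000000], [], [nat_lit 39622312160, nat_lit 32511843536, nat_lit 31003259204, nat_lit 32197671732, nat_lit 26652386772, nat_lit 27827327776, nat_lit 31205973264, nat_lit 29172521120], nat_lit 1271250, nat_lit 1271250, nat_lit 1100001, nat_lit 1785000, nat_lit 0, nat_lit 1100001, [nat_lit 1100000, nat_lit 1442500, nat_lit 1271250], [nat_lit 11, nat_lit 40, nat_lit 40, nat_lit 80, nat_lit 1, nat_lit 401, nat_lit 175, nat_lit 12]⟩, ⟨p042_k13, nat_lit 0, nat_lit 0, nat_lit 60, nat_lit 0, nat_lit 0, [nat_lit 6250000000, nat_lit 7968000000, nat_lit 11872000000], [], [nat_lit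 7211101508, nat_lit 10252855224, nat_lit 12010321340, nat_lit 14444053860, nat_lit 23481085182, nat_lit 25282312050, nat_lit 25975365142, nat_lit 27380607720], nat_lit 0, nat_lit 0, nat_lit 0, nat_lit 0, nat_lit 0, nat_lit 0, [], [nat_lit 53, nat_lit 40, nat_lit 40, nat_lit 80, nat_lit 14, nat_lit 456, nat_lit 225, nat_lit 11]⟩,
 zbF0, [⟨nat_lit 19, nat_lit 100, nat_lit 77, nat_lit 72, nat_lit 847243458⟩]⟩
noncomputable def b_V_600_500_10_7 : St := ⟨true, nat_lit 1, nat_lit 0, nat_lit 1, nat_lit 80, nat_lit 240, nat_lit 280, nat_lit 200, nat_lit 240, nat_lit 160, nat_lit 240, nat_lit 40, nat_lit 80, nat_lit 0, nat_lit 160, nat_lit 0, nat_lit 360, nat_lit 0, nat_lit 32, nat_lit 0, nat_lit 0, nat_lit 0, nat_lit 0⟩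
theorem d_V_600_500_10_7 (h : EB TB.env) : Dead b_V_600_500_10_7 := chkB_sound0 h (T :=
(.spl (nat_lit 5) (nat_lit 160)
(.leaf p042_l66)
(.leaf p042_l67))) (by decide +kernel)
noncomputable def p042_l68 : Lf2 := ⟨nat_lit 0, nat_lit 4, [nat_lit 38, nat_lit 5, nat_lit 5, nat_lit 20], true, nat_lit 160, nat_lit 200, nat_lit 0, nat_lit 360, ⟨nat_lit 0, nat_lit 0, nat_lit 1000, nat_lit 5, nat_lit 82, nat_lit 1000, nat_lit 124, nat_lit 1000, nat_lit 144150, nat_lit 308, nat_lit 62017, nat_lit 276, nat_lit 57458836, nat_lit 0, nat_lit 0, nat_lit 2649733, false, false⟩,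
 nat_lit 0, nat_lit 8986, nat_lit 0, nat_lit 0, nat_lit 4757, nat_lit 0, nat_lit 0, nat_lit 0, nat_lit 0, nat_lit 0, nat_lit 0, nat_lit 0, nat_lit 0, nat_lit 0, nat_lit 80, nat_lit 1000000, nat_lit 0, nat_lit 0, [(nat_lit 6, [(nat_lit 6, nat_lit 1000)])],
 ⟨p042_k25, nat_lit 0, nat_lit 0, nat_lit 199, nat_lit 0, nat_lit 150248, [nat_lit 2814000001, nat_lit 141466667], [], [nat_lit 11942158617, nat_lit 13120623504, nat_lit 13459348644, nat_lit 11437068594, nat_lit 14925740330, nat_lit 14828899958, nat_lit 16639326060, nat_lit 14302107306], nat_lit 1271250, nat_lit 1271250, nat_lit 21650, nat_lit 490000, nat_lit 1100001, nat_lit 1442500, [nat_lit 1100000, nat_lit 1785000], [nat_lit 39, nat_lit 40, nat_lit 40, nat_lit 80, nat_lit 7, nat_lit 289, nat_lit 75, nat_lit 9]⟩, C1.Rw.none,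
 ⟨nat_lit 5916, nat_lit 6325, ⟨.ofNat (nat_lit 96904), .ofNat (nat_lit 253206), .ofNat (nat_lit 139640), .ofNat (nat_lit 295942), .ofNat (nat_lit 115184), .ofNat (nat_lit 264398), .ofNat (nat_lit 157863), .ofNat (nat_lit 307076)⟩, ⟨.ofNat (nat_lit 246791), .ofNat (nat_lit 329055), .ofNat (nat_lit 289527), .ofNat (nat_lit 371791), .ofNat (nat_lit 250751), .ofNat (nat_lit 329284), .ofNat (nat_lit 293429), .ofNat (nat_lit 371963)⟩⟩, []⟩
noncomputable def p042_l69 : Lf2 := ⟨nat_lit 0, nat_lit 4, [nat_lit 38, nat_lit 5, nat_lit 5, nat_lit 20], true, nat_lit 200, nat_lit 240, nat_lit 0, nat_lit 360, ⟨nat_lit 0, nat_lit 0, nat_lit 1000, nat_lit 5, nat_lit 82, nat_lit 1000, nat_lit 156, nat_lit 1000, nat_lit 190817, nat_lit 322, nat_lit 62017, nat_lit 276, nat_lit 54592817, nat_lit 0, nat_lit 0, nat_lit 3102127, false, false⟩,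
 nat_lit 0, nat_lit 8338, nat_lit 0, nat_lit 0, nat_lit 4413, nat_lit 0, nat_lit 0, nat_lit 0, nat_lit 0, nat_lit 0, nat_lit 0, nat_lit 0, nat_lit 0, nat_lit 0, nat_lit 58, nat_lit 652000, nat_lit 0, nat_lit 0, [(nat_lit 6, [(nat_lit 5, nat_lit 580), (nat_lit 6, nat_lit 420)])],
 ⟨p042_k25, nat_lit 0, nat_lit 0, nat_lit 179, nat_lit 0, nat_lit 150248, [nat_lit 2394488000, nat_lit 45218667], [], [nat_lit 14279650899, nat_lit 15332788996, nat_lit 13697089795, nat_lit 13749417495, nat_lit 15745530151, nat_lit 16765700801, nat_lit 14164288372, nat_lit 15239979082], nat_lit 1271250, nat_lit 1271250, nat_lit 21650, nat_lit 490000, nat_lit 1271250, nat_lit 1271250, [nat_lit 1100000, nat_lit 1785000], [nat_lit 39, nat_lit 40, nat_lit 40, nat_lit 80, nat_lit 7, nat_lit 317, nat_lit 100, nat_lit 10]⟩, C1.Rw.none,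
 ⟨nat_lit 5916, nat_lit 6325, ⟨.ofNat (nat_lit 96904), .ofNat (nat_lit 253206), .ofNat (nat_lit 139640), .ofNat (nat_lit 295942), .ofNat (nat_lit 115184), .ofNat (nat_lit 264398), .ofNat (nat_lit 157863), .ofNat (nat_lit 307076)⟩, ⟨.ofNat (nat_lit 329055), .ofNat (nat_lit 411320), .ofNat (nat_lit 371791), .ofNat (nat_lit 454055), .ofNat (nat_lit 329284), .ofNat (nat_lit 407818), .ofNat (nat_lit 371963), .ofNat (nat_lit 450496)⟩⟩, [⟨nat_lit 0, nat_lit 100, nat_lit 97, nat_lit 49, nat_lit 207587864⟩]⟩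
noncomputable def p042_l70 : Lf2 := ⟨nat_lit 0, nat_lit 4, [nat_lit 38, nat_lit 5, nat_lit 5, nat_lit 20], true, nat_lit 160, nat_lit 240, nat_lit 0, nat_lit 360, ⟨nat_lit 0, nat_lit 0, nat_lit 1000, nat_lit 5, nat_lit 124, nat_lit 1000, nat_lit 140, nat_lit 1000, nat_lit 183750, nat_lit 320, nat_lit 144150, nat_lit 308, nat_lit 53003756, nat_lit 0, nat_lit 0, nat_lit 3501274, false, false⟩,
 nat_lit 0, nat_lit 8091, nat_lit 0, nat_lit 0, nat_lit 4283, nat_lit 0, nat_lit 0, nat_lit 0, nat_lit 0, nat_lit 0, nat_lit 0, nat_lit 0, nat_lit 0, nat_lit 0, nat_lit 80, nat_lit 1000000, nat_lit 0, nat_lit 0, [(nat_lit 6, [(nat_lit 6, nat_lit 1000)])],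
 ⟨p042_k18, nat_lit 0, nat_lit 0, nat_lit 157, nat_lit 0, nat_lit 99542, [nat_lit 2257066667, nat_lit 1408000000, nat_lit 211200000], [], [nat_lit 8869061567, nat_lit 10359149061, nat_lit 9390718543, nat_lit 10806790007, nat_lit 12786156063, nat_lit 14044920135, nat_lit 13127003679, nat_lit 14324903789], nat_lit 1271250, nat_lit 1271250, nat_lit 490000, nat_lit 780000, nat_lit 1100001, nat_lit 1785000, [nat_lit 1100000, nat_lit 1442500, nat_lit 1271250], [nat_lit 9, nat_lit 40, nat_lit 40, nat_lit 80, nat_lit 2, nat_lit 317, nat_lit 100, nat_lit 10]⟩, C1.Rw.none,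
 ⟨nat_lit 5916, nat_lit 6325, ⟨.ofNat (nat_lit 253206), .ofNat (nat_lit 335470), .ofNat (nat_lit 274574), .ofNat (nat_lit 356838), .ofNat (nat_lit 264398), .ofNat (nat_lit 342931), .ofNat (nat_lit 285737), .ofNat (nat_lit 364271)⟩, ⟨.ofNat (nat_lit 246791), .ofNat (nat_lit 411320), .ofNat (nat_lit 289527), .ofNat (nat_lit 454055), .ofNat (nat_lit 250751), .ofNat (nat_lit 407818), .ofNat (nat_lit 293429), .ofNat (nat_lit 450496)⟩⟩, []⟩
noncomputable def p042_l71 : Lf2 := ⟨nat_lit 0, nat_lit 4, [nat_lit 38, nat_lit 5, nat_lit 5, nat_lit 20], false, nat_lit 160, nat_lit 240, nat_lit 0, nat_lit 348, ⟨nat_lit 857, nat_lit 0, nat_lit 143, nat_lit 5, nat_lit 132, nat_lit 143, nat_lit 140, nat_lit 143, nat_lit 183750, nat_lit 320, nat_lit 163350, nat_lit 314, nat_lit 52333540, nat_lit 0, nat_lit 0, nat_lit 3615256, false, false⟩,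
 nat_lit 0, nat_lit 21518, nat_lit 0, nat_lit 0, nat_lit 11391, nat_lit 7716, nat_lit 1763, nat_lit 0, nat_lit 0, nat_lit 2809, nat_lit 0, nat_lit 0, nat_lit 0, nat_lit 0, nat_lit 0, nat_lit 143000, nat_lit 0, nat_lit 0, [(nat_lit 6, [(nat_lit 6, nat_lit 143)])],
 ⟨p042_k18, nat_lit 0, nat_lit 0, nat_lit 170, nat_lit 0, nat_lit 270445, [nat_lit 4157336534, nat_lit 5328794000, nat_lit 6554302000], [], [nat_lit 21762672996, nat_lit 15918429318, nat_lit 10322238622, nat_lit 8063484169, nat_lit 18548017406, nat_lit 13242393290, nat_lit 21730557802, nat_lit 16213235824], nat_lit 1271250, nat_lit 1271250, nat_lit 490000, nat_lit 780000, nat_lit 1100001, nat_lit 1785000, [nat_lit 1100000, nat_lit 1442500, nat_lit 1271250], [nat_lit 9, nat_lit 40, nat_lit 40, nat_lit 80, nat_lit 2, nat_lit 317, nat_lit 100, nat_lit 10]⟩, ⟨p042_k28, nat_lit 0, nat_lit 0, nat_lit 149, nat_lit 0, nat_lit 0, [nat_lit 5356250000, nat_lit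 6828576000, nat_lit 8434594000], [], [nat_lit 15438777986, nat_lit 16491042394, nat_lit 14990540862, nat_lit 16142182610, nat_lit 21056233313, nat_lit 21602752832, nat_lit 20229592612, nat_lit 20669495167], nat_lit 0, nat_lit 0, nat_lit 0, nat_lit 0, nat_lit 0, nat_lit 0, [], [nat_lit 25, nat_lit 40, nat_lit 40, nat_lit 80, nat_lit 17, nat_lit 428, nat_lit 200, nat_lit 13]⟩,
 ⟨nat_lit 5916, nat_lit 6325, ⟨.ofNat (nat_lit 274574), .ofNat (nat_lit 356838), .ofNat (nat_lit 295942), .ofNat (nat_lit 378206), .ofNat (nat_lit 285737), .ofNat (nat_lit 364271), .ofNat (nat_lit 307076), .ofNat (nat_lit 385610)⟩, ⟨.ofNat (nat_lit 246791), .ofNat (nat_lit 411320), .ofNat (nat_lit 289527), .ofNat (nat_lit 454055), .ofNat (nat_lit 250751), .ofNat (nat_lit 407818), .ofNat (nat_lit 293429), .ofNat (nat_lit 450496)⟩⟩, [⟨nat_lit 19, nat_lit 100, nat_lit 81, nat_lit 72, nat_lit 330941143⟩]⟩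
noncomputable def p042_l72 : Lf2 := ⟨nat_lit 0, nat_lit 4, [nat_lit 38, nat_lit 5, nat_lit 5, nat_lit 20], false, nat_lit 160, nat_lit 240, nat_lit 0, nat_lit 360, ⟨nat_lit 1000, nat_lit 0, nat_lit 0, nat_lit 0, nat_lit 0, nat_lit 0, nat_lit 0, nat_lit 0, nat_lit 0, nat_lit 0, nat_lit 0, nat_lit 0, nat_lit 0, nat_lit 0, nat_lit 0, nat_lit 0, false, false⟩,
 nat_lit 0, nat_lit 8709, nat_lit 0, nat_lit 11204, nat_lit 4610, nat_lit 8534, nat_lit 3158, nat_lit 0, nat_lit 0, nat_lit 0, nat_lit 0, nat_lit 0, nat_lit 0, nat_lit 0, nat_lit 0, nat_lit 0, nat_lit 0, nat_lit 0, [],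
 ⟨p042_k18, nat_lit 0, nat_lit 0, nat_lit 137, nat_lit 0, nat_lit 99542, [nat_lit 4688000000, nat_lit 6250000000, nat_lit 7968000000], [], [nat_lit 33274914400, nat_lit 30837432220, nat_lit 32149509960, nat_lit 29947368280, nat_lit 29939368280, nat_lit 27706477900, nat_lit 38772084840, nat_lit 36628886620], nat_lit 1271250, nat_lit 1271250, nat_lit 780000, nat_lit 1762500, nat_lit 1100001, nat_lit 1785000, [nat_lit 1100000, nat_lit 1442500, nat_lit 1271250], [nat_lit 9, nat_lit 40, nat_lit 40, nat_lit 80, nat_lit 2, nat_lit 345, nat_lit 125, nat_lit 11]⟩, ⟨p042_k29, nat_lit 0, nat_lit 0, nat_lit 75, nat_lit 0, nat_lit 0, [nat_lit 6250000000, nat_lit 7968000000, nat_lit 9842000000], [], [nat_lit 9849308176, nat_lit 11796267364, nat_lit 16863917328, nat_lit 18314429152, nat_lit 23627277372, nat_lit 24372171942, nat_lit 25884462324, nat_lit 26583899082], nat_lit 0, nat_lit 0, nat_lit 0, nat_lit 0, nat_lit 0, nat_lit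 0, [], [nat_lit 25, nat_lit 40, nat_lit 40, nat_lit 80, nat_lit 17, nat_lit 456, nat_lit 225, nat_lit 13]⟩,
 zbF0, [⟨nat_lit 19, nat_lit 100, nat_lit 74, nat_lit 72, nat_lit 497265074⟩]⟩
noncomputable def p042_l73 : Lf2 := ⟨nat_lit 0, nat_lit 4, [nat_lit 38, nat_lit 5, nat_lit 5, nat_lit 20], false, nat_lit 160, nat_lit 240, nat_lit 0, nat_lit 348, ⟨nat_lit 1000, nat_lit 0, nat_lit 0, nat_lit 0, nat_lit 0, nat_lit 0, nat_lit 0, nat_lit 0, nat_lit 0, nat_lit 0, nat_lit 0, nat_lit 0, nat_lit 0, nat_lit 0, nat_lit 0, nat_lit 0, false, false⟩,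
 nat_lit 0, nat_lit 8666, nat_lit 0, nat_lit 4796, nat_lit 4587, nat_lit 8661, nat_lit 1911, nat_lit 0, nat_lit 0, nat_lit 0, nat_lit 0, nat_lit 0, nat_lit 0, nat_lit 0, nat_lit 0, nat_lit 0, nat_lit 0, nat_lit 0, [],
 ⟨p042_k18, nat_lit 0, nat_lit 0, nat_lit 150, nat_lit 0, nat_lit 270445, [nat_lit 4688000000, nat_lit 6250000000, nat_lit 7968000000], [], [nat_lit 33239866080, nat_lit 30814544874, nat_lit 32167338732, nat_lit 29976183876, nat_lit 29962286676, nat_lit 27740536530, nat_lit 38770542828, nat_lit 36638037354], nat_lit 1271250, nat_lit 1271250, nat_lit 780000, nat_lit 1762500, nat_lit 1100001, nat_lit 1785000, [nat_lit 1100000, nat_lit 1442500, nat_lit 1271250], [nat_lit 9, nat_lit 40, nat_lit 40, nat_lit 80, nat_lit 2, nat_lit 345, nat_lit 125, nat_lit 11]⟩, ⟨p042_k28, nat_lit 0, nat_lit 0, nat_lit 88, nat_lit 0, nat_lit 0, [nat_lit 6250000000, nat_lit 7968000000, nat_lit 9842000000], [], [nat_lit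 11690253606, nat_lit 13655523908, nat_lit 18250589808, nat_lit 19713158504, nat_lit 22981077939, nat_lit 23787370669, nat_lit 25296521534, nat_lit 26059061471], nat_lit 0, nat_lit 0, nat_lit 0, nat_lit 0, nat_lit 0, nat_lit 0, [], [nat_lit 25, nat_lit 40, nat_lit 40, nat_lit 80, nat_lit 17, nat_lit 456, nat_lit 225, nat_lit 13]⟩,
 zbF0, [⟨nat_lit 19, nat_lit 100, nat_lit 81, nat_lit 72, nat_lit 453301874⟩]⟩
noncomputable def p042_l74 : Lf2 := ⟨nat_lit 1, nat_lit 8, [nat_lit 50, nat_lit 5, nat_lit 5, nat_lit 20], false, nat_lit 160, nat_lit 240, nat_lit 0, nat_lit 360, zbN0,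
 nat_lit 0, nat_lit 0, nat_lit 0, nat_lit 0, nat_lit 0, nat_lit 0, nat_lit 0, nat_lit 0, nat_lit 0, nat_lit 0, nat_lit 0, nat_lit 0, nat_lit 0, nat_lit 0, nat_lit 0, nat_lit 0, nat_lit 0, nat_lit 0, [],
 C1.Rw.none, C1.Rw.none,
 zbF0, []⟩
noncomputable def p042_l75 : Lf2 := ⟨nat_lit 0, nat_lit 8, [nat_lit 50, nat_lit 5, nat_lit 5, nat_lit 20], true, nat_lit 160, nat_lit 200, nat_lit 0, nat_lit 360, ⟨nat_lit 0, nat_lit 0, nat_lit 1000, nat_lit 5, nat_lit 89, nat_lit 1000, nat_lit 125, nat_lit 1000, nat_lit 147267, nat_lit 309, nat_lit 74817, nat_lit 282, nat_lit 56894610, nat_lit 0, nat_lit 0, nat_lit 2775042, false, false⟩,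
 nat_lit 0, nat_lit 7077, nat_lit 0, nat_lit 0, nat_lit 4119, nat_lit 0, nat_lit 0, nat_lit 0, nat_lit 0, nat_lit 0, nat_lit 0, nat_lit 0, nat_lit 0, nat_lit 0, nat_lit 192, nat_lit 1000000, nat_lit 0, nat_lit 0, [(nat_lit 9, [(nat_lit 6, nat_lit 1000)])],
 ⟨p042_k20, nat_lit 0, nat_lit 0, nat_lit 293, nat_lit 0, nat_lit 264708, [nat_lit 4169600001, nat_lit 3411333334, nat_lit 231866666], [], [nat_lit 13051406958, nat_lit 14349654547, nat_lit 11973830066, nat_lit 13200190002, nat_lit 14678214776, nat_lit 15878553065, nat_lit 13531411817, nat_lit 14666756650], nat_lit 1271250, nat_lit 1271250, nat_lit 43600, nat_lit 490000, nat_lit 1100001, nat_lit 1442500, [nat_lit 1100000, nat_lit 1442500, nat_lit 1271250], [nat_lit 11, nat_lit 40, nat_lit 40, nat_lit 80, nat_lit 1, nat_lit 373, nat_lit 150, nat_lit 11]⟩, C1.Rw.none,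
 ⟨nat_lit 5477, nat_lit 5917, ⟨.ofNat (nat_lit 123037), .ofNat (nat_lit 264398), .ofNat (nat_lit 165716), .ofNat (nat_lit 307076), .ofNat (nat_lit 140320), .ofNat (nat_lit 275199), .ofNat (nat_lit 183034), .ofNat (nat_lit 317913)⟩, ⟨.ofNat (nat_lit 250751), .ofNat (nat_lit 329284), .ofNat (nat_lit 293429), .ofNat (nat_lit 371963), .ofNat (nat_lit 254209), .ofNat (nat_lit 329142), .ofNat (nat_lit 296923), .ofNat (nat_lit 371856)⟩⟩, [⟨nat_lit 0, nat_lit 100, nat_lit 94, nat_lit 59, nat_lit 190314112⟩]⟩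
noncomputable def p042_l76 : Lf2 := ⟨nat_lit 0, nat_lit 8, [nat_lit 50, nat_lit 5, nat_lit 5, nat_lit 20], true, nat_lit 200, nat_lit 240, nat_lit 0, nat_lit 360, ⟨nat_lit 0, nat_lit 0, nat_lit 1000, nat_lit 5, nat_lit 89, nat_lit 1000, nat_lit 156, nat_lit 1000, nat_lit 228150, nat_lit 332, nat_lit 74817, nat_lit 282, nat_lit 54183317, nat_lit 0, nat_lit 0, nat_lit 3202030, false, false⟩,
 nat_lit 0, nat_lit 6746, nat_lit 0, nat_lit 0, nat_lit 3926, nat_lit 0, nat_lit 250, nat_lit 0, nat_lit 0, nat_lit 0, nat_lit 0, nat_lit 0, nat_lit 0, nat_lit 0, nat_lit 192, nat_lit 1000000, nat_lit 0, nat_lit 0, [(nat_lit 9, [(nat_lit 6, nat_lit 1000)])],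
 ⟨p042_k20, nat_lit 0, nat_lit 0, nat_lit 291, nat_lit 0, nat_lit 264708, [nat_lit 4169600001, nat_lit 3411333334, nat_lit 231866666], [], [nat_lit 15440913967, nat_lit 16363567554, nat_lit 14566188366, nat_lit 15437720866, nat_lit 16707353238, nat_lit 17655961009, nat_lit 15771885546, nat_lit 16578050974], nat_lit 1271250, nat_lit 1271250, nat_lit 43600, nat_lit 490000, nat_lit 1271250, nat_lit 1271250, [nat_lit 1100000, nat_lit 1442500, nat_lit 1271250], [nat_lit 11, nat_lit 40, nat_lit 40, nat_lit 80, nat_lit 1, nat_lit 373, nat_lit 150, nat_lit 10]⟩, C1.Rw.none,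
 ⟨nat_lit 5477, nat_lit 5917, ⟨.ofNat (nat_lit 123037), .ofNat (nat_lit 264398), .ofNat (nat_lit 165716), .ofNat (nat_lit 307076), .ofNat (nat_lit 140320), .ofNat (nat_lit 275199), .ofNat (nat_lit 183034), .ofNat (nat_lit 317913)⟩, ⟨.ofNat (nat_lit 329284), .ofNat (nat_lit 407818), .ofNat (nat_lit 371963), .ofNat (nat_lit 450496), .ofNat (nat_lit 329142), .ofNat (nat_lit 404075), .ofNat (nat_lit 371856), .ofNat (nat_lit 446789)⟩⟩, [⟨nat_lit 0, nat_lit 100, nat_lit 94, nat_lit 59, nat_lit 180480087⟩]⟩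
noncomputable def p042_l77 : Lf2 := ⟨nat_lit 0, nat_lit 8, [nat_lit 50, nat_lit 5, nat_lit 5, nat_lit 20], false, nat_lit 160, nat_lit 240, nat_lit 0, nat_lit 160, ⟨nat_lit 1000, nat_lit 0, nat_lit 0, nat_lit 0, nat_lit 0, nat_lit 0, nat_lit 0, nat_lit 0, nat_lit 0, nat_lit 0, nat_lit 0, nat_lit 0, nat_lit 0, nat_lit 0, nat_lit 0, nat_lit 0, false, false⟩,
 nat_lit 0, nat_lit 18076, nat_lit 0, nat_lit 0, nat_lit 10521, nat_lit 9282, nat_lit 2260, nat_lit 0, nat_lit 0, nat_lit 3478, nat_lit 0, nat_lit 0, nat_lit 0, nat_lit 0, nat_lit 0, nat_lit 0, nat_lit 0, nat_lit 0, [],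
 ⟨p042_k20, nat_lit 0, nat_lit 0, nat_lit 308, nat_lit 0, nat_lit 457369, [nat_lit 4688000000, nat_lit 6250000000, nat_lit 9842000000], [], [nat_lit 17926533750, nat_lit 12766260224, nat_lit 10525356838, nat_lit 11898507116, nat_lit 14394854876, nat_lit 15900601004, nat_lit 21707087608, nat_lit 16681332160], nat_lit 1271250, nat_lit 1271250, nat_lit 490000, nat_lit 1100001, nat_lit 1100001, nat_lit 1785000, [nat_lit 1100000, nat_lit 1442500, nat_lit 1271250], [nat_lit 11, nat_lit 40, nat_lit 40, nat_lit 80, nat_lit 1, nat_lit 401, nat_lit 175, nat_lit 11]⟩, ⟨p042_k13, nat_lit 0, nat_lit 0, nat_lit 215, nat_lit 0, nat_lit 0, [nat_lit 6250000000, nat_lit 7968000000, nat_lit 11872000000], [], [nat_lit 19452786750, nat_lit 21512942272, nat_lit 19084570040, nat_lit 21603221160, nat_lit 14304231120, nat_lit 16672627560, nat_lit 14618262296, nat_lit 16654167640], nat_lit 0, nat_lit 0, nat_lit 0, nat_lit 0, nat_lit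 0, nat_lit 0, [], [nat_lit 53, nat_lit 40, nat_lit 40, nat_lit 80, nat_lit 14, nat_lit 373, nat_lit 150, nat_lit 10]⟩,
 zbF0, []⟩
noncomputable def p042_l78 : Lf2 := ⟨nat_lit 0, nat_lit 8, [nat_lit 50, nat_lit 5, nat_lit 5, nat_lit 20], false, nat_lit 160, nat_lit 240, nat_lit 160, nat_lit 360, ⟨nat_lit 982, nat_lit 0, nat_lit 18, nat_lit 5, nat_lit 147, nat_lit 18, nat_lit 140, nat_lit 18, nat_lit 183750, nat_lit 320, nat_lit 104024, nat_lit 294, nat_lit 51144289, nat_lit 0, nat_lit 0, nat_lit 3801902, false, false⟩,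
 nat_lit 0, nat_lit 14613, nat_lit 0, nat_lit 0, nat_lit 8505, nat_lit 8026, nat_lit 2701, nat_lit 0, nat_lit 0, nat_lit 0, nat_lit 0, nat_lit 0, nat_lit 0, nat_lit 0, nat_lit 0, nat_lit 18000, nat_lit 0, nat_lit 0, [(nat_lit 9, [(nat_lit 6, nat_lit 18)])],
 ⟨p042_k20, nat_lit 0, nat_lit 0, nat_lit 308, nat_lit 0, nat_lit 457369, [nat_lit 4623372800, nat_lit 6129784000, nat_lit 9568414400], [], [nat_lit 19991191350, nat_lit 15627633060, nat_lit 13937198065, nat_lit 13310667910, nat_lit 16788622025, nat_lit 15783336630, nat_lit 23501350915, nat_lit 19438614475], nat_lit 1271250, nat_lit 1271250, nat_lit 490000, nat_lit 1100001, nat_lit 1100001, nat_lit 1785000, [nat_lit 1100000, nat_lit 1442500, nat_lit 1271250], [nat_lit 11, nat_lit 40, nat_lit 40, nat_lit 80, nat_lit 1, nat_lit 401, nat_lit 175, nat_lit 11]⟩, ⟨p042_k13, nat_lit 0, nat_lit 0, nat_lit 96, nat_lit 0, nat_lit 0, [nat_lit 6137500000, nat_lit 7824576000,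 nat_lit 11658304000], [], [nat_lit 6688632752, nat_lit 9986380080, nat_lit 8010527016, nat_lit 10892257472, nat_lit 24192107148, nat_lit 25720141996, nat_lit 23396418840, nat_lit 24726289328], nat_lit 0, nat_lit 0, nat_lit 0, nat_lit 0, nat_lit 0, nat_lit 0, [], [nat_lit 53, nat_lit 40, nat_lit 40, nat_lit 80, nat_lit 14, nat_lit 428, nat_lit 200, nat_lit 11]⟩,
 ⟨nat_lit 5477, nat_lit 5917, ⟨.ofNat (nat_lit 264398), .ofNat (nat_lit 421465), .ofNat (nat_lit 307076), .ofNat (nat_lit 464143), .ofNat (nat_lit 275199), .ofNat (nat_lit 425065), .ofNat (nat_lit 317913), .ofNat (nat_lit 467780)⟩, ⟨.ofNat (nat_lit 250751), .ofNat (nat_lit 407818), .ofNat (nat_lit 293429), .ofNat (nat_lit 450496), .ofNat (nat_lit 254209), .ofNat (nat_lit 404075), .ofNat (nat_lit 296923), .ofNat (nat_lit 446789)⟩⟩, [⟨nat_lit 7, nat_lit 77, nat_lit 100, nat_lit 72, nat_lit 865750285⟩]⟩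
noncomputable def p042_l79 : Lf2 := ⟨nat_lit 0, nat_lit 8, [nat_lit 50, nat_lit 5, nat_lit 5, nat_lit 20], false, nat_lit 160, nat_lit 240, nat_lit 0, nat_lit 360, ⟨nat_lit 1000, nat_lit 0, nat_lit 0, nat_lit 0, nat_lit 0, nat_lit 0, nat_lit 0, nat_lit 0, nat_lit 0, nat_lit 0, nat_lit 0, nat_lit 0, nat_lit 0, nat_lit 0, nat_lit 0, nat_lit 0, false, false⟩,
 nat_lit 0, nat_lit 9369, nat_lit 0, nat_lit 13126, nat_lit 5453, nat_lit 11099, nat_lit 1633, nat_lit 0, nat_lit 0, nat_lit 2535, nat_lit 0, nat_lit 0, nat_lit 0, nat_lit 0, nat_lit 0, nat_lit 0, nat_lit 0, nat_lit 0, [],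
 ⟨p042_k20, nat_lit 0, nat_lit 0, nat_lit 170, nat_lit 0, nat_lit 312033, [nat_lit 4688000000, nat_lit 6250000000, nat_lit 9842000000], [], [nat_lit 30114303206, nat_lit 27231094892, nat_lit 24315410882, nat_lit 23952228123, nat_lit 24315410882, nat_lit 23952228123, nat_lit 31576249250, nat_lit 29006762932], nat_lit 1271250, nat_lit 1271250, nat_lit 1100001, nat_lit 1785000, nat_lit 1100001, nat_lit 1785000, [nat_lit 1100000, nat_lit 1442500, nat_lit 1271250], [nat_lit 11, nat_lit 40, nat_lit 40, nat_lit 80, nat_lit 1, nat_lit 428, nat_lit 200, nat_lit 12]⟩, ⟨p042_k13, nat_lit 0, nat_lit 0, nat_lit 184, nat_lit 0, nat_lit 0, [nat_lit 6250000000, nat_lit 7968000000, nat_lit 11872000000], [], [nat_lit 21421995875, nat_lit 22718630085, nat_lit 25093598971, nat_lit 26094295905, nat_lit 25355410861, nat_lit 25715224160, nat_lit 27314926914, nat_lit 28064476077], nat_lit 0, nat_lit 0, nat_lit 0, nat_lit 0, nat_lit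 0, nat_lit 0, [], [nat_lit 53, nat_lit 40, nat_lit 40, nat_lit 80, nat_lit 14, nat_lit 456, nat_lit 225, nat_lit 12]⟩,
 zbF0, [⟨nat_lit 7, nat_lit 74, nat_lit 100, nat_lit 72, nat_lit 328960805⟩]⟩
noncomputable def p042_l80 : Lf2 := ⟨nat_lit 0, nat_lit 8, [nat_lit 50, nat_lit 5, nat_lit 5, nat_lit 20], false, nat_lit 160, nat_lit 240, nat_lit 0, nat_lit 348, ⟨nat_lit 1000, nat_lit 0, nat_lit 0, nat_lit 0, nat_lit 0, nat_lit 0, nat_lit 0, nat_lit 0, nat_lit 0, nat_lit 0, nat_lit 0, nat_lit 0, nat_lit 0, nat_lit 0, nat_lit 0, nat_lit 0, false, false⟩,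
 nat_lit 0, nat_lit 9114, nat_lit 0, nat_lit 7602, nat_lit 5305, nat_lit 9543, nat_lit 1400, nat_lit 0, nat_lit 0, nat_lit 2469, nat_lit 0, nat_lit 0, nat_lit 0, nat_lit 0, nat_lit 0, nat_lit 0, nat_lit 0, nat_lit 0, [],
 ⟨p042_k20, nat_lit 0, nat_lit 0, nat_lit 226, nat_lit 0, nat_lit 457369, [nat_lit 4688000000, nat_lit 6250000000, nat_lit 9842000000], [], [nat_lit 29967028110, nat_lit 27162073020, nat_lit 24547890170, nat_lit 25162670380, nat_lit 24547890170, nat_lit 25162670380, nat_lit 31686028250, nat_lit 29186280420], nat_lit 1271250, nat_lit 1271250, nat_lit 1100001, nat_lit 1785000, nat_lit 1100001, nat_lit 1785000, [nat_lit 1100000, nat_lit 1442500, nat_lit 1271250], [nat_lit 11, nat_lit 40, nat_lit 40, nat_lit 80, nat_lit 1, nat_lit 428, nat_lit 200, nat_lit 12]⟩, ⟨p042_k14, nat_lit 0, nat_lit 0, nat_lit 187, nat_lit 0, nat_lit 0, [nat_lit 6250000000, nat_lit 7968000000, nat_lit 11872000000], [],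 [nat_lit 21037179041, nat_lit 22129654815, nat_lit 24144283585, nat_lit 25083260223, nat_lit 23722338922, nat_lit 24138696219, nat_lit 25709515476, nat_lit 26494613181], nat_lit 0, nat_lit 0, nat_lit 0, nat_lit 0, nat_lit 0, nat_lit 0, [], [nat_lit 53, nat_lit 40, nat_lit 40, nat_lit 80, nat_lit 14, nat_lit 456, nat_lit 225, nat_lit 12]⟩,
 zbF0, [⟨nat_lit 7, nat_lit 81, nat_lit 100, nat_lit 72, nat_lit 307191223⟩]⟩
noncomputable def b_V_600_500_10_8 : St := ⟨true, nat_lit 1, nat_lit 0, nat_lit 1, nat_lit 80, nat_lit 240, nat_lit 280, nat_lit 200, nat_lit 240, nat_lit 4, nat_lit 240, nat_lit 40, nat_lit 80, nat_lit 160, nat_lit 240, nat_lit 0, nat_lit 360, nat_lit 0, nat_lit 32, nat_lit 0, nat_lit 0, nat_lit 0, nat_lit 0⟩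
theorem d_V_600_500_10_8 (h : EB TB.env) : Dead b_V_600_500_10_8 := chkB_sound0 h (T :=
(.spl (nat_lit 0) (nat_lit 260)
(.spl (nat_lit 6) (nat_lit 16)
(.spl (nat_lit 2) (nat_lit 120)
(.spl (nat_lit 2) (nat_lit 80)
(.spl (nat_lit 4) (nat_lit 200)
(.leaf p042_l68)
(.leaf p042_l69))
(.spl (nat_lit 1) (nat_lit 220)
(.leaf p042_l70)
(.trX (nat_lit 19) (nat_lit 100) (nat_lit 68) (nat_lit 80) (nat_lit 348) (.leaf p042_l71))))
(.spl (nat_lit 1) (nat_lit 220)
(.leaf p042_l72)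
(.trX (nat_lit 19) (nat_lit 100) (nat_lit 68) (nat_lit 80) (nat_lit 348) (.leaf p042_l73))))
(.leaf p042_l74))
(.trZ (nat_lit 0) (nat_lit 100) (nat_lit 95) (nat_lit 30) (nat_lit 8) (.spl (nat_lit 2) (nat_lit 160)
(.spl (nat_lit 2) (nat_lit 80)
(.spl (nat_lit 4) (nat_lit 200)
(.leaf p042_l75)
(.leaf p042_l76))
(.spl (nat_lit 5) (nat_lit 160)
(.leaf p042_l77)
(.leaf p042_l78)))
(.spl (nat_lit 1) (nat_lit 220)
(.leaf p042_l79)
(.trX (nat_lit 19) (nat_lit 100) (nat_lit 68) (nat_lit 80) (nat_lit 348) (.leaf p042_l80))))))) (by decide +kernel)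
noncomputable def p042_l81 : Lf2 := ⟨nat_lit 0, nat_lit 4, [nat_lit 38, nat_lit 5, nat_lit 5, nat_lit 20], true, nat_lit 240, nat_lit 312, nat_lit 0, nat_lit 288, ⟨nat_lit 0, nat_lit 0, nat_lit 1000, nat_lit 5, nat_lit 61, nat_lit 1000, nat_lit 197, nat_lit 1000, nat_lit 586, nat_lit 219, nat_lit 35267, nat_lit 261, nat_lit 51797679, nat_lit 0, nat_lit 0, nat_lit 3283033, false, false⟩,
 nat_lit 0, nat_lit 8418, nat_lit 0, nat_lit 5536, nat_lit 4456, nat_lit 0, nat_lit 0, nat_lit 0, nat_lit 0, nat_lit 0, nat_lit 0, nat_lit 0, nat_lit 0, nat_lit 0, nat_lit 64, nat_lit 755800, nat_lit 0, nat_lit 0, [(nat_lit 6, [(nat_lit 5, nat_lit 407), (nat_lit 6, nat_lit 593)])],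
 ⟨p042_k25, nat_lit 0, nat_lit 0, nat_lit 152, nat_lit 0, nat_lit 53600, [nat_lit 2510625200, nat_lit 60437467], [], [nat_lit 15603893751, nat_lit 16797802952, nat_lit 14389135008, nat_lit 15512001760, nat_lit 21230942815, nat_lit 22481999639, nat_lit 19124719972, nat_lit 20370295684], nat_lit 1271250, nat_lit 1271250, nat_lit 21650, nat_lit 230001, nat_lit 1271250, nat_lit 1271250, [nat_lit 1100000, nat_lit 1785000], [nat_lit 39, nat_lit 40, nat_lit 40, nat_lit 80, nat_lit 7, nat_lit 215, nat_lit 10, nat_lit 7]⟩, C1.Rw.none,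
 ⟨nat_lit 5916, nat_lit 6325, ⟨.ofNat (nat_lit 96904), .ofNat (nat_lit 170942), .ofNat (nat_lit 118272), .ofNat (nat_lit 192309), .ofNat (nat_lit 115184), .ofNat (nat_lit 185864), .ofNat (nat_lit 136523), .ofNat (nat_lit 207203)⟩, ⟨.ofNat (nat_lit 411320), .ofNat (nat_lit 559386), .ofNat (nat_lit 432688), .ofNat (nat_lit 580747), .ofNat (nat_lit 407818), .ofNat (nat_lit 549169), .ofNat (nat_lit 429157), .ofNat (nat_lit 570502)⟩⟩, [⟨nat_lit 0, nat_lit 100, nat_lit 96, nat_lit 40, nat_lit 284624740⟩, ⟨nat_lit 4, nat_lit 92, nat_lit 100, nat_lit 68, nat_lit 574974486⟩]⟩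
noncomputable def p042_l82 : Lf2 := ⟨nat_lit 0, nat_lit 4, [nat_lit 38, nat_lit 5, nat_lit 5, nat_lit 20], false, nat_lit 240, nat_lit 312, nat_lit 0, nat_lit 160, ⟨nat_lit 1000, nat_lit 0, nat_lit 0, nat_lit 0, nat_lit 0, nat_lit 0, nat_lit 0, nat_lit 0, nat_lit 0, nat_lit 0, nat_lit 0, nat_lit 0, nat_lit 0, nat_lit 0, nat_lit 0, nat_lit 0, false, false⟩,
 nat_lit 0, nat_lit 15537, nat_lit 0, nat_lit 22727, nat_lit 8225, nat_lit 10168, nat_lit 2392, nat_lit 0, nat_lit 0, nat_lit 4303, nat_lit 0, nat_lit 0, nat_lit 0, nat_lit 0, nat_lit 0, nat_lit 0, nat_lit 0, nat_lit 0, [],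
 ⟨p042_k18, nat_lit 0, nat_lit 0, nat_lit 184, nat_lit 0, nat_lit 140231, [nat_lit 4688000000, nat_lit 6250000000, nat_lit 7968000000], [], [nat_lit 19572978520, nat_lit 21134084661, nat_lit 16789730000, nat_lit 18207508650, nat_lit 25894432350, nat_lit 27505677171, nat_lit 22906020551, nat_lit 24246896590], nat_lit 1271250, nat_lit 1271250, nat_lit 43600, nat_lit 230001, nat_lit 1271250, nat_lit 1271250, [nat_lit 1100000, nat_lit 1442500, nat_lit 1271250], [nat_lit 9, nat_lit 40, nat_lit 40, nat_lit 80, nat_lit 2, nat_lit 215, nat_lit 10, nat_lit 7]⟩, ⟨p042_k28, nat_lit 0, nat_lit 0, nat_lit 287, nat_lit 0, nat_lit 0, [nat_lit 6250000000, nat_lit 7968000000, nat_lit 9842000000], [], [nat_lit 21126764384, nat_lit 22729824621, nat_lit 17451594502, nat_lit 19043863830, nat_lit 14875697955, nat_lit 16194976054, nat_lit 11822161174, nat_lit 13124025910], nat_lit 0, nat_lit 0, nat_lit 0, nat_lit 0, nat_lit 0, nat_lit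 0, [], [nat_lit 25, nat_lit 40, nat_lit 40, nat_lit 80, nat_lit 17, nat_lit 345, nat_lit 125, nat_lit 11]⟩,
 zbF0, [⟨nat_lit 0, nat_lit 100, nat_lit 97, nat_lit 49, nat_lit 1860659734⟩, ⟨nat_lit 4, nat_lit 92, nat_lit 100, nat_lit 68, nat_lit 1001537590⟩]⟩
noncomputable def p042_l83 : Lf2 := ⟨nat_lit 0, nat_lit 4, [nat_lit 38, nat_lit 5, nat_lit 5, nat_lit 20], false, nat_lit 240, nat_lit 312, nat_lit 160, nat_lit 252, ⟨nat_lit 1000, nat_lit 0, nat_lit 0, nat_lit 0, nat_lit 0, nat_lit 0, nat_lit 0, nat_lit 0, nat_lit 0, nat_lit 0, nat_lit 0, nat_lit 0, nat_lit 0, nat_lit 0, nat_lit 0, nat_lit 0, false, false⟩,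
 nat_lit 0, nat_lit 15594, nat_lit 0, nat_lit 0, nat_lit 8255, nat_lit 10949, nat_lit 2534, nat_lit 0, nat_lit 0, nat_lit 0, nat_lit 0, nat_lit 0, nat_lit 0, nat_lit 0, nat_lit 0, nat_lit 0, nat_lit 0, nat_lit 0, [],
 ⟨p042_k18, nat_lit 0, nat_lit 0, nat_lit 184, nat_lit 0, nat_lit 140231, [nat_lit 4688000000, nat_lit 6250000000, nat_lit 7968000000], [], [nat_lit 19335611006, nat_lit 20900079619, nat_lit 18240048440, nat_lit 19797803265, nat_lit 25894806210, nat_lit 27547531599, nat_lit 24769488075, nat_lit 26120478847], nat_lit 1271250, nat_lit 1271250, nat_lit 43600, nat_lit 111251, nat_lit 1271250, nat_lit 1271250, [nat_lit 1100000, nat_lit 1442500, nat_lit 1271250], [nat_lit 9, nat_lit 40, nat_lit 40, nat_lit 80, nat_lit 2, nat_lit 215, nat_lit 10, nat_lit 7]⟩, ⟨p042_k28, nat_lit 0, nat_lit 0, nat_lit 85, nat_lit 0, nat_lit 0, [nat_lit 6250000000, nat_lit 7968000000, nat_lit 9842000000], [], [nat_lit 9983710575,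 nat_lit 12104542218, nat_lit 8489766030, nat_lit 10603975442, nat_lit 18272909960, nat_lit 20346753152, nat_lit 16356336960, nat_lit 18433476636], nat_lit 0, nat_lit 0, nat_lit 0, nat_lit 0, nat_lit 0, nat_lit 0, [], [nat_lit 25, nat_lit 40, nat_lit 40, nat_lit 80, nat_lit 17, nat_lit 373, nat_lit 150, nat_lit 11]⟩,
 zbF0, [⟨nat_lit 0, nat_lit 100, nat_lit 98, nat_lit 40, nat_lit 1344557886⟩, ⟨nat_lit 11, nat_lit 100, nat_lit 93, nat_lit 41, nat_lit 1661411556⟩]⟩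
noncomputable def p042_l84 : Lf2 := ⟨nat_lit 0, nat_lit 4, [nat_lit 38, nat_lit 5, nat_lit 5, nat_lit 20], false, nat_lit 240, nat_lit 312, nat_lit 160, nat_lit 288, ⟨nat_lit 1000, nat_lit 0, nat_lit 0, nat_lit 0, nat_lit 0, nat_lit 0, nat_lit 0, nat_lit 0, nat_lit 0, nat_lit 0, nat_lit 0, nat_lit 0, nat_lit 0, nat_lit 0, nat_lit 0, nat_lit 0, false, false⟩,
 nat_lit 0, nat_lit 15594, nat_lit 0, nat_lit 0, nat_lit 8255, nat_lit 9567, nat_lit 3032, nat_lit 0, nat_lit 0, nat_lit 0, nat_lit 0, nat_lit 0, nat_lit 0, nat_lit 0, nat_lit 0, nat_lit 0, nat_lit 0, nat_lit 0, [],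
 ⟨p042_k18, nat_lit 0, nat_lit 0, nat_lit 172, nat_lit 0, nat_lit 140231, [nat_lit 4688000000, nat_lit 6250000000, nat_lit 7968000000], [], [nat_lit 18239197750, nat_lit 19797449480, nat_lit 16735223600, nat_lit 18155992470, nat_lit 24769488075, nat_lit 26120478847, nat_lit 22893957851, nat_lit 24237520882], nat_lit 1271250, nat_lit 1271250, nat_lit 111251, nat_lit 230001, nat_lit 1271250, nat_lit 1271250, [nat_lit 1100000, nat_lit 1442500, nat_lit 1271250], [nat_lit 9, nat_lit 40, nat_lit 40, nat_lit 80, nat_lit 2, nat_lit 215, nat_lit 10, nat_lit 7]⟩, ⟨p042_k28, nat_lit 0, nat_lit 0, nat_lit 97, nat_lit 0, nat_lit 0, [nat_lit 6250000000, nat_lit 7968000000, nat_lit 9842000000], [], [nat_lit 9988586490, nat_lit 11922876086, nat_lit 7851263048, nat_lit 9775272928, nat_lit 20966143308, nat_lit 22591699131, nat_lit 18662356449, nat_lit 19924994020], nat_lit 0, nat_lit 0, nat_lit 0, nat_lit 0, nat_lit 0, nat_lit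 0, [], [nat_lit 25, nat_lit 40, nat_lit 40, nat_lit 80, nat_lit 17, nat_lit 373, nat_lit 150, nat_lit 11]⟩,
 zbF0, [⟨nat_lit 0, nat_lit 100, nat_lit 97, nat_lit 49, nat_lit 422191779⟩, ⟨nat_lit 11, nat_lit 100, nat_lit 93, nat_lit 49, nat_lit 1390160689⟩]⟩
noncomputable def p042_l85 : Lf2 := ⟨nat_lit 0, nat_lit 4, [nat_lit 38, nat_lit 5, nat_lit 5, nat_lit 20], false, nat_lit 240, nat_lit 312, nat_lit 0, nat_lit 160, ⟨nat_lit 1000, nat_lit 0, nat_lit 0, nat_lit 0, nat_lit 0, nat_lit 0, nat_lit 0, nat_lit 0, nat_lit 0, nat_lit 0, nat_lit 0, nat_lit 0, nat_lit 0, nat_lit 0, nat_lit 0, nat_lit 0, false, false⟩,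
 nat_lit 0, nat_lit 20819, nat_lit 0, nat_lit 4696, nat_lit 11021, nat_lit 11254, nat_lit 512, nat_lit 0, nat_lit 0, nat_lit 4469, nat_lit 0, nat_lit 0, nat_lit 0, nat_lit 0, nat_lit 0, nat_lit 0, nat_lit 0, nat_lit 0, [],
 ⟨p042_k18, nat_lit 0, nat_lit 0, nat_lit 150, nat_lit 0, nat_lit 140231, [nat_lit 4688000000, nat_lit 6250000000, nat_lit 7968000000], [], [nat_lit 17538663536, nat_lit 19391801092, nat_lit 15190826460, nat_lit 16967556022, nat_lit 24778465763, nat_lit 26192619760, nat_lit 22130087900, nat_lit 23489025628], nat_lit 1271250, nat_lit 1271250, nat_lit 230001, nat_lit 490000, nat_lit 1271250, nat_lit 1271250, [nat_lit 1100000, nat_lit 1442500, nat_lit 1271250], [nat_lit 9, nat_lit 40, nat_lit 40, nat_lit 80, nat_lit 2, nat_lit 226, nat_lit 20, nat_lit 7]⟩, ⟨p042_k29, nat_lit 0, nat_lit 0, nat_lit 192, nat_lit 0, nat_lit 0, [nat_lit 6250000000, nat_lit 7968000000, nat_lit 9842000000], [], [nat_lit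 18074332272, nat_lit 21464116240, nat_lit 15908250672, nat_lit 19165662784, nat_lit 11807803064, nat_lit 14566400480, nat_lit 9983894640, nat_lit 12615395320], nat_lit 0, nat_lit 0, nat_lit 0, nat_lit 0, nat_lit 0, nat_lit 0, [], [nat_lit 25, nat_lit 40, nat_lit 40, nat_lit 80, nat_lit 17, nat_lit 345, nat_lit 125, nat_lit 10]⟩,
 zbF0, [⟨nat_lit 4, nat_lit 92, nat_lit 100, nat_lit 68, nat_lit 1050529545⟩]⟩
noncomputable def p042_l86 : Lf2 := ⟨nat_lit 0, nat_lit 4, [nat_lit 38, nat_lit 5, nat_lit 5, nat_lit 20], false, nat_lit 240, nat_lit 312, nat_lit 160, nat_lit 336, ⟨nat_lit 1000, nat_lit 0, nat_lit 0, nat_lit 0, nat_lit 0, nat_lit 0, nat_lit 0, nat_lit 0, nat_lit 0, nat_lit 0, nat_lit 0, nat_lit 0, nat_lit 0, nat_lit 0, nat_lit 0, nat_lit 0, false, false⟩,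
 nat_lit 0, nat_lit 16378, nat_lit 0, nat_lit 0, nat_lit 8670, nat_lit 8369, nat_lit 3201, nat_lit 0, nat_lit 0, nat_lit 0, nat_lit 0, nat_lit 0, nat_lit 0, nat_lit 0, nat_lit 0, nat_lit 0, nat_lit 0, nat_lit 0, [],
 ⟨p042_k18, nat_lit 0, nat_lit 0, nat_lit 150, nat_lit 0, nat_lit 140231, [nat_lit 4688000000, nat_lit 6250000000, nat_lit 7968000000], [], [nat_lit 15981218400, nat_lit 17639920380, nat_lit 14651768600, nat_lit 16050017260, nat_lit 22727090501, nat_lit 24107823588, nat_lit 20858301521, nat_lit 22187439423], nat_lit 1271250, nat_lit 1271250, nat_lit 230001, nat_lit 490000, nat_lit 1271250, nat_lit 1271250, [nat_lit 1100000, nat_lit 1442500, nat_lit 1271250], [nat_lit 9, nat_lit 40, nat_lit 40, nat_lit 80, nat_lit 2, nat_lit 226, nat_lit 20, nat_lit 7]⟩, ⟨p042_k29, nat_lit 0, nat_lit 0, nat_lit 107, nat_lit 0, nat_lit 0, [nat_lit 6250000000, nat_lit 7968000000, nat_lit 9842000000], [], [nat_lit 7687469776,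 nat_lit 11224872096, nat_lit 6474901524, nat_lit 9881514944, nat_lit 23539594346, nat_lit 25405967628, nat_lit 21717129996, nat_lit 23524797898], nat_lit 0, nat_lit 0, nat_lit 0, nat_lit 0, nat_lit 0, nat_lit 0, [], [nat_lit 25, nat_lit 40, nat_lit 40, nat_lit 80, nat_lit 17, nat_lit 401, nat_lit 175, nat_lit 12]⟩,
 zbF0, [⟨nat_lit 16, nat_lit 100, nat_lit 92, nat_lit 68, nat_lit 39298969⟩, ⟨nat_lit 11, nat_lit 100, nat_lit 95, nat_lit 61, nat_lit 1089355421⟩]⟩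
noncomputable def p042_l87 : Lf2 := ⟨nat_lit 1, nat_lit 1, [nat_lit 19, nat_lit 5, nat_lit 5, nat_lit 20], false, nat_lit 240, nat_lit 336, nat_lit 0, nat_lit 336, zbN0,
 nat_lit 0, nat_lit 0, nat_lit 0, nat_lit 0, nat_lit 0, nat_lit 0, nat_lit 0, nat_lit 0, nat_lit 0, nat_lit 0, nat_lit 0, nat_lit 0, nat_lit 0, nat_lit 0, nat_lit 0, nat_lit 0, nat_lit 0, nat_lit 0, [],
 C1.Rw.none, C1.Rw.none,
 zbF0, []⟩
noncomputable def p042_l88 : Lf2 := ⟨nat_lit 0, nat_lit 1, [nat_lit 19, nat_lit 5, nat_lit 5, nat_lit 20], false, nat_lit 240, nat_lit 328, nat_lit 0, nat_lit 160, ⟨nat_lit 1000, nat_lit 0, nat_lit 0, nat_lit 0, nat_lit 0, nat_lit 0, nat_lit 0, nat_lit 0, nat_lit 0, nat_lit 0, nat_lit 0, nat_lit 0, nat_lit 0, nat_lit 0, nat_lit 0, nat_lit 0, false, false⟩,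
 nat_lit 0, nat_lit 11325, nat_lit 0, nat_lit 23792, nat_lit 6291, nat_lit 10085, nat_lit 6872, nat_lit 0, nat_lit 0, nat_lit 0, nat_lit 0, nat_lit 0, nat_lit 0, nat_lit 0, nat_lit 0, nat_lit 0, nat_lit 0, nat_lit 0, [],
 ⟨p042_k30, nat_lit 0, nat_lit 0, nat_lit 144, nat_lit 0, nat_lit 17167, [nat_lit 4688000000, nat_lit 6250000000], [], [nat_lit 20032334714, nat_lit 20656238013, nat_lit 17299222389, nat_lit 17934729174, nat_lit 26279307286, nat_lit 26848990069, nat_lit 23223442199, nat_lit 23708631006], nat_lit 1271250, nat_lit 1271250, nat_lit 21650, nat_lit 490000, nat_lit 1271250, nat_lit 1271250, [nat_lit 1100000, nat_lit 1442500], [nat_lit 31, nat_lit 40, nat_lit 40, nat_lit 80, nat_lit 3, nat_lit 226, nat_lit 20, nat_lit 8]⟩, ⟨p042_k31, nat_lit 0, nat_lit 0, nat_lit 178, nat_lit 0, nat_lit 0, [nat_lit 6250000000, nat_lit 7968000000], [], [nat_lit 23451182816, nat_lit 26644031657, nat_lit 17509584280,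 nat_lit 20557128160, nat_lit 17481830416, nat_lit 20112712891, nat_lit 12544986600, nat_lit 15020519300], nat_lit 0, nat_lit 0, nat_lit 0, nat_lit 0, nat_lit 0, nat_lit 0, [], [nat_lit 26, nat_lit 40, nat_lit 40, nat_lit 80, nat_lit 2, nat_lit 345, nat_lit 125, nat_lit 12]⟩,
 zbF0, [⟨nat_lit 0, nat_lit 100, nat_lit 97, nat_lit 49, nat_lit 1359572945⟩, ⟨nat_lit 16, nat_lit 100, nat_lit 87, nat_lit 79, nat_lit 756916204⟩]⟩
noncomputable def p042_l89 : Lf2 := ⟨nat_lit 1, nat_lit 1, [nat_lit 19, nat_lit 5, nat_lit 5, nat_lit 20], false, nat_lit 240, nat_lit 328, nat_lit 160, nat_lit 336, zbN0,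
 nat_lit 0, nat_lit 0, nat_lit 0, nat_lit 0, nat_lit 0, nat_lit 0, nat_lit 0, nat_lit 0, nat_lit 0, nat_lit 0, nat_lit 0, nat_lit 0, nat_lit 0, nat_lit 0, nat_lit 0, nat_lit 0, nat_lit 0, nat_lit 0, [],
 C1.Rw.none, C1.Rw.none,
 zbF0, []⟩
noncomputable def p042_l90 : Lf2 := ⟨nat_lit 0, nat_lit 1, [nat_lit 19, nat_lit 5, nat_lit 5, nat_lit 20], false, nat_lit 240, nat_lit 328, nat_lit 160, nat_lit 336, ⟨nat_lit 660, nat_lit 0, nat_lit 340, nat_lit 5, nat_lit 90, nat_lit 340, nat_lit 211, nat_lit 340, nat_lit 5868, nat_lit 203, nat_lit 77067, nat_lit 283, nat_lit 48794621, nat_lit 0, nat_lit 0, nat_lit 3834726, false, false⟩,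
 nat_lit 0, nat_lit 11473, nat_lit 0, nat_lit 34525, nat_lit 6373, nat_lit 8337, nat_lit 4508, nat_lit 0, nat_lit 0, nat_lit 4319, nat_lit 0, nat_lit 0, nat_lit 0, nat_lit 0, nat_lit 0, nat_lit 340000, nat_lit 0, nat_lit 0, [(nat_lit 6, [(nat_lit 6, nat_lit 340)])],
 ⟨p042_k30, nat_lit 0, nat_lit 0, nat_lit 140, nat_lit 0, nat_lit 17167, [nat_lit 3426282667, nat_lit 4059720000], [], [nat_lit 17002042056, nat_lit 17627569999, nat_lit 14657512334, nat_lit 15248909661, nat_lit 25567115939, nat_lit 26265298448, nat_lit 21419950375, nat_lit 22098037957], nat_lit 1271250, nat_lit 1271250, nat_lit 65850, nat_lit 490000, nat_lit 1271250, nat_lit 1271250, [nat_lit 1100000, nat_lit 1442500], [nat_lit 31, nat_lit 40, nat_lit 40, nat_lit 80, nat_lit 3, nat_lit 226, nat_lit 20, nat_lit 8]⟩, ⟨p042_k32, nat_lit 0, nat_lit 0, nat_lit 140, nat_lit 0, nat_lit 0, [nat_lit 4125000000, nat_lit 5258880000], [], [nat_lit 5990594775,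 nat_lit 7122156682, nat_lit 2398801626, nat_lit 3463228200, nat_lit 22262502074, nat_lit 23212585373, nat_lit 16116043125, nat_lit 17064337637], nat_lit 0, nat_lit 0, nat_lit 0, nat_lit 0, nat_lit 0, nat_lit 0, [], [nat_lit 26, nat_lit 40, nat_lit 40, nat_lit 80, nat_lit 2, nat_lit 401, nat_lit 175, nat_lit 13]⟩,
 ⟨nat_lit 5916, nat_lit 6124, ⟨.ofNat (nat_lit 143557), .ofNat (nat_lit 280205), .ofNat (nat_lit 164905), .ofNat (nat_lit 301553), .ofNat (nat_lit 152230), .ofNat (nat_lit 285737), .ofNat (nat_lit 173569), .ofNat (nat_lit 307076)⟩, ⟨.ofNat (nat_lit 430942), .ofNat (nat_lit 607776), .ofNat (nat_lit 452290), .ofNat (nat_lit 629122), .ofNat (nat_lit 429157), .ofNat (nat_lit 601927), .ofNat (nat_lit 450496), .ofNat (nat_lit 623264)⟩⟩, [⟨nat_lit 0, nat_lit 100, nat_lit 97, nat_lit 49, nat_lit 14097117⟩, ⟨nat_lit 11, nat_lit 100, nat_lit 93, nat_lit 64, nat_lit 1021531329⟩]⟩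
noncomputable def p042_l91 : Lf2 := ⟨nat_lit 1, nat_lit 4, [nat_lit 38, nat_lit 5, nat_lit 5, nat_lit 20], false, nat_lit 240, nat_lit 336, nat_lit 0, nat_lit 336, zbN0,
 nat_lit 0, nat_lit 0, nat_lit 0, nat_lit 0, nat_lit 0, nat_lit 0, nat_lit 0, nat_lit 0, nat_lit 0, nat_lit 0, nat_lit 0, nat_lit 0, nat_lit 0, nat_lit 0, nat_lit 0, nat_lit 0, nat_lit 0, nat_lit 0, [],
 C1.Rw.none, C1.Rw.none,
 zbF0, []⟩
noncomputable def p042_l92 : Lf2 := ⟨nat_lit 0, nat_lit 4, [nat_lit 38, nat_lit 5, nat_lit 5, nat_lit 20], true, nat_lit 240, nat_lit 336, nat_lit 0, nat_lit 352, ⟨nat_lit 0, nat_lit 482, nat_lit 518, nat_lit 5, nat_lit 120, nat_lit 1000, nat_lit 211, nat_lit 518, nat_lit 31654, nat_lit 200, nat_lit 135000, nat_lit 305, nat_lit 47030445, nat_lit 5849339, nat_lit 14120216, nat_lit 4211399, false, false⟩,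
 nat_lit 0, nat_lit 11050, nat_lit 0, nat_lit 0, nat_lit 5850, nat_lit 0, nat_lit 731, nat_lit 0, nat_lit 0, nat_lit 0, nat_lit 0, nat_lit 0, nat_lit 0, nat_lit 0, nat_lit 0, nat_lit 1000000, nat_lit 0, nat_lit 0, [(nat_lit 6, [(nat_lit 2, nat_lit 482), (nat_lit 6, nat_lit 518)])],
 ⟨p042_k18, nat_lit 0, nat_lit 0, nat_lit 140, nat_lit 0, nat_lit 150248, [nat_lit 1864974934, nat_lit 1250529600, nat_lit 305960000], [], [nat_lit 12631197534, nat_lit 13989950200, nat_lit 12657948434, nat_lit 13979568900, nat_lit 21322534640, nat_lit 22579412520, nat_lit 21106922821, nat_lit 22335982381], nat_lit 1271250, nat_lit 1271250, nat_lit 490000, nat_lit 631250, nat_lit 1271250, nat_lit 1271250, [nat_lit 1100000, nat_lit 1442500, nat_lit 1271250], [nat_lit 9, nat_lit 40, nat_lit 40, nat_lit 80, nat_lit 2, nat_lit 232, nat_lit 25, nat_lit 7]⟩, C1.Rw.none,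
 ⟨nat_lit 5916, nat_lit 6325, ⟨.ofNat (nat_lit 253206), .ofNat (nat_lit 294338), .ofNat (nat_lit 295942), .ofNat (nat_lit 337074), .ofNat (nat_lit 264398), .ofNat (nat_lit 303665), .ofNat (nat_lit 307076), .ofNat (nat_lit 346343)⟩, ⟨.ofNat (nat_lit 411320), .ofNat (nat_lit 608730), .ofNat (nat_lit 454055), .ofNat (nat_lit 651452), .ofNat (nat_lit 407818), .ofNat (nat_lit 596275), .ofNat (nat_lit 450496), .ofNat (nat_lit 638940)⟩⟩, [⟨nat_lit 4, nat_lit 88, nat_lit 100, nat_lit 74, nat_lit 552824789⟩]⟩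
noncomputable def p042_l93 : Lf2 := ⟨nat_lit 0, nat_lit 4, [nat_lit 38, nat_lit 5, nat_lit 5, nat_lit 20], false, nat_lit 240, nat_lit 336, nat_lit 0, nat_lit 360, ⟨nat_lit 935, nat_lit 0, nat_lit 65, nat_lit 5, nat_lit 136, nat_lit 65, nat_lit 211, nat_lit 65, nat_lit 31654, nat_lit 200, nat_lit 173400, nat_lit 317, nat_lit 45995467, nat_lit 0, nat_lit 0, nat_lit 4398037, false, false⟩,
 nat_lit 0, nat_lit 16068, nat_lit 0, nat_lit 97, nat_lit 8506, nat_lit 7731, nat_lit 2327, nat_lit 0, nat_lit 0, nat_lit 0, nat_lit 0, nat_lit 0, nat_lit 0, nat_lit 0, nat_lit 0, nat_lit 65000, nat_lit 0, nat_lit 0, [(nat_lit 6, [(nat_lit 6, nat_lit 65)])],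
 ⟨p042_k18, nat_lit 0, nat_lit 0, nat_lit 175, nat_lit 0, nat_lit 270445, [nat_lit 4446789334, nat_lit 5831270001, nat_lit 7325410000], [], [nat_lit 14175902979, nat_lit 15519555829, nat_lit 14022561143, nat_lit 15324587239, nat_lit 22623521877, nat_lit 24085295161, nat_lit 22210112850, nat_lit 23538920599], nat_lit 1271250, nat_lit 1271250, nat_lit 631250, nat_lit 780000, nat_lit 1271250, nat_lit 1271250, [nat_lit 1100000, nat_lit 1442500, nat_lit 1271250], [nat_lit 9, nat_lit 40, nat_lit 40, nat_lit 80, nat_lit 2, nat_lit 238, nat_lit 30, nat_lit 7]⟩, ⟨p042_k29, nat_lit 0, nat_lit 0, nat_lit 85, nat_lit 0, nat_lit 0, [nat_lit 5843750000, nat_lit 7450080000, nat_lit 9202270000], [], [nat_lit 9450888734, nat_lit 13111261520, nat_lit 9452163164, nat_lit 13021378948, nat_lit 22615356660, nat_lit 24040158405, nat_lit 22227652178, nat_lit 23607765948], nat_lit 0, nat_lit 0, nat_lit 0, nat_lit 0, nat_lit 0, nat_lit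 0, [], [nat_lit 25, nat_lit 40, nat_lit 40, nat_lit 80, nat_lit 17, nat_lit 428, nat_lit 200, nat_lit 13]⟩,
 ⟨nat_lit 5916, nat_lit 6325, ⟨.ofNat (nat_lit 294338), .ofNat (nat_lit 335470), .ofNat (nat_lit 337074), .ofNat (nat_lit 378206), .ofNat (nat_lit 303665), .ofNat (nat_lit 342931), .ofNat (nat_lit 346343), .ofNat (nat_lit 385610)⟩, ⟨.ofNat (nat_lit 411320), .ofNat (nat_lit 608730), .ofNat (nat_lit 454055), .ofNat (nat_lit 651452), .ofNat (nat_lit 407818), .ofNat (nat_lit 596275), .ofNat (nat_lit 450496), .ofNat (nat_lit 638940)⟩⟩, [⟨nat_lit 4, nat_lit 88, nat_lit 100, nat_lit 74, nat_lit 833563050⟩, ⟨nat_lit 19, nat_lit 100, nat_lit 77, nat_lit 72, nat_lit 368733763⟩, ⟨nat_lit 23, nat_lit 100, nat_lit 89, nat_lit 99, nat_lit 69658012⟩]⟩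
noncomputable def p042_l94 : Lf2 := ⟨nat_lit 0, nat_lit 4, [nat_lit 38, nat_lit 5, nat_lit 5, nat_lit 20], false, nat_lit 240, nat_lit 336, nat_lit 0, nat_lit 360, ⟨nat_lit 1000, nat_lit 0, nat_lit 0, nat_lit 0, nat_lit 0, nat_lit 0, nat_lit 0, nat_lit 0, nat_lit 0, nat_lit 0, nat_lit 0, nat_lit 0, nat_lit 0, nat_lit 0, nat_lit 0, nat_lit 0, false, false⟩,
 nat_lit 0, nat_lit 16624, nat_lit 0, nat_lit 2963, nat_lit 8800, nat_lit 8355, nat_lit 2952, nat_lit 0, nat_lit 0, nat_lit 0, nat_lit 0, nat_lit 0, nat_lit 0, nat_lit 0, nat_lit 0, nat_lit 0, nat_lit 0, nat_lit 0, [],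
 ⟨p042_k18, nat_lit 0, nat_lit 0, nat_lit 165, nat_lit 0, nat_lit 270445, [nat_lit 4688000000, nat_lit 6250000000, nat_lit 7968000000], [], [nat_lit 14037750400, nat_lit 15365065200, nat_lit 18913999200, nat_lit 18794219200, nat_lit 22423809600, nat_lit 23699023120, nat_lit 24813331681, nat_lit 25945382480], nat_lit 1271250, nat_lit 1271250, nat_lit 780000, nat_lit 1762500, nat_lit 1271250, nat_lit 1271250, [nat_lit 1100000, nat_lit 1442500, nat_lit 1271250], [nat_lit 9, nat_lit 40, nat_lit 40, nat_lit 80, nat_lit 2, nat_lit 272, nat_lit 60, nat_lit 8]⟩, ⟨p042_k29, nat_lit 0, nat_lit 0, nat_lit 88, nat_lit 0, nat_lit 0, [nat_lit 6250000000, nat_lit 7968000000, nat_lit 9842000000], [], [nat_lit 10024537720, nat_lit 13866838940, nat_lit 16970889160, nat_lit 19837925720, nat_lit 23725430590, nat_lit 25205963640, nat_lit 25784636530, nat_lit 27176515800], nat_lit 0, nat_lit 0, nat_lit 0, nat_lit 0, nat_lit 0, nat_lit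 0, [], [nat_lit 25, nat_lit 40, nat_lit 40, nat_lit 80, nat_lit 17, nat_lit 456, nat_lit 225, nat_lit 13]⟩,
 zbF0, [⟨nat_lit 4, nat_lit 88, nat_lit 100, nat_lit 74, nat_lit 921744073⟩, ⟨nat_lit 7, nat_lit 77, nat_lit 100, nat_lit 72, nat_lit 489916134⟩]⟩
noncomputable def p042_l95 : Lf2 := ⟨nat_lit 1, nat_lit 8, [nat_lit 50, nat_lit 5, nat_lit 5, nat_lit 20], false, nat_lit 240, nat_lit 336, nat_lit 0, nat_lit 360, zbN0,
 nat_lit 0, nat_lit 0, nat_lit 0, nat_lit 0, nat_lit 0, nat_lit 0, nat_lit 0, nat_lit 0, nat_lit 0, nat_lit 0, nat_lit 0, nat_lit 0, nat_lit 0, nat_lit 0, nat_lit 0, nat_lit 0, nat_lit 0, nat_lit 0, [],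
 C1.Rw.none, C1.Rw.none,
 zbF0, []⟩
noncomputable def b_V_600_500_10_9 : St := ⟨true, nat_lit 1, nat_lit 0, nat_lit 1, nat_lit 80, nat_lit 240, nat_lit 260, nat_lit 200, nat_lit 240, nat_lit 4, nat_lit 240, nat_lit 40, nat_lit 80, nat_lit 240, nat_lit 336, nat_lit 0, nat_lit 360, nat_lit 0, nat_lit 32, nat_lit 0, nat_lit 0, nat_lit 0, nat_lit 0⟩
theorem d_V_600_500_10_9 (h : EB TB.env) : Dead b_V_600_500_10_9 := chkB_sound0 h (T :=
(.spl (nat_lit 6) (nat_lit 16)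
(.spl (nat_lit 2) (nat_lit 120)
(.spl (nat_lit 2) (nat_lit 80)
(.trX (nat_lit 23) (nat_lit 100) (nat_lit 76) (nat_lit 82) (nat_lit 336) (.spl (nat_lit 3) (nat_lit 60)
(.trX (nat_lit 16) (nat_lit 100) (nat_lit 85) (nat_lit 73) (nat_lit 312) (.spl (nat_lit 2) (nat_lit 40)
(.trX (nat_lit 23) (nat_lit 100) (nat_lit 92) (nat_lit 61) (nat_lit 288) (.spl (nat_lit 1) (nat_lit 220)
(.leaf p042_l81)
(.trZ (nat_lit 0) (nat_lit 100) (nat_lit 98) (nat_lit 30) (nat_lit 8) (.spl (nat_lit 5) (nat_lit 160)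
(.leaf p042_l82)
(.spl (nat_lit 2) (nat_lit 20)
(.trX (nat_lit 23) (nat_lit 100) (nat_lit 99) (nat_lit 44) (nat_lit 252) (.leaf p042_l83))
(.leaf p042_l84))))))
(.spl (nat_lit 5) (nat_lit 160)
(.leaf p042_l85)
(.leaf p042_l86))))
(.spl (nat_lit 6) (nat_lit 4)
(.spl (nat_lit 0) (nat_lit 250)
(.leaf p042_l87)
(.trX (nat_lit 16) (nat_lit 100) (nat_lit 81) (nat_lit 83) (nat_lit 328) (.spl (nat_lit 5) (nat_lit 160)
(.leaf p042_l88)
(.spl (nat_lit 1) (nat_lit 220)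
(.leaf p042_l89)
(.trZ (nat_lit 0) (nat_lit 100) (nat_lit 97) (nat_lit 35) (nat_lit 12) (.leaf p042_l90))))))
(.leaf p042_l91))))
(.spl (nat_lit 2) (nat_lit 100)
(.trX (nat_lit 23) (nat_lit 100) (nat_lit 68) (nat_lit 88) (nat_lit 352) (.leaf p042_l92))
(.leaf p042_l93)))
(.leaf p042_l94))
(.leaf p042_l95))) (by decide +kernel)
noncomputable def p042_l96 : Lf2 := ⟨nat_lit 0, nat_lit 5, [nat_lit 4, nat_lit 5, nat_lit 5, nat_lit 20], true, nat_lit 240, nat_lit 296, nat_lit 0, nat_lit 252, ⟨nat_lit 0, nat_lit 0, nat_lit 1000, nat_lit 5, nat_lit 66, nat_lit 1000, nat_lit 188, nat_lit 1000, nat_lit 11818, nat_lit 238, nat_lit 40017, nat_lit 264, nat_lit 52447283, nat_lit 0, nat_lit 0, nat_lit 3254692, false, false⟩,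
 nat_lit 0, nat_lit 6476, nat_lit 0, nat_lit 354, nat_lit 3769, nat_lit 0, nat_lit 0, nat_lit 0, nat_lit 0, nat_lit 0, nat_lit 0, nat_lit 0, nat_lit 0, nat_lit 0, nat_lit 117, nat_lit 1000000, nat_lit 0, nat_lit 0, [(nat_lit 9, [(nat_lit 6, nat_lit 1000)])],
 ⟨p042_k26, nat_lit 0, nat_lit 0, nat_lit 218, nat_lit 0, nat_lit 239020, [nat_lit 2969600000, nat_lit 1600000000, nat_lit 226400000], [], [nat_lit 16956183089, nat_lit 17858116342, nat_lit 16689616885, nat_lit 17530275684, nat_lit 20128496742, nat_lit 21354772022, nat_lit 19559368273, nat_lit 20783201428], nat_lit 1271250, nat_lit 1271250, nat_lit 43600, nat_lit 111251, nat_lit 1271250, nat_lit 1271250, [nat_lit 1100000, nat_lit 1442500, nat_lit 1271250], [nat_lit 9, nat_lit 40, nat_lit 40, nat_lit 80, nat_lit 2, nat_lit 215, nat_lit 10, nat_lit 7]⟩, C1.Rw.none,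
 ⟨nat_lit 5477, nat_lit 5917, ⟨.ofNat (nat_lit 123037), .ofNat (nat_lit 146597), .ofNat (nat_lit 165716), .ofNat (nat_lit 189276), .ofNat (nat_lit 140320), .ofNat (nat_lit 162800), .ofNat (nat_lit 183034), .ofNat (nat_lit 205514)⟩, ⟨.ofNat (nat_lit 407818), .ofNat (nat_lit 517765), .ofNat (nat_lit 429157), .ofNat (nat_lit 539104), .ofNat (nat_lit 404075), .ofNat (nat_lit 508982), .ofNat (nat_lit 425432), .ofNat (nat_lit 530339)⟩⟩, [⟨nat_lit 0, nat_lit 100, nat_lit 94, nat_lit 44, nat_lit 1153031439⟩, ⟨nat_lit 4, nat_lit 100, nat_lit 100, nat_lit 71, nat_lit 344668316⟩]⟩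
noncomputable def p042_l97 : Lf2 := ⟨nat_lit 0, nat_lit 5, [nat_lit 4, nat_lit 5, nat_lit 5, nat_lit 20], false, nat_lit 240, nat_lit 296, nat_lit 0, nat_lit 160, ⟨nat_lit 200, nat_lit 0, nat_lit 800, nat_lit 5, nat_lit 78, nat_lit 800, nat_lit 188, nat_lit 800, nat_lit 11818, nat_lit 238, nat_lit 58017, nat_lit 274, nat_lit 51759723, nat_lit 0, nat_lit 0, nat_lit 3433788, false, false⟩,
 nat_lit 0, nat_lit 7479, nat_lit 0, nat_lit 2788, nat_lit 4353, nat_lit 2114, nat_lit 0, nat_lit 0, nat_lit 0, nat_lit 928, nat_lit 0, nat_lit 0, nat_lit 0, nat_lit 0, nat_lit 27, nat_lit 800000, nat_lit 0, nat_lit 0, [(nat_lit 9, [(nat_lit 6, nat_lit 800)])],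
 ⟨p042_k26, nat_lit 0, nat_lit 0, nat_lit 206, nat_lit 0, nat_lit 239020, [nat_lit 2247680000, nat_lit 1198000000, nat_lit 168520000], [], [nat_lit 17460849088, nat_lit 18416121678, nat_lit 16783189028, nat_lit 17729544500, nat_lit 20177836390, nat_lit 21481401927, nat_lit 19481516430, nat_lit 20439918152], nat_lit 1271250, nat_lit 1271250, nat_lit 111251, nat_lit 230001, nat_lit 1271250, nat_lit 1271250, [nat_lit 1100000, nat_lit 1442500, nat_lit 1271250], [nat_lit 9, nat_lit 40, nat_lit 40, nat_lit 80, nat_lit 2, nat_lit 215, nat_lit 10, nat_lit 6]⟩, ⟨p042_k16, nat_lit 0, nat_lit 0, nat_lit 352, nat_lit 0, nat_lit 0, [nat_lit 1250000000, nat_lit 1593600000, nat_lit 2374400000], [], [nat_lit 4317788112, nat_lit 4899606312, nat_lit 3766089552, nat_lit 4418192240, nat_lit 3026487952, nat_lit 3563155300, nat_lit 2629618024, nat_lit 3161829280], nat_lit 0, nat_lit 0, nat_lit 0, nat_lit 0, nat_lit 0, nat_lit 0,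 [], [nat_lit 53, nat_lit 40, nat_lit 40, nat_lit 80, nat_lit 14, nat_lit 345, nat_lit 125, nat_lit 9]⟩,
 ⟨nat_lit 5477, nat_lit 5917, ⟨.ofNat (nat_lit 146597), .ofNat (nat_lit 185864), .ofNat (nat_lit 189276), .ofNat (nat_lit 228543), .ofNat (nat_lit 162800), .ofNat (nat_lit 200266), .ofNat (nat_lit 205514), .ofNat (nat_lit 242980)⟩, ⟨.ofNat (nat_lit 407818), .ofNat (nat_lit 517765), .ofNat (nat_lit 429157), .ofNat (nat_lit 539104), .ofNat (nat_lit 404075), .ofNat (nat_lit 508982), .ofNat (nat_lit 425432), .ofNat (nat_lit 530339)⟩⟩, [⟨nat_lit 0, nat_lit 100, nat_lit 94, nat_lit 44, nat_lit 556595381⟩, ⟨nat_lit 4, nat_lit 100, nat_lit 100, nat_lit 71, nat_lit 394618656⟩]⟩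
noncomputable def p042_l98 : Lf2 := ⟨nat_lit 0, nat_lit 5, [nat_lit 4, nat_lit 5, nat_lit 5, nat_lit 20], true, nat_lit 240, nat_lit 296, nat_lit 160, nat_lit 288, ⟨nat_lit 0, nat_lit 0, nat_lit 1000, nat_lit 5, nat_lit 74, nat_lit 1000, nat_lit 188, nat_lit 1000, nat_lit 11818, nat_lit 238, nat_lit 50417, nat_lit 270, nat_lit 52004427, nat_lit 0, nat_lit 0, nat_lit 3371947, false, false⟩,
 nat_lit 0, nat_lit 6389, nat_lit 0, nat_lit 517, nat_lit 3718, nat_lit 0, nat_lit 0, nat_lit 0, nat_lit 0, nat_lit 0, nat_lit 0, nat_lit 0, nat_lit 0, nat_lit 0, nat_lit 117, nat_lit 1000000, nat_lit 0, nat_lit 0, [(nat_lit 9, [(nat_lit 6, nat_lit 1000)])],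
 ⟨p042_k26, nat_lit 0, nat_lit 0, nat_lit 181, nat_lit 0, nat_lit 169000, [nat_lit 2969600000, nat_lit 1600000000, nat_lit 226400000], [], [nat_lit 16552841588, nat_lit 17602693848, nat_lit 16028174580, nat_lit 17067542536, nat_lit 19507595420, nat_lit 20722228439, nat_lit 18953084739, nat_lit 19856577630], nat_lit 1271250, nat_lit 1271250, nat_lit 111251, nat_lit 230001, nat_lit 1271250, nat_lit 1271250, [nat_lit 1100000, nat_lit 1442500, nat_lit 1271250], [nat_lit 9, nat_lit 40, nat_lit 40, nat_lit 80, nat_lit 2, nat_lit 215, nat_lit 10, nat_lit 6]⟩, C1.Rw.none,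
 ⟨nat_lit 5477, nat_lit 5917, ⟨.ofNat (nat_lit 146597), .ofNat (nat_lit 185864), .ofNat (nat_lit 167937), .ofNat (nat_lit 207203), .ofNat (nat_lit 162800), .ofNat (nat_lit 200266), .ofNat (nat_lit 184157), .ofNat (nat_lit 221623)⟩, ⟨.ofNat (nat_lit 407818), .ofNat (nat_lit 517765), .ofNat (nat_lit 429157), .ofNat (nat_lit 539104), .ofNat (nat_lit 404075), .ofNat (nat_lit 508982), .ofNat (nat_lit 425432), .ofNat (nat_lit 530339)⟩⟩, [⟨nat_lit 4, nat_lit 100, nat_lit 100, nat_lit 71, nat_lit 355127518⟩]⟩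
noncomputable def p042_l99 : Lf2 := ⟨nat_lit 0, nat_lit 5, [nat_lit 4, nat_lit 5, nat_lit 5, nat_lit 20], false, nat_lit 240, nat_lit 296, nat_lit 160, nat_lit 288, ⟨nat_lit 1000, nat_lit 0, nat_lit 0, nat_lit 0, nat_lit 0, nat_lit 0, nat_lit 0, nat_lit 0, nat_lit 0, nat_lit 0, nat_lit 0, nat_lit 0, nat_lit 0, nat_lit 0, nat_lit 0, nat_lit 0, false, false⟩,
 nat_lit 0, nat_lit 13230, nat_lit 0, nat_lit 0, nat_lit 7700, nat_lit 9811, nat_lit 2526, nat_lit 0, nat_lit 0, nat_lit 0, nat_lit 0, nat_lit 0, nat_lit 0, nat_lit 0, nat_lit 0, nat_lit 0, nat_lit 0, nat_lit 0, [],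
 ⟨p042_k26, nat_lit 0, nat_lit 0, nat_lit 206, nat_lit 0, nat_lit 239020, [nat_lit 4688000000, nat_lit 6250000000, nat_lit 7968000000], [], [nat_lit 18415074650, nat_lit 19794934050, nat_lit 17017198050, nat_lit 18382647850, nat_lit 23715298521, nat_lit 25482903760, nat_lit 21519869320, nat_lit 23283816320], nat_lit 1271250, nat_lit 1271250, nat_lit 111251, nat_lit 230001, nat_lit 1271250, nat_lit 1271250, [nat_lit 1100000, nat_lit 1442500, nat_lit 1271250], [nat_lit 9, nat_lit 40, nat_lit 40, nat_lit 80, nat_lit 2, nat_lit 215, nat_lit 10, nat_lit 6]⟩, ⟨p042_k33, nat_lit 0, nat_lit 0, nat_lit 97, nat_lit 0, nat_lit 0, [nat_lit 6250000000, nat_lit 7968000000, nat_lit 9842000000], [], [nat_lit 9723961170, nat_lit 11690016638, nat_lit 7524386984, nat_lit 9480029024, nat_lit 21146645431, nat_lit 22796452024, nat_lit 18505431851, nat_lit 19940618581], nat_lit 0, nat_lit 0, nat_lit 0, nat_lit 0, nat_lit 0, nat_lit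 0, [], [nat_lit 25, nat_lit 40, nat_lit 40, nat_lit 80, nat_lit 17, nat_lit 373, nat_lit 150, nat_lit 11]⟩,
 zbF0, [⟨nat_lit 0, nat_lit 100, nat_lit 95, nat_lit 49, nat_lit 692064704⟩, ⟨nat_lit 4, nat_lit 100, nat_lit 100, nat_lit 71, nat_lit 170241249⟩, ⟨nat_lit 11, nat_lit 100, nat_lit 100, nat_lit 55, nat_lit 1137030209⟩]⟩
noncomputable def p042_l100 : Lf2 := ⟨nat_lit 0, nat_lit 5, [nat_lit 4, nat_lit 5, nat_lit 5, nat_lit 20], true, nat_lit 240, nat_lit 296, nat_lit 0, nat_lit 336, ⟨nat_lit 0, nat_lit 0, nat_lit 1000, nat_lit 5, nat_lit 101, nat_lit 1000, nat_lit 188, nat_lit 1000, nat_lit 11818, nat_lit 238, nat_lit 96267, nat_lit 291, nat_lit 50351311, nat_lit 0, nat_lit 0, nat_lit 3756086, false, false⟩,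
 nat_lit 0, nat_lit 6632, nat_lit 0, nat_lit 0, nat_lit 3860, nat_lit 0, nat_lit 0, nat_lit 0, nat_lit 0, nat_lit 0, nat_lit 0, nat_lit 0, nat_lit 0, nat_lit 0, nat_lit 113, nat_lit 964600, nat_lit 0, nat_lit 0, [(nat_lit 9, [(nat_lit 5, nat_lit 59), (nat_lit 6, nat_lit 941)])],
 ⟨p042_k26, nat_lit 0, nat_lit 0, nat_lit 185, nat_lit 0, nat_lit 239020, [nat_lit 2930899200, nat_lit 1551482400, nat_lit 211678400], [], [nat_lit 15829749000, nat_lit 16885183120, nat_lit 15656526440, nat_lit 16673228640, nat_lit 18800695076, nat_lit 19910523776, nat_lit 18519442441, nat_lit 19403473976], nat_lit 1271250, nat_lit 1271250, nat_lit 230001, nat_lit 490000, nat_lit 1271250, nat_lit 1271250, [nat_lit 1100000, nat_lit 1442500, nat_lit 1271250], [nat_lit 9, nat_lit 40, nat_lit 40, nat_lit 80, nat_lit 2, nat_lit 226, nat_lit 20, nat_lit 7]⟩, C1.Rw.none,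
 ⟨nat_lit 5477, nat_lit 5917, ⟨.ofNat (nat_lit 185864), .ofNat (nat_lit 264398), .ofNat (nat_lit 228543), .ofNat (nat_lit 307076), .ofNat (nat_lit 200266), .ofNat (nat_lit 275199), .ofNat (nat_lit 242980), .ofNat (nat_lit 317913)⟩, ⟨.ofNat (nat_lit 407818), .ofNat (nat_lit 517765), .ofNat (nat_lit 429157), .ofNat (nat_lit 539104), .ofNat (nat_lit 404075), .ofNat (nat_lit 508982), .ofNat (nat_lit 425432), .ofNat (nat_lit 530339)⟩⟩, [⟨nat_lit 4, nat_lit 100, nat_lit 100, nat_lit 71, nat_lit 357137415⟩]⟩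
noncomputable def p042_l101 : Lf2 := ⟨nat_lit 0, nat_lit 8, [nat_lit 50, nat_lit 5, nat_lit 5, nat_lit 20], true, nat_lit 240, nat_lit 296, nat_lit 0, nat_lit 336, ⟨nat_lit 0, nat_lit 0, nat_lit 1000, nat_lit 5, nat_lit 89, nat_lit 1000, nat_lit 188, nat_lit 1000, nat_lit 11818, nat_lit 238, nat_lit 74817, nat_lit 282, nat_lit 51120023, nat_lit 0, nat_lit 0, nat_lit 3586764, false, false⟩,
 nat_lit 0, nat_lit 7804, nat_lit 0, nat_lit 6436, nat_lit 4542, nat_lit 0, nat_lit 0, nat_lit 0, nat_lit 0, nat_lit 0, nat_lit 0, nat_lit 0, nat_lit 0, nat_lit 0, nat_lit 112, nat_lit 544000, nat_lit 0, nat_lit 0, [(nat_lit 9, [(nat_lit 5, nat_lit 760), (nat_lit 6, nat_lit 240)])],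
 ⟨p042_k20, nat_lit 0, nat_lit 0, nat_lit 181, nat_lit 0, nat_lit 46169, [nat_lit 3215488000, nat_lit 2037306667, nat_lit 24613333], [], [nat_lit 16943466789, nat_lit 18216778831, nat_lit 14896509788, nat_lit 15985960928, nat_lit 21092841142, nat_lit 22425996288, nat_lit 18296120321, nat_lit 19585138970], nat_lit 1271250, nat_lit 1271250, nat_lit 43600, nat_lit 490000, nat_lit 1271250, nat_lit 1271250, [nat_lit 1100000, nat_lit 1442500, nat_lit 1271250], [nat_lit 11, nat_lit 40, nat_lit 40, nat_lit 80, nat_lit 1, nat_lit 401, nat_lit 175, nat_lit 11]⟩, C1.Rw.none,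
 ⟨nat_lit 5477, nat_lit 5917, ⟨.ofNat (nat_lit 123037), .ofNat (nat_lit 264398), .ofNat (nat_lit 165716), .ofNat (nat_lit 307076), .ofNat (nat_lit 140320), .ofNat (nat_lit 275199), .ofNat (nat_lit 183034), .ofNat (nat_lit 317913)⟩, ⟨.ofNat (nat_lit 407818), .ofNat (nat_lit 517765), .ofNat (nat_lit 429157), .ofNat (nat_lit 539104), .ofNat (nat_lit 404075), .ofNat (nat_lit 508982), .ofNat (nat_lit 425432), .ofNat (nat_lit 530339)⟩⟩, [⟨nat_lit 0, nat_lit 100, nat_lit 94, nat_lit 59, nat_lit 265716300⟩, ⟨nat_lit 4, nat_lit 100, nat_lit 100, nat_lit 71, nat_lit 529021127⟩]⟩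
noncomputable def p042_l102 : Lf2 := ⟨nat_lit 0, nat_lit 4, [nat_lit 38, nat_lit 5, nat_lit 5, nat_lit 20], false, nat_lit 240, nat_lit 320, nat_lit 0, nat_lit 160, ⟨nat_lit 1000, nat_lit 0, nat_lit 0, nat_lit 0, nat_lit 0, nat_lit 0, nat_lit 0, nat_lit 0, nat_lit 0, nat_lit 0, nat_lit 0, nat_lit 0, nat_lit 0, nat_lit 0, nat_lit 0, nat_lit 0, false, false⟩,
 nat_lit 0, nat_lit 13350, nat_lit 0, nat_lit 25455, nat_lit 7770, nat_lit 11254, nat_lit 2198, nat_lit 0, nat_lit 0, nat_lit 4502, nat_lit 0, nat_lit 0, nat_lit 0, nat_lit 0, nat_lit 0, nat_lit 0, nat_lit 0, nat_lit 0, [],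
 ⟨p042_k27, nat_lit 0, nat_lit 0, nat_lit 188, nat_lit 0, nat_lit 129767, [nat_lit 4688000000, nat_lit 6250000000, nat_lit 7968000000], [], [nat_lit 19788549673, nat_lit 21298658321, nat_lit 17304126520, nat_lit 18541045610, nat_lit 27746385780, nat_lit 29358518137, nat_lit 24177677940, nat_lit 25787567160], nat_lit 1271250, nat_lit 1271250, nat_lit 43600, nat_lit 230001, nat_lit 1271250, nat_lit 1271250, [nat_lit 1100000, nat_lit 1442500, nat_lit 1271250], [nat_lit 9, nat_lit 40, nat_lit 40, nat_lit 80, nat_lit 2, nat_lit 215, nat_lit 10, nat_lit 7]⟩, ⟨p042_k29, nat_lit 0, nat_lit 0, nat_lit 287, nat_lit 0, nat_lit 0, [nat_lit 6250000000, nat_lit 7968000000, nat_lit 9842000000], [], [nat_lit 22940822570, nat_lit 26704191556, nat_lit 18074332272, nat_lit 21464116240, nat_lit 15218990917, nat_lit 18014635712, nat_lit 11807803064, nat_lit 14566400480], nat_lit 0, nat_lit 0, nat_lit 0, nat_lit 0, nat_lit 0, nat_lit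 0, [], [nat_lit 25, nat_lit 40, nat_lit 40, nat_lit 80, nat_lit 17, nat_lit 345, nat_lit 125, nat_lit 11]⟩,
 zbF0, [⟨nat_lit 0, nat_lit 100, nat_lit 94, nat_lit 44, nat_lit 2247349146⟩, ⟨nat_lit 4, nat_lit 93, nat_lit 100, nat_lit 81, nat_lit 860595241⟩]⟩
noncomputable def p042_l103 : Lf2 := ⟨nat_lit 0, nat_lit 4, [nat_lit 38, nat_lit 5, nat_lit 5, nat_lit 20], true, nat_lit 240, nat_lit 320, nat_lit 160, nat_lit 252, ⟨nat_lit 0, nat_lit 1000, nat_lit 0, nat_lit 5, nat_lit 66, nat_lit 1000, nat_lit 206, nat_lit 0, nat_lit 0, nat_lit 0, nat_lit 0, nat_lit 0, nat_lit 50666693, nat_lit 2397860, nat_lit 13935447, nat_lit 3440704, false, false⟩,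
 nat_lit 0, nat_lit 8349, nat_lit 0, nat_lit 18325, nat_lit 4859, nat_lit 0, nat_lit 1070, nat_lit 0, nat_lit 0, nat_lit 0, nat_lit 0, nat_lit 0, nat_lit 0, nat_lit 0, nat_lit 0, nat_lit 1000000, nat_lit 0, nat_lit 0, [(nat_lit 9, [(nat_lit 2, nat_lit 1000)])],
 ⟨p042_k27, nat_lit 0, nat_lit 0, nat_lit 188, nat_lit 0, nat_lit 129767, [nat_lit 2663466667, nat_lit 2329200000, nat_lit 1646800000], [], [nat_lit 18400185943, nat_lit 19586350852, nat_lit 17933690075, nat_lit 19114248258, nat_lit 23470260687, nat_lit 24733588872, nat_lit 22689979079, nat_lit 23949321184], nat_lit 1271250, nat_lit 1271250, nat_lit 43600, nat_lit 111251, nat_lit 1271250, nat_lit 1271250, [nat_lit 1100000, nat_lit 1442500, nat_lit 1271250], [nat_lit 9, nat_lit 40, nat_lit 40, nat_lit 80, nat_lit 2, nat_lit 215, nat_lit 10, nat_lit 7]⟩, C1.Rw.none,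
 ⟨nat_lit 5477, nat_lit 5917, ⟨.ofNat (nat_lit 123037), .ofNat (nat_lit 146597), .ofNat (nat_lit 165716), .ofNat (nat_lit 189276), .ofNat (nat_lit 140320), .ofNat (nat_lit 162800), .ofNat (nat_lit 183034), .ofNat (nat_lit 205514)⟩, ⟨.ofNat (nat_lit 429157), .ofNat (nat_lit 586223), .ofNat (nat_lit 450496), .ofNat (nat_lit 607556), .ofNat (nat_lit 425432), .ofNat (nat_lit 575297), .ofNat (nat_lit 446789), .ofNat (nat_lit 596648)⟩⟩, [⟨nat_lit 0, nat_lit 100, nat_lit 94, nat_lit 44, nat_lit 2611844572⟩, ⟨nat_lit 4, nat_lit 93, nat_lit 100, nat_lit 81, nat_lit 266470712⟩]⟩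
noncomputable def p042_l104 : Lf2 := ⟨nat_lit 0, nat_lit 4, [nat_lit 38, nat_lit 5, nat_lit 5, nat_lit 20], false, nat_lit 240, nat_lit 320, nat_lit 160, nat_lit 288, ⟨nat_lit 1000, nat_lit 0, nat_lit 0, nat_lit 0, nat_lit 0, nat_lit 0, nat_lit 0, nat_lit 0, nat_lit 0, nat_lit 0, nat_lit 0, nat_lit 0, nat_lit 0, nat_lit 0, nat_lit 0, nat_lit 0, false, false⟩,
 nat_lit 0, nat_lit 13329, nat_lit 0, nat_lit 0, nat_lit 7758, nat_lit 11399, nat_lit 2378, nat_lit 0, nat_lit 0, nat_lit 0, nat_lit 0, nat_lit 0, nat_lit 0, nat_lit 0, nat_lit 0, nat_lit 0, nat_lit 0, nat_lit 0, [],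
 ⟨p042_k27, nat_lit 0, nat_lit 0, nat_lit 176, nat_lit 0, nat_lit 129767, [nat_lit 4688000000, nat_lit 6250000000, nat_lit 7968000000], [], [nat_lit 18450704546, nat_lit 19836416842, nat_lit 17040162602, nat_lit 18411393494, nat_lit 26392782636, nat_lit 28002633408, nat_lit 24166156476, nat_lit 25774601064], nat_lit 1271250, nat_lit 1271250, nat_lit 111251, nat_lit 230001, nat_lit 1271250, nat_lit 1271250, [nat_lit 1100000, nat_lit 1442500, nat_lit 1271250], [nat_lit 9, nat_lit 40, nat_lit 40, nat_lit 80, nat_lit 2, nat_lit 215, nat_lit 10, nat_lit 6]⟩, ⟨p042_k29, nat_lit 0, nat_lit 0, nat_lit 97, nat_lit 0, nat_lit 0, [nat_lit 6250000000, nat_lit 7968000000, nat_lit 9842000000], [], [nat_lit 5828933518, nat_lit 10174521542, nat_lit 3235502896, nat_lit 7558523616, nat_lit 20513753386, nat_lit 24129024129, nat_lit 17135625580, nat_lit 20769892508], nat_lit 0, nat_lit 0, nat_lit 0, nat_lit 0, nat_lit 0, nat_lit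 0, [], [nat_lit 25, nat_lit 40, nat_lit 40, nat_lit 80, nat_lit 17, nat_lit 373, nat_lit 150, nat_lit 11]⟩,
 zbF0, [⟨nat_lit 0, nat_lit 100, nat_lit 94, nat_lit 59, nat_lit 438986903⟩, ⟨nat_lit 11, nat_lit 100, nat_lit 100, nat_lit 55, nat_lit 1371875818⟩]⟩
noncomputable def p042_l105 : Lf2 := ⟨nat_lit 0, nat_lit 4, [nat_lit 38, nat_lit 5, nat_lit 5, nat_lit 20], false, nat_lit 240, nat_lit 320, nat_lit 0, nat_lit 160, ⟨nat_lit 1000, nat_lit 0, nat_lit 0, nat_lit 0, nat_lit 0, nat_lit 0, nat_lit 0, nat_lit 0, nat_lit 0, nat_lit 0, nat_lit 0, nat_lit 0, nat_lit 0, nat_lit 0, nat_lit 0, nat_lit 0, false, false⟩,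
 nat_lit 0, nat_lit 13350, nat_lit 0, nat_lit 18159, nat_lit 7770, nat_lit 9986, nat_lit 2198, nat_lit 0, nat_lit 0, nat_lit 3461, nat_lit 0, nat_lit 0, nat_lit 0, nat_lit 0, nat_lit 0, nat_lit 0, nat_lit 0, nat_lit 0, [],
 ⟨p042_k27, nat_lit 0, nat_lit 0, nat_lit 155, nat_lit 0, nat_lit 129767, [nat_lit 4688000000, nat_lit 6250000000, nat_lit 7968000000], [], [nat_lit 17304126520, nat_lit 18541045610, nat_lit 16054950460, nat_lit 17310888770, nat_lit 24177677940, nat_lit 25787567160, nat_lit 22037834120, nat_lit 23600826760], nat_lit 1271250, nat_lit 1271250, nat_lit 230001, nat_lit 490000, nat_lit 1271250, nat_lit 1271250, [nat_lit 1100000, nat_lit 1442500, nat_lit 1271250], [nat_lit 9, nat_lit 40, nat_lit 40, nat_lit 80, nat_lit 2, nat_lit 226, nat_lit 20, nat_lit 7]⟩, ⟨p042_k29, nat_lit 0, nat_lit 0, nat_lit 192, nat_lit 0, nat_lit 0, [nat_lit 6250000000, nat_lit 7968000000, nat_lit 9842000000], [], [nat_lit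 19938049483, nat_lit 22626287323, nat_lit 17926388635, nat_lit 20674968256, nat_lit 14292428776, nat_lit 16870204320, nat_lit 12761879760, nat_lit 15224203880], nat_lit 0, nat_lit 0, nat_lit 0, nat_lit 0, nat_lit 0, nat_lit 0, [], [nat_lit 25, nat_lit 40, nat_lit 40, nat_lit 80, nat_lit 17, nat_lit 345, nat_lit 125, nat_lit 10]⟩,
 zbF0, [⟨nat_lit 4, nat_lit 93, nat_lit 100, nat_lit 81, nat_lit 860595241⟩]⟩
noncomputable def p042_l106 : Lf2 := ⟨nat_lit 0, nat_lit 4, [nat_lit 38, nat_lit 5, nat_lit 5, nat_lit 20], false, nat_lit 240, nat_lit 320, nat_lit 160, nat_lit 336, ⟨nat_lit 1000, nat_lit 0, nat_lit 0, nat_lit 0, nat_lit 0, nat_lit 0, nat_lit 0, nat_lit 0, nat_lit 0, nat_lit 0, nat_lit 0, nat_lit 0, nat_lit 0, nat_lit 0, nat_lit 0, nat_lit 0, false, false⟩,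
 nat_lit 0, nat_lit 13783, nat_lit 0, nat_lit 0, nat_lit 8022, nat_lit 8623, nat_lit 2660, nat_lit 0, nat_lit 0, nat_lit 0, nat_lit 0, nat_lit 0, nat_lit 0, nat_lit 0, nat_lit 0, nat_lit 0, nat_lit 0, nat_lit 0, [],
 ⟨p042_k27, nat_lit 0, nat_lit 0, nat_lit 155, nat_lit 0, nat_lit 129767, [nat_lit 4688000000, nat_lit 6250000000, nat_lit 7968000000], [], [nat_lit 16353288968, nat_lit 17750833796, nat_lit 15119631816, nat_lit 16457099372, nat_lit 24419628684, nat_lit 26059855176, nat_lit 22186704632, nat_lit 23778937336], nat_lit 1271250, nat_lit 1271250, nat_lit 230001, nat_lit 490000, nat_lit 1271250, nat_lit 1271250, [nat_lit 1100000, nat_lit 1442500, nat_lit 1271250], [nat_lit 9, nat_lit 40, nat_lit 40, nat_lit 80, nat_lit 2, nat_lit 226, nat_lit 20, nat_lit 7]⟩, ⟨p042_k29, nat_lit 0, nat_lit 0, nat_lit 107, nat_lit 0, nat_lit 0, [nat_lit 6250000000, nat_lit 7968000000, nat_lit 9842000000], [], [nat_lit 7314268592,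 nat_lit 10917528032, nat_lit 6038782508, nat_lit 9508179648, nat_lit 23467545316, nat_lit 25670229909, nat_lit 21567600399, nat_lit 23396616900], nat_lit 0, nat_lit 0, nat_lit 0, nat_lit 0, nat_lit 0, nat_lit 0, [], [nat_lit 25, nat_lit 40, nat_lit 40, nat_lit 80, nat_lit 17, nat_lit 401, nat_lit 175, nat_lit 12]⟩,
 zbF0, [⟨nat_lit 4, nat_lit 93, nat_lit 100, nat_lit 81, nat_lit 92051633⟩, ⟨nat_lit 11, nat_lit 100, nat_lit 94, nat_lit 63, nat_lit 1093476392⟩]⟩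
noncomputable def p042_l107 : Lf2 := ⟨nat_lit 1, nat_lit 8, [nat_lit 50, nat_lit 5, nat_lit 5, nat_lit 20], false, nat_lit 240, nat_lit 320, nat_lit 0, nat_lit 336, zbN0,
 nat_lit 0, nat_lit 0, nat_lit 0, nat_lit 0, nat_lit 0, nat_lit 0, nat_lit 0, nat_lit 0, nat_lit 0, nat_lit 0, nat_lit 0, nat_lit 0, nat_lit 0, nat_lit 0, nat_lit 0, nat_lit 0, nat_lit 0, nat_lit 0, [],
 C1.Rw.none, C1.Rw.none,
 zbF0, []⟩
noncomputable def p042_l108 : Lf2 := ⟨nat_lit 0, nat_lit 8, [nat_lit 50, nat_lit 5, nat_lit 5, nat_lit 20], false, nat_lit 240, nat_lit 320, nat_lit 0, nat_lit 160, ⟨nat_lit 1000, nat_lit 0, nat_lit 0, nat_lit 0, nat_lit 0, nat_lit 0, nat_lit 0, nat_lit 0, nat_lit 0, nat_lit 0, nat_lit 0, nat_lit 0, nat_lit 0, nat_lit 0, nat_lit 0, nat_lit 0, false, false⟩,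
 nat_lit 0, nat_lit 14911, nat_lit 0, nat_lit 15381, nat_lit 8679, nat_lit 11149, nat_lit 2594, nat_lit 0, nat_lit 0, nat_lit 4414, nat_lit 0, nat_lit 0, nat_lit 0, nat_lit 0, nat_lit 0, nat_lit 0, nat_lit 0, nat_lit 0, [],
 ⟨p042_k20, nat_lit 0, nat_lit 0, nat_lit 313, nat_lit 0, nat_lit 457369, [nat_lit 4688000000, nat_lit 6250000000, nat_lit 9842000000], [], [nat_lit 14754437770, nat_lit 15790910564, nat_lit 14246631136, nat_lit 15219472448, nat_lit 22574831324, nat_lit 24243297052, nat_lit 21554108204, nat_lit 23140211088], nat_lit 1271250, nat_lit 1271250, nat_lit 490000, nat_lit 780000, nat_lit 1271250, nat_lit 1271250, [nat_lit 1100000, nat_lit 1442500, nat_lit 1271250], [nat_lit 11, nat_lit 40, nat_lit 40, nat_lit 80, nat_lit 1, nat_lit 428, nat_lit 200, nat_lit 12]⟩, ⟨p042_k13, nat_lit 0, nat_lit 0, nat_lit 215, nat_lit 0, nat_lit 0, [nat_lit 6250000000, nat_lit 7968000000, nat_lit 11872000000], [],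 [nat_lit 16327538702, nat_lit 19290644704, nat_lit 15532230064, nat_lit 18572879716, nat_lit 10213932840, nat_lit 12831424420, nat_lit 9723710220, nat_lit 12166318232], nat_lit 0, nat_lit 0, nat_lit 0, nat_lit 0, nat_lit 0, nat_lit 0, [], [nat_lit 53, nat_lit 40, nat_lit 40, nat_lit 80, nat_lit 14, nat_lit 373, nat_lit 150, nat_lit 10]⟩,
 zbF0, [⟨nat_lit 4, nat_lit 97, nat_lit 100, nat_lit 76, nat_lit 1016335088⟩]⟩
noncomputable def p042_l109 : Lf2 := ⟨nat_lit 0, nat_lit 8, [nat_lit 50, nat_lit 5, nat_lit 5, nat_lit 20], true, nat_lit 240, nat_lit 320, nat_lit 160, nat_lit 352, ⟨nat_lit 0, nat_lit 344, nat_lit 656, nat_lit 5, nat_lit 124, nat_lit 1000, nat_lit 202, nat_lit 656, nat_lit 4618, nat_lit 210, nat_lit 144150, nat_lit 308, nat_lit 47614396, nat_lit 6185020, nat_lit 13200584, nat_lit 4179946, false, false⟩,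
 nat_lit 0, nat_lit 8789, nat_lit 0, nat_lit 0, nat_lit 5115, nat_lit 0, nat_lit 334, nat_lit 0, nat_lit 0, nat_lit 0, nat_lit 0, nat_lit 0, nat_lit 0, nat_lit 0, nat_lit 91, nat_lit 793600, nat_lit 0, nat_lit 0, [(nat_lit 9, [(nat_lit 1, nat_lit 344), (nat_lit 6, nat_lit 656)])],
 ⟨p042_k20, nat_lit 0, nat_lit 0, nat_lit 204, nat_lit 0, nat_lit 264708, [nat_lit 3105761280, nat_lit 2559924267, nat_lit 204485333], [], [nat_lit 14205785267, nat_lit 15573408260, nat_lit 14286640795, nat_lit 15566607770, nat_lit 20469376940, nat_lit 21724304620, nat_lit 20346208340, nat_lit 21573561950], nat_lit 1271250, nat_lit 1271250, nat_lit 490000, nat_lit 631250, nat_lit 1271250, nat_lit 1271250, [nat_lit 1100000, nat_lit 1442500, nat_lit 1271250], [nat_lit 11, nat_lit 40, nat_lit 40, nat_lit 80, nat_lit 1, nat_lit 401, nat_lit 175, nat_lit 11]⟩, C1.Rw.none,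
 ⟨nat_lit 5477, nat_lit 5917, ⟨.ofNat (nat_lit 264398), .ofNat (nat_lit 303665), .ofNat (nat_lit 307076), .ofNat (nat_lit 346343), .ofNat (nat_lit 275199), .ofNat (nat_lit 312666), .ofNat (nat_lit 317913), .ofNat (nat_lit 355380)⟩, ⟨.ofNat (nat_lit 407818), .ofNat (nat_lit 564885), .ofNat (nat_lit 450496), .ofNat (nat_lit 607556), .ofNat (nat_lit 404075), .ofNat (nat_lit 553941), .ofNat (nat_lit 446789), .ofNat (nat_lit 596648)⟩⟩, [⟨nat_lit 4, nat_lit 97, nat_lit 100, nat_lit 76, nat_lit 485566811⟩]⟩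
noncomputable def p042_l110 : Lf2 := ⟨nat_lit 0, nat_lit 8, [nat_lit 50, nat_lit 5, nat_lit 5, nat_lit 20], false, nat_lit 240, nat_lit 320, nat_lit 160, nat_lit 360, ⟨nat_lit 821, nat_lit 0, nat_lit 179, nat_lit 5, nat_lit 139, nat_lit 179, nat_lit 202, nat_lit 179, nat_lit 4618, nat_lit 210, nat_lit 183750, nat_lit 320, nat_lit 46587447, nat_lit 0, nat_lit 0, nat_lit 4358025, false, false⟩,
 nat_lit 0, nat_lit 13635, nat_lit 0, nat_lit 3968, nat_lit 7936, nat_lit 7072, nat_lit 2031, nat_lit 0, nat_lit 0, nat_lit 0, nat_lit 0, nat_lit 0, nat_lit 0, nat_lit 0, nat_lit 0, nat_lit 179000, nat_lit 0, nat_lit 0, [(nat_lit 9, [(nat_lit 6, nat_lit 179)])],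
 ⟨p042_k20, nat_lit 0, nat_lit 0, nat_lit 304, nat_lit 0, nat_lit 457369, [nat_lit 4045318401, nat_lit 5054518667, nat_lit 7121343200], [], [nat_lit 14525225337, nat_lit 15487749089, nat_lit 14325801009, nat_lit 15258722417, nat_lit 21706257576, nat_lit 23250166880, nat_lit 21276615536, nat_lit 22782180192], nat_lit 1271250, nat_lit 1271250, nat_lit 631250, nat_lit 780000, nat_lit 1271250, nat_lit 1271250, [nat_lit 1100000, nat_lit 1442500, nat_lit 1271250], [nat_lit 11, nat_lit 40, nat_lit 40, nat_lit 80, nat_lit 1, nat_lit 428, nat_lit 200, nat_lit 12]⟩, ⟨p042_k13, nat_lit 0, nat_lit 0, nat_lit 85, nat_lit 0, nat_lit 0, [nat_lit 5131250000, nat_lit 6541728000, nat_lit 9746912000], [], [nat_lit 5021406140, nat_lit 7787428050, nat_lit 5072123500, nat_lit 7757641916, nat_lit 19730625673, nat_lit 21347132427, nat_lit 19362031164, nat_lit 20846506822], nat_lit 0, nat_lit 0, nat_lit 0, nat_lit 0, nat_lit 0, nat_lit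 0, [], [nat_lit 53, nat_lit 40, nat_lit 40, nat_lit 80, nat_lit 14, nat_lit 428, nat_lit 200, nat_lit 11]⟩,
 ⟨nat_lit 5477, nat_lit 5917, ⟨.ofNat (nat_lit 303665), .ofNat (nat_lit 342931), .ofNat (nat_lit 346343), .ofNat (nat_lit 385610), .ofNat (nat_lit 312666), .ofNat (nat_lit 350132), .ofNat (nat_lit 355380), .ofNat (nat_lit 392847)⟩, ⟨.ofNat (nat_lit 407818), .ofNat (nat_lit 564885), .ofNat (nat_lit 450496), .ofNat (nat_lit 607556), .ofNat (nat_lit 404075), .ofNat (nat_lit 553941), .ofNat (nat_lit 446789), .ofNat (nat_lit 596648)⟩⟩, [⟨nat_lit 4, nat_lit 97, nat_lit 100, nat_lit 76, nat_lit 905203626⟩, ⟨nat_lit 19, nat_lit 100, nat_lit 77, nat_lit 72, nat_lit 737896495⟩]⟩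
noncomputable def p042_l111 : Lf2 := ⟨nat_lit 0, nat_lit 8, [nat_lit 50, nat_lit 5, nat_lit 5, nat_lit 20], false, nat_lit 240, nat_lit 320, nat_lit 0, nat_lit 160, ⟨nat_lit 1000, nat_lit 0, nat_lit 0, nat_lit 0, nat_lit 0, nat_lit 0, nat_lit 0, nat_lit 0, nat_lit 0, nat_lit 0, nat_lit 0, nat_lit 0, nat_lit 0, nat_lit 0, nat_lit 0, nat_lit 0, false, false⟩,
 nat_lit 0, nat_lit 15719, nat_lit 0, nat_lit 14273, nat_lit 9149, nat_lit 12088, nat_lit 2468, nat_lit 0, nat_lit 0, nat_lit 4644, nat_lit 0, nat_lit 0, nat_lit 0, nat_lit 0, nat_lit 0, nat_lit 0, nat_lit 0, nat_lit 0, [],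
 ⟨p042_k20, nat_lit 0, nat_lit 0, nat_lit 294, nat_lit 0, nat_lit 457369, [nat_lit 4688000000, nat_lit 6250000000, nat_lit 9842000000], [], [nat_lit 13757245520, nat_lit 15064812780, nat_lit 17588657646, nat_lit 19258082352, nat_lit 21729641924, nat_lit 23366690928, nat_lit 24391578818, nat_lit 25633801872], nat_lit 1271250, nat_lit 1271250, nat_lit 780000, nat_lit 1762500, nat_lit 1271250, nat_lit 1271250, [nat_lit 1100000, nat_lit 1442500, nat_lit 1271250], [nat_lit 11, nat_lit 40, nat_lit 40, nat_lit 80, nat_lit 1, nat_lit 456, nat_lit 225, nat_lit 12]⟩, ⟨p042_k13, nat_lit 0, nat_lit 0, nat_lit 191, nat_lit 0, nat_lit 0, [nat_lit 6250000000, nat_lit 7968000000, nat_lit 11872000000], [], [nat_lit 14368223764, nat_lit 17319205792, nat_lit 20033847232, nat_lit 23146781280, nat_lit 7551596640, nat_lit 10107061184, nat_lit 11473589440, nat_lit 14017322240], nat_lit 0, nat_lit 0, nat_lit 0, nat_lit 0, nat_lit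 0, nat_lit 0, [], [nat_lit 53, nat_lit 40, nat_lit 40, nat_lit 80, nat_lit 14, nat_lit 401, nat_lit 175, nat_lit 11]⟩,
 zbF0, [⟨nat_lit 4, nat_lit 97, nat_lit 100, nat_lit 76, nat_lit 1003896163⟩]⟩
noncomputable def p042_l112 : Lf2 := ⟨nat_lit 0, nat_lit 8, [nat_lit 50, nat_lit 5, nat_lit 5, nat_lit 20], false, nat_lit 240, nat_lit 320, nat_lit 160, nat_lit 360, ⟨nat_lit 1000, nat_lit 0, nat_lit 0, nat_lit 0, nat_lit 0, nat_lit 0, nat_lit 0, nat_lit 0, nat_lit 0, nat_lit 0, nat_lit 0, nat_lit 0, nat_lit 0, nat_lit 0, nat_lit 0, nat_lit 0, false, false⟩,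
 nat_lit 0, nat_lit 14816, nat_lit 0, nat_lit 6645, nat_lit 8624, nat_lit 8718, nat_lit 2744, nat_lit 0, nat_lit 0, nat_lit 0, nat_lit 0, nat_lit 0, nat_lit 0, nat_lit 0, nat_lit 0, nat_lit 0, nat_lit 0, nat_lit 0, [],
 ⟨p042_k20, nat_lit 0, nat_lit 0, nat_lit 294, nat_lit 0, nat_lit 457369, [nat_lit 4688000000, nat_lit 6250000000, nat_lit 9842000000], [], [nat_lit 14159592016, nat_lit 15129642984, nat_lit 17661919296, nat_lit 19272337152, nat_lit 21533567024, nat_lit 23113708128, nat_lit 24220700768, nat_lit 25425204672], nat_lit 1271250, nat_lit 1271250, nat_lit 780000, nat_lit 1762500, nat_lit 1271250, nat_lit 1271250, [nat_lit 1100000, nat_lit 1442500, nat_lit 1271250], [nat_lit 11, nat_lit 40, nat_lit 40, nat_lit 80, nat_lit 1, nat_lit 456, nat_lit 225, nat_lit 12]⟩, ⟨p042_k13, nat_lit 0, nat_lit 0, nat_lit 73, nat_lit 0, nat_lit 0, [nat_lit 6250000000, nat_lit 7968000000, nat_lit 11872000000], [], [nat_lit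 5988742584, nat_lit 9283570304, nat_lit 11978237960, nat_lit 14415018840, nat_lit 23526382444, nat_lit 25466584060, nat_lit 25987076548, nat_lit 27393139680], nat_lit 0, nat_lit 0, nat_lit 0, nat_lit 0, nat_lit 0, nat_lit 0, [], [nat_lit 53, nat_lit 40, nat_lit 40, nat_lit 80, nat_lit 14, nat_lit 456, nat_lit 225, nat_lit 11]⟩,
 zbF0, [⟨nat_lit 4, nat_lit 97, nat_lit 100, nat_lit 76, nat_lit 974384793⟩, ⟨nat_lit 7, nat_lit 77, nat_lit 100, nat_lit 72, nat_lit 883755679⟩, ⟨nat_lit 11, nat_lit 75, nat_lit 75, nat_lit 100, nat_lit 3419803⟩]⟩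
noncomputable def b_V_600_500_10_10 : St := ⟨true, nat_lit 1, nat_lit 0, nat_lit 1, nat_lit 80, nat_lit 260, nat_lit 280, nat_lit 200, nat_lit 240, nat_lit 4, nat_lit 240, nat_lit 40, nat_lit 80, nat_lit 240, nat_lit 336, nat_lit 0, nat_lit 360, nat_lit 0, nat_lit 32, nat_lit 0, nat_lit 0, nat_lit 0, nat_lit 0⟩
theorem d_V_600_500_10_10 (h : EB TB.env) : Dead b_V_600_500_10_10 := chkB_sound0 h (T :=
(.trZ (nat_lit 0) (nat_lit 100) (nat_lit 95) (nat_lit 30) (nat_lit 8) (.trX (nat_lit 16) (nat_lit 100) (nat_lit 85) (nat_lit 84) (nat_lit 320) (.spl (nat_lit 2) (nat_lit 120)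
(.spl (nat_lit 2) (nat_lit 80)
(.trX (nat_lit 23) (nat_lit 100) (nat_lit 76) (nat_lit 82) (nat_lit 336) (.spl (nat_lit 3) (nat_lit 60)
(.trX (nat_lit 16) (nat_lit 100) (nat_lit 92) (nat_lit 75) (nat_lit 296) (.spl (nat_lit 6) (nat_lit 20)
(.spl (nat_lit 2) (nat_lit 40)
(.trX (nat_lit 23) (nat_lit 100) (nat_lit 92) (nat_lit 61) (nat_lit 288) (.spl (nat_lit 2) (nat_lit 20)
(.trX (nat_lit 23) (nat_lit 100) (nat_lit 99) (nat_lit 44) (nat_lit 252) (.leaf p042_l96))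
(.spl (nat_lit 5) (nat_lit 160)
(.leaf p042_l97)
(.spl (nat_lit 1) (nat_lit 220)
(.leaf p042_l98)
(.leaf p042_l99)))))
(.leaf p042_l100))
(.leaf p042_l101)))
(.spl (nat_lit 6) (nat_lit 16)
(.spl (nat_lit 2) (nat_lit 40)
(.trX (nat_lit 23) (nat_lit 100) (nat_lit 92) (nat_lit 61) (nat_lit 288) (.spl (nat_lit 5) (nat_lit 160)
(.leaf p042_l102)
(.spl (nat_lit 2) (nat_lit 20)
(.trX (nat_lit 23) (nat_lit 100) (nat_lit 99) (nat_lit 44) (nat_lit 252) (.leaf p042_l103))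
(.leaf p042_l104))))
(.spl (nat_lit 5) (nat_lit 160)
(.leaf p042_l105)
(.leaf p042_l106)))
(.leaf p042_l107))))
(.spl (nat_lit 5) (nat_lit 160)
(.leaf p042_l108)
(.spl (nat_lit 2) (nat_lit 100)
(.trX (nat_lit 23) (nat_lit 100) (nat_lit 68) (nat_lit 88) (nat_lit 352) (.leaf p042_l109))
(.leaf p042_l110))))
(.spl (nat_lit 5) (nat_lit 160)
(.leaf p042_l111)
(.leaf p042_l112)))))) (by decide +kernel)
noncomputable def p042_l113 : Lf2 := ⟨nat_lit 0, nat_lit 8, [nat_lit 50, nat_lit 5, nat_lit 5, nat_lit 20], false, nat_lit 0, nat_lit 336, nat_lit 0, nat_lit 160, ⟨nat_lit 1000, nat_lit 0, nat_lit 0, nat_lit 0, nat_lit 0, nat_lit 0, nat_lit 0, nat_lit 0, nat_lit 0, nat_lit 0, nat_lit 0, nat_lit 0, nat_lit 0, nat_lit 0, nat_lit 0, nat_lit 0, false, false⟩,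
 nat_lit 0, nat_lit 13180, nat_lit 0, nat_lit 0, nat_lit 6977, nat_lit 8123, nat_lit 1583, nat_lit 0, nat_lit 0, nat_lit 2501, nat_lit 0, nat_lit 0, nat_lit 0, nat_lit 0, nat_lit 0, nat_lit 0, nat_lit 0, nat_lit 0, [],
 ⟨p042_k0, nat_lit 0, nat_lit 0, nat_lit 444, nat_lit 0, nat_lit 523819, [nat_lit 4688000000, nat_lit 6250000000, nat_lit 9842000000], [], [nat_lit 31284484732, nat_lit 32238409120, nat_lit 37373309964, nat_lit 38276848024, nat_lit 31013621376, nat_lit 31724508059, nat_lit 35135528664, nat_lit 35544189152], nat_lit 1271250, nat_lit 1271250, nat_lit 1271250, nat_lit 1271250, nat_lit 0, nat_lit 2373000, [nat_lit 1100000, nat_lit 1442500, nat_lit 1271250], [nat_lit 11, nat_lit 40, nat_lit 40, nat_lit 80, nat_lit 1, nat_lit 538, nat_lit 300, nat_lit 15]⟩, ⟨p042_k13, nat_lit 0, nat_lit 0, nat_lit 255, nat_lit 0, nat_lit 0, [nat_lit 6250000000, nat_lit 7968000000, nat_lit 11872000000], [], [nat_lit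 25771702869, nat_lit 27103733221, nat_lit 38154683364, nat_lit 39155009732, nat_lit 20563135473, nat_lit 21825122824, nat_lit 30841281768, nat_lit 31585835756], nat_lit 0, nat_lit 0, nat_lit 0, nat_lit 0, nat_lit 0, nat_lit 0, [], [nat_lit 53, nat_lit 40, nat_lit 40, nat_lit 80, nat_lit 14, nat_lit 428, nat_lit 200, nat_lit 11]⟩,
 zbF0, [⟨nat_lit 4, nat_lit 92, nat_lit 100, nat_lit 75, nat_lit 177892260⟩, ⟨nat_lit 21, nat_lit 83, nat_lit 100, nat_lit 83, nat_lit 22221496⟩]⟩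
noncomputable def p042_l114 : Lf2 := ⟨nat_lit 0, nat_lit 8, [nat_lit 50, nat_lit 5, nat_lit 5, nat_lit 20], false, nat_lit 0, nat_lit 336, nat_lit 160, nat_lit 360, ⟨nat_lit 1000, nat_lit 0, nat_lit 0, nat_lit 0, nat_lit 0, nat_lit 0, nat_lit 0, nat_lit 0, nat_lit 0, nat_lit 0, nat_lit 0, nat_lit 0, nat_lit 0, nat_lit 0, nat_lit 0, nat_lit 0, false, false⟩,
 nat_lit 0, nat_lit 13249, nat_lit 0, nat_lit 0, nat_lit 7014, nat_lit 7912, nat_lit 1459, nat_lit 0, nat_lit 0, nat_lit 0, nat_lit 0, nat_lit 0, nat_lit 0, nat_lit 0, nat_lit 0, nat_lit 0, nat_lit 0, nat_lit 0, [],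
 ⟨p042_k0, nat_lit 0, nat_lit 0, nat_lit 444, nat_lit 0, nat_lit 523819, [nat_lit 4688000000, nat_lit 6250000000, nat_lit 9842000000], [], [nat_lit 31966156924, nat_lit 32920608340, nat_lit 37609338782, nat_lit 38373738110, nat_lit 30871611232, nat_lit 31582092069, nat_lit 35034381823, nat_lit 35441234639], nat_lit 1271250, nat_lit 1271250, nat_lit 1271250, nat_lit 1271250, nat_lit 0, nat_lit 2373000, [nat_lit 1100000, nat_lit 1442500, nat_lit 1271250], [nat_lit 11, nat_lit 40, nat_lit 40, nat_lit 80, nat_lit 1, nat_lit 538, nat_lit 300, nat_lit 15]⟩, ⟨p042_k13, nat_lit 0, nat_lit 0, nat_lit 106, nat_lit 0, nat_lit 0, [nat_lit 6250000000, nat_lit 7968000000, nat_lit 11872000000], [], [nat_lit 13209628640, nat_lit 15529410560, nat_lit 28328223488, nat_lit 29618388640, nat_lit 25869365680, nat_lit 26912588112, nat_lit 36601148672, nat_lit 36995288144], nat_lit 0, nat_lit 0, nat_lit 0, nat_lit 0, nat_lit 0, nat_lit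 0, [], [nat_lit 53, nat_lit 40, nat_lit 40, nat_lit 80, nat_lit 14, nat_lit 483, nat_lit 250, nat_lit 12]⟩,
 zbF0, [⟨nat_lit 4, nat_lit 92, nat_lit 100, nat_lit 75, nat_lit 194378044⟩, ⟨nat_lit 19, nat_lit 100, nat_lit 77, nat_lit 72, nat_lit 628083789⟩]⟩
noncomputable def b_V_600_500_10_11 : St := ⟨true, nat_lit 1, nat_lit 0, nat_lit 1, nat_lit 80, nat_lit 240, nat_lit 280, nat_lit 200, nat_lit 240, nat_lit 240, nat_lit 400, nat_lit 40, nat_lit 80, nat_lit 0, nat_lit 336, nat_lit 0, nat_lit 360, nat_lit 0, nat_lit 32, nat_lit 0, nat_lit 0, nat_lit 0, nat_lit 0⟩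
theorem d_V_600_500_10_11 (h : EB TB.env) : Dead b_V_600_500_10_11 := chkB_sound0 h (T :=
(.spl (nat_lit 5) (nat_lit 160)
(.leaf p042_l113)
(.leaf p042_l114))) (by decide +kernel)
noncomputable def p042_l115 : Lf2 := ⟨nat_lit 0, nat_lit 4, [nat_lit 38, nat_lit 5, nat_lit 5, nat_lit 20], true, nat_lit 0, nat_lit 80, nat_lit 0, nat_lit 360, ⟨nat_lit 0, nat_lit 0, nat_lit 1000, nat_lit 5, nat_lit 80, nat_lit 0, nat_lit 21, nat_lit 638, nat_lit 1067, nat_lit 223, nat_lit 60000, nat_lit 275, nat_lit 64419784, nat_lit 0, nat_lit 0, nat_lit 815893, false, false⟩,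
 nat_lit 0, nat_lit 6831, nat_lit 0, nat_lit 3435, nat_lit 3616, nat_lit 0, nat_lit 861, nat_lit 0, nat_lit 0, nat_lit 0, nat_lit 0, nat_lit 0, nat_lit 0, nat_lit 0, nat_lit 80, nat_lit 1000000, nat_lit 0, nat_lit 0, [(nat_lit 6, [(nat_lit 6, nat_lit 1000)])],
 ⟨p042_k18, nat_lit 0, nat_lit 0, nat_lit 274, nat_lit 0, nat_lit 89198, [nat_lit 2257066667, nat_lit 1408000000, nat_lit 211200000], [], [nat_lit 12821161756, nat_lit 13308770596, nat_lit 11813326572, nat_lit 12275423356, nat_lit 11730376355, nat_lit 12191478160, nat_lit 10931942796, nat_lit 11367548412], nat_lit 1271250, nat_lit 1271250, nat_lit 21650, nat_lit 490000, nat_lit 0, nat_lit 490000, [nat_lit 1100000, nat_lit 1442500, nat_lit 1271250], [nat_lit 9, nat_lit 40, nat_lit 40, nat_lit 80, nat_lit 2, nat_lit 249, nat_lit 40, nat_lit 9]⟩, C1.Rw.none,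
 ⟨nat_lit 6123, nat_lit 6325, ⟨.ofNat (nat_lit 96904), .ofNat (nat_lit 253206), .ofNat (nat_lit 139640), .ofNat (nat_lit 295942), .ofNat (nat_lit 106133), .ofNat (nat_lit 258856), .ofNat (nat_lit 148829), .ofNat (nat_lit 301553)⟩, ⟨.negSucc (nat_lit 82265), .ofNat (nat_lit 82263), .negSucc (nat_lit 39529), .ofNat (nat_lit 124999), .negSucc (nat_lit 72689), .ofNat (nat_lit 88071), .negSucc (nat_lit 29993), .ofNat (nat_lit 130768)⟩⟩, [⟨nat_lit 0, nat_lit 100, nat_lit 99, nat_lit 45, nat_lit 160864727⟩]⟩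
noncomputable def p042_l116 : Lf2 := ⟨nat_lit 0, nat_lit 4, [nat_lit 38, nat_lit 5, nat_lit 5, nat_lit 20], true, nat_lit 0, nat_lit 80, nat_lit 0, nat_lit 360, ⟨nat_lit 0, nat_lit 0, nat_lit 1000, nat_lit 5, nat_lit 83, nat_lit 807, nat_lit 22, nat_lit 1000, nat_lit 1667, nat_lit 225, nat_lit 64067, nat_lit 277, nat_lit 64234656, nat_lit 0, nat_lit 0, nat_lit 859844, false, false⟩,
 nat_lit 0, nat_lit 6834, nat_lit 0, nat_lit 0, nat_lit 3796, nat_lit 0, nat_lit 255, nat_lit 0, nat_lit 0, nat_lit 0, nat_lit 0, nat_lit 0, nat_lit 0, nat_lit 0, nat_lit 80, nat_lit 1000000, nat_lit 0, nat_lit 0, [(nat_lit 6, [(nat_lit 6, nat_lit 1000)])],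
 ⟨p042_k19, nat_lit 0, nat_lit 0, nat_lit 277, nat_lit 0, nat_lit 141670, [nat_lit 2257066667, nat_lit 1408000000, nat_lit 211200000], [], [nat_lit 14066968497, nat_lit 14607707845, nat_lit 14627889783, nat_lit 13682142955, nat_lit 14666265399, nat_lit 13721859319, nat_lit 16542140391, nat_lit 15622828907], nat_lit 1271250, nat_lit 1271250, nat_lit 21650, nat_lit 490000, nat_lit 0, nat_lit 490000, [nat_lit 1100000, nat_lit 1442500, nat_lit 1271250], [nat_lit 9, nat_lit 40, nat_lit 40, nat_lit 80, nat_lit 2, nat_lit 249, nat_lit 40, nat_lit 9]⟩, C1.Rw.none,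
 ⟨nat_lit 5916, nat_lit 6124, ⟨.ofNat (nat_lit 106133), .ofNat (nat_lit 258856), .ofNat (nat_lit 148829), .ofNat (nat_lit 301553), .ofNat (nat_lit 115184), .ofNat (nat_lit 264398), .ofNat (nat_lit 157863), .ofNat (nat_lit 307076)⟩, ⟨.negSucc (nat_lit 72689), .ofNat (nat_lit 88071), .negSucc (nat_lit 29993), .ofNat (nat_lit 130768), .negSucc (nat_lit 63383), .ofNat (nat_lit 93684), .negSucc (nat_lit 20704), .ofNat (nat_lit 136362)⟩⟩, []⟩
noncomputable def p042_l117 : Lf2 := ⟨nat_lit 1, nat_lit 8, [nat_lit 50, nat_lit 5, nat_lit 5, nat_lit 20], false, nat_lit 0, nat_lit 80, nat_lit 0, nat_lit 360, zbN0,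
 nat_lit 0, nat_lit 0, nat_lit 0, nat_lit 0, nat_lit 0, nat_lit 0, nat_lit 0, nat_lit 0, nat_lit 0, nat_lit 0, nat_lit 0, nat_lit 0, nat_lit 0, nat_lit 0, nat_lit 0, nat_lit 0, nat_lit 0, nat_lit 0, [],
 C1.Rw.none, C1.Rw.none,
 zbF0, []⟩
noncomputable def p042_l118 : Lf2 := ⟨nat_lit 0, nat_lit 8, [nat_lit 50, nat_lit 5, nat_lit 5, nat_lit 20], true, nat_lit 0, nat_lit 80, nat_lit 0, nat_lit 360, ⟨nat_lit 0, nat_lit 0, nat_lit 1000, nat_lit 5, nat_lit 89, nat_lit 0, nat_lit 24, nat_lit 700, nat_lit 2817, nat_lit 228, nat_lit 74817, nat_lit 282, nat_lit 63850725, nat_lit 0, nat_lit 0, nat_lit 947978, false, false⟩,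
 nat_lit 0, nat_lit 6362, nat_lit 0, nat_lit 0, nat_lit 3703, nat_lit 0, nat_lit 12, nat_lit 0, nat_lit 0, nat_lit 0, nat_lit 0, nat_lit 0, nat_lit 0, nat_lit 0, nat_lit 192, nat_lit 1000000, nat_lit 0, nat_lit 0, [(nat_lit 9, [(nat_lit 6, nat_lit 1000)])],
 ⟨p042_k20, nat_lit 0, nat_lit 0, nat_lit 433, nat_lit 0, nat_lit 264708, [nat_lit 4169600001, nat_lit 3411333334, nat_lit 231866666], [], [nat_lit 14828276386, nat_lit 16063859732, nat_lit 13990517171, nat_lit 15158910003, nat_lit 13826007959, nat_lit 14988842361, nat_lit 15651254239, nat_lit 14298118619], nat_lit 1271250, nat_lit 1271250, nat_lit 43600, nat_lit 490000, nat_lit 0, nat_lit 490000, [nat_lit 1100000, nat_lit 1442500, nat_lit 1271250], [nat_lit 11, nat_lit 40, nat_lit 40, nat_lit 80, nat_lit 1, nat_lit 345, nat_lit 125, nat_lit 10]⟩, C1.Rw.none,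
 ⟨nat_lit 5477, nat_lit 5917, ⟨.ofNat (nat_lit 123037), .ofNat (nat_lit 264398), .ofNat (nat_lit 165716), .ofNat (nat_lit 307076), .ofNat (nat_lit 140320), .ofNat (nat_lit 275199), .ofNat (nat_lit 183034), .ofNat (nat_lit 317913)⟩, ⟨.negSucc (nat_lit 63383), .ofNat (nat_lit 93684), .negSucc (nat_lit 20704), .ofNat (nat_lit 136362), .negSucc (nat_lit 45522), .ofNat (nat_lit 104343), .negSucc (nat_lit 2808), .ofNat (nat_lit 147057)⟩⟩, [⟨nat_lit 0, nat_lit 100, nat_lit 94, nat_lit 59, nat_lit 37047223⟩]⟩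
noncomputable def p042_l119 : Lf2 := ⟨nat_lit 0, nat_lit 8, [nat_lit 50, nat_lit 5, nat_lit 5, nat_lit 20], false, nat_lit 0, nat_lit 80, nat_lit 0, nat_lit 360, ⟨nat_lit 0, nat_lit 0, nat_lit 1000, nat_lit 5, nat_lit 144, nat_lit 0, nat_lit 22, nat_lit 0, nat_lit 1350, nat_lit 224, nat_lit 121179, nat_lit 300, nat_lit 59292069, nat_lit 0, nat_lit 0, nat_lit 1784659, false, false⟩,
 nat_lit 0, nat_lit 8984, nat_lit 0, nat_lit 0, nat_lit 4756, nat_lit 0, nat_lit 352, nat_lit 0, nat_lit 0, nat_lit 0, nat_lit 0, nat_lit 0, nat_lit 0, nat_lit 0, nat_lit 147, nat_lit 1000000, nat_lit 0, nat_lit 0, [(nat_lit 6, [(nat_lit 6, nat_lit 1000)])],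
 ⟨p042_k0, nat_lit 0, nat_lit 0, nat_lit 285, nat_lit 0, nat_lit 158261, [nat_lit 3329066667, nat_lit 3042400001, nat_lit 177599999], [], [nat_lit 10489080143, nat_lit 11880195096, nat_lit 11394259020, nat_lit 12872174264, nat_lit 8260047948, nat_lit 9628581140, nat_lit 11708100844, nat_lit 10892294460], nat_lit 1271250, nat_lit 1271250, nat_lit 490000, nat_lit 1100001, nat_lit 0, nat_lit 490000, [nat_lit 1100000, nat_lit 1442500, nat_lit 1271250], [nat_lit 11, nat_lit 40, nat_lit 40, nat_lit 80, nat_lit 1, nat_lit 345, nat_lit 125, nat_lit 10]⟩, ⟨p042_k13, nat_lit 0, nat_lit 0, nat_lit 379, nat_lit 0, nat_lit 206981, [nat_lit 0, nat_lit 0, nat_lit 0], [], [nat_lit 0, nat_lit 0, nat_lit 0, nat_lit 0, nat_lit 0, nat_lit 0, nat_lit 0, nat_lit 0], nat_lit 1271250, nat_lit 1271250, nat_lit 490000, nat_lit 1100001, nat_lit 0, nat_lit 2542500, [nat_lit 1412500, nat_lit 1271250, nat_lit 1271250], [nat_lit 53, nat_lit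 40, nat_lit 40, nat_lit 80, nat_lit 14, nat_lit 428, nat_lit 200, nat_lit 11]⟩,
 ⟨nat_lit 5916, nat_lit 6325, ⟨.ofNat (nat_lit 253206), .ofNat (nat_lit 417734), .ofNat (nat_lit 295942), .ofNat (nat_lit 460470), .ofNat (nat_lit 264398), .ofNat (nat_lit 421465), .ofNat (nat_lit 307076), .ofNat (nat_lit 464143)⟩, ⟨.negSucc (nat_lit 82265), .ofNat (nat_lit 82263), .negSucc (nat_lit 39529), .ofNat (nat_lit 124999), .negSucc (nat_lit 63383), .ofNat (nat_lit 93684), .negSucc (nat_lit 20704), .ofNat (nat_lit 136362)⟩⟩, []⟩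
noncomputable def p042_l120 : Lf2 := ⟨nat_lit 0, nat_lit 8, [nat_lit 50, nat_lit 5, nat_lit 5, nat_lit 20], false, nat_lit 0, nat_lit 80, nat_lit 0, nat_lit 360, ⟨nat_lit 0, nat_lit 0, nat_lit 1000, nat_lit 5, nat_lit 147, nat_lit 1000, nat_lit 24, nat_lit 1000, nat_lit 2817, nat_lit 228, nat_lit 104024, nat_lit 294, nat_lit 59013388, nat_lit 0, nat_lit 0, nat_lit 1826669, false, false⟩,
 nat_lit 0, nat_lit 8755, nat_lit 0, nat_lit 0, nat_lit 5096, nat_lit 0, nat_lit 442, nat_lit 0, nat_lit 0, nat_lit 0, nat_lit 0, nat_lit 0, nat_lit 0, nat_lit 0, nat_lit 192, nat_lit 1000000, nat_lit 0, nat_lit 0, [(nat_lit 9, [(nat_lit 6, nat_lit 1000)])],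
 ⟨p042_k20, nat_lit 0, nat_lit 0, nat_lit 330, nat_lit 0, nat_lit 264708, [nat_lit 4169600001, nat_lit 3411333334, nat_lit 231866666], [], [nat_lit 12136815536, nat_lit 14376785984, nat_lit 15008392793, nat_lit 15066770752, nat_lit 12082288409, nat_lit 10254173824, nat_lit 17218402553, nat_lit 14817136777], nat_lit 1271250, nat_lit 1271250, nat_lit 490000, nat_lit 1100001, nat_lit 0, nat_lit 490000, [nat_lit 1100000, nat_lit 1442500, nat_lit 1271250], [nat_lit 11, nat_lit 40, nat_lit 40, nat_lit 80, nat_lit 1, nat_lit 373, nat_lit 150, nat_lit 11]⟩, ⟨p042_k13, nat_lit 0, nat_lit 0, nat_lit 506, nat_lit 0, nat_lit 389360, [nat_lit 0, nat_lit 0, nat_lit 0], [], [nat_lit 0, nat_lit 0, nat_lit 0, nat_lit 0, nat_lit 0, nat_lit 0, nat_lit 0, nat_lit 0], nat_lit 1271250, nat_lit 1271250, nat_lit 490000, nat_lit 1100001, nat_lit 0, nat_lit 2542500, [nat_lit 1412500, nat_lit 1271250, nat_lit 1271250], [nat_lit 53, nat_lit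 40, nat_lit 40, nat_lit 80, nat_lit 14, nat_lit 428, nat_lit 200, nat_lit 11]⟩,
 ⟨nat_lit 5477, nat_lit 5917, ⟨.ofNat (nat_lit 264398), .ofNat (nat_lit 421465), .ofNat (nat_lit 307076), .ofNat (nat_lit 464143), .ofNat (nat_lit 275199), .ofNat (nat_lit 425065), .ofNat (nat_lit 317913), .ofNat (nat_lit 467780)⟩, ⟨.negSucc (nat_lit 63383), .ofNat (nat_lit 93684), .negSucc (nat_lit 20704), .ofNat (nat_lit 136362), .negSucc (nat_lit 45522), .ofNat (nat_lit 104343), .negSucc (nat_lit 2808), .ofNat (nat_lit 147057)⟩⟩, []⟩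
noncomputable def p042_l121 : Lf2 := ⟨nat_lit 1, nat_lit 2, [nat_lit 10, nat_lit 5, nat_lit 5, nat_lit 20], false, nat_lit 80, nat_lit 160, nat_lit 0, nat_lit 360, zbN0,
 nat_lit 0, nat_lit 0, nat_lit 0, nat_lit 0, nat_lit 0, nat_lit 0, nat_lit 0, nat_lit 0, nat_lit 0, nat_lit 0, nat_lit 0, nat_lit 0, nat_lit 0, nat_lit 0, nat_lit 0, nat_lit 0, nat_lit 0, nat_lit 0, [],
 C1.Rw.none, C1.Rw.none,
 zbF0, []⟩
noncomputable def p042_l122 : Lf2 := ⟨nat_lit 0, nat_lit 2, [nat_lit 10, nat_lit 5, nat_lit 5, nat_lit 20], true, nat_lit 80, nat_lit 160, nat_lit 0, nat_lit 360, ⟨nat_lit 0, nat_lit 0, nat_lit 1000, nat_lit 5, nat_lit 95, nat_lit 1000, nat_lit 77, nat_lit 1000, nat_lit 54150, nat_lit 272, nat_lit 84017, nat_lit 286, nat_lit 60139435, nat_lit 0, nat_lit 0, nat_lit 2111640, false, false⟩,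
 nat_lit 0, nat_lit 8718, nat_lit 0, nat_lit 0, nat_lit 4843, nat_lit 0, nat_lit 1878, nat_lit 0, nat_lit 0, nat_lit 0, nat_lit 0, nat_lit 0, nat_lit 0, nat_lit 0, nat_lit 41, nat_lit 400000, nat_lit 0, nat_lit 0, [(nat_lit 6, [(nat_lit 5, nat_lit 1000)])],
 ⟨p042_k21, nat_lit 0, nat_lit 0, nat_lit 229, nat_lit 0, nat_lit 91550, [nat_lit 2073600001, nat_lit 7600000], [], [nat_lit 10576753400, nat_lit 11662446100, nat_lit 9309078448, nat_lit 10017637234, nat_lit 11954199421, nat_lit 12659403398, nat_lit 13224640556, nat_lit 12035146483], nat_lit 1271250, nat_lit 1271250, nat_lit 21650, nat_lit 780000, nat_lit 490000, nat_lit 1100001, [nat_lit 1100000, nat_lit 1785000], [nat_lit 39, nat_lit 40, nat_lit 40, nat_lit 80, nat_lit 7, nat_lit 289, nat_lit 75, nat_lit 10]⟩, C1.Rw.none,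
 ⟨nat_lit 5916, nat_lit 6124, ⟨.ofNat (nat_lit 106133), .ofNat (nat_lit 339237), .ofNat (nat_lit 127481), .ofNat (nat_lit 360585), .ofNat (nat_lit 115184), .ofNat (nat_lit 342931), .ofNat (nat_lit 136523), .ofNat (nat_lit 364271)⟩, ⟨.ofNat (nat_lit 88071), .ofNat (nat_lit 248833), .ofNat (nat_lit 130768), .ofNat (nat_lit 291529), .ofNat (nat_lit 93684), .ofNat (nat_lit 250751), .ofNat (nat_lit 136362), .ofNat (nat_lit 293429)⟩⟩, [⟨nat_lit 0, nat_lit 100, nat_lit 96, nat_lit 40, nat_lit 72311495⟩]⟩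
noncomputable def p042_l123 : Lf2 := ⟨nat_lit 1, nat_lit 5, [nat_lit 4, nat_lit 5, nat_lit 5, nat_lit 20], false, nat_lit 80, nat_lit 160, nat_lit 0, nat_lit 360, zbN0,
 nat_lit 0, nat_lit 0, nat_lit 0, nat_lit 0, nat_lit 0, nat_lit 0, nat_lit 0, nat_lit 0, nat_lit 0, nat_lit 0, nat_lit 0, nat_lit 0, nat_lit 0, nat_lit 0, nat_lit 0, nat_lit 0, nat_lit 0, nat_lit 0, [],
 C1.Rw.none, C1.Rw.none,
 zbF0, []⟩
noncomputable def p042_l124 : Lf2 := ⟨nat_lit 0, nat_lit 5, [nat_lit 4, nat_lit 5, nat_lit 5, nat_lit 20], false, nat_lit 80, nat_lit 160, nat_lit 0, nat_lit 360, ⟨nat_lit 0, nat_lit 0, nat_lit 1000, nat_lit 5, nat_lit 99, nat_lit 1000, nat_lit 78, nat_lit 1000, nat_lit 58017, nat_lit 274, nat_lit 91267, nat_lit 289, nat_lit 59735097, nat_lit 0, nat_lit 0, nat_lit 2200914, false, false⟩,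
 nat_lit 0, nat_lit 7991, nat_lit 0, nat_lit 28068, nat_lit 4651, nat_lit 0, nat_lit 5216, nat_lit 0, nat_lit 0, nat_lit 0, nat_lit 0, nat_lit 0, nat_lit 0, nat_lit 0, nat_lit 117, nat_lit 1000000, nat_lit 0, nat_lit 0, [(nat_lit 9, [(nat_lit 6, nat_lit 1000)])],
 ⟨p042_k10, nat_lit 0, nat_lit 0, nat_lit 224, nat_lit 0, nat_lit 114576, [nat_lit 3178400000, nat_lit 158133334], [], [nat_lit 13702104953, nat_lit 12476226930, nat_lit 10218208624, nat_lit 10912040626, nat_lit 12600325861, nat_lit 13289518619, nat_lit 11604560650, nat_lit 12221351815], nat_lit 1271250, nat_lit 1271250, nat_lit 43600, nat_lit 780000, nat_lit 490000, nat_lit 1100001, [nat_lit 1100000, nat_lit 1785000], [nat_lit 39, nat_lit 40, nat_lit 40, nat_lit 80, nat_lit 7, nat_lit 289, nat_lit 75, nat_lit 10]⟩, ⟨p042_k34, nat_lit 0, nat_lit 0, nat_lit 483, nat_lit 0, nat_lit 167582, [nat_lit 0, nat_lit 0], [], [nat_lit 0, nat_lit 0, nat_lit 0,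 nat_lit 0, nat_lit 0, nat_lit 0, nat_lit 0, nat_lit 0], nat_lit 1271250, nat_lit 1271250, nat_lit 43600, nat_lit 780000, nat_lit 0, nat_lit 2542500, [nat_lit 1412500, nat_lit 1271250], [nat_lit 107, nat_lit 40, nat_lit 40, nat_lit 80, nat_lit 12, nat_lit 401, nat_lit 175, nat_lit 11]⟩,
 ⟨nat_lit 5700, nat_lit 5917, ⟨.ofNat (nat_lit 123037), .ofNat (nat_lit 342931), .ofNat (nat_lit 144377), .ofNat (nat_lit 364271), .ofNat (nat_lit 131747), .ofNat (nat_lit 346560), .ofNat (nat_lit 153089), .ofNat (nat_lit 367902)⟩, ⟨.ofNat (nat_lit 93684), .ofNat (nat_lit 250751), .ofNat (nat_lit 136362), .ofNat (nat_lit 293429), .ofNat (nat_lit 99106), .ofNat (nat_lit 252544), .ofNat (nat_lit 141790), .ofNat (nat_lit 295228)⟩⟩, [⟨nat_lit 0, nat_lit 100, nat_lit 94, nat_lit 44, nat_lit 155923225⟩]⟩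
noncomputable def p042_l125 : Lf2 := ⟨nat_lit 0, nat_lit 5, [nat_lit 4, nat_lit 5, nat_lit 5, nat_lit 20], true, nat_lit 80, nat_lit 160, nat_lit 0, nat_lit 360, ⟨nat_lit 0, nat_lit 0, nat_lit 1000, nat_lit 5, nat_lit 103, nat_lit 1000, nat_lit 80, nat_lit 1000, nat_lit 60000, nat_lit 275, nat_lit 98817, nat_lit 292, nat_lit 59335800, nat_lit 0, nat_lit 0, nat_lit 2286906, false, false⟩,
 nat_lit 0, nat_lit 7969, nat_lit 0, nat_lit 0, nat_lit 4853, nat_lit 0, nat_lit 1192, nat_lit 0, nat_lit 0, nat_lit 0, nat_lit 0, nat_lit 0, nat_lit 0, nat_lit 0, nat_lit 117, nat_lit 1000000, nat_lit 0, nat_lit 0, [(nat_lit 9, [(nat_lit 6, nat_lit 1000)])],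
 ⟨p042_k35, nat_lit 0, nat_lit 0, nat_lit 256, nat_lit 0, nat_lit 286551, [nat_lit 3178400000, nat_lit 158133334], [], [nat_lit 12353750273, nat_lit 13272205165, nat_lit 11576364835, nat_lit 12165131372, nat_lit 13523230885, nat_lit 14109011315, nat_lit 16197315312, nat_lit 15068194466], nat_lit 1271250, nat_lit 1271250, nat_lit 65850, nat_lit 780000, nat_lit 490000, nat_lit 1100001, [nat_lit 1100000, nat_lit 1785000], [nat_lit 39, nat_lit 40, nat_lit 40, nat_lit 80, nat_lit 7, nat_lit 289, nat_lit 75, nat_lit 10]⟩, C1.Rw.none,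
 ⟨nat_lit 5477, nat_lit 5701, ⟨.ofNat (nat_lit 139419), .ofNat (nat_lit 346560), .ofNat (nat_lit 160761), .ofNat (nat_lit 367902), .ofNat (nat_lit 147813), .ofNat (nat_lit 350132), .ofNat (nat_lit 169170), .ofNat (nat_lit 371489)⟩, ⟨.ofNat (nat_lit 99106), .ofNat (nat_lit 252544), .ofNat (nat_lit 141790), .ofNat (nat_lit 295228), .ofNat (nat_lit 104343), .ofNat (nat_lit 254209), .ofNat (nat_lit 147057), .ofNat (nat_lit 296923)⟩⟩, [⟨nat_lit 0, nat_lit 100, nat_lit 92, nat_lit 49, nat_lit 36857346⟩]⟩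
noncomputable def p042_l126 : Lf2 := ⟨nat_lit 0, nat_lit 2, [nat_lit 10, nat_lit 5, nat_lit 5, nat_lit 20], true, nat_lit 80, nat_lit 160, nat_lit 0, nat_lit 348, ⟨nat_lit 0, nat_lit 0, nat_lit 1000, nat_lit 5, nat_lit 87, nat_lit 1000, nat_lit 76, nat_lit 1000, nat_lit 54150, nat_lit 272, nat_lit 72600, nat_lit 281, nat_lit 60716270, nat_lit 0, nat_lit 0, nat_lit 1982070, false, false⟩,
 nat_lit 0, nat_lit 8720, nat_lit 0, nat_lit 0, nat_lit 4616, nat_lit 0, nat_lit 381, nat_lit 0, nat_lit 0, nat_lit 0, nat_lit 0, nat_lit 0, nat_lit 0, nat_lit 0, nat_lit 80, nat_lit 1000000, nat_lit 0, nat_lit 0, [(nat_lit 6, [(nat_lit 6, nat_lit 1000)])],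
 ⟨p042_k1, nat_lit 0, nat_lit 0, nat_lit 237, nat_lit 0, nat_lit 146241, [nat_lit 2257066667, nat_lit 1408000000, nat_lit 211200000], [], [nat_lit 9772396526, nat_lit 11304350120, nat_lit 8268720556, nat_lit 9614018459, nat_lit 11046786559, nat_lit 12317216719, nat_lit 11680583403, nat_lit 10896915979], nat_lit 1271250, nat_lit 1271250, nat_lit 43600, nat_lit 490000, nat_lit 490000, nat_lit 1100001, [nat_lit 1100000, nat_lit 1442500, nat_lit 1271250], [nat_lit 9, nat_lit 40, nat_lit 40, nat_lit 80, nat_lit 2, nat_lit 272, nat_lit 60, nat_lit 9]⟩, C1.Rw.none,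
 ⟨nat_lit 5916, nat_lit 6325, ⟨.ofNat (nat_lit 126498), .ofNat (nat_lit 274574), .ofNat (nat_lit 147866), .ofNat (nat_lit 295942), .ofNat (nat_lit 144377), .ofNat (nat_lit 285737), .ofNat (nat_lit 165716), .ofNat (nat_lit 307076)⟩, ⟨.ofNat (nat_lit 82263), .ofNat (nat_lit 246791), .ofNat (nat_lit 124999), .ofNat (nat_lit 289527), .ofNat (nat_lit 93684), .ofNat (nat_lit 250751), .ofNat (nat_lit 136362), .ofNat (nat_lit 293429)⟩⟩, [⟨nat_lit 0, nat_lit 100, nat_lit 97, nat_lit 49, nat_lit 138025422⟩]⟩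
noncomputable def p042_l127 : Lf2 := ⟨nat_lit 0, nat_lit 3, [nat_lit 45, nat_lit 5, nat_lit 5, nat_lit 20], true, nat_lit 80, nat_lit 160, nat_lit 0, nat_lit 348, ⟨nat_lit 0, nat_lit 0, nat_lit 1000, nat_lit 5, nat_lit 87, nat_lit 1000, nat_lit 76, nat_lit 1000, nat_lit 54150, nat_lit 272, nat_lit 72600, nat_lit 281, nat_lit 60716270, nat_lit 0, nat_lit 0, nat_lit 1982070, false, false⟩,
 nat_lit 0, nat_lit 8429, nat_lit 0, nat_lit 0, nat_lit 4462, nat_lit 0, nat_lit 0, nat_lit 0, nat_lit 0, nat_lit 0, nat_lit 0, nat_lit 0, nat_lit 0, nat_lit 0, nat_lit 41, nat_lit 400000, nat_lit 0, nat_lit 0, [(nat_lit 6, [(nat_lit 5, nat_lit 1000)])],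
 ⟨p042_k11, nat_lit 0, nat_lit 0, nat_lit 229, nat_lit 0, nat_lit 43282, [nat_lit 2073600001, nat_lit 7600000], [], [nat_lit 9075636079, nat_lit 11144525894, nat_lit 7244978897, nat_lit 8952262505, nat_lit 10656991565, nat_lit 12259765570, nat_lit 9024322601, nat_lit 10546418517], nat_lit 1271250, nat_lit 1271250, nat_lit 43600, nat_lit 490000, nat_lit 490000, nat_lit 1100001, [nat_lit 1100000, nat_lit 1785000], [nat_lit 39, nat_lit 40, nat_lit 40, nat_lit 80, nat_lit 7, nat_lit 272, nat_lit 60, nat_lit 9]⟩, C1.Rw.none,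
 ⟨nat_lit 5916, nat_lit 6325, ⟨.ofNat (nat_lit 126498), .ofNat (nat_lit 274574), .ofNat (nat_lit 147866), .ofNat (nat_lit 295942), .ofNat (nat_lit 144377), .ofNat (nat_lit 285737), .ofNat (nat_lit 165716), .ofNat (nat_lit 307076)⟩, ⟨.ofNat (nat_lit 82263), .ofNat (nat_lit 246791), .ofNat (nat_lit 124999), .ofNat (nat_lit 289527), .ofNat (nat_lit 93684), .ofNat (nat_lit 250751), .ofNat (nat_lit 136362), .ofNat (nat_lit 293429)⟩⟩, [⟨nat_lit 0, nat_lit 100, nat_lit 97, nat_lit 49, nat_lit 229969550⟩]⟩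
noncomputable def p042_l128 : Lf2 := ⟨nat_lit 0, nat_lit 3, [nat_lit 45, nat_lit 5, nat_lit 5, nat_lit 20], false, nat_lit 80, nat_lit 160, nat_lit 0, nat_lit 348, ⟨nat_lit 0, nat_lit 0, nat_lit 1000, nat_lit 5, nat_lit 132, nat_lit 1000, nat_lit 76, nat_lit 1000, nat_lit 54150, nat_lit 272, nat_lit 163350, nat_lit 314, nat_lit 57112987, nat_lit 0, nat_lit 0, nat_lit 2684409, false, false⟩,
 nat_lit 0, nat_lit 31873, nat_lit 0, nat_lit 0, nat_lit 16873, nat_lit 0, nat_lit 0, nat_lit 0, nat_lit 0, nat_lit 0, nat_lit 0, nat_lit 0, nat_lit 0, nat_lit 0, nat_lit 80, nat_lit 1000000, nat_lit 2202532008, nat_lit 0, [(nat_lit 6, [(nat_lit 6, nat_lit 1000)])],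
 ⟨p042_k11, nat_lit 0, nat_lit 0, nat_lit 201, nat_lit 0, nat_lit 148244, [nat_lit 2814000001, nat_lit 141466667], [], [nat_lit 12252796060, nat_lit 6635490906, nat_lit 0, nat_lit 4916147334, nat_lit 1495112104, nat_lit 6057954378, nat_lit 243375392, nat_lit 4551053154], nat_lit 1271250, nat_lit 1271250, nat_lit 490000, nat_lit 780000, nat_lit 490000, nat_lit 1100001, [nat_lit 1100000, nat_lit 1785000], [nat_lit 39, nat_lit 40, nat_lit 40, nat_lit 80, nat_lit 7, nat_lit 289, nat_lit 75, nat_lit 9]⟩, ⟨p042_k36, nat_lit 0, nat_lit 0, nat_lit 282, nat_lit 0, nat_lit 167930, [nat_lit 0, nat_lit 0], [], [nat_lit 0, nat_lit 0, nat_lit 0, nat_lit 0, nat_lit 0, nat_lit 0, nat_lit 0, nat_lit 0], nat_lit 1271250, nat_lit 1271250, nat_lit 490000, nat_lit 780000, nat_lit 0, nat_lit 2457750, [nat_lit 1412500, nat_lit 1271250], [nat_lit 51, nat_lit 40, nat_lit 40, nat_lit 80, nat_lit 1, nat_lit 428, nat_lit 200, nat_lit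 13]⟩,
 ⟨nat_lit 5916, nat_lit 6325, ⟨.ofNat (nat_lit 274574), .ofNat (nat_lit 356838), .ofNat (nat_lit 295942), .ofNat (nat_lit 378206), .ofNat (nat_lit 285737), .ofNat (nat_lit 364271), .ofNat (nat_lit 307076), .ofNat (nat_lit 385610)⟩, ⟨.ofNat (nat_lit 82263), .ofNat (nat_lit 246791), .ofNat (nat_lit 124999), .ofNat (nat_lit 289527), .ofNat (nat_lit 93684), .ofNat (nat_lit 250751), .ofNat (nat_lit 136362), .ofNat (nat_lit 293429)⟩⟩, []⟩
noncomputable def p042_l129 : Lf2 := ⟨nat_lit 1, nat_lit 5, [nat_lit 4, nat_lit 5, nat_lit 5, nat_lit 20], false, nat_lit 80, nat_lit 160, nat_lit 0, nat_lit 348, zbN0,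
 nat_lit 0, nat_lit 0, nat_lit 0, nat_lit 0, nat_lit 0, nat_lit 0, nat_lit 0, nat_lit 0, nat_lit 0, nat_lit 0, nat_lit 0, nat_lit 0, nat_lit 0, nat_lit 0, nat_lit 0, nat_lit 0, nat_lit 0, nat_lit 0, [],
 C1.Rw.none, C1.Rw.none,
 zbF0, []⟩
noncomputable def p042_l130 : Lf2 := ⟨nat_lit 0, nat_lit 2, [nat_lit 10, nat_lit 5, nat_lit 5, nat_lit 20], false, nat_lit 80, nat_lit 120, nat_lit 0, nat_lit 348, ⟨nat_lit 0, nat_lit 0, nat_lit 1000, nat_lit 5, nat_lit 112, nat_lit 1000, nat_lit 63, nat_lit 1000, nat_lit 38400, nat_lit 263, nat_lit 117600, nat_lit 299, nat_lit 59655899, nat_lit 0, nat_lit 0, nat_lit 2169245, false, false⟩,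
 nat_lit 0, nat_lit 7455, nat_lit 0, nat_lit 0, nat_lit 4339, nat_lit 0, nat_lit 0, nat_lit 0, nat_lit 0, nat_lit 0, nat_lit 0, nat_lit 0, nat_lit 0, nat_lit 0, nat_lit 37, nat_lit 1000000, nat_lit 0, nat_lit 0, [(nat_lit 9, [(nat_lit 6, nat_lit 1000)])],
 ⟨p042_k7, nat_lit 0, nat_lit 0, nat_lit 230, nat_lit 0, nat_lit 245442, [nat_lit 1689600001, nat_lit 0], [], [nat_lit 10962682880, nat_lit 12605611372, nat_lit 10487937138, nat_lit 11827739094, nat_lit 11699251368, nat_lit 13105713407, nat_lit 11199501495, nat_lit 12466096158], nat_lit 1271250, nat_lit 1271250, nat_lit 88400, nat_lit 780000, nat_lit 490000, nat_lit 780000, [nat_lit 1100000, nat_lit 1442500], [nat_lit 31, nat_lit 40, nat_lit 40, nat_lit 80, nat_lit 3, nat_lit 272, nat_lit 60, nat_lit 11]⟩, ⟨p042_k37, nat_lit 0, nat_lit 0, nat_lit 322, nat_lit 0, nat_lit 311414, [nat_lit 0, nat_lit 0], [], [nat_lit 0, nat_lit 0, nat_lit 0, nat_lit 0, nat_lit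 0, nat_lit 0, nat_lit 0, nat_lit 0], nat_lit 1271250, nat_lit 1271250, nat_lit 88400, nat_lit 780000, nat_lit 0, nat_lit 2457750, [nat_lit 1412500, nat_lit 1271250], [nat_lit 26, nat_lit 40, nat_lit 40, nat_lit 80, nat_lit 2, nat_lit 428, nat_lit 200, nat_lit 15]⟩,
 ⟨nat_lit 5477, nat_lit 5917, ⟨.ofNat (nat_lit 160083), .ofNat (nat_lit 364271), .ofNat (nat_lit 181423), .ofNat (nat_lit 385610), .ofNat (nat_lit 176664), .ofNat (nat_lit 371489), .ofNat (nat_lit 198021), .ofNat (nat_lit 392847)⟩, ⟨.ofNat (nat_lit 93684), .ofNat (nat_lit 172217), .ofNat (nat_lit 136362), .ofNat (nat_lit 214896), .ofNat (nat_lit 104343), .ofNat (nat_lit 179276), .ofNat (nat_lit 147057), .ofNat (nat_lit 221990)⟩⟩, [⟨nat_lit 0, nat_lit 100, nat_lit 94, nat_lit 59, nat_lit 139634588⟩]⟩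
noncomputable def p042_l131 : Lf2 := ⟨nat_lit 0, nat_lit 5, [nat_lit 4, nat_lit 5, nat_lit 5, nat_lit 20], false, nat_lit 80, nat_lit 120, nat_lit 0, nat_lit 348, ⟨nat_lit 0, nat_lit 0, nat_lit 1000, nat_lit 5, nat_lit 112, nat_lit 1000, nat_lit 63, nat_lit 1000, nat_lit 38400, nat_lit 263, nat_lit 117600, nat_lit 299, nat_lit 59655899, nat_lit 0, nat_lit 0, nat_lit 2169245, false, false⟩,
 nat_lit 0, nat_lit 7991, nat_lit 0, nat_lit 0, nat_lit 4651, nat_lit 0, nat_lit 0, nat_lit 0, nat_lit 0, nat_lit 0, nat_lit 0, nat_lit 0, nat_lit 0, nat_lit 0, nat_lit 83, nat_lit 674800, nat_lit 0, nat_lit 0, [(nat_lit 9, [(nat_lit 5, nat_lit 542), (nat_lit 6, nat_lit 458)])],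
 ⟨p042_k10, nat_lit 0, nat_lit 0, nat_lit 224, nat_lit 0, nat_lit 161041, [nat_lit 2753640001, nat_lit 11012000], [], [nat_lit 11491345948, nat_lit 12836897221, nat_lit 10503356317, nat_lit 11844352630, nat_lit 12003873613, nat_lit 13295427038, nat_lit 11149864639, nat_lit 12460487806], nat_lit 1271250, nat_lit 1271250, nat_lit 88400, nat_lit 780000, nat_lit 490000, nat_lit 780000, [nat_lit 1100000, nat_lit 1785000], [nat_lit 39, nat_lit 40, nat_lit 40, nat_lit 80, nat_lit 7, nat_lit 272, nat_lit 60, nat_lit 9]⟩, ⟨p042_k38, nat_lit 0, nat_lit 0, nat_lit 350, nat_lit 0, nat_lit 205105, [nat_lit 0, nat_lit 0], [], [nat_lit 0, nat_lit 0, nat_lit 0, nat_lit 0, nat_lit 0, nat_lit 0, nat_lit 0, nat_lit 0], nat_lit 1271250, nat_lit 1271250, nat_lit 88400, nat_lit 780000, nat_lit 0, nat_lit 2457750, [nat_lit 1412500, nat_lit 1271250], [nat_lit 51, nat_lit 40, nat_lit 40, nat_lit 80, nat_lit 1, nat_lit 428, nat_lit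 200, nat_lit 13]⟩,
 ⟨nat_lit 5477, nat_lit 5917, ⟨.ofNat (nat_lit 160083), .ofNat (nat_lit 364271), .ofNat (nat_lit 181423), .ofNat (nat_lit 385610), .ofNat (nat_lit 176664), .ofNat (nat_lit 371489), .ofNat (nat_lit 198021), .ofNat (nat_lit 392847)⟩, ⟨.ofNat (nat_lit 93684), .ofNat (nat_lit 172217), .ofNat (nat_lit 136362), .ofNat (nat_lit 214896), .ofNat (nat_lit 104343), .ofNat (nat_lit 179276), .ofNat (nat_lit 147057), .ofNat (nat_lit 221990)⟩⟩, [⟨nat_lit 0, nat_lit 100, nat_lit 94, nat_lit 59, nat_lit 149618770⟩]⟩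
noncomputable def p042_l132 : Lf2 := ⟨nat_lit 0, nat_lit 5, [nat_lit 4, nat_lit 5, nat_lit 5, nat_lit 20], false, nat_lit 120, nat_lit 160, nat_lit 0, nat_lit 348, ⟨nat_lit 0, nat_lit 0, nat_lit 1000, nat_lit 5, nat_lit 112, nat_lit 1000, nat_lit 94, nat_lit 1000, nat_lit 84017, nat_lit 286, nat_lit 117600, nat_lit 299, nat_lit 57611826, nat_lit 0, nat_lit 0, nat_lit 2657034, false, false⟩,
 nat_lit 0, nat_lit 10270, nat_lit 0, nat_lit 0, nat_lit 5977, nat_lit 0, nat_lit 1023, nat_lit 0, nat_lit 0, nat_lit 0, nat_lit 0, nat_lit 0, nat_lit 0, nat_lit 0, nat_lit 117, nat_lit 1000000, nat_lit 0, nat_lit 0, [(nat_lit 9, [(nat_lit 6, nat_lit 1000)])],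
 ⟨p042_k10, nat_lit 0, nat_lit 0, nat_lit 211, nat_lit 0, nat_lit 255075, [nat_lit 3178400000, nat_lit 158133334], [], [nat_lit 14217970371, nat_lit 14102246021, nat_lit 8511533964, nat_lit 10666660016, nat_lit 12163770110, nat_lit 14384629960, nat_lit 9149782554, nat_lit 11180261692], nat_lit 1271250, nat_lit 1271250, nat_lit 88400, nat_lit 780000, nat_lit 780000, nat_lit 1100001, [nat_lit 1100000, nat_lit 1785000], [nat_lit 39, nat_lit 40, nat_lit 40, nat_lit 80, nat_lit 7, nat_lit 289, nat_lit 75, nat_lit 9]⟩, ⟨p042_k38, nat_lit 0, nat_lit 0, nat_lit 443, nat_lit 0, nat_lit 324869, [nat_lit 0, nat_lit 0], [], [nat_lit 0, nat_lit 0, nat_lit 0, nat_lit 0, nat_lit 0, nat_lit 0, nat_lit 0, nat_lit 0], nat_lit 1271250, nat_lit 1271250, nat_lit 88400, nat_lit 780000, nat_lit 0, nat_lit 2457750, [nat_lit 1412500, nat_lit 1271250], [nat_lit 51, nat_lit 40, nat_lit 40, nat_lit 80, nat_lit 1, nat_lit 428, nat_lit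 200, nat_lit 13]⟩,
 ⟨nat_lit 5477, nat_lit 5917, ⟨.ofNat (nat_lit 160083), .ofNat (nat_lit 364271), .ofNat (nat_lit 181423), .ofNat (nat_lit 385610), .ofNat (nat_lit 176664), .ofNat (nat_lit 371489), .ofNat (nat_lit 198021), .ofNat (nat_lit 392847)⟩, ⟨.ofNat (nat_lit 172217), .ofNat (nat_lit 250751), .ofNat (nat_lit 214896), .ofNat (nat_lit 293429), .ofNat (nat_lit 179276), .ofNat (nat_lit 254209), .ofNat (nat_lit 221990), .ofNat (nat_lit 296923)⟩⟩, [⟨nat_lit 0, nat_lit 100, nat_lit 95, nat_lit 49, nat_lit 272443553⟩]⟩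
noncomputable def p042_l133 : Lf2 := ⟨nat_lit 0, nat_lit 8, [nat_lit 50, nat_lit 5, nat_lit 5, nat_lit 20], true, nat_lit 80, nat_lit 160, nat_lit 0, nat_lit 360, ⟨nat_lit 0, nat_lit 0, nat_lit 1000, nat_lit 5, nat_lit 100, nat_lit 1000, nat_lit 77, nat_lit 1000, nat_lit 56067, nat_lit 273, nat_lit 93750, nat_lit 290, nat_lit 59685651, nat_lit 0, nat_lit 0, nat_lit 2209500, false, false⟩,
 nat_lit 0, nat_lit 10963, nat_lit 0, nat_lit 19696, nat_lit 5803, nat_lit 0, nat_lit 0, nat_lit 0, nat_lit 0, nat_lit 0, nat_lit 0, nat_lit 0, nat_lit 0, nat_lit 0, nat_lit 136, nat_lit 914800, nat_lit 0, nat_lit 0, [(nat_lit 6, [(nat_lit 5, nat_lit 142), (nat_lit 6, nat_lit 858)]), (nat_lit 9, [(nat_lit 5, nat_lit 142), (nat_lit 6, nat_lit 858)])],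
 ⟨p042_k12, nat_lit 0, nat_lit 0, nat_lit 235, nat_lit 0, nat_lit 97259, [nat_lit 4287212800, nat_lit 75954400], [], [nat_lit 20481074546, nat_lit 14746218570, nat_lit 11076678092, nat_lit 11157983448, nat_lit 12320623310, nat_lit 15265293112, nat_lit 16191795456, nat_lit 11922561540], nat_lit 1271250, nat_lit 1271250, nat_lit 21650, nat_lit 780000, nat_lit 490000, nat_lit 1100001, [nat_lit 1100000, nat_lit 2127500], [nat_lit 70, nat_lit 40, nat_lit 40, nat_lit 80, nat_lit 13, nat_lit 373, nat_lit 150, nat_lit 11]⟩, C1.Rw.none,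
 ⟨nat_lit 5477, nat_lit 6325, ⟨.ofNat (nat_lit 96904), .ofNat (nat_lit 335470), .ofNat (nat_lit 139640), .ofNat (nat_lit 378206), .ofNat (nat_lit 132827), .ofNat (nat_lit 350132), .ofNat (nat_lit 175541), .ofNat (nat_lit 392847)⟩, ⟨.ofNat (nat_lit 82263), .ofNat (nat_lit 246791), .ofNat (nat_lit 124999), .ofNat (nat_lit 289527), .ofNat (nat_lit 104343), .ofNat (nat_lit 254209), .ofNat (nat_lit 147057), .ofNat (nat_lit 296923)⟩⟩, [⟨nat_lit 0, nat_lit 100, nat_lit 94, nat_lit 59, nat_lit 263663818⟩]⟩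
noncomputable def p042_l134 : Lf2 := ⟨nat_lit 0, nat_lit 8, [nat_lit 50, nat_lit 5, nat_lit 5, nat_lit 20], false, nat_lit 80, nat_lit 160, nat_lit 0, nat_lit 360, ⟨nat_lit 1000, nat_lit 0, nat_lit 0, nat_lit 0, nat_lit 0, nat_lit 0, nat_lit 0, nat_lit 0, nat_lit 0, nat_lit 0, nat_lit 0, nat_lit 0, nat_lit 0, nat_lit 0, nat_lit 0, nat_lit 0, false, false⟩,
 nat_lit 27183, nat_lit 35990, nat_lit 0, nat_lit 0, nat_lit 33444, nat_lit 11649, nat_lit 0, nat_lit 0, nat_lit 0, nat_lit 709, nat_lit 0, nat_lit 0, nat_lit 0, nat_lit 0, nat_lit 0, nat_lit 0, nat_lit 15765981248, nat_lit 0, [],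
 ⟨p042_k0, nat_lit 0, nat_lit 0, nat_lit 182, nat_lit 0, nat_lit 158261, [nat_lit 4688000000, nat_lit 6250000000, nat_lit 9842000000], [], [nat_lit 27467272000, nat_lit 10632598376, nat_lit 3491207936, nat_lit 11745041608, nat_lit 0, nat_lit 7770917336, nat_lit 1462780784, nat_lit 8617686616], nat_lit 1271250, nat_lit 1271250, nat_lit 780000, nat_lit 1100001, nat_lit 490000, nat_lit 1100001, [nat_lit 1100000, nat_lit 1442500, nat_lit 1271250], [nat_lit 11, nat_lit 40, nat_lit 40, nat_lit 80, nat_lit 1, nat_lit 373, nat_lit 150, nat_lit 11]⟩, ⟨p042_k13, nat_lit 0, nat_lit 0, nat_lit 357, nat_lit 0, nat_lit 206981, [nat_lit 6250000000, nat_lit 7968000000, nat_lit 11872000000], [], [nat_lit 50251224160, nat_lit 37932686236, nat_lit 37932686236, nat_lit 31071068069, nat_lit 43788712852, nat_lit 32956483583, nat_lit 49146169726, nat_lit 38455765936], nat_lit 1271250, nat_lit 1271250, nat_lit 780000, nat_lit 1100001,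 nat_lit 0, nat_lit 2542500, [nat_lit 1412500, nat_lit 1271250, nat_lit 1271250], [nat_lit 53, nat_lit 40, nat_lit 40, nat_lit 80, nat_lit 14, nat_lit 428, nat_lit 200, nat_lit 11]⟩,
 zbF0, [⟨nat_lit 7, nat_lit 77, nat_lit 100, nat_lit 72, nat_lit 175148730⟩]⟩
noncomputable def p042_l135 : Lf2 := ⟨nat_lit 0, nat_lit 8, [nat_lit 50, nat_lit 5, nat_lit 5, nat_lit 20], false, nat_lit 80, nat_lit 160, nat_lit 0, nat_lit 360, ⟨nat_lit 15, nat_lit 0, nat_lit 985, nat_lit 5, nat_lit 162, nat_lit 985, nat_lit 79, nat_lit 985, nat_lit 58017, nat_lit 274, nat_lit 104024, nat_lit 294, nat_lit 54180071, nat_lit 0, nat_lit 0, nat_lit 3142097, false, false⟩,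
 nat_lit 900, nat_lit 7330, nat_lit 0, nat_lit 0, nat_lit 4790, nat_lit 385, nat_lit 366, nat_lit 0, nat_lit 0, nat_lit 0, nat_lit 0, nat_lit 0, nat_lit 0, nat_lit 0, nat_lit 184, nat_lit 985000, nat_lit 0, nat_lit 0, [(nat_lit 9, [(nat_lit 6, nat_lit 985)])],
 ⟨p042_k20, nat_lit 0, nat_lit 0, nat_lit 180, nat_lit 0, nat_lit 264708, [nat_lit 4095456000, nat_lit 3351513334, nat_lit 230318666], [], [nat_lit 9368274444, nat_lit 10671308464, nat_lit 10260083864, nat_lit 11481430824, nat_lit 10570002364, nat_lit 11717521064, nat_lit 13241482204, nat_lit 12648756000], nat_lit 1271250, nat_lit 1271250, nat_lit 780000, nat_lit 1100001, nat_lit 490000, nat_lit 1100001, [nat_lit 1100000, nat_lit 1442500, nat_lit 1271250], [nat_lit 11, nat_lit 40, nat_lit 40, nat_lit 80, nat_lit 1, nat_lit 373, nat_lit 150, nat_lit 11]⟩, ⟨p042_k13, nat_lit 0, nat_lit 0, nat_lit 485, nat_lit 0, nat_lit 389360, [nat_lit 93750000, nat_lit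 119520000, nat_lit 178080000], [], [nat_lit 1074178580, nat_lit 667050320, nat_lit 667050320, nat_lit 524254580, nat_lit 720614160, nat_lit 565087580, nat_lit 874574230, nat_lit 530345320], nat_lit 1271250, nat_lit 1271250, nat_lit 780000, nat_lit 1100001, nat_lit 0, nat_lit 2542500, [nat_lit 1412500, nat_lit 1271250, nat_lit 1271250], [nat_lit 53, nat_lit 40, nat_lit 40, nat_lit 80, nat_lit 14, nat_lit 428, nat_lit 200, nat_lit 11]⟩,
 ⟨nat_lit 5477, nat_lit 5917, ⟨.ofNat (nat_lit 342931), .ofNat (nat_lit 421465), .ofNat (nat_lit 385610), .ofNat (nat_lit 464143), .ofNat (nat_lit 350132), .ofNat (nat_lit 425065), .ofNat (nat_lit 392847), .ofNat (nat_lit 467780)⟩, ⟨.ofNat (nat_lit 93684), .ofNat (nat_lit 250751), .ofNat (nat_lit 136362), .ofNat (nat_lit 293429), .ofNat (nat_lit 104343), .ofNat (nat_lit 254209), .ofNat (nat_lit 147057), .ofNat (nat_lit 296923)⟩⟩, [⟨nat_lit 7, nat_lit 77, nat_lit 100, nat_lit 72,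 nat_lit 4222453⟩]⟩
noncomputable def p042_l136 : Lf2 := ⟨nat_lit 0, nat_lit 8, [nat_lit 50, nat_lit 5, nat_lit 5, nat_lit 20], false, nat_lit 0, nat_lit 160, nat_lit 0, nat_lit 160, ⟨nat_lit 1000, nat_lit 0, nat_lit 0, nat_lit 0, nat_lit 0, nat_lit 0, nat_lit 0, nat_lit 0, nat_lit 0, nat_lit 0, nat_lit 0, nat_lit 0, nat_lit 0, nat_lit 0, nat_lit 0, nat_lit 0, false, false⟩,
 nat_lit 19995, nat_lit 0, nat_lit 0, nat_lit 0, nat_lit 6025, nat_lit 8569, nat_lit 1834, nat_lit 0, nat_lit 0, nat_lit 929, nat_lit 0, nat_lit 0, nat_lit 0, nat_lit 0, nat_lit 0, nat_lit 0, nat_lit 0, nat_lit 0, [],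
 ⟨p042_k0, nat_lit 0, nat_lit 0, nat_lit 313, nat_lit 0, nat_lit 297711, [nat_lit 4688000000, nat_lit 6250000000, nat_lit 9842000000], [], [nat_lit 38557148000, nat_lit 32185855100, nat_lit 29010601500, nat_lit 30326571300, nat_lit 24671019400, nat_lit 25972343500, nat_lit 31684902900, nat_lit 27421581600], nat_lit 1271250, nat_lit 1271250, nat_lit 1100001, nat_lit 1785000, nat_lit 0, nat_lit 1100001, [nat_lit 1100000, nat_lit 1442500, nat_lit 1271250], [nat_lit 11, nat_lit 40, nat_lit 40, nat_lit 80, nat_lit 1, nat_lit 401, nat_lit 175, nat_lit 12]⟩, ⟨p042_k13, nat_lit 0, nat_lit 0, nat_lit 420, nat_lit 0, nat_lit 389360, [nat_lit 6250000000, nat_lit 7968000000, nat_lit 11872000000], [], [nat_lit 36496285116, nat_lit 33979759797, nat_lit 34350583525, nat_lit 35168797045, nat_lit 32817284000, nat_lit 28646523909, nat_lit 42316815684, nat_lit 34130198740], nat_lit 1271250, nat_lit 1271250, nat_lit 1100001, nat_lit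 1785000, nat_lit 0, nat_lit 1100001, [nat_lit 1412500, nat_lit 1271250, nat_lit 1271250], [nat_lit 53, nat_lit 40, nat_lit 40, nat_lit 80, nat_lit 14, nat_lit 401, nat_lit 175, nat_lit 10]⟩,
 zbF0, []⟩
noncomputable def p042_l137 : Lf2 := ⟨nat_lit 0, nat_lit 8, [nat_lit 50, nat_lit 5, nat_lit 5, nat_lit 20], false, nat_lit 0, nat_lit 160, nat_lit 160, nat_lit 240, ⟨nat_lit 1000, nat_lit 0, nat_lit 0, nat_lit 0, nat_lit 0, nat_lit 0, nat_lit 0, nat_lit 0, nat_lit 0, nat_lit 0, nat_lit 0, nat_lit 0, nat_lit 0, nat_lit 0, nat_lit 0, nat_lit 0, false, false⟩,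
 nat_lit 12615, nat_lit 0, nat_lit 0, nat_lit 11849, nat_lit 6139, nat_lit 5406, nat_lit 1526, nat_lit 0, nat_lit 0, nat_lit 2234, nat_lit 0, nat_lit 0, nat_lit 0, nat_lit 0, nat_lit 0, nat_lit 0, nat_lit 0, nat_lit 0, [],
 ⟨p042_k0, nat_lit 0, nat_lit 0, nat_lit 313, nat_lit 0, nat_lit 297711, [nat_lit 4688000000, nat_lit 6250000000, nat_lit 9842000000], [], [nat_lit 38730865760, nat_lit 32239020596, nat_lit 30753072820, nat_lit 31995427464, nat_lit 26314237304, nat_lit 27549667632, nat_lit 31606794204, nat_lit 28594532924], nat_lit 1271250, nat_lit 1271250, nat_lit 1100001, nat_lit 1785000, nat_lit 0, nat_lit 1100001, [nat_lit 1100000, nat_lit 1442500, nat_lit 1271250], [nat_lit 11, nat_lit 40, nat_lit 40, nat_lit 80, nat_lit 1, nat_lit 401, nat_lit 175, nat_lit 12]⟩, ⟨p042_k13, nat_lit 0, nat_lit 0, nat_lit 241, nat_lit 0, nat_lit 389360, [nat_lit 6250000000, nat_lit 7968000000, nat_lit 11872000000], [],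 [nat_lit 34487891040, nat_lit 28771175784, nat_lit 26703189106, nat_lit 27737075728, nat_lit 26703189106, nat_lit 27737075728, nat_lit 31953752984, nat_lit 29652250456], nat_lit 1271250, nat_lit 1271250, nat_lit 1100001, nat_lit 1785000, nat_lit 1100001, nat_lit 1785000, [nat_lit 1412500, nat_lit 1271250, nat_lit 1271250], [nat_lit 53, nat_lit 40, nat_lit 40, nat_lit 80, nat_lit 14, nat_lit 428, nat_lit 200, nat_lit 11]⟩,
 zbF0, []⟩
noncomputable def p042_l138 : Lf2 := ⟨nat_lit 0, nat_lit 8, [nat_lit 50, nat_lit 5, nat_lit 5, nat_lit 20], false, nat_lit 0, nat_lit 160, nat_lit 240, nat_lit 360, ⟨nat_lit 1000, nat_lit 0, nat_lit 0, nat_lit 0, nat_lit 0, nat_lit 0, nat_lit 0, nat_lit 0, nat_lit 0, nat_lit 0, nat_lit 0, nat_lit 0, nat_lit 0, nat_lit 0, nat_lit 0, nat_lit 0, false, false⟩,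
 nat_lit 23970, nat_lit 0, nat_lit 0, nat_lit 0, nat_lit 5946, nat_lit 10272, nat_lit 1624, nat_lit 0, nat_lit 0, nat_lit 2407, nat_lit 0, nat_lit 0, nat_lit 0, nat_lit 0, nat_lit 0, nat_lit 0, nat_lit 0, nat_lit 0, [],
 ⟨p042_k0, nat_lit 0, nat_lit 0, nat_lit 313, nat_lit 0, nat_lit 297711, [nat_lit 4688000000, nat_lit 6250000000, nat_lit 9842000000], [], [nat_lit 38436764640, nat_lit 32149012344, nat_lit 30507813480, nat_lit 31740750496, nat_lit 26237012256, nat_lit 27462608848, nat_lit 31739030856, nat_lit 28525494936], nat_lit 1271250, nat_lit 1271250, nat_lit 1100001, nat_lit 1785000, nat_lit 0, nat_lit 1100001, [nat_lit 1100000, nat_lit 1442500, nat_lit 1271250], [nat_lit 11, nat_lit 40, nat_lit 40, nat_lit 80, nat_lit 1, nat_lit 401, nat_lit 175, nat_lit 12]⟩, ⟨p042_k13, nat_lit 0, nat_lit 0, nat_lit 276, nat_lit 0, nat_lit 389360, [nat_lit 6250000000, nat_lit 7968000000, nat_lit 11872000000], [], [nat_lit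 20341639776, nat_lit 18660574907, nat_lit 19217817819, nat_lit 20422710811, nat_lit 26095355483, nat_lit 26827903035, nat_lit 27082371472, nat_lit 28320504720], nat_lit 1271250, nat_lit 1271250, nat_lit 1100001, nat_lit 1785000, nat_lit 1271250, nat_lit 1271250, [nat_lit 1412500, nat_lit 1271250, nat_lit 1271250], [nat_lit 53, nat_lit 40, nat_lit 40, nat_lit 80, nat_lit 14, nat_lit 456, nat_lit 225, nat_lit 11]⟩,
 zbF0, [⟨nat_lit 7, nat_lit 77, nat_lit 100, nat_lit 72, nat_lit 805832662⟩]⟩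
noncomputable def b_V_600_500_10_12 : St := ⟨true, nat_lit 1, nat_lit 1, nat_lit 1, nat_lit 80, nat_lit 240, nat_lit 280, nat_lit 200, nat_lit 240, nat_lit 4, nat_lit 240, nat_lit 40, nat_lit 80, nat_lit 0, nat_lit 160, nat_lit 0, nat_lit 360, nat_lit 0, nat_lit 32, nat_lit 0, nat_lit 0, nat_lit 0, nat_lit 0⟩
theorem d_V_600_500_10_12 (h : EB TB.env) : Dead b_V_600_500_10_12 := chkB_sound0 h (T :=
(.spl (nat_lit 2) (nat_lit 160)
(.spl (nat_lit 4) (nat_lit 80)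
(.spl (nat_lit 2) (nat_lit 80)
(.spl (nat_lit 0) (nat_lit 260)
(.spl (nat_lit 6) (nat_lit 16)
(.spl (nat_lit 0) (nat_lit 250)
(.leaf p042_l115)
(.leaf p042_l116))
(.leaf p042_l117))
(.trZ (nat_lit 0) (nat_lit 100) (nat_lit 95) (nat_lit 30) (nat_lit 8) (.leaf p042_l118)))
(.spl (nat_lit 0) (nat_lit 260)
(.leaf p042_l119)
(.leaf p042_l120)))
(.spl (nat_lit 2) (nat_lit 120)
(.spl (nat_lit 6) (nat_lit 20)
(.spl (nat_lit 1) (nat_lit 220)
(.spl (nat_lit 0) (nat_lit 260)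
(.spl (nat_lit 6) (nat_lit 8)
(.spl (nat_lit 0) (nat_lit 250)
(.leaf p042_l121)
(.leaf p042_l122))
(.leaf p042_l123))
(.trZ (nat_lit 0) (nat_lit 100) (nat_lit 95) (nat_lit 30) (nat_lit 8) (.spl (nat_lit 0) (nat_lit 270)
(.leaf p042_l124)
(.trZ (nat_lit 0) (nat_lit 100) (nat_lit 94) (nat_lit 35) (nat_lit 12) (.leaf p042_l125)))))
(.trZ (nat_lit 0) (nat_lit 100) (nat_lit 98) (nat_lit 30) (nat_lit 8) (.trX (nat_lit 19) (nat_lit 100) (nat_lit 68) (nat_lit 80) (nat_lit 348) (.spl (nat_lit 0) (nat_lit 260)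
(.spl (nat_lit 6) (nat_lit 12)
(.spl (nat_lit 2) (nat_lit 80)
(.spl (nat_lit 6) (nat_lit 8)
(.leaf p042_l126)
(.leaf p042_l127))
(.leaf p042_l128))
(.leaf p042_l129))
(.trZ (nat_lit 0) (nat_lit 100) (nat_lit 96) (nat_lit 40) (nat_lit 16) (.spl (nat_lit 4) (nat_lit 120)
(.spl (nat_lit 6) (nat_lit 8)
(.leaf p042_l130)
(.leaf p042_l131))
(.leaf p042_l132)))))))
(.leaf p042_l133))
(.spl (nat_lit 0) (nat_lit 260)
(.leaf p042_l134)
(.leaf p042_l135))))
(.spl (nat_lit 5) (nat_lit 160)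
(.leaf p042_l136)
(.spl (nat_lit 5) (nat_lit 240)
(.leaf p042_l137)
(.leaf p042_l138))))) (by decide +kernel)
noncomputable def p042_l139 : Lf2 := ⟨nat_lit 0, nat_lit 4, [nat_lit 38, nat_lit 5, nat_lit 5, nat_lit 20], false, nat_lit 160, nat_lit 200, nat_lit 0, nat_lit 360, ⟨nat_lit 0, nat_lit 0, nat_lit 1000, nat_lit 5, nat_lit 96, nat_lit 1000, nat_lit 124, nat_lit 1000, nat_lit 144150, nat_lit 308, nat_lit 86400, nat_lit 287, nat_lit 56442498, nat_lit 0, nat_lit 0, nat_lit 2876204, false, false⟩,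
 nat_lit 0, nat_lit 11232, nat_lit 0, nat_lit 0, nat_lit 5946, nat_lit 0, nat_lit 0, nat_lit 0, nat_lit 0, nat_lit 0, nat_lit 0, nat_lit 0, nat_lit 0, nat_lit 0, nat_lit 80, nat_lit 1000000, nat_lit 0, nat_lit 0, [(nat_lit 6, [(nat_lit 6, nat_lit 1000)])],
 ⟨p042_k25, nat_lit 0, nat_lit 0, nat_lit 194, nat_lit 0, nat_lit 89198, [nat_lit 2814000001, nat_lit 141466667], [], [nat_lit 10957776418, nat_lit 12030962116, nat_lit 13751194884, nat_lit 12290791878, nat_lit 13578189082, nat_lit 14545652315, nat_lit 17466388420, nat_lit 16026103705], nat_lit 1271250, nat_lit 1271250, nat_lit 21650, nat_lit 780000, nat_lit 1100001, nat_lit 1442500, [nat_lit 1100000, nat_lit 1785000], [nat_lit 39, nat_lit 40, nat_lit 40, nat_lit 80, nat_lit 7, nat_lit 317, nat_lit 100, nat_lit 10]⟩, ⟨p042_k39, nat_lit 0, nat_lit 0, nat_lit 331, nat_lit 0, nat_lit 116028, [nat_lit 0, nat_lit 0], [], [nat_lit 0, nat_lit 0, nat_lit 0, nat_lit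 0, nat_lit 0, nat_lit 0, nat_lit 0, nat_lit 0], nat_lit 1271250, nat_lit 1271250, nat_lit 21650, nat_lit 780000, nat_lit 0, nat_lit 2542500, [nat_lit 1412500, nat_lit 1271250], [nat_lit 51, nat_lit 40, nat_lit 40, nat_lit 80, nat_lit 1, nat_lit 428, nat_lit 200, nat_lit 13]⟩,
 ⟨nat_lit 6123, nat_lit 6325, ⟨.ofNat (nat_lit 96904), .ofNat (nat_lit 335470), .ofNat (nat_lit 139640), .ofNat (nat_lit 378206), .ofNat (nat_lit 106133), .ofNat (nat_lit 339237), .ofNat (nat_lit 148829), .ofNat (nat_lit 381933)⟩, ⟨.ofNat (nat_lit 246791), .ofNat (nat_lit 329055), .ofNat (nat_lit 289527), .ofNat (nat_lit 371791), .ofNat (nat_lit 248833), .ofNat (nat_lit 329214), .ofNat (nat_lit 291529), .ofNat (nat_lit 371910)⟩⟩, []⟩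
noncomputable def p042_l140 : Lf2 := ⟨nat_lit 0, nat_lit 4, [nat_lit 38, nat_lit 5, nat_lit 5, nat_lit 20], false, nat_lit 160, nat_lit 200, nat_lit 0, nat_lit 360, ⟨nat_lit 0, nat_lit 0, nat_lit 1000, nat_lit 5, nat_lit 99, nat_lit 1000, nat_lit 124, nat_lit 1000, nat_lit 144150, nat_lit 308, nat_lit 91267, nat_lit 289, nat_lit 56221236, nat_lit 0, nat_lit 0, nat_lit 2921335, false, false⟩,
 nat_lit 0, nat_lit 8338, nat_lit 0, nat_lit 0, nat_lit 4632, nat_lit 0, nat_lit 976, nat_lit 0, nat_lit 0, nat_lit 0, nat_lit 0, nat_lit 0, nat_lit 0, nat_lit 0, nat_lit 53, nat_lit 580000, nat_lit 0, nat_lit 0, [(nat_lit 6, [(nat_lit 5, nat_lit 700), (nat_lit 6, nat_lit 300)])],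
 ⟨p042_k40, nat_lit 0, nat_lit 0, nat_lit 193, nat_lit 0, nat_lit 141670, [nat_lit 2300520001, nat_lit 14546667], [], [nat_lit 12375292894, nat_lit 13064563247, nat_lit 14066505988, nat_lit 12928835836, nat_lit 14116695232, nat_lit 14752330618, nat_lit 17279109272, nat_lit 16157111492], nat_lit 1271250, nat_lit 1271250, nat_lit 21650, nat_lit 780000, nat_lit 1100001, nat_lit 1442500, [nat_lit 1100000, nat_lit 1785000], [nat_lit 39, nat_lit 40, nat_lit 40, nat_lit 80, nat_lit 7, nat_lit 317, nat_lit 100, nat_lit 10]⟩, ⟨p042_k39, nat_lit 0, nat_lit 0, nat_lit 359, nat_lit 0, nat_lit 195442, [nat_lit 0, nat_lit 0], [], [nat_lit 0, nat_lit 0, nat_lit 0, nat_lit 0, nat_lit 0, nat_lit 0, nat_lit 0, nat_lit 0], nat_lit 1271250, nat_lit 1271250, nat_lit 21650, nat_lit 780000, nat_lit 0, nat_lit 2542500, [nat_lit 1412500, nat_lit 1271250], [nat_lit 51, nat_lit 40, nat_lit 40, nat_lit 80, nat_lit 1, nat_lit 428, nat_lit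 200, nat_lit 13]⟩,
 ⟨nat_lit 5916, nat_lit 6124, ⟨.ofNat (nat_lit 106133), .ofNat (nat_lit 339237), .ofNat (nat_lit 148829), .ofNat (nat_lit 381933), .ofNat (nat_lit 115184), .ofNat (nat_lit 342931), .ofNat (nat_lit 157863), .ofNat (nat_lit 385610)⟩, ⟨.ofNat (nat_lit 248833), .ofNat (nat_lit 329214), .ofNat (nat_lit 291529), .ofNat (nat_lit 371910), .ofNat (nat_lit 250751), .ofNat (nat_lit 329284), .ofNat (nat_lit 293429), .ofNat (nat_lit 371963)⟩⟩, []⟩
noncomputable def p042_l141 : Lf2 := ⟨nat_lit 1, nat_lit 8, [nat_lit 50, nat_lit 5, nat_lit 5, nat_lit 20], false, nat_lit 160, nat_lit 200, nat_lit 0, nat_lit 360, zbN0,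
 nat_lit 0, nat_lit 0, nat_lit 0, nat_lit 0, nat_lit 0, nat_lit 0, nat_lit 0, nat_lit 0, nat_lit 0, nat_lit 0, nat_lit 0, nat_lit 0, nat_lit 0, nat_lit 0, nat_lit 0, nat_lit 0, nat_lit 0, nat_lit 0, [],
 C1.Rw.none, C1.Rw.none,
 zbF0, []⟩
noncomputable def p042_l142 : Lf2 := ⟨nat_lit 0, nat_lit 8, [nat_lit 50, nat_lit 5, nat_lit 5, nat_lit 20], false, nat_lit 160, nat_lit 200, nat_lit 0, nat_lit 360, ⟨nat_lit 0, nat_lit 0, nat_lit 1000, nat_lit 5, nat_lit 103, nat_lit 1000, nat_lit 125, nat_lit 1000, nat_lit 147267, nat_lit 309, nat_lit 98817, nat_lit 292, nat_lit 55889357, nat_lit 0, nat_lit 0, nat_lit 2988285, false, false⟩,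
 nat_lit 0, nat_lit 7261, nat_lit 0, nat_lit 0, nat_lit 4226, nat_lit 0, nat_lit 173, nat_lit 0, nat_lit 0, nat_lit 0, nat_lit 0, nat_lit 0, nat_lit 0, nat_lit 0, nat_lit 192, nat_lit 1000000, nat_lit 0, nat_lit 0, [(nat_lit 9, [(nat_lit 6, nat_lit 1000)])],
 ⟨p042_k20, nat_lit 0, nat_lit 0, nat_lit 211, nat_lit 0, nat_lit 201176, [nat_lit 4169600001, nat_lit 3411333334, nat_lit 231866666], [], [nat_lit 12876691023, nat_lit 13533873801, nat_lit 12173321902, nat_lit 12762736692, nat_lit 14515794148, nat_lit 15123080451, nat_lit 14855387594, nat_lit 14211461615], nat_lit 1271250, nat_lit 1271250, nat_lit 43600, nat_lit 780000, nat_lit 1100001, nat_lit 1442500, [nat_lit 1100000, nat_lit 1442500, nat_lit 1271250], [nat_lit 11, nat_lit 40, nat_lit 40, nat_lit 80, nat_lit 1, nat_lit 373, nat_lit 150, nat_lit 11]⟩, ⟨p042_k13, nat_lit 0, nat_lit 0, nat_lit 531, nat_lit 0, nat_lit 295910, [nat_lit 0, nat_lit 0, nat_lit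 0], [], [nat_lit 0, nat_lit 0, nat_lit 0, nat_lit 0, nat_lit 0, nat_lit 0, nat_lit 0, nat_lit 0], nat_lit 1271250, nat_lit 1271250, nat_lit 43600, nat_lit 780000, nat_lit 0, nat_lit 2542500, [nat_lit 1412500, nat_lit 1271250, nat_lit 1271250], [nat_lit 53, nat_lit 40, nat_lit 40, nat_lit 80, nat_lit 14, nat_lit 428, nat_lit 200, nat_lit 12]⟩,
 ⟨nat_lit 5700, nat_lit 5917, ⟨.ofNat (nat_lit 123037), .ofNat (nat_lit 342931), .ofNat (nat_lit 165716), .ofNat (nat_lit 385610), .ofNat (nat_lit 131747), .ofNat (nat_lit 346560), .ofNat (nat_lit 174431), .ofNat (nat_lit 389244)⟩, ⟨.ofNat (nat_lit 250751), .ofNat (nat_lit 329284), .ofNat (nat_lit 293429), .ofNat (nat_lit 371963), .ofNat (nat_lit 252544), .ofNat (nat_lit 329263), .ofNat (nat_lit 295228), .ofNat (nat_lit 371947)⟩⟩, [⟨nat_lit 0, nat_lit 100, nat_lit 96, nat_lit 54, nat_lit 117409372⟩]⟩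
noncomputable def p042_l143 : Lf2 := ⟨nat_lit 0, nat_lit 8, [nat_lit 50, nat_lit 5, nat_lit 5, nat_lit 20], false, nat_lit 160, nat_lit 200, nat_lit 0, nat_lit 360, ⟨nat_lit 0, nat_lit 0, nat_lit 1000, nat_lit 5, nat_lit 107, nat_lit 1000, nat_lit 125, nat_lit 1000, nat_lit 147267, nat_lit 309, nat_lit 106667, nat_lit 295, nat_lit 55564259, nat_lit 0, nat_lit 0, nat_lit 3052289, false, false⟩,
 nat_lit 0, nat_lit 6832, nat_lit 0, nat_lit 0, nat_lit 4160, nat_lit 0, nat_lit 0, nat_lit 0, nat_lit 0, nat_lit 0, nat_lit 0, nat_lit 0, nat_lit 0, nat_lit 0, nat_lit 192, nat_lit 1000000, nat_lit 0, nat_lit 0, [(nat_lit 9, [(nat_lit 6, nat_lit 1000)])],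
 ⟨p042_k41, nat_lit 0, nat_lit 0, nat_lit 284, nat_lit 0, nat_lit 250442, [nat_lit 4169600001, nat_lit 3411333334, nat_lit 231866666], [], [nat_lit 13514893099, nat_lit 14165689362, nat_lit 12911661402, nat_lit 13496824802, nat_lit 15095276720, nat_lit 15696909450, nat_lit 14354632082, nat_lit 14896625042], nat_lit 1271250, nat_lit 1271250, nat_lit 65850, nat_lit 780000, nat_lit 1100001, nat_lit 1442500, [nat_lit 1100000, nat_lit 1442500, nat_lit 1271250], [nat_lit 11, nat_lit 40, nat_lit 40, nat_lit 80, nat_lit 1, nat_lit 373, nat_lit 150, nat_lit 11]⟩, ⟨p042_k13, nat_lit 0, nat_lit 0, nat_lit 563, nat_lit 0, nat_lit 389360, [nat_lit 0, nat_lit 0, nat_lit 0], [], [nat_lit 0, nat_lit 0, nat_lit 0, nat_lit 0, nat_lit 0, nat_lit 0, nat_lit 0, nat_lit 0], nat_lit 1271250, nat_lit 1271250, nat_lit 65850, nat_lit 780000, nat_lit 0, nat_lit 2542500, [nat_lit 1412500, nat_lit 1271250, nat_lit 1271250], [nat_lit 53,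 nat_lit 40, nat_lit 40, nat_lit 80, nat_lit 14, nat_lit 428, nat_lit 200, nat_lit 12]⟩,
 ⟨nat_lit 5477, nat_lit 5701, ⟨.ofNat (nat_lit 139419), .ofNat (nat_lit 346560), .ofNat (nat_lit 182103), .ofNat (nat_lit 389244), .ofNat (nat_lit 147813), .ofNat (nat_lit 350132), .ofNat (nat_lit 190527), .ofNat (nat_lit 392847)⟩, ⟨.ofNat (nat_lit 252544), .ofNat (nat_lit 329263), .ofNat (nat_lit 295228), .ofNat (nat_lit 371947), .ofNat (nat_lit 254209), .ofNat (nat_lit 329142), .ofNat (nat_lit 296923), .ofNat (nat_lit 371856)⟩⟩, [⟨nat_lit 0, nat_lit 100, nat_lit 94, nat_lit 59, nat_lit 143608495⟩]⟩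
noncomputable def p042_l144 : Lf2 := ⟨nat_lit 0, nat_lit 8, [nat_lit 50, nat_lit 5, nat_lit 5, nat_lit 20], false, nat_lit 200, nat_lit 240, nat_lit 0, nat_lit 360, ⟨nat_lit 0, nat_lit 0, nat_lit 1000, nat_lit 5, nat_lit 98, nat_lit 1000, nat_lit 156, nat_lit 1000, nat_lit 190817, nat_lit 322, nat_lit 88817, nat_lit 288, nat_lit 53527668, nat_lit 0, nat_lit 0, nat_lit 3339363, false, false⟩,
 nat_lit 0, nat_lit 7761, nat_lit 0, nat_lit 0, nat_lit 4108, nat_lit 0, nat_lit 0, nat_lit 0, nat_lit 0, nat_lit 0, nat_lit 0, nat_lit 0, nat_lit 0, nat_lit 0, nat_lit 147, nat_lit 1000000, nat_lit 0, nat_lit 0, [(nat_lit 6, [(nat_lit 6, nat_lit 1000)])],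
 ⟨p042_k0, nat_lit 0, nat_lit 0, nat_lit 199, nat_lit 0, nat_lit 158261, [nat_lit 3329066667, nat_lit 3042400001, nat_lit 177599999], [], [nat_lit 13906535895, nat_lit 15021722448, nat_lit 14149012716, nat_lit 14025408136, nat_lit 15497656500, nat_lit 16523010160, nat_lit 14468923212, nat_lit 15392650940], nat_lit 1271250, nat_lit 1271250, nat_lit 21650, nat_lit 780000, nat_lit 1271250, nat_lit 1271250, [nat_lit 1100000, nat_lit 1442500, nat_lit 1271250], [nat_lit 11, nat_lit 40, nat_lit 40, nat_lit 80, nat_lit 1, nat_lit 401, nat_lit 175, nat_lit 11]⟩, ⟨p042_k13, nat_lit 0, nat_lit 0, nat_lit 502, nat_lit 0, nat_lit 206981, [nat_lit 0, nat_lit 0, nat_lit 0], [], [nat_lit 0, nat_lit 0, nat_lit 0, nat_lit 0, nat_lit 0, nat_lit 0, nat_lit 0, nat_lit 0], nat_lit 1271250, nat_lit 1271250, nat_lit 21650, nat_lit 780000, nat_lit 0, nat_lit 2542500, [nat_lit 1412500, nat_lit 1271250, nat_lit 1271250], [nat_lit 53,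 nat_lit 40, nat_lit 40, nat_lit 80, nat_lit 14, nat_lit 428, nat_lit 200, nat_lit 12]⟩,
 ⟨nat_lit 5916, nat_lit 6325, ⟨.ofNat (nat_lit 96904), .ofNat (nat_lit 335470), .ofNat (nat_lit 139640), .ofNat (nat_lit 378206), .ofNat (nat_lit 115184), .ofNat (nat_lit 342931), .ofNat (nat_lit 157863), .ofNat (nat_lit 385610)⟩, ⟨.ofNat (nat_lit 329055), .ofNat (nat_lit 411320), .ofNat (nat_lit 371791), .ofNat (nat_lit 454055), .ofNat (nat_lit 329284), .ofNat (nat_lit 407818), .ofNat (nat_lit 371963), .ofNat (nat_lit 450496)⟩⟩, [⟨nat_lit 0, nat_lit 100, nat_lit 97, nat_lit 49, nat_lit 157760040⟩]⟩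
noncomputable def p042_l145 : Lf2 := ⟨nat_lit 0, nat_lit 8, [nat_lit 50, nat_lit 5, nat_lit 5, nat_lit 20], false, nat_lit 200, nat_lit 240, nat_lit 0, nat_lit 360, ⟨nat_lit 0, nat_lit 0, nat_lit 1000, nat_lit 5, nat_lit 104, nat_lit 1000, nat_lit 156, nat_lit 1000, nat_lit 228150, nat_lit 332, nat_lit 101400, nat_lit 293, nat_lit 53133799, nat_lit 0, nat_lit 0, nat_lit 3424676, false, false⟩,
 nat_lit 0, nat_lit 6746, nat_lit 0, nat_lit 0, nat_lit 3926, nat_lit 0, nat_lit 278, nat_lit 0, nat_lit 0, nat_lit 0, nat_lit 0, nat_lit 0, nat_lit 0, nat_lit 0, nat_lit 192, nat_lit 1000000, nat_lit 0, nat_lit 0, [(nat_lit 9, [(nat_lit 6, nat_lit 1000)])],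
 ⟨p042_k20, nat_lit 0, nat_lit 0, nat_lit 291, nat_lit 0, nat_lit 264708, [nat_lit 4169600001, nat_lit 3411333334, nat_lit 231866666], [], [nat_lit 15417726467, nat_lit 16340380054, nat_lit 14836249752, nat_lit 15665964718, nat_lit 16684165738, nat_lit 17655961009, nat_lit 15982869974, nat_lit 16772145410], nat_lit 1271250, nat_lit 1271250, nat_lit 43600, nat_lit 780000, nat_lit 1271250, nat_lit 1271250, [nat_lit 1100000, nat_lit 1442500, nat_lit 1271250], [nat_lit 11, nat_lit 40, nat_lit 40, nat_lit 80, nat_lit 1, nat_lit 401, nat_lit 175, nat_lit 11]⟩, ⟨p042_k13, nat_lit 0, nat_lit 0, nat_lit 566, nat_lit 0, nat_lit 389360, [nat_lit 0, nat_lit 0, nat_lit 0], [], [nat_lit 0, nat_lit 0, nat_lit 0, nat_lit 0, nat_lit 0, nat_lit 0, nat_lit 0, nat_lit 0], nat_lit 1271250, nat_lit 1271250, nat_lit 43600, nat_lit 780000, nat_lit 0, nat_lit 2542500, [nat_lit 1412500, nat_lit 1271250, nat_lit 1271250], [nat_lit 53,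 nat_lit 40, nat_lit 40, nat_lit 80, nat_lit 14, nat_lit 428, nat_lit 200, nat_lit 12]⟩,
 ⟨nat_lit 5477, nat_lit 5917, ⟨.ofNat (nat_lit 123037), .ofNat (nat_lit 342931), .ofNat (nat_lit 165716), .ofNat (nat_lit 385610), .ofNat (nat_lit 140320), .ofNat (nat_lit 350132), .ofNat (nat_lit 183034), .ofNat (nat_lit 392847)⟩, ⟨.ofNat (nat_lit 329284), .ofNat (nat_lit 407818), .ofNat (nat_lit 371963), .ofNat (nat_lit 450496), .ofNat (nat_lit 329142), .ofNat (nat_lit 404075), .ofNat (nat_lit 371856), .ofNat (nat_lit 446789)⟩⟩, [⟨nat_lit 0, nat_lit 100, nat_lit 94, nat_lit 59, nat_lit 144993696⟩]⟩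
noncomputable def p042_l146 : Lf2 := ⟨nat_lit 0, nat_lit 8, [nat_lit 50, nat_lit 5, nat_lit 5, nat_lit 20], false, nat_lit 160, nat_lit 240, nat_lit 0, nat_lit 360, ⟨nat_lit 0, nat_lit 0, nat_lit 1000, nat_lit 5, nat_lit 160, nat_lit 1000, nat_lit 140, nat_lit 1000, nat_lit 183750, nat_lit 320, nat_lit 121179, nat_lit 300, nat_lit 50058053, nat_lit 0, nat_lit 0, nat_lit 3956407, false, false⟩,
 nat_lit 0, nat_lit 8184, nat_lit 0, nat_lit 0, nat_lit 4332, nat_lit 0, nat_lit 0, nat_lit 0, nat_lit 0, nat_lit 0, nat_lit 0, nat_lit 0, nat_lit 0, nat_lit 0, nat_lit 147, nat_lit 1000000, nat_lit 0, nat_lit 0, [(nat_lit 6, [(nat_lit 6, nat_lit 1000)])],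
 ⟨p042_k0, nat_lit 0, nat_lit 0, nat_lit 142, nat_lit 0, nat_lit 158261, [nat_lit 3329066667, nat_lit 3042400001, nat_lit 177599999], [], [nat_lit 9307348571, nat_lit 10731574027, nat_lit 10405090603, nat_lit 11741221371, nat_lit 13058519515, nat_lit 14262699955, nat_lit 13920173835, nat_lit 15090092480], nat_lit 1271250, nat_lit 1271250, nat_lit 780000, nat_lit 1100001, nat_lit 1100001, nat_lit 1785000, [nat_lit 1100000, nat_lit 1442500, nat_lit 1271250], [nat_lit 11, nat_lit 40, nat_lit 40, nat_lit 80, nat_lit 1, nat_lit 401, nat_lit 175, nat_lit 11]⟩, ⟨p042_k13, nat_lit 0, nat_lit 0, nat_lit 357, nat_lit 0, nat_lit 206981, [nat_lit 0, nat_lit 0, nat_lit 0], [], [nat_lit 0, nat_lit 0, nat_lit 0, nat_lit 0, nat_lit 0, nat_lit 0, nat_lit 0, nat_lit 0], nat_lit 1271250, nat_lit 1271250, nat_lit 780000, nat_lit 1100001, nat_lit 0, nat_lit 2542500, [nat_lit 1412500, nat_lit 1271250, nat_lit 1271250], [nat_lit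 53, nat_lit 40, nat_lit 40, nat_lit 80, nat_lit 14, nat_lit 428, nat_lit 200, nat_lit 11]⟩,
 ⟨nat_lit 5916, nat_lit 6325, ⟨.ofNat (nat_lit 335470), .ofNat (nat_lit 417734), .ofNat (nat_lit 378206), .ofNat (nat_lit 460470), .ofNat (nat_lit 342931), .ofNat (nat_lit 421465), .ofNat (nat_lit 385610), .ofNat (nat_lit 464143)⟩, ⟨.ofNat (nat_lit 246791), .ofNat (nat_lit 411320), .ofNat (nat_lit 289527), .ofNat (nat_lit 454055), .ofNat (nat_lit 250751), .ofNat (nat_lit 407818), .ofNat (nat_lit 293429), .ofNat (nat_lit 450496)⟩⟩, []⟩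
noncomputable def p042_l147 : Lf2 := ⟨nat_lit 0, nat_lit 8, [nat_lit 50, nat_lit 5, nat_lit 5, nat_lit 20], false, nat_lit 160, nat_lit 240, nat_lit 0, nat_lit 360, ⟨nat_lit 0, nat_lit 0, nat_lit 1000, nat_lit 5, nat_lit 162, nat_lit 1000, nat_lit 140, nat_lit 1000, nat_lit 183750, nat_lit 320, nat_lit 104024, nat_lit 294, nat_lit 49873103, nat_lit 0, nat_lit 0, nat_lit 3981324, false, false⟩,
 nat_lit 0, nat_lit 10737, nat_lit 0, nat_lit 0, nat_lit 6249, nat_lit 0, nat_lit 799, nat_lit 0, nat_lit 0, nat_lit 0, nat_lit 0, nat_lit 0, nat_lit 0, nat_lit 0, nat_lit 192, nat_lit 1000000, nat_lit 0, nat_lit 0, [(nat_lit 9, [(nat_lit 6, nat_lit 1000)])],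
 ⟨p042_k20, nat_lit 0, nat_lit 0, nat_lit 161, nat_lit 0, nat_lit 264708, [nat_lit 4169600001, nat_lit 3411333334, nat_lit 231866666], [], [nat_lit 8980000698, nat_lit 11067326204, nat_lit 10054664078, nat_lit 12005045200, nat_lit 14348691770, nat_lit 15420406928, nat_lit 17615615312, nat_lit 16071640564], nat_lit 1271250, nat_lit 1271250, nat_lit 780000, nat_lit 1100001, nat_lit 1100001, nat_lit 1785000, [nat_lit 1100000, nat_lit 1442500, nat_lit 1271250], [nat_lit 11, nat_lit 40, nat_lit 40, nat_lit 80, nat_lit 1, nat_lit 401, nat_lit 175, nat_lit 11]⟩, ⟨p042_k13, nat_lit 0, nat_lit 0, nat_lit 485, nat_lit 0, nat_lit 389360, [nat_lit 0, nat_lit 0, nat_lit 0], [], [nat_lit 0, nat_lit 0, nat_lit 0, nat_lit 0, nat_lit 0, nat_lit 0, nat_lit 0, nat_lit 0], nat_lit 1271250, nat_lit 1271250, nat_lit 780000, nat_lit 1100001, nat_lit 0, nat_lit 2542500, [nat_lit 1412500, nat_lit 1271250, nat_lit 1271250], [nat_lit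 53, nat_lit 40, nat_lit 40, nat_lit 80, nat_lit 14, nat_lit 428, nat_lit 200, nat_lit 11]⟩,
 ⟨nat_lit 5477, nat_lit 5917, ⟨.ofNat (nat_lit 342931), .ofNat (nat_lit 421465), .ofNat (nat_lit 385610), .ofNat (nat_lit 464143), .ofNat (nat_lit 350132), .ofNat (nat_lit 425065), .ofNat (nat_lit 392847), .ofNat (nat_lit 467780)⟩, ⟨.ofNat (nat_lit 250751), .ofNat (nat_lit 407818), .ofNat (nat_lit 293429), .ofNat (nat_lit 450496), .ofNat (nat_lit 254209), .ofNat (nat_lit 404075), .ofNat (nat_lit 296923), .ofNat (nat_lit 446789)⟩⟩, []⟩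
noncomputable def p042_l148 : Lf2 := ⟨nat_lit 0, nat_lit 8, [nat_lit 50, nat_lit 5, nat_lit 5, nat_lit 20], false, nat_lit 160, nat_lit 240, nat_lit 0, nat_lit 160, ⟨nat_lit 1000, nat_lit 0, nat_lit 0, nat_lit 0, nat_lit 0, nat_lit 0, nat_lit 0, nat_lit 0, nat_lit 0, nat_lit 0, nat_lit 0, nat_lit 0, nat_lit 0, nat_lit 0, nat_lit 0, nat_lit 0, false, false⟩,
 nat_lit 14793, nat_lit 0, nat_lit 0, nat_lit 6839, nat_lit 7083, nat_lit 6339, nat_lit 802, nat_lit 0, nat_lit 0, nat_lit 2113, nat_lit 0, nat_lit 0, nat_lit 0, nat_lit 0, nat_lit 0, nat_lit 0, nat_lit 0, nat_lit 0, [],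
 ⟨p042_k0, nat_lit 0, nat_lit 0, nat_lit 164, nat_lit 0, nat_lit 297711, [nat_lit 4688000000, nat_lit 6250000000, nat_lit 9842000000], [], [nat_lit 35481370720, nat_lit 27991268212, nat_lit 25185704816, nat_lit 24711867328, nat_lit 25185704816, nat_lit 24711867328, nat_lit 33704748848, nat_lit 27029644652], nat_lit 1271250, nat_lit 1271250, nat_lit 1100001, nat_lit 1785000, nat_lit 1100001, nat_lit 1785000, [nat_lit 1100000, nat_lit 1442500, nat_lit 1271250], [nat_lit 11, nat_lit 40, nat_lit 40, nat_lit 80, nat_lit 1, nat_lit 428, nat_lit 200, nat_lit 12]⟩, ⟨p042_k13, nat_lit 0, nat_lit 0, nat_lit 420, nat_lit 0, nat_lit 389360, [nat_lit 6250000000, nat_lit 7968000000, nat_lit 11872000000], [], [nat_lit 35456293396, nat_lit 34318251557, nat_lit 34813705525, nat_lit 35649580645, nat_lit 33584404000, nat_lit 31057431500, nat_lit 41324831404, nat_lit 35268702940], nat_lit 1271250, nat_lit 1271250, nat_lit 1100001,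 nat_lit 1785000, nat_lit 0, nat_lit 1100001, [nat_lit 1412500, nat_lit 1271250, nat_lit 1271250], [nat_lit 53, nat_lit 40, nat_lit 40, nat_lit 80, nat_lit 14, nat_lit 401, nat_lit 175, nat_lit 10]⟩,
 zbF0, []⟩
noncomputable def p042_l149 : Lf2 := ⟨nat_lit 0, nat_lit 8, [nat_lit 50, nat_lit 5, nat_lit 5, nat_lit 20], false, nat_lit 160, nat_lit 240, nat_lit 160, nat_lit 240, ⟨nat_lit 1000, nat_lit 0, nat_lit 0, nat_lit 0, nat_lit 0, nat_lit 0, nat_lit 0, nat_lit 0, nat_lit 0, nat_lit 0, nat_lit 0, nat_lit 0, nat_lit 0, nat_lit 0, nat_lit 0, nat_lit 0, false, false⟩,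
 nat_lit 12611, nat_lit 0, nat_lit 0, nat_lit 11822, nat_lit 6127, nat_lit 5404, nat_lit 1521, nat_lit 0, nat_lit 0, nat_lit 2233, nat_lit 0, nat_lit 0, nat_lit 0, nat_lit 0, nat_lit 0, nat_lit 0, nat_lit 0, nat_lit 0, [],
 ⟨p042_k0, nat_lit 0, nat_lit 0, nat_lit 164, nat_lit 0, nat_lit 297711, [nat_lit 4688000000, nat_lit 6250000000, nat_lit 9842000000], [], [nat_lit 34024579680, nat_lit 27545424228, nat_lit 26224349104, nat_lit 24265883782, nat_lit 26224349104, nat_lit 24265883782, nat_lit 33963388912, nat_lit 28189230588], nat_lit 1271250, nat_lit 1271250, nat_lit 1100001, nat_lit 1785000, nat_lit 1100001, nat_lit 1785000, [nat_lit 1100000, nat_lit 1442500, nat_lit 1271250], [nat_lit 11, nat_lit 40, nat_lit 40, nat_lit 80, nat_lit 1, nat_lit 428, nat_lit 200, nat_lit 12]⟩, ⟨p042_k13, nat_lit 0, nat_lit 0, nat_lit 241, nat_lit 0, nat_lit 389360, [nat_lit 6250000000, nat_lit 7968000000, nat_lit 11872000000],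 [], [nat_lit 34484843360, nat_lit 28770243056, nat_lit 26710377829, nat_lit 27742630277, nat_lit 26710377829, nat_lit 27742630277, nat_lit 31952787856, nat_lit 29656581104], nat_lit 1271250, nat_lit 1271250, nat_lit 1100001, nat_lit 1785000, nat_lit 1100001, nat_lit 1785000, [nat_lit 1412500, nat_lit 1271250, nat_lit 1271250], [nat_lit 53, nat_lit 40, nat_lit 40, nat_lit 80, nat_lit 14, nat_lit 428, nat_lit 200, nat_lit 11]⟩,
 zbF0, []⟩
noncomputable def p042_l150 : Lf2 := ⟨nat_lit 0, nat_lit 8, [nat_lit 50, nat_lit 5, nat_lit 5, nat_lit 20], false, nat_lit 160, nat_lit 240, nat_lit 240, nat_lit 360, ⟨nat_lit 1000, nat_lit 0, nat_lit 0, nat_lit 0, nat_lit 0, nat_lit 0, nat_lit 0, nat_lit 0, nat_lit 0, nat_lit 0, nat_lit 0, nat_lit 0, nat_lit 0, nat_lit 0, nat_lit 0, nat_lit 0, false, false⟩,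
 nat_lit 24043, nat_lit 0, nat_lit 0, nat_lit 0, nat_lit 5975, nat_lit 10304, nat_lit 1635, nat_lit 0, nat_lit 0, nat_lit 2409, nat_lit 0, nat_lit 0, nat_lit 0, nat_lit 0, nat_lit 0, nat_lit 0, nat_lit 0, nat_lit 0, [],
 ⟨p042_k0, nat_lit 0, nat_lit 0, nat_lit 164, nat_lit 0, nat_lit 297711, [nat_lit 4688000000, nat_lit 6250000000, nat_lit 9842000000], [], [nat_lit 33792956000, nat_lit 27474536900, nat_lit 26389489200, nat_lit 24195989850, nat_lit 26389489200, nat_lit 24195989850, nat_lit 34004511600, nat_lit 28373599900], nat_lit 1271250, nat_lit 1271250, nat_lit 1100001, nat_lit 1785000, nat_lit 1100001, nat_lit 1785000, [nat_lit 1100000, nat_lit 1442500, nat_lit 1271250], [nat_lit 11, nat_lit 40, nat_lit 40, nat_lit 80, nat_lit 1, nat_lit 428, nat_lit 200, nat_lit 12]⟩, ⟨p042_k13, nat_lit 0, nat_lit 0, nat_lit 276, nat_lit 0, nat_lit 389360, [nat_lit 6250000000, nat_lit 7968000000, nat_lit 11872000000],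 [], [nat_lit 20323233632, nat_lit 18626089749, nat_lit 19182164533, nat_lit 20387765877, nat_lit 26076532981, nat_lit 26808787856, nat_lit 27061378704, nat_lit 28339601040], nat_lit 1271250, nat_lit 1271250, nat_lit 1100001, nat_lit 1785000, nat_lit 1271250, nat_lit 1271250, [nat_lit 1412500, nat_lit 1271250, nat_lit 1271250], [nat_lit 53, nat_lit 40, nat_lit 40, nat_lit 80, nat_lit 14, nat_lit 456, nat_lit 225, nat_lit 11]⟩,
 zbF0, [⟨nat_lit 7, nat_lit 77, nat_lit 100, nat_lit 72, nat_lit 806982029⟩]⟩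
noncomputable def b_V_600_500_10_13 : St := ⟨true, nat_lit 1, nat_lit 1, nat_lit 1, nat_lit 80, nat_lit 240, nat_lit 280, nat_lit 200, nat_lit 240, nat_lit 4, nat_lit 240, nat_lit 40, nat_lit 80, nat_lit 160, nat_lit 240, nat_lit 0, nat_lit 360, nat_lit 0, nat_lit 32, nat_lit 0, nat_lit 0, nat_lit 0, nat_lit 0⟩
theorem d_V_600_500_10_13 (h : EB TB.env) : Dead b_V_600_500_10_13 := chkB_sound0 h (T :=
(.spl (nat_lit 2) (nat_lit 160)
(.spl (nat_lit 2) (nat_lit 120)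
(.spl (nat_lit 4) (nat_lit 200)
(.spl (nat_lit 0) (nat_lit 260)
(.spl (nat_lit 6) (nat_lit 16)
(.spl (nat_lit 0) (nat_lit 250)
(.leaf p042_l139)
(.leaf p042_l140))
(.leaf p042_l141))
(.trZ (nat_lit 0) (nat_lit 100) (nat_lit 95) (nat_lit 30) (nat_lit 8) (.spl (nat_lit 0) (nat_lit 270)
(.leaf p042_l142)
(.trZ (nat_lit 0) (nat_lit 100) (nat_lit 94) (nat_lit 35) (nat_lit 12) (.leaf p042_l143)))))
(.spl (nat_lit 0) (nat_lit 260)
(.leaf p042_l144)
(.trZ (nat_lit 0) (nat_lit 100) (nat_lit 95) (nat_lit 30) (nat_lit 8) (.leaf p042_l145))))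
(.spl (nat_lit 0) (nat_lit 260)
(.leaf p042_l146)
(.leaf p042_l147)))
(.spl (nat_lit 5) (nat_lit 160)
(.leaf p042_l148)
(.spl (nat_lit 5) (nat_lit 240)
(.leaf p042_l149)
(.leaf p042_l150))))) (by decide +kernel)

end B2
end Pool.Agent.Lib.MP_6947cd_al
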