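import Pool.Agent.Lib.MP_6947cd_al.ZB.Pre

/-!
Problem MP_6947cd_al (Chollet).  Case B, second entry in [2/5, 17/20]: certificates of the tree, part P043 (generated).
-/

set_option autoImplicit false
set_option linter.all false

namespace Pool.Agent.Lib.MP_6947cd_al
namespace B2

open Ent Fr B1 PkA

noncomputable def p043_k0 : C1.Kn := ⟨[nat_lit 80, nat_lit 100, nat_lit 120], [nat_lit 0, nat_lit 0, nat_lit 511], [(nat_lit 0, nat_lit 0, nat_lit 0), (nat_lit 0, nat_lit 0, nat_lit 0), (nat_lit 1000, nat_lit 997, nat_lit 383)], (nat_lit 100, nat_lit 100, nat_lit 40)⟩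
noncomputable def p043_k1 : C1.Kn := ⟨[nat_lit 80, nat_lit 120], [nat_lit 0, nat_lit 0], [(nat_lit 0, nat_lit 0, nat_lit 0), (nat_lit 0, nat_lit 0, nat_lit 0)], (nat_lit 100, nat_lit 100, nat_lit 40)⟩
noncomputable def p043_k2 : C1.Kn := ⟨[nat_lit 80, nat_lit 100, nat_lit 120], [nat_lit 0, nat_lit 0, nat_lit 511], [(nat_lit 0, nat_lit 0, nat_lit 0), (nat_lit 0, nat_lit 0, nat_lit 0), (nat_lit 1000, nat_lit 997, nat_lit 383)], (nat_lit 98, nat_lit 100, nat_lit 28)⟩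
noncomputable def p043_k3 : C1.Kn := ⟨[nat_lit 100, nat_lit 120], [nat_lit 0, nat_lit 383], [(nat_lit 0, nat_lit 0, nat_lit 0), (nat_lit 1000, nat_lit 1000, nat_lit 299)], (nat_lit 100, nat_lit 100, nat_lit 28)⟩
noncomputable def p043_k4 : C1.Kn := ⟨[nat_lit 80, nat_lit 100, nat_lit 120], [nat_lit 0, nat_lit 132, nat_lit 640], [(nat_lit 0, nat_lit 0, nat_lit 0), (nat_lit 1000, nat_lit 979, nat_lit 103), (nat_lit 1000, nat_lit 979, nat_lit 397)], (nat_lit 97, nat_lit 100, nat_lit 28)⟩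
noncomputable def p043_k5 : C1.Kn := ⟨[nat_lit 100, nat_lit 120], [nat_lit 0, nat_lit 254], [(nat_lit 0, nat_lit 0, nat_lit 0), (nat_lit 1000, nat_lit 1000, nat_lit 198)], (nat_lit 100, nat_lit 99, nat_lit 28)⟩
noncomputable def p043_k6 : C1.Kn := ⟨[nat_lit 80, nat_lit 120], [nat_lit 0, nat_lit 264], [(nat_lit 0, nat_lit 0, nat_lit 0), (nat_lit 1000, nat_lit 979, nat_lit 103)], (nat_lit 98, nat_lit 100, nat_lit 40)⟩
noncomputable def p043_k7 : C1.Kn := ⟨[nat_lit 80, nat_lit 100], [nat_lit 0, nat_lit 132], [(nat_lit 0, nat_lit 0, nat_lit 0), (nat_lit 1000, nat_lit 979, nat_lit 103)], (nat_lit 97, nat_lit 100, nat_lit 20)⟩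
noncomputable def p043_k8 : C1.Kn := ⟨[nat_lit 100, nat_lit 120], [nat_lit 0, nat_lit 0], [(nat_lit 0, nat_lit 0, nat_lit 0), (nat_lit 0, nat_lit 0, nat_lit 0)], (nat_lit 100, nat_lit 98, nat_lit 20)⟩
noncomputable def p043_k9 : C1.Kn := ⟨[nat_lit 100, nat_lit 120, nat_lit 140], [nat_lit 0, nat_lit 0, nat_lit 533], [(nat_lit 0, nat_lit 0, nat_lit 0), (nat_lit 0, nat_lit 0, nat_lit 0), (nat_lit 924, nat_lit 1000, nat_lit 383)], (nat_lit 100, nat_lit 92, nat_lit 39)⟩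
noncomputable def p043_k10 : C1.Kn := ⟨[nat_lit 80, nat_lit 100, nat_lit 120], [nat_lit 0, nat_lit 265, nat_lit 768], [(nat_lit 0, nat_lit 0, nat_lit 0), (nat_lit 1000, nat_lit 959, nat_lit 206), (nat_lit 1000, nat_lit 958, nat_lit 392)], (nat_lit 96, nat_lit 100, nat_lit 44)⟩
noncomputable def p043_k11 : C1.Kn := ⟨[nat_lit 100, nat_lit 120, nat_lit 160], [nat_lit 0, nat_lit 0, nat_lit 1063], [(nat_lit 0, nat_lit 0, nat_lit 0), (nat_lit 0, nat_lit 0, nat_lit 0), (nat_lit 924, nat_lit 1000, nat_lit 383)], (nat_lit 100, nat_lit 90, nat_lit 44)⟩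
noncomputable def p043_k12 : C1.Kn := ⟨[nat_lit 80, nat_lit 100], [nat_lit 0, nat_lit 265], [(nat_lit 0, nat_lit 0, nat_lit 0), (nat_lit 1000, nat_lit 959, nat_lit 206)], (nat_lit 95, nat_lit 100, nat_lit 28)⟩
noncomputable def p043_k13 : C1.Kn := ⟨[nat_lit 80, nat_lit 100], [nat_lit 0, nat_lit 265], [(nat_lit 0, nat_lit 0, nat_lit 0), (nat_lit 1000, nat_lit 959, nat_lit 206)], (nat_lit 96, nat_lit 100, nat_lit 20)⟩
noncomputable def p043_k14 : C1.Kn := ⟨[nat_lit 100, nat_lit 120], [nat_lit 0, nat_lit 448], [(nat_lit 0, nat_lit 0, nat_lit 0), (nat_lit 1000, nat_lit 1000, nat_lit 350)], (nat_lit 98, nat_lit 100, nat_lit 20)⟩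
noncomputable def p043_k15 : C1.Kn := ⟨[nat_lit 80, nat_lit 100], [nat_lit 0, nat_lit 305], [(nat_lit 0, nat_lit 0, nat_lit 0), (nat_lit 1000, nat_lit 952, nat_lit 237)], (nat_lit 96, nat_lit 100, nat_lit 20)⟩
noncomputable def p043_k16 : C1.Kn := ⟨[nat_lit 80, nat_lit 100], [nat_lit 0, nat_lit 332], [(nat_lit 0, nat_lit 0, nat_lit 0), (nat_lit 1000, nat_lit 948, nat_lit 259)], (nat_lit 95, nat_lit 100, nat_lit 20)⟩
noncomputable def p043_k17 : C1.Kn := ⟨[nat_lit 80, nat_lit 100], [nat_lit 0, nat_lit 399], [(nat_lit 0, nat_lit 0, nat_lit 0), (nat_lit 1000, nat_lit 938, nat_lit 310)], (nat_lit 94, nat_lit 100, nat_lit 28)⟩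
noncomputable def p043_k18 : C1.Kn := ⟨[nat_lit 80, nat_lit 120], [nat_lit 0, nat_lit 528], [(nat_lit 0, nat_lit 0, nat_lit 0), (nat_lit 1000, nat_lit 959, nat_lit 206)], (nat_lit 96, nat_lit 100, nat_lit 44)⟩
noncomputable def p043_k19 : C1.Kn := ⟨[nat_lit 100, nat_lit 120, nat_lit 140], [nat_lit 0, nat_lit 254, nat_lit 778], [(nat_lit 0, nat_lit 0, nat_lit 0), (nat_lit 1000, nat_lit 1000, nat_lit 198), (nat_lit 960, nat_lit 1000, nat_lit 392)], (nat_lit 100, nat_lit 94, nat_lit 44)⟩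
noncomputable def p043_k20 : C1.Kn := ⟨[nat_lit 80, nat_lit 100, nat_lit 140], [nat_lit 0, nat_lit 265, nat_lit 1269], [(nat_lit 0, nat_lit 0, nat_lit 0), (nat_lit 1000, nat_lit 959, nat_lit 206), (nat_lit 1000, nat_lit 958, nat_lit 392)], (nat_lit 99, nat_lit 100, nat_lit 56)⟩
noncomputable def p043_k21 : C1.Kn := ⟨[nat_lit 80, nat_lit 120], [nat_lit 0, nat_lit 528], [(nat_lit 0, nat_lit 0, nat_lit 0), (nat_lit 1000, nat_lit 959, nat_lit 206)], (nat_lit 96, nat_lit 100, nat_lit 39)⟩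
noncomputable def p043_k22 : C1.Kn := ⟨[nat_lit 80, nat_lit 100, nat_lit 120], [nat_lit 0, nat_lit 265, nat_lit 768], [(nat_lit 0, nat_lit 0, nat_lit 0), (nat_lit 1000, nat_lit 959, nat_lit 206), (nat_lit 1000, nat_lit 958, nat_lit 392)], (nat_lit 96, nat_lit 100, nat_lit 39)⟩
noncomputable def p043_k23 : C1.Kn := ⟨[nat_lit 100, nat_lit 120, nat_lit 160], [nat_lit 0, nat_lit 0, nat_lit 1063], [(nat_lit 0, nat_lit 0, nat_lit 0), (nat_lit 0, nat_lit 0, nat_lit 0), (nat_lit 924, nat_lit 1000, nat_lit 383)], (nat_lit 100, nat_lit 84, nat_lit 54)⟩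
noncomputable def p043_k24 : C1.Kn := ⟨[nat_lit 80, nat_lit 100, nat_lit 140], [nat_lit 0, nat_lit 399, nat_lit 1395], [(nat_lit 0, nat_lit 0, nat_lit 0), (nat_lit 1000, nat_lit 938, nat_lit 310), (nat_lit 1000, nat_lit 938, nat_lit 389)], (nat_lit 96, nat_lit 100, nat_lit 56)⟩
noncomputable def p043_k25 : C1.Kn := ⟨[nat_lit 80, nat_lit 100, nat_lit 140], [nat_lit 0, nat_lit 0, nat_lit 1022], [(nat_lit 0, nat_lit 0, nat_lit 0), (nat_lit 0, nat_lit 0, nat_lit 0), (nat_lit 1000, nat_lit 1000, nat_lit 399)], (nat_lit 100, nat_lit 95, nat_lit 55)⟩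
noncomputable def p043_k26 : C1.Kn := ⟨[nat_lit 80, nat_lit 120], [nat_lit 0, nat_lit 0], [(nat_lit 0, nat_lit 0, nat_lit 0), (nat_lit 0, nat_lit 0, nat_lit 0)], (nat_lit 98, nat_lit 100, nat_lit 28)⟩
noncomputable def p043_k27 : C1.Kn := ⟨[nat_lit 100, nat_lit 120, nat_lit 140], [nat_lit 0, nat_lit 0, nat_lit 533], [(nat_lit 0, nat_lit 0, nat_lit 0), (nat_lit 0, nat_lit 0, nat_lit 0), (nat_lit 924, nat_lit 1000, nat_lit 383)], (nat_lit 100, nat_lit 96, nat_lit 28)⟩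
noncomputable def p043_k28 : C1.Kn := ⟨[nat_lit 80, nat_lit 140], [nat_lit 0, nat_lit 0], [(nat_lit 0, nat_lit 0, nat_lit 0), (nat_lit 0, nat_lit 0, nat_lit 0)], (nat_lit 100, nat_lit 98, nat_lit 48)⟩
noncomputable def p043_k29 : C1.Kn := ⟨[nat_lit 80, nat_lit 120, nat_lit 140], [nat_lit 0, nat_lit 264, nat_lit 1360], [(nat_lit 0, nat_lit 0, nat_lit 0), (nat_lit 1000, nat_lit 979, nat_lit 103), (nat_lit 951, nat_lit 1000, nat_lit 628)], (nat_lit 100, nat_lit 100, nat_lit 49)⟩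
noncomputable def p043_k30 : C1.Kn := ⟨[nat_lit 80, nat_lit 140], [nat_lit 0, nat_lit 792], [(nat_lit 0, nat_lit 0, nat_lit 0), (nat_lit 1000, nat_lit 959, nat_lit 206)], (nat_lit 100, nat_lit 99, nat_lit 63)⟩
noncomputable def p043_k31 : C1.Kn := ⟨[nat_lit 80, nat_lit 120, nat_lit 140], [nat_lit 0, nat_lit 528, nat_lit 1572], [(nat_lit 0, nat_lit 0, nat_lit 0), (nat_lit 1000, nat_lit 959, nat_lit 206), (nat_lit 966, nat_lit 1000, nat_lit 679)], (nat_lit 100, nat_lit 99, nat_lit 63)⟩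
noncomputable def p043_l0 : Lf2 := ⟨nat_lit 0, nat_lit 4, [nat_lit 38, nat_lit 5, nat_lit 5, nat_lit 20], true, nat_lit 240, nat_lit 312, nat_lit 0, nat_lit 288, ⟨nat_lit 0, nat_lit 0, nat_lit 1000, nat_lit 5, nat_lit 61, nat_lit 1000, nat_lit 197, nat_lit 1000, nat_lit 586, nat_lit 219, nat_lit 35267, nat_lit 261, nat_lit 51797679, nat_lit 0, nat_lit 0, nat_lit 3283033, false, false⟩,
 nat_lit 0, nat_lit 7547, nat_lit 0, nat_lit 6528, nat_lit 3995, nat_lit 0, nat_lit 1356, nat_lit 0, nat_lit 0, nat_lit 0, nat_lit 0, nat_lit 0, nat_lit 0, nat_lit 0, nat_lit 80, nat_lit 1000000, nat_lit 0, nat_lit 0, [(nat_lit 6, [(nat_lit 6, nat_lit 1000)])],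
 ⟨p043_k0, nat_lit 0, nat_lit 0, nat_lit 158, nat_lit 0, nat_lit 53600, [nat_lit 2257066667, nat_lit 1408000000, nat_lit 211200000], [], [nat_lit 15364399698, nat_lit 16431795691, nat_lit 14322199067, nat_lit 15318356697, nat_lit 20616531382, nat_lit 21809540598, nat_lit 18774196224, nat_lit 19961500615], nat_lit 1271250, nat_lit 1271250, nat_lit 21650, nat_lit 230001, nat_lit 1271250, nat_lit 1271250, [nat_lit 1100000, nat_lit 1442500, nat_lit 1271250], [nat_lit 9, nat_lit 40, nat_lit 40, nat_lit 80, nat_lit 2, nat_lit 215, nat_lit 10, nat_lit 7]⟩, C1.Rw.none,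
 ⟨nat_lit 5916, nat_lit 6325, ⟨.ofNat (nat_lit 96904), .ofNat (nat_lit 170942), .ofNat (nat_lit 118272), .ofNat (nat_lit 192309), .ofNat (nat_lit 115184), .ofNat (nat_lit 185864), .ofNat (nat_lit 136523), .ofNat (nat_lit 207203)⟩, ⟨.ofNat (nat_lit 411320), .ofNat (nat_lit 559386), .ofNat (nat_lit 432688), .ofNat (nat_lit 580747), .ofNat (nat_lit 407818), .ofNat (nat_lit 549169), .ofNat (nat_lit 429157), .ofNat (nat_lit 570502)⟩⟩, [⟨nat_lit 0, nat_lit 100, nat_lit 96, nat_lit 40, nat_lit 259653032⟩, ⟨nat_lit 4, nat_lit 92, nat_lit 100, nat_lit 68, nat_lit 543670381⟩]⟩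
noncomputable def p043_l1 : Lf2 := ⟨nat_lit 0, nat_lit 4, [nat_lit 38, nat_lit 5, nat_lit 5, nat_lit 20], true, nat_lit 240, nat_lit 280, nat_lit 0, nat_lit 288, ⟨nat_lit 0, nat_lit 0, nat_lit 1000, nat_lit 5, nat_lit 69, nat_lit 1000, nat_lit 184, nat_lit 1000, nat_lit 21600, nat_lit 251, nat_lit 45067, nat_lit 267, nat_lit 52655349, nat_lit 0, nat_lit 0, nat_lit 3259686, false, false⟩,
 nat_lit 0, nat_lit 7950, nat_lit 0, nat_lit 0, nat_lit 4208, nat_lit 0, nat_lit 0, nat_lit 0, nat_lit 0, nat_lit 0, nat_lit 0, nat_lit 0, nat_lit 0, nat_lit 0, nat_lit 48, nat_lit 506800, nat_lit 0, nat_lit 0, [(nat_lit 6, [(nat_lit 5, nat_lit 822), (nat_lit 6, nat_lit 178)])],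
 ⟨p043_k1, nat_lit 0, nat_lit 0, nat_lit 153, nat_lit 0, nat_lit 95001, [nat_lit 2206319201, nat_lit 7995200], [], [nat_lit 16061081877, nat_lit 17009142866, nat_lit 15041672417, nat_lit 15975699409, nat_lit 18097499878, nat_lit 19450959776, nat_lit 17064576306, nat_lit 18052995234], nat_lit 1271250, nat_lit 1271250, nat_lit 43600, nat_lit 230001, nat_lit 1271250, nat_lit 1271250, [nat_lit 1100000, nat_lit 1785000], [nat_lit 39, nat_lit 40, nat_lit 40, nat_lit 80, nat_lit 7, nat_lit 215, nat_lit 10, nat_lit 7]⟩, C1.Rw.none,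
 ⟨nat_lit 5916, nat_lit 6325, ⟨.ofNat (nat_lit 126498), .ofNat (nat_lit 192309), .ofNat (nat_lit 137182), .ofNat (nat_lit 202993), .ofNat (nat_lit 144377), .ofNat (nat_lit 207203), .ofNat (nat_lit 155046), .ofNat (nat_lit 217873)⟩, ⟨.ofNat (nat_lit 411320), .ofNat (nat_lit 493584), .ofNat (nat_lit 432688), .ofNat (nat_lit 514952), .ofNat (nat_lit 407818), .ofNat (nat_lit 486351), .ofNat (nat_lit 429157), .ofNat (nat_lit 507691)⟩⟩, [⟨nat_lit 0, nat_lit 100, nat_lit 98, nat_lit 37, nat_lit 276380714⟩, ⟨nat_lit 4, nat_lit 92, nat_lit 100, nat_lit 68, nat_lit 302780707⟩]⟩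
noncomputable def p043_l2 : Lf2 := ⟨nat_lit 0, nat_lit 2, [nat_lit 10, nat_lit 5, nat_lit 5, nat_lit 20], true, nat_lit 240, nat_lit 260, nat_lit 0, nat_lit 288, ⟨nat_lit 0, nat_lit 0, nat_lit 1000, nat_lit 5, nat_lit 75, nat_lit 1000, nat_lit 176, nat_lit 1000, nat_lit 84017, nat_lit 286, nat_lit 52267, nat_lit 271, nat_lit 53104876, nat_lit 0, nat_lit 0, nat_lit 3253198, false, false⟩,
 nat_lit 0, nat_lit 7277, nat_lit 0, nat_lit 0, nat_lit 3852, nat_lit 0, nat_lit 0, nat_lit 0, nat_lit 0, nat_lit 0, nat_lit 0, nat_lit 0, nat_lit 0, nat_lit 0, nat_lit 80, nat_lit 1000000, nat_lit 0, nat_lit 0, [(nat_lit 6, [(nat_lit 6, nat_lit 1000)])],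
 ⟨p043_k2, nat_lit 0, nat_lit 0, nat_lit 155, nat_lit 0, nat_lit 136225, [nat_lit 2257066667, nat_lit 1408000000, nat_lit 211200000], [], [nat_lit 15404700871, nat_lit 16344552306, nat_lit 14621375771, nat_lit 15563917155, nat_lit 16399465863, nat_lit 17403087763, nat_lit 15617401007, nat_lit 16612239348], nat_lit 1271250, nat_lit 1271250, nat_lit 65850, nat_lit 230001, nat_lit 1271250, nat_lit 1271250, [nat_lit 1100000, nat_lit 1442500, nat_lit 1271250], [nat_lit 9, nat_lit 40, nat_lit 40, nat_lit 80, nat_lit 2, nat_lit 215, nat_lit 10, nat_lit 7]⟩, C1.Rw.none,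
 ⟨nat_lit 5916, nat_lit 6325, ⟨.ofNat (nat_lit 145408), .ofNat (nat_lit 202993), .ofNat (nat_lit 156092), .ofNat (nat_lit 213677), .ofNat (nat_lit 162900), .ofNat (nat_lit 217873), .ofNat (nat_lit 173569), .ofNat (nat_lit 228543)⟩, ⟨.ofNat (nat_lit 411320), .ofNat (nat_lit 452452), .ofNat (nat_lit 432688), .ofNat (nat_lit 473820), .ofNat (nat_lit 407818), .ofNat (nat_lit 447085), .ofNat (nat_lit 429157), .ofNat (nat_lit 468424)⟩⟩, [⟨nat_lit 0, nat_lit 100, nat_lit 97, nat_lit 49, nat_lit 251099386⟩]⟩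
noncomputable def p043_l3 : Lf2 := ⟨nat_lit 0, nat_lit 2, [nat_lit 10, nat_lit 5, nat_lit 5, nat_lit 20], false, nat_lit 260, nat_lit 280, nat_lit 0, nat_lit 160, ⟨nat_lit 1000, nat_lit 0, nat_lit 0, nat_lit 0, nat_lit 0, nat_lit 0, nat_lit 0, nat_lit 0, nat_lit 0, nat_lit 0, nat_lit 0, nat_lit 0, nat_lit 0, nat_lit 0, nat_lit 0, nat_lit 0, false, false⟩,
 nat_lit 19693, nat_lit 0, nat_lit 0, nat_lit 9765, nat_lit 8970, nat_lit 9918, nat_lit 2471, nat_lit 0, nat_lit 0, nat_lit 3585, nat_lit 0, nat_lit 0, nat_lit 0, nat_lit 0, nat_lit 0, nat_lit 0, nat_lit 0, nat_lit 0, [],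
 ⟨p043_k2, nat_lit 0, nat_lit 0, nat_lit 141, nat_lit 0, nat_lit 80873, [nat_lit 4688000000, nat_lit 6250000000, nat_lit 7968000000], [], [nat_lit 20558015552, nat_lit 21327132040, nat_lit 17726882575, nat_lit 18488897198, nat_lit 22334332046, nat_lit 23136000386, nat_lit 19487708700, nat_lit 20281911620], nat_lit 1271250, nat_lit 1271250, nat_lit 65850, nat_lit 230001, nat_lit 1271250, nat_lit 1271250, [nat_lit 1100000, nat_lit 1442500, nat_lit 1271250], [nat_lit 9, nat_lit 40, nat_lit 40, nat_lit 80, nat_lit 2, nat_lit 215, nat_lit 10, nat_lit 7]⟩, ⟨p043_k3, nat_lit 0, nat_lit 0, nat_lit 275, nat_lit 0, nat_lit 85771, [nat_lit 6250000000, nat_lit 7968000000], [], [nat_lit 20744828260, nat_lit 21533791196, nat_lit 17613360541, nat_lit 18397683205, nat_lit 16797120128, nat_lit 15314041162, nat_lit 16815211222, nat_lit 14270956600], nat_lit 1271250, nat_lit 1271250, nat_lit 65850, nat_lit 230001, nat_lit 0,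 nat_lit 1100001, [nat_lit 1412500, nat_lit 1271250], [nat_lit 26, nat_lit 40, nat_lit 40, nat_lit 80, nat_lit 2, nat_lit 345, nat_lit 125, nat_lit 12]⟩,
 zbF0, [⟨nat_lit 0, nat_lit 100, nat_lit 99, nat_lit 40, nat_lit 1310273131⟩, ⟨nat_lit 4, nat_lit 90, nat_lit 100, nat_lit 68, nat_lit 834207960⟩]⟩
noncomputable def p043_l4 : Lf2 := ⟨nat_lit 0, nat_lit 2, [nat_lit 10, nat_lit 5, nat_lit 5, nat_lit 20], false, nat_lit 260, nat_lit 280, nat_lit 160, nat_lit 268, ⟨nat_lit 264, nat_lit 0, nat_lit 736, nat_lit 5, nat_lit 73, nat_lit 736, nat_lit 193, nat_lit 736, nat_lit 21600, nat_lit 251, nat_lit 50417, nat_lit 270, nat_lit 51560092, nat_lit 0, nat_lit 0, nat_lit 3417506, false, false⟩,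
 nat_lit 9341, nat_lit 0, nat_lit 0, nat_lit 0, nat_lit 4944, nat_lit 4704, nat_lit 650, nat_lit 0, nat_lit 0, nat_lit 334, nat_lit 0, nat_lit 0, nat_lit 0, nat_lit 0, nat_lit 0, nat_lit 736000, nat_lit 0, nat_lit 0, [(nat_lit 6, [(nat_lit 6, nat_lit 736)])],
 ⟨p043_k2, nat_lit 0, nat_lit 0, nat_lit 141, nat_lit 0, nat_lit 80873, [nat_lit 1956753067, nat_lit 1508688000, nat_lit 835579200], [], [nat_lit 17551663031, nat_lit 18076404227, nat_lit 16435418547, nat_lit 16953147723, nat_lit 18726017702, nat_lit 19267939260, nat_lit 17592482747, nat_lit 18082566971], nat_lit 1271250, nat_lit 1271250, nat_lit 65850, nat_lit 230001, nat_lit 1271250, nat_lit 1271250, [nat_lit 1100000, nat_lit 1442500, nat_lit 1271250], [nat_lit 9, nat_lit 40, nat_lit 40, nat_lit 80, nat_lit 2, nat_lit 215, nat_lit 10, nat_lit 7]⟩, ⟨p043_k3, nat_lit 0, nat_lit 0, nat_lit 195, nat_lit 0, nat_lit 85771, [nat_lit 1650000000, nat_lit 2103552000],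 [], [nat_lit 2607016937, nat_lit 2951975117, nat_lit 1186082496, nat_lit 1370878598, nat_lit 6859937396, nat_lit 7217958329, nat_lit 6859874727, nat_lit 5699371584], nat_lit 1271250, nat_lit 1271250, nat_lit 65850, nat_lit 230001, nat_lit 1100001, nat_lit 2024750, [nat_lit 1412500, nat_lit 1271250], [nat_lit 26, nat_lit 40, nat_lit 40, nat_lit 80, nat_lit 2, nat_lit 373, nat_lit 150, nat_lit 12]⟩,
 ⟨nat_lit 6123, nat_lit 6325, ⟨.ofNat (nat_lit 145408), .ofNat (nat_lit 202993), .ofNat (nat_lit 156092), .ofNat (nat_lit 213677), .ofNat (nat_lit 154231), .ofNat (nat_lit 210498), .ofNat (nat_lit 164905), .ofNat (nat_lit 221172)⟩, ⟨.ofNat (nat_lit 452452), .ofNat (nat_lit 493584), .ofNat (nat_lit 473820), .ofNat (nat_lit 514952), .ofNat (nat_lit 449785), .ofNat (nat_lit 489975), .ofNat (nat_lit 471133), .ofNat (nat_lit 511323)⟩⟩, [⟨nat_lit 0, nat_lit 100, nat_lit 99, nat_lit 45, nat_lit 122310039⟩, ⟨nat_lit 4,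 nat_lit 90, nat_lit 100, nat_lit 68, nat_lit 85637675⟩, ⟨nat_lit 11, nat_lit 100, nat_lit 94, nat_lit 42, nat_lit 642168439⟩]⟩
noncomputable def p043_l5 : Lf2 := ⟨nat_lit 0, nat_lit 2, [nat_lit 10, nat_lit 5, nat_lit 5, nat_lit 20], false, nat_lit 260, nat_lit 280, nat_lit 0, nat_lit 160, ⟨nat_lit 1000, nat_lit 0, nat_lit 0, nat_lit 0, nat_lit 0, nat_lit 0, nat_lit 0, nat_lit 0, nat_lit 0, nat_lit 0, nat_lit 0, nat_lit 0, nat_lit 0, nat_lit 0, nat_lit 0, nat_lit 0, false, false⟩,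
 nat_lit 14800, nat_lit 0, nat_lit 5944, nat_lit 3449, nat_lit 8222, nat_lit 10447, nat_lit 2380, nat_lit 0, nat_lit 0, nat_lit 2959, nat_lit 0, nat_lit 0, nat_lit 0, nat_lit 0, nat_lit 0, nat_lit 0, nat_lit 0, nat_lit 0, [],
 ⟨p043_k4, nat_lit 0, nat_lit 0, nat_lit 158, nat_lit 0, nat_lit 128747, [nat_lit 4688000000, nat_lit 6250000000, nat_lit 7968000000], [], [nat_lit 20316273555, nat_lit 21046318148, nat_lit 18113092664, nat_lit 18837330107, nat_lit 21947646978, nat_lit 22925161052, nat_lit 19731872812, nat_lit 20486030804], nat_lit 1271250, nat_lit 1271250, nat_lit 88400, nat_lit 230001, nat_lit 1271250, nat_lit 1271250, [nat_lit 1100000, nat_lit 1442500, nat_lit 1271250], [nat_lit 9, nat_lit 40, nat_lit 40, nat_lit 80, nat_lit 2, nat_lit 215, nat_lit 10, nat_lit 6]⟩, ⟨p043_k3, nat_lit 0, nat_lit 0, nat_lit 278, nat_lit 0, nat_lit 144476, [nat_lit 6250000000, nat_lit 7968000000], [], [nat_lit 20698321348,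 nat_lit 21511685408, nat_lit 17852813339, nat_lit 18662130195, nat_lit 15962561339, nat_lit 14866977247, nat_lit 15990092363, nat_lit 13310133900], nat_lit 1271250, nat_lit 1271250, nat_lit 88400, nat_lit 230001, nat_lit 0, nat_lit 1100001, [nat_lit 1412500, nat_lit 1271250], [nat_lit 26, nat_lit 40, nat_lit 40, nat_lit 80, nat_lit 2, nat_lit 345, nat_lit 125, nat_lit 12]⟩,
 zbF0, [⟨nat_lit 0, nat_lit 100, nat_lit 98, nat_lit 45, nat_lit 1318164299⟩, ⟨nat_lit 4, nat_lit 94, nat_lit 100, nat_lit 69, nat_lit 937654094⟩]⟩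
noncomputable def p043_l6 : Lf2 := ⟨nat_lit 0, nat_lit 2, [nat_lit 10, nat_lit 5, nat_lit 5, nat_lit 20], false, nat_lit 260, nat_lit 280, nat_lit 160, nat_lit 268, ⟨nat_lit 159, nat_lit 0, nat_lit 841, nat_lit 5, nat_lit 78, nat_lit 841, nat_lit 192, nat_lit 841, nat_lit 27511, nat_lit 254, nat_lit 58017, nat_lit 274, nat_lit 51411153, nat_lit 0, nat_lit 0, nat_lit 3473555, false, false⟩,
 nat_lit 5759, nat_lit 1933, nat_lit 0, nat_lit 0, nat_lit 4273, nat_lit 2900, nat_lit 609, nat_lit 0, nat_lit 0, nat_lit 200, nat_lit 0, nat_lit 0, nat_lit 0, nat_lit 0, nat_lit 15, nat_lit 841000, nat_lit 0, nat_lit 0, [(nat_lit 6, [(nat_lit 6, nat_lit 841)])],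
 ⟨p043_k4, nat_lit 0, nat_lit 0, nat_lit 158, nat_lit 0, nat_lit 128747, [nat_lit 1807105067, nat_lit 1132278001, nat_lit 183610199], [], [nat_lit 17536068631, nat_lit 18028856189, nat_lit 16749721120, nat_lit 17236933887, nat_lit 18606658261, nat_lit 19081733618, nat_lit 17807298411, nat_lit 18269790444], nat_lit 1271250, nat_lit 1271250, nat_lit 88400, nat_lit 230001, nat_lit 1271250, nat_lit 1271250, [nat_lit 1100000, nat_lit 1442500, nat_lit 1271250], [nat_lit 9, nat_lit 40, nat_lit 40, nat_lit 80, nat_lit 2, nat_lit 215, nat_lit 10, nat_lit 6]⟩, ⟨p043_k3, nat_lit 0, nat_lit 0, nat_lit 198, nat_lit 0, nat_lit 144476, [nat_lit 993750000, nat_lit 1266912000], [], [nat_lit 1386207982, nat_lit 1603109828, nat_lit 609982280, nat_lit 760671516, nat_lit 4084612721, nat_lit 4223385662, nat_lit 4093965784, nat_lit 3378519544], nat_lit 1271250, nat_lit 1271250, nat_lit 88400, nat_lit 230001, nat_lit 1100001, nat_lit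 2024750, [nat_lit 1412500, nat_lit 1271250], [nat_lit 26, nat_lit 40, nat_lit 40, nat_lit 80, nat_lit 2, nat_lit 373, nat_lit 150, nat_lit 12]⟩,
 ⟨nat_lit 5916, nat_lit 6124, ⟨.ofNat (nat_lit 162269), .ofNat (nat_lit 210498), .ofNat (nat_lit 172944), .ofNat (nat_lit 221172), .ofNat (nat_lit 170753), .ofNat (nat_lit 217873), .ofNat (nat_lit 181423), .ofNat (nat_lit 228543)⟩, ⟨.ofNat (nat_lit 449785), .ofNat (nat_lit 489975), .ofNat (nat_lit 471133), .ofNat (nat_lit 511323), .ofNat (nat_lit 447085), .ofNat (nat_lit 486351), .ofNat (nat_lit 468424), .ofNat (nat_lit 507691)⟩⟩, [⟨nat_lit 0, nat_lit 100, nat_lit 98, nat_lit 45, nat_lit 110483213⟩, ⟨nat_lit 0, nat_lit 100, nat_lit 97, nat_lit 49, nat_lit 71894616⟩, ⟨nat_lit 4, nat_lit 94, nat_lit 100, nat_lit 69, nat_lit 173949511⟩, ⟨nat_lit 11, nat_lit 100, nat_lit 94, nat_lit 42, nat_lit 393042606⟩]⟩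
noncomputable def p043_l7 : Lf2 := ⟨nat_lit 0, nat_lit 4, [nat_lit 38, nat_lit 5, nat_lit 5, nat_lit 20], true, nat_lit 240, nat_lit 280, nat_lit 0, nat_lit 288, ⟨nat_lit 0, nat_lit 0, nat_lit 1000, nat_lit 5, nat_lit 75, nat_lit 1000, nat_lit 184, nat_lit 1000, nat_lit 21600, nat_lit 251, nat_lit 52267, nat_lit 271, nat_lit 52322189, nat_lit 0, nat_lit 0, nat_lit 3345933, false, false⟩,
 nat_lit 0, nat_lit 7014, nat_lit 0, nat_lit 5766, nat_lit 3713, nat_lit 0, nat_lit 0, nat_lit 0, nat_lit 0, nat_lit 0, nat_lit 0, nat_lit 0, nat_lit 0, nat_lit 0, nat_lit 72, nat_lit 869800, nat_lit 0, nat_lit 0, [(nat_lit 6, [(nat_lit 5, nat_lit 217), (nat_lit 6, nat_lit 783)])],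
 ⟨p043_k0, nat_lit 0, nat_lit 0, nat_lit 146, nat_lit 0, nat_lit 40008, [nat_lit 2224662401, nat_lit 1296868400, nat_lit 200004400], [], [nat_lit 15875190652, nat_lit 16778713353, nat_lit 15134291077, nat_lit 16026231189, nat_lit 17785587892, nat_lit 18721601522, nat_lit 17018905091, nat_lit 17897751957], nat_lit 1271250, nat_lit 1271250, nat_lit 65850, nat_lit 230001, nat_lit 1271250, nat_lit 1271250, [nat_lit 1100000, nat_lit 1442500, nat_lit 1271250], [nat_lit 9, nat_lit 40, nat_lit 40, nat_lit 80, nat_lit 2, nat_lit 215, nat_lit 10, nat_lit 7]⟩, C1.Rw.none,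
 ⟨nat_lit 5916, nat_lit 6325, ⟨.ofNat (nat_lit 145408), .ofNat (nat_lit 202993), .ofNat (nat_lit 156092), .ofNat (nat_lit 213677), .ofNat (nat_lit 162900), .ofNat (nat_lit 217873), .ofNat (nat_lit 173569), .ofNat (nat_lit 228543)⟩, ⟨.ofNat (nat_lit 411320), .ofNat (nat_lit 493584), .ofNat (nat_lit 432688), .ofNat (nat_lit 514952), .ofNat (nat_lit 407818), .ofNat (nat_lit 486351), .ofNat (nat_lit 429157), .ofNat (nat_lit 507691)⟩⟩, [⟨nat_lit 0, nat_lit 100, nat_lit 97, nat_lit 49, nat_lit 257386222⟩, ⟨nat_lit 4, nat_lit 92, nat_lit 100, nat_lit 68, nat_lit 300547928⟩]⟩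
noncomputable def p043_l8 : Lf2 := ⟨nat_lit 0, nat_lit 2, [nat_lit 10, nat_lit 5, nat_lit 5, nat_lit 20], false, nat_lit 280, nat_lit 312, nat_lit 0, nat_lit 160, ⟨nat_lit 620, nat_lit 0, nat_lit 380, nat_lit 5, nat_lit 69, nat_lit 380, nat_lit 213, nat_lit 380, nat_lit 586, nat_lit 219, nat_lit 45067, nat_lit 267, nat_lit 49765105, nat_lit 0, nat_lit 0, nat_lit 3557500, false, false⟩,
 nat_lit 13607, nat_lit 0, nat_lit 0, nat_lit 16200, nat_lit 6666, nat_lit 6507, nat_lit 1532, nat_lit 0, nat_lit 0, nat_lit 3527, nat_lit 0, nat_lit 0, nat_lit 0, nat_lit 0, nat_lit 0, nat_lit 380000, nat_lit 0, nat_lit 0, [(nat_lit 6, [(nat_lit 6, nat_lit 380)])],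
 ⟨p043_k2, nat_lit 0, nat_lit 0, nat_lit 168, nat_lit 0, nat_lit 92287, [nat_lit 3277845334, nat_lit 3802040000, nat_lit 4266636000], [], [nat_lit 20798785408, nat_lit 22155089444, nat_lit 18492858460, nat_lit 19834570412, nat_lit 23801799136, nat_lit 25330642062, nat_lit 21084918861, nat_lit 22330029096], nat_lit 1271250, nat_lit 1271250, nat_lit 43600, nat_lit 230001, nat_lit 1271250, nat_lit 1271250, [nat_lit 1100000, nat_lit 1442500, nat_lit 1271250], [nat_lit 9, nat_lit 40, nat_lit 40, nat_lit 80, nat_lit 2, nat_lit 215, nat_lit 10, nat_lit 6]⟩, ⟨p043_k5, nat_lit 0, nat_lit 0, nat_lit 283, nat_lit 0, nat_lit 104075, [nat_lit 3875000000, nat_lit 4940160000], [], [nat_lit 13038777305, nat_lit 13541398395, nat_lit 11074633396, nat_lit 11443261279, nat_lit 11604333680, nat_lit 9915005861, nat_lit 11536516706, nat_lit 10003307235], nat_lit 1271250, nat_lit 1271250, nat_lit 43600, nat_lit 230001, nat_lit 0,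 nat_lit 1100001, [nat_lit 1412500, nat_lit 1271250], [nat_lit 26, nat_lit 40, nat_lit 40, nat_lit 80, nat_lit 2, nat_lit 345, nat_lit 125, nat_lit 12]⟩,
 ⟨nat_lit 5916, nat_lit 6325, ⟨.ofNat (nat_lit 126498), .ofNat (nat_lit 192309), .ofNat (nat_lit 137182), .ofNat (nat_lit 202993), .ofNat (nat_lit 144377), .ofNat (nat_lit 207203), .ofNat (nat_lit 155046), .ofNat (nat_lit 217873)⟩, ⟨.ofNat (nat_lit 493584), .ofNat (nat_lit 559386), .ofNat (nat_lit 514952), .ofNat (nat_lit 580747), .ofNat (nat_lit 486351), .ofNat (nat_lit 549169), .ofNat (nat_lit 507691), .ofNat (nat_lit 570502)⟩⟩, [⟨nat_lit 0, nat_lit 100, nat_lit 98, nat_lit 37, nat_lit 921578087⟩, ⟨nat_lit 4, nat_lit 92, nat_lit 100, nat_lit 68, nat_lit 1341801089⟩]⟩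
noncomputable def p043_l9 : Lf2 := ⟨nat_lit 0, nat_lit 2, [nat_lit 10, nat_lit 5, nat_lit 5, nat_lit 20], false, nat_lit 280, nat_lit 312, nat_lit 160, nat_lit 248, ⟨nat_lit 83, nat_lit 0, nat_lit 917, nat_lit 5, nat_lit 69, nat_lit 917, nat_lit 213, nat_lit 917, nat_lit 586, nat_lit 219, nat_lit 45067, nat_lit 267, nat_lit 49765105, nat_lit 0, nat_lit 0, nat_lit 3557500, false, false⟩,
 nat_lit 7033, nat_lit 804, nat_lit 0, nat_lit 2065, nat_lit 4148, nat_lit 3363, nat_lit 167, nat_lit 0, nat_lit 0, nat_lit 681, nat_lit 0, nat_lit 0, nat_lit 0, nat_lit 0, nat_lit 46, nat_lit 917000, nat_lit 0, nat_lit 962283754, [(nat_lit 6, [(nat_lit 6, nat_lit 917)])],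
 ⟨p043_k2, nat_lit 0, nat_lit 0, nat_lit 168, nat_lit 0, nat_lit 92287, [nat_lit 2021074134, nat_lit 1262686000, nat_lit 195137400], [], [nat_lit 18039256881, nat_lit 19384964456, nat_lit 17023649694, nat_lit 17938353510, nat_lit 20606011551, nat_lit 21817660405, nat_lit 18890530570, nat_lit 20097174466], nat_lit 1271250, nat_lit 1271250, nat_lit 43600, nat_lit 230001, nat_lit 1271250, nat_lit 1271250, [nat_lit 1100000, nat_lit 1442500, nat_lit 1271250], [nat_lit 9, nat_lit 40, nat_lit 40, nat_lit 80, nat_lit 2, nat_lit 215, nat_lit 10, nat_lit 6]⟩, ⟨p043_k5, nat_lit 0, nat_lit 0, nat_lit 203, nat_lit 0, nat_lit 104075, [nat_lit 518750000, nat_lit 661344000], [], [nat_lit 2781432375, nat_lit 1912691970, nat_lit 0, nat_lit 218877942, nat_lit 3659416938, nat_lit 3903165012, nat_lit 2182935354, nat_lit 2240616061], nat_lit 1271250, nat_lit 1271250, nat_lit 43600, nat_lit 230001, nat_lit 1100001, nat_lit 1853500,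 [nat_lit 1412500, nat_lit 1271250], [nat_lit 26, nat_lit 40, nat_lit 40, nat_lit 80, nat_lit 2, nat_lit 373, nat_lit 150, nat_lit 12]⟩,
 ⟨nat_lit 5916, nat_lit 6325, ⟨.ofNat (nat_lit 126498), .ofNat (nat_lit 192309), .ofNat (nat_lit 137182), .ofNat (nat_lit 202993), .ofNat (nat_lit 144377), .ofNat (nat_lit 207203), .ofNat (nat_lit 155046), .ofNat (nat_lit 217873)⟩, ⟨.ofNat (nat_lit 493584), .ofNat (nat_lit 559386), .ofNat (nat_lit 514952), .ofNat (nat_lit 580747), .ofNat (nat_lit 486351), .ofNat (nat_lit 549169), .ofNat (nat_lit 507691), .ofNat (nat_lit 570502)⟩⟩, [⟨nat_lit 0, nat_lit 100, nat_lit 98, nat_lit 37, nat_lit 315089223⟩, ⟨nat_lit 4, nat_lit 92, nat_lit 100, nat_lit 68, nat_lit 386482674⟩, ⟨nat_lit 23, nat_lit 88, nat_lit 100, nat_lit 47, nat_lit 315193575⟩]⟩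
noncomputable def p043_l10 : Lf2 := ⟨nat_lit 0, nat_lit 2, [nat_lit 10, nat_lit 5, nat_lit 5, nat_lit 20], false, nat_lit 280, nat_lit 312, nat_lit 0, nat_lit 160, ⟨nat_lit 1000, nat_lit 0, nat_lit 0, nat_lit 0, nat_lit 0, nat_lit 0, nat_lit 0, nat_lit 0, nat_lit 0, nat_lit 0, nat_lit 0, nat_lit 0, nat_lit 0, nat_lit 0, nat_lit 0, nat_lit 0, false, false⟩,
 nat_lit 19561, nat_lit 0, nat_lit 0, nat_lit 12675, nat_lit 8970, nat_lit 9851, nat_lit 2471, nat_lit 0, nat_lit 0, nat_lit 3702, nat_lit 0, nat_lit 0, nat_lit 0, nat_lit 0, nat_lit 0, nat_lit 0, nat_lit 0, nat_lit 0, [],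
 ⟨p043_k2, nat_lit 0, nat_lit 0, nat_lit 157, nat_lit 0, nat_lit 80873, [nat_lit 4688000000, nat_lit 6250000000, nat_lit 7968000000], [], [nat_lit 22334332046, nat_lit 23136000386, nat_lit 19487708700, nat_lit 20281911620, nat_lit 26204855413, nat_lit 27114212245, nat_lit 22606463501, nat_lit 23465040514], nat_lit 1271250, nat_lit 1271250, nat_lit 65850, nat_lit 230001, nat_lit 1271250, nat_lit 1271250, [nat_lit 1100000, nat_lit 1442500, nat_lit 1271250], [nat_lit 9, nat_lit 40, nat_lit 40, nat_lit 80, nat_lit 2, nat_lit 215, nat_lit 10, nat_lit 6]⟩, ⟨p043_k3, nat_lit 0, nat_lit 0, nat_lit 275, nat_lit 0, nat_lit 85771, [nat_lit 6250000000, nat_lit 7968000000], [], [nat_lit 20645513081, nat_lit 21431300083, nat_lit 17537893262, nat_lit 18319050310, nat_lit 16897311379, nat_lit 15399771989, nat_lit 16919715879, nat_lit 14392648700], nat_lit 1271250, nat_lit 1271250, nat_lit 65850, nat_lit 230001, nat_lit 0,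 nat_lit 1100001, [nat_lit 1412500, nat_lit 1271250], [nat_lit 26, nat_lit 40, nat_lit 40, nat_lit 80, nat_lit 2, nat_lit 345, nat_lit 125, nat_lit 12]⟩,
 zbF0, [⟨nat_lit 0, nat_lit 100, nat_lit 99, nat_lit 40, nat_lit 1324262116⟩, ⟨nat_lit 4, nat_lit 90, nat_lit 100, nat_lit 68, nat_lit 1284509809⟩]⟩
noncomputable def p043_l11 : Lf2 := ⟨nat_lit 0, nat_lit 2, [nat_lit 10, nat_lit 5, nat_lit 5, nat_lit 20], false, nat_lit 280, nat_lit 304, nat_lit 0, nat_lit 160, ⟨nat_lit 1000, nat_lit 0, nat_lit 0, nat_lit 0, nat_lit 0, nat_lit 0, nat_lit 0, nat_lit 0, nat_lit 0, nat_lit 0, nat_lit 0, nat_lit 0, nat_lit 0, nat_lit 0, nat_lit 0, nat_lit 0, false, false⟩,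
 nat_lit 20377, nat_lit 0, nat_lit 0, nat_lit 7602, nat_lit 7966, nat_lit 10262, nat_lit 2598, nat_lit 0, nat_lit 0, nat_lit 3279, nat_lit 0, nat_lit 0, nat_lit 0, nat_lit 0, nat_lit 0, nat_lit 0, nat_lit 0, nat_lit 0, [],
 ⟨p043_k4, nat_lit 0, nat_lit 0, nat_lit 168, nat_lit 0, nat_lit 128747, [nat_lit 4688000000, nat_lit 6250000000, nat_lit 7968000000], [], [nat_lit 21926039189, nat_lit 22676004956, nat_lit 19790559906, nat_lit 20530152012, nat_lit 24466493572, nat_lit 25340716605, nat_lit 21895419333, nat_lit 22599765059], nat_lit 1271250, nat_lit 1271250, nat_lit 88400, nat_lit 230001, nat_lit 1271250, nat_lit 1271250, [nat_lit 1100000, nat_lit 1442500, nat_lit 1271250], [nat_lit 9, nat_lit 40, nat_lit 40, nat_lit 80, nat_lit 2, nat_lit 215, nat_lit 10, nat_lit 6]⟩, ⟨p043_k3, nat_lit 0, nat_lit 0, nat_lit 278, nat_lit 0, nat_lit 144476, [nat_lit 6250000000, nat_lit 7968000000], [], [nat_lit 20437161904,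 nat_lit 21241760664, nat_lit 17648095619, nat_lit 18448671595, nat_lit 16241576378, nat_lit 14771897187, nat_lit 16278649998, nat_lit 13646149400], nat_lit 1271250, nat_lit 1271250, nat_lit 88400, nat_lit 230001, nat_lit 0, nat_lit 1100001, [nat_lit 1412500, nat_lit 1271250], [nat_lit 26, nat_lit 40, nat_lit 40, nat_lit 80, nat_lit 2, nat_lit 345, nat_lit 125, nat_lit 12]⟩,
 zbF0, [⟨nat_lit 0, nat_lit 100, nat_lit 98, nat_lit 45, nat_lit 1249962560⟩, ⟨nat_lit 4, nat_lit 94, nat_lit 100, nat_lit 69, nat_lit 1166723024⟩]⟩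
noncomputable def p043_l12 : Lf2 := ⟨nat_lit 0, nat_lit 2, [nat_lit 10, nat_lit 5, nat_lit 5, nat_lit 20], false, nat_lit 280, nat_lit 312, nat_lit 160, nat_lit 248, ⟨nat_lit 258, nat_lit 0, nat_lit 742, nat_lit 5, nat_lit 75, nat_lit 742, nat_lit 213, nat_lit 742, nat_lit 586, nat_lit 219, nat_lit 52267, nat_lit 271, nat_lit 49459314, nat_lit 0, nat_lit 0, nat_lit 3640197, false, false⟩,
 nat_lit 9156, nat_lit 0, nat_lit 0, nat_lit 0, nat_lit 4847, nat_lit 4611, nat_lit 590, nat_lit 0, nat_lit 0, nat_lit 316, nat_lit 0, nat_lit 0, nat_lit 0, nat_lit 0, nat_lit 0, nat_lit 742000, nat_lit 0, nat_lit 0, [(nat_lit 6, [(nat_lit 6, nat_lit 742)])],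
 ⟨p043_k2, nat_lit 0, nat_lit 0, nat_lit 179, nat_lit 0, nat_lit 136225, [nat_lit 1934487467, nat_lit 1470036001, nat_lit 777752399], [], [nat_lit 18789712963, nat_lit 19897099118, nat_lit 17686186058, nat_lit 18658377032, nat_lit 21234272822, nat_lit 22533387224, nat_lit 19520195619, nat_lit 20717017749], nat_lit 1271250, nat_lit 1271250, nat_lit 65850, nat_lit 230001, nat_lit 1271250, nat_lit 1271250, [nat_lit 1100000, nat_lit 1442500, nat_lit 1271250], [nat_lit 9, nat_lit 40, nat_lit 40, nat_lit 80, nat_lit 2, nat_lit 215, nat_lit 10, nat_lit 6]⟩, ⟨p043_k3, nat_lit 0, nat_lit 0, nat_lit 200, nat_lit 0, nat_lit 144476, [nat_lit 1612500000, nat_lit 2055744000], [], [nat_lit 2550659321, nat_lit 2888539523, nat_lit 1137431079, nat_lit 1338386000, nat_lit 5640443355, nat_lit 5944038506, nat_lit 5618125081, nat_lit 4472537808], nat_lit 1271250, nat_lit 1271250, nat_lit 65850, nat_lit 230001, nat_lit 1100001,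 nat_lit 1853500, [nat_lit 1412500, nat_lit 1271250], [nat_lit 26, nat_lit 40, nat_lit 40, nat_lit 80, nat_lit 2, nat_lit 373, nat_lit 150, nat_lit 12]⟩,
 ⟨nat_lit 5916, nat_lit 6325, ⟨.ofNat (nat_lit 145408), .ofNat (nat_lit 202993), .ofNat (nat_lit 156092), .ofNat (nat_lit 213677), .ofNat (nat_lit 162900), .ofNat (nat_lit 217873), .ofNat (nat_lit 173569), .ofNat (nat_lit 228543)⟩, ⟨.ofNat (nat_lit 493584), .ofNat (nat_lit 559386), .ofNat (nat_lit 514952), .ofNat (nat_lit 580747), .ofNat (nat_lit 486351), .ofNat (nat_lit 549169), .ofNat (nat_lit 507691), .ofNat (nat_lit 570502)⟩⟩, [⟨nat_lit 0, nat_lit 100, nat_lit 98, nat_lit 42, nat_lit 201923822⟩, ⟨nat_lit 4, nat_lit 92, nat_lit 100, nat_lit 68, nat_lit 326322832⟩, ⟨nat_lit 23, nat_lit 88, nat_lit 100, nat_lit 49, nat_lit 526906479⟩]⟩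
noncomputable def p043_l13 : Lf2 := ⟨nat_lit 0, nat_lit 4, [nat_lit 38, nat_lit 5, nat_lit 5, nat_lit 20], true, nat_lit 280, nat_lit 312, nat_lit 0, nat_lit 248, ⟨nat_lit 0, nat_lit 0, nat_lit 1000, nat_lit 5, nat_lit 71, nat_lit 1000, nat_lit 213, nat_lit 1000, nat_lit 586, nat_lit 219, nat_lit 46817, nat_lit 268, nat_lit 49655226, nat_lit 0, nat_lit 0, nat_lit 3587652, false, false⟩,
 nat_lit 0, nat_lit 100000, nat_lit 0, nat_lit 100000, nat_lit 4195, nat_lit 0, nat_lit 0, nat_lit 0, nat_lit 0, nat_lit 0, nat_lit 0, nat_lit 0, nat_lit 0, nat_lit 0, nat_lit 51, nat_lit 556000, nat_lit 0, nat_lit 0, [(nat_lit 6, [(nat_lit 5, nat_lit 740), (nat_lit 6, nat_lit 260)])],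
 ⟨p043_k0, nat_lit 0, nat_lit 0, nat_lit 150, nat_lit 0, nat_lit 40008, [nat_lit 2119061334, nat_lit 994648001, nat_lit 131767999], [], [nat_lit 18113167843, nat_lit 19436660790, nat_lit 16957888683, nat_lit 17802267073, nat_lit 20665662868, nat_lit 21883232343, nat_lit 18926267264, nat_lit 20138852055], nat_lit 1271250, nat_lit 1271250, nat_lit 43600, nat_lit 230001, nat_lit 1271250, nat_lit 1271250, [nat_lit 1100000, nat_lit 1442500, nat_lit 1271250], [nat_lit 9, nat_lit 40, nat_lit 40, nat_lit 80, nat_lit 2, nat_lit 215, nat_lit 10, nat_lit 6]⟩, C1.Rw.none,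
 ⟨nat_lit 5916, nat_lit 6325, ⟨.ofNat (nat_lit 126498), .ofNat (nat_lit 192309), .ofNat (nat_lit 147866), .ofNat (nat_lit 213677), .ofNat (nat_lit 144377), .ofNat (nat_lit 207203), .ofNat (nat_lit 165716), .ofNat (nat_lit 228543)⟩, ⟨.ofNat (nat_lit 493584), .ofNat (nat_lit 559386), .ofNat (nat_lit 514952), .ofNat (nat_lit 580747), .ofNat (nat_lit 486351), .ofNat (nat_lit 549169), .ofNat (nat_lit 507691), .ofNat (nat_lit 570502)⟩⟩, [⟨nat_lit 0, nat_lit 100, nat_lit 97, nat_lit 49, nat_lit 367097496⟩, ⟨nat_lit 4, nat_lit 92, nat_lit 100, nat_lit 68, nat_lit 10487752658⟩]⟩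
noncomputable def p043_l14 : Lf2 := ⟨nat_lit 0, nat_lit 4, [nat_lit 38, nat_lit 5, nat_lit 5, nat_lit 20], true, nat_lit 240, nat_lit 280, nat_lit 0, nat_lit 336, ⟨nat_lit 0, nat_lit 0, nat_lit 1000, nat_lit 5, nat_lit 96, nat_lit 1000, nat_lit 184, nat_lit 1000, nat_lit 21600, nat_lit 251, nat_lit 86400, nat_lit 287, nat_lit 51050851, nat_lit 0, nat_lit 0, nat_lit 3644114, false, false⟩,
 nat_lit 0, nat_lit 8306, nat_lit 0, nat_lit 0, nat_lit 4397, nat_lit 0, nat_lit 0, nat_lit 0, nat_lit 0, nat_lit 0, nat_lit 0, nat_lit 0, nat_lit 0, nat_lit 0, nat_lit 60, nat_lit 683800, nat_lit 0, nat_lit 0, [(nat_lit 6, [(nat_lit 5, nat_lit 527), (nat_lit 6, nat_lit 473)])],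
 ⟨p043_k1, nat_lit 0, nat_lit 0, nat_lit 140, nat_lit 0, nat_lit 140231, [nat_lit 2432657200, nat_lit 53765467], [], [nat_lit 14512188111, nat_lit 15587533470, nat_lit 14210267668, nat_lit 15284251658, nat_lit 16827788236, nat_lit 17833990363, nat_lit 16477062070, nat_lit 17446579858], nat_lit 1271250, nat_lit 1271250, nat_lit 230001, nat_lit 490000, nat_lit 1271250, nat_lit 1271250, [nat_lit 1100000, nat_lit 1785000], [nat_lit 39, nat_lit 40, nat_lit 40, nat_lit 80, nat_lit 7, nat_lit 226, nat_lit 20, nat_lit 7]⟩, C1.Rw.none,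
 ⟨nat_lit 5916, nat_lit 6325, ⟨.ofNat (nat_lit 170942), .ofNat (nat_lit 253206), .ofNat (nat_lit 213677), .ofNat (nat_lit 295942), .ofNat (nat_lit 185864), .ofNat (nat_lit 264398), .ofNat (nat_lit 228543), .ofNat (nat_lit 307076)⟩, ⟨.ofNat (nat_lit 411320), .ofNat (nat_lit 493584), .ofNat (nat_lit 432688), .ofNat (nat_lit 514952), .ofNat (nat_lit 407818), .ofNat (nat_lit 486351), .ofNat (nat_lit 429157), .ofNat (nat_lit 507691)⟩⟩, [⟨nat_lit 4, nat_lit 92, nat_lit 100, nat_lit 68, nat_lit 374086244⟩]⟩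
noncomputable def p043_l15 : Lf2 := ⟨nat_lit 0, nat_lit 4, [nat_lit 38, nat_lit 5, nat_lit 5, nat_lit 20], true, nat_lit 280, nat_lit 312, nat_lit 0, nat_lit 300, ⟨nat_lit 0, nat_lit 0, nat_lit 1000, nat_lit 5, nat_lit 95, nat_lit 1000, nat_lit 214, nat_lit 1000, nat_lit 611, nat_lit 219, nat_lit 84017, nat_lit 286, nat_lit 48285583, nat_lit 0, nat_lit 0, nat_lit 3915461, false, false⟩,
 nat_lit 0, nat_lit 7657, nat_lit 0, nat_lit 3654, nat_lit 4053, nat_lit 0, nat_lit 0, nat_lit 0, nat_lit 0, nat_lit 0, nat_lit 0, nat_lit 0, nat_lit 0, nat_lit 0, nat_lit 80, nat_lit 1000000, nat_lit 0, nat_lit 0, [(nat_lit 6, [(nat_lit 6, nat_lit 1000)])],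
 ⟨p043_k0, nat_lit 0, nat_lit 0, nat_lit 126, nat_lit 0, nat_lit 83251, [nat_lit 2257066667, nat_lit 1408000000, nat_lit 211200000], [], [nat_lit 16332389077, nat_lit 16967284445, nat_lit 16035471993, nat_lit 16472879198, nat_lit 18818296826, nat_lit 19415614679, nat_lit 18102388572, nat_lit 18683601270], nat_lit 1271250, nat_lit 1271250, nat_lit 230001, nat_lit 490000, nat_lit 1271250, nat_lit 1271250, [nat_lit 1100000, nat_lit 1442500, nat_lit 1271250], [nat_lit 9, nat_lit 40, nat_lit 40, nat_lit 80, nat_lit 2, nat_lit 226, nat_lit 20, nat_lit 7]⟩, C1.Rw.none,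
 ⟨nat_lit 6123, nat_lit 6325, ⟨.ofNat (nat_lit 170942), .ofNat (nat_lit 253206), .ofNat (nat_lit 213677), .ofNat (nat_lit 295942), .ofNat (nat_lit 178476), .ofNat (nat_lit 258856), .ofNat (nat_lit 221172), .ofNat (nat_lit 301553)⟩, ⟨.ofNat (nat_lit 493584), .ofNat (nat_lit 559393), .ofNat (nat_lit 514952), .ofNat (nat_lit 580758), .ofNat (nat_lit 489975), .ofNat (nat_lit 554277), .ofNat (nat_lit 511323), .ofNat (nat_lit 575623)⟩⟩, [⟨nat_lit 16, nat_lit 100, nat_lit 90, nat_lit 68, nat_lit 553093909⟩]⟩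
noncomputable def p043_l16 : Lf2 := ⟨nat_lit 0, nat_lit 4, [nat_lit 38, nat_lit 5, nat_lit 5, nat_lit 20], true, nat_lit 280, nat_lit 304, nat_lit 0, nat_lit 300, ⟨nat_lit 0, nat_lit 292, nat_lit 708, nat_lit 5, nat_lit 97, nat_lit 1000, nat_lit 209, nat_lit 708, nat_lit 4524, nat_lit 228, nat_lit 88817, nat_lit 288, nat_lit 48604754, nat_lit 4291228, nat_lit 14104018, nat_lit 3906767, false, false⟩,
 nat_lit 0, nat_lit 8664, nat_lit 0, nat_lit 1292, nat_lit 4813, nat_lit 0, nat_lit 1183, nat_lit 0, nat_lit 0, nat_lit 0, nat_lit 0, nat_lit 0, nat_lit 0, nat_lit 0, nat_lit 0, nat_lit 400000, nat_lit 0, nat_lit 0, [(nat_lit 6, [(nat_lit 1, nat_lit 292), (nat_lit 5, nat_lit 708)])],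
 ⟨p043_k6, nat_lit 0, nat_lit 0, nat_lit 139, nat_lit 0, nat_lit 132439, [nat_lit 1832356800, nat_lit 249766400], [], [nat_lit 17397515236, nat_lit 18079951274, nat_lit 16923439556, nat_lit 17426628082, nat_lit 19371391505, nat_lit 20035138822, nat_lit 18384644736, nat_lit 19029666397], nat_lit 1271250, nat_lit 1271250, nat_lit 230001, nat_lit 490000, nat_lit 1271250, nat_lit 1271250, [nat_lit 1100000, nat_lit 1785000], [nat_lit 39, nat_lit 40, nat_lit 40, nat_lit 80, nat_lit 7, nat_lit 226, nat_lit 20, nat_lit 7]⟩, C1.Rw.none,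
 ⟨nat_lit 5916, nat_lit 6124, ⟨.ofNat (nat_lit 178476), .ofNat (nat_lit 258856), .ofNat (nat_lit 221172), .ofNat (nat_lit 301553), .ofNat (nat_lit 185864), .ofNat (nat_lit 264398), .ofNat (nat_lit 228543), .ofNat (nat_lit 307076)⟩, ⟨.ofNat (nat_lit 489975), .ofNat (nat_lit 538203), .ofNat (nat_lit 511323), .ofNat (nat_lit 559550), .ofNat (nat_lit 486351), .ofNat (nat_lit 533471), .ofNat (nat_lit 507691), .ofNat (nat_lit 554809)⟩⟩, [⟨nat_lit 4, nat_lit 94, nat_lit 100, nat_lit 69, nat_lit 553644882⟩]⟩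
noncomputable def p043_l17 : Lf2 := ⟨nat_lit 1, nat_lit 1, [nat_lit 19, nat_lit 5, nat_lit 5, nat_lit 20], false, nat_lit 240, nat_lit 336, nat_lit 0, nat_lit 336, zbN0,
 nat_lit 0, nat_lit 0, nat_lit 0, nat_lit 0, nat_lit 0, nat_lit 0, nat_lit 0, nat_lit 0, nat_lit 0, nat_lit 0, nat_lit 0, nat_lit 0, nat_lit 0, nat_lit 0, nat_lit 0, nat_lit 0, nat_lit 0, nat_lit 0, [],
 C1.Rw.none, C1.Rw.none,
 zbF0, []⟩
noncomputable def p043_l18 : Lf2 := ⟨nat_lit 0, nat_lit 1, [nat_lit 19, nat_lit 5, nat_lit 5, nat_lit 20], true, nat_lit 240, nat_lit 280, nat_lit 0, nat_lit 288, ⟨nat_lit 0, nat_lit 0, nat_lit 1000, nat_lit 5, nat_lit 67, nat_lit 1000, nat_lit 192, nat_lit 1000, nat_lit 12488, nat_lit 241, nat_lit 41667, nat_lit 265, nat_lit 51974468, nat_lit 0, nat_lit 0, nat_lit 3318027, false, false⟩,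
 nat_lit 0, nat_lit 7072, nat_lit 0, nat_lit 2039, nat_lit 3928, nat_lit 0, nat_lit 781, nat_lit 0, nat_lit 0, nat_lit 0, nat_lit 0, nat_lit 0, nat_lit 0, nat_lit 0, nat_lit 10, nat_lit 1000000, nat_lit 0, nat_lit 0, [(nat_lit 6, [(nat_lit 6, nat_lit 1000)])],
 ⟨p043_k7, nat_lit 0, nat_lit 0, nat_lit 144, nat_lit 0, nat_lit 17167, [nat_lit 1137066667, nat_lit 8000000], [], [nat_lit 15904804943, nat_lit 16446074597, nat_lit 14887269126, nat_lit 15418833014, nat_lit 18684710064, nat_lit 19341494000, nat_lit 17075647322, nat_lit 17556684046], nat_lit 1271250, nat_lit 1271250, nat_lit 21650, nat_lit 230001, nat_lit 1271250, nat_lit 1271250, [nat_lit 1100000, nat_lit 1442500], [nat_lit 31, nat_lit 40, nat_lit 40, nat_lit 80, nat_lit 3, nat_lit 215, nat_lit 10, nat_lit 8]⟩, C1.Rw.none,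
 ⟨nat_lit 5916, nat_lit 6124, ⟨.ofNat (nat_lit 106133), .ofNat (nat_lit 178476), .ofNat (nat_lit 148829), .ofNat (nat_lit 221172), .ofNat (nat_lit 115184), .ofNat (nat_lit 185864), .ofNat (nat_lit 157863), .ofNat (nat_lit 228543)⟩, ⟨.ofNat (nat_lit 430942), .ofNat (nat_lit 511323), .ofNat (nat_lit 452290), .ofNat (nat_lit 532671), .ofNat (nat_lit 429157), .ofNat (nat_lit 507691), .ofNat (nat_lit 450496), .ofNat (nat_lit 529030)⟩⟩, [⟨nat_lit 0, nat_lit 100, nat_lit 97, nat_lit 49, nat_lit 357308086⟩]⟩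
noncomputable def p043_l19 : Lf2 := ⟨nat_lit 0, nat_lit 1, [nat_lit 19, nat_lit 5, nat_lit 5, nat_lit 20], true, nat_lit 280, nat_lit 300, nat_lit 0, nat_lit 208, ⟨nat_lit 0, nat_lit 0, nat_lit 1000, nat_lit 5, nat_lit 59, nat_lit 1000, nat_lit 216, nat_lit 1000, nat_lit 817, nat_lit 222, nat_lit 32267, nat_lit 259, nat_lit 49964606, nat_lit 0, nat_lit 0, nat_lit 3441595, false, false⟩,
 nat_lit 0, nat_lit 100000, nat_lit 0, nat_lit 100000, nat_lit 3579, nat_lit 0, nat_lit 0, nat_lit 0, nat_lit 0, nat_lit 0, nat_lit 0, nat_lit 0, nat_lit 0, nat_lit 0, nat_lit 10, nat_lit 1000000, nat_lit 0, nat_lit 0, [(nat_lit 6, [(nat_lit 6, nat_lit 1000)])],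
 ⟨p043_k7, nat_lit 0, nat_lit 0, nat_lit 124, nat_lit 0, nat_lit 17167, [nat_lit 1137066667, nat_lit 8000000], [], [nat_lit 18542764145, nat_lit 19015098025, nat_lit 18134107383, nat_lit 18603011914, nat_lit 19759634720, nat_lit 20352521716, nat_lit 19197105258, nat_lit 19641980297], nat_lit 1271250, nat_lit 1271250, nat_lit 21650, nat_lit 111251, nat_lit 1271250, nat_lit 1271250, [nat_lit 1100000, nat_lit 1442500], [nat_lit 31, nat_lit 40, nat_lit 40, nat_lit 80, nat_lit 3, nat_lit 215, nat_lit 10, nat_lit 7]⟩, C1.Rw.none,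
 ⟨nat_lit 5916, nat_lit 6124, ⟨.ofNat (nat_lit 106133), .ofNat (nat_lit 138285), .ofNat (nat_lit 148829), .ofNat (nat_lit 180982), .ofNat (nat_lit 115184), .ofNat (nat_lit 146597), .ofNat (nat_lit 157863), .ofNat (nat_lit 189276)⟩, ⟨.ofNat (nat_lit 511323), .ofNat (nat_lit 551512), .ofNat (nat_lit 532671), .ofNat (nat_lit 572859), .ofNat (nat_lit 507691), .ofNat (nat_lit 546957), .ofNat (nat_lit 529030), .ofNat (nat_lit 568294)⟩⟩, [⟨nat_lit 0, nat_lit 100, nat_lit 97, nat_lit 37, nat_lit 3779375096⟩, ⟨nat_lit 0, nat_lit 100, nat_lit 97, nat_lit 49, nat_lit 10309278351⟩, ⟨nat_lit 16, nat_lit 100, nat_lit 87, nat_lit 79, nat_lit 321958973⟩]⟩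
noncomputable def p043_l20 : Lf2 := ⟨nat_lit 0, nat_lit 1, [nat_lit 19, nat_lit 5, nat_lit 5, nat_lit 20], false, nat_lit 280, nat_lit 300, nat_lit 0, nat_lit 160, ⟨nat_lit 1000, nat_lit 0, nat_lit 0, nat_lit 0, nat_lit 0, nat_lit 0, nat_lit 0, nat_lit 0, nat_lit 0, nat_lit 0, nat_lit 0, nat_lit 0, nat_lit 0, nat_lit 0, nat_lit 0, nat_lit 0, false, false⟩,
 nat_lit 24674, nat_lit 0, nat_lit 0, nat_lit 50414, nat_lit 6329, nat_lit 10574, nat_lit 0, nat_lit 0, nat_lit 0, nat_lit 0, nat_lit 0, nat_lit 0, nat_lit 0, nat_lit 0, nat_lit 0, nat_lit 0, nat_lit 0, nat_lit 0, [],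
 ⟨p043_k7, nat_lit 0, nat_lit 0, nat_lit 116, nat_lit 0, nat_lit 17167, [nat_lit 4688000000, nat_lit 6250000000], [], [nat_lit 20308859478, nat_lit 21023028528, nat_lit 18940161313, nat_lit 19649336020, nat_lit 21982064267, nat_lit 22649437065, nat_lit 20598828130, nat_lit 21261975856], nat_lit 1271250, nat_lit 1271250, nat_lit 111251, nat_lit 230001, nat_lit 1271250, nat_lit 1271250, [nat_lit 1100000, nat_lit 1442500], [nat_lit 31, nat_lit 40, nat_lit 40, nat_lit 80, nat_lit 3, nat_lit 215, nat_lit 10, nat_lit 7]⟩, ⟨p043_k8, nat_lit 0, nat_lit 0, nat_lit 281, nat_lit 0, nat_lit 24162, [nat_lit 6250000000, nat_lit 7968000000], [], [nat_lit 21219411520, nat_lit 24494227488, nat_lit 18826026032, nat_lit 22087295440, nat_lit 23938670956, nat_lit 17809377500, nat_lit 23929614384, nat_lit 15801878880], nat_lit 1271250, nat_lit 1271250, nat_lit 111251, nat_lit 230001, nat_lit 0, nat_lit 1100001, [nat_lit 1412500,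 nat_lit 1271250], [nat_lit 26, nat_lit 40, nat_lit 40, nat_lit 80, nat_lit 2, nat_lit 345, nat_lit 125, nat_lit 12]⟩,
 zbF0, [⟨nat_lit 0, nat_lit 100, nat_lit 97, nat_lit 49, nat_lit 1752590845⟩, ⟨nat_lit 4, nat_lit 87, nat_lit 100, nat_lit 79, nat_lit 829724595⟩]⟩
noncomputable def p043_l21 : Lf2 := ⟨nat_lit 0, nat_lit 1, [nat_lit 19, nat_lit 5, nat_lit 5, nat_lit 20], false, nat_lit 280, nat_lit 300, nat_lit 160, nat_lit 248, ⟨nat_lit 1000, nat_lit 0, nat_lit 0, nat_lit 0, nat_lit 0, nat_lit 0, nat_lit 0, nat_lit 0, nat_lit 0, nat_lit 0, nat_lit 0, nat_lit 0, nat_lit 0, nat_lit 0, nat_lit 0, nat_lit 0, false, false⟩,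
 nat_lit 11828, nat_lit 0, nat_lit 35710, nat_lit 74609, nat_lit 6571, nat_lit 20373, nat_lit 0, nat_lit 0, nat_lit 0, nat_lit 0, nat_lit 0, nat_lit 0, nat_lit 0, nat_lit 0, nat_lit 0, nat_lit 0, nat_lit 0, nat_lit 0, [],
 ⟨p043_k7, nat_lit 0, nat_lit 0, nat_lit 116, nat_lit 0, nat_lit 17167, [nat_lit 4688000000, nat_lit 6250000000], [], [nat_lit 20223783773, nat_lit 20952735272, nat_lit 18792225987, nat_lit 19516085980, nat_lit 22120308650, nat_lit 22914019340, nat_lit 20488133821, nat_lit 21164513744], nat_lit 1271250, nat_lit 1271250, nat_lit 111251, nat_lit 230001, nat_lit 1271250, nat_lit 1271250, [nat_lit 1100000, nat_lit 1442500], [nat_lit 31, nat_lit 40, nat_lit 40, nat_lit 80, nat_lit 3, nat_lit 215, nat_lit 10, nat_lit 7]⟩, ⟨p043_k8, nat_lit 0, nat_lit 0, nat_lit 201, nat_lit 0, nat_lit 24162, [nat_lit 6250000000, nat_lit 7968000000], [], [nat_lit 31391435578, nat_lit 10329094750, nat_lit 20781625384,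 nat_lit 4173153044, nat_lit 35186577983, nat_lit 21993445390, nat_lit 35068116568, nat_lit 15837790983], nat_lit 1271250, nat_lit 1271250, nat_lit 111251, nat_lit 230001, nat_lit 1100001, nat_lit 1853500, [nat_lit 1412500, nat_lit 1271250], [nat_lit 26, nat_lit 40, nat_lit 40, nat_lit 80, nat_lit 2, nat_lit 373, nat_lit 150, nat_lit 12]⟩,
 zbF0, [⟨nat_lit 0, nat_lit 100, nat_lit 97, nat_lit 49, nat_lit 827223208⟩, ⟨nat_lit 11, nat_lit 100, nat_lit 89, nat_lit 47, nat_lit 2079268033⟩]⟩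
noncomputable def p043_l22 : Lf2 := ⟨nat_lit 0, nat_lit 1, [nat_lit 19, nat_lit 5, nat_lit 5, nat_lit 20], true, nat_lit 300, nat_lit 328, nat_lit 0, nat_lit 224, ⟨nat_lit 0, nat_lit 1000, nat_lit 0, nat_lit 5, nat_lit 67, nat_lit 1000, nat_lit 235, nat_lit 0, nat_lit 0, nat_lit 0, nat_lit 0, nat_lit 0, nat_lit 47650511, nat_lit 2422363, nat_lit 16927126, nat_lit 3713533, false, false⟩,
 nat_lit 0, nat_lit 9572, nat_lit 0, nat_lit 100000, nat_lit 5317, nat_lit 0, nat_lit 3160, nat_lit 0, nat_lit 0, nat_lit 0, nat_lit 0, nat_lit 0, nat_lit 0, nat_lit 0, nat_lit 0, nat_lit 400000, nat_lit 0, nat_lit 0, [(nat_lit 6, [(nat_lit 1, nat_lit 1000)])],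
 ⟨p043_k7, nat_lit 0, nat_lit 0, nat_lit 125, nat_lit 0, nat_lit 17167, [nat_lit 2692266667, nat_lit 3030400000], [], [nat_lit 21984835051, nat_lit 22695178868, nat_lit 19626412753, nat_lit 20102608164, nat_lit 24623996624, nat_lit 25262518960, nat_lit 22003682675, nat_lit 22640711627], nat_lit 1271250, nat_lit 1271250, nat_lit 21650, nat_lit 230001, nat_lit 1271250, nat_lit 1271250, [nat_lit 1100000, nat_lit 1442500], [nat_lit 31, nat_lit 40, nat_lit 40, nat_lit 80, nat_lit 3, nat_lit 215, nat_lit 10, nat_lit 7]⟩, C1.Rw.none,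
 ⟨nat_lit 5916, nat_lit 6124, ⟨.ofNat (nat_lit 106133), .ofNat (nat_lit 178476), .ofNat (nat_lit 148829), .ofNat (nat_lit 221172), .ofNat (nat_lit 115184), .ofNat (nat_lit 185864), .ofNat (nat_lit 157863), .ofNat (nat_lit 228543)⟩, ⟨.ofNat (nat_lit 551512), .ofNat (nat_lit 607776), .ofNat (nat_lit 572859), .ofNat (nat_lit 629122), .ofNat (nat_lit 546957), .ofNat (nat_lit 601927), .ofNat (nat_lit 568294), .ofNat (nat_lit 623264)⟩⟩, [⟨nat_lit 0, nat_lit 100, nat_lit 97, nat_lit 49, nat_lit 442318438⟩, ⟨nat_lit 16, nat_lit 100, nat_lit 87, nat_lit 79, nat_lit 4486944009⟩]⟩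
noncomputable def p043_l23 : Lf2 := ⟨nat_lit 0, nat_lit 1, [nat_lit 19, nat_lit 5, nat_lit 5, nat_lit 20], true, nat_lit 240, nat_lit 328, nat_lit 0, nat_lit 336, ⟨nat_lit 0, nat_lit 1000, nat_lit 0, nat_lit 5, nat_lit 97, nat_lit 1000, nat_lit 211, nat_lit 0, nat_lit 0, nat_lit 0, nat_lit 0, nat_lit 0, nat_lit 48396648, nat_lit 4284778, nat_lit 14318574, nat_lit 3926016, false, false⟩,
 nat_lit 0, nat_lit 8388, nat_lit 0, nat_lit 1926, nat_lit 4660, nat_lit 0, nat_lit 0, nat_lit 0, nat_lit 0, nat_lit 0, nat_lit 0, nat_lit 0, nat_lit 0, nat_lit 0, nat_lit 0, nat_lit 400000, nat_lit 0, nat_lit 0, [(nat_lit 6, [(nat_lit 1, nat_lit 1000)])],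
 ⟨p043_k7, nat_lit 0, nat_lit 0, nat_lit 126, nat_lit 0, nat_lit 17167, [nat_lit 2692266667, nat_lit 3030400000], [], [nat_lit 15161038867, nat_lit 15840944587, nat_lit 14681016307, nat_lit 15336446027, nat_lit 21426416642, nat_lit 21947681271, nat_lit 20718221726, nat_lit 21222917983], nat_lit 1271250, nat_lit 1271250, nat_lit 230001, nat_lit 490000, nat_lit 1271250, nat_lit 1271250, [nat_lit 1100000, nat_lit 1442500], [nat_lit 31, nat_lit 40, nat_lit 40, nat_lit 80, nat_lit 3, nat_lit 226, nat_lit 20, nat_lit 8]⟩, C1.Rw.none,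
 ⟨nat_lit 5916, nat_lit 6124, ⟨.ofNat (nat_lit 178476), .ofNat (nat_lit 258856), .ofNat (nat_lit 221172), .ofNat (nat_lit 301553), .ofNat (nat_lit 185864), .ofNat (nat_lit 264398), .ofNat (nat_lit 228543), .ofNat (nat_lit 307076)⟩, ⟨.ofNat (nat_lit 430942), .ofNat (nat_lit 607776), .ofNat (nat_lit 452290), .ofNat (nat_lit 629122), .ofNat (nat_lit 429157), .ofNat (nat_lit 601927), .ofNat (nat_lit 450496), .ofNat (nat_lit 623264)⟩⟩, [⟨nat_lit 4, nat_lit 87, nat_lit 100, nat_lit 79, nat_lit 333426852⟩]⟩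
noncomputable def p043_l24 : Lf2 := ⟨nat_lit 1, nat_lit 4, [nat_lit 38, nat_lit 5, nat_lit 5, nat_lit 20], false, nat_lit 240, nat_lit 336, nat_lit 0, nat_lit 336, zbN0,
 nat_lit 0, nat_lit 0, nat_lit 0, nat_lit 0, nat_lit 0, nat_lit 0, nat_lit 0, nat_lit 0, nat_lit 0, nat_lit 0, nat_lit 0, nat_lit 0, nat_lit 0, nat_lit 0, nat_lit 0, nat_lit 0, nat_lit 0, nat_lit 0, [],
 C1.Rw.none, C1.Rw.none,
 zbF0, []⟩
noncomputable def p043_l25 : Lf2 := ⟨nat_lit 0, nat_lit 4, [nat_lit 38, nat_lit 5, nat_lit 5, nat_lit 20], false, nat_lit 240, nat_lit 336, nat_lit 0, nat_lit 360, ⟨nat_lit 0, nat_lit 487, nat_lit 513, nat_lit 5, nat_lit 128, nat_lit 1000, nat_lit 211, nat_lit 513, nat_lit 31654, nat_lit 200, nat_lit 153600, nat_lit 311, nat_lit 46517545, nat_lit 6432037, nat_lit 14050418, nat_lit 4306510, false, false⟩,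
 nat_lit 0, nat_lit 11071, nat_lit 0, nat_lit 0, nat_lit 5860, nat_lit 0, nat_lit 734, nat_lit 0, nat_lit 0, nat_lit 0, nat_lit 0, nat_lit 0, nat_lit 0, nat_lit 0, nat_lit 0, nat_lit 1000000, nat_lit 0, nat_lit 0, [(nat_lit 6, [(nat_lit 2, nat_lit 487), (nat_lit 6, nat_lit 513)])],
 ⟨p043_k0, nat_lit 0, nat_lit 0, nat_lit 140, nat_lit 0, nat_lit 150248, [nat_lit 1874185600, nat_lit 1265493600, nat_lit 326860000], [], [nat_lit 12634798000, nat_lit 13994235360, nat_lit 12686943680, nat_lit 13971933200, nat_lit 21329217984, nat_lit 22587139392, nat_lit 20895782160, nat_lit 22097997904], nat_lit 1271250, nat_lit 1271250, nat_lit 490000, nat_lit 780000, nat_lit 1271250, nat_lit 1271250, [nat_lit 1100000, nat_lit 1442500, nat_lit 1271250], [nat_lit 9, nat_lit 40, nat_lit 40, nat_lit 80, nat_lit 2, nat_lit 238, nat_lit 30, nat_lit 7]⟩, ⟨p043_k9, nat_lit 0, nat_lit 0, nat_lit 295, nat_lit 0, nat_lit 195442, [nat_lit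 0, nat_lit 0, nat_lit 0], [], [nat_lit 0, nat_lit 0, nat_lit 0, nat_lit 0, nat_lit 0, nat_lit 0, nat_lit 0, nat_lit 0], nat_lit 1271250, nat_lit 1271250, nat_lit 490000, nat_lit 780000, nat_lit 0, nat_lit 2542500, [nat_lit 1412500, nat_lit 1271250, nat_lit 1271250], [nat_lit 25, nat_lit 40, nat_lit 40, nat_lit 80, nat_lit 17, nat_lit 428, nat_lit 200, nat_lit 13]⟩,
 ⟨nat_lit 5916, nat_lit 6325, ⟨.ofNat (nat_lit 253206), .ofNat (nat_lit 335470), .ofNat (nat_lit 295942), .ofNat (nat_lit 378206), .ofNat (nat_lit 264398), .ofNat (nat_lit 342931), .ofNat (nat_lit 307076), .ofNat (nat_lit 385610)⟩, ⟨.ofNat (nat_lit 411320), .ofNat (nat_lit 608730), .ofNat (nat_lit 454055), .ofNat (nat_lit 651452), .ofNat (nat_lit 407818), .ofNat (nat_lit 596275), .ofNat (nat_lit 450496), .ofNat (nat_lit 638940)⟩⟩, [⟨nat_lit 4, nat_lit 88, nat_lit 100, nat_lit 74, nat_lit 553091950⟩]⟩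
noncomputable def b_V_600_500_10_14 : St := ⟨true, nat_lit 1, nat_lit 1, nat_lit 1, nat_lit 80, nat_lit 240, nat_lit 260, nat_lit 200, nat_lit 240, nat_lit 4, nat_lit 120, nat_lit 40, nat_lit 80, nat_lit 240, nat_lit 336, nat_lit 0, nat_lit 360, nat_lit 0, nat_lit 16, nat_lit 0, nat_lit 0, nat_lit 0, nat_lit 0⟩
theorem d_V_600_500_10_14 (h : EB TB.env) : Dead b_V_600_500_10_14 := chkB_sound0 h (T :=
(.spl (nat_lit 2) (nat_lit 80)
(.trX (nat_lit 23) (nat_lit 100) (nat_lit 76) (nat_lit 82) (nat_lit 336) (.spl (nat_lit 3) (nat_lit 60)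
(.trX (nat_lit 16) (nat_lit 100) (nat_lit 85) (nat_lit 73) (nat_lit 312) (.spl (nat_lit 2) (nat_lit 40)
(.trX (nat_lit 23) (nat_lit 100) (nat_lit 92) (nat_lit 61) (nat_lit 288) (.spl (nat_lit 1) (nat_lit 220)
(.leaf p043_l0)
(.trZ (nat_lit 0) (nat_lit 100) (nat_lit 98) (nat_lit 30) (nat_lit 8) (.spl (nat_lit 4) (nat_lit 280)
(.spl (nat_lit 1) (nat_lit 230)
(.leaf p043_l1)
(.trZ (nat_lit 0) (nat_lit 100) (nat_lit 99) (nat_lit 35) (nat_lit 12) (.spl (nat_lit 6) (nat_lit 8)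
(.spl (nat_lit 4) (nat_lit 260)
(.leaf p043_l2)
(.trX (nat_lit 23) (nat_lit 100) (nat_lit 99) (nat_lit 63) (nat_lit 268) (.spl (nat_lit 0) (nat_lit 250)
(.spl (nat_lit 5) (nat_lit 160)
(.leaf p043_l3)
(.leaf p043_l4))
(.trZ (nat_lit 0) (nat_lit 100) (nat_lit 98) (nat_lit 40) (nat_lit 16) (.spl (nat_lit 5) (nat_lit 160)
(.leaf p043_l5)
(.leaf p043_l6))))))
(.leaf p043_l7))))
(.trX (nat_lit 23) (nat_lit 94) (nat_lit 100) (nat_lit 62) (nat_lit 248) (.spl (nat_lit 6) (nat_lit 8)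
(.spl (nat_lit 1) (nat_lit 230)
(.spl (nat_lit 5) (nat_lit 160)
(.leaf p043_l8)
(.leaf p043_l9))
(.trZ (nat_lit 0) (nat_lit 100) (nat_lit 99) (nat_lit 35) (nat_lit 12) (.spl (nat_lit 5) (nat_lit 160)
(.spl (nat_lit 0) (nat_lit 250)
(.leaf p043_l10)
(.trZ (nat_lit 0) (nat_lit 100) (nat_lit 98) (nat_lit 40) (nat_lit 16) (.trX (nat_lit 16) (nat_lit 100) (nat_lit 88) (nat_lit 74) (nat_lit 304) (.leaf p043_l11))))
(.leaf p043_l12))))
(.leaf p043_l13)))))))
(.spl (nat_lit 4) (nat_lit 280)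
(.leaf p043_l14)
(.trX (nat_lit 23) (nat_lit 100) (nat_lit 95) (nat_lit 87) (nat_lit 300) (.spl (nat_lit 0) (nat_lit 250)
(.leaf p043_l15)
(.trX (nat_lit 16) (nat_lit 100) (nat_lit 88) (nat_lit 74) (nat_lit 304) (.leaf p043_l16)))))))
(.spl (nat_lit 6) (nat_lit 4)
(.spl (nat_lit 0) (nat_lit 250)
(.leaf p043_l17)
(.trX (nat_lit 16) (nat_lit 100) (nat_lit 81) (nat_lit 83) (nat_lit 328) (.spl (nat_lit 2) (nat_lit 40)
(.trX (nat_lit 23) (nat_lit 100) (nat_lit 92) (nat_lit 61) (nat_lit 288) (.spl (nat_lit 4) (nat_lit 280)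
(.leaf p043_l18)
(.trX (nat_lit 23) (nat_lit 94) (nat_lit 100) (nat_lit 62) (nat_lit 248) (.spl (nat_lit 4) (nat_lit 300)
(.spl (nat_lit 2) (nat_lit 20)
(.trX (nat_lit 23) (nat_lit 92) (nat_lit 100) (nat_lit 44) (nat_lit 208) (.leaf p043_l19))
(.spl (nat_lit 5) (nat_lit 160)
(.leaf p043_l20)
(.leaf p043_l21)))
(.trX (nat_lit 23) (nat_lit 87) (nat_lit 100) (nat_lit 60) (nat_lit 224) (.leaf p043_l22))))))
(.leaf p043_l23))))
(.leaf p043_l24))))
(.leaf p043_l25))) (by decide +kernel)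
noncomputable def p043_l26 : Lf2 := ⟨nat_lit 0, nat_lit 5, [nat_lit 4, nat_lit 5, nat_lit 5, nat_lit 20], false, nat_lit 240, nat_lit 296, nat_lit 0, nat_lit 344, ⟨nat_lit 0, nat_lit 0, nat_lit 1000, nat_lit 5, nat_lit 100, nat_lit 1000, nat_lit 188, nat_lit 1000, nat_lit 11818, nat_lit 238, nat_lit 93750, nat_lit 290, nat_lit 50428076, nat_lit 0, nat_lit 0, nat_lit 3739822, false, false⟩,
 nat_lit 0, nat_lit 6221, nat_lit 0, nat_lit 1416, nat_lit 3621, nat_lit 0, nat_lit 0, nat_lit 0, nat_lit 0, nat_lit 0, nat_lit 0, nat_lit 0, nat_lit 0, nat_lit 0, nat_lit 117, nat_lit 1000000, nat_lit 0, nat_lit 0, [(nat_lit 9, [(nat_lit 6, nat_lit 1000)])],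
 ⟨p043_k10, nat_lit 0, nat_lit 0, nat_lit 193, nat_lit 0, nat_lit 169000, [nat_lit 2969600000, nat_lit 1600000000, nat_lit 226400000], [], [nat_lit 17003736712, nat_lit 18048683155, nat_lit 16447462544, nat_lit 17392207968, nat_lit 19944303160, nat_lit 21149673456, nat_lit 19109118644, nat_lit 19934824509], nat_lit 1271250, nat_lit 1271250, nat_lit 43600, nat_lit 780000, nat_lit 1271250, nat_lit 1271250, [nat_lit 1100000, nat_lit 1442500, nat_lit 1271250], [nat_lit 9, nat_lit 40, nat_lit 40, nat_lit 80, nat_lit 2, nat_lit 238, nat_lit 30, nat_lit 7]⟩, ⟨p043_k11, nat_lit 0, nat_lit 0, nat_lit 512, nat_lit 0, nat_lit 244603, [nat_lit 0, nat_lit 0, nat_lit 0], [], [nat_lit 0, nat_lit 0, nat_lit 0, nat_lit 0, nat_lit 0, nat_lit 0, nat_lit 0, nat_lit 0], nat_lit 1271250, nat_lit 1271250, nat_lit 43600, nat_lit 780000, nat_lit 0, nat_lit 2429500, [nat_lit 1412500, nat_lit 1271250, nat_lit 1271250], [nat_lit 53,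 nat_lit 40, nat_lit 40, nat_lit 80, nat_lit 14, nat_lit 401, nat_lit 175, nat_lit 11]⟩,
 ⟨nat_lit 5477, nat_lit 5917, ⟨.ofNat (nat_lit 123037), .ofNat (nat_lit 342931), .ofNat (nat_lit 144377), .ofNat (nat_lit 364271), .ofNat (nat_lit 140320), .ofNat (nat_lit 350132), .ofNat (nat_lit 161677), .ofNat (nat_lit 371489)⟩, ⟨.ofNat (nat_lit 407818), .ofNat (nat_lit 517765), .ofNat (nat_lit 429157), .ofNat (nat_lit 539104), .ofNat (nat_lit 404075), .ofNat (nat_lit 508982), .ofNat (nat_lit 425432), .ofNat (nat_lit 530339)⟩⟩, [⟨nat_lit 0, nat_lit 100, nat_lit 94, nat_lit 40, nat_lit 138215145⟩, ⟨nat_lit 16, nat_lit 100, nat_lit 100, nat_lit 71, nat_lit 353312170⟩]⟩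
noncomputable def p043_l27 : Lf2 := ⟨nat_lit 0, nat_lit 2, [nat_lit 10, nat_lit 5, nat_lit 5, nat_lit 20], true, nat_lit 240, nat_lit 296, nat_lit 0, nat_lit 288, ⟨nat_lit 0, nat_lit 0, nat_lit 1000, nat_lit 5, nat_lit 79, nat_lit 1000, nat_lit 188, nat_lit 1000, nat_lit 11818, nat_lit 238, nat_lit 58017, nat_lit 274, nat_lit 51724874, nat_lit 0, nat_lit 0, nat_lit 3442437, false, false⟩,
 nat_lit 0, nat_lit 6332, nat_lit 0, nat_lit 775, nat_lit 3685, nat_lit 0, nat_lit 0, nat_lit 0, nat_lit 0, nat_lit 0, nat_lit 0, nat_lit 0, nat_lit 0, nat_lit 0, nat_lit 37, nat_lit 1000000, nat_lit 0, nat_lit 0, [(nat_lit 9, [(nat_lit 6, nat_lit 1000)])],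
 ⟨p043_k12, nat_lit 0, nat_lit 0, nat_lit 157, nat_lit 0, nat_lit 194162, [nat_lit 1689600001, nat_lit 0], [], [nat_lit 16706968185, nat_lit 17755127070, nat_lit 16086046352, nat_lit 17121680622, nat_lit 19656827301, nat_lit 20867971795, nat_lit 19000258023, nat_lit 19900897384], nat_lit 1271250, nat_lit 1271250, nat_lit 88400, nat_lit 230001, nat_lit 1271250, nat_lit 1271250, [nat_lit 1100000, nat_lit 1442500], [nat_lit 31, nat_lit 40, nat_lit 40, nat_lit 80, nat_lit 3, nat_lit 215, nat_lit 10, nat_lit 8]⟩, C1.Rw.none,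
 ⟨nat_lit 5477, nat_lit 5917, ⟨.ofNat (nat_lit 160083), .ofNat (nat_lit 207203), .ofNat (nat_lit 170753), .ofNat (nat_lit 217873), .ofNat (nat_lit 176664), .ofNat (nat_lit 221623), .ofNat (nat_lit 187342), .ofNat (nat_lit 232302)⟩, ⟨.ofNat (nat_lit 407818), .ofNat (nat_lit 517765), .ofNat (nat_lit 429157), .ofNat (nat_lit 539104), .ofNat (nat_lit 404075), .ofNat (nat_lit 508982), .ofNat (nat_lit 425432), .ofNat (nat_lit 530339)⟩⟩, [⟨nat_lit 0, nat_lit 100, nat_lit 94, nat_lit 47, nat_lit 256479283⟩, ⟨nat_lit 16, nat_lit 100, nat_lit 92, nat_lit 75, nat_lit 331355759⟩]⟩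
noncomputable def p043_l28 : Lf2 := ⟨nat_lit 0, nat_lit 2, [nat_lit 10, nat_lit 5, nat_lit 5, nat_lit 20], true, nat_lit 240, nat_lit 280, nat_lit 0, nat_lit 288, ⟨nat_lit 0, nat_lit 0, nat_lit 1000, nat_lit 5, nat_lit 84, nat_lit 1000, nat_lit 182, nat_lit 1000, nat_lit 28439, nat_lit 256, nat_lit 66150, nat_lit 278, nat_lit 51974031, nat_lit 0, nat_lit 0, nat_lit 3458153, false, false⟩,
 nat_lit 0, nat_lit 6626, nat_lit 0, nat_lit 0, nat_lit 3856, nat_lit 0, nat_lit 0, nat_lit 0, nat_lit 0, nat_lit 0, nat_lit 0, nat_lit 0, nat_lit 0, nat_lit 0, nat_lit 37, nat_lit 1000000, nat_lit 0, nat_lit 0, [(nat_lit 9, [(nat_lit 6, nat_lit 1000)])],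
 ⟨p043_k12, nat_lit 0, nat_lit 0, nat_lit 158, nat_lit 0, nat_lit 229387, [nat_lit 1689600001, nat_lit 0], [], [nat_lit 16341075898, nat_lit 17406738818, nat_lit 15786165362, nat_lit 16841146914, nat_lit 18483981490, nat_lit 19780723184, nat_lit 17907343426, nat_lit 18862642322], nat_lit 1271250, nat_lit 1271250, nat_lit 111251, nat_lit 230001, nat_lit 1271250, nat_lit 1271250, [nat_lit 1100000, nat_lit 1442500], [nat_lit 31, nat_lit 40, nat_lit 40, nat_lit 80, nat_lit 3, nat_lit 215, nat_lit 10, nat_lit 7]⟩, C1.Rw.none,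
 ⟨nat_lit 5477, nat_lit 5917, ⟨.ofNat (nat_lit 178606), .ofNat (nat_lit 217873), .ofNat (nat_lit 189276), .ofNat (nat_lit 228543), .ofNat (nat_lit 194835), .ofNat (nat_lit 232302), .ofNat (nat_lit 205514), .ofNat (nat_lit 242980)⟩, ⟨.ofNat (nat_lit 407818), .ofNat (nat_lit 486351), .ofNat (nat_lit 429157), .ofNat (nat_lit 507691), .ofNat (nat_lit 404075), .ofNat (nat_lit 479008), .ofNat (nat_lit 425432), .ofNat (nat_lit 500365)⟩⟩, [⟨nat_lit 0, nat_lit 100, nat_lit 95, nat_lit 52, nat_lit 264428503⟩, ⟨nat_lit 4, nat_lit 100, nat_lit 100, nat_lit 71, nat_lit 325334777⟩]⟩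
noncomputable def p043_l29 : Lf2 := ⟨nat_lit 0, nat_lit 1, [nat_lit 19, nat_lit 5, nat_lit 5, nat_lit 20], true, nat_lit 280, nat_lit 296, nat_lit 0, nat_lit 220, ⟨nat_lit 0, nat_lit 0, nat_lit 1000, nat_lit 5, nat_lit 76, nat_lit 1000, nat_lit 204, nat_lit 1000, nat_lit 11818, nat_lit 238, nat_lit 54150, nat_lit 272, nat_lit 50302856, nat_lit 0, nat_lit 0, nat_lit 3566129, false, false⟩,
 nat_lit 0, nat_lit 6447, nat_lit 0, nat_lit 474, nat_lit 3752, nat_lit 0, nat_lit 0, nat_lit 0, nat_lit 0, nat_lit 0, nat_lit 0, nat_lit 0, nat_lit 0, nat_lit 0, nat_lit 37, nat_lit 1000000, nat_lit 0, nat_lit 0, [(nat_lit 9, [(nat_lit 6, nat_lit 1000)])],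
 ⟨p043_k13, nat_lit 0, nat_lit 0, nat_lit 138, nat_lit 0, nat_lit 153087, [nat_lit 1689600001, nat_lit 0], [], [nat_lit 18619180398, nat_lit 19096317004, nat_lit 18508473121, nat_lit 18984733749, nat_lit 19541395540, nat_lit 20152136319, nat_lit 19354164860, nat_lit 19963098083], nat_lit 1271250, nat_lit 1271250, nat_lit 111251, nat_lit 134400, nat_lit 1271250, nat_lit 1271250, [nat_lit 1100000, nat_lit 1442500], [nat_lit 31, nat_lit 40, nat_lit 40, nat_lit 80, nat_lit 3, nat_lit 215, nat_lit 10, nat_lit 7]⟩, C1.Rw.none,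
 ⟨nat_lit 5700, nat_lit 5917, ⟨.ofNat (nat_lit 178606), .ofNat (nat_lit 186460), .ofNat (nat_lit 183941), .ofNat (nat_lit 191794), .ofNat (nat_lit 186776), .ofNat (nat_lit 194448), .ofNat (nat_lit 192111), .ofNat (nat_lit 199783)⟩, ⟨.ofNat (nat_lit 486351), .ofNat (nat_lit 517765), .ofNat (nat_lit 507691), .ofNat (nat_lit 539104), .ofNat (nat_lit 482701), .ofNat (nat_lit 513388), .ofNat (nat_lit 504043), .ofNat (nat_lit 534730)⟩⟩, [⟨nat_lit 0, nat_lit 100, nat_lit 96, nat_lit 48, nat_lit 354587691⟩, ⟨nat_lit 16, nat_lit 100, nat_lit 92, nat_lit 75, nat_lit 341626972⟩]⟩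
noncomputable def p043_l30 : Lf2 := ⟨nat_lit 0, nat_lit 1, [nat_lit 19, nat_lit 5, nat_lit 5, nat_lit 20], true, nat_lit 280, nat_lit 296, nat_lit 0, nat_lit 220, ⟨nat_lit 0, nat_lit 0, nat_lit 1000, nat_lit 5, nat_lit 77, nat_lit 1000, nat_lit 205, nat_lit 1000, nat_lit 11818, nat_lit 238, nat_lit 56067, nat_lit 273, nat_lit 50190273, nat_lit 0, nat_lit 0, nat_lit 3588796, false, false⟩,
 nat_lit 0, nat_lit 6447, nat_lit 0, nat_lit 0, nat_lit 3752, nat_lit 0, nat_lit 0, nat_lit 0, nat_lit 0, nat_lit 0, nat_lit 0, nat_lit 0, nat_lit 0, nat_lit 0, nat_lit 37, nat_lit 1000000, nat_lit 0, nat_lit 0, [(nat_lit 9, [(nat_lit 6, nat_lit 1000)])],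
 ⟨p043_k13, nat_lit 0, nat_lit 0, nat_lit 135, nat_lit 0, nat_lit 145698, [nat_lit 1689600001, nat_lit 0], [], [nat_lit 18619180398, nat_lit 18857748701, nat_lit 18508473121, nat_lit 18746603435, nat_lit 19541395540, nat_lit 19846765929, nat_lit 19354164860, nat_lit 19657931293], nat_lit 1271250, nat_lit 1271250, nat_lit 111251, nat_lit 134400, nat_lit 1271250, nat_lit 1271250, [nat_lit 1100000, nat_lit 1442500], [nat_lit 31, nat_lit 40, nat_lit 40, nat_lit 80, nat_lit 3, nat_lit 215, nat_lit 10, nat_lit 7]⟩, C1.Rw.none,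
 ⟨nat_lit 5809, nat_lit 5917, ⟨.ofNat (nat_lit 183941), .ofNat (nat_lit 191794), .ofNat (nat_lit 189276), .ofNat (nat_lit 197129), .ofNat (nat_lit 188041), .ofNat (nat_lit 195803), .ofNat (nat_lit 193376), .ofNat (nat_lit 201138)⟩, ⟨.ofNat (nat_lit 486351), .ofNat (nat_lit 517765), .ofNat (nat_lit 507691), .ofNat (nat_lit 539104), .ofNat (nat_lit 484530), .ofNat (nat_lit 515579), .ofNat (nat_lit 505870), .ofNat (nat_lit 536919)⟩⟩, [⟨nat_lit 0, nat_lit 100, nat_lit 97, nat_lit 49, nat_lit 1064687716⟩, ⟨nat_lit 16, nat_lit 100, nat_lit 92, nat_lit 75, nat_lit 341116511⟩]⟩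
noncomputable def p043_l31 : Lf2 := ⟨nat_lit 0, nat_lit 2, [nat_lit 10, nat_lit 5, nat_lit 5, nat_lit 20], true, nat_lit 280, nat_lit 296, nat_lit 0, nat_lit 220, ⟨nat_lit 0, nat_lit 0, nat_lit 1000, nat_lit 5, nat_lit 77, nat_lit 1000, nat_lit 204, nat_lit 1000, nat_lit 11818, nat_lit 238, nat_lit 56067, nat_lit 273, nat_lit 50244438, nat_lit 0, nat_lit 0, nat_lit 3581208, false, false⟩,
 nat_lit 0, nat_lit 6688, nat_lit 0, nat_lit 4554, nat_lit 3892, nat_lit 0, nat_lit 0, nat_lit 0, nat_lit 0, nat_lit 0, nat_lit 0, nat_lit 0, nat_lit 0, nat_lit 0, nat_lit 37, nat_lit 1000000, nat_lit 0, nat_lit 0, [(nat_lit 9, [(nat_lit 6, nat_lit 1000)])],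
 ⟨p043_k12, nat_lit 0, nat_lit 0, nat_lit 131, nat_lit 0, nat_lit 127436, [nat_lit 1689600001, nat_lit 0], [], [nat_lit 18514686696, nat_lit 19166793292, nat_lit 18320254909, nat_lit 18970068964, nat_lit 19689406284, nat_lit 20309830107, nat_lit 19491893871, nat_lit 20111911962], nat_lit 1271250, nat_lit 1271250, nat_lit 111251, nat_lit 134400, nat_lit 1271250, nat_lit 1271250, [nat_lit 1100000, nat_lit 1442500], [nat_lit 31, nat_lit 40, nat_lit 40, nat_lit 80, nat_lit 3, nat_lit 215, nat_lit 10, nat_lit 7]⟩, C1.Rw.none,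
 ⟨nat_lit 5700, nat_lit 5917, ⟨.ofNat (nat_lit 178606), .ofNat (nat_lit 186460), .ofNat (nat_lit 189276), .ofNat (nat_lit 197129), .ofNat (nat_lit 186776), .ofNat (nat_lit 194448), .ofNat (nat_lit 197447), .ofNat (nat_lit 205119)⟩, ⟨.ofNat (nat_lit 486351), .ofNat (nat_lit 517765), .ofNat (nat_lit 507691), .ofNat (nat_lit 539104), .ofNat (nat_lit 482701), .ofNat (nat_lit 513388), .ofNat (nat_lit 504043), .ofNat (nat_lit 534730)⟩⟩, [⟨nat_lit 0, nat_lit 100, nat_lit 96, nat_lit 49, nat_lit 1416664394⟩, ⟨nat_lit 16, nat_lit 100, nat_lit 98, nat_lit 70, nat_lit 512372911⟩]⟩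
noncomputable def p043_l32 : Lf2 := ⟨nat_lit 0, nat_lit 1, [nat_lit 19, nat_lit 5, nat_lit 5, nat_lit 20], true, nat_lit 280, nat_lit 296, nat_lit 0, nat_lit 228, ⟨nat_lit 0, nat_lit 0, nat_lit 1000, nat_lit 5, nat_lit 78, nat_lit 1000, nat_lit 205, nat_lit 1000, nat_lit 11818, nat_lit 238, nat_lit 58017, nat_lit 274, nat_lit 50135818, nat_lit 0, nat_lit 0, nat_lit 3602725, false, false⟩,
 nat_lit 0, nat_lit 6447, nat_lit 0, nat_lit 316, nat_lit 3752, nat_lit 0, nat_lit 0, nat_lit 0, nat_lit 0, nat_lit 0, nat_lit 0, nat_lit 0, nat_lit 0, nat_lit 0, nat_lit 37, nat_lit 1000000, nat_lit 0, nat_lit 0, [(nat_lit 9, [(nat_lit 6, nat_lit 1000)])],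
 ⟨p043_k13, nat_lit 0, nat_lit 0, nat_lit 125, nat_lit 0, nat_lit 126438, [nat_lit 1689600001, nat_lit 0], [], [nat_lit 18508473121, nat_lit 18746603435, nat_lit 18397765843, nat_lit 18635458168, nat_lit 19354164860, nat_lit 19657931293, nat_lit 19241744137, nat_lit 19469559942], nat_lit 1271250, nat_lit 1271250, nat_lit 134400, nat_lit 157850, nat_lit 1271250, nat_lit 1271250, [nat_lit 1100000, nat_lit 1442500], [nat_lit 31, nat_lit 40, nat_lit 40, nat_lit 80, nat_lit 3, nat_lit 215, nat_lit 10, nat_lit 7]⟩, C1.Rw.none,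
 ⟨nat_lit 5809, nat_lit 5917, ⟨.ofNat (nat_lit 186460), .ofNat (nat_lit 194313), .ofNat (nat_lit 191794), .ofNat (nat_lit 199648), .ofNat (nat_lit 190468), .ofNat (nat_lit 198231), .ofNat (nat_lit 195803), .ofNat (nat_lit 203565)⟩, ⟨.ofNat (nat_lit 486351), .ofNat (nat_lit 517765), .ofNat (nat_lit 507691), .ofNat (nat_lit 539104), .ofNat (nat_lit 484530), .ofNat (nat_lit 515579), .ofNat (nat_lit 505870), .ofNat (nat_lit 536919)⟩⟩, [⟨nat_lit 16, nat_lit 100, nat_lit 92, nat_lit 75, nat_lit 341116511⟩]⟩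
noncomputable def p043_l33 : Lf2 := ⟨nat_lit 0, nat_lit 1, [nat_lit 19, nat_lit 5, nat_lit 5, nat_lit 20], false, nat_lit 280, nat_lit 296, nat_lit 0, nat_lit 80, ⟨nat_lit 1000, nat_lit 0, nat_lit 0, nat_lit 0, nat_lit 0, nat_lit 0, nat_lit 0, nat_lit 0, nat_lit 0, nat_lit 0, nat_lit 0, nat_lit 0, nat_lit 0, nat_lit 0, nat_lit 0, nat_lit 0, false, false⟩,
 nat_lit 19609, nat_lit 0, nat_lit 0, nat_lit 4262, nat_lit 7448, nat_lit 10127, nat_lit 2449, nat_lit 0, nat_lit 0, nat_lit 3543, nat_lit 0, nat_lit 0, nat_lit 0, nat_lit 0, nat_lit 0, nat_lit 0, nat_lit 0, nat_lit 0, [],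
 ⟨p043_k13, nat_lit 0, nat_lit 0, nat_lit 127, nat_lit 0, nat_lit 135481, [nat_lit 4688000000, nat_lit 6250000000], [], [nat_lit 21329162912, nat_lit 21604767901, nat_lit 21054775897, nat_lit 21233713131, nat_lit 23025779818, nat_lit 23285581221, nat_lit 22602680455, nat_lit 22862371318], nat_lit 1271250, nat_lit 1271250, nat_lit 134400, nat_lit 157850, nat_lit 1271250, nat_lit 1271250, [nat_lit 1100000, nat_lit 1442500], [nat_lit 31, nat_lit 40, nat_lit 40, nat_lit 80, nat_lit 3, nat_lit 215, nat_lit 10, nat_lit 7]⟩, ⟨p043_k14, nat_lit 0, nat_lit 0, nat_lit 272, nat_lit 0, nat_lit 155677, [nat_lit 6250000000, nat_lit 7968000000], [], [nat_lit 18972992261, nat_lit 19426063596, nat_lit 18517476378, nat_lit 18970086231, nat_lit 12955138171, nat_lit 13384595994, nat_lit 12564282461, nat_lit 12993020104], nat_lit 1271250, nat_lit 1271250, nat_lit 134400, nat_lit 157850, nat_lit 0, nat_lit 490000, [nat_lit 1412500,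 nat_lit 1271250], [nat_lit 26, nat_lit 40, nat_lit 40, nat_lit 80, nat_lit 2, nat_lit 317, nat_lit 100, nat_lit 11]⟩,
 zbF0, [⟨nat_lit 0, nat_lit 100, nat_lit 97, nat_lit 49, nat_lit 1482429543⟩, ⟨nat_lit 4, nat_lit 96, nat_lit 100, nat_lit 70, nat_lit 1111636703⟩]⟩
noncomputable def p043_l34 : Lf2 := ⟨nat_lit 0, nat_lit 1, [nat_lit 19, nat_lit 5, nat_lit 5, nat_lit 20], false, nat_lit 280, nat_lit 296, nat_lit 80, nat_lit 160, ⟨nat_lit 1000, nat_lit 0, nat_lit 0, nat_lit 0, nat_lit 0, nat_lit 0, nat_lit 0, nat_lit 0, nat_lit 0, nat_lit 0, nat_lit 0, nat_lit 0, nat_lit 0, nat_lit 0, nat_lit 0, nat_lit 0, false, false⟩,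
 nat_lit 29427, nat_lit 0, nat_lit 0, nat_lit 0, nat_lit 7170, nat_lit 15198, nat_lit 3181, nat_lit 0, nat_lit 0, nat_lit 3034, nat_lit 0, nat_lit 0, nat_lit 0, nat_lit 0, nat_lit 0, nat_lit 0, nat_lit 0, nat_lit 0, [],
 ⟨p043_k13, nat_lit 0, nat_lit 0, nat_lit 127, nat_lit 0, nat_lit 135481, [nat_lit 4688000000, nat_lit 6250000000], [], [nat_lit 21094107748, nat_lit 21363133887, nat_lit 20832006914, nat_lit 21022690855, nat_lit 22749508644, nat_lit 23003540846, nat_lit 22344045156, nat_lit 22597965944], nat_lit 1271250, nat_lit 1271250, nat_lit 134400, nat_lit 157850, nat_lit 1271250, nat_lit 1271250, [nat_lit 1100000, nat_lit 1442500], [nat_lit 31, nat_lit 40, nat_lit 40, nat_lit 80, nat_lit 3, nat_lit 215, nat_lit 10, nat_lit 7]⟩, ⟨p043_k14, nat_lit 0, nat_lit 0, nat_lit 232, nat_lit 0, nat_lit 155677, [nat_lit 6250000000, nat_lit 7968000000], [], [nat_lit 7928703380, nat_lit 8827380213, nat_lit 7168038955,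 nat_lit 7835579119, nat_lit 7362865440, nat_lit 8206296736, nat_lit 6642721812, nat_lit 7285522484], nat_lit 1271250, nat_lit 1271250, nat_lit 134400, nat_lit 157850, nat_lit 490000, nat_lit 1100001, [nat_lit 1412500, nat_lit 1271250], [nat_lit 26, nat_lit 40, nat_lit 40, nat_lit 80, nat_lit 2, nat_lit 345, nat_lit 125, nat_lit 12]⟩,
 zbF0, [⟨nat_lit 0, nat_lit 100, nat_lit 97, nat_lit 49, nat_lit 2308379626⟩, ⟨nat_lit 4, nat_lit 96, nat_lit 100, nat_lit 70, nat_lit 1631378469⟩]⟩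
noncomputable def p043_l35 : Lf2 := ⟨nat_lit 0, nat_lit 1, [nat_lit 19, nat_lit 5, nat_lit 5, nat_lit 20], false, nat_lit 280, nat_lit 296, nat_lit 160, nat_lit 228, ⟨nat_lit 1000, nat_lit 0, nat_lit 0, nat_lit 0, nat_lit 0, nat_lit 0, nat_lit 0, nat_lit 0, nat_lit 0, nat_lit 0, nat_lit 0, nat_lit 0, nat_lit 0, nat_lit 0, nat_lit 0, nat_lit 0, false, false⟩,
 nat_lit 12398, nat_lit 0, nat_lit 19970, nat_lit 0, nat_lit 7216, nat_lit 16717, nat_lit 3182, nat_lit 0, nat_lit 0, nat_lit 2119, nat_lit 0, nat_lit 0, nat_lit 0, nat_lit 0, nat_lit 0, nat_lit 0, nat_lit 0, nat_lit 0, [],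
 ⟨p043_k13, nat_lit 0, nat_lit 0, nat_lit 127, nat_lit 0, nat_lit 135481, [nat_lit 4688000000, nat_lit 6250000000], [], [nat_lit 21132585760, nat_lit 21403116494, nat_lit 20767735438, nat_lit 20996228137, nat_lit 22795222580, nat_lit 23050209397, nat_lit 22386840925, nat_lit 22641716474], nat_lit 1271250, nat_lit 1271250, nat_lit 134400, nat_lit 157850, nat_lit 1271250, nat_lit 1271250, [nat_lit 1100000, nat_lit 1442500], [nat_lit 31, nat_lit 40, nat_lit 40, nat_lit 80, nat_lit 3, nat_lit 215, nat_lit 10, nat_lit 7]⟩, ⟨p043_k14, nat_lit 0, nat_lit 0, nat_lit 192, nat_lit 0, nat_lit 155677, [nat_lit 6250000000, nat_lit 7968000000], [], [nat_lit 7407293869, nat_lit 8028964945, nat_lit 6608669116, nat_lit 7229841578, nat_lit 16678901086, nat_lit 16285281639, nat_lit 16664308601, nat_lit 15283327661], nat_lit 1271250, nat_lit 1271250, nat_lit 134400, nat_lit 157850, nat_lit 1100001, nat_lit 1682250, [nat_lit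 1412500, nat_lit 1271250], [nat_lit 26, nat_lit 40, nat_lit 40, nat_lit 80, nat_lit 2, nat_lit 345, nat_lit 125, nat_lit 11]⟩,
 zbF0, [⟨nat_lit 4, nat_lit 96, nat_lit 100, nat_lit 70, nat_lit 1927527519⟩, ⟨nat_lit 23, nat_lit 92, nat_lit 100, nat_lit 51, nat_lit 1724682900⟩]⟩
noncomputable def p043_l36 : Lf2 := ⟨nat_lit 0, nat_lit 1, [nat_lit 19, nat_lit 5, nat_lit 5, nat_lit 20], true, nat_lit 280, nat_lit 292, nat_lit 0, nat_lit 228, ⟨nat_lit 0, nat_lit 0, nat_lit 1000, nat_lit 5, nat_lit 81, nat_lit 1000, nat_lit 203, nat_lit 1000, nat_lit 16636, nat_lit 243, nat_lit 60000, nat_lit 275, nat_lit 50167456, nat_lit 0, nat_lit 0, nat_lit 3621960, false, false⟩,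
 nat_lit 0, nat_lit 6440, nat_lit 0, nat_lit 0, nat_lit 3800, nat_lit 0, nat_lit 0, nat_lit 0, nat_lit 0, nat_lit 0, nat_lit 0, nat_lit 0, nat_lit 0, nat_lit 0, nat_lit 37, nat_lit 1000000, nat_lit 0, nat_lit 0, [(nat_lit 9, [(nat_lit 6, nat_lit 1000)])],
 ⟨p043_k15, nat_lit 0, nat_lit 0, nat_lit 128, nat_lit 0, nat_lit 143413, [nat_lit 1689600001, nat_lit 0], [], [nat_lit 18587503013, nat_lit 18683210913, nat_lit 18474398927, nat_lit 18569930598, nat_lit 19296914987, nat_lit 19421197644, nat_lit 19106256911, nat_lit 19229625073], nat_lit 1271250, nat_lit 1271250, nat_lit 134400, nat_lit 157850, nat_lit 1271250, nat_lit 1271250, [nat_lit 1100000, nat_lit 1442500], [nat_lit 31, nat_lit 40, nat_lit 40, nat_lit 80, nat_lit 3, nat_lit 215, nat_lit 10, nat_lit 7]⟩, C1.Rw.none,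
 ⟨nat_lit 5809, nat_lit 5853, ⟨.ofNat (nat_lit 194203), .ofNat (nat_lit 202002), .ofNat (nat_lit 199538), .ofNat (nat_lit 207336), .ofNat (nat_lit 195803), .ofNat (nat_lit 203565), .ofNat (nat_lit 201138), .ofNat (nat_lit 208900)⟩, ⟨.ofNat (nat_lit 485260), .ofNat (nat_lit 508656), .ofNat (nat_lit 506599), .ofNat (nat_lit 529994), .ofNat (nat_lit 484530), .ofNat (nat_lit 507817), .ofNat (nat_lit 505870), .ofNat (nat_lit 529156)⟩⟩, [⟨nat_lit 0, nat_lit 100, nat_lit 96, nat_lit 50, nat_lit 358314273⟩, ⟨nat_lit 16, nat_lit 100, nat_lit 94, nat_lit 75, nat_lit 339271768⟩]⟩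
noncomputable def p043_l37 : Lf2 := ⟨nat_lit 0, nat_lit 1, [nat_lit 19, nat_lit 5, nat_lit 5, nat_lit 20], true, nat_lit 280, nat_lit 292, nat_lit 0, nat_lit 228, ⟨nat_lit 0, nat_lit 0, nat_lit 1000, nat_lit 5, nat_lit 81, nat_lit 1000, nat_lit 202, nat_lit 1000, nat_lit 14600, nat_lit 243, nat_lit 60000, nat_lit 275, nat_lit 50219417, nat_lit 0, nat_lit 0, nat_lit 3617112, false, false⟩,
 nat_lit 0, nat_lit 6358, nat_lit 0, nat_lit 0, nat_lit 3786, nat_lit 0, nat_lit 0, nat_lit 0, nat_lit 0, nat_lit 0, nat_lit 0, nat_lit 0, nat_lit 0, nat_lit 0, nat_lit 37, nat_lit 1000000, nat_lit 0, nat_lit 0, [(nat_lit 9, [(nat_lit 6, nat_lit 1000)])],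
 ⟨p043_k16, nat_lit 0, nat_lit 0, nat_lit 137, nat_lit 0, nat_lit 167440, [nat_lit 1689600001, nat_lit 0], [], [nat_lit 18701700398, nat_lit 18940637813, nat_lit 18589042806, nat_lit 18827540399, nat_lit 19407304938, nat_lit 19717516713, nat_lit 19216950233, nat_lit 19526617893], nat_lit 1271250, nat_lit 1271250, nat_lit 134400, nat_lit 157850, nat_lit 1271250, nat_lit 1271250, [nat_lit 1100000, nat_lit 1442500], [nat_lit 31, nat_lit 40, nat_lit 40, nat_lit 80, nat_lit 3, nat_lit 215, nat_lit 10, nat_lit 7]⟩, C1.Rw.none,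
 ⟨nat_lit 5700, nat_lit 5810, ⟨.ofNat (nat_lit 190468), .ofNat (nat_lit 198231), .ofNat (nat_lit 201138), .ofNat (nat_lit 208900), .ofNat (nat_lit 194448), .ofNat (nat_lit 202120), .ofNat (nat_lit 205119), .ofNat (nat_lit 212791)⟩, ⟨.ofNat (nat_lit 484530), .ofNat (nat_lit 507817), .ofNat (nat_lit 505870), .ofNat (nat_lit 529156), .ofNat (nat_lit 482701), .ofNat (nat_lit 505716), .ofNat (nat_lit 504043), .ofNat (nat_lit 527058)⟩⟩, [⟨nat_lit 0, nat_lit 100, nat_lit 96, nat_lit 50, nat_lit 356184413⟩, ⟨nat_lit 16, nat_lit 100, nat_lit 95, nat_lit 76, nat_lit 334698997⟩]⟩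
noncomputable def p043_l38 : Lf2 := ⟨nat_lit 0, nat_lit 1, [nat_lit 19, nat_lit 5, nat_lit 5, nat_lit 20], true, nat_lit 280, nat_lit 296, nat_lit 0, nat_lit 236, ⟨nat_lit 0, nat_lit 0, nat_lit 1000, nat_lit 5, nat_lit 83, nat_lit 1000, nat_lit 204, nat_lit 1000, nat_lit 11818, nat_lit 238, nat_lit 64067, nat_lit 277, nat_lit 49898024, nat_lit 0, nat_lit 0, nat_lit 3668215, false, false⟩,
 nat_lit 0, nat_lit 6517, nat_lit 0, nat_lit 0, nat_lit 3793, nat_lit 0, nat_lit 0, nat_lit 0, nat_lit 0, nat_lit 0, nat_lit 0, nat_lit 0, nat_lit 0, nat_lit 0, nat_lit 37, nat_lit 1000000, nat_lit 0, nat_lit 0, [(nat_lit 9, [(nat_lit 6, nat_lit 1000)])],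
 ⟨p043_k13, nat_lit 0, nat_lit 0, nat_lit 137, nat_lit 0, nat_lit 171892, [nat_lit 1689600001, nat_lit 0], [], [nat_lit 18340823317, nat_lit 18818150086, nat_lit 18228294561, nat_lit 18704740934, nat_lit 19202277521, nat_lit 19815040510, nat_lit 19074376660, nat_lit 19623401729], nat_lit 1271250, nat_lit 1271250, nat_lit 157850, nat_lit 181601, nat_lit 1271250, nat_lit 1271250, [nat_lit 1100000, nat_lit 1442500], [nat_lit 31, nat_lit 40, nat_lit 40, nat_lit 80, nat_lit 3, nat_lit 215, nat_lit 10, nat_lit 7]⟩, C1.Rw.none,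
 ⟨nat_lit 5700, nat_lit 5917, ⟨.ofNat (nat_lit 194313), .ofNat (nat_lit 202166), .ofNat (nat_lit 204983), .ofNat (nat_lit 212836), .ofNat (nat_lit 202120), .ofNat (nat_lit 209792), .ofNat (nat_lit 212791), .ofNat (nat_lit 220462)⟩, ⟨.ofNat (nat_lit 486351), .ofNat (nat_lit 517765), .ofNat (nat_lit 507691), .ofNat (nat_lit 539104), .ofNat (nat_lit 482701), .ofNat (nat_lit 513388), .ofNat (nat_lit 504043), .ofNat (nat_lit 534730)⟩⟩, [⟨nat_lit 16, nat_lit 100, nat_lit 92, nat_lit 75, nat_lit 348465450⟩]⟩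
noncomputable def p043_l39 : Lf2 := ⟨nat_lit 0, nat_lit 2, [nat_lit 10, nat_lit 5, nat_lit 5, nat_lit 20], true, nat_lit 280, nat_lit 296, nat_lit 0, nat_lit 236, ⟨nat_lit 0, nat_lit 0, nat_lit 1000, nat_lit 5, nat_lit 81, nat_lit 1000, nat_lit 204, nat_lit 1000, nat_lit 11818, nat_lit 238, nat_lit 62017, nat_lit 276, nat_lit 49985636, nat_lit 0, nat_lit 0, nat_lit 3646586, false, false⟩,
 nat_lit 0, nat_lit 6688, nat_lit 0, nat_lit 4185, nat_lit 3892, nat_lit 0, nat_lit 0, nat_lit 0, nat_lit 0, nat_lit 0, nat_lit 0, nat_lit 0, nat_lit 0, nat_lit 0, nat_lit 37, nat_lit 1000000, nat_lit 0, nat_lit 0, [(nat_lit 9, [(nat_lit 6, nat_lit 1000)])],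
 ⟨p043_k12, nat_lit 0, nat_lit 0, nat_lit 127, nat_lit 0, nat_lit 127436, [nat_lit 1689600001, nat_lit 0], [], [nat_lit 18320254909, nat_lit 18970068964, nat_lit 18086400990, nat_lit 18576620308, nat_lit 19491893871, nat_lit 20111911962, nat_lit 19096869045, nat_lit 19716075673], nat_lit 1271250, nat_lit 1271250, nat_lit 134400, nat_lit 181601, nat_lit 1271250, nat_lit 1271250, [nat_lit 1100000, nat_lit 1442500], [nat_lit 31, nat_lit 40, nat_lit 40, nat_lit 80, nat_lit 3, nat_lit 215, nat_lit 10, nat_lit 7]⟩, C1.Rw.none,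
 ⟨nat_lit 5700, nat_lit 5917, ⟨.ofNat (nat_lit 186460), .ofNat (nat_lit 202166), .ofNat (nat_lit 197129), .ofNat (nat_lit 212836), .ofNat (nat_lit 194448), .ofNat (nat_lit 209792), .ofNat (nat_lit 205119), .ofNat (nat_lit 220462)⟩, ⟨.ofNat (nat_lit 486351), .ofNat (nat_lit 517765), .ofNat (nat_lit 507691), .ofNat (nat_lit 539104), .ofNat (nat_lit 482701), .ofNat (nat_lit 513388), .ofNat (nat_lit 504043), .ofNat (nat_lit 534730)⟩⟩, [⟨nat_lit 0, nat_lit 100, nat_lit 96, nat_lit 49, nat_lit 262520078⟩, ⟨nat_lit 16, nat_lit 100, nat_lit 98, nat_lit 70, nat_lit 366108172⟩, ⟨nat_lit 16, nat_lit 100, nat_lit 92, nat_lit 75, nat_lit 136513756⟩]⟩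
noncomputable def p043_l40 : Lf2 := ⟨nat_lit 0, nat_lit 2, [nat_lit 10, nat_lit 5, nat_lit 5, nat_lit 20], true, nat_lit 280, nat_lit 296, nat_lit 0, nat_lit 248, ⟨nat_lit 0, nat_lit 0, nat_lit 1000, nat_lit 5, nat_lit 88, nat_lit 1000, nat_lit 204, nat_lit 1000, nat_lit 11818, nat_lit 238, nat_lit 72600, nat_lit 281, nat_lit 49631349, nat_lit 0, nat_lit 0, nat_lit 3732565, false, false⟩,
 nat_lit 0, nat_lit 6599, nat_lit 0, nat_lit 0, nat_lit 3841, nat_lit 0, nat_lit 0, nat_lit 0, nat_lit 0, nat_lit 0, nat_lit 0, nat_lit 0, nat_lit 0, nat_lit 0, nat_lit 37, nat_lit 1000000, nat_lit 0, nat_lit 0, [(nat_lit 9, [(nat_lit 6, nat_lit 1000)])],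
 ⟨p043_k12, nat_lit 0, nat_lit 0, nat_lit 134, nat_lit 0, nat_lit 174332, [nat_lit 1689600001, nat_lit 0], [], [nat_lit 18159497678, nat_lit 18638212579, nat_lit 17930175241, nat_lit 18407119007, nat_lit 19052656921, nat_lit 19668334551, nat_lit 18777257053, nat_lit 19278967909], nat_lit 1271250, nat_lit 1271250, nat_lit 181601, nat_lit 230001, nat_lit 1271250, nat_lit 1271250, [nat_lit 1100000, nat_lit 1442500], [nat_lit 31, nat_lit 40, nat_lit 40, nat_lit 80, nat_lit 3, nat_lit 215, nat_lit 10, nat_lit 7]⟩, C1.Rw.none,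
 ⟨nat_lit 5700, nat_lit 5917, ⟨.ofNat (nat_lit 202166), .ofNat (nat_lit 217873), .ofNat (nat_lit 212836), .ofNat (nat_lit 228543), .ofNat (nat_lit 209792), .ofNat (nat_lit 225135), .ofNat (nat_lit 220462), .ofNat (nat_lit 235806)⟩, ⟨.ofNat (nat_lit 486351), .ofNat (nat_lit 517765), .ofNat (nat_lit 507691), .ofNat (nat_lit 539104), .ofNat (nat_lit 482701), .ofNat (nat_lit 513388), .ofNat (nat_lit 504043), .ofNat (nat_lit 534730)⟩⟩, [⟨nat_lit 16, nat_lit 100, nat_lit 92, nat_lit 75, nat_lit 361764735⟩]⟩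
noncomputable def p043_l41 : Lf2 := ⟨nat_lit 0, nat_lit 2, [nat_lit 10, nat_lit 5, nat_lit 5, nat_lit 20], true, nat_lit 280, nat_lit 288, nat_lit 0, nat_lit 248, ⟨nat_lit 0, nat_lit 0, nat_lit 1000, nat_lit 5, nat_lit 88, nat_lit 1000, nat_lit 200, nat_lit 1000, nat_lit 22024, nat_lit 249, nat_lit 72600, nat_lit 281, nat_lit 50086243, nat_lit 0, nat_lit 0, nat_lit 3686734, false, false⟩,
 nat_lit 0, nat_lit 6157, nat_lit 0, nat_lit 0, nat_lit 3749, nat_lit 0, nat_lit 0, nat_lit 0, nat_lit 0, nat_lit 0, nat_lit 0, nat_lit 0, nat_lit 0, nat_lit 0, nat_lit 37, nat_lit 1000000, nat_lit 0, nat_lit 0, [(nat_lit 9, [(nat_lit 6, nat_lit 1000)])],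
 ⟨p043_k17, nat_lit 0, nat_lit 0, nat_lit 154, nat_lit 0, nat_lit 217688, [nat_lit 1689600001, nat_lit 0], [], [nat_lit 18988624567, nat_lit 19479095076, nat_lit 18542825953, nat_lit 19015441532, nat_lit 19401423885, nat_lit 20024565173, nat_lit 18952341569, nat_lit 19415192729], nat_lit 1271250, nat_lit 1271250, nat_lit 134400, nat_lit 230001, nat_lit 1271250, nat_lit 1271250, [nat_lit 1100000, nat_lit 1442500], [nat_lit 31, nat_lit 40, nat_lit 40, nat_lit 80, nat_lit 3, nat_lit 215, nat_lit 10, nat_lit 7]⟩, C1.Rw.none,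
 ⟨nat_lit 5477, nat_lit 5701, ⟨.ofNat (nat_lit 194448), .ofNat (nat_lit 225135), .ofNat (nat_lit 205119), .ofNat (nat_lit 235806), .ofNat (nat_lit 202329), .ofNat (nat_lit 232302), .ofNat (nat_lit 213007), .ofNat (nat_lit 242980)⟩, ⟨.ofNat (nat_lit 482701), .ofNat (nat_lit 498045), .ofNat (nat_lit 504043), .ofNat (nat_lit 519387), .ofNat (nat_lit 479008), .ofNat (nat_lit 493995), .ofNat (nat_lit 500365), .ofNat (nat_lit 515352)⟩⟩, [⟨nat_lit 0, nat_lit 100, nat_lit 94, nat_lit 54, nat_lit 259646617⟩, ⟨nat_lit 16, nat_lit 100, nat_lit 97, nat_lit 76, nat_lit 327807762⟩]⟩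
noncomputable def p043_l42 : Lf2 := ⟨nat_lit 0, nat_lit 5, [nat_lit 4, nat_lit 5, nat_lit 5, nat_lit 20], true, nat_lit 240, nat_lit 296, nat_lit 0, nat_lit 288, ⟨nat_lit 0, nat_lit 0, nat_lit 1000, nat_lit 5, nat_lit 81, nat_lit 1000, nat_lit 188, nat_lit 1000, nat_lit 11818, nat_lit 238, nat_lit 62017, nat_lit 276, nat_lit 51600027, nat_lit 0, nat_lit 0, nat_lit 3473111, false, false⟩,
 nat_lit 0, nat_lit 7292, nat_lit 0, nat_lit 2061, nat_lit 4244, nat_lit 0, nat_lit 0, nat_lit 0, nat_lit 0, nat_lit 0, nat_lit 0, nat_lit 0, nat_lit 0, nat_lit 0, nat_lit 55, nat_lit 400000, nat_lit 0, nat_lit 0, [(nat_lit 9, [(nat_lit 5, nat_lit 1000)])],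
 ⟨p043_k18, nat_lit 0, nat_lit 0, nat_lit 169, nat_lit 0, nat_lit 150905, [nat_lit 2406400000, nat_lit 19600000], [], [nat_lit 16731265317, nat_lit 17843628484, nat_lit 15963333640, nat_lit 17062214288, nat_lit 20281390312, nat_lit 21571733923, nat_lit 19058771211, nat_lit 20247853031], nat_lit 1271250, nat_lit 1271250, nat_lit 88400, nat_lit 230001, nat_lit 1271250, nat_lit 1271250, [nat_lit 1100000, nat_lit 1785000], [nat_lit 39, nat_lit 40, nat_lit 40, nat_lit 80, nat_lit 7, nat_lit 215, nat_lit 10, nat_lit 7]⟩, C1.Rw.none,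
 ⟨nat_lit 5477, nat_lit 5917, ⟨.ofNat (nat_lit 160083), .ofNat (nat_lit 207203), .ofNat (nat_lit 181423), .ofNat (nat_lit 228543), .ofNat (nat_lit 176664), .ofNat (nat_lit 221623), .ofNat (nat_lit 198021), .ofNat (nat_lit 242980)⟩, ⟨.ofNat (nat_lit 407818), .ofNat (nat_lit 517765), .ofNat (nat_lit 429157), .ofNat (nat_lit 539104), .ofNat (nat_lit 404075), .ofNat (nat_lit 508982), .ofNat (nat_lit 425432), .ofNat (nat_lit 530339)⟩⟩, [⟨nat_lit 0, nat_lit 100, nat_lit 95, nat_lit 49, nat_lit 379841159⟩, ⟨nat_lit 4, nat_lit 100, nat_lit 100, nat_lit 71, nat_lit 372805059⟩]⟩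
noncomputable def p043_l43 : Lf2 := ⟨nat_lit 0, nat_lit 5, [nat_lit 4, nat_lit 5, nat_lit 5, nat_lit 20], true, nat_lit 240, nat_lit 296, nat_lit 0, nat_lit 332, ⟨nat_lit 0, nat_lit 0, nat_lit 1000, nat_lit 5, nat_lit 105, nat_lit 1000, nat_lit 188, nat_lit 1000, nat_lit 11818, nat_lit 238, nat_lit 104017, nat_lit 294, nat_lit 50075600, nat_lit 0, nat_lit 0, nat_lit 3813399, false, false⟩,
 nat_lit 0, nat_lit 6850, nat_lit 0, nat_lit 0, nat_lit 3987, nat_lit 0, nat_lit 0, nat_lit 0, nat_lit 0, nat_lit 0, nat_lit 0, nat_lit 0, nat_lit 0, nat_lit 0, nat_lit 117, nat_lit 1000000, nat_lit 0, nat_lit 0, [(nat_lit 9, [(nat_lit 6, nat_lit 1000)])],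
 ⟨p043_k18, nat_lit 0, nat_lit 0, nat_lit 174, nat_lit 0, nat_lit 239020, [nat_lit 3178400000, nat_lit 158133334], [], [nat_lit 15974031970, nat_lit 17043835124, nat_lit 15770050518, nat_lit 16800299808, nat_lit 18986151015, nat_lit 20022088400, nat_lit 18671833599, nat_lit 19566200090], nat_lit 1271250, nat_lit 1271250, nat_lit 230001, nat_lit 490000, nat_lit 1271250, nat_lit 1271250, [nat_lit 1100000, nat_lit 1785000], [nat_lit 39, nat_lit 40, nat_lit 40, nat_lit 80, nat_lit 7, nat_lit 226, nat_lit 20, nat_lit 7]⟩, C1.Rw.none,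
 ⟨nat_lit 5477, nat_lit 5917, ⟨.ofNat (nat_lit 207203), .ofNat (nat_lit 285737), .ofNat (nat_lit 228543), .ofNat (nat_lit 307076), .ofNat (nat_lit 221623), .ofNat (nat_lit 296556), .ofNat (nat_lit 242980), .ofNat (nat_lit 317913)⟩, ⟨.ofNat (nat_lit 407818), .ofNat (nat_lit 517765), .ofNat (nat_lit 429157), .ofNat (nat_lit 539104), .ofNat (nat_lit 404075), .ofNat (nat_lit 508982), .ofNat (nat_lit 425432), .ofNat (nat_lit 530339)⟩⟩, [⟨nat_lit 4, nat_lit 100, nat_lit 100, nat_lit 71, nat_lit 362309735⟩]⟩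
noncomputable def p043_l44 : Lf2 := ⟨nat_lit 0, nat_lit 5, [nat_lit 4, nat_lit 5, nat_lit 5, nat_lit 20], false, nat_lit 240, nat_lit 296, nat_lit 0, nat_lit 332, ⟨nat_lit 0, nat_lit 0, nat_lit 1000, nat_lit 5, nat_lit 136, nat_lit 1000, nat_lit 188, nat_lit 1000, nat_lit 11818, nat_lit 238, nat_lit 173400, nat_lit 317, nat_lit 47990087, nat_lit 0, nat_lit 0, nat_lit 4197703, false, false⟩,
 nat_lit 0, nat_lit 7062, nat_lit 0, nat_lit 0, nat_lit 4110, nat_lit 0, nat_lit 0, nat_lit 0, nat_lit 0, nat_lit 0, nat_lit 0, nat_lit 0, nat_lit 0, nat_lit 0, nat_lit 117, nat_lit 1000000, nat_lit 0, nat_lit 0, [(nat_lit 9, [(nat_lit 6, nat_lit 1000)])],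
 ⟨p043_k10, nat_lit 0, nat_lit 0, nat_lit 158, nat_lit 0, nat_lit 239020, [nat_lit 2969600000, nat_lit 1600000000, nat_lit 226400000], [], [nat_lit 15106956540, nat_lit 16150326240, nat_lit 15405337040, nat_lit 16398074880, nat_lit 18132095883, nat_lit 19363562368, nat_lit 18205123512, nat_lit 19361981520], nat_lit 1271250, nat_lit 1271250, nat_lit 490000, nat_lit 780000, nat_lit 1271250, nat_lit 1271250, [nat_lit 1100000, nat_lit 1442500, nat_lit 1271250], [nat_lit 9, nat_lit 40, nat_lit 40, nat_lit 80, nat_lit 2, nat_lit 238, nat_lit 30, nat_lit 7]⟩, ⟨p043_k19, nat_lit 0, nat_lit 0, nat_lit 346, nat_lit 0, nat_lit 302444, [nat_lit 0, nat_lit 0, nat_lit 0], [], [nat_lit 0, nat_lit 0, nat_lit 0, nat_lit 0, nat_lit 0, nat_lit 0, nat_lit 0, nat_lit 0], nat_lit 1271250, nat_lit 1271250, nat_lit 490000, nat_lit 780000, nat_lit 0, nat_lit 2344750, [nat_lit 1412500, nat_lit 1271250, nat_lit 1271250], [nat_lit 25,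 nat_lit 40, nat_lit 40, nat_lit 80, nat_lit 17, nat_lit 401, nat_lit 175, nat_lit 12]⟩,
 ⟨nat_lit 5477, nat_lit 5917, ⟨.ofNat (nat_lit 285737), .ofNat (nat_lit 364271), .ofNat (nat_lit 307076), .ofNat (nat_lit 385610), .ofNat (nat_lit 296556), .ofNat (nat_lit 371489), .ofNat (nat_lit 317913), .ofNat (nat_lit 392847)⟩, ⟨.ofNat (nat_lit 407818), .ofNat (nat_lit 517765), .ofNat (nat_lit 429157), .ofNat (nat_lit 539104), .ofNat (nat_lit 404075), .ofNat (nat_lit 508982), .ofNat (nat_lit 425432), .ofNat (nat_lit 530339)⟩⟩, [⟨nat_lit 16, nat_lit 100, nat_lit 100, nat_lit 71, nat_lit 388337075⟩]⟩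
noncomputable def p043_l45 : Lf2 := ⟨nat_lit 0, nat_lit 8, [nat_lit 50, nat_lit 5, nat_lit 5, nat_lit 20], true, nat_lit 240, nat_lit 296, nat_lit 0, nat_lit 344, ⟨nat_lit 0, nat_lit 0, nat_lit 1000, nat_lit 5, nat_lit 104, nat_lit 1000, nat_lit 188, nat_lit 1000, nat_lit 11818, nat_lit 238, nat_lit 101400, nat_lit 293, nat_lit 50153512, nat_lit 0, nat_lit 0, nat_lit 3797375, false, false⟩,
 nat_lit 0, nat_lit 7237, nat_lit 0, nat_lit 5489, nat_lit 4212, nat_lit 0, nat_lit 0, nat_lit 0, nat_lit 0, nat_lit 0, nat_lit 0, nat_lit 0, nat_lit 0, nat_lit 0, nat_lit 115, nat_lit 560200, nat_lit 0, nat_lit 0, [(nat_lit 9, [(nat_lit 5, nat_lit 733), (nat_lit 6, nat_lit 267)])],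
 ⟨p043_k20, nat_lit 0, nat_lit 0, nat_lit 193, nat_lit 0, nat_lit 81940, [nat_lit 3251910400, nat_lit 2089278667, nat_lit 36397333], [], [nat_lit 16883537349, nat_lit 17916324317, nat_lit 15816581968, nat_lit 16819330496, nat_lit 20681154658, nat_lit 21968681918, nat_lit 18645180911, nat_lit 19514877034], nat_lit 1271250, nat_lit 1271250, nat_lit 43600, nat_lit 780000, nat_lit 1271250, nat_lit 1271250, [nat_lit 1100000, nat_lit 1442500, nat_lit 1271250], [nat_lit 11, nat_lit 40, nat_lit 40, nat_lit 80, nat_lit 1, nat_lit 401, nat_lit 175, nat_lit 11]⟩, C1.Rw.none,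
 ⟨nat_lit 5477, nat_lit 5917, ⟨.ofNat (nat_lit 123037), .ofNat (nat_lit 342931), .ofNat (nat_lit 165716), .ofNat (nat_lit 385610), .ofNat (nat_lit 140320), .ofNat (nat_lit 350132), .ofNat (nat_lit 183034), .ofNat (nat_lit 392847)⟩, ⟨.ofNat (nat_lit 407818), .ofNat (nat_lit 517765), .ofNat (nat_lit 429157), .ofNat (nat_lit 539104), .ofNat (nat_lit 404075), .ofNat (nat_lit 508982), .ofNat (nat_lit 425432), .ofNat (nat_lit 530339)⟩⟩, [⟨nat_lit 0, nat_lit 100, nat_lit 94, nat_lit 59, nat_lit 155114260⟩, ⟨nat_lit 4, nat_lit 100, nat_lit 100, nat_lit 71, nat_lit 509343272⟩]⟩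
noncomputable def b_V_600_500_10_15 : St := ⟨true, nat_lit 1, nat_lit 1, nat_lit 1, nat_lit 80, nat_lit 260, nat_lit 280, nat_lit 200, nat_lit 240, nat_lit 8, nat_lit 120, nat_lit 40, nat_lit 60, nat_lit 240, nat_lit 320, nat_lit 0, nat_lit 360, nat_lit 0, nat_lit 32, nat_lit 0, nat_lit 0, nat_lit 0, nat_lit 0⟩
theorem d_V_600_500_10_15 (h : EB TB.env) : Dead b_V_600_500_10_15 := chkB_sound0 h (T :=
(.trX (nat_lit 16) (nat_lit 100) (nat_lit 92) (nat_lit 75) (nat_lit 296) (.trX (nat_lit 19) (nat_lit 100) (nat_lit 70) (nat_lit 71) (nat_lit 344) (.spl (nat_lit 6) (nat_lit 20)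
(.spl (nat_lit 1) (nat_lit 220)
(.leaf p043_l26)
(.trZ (nat_lit 0) (nat_lit 100) (nat_lit 96) (nat_lit 40) (nat_lit 16) (.trX (nat_lit 19) (nat_lit 100) (nat_lit 77) (nat_lit 72) (nat_lit 332) (.spl (nat_lit 2) (nat_lit 80)
(.spl (nat_lit 2) (nat_lit 40)
(.trX (nat_lit 23) (nat_lit 100) (nat_lit 92) (nat_lit 61) (nat_lit 288) (.spl (nat_lit 6) (nat_lit 8)
(.spl (nat_lit 1) (nat_lit 230)
(.leaf p043_l27)
(.trZ (nat_lit 0) (nat_lit 100) (nat_lit 96) (nat_lit 44) (nat_lit 20) (.spl (nat_lit 4) (nat_lit 280)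
(.leaf p043_l28)
(.trX (nat_lit 23) (nat_lit 94) (nat_lit 100) (nat_lit 62) (nat_lit 248) (.spl (nat_lit 0) (nat_lit 270)
(.spl (nat_lit 2) (nat_lit 32)
(.trX (nat_lit 23) (nat_lit 93) (nat_lit 100) (nat_lit 55) (nat_lit 236) (.spl (nat_lit 2) (nat_lit 24)
(.trX (nat_lit 23) (nat_lit 92) (nat_lit 100) (nat_lit 48) (nat_lit 220) (.spl (nat_lit 6) (nat_lit 4)
(.spl (nat_lit 1) (nat_lit 235)
(.leaf p043_l29)
(.spl (nat_lit 0) (nat_lit 265)
(.leaf p043_l30)
(.emL (nat_lit 0) (nat_lit 100) (nat_lit 96) (nat_lit 49))))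
(.leaf p043_l31)))
(.spl (nat_lit 6) (nat_lit 4)
(.spl (nat_lit 2) (nat_lit 28)
(.trX (nat_lit 23) (nat_lit 92) (nat_lit 100) (nat_lit 51) (nat_lit 228) (.spl (nat_lit 0) (nat_lit 265)
(.spl (nat_lit 1) (nat_lit 235)
(.leaf p043_l32)
(.spl (nat_lit 0) (nat_lit 263)
(.spl (nat_lit 5) (nat_lit 80)
(.leaf p043_l33)
(.spl (nat_lit 5) (nat_lit 160)
(.leaf p043_l34)
(.leaf p043_l35)))
(.trX (nat_lit 16) (nat_lit 100) (nat_lit 94) (nat_lit 75) (nat_lit 292) (.leaf p043_l36))))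
(.trX (nat_lit 16) (nat_lit 100) (nat_lit 95) (nat_lit 76) (nat_lit 292) (.leaf p043_l37))))
(.leaf p043_l38))
(.leaf p043_l39))))
(.leaf p043_l40))
(.trZ (nat_lit 0) (nat_lit 100) (nat_lit 95) (nat_lit 49) (nat_lit 24) (.trX (nat_lit 16) (nat_lit 100) (nat_lit 97) (nat_lit 76) (nat_lit 288) (.leaf p043_l41))))))))
(.leaf p043_l42)))
(.leaf p043_l43))
(.leaf p043_l44)))))
(.leaf p043_l45))))) (by decide +kernel)
noncomputable def p043_l46 : Lf2 := ⟨nat_lit 0, nat_lit 4, [nat_lit 38, nat_lit 5, nat_lit 5, nat_lit 20], true, nat_lit 240, nat_lit 280, nat_lit 0, nat_lit 288, ⟨nat_lit 0, nat_lit 0, nat_lit 1000, nat_lit 5, nat_lit 73, nat_lit 1000, nat_lit 191, nat_lit 1000, nat_lit 14293, nat_lit 243, nat_lit 50417, nat_lit 270, nat_lit 51786756, nat_lit 0, nat_lit 0, nat_lit 3393234, false, false⟩,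
 nat_lit 0, nat_lit 7000, nat_lit 0, nat_lit 0, nat_lit 4074, nat_lit 0, nat_lit 0, nat_lit 0, nat_lit 0, nat_lit 0, nat_lit 0, nat_lit 0, nat_lit 0, nat_lit 0, nat_lit 117, nat_lit 1000000, nat_lit 0, nat_lit 0, [(nat_lit 9, [(nat_lit 6, nat_lit 1000)])],
 ⟨p043_k21, nat_lit 0, nat_lit 0, nat_lit 164, nat_lit 0, nat_lit 129767, [nat_lit 3178400000, nat_lit 158133334], [], [nat_lit 16785759411, nat_lit 17882994194, nat_lit 15821460940, nat_lit 16901107448, nat_lit 19303570228, nat_lit 20638136217, nat_lit 17993121046, nat_lit 18968931780], nat_lit 1271250, nat_lit 1271250, nat_lit 43600, nat_lit 230001, nat_lit 1271250, nat_lit 1271250, [nat_lit 1100000, nat_lit 1785000], [nat_lit 39, nat_lit 40, nat_lit 40, nat_lit 80, nat_lit 7, nat_lit 215, nat_lit 10, nat_lit 7]⟩, C1.Rw.none,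
 ⟨nat_lit 5477, nat_lit 5917, ⟨.ofNat (nat_lit 123037), .ofNat (nat_lit 185864), .ofNat (nat_lit 165716), .ofNat (nat_lit 228543), .ofNat (nat_lit 140320), .ofNat (nat_lit 200266), .ofNat (nat_lit 183034), .ofNat (nat_lit 242980)⟩, ⟨.ofNat (nat_lit 429157), .ofNat (nat_lit 507691), .ofNat (nat_lit 450496), .ofNat (nat_lit 529030), .ofNat (nat_lit 425432), .ofNat (nat_lit 500365), .ofNat (nat_lit 446789), .ofNat (nat_lit 521722)⟩⟩, [⟨nat_lit 0, nat_lit 100, nat_lit 94, nat_lit 59, nat_lit 375356497⟩, ⟨nat_lit 4, nat_lit 93, nat_lit 100, nat_lit 81, nat_lit 52434967⟩]⟩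
noncomputable def p043_l47 : Lf2 := ⟨nat_lit 0, nat_lit 2, [nat_lit 10, nat_lit 5, nat_lit 5, nat_lit 20], true, nat_lit 280, nat_lit 320, nat_lit 0, nat_lit 208, ⟨nat_lit 0, nat_lit 1000, nat_lit 0, nat_lit 5, nat_lit 66, nat_lit 1000, nat_lit 221, nat_lit 0, nat_lit 0, nat_lit 0, nat_lit 0, nat_lit 0, nat_lit 49114082, nat_lit 2377565, nat_lit 15508353, nat_lit 3582608, false, false⟩,
 nat_lit 0, nat_lit 8985, nat_lit 0, nat_lit 21966, nat_lit 5229, nat_lit 0, nat_lit 4756, nat_lit 0, nat_lit 0, nat_lit 0, nat_lit 0, nat_lit 0, nat_lit 0, nat_lit 0, nat_lit 0, nat_lit 1000000, nat_lit 0, nat_lit 0, [(nat_lit 9, [(nat_lit 2, nat_lit 1000)])],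
 ⟨p043_k12, nat_lit 0, nat_lit 0, nat_lit 154, nat_lit 0, nat_lit 126458, [nat_lit 2663466667, nat_lit 2329200000], [], [nat_lit 20573980138, nat_lit 22082445237, nat_lit 19830829239, nat_lit 21236740256, nat_lit 24013773667, nat_lit 25321436288, nat_lit 23160361518, nat_lit 24466646304], nat_lit 1271250, nat_lit 1271250, nat_lit 43600, nat_lit 111251, nat_lit 1271250, nat_lit 1271250, [nat_lit 1100000, nat_lit 1442500], [nat_lit 31, nat_lit 40, nat_lit 40, nat_lit 80, nat_lit 3, nat_lit 215, nat_lit 10, nat_lit 7]⟩, C1.Rw.none,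
 ⟨nat_lit 5477, nat_lit 5917, ⟨.ofNat (nat_lit 123037), .ofNat (nat_lit 146597), .ofNat (nat_lit 165716), .ofNat (nat_lit 189276), .ofNat (nat_lit 140320), .ofNat (nat_lit 162800), .ofNat (nat_lit 183034), .ofNat (nat_lit 205514)⟩, ⟨.ofNat (nat_lit 507691), .ofNat (nat_lit 586223), .ofNat (nat_lit 529030), .ofNat (nat_lit 607556), .ofNat (nat_lit 500365), .ofNat (nat_lit 575297), .ofNat (nat_lit 521722), .ofNat (nat_lit 596648)⟩⟩, [⟨nat_lit 0, nat_lit 100, nat_lit 94, nat_lit 44, nat_lit 2922026251⟩, ⟨nat_lit 4, nat_lit 93, nat_lit 100, nat_lit 81, nat_lit 413257503⟩]⟩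
noncomputable def p043_l48 : Lf2 := ⟨nat_lit 0, nat_lit 2, [nat_lit 10, nat_lit 5, nat_lit 5, nat_lit 20], true, nat_lit 280, nat_lit 320, nat_lit 0, nat_lit 248, ⟨nat_lit 0, nat_lit 1000, nat_lit 0, nat_lit 5, nat_lit 74, nat_lit 1000, nat_lit 221, nat_lit 0, nat_lit 0, nat_lit 0, nat_lit 0, nat_lit 0, nat_lit 48714165, nat_lit 2821817, nat_lit 15464018, nat_lit 3694437, false, false⟩,
 nat_lit 0, nat_lit 8747, nat_lit 0, nat_lit 2967, nat_lit 5091, nat_lit 0, nat_lit 868, nat_lit 0, nat_lit 0, nat_lit 0, nat_lit 0, nat_lit 0, nat_lit 0, nat_lit 0, nat_lit 0, nat_lit 1000000, nat_lit 0, nat_lit 0, [(nat_lit 9, [(nat_lit 2, nat_lit 1000)])],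
 ⟨p043_k12, nat_lit 0, nat_lit 0, nat_lit 123, nat_lit 0, nat_lit 55315, [nat_lit 2663466667, nat_lit 2329200000], [], [nat_lit 20010227790, nat_lit 21091931623, nat_lit 19159257323, nat_lit 20230758604, nat_lit 22983977922, nat_lit 24273698016, nat_lit 21605511102, nat_lit 22892886228], nat_lit 1271250, nat_lit 1271250, nat_lit 111251, nat_lit 230001, nat_lit 1271250, nat_lit 1271250, [nat_lit 1100000, nat_lit 1442500], [nat_lit 31, nat_lit 40, nat_lit 40, nat_lit 80, nat_lit 3, nat_lit 215, nat_lit 10, nat_lit 7]⟩, C1.Rw.none,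
 ⟨nat_lit 5477, nat_lit 5917, ⟨.ofNat (nat_lit 146597), .ofNat (nat_lit 185864), .ofNat (nat_lit 167937), .ofNat (nat_lit 207203), .ofNat (nat_lit 162800), .ofNat (nat_lit 200266), .ofNat (nat_lit 184157), .ofNat (nat_lit 221623)⟩, ⟨.ofNat (nat_lit 507691), .ofNat (nat_lit 586223), .ofNat (nat_lit 529030), .ofNat (nat_lit 607556), .ofNat (nat_lit 500365), .ofNat (nat_lit 575297), .ofNat (nat_lit 521722), .ofNat (nat_lit 596648)⟩⟩, [⟨nat_lit 0, nat_lit 100, nat_lit 92, nat_lit 49, nat_lit 306695830⟩, ⟨nat_lit 4, nat_lit 93, nat_lit 100, nat_lit 81, nat_lit 406624833⟩]⟩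
noncomputable def p043_l49 : Lf2 := ⟨nat_lit 0, nat_lit 2, [nat_lit 10, nat_lit 5, nat_lit 5, nat_lit 20], true, nat_lit 280, nat_lit 320, nat_lit 0, nat_lit 248, ⟨nat_lit 0, nat_lit 1000, nat_lit 0, nat_lit 5, nat_lit 79, nat_lit 1000, nat_lit 222, nat_lit 0, nat_lit 0, nat_lit 0, nat_lit 0, nat_lit 0, nat_lit 48370816, nat_lit 3102227, nat_lit 15526957, nat_lit 3769345, false, false⟩,
 nat_lit 0, nat_lit 8939, nat_lit 0, nat_lit 3529, nat_lit 5203, nat_lit 0, nat_lit 869, nat_lit 0, nat_lit 0, nat_lit 0, nat_lit 0, nat_lit 0, nat_lit 0, nat_lit 0, nat_lit 0, nat_lit 1000000, nat_lit 0, nat_lit 0, [(nat_lit 9, [(nat_lit 2, nat_lit 1000)])],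
 ⟨p043_k12, nat_lit 0, nat_lit 0, nat_lit 112, nat_lit 0, nat_lit 29123, [nat_lit 2663466667, nat_lit 2329200000], [], [nat_lit 19864628966, nat_lit 20458391803, nat_lit 18988779771, nat_lit 19529799508, nat_lit 23127129826, nat_lit 23778711777, nat_lit 21713044766, nat_lit 22363473945], nat_lit 1271250, nat_lit 1271250, nat_lit 111251, nat_lit 230001, nat_lit 1271250, nat_lit 1271250, [nat_lit 1100000, nat_lit 1442500], [nat_lit 31, nat_lit 40, nat_lit 40, nat_lit 80, nat_lit 3, nat_lit 215, nat_lit 10, nat_lit 7]⟩, C1.Rw.none,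
 ⟨nat_lit 5700, nat_lit 5917, ⟨.ofNat (nat_lit 167937), .ofNat (nat_lit 207203), .ofNat (nat_lit 178606), .ofNat (nat_lit 217873), .ofNat (nat_lit 176105), .ofNat (nat_lit 214464), .ofNat (nat_lit 186776), .ofNat (nat_lit 225135)⟩, ⟨.ofNat (nat_lit 507691), .ofNat (nat_lit 586223), .ofNat (nat_lit 529030), .ofNat (nat_lit 607561), .ofNat (nat_lit 504043), .ofNat (nat_lit 580761), .ofNat (nat_lit 525385), .ofNat (nat_lit 602101)⟩⟩, [⟨nat_lit 0, nat_lit 100, nat_lit 95, nat_lit 49, nat_lit 323056679⟩, ⟨nat_lit 4, nat_lit 91, nat_lit 100, nat_lit 80, nat_lit 423911430⟩]⟩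
noncomputable def p043_l50 : Lf2 := ⟨nat_lit 0, nat_lit 2, [nat_lit 10, nat_lit 5, nat_lit 5, nat_lit 20], true, nat_lit 280, nat_lit 308, nat_lit 0, nat_lit 248, ⟨nat_lit 0, nat_lit 873, nat_lit 127, nat_lit 5, nat_lit 82, nat_lit 1000, nat_lit 216, nat_lit 127, nat_lit 2744, nat_lit 220, nat_lit 62017, nat_lit 276, nat_lit 48837050, nat_lit 3298438, nat_lit 14864512, nat_lit 3756810, false, false⟩,
 nat_lit 0, nat_lit 7773, nat_lit 0, nat_lit 218, nat_lit 4733, nat_lit 0, nat_lit 390, nat_lit 0, nat_lit 0, nat_lit 0, nat_lit 0, nat_lit 0, nat_lit 0, nat_lit 0, nat_lit 0, nat_lit 1000000, nat_lit 0, nat_lit 0, [(nat_lit 9, [(nat_lit 2, nat_lit 873), (nat_lit 6, nat_lit 127)])],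
 ⟨p043_k17, nat_lit 0, nat_lit 0, nat_lit 126, nat_lit 0, nat_lit 84527, [nat_lit 2464601600, nat_lit 1939411600], [], [nat_lit 20601747044, nat_lit 21125527407, nat_lit 19825354859, nat_lit 20344263210, nat_lit 22204253880, nat_lit 22854430740, nat_lit 21411603079, nat_lit 21889774796], nat_lit 1271250, nat_lit 1271250, nat_lit 111251, nat_lit 230001, nat_lit 1271250, nat_lit 1271250, [nat_lit 1100000, nat_lit 1442500], [nat_lit 31, nat_lit 40, nat_lit 40, nat_lit 80, nat_lit 3, nat_lit 215, nat_lit 10, nat_lit 7]⟩, C1.Rw.none,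
 ⟨nat_lit 5477, nat_lit 5701, ⟨.ofNat (nat_lit 176105), .ofNat (nat_lit 214464), .ofNat (nat_lit 186776), .ofNat (nat_lit 225135), .ofNat (nat_lit 184157), .ofNat (nat_lit 221623), .ofNat (nat_lit 194835), .ofNat (nat_lit 232302)⟩, ⟨.ofNat (nat_lit 504043), .ofNat (nat_lit 557746), .ofNat (nat_lit 525385), .ofNat (nat_lit 579088), .ofNat (nat_lit 500365), .ofNat (nat_lit 552818), .ofNat (nat_lit 521722), .ofNat (nat_lit 574176)⟩⟩, [⟨nat_lit 0, nat_lit 100, nat_lit 93, nat_lit 49, nat_lit 303486807⟩, ⟨nat_lit 4, nat_lit 96, nat_lit 100, nat_lit 82, nat_lit 278508141⟩]⟩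
noncomputable def p043_l51 : Lf2 := ⟨nat_lit 0, nat_lit 2, [nat_lit 10, nat_lit 5, nat_lit 5, nat_lit 20], false, nat_lit 280, nat_lit 320, nat_lit 0, nat_lit 160, ⟨nat_lit 1000, nat_lit 0, nat_lit 0, nat_lit 0, nat_lit 0, nat_lit 0, nat_lit 0, nat_lit 0, nat_lit 0, nat_lit 0, nat_lit 0, nat_lit 0, nat_lit 0, nat_lit 0, nat_lit 0, nat_lit 0, false, false⟩,
 nat_lit 23125, nat_lit 0, nat_lit 0, nat_lit 7181, nat_lit 6912, nat_lit 11646, nat_lit 3180, nat_lit 0, nat_lit 0, nat_lit 2144, nat_lit 0, nat_lit 0, nat_lit 0, nat_lit 0, nat_lit 0, nat_lit 0, nat_lit 0, nat_lit 0, [],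
 ⟨p043_k12, nat_lit 0, nat_lit 0, nat_lit 143, nat_lit 0, nat_lit 126458, [nat_lit 4688000000, nat_lit 6250000000], [], [nat_lit 21692013576, nat_lit 23021501168, nat_lit 20436573844, nat_lit 21679382640, nat_lit 25311474504, nat_lit 26819776512, nat_lit 23353893264, nat_lit 24860491296], nat_lit 1271250, nat_lit 1271250, nat_lit 111251, nat_lit 230001, nat_lit 1271250, nat_lit 1271250, [nat_lit 1100000, nat_lit 1442500], [nat_lit 31, nat_lit 40, nat_lit 40, nat_lit 80, nat_lit 3, nat_lit 215, nat_lit 10, nat_lit 7]⟩, ⟨p043_k3, nat_lit 0, nat_lit 0, nat_lit 276, nat_lit 0, nat_lit 150598, [nat_lit 6250000000, nat_lit 7968000000], [], [nat_lit 21176687828, nat_lit 22314152536, nat_lit 17775289924, nat_lit 18915189488, nat_lit 14110627182, nat_lit 13528345500, nat_lit 14119926934, nat_lit 11288083520], nat_lit 1271250, nat_lit 1271250, nat_lit 111251, nat_lit 230001, nat_lit 0, nat_lit 1100001, [nat_lit 1412500,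 nat_lit 1271250], [nat_lit 26, nat_lit 40, nat_lit 40, nat_lit 80, nat_lit 2, nat_lit 345, nat_lit 125, nat_lit 12]⟩,
 zbF0, [⟨nat_lit 0, nat_lit 100, nat_lit 95, nat_lit 52, nat_lit 1822023066⟩, ⟨nat_lit 4, nat_lit 93, nat_lit 100, nat_lit 81, nat_lit 899467283⟩]⟩
noncomputable def p043_l52 : Lf2 := ⟨nat_lit 0, nat_lit 2, [nat_lit 10, nat_lit 5, nat_lit 5, nat_lit 20], false, nat_lit 280, nat_lit 320, nat_lit 160, nat_lit 248, ⟨nat_lit 229, nat_lit 483, nat_lit 288, nat_lit 5, nat_lit 84, nat_lit 771, nat_lit 221, nat_lit 288, nat_lit 4618, nat_lit 210, nat_lit 66150, nat_lit 278, nat_lit 48153138, nat_lit 3450033, nat_lit 15396829, nat_lit 3840404, false, false⟩,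
 nat_lit 9451, nat_lit 0, nat_lit 0, nat_lit 0, nat_lit 5390, nat_lit 4759, nat_lit 874, nat_lit 0, nat_lit 0, nat_lit 0, nat_lit 0, nat_lit 0, nat_lit 0, nat_lit 0, nat_lit 0, nat_lit 771000, nat_lit 0, nat_lit 0, [(nat_lit 9, [(nat_lit 2, nat_lit 483), (nat_lit 6, nat_lit 288)])],
 ⟨p043_k12, nat_lit 0, nat_lit 0, nat_lit 143, nat_lit 0, nat_lit 126458, [nat_lit 2676115200, nat_lit 2343133600], [], [nat_lit 19877773820, nat_lit 21407474960, nat_lit 18729440210, nat_lit 19946977960, nat_lit 23366142380, nat_lit 24691752640, nat_lit 21892587580, nat_lit 23215958120], nat_lit 1271250, nat_lit 1271250, nat_lit 111251, nat_lit 230001, nat_lit 1271250, nat_lit 1271250, [nat_lit 1100000, nat_lit 1442500], [nat_lit 31, nat_lit 40, nat_lit 40, nat_lit 80, nat_lit 3, nat_lit 215, nat_lit 10, nat_lit 7]⟩, ⟨p043_k3, nat_lit 0, nat_lit 0, nat_lit 196, nat_lit 0, nat_lit 150598, [nat_lit 1431250000, nat_lit 1824672000],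 [], [nat_lit 1680521572, nat_lit 2022465920, nat_lit 528241396, nat_lit 862839048, nat_lit 4691992806, nat_lit 5077718114, nat_lit 4482465954, nat_lit 3638580909], nat_lit 1271250, nat_lit 1271250, nat_lit 111251, nat_lit 230001, nat_lit 1100001, nat_lit 1853500, [nat_lit 1412500, nat_lit 1271250], [nat_lit 26, nat_lit 40, nat_lit 40, nat_lit 80, nat_lit 2, nat_lit 373, nat_lit 150, nat_lit 12]⟩,
 ⟨nat_lit 5477, nat_lit 5917, ⟨.ofNat (nat_lit 178606), .ofNat (nat_lit 217873), .ofNat (nat_lit 189276), .ofNat (nat_lit 228543), .ofNat (nat_lit 194835), .ofNat (nat_lit 232302), .ofNat (nat_lit 205514), .ofNat (nat_lit 242980)⟩, ⟨.ofNat (nat_lit 507691), .ofNat (nat_lit 586223), .ofNat (nat_lit 529030), .ofNat (nat_lit 607556), .ofNat (nat_lit 500365), .ofNat (nat_lit 575297), .ofNat (nat_lit 521722), .ofNat (nat_lit 596648)⟩⟩, [⟨nat_lit 0, nat_lit 100, nat_lit 95, nat_lit 52, nat_lit 480243816⟩, ⟨nat_lit 4, nat_lit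 93, nat_lit 100, nat_lit 81, nat_lit 229333217⟩, ⟨nat_lit 11, nat_lit 100, nat_lit 87, nat_lit 52, nat_lit 488954636⟩]⟩
noncomputable def p043_l53 : Lf2 := ⟨nat_lit 0, nat_lit 4, [nat_lit 38, nat_lit 5, nat_lit 5, nat_lit 20], true, nat_lit 280, nat_lit 320, nat_lit 0, nat_lit 248, ⟨nat_lit 0, nat_lit 317, nat_lit 683, nat_lit 5, nat_lit 73, nat_lit 1000, nat_lit 221, nat_lit 683, nat_lit 4618, nat_lit 210, nat_lit 50417, nat_lit 270, nat_lit 48731238, nat_lit 2802789, nat_lit 15465973, nat_lit 3689804, false, false⟩,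
 nat_lit 0, nat_lit 7475, nat_lit 0, nat_lit 8014, nat_lit 4350, nat_lit 0, nat_lit 0, nat_lit 0, nat_lit 0, nat_lit 0, nat_lit 0, nat_lit 0, nat_lit 0, nat_lit 0, nat_lit 40, nat_lit 809800, nat_lit 0, nat_lit 0, [(nat_lit 9, [(nat_lit 1, nat_lit 317), (nat_lit 6, nat_lit 683)])],
 ⟨p043_k22, nat_lit 0, nat_lit 0, nat_lit 157, nat_lit 0, nat_lit 36370, [nat_lit 2246423041, nat_lit 1202087600, nat_lit 157530800], [], [nat_lit 19607148700, nat_lit 20983269801, nat_lit 18173061732, nat_lit 19174841582, nat_lit 22722563100, nat_lit 23924901481, nat_lit 20894060700, nat_lit 22092229800], nat_lit 1271250, nat_lit 1271250, nat_lit 43600, nat_lit 230001, nat_lit 1271250, nat_lit 1271250, [nat_lit 1100000, nat_lit 1442500, nat_lit 1271250], [nat_lit 9, nat_lit 40, nat_lit 40, nat_lit 80, nat_lit 2, nat_lit 215, nat_lit 10, nat_lit 6]⟩, C1.Rw.none,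
 ⟨nat_lit 5477, nat_lit 5917, ⟨.ofNat (nat_lit 123037), .ofNat (nat_lit 185864), .ofNat (nat_lit 165716), .ofNat (nat_lit 228543), .ofNat (nat_lit 140320), .ofNat (nat_lit 200266), .ofNat (nat_lit 183034), .ofNat (nat_lit 242980)⟩, ⟨.ofNat (nat_lit 507691), .ofNat (nat_lit 586223), .ofNat (nat_lit 529030), .ofNat (nat_lit 607556), .ofNat (nat_lit 500365), .ofNat (nat_lit 575297), .ofNat (nat_lit 521722), .ofNat (nat_lit 596648)⟩⟩, [⟨nat_lit 0, nat_lit 100, nat_lit 94, nat_lit 59, nat_lit 389512733⟩, ⟨nat_lit 4, nat_lit 93, nat_lit 100, nat_lit 81, nat_lit 438765810⟩]⟩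
noncomputable def p043_l54 : Lf2 := ⟨nat_lit 0, nat_lit 4, [nat_lit 38, nat_lit 5, nat_lit 5, nat_lit 20], true, nat_lit 240, nat_lit 280, nat_lit 0, nat_lit 336, ⟨nat_lit 0, nat_lit 0, nat_lit 1000, nat_lit 5, nat_lit 101, nat_lit 1000, nat_lit 191, nat_lit 1000, nat_lit 14293, nat_lit 243, nat_lit 96267, nat_lit 291, nat_lit 50126113, nat_lit 0, nat_lit 0, nat_lit 3780734, false, false⟩,
 nat_lit 0, nat_lit 6669, nat_lit 0, nat_lit 0, nat_lit 3881, nat_lit 0, nat_lit 0, nat_lit 0, nat_lit 0, nat_lit 0, nat_lit 0, nat_lit 0, nat_lit 0, nat_lit 0, nat_lit 117, nat_lit 1000000, nat_lit 0, nat_lit 0, [(nat_lit 9, [(nat_lit 6, nat_lit 1000)])],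
 ⟨p043_k22, nat_lit 0, nat_lit 0, nat_lit 138, nat_lit 0, nat_lit 129767, [nat_lit 2969600000, nat_lit 1600000000, nat_lit 226400000], [], [nat_lit 15742323110, nat_lit 16800133212, nat_lit 15564014434, nat_lit 16582956704, nat_lit 17869290399, nat_lit 18826941570, nat_lit 17613545034, nat_lit 18537343158], nat_lit 1271250, nat_lit 1271250, nat_lit 230001, nat_lit 490000, nat_lit 1271250, nat_lit 1271250, [nat_lit 1100000, nat_lit 1442500, nat_lit 1271250], [nat_lit 9, nat_lit 40, nat_lit 40, nat_lit 80, nat_lit 2, nat_lit 226, nat_lit 20, nat_lit 7]⟩, C1.Rw.none,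
 ⟨nat_lit 5477, nat_lit 5917, ⟨.ofNat (nat_lit 185864), .ofNat (nat_lit 264398), .ofNat (nat_lit 228543), .ofNat (nat_lit 307076), .ofNat (nat_lit 200266), .ofNat (nat_lit 275199), .ofNat (nat_lit 242980), .ofNat (nat_lit 317913)⟩, ⟨.ofNat (nat_lit 429157), .ofNat (nat_lit 507691), .ofNat (nat_lit 450496), .ofNat (nat_lit 529030), .ofNat (nat_lit 425432), .ofNat (nat_lit 500365), .ofNat (nat_lit 446789), .ofNat (nat_lit 521722)⟩⟩, [⟨nat_lit 4, nat_lit 93, nat_lit 100, nat_lit 81, nat_lit 213527371⟩]⟩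
noncomputable def p043_l55 : Lf2 := ⟨nat_lit 0, nat_lit 4, [nat_lit 38, nat_lit 5, nat_lit 5, nat_lit 20], false, nat_lit 280, nat_lit 320, nat_lit 0, nat_lit 160, ⟨nat_lit 173, nat_lit 292, nat_lit 535, nat_lit 5, nat_lit 101, nat_lit 827, nat_lit 221, nat_lit 534, nat_lit 4618, nat_lit 210, nat_lit 96267, nat_lit 291, nat_lit 47225079, nat_lit 4501399, nat_lit 15273522, nat_lit 4058785, false, false⟩,
 nat_lit 8422, nat_lit 0, nat_lit 0, nat_lit 3360, nat_lit 4902, nat_lit 3609, nat_lit 316, nat_lit 0, nat_lit 0, nat_lit 673, nat_lit 0, nat_lit 0, nat_lit 0, nat_lit 0, nat_lit 0, nat_lit 827000, nat_lit 0, nat_lit 0, [(nat_lit 9, [(nat_lit 2, nat_lit 292), (nat_lit 6, nat_lit 535)])],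
 ⟨p043_k22, nat_lit 0, nat_lit 0, nat_lit 155, nat_lit 0, nat_lit 129767, [nat_lit 2175972267, nat_lit 1365476400, nat_lit 471426600], [], [nat_lit 18471949392, nat_lit 19584021128, nat_lit 17955680562, nat_lit 18969943370, nat_lit 21424048044, nat_lit 22688670216, nat_lit 20343545912, nat_lit 21573758776], nat_lit 1271250, nat_lit 1271250, nat_lit 230001, nat_lit 490000, nat_lit 1271250, nat_lit 1271250, [nat_lit 1100000, nat_lit 1442500, nat_lit 1271250], [nat_lit 9, nat_lit 40, nat_lit 40, nat_lit 80, nat_lit 2, nat_lit 226, nat_lit 20, nat_lit 7]⟩, ⟨p043_k9, nat_lit 0, nat_lit 0, nat_lit 327, nat_lit 0, nat_lit 189424, [nat_lit 1081250000, nat_lit 1378464000, nat_lit 1702666000], [], [nat_lit 4839016632, nat_lit 4558701636, nat_lit 5123120552, nat_lit 3440773735, nat_lit 7192306020, nat_lit 3744354036, nat_lit 7677618908, nat_lit 4276454000], nat_lit 1271250, nat_lit 1271250, nat_lit 230001, nat_lit 490000,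 nat_lit 0, nat_lit 1100001, [nat_lit 1412500, nat_lit 1271250, nat_lit 1271250], [nat_lit 25, nat_lit 40, nat_lit 40, nat_lit 80, nat_lit 17, nat_lit 345, nat_lit 125, nat_lit 10]⟩,
 ⟨nat_lit 5477, nat_lit 5917, ⟨.ofNat (nat_lit 185864), .ofNat (nat_lit 264398), .ofNat (nat_lit 228543), .ofNat (nat_lit 307076), .ofNat (nat_lit 200266), .ofNat (nat_lit 275199), .ofNat (nat_lit 242980), .ofNat (nat_lit 317913)⟩, ⟨.ofNat (nat_lit 507691), .ofNat (nat_lit 586223), .ofNat (nat_lit 529030), .ofNat (nat_lit 607556), .ofNat (nat_lit 500365), .ofNat (nat_lit 575297), .ofNat (nat_lit 521722), .ofNat (nat_lit 596648)⟩⟩, [⟨nat_lit 4, nat_lit 93, nat_lit 100, nat_lit 81, nat_lit 518400343⟩]⟩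
noncomputable def p043_l56 : Lf2 := ⟨nat_lit 0, nat_lit 4, [nat_lit 38, nat_lit 5, nat_lit 5, nat_lit 20], false, nat_lit 280, nat_lit 320, nat_lit 160, nat_lit 300, ⟨nat_lit 135, nat_lit 80, nat_lit 785, nat_lit 5, nat_lit 101, nat_lit 865, nat_lit 221, nat_lit 785, nat_lit 4618, nat_lit 210, nat_lit 96267, nat_lit 291, nat_lit 47225079, nat_lit 4501399, nat_lit 15273522, nat_lit 4058785, false, false⟩,
 nat_lit 7295, nat_lit 398, nat_lit 0, nat_lit 969, nat_lit 4477, nat_lit 3126, nat_lit 0, nat_lit 0, nat_lit 0, nat_lit 799, nat_lit 0, nat_lit 0, nat_lit 0, nat_lit 0, nat_lit 37, nat_lit 817000, nat_lit 0, nat_lit 545379648, [(nat_lit 9, [(nat_lit 1, nat_lit 80), (nat_lit 6, nat_lit 785)])],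
 ⟨p043_k22, nat_lit 0, nat_lit 0, nat_lit 155, nat_lit 0, nat_lit 129767, [nat_lit 2302713600, nat_lit 1231874001, nat_lit 174322999], [], [nat_lit 18188333483, nat_lit 19267921428, nat_lit 17780509778, nat_lit 18757115886, nat_lit 21015996194, nat_lit 22229454316, nat_lit 20092474612, nat_lit 21273373876], nat_lit 1271250, nat_lit 1271250, nat_lit 230001, nat_lit 490000, nat_lit 1271250, nat_lit 1271250, [nat_lit 1100000, nat_lit 1442500, nat_lit 1271250], [nat_lit 9, nat_lit 40, nat_lit 40, nat_lit 80, nat_lit 2, nat_lit 226, nat_lit 20, nat_lit 7]⟩, ⟨p043_k9, nat_lit 0, nat_lit 0, nat_lit 204, nat_lit 0, nat_lit 189424, [nat_lit 843750000, nat_lit 1075680000, nat_lit 1328670000], [], [nat_lit 3134831076, nat_lit 753951024, nat_lit 2617530504, nat_lit 0, nat_lit 7061996364, nat_lit 4612412637, nat_lit 7403447640, nat_lit 4395788622], nat_lit 1271250, nat_lit 1271250, nat_lit 230001, nat_lit 490000, nat_lit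 1100001, nat_lit 2298750, [nat_lit 1412500, nat_lit 1271250, nat_lit 1271250], [nat_lit 25, nat_lit 40, nat_lit 40, nat_lit 80, nat_lit 17, nat_lit 401, nat_lit 175, nat_lit 12]⟩,
 ⟨nat_lit 5477, nat_lit 5917, ⟨.ofNat (nat_lit 185864), .ofNat (nat_lit 264398), .ofNat (nat_lit 228543), .ofNat (nat_lit 307076), .ofNat (nat_lit 200266), .ofNat (nat_lit 275199), .ofNat (nat_lit 242980), .ofNat (nat_lit 317913)⟩, ⟨.ofNat (nat_lit 507691), .ofNat (nat_lit 586223), .ofNat (nat_lit 529030), .ofNat (nat_lit 607556), .ofNat (nat_lit 500365), .ofNat (nat_lit 575297), .ofNat (nat_lit 521722), .ofNat (nat_lit 596648)⟩⟩, [⟨nat_lit 4, nat_lit 93, nat_lit 100, nat_lit 81, nat_lit 271188357⟩, ⟨nat_lit 11, nat_lit 100, nat_lit 88, nat_lit 63, nat_lit 302173181⟩]⟩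
noncomputable def p043_l57 : Lf2 := ⟨nat_lit 0, nat_lit 4, [nat_lit 38, nat_lit 5, nat_lit 5, nat_lit 20], false, nat_lit 240, nat_lit 320, nat_lit 0, nat_lit 360, ⟨nat_lit 0, nat_lit 767, nat_lit 233, nat_lit 5, nat_lit 132, nat_lit 1000, nat_lit 206, nat_lit 233, nat_lit 4618, nat_lit 210, nat_lit 163350, nat_lit 314, nat_lit 46728559, nat_lit 6731156, nat_lit 13540285, nat_lit 4307059, false, false⟩,
 nat_lit 0, nat_lit 9742, nat_lit 0, nat_lit 0, nat_lit 5670, nat_lit 0, nat_lit 513, nat_lit 0, nat_lit 0, nat_lit 0, nat_lit 0, nat_lit 0, nat_lit 0, nat_lit 0, nat_lit 0, nat_lit 1000000, nat_lit 0, nat_lit 0, [(nat_lit 9, [(nat_lit 2, nat_lit 767), (nat_lit 6, nat_lit 233)])],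
 ⟨p043_k22, nat_lit 0, nat_lit 0, nat_lit 128, nat_lit 0, nat_lit 129767, [nat_lit 2298619734, nat_lit 1614076401, nat_lit 661582799], [], [nat_lit 14490751270, nat_lit 15607605930, nat_lit 14509893290, nat_lit 15628646828, nat_lit 20797246520, nat_lit 22116571960, nat_lit 20430318920, nat_lit 21690258240], nat_lit 1271250, nat_lit 1271250, nat_lit 490000, nat_lit 780000, nat_lit 1271250, nat_lit 1271250, [nat_lit 1100000, nat_lit 1442500, nat_lit 1271250], [nat_lit 9, nat_lit 40, nat_lit 40, nat_lit 80, nat_lit 2, nat_lit 238, nat_lit 30, nat_lit 7]⟩, ⟨p043_k9, nat_lit 0, nat_lit 0, nat_lit 292, nat_lit 0, nat_lit 189424, [nat_lit 0, nat_lit 0, nat_lit 0], [], [nat_lit 0, nat_lit 0, nat_lit 0, nat_lit 0, nat_lit 0, nat_lit 0, nat_lit 0, nat_lit 0], nat_lit 1271250, nat_lit 1271250, nat_lit 490000, nat_lit 780000, nat_lit 0, nat_lit 2542500, [nat_lit 1412500, nat_lit 1271250, nat_lit 1271250], [nat_lit 25,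 nat_lit 40, nat_lit 40, nat_lit 80, nat_lit 17, nat_lit 428, nat_lit 200, nat_lit 13]⟩,
 ⟨nat_lit 5477, nat_lit 5917, ⟨.ofNat (nat_lit 264398), .ofNat (nat_lit 342931), .ofNat (nat_lit 307076), .ofNat (nat_lit 385610), .ofNat (nat_lit 275199), .ofNat (nat_lit 350132), .ofNat (nat_lit 317913), .ofNat (nat_lit 392847)⟩, ⟨.ofNat (nat_lit 429157), .ofNat (nat_lit 586223), .ofNat (nat_lit 450496), .ofNat (nat_lit 607556), .ofNat (nat_lit 425432), .ofNat (nat_lit 575297), .ofNat (nat_lit 446789), .ofNat (nat_lit 596648)⟩⟩, [⟨nat_lit 4, nat_lit 93, nat_lit 100, nat_lit 81, nat_lit 444176088⟩]⟩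
noncomputable def p043_l58 : Lf2 := ⟨nat_lit 1, nat_lit 8, [nat_lit 50, nat_lit 5, nat_lit 5, nat_lit 20], false, nat_lit 240, nat_lit 320, nat_lit 0, nat_lit 360, zbN0,
 nat_lit 0, nat_lit 0, nat_lit 0, nat_lit 0, nat_lit 0, nat_lit 0, nat_lit 0, nat_lit 0, nat_lit 0, nat_lit 0, nat_lit 0, nat_lit 0, nat_lit 0, nat_lit 0, nat_lit 0, nat_lit 0, nat_lit 0, nat_lit 0, [],
 C1.Rw.none, C1.Rw.none,
 zbF0, []⟩
noncomputable def b_V_600_500_10_16 : St := ⟨true, nat_lit 1, nat_lit 1, nat_lit 1, nat_lit 80, nat_lit 260, nat_lit 280, nat_lit 200, nat_lit 240, nat_lit 8, nat_lit 120, nat_lit 60, nat_lit 80, nat_lit 240, nat_lit 320, nat_lit 0, nat_lit 360, nat_lit 0, nat_lit 32, nat_lit 0, nat_lit 0, nat_lit 0, nat_lit 0⟩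
theorem d_V_600_500_10_16 (h : EB TB.env) : Dead b_V_600_500_10_16 := chkB_sound0 h (T :=
(.spl (nat_lit 6) (nat_lit 16)
(.spl (nat_lit 2) (nat_lit 80)
(.trX (nat_lit 23) (nat_lit 100) (nat_lit 76) (nat_lit 82) (nat_lit 336) (.spl (nat_lit 2) (nat_lit 40)
(.trX (nat_lit 23) (nat_lit 100) (nat_lit 92) (nat_lit 61) (nat_lit 288) (.spl (nat_lit 4) (nat_lit 280)
(.leaf p043_l46)
(.trX (nat_lit 23) (nat_lit 94) (nat_lit 100) (nat_lit 62) (nat_lit 248) (.spl (nat_lit 6) (nat_lit 8)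
(.spl (nat_lit 2) (nat_lit 20)
(.trX (nat_lit 23) (nat_lit 92) (nat_lit 100) (nat_lit 44) (nat_lit 208) (.leaf p043_l47))
(.spl (nat_lit 1) (nat_lit 220)
(.leaf p043_l48)
(.spl (nat_lit 1) (nat_lit 230)
(.spl (nat_lit 0) (nat_lit 270)
(.leaf p043_l49)
(.trX (nat_lit 16) (nat_lit 100) (nat_lit 90) (nat_lit 85) (nat_lit 308) (.leaf p043_l50)))
(.spl (nat_lit 5) (nat_lit 160)
(.leaf p043_l51)
(.leaf p043_l52)))))
(.leaf p043_l53)))))
(.spl (nat_lit 4) (nat_lit 280)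
(.leaf p043_l54)
(.trX (nat_lit 23) (nat_lit 100) (nat_lit 95) (nat_lit 87) (nat_lit 300) (.spl (nat_lit 5) (nat_lit 160)
(.leaf p043_l55)
(.leaf p043_l56))))))
(.leaf p043_l57))
(.leaf p043_l58))) (by decide +kernel)
noncomputable def p043_l59 : Lf2 := ⟨nat_lit 0, nat_lit 8, [nat_lit 50, nat_lit 5, nat_lit 5, nat_lit 20], false, nat_lit 240, nat_lit 320, nat_lit 0, nat_lit 360, ⟨nat_lit 0, nat_lit 1000, nat_lit 0, nat_lit 5, nat_lit 193, nat_lit 1000, nat_lit 202, nat_lit 0, nat_lit 0, nat_lit 0, nat_lit 0, nat_lit 0, nat_lit 42769343, nat_lit 11661197, nat_lit 12569460, nat_lit 4874318, false, false⟩,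
 nat_lit 0, nat_lit 9803, nat_lit 0, nat_lit 0, nat_lit 5706, nat_lit 0, nat_lit 1157, nat_lit 0, nat_lit 0, nat_lit 0, nat_lit 0, nat_lit 0, nat_lit 0, nat_lit 0, nat_lit 0, nat_lit 612400, nat_lit 0, nat_lit 0, [(nat_lit 9, [(nat_lit 1, nat_lit 646), (nat_lit 2, nat_lit 354)])],
 ⟨p043_k20, nat_lit 0, nat_lit 0, nat_lit 162, nat_lit 0, nat_lit 201176, [nat_lit 2688824320, nat_lit 2861539201, nat_lit 2052255999], [], [nat_lit 15538395600, nat_lit 16068986248, nat_lit 18293638460, nat_lit 18711195178, nat_lit 20443764056, nat_lit 21075684844, nat_lit 23270944292, nat_lit 23768372930], nat_lit 1271250, nat_lit 1271250, nat_lit 780000, nat_lit 1762500, nat_lit 1271250, nat_lit 1271250, [nat_lit 1100000, nat_lit 1442500, nat_lit 1271250], [nat_lit 11, nat_lit 40, nat_lit 40, nat_lit 80, nat_lit 1, nat_lit 456, nat_lit 225, nat_lit 12]⟩, ⟨p043_k23, nat_lit 0, nat_lit 0, nat_lit 395, nat_lit 0, nat_lit 295910,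 [nat_lit 0, nat_lit 0, nat_lit 0], [], [nat_lit 0, nat_lit 0, nat_lit 0, nat_lit 0, nat_lit 0, nat_lit 0, nat_lit 0, nat_lit 0], nat_lit 1271250, nat_lit 1271250, nat_lit 780000, nat_lit 1762500, nat_lit 0, nat_lit 2542500, [nat_lit 1412500, nat_lit 1271250, nat_lit 1271250], [nat_lit 53, nat_lit 40, nat_lit 40, nat_lit 80, nat_lit 14, nat_lit 456, nat_lit 225, nat_lit 12]⟩,
 ⟨nat_lit 5700, nat_lit 5917, ⟨.ofNat (nat_lit 342931), .ofNat (nat_lit 578528), .ofNat (nat_lit 385610), .ofNat (nat_lit 621202), .ofNat (nat_lit 346560), .ofNat (nat_lit 576714), .ofNat (nat_lit 389244), .ofNat (nat_lit 619393)⟩, ⟨.ofNat (nat_lit 407818), .ofNat (nat_lit 564885), .ofNat (nat_lit 450496), .ofNat (nat_lit 607561), .ofNat (nat_lit 405982), .ofNat (nat_lit 559420), .ofNat (nat_lit 448666), .ofNat (nat_lit 602101)⟩⟩, [⟨nat_lit 4, nat_lit 95, nat_lit 100, nat_lit 76, nat_lit 331253540⟩]⟩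
noncomputable def p043_l60 : Lf2 := ⟨nat_lit 0, nat_lit 8, [nat_lit 50, nat_lit 5, nat_lit 5, nat_lit 20], false, nat_lit 240, nat_lit 308, nat_lit 0, nat_lit 360, ⟨nat_lit 0, nat_lit 1000, nat_lit 0, nat_lit 5, nat_lit 193, nat_lit 1000, nat_lit 196, nat_lit 0, nat_lit 0, nat_lit 0, nat_lit 0, nat_lit 0, nat_lit 43187912, nat_lit 11762692, nat_lit 12049396, nat_lit 4831281, false, false⟩,
 nat_lit 0, nat_lit 9174, nat_lit 0, nat_lit 0, nat_lit 5587, nat_lit 0, nat_lit 719, nat_lit 0, nat_lit 0, nat_lit 0, nat_lit 0, nat_lit 0, nat_lit 0, nat_lit 0, nat_lit 2, nat_lit 1000000, nat_lit 0, nat_lit 0, [(nat_lit 9, [(nat_lit 2, nat_lit 1000)])],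
 ⟨p043_k24, nat_lit 0, nat_lit 0, nat_lit 178, nat_lit 0, nat_lit 250442, [nat_lit 2695466667, nat_lit 2706533334, nat_lit 383866666], [], [nat_lit 16155877180, nat_lit 16681349876, nat_lit 18906666219, nat_lit 19354956862, nat_lit 20074686609, nat_lit 20727991224, nat_lit 22974599746, nat_lit 23488961272], nat_lit 1271250, nat_lit 1271250, nat_lit 780000, nat_lit 1762500, nat_lit 1271250, nat_lit 1271250, [nat_lit 1100000, nat_lit 1442500, nat_lit 1271250], [nat_lit 11, nat_lit 40, nat_lit 40, nat_lit 80, nat_lit 1, nat_lit 456, nat_lit 225, nat_lit 12]⟩, ⟨p043_k23, nat_lit 0, nat_lit 0, nat_lit 485, nat_lit 0, nat_lit 389360, [nat_lit 0, nat_lit 0, nat_lit 0], [], [nat_lit 0, nat_lit 0, nat_lit 0, nat_lit 0, nat_lit 0, nat_lit 0, nat_lit 0, nat_lit 0], nat_lit 1271250, nat_lit 1271250, nat_lit 780000, nat_lit 1762500, nat_lit 0, nat_lit 2542500, [nat_lit 1412500, nat_lit 1271250, nat_lit 1271250], [nat_lit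 53, nat_lit 40, nat_lit 40, nat_lit 80, nat_lit 14, nat_lit 456, nat_lit 225, nat_lit 12]⟩,
 ⟨nat_lit 5477, nat_lit 5701, ⟨.ofNat (nat_lit 346560), .ofNat (nat_lit 576714), .ofNat (nat_lit 389244), .ofNat (nat_lit 619394), .ofNat (nat_lit 350132), .ofNat (nat_lit 574928), .ofNat (nat_lit 392847), .ofNat (nat_lit 617638)⟩, ⟨.ofNat (nat_lit 405982), .ofNat (nat_lit 536404), .ofNat (nat_lit 448666), .ofNat (nat_lit 579088), .ofNat (nat_lit 404075), .ofNat (nat_lit 531461), .ofNat (nat_lit 446789), .ofNat (nat_lit 574176)⟩⟩, [⟨nat_lit 16, nat_lit 100, nat_lit 99, nat_lit 77, nat_lit 322028013⟩]⟩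
noncomputable def b_V_600_500_10_17 : St := ⟨true, nat_lit 1, nat_lit 1, nat_lit 1, nat_lit 80, nat_lit 260, nat_lit 280, nat_lit 200, nat_lit 240, nat_lit 120, nat_lit 240, nat_lit 40, nat_lit 80, nat_lit 240, nat_lit 320, nat_lit 0, nat_lit 360, nat_lit 0, nat_lit 32, nat_lit 0, nat_lit 0, nat_lit 0, nat_lit 0⟩
theorem d_V_600_500_10_17 (h : EB TB.env) : Dead b_V_600_500_10_17 := chkB_sound0 h (T :=
(.spl (nat_lit 0) (nat_lit 270)
(.leaf p043_l59)
(.trX (nat_lit 16) (nat_lit 100) (nat_lit 90) (nat_lit 85) (nat_lit 308) (.leaf p043_l60)))) (by decide +kernel)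
noncomputable def p043_l61 : Lf2 := ⟨nat_lit 0, nat_lit 8, [nat_lit 50, nat_lit 5, nat_lit 5, nat_lit 20], false, nat_lit 0, nat_lit 336, nat_lit 0, nat_lit 160, ⟨nat_lit 1000, nat_lit 0, nat_lit 0, nat_lit 0, nat_lit 0, nat_lit 0, nat_lit 0, nat_lit 0, nat_lit 0, nat_lit 0, nat_lit 0, nat_lit 0, nat_lit 0, nat_lit 0, nat_lit 0, nat_lit 0, false, false⟩,
 nat_lit 19885, nat_lit 0, nat_lit 0, nat_lit 0, nat_lit 7456, nat_lit 8522, nat_lit 1615, nat_lit 0, nat_lit 0, nat_lit 2074, nat_lit 0, nat_lit 0, nat_lit 0, nat_lit 0, nat_lit 0, nat_lit 0, nat_lit 0, nat_lit 0, [],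
 ⟨p043_k25, nat_lit 0, nat_lit 0, nat_lit 341, nat_lit 0, nat_lit 297711, [nat_lit 4688000000, nat_lit 6250000000, nat_lit 9842000000], [], [nat_lit 27804576684, nat_lit 29387885836, nat_lit 37483577152, nat_lit 39528400896, nat_lit 27272516816, nat_lit 28218387543, nat_lit 34956276839, nat_lit 35964961492], nat_lit 1271250, nat_lit 1271250, nat_lit 1271250, nat_lit 1271250, nat_lit 0, nat_lit 2373000, [nat_lit 1100000, nat_lit 1442500, nat_lit 1271250], [nat_lit 11, nat_lit 40, nat_lit 40, nat_lit 80, nat_lit 1, nat_lit 538, nat_lit 300, nat_lit 15]⟩, ⟨p043_k23, nat_lit 0, nat_lit 0, nat_lit 429, nat_lit 0, nat_lit 389360, [nat_lit 6250000000, nat_lit 7968000000, nat_lit 11872000000], [], [nat_lit 31669471312, nat_lit 32499762472, nat_lit 39565784778, nat_lit 40154132242, nat_lit 27077056664, nat_lit 27693484808, nat_lit 32716777728, nat_lit 33052088224], nat_lit 1271250, nat_lit 1271250, nat_lit 1271250,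 nat_lit 1271250, nat_lit 0, nat_lit 1100001, [nat_lit 1412500, nat_lit 1271250, nat_lit 1271250], [nat_lit 53, nat_lit 40, nat_lit 40, nat_lit 80, nat_lit 14, nat_lit 428, nat_lit 200, nat_lit 11]⟩,
 zbF0, [⟨nat_lit 4, nat_lit 92, nat_lit 100, nat_lit 75, nat_lit 177712637⟩, ⟨nat_lit 21, nat_lit 83, nat_lit 100, nat_lit 83, nat_lit 4453459⟩]⟩
noncomputable def p043_l62 : Lf2 := ⟨nat_lit 0, nat_lit 8, [nat_lit 50, nat_lit 5, nat_lit 5, nat_lit 20], false, nat_lit 0, nat_lit 336, nat_lit 160, nat_lit 360, ⟨nat_lit 1000, nat_lit 0, nat_lit 0, nat_lit 0, nat_lit 0, nat_lit 0, nat_lit 0, nat_lit 0, nat_lit 0, nat_lit 0, nat_lit 0, nat_lit 0, nat_lit 0, nat_lit 0, nat_lit 0, nat_lit 0, false, false⟩,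
 nat_lit 19339, nat_lit 0, nat_lit 0, nat_lit 3117, nat_lit 7356, nat_lit 8288, nat_lit 1631, nat_lit 0, nat_lit 0, nat_lit 2090, nat_lit 0, nat_lit 0, nat_lit 0, nat_lit 0, nat_lit 0, nat_lit 0, nat_lit 0, nat_lit 0, [],
 ⟨p043_k25, nat_lit 0, nat_lit 0, nat_lit 297, nat_lit 0, nat_lit 158261, [nat_lit 4688000000, nat_lit 6250000000, nat_lit 9842000000], [], [nat_lit 27797920284, nat_lit 28585785260, nat_lit 37233197952, nat_lit 38249968624, nat_lit 27410581056, nat_lit 27883052699, nat_lit 34838254199, nat_lit 35342329085], nat_lit 1271250, nat_lit 1271250, nat_lit 1271250, nat_lit 1271250, nat_lit 0, nat_lit 2373000, [nat_lit 1100000, nat_lit 1442500, nat_lit 1271250], [nat_lit 11, nat_lit 40, nat_lit 40, nat_lit 80, nat_lit 1, nat_lit 483, nat_lit 250, nat_lit 14]⟩, ⟨p043_k23, nat_lit 0, nat_lit 0, nat_lit 223, nat_lit 0, nat_lit 206981, [nat_lit 6250000000, nat_lit 7968000000, nat_lit 11872000000], [],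 [nat_lit 21609411138, nat_lit 22693321794, nat_lit 31023845154, nat_lit 31539998786, nat_lit 28734911410, nat_lit 29279336690, nat_lit 37108130528, nat_lit 37478020256], nat_lit 1271250, nat_lit 1271250, nat_lit 1271250, nat_lit 1271250, nat_lit 1271250, nat_lit 1271250, [nat_lit 1412500, nat_lit 1271250, nat_lit 1271250], [nat_lit 53, nat_lit 40, nat_lit 40, nat_lit 80, nat_lit 14, nat_lit 483, nat_lit 250, nat_lit 12]⟩,
 zbF0, [⟨nat_lit 16, nat_lit 100, nat_lit 88, nat_lit 74, nat_lit 197473748⟩, ⟨nat_lit 7, nat_lit 77, nat_lit 100, nat_lit 72, nat_lit 531570246⟩]⟩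
noncomputable def p043_l63 : Lf2 := ⟨nat_lit 0, nat_lit 8, [nat_lit 50, nat_lit 5, nat_lit 5, nat_lit 20], false, nat_lit 0, nat_lit 320, nat_lit 160, nat_lit 360, ⟨nat_lit 1000, nat_lit 0, nat_lit 0, nat_lit 0, nat_lit 0, nat_lit 0, nat_lit 0, nat_lit 0, nat_lit 0, nat_lit 0, nat_lit 0, nat_lit 0, nat_lit 0, nat_lit 0, nat_lit 0, nat_lit 0, false, false⟩,
 nat_lit 12162, nat_lit 0, nat_lit 7141, nat_lit 0, nat_lit 7079, nat_lit 8272, nat_lit 2020, nat_lit 0, nat_lit 0, nat_lit 1792, nat_lit 0, nat_lit 0, nat_lit 0, nat_lit 0, nat_lit 0, nat_lit 0, nat_lit 0, nat_lit 0, [],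
 ⟨p043_k20, nat_lit 0, nat_lit 0, nat_lit 329, nat_lit 0, nat_lit 264708, [nat_lit 4688000000, nat_lit 6250000000, nat_lit 9842000000], [], [nat_lit 23606025254, nat_lit 24414828008, nat_lit 37540792116, nat_lit 38541936664, nat_lit 24578964342, nat_lit 25103438620, nat_lit 34114348672, nat_lit 34660365600], nat_lit 1271250, nat_lit 1271250, nat_lit 1271250, nat_lit 1271250, nat_lit 0, nat_lit 2260000, [nat_lit 1100000, nat_lit 1442500, nat_lit 1271250], [nat_lit 11, nat_lit 40, nat_lit 40, nat_lit 80, nat_lit 1, nat_lit 483, nat_lit 250, nat_lit 14]⟩, ⟨p043_k23, nat_lit 0, nat_lit 0, nat_lit 329, nat_lit 0, nat_lit 389360, [nat_lit 6250000000, nat_lit 7968000000, nat_lit 11872000000], [], [nat_lit 26877942752, nat_lit 27505576960, nat_lit 33201599520, nat_lit 33443418592, nat_lit 31445105136, nat_lit 31735170400, nat_lit 37086556832, nat_lit 37457478464], nat_lit 1271250, nat_lit 1271250, nat_lit 1271250,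 nat_lit 1271250, nat_lit 1271250, nat_lit 1271250, [nat_lit 1412500, nat_lit 1271250, nat_lit 1271250], [nat_lit 53, nat_lit 40, nat_lit 40, nat_lit 80, nat_lit 14, nat_lit 483, nat_lit 250, nat_lit 12]⟩,
 zbF0, [⟨nat_lit 4, nat_lit 97, nat_lit 100, nat_lit 76, nat_lit 164263182⟩, ⟨nat_lit 7, nat_lit 77, nat_lit 100, nat_lit 72, nat_lit 464831418⟩]⟩
noncomputable def b_V_600_500_10_18 : St := ⟨true, nat_lit 1, nat_lit 1, nat_lit 1, nat_lit 80, nat_lit 240, nat_lit 280, nat_lit 200, nat_lit 240, nat_lit 240, nat_lit 400, nat_lit 40, nat_lit 80, nat_lit 0, nat_lit 336, nat_lit 0, nat_lit 360, nat_lit 0, nat_lit 32, nat_lit 0, nat_lit 0, nat_lit 0, nat_lit 0⟩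
theorem d_V_600_500_10_18 (h : EB TB.env) : Dead b_V_600_500_10_18 := chkB_sound0 h (T :=
(.spl (nat_lit 5) (nat_lit 160)
(.leaf p043_l61)
(.spl (nat_lit 0) (nat_lit 260)
(.leaf p043_l62)
(.trX (nat_lit 16) (nat_lit 100) (nat_lit 85) (nat_lit 84) (nat_lit 320) (.leaf p043_l63))))) (by decide +kernel)
noncomputable def p043_l64 : Lf2 := ⟨nat_lit 0, nat_lit 8, [nat_lit 50, nat_lit 5, nat_lit 5, nat_lit 20], true, nat_lit 0, nat_lit 160, nat_lit 0, nat_lit 360, ⟨nat_lit 0, nat_lit 1000, nat_lit 0, nat_lit 5, nat_lit 100, nat_lit 1000, nat_lit 54, nat_lit 0, nat_lit 0, nat_lit 0, nat_lit 0, nat_lit 0, nat_lit 0, nat_lit 0, nat_lit 0, nat_lit 5000000, false, false⟩,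
 nat_lit 0, nat_lit 8348, nat_lit 0, nat_lit 0, nat_lit 4419, nat_lit 0, nat_lit 616, nat_lit 0, nat_lit 0, nat_lit 0, nat_lit 0, nat_lit 0, nat_lit 0, nat_lit 0, nat_lit 0, nat_lit 400000, nat_lit 0, nat_lit 0, [(nat_lit 6, [(nat_lit 1, nat_lit 1000)]), (nat_lit 9, [(nat_lit 1, nat_lit 1000)])],
 ⟨p043_k25, nat_lit 0, nat_lit 0, nat_lit 563, nat_lit 0, nat_lit 523819, [nat_lit 2702720000, nat_lit 3151066667, nat_lit 3294533333], [], [nat_lit 34374722316, nat_lit 30243928218, nat_lit 27795296326, nat_lit 28859162590, nat_lit 27981949623, nat_lit 28981791196, nat_lit 31949054446, nat_lit 27885626500], nat_lit 1271250, nat_lit 1271250, nat_lit 21650, nat_lit 780000, nat_lit 0, nat_lit 1100001, [nat_lit 1100000, nat_lit 1442500, nat_lit 1271250], [nat_lit 11, nat_lit 40, nat_lit 40, nat_lit 80, nat_lit 1, nat_lit 373, nat_lit 150, nat_lit 11]⟩, C1.Rw.none,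
 ⟨nat_lit 5477, nat_lit 6325, ⟨.ofNat (nat_lit 96904), .ofNat (nat_lit 335470), .ofNat (nat_lit 139640), .ofNat (nat_lit 378206), .ofNat (nat_lit 132827), .ofNat (nat_lit 350132), .ofNat (nat_lit 175541), .ofNat (nat_lit 392847)⟩, ⟨.negSucc (nat_lit 82265), .ofNat (nat_lit 246791), .negSucc (nat_lit 39529), .ofNat (nat_lit 289527), .negSucc (nat_lit 45522), .ofNat (nat_lit 254209), .negSucc (nat_lit 2808), .ofNat (nat_lit 296923)⟩⟩, [⟨nat_lit 0, nat_lit 100, nat_lit 96, nat_lit 40, nat_lit 35001834⟩]⟩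
noncomputable def p043_l65 : Lf2 := ⟨nat_lit 0, nat_lit 8, [nat_lit 50, nat_lit 5, nat_lit 5, nat_lit 20], true, nat_lit 160, nat_lit 336, nat_lit 0, nat_lit 360, ⟨nat_lit 0, nat_lit 1000, nat_lit 0, nat_lit 5, nat_lit 98, nat_lit 1000, nat_lit 179, nat_lit 0, nat_lit 0, nat_lit 0, nat_lit 0, nat_lit 0, nat_lit 0, nat_lit 0, nat_lit 0, nat_lit 5000000, false, false⟩,
 nat_lit 0, nat_lit 4357, nat_lit 0, nat_lit 4558, nat_lit 2306, nat_lit 0, nat_lit 652, nat_lit 0, nat_lit 0, nat_lit 0, nat_lit 0, nat_lit 0, nat_lit 0, nat_lit 0, nat_lit 0, nat_lit 400000, nat_lit 0, nat_lit 0, [(nat_lit 6, [(nat_lit 1, nat_lit 1000)])],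
 ⟨p043_k25, nat_lit 0, nat_lit 0, nat_lit 313, nat_lit 0, nat_lit 278459, [nat_lit 2692266667, nat_lit 3151066667, nat_lit 3294533333], [], [nat_lit 28654666409, nat_lit 27658119025, nat_lit 27169033565, nat_lit 27712739937, nat_lit 31679656660, nat_lit 32179528278, nat_lit 32710232851, nat_lit 32177708186], nat_lit 1271250, nat_lit 1271250, nat_lit 21650, nat_lit 780000, nat_lit 1100001, nat_lit 2607000, [nat_lit 1100000, nat_lit 1442500, nat_lit 1271250], [nat_lit 11, nat_lit 40, nat_lit 40, nat_lit 80, nat_lit 1, nat_lit 428, nat_lit 200, nat_lit 12]⟩, C1.Rw.none,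
 ⟨nat_lit 5916, nat_lit 6325, ⟨.ofNat (nat_lit 96904), .ofNat (nat_lit 335470), .ofNat (nat_lit 139640), .ofNat (nat_lit 378206), .ofNat (nat_lit 115184), .ofNat (nat_lit 342931), .ofNat (nat_lit 157863), .ofNat (nat_lit 385610)⟩, ⟨.ofNat (nat_lit 246791), .ofNat (nat_lit 608730), .ofNat (nat_lit 289527), .ofNat (nat_lit 651452), .ofNat (nat_lit 250751), .ofNat (nat_lit 596275), .ofNat (nat_lit 293429), .ofNat (nat_lit 638940)⟩⟩, [⟨nat_lit 4, nat_lit 88, nat_lit 100, nat_lit 74, nat_lit 250507398⟩]⟩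
noncomputable def p043_l66 : Lf2 := ⟨nat_lit 0, nat_lit 8, [nat_lit 50, nat_lit 5, nat_lit 5, nat_lit 20], true, nat_lit 160, nat_lit 320, nat_lit 0, nat_lit 360, ⟨nat_lit 0, nat_lit 1000, nat_lit 0, nat_lit 5, nat_lit 104, nat_lit 1000, nat_lit 171, nat_lit 0, nat_lit 0, nat_lit 0, nat_lit 0, nat_lit 0, nat_lit 0, nat_lit 0, nat_lit 0, nat_lit 5000000, false, false⟩,
 nat_lit 0, nat_lit 7076, nat_lit 0, nat_lit 0, nat_lit 4118, nat_lit 0, nat_lit 1170, nat_lit 0, nat_lit 0, nat_lit 0, nat_lit 0, nat_lit 0, nat_lit 0, nat_lit 0, nat_lit 0, nat_lit 400000, nat_lit 0, nat_lit 0, [(nat_lit 9, [(nat_lit 1, nat_lit 1000)])],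
 ⟨p043_k20, nat_lit 0, nat_lit 0, nat_lit 366, nat_lit 0, nat_lit 457369, [nat_lit 2702720000, nat_lit 2968400001, nat_lit 2997199999], [], [nat_lit 28638900659, nat_lit 26468113431, nat_lit 21823634014, nat_lit 22534657670, nat_lit 27320355246, nat_lit 27922931123, nat_lit 28353319251, nat_lit 26822854183], nat_lit 1271250, nat_lit 1271250, nat_lit 43600, nat_lit 780000, nat_lit 1100001, nat_lit 2470000, [nat_lit 1100000, nat_lit 1442500, nat_lit 1271250], [nat_lit 11, nat_lit 40, nat_lit 40, nat_lit 80, nat_lit 1, nat_lit 428, nat_lit 200, nat_lit 12]⟩, C1.Rw.none,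
 ⟨nat_lit 5477, nat_lit 5917, ⟨.ofNat (nat_lit 123037), .ofNat (nat_lit 342931), .ofNat (nat_lit 165716), .ofNat (nat_lit 385610), .ofNat (nat_lit 140320), .ofNat (nat_lit 350132), .ofNat (nat_lit 183034), .ofNat (nat_lit 392847)⟩, ⟨.ofNat (nat_lit 250751), .ofNat (nat_lit 564885), .ofNat (nat_lit 293429), .ofNat (nat_lit 607556), .ofNat (nat_lit 254209), .ofNat (nat_lit 553941), .ofNat (nat_lit 296923), .ofNat (nat_lit 596648)⟩⟩, [⟨nat_lit 0, nat_lit 100, nat_lit 94, nat_lit 59, nat_lit 37753101⟩, ⟨nat_lit 4, nat_lit 97, nat_lit 100, nat_lit 76, nat_lit 125734033⟩]⟩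
noncomputable def p043_l67 : Lf2 := ⟨nat_lit 0, nat_lit 8, [nat_lit 50, nat_lit 5, nat_lit 5, nat_lit 20], false, nat_lit 0, nat_lit 160, nat_lit 0, nat_lit 360, ⟨nat_lit 194, nat_lit 806, nat_lit 0, nat_lit 5, nat_lit 192, nat_lit 806, nat_lit 54, nat_lit 0, nat_lit 0, nat_lit 0, nat_lit 0, nat_lit 0, nat_lit 0, nat_lit 0, nat_lit 0, nat_lit 5000000, false, false⟩,
 nat_lit 0, nat_lit 6236, nat_lit 0, nat_lit 1854, nat_lit 3301, nat_lit 1938, nat_lit 88, nat_lit 0, nat_lit 0, nat_lit 654, nat_lit 0, nat_lit 0, nat_lit 0, nat_lit 0, nat_lit 0, nat_lit 322400, nat_lit 0, nat_lit 0, [(nat_lit 6, [(nat_lit 1, nat_lit 806)])],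
 ⟨p043_k25, nat_lit 0, nat_lit 0, nat_lit 312, nat_lit 0, nat_lit 278459, [nat_lit 3079438934, nat_lit 3752259734, nat_lit 4534477866], [], [nat_lit 34733950384, nat_lit 32961518046, nat_lit 33312988046, nat_lit 33864923844, nat_lit 30914108038, nat_lit 31488621600, nat_lit 35162665246, nat_lit 33648258874], nat_lit 1271250, nat_lit 1271250, nat_lit 780000, nat_lit 1762500, nat_lit 0, nat_lit 1100001, [nat_lit 1100000, nat_lit 1442500, nat_lit 1271250], [nat_lit 11, nat_lit 40, nat_lit 40, nat_lit 80, nat_lit 1, nat_lit 401, nat_lit 175, nat_lit 12]⟩, ⟨p043_k23, nat_lit 0, nat_lit 0, nat_lit 191, nat_lit 0, nat_lit 0, [nat_lit 1212500000, nat_lit 1545792000, nat_lit 2303168000], [], [nat_lit 3569051910, nat_lit 4071857734, nat_lit 4291805590, nat_lit 4663157112, nat_lit 5065752040, nat_lit 5326169600, nat_lit 5289909188, nat_lit 5461668192], nat_lit 0, nat_lit 0, nat_lit 0, nat_lit 0, nat_lit 0, nat_lit 0,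 [], [nat_lit 53, nat_lit 40, nat_lit 40, nat_lit 80, nat_lit 14, nat_lit 456, nat_lit 225, nat_lit 12]⟩,
 ⟨nat_lit 5916, nat_lit 6325, ⟨.ofNat (nat_lit 335470), .ofNat (nat_lit 582240), .ofNat (nat_lit 378206), .ofNat (nat_lit 624961), .ofNat (nat_lit 342931), .ofNat (nat_lit 578509), .ofNat (nat_lit 385610), .ofNat (nat_lit 621173)⟩, ⟨.negSucc (nat_lit 82265), .ofNat (nat_lit 246791), .negSucc (nat_lit 39529), .ofNat (nat_lit 289527), .negSucc (nat_lit 63383), .ofNat (nat_lit 250751), .negSucc (nat_lit 20704), .ofNat (nat_lit 293429)⟩⟩, [⟨nat_lit 19, nat_lit 100, nat_lit 77, nat_lit 72, nat_lit 68029288⟩]⟩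
noncomputable def p043_l68 : Lf2 := ⟨nat_lit 0, nat_lit 8, [nat_lit 50, nat_lit 5, nat_lit 5, nat_lit 20], true, nat_lit 0, nat_lit 160, nat_lit 0, nat_lit 360, ⟨nat_lit 0, nat_lit 1000, nat_lit 0, nat_lit 5, nat_lit 193, nat_lit 1000, nat_lit 55, nat_lit 0, nat_lit 0, nat_lit 0, nat_lit 0, nat_lit 0, nat_lit 0, nat_lit 0, nat_lit 0, nat_lit 5000000, false, false⟩,
 nat_lit 0, nat_lit 6903, nat_lit 0, nat_lit 0, nat_lit 4018, nat_lit 0, nat_lit 0, nat_lit 0, nat_lit 0, nat_lit 0, nat_lit 0, nat_lit 0, nat_lit 0, nat_lit 0, nat_lit 2, nat_lit 1000000, nat_lit 0, nat_lit 0, [(nat_lit 9, [(nat_lit 2, nat_lit 1000)])],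
 ⟨p043_k20, nat_lit 0, nat_lit 0, nat_lit 428, nat_lit 0, nat_lit 457369, [nat_lit 2695466667, nat_lit 2706533334, nat_lit 383866666], [], [nat_lit 33607151338, nat_lit 31449734454, nat_lit 24732277421, nat_lit 25033323403, nat_lit 23225256665, nat_lit 22022089323, nat_lit 31660736497, nat_lit 29817390601], nat_lit 1271250, nat_lit 1271250, nat_lit 780000, nat_lit 1762500, nat_lit 0, nat_lit 1100001, [nat_lit 1100000, nat_lit 1442500, nat_lit 1271250], [nat_lit 11, nat_lit 40, nat_lit 40, nat_lit 80, nat_lit 1, nat_lit 401, nat_lit 175, nat_lit 12]⟩, C1.Rw.none,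
 ⟨nat_lit 5477, nat_lit 5917, ⟨.ofNat (nat_lit 342931), .ofNat (nat_lit 578514), .ofNat (nat_lit 385610), .ofNat (nat_lit 621176), .ofNat (nat_lit 350132), .ofNat (nat_lit 574913), .ofNat (nat_lit 392847), .ofNat (nat_lit 617611)⟩, ⟨.negSucc (nat_lit 63383), .ofNat (nat_lit 250751), .negSucc (nat_lit 20704), .ofNat (nat_lit 293429), .negSucc (nat_lit 45522), .ofNat (nat_lit 254209), .negSucc (nat_lit 2808), .ofNat (nat_lit 296923)⟩⟩, []⟩
noncomputable def p043_l69 : Lf2 := ⟨nat_lit 0, nat_lit 8, [nat_lit 50, nat_lit 5, nat_lit 5, nat_lit 20], true, nat_lit 160, nat_lit 336, nat_lit 0, nat_lit 360, ⟨nat_lit 0, nat_lit 1000, nat_lit 0, nat_lit 5, nat_lit 192, nat_lit 1000, nat_lit 179, nat_lit 0, nat_lit 0, nat_lit 0, nat_lit 0, nat_lit 0, nat_lit 0, nat_lit 0, nat_lit 0, nat_lit 5000000, false, false⟩,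
 nat_lit 0, nat_lit 8321, nat_lit 0, nat_lit 0, nat_lit 4405, nat_lit 0, nat_lit 627, nat_lit 0, nat_lit 0, nat_lit 0, nat_lit 0, nat_lit 0, nat_lit 0, nat_lit 0, nat_lit 0, nat_lit 400000, nat_lit 0, nat_lit 0, [(nat_lit 6, [(nat_lit 1, nat_lit 1000)])],
 ⟨p043_k25, nat_lit 0, nat_lit 0, nat_lit 195, nat_lit 0, nat_lit 278459, [nat_lit 2692266667, nat_lit 3151066667, nat_lit 3294533333], [], [nat_lit 29863593867, nat_lit 27534502977, nat_lit 30916155294, nat_lit 28811939654, nat_lit 24139209774, nat_lit 24749375842, nat_lit 25679556427, nat_lit 26173223210], nat_lit 1271250, nat_lit 1271250, nat_lit 780000, nat_lit 1762500, nat_lit 1271250, nat_lit 1271250, [nat_lit 1100000, nat_lit 1442500, nat_lit 1271250], [nat_lit 11, nat_lit 40, nat_lit 40, nat_lit 80, nat_lit 1, nat_lit 456, nat_lit 225, nat_lit 13]⟩, C1.Rw.none,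
 ⟨nat_lit 5916, nat_lit 6325, ⟨.ofNat (nat_lit 335470), .ofNat (nat_lit 582240), .ofNat (nat_lit 378206), .ofNat (nat_lit 624961), .ofNat (nat_lit 342931), .ofNat (nat_lit 578509), .ofNat (nat_lit 385610), .ofNat (nat_lit 621173)⟩, ⟨.ofNat (nat_lit 246791), .ofNat (nat_lit 608730), .ofNat (nat_lit 289527), .ofNat (nat_lit 651452), .ofNat (nat_lit 250751), .ofNat (nat_lit 596275), .ofNat (nat_lit 293429), .ofNat (nat_lit 638940)⟩⟩, []⟩
noncomputable def p043_l70 : Lf2 := ⟨nat_lit 0, nat_lit 8, [nat_lit 50, nat_lit 5, nat_lit 5, nat_lit 20], true, nat_lit 160, nat_lit 320, nat_lit 0, nat_lit 360, ⟨nat_lit 0, nat_lit 1000, nat_lit 0, nat_lit 5, nat_lit 193, nat_lit 1000, nat_lit 171, nat_lit 0, nat_lit 0, nat_lit 0, nat_lit 0, nat_lit 0, nat_lit 0, nat_lit 0, nat_lit 0, nat_lit 5000000, false, false⟩,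
 nat_lit 0, nat_lit 8892, nat_lit 0, nat_lit 0, nat_lit 5175, nat_lit 0, nat_lit 1609, nat_lit 0, nat_lit 0, nat_lit 0, nat_lit 0, nat_lit 0, nat_lit 0, nat_lit 0, nat_lit 0, nat_lit 400000, nat_lit 0, nat_lit 0, [(nat_lit 9, [(nat_lit 1, nat_lit 1000)])],
 ⟨p043_k20, nat_lit 0, nat_lit 0, nat_lit 294, nat_lit 0, nat_lit 457369, [nat_lit 2702720000, nat_lit 2968400001, nat_lit 2997199999], [], [nat_lit 17750192526, nat_lit 16431601276, nat_lit 26870024076, nat_lit 24397988676, nat_lit 21674186650, nat_lit 22408710500, nat_lit 23472459850, nat_lit 24057082300], nat_lit 1271250, nat_lit 1271250, nat_lit 780000, nat_lit 1762500, nat_lit 1271250, nat_lit 1271250, [nat_lit 1100000, nat_lit 1442500, nat_lit 1271250], [nat_lit 11, nat_lit 40, nat_lit 40, nat_lit 80, nat_lit 1, nat_lit 456, nat_lit 225, nat_lit 13]⟩, C1.Rw.none,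
 ⟨nat_lit 5477, nat_lit 5917, ⟨.ofNat (nat_lit 342931), .ofNat (nat_lit 578514), .ofNat (nat_lit 385610), .ofNat (nat_lit 621176), .ofNat (nat_lit 350132), .ofNat (nat_lit 574913), .ofNat (nat_lit 392847), .ofNat (nat_lit 617611)⟩, ⟨.ofNat (nat_lit 250751), .ofNat (nat_lit 564885), .ofNat (nat_lit 293429), .ofNat (nat_lit 607556), .ofNat (nat_lit 254209), .ofNat (nat_lit 553941), .ofNat (nat_lit 296923), .ofNat (nat_lit 596648)⟩⟩, [⟨nat_lit 16, nat_lit 100, nat_lit 97, nat_lit 76, nat_lit 93149945⟩]⟩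
noncomputable def p043_l71 : Lf2 := ⟨nat_lit 0, nat_lit 8, [nat_lit 50, nat_lit 5, nat_lit 5, nat_lit 20], false, nat_lit 0, nat_lit 336, nat_lit 0, nat_lit 160, ⟨nat_lit 1000, nat_lit 0, nat_lit 0, nat_lit 0, nat_lit 0, nat_lit 0, nat_lit 0, nat_lit 0, nat_lit 0, nat_lit 0, nat_lit 0, nat_lit 0, nat_lit 0, nat_lit 0, nat_lit 0, nat_lit 0, false, false⟩,
 nat_lit 0, nat_lit 13180, nat_lit 0, nat_lit 0, nat_lit 6977, nat_lit 8123, nat_lit 1508, nat_lit 0, nat_lit 0, nat_lit 2719, nat_lit 0, nat_lit 0, nat_lit 0, nat_lit 0, nat_lit 0, nat_lit 0, nat_lit 0, nat_lit 0, [],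
 ⟨p043_k25, nat_lit 0, nat_lit 0, nat_lit 444, nat_lit 0, nat_lit 523819, [nat_lit 4688000000, nat_lit 6250000000, nat_lit 9842000000], [], [nat_lit 31763547232, nat_lit 32717471620, nat_lit 37512552376, nat_lit 38277397480, nat_lit 31013621376, nat_lit 31724508059, nat_lit 35135528664, nat_lit 35544189152], nat_lit 1271250, nat_lit 1271250, nat_lit 1271250, nat_lit 1271250, nat_lit 0, nat_lit 2373000, [nat_lit 1100000, nat_lit 1442500, nat_lit 1271250], [nat_lit 11, nat_lit 40, nat_lit 40, nat_lit 80, nat_lit 1, nat_lit 538, nat_lit 300, nat_lit 15]⟩, ⟨p043_k23, nat_lit 0, nat_lit 0, nat_lit 255, nat_lit 0, nat_lit 0, [nat_lit 6250000000, nat_lit 7968000000, nat_lit 11872000000], [], [nat_lit 25047534119, nat_lit 26379564471, nat_lit 38154683364, nat_lit 39155009732, nat_lit 20299714632, nat_lit 21825122824, nat_lit 30841281768, nat_lit 31585835756], nat_lit 0, nat_lit 0, nat_lit 0, nat_lit 0, nat_lit 0,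 nat_lit 0, [], [nat_lit 53, nat_lit 40, nat_lit 40, nat_lit 80, nat_lit 14, nat_lit 428, nat_lit 200, nat_lit 11]⟩,
 zbF0, [⟨nat_lit 4, nat_lit 92, nat_lit 100, nat_lit 75, nat_lit 177892260⟩, ⟨nat_lit 21, nat_lit 83, nat_lit 100, nat_lit 83, nat_lit 22221496⟩]⟩
noncomputable def p043_l72 : Lf2 := ⟨nat_lit 0, nat_lit 8, [nat_lit 50, nat_lit 5, nat_lit 5, nat_lit 20], false, nat_lit 0, nat_lit 336, nat_lit 160, nat_lit 360, ⟨nat_lit 1000, nat_lit 0, nat_lit 0, nat_lit 0, nat_lit 0, nat_lit 0, nat_lit 0, nat_lit 0, nat_lit 0, nat_lit 0, nat_lit 0, nat_lit 0, nat_lit 0, nat_lit 0, nat_lit 0, nat_lit 0, false, false⟩,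
 nat_lit 0, nat_lit 13249, nat_lit 0, nat_lit 0, nat_lit 7014, nat_lit 7912, nat_lit 1805, nat_lit 0, nat_lit 0, nat_lit 0, nat_lit 0, nat_lit 0, nat_lit 0, nat_lit 0, nat_lit 0, nat_lit 0, nat_lit 0, nat_lit 0, [],
 ⟨p043_k25, nat_lit 0, nat_lit 0, nat_lit 444, nat_lit 0, nat_lit 523819, [nat_lit 4688000000, nat_lit 6250000000, nat_lit 9842000000], [], [nat_lit 30045692794, nat_lit 31305279136, nat_lit 37277595848, nat_lit 38371856624, nat_lit 30871611232, nat_lit 31582092069, nat_lit 35034381823, nat_lit 35441234639], nat_lit 1271250, nat_lit 1271250, nat_lit 1271250, nat_lit 1271250, nat_lit 0, nat_lit 2373000, [nat_lit 1100000, nat_lit 1442500, nat_lit 1271250], [nat_lit 11, nat_lit 40, nat_lit 40, nat_lit 80, nat_lit 1, nat_lit 538, nat_lit 300, nat_lit 15]⟩, ⟨p043_k23, nat_lit 0, nat_lit 0, nat_lit 106, nat_lit 0, nat_lit 0, [nat_lit 6250000000, nat_lit 7968000000, nat_lit 11872000000], [], [nat_lit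 13209628640, nat_lit 15529410560, nat_lit 28328223488, nat_lit 29618388640, nat_lit 25869365680, nat_lit 26912588112, nat_lit 36601148672, nat_lit 36995288144], nat_lit 0, nat_lit 0, nat_lit 0, nat_lit 0, nat_lit 0, nat_lit 0, [], [nat_lit 53, nat_lit 40, nat_lit 40, nat_lit 80, nat_lit 14, nat_lit 483, nat_lit 250, nat_lit 12]⟩,
 zbF0, [⟨nat_lit 4, nat_lit 92, nat_lit 100, nat_lit 75, nat_lit 194378044⟩, ⟨nat_lit 7, nat_lit 77, nat_lit 100, nat_lit 72, nat_lit 628083789⟩]⟩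
noncomputable def p043_l73 : Lf2 := ⟨nat_lit 0, nat_lit 8, [nat_lit 50, nat_lit 5, nat_lit 5, nat_lit 20], true, nat_lit 0, nat_lit 160, nat_lit 0, nat_lit 360, ⟨nat_lit 0, nat_lit 1000, nat_lit 0, nat_lit 5, nat_lit 100, nat_lit 1000, nat_lit 54, nat_lit 0, nat_lit 0, nat_lit 0, nat_lit 0, nat_lit 0, nat_lit 0, nat_lit 0, nat_lit 0, nat_lit 5000000, false, false⟩,
 nat_lit 0, nat_lit 8348, nat_lit 0, nat_lit 0, nat_lit 4419, nat_lit 0, nat_lit 616, nat_lit 0, nat_lit 0, nat_lit 0, nat_lit 0, nat_lit 0, nat_lit 0, nat_lit 0, nat_lit 0, nat_lit 400000, nat_lit 0, nat_lit 0, [(nat_lit 6, [(nat_lit 1, nat_lit 1000)]), (nat_lit 9, [(nat_lit 1, nat_lit 1000)])],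
 ⟨p043_k25, nat_lit 0, nat_lit 0, nat_lit 563, nat_lit 0, nat_lit 523819, [nat_lit 2702720000, nat_lit 3151066667, nat_lit 3294533333], [], [nat_lit 34374722316, nat_lit 30243928218, nat_lit 27795296326, nat_lit 28859162590, nat_lit 27981949623, nat_lit 28981791196, nat_lit 31949054446, nat_lit 27885626500], nat_lit 1271250, nat_lit 1271250, nat_lit 21650, nat_lit 780000, nat_lit 0, nat_lit 1100001, [nat_lit 1100000, nat_lit 1442500, nat_lit 1271250], [nat_lit 11, nat_lit 40, nat_lit 40, nat_lit 80, nat_lit 1, nat_lit 373, nat_lit 150, nat_lit 11]⟩, C1.Rw.none,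
 ⟨nat_lit 5477, nat_lit 6325, ⟨.ofNat (nat_lit 96904), .ofNat (nat_lit 335470), .ofNat (nat_lit 139640), .ofNat (nat_lit 378206), .ofNat (nat_lit 132827), .ofNat (nat_lit 350132), .ofNat (nat_lit 175541), .ofNat (nat_lit 392847)⟩, ⟨.negSucc (nat_lit 82265), .ofNat (nat_lit 246791), .negSucc (nat_lit 39529), .ofNat (nat_lit 289527), .negSucc (nat_lit 45522), .ofNat (nat_lit 254209), .negSucc (nat_lit 2808), .ofNat (nat_lit 296923)⟩⟩, [⟨nat_lit 0, nat_lit 100, nat_lit 96, nat_lit 40, nat_lit 35001834⟩]⟩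
noncomputable def p043_l74 : Lf2 := ⟨nat_lit 0, nat_lit 8, [nat_lit 50, nat_lit 5, nat_lit 5, nat_lit 20], false, nat_lit 160, nat_lit 336, nat_lit 0, nat_lit 360, ⟨nat_lit 0, nat_lit 1000, nat_lit 0, nat_lit 5, nat_lit 100, nat_lit 1000, nat_lit 178, nat_lit 0, nat_lit 0, nat_lit 0, nat_lit 0, nat_lit 0, nat_lit 0, nat_lit 0, nat_lit 0, nat_lit 5000000, false, false⟩,
 nat_lit 0, nat_lit 4088, nat_lit 0, nat_lit 5253, nat_lit 2164, nat_lit 0, nat_lit 596, nat_lit 0, nat_lit 0, nat_lit 0, nat_lit 0, nat_lit 0, nat_lit 0, nat_lit 0, nat_lit 0, nat_lit 400000, nat_lit 0, nat_lit 0, [(nat_lit 6, [(nat_lit 1, nat_lit 1000)]), (nat_lit 9, [(nat_lit 1, nat_lit 1000)])],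
 ⟨p043_k25, nat_lit 0, nat_lit 0, nat_lit 320, nat_lit 0, nat_lit 297711, [nat_lit 2702720000, nat_lit 3151066667, nat_lit 3294533333], [], [nat_lit 28474203954, nat_lit 28885713876, nat_lit 27926015274, nat_lit 29004634810, nat_lit 32129284783, nat_lit 33122970995, nat_lit 32721678367, nat_lit 33083723543], nat_lit 1271250, nat_lit 1271250, nat_lit 21650, nat_lit 780000, nat_lit 1100001, nat_lit 2607000, [nat_lit 1100000, nat_lit 1442500, nat_lit 1271250], [nat_lit 11, nat_lit 40, nat_lit 40, nat_lit 80, nat_lit 1, nat_lit 428, nat_lit 200, nat_lit 12]⟩, ⟨p043_k23, nat_lit 0, nat_lit 0, nat_lit 570, nat_lit 0, nat_lit 389360, [nat_lit 0, nat_lit 0, nat_lit 0], [], [nat_lit 0, nat_lit 0, nat_lit 0, nat_lit 0, nat_lit 0, nat_lit 0, nat_lit 0, nat_lit 0], nat_lit 1271250, nat_lit 1271250, nat_lit 21650, nat_lit 780000, nat_lit 0, nat_lit 2542500, [nat_lit 1412500, nat_lit 1271250, nat_lit 1271250], [nat_lit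 53, nat_lit 40, nat_lit 40, nat_lit 80, nat_lit 14, nat_lit 428, nat_lit 200, nat_lit 12]⟩,
 ⟨nat_lit 5477, nat_lit 6325, ⟨.ofNat (nat_lit 96904), .ofNat (nat_lit 335470), .ofNat (nat_lit 139640), .ofNat (nat_lit 378206), .ofNat (nat_lit 132827), .ofNat (nat_lit 350132), .ofNat (nat_lit 175541), .ofNat (nat_lit 392847)⟩, ⟨.ofNat (nat_lit 246791), .ofNat (nat_lit 608692), .ofNat (nat_lit 289527), .ofNat (nat_lit 651380), .ofNat (nat_lit 254209), .ofNat (nat_lit 583853), .ofNat (nat_lit 296923), .ofNat (nat_lit 626519)⟩⟩, [⟨nat_lit 16, nat_lit 100, nat_lit 92, nat_lit 75, nat_lit 254309672⟩]⟩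
noncomputable def p043_l75 : Lf2 := ⟨nat_lit 0, nat_lit 8, [nat_lit 50, nat_lit 5, nat_lit 5, nat_lit 20], true, nat_lit 0, nat_lit 160, nat_lit 0, nat_lit 360, ⟨nat_lit 0, nat_lit 1000, nat_lit 0, nat_lit 5, nat_lit 161, nat_lit 1000, nat_lit 54, nat_lit 0, nat_lit 0, nat_lit 0, nat_lit 0, nat_lit 0, nat_lit 0, nat_lit 0, nat_lit 0, nat_lit 5000000, false, false⟩,
 nat_lit 0, nat_lit 7181, nat_lit 0, nat_lit 0, nat_lit 3801, nat_lit 0, nat_lit 541, nat_lit 0, nat_lit 0, nat_lit 0, nat_lit 0, nat_lit 0, nat_lit 0, nat_lit 0, nat_lit 0, nat_lit 400000, nat_lit 0, nat_lit 0, [(nat_lit 6, [(nat_lit 1, nat_lit 1000)]), (nat_lit 9, [(nat_lit 1, nat_lit 1000)])],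
 ⟨p043_k25, nat_lit 0, nat_lit 0, nat_lit 452, nat_lit 0, nat_lit 523819, [nat_lit 2702720000, nat_lit 3151066667, nat_lit 3294533333], [], [nat_lit 31645914507, nat_lit 28701078569, nat_lit 27931900757, nat_lit 28977691257, nat_lit 29020210127, nat_lit 27822625537, nat_lit 31583401319, nat_lit 28050185201], nat_lit 1271250, nat_lit 1271250, nat_lit 780000, nat_lit 1100001, nat_lit 0, nat_lit 1100001, [nat_lit 1100000, nat_lit 1442500, nat_lit 1271250], [nat_lit 11, nat_lit 40, nat_lit 40, nat_lit 80, nat_lit 1, nat_lit 373, nat_lit 150, nat_lit 11]⟩, C1.Rw.none,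
 ⟨nat_lit 5477, nat_lit 6325, ⟨.ofNat (nat_lit 335470), .ofNat (nat_lit 417734), .ofNat (nat_lit 378206), .ofNat (nat_lit 460470), .ofNat (nat_lit 350132), .ofNat (nat_lit 425065), .ofNat (nat_lit 392847), .ofNat (nat_lit 467780)⟩, ⟨.negSucc (nat_lit 82265), .ofNat (nat_lit 246791), .negSucc (nat_lit 39529), .ofNat (nat_lit 289527), .negSucc (nat_lit 45522), .ofNat (nat_lit 254209), .negSucc (nat_lit 2808), .ofNat (nat_lit 296923)⟩⟩, []⟩
noncomputable def p043_l76 : Lf2 := ⟨nat_lit 0, nat_lit 8, [nat_lit 50, nat_lit 5, nat_lit 5, nat_lit 20], true, nat_lit 0, nat_lit 160, nat_lit 0, nat_lit 360, ⟨nat_lit 0, nat_lit 1000, nat_lit 0, nat_lit 5, nat_lit 209, nat_lit 1000, nat_lit 54, nat_lit 0, nat_lit 0, nat_lit 0, nat_lit 0, nat_lit 0, nat_lit 0, nat_lit 0, nat_lit 0, nat_lit 5000000, false, false⟩,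
 nat_lit 0, nat_lit 8939, nat_lit 0, nat_lit 0, nat_lit 4732, nat_lit 0, nat_lit 633, nat_lit 0, nat_lit 0, nat_lit 0, nat_lit 0, nat_lit 0, nat_lit 0, nat_lit 0, nat_lit 0, nat_lit 400000, nat_lit 0, nat_lit 0, [(nat_lit 6, [(nat_lit 1, nat_lit 1000)]), (nat_lit 9, [(nat_lit 1, nat_lit 1000)])],
 ⟨p043_k25, nat_lit 0, nat_lit 0, nat_lit 439, nat_lit 0, nat_lit 523819, [nat_lit 2702720000, nat_lit 3151066667, nat_lit 3294533333], [], [nat_lit 32616262880, nat_lit 27612286448, nat_lit 25914660789, nat_lit 27023074693, nat_lit 23127245413, nat_lit 24215442949, nat_lit 27486606619, nat_lit 25543944161], nat_lit 1271250, nat_lit 1271250, nat_lit 1100001, nat_lit 1785000, nat_lit 0, nat_lit 1100001, [nat_lit 1100000, nat_lit 1442500, nat_lit 1271250], [nat_lit 11, nat_lit 40, nat_lit 40, nat_lit 80, nat_lit 1, nat_lit 401, nat_lit 175, nat_lit 12]⟩, C1.Rw.none,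
 ⟨nat_lit 5477, nat_lit 6325, ⟨.ofNat (nat_lit 417734), .ofNat (nat_lit 582178), .ofNat (nat_lit 460470), .ofNat (nat_lit 624852), .ofNat (nat_lit 425065), .ofNat (nat_lit 574846), .ofNat (nat_lit 467780), .ofNat (nat_lit 617499)⟩, ⟨.negSucc (nat_lit 82265), .ofNat (nat_lit 246791), .negSucc (nat_lit 39529), .ofNat (nat_lit 289527), .negSucc (nat_lit 45522), .ofNat (nat_lit 254209), .negSucc (nat_lit 2808), .ofNat (nat_lit 296923)⟩⟩, []⟩
noncomputable def p043_l77 : Lf2 := ⟨nat_lit 0, nat_lit 8, [nat_lit 50, nat_lit 5, nat_lit 5, nat_lit 20], false, nat_lit 160, nat_lit 336, nat_lit 0, nat_lit 360, ⟨nat_lit 0, nat_lit 1000, nat_lit 0, nat_lit 5, nat_lit 193, nat_lit 1000, nat_lit 178, nat_lit 0, nat_lit 0, nat_lit 0, nat_lit 0, nat_lit 0, nat_lit 0, nat_lit 0, nat_lit 0, nat_lit 5000000, false, false⟩,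
 nat_lit 0, nat_lit 8198, nat_lit 0, nat_lit 0, nat_lit 4340, nat_lit 0, nat_lit 714, nat_lit 0, nat_lit 0, nat_lit 0, nat_lit 0, nat_lit 0, nat_lit 0, nat_lit 0, nat_lit 0, nat_lit 400000, nat_lit 0, nat_lit 0, [(nat_lit 6, [(nat_lit 1, nat_lit 1000)]), (nat_lit 9, [(nat_lit 1, nat_lit 1000)])],
 ⟨p043_k25, nat_lit 0, nat_lit 0, nat_lit 204, nat_lit 0, nat_lit 297711, [nat_lit 2702720000, nat_lit 3151066667, nat_lit 3294533333], [], [nat_lit 29764544267, nat_lit 25175098427, nat_lit 30932469547, nat_lit 26786137707, nat_lit 23975199705, nat_lit 25191833913, nat_lit 25712376459, nat_lit 26890344331], nat_lit 1271250, nat_lit 1271250, nat_lit 780000, nat_lit 1762500, nat_lit 1271250, nat_lit 1271250, [nat_lit 1100000, nat_lit 1442500, nat_lit 1271250], [nat_lit 11, nat_lit 40, nat_lit 40, nat_lit 80, nat_lit 1, nat_lit 456, nat_lit 225, nat_lit 13]⟩, ⟨p043_k23, nat_lit 0, nat_lit 0, nat_lit 485, nat_lit 0,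 nat_lit 389360, [nat_lit 0, nat_lit 0, nat_lit 0], [], [nat_lit 0, nat_lit 0, nat_lit 0, nat_lit 0, nat_lit 0, nat_lit 0, nat_lit 0, nat_lit 0], nat_lit 1271250, nat_lit 1271250, nat_lit 780000, nat_lit 1762500, nat_lit 0, nat_lit 2542500, [nat_lit 1412500, nat_lit 1271250, nat_lit 1271250], [nat_lit 53, nat_lit 40, nat_lit 40, nat_lit 80, nat_lit 14, nat_lit 456, nat_lit 225, nat_lit 12]⟩,
 ⟨nat_lit 5477, nat_lit 6325, ⟨.ofNat (nat_lit 335470), .ofNat (nat_lit 582178), .ofNat (nat_lit 378206), .ofNat (nat_lit 624852), .ofNat (nat_lit 350132), .ofNat (nat_lit 574846), .ofNat (nat_lit 392847), .ofNat (nat_lit 617499)⟩, ⟨.ofNat (nat_lit 246791), .ofNat (nat_lit 608692), .ofNat (nat_lit 289527), .ofNat (nat_lit 651380), .ofNat (nat_lit 254209), .ofNat (nat_lit 583853), .ofNat (nat_lit 296923), .ofNat (nat_lit 626519)⟩⟩, []⟩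
noncomputable def p043_l78 : Lf2 := ⟨nat_lit 0, nat_lit 8, [nat_lit 50, nat_lit 5, nat_lit 5, nat_lit 20], false, nat_lit 0, nat_lit 336, nat_lit 0, nat_lit 360, ⟨nat_lit 541, nat_lit 459, nat_lit 0, nat_lit 6, nat_lit 305, nat_lit 459, nat_lit 125, nat_lit 0, nat_lit 0, nat_lit 0, nat_lit 0, nat_lit 0, nat_lit 0, nat_lit 0, nat_lit 0, nat_lit 5000000, true, true⟩,
 nat_lit 10087, nat_lit 1091, nat_lit 0, nat_lit 2719, nat_lit 5917, nat_lit 4323, nat_lit 1069, nat_lit 0, nat_lit 0, nat_lit 808, nat_lit 0, nat_lit 0, nat_lit 0, nat_lit 0, nat_lit 0, nat_lit 183600, nat_lit 0, nat_lit 0, [(nat_lit 6, [(nat_lit 1, nat_lit 459)])],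
 ⟨p043_k25, nat_lit 0, nat_lit 0, nat_lit 297, nat_lit 0, nat_lit 158261, [nat_lit 3771958401, nat_lit 4827589600, nat_lit 6779184800], [], [nat_lit 27068409961, nat_lit 27684170927, nat_lit 34008311436, nat_lit 34565835068, nat_lit 27777625500, nat_lit 28218344377, nat_lit 33139908409, nat_lit 33640134834], nat_lit 1271250, nat_lit 1271250, nat_lit 1271250, nat_lit 1271250, nat_lit 0, nat_lit 2373000, [nat_lit 1100000, nat_lit 1442500, nat_lit 1271250], [nat_lit 11, nat_lit 40, nat_lit 40, nat_lit 80, nat_lit 1, nat_lit 483, nat_lit 250, nat_lit 14]⟩, ⟨p043_k23, nat_lit 0, nat_lit 0, nat_lit 367, nat_lit 0, nat_lit 206981, [nat_lit 3381250000, nat_lit 4310688000, nat_lit 6422752000], [], [nat_lit 18185839612, nat_lit 18630970732, nat_lit 22418814684, nat_lit 22606192684, nat_lit 20743887316, nat_lit 17857634042, nat_lit 20093370256, nat_lit 20079538500], nat_lit 1271250, nat_lit 1271250, nat_lit 1271250,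 nat_lit 1271250, nat_lit 0, nat_lit 2542500, [nat_lit 1412500, nat_lit 1271250, nat_lit 1271250], [nat_lit 53, nat_lit 40, nat_lit 40, nat_lit 80, nat_lit 14, nat_lit 483, nat_lit 250, nat_lit 12]⟩,
 ⟨nat_lit 5916, nat_lit 6325, ⟨.ofNat (nat_lit 582240), .ofNat (nat_lit 911200), .ofNat (nat_lit 624961), .ofNat (nat_lit 953920), .ofNat (nat_lit 578509), .ofNat (nat_lit 892546), .ofNat (nat_lit 621173), .ofNat (nat_lit 935210)⟩, ⟨.negSucc (nat_lit 82265), .ofNat (nat_lit 608730), .negSucc (nat_lit 39529), .ofNat (nat_lit 651452), .negSucc (nat_lit 63383), .ofNat (nat_lit 596275), .negSucc (nat_lit 20704), .ofNat (nat_lit 638940)⟩⟩, [⟨nat_lit 4, nat_lit 88, nat_lit 100, nat_lit 74, nat_lit 155182508⟩, ⟨nat_lit 7, nat_lit 77, nat_lit 100, nat_lit 72, nat_lit 97867732⟩]⟩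
noncomputable def p043_l79 : Lf2 := ⟨nat_lit 0, nat_lit 8, [nat_lit 50, nat_lit 5, nat_lit 5, nat_lit 20], false, nat_lit 0, nat_lit 320, nat_lit 0, nat_lit 360, ⟨nat_lit 443, nat_lit 557, nat_lit 0, nat_lit 6, nat_lit 301, nat_lit 557, nat_lit 116, nat_lit 0, nat_lit 0, nat_lit 0, nat_lit 0, nat_lit 0, nat_lit 0, nat_lit 0, nat_lit 0, nat_lit 5000000, true, true⟩,
 nat_lit 8272, nat_lit 477, nat_lit 0, nat_lit 852, nat_lit 5092, nat_lit 3545, nat_lit 971, nat_lit 0, nat_lit 0, nat_lit 663, nat_lit 0, nat_lit 0, nat_lit 0, nat_lit 0, nat_lit 0, nat_lit 222800, nat_lit 0, nat_lit 0, [(nat_lit 9, [(nat_lit 1, nat_lit 557)])],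
 ⟨p043_k20, nat_lit 0, nat_lit 0, nat_lit 329, nat_lit 0, nat_lit 264708, [nat_lit 3582199041, nat_lit 4422148800, nat_lit 5972909467], [], [nat_lit 25849986050, nat_lit 26572700042, nat_lit 32544683994, nat_lit 33342720672, nat_lit 27344952978, nat_lit 27812273651, nat_lit 32131874779, nat_lit 32423343251], nat_lit 1271250, nat_lit 1271250, nat_lit 1271250, nat_lit 1271250, nat_lit 0, nat_lit 2260000, [nat_lit 1100000, nat_lit 1442500, nat_lit 1271250], [nat_lit 11, nat_lit 40, nat_lit 40, nat_lit 80, nat_lit 1, nat_lit 483, nat_lit 250, nat_lit 14]⟩, ⟨p043_k23, nat_lit 0, nat_lit 0, nat_lit 429, nat_lit 0, nat_lit 389360, [nat_lit 2768750000, nat_lit 3529824000, nat_lit 5259296000], [], [nat_lit 15544165847, nat_lit 15786059003, nat_lit 18351642839, nat_lit 18504761175, nat_lit 16983743276, nat_lit 14739018276, nat_lit 16448005947, nat_lit 16440246586], nat_lit 1271250, nat_lit 1271250, nat_lit 1271250,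 nat_lit 1271250, nat_lit 0, nat_lit 2542500, [nat_lit 1412500, nat_lit 1271250, nat_lit 1271250], [nat_lit 53, nat_lit 40, nat_lit 40, nat_lit 80, nat_lit 14, nat_lit 483, nat_lit 250, nat_lit 12]⟩,
 ⟨nat_lit 5477, nat_lit 5917, ⟨.ofNat (nat_lit 578514), .ofNat (nat_lit 892572), .ofNat (nat_lit 621176), .ofNat (nat_lit 935234), .ofNat (nat_lit 574913), .ofNat (nat_lit 874569), .ofNat (nat_lit 617611), .ofNat (nat_lit 917267)⟩, ⟨.negSucc (nat_lit 63383), .ofNat (nat_lit 564885), .negSucc (nat_lit 20704), .ofNat (nat_lit 607556), .negSucc (nat_lit 45522), .ofNat (nat_lit 553941), .negSucc (nat_lit 2808), .ofNat (nat_lit 596648)⟩⟩, [⟨nat_lit 16, nat_lit 100, nat_lit 97, nat_lit 76, nat_lit 135083917⟩, ⟨nat_lit 7, nat_lit 77, nat_lit 100, nat_lit 72, nat_lit 80254572⟩]⟩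
noncomputable def b_V_600_500_10_19 : St := ⟨true, nat_lit 1, nat_lit 2, nat_lit 2, nat_lit 80, nat_lit 240, nat_lit 280, nat_lit 200, nat_lit 240, nat_lit 4, nat_lit 400, nat_lit 40, nat_lit 80, nat_lit 0, nat_lit 336, nat_lit 0, nat_lit 360, nat_lit 0, nat_lit 32, nat_lit 0, nat_lit 0, nat_lit 0, nat_lit 0⟩
theorem d_V_600_500_10_19 (h : EB TB.env) : Dead b_V_600_500_10_19 := chkB_sound0 h (T :=
(.st (nat_lit 1)
(.spl (nat_lit 2) (nat_lit 120)
(.spl (nat_lit 4) (nat_lit 160)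
(.leaf p043_l64)
(.spl (nat_lit 0) (nat_lit 260)
(.leaf p043_l65)
(.trZ (nat_lit 0) (nat_lit 100) (nat_lit 95) (nat_lit 30) (nat_lit 8) (.trX (nat_lit 16) (nat_lit 100) (nat_lit 85) (nat_lit 84) (nat_lit 320) (.leaf p043_l66)))))
(.spl (nat_lit 2) (nat_lit 240)
(.spl (nat_lit 4) (nat_lit 160)
(.spl (nat_lit 0) (nat_lit 260)
(.leaf p043_l67)
(.leaf p043_l68))
(.spl (nat_lit 0) (nat_lit 260)
(.leaf p043_l69)
(.trX (nat_lit 16) (nat_lit 100) (nat_lit 85) (nat_lit 84) (nat_lit 320) (.leaf p043_l70))))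
(.spl (nat_lit 5) (nat_lit 160)
(.leaf p043_l71)
(.leaf p043_l72))))
(.spl (nat_lit 2) (nat_lit 120)
(.spl (nat_lit 4) (nat_lit 160)
(.leaf p043_l73)
(.leaf p043_l74))
(.spl (nat_lit 2) (nat_lit 240)
(.spl (nat_lit 4) (nat_lit 160)
(.spl (nat_lit 2) (nat_lit 160)
(.leaf p043_l75)
(.leaf p043_l76))
(.leaf p043_l77))
(.spl (nat_lit 0) (nat_lit 260)
(.leaf p043_l78)
(.trX (nat_lit 16) (nat_lit 100) (nat_lit 85) (nat_lit 84) (nat_lit 320) (.leaf p043_l79))))))) (by decide +kernel)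
noncomputable def p043_l80 : Lf2 := ⟨nat_lit 0, nat_lit 2, [nat_lit 10, nat_lit 5, nat_lit 5, nat_lit 20], true, nat_lit 0, nat_lit 160, nat_lit 0, nat_lit 384, ⟨nat_lit 0, nat_lit 0, nat_lit 1000, nat_lit 5, nat_lit 147, nat_lit 392, nat_lit 63, nat_lit 1000, nat_lit 35267, nat_lit 261, nat_lit 3449, nat_lit 204, nat_lit 59007421, nat_lit 0, nat_lit 0, nat_lit 1827560, false, false⟩,
 nat_lit 0, nat_lit 0, nat_lit 0, nat_lit 11628, nat_lit 3699, nat_lit 0, nat_lit 0, nat_lit 0, nat_lit 0, nat_lit 0, nat_lit 0, nat_lit 0, nat_lit 0, nat_lit 0, nat_lit 72, nat_lit 877000, nat_lit 0, nat_lit 0, [(nat_lit 6, [(nat_lit 5, nat_lit 205), (nat_lit 6, nat_lit 795)]), (nat_lit 9, [(nat_lit 5, nat_lit 205), (nat_lit 6, nat_lit 795)])],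
 ⟨p043_k26, nat_lit 0, nat_lit 0, nat_lit 185, nat_lit 0, nat_lit 0, [nat_lit 2684442000, nat_lit 94634000], [], [nat_lit 13827234098, nat_lit 16321807955, nat_lit 16914052176, nat_lit 19030317380, nat_lit 13646235002, nat_lit 15944754964, nat_lit 16975333040, nat_lit 18771749696], nat_lit 0, nat_lit 0, nat_lit 0, nat_lit 0, nat_lit 0, nat_lit 0, [], [nat_lit 39, nat_lit 40, nat_lit 40, nat_lit 80, nat_lit 7, nat_lit 317, nat_lit 100, nat_lit 11]⟩, C1.Rw.none,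
 ⟨nat_lit 5477, nat_lit 6325, ⟨.ofNat (nat_lit 96904), .ofNat (nat_lit 582178), .ofNat (nat_lit 139640), .ofNat (nat_lit 624852), .ofNat (nat_lit 132827), .ofNat (nat_lit 574846), .ofNat (nat_lit 175541), .ofNat (nat_lit 617499)⟩, ⟨.negSucc (nat_lit 39529), .ofNat (nat_lit 289527), .ofNat (nat_lit 0), .ofNat (nat_lit 332263), .negSucc (nat_lit 2808), .ofNat (nat_lit 296923), .ofNat (nat_lit 0), .ofNat (nat_lit 339637)⟩⟩, []⟩
noncomputable def p043_l81 : Lf2 := ⟨nat_lit 1, nat_lit 2, [nat_lit 10, nat_lit 5, nat_lit 5, nat_lit 20], false, nat_lit 160, nat_lit 364, nat_lit 0, nat_lit 384, zbN0,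
 nat_lit 0, nat_lit 0, nat_lit 0, nat_lit 0, nat_lit 0, nat_lit 0, nat_lit 0, nat_lit 0, nat_lit 0, nat_lit 0, nat_lit 0, nat_lit 0, nat_lit 0, nat_lit 0, nat_lit 0, nat_lit 0, nat_lit 0, nat_lit 0, [],
 C1.Rw.none, C1.Rw.none,
 zbF0, []⟩
noncomputable def p043_l82 : Lf2 := ⟨nat_lit 0, nat_lit 2, [nat_lit 10, nat_lit 5, nat_lit 5, nat_lit 20], true, nat_lit 160, nat_lit 240, nat_lit 0, nat_lit 384, ⟨nat_lit 0, nat_lit 0, nat_lit 1000, nat_lit 5, nat_lit 104, nat_lit 1000, nat_lit 157, nat_lit 1000, nat_lit 45528, nat_lit 267, nat_lit 101400, nat_lit 293, nat_lit 52978740, nat_lit 0, nat_lit 0, nat_lit 3446360, false, false⟩,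
 nat_lit 0, nat_lit 0, nat_lit 0, nat_lit 6243, nat_lit 3630, nat_lit 0, nat_lit 0, nat_lit 0, nat_lit 0, nat_lit 0, nat_lit 0, nat_lit 0, nat_lit 0, nat_lit 0, nat_lit 37, nat_lit 1000000, nat_lit 0, nat_lit 0, [(nat_lit 9, [(nat_lit 6, nat_lit 1000)])],
 ⟨p043_k12, nat_lit 0, nat_lit 0, nat_lit 61, nat_lit 0, nat_lit 0, [nat_lit 1689600001, nat_lit 0], [], [nat_lit 12552340213, nat_lit 13996469457, nat_lit 11929691401, nat_lit 13237098441, nat_lit 16159857274, nat_lit 17385620441, nat_lit 15274398421, nat_lit 16388603521], nat_lit 0, nat_lit 0, nat_lit 0, nat_lit 0, nat_lit 0, nat_lit 0, [], [nat_lit 31, nat_lit 40, nat_lit 40, nat_lit 80, nat_lit 3, nat_lit 317, nat_lit 100, nat_lit 12]⟩, C1.Rw.none,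
 ⟨nat_lit 5477, nat_lit 5917, ⟨.ofNat (nat_lit 123037), .ofNat (nat_lit 342931), .ofNat (nat_lit 165716), .ofNat (nat_lit 385610), .ofNat (nat_lit 140320), .ofNat (nat_lit 350132), .ofNat (nat_lit 183034), .ofNat (nat_lit 392847)⟩, ⟨.ofNat (nat_lit 293429), .ofNat (nat_lit 450496), .ofNat (nat_lit 336108), .ofNat (nat_lit 493175), .ofNat (nat_lit 296923), .ofNat (nat_lit 446789), .ofNat (nat_lit 339637), .ofNat (nat_lit 489503)⟩⟩, [⟨nat_lit 0, nat_lit 100, nat_lit 94, nat_lit 59, nat_lit 150378038⟩]⟩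
noncomputable def p043_l83 : Lf2 := ⟨nat_lit 1, nat_lit 2, [nat_lit 10, nat_lit 5, nat_lit 5, nat_lit 20], false, nat_lit 240, nat_lit 320, nat_lit 0, nat_lit 288, zbN0,
 nat_lit 0, nat_lit 0, nat_lit 0, nat_lit 0, nat_lit 0, nat_lit 0, nat_lit 0, nat_lit 0, nat_lit 0, nat_lit 0, nat_lit 0, nat_lit 0, nat_lit 0, nat_lit 0, nat_lit 0, nat_lit 0, nat_lit 0, nat_lit 0, [],
 C1.Rw.none, C1.Rw.none,
 zbF0, []⟩
noncomputable def p043_l84 : Lf2 := ⟨nat_lit 0, nat_lit 2, [nat_lit 10, nat_lit 5, nat_lit 5, nat_lit 20], false, nat_lit 240, nat_lit 320, nat_lit 0, nat_lit 276, ⟨nat_lit 1000, nat_lit 0, nat_lit 0, nat_lit 0, nat_lit 0, nat_lit 0, nat_lit 0, nat_lit 0, nat_lit 0, nat_lit 0, nat_lit 0, nat_lit 0, nat_lit 0, nat_lit 0, nat_lit 0, nat_lit 0, false, false⟩,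
 nat_lit 0, nat_lit 0, nat_lit 0, nat_lit 52084, nat_lit 6579, nat_lit 10650, nat_lit 3300, nat_lit 0, nat_lit 0, nat_lit 6045, nat_lit 0, nat_lit 0, nat_lit 0, nat_lit 0, nat_lit 0, nat_lit 0, nat_lit 0, nat_lit 0, [],
 ⟨p043_k12, nat_lit 0, nat_lit 0, nat_lit 110, nat_lit 0, nat_lit 0, [nat_lit 4688000000, nat_lit 6250000000], [], [nat_lit 19684920513, nat_lit 20954261921, nat_lit 18762451655, nat_lit 20021375622, nat_lit 25256189334, nat_lit 26724884259, nat_lit 24179681174, nat_lit 25243248107], nat_lit 0, nat_lit 0, nat_lit 0, nat_lit 0, nat_lit 0, nat_lit 0, [], [nat_lit 31, nat_lit 40, nat_lit 40, nat_lit 80, nat_lit 3, nat_lit 215, nat_lit 10, nat_lit 8]⟩, ⟨p043_k5, nat_lit 0, nat_lit 0, nat_lit 161, nat_lit 0, nat_lit 0, [nat_lit 6250000000, nat_lit 7968000000], [], [nat_lit 18921542401, nat_lit 21803730481, nat_lit 16549399971, nat_lit 18388063760, nat_lit 20552267061, nat_lit 22386153185, nat_lit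 18057488933, nat_lit 19896019489], nat_lit 0, nat_lit 0, nat_lit 0, nat_lit 0, nat_lit 0, nat_lit 0, [], [nat_lit 26, nat_lit 40, nat_lit 40, nat_lit 80, nat_lit 2, nat_lit 373, nat_lit 150, nat_lit 13]⟩,
 zbF0, [⟨nat_lit 0, nat_lit 100, nat_lit 94, nat_lit 59, nat_lit 2510634006⟩, ⟨nat_lit 4, nat_lit 82, nat_lit 100, nat_lit 92, nat_lit 381229256⟩, ⟨nat_lit 23, nat_lit 92, nat_lit 100, nat_lit 48, nat_lit 457621778⟩]⟩
noncomputable def p043_l85 : Lf2 := ⟨nat_lit 0, nat_lit 2, [nat_lit 10, nat_lit 5, nat_lit 5, nat_lit 20], false, nat_lit 240, nat_lit 320, nat_lit 0, nat_lit 288, ⟨nat_lit 881, nat_lit 119, nat_lit 0, nat_lit 5, nat_lit 87, nat_lit 119, nat_lit 219, nat_lit 0, nat_lit 0, nat_lit 0, nat_lit 0, nat_lit 0, nat_lit 48266960, nat_lit 3607650, nat_lit 15125390, nat_lit 3852410, false, false⟩,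
 nat_lit 0, nat_lit 0, nat_lit 0, nat_lit 27525, nat_lit 5928, nat_lit 9042, nat_lit 0, nat_lit 0, nat_lit 0, nat_lit 4770, nat_lit 0, nat_lit 0, nat_lit 0, nat_lit 0, nat_lit 0, nat_lit 47600, nat_lit 0, nat_lit 0, [(nat_lit 9, [(nat_lit 1, nat_lit 119)])],
 ⟨p043_k12, nat_lit 0, nat_lit 0, nat_lit 77, nat_lit 0, nat_lit 0, [nat_lit 4451751680, nat_lit 5846923200], [], [nat_lit 17024366413, nat_lit 18573557632, nat_lit 16527209616, nat_lit 18071367968, nat_lit 23258903472, nat_lit 24456808896, nat_lit 22740563024, nat_lit 23935767968], nat_lit 0, nat_lit 0, nat_lit 0, nat_lit 0, nat_lit 0, nat_lit 0, [], [nat_lit 31, nat_lit 40, nat_lit 40, nat_lit 80, nat_lit 3, nat_lit 215, nat_lit 10, nat_lit 7]⟩, ⟨p043_k5, nat_lit 0, nat_lit 0, nat_lit 138, nat_lit 0, nat_lit 0, [nat_lit 5506250000, nat_lit 7019808000], [], [nat_lit 15330811915, nat_lit 16743900920, nat_lit 14512817726, nat_lit 15923543912, nat_lit 17338709001,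 nat_lit 18832708298, nat_lit 16642238048, nat_lit 17775791471], nat_lit 0, nat_lit 0, nat_lit 0, nat_lit 0, nat_lit 0, nat_lit 0, [], [nat_lit 26, nat_lit 40, nat_lit 40, nat_lit 80, nat_lit 2, nat_lit 373, nat_lit 150, nat_lit 13]⟩,
 ⟨nat_lit 5477, nat_lit 5917, ⟨.ofNat (nat_lit 191497), .ofNat (nat_lit 207203), .ofNat (nat_lit 212836), .ofNat (nat_lit 228543), .ofNat (nat_lit 206637), .ofNat (nat_lit 221623), .ofNat (nat_lit 227994), .ofNat (nat_lit 242980)⟩, ⟨.ofNat (nat_lit 450496), .ofNat (nat_lit 607556), .ofNat (nat_lit 493175), .ofNat (nat_lit 650219), .ofNat (nat_lit 446789), .ofNat (nat_lit 596648), .ofNat (nat_lit 489503), .ofNat (nat_lit 639346)⟩⟩, [⟨nat_lit 0, nat_lit 100, nat_lit 94, nat_lit 59, nat_lit 1222206741⟩, ⟨nat_lit 4, nat_lit 82, nat_lit 100, nat_lit 92, nat_lit 396322739⟩, ⟨nat_lit 23, nat_lit 93, nat_lit 100, nat_lit 58, nat_lit 357508644⟩]⟩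
noncomputable def p043_l86 : Lf2 := ⟨nat_lit 0, nat_lit 2, [nat_lit 10, nat_lit 5, nat_lit 5, nat_lit 20], true, nat_lit 240, nat_lit 320, nat_lit 0, nat_lit 336, ⟨nat_lit 0, nat_lit 1000, nat_lit 0, nat_lit 5, nat_lit 101, nat_lit 1000, nat_lit 219, nat_lit 0, nat_lit 0, nat_lit 0, nat_lit 0, nat_lit 0, nat_lit 47465814, nat_lit 4510680, nat_lit 15023506, nat_lit 4038374, false, false⟩,
 nat_lit 0, nat_lit 0, nat_lit 0, nat_lit 13914, nat_lit 4595, nat_lit 0, nat_lit 0, nat_lit 0, nat_lit 0, nat_lit 0, nat_lit 0, nat_lit 0, nat_lit 0, nat_lit 0, nat_lit 0, nat_lit 1000000, nat_lit 0, nat_lit 0, [(nat_lit 9, [(nat_lit 2, nat_lit 1000)])],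
 ⟨p043_k12, nat_lit 0, nat_lit 0, nat_lit 70, nat_lit 0, nat_lit 0, [nat_lit 2663466667, nat_lit 2329200000], [], [nat_lit 15867159807, nat_lit 17217521287, nat_lit 15380693287, nat_lit 16682570767, nat_lit 21291995727, nat_lit 22357435787, nat_lit 20610751617, nat_lit 21641895427], nat_lit 0, nat_lit 0, nat_lit 0, nat_lit 0, nat_lit 0, nat_lit 0, [], [nat_lit 31, nat_lit 40, nat_lit 40, nat_lit 80, nat_lit 3, nat_lit 226, nat_lit 20, nat_lit 8]⟩, C1.Rw.none,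
 ⟨nat_lit 5477, nat_lit 5917, ⟨.ofNat (nat_lit 185864), .ofNat (nat_lit 264398), .ofNat (nat_lit 228543), .ofNat (nat_lit 307076), .ofNat (nat_lit 200266), .ofNat (nat_lit 275199), .ofNat (nat_lit 242980), .ofNat (nat_lit 317913)⟩, ⟨.ofNat (nat_lit 450496), .ofNat (nat_lit 607556), .ofNat (nat_lit 493175), .ofNat (nat_lit 650219), .ofNat (nat_lit 446789), .ofNat (nat_lit 596648), .ofNat (nat_lit 489503), .ofNat (nat_lit 639346)⟩⟩, [⟨nat_lit 4, nat_lit 82, nat_lit 100, nat_lit 92, nat_lit 263662814⟩]⟩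
noncomputable def p043_l87 : Lf2 := ⟨nat_lit 0, nat_lit 2, [nat_lit 10, nat_lit 5, nat_lit 5, nat_lit 20], true, nat_lit 240, nat_lit 320, nat_lit 0, nat_lit 364, ⟨nat_lit 0, nat_lit 1000, nat_lit 0, nat_lit 5, nat_lit 132, nat_lit 1000, nat_lit 219, nat_lit 0, nat_lit 0, nat_lit 0, nat_lit 0, nat_lit 0, nat_lit 45598083, nat_lit 6655957, nat_lit 14745960, nat_lit 4408626, false, false⟩,
 nat_lit 0, nat_lit 0, nat_lit 0, nat_lit 13958, nat_lit 4837, nat_lit 0, nat_lit 0, nat_lit 0, nat_lit 0, nat_lit 0, nat_lit 0, nat_lit 0, nat_lit 0, nat_lit 0, nat_lit 0, nat_lit 1000000, nat_lit 0, nat_lit 0, [(nat_lit 9, [(nat_lit 2, nat_lit 1000)])],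
 ⟨p043_k12, nat_lit 0, nat_lit 0, nat_lit 49, nat_lit 0, nat_lit 0, [nat_lit 2663466667, nat_lit 2329200000], [], [nat_lit 15108732719, nat_lit 16444050727, nat_lit 15308019625, nat_lit 16576925915, nat_lit 20474895237, nat_lit 21528447763, nat_lit 20411454177, nat_lit 21415906567], nat_lit 0, nat_lit 0, nat_lit 0, nat_lit 0, nat_lit 0, nat_lit 0, [], [nat_lit 31, nat_lit 40, nat_lit 40, nat_lit 80, nat_lit 3, nat_lit 238, nat_lit 30, nat_lit 8]⟩, C1.Rw.none,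
 ⟨nat_lit 5477, nat_lit 5917, ⟨.ofNat (nat_lit 264398), .ofNat (nat_lit 342931), .ofNat (nat_lit 307076), .ofNat (nat_lit 385610), .ofNat (nat_lit 275199), .ofNat (nat_lit 350132), .ofNat (nat_lit 317913), .ofNat (nat_lit 392847)⟩, ⟨.ofNat (nat_lit 450496), .ofNat (nat_lit 607556), .ofNat (nat_lit 493175), .ofNat (nat_lit 650219), .ofNat (nat_lit 446789), .ofNat (nat_lit 596648), .ofNat (nat_lit 489503), .ofNat (nat_lit 639346)⟩⟩, [⟨nat_lit 16, nat_lit 100, nat_lit 82, nat_lit 92, nat_lit 263151616⟩]⟩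
noncomputable def p043_l88 : Lf2 := ⟨nat_lit 0, nat_lit 2, [nat_lit 10, nat_lit 5, nat_lit 5, nat_lit 20], true, nat_lit 320, nat_lit 352, nat_lit 0, nat_lit 300, ⟨nat_lit 0, nat_lit 1000, nat_lit 0, nat_lit 5, nat_lit 104, nat_lit 1000, nat_lit 262, nat_lit 0, nat_lit 0, nat_lit 0, nat_lit 0, nat_lit 0, nat_lit 43268391, nat_lit 4514956, nat_lit 19216653, nat_lit 4359473, false, false⟩,
 nat_lit 0, nat_lit 0, nat_lit 0, nat_lit 100000, nat_lit 4611, nat_lit 0, nat_lit 585, nat_lit 0, nat_lit 0, nat_lit 0, nat_lit 0, nat_lit 0, nat_lit 0, nat_lit 0, nat_lit 0, nat_lit 1000000, nat_lit 0, nat_lit 0, [(nat_lit 9, [(nat_lit 2, nat_lit 1000)])],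
 ⟨p043_k12, nat_lit 0, nat_lit 0, nat_lit 135, nat_lit 0, nat_lit 0, [nat_lit 2663466667, nat_lit 2329200000], [], [nat_lit 23480750258, nat_lit 24339751637, nat_lit 21672336498, nat_lit 22509555926, nat_lit 26147176956, nat_lit 27232575963, nat_lit 23662571766, nat_lit 24417827546], nat_lit 0, nat_lit 0, nat_lit 0, nat_lit 0, nat_lit 0, nat_lit 0, [], [nat_lit 31, nat_lit 40, nat_lit 40, nat_lit 80, nat_lit 3, nat_lit 238, nat_lit 30, nat_lit 8]⟩, C1.Rw.none,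
 ⟨nat_lit 5477, nat_lit 5917, ⟨.ofNat (nat_lit 123037), .ofNat (nat_lit 342931), .ofNat (nat_lit 165716), .ofNat (nat_lit 385610), .ofNat (nat_lit 140320), .ofNat (nat_lit 350132), .ofNat (nat_lit 183034), .ofNat (nat_lit 392847)⟩, ⟨.ofNat (nat_lit 607556), .ofNat (nat_lit 670368), .ofNat (nat_lit 650219), .ofNat (nat_lit 713031), .ofNat (nat_lit 596648), .ofNat (nat_lit 656580), .ofNat (nat_lit 639346), .ofNat (nat_lit 699278)⟩⟩, [⟨nat_lit 0, nat_lit 100, nat_lit 94, nat_lit 59, nat_lit 170905961⟩, ⟨nat_lit 4, nat_lit 82, nat_lit 100, nat_lit 92, nat_lit 2708369672⟩]⟩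
noncomputable def p043_l89 : Lf2 := ⟨nat_lit 0, nat_lit 2, [nat_lit 10, nat_lit 5, nat_lit 5, nat_lit 20], true, nat_lit 160, nat_lit 364, nat_lit 0, nat_lit 384, ⟨nat_lit 0, nat_lit 1000, nat_lit 0, nat_lit 5, nat_lit 193, nat_lit 1000, nat_lit 206, nat_lit 0, nat_lit 0, nat_lit 0, nat_lit 0, nat_lit 0, nat_lit 42515857, nat_lit 11600348, nat_lit 12883795, nat_lit 4899250, false, false⟩,
 nat_lit 0, nat_lit 0, nat_lit 0, nat_lit 11129, nat_lit 4519, nat_lit 0, nat_lit 0, nat_lit 0, nat_lit 0, nat_lit 0, nat_lit 0, nat_lit 0, nat_lit 0, nat_lit 0, nat_lit 0, nat_lit 400000, nat_lit 0, nat_lit 0, [(nat_lit 6, [(nat_lit 1, nat_lit 1000)]), (nat_lit 9, [(nat_lit 1, nat_lit 1000)])],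
 ⟨p043_k2, nat_lit 0, nat_lit 0, nat_lit 73, nat_lit 0, nat_lit 0, [nat_lit 2702720000, nat_lit 3030400001, nat_lit 3280799999], [], [nat_lit 10714834868, nat_lit 13625522372, nat_lit 15378159856, nat_lit 17684661780, nat_lit 23046696004, nat_lit 24721029402, nat_lit 25227492912, nat_lit 26727048305], nat_lit 0, nat_lit 0, nat_lit 0, nat_lit 0, nat_lit 0, nat_lit 0, [], [nat_lit 9, nat_lit 40, nat_lit 40, nat_lit 80, nat_lit 2, nat_lit 401, nat_lit 175, nat_lit 13]⟩, C1.Rw.none,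
 ⟨nat_lit 5477, nat_lit 6325, ⟨.ofNat (nat_lit 335470), .ofNat (nat_lit 582178), .ofNat (nat_lit 378206), .ofNat (nat_lit 624852), .ofNat (nat_lit 350132), .ofNat (nat_lit 574846), .ofNat (nat_lit 392847), .ofNat (nat_lit 617499)⟩, ⟨.ofNat (nat_lit 289527), .ofNat (nat_lit 708908), .ofNat (nat_lit 332263), .ofNat (nat_lit 751581), .ofNat (nat_lit 296923), .ofNat (nat_lit 678915), .ofNat (nat_lit 339637), .ofNat (nat_lit 721567)⟩⟩, [⟨nat_lit 4, nat_lit 77, nat_lit 100, nat_lit 91, nat_lit 169657629⟩]⟩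
noncomputable def p043_l90 : Lf2 := ⟨nat_lit 0, nat_lit 2, [nat_lit 10, nat_lit 5, nat_lit 5, nat_lit 20], false, nat_lit 0, nat_lit 364, nat_lit 0, nat_lit 384, ⟨nat_lit 1000, nat_lit 0, nat_lit 0, nat_lit 0, nat_lit 0, nat_lit 0, nat_lit 0, nat_lit 0, nat_lit 0, nat_lit 0, nat_lit 0, nat_lit 0, nat_lit 0, nat_lit 0, nat_lit 0, nat_lit 0, false, false⟩,
 nat_lit 0, nat_lit 0, nat_lit 0, nat_lit 24285, nat_lit 6642, nat_lit 8446, nat_lit 1540, nat_lit 0, nat_lit 0, nat_lit 1828, nat_lit 0, nat_lit 0, nat_lit 0, nat_lit 0, nat_lit 0, nat_lit 0, nat_lit 0, nat_lit 0, [],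
 ⟨p043_k2, nat_lit 0, nat_lit 0, nat_lit 193, nat_lit 0, nat_lit 0, [nat_lit 4688000000, nat_lit 6250000000, nat_lit 7968000000], [], [nat_lit 23138156660, nat_lit 25464986884, nat_lit 35445490464, nat_lit 37398475472, nat_lit 28256264339, nat_lit 29410156263, nat_lit 35592985214, nat_lit 36455508616], nat_lit 0, nat_lit 0, nat_lit 0, nat_lit 0, nat_lit 0, nat_lit 0, [], [nat_lit 9, nat_lit 40, nat_lit 40, nat_lit 80, nat_lit 2, nat_lit 317, nat_lit 100, nat_lit 10]⟩, ⟨p043_k27, nat_lit 0, nat_lit 0, nat_lit 228, nat_lit 0, nat_lit 0, [nat_lit 6250000000, nat_lit 7968000000, nat_lit 9842000000], [], [nat_lit 25581427044, nat_lit 27214587092, nat_lit 39044492148, nat_lit 39962331232, nat_lit 30425438385, nat_lit 31000226296, nat_lit 39016416220, nat_lit 39237039930], nat_lit 0, nat_lit 0, nat_lit 0, nat_lit 0, nat_lit 0, nat_lit 0, [], [nat_lit 25, nat_lit 40, nat_lit 40, nat_lit 80, nat_lit 17, nat_lit 538,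 nat_lit 300, nat_lit 15]⟩,
 zbF0, [⟨nat_lit 4, nat_lit 77, nat_lit 100, nat_lit 91, nat_lit 201386455⟩, ⟨nat_lit 7, nat_lit 59, nat_lit 100, nat_lit 87, nat_lit 220289530⟩]⟩
noncomputable def p043_l91 : Lf2 := ⟨nat_lit 0, nat_lit 2, [nat_lit 10, nat_lit 5, nat_lit 5, nat_lit 20], true, nat_lit 0, nat_lit 160, nat_lit 0, nat_lit 384, ⟨nat_lit 0, nat_lit 0, nat_lit 1000, nat_lit 5, nat_lit 147, nat_lit 392, nat_lit 63, nat_lit 1000, nat_lit 35267, nat_lit 261, nat_lit 3449, nat_lit 204, nat_lit 59007421, nat_lit 0, nat_lit 0, nat_lit 1827560, false, false⟩,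
 nat_lit 0, nat_lit 0, nat_lit 0, nat_lit 11628, nat_lit 3699, nat_lit 0, nat_lit 0, nat_lit 0, nat_lit 0, nat_lit 0, nat_lit 0, nat_lit 0, nat_lit 0, nat_lit 0, nat_lit 72, nat_lit 877000, nat_lit 0, nat_lit 0, [(nat_lit 6, [(nat_lit 5, nat_lit 205), (nat_lit 6, nat_lit 795)]), (nat_lit 9, [(nat_lit 5, nat_lit 205), (nat_lit 6, nat_lit 795)])],
 ⟨p043_k26, nat_lit 0, nat_lit 0, nat_lit 185, nat_lit 0, nat_lit 0, [nat_lit 2684442000, nat_lit 94634000], [], [nat_lit 13827234098, nat_lit 16321807955, nat_lit 16914052176, nat_lit 19030317380, nat_lit 13646235002, nat_lit 15944754964, nat_lit 16975333040, nat_lit 18771749696], nat_lit 0, nat_lit 0, nat_lit 0, nat_lit 0, nat_lit 0, nat_lit 0, [], [nat_lit 39, nat_lit 40, nat_lit 40, nat_lit 80, nat_lit 7, nat_lit 317, nat_lit 100, nat_lit 11]⟩, C1.Rw.none,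
 ⟨nat_lit 5477, nat_lit 6325, ⟨.ofNat (nat_lit 96904), .ofNat (nat_lit 582178), .ofNat (nat_lit 139640), .ofNat (nat_lit 624852), .ofNat (nat_lit 132827), .ofNat (nat_lit 574846), .ofNat (nat_lit 175541), .ofNat (nat_lit 617499)⟩, ⟨.negSucc (nat_lit 39529), .ofNat (nat_lit 289527), .ofNat (nat_lit 0), .ofNat (nat_lit 332263), .negSucc (nat_lit 2808), .ofNat (nat_lit 296923), .ofNat (nat_lit 0), .ofNat (nat_lit 339637)⟩⟩, []⟩
noncomputable def p043_l92 : Lf2 := ⟨nat_lit 1, nat_lit 2, [nat_lit 10, nat_lit 5, nat_lit 5, nat_lit 20], false, nat_lit 160, nat_lit 364, nat_lit 0, nat_lit 384, zbN0,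
 nat_lit 0, nat_lit 0, nat_lit 0, nat_lit 0, nat_lit 0, nat_lit 0, nat_lit 0, nat_lit 0, nat_lit 0, nat_lit 0, nat_lit 0, nat_lit 0, nat_lit 0, nat_lit 0, nat_lit 0, nat_lit 0, nat_lit 0, nat_lit 0, [],
 C1.Rw.none, C1.Rw.none,
 zbF0, []⟩
noncomputable def p043_l93 : Lf2 := ⟨nat_lit 0, nat_lit 2, [nat_lit 10, nat_lit 5, nat_lit 5, nat_lit 20], true, nat_lit 160, nat_lit 240, nat_lit 0, nat_lit 384, ⟨nat_lit 0, nat_lit 0, nat_lit 1000, nat_lit 5, nat_lit 104, nat_lit 1000, nat_lit 157, nat_lit 1000, nat_lit 45528, nat_lit 267, nat_lit 101400, nat_lit 293, nat_lit 52978740, nat_lit 0, nat_lit 0, nat_lit 3446360, false, false⟩,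
 nat_lit 0, nat_lit 0, nat_lit 0, nat_lit 6243, nat_lit 3630, nat_lit 0, nat_lit 0, nat_lit 0, nat_lit 0, nat_lit 0, nat_lit 0, nat_lit 0, nat_lit 0, nat_lit 0, nat_lit 37, nat_lit 1000000, nat_lit 0, nat_lit 0, [(nat_lit 9, [(nat_lit 6, nat_lit 1000)])],
 ⟨p043_k12, nat_lit 0, nat_lit 0, nat_lit 61, nat_lit 0, nat_lit 0, [nat_lit 1689600001, nat_lit 0], [], [nat_lit 12552340213, nat_lit 13996469457, nat_lit 11929691401, nat_lit 13237098441, nat_lit 16159857274, nat_lit 17385620441, nat_lit 15274398421, nat_lit 16388603521], nat_lit 0, nat_lit 0, nat_lit 0, nat_lit 0, nat_lit 0, nat_lit 0, [], [nat_lit 31, nat_lit 40, nat_lit 40, nat_lit 80, nat_lit 3, nat_lit 317, nat_lit 100, nat_lit 12]⟩, C1.Rw.none,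
 ⟨nat_lit 5477, nat_lit 5917, ⟨.ofNat (nat_lit 123037), .ofNat (nat_lit 342931), .ofNat (nat_lit 165716), .ofNat (nat_lit 385610), .ofNat (nat_lit 140320), .ofNat (nat_lit 350132), .ofNat (nat_lit 183034), .ofNat (nat_lit 392847)⟩, ⟨.ofNat (nat_lit 293429), .ofNat (nat_lit 450496), .ofNat (nat_lit 336108), .ofNat (nat_lit 493175), .ofNat (nat_lit 296923), .ofNat (nat_lit 446789), .ofNat (nat_lit 339637), .ofNat (nat_lit 489503)⟩⟩, [⟨nat_lit 0, nat_lit 100, nat_lit 94, nat_lit 59, nat_lit 150378038⟩]⟩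
noncomputable def p043_l94 : Lf2 := ⟨nat_lit 0, nat_lit 2, [nat_lit 10, nat_lit 5, nat_lit 5, nat_lit 20], true, nat_lit 240, nat_lit 280, nat_lit 0, nat_lit 288, ⟨nat_lit 0, nat_lit 1000, nat_lit 0, nat_lit 5, nat_lit 73, nat_lit 1000, nat_lit 203, nat_lit 0, nat_lit 0, nat_lit 0, nat_lit 0, nat_lit 0, nat_lit 50516856, nat_lit 2832053, nat_lit 13651091, nat_lit 3525534, false, false⟩,
 nat_lit 0, nat_lit 0, nat_lit 0, nat_lit 7785, nat_lit 4963, nat_lit 0, nat_lit 0, nat_lit 0, nat_lit 0, nat_lit 0, nat_lit 0, nat_lit 0, nat_lit 0, nat_lit 0, nat_lit 0, nat_lit 1000000, nat_lit 0, nat_lit 0, [(nat_lit 9, [(nat_lit 2, nat_lit 1000)])],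
 ⟨p043_k12, nat_lit 0, nat_lit 0, nat_lit 80, nat_lit 0, nat_lit 0, [nat_lit 2663466667, nat_lit 2329200000], [], [nat_lit 17146714595, nat_lit 18600811326, nat_lit 15555689023, nat_lit 16959551815, nat_lit 20281400886, nat_lit 21749816492, nat_lit 18376949607, nat_lit 19629513065], nat_lit 0, nat_lit 0, nat_lit 0, nat_lit 0, nat_lit 0, nat_lit 0, [], [nat_lit 31, nat_lit 40, nat_lit 40, nat_lit 80, nat_lit 3, nat_lit 215, nat_lit 10, nat_lit 8]⟩, C1.Rw.none,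
 ⟨nat_lit 5477, nat_lit 5917, ⟨.ofNat (nat_lit 123037), .ofNat (nat_lit 185864), .ofNat (nat_lit 165716), .ofNat (nat_lit 228543), .ofNat (nat_lit 140320), .ofNat (nat_lit 200266), .ofNat (nat_lit 183034), .ofNat (nat_lit 242980)⟩, ⟨.ofNat (nat_lit 450496), .ofNat (nat_lit 529030), .ofNat (nat_lit 493175), .ofNat (nat_lit 571704), .ofNat (nat_lit 446789), .ofNat (nat_lit 521722), .ofNat (nat_lit 489503), .ofNat (nat_lit 564432)⟩⟩, [⟨nat_lit 0, nat_lit 100, nat_lit 94, nat_lit 59, nat_lit 422222401⟩]⟩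
noncomputable def p043_l95 : Lf2 := ⟨nat_lit 1, nat_lit 2, [nat_lit 10, nat_lit 5, nat_lit 5, nat_lit 20], false, nat_lit 280, nat_lit 320, nat_lit 0, nat_lit 248, zbN0,
 nat_lit 0, nat_lit 0, nat_lit 0, nat_lit 0, nat_lit 0, nat_lit 0, nat_lit 0, nat_lit 0, nat_lit 0, nat_lit 0, nat_lit 0, nat_lit 0, nat_lit 0, nat_lit 0, nat_lit 0, nat_lit 0, nat_lit 0, nat_lit 0, [],
 C1.Rw.none, C1.Rw.none,
 zbF0, []⟩
noncomputable def p043_l96 : Lf2 := ⟨nat_lit 0, nat_lit 2, [nat_lit 10, nat_lit 5, nat_lit 5, nat_lit 20], true, nat_lit 280, nat_lit 300, nat_lit 0, nat_lit 248, ⟨nat_lit 0, nat_lit 1000, nat_lit 0, nat_lit 5, nat_lit 77, nat_lit 1000, nat_lit 221, nat_lit 0, nat_lit 0, nat_lit 0, nat_lit 0, nat_lit 0, nat_lit 48566308, nat_lit 2981468, nat_lit 15452224, nat_lit 3733217, false, false⟩,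
 nat_lit 0, nat_lit 0, nat_lit 0, nat_lit 8467, nat_lit 5127, nat_lit 0, nat_lit 477, nat_lit 0, nat_lit 0, nat_lit 0, nat_lit 0, nat_lit 0, nat_lit 0, nat_lit 0, nat_lit 0, nat_lit 1000000, nat_lit 0, nat_lit 0, [(nat_lit 9, [(nat_lit 2, nat_lit 1000)])],
 ⟨p043_k17, nat_lit 0, nat_lit 0, nat_lit 105, nat_lit 0, nat_lit 0, [nat_lit 2663466667, nat_lit 2329200000], [], [nat_lit 20935188377, nat_lit 21679454888, nat_lit 19726069583, nat_lit 20223678950, nat_lit 22583422266, nat_lit 23280193188, nat_lit 20818682258, nat_lit 21341576272], nat_lit 0, nat_lit 0, nat_lit 0, nat_lit 0, nat_lit 0, nat_lit 0, [], [nat_lit 31, nat_lit 40, nat_lit 40, nat_lit 80, nat_lit 3, nat_lit 215, nat_lit 10, nat_lit 7]⟩, C1.Rw.none,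
 ⟨nat_lit 5477, nat_lit 5701, ⟨.ofNat (nat_lit 139419), .ofNat (nat_lit 193122), .ofNat (nat_lit 182103), .ofNat (nat_lit 235806), .ofNat (nat_lit 147813), .ofNat (nat_lit 200266), .ofNat (nat_lit 190527), .ofNat (nat_lit 242980)⟩, ⟨.ofNat (nat_lit 525385), .ofNat (nat_lit 563744), .ofNat (nat_lit 546727), .ofNat (nat_lit 585086), .ofNat (nat_lit 521722), .ofNat (nat_lit 559189), .ofNat (nat_lit 543079), .ofNat (nat_lit 580546)⟩⟩, [⟨nat_lit 0, nat_lit 100, nat_lit 94, nat_lit 59, nat_lit 441401071⟩]⟩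
noncomputable def p043_l97 : Lf2 := ⟨nat_lit 1, nat_lit 2, [nat_lit 10, nat_lit 5, nat_lit 5, nat_lit 20], false, nat_lit 300, nat_lit 320, nat_lit 0, nat_lit 224, zbN0,
 nat_lit 0, nat_lit 0, nat_lit 0, nat_lit 0, nat_lit 0, nat_lit 0, nat_lit 0, nat_lit 0, nat_lit 0, nat_lit 0, nat_lit 0, nat_lit 0, nat_lit 0, nat_lit 0, nat_lit 0, nat_lit 0, nat_lit 0, nat_lit 0, [],
 C1.Rw.none, C1.Rw.none,
 zbF0, []⟩
noncomputable def p043_l98 : Lf2 := ⟨nat_lit 0, nat_lit 2, [nat_lit 10, nat_lit 5, nat_lit 5, nat_lit 20], true, nat_lit 300, nat_lit 320, nat_lit 0, nat_lit 224, ⟨nat_lit 0, nat_lit 1000, nat_lit 0, nat_lit 5, nat_lit 82, nat_lit 1000, nat_lit 236, nat_lit 0, nat_lit 0, nat_lit 0, nat_lit 0, nat_lit 0, nat_lit 46802094, nat_lit 3245366, nat_lit 16952540, nat_lit 3922118, false, false⟩,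
 nat_lit 0, nat_lit 0, nat_lit 0, nat_lit 100000, nat_lit 5119, nat_lit 0, nat_lit 447, nat_lit 0, nat_lit 0, nat_lit 0, nat_lit 0, nat_lit 0, nat_lit 0, nat_lit 0, nat_lit 0, nat_lit 1000000, nat_lit 0, nat_lit 0, [(nat_lit 9, [(nat_lit 2, nat_lit 1000)])],
 ⟨p043_k17, nat_lit 0, nat_lit 0, nat_lit 107, nat_lit 0, nat_lit 0, [nat_lit 2663466667, nat_lit 2329200000], [], [nat_lit 22020970670, nat_lit 22716468080, nat_lit 20866581938, nat_lit 21335726585, nat_lit 23666306421, nat_lit 24312846944, nat_lit 22277767485, nat_lit 22923140452], nat_lit 0, nat_lit 0, nat_lit 0, nat_lit 0, nat_lit 0, nat_lit 0, [], [nat_lit 31, nat_lit 40, nat_lit 40, nat_lit 80, nat_lit 3, nat_lit 215, nat_lit 10, nat_lit 7]⟩, C1.Rw.none,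
 ⟨nat_lit 5477, nat_lit 5701, ⟨.ofNat (nat_lit 176105), .ofNat (nat_lit 214464), .ofNat (nat_lit 186776), .ofNat (nat_lit 225135), .ofNat (nat_lit 184157), .ofNat (nat_lit 221623), .ofNat (nat_lit 194835), .ofNat (nat_lit 232302)⟩, ⟨.ofNat (nat_lit 563744), .ofNat (nat_lit 602103), .ofNat (nat_lit 585086), .ofNat (nat_lit 623444), .ofNat (nat_lit 559189), .ofNat (nat_lit 596655), .ofNat (nat_lit 580546), .ofNat (nat_lit 618011)⟩⟩, [⟨nat_lit 0, nat_lit 100, nat_lit 93, nat_lit 54, nat_lit 454358387⟩, ⟨nat_lit 4, nat_lit 89, nat_lit 100, nat_lit 90, nat_lit 2928415559⟩]⟩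
noncomputable def p043_l99 : Lf2 := ⟨nat_lit 0, nat_lit 2, [nat_lit 10, nat_lit 5, nat_lit 5, nat_lit 20], false, nat_lit 300, nat_lit 320, nat_lit 0, nat_lit 224, ⟨nat_lit 1000, nat_lit 0, nat_lit 0, nat_lit 0, nat_lit 0, nat_lit 0, nat_lit 0, nat_lit 0, nat_lit 0, nat_lit 0, nat_lit 0, nat_lit 0, nat_lit 0, nat_lit 0, nat_lit 0, nat_lit 0, false, false⟩,
 nat_lit 0, nat_lit 0, nat_lit 28778, nat_lit 9194, nat_lit 6932, nat_lit 14493, nat_lit 1985, nat_lit 0, nat_lit 0, nat_lit 13, nat_lit 0, nat_lit 0, nat_lit 0, nat_lit 0, nat_lit 0, nat_lit 0, nat_lit 0, nat_lit 0, [],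
 ⟨p043_k17, nat_lit 0, nat_lit 0, nat_lit 103, nat_lit 0, nat_lit 0, [nat_lit 4688000000, nat_lit 6250000000], [], [nat_lit 23735987656, nat_lit 24553776543, nat_lit 22406212613, nat_lit 22988422428, nat_lit 25699430667, nat_lit 26454612317, nat_lit 24127598580, nat_lit 24882101456], nat_lit 0, nat_lit 0, nat_lit 0, nat_lit 0, nat_lit 0, nat_lit 0, [], [nat_lit 31, nat_lit 40, nat_lit 40, nat_lit 80, nat_lit 3, nat_lit 215, nat_lit 10, nat_lit 7]⟩, ⟨p043_k3, nat_lit 0, nat_lit 0, nat_lit 266, nat_lit 0, nat_lit 46500, [nat_lit 6250000000, nat_lit 7968000000], [], [nat_lit 23704415693, nat_lit 25032618717, nat_lit 20265457067, nat_lit 21596487129, nat_lit 16370040761, nat_lit 17289680461, nat_lit 16185987807, nat_lit 14557252297], nat_lit 1271250, nat_lit 1271250, nat_lit 134400, nat_lit 230001, nat_lit 0, nat_lit 1582000, [nat_lit 1412500, nat_lit 1271250], [nat_lit 26, nat_lit 40, nat_lit 40, nat_lit 80,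 nat_lit 2, nat_lit 373, nat_lit 150, nat_lit 13]⟩,
 zbF0, [⟨nat_lit 0, nat_lit 100, nat_lit 94, nat_lit 54, nat_lit 1736197590⟩, ⟨nat_lit 4, nat_lit 89, nat_lit 100, nat_lit 90, nat_lit 815380295⟩]⟩
noncomputable def p043_l100 : Lf2 := ⟨nat_lit 1, nat_lit 2, [nat_lit 10, nat_lit 5, nat_lit 5, nat_lit 20], false, nat_lit 280, nat_lit 320, nat_lit 0, nat_lit 248, zbN0,
 nat_lit 0, nat_lit 0, nat_lit 0, nat_lit 0, nat_lit 0, nat_lit 0, nat_lit 0, nat_lit 0, nat_lit 0, nat_lit 0, nat_lit 0, nat_lit 0, nat_lit 0, nat_lit 0, nat_lit 0, nat_lit 0, nat_lit 0, nat_lit 0, [],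
 C1.Rw.none, C1.Rw.none,
 zbF0, []⟩
noncomputable def p043_l101 : Lf2 := ⟨nat_lit 0, nat_lit 2, [nat_lit 10, nat_lit 5, nat_lit 5, nat_lit 20], true, nat_lit 240, nat_lit 320, nat_lit 0, nat_lit 336, ⟨nat_lit 0, nat_lit 1000, nat_lit 0, nat_lit 5, nat_lit 101, nat_lit 1000, nat_lit 219, nat_lit 0, nat_lit 0, nat_lit 0, nat_lit 0, nat_lit 0, nat_lit 47465814, nat_lit 4510680, nat_lit 15023506, nat_lit 4038374, false, false⟩,
 nat_lit 0, nat_lit 0, nat_lit 0, nat_lit 13914, nat_lit 4595, nat_lit 0, nat_lit 0, nat_lit 0, nat_lit 0, nat_lit 0, nat_lit 0, nat_lit 0, nat_lit 0, nat_lit 0, nat_lit 0, nat_lit 1000000, nat_lit 0, nat_lit 0, [(nat_lit 9, [(nat_lit 2, nat_lit 1000)])],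
 ⟨p043_k12, nat_lit 0, nat_lit 0, nat_lit 70, nat_lit 0, nat_lit 0, [nat_lit 2663466667, nat_lit 2329200000], [], [nat_lit 15867159807, nat_lit 17217521287, nat_lit 15380693287, nat_lit 16682570767, nat_lit 21291995727, nat_lit 22357435787, nat_lit 20610751617, nat_lit 21641895427], nat_lit 0, nat_lit 0, nat_lit 0, nat_lit 0, nat_lit 0, nat_lit 0, [], [nat_lit 31, nat_lit 40, nat_lit 40, nat_lit 80, nat_lit 3, nat_lit 226, nat_lit 20, nat_lit 8]⟩, C1.Rw.none,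
 ⟨nat_lit 5477, nat_lit 5917, ⟨.ofNat (nat_lit 185864), .ofNat (nat_lit 264398), .ofNat (nat_lit 228543), .ofNat (nat_lit 307076), .ofNat (nat_lit 200266), .ofNat (nat_lit 275199), .ofNat (nat_lit 242980), .ofNat (nat_lit 317913)⟩, ⟨.ofNat (nat_lit 450496), .ofNat (nat_lit 607556), .ofNat (nat_lit 493175), .ofNat (nat_lit 650219), .ofNat (nat_lit 446789), .ofNat (nat_lit 596648), .ofNat (nat_lit 489503), .ofNat (nat_lit 639346)⟩⟩, [⟨nat_lit 4, nat_lit 82, nat_lit 100, nat_lit 92, nat_lit 263662814⟩]⟩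
noncomputable def p043_l102 : Lf2 := ⟨nat_lit 0, nat_lit 2, [nat_lit 10, nat_lit 5, nat_lit 5, nat_lit 20], true, nat_lit 240, nat_lit 320, nat_lit 0, nat_lit 364, ⟨nat_lit 0, nat_lit 1000, nat_lit 0, nat_lit 5, nat_lit 132, nat_lit 1000, nat_lit 219, nat_lit 0, nat_lit 0, nat_lit 0, nat_lit 0, nat_lit 0, nat_lit 45598083, nat_lit 6655957, nat_lit 14745960, nat_lit 4408626, false, false⟩,
 nat_lit 0, nat_lit 0, nat_lit 0, nat_lit 13958, nat_lit 4837, nat_lit 0, nat_lit 0, nat_lit 0, nat_lit 0, nat_lit 0, nat_lit 0, nat_lit 0, nat_lit 0, nat_lit 0, nat_lit 0, nat_lit 1000000, nat_lit 0, nat_lit 0, [(nat_lit 9, [(nat_lit 2, nat_lit 1000)])],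
 ⟨p043_k12, nat_lit 0, nat_lit 0, nat_lit 49, nat_lit 0, nat_lit 0, [nat_lit 2663466667, nat_lit 2329200000], [], [nat_lit 15108732719, nat_lit 16444050727, nat_lit 15308019625, nat_lit 16576925915, nat_lit 20474895237, nat_lit 21528447763, nat_lit 20411454177, nat_lit 21415906567], nat_lit 0, nat_lit 0, nat_lit 0, nat_lit 0, nat_lit 0, nat_lit 0, [], [nat_lit 31, nat_lit 40, nat_lit 40, nat_lit 80, nat_lit 3, nat_lit 238, nat_lit 30, nat_lit 8]⟩, C1.Rw.none,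
 ⟨nat_lit 5477, nat_lit 5917, ⟨.ofNat (nat_lit 264398), .ofNat (nat_lit 342931), .ofNat (nat_lit 307076), .ofNat (nat_lit 385610), .ofNat (nat_lit 275199), .ofNat (nat_lit 350132), .ofNat (nat_lit 317913), .ofNat (nat_lit 392847)⟩, ⟨.ofNat (nat_lit 450496), .ofNat (nat_lit 607556), .ofNat (nat_lit 493175), .ofNat (nat_lit 650219), .ofNat (nat_lit 446789), .ofNat (nat_lit 596648), .ofNat (nat_lit 489503), .ofNat (nat_lit 639346)⟩⟩, [⟨nat_lit 16, nat_lit 100, nat_lit 82, nat_lit 92, nat_lit 263151616⟩]⟩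
noncomputable def p043_l103 : Lf2 := ⟨nat_lit 0, nat_lit 2, [nat_lit 10, nat_lit 5, nat_lit 5, nat_lit 20], true, nat_lit 320, nat_lit 352, nat_lit 0, nat_lit 300, ⟨nat_lit 0, nat_lit 1000, nat_lit 0, nat_lit 5, nat_lit 104, nat_lit 1000, nat_lit 262, nat_lit 0, nat_lit 0, nat_lit 0, nat_lit 0, nat_lit 0, nat_lit 43268391, nat_lit 4514956, nat_lit 19216653, nat_lit 4359473, false, false⟩,
 nat_lit 0, nat_lit 0, nat_lit 0, nat_lit 100000, nat_lit 4611, nat_lit 0, nat_lit 585, nat_lit 0, nat_lit 0, nat_lit 0, nat_lit 0, nat_lit 0, nat_lit 0, nat_lit 0, nat_lit 0, nat_lit 1000000, nat_lit 0, nat_lit 0, [(nat_lit 9, [(nat_lit 2, nat_lit 1000)])],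
 ⟨p043_k12, nat_lit 0, nat_lit 0, nat_lit 135, nat_lit 0, nat_lit 0, [nat_lit 2663466667, nat_lit 2329200000], [], [nat_lit 23480750258, nat_lit 24339751637, nat_lit 21672336498, nat_lit 22509555926, nat_lit 26147176956, nat_lit 27232575963, nat_lit 23662571766, nat_lit 24417827546], nat_lit 0, nat_lit 0, nat_lit 0, nat_lit 0, nat_lit 0, nat_lit 0, [], [nat_lit 31, nat_lit 40, nat_lit 40, nat_lit 80, nat_lit 3, nat_lit 238, nat_lit 30, nat_lit 8]⟩, C1.Rw.none,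
 ⟨nat_lit 5477, nat_lit 5917, ⟨.ofNat (nat_lit 123037), .ofNat (nat_lit 342931), .ofNat (nat_lit 165716), .ofNat (nat_lit 385610), .ofNat (nat_lit 140320), .ofNat (nat_lit 350132), .ofNat (nat_lit 183034), .ofNat (nat_lit 392847)⟩, ⟨.ofNat (nat_lit 607556), .ofNat (nat_lit 670368), .ofNat (nat_lit 650219), .ofNat (nat_lit 713031), .ofNat (nat_lit 596648), .ofNat (nat_lit 656580), .ofNat (nat_lit 639346), .ofNat (nat_lit 699278)⟩⟩, [⟨nat_lit 0, nat_lit 100, nat_lit 94, nat_lit 59, nat_lit 170905961⟩, ⟨nat_lit 4, nat_lit 82, nat_lit 100, nat_lit 92, nat_lit 2708369672⟩]⟩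
noncomputable def p043_l104 : Lf2 := ⟨nat_lit 0, nat_lit 2, [nat_lit 10, nat_lit 5, nat_lit 5, nat_lit 20], true, nat_lit 160, nat_lit 364, nat_lit 0, nat_lit 384, ⟨nat_lit 0, nat_lit 1000, nat_lit 0, nat_lit 5, nat_lit 193, nat_lit 1000, nat_lit 206, nat_lit 0, nat_lit 0, nat_lit 0, nat_lit 0, nat_lit 0, nat_lit 42515857, nat_lit 11600348, nat_lit 12883795, nat_lit 4899250, false, false⟩,
 nat_lit 0, nat_lit 0, nat_lit 0, nat_lit 11129, nat_lit 4519, nat_lit 0, nat_lit 0, nat_lit 0, nat_lit 0, nat_lit 0, nat_lit 0, nat_lit 0, nat_lit 0, nat_lit 0, nat_lit 0, nat_lit 400000, nat_lit 0, nat_lit 0, [(nat_lit 6, [(nat_lit 1, nat_lit 1000)]), (nat_lit 9, [(nat_lit 1, nat_lit 1000)])],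
 ⟨p043_k2, nat_lit 0, nat_lit 0, nat_lit 73, nat_lit 0, nat_lit 0, [nat_lit 2702720000, nat_lit 3030400001, nat_lit 3280799999], [], [nat_lit 10714834868, nat_lit 13625522372, nat_lit 15378159856, nat_lit 17684661780, nat_lit 23046696004, nat_lit 24721029402, nat_lit 25227492912, nat_lit 26727048305], nat_lit 0, nat_lit 0, nat_lit 0, nat_lit 0, nat_lit 0, nat_lit 0, [], [nat_lit 9, nat_lit 40, nat_lit 40, nat_lit 80, nat_lit 2, nat_lit 401, nat_lit 175, nat_lit 13]⟩, C1.Rw.none,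
 ⟨nat_lit 5477, nat_lit 6325, ⟨.ofNat (nat_lit 335470), .ofNat (nat_lit 582178), .ofNat (nat_lit 378206), .ofNat (nat_lit 624852), .ofNat (nat_lit 350132), .ofNat (nat_lit 574846), .ofNat (nat_lit 392847), .ofNat (nat_lit 617499)⟩, ⟨.ofNat (nat_lit 289527), .ofNat (nat_lit 708908), .ofNat (nat_lit 332263), .ofNat (nat_lit 751581), .ofNat (nat_lit 296923), .ofNat (nat_lit 678915), .ofNat (nat_lit 339637), .ofNat (nat_lit 721567)⟩⟩, [⟨nat_lit 4, nat_lit 77, nat_lit 100, nat_lit 91, nat_lit 169657629⟩]⟩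
noncomputable def p043_l105 : Lf2 := ⟨nat_lit 0, nat_lit 2, [nat_lit 10, nat_lit 5, nat_lit 5, nat_lit 20], false, nat_lit 0, nat_lit 160, nat_lit 0, nat_lit 384, ⟨nat_lit 1000, nat_lit 0, nat_lit 0, nat_lit 0, nat_lit 0, nat_lit 0, nat_lit 0, nat_lit 0, nat_lit 0, nat_lit 0, nat_lit 0, nat_lit 0, nat_lit 0, nat_lit 0, nat_lit 0, nat_lit 0, false, false⟩,
 nat_lit 0, nat_lit 0, nat_lit 19119, nat_lit 25628, nat_lit 8895, nat_lit 8193, nat_lit 2473, nat_lit 0, nat_lit 0, nat_lit 1758, nat_lit 0, nat_lit 0, nat_lit 0, nat_lit 0, nat_lit 0, nat_lit 0, nat_lit 0, nat_lit 0, [],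
 ⟨p043_k2, nat_lit 0, nat_lit 0, nat_lit 193, nat_lit 0, nat_lit 0, [nat_lit 4688000000, nat_lit 6250000000, nat_lit 7968000000], [], [nat_lit 20002153825, nat_lit 23284391340, nat_lit 41086533840, nat_lit 43293711320, nat_lit 14244522900, nat_lit 17202971600, nat_lit 30615858400, nat_lit 32581682760], nat_lit 0, nat_lit 0, nat_lit 0, nat_lit 0, nat_lit 0, nat_lit 0, [], [nat_lit 9, nat_lit 40, nat_lit 40, nat_lit 80, nat_lit 2, nat_lit 249, nat_lit 40, nat_lit 8]⟩, ⟨p043_k27, nat_lit 0, nat_lit 0, nat_lit 290, nat_lit 0, nat_lit 117572, [nat_lit 6250000000, nat_lit 7968000000, nat_lit 9842000000], [], [nat_lit 31104819830, nat_lit 32120053162, nat_lit 39808475522, nat_lit 40296779966, nat_lit 40055067218, nat_lit 32961370748, nat_lit 38645554854, nat_lit 38886003037], nat_lit 1271250, nat_lit 1271250, nat_lit 1271250, nat_lit 1271250, nat_lit 0, nat_lit 2712000, [nat_lit 1412500, nat_lit 1271250, nat_lit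 1271250], [nat_lit 25, nat_lit 40, nat_lit 40, nat_lit 80, nat_lit 17, nat_lit 538, nat_lit 300, nat_lit 15]⟩,
 zbF0, [⟨nat_lit 19, nat_lit 100, nat_lit 59, nat_lit 87, nat_lit 30436138⟩, ⟨nat_lit 22, nat_lit 83, nat_lit 100, nat_lit 83, nat_lit 226849226⟩]⟩
noncomputable def p043_l106 : Lf2 := ⟨nat_lit 0, nat_lit 2, [nat_lit 10, nat_lit 5, nat_lit 5, nat_lit 20], false, nat_lit 160, nat_lit 364, nat_lit 0, nat_lit 384, ⟨nat_lit 1000, nat_lit 0, nat_lit 0, nat_lit 0, nat_lit 0, nat_lit 0, nat_lit 0, nat_lit 0, nat_lit 0, nat_lit 0, nat_lit 0, nat_lit 0, nat_lit 0, nat_lit 0, nat_lit 0, nat_lit 0, false, false⟩,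
 nat_lit 0, nat_lit 0, nat_lit 19885, nat_lit 30650, nat_lit 6019, nat_lit 8522, nat_lit 0, nat_lit 0, nat_lit 0, nat_lit 1761, nat_lit 0, nat_lit 0, nat_lit 0, nat_lit 0, nat_lit 0, nat_lit 0, nat_lit 0, nat_lit 0, [],
 ⟨p043_k2, nat_lit 0, nat_lit 0, nat_lit 89, nat_lit 0, nat_lit 0, [nat_lit 4688000000, nat_lit 6250000000, nat_lit 7968000000], [], [nat_lit 15216375856, nat_lit 17870871780, nat_lit 27697523680, nat_lit 29390220072, nat_lit 26363450112, nat_lit 27820695893, nat_lit 34782378358, nat_lit 35652379505], nat_lit 0, nat_lit 0, nat_lit 0, nat_lit 0, nat_lit 0, nat_lit 0, [], [nat_lit 9, nat_lit 40, nat_lit 40, nat_lit 80, nat_lit 2, nat_lit 317, nat_lit 100, nat_lit 9]⟩, ⟨p043_k27, nat_lit 0, nat_lit 0, nat_lit 290, nat_lit 0, nat_lit 117572, [nat_lit 6250000000, nat_lit 7968000000, nat_lit 9842000000], [], [nat_lit 30407955695, nat_lit 31427112023, nat_lit 39679611463, nat_lit 40152640856, nat_lit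 39940905271, nat_lit 32379532381, nat_lit 39127821215, nat_lit 39342489748], nat_lit 1271250, nat_lit 1271250, nat_lit 1271250, nat_lit 1271250, nat_lit 0, nat_lit 2712000, [nat_lit 1412500, nat_lit 1271250, nat_lit 1271250], [nat_lit 25, nat_lit 40, nat_lit 40, nat_lit 80, nat_lit 17, nat_lit 538, nat_lit 300, nat_lit 15]⟩,
 zbF0, [⟨nat_lit 4, nat_lit 77, nat_lit 100, nat_lit 91, nat_lit 440321121⟩, ⟨nat_lit 19, nat_lit 100, nat_lit 59, nat_lit 87, nat_lit 219024518⟩]⟩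
noncomputable def b_V_600_500_20_0 : St := ⟨true, nat_lit 0, nat_lit 2, nat_lit 1, nat_lit 120, nat_lit 240, nat_lit 280, nat_lit 200, nat_lit 240, nat_lit 4, nat_lit 400, nat_lit 80, nat_lit 120, nat_lit 0, nat_lit 364, nat_lit 0, nat_lit 384, nat_lit 0, nat_lit 8, nat_lit 0, nat_lit 0, nat_lit 0, nat_lit 0⟩
theorem d_V_600_500_20_0 (h : EB TB.env) : Dead b_V_600_500_20_0 := chkB_sound0 h (T :=
(.st (nat_lit 1)
(.spl (nat_lit 2) (nat_lit 240)
(.spl (nat_lit 4) (nat_lit 160)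
(.leaf p043_l80)
(.spl (nat_lit 2) (nat_lit 120)
(.spl (nat_lit 0) (nat_lit 260)
(.leaf p043_l81)
(.trZ (nat_lit 0) (nat_lit 100) (nat_lit 95) (nat_lit 30) (nat_lit 8) (.trX (nat_lit 16) (nat_lit 100) (nat_lit 69) (nat_lit 96) (nat_lit 352) (.spl (nat_lit 4) (nat_lit 240)
(.leaf p043_l82)
(.trX (nat_lit 23) (nat_lit 100) (nat_lit 59) (nat_lit 94) (nat_lit 364) (.spl (nat_lit 4) (nat_lit 320)
(.spl (nat_lit 2) (nat_lit 80)
(.trX (nat_lit 23) (nat_lit 100) (nat_lit 76) (nat_lit 82) (nat_lit 336) (.spl (nat_lit 2) (nat_lit 40)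
(.trX (nat_lit 23) (nat_lit 100) (nat_lit 92) (nat_lit 61) (nat_lit 288) (.spl (nat_lit 1) (nat_lit 220)
(.leaf p043_l83)
(.trZ (nat_lit 0) (nat_lit 100) (nat_lit 96) (nat_lit 40) (nat_lit 16) (.spl (nat_lit 2) (nat_lit 32)
(.trX (nat_lit 23) (nat_lit 100) (nat_lit 95) (nat_lit 55) (nat_lit 276) (.leaf p043_l84))
(.leaf p043_l85)))))
(.leaf p043_l86)))
(.leaf p043_l87))
(.trX (nat_lit 23) (nat_lit 87) (nat_lit 95) (nat_lit 100) (nat_lit 300) (.leaf p043_l88))))))))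
(.leaf p043_l89)))
(.leaf p043_l90))
(.spl (nat_lit 2) (nat_lit 240)
(.spl (nat_lit 4) (nat_lit 160)
(.leaf p043_l91)
(.spl (nat_lit 2) (nat_lit 120)
(.spl (nat_lit 0) (nat_lit 260)
(.leaf p043_l92)
(.trZ (nat_lit 0) (nat_lit 100) (nat_lit 95) (nat_lit 30) (nat_lit 8) (.trX (nat_lit 16) (nat_lit 100) (nat_lit 69) (nat_lit 96) (nat_lit 352) (.spl (nat_lit 4) (nat_lit 240)
(.leaf p043_l93)
(.trX (nat_lit 23) (nat_lit 100) (nat_lit 59) (nat_lit 94) (nat_lit 364) (.spl (nat_lit 4) (nat_lit 320)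
(.spl (nat_lit 2) (nat_lit 80)
(.trX (nat_lit 23) (nat_lit 100) (nat_lit 76) (nat_lit 82) (nat_lit 336) (.spl (nat_lit 2) (nat_lit 40)
(.trX (nat_lit 23) (nat_lit 100) (nat_lit 92) (nat_lit 61) (nat_lit 288) (.spl (nat_lit 4) (nat_lit 280)
(.leaf p043_l94)
(.trX (nat_lit 23) (nat_lit 94) (nat_lit 100) (nat_lit 62) (nat_lit 248) (.spl (nat_lit 3) (nat_lit 100)
(.spl (nat_lit 0) (nat_lit 270)
(.leaf p043_l95)
(.trZ (nat_lit 0) (nat_lit 100) (nat_lit 94) (nat_lit 35) (nat_lit 12) (.spl (nat_lit 4) (nat_lit 300)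
(.leaf p043_l96)
(.trX (nat_lit 23) (nat_lit 87) (nat_lit 100) (nat_lit 60) (nat_lit 224) (.spl (nat_lit 1) (nat_lit 220)
(.leaf p043_l97)
(.trZ (nat_lit 0) (nat_lit 100) (nat_lit 94) (nat_lit 44) (nat_lit 20) (.spl (nat_lit 1) (nat_lit 230)
(.leaf p043_l98)
(.trZ (nat_lit 0) (nat_lit 100) (nat_lit 95) (nat_lit 49) (nat_lit 24) (.leaf p043_l99)))))))))
(.leaf p043_l100)))))
(.leaf p043_l101)))
(.leaf p043_l102))
(.trX (nat_lit 23) (nat_lit 87) (nat_lit 95) (nat_lit 100) (nat_lit 300) (.leaf p043_l103))))))))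
(.leaf p043_l104)))
(.spl (nat_lit 4) (nat_lit 160)
(.leaf p043_l105)
(.leaf p043_l106))))) (by decide +kernel)
noncomputable def p043_l107 : Lf2 := ⟨nat_lit 0, nat_lit 2, [nat_lit 10, nat_lit 5, nat_lit 5, nat_lit 20], true, nat_lit 0, nat_lit 364, nat_lit 0, nat_lit 384, ⟨nat_lit 0, nat_lit 1000, nat_lit 0, nat_lit 5, nat_lit 147, nat_lit 1000, nat_lit 143, nat_lit 0, nat_lit 0, nat_lit 0, nat_lit 0, nat_lit 0, nat_lit 0, nat_lit 0, nat_lit 0, nat_lit 5000000, false, false⟩,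
 nat_lit 0, nat_lit 0, nat_lit 0, nat_lit 13078, nat_lit 4920, nat_lit 0, nat_lit 0, nat_lit 0, nat_lit 0, nat_lit 0, nat_lit 0, nat_lit 0, nat_lit 0, nat_lit 0, nat_lit 0, nat_lit 1000000, nat_lit 0, nat_lit 0, [(nat_lit 6, [(nat_lit 2, nat_lit 1000)]), (nat_lit 9, [(nat_lit 2, nat_lit 1000)])],
 ⟨p043_k26, nat_lit 0, nat_lit 0, nat_lit 185, nat_lit 0, nat_lit 0, [nat_lit 3327600000, nat_lit 2405466667], [], [nat_lit 19013584875, nat_lit 21849726908, nat_lit 20853636267, nat_lit 22880714507, nat_lit 27857575588, nat_lit 29234427867, nat_lit 26741213572, nat_lit 27742373404], nat_lit 0, nat_lit 0, nat_lit 0, nat_lit 0, nat_lit 0, nat_lit 0, [], [nat_lit 39, nat_lit 40, nat_lit 40, nat_lit 80, nat_lit 7, nat_lit 401, nat_lit 175, nat_lit 14]⟩, C1.Rw.none,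
 ⟨nat_lit 5477, nat_lit 6325, ⟨.ofNat (nat_lit 96904), .ofNat (nat_lit 582178), .ofNat (nat_lit 139640), .ofNat (nat_lit 624852), .ofNat (nat_lit 132827), .ofNat (nat_lit 574846), .ofNat (nat_lit 175541), .ofNat (nat_lit 617499)⟩, ⟨.negSucc (nat_lit 39529), .ofNat (nat_lit 708908), .ofNat (nat_lit 0), .ofNat (nat_lit 751581), .negSucc (nat_lit 2808), .ofNat (nat_lit 678915), .ofNat (nat_lit 0), .ofNat (nat_lit 721567)⟩⟩, [⟨nat_lit 0, nat_lit 100, nat_lit 94, nat_lit 59, nat_lit 13391991⟩, ⟨nat_lit 16, nat_lit 100, nat_lit 77, nat_lit 91, nat_lit 134595641⟩]⟩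
noncomputable def p043_l108 : Lf2 := ⟨nat_lit 0, nat_lit 2, [nat_lit 10, nat_lit 5, nat_lit 5, nat_lit 20], false, nat_lit 0, nat_lit 364, nat_lit 0, nat_lit 384, ⟨nat_lit 909, nat_lit 91, nat_lit 0, nat_lit 6, nat_lit 303, nat_lit 91, nat_lit 143, nat_lit 0, nat_lit 0, nat_lit 0, nat_lit 0, nat_lit 0, nat_lit 0, nat_lit 0, nat_lit 0, nat_lit 5000000, true, true⟩,
 nat_lit 0, nat_lit 0, nat_lit 0, nat_lit 23204, nat_lit 6486, nat_lit 7231, nat_lit 1426, nat_lit 0, nat_lit 0, nat_lit 1860, nat_lit 0, nat_lit 0, nat_lit 0, nat_lit 0, nat_lit 0, nat_lit 91000, nat_lit 0, nat_lit 0, [(nat_lit 6, [(nat_lit 2, nat_lit 91)]), (nat_lit 9, [(nat_lit 2, nat_lit 91)])],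
 ⟨p043_k2, nat_lit 0, nat_lit 0, nat_lit 193, nat_lit 0, nat_lit 0, [nat_lit 4517939200, nat_lit 5936122800, nat_lit 7449846000], [], [nat_lit 22829406730, nat_lit 25129081722, nat_lit 35054898912, nat_lit 36990283376, nat_lit 28037229128, nat_lit 29185795493, nat_lit 35390008216, nat_lit 36254404055], nat_lit 0, nat_lit 0, nat_lit 0, nat_lit 0, nat_lit 0, nat_lit 0, [], [nat_lit 9, nat_lit 40, nat_lit 40, nat_lit 80, nat_lit 2, nat_lit 317, nat_lit 100, nat_lit 10]⟩, ⟨p043_k27, nat_lit 0, nat_lit 0, nat_lit 228, nat_lit 0, nat_lit 0, [nat_lit 5681250000, nat_lit 7242912000, nat_lit 8946378000], [], [nat_lit 23446535640, nat_lit 24900325556, nat_lit 34705733052, nat_lit 35448282992, nat_lit 27950808971, nat_lit 28414610520, nat_lit 34811544060, nat_lit 35047070943], nat_lit 0, nat_lit 0, nat_lit 0, nat_lit 0, nat_lit 0, nat_lit 0, [], [nat_lit 25, nat_lit 40, nat_lit 40, nat_lit 80, nat_lit 17, nat_lit 538,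 nat_lit 300, nat_lit 15]⟩,
 ⟨nat_lit 5477, nat_lit 6325, ⟨.ofNat (nat_lit 582178), .ofNat (nat_lit 910890), .ofNat (nat_lit 624852), .ofNat (nat_lit 953563), .ofNat (nat_lit 574846), .ofNat (nat_lit 874234), .ofNat (nat_lit 617499), .ofNat (nat_lit 916886)⟩, ⟨.negSucc (nat_lit 39529), .ofNat (nat_lit 708908), .ofNat (nat_lit 0), .ofNat (nat_lit 751581), .negSucc (nat_lit 2808), .ofNat (nat_lit 678915), .ofNat (nat_lit 0), .ofNat (nat_lit 721567)⟩⟩, [⟨nat_lit 16, nat_lit 100, nat_lit 77, nat_lit 91, nat_lit 190486953⟩, ⟨nat_lit 7, nat_lit 59, nat_lit 100, nat_lit 87, nat_lit 204147978⟩]⟩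
noncomputable def p043_l109 : Lf2 := ⟨nat_lit 0, nat_lit 2, [nat_lit 10, nat_lit 5, nat_lit 5, nat_lit 20], true, nat_lit 0, nat_lit 364, nat_lit 0, nat_lit 384, ⟨nat_lit 0, nat_lit 1000, nat_lit 0, nat_lit 5, nat_lit 147, nat_lit 1000, nat_lit 143, nat_lit 0, nat_lit 0, nat_lit 0, nat_lit 0, nat_lit 0, nat_lit 0, nat_lit 0, nat_lit 0, nat_lit 5000000, false, false⟩,
 nat_lit 0, nat_lit 0, nat_lit 0, nat_lit 13078, nat_lit 4920, nat_lit 0, nat_lit 0, nat_lit 0, nat_lit 0, nat_lit 0, nat_lit 0, nat_lit 0, nat_lit 0, nat_lit 0, nat_lit 0, nat_lit 1000000, nat_lit 0, nat_lit 0, [(nat_lit 6, [(nat_lit 2, nat_lit 1000)]), (nat_lit 9, [(nat_lit 2, nat_lit 1000)])],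
 ⟨p043_k26, nat_lit 0, nat_lit 0, nat_lit 185, nat_lit 0, nat_lit 0, [nat_lit 3327600000, nat_lit 2405466667], [], [nat_lit 19013584875, nat_lit 21849726908, nat_lit 20853636267, nat_lit 22880714507, nat_lit 27857575588, nat_lit 29234427867, nat_lit 26741213572, nat_lit 27742373404], nat_lit 0, nat_lit 0, nat_lit 0, nat_lit 0, nat_lit 0, nat_lit 0, [], [nat_lit 39, nat_lit 40, nat_lit 40, nat_lit 80, nat_lit 7, nat_lit 401, nat_lit 175, nat_lit 14]⟩, C1.Rw.none,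
 ⟨nat_lit 5477, nat_lit 6325, ⟨.ofNat (nat_lit 96904), .ofNat (nat_lit 582178), .ofNat (nat_lit 139640), .ofNat (nat_lit 624852), .ofNat (nat_lit 132827), .ofNat (nat_lit 574846), .ofNat (nat_lit 175541), .ofNat (nat_lit 617499)⟩, ⟨.negSucc (nat_lit 39529), .ofNat (nat_lit 708908), .ofNat (nat_lit 0), .ofNat (nat_lit 751581), .negSucc (nat_lit 2808), .ofNat (nat_lit 678915), .ofNat (nat_lit 0), .ofNat (nat_lit 721567)⟩⟩, [⟨nat_lit 0, nat_lit 100, nat_lit 94, nat_lit 59, nat_lit 13391991⟩, ⟨nat_lit 16, nat_lit 100, nat_lit 77, nat_lit 91, nat_lit 134595641⟩]⟩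
noncomputable def p043_l110 : Lf2 := ⟨nat_lit 1, nat_lit 2, [nat_lit 10, nat_lit 5, nat_lit 5, nat_lit 20], false, nat_lit 0, nat_lit 364, nat_lit 0, nat_lit 384, zbN0,
 nat_lit 0, nat_lit 0, nat_lit 0, nat_lit 0, nat_lit 0, nat_lit 0, nat_lit 0, nat_lit 0, nat_lit 0, nat_lit 0, nat_lit 0, nat_lit 0, nat_lit 0, nat_lit 0, nat_lit 0, nat_lit 0, nat_lit 0, nat_lit 0, [],
 C1.Rw.none, C1.Rw.none,
 zbF0, []⟩
noncomputable def p043_l111 : Lf2 := ⟨nat_lit 0, nat_lit 2, [nat_lit 10, nat_lit 5, nat_lit 5, nat_lit 20], false, nat_lit 0, nat_lit 352, nat_lit 0, nat_lit 384, ⟨nat_lit 579, nat_lit 421, nat_lit 0, nat_lit 6, nat_lit 301, nat_lit 421, nat_lit 137, nat_lit 0, nat_lit 0, nat_lit 0, nat_lit 0, nat_lit 0, nat_lit 0, nat_lit 0, nat_lit 0, nat_lit 5000000, true, true⟩,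
 nat_lit 0, nat_lit 0, nat_lit 10485, nat_lit 10276, nat_lit 4881, nat_lit 4493, nat_lit 1461, nat_lit 0, nat_lit 0, nat_lit 1193, nat_lit 0, nat_lit 0, nat_lit 0, nat_lit 0, nat_lit 0, nat_lit 421000, nat_lit 0, nat_lit 0, [(nat_lit 9, [(nat_lit 2, nat_lit 421)])],
 ⟨p043_k12, nat_lit 0, nat_lit 0, nat_lit 165, nat_lit 0, nat_lit 0, [nat_lit 3835671467, nat_lit 4599343200], [], [nat_lit 21801563972, nat_lit 22907872122, nat_lit 31913463724, nat_lit 32790614696, nat_lit 27486014351, nat_lit 28056955202, nat_lit 33279385048, nat_lit 33640563297], nat_lit 0, nat_lit 0, nat_lit 0, nat_lit 0, nat_lit 0, nat_lit 0, [], [nat_lit 31, nat_lit 40, nat_lit 40, nat_lit 80, nat_lit 3, nat_lit 317, nat_lit 100, nat_lit 12]⟩, ⟨p043_k27, nat_lit 0, nat_lit 0, nat_lit 290, nat_lit 0, nat_lit 117572, [nat_lit 3618750000, nat_lit 4613472000, nat_lit 5698518000], [], [nat_lit 18245315659, nat_lit 18830948636, nat_lit 23174639656,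 nat_lit 23441664244, nat_lit 23278892326, nat_lit 19814850050, nat_lit 22201601584, nat_lit 22169701885], nat_lit 1271250, nat_lit 1271250, nat_lit 1271250, nat_lit 1271250, nat_lit 0, nat_lit 2712000, [nat_lit 1412500, nat_lit 1271250, nat_lit 1271250], [nat_lit 25, nat_lit 40, nat_lit 40, nat_lit 80, nat_lit 17, nat_lit 538, nat_lit 300, nat_lit 15]⟩,
 ⟨nat_lit 5477, nat_lit 5917, ⟨.ofNat (nat_lit 578514), .ofNat (nat_lit 892572), .ofNat (nat_lit 621176), .ofNat (nat_lit 935234), .ofNat (nat_lit 574913), .ofNat (nat_lit 874569), .ofNat (nat_lit 617611), .ofNat (nat_lit 917267)⟩, ⟨.negSucc (nat_lit 20704), .ofNat (nat_lit 670368), .ofNat (nat_lit 0), .ofNat (nat_lit 713031), .negSucc (nat_lit 2808), .ofNat (nat_lit 656580), .ofNat (nat_lit 0), .ofNat (nat_lit 699278)⟩⟩, [⟨nat_lit 4, nat_lit 82, nat_lit 100, nat_lit 92, nat_lit 163446654⟩, ⟨nat_lit 19, nat_lit 100, nat_lit 59, nat_lit 87, nat_lit 114778444⟩]⟩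
noncomputable def b_V_600_500_20_1 : St := ⟨true, nat_lit 0, nat_lit 2, nat_lit 2, nat_lit 120, nat_lit 240, nat_lit 280, nat_lit 200, nat_lit 240, nat_lit 4, nat_lit 400, nat_lit 80, nat_lit 120, nat_lit 0, nat_lit 364, nat_lit 0, nat_lit 384, nat_lit 0, nat_lit 8, nat_lit 0, nat_lit 0, nat_lit 0, nat_lit 0⟩
theorem d_V_600_500_20_1 (h : EB TB.env) : Dead b_V_600_500_20_1 := chkB_sound0 h (T :=
(.st (nat_lit 1)
(.spl (nat_lit 2) (nat_lit 240)
(.leaf p043_l107)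
(.leaf p043_l108))
(.spl (nat_lit 2) (nat_lit 240)
(.leaf p043_l109)
(.spl (nat_lit 0) (nat_lit 260)
(.leaf p043_l110)
(.trX (nat_lit 16) (nat_lit 100) (nat_lit 69) (nat_lit 96) (nat_lit 352) (.leaf p043_l111)))))) (by decide +kernel)
noncomputable def p043_l112 : Lf2 := ⟨nat_lit 1, nat_lit 2, [nat_lit 10, nat_lit 5, nat_lit 5, nat_lit 20], false, nat_lit 0, nat_lit 160, nat_lit 0, nat_lit 384, zbN0,
 nat_lit 0, nat_lit 0, nat_lit 0, nat_lit 0, nat_lit 0, nat_lit 0, nat_lit 0, nat_lit 0, nat_lit 0, nat_lit 0, nat_lit 0, nat_lit 0, nat_lit 0, nat_lit 0, nat_lit 0, nat_lit 0, nat_lit 0, nat_lit 0, [],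
 C1.Rw.none, C1.Rw.none,
 zbF0, []⟩
noncomputable def p043_l113 : Lf2 := ⟨nat_lit 0, nat_lit 2, [nat_lit 10, nat_lit 5, nat_lit 5, nat_lit 20], true, nat_lit 0, nat_lit 160, nat_lit 0, nat_lit 384, ⟨nat_lit 0, nat_lit 0, nat_lit 1000, nat_lit 5, nat_lit 104, nat_lit 639, nat_lit 63, nat_lit 1000, nat_lit 36817, nat_lit 262, nat_lit 101400, nat_lit 293, nat_lit 62743720, nat_lit 0, nat_lit 0, nat_lit 1182807, false, false⟩,
 nat_lit 0, nat_lit 5721, nat_lit 0, nat_lit 4784, nat_lit 3330, nat_lit 0, nat_lit 0, nat_lit 0, nat_lit 0, nat_lit 0, nat_lit 0, nat_lit 0, nat_lit 0, nat_lit 0, nat_lit 37, nat_lit 1000000, nat_lit 0, nat_lit 0, [(nat_lit 9, [(nat_lit 6, nat_lit 1000)])],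
 ⟨p043_k12, nat_lit 0, nat_lit 0, nat_lit 261, nat_lit 0, nat_lit 69898, [nat_lit 1689600001, nat_lit 0], [], [nat_lit 13870820495, nat_lit 15257746098, nat_lit 13487797402, nat_lit 14745282042, nat_lit 14339732866, nat_lit 15519129283, nat_lit 14252803502, nat_lit 15316201402], nat_lit 1271250, nat_lit 1271250, nat_lit 43600, nat_lit 780000, nat_lit 0, nat_lit 1100001, [nat_lit 1100000, nat_lit 1442500], [nat_lit 31, nat_lit 40, nat_lit 40, nat_lit 80, nat_lit 3, nat_lit 289, nat_lit 75, nat_lit 12]⟩, C1.Rw.none,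
 ⟨nat_lit 5477, nat_lit 5917, ⟨.ofNat (nat_lit 123037), .ofNat (nat_lit 342931), .ofNat (nat_lit 165716), .ofNat (nat_lit 385610), .ofNat (nat_lit 140320), .ofNat (nat_lit 350132), .ofNat (nat_lit 183034), .ofNat (nat_lit 392847)⟩, ⟨.negSucc (nat_lit 20704), .ofNat (nat_lit 293429), .ofNat (nat_lit 0), .ofNat (nat_lit 336108), .negSucc (nat_lit 2808), .ofNat (nat_lit 296923), .ofNat (nat_lit 0), .ofNat (nat_lit 339637)⟩⟩, [⟨nat_lit 0, nat_lit 100, nat_lit 94, nat_lit 59, nat_lit 127351895⟩]⟩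
noncomputable def p043_l114 : Lf2 := ⟨nat_lit 1, nat_lit 2, [nat_lit 10, nat_lit 5, nat_lit 5, nat_lit 20], false, nat_lit 0, nat_lit 160, nat_lit 0, nat_lit 384, zbN0,
 nat_lit 0, nat_lit 0, nat_lit 0, nat_lit 0, nat_lit 0, nat_lit 0, nat_lit 0, nat_lit 0, nat_lit 0, nat_lit 0, nat_lit 0, nat_lit 0, nat_lit 0, nat_lit 0, nat_lit 0, nat_lit 0, nat_lit 0, nat_lit 0, [],
 C1.Rw.none, C1.Rw.none,
 zbF0, []⟩
noncomputable def p043_l115 : Lf2 := ⟨nat_lit 0, nat_lit 2, [nat_lit 10, nat_lit 5, nat_lit 5, nat_lit 20], true, nat_lit 0, nat_lit 160, nat_lit 0, nat_lit 384, ⟨nat_lit 0, nat_lit 1000, nat_lit 0, nat_lit 5, nat_lit 193, nat_lit 1000, nat_lit 63, nat_lit 0, nat_lit 0, nat_lit 0, nat_lit 0, nat_lit 0, nat_lit 54327692, nat_lit 12672308, nat_lit 0, nat_lit 2424858, false, false⟩,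
 nat_lit 0, nat_lit 9026, nat_lit 0, nat_lit 12853, nat_lit 5253, nat_lit 0, nat_lit 3354, nat_lit 0, nat_lit 0, nat_lit 0, nat_lit 0, nat_lit 0, nat_lit 0, nat_lit 0, nat_lit 0, nat_lit 1000000, nat_lit 0, nat_lit 0, [(nat_lit 9, [(nat_lit 2, nat_lit 1000)])],
 ⟨p043_k12, nat_lit 0, nat_lit 0, nat_lit 205, nat_lit 0, nat_lit 69898, [nat_lit 2663466667, nat_lit 2329200000], [], [nat_lit 13667687274, nat_lit 15245174498, nat_lit 18190136700, nat_lit 19428530194, nat_lit 12921542284, nat_lit 14232680274, nat_lit 20418919861, nat_lit 17909624797], nat_lit 1271250, nat_lit 1271250, nat_lit 780000, nat_lit 1762500, nat_lit 0, nat_lit 1100001, [nat_lit 1100000, nat_lit 1442500], [nat_lit 31, nat_lit 40, nat_lit 40, nat_lit 80, nat_lit 3, nat_lit 317, nat_lit 100, nat_lit 12]⟩, C1.Rw.none,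
 ⟨nat_lit 5477, nat_lit 5917, ⟨.ofNat (nat_lit 342931), .ofNat (nat_lit 578514), .ofNat (nat_lit 385610), .ofNat (nat_lit 621176), .ofNat (nat_lit 350132), .ofNat (nat_lit 574913), .ofNat (nat_lit 392847), .ofNat (nat_lit 617611)⟩, ⟨.negSucc (nat_lit 20704), .ofNat (nat_lit 293429), .ofNat (nat_lit 0), .ofNat (nat_lit 336108), .negSucc (nat_lit 2808), .ofNat (nat_lit 296923), .ofNat (nat_lit 0), .ofNat (nat_lit 339637)⟩⟩, []⟩
noncomputable def p043_l116 : Lf2 := ⟨nat_lit 0, nat_lit 2, [nat_lit 10, nat_lit 5, nat_lit 5, nat_lit 20], true, nat_lit 160, nat_lit 240, nat_lit 0, nat_lit 384, ⟨nat_lit 0, nat_lit 0, nat_lit 1000, nat_lit 5, nat_lit 100, nat_lit 1000, nat_lit 157, nat_lit 1000, nat_lit 40279, nat_lit 264, nat_lit 93750, nat_lit 290, nat_lit 53267202, nat_lit 0, nat_lit 0, nat_lit 3387606, false, false⟩,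
 nat_lit 0, nat_lit 8447, nat_lit 0, nat_lit 19888, nat_lit 4471, nat_lit 0, nat_lit 0, nat_lit 0, nat_lit 0, nat_lit 0, nat_lit 0, nat_lit 0, nat_lit 0, nat_lit 0, nat_lit 80, nat_lit 1000000, nat_lit 0, nat_lit 0, [(nat_lit 6, [(nat_lit 6, nat_lit 1000)]), (nat_lit 9, [(nat_lit 6, nat_lit 1000)])],
 ⟨p043_k2, nat_lit 0, nat_lit 0, nat_lit 194, nat_lit 0, nat_lit 80107, [nat_lit 2377600001, nat_lit 1408000000, nat_lit 211200000], [], [nat_lit 22525045758, nat_lit 17875152106, nat_lit 13903137529, nat_lit 13453284610, nat_lit 16366602205, nat_lit 18383021610, nat_lit 20045475109, nat_lit 15714345873], nat_lit 1271250, nat_lit 1271250, nat_lit 21650, nat_lit 780000, nat_lit 1100001, nat_lit 1785000, [nat_lit 1100000, nat_lit 1442500, nat_lit 1271250], [nat_lit 9, nat_lit 40, nat_lit 40, nat_lit 80, nat_lit 2, nat_lit 317, nat_lit 100, nat_lit 10]⟩, C1.Rw.none,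
 ⟨nat_lit 5477, nat_lit 6325, ⟨.ofNat (nat_lit 96904), .ofNat (nat_lit 335470), .ofNat (nat_lit 139640), .ofNat (nat_lit 378206), .ofNat (nat_lit 132827), .ofNat (nat_lit 350132), .ofNat (nat_lit 175541), .ofNat (nat_lit 392847)⟩, ⟨.ofNat (nat_lit 289527), .ofNat (nat_lit 454055), .ofNat (nat_lit 332263), .ofNat (nat_lit 496791), .ofNat (nat_lit 296923), .ofNat (nat_lit 446789), .ofNat (nat_lit 339637), .ofNat (nat_lit 489503)⟩⟩, [⟨nat_lit 0, nat_lit 100, nat_lit 94, nat_lit 59, nat_lit 223517590⟩]⟩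
noncomputable def p043_l117 : Lf2 := ⟨nat_lit 0, nat_lit 2, [nat_lit 10, nat_lit 5, nat_lit 5, nat_lit 20], false, nat_lit 160, nat_lit 240, nat_lit 0, nat_lit 384, ⟨nat_lit 1000, nat_lit 0, nat_lit 0, nat_lit 0, nat_lit 0, nat_lit 0, nat_lit 0, nat_lit 0, nat_lit 0, nat_lit 0, nat_lit 0, nat_lit 0, nat_lit 0, nat_lit 0, nat_lit 0, nat_lit 0, false, false⟩,
 nat_lit 0, nat_lit 8982, nat_lit 0, nat_lit 15767, nat_lit 4755, nat_lit 7795, nat_lit 1723, nat_lit 0, nat_lit 0, nat_lit 0, nat_lit 0, nat_lit 0, nat_lit 0, nat_lit 0, nat_lit 0, nat_lit 0, nat_lit 0, nat_lit 0, [],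
 ⟨p043_k2, nat_lit 0, nat_lit 0, nat_lit 136, nat_lit 0, nat_lit 80107, [nat_lit 4688000000, nat_lit 6250000000, nat_lit 7968000000], [], [nat_lit 33495871200, nat_lit 28467572820, nat_lit 32037111180, nat_lit 27494298300, nat_lit 29794882740, nat_lit 25188659355, nat_lit 38781806220, nat_lit 34360588200], nat_lit 1271250, nat_lit 1271250, nat_lit 780000, nat_lit 1762500, nat_lit 1100001, nat_lit 1785000, [nat_lit 1100000, nat_lit 1442500, nat_lit 1271250], [nat_lit 9, nat_lit 40, nat_lit 40, nat_lit 80, nat_lit 2, nat_lit 345, nat_lit 125, nat_lit 11]⟩, ⟨p043_k27, nat_lit 0, nat_lit 0, nat_lit 94, nat_lit 0, nat_lit 0, [nat_lit 6250000000, nat_lit 7968000000, nat_lit 9842000000], [], [nat_lit 10572741880, nat_lit 14253559260, nat_lit 17305549640, nat_lit 20066257880, nat_lit 26604283497, nat_lit 27843466561, nat_lit 28115740785, nat_lit 29264168749], nat_lit 0, nat_lit 0, nat_lit 0, nat_lit 0, nat_lit 0,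 nat_lit 0, [], [nat_lit 25, nat_lit 40, nat_lit 40, nat_lit 80, nat_lit 17, nat_lit 456, nat_lit 225, nat_lit 13]⟩,
 zbF0, [⟨nat_lit 19, nat_lit 100, nat_lit 59, nat_lit 87, nat_lit 416028130⟩]⟩
noncomputable def p043_l118 : Lf2 := ⟨nat_lit 1, nat_lit 2, [nat_lit 10, nat_lit 5, nat_lit 5, nat_lit 20], false, nat_lit 240, nat_lit 320, nat_lit 0, nat_lit 336, zbN0,
 nat_lit 0, nat_lit 0, nat_lit 0, nat_lit 0, nat_lit 0, nat_lit 0, nat_lit 0, nat_lit 0, nat_lit 0, nat_lit 0, nat_lit 0, nat_lit 0, nat_lit 0, nat_lit 0, nat_lit 0, nat_lit 0, nat_lit 0, nat_lit 0, [],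
 C1.Rw.none, C1.Rw.none,
 zbF0, []⟩
noncomputable def p043_l119 : Lf2 := ⟨nat_lit 0, nat_lit 2, [nat_lit 10, nat_lit 5, nat_lit 5, nat_lit 20], true, nat_lit 240, nat_lit 280, nat_lit 0, nat_lit 288, ⟨nat_lit 0, nat_lit 743, nat_lit 257, nat_lit 5, nat_lit 73, nat_lit 1000, nat_lit 203, nat_lit 257, nat_lit 3650, nat_lit 223, nat_lit 50417, nat_lit 270, nat_lit 50516856, nat_lit 2832053, nat_lit 13651091, nat_lit 3525534, false, false⟩,
 nat_lit 0, nat_lit 8509, nat_lit 0, nat_lit 0, nat_lit 4953, nat_lit 0, nat_lit 399, nat_lit 0, nat_lit 0, nat_lit 0, nat_lit 0, nat_lit 0, nat_lit 0, nat_lit 0, nat_lit 0, nat_lit 1000000, nat_lit 0, nat_lit 0, [(nat_lit 9, [(nat_lit 2, nat_lit 743), (nat_lit 6, nat_lit 257)])],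
 ⟨p043_k12, nat_lit 0, nat_lit 0, nat_lit 139, nat_lit 0, nat_lit 41259, [nat_lit 2261038934, nat_lit 1540415600], [], [nat_lit 17636070868, nat_lit 18745330292, nat_lit 16359239341, nat_lit 17450884663, nat_lit 20270401666, nat_lit 21737311652, nat_lit 18564636695, nat_lit 19622971278], nat_lit 1271250, nat_lit 1271250, nat_lit 43600, nat_lit 230001, nat_lit 1271250, nat_lit 1271250, [nat_lit 1100000, nat_lit 1442500], [nat_lit 31, nat_lit 40, nat_lit 40, nat_lit 80, nat_lit 3, nat_lit 215, nat_lit 10, nat_lit 8]⟩, C1.Rw.none,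
 ⟨nat_lit 5477, nat_lit 5917, ⟨.ofNat (nat_lit 123037), .ofNat (nat_lit 185864), .ofNat (nat_lit 165716), .ofNat (nat_lit 228543), .ofNat (nat_lit 140320), .ofNat (nat_lit 200266), .ofNat (nat_lit 183034), .ofNat (nat_lit 242980)⟩, ⟨.ofNat (nat_lit 450496), .ofNat (nat_lit 529030), .ofNat (nat_lit 493175), .ofNat (nat_lit 571704), .ofNat (nat_lit 446789), .ofNat (nat_lit 521722), .ofNat (nat_lit 489503), .ofNat (nat_lit 564432)⟩⟩, [⟨nat_lit 0, nat_lit 100, nat_lit 94, nat_lit 59, nat_lit 428583447⟩]⟩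
noncomputable def p043_l120 : Lf2 := ⟨nat_lit 0, nat_lit 2, [nat_lit 10, nat_lit 5, nat_lit 5, nat_lit 20], false, nat_lit 280, nat_lit 320, nat_lit 0, nat_lit 248, ⟨nat_lit 1000, nat_lit 0, nat_lit 0, nat_lit 0, nat_lit 0, nat_lit 0, nat_lit 0, nat_lit 0, nat_lit 0, nat_lit 0, nat_lit 0, nat_lit 0, nat_lit 0, nat_lit 0, nat_lit 0, nat_lit 0, false, false⟩,
 nat_lit 0, nat_lit 11493, nat_lit 0, nat_lit 42390, nat_lit 6689, nat_lit 15071, nat_lit 3177, nat_lit 0, nat_lit 0, nat_lit 4200, nat_lit 0, nat_lit 0, nat_lit 0, nat_lit 0, nat_lit 0, nat_lit 0, nat_lit 0, nat_lit 0, [],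
 ⟨p043_k12, nat_lit 0, nat_lit 0, nat_lit 129, nat_lit 0, nat_lit 41259, [nat_lit 4688000000, nat_lit 6250000000], [], [nat_lit 22705473197, nat_lit 23946410932, nat_lit 20776186943, nat_lit 21997833330, nat_lit 26158446507, nat_lit 27641050416, nat_lit 23553187672, nat_lit 24621392232], nat_lit 1271250, nat_lit 1271250, nat_lit 43600, nat_lit 230001, nat_lit 1271250, nat_lit 1271250, [nat_lit 1100000, nat_lit 1442500], [nat_lit 31, nat_lit 40, nat_lit 40, nat_lit 80, nat_lit 3, nat_lit 215, nat_lit 10, nat_lit 7]⟩, ⟨p043_k27, nat_lit 0, nat_lit 0, nat_lit 287, nat_lit 0, nat_lit 0, [nat_lit 6250000000, nat_lit 7968000000, nat_lit 9842000000], [], [nat_lit 26121390481, nat_lit 30681831658, nat_lit 18880304864, nat_lit 23464733420, nat_lit 18541767065, nat_lit 22349000836, nat_lit 12844425610, nat_lit 16280867086], nat_lit 0, nat_lit 0, nat_lit 0, nat_lit 0, nat_lit 0, nat_lit 0, [], [nat_lit 25, nat_lit 40,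 nat_lit 40, nat_lit 80, nat_lit 17, nat_lit 373, nat_lit 150, nat_lit 11]⟩,
 zbF0, [⟨nat_lit 0, nat_lit 100, nat_lit 94, nat_lit 59, nat_lit 2293957597⟩, ⟨nat_lit 16, nat_lit 100, nat_lit 82, nat_lit 92, nat_lit 632300343⟩]⟩
noncomputable def p043_l121 : Lf2 := ⟨nat_lit 0, nat_lit 2, [nat_lit 10, nat_lit 5, nat_lit 5, nat_lit 20], true, nat_lit 240, nat_lit 320, nat_lit 0, nat_lit 336, ⟨nat_lit 0, nat_lit 1000, nat_lit 0, nat_lit 5, nat_lit 101, nat_lit 1000, nat_lit 214, nat_lit 0, nat_lit 0, nat_lit 0, nat_lit 0, nat_lit 0, nat_lit 47870398, nat_lit 4525659, nat_lit 14603943, nat_lit 4003021, false, false⟩,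
 nat_lit 0, nat_lit 7895, nat_lit 0, nat_lit 3731, nat_lit 4595, nat_lit 0, nat_lit 0, nat_lit 0, nat_lit 0, nat_lit 0, nat_lit 0, nat_lit 0, nat_lit 0, nat_lit 0, nat_lit 0, nat_lit 1000000, nat_lit 0, nat_lit 0, [(nat_lit 9, [(nat_lit 2, nat_lit 1000)])],
 ⟨p043_k12, nat_lit 0, nat_lit 0, nat_lit 122, nat_lit 0, nat_lit 38872, [nat_lit 2663466667, nat_lit 2329200000], [], [nat_lit 15867159807, nat_lit 17217521287, nat_lit 15380693287, nat_lit 16682570767, nat_lit 21291995727, nat_lit 22357435787, nat_lit 20610751617, nat_lit 21641895427], nat_lit 1271250, nat_lit 1271250, nat_lit 230001, nat_lit 490000, nat_lit 1271250, nat_lit 1271250, [nat_lit 1100000, nat_lit 1442500], [nat_lit 31, nat_lit 40, nat_lit 40, nat_lit 80, nat_lit 3, nat_lit 226, nat_lit 20, nat_lit 8]⟩, C1.Rw.none,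
 ⟨nat_lit 5477, nat_lit 5917, ⟨.ofNat (nat_lit 185864), .ofNat (nat_lit 264398), .ofNat (nat_lit 228543), .ofNat (nat_lit 307076), .ofNat (nat_lit 200266), .ofNat (nat_lit 275199), .ofNat (nat_lit 242980), .ofNat (nat_lit 317913)⟩, ⟨.ofNat (nat_lit 450496), .ofNat (nat_lit 607556), .ofNat (nat_lit 471836), .ofNat (nat_lit 628888), .ofNat (nat_lit 446789), .ofNat (nat_lit 596648), .ofNat (nat_lit 468146), .ofNat (nat_lit 617997)⟩⟩, [⟨nat_lit 16, nat_lit 100, nat_lit 86, nat_lit 89, nat_lit 279690291⟩]⟩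
noncomputable def p043_l122 : Lf2 := ⟨nat_lit 1, nat_lit 2, [nat_lit 10, nat_lit 5, nat_lit 5, nat_lit 20], false, nat_lit 240, nat_lit 320, nat_lit 0, nat_lit 336, zbN0,
 nat_lit 0, nat_lit 0, nat_lit 0, nat_lit 0, nat_lit 0, nat_lit 0, nat_lit 0, nat_lit 0, nat_lit 0, nat_lit 0, nat_lit 0, nat_lit 0, nat_lit 0, nat_lit 0, nat_lit 0, nat_lit 0, nat_lit 0, nat_lit 0, [],
 C1.Rw.none, C1.Rw.none,
 zbF0, []⟩
noncomputable def p043_l123 : Lf2 := ⟨nat_lit 0, nat_lit 2, [nat_lit 10, nat_lit 5, nat_lit 5, nat_lit 20], true, nat_lit 240, nat_lit 320, nat_lit 0, nat_lit 364, ⟨nat_lit 0, nat_lit 1000, nat_lit 0, nat_lit 5, nat_lit 130, nat_lit 1000, nat_lit 220, nat_lit 0, nat_lit 0, nat_lit 0, nat_lit 0, nat_lit 0, nat_lit 45587185, nat_lit 6510962, nat_lit 14901853, nat_lit 4398421, false, false⟩,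
 nat_lit 0, nat_lit 9201, nat_lit 0, nat_lit 2358, nat_lit 4870, nat_lit 0, nat_lit 0, nat_lit 0, nat_lit 0, nat_lit 0, nat_lit 0, nat_lit 0, nat_lit 0, nat_lit 0, nat_lit 0, nat_lit 400000, nat_lit 0, nat_lit 0, [(nat_lit 6, [(nat_lit 1, nat_lit 1000)]), (nat_lit 9, [(nat_lit 1, nat_lit 1000)])],
 ⟨p043_k2, nat_lit 0, nat_lit 0, nat_lit 116, nat_lit 0, nat_lit 80107, [nat_lit 2702720000, nat_lit 3030400001, nat_lit 3280799999], [], [nat_lit 13771022440, nat_lit 16450778600, nat_lit 14032244680, nat_lit 16578516480, nat_lit 19439014440, nat_lit 21552230960, nat_lit 19418791200, nat_lit 21433337000], nat_lit 1271250, nat_lit 1271250, nat_lit 490000, nat_lit 780000, nat_lit 1271250, nat_lit 1271250, [nat_lit 1100000, nat_lit 1442500, nat_lit 1271250], [nat_lit 9, nat_lit 40, nat_lit 40, nat_lit 80, nat_lit 2, nat_lit 238, nat_lit 30, nat_lit 7]⟩, C1.Rw.none,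
 ⟨nat_lit 5477, nat_lit 6325, ⟨.ofNat (nat_lit 253206), .ofNat (nat_lit 335470), .ofNat (nat_lit 295942), .ofNat (nat_lit 378206), .ofNat (nat_lit 275199), .ofNat (nat_lit 350132), .ofNat (nat_lit 317913), .ofNat (nat_lit 392847)⟩, ⟨.ofNat (nat_lit 454055), .ofNat (nat_lit 618504), .ofNat (nat_lit 496791), .ofNat (nat_lit 661186), .ofNat (nat_lit 446789), .ofNat (nat_lit 596575), .ofNat (nat_lit 489503), .ofNat (nat_lit 639236)⟩⟩, [⟨nat_lit 16, nat_lit 100, nat_lit 77, nat_lit 91, nat_lit 265139255⟩]⟩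
noncomputable def p043_l124 : Lf2 := ⟨nat_lit 1, nat_lit 2, [nat_lit 10, nat_lit 5, nat_lit 5, nat_lit 20], false, nat_lit 320, nat_lit 364, nat_lit 0, nat_lit 300, zbN0,
 nat_lit 0, nat_lit 0, nat_lit 0, nat_lit 0, nat_lit 0, nat_lit 0, nat_lit 0, nat_lit 0, nat_lit 0, nat_lit 0, nat_lit 0, nat_lit 0, nat_lit 0, nat_lit 0, nat_lit 0, nat_lit 0, nat_lit 0, nat_lit 0, [],
 C1.Rw.none, C1.Rw.none,
 zbF0, []⟩
noncomputable def p043_l125 : Lf2 := ⟨nat_lit 0, nat_lit 2, [nat_lit 10, nat_lit 5, nat_lit 5, nat_lit 20], true, nat_lit 320, nat_lit 352, nat_lit 0, nat_lit 300, ⟨nat_lit 0, nat_lit 1000, nat_lit 0, nat_lit 5, nat_lit 104, nat_lit 1000, nat_lit 262, nat_lit 0, nat_lit 0, nat_lit 0, nat_lit 0, nat_lit 0, nat_lit 43268391, nat_lit 4514956, nat_lit 19216653, nat_lit 4359473, false, false⟩,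
 nat_lit 0, nat_lit 7922, nat_lit 0, nat_lit 100000, nat_lit 4611, nat_lit 0, nat_lit 585, nat_lit 0, nat_lit 0, nat_lit 0, nat_lit 0, nat_lit 0, nat_lit 0, nat_lit 0, nat_lit 0, nat_lit 1000000, nat_lit 0, nat_lit 0, [(nat_lit 9, [(nat_lit 2, nat_lit 1000)])],
 ⟨p043_k12, nat_lit 0, nat_lit 0, nat_lit 154, nat_lit 0, nat_lit 69898, [nat_lit 2663466667, nat_lit 2329200000], [], [nat_lit 23480750258, nat_lit 24339751637, nat_lit 21672336498, nat_lit 22509555926, nat_lit 26147176956, nat_lit 27232575963, nat_lit 23662571766, nat_lit 24417827546], nat_lit 1271250, nat_lit 1271250, nat_lit 43600, nat_lit 780000, nat_lit 1271250, nat_lit 1271250, [nat_lit 1100000, nat_lit 1442500], [nat_lit 31, nat_lit 40, nat_lit 40, nat_lit 80, nat_lit 3, nat_lit 238, nat_lit 30, nat_lit 8]⟩, C1.Rw.none,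
 ⟨nat_lit 5477, nat_lit 5917, ⟨.ofNat (nat_lit 123037), .ofNat (nat_lit 342931), .ofNat (nat_lit 165716), .ofNat (nat_lit 385610), .ofNat (nat_lit 140320), .ofNat (nat_lit 350132), .ofNat (nat_lit 183034), .ofNat (nat_lit 392847)⟩, ⟨.ofNat (nat_lit 607556), .ofNat (nat_lit 670368), .ofNat (nat_lit 650219), .ofNat (nat_lit 713031), .ofNat (nat_lit 596648), .ofNat (nat_lit 656580), .ofNat (nat_lit 639346), .ofNat (nat_lit 699278)⟩⟩, [⟨nat_lit 0, nat_lit 100, nat_lit 94, nat_lit 59, nat_lit 170905961⟩, ⟨nat_lit 4, nat_lit 82, nat_lit 100, nat_lit 92, nat_lit 2971732634⟩]⟩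
noncomputable def p043_l126 : Lf2 := ⟨nat_lit 1, nat_lit 2, [nat_lit 10, nat_lit 5, nat_lit 5, nat_lit 20], false, nat_lit 240, nat_lit 364, nat_lit 0, nat_lit 384, zbN0,
 nat_lit 0, nat_lit 0, nat_lit 0, nat_lit 0, nat_lit 0, nat_lit 0, nat_lit 0, nat_lit 0, nat_lit 0, nat_lit 0, nat_lit 0, nat_lit 0, nat_lit 0, nat_lit 0, nat_lit 0, nat_lit 0, nat_lit 0, nat_lit 0, [],
 C1.Rw.none, C1.Rw.none,
 zbF0, []⟩
noncomputable def p043_l127 : Lf2 := ⟨nat_lit 0, nat_lit 2, [nat_lit 10, nat_lit 5, nat_lit 5, nat_lit 20], true, nat_lit 240, nat_lit 352, nat_lit 0, nat_lit 384, ⟨nat_lit 0, nat_lit 1000, nat_lit 0, nat_lit 5, nat_lit 193, nat_lit 1000, nat_lit 231, nat_lit 0, nat_lit 0, nat_lit 0, nat_lit 0, nat_lit 0, nat_lit 40637590, nat_lit 11313929, nat_lit 15048481, nat_lit 5063656, false, false⟩,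
 nat_lit 0, nat_lit 7914, nat_lit 0, nat_lit 2987, nat_lit 4606, nat_lit 0, nat_lit 0, nat_lit 0, nat_lit 0, nat_lit 0, nat_lit 0, nat_lit 0, nat_lit 0, nat_lit 0, nat_lit 0, nat_lit 1000000, nat_lit 0, nat_lit 0, [(nat_lit 9, [(nat_lit 2, nat_lit 1000)])],
 ⟨p043_k12, nat_lit 0, nat_lit 0, nat_lit 85, nat_lit 0, nat_lit 69898, [nat_lit 2663466667, nat_lit 2329200000], [], [nat_lit 15601266271, nat_lit 16840565291, nat_lit 19167619363, nat_lit 20153829179, nat_lit 22932158542, nat_lit 23813456103, nat_lit 25166766424, nat_lit 25982705316], nat_lit 1271250, nat_lit 1271250, nat_lit 780000, nat_lit 1762500, nat_lit 1271250, nat_lit 1271250, [nat_lit 1100000, nat_lit 1442500], [nat_lit 31, nat_lit 40, nat_lit 40, nat_lit 80, nat_lit 3, nat_lit 272, nat_lit 60, nat_lit 9]⟩, C1.Rw.none,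
 ⟨nat_lit 5477, nat_lit 5917, ⟨.ofNat (nat_lit 342931), .ofNat (nat_lit 578514), .ofNat (nat_lit 385610), .ofNat (nat_lit 621176), .ofNat (nat_lit 350132), .ofNat (nat_lit 574913), .ofNat (nat_lit 392847), .ofNat (nat_lit 617611)⟩, ⟨.ofNat (nat_lit 450496), .ofNat (nat_lit 670368), .ofNat (nat_lit 493175), .ofNat (nat_lit 713031), .ofNat (nat_lit 446789), .ofNat (nat_lit 656580), .ofNat (nat_lit 489503), .ofNat (nat_lit 699278)⟩⟩, [⟨nat_lit 4, nat_lit 82, nat_lit 100, nat_lit 92, nat_lit 216038432⟩]⟩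
noncomputable def p043_l128 : Lf2 := ⟨nat_lit 1, nat_lit 2, [nat_lit 10, nat_lit 5, nat_lit 5, nat_lit 20], false, nat_lit 0, nat_lit 364, nat_lit 0, nat_lit 384, zbN0,
 nat_lit 0, nat_lit 0, nat_lit 0, nat_lit 0, nat_lit 0, nat_lit 0, nat_lit 0, nat_lit 0, nat_lit 0, nat_lit 0, nat_lit 0, nat_lit 0, nat_lit 0, nat_lit 0, nat_lit 0, nat_lit 0, nat_lit 0, nat_lit 0, [],
 C1.Rw.none, C1.Rw.none,
 zbF0, []⟩
noncomputable def p043_l129 : Lf2 := ⟨nat_lit 0, nat_lit 2, [nat_lit 10, nat_lit 5, nat_lit 5, nat_lit 20], false, nat_lit 0, nat_lit 352, nat_lit 0, nat_lit 384, ⟨nat_lit 1000, nat_lit 0, nat_lit 0, nat_lit 0, nat_lit 0, nat_lit 0, nat_lit 0, nat_lit 0, nat_lit 0, nat_lit 0, nat_lit 0, nat_lit 0, nat_lit 0, nat_lit 0, nat_lit 0, nat_lit 0, false, false⟩,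
 nat_lit 0, nat_lit 11570, nat_lit 0, nat_lit 11698, nat_lit 6734, nat_lit 7755, nat_lit 2146, nat_lit 0, nat_lit 0, nat_lit 2038, nat_lit 0, nat_lit 0, nat_lit 0, nat_lit 0, nat_lit 0, nat_lit 0, nat_lit 0, nat_lit 0, [],
 ⟨p043_k12, nat_lit 0, nat_lit 0, nat_lit 187, nat_lit 0, nat_lit 69898, [nat_lit 4688000000, nat_lit 6250000000], [], [nat_lit 23086994290, nat_lit 24158576150, nat_lit 36657521736, nat_lit 37639204144, nat_lit 26841873020, nat_lit 27343272450, nat_lit 35484755863, nat_lit 35946194794], nat_lit 1271250, nat_lit 1271250, nat_lit 1271250, nat_lit 1271250, nat_lit 0, nat_lit 2486000, [nat_lit 1100000, nat_lit 1442500], [nat_lit 31, nat_lit 40, nat_lit 40, nat_lit 80, nat_lit 3, nat_lit 317, nat_lit 100, nat_lit 12]⟩, ⟨p043_k27, nat_lit 0, nat_lit 0, nat_lit 228, nat_lit 0, nat_lit 0, [nat_lit 6250000000, nat_lit 7968000000, nat_lit 9842000000], [], [nat_lit 26041799070, nat_lit 27627357510,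 nat_lit 37989899190, nat_lit 38809340030, nat_lit 31086063721, nat_lit 31602373416, nat_lit 38003510276, nat_lit 38278279088], nat_lit 0, nat_lit 0, nat_lit 0, nat_lit 0, nat_lit 0, nat_lit 0, [], [nat_lit 25, nat_lit 40, nat_lit 40, nat_lit 80, nat_lit 17, nat_lit 538, nat_lit 300, nat_lit 15]⟩,
 zbF0, [⟨nat_lit 16, nat_lit 100, nat_lit 82, nat_lit 92, nat_lit 183956014⟩, ⟨nat_lit 19, nat_lit 100, nat_lit 59, nat_lit 87, nat_lit 223210766⟩]⟩
noncomputable def b_V_600_500_20_2 : St := ⟨true, nat_lit 1, nat_lit 0, nat_lit 1, nat_lit 120, nat_lit 240, nat_lit 280, nat_lit 200, nat_lit 240, nat_lit 4, nat_lit 400, nat_lit 80, nat_lit 120, nat_lit 0, nat_lit 364, nat_lit 0, nat_lit 384, nat_lit 0, nat_lit 8, nat_lit 0, nat_lit 0, nat_lit 0, nat_lit 0⟩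
theorem d_V_600_500_20_2 (h : EB TB.env) : Dead b_V_600_500_20_2 := chkB_sound0 h (T :=
(.spl (nat_lit 2) (nat_lit 240)
(.spl (nat_lit 4) (nat_lit 160)
(.spl (nat_lit 2) (nat_lit 120)
(.spl (nat_lit 0) (nat_lit 260)
(.leaf p043_l112)
(.trZ (nat_lit 0) (nat_lit 100) (nat_lit 95) (nat_lit 30) (nat_lit 8) (.leaf p043_l113)))
(.spl (nat_lit 0) (nat_lit 260)
(.leaf p043_l114)
(.leaf p043_l115)))
(.spl (nat_lit 4) (nat_lit 240)
(.spl (nat_lit 2) (nat_lit 120)
(.leaf p043_l116)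
(.leaf p043_l117))
(.spl (nat_lit 2) (nat_lit 120)
(.trX (nat_lit 23) (nat_lit 100) (nat_lit 59) (nat_lit 94) (nat_lit 364) (.spl (nat_lit 4) (nat_lit 320)
(.spl (nat_lit 2) (nat_lit 80)
(.trX (nat_lit 23) (nat_lit 100) (nat_lit 76) (nat_lit 82) (nat_lit 336) (.spl (nat_lit 0) (nat_lit 260)
(.leaf p043_l118)
(.trZ (nat_lit 0) (nat_lit 100) (nat_lit 95) (nat_lit 30) (nat_lit 8) (.spl (nat_lit 2) (nat_lit 40)
(.trX (nat_lit 23) (nat_lit 100) (nat_lit 92) (nat_lit 61) (nat_lit 288) (.spl (nat_lit 4) (nat_lit 280)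
(.leaf p043_l119)
(.trX (nat_lit 23) (nat_lit 94) (nat_lit 100) (nat_lit 62) (nat_lit 248) (.leaf p043_l120))))
(.spl (nat_lit 3) (nat_lit 100)
(.leaf p043_l121)
(.leaf p043_l122))))))
(.leaf p043_l123))
(.trX (nat_lit 23) (nat_lit 87) (nat_lit 95) (nat_lit 100) (nat_lit 300) (.spl (nat_lit 0) (nat_lit 260)
(.leaf p043_l124)
(.trZ (nat_lit 0) (nat_lit 100) (nat_lit 95) (nat_lit 30) (nat_lit 8) (.trX (nat_lit 16) (nat_lit 100) (nat_lit 69) (nat_lit 96) (nat_lit 352) (.leaf p043_l125)))))))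
(.spl (nat_lit 0) (nat_lit 260)
(.leaf p043_l126)
(.trX (nat_lit 16) (nat_lit 100) (nat_lit 69) (nat_lit 96) (nat_lit 352) (.leaf p043_l127))))))
(.spl (nat_lit 0) (nat_lit 260)
(.leaf p043_l128)
(.trX (nat_lit 16) (nat_lit 100) (nat_lit 69) (nat_lit 96) (nat_lit 352) (.leaf p043_l129))))) (by decide +kernel)
noncomputable def p043_l130 : Lf2 := ⟨nat_lit 1, nat_lit 2, [nat_lit 10, nat_lit 5, nat_lit 5, nat_lit 20], false, nat_lit 0, nat_lit 80, nat_lit 0, nat_lit 384, zbN0,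
 nat_lit 0, nat_lit 0, nat_lit 0, nat_lit 0, nat_lit 0, nat_lit 0, nat_lit 0, nat_lit 0, nat_lit 0, nat_lit 0, nat_lit 0, nat_lit 0, nat_lit 0, nat_lit 0, nat_lit 0, nat_lit 0, nat_lit 0, nat_lit 0, [],
 C1.Rw.none, C1.Rw.none,
 zbF0, []⟩
noncomputable def p043_l131 : Lf2 := ⟨nat_lit 0, nat_lit 2, [nat_lit 10, nat_lit 5, nat_lit 5, nat_lit 20], true, nat_lit 0, nat_lit 80, nat_lit 0, nat_lit 384, ⟨nat_lit 0, nat_lit 0, nat_lit 1000, nat_lit 5, nat_lit 150, nat_lit 0, nat_lit 33, nat_lit 642, nat_lit 9600, nat_lit 239, nat_lit 2161, nat_lit 205, nat_lit 58718857, nat_lit 0, nat_lit 0, nat_lit 1870174, false, false⟩,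
 nat_lit 0, nat_lit 6052, nat_lit 0, nat_lit 4565, nat_lit 3522, nat_lit 0, nat_lit 0, nat_lit 0, nat_lit 0, nat_lit 0, nat_lit 0, nat_lit 0, nat_lit 0, nat_lit 0, nat_lit 37, nat_lit 1000000, nat_lit 0, nat_lit 0, [(nat_lit 9, [(nat_lit 6, nat_lit 1000)])],
 ⟨p043_k12, nat_lit 0, nat_lit 0, nat_lit 261, nat_lit 0, nat_lit 69898, [nat_lit 1689600001, nat_lit 0], [], [nat_lit 13811350237, nat_lit 15671794631, nat_lit 17335322686, nat_lit 18372923642, nat_lit 12460411403, nat_lit 13808755475, nat_lit 16280537510, nat_lit 17261185250], nat_lit 1271250, nat_lit 1271250, nat_lit 43600, nat_lit 1699500, nat_lit 0, nat_lit 490000, [nat_lit 1100000, nat_lit 1442500], [nat_lit 31, nat_lit 40, nat_lit 40, nat_lit 80, nat_lit 3, nat_lit 317, nat_lit 100, nat_lit 13]⟩, C1.Rw.none,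
 ⟨nat_lit 5477, nat_lit 5917, ⟨.ofNat (nat_lit 123037), .ofNat (nat_lit 578514), .ofNat (nat_lit 165716), .ofNat (nat_lit 621176), .ofNat (nat_lit 140320), .ofNat (nat_lit 574913), .ofNat (nat_lit 183034), .ofNat (nat_lit 617611)⟩, ⟨.negSucc (nat_lit 20704), .ofNat (nat_lit 136362), .ofNat (nat_lit 0), .ofNat (nat_lit 179041), .negSucc (nat_lit 2808), .ofNat (nat_lit 147057), .ofNat (nat_lit 0), .ofNat (nat_lit 189771)⟩⟩, []⟩
noncomputable def p043_l132 : Lf2 := ⟨nat_lit 1, nat_lit 2, [nat_lit 10, nat_lit 5, nat_lit 5, nat_lit 20], false, nat_lit 80, nat_lit 160, nat_lit 0, nat_lit 384, zbN0,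
 nat_lit 0, nat_lit 0, nat_lit 0, nat_lit 0, nat_lit 0, nat_lit 0, nat_lit 0, nat_lit 0, nat_lit 0, nat_lit 0, nat_lit 0, nat_lit 0, nat_lit 0, nat_lit 0, nat_lit 0, nat_lit 0, nat_lit 0, nat_lit 0, [],
 C1.Rw.none, C1.Rw.none,
 zbF0, []⟩
noncomputable def p043_l133 : Lf2 := ⟨nat_lit 0, nat_lit 2, [nat_lit 10, nat_lit 5, nat_lit 5, nat_lit 20], true, nat_lit 80, nat_lit 160, nat_lit 0, nat_lit 384, ⟨nat_lit 0, nat_lit 0, nat_lit 1000, nat_lit 5, nat_lit 150, nat_lit 1000, nat_lit 96, nat_lit 1000, nat_lit 86400, nat_lit 287, nat_lit 2161, nat_lit 205, nat_lit 54190189, nat_lit 0, nat_lit 0, nat_lit 3236541, false, false⟩,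
 nat_lit 0, nat_lit 7427, nat_lit 0, nat_lit 4243, nat_lit 4322, nat_lit 0, nat_lit 1392, nat_lit 0, nat_lit 0, nat_lit 0, nat_lit 0, nat_lit 0, nat_lit 0, nat_lit 0, nat_lit 37, nat_lit 1000000, nat_lit 0, nat_lit 0, [(nat_lit 9, [(nat_lit 6, nat_lit 1000)])],
 ⟨p043_k12, nat_lit 0, nat_lit 0, nat_lit 221, nat_lit 0, nat_lit 69898, [nat_lit 1689600001, nat_lit 0], [], [nat_lit 11255960523, nat_lit 13090117373, nat_lit 14683828710, nat_lit 15749812450, nat_lit 12719936540, nat_lit 14048763075, nat_lit 17233895657, nat_lit 16595699490], nat_lit 1271250, nat_lit 1271250, nat_lit 43600, nat_lit 1699500, nat_lit 490000, nat_lit 1100001, [nat_lit 1100000, nat_lit 1442500], [nat_lit 31, nat_lit 40, nat_lit 40, nat_lit 80, nat_lit 3, nat_lit 317, nat_lit 100, nat_lit 12]⟩, C1.Rw.none,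
 ⟨nat_lit 5477, nat_lit 5917, ⟨.ofNat (nat_lit 123037), .ofNat (nat_lit 578514), .ofNat (nat_lit 165716), .ofNat (nat_lit 621176), .ofNat (nat_lit 140320), .ofNat (nat_lit 574913), .ofNat (nat_lit 183034), .ofNat (nat_lit 617611)⟩, ⟨.ofNat (nat_lit 136362), .ofNat (nat_lit 293429), .ofNat (nat_lit 179041), .ofNat (nat_lit 336108), .ofNat (nat_lit 147057), .ofNat (nat_lit 296923), .ofNat (nat_lit 189771), .ofNat (nat_lit 339637)⟩⟩, []⟩
noncomputable def p043_l134 : Lf2 := ⟨nat_lit 0, nat_lit 2, [nat_lit 10, nat_lit 5, nat_lit 5, nat_lit 20], true, nat_lit 160, nat_lit 240, nat_lit 0, nat_lit 384, ⟨nat_lit 0, nat_lit 0, nat_lit 1000, nat_lit 5, nat_lit 100, nat_lit 1000, nat_lit 157, nat_lit 1000, nat_lit 40279, nat_lit 264, nat_lit 93750, nat_lit 290, nat_lit 53267202, nat_lit 0, nat_lit 0, nat_lit 3387606, false, false⟩,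
 nat_lit 0, nat_lit 8447, nat_lit 0, nat_lit 19888, nat_lit 4471, nat_lit 0, nat_lit 0, nat_lit 0, nat_lit 0, nat_lit 0, nat_lit 0, nat_lit 0, nat_lit 0, nat_lit 0, nat_lit 80, nat_lit 1000000, nat_lit 0, nat_lit 0, [(nat_lit 6, [(nat_lit 6, nat_lit 1000)]), (nat_lit 9, [(nat_lit 6, nat_lit 1000)])],
 ⟨p043_k2, nat_lit 0, nat_lit 0, nat_lit 194, nat_lit 0, nat_lit 80107, [nat_lit 2377600001, nat_lit 1408000000, nat_lit 211200000], [], [nat_lit 22525045758, nat_lit 17875152106, nat_lit 13903137529, nat_lit 13453284610, nat_lit 16366602205, nat_lit 18383021610, nat_lit 20045475109, nat_lit 15714345873], nat_lit 1271250, nat_lit 1271250, nat_lit 21650, nat_lit 780000, nat_lit 1100001, nat_lit 1785000, [nat_lit 1100000, nat_lit 1442500, nat_lit 1271250], [nat_lit 9, nat_lit 40, nat_lit 40, nat_lit 80, nat_lit 2, nat_lit 317, nat_lit 100, nat_lit 10]⟩, C1.Rw.none,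
 ⟨nat_lit 5477, nat_lit 6325, ⟨.ofNat (nat_lit 96904), .ofNat (nat_lit 335470), .ofNat (nat_lit 139640), .ofNat (nat_lit 378206), .ofNat (nat_lit 132827), .ofNat (nat_lit 350132), .ofNat (nat_lit 175541), .ofNat (nat_lit 392847)⟩, ⟨.ofNat (nat_lit 289527), .ofNat (nat_lit 454055), .ofNat (nat_lit 332263), .ofNat (nat_lit 496791), .ofNat (nat_lit 296923), .ofNat (nat_lit 446789), .ofNat (nat_lit 339637), .ofNat (nat_lit 489503)⟩⟩, [⟨nat_lit 0, nat_lit 100, nat_lit 94, nat_lit 59, nat_lit 223517590⟩]⟩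
noncomputable def p043_l135 : Lf2 := ⟨nat_lit 1, nat_lit 2, [nat_lit 10, nat_lit 5, nat_lit 5, nat_lit 20], false, nat_lit 160, nat_lit 240, nat_lit 0, nat_lit 384, zbN0,
 nat_lit 0, nat_lit 0, nat_lit 0, nat_lit 0, nat_lit 0, nat_lit 0, nat_lit 0, nat_lit 0, nat_lit 0, nat_lit 0, nat_lit 0, nat_lit 0, nat_lit 0, nat_lit 0, nat_lit 0, nat_lit 0, nat_lit 0, nat_lit 0, [],
 C1.Rw.none, C1.Rw.none,
 zbF0, []⟩
noncomputable def p043_l136 : Lf2 := ⟨nat_lit 0, nat_lit 2, [nat_lit 10, nat_lit 5, nat_lit 5, nat_lit 20], true, nat_lit 160, nat_lit 240, nat_lit 0, nat_lit 384, ⟨nat_lit 0, nat_lit 1000, nat_lit 0, nat_lit 5, nat_lit 193, nat_lit 1000, nat_lit 157, nat_lit 0, nat_lit 0, nat_lit 0, nat_lit 0, nat_lit 0, nat_lit 46052228, nat_lit 12151200, nat_lit 8796572, nat_lit 4476637, false, false⟩,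
 nat_lit 0, nat_lit 9160, nat_lit 0, nat_lit 0, nat_lit 5331, nat_lit 0, nat_lit 0, nat_lit 0, nat_lit 0, nat_lit 0, nat_lit 0, nat_lit 0, nat_lit 0, nat_lit 0, nat_lit 0, nat_lit 1000000, nat_lit 0, nat_lit 0, [(nat_lit 9, [(nat_lit 2, nat_lit 1000)])],
 ⟨p043_k12, nat_lit 0, nat_lit 0, nat_lit 125, nat_lit 0, nat_lit 69898, [nat_lit 2663466667, nat_lit 2329200000], [], [nat_lit 10884489047, nat_lit 12474956095, nat_lit 15424070549, nat_lit 16671511887, nat_lit 14680903421, nat_lit 16013125691, nat_lit 18313218463, nat_lit 19362529379], nat_lit 1271250, nat_lit 1271250, nat_lit 780000, nat_lit 1762500, nat_lit 1100001, nat_lit 1785000, [nat_lit 1100000, nat_lit 1442500], [nat_lit 31, nat_lit 40, nat_lit 40, nat_lit 80, nat_lit 3, nat_lit 345, nat_lit 125, nat_lit 13]⟩, C1.Rw.none,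
 ⟨nat_lit 5477, nat_lit 5917, ⟨.ofNat (nat_lit 342931), .ofNat (nat_lit 578514), .ofNat (nat_lit 385610), .ofNat (nat_lit 621176), .ofNat (nat_lit 350132), .ofNat (nat_lit 574913), .ofNat (nat_lit 392847), .ofNat (nat_lit 617611)⟩, ⟨.ofNat (nat_lit 293429), .ofNat (nat_lit 450496), .ofNat (nat_lit 336108), .ofNat (nat_lit 493175), .ofNat (nat_lit 296923), .ofNat (nat_lit 446789), .ofNat (nat_lit 339637), .ofNat (nat_lit 489503)⟩⟩, []⟩
noncomputable def p043_l137 : Lf2 := ⟨nat_lit 1, nat_lit 2, [nat_lit 10, nat_lit 5, nat_lit 5, nat_lit 20], false, nat_lit 240, nat_lit 320, nat_lit 0, nat_lit 364, zbN0,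
 nat_lit 0, nat_lit 0, nat_lit 0, nat_lit 0, nat_lit 0, nat_lit 0, nat_lit 0, nat_lit 0, nat_lit 0, nat_lit 0, nat_lit 0, nat_lit 0, nat_lit 0, nat_lit 0, nat_lit 0, nat_lit 0, nat_lit 0, nat_lit 0, [],
 C1.Rw.none, C1.Rw.none,
 zbF0, []⟩
noncomputable def p043_l138 : Lf2 := ⟨nat_lit 1, nat_lit 2, [nat_lit 10, nat_lit 5, nat_lit 5, nat_lit 20], false, nat_lit 240, nat_lit 320, nat_lit 0, nat_lit 288, zbN0,
 nat_lit 0, nat_lit 0, nat_lit 0, nat_lit 0, nat_lit 0, nat_lit 0, nat_lit 0, nat_lit 0, nat_lit 0, nat_lit 0, nat_lit 0, nat_lit 0, nat_lit 0, nat_lit 0, nat_lit 0, nat_lit 0, nat_lit 0, nat_lit 0, [],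
 C1.Rw.none, C1.Rw.none,
 zbF0, []⟩
noncomputable def p043_l139 : Lf2 := ⟨nat_lit 0, nat_lit 2, [nat_lit 10, nat_lit 5, nat_lit 5, nat_lit 20], true, nat_lit 240, nat_lit 280, nat_lit 0, nat_lit 288, ⟨nat_lit 0, nat_lit 0, nat_lit 1000, nat_lit 5, nat_lit 77, nat_lit 1000, nat_lit 199, nat_lit 1000, nat_lit 8092, nat_lit 234, nat_lit 54150, nat_lit 272, nat_lit 50823309, nat_lit 0, nat_lit 0, nat_lit 3521709, false, false⟩,
 nat_lit 0, nat_lit 6486, nat_lit 0, nat_lit 113, nat_lit 3949, nat_lit 0, nat_lit 0, nat_lit 0, nat_lit 0, nat_lit 0, nat_lit 0, nat_lit 0, nat_lit 0, nat_lit 0, nat_lit 37, nat_lit 1000000, nat_lit 0, nat_lit 0, [(nat_lit 9, [(nat_lit 6, nat_lit 1000)])],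
 ⟨p043_k17, nat_lit 0, nat_lit 0, nat_lit 131, nat_lit 0, nat_lit 36786, [nat_lit 1689600001, nat_lit 0], [], [nat_lit 16968802853, nat_lit 17509124653, nat_lit 16155824071, nat_lit 16688575950, nat_lit 19623618482, nat_lit 20280999256, nat_lit 18247810853, nat_lit 18875214036], nat_lit 1271250, nat_lit 1271250, nat_lit 65850, nat_lit 230001, nat_lit 1271250, nat_lit 1271250, [nat_lit 1100000, nat_lit 1442500], [nat_lit 31, nat_lit 40, nat_lit 40, nat_lit 80, nat_lit 3, nat_lit 215, nat_lit 10, nat_lit 7]⟩, C1.Rw.none,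
 ⟨nat_lit 5477, nat_lit 5701, ⟨.ofNat (nat_lit 139419), .ofNat (nat_lit 193122), .ofNat (nat_lit 182103), .ofNat (nat_lit 235806), .ofNat (nat_lit 147813), .ofNat (nat_lit 200266), .ofNat (nat_lit 190527), .ofNat (nat_lit 242980)⟩, ⟨.ofNat (nat_lit 448666), .ofNat (nat_lit 525385), .ofNat (nat_lit 470008), .ofNat (nat_lit 546727), .ofNat (nat_lit 446789), .ofNat (nat_lit 521722), .ofNat (nat_lit 468146), .ofNat (nat_lit 543079)⟩⟩, [⟨nat_lit 0, nat_lit 100, nat_lit 94, nat_lit 59, nat_lit 366427357⟩]⟩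
noncomputable def p043_l140 : Lf2 := ⟨nat_lit 1, nat_lit 2, [nat_lit 10, nat_lit 5, nat_lit 5, nat_lit 20], false, nat_lit 280, nat_lit 320, nat_lit 0, nat_lit 248, zbN0,
 nat_lit 0, nat_lit 0, nat_lit 0, nat_lit 0, nat_lit 0, nat_lit 0, nat_lit 0, nat_lit 0, nat_lit 0, nat_lit 0, nat_lit 0, nat_lit 0, nat_lit 0, nat_lit 0, nat_lit 0, nat_lit 0, nat_lit 0, nat_lit 0, [],
 C1.Rw.none, C1.Rw.none,
 zbF0, []⟩
noncomputable def p043_l141 : Lf2 := ⟨nat_lit 0, nat_lit 2, [nat_lit 10, nat_lit 5, nat_lit 5, nat_lit 20], true, nat_lit 280, nat_lit 320, nat_lit 0, nat_lit 248, ⟨nat_lit 0, nat_lit 1000, nat_lit 0, nat_lit 5, nat_lit 82, nat_lit 1000, nat_lit 229, nat_lit 0, nat_lit 0, nat_lit 0, nat_lit 0, nat_lit 0, nat_lit 47547850, nat_lit 3266485, nat_lit 16185665, nat_lit 3865087, false, false⟩,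
 nat_lit 0, nat_lit 8742, nat_lit 0, nat_lit 6748, nat_lit 5324, nat_lit 0, nat_lit 512, nat_lit 0, nat_lit 0, nat_lit 0, nat_lit 0, nat_lit 0, nat_lit 0, nat_lit 0, nat_lit 0, nat_lit 1000000, nat_lit 0, nat_lit 0, [(nat_lit 9, [(nat_lit 2, nat_lit 1000)])],
 ⟨p043_k17, nat_lit 0, nat_lit 0, nat_lit 109, nat_lit 0, nat_lit 7963, [nat_lit 2663466667, nat_lit 2329200000], [], [nat_lit 20577601124, nat_lit 21337484336, nat_lit 19392707559, nat_lit 19898417763, nat_lit 23940629016, nat_lit 24599473024, nat_lit 22486932060, nat_lit 23144644592], nat_lit 1271250, nat_lit 1271250, nat_lit 111251, nat_lit 230001, nat_lit 1271250, nat_lit 1271250, [nat_lit 1100000, nat_lit 1442500], [nat_lit 31, nat_lit 40, nat_lit 40, nat_lit 80, nat_lit 3, nat_lit 215, nat_lit 10, nat_lit 7]⟩, C1.Rw.none,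
 ⟨nat_lit 5477, nat_lit 5701, ⟨.ofNat (nat_lit 176105), .ofNat (nat_lit 214464), .ofNat (nat_lit 186776), .ofNat (nat_lit 225135), .ofNat (nat_lit 184157), .ofNat (nat_lit 221623), .ofNat (nat_lit 194835), .ofNat (nat_lit 232302)⟩, ⟨.ofNat (nat_lit 525385), .ofNat (nat_lit 602103), .ofNat (nat_lit 546727), .ofNat (nat_lit 623444), .ofNat (nat_lit 521722), .ofNat (nat_lit 596655), .ofNat (nat_lit 543079), .ofNat (nat_lit 618011)⟩⟩, [⟨nat_lit 0, nat_lit 100, nat_lit 93, nat_lit 54, nat_lit 474431464⟩, ⟨nat_lit 16, nat_lit 100, nat_lit 89, nat_lit 90, nat_lit 370319406⟩]⟩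
noncomputable def p043_l142 : Lf2 := ⟨nat_lit 0, nat_lit 2, [nat_lit 10, nat_lit 5, nat_lit 5, nat_lit 20], false, nat_lit 280, nat_lit 320, nat_lit 0, nat_lit 248, ⟨nat_lit 1000, nat_lit 0, nat_lit 0, nat_lit 0, nat_lit 0, nat_lit 0, nat_lit 0, nat_lit 0, nat_lit 0, nat_lit 0, nat_lit 0, nat_lit 0, nat_lit 0, nat_lit 0, nat_lit 0, nat_lit 0, false, false⟩,
 nat_lit 32807, nat_lit 0, nat_lit 0, nat_lit 8565, nat_lit 6723, nat_lit 16523, nat_lit 7364, nat_lit 0, nat_lit 0, nat_lit 0, nat_lit 0, nat_lit 0, nat_lit 0, nat_lit 0, nat_lit 0, nat_lit 0, nat_lit 0, nat_lit 0, [],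
 ⟨p043_k17, nat_lit 0, nat_lit 0, nat_lit 114, nat_lit 0, nat_lit 36786, [nat_lit 4688000000, nat_lit 6250000000], [], [nat_lit 22312327087, nat_lit 22929640396, nat_lit 21336751414, nat_lit 21949280310, nat_lit 25433041315, nat_lit 26175672056, nat_lit 24044686864, nat_lit 24656275284], nat_lit 1271250, nat_lit 1271250, nat_lit 134400, nat_lit 230001, nat_lit 1271250, nat_lit 1271250, [nat_lit 1100000, nat_lit 1442500], [nat_lit 31, nat_lit 40, nat_lit 40, nat_lit 80, nat_lit 3, nat_lit 215, nat_lit 10, nat_lit 7]⟩, ⟨p043_k3, nat_lit 0, nat_lit 0, nat_lit 266, nat_lit 0, nat_lit 46500, [nat_lit 6250000000, nat_lit 7968000000], [], [nat_lit 25624956211, nat_lit 27639535399, nat_lit 20237968262, nat_lit 22242290288, nat_lit 17896011466, nat_lit 19309224717, nat_lit 15647117412, nat_lit 15355352103], nat_lit 1271250, nat_lit 1271250, nat_lit 134400, nat_lit 230001, nat_lit 0, nat_lit 1751500, [nat_lit 1412500,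 nat_lit 1271250], [nat_lit 26, nat_lit 40, nat_lit 40, nat_lit 80, nat_lit 2, nat_lit 373, nat_lit 150, nat_lit 13]⟩,
 zbF0, [⟨nat_lit 0, nat_lit 100, nat_lit 94, nat_lit 54, nat_lit 2302897458⟩, ⟨nat_lit 4, nat_lit 89, nat_lit 100, nat_lit 90, nat_lit 658059275⟩]⟩
noncomputable def p043_l143 : Lf2 := ⟨nat_lit 1, nat_lit 2, [nat_lit 10, nat_lit 5, nat_lit 5, nat_lit 20], false, nat_lit 240, nat_lit 320, nat_lit 0, nat_lit 288, zbN0,
 nat_lit 0, nat_lit 0, nat_lit 0, nat_lit 0, nat_lit 0, nat_lit 0, nat_lit 0, nat_lit 0, nat_lit 0, nat_lit 0, nat_lit 0, nat_lit 0, nat_lit 0, nat_lit 0, nat_lit 0, nat_lit 0, nat_lit 0, nat_lit 0, [],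
 C1.Rw.none, C1.Rw.none,
 zbF0, []⟩
noncomputable def p043_l144 : Lf2 := ⟨nat_lit 0, nat_lit 2, [nat_lit 10, nat_lit 5, nat_lit 5, nat_lit 20], true, nat_lit 240, nat_lit 320, nat_lit 0, nat_lit 336, ⟨nat_lit 0, nat_lit 1000, nat_lit 0, nat_lit 5, nat_lit 101, nat_lit 1000, nat_lit 214, nat_lit 0, nat_lit 0, nat_lit 0, nat_lit 0, nat_lit 0, nat_lit 47870398, nat_lit 4525659, nat_lit 14603943, nat_lit 4003021, false, false⟩,
 nat_lit 0, nat_lit 7895, nat_lit 0, nat_lit 3731, nat_lit 4595, nat_lit 0, nat_lit 0, nat_lit 0, nat_lit 0, nat_lit 0, nat_lit 0, nat_lit 0, nat_lit 0, nat_lit 0, nat_lit 0, nat_lit 1000000, nat_lit 0, nat_lit 0, [(nat_lit 9, [(nat_lit 2, nat_lit 1000)])],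
 ⟨p043_k12, nat_lit 0, nat_lit 0, nat_lit 122, nat_lit 0, nat_lit 38872, [nat_lit 2663466667, nat_lit 2329200000], [], [nat_lit 15867159807, nat_lit 17217521287, nat_lit 15380693287, nat_lit 16682570767, nat_lit 21291995727, nat_lit 22357435787, nat_lit 20610751617, nat_lit 21641895427], nat_lit 1271250, nat_lit 1271250, nat_lit 230001, nat_lit 490000, nat_lit 1271250, nat_lit 1271250, [nat_lit 1100000, nat_lit 1442500], [nat_lit 31, nat_lit 40, nat_lit 40, nat_lit 80, nat_lit 3, nat_lit 226, nat_lit 20, nat_lit 8]⟩, C1.Rw.none,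
 ⟨nat_lit 5477, nat_lit 5917, ⟨.ofNat (nat_lit 185864), .ofNat (nat_lit 264398), .ofNat (nat_lit 228543), .ofNat (nat_lit 307076), .ofNat (nat_lit 200266), .ofNat (nat_lit 275199), .ofNat (nat_lit 242980), .ofNat (nat_lit 317913)⟩, ⟨.ofNat (nat_lit 450496), .ofNat (nat_lit 607556), .ofNat (nat_lit 471836), .ofNat (nat_lit 628888), .ofNat (nat_lit 446789), .ofNat (nat_lit 596648), .ofNat (nat_lit 468146), .ofNat (nat_lit 617997)⟩⟩, [⟨nat_lit 16, nat_lit 100, nat_lit 86, nat_lit 89, nat_lit 279690291⟩]⟩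
noncomputable def p043_l145 : Lf2 := ⟨nat_lit 1, nat_lit 2, [nat_lit 10, nat_lit 5, nat_lit 5, nat_lit 20], false, nat_lit 240, nat_lit 320, nat_lit 0, nat_lit 336, zbN0,
 nat_lit 0, nat_lit 0, nat_lit 0, nat_lit 0, nat_lit 0, nat_lit 0, nat_lit 0, nat_lit 0, nat_lit 0, nat_lit 0, nat_lit 0, nat_lit 0, nat_lit 0, nat_lit 0, nat_lit 0, nat_lit 0, nat_lit 0, nat_lit 0, [],
 C1.Rw.none, C1.Rw.none,
 zbF0, []⟩
noncomputable def p043_l146 : Lf2 := ⟨nat_lit 0, nat_lit 2, [nat_lit 10, nat_lit 5, nat_lit 5, nat_lit 20], true, nat_lit 240, nat_lit 320, nat_lit 0, nat_lit 364, ⟨nat_lit 0, nat_lit 1000, nat_lit 0, nat_lit 5, nat_lit 132, nat_lit 1000, nat_lit 219, nat_lit 0, nat_lit 0, nat_lit 0, nat_lit 0, nat_lit 0, nat_lit 45598083, nat_lit 6655957, nat_lit 14745960, nat_lit 4408626, false, false⟩,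
 nat_lit 0, nat_lit 8311, nat_lit 0, nat_lit 4078, nat_lit 4837, nat_lit 0, nat_lit 0, nat_lit 0, nat_lit 0, nat_lit 0, nat_lit 0, nat_lit 0, nat_lit 0, nat_lit 0, nat_lit 0, nat_lit 1000000, nat_lit 0, nat_lit 0, [(nat_lit 9, [(nat_lit 2, nat_lit 1000)])],
 ⟨p043_k12, nat_lit 0, nat_lit 0, nat_lit 105, nat_lit 0, nat_lit 69898, [nat_lit 2663466667, nat_lit 2329200000], [], [nat_lit 15108732719, nat_lit 16444050727, nat_lit 15308019625, nat_lit 16576925915, nat_lit 20474895237, nat_lit 21528447763, nat_lit 20411454177, nat_lit 21415906567], nat_lit 1271250, nat_lit 1271250, nat_lit 490000, nat_lit 780000, nat_lit 1271250, nat_lit 1271250, [nat_lit 1100000, nat_lit 1442500], [nat_lit 31, nat_lit 40, nat_lit 40, nat_lit 80, nat_lit 3, nat_lit 238, nat_lit 30, nat_lit 8]⟩, C1.Rw.none,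
 ⟨nat_lit 5477, nat_lit 5917, ⟨.ofNat (nat_lit 264398), .ofNat (nat_lit 342931), .ofNat (nat_lit 307076), .ofNat (nat_lit 385610), .ofNat (nat_lit 275199), .ofNat (nat_lit 350132), .ofNat (nat_lit 317913), .ofNat (nat_lit 392847)⟩, ⟨.ofNat (nat_lit 450496), .ofNat (nat_lit 607556), .ofNat (nat_lit 493175), .ofNat (nat_lit 650219), .ofNat (nat_lit 446789), .ofNat (nat_lit 596648), .ofNat (nat_lit 489503), .ofNat (nat_lit 639346)⟩⟩, [⟨nat_lit 4, nat_lit 82, nat_lit 100, nat_lit 92, nat_lit 263151616⟩]⟩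
noncomputable def p043_l147 : Lf2 := ⟨nat_lit 0, nat_lit 2, [nat_lit 10, nat_lit 5, nat_lit 5, nat_lit 20], false, nat_lit 320, nat_lit 364, nat_lit 0, nat_lit 300, ⟨nat_lit 0, nat_lit 1000, nat_lit 0, nat_lit 5, nat_lit 100, nat_lit 1000, nat_lit 269, nat_lit 0, nat_lit 0, nat_lit 0, nat_lit 0, nat_lit 0, nat_lit 42805646, nat_lit 4220811, nat_lit 19973543, nat_lit 4345952, false, false⟩,
 nat_lit 0, nat_lit 100000, nat_lit 0, nat_lit 100000, nat_lit 5020, nat_lit 0, nat_lit 621, nat_lit 0, nat_lit 0, nat_lit 0, nat_lit 0, nat_lit 0, nat_lit 0, nat_lit 0, nat_lit 0, nat_lit 1000000, nat_lit 0, nat_lit 0, [(nat_lit 6, [(nat_lit 2, nat_lit 1000)]), (nat_lit 9, [(nat_lit 2, nat_lit 1000)])],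
 ⟨p043_k2, nat_lit 0, nat_lit 0, nat_lit 187, nat_lit 0, nat_lit 46496, [nat_lit 2819200001, nat_lit 2800800000, nat_lit 2471200000], [], [nat_lit 23488842049, nat_lit 25263510586, nat_lit 21266132961, nat_lit 22870118881, nat_lit 27317933271, nat_lit 29446961067, nat_lit 24059157922, nat_lit 25437482977], nat_lit 1271250, nat_lit 1271250, nat_lit 21650, nat_lit 780000, nat_lit 1271250, nat_lit 1271250, [nat_lit 1100000, nat_lit 1442500, nat_lit 1271250], [nat_lit 9, nat_lit 40, nat_lit 40, nat_lit 80, nat_lit 2, nat_lit 238, nat_lit 30, nat_lit 7]⟩, ⟨p043_k27, nat_lit 0, nat_lit 0, nat_lit 319, nat_lit 0, nat_lit 61105, [nat_lit 0, nat_lit 0, nat_lit 0], [], [nat_lit 0, nat_lit 0, nat_lit 0, nat_lit 0, nat_lit 0, nat_lit 0, nat_lit 0, nat_lit 0], nat_lit 1271250, nat_lit 1271250, nat_lit 21650, nat_lit 780000, nat_lit 0, nat_lit 2118750, [nat_lit 1412500, nat_lit 1271250, nat_lit 1271250], [nat_lit 25, nat_lit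 40, nat_lit 40, nat_lit 80, nat_lit 17, nat_lit 401, nat_lit 175, nat_lit 12]⟩,
 ⟨nat_lit 5477, nat_lit 6325, ⟨.ofNat (nat_lit 96904), .ofNat (nat_lit 335470), .ofNat (nat_lit 139640), .ofNat (nat_lit 378206), .ofNat (nat_lit 132827), .ofNat (nat_lit 350132), .ofNat (nat_lit 175541), .ofNat (nat_lit 392847)⟩, ⟨.ofNat (nat_lit 618504), .ofNat (nat_lit 708908), .ofNat (nat_lit 661186), .ofNat (nat_lit 751581), .ofNat (nat_lit 596575), .ofNat (nat_lit 678915), .ofNat (nat_lit 639236), .ofNat (nat_lit 721567)⟩⟩, [⟨nat_lit 0, nat_lit 100, nat_lit 94, nat_lit 59, nat_lit 188328086⟩, ⟨nat_lit 16, nat_lit 100, nat_lit 77, nat_lit 91, nat_lit 6077917254⟩]⟩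
noncomputable def p043_l148 : Lf2 := ⟨nat_lit 0, nat_lit 2, [nat_lit 10, nat_lit 5, nat_lit 5, nat_lit 20], false, nat_lit 240, nat_lit 364, nat_lit 0, nat_lit 384, ⟨nat_lit 0, nat_lit 1000, nat_lit 0, nat_lit 5, nat_lit 193, nat_lit 1000, nat_lit 237, nat_lit 0, nat_lit 0, nat_lit 0, nat_lit 0, nat_lit 0, nat_lit 40186239, nat_lit 11196358, nat_lit 15617403, nat_lit 5096329, false, false⟩,
 nat_lit 0, nat_lit 8536, nat_lit 0, nat_lit 2882, nat_lit 4519, nat_lit 0, nat_lit 0, nat_lit 0, nat_lit 0, nat_lit 0, nat_lit 0, nat_lit 0, nat_lit 0, nat_lit 0, nat_lit 0, nat_lit 400000, nat_lit 0, nat_lit 0, [(nat_lit 6, [(nat_lit 1, nat_lit 1000)]), (nat_lit 9, [(nat_lit 1, nat_lit 1000)])],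
 ⟨p043_k2, nat_lit 0, nat_lit 0, nat_lit 93, nat_lit 0, nat_lit 46496, [nat_lit 2702720000, nat_lit 3030400001, nat_lit 3280799999], [], [nat_lit 14522814916, nat_lit 16979111376, nat_lit 18330763120, nat_lit 20288038488, nat_lit 23046696004, nat_lit 24721029402, nat_lit 25227492912, nat_lit 26727048305], nat_lit 1271250, nat_lit 1271250, nat_lit 780000, nat_lit 1762500, nat_lit 1271250, nat_lit 1271250, [nat_lit 1100000, nat_lit 1442500, nat_lit 1271250], [nat_lit 9, nat_lit 40, nat_lit 40, nat_lit 80, nat_lit 2, nat_lit 272, nat_lit 60, nat_lit 8]⟩, ⟨p043_k27, nat_lit 0, nat_lit 0, nat_lit 234, nat_lit 0, nat_lit 61105, [nat_lit 0, nat_lit 0, nat_lit 0], [], [nat_lit 0, nat_lit 0, nat_lit 0, nat_lit 0, nat_lit 0, nat_lit 0, nat_lit 0, nat_lit 0], nat_lit 1271250, nat_lit 1271250, nat_lit 780000, nat_lit 1762500, nat_lit 0, nat_lit 2712000, [nat_lit 1412500, nat_lit 1271250, nat_lit 1271250], [nat_lit 25,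 nat_lit 40, nat_lit 40, nat_lit 80, nat_lit 17, nat_lit 456, nat_lit 225, nat_lit 13]⟩,
 ⟨nat_lit 5477, nat_lit 6325, ⟨.ofNat (nat_lit 335470), .ofNat (nat_lit 582178), .ofNat (nat_lit 378206), .ofNat (nat_lit 624852), .ofNat (nat_lit 350132), .ofNat (nat_lit 574846), .ofNat (nat_lit 392847), .ofNat (nat_lit 617499)⟩, ⟨.ofNat (nat_lit 454055), .ofNat (nat_lit 708908), .ofNat (nat_lit 496791), .ofNat (nat_lit 751581), .ofNat (nat_lit 446789), .ofNat (nat_lit 678915), .ofNat (nat_lit 489503), .ofNat (nat_lit 721567)⟩⟩, [⟨nat_lit 16, nat_lit 100, nat_lit 77, nat_lit 91, nat_lit 220618785⟩]⟩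
noncomputable def p043_l149 : Lf2 := ⟨nat_lit 1, nat_lit 2, [nat_lit 10, nat_lit 5, nat_lit 5, nat_lit 20], false, nat_lit 0, nat_lit 364, nat_lit 0, nat_lit 384, zbN0,
 nat_lit 0, nat_lit 0, nat_lit 0, nat_lit 0, nat_lit 0, nat_lit 0, nat_lit 0, nat_lit 0, nat_lit 0, nat_lit 0, nat_lit 0, nat_lit 0, nat_lit 0, nat_lit 0, nat_lit 0, nat_lit 0, nat_lit 0, nat_lit 0, [],
 C1.Rw.none, C1.Rw.none,
 zbF0, []⟩
noncomputable def p043_l150 : Lf2 := ⟨nat_lit 0, nat_lit 2, [nat_lit 10, nat_lit 5, nat_lit 5, nat_lit 20], false, nat_lit 0, nat_lit 352, nat_lit 0, nat_lit 384, ⟨nat_lit 1000, nat_lit 0, nat_lit 0, nat_lit 0, nat_lit 0, nat_lit 0, nat_lit 0, nat_lit 0, nat_lit 0, nat_lit 0, nat_lit 0, nat_lit 0, nat_lit 0, nat_lit 0, nat_lit 0, nat_lit 0, false, false⟩,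
 nat_lit 19778, nat_lit 0, nat_lit 0, nat_lit 33723, nat_lit 6463, nat_lit 8476, nat_lit 2279, nat_lit 0, nat_lit 0, nat_lit 2576, nat_lit 0, nat_lit 0, nat_lit 0, nat_lit 0, nat_lit 0, nat_lit 0, nat_lit 0, nat_lit 0, [],
 ⟨p043_k12, nat_lit 0, nat_lit 0, nat_lit 175, nat_lit 0, nat_lit 41259, [nat_lit 4688000000, nat_lit 6250000000], [], [nat_lit 21601439515, nat_lit 22869348965, nat_lit 35963706452, nat_lit 36930101208, nat_lit 26564413099, nat_lit 27168403870, nat_lit 35146809757, nat_lit 35608867436], nat_lit 1271250, nat_lit 1271250, nat_lit 1271250, nat_lit 1271250, nat_lit 0, nat_lit 2486000, [nat_lit 1100000, nat_lit 1442500], [nat_lit 31, nat_lit 40, nat_lit 40, nat_lit 80, nat_lit 3, nat_lit 317, nat_lit 100, nat_lit 12]⟩, ⟨p043_k27, nat_lit 0, nat_lit 0, nat_lit 249, nat_lit 0, nat_lit 61105, [nat_lit 6250000000, nat_lit 7968000000, nat_lit 9842000000], [], [nat_lit 24300366464, nat_lit 25936307776,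 nat_lit 38649884512, nat_lit 40037444992, nat_lit 39956867124, nat_lit 32436308967, nat_lit 39060391876, nat_lit 39278664858], nat_lit 1271250, nat_lit 1271250, nat_lit 1271250, nat_lit 1271250, nat_lit 0, nat_lit 2712000, [nat_lit 1412500, nat_lit 1271250, nat_lit 1271250], [nat_lit 25, nat_lit 40, nat_lit 40, nat_lit 80, nat_lit 17, nat_lit 538, nat_lit 300, nat_lit 15]⟩,
 zbF0, [⟨nat_lit 4, nat_lit 82, nat_lit 100, nat_lit 92, nat_lit 189705706⟩, ⟨nat_lit 19, nat_lit 100, nat_lit 59, nat_lit 87, nat_lit 219786011⟩]⟩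
noncomputable def b_V_600_500_20_3 : St := ⟨true, nat_lit 1, nat_lit 1, nat_lit 1, nat_lit 120, nat_lit 240, nat_lit 280, nat_lit 200, nat_lit 240, nat_lit 4, nat_lit 400, nat_lit 80, nat_lit 120, nat_lit 0, nat_lit 364, nat_lit 0, nat_lit 384, nat_lit 0, nat_lit 8, nat_lit 0, nat_lit 0, nat_lit 0, nat_lit 0⟩
theorem d_V_600_500_20_3 (h : EB TB.env) : Dead b_V_600_500_20_3 := chkB_sound0 h (T :=
(.spl (nat_lit 2) (nat_lit 240)
(.spl (nat_lit 4) (nat_lit 160)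
(.spl (nat_lit 4) (nat_lit 80)
(.spl (nat_lit 0) (nat_lit 260)
(.leaf p043_l130)
(.trZ (nat_lit 0) (nat_lit 100) (nat_lit 95) (nat_lit 30) (nat_lit 8) (.leaf p043_l131)))
(.spl (nat_lit 0) (nat_lit 260)
(.leaf p043_l132)
(.trZ (nat_lit 0) (nat_lit 100) (nat_lit 95) (nat_lit 30) (nat_lit 8) (.leaf p043_l133))))
(.spl (nat_lit 4) (nat_lit 240)
(.spl (nat_lit 2) (nat_lit 120)
(.leaf p043_l134)
(.spl (nat_lit 0) (nat_lit 260)
(.leaf p043_l135)
(.leaf p043_l136)))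
(.spl (nat_lit 2) (nat_lit 120)
(.trX (nat_lit 23) (nat_lit 100) (nat_lit 59) (nat_lit 94) (nat_lit 364) (.spl (nat_lit 4) (nat_lit 320)
(.spl (nat_lit 0) (nat_lit 260)
(.leaf p043_l137)
(.trZ (nat_lit 0) (nat_lit 100) (nat_lit 95) (nat_lit 30) (nat_lit 8) (.spl (nat_lit 2) (nat_lit 80)
(.trX (nat_lit 23) (nat_lit 100) (nat_lit 76) (nat_lit 82) (nat_lit 336) (.spl (nat_lit 2) (nat_lit 40)
(.trX (nat_lit 23) (nat_lit 100) (nat_lit 92) (nat_lit 61) (nat_lit 288) (.spl (nat_lit 3) (nat_lit 100)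
(.spl (nat_lit 0) (nat_lit 270)
(.leaf p043_l138)
(.trZ (nat_lit 0) (nat_lit 100) (nat_lit 94) (nat_lit 35) (nat_lit 12) (.spl (nat_lit 4) (nat_lit 280)
(.leaf p043_l139)
(.trX (nat_lit 23) (nat_lit 94) (nat_lit 100) (nat_lit 62) (nat_lit 248) (.spl (nat_lit 1) (nat_lit 220)
(.leaf p043_l140)
(.trZ (nat_lit 0) (nat_lit 100) (nat_lit 94) (nat_lit 44) (nat_lit 20) (.spl (nat_lit 1) (nat_lit 230)
(.leaf p043_l141)
(.trZ (nat_lit 0) (nat_lit 100) (nat_lit 95) (nat_lit 49) (nat_lit 24) (.leaf p043_l142)))))))))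
(.leaf p043_l143)))
(.spl (nat_lit 3) (nat_lit 100)
(.leaf p043_l144)
(.leaf p043_l145))))
(.leaf p043_l146))))
(.trX (nat_lit 23) (nat_lit 87) (nat_lit 95) (nat_lit 100) (nat_lit 300) (.leaf p043_l147))))
(.leaf p043_l148))))
(.spl (nat_lit 0) (nat_lit 260)
(.leaf p043_l149)
(.trX (nat_lit 16) (nat_lit 100) (nat_lit 69) (nat_lit 96) (nat_lit 352) (.leaf p043_l150))))) (by decide +kernel)
noncomputable def p043_l151 : Lf2 := ⟨nat_lit 1, nat_lit 2, [nat_lit 10, nat_lit 5, nat_lit 5, nat_lit 20], false, nat_lit 0, nat_lit 364, nat_lit 0, nat_lit 384, zbN0,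
 nat_lit 0, nat_lit 0, nat_lit 0, nat_lit 0, nat_lit 0, nat_lit 0, nat_lit 0, nat_lit 0, nat_lit 0, nat_lit 0, nat_lit 0, nat_lit 0, nat_lit 0, nat_lit 0, nat_lit 0, nat_lit 0, nat_lit 0, nat_lit 0, [],
 C1.Rw.none, C1.Rw.none,
 zbF0, []⟩
noncomputable def p043_l152 : Lf2 := ⟨nat_lit 0, nat_lit 2, [nat_lit 10, nat_lit 5, nat_lit 5, nat_lit 20], true, nat_lit 0, nat_lit 352, nat_lit 0, nat_lit 384, ⟨nat_lit 0, nat_lit 1000, nat_lit 0, nat_lit 5, nat_lit 104, nat_lit 1000, nat_lit 137, nat_lit 0, nat_lit 0, nat_lit 0, nat_lit 0, nat_lit 0, nat_lit 0, nat_lit 0, nat_lit 0, nat_lit 5000000, false, false⟩,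
 nat_lit 0, nat_lit 8220, nat_lit 0, nat_lit 2077, nat_lit 4784, nat_lit 0, nat_lit 189, nat_lit 0, nat_lit 0, nat_lit 0, nat_lit 0, nat_lit 0, nat_lit 0, nat_lit 0, nat_lit 0, nat_lit 1000000, nat_lit 0, nat_lit 0, [(nat_lit 9, [(nat_lit 2, nat_lit 1000)])],
 ⟨p043_k12, nat_lit 0, nat_lit 0, nat_lit 261, nat_lit 0, nat_lit 69898, [nat_lit 2663466667, nat_lit 2329200000], [], [nat_lit 31746803061, nat_lit 29224936597, nat_lit 19732741672, nat_lit 20697346008, nat_lit 27007771367, nat_lit 27571858665, nat_lit 25377640499, nat_lit 25923321587], nat_lit 1271250, nat_lit 1271250, nat_lit 43600, nat_lit 780000, nat_lit 0, nat_lit 2486000, [nat_lit 1100000, nat_lit 1442500], [nat_lit 31, nat_lit 40, nat_lit 40, nat_lit 80, nat_lit 3, nat_lit 345, nat_lit 125, nat_lit 14]⟩, C1.Rw.none,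
 ⟨nat_lit 5477, nat_lit 5917, ⟨.ofNat (nat_lit 123037), .ofNat (nat_lit 342931), .ofNat (nat_lit 165716), .ofNat (nat_lit 385610), .ofNat (nat_lit 140320), .ofNat (nat_lit 350132), .ofNat (nat_lit 183034), .ofNat (nat_lit 392847)⟩, ⟨.negSucc (nat_lit 20704), .ofNat (nat_lit 670368), .ofNat (nat_lit 0), .ofNat (nat_lit 713031), .negSucc (nat_lit 2808), .ofNat (nat_lit 656580), .ofNat (nat_lit 0), .ofNat (nat_lit 699278)⟩⟩, [⟨nat_lit 0, nat_lit 100, nat_lit 94, nat_lit 59, nat_lit 64526950⟩]⟩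
noncomputable def p043_l153 : Lf2 := ⟨nat_lit 1, nat_lit 2, [nat_lit 10, nat_lit 5, nat_lit 5, nat_lit 20], false, nat_lit 0, nat_lit 364, nat_lit 0, nat_lit 384, zbN0,
 nat_lit 0, nat_lit 0, nat_lit 0, nat_lit 0, nat_lit 0, nat_lit 0, nat_lit 0, nat_lit 0, nat_lit 0, nat_lit 0, nat_lit 0, nat_lit 0, nat_lit 0, nat_lit 0, nat_lit 0, nat_lit 0, nat_lit 0, nat_lit 0, [],
 C1.Rw.none, C1.Rw.none,
 zbF0, []⟩
noncomputable def p043_l154 : Lf2 := ⟨nat_lit 0, nat_lit 2, [nat_lit 10, nat_lit 5, nat_lit 5, nat_lit 20], true, nat_lit 0, nat_lit 352, nat_lit 0, nat_lit 384, ⟨nat_lit 0, nat_lit 1000, nat_lit 0, nat_lit 5, nat_lit 193, nat_lit 1000, nat_lit 137, nat_lit 0, nat_lit 0, nat_lit 0, nat_lit 0, nat_lit 0, nat_lit 0, nat_lit 0, nat_lit 0, nat_lit 5000000, false, false⟩,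
 nat_lit 0, nat_lit 9369, nat_lit 0, nat_lit 17904, nat_lit 5453, nat_lit 0, nat_lit 4369, nat_lit 0, nat_lit 0, nat_lit 0, nat_lit 0, nat_lit 0, nat_lit 0, nat_lit 0, nat_lit 0, nat_lit 1000000, nat_lit 0, nat_lit 0, [(nat_lit 9, [(nat_lit 2, nat_lit 1000)])],
 ⟨p043_k12, nat_lit 0, nat_lit 0, nat_lit 205, nat_lit 0, nat_lit 69898, [nat_lit 2663466667, nat_lit 2329200000], [], [nat_lit 36564367768, nat_lit 33636444854, nat_lit 19392718084, nat_lit 20019310113, nat_lit 23403444131, nat_lit 24492133605, nat_lit 30948233833, nat_lit 28472227203], nat_lit 1271250, nat_lit 1271250, nat_lit 780000, nat_lit 1762500, nat_lit 0, nat_lit 2486000, [nat_lit 1100000, nat_lit 1442500], [nat_lit 31, nat_lit 40, nat_lit 40, nat_lit 80, nat_lit 3, nat_lit 373, nat_lit 150, nat_lit 15]⟩, C1.Rw.none,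
 ⟨nat_lit 5477, nat_lit 5917, ⟨.ofNat (nat_lit 342931), .ofNat (nat_lit 578514), .ofNat (nat_lit 385610), .ofNat (nat_lit 621176), .ofNat (nat_lit 350132), .ofNat (nat_lit 574913), .ofNat (nat_lit 392847), .ofNat (nat_lit 617611)⟩, ⟨.negSucc (nat_lit 20704), .ofNat (nat_lit 670368), .ofNat (nat_lit 0), .ofNat (nat_lit 713031), .negSucc (nat_lit 2808), .ofNat (nat_lit 656580), .ofNat (nat_lit 0), .ofNat (nat_lit 699278)⟩⟩, []⟩
noncomputable def p043_l155 : Lf2 := ⟨nat_lit 1, nat_lit 2, [nat_lit 10, nat_lit 5, nat_lit 5, nat_lit 20], false, nat_lit 0, nat_lit 364, nat_lit 0, nat_lit 384, zbN0,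
 nat_lit 0, nat_lit 0, nat_lit 0, nat_lit 0, nat_lit 0, nat_lit 0, nat_lit 0, nat_lit 0, nat_lit 0, nat_lit 0, nat_lit 0, nat_lit 0, nat_lit 0, nat_lit 0, nat_lit 0, nat_lit 0, nat_lit 0, nat_lit 0, [],
 C1.Rw.none, C1.Rw.none,
 zbF0, []⟩
noncomputable def p043_l156 : Lf2 := ⟨nat_lit 0, nat_lit 2, [nat_lit 10, nat_lit 5, nat_lit 5, nat_lit 20], false, nat_lit 0, nat_lit 352, nat_lit 0, nat_lit 384, ⟨nat_lit 1000, nat_lit 0, nat_lit 0, nat_lit 0, nat_lit 0, nat_lit 0, nat_lit 0, nat_lit 0, nat_lit 0, nat_lit 0, nat_lit 0, nat_lit 0, nat_lit 0, nat_lit 0, nat_lit 0, nat_lit 0, false, false⟩,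
 nat_lit 0, nat_lit 11570, nat_lit 0, nat_lit 11698, nat_lit 6734, nat_lit 7755, nat_lit 2146, nat_lit 0, nat_lit 0, nat_lit 2038, nat_lit 0, nat_lit 0, nat_lit 0, nat_lit 0, nat_lit 0, nat_lit 0, nat_lit 0, nat_lit 0, [],
 ⟨p043_k12, nat_lit 0, nat_lit 0, nat_lit 187, nat_lit 0, nat_lit 69898, [nat_lit 4688000000, nat_lit 6250000000], [], [nat_lit 23086994290, nat_lit 24158576150, nat_lit 36657521736, nat_lit 37639204144, nat_lit 26841873020, nat_lit 27343272450, nat_lit 35484755863, nat_lit 35946194794], nat_lit 1271250, nat_lit 1271250, nat_lit 1271250, nat_lit 1271250, nat_lit 0, nat_lit 2486000, [nat_lit 1100000, nat_lit 1442500], [nat_lit 31, nat_lit 40, nat_lit 40, nat_lit 80, nat_lit 3, nat_lit 317, nat_lit 100, nat_lit 12]⟩, ⟨p043_k27, nat_lit 0, nat_lit 0, nat_lit 228, nat_lit 0, nat_lit 0, [nat_lit 6250000000, nat_lit 7968000000, nat_lit 9842000000], [], [nat_lit 26041799070, nat_lit 27627357510,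 nat_lit 37989899190, nat_lit 38809340030, nat_lit 31086063721, nat_lit 31602373416, nat_lit 38003510276, nat_lit 38278279088], nat_lit 0, nat_lit 0, nat_lit 0, nat_lit 0, nat_lit 0, nat_lit 0, [], [nat_lit 25, nat_lit 40, nat_lit 40, nat_lit 80, nat_lit 17, nat_lit 538, nat_lit 300, nat_lit 15]⟩,
 zbF0, [⟨nat_lit 4, nat_lit 82, nat_lit 100, nat_lit 92, nat_lit 183956014⟩, ⟨nat_lit 7, nat_lit 59, nat_lit 100, nat_lit 87, nat_lit 223210766⟩]⟩
noncomputable def p043_l157 : Lf2 := ⟨nat_lit 1, nat_lit 2, [nat_lit 10, nat_lit 5, nat_lit 5, nat_lit 20], false, nat_lit 0, nat_lit 364, nat_lit 0, nat_lit 384, zbN0,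
 nat_lit 0, nat_lit 0, nat_lit 0, nat_lit 0, nat_lit 0, nat_lit 0, nat_lit 0, nat_lit 0, nat_lit 0, nat_lit 0, nat_lit 0, nat_lit 0, nat_lit 0, nat_lit 0, nat_lit 0, nat_lit 0, nat_lit 0, nat_lit 0, [],
 C1.Rw.none, C1.Rw.none,
 zbF0, []⟩
noncomputable def p043_l158 : Lf2 := ⟨nat_lit 0, nat_lit 2, [nat_lit 10, nat_lit 5, nat_lit 5, nat_lit 20], true, nat_lit 0, nat_lit 352, nat_lit 0, nat_lit 384, ⟨nat_lit 0, nat_lit 1000, nat_lit 0, nat_lit 5, nat_lit 104, nat_lit 1000, nat_lit 137, nat_lit 0, nat_lit 0, nat_lit 0, nat_lit 0, nat_lit 0, nat_lit 0, nat_lit 0, nat_lit 0, nat_lit 5000000, false, false⟩,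
 nat_lit 0, nat_lit 8220, nat_lit 0, nat_lit 2077, nat_lit 4784, nat_lit 0, nat_lit 189, nat_lit 0, nat_lit 0, nat_lit 0, nat_lit 0, nat_lit 0, nat_lit 0, nat_lit 0, nat_lit 0, nat_lit 1000000, nat_lit 0, nat_lit 0, [(nat_lit 9, [(nat_lit 2, nat_lit 1000)])],
 ⟨p043_k12, nat_lit 0, nat_lit 0, nat_lit 261, nat_lit 0, nat_lit 69898, [nat_lit 2663466667, nat_lit 2329200000], [], [nat_lit 31746803061, nat_lit 29224936597, nat_lit 19732741672, nat_lit 20697346008, nat_lit 27007771367, nat_lit 27571858665, nat_lit 25377640499, nat_lit 25923321587], nat_lit 1271250, nat_lit 1271250, nat_lit 43600, nat_lit 780000, nat_lit 0, nat_lit 2486000, [nat_lit 1100000, nat_lit 1442500], [nat_lit 31, nat_lit 40, nat_lit 40, nat_lit 80, nat_lit 3, nat_lit 345, nat_lit 125, nat_lit 14]⟩, C1.Rw.none,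
 ⟨nat_lit 5477, nat_lit 5917, ⟨.ofNat (nat_lit 123037), .ofNat (nat_lit 342931), .ofNat (nat_lit 165716), .ofNat (nat_lit 385610), .ofNat (nat_lit 140320), .ofNat (nat_lit 350132), .ofNat (nat_lit 183034), .ofNat (nat_lit 392847)⟩, ⟨.negSucc (nat_lit 20704), .ofNat (nat_lit 670368), .ofNat (nat_lit 0), .ofNat (nat_lit 713031), .negSucc (nat_lit 2808), .ofNat (nat_lit 656580), .ofNat (nat_lit 0), .ofNat (nat_lit 699278)⟩⟩, [⟨nat_lit 0, nat_lit 100, nat_lit 94, nat_lit 59, nat_lit 64526950⟩]⟩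
noncomputable def p043_l159 : Lf2 := ⟨nat_lit 1, nat_lit 2, [nat_lit 10, nat_lit 5, nat_lit 5, nat_lit 20], false, nat_lit 0, nat_lit 364, nat_lit 0, nat_lit 384, zbN0,
 nat_lit 0, nat_lit 0, nat_lit 0, nat_lit 0, nat_lit 0, nat_lit 0, nat_lit 0, nat_lit 0, nat_lit 0, nat_lit 0, nat_lit 0, nat_lit 0, nat_lit 0, nat_lit 0, nat_lit 0, nat_lit 0, nat_lit 0, nat_lit 0, [],
 C1.Rw.none, C1.Rw.none,
 zbF0, []⟩
noncomputable def p043_l160 : Lf2 := ⟨nat_lit 0, nat_lit 2, [nat_lit 10, nat_lit 5, nat_lit 5, nat_lit 20], true, nat_lit 0, nat_lit 352, nat_lit 0, nat_lit 384, ⟨nat_lit 0, nat_lit 1000, nat_lit 0, nat_lit 5, nat_lit 193, nat_lit 1000, nat_lit 137, nat_lit 0, nat_lit 0, nat_lit 0, nat_lit 0, nat_lit 0, nat_lit 0, nat_lit 0, nat_lit 0, nat_lit 5000000, false, false⟩,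
 nat_lit 0, nat_lit 9369, nat_lit 0, nat_lit 17904, nat_lit 5453, nat_lit 0, nat_lit 4369, nat_lit 0, nat_lit 0, nat_lit 0, nat_lit 0, nat_lit 0, nat_lit 0, nat_lit 0, nat_lit 0, nat_lit 1000000, nat_lit 0, nat_lit 0, [(nat_lit 9, [(nat_lit 2, nat_lit 1000)])],
 ⟨p043_k12, nat_lit 0, nat_lit 0, nat_lit 205, nat_lit 0, nat_lit 69898, [nat_lit 2663466667, nat_lit 2329200000], [], [nat_lit 36564367768, nat_lit 33636444854, nat_lit 19392718084, nat_lit 20019310113, nat_lit 23403444131, nat_lit 24492133605, nat_lit 30948233833, nat_lit 28472227203], nat_lit 1271250, nat_lit 1271250, nat_lit 780000, nat_lit 1762500, nat_lit 0, nat_lit 2486000, [nat_lit 1100000, nat_lit 1442500], [nat_lit 31, nat_lit 40, nat_lit 40, nat_lit 80, nat_lit 3, nat_lit 373, nat_lit 150, nat_lit 15]⟩, C1.Rw.none,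
 ⟨nat_lit 5477, nat_lit 5917, ⟨.ofNat (nat_lit 342931), .ofNat (nat_lit 578514), .ofNat (nat_lit 385610), .ofNat (nat_lit 621176), .ofNat (nat_lit 350132), .ofNat (nat_lit 574913), .ofNat (nat_lit 392847), .ofNat (nat_lit 617611)⟩, ⟨.negSucc (nat_lit 20704), .ofNat (nat_lit 670368), .ofNat (nat_lit 0), .ofNat (nat_lit 713031), .negSucc (nat_lit 2808), .ofNat (nat_lit 656580), .ofNat (nat_lit 0), .ofNat (nat_lit 699278)⟩⟩, []⟩
noncomputable def p043_l161 : Lf2 := ⟨nat_lit 0, nat_lit 2, [nat_lit 10, nat_lit 5, nat_lit 5, nat_lit 20], false, nat_lit 0, nat_lit 364, nat_lit 0, nat_lit 384, ⟨nat_lit 507, nat_lit 493, nat_lit 0, nat_lit 6, nat_lit 303, nat_lit 493, nat_lit 143, nat_lit 0, nat_lit 0, nat_lit 0, nat_lit 0, nat_lit 0, nat_lit 0, nat_lit 0, nat_lit 0, nat_lit 5000000, true, true⟩,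
 nat_lit 8877, nat_lit 1017, nat_lit 0, nat_lit 10166, nat_lit 5238, nat_lit 3804, nat_lit 1114, nat_lit 0, nat_lit 0, nat_lit 1083, nat_lit 0, nat_lit 0, nat_lit 0, nat_lit 0, nat_lit 0, nat_lit 197200, nat_lit 0, nat_lit 0, [(nat_lit 6, [(nat_lit 1, nat_lit 493)]), (nat_lit 9, [(nat_lit 1, nat_lit 493)])],
 ⟨p043_k2, nat_lit 0, nat_lit 0, nat_lit 207, nat_lit 0, nat_lit 46496, [nat_lit 3709256961, nat_lit 4662737200, nat_lit 5637437400], [], [nat_lit 24405670226, nat_lit 25525701922, nat_lit 32592284626, nat_lit 33724746608, nat_lit 29187682495, nat_lit 30119677379, nat_lit 33981997123, nat_lit 34645567569], nat_lit 1271250, nat_lit 1271250, nat_lit 1271250, nat_lit 1271250, nat_lit 0, nat_lit 2570750, [nat_lit 1100000, nat_lit 1442500, nat_lit 1271250], [nat_lit 9, nat_lit 40, nat_lit 40, nat_lit 80, nat_lit 2, nat_lit 317, nat_lit 100, nat_lit 10]⟩, ⟨p043_k27, nat_lit 0, nat_lit 0, nat_lit 249, nat_lit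 0, nat_lit 61105, [nat_lit 3168750000, nat_lit 4039776000, nat_lit 4989894000], [], [nat_lit 13270173669, nat_lit 14065248945, nat_lit 19048589388, nat_lit 19556127060, nat_lit 20429316257, nat_lit 17054115310, nat_lit 19160045110, nat_lit 19229786117], nat_lit 1271250, nat_lit 1271250, nat_lit 1271250, nat_lit 1271250, nat_lit 0, nat_lit 2712000, [nat_lit 1412500, nat_lit 1271250, nat_lit 1271250], [nat_lit 25, nat_lit 40, nat_lit 40, nat_lit 80, nat_lit 17, nat_lit 538, nat_lit 300, nat_lit 15]⟩,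
 ⟨nat_lit 5477, nat_lit 6325, ⟨.ofNat (nat_lit 582178), .ofNat (nat_lit 910890), .ofNat (nat_lit 624852), .ofNat (nat_lit 953563), .ofNat (nat_lit 574846), .ofNat (nat_lit 874234), .ofNat (nat_lit 617499), .ofNat (nat_lit 916886)⟩, ⟨.negSucc (nat_lit 39529), .ofNat (nat_lit 708908), .ofNat (nat_lit 0), .ofNat (nat_lit 751581), .negSucc (nat_lit 2808), .ofNat (nat_lit 678915), .ofNat (nat_lit 0), .ofNat (nat_lit 721567)⟩⟩, [⟨nat_lit 4, nat_lit 77, nat_lit 100, nat_lit 91, nat_lit 157666910⟩, ⟨nat_lit 7, nat_lit 59, nat_lit 100, nat_lit 87, nat_lit 112392121⟩]⟩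
noncomputable def b_V_600_500_20_4 : St := ⟨true, nat_lit 1, nat_lit 2, nat_lit 2, nat_lit 120, nat_lit 240, nat_lit 280, nat_lit 200, nat_lit 240, nat_lit 4, nat_lit 400, nat_lit 80, nat_lit 120, nat_lit 0, nat_lit 364, nat_lit 0, nat_lit 384, nat_lit 0, nat_lit 8, nat_lit 0, nat_lit 0, nat_lit 0, nat_lit 0⟩
theorem d_V_600_500_20_4 (h : EB TB.env) : Dead b_V_600_500_20_4 := chkB_sound0 h (T :=
(.st (nat_lit 1)
(.spl (nat_lit 2) (nat_lit 120)
(.spl (nat_lit 0) (nat_lit 260)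
(.leaf p043_l151)
(.trZ (nat_lit 0) (nat_lit 100) (nat_lit 95) (nat_lit 30) (nat_lit 8) (.trX (nat_lit 16) (nat_lit 100) (nat_lit 69) (nat_lit 96) (nat_lit 352) (.leaf p043_l152))))
(.spl (nat_lit 2) (nat_lit 240)
(.spl (nat_lit 0) (nat_lit 260)
(.leaf p043_l153)
(.trX (nat_lit 16) (nat_lit 100) (nat_lit 69) (nat_lit 96) (nat_lit 352) (.leaf p043_l154)))
(.spl (nat_lit 0) (nat_lit 260)
(.leaf p043_l155)
(.trX (nat_lit 16) (nat_lit 100) (nat_lit 69) (nat_lit 96) (nat_lit 352) (.leaf p043_l156)))))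
(.spl (nat_lit 2) (nat_lit 120)
(.spl (nat_lit 0) (nat_lit 260)
(.leaf p043_l157)
(.trZ (nat_lit 0) (nat_lit 100) (nat_lit 95) (nat_lit 30) (nat_lit 8) (.trX (nat_lit 16) (nat_lit 100) (nat_lit 69) (nat_lit 96) (nat_lit 352) (.leaf p043_l158))))
(.spl (nat_lit 2) (nat_lit 240)
(.spl (nat_lit 0) (nat_lit 260)
(.leaf p043_l159)
(.trX (nat_lit 16) (nat_lit 100) (nat_lit 69) (nat_lit 96) (nat_lit 352) (.leaf p043_l160)))
(.leaf p043_l161))))) (by decide +kernel)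
noncomputable def p043_l162 : Lf2 := ⟨nat_lit 0, nat_lit 6, [nat_lit 47, nat_lit 5, nat_lit 5, nat_lit 20], true, nat_lit 0, nat_lit 160, nat_lit 0, nat_lit 336, ⟨nat_lit 0, nat_lit 0, nat_lit 1000, nat_lit 6, nat_lit 112, nat_lit 174, nat_lit 54, nat_lit 1000, nat_lit 17067, nat_lit 247, nat_lit 117600, nat_lit 299, nat_lit 62139078, nat_lit 0, nat_lit 0, nat_lit 1300937, false, false⟩,
 nat_lit 0, nat_lit 0, nat_lit 0, nat_lit 6942, nat_lit 4570, nat_lit 0, nat_lit 0, nat_lit 0, nat_lit 0, nat_lit 0, nat_lit 0, nat_lit 0, nat_lit 0, nat_lit 19077020054592, nat_lit 147, nat_lit 1000000, nat_lit 0, nat_lit 0, [(nat_lit 6, [(nat_lit 6, nat_lit 1000)])],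
 ⟨p043_k28, nat_lit 0, nat_lit 0, nat_lit 198, nat_lit 0, nat_lit 0, [nat_lit 4560000000, nat_lit 135000000], [], [nat_lit 13883538601, nat_lit 14492155055, nat_lit 12445185280, nat_lit 13073257320, nat_lit 12899057424, nat_lit 13579156648, nat_lit 12372602400, nat_lit 12984175950], nat_lit 0, nat_lit 0, nat_lit 0, nat_lit 0, nat_lit 0, nat_lit 0, [], [nat_lit 70, nat_lit 40, nat_lit 40, nat_lit 80, nat_lit 13, nat_lit 373, nat_lit 150, nat_lit 11]⟩, C1.Rw.none,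
 ⟨nat_lit 6123, nat_lit 6325, ⟨.ofNat (nat_lit 164319), .ofNat (nat_lit 378206), .ofNat (nat_lit 175003), .ofNat (nat_lit 388890), .ofNat (nat_lit 172944), .ofNat (nat_lit 381933), .ofNat (nat_lit 183618), .ofNat (nat_lit 392607)⟩, ⟨.negSucc (nat_lit 82265), .ofNat (nat_lit 246791), .negSucc (nat_lit 39529), .ofNat (nat_lit 289527), .negSucc (nat_lit 72689), .ofNat (nat_lit 248833), .negSucc (nat_lit 29993), .ofNat (nat_lit 291529)⟩⟩, [⟨nat_lit 0, nat_lit 100, nat_lit 100, nat_lit 50, nat_lit 146071185⟩]⟩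
noncomputable def p043_l163 : Lf2 := ⟨nat_lit 0, nat_lit 6, [nat_lit 47, nat_lit 5, nat_lit 5, nat_lit 20], true, nat_lit 0, nat_lit 160, nat_lit 0, nat_lit 336, ⟨nat_lit 0, nat_lit 0, nat_lit 1000, nat_lit 6, nat_lit 118, nat_lit 248, nat_lit 54, nat_lit 1000, nat_lit 19267, nat_lit 249, nat_lit 132017, nat_lit 304, nat_lit 61632035, nat_lit 0, nat_lit 0, nat_lit 1395294, false, false⟩,
 nat_lit 0, nat_lit 0, nat_lit 0, nat_lit 6695, nat_lit 4207, nat_lit 0, nat_lit 562, nat_lit 0, nat_lit 0, nat_lit 0, nat_lit 0, nat_lit 0, nat_lit 0, nat_lit 17933450641220, nat_lit 69, nat_lit 400000, nat_lit 0, nat_lit 0, [(nat_lit 6, [(nat_lit 5, nat_lit 1000)])],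
 ⟨p043_k29, nat_lit 0, nat_lit 0, nat_lit 239, nat_lit 0, nat_lit 0, [nat_lit 2521600001, nat_lit 679600001, nat_lit 7200000], [], [nat_lit 13657122519, nat_lit 14309609093, nat_lit 12827786945, nat_lit 13421866540, nat_lit 13031865969, nat_lit 13584804464, nat_lit 12479837946, nat_lit 12980966850], nat_lit 0, nat_lit 0, nat_lit 0, nat_lit 0, nat_lit 0, nat_lit 0, [], [nat_lit 29, nat_lit 40, nat_lit 40, nat_lit 80, nat_lit 17, nat_lit 373, nat_lit 150, nat_lit 11]⟩, C1.Rw.none,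
 ⟨nat_lit 5916, nat_lit 6124, ⟨.ofNat (nat_lit 180982), .ofNat (nat_lit 381933), .ofNat (nat_lit 202330), .ofNat (nat_lit 403281), .ofNat (nat_lit 189276), .ofNat (nat_lit 385610), .ofNat (nat_lit 210615), .ofNat (nat_lit 406949)⟩, ⟨.negSucc (nat_lit 72689), .ofNat (nat_lit 248833), .negSucc (nat_lit 29993), .ofNat (nat_lit 291529), .negSucc (nat_lit 63383), .ofNat (nat_lit 250751), .negSucc (nat_lit 20704), .ofNat (nat_lit 293429)⟩⟩, [⟨nat_lit 0, nat_lit 100, nat_lit 100, nat_lit 60, nat_lit 145435932⟩]⟩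
noncomputable def p043_l164 : Lf2 := ⟨nat_lit 1, nat_lit 10, [nat_lit 0, nat_lit 5, nat_lit 5, nat_lit 20], false, nat_lit 0, nat_lit 160, nat_lit 0, nat_lit 336, zbN0,
 nat_lit 0, nat_lit 0, nat_lit 0, nat_lit 0, nat_lit 0, nat_lit 0, nat_lit 0, nat_lit 0, nat_lit 0, nat_lit 0, nat_lit 0, nat_lit 0, nat_lit 0, nat_lit 0, nat_lit 0, nat_lit 0, nat_lit 0, nat_lit 0, [],
 C1.Rw.none, C1.Rw.none,
 zbF0, []⟩
noncomputable def p043_l165 : Lf2 := ⟨nat_lit 0, nat_lit 10, [nat_lit 0, nat_lit 5, nat_lit 5, nat_lit 20], true, nat_lit 0, nat_lit 160, nat_lit 0, nat_lit 336, ⟨nat_lit 0, nat_lit 0, nat_lit 1000, nat_lit 6, nat_lit 123, nat_lit 248, nat_lit 55, nat_lit 1000, nat_lit 21600, nat_lit 251, nat_lit 141067, nat_lit 307, nat_lit 61200930, nat_lit 0, nat_lit 0, nat_lit 1472446, false, false⟩,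
 nat_lit 0, nat_lit 0, nat_lit 0, nat_lit 6101, nat_lit 4245, nat_lit 0, nat_lit 0, nat_lit 0, nat_lit 0, nat_lit 0, nat_lit 0, nat_lit 0, nat_lit 0, nat_lit 0, nat_lit 145, nat_lit 734200, nat_lit 0, nat_lit 0, [(nat_lit 9, [(nat_lit 5, nat_lit 443), (nat_lit 6, nat_lit 557)])],
 ⟨p043_k30, nat_lit 0, nat_lit 0, nat_lit 204, nat_lit 0, nat_lit 0, [nat_lit 4130024401, nat_lit 967200], [], [nat_lit 14380419263, nat_lit 15980766033, nat_lit 13508102902, nat_lit 14917850862, nat_lit 13774217611, nat_lit 15079986723, nat_lit 13554074552, nat_lit 14735351902], nat_lit 0, nat_lit 0, nat_lit 0, nat_lit 0, nat_lit 0, nat_lit 0, [], [nat_lit 70, nat_lit 40, nat_lit 40, nat_lit 80, nat_lit 13, nat_lit 373, nat_lit 150, nat_lit 11]⟩, C1.Rw.none,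
 ⟨nat_lit 5477, nat_lit 5917, ⟨.ofNat (nat_lit 197129), .ofNat (nat_lit 385610), .ofNat (nat_lit 218469), .ofNat (nat_lit 406949), .ofNat (nat_lit 213007), .ofNat (nat_lit 392847), .ofNat (nat_lit 234364), .ofNat (nat_lit 414204)⟩, ⟨.negSucc (nat_lit 63383), .ofNat (nat_lit 250751), .negSucc (nat_lit 20704), .ofNat (nat_lit 293429), .negSucc (nat_lit 45522), .ofNat (nat_lit 254209), .negSucc (nat_lit 2808), .ofNat (nat_lit 296923)⟩⟩, [⟨nat_lit 0, nat_lit 100, nat_lit 97, nat_lit 59, nat_lit 129080899⟩]⟩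
noncomputable def p043_l166 : Lf2 := ⟨nat_lit 0, nat_lit 10, [nat_lit 0, nat_lit 5, nat_lit 5, nat_lit 20], false, nat_lit 0, nat_lit 160, nat_lit 0, nat_lit 320, ⟨nat_lit 181, nat_lit 0, nat_lit 819, nat_lit 6, nat_lit 136, nat_lit 301, nat_lit 55, nat_lit 819, nat_lit 21600, nat_lit 251, nat_lit 173400, nat_lit 317, nat_lit 60032442, nat_lit 0, nat_lit 0, nat_lit 1668846, false, false⟩,
 nat_lit 0, nat_lit 0, nat_lit 0, nat_lit 5556, nat_lit 4476, nat_lit 1303, nat_lit 123, nat_lit 0, nat_lit 0, nat_lit 211, nat_lit 0, nat_lit 0, nat_lit 0, nat_lit 7139796124206, nat_lit 94, nat_lit 819000, nat_lit 0, nat_lit 0, [(nat_lit 9, [(nat_lit 6, nat_lit 819)])],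
 ⟨p043_k31, nat_lit 0, nat_lit 0, nat_lit 227, nat_lit 0, nat_lit 0, [nat_lit 3422469600, nat_lit 1527967201, nat_lit 25855200], [], [nat_lit 14718619483, nat_lit 16109501145, nat_lit 14133256284, nat_lit 15312953905, nat_lit 13629321813, nat_lit 14756764750, nat_lit 13417628065, nat_lit 14446286609], nat_lit 0, nat_lit 0, nat_lit 0, nat_lit 0, nat_lit 0, nat_lit 0, [], [nat_lit 29, nat_lit 40, nat_lit 40, nat_lit 80, nat_lit 17, nat_lit 373, nat_lit 150, nat_lit 11]⟩, ⟨p043_k31, nat_lit 0, nat_lit 0, nat_lit 227, nat_lit 0, nat_lit 0, [nat_lit 848528000, nat_lit 1442208000, nat_lit 1781402000], [], [nat_lit 4296114812, nat_lit 4622394119, nat_lit 3875665578, nat_lit 4127509996, nat_lit 4891887821, nat_lit 5066558553, nat_lit 4445804582, nat_lit 4596289612], nat_lit 0, nat_lit 0, nat_lit 0, nat_lit 0, nat_lit 0, nat_lit 0, [], [nat_lit 29, nat_lit 40, nat_lit 40, nat_lit 80, nat_lit 17, nat_lit 428, nat_lit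 200, nat_lit 13]⟩,
 ⟨nat_lit 5477, nat_lit 5917, ⟨.ofNat (nat_lit 242029), .ofNat (nat_lit 406949), .ofNat (nat_lit 263368), .ofNat (nat_lit 428288), .ofNat (nat_lit 256844), .ofNat (nat_lit 414204), .ofNat (nat_lit 278201), .ofNat (nat_lit 435561)⟩, ⟨.negSucc (nat_lit 63383), .ofNat (nat_lit 250751), .negSucc (nat_lit 20704), .ofNat (nat_lit 293429), .negSucc (nat_lit 45522), .ofNat (nat_lit 254209), .negSucc (nat_lit 2808), .ofNat (nat_lit 296923)⟩⟩, [⟨nat_lit 0, nat_lit 100, nat_lit 100, nat_lit 70, nat_lit 258008076⟩, ⟨nat_lit 7, nat_lit 97, nat_lit 100, nat_lit 76, nat_lit 53300824⟩]⟩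
noncomputable def b_V_600_600_10_0 : St := ⟨true, nat_lit 0, nat_lit 0, nat_lit 1, nat_lit 80, nat_lit 240, nat_lit 280, nat_lit 240, nat_lit 280, nat_lit 16, nat_lit 120, nat_lit 40, nat_lit 80, nat_lit 0, nat_lit 160, nat_lit 0, nat_lit 336, nat_lit 0, nat_lit 40, nat_lit 0, nat_lit 0, nat_lit 0, nat_lit 0⟩
theorem d_V_600_600_10_0 (h : EB TB.env) : Dead b_V_600_600_10_0 := chkB_sound0 h (T :=
(.spl (nat_lit 0) (nat_lit 260)
(.ord (.spl (nat_lit 6) (nat_lit 24)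
(.spl (nat_lit 0) (nat_lit 250)
(.ord (.leaf p043_l162))
(.trZ (nat_lit 0) (nat_lit 100) (nat_lit 99) (nat_lit 45) (nat_lit 20) (.leaf p043_l163)))
(.leaf p043_l164)))
(.trZ (nat_lit 0) (nat_lit 100) (nat_lit 97) (nat_lit 49) (nat_lit 24) (.spl (nat_lit 1) (nat_lit 260)
(.leaf p043_l165)
(.trZ (nat_lit 0) (nat_lit 100) (nat_lit 100) (nat_lit 60) (nat_lit 36) (.trX (nat_lit 19) (nat_lit 100) (nat_lit 85) (nat_lit 84) (nat_lit 320) (.leaf p043_l166))))))) (by decide +kernel)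

end B2
end Pool.Agent.Lib.MP_6947cd_al
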