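import Pool.Agent.Lib.MP_6947cd_al.ZB.P026
import Pool.Agent.Lib.MP_6947cd_al.ZB.P027
import Pool.Agent.Lib.MP_6947cd_al.ZB.P028
import Pool.Agent.Lib.MP_6947cd_al.ZB.P029
import Pool.Agent.Lib.MP_6947cd_al.ZB.P030
import Pool.Agent.Lib.MP_6947cd_al.ZB.P031
import Pool.Agent.Lib.MP_6947cd_al.ZB.P032
import Pool.Agent.Lib.MP_6947cd_al.ZB.P033
import Pool.Agent.Lib.MP_6947cd_al.ZB.P034
import Pool.Agent.Lib.MP_6947cd_al.ZB.P035
import Pool.Agent.Lib.MP_6947cd_al.ZB.P036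
import Pool.Agent.Lib.MP_6947cd_al.ZB.P037
import Pool.Agent.Lib.MP_6947cd_al.ZB.P038
import Pool.Agent.Lib.MP_6947cd_al.ZB.P039
import Pool.Agent.Lib.MP_6947cd_al.ZB.P040
import Pool.Agent.Lib.MP_6947cd_al.ZB.P041
import Pool.Agent.Lib.MP_6947cd_al.ZB.P042
import Pool.Agent.Lib.MP_6947cd_al.ZB.P043

/-!
Problem MP_6947cd_al (Chollet).  Case B, second entry in [2/5, 17/20]: certificates of the tree, part T04 (generated).
-/

set_option autoImplicit false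
set_option linter.all false

namespace Pool.Agent.Lib.MP_6947cd_al
namespace B2

open Ent Fr B1 PkA

noncomputable def t04_k0 : C1.Kn := ⟨[nat_lit 100, nat_lit 120, nat_lit 140], [nat_lit 0, nat_lit 254, nat_lit 778], [(nat_lit 0, nat_lit 0, nat_lit 0), (nat_lit 1000, nat_lit 1000, nat_lit 198), (nat_lit 960, nat_lit 1000, nat_lit 392)], (nat_lit 100, nat_lit 94, nat_lit 44)⟩
noncomputable def t04_k1 : C1.Kn := ⟨[nat_lit 100, nat_lit 120, nat_lit 160], [nat_lit 0, nat_lit 0, nat_lit 1063], [(nat_lit 0, nat_lit 0, nat_lit 0), (nat_lit 0, nat_lit 0, nat_lit 0), (nat_lit 924, nat_lit 1000, nat_lit 383)], (nat_lit 100, nat_lit 90, nat_lit 44)⟩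
noncomputable def t04_k2 : C1.Kn := ⟨[nat_lit 100, nat_lit 120], [nat_lit 0, nat_lit 448], [(nat_lit 0, nat_lit 0, nat_lit 0), (nat_lit 1000, nat_lit 1000, nat_lit 350)], (nat_lit 98, nat_lit 100, nat_lit 20)⟩
noncomputable def t04_k3 : C1.Kn := ⟨[nat_lit 100, nat_lit 140], [nat_lit 0, nat_lit 766], [(nat_lit 0, nat_lit 0, nat_lit 0), (nat_lit 1000, nat_lit 1000, nat_lit 299)], (nat_lit 100, nat_lit 97, nat_lit 44)⟩
noncomputable def t04_k4 : C1.Kn := ⟨[nat_lit 100, nat_lit 140], [nat_lit 0, nat_lit 508], [(nat_lit 0, nat_lit 0, nat_lit 0), (nat_lit 1000, nat_lit 1000, nat_lit 198)], (nat_lit 100, nat_lit 94, nat_lit 44)⟩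
noncomputable def t04_k5 : C1.Kn := ⟨[nat_lit 100, nat_lit 120], [nat_lit 0, nat_lit 254], [(nat_lit 0, nat_lit 0, nat_lit 0), (nat_lit 1000, nat_lit 1000, nat_lit 198)], (nat_lit 100, nat_lit 99, nat_lit 28)⟩
noncomputable def t04_k6 : C1.Kn := ⟨[nat_lit 80, nat_lit 160], [nat_lit 0, nat_lit 0], [(nat_lit 0, nat_lit 0, nat_lit 0), (nat_lit 0, nat_lit 0, nat_lit 0)], (nat_lit 100, nat_lit 92, nat_lit 61)⟩
noncomputable def t04_k7 : C1.Kn := ⟨[nat_lit 100, nat_lit 160], [nat_lit 0, nat_lit 0], [(nat_lit 0, nat_lit 0, nat_lit 0), (nat_lit 0, nat_lit 0, nat_lit 0)], (nat_lit 100, nat_lit 80, nat_lit 60)⟩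
noncomputable def t04_k8 : C1.Kn := ⟨[nat_lit 80, nat_lit 100, nat_lit 140], [nat_lit 0, nat_lit 0, nat_lit 1022], [(nat_lit 0, nat_lit 0, nat_lit 0), (nat_lit 0, nat_lit 0, nat_lit 0), (nat_lit 1000, nat_lit 1000, nat_lit 399)], (nat_lit 100, nat_lit 95, nat_lit 55)⟩
noncomputable def t04_k9 : C1.Kn := ⟨[nat_lit 100, nat_lit 120, nat_lit 160], [nat_lit 0, nat_lit 0, nat_lit 1063], [(nat_lit 0, nat_lit 0, nat_lit 0), (nat_lit 0, nat_lit 0, nat_lit 0), (nat_lit 924, nat_lit 1000, nat_lit 383)], (nat_lit 100, nat_lit 84, nat_lit 54)⟩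
noncomputable def t04_k10 : C1.Kn := ⟨[nat_lit 80, nat_lit 100, nat_lit 160], [nat_lit 0, nat_lit 0, nat_lit 1533], [(nat_lit 0, nat_lit 0, nat_lit 0), (nat_lit 0, nat_lit 0, nat_lit 0), (nat_lit 1000, nat_lit 1000, nat_lit 399)], (nat_lit 100, nat_lit 92, nat_lit 61)⟩
noncomputable def t04_k11 : C1.Kn := ⟨[nat_lit 100, nat_lit 120, nat_lit 160], [nat_lit 0, nat_lit 0, nat_lit 1063], [(nat_lit 0, nat_lit 0, nat_lit 0), (nat_lit 0, nat_lit 0, nat_lit 0), (nat_lit 924, nat_lit 1000, nat_lit 383)], (nat_lit 100, nat_lit 80, nat_lit 60)⟩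
noncomputable def t04_k12 : C1.Kn := ⟨[nat_lit 80, nat_lit 100, nat_lit 120], [nat_lit 0, nat_lit 132, nat_lit 640], [(nat_lit 0, nat_lit 0, nat_lit 0), (nat_lit 1000, nat_lit 979, nat_lit 103), (nat_lit 1000, nat_lit 979, nat_lit 397)], (nat_lit 99, nat_lit 100, nat_lit 44)⟩
noncomputable def t04_k13 : C1.Kn := ⟨[nat_lit 80, nat_lit 100, nat_lit 140], [nat_lit 0, nat_lit 0, nat_lit 1022], [(nat_lit 0, nat_lit 0, nat_lit 0), (nat_lit 0, nat_lit 0, nat_lit 0), (nat_lit 1000, nat_lit 1000, nat_lit 399)], (nat_lit 100, nat_lit 99, nat_lit 44)⟩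
noncomputable def t04_k14 : C1.Kn := ⟨[nat_lit 80, nat_lit 100, nat_lit 120], [nat_lit 0, nat_lit 0, nat_lit 511], [(nat_lit 0, nat_lit 0, nat_lit 0), (nat_lit 0, nat_lit 0, nat_lit 0), (nat_lit 1000, nat_lit 997, nat_lit 383)], (nat_lit 98, nat_lit 100, nat_lit 28)⟩
noncomputable def t04_k15 : C1.Kn := ⟨[nat_lit 80, nat_lit 120], [nat_lit 0, nat_lit 130], [(nat_lit 0, nat_lit 0, nat_lit 0), (nat_lit 1000, nat_lit 990, nat_lit 51)], (nat_lit 99, nat_lit 100, nat_lit 40)⟩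
noncomputable def t04_k16 : C1.Kn := ⟨[nat_lit 80, nat_lit 120, nat_lit 160], [nat_lit 0, nat_lit 0, nat_lit 2132], [(nat_lit 0, nat_lit 0, nat_lit 0), (nat_lit 0, nat_lit 0, nat_lit 0), (nat_lit 858, nat_lit 1000, nat_lit 713)], (nat_lit 100, nat_lit 92, nat_lit 61)⟩
noncomputable def t04_k17 : C1.Kn := ⟨[nat_lit 80, nat_lit 120, nat_lit 140], [nat_lit 0, nat_lit 528, nat_lit 1572], [(nat_lit 0, nat_lit 0, nat_lit 0), (nat_lit 1000, nat_lit 959, nat_lit 206), (nat_lit 966, nat_lit 1000, nat_lit 679)], (nat_lit 100, nat_lit 99, nat_lit 63)⟩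
noncomputable def t04_k18 : C1.Kn := ⟨[nat_lit 80, nat_lit 120, nat_lit 140], [nat_lit 0, nat_lit 264, nat_lit 1360], [(nat_lit 0, nat_lit 0, nat_lit 0), (nat_lit 1000, nat_lit 979, nat_lit 103), (nat_lit 951, nat_lit 1000, nat_lit 628)], (nat_lit 100, nat_lit 95, nat_lit 62)⟩
noncomputable def t04_k19 : C1.Kn := ⟨[nat_lit 80, nat_lit 100, nat_lit 140], [nat_lit 0, nat_lit 265, nat_lit 1269], [(nat_lit 0, nat_lit 0, nat_lit 0), (nat_lit 1000, nat_lit 959, nat_lit 206), (nat_lit 1000, nat_lit 958, nat_lit 392)], (nat_lit 100, nat_lit 99, nat_lit 63)⟩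
noncomputable def t04_k20 : C1.Kn := ⟨[nat_lit 80, nat_lit 140], [nat_lit 0, nat_lit 0], [(nat_lit 0, nat_lit 0, nat_lit 0), (nat_lit 0, nat_lit 0, nat_lit 0)], (nat_lit 100, nat_lit 95, nat_lit 55)⟩
noncomputable def t04_k21 : C1.Kn := ⟨[nat_lit 80, nat_lit 100, nat_lit 120], [nat_lit 0, nat_lit 0, nat_lit 511], [(nat_lit 0, nat_lit 0, nat_lit 0), (nat_lit 0, nat_lit 0, nat_lit 0), (nat_lit 1000, nat_lit 997, nat_lit 383)], (nat_lit 100, nat_lit 100, nat_lit 40)⟩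
noncomputable def t04_k22 : C1.Kn := ⟨[nat_lit 100, nat_lit 120, nat_lit 140], [nat_lit 0, nat_lit 0, nat_lit 533], [(nat_lit 0, nat_lit 0, nat_lit 0), (nat_lit 0, nat_lit 0, nat_lit 0), (nat_lit 924, nat_lit 1000, nat_lit 383)], (nat_lit 100, nat_lit 92, nat_lit 39)⟩
theorem t_VL_500_500_5 (h : EB TB.env) : RC.Tail ⟨true, 40, 200, 240, 200, 240, 20, 40, [20]⟩ := RC.tail_chk h (b := ⟨nat_lit 20, nat_lit 10, nat_lit 5, nat_lit 5, nat_lit 20, nat_lit 215, nat_lit 10, nat_lit 34, nat_lit 0⟩) (by decide +kernel)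
noncomputable def t04_l0 : Lf2 := ⟨nat_lit 1, nat_lit 5, [nat_lit 4, nat_lit 5, nat_lit 5, nat_lit 20], false, nat_lit 0, nat_lit 320, nat_lit 0, nat_lit 320, zbN0,
 nat_lit 0, nat_lit 0, nat_lit 0, nat_lit 0, nat_lit 0, nat_lit 0, nat_lit 0, nat_lit 0, nat_lit 0, nat_lit 0, nat_lit 0, nat_lit 0, nat_lit 0, nat_lit 0, nat_lit 0, nat_lit 0, nat_lit 0, nat_lit 0, [],
 C1.Rw.none, C1.Rw.none,
 zbF0, []⟩
noncomputable def t04_l1 : Lf2 := ⟨nat_lit 1, nat_lit 5, [nat_lit 4, nat_lit 5, nat_lit 5, nat_lit 20], false, nat_lit 0, nat_lit 320, nat_lit 0, nat_lit 320, zbN0,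
 nat_lit 0, nat_lit 0, nat_lit 0, nat_lit 0, nat_lit 0, nat_lit 0, nat_lit 0, nat_lit 0, nat_lit 0, nat_lit 0, nat_lit 0, nat_lit 0, nat_lit 0, nat_lit 0, nat_lit 0, nat_lit 0, nat_lit 0, nat_lit 0, [],
 C1.Rw.none, C1.Rw.none,
 zbF0, []⟩
noncomputable def t04_l2 : Lf2 := ⟨nat_lit 0, nat_lit 5, [nat_lit 4, nat_lit 5, nat_lit 5, nat_lit 20], false, nat_lit 0, nat_lit 304, nat_lit 0, nat_lit 320, ⟨nat_lit 1000, nat_lit 0, nat_lit 0, nat_lit 0, nat_lit 0, nat_lit 0, nat_lit 0, nat_lit 0, nat_lit 0, nat_lit 0, nat_lit 0, nat_lit 0, nat_lit 0, nat_lit 0, nat_lit 0, nat_lit 0, false, false⟩,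
 nat_lit 0, nat_lit 16691, nat_lit 0, nat_lit 0, nat_lit 7982, nat_lit 8899, nat_lit 3004, nat_lit 0, nat_lit 0, nat_lit 2294, nat_lit 0, nat_lit 0, nat_lit 0, nat_lit 8761250363552, nat_lit 0, nat_lit 0, nat_lit 0, nat_lit 0, [],
 ⟨t04_k0, nat_lit 0, nat_lit 0, nat_lit 392, nat_lit 0, nat_lit 409043, [nat_lit 6250000000, nat_lit 7968000001, nat_lit 9842000000], [], [nat_lit 28996740454, nat_lit 29412755434, nat_lit 38114073064, nat_lit 38800571744, nat_lit 30636077502, nat_lit 27680322705, nat_lit 33523919135, nat_lit 33868247260], nat_lit 1271250, nat_lit 1271250, nat_lit 1271250, nat_lit 1271250, nat_lit 0, nat_lit 2147000, [nat_lit 1412500, nat_lit 1271250, nat_lit 1271250], [nat_lit 25, nat_lit 40, nat_lit 20, nat_lit 80, nat_lit 17, nat_lit 483, nat_lit 250, nat_lit 14]⟩, ⟨t04_k1, nat_lit 0, nat_lit 0, nat_lit 255, nat_lit 0, nat_lit 0, [nat_lit 6250000000, nat_lit 7968000000, nat_lit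 11872000000], [], [nat_lit 25724946322, nat_lit 27337565514, nat_lit 39696518488, nat_lit 41096549008, nat_lit 24977158062, nat_lit 25729643320, nat_lit 35017855076, nat_lit 35590599264], nat_lit 0, nat_lit 0, nat_lit 0, nat_lit 0, nat_lit 0, nat_lit 0, [], [nat_lit 53, nat_lit 40, nat_lit 20, nat_lit 80, nat_lit 14, nat_lit 483, nat_lit 250, nat_lit 12]⟩,
 zbF0, [⟨nat_lit 4, nat_lit 93, nat_lit 100, nat_lit 53, nat_lit 189557761⟩, ⟨nat_lit 7, nat_lit 90, nat_lit 100, nat_lit 53, nat_lit 187645307⟩]⟩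
noncomputable def t04_l3 : Lf2 := ⟨nat_lit 1, nat_lit 5, [nat_lit 4, nat_lit 5, nat_lit 5, nat_lit 20], false, nat_lit 0, nat_lit 320, nat_lit 0, nat_lit 320, zbN0,
 nat_lit 0, nat_lit 0, nat_lit 0, nat_lit 0, nat_lit 0, nat_lit 0, nat_lit 0, nat_lit 0, nat_lit 0, nat_lit 0, nat_lit 0, nat_lit 0, nat_lit 0, nat_lit 0, nat_lit 0, nat_lit 0, nat_lit 0, nat_lit 0, [],
 C1.Rw.none, C1.Rw.none,
 zbF0, []⟩
noncomputable def t04_l4 : Lf2 := ⟨nat_lit 0, nat_lit 5, [nat_lit 4, nat_lit 5, nat_lit 5, nat_lit 20], true, nat_lit 200, nat_lit 240, nat_lit 0, nat_lit 320, ⟨nat_lit 0, nat_lit 0, nat_lit 1000, nat_lit 5, nat_lit 70, nat_lit 1000, nat_lit 144, nat_lit 1000, nat_lit 194400, nat_lit 323, nat_lit 46817, nat_lit 268, nat_lit 56415132, nat_lit 0, nat_lit 0, nat_lit 2764494, false, false⟩,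
 nat_lit 0, nat_lit 11528, nat_lit 0, nat_lit 0, nat_lit 5513, nat_lit 0, nat_lit 108, nat_lit 0, nat_lit 0, nat_lit 0, nat_lit 0, nat_lit 0, nat_lit 0, nat_lit 25749548049894, nat_lit 115, nat_lit 1000000, nat_lit 0, nat_lit 0, [(nat_lit 3, [(nat_lit 6, nat_lit 1000)])],
 ⟨t04_k0, nat_lit 0, nat_lit 0, nat_lit 187, nat_lit 0, nat_lit 100096, [nat_lit 3341142858, nat_lit 1499600000, nat_lit 23600000], [], [nat_lit 13309908592, nat_lit 13816354469, nat_lit 14807051053, nat_lit 13433230749, nat_lit 14989400904, nat_lit 15441220184, nat_lit 12602857586, nat_lit 13030682787], nat_lit 1271250, nat_lit 1271250, nat_lit 0, nat_lit 490000, nat_lit 1271250, nat_lit 1271250, [nat_lit 1412500, nat_lit 1271250, nat_lit 1271250], [nat_lit 25, nat_lit 40, nat_lit 20, nat_lit 80, nat_lit 17, nat_lit 373, nat_lit 150, nat_lit 11]⟩, C1.Rw.none,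
 ⟨nat_lit 6519, nat_lit 6709, ⟨.ofNat (nat_lit 69221), .ofNat (nat_lit 241532), .ofNat (nat_lit 101379), .ofNat (nat_lit 273690), .ofNat (nat_lit 79059), .ofNat (nat_lit 247435), .ofNat (nat_lit 111156), .ofNat (nat_lit 279532)⟩, ⟨.ofNat (nat_lit 307053), .ofNat (nat_lit 393209), .ofNat (nat_lit 328491), .ofNat (nat_lit 414647), .ofNat (nat_lit 307416), .ofNat (nat_lit 391604), .ofNat (nat_lit 328814), .ofNat (nat_lit 413002)⟩⟩, [⟨nat_lit 0, nat_lit 100, nat_lit 100, nat_lit 30, nat_lit 191573861⟩]⟩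
noncomputable def t04_l5 : Lf2 := ⟨nat_lit 0, nat_lit 1, [nat_lit 19, nat_lit 5, nat_lit 5, nat_lit 20], true, nat_lit 200, nat_lit 240, nat_lit 0, nat_lit 288, ⟨nat_lit 0, nat_lit 0, nat_lit 1000, nat_lit 5, nat_lit 47, nat_lit 1000, nat_lit 144, nat_lit 1000, nat_lit 194400, nat_lit 323, nat_lit 20417, nat_lit 250, nat_lit 57737022, nat_lit 0, nat_lit 0, nat_lit 2400677, false, false⟩,
 nat_lit 0, nat_lit 10411, nat_lit 0, nat_lit 0, nat_lit 5377, nat_lit 0, nat_lit 0, nat_lit 0, nat_lit 0, nat_lit 0, nat_lit 0, nat_lit 0, nat_lit 0, nat_lit 0, nat_lit 53, nat_lit 1000000, nat_lit 0, nat_lit 0, [(nat_lit 3, [(nat_lit 6, nat_lit 1000)])],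
 ⟨t04_k2, nat_lit 0, nat_lit 0, nat_lit 179, nat_lit 0, nat_lit 91609, [nat_lit 2101142858, nat_lit 11600000], [], [nat_lit 14248467844, nat_lit 14495833532, nat_lit 13123943843, nat_lit 13370295634, nat_lit 15852998848, nat_lit 16076830408, nat_lit 14726340269, nat_lit 14949402500], nat_lit 1271250, nat_lit 1271250, nat_lit 0, nat_lit 111251, nat_lit 1271250, nat_lit 1271250, [nat_lit 1412500, nat_lit 1271250], [nat_lit 26, nat_lit 40, nat_lit 20, nat_lit 80, nat_lit 2, nat_lit 345, nat_lit 125, nat_lit 11]⟩, C1.Rw.none,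
 ⟨nat_lit 6324, nat_lit 6423, ⟨.ofNat (nat_lit 83894), .ofNat (nat_lit 125505), .ofNat (nat_lit 105276), .ofNat (nat_lit 146886), .ofNat (nat_lit 88677), .ofNat (nat_lit 129809), .ofNat (nat_lit 110045), .ofNat (nat_lit 151177)⟩, ⟨.ofNat (nat_lit 307563), .ofNat (nat_lit 390784), .ofNat (nat_lit 328945), .ofNat (nat_lit 412166), .ofNat (nat_lit 307688), .ofNat (nat_lit 389952), .ofNat (nat_lit 329055), .ofNat (nat_lit 411320)⟩⟩, [⟨nat_lit 0, nat_lit 100, nat_lit 98, nat_lit 30, nat_lit 388500525⟩]⟩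
noncomputable def t04_l6 : Lf2 := ⟨nat_lit 0, nat_lit 1, [nat_lit 19, nat_lit 5, nat_lit 5, nat_lit 20], true, nat_lit 200, nat_lit 220, nat_lit 0, nat_lit 288, ⟨nat_lit 0, nat_lit 0, nat_lit 1000, nat_lit 5, nat_lit 57, nat_lit 1000, nat_lit 136, nat_lit 1000, nat_lit 173400, nat_lit 317, nat_lit 30817, nat_lit 258, nat_lit 57951025, nat_lit 0, nat_lit 0, nat_lit 2438945, false, false⟩,
 nat_lit 0, nat_lit 11593, nat_lit 0, nat_lit 0, nat_lit 5987, nat_lit 0, nat_lit 0, nat_lit 0, nat_lit 0, nat_lit 0, nat_lit 0, nat_lit 0, nat_lit 0, nat_lit 22704535494859, nat_lit 53, nat_lit 1000000, nat_lit 0, nat_lit 0, [(nat_lit 3, [(nat_lit 6, nat_lit 1000)])],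
 ⟨t04_k2, nat_lit 0, nat_lit 0, nat_lit 184, nat_lit 0, nat_lit 178960, [nat_lit 2101142858, nat_lit 11600000], [], [nat_lit 13102782166, nat_lit 13464924996, nat_lit 12078204221, nat_lit 12335939374, nat_lit 14374393947, nat_lit 14775022112, nat_lit 12907589390, nat_lit 13152655497], nat_lit 1271250, nat_lit 1271250, nat_lit 21650, nat_lit 111251, nat_lit 1271250, nat_lit 1271250, [nat_lit 1412500, nat_lit 1271250], [nat_lit 26, nat_lit 40, nat_lit 20, nat_lit 80, nat_lit 2, nat_lit 345, nat_lit 125, nat_lit 11]⟩, C1.Rw.none,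
 ⟨nat_lit 6324, nat_lit 6423, ⟨.ofNat (nat_lit 113598), .ofNat (nat_lit 146886), .ofNat (nat_lit 134980), .ofNat (nat_lit 168268), .ofNat (nat_lit 118272), .ofNat (nat_lit 151177), .ofNat (nat_lit 139640), .ofNat (nat_lit 172545)⟩, ⟨.ofNat (nat_lit 307563), .ofNat (nat_lit 349174), .ofNat (nat_lit 328945), .ofNat (nat_lit 370555), .ofNat (nat_lit 307688), .ofNat (nat_lit 348820), .ofNat (nat_lit 329055), .ofNat (nat_lit 370188)⟩⟩, [⟨nat_lit 0, nat_lit 100, nat_lit 100, nat_lit 40, nat_lit 612823983⟩]⟩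
noncomputable def t04_l7 : Lf2 := ⟨nat_lit 0, nat_lit 1, [nat_lit 19, nat_lit 5, nat_lit 5, nat_lit 20], true, nat_lit 220, nat_lit 240, nat_lit 0, nat_lit 272, ⟨nat_lit 0, nat_lit 0, nat_lit 1000, nat_lit 5, nat_lit 55, nat_lit 1000, nat_lit 152, nat_lit 1000, nat_lit 216600, nat_lit 329, nat_lit 28017, nat_lit 256, nat_lit 56538968, nat_lit 0, nat_lit 0, nat_lit 2642389, false, false⟩,
 nat_lit 0, nat_lit 11083, nat_lit 0, nat_lit 0, nat_lit 5724, nat_lit 0, nat_lit 1841, nat_lit 0, nat_lit 0, nat_lit 0, nat_lit 0, nat_lit 0, nat_lit 0, nat_lit 0, nat_lit 53, nat_lit 1000000, nat_lit 0, nat_lit 0, [(nat_lit 3, [(nat_lit 6, nat_lit 1000)])],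
 ⟨t04_k2, nat_lit 0, nat_lit 0, nat_lit 170, nat_lit 0, nat_lit 133433, [nat_lit 2101142858, nat_lit 11600000], [], [nat_lit 14317744804, nat_lit 14643839974, nat_lit 13346304720, nat_lit 13586904528, nat_lit 15555690169, nat_lit 15927044656, nat_lit 14163537152, nat_lit 14391909524], nat_lit 1271250, nat_lit 1271250, nat_lit 21650, nat_lit 111251, nat_lit 1271250, nat_lit 1271250, [nat_lit 1412500, nat_lit 1271250], [nat_lit 26, nat_lit 40, nat_lit 20, nat_lit 80, nat_lit 2, nat_lit 345, nat_lit 125, nat_lit 11]⟩, C1.Rw.none,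
 ⟨nat_lit 6324, nat_lit 6423, ⟨.ofNat (nat_lit 113598), .ofNat (nat_lit 146886), .ofNat (nat_lit 124289), .ofNat (nat_lit 157577), .ofNat (nat_lit 118272), .ofNat (nat_lit 151177), .ofNat (nat_lit 128956), .ofNat (nat_lit 161861)⟩, ⟨.ofNat (nat_lit 349174), .ofNat (nat_lit 390784), .ofNat (nat_lit 370555), .ofNat (nat_lit 412166), .ofNat (nat_lit 348820), .ofNat (nat_lit 389952), .ofNat (nat_lit 370188), .ofNat (nat_lit 411320)⟩⟩, [⟨nat_lit 0, nat_lit 100, nat_lit 99, nat_lit 35, nat_lit 589485198⟩]⟩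
noncomputable def t04_l8 : Lf2 := ⟨nat_lit 0, nat_lit 5, [nat_lit 4, nat_lit 5, nat_lit 5, nat_lit 20], true, nat_lit 200, nat_lit 240, nat_lit 0, nat_lit 320, ⟨nat_lit 0, nat_lit 0, nat_lit 1000, nat_lit 5, nat_lit 92, nat_lit 1000, nat_lit 144, nat_lit 1000, nat_lit 194400, nat_lit 323, nat_lit 79350, nat_lit 284, nat_lit 55017798, nat_lit 0, nat_lit 0, nat_lit 3095074, false, false⟩,
 nat_lit 0, nat_lit 11856, nat_lit 0, nat_lit 0, nat_lit 5971, nat_lit 0, nat_lit 154, nat_lit 0, nat_lit 0, nat_lit 0, nat_lit 0, nat_lit 0, nat_lit 0, nat_lit 31465190513329, nat_lit 115, nat_lit 1000000, nat_lit 0, nat_lit 0, [(nat_lit 3, [(nat_lit 6, nat_lit 1000)])],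
 ⟨t04_k3, nat_lit 0, nat_lit 0, nat_lit 170, nat_lit 0, nat_lit 196342, [nat_lit 3341142858, nat_lit 23600000], [], [nat_lit 11312980938, nat_lit 11638691772, nat_lit 12589252394, nat_lit 11101300092, nat_lit 12794726213, nat_lit 13253340792, nat_lit 12088561673, nat_lit 12529200340], nat_lit 1271250, nat_lit 1271250, nat_lit 230001, nat_lit 490000, nat_lit 1271250, nat_lit 1271250, [nat_lit 1412500, nat_lit 1271250], [nat_lit 51, nat_lit 40, nat_lit 20, nat_lit 80, nat_lit 1, nat_lit 373, nat_lit 150, nat_lit 10]⟩, C1.Rw.none,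
 ⟨nat_lit 6324, nat_lit 6520, ⟨.ofNat (nat_lit 163247), .ofNat (nat_lit 247435), .ofNat (nat_lit 206043), .ofNat (nat_lit 290231), .ofNat (nat_lit 170942), .ofNat (nat_lit 253206), .ofNat (nat_lit 213677), .ofNat (nat_lit 295942)⟩, ⟨.ofNat (nat_lit 307416), .ofNat (nat_lit 391604), .ofNat (nat_lit 328814), .ofNat (nat_lit 413002), .ofNat (nat_lit 307688), .ofNat (nat_lit 389952), .ofNat (nat_lit 329055), .ofNat (nat_lit 411320)⟩⟩, []⟩
noncomputable def t04_l9 : Lf2 := ⟨nat_lit 0, nat_lit 5, [nat_lit 4, nat_lit 5, nat_lit 5, nat_lit 20], false, nat_lit 200, nat_lit 240, nat_lit 0, nat_lit 320, ⟨nat_lit 0, nat_lit 0, nat_lit 1000, nat_lit 5, nat_lit 124, nat_lit 1000, nat_lit 144, nat_lit 1000, nat_lit 194400, nat_lit 323, nat_lit 144150, nat_lit 308, nat_lit 52642901, nat_lit 0, nat_lit 0, nat_lit 3557703, false, false⟩,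
 nat_lit 0, nat_lit 12935, nat_lit 0, nat_lit 0, nat_lit 6186, nat_lit 0, nat_lit 1681, nat_lit 0, nat_lit 0, nat_lit 0, nat_lit 0, nat_lit 0, nat_lit 0, nat_lit 27830577323588, nat_lit 115, nat_lit 1000000, nat_lit 0, nat_lit 0, [(nat_lit 3, [(nat_lit 6, nat_lit 1000)])],
 ⟨t04_k0, nat_lit 0, nat_lit 0, nat_lit 156, nat_lit 0, nat_lit 208593, [nat_lit 3341142858, nat_lit 1499600000, nat_lit 23600000], [], [nat_lit 8647629032, nat_lit 9951274954, nat_lit 8825182782, nat_lit 10060223374, nat_lit 10847484210, nat_lit 12021266314, nat_lit 10910204318, nat_lit 12022203282], nat_lit 1271250, nat_lit 1271250, nat_lit 490000, nat_lit 780000, nat_lit 1271250, nat_lit 1271250, [nat_lit 1412500, nat_lit 1271250, nat_lit 1271250], [nat_lit 25, nat_lit 40, nat_lit 20, nat_lit 80, nat_lit 17, nat_lit 373, nat_lit 150, nat_lit 10]⟩, ⟨t04_k1, nat_lit 0, nat_lit 0, nat_lit 392, nat_lit 0, nat_lit 237491, [nat_lit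 0, nat_lit 0, nat_lit 0], [], [nat_lit 0, nat_lit 0, nat_lit 0, nat_lit 0, nat_lit 0, nat_lit 0, nat_lit 0, nat_lit 0], nat_lit 1271250, nat_lit 1271250, nat_lit 490000, nat_lit 780000, nat_lit 0, nat_lit 2260000, [nat_lit 1412500, nat_lit 1271250, nat_lit 1271250], [nat_lit 53, nat_lit 40, nat_lit 20, nat_lit 80, nat_lit 14, nat_lit 401, nat_lit 175, nat_lit 11]⟩,
 ⟨nat_lit 6324, nat_lit 6709, ⟨.ofNat (nat_lit 241532), .ofNat (nat_lit 327688), .ofNat (nat_lit 284409), .ofNat (nat_lit 370564), .ofNat (nat_lit 253206), .ofNat (nat_lit 335470), .ofNat (nat_lit 295942), .ofNat (nat_lit 378206)⟩, ⟨.ofNat (nat_lit 307053), .ofNat (nat_lit 393209), .ofNat (nat_lit 328491), .ofNat (nat_lit 414647), .ofNat (nat_lit 307688), .ofNat (nat_lit 389952), .ofNat (nat_lit 329055), .ofNat (nat_lit 411320)⟩⟩, []⟩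
noncomputable def t04_l10 : Lf2 := ⟨nat_lit 0, nat_lit 5, [nat_lit 4, nat_lit 5, nat_lit 5, nat_lit 20], true, nat_lit 280, nat_lit 304, nat_lit 0, nat_lit 248, ⟨nat_lit 0, nat_lit 0, nat_lit 1000, nat_lit 5, nat_lit 53, nat_lit 1000, nat_lit 205, nat_lit 1000, nat_lit 4965, nat_lit 231, nat_lit 26667, nat_lit 255, nat_lit 51429681, nat_lit 0, nat_lit 0, nat_lit 3238803, false, false⟩,
 nat_lit 0, nat_lit 9902, nat_lit 0, nat_lit 457617, nat_lit 4735, nat_lit 0, nat_lit 0, nat_lit 0, nat_lit 0, nat_lit 0, nat_lit 0, nat_lit 0, nat_lit 0, nat_lit 0, nat_lit 115, nat_lit 1000000, nat_lit 0, nat_lit 0, [(nat_lit 3, [(nat_lit 6, nat_lit 1000)])],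
 ⟨t04_k4, nat_lit 0, nat_lit 0, nat_lit 203, nat_lit 0, nat_lit 106778, [nat_lit 3341142858, nat_lit 23600000], [], [nat_lit 18336629976, nat_lit 19095369036, nat_lit 16817660986, nat_lit 17566369786, nat_lit 20090684324, nat_lit 21164363728, nat_lit 18138826570, nat_lit 18830991833], nat_lit 1271250, nat_lit 1271250, nat_lit 0, nat_lit 230001, nat_lit 1271250, nat_lit 1271250, [nat_lit 1412500, nat_lit 1271250], [nat_lit 51, nat_lit 40, nat_lit 20, nat_lit 80, nat_lit 1, nat_lit 289, nat_lit 75, nat_lit 8]⟩, C1.Rw.none,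
 ⟨nat_lit 6324, nat_lit 6709, ⟨.ofNat (nat_lit 69221), .ofNat (nat_lit 155377), .ofNat (nat_lit 90659), .ofNat (nat_lit 176815), .ofNat (nat_lit 88677), .ofNat (nat_lit 170942), .ofNat (nat_lit 110045), .ofNat (nat_lit 192309)⟩, ⟨.ofNat (nat_lit 479364), .ofNat (nat_lit 531043), .ofNat (nat_lit 500798), .ofNat (nat_lit 552474), .ofNat (nat_lit 472216), .ofNat (nat_lit 521560), .ofNat (nat_lit 493579), .ofNat (nat_lit 542921)⟩⟩, [⟨nat_lit 0, nat_lit 100, nat_lit 98, nat_lit 30, nat_lit 296672819⟩, ⟨nat_lit 16, nat_lit 100, nat_lit 93, nat_lit 53, nat_lit 10752688172⟩, ⟨nat_lit 16, nat_lit 100, nat_lit 86, nat_lit 60, nat_lit 11627906977⟩, ⟨nat_lit 4, nat_lit 93, nat_lit 100, nat_lit 53, nat_lit 10752688172⟩]⟩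
noncomputable def t04_l11 : Lf2 := ⟨nat_lit 0, nat_lit 2, [nat_lit 10, nat_lit 5, nat_lit 5, nat_lit 20], true, nat_lit 280, nat_lit 304, nat_lit 0, nat_lit 248, ⟨nat_lit 0, nat_lit 0, nat_lit 1000, nat_lit 5, nat_lit 63, nat_lit 1000, nat_lit 205, nat_lit 1000, nat_lit 4965, nat_lit 231, nat_lit 36817, nat_lit 262, nat_lit 50931970, nat_lit 0, nat_lit 0, nat_lit 3387678, false, false⟩,
 nat_lit 0, nat_lit 373060, nat_lit 0, nat_lit 0, nat_lit 178420, nat_lit 0, nat_lit 60000, nat_lit 9317, nat_lit 0, nat_lit 0, nat_lit 0, nat_lit 0, nat_lit 0, nat_lit 217652757199783, nat_lit 0, nat_lit 1000000, nat_lit 0, nat_lit 0, [(nat_lit 3, [(nat_lit 6, nat_lit 1000)])],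
 ⟨t04_k5, nat_lit 0, nat_lit 0, nat_lit 200, nat_lit 0, nat_lit 198571, [nat_lit 187381142858, nat_lit 222347600000], [], [nat_lit 177092176926, nat_lit 183715705883, nat_lit 108538741038, nat_lit 115099613178, nat_lit 202497647724, nat_lit 211546464282, nat_lit 129571645405, nat_lit 136472910469], nat_lit 1271250, nat_lit 1271250, nat_lit 21650, nat_lit 230001, nat_lit 1271250, nat_lit 1271250, [nat_lit 1412500, nat_lit 1271250], [nat_lit 26, nat_lit 40, nat_lit 20, nat_lit 80, nat_lit 2, nat_lit 289, nat_lit 75, nat_lit 9]⟩, C1.Rw.none,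
 ⟨nat_lit 6324, nat_lit 6709, ⟨.ofNat (nat_lit 99275), .ofNat (nat_lit 176815), .ofNat (nat_lit 120713), .ofNat (nat_lit 198253), .ofNat (nat_lit 118272), .ofNat (nat_lit 192309), .ofNat (nat_lit 139640), .ofNat (nat_lit 213677)⟩, ⟨.ofNat (nat_lit 479364), .ofNat (nat_lit 531043), .ofNat (nat_lit 500798), .ofNat (nat_lit 552474), .ofNat (nat_lit 472216), .ofNat (nat_lit 521560), .ofNat (nat_lit 493579), .ofNat (nat_lit 542921)⟩⟩, [⟨nat_lit 0, nat_lit 100, nat_lit 100, nat_lit 40, nat_lit 9635732782⟩, ⟨nat_lit 16, nat_lit 100, nat_lit 93, nat_lit 53, nat_lit 10752688172⟩, ⟨nat_lit 16, nat_lit 100, nat_lit 86, nat_lit 60, nat_lit 11627906977⟩, ⟨nat_lit 4, nat_lit 93, nat_lit 100, nat_lit 53, nat_lit 10752688172⟩]⟩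
noncomputable def t04_l12 : Lf2 := ⟨nat_lit 0, nat_lit 5, [nat_lit 4, nat_lit 5, nat_lit 5, nat_lit 20], true, nat_lit 280, nat_lit 304, nat_lit 0, nat_lit 248, ⟨nat_lit 0, nat_lit 0, nat_lit 1000, nat_lit 5, nat_lit 63, nat_lit 1000, nat_lit 205, nat_lit 1000, nat_lit 4965, nat_lit 231, nat_lit 36817, nat_lit 262, nat_lit 50931970, nat_lit 0, nat_lit 0, nat_lit 3387678, false, false⟩,
 nat_lit 0, nat_lit 10596, nat_lit 0, nat_lit 465022, nat_lit 5067, nat_lit 0, nat_lit 0, nat_lit 0, nat_lit 0, nat_lit 0, nat_lit 0, nat_lit 0, nat_lit 0, nat_lit 400000000000000, nat_lit 83, nat_lit 650800, nat_lit 0, nat_lit 0, [(nat_lit 3, [(nat_lit 5, nat_lit 582), (nat_lit 6, nat_lit 418)])],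
 ⟨t04_k0, nat_lit 0, nat_lit 0, nat_lit 208, nat_lit 0, nat_lit 101352, [nat_lit 3009170515, nat_lit 1035869601, nat_lit 11308800], [], [nat_lit 18343966700, nat_lit 19117425612, nat_lit 16891985924, nat_lit 17655594884, nat_lit 20160598673, nat_lit 21264661775, nat_lit 18255506209, nat_lit 18959540206], nat_lit 1271250, nat_lit 1271250, nat_lit 21650, nat_lit 230001, nat_lit 1271250, nat_lit 1271250, [nat_lit 1412500, nat_lit 1271250, nat_lit 1271250], [nat_lit 25, nat_lit 40, nat_lit 20, nat_lit 80, nat_lit 17, nat_lit 289, nat_lit 75, nat_lit 8]⟩, C1.Rw.none,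
 ⟨nat_lit 6324, nat_lit 6709, ⟨.ofNat (nat_lit 99275), .ofNat (nat_lit 176815), .ofNat (nat_lit 120713), .ofNat (nat_lit 198253), .ofNat (nat_lit 118272), .ofNat (nat_lit 192309), .ofNat (nat_lit 139640), .ofNat (nat_lit 213677)⟩, ⟨.ofNat (nat_lit 479364), .ofNat (nat_lit 531043), .ofNat (nat_lit 500798), .ofNat (nat_lit 552474), .ofNat (nat_lit 472216), .ofNat (nat_lit 521560), .ofNat (nat_lit 493579), .ofNat (nat_lit 542921)⟩⟩, [⟨nat_lit 0, nat_lit 100, nat_lit 100, nat_lit 40, nat_lit 308792438⟩, ⟨nat_lit 16, nat_lit 100, nat_lit 93, nat_lit 53, nat_lit 10752688172⟩, ⟨nat_lit 16, nat_lit 100, nat_lit 86, nat_lit 60, nat_lit 11627906977⟩, ⟨nat_lit 4, nat_lit 93, nat_lit 100, nat_lit 53, nat_lit 10752688172⟩]⟩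
noncomputable def t04_l13 : Lf2 := ⟨nat_lit 0, nat_lit 5, [nat_lit 4, nat_lit 5, nat_lit 5, nat_lit 20], false, nat_lit 240, nat_lit 304, nat_lit 0, nat_lit 320, ⟨nat_lit 0, nat_lit 0, nat_lit 1000, nat_lit 5, nat_lit 124, nat_lit 1000, nat_lit 188, nat_lit 1000, nat_lit 4965, nat_lit 231, nat_lit 144150, nat_lit 308, nat_lit 48830601, nat_lit 0, nat_lit 0, nat_lit 4054254, false, false⟩,
 nat_lit 0, nat_lit 13021, nat_lit 0, nat_lit 0, nat_lit 6227, nat_lit 0, nat_lit 1517, nat_lit 0, nat_lit 0, nat_lit 0, nat_lit 0, nat_lit 0, nat_lit 0, nat_lit 27835822535609, nat_lit 115, nat_lit 1000000, nat_lit 0, nat_lit 0, [(nat_lit 3, [(nat_lit 6, nat_lit 1000)])],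
 ⟨t04_k0, nat_lit 0, nat_lit 0, nat_lit 176, nat_lit 0, nat_lit 208593, [nat_lit 3341142858, nat_lit 1499600000, nat_lit 23600000], [], [nat_lit 11114160446, nat_lit 12009762004, nat_lit 11094972804, nat_lit 11971476324, nat_lit 17009147944, nat_lit 18195709341, nat_lit 16713540135, nat_lit 17848718593], nat_lit 1271250, nat_lit 1271250, nat_lit 490000, nat_lit 780000, nat_lit 1271250, nat_lit 1271250, [nat_lit 1412500, nat_lit 1271250, nat_lit 1271250], [nat_lit 25, nat_lit 40, nat_lit 20, nat_lit 80, nat_lit 17, nat_lit 401, nat_lit 175, nat_lit 11]⟩, ⟨t04_k1, nat_lit 0, nat_lit 0, nat_lit 392, nat_lit 0, nat_lit 237491, [nat_lit 0, nat_lit 0, nat_lit 0], [], [nat_lit 0, nat_lit 0, nat_lit 0, nat_lit 0, nat_lit 0, nat_lit 0, nat_lit 0, nat_lit 0], nat_lit 1271250, nat_lit 1271250, nat_lit 490000, nat_lit 780000, nat_lit 0, nat_lit 2260000, [nat_lit 1412500, nat_lit 1271250, nat_lit 1271250],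 [nat_lit 53, nat_lit 40, nat_lit 20, nat_lit 80, nat_lit 14, nat_lit 401, nat_lit 175, nat_lit 11]⟩,
 ⟨nat_lit 6324, nat_lit 6709, ⟨.ofNat (nat_lit 241532), .ofNat (nat_lit 327688), .ofNat (nat_lit 284409), .ofNat (nat_lit 370564), .ofNat (nat_lit 253206), .ofNat (nat_lit 335470), .ofNat (nat_lit 295942), .ofNat (nat_lit 378206)⟩, ⟨.ofNat (nat_lit 393209), .ofNat (nat_lit 531043), .ofNat (nat_lit 414647), .ofNat (nat_lit 552474), .ofNat (nat_lit 389952), .ofNat (nat_lit 521560), .ofNat (nat_lit 411320), .ofNat (nat_lit 542921)⟩⟩, [⟨nat_lit 4, nat_lit 93, nat_lit 100, nat_lit 53, nat_lit 876647942⟩]⟩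
noncomputable def t04_l14 : Lf2 := ⟨nat_lit 0, nat_lit 5, [nat_lit 4, nat_lit 5, nat_lit 5, nat_lit 20], false, nat_lit 0, nat_lit 320, nat_lit 0, nat_lit 320, ⟨nat_lit 1000, nat_lit 0, nat_lit 0, nat_lit 0, nat_lit 0, nat_lit 0, nat_lit 0, nat_lit 0, nat_lit 0, nat_lit 0, nat_lit 0, nat_lit 0, nat_lit 0, nat_lit 0, nat_lit 0, nat_lit 0, false, false⟩,
 nat_lit 21187, nat_lit 0, nat_lit 0, nat_lit 12209, nat_lit 9080, nat_lit 9080, nat_lit 1921, nat_lit 0, nat_lit 0, nat_lit 1921, nat_lit 0, nat_lit 0, nat_lit 0, nat_lit 0, nat_lit 0, nat_lit 0, nat_lit 0, nat_lit 0, [],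
 ⟨t04_k1, nat_lit 0, nat_lit 0, nat_lit 378, nat_lit 0, nat_lit 237491, [nat_lit 6250000000, nat_lit 7968000001, nat_lit 11872000000], [], [nat_lit 30047898126, nat_lit 31059361166, nat_lit 40717140045, nat_lit 41549735360, nat_lit 34595051680, nat_lit 27766430606, nat_lit 35226461920, nat_lit 35791714880], nat_lit 1271250, nat_lit 1271250, nat_lit 1271250, nat_lit 1271250, nat_lit 0, nat_lit 2260000, [nat_lit 1412500, nat_lit 1271250, nat_lit 1271250], [nat_lit 53, nat_lit 40, nat_lit 20, nat_lit 80, nat_lit 14, nat_lit 483, nat_lit 250, nat_lit 12]⟩, ⟨t04_k1, nat_lit 0, nat_lit 0, nat_lit 378, nat_lit 0, nat_lit 237491, [nat_lit 6250000000, nat_lit 7968000000, nat_lit 11872000000], [], [nat_lit 30047898125, nat_lit 31059361165, nat_lit 40717140045, nat_lit 41549735360, nat_lit 34595051680, nat_lit 27766430605, nat_lit 35226461920, nat_lit 35791714880], nat_lit 1271250, nat_lit 1271250, nat_lit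 1271250, nat_lit 1271250, nat_lit 0, nat_lit 2260000, [nat_lit 1412500, nat_lit 1271250, nat_lit 1271250], [nat_lit 53, nat_lit 40, nat_lit 20, nat_lit 80, nat_lit 14, nat_lit 483, nat_lit 250, nat_lit 12]⟩,
 zbF0, [⟨nat_lit 16, nat_lit 100, nat_lit 90, nat_lit 53, nat_lit 180235505⟩, ⟨nat_lit 7, nat_lit 90, nat_lit 100, nat_lit 53, nat_lit 180235505⟩]⟩
theorem r_VL_500_500_5 (h : EB TB.env) : Dead (RC.box ⟨true, 40, 200, 240, 200, 240, 20, 40, [20]⟩ 0 20) := chkB_sound h (refs := [b_VL_500_500_5_0, b_VL_500_500_5_1, b_VL_500_500_5_2, b_VL_500_500_5_3, b_VL_500_500_5_4, b_VL_500_500_5_5, b_VL_500_500_5_6, b_VL_500_500_5_7, b_VL_500_500_5_8, b_VL_500_500_5_9, b_VL_500_500_5_10, b_VL_500_500_5_11, b_VL_500_500_5_12, b_VL_500_500_5_13, b_VL_500_500_5_14, b_VL_500_500_5_15, b_VL_500_500_5_16, b_VL_500_500_5_17, b_VL_500_500_5_18, b_VL_500_500_5_19, b_VL_500_500_5_20, b_VL_500_500_5_21, b_VL_500_500_5_22,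 b_VL_500_500_5_23, b_VL_500_500_5_24, b_VL_500_500_5_25, b_VL_500_500_5_26, b_VL_500_500_5_27, b_VL_500_500_5_28, b_VL_500_500_5_29, b_VL_500_500_5_30, b_VL_500_500_5_31, b_VL_500_500_5_32, b_VL_500_500_5_33, b_VL_500_500_5_34, b_VL_500_500_5_35, b_VL_500_500_5_36, b_VL_500_500_5_37]) (refs_cons (d_VL_500_500_5_0 h) (refs_cons (d_VL_500_500_5_1 h) (refs_cons (d_VL_500_500_5_2 h) (refs_cons (d_VL_500_500_5_3 h) (refs_cons (d_VL_500_500_5_4 h) (refs_cons (d_VL_500_500_5_5 h) (refs_cons (d_VL_500_500_5_6 h) (refs_cons (d_VL_500_500_5_7 h) (refs_cons (d_VL_500_500_5_8 h) (refs_cons (d_VL_500_500_5_9 h) (refs_cons (d_VL_500_500_5_10 h) (refs_cons (d_VL_500_500_5_11 h) (refs_cons (d_VL_500_500_5_12 h) (refs_cons (d_VL_500_500_5_13 h) (refs_cons (d_VL_500_500_5_14 h) (refs_cons (d_VL_500_500_5_15 h) (refs_cons (d_VL_500_500_5_16 h) (refs_cons (d_VL_500_500_5_17 h) (refs_cons (d_VL_500_500_5_18 h)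 (refs_cons (d_VL_500_500_5_19 h) (refs_cons (d_VL_500_500_5_20 h) (refs_cons (d_VL_500_500_5_21 h) (refs_cons (d_VL_500_500_5_22 h) (refs_cons (d_VL_500_500_5_23 h) (refs_cons (d_VL_500_500_5_24 h) (refs_cons (d_VL_500_500_5_25 h) (refs_cons (d_VL_500_500_5_26 h) (refs_cons (d_VL_500_500_5_27 h) (refs_cons (d_VL_500_500_5_28 h) (refs_cons (d_VL_500_500_5_29 h) (refs_cons (d_VL_500_500_5_30 h) (refs_cons (d_VL_500_500_5_31 h) (refs_cons (d_VL_500_500_5_32 h) (refs_cons (d_VL_500_500_5_33 h) (refs_cons (d_VL_500_500_5_34 h) (refs_cons (d_VL_500_500_5_35 h) (refs_cons (d_VL_500_500_5_36 h) (refs_cons (d_VL_500_500_5_37 h) (refs_nil))))))))))))))))))))))))))))))))))))))) (T :=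
(.trX (nat_lit 16) (nat_lit 100) (nat_lit 80) (nat_lit 60) (nat_lit 320) (.trX (nat_lit 19) (nat_lit 100) (nat_lit 80) (nat_lit 60) (nat_lit 320) (.st (nat_lit 0)
(.gv
(.st (nat_lit 1)
(.ref (nat_lit 0))
(.ref (nat_lit 1)))
(.ref (nat_lit 2)))
(.gv
(.st (nat_lit 1)
(.spl (nat_lit 2) (nat_lit 240)
(.spl (nat_lit 0) (nat_lit 220)
(.ord (.leaf t04_l0))
(.trX (nat_lit 16) (nat_lit 100) (nat_lit 86) (nat_lit 60) (nat_lit 304) (.spl (nat_lit 4) (nat_lit 160)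
(.spl (nat_lit 2) (nat_lit 120)
(.spl (nat_lit 2) (nat_lit 80)
(.spl (nat_lit 4) (nat_lit 80)
(.spl (nat_lit 4) (nat_lit 40)
(.ref (nat_lit 3))
(.ref (nat_lit 4)))
(.ref (nat_lit 5)))
(.ref (nat_lit 6)))
(.ref (nat_lit 7)))
(.spl (nat_lit 2) (nat_lit 120)
(.spl (nat_lit 4) (nat_lit 240)
(.spl (nat_lit 2) (nat_lit 80)
(.spl (nat_lit 4) (nat_lit 200)
(.ref (nat_lit 8))
(.ref (nat_lit 9)))
(.ref (nat_lit 10)))
(.spl (nat_lit 2) (nat_lit 80)
(.spl (nat_lit 2) (nat_lit 40)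
(.trX (nat_lit 23) (nat_lit 100) (nat_lit 92) (nat_lit 61) (nat_lit 288) (.spl (nat_lit 4) (nat_lit 280)
(.spl (nat_lit 1) (nat_lit 220)
(.ref (nat_lit 11))
(.trZ (nat_lit 0) (nat_lit 100) (nat_lit 100) (nat_lit 20) (nat_lit 4) (.spl (nat_lit 1) (nat_lit 230)
(.ref (nat_lit 12))
(.ref (nat_lit 13)))))
(.ref (nat_lit 14))))
(.ref (nat_lit 15)))
(.ref (nat_lit 16))))
(.ref (nat_lit 17))))))
(.spl (nat_lit 0) (nat_lit 220)
(.ord (.leaf t04_l1))
(.trX (nat_lit 16) (nat_lit 100) (nat_lit 86) (nat_lit 60) (nat_lit 304) (.leaf t04_l2))))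
(.spl (nat_lit 2) (nat_lit 240)
(.spl (nat_lit 0) (nat_lit 220)
(.ord (.leaf t04_l3))
(.trX (nat_lit 16) (nat_lit 100) (nat_lit 86) (nat_lit 60) (nat_lit 304) (.spl (nat_lit 4) (nat_lit 160)
(.spl (nat_lit 2) (nat_lit 120)
(.spl (nat_lit 4) (nat_lit 80)
(.ref (nat_lit 18))
(.ref (nat_lit 19)))
(.ref (nat_lit 20)))
(.spl (nat_lit 2) (nat_lit 120)
(.spl (nat_lit 4) (nat_lit 240)
(.spl (nat_lit 4) (nat_lit 200)
(.ref (nat_lit 21))
(.spl (nat_lit 2) (nat_lit 80)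
(.spl (nat_lit 0) (nat_lit 230)
(.ord (.leaf t04_l4))
(.spl (nat_lit 2) (nat_lit 40)
(.spl (nat_lit 6) (nat_lit 8)
(.spl (nat_lit 2) (nat_lit 20)
(.trX (nat_lit 23) (nat_lit 100) (nat_lit 90) (nat_lit 44) (nat_lit 288) (.spl (nat_lit 0) (nat_lit 235)
(.ref (nat_lit 22))
(.spl (nat_lit 6) (nat_lit 4)
(.spl (nat_lit 1) (nat_lit 220)
(.leaf t04_l5)
(.trZ (nat_lit 0) (nat_lit 100) (nat_lit 99) (nat_lit 27) (nat_lit 4) (.spl (nat_lit 4) (nat_lit 220)
(.leaf t04_l6)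
(.trX (nat_lit 23) (nat_lit 100) (nat_lit 94) (nat_lit 44) (nat_lit 272) (.spl (nat_lit 1) (nat_lit 230)
(.leaf t04_l7)
(.trZ (nat_lit 0) (nat_lit 100) (nat_lit 100) (nat_lit 32) (nat_lit 8) (.spl (nat_lit 1) (nat_lit 235)
(.ref (nat_lit 23))
(.ref (nat_lit 24)))))))))
(.ref (nat_lit 25)))))
(.ref (nat_lit 26)))
(.ref (nat_lit 27)))
(.leaf t04_l8)))
(.leaf t04_l9)))
(.spl (nat_lit 2) (nat_lit 80)
(.spl (nat_lit 2) (nat_lit 40)
(.trX (nat_lit 23) (nat_lit 100) (nat_lit 92) (nat_lit 61) (nat_lit 288) (.spl (nat_lit 4) (nat_lit 280)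
(.spl (nat_lit 1) (nat_lit 220)
(.ref (nat_lit 28))
(.trZ (nat_lit 0) (nat_lit 100) (nat_lit 100) (nat_lit 20) (nat_lit 4) (.spl (nat_lit 1) (nat_lit 230)
(.ref (nat_lit 29))
(.ord (.trZ (nat_lit 0) (nat_lit 100) (nat_lit 100) (nat_lit 30) (nat_lit 8) (.spl (nat_lit 6) (nat_lit 8)
(.ref (nat_lit 30))
(.spl (nat_lit 6) (nat_lit 16)
(.ref (nat_lit 31))
(.ref (nat_lit 32)))))))))
(.trX (nat_lit 23) (nat_lit 94) (nat_lit 100) (nat_lit 62) (nat_lit 248) (.spl (nat_lit 1) (nat_lit 220)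
(.leaf t04_l10)
(.trZ (nat_lit 0) (nat_lit 100) (nat_lit 100) (nat_lit 20) (nat_lit 4) (.spl (nat_lit 6) (nat_lit 8)
(.spl (nat_lit 7) (nat_lit 600)
(.spl (nat_lit 0) (nat_lit 230)
(.ref (nat_lit 33))
(.ref (nat_lit 34)))
(.leaf t04_l11))
(.leaf t04_l12)))))))
(.ref (nat_lit 35)))
(.leaf t04_l13)))
(.ref (nat_lit 36))))))
(.leaf t04_l14)))
(.ref (nat_lit 37))))))) (by decide +kernel)
theorem done_VL_500_500_5 (h : EB TB.env) : RC.Done ⟨true, 40, 200, 240, 200, 240, 20, 40, [20]⟩ := RC.done1 (r_VL_500_500_5 h) (t_VL_500_500_5 h)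
theorem t_VL_600_400_5 (h : EB TB.env) : RC.Tail ⟨true, 40, 240, 280, 160, 200, 20, 40, [32]⟩ := RC.tail_chk h (b := ⟨nat_lit 20, nat_lit 16, nat_lit 5, nat_lit 5, nat_lit 20, nat_lit 215, nat_lit 10, nat_lit 34, nat_lit 0⟩) (by decide +kernel)
theorem r_VL_600_400_5 (h : EB TB.env) : Dead (RC.box ⟨true, 40, 240, 280, 160, 200, 20, 40, [32]⟩ 0 32) := chkB_sound h (refs := [b_VL_600_400_5_0, b_VL_600_400_5_1, b_VL_600_400_5_2, b_VL_600_400_5_3, b_VL_600_400_5_4, b_VL_600_400_5_5, b_VL_600_400_5_6]) (refs_cons (d_VL_600_400_5_0 h) (refs_cons (d_VL_600_400_5_1 h) (refs_cons (d_VL_600_400_5_2 h) (refs_cons (d_VL_600_400_5_3 h) (refs_cons (d_VL_600_400_5_4 h) (refs_cons (d_VL_600_400_5_5 h) (refs_cons (d_VL_600_400_5_6 h) (refs_nil)))))))) (T :=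
(.trX (nat_lit 13) (nat_lit 98) (nat_lit 20) (nat_lit 100) (nat_lit 396) (.trX (nat_lit 16) (nat_lit 100) (nat_lit 92) (nat_lit 61) (nat_lit 288) (.trX (nat_lit 19) (nat_lit 100) (nat_lit 68) (nat_lit 61) (nat_lit 352) (.st (nat_lit 0)
(.ref (nat_lit 0))
(.gv
(.st (nat_lit 1)
(.spl (nat_lit 2) (nat_lit 160)
(.spl (nat_lit 4) (nat_lit 160)
(.ref (nat_lit 1))
(.ref (nat_lit 2)))
(.ref (nat_lit 3)))
(.spl (nat_lit 2) (nat_lit 160)
(.ref (nat_lit 4))
(.ref (nat_lit 5))))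
(.ref (nat_lit 6)))))))) (by decide +kernel)
theorem done_VL_600_400_5 (h : EB TB.env) : RC.Done ⟨true, 40, 240, 280, 160, 200, 20, 40, [32]⟩ := RC.done1 (r_VL_600_400_5 h) (t_VL_600_400_5 h)
theorem t_VL_600_500_5 (h : EB TB.env) : RC.Tail ⟨true, 40, 240, 280, 200, 240, 20, 40, [48]⟩ := RC.tail_chk h (b := ⟨nat_lit 20, nat_lit 24, nat_lit 5, nat_lit 5, nat_lit 20, nat_lit 215, nat_lit 10, nat_lit 33, nat_lit 0⟩) (by decide +kernel)
noncomputable def t04_l15 : Lf2 := ⟨nat_lit 1, nat_lit 10, [nat_lit 0, nat_lit 5, nat_lit 5, nat_lit 20], false, nat_lit 0, nat_lit 160, nat_lit 0, nat_lit 320, zbN0,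
 nat_lit 0, nat_lit 0, nat_lit 0, nat_lit 0, nat_lit 0, nat_lit 0, nat_lit 0, nat_lit 0, nat_lit 0, nat_lit 0, nat_lit 0, nat_lit 0, nat_lit 0, nat_lit 0, nat_lit 0, nat_lit 0, nat_lit 0, nat_lit 0, [],
 C1.Rw.none, C1.Rw.none,
 zbF0, []⟩
noncomputable def t04_l16 : Lf2 := ⟨nat_lit 0, nat_lit 10, [nat_lit 0, nat_lit 5, nat_lit 5, nat_lit 20], false, nat_lit 0, nat_lit 160, nat_lit 0, nat_lit 320, ⟨nat_lit 0, nat_lit 0, nat_lit 1000, nat_lit 5, nat_lit 84, nat_lit 0, nat_lit 48, nat_lit 371, nat_lit 10417, nat_lit 240, nat_lit 66150, nat_lit 278, nat_lit 64146916, nat_lit 0, nat_lit 0, nat_lit 880332, false, false⟩,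
 nat_lit 0, nat_lit 3817, nat_lit 0, nat_lit 3878, nat_lit 2020, nat_lit 574576, nat_lit 0, nat_lit 0, nat_lit 0, nat_lit 0, nat_lit 20000, nat_lit 0, nat_lit 0, nat_lit 0, nat_lit 166, nat_lit 1000000, nat_lit 0, nat_lit 0, [(nat_lit 6, [(nat_lit 6, nat_lit 1000)]), (nat_lit 9, [(nat_lit 6, nat_lit 1000)])],
 ⟨t04_k6, nat_lit 0, nat_lit 0, nat_lit 559, nat_lit 0, nat_lit 438836, [nat_lit 4113520001, nat_lit 348400000], [], [nat_lit 27236335699, nat_lit 25103474259, nat_lit 23210684163, nat_lit 23848588084, nat_lit 23722839157, nat_lit 24718569365, nat_lit 25787288882, nat_lit 24759695844], nat_lit 1271250, nat_lit 1271250, nat_lit 21650, nat_lit 490000, nat_lit 0, nat_lit 1100001, [nat_lit 1100000, nat_lit 2470000], [nat_lit 116, nat_lit 40, nat_lit 20, nat_lit 80, nat_lit 65, nat_lit 373, nat_lit 150, nat_lit 10]⟩, ⟨t04_k7, nat_lit 0, nat_lit 0, nat_lit 363, nat_lit 0, nat_lit 0, [nat_lit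 400000000000, nat_lit 640000000000], [], [nat_lit 1574347930228, nat_lit 1586990900532, nat_lit 1122991362240, nat_lit 1135912427328, nat_lit 934347948903, nat_lit 946990900532, nat_lit 534809402560, nat_lit 506735619200], nat_lit 0, nat_lit 0, nat_lit 0, nat_lit 0, nat_lit 0, nat_lit 0, [], [nat_lit 107, nat_lit 40, nat_lit 20, nat_lit 80, nat_lit 12, nat_lit 401, nat_lit 175, nat_lit 11]⟩,
 ⟨nat_lit 5477, nat_lit 6325, ⟨.ofNat (nat_lit 96904), .ofNat (nat_lit 253206), .ofNat (nat_lit 139640), .ofNat (nat_lit 295942), .ofNat (nat_lit 132827), .ofNat (nat_lit 275199), .ofNat (nat_lit 175541), .ofNat (nat_lit 317913)⟩, ⟨.negSucc (nat_lit 103633), .ofNat (nat_lit 225423), .negSucc (nat_lit 82265), .ofNat (nat_lit 246791), .negSucc (nat_lit 66879), .ofNat (nat_lit 232852), .negSucc (nat_lit 45522), .ofNat (nat_lit 254209)⟩⟩, [⟨nat_lit 0, nat_lit 100, nat_lit 96, nat_lit 40, nat_lit 417919689⟩,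 ⟨nat_lit 0, nat_lit 100, nat_lit 98, nat_lit 20, nat_lit 10204081633⟩]⟩
noncomputable def t04_l17 : Lf2 := ⟨nat_lit 0, nat_lit 8, [nat_lit 50, nat_lit 5, nat_lit 5, nat_lit 20], false, nat_lit 160, nat_lit 288, nat_lit 0, nat_lit 320, ⟨nat_lit 0, nat_lit 0, nat_lit 1000, nat_lit 5, nat_lit 82, nat_lit 1000, nat_lit 147, nat_lit 1000, nat_lit 25350, nat_lit 254, nat_lit 62017, nat_lit 276, nat_lit 55473898, nat_lit 0, nat_lit 0, nat_lit 2973690, false, false⟩,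
 nat_lit 0, nat_lit 0, nat_lit 0, nat_lit 206838, nat_lit 0, nat_lit 406665, nat_lit 0, nat_lit 0, nat_lit 0, nat_lit 60000, nat_lit 20000, nat_lit 0, nat_lit 0, nat_lit 0, nat_lit 50, nat_lit 250000, nat_lit 0, nat_lit 0, [(nat_lit 6, [(nat_lit 4, nat_lit 1000)])],
 ⟨t04_k8, nat_lit 0, nat_lit 0, nat_lit 311, nat_lit 0, nat_lit 303330, [nat_lit 3654400001, nat_lit 1089200000, nat_lit 21200000], [], [nat_lit 28770076003, nat_lit 29383925603, nat_lit 30115892003, nat_lit 30706086003, nat_lit 32323344963, nat_lit 32868266323, nat_lit 33545918403, nat_lit 34072138403], nat_lit 1271250, nat_lit 1271250, nat_lit 21650, nat_lit 490000, nat_lit 1100001, nat_lit 2196000, [nat_lit 1100000, nat_lit 1442500, nat_lit 1271250], [nat_lit 11, nat_lit 40, nat_lit 20, nat_lit 80, nat_lit 1, nat_lit 401, nat_lit 175, nat_lit 12]⟩, ⟨t04_k9, nat_lit 0, nat_lit 0, nat_lit 370, nat_lit 0, nat_lit 0, [nat_lit 400000000000,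 nat_lit 480000000000, nat_lit 640000000000], [], [nat_lit 966897331948, nat_lit 1010943093544, nat_lit 657370285840, nat_lit 688558238020, nat_lit 649016774188, nat_lit 657965030849, nat_lit 345490764040, nat_lit 338707304620], nat_lit 0, nat_lit 0, nat_lit 0, nat_lit 0, nat_lit 0, nat_lit 0, [], [nat_lit 53, nat_lit 40, nat_lit 20, nat_lit 80, nat_lit 14, nat_lit 401, nat_lit 175, nat_lit 11]⟩,
 ⟨nat_lit 5916, nat_lit 6325, ⟨.ofNat (nat_lit 96904), .ofNat (nat_lit 253206), .ofNat (nat_lit 139640), .ofNat (nat_lit 295942), .ofNat (nat_lit 115184), .ofNat (nat_lit 264398), .ofNat (nat_lit 157863), .ofNat (nat_lit 307076)⟩, ⟨.ofNat (nat_lit 225423), .ofNat (nat_lit 488669), .ofNat (nat_lit 246791), .ofNat (nat_lit 510037), .ofNat (nat_lit 229411), .ofNat (nat_lit 480719), .ofNat (nat_lit 250751), .ofNat (nat_lit 502058)⟩⟩, [⟨nat_lit 0, nat_lit 100, nat_lit 97, nat_lit 35, nat_lit 10309278351⟩,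 ⟨nat_lit 0, nat_lit 100, nat_lit 97, nat_lit 49, nat_lit 10309278351⟩, ⟨nat_lit 19, nat_lit 100, nat_lit 80, nat_lit 60, nat_lit 7474525918⟩]⟩
noncomputable def t04_l18 : Lf2 := ⟨nat_lit 1, nat_lit 10, [nat_lit 0, nat_lit 5, nat_lit 5, nat_lit 20], false, nat_lit 160, nat_lit 288, nat_lit 0, nat_lit 320, zbN0,
 nat_lit 0, nat_lit 0, nat_lit 0, nat_lit 0, nat_lit 0, nat_lit 0, nat_lit 0, nat_lit 0, nat_lit 0, nat_lit 0, nat_lit 0, nat_lit 0, nat_lit 0, nat_lit 0, nat_lit 0, nat_lit 0, nat_lit 0, nat_lit 0, [],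
 C1.Rw.none, C1.Rw.none,
 zbF0, []⟩
noncomputable def t04_l19 : Lf2 := ⟨nat_lit 1, nat_lit 10, [nat_lit 0, nat_lit 5, nat_lit 5, nat_lit 20], false, nat_lit 160, nat_lit 240, nat_lit 0, nat_lit 320, zbN0,
 nat_lit 0, nat_lit 0, nat_lit 0, nat_lit 0, nat_lit 0, nat_lit 0, nat_lit 0, nat_lit 0, nat_lit 0, nat_lit 0, nat_lit 0, nat_lit 0, nat_lit 0, nat_lit 0, nat_lit 0, nat_lit 0, nat_lit 0, nat_lit 0, [],
 C1.Rw.none, C1.Rw.none,
 zbF0, []⟩
noncomputable def t04_l20 : Lf2 := ⟨nat_lit 0, nat_lit 10, [nat_lit 0, nat_lit 5, nat_lit 5, nat_lit 20], false, nat_lit 240, nat_lit 288, nat_lit 0, nat_lit 320, ⟨nat_lit 0, nat_lit 0, nat_lit 1000, nat_lit 5, nat_lit 130, nat_lit 1000, nat_lit 178, nat_lit 1000, nat_lit 29345, nat_lit 255, nat_lit 156817, nat_lit 312, nat_lit 49336414, nat_lit 0, nat_lit 0, nat_lit 4020124, false, false⟩,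
 nat_lit 0, nat_lit 8960, nat_lit 0, nat_lit 0, nat_lit 4743, nat_lit 0, nat_lit 220, nat_lit 0, nat_lit 0, nat_lit 0, nat_lit 0, nat_lit 0, nat_lit 0, nat_lit 0, nat_lit 166, nat_lit 1000000, nat_lit 0, nat_lit 0, [(nat_lit 6, [(nat_lit 6, nat_lit 1000)]), (nat_lit 9, [(nat_lit 6, nat_lit 1000)])],
 ⟨t04_k10, nat_lit 0, nat_lit 0, nat_lit 353, nat_lit 0, nat_lit 438836, [nat_lit 3753600001, nat_lit 3172240001, nat_lit 348400000], [], [nat_lit 13316737184, nat_lit 15550893332, nat_lit 13538055151, nat_lit 15605536496, nat_lit 16396237163, nat_lit 19097185024, nat_lit 16408831591, nat_lit 18988352336], nat_lit 1271250, nat_lit 1271250, nat_lit 490000, nat_lit 780000, nat_lit 1271250, nat_lit 1271250, [nat_lit 1100000, nat_lit 1442500, nat_lit 1271250], [nat_lit 48, nat_lit 40, nat_lit 20, nat_lit 80, nat_lit 12, nat_lit 401, nat_lit 175, nat_lit 10]⟩, ⟨t04_k11, nat_lit 0, nat_lit 0, nat_lit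 577, nat_lit 0, nat_lit 567396, [nat_lit 0, nat_lit 0, nat_lit 0], [], [nat_lit 0, nat_lit 0, nat_lit 0, nat_lit 0, nat_lit 0, nat_lit 0, nat_lit 0, nat_lit 0], nat_lit 1271250, nat_lit 1271250, nat_lit 490000, nat_lit 780000, nat_lit 0, nat_lit 2260000, [nat_lit 1412500, nat_lit 1271250, nat_lit 1271250], [nat_lit 53, nat_lit 40, nat_lit 20, nat_lit 80, nat_lit 14, nat_lit 401, nat_lit 175, nat_lit 11]⟩,
 ⟨nat_lit 5477, nat_lit 6325, ⟨.ofNat (nat_lit 253206), .ofNat (nat_lit 335470), .ofNat (nat_lit 295942), .ofNat (nat_lit 378206), .ofNat (nat_lit 275199), .ofNat (nat_lit 350132), .ofNat (nat_lit 317913), .ofNat (nat_lit 392847)⟩, ⟨.ofNat (nat_lit 389952), .ofNat (nat_lit 488669), .ofNat (nat_lit 411320), .ofNat (nat_lit 510037), .ofNat (nat_lit 382718), .ofNat (nat_lit 472638), .ofNat (nat_lit 404075), .ofNat (nat_lit 493995)⟩⟩, [⟨nat_lit 4, nat_lit 100, nat_lit 98, nat_lit 54, nat_lit 688800786⟩]⟩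
theorem r_VL_600_500_5 (h : EB TB.env) : Dead (RC.box ⟨true, 40, 240, 280, 200, 240, 20, 40, [48]⟩ 0 48) := chkB_sound h (refs := [b_VL_600_500_5_0, b_VL_600_500_5_1, b_VL_600_500_5_2, b_VL_600_500_5_3, b_VL_600_500_5_4, b_VL_600_500_5_5, b_VL_600_500_5_6, b_VL_600_500_5_7, b_VL_600_500_5_8, b_VL_600_500_5_9, b_VL_600_500_5_10, b_VL_600_500_5_11, b_VL_600_500_5_12, b_VL_600_500_5_13, b_VL_600_500_5_14, b_VL_600_500_5_15, b_VL_600_500_5_16, b_VL_600_500_5_17, b_VL_600_500_5_18, b_VL_600_500_5_19, b_VL_600_500_5_20, b_VL_600_500_5_21, b_VL_600_500_5_22, b_VL_600_500_5_23, b_VL_600_500_5_24, b_VL_600_500_5_25, b_VL_600_500_5_26, b_VL_600_500_5_27, b_VL_600_500_5_28, b_VL_600_500_5_29, b_VL_600_500_5_30, b_VL_600_500_5_31, b_VL_600_500_5_32, b_VL_600_500_5_33, b_VL_600_500_5_34, b_VL_600_500_5_35]) (refs_cons (d_VL_600_500_5_0 h) (refs_cons (d_VL_600_500_5_1 h) (refs_cons (d_VL_600_500_5_2 h) (refs_cons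 (d_VL_600_500_5_3 h) (refs_cons (d_VL_600_500_5_4 h) (refs_cons (d_VL_600_500_5_5 h) (refs_cons (d_VL_600_500_5_6 h) (refs_cons (d_VL_600_500_5_7 h) (refs_cons (d_VL_600_500_5_8 h) (refs_cons (d_VL_600_500_5_9 h) (refs_cons (d_VL_600_500_5_10 h) (refs_cons (d_VL_600_500_5_11 h) (refs_cons (d_VL_600_500_5_12 h) (refs_cons (d_VL_600_500_5_13 h) (refs_cons (d_VL_600_500_5_14 h) (refs_cons (d_VL_600_500_5_15 h) (refs_cons (d_VL_600_500_5_16 h) (refs_cons (d_VL_600_500_5_17 h) (refs_cons (d_VL_600_500_5_18 h) (refs_cons (d_VL_600_500_5_19 h) (refs_cons (d_VL_600_500_5_20 h) (refs_cons (d_VL_600_500_5_21 h) (refs_cons (d_VL_600_500_5_22 h) (refs_cons (d_VL_600_500_5_23 h) (refs_cons (d_VL_600_500_5_24 h) (refs_cons (d_VL_600_500_5_25 h) (refs_cons (d_VL_600_500_5_26 h) (refs_cons (d_VL_600_500_5_27 h) (refs_cons (d_VL_600_500_5_28 h) (refs_cons (d_VL_600_500_5_29 h) (refs_cons (d_VL_600_500_5_30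 h) (refs_cons (d_VL_600_500_5_31 h) (refs_cons (d_VL_600_500_5_32 h) (refs_cons (d_VL_600_500_5_33 h) (refs_cons (d_VL_600_500_5_34 h) (refs_cons (d_VL_600_500_5_35 h) (refs_nil))))))))))))))))))))))))))))))))))))) (T :=
(.trZ (nat_lit 0) (nat_lit 100) (nat_lit 98) (nat_lit 20) (nat_lit 4) (.trX (nat_lit 16) (nat_lit 100) (nat_lit 92) (nat_lit 61) (nat_lit 288) (.trX (nat_lit 19) (nat_lit 100) (nat_lit 80) (nat_lit 60) (nat_lit 320) (.spl (nat_lit 6) (nat_lit 40)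
(.st (nat_lit 0)
(.gv
(.st (nat_lit 1)
(.ref (nat_lit 0))
(.spl (nat_lit 2) (nat_lit 240)
(.ref (nat_lit 1))
(.ref (nat_lit 2))))
(.ref (nat_lit 3)))
(.gv
(.st (nat_lit 1)
(.spl (nat_lit 2) (nat_lit 240)
(.spl (nat_lit 4) (nat_lit 160)
(.spl (nat_lit 2) (nat_lit 160)
(.spl (nat_lit 2) (nat_lit 80)
(.spl (nat_lit 8) (nat_lit 800)
(.spl (nat_lit 0) (nat_lit 260)
(.spl (nat_lit 6) (nat_lit 32)
(.spl (nat_lit 4) (nat_lit 80)
(.ref (nat_lit 4))
(.ref (nat_lit 5)))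
(.leaf t04_l15))
(.ref (nat_lit 6)))
(.leaf t04_l16))
(.ref (nat_lit 7)))
(.ref (nat_lit 8)))
(.spl (nat_lit 0) (nat_lit 260)
(.spl (nat_lit 6) (nat_lit 32)
(.spl (nat_lit 2) (nat_lit 160)
(.spl (nat_lit 2) (nat_lit 80)
(.spl (nat_lit 8) (nat_lit 800)
(.spl (nat_lit 1) (nat_lit 220)
(.ref (nat_lit 9))
(.trZ (nat_lit 0) (nat_lit 100) (nat_lit 98) (nat_lit 30) (nat_lit 8) (.trX (nat_lit 19) (nat_lit 100) (nat_lit 86) (nat_lit 60) (nat_lit 304) (.spl (nat_lit 0) (nat_lit 250)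
(.ref (nat_lit 10))
(.ref (nat_lit 11))))))
(.leaf t04_l17))
(.ref (nat_lit 12)))
(.ref (nat_lit 13)))
(.leaf t04_l18))
(.ref (nat_lit 14))))
(.ref (nat_lit 15)))
(.spl (nat_lit 2) (nat_lit 240)
(.spl (nat_lit 4) (nat_lit 160)
(.spl (nat_lit 2) (nat_lit 160)
(.spl (nat_lit 4) (nat_lit 80)
(.spl (nat_lit 2) (nat_lit 120)
(.spl (nat_lit 6) (nat_lit 20)
(.ref (nat_lit 16))
(.ref (nat_lit 17)))
(.ref (nat_lit 18)))
(.spl (nat_lit 2) (nat_lit 120)
(.ref (nat_lit 19))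
(.ref (nat_lit 20))))
(.ref (nat_lit 21)))
(.spl (nat_lit 4) (nat_lit 240)
(.spl (nat_lit 2) (nat_lit 160)
(.spl (nat_lit 2) (nat_lit 120)
(.spl (nat_lit 0) (nat_lit 260)
(.spl (nat_lit 6) (nat_lit 32)
(.spl (nat_lit 4) (nat_lit 200)
(.ref (nat_lit 22))
(.ref (nat_lit 23)))
(.leaf t04_l19))
(.ref (nat_lit 24)))
(.ref (nat_lit 25)))
(.ref (nat_lit 26)))
(.spl (nat_lit 2) (nat_lit 120)
(.spl (nat_lit 2) (nat_lit 80)
(.spl (nat_lit 2) (nat_lit 40)
(.ref (nat_lit 27))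
(.ref (nat_lit 28)))
(.leaf t04_l20))
(.ref (nat_lit 29)))))
(.ref (nat_lit 30))))
(.st (nat_lit 1)
(.ref (nat_lit 31))
(.ref (nat_lit 32)))))
(.st (nat_lit 0)
(.ref (nat_lit 33))
(.gv
(.ref (nat_lit 34))
(.ref (nat_lit 35))))))))) (by decide +kernel)
theorem done_VL_600_500_5 (h : EB TB.env) : RC.Done ⟨true, 40, 240, 280, 200, 240, 20, 40, [48]⟩ := RC.done1 (r_VL_600_500_5 h) (t_VL_600_500_5 h)
theorem t_VL_600_600_5 (h : EB TB.env) : RC.Tail ⟨true, 40, 240, 280, 240, 280, 20, 40, [68]⟩ := RC.tail_chk h (b := ⟨nat_lit 20, nat_lit 34, nat_lit 5, nat_lit 5, nat_lit 20, nat_lit 215, nat_lit 10, nat_lit 32, nat_lit 0⟩) (by decide +kernel)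
noncomputable def t04_l21 : Lf2 := ⟨nat_lit 0, nat_lit 10, [nat_lit 0, nat_lit 5, nat_lit 5, nat_lit 20], false, nat_lit 160, nat_lit 288, nat_lit 0, nat_lit 288, ⟨nat_lit 0, nat_lit 0, nat_lit 1000, nat_lit 6, nat_lit 99, nat_lit 1000, nat_lit 147, nat_lit 1000, nat_lit 25350, nat_lit 254, nat_lit 91267, nat_lit 289, nat_lit 54278884, nat_lit 0, nat_lit 0, nat_lit 3237304, false, false⟩,
 nat_lit 0, nat_lit 3041, nat_lit 0, nat_lit 209, nat_lit 1609, nat_lit 481035, nat_lit 0, nat_lit 0, nat_lit 0, nat_lit 0, nat_lit 20000, nat_lit 0, nat_lit 0, nat_lit 58138768513950, nat_lit 72, nat_lit 419800, nat_lit 0, nat_lit 0, [(nat_lit 6, [(nat_lit 5, nat_lit 967), (nat_lit 6, nat_lit 33)])],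
 ⟨t04_k6, nat_lit 0, nat_lit 0, nat_lit 387, nat_lit 0, nat_lit 415503, [nat_lit 2570917361, nat_lit 184153600], [], [nat_lit 24606619135, nat_lit 23761041365, nat_lit 25765807815, nat_lit 24986475793, nat_lit 25511172612, nat_lit 26026575292, nat_lit 25713717930, nat_lit 26212139126], nat_lit 1271250, nat_lit 1271250, nat_lit 88400, nat_lit 490000, nat_lit 1271250, nat_lit 1271250, [nat_lit 1100000, nat_lit 2470000], [nat_lit 116, nat_lit 40, nat_lit 20, nat_lit 80, nat_lit 65, nat_lit 401, nat_lit 175, nat_lit 10]⟩, ⟨t04_k6, nat_lit 0, nat_lit 0, nat_lit 347, nat_lit 0, nat_lit 0, [nat_lit 320000000000, nat_lit 640000000000], [], [nat_lit 1450431085328, nat_lit 1470327462584, nat_lit 1159369890980, nat_lit 1178003262740, nat_lit 874431848872, nat_lit 876511151521, nat_lit 615830742393, nat_lit 617091631334], nat_lit 0, nat_lit 0, nat_lit 0, nat_lit 0, nat_lit 0, nat_lit 0, [], [nat_lit 116,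 nat_lit 40, nat_lit 20, nat_lit 80, nat_lit 65, nat_lit 401, nat_lit 175, nat_lit 11]⟩,
 ⟨nat_lit 5916, nat_lit 6325, ⟨.ofNat (nat_lit 164319), .ofNat (nat_lit 295942), .ofNat (nat_lit 185687), .ofNat (nat_lit 317309), .ofNat (nat_lit 181423), .ofNat (nat_lit 307076), .ofNat (nat_lit 202762), .ofNat (nat_lit 328416)⟩, ⟨.ofNat (nat_lit 225423), .ofNat (nat_lit 488669), .ofNat (nat_lit 246791), .ofNat (nat_lit 510037), .ofNat (nat_lit 229411), .ofNat (nat_lit 480719), .ofNat (nat_lit 250751), .ofNat (nat_lit 502058)⟩⟩, [⟨nat_lit 0, nat_lit 100, nat_lit 100, nat_lit 40, nat_lit 10000000000⟩]⟩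
noncomputable def t04_l22 : Lf2 := ⟨nat_lit 1, nat_lit 10, [nat_lit 0, nat_lit 5, nat_lit 5, nat_lit 20], false, nat_lit 160, nat_lit 240, nat_lit 0, nat_lit 288, zbN0,
 nat_lit 0, nat_lit 0, nat_lit 0, nat_lit 0, nat_lit 0, nat_lit 0, nat_lit 0, nat_lit 0, nat_lit 0, nat_lit 0, nat_lit 0, nat_lit 0, nat_lit 0, nat_lit 0, nat_lit 0, nat_lit 0, nat_lit 0, nat_lit 0, [],
 C1.Rw.none, C1.Rw.none,
 zbF0, []⟩
noncomputable def t04_l23 : Lf2 := ⟨nat_lit 0, nat_lit 5, [nat_lit 4, nat_lit 5, nat_lit 5, nat_lit 20], false, nat_lit 200, nat_lit 240, nat_lit 0, nat_lit 288, ⟨nat_lit 0, nat_lit 0, nat_lit 1000, nat_lit 6, nat_lit 142, nat_lit 1000, nat_lit 143, nat_lit 1000, nat_lit 194400, nat_lit 323, nat_lit 187267, nat_lit 321, nat_lit 51323067, nat_lit 0, nat_lit 0, nat_lit 3775505, false, false⟩,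
 nat_lit 0, nat_lit 8165, nat_lit 0, nat_lit 0, nat_lit 4535, nat_lit 0, nat_lit 714, nat_lit 0, nat_lit 0, nat_lit 0, nat_lit 0, nat_lit 0, nat_lit 0, nat_lit 27227933773377, nat_lit 80, nat_lit 1000000, nat_lit 0, nat_lit 0, [(nat_lit 6, [(nat_lit 6, nat_lit 1000)])],
 ⟨t04_k12, nat_lit 0, nat_lit 0, nat_lit 177, nat_lit 0, nat_lit 365315, [nat_lit 2257066667, nat_lit 1408000000, nat_lit 211200000], [], [nat_lit 11822399437, nat_lit 12415657309, nat_lit 12173553307, nat_lit 12736825079, nat_lit 13473286099, nat_lit 14017638324, nat_lit 13741313054, nat_lit 14258537574], nat_lit 1271250, nat_lit 1271250, nat_lit 490000, nat_lit 780000, nat_lit 1271250, nat_lit 1271250, [nat_lit 1100000, nat_lit 1442500, nat_lit 1271250], [nat_lit 9, nat_lit 40, nat_lit 20, nat_lit 80, nat_lit 2, nat_lit 317, nat_lit 100, nat_lit 10]⟩, ⟨t04_k13, nat_lit 0, nat_lit 0, nat_lit 371, nat_lit 0, nat_lit 386242,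 [nat_lit 0, nat_lit 0, nat_lit 0], [], [nat_lit 0, nat_lit 0, nat_lit 0, nat_lit 0, nat_lit 0, nat_lit 0, nat_lit 0, nat_lit 0], nat_lit 1271250, nat_lit 1271250, nat_lit 490000, nat_lit 780000, nat_lit 0, nat_lit 2034000, [nat_lit 1100000, nat_lit 1442500, nat_lit 1271250], [nat_lit 11, nat_lit 40, nat_lit 20, nat_lit 80, nat_lit 1, nat_lit 401, nat_lit 175, nat_lit 12]⟩,
 ⟨nat_lit 5916, nat_lit 6124, ⟨.ofNat (nat_lit 301553), .ofNat (nat_lit 381933), .ofNat (nat_lit 322901), .ofNat (nat_lit 403281), .ofNat (nat_lit 307076), .ofNat (nat_lit 385610), .ofNat (nat_lit 328416), .ofNat (nat_lit 406949)⟩, ⟨.ofNat (nat_lit 307865), .ofNat (nat_lit 388246), .ofNat (nat_lit 329214), .ofNat (nat_lit 409594), .ofNat (nat_lit 307945), .ofNat (nat_lit 386479), .ofNat (nat_lit 329284), .ofNat (nat_lit 407818)⟩⟩, [⟨nat_lit 4, nat_lit 100, nat_lit 100, nat_lit 55, nat_lit 270920080⟩]⟩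
noncomputable def t04_l24 : Lf2 := ⟨nat_lit 0, nat_lit 2, [nat_lit 10, nat_lit 5, nat_lit 5, nat_lit 20], true, nat_lit 240, nat_lit 288, nat_lit 0, nat_lit 288, ⟨nat_lit 0, nat_lit 0, nat_lit 1000, nat_lit 6, nat_lit 79, nat_lit 1000, nat_lit 179, nat_lit 1000, nat_lit 29345, nat_lit 255, nat_lit 60000, nat_lit 275, nat_lit 52531906, nat_lit 0, nat_lit 0, nat_lit 3354573, false, false⟩,
 nat_lit 0, nat_lit 547225, nat_lit 0, nat_lit 0, nat_lit 289707, nat_lit 0, nat_lit 60000, nat_lit 17697, nat_lit 0, nat_lit 0, nat_lit 0, nat_lit 0, nat_lit 0, nat_lit 400000000000000, nat_lit 0, nat_lit 1000000, nat_lit 0, nat_lit 0, [(nat_lit 6, [(nat_lit 6, nat_lit 1000)])],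
 ⟨t04_k14, nat_lit 0, nat_lit 0, nat_lit 208, nat_lit 0, nat_lit 271617, [nat_lit 284129066667, nat_lit 353748000001, nat_lit 423019199999], [], [nat_lit 206767993105, nat_lit 219630821434, nat_lit 140292872230, nat_lit 152897019214, nat_lit 292344882384, nat_lit 305441028134, nat_lit 213535242971, nat_lit 226473160646], nat_lit 1271250, nat_lit 1271250, nat_lit 88400, nat_lit 230001, nat_lit 1271250, nat_lit 1271250, [nat_lit 1100000, nat_lit 1442500, nat_lit 1271250], [nat_lit 9, nat_lit 40, nat_lit 20, nat_lit 80, nat_lit 2, nat_lit 215, nat_lit 10, nat_lit 7]⟩, C1.Rw.none,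
 ⟨nat_lit 6123, nat_lit 6325, ⟨.ofNat (nat_lit 164319), .ofNat (nat_lit 213677), .ofNat (nat_lit 175003), .ofNat (nat_lit 224361), .ofNat (nat_lit 172944), .ofNat (nat_lit 221172), .ofNat (nat_lit 183618), .ofNat (nat_lit 231846)⟩, ⟨.ofNat (nat_lit 389952), .ofNat (nat_lit 488669), .ofNat (nat_lit 411320), .ofNat (nat_lit 510037), .ofNat (nat_lit 388246), .ofNat (nat_lit 484703), .ofNat (nat_lit 409594), .ofNat (nat_lit 506051)⟩⟩, [⟨nat_lit 0, nat_lit 100, nat_lit 100, nat_lit 45, nat_lit 4011333107⟩, ⟨nat_lit 0, nat_lit 100, nat_lit 100, nat_lit 50, nat_lit 10000000000⟩, ⟨nat_lit 16, nat_lit 100, nat_lit 97, nat_lit 54, nat_lit 10309278351⟩, ⟨nat_lit 16, nat_lit 100, nat_lit 92, nat_lit 61, nat_lit 10869565217⟩, ⟨nat_lit 4, nat_lit 97, nat_lit 100, nat_lit 54, nat_lit 10309278351⟩]⟩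
noncomputable def t04_l25 : Lf2 := ⟨nat_lit 0, nat_lit 4, [nat_lit 38, nat_lit 5, nat_lit 5, nat_lit 20], true, nat_lit 260, nat_lit 284, nat_lit 0, nat_lit 256, ⟨nat_lit 0, nat_lit 0, nat_lit 1000, nat_lit 6, nat_lit 80, nat_lit 1000, nat_lit 186, nat_lit 1000, nat_lit 38520, nat_lit 262, nat_lit 60000, nat_lit 275, nat_lit 51917003, nat_lit 0, nat_lit 0, nat_lit 3428007, false, false⟩,
 nat_lit 0, nat_lit 8303, nat_lit 0, nat_lit 0, nat_lit 4503, nat_lit 0, nat_lit 0, nat_lit 0, nat_lit 0, nat_lit 0, nat_lit 0, nat_lit 0, nat_lit 0, nat_lit 19516864867901, nat_lit 41, nat_lit 400000, nat_lit 0, nat_lit 0, [(nat_lit 6, [(nat_lit 5, nat_lit 1000)])],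
 ⟨t04_k15, nat_lit 0, nat_lit 0, nat_lit 146, nat_lit 0, nat_lit 141023, [nat_lit 2073600001, nat_lit 7600000], [], [nat_lit 16477764007, nat_lit 16748872690, nat_lit 16136090362, nat_lit 16365341039, nat_lit 18054821868, nat_lit 18400845720, nat_lit 17530047134, nat_lit 17874521601], nat_lit 1271250, nat_lit 1271250, nat_lit 111251, nat_lit 181601, nat_lit 1271250, nat_lit 1271250, [nat_lit 1100000, nat_lit 1785000], [nat_lit 39, nat_lit 40, nat_lit 20, nat_lit 80, nat_lit 7, nat_lit 215, nat_lit 10, nat_lit 6]⟩, C1.Rw.none,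
 ⟨nat_lit 6123, nat_lit 6225, ⟨.ofNat (nat_lit 182121), .ofNat (nat_lit 206517), .ofNat (nat_lit 187461), .ofNat (nat_lit 211856), .ofNat (nat_lit 186319), .ofNat (nat_lit 210433), .ofNat (nat_lit 191656), .ofNat (nat_lit 215770)⟩, ⟨.ofNat (nat_lit 429765), .ofNat (nat_lit 478556), .ofNat (nat_lit 451122), .ofNat (nat_lit 499912), .ofNat (nat_lit 428436), .ofNat (nat_lit 476665), .ofNat (nat_lit 449785), .ofNat (nat_lit 498013)⟩⟩, [⟨nat_lit 0, nat_lit 100, nat_lit 100, nat_lit 50, nat_lit 271307566⟩, ⟨nat_lit 16, nat_lit 100, nat_lit 94, nat_lit 62, nat_lit 50568881⟩, ⟨nat_lit 4, nat_lit 98, nat_lit 100, nat_lit 54, nat_lit 534388946⟩]⟩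
noncomputable def t04_l26 : Lf2 := ⟨nat_lit 0, nat_lit 5, [nat_lit 4, nat_lit 5, nat_lit 5, nat_lit 20], true, nat_lit 240, nat_lit 288, nat_lit 0, nat_lit 288, ⟨nat_lit 0, nat_lit 0, nat_lit 1000, nat_lit 6, nat_lit 105, nat_lit 1000, nat_lit 179, nat_lit 1000, nat_lit 29345, nat_lit 255, nat_lit 104017, nat_lit 294, nat_lit 50882356, nat_lit 0, nat_lit 0, nat_lit 3721246, false, false⟩,
 nat_lit 0, nat_lit 8483, nat_lit 0, nat_lit 0, nat_lit 4491, nat_lit 0, nat_lit 0, nat_lit 0, nat_lit 0, nat_lit 0, nat_lit 0, nat_lit 0, nat_lit 0, nat_lit 25287631349575, nat_lit 145, nat_lit 979600, nat_lit 0, nat_lit 0, [(nat_lit 6, [(nat_lit 5, nat_lit 34), (nat_lit 6, nat_lit 966)])],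
 ⟨t04_k13, nat_lit 0, nat_lit 0, nat_lit 187, nat_lit 0, nat_lit 189636, [nat_lit 3312044800, nat_lit 3001638401, nat_lit 186390399], [], [nat_lit 13741330407, nat_lit 14252441088, nat_lit 13405409981, nat_lit 13908543390, nat_lit 17162446485, nat_lit 17839730760, nat_lit 16353302209, nat_lit 17011031122], nat_lit 1271250, nat_lit 1271250, nat_lit 230001, nat_lit 490000, nat_lit 1271250, nat_lit 1271250, [nat_lit 1100000, nat_lit 1442500, nat_lit 1271250], [nat_lit 11, nat_lit 40, nat_lit 20, nat_lit 80, nat_lit 1, nat_lit 401, nat_lit 175, nat_lit 11]⟩, C1.Rw.none,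
 ⟨nat_lit 6123, nat_lit 6325, ⟨.ofNat (nat_lit 213677), .ofNat (nat_lit 295942), .ofNat (nat_lit 224361), .ofNat (nat_lit 306625), .ofNat (nat_lit 221172), .ofNat (nat_lit 301553), .ofNat (nat_lit 231846), .ofNat (nat_lit 312227)⟩, ⟨.ofNat (nat_lit 389952), .ofNat (nat_lit 488669), .ofNat (nat_lit 411320), .ofNat (nat_lit 510037), .ofNat (nat_lit 388246), .ofNat (nat_lit 484703), .ofNat (nat_lit 409594), .ofNat (nat_lit 506051)⟩⟩, [⟨nat_lit 4, nat_lit 97, nat_lit 100, nat_lit 54, nat_lit 649790792⟩]⟩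
noncomputable def t04_l27 : Lf2 := ⟨nat_lit 1, nat_lit 10, [nat_lit 0, nat_lit 5, nat_lit 5, nat_lit 20], false, nat_lit 240, nat_lit 288, nat_lit 0, nat_lit 288, zbN0,
 nat_lit 0, nat_lit 0, nat_lit 0, nat_lit 0, nat_lit 0, nat_lit 0, nat_lit 0, nat_lit 0, nat_lit 0, nat_lit 0, nat_lit 0, nat_lit 0, nat_lit 0, nat_lit 0, nat_lit 0, nat_lit 0, nat_lit 0, nat_lit 0, [],
 C1.Rw.none, C1.Rw.none,
 zbF0, []⟩
noncomputable def t04_l28 : Lf2 := ⟨nat_lit 0, nat_lit 10, [nat_lit 0, nat_lit 5, nat_lit 5, nat_lit 20], false, nat_lit 0, nat_lit 288, nat_lit 0, nat_lit 288, ⟨nat_lit 1000, nat_lit 0, nat_lit 0, nat_lit 0, nat_lit 0, nat_lit 0, nat_lit 0, nat_lit 0, nat_lit 0, nat_lit 0, nat_lit 0, nat_lit 0, nat_lit 0, nat_lit 0, nat_lit 0, nat_lit 0, false, false⟩,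
 nat_lit 16753, nat_lit 0, nat_lit 0, nat_lit 0, nat_lit 8869, nat_lit 8869, nat_lit 951, nat_lit 0, nat_lit 0, nat_lit 951, nat_lit 0, nat_lit 0, nat_lit 0, nat_lit 0, nat_lit 0, nat_lit 0, nat_lit 0, nat_lit 0, [],
 ⟨t04_k16, nat_lit 0, nat_lit 0, nat_lit 381, nat_lit 0, nat_lit 270049, [nat_lit 4688000000, nat_lit 7968000001, nat_lit 11872000000], [], [nat_lit 32568292728, nat_lit 33768603316, nat_lit 41093227684, nat_lit 43225679304, nat_lit 27233112331, nat_lit 28104387605, nat_lit 34089624389, nat_lit 35396217746], nat_lit 1271250, nat_lit 1271250, nat_lit 1271250, nat_lit 1271250, nat_lit 0, nat_lit 2034000, [nat_lit 1100000, nat_lit 1785000, nat_lit 1271250], [nat_lit 21, nat_lit 40, nat_lit 20, nat_lit 80, nat_lit 14, nat_lit 483, nat_lit 250, nat_lit 12]⟩, ⟨t04_k16, nat_lit 0, nat_lit 0, nat_lit 381, nat_lit 0, nat_lit 270049, [nat_lit 4688000000, nat_lit 7968000000, nat_lit 11872000000],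 [], [nat_lit 32568292728, nat_lit 33768603316, nat_lit 41093227684, nat_lit 43225679304, nat_lit 27233112330, nat_lit 28104387603, nat_lit 34089624389, nat_lit 35396217746], nat_lit 1271250, nat_lit 1271250, nat_lit 1271250, nat_lit 1271250, nat_lit 0, nat_lit 2034000, [nat_lit 1100000, nat_lit 1785000, nat_lit 1271250], [nat_lit 21, nat_lit 40, nat_lit 20, nat_lit 80, nat_lit 14, nat_lit 483, nat_lit 250, nat_lit 12]⟩,
 zbF0, [⟨nat_lit 4, nat_lit 100, nat_lit 98, nat_lit 54, nat_lit 78917130⟩, ⟨nat_lit 7, nat_lit 100, nat_lit 98, nat_lit 54, nat_lit 78917130⟩]⟩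
noncomputable def t04_l29 : Lf2 := ⟨nat_lit 0, nat_lit 10, [nat_lit 0, nat_lit 5, nat_lit 5, nat_lit 20], true, nat_lit 0, nat_lit 268, nat_lit 0, nat_lit 280, ⟨nat_lit 0, nat_lit 1000, nat_lit 0, nat_lit 6, nat_lit 173, nat_lit 1000, nat_lit 90, nat_lit 0, nat_lit 0, nat_lit 0, nat_lit 0, nat_lit 0, nat_lit 0, nat_lit 0, nat_lit 0, nat_lit 5000000, false, false⟩,
 nat_lit 0, nat_lit 300937, nat_lit 0, nat_lit 0, nat_lit 175172, nat_lit 0, nat_lit 15501, nat_lit 20000, nat_lit 0, nat_lit 0, nat_lit 0, nat_lit 0, nat_lit 0, nat_lit 400000000000000, nat_lit 0, nat_lit 400000, nat_lit 0, nat_lit 0, [(nat_lit 9, [(nat_lit 1, nat_lit 1000)])],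
 ⟨t04_k17, nat_lit 0, nat_lit 0, nat_lit 0, nat_lit 0, nat_lit 135752, [nat_lit 322742800000, nat_lit 483038800000, nat_lit 562882000000], [], [nat_lit 1467154664496, nat_lit 1442771703060, nat_lit 943156555964, nat_lit 944774619188, nat_lit 902519814125, nat_lit 903810547592, nat_lit 792873000141, nat_lit 793447617432], nat_lit 1271250, nat_lit 1271250, nat_lit 157850, nat_lit 1710750, nat_lit 0, nat_lit 1892750, [nat_lit 1100000, nat_lit 1785000, nat_lit 1271250], [nat_lit 29, nat_lit 40, nat_lit 20, nat_lit 80]⟩, C1.Rw.none,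
 ⟨nat_lit 5809, nat_lit 5917, ⟨.ofNat (nat_lit 215652), .ofNat (nat_lit 631878), .ofNat (nat_lit 231657), .ofNat (nat_lit 647883), .ofNat (nat_lit 219570), .ofNat (nat_lit 630967), .ofNat (nat_lit 235574), .ofNat (nat_lit 646971)⟩, ⟨.negSucc (nat_lit 84722), .ofNat (nat_lit 441452), .negSucc (nat_lit 63383), .ofNat (nat_lit 462791), .negSucc (nat_lit 80165), .ofNat (nat_lit 439905), .negSucc (nat_lit 58826), .ofNat (nat_lit 461244)⟩⟩, [⟨nat_lit 0, nat_lit 100, nat_lit 100, nat_lit 65, nat_lit 2594020434⟩]⟩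
noncomputable def t04_l30 : Lf2 := ⟨nat_lit 0, nat_lit 10, [nat_lit 0, nat_lit 5, nat_lit 5, nat_lit 20], true, nat_lit 0, nat_lit 268, nat_lit 0, nat_lit 280, ⟨nat_lit 0, nat_lit 1000, nat_lit 0, nat_lit 6, nat_lit 173, nat_lit 1000, nat_lit 90, nat_lit 0, nat_lit 0, nat_lit 0, nat_lit 0, nat_lit 0, nat_lit 0, nat_lit 0, nat_lit 0, nat_lit 5000000, false, false⟩,
 nat_lit 0, nat_lit 432374, nat_lit 0, nat_lit 0, nat_lit 251680, nat_lit 0, nat_lit 0, nat_lit 20000, nat_lit 0, nat_lit 0, nat_lit 0, nat_lit 0, nat_lit 0, nat_lit 400000000000000, nat_lit 0, nat_lit 400000, nat_lit 0, nat_lit 0, [(nat_lit 9, [(nat_lit 1, nat_lit 1000)])],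
 ⟨t04_k17, nat_lit 0, nat_lit 0, nat_lit 0, nat_lit 0, nat_lit 135752, [nat_lit 322742800000, nat_lit 483038800000, nat_lit 562882000000], [], [nat_lit 1425852672160, nat_lit 1391910125808, nat_lit 891346532160, nat_lit 893618126720, nat_lit 832518776952, nat_lit 834321759022, nat_lit 644598230001, nat_lit 644905430138], nat_lit 1271250, nat_lit 1271250, nat_lit 157850, nat_lit 1710750, nat_lit 0, nat_lit 1892750, [nat_lit 1100000, nat_lit 1785000, nat_lit 1271250], [nat_lit 29, nat_lit 40, nat_lit 20, nat_lit 80]⟩, C1.Rw.none,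
 ⟨nat_lit 5809, nat_lit 5917, ⟨.ofNat (nat_lit 215652), .ofNat (nat_lit 631878), .ofNat (nat_lit 231657), .ofNat (nat_lit 647883), .ofNat (nat_lit 219570), .ofNat (nat_lit 630967), .ofNat (nat_lit 235574), .ofNat (nat_lit 646971)⟩, ⟨.negSucc (nat_lit 84722), .ofNat (nat_lit 441452), .negSucc (nat_lit 63383), .ofNat (nat_lit 462791), .negSucc (nat_lit 80165), .ofNat (nat_lit 439905), .negSucc (nat_lit 58826), .ofNat (nat_lit 461244)⟩⟩, [⟨nat_lit 0, nat_lit 100, nat_lit 100, nat_lit 65, nat_lit 4897796870⟩]⟩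
noncomputable def t04_l31 : Lf2 := ⟨nat_lit 0, nat_lit 10, [nat_lit 0, nat_lit 5, nat_lit 5, nat_lit 20], false, nat_lit 0, nat_lit 268, nat_lit 0, nat_lit 280, ⟨nat_lit 0, nat_lit 1000, nat_lit 0, nat_lit 6, nat_lit 173, nat_lit 1000, nat_lit 90, nat_lit 0, nat_lit 0, nat_lit 0, nat_lit 0, nat_lit 0, nat_lit 0, nat_lit 0, nat_lit 0, nat_lit 5000000, false, false⟩,
 nat_lit 3990, nat_lit 0, nat_lit 235711, nat_lit 0, nat_lit 2322, nat_lit 133166, nat_lit 0, nat_lit 0, nat_lit 0, nat_lit 0, nat_lit 20000, nat_lit 0, nat_lit 0, nat_lit 0, nat_lit 0, nat_lit 400000, nat_lit 0, nat_lit 0, [(nat_lit 9, [(nat_lit 1, nat_lit 1000)])],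
 ⟨t04_k17, nat_lit 0, nat_lit 0, nat_lit 0, nat_lit 0, nat_lit 72723, [nat_lit 2742800000, nat_lit 3038800001, nat_lit 2882000000], [], [nat_lit 36112170696, nat_lit 35788961300, nat_lit 32097400285, nat_lit 32246783562, nat_lit 32685249017, nat_lit 32825746497, nat_lit 39290670281, nat_lit 39033453807], nat_lit 1271250, nat_lit 1271250, nat_lit 157850, nat_lit 1710750, nat_lit 0, nat_lit 1892750, [nat_lit 1100000, nat_lit 1785000, nat_lit 1271250], [nat_lit 29, nat_lit 40, nat_lit 20, nat_lit 80]⟩, ⟨t04_k18, nat_lit 0, nat_lit 0, nat_lit 299, nat_lit 0, nat_lit 76904, [nat_lit 320000000000, nat_lit 480000000000, nat_lit 560000000000], [], [nat_lit 1286501860629, nat_lit 1230893976218, nat_lit 1090489061248, nat_lit 1093901573164, nat_lit 1062546280171, nat_lit 1064927647799, nat_lit 1076922877401, nat_lit 1032836175737], nat_lit 1271250, nat_lit 1271250, nat_lit 157850, nat_lit 1710750, nat_lit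 0, nat_lit 1977500, [nat_lit 1100000, nat_lit 1785000, nat_lit 1271250], [nat_lit 29, nat_lit 40, nat_lit 20, nat_lit 80, nat_lit 17, nat_lit 428, nat_lit 200, nat_lit 13]⟩,
 ⟨nat_lit 5809, nat_lit 5917, ⟨.ofNat (nat_lit 215652), .ofNat (nat_lit 631878), .ofNat (nat_lit 231657), .ofNat (nat_lit 647883), .ofNat (nat_lit 219570), .ofNat (nat_lit 630967), .ofNat (nat_lit 235574), .ofNat (nat_lit 646971)⟩, ⟨.negSucc (nat_lit 84722), .ofNat (nat_lit 441452), .negSucc (nat_lit 63383), .ofNat (nat_lit 462791), .negSucc (nat_lit 80165), .ofNat (nat_lit 439905), .negSucc (nat_lit 58826), .ofNat (nat_lit 461244)⟩⟩, [⟨nat_lit 19, nat_lit 99, nat_lit 100, nat_lit 55, nat_lit 1607003588⟩, ⟨nat_lit 7, nat_lit 100, nat_lit 99, nat_lit 55, nat_lit 10101010101⟩]⟩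
noncomputable def t04_l32 : Lf2 := ⟨nat_lit 1, nat_lit 10, [nat_lit 0, nat_lit 5, nat_lit 5, nat_lit 20], false, nat_lit 0, nat_lit 268, nat_lit 0, nat_lit 288, zbN0,
 nat_lit 0, nat_lit 0, nat_lit 0, nat_lit 0, nat_lit 0, nat_lit 0, nat_lit 0, nat_lit 0, nat_lit 0, nat_lit 0, nat_lit 0, nat_lit 0, nat_lit 0, nat_lit 0, nat_lit 0, nat_lit 0, nat_lit 0, nat_lit 0, [],
 C1.Rw.none, C1.Rw.none,
 zbF0, []⟩
noncomputable def t04_l33 : Lf2 := ⟨nat_lit 0, nat_lit 10, [nat_lit 0, nat_lit 5, nat_lit 5, nat_lit 20], false, nat_lit 0, nat_lit 268, nat_lit 0, nat_lit 288, ⟨nat_lit 0, nat_lit 1000, nat_lit 0, nat_lit 6, nat_lit 173, nat_lit 1000, nat_lit 90, nat_lit 0, nat_lit 0, nat_lit 0, nat_lit 0, nat_lit 0, nat_lit 0, nat_lit 0, nat_lit 0, nat_lit 5000000, false, false⟩,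
 nat_lit 0, nat_lit 384644, nat_lit 0, nat_lit 0, nat_lit 223897, nat_lit 0, nat_lit 14631, nat_lit 20000, nat_lit 0, nat_lit 0, nat_lit 0, nat_lit 0, nat_lit 0, nat_lit 400000000000000, nat_lit 0, nat_lit 1000000, nat_lit 0, nat_lit 0, [(nat_lit 9, [(nat_lit 2, nat_lit 1000)])],
 ⟨t04_k19, nat_lit 0, nat_lit 0, nat_lit 361, nat_lit 0, nat_lit 240242, [nat_lit 322663466667, nat_lit 402666533334, nat_lit 560327866666], [], [nat_lit 1535041711818, nat_lit 1412155574692, nat_lit 919785730115, nat_lit 925719767121, nat_lit 871890522086, nat_lit 876375114009, nat_lit 820981944550, nat_lit 726559161342], nat_lit 1271250, nat_lit 1271250, nat_lit 134400, nat_lit 1708500, nat_lit 0, nat_lit 1892750, [nat_lit 1100000, nat_lit 1442500, nat_lit 1271250], [nat_lit 11, nat_lit 40, nat_lit 20, nat_lit 80, nat_lit 1, nat_lit 428, nat_lit 200, nat_lit 13]⟩, ⟨t04_k10, nat_lit 0, nat_lit 0, nat_lit 496, nat_lit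 0, nat_lit 270049, [nat_lit 0, nat_lit 0, nat_lit 0], [], [nat_lit 0, nat_lit 0, nat_lit 0, nat_lit 0, nat_lit 0, nat_lit 0, nat_lit 0, nat_lit 0], nat_lit 1271250, nat_lit 1271250, nat_lit 134400, nat_lit 1708500, nat_lit 0, nat_lit 2034000, [nat_lit 1100000, nat_lit 1442500, nat_lit 1271250], [nat_lit 48, nat_lit 40, nat_lit 20, nat_lit 80, nat_lit 12, nat_lit 456, nat_lit 225, nat_lit 12]⟩,
 ⟨nat_lit 5477, nat_lit 5917, ⟨.ofNat (nat_lit 197129), .ofNat (nat_lit 621176), .ofNat (nat_lit 239808), .ofNat (nat_lit 663838), .ofNat (nat_lit 213007), .ofNat (nat_lit 617611), .ofNat (nat_lit 255721), .ofNat (nat_lit 660309)⟩, ⟨.negSucc (nat_lit 84722), .ofNat (nat_lit 441452), .negSucc (nat_lit 63383), .ofNat (nat_lit 462791), .negSucc (nat_lit 66879), .ofNat (nat_lit 435171), .negSucc (nat_lit 45522), .ofNat (nat_lit 456528)⟩⟩, [⟨nat_lit 0, nat_lit 100, nat_lit 100, nat_lit 80, nat_lit 3454689579⟩]⟩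
noncomputable def t04_l34 : Lf2 := ⟨nat_lit 0, nat_lit 10, [nat_lit 0, nat_lit 5, nat_lit 5, nat_lit 20], false, nat_lit 0, nat_lit 288, nat_lit 0, nat_lit 288, ⟨nat_lit 1000, nat_lit 0, nat_lit 0, nat_lit 0, nat_lit 0, nat_lit 0, nat_lit 0, nat_lit 0, nat_lit 0, nat_lit 0, nat_lit 0, nat_lit 0, nat_lit 0, nat_lit 0, nat_lit 0, nat_lit 0, false, false⟩,
 nat_lit 16753, nat_lit 0, nat_lit 0, nat_lit 0, nat_lit 8869, nat_lit 8869, nat_lit 951, nat_lit 0, nat_lit 0, nat_lit 951, nat_lit 0, nat_lit 0, nat_lit 0, nat_lit 0, nat_lit 0, nat_lit 0, nat_lit 0, nat_lit 0, [],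
 ⟨t04_k16, nat_lit 0, nat_lit 0, nat_lit 381, nat_lit 0, nat_lit 270049, [nat_lit 4688000000, nat_lit 7968000001, nat_lit 11872000000], [], [nat_lit 32568292728, nat_lit 33768603316, nat_lit 41093227684, nat_lit 43225679304, nat_lit 27233112331, nat_lit 28104387605, nat_lit 34089624389, nat_lit 35396217746], nat_lit 1271250, nat_lit 1271250, nat_lit 1271250, nat_lit 1271250, nat_lit 0, nat_lit 2034000, [nat_lit 1100000, nat_lit 1785000, nat_lit 1271250], [nat_lit 21, nat_lit 40, nat_lit 20, nat_lit 80, nat_lit 14, nat_lit 483, nat_lit 250, nat_lit 12]⟩, ⟨t04_k16, nat_lit 0, nat_lit 0, nat_lit 381, nat_lit 0, nat_lit 270049, [nat_lit 4688000000, nat_lit 7968000000, nat_lit 11872000000], [], [nat_lit 32568292728, nat_lit 33768603316, nat_lit 41093227684, nat_lit 43225679304, nat_lit 27233112330, nat_lit 28104387603, nat_lit 34089624389, nat_lit 35396217746], nat_lit 1271250, nat_lit 1271250,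 nat_lit 1271250, nat_lit 1271250, nat_lit 0, nat_lit 2034000, [nat_lit 1100000, nat_lit 1785000, nat_lit 1271250], [nat_lit 21, nat_lit 40, nat_lit 20, nat_lit 80, nat_lit 14, nat_lit 483, nat_lit 250, nat_lit 12]⟩,
 zbF0, [⟨nat_lit 4, nat_lit 100, nat_lit 98, nat_lit 54, nat_lit 78917130⟩, ⟨nat_lit 7, nat_lit 100, nat_lit 98, nat_lit 54, nat_lit 78917130⟩]⟩
theorem r_VL_600_600_5 (h : EB TB.env) : Dead (RC.box ⟨true, 40, 240, 280, 240, 280, 20, 40, [68]⟩ 0 68) := chkB_sound h (refs := [b_VL_600_600_5_0, b_VL_600_600_5_1, b_VL_600_600_5_2, b_VL_600_600_5_3, b_VL_600_600_5_4, b_VL_600_600_5_5, b_VL_600_600_5_6, b_VL_600_600_5_7, b_VL_600_600_5_8, b_VL_600_600_5_9, b_VL_600_600_5_10, b_VL_600_600_5_11, b_VL_600_600_5_12, b_VL_600_600_5_13, b_VL_600_600_5_14, b_VL_600_600_5_15, b_VL_600_600_5_16, b_VL_600_600_5_17, b_VL_600_600_5_18, b_VL_600_600_5_19, b_VL_600_600_5_20, b_VL_600_600_5_21, b_VL_600_600_5_22,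 b_VL_600_600_5_23, b_VL_600_600_5_24, b_VL_600_600_5_25, b_VL_600_600_5_26, b_VL_600_600_5_27, b_VL_600_600_5_28, b_VL_600_600_5_29, b_VL_600_600_5_30, b_VL_600_600_5_31, b_VL_600_600_5_32, b_VL_600_600_5_33, b_VL_600_600_5_34, b_VL_600_600_5_35, b_VL_600_600_5_36, b_VL_600_600_5_37, b_VL_600_600_5_38, b_VL_600_600_5_39, b_VL_600_600_5_40, b_VL_600_600_5_41, b_VL_600_600_5_42, b_VL_600_600_5_43, b_VL_600_600_5_44, b_VL_600_600_5_45, b_VL_600_600_5_46, b_VL_600_600_5_47, b_VL_600_600_5_48, b_VL_600_600_5_49, b_VL_600_600_5_50, b_VL_600_600_5_51, b_VL_600_600_5_52, b_VL_600_600_5_53, b_VL_600_600_5_54, b_VL_600_600_5_55, b_VL_600_600_5_56, b_VL_600_600_5_57, b_VL_600_600_5_58, b_VL_600_600_5_59, b_VL_600_600_5_60, b_VL_600_600_5_61, b_VL_600_600_5_62, b_VL_600_600_5_63, b_VL_600_600_5_64, b_VL_600_600_5_65, b_VL_600_600_5_66, b_VL_600_600_5_67, b_VL_600_600_5_68, b_VL_600_600_5_69, b_VL_600_600_5_70,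 b_VL_600_600_5_71, b_VL_600_600_5_72, b_VL_600_600_5_73, b_VL_600_600_5_74, b_VL_600_600_5_75, b_VL_600_600_5_76, b_VL_600_600_5_77, b_VL_600_600_5_78, b_VL_600_600_5_79, b_VL_600_600_5_80, b_VL_600_600_5_81, b_VL_600_600_5_82, b_VL_600_600_5_83, b_VL_600_600_5_84, b_VL_600_600_5_85, b_VL_600_600_5_86, b_VL_600_600_5_87, b_VL_600_600_5_88, b_VL_600_600_5_89, b_VL_600_600_5_90, b_VL_600_600_5_91, b_VL_600_600_5_92, b_VL_600_600_5_93, b_VL_600_600_5_94, b_VL_600_600_5_95, b_VL_600_600_5_96, b_VL_600_600_5_97, b_VL_600_600_5_98, b_VL_600_600_5_99, b_VL_600_600_5_100, b_VL_600_600_5_101, b_VL_600_600_5_102, b_VL_600_600_5_103, b_VL_600_600_5_104, b_VL_600_600_5_105, b_VL_600_600_5_106, b_VL_600_600_5_107]) (refs_cons (d_VL_600_600_5_0 h) (refs_cons (d_VL_600_600_5_1 h) (refs_cons (d_VL_600_600_5_2 h) (refs_cons (d_VL_600_600_5_3 h) (refs_cons (d_VL_600_600_5_4 h) (refs_cons (d_VL_600_600_5_5 h)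 (refs_cons (d_VL_600_600_5_6 h) (refs_cons (d_VL_600_600_5_7 h) (refs_cons (d_VL_600_600_5_8 h) (refs_cons (d_VL_600_600_5_9 h) (refs_cons (d_VL_600_600_5_10 h) (refs_cons (d_VL_600_600_5_11 h) (refs_cons (d_VL_600_600_5_12 h) (refs_cons (d_VL_600_600_5_13 h) (refs_cons (d_VL_600_600_5_14 h) (refs_cons (d_VL_600_600_5_15 h) (refs_cons (d_VL_600_600_5_16 h) (refs_cons (d_VL_600_600_5_17 h) (refs_cons (d_VL_600_600_5_18 h) (refs_cons (d_VL_600_600_5_19 h) (refs_cons (d_VL_600_600_5_20 h) (refs_cons (d_VL_600_600_5_21 h) (refs_cons (d_VL_600_600_5_22 h) (refs_cons (d_VL_600_600_5_23 h) (refs_cons (d_VL_600_600_5_24 h) (refs_cons (d_VL_600_600_5_25 h) (refs_cons (d_VL_600_600_5_26 h) (refs_cons (d_VL_600_600_5_27 h) (refs_cons (d_VL_600_600_5_28 h) (refs_cons (d_VL_600_600_5_29 h) (refs_cons (d_VL_600_600_5_30 h) (refs_cons (d_VL_600_600_5_31 h) (refs_cons (d_VL_600_600_5_32 h) (refs_cons (d_VL_600_600_5_33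 h) (refs_cons (d_VL_600_600_5_34 h) (refs_cons (d_VL_600_600_5_35 h) (refs_cons (d_VL_600_600_5_36 h) (refs_cons (d_VL_600_600_5_37 h) (refs_cons (d_VL_600_600_5_38 h) (refs_cons (d_VL_600_600_5_39 h) (refs_cons (d_VL_600_600_5_40 h) (refs_cons (d_VL_600_600_5_41 h) (refs_cons (d_VL_600_600_5_42 h) (refs_cons (d_VL_600_600_5_43 h) (refs_cons (d_VL_600_600_5_44 h) (refs_cons (d_VL_600_600_5_45 h) (refs_cons (d_VL_600_600_5_46 h) (refs_cons (d_VL_600_600_5_47 h) (refs_cons (d_VL_600_600_5_48 h) (refs_cons (d_VL_600_600_5_49 h) (refs_cons (d_VL_600_600_5_50 h) (refs_cons (d_VL_600_600_5_51 h) (refs_cons (d_VL_600_600_5_52 h) (refs_cons (d_VL_600_600_5_53 h) (refs_cons (d_VL_600_600_5_54 h) (refs_cons (d_VL_600_600_5_55 h) (refs_cons (d_VL_600_600_5_56 h) (refs_cons (d_VL_600_600_5_57 h) (refs_cons (d_VL_600_600_5_58 h) (refs_cons (d_VL_600_600_5_59 h) (refs_cons (d_VL_600_600_5_60 h) (refs_cons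 (d_VL_600_600_5_61 h) (refs_cons (d_VL_600_600_5_62 h) (refs_cons (d_VL_600_600_5_63 h) (refs_cons (d_VL_600_600_5_64 h) (refs_cons (d_VL_600_600_5_65 h) (refs_cons (d_VL_600_600_5_66 h) (refs_cons (d_VL_600_600_5_67 h) (refs_cons (d_VL_600_600_5_68 h) (refs_cons (d_VL_600_600_5_69 h) (refs_cons (d_VL_600_600_5_70 h) (refs_cons (d_VL_600_600_5_71 h) (refs_cons (d_VL_600_600_5_72 h) (refs_cons (d_VL_600_600_5_73 h) (refs_cons (d_VL_600_600_5_74 h) (refs_cons (d_VL_600_600_5_75 h) (refs_cons (d_VL_600_600_5_76 h) (refs_cons (d_VL_600_600_5_77 h) (refs_cons (d_VL_600_600_5_78 h) (refs_cons (d_VL_600_600_5_79 h) (refs_cons (d_VL_600_600_5_80 h) (refs_cons (d_VL_600_600_5_81 h) (refs_cons (d_VL_600_600_5_82 h) (refs_cons (d_VL_600_600_5_83 h) (refs_cons (d_VL_600_600_5_84 h) (refs_cons (d_VL_600_600_5_85 h) (refs_cons (d_VL_600_600_5_86 h) (refs_cons (d_VL_600_600_5_87 h) (refs_cons (d_VL_600_600_5_88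 h) (refs_cons (d_VL_600_600_5_89 h) (refs_cons (d_VL_600_600_5_90 h) (refs_cons (d_VL_600_600_5_91 h) (refs_cons (d_VL_600_600_5_92 h) (refs_cons (d_VL_600_600_5_93 h) (refs_cons (d_VL_600_600_5_94 h) (refs_cons (d_VL_600_600_5_95 h) (refs_cons (d_VL_600_600_5_96 h) (refs_cons (d_VL_600_600_5_97 h) (refs_cons (d_VL_600_600_5_98 h) (refs_cons (d_VL_600_600_5_99 h) (refs_cons (d_VL_600_600_5_100 h) (refs_cons (d_VL_600_600_5_101 h) (refs_cons (d_VL_600_600_5_102 h) (refs_cons (d_VL_600_600_5_103 h) (refs_cons (d_VL_600_600_5_104 h) (refs_cons (d_VL_600_600_5_105 h) (refs_cons (d_VL_600_600_5_106 h) (refs_cons (d_VL_600_600_5_107 h) (refs_nil))))))))))))))))))))))))))))))))))))))))))))))))))))))))))))))))))))))))))))))))))))))))))))))))))))))))))))) (T :=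
(.trZ (nat_lit 0) (nat_lit 100) (nat_lit 100) (nat_lit 40) (nat_lit 16) (.trX (nat_lit 16) (nat_lit 100) (nat_lit 92) (nat_lit 61) (nat_lit 288) (.trX (nat_lit 19) (nat_lit 100) (nat_lit 92) (nat_lit 61) (nat_lit 288) (.spl (nat_lit 6) (nat_lit 40)
(.st (nat_lit 0)
(.gv
(.st (nat_lit 1)
(.ref (nat_lit 0))
(.spl (nat_lit 2) (nat_lit 240)
(.ref (nat_lit 1))
(.ref (nat_lit 2))))
(.ref (nat_lit 3)))
(.gv
(.st (nat_lit 1)
(.spl (nat_lit 2) (nat_lit 240)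
(.spl (nat_lit 0) (nat_lit 260)
(.ord (.spl (nat_lit 2) (nat_lit 160)
(.spl (nat_lit 2) (nat_lit 80)
(.spl (nat_lit 4) (nat_lit 160)
(.spl (nat_lit 4) (nat_lit 80)
(.spl (nat_lit 0) (nat_lit 250)
(.ref (nat_lit 4))
(.ref (nat_lit 5)))
(.ref (nat_lit 6)))
(.spl (nat_lit 8) (nat_lit 800)
(.spl (nat_lit 4) (nat_lit 240)
(.spl (nat_lit 4) (nat_lit 200)
(.spl (nat_lit 6) (nat_lit 20)
(.spl (nat_lit 4) (nat_lit 180)
(.ref (nat_lit 7))
(.ref (nat_lit 8)))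
(.ref (nat_lit 9)))
(.ref (nat_lit 10)))
(.ref (nat_lit 11)))
(.leaf t04_l21)))
(.ref (nat_lit 12)))
(.ref (nat_lit 13))))
(.trZ (nat_lit 0) (nat_lit 100) (nat_lit 97) (nat_lit 49) (nat_lit 24) (.trX (nat_lit 16) (nat_lit 100) (nat_lit 99) (nat_lit 63) (nat_lit 268) (.spl (nat_lit 2) (nat_lit 160)
(.spl (nat_lit 2) (nat_lit 80)
(.spl (nat_lit 4) (nat_lit 160)
(.ref (nat_lit 14))
(.ref (nat_lit 15)))
(.ref (nat_lit 16)))
(.ref (nat_lit 17))))))
(.ref (nat_lit 18)))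
(.spl (nat_lit 2) (nat_lit 240)
(.spl (nat_lit 4) (nat_lit 160)
(.spl (nat_lit 2) (nat_lit 160)
(.spl (nat_lit 4) (nat_lit 80)
(.spl (nat_lit 0) (nat_lit 260)
(.ord (.spl (nat_lit 6) (nat_lit 20)
(.spl (nat_lit 2) (nat_lit 80)
(.spl (nat_lit 1) (nat_lit 250)
(.ref (nat_lit 19))
(.ref (nat_lit 20)))
(.ref (nat_lit 21)))
(.ref (nat_lit 22))))
(.trZ (nat_lit 0) (nat_lit 100) (nat_lit 97) (nat_lit 49) (nat_lit 24) (.spl (nat_lit 2) (nat_lit 120)
(.spl (nat_lit 6) (nat_lit 20)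
(.spl (nat_lit 4) (nat_lit 40)
(.spl (nat_lit 2) (nat_lit 80)
(.ref (nat_lit 23))
(.ref (nat_lit 24)))
(.ref (nat_lit 25)))
(.ref (nat_lit 26)))
(.ref (nat_lit 27)))))
(.spl (nat_lit 2) (nat_lit 120)
(.spl (nat_lit 0) (nat_lit 260)
(.ord (.spl (nat_lit 6) (nat_lit 20)
(.ref (nat_lit 28))
(.ref (nat_lit 29))))
(.trZ (nat_lit 0) (nat_lit 100) (nat_lit 97) (nat_lit 49) (nat_lit 24) (.spl (nat_lit 6) (nat_lit 20)
(.ref (nat_lit 30))
(.ref (nat_lit 31)))))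
(.ref (nat_lit 32))))
(.ref (nat_lit 33)))
(.spl (nat_lit 4) (nat_lit 240)
(.spl (nat_lit 2) (nat_lit 160)
(.spl (nat_lit 0) (nat_lit 260)
(.ord (.spl (nat_lit 2) (nat_lit 120)
(.spl (nat_lit 0) (nat_lit 250)
(.ord (.spl (nat_lit 6) (nat_lit 32)
(.spl (nat_lit 2) (nat_lit 80)
(.spl (nat_lit 4) (nat_lit 200)
(.ref (nat_lit 34))
(.ref (nat_lit 35)))
(.ref (nat_lit 36)))
(.leaf t04_l22)))
(.trZ (nat_lit 0) (nat_lit 100) (nat_lit 99) (nat_lit 45) (nat_lit 20) (.spl (nat_lit 6) (nat_lit 20)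
(.spl (nat_lit 4) (nat_lit 200)
(.ref (nat_lit 37))
(.spl (nat_lit 2) (nat_lit 80)
(.spl (nat_lit 1) (nat_lit 250)
(.ref (nat_lit 38))
(.ref (nat_lit 39)))
(.leaf t04_l23)))
(.ref (nat_lit 40)))))
(.ref (nat_lit 41))))
(.trZ (nat_lit 0) (nat_lit 100) (nat_lit 97) (nat_lit 49) (nat_lit 24) (.spl (nat_lit 1) (nat_lit 260)
(.spl (nat_lit 2) (nat_lit 120)
(.spl (nat_lit 0) (nat_lit 270)
(.spl (nat_lit 1) (nat_lit 250)
(.ref (nat_lit 42))
(.trZ (nat_lit 0) (nat_lit 100) (nat_lit 99) (nat_lit 55) (nat_lit 28) (.trX (nat_lit 19) (nat_lit 100) (nat_lit 95) (nat_lit 62) (nat_lit 280) (.spl (nat_lit 4) (nat_lit 200)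
(.ref (nat_lit 43))
(.spl (nat_lit 2) (nat_lit 80)
(.spl (nat_lit 6) (nat_lit 20)
(.ref (nat_lit 44))
(.ref (nat_lit 45)))
(.ref (nat_lit 46)))))))
(.trZ (nat_lit 0) (nat_lit 100) (nat_lit 96) (nat_lit 54) (nat_lit 28) (.spl (nat_lit 6) (nat_lit 20)
(.spl (nat_lit 1) (nat_lit 250)
(.ref (nat_lit 47))
(.ref (nat_lit 48)))
(.ref (nat_lit 49)))))
(.ref (nat_lit 50)))
(.trZ (nat_lit 0) (nat_lit 100) (nat_lit 100) (nat_lit 60) (nat_lit 36) (.trX (nat_lit 19) (nat_lit 100) (nat_lit 99) (nat_lit 63) (nat_lit 268) (.spl (nat_lit 2) (nat_lit 120)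
(.spl (nat_lit 8) (nat_lit 800)
(.spl (nat_lit 4) (nat_lit 200)
(.spl (nat_lit 2) (nat_lit 80)
(.spl (nat_lit 4) (nat_lit 180)
(.ref (nat_lit 51))
(.ref (nat_lit 52)))
(.ref (nat_lit 53)))
(.spl (nat_lit 6) (nat_lit 20)
(.ref (nat_lit 54))
(.ref (nat_lit 55))))
(.ref (nat_lit 56)))
(.ref (nat_lit 57))))))))
(.ref (nat_lit 58)))
(.spl (nat_lit 2) (nat_lit 120)
(.spl (nat_lit 0) (nat_lit 260)
(.ord (.spl (nat_lit 2) (nat_lit 80)
(.spl (nat_lit 0) (nat_lit 250)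
(.ord (.spl (nat_lit 6) (nat_lit 32)
(.spl (nat_lit 6) (nat_lit 20)
(.spl (nat_lit 6) (nat_lit 8)
(.spl (nat_lit 2) (nat_lit 40)
(.spl (nat_lit 7) (nat_lit 600)
(.spl (nat_lit 1) (nat_lit 245)
(.ref (nat_lit 59))
(.ref (nat_lit 60)))
(.leaf t04_l24))
(.ref (nat_lit 61)))
(.spl (nat_lit 2) (nat_lit 40)
(.spl (nat_lit 4) (nat_lit 260)
(.ref (nat_lit 62))
(.trX (nat_lit 23) (nat_lit 100) (nat_lit 99) (nat_lit 63) (nat_lit 268) (.spl (nat_lit 2) (nat_lit 32)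
(.trX (nat_lit 23) (nat_lit 99) (nat_lit 100) (nat_lit 56) (nat_lit 256) (.spl (nat_lit 6) (nat_lit 16)
(.spl (nat_lit 0) (nat_lit 245)
(.ref (nat_lit 63))
(.trX (nat_lit 16) (nat_lit 100) (nat_lit 94) (nat_lit 62) (nat_lit 284) (.spl (nat_lit 2) (nat_lit 20)
(.ref (nat_lit 64))
(.spl (nat_lit 1) (nat_lit 245)
(.ref (nat_lit 65))
(.spl (nat_lit 6) (nat_lit 12)
(.spl (nat_lit 0) (nat_lit 248)
(.ref (nat_lit 66))
(.ref (nat_lit 67)))
(.leaf t04_l25))))))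
(.ref (nat_lit 68))))
(.ref (nat_lit 69)))))
(.leaf t04_l26)))
(.ref (nat_lit 70)))
(.leaf t04_l27)))
(.trZ (nat_lit 0) (nat_lit 100) (nat_lit 99) (nat_lit 45) (nat_lit 20) (.trX (nat_lit 16) (nat_lit 100) (nat_lit 95) (nat_lit 62) (nat_lit 280) (.spl (nat_lit 6) (nat_lit 20)
(.spl (nat_lit 0) (nat_lit 255)
(.ref (nat_lit 71))
(.trX (nat_lit 16) (nat_lit 100) (nat_lit 97) (nat_lit 62) (nat_lit 272) (.spl (nat_lit 6) (nat_lit 8)
(.spl (nat_lit 1) (nat_lit 250)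
(.ref (nat_lit 72))
(.trZ (nat_lit 0) (nat_lit 100) (nat_lit 99) (nat_lit 52) (nat_lit 24) (.trX (nat_lit 19) (nat_lit 100) (nat_lit 95) (nat_lit 62) (nat_lit 280) (.spl (nat_lit 2) (nat_lit 40)
(.ref (nat_lit 73))
(.ref (nat_lit 74))))))
(.ref (nat_lit 75)))))
(.ref (nat_lit 76))))))
(.ref (nat_lit 77))))
(.trZ (nat_lit 0) (nat_lit 100) (nat_lit 97) (nat_lit 49) (nat_lit 24) (.trX (nat_lit 16) (nat_lit 100) (nat_lit 99) (nat_lit 63) (nat_lit 268) (.spl (nat_lit 1) (nat_lit 260)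
(.ref (nat_lit 78))
(.trZ (nat_lit 0) (nat_lit 100) (nat_lit 100) (nat_lit 60) (nat_lit 36) (.trX (nat_lit 19) (nat_lit 100) (nat_lit 99) (nat_lit 63) (nat_lit 268) (.spl (nat_lit 6) (nat_lit 20)
(.ref (nat_lit 79))
(.ref (nat_lit 80)))))))))
(.ref (nat_lit 81)))))
(.ref (nat_lit 82))))
(.st (nat_lit 1)
(.spl (nat_lit 0) (nat_lit 260)
(.ord (.spl (nat_lit 2) (nat_lit 240)
(.ref (nat_lit 83))
(.ref (nat_lit 84))))
(.trZ (nat_lit 0) (nat_lit 100) (nat_lit 97) (nat_lit 49) (nat_lit 24) (.trX (nat_lit 16) (nat_lit 100) (nat_lit 99) (nat_lit 63) (nat_lit 268) (.spl (nat_lit 2) (nat_lit 240)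
(.spl (nat_lit 4) (nat_lit 160)
(.ref (nat_lit 85))
(.ref (nat_lit 86)))
(.ref (nat_lit 87))))))
(.ref (nat_lit 88)))))
(.st (nat_lit 0)
(.gv
(.ref (nat_lit 89))
(.ref (nat_lit 90)))
(.gv
(.st (nat_lit 1)
(.spl (nat_lit 2) (nat_lit 240)
(.spl (nat_lit 4) (nat_lit 160)
(.ref (nat_lit 91))
(.ref (nat_lit 92)))
(.ref (nat_lit 93)))
(.spl (nat_lit 2) (nat_lit 240)
(.spl (nat_lit 4) (nat_lit 160)
(.spl (nat_lit 2) (nat_lit 160)
(.ref (nat_lit 94))
(.ref (nat_lit 95)))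
(.spl (nat_lit 4) (nat_lit 240)
(.ref (nat_lit 96))
(.ref (nat_lit 97))))
(.leaf t04_l28)))
(.st (nat_lit 1)
(.ref (nat_lit 98))
(.spl (nat_lit 2) (nat_lit 240)
(.spl (nat_lit 0) (nat_lit 260)
(.ref (nat_lit 99))
(.trZ (nat_lit 0) (nat_lit 100) (nat_lit 97) (nat_lit 49) (nat_lit 24) (.trX (nat_lit 16) (nat_lit 100) (nat_lit 99) (nat_lit 63) (nat_lit 268) (.spl (nat_lit 7) (nat_lit 600)
(.ref (nat_lit 100))
(.spl (nat_lit 7) (nat_lit 900)
(.spl (nat_lit 6) (nat_lit 60)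
(.spl (nat_lit 0) (nat_lit 270)
(.ord (.spl (nat_lit 0) (nat_lit 265)
(.ord (.spl (nat_lit 6) (nat_lit 48)
(.spl (nat_lit 1) (nat_lit 250)
(.ref (nat_lit 101))
(.trZ (nat_lit 0) (nat_lit 100) (nat_lit 99) (nat_lit 55) (nat_lit 28) (.trX (nat_lit 19) (nat_lit 100) (nat_lit 95) (nat_lit 62) (nat_lit 280) (.spl (nat_lit 8) (nat_lit 800)
(.spl (nat_lit 7) (nat_lit 760)
(.ref (nat_lit 102))
(.spl (nat_lit 7) (nat_lit 840)
(.spl (nat_lit 7) (nat_lit 800)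
(.spl (nat_lit 1) (nat_lit 260)
(.ref (nat_lit 103))
(.ref (nat_lit 104)))
(.leaf t04_l29))
(.leaf t04_l30)))
(.leaf t04_l31)))))
(.leaf t04_l32)))
(.ref (nat_lit 105))))
(.ref (nat_lit 106)))
(.ref (nat_lit 107)))
(.leaf t04_l33))))))
(.leaf t04_l34)))))))))) (by decide +kernel)
theorem done_VL_600_600_5 (h : EB TB.env) : RC.Done ⟨true, 40, 240, 280, 240, 280, 20, 40, [68]⟩ := RC.done1 (r_VL_600_600_5 h) (t_VL_600_600_5 h)
theorem t_V_400_400_10 (h : EB TB.env) : RC.Tail ⟨true, 80, 160, 200, 160, 200, 40, 80, []⟩ := RC.tail_chk h (b := ⟨nat_lit 40, nat_lit 0, nat_lit 5, nat_lit 5, nat_lit 20, nat_lit 226, nat_lit 20, nat_lit 20, nat_lit 5⟩) (by decide +kernel)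
theorem done_V_400_400_10 (h : EB TB.env) : RC.Done ⟨true, 80, 160, 200, 160, 200, 40, 80, []⟩ := RC.done0 (t_V_400_400_10 h)
theorem t_V_400_400_20 (h : EB TB.env) : RC.Tail ⟨true, 120, 160, 200, 160, 200, 80, 120, []⟩ := RC.tail_chk h (b := ⟨nat_lit 60, nat_lit 0, nat_lit 5, nat_lit 5, nat_lit 20, nat_lit 238, nat_lit 30, nat_lit 14, nat_lit 15⟩) (by decide +kernel)
theorem done_V_400_400_20 (h : EB TB.env) : RC.Done ⟨true, 120, 160, 200, 160, 200, 80, 120, []⟩ := RC.done0 (t_V_400_400_20 h)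
theorem t_V_400_400_5 (h : EB TB.env) : RC.Tail ⟨true, 40, 160, 200, 160, 200, 20, 40, []⟩ := RC.tail_chk h (b := ⟨nat_lit 20, nat_lit 0, nat_lit 5, nat_lit 5, nat_lit 20, nat_lit 215, nat_lit 10, nat_lit 36, nat_lit 0⟩) (by decide +kernel)
theorem done_V_400_400_5 (h : EB TB.env) : RC.Done ⟨true, 40, 160, 200, 160, 200, 20, 40, []⟩ := RC.done0 (t_V_400_400_5 h)
theorem t_V_500_400_10 (h : EB TB.env) : RC.Tail ⟨true, 80, 200, 240, 160, 200, 40, 80, []⟩ := RC.tail_chk h (b := ⟨nat_lit 40, nat_lit 0, nat_lit 5, nat_lit 5, nat_lit 20, nat_lit 226, nat_lit 20, nat_lit 19, nat_lit 5⟩) (by decide +kernel)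
theorem done_V_500_400_10 (h : EB TB.env) : RC.Done ⟨true, 80, 200, 240, 160, 200, 40, 80, []⟩ := RC.done0 (t_V_500_400_10 h)
theorem t_V_500_400_20 (h : EB TB.env) : RC.Tail ⟨true, 120, 200, 240, 160, 200, 80, 120, []⟩ := RC.tail_chk h (b := ⟨nat_lit 60, nat_lit 0, nat_lit 5, nat_lit 5, nat_lit 20, nat_lit 238, nat_lit 30, nat_lit 14, nat_lit 15⟩) (by decide +kernel)
theorem done_V_500_400_20 (h : EB TB.env) : RC.Done ⟨true, 120, 200, 240, 160, 200, 80, 120, []⟩ := RC.done0 (t_V_500_400_20 h)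
theorem t_V_500_500_10 (h : EB TB.env) : RC.Tail ⟨true, 80, 200, 240, 200, 240, 40, 80, [4]⟩ := RC.tail_chk h (b := ⟨nat_lit 40, nat_lit 2, nat_lit 5, nat_lit 5, nat_lit 20, nat_lit 226, nat_lit 20, nat_lit 19, nat_lit 5⟩) (by decide +kernel)
theorem r_V_500_500_10 (h : EB TB.env) : Dead (RC.box ⟨true, 80, 200, 240, 200, 240, 40, 80, [4]⟩ 0 4) := chkB_sound h (refs := [b_V_500_500_10_0, b_V_500_500_10_1, b_V_500_500_10_2, b_V_500_500_10_3, b_V_500_500_10_4]) (refs_cons (d_V_500_500_10_0 h) (refs_cons (d_V_500_500_10_1 h) (refs_cons (d_V_500_500_10_2 h) (refs_cons (d_V_500_500_10_3 h) (refs_cons (d_V_500_500_10_4 h) (refs_nil)))))) (T :=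
(.trX (nat_lit 16) (nat_lit 100) (nat_lit 60) (nat_lit 80) (nat_lit 360) (.trX (nat_lit 19) (nat_lit 100) (nat_lit 60) (nat_lit 80) (nat_lit 360) (.st (nat_lit 0)
(.gv
(.ref (nat_lit 0))
(.ref (nat_lit 1)))
(.gv
(.st (nat_lit 1)
(.ref (nat_lit 2))
(.ref (nat_lit 3)))
(.ref (nat_lit 4))))))) (by decide +kernel)
theorem done_V_500_500_10 (h : EB TB.env) : RC.Done ⟨true, 80, 200, 240, 200, 240, 40, 80, [4]⟩ := RC.done1 (r_V_500_500_10 h) (t_V_500_500_10 h)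
theorem t_V_500_500_20 (h : EB TB.env) : RC.Tail ⟨true, 120, 200, 240, 200, 240, 80, 120, []⟩ := RC.tail_chk h (b := ⟨nat_lit 60, nat_lit 0, nat_lit 5, nat_lit 5, nat_lit 20, nat_lit 238, nat_lit 30, nat_lit 13, nat_lit 15⟩) (by decide +kernel)
theorem done_V_500_500_20 (h : EB TB.env) : RC.Done ⟨true, 120, 200, 240, 200, 240, 80, 120, []⟩ := RC.done0 (t_V_500_500_20 h)
theorem t_V_600_400_10 (h : EB TB.env) : RC.Tail ⟨true, 80, 240, 280, 160, 200, 40, 80, [16]⟩ := RC.tail_chk h (b := ⟨nat_lit 40, nat_lit 8, nat_lit 5, nat_lit 5, nat_lit 20, nat_lit 226, nat_lit 20, nat_lit 19, nat_lit 5⟩) (by decide +kernel)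
theorem r_V_600_400_10 (h : EB TB.env) : Dead (RC.box ⟨true, 80, 240, 280, 160, 200, 40, 80, [16]⟩ 0 16) := chkB_sound h (refs := [b_V_600_400_10_0, b_V_600_400_10_1, b_V_600_400_10_2]) (refs_cons (d_V_600_400_10_0 h) (refs_cons (d_V_600_400_10_1 h) (refs_cons (d_V_600_400_10_2 h) (refs_nil)))) (T :=
(.trX (nat_lit 13) (nat_lit 98) (nat_lit 20) (nat_lit 100) (nat_lit 396) (.trX (nat_lit 16) (nat_lit 100) (nat_lit 76) (nat_lit 82) (nat_lit 336) (.trX (nat_lit 19) (nat_lit 100) (nat_lit 44) (nat_lit 82) (nat_lit 384) (.st (nat_lit 0)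
(.ref (nat_lit 0))
(.gv
(.ref (nat_lit 1))
(.ref (nat_lit 2)))))))) (by decide +kernel)
theorem done_V_600_400_10 (h : EB TB.env) : RC.Done ⟨true, 80, 240, 280, 160, 200, 40, 80, [16]⟩ := RC.done1 (r_V_600_400_10 h) (t_V_600_400_10 h)
theorem t_V_600_400_20 (h : EB TB.env) : RC.Tail ⟨true, 120, 240, 280, 160, 200, 80, 120, []⟩ := RC.tail_chk h (b := ⟨nat_lit 60, nat_lit 0, nat_lit 5, nat_lit 5, nat_lit 20, nat_lit 238, nat_lit 30, nat_lit 13, nat_lit 15⟩) (by decide +kernel)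
theorem done_V_600_400_20 (h : EB TB.env) : RC.Done ⟨true, 120, 240, 280, 160, 200, 80, 120, []⟩ := RC.done0 (t_V_600_400_20 h)
theorem t_V_600_500_10 (h : EB TB.env) : RC.Tail ⟨true, 80, 240, 280, 200, 240, 40, 80, [32]⟩ := RC.tail_chk h (b := ⟨nat_lit 40, nat_lit 16, nat_lit 5, nat_lit 5, nat_lit 20, nat_lit 226, nat_lit 20, nat_lit 18, nat_lit 5⟩) (by decide +kernel)
noncomputable def t04_l35 : Lf2 := ⟨nat_lit 0, nat_lit 8, [nat_lit 50, nat_lit 5, nat_lit 5, nat_lit 20], true, nat_lit 160, nat_lit 240, nat_lit 0, nat_lit 360, ⟨nat_lit 0, nat_lit 0, nat_lit 1000, nat_lit 5, nat_lit 100, nat_lit 1000, nat_lit 140, nat_lit 1000, nat_lit 183750, nat_lit 320, nat_lit 93750, nat_lit 290, nat_lit 54784274, nat_lit 0, nat_lit 0, nat_lit 3163250, false, false⟩,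
 nat_lit 0, nat_lit 0, nat_lit 0, nat_lit 5414, nat_lit 5210, nat_lit 0, nat_lit 0, nat_lit 0, nat_lit 0, nat_lit 0, nat_lit 0, nat_lit 0, nat_lit 0, nat_lit 0, nat_lit 106, nat_lit 683800, nat_lit 0, nat_lit 0, [(nat_lit 6, [(nat_lit 5, nat_lit 527), (nat_lit 6, nat_lit 473)]), (nat_lit 9, [(nat_lit 5, nat_lit 527), (nat_lit 6, nat_lit 473)])],
 ⟨t04_k20, nat_lit 0, nat_lit 0, nat_lit 148, nat_lit 0, nat_lit 0, [nat_lit 3544796800, nat_lit 10168000], [], [nat_lit 13090588920, nat_lit 15693187512, nat_lit 10857548480, nat_lit 12886594440, nat_lit 16193430520, nat_lit 19103796097, nat_lit 13462784800, nat_lit 15664177280], nat_lit 0, nat_lit 0, nat_lit 0, nat_lit 0, nat_lit 0, nat_lit 0, [], [nat_lit 70, nat_lit 40, nat_lit 40, nat_lit 80, nat_lit 13, nat_lit 401, nat_lit 175, nat_lit 12]⟩, C1.Rw.none,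
 ⟨nat_lit 5477, nat_lit 6325, ⟨.ofNat (nat_lit 96904), .ofNat (nat_lit 335470), .ofNat (nat_lit 139640), .ofNat (nat_lit 378206), .ofNat (nat_lit 132827), .ofNat (nat_lit 350132), .ofNat (nat_lit 175541), .ofNat (nat_lit 392847)⟩, ⟨.ofNat (nat_lit 246791), .ofNat (nat_lit 411320), .ofNat (nat_lit 289527), .ofNat (nat_lit 454055), .ofNat (nat_lit 254209), .ofNat (nat_lit 404075), .ofNat (nat_lit 296923), .ofNat (nat_lit 446789)⟩⟩, [⟨nat_lit 0, nat_lit 100, nat_lit 96, nat_lit 40, nat_lit 247278102⟩]⟩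
noncomputable def t04_l36 : Lf2 := ⟨nat_lit 0, nat_lit 8, [nat_lit 50, nat_lit 5, nat_lit 5, nat_lit 20], true, nat_lit 160, nat_lit 336, nat_lit 0, nat_lit 360, ⟨nat_lit 0, nat_lit 1000, nat_lit 0, nat_lit 5, nat_lit 193, nat_lit 1000, nat_lit 178, nat_lit 0, nat_lit 0, nat_lit 0, nat_lit 0, nat_lit 0, nat_lit 44588403, nat_lit 11916838, nat_lit 10494759, nat_lit 4671692, false, false⟩,
 nat_lit 0, nat_lit 0, nat_lit 0, nat_lit 6628, nat_lit 5436, nat_lit 0, nat_lit 0, nat_lit 0, nat_lit 0, nat_lit 0, nat_lit 0, nat_lit 0, nat_lit 0, nat_lit 0, nat_lit 0, nat_lit 250000, nat_lit 0, nat_lit 0, [(nat_lit 6, [(nat_lit 0, nat_lit 1000)]), (nat_lit 9, [(nat_lit 0, nat_lit 1000)])],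
 ⟨t04_k20, nat_lit 0, nat_lit 0, nat_lit 44, nat_lit 0, nat_lit 0, [nat_lit 3128000000, nat_lit 3710400000], [], [nat_lit 9579905392, nat_lit 12795785168, nat_lit 14490868064, nat_lit 17010110320, nat_lit 20720866461, nat_lit 23027998525, nat_lit 23498392522, nat_lit 25335508330], nat_lit 0, nat_lit 0, nat_lit 0, nat_lit 0, nat_lit 0, nat_lit 0, [], [nat_lit 70, nat_lit 40, nat_lit 40, nat_lit 80, nat_lit 13, nat_lit 456, nat_lit 225, nat_lit 13]⟩, C1.Rw.none,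
 ⟨nat_lit 5477, nat_lit 6325, ⟨.ofNat (nat_lit 335470), .ofNat (nat_lit 582178), .ofNat (nat_lit 378206), .ofNat (nat_lit 624852), .ofNat (nat_lit 350132), .ofNat (nat_lit 574846), .ofNat (nat_lit 392847), .ofNat (nat_lit 617499)⟩, ⟨.ofNat (nat_lit 246791), .ofNat (nat_lit 608692), .ofNat (nat_lit 289527), .ofNat (nat_lit 651380), .ofNat (nat_lit 254209), .ofNat (nat_lit 583853), .ofNat (nat_lit 296923), .ofNat (nat_lit 626519)⟩⟩, [⟨nat_lit 16, nat_lit 100, nat_lit 92, nat_lit 75, nat_lit 244893324⟩]⟩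
noncomputable def t04_l37 : Lf2 := ⟨nat_lit 0, nat_lit 4, [nat_lit 38, nat_lit 5, nat_lit 5, nat_lit 20], false, nat_lit 240, nat_lit 336, nat_lit 0, nat_lit 360, ⟨nat_lit 0, nat_lit 1000, nat_lit 0, nat_lit 5, nat_lit 192, nat_lit 1000, nat_lit 211, nat_lit 0, nat_lit 0, nat_lit 0, nat_lit 0, nat_lit 0, nat_lit 42169944, nat_lit 11510622, nat_lit 13319434, nat_lit 4931840, false, false⟩,
 nat_lit 0, nat_lit 12457, nat_lit 0, nat_lit 0, nat_lit 6594, nat_lit 0, nat_lit 1392, nat_lit 0, nat_lit 0, nat_lit 0, nat_lit 0, nat_lit 0, nat_lit 0, nat_lit 0, nat_lit 0, nat_lit 1000000, nat_lit 0, nat_lit 0, [(nat_lit 6, [(nat_lit 2, nat_lit 1000)])],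
 ⟨t04_k21, nat_lit 0, nat_lit 0, nat_lit 122, nat_lit 0, nat_lit 150248, [nat_lit 2819200000, nat_lit 2800800000, nat_lit 2471200000], [], [nat_lit 13557578992, nat_lit 14695142496, nat_lit 17981430136, nat_lit 17946303516, nat_lit 21223965304, nat_lit 22497709642, nat_lit 23951038047, nat_lit 24943087263], nat_lit 1271250, nat_lit 1271250, nat_lit 780000, nat_lit 1762500, nat_lit 1271250, nat_lit 1271250, [nat_lit 1100000, nat_lit 1442500, nat_lit 1271250], [nat_lit 9, nat_lit 40, nat_lit 40, nat_lit 80, nat_lit 2, nat_lit 272, nat_lit 60, nat_lit 8]⟩, ⟨t04_k22, nat_lit 0, nat_lit 0, nat_lit 245, nat_lit 0, nat_lit 195442, [nat_lit 0, nat_lit 0, nat_lit 0], [], [nat_lit 0, nat_lit 0, nat_lit 0, nat_lit 0, nat_lit 0, nat_lit 0, nat_lit 0, nat_lit 0], nat_lit 1271250, nat_lit 1271250, nat_lit 780000, nat_lit 1762500, nat_lit 0, nat_lit 2542500, [nat_lit 1412500, nat_lit 1271250, nat_lit 1271250],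 [nat_lit 25, nat_lit 40, nat_lit 40, nat_lit 80, nat_lit 17, nat_lit 456, nat_lit 225, nat_lit 13]⟩,
 ⟨nat_lit 5916, nat_lit 6325, ⟨.ofNat (nat_lit 335470), .ofNat (nat_lit 582240), .ofNat (nat_lit 378206), .ofNat (nat_lit 624961), .ofNat (nat_lit 342931), .ofNat (nat_lit 578509), .ofNat (nat_lit 385610), .ofNat (nat_lit 621173)⟩, ⟨.ofNat (nat_lit 411320), .ofNat (nat_lit 608730), .ofNat (nat_lit 454055), .ofNat (nat_lit 651452), .ofNat (nat_lit 407818), .ofNat (nat_lit 596275), .ofNat (nat_lit 450496), .ofNat (nat_lit 638940)⟩⟩, [⟨nat_lit 4, nat_lit 88, nat_lit 100, nat_lit 74, nat_lit 405298907⟩]⟩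
noncomputable def t04_l38 : Lf2 := ⟨nat_lit 1, nat_lit 8, [nat_lit 50, nat_lit 5, nat_lit 5, nat_lit 20], false, nat_lit 240, nat_lit 336, nat_lit 0, nat_lit 360, zbN0,
 nat_lit 0, nat_lit 0, nat_lit 0, nat_lit 0, nat_lit 0, nat_lit 0, nat_lit 0, nat_lit 0, nat_lit 0, nat_lit 0, nat_lit 0, nat_lit 0, nat_lit 0, nat_lit 0, nat_lit 0, nat_lit 0, nat_lit 0, nat_lit 0, [],
 C1.Rw.none, C1.Rw.none,
 zbF0, []⟩
theorem r_V_600_500_10 (h : EB TB.env) : Dead (RC.box ⟨true, 80, 240, 280, 200, 240, 40, 80, [32]⟩ 0 32) := chkB_sound h (refs := [b_V_600_500_10_0, b_V_600_500_10_1, b_V_600_500_10_2, b_V_600_500_10_3, b_V_600_500_10_4, b_V_600_500_10_5, b_V_600_500_10_6, b_V_600_500_10_7, b_V_600_500_10_8, b_V_600_500_10_9, b_V_600_500_10_10, b_V_600_500_10_11, b_V_600_500_10_12, b_V_600_500_10_13, b_V_600_500_10_14, b_V_600_500_10_15, b_V_600_500_10_16, b_V_600_500_10_17, b_V_600_500_10_18, b_V_600_500_10_19])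 (refs_cons (d_V_600_500_10_0 h) (refs_cons (d_V_600_500_10_1 h) (refs_cons (d_V_600_500_10_2 h) (refs_cons (d_V_600_500_10_3 h) (refs_cons (d_V_600_500_10_4 h) (refs_cons (d_V_600_500_10_5 h) (refs_cons (d_V_600_500_10_6 h) (refs_cons (d_V_600_500_10_7 h) (refs_cons (d_V_600_500_10_8 h) (refs_cons (d_V_600_500_10_9 h) (refs_cons (d_V_600_500_10_10 h) (refs_cons (d_V_600_500_10_11 h) (refs_cons (d_V_600_500_10_12 h) (refs_cons (d_V_600_500_10_13 h) (refs_cons (d_V_600_500_10_14 h) (refs_cons (d_V_600_500_10_15 h) (refs_cons (d_V_600_500_10_16 h) (refs_cons (d_V_600_500_10_17 h) (refs_cons (d_V_600_500_10_18 h) (refs_cons (d_V_600_500_10_19 h) (refs_nil))))))))))))))))))))) (T :=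
(.trZ (nat_lit 0) (nat_lit 100) (nat_lit 98) (nat_lit 20) (nat_lit 4) (.trX (nat_lit 16) (nat_lit 100) (nat_lit 76) (nat_lit 82) (nat_lit 336) (.trX (nat_lit 19) (nat_lit 100) (nat_lit 60) (nat_lit 80) (nat_lit 360) (.st (nat_lit 0)
(.gv
(.st (nat_lit 1)
(.ref (nat_lit 0))
(.spl (nat_lit 2) (nat_lit 240)
(.spl (nat_lit 4) (nat_lit 160)
(.ref (nat_lit 1))
(.spl (nat_lit 2) (nat_lit 120)
(.spl (nat_lit 4) (nat_lit 240)
(.leaf t04_l35)
(.spl (nat_lit 4) (nat_lit 280)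
(.ref (nat_lit 2))
(.ref (nat_lit 3))))
(.leaf t04_l36)))
(.ref (nat_lit 4))))
(.ref (nat_lit 5)))
(.gv
(.st (nat_lit 1)
(.spl (nat_lit 2) (nat_lit 240)
(.spl (nat_lit 4) (nat_lit 160)
(.spl (nat_lit 2) (nat_lit 160)
(.ref (nat_lit 6))
(.ref (nat_lit 7)))
(.spl (nat_lit 4) (nat_lit 240)
(.ref (nat_lit 8))
(.spl (nat_lit 0) (nat_lit 260)
(.ref (nat_lit 9))
(.ref (nat_lit 10)))))
(.ref (nat_lit 11)))
(.spl (nat_lit 2) (nat_lit 240)
(.spl (nat_lit 4) (nat_lit 160)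
(.ref (nat_lit 12))
(.spl (nat_lit 4) (nat_lit 240)
(.ref (nat_lit 13))
(.spl (nat_lit 0) (nat_lit 260)
(.spl (nat_lit 6) (nat_lit 16)
(.spl (nat_lit 2) (nat_lit 120)
(.ref (nat_lit 14))
(.leaf t04_l37))
(.leaf t04_l38))
(.trZ (nat_lit 0) (nat_lit 100) (nat_lit 95) (nat_lit 30) (nat_lit 8) (.trX (nat_lit 16) (nat_lit 100) (nat_lit 85) (nat_lit 84) (nat_lit 320) (.spl (nat_lit 2) (nat_lit 120)
(.spl (nat_lit 3) (nat_lit 60)
(.ref (nat_lit 15))
(.ref (nat_lit 16)))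
(.ref (nat_lit 17))))))))
(.ref (nat_lit 18))))
(.ref (nat_lit 19)))))))) (by decide +kernel)
theorem done_V_600_500_10 (h : EB TB.env) : RC.Done ⟨true, 80, 240, 280, 200, 240, 40, 80, [32]⟩ := RC.done1 (r_V_600_500_10 h) (t_V_600_500_10 h)
theorem t_V_600_500_20 (h : EB TB.env) : RC.Tail ⟨true, 120, 240, 280, 200, 240, 80, 120, [8]⟩ := RC.tail_chk h (b := ⟨nat_lit 60, nat_lit 4, nat_lit 5, nat_lit 5, nat_lit 20, nat_lit 238, nat_lit 30, nat_lit 13, nat_lit 15⟩) (by decide +kernel)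
theorem r_V_600_500_20 (h : EB TB.env) : Dead (RC.box ⟨true, 120, 240, 280, 200, 240, 80, 120, [8]⟩ 0 8) := chkB_sound h (refs := [b_V_600_500_20_0, b_V_600_500_20_1, b_V_600_500_20_2, b_V_600_500_20_3, b_V_600_500_20_4]) (refs_cons (d_V_600_500_20_0 h) (refs_cons (d_V_600_500_20_1 h) (refs_cons (d_V_600_500_20_2 h) (refs_cons (d_V_600_500_20_3 h) (refs_cons (d_V_600_500_20_4 h) (refs_nil)))))) (T :=
(.trZ (nat_lit 0) (nat_lit 100) (nat_lit 98) (nat_lit 20) (nat_lit 4) (.trX (nat_lit 16) (nat_lit 100) (nat_lit 59) (nat_lit 94) (nat_lit 364) (.trX (nat_lit 19) (nat_lit 100) (nat_lit 40) (nat_lit 92) (nat_lit 384) (.st (nat_lit 0)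
(.gv
(.ref (nat_lit 0))
(.ref (nat_lit 1)))
(.gv
(.st (nat_lit 1)
(.ref (nat_lit 2))
(.ref (nat_lit 3)))
(.ref (nat_lit 4)))))))) (by decide +kernel)
theorem done_V_600_500_20 (h : EB TB.env) : RC.Done ⟨true, 120, 240, 280, 200, 240, 80, 120, [8]⟩ := RC.done1 (r_V_600_500_20 h) (t_V_600_500_20 h)

end B2
end Pool.Agent.Lib.MP_6947cd_al
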