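import Pool.Agent.Lib.MP_6947cd_al.ZB.Pre

/-!
Problem MP_6947cd_al (Chollet).  Case B, second entry in [2/5, 17/20]: certificates of the tree, part P044 (generated).
-/

set_option autoImplicit false
set_option linter.all false

namespace Pool.Agent.Lib.MP_6947cd_al
namespace B2

open Ent Fr B1 PkA

noncomputable def p044_k0 : C1.Kn := ⟨[nat_lit 80, nat_lit 140], [nat_lit 0, nat_lit 0], [(nat_lit 0, nat_lit 0, nat_lit 0), (nat_lit 0, nat_lit 0, nat_lit 0)], (nat_lit 100, nat_lit 98, nat_lit 48)⟩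
noncomputable def p044_k1 : C1.Kn := ⟨[nat_lit 80, nat_lit 100, nat_lit 140], [nat_lit 0, nat_lit 0, nat_lit 1022], [(nat_lit 0, nat_lit 0, nat_lit 0), (nat_lit 0, nat_lit 0, nat_lit 0), (nat_lit 1000, nat_lit 1000, nat_lit 399)], (nat_lit 100, nat_lit 98, nat_lit 48)⟩
noncomputable def p044_k2 : C1.Kn := ⟨[nat_lit 80, nat_lit 100, nat_lit 140], [nat_lit 0, nat_lit 132, nat_lit 1148], [(nat_lit 0, nat_lit 0, nat_lit 0), (nat_lit 1000, nat_lit 979, nat_lit 103), (nat_lit 1000, nat_lit 979, nat_lit 397)], (nat_lit 100, nat_lit 100, nat_lit 49)⟩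
noncomputable def p044_k3 : C1.Kn := ⟨[nat_lit 80, nat_lit 120, nat_lit 140], [nat_lit 0, nat_lit 0, nat_lit 1164], [(nat_lit 0, nat_lit 0, nat_lit 0), (nat_lit 0, nat_lit 0, nat_lit 0), (nat_lit 941, nat_lit 1000, nat_lit 576)], (nat_lit 100, nat_lit 98, nat_lit 48)⟩
noncomputable def p044_k4 : C1.Kn := ⟨[nat_lit 80, nat_lit 140], [nat_lit 0, nat_lit 792], [(nat_lit 0, nat_lit 0, nat_lit 0), (nat_lit 1000, nat_lit 959, nat_lit 206)], (nat_lit 100, nat_lit 99, nat_lit 63)⟩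
noncomputable def p044_k5 : C1.Kn := ⟨[nat_lit 80, nat_lit 100, nat_lit 120], [nat_lit 0, nat_lit 265, nat_lit 768], [(nat_lit 0, nat_lit 0, nat_lit 0), (nat_lit 1000, nat_lit 959, nat_lit 206), (nat_lit 1000, nat_lit 958, nat_lit 392)], (nat_lit 96, nat_lit 100, nat_lit 44)⟩
noncomputable def p044_k6 : C1.Kn := ⟨[nat_lit 80, nat_lit 140], [nat_lit 0, nat_lit 995], [(nat_lit 0, nat_lit 0, nat_lit 0), (nat_lit 1000, nat_lit 948, nat_lit 259)], (nat_lit 99, nat_lit 100, nat_lit 63)⟩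
noncomputable def p044_k7 : C1.Kn := ⟨[nat_lit 80, nat_lit 140], [nat_lit 0, nat_lit 1192], [(nat_lit 0, nat_lit 0, nat_lit 0), (nat_lit 1000, nat_lit 938, nat_lit 310)], (nat_lit 98, nat_lit 100, nat_lit 63)⟩
noncomputable def p044_k8 : C1.Kn := ⟨[nat_lit 80, nat_lit 100, nat_lit 140], [nat_lit 0, nat_lit 0, nat_lit 1022], [(nat_lit 0, nat_lit 0, nat_lit 0), (nat_lit 0, nat_lit 0, nat_lit 0), (nat_lit 1000, nat_lit 1000, nat_lit 399)], (nat_lit 100, nat_lit 99, nat_lit 44)⟩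
noncomputable def p044_k9 : C1.Kn := ⟨[nat_lit 80, nat_lit 120, nat_lit 140], [nat_lit 0, nat_lit 528, nat_lit 1572], [(nat_lit 0, nat_lit 0, nat_lit 0), (nat_lit 1000, nat_lit 959, nat_lit 206), (nat_lit 966, nat_lit 1000, nat_lit 679)], (nat_lit 100, nat_lit 99, nat_lit 63)⟩
noncomputable def p044_k10 : C1.Kn := ⟨[nat_lit 80, nat_lit 140, nat_lit 160], [nat_lit 0, nat_lit 0, nat_lit 2151], [(nat_lit 0, nat_lit 0, nat_lit 0), (nat_lit 0, nat_lit 0, nat_lit 0), (nat_lit 823, nat_lit 1000, nat_lit 757)], (nat_lit 100, nat_lit 92, nat_lit 61)⟩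
noncomputable def p044_k11 : C1.Kn := ⟨[nat_lit 80, nat_lit 120, nat_lit 160], [nat_lit 0, nat_lit 0, nat_lit 2132], [(nat_lit 0, nat_lit 0, nat_lit 0), (nat_lit 0, nat_lit 0, nat_lit 0), (nat_lit 858, nat_lit 1000, nat_lit 713)], (nat_lit 100, nat_lit 92, nat_lit 61)⟩
noncomputable def p044_k12 : C1.Kn := ⟨[nat_lit 80, nat_lit 160], [nat_lit 0, nat_lit 0], [(nat_lit 0, nat_lit 0, nat_lit 0), (nat_lit 0, nat_lit 0, nat_lit 0)], (nat_lit 100, nat_lit 92, nat_lit 61)⟩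
noncomputable def p044_k13 : C1.Kn := ⟨[nat_lit 80, nat_lit 100, nat_lit 160], [nat_lit 0, nat_lit 0, nat_lit 1533], [(nat_lit 0, nat_lit 0, nat_lit 0), (nat_lit 0, nat_lit 0, nat_lit 0), (nat_lit 1000, nat_lit 1000, nat_lit 399)], (nat_lit 100, nat_lit 92, nat_lit 61)⟩
noncomputable def p044_k14 : C1.Kn := ⟨[nat_lit 80, nat_lit 120, nat_lit 140], [nat_lit 0, nat_lit 264, nat_lit 1360], [(nat_lit 0, nat_lit 0, nat_lit 0), (nat_lit 1000, nat_lit 979, nat_lit 103), (nat_lit 951, nat_lit 1000, nat_lit 628)], (nat_lit 100, nat_lit 100, nat_lit 49)⟩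
noncomputable def p044_k15 : C1.Kn := ⟨[nat_lit 80, nat_lit 120, nat_lit 140], [nat_lit 0, nat_lit 796, nat_lit 1801], [(nat_lit 0, nat_lit 0, nat_lit 0), (nat_lit 1000, nat_lit 938, nat_lit 310), (nat_lit 982, nat_lit 1000, nat_lit 736)], (nat_lit 98, nat_lit 100, nat_lit 63)⟩
noncomputable def p044_k16 : C1.Kn := ⟨[nat_lit 80, nat_lit 120], [nat_lit 0, nat_lit 0], [(nat_lit 0, nat_lit 0, nat_lit 0), (nat_lit 0, nat_lit 0, nat_lit 0)], (nat_lit 100, nat_lit 100, nat_lit 40)⟩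
noncomputable def p044_k17 : C1.Kn := ⟨[nat_lit 80, nat_lit 120], [nat_lit 0, nat_lit 130], [(nat_lit 0, nat_lit 0, nat_lit 0), (nat_lit 1000, nat_lit 990, nat_lit 51)], (nat_lit 99, nat_lit 100, nat_lit 40)⟩
noncomputable def p044_k18 : C1.Kn := ⟨[nat_lit 80, nat_lit 120], [nat_lit 0, nat_lit 264], [(nat_lit 0, nat_lit 0, nat_lit 0), (nat_lit 1000, nat_lit 979, nat_lit 103)], (nat_lit 98, nat_lit 100, nat_lit 40)⟩
noncomputable def p044_k19 : C1.Kn := ⟨[nat_lit 80, nat_lit 100, nat_lit 120], [nat_lit 0, nat_lit 0, nat_lit 511], [(nat_lit 0, nat_lit 0, nat_lit 0), (nat_lit 0, nat_lit 0, nat_lit 0), (nat_lit 1000, nat_lit 997, nat_lit 383)], (nat_lit 100, nat_lit 100, nat_lit 40)⟩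
noncomputable def p044_k20 : C1.Kn := ⟨[nat_lit 80, nat_lit 90, nat_lit 110, nat_lit 120], [nat_lit 0, nat_lit 0, nat_lit 257, nat_lit 511], [(nat_lit 0, nat_lit 0, nat_lit 0), (nat_lit 0, nat_lit 0, nat_lit 0), (nat_lit 1000, nat_lit 980, nat_lit 201), (nat_lit 1000, nat_lit 997, nat_lit 383)], (nat_lit 100, nat_lit 100, nat_lit 40)⟩
noncomputable def p044_k21 : C1.Kn := ⟨[nat_lit 80, nat_lit 100, nat_lit 120], [nat_lit 0, nat_lit 132, nat_lit 640], [(nat_lit 0, nat_lit 0, nat_lit 0), (nat_lit 1000, nat_lit 979, nat_lit 103), (nat_lit 1000, nat_lit 979, nat_lit 397)], (nat_lit 97, nat_lit 100, nat_lit 28)⟩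
noncomputable def p044_k22 : C1.Kn := ⟨[nat_lit 80, nat_lit 100, nat_lit 120], [nat_lit 0, nat_lit 0, nat_lit 511], [(nat_lit 0, nat_lit 0, nat_lit 0), (nat_lit 0, nat_lit 0, nat_lit 0), (nat_lit 1000, nat_lit 997, nat_lit 383)], (nat_lit 98, nat_lit 100, nat_lit 28)⟩
noncomputable def p044_k23 : C1.Kn := ⟨[nat_lit 80, nat_lit 90, nat_lit 110], [nat_lit 0, nat_lit 66, nat_lit 324], [(nat_lit 0, nat_lit 0, nat_lit 0), (nat_lit 1000, nat_lit 979, nat_lit 103), (nat_lit 1000, nat_lit 969, nat_lit 202)], (nat_lit 97, nat_lit 100, nat_lit 28)⟩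
noncomputable def p044_k24 : C1.Kn := ⟨[nat_lit 80, nat_lit 90, nat_lit 110], [nat_lit 0, nat_lit 0, nat_lit 257], [(nat_lit 0, nat_lit 0, nat_lit 0), (nat_lit 0, nat_lit 0, nat_lit 0), (nat_lit 1000, nat_lit 980, nat_lit 201)], (nat_lit 98, nat_lit 100, nat_lit 28)⟩
noncomputable def p044_k25 : C1.Kn := ⟨[nat_lit 80, nat_lit 100, nat_lit 120], [nat_lit 0, nat_lit 132, nat_lit 640], [(nat_lit 0, nat_lit 0, nat_lit 0), (nat_lit 1000, nat_lit 979, nat_lit 103), (nat_lit 1000, nat_lit 979, nat_lit 397)], (nat_lit 98, nat_lit 100, nat_lit 40)⟩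
noncomputable def p044_k26 : C1.Kn := ⟨[nat_lit 80, nat_lit 100, nat_lit 120], [nat_lit 0, nat_lit 65, nat_lit 576], [(nat_lit 0, nat_lit 0, nat_lit 0), (nat_lit 1000, nat_lit 990, nat_lit 51), (nat_lit 1000, nat_lit 990, nat_lit 399)], (nat_lit 99, nat_lit 100, nat_lit 40)⟩
noncomputable def p044_k27 : C1.Kn := ⟨[nat_lit 80, nat_lit 90, nat_lit 110, nat_lit 120], [nat_lit 0, nat_lit 66, nat_lit 324, nat_lit 648], [(nat_lit 0, nat_lit 0, nat_lit 0), (nat_lit 1000, nat_lit 979, nat_lit 103), (nat_lit 1000, nat_lit 969, nat_lit 202), (nat_lit 1000, nat_lit 986, nat_lit 438)], (nat_lit 98, nat_lit 100, nat_lit 40)⟩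
noncomputable def p044_k28 : C1.Kn := ⟨[nat_lit 80, nat_lit 100], [nat_lit 0, nat_lit 132], [(nat_lit 0, nat_lit 0, nat_lit 0), (nat_lit 1000, nat_lit 979, nat_lit 103)], (nat_lit 97, nat_lit 100, nat_lit 20)⟩
noncomputable def p044_k29 : C1.Kn := ⟨[nat_lit 80, nat_lit 100], [nat_lit 0, nat_lit 0], [(nat_lit 0, nat_lit 0, nat_lit 0), (nat_lit 0, nat_lit 0, nat_lit 0)], (nat_lit 98, nat_lit 100, nat_lit 20)⟩
noncomputable def p044_k30 : C1.Kn := ⟨[nat_lit 80, nat_lit 100], [nat_lit 0, nat_lit 65], [(nat_lit 0, nat_lit 0, nat_lit 0), (nat_lit 1000, nat_lit 990, nat_lit 51)], (nat_lit 97, nat_lit 100, nat_lit 20)⟩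
noncomputable def p044_k31 : C1.Kn := ⟨[nat_lit 80, nat_lit 100, nat_lit 120], [nat_lit 0, nat_lit 106, nat_lit 614], [(nat_lit 0, nat_lit 0, nat_lit 0), (nat_lit 1000, nat_lit 983, nat_lit 83), (nat_lit 1000, nat_lit 983, nat_lit 397)], (nat_lit 97, nat_lit 100, nat_lit 28)⟩
noncomputable def p044_k32 : C1.Kn := ⟨[nat_lit 80, nat_lit 120], [nat_lit 0, nat_lit 264], [(nat_lit 0, nat_lit 0, nat_lit 0), (nat_lit 1000, nat_lit 979, nat_lit 103)], (nat_lit 97, nat_lit 100, nat_lit 28)⟩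
noncomputable def p044_k33 : C1.Kn := ⟨[nat_lit 80, nat_lit 90, nat_lit 110], [nat_lit 0, nat_lit 99, nat_lit 359], [(nat_lit 0, nat_lit 0, nat_lit 0), (nat_lit 1000, nat_lit 969, nat_lit 151), (nat_lit 1000, nat_lit 964, nat_lit 203)], (nat_lit 96, nat_lit 100, nat_lit 28)⟩
noncomputable def p044_k34 : C1.Kn := ⟨[nat_lit 80, nat_lit 120], [nat_lit 0, nat_lit 395], [(nat_lit 0, nat_lit 0, nat_lit 0), (nat_lit 1000, nat_lit 969, nat_lit 154)], (nat_lit 96, nat_lit 100, nat_lit 28)⟩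
noncomputable def p044_k35 : C1.Kn := ⟨[nat_lit 80, nat_lit 90, nat_lit 100], [nat_lit 0, nat_lit 119, nat_lit 253], [(nat_lit 0, nat_lit 0, nat_lit 0), (nat_lit 1000, nat_lit 964, nat_lit 178), (nat_lit 1000, nat_lit 960, nat_lit 210)], (nat_lit 96, nat_lit 100, nat_lit 28)⟩
noncomputable def p044_k36 : C1.Kn := ⟨[nat_lit 80, nat_lit 90, nat_lit 110], [nat_lit 0, nat_lit 86, nat_lit 343], [(nat_lit 0, nat_lit 0, nat_lit 0), (nat_lit 1000, nat_lit 973, nat_lit 133), (nat_lit 1000, nat_lit 966, nat_lit 201)], (nat_lit 96, nat_lit 100, nat_lit 28)⟩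
noncomputable def p044_k37 : C1.Kn := ⟨[nat_lit 80, nat_lit 100, nat_lit 120], [nat_lit 0, nat_lit 198, nat_lit 704], [(nat_lit 0, nat_lit 0, nat_lit 0), (nat_lit 1000, nat_lit 969, nat_lit 154), (nat_lit 1000, nat_lit 969, nat_lit 395)], (nat_lit 97, nat_lit 100, nat_lit 39)⟩
noncomputable def p044_k38 : C1.Kn := ⟨[nat_lit 80, nat_lit 90, nat_lit 110, nat_lit 120], [nat_lit 0, nat_lit 99, nat_lit 359, nat_lit 723], [(nat_lit 0, nat_lit 0, nat_lit 0), (nat_lit 1000, nat_lit 969, nat_lit 151), (nat_lit 1000, nat_lit 964, nat_lit 203), (nat_lit 1000, nat_lit 981, nat_lit 468)], (nat_lit 97, nat_lit 100, nat_lit 39)⟩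
noncomputable def p044_k39 : C1.Kn := ⟨[nat_lit 40, nat_lit 80, nat_lit 100, nat_lit 120], [nat_lit 0, nat_lit 0, nat_lit 132, nat_lit 640], [(nat_lit 0, nat_lit 0, nat_lit 0), (nat_lit 0, nat_lit 0, nat_lit 0), (nat_lit 1000, nat_lit 979, nat_lit 103), (nat_lit 1000, nat_lit 979, nat_lit 397)], (nat_lit 98, nat_lit 100, nat_lit 40)⟩
noncomputable def p044_k40 : C1.Kn := ⟨[nat_lit 40, nat_lit 80, nat_lit 100, nat_lit 120], [nat_lit 0, nat_lit 0, nat_lit 0, nat_lit 511], [(nat_lit 0, nat_lit 0, nat_lit 0), (nat_lit 0, nat_lit 0, nat_lit 0), (nat_lit 0, nat_lit 0, nat_lit 0), (nat_lit 1000, nat_lit 997, nat_lit 383)], (nat_lit 100, nat_lit 100, nat_lit 40)⟩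
noncomputable def p044_k41 : C1.Kn := ⟨[nat_lit 60, nat_lit 80, nat_lit 100, nat_lit 110, nat_lit 120], [nat_lit 0, nat_lit 0, nat_lit 0, nat_lit 288, nat_lit 488], [(nat_lit 0, nat_lit 0, nat_lit 0), (nat_lit 0, nat_lit 0, nat_lit 0), (nat_lit 0, nat_lit 0, nat_lit 0), (nat_lit 1000, nat_lit 983, nat_lit 284), (nat_lit 1000, nat_lit 986, nat_lit 313)], (nat_lit 100, nat_lit 100, nat_lit 40)⟩
noncomputable def p044_k42 : C1.Kn := ⟨[nat_lit 80, nat_lit 120], [nat_lit 0, nat_lit 0], [(nat_lit 0, nat_lit 0, nat_lit 0), (nat_lit 0, nat_lit 0, nat_lit 0)], (nat_lit 98, nat_lit 100, nat_lit 28)⟩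
noncomputable def p044_k43 : C1.Kn := ⟨[nat_lit 80, nat_lit 100, nat_lit 130], [nat_lit 0, nat_lit 0, nat_lit 767], [(nat_lit 0, nat_lit 0, nat_lit 0), (nat_lit 0, nat_lit 0, nat_lit 0), (nat_lit 1000, nat_lit 1000, nat_lit 399)], (nat_lit 100, nat_lit 98, nat_lit 48)⟩
noncomputable def p044_k44 : C1.Kn := ⟨[nat_lit 80, nat_lit 100], [nat_lit 0, nat_lit 106], [(nat_lit 0, nat_lit 0, nat_lit 0), (nat_lit 1000, nat_lit 983, nat_lit 83)], (nat_lit 97, nat_lit 100, nat_lit 20)⟩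
noncomputable def p044_k45 : C1.Kn := ⟨[nat_lit 80, nat_lit 100, nat_lit 120], [nat_lit 0, nat_lit 65, nat_lit 576], [(nat_lit 0, nat_lit 0, nat_lit 0), (nat_lit 1000, nat_lit 990, nat_lit 51), (nat_lit 1000, nat_lit 990, nat_lit 399)], (nat_lit 98, nat_lit 100, nat_lit 28)⟩
noncomputable def p044_k46 : C1.Kn := ⟨[nat_lit 80, nat_lit 100], [nat_lit 0, nat_lit 145], [(nat_lit 0, nat_lit 0, nat_lit 0), (nat_lit 1000, nat_lit 977, nat_lit 113)], (nat_lit 97, nat_lit 100, nat_lit 20)⟩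
noncomputable def p044_k47 : C1.Kn := ⟨[nat_lit 80, nat_lit 100], [nat_lit 0, nat_lit 158], [(nat_lit 0, nat_lit 0, nat_lit 0), (nat_lit 1000, nat_lit 975, nat_lit 123)], (nat_lit 97, nat_lit 100, nat_lit 20)⟩
noncomputable def p044_k48 : C1.Kn := ⟨[nat_lit 80, nat_lit 100], [nat_lit 0, nat_lit 171], [(nat_lit 0, nat_lit 0, nat_lit 0), (nat_lit 1000, nat_lit 973, nat_lit 133)], (nat_lit 97, nat_lit 100, nat_lit 20)⟩
noncomputable def p044_k49 : C1.Kn := ⟨[nat_lit 80, nat_lit 100], [nat_lit 0, nat_lit 198], [(nat_lit 0, nat_lit 0, nat_lit 0), (nat_lit 1000, nat_lit 969, nat_lit 154)], (nat_lit 96, nat_lit 100, nat_lit 20)⟩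
noncomputable def p044_k50 : C1.Kn := ⟨[nat_lit 80, nat_lit 120], [nat_lit 0, nat_lit 528], [(nat_lit 0, nat_lit 0, nat_lit 0), (nat_lit 1000, nat_lit 959, nat_lit 206)], (nat_lit 96, nat_lit 100, nat_lit 44)⟩
noncomputable def p044_k51 : C1.Kn := ⟨[nat_lit 80, nat_lit 100, nat_lit 120], [nat_lit 0, nat_lit 132, nat_lit 640], [(nat_lit 0, nat_lit 0, nat_lit 0), (nat_lit 1000, nat_lit 979, nat_lit 103), (nat_lit 1000, nat_lit 979, nat_lit 397)], (nat_lit 99, nat_lit 100, nat_lit 44)⟩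
noncomputable def p044_k52 : C1.Kn := ⟨[nat_lit 80, nat_lit 100, nat_lit 120], [nat_lit 0, nat_lit 305, nat_lit 806], [(nat_lit 0, nat_lit 0, nat_lit 0), (nat_lit 1000, nat_lit 952, nat_lit 237), (nat_lit 1000, nat_lit 952, nat_lit 391)], (nat_lit 96, nat_lit 100, nat_lit 44)⟩
noncomputable def p044_k53 : C1.Kn := ⟨[nat_lit 80, nat_lit 100, nat_lit 120], [nat_lit 0, nat_lit 332, nat_lit 833], [(nat_lit 0, nat_lit 0, nat_lit 0), (nat_lit 1000, nat_lit 948, nat_lit 259), (nat_lit 1000, nat_lit 948, nat_lit 391)], (nat_lit 95, nat_lit 100, nat_lit 44)⟩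
noncomputable def p044_k54 : C1.Kn := ⟨[nat_lit 80, nat_lit 100, nat_lit 120], [nat_lit 0, nat_lit 399, nat_lit 897], [(nat_lit 0, nat_lit 0, nat_lit 0), (nat_lit 1000, nat_lit 938, nat_lit 310), (nat_lit 1000, nat_lit 938, nat_lit 389)], (nat_lit 94, nat_lit 100, nat_lit 44)⟩
noncomputable def p044_k55 : C1.Kn := ⟨[nat_lit 70, nat_lit 90, nat_lit 100], [nat_lit 0, nat_lit 0, nat_lit 294], [(nat_lit 0, nat_lit 0, nat_lit 0), (nat_lit 0, nat_lit 0, nat_lit 0), (nat_lit 1000, nat_lit 954, nat_lit 287)], (nat_lit 95, nat_lit 100, nat_lit 28)⟩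
noncomputable def p044_k56 : C1.Kn := ⟨[nat_lit 80, nat_lit 100], [nat_lit 0, nat_lit 265], [(nat_lit 0, nat_lit 0, nat_lit 0), (nat_lit 1000, nat_lit 959, nat_lit 206)], (nat_lit 95, nat_lit 100, nat_lit 28)⟩
noncomputable def p044_k57 : C1.Kn := ⟨[nat_lit 80, nat_lit 100], [nat_lit 0, nat_lit 332], [(nat_lit 0, nat_lit 0, nat_lit 0), (nat_lit 1000, nat_lit 948, nat_lit 259)], (nat_lit 95, nat_lit 100, nat_lit 28)⟩
noncomputable def p044_k58 : C1.Kn := ⟨[nat_lit 80, nat_lit 100], [nat_lit 0, nat_lit 399], [(nat_lit 0, nat_lit 0, nat_lit 0), (nat_lit 1000, nat_lit 938, nat_lit 310)], (nat_lit 94, nat_lit 100, nat_lit 28)⟩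
noncomputable def p044_k59 : C1.Kn := ⟨[nat_lit 80, nat_lit 100], [nat_lit 0, nat_lit 426], [(nat_lit 0, nat_lit 0, nat_lit 0), (nat_lit 1000, nat_lit 933, nat_lit 332)], (nat_lit 94, nat_lit 100, nat_lit 28)⟩
noncomputable def p044_l0 : Lf2 := ⟨nat_lit 0, nat_lit 6, [nat_lit 47, nat_lit 5, nat_lit 5, nat_lit 20], true, nat_lit 160, nat_lit 240, nat_lit 0, nat_lit 336, ⟨nat_lit 0, nat_lit 0, nat_lit 1000, nat_lit 6, nat_lit 115, nat_lit 1000, nat_lit 140, nat_lit 1000, nat_lit 183750, nat_lit 320, nat_lit 123267, nat_lit 301, nat_lit 53666129, nat_lit 0, nat_lit 0, nat_lit 3381817, false, false⟩,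
 nat_lit 0, nat_lit 0, nat_lit 0, nat_lit 3219, nat_lit 4161, nat_lit 0, nat_lit 0, nat_lit 0, nat_lit 0, nat_lit 0, nat_lit 0, nat_lit 0, nat_lit 0, nat_lit 6633145134599, nat_lit 69, nat_lit 400000, nat_lit 0, nat_lit 0, [(nat_lit 6, [(nat_lit 5, nat_lit 1000)])],
 ⟨p044_k0, nat_lit 0, nat_lit 0, nat_lit 43, nat_lit 0, nat_lit 0, [nat_lit 2521600001, nat_lit 7200000], [], [nat_lit 10629701777, nat_lit 12169677292, nat_lit 10038826093, nat_lit 11434595781, nat_lit 14634257015, nat_lit 15934063238, nat_lit 13738048605, nat_lit 14920311975], nat_lit 0, nat_lit 0, nat_lit 0, nat_lit 0, nat_lit 0, nat_lit 0, [], [nat_lit 70, nat_lit 40, nat_lit 40, nat_lit 80, nat_lit 13, nat_lit 401, nat_lit 175, nat_lit 11]⟩, C1.Rw.none,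
 ⟨nat_lit 5916, nat_lit 6325, ⟨.ofNat (nat_lit 164319), .ofNat (nat_lit 378206), .ofNat (nat_lit 185687), .ofNat (nat_lit 399574), .ofNat (nat_lit 181423), .ofNat (nat_lit 385610), .ofNat (nat_lit 202762), .ofNat (nat_lit 406949)⟩, ⟨.ofNat (nat_lit 246791), .ofNat (nat_lit 411320), .ofNat (nat_lit 289527), .ofNat (nat_lit 454055), .ofNat (nat_lit 250751), .ofNat (nat_lit 407818), .ofNat (nat_lit 293429), .ofNat (nat_lit 450496)⟩⟩, [⟨nat_lit 0, nat_lit 100, nat_lit 100, nat_lit 60, nat_lit 162396219⟩]⟩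
noncomputable def p044_l1 : Lf2 := ⟨nat_lit 0, nat_lit 6, [nat_lit 47, nat_lit 5, nat_lit 5, nat_lit 20], false, nat_lit 240, nat_lit 336, nat_lit 0, nat_lit 160, ⟨nat_lit 1000, nat_lit 0, nat_lit 0, nat_lit 0, nat_lit 0, nat_lit 0, nat_lit 0, nat_lit 0, nat_lit 0, nat_lit 0, nat_lit 0, nat_lit 0, nat_lit 0, nat_lit 0, nat_lit 0, nat_lit 0, false, false⟩,
 nat_lit 0, nat_lit 0, nat_lit 0, nat_lit 40714, nat_lit 7783, nat_lit 8258, nat_lit 2645, nat_lit 0, nat_lit 0, nat_lit 3591, nat_lit 0, nat_lit 0, nat_lit 0, nat_lit 0, nat_lit 0, nat_lit 0, nat_lit 0, nat_lit 0, [],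
 ⟨p044_k1, nat_lit 0, nat_lit 0, nat_lit 168, nat_lit 0, nat_lit 0, [nat_lit 4688000000, nat_lit 6250000000, nat_lit 9842000000], [], [nat_lit 19307707763, nat_lit 19971088960, nat_lit 16268063944, nat_lit 16887982208, nat_lit 27653083545, nat_lit 28246001473, nat_lit 23133057264, nat_lit 23672014856], nat_lit 0, nat_lit 0, nat_lit 0, nat_lit 0, nat_lit 0, nat_lit 0, [], [nat_lit 11, nat_lit 40, nat_lit 40, nat_lit 80, nat_lit 1, nat_lit 428, nat_lit 200, nat_lit 12]⟩, ⟨p044_k1, nat_lit 0, nat_lit 0, nat_lit 215, nat_lit 0, nat_lit 0, [nat_lit 4688000000, nat_lit 6250000000, nat_lit 9842000000], [], [nat_lit 19039437538, nat_lit 20023496049, nat_lit 14702543424, nat_lit 15652495098, nat_lit 14459527236, nat_lit 15334344008, nat_lit 11593286432, nat_lit 12370385398], nat_lit 0, nat_lit 0, nat_lit 0, nat_lit 0, nat_lit 0, nat_lit 0, [], [nat_lit 11, nat_lit 40, nat_lit 40, nat_lit 80, nat_lit 1, nat_lit 373,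 nat_lit 150, nat_lit 11]⟩,
 zbF0, [⟨nat_lit 0, nat_lit 100, nat_lit 100, nat_lit 50, nat_lit 996890424⟩, ⟨nat_lit 4, nat_lit 86, nat_lit 100, nat_lit 73, nat_lit 930066379⟩]⟩
noncomputable def p044_l2 : Lf2 := ⟨nat_lit 0, nat_lit 6, [nat_lit 47, nat_lit 5, nat_lit 5, nat_lit 20], false, nat_lit 240, nat_lit 328, nat_lit 0, nat_lit 160, ⟨nat_lit 1000, nat_lit 0, nat_lit 0, nat_lit 0, nat_lit 0, nat_lit 0, nat_lit 0, nat_lit 0, nat_lit 0, nat_lit 0, nat_lit 0, nat_lit 0, nat_lit 0, nat_lit 0, nat_lit 0, nat_lit 0, false, false⟩,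
 nat_lit 0, nat_lit 0, nat_lit 0, nat_lit 32903, nat_lit 7289, nat_lit 7147, nat_lit 2293, nat_lit 0, nat_lit 0, nat_lit 2682, nat_lit 0, nat_lit 0, nat_lit 0, nat_lit 18718463178448, nat_lit 0, nat_lit 0, nat_lit 0, nat_lit 0, [],
 ⟨p044_k2, nat_lit 0, nat_lit 0, nat_lit 161, nat_lit 0, nat_lit 0, [nat_lit 4688000000, nat_lit 6250000000, nat_lit 9842000000], [], [nat_lit 20068442107, nat_lit 20603587700, nat_lit 17122842357, nat_lit 17603111770, nat_lit 26078340882, nat_lit 26806478609, nat_lit 22619579469, nat_lit 23069025382], nat_lit 0, nat_lit 0, nat_lit 0, nat_lit 0, nat_lit 0, nat_lit 0, [], [nat_lit 11, nat_lit 40, nat_lit 40, nat_lit 80, nat_lit 1, nat_lit 428, nat_lit 200, nat_lit 12]⟩, ⟨p044_k1, nat_lit 0, nat_lit 0, nat_lit 215, nat_lit 0, nat_lit 0, [nat_lit 4688000000, nat_lit 6250000000, nat_lit 9842000000], [], [nat_lit 20669435044, nat_lit 22468534653, nat_lit 17241427988, nat_lit 18627274098,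 nat_lit 16502799792, nat_lit 17782380383, nat_lit 14228240688, nat_lit 15655724626], nat_lit 0, nat_lit 0, nat_lit 0, nat_lit 0, nat_lit 0, nat_lit 0, [], [nat_lit 11, nat_lit 40, nat_lit 40, nat_lit 80, nat_lit 1, nat_lit 373, nat_lit 150, nat_lit 11]⟩,
 zbF0, [⟨nat_lit 0, nat_lit 100, nat_lit 100, nat_lit 60, nat_lit 935932088⟩, ⟨nat_lit 4, nat_lit 90, nat_lit 100, nat_lit 74, nat_lit 808753615⟩]⟩
noncomputable def p044_l3 : Lf2 := ⟨nat_lit 0, nat_lit 6, [nat_lit 47, nat_lit 5, nat_lit 5, nat_lit 20], false, nat_lit 240, nat_lit 336, nat_lit 160, nat_lit 240, ⟨nat_lit 1000, nat_lit 0, nat_lit 0, nat_lit 0, nat_lit 0, nat_lit 0, nat_lit 0, nat_lit 0, nat_lit 0, nat_lit 0, nat_lit 0, nat_lit 0, nat_lit 0, nat_lit 0, nat_lit 0, nat_lit 0, false, false⟩,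
 nat_lit 0, nat_lit 0, nat_lit 0, nat_lit 16434, nat_lit 7758, nat_lit 7024, nat_lit 2311, nat_lit 0, nat_lit 0, nat_lit 0, nat_lit 0, nat_lit 0, nat_lit 0, nat_lit 8278161921548, nat_lit 0, nat_lit 0, nat_lit 0, nat_lit 0, [],
 ⟨p044_k1, nat_lit 0, nat_lit 0, nat_lit 170, nat_lit 0, nat_lit 0, [nat_lit 4688000000, nat_lit 6250000000, nat_lit 9842000000], [], [nat_lit 20380218663, nat_lit 21704678107, nat_lit 16572651918, nat_lit 17560877690, nat_lit 27650118405, nat_lit 28957339483, nat_lit 23150492064, nat_lit 24226749457], nat_lit 0, nat_lit 0, nat_lit 0, nat_lit 0, nat_lit 0, nat_lit 0, [], [nat_lit 11, nat_lit 40, nat_lit 40, nat_lit 80, nat_lit 1, nat_lit 428, nat_lit 200, nat_lit 12]⟩, ⟨p044_k1, nat_lit 0, nat_lit 0, nat_lit 56, nat_lit 0, nat_lit 0, [nat_lit 4688000000, nat_lit 6250000000, nat_lit 9842000000], [], [nat_lit 10951392717, nat_lit 13035279828, nat_lit 8438037728, nat_lit 10310233520,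 nat_lit 15945785543, nat_lit 17665969492, nat_lit 13007016736, nat_lit 14556230816], nat_lit 0, nat_lit 0, nat_lit 0, nat_lit 0, nat_lit 0, nat_lit 0, [], [nat_lit 11, nat_lit 40, nat_lit 40, nat_lit 80, nat_lit 1, nat_lit 401, nat_lit 175, nat_lit 11]⟩,
 zbF0, [⟨nat_lit 0, nat_lit 100, nat_lit 100, nat_lit 60, nat_lit 473764047⟩, ⟨nat_lit 16, nat_lit 100, nat_lit 88, nat_lit 74, nat_lit 477540279⟩, ⟨nat_lit 11, nat_lit 100, nat_lit 90, nat_lit 44, nat_lit 619026502⟩]⟩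
noncomputable def p044_l4 : Lf2 := ⟨nat_lit 0, nat_lit 6, [nat_lit 47, nat_lit 5, nat_lit 5, nat_lit 20], true, nat_lit 240, nat_lit 260, nat_lit 240, nat_lit 336, ⟨nat_lit 0, nat_lit 0, nat_lit 1000, nat_lit 6, nat_lit 115, nat_lit 1000, nat_lit 180, nat_lit 1000, nat_lit 45951, nat_lit 266, nat_lit 123267, nat_lit 301, nat_lit 50126118, nat_lit 0, nat_lit 0, nat_lit 3862634, false, false⟩,
 nat_lit 0, nat_lit 0, nat_lit 0, nat_lit 3219, nat_lit 3979, nat_lit 0, nat_lit 0, nat_lit 0, nat_lit 0, nat_lit 0, nat_lit 0, nat_lit 0, nat_lit 0, nat_lit 7060910627996, nat_lit 69, nat_lit 400000, nat_lit 0, nat_lit 0, [(nat_lit 6, [(nat_lit 5, nat_lit 1000)])],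
 ⟨p044_k1, nat_lit 0, nat_lit 0, nat_lit 70, nat_lit 0, nat_lit 0, [nat_lit 2521600001, nat_lit 1460000001, nat_lit 7200000], [], [nat_lit 14758781852, nat_lit 16031864797, nat_lit 13992418357, nat_lit 15151354787, nat_lit 16101807982, nat_lit 17309780094, nat_lit 15213113028, nat_lit 16315095133], nat_lit 0, nat_lit 0, nat_lit 0, nat_lit 0, nat_lit 0, nat_lit 0, [], [nat_lit 11, nat_lit 40, nat_lit 40, nat_lit 80, nat_lit 1, nat_lit 401, nat_lit 175, nat_lit 11]⟩, C1.Rw.none,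
 ⟨nat_lit 5916, nat_lit 6325, ⟨.ofNat (nat_lit 164319), .ofNat (nat_lit 378206), .ofNat (nat_lit 185687), .ofNat (nat_lit 399574), .ofNat (nat_lit 181423), .ofNat (nat_lit 385610), .ofNat (nat_lit 202762), .ofNat (nat_lit 406949)⟩, ⟨.ofNat (nat_lit 411320), .ofNat (nat_lit 452452), .ofNat (nat_lit 454055), .ofNat (nat_lit 495188), .ofNat (nat_lit 407818), .ofNat (nat_lit 447085), .ofNat (nat_lit 450496), .ofNat (nat_lit 489763)⟩⟩, [⟨nat_lit 0, nat_lit 100, nat_lit 100, nat_lit 60, nat_lit 161472135⟩]⟩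
noncomputable def p044_l5 : Lf2 := ⟨nat_lit 0, nat_lit 6, [nat_lit 47, nat_lit 5, nat_lit 5, nat_lit 20], false, nat_lit 260, nat_lit 280, nat_lit 240, nat_lit 336, ⟨nat_lit 1000, nat_lit 0, nat_lit 0, nat_lit 0, nat_lit 0, nat_lit 0, nat_lit 0, nat_lit 0, nat_lit 0, nat_lit 0, nat_lit 0, nat_lit 0, nat_lit 0, nat_lit 0, nat_lit 0, nat_lit 0, false, false⟩,
 nat_lit 0, nat_lit 0, nat_lit 0, nat_lit 18675, nat_lit 6899, nat_lit 8921, nat_lit 0, nat_lit 0, nat_lit 0, nat_lit 2674, nat_lit 0, nat_lit 0, nat_lit 0, nat_lit 0, nat_lit 0, nat_lit 0, nat_lit 0, nat_lit 0, [],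
 ⟨p044_k1, nat_lit 0, nat_lit 0, nat_lit 73, nat_lit 0, nat_lit 0, [nat_lit 4688000000, nat_lit 6250000000, nat_lit 9842000000], [], [nat_lit 17248408837, nat_lit 18844515798, nat_lit 14815154987, nat_lit 16260222492, nat_lit 19108385104, nat_lit 20864210390, nat_lit 16448588738, nat_lit 17805530918], nat_lit 0, nat_lit 0, nat_lit 0, nat_lit 0, nat_lit 0, nat_lit 0, [], [nat_lit 11, nat_lit 40, nat_lit 40, nat_lit 80, nat_lit 1, nat_lit 401, nat_lit 175, nat_lit 11]⟩, ⟨p044_k1, nat_lit 0, nat_lit 0, nat_lit 161, nat_lit 0, nat_lit 0, [nat_lit 4688000000, nat_lit 6250000000, nat_lit 9842000000], [], [nat_lit 18143626013, nat_lit 19571750017, nat_lit 13926294540, nat_lit 15216387360, nat_lit 28072672810, nat_lit 29695094103, nat_lit 22339425169, nat_lit 23764915655], nat_lit 0, nat_lit 0, nat_lit 0, nat_lit 0, nat_lit 0, nat_lit 0, [], [nat_lit 11, nat_lit 40, nat_lit 40, nat_lit 80, nat_lit 1, nat_lit 428,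 nat_lit 200, nat_lit 12]⟩,
 zbF0, [⟨nat_lit 0, nat_lit 100, nat_lit 100, nat_lit 60, nat_lit 84638979⟩, ⟨nat_lit 11, nat_lit 96, nat_lit 100, nat_lit 78, nat_lit 993764970⟩]⟩
noncomputable def p044_l6 : Lf2 := ⟨nat_lit 0, nat_lit 6, [nat_lit 47, nat_lit 5, nat_lit 5, nat_lit 20], false, nat_lit 280, nat_lit 336, nat_lit 240, nat_lit 300, ⟨nat_lit 1000, nat_lit 0, nat_lit 0, nat_lit 0, nat_lit 0, nat_lit 0, nat_lit 0, nat_lit 0, nat_lit 0, nat_lit 0, nat_lit 0, nat_lit 0, nat_lit 0, nat_lit 0, nat_lit 0, nat_lit 0, false, false⟩,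
 nat_lit 0, nat_lit 0, nat_lit 0, nat_lit 18442, nat_lit 9342, nat_lit 7418, nat_lit 2636, nat_lit 0, nat_lit 0, nat_lit 0, nat_lit 0, nat_lit 0, nat_lit 0, nat_lit 0, nat_lit 0, nat_lit 0, nat_lit 0, nat_lit 0, [],
 ⟨p044_k1, nat_lit 0, nat_lit 0, nat_lit 149, nat_lit 0, nat_lit 0, [nat_lit 4688000000, nat_lit 6250000000, nat_lit 9842000000], [], [nat_lit 20035855905, nat_lit 21309511485, nat_lit 17472444360, nat_lit 18878479686, nat_lit 26969348799, nat_lit 28637761011, nat_lit 23656358365, nat_lit 25277636223], nat_lit 0, nat_lit 0, nat_lit 0, nat_lit 0, nat_lit 0, nat_lit 0, [], [nat_lit 11, nat_lit 40, nat_lit 40, nat_lit 80, nat_lit 1, nat_lit 317, nat_lit 100, nat_lit 9]⟩, ⟨p044_k1, nat_lit 0, nat_lit 0, nat_lit 72, nat_lit 0, nat_lit 0, [nat_lit 4688000000, nat_lit 6250000000, nat_lit 9842000000], [], [nat_lit 14064001053, nat_lit 15827657387, nat_lit 12540757016, nat_lit 14232727928, nat_lit 20454875706,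 nat_lit 22154217269, nat_lit 18147898926, nat_lit 19795062861], nat_lit 0, nat_lit 0, nat_lit 0, nat_lit 0, nat_lit 0, nat_lit 0, [], [nat_lit 11, nat_lit 40, nat_lit 40, nat_lit 80, nat_lit 1, nat_lit 401, nat_lit 175, nat_lit 11]⟩,
 zbF0, [⟨nat_lit 16, nat_lit 100, nat_lit 88, nat_lit 74, nat_lit 587461891⟩, ⟨nat_lit 11, nat_lit 100, nat_lit 97, nat_lit 75, nat_lit 1053564409⟩]⟩
noncomputable def p044_l7 : Lf2 := ⟨nat_lit 0, nat_lit 6, [nat_lit 47, nat_lit 5, nat_lit 5, nat_lit 20], false, nat_lit 280, nat_lit 336, nat_lit 240, nat_lit 336, ⟨nat_lit 1000, nat_lit 0, nat_lit 0, nat_lit 0, nat_lit 0, nat_lit 0, nat_lit 0, nat_lit 0, nat_lit 0, nat_lit 0, nat_lit 0, nat_lit 0, nat_lit 0, nat_lit 0, nat_lit 0, nat_lit 0, false, false⟩,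
 nat_lit 0, nat_lit 0, nat_lit 0, nat_lit 3690, nat_lit 7476, nat_lit 8127, nat_lit 0, nat_lit 0, nat_lit 0, nat_lit 0, nat_lit 0, nat_lit 0, nat_lit 0, nat_lit 210545681190, nat_lit 0, nat_lit 0, nat_lit 0, nat_lit 0, [],
 ⟨p044_k3, nat_lit 0, nat_lit 0, nat_lit 81, nat_lit 0, nat_lit 0, [nat_lit 4688000000, nat_lit 7968000001, nat_lit 9842000000], [], [nat_lit 16093781712, nat_lit 17774098148, nat_lit 15805269512, nat_lit 17223846832, nat_lit 22409246375, nat_lit 23835801908, nat_lit 21618321617, nat_lit 22978017207], nat_lit 0, nat_lit 0, nat_lit 0, nat_lit 0, nat_lit 0, nat_lit 0, [], [nat_lit 29, nat_lit 40, nat_lit 40, nat_lit 80, nat_lit 17, nat_lit 317, nat_lit 100, nat_lit 8]⟩, ⟨p044_k3, nat_lit 0, nat_lit 0, nat_lit 81, nat_lit 0, nat_lit 0, [nat_lit 4688000000, nat_lit 7968000000, nat_lit 9842000000], [], [nat_lit 11646007524, nat_lit 13610605130, nat_lit 11465424228, nat_lit 13156009818, nat_lit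 22844332069, nat_lit 24338821275, nat_lit 21909394133, nat_lit 23332529933], nat_lit 0, nat_lit 0, nat_lit 0, nat_lit 0, nat_lit 0, nat_lit 0, [], [nat_lit 29, nat_lit 40, nat_lit 40, nat_lit 80, nat_lit 17, nat_lit 428, nat_lit 200, nat_lit 12]⟩,
 zbF0, [⟨nat_lit 23, nat_lit 95, nat_lit 100, nat_lit 97, nat_lit 66804632⟩, ⟨nat_lit 11, nat_lit 100, nat_lit 100, nat_lit 100, nat_lit 734109751⟩]⟩
noncomputable def p044_l8 : Lf2 := ⟨nat_lit 1, nat_lit 10, [nat_lit 0, nat_lit 5, nat_lit 5, nat_lit 20], false, nat_lit 160, nat_lit 336, nat_lit 0, nat_lit 336, zbN0,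
 nat_lit 0, nat_lit 0, nat_lit 0, nat_lit 0, nat_lit 0, nat_lit 0, nat_lit 0, nat_lit 0, nat_lit 0, nat_lit 0, nat_lit 0, nat_lit 0, nat_lit 0, nat_lit 0, nat_lit 0, nat_lit 0, nat_lit 0, nat_lit 0, [],
 C1.Rw.none, C1.Rw.none,
 zbF0, []⟩
noncomputable def p044_l9 : Lf2 := ⟨nat_lit 0, nat_lit 10, [nat_lit 0, nat_lit 5, nat_lit 5, nat_lit 20], true, nat_lit 160, nat_lit 240, nat_lit 0, nat_lit 336, ⟨nat_lit 0, nat_lit 0, nat_lit 1000, nat_lit 6, nat_lit 127, nat_lit 1000, nat_lit 140, nat_lit 1000, nat_lit 183750, nat_lit 320, nat_lit 153600, nat_lit 311, nat_lit 52727517, nat_lit 0, nat_lit 0, nat_lit 3549045, false, false⟩,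
 nat_lit 0, nat_lit 0, nat_lit 0, nat_lit 2241, nat_lit 5724, nat_lit 0, nat_lit 0, nat_lit 0, nat_lit 0, nat_lit 0, nat_lit 0, nat_lit 0, nat_lit 0, nat_lit 7174817577336, nat_lit 61, nat_lit 250000, nat_lit 0, nat_lit 0, [(nat_lit 9, [(nat_lit 4, nat_lit 1000)])],
 ⟨p044_k4, nat_lit 0, nat_lit 0, nat_lit 46, nat_lit 0, nat_lit 0, [nat_lit 4076800001, nat_lit 14000000], [], [nat_lit 12066252518, nat_lit 13896669128, nat_lit 10718559521, nat_lit 12374424913, nat_lit 16301208398, nat_lit 18054465655, nat_lit 14619336617, nat_lit 16001929697], nat_lit 0, nat_lit 0, nat_lit 0, nat_lit 0, nat_lit 0, nat_lit 0, [], [nat_lit 70, nat_lit 40, nat_lit 40, nat_lit 80, nat_lit 13, nat_lit 401, nat_lit 175, nat_lit 11]⟩, C1.Rw.none,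
 ⟨nat_lit 5477, nat_lit 5917, ⟨.ofNat (nat_lit 197129), .ofNat (nat_lit 385610), .ofNat (nat_lit 239808), .ofNat (nat_lit 428288), .ofNat (nat_lit 213007), .ofNat (nat_lit 392847), .ofNat (nat_lit 255721), .ofNat (nat_lit 435561)⟩, ⟨.ofNat (nat_lit 250751), .ofNat (nat_lit 407818), .ofNat (nat_lit 293429), .ofNat (nat_lit 450496), .ofNat (nat_lit 254209), .ofNat (nat_lit 404075), .ofNat (nat_lit 296923), .ofNat (nat_lit 446789)⟩⟩, [⟨nat_lit 0, nat_lit 100, nat_lit 100, nat_lit 80, nat_lit 215932840⟩]⟩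
noncomputable def p044_l10 : Lf2 := ⟨nat_lit 0, nat_lit 5, [nat_lit 4, nat_lit 5, nat_lit 5, nat_lit 20], true, nat_lit 240, nat_lit 280, nat_lit 0, nat_lit 288, ⟨nat_lit 0, nat_lit 0, nat_lit 1000, nat_lit 6, nat_lit 93, nat_lit 1000, nat_lit 183, nat_lit 1000, nat_lit 28439, nat_lit 256, nat_lit 81667, nat_lit 285, nat_lit 51389487, nat_lit 0, nat_lit 0, nat_lit 3585800, false, false⟩,
 nat_lit 0, nat_lit 0, nat_lit 0, nat_lit 3065, nat_lit 4150, nat_lit 0, nat_lit 0, nat_lit 0, nat_lit 0, nat_lit 0, nat_lit 0, nat_lit 0, nat_lit 0, nat_lit 7198960758585, nat_lit 55, nat_lit 400000, nat_lit 0, nat_lit 0, [(nat_lit 9, [(nat_lit 5, nat_lit 1000)])],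
 ⟨p044_k5, nat_lit 0, nat_lit 0, nat_lit 78, nat_lit 0, nat_lit 0, [nat_lit 2406400000, nat_lit 893600000, nat_lit 116000000], [], [nat_lit 15734761480, nat_lit 16381769441, nat_lit 15106735800, nat_lit 15749568600, nat_lit 18536879500, nat_lit 19207910650, nat_lit 17687537000, nat_lit 18355652650], nat_lit 0, nat_lit 0, nat_lit 0, nat_lit 0, nat_lit 0, nat_lit 0, [], [nat_lit 9, nat_lit 40, nat_lit 40, nat_lit 80, nat_lit 2, nat_lit 215, nat_lit 10, nat_lit 6]⟩, C1.Rw.none,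
 ⟨nat_lit 5700, nat_lit 5917, ⟨.ofNat (nat_lit 197129), .ofNat (nat_lit 228543), .ofNat (nat_lit 229138), .ofNat (nat_lit 260552), .ofNat (nat_lit 205119), .ofNat (nat_lit 235806), .ofNat (nat_lit 237132), .ofNat (nat_lit 267819)⟩, ⟨.ofNat (nat_lit 407818), .ofNat (nat_lit 486351), .ofNat (nat_lit 429157), .ofNat (nat_lit 507691), .ofNat (nat_lit 405982), .ofNat (nat_lit 482701), .ofNat (nat_lit 427324), .ofNat (nat_lit 504043)⟩⟩, [⟨nat_lit 0, nat_lit 100, nat_lit 98, nat_lit 60, nat_lit 385941340⟩, ⟨nat_lit 4, nat_lit 98, nat_lit 100, nat_lit 70, nat_lit 60638554⟩]⟩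
noncomputable def p044_l11 : Lf2 := ⟨nat_lit 0, nat_lit 5, [nat_lit 4, nat_lit 5, nat_lit 5, nat_lit 20], true, nat_lit 240, nat_lit 280, nat_lit 0, nat_lit 288, ⟨nat_lit 0, nat_lit 1000, nat_lit 0, nat_lit 6, nat_lit 93, nat_lit 1000, nat_lit 191, nat_lit 0, nat_lit 0, nat_lit 0, nat_lit 0, nat_lit 0, nat_lit 50577878, nat_lit 4056468, nat_lit 12365654, nat_lit 3676632, false, false⟩,
 nat_lit 0, nat_lit 0, nat_lit 0, nat_lit 3158, nat_lit 5179, nat_lit 0, nat_lit 0, nat_lit 0, nat_lit 0, nat_lit 0, nat_lit 0, nat_lit 0, nat_lit 0, nat_lit 5710489000581, nat_lit 0, nat_lit 400000, nat_lit 0, nat_lit 0, [(nat_lit 9, [(nat_lit 1, nat_lit 1000)])],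
 ⟨p044_k5, nat_lit 0, nat_lit 0, nat_lit 78, nat_lit 0, nat_lit 0, [nat_lit 2702720000, nat_lit 2862800001, nat_lit 3030799999], [], [nat_lit 16252133753, nat_lit 16974438171, nat_lit 15412122548, nat_lit 16129755416, nat_lit 19408041190, nat_lit 20156511794, nat_lit 18297269020, nat_lit 19043571049], nat_lit 0, nat_lit 0, nat_lit 0, nat_lit 0, nat_lit 0, nat_lit 0, [], [nat_lit 9, nat_lit 40, nat_lit 40, nat_lit 80, nat_lit 2, nat_lit 215, nat_lit 10, nat_lit 6]⟩, C1.Rw.none,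
 ⟨nat_lit 5700, nat_lit 5917, ⟨.ofNat (nat_lit 197129), .ofNat (nat_lit 228543), .ofNat (nat_lit 229138), .ofNat (nat_lit 260552), .ofNat (nat_lit 205119), .ofNat (nat_lit 235806), .ofNat (nat_lit 237132), .ofNat (nat_lit 267819)⟩, ⟨.ofNat (nat_lit 429157), .ofNat (nat_lit 507691), .ofNat (nat_lit 450496), .ofNat (nat_lit 529030), .ofNat (nat_lit 427324), .ofNat (nat_lit 504043), .ofNat (nat_lit 448666), .ofNat (nat_lit 525385)⟩⟩, [⟨nat_lit 0, nat_lit 100, nat_lit 98, nat_lit 60, nat_lit 468997906⟩]⟩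
noncomputable def p044_l12 : Lf2 := ⟨nat_lit 0, nat_lit 10, [nat_lit 0, nat_lit 5, nat_lit 5, nat_lit 20], true, nat_lit 240, nat_lit 280, nat_lit 0, nat_lit 288, ⟨nat_lit 0, nat_lit 1000, nat_lit 0, nat_lit 6, nat_lit 91, nat_lit 1000, nat_lit 187, nat_lit 0, nat_lit 0, nat_lit 0, nat_lit 0, nat_lit 0, nat_lit 51071772, nat_lit 3944027, nat_lit 11984201, nat_lit 3609336, false, false⟩,
 nat_lit 0, nat_lit 0, nat_lit 0, nat_lit 8056, nat_lit 5492, nat_lit 0, nat_lit 0, nat_lit 0, nat_lit 0, nat_lit 0, nat_lit 0, nat_lit 0, nat_lit 0, nat_lit 11407305290763, nat_lit 0, nat_lit 250000, nat_lit 0, nat_lit 0, [(nat_lit 9, [(nat_lit 0, nat_lit 1000)])],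
 ⟨p044_k4, nat_lit 0, nat_lit 0, nat_lit 60, nat_lit 0, nat_lit 0, [nat_lit 3116800000, nat_lit 3614800000], [], [nat_lit 16465775815, nat_lit 16838379817, nat_lit 15561283104, nat_lit 15931475836, nat_lit 19673030120, nat_lit 20059043142, nat_lit 18539004960, nat_lit 18868196478], nat_lit 0, nat_lit 0, nat_lit 0, nat_lit 0, nat_lit 0, nat_lit 0, [], [nat_lit 70, nat_lit 40, nat_lit 40, nat_lit 80, nat_lit 13, nat_lit 373, nat_lit 150, nat_lit 10]⟩, C1.Rw.none,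
 ⟨nat_lit 5809, nat_lit 5917, ⟨.ofNat (nat_lit 197129), .ofNat (nat_lit 228543), .ofNat (nat_lit 223803), .ofNat (nat_lit 255217), .ofNat (nat_lit 201138), .ofNat (nat_lit 232187), .ofNat (nat_lit 227812), .ofNat (nat_lit 258861)⟩, ⟨.ofNat (nat_lit 407818), .ofNat (nat_lit 486351), .ofNat (nat_lit 450496), .ofNat (nat_lit 529030), .ofNat (nat_lit 406908), .ofNat (nat_lit 484530), .ofNat (nat_lit 449586), .ofNat (nat_lit 527209)⟩⟩, [⟨nat_lit 0, nat_lit 100, nat_lit 100, nat_lit 65, nat_lit 476295196⟩, ⟨nat_lit 4, nat_lit 93, nat_lit 100, nat_lit 75, nat_lit 278163397⟩]⟩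
noncomputable def p044_l13 : Lf2 := ⟨nat_lit 0, nat_lit 10, [nat_lit 0, nat_lit 5, nat_lit 5, nat_lit 20], true, nat_lit 240, nat_lit 280, nat_lit 0, nat_lit 288, ⟨nat_lit 0, nat_lit 1000, nat_lit 0, nat_lit 6, nat_lit 94, nat_lit 1000, nat_lit 187, nat_lit 0, nat_lit 0, nat_lit 0, nat_lit 0, nat_lit 0, nat_lit 50962544, nat_lit 4114340, nat_lit 11923116, nat_lit 3639609, false, false⟩,
 nat_lit 0, nat_lit 0, nat_lit 0, nat_lit 10579, nat_lit 5492, nat_lit 0, nat_lit 0, nat_lit 0, nat_lit 0, nat_lit 0, nat_lit 0, nat_lit 0, nat_lit 0, nat_lit 0, nat_lit 0, nat_lit 250000, nat_lit 0, nat_lit 0, [(nat_lit 9, [(nat_lit 0, nat_lit 1000)])],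
 ⟨p044_k6, nat_lit 0, nat_lit 0, nat_lit 62, nat_lit 0, nat_lit 0, [nat_lit 3116800000, nat_lit 3614800000], [], [nat_lit 16838379817, nat_lit 17210983820, nat_lit 15931475836, nat_lit 16301668568, nat_lit 20059043142, nat_lit 20445056164, nat_lit 18868196478, nat_lit 19252821252], nat_lit 0, nat_lit 0, nat_lit 0, nat_lit 0, nat_lit 0, nat_lit 0, [], [nat_lit 70, nat_lit 40, nat_lit 40, nat_lit 80, nat_lit 13, nat_lit 373, nat_lit 150, nat_lit 10]⟩, C1.Rw.none,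
 ⟨nat_lit 5700, nat_lit 5810, ⟨.ofNat (nat_lit 201138), .ofNat (nat_lit 232187), .ofNat (nat_lit 233147), .ofNat (nat_lit 264196), .ofNat (nat_lit 205119), .ofNat (nat_lit 235806), .ofNat (nat_lit 237132), .ofNat (nat_lit 267819)⟩, ⟨.ofNat (nat_lit 406908), .ofNat (nat_lit 484530), .ofNat (nat_lit 449586), .ofNat (nat_lit 527209), .ofNat (nat_lit 405982), .ofNat (nat_lit 482701), .ofNat (nat_lit 448666), .ofNat (nat_lit 525385)⟩⟩, [⟨nat_lit 0, nat_lit 100, nat_lit 98, nat_lit 61, nat_lit 1154822888⟩, ⟨nat_lit 4, nat_lit 96, nat_lit 100, nat_lit 76, nat_lit 383943293⟩]⟩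
noncomputable def p044_l14 : Lf2 := ⟨nat_lit 0, nat_lit 10, [nat_lit 0, nat_lit 5, nat_lit 5, nat_lit 20], true, nat_lit 240, nat_lit 280, nat_lit 0, nat_lit 288, ⟨nat_lit 0, nat_lit 1000, nat_lit 0, nat_lit 6, nat_lit 100, nat_lit 1000, nat_lit 186, nat_lit 0, nat_lit 0, nat_lit 0, nat_lit 0, nat_lit 0, nat_lit 50665492, nat_lit 4511308, nat_lit 11823200, nat_lit 3712272, false, false⟩,
 nat_lit 0, nat_lit 0, nat_lit 0, nat_lit 2725, nat_lit 5444, nat_lit 0, nat_lit 0, nat_lit 0, nat_lit 0, nat_lit 0, nat_lit 0, nat_lit 0, nat_lit 0, nat_lit 0, nat_lit 0, nat_lit 250000, nat_lit 0, nat_lit 0, [(nat_lit 9, [(nat_lit 0, nat_lit 1000)])],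
 ⟨p044_k7, nat_lit 0, nat_lit 0, nat_lit 62, nat_lit 0, nat_lit 0, [nat_lit 3116800000, nat_lit 3614800000], [], [nat_lit 17013358645, nat_lit 17753854432, nat_lit 16338805976, nat_lit 17075702224, nat_lit 20105787852, nat_lit 20873700497, nat_lit 19220904972, nat_lit 19987141216], nat_lit 0, nat_lit 0, nat_lit 0, nat_lit 0, nat_lit 0, nat_lit 0, [], [nat_lit 70, nat_lit 40, nat_lit 40, nat_lit 80, nat_lit 13, nat_lit 373, nat_lit 150, nat_lit 10]⟩, C1.Rw.none,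
 ⟨nat_lit 5477, nat_lit 5701, ⟨.ofNat (nat_lit 212791), .ofNat (nat_lit 235806), .ofNat (nat_lit 255475), .ofNat (nat_lit 278490), .ofNat (nat_lit 220501), .ofNat (nat_lit 242980), .ofNat (nat_lit 263215), .ofNat (nat_lit 285695)⟩, ⟨.ofNat (nat_lit 405982), .ofNat (nat_lit 482701), .ofNat (nat_lit 448666), .ofNat (nat_lit 525385), .ofNat (nat_lit 404075), .ofNat (nat_lit 479008), .ofNat (nat_lit 446789), .ofNat (nat_lit 521722)⟩⟩, [⟨nat_lit 0, nat_lit 100, nat_lit 97, nat_lit 67, nat_lit 616317965⟩, ⟨nat_lit 4, nat_lit 99, nat_lit 100, nat_lit 77, nat_lit 29572252⟩]⟩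
noncomputable def p044_l15 : Lf2 := ⟨nat_lit 0, nat_lit 5, [nat_lit 4, nat_lit 5, nat_lit 5, nat_lit 20], false, nat_lit 280, nat_lit 320, nat_lit 0, nat_lit 236, ⟨nat_lit 1000, nat_lit 0, nat_lit 0, nat_lit 0, nat_lit 0, nat_lit 0, nat_lit 0, nat_lit 0, nat_lit 0, nat_lit 0, nat_lit 0, nat_lit 0, nat_lit 0, nat_lit 0, nat_lit 0, nat_lit 0, false, false⟩,
 nat_lit 0, nat_lit 0, nat_lit 0, nat_lit 34846, nat_lit 7653, nat_lit 11058, nat_lit 2273, nat_lit 0, nat_lit 0, nat_lit 3237, nat_lit 0, nat_lit 0, nat_lit 0, nat_lit 0, nat_lit 0, nat_lit 0, nat_lit 0, nat_lit 0, [],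
 ⟨p044_k5, nat_lit 0, nat_lit 0, nat_lit 128, nat_lit 0, nat_lit 0, [nat_lit 4688000000, nat_lit 6250000000, nat_lit 7968000000], [], [nat_lit 21502554330, nat_lit 23371867173, nat_lit 20634342251, nat_lit 22500991532, nat_lit 25819930914, nat_lit 27416889488, nat_lit 24942637291, nat_lit 26539018606], nat_lit 0, nat_lit 0, nat_lit 0, nat_lit 0, nat_lit 0, nat_lit 0, [], [nat_lit 9, nat_lit 40, nat_lit 40, nat_lit 80, nat_lit 2, nat_lit 215, nat_lit 10, nat_lit 6]⟩, ⟨p044_k8, nat_lit 0, nat_lit 0, nat_lit 221, nat_lit 0, nat_lit 0, [nat_lit 4688000000, nat_lit 6250000000, nat_lit 9842000000], [], [nat_lit 21076633175, nat_lit 28416900109, nat_lit 19782725793, nat_lit 26647244951, nat_lit 15689077701, nat_lit 21268422195, nat_lit 14402535582, nat_lit 19973138495], nat_lit 0, nat_lit 0, nat_lit 0, nat_lit 0, nat_lit 0, nat_lit 0, [], [nat_lit 11, nat_lit 40, nat_lit 40, nat_lit 80, nat_lit 1, nat_lit 373,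 nat_lit 150, nat_lit 11]⟩,
 zbF0, [⟨nat_lit 0, nat_lit 100, nat_lit 98, nat_lit 64, nat_lit 2553223796⟩, ⟨nat_lit 4, nat_lit 97, nat_lit 100, nat_lit 76, nat_lit 1206462400⟩, ⟨nat_lit 23, nat_lit 93, nat_lit 100, nat_lit 55, nat_lit 46178911⟩]⟩
noncomputable def p044_l16 : Lf2 := ⟨nat_lit 0, nat_lit 5, [nat_lit 4, nat_lit 5, nat_lit 5, nat_lit 20], false, nat_lit 280, nat_lit 320, nat_lit 0, nat_lit 248, ⟨nat_lit 1000, nat_lit 0, nat_lit 0, nat_lit 0, nat_lit 0, nat_lit 0, nat_lit 0, nat_lit 0, nat_lit 0, nat_lit 0, nat_lit 0, nat_lit 0, nat_lit 0, nat_lit 0, nat_lit 0, nat_lit 0, false, false⟩,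
 nat_lit 0, nat_lit 0, nat_lit 0, nat_lit 21571, nat_lit 6274, nat_lit 10692, nat_lit 0, nat_lit 0, nat_lit 0, nat_lit 3109, nat_lit 0, nat_lit 0, nat_lit 0, nat_lit 0, nat_lit 0, nat_lit 0, nat_lit 0, nat_lit 0, [],
 ⟨p044_k5, nat_lit 0, nat_lit 0, nat_lit 95, nat_lit 0, nat_lit 0, [nat_lit 4688000000, nat_lit 6250000000, nat_lit 7968000000], [], [nat_lit 20223373780, nat_lit 21639025872, nat_lit 19679620120, nat_lit 21091294404, nat_lit 23443343136, nat_lit 24873772405, nat_lit 22888632552, nat_lit 24171127192], nat_lit 0, nat_lit 0, nat_lit 0, nat_lit 0, nat_lit 0, nat_lit 0, [], [nat_lit 9, nat_lit 40, nat_lit 40, nat_lit 80, nat_lit 2, nat_lit 215, nat_lit 10, nat_lit 6]⟩, ⟨p044_k8, nat_lit 0, nat_lit 0, nat_lit 212, nat_lit 0, nat_lit 0, [nat_lit 4688000000, nat_lit 6250000000, nat_lit 9842000000], [], [nat_lit 19996333308, nat_lit 26040567450, nat_lit 18748649090, nat_lit 24332314208, nat_lit 15868487714,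 nat_lit 21096215816, nat_lit 14889256520, nat_lit 19846897210], nat_lit 0, nat_lit 0, nat_lit 0, nat_lit 0, nat_lit 0, nat_lit 0, [], [nat_lit 11, nat_lit 40, nat_lit 40, nat_lit 80, nat_lit 1, nat_lit 373, nat_lit 150, nat_lit 11]⟩,
 zbF0, [⟨nat_lit 0, nat_lit 100, nat_lit 98, nat_lit 64, nat_lit 1543612950⟩, ⟨nat_lit 16, nat_lit 100, nat_lit 85, nat_lit 84, nat_lit 96073431⟩, ⟨nat_lit 4, nat_lit 97, nat_lit 100, nat_lit 76, nat_lit 654074362⟩, ⟨nat_lit 23, nat_lit 87, nat_lit 100, nat_lit 57, nat_lit 137635067⟩]⟩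
noncomputable def p044_l17 : Lf2 := ⟨nat_lit 0, nat_lit 10, [nat_lit 0, nat_lit 5, nat_lit 5, nat_lit 20], true, nat_lit 280, nat_lit 320, nat_lit 0, nat_lit 248, ⟨nat_lit 0, nat_lit 0, nat_lit 1000, nat_lit 6, nat_lit 92, nat_lit 1000, nat_lit 217, nat_lit 1000, nat_lit 4618, nat_lit 210, nat_lit 79350, nat_lit 284, nat_lit 48129353, nat_lit 0, nat_lit 0, nat_lit 3910848, false, false⟩,
 nat_lit 0, nat_lit 0, nat_lit 0, nat_lit 100000, nat_lit 4511, nat_lit 0, nat_lit 0, nat_lit 0, nat_lit 0, nat_lit 0, nat_lit 0, nat_lit 0, nat_lit 0, nat_lit 0, nat_lit 101, nat_lit 478600, nat_lit 0, nat_lit 0, [(nat_lit 9, [(nat_lit 5, nat_lit 869), (nat_lit 6, nat_lit 131)])],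
 ⟨p044_k4, nat_lit 0, nat_lit 0, nat_lit 154, nat_lit 0, nat_lit 0, [nat_lit 3209105201, nat_lit 17317600], [], [nat_lit 18842505710, nat_lit 20238903564, nat_lit 17901364571, nat_lit 19293209404, nat_lit 22003852518, nat_lit 23223443067, nat_lit 21048640342, nat_lit 22266191588], nat_lit 0, nat_lit 0, nat_lit 0, nat_lit 0, nat_lit 0, nat_lit 0, [], [nat_lit 70, nat_lit 40, nat_lit 40, nat_lit 80, nat_lit 13, nat_lit 317, nat_lit 100, nat_lit 9]⟩, C1.Rw.none,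
 ⟨nat_lit 5477, nat_lit 5917, ⟨.ofNat (nat_lit 197129), .ofNat (nat_lit 228543), .ofNat (nat_lit 218469), .ofNat (nat_lit 249882), .ofNat (nat_lit 213007), .ofNat (nat_lit 242980), .ofNat (nat_lit 234364), .ofNat (nat_lit 264337)⟩, ⟨.ofNat (nat_lit 486351), .ofNat (nat_lit 564885), .ofNat (nat_lit 529030), .ofNat (nat_lit 607556), .ofNat (nat_lit 479008), .ofNat (nat_lit 553941), .ofNat (nat_lit 521722), .ofNat (nat_lit 596648)⟩⟩, [⟨nat_lit 0, nat_lit 100, nat_lit 97, nat_lit 59, nat_lit 2101038410⟩, ⟨nat_lit 4, nat_lit 97, nat_lit 100, nat_lit 76, nat_lit 4141513837⟩]⟩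
noncomputable def p044_l18 : Lf2 := ⟨nat_lit 0, nat_lit 10, [nat_lit 0, nat_lit 5, nat_lit 5, nat_lit 20], false, nat_lit 280, nat_lit 320, nat_lit 0, nat_lit 248, ⟨nat_lit 1000, nat_lit 0, nat_lit 0, nat_lit 0, nat_lit 0, nat_lit 0, nat_lit 0, nat_lit 0, nat_lit 0, nat_lit 0, nat_lit 0, nat_lit 0, nat_lit 0, nat_lit 0, nat_lit 0, nat_lit 0, false, false⟩,
 nat_lit 0, nat_lit 0, nat_lit 0, nat_lit 41344, nat_lit 10799, nat_lit 11994, nat_lit 1485, nat_lit 0, nat_lit 0, nat_lit 1667, nat_lit 0, nat_lit 0, nat_lit 0, nat_lit 24794496542245, nat_lit 0, nat_lit 0, nat_lit 0, nat_lit 0, [],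
 ⟨p044_k9, nat_lit 0, nat_lit 0, nat_lit 145, nat_lit 0, nat_lit 0, [nat_lit 4688000000, nat_lit 7968000001, nat_lit 9842000000], [], [nat_lit 22265072174, nat_lit 24604702896, nat_lit 21631433102, nat_lit 23969997436, nat_lit 27724632474, nat_lit 29699238039, nat_lit 27085887478, nat_lit 29060425892], nat_lit 0, nat_lit 0, nat_lit 0, nat_lit 0, nat_lit 0, nat_lit 0, [], [nat_lit 29, nat_lit 40, nat_lit 40, nat_lit 80, nat_lit 17, nat_lit 317, nat_lit 100, nat_lit 8]⟩, ⟨p044_k9, nat_lit 0, nat_lit 0, nat_lit 227, nat_lit 0, nat_lit 0, [nat_lit 4688000000, nat_lit 7968000000, nat_lit 9842000000], [], [nat_lit 24251943857, nat_lit 27235406562, nat_lit 23544724044, nat_lit 26272065056, nat_lit 18331144405, nat_lit 21171451717, nat_lit 17626648569, nat_lit 20464525388], nat_lit 0, nat_lit 0, nat_lit 0, nat_lit 0, nat_lit 0, nat_lit 0, [], [nat_lit 29, nat_lit 40, nat_lit 40, nat_lit 80, nat_lit 17, nat_lit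 373, nat_lit 150, nat_lit 11]⟩,
 zbF0, [⟨nat_lit 0, nat_lit 100, nat_lit 100, nat_lit 60, nat_lit 2315910393⟩, ⟨nat_lit 4, nat_lit 97, nat_lit 100, nat_lit 76, nat_lit 1512143648⟩, ⟨nat_lit 23, nat_lit 94, nat_lit 100, nat_lit 62, nat_lit 78996635⟩]⟩
noncomputable def p044_l19 : Lf2 := ⟨nat_lit 0, nat_lit 10, [nat_lit 0, nat_lit 5, nat_lit 5, nat_lit 20], false, nat_lit 240, nat_lit 320, nat_lit 0, nat_lit 160, ⟨nat_lit 1000, nat_lit 0, nat_lit 0, nat_lit 0, nat_lit 0, nat_lit 0, nat_lit 0, nat_lit 0, nat_lit 0, nat_lit 0, nat_lit 0, nat_lit 0, nat_lit 0, nat_lit 0, nat_lit 0, nat_lit 0, false, false⟩,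
 nat_lit 0, nat_lit 0, nat_lit 0, nat_lit 10427, nat_lit 6395, nat_lit 7747, nat_lit 0, nat_lit 0, nat_lit 0, nat_lit 1033, nat_lit 0, nat_lit 0, nat_lit 0, nat_lit 11995850340191, nat_lit 0, nat_lit 0, nat_lit 0, nat_lit 0, [],
 ⟨p044_k4, nat_lit 0, nat_lit 0, nat_lit 70, nat_lit 0, nat_lit 0, [nat_lit 4688000000, nat_lit 9842000000], [], [nat_lit 16368194740, nat_lit 17980247420, nat_lit 15382379420, nat_lit 16932988100, nat_lit 22857795460, nat_lit 24301868660, nat_lit 21624782950, nat_lit 22822603160], nat_lit 0, nat_lit 0, nat_lit 0, nat_lit 0, nat_lit 0, nat_lit 0, [], [nat_lit 70, nat_lit 40, nat_lit 40, nat_lit 80, nat_lit 13, nat_lit 401, nat_lit 175, nat_lit 11]⟩, ⟨p044_k10, nat_lit 0, nat_lit 0, nat_lit 338, nat_lit 0, nat_lit 0, [nat_lit 4688000000, nat_lit 9842000000, nat_lit 11872000000], [], [nat_lit 27479343940, nat_lit 31248081604, nat_lit 25574707428, nat_lit 29223009240, nat_lit 22792574644,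 nat_lit 25440020436, nat_lit 21614047648, nat_lit 24150938512], nat_lit 0, nat_lit 0, nat_lit 0, nat_lit 0, nat_lit 0, nat_lit 0, [], [nat_lit 125, nat_lit 40, nat_lit 40, nat_lit 80, nat_lit 41, nat_lit 373, nat_lit 150, nat_lit 10]⟩,
 zbF0, [⟨nat_lit 0, nat_lit 100, nat_lit 98, nat_lit 64, nat_lit 82531565⟩, ⟨nat_lit 16, nat_lit 100, nat_lit 85, nat_lit 84, nat_lit 760866036⟩]⟩
noncomputable def p044_l20 : Lf2 := ⟨nat_lit 0, nat_lit 10, [nat_lit 0, nat_lit 5, nat_lit 5, nat_lit 20], false, nat_lit 240, nat_lit 320, nat_lit 160, nat_lit 240, ⟨nat_lit 1000, nat_lit 0, nat_lit 0, nat_lit 0, nat_lit 0, nat_lit 0, nat_lit 0, nat_lit 0, nat_lit 0, nat_lit 0, nat_lit 0, nat_lit 0, nat_lit 0, nat_lit 0, nat_lit 0, nat_lit 0, false, false⟩,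
 nat_lit 0, nat_lit 0, nat_lit 0, nat_lit 2796, nat_lit 6395, nat_lit 7825, nat_lit 0, nat_lit 0, nat_lit 0, nat_lit 0, nat_lit 0, nat_lit 0, nat_lit 0, nat_lit 3023062409271, nat_lit 0, nat_lit 0, nat_lit 0, nat_lit 0, [],
 ⟨p044_k9, nat_lit 0, nat_lit 0, nat_lit 108, nat_lit 0, nat_lit 0, [nat_lit 4688000000, nat_lit 7968000001, nat_lit 9842000000], [], [nat_lit 16368194740, nat_lit 17980247420, nat_lit 15382379420, nat_lit 16932988100, nat_lit 22857795460, nat_lit 24301868660, nat_lit 21624782950, nat_lit 22822603160], nat_lit 0, nat_lit 0, nat_lit 0, nat_lit 0, nat_lit 0, nat_lit 0, [], [nat_lit 29, nat_lit 40, nat_lit 40, nat_lit 80, nat_lit 17, nat_lit 401, nat_lit 175, nat_lit 11]⟩, ⟨p044_k11, nat_lit 0, nat_lit 0, nat_lit 52, nat_lit 0, nat_lit 0, [nat_lit 4688000000, nat_lit 7968000000, nat_lit 11872000000], [], [nat_lit 8075440900, nat_lit 12554499400, nat_lit 6935109500, nat_lit 11182031200,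 nat_lit 13337908100, nat_lit 17669091500, nat_lit 12027127900, nat_lit 15737428300], nat_lit 0, nat_lit 0, nat_lit 0, nat_lit 0, nat_lit 0, nat_lit 0, [], [nat_lit 21, nat_lit 40, nat_lit 40, nat_lit 80, nat_lit 14, nat_lit 373, nat_lit 150, nat_lit 9]⟩,
 zbF0, [⟨nat_lit 0, nat_lit 100, nat_lit 98, nat_lit 64, nat_lit 67317195⟩, ⟨nat_lit 11, nat_lit 100, nat_lit 70, nat_lit 71, nat_lit 524876602⟩, ⟨nat_lit 23, nat_lit 99, nat_lit 100, nat_lit 77, nat_lit 346058549⟩]⟩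
noncomputable def p044_l21 : Lf2 := ⟨nat_lit 0, nat_lit 10, [nat_lit 0, nat_lit 5, nat_lit 5, nat_lit 20], false, nat_lit 240, nat_lit 320, nat_lit 240, nat_lit 336, ⟨nat_lit 995, nat_lit 5, nat_lit 0, nat_lit 6, nat_lit 118, nat_lit 5, nat_lit 202, nat_lit 0, nat_lit 0, nat_lit 0, nat_lit 0, nat_lit 0, nat_lit 48002509, nat_lit 5753767, nat_lit 13243724, nat_lit 4107480, false, false⟩,
 nat_lit 0, nat_lit 0, nat_lit 0, nat_lit 13399, nat_lit 7193, nat_lit 10387, nat_lit 0, nat_lit 0, nat_lit 0, nat_lit 1561, nat_lit 0, nat_lit 0, nat_lit 0, nat_lit 0, nat_lit 0, nat_lit 1250, nat_lit 0, nat_lit 0, [(nat_lit 9, [(nat_lit 0, nat_lit 5)])],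
 ⟨p044_k9, nat_lit 0, nat_lit 0, nat_lit 108, nat_lit 0, nat_lit 0, [nat_lit 4680144000, nat_lit 7945054000, nat_lit 9810864000], [], [nat_lit 15684921116, nat_lit 17412990228, nat_lit 14477727828, nat_lit 16138607340, nat_lit 23623687546, nat_lit 25164114044, nat_lit 21696967908, nat_lit 23193010084], nat_lit 0, nat_lit 0, nat_lit 0, nat_lit 0, nat_lit 0, nat_lit 0, [], [nat_lit 29, nat_lit 40, nat_lit 40, nat_lit 80, nat_lit 17, nat_lit 401, nat_lit 175, nat_lit 11]⟩, ⟨p044_k11, nat_lit 0, nat_lit 0, nat_lit 183, nat_lit 0, nat_lit 0, [nat_lit 4664560000, nat_lit 7928160000, nat_lit 11812640000], [], [nat_lit 19905404644, nat_lit 22539694868, nat_lit 17414881076, nat_lit 19948366992, nat_lit 28349823014, nat_lit 30981490441, nat_lit 25781110754, nat_lit 28133351668], nat_lit 0, nat_lit 0, nat_lit 0, nat_lit 0, nat_lit 0, nat_lit 0, [], [nat_lit 21, nat_lit 40, nat_lit 40, nat_lit 80, nat_lit 14, nat_lit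 401, nat_lit 175, nat_lit 10]⟩,
 ⟨nat_lit 5477, nat_lit 5917, ⟨.ofNat (nat_lit 228543), .ofNat (nat_lit 307076), .ofNat (nat_lit 271221), .ofNat (nat_lit 349755), .ofNat (nat_lit 242980), .ofNat (nat_lit 317913), .ofNat (nat_lit 285695), .ofNat (nat_lit 360628)⟩, ⟨.ofNat (nat_lit 407818), .ofNat (nat_lit 564885), .ofNat (nat_lit 450496), .ofNat (nat_lit 607556), .ofNat (nat_lit 404075), .ofNat (nat_lit 553941), .ofNat (nat_lit 446789), .ofNat (nat_lit 596648)⟩⟩, [⟨nat_lit 0, nat_lit 100, nat_lit 98, nat_lit 64, nat_lit 368771821⟩, ⟨nat_lit 4, nat_lit 97, nat_lit 100, nat_lit 76, nat_lit 182021376⟩, ⟨nat_lit 19, nat_lit 100, nat_lit 92, nat_lit 75, nat_lit 130592599⟩, ⟨nat_lit 11, nat_lit 100, nat_lit 100, nat_lit 77, nat_lit 764450460⟩]⟩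
noncomputable def p044_l22 : Lf2 := ⟨nat_lit 0, nat_lit 10, [nat_lit 0, nat_lit 5, nat_lit 5, nat_lit 20], false, nat_lit 240, nat_lit 320, nat_lit 0, nat_lit 160, ⟨nat_lit 1000, nat_lit 0, nat_lit 0, nat_lit 0, nat_lit 0, nat_lit 0, nat_lit 0, nat_lit 0, nat_lit 0, nat_lit 0, nat_lit 0, nat_lit 0, nat_lit 0, nat_lit 0, nat_lit 0, nat_lit 0, false, false⟩,
 nat_lit 0, nat_lit 0, nat_lit 0, nat_lit 2796, nat_lit 6741, nat_lit 7391, nat_lit 0, nat_lit 0, nat_lit 0, nat_lit 0, nat_lit 0, nat_lit 0, nat_lit 0, nat_lit 153413082748, nat_lit 0, nat_lit 0, nat_lit 0, nat_lit 0, [],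
 ⟨p044_k4, nat_lit 0, nat_lit 0, nat_lit 49, nat_lit 0, nat_lit 0, [nat_lit 4688000000, nat_lit 9842000000], [], [nat_lit 14993543236, nat_lit 16591963580, nat_lit 14915489694, nat_lit 16428431664, nat_lit 21430542010, nat_lit 22873541908, nat_lit 21014137430, nat_lit 22206343152], nat_lit 0, nat_lit 0, nat_lit 0, nat_lit 0, nat_lit 0, nat_lit 0, [], [nat_lit 70, nat_lit 40, nat_lit 40, nat_lit 80, nat_lit 13, nat_lit 428, nat_lit 200, nat_lit 12]⟩, ⟨p044_k12, nat_lit 0, nat_lit 0, nat_lit 209, nat_lit 0, nat_lit 0, [nat_lit 4688000000, nat_lit 11872000000], [], [nat_lit 32166921084, nat_lit 35204954108, nat_lit 31498582280, nat_lit 34391559952, nat_lit 27480645416, nat_lit 29633130132, nat_lit 27084582048, nat_lit 29118570752], nat_lit 0, nat_lit 0, nat_lit 0, nat_lit 0, nat_lit 0, nat_lit 0, [], [nat_lit 116, nat_lit 40, nat_lit 40, nat_lit 80, nat_lit 65, nat_lit 373, nat_lit 150, nat_lit 10]⟩,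
 zbF0, [⟨nat_lit 16, nat_lit 100, nat_lit 85, nat_lit 84, nat_lit 769441191⟩]⟩
noncomputable def p044_l23 : Lf2 := ⟨nat_lit 0, nat_lit 10, [nat_lit 0, nat_lit 5, nat_lit 5, nat_lit 20], false, nat_lit 240, nat_lit 320, nat_lit 160, nat_lit 336, ⟨nat_lit 1000, nat_lit 0, nat_lit 0, nat_lit 0, nat_lit 0, nat_lit 0, nat_lit 0, nat_lit 0, nat_lit 0, nat_lit 0, nat_lit 0, nat_lit 0, nat_lit 0, nat_lit 0, nat_lit 0, nat_lit 0, false, false⟩,
 nat_lit 0, nat_lit 0, nat_lit 0, nat_lit 2796, nat_lit 6741, nat_lit 7795, nat_lit 0, nat_lit 0, nat_lit 0, nat_lit 0, nat_lit 0, nat_lit 0, nat_lit 0, nat_lit 0, nat_lit 0, nat_lit 0, nat_lit 0, nat_lit 0, [],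
 ⟨p044_k4, nat_lit 0, nat_lit 0, nat_lit 49, nat_lit 0, nat_lit 0, [nat_lit 4688000000, nat_lit 9842000000], [], [nat_lit 14993543236, nat_lit 16591963580, nat_lit 14915489694, nat_lit 16428431664, nat_lit 21430542010, nat_lit 22873541908, nat_lit 21014137430, nat_lit 22206343152], nat_lit 0, nat_lit 0, nat_lit 0, nat_lit 0, nat_lit 0, nat_lit 0, [], [nat_lit 70, nat_lit 40, nat_lit 40, nat_lit 80, nat_lit 13, nat_lit 428, nat_lit 200, nat_lit 12]⟩, ⟨p044_k12, nat_lit 0, nat_lit 0, nat_lit 59, nat_lit 0, nat_lit 0, [nat_lit 4688000000, nat_lit 11872000000], [], [nat_lit 6982920500, nat_lit 11219113120, nat_lit 7126236740, nat_lit 11127229460, nat_lit 22622445049, nat_lit 25542133200, nat_lit 21760951620, nat_lit 24542516156], nat_lit 0, nat_lit 0, nat_lit 0, nat_lit 0, nat_lit 0, nat_lit 0, [], [nat_lit 116, nat_lit 40, nat_lit 40, nat_lit 80, nat_lit 65, nat_lit 428, nat_lit 200, nat_lit 11]⟩,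
 zbF0, [⟨nat_lit 11, nat_lit 100, nat_lit 100, nat_lit 100, nat_lit 636653345⟩]⟩
noncomputable def b_V_600_600_10_1 : St := ⟨true, nat_lit 0, nat_lit 0, nat_lit 1, nat_lit 80, nat_lit 240, nat_lit 280, nat_lit 240, nat_lit 280, nat_lit 16, nat_lit 120, nat_lit 40, nat_lit 80, nat_lit 160, nat_lit 336, nat_lit 0, nat_lit 336, nat_lit 0, nat_lit 40, nat_lit 0, nat_lit 0, nat_lit 0, nat_lit 0⟩
theorem d_V_600_600_10_1 (h : EB TB.env) : Dead b_V_600_600_10_1 := chkB_sound0 h (T :=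
(.spl (nat_lit 0) (nat_lit 260)
(.ord (.spl (nat_lit 6) (nat_lit 24)
(.spl (nat_lit 4) (nat_lit 240)
(.leaf p044_l0)
(.spl (nat_lit 5) (nat_lit 160)
(.spl (nat_lit 0) (nat_lit 250)
(.ord (.leaf p044_l1))
(.trZ (nat_lit 0) (nat_lit 100) (nat_lit 99) (nat_lit 45) (nat_lit 20) (.trX (nat_lit 16) (nat_lit 100) (nat_lit 81) (nat_lit 83) (nat_lit 328) (.leaf p044_l2))))
(.spl (nat_lit 5) (nat_lit 240)
(.leaf p044_l3)
(.spl (nat_lit 4) (nat_lit 280)
(.spl (nat_lit 4) (nat_lit 260)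
(.leaf p044_l4)
(.trZ (nat_lit 11) (nat_lit 100) (nat_lit 97) (nat_lit 49) (nat_lit 24) (.leaf p044_l5)))
(.trZ (nat_lit 11) (nat_lit 100) (nat_lit 94) (nat_lit 59) (nat_lit 36) (.spl (nat_lit 2) (nat_lit 80)
(.trX (nat_lit 23) (nat_lit 100) (nat_lit 95) (nat_lit 87) (nat_lit 300) (.leaf p044_l6))
(.leaf p044_l7)))))))
(.leaf p044_l8)))
(.trZ (nat_lit 0) (nat_lit 100) (nat_lit 97) (nat_lit 49) (nat_lit 24) (.trX (nat_lit 16) (nat_lit 100) (nat_lit 85) (nat_lit 84) (nat_lit 320) (.spl (nat_lit 4) (nat_lit 240)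
(.leaf p044_l9)
(.spl (nat_lit 2) (nat_lit 80)
(.spl (nat_lit 2) (nat_lit 40)
(.trX (nat_lit 23) (nat_lit 100) (nat_lit 92) (nat_lit 61) (nat_lit 288) (.spl (nat_lit 4) (nat_lit 280)
(.spl (nat_lit 0) (nat_lit 270)
(.ord (.spl (nat_lit 6) (nat_lit 20)
(.spl (nat_lit 3) (nat_lit 60)
(.leaf p044_l10)
(.leaf p044_l11))
(.spl (nat_lit 0) (nat_lit 265)
(.ord (.leaf p044_l12))
(.leaf p044_l13))))
(.trZ (nat_lit 0) (nat_lit 100) (nat_lit 96) (nat_lit 54) (nat_lit 28) (.leaf p044_l14)))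
(.trX (nat_lit 23) (nat_lit 94) (nat_lit 100) (nat_lit 62) (nat_lit 248) (.spl (nat_lit 6) (nat_lit 20)
(.spl (nat_lit 2) (nat_lit 32)
(.trX (nat_lit 23) (nat_lit 93) (nat_lit 100) (nat_lit 55) (nat_lit 236) (.leaf p044_l15))
(.leaf p044_l16))
(.spl (nat_lit 1) (nat_lit 260)
(.leaf p044_l17)
(.trZ (nat_lit 0) (nat_lit 100) (nat_lit 100) (nat_lit 60) (nat_lit 36) (.leaf p044_l18)))))))
(.spl (nat_lit 5) (nat_lit 160)
(.leaf p044_l19)
(.spl (nat_lit 5) (nat_lit 240)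
(.leaf p044_l20)
(.leaf p044_l21))))
(.spl (nat_lit 5) (nat_lit 160)
(.leaf p044_l22)
(.leaf p044_l23)))))))) (by decide +kernel)
noncomputable def p044_l24 : Lf2 := ⟨nat_lit 0, nat_lit 10, [nat_lit 0, nat_lit 5, nat_lit 5, nat_lit 20], false, nat_lit 0, nat_lit 160, nat_lit 0, nat_lit 336, ⟨nat_lit 1000, nat_lit 0, nat_lit 0, nat_lit 0, nat_lit 0, nat_lit 0, nat_lit 0, nat_lit 0, nat_lit 0, nat_lit 0, nat_lit 0, nat_lit 0, nat_lit 0, nat_lit 0, nat_lit 0, nat_lit 0, false, false⟩,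
 nat_lit 0, nat_lit 0, nat_lit 0, nat_lit 12563, nat_lit 7118, nat_lit 6688, nat_lit 2155, nat_lit 0, nat_lit 0, nat_lit 1971, nat_lit 0, nat_lit 0, nat_lit 0, nat_lit 0, nat_lit 0, nat_lit 0, nat_lit 0, nat_lit 0, [],
 ⟨p044_k13, nat_lit 0, nat_lit 0, nat_lit 239, nat_lit 0, nat_lit 0, [nat_lit 4688000000, nat_lit 6250000000, nat_lit 11872000000], [], [nat_lit 21102418565, nat_lit 23936212021, nat_lit 36637295456, nat_lit 38643984688, nat_lit 17249966229, nat_lit 19248862421, nat_lit 29312076568, nat_lit 30736575552], nat_lit 0, nat_lit 0, nat_lit 0, nat_lit 0, nat_lit 0, nat_lit 0, [], [nat_lit 48, nat_lit 40, nat_lit 40, nat_lit 80, nat_lit 12, nat_lit 456, nat_lit 225, nat_lit 12]⟩, ⟨p044_k13, nat_lit 0, nat_lit 0, nat_lit 239, nat_lit 0, nat_lit 0, [nat_lit 4688000000, nat_lit 6250000000, nat_lit 11872000000], [], [nat_lit 22320737005, nat_lit 24646051725, nat_lit 35563555693, nat_lit 37518839808,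 nat_lit 25460701319, nat_lit 26851220436, nat_lit 34049862964, nat_lit 35054439738], nat_lit 0, nat_lit 0, nat_lit 0, nat_lit 0, nat_lit 0, nat_lit 0, [], [nat_lit 48, nat_lit 40, nat_lit 40, nat_lit 80, nat_lit 12, nat_lit 538, nat_lit 300, nat_lit 14]⟩,
 zbF0, [⟨nat_lit 19, nat_lit 100, nat_lit 92, nat_lit 75, nat_lit 296291274⟩]⟩
noncomputable def p044_l25 : Lf2 := ⟨nat_lit 0, nat_lit 10, [nat_lit 0, nat_lit 5, nat_lit 5, nat_lit 20], false, nat_lit 160, nat_lit 336, nat_lit 0, nat_lit 336, ⟨nat_lit 1000, nat_lit 0, nat_lit 0, nat_lit 0, nat_lit 0, nat_lit 0, nat_lit 0, nat_lit 0, nat_lit 0, nat_lit 0, nat_lit 0, nat_lit 0, nat_lit 0, nat_lit 0, nat_lit 0, nat_lit 0, false, false⟩,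
 nat_lit 0, nat_lit 0, nat_lit 0, nat_lit 18846, nat_lit 6497, nat_lit 7499, nat_lit 0, nat_lit 0, nat_lit 0, nat_lit 2209, nat_lit 0, nat_lit 0, nat_lit 0, nat_lit 0, nat_lit 0, nat_lit 0, nat_lit 0, nat_lit 0, [],
 ⟨p044_k13, nat_lit 0, nat_lit 0, nat_lit 83, nat_lit 0, nat_lit 0, [nat_lit 4688000000, nat_lit 6250000000, nat_lit 11872000000], [], [nat_lit 9334690284, nat_lit 12903687836, nat_lit 28182559840, nat_lit 29920650936, nat_lit 21553861622, nat_lit 23710168272, nat_lit 33824439721, nat_lit 34827994875], nat_lit 0, nat_lit 0, nat_lit 0, nat_lit 0, nat_lit 0, nat_lit 0, [], [nat_lit 48, nat_lit 40, nat_lit 40, nat_lit 80, nat_lit 12, nat_lit 538, nat_lit 300, nat_lit 13]⟩, ⟨p044_k13, nat_lit 0, nat_lit 0, nat_lit 239, nat_lit 0, nat_lit 0, [nat_lit 4688000000, nat_lit 6250000000, nat_lit 11872000000], [], [nat_lit 20944720295, nat_lit 23861111503, nat_lit 37591240208, nat_lit 39640915384, nat_lit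 24012871817, nat_lit 25450656455, nat_lit 35007026574, nat_lit 36015941225], nat_lit 0, nat_lit 0, nat_lit 0, nat_lit 0, nat_lit 0, nat_lit 0, [], [nat_lit 48, nat_lit 40, nat_lit 40, nat_lit 80, nat_lit 12, nat_lit 538, nat_lit 300, nat_lit 14]⟩,
 zbF0, [⟨nat_lit 16, nat_lit 100, nat_lit 92, nat_lit 75, nat_lit 713896451⟩, ⟨nat_lit 7, nat_lit 92, nat_lit 100, nat_lit 75, nat_lit 180584483⟩]⟩
noncomputable def b_V_600_600_10_2 : St := ⟨true, nat_lit 0, nat_lit 0, nat_lit 1, nat_lit 80, nat_lit 240, nat_lit 280, nat_lit 240, nat_lit 280, nat_lit 120, nat_lit 400, nat_lit 40, nat_lit 80, nat_lit 0, nat_lit 336, nat_lit 0, nat_lit 336, nat_lit 0, nat_lit 40, nat_lit 0, nat_lit 0, nat_lit 0, nat_lit 0⟩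
theorem d_V_600_600_10_2 (h : EB TB.env) : Dead b_V_600_600_10_2 := chkB_sound0 h (T :=
(.spl (nat_lit 4) (nat_lit 160)
(.leaf p044_l24)
(.leaf p044_l25))) (by decide +kernel)
noncomputable def p044_l26 : Lf2 := ⟨nat_lit 0, nat_lit 6, [nat_lit 47, nat_lit 5, nat_lit 5, nat_lit 20], true, nat_lit 0, nat_lit 160, nat_lit 0, nat_lit 336, ⟨nat_lit 0, nat_lit 0, nat_lit 1000, nat_lit 6, nat_lit 112, nat_lit 174, nat_lit 54, nat_lit 1000, nat_lit 17067, nat_lit 247, nat_lit 117600, nat_lit 299, nat_lit 62139078, nat_lit 0, nat_lit 0, nat_lit 1300937, false, false⟩,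
 nat_lit 0, nat_lit 0, nat_lit 0, nat_lit 6942, nat_lit 4570, nat_lit 0, nat_lit 0, nat_lit 0, nat_lit 0, nat_lit 0, nat_lit 0, nat_lit 0, nat_lit 0, nat_lit 19077020054592, nat_lit 147, nat_lit 1000000, nat_lit 0, nat_lit 0, [(nat_lit 6, [(nat_lit 6, nat_lit 1000)])],
 ⟨p044_k0, nat_lit 0, nat_lit 0, nat_lit 198, nat_lit 0, nat_lit 0, [nat_lit 4560000000, nat_lit 135000000], [], [nat_lit 13883538601, nat_lit 14492155055, nat_lit 12445185280, nat_lit 13073257320, nat_lit 12899057424, nat_lit 13579156648, nat_lit 12372602400, nat_lit 12984175950], nat_lit 0, nat_lit 0, nat_lit 0, nat_lit 0, nat_lit 0, nat_lit 0, [], [nat_lit 70, nat_lit 40, nat_lit 40, nat_lit 80, nat_lit 13, nat_lit 373, nat_lit 150, nat_lit 11]⟩, C1.Rw.none,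
 ⟨nat_lit 6123, nat_lit 6325, ⟨.ofNat (nat_lit 164319), .ofNat (nat_lit 378206), .ofNat (nat_lit 175003), .ofNat (nat_lit 388890), .ofNat (nat_lit 172944), .ofNat (nat_lit 381933), .ofNat (nat_lit 183618), .ofNat (nat_lit 392607)⟩, ⟨.negSucc (nat_lit 82265), .ofNat (nat_lit 246791), .negSucc (nat_lit 39529), .ofNat (nat_lit 289527), .negSucc (nat_lit 72689), .ofNat (nat_lit 248833), .negSucc (nat_lit 29993), .ofNat (nat_lit 291529)⟩⟩, [⟨nat_lit 0, nat_lit 100, nat_lit 100, nat_lit 50, nat_lit 146071185⟩]⟩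
noncomputable def p044_l27 : Lf2 := ⟨nat_lit 0, nat_lit 6, [nat_lit 47, nat_lit 5, nat_lit 5, nat_lit 20], true, nat_lit 0, nat_lit 160, nat_lit 0, nat_lit 336, ⟨nat_lit 0, nat_lit 0, nat_lit 1000, nat_lit 6, nat_lit 118, nat_lit 248, nat_lit 54, nat_lit 1000, nat_lit 19267, nat_lit 249, nat_lit 132017, nat_lit 304, nat_lit 61632035, nat_lit 0, nat_lit 0, nat_lit 1395294, false, false⟩,
 nat_lit 0, nat_lit 0, nat_lit 0, nat_lit 6695, nat_lit 4207, nat_lit 0, nat_lit 562, nat_lit 0, nat_lit 0, nat_lit 0, nat_lit 0, nat_lit 0, nat_lit 0, nat_lit 17933450641220, nat_lit 69, nat_lit 400000, nat_lit 0, nat_lit 0, [(nat_lit 6, [(nat_lit 5, nat_lit 1000)])],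
 ⟨p044_k14, nat_lit 0, nat_lit 0, nat_lit 239, nat_lit 0, nat_lit 0, [nat_lit 2521600001, nat_lit 679600001, nat_lit 7200000], [], [nat_lit 13657122519, nat_lit 14309609093, nat_lit 12827786945, nat_lit 13421866540, nat_lit 13031865969, nat_lit 13584804464, nat_lit 12479837946, nat_lit 12980966850], nat_lit 0, nat_lit 0, nat_lit 0, nat_lit 0, nat_lit 0, nat_lit 0, [], [nat_lit 29, nat_lit 40, nat_lit 40, nat_lit 80, nat_lit 17, nat_lit 373, nat_lit 150, nat_lit 11]⟩, C1.Rw.none,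
 ⟨nat_lit 5916, nat_lit 6124, ⟨.ofNat (nat_lit 180982), .ofNat (nat_lit 381933), .ofNat (nat_lit 202330), .ofNat (nat_lit 403281), .ofNat (nat_lit 189276), .ofNat (nat_lit 385610), .ofNat (nat_lit 210615), .ofNat (nat_lit 406949)⟩, ⟨.negSucc (nat_lit 72689), .ofNat (nat_lit 248833), .negSucc (nat_lit 29993), .ofNat (nat_lit 291529), .negSucc (nat_lit 63383), .ofNat (nat_lit 250751), .negSucc (nat_lit 20704), .ofNat (nat_lit 293429)⟩⟩, [⟨nat_lit 0, nat_lit 100, nat_lit 100, nat_lit 60, nat_lit 145435932⟩]⟩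
noncomputable def p044_l28 : Lf2 := ⟨nat_lit 0, nat_lit 6, [nat_lit 47, nat_lit 5, nat_lit 5, nat_lit 20], true, nat_lit 0, nat_lit 160, nat_lit 0, nat_lit 336, ⟨nat_lit 0, nat_lit 53, nat_lit 947, nat_lit 6, nat_lit 205, nat_lit 0, nat_lit 54, nat_lit 579, nat_lit 18150, nat_lit 248, nat_lit 21394, nat_lit 200, nat_lit 53034199, nat_lit 13965801, nat_lit 0, nat_lit 2559443, false, false⟩,
 nat_lit 0, nat_lit 0, nat_lit 0, nat_lit 5018, nat_lit 5381, nat_lit 0, nat_lit 0, nat_lit 0, nat_lit 0, nat_lit 0, nat_lit 0, nat_lit 0, nat_lit 0, nat_lit 0, nat_lit 97, nat_lit 690850, nat_lit 0, nat_lit 0, [(nat_lit 6, [(nat_lit 0, nat_lit 53), (nat_lit 5, nat_lit 449), (nat_lit 6, nat_lit 498)])],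
 ⟨p044_k0, nat_lit 0, nat_lit 0, nat_lit 145, nat_lit 0, nat_lit 0, [nat_lit 3453870401, nat_lit 2233600], [], [nat_lit 12813342032, nat_lit 14224725066, nat_lit 16646624688, nat_lit 17819116714, nat_lit 10807046049, nat_lit 11811110975, nat_lit 13930723912, nat_lit 14937281994], nat_lit 0, nat_lit 0, nat_lit 0, nat_lit 0, nat_lit 0, nat_lit 0, [], [nat_lit 70, nat_lit 40, nat_lit 40, nat_lit 80, nat_lit 13, nat_lit 401, nat_lit 175, nat_lit 12]⟩, C1.Rw.none,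
 ⟨nat_lit 5916, nat_lit 6325, ⟨.ofNat (nat_lit 378206), .ofNat (nat_lit 624961), .ofNat (nat_lit 399574), .ofNat (nat_lit 646322), .ofNat (nat_lit 385610), .ofNat (nat_lit 621173), .ofNat (nat_lit 406949), .ofNat (nat_lit 642505)⟩, ⟨.negSucc (nat_lit 82265), .ofNat (nat_lit 246791), .negSucc (nat_lit 39529), .ofNat (nat_lit 289527), .negSucc (nat_lit 63383), .ofNat (nat_lit 250751), .negSucc (nat_lit 20704), .ofNat (nat_lit 293429)⟩⟩, []⟩
noncomputable def p044_l29 : Lf2 := ⟨nat_lit 1, nat_lit 10, [nat_lit 0, nat_lit 5, nat_lit 5, nat_lit 20], false, nat_lit 0, nat_lit 160, nat_lit 0, nat_lit 336, zbN0,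
 nat_lit 0, nat_lit 0, nat_lit 0, nat_lit 0, nat_lit 0, nat_lit 0, nat_lit 0, nat_lit 0, nat_lit 0, nat_lit 0, nat_lit 0, nat_lit 0, nat_lit 0, nat_lit 0, nat_lit 0, nat_lit 0, nat_lit 0, nat_lit 0, [],
 C1.Rw.none, C1.Rw.none,
 zbF0, []⟩
noncomputable def p044_l30 : Lf2 := ⟨nat_lit 0, nat_lit 10, [nat_lit 0, nat_lit 5, nat_lit 5, nat_lit 20], true, nat_lit 0, nat_lit 80, nat_lit 0, nat_lit 336, ⟨nat_lit 0, nat_lit 0, nat_lit 1000, nat_lit 6, nat_lit 124, nat_lit 0, nat_lit 24, nat_lit 311, nat_lit 2400, nat_lit 227, nat_lit 144150, nat_lit 308, nat_lit 61116091, nat_lit 0, nat_lit 0, nat_lit 1487315, false, false⟩,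
 nat_lit 0, nat_lit 0, nat_lit 0, nat_lit 5425, nat_lit 4103, nat_lit 0, nat_lit 0, nat_lit 0, nat_lit 0, nat_lit 0, nat_lit 0, nat_lit 0, nat_lit 0, nat_lit 14163389651539, nat_lit 129, nat_lit 642400, nat_lit 0, nat_lit 0, [(nat_lit 9, [(nat_lit 5, nat_lit 596), (nat_lit 6, nat_lit 404)])],
 ⟨p044_k4, nat_lit 0, nat_lit 0, nat_lit 200, nat_lit 0, nat_lit 0, [nat_lit 3796116800, nat_lit 1318400], [], [nat_lit 14803634663, nat_lit 15381936037, nat_lit 13932348102, nat_lit 14462219297, nat_lit 12948316673, nat_lit 13497987341, nat_lit 12362675518, nat_lit 12928672378], nat_lit 0, nat_lit 0, nat_lit 0, nat_lit 0, nat_lit 0, nat_lit 0, [], [nat_lit 70, nat_lit 40, nat_lit 40, nat_lit 80, nat_lit 13, nat_lit 345, nat_lit 125, nat_lit 10]⟩, C1.Rw.none,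
 ⟨nat_lit 5700, nat_lit 5917, ⟨.ofNat (nat_lit 197129), .ofNat (nat_lit 385610), .ofNat (nat_lit 229138), .ofNat (nat_lit 417619), .ofNat (nat_lit 205119), .ofNat (nat_lit 389244), .ofNat (nat_lit 237132), .ofNat (nat_lit 421257)⟩, ⟨.negSucc (nat_lit 63383), .ofNat (nat_lit 93684), .negSucc (nat_lit 20704), .ofNat (nat_lit 136362), .negSucc (nat_lit 54331), .ofNat (nat_lit 99106), .negSucc (nat_lit 11648), .ofNat (nat_lit 141790)⟩⟩, [⟨nat_lit 0, nat_lit 100, nat_lit 100, nat_lit 70, nat_lit 160387236⟩]⟩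
noncomputable def p044_l31 : Lf2 := ⟨nat_lit 0, nat_lit 10, [nat_lit 0, nat_lit 5, nat_lit 5, nat_lit 20], true, nat_lit 0, nat_lit 80, nat_lit 0, nat_lit 336, ⟨nat_lit 0, nat_lit 0, nat_lit 1000, nat_lit 6, nat_lit 130, nat_lit 0, nat_lit 25, nat_lit 409, nat_lit 3267, nat_lit 229, nat_lit 160067, nat_lit 313, nat_lit 60592251, nat_lit 0, nat_lit 0, nat_lit 1576955, false, false⟩,
 nat_lit 0, nat_lit 0, nat_lit 0, nat_lit 5138, nat_lit 4242, nat_lit 0, nat_lit 264, nat_lit 0, nat_lit 0, nat_lit 0, nat_lit 0, nat_lit 0, nat_lit 0, nat_lit 12244460682023, nat_lit 87, nat_lit 400000, nat_lit 0, nat_lit 0, [(nat_lit 9, [(nat_lit 5, nat_lit 1000)])],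
 ⟨p044_k15, nat_lit 0, nat_lit 0, nat_lit 238, nat_lit 0, nat_lit 0, [nat_lit 2918400000, nat_lit 787600001, nat_lit 9200000], [], [nat_lit 14984723675, nat_lit 15663712457, nat_lit 13818255558, nat_lit 14355572288, nat_lit 12700149575, nat_lit 13256744850, nat_lit 12221686692, nat_lit 12884147576], nat_lit 0, nat_lit 0, nat_lit 0, nat_lit 0, nat_lit 0, nat_lit 0, [], [nat_lit 29, nat_lit 40, nat_lit 40, nat_lit 80, nat_lit 17, nat_lit 345, nat_lit 125, nat_lit 10]⟩, C1.Rw.none,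
 ⟨nat_lit 5477, nat_lit 5701, ⟨.ofNat (nat_lit 212791), .ofNat (nat_lit 389244), .ofNat (nat_lit 255475), .ofNat (nat_lit 431928), .ofNat (nat_lit 220501), .ofNat (nat_lit 392847), .ofNat (nat_lit 263215), .ofNat (nat_lit 435561)⟩, ⟨.negSucc (nat_lit 54331), .ofNat (nat_lit 99106), .negSucc (nat_lit 11648), .ofNat (nat_lit 141790), .negSucc (nat_lit 45522), .ofNat (nat_lit 104343), .negSucc (nat_lit 2808), .ofNat (nat_lit 147057)⟩⟩, [⟨nat_lit 0, nat_lit 100, nat_lit 100, nat_lit 80, nat_lit 181206319⟩]⟩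
noncomputable def p044_l32 : Lf2 := ⟨nat_lit 0, nat_lit 10, [nat_lit 0, nat_lit 5, nat_lit 5, nat_lit 20], true, nat_lit 80, nat_lit 160, nat_lit 0, nat_lit 336, ⟨nat_lit 0, nat_lit 0, nat_lit 1000, nat_lit 6, nat_lit 127, nat_lit 1000, nat_lit 79, nat_lit 1000, nat_lit 58017, nat_lit 274, nat_lit 153600, nat_lit 311, nat_lit 57357048, nat_lit 0, nat_lit 0, nat_lit 2656586, false, false⟩,
 nat_lit 0, nat_lit 0, nat_lit 0, nat_lit 2892, nat_lit 10041, nat_lit 0, nat_lit 0, nat_lit 0, nat_lit 0, nat_lit 0, nat_lit 0, nat_lit 0, nat_lit 0, nat_lit 5497089100389, nat_lit 66, nat_lit 279365, nat_lit 0, nat_lit 0, [(nat_lit 9, [(nat_lit 3, nat_lit 79), (nat_lit 4, nat_lit 691), (nat_lit 5, nat_lit 230)])],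
 ⟨p044_k4, nat_lit 0, nat_lit 0, nat_lit 142, nat_lit 0, nat_lit 0, [nat_lit 7215577601, nat_lit 10514800], [], [nat_lit 13234627863, nat_lit 15538162668, nat_lit 8242530547, nat_lit 10265034750, nat_lit 12637961072, nat_lit 15131836424, nat_lit 8801534352, nat_lit 10729510382], nat_lit 0, nat_lit 0, nat_lit 0, nat_lit 0, nat_lit 0, nat_lit 0, [], [nat_lit 70, nat_lit 40, nat_lit 40, nat_lit 80, nat_lit 13, nat_lit 373, nat_lit 150, nat_lit 11]⟩, C1.Rw.none,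
 ⟨nat_lit 5477, nat_lit 5917, ⟨.ofNat (nat_lit 197129), .ofNat (nat_lit 385610), .ofNat (nat_lit 239808), .ofNat (nat_lit 428288), .ofNat (nat_lit 213007), .ofNat (nat_lit 392847), .ofNat (nat_lit 255721), .ofNat (nat_lit 435561)⟩, ⟨.ofNat (nat_lit 93684), .ofNat (nat_lit 250751), .ofNat (nat_lit 136362), .ofNat (nat_lit 293429), .ofNat (nat_lit 104343), .ofNat (nat_lit 254209), .ofNat (nat_lit 147057), .ofNat (nat_lit 296923)⟩⟩, [⟨nat_lit 0, nat_lit 100, nat_lit 98, nat_lit 64, nat_lit 389537745⟩]⟩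
noncomputable def p044_l33 : Lf2 := ⟨nat_lit 0, nat_lit 10, [nat_lit 0, nat_lit 5, nat_lit 5, nat_lit 20], true, nat_lit 0, nat_lit 160, nat_lit 0, nat_lit 336, ⟨nat_lit 0, nat_lit 0, nat_lit 1000, nat_lit 6, nat_lit 206, nat_lit 149, nat_lit 55, nat_lit 1000, nat_lit 21600, nat_lit 251, nat_lit 13764, nat_lit 200, nat_lit 52955741, nat_lit 0, nat_lit 0, nat_lit 2567234, false, false⟩,
 nat_lit 0, nat_lit 0, nat_lit 0, nat_lit 4382, nat_lit 4433, nat_lit 0, nat_lit 0, nat_lit 0, nat_lit 0, nat_lit 0, nat_lit 0, nat_lit 0, nat_lit 0, nat_lit 0, nat_lit 103, nat_lit 493600, nat_lit 0, nat_lit 0, [(nat_lit 9, [(nat_lit 5, nat_lit 844), (nat_lit 6, nat_lit 156)])],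
 ⟨p044_k4, nat_lit 0, nat_lit 0, nat_lit 152, nat_lit 0, nat_lit 0, [nat_lit 3253835201, nat_lit 57600], [], [nat_lit 14191530923, nat_lit 15325154100, nat_lit 17525551882, nat_lit 18574567572, nat_lit 13194965383, nat_lit 14121819501, nat_lit 16416561258, nat_lit 17379414434], nat_lit 0, nat_lit 0, nat_lit 0, nat_lit 0, nat_lit 0, nat_lit 0, [], [nat_lit 70, nat_lit 40, nat_lit 40, nat_lit 80, nat_lit 13, nat_lit 401, nat_lit 175, nat_lit 12]⟩, C1.Rw.none,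
 ⟨nat_lit 5477, nat_lit 5917, ⟨.ofNat (nat_lit 385610), .ofNat (nat_lit 621176), .ofNat (nat_lit 406949), .ofNat (nat_lit 642507), .ofNat (nat_lit 392847), .ofNat (nat_lit 617611), .ofNat (nat_lit 414204), .ofNat (nat_lit 638960)⟩, ⟨.negSucc (nat_lit 63383), .ofNat (nat_lit 250751), .negSucc (nat_lit 20704), .ofNat (nat_lit 293429), .negSucc (nat_lit 45522), .ofNat (nat_lit 254209), .negSucc (nat_lit 2808), .ofNat (nat_lit 296923)⟩⟩, []⟩
noncomputable def p044_l34 : Lf2 := ⟨nat_lit 0, nat_lit 10, [nat_lit 0, nat_lit 5, nat_lit 5, nat_lit 20], false, nat_lit 0, nat_lit 160, nat_lit 0, nat_lit 320, ⟨nat_lit 295, nat_lit 0, nat_lit 705, nat_lit 6, nat_lit 215, nat_lit 251, nat_lit 55, nat_lit 705, nat_lit 21600, nat_lit 251, nat_lit 56426, nat_lit 200, nat_lit 52032908, nat_lit 0, nat_lit 0, nat_lit 2655821, false, false⟩,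
 nat_lit 0, nat_lit 0, nat_lit 3475, nat_lit 0, nat_lit 5238, nat_lit 2022, nat_lit 263, nat_lit 0, nat_lit 0, nat_lit 240, nat_lit 0, nat_lit 0, nat_lit 0, nat_lit 0, nat_lit 32, nat_lit 705000, nat_lit 0, nat_lit 0, [(nat_lit 9, [(nat_lit 6, nat_lit 705)])],
 ⟨p044_k9, nat_lit 0, nat_lit 0, nat_lit 158, nat_lit 0, nat_lit 0, [nat_lit 2815972000, nat_lit 1250404001, nat_lit 22564000], [], [nat_lit 14775682992, nat_lit 16163215500, nat_lit 18296680752, nat_lit 19412727825, nat_lit 13158641633, nat_lit 14262085905, nat_lit 16217966709, nat_lit 17092010273], nat_lit 0, nat_lit 0, nat_lit 0, nat_lit 0, nat_lit 0, nat_lit 0, [], [nat_lit 29, nat_lit 40, nat_lit 40, nat_lit 80, nat_lit 17, nat_lit 401, nat_lit 175, nat_lit 12]⟩, ⟨p044_k9, nat_lit 0, nat_lit 0, nat_lit 621, nat_lit 0, nat_lit 864007, [nat_lit 1382960000, nat_lit 2350560000, nat_lit 2903390000], [], [nat_lit 12832816656, nat_lit 11747128020, nat_lit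 10612204316, nat_lit 10727765792, nat_lit 10135054864, nat_lit 10218965028, nat_lit 12699224300, nat_lit 11795390300], nat_lit 1271250, nat_lit 1271250, nat_lit 780000, nat_lit 1762500, nat_lit 0, nat_lit 2260000, [nat_lit 1100000, nat_lit 1785000, nat_lit 1271250], [nat_lit 29, nat_lit 40, nat_lit 40, nat_lit 80, nat_lit 17, nat_lit 456, nat_lit 225, nat_lit 13]⟩,
 ⟨nat_lit 5477, nat_lit 5917, ⟨.ofNat (nat_lit 406949), .ofNat (nat_lit 642507), .ofNat (nat_lit 428288), .ofNat (nat_lit 663838), .ofNat (nat_lit 414204), .ofNat (nat_lit 638960), .ofNat (nat_lit 435561), .ofNat (nat_lit 660309)⟩, ⟨.negSucc (nat_lit 63383), .ofNat (nat_lit 250751), .negSucc (nat_lit 20704), .ofNat (nat_lit 293429), .negSucc (nat_lit 45522), .ofNat (nat_lit 254209), .negSucc (nat_lit 2808), .ofNat (nat_lit 296923)⟩⟩, [⟨nat_lit 7, nat_lit 97, nat_lit 100, nat_lit 76, nat_lit 33808962⟩]⟩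
noncomputable def b_V_600_600_10_3 : St := ⟨true, nat_lit 0, nat_lit 1, nat_lit 1, nat_lit 80, nat_lit 240, nat_lit 280, nat_lit 240, nat_lit 280, nat_lit 16, nat_lit 240, nat_lit 40, nat_lit 80, nat_lit 0, nat_lit 160, nat_lit 0, nat_lit 336, nat_lit 0, nat_lit 40, nat_lit 0, nat_lit 0, nat_lit 0, nat_lit 0⟩
theorem d_V_600_600_10_3 (h : EB TB.env) : Dead b_V_600_600_10_3 := chkB_sound0 h (T :=
(.spl (nat_lit 0) (nat_lit 260)
(.ord (.spl (nat_lit 6) (nat_lit 24)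
(.spl (nat_lit 2) (nat_lit 120)
(.spl (nat_lit 0) (nat_lit 250)
(.ord (.leaf p044_l26))
(.trZ (nat_lit 0) (nat_lit 100) (nat_lit 99) (nat_lit 45) (nat_lit 20) (.leaf p044_l27)))
(.leaf p044_l28))
(.leaf p044_l29)))
(.trZ (nat_lit 0) (nat_lit 100) (nat_lit 97) (nat_lit 49) (nat_lit 24) (.spl (nat_lit 2) (nat_lit 120)
(.spl (nat_lit 4) (nat_lit 80)
(.spl (nat_lit 0) (nat_lit 270)
(.ord (.leaf p044_l30))
(.trZ (nat_lit 0) (nat_lit 100) (nat_lit 96) (nat_lit 54) (nat_lit 28) (.leaf p044_l31)))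
(.leaf p044_l32))
(.spl (nat_lit 1) (nat_lit 260)
(.leaf p044_l33)
(.trX (nat_lit 19) (nat_lit 100) (nat_lit 85) (nat_lit 84) (nat_lit 320) (.leaf p044_l34))))))) (by decide +kernel)
noncomputable def p044_l35 : Lf2 := ⟨nat_lit 0, nat_lit 4, [nat_lit 38, nat_lit 5, nat_lit 5, nat_lit 20], true, nat_lit 240, nat_lit 280, nat_lit 0, nat_lit 288, ⟨nat_lit 0, nat_lit 0, nat_lit 1000, nat_lit 6, nat_lit 77, nat_lit 1000, nat_lit 185, nat_lit 1000, nat_lit 21600, nat_lit 251, nat_lit 56067, nat_lit 273, nat_lit 52102638, nat_lit 0, nat_lit 0, nat_lit 3390261, false, false⟩,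
 nat_lit 0, nat_lit 0, nat_lit 0, nat_lit 2926, nat_lit 3914, nat_lit 0, nat_lit 0, nat_lit 0, nat_lit 0, nat_lit 0, nat_lit 0, nat_lit 0, nat_lit 0, nat_lit 8948995931943, nat_lit 41, nat_lit 400000, nat_lit 0, nat_lit 0, [(nat_lit 6, [(nat_lit 5, nat_lit 1000)])],
 ⟨p044_k16, nat_lit 0, nat_lit 0, nat_lit 58, nat_lit 0, nat_lit 0, [nat_lit 2073600001, nat_lit 7600000], [], [nat_lit 14803255008, nat_lit 15119139737, nat_lit 13946328393, nat_lit 14259167137, nat_lit 17468283981, nat_lit 17752011444, nat_lit 16583432797, nat_lit 16864745428], nat_lit 0, nat_lit 0, nat_lit 0, nat_lit 0, nat_lit 0, nat_lit 0, [], [nat_lit 39, nat_lit 40, nat_lit 40, nat_lit 80, nat_lit 7, nat_lit 215, nat_lit 10, nat_lit 7]⟩, C1.Rw.none,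
 ⟨nat_lit 6224, nat_lit 6325, ⟨.ofNat (nat_lit 164319), .ofNat (nat_lit 213677), .ofNat (nat_lit 169661), .ofNat (nat_lit 219019), .ofNat (nat_lit 168651), .ofNat (nat_lit 217441), .ofNat (nat_lit 173990), .ofNat (nat_lit 222780)⟩, ⟨.ofNat (nat_lit 411320), .ofNat (nat_lit 493584), .ofNat (nat_lit 432688), .ofNat (nat_lit 514952), .ofNat (nat_lit 410463), .ofNat (nat_lit 491781), .ofNat (nat_lit 431820), .ofNat (nat_lit 513137)⟩⟩, [⟨nat_lit 0, nat_lit 100, nat_lit 100, nat_lit 45, nat_lit 295841863⟩]⟩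
noncomputable def p044_l36 : Lf2 := ⟨nat_lit 0, nat_lit 4, [nat_lit 38, nat_lit 5, nat_lit 5, nat_lit 20], true, nat_lit 240, nat_lit 280, nat_lit 0, nat_lit 288, ⟨nat_lit 0, nat_lit 0, nat_lit 1000, nat_lit 6, nat_lit 80, nat_lit 1000, nat_lit 184, nat_lit 1000, nat_lit 26987, nat_lit 253, nat_lit 60000, nat_lit 275, nat_lit 51997359, nat_lit 0, nat_lit 0, nat_lit 3423080, false, false⟩,
 nat_lit 0, nat_lit 0, nat_lit 0, nat_lit 2923, nat_lit 3885, nat_lit 0, nat_lit 0, nat_lit 0, nat_lit 0, nat_lit 0, nat_lit 0, nat_lit 0, nat_lit 0, nat_lit 10231048038901, nat_lit 41, nat_lit 400000, nat_lit 0, nat_lit 0, [(nat_lit 6, [(nat_lit 5, nat_lit 1000)])],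
 ⟨p044_k17, nat_lit 0, nat_lit 0, nat_lit 60, nat_lit 0, nat_lit 0, [nat_lit 2073600001, nat_lit 7600000], [], [nat_lit 15137917080, nat_lit 15452737284, nat_lit 14286874491, nat_lit 14598659201, nat_lit 17761586803, nat_lit 18052034946, nat_lit 16883353119, nat_lit 17163785846], nat_lit 0, nat_lit 0, nat_lit 0, nat_lit 0, nat_lit 0, nat_lit 0, [], [nat_lit 39, nat_lit 40, nat_lit 40, nat_lit 80, nat_lit 7, nat_lit 215, nat_lit 10, nat_lit 7]⟩, C1.Rw.none,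
 ⟨nat_lit 6123, nat_lit 6225, ⟨.ofNat (nat_lit 168651), .ofNat (nat_lit 217441), .ofNat (nat_lit 179329), .ofNat (nat_lit 228119), .ofNat (nat_lit 172944), .ofNat (nat_lit 221172), .ofNat (nat_lit 183618), .ofNat (nat_lit 231846)⟩, ⟨.ofNat (nat_lit 410463), .ofNat (nat_lit 491781), .ofNat (nat_lit 431820), .ofNat (nat_lit 513137), .ofNat (nat_lit 409594), .ofNat (nat_lit 489975), .ofNat (nat_lit 430942), .ofNat (nat_lit 511323)⟩⟩, [⟨nat_lit 0, nat_lit 100, nat_lit 100, nat_lit 50, nat_lit 295536235⟩, ⟨nat_lit 4, nat_lit 91, nat_lit 100, nat_lit 68, nat_lit 50602280⟩]⟩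
noncomputable def p044_l37 : Lf2 := ⟨nat_lit 0, nat_lit 4, [nat_lit 38, nat_lit 5, nat_lit 5, nat_lit 20], true, nat_lit 240, nat_lit 280, nat_lit 0, nat_lit 288, ⟨nat_lit 0, nat_lit 0, nat_lit 1000, nat_lit 6, nat_lit 86, nat_lit 1000, nat_lit 184, nat_lit 1000, nat_lit 27511, nat_lit 254, nat_lit 70417, nat_lit 280, nat_lit 51707874, nat_lit 0, nat_lit 0, nat_lit 3501759, false, false⟩,
 nat_lit 0, nat_lit 0, nat_lit 0, nat_lit 2919, nat_lit 3879, nat_lit 0, nat_lit 0, nat_lit 0, nat_lit 0, nat_lit 0, nat_lit 0, nat_lit 0, nat_lit 0, nat_lit 9861207708244, nat_lit 41, nat_lit 400000, nat_lit 0, nat_lit 0, [(nat_lit 6, [(nat_lit 5, nat_lit 1000)])],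
 ⟨p044_k18, nat_lit 0, nat_lit 0, nat_lit 61, nat_lit 0, nat_lit 0, [nat_lit 2073600001, nat_lit 7600000], [], [nat_lit 15314363950, nat_lit 15942552755, nat_lit 14604173681, nat_lit 15227306949, nat_lit 17899763104, nat_lit 18502857502, nat_lit 17167453664, nat_lit 17727955021], nat_lit 0, nat_lit 0, nat_lit 0, nat_lit 0, nat_lit 0, nat_lit 0, [], [nat_lit 39, nat_lit 40, nat_lit 40, nat_lit 80, nat_lit 7, nat_lit 215, nat_lit 10, nat_lit 7]⟩, C1.Rw.none,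
 ⟨nat_lit 5916, nat_lit 6124, ⟨.ofNat (nat_lit 180982), .ofNat (nat_lit 221172), .ofNat (nat_lit 202330), .ofNat (nat_lit 242520), .ofNat (nat_lit 189276), .ofNat (nat_lit 228543), .ofNat (nat_lit 210615), .ofNat (nat_lit 249882)⟩, ⟨.ofNat (nat_lit 409594), .ofNat (nat_lit 489975), .ofNat (nat_lit 430942), .ofNat (nat_lit 511323), .ofNat (nat_lit 407818), .ofNat (nat_lit 486351), .ofNat (nat_lit 429157), .ofNat (nat_lit 507691)⟩⟩, [⟨nat_lit 0, nat_lit 100, nat_lit 99, nat_lit 52, nat_lit 300029878⟩, ⟨nat_lit 4, nat_lit 94, nat_lit 100, nat_lit 69, nat_lit 51214794⟩]⟩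
noncomputable def p044_l38 : Lf2 := ⟨nat_lit 0, nat_lit 4, [nat_lit 38, nat_lit 5, nat_lit 5, nat_lit 20], true, nat_lit 240, nat_lit 280, nat_lit 0, nat_lit 288, ⟨nat_lit 0, nat_lit 1000, nat_lit 0, nat_lit 6, nat_lit 83, nat_lit 1000, nat_lit 193, nat_lit 0, nat_lit 0, nat_lit 0, nat_lit 0, nat_lit 0, nat_lit 51022359, nat_lit 3418679, nat_lit 12558962, nat_lit 3553756, false, false⟩,
 nat_lit 0, nat_lit 0, nat_lit 0, nat_lit 3009, nat_lit 4917, nat_lit 0, nat_lit 0, nat_lit 0, nat_lit 0, nat_lit 0, nat_lit 0, nat_lit 0, nat_lit 0, nat_lit 8648092282157, nat_lit 0, nat_lit 400000, nat_lit 0, nat_lit 0, [(nat_lit 6, [(nat_lit 1, nat_lit 1000)])],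
 ⟨p044_k19, nat_lit 0, nat_lit 0, nat_lit 82, nat_lit 0, nat_lit 0, [nat_lit 2692266667, nat_lit 3030400001, nat_lit 3280799999], [], [nat_lit 15391666667, nat_lit 16802477277, nat_lit 14226247743, nat_lit 15623422871, nat_lit 18381101145, nat_lit 19708516922, nat_lit 17184097505, nat_lit 18431078127], nat_lit 0, nat_lit 0, nat_lit 0, nat_lit 0, nat_lit 0, nat_lit 0, [], [nat_lit 9, nat_lit 40, nat_lit 40, nat_lit 80, nat_lit 2, nat_lit 215, nat_lit 10, nat_lit 7]⟩, C1.Rw.none,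
 ⟨nat_lit 5916, nat_lit 6325, ⟨.ofNat (nat_lit 164319), .ofNat (nat_lit 213677), .ofNat (nat_lit 185687), .ofNat (nat_lit 235045), .ofNat (nat_lit 181423), .ofNat (nat_lit 228543), .ofNat (nat_lit 202762), .ofNat (nat_lit 249882)⟩, ⟨.ofNat (nat_lit 432688), .ofNat (nat_lit 514952), .ofNat (nat_lit 454055), .ofNat (nat_lit 536315), .ofNat (nat_lit 429157), .ofNat (nat_lit 507691), .ofNat (nat_lit 450496), .ofNat (nat_lit 529025)⟩⟩, [⟨nat_lit 0, nat_lit 100, nat_lit 100, nat_lit 50, nat_lit 233544767⟩, ⟨nat_lit 0, nat_lit 100, nat_lit 100, nat_lit 60, nat_lit 119813602⟩]⟩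
noncomputable def p044_l39 : Lf2 := ⟨nat_lit 0, nat_lit 6, [nat_lit 47, nat_lit 5, nat_lit 5, nat_lit 20], true, nat_lit 240, nat_lit 280, nat_lit 0, nat_lit 288, ⟨nat_lit 0, nat_lit 0, nat_lit 1000, nat_lit 6, nat_lit 81, nat_lit 1000, nat_lit 184, nat_lit 1000, nat_lit 21600, nat_lit 251, nat_lit 62017, nat_lit 276, nat_lit 51977887, nat_lit 0, nat_lit 0, nat_lit 3431228, false, false⟩,
 nat_lit 0, nat_lit 0, nat_lit 0, nat_lit 16961, nat_lit 4085, nat_lit 0, nat_lit 0, nat_lit 0, nat_lit 0, nat_lit 0, nat_lit 0, nat_lit 0, nat_lit 0, nat_lit 0, nat_lit 117, nat_lit 765400, nat_lit 0, nat_lit 0, [(nat_lit 6, [(nat_lit 5, nat_lit 391), (nat_lit 6, nat_lit 609)])],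
 ⟨p044_k1, nat_lit 0, nat_lit 0, nat_lit 145, nat_lit 0, nat_lit 0, [nat_lit 3021315200, nat_lit 2433641601, nat_lit 82689599], [], [nat_lit 15577565439, nat_lit 16563675469, nat_lit 14759791299, nat_lit 15621698291, nat_lit 17678531532, nat_lit 18898759610, nat_lit 16739270251, nat_lit 17648792821], nat_lit 0, nat_lit 0, nat_lit 0, nat_lit 0, nat_lit 0, nat_lit 0, [], [nat_lit 11, nat_lit 40, nat_lit 40, nat_lit 80, nat_lit 1, nat_lit 373, nat_lit 150, nat_lit 10]⟩, C1.Rw.none,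
 ⟨nat_lit 5916, nat_lit 6325, ⟨.ofNat (nat_lit 164319), .ofNat (nat_lit 213677), .ofNat (nat_lit 175003), .ofNat (nat_lit 224361), .ofNat (nat_lit 181423), .ofNat (nat_lit 228543), .ofNat (nat_lit 192092), .ofNat (nat_lit 239212)⟩, ⟨.ofNat (nat_lit 411320), .ofNat (nat_lit 493584), .ofNat (nat_lit 432688), .ofNat (nat_lit 514952), .ofNat (nat_lit 407818), .ofNat (nat_lit 486351), .ofNat (nat_lit 429157), .ofNat (nat_lit 507691)⟩⟩, [⟨nat_lit 0, nat_lit 100, nat_lit 99, nat_lit 55, nat_lit 370109585⟩, ⟨nat_lit 16, nat_lit 100, nat_lit 92, nat_lit 68, nat_lit 337063444⟩]⟩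
noncomputable def p044_l40 : Lf2 := ⟨nat_lit 1, nat_lit 6, [nat_lit 47, nat_lit 5, nat_lit 5, nat_lit 20], false, nat_lit 240, nat_lit 280, nat_lit 0, nat_lit 288, zbN0,
 nat_lit 0, nat_lit 0, nat_lit 0, nat_lit 0, nat_lit 0, nat_lit 0, nat_lit 0, nat_lit 0, nat_lit 0, nat_lit 0, nat_lit 0, nat_lit 0, nat_lit 0, nat_lit 0, nat_lit 0, nat_lit 0, nat_lit 0, nat_lit 0, [],
 C1.Rw.none, C1.Rw.none,
 zbF0, []⟩
noncomputable def p044_l41 : Lf2 := ⟨nat_lit 0, nat_lit 6, [nat_lit 47, nat_lit 5, nat_lit 5, nat_lit 20], false, nat_lit 240, nat_lit 280, nat_lit 0, nat_lit 288, ⟨nat_lit 583, nat_lit 417, nat_lit 0, nat_lit 6, nat_lit 90, nat_lit 417, nat_lit 188, nat_lit 0, nat_lit 0, nat_lit 0, nat_lit 0, nat_lit 0, nat_lit 51070625, nat_lit 3862304, nat_lit 12067071, nat_lit 3600596, false, false⟩,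
 nat_lit 0, nat_lit 0, nat_lit 8372, nat_lit 7528, nat_lit 6036, nat_lit 4651, nat_lit 0, nat_lit 0, nat_lit 0, nat_lit 1484, nat_lit 0, nat_lit 0, nat_lit 0, nat_lit 11367127376126, nat_lit 0, nat_lit 166800, nat_lit 0, nat_lit 0, [(nat_lit 6, [(nat_lit 1, nat_lit 417)])],
 ⟨p044_k2, nat_lit 0, nat_lit 0, nat_lit 73, nat_lit 0, nat_lit 0, [nat_lit 3855779200, nat_lit 4957744800, nat_lit 7059442400], [], [nat_lit 16071375157, nat_lit 16856390036, nat_lit 15059897320, nat_lit 15839827232, nat_lit 19321125307, nat_lit 20133585960, nat_lit 18287052292, nat_lit 18978446880], nat_lit 0, nat_lit 0, nat_lit 0, nat_lit 0, nat_lit 0, nat_lit 0, [], [nat_lit 11, nat_lit 40, nat_lit 40, nat_lit 80, nat_lit 1, nat_lit 373, nat_lit 150, nat_lit 10]⟩, ⟨p044_k2, nat_lit 0, nat_lit 0, nat_lit 297, nat_lit 0, nat_lit 64999, [nat_lit 2733104000, nat_lit 3643750000, nat_lit 5737886000], [], [nat_lit 12367171108, nat_lit 12927891664,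 nat_lit 11310803255, nat_lit 11870255210, nat_lit 12790213110, nat_lit 13213589232, nat_lit 11955680390, nat_lit 12375819471], nat_lit 1271250, nat_lit 1271250, nat_lit 134400, nat_lit 230001, nat_lit 0, nat_lit 2034000, [nat_lit 1100000, nat_lit 1442500, nat_lit 1271250], [nat_lit 11, nat_lit 40, nat_lit 40, nat_lit 80, nat_lit 1, nat_lit 373, nat_lit 150, nat_lit 11]⟩,
 ⟨nat_lit 5916, nat_lit 6124, ⟨.ofNat (nat_lit 199694), .ofNat (nat_lit 231846), .ofNat (nat_lit 210368), .ofNat (nat_lit 242520), .ofNat (nat_lit 207799), .ofNat (nat_lit 239212), .ofNat (nat_lit 218469), .ofNat (nat_lit 249882)⟩, ⟨.ofNat (nat_lit 409594), .ofNat (nat_lit 489975), .ofNat (nat_lit 452290), .ofNat (nat_lit 532671), .ofNat (nat_lit 407818), .ofNat (nat_lit 486351), .ofNat (nat_lit 450496), .ofNat (nat_lit 529030)⟩⟩, [⟨nat_lit 0, nat_lit 100, nat_lit 100, nat_lit 55, nat_lit 874386779⟩, ⟨nat_lit 16, nat_lit 100, nat_lit 90,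 nat_lit 74, nat_lit 530407107⟩, ⟨nat_lit 23, nat_lit 99, nat_lit 100, nat_lit 56, nat_lit 195785749⟩]⟩
noncomputable def p044_l42 : Lf2 := ⟨nat_lit 0, nat_lit 6, [nat_lit 47, nat_lit 5, nat_lit 5, nat_lit 20], true, nat_lit 240, nat_lit 280, nat_lit 0, nat_lit 336, ⟨nat_lit 0, nat_lit 1000, nat_lit 0, nat_lit 6, nat_lit 109, nat_lit 1000, nat_lit 188, nat_lit 0, nat_lit 0, nat_lit 0, nat_lit 0, nat_lit 0, nat_lit 49823325, nat_lit 5130006, nat_lit 12046669, nat_lit 3861781, false, false⟩,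
 nat_lit 0, nat_lit 0, nat_lit 0, nat_lit 2291, nat_lit 5550, nat_lit 0, nat_lit 0, nat_lit 0, nat_lit 0, nat_lit 0, nat_lit 0, nat_lit 0, nat_lit 0, nat_lit 14187054038220, nat_lit 0, nat_lit 250000, nat_lit 0, nat_lit 0, [(nat_lit 6, [(nat_lit 0, nat_lit 1000)])],
 ⟨p044_k0, nat_lit 0, nat_lit 0, nat_lit 42, nat_lit 0, nat_lit 0, [nat_lit 3128000000, nat_lit 3710400000], [], [nat_lit 14034189400, nat_lit 15523392600, nat_lit 13338150600, nat_lit 14771993800, nat_lit 17194463700, nat_lit 18518269000, nat_lit 16378866600, nat_lit 17655575650], nat_lit 0, nat_lit 0, nat_lit 0, nat_lit 0, nat_lit 0, nat_lit 0, [], [nat_lit 70, nat_lit 40, nat_lit 40, nat_lit 80, nat_lit 13, nat_lit 401, nat_lit 175, nat_lit 11]⟩, C1.Rw.none,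
 ⟨nat_lit 5916, nat_lit 6325, ⟨.ofNat (nat_lit 213677), .ofNat (nat_lit 295942), .ofNat (nat_lit 235045), .ofNat (nat_lit 317309), .ofNat (nat_lit 228543), .ofNat (nat_lit 307076), .ofNat (nat_lit 249882), .ofNat (nat_lit 328416)⟩, ⟨.ofNat (nat_lit 411320), .ofNat (nat_lit 493584), .ofNat (nat_lit 454055), .ofNat (nat_lit 536315), .ofNat (nat_lit 407818), .ofNat (nat_lit 486351), .ofNat (nat_lit 450496), .ofNat (nat_lit 529025)⟩⟩, [⟨nat_lit 4, nat_lit 88, nat_lit 100, nat_lit 74, nat_lit 21245908⟩]⟩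
noncomputable def b_V_600_600_10_4 : St := ⟨true, nat_lit 0, nat_lit 1, nat_lit 1, nat_lit 80, nat_lit 240, nat_lit 260, nat_lit 240, nat_lit 260, nat_lit 16, nat_lit 80, nat_lit 40, nat_lit 80, nat_lit 240, nat_lit 280, nat_lit 0, nat_lit 336, nat_lit 0, nat_lit 24, nat_lit 0, nat_lit 0, nat_lit 0, nat_lit 0⟩
theorem d_V_600_600_10_4 (h : EB TB.env) : Dead b_V_600_600_10_4 := chkB_sound0 h (T :=
(.spl (nat_lit 2) (nat_lit 40)
(.trX (nat_lit 23) (nat_lit 100) (nat_lit 92) (nat_lit 61) (nat_lit 288) (.spl (nat_lit 6) (nat_lit 16)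
(.spl (nat_lit 3) (nat_lit 60)
(.spl (nat_lit 0) (nat_lit 250)
(.ord (.spl (nat_lit 0) (nat_lit 245)
(.ord (.leaf p044_l35))
(.leaf p044_l36)))
(.trZ (nat_lit 0) (nat_lit 100) (nat_lit 99) (nat_lit 45) (nat_lit 20) (.leaf p044_l37)))
(.leaf p044_l38))
(.spl (nat_lit 1) (nat_lit 250)
(.spl (nat_lit 3) (nat_lit 60)
(.leaf p044_l39)
(.leaf p044_l40))
(.ord (.trZ (nat_lit 0) (nat_lit 100) (nat_lit 100) (nat_lit 50) (nat_lit 24) (.leaf p044_l41))))))
(.leaf p044_l42))) (by decide +kernel)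
noncomputable def p044_l43 : Lf2 := ⟨nat_lit 0, nat_lit 4, [nat_lit 38, nat_lit 5, nat_lit 5, nat_lit 20], false, nat_lit 280, nat_lit 320, nat_lit 0, nat_lit 160, ⟨nat_lit 1000, nat_lit 0, nat_lit 0, nat_lit 0, nat_lit 0, nat_lit 0, nat_lit 0, nat_lit 0, nat_lit 0, nat_lit 0, nat_lit 0, nat_lit 0, nat_lit 0, nat_lit 0, nat_lit 0, nat_lit 0, false, false⟩,
 nat_lit 0, nat_lit 0, nat_lit 16444, nat_lit 11316, nat_lit 8696, nat_lit 8705, nat_lit 1400, nat_lit 0, nat_lit 0, nat_lit 3897, nat_lit 0, nat_lit 0, nat_lit 0, nat_lit 9803372371947, nat_lit 0, nat_lit 0, nat_lit 0, nat_lit 0, [],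
 ⟨p044_k20, nat_lit 0, nat_lit 0, nat_lit 0, nat_lit 0, nat_lit 0, [nat_lit 4688000000, nat_lit 5449500000, nat_lit 7089500001, nat_lit 7968000000], [], [nat_lit 22131973360, nat_lit 22882321974, nat_lit 20131380489, nat_lit 20872929689, nat_lit 26082078755, nat_lit 26832175081, nat_lit 24023933129, nat_lit 24659240089], nat_lit 0, nat_lit 0, nat_lit 0, nat_lit 0, nat_lit 0, nat_lit 0, [], [nat_lit 129, nat_lit 40, nat_lit 20, nat_lit 40]⟩, ⟨p044_k20, nat_lit 0, nat_lit 0, nat_lit 0, nat_lit 0, nat_lit 144045, [nat_lit 4688000000, nat_lit 5449500000, nat_lit 7089500000, nat_lit 7968000000], [], [nat_lit 19185077067, nat_lit 20091607705, nat_lit 17373250790, nat_lit 18134714845, nat_lit 14896181315, nat_lit 15405112289, nat_lit 15344824075, nat_lit 14002252200], nat_lit 1271250, nat_lit 1271250, nat_lit 88400, nat_lit 230001, nat_lit 0, nat_lit 1100001, [nat_lit 1100000, nat_lit 1271250, nat_lit 1271250,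 nat_lit 1271250], [nat_lit 129, nat_lit 40, nat_lit 20, nat_lit 40]⟩,
 zbF0, [⟨nat_lit 0, nat_lit 100, nat_lit 100, nat_lit 45, nat_lit 1110883975⟩, ⟨nat_lit 4, nat_lit 86, nat_lit 100, nat_lit 73, nat_lit 1024000282⟩]⟩
noncomputable def p044_l44 : Lf2 := ⟨nat_lit 0, nat_lit 4, [nat_lit 38, nat_lit 5, nat_lit 5, nat_lit 20], false, nat_lit 280, nat_lit 320, nat_lit 160, nat_lit 248, ⟨nat_lit 1000, nat_lit 0, nat_lit 0, nat_lit 0, nat_lit 0, nat_lit 0, nat_lit 0, nat_lit 0, nat_lit 0, nat_lit 0, nat_lit 0, nat_lit 0, nat_lit 0, nat_lit 0, nat_lit 0, nat_lit 0, false, false⟩,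
 nat_lit 0, nat_lit 0, nat_lit 20724, nat_lit 0, nat_lit 10283, nat_lit 10971, nat_lit 808, nat_lit 0, nat_lit 0, nat_lit 3499, nat_lit 0, nat_lit 0, nat_lit 0, nat_lit 0, nat_lit 0, nat_lit 0, nat_lit 0, nat_lit 0, [],
 ⟨p044_k20, nat_lit 0, nat_lit 0, nat_lit 0, nat_lit 0, nat_lit 0, [nat_lit 4688000000, nat_lit 5449500000, nat_lit 7089500001, nat_lit 7968000000], [], [nat_lit 22073604805, nat_lit 22904083271, nat_lit 19642772425, nat_lit 20463393900, nat_lit 27839394996, nat_lit 28800063015, nat_lit 24678045288, nat_lit 25634254907], nat_lit 0, nat_lit 0, nat_lit 0, nat_lit 0, nat_lit 0, nat_lit 0, [], [nat_lit 129, nat_lit 40, nat_lit 20, nat_lit 40]⟩, ⟨p044_k20, nat_lit 0, nat_lit 0, nat_lit 0, nat_lit 0, nat_lit 144045, [nat_lit 4688000000, nat_lit 5449500000, nat_lit 7089500000, nat_lit 7968000000], [], [nat_lit 10473678908, nat_lit 11627983067, nat_lit 7910327763, nat_lit 9048992695, nat_lit 17860003172,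 nat_lit 19201684524, nat_lit 16580552600, nat_lit 15906340759], nat_lit 1271250, nat_lit 1271250, nat_lit 88400, nat_lit 230001, nat_lit 1100001, nat_lit 1853500, [nat_lit 1100000, nat_lit 1271250, nat_lit 1271250, nat_lit 1271250], [nat_lit 129, nat_lit 40, nat_lit 20, nat_lit 40]⟩,
 zbF0, [⟨nat_lit 0, nat_lit 100, nat_lit 100, nat_lit 50, nat_lit 553911304⟩, ⟨nat_lit 4, nat_lit 86, nat_lit 100, nat_lit 73, nat_lit 571461506⟩, ⟨nat_lit 23, nat_lit 87, nat_lit 100, nat_lit 51, nat_lit 1436361481⟩]⟩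
noncomputable def b_V_600_600_10_5 : St := ⟨true, nat_lit 0, nat_lit 1, nat_lit 1, nat_lit 80, nat_lit 240, nat_lit 250, nat_lit 240, nat_lit 260, nat_lit 16, nat_lit 40, nat_lit 40, nat_lit 80, nat_lit 280, nat_lit 320, nat_lit 0, nat_lit 248, nat_lit 0, nat_lit 16, nat_lit 300, nat_lit 460, nat_lit 0, nat_lit 800⟩
theorem d_V_600_600_10_5 (h : EB TB.env) : Dead b_V_600_600_10_5 := chkB_sound0 h (T :=
(.ord (.spl (nat_lit 5) (nat_lit 160)
(.leaf p044_l43)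
(.leaf p044_l44)))) (by decide +kernel)
noncomputable def p044_l45 : Lf2 := ⟨nat_lit 0, nat_lit 2, [nat_lit 10, nat_lit 5, nat_lit 5, nat_lit 20], false, nat_lit 280, nat_lit 304, nat_lit 0, nat_lit 80, ⟨nat_lit 1000, nat_lit 0, nat_lit 0, nat_lit 0, nat_lit 0, nat_lit 0, nat_lit 0, nat_lit 0, nat_lit 0, nat_lit 0, nat_lit 0, nat_lit 0, nat_lit 0, nat_lit 0, nat_lit 0, nat_lit 0, false, false⟩,
 nat_lit 0, nat_lit 0, nat_lit 19765, nat_lit 0, nat_lit 6369, nat_lit 10463, nat_lit 0, nat_lit 0, nat_lit 0, nat_lit 1675, nat_lit 0, nat_lit 0, nat_lit 0, nat_lit 0, nat_lit 0, nat_lit 0, nat_lit 0, nat_lit 0, [],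
 ⟨p044_k21, nat_lit 0, nat_lit 0, nat_lit 0, nat_lit 0, nat_lit 0, [nat_lit 4688000000, nat_lit 6250000000, nat_lit 7968000000], [], [nat_lit 20294797378, nat_lit 21011409808, nat_lit 19467344467, nat_lit 20180950656, nat_lit 22310097921, nat_lit 23077907288, nat_lit 21472136781, nat_lit 22129851192], nat_lit 0, nat_lit 0, nat_lit 0, nat_lit 0, nat_lit 0, nat_lit 0, [], [nat_lit 9, nat_lit 40, nat_lit 40, nat_lit 80]⟩, ⟨p044_k22, nat_lit 0, nat_lit 0, nat_lit 0, nat_lit 0, nat_lit 234422, [nat_lit 4688000000, nat_lit 6250000000, nat_lit 7968000000], [], [nat_lit 21892953631, nat_lit 24430856217, nat_lit 20648160790, nat_lit 22608813190, nat_lit 21949703566, nat_lit 17280229834, nat_lit 22047251916, nat_lit 16892814003], nat_lit 1271250, nat_lit 1271250, nat_lit 111251, nat_lit 181601, nat_lit 0, nat_lit 490000, [nat_lit 1100000, nat_lit 1442500, nat_lit 1271250], [nat_lit 9, nat_lit 40, nat_lit 40, nat_lit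 80]⟩,
 zbF0, [⟨nat_lit 0, nat_lit 100, nat_lit 99, nat_lit 52, nat_lit 1090294500⟩, ⟨nat_lit 16, nat_lit 100, nat_lit 94, nat_lit 69, nat_lit 970610661⟩]⟩
noncomputable def p044_l46 : Lf2 := ⟨nat_lit 0, nat_lit 2, [nat_lit 10, nat_lit 5, nat_lit 5, nat_lit 20], false, nat_lit 280, nat_lit 304, nat_lit 80, nat_lit 236, ⟨nat_lit 1000, nat_lit 0, nat_lit 0, nat_lit 0, nat_lit 0, nat_lit 0, nat_lit 0, nat_lit 0, nat_lit 0, nat_lit 0, nat_lit 0, nat_lit 0, nat_lit 0, nat_lit 0, nat_lit 0, nat_lit 0, false, false⟩,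
 nat_lit 0, nat_lit 0, nat_lit 17915, nat_lit 0, nat_lit 6693, nat_lit 9484, nat_lit 0, nat_lit 0, nat_lit 0, nat_lit 3901, nat_lit 0, nat_lit 0, nat_lit 0, nat_lit 0, nat_lit 0, nat_lit 0, nat_lit 0, nat_lit 0, [],
 ⟨p044_k23, nat_lit 0, nat_lit 0, nat_lit 0, nat_lit 0, nat_lit 0, [nat_lit 4688000000, nat_lit 5449500000, nat_lit 7089500000], [], [nat_lit 19607998678, nat_lit 20380965048, nat_lit 18945588939, nat_lit 19681600863, nat_lit 22139389194, nat_lit 22933802403, nat_lit 21258040668, nat_lit 22049266678], nat_lit 0, nat_lit 0, nat_lit 0, nat_lit 0, nat_lit 0, nat_lit 0, [], [nat_lit 105, nat_lit 40, nat_lit 20, nat_lit 40]⟩, ⟨p044_k24, nat_lit 0, nat_lit 0, nat_lit 0, nat_lit 0, nat_lit 183669, [nat_lit 4688000000, nat_lit 5449500000, nat_lit 7089500000], [], [nat_lit 10181217247, nat_lit 11439688819, nat_lit 9151058614, nat_lit 10400411232, nat_lit 15429870523, nat_lit 16390894749, nat_lit 15248994991,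 nat_lit 15352327916], nat_lit 1271250, nat_lit 1271250, nat_lit 111251, nat_lit 181601, nat_lit 490000, nat_lit 1708750, [nat_lit 1100000, nat_lit 1271250, nat_lit 1271250], [nat_lit 105, nat_lit 40, nat_lit 20, nat_lit 40]⟩,
 zbF0, [⟨nat_lit 0, nat_lit 100, nat_lit 99, nat_lit 50, nat_lit 776827098⟩, ⟨nat_lit 4, nat_lit 94, nat_lit 100, nat_lit 69, nat_lit 659507809⟩, ⟨nat_lit 23, nat_lit 89, nat_lit 100, nat_lit 49, nat_lit 787069875⟩]⟩
noncomputable def p044_l47 : Lf2 := ⟨nat_lit 0, nat_lit 2, [nat_lit 10, nat_lit 5, nat_lit 5, nat_lit 20], false, nat_lit 280, nat_lit 304, nat_lit 80, nat_lit 236, ⟨nat_lit 1000, nat_lit 0, nat_lit 0, nat_lit 0, nat_lit 0, nat_lit 0, nat_lit 0, nat_lit 0, nat_lit 0, nat_lit 0, nat_lit 0, nat_lit 0, nat_lit 0, nat_lit 0, nat_lit 0, nat_lit 0, false, false⟩,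
 nat_lit 0, nat_lit 0, nat_lit 15997, nat_lit 0, nat_lit 6839, nat_lit 8887, nat_lit 0, nat_lit 0, nat_lit 0, nat_lit 3765, nat_lit 0, nat_lit 0, nat_lit 0, nat_lit 11862196682590, nat_lit 0, nat_lit 0, nat_lit 0, nat_lit 0, [],
 ⟨p044_k23, nat_lit 0, nat_lit 0, nat_lit 0, nat_lit 0, nat_lit 0, [nat_lit 4688000000, nat_lit 5449500000, nat_lit 7089500000], [], [nat_lit 19324522665, nat_lit 20203513156, nat_lit 18864555639, nat_lit 19609503085, nat_lit 21983460317, nat_lit 22786541285, nat_lit 21380474942, nat_lit 22181407903], nat_lit 0, nat_lit 0, nat_lit 0, nat_lit 0, nat_lit 0, nat_lit 0, [], [nat_lit 105, nat_lit 40, nat_lit 20, nat_lit 40]⟩, ⟨p044_k23, nat_lit 0, nat_lit 0, nat_lit 0, nat_lit 0, nat_lit 221553, [nat_lit 4688000000, nat_lit 5449500000, nat_lit 7089500000], [], [nat_lit 10933441830, nat_lit 12031796874, nat_lit 10423879004, nat_lit 11411206454, nat_lit 15776056027, nat_lit 16977162461,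 nat_lit 15103492330, nat_lit 16183573015], nat_lit 1271250, nat_lit 1271250, nat_lit 134400, nat_lit 181601, nat_lit 490000, nat_lit 1708750, [nat_lit 1100000, nat_lit 1271250, nat_lit 1271250], [nat_lit 105, nat_lit 40, nat_lit 20, nat_lit 40]⟩,
 zbF0, [⟨nat_lit 0, nat_lit 100, nat_lit 100, nat_lit 55, nat_lit 995955884⟩, ⟨nat_lit 4, nat_lit 94, nat_lit 100, nat_lit 69, nat_lit 617422492⟩, ⟨nat_lit 23, nat_lit 93, nat_lit 100, nat_lit 55, nat_lit 654012091⟩]⟩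
noncomputable def p044_l48 : Lf2 := ⟨nat_lit 0, nat_lit 4, [nat_lit 38, nat_lit 5, nat_lit 5, nat_lit 20], true, nat_lit 280, nat_lit 304, nat_lit 0, nat_lit 220, ⟨nat_lit 0, nat_lit 1000, nat_lit 0, nat_lit 6, nat_lit 77, nat_lit 1000, nat_lit 209, nat_lit 0, nat_lit 0, nat_lit 0, nat_lit 0, nat_lit 0, nat_lit 49773558, nat_lit 3010864, nat_lit 14215578, nat_lit 3626006, false, false⟩,
 nat_lit 0, nat_lit 0, nat_lit 0, nat_lit 100000, nat_lit 5170, nat_lit 0, nat_lit 0, nat_lit 0, nat_lit 0, nat_lit 0, nat_lit 0, nat_lit 0, nat_lit 0, nat_lit 0, nat_lit 0, nat_lit 400000, nat_lit 0, nat_lit 0, [(nat_lit 6, [(nat_lit 1, nat_lit 1000)])],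
 ⟨p044_k18, nat_lit 0, nat_lit 0, nat_lit 0, nat_lit 0, nat_lit 0, [nat_lit 2838000000, nat_lit 3261466667], [], [nat_lit 18929294750, nat_lit 19677587460, nat_lit 18652779359, nat_lit 19400421700, nat_lit 21032927750, nat_lit 21722005668, nat_lit 20753969396, nat_lit 21442708517], nat_lit 0, nat_lit 0, nat_lit 0, nat_lit 0, nat_lit 0, nat_lit 0, [], [nat_lit 39, nat_lit 40, nat_lit 40, nat_lit 80]⟩, C1.Rw.none,
 ⟨nat_lit 5916, nat_lit 6124, ⟨.ofNat (nat_lit 180982), .ofNat (nat_lit 189020), .ofNat (nat_lit 186319), .ofNat (nat_lit 194357), .ofNat (nat_lit 189276), .ofNat (nat_lit 197129), .ofNat (nat_lit 194611), .ofNat (nat_lit 202464)⟩, ⟨.ofNat (nat_lit 489975), .ofNat (nat_lit 538203), .ofNat (nat_lit 511323), .ofNat (nat_lit 559550), .ofNat (nat_lit 486351), .ofNat (nat_lit 533471), .ofNat (nat_lit 507691), .ofNat (nat_lit 554809)⟩⟩, [⟨nat_lit 0, nat_lit 100, nat_lit 98, nat_lit 48, nat_lit 2091524875⟩,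 ⟨nat_lit 4, nat_lit 94, nat_lit 100, nat_lit 69, nat_lit 4995212439⟩]⟩
noncomputable def p044_l49 : Lf2 := ⟨nat_lit 0, nat_lit 4, [nat_lit 38, nat_lit 5, nat_lit 5, nat_lit 20], false, nat_lit 280, nat_lit 304, nat_lit 0, nat_lit 80, ⟨nat_lit 1000, nat_lit 0, nat_lit 0, nat_lit 0, nat_lit 0, nat_lit 0, nat_lit 0, nat_lit 0, nat_lit 0, nat_lit 0, nat_lit 0, nat_lit 0, nat_lit 0, nat_lit 0, nat_lit 0, nat_lit 0, false, false⟩,
 nat_lit 0, nat_lit 0, nat_lit 14363, nat_lit 12272, nat_lit 6744, nat_lit 7791, nat_lit 0, nat_lit 0, nat_lit 0, nat_lit 3218, nat_lit 0, nat_lit 0, nat_lit 0, nat_lit 0, nat_lit 0, nat_lit 0, nat_lit 0, nat_lit 0, [],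
 ⟨p044_k25, nat_lit 0, nat_lit 0, nat_lit 0, nat_lit 0, nat_lit 0, [nat_lit 4688000000, nat_lit 6250000000, nat_lit 7968000000], [], [nat_lit 20243073200, nat_lit 21109829872, nat_lit 19867666266, nat_lit 20732985840, nat_lit 22708836381, nat_lit 23501979938, nat_lit 22329909634, nat_lit 23122743860], nat_lit 0, nat_lit 0, nat_lit 0, nat_lit 0, nat_lit 0, nat_lit 0, [], [nat_lit 9, nat_lit 40, nat_lit 40, nat_lit 80]⟩, ⟨p044_k26, nat_lit 0, nat_lit 0, nat_lit 0, nat_lit 0, nat_lit 76793, [nat_lit 4688000000, nat_lit 6250000000, nat_lit 7968000000], [], [nat_lit 18239396416, nat_lit 18565419509, nat_lit 17821802101, nat_lit 18126855122, nat_lit 13812170056, nat_lit 14099759395, nat_lit 13524601592, nat_lit 13811557350], nat_lit 1271250, nat_lit 1271250, nat_lit 111251, nat_lit 134400, nat_lit 0, nat_lit 490000, [nat_lit 1100000, nat_lit 1442500, nat_lit 1271250], [nat_lit 9, nat_lit 40, nat_lit 40, nat_lit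 80]⟩,
 zbF0, [⟨nat_lit 0, nat_lit 100, nat_lit 99, nat_lit 50, nat_lit 1809513098⟩, ⟨nat_lit 4, nat_lit 94, nat_lit 100, nat_lit 69, nat_lit 1105867520⟩]⟩
noncomputable def p044_l50 : Lf2 := ⟨nat_lit 0, nat_lit 4, [nat_lit 38, nat_lit 5, nat_lit 5, nat_lit 20], false, nat_lit 280, nat_lit 304, nat_lit 80, nat_lit 160, ⟨nat_lit 1000, nat_lit 0, nat_lit 0, nat_lit 0, nat_lit 0, nat_lit 0, nat_lit 0, nat_lit 0, nat_lit 0, nat_lit 0, nat_lit 0, nat_lit 0, nat_lit 0, nat_lit 0, nat_lit 0, nat_lit 0, false, false⟩,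
 nat_lit 0, nat_lit 0, nat_lit 14792, nat_lit 11843, nat_lit 6744, nat_lit 8023, nat_lit 0, nat_lit 0, nat_lit 0, nat_lit 0, nat_lit 0, nat_lit 0, nat_lit 0, nat_lit 0, nat_lit 0, nat_lit 0, nat_lit 0, nat_lit 0, [],
 ⟨p044_k25, nat_lit 0, nat_lit 0, nat_lit 0, nat_lit 0, nat_lit 0, [nat_lit 4688000000, nat_lit 6250000000, nat_lit 7968000000], [], [nat_lit 20243073200, nat_lit 21109829872, nat_lit 19867666266, nat_lit 20732985840, nat_lit 22708836381, nat_lit 23501979938, nat_lit 22329909634, nat_lit 23122743860], nat_lit 0, nat_lit 0, nat_lit 0, nat_lit 0, nat_lit 0, nat_lit 0, [], [nat_lit 9, nat_lit 40, nat_lit 40, nat_lit 80]⟩, ⟨p044_k26, nat_lit 0, nat_lit 0, nat_lit 0, nat_lit 0, nat_lit 76793, [nat_lit 4688000000, nat_lit 6250000000, nat_lit 7968000000], [], [nat_lit 9565623622, nat_lit 10016859895, nat_lit 9062037439, nat_lit 9513022523, nat_lit 10180172966, nat_lit 10584325482, nat_lit 9784829337,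 nat_lit 10124665175], nat_lit 1271250, nat_lit 1271250, nat_lit 111251, nat_lit 134400, nat_lit 490000, nat_lit 1100001, [nat_lit 1100000, nat_lit 1442500, nat_lit 1271250], [nat_lit 9, nat_lit 40, nat_lit 40, nat_lit 80]⟩,
 zbF0, [⟨nat_lit 0, nat_lit 100, nat_lit 99, nat_lit 50, nat_lit 1837167768⟩, ⟨nat_lit 4, nat_lit 94, nat_lit 100, nat_lit 69, nat_lit 1105867520⟩]⟩
noncomputable def p044_l51 : Lf2 := ⟨nat_lit 0, nat_lit 4, [nat_lit 38, nat_lit 5, nat_lit 5, nat_lit 20], false, nat_lit 280, nat_lit 304, nat_lit 160, nat_lit 220, ⟨nat_lit 1000, nat_lit 0, nat_lit 0, nat_lit 0, nat_lit 0, nat_lit 0, nat_lit 0, nat_lit 0, nat_lit 0, nat_lit 0, nat_lit 0, nat_lit 0, nat_lit 0, nat_lit 0, nat_lit 0, nat_lit 0, false, false⟩,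
 nat_lit 0, nat_lit 0, nat_lit 13849, nat_lit 0, nat_lit 6744, nat_lit 7512, nat_lit 0, nat_lit 0, nat_lit 0, nat_lit 0, nat_lit 0, nat_lit 0, nat_lit 0, nat_lit 0, nat_lit 0, nat_lit 0, nat_lit 0, nat_lit 0, [],
 ⟨p044_k18, nat_lit 0, nat_lit 0, nat_lit 0, nat_lit 0, nat_lit 0, [nat_lit 4688000000, nat_lit 7968000000], [], [nat_lit 20243073200, nat_lit 21109829872, nat_lit 19867666266, nat_lit 20732985840, nat_lit 22708836381, nat_lit 23501979938, nat_lit 22329909634, nat_lit 23122743860], nat_lit 0, nat_lit 0, nat_lit 0, nat_lit 0, nat_lit 0, nat_lit 0, [], [nat_lit 39, nat_lit 40, nat_lit 40, nat_lit 80]⟩, ⟨p044_k17, nat_lit 0, nat_lit 0, nat_lit 0, nat_lit 0, nat_lit 76793, [nat_lit 4688000000, nat_lit 7968000000], [], [nat_lit 10666253706, nat_lit 10992162240, nat_lit 10339574565, nat_lit 10664902060, nat_lit 14507273509, nat_lit 14842121807, nat_lit 14137806821, nat_lit 14420068261], nat_lit 1271250,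 nat_lit 1271250, nat_lit 111251, nat_lit 134400, nat_lit 1100001, nat_lit 1613750, [nat_lit 1100000, nat_lit 1785000], [nat_lit 39, nat_lit 40, nat_lit 40, nat_lit 80]⟩,
 zbF0, [⟨nat_lit 0, nat_lit 100, nat_lit 99, nat_lit 50, nat_lit 719353435⟩, ⟨nat_lit 4, nat_lit 94, nat_lit 100, nat_lit 69, nat_lit 459315889⟩, ⟨nat_lit 23, nat_lit 92, nat_lit 100, nat_lit 48, nat_lit 1161812702⟩]⟩
noncomputable def p044_l52 : Lf2 := ⟨nat_lit 0, nat_lit 4, [nat_lit 38, nat_lit 5, nat_lit 5, nat_lit 20], false, nat_lit 280, nat_lit 304, nat_lit 0, nat_lit 80, ⟨nat_lit 1000, nat_lit 0, nat_lit 0, nat_lit 0, nat_lit 0, nat_lit 0, nat_lit 0, nat_lit 0, nat_lit 0, nat_lit 0, nat_lit 0, nat_lit 0, nat_lit 0, nat_lit 0, nat_lit 0, nat_lit 0, false, false⟩,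
 nat_lit 0, nat_lit 0, nat_lit 14648, nat_lit 11567, nat_lit 6744, nat_lit 7754, nat_lit 0, nat_lit 0, nat_lit 0, nat_lit 3197, nat_lit 0, nat_lit 0, nat_lit 0, nat_lit 0, nat_lit 0, nat_lit 0, nat_lit 0, nat_lit 0, [],
 ⟨p044_k25, nat_lit 0, nat_lit 0, nat_lit 0, nat_lit 0, nat_lit 0, [nat_lit 4688000000, nat_lit 6250000000, nat_lit 7968000000], [], [nat_lit 19867666266, nat_lit 20732985840, nat_lit 19277068417, nat_lit 20013490956, nat_lit 22329909634, nat_lit 23122743860, nat_lit 21572056142, nat_lit 22364271703], nat_lit 0, nat_lit 0, nat_lit 0, nat_lit 0, nat_lit 0, nat_lit 0, [], [nat_lit 9, nat_lit 40, nat_lit 40, nat_lit 80]⟩, ⟨p044_k19, nat_lit 0, nat_lit 0, nat_lit 0, nat_lit 0, nat_lit 89034, [nat_lit 4688000000, nat_lit 6250000000, nat_lit 7968000000], [], [nat_lit 18004284893, nat_lit 19017912804, nat_lit 17330658415, nat_lit 18340739903, nat_lit 13764328932, nat_lit 14717941871, nat_lit 13194619674,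 nat_lit 14144023065], nat_lit 1271250, nat_lit 1271250, nat_lit 134400, nat_lit 181601, nat_lit 0, nat_lit 490000, [nat_lit 1100000, nat_lit 1442500, nat_lit 1271250], [nat_lit 9, nat_lit 40, nat_lit 40, nat_lit 80]⟩,
 zbF0, [⟨nat_lit 0, nat_lit 100, nat_lit 99, nat_lit 50, nat_lit 1565704486⟩, ⟨nat_lit 4, nat_lit 94, nat_lit 100, nat_lit 69, nat_lit 1105867520⟩]⟩
noncomputable def p044_l53 : Lf2 := ⟨nat_lit 0, nat_lit 4, [nat_lit 38, nat_lit 5, nat_lit 5, nat_lit 20], true, nat_lit 280, nat_lit 304, nat_lit 80, nat_lit 236, ⟨nat_lit 0, nat_lit 1000, nat_lit 0, nat_lit 6, nat_lit 81, nat_lit 1000, nat_lit 209, nat_lit 0, nat_lit 0, nat_lit 0, nat_lit 0, nat_lit 0, nat_lit 49512635, nat_lit 3294595, nat_lit 14192770, nat_lit 3692439, false, false⟩,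
 nat_lit 0, nat_lit 0, nat_lit 0, nat_lit 26059, nat_lit 5081, nat_lit 0, nat_lit 0, nat_lit 0, nat_lit 0, nat_lit 0, nat_lit 0, nat_lit 0, nat_lit 0, nat_lit 0, nat_lit 0, nat_lit 400000, nat_lit 0, nat_lit 0, [(nat_lit 6, [(nat_lit 1, nat_lit 1000)])],
 ⟨p044_k18, nat_lit 0, nat_lit 0, nat_lit 0, nat_lit 0, nat_lit 0, [nat_lit 2838000000, nat_lit 3261466667], [], [nat_lit 18688691090, nat_lit 19325728030, nat_lit 18270879274, nat_lit 18906118905, nat_lit 20664859688, nat_lit 21347712871, nat_lit 20118248172, nat_lit 20800420428], nat_lit 0, nat_lit 0, nat_lit 0, nat_lit 0, nat_lit 0, nat_lit 0, [], [nat_lit 39, nat_lit 40, nat_lit 40, nat_lit 80]⟩, C1.Rw.none,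
 ⟨nat_lit 5916, nat_lit 6124, ⟨.ofNat (nat_lit 189020), .ofNat (nat_lit 205096), .ofNat (nat_lit 194357), .ofNat (nat_lit 210433), .ofNat (nat_lit 197129), .ofNat (nat_lit 212836), .ofNat (nat_lit 202464), .ofNat (nat_lit 218171)⟩, ⟨.ofNat (nat_lit 489975), .ofNat (nat_lit 538203), .ofNat (nat_lit 511323), .ofNat (nat_lit 559550), .ofNat (nat_lit 486351), .ofNat (nat_lit 533471), .ofNat (nat_lit 507691), .ofNat (nat_lit 554809)⟩⟩, [⟨nat_lit 0, nat_lit 100, nat_lit 98, nat_lit 48, nat_lit 358754929⟩, ⟨nat_lit 16, nat_lit 100, nat_lit 94, nat_lit 69, nat_lit 1264687880⟩]⟩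
noncomputable def p044_l54 : Lf2 := ⟨nat_lit 0, nat_lit 4, [nat_lit 38, nat_lit 5, nat_lit 5, nat_lit 20], false, nat_lit 280, nat_lit 304, nat_lit 80, nat_lit 236, ⟨nat_lit 1000, nat_lit 0, nat_lit 0, nat_lit 0, nat_lit 0, nat_lit 0, nat_lit 0, nat_lit 0, nat_lit 0, nat_lit 0, nat_lit 0, nat_lit 0, nat_lit 0, nat_lit 0, nat_lit 0, nat_lit 0, false, false⟩,
 nat_lit 0, nat_lit 0, nat_lit 13556, nat_lit 668, nat_lit 6744, nat_lit 7353, nat_lit 0, nat_lit 0, nat_lit 0, nat_lit 0, nat_lit 0, nat_lit 0, nat_lit 0, nat_lit 0, nat_lit 0, nat_lit 0, nat_lit 0, nat_lit 0, [],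
 ⟨p044_k25, nat_lit 0, nat_lit 0, nat_lit 0, nat_lit 0, nat_lit 0, [nat_lit 4688000000, nat_lit 6250000000, nat_lit 7968000000], [], [nat_lit 19867666266, nat_lit 20732985840, nat_lit 19277068417, nat_lit 20013490956, nat_lit 22329909634, nat_lit 23122743860, nat_lit 21572056142, nat_lit 22364271703], nat_lit 0, nat_lit 0, nat_lit 0, nat_lit 0, nat_lit 0, nat_lit 0, [], [nat_lit 9, nat_lit 40, nat_lit 40, nat_lit 80]⟩, ⟨p044_k26, nat_lit 0, nat_lit 0, nat_lit 0, nat_lit 0, nat_lit 86500, [nat_lit 4688000000, nat_lit 6250000000, nat_lit 7968000000], [], [nat_lit 9200449157, nat_lit 9805210213, nat_lit 8521735147, nat_lit 9124551846, nat_lit 15272607738, nat_lit 15718000310, nat_lit 14633092904, nat_lit 15077031457], nat_lit 1271250, nat_lit 1271250, nat_lit 134400, nat_lit 181601, nat_lit 490000, nat_lit 1708750, [nat_lit 1100000, nat_lit 1442500, nat_lit 1271250], [nat_lit 9, nat_lit 40, nat_lit 40, nat_lit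 80]⟩,
 zbF0, [⟨nat_lit 0, nat_lit 100, nat_lit 99, nat_lit 51, nat_lit 802000048⟩, ⟨nat_lit 4, nat_lit 94, nat_lit 100, nat_lit 69, nat_lit 496782158⟩, ⟨nat_lit 23, nat_lit 89, nat_lit 100, nat_lit 51, nat_lit 824056665⟩]⟩
noncomputable def p044_l55 : Lf2 := ⟨nat_lit 0, nat_lit 4, [nat_lit 38, nat_lit 5, nat_lit 5, nat_lit 20], false, nat_lit 280, nat_lit 304, nat_lit 0, nat_lit 236, ⟨nat_lit 1000, nat_lit 0, nat_lit 0, nat_lit 0, nat_lit 0, nat_lit 0, nat_lit 0, nat_lit 0, nat_lit 0, nat_lit 0, nat_lit 0, nat_lit 0, nat_lit 0, nat_lit 0, nat_lit 0, nat_lit 0, false, false⟩,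
 nat_lit 0, nat_lit 0, nat_lit 27734, nat_lit 0, nat_lit 6744, nat_lit 15407, nat_lit 0, nat_lit 0, nat_lit 0, nat_lit 0, nat_lit 0, nat_lit 0, nat_lit 0, nat_lit 32508598482920, nat_lit 0, nat_lit 0, nat_lit 0, nat_lit 0, [],
 ⟨p044_k25, nat_lit 0, nat_lit 0, nat_lit 0, nat_lit 0, nat_lit 0, [nat_lit 4688000000, nat_lit 6250000000, nat_lit 7968000000], [], [nat_lit 19867666266, nat_lit 20732985840, nat_lit 19277068417, nat_lit 20013490956, nat_lit 22329909634, nat_lit 23122743860, nat_lit 21572056142, nat_lit 22364271703], nat_lit 0, nat_lit 0, nat_lit 0, nat_lit 0, nat_lit 0, nat_lit 0, [], [nat_lit 9, nat_lit 40, nat_lit 40, nat_lit 80]⟩, ⟨p044_k25, nat_lit 0, nat_lit 0, nat_lit 0, nat_lit 0, nat_lit 133575, [nat_lit 4688000000, nat_lit 6250000000, nat_lit 7968000000], [], [nat_lit 29206799462, nat_lit 31280720031, nat_lit 26235819512, nat_lit 28775912556, nat_lit 18831485223, nat_lit 20481487498, nat_lit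 17369549191, nat_lit 18641446417], nat_lit 1271250, nat_lit 1271250, nat_lit 134400, nat_lit 181601, nat_lit 0, nat_lit 1666750, [nat_lit 1100000, nat_lit 1442500, nat_lit 1271250], [nat_lit 9, nat_lit 40, nat_lit 40, nat_lit 80]⟩,
 zbF0, [⟨nat_lit 0, nat_lit 100, nat_lit 100, nat_lit 50, nat_lit 2982914534⟩, ⟨nat_lit 4, nat_lit 94, nat_lit 100, nat_lit 69, nat_lit 1198311747⟩]⟩
noncomputable def b_V_600_600_10_6 : St := ⟨true, nat_lit 0, nat_lit 1, nat_lit 1, nat_lit 80, nat_lit 250, nat_lit 260, nat_lit 240, nat_lit 260, nat_lit 20, nat_lit 32, nat_lit 40, nat_lit 60, nat_lit 280, nat_lit 304, nat_lit 0, nat_lit 248, nat_lit 0, nat_lit 16, nat_lit 300, nat_lit 460, nat_lit 0, nat_lit 800⟩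
theorem d_V_600_600_10_6 (h : EB TB.env) : Dead b_V_600_600_10_6 := chkB_sound0 h (T :=
(.trX (nat_lit 23) (nat_lit 93) (nat_lit 100) (nat_lit 55) (nat_lit 236) (.spl (nat_lit 6) (nat_lit 8)
(.spl (nat_lit 5) (nat_lit 80)
(.leaf p044_l45)
(.spl (nat_lit 1) (nat_lit 250)
(.leaf p044_l46)
(.trZ (nat_lit 0) (nat_lit 100) (nat_lit 100) (nat_lit 50) (nat_lit 24) (.leaf p044_l47))))
(.spl (nat_lit 2) (nat_lit 24)
(.trX (nat_lit 23) (nat_lit 92) (nat_lit 100) (nat_lit 48) (nat_lit 220) (.spl (nat_lit 1) (nat_lit 250)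
(.spl (nat_lit 1) (nat_lit 245)
(.leaf p044_l48)
(.spl (nat_lit 1) (nat_lit 248)
(.spl (nat_lit 5) (nat_lit 80)
(.leaf p044_l49)
(.spl (nat_lit 5) (nat_lit 160)
(.leaf p044_l50)
(.leaf p044_l51)))
(.emL (nat_lit 0) (nat_lit 100) (nat_lit 100) (nat_lit 49))))
(.emL (nat_lit 0) (nat_lit 100) (nat_lit 100) (nat_lit 50))))
(.spl (nat_lit 1) (nat_lit 250)
(.spl (nat_lit 5) (nat_lit 80)
(.leaf p044_l52)
(.spl (nat_lit 1) (nat_lit 245)
(.leaf p044_l53)
(.leaf p044_l54)))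
(.leaf p044_l55)))))) (by decide +kernel)
noncomputable def p044_l56 : Lf2 := ⟨nat_lit 0, nat_lit 2, [nat_lit 10, nat_lit 5, nat_lit 5, nat_lit 20], true, nat_lit 280, nat_lit 304, nat_lit 0, nat_lit 248, ⟨nat_lit 0, nat_lit 1000, nat_lit 0, nat_lit 6, nat_lit 91, nat_lit 1000, nat_lit 209, nat_lit 0, nat_lit 0, nat_lit 0, nat_lit 0, nat_lit 0, nat_lit 48971421, nat_lit 3887000, nat_lit 14141579, nat_lit 3823136, false, false⟩,
 nat_lit 0, nat_lit 0, nat_lit 0, nat_lit 922, nat_lit 826, nat_lit 0, nat_lit 0, nat_lit 0, nat_lit 309, nat_lit 0, nat_lit 0, nat_lit 0, nat_lit 0, nat_lit 11098054110341, nat_lit 0, nat_lit 400000, nat_lit 0, nat_lit 0, [(nat_lit 6, [(nat_lit 1, nat_lit 1000)])],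
 ⟨p044_k21, nat_lit 0, nat_lit 0, nat_lit 0, nat_lit 0, nat_lit 0, [nat_lit 2692266667, nat_lit 3030400001, nat_lit 3280799999], [], [nat_lit 15340144855, nat_lit 15718610004, nat_lit 15364428389, nat_lit 15739664547, nat_lit 16398492962, nat_lit 16799105230, nat_lit 16392371289, nat_lit 16792143323], nat_lit 0, nat_lit 0, nat_lit 0, nat_lit 0, nat_lit 0, nat_lit 0, [], [nat_lit 9, nat_lit 40, nat_lit 40, nat_lit 80]⟩, C1.Rw.none,
 ⟨nat_lit 5916, nat_lit 6124, ⟨.ofNat (nat_lit 205096), .ofNat (nat_lit 221172), .ofNat (nat_lit 226444), .ofNat (nat_lit 242520), .ofNat (nat_lit 212836), .ofNat (nat_lit 228543), .ofNat (nat_lit 234175), .ofNat (nat_lit 249882)⟩, ⟨.ofNat (nat_lit 489975), .ofNat (nat_lit 538203), .ofNat (nat_lit 511323), .ofNat (nat_lit 559550), .ofNat (nat_lit 486351), .ofNat (nat_lit 533471), .ofNat (nat_lit 507691), .ofNat (nat_lit 554809)⟩⟩, [⟨nat_lit 0, nat_lit 100, nat_lit 100, nat_lit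 60, nat_lit 77675606⟩]⟩
noncomputable def p044_l57 : Lf2 := ⟨nat_lit 0, nat_lit 4, [nat_lit 38, nat_lit 5, nat_lit 5, nat_lit 20], true, nat_lit 280, nat_lit 304, nat_lit 0, nat_lit 248, ⟨nat_lit 0, nat_lit 1000, nat_lit 0, nat_lit 6, nat_lit 89, nat_lit 1000, nat_lit 209, nat_lit 0, nat_lit 0, nat_lit 0, nat_lit 0, nat_lit 0, nat_lit 49094264, nat_lit 3752087, nat_lit 14153649, nat_lit 3794261, false, false⟩,
 nat_lit 0, nat_lit 0, nat_lit 0, nat_lit 9886, nat_lit 4408, nat_lit 0, nat_lit 0, nat_lit 0, nat_lit 54, nat_lit 0, nat_lit 0, nat_lit 0, nat_lit 0, nat_lit 0, nat_lit 0, nat_lit 400000, nat_lit 0, nat_lit 0, [(nat_lit 6, [(nat_lit 1, nat_lit 1000)])],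
 ⟨p044_k27, nat_lit 0, nat_lit 0, nat_lit 0, nat_lit 0, nat_lit 0, [nat_lit 2692266667, nat_lit 2905200001, nat_lit 3155600000, nat_lit 3222800000], [], [nat_lit 17354082247, nat_lit 17998125520, nat_lit 17106957587, nat_lit 17700506139, nat_lit 19341860416, nat_lit 19981166008, nat_lit 18995623453, nat_lit 19633167469], nat_lit 0, nat_lit 0, nat_lit 0, nat_lit 0, nat_lit 0, nat_lit 0, [], [nat_lit 129, nat_lit 40, nat_lit 20, nat_lit 40]⟩, C1.Rw.none,
 ⟨nat_lit 5916, nat_lit 6124, ⟨.ofNat (nat_lit 205096), .ofNat (nat_lit 221172), .ofNat (nat_lit 215770), .ofNat (nat_lit 231846), .ofNat (nat_lit 212836), .ofNat (nat_lit 228543), .ofNat (nat_lit 223506), .ofNat (nat_lit 239212)⟩, ⟨.ofNat (nat_lit 489975), .ofNat (nat_lit 538203), .ofNat (nat_lit 511323), .ofNat (nat_lit 559550), .ofNat (nat_lit 486351), .ofNat (nat_lit 533471), .ofNat (nat_lit 507691), .ofNat (nat_lit 554809)⟩⟩, [⟨nat_lit 4, nat_lit 94,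 nat_lit 100, nat_lit 69, nat_lit 450972647⟩]⟩
noncomputable def p044_l58 : Lf2 := ⟨nat_lit 0, nat_lit 4, [nat_lit 38, nat_lit 5, nat_lit 5, nat_lit 20], false, nat_lit 280, nat_lit 304, nat_lit 0, nat_lit 248, ⟨nat_lit 1000, nat_lit 0, nat_lit 0, nat_lit 0, nat_lit 0, nat_lit 0, nat_lit 0, nat_lit 0, nat_lit 0, nat_lit 0, nat_lit 0, nat_lit 0, nat_lit 0, nat_lit 0, nat_lit 0, nat_lit 0, false, false⟩,
 nat_lit 0, nat_lit 0, nat_lit 16379, nat_lit 0, nat_lit 5868, nat_lit 9099, nat_lit 0, nat_lit 0, nat_lit 66, nat_lit 2573, nat_lit 0, nat_lit 0, nat_lit 0, nat_lit 11276695847747, nat_lit 0, nat_lit 0, nat_lit 0, nat_lit 0, [],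
 ⟨p044_k25, nat_lit 0, nat_lit 0, nat_lit 0, nat_lit 0, nat_lit 0, [nat_lit 4688000000, nat_lit 6250000000, nat_lit 7968000000], [], [nat_lit 18665553270, nat_lit 19348676815, nat_lit 18165971996, nat_lit 18847171840, nat_lit 20806249899, nat_lit 21540499173, nat_lit 20159669992, nat_lit 20893267804], nat_lit 0, nat_lit 0, nat_lit 0, nat_lit 0, nat_lit 0, nat_lit 0, [], [nat_lit 9, nat_lit 40, nat_lit 40, nat_lit 80]⟩, ⟨p044_k25, nat_lit 0, nat_lit 0, nat_lit 0, nat_lit 0, nat_lit 133575, [nat_lit 4688000000, nat_lit 6250000000, nat_lit 7968000000], [], [nat_lit 18456926250, nat_lit 20028775487, nat_lit 17416141899, nat_lit 18613972926, nat_lit 17001632206, nat_lit 17803317042, nat_lit 16180800724, nat_lit 16982022173], nat_lit 1271250, nat_lit 1271250, nat_lit 181601, nat_lit 230001, nat_lit 0, nat_lit 1751500, [nat_lit 1100000, nat_lit 1442500, nat_lit 1271250], [nat_lit 9, nat_lit 40, nat_lit 40, nat_lit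 80]⟩,
 zbF0, [⟨nat_lit 0, nat_lit 100, nat_lit 100, nat_lit 55, nat_lit 430948398⟩, ⟨nat_lit 4, nat_lit 94, nat_lit 100, nat_lit 69, nat_lit 777906157⟩, ⟨nat_lit 23, nat_lit 90, nat_lit 100, nat_lit 58, nat_lit 235756804⟩]⟩
noncomputable def b_V_600_600_10_7 : St := ⟨true, nat_lit 0, nat_lit 1, nat_lit 1, nat_lit 80, nat_lit 250, nat_lit 260, nat_lit 240, nat_lit 260, nat_lit 32, nat_lit 40, nat_lit 40, nat_lit 60, nat_lit 280, nat_lit 304, nat_lit 0, nat_lit 248, nat_lit 0, nat_lit 16, nat_lit 300, nat_lit 380, nat_lit 0, nat_lit 800⟩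
theorem d_V_600_600_10_7 (h : EB TB.env) : Dead b_V_600_600_10_7 := chkB_sound0 h (T :=
(.spl (nat_lit 6) (nat_lit 8)
(.leaf p044_l56)
(.spl (nat_lit 1) (nat_lit 250)
(.leaf p044_l57)
(.leaf p044_l58)))) (by decide +kernel)
noncomputable def p044_l59 : Lf2 := ⟨nat_lit 0, nat_lit 1, [nat_lit 19, nat_lit 5, nat_lit 5, nat_lit 20], false, nat_lit 280, nat_lit 304, nat_lit 0, nat_lit 160, ⟨nat_lit 301, nat_lit 699, nat_lit 0, nat_lit 6, nat_lit 89, nat_lit 699, nat_lit 209, nat_lit 0, nat_lit 0, nat_lit 0, nat_lit 0, nat_lit 0, nat_lit 49094264, nat_lit 3752087, nat_lit 14153649, nat_lit 3794261, false, false⟩,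
 nat_lit 0, nat_lit 0, nat_lit 9191, nat_lit 0, nat_lit 5394, nat_lit 4865, nat_lit 0, nat_lit 0, nat_lit 0, nat_lit 0, nat_lit 0, nat_lit 0, nat_lit 0, nat_lit 0, nat_lit 0, nat_lit 279600, nat_lit 0, nat_lit 0, [(nat_lit 6, [(nat_lit 1, nat_lit 699)])],
 ⟨p044_k28, nat_lit 0, nat_lit 0, nat_lit 0, nat_lit 0, nat_lit 0, [nat_lit 3292982400, nat_lit 3999499600], [], [nat_lit 18567044597, nat_lit 19221328276, nat_lit 18116712018, nat_lit 18769148120, nat_lit 20391875288, nat_lit 21094759243, nat_lit 19934449301, nat_lit 20538390076], nat_lit 0, nat_lit 0, nat_lit 0, nat_lit 0, nat_lit 0, nat_lit 0, [], [nat_lit 31, nat_lit 40, nat_lit 40, nat_lit 80]⟩, ⟨p044_k29, nat_lit 0, nat_lit 0, nat_lit 0, nat_lit 0, nat_lit 180968, [nat_lit 1411088000, nat_lit 1881250000], [], [nat_lit 8938554520, nat_lit 8181624555, nat_lit 7925120532, nat_lit 7388517962, nat_lit 1844432800, nat_lit 2532985367, nat_lit 1252796104,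 nat_lit 1940183504], nat_lit 1271250, nat_lit 1271250, nat_lit 181601, nat_lit 230001, nat_lit 0, nat_lit 1100001, [nat_lit 1100000, nat_lit 1442500], [nat_lit 31, nat_lit 40, nat_lit 40, nat_lit 80]⟩,
 ⟨nat_lit 5916, nat_lit 6124, ⟨.ofNat (nat_lit 205096), .ofNat (nat_lit 221172), .ofNat (nat_lit 215770), .ofNat (nat_lit 231846), .ofNat (nat_lit 212836), .ofNat (nat_lit 228543), .ofNat (nat_lit 223506), .ofNat (nat_lit 239212)⟩, ⟨.ofNat (nat_lit 489975), .ofNat (nat_lit 538203), .ofNat (nat_lit 511323), .ofNat (nat_lit 559550), .ofNat (nat_lit 486351), .ofNat (nat_lit 533471), .ofNat (nat_lit 507691), .ofNat (nat_lit 554809)⟩⟩, [⟨nat_lit 16, nat_lit 100, nat_lit 88, nat_lit 74, nat_lit 542487049⟩]⟩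
noncomputable def p044_l60 : Lf2 := ⟨nat_lit 0, nat_lit 1, [nat_lit 19, nat_lit 5, nat_lit 5, nat_lit 20], false, nat_lit 280, nat_lit 304, nat_lit 160, nat_lit 248, ⟨nat_lit 290, nat_lit 710, nat_lit 0, nat_lit 6, nat_lit 88, nat_lit 710, nat_lit 209, nat_lit 0, nat_lit 0, nat_lit 0, nat_lit 0, nat_lit 0, nat_lit 49155266, nat_lit 3685188, nat_lit 14159546, nat_lit 3779754, false, false⟩,
 nat_lit 0, nat_lit 0, nat_lit 10316, nat_lit 0, nat_lit 5375, nat_lit 5461, nat_lit 0, nat_lit 0, nat_lit 0, nat_lit 0, nat_lit 0, nat_lit 0, nat_lit 0, nat_lit 0, nat_lit 0, nat_lit 284000, nat_lit 0, nat_lit 0, [(nat_lit 6, [(nat_lit 1, nat_lit 710)])],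
 ⟨p044_k28, nat_lit 0, nat_lit 0, nat_lit 0, nat_lit 0, nat_lit 0, [nat_lit 3271029334, nat_lit 3964084000], [], [nat_lit 18554732184, nat_lit 19207859835, nat_lit 18106373709, nat_lit 18757656834, nat_lit 20375288904, nat_lit 21076892031, nat_lit 19920602334, nat_lit 20523527034], nat_lit 0, nat_lit 0, nat_lit 0, nat_lit 0, nat_lit 0, nat_lit 0, [], [nat_lit 31, nat_lit 40, nat_lit 40, nat_lit 80]⟩, ⟨p044_k29, nat_lit 0, nat_lit 0, nat_lit 0, nat_lit 0, nat_lit 157146, [nat_lit 1359520000, nat_lit 1812500000], [], [nat_lit 6968487432, nat_lit 6265927051, nat_lit 5830899968, nat_lit 5130447534, nat_lit 5194611354, nat_lit 5487264805, nat_lit 4536925049, nat_lit 4829217213], nat_lit 1271250, nat_lit 1271250, nat_lit 181601, nat_lit 230001, nat_lit 1100001, nat_lit 1853500, [nat_lit 1100000, nat_lit 1442500], [nat_lit 31, nat_lit 40, nat_lit 40, nat_lit 80]⟩,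
 ⟨nat_lit 5916, nat_lit 6124, ⟨.ofNat (nat_lit 205096), .ofNat (nat_lit 221172), .ofNat (nat_lit 210433), .ofNat (nat_lit 226509), .ofNat (nat_lit 212836), .ofNat (nat_lit 228543), .ofNat (nat_lit 218171), .ofNat (nat_lit 233878)⟩, ⟨.ofNat (nat_lit 489975), .ofNat (nat_lit 538203), .ofNat (nat_lit 511323), .ofNat (nat_lit 559550), .ofNat (nat_lit 486351), .ofNat (nat_lit 533471), .ofNat (nat_lit 507691), .ofNat (nat_lit 554809)⟩⟩, [⟨nat_lit 4, nat_lit 94, nat_lit 100, nat_lit 69, nat_lit 575407065⟩]⟩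
noncomputable def p044_l61 : Lf2 := ⟨nat_lit 0, nat_lit 1, [nat_lit 19, nat_lit 5, nat_lit 5, nat_lit 20], false, nat_lit 280, nat_lit 304, nat_lit 160, nat_lit 248, ⟨nat_lit 571, nat_lit 429, nat_lit 0, nat_lit 6, nat_lit 90, nat_lit 429, nat_lit 209, nat_lit 0, nat_lit 0, nat_lit 0, nat_lit 0, nat_lit 0, nat_lit 49032979, nat_lit 3819361, nat_lit 14147660, nat_lit 3808722, false, false⟩,
 nat_lit 0, nat_lit 0, nat_lit 14903, nat_lit 0, nat_lit 6038, nat_lit 8083, nat_lit 0, nat_lit 0, nat_lit 0, nat_lit 2675, nat_lit 0, nat_lit 0, nat_lit 0, nat_lit 0, nat_lit 0, nat_lit 171600, nat_lit 0, nat_lit 0, [(nat_lit 6, [(nat_lit 1, nat_lit 429)])],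
 ⟨p044_k28, nat_lit 0, nat_lit 0, nat_lit 0, nat_lit 0, nat_lit 0, [nat_lit 3831830401, nat_lit 4868791600], [], [nat_lit 18779125195, nat_lit 19472592152, nat_lit 18261880887, nat_lit 18953396841, nat_lit 20954865266, nat_lit 21700363705, nat_lit 20286691170, nat_lit 21031544512], nat_lit 0, nat_lit 0, nat_lit 0, nat_lit 0, nat_lit 0, nat_lit 0, [], [nat_lit 31, nat_lit 40, nat_lit 40, nat_lit 80]⟩, ⟨p044_k30, nat_lit 0, nat_lit 0, nat_lit 0, nat_lit 0, nat_lit 175915, [nat_lit 2676848000, nat_lit 3568750000], [], [nat_lit 13116865980, nat_lit 12076983988, nat_lit 11436206588, nat_lit 10399444634, nat_lit 10016622950, nat_lit 10476265636, nat_lit 9057569871, nat_lit 9516605201], nat_lit 1271250, nat_lit 1271250, nat_lit 181601, nat_lit 230001, nat_lit 1100001, nat_lit 1853500, [nat_lit 1100000, nat_lit 1442500], [nat_lit 31, nat_lit 40, nat_lit 40, nat_lit 80]⟩,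
 ⟨nat_lit 5916, nat_lit 6124, ⟨.ofNat (nat_lit 210433), .ofNat (nat_lit 226509), .ofNat (nat_lit 215770), .ofNat (nat_lit 231846), .ofNat (nat_lit 218171), .ofNat (nat_lit 233878), .ofNat (nat_lit 223506), .ofNat (nat_lit 239212)⟩, ⟨.ofNat (nat_lit 489975), .ofNat (nat_lit 538203), .ofNat (nat_lit 511323), .ofNat (nat_lit 559550), .ofNat (nat_lit 486351), .ofNat (nat_lit 533471), .ofNat (nat_lit 507691), .ofNat (nat_lit 554809)⟩⟩, [⟨nat_lit 4, nat_lit 94, nat_lit 100, nat_lit 69, nat_lit 831610665⟩]⟩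
noncomputable def p044_l62 : Lf2 := ⟨nat_lit 0, nat_lit 2, [nat_lit 10, nat_lit 5, nat_lit 5, nat_lit 20], true, nat_lit 280, nat_lit 304, nat_lit 0, nat_lit 248, ⟨nat_lit 0, nat_lit 1000, nat_lit 0, nat_lit 6, nat_lit 88, nat_lit 1000, nat_lit 209, nat_lit 0, nat_lit 0, nat_lit 0, nat_lit 0, nat_lit 0, nat_lit 49155266, nat_lit 3685188, nat_lit 14159546, nat_lit 3779754, false, false⟩,
 nat_lit 0, nat_lit 0, nat_lit 0, nat_lit 9017, nat_lit 4868, nat_lit 0, nat_lit 0, nat_lit 0, nat_lit 0, nat_lit 0, nat_lit 0, nat_lit 0, nat_lit 0, nat_lit 0, nat_lit 0, nat_lit 400000, nat_lit 0, nat_lit 0, [(nat_lit 6, [(nat_lit 1, nat_lit 1000)])],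
 ⟨p044_k21, nat_lit 0, nat_lit 0, nat_lit 0, nat_lit 0, nat_lit 0, [nat_lit 2692266667, nat_lit 3030400001, nat_lit 3280799999], [], [nat_lit 18233222737, nat_lit 18855502682, nat_lit 17837541663, nat_lit 18458058507, nat_lit 19959808183, nat_lit 20600119573, nat_lit 19558144525, nat_lit 20133956082], nat_lit 0, nat_lit 0, nat_lit 0, nat_lit 0, nat_lit 0, nat_lit 0, [], [nat_lit 9, nat_lit 40, nat_lit 40, nat_lit 80]⟩, C1.Rw.none,
 ⟨nat_lit 5916, nat_lit 6124, ⟨.ofNat (nat_lit 205096), .ofNat (nat_lit 221172), .ofNat (nat_lit 210433), .ofNat (nat_lit 226509), .ofNat (nat_lit 212836), .ofNat (nat_lit 228543), .ofNat (nat_lit 218171), .ofNat (nat_lit 233878)⟩, ⟨.ofNat (nat_lit 489975), .ofNat (nat_lit 538203), .ofNat (nat_lit 511323), .ofNat (nat_lit 559550), .ofNat (nat_lit 486351), .ofNat (nat_lit 533471), .ofNat (nat_lit 507691), .ofNat (nat_lit 554809)⟩⟩, [⟨nat_lit 4, nat_lit 94, nat_lit 100, nat_lit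 69, nat_lit 409453915⟩]⟩
noncomputable def p044_l63 : Lf2 := ⟨nat_lit 0, nat_lit 2, [nat_lit 10, nat_lit 5, nat_lit 5, nat_lit 20], true, nat_lit 280, nat_lit 304, nat_lit 0, nat_lit 240, ⟨nat_lit 0, nat_lit 1000, nat_lit 0, nat_lit 6, nat_lit 88, nat_lit 1000, nat_lit 209, nat_lit 0, nat_lit 0, nat_lit 0, nat_lit 0, nat_lit 0, nat_lit 49148517, nat_lit 3692586, nat_lit 14158897, nat_lit 3781365, false, false⟩,
 nat_lit 0, nat_lit 0, nat_lit 0, nat_lit 9005, nat_lit 4877, nat_lit 0, nat_lit 0, nat_lit 0, nat_lit 0, nat_lit 0, nat_lit 0, nat_lit 0, nat_lit 0, nat_lit 0, nat_lit 0, nat_lit 400000, nat_lit 0, nat_lit 0, [(nat_lit 6, [(nat_lit 1, nat_lit 1000)])],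
 ⟨p044_k21, nat_lit 0, nat_lit 0, nat_lit 0, nat_lit 0, nat_lit 0, [nat_lit 2692266667, nat_lit 3030400001, nat_lit 3280799999], [], [nat_lit 18228656112, nat_lit 18851483649, nat_lit 18030348024, nat_lit 18652293288, nat_lit 19956909687, nat_lit 20608582990, nat_lit 19755607241, nat_lit 20347889463], nat_lit 0, nat_lit 0, nat_lit 0, nat_lit 0, nat_lit 0, nat_lit 0, [], [nat_lit 9, nat_lit 40, nat_lit 40, nat_lit 80]⟩, C1.Rw.none,
 ⟨nat_lit 5916, nat_lit 6124, ⟨.ofNat (nat_lit 210433), .ofNat (nat_lit 218471), .ofNat (nat_lit 213635), .ofNat (nat_lit 221673), .ofNat (nat_lit 218171), .ofNat (nat_lit 226024), .ofNat (nat_lit 221372), .ofNat (nat_lit 229225)⟩, ⟨.ofNat (nat_lit 489975), .ofNat (nat_lit 538203), .ofNat (nat_lit 511323), .ofNat (nat_lit 559550), .ofNat (nat_lit 486351), .ofNat (nat_lit 533471), .ofNat (nat_lit 507691), .ofNat (nat_lit 554809)⟩⟩, [⟨nat_lit 4, nat_lit 94, nat_lit 100, nat_lit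 69, nat_lit 409963842⟩]⟩
noncomputable def p044_l64 : Lf2 := ⟨nat_lit 0, nat_lit 2, [nat_lit 10, nat_lit 5, nat_lit 5, nat_lit 20], false, nat_lit 280, nat_lit 304, nat_lit 0, nat_lit 240, ⟨nat_lit 1000, nat_lit 0, nat_lit 0, nat_lit 0, nat_lit 0, nat_lit 0, nat_lit 0, nat_lit 0, nat_lit 0, nat_lit 0, nat_lit 0, nat_lit 0, nat_lit 0, nat_lit 0, nat_lit 0, nat_lit 0, false, false⟩,
 nat_lit 0, nat_lit 0, nat_lit 17719, nat_lit 0, nat_lit 6721, nat_lit 9750, nat_lit 0, nat_lit 0, nat_lit 0, nat_lit 2740, nat_lit 0, nat_lit 0, nat_lit 0, nat_lit 0, nat_lit 0, nat_lit 0, nat_lit 0, nat_lit 0, [],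
 ⟨p044_k21, nat_lit 0, nat_lit 0, nat_lit 0, nat_lit 0, nat_lit 0, [nat_lit 4688000000, nat_lit 6250000000, nat_lit 7968000000], [], [nat_lit 19288738682, nat_lit 20023761817, nat_lit 18994634610, nat_lit 19728627399, nat_lit 21551949357, nat_lit 22342642972, nat_lit 21174483395, nat_lit 21964867247], nat_lit 0, nat_lit 0, nat_lit 0, nat_lit 0, nat_lit 0, nat_lit 0, [], [nat_lit 9, nat_lit 40, nat_lit 40, nat_lit 80]⟩, ⟨p044_k31, nat_lit 0, nat_lit 0, nat_lit 0, nat_lit 0, nat_lit 125486, [nat_lit 4688000000, nat_lit 6250000000, nat_lit 7968000000], [], [nat_lit 18802928721, nat_lit 19157690600, nat_lit 18025506360, nat_lit 18380412800, nat_lit 15635247081, nat_lit 15806967750, nat_lit 15192999041, nat_lit 15365300201], nat_lit 1271250, nat_lit 1271250, nat_lit 181601, nat_lit 205650, nat_lit 0, nat_lit 1695000, [nat_lit 1100000, nat_lit 1442500, nat_lit 1271250], [nat_lit 9, nat_lit 40, nat_lit 40, nat_lit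 80]⟩,
 zbF0, [⟨nat_lit 16, nat_lit 100, nat_lit 94, nat_lit 69, nat_lit 905933047⟩, ⟨nat_lit 23, nat_lit 89, nat_lit 100, nat_lit 56, nat_lit 192927466⟩]⟩
noncomputable def p044_l65 : Lf2 := ⟨nat_lit 0, nat_lit 2, [nat_lit 10, nat_lit 5, nat_lit 5, nat_lit 20], true, nat_lit 280, nat_lit 304, nat_lit 0, nat_lit 248, ⟨nat_lit 0, nat_lit 1000, nat_lit 0, nat_lit 6, nat_lit 92, nat_lit 1000, nat_lit 209, nat_lit 0, nat_lit 0, nat_lit 0, nat_lit 0, nat_lit 0, nat_lit 48941213, nat_lit 3920215, nat_lit 14138572, nat_lit 3830169, false, false⟩,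
 nat_lit 0, nat_lit 0, nat_lit 0, nat_lit 8750, nat_lit 4941, nat_lit 0, nat_lit 0, nat_lit 0, nat_lit 0, nat_lit 0, nat_lit 0, nat_lit 0, nat_lit 0, nat_lit 0, nat_lit 0, nat_lit 400000, nat_lit 0, nat_lit 0, [(nat_lit 6, [(nat_lit 1, nat_lit 1000)])],
 ⟨p044_k21, nat_lit 0, nat_lit 0, nat_lit 0, nat_lit 0, nat_lit 0, [nat_lit 2692266667, nat_lit 3030400001, nat_lit 3280799999], [], [nat_lit 17994549439, nat_lit 18620383554, nat_lit 17792916544, nat_lit 18417863247, nat_lit 19731649099, nat_lit 20404010166, nat_lit 19527000039, nat_lit 20139253049], nat_lit 0, nat_lit 0, nat_lit 0, nat_lit 0, nat_lit 0, nat_lit 0, [], [nat_lit 9, nat_lit 40, nat_lit 40, nat_lit 80]⟩, C1.Rw.none,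
 ⟨nat_lit 5916, nat_lit 6124, ⟨.ofNat (nat_lit 218471), .ofNat (nat_lit 226509), .ofNat (nat_lit 223808), .ofNat (nat_lit 231846), .ofNat (nat_lit 226024), .ofNat (nat_lit 233878), .ofNat (nat_lit 231359), .ofNat (nat_lit 239212)⟩, ⟨.ofNat (nat_lit 489975), .ofNat (nat_lit 538203), .ofNat (nat_lit 511323), .ofNat (nat_lit 559550), .ofNat (nat_lit 486351), .ofNat (nat_lit 533471), .ofNat (nat_lit 507691), .ofNat (nat_lit 554809)⟩⟩, [⟨nat_lit 16, nat_lit 100, nat_lit 88, nat_lit 74, nat_lit 114457665⟩, ⟨nat_lit 4, nat_lit 94, nat_lit 100, nat_lit 69, nat_lit 290221589⟩]⟩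
noncomputable def p044_l66 : Lf2 := ⟨nat_lit 0, nat_lit 4, [nat_lit 38, nat_lit 5, nat_lit 5, nat_lit 20], true, nat_lit 280, nat_lit 304, nat_lit 0, nat_lit 248, ⟨nat_lit 0, nat_lit 1000, nat_lit 0, nat_lit 6, nat_lit 89, nat_lit 1000, nat_lit 209, nat_lit 0, nat_lit 0, nat_lit 0, nat_lit 0, nat_lit 0, nat_lit 49094264, nat_lit 3752087, nat_lit 14153649, nat_lit 3794261, false, false⟩,
 nat_lit 0, nat_lit 0, nat_lit 0, nat_lit 10843, nat_lit 5062, nat_lit 0, nat_lit 0, nat_lit 0, nat_lit 0, nat_lit 0, nat_lit 0, nat_lit 0, nat_lit 0, nat_lit 0, nat_lit 0, nat_lit 400000, nat_lit 0, nat_lit 0, [(nat_lit 6, [(nat_lit 1, nat_lit 1000)])],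
 ⟨p044_k25, nat_lit 0, nat_lit 0, nat_lit 0, nat_lit 0, nat_lit 0, [nat_lit 2692266667, nat_lit 3030400001, nat_lit 3280799999], [], [nat_lit 18134786594, nat_lit 18768870197, nat_lit 17718948881, nat_lit 18351238227, nat_lit 20101638219, nat_lit 20782553216, nat_lit 19557440171, nat_lit 20237673529], nat_lit 0, nat_lit 0, nat_lit 0, nat_lit 0, nat_lit 0, nat_lit 0, [], [nat_lit 9, nat_lit 40, nat_lit 40, nat_lit 80]⟩, C1.Rw.none,
 ⟨nat_lit 5916, nat_lit 6124, ⟨.ofNat (nat_lit 205096), .ofNat (nat_lit 221172), .ofNat (nat_lit 215770), .ofNat (nat_lit 231846), .ofNat (nat_lit 212836), .ofNat (nat_lit 228543), .ofNat (nat_lit 223506), .ofNat (nat_lit 239212)⟩, ⟨.ofNat (nat_lit 489975), .ofNat (nat_lit 538203), .ofNat (nat_lit 511323), .ofNat (nat_lit 559550), .ofNat (nat_lit 486351), .ofNat (nat_lit 533471), .ofNat (nat_lit 507691), .ofNat (nat_lit 554809)⟩⟩, [⟨nat_lit 4, nat_lit 94, nat_lit 100, nat_lit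 69, nat_lit 499775193⟩]⟩
noncomputable def p044_l67 : Lf2 := ⟨nat_lit 0, nat_lit 2, [nat_lit 10, nat_lit 5, nat_lit 5, nat_lit 20], false, nat_lit 280, nat_lit 304, nat_lit 0, nat_lit 240, ⟨nat_lit 1000, nat_lit 0, nat_lit 0, nat_lit 0, nat_lit 0, nat_lit 0, nat_lit 0, nat_lit 0, nat_lit 0, nat_lit 0, nat_lit 0, nat_lit 0, nat_lit 0, nat_lit 0, nat_lit 0, nat_lit 0, false, false⟩,
 nat_lit 0, nat_lit 0, nat_lit 0, nat_lit 13273, nat_lit 6559, nat_lit 0, nat_lit 0, nat_lit 0, nat_lit 0, nat_lit 2192, nat_lit 0, nat_lit 516, nat_lit 0, nat_lit 7111625748915, nat_lit 0, nat_lit 0, nat_lit 0, nat_lit 0, [],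
 ⟨p044_k32, nat_lit 0, nat_lit 0, nat_lit 0, nat_lit 0, nat_lit 0, [nat_lit 4688000000, nat_lit 7968000000], [], [nat_lit 19370937935, nat_lit 20096104408, nat_lit 19085249779, nat_lit 19809398914, nat_lit 21410946308, nat_lit 22190301477, nat_lit 21121690669, nat_lit 21822811715], nat_lit 0, nat_lit 0, nat_lit 0, nat_lit 0, nat_lit 0, nat_lit 0, [], [nat_lit 39, nat_lit 40, nat_lit 40, nat_lit 80]⟩, ⟨p044_k32, nat_lit 0, nat_lit 0, nat_lit 0, nat_lit 0, nat_lit 221553, [nat_lit 4688000000, nat_lit 7968000000], [], [nat_lit 7024672000, nat_lit 7411432400, nat_lit 7077560500, nat_lit 7455016200, nat_lit 13251016000, nat_lit 13626555201, nat_lit 13347212000, nat_lit 13678920601], nat_lit 1271250, nat_lit 1271250, nat_lit 181601, nat_lit 205650, nat_lit 0, nat_lit 1695000, [nat_lit 1100000, nat_lit 1785000], [nat_lit 39, nat_lit 40, nat_lit 40, nat_lit 80]⟩,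
 zbF0, [⟨nat_lit 16, nat_lit 100, nat_lit 88, nat_lit 74, nat_lit 855103976⟩, ⟨nat_lit 23, nat_lit 89, nat_lit 100, nat_lit 56, nat_lit 75169236⟩]⟩
noncomputable def p044_l68 : Lf2 := ⟨nat_lit 0, nat_lit 1, [nat_lit 19, nat_lit 5, nat_lit 5, nat_lit 20], false, nat_lit 280, nat_lit 304, nat_lit 0, nat_lit 160, ⟨nat_lit 1000, nat_lit 0, nat_lit 0, nat_lit 0, nat_lit 0, nat_lit 0, nat_lit 0, nat_lit 0, nat_lit 0, nat_lit 0, nat_lit 0, nat_lit 0, nat_lit 0, nat_lit 0, nat_lit 0, nat_lit 0, false, false⟩,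
 nat_lit 0, nat_lit 0, nat_lit 100000, nat_lit 0, nat_lit 52310, nat_lit 55555, nat_lit 0, nat_lit 3320, nat_lit 0, nat_lit 44681, nat_lit 2840, nat_lit 0, nat_lit 0, nat_lit 76174354278695, nat_lit 0, nat_lit 0, nat_lit 0, nat_lit 0, [],
 ⟨p044_k28, nat_lit 0, nat_lit 0, nat_lit 0, nat_lit 0, nat_lit 0, [nat_lit 57808000000, nat_lit 72650000000], [], [nat_lit 49276752432, nat_lit 52785574449, nat_lit 46614295252, nat_lit 50118426124, nat_lit 61406219693, nat_lit 65213608557, nat_lit 58133290574, nat_lit 61941223101], nat_lit 0, nat_lit 0, nat_lit 0, nat_lit 0, nat_lit 0, nat_lit 0, [], [nat_lit 31, nat_lit 40, nat_lit 40, nat_lit 80]⟩, ⟨p044_k28, nat_lit 0, nat_lit 0, nat_lit 0, nat_lit 0, nat_lit 218376, [nat_lit 50128000000, nat_lit 63050000000], [], [nat_lit 56893905584, nat_lit 63070117403, nat_lit 53429532017, nat_lit 59601075121, nat_lit 8955063235, nat_lit 12937122696, nat_lit 6603927328, nat_lit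 10574752622], nat_lit 1271250, nat_lit 1271250, nat_lit 181601, nat_lit 205650, nat_lit 0, nat_lit 1100001, [nat_lit 1100000, nat_lit 1442500], [nat_lit 31, nat_lit 40, nat_lit 40, nat_lit 80]⟩,
 zbF0, [⟨nat_lit 0, nat_lit 100, nat_lit 100, nat_lit 55, nat_lit 6687095643⟩, ⟨nat_lit 4, nat_lit 94, nat_lit 100, nat_lit 69, nat_lit 6520560370⟩]⟩
noncomputable def p044_l69 : Lf2 := ⟨nat_lit 0, nat_lit 1, [nat_lit 19, nat_lit 5, nat_lit 5, nat_lit 20], false, nat_lit 280, nat_lit 304, nat_lit 160, nat_lit 240, ⟨nat_lit 1000, nat_lit 0, nat_lit 0, nat_lit 0, nat_lit 0, nat_lit 0, nat_lit 0, nat_lit 0, nat_lit 0, nat_lit 0, nat_lit 0, nat_lit 0, nat_lit 0, nat_lit 0, nat_lit 0, nat_lit 0, false, false⟩,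
 nat_lit 0, nat_lit 0, nat_lit 100000, nat_lit 0, nat_lit 88445, nat_lit 55555, nat_lit 0, nat_lit 5954, nat_lit 0, nat_lit 26259, nat_lit 2658, nat_lit 0, nat_lit 0, nat_lit 0, nat_lit 0, nat_lit 0, nat_lit 0, nat_lit 0, [],
 ⟨p044_k28, nat_lit 0, nat_lit 0, nat_lit 0, nat_lit 0, nat_lit 0, [nat_lit 99952000000, nat_lit 125330000000], [], [nat_lit 73085752254, nat_lit 78800259530, nat_lit 68546078210, nat_lit 74245890928, nat_lit 92995727218, nat_lit 99194225403, nat_lit 87427780416, nat_lit 93627498711], nat_lit 0, nat_lit 0, nat_lit 0, nat_lit 0, nat_lit 0, nat_lit 0, [], [nat_lit 31, nat_lit 40, nat_lit 40, nat_lit 80]⟩, ⟨p044_k28, nat_lit 0, nat_lit 0, nat_lit 0, nat_lit 0, nat_lit 218376, [nat_lit 47216000000, nat_lit 59410000000], [], [nat_lit 10002138235, nat_lit 13983133544, nat_lit 7651002328, nat_lit 11621827622, nat_lit 35958766654, nat_lit 33214025990, nat_lit 35802026295, nat_lit 29763537531],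 nat_lit 1271250, nat_lit 1271250, nat_lit 181601, nat_lit 205650, nat_lit 1100001, nat_lit 1785000, [nat_lit 1100000, nat_lit 1442500], [nat_lit 31, nat_lit 40, nat_lit 40, nat_lit 80]⟩,
 zbF0, [⟨nat_lit 0, nat_lit 100, nat_lit 100, nat_lit 60, nat_lit 3643532070⟩, ⟨nat_lit 4, nat_lit 94, nat_lit 100, nat_lit 69, nat_lit 6569617935⟩, ⟨nat_lit 23, nat_lit 93, nat_lit 100, nat_lit 58, nat_lit 5073819808⟩]⟩
noncomputable def p044_l70 : Lf2 := ⟨nat_lit 0, nat_lit 2, [nat_lit 10, nat_lit 5, nat_lit 5, nat_lit 20], false, nat_lit 280, nat_lit 304, nat_lit 0, nat_lit 160, ⟨nat_lit 1000, nat_lit 0, nat_lit 0, nat_lit 0, nat_lit 0, nat_lit 0, nat_lit 0, nat_lit 0, nat_lit 0, nat_lit 0, nat_lit 0, nat_lit 0, nat_lit 0, nat_lit 0, nat_lit 0, nat_lit 0, false, false⟩,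
 nat_lit 0, nat_lit 0, nat_lit 100000, nat_lit 0, nat_lit 50739, nat_lit 55555, nat_lit 0, nat_lit 3205, nat_lit 0, nat_lit 51296, nat_lit 3005, nat_lit 0, nat_lit 0, nat_lit 82710504758071, nat_lit 0, nat_lit 0, nat_lit 0, nat_lit 0, [],
 ⟨p044_k32, nat_lit 0, nat_lit 0, nat_lit 0, nat_lit 0, nat_lit 0, [nat_lit 55968000000, nat_lit 84888000000], [], [nat_lit 48233882231, nat_lit 51653674006, nat_lit 45653038657, nat_lit 49061710386, nat_lit 60032838862, nat_lit 63736272205, nat_lit 56859687598, nat_lit 60563635195], nat_lit 0, nat_lit 0, nat_lit 0, nat_lit 0, nat_lit 0, nat_lit 0, [], [nat_lit 39, nat_lit 40, nat_lit 40, nat_lit 80]⟩, ⟨p044_k32, nat_lit 0, nat_lit 0, nat_lit 0, nat_lit 0, nat_lit 172222, [nat_lit 52768000000, nat_lit 80088000000], [], [nat_lit 65584981883, nat_lit 70982825990, nat_lit 62137638719, nat_lit 67532337531, nat_lit 14748712269, nat_lit 18217768682, nat_lit 12380151707, nat_lit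 15852566288], nat_lit 1271250, nat_lit 1271250, nat_lit 181601, nat_lit 205650, nat_lit 0, nat_lit 1100001, [nat_lit 1100000, nat_lit 1785000], [nat_lit 39, nat_lit 40, nat_lit 40, nat_lit 80]⟩,
 zbF0, [⟨nat_lit 0, nat_lit 100, nat_lit 100, nat_lit 55, nat_lit 5936488904⟩, ⟨nat_lit 4, nat_lit 94, nat_lit 100, nat_lit 69, nat_lit 6333046868⟩]⟩
noncomputable def p044_l71 : Lf2 := ⟨nat_lit 0, nat_lit 2, [nat_lit 10, nat_lit 5, nat_lit 5, nat_lit 20], false, nat_lit 280, nat_lit 304, nat_lit 160, nat_lit 240, ⟨nat_lit 1000, nat_lit 0, nat_lit 0, nat_lit 0, nat_lit 0, nat_lit 0, nat_lit 0, nat_lit 0, nat_lit 0, nat_lit 0, nat_lit 0, nat_lit 0, nat_lit 0, nat_lit 0, nat_lit 0, nat_lit 0, false, false⟩,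
 nat_lit 0, nat_lit 0, nat_lit 22541, nat_lit 0, nat_lit 8047, nat_lit 12522, nat_lit 0, nat_lit 93, nat_lit 0, nat_lit 1181, nat_lit 0, nat_lit 0, nat_lit 0, nat_lit 0, nat_lit 0, nat_lit 0, nat_lit 0, nat_lit 0, [],
 ⟨p044_k21, nat_lit 0, nat_lit 0, nat_lit 0, nat_lit 0, nat_lit 0, [nat_lit 6176000000, nat_lit 8110000000, nat_lit 10200000000], [], [nat_lit 20103922569, nat_lit 20919624318, nat_lit 19740932664, nat_lit 20555497589, nat_lit 22711149218, nat_lit 23589586322, nat_lit 22249465919, nat_lit 23127618083], nat_lit 0, nat_lit 0, nat_lit 0, nat_lit 0, nat_lit 0, nat_lit 0, [], [nat_lit 9, nat_lit 40, nat_lit 40, nat_lit 80]⟩, ⟨p044_k21, nat_lit 0, nat_lit 0, nat_lit 0, nat_lit 0, nat_lit 172222, [nat_lit 4688000000, nat_lit 6250000000, nat_lit 7968000000], [], [nat_lit 22634845001, nat_lit 19412921879, nat_lit 21335442070, nat_lit 18118352440, nat_lit 17029603190, nat_lit 18042257113, nat_lit 16445840569,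 nat_lit 17457043129], nat_lit 1271250, nat_lit 1271250, nat_lit 181601, nat_lit 205650, nat_lit 1100001, nat_lit 1785000, [nat_lit 1100000, nat_lit 1442500, nat_lit 1271250], [nat_lit 9, nat_lit 40, nat_lit 40, nat_lit 80]⟩,
 zbF0, [⟨nat_lit 4, nat_lit 94, nat_lit 100, nat_lit 69, nat_lit 1236219372⟩]⟩
noncomputable def p044_l72 : Lf2 := ⟨nat_lit 0, nat_lit 4, [nat_lit 38, nat_lit 5, nat_lit 5, nat_lit 20], false, nat_lit 280, nat_lit 304, nat_lit 0, nat_lit 240, ⟨nat_lit 1000, nat_lit 0, nat_lit 0, nat_lit 0, nat_lit 0, nat_lit 0, nat_lit 0, nat_lit 0, nat_lit 0, nat_lit 0, nat_lit 0, nat_lit 0, nat_lit 0, nat_lit 0, nat_lit 0, nat_lit 0, false, false⟩,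
 nat_lit 0, nat_lit 0, nat_lit 17741, nat_lit 0, nat_lit 6773, nat_lit 9856, nat_lit 0, nat_lit 0, nat_lit 0, nat_lit 2382, nat_lit 0, nat_lit 0, nat_lit 0, nat_lit 13645829685948, nat_lit 0, nat_lit 0, nat_lit 0, nat_lit 0, [],
 ⟨p044_k25, nat_lit 0, nat_lit 0, nat_lit 0, nat_lit 0, nat_lit 0, [nat_lit 4688000000, nat_lit 6250000000, nat_lit 7968000000], [], [nat_lit 19262353736, nat_lit 20000540739, nat_lit 18965548259, nat_lit 19702700740, nat_lit 21597408175, nat_lit 22391542711, nat_lit 21216639572, nat_lit 22010465318], nat_lit 0, nat_lit 0, nat_lit 0, nat_lit 0, nat_lit 0, nat_lit 0, [], [nat_lit 9, nat_lit 40, nat_lit 40, nat_lit 80]⟩, ⟨p044_k25, nat_lit 0, nat_lit 0, nat_lit 0, nat_lit 0, nat_lit 133575, [nat_lit 4688000000, nat_lit 6250000000, nat_lit 7968000000], [], [nat_lit 19290319496, nat_lit 21078487402, nat_lit 18504112892, nat_lit 20293016021, nat_lit 16236377962, nat_lit 17101563968,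 nat_lit 15788480833, nat_lit 16651731324], nat_lit 1271250, nat_lit 1271250, nat_lit 181601, nat_lit 205650, nat_lit 0, nat_lit 1695000, [nat_lit 1100000, nat_lit 1442500, nat_lit 1271250], [nat_lit 9, nat_lit 40, nat_lit 40, nat_lit 80]⟩,
 zbF0, [⟨nat_lit 0, nat_lit 100, nat_lit 100, nat_lit 55, nat_lit 483319021⟩, ⟨nat_lit 4, nat_lit 94, nat_lit 100, nat_lit 69, nat_lit 954584298⟩, ⟨nat_lit 23, nat_lit 93, nat_lit 100, nat_lit 58, nat_lit 154142210⟩]⟩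
noncomputable def p044_l73 : Lf2 := ⟨nat_lit 0, nat_lit 4, [nat_lit 38, nat_lit 5, nat_lit 5, nat_lit 20], false, nat_lit 280, nat_lit 304, nat_lit 0, nat_lit 248, ⟨nat_lit 1000, nat_lit 0, nat_lit 0, nat_lit 0, nat_lit 0, nat_lit 0, nat_lit 0, nat_lit 0, nat_lit 0, nat_lit 0, nat_lit 0, nat_lit 0, nat_lit 0, nat_lit 0, nat_lit 0, nat_lit 0, false, false⟩,
 nat_lit 0, nat_lit 0, nat_lit 0, nat_lit 16872, nat_lit 6530, nat_lit 0, nat_lit 0, nat_lit 0, nat_lit 0, nat_lit 2536, nat_lit 0, nat_lit 506, nat_lit 0, nat_lit 4981011433699, nat_lit 0, nat_lit 0, nat_lit 0, nat_lit 0, [],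
 ⟨p044_k18, nat_lit 0, nat_lit 0, nat_lit 0, nat_lit 0, nat_lit 0, [nat_lit 4688000000, nat_lit 7968000000], [], [nat_lit 19101471014, nat_lit 19823858012, nat_lit 18817289410, nat_lit 19538661400, nat_lit 21132546702, nat_lit 21798063553, nat_lit 20844807496, nat_lit 21509498824], nat_lit 0, nat_lit 0, nat_lit 0, nat_lit 0, nat_lit 0, nat_lit 0, [], [nat_lit 39, nat_lit 40, nat_lit 40, nat_lit 80]⟩, ⟨p044_k18, nat_lit 0, nat_lit 0, nat_lit 0, nat_lit 0, nat_lit 227908, [nat_lit 4688000000, nat_lit 7968000000], [], [nat_lit 10323812000, nat_lit 10323812000, nat_lit 10323812000, nat_lit 10323812000, nat_lit 13969612000, nat_lit 13977970081, nat_lit 14067016000, nat_lit 14067016000], nat_lit 1271250, nat_lit 1271250, nat_lit 205650, nat_lit 230001, nat_lit 0, nat_lit 1751500, [nat_lit 1100000, nat_lit 1785000], [nat_lit 39, nat_lit 40, nat_lit 40, nat_lit 80]⟩,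
 zbF0, [⟨nat_lit 16, nat_lit 100, nat_lit 88, nat_lit 74, nat_lit 893464725⟩]⟩
noncomputable def p044_l74 : Lf2 := ⟨nat_lit 0, nat_lit 2, [nat_lit 10, nat_lit 5, nat_lit 5, nat_lit 20], false, nat_lit 280, nat_lit 304, nat_lit 0, nat_lit 160, ⟨nat_lit 1000, nat_lit 0, nat_lit 0, nat_lit 0, nat_lit 0, nat_lit 0, nat_lit 0, nat_lit 0, nat_lit 0, nat_lit 0, nat_lit 0, nat_lit 0, nat_lit 0, nat_lit 0, nat_lit 0, nat_lit 0, false, false⟩,
 nat_lit 0, nat_lit 0, nat_lit 100000, nat_lit 0, nat_lit 45556, nat_lit 55555, nat_lit 0, nat_lit 2774, nat_lit 0, nat_lit 51258, nat_lit 2941, nat_lit 0, nat_lit 0, nat_lit 0, nat_lit 0, nat_lit 0, nat_lit 0, nat_lit 0, [],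
 ⟨p044_k32, nat_lit 0, nat_lit 0, nat_lit 0, nat_lit 0, nat_lit 0, [nat_lit 49072000000, nat_lit 74544000000], [], [nat_lit 41656164738, nat_lit 43203032511, nat_lit 39344578532, nat_lit 40889371906, nat_lit 52657851681, nat_lit 54338293369, nat_lit 49813884771, nat_lit 51494535073], nat_lit 0, nat_lit 0, nat_lit 0, nat_lit 0, nat_lit 0, nat_lit 0, [], [nat_lit 39, nat_lit 40, nat_lit 40, nat_lit 80]⟩, ⟨p044_k32, nat_lit 0, nat_lit 0, nat_lit 0, nat_lit 0, nat_lit 172278, [nat_lit 51744000000, nat_lit 78552000000], [], [nat_lit 60632988719, nat_lit 63330338125, nat_lit 57185645555, nat_lit 59881422313, nat_lit 9851501707, nat_lit 11583413615, nat_lit 7482941145, nat_lit 9224632530], nat_lit 1271250, nat_lit 1271250, nat_lit 205650, nat_lit 230001, nat_lit 0, nat_lit 1100001, [nat_lit 1100000, nat_lit 1785000], [nat_lit 39, nat_lit 40, nat_lit 40, nat_lit 80]⟩,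
 zbF0, [⟨nat_lit 4, nat_lit 93, nat_lit 100, nat_lit 69, nat_lit 5736442127⟩]⟩
noncomputable def p044_l75 : Lf2 := ⟨nat_lit 0, nat_lit 2, [nat_lit 10, nat_lit 5, nat_lit 5, nat_lit 20], false, nat_lit 280, nat_lit 304, nat_lit 160, nat_lit 248, ⟨nat_lit 1000, nat_lit 0, nat_lit 0, nat_lit 0, nat_lit 0, nat_lit 0, nat_lit 0, nat_lit 0, nat_lit 0, nat_lit 0, nat_lit 0, nat_lit 0, nat_lit 0, nat_lit 0, nat_lit 0, nat_lit 0, false, false⟩,
 nat_lit 0, nat_lit 0, nat_lit 100000, nat_lit 0, nat_lit 92505, nat_lit 55555, nat_lit 0, nat_lit 6142, nat_lit 0, nat_lit 19151, nat_lit 2464, nat_lit 0, nat_lit 0, nat_lit 0, nat_lit 0, nat_lit 0, nat_lit 0, nat_lit 0, [],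
 ⟨p044_k21, nat_lit 0, nat_lit 0, nat_lit 0, nat_lit 0, nat_lit 0, [nat_lit 102960000001, nat_lit 129090000000, nat_lit 155376000000], [], [nat_lit 69283105437, nat_lit 72256709583, nat_lit 64532513986, nat_lit 67501810444, nat_lit 90719205039, nat_lit 93953430455, nat_lit 84893398217, nat_lit 88128271690], nat_lit 0, nat_lit 0, nat_lit 0, nat_lit 0, nat_lit 0, nat_lit 0, [], [nat_lit 9, nat_lit 40, nat_lit 40, nat_lit 80]⟩, ⟨p044_k21, nat_lit 0, nat_lit 0, nat_lit 0, nat_lit 0, nat_lit 172278, [nat_lit 44112000000, nat_lit 55530000000, nat_lit 67104000000], [], [nat_lit 3599052328, nat_lit 5824460883, nat_lit 1247916420, nat_lit 3228244060, nat_lit 36274591012, nat_lit 31529834382, nat_lit 36201989489, nat_lit 29300764058], nat_lit 1271250, nat_lit 1271250, nat_lit 205650, nat_lit 230001, nat_lit 1100001, nat_lit 1853500, [nat_lit 1100000, nat_lit 1442500, nat_lit 1271250], [nat_lit 9, nat_lit 40, nat_lit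 40, nat_lit 80]⟩,
 zbF0, [⟨nat_lit 4, nat_lit 93, nat_lit 100, nat_lit 69, nat_lit 6694206284⟩, ⟨nat_lit 23, nat_lit 90, nat_lit 100, nat_lit 59, nat_lit 5461079113⟩]⟩
noncomputable def p044_l76 : Lf2 := ⟨nat_lit 0, nat_lit 4, [nat_lit 38, nat_lit 5, nat_lit 5, nat_lit 20], false, nat_lit 280, nat_lit 304, nat_lit 0, nat_lit 248, ⟨nat_lit 1000, nat_lit 0, nat_lit 0, nat_lit 0, nat_lit 0, nat_lit 0, nat_lit 0, nat_lit 0, nat_lit 0, nat_lit 0, nat_lit 0, nat_lit 0, nat_lit 0, nat_lit 0, nat_lit 0, nat_lit 0, false, false⟩,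
 nat_lit 0, nat_lit 0, nat_lit 100000, nat_lit 0, nat_lit 54135, nat_lit 55555, nat_lit 0, nat_lit 3389, nat_lit 0, nat_lit 13119, nat_lit 2607, nat_lit 0, nat_lit 0, nat_lit 203746957971689, nat_lit 0, nat_lit 0, nat_lit 0, nat_lit 0, [],
 ⟨p044_k25, nat_lit 0, nat_lit 0, nat_lit 0, nat_lit 0, nat_lit 0, [nat_lit 58912000001, nat_lit 74030000000, nat_lit 89304000000], [], [nat_lit 46697476210, nat_lit 48505430178, nat_lit 43940210096, nat_lit 45745303199, nat_lit 59612810263, nat_lit 61577175157, nat_lit 56223971159, nat_lit 58188624967], nat_lit 0, nat_lit 0, nat_lit 0, nat_lit 0, nat_lit 0, nat_lit 0, [], [nat_lit 9, nat_lit 40, nat_lit 40, nat_lit 80]⟩, ⟨p044_k25, nat_lit 0, nat_lit 0, nat_lit 0, nat_lit 0, nat_lit 82747, [nat_lit 46400000000, nat_lit 58390000000, nat_lit 70536000000], [], [nat_lit 71834023310, nat_lit 75826291267, nat_lit 67198407140, nat_lit 71193720670, nat_lit 29888224477, nat_lit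 31531767310, nat_lit 27106689386, nat_lit 28748006605], nat_lit 1271250, nat_lit 1271250, nat_lit 205650, nat_lit 230001, nat_lit 0, nat_lit 1751500, [nat_lit 1100000, nat_lit 1442500, nat_lit 1271250], [nat_lit 9, nat_lit 40, nat_lit 40, nat_lit 80]⟩,
 zbF0, [⟨nat_lit 4, nat_lit 93, nat_lit 100, nat_lit 69, nat_lit 5833477443⟩, ⟨nat_lit 23, nat_lit 90, nat_lit 100, nat_lit 59, nat_lit 1089155207⟩]⟩
noncomputable def p044_l77 : Lf2 := ⟨nat_lit 0, nat_lit 2, [nat_lit 10, nat_lit 5, nat_lit 5, nat_lit 20], false, nat_lit 280, nat_lit 300, nat_lit 0, nat_lit 248, ⟨nat_lit 202, nat_lit 798, nat_lit 0, nat_lit 6, nat_lit 94, nat_lit 798, nat_lit 207, nat_lit 0, nat_lit 0, nat_lit 0, nat_lit 0, nat_lit 0, nat_lit 48966692, nat_lit 4090956, nat_lit 13942352, nat_lit 3848259, false, false⟩,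
 nat_lit 0, nat_lit 0, nat_lit 6251, nat_lit 0, nat_lit 5310, nat_lit 3472, nat_lit 0, nat_lit 0, nat_lit 0, nat_lit 759, nat_lit 0, nat_lit 0, nat_lit 0, nat_lit 0, nat_lit 0, nat_lit 319200, nat_lit 0, nat_lit 0, [(nat_lit 6, [(nat_lit 1, nat_lit 798)])],
 ⟨p044_k33, nat_lit 0, nat_lit 0, nat_lit 0, nat_lit 0, nat_lit 0, [nat_lit 3095404800, nat_lit 3419148601, nat_lit 3950247800], [], [nat_lit 18283597390, nat_lit 18478570641, nat_lit 18120920145, nat_lit 18315455862, nat_lit 19856245424, nat_lit 20067971385, nat_lit 19689436928, nat_lit 19871833077], nat_lit 0, nat_lit 0, nat_lit 0, nat_lit 0, nat_lit 0, nat_lit 0, [], [nat_lit 105, nat_lit 40, nat_lit 20, nat_lit 40]⟩, ⟨p044_k23, nat_lit 0, nat_lit 0, nat_lit 0, nat_lit 0, nat_lit 187197, [nat_lit 946976000, nat_lit 1100799000, nat_lit 1432079000], [], [nat_lit 6147022446, nat_lit 5698527039, nat_lit 5785439338, nat_lit 5463901510, nat_lit 3637966248,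 nat_lit 3827517620, nat_lit 3471122479, nat_lit 3660345847], nat_lit 1271250, nat_lit 1271250, nat_lit 205650, nat_lit 230001, nat_lit 0, nat_lit 1751500, [nat_lit 1100000, nat_lit 1271250, nat_lit 1271250], [nat_lit 105, nat_lit 40, nat_lit 20, nat_lit 40]⟩,
 ⟨nat_lit 5958, nat_lit 6021, ⟨.ofNat (nat_lit 227598), .ofNat (nat_lit 235543), .ofNat (nat_lit 232933), .ofNat (nat_lit 240879), .ofNat (nat_lit 229858), .ofNat (nat_lit 237748), .ofNat (nat_lit 235193), .ofNat (nat_lit 243083)⟩, ⟨.ofNat (nat_lit 488166), .ofNat (nat_lit 527892), .ofNat (nat_lit 509508), .ofNat (nat_lit 549234), .ofNat (nat_lit 487078), .ofNat (nat_lit 526528), .ofNat (nat_lit 508418), .ofNat (nat_lit 547868)⟩⟩, [⟨nat_lit 16, nat_lit 100, nat_lit 90, nat_lit 74, nat_lit 520653376⟩]⟩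
noncomputable def p044_l78 : Lf2 := ⟨nat_lit 0, nat_lit 2, [nat_lit 10, nat_lit 5, nat_lit 5, nat_lit 20], false, nat_lit 280, nat_lit 300, nat_lit 0, nat_lit 248, ⟨nat_lit 0, nat_lit 1000, nat_lit 0, nat_lit 6, nat_lit 94, nat_lit 1000, nat_lit 207, nat_lit 0, nat_lit 0, nat_lit 0, nat_lit 0, nat_lit 0, nat_lit 48966692, nat_lit 4090956, nat_lit 13942352, nat_lit 3848259, false, false⟩,
 nat_lit 0, nat_lit 0, nat_lit 100000, nat_lit 0, nat_lit 57981, nat_lit 55555, nat_lit 0, nat_lit 3797, nat_lit 0, nat_lit 19976, nat_lit 4295, nat_lit 0, nat_lit 0, nat_lit 0, nat_lit 0, nat_lit 400000, nat_lit 0, nat_lit 0, [(nat_lit 6, [(nat_lit 1, nat_lit 1000)])],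
 ⟨p044_k34, nat_lit 0, nat_lit 0, nat_lit 0, nat_lit 0, nat_lit 0, [nat_lit 63590000001, nat_lit 94389466667], [], [nat_lit 51148564730, nat_lit 52303180594, nat_lit 48188925270, nat_lit 49341997177, nat_lit 62499683866, nat_lit 63781495360, nat_lit 58868836284, nat_lit 60150769420], nat_lit 0, nat_lit 0, nat_lit 0, nat_lit 0, nat_lit 0, nat_lit 0, [], [nat_lit 39, nat_lit 40, nat_lit 40, nat_lit 80]⟩, ⟨p044_k32, nat_lit 0, nat_lit 0, nat_lit 0, nat_lit 0, nat_lit 187197, [nat_lit 68720000000, nat_lit 103080000000], [], [nat_lit 223455638153, nat_lit 216211627261, nat_lit 217602941125, nat_lit 210369985678, nat_lit 110786314198, nat_lit 111363352316, nat_lit 108840916986, nat_lit 109415416796], nat_lit 1271250, nat_lit 1271250, nat_lit 205650, nat_lit 230001, nat_lit 0, nat_lit 1751500, [nat_lit 1100000, nat_lit 1785000], [nat_lit 39, nat_lit 40, nat_lit 40, nat_lit 80]⟩,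
 ⟨nat_lit 5958, nat_lit 6021, ⟨.ofNat (nat_lit 227598), .ofNat (nat_lit 235543), .ofNat (nat_lit 232933), .ofNat (nat_lit 240879), .ofNat (nat_lit 229858), .ofNat (nat_lit 237748), .ofNat (nat_lit 235193), .ofNat (nat_lit 243083)⟩, ⟨.ofNat (nat_lit 488166), .ofNat (nat_lit 527892), .ofNat (nat_lit 509508), .ofNat (nat_lit 549234), .ofNat (nat_lit 487078), .ofNat (nat_lit 526528), .ofNat (nat_lit 508418), .ofNat (nat_lit 547868)⟩⟩, [⟨nat_lit 4, nat_lit 94, nat_lit 100, nat_lit 69, nat_lit 6807631733⟩]⟩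
noncomputable def p044_l79 : Lf2 := ⟨nat_lit 0, nat_lit 2, [nat_lit 10, nat_lit 5, nat_lit 5, nat_lit 20], true, nat_lit 280, nat_lit 300, nat_lit 0, nat_lit 248, ⟨nat_lit 0, nat_lit 1000, nat_lit 0, nat_lit 6, nat_lit 94, nat_lit 1000, nat_lit 207, nat_lit 0, nat_lit 0, nat_lit 0, nat_lit 0, nat_lit 0, nat_lit 48987310, nat_lit 4112487, nat_lit 13900203, nat_lit 3848759, false, false⟩,
 nat_lit 0, nat_lit 0, nat_lit 0, nat_lit 2616, nat_lit 4944, nat_lit 0, nat_lit 0, nat_lit 0, nat_lit 0, nat_lit 0, nat_lit 0, nat_lit 0, nat_lit 0, nat_lit 0, nat_lit 0, nat_lit 400000, nat_lit 0, nat_lit 0, [(nat_lit 6, [(nat_lit 1, nat_lit 1000)])],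
 ⟨p044_k35, nat_lit 0, nat_lit 0, nat_lit 0, nat_lit 0, nat_lit 0, [nat_lit 2692266667, nat_lit 2852000000, nat_lit 3030400000], [], [nat_lit 18276275125, nat_lit 18401789487, nat_lit 18128784696, nat_lit 18254019563, nat_lit 19776729451, nat_lit 19912515581, nat_lit 19625347812, nat_lit 19742935971], nat_lit 0, nat_lit 0, nat_lit 0, nat_lit 0, nat_lit 0, nat_lit 0, [], [nat_lit 124, nat_lit 40, nat_lit 20, nat_lit 40]⟩, C1.Rw.none,
 ⟨nat_lit 5916, nat_lit 5959, ⟨.ofNat (nat_lit 229858), .ofNat (nat_lit 237748), .ofNat (nat_lit 233059), .ofNat (nat_lit 240949), .ofNat (nat_lit 231359), .ofNat (nat_lit 239212), .ofNat (nat_lit 234560), .ofNat (nat_lit 242413)⟩, ⟨.ofNat (nat_lit 487078), .ofNat (nat_lit 526528), .ofNat (nat_lit 508418), .ofNat (nat_lit 547868), .ofNat (nat_lit 486351), .ofNat (nat_lit 525618), .ofNat (nat_lit 507691), .ofNat (nat_lit 546958)⟩⟩, [⟨nat_lit 16, nat_lit 100, nat_lit 92, nat_lit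 75, nat_lit 406058007⟩]⟩
noncomputable def p044_l80 : Lf2 := ⟨nat_lit 0, nat_lit 2, [nat_lit 10, nat_lit 5, nat_lit 5, nat_lit 20], false, nat_lit 280, nat_lit 300, nat_lit 0, nat_lit 248, ⟨nat_lit 327, nat_lit 673, nat_lit 0, nat_lit 6, nat_lit 96, nat_lit 673, nat_lit 207, nat_lit 0, nat_lit 0, nat_lit 0, nat_lit 0, nat_lit 0, nat_lit 48924182, nat_lit 4181784, nat_lit 13894034, nat_lit 3863022, false, false⟩,
 nat_lit 0, nat_lit 0, nat_lit 9830, nat_lit 0, nat_lit 5485, nat_lit 5538, nat_lit 0, nat_lit 0, nat_lit 0, nat_lit 1668, nat_lit 0, nat_lit 0, nat_lit 0, nat_lit 0, nat_lit 0, nat_lit 269200, nat_lit 0, nat_lit 0, [(nat_lit 6, [(nat_lit 1, nat_lit 673)])],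
 ⟨p044_k35, nat_lit 0, nat_lit 0, nat_lit 0, nat_lit 0, nat_lit 0, [nat_lit 3344871467, nat_lit 3701382500, nat_lit 4083209200], [], [nat_lit 18632006002, nat_lit 18764124416, nat_lit 18461420564, nat_lit 18593241457, nat_lit 20221155103, nat_lit 20351749802, nat_lit 20046397417, nat_lit 20169911852], nat_lit 0, nat_lit 0, nat_lit 0, nat_lit 0, nat_lit 0, nat_lit 0, [], [nat_lit 124, nat_lit 40, nat_lit 20, nat_lit 40]⟩, ⟨p044_k36, nat_lit 0, nat_lit 0, nat_lit 0, nat_lit 0, nat_lit 193989, [nat_lit 1532976000, nat_lit 1781986500, nat_lit 2318266500], [], [nat_lit 9343362295, nat_lit 9124054470, nat_lit 8767266196, nat_lit 8750087589, nat_lit 6049902842, nat_lit 6171198421, nat_lit 5783768514, nat_lit 5904854223], nat_lit 1271250, nat_lit 1271250, nat_lit 205650, nat_lit 230001, nat_lit 0, nat_lit 1751500, [nat_lit 1100000, nat_lit 1271250, nat_lit 1271250], [nat_lit 105, nat_lit 40, nat_lit 20, nat_lit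 40]⟩,
 ⟨nat_lit 5916, nat_lit 5959, ⟨.ofNat (nat_lit 233059), .ofNat (nat_lit 240949), .ofNat (nat_lit 235193), .ofNat (nat_lit 243083), .ofNat (nat_lit 234560), .ofNat (nat_lit 242413), .ofNat (nat_lit 236694), .ofNat (nat_lit 244547)⟩, ⟨.ofNat (nat_lit 487078), .ofNat (nat_lit 526528), .ofNat (nat_lit 508418), .ofNat (nat_lit 547868), .ofNat (nat_lit 486351), .ofNat (nat_lit 525618), .ofNat (nat_lit 507691), .ofNat (nat_lit 546958)⟩⟩, [⟨nat_lit 16, nat_lit 100, nat_lit 92, nat_lit 75, nat_lit 574874899⟩]⟩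
noncomputable def p044_l81 : Lf2 := ⟨nat_lit 0, nat_lit 4, [nat_lit 38, nat_lit 5, nat_lit 5, nat_lit 20], false, nat_lit 280, nat_lit 300, nat_lit 0, nat_lit 248, ⟨nat_lit 1000, nat_lit 0, nat_lit 0, nat_lit 0, nat_lit 0, nat_lit 0, nat_lit 0, nat_lit 0, nat_lit 0, nat_lit 0, nat_lit 0, nat_lit 0, nat_lit 0, nat_lit 0, nat_lit 0, nat_lit 0, false, false⟩,
 nat_lit 0, nat_lit 0, nat_lit 100000, nat_lit 0, nat_lit 57119, nat_lit 55555, nat_lit 0, nat_lit 3630, nat_lit 0, nat_lit 13119, nat_lit 2607, nat_lit 0, nat_lit 0, nat_lit 0, nat_lit 0, nat_lit 0, nat_lit 0, nat_lit 0, [],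
 ⟨p044_k37, nat_lit 0, nat_lit 0, nat_lit 0, nat_lit 0, nat_lit 0, [nat_lit 62768000001, nat_lit 78850000001, nat_lit 95088000000], [], [nat_lit 50782537948, nat_lit 52680708739, nat_lit 47867714083, nat_lit 49763346221, nat_lit 61804630165, nat_lit 63911804645, nat_lit 58228496567, nat_lit 60335867490], nat_lit 0, nat_lit 0, nat_lit 0, nat_lit 0, nat_lit 0, nat_lit 0, [], [nat_lit 9, nat_lit 40, nat_lit 40, nat_lit 80]⟩, ⟨p044_k25, nat_lit 0, nat_lit 0, nat_lit 0, nat_lit 0, nat_lit 108474, [nat_lit 46400000000, nat_lit 58390000000, nat_lit 70536000000], [], [nat_lit 71834023310, nat_lit 75826291267, nat_lit 67198407140, nat_lit 71193720670, nat_lit 29888224477, nat_lit 31531767310, nat_lit 27106689386, nat_lit 28748006605], nat_lit 1271250, nat_lit 1271250, nat_lit 205650, nat_lit 230001, nat_lit 0, nat_lit 1751500, [nat_lit 1100000, nat_lit 1442500, nat_lit 1271250], [nat_lit 9, nat_lit 40, nat_lit 40,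 nat_lit 80]⟩,
 zbF0, [⟨nat_lit 4, nat_lit 95, nat_lit 100, nat_lit 69, nat_lit 6129382983⟩, ⟨nat_lit 23, nat_lit 90, nat_lit 100, nat_lit 59, nat_lit 1089155207⟩]⟩
noncomputable def p044_l82 : Lf2 := ⟨nat_lit 0, nat_lit 4, [nat_lit 38, nat_lit 5, nat_lit 5, nat_lit 20], false, nat_lit 280, nat_lit 300, nat_lit 0, nat_lit 248, ⟨nat_lit 394, nat_lit 606, nat_lit 0, nat_lit 6, nat_lit 97, nat_lit 606, nat_lit 207, nat_lit 0, nat_lit 0, nat_lit 0, nat_lit 0, nat_lit 0, nat_lit 48838522, nat_lit 4249474, nat_lit 13912004, nat_lit 3879202, false, false⟩,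
 nat_lit 0, nat_lit 0, nat_lit 10186, nat_lit 0, nat_lit 5604, nat_lit 5793, nat_lit 0, nat_lit 0, nat_lit 0, nat_lit 1414, nat_lit 0, nat_lit 0, nat_lit 0, nat_lit 0, nat_lit 0, nat_lit 242400, nat_lit 0, nat_lit 0, [(nat_lit 6, [(nat_lit 1, nat_lit 606)])],
 ⟨p044_k38, nat_lit 0, nat_lit 0, nat_lit 0, nat_lit 0, nat_lit 0, [nat_lit 3478585601, nat_lit 3907654201, nat_lit 4705556600, nat_lit 5092408800], [], [nat_lit 18500062257, nat_lit 18833989909, nat_lit 18324848999, nat_lit 18658022937, nat_lit 20121450449, nat_lit 20448365093, nat_lit 19941950972, nat_lit 20253995965], nat_lit 0, nat_lit 0, nat_lit 0, nat_lit 0, nat_lit 0, nat_lit 0, [], [nat_lit 129, nat_lit 40, nat_lit 20, nat_lit 40]⟩, ⟨p044_k38, nat_lit 0, nat_lit 0, nat_lit 0, nat_lit 0, nat_lit 221670, [nat_lit 1847072000, nat_lit 2147103000, nat_lit 2793263000, nat_lit 3139392000], [], [nat_lit 11314101907, nat_lit 10564387488, nat_lit 10711929405,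 nat_lit 10012871320, nat_lit 7170891535, nat_lit 7497785497, nat_lit 6895556233, nat_lit 7221885189], nat_lit 1271250, nat_lit 1271250, nat_lit 205650, nat_lit 230001, nat_lit 0, nat_lit 1751500, [nat_lit 1100000, nat_lit 1271250, nat_lit 1271250, nat_lit 1271250], [nat_lit 129, nat_lit 40, nat_lit 20, nat_lit 40]⟩,
 ⟨nat_lit 5916, nat_lit 6021, ⟨.ofNat (nat_lit 232933), .ofNat (nat_lit 240879), .ofNat (nat_lit 238269), .ofNat (nat_lit 246214), .ofNat (nat_lit 236694), .ofNat (nat_lit 244547), .ofNat (nat_lit 242029), .ofNat (nat_lit 249882)⟩, ⟨.ofNat (nat_lit 488166), .ofNat (nat_lit 527892), .ofNat (nat_lit 509508), .ofNat (nat_lit 549234), .ofNat (nat_lit 486351), .ofNat (nat_lit 525618), .ofNat (nat_lit 507691), .ofNat (nat_lit 546957)⟩⟩, [⟨nat_lit 16, nat_lit 100, nat_lit 90, nat_lit 74, nat_lit 620707340⟩]⟩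
noncomputable def b_V_600_600_10_8 : St := ⟨true, nat_lit 0, nat_lit 1, nat_lit 1, nat_lit 80, nat_lit 250, nat_lit 260, nat_lit 240, nat_lit 260, nat_lit 32, nat_lit 40, nat_lit 40, nat_lit 60, nat_lit 280, nat_lit 304, nat_lit 0, nat_lit 248, nat_lit 0, nat_lit 16, nat_lit 380, nat_lit 420, nat_lit 0, nat_lit 800⟩
theorem d_V_600_600_10_8 (h : EB TB.env) : Dead b_V_600_600_10_8 := chkB_sound0 h (T :=
(.spl (nat_lit 1) (nat_lit 250)
(.spl (nat_lit 6) (nat_lit 8)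
(.spl (nat_lit 6) (nat_lit 4)
(.spl (nat_lit 5) (nat_lit 160)
(.leaf p044_l59)
(.spl (nat_lit 1) (nat_lit 245)
(.leaf p044_l60)
(.leaf p044_l61)))
(.spl (nat_lit 1) (nat_lit 245)
(.leaf p044_l62)
(.spl (nat_lit 2) (nat_lit 36)
(.trX (nat_lit 23) (nat_lit 93) (nat_lit 100) (nat_lit 58) (nat_lit 240) (.spl (nat_lit 1) (nat_lit 248)
(.leaf p044_l63)
(.leaf p044_l64)))
(.leaf p044_l65))))
(.leaf p044_l66))
(.spl (nat_lit 2) (nat_lit 36)
(.trX (nat_lit 23) (nat_lit 93) (nat_lit 100) (nat_lit 58) (nat_lit 240) (.spl (nat_lit 6) (nat_lit 8)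
(.spl (nat_lit 8) (nat_lit 400)
(.leaf p044_l67)
(.spl (nat_lit 6) (nat_lit 4)
(.spl (nat_lit 5) (nat_lit 160)
(.leaf p044_l68)
(.leaf p044_l69))
(.spl (nat_lit 5) (nat_lit 160)
(.leaf p044_l70)
(.leaf p044_l71))))
(.leaf p044_l72)))
(.spl (nat_lit 8) (nat_lit 400)
(.leaf p044_l73)
(.spl (nat_lit 0) (nat_lit 255)
(.ord (.spl (nat_lit 6) (nat_lit 8)
(.spl (nat_lit 5) (nat_lit 160)
(.leaf p044_l74)
(.leaf p044_l75))
(.leaf p044_l76)))
(.trX (nat_lit 16) (nat_lit 100) (nat_lit 90) (nat_lit 74) (nat_lit 300) (.spl (nat_lit 1) (nat_lit 255)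
(.spl (nat_lit 6) (nat_lit 8)
(.spl (nat_lit 0) (nat_lit 258)
(.spl (nat_lit 8) (nat_lit 600)
(.leaf p044_l77)
(.leaf p044_l78))
(.spl (nat_lit 1) (nat_lit 253)
(.leaf p044_l79)
(.leaf p044_l80)))
(.leaf p044_l81))
(.leaf p044_l82)))))))) (by decide +kernel)
noncomputable def p044_l83 : Lf2 := ⟨nat_lit 0, nat_lit 4, [nat_lit 38, nat_lit 5, nat_lit 5, nat_lit 20], false, nat_lit 280, nat_lit 320, nat_lit 0, nat_lit 248, ⟨nat_lit 1000, nat_lit 0, nat_lit 0, nat_lit 0, nat_lit 0, nat_lit 0, nat_lit 0, nat_lit 0, nat_lit 0, nat_lit 0, nat_lit 0, nat_lit 0, nat_lit 0, nat_lit 0, nat_lit 0, nat_lit 0, false, false⟩,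
 nat_lit 0, nat_lit 0, nat_lit 19175, nat_lit 5338, nat_lit 6221, nat_lit 10151, nat_lit 0, nat_lit 0, nat_lit 0, nat_lit 3755, nat_lit 0, nat_lit 0, nat_lit 0, nat_lit 0, nat_lit 0, nat_lit 0, nat_lit 0, nat_lit 0, [],
 ⟨p044_k39, nat_lit 0, nat_lit 0, nat_lit 0, nat_lit 0, nat_lit 0, [nat_lit 2032000001, nat_lit 4688000000, nat_lit 6250000000, nat_lit 7968000000], [], [nat_lit 19809709766, nat_lit 20521664908, nat_lit 18806126165, nat_lit 19510030214, nat_lit 23340921313, nat_lit 24056831284, nat_lit 22290275754, nat_lit 22902139708], nat_lit 0, nat_lit 0, nat_lit 0, nat_lit 0, nat_lit 0, nat_lit 0, [], [nat_lit 98, nat_lit 40, nat_lit 20, nat_lit 40]⟩, ⟨p044_k40, nat_lit 0, nat_lit 0, nat_lit 0, nat_lit 0, nat_lit 67035, [nat_lit 2032000000, nat_lit 4688000000, nat_lit 6250000000, nat_lit 7968000000], [], [nat_lit 19516528300, nat_lit 21349615758, nat_lit 16207649456, nat_lit 18037316948, nat_lit 17077020980,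 nat_lit 18047749034, nat_lit 15293631182, nat_lit 16252188027], nat_lit 1271250, nat_lit 1271250, nat_lit 111251, nat_lit 230001, nat_lit 0, nat_lit 1751500, [nat_lit 490000, nat_lit 1100000, nat_lit 1442500, nat_lit 1271250], [nat_lit 98, nat_lit 40, nat_lit 20, nat_lit 40]⟩,
 zbF0, [⟨nat_lit 0, nat_lit 100, nat_lit 99, nat_lit 50, nat_lit 1276139190⟩, ⟨nat_lit 4, nat_lit 87, nat_lit 100, nat_lit 79, nat_lit 732467028⟩, ⟨nat_lit 23, nat_lit 87, nat_lit 100, nat_lit 53, nat_lit 219821285⟩]⟩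
noncomputable def p044_l84 : Lf2 := ⟨nat_lit 0, nat_lit 4, [nat_lit 38, nat_lit 5, nat_lit 5, nat_lit 20], false, nat_lit 280, nat_lit 320, nat_lit 0, nat_lit 248, ⟨nat_lit 1000, nat_lit 0, nat_lit 0, nat_lit 0, nat_lit 0, nat_lit 0, nat_lit 0, nat_lit 0, nat_lit 0, nat_lit 0, nat_lit 0, nat_lit 0, nat_lit 0, nat_lit 0, nat_lit 0, nat_lit 0, false, false⟩,
 nat_lit 0, nat_lit 0, nat_lit 15885, nat_lit 5533, nat_lit 6192, nat_lit 8825, nat_lit 0, nat_lit 0, nat_lit 0, nat_lit 3239, nat_lit 0, nat_lit 0, nat_lit 0, nat_lit 9249849856011, nat_lit 0, nat_lit 0, nat_lit 0, nat_lit 0, [],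
 ⟨p044_k39, nat_lit 0, nat_lit 0, nat_lit 0, nat_lit 0, nat_lit 0, [nat_lit 2032000001, nat_lit 4688000000, nat_lit 6250000000, nat_lit 7968000000], [], [nat_lit 19622620442, nat_lit 20331180839, nat_lit 18824690080, nat_lit 19526828928, nat_lit 23134532703, nat_lit 23749896445, nat_lit 22299078008, nat_lit 22909530416], nat_lit 0, nat_lit 0, nat_lit 0, nat_lit 0, nat_lit 0, nat_lit 0, [], [nat_lit 98, nat_lit 40, nat_lit 20, nat_lit 40]⟩, ⟨p044_k39, nat_lit 0, nat_lit 0, nat_lit 0, nat_lit 0, nat_lit 115194, [nat_lit 2032000000, nat_lit 4688000000, nat_lit 6250000000, nat_lit 7968000000], [], [nat_lit 18875580101, nat_lit 20527985960, nat_lit 16601593100, nat_lit 18251333000, nat_lit 17195354296, nat_lit 18189553236, nat_lit 15980260080, nat_lit 16856174241], nat_lit 1271250, nat_lit 1271250, nat_lit 134400, nat_lit 230001, nat_lit 0, nat_lit 1751500, [nat_lit 490000, nat_lit 1100000, nat_lit 1442500,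 nat_lit 1271250], [nat_lit 98, nat_lit 40, nat_lit 20, nat_lit 40]⟩,
 zbF0, [⟨nat_lit 0, nat_lit 100, nat_lit 100, nat_lit 55, nat_lit 1169051896⟩, ⟨nat_lit 4, nat_lit 87, nat_lit 100, nat_lit 79, nat_lit 686392097⟩, ⟨nat_lit 23, nat_lit 87, nat_lit 100, nat_lit 54, nat_lit 257132570⟩]⟩
noncomputable def b_V_600_600_10_9 : St := ⟨true, nat_lit 0, nat_lit 1, nat_lit 1, nat_lit 80, nat_lit 250, nat_lit 260, nat_lit 240, nat_lit 260, nat_lit 20, nat_lit 40, nat_lit 60, nat_lit 80, nat_lit 280, nat_lit 320, nat_lit 0, nat_lit 248, nat_lit 0, nat_lit 16, nat_lit 300, nat_lit 460, nat_lit 0, nat_lit 800⟩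
theorem d_V_600_600_10_9 (h : EB TB.env) : Dead b_V_600_600_10_9 := chkB_sound0 h (T :=
(.spl (nat_lit 1) (nat_lit 250)
(.leaf p044_l83)
(.trZ (nat_lit 0) (nat_lit 100) (nat_lit 100) (nat_lit 50) (nat_lit 24) (.leaf p044_l84)))) (by decide +kernel)
noncomputable def p044_l85 : Lf2 := ⟨nat_lit 2, nat_lit 4, [nat_lit 38, nat_lit 5, nat_lit 5, nat_lit 20], true, nat_lit 280, nat_lit 300, nat_lit 0, nat_lit 236, zbN0,
 nat_lit 0, nat_lit 0, nat_lit 0, nat_lit 0, nat_lit 0, nat_lit 0, nat_lit 0, nat_lit 0, nat_lit 0, nat_lit 0, nat_lit 0, nat_lit 0, nat_lit 0, nat_lit 0, nat_lit 0, nat_lit 0, nat_lit 0, nat_lit 0, [],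
 ⟨p044_k41, nat_lit 0, nat_lit 0, nat_lit 0, nat_lit 0, nat_lit 0, [], [], [], nat_lit 0, nat_lit 0, nat_lit 0, nat_lit 0, nat_lit 0, nat_lit 0, [], [nat_lit 250, nat_lit 40, nat_lit 20, nat_lit 40]⟩, C1.Rw.none,
 zbF0, []⟩
noncomputable def p044_l86 : Lf2 := ⟨nat_lit 0, nat_lit 1, [nat_lit 19, nat_lit 5, nat_lit 5, nat_lit 20], false, nat_lit 300, nat_lit 320, nat_lit 0, nat_lit 80, ⟨nat_lit 1000, nat_lit 0, nat_lit 0, nat_lit 0, nat_lit 0, nat_lit 0, nat_lit 0, nat_lit 0, nat_lit 0, nat_lit 0, nat_lit 0, nat_lit 0, nat_lit 0, nat_lit 0, nat_lit 0, nat_lit 0, false, false⟩,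
 nat_lit 0, nat_lit 0, nat_lit 15208, nat_lit 10390, nat_lit 8199, nat_lit 8051, nat_lit 0, nat_lit 0, nat_lit 0, nat_lit 0, nat_lit 0, nat_lit 0, nat_lit 0, nat_lit 16777411274542, nat_lit 0, nat_lit 0, nat_lit 0, nat_lit 0, [],
 ⟨p044_k29, nat_lit 0, nat_lit 0, nat_lit 0, nat_lit 0, nat_lit 0, [nat_lit 4688000000, nat_lit 6250000000], [], [nat_lit 24034625930, nat_lit 24740330110, nat_lit 22553565854, nat_lit 23255896270, nat_lit 25893082674, nat_lit 26598299876, nat_lit 24399094852, nat_lit 25048799434], nat_lit 0, nat_lit 0, nat_lit 0, nat_lit 0, nat_lit 0, nat_lit 0, [], [nat_lit 31, nat_lit 40, nat_lit 40, nat_lit 80]⟩, ⟨p044_k29, nat_lit 0, nat_lit 0, nat_lit 0, nat_lit 0, nat_lit 138283, [nat_lit 4688000000, nat_lit 6250000000], [], [nat_lit 18729753711, nat_lit 19968006522, nat_lit 17001657734, nat_lit 18146182701, nat_lit 13844269508, nat_lit 14825535572, nat_lit 12651620039, nat_lit 13624237009],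 nat_lit 1271250, nat_lit 1271250, nat_lit 88400, nat_lit 181601, nat_lit 0, nat_lit 490000, [nat_lit 1100000, nat_lit 1442500], [nat_lit 31, nat_lit 40, nat_lit 40, nat_lit 80]⟩,
 zbF0, [⟨nat_lit 0, nat_lit 100, nat_lit 100, nat_lit 45, nat_lit 1796659715⟩, ⟨nat_lit 4, nat_lit 86, nat_lit 100, nat_lit 73, nat_lit 990757629⟩]⟩
noncomputable def p044_l87 : Lf2 := ⟨nat_lit 0, nat_lit 1, [nat_lit 19, nat_lit 5, nat_lit 5, nat_lit 20], false, nat_lit 300, nat_lit 320, nat_lit 0, nat_lit 80, ⟨nat_lit 1000, nat_lit 0, nat_lit 0, nat_lit 0, nat_lit 0, nat_lit 0, nat_lit 0, nat_lit 0, nat_lit 0, nat_lit 0, nat_lit 0, nat_lit 0, nat_lit 0, nat_lit 0, nat_lit 0, nat_lit 0, false, false⟩,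
 nat_lit 0, nat_lit 0, nat_lit 19215, nat_lit 51919, nat_lit 18298, nat_lit 10172, nat_lit 14041, nat_lit 799, nat_lit 0, nat_lit 0, nat_lit 0, nat_lit 0, nat_lit 0, nat_lit 0, nat_lit 0, nat_lit 0, nat_lit 0, nat_lit 0, [],
 ⟨p044_k28, nat_lit 0, nat_lit 0, nat_lit 0, nat_lit 0, nat_lit 0, [nat_lit 17472000000, nat_lit 22230000000], [], [nat_lit 34156901450, nat_lit 35743826420, nat_lit 31865649404, nat_lit 32933225138, nat_lit 38426894750, nat_lit 39864399316, nat_lit 35079069406, nat_lit 36517265141], nat_lit 0, nat_lit 0, nat_lit 0, nat_lit 0, nat_lit 0, nat_lit 0, [], [nat_lit 31, nat_lit 40, nat_lit 40, nat_lit 80]⟩, ⟨p044_k29, nat_lit 0, nat_lit 0, nat_lit 0, nat_lit 0, nat_lit 194473, [nat_lit 4688000000, nat_lit 6250000000], [], [nat_lit 21090977688, nat_lit 22124177396, nat_lit 21103482903, nat_lit 19685703752, nat_lit 22415512504, nat_lit 19899193660, nat_lit 22518174189, nat_lit 20012633596],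 nat_lit 1271250, nat_lit 1271250, nat_lit 111251, nat_lit 181601, nat_lit 0, nat_lit 490000, [nat_lit 1100000, nat_lit 1442500], [nat_lit 31, nat_lit 40, nat_lit 40, nat_lit 80]⟩,
 zbF0, [⟨nat_lit 0, nat_lit 100, nat_lit 99, nat_lit 50, nat_lit 1763677264⟩, ⟨nat_lit 4, nat_lit 90, nat_lit 100, nat_lit 74, nat_lit 3377333906⟩]⟩
noncomputable def p044_l88 : Lf2 := ⟨nat_lit 0, nat_lit 1, [nat_lit 19, nat_lit 5, nat_lit 5, nat_lit 20], false, nat_lit 300, nat_lit 320, nat_lit 80, nat_lit 212, ⟨nat_lit 1000, nat_lit 0, nat_lit 0, nat_lit 0, nat_lit 0, nat_lit 0, nat_lit 0, nat_lit 0, nat_lit 0, nat_lit 0, nat_lit 0, nat_lit 0, nat_lit 0, nat_lit 0, nat_lit 0, nat_lit 0, false, false⟩,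
 nat_lit 0, nat_lit 0, nat_lit 14075, nat_lit 2971, nat_lit 8496, nat_lit 7451, nat_lit 0, nat_lit 0, nat_lit 0, nat_lit 0, nat_lit 0, nat_lit 0, nat_lit 0, nat_lit 3228596634058, nat_lit 0, nat_lit 0, nat_lit 0, nat_lit 0, [],
 ⟨p044_k29, nat_lit 0, nat_lit 0, nat_lit 0, nat_lit 0, nat_lit 0, [nat_lit 4688000000, nat_lit 6250000000], [], [nat_lit 23981804599, nat_lit 25510076176, nat_lit 22439371373, nat_lit 23872641414, nat_lit 26129651271, nat_lit 27828316416, nat_lit 24327490765, nat_lit 25859256481], nat_lit 0, nat_lit 0, nat_lit 0, nat_lit 0, nat_lit 0, nat_lit 0, [], [nat_lit 31, nat_lit 40, nat_lit 40, nat_lit 80]⟩, ⟨p044_k29, nat_lit 0, nat_lit 0, nat_lit 0, nat_lit 0, nat_lit 168873, [nat_lit 4688000000, nat_lit 6250000000], [], [nat_lit 9195936659, nat_lit 9910512009, nat_lit 7807827217, nat_lit 8416032083, nat_lit 13853923623, nat_lit 14333080000, nat_lit 12559579482, nat_lit 13035513106], nat_lit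 1271250, nat_lit 1271250, nat_lit 88400, nat_lit 181601, nat_lit 490000, nat_lit 1521250, [nat_lit 1100000, nat_lit 1442500], [nat_lit 31, nat_lit 40, nat_lit 40, nat_lit 80]⟩,
 zbF0, [⟨nat_lit 0, nat_lit 100, nat_lit 99, nat_lit 46, nat_lit 961885024⟩, ⟨nat_lit 4, nat_lit 88, nat_lit 100, nat_lit 74, nat_lit 575779784⟩, ⟨nat_lit 23, nat_lit 84, nat_lit 100, nat_lit 48, nat_lit 858565819⟩]⟩
noncomputable def p044_l89 : Lf2 := ⟨nat_lit 0, nat_lit 1, [nat_lit 19, nat_lit 5, nat_lit 5, nat_lit 20], false, nat_lit 300, nat_lit 320, nat_lit 80, nat_lit 212, ⟨nat_lit 1000, nat_lit 0, nat_lit 0, nat_lit 0, nat_lit 0, nat_lit 0, nat_lit 0, nat_lit 0, nat_lit 0, nat_lit 0, nat_lit 0, nat_lit 0, nat_lit 0, nat_lit 0, nat_lit 0, nat_lit 0, false, false⟩,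
 nat_lit 0, nat_lit 0, nat_lit 20046, nat_lit 0, nat_lit 7822, nat_lit 10873, nat_lit 4378, nat_lit 0, nat_lit 0, nat_lit 0, nat_lit 0, nat_lit 0, nat_lit 0, nat_lit 6993036654181, nat_lit 0, nat_lit 0, nat_lit 0, nat_lit 0, [],
 ⟨p044_k30, nat_lit 0, nat_lit 0, nat_lit 0, nat_lit 0, nat_lit 0, [nat_lit 4688000000, nat_lit 6250000000], [], [nat_lit 23204928889, nat_lit 24282663380, nat_lit 22151324900, nat_lit 23177583981, nat_lit 25261434013, nat_lit 26474583724, nat_lit 23917516393, nat_lit 25126396061], nat_lit 0, nat_lit 0, nat_lit 0, nat_lit 0, nat_lit 0, nat_lit 0, [], [nat_lit 31, nat_lit 40, nat_lit 40, nat_lit 80]⟩, ⟨p044_k30, nat_lit 0, nat_lit 0, nat_lit 0, nat_lit 0, nat_lit 188874, [nat_lit 4688000000, nat_lit 6250000000], [], [nat_lit 10799052000, nat_lit 11528549274, nat_lit 9219739863, nat_lit 9945751157, nat_lit 14911388568, nat_lit 15559779655, nat_lit 13419134030, nat_lit 13977601392],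 nat_lit 1271250, nat_lit 1271250, nat_lit 111251, nat_lit 181601, nat_lit 490000, nat_lit 1521250, [nat_lit 1100000, nat_lit 1442500], [nat_lit 31, nat_lit 40, nat_lit 40, nat_lit 80]⟩,
 zbF0, [⟨nat_lit 0, nat_lit 100, nat_lit 99, nat_lit 50, nat_lit 1202033518⟩, ⟨nat_lit 4, nat_lit 89, nat_lit 100, nat_lit 74, nat_lit 790585943⟩, ⟨nat_lit 23, nat_lit 84, nat_lit 100, nat_lit 49, nat_lit 805144261⟩]⟩
noncomputable def p044_l90 : Lf2 := ⟨nat_lit 0, nat_lit 1, [nat_lit 19, nat_lit 5, nat_lit 5, nat_lit 20], true, nat_lit 300, nat_lit 320, nat_lit 0, nat_lit 212, ⟨nat_lit 0, nat_lit 1000, nat_lit 0, nat_lit 6, nat_lit 87, nat_lit 1000, nat_lit 228, nat_lit 0, nat_lit 0, nat_lit 0, nat_lit 0, nat_lit 0, nat_lit 47402111, nat_lit 3573188, nat_lit 16024701, nat_lit 3922893, false, false⟩,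
 nat_lit 0, nat_lit 0, nat_lit 0, nat_lit 100000, nat_lit 87886, nat_lit 0, nat_lit 0, nat_lit 6557, nat_lit 0, nat_lit 0, nat_lit 0, nat_lit 0, nat_lit 0, nat_lit 39063835822672, nat_lit 0, nat_lit 400000, nat_lit 0, nat_lit 0, [(nat_lit 6, [(nat_lit 1, nat_lit 1000)])],
 ⟨p044_k28, nat_lit 0, nat_lit 0, nat_lit 0, nat_lit 0, nat_lit 0, [nat_lit 107604266667, nat_lit 134170400000], [], [nat_lit 104356538994, nat_lit 109502103816, nat_lit 95283139707, nat_lit 100417203194, nat_lit 118670153024, nat_lit 123272792948, nat_lit 109544622328, nat_lit 114139355372], nat_lit 0, nat_lit 0, nat_lit 0, nat_lit 0, nat_lit 0, nat_lit 0, [], [nat_lit 31, nat_lit 40, nat_lit 40, nat_lit 80]⟩, C1.Rw.none,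
 ⟨nat_lit 5916, nat_lit 6124, ⟨.ofNat (nat_lit 199694), .ofNat (nat_lit 215770), .ofNat (nat_lit 210368), .ofNat (nat_lit 226444), .ofNat (nat_lit 207799), .ofNat (nat_lit 223506), .ofNat (nat_lit 218469), .ofNat (nat_lit 234175)⟩, ⟨.ofNat (nat_lit 530165), .ofNat (nat_lit 570354), .ofNat (nat_lit 572859), .ofNat (nat_lit 613047), .ofNat (nat_lit 525618), .ofNat (nat_lit 564883), .ofNat (nat_lit 568294), .ofNat (nat_lit 607559)⟩⟩, [⟨nat_lit 0, nat_lit 100, nat_lit 100, nat_lit 55, nat_lit 5805332411⟩, ⟨nat_lit 16, nat_lit 100, nat_lit 81, nat_lit 83, nat_lit 5251561466⟩]⟩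
noncomputable def p044_l91 : Lf2 := ⟨nat_lit 0, nat_lit 2, [nat_lit 10, nat_lit 5, nat_lit 5, nat_lit 20], true, nat_lit 300, nat_lit 312, nat_lit 0, nat_lit 212, ⟨nat_lit 0, nat_lit 0, nat_lit 1000, nat_lit 6, nat_lit 76, nat_lit 1000, nat_lit 222, nat_lit 1000, nat_lit 611, nat_lit 219, nat_lit 54150, nat_lit 272, nat_lit 48507782, nat_lit 0, nat_lit 0, nat_lit 3733413, false, false⟩,
 nat_lit 0, nat_lit 0, nat_lit 0, nat_lit 100000, nat_lit 4289, nat_lit 0, nat_lit 0, nat_lit 10, nat_lit 0, nat_lit 0, nat_lit 0, nat_lit 0, nat_lit 0, nat_lit 0, nat_lit 31, nat_lit 400000, nat_lit 0, nat_lit 0, [(nat_lit 6, [(nat_lit 5, nat_lit 1000)])],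
 ⟨p044_k42, nat_lit 0, nat_lit 0, nat_lit 0, nat_lit 0, nat_lit 0, [nat_lit 2073600001, nat_lit 7600000], [], [nat_lit 19360979153, nat_lit 20000713794, nat_lit 18718106023, nat_lit 19122271655, nat_lit 20338159290, nat_lit 20952246630, nat_lit 19444546865, nat_lit 20057398172], nat_lit 0, nat_lit 0, nat_lit 0, nat_lit 0, nat_lit 0, nat_lit 0, [], [nat_lit 39, nat_lit 40, nat_lit 40, nat_lit 80]⟩, C1.Rw.none,
 ⟨nat_lit 6123, nat_lit 6325, ⟨.ofNat (nat_lit 164319), .ofNat (nat_lit 197224), .ofNat (nat_lit 175003), .ofNat (nat_lit 207908), .ofNat (nat_lit 172944), .ofNat (nat_lit 205096), .ofNat (nat_lit 183618), .ofNat (nat_lit 215770)⟩, ⟨.ofNat (nat_lit 534715), .ofNat (nat_lit 559393), .ofNat (nat_lit 556081), .ofNat (nat_lit 580758), .ofNat (nat_lit 530164), .ofNat (nat_lit 554277), .ofNat (nat_lit 551511), .ofNat (nat_lit 575623)⟩⟩, [⟨nat_lit 0, nat_lit 100, nat_lit 100, nat_lit 50, nat_lit 387346151⟩,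 ⟨nat_lit 4, nat_lit 90, nat_lit 100, nat_lit 68, nat_lit 5239067291⟩]⟩
noncomputable def p044_l92 : Lf2 := ⟨nat_lit 1, nat_lit 2, [nat_lit 10, nat_lit 5, nat_lit 5, nat_lit 20], false, nat_lit 300, nat_lit 320, nat_lit 0, nat_lit 212, zbN0,
 nat_lit 0, nat_lit 0, nat_lit 0, nat_lit 0, nat_lit 0, nat_lit 0, nat_lit 0, nat_lit 0, nat_lit 0, nat_lit 0, nat_lit 0, nat_lit 0, nat_lit 0, nat_lit 0, nat_lit 0, nat_lit 0, nat_lit 0, nat_lit 0, [],
 C1.Rw.none, C1.Rw.none,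
 zbF0, []⟩
noncomputable def p044_l93 : Lf2 := ⟨nat_lit 0, nat_lit 2, [nat_lit 10, nat_lit 5, nat_lit 5, nat_lit 20], true, nat_lit 300, nat_lit 320, nat_lit 0, nat_lit 212, ⟨nat_lit 0, nat_lit 1000, nat_lit 0, nat_lit 6, nat_lit 83, nat_lit 1000, nat_lit 228, nat_lit 0, nat_lit 0, nat_lit 0, nat_lit 0, nat_lit 0, nat_lit 47598869, nat_lit 3348235, nat_lit 16052896, nat_lit 3873243, false, false⟩,
 nat_lit 0, nat_lit 0, nat_lit 0, nat_lit 100000, nat_lit 100000, nat_lit 0, nat_lit 0, nat_lit 7404, nat_lit 0, nat_lit 0, nat_lit 0, nat_lit 0, nat_lit 0, nat_lit 30560863390381, nat_lit 0, nat_lit 400000, nat_lit 0, nat_lit 0, [(nat_lit 6, [(nat_lit 1, nat_lit 1000)])],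
 ⟨p044_k23, nat_lit 0, nat_lit 0, nat_lit 0, nat_lit 0, nat_lit 0, [nat_lit 121156266667, nat_lit 136177200001, nat_lit 166043600000], [], [nat_lit 114003288667, nat_lit 119870900667, nat_lit 101262520568, nat_lit 107086145667, nat_lit 132680214000, nat_lit 139067772000, nat_lit 118898679268, nat_lit 124099323867], nat_lit 0, nat_lit 0, nat_lit 0, nat_lit 0, nat_lit 0, nat_lit 0, [], [nat_lit 105, nat_lit 40, nat_lit 20, nat_lit 40]⟩, C1.Rw.none,
 ⟨nat_lit 5916, nat_lit 6124, ⟨.ofNat (nat_lit 180982), .ofNat (nat_lit 205096), .ofNat (nat_lit 202330), .ofNat (nat_lit 226444), .ofNat (nat_lit 189276), .ofNat (nat_lit 212836), .ofNat (nat_lit 210615), .ofNat (nat_lit 234175)⟩, ⟨.ofNat (nat_lit 530165), .ofNat (nat_lit 570354), .ofNat (nat_lit 572859), .ofNat (nat_lit 613047), .ofNat (nat_lit 525618), .ofNat (nat_lit 564883), .ofNat (nat_lit 568294), .ofNat (nat_lit 607559)⟩⟩, [⟨nat_lit 0, nat_lit 100, nat_lit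 99, nat_lit 52, nat_lit 6399739249⟩, ⟨nat_lit 16, nat_lit 100, nat_lit 81, nat_lit 83, nat_lit 5207859297⟩]⟩
noncomputable def p044_l94 : Lf2 := ⟨nat_lit 0, nat_lit 4, [nat_lit 38, nat_lit 5, nat_lit 5, nat_lit 20], true, nat_lit 300, nat_lit 312, nat_lit 0, nat_lit 212, ⟨nat_lit 0, nat_lit 0, nat_lit 1000, nat_lit 6, nat_lit 80, nat_lit 1000, nat_lit 221, nat_lit 1000, nat_lit 586, nat_lit 219, nat_lit 60000, nat_lit 275, nat_lit 48407802, nat_lit 0, nat_lit 0, nat_lit 3776784, false, false⟩,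
 nat_lit 0, nat_lit 0, nat_lit 0, nat_lit 100000, nat_lit 4333, nat_lit 0, nat_lit 0, nat_lit 18, nat_lit 0, nat_lit 0, nat_lit 0, nat_lit 0, nat_lit 0, nat_lit 157899336804756, nat_lit 23, nat_lit 400000, nat_lit 0, nat_lit 0, [(nat_lit 6, [(nat_lit 5, nat_lit 1000)])],
 ⟨p044_k16, nat_lit 0, nat_lit 0, nat_lit 0, nat_lit 0, nat_lit 0, [nat_lit 2073600001, nat_lit 7600000], [], [nat_lit 19535283015, nat_lit 20691378698, nat_lit 18979869057, nat_lit 19790911584, nat_lit 20388406037, nat_lit 21622128171, nat_lit 19583519352, nat_lit 20714859089], nat_lit 0, nat_lit 0, nat_lit 0, nat_lit 0, nat_lit 0, nat_lit 0, [], [nat_lit 39, nat_lit 40, nat_lit 40, nat_lit 80]⟩, C1.Rw.none,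
 ⟨nat_lit 5916, nat_lit 6325, ⟨.ofNat (nat_lit 164319), .ofNat (nat_lit 197224), .ofNat (nat_lit 185687), .ofNat (nat_lit 218592), .ofNat (nat_lit 181423), .ofNat (nat_lit 212836), .ofNat (nat_lit 202762), .ofNat (nat_lit 234175)⟩, ⟨.ofNat (nat_lit 534713), .ofNat (nat_lit 559386), .ofNat (nat_lit 556075), .ofNat (nat_lit 580747), .ofNat (nat_lit 525615), .ofNat (nat_lit 549169), .ofNat (nat_lit 546949), .ofNat (nat_lit 570502)⟩⟩, [⟨nat_lit 0, nat_lit 100, nat_lit 100, nat_lit 50, nat_lit 388878118⟩, ⟨nat_lit 16, nat_lit 100, nat_lit 85, nat_lit 73, nat_lit 11764705882⟩, ⟨nat_lit 4, nat_lit 92, nat_lit 100, nat_lit 68, nat_lit 71767913⟩]⟩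
noncomputable def p044_l95 : Lf2 := ⟨nat_lit 0, nat_lit 4, [nat_lit 38, nat_lit 5, nat_lit 5, nat_lit 20], true, nat_lit 300, nat_lit 320, nat_lit 0, nat_lit 212, ⟨nat_lit 0, nat_lit 0, nat_lit 1000, nat_lit 6, nat_lit 80, nat_lit 1000, nat_lit 233, nat_lit 1000, nat_lit 2976, nat_lit 206, nat_lit 60000, nat_lit 275, nat_lit 47246390, nat_lit 0, nat_lit 0, nat_lit 3870423, false, false⟩,
 nat_lit 0, nat_lit 0, nat_lit 0, nat_lit 100000, nat_lit 4333, nat_lit 0, nat_lit 0, nat_lit 18, nat_lit 0, nat_lit 0, nat_lit 0, nat_lit 0, nat_lit 0, nat_lit 64649180619570, nat_lit 23, nat_lit 400000, nat_lit 0, nat_lit 0, [(nat_lit 6, [(nat_lit 5, nat_lit 1000)])],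
 ⟨p044_k16, nat_lit 0, nat_lit 0, nat_lit 0, nat_lit 0, nat_lit 0, [nat_lit 2073600001, nat_lit 7600000], [], [nat_lit 19535283015, nat_lit 20691378698, nat_lit 18979869057, nat_lit 19790911584, nat_lit 21043371140, nat_lit 22242627818, nat_lit 20135534439, nat_lit 21332701691], nat_lit 0, nat_lit 0, nat_lit 0, nat_lit 0, nat_lit 0, nat_lit 0, [], [nat_lit 39, nat_lit 40, nat_lit 40, nat_lit 80]⟩, C1.Rw.none,
 ⟨nat_lit 5916, nat_lit 6325, ⟨.ofNat (nat_lit 164319), .ofNat (nat_lit 197224), .ofNat (nat_lit 185687), .ofNat (nat_lit 218592), .ofNat (nat_lit 181423), .ofNat (nat_lit 212836), .ofNat (nat_lit 202762), .ofNat (nat_lit 234175)⟩, ⟨.ofNat (nat_lit 556075), .ofNat (nat_lit 597195), .ofNat (nat_lit 577436), .ofNat (nat_lit 618556), .ofNat (nat_lit 546949), .ofNat (nat_lit 586203), .ofNat (nat_lit 568281), .ofNat (nat_lit 607536)⟩⟩, [⟨nat_lit 0, nat_lit 100, nat_lit 100, nat_lit 60, nat_lit 4209488273⟩,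 ⟨nat_lit 16, nat_lit 100, nat_lit 85, nat_lit 78, nat_lit 4045658460⟩]⟩
noncomputable def p044_l96 : Lf2 := ⟨nat_lit 0, nat_lit 4, [nat_lit 38, nat_lit 5, nat_lit 5, nat_lit 20], true, nat_lit 280, nat_lit 320, nat_lit 0, nat_lit 236, ⟨nat_lit 0, nat_lit 0, nat_lit 1000, nat_lit 6, nat_lit 80, nat_lit 1000, nat_lit 221, nat_lit 1000, nat_lit 2976, nat_lit 206, nat_lit 60000, nat_lit 275, nat_lit 48462582, nat_lit 0, nat_lit 0, nat_lit 3772121, false, false⟩,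
 nat_lit 0, nat_lit 0, nat_lit 0, nat_lit 82807, nat_lit 100000, nat_lit 0, nat_lit 0, nat_lit 0, nat_lit 818, nat_lit 0, nat_lit 0, nat_lit 0, nat_lit 0, nat_lit 16999512363870, nat_lit 80, nat_lit 1000000, nat_lit 42419715732, nat_lit 0, [(nat_lit 6, [(nat_lit 6, nat_lit 1000)])],
 ⟨p044_k16, nat_lit 0, nat_lit 0, nat_lit 0, nat_lit 0, nat_lit 0, [nat_lit 2814000001, nat_lit 141466667], [], [nat_lit 20310259200, nat_lit 30094250800, nat_lit 0, nat_lit 9742965199, nat_lit 46715411200, nat_lit 56400528134, nat_lit 26229200000, nat_lit 35586902534], nat_lit 0, nat_lit 0, nat_lit 0, nat_lit 0, nat_lit 0, nat_lit 0, [], [nat_lit 39, nat_lit 40, nat_lit 40, nat_lit 80]⟩, C1.Rw.none,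
 ⟨nat_lit 5916, nat_lit 6325, ⟨.ofNat (nat_lit 164319), .ofNat (nat_lit 197224), .ofNat (nat_lit 185687), .ofNat (nat_lit 218592), .ofNat (nat_lit 181423), .ofNat (nat_lit 212836), .ofNat (nat_lit 202762), .ofNat (nat_lit 234175)⟩, ⟨.ofNat (nat_lit 493584), .ofNat (nat_lit 575835), .ofNat (nat_lit 536315), .ofNat (nat_lit 618556), .ofNat (nat_lit 486351), .ofNat (nat_lit 564872), .ofNat (nat_lit 529025), .ofNat (nat_lit 607536)⟩⟩, [⟨nat_lit 0, nat_lit 100, nat_lit 100, nat_lit 50, nat_lit 6515659378⟩, ⟨nat_lit 4, nat_lit 88, nat_lit 100, nat_lit 74, nat_lit 3869224604⟩]⟩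
noncomputable def p044_l97 : Lf2 := ⟨nat_lit 0, nat_lit 4, [nat_lit 38, nat_lit 5, nat_lit 5, nat_lit 20], true, nat_lit 280, nat_lit 320, nat_lit 0, nat_lit 236, ⟨nat_lit 0, nat_lit 0, nat_lit 1000, nat_lit 6, nat_lit 80, nat_lit 1000, nat_lit 221, nat_lit 1000, nat_lit 2976, nat_lit 206, nat_lit 60000, nat_lit 275, nat_lit 48462582, nat_lit 0, nat_lit 0, nat_lit 3772121, false, false⟩,
 nat_lit 0, nat_lit 0, nat_lit 0, nat_lit 89525, nat_lit 100000, nat_lit 0, nat_lit 0, nat_lit 0, nat_lit 0, nat_lit 0, nat_lit 0, nat_lit 0, nat_lit 0, nat_lit 27939487143324, nat_lit 80, nat_lit 1000000, nat_lit 22787715732, nat_lit 0, [(nat_lit 6, [(nat_lit 6, nat_lit 1000)])],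
 ⟨p044_k16, nat_lit 0, nat_lit 0, nat_lit 0, nat_lit 0, nat_lit 0, [nat_lit 2814000001, nat_lit 141466667], [], [nat_lit 20310259200, nat_lit 30094250800, nat_lit 0, nat_lit 9742965199, nat_lit 46715411200, nat_lit 54468989600, nat_lit 26229200000, nat_lit 33966852799], nat_lit 0, nat_lit 0, nat_lit 0, nat_lit 0, nat_lit 0, nat_lit 0, [], [nat_lit 39, nat_lit 40, nat_lit 40, nat_lit 80]⟩, C1.Rw.none,
 ⟨nat_lit 5916, nat_lit 6325, ⟨.ofNat (nat_lit 164319), .ofNat (nat_lit 197224), .ofNat (nat_lit 185687), .ofNat (nat_lit 218592), .ofNat (nat_lit 181423), .ofNat (nat_lit 212836), .ofNat (nat_lit 202762), .ofNat (nat_lit 234175)⟩, ⟨.ofNat (nat_lit 493584), .ofNat (nat_lit 575835), .ofNat (nat_lit 536315), .ofNat (nat_lit 618556), .ofNat (nat_lit 486351), .ofNat (nat_lit 564872), .ofNat (nat_lit 529025), .ofNat (nat_lit 607536)⟩⟩, [⟨nat_lit 0, nat_lit 100, nat_lit 100, nat_lit 50, nat_lit 6519066501⟩, ⟨nat_lit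 4, nat_lit 88, nat_lit 100, nat_lit 74, nat_lit 4192392793⟩]⟩
noncomputable def p044_l98 : Lf2 := ⟨nat_lit 0, nat_lit 4, [nat_lit 38, nat_lit 5, nat_lit 5, nat_lit 20], true, nat_lit 280, nat_lit 320, nat_lit 0, nat_lit 248, ⟨nat_lit 0, nat_lit 1000, nat_lit 0, nat_lit 6, nat_lit 89, nat_lit 1000, nat_lit 221, nat_lit 0, nat_lit 0, nat_lit 0, nat_lit 0, nat_lit 0, nat_lit 47940747, nat_lit 3759390, nat_lit 15299863, nat_lit 3902253, false, false⟩,
 nat_lit 0, nat_lit 0, nat_lit 0, nat_lit 100000, nat_lit 100000, nat_lit 0, nat_lit 0, nat_lit 7362, nat_lit 0, nat_lit 0, nat_lit 0, nat_lit 0, nat_lit 0, nat_lit 32298623022192, nat_lit 0, nat_lit 400000, nat_lit 0, nat_lit 0, [(nat_lit 6, [(nat_lit 1, nat_lit 1000)])],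
 ⟨p044_k16, nat_lit 0, nat_lit 0, nat_lit 0, nat_lit 0, nat_lit 0, [nat_lit 120630000000, nat_lit 179949466667], [], [nat_lit 81490259601, nat_lit 94311166201, nat_lit 71227386000, nat_lit 84014210000, nat_lit 114980508801, nat_lit 125354300801, nat_lit 104591448000, nat_lit 114944374000], nat_lit 0, nat_lit 0, nat_lit 0, nat_lit 0, nat_lit 0, nat_lit 0, [], [nat_lit 39, nat_lit 40, nat_lit 40, nat_lit 80]⟩, C1.Rw.none,
 ⟨nat_lit 5916, nat_lit 6325, ⟨.ofNat (nat_lit 197224), .ofNat (nat_lit 213677), .ofNat (nat_lit 218592), .ofNat (nat_lit 235045), .ofNat (nat_lit 212836), .ofNat (nat_lit 228543), .ofNat (nat_lit 234175), .ofNat (nat_lit 249882)⟩, ⟨.ofNat (nat_lit 493584), .ofNat (nat_lit 575835), .ofNat (nat_lit 536315), .ofNat (nat_lit 618556), .ofNat (nat_lit 486351), .ofNat (nat_lit 564872), .ofNat (nat_lit 529025), .ofNat (nat_lit 607536)⟩⟩, [⟨nat_lit 0, nat_lit 100, nat_lit 100, nat_lit 60, nat_lit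 5385958467⟩, ⟨nat_lit 16, nat_lit 100, nat_lit 76, nat_lit 82, nat_lit 5589897449⟩]⟩
noncomputable def b_V_600_600_10_10 : St := ⟨true, nat_lit 0, nat_lit 1, nat_lit 1, nat_lit 80, nat_lit 240, nat_lit 260, nat_lit 240, nat_lit 260, nat_lit 16, nat_lit 40, nat_lit 40, nat_lit 80, nat_lit 280, nat_lit 320, nat_lit 0, nat_lit 248, nat_lit 0, nat_lit 16, nat_lit 460, nat_lit 600, nat_lit 0, nat_lit 800⟩
theorem d_V_600_600_10_10 (h : EB TB.env) : Dead b_V_600_600_10_10 := chkB_sound0 h (T :=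
(.spl (nat_lit 2) (nat_lit 32)
(.trX (nat_lit 23) (nat_lit 93) (nat_lit 100) (nat_lit 55) (nat_lit 236) (.spl (nat_lit 7) (nat_lit 540)
(.spl (nat_lit 7) (nat_lit 500)
(.spl (nat_lit 4) (nat_lit 300)
(.leaf p044_l85)
(.trX (nat_lit 23) (nat_lit 87) (nat_lit 100) (nat_lit 54) (nat_lit 212) (.spl (nat_lit 6) (nat_lit 8)
(.spl (nat_lit 6) (nat_lit 4)
(.spl (nat_lit 1) (nat_lit 250)
(.spl (nat_lit 5) (nat_lit 80)
(.spl (nat_lit 0) (nat_lit 250)
(.leaf p044_l86)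
(.trZ (nat_lit 0) (nat_lit 100) (nat_lit 99) (nat_lit 45) (nat_lit 20) (.leaf p044_l87)))
(.spl (nat_lit 1) (nat_lit 245)
(.leaf p044_l88)
(.ord (.trZ (nat_lit 0) (nat_lit 100) (nat_lit 100) (nat_lit 45) (nat_lit 20) (.leaf p044_l89)))))
(.ord (.trZ (nat_lit 0) (nat_lit 100) (nat_lit 100) (nat_lit 50) (nat_lit 24) (.leaf p044_l90))))
(.spl (nat_lit 0) (nat_lit 250)
(.ord (.spl (nat_lit 3) (nat_lit 60)
(.trX (nat_lit 16) (nat_lit 100) (nat_lit 85) (nat_lit 73) (nat_lit 312) (.leaf p044_l91))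
(.leaf p044_l92)))
(.trZ (nat_lit 0) (nat_lit 100) (nat_lit 99) (nat_lit 45) (nat_lit 20) (.leaf p044_l93))))
(.spl (nat_lit 3) (nat_lit 60)
(.trX (nat_lit 16) (nat_lit 100) (nat_lit 85) (nat_lit 73) (nat_lit 312) (.leaf p044_l94))
(.leaf p044_l95)))))
(.leaf p044_l96))
(.leaf p044_l97)))
(.leaf p044_l98))) (by decide +kernel)
noncomputable def p044_l99 : Lf2 := ⟨nat_lit 0, nat_lit 6, [nat_lit 47, nat_lit 5, nat_lit 5, nat_lit 20], true, nat_lit 280, nat_lit 312, nat_lit 0, nat_lit 236, ⟨nat_lit 0, nat_lit 0, nat_lit 1000, nat_lit 6, nat_lit 80, nat_lit 1000, nat_lit 213, nat_lit 1000, nat_lit 586, nat_lit 219, nat_lit 60000, nat_lit 275, nat_lit 49202324, nat_lit 0, nat_lit 0, nat_lit 3706909, false, false⟩,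
 nat_lit 0, nat_lit 0, nat_lit 0, nat_lit 100000, nat_lit 4528, nat_lit 0, nat_lit 0, nat_lit 0, nat_lit 0, nat_lit 0, nat_lit 0, nat_lit 0, nat_lit 0, nat_lit 73945450421739, nat_lit 97, nat_lit 616600, nat_lit 0, nat_lit 0, [(nat_lit 6, [(nat_lit 5, nat_lit 639), (nat_lit 6, nat_lit 361)])],
 ⟨p044_k0, nat_lit 0, nat_lit 0, nat_lit 0, nat_lit 0, nat_lit 0, [nat_lit 3254934400, nat_lit 2776000], [], [nat_lit 18149367738, nat_lit 19329916448, nat_lit 17421309012, nat_lit 18385511085, nat_lit 20611090483, nat_lit 21869397921, nat_lit 19656673858, nat_lit 20912560775], nat_lit 0, nat_lit 0, nat_lit 0, nat_lit 0, nat_lit 0, nat_lit 0, [], [nat_lit 70, nat_lit 40, nat_lit 40, nat_lit 80]⟩, C1.Rw.none,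
 ⟨nat_lit 5916, nat_lit 6325, ⟨.ofNat (nat_lit 164319), .ofNat (nat_lit 197224), .ofNat (nat_lit 185687), .ofNat (nat_lit 218592), .ofNat (nat_lit 181423), .ofNat (nat_lit 212836), .ofNat (nat_lit 202762), .ofNat (nat_lit 234175)⟩, ⟨.ofNat (nat_lit 493584), .ofNat (nat_lit 559386), .ofNat (nat_lit 514952), .ofNat (nat_lit 580747), .ofNat (nat_lit 486351), .ofNat (nat_lit 549169), .ofNat (nat_lit 507691), .ofNat (nat_lit 570502)⟩⟩, [⟨nat_lit 0, nat_lit 100, nat_lit 100, nat_lit 60, nat_lit 3815093906⟩, ⟨nat_lit 16, nat_lit 100, nat_lit 92, nat_lit 68, nat_lit 5052984994⟩]⟩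
noncomputable def p044_l100 : Lf2 := ⟨nat_lit 1, nat_lit 6, [nat_lit 47, nat_lit 5, nat_lit 5, nat_lit 20], false, nat_lit 280, nat_lit 320, nat_lit 0, nat_lit 236, zbN0,
 nat_lit 0, nat_lit 0, nat_lit 0, nat_lit 0, nat_lit 0, nat_lit 0, nat_lit 0, nat_lit 0, nat_lit 0, nat_lit 0, nat_lit 0, nat_lit 0, nat_lit 0, nat_lit 0, nat_lit 0, nat_lit 0, nat_lit 0, nat_lit 0, [],
 C1.Rw.none, C1.Rw.none,
 zbF0, []⟩
noncomputable def p044_l101 : Lf2 := ⟨nat_lit 0, nat_lit 6, [nat_lit 47, nat_lit 5, nat_lit 5, nat_lit 20], false, nat_lit 280, nat_lit 320, nat_lit 0, nat_lit 248, ⟨nat_lit 1000, nat_lit 0, nat_lit 0, nat_lit 0, nat_lit 0, nat_lit 0, nat_lit 0, nat_lit 0, nat_lit 0, nat_lit 0, nat_lit 0, nat_lit 0, nat_lit 0, nat_lit 0, nat_lit 0, nat_lit 0, false, false⟩,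
 nat_lit 0, nat_lit 0, nat_lit 28996, nat_lit 8110, nat_lit 6839, nat_lit 15350, nat_lit 0, nat_lit 0, nat_lit 0, nat_lit 987, nat_lit 0, nat_lit 0, nat_lit 0, nat_lit 23162133850505, nat_lit 0, nat_lit 0, nat_lit 0, nat_lit 0, [],
 ⟨p044_k43, nat_lit 0, nat_lit 0, nat_lit 0, nat_lit 0, nat_lit 0, [nat_lit 4688000000, nat_lit 6250000000, nat_lit 8885500000], [], [nat_lit 18119608193, nat_lit 19609503085, nat_lit 17669001644, nat_lit 19152043826, nat_lit 22394802652, nat_lit 23896182198, nat_lit 21785994504, nat_lit 23283804358], nat_lit 0, nat_lit 0, nat_lit 0, nat_lit 0, nat_lit 0, nat_lit 0, [], [nat_lit 123, nat_lit 40, nat_lit 20, nat_lit 40]⟩, ⟨p044_k43, nat_lit 0, nat_lit 0, nat_lit 0, nat_lit 0, nat_lit 68975, [nat_lit 4688000000, nat_lit 6250000000, nat_lit 8885500000], [], [nat_lit 25024896175, nat_lit 28317810835, nat_lit 23564661375, nat_lit 26846596875, nat_lit 17865628048, nat_lit 19988231608,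 nat_lit 16698282895, nat_lit 18810485855], nat_lit 1271250, nat_lit 1271250, nat_lit 181601, nat_lit 230001, nat_lit 0, nat_lit 1751500, [nat_lit 1100000, nat_lit 1442500, nat_lit 1271250], [nat_lit 123, nat_lit 40, nat_lit 20, nat_lit 40]⟩,
 zbF0, [⟨nat_lit 0, nat_lit 100, nat_lit 100, nat_lit 60, nat_lit 1741494437⟩, ⟨nat_lit 4, nat_lit 88, nat_lit 100, nat_lit 74, nat_lit 1412453291⟩]⟩
noncomputable def b_V_600_600_10_11 : St := ⟨true, nat_lit 0, nat_lit 1, nat_lit 1, nat_lit 80, nat_lit 240, nat_lit 260, nat_lit 240, nat_lit 260, nat_lit 16, nat_lit 40, nat_lit 40, nat_lit 80, nat_lit 280, nat_lit 320, nat_lit 0, nat_lit 248, nat_lit 16, nat_lit 24, nat_lit 300, nat_lit 600, nat_lit 0, nat_lit 800⟩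
theorem d_V_600_600_10_11 (h : EB TB.env) : Dead b_V_600_600_10_11 := chkB_sound0 h (T :=
(.spl (nat_lit 2) (nat_lit 32)
(.trX (nat_lit 23) (nat_lit 93) (nat_lit 100) (nat_lit 55) (nat_lit 236) (.spl (nat_lit 3) (nat_lit 60)
(.trX (nat_lit 16) (nat_lit 100) (nat_lit 85) (nat_lit 73) (nat_lit 312) (.leaf p044_l99))
(.leaf p044_l100)))
(.leaf p044_l101))) (by decide +kernel)
noncomputable def p044_l102 : Lf2 := ⟨nat_lit 0, nat_lit 4, [nat_lit 38, nat_lit 5, nat_lit 5, nat_lit 20], true, nat_lit 280, nat_lit 312, nat_lit 0, nat_lit 276, ⟨nat_lit 0, nat_lit 1000, nat_lit 0, nat_lit 6, nat_lit 95, nat_lit 1000, nat_lit 214, nat_lit 0, nat_lit 0, nat_lit 0, nat_lit 0, nat_lit 0, nat_lit 48198576, nat_lit 4156547, nat_lit 14644877, nat_lit 3929506, false, false⟩,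
 nat_lit 0, nat_lit 0, nat_lit 0, nat_lit 8585, nat_lit 4943, nat_lit 0, nat_lit 0, nat_lit 0, nat_lit 0, nat_lit 0, nat_lit 0, nat_lit 0, nat_lit 0, nat_lit 3218489379428, nat_lit 0, nat_lit 400000, nat_lit 0, nat_lit 0, [(nat_lit 6, [(nat_lit 1, nat_lit 1000)])],
 ⟨p044_k19, nat_lit 0, nat_lit 0, nat_lit 68, nat_lit 0, nat_lit 0, [nat_lit 2692266667, nat_lit 3030400001, nat_lit 3280799999], [], [nat_lit 17166625869, nat_lit 17479159904, nat_lit 16845628926, nat_lit 17152729283, nat_lit 19539557228, nat_lit 19821927468, nat_lit 19174569806, nat_lit 19452258385], nat_lit 0, nat_lit 0, nat_lit 0, nat_lit 0, nat_lit 0, nat_lit 0, [], [nat_lit 9, nat_lit 40, nat_lit 40, nat_lit 80, nat_lit 2, nat_lit 226, nat_lit 20, nat_lit 7]⟩, C1.Rw.none,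
 ⟨nat_lit 6224, nat_lit 6325, ⟨.ofNat (nat_lit 213677), .ofNat (nat_lit 254809), .ofNat (nat_lit 219019), .ofNat (nat_lit 260151), .ofNat (nat_lit 217441), .ofNat (nat_lit 258100), .ofNat (nat_lit 222780), .ofNat (nat_lit 263439)⟩, ⟨.ofNat (nat_lit 493584), .ofNat (nat_lit 559395), .ofNat (nat_lit 514952), .ofNat (nat_lit 580762), .ofNat (nat_lit 491781), .ofNat (nat_lit 556834), .ofNat (nat_lit 513137), .ofNat (nat_lit 578190)⟩⟩, [⟨nat_lit 4, nat_lit 89, nat_lit 100, nat_lit 68, nat_lit 415519404⟩]⟩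
noncomputable def p044_l103 : Lf2 := ⟨nat_lit 0, nat_lit 1, [nat_lit 19, nat_lit 5, nat_lit 5, nat_lit 20], true, nat_lit 280, nat_lit 308, nat_lit 0, nat_lit 260, ⟨nat_lit 0, nat_lit 1000, nat_lit 0, nat_lit 6, nat_lit 92, nat_lit 1000, nat_lit 212, nat_lit 0, nat_lit 0, nat_lit 0, nat_lit 0, nat_lit 0, nat_lit 48600297, nat_lit 3964464, nat_lit 14435239, nat_lit 3868285, false, false⟩,
 nat_lit 0, nat_lit 0, nat_lit 0, nat_lit 7834, nat_lit 4964, nat_lit 0, nat_lit 0, nat_lit 0, nat_lit 0, nat_lit 0, nat_lit 0, nat_lit 0, nat_lit 0, nat_lit 23686785107372, nat_lit 0, nat_lit 400000, nat_lit 0, nat_lit 0, [(nat_lit 6, [(nat_lit 1, nat_lit 1000)])],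
 ⟨p044_k30, nat_lit 0, nat_lit 0, nat_lit 53, nat_lit 0, nat_lit 0, [nat_lit 2692266667, nat_lit 3030400000], [], [nat_lit 17465685369, nat_lit 17653588093, nat_lit 17333905639, nat_lit 17520500515, nat_lit 19520219576, nat_lit 19692233347, nat_lit 19373260873, nat_lit 19544125262], nat_lit 0, nat_lit 0, nat_lit 0, nat_lit 0, nat_lit 0, nat_lit 0, [], [nat_lit 31, nat_lit 40, nat_lit 40, nat_lit 80, nat_lit 3, nat_lit 226, nat_lit 20, nat_lit 8]⟩, C1.Rw.none,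
 ⟨nat_lit 6164, nat_lit 6225, ⟨.ofNat (nat_lit 217441), .ofNat (nat_lit 233705), .ofNat (nat_lit 225984), .ofNat (nat_lit 242247), .ofNat (nat_lit 219683), .ofNat (nat_lit 235834), .ofNat (nat_lit 228224), .ofNat (nat_lit 244375)⟩, ⟨.ofNat (nat_lit 491781), .ofNat (nat_lit 548703), .ofNat (nat_lit 513137), .ofNat (nat_lit 570059), .ofNat (nat_lit 490698), .ofNat (nat_lit 547225), .ofNat (nat_lit 512049), .ofNat (nat_lit 568576)⟩⟩, [⟨nat_lit 16, nat_lit 100, nat_lit 86, nat_lit 73, nat_lit 388292803⟩]⟩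
noncomputable def p044_l104 : Lf2 := ⟨nat_lit 0, nat_lit 1, [nat_lit 19, nat_lit 5, nat_lit 5, nat_lit 20], false, nat_lit 280, nat_lit 308, nat_lit 0, nat_lit 160, ⟨nat_lit 1000, nat_lit 0, nat_lit 0, nat_lit 0, nat_lit 0, nat_lit 0, nat_lit 0, nat_lit 0, nat_lit 0, nat_lit 0, nat_lit 0, nat_lit 0, nat_lit 0, nat_lit 0, nat_lit 0, nat_lit 0, false, false⟩,
 nat_lit 0, nat_lit 0, nat_lit 17007, nat_lit 0, nat_lit 6638, nat_lit 9003, nat_lit 0, nat_lit 0, nat_lit 0, nat_lit 0, nat_lit 0, nat_lit 0, nat_lit 0, nat_lit 6364897090747, nat_lit 0, nat_lit 0, nat_lit 0, nat_lit 0, [],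
 ⟨p044_k44, nat_lit 0, nat_lit 0, nat_lit 54, nat_lit 0, nat_lit 0, [nat_lit 4688000000, nat_lit 6250000000], [], [nat_lit 18605683536, nat_lit 18751268686, nat_lit 18490862926, nat_lit 18635912106, nat_lit 21007796308, nat_lit 21139974395, nat_lit 20883673059, nat_lit 21015382351], nat_lit 0, nat_lit 0, nat_lit 0, nat_lit 0, nat_lit 0, nat_lit 0, [], [nat_lit 31, nat_lit 40, nat_lit 40, nat_lit 80, nat_lit 3, nat_lit 226, nat_lit 20, nat_lit 8]⟩, ⟨p044_k29, nat_lit 0, nat_lit 0, nat_lit 259, nat_lit 0, nat_lit 128680, [nat_lit 4688000000, nat_lit 6250000000], [], [nat_lit 15792044176, nat_lit 17122258870, nat_lit 15584596261, nat_lit 16910195813, nat_lit 12305603448, nat_lit 12079267632, nat_lit 12368047002, nat_lit 11952211765], nat_lit 1271250, nat_lit 1271250, nat_lit 230001, nat_lit 254650, nat_lit 0, nat_lit 1100001, [nat_lit 1100000, nat_lit 1442500], [nat_lit 31, nat_lit 40, nat_lit 40, nat_lit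 80, nat_lit 3, nat_lit 272, nat_lit 60, nat_lit 11]⟩,
 zbF0, [⟨nat_lit 16, nat_lit 100, nat_lit 88, nat_lit 74, nat_lit 780868381⟩, ⟨nat_lit 4, nat_lit 92, nat_lit 100, nat_lit 68, nat_lit 146388464⟩]⟩
noncomputable def p044_l105 : Lf2 := ⟨nat_lit 0, nat_lit 1, [nat_lit 19, nat_lit 5, nat_lit 5, nat_lit 20], false, nat_lit 280, nat_lit 308, nat_lit 160, nat_lit 256, ⟨nat_lit 1000, nat_lit 0, nat_lit 0, nat_lit 0, nat_lit 0, nat_lit 0, nat_lit 0, nat_lit 0, nat_lit 0, nat_lit 0, nat_lit 0, nat_lit 0, nat_lit 0, nat_lit 0, nat_lit 0, nat_lit 0, false, false⟩,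
 nat_lit 0, nat_lit 0, nat_lit 13976, nat_lit 0, nat_lit 7031, nat_lit 7399, nat_lit 0, nat_lit 0, nat_lit 0, nat_lit 0, nat_lit 0, nat_lit 0, nat_lit 0, nat_lit 15791398404648, nat_lit 0, nat_lit 0, nat_lit 0, nat_lit 0, [],
 ⟨p044_k44, nat_lit 0, nat_lit 0, nat_lit 54, nat_lit 0, nat_lit 0, [nat_lit 4688000000, nat_lit 6250000000], [], [nat_lit 18360671773, nat_lit 18511026607, nat_lit 18234517358, nat_lit 18384312740, nat_lit 21288791733, nat_lit 21448404664, nat_lit 21109098155, nat_lit 21268239066], nat_lit 0, nat_lit 0, nat_lit 0, nat_lit 0, nat_lit 0, nat_lit 0, [], [nat_lit 31, nat_lit 40, nat_lit 40, nat_lit 80, nat_lit 3, nat_lit 226, nat_lit 20, nat_lit 8]⟩, ⟨p044_k29, nat_lit 0, nat_lit 0, nat_lit 179, nat_lit 0, nat_lit 128680, [nat_lit 4688000000, nat_lit 6250000000], [], [nat_lit 8645815708, nat_lit 9711878167, nat_lit 8542636708, nat_lit 9604457140, nat_lit 15261026418, nat_lit 16098074090,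 nat_lit 15135509735, nat_lit 15969334342], nat_lit 1271250, nat_lit 1271250, nat_lit 230001, nat_lit 254650, nat_lit 1100001, nat_lit 1922000, [nat_lit 1100000, nat_lit 1442500], [nat_lit 31, nat_lit 40, nat_lit 40, nat_lit 80, nat_lit 3, nat_lit 289, nat_lit 75, nat_lit 11]⟩,
 zbF0, [⟨nat_lit 4, nat_lit 92, nat_lit 100, nat_lit 68, nat_lit 690334273⟩, ⟨nat_lit 23, nat_lit 95, nat_lit 100, nat_lit 65, nat_lit 876954098⟩]⟩
noncomputable def p044_l106 : Lf2 := ⟨nat_lit 0, nat_lit 1, [nat_lit 19, nat_lit 5, nat_lit 5, nat_lit 20], true, nat_lit 280, nat_lit 308, nat_lit 0, nat_lit 260, ⟨nat_lit 0, nat_lit 1000, nat_lit 0, nat_lit 6, nat_lit 95, nat_lit 1000, nat_lit 212, nat_lit 0, nat_lit 0, nat_lit 0, nat_lit 0, nat_lit 0, nat_lit 48481270, nat_lit 4143280, nat_lit 14375450, nat_lit 3901335, false, false⟩,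
 nat_lit 0, nat_lit 0, nat_lit 0, nat_lit 2349, nat_lit 4974, nat_lit 0, nat_lit 0, nat_lit 0, nat_lit 0, nat_lit 0, nat_lit 0, nat_lit 0, nat_lit 0, nat_lit 15090849765354, nat_lit 0, nat_lit 400000, nat_lit 0, nat_lit 0, [(nat_lit 6, [(nat_lit 1, nat_lit 1000)])],
 ⟨p044_k44, nat_lit 0, nat_lit 0, nat_lit 52, nat_lit 0, nat_lit 0, [nat_lit 2692266667, nat_lit 3030400000], [], [nat_lit 17580521516, nat_lit 17705474818, nat_lit 17513689335, nat_lit 17638206091, nat_lit 19613817061, nat_lit 19728213823, nat_lit 19539463919, nat_lit 19653477041], nat_lit 0, nat_lit 0, nat_lit 0, nat_lit 0, nat_lit 0, nat_lit 0, [], [nat_lit 31, nat_lit 40, nat_lit 40, nat_lit 80, nat_lit 3, nat_lit 226, nat_lit 20, nat_lit 8]⟩, C1.Rw.none,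
 ⟨nat_lit 6123, nat_lit 6165, ⟨.ofNat (nat_lit 227759), .ofNat (nat_lit 235834), .ofNat (nat_lit 238435), .ofNat (nat_lit 246510), .ofNat (nat_lit 229210), .ofNat (nat_lit 237248), .ofNat (nat_lit 239884), .ofNat (nat_lit 247922)⟩, ⟨.ofNat (nat_lit 490698), .ofNat (nat_lit 547226), .ofNat (nat_lit 512049), .ofNat (nat_lit 568577), .ofNat (nat_lit 489975), .ofNat (nat_lit 546241), .ofNat (nat_lit 511323), .ofNat (nat_lit 567589)⟩⟩, [⟨nat_lit 16, nat_lit 100, nat_lit 88, nat_lit 74, nat_lit 381869627⟩]⟩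
noncomputable def p044_l107 : Lf2 := ⟨nat_lit 0, nat_lit 2, [nat_lit 10, nat_lit 5, nat_lit 5, nat_lit 20], true, nat_lit 280, nat_lit 308, nat_lit 0, nat_lit 260, ⟨nat_lit 0, nat_lit 1000, nat_lit 0, nat_lit 6, nat_lit 93, nat_lit 1000, nat_lit 212, nat_lit 0, nat_lit 0, nat_lit 0, nat_lit 0, nat_lit 0, nat_lit 48575439, nat_lit 4010759, nat_lit 14413802, nat_lit 3876355, false, false⟩,
 nat_lit 0, nat_lit 0, nat_lit 0, nat_lit 8795, nat_lit 4948, nat_lit 0, nat_lit 0, nat_lit 0, nat_lit 0, nat_lit 0, nat_lit 0, nat_lit 0, nat_lit 0, nat_lit 25158282964927, nat_lit 0, nat_lit 400000, nat_lit 0, nat_lit 0, [(nat_lit 6, [(nat_lit 1, nat_lit 1000)])],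
 ⟨p044_k45, nat_lit 0, nat_lit 0, nat_lit 68, nat_lit 0, nat_lit 0, [nat_lit 2692266667, nat_lit 3030400001, nat_lit 3280799999], [], [nat_lit 17475951681, nat_lit 17788637423, nat_lit 17345091937, nat_lit 17655602714, nat_lit 19526971535, nat_lit 19813242941, nat_lit 19380967493, nat_lit 19665327355], nat_lit 0, nat_lit 0, nat_lit 0, nat_lit 0, nat_lit 0, nat_lit 0, [], [nat_lit 9, nat_lit 40, nat_lit 40, nat_lit 80, nat_lit 2, nat_lit 226, nat_lit 20, nat_lit 7]⟩, C1.Rw.none,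
 ⟨nat_lit 6123, nat_lit 6225, ⟨.ofNat (nat_lit 217441), .ofNat (nat_lit 233705), .ofNat (nat_lit 228119), .ofNat (nat_lit 244383), .ofNat (nat_lit 221172), .ofNat (nat_lit 237248), .ofNat (nat_lit 231846), .ofNat (nat_lit 247922)⟩, ⟨.ofNat (nat_lit 491781), .ofNat (nat_lit 548702), .ofNat (nat_lit 513137), .ofNat (nat_lit 570059), .ofNat (nat_lit 489975), .ofNat (nat_lit 546241), .ofNat (nat_lit 511323), .ofNat (nat_lit 567589)⟩⟩, [⟨nat_lit 4, nat_lit 91, nat_lit 100, nat_lit 68, nat_lit 415418847⟩]⟩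
noncomputable def p044_l108 : Lf2 := ⟨nat_lit 0, nat_lit 4, [nat_lit 38, nat_lit 5, nat_lit 5, nat_lit 20], true, nat_lit 280, nat_lit 308, nat_lit 0, nat_lit 260, ⟨nat_lit 0, nat_lit 1000, nat_lit 0, nat_lit 6, nat_lit 93, nat_lit 1000, nat_lit 212, nat_lit 0, nat_lit 0, nat_lit 0, nat_lit 0, nat_lit 0, nat_lit 48575439, nat_lit 4010759, nat_lit 14413802, nat_lit 3876355, false, false⟩,
 nat_lit 0, nat_lit 0, nat_lit 0, nat_lit 11089, nat_lit 5264, nat_lit 0, nat_lit 0, nat_lit 0, nat_lit 0, nat_lit 0, nat_lit 0, nat_lit 0, nat_lit 0, nat_lit 28721831430502, nat_lit 0, nat_lit 400000, nat_lit 0, nat_lit 0, [(nat_lit 6, [(nat_lit 1, nat_lit 1000)])],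
 ⟨p044_k26, nat_lit 0, nat_lit 0, nat_lit 68, nat_lit 0, nat_lit 0, [nat_lit 2692266667, nat_lit 3030400001, nat_lit 3280799999], [], [nat_lit 17273192019, nat_lit 17595465675, nat_lit 17124162544, nat_lit 17444166830, nat_lit 19718790768, nat_lit 20060656228, nat_lit 19488491312, nat_lit 19828419226], nat_lit 0, nat_lit 0, nat_lit 0, nat_lit 0, nat_lit 0, nat_lit 0, [], [nat_lit 9, nat_lit 40, nat_lit 40, nat_lit 80, nat_lit 2, nat_lit 226, nat_lit 20, nat_lit 7]⟩, C1.Rw.none,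
 ⟨nat_lit 6123, nat_lit 6225, ⟨.ofNat (nat_lit 217441), .ofNat (nat_lit 233705), .ofNat (nat_lit 228119), .ofNat (nat_lit 244383), .ofNat (nat_lit 221172), .ofNat (nat_lit 237248), .ofNat (nat_lit 231846), .ofNat (nat_lit 247922)⟩, ⟨.ofNat (nat_lit 491781), .ofNat (nat_lit 548702), .ofNat (nat_lit 513137), .ofNat (nat_lit 570059), .ofNat (nat_lit 489975), .ofNat (nat_lit 546241), .ofNat (nat_lit 511323), .ofNat (nat_lit 567589)⟩⟩, [⟨nat_lit 4, nat_lit 91, nat_lit 100, nat_lit 68, nat_lit 531343400⟩]⟩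
noncomputable def p044_l109 : Lf2 := ⟨nat_lit 0, nat_lit 4, [nat_lit 38, nat_lit 5, nat_lit 5, nat_lit 20], true, nat_lit 280, nat_lit 308, nat_lit 0, nat_lit 276, ⟨nat_lit 0, nat_lit 1000, nat_lit 0, nat_lit 6, nat_lit 101, nat_lit 1000, nat_lit 212, nat_lit 0, nat_lit 0, nat_lit 0, nat_lit 0, nat_lit 0, nat_lit 48101292, nat_lit 4538288, nat_lit 14360420, nat_lit 3982738, false, false⟩,
 nat_lit 0, nat_lit 0, nat_lit 0, nat_lit 3011, nat_lit 5001, nat_lit 0, nat_lit 0, nat_lit 0, nat_lit 0, nat_lit 0, nat_lit 0, nat_lit 0, nat_lit 0, nat_lit 15916928176871, nat_lit 0, nat_lit 400000, nat_lit 0, nat_lit 0, [(nat_lit 6, [(nat_lit 1, nat_lit 1000)])],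
 ⟨p044_k26, nat_lit 0, nat_lit 0, nat_lit 62, nat_lit 0, nat_lit 0, [nat_lit 2692266667, nat_lit 3030400001, nat_lit 3280799999], [], [nat_lit 17308037324, nat_lit 17620140367, nat_lit 17107176525, nat_lit 17415993370, nat_lit 19355439314, nat_lit 19641170946, nat_lit 19131689779, nat_lit 19414533753], nat_lit 0, nat_lit 0, nat_lit 0, nat_lit 0, nat_lit 0, nat_lit 0, [], [nat_lit 9, nat_lit 40, nat_lit 40, nat_lit 80, nat_lit 2, nat_lit 226, nat_lit 20, nat_lit 7]⟩, C1.Rw.none,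
 ⟨nat_lit 6123, nat_lit 6225, ⟨.ofNat (nat_lit 233705), .ofNat (nat_lit 258100), .ofNat (nat_lit 244383), .ofNat (nat_lit 268778), .ofNat (nat_lit 237248), .ofNat (nat_lit 261362), .ofNat (nat_lit 247922), .ofNat (nat_lit 272036)⟩, ⟨.ofNat (nat_lit 491781), .ofNat (nat_lit 548702), .ofNat (nat_lit 513137), .ofNat (nat_lit 570059), .ofNat (nat_lit 489975), .ofNat (nat_lit 546241), .ofNat (nat_lit 511323), .ofNat (nat_lit 567589)⟩⟩, [⟨nat_lit 16, nat_lit 100, nat_lit 86, nat_lit 73, nat_lit 386881453⟩]⟩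
noncomputable def p044_l110 : Lf2 := ⟨nat_lit 0, nat_lit 1, [nat_lit 19, nat_lit 5, nat_lit 5, nat_lit 20], false, nat_lit 280, nat_lit 304, nat_lit 0, nat_lit 160, ⟨nat_lit 1000, nat_lit 0, nat_lit 0, nat_lit 0, nat_lit 0, nat_lit 0, nat_lit 0, nat_lit 0, nat_lit 0, nat_lit 0, nat_lit 0, nat_lit 0, nat_lit 0, nat_lit 0, nat_lit 0, nat_lit 0, false, false⟩,
 nat_lit 0, nat_lit 0, nat_lit 16699, nat_lit 0, nat_lit 6692, nat_lit 8840, nat_lit 0, nat_lit 0, nat_lit 0, nat_lit 0, nat_lit 0, nat_lit 0, nat_lit 0, nat_lit 0, nat_lit 0, nat_lit 0, nat_lit 0, nat_lit 0, [],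
 ⟨p044_k28, nat_lit 0, nat_lit 0, nat_lit 52, nat_lit 0, nat_lit 0, [nat_lit 4688000000, nat_lit 6250000000], [], [nat_lit 18718258324, nat_lit 18791378588, nat_lit 18601341201, nat_lit 18674191866, nat_lit 20775692335, nat_lit 20854164516, nat_lit 20650809938, nat_lit 20717904797], nat_lit 0, nat_lit 0, nat_lit 0, nat_lit 0, nat_lit 0, nat_lit 0, [], [nat_lit 31, nat_lit 40, nat_lit 40, nat_lit 80, nat_lit 3, nat_lit 226, nat_lit 20, nat_lit 8]⟩, ⟨p044_k29, nat_lit 0, nat_lit 0, nat_lit 260, nat_lit 0, nat_lit 133812, [nat_lit 4688000000, nat_lit 6250000000], [], [nat_lit 15828329280, nat_lit 17141608600, nat_lit 15626158001, nat_lit 16934889629, nat_lit 12618593440, nat_lit 12400125960, nat_lit 12681691536, nat_lit 12276806444], nat_lit 1271250, nat_lit 1271250, nat_lit 230001, nat_lit 254650, nat_lit 0, nat_lit 1100001, [nat_lit 1100000, nat_lit 1442500], [nat_lit 31, nat_lit 40, nat_lit 40, nat_lit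 80, nat_lit 3, nat_lit 272, nat_lit 60, nat_lit 11]⟩,
 zbF0, [⟨nat_lit 16, nat_lit 100, nat_lit 88, nat_lit 74, nat_lit 889060424⟩, ⟨nat_lit 4, nat_lit 92, nat_lit 100, nat_lit 68, nat_lit 30277383⟩]⟩
noncomputable def p044_l111 : Lf2 := ⟨nat_lit 0, nat_lit 1, [nat_lit 19, nat_lit 5, nat_lit 5, nat_lit 20], false, nat_lit 280, nat_lit 304, nat_lit 160, nat_lit 256, ⟨nat_lit 1000, nat_lit 0, nat_lit 0, nat_lit 0, nat_lit 0, nat_lit 0, nat_lit 0, nat_lit 0, nat_lit 0, nat_lit 0, nat_lit 0, nat_lit 0, nat_lit 0, nat_lit 0, nat_lit 0, nat_lit 0, false, false⟩,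
 nat_lit 0, nat_lit 0, nat_lit 13976, nat_lit 0, nat_lit 7019, nat_lit 7399, nat_lit 0, nat_lit 0, nat_lit 0, nat_lit 0, nat_lit 0, nat_lit 0, nat_lit 0, nat_lit 0, nat_lit 0, nat_lit 0, nat_lit 0, nat_lit 0, [],
 ⟨p044_k28, nat_lit 0, nat_lit 0, nat_lit 52, nat_lit 0, nat_lit 0, [nat_lit 4688000000, nat_lit 6250000000], [], [nat_lit 18518362243, nat_lit 18593466841, nat_lit 18391995163, nat_lit 18466820394, nat_lit 21019678085, nat_lit 21100658522, nat_lit 20841391780, nat_lit 20922130631], nat_lit 0, nat_lit 0, nat_lit 0, nat_lit 0, nat_lit 0, nat_lit 0, [], [nat_lit 31, nat_lit 40, nat_lit 40, nat_lit 80, nat_lit 3, nat_lit 226, nat_lit 20, nat_lit 8]⟩, ⟨p044_k29, nat_lit 0, nat_lit 0, nat_lit 180, nat_lit 0, nat_lit 133812, [nat_lit 4688000000, nat_lit 6250000000], [], [nat_lit 8645815708, nat_lit 9711878167, nat_lit 8542636708, nat_lit 9604457140, nat_lit 15261026418, nat_lit 16098074090, nat_lit 15135509735,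 nat_lit 15969334342], nat_lit 1271250, nat_lit 1271250, nat_lit 230001, nat_lit 254650, nat_lit 1100001, nat_lit 1922000, [nat_lit 1100000, nat_lit 1442500], [nat_lit 31, nat_lit 40, nat_lit 40, nat_lit 80, nat_lit 3, nat_lit 289, nat_lit 75, nat_lit 11]⟩,
 zbF0, [⟨nat_lit 4, nat_lit 92, nat_lit 100, nat_lit 68, nat_lit 698085644⟩, ⟨nat_lit 23, nat_lit 95, nat_lit 100, nat_lit 65, nat_lit 876954098⟩]⟩
noncomputable def p044_l112 : Lf2 := ⟨nat_lit 0, nat_lit 1, [nat_lit 19, nat_lit 5, nat_lit 5, nat_lit 20], true, nat_lit 280, nat_lit 304, nat_lit 0, nat_lit 256, ⟨nat_lit 0, nat_lit 1000, nat_lit 0, nat_lit 6, nat_lit 93, nat_lit 1000, nat_lit 210, nat_lit 0, nat_lit 0, nat_lit 0, nat_lit 0, nat_lit 0, nat_lit 48821187, nat_lit 3988664, nat_lit 14190149, nat_lit 3850156, false, false⟩,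
 nat_lit 0, nat_lit 0, nat_lit 0, nat_lit 2347, nat_lit 4984, nat_lit 0, nat_lit 0, nat_lit 0, nat_lit 0, nat_lit 0, nat_lit 0, nat_lit 0, nat_lit 0, nat_lit 0, nat_lit 0, nat_lit 400000, nat_lit 0, nat_lit 0, [(nat_lit 6, [(nat_lit 1, nat_lit 1000)])],
 ⟨p044_k46, nat_lit 0, nat_lit 0, nat_lit 52, nat_lit 0, nat_lit 0, [nat_lit 2692266667, nat_lit 3030400000], [], [nat_lit 17829386123, nat_lit 17892141730, nat_lit 17761609834, nat_lit 17824146869, nat_lit 19566856152, nat_lit 19634173677, nat_lit 19492692281, nat_lit 19550697916], nat_lit 0, nat_lit 0, nat_lit 0, nat_lit 0, nat_lit 0, nat_lit 0, [], [nat_lit 31, nat_lit 40, nat_lit 40, nat_lit 80, nat_lit 3, nat_lit 226, nat_lit 20, nat_lit 8]⟩, C1.Rw.none,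
 ⟨nat_lit 6082, nat_lit 6104, ⟨.ofNat (nat_lit 221914), .ofNat (nat_lit 229934), .ofNat (nat_lit 232588), .ofNat (nat_lit 240607), .ofNat (nat_lit 222656), .ofNat (nat_lit 230656), .ofNat (nat_lit 233328), .ofNat (nat_lit 241329)⟩, ⟨.ofNat (nat_lit 489613), .ofNat (nat_lit 537730), .ofNat (nat_lit 510960), .ofNat (nat_lit 559077), .ofNat (nat_lit 489252), .ofNat (nat_lit 537257), .ofNat (nat_lit 510597), .ofNat (nat_lit 558602)⟩⟩, [⟨nat_lit 16, nat_lit 100, nat_lit 89, nat_lit 74, nat_lit 384705601⟩]⟩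
noncomputable def p044_l113 : Lf2 := ⟨nat_lit 0, nat_lit 1, [nat_lit 19, nat_lit 5, nat_lit 5, nat_lit 20], true, nat_lit 280, nat_lit 304, nat_lit 0, nat_lit 256, ⟨nat_lit 0, nat_lit 1000, nat_lit 0, nat_lit 6, nat_lit 93, nat_lit 1000, nat_lit 209, nat_lit 0, nat_lit 0, nat_lit 0, nat_lit 0, nat_lit 0, nat_lit 48820293, nat_lit 4007841, nat_lit 14171866, nat_lit 3852574, false, false⟩,
 nat_lit 0, nat_lit 0, nat_lit 0, nat_lit 2346, nat_lit 4976, nat_lit 0, nat_lit 0, nat_lit 0, nat_lit 0, nat_lit 0, nat_lit 0, nat_lit 0, nat_lit 0, nat_lit 0, nat_lit 0, nat_lit 400000, nat_lit 0, nat_lit 0, [(nat_lit 6, [(nat_lit 1, nat_lit 1000)])],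
 ⟨p044_k47, nat_lit 0, nat_lit 0, nat_lit 53, nat_lit 0, nat_lit 0, [nat_lit 2692266667, nat_lit 3030400000], [], [nat_lit 17896935061, nat_lit 17959642122, nat_lit 17829171870, nat_lit 17891660598, nat_lit 19628385178, nat_lit 19695544214, nat_lit 19554264340, nat_lit 19612227403], nat_lit 0, nat_lit 0, nat_lit 0, nat_lit 0, nat_lit 0, nat_lit 0, [], [nat_lit 31, nat_lit 40, nat_lit 40, nat_lit 80, nat_lit 3, nat_lit 226, nat_lit 20, nat_lit 8]⟩, C1.Rw.none,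
 ⟨nat_lit 6062, nat_lit 6083, ⟨.ofNat (nat_lit 222656), .ofNat (nat_lit 230656), .ofNat (nat_lit 233328), .ofNat (nat_lit 241329), .ofNat (nat_lit 223395), .ofNat (nat_lit 231378), .ofNat (nat_lit 234068), .ofNat (nat_lit 242050)⟩, ⟨.ofNat (nat_lit 489252), .ofNat (nat_lit 537257), .ofNat (nat_lit 510597), .ofNat (nat_lit 558602), .ofNat (nat_lit 488890), .ofNat (nat_lit 536784), .ofNat (nat_lit 510234), .ofNat (nat_lit 558128)⟩⟩, [⟨nat_lit 16, nat_lit 100, nat_lit 89, nat_lit 74, nat_lit 384680203⟩]⟩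
noncomputable def p044_l114 : Lf2 := ⟨nat_lit 0, nat_lit 1, [nat_lit 19, nat_lit 5, nat_lit 5, nat_lit 20], true, nat_lit 280, nat_lit 304, nat_lit 0, nat_lit 260, ⟨nat_lit 0, nat_lit 1000, nat_lit 0, nat_lit 6, nat_lit 96, nat_lit 1000, nat_lit 210, nat_lit 0, nat_lit 0, nat_lit 0, nat_lit 0, nat_lit 0, nat_lit 48633932, nat_lit 4195389, nat_lit 14170679, nat_lit 3892880, false, false⟩,
 nat_lit 0, nat_lit 0, nat_lit 0, nat_lit 2349, nat_lit 5018, nat_lit 0, nat_lit 0, nat_lit 0, nat_lit 0, nat_lit 0, nat_lit 0, nat_lit 0, nat_lit 0, nat_lit 0, nat_lit 0, nat_lit 400000, nat_lit 0, nat_lit 0, [(nat_lit 6, [(nat_lit 1, nat_lit 1000)])],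
 ⟨p044_k28, nat_lit 0, nat_lit 0, nat_lit 50, nat_lit 0, nat_lit 0, [nat_lit 2692266667, nat_lit 3030400000], [], [nat_lit 17677305932, nat_lit 17865532957, nat_lit 17608765651, nat_lit 17796333913, nat_lit 19419167477, nat_lit 19621110378, nat_lit 19344185948, nat_lit 19518155398], nat_lit 0, nat_lit 0, nat_lit 0, nat_lit 0, nat_lit 0, nat_lit 0, [], [nat_lit 31, nat_lit 40, nat_lit 40, nat_lit 80, nat_lit 3, nat_lit 226, nat_lit 20, nat_lit 8]⟩, C1.Rw.none,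
 ⟨nat_lit 6062, nat_lit 6124, ⟨.ofNat (nat_lit 229210), .ofNat (nat_lit 237248), .ofNat (nat_lit 239884), .ofNat (nat_lit 247922), .ofNat (nat_lit 231378), .ofNat (nat_lit 239360), .ofNat (nat_lit 242050), .ofNat (nat_lit 250032)⟩, ⟨.ofNat (nat_lit 489975), .ofNat (nat_lit 538203), .ofNat (nat_lit 511323), .ofNat (nat_lit 559551), .ofNat (nat_lit 488890), .ofNat (nat_lit 536784), .ofNat (nat_lit 510234), .ofNat (nat_lit 558128)⟩⟩, [⟨nat_lit 16, nat_lit 100, nat_lit 88, nat_lit 74, nat_lit 385406371⟩]⟩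
noncomputable def p044_l115 : Lf2 := ⟨nat_lit 0, nat_lit 1, [nat_lit 19, nat_lit 5, nat_lit 5, nat_lit 20], true, nat_lit 280, nat_lit 304, nat_lit 0, nat_lit 260, ⟨nat_lit 0, nat_lit 1000, nat_lit 0, nat_lit 6, nat_lit 95, nat_lit 1000, nat_lit 209, nat_lit 0, nat_lit 0, nat_lit 0, nat_lit 0, nat_lit 0, nat_lit 48725744, nat_lit 4139387, nat_lit 14134869, nat_lit 3877442, false, false⟩,
 nat_lit 0, nat_lit 0, nat_lit 0, nat_lit 2345, nat_lit 4968, nat_lit 0, nat_lit 0, nat_lit 0, nat_lit 0, nat_lit 0, nat_lit 0, nat_lit 0, nat_lit 0, nat_lit 0, nat_lit 0, nat_lit 400000, nat_lit 0, nat_lit 0, [(nat_lit 6, [(nat_lit 1, nat_lit 1000)])],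
 ⟨p044_k48, nat_lit 0, nat_lit 0, nat_lit 53, nat_lit 0, nat_lit 0, [nat_lit 2692266667, nat_lit 3030400000], [], [nat_lit 17964386907, nat_lit 18089703935, nat_lit 17828887676, nat_lit 17953332328, nat_lit 19689828640, nat_lit 19824209788, nat_lit 19541673870, nat_lit 19657123967], nat_lit 0, nat_lit 0, nat_lit 0, nat_lit 0, nat_lit 0, nat_lit 0, [], [nat_lit 31, nat_lit 40, nat_lit 40, nat_lit 80, nat_lit 3, nat_lit 226, nat_lit 20, nat_lit 8]⟩, C1.Rw.none,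
 ⟨nat_lit 6020, nat_lit 6063, ⟨.ofNat (nat_lit 223395), .ofNat (nat_lit 239360), .ofNat (nat_lit 234068), .ofNat (nat_lit 250032), .ofNat (nat_lit 224872), .ofNat (nat_lit 240762), .ofNat (nat_lit 235543), .ofNat (nat_lit 251434)⟩, ⟨.ofNat (nat_lit 488890), .ofNat (nat_lit 536784), .ofNat (nat_lit 510234), .ofNat (nat_lit 558128), .ofNat (nat_lit 488166), .ofNat (nat_lit 535837), .ofNat (nat_lit 509508), .ofNat (nat_lit 557180)⟩⟩, [⟨nat_lit 16, nat_lit 100, nat_lit 90, nat_lit 74, nat_lit 384403466⟩]⟩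
noncomputable def p044_l116 : Lf2 := ⟨nat_lit 0, nat_lit 1, [nat_lit 19, nat_lit 5, nat_lit 5, nat_lit 20], true, nat_lit 280, nat_lit 300, nat_lit 0, nat_lit 260, ⟨nat_lit 0, nat_lit 1000, nat_lit 0, nat_lit 6, nat_lit 96, nat_lit 1000, nat_lit 207, nat_lit 0, nat_lit 0, nat_lit 0, nat_lit 0, nat_lit 0, nat_lit 48873909, nat_lit 4210563, nat_lit 13915528, nat_lit 3871277, false, false⟩,
 nat_lit 0, nat_lit 0, nat_lit 0, nat_lit 2345, nat_lit 4995, nat_lit 0, nat_lit 0, nat_lit 0, nat_lit 0, nat_lit 0, nat_lit 0, nat_lit 0, nat_lit 0, nat_lit 0, nat_lit 0, nat_lit 400000, nat_lit 0, nat_lit 0, [(nat_lit 6, [(nat_lit 1, nat_lit 1000)])],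
 ⟨p044_k49, nat_lit 0, nat_lit 0, nat_lit 53, nat_lit 0, nat_lit 0, [nat_lit 2692266667, nat_lit 3030400000], [], [nat_lit 18074017975, nat_lit 18388129767, nat_lit 17936077758, nat_lit 18248000544, nat_lit 19508389044, nat_lit 19850635450, nat_lit 19359937911, nat_lit 19653041805], nat_lit 0, nat_lit 0, nat_lit 0, nat_lit 0, nat_lit 0, nat_lit 0, [], [nat_lit 31, nat_lit 40, nat_lit 40, nat_lit 80, nat_lit 3, nat_lit 226, nat_lit 20, nat_lit 8]⟩, C1.Rw.none,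
 ⟨nat_lit 5916, nat_lit 6021, ⟨.ofNat (nat_lit 224872), .ofNat (nat_lit 240762), .ofNat (nat_lit 235543), .ofNat (nat_lit 251434), .ofNat (nat_lit 228543), .ofNat (nat_lit 244249), .ofNat (nat_lit 239212), .ofNat (nat_lit 254919)⟩, ⟨.ofNat (nat_lit 488166), .ofNat (nat_lit 527892), .ofNat (nat_lit 509508), .ofNat (nat_lit 549234), .ofNat (nat_lit 486351), .ofNat (nat_lit 525618), .ofNat (nat_lit 507691), .ofNat (nat_lit 546957)⟩⟩, [⟨nat_lit 16, nat_lit 100, nat_lit 90, nat_lit 74, nat_lit 386428909⟩]⟩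
noncomputable def p044_l117 : Lf2 := ⟨nat_lit 0, nat_lit 2, [nat_lit 10, nat_lit 5, nat_lit 5, nat_lit 20], true, nat_lit 280, nat_lit 304, nat_lit 0, nat_lit 260, ⟨nat_lit 0, nat_lit 1000, nat_lit 0, nat_lit 6, nat_lit 95, nat_lit 1000, nat_lit 209, nat_lit 0, nat_lit 0, nat_lit 0, nat_lit 0, nat_lit 0, nat_lit 48725238, nat_lit 4158150, nat_lit 14116612, nat_lit 3879697, false, false⟩,
 nat_lit 0, nat_lit 0, nat_lit 0, nat_lit 8691, nat_lit 4992, nat_lit 0, nat_lit 0, nat_lit 0, nat_lit 0, nat_lit 0, nat_lit 0, nat_lit 0, nat_lit 0, nat_lit 0, nat_lit 0, nat_lit 400000, nat_lit 0, nat_lit 0, [(nat_lit 6, [(nat_lit 1, nat_lit 1000)])],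
 ⟨p044_k21, nat_lit 0, nat_lit 0, nat_lit 70, nat_lit 0, nat_lit 0, [nat_lit 2692266667, nat_lit 3030400001, nat_lit 3280799999], [], [nat_lit 17761740091, nat_lit 18389781627, nat_lit 17626162275, nat_lit 18249827591, nat_lit 19505241562, nat_lit 20180736061, nat_lit 19356828592, nat_lit 19966633661], nat_lit 0, nat_lit 0, nat_lit 0, nat_lit 0, nat_lit 0, nat_lit 0, [], [nat_lit 9, nat_lit 40, nat_lit 40, nat_lit 80, nat_lit 2, nat_lit 226, nat_lit 20, nat_lit 7]⟩, C1.Rw.none,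
 ⟨nat_lit 5916, nat_lit 6124, ⟨.ofNat (nat_lit 221172), .ofNat (nat_lit 237248), .ofNat (nat_lit 231846), .ofNat (nat_lit 247922), .ofNat (nat_lit 228543), .ofNat (nat_lit 244249), .ofNat (nat_lit 239212), .ofNat (nat_lit 254919)⟩, ⟨.ofNat (nat_lit 489975), .ofNat (nat_lit 538203), .ofNat (nat_lit 511323), .ofNat (nat_lit 559550), .ofNat (nat_lit 486351), .ofNat (nat_lit 533471), .ofNat (nat_lit 507691), .ofNat (nat_lit 554809)⟩⟩, [⟨nat_lit 16, nat_lit 100, nat_lit 88, nat_lit 74, nat_lit 154502887⟩, ⟨nat_lit 4, nat_lit 94, nat_lit 100, nat_lit 69, nat_lit 249559565⟩]⟩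
noncomputable def p044_l118 : Lf2 := ⟨nat_lit 0, nat_lit 4, [nat_lit 38, nat_lit 5, nat_lit 5, nat_lit 20], true, nat_lit 280, nat_lit 304, nat_lit 0, nat_lit 260, ⟨nat_lit 0, nat_lit 1000, nat_lit 0, nat_lit 6, nat_lit 95, nat_lit 1000, nat_lit 209, nat_lit 0, nat_lit 0, nat_lit 0, nat_lit 0, nat_lit 0, nat_lit 48725238, nat_lit 4158150, nat_lit 14116612, nat_lit 3879697, false, false⟩,
 nat_lit 0, nat_lit 0, nat_lit 0, nat_lit 10980, nat_lit 5170, nat_lit 0, nat_lit 0, nat_lit 0, nat_lit 0, nat_lit 0, nat_lit 0, nat_lit 0, nat_lit 0, nat_lit 0, nat_lit 0, nat_lit 400000, nat_lit 0, nat_lit 0, [(nat_lit 6, [(nat_lit 1, nat_lit 1000)])],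
 ⟨p044_k25, nat_lit 0, nat_lit 0, nat_lit 70, nat_lit 0, nat_lit 0, [nat_lit 2692266667, nat_lit 3030400001, nat_lit 3280799999], [], [nat_lit 17652928157, nat_lit 18291771267, nat_lit 17507062315, nat_lit 18141422849, nat_lit 19638135978, nat_lit 20325519908, nat_lit 19415019307, nat_lit 20098482262], nat_lit 0, nat_lit 0, nat_lit 0, nat_lit 0, nat_lit 0, nat_lit 0, [], [nat_lit 9, nat_lit 40, nat_lit 40, nat_lit 80, nat_lit 2, nat_lit 226, nat_lit 20, nat_lit 7]⟩, C1.Rw.none,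
 ⟨nat_lit 5916, nat_lit 6124, ⟨.ofNat (nat_lit 221172), .ofNat (nat_lit 237248), .ofNat (nat_lit 231846), .ofNat (nat_lit 247922), .ofNat (nat_lit 228543), .ofNat (nat_lit 244249), .ofNat (nat_lit 239212), .ofNat (nat_lit 254919)⟩, ⟨.ofNat (nat_lit 489975), .ofNat (nat_lit 538203), .ofNat (nat_lit 511323), .ofNat (nat_lit 559550), .ofNat (nat_lit 486351), .ofNat (nat_lit 533471), .ofNat (nat_lit 507691), .ofNat (nat_lit 554809)⟩⟩, [⟨nat_lit 4, nat_lit 94, nat_lit 100, nat_lit 69, nat_lit 508764431⟩]⟩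
noncomputable def p044_l119 : Lf2 := ⟨nat_lit 0, nat_lit 4, [nat_lit 38, nat_lit 5, nat_lit 5, nat_lit 20], false, nat_lit 280, nat_lit 304, nat_lit 0, nat_lit 160, ⟨nat_lit 1000, nat_lit 0, nat_lit 0, nat_lit 0, nat_lit 0, nat_lit 0, nat_lit 0, nat_lit 0, nat_lit 0, nat_lit 0, nat_lit 0, nat_lit 0, nat_lit 0, nat_lit 0, nat_lit 0, nat_lit 0, false, false⟩,
 nat_lit 0, nat_lit 0, nat_lit 23685, nat_lit 0, nat_lit 6914, nat_lit 13158, nat_lit 0, nat_lit 0, nat_lit 0, nat_lit 3842, nat_lit 0, nat_lit 0, nat_lit 0, nat_lit 0, nat_lit 0, nat_lit 0, nat_lit 0, nat_lit 0, [],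
 ⟨p044_k25, nat_lit 0, nat_lit 0, nat_lit 70, nat_lit 0, nat_lit 0, [nat_lit 4688000000, nat_lit 6250000000, nat_lit 7968000000], [], [nat_lit 18582549058, nat_lit 19327223320, nat_lit 18335883678, nat_lit 19075033325, nat_lit 20941223828, nat_lit 21744076254, nat_lit 20592229841, nat_lit 21390302267], nat_lit 0, nat_lit 0, nat_lit 0, nat_lit 0, nat_lit 0, nat_lit 0, [], [nat_lit 9, nat_lit 40, nat_lit 40, nat_lit 80, nat_lit 2, nat_lit 226, nat_lit 20, nat_lit 7]⟩, ⟨p044_k25, nat_lit 0, nat_lit 0, nat_lit 268, nat_lit 0, nat_lit 227908, [nat_lit 4688000000, nat_lit 6250000000, nat_lit 7968000000], [], [nat_lit 23097402082, nat_lit 23530833520, nat_lit 20406935822, nat_lit 22469014622, nat_lit 20364225368, nat_lit 17221516016, nat_lit 20667477470, nat_lit 17533297134], nat_lit 1271250, nat_lit 1271250, nat_lit 230001, nat_lit 279600, nat_lit 0, nat_lit 1100001, [nat_lit 1100000, nat_lit 1442500, nat_lit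 1271250], [nat_lit 9, nat_lit 40, nat_lit 40, nat_lit 80, nat_lit 2, nat_lit 272, nat_lit 60, nat_lit 9]⟩,
 zbF0, [⟨nat_lit 16, nat_lit 100, nat_lit 94, nat_lit 69, nat_lit 1433070167⟩]⟩
noncomputable def p044_l120 : Lf2 := ⟨nat_lit 0, nat_lit 4, [nat_lit 38, nat_lit 5, nat_lit 5, nat_lit 20], false, nat_lit 280, nat_lit 304, nat_lit 160, nat_lit 200, ⟨nat_lit 1000, nat_lit 0, nat_lit 0, nat_lit 0, nat_lit 0, nat_lit 0, nat_lit 0, nat_lit 0, nat_lit 0, nat_lit 0, nat_lit 0, nat_lit 0, nat_lit 0, nat_lit 0, nat_lit 0, nat_lit 0, false, false⟩,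
 nat_lit 0, nat_lit 0, nat_lit 17938, nat_lit 0, nat_lit 6778, nat_lit 9965, nat_lit 0, nat_lit 0, nat_lit 0, nat_lit 3267, nat_lit 0, nat_lit 0, nat_lit 0, nat_lit 28538110011873, nat_lit 0, nat_lit 0, nat_lit 0, nat_lit 0, [],
 ⟨p044_k25, nat_lit 0, nat_lit 0, nat_lit 70, nat_lit 0, nat_lit 0, [nat_lit 4688000000, nat_lit 6250000000, nat_lit 7968000000], [], [nat_lit 18665686266, nat_lit 19402107640, nat_lit 18426881400, nat_lit 19157859419, nat_lit 20839606886, nat_lit 21633454888, nat_lit 20500429020, nat_lit 21289564010], nat_lit 0, nat_lit 0, nat_lit 0, nat_lit 0, nat_lit 0, nat_lit 0, [], [nat_lit 9, nat_lit 40, nat_lit 40, nat_lit 80, nat_lit 2, nat_lit 226, nat_lit 20, nat_lit 7]⟩, ⟨p044_k25, nat_lit 0, nat_lit 0, nat_lit 182, nat_lit 0, nat_lit 227908, [nat_lit 4688000000, nat_lit 6250000000, nat_lit 7968000000], [], [nat_lit 9137930045, nat_lit 10329811030, nat_lit 8776447341, nat_lit 9958447767,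 nat_lit 11719529625, nat_lit 12801149770, nat_lit 11629733182, nat_lit 12412963331], nat_lit 1271250, nat_lit 1271250, nat_lit 230001, nat_lit 279600, nat_lit 1100001, nat_lit 1442500, [nat_lit 1100000, nat_lit 1442500, nat_lit 1271250], [nat_lit 9, nat_lit 40, nat_lit 40, nat_lit 80, nat_lit 2, nat_lit 289, nat_lit 75, nat_lit 9]⟩,
 zbF0, [⟨nat_lit 4, nat_lit 94, nat_lit 100, nat_lit 69, nat_lit 1036124925⟩]⟩
noncomputable def p044_l121 : Lf2 := ⟨nat_lit 0, nat_lit 4, [nat_lit 38, nat_lit 5, nat_lit 5, nat_lit 20], false, nat_lit 280, nat_lit 304, nat_lit 200, nat_lit 260, ⟨nat_lit 1000, nat_lit 0, nat_lit 0, nat_lit 0, nat_lit 0, nat_lit 0, nat_lit 0, nat_lit 0, nat_lit 0, nat_lit 0, nat_lit 0, nat_lit 0, nat_lit 0, nat_lit 0, nat_lit 0, nat_lit 0, false, false⟩,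
 nat_lit 0, nat_lit 0, nat_lit 15977, nat_lit 0, nat_lit 6914, nat_lit 8876, nat_lit 0, nat_lit 0, nat_lit 0, nat_lit 2873, nat_lit 0, nat_lit 0, nat_lit 0, nat_lit 4587132645737, nat_lit 0, nat_lit 0, nat_lit 0, nat_lit 0, [],
 ⟨p044_k25, nat_lit 0, nat_lit 0, nat_lit 70, nat_lit 0, nat_lit 0, [nat_lit 4688000000, nat_lit 6250000000, nat_lit 7968000000], [], [nat_lit 18582549058, nat_lit 19327223320, nat_lit 18335883678, nat_lit 19075033325, nat_lit 20941223828, nat_lit 21744076254, nat_lit 20592229841, nat_lit 21390302267], nat_lit 0, nat_lit 0, nat_lit 0, nat_lit 0, nat_lit 0, nat_lit 0, [], [nat_lit 9, nat_lit 40, nat_lit 40, nat_lit 80, nat_lit 2, nat_lit 226, nat_lit 20, nat_lit 7]⟩, ⟨p044_k25, nat_lit 0, nat_lit 0, nat_lit 162, nat_lit 0, nat_lit 227908, [nat_lit 4688000000, nat_lit 6250000000, nat_lit 7968000000], [], [nat_lit 13153655438, nat_lit 13976005792, nat_lit 12888355843, nat_lit 13703438410,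 nat_lit 17271246754, nat_lit 18116403948, nat_lit 16919371080, nat_lit 17757833631], nat_lit 1271250, nat_lit 1271250, nat_lit 230001, nat_lit 279600, nat_lit 1271250, nat_lit 1271250, [nat_lit 1100000, nat_lit 1442500, nat_lit 1271250], [nat_lit 9, nat_lit 40, nat_lit 40, nat_lit 80, nat_lit 2, nat_lit 317, nat_lit 100, nat_lit 10]⟩,
 zbF0, [⟨nat_lit 4, nat_lit 94, nat_lit 100, nat_lit 69, nat_lit 896816978⟩, ⟨nat_lit 23, nat_lit 91, nat_lit 100, nat_lit 64, nat_lit 969585259⟩]⟩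
noncomputable def p044_l122 : Lf2 := ⟨nat_lit 0, nat_lit 4, [nat_lit 38, nat_lit 5, nat_lit 5, nat_lit 20], true, nat_lit 280, nat_lit 304, nat_lit 0, nat_lit 276, ⟨nat_lit 0, nat_lit 1000, nat_lit 0, nat_lit 6, nat_lit 104, nat_lit 1000, nat_lit 209, nat_lit 0, nat_lit 0, nat_lit 0, nat_lit 0, nat_lit 0, nat_lit 48187699, nat_lit 4708489, nat_lit 14103812, nat_lit 3992807, false, false⟩,
 nat_lit 0, nat_lit 0, nat_lit 0, nat_lit 3007, nat_lit 5005, nat_lit 0, nat_lit 0, nat_lit 0, nat_lit 0, nat_lit 0, nat_lit 0, nat_lit 0, nat_lit 0, nat_lit 15856819201584, nat_lit 0, nat_lit 400000, nat_lit 0, nat_lit 0, [(nat_lit 6, [(nat_lit 1, nat_lit 1000)])],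
 ⟨p044_k25, nat_lit 0, nat_lit 0, nat_lit 62, nat_lit 0, nat_lit 0, [nat_lit 2692266667, nat_lit 3030400001, nat_lit 3280799999], [], [nat_lit 17617463963, nat_lit 17929687177, nat_lit 17412970179, nat_lit 17721905402, nat_lit 19350507270, nat_lit 19640112154, nat_lit 19126725249, nat_lit 19413383969], nat_lit 0, nat_lit 0, nat_lit 0, nat_lit 0, nat_lit 0, nat_lit 0, [], [nat_lit 9, nat_lit 40, nat_lit 40, nat_lit 80, nat_lit 2, nat_lit 226, nat_lit 20, nat_lit 7]⟩, C1.Rw.none,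
 ⟨nat_lit 6020, nat_lit 6124, ⟨.ofNat (nat_lit 237248), .ofNat (nat_lit 261362), .ofNat (nat_lit 253259), .ofNat (nat_lit 277373), .ofNat (nat_lit 240762), .ofNat (nat_lit 264598), .ofNat (nat_lit 256769), .ofNat (nat_lit 280605)⟩, ⟨.ofNat (nat_lit 489975), .ofNat (nat_lit 538203), .ofNat (nat_lit 511323), .ofNat (nat_lit 559551), .ofNat (nat_lit 488166), .ofNat (nat_lit 535837), .ofNat (nat_lit 509508), .ofNat (nat_lit 557179)⟩⟩, [⟨nat_lit 16, nat_lit 100, nat_lit 88, nat_lit 74, nat_lit 382343049⟩]⟩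
noncomputable def p044_l123 : Lf2 := ⟨nat_lit 0, nat_lit 4, [nat_lit 38, nat_lit 5, nat_lit 5, nat_lit 20], true, nat_lit 280, nat_lit 300, nat_lit 0, nat_lit 276, ⟨nat_lit 0, nat_lit 1000, nat_lit 0, nat_lit 6, nat_lit 106, nat_lit 1000, nat_lit 207, nat_lit 0, nat_lit 0, nat_lit 0, nat_lit 0, nat_lit 0, nat_lit 48267626, nat_lit 4880088, nat_lit 13852286, nat_lit 4002611, false, false⟩,
 nat_lit 0, nat_lit 0, nat_lit 0, nat_lit 3002, nat_lit 5007, nat_lit 0, nat_lit 0, nat_lit 0, nat_lit 0, nat_lit 0, nat_lit 0, nat_lit 0, nat_lit 0, nat_lit 15799629742388, nat_lit 0, nat_lit 400000, nat_lit 0, nat_lit 0, [(nat_lit 6, [(nat_lit 1, nat_lit 1000)])],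
 ⟨p044_k37, nat_lit 0, nat_lit 0, nat_lit 61, nat_lit 0, nat_lit 0, [nat_lit 2692266667, nat_lit 3030400001, nat_lit 3280799999], [], [nat_lit 17928409060, nat_lit 18240692360, nat_lit 17720452996, nat_lit 18029447408, nat_lit 19354062007, nat_lit 19647490755, nat_lit 19130312807, nat_lit 19420737614], nat_lit 0, nat_lit 0, nat_lit 0, nat_lit 0, nat_lit 0, nat_lit 0, [], [nat_lit 9, nat_lit 40, nat_lit 40, nat_lit 80, nat_lit 2, nat_lit 226, nat_lit 20, nat_lit 7]⟩, C1.Rw.none,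
 ⟨nat_lit 5916, nat_lit 6021, ⟨.ofNat (nat_lit 240762), .ofNat (nat_lit 264598), .ofNat (nat_lit 262105), .ofNat (nat_lit 285941), .ofNat (nat_lit 244249), .ofNat (nat_lit 267810), .ofNat (nat_lit 265589), .ofNat (nat_lit 289149)⟩, ⟨.ofNat (nat_lit 488166), .ofNat (nat_lit 527892), .ofNat (nat_lit 509508), .ofNat (nat_lit 549234), .ofNat (nat_lit 486351), .ofNat (nat_lit 525618), .ofNat (nat_lit 507691), .ofNat (nat_lit 546957)⟩⟩, [⟨nat_lit 16, nat_lit 100, nat_lit 90, nat_lit 74, nat_lit 382295058⟩]⟩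
noncomputable def p044_l124 : Lf2 := ⟨nat_lit 0, nat_lit 4, [nat_lit 38, nat_lit 5, nat_lit 5, nat_lit 20], true, nat_lit 280, nat_lit 312, nat_lit 0, nat_lit 300, ⟨nat_lit 0, nat_lit 1000, nat_lit 0, nat_lit 6, nat_lit 117, nat_lit 1000, nat_lit 213, nat_lit 0, nat_lit 0, nat_lit 0, nat_lit 0, nat_lit 0, nat_lit 47037908, nat_lit 5607071, nat_lit 14355021, nat_lit 4189643, false, false⟩,
 nat_lit 0, nat_lit 0, nat_lit 0, nat_lit 3002, nat_lit 5312, nat_lit 0, nat_lit 0, nat_lit 0, nat_lit 0, nat_lit 0, nat_lit 0, nat_lit 0, nat_lit 0, nat_lit 13897782536097, nat_lit 0, nat_lit 400000, nat_lit 0, nat_lit 0, [(nat_lit 6, [(nat_lit 1, nat_lit 1000)])],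
 ⟨p044_k19, nat_lit 0, nat_lit 0, nat_lit 61, nat_lit 0, nat_lit 0, [nat_lit 2692266667, nat_lit 3030400001, nat_lit 3280799999], [], [nat_lit 16544898723, nat_lit 17816981815, nat_lit 16171134411, nat_lit 17420380403, nat_lit 19189928415, nat_lit 20524678330, nat_lit 18604272807, nat_lit 19919996813], nat_lit 0, nat_lit 0, nat_lit 0, nat_lit 0, nat_lit 0, nat_lit 0, [], [nat_lit 9, nat_lit 40, nat_lit 40, nat_lit 80, nat_lit 2, nat_lit 226, nat_lit 20, nat_lit 7]⟩, C1.Rw.none,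
 ⟨nat_lit 5916, nat_lit 6325, ⟨.ofNat (nat_lit 254809), .ofNat (nat_lit 295942), .ofNat (nat_lit 276177), .ofNat (nat_lit 317309), .ofNat (nat_lit 267810), .ofNat (nat_lit 307076), .ofNat (nat_lit 289149), .ofNat (nat_lit 328416)⟩, ⟨.ofNat (nat_lit 493584), .ofNat (nat_lit 559386), .ofNat (nat_lit 514952), .ofNat (nat_lit 580747), .ofNat (nat_lit 486351), .ofNat (nat_lit 549169), .ofNat (nat_lit 507691), .ofNat (nat_lit 570502)⟩⟩, [⟨nat_lit 16, nat_lit 100, nat_lit 92, nat_lit 68, nat_lit 518897601⟩]⟩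
noncomputable def b_V_600_600_10_12 : St := ⟨true, nat_lit 0, nat_lit 1, nat_lit 1, nat_lit 80, nat_lit 240, nat_lit 260, nat_lit 240, nat_lit 260, nat_lit 40, nat_lit 80, nat_lit 40, nat_lit 60, nat_lit 280, nat_lit 320, nat_lit 0, nat_lit 300, nat_lit 0, nat_lit 16, nat_lit 0, nat_lit 0, nat_lit 0, nat_lit 0⟩
theorem d_V_600_600_10_12 (h : EB TB.env) : Dead b_V_600_600_10_12 := chkB_sound0 h (T :=
(.trX (nat_lit 16) (nat_lit 100) (nat_lit 85) (nat_lit 73) (nat_lit 312) (.spl (nat_lit 2) (nat_lit 60)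
(.trX (nat_lit 23) (nat_lit 99) (nat_lit 100) (nat_lit 77) (nat_lit 276) (.spl (nat_lit 0) (nat_lit 250)
(.ord (.spl (nat_lit 0) (nat_lit 245)
(.ord (.leaf p044_l102))
(.trX (nat_lit 16) (nat_lit 100) (nat_lit 86) (nat_lit 73) (nat_lit 308) (.spl (nat_lit 2) (nat_lit 48)
(.trX (nat_lit 23) (nat_lit 96) (nat_lit 100) (nat_lit 68) (nat_lit 260) (.spl (nat_lit 6) (nat_lit 8)
(.spl (nat_lit 6) (nat_lit 4)
(.spl (nat_lit 0) (nat_lit 248)
(.ord (.leaf p044_l103))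
(.spl (nat_lit 2) (nat_lit 44)
(.trX (nat_lit 23) (nat_lit 95) (nat_lit 100) (nat_lit 65) (nat_lit 256) (.spl (nat_lit 5) (nat_lit 160)
(.leaf p044_l104)
(.leaf p044_l105)))
(.leaf p044_l106)))
(.leaf p044_l107))
(.leaf p044_l108)))
(.leaf p044_l109)))))
(.trX (nat_lit 16) (nat_lit 100) (nat_lit 88) (nat_lit 74) (nat_lit 304) (.spl (nat_lit 2) (nat_lit 48)
(.trX (nat_lit 23) (nat_lit 96) (nat_lit 100) (nat_lit 68) (nat_lit 260) (.spl (nat_lit 1) (nat_lit 250)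
(.spl (nat_lit 6) (nat_lit 8)
(.spl (nat_lit 6) (nat_lit 4)
(.spl (nat_lit 0) (nat_lit 255)
(.spl (nat_lit 0) (nat_lit 253)
(.spl (nat_lit 2) (nat_lit 44)
(.trX (nat_lit 23) (nat_lit 95) (nat_lit 100) (nat_lit 65) (nat_lit 256) (.spl (nat_lit 0) (nat_lit 252)
(.spl (nat_lit 0) (nat_lit 251)
(.spl (nat_lit 5) (nat_lit 160)
(.leaf p044_l110)
(.leaf p044_l111))
(.leaf p044_l112))
(.leaf p044_l113)))
(.leaf p044_l114))
(.leaf p044_l115))
(.trX (nat_lit 16) (nat_lit 100) (nat_lit 90) (nat_lit 74) (nat_lit 300) (.leaf p044_l116)))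
(.leaf p044_l117))
(.leaf p044_l118))
(.spl (nat_lit 5) (nat_lit 160)
(.leaf p044_l119)
(.spl (nat_lit 5) (nat_lit 200)
(.leaf p044_l120)
(.leaf p044_l121)))))
(.spl (nat_lit 0) (nat_lit 255)
(.ord (.leaf p044_l122))
(.trX (nat_lit 16) (nat_lit 100) (nat_lit 90) (nat_lit 74) (nat_lit 300) (.leaf p044_l123)))))))
(.leaf p044_l124)))) (by decide +kernel)
noncomputable def p044_l125 : Lf2 := ⟨nat_lit 0, nat_lit 4, [nat_lit 38, nat_lit 5, nat_lit 5, nat_lit 20], false, nat_lit 280, nat_lit 320, nat_lit 0, nat_lit 160, ⟨nat_lit 1000, nat_lit 0, nat_lit 0, nat_lit 0, nat_lit 0, nat_lit 0, nat_lit 0, nat_lit 0, nat_lit 0, nat_lit 0, nat_lit 0, nat_lit 0, nat_lit 0, nat_lit 0, nat_lit 0, nat_lit 0, false, false⟩,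
 nat_lit 0, nat_lit 0, nat_lit 16232, nat_lit 4358, nat_lit 6395, nat_lit 8593, nat_lit 0, nat_lit 0, nat_lit 0, nat_lit 3248, nat_lit 0, nat_lit 0, nat_lit 0, nat_lit 1081913086193, nat_lit 0, nat_lit 0, nat_lit 0, nat_lit 0, [],
 ⟨p044_k19, nat_lit 0, nat_lit 0, nat_lit 79, nat_lit 0, nat_lit 0, [nat_lit 4688000000, nat_lit 6250000000, nat_lit 7968000000], [], [nat_lit 18186635530, nat_lit 19612995100, nat_lit 17129366740, nat_lit 18503581185, nat_lit 21617129000, nat_lit 22857795460, nat_lit 20426962740, nat_lit 21624782950], nat_lit 0, nat_lit 0, nat_lit 0, nat_lit 0, nat_lit 0, nat_lit 0, [], [nat_lit 9, nat_lit 40, nat_lit 40, nat_lit 80, nat_lit 2, nat_lit 226, nat_lit 20, nat_lit 7]⟩, ⟨p044_k19, nat_lit 0, nat_lit 0, nat_lit 259, nat_lit 0, nat_lit 122169, [nat_lit 4688000000, nat_lit 6250000000, nat_lit 7968000000], [], [nat_lit 16154421304, nat_lit 18458727082, nat_lit 14240274368, nat_lit 16427882856,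 nat_lit 13092878888, nat_lit 13771166720, nat_lit 14252145728, nat_lit 12555502276], nat_lit 1271250, nat_lit 1271250, nat_lit 230001, nat_lit 490000, nat_lit 0, nat_lit 1100001, [nat_lit 1100000, nat_lit 1442500, nat_lit 1271250], [nat_lit 9, nat_lit 40, nat_lit 40, nat_lit 80, nat_lit 2, nat_lit 272, nat_lit 60, nat_lit 9]⟩,
 zbF0, [⟨nat_lit 4, nat_lit 85, nat_lit 100, nat_lit 78, nat_lit 845331699⟩]⟩
noncomputable def p044_l126 : Lf2 := ⟨nat_lit 0, nat_lit 4, [nat_lit 38, nat_lit 5, nat_lit 5, nat_lit 20], false, nat_lit 280, nat_lit 320, nat_lit 160, nat_lit 240, ⟨nat_lit 1000, nat_lit 0, nat_lit 0, nat_lit 0, nat_lit 0, nat_lit 0, nat_lit 0, nat_lit 0, nat_lit 0, nat_lit 0, nat_lit 0, nat_lit 0, nat_lit 0, nat_lit 0, nat_lit 0, nat_lit 0, false, false⟩,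
 nat_lit 0, nat_lit 0, nat_lit 14172, nat_lit 0, nat_lit 6395, nat_lit 7502, nat_lit 0, nat_lit 0, nat_lit 0, nat_lit 0, nat_lit 0, nat_lit 0, nat_lit 0, nat_lit 0, nat_lit 0, nat_lit 0, nat_lit 0, nat_lit 0, [],
 ⟨p044_k19, nat_lit 0, nat_lit 0, nat_lit 79, nat_lit 0, nat_lit 0, [nat_lit 4688000000, nat_lit 6250000000, nat_lit 7968000000], [], [nat_lit 18186635530, nat_lit 19612995100, nat_lit 17129366740, nat_lit 18503581185, nat_lit 21617129000, nat_lit 22857795460, nat_lit 20426962740, nat_lit 21624782950], nat_lit 0, nat_lit 0, nat_lit 0, nat_lit 0, nat_lit 0, nat_lit 0, [], [nat_lit 9, nat_lit 40, nat_lit 40, nat_lit 80, nat_lit 2, nat_lit 226, nat_lit 20, nat_lit 7]⟩, ⟨p044_k19, nat_lit 0, nat_lit 0, nat_lit 179, nat_lit 0, nat_lit 122169, [nat_lit 4688000000, nat_lit 6250000000, nat_lit 7968000000], [], [nat_lit 8507908184, nat_lit 10659384948, nat_lit 7449874600, nat_lit 9515577236, nat_lit 13658250456,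 nat_lit 15431243224, nat_lit 12434750024, nat_lit 14138328392], nat_lit 1271250, nat_lit 1271250, nat_lit 230001, nat_lit 490000, nat_lit 1100001, nat_lit 1785000, [nat_lit 1100000, nat_lit 1442500, nat_lit 1271250], [nat_lit 9, nat_lit 40, nat_lit 40, nat_lit 80, nat_lit 2, nat_lit 317, nat_lit 100, nat_lit 10]⟩,
 zbF0, [⟨nat_lit 4, nat_lit 85, nat_lit 100, nat_lit 78, nat_lit 106362232⟩, ⟨nat_lit 11, nat_lit 100, nat_lit 87, nat_lit 50, nat_lit 1033238490⟩, ⟨nat_lit 23, nat_lit 90, nat_lit 100, nat_lit 74, nat_lit 80779648⟩]⟩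
noncomputable def p044_l127 : Lf2 := ⟨nat_lit 0, nat_lit 4, [nat_lit 38, nat_lit 5, nat_lit 5, nat_lit 20], false, nat_lit 280, nat_lit 320, nat_lit 240, nat_lit 300, ⟨nat_lit 1000, nat_lit 0, nat_lit 0, nat_lit 0, nat_lit 0, nat_lit 0, nat_lit 0, nat_lit 0, nat_lit 0, nat_lit 0, nat_lit 0, nat_lit 0, nat_lit 0, nat_lit 0, nat_lit 0, nat_lit 0, false, false⟩,
 nat_lit 0, nat_lit 0, nat_lit 18941, nat_lit 0, nat_lit 6914, nat_lit 10027, nat_lit 0, nat_lit 0, nat_lit 0, nat_lit 3646, nat_lit 0, nat_lit 0, nat_lit 0, nat_lit 0, nat_lit 0, nat_lit 0, nat_lit 0, nat_lit 0, [],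
 ⟨p044_k19, nat_lit 0, nat_lit 0, nat_lit 79, nat_lit 0, nat_lit 0, [nat_lit 4688000000, nat_lit 6250000000, nat_lit 7968000000], [], [nat_lit 17837874796, nat_lit 19327223320, nat_lit 16632170968, nat_lit 18066273342, nat_lit 21848974704, nat_lit 23355813508, nat_lit 20087542968, nat_lit 21532146984], nat_lit 0, nat_lit 0, nat_lit 0, nat_lit 0, nat_lit 0, nat_lit 0, [], [nat_lit 9, nat_lit 40, nat_lit 40, nat_lit 80, nat_lit 2, nat_lit 226, nat_lit 20, nat_lit 7]⟩, ⟨p044_k19, nat_lit 0, nat_lit 0, nat_lit 139, nat_lit 0, nat_lit 122169, [nat_lit 4688000000, nat_lit 6250000000, nat_lit 7968000000], [], [nat_lit 14620588120, nat_lit 16571301878, nat_lit 12658165792, nat_lit 14528869132, nat_lit 21707037668, nat_lit 23759040170, nat_lit 18890177689, nat_lit 20877444342], nat_lit 1271250, nat_lit 1271250, nat_lit 230001, nat_lit 490000, nat_lit 1271250, nat_lit 1271250, [nat_lit 1100000, nat_lit 1442500, nat_lit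 1271250], [nat_lit 9, nat_lit 40, nat_lit 40, nat_lit 80, nat_lit 2, nat_lit 226, nat_lit 20, nat_lit 7]⟩,
 zbF0, [⟨nat_lit 11, nat_lit 100, nat_lit 97, nat_lit 76, nat_lit 1137013787⟩]⟩
noncomputable def b_V_600_600_10_13 : St := ⟨true, nat_lit 0, nat_lit 1, nat_lit 1, nat_lit 80, nat_lit 240, nat_lit 260, nat_lit 240, nat_lit 260, nat_lit 40, nat_lit 80, nat_lit 60, nat_lit 80, nat_lit 280, nat_lit 320, nat_lit 0, nat_lit 300, nat_lit 0, nat_lit 16, nat_lit 0, nat_lit 0, nat_lit 0, nat_lit 0⟩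
theorem d_V_600_600_10_13 (h : EB TB.env) : Dead b_V_600_600_10_13 := chkB_sound0 h (T :=
(.spl (nat_lit 5) (nat_lit 160)
(.leaf p044_l125)
(.spl (nat_lit 5) (nat_lit 240)
(.leaf p044_l126)
(.leaf p044_l127)))) (by decide +kernel)
noncomputable def p044_l128 : Lf2 := ⟨nat_lit 0, nat_lit 6, [nat_lit 47, nat_lit 5, nat_lit 5, nat_lit 20], true, nat_lit 320, nat_lit 336, nat_lit 0, nat_lit 260, ⟨nat_lit 0, nat_lit 391, nat_lit 609, nat_lit 6, nat_lit 96, nat_lit 1000, nat_lit 244, nat_lit 609, nat_lit 31708, nat_lit 200, nat_lit 86400, nat_lit 287, nat_lit 45333850, nat_lit 4057966, nat_lit 17608184, nat_lit 4154718, false, false⟩,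
 nat_lit 0, nat_lit 0, nat_lit 0, nat_lit 100000, nat_lit 4262, nat_lit 0, nat_lit 233, nat_lit 0, nat_lit 0, nat_lit 0, nat_lit 0, nat_lit 0, nat_lit 0, nat_lit 158851746086679, nat_lit 46, nat_lit 765400, nat_lit 0, nat_lit 0, [(nat_lit 6, [(nat_lit 1, nat_lit 391), (nat_lit 6, nat_lit 609)])],
 ⟨p044_k1, nat_lit 0, nat_lit 0, nat_lit 168, nat_lit 0, nat_lit 0, [nat_lit 2383709867, nat_lit 2214428667, nat_lit 177676933], [], [nat_lit 21152002076, nat_lit 21553584787, nat_lit 19887919382, nat_lit 20286486130, nat_lit 22475071327, nat_lit 23035786685, nat_lit 20867500738, nat_lit 21246877038], nat_lit 0, nat_lit 0, nat_lit 0, nat_lit 0, nat_lit 0, nat_lit 0, [], [nat_lit 11, nat_lit 40, nat_lit 40, nat_lit 80, nat_lit 1, nat_lit 317, nat_lit 100, nat_lit 8]⟩, C1.Rw.none,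
 ⟨nat_lit 6123, nat_lit 6325, ⟨.ofNat (nat_lit 164319), .ofNat (nat_lit 295942), .ofNat (nat_lit 175003), .ofNat (nat_lit 306625), .ofNat (nat_lit 172944), .ofNat (nat_lit 301553), .ofNat (nat_lit 183618), .ofNat (nat_lit 312227)⟩, ⟨.ofNat (nat_lit 575844), .ofNat (nat_lit 608747), .ofNat (nat_lit 618577), .ofNat (nat_lit 651479), .ofNat (nat_lit 570352), .ofNat (nat_lit 602501), .ofNat (nat_lit 613044), .ofNat (nat_lit 645194)⟩⟩, [⟨nat_lit 0, nat_lit 100, nat_lit 100, nat_lit 50, nat_lit 207067503⟩, ⟨nat_lit 16, nat_lit 100, nat_lit 76, nat_lit 82, nat_lit 5461158651⟩]⟩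
noncomputable def p044_l129 : Lf2 := ⟨nat_lit 0, nat_lit 6, [nat_lit 47, nat_lit 5, nat_lit 5, nat_lit 20], true, nat_lit 320, nat_lit 328, nat_lit 0, nat_lit 260, ⟨nat_lit 0, nat_lit 1000, nat_lit 0, nat_lit 6, nat_lit 102, nat_lit 1000, nat_lit 239, nat_lit 0, nat_lit 0, nat_lit 0, nat_lit 0, nat_lit 0, nat_lit 45509399, nat_lit 4497846, nat_lit 16992755, nat_lit 4200129, false, false⟩,
 nat_lit 0, nat_lit 0, nat_lit 0, nat_lit 100000, nat_lit 4917, nat_lit 0, nat_lit 3328, nat_lit 0, nat_lit 0, nat_lit 0, nat_lit 0, nat_lit 0, nat_lit 0, nat_lit 155360515061781, nat_lit 0, nat_lit 400000, nat_lit 0, nat_lit 0, [(nat_lit 6, [(nat_lit 1, nat_lit 1000)])],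
 ⟨p044_k2, nat_lit 0, nat_lit 0, nat_lit 161, nat_lit 0, nat_lit 0, [nat_lit 2692266667, nat_lit 3151066667, nat_lit 3294533333], [], [nat_lit 22214253876, nat_lit 22761581214, nat_lit 20786744599, nat_lit 21237610272, nat_lit 22932637446, nat_lit 23547736296, nat_lit 21338477604, nat_lit 21777746919], nat_lit 0, nat_lit 0, nat_lit 0, nat_lit 0, nat_lit 0, nat_lit 0, [], [nat_lit 11, nat_lit 40, nat_lit 40, nat_lit 80, nat_lit 1, nat_lit 317, nat_lit 100, nat_lit 8]⟩, C1.Rw.none,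
 ⟨nat_lit 5916, nat_lit 6124, ⟨.ofNat (nat_lit 180982), .ofNat (nat_lit 301553), .ofNat (nat_lit 202330), .ofNat (nat_lit 322901), .ofNat (nat_lit 189276), .ofNat (nat_lit 307076), .ofNat (nat_lit 210615), .ofNat (nat_lit 328416)⟩, ⟨.ofNat (nat_lit 570354), .ofNat (nat_lit 586429), .ofNat (nat_lit 613047), .ofNat (nat_lit 629122), .ofNat (nat_lit 564883), .ofNat (nat_lit 580589), .ofNat (nat_lit 607559), .ofNat (nat_lit 623264)⟩⟩, [⟨nat_lit 0, nat_lit 100, nat_lit 100, nat_lit 60, nat_lit 223700766⟩, ⟨nat_lit 16, nat_lit 100, nat_lit 81, nat_lit 83, nat_lit 11086312532⟩]⟩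
noncomputable def b_V_600_600_10_14 : St := ⟨true, nat_lit 0, nat_lit 1, nat_lit 1, nat_lit 80, nat_lit 240, nat_lit 260, nat_lit 240, nat_lit 260, nat_lit 16, nat_lit 80, nat_lit 40, nat_lit 80, nat_lit 320, nat_lit 336, nat_lit 0, nat_lit 300, nat_lit 0, nat_lit 24, nat_lit 0, nat_lit 0, nat_lit 0, nat_lit 0⟩
theorem d_V_600_600_10_14 (h : EB TB.env) : Dead b_V_600_600_10_14 := chkB_sound0 h (T :=
(.trX (nat_lit 23) (nat_lit 83) (nat_lit 100) (nat_lit 83) (nat_lit 260) (.spl (nat_lit 0) (nat_lit 250)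
(.ord (.leaf p044_l128))
(.trZ (nat_lit 0) (nat_lit 100) (nat_lit 99) (nat_lit 45) (nat_lit 20) (.trX (nat_lit 16) (nat_lit 100) (nat_lit 81) (nat_lit 83) (nat_lit 328) (.leaf p044_l129)))))) (by decide +kernel)
noncomputable def p044_l130 : Lf2 := ⟨nat_lit 0, nat_lit 6, [nat_lit 47, nat_lit 5, nat_lit 5, nat_lit 20], true, nat_lit 240, nat_lit 280, nat_lit 0, nat_lit 336, ⟨nat_lit 0, nat_lit 1000, nat_lit 0, nat_lit 6, nat_lit 141, nat_lit 1000, nat_lit 188, nat_lit 0, nat_lit 0, nat_lit 0, nat_lit 0, nat_lit 0, nat_lit 47617829, nat_lit 7526014, nat_lit 11856157, nat_lit 4256875, false, false⟩,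
 nat_lit 0, nat_lit 0, nat_lit 0, nat_lit 2291, nat_lit 5865, nat_lit 0, nat_lit 0, nat_lit 0, nat_lit 0, nat_lit 0, nat_lit 0, nat_lit 0, nat_lit 0, nat_lit 2497102459862, nat_lit 0, nat_lit 250000, nat_lit 0, nat_lit 0, [(nat_lit 6, [(nat_lit 0, nat_lit 1000)])],
 ⟨p044_k0, nat_lit 0, nat_lit 0, nat_lit 18, nat_lit 0, nat_lit 0, [nat_lit 3128000000, nat_lit 3710400000], [], [nat_lit 12940624380, nat_lit 14417995540, nat_lit 13066876860, nat_lit 14467541910, nat_lit 16077100380, nat_lit 17390157595, nat_lit 16041434630, nat_lit 17287924930], nat_lit 0, nat_lit 0, nat_lit 0, nat_lit 0, nat_lit 0, nat_lit 0, [], [nat_lit 70, nat_lit 40, nat_lit 40, nat_lit 80, nat_lit 13, nat_lit 401, nat_lit 175, nat_lit 11]⟩, C1.Rw.none,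
 ⟨nat_lit 5916, nat_lit 6325, ⟨.ofNat (nat_lit 295942), .ofNat (nat_lit 378206), .ofNat (nat_lit 317309), .ofNat (nat_lit 399574), .ofNat (nat_lit 307076), .ofNat (nat_lit 385610), .ofNat (nat_lit 328416), .ofNat (nat_lit 406949)⟩, ⟨.ofNat (nat_lit 411320), .ofNat (nat_lit 493584), .ofNat (nat_lit 454055), .ofNat (nat_lit 536315), .ofNat (nat_lit 407818), .ofNat (nat_lit 486351), .ofNat (nat_lit 450496), .ofNat (nat_lit 529025)⟩⟩, [⟨nat_lit 4, nat_lit 88, nat_lit 100, nat_lit 74, nat_lit 19887102⟩]⟩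
noncomputable def p044_l131 : Lf2 := ⟨nat_lit 0, nat_lit 6, [nat_lit 47, nat_lit 5, nat_lit 5, nat_lit 20], true, nat_lit 280, nat_lit 336, nat_lit 0, nat_lit 336, ⟨nat_lit 0, nat_lit 1000, nat_lit 0, nat_lit 6, nat_lit 138, nat_lit 1000, nat_lit 228, nat_lit 0, nat_lit 0, nat_lit 0, nat_lit 0, nat_lit 0, nat_lit 44399757, nat_lit 7042058, nat_lit 15558185, nat_lit 4541949, false, false⟩,
 nat_lit 0, nat_lit 0, nat_lit 0, nat_lit 12399, nat_lit 5975, nat_lit 0, nat_lit 0, nat_lit 0, nat_lit 0, nat_lit 0, nat_lit 0, nat_lit 0, nat_lit 0, nat_lit 42648088720, nat_lit 0, nat_lit 250000, nat_lit 0, nat_lit 0, [(nat_lit 6, [(nat_lit 0, nat_lit 1000)])],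
 ⟨p044_k0, nat_lit 0, nat_lit 0, nat_lit 50, nat_lit 0, nat_lit 0, [nat_lit 3128000000, nat_lit 3710400000], [], [nat_lit 15971721700, nat_lit 16634596813, nat_lit 15918791450, nat_lit 16547911700, nat_lit 21406076440, nat_lit 22041037430, nat_lit 20947200500, nat_lit 21553911770], nat_lit 0, nat_lit 0, nat_lit 0, nat_lit 0, nat_lit 0, nat_lit 0, [], [nat_lit 70, nat_lit 40, nat_lit 40, nat_lit 80, nat_lit 13, nat_lit 317, nat_lit 100, nat_lit 8]⟩, C1.Rw.none,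
 ⟨nat_lit 6123, nat_lit 6325, ⟨.ofNat (nat_lit 295942), .ofNat (nat_lit 378206), .ofNat (nat_lit 306625), .ofNat (nat_lit 388890), .ofNat (nat_lit 301553), .ofNat (nat_lit 381933), .ofNat (nat_lit 312227), .ofNat (nat_lit 392607)⟩, ⟨.ofNat (nat_lit 493584), .ofNat (nat_lit 608747), .ofNat (nat_lit 536318), .ofNat (nat_lit 651479), .ofNat (nat_lit 489975), .ofNat (nat_lit 602501), .ofNat (nat_lit 532670), .ofNat (nat_lit 645194)⟩⟩, [⟨nat_lit 4, nat_lit 86, nat_lit 100, nat_lit 73, nat_lit 555906215⟩]⟩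
noncomputable def p044_l132 : Lf2 := ⟨nat_lit 0, nat_lit 6, [nat_lit 47, nat_lit 5, nat_lit 5, nat_lit 20], true, nat_lit 280, nat_lit 328, nat_lit 0, nat_lit 336, ⟨nat_lit 0, nat_lit 1000, nat_lit 0, nat_lit 6, nat_lit 142, nat_lit 1000, nat_lit 223, nat_lit 0, nat_lit 0, nat_lit 0, nat_lit 0, nat_lit 0, nat_lit 44594965, nat_lit 7376265, nat_lit 15028770, nat_lit 4549047, false, false⟩,
 nat_lit 0, nat_lit 0, nat_lit 0, nat_lit 3398, nat_lit 5034, nat_lit 0, nat_lit 0, nat_lit 0, nat_lit 0, nat_lit 0, nat_lit 0, nat_lit 0, nat_lit 0, nat_lit 15345550380270, nat_lit 0, nat_lit 400000, nat_lit 0, nat_lit 0, [(nat_lit 6, [(nat_lit 1, nat_lit 1000)])],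
 ⟨p044_k14, nat_lit 0, nat_lit 0, nat_lit 73, nat_lit 0, nat_lit 0, [nat_lit 2838000000, nat_lit 3290000000, nat_lit 3169200000], [], [nat_lit 17191772055, nat_lit 17800355702, nat_lit 17256809548, nat_lit 17835670988, nat_lit 20665142755, nat_lit 21186286149, nat_lit 20558738239, nat_lit 21055524681], nat_lit 0, nat_lit 0, nat_lit 0, nat_lit 0, nat_lit 0, nat_lit 0, [], [nat_lit 29, nat_lit 40, nat_lit 40, nat_lit 80, nat_lit 17, nat_lit 317, nat_lit 100, nat_lit 8]⟩, C1.Rw.none,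
 ⟨nat_lit 5916, nat_lit 6124, ⟨.ofNat (nat_lit 301553), .ofNat (nat_lit 381933), .ofNat (nat_lit 322901), .ofNat (nat_lit 403281), .ofNat (nat_lit 307076), .ofNat (nat_lit 385610), .ofNat (nat_lit 328416), .ofNat (nat_lit 406949)⟩, ⟨.ofNat (nat_lit 489975), .ofNat (nat_lit 586429), .ofNat (nat_lit 532671), .ofNat (nat_lit 629122), .ofNat (nat_lit 486351), .ofNat (nat_lit 580589), .ofNat (nat_lit 529030), .ofNat (nat_lit 623264)⟩⟩, [⟨nat_lit 16, nat_lit 100, nat_lit 81, nat_lit 83, nat_lit 343901822⟩]⟩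
noncomputable def b_V_600_600_10_15 : St := ⟨true, nat_lit 0, nat_lit 1, nat_lit 1, nat_lit 80, nat_lit 240, nat_lit 260, nat_lit 240, nat_lit 260, nat_lit 80, nat_lit 120, nat_lit 40, nat_lit 80, nat_lit 240, nat_lit 336, nat_lit 0, nat_lit 336, nat_lit 0, nat_lit 24, nat_lit 0, nat_lit 0, nat_lit 0, nat_lit 0⟩
theorem d_V_600_600_10_15 (h : EB TB.env) : Dead b_V_600_600_10_15 := chkB_sound0 h (T :=
(.spl (nat_lit 4) (nat_lit 280)
(.leaf p044_l130)
(.spl (nat_lit 0) (nat_lit 250)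
(.ord (.leaf p044_l131))
(.trX (nat_lit 16) (nat_lit 100) (nat_lit 81) (nat_lit 83) (nat_lit 328) (.leaf p044_l132))))) (by decide +kernel)
noncomputable def p044_l133 : Lf2 := ⟨nat_lit 0, nat_lit 5, [nat_lit 4, nat_lit 5, nat_lit 5, nat_lit 20], true, nat_lit 240, nat_lit 280, nat_lit 0, nat_lit 288, ⟨nat_lit 0, nat_lit 0, nat_lit 1000, nat_lit 6, nat_lit 93, nat_lit 1000, nat_lit 183, nat_lit 1000, nat_lit 28439, nat_lit 256, nat_lit 81667, nat_lit 285, nat_lit 51389487, nat_lit 0, nat_lit 0, nat_lit 3585800, false, false⟩,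
 nat_lit 0, nat_lit 0, nat_lit 0, nat_lit 3065, nat_lit 4150, nat_lit 0, nat_lit 0, nat_lit 0, nat_lit 0, nat_lit 0, nat_lit 0, nat_lit 0, nat_lit 0, nat_lit 7198960758585, nat_lit 55, nat_lit 400000, nat_lit 0, nat_lit 0, [(nat_lit 9, [(nat_lit 5, nat_lit 1000)])],
 ⟨p044_k5, nat_lit 0, nat_lit 0, nat_lit 78, nat_lit 0, nat_lit 0, [nat_lit 2406400000, nat_lit 893600000, nat_lit 116000000], [], [nat_lit 15734761480, nat_lit 16381769441, nat_lit 15106735800, nat_lit 15749568600, nat_lit 18536879500, nat_lit 19207910650, nat_lit 17687537000, nat_lit 18355652650], nat_lit 0, nat_lit 0, nat_lit 0, nat_lit 0, nat_lit 0, nat_lit 0, [], [nat_lit 9, nat_lit 40, nat_lit 40, nat_lit 80, nat_lit 2, nat_lit 215, nat_lit 10, nat_lit 6]⟩, C1.Rw.none,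
 ⟨nat_lit 5700, nat_lit 5917, ⟨.ofNat (nat_lit 197129), .ofNat (nat_lit 228543), .ofNat (nat_lit 229138), .ofNat (nat_lit 260552), .ofNat (nat_lit 205119), .ofNat (nat_lit 235806), .ofNat (nat_lit 237132), .ofNat (nat_lit 267819)⟩, ⟨.ofNat (nat_lit 407818), .ofNat (nat_lit 486351), .ofNat (nat_lit 429157), .ofNat (nat_lit 507691), .ofNat (nat_lit 405982), .ofNat (nat_lit 482701), .ofNat (nat_lit 427324), .ofNat (nat_lit 504043)⟩⟩, [⟨nat_lit 0, nat_lit 100, nat_lit 98, nat_lit 60, nat_lit 385941340⟩, ⟨nat_lit 4, nat_lit 98, nat_lit 100, nat_lit 70, nat_lit 60638554⟩]⟩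
noncomputable def p044_l134 : Lf2 := ⟨nat_lit 0, nat_lit 5, [nat_lit 4, nat_lit 5, nat_lit 5, nat_lit 20], true, nat_lit 240, nat_lit 280, nat_lit 0, nat_lit 288, ⟨nat_lit 0, nat_lit 1000, nat_lit 0, nat_lit 6, nat_lit 93, nat_lit 1000, nat_lit 191, nat_lit 0, nat_lit 0, nat_lit 0, nat_lit 0, nat_lit 0, nat_lit 50577878, nat_lit 4056468, nat_lit 12365654, nat_lit 3676632, false, false⟩,
 nat_lit 0, nat_lit 0, nat_lit 0, nat_lit 3158, nat_lit 5214, nat_lit 0, nat_lit 0, nat_lit 0, nat_lit 0, nat_lit 0, nat_lit 0, nat_lit 0, nat_lit 0, nat_lit 5643923401299, nat_lit 0, nat_lit 400000, nat_lit 0, nat_lit 0, [(nat_lit 9, [(nat_lit 1, nat_lit 1000)])],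
 ⟨p044_k50, nat_lit 0, nat_lit 0, nat_lit 62, nat_lit 0, nat_lit 0, [nat_lit 2742800000, nat_lit 3014800000], [], [nat_lit 16269800565, nat_lit 16994666087, nat_lit 15422578968, nat_lit 16142756056, nat_lit 19437672540, nat_lit 20188777139, nat_lit 18318077320, nat_lit 19066969634], nat_lit 0, nat_lit 0, nat_lit 0, nat_lit 0, nat_lit 0, nat_lit 0, [], [nat_lit 39, nat_lit 40, nat_lit 40, nat_lit 80, nat_lit 7, nat_lit 215, nat_lit 10, nat_lit 6]⟩, C1.Rw.none,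
 ⟨nat_lit 5700, nat_lit 5917, ⟨.ofNat (nat_lit 197129), .ofNat (nat_lit 228543), .ofNat (nat_lit 229138), .ofNat (nat_lit 260552), .ofNat (nat_lit 205119), .ofNat (nat_lit 235806), .ofNat (nat_lit 237132), .ofNat (nat_lit 267819)⟩, ⟨.ofNat (nat_lit 429157), .ofNat (nat_lit 507691), .ofNat (nat_lit 450496), .ofNat (nat_lit 529030), .ofNat (nat_lit 427324), .ofNat (nat_lit 504043), .ofNat (nat_lit 448666), .ofNat (nat_lit 525385)⟩⟩, [⟨nat_lit 0, nat_lit 100, nat_lit 98, nat_lit 60, nat_lit 471828076⟩]⟩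
noncomputable def p044_l135 : Lf2 := ⟨nat_lit 0, nat_lit 10, [nat_lit 0, nat_lit 5, nat_lit 5, nat_lit 20], true, nat_lit 240, nat_lit 280, nat_lit 0, nat_lit 288, ⟨nat_lit 0, nat_lit 1000, nat_lit 0, nat_lit 6, nat_lit 91, nat_lit 1000, nat_lit 187, nat_lit 0, nat_lit 0, nat_lit 0, nat_lit 0, nat_lit 0, nat_lit 51071772, nat_lit 3944027, nat_lit 11984201, nat_lit 3609336, false, false⟩,
 nat_lit 0, nat_lit 0, nat_lit 0, nat_lit 8056, nat_lit 5492, nat_lit 0, nat_lit 0, nat_lit 0, nat_lit 0, nat_lit 0, nat_lit 0, nat_lit 0, nat_lit 0, nat_lit 11407305290763, nat_lit 0, nat_lit 250000, nat_lit 0, nat_lit 0, [(nat_lit 9, [(nat_lit 0, nat_lit 1000)])],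
 ⟨p044_k4, nat_lit 0, nat_lit 0, nat_lit 60, nat_lit 0, nat_lit 0, [nat_lit 3116800000, nat_lit 3614800000], [], [nat_lit 16465775815, nat_lit 16838379817, nat_lit 15561283104, nat_lit 15931475836, nat_lit 19673030120, nat_lit 20059043142, nat_lit 18539004960, nat_lit 18868196478], nat_lit 0, nat_lit 0, nat_lit 0, nat_lit 0, nat_lit 0, nat_lit 0, [], [nat_lit 70, nat_lit 40, nat_lit 40, nat_lit 80, nat_lit 13, nat_lit 373, nat_lit 150, nat_lit 10]⟩, C1.Rw.none,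
 ⟨nat_lit 5809, nat_lit 5917, ⟨.ofNat (nat_lit 197129), .ofNat (nat_lit 228543), .ofNat (nat_lit 223803), .ofNat (nat_lit 255217), .ofNat (nat_lit 201138), .ofNat (nat_lit 232187), .ofNat (nat_lit 227812), .ofNat (nat_lit 258861)⟩, ⟨.ofNat (nat_lit 407818), .ofNat (nat_lit 486351), .ofNat (nat_lit 450496), .ofNat (nat_lit 529030), .ofNat (nat_lit 406908), .ofNat (nat_lit 484530), .ofNat (nat_lit 449586), .ofNat (nat_lit 527209)⟩⟩, [⟨nat_lit 0, nat_lit 100, nat_lit 100, nat_lit 65, nat_lit 476295196⟩, ⟨nat_lit 4, nat_lit 93, nat_lit 100, nat_lit 75, nat_lit 278163397⟩]⟩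
noncomputable def p044_l136 : Lf2 := ⟨nat_lit 0, nat_lit 10, [nat_lit 0, nat_lit 5, nat_lit 5, nat_lit 20], true, nat_lit 240, nat_lit 280, nat_lit 0, nat_lit 288, ⟨nat_lit 0, nat_lit 1000, nat_lit 0, nat_lit 6, nat_lit 94, nat_lit 1000, nat_lit 187, nat_lit 0, nat_lit 0, nat_lit 0, nat_lit 0, nat_lit 0, nat_lit 50962544, nat_lit 4114340, nat_lit 11923116, nat_lit 3639609, false, false⟩,
 nat_lit 0, nat_lit 0, nat_lit 0, nat_lit 10579, nat_lit 5492, nat_lit 0, nat_lit 0, nat_lit 0, nat_lit 0, nat_lit 0, nat_lit 0, nat_lit 0, nat_lit 0, nat_lit 0, nat_lit 0, nat_lit 250000, nat_lit 0, nat_lit 0, [(nat_lit 9, [(nat_lit 0, nat_lit 1000)])],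
 ⟨p044_k6, nat_lit 0, nat_lit 0, nat_lit 62, nat_lit 0, nat_lit 0, [nat_lit 3116800000, nat_lit 3614800000], [], [nat_lit 16838379817, nat_lit 17210983820, nat_lit 15931475836, nat_lit 16301668568, nat_lit 20059043142, nat_lit 20445056164, nat_lit 18868196478, nat_lit 19252821252], nat_lit 0, nat_lit 0, nat_lit 0, nat_lit 0, nat_lit 0, nat_lit 0, [], [nat_lit 70, nat_lit 40, nat_lit 40, nat_lit 80, nat_lit 13, nat_lit 373, nat_lit 150, nat_lit 10]⟩, C1.Rw.none,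
 ⟨nat_lit 5700, nat_lit 5810, ⟨.ofNat (nat_lit 201138), .ofNat (nat_lit 232187), .ofNat (nat_lit 233147), .ofNat (nat_lit 264196), .ofNat (nat_lit 205119), .ofNat (nat_lit 235806), .ofNat (nat_lit 237132), .ofNat (nat_lit 267819)⟩, ⟨.ofNat (nat_lit 406908), .ofNat (nat_lit 484530), .ofNat (nat_lit 449586), .ofNat (nat_lit 527209), .ofNat (nat_lit 405982), .ofNat (nat_lit 482701), .ofNat (nat_lit 448666), .ofNat (nat_lit 525385)⟩⟩, [⟨nat_lit 0, nat_lit 100, nat_lit 98, nat_lit 61, nat_lit 1154822888⟩, ⟨nat_lit 4, nat_lit 96, nat_lit 100, nat_lit 76, nat_lit 383943293⟩]⟩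
noncomputable def p044_l137 : Lf2 := ⟨nat_lit 0, nat_lit 10, [nat_lit 0, nat_lit 5, nat_lit 5, nat_lit 20], true, nat_lit 240, nat_lit 280, nat_lit 0, nat_lit 288, ⟨nat_lit 0, nat_lit 1000, nat_lit 0, nat_lit 6, nat_lit 100, nat_lit 1000, nat_lit 186, nat_lit 0, nat_lit 0, nat_lit 0, nat_lit 0, nat_lit 0, nat_lit 50665492, nat_lit 4511308, nat_lit 11823200, nat_lit 3712272, false, false⟩,
 nat_lit 0, nat_lit 0, nat_lit 0, nat_lit 2725, nat_lit 5444, nat_lit 0, nat_lit 0, nat_lit 0, nat_lit 0, nat_lit 0, nat_lit 0, nat_lit 0, nat_lit 0, nat_lit 0, nat_lit 0, nat_lit 250000, nat_lit 0, nat_lit 0, [(nat_lit 9, [(nat_lit 0, nat_lit 1000)])],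
 ⟨p044_k7, nat_lit 0, nat_lit 0, nat_lit 62, nat_lit 0, nat_lit 0, [nat_lit 3116800000, nat_lit 3614800000], [], [nat_lit 17013358645, nat_lit 17753854432, nat_lit 16338805976, nat_lit 17075702224, nat_lit 20105787852, nat_lit 20873700497, nat_lit 19220904972, nat_lit 19987141216], nat_lit 0, nat_lit 0, nat_lit 0, nat_lit 0, nat_lit 0, nat_lit 0, [], [nat_lit 70, nat_lit 40, nat_lit 40, nat_lit 80, nat_lit 13, nat_lit 373, nat_lit 150, nat_lit 10]⟩, C1.Rw.none,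
 ⟨nat_lit 5477, nat_lit 5701, ⟨.ofNat (nat_lit 212791), .ofNat (nat_lit 235806), .ofNat (nat_lit 255475), .ofNat (nat_lit 278490), .ofNat (nat_lit 220501), .ofNat (nat_lit 242980), .ofNat (nat_lit 263215), .ofNat (nat_lit 285695)⟩, ⟨.ofNat (nat_lit 405982), .ofNat (nat_lit 482701), .ofNat (nat_lit 448666), .ofNat (nat_lit 525385), .ofNat (nat_lit 404075), .ofNat (nat_lit 479008), .ofNat (nat_lit 446789), .ofNat (nat_lit 521722)⟩⟩, [⟨nat_lit 0, nat_lit 100, nat_lit 97, nat_lit 67, nat_lit 616317965⟩, ⟨nat_lit 4, nat_lit 99, nat_lit 100, nat_lit 77, nat_lit 29572252⟩]⟩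
noncomputable def b_V_600_600_10_16 : St := ⟨true, nat_lit 0, nat_lit 1, nat_lit 1, nat_lit 80, nat_lit 260, nat_lit 280, nat_lit 240, nat_lit 280, nat_lit 24, nat_lit 40, nat_lit 40, nat_lit 80, nat_lit 240, nat_lit 280, nat_lit 0, nat_lit 288, nat_lit 0, nat_lit 40, nat_lit 0, nat_lit 0, nat_lit 0, nat_lit 0⟩
theorem d_V_600_600_10_16 (h : EB TB.env) : Dead b_V_600_600_10_16 := chkB_sound0 h (T :=
(.spl (nat_lit 0) (nat_lit 270)
(.ord (.spl (nat_lit 6) (nat_lit 20)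
(.spl (nat_lit 3) (nat_lit 60)
(.leaf p044_l133)
(.leaf p044_l134))
(.spl (nat_lit 0) (nat_lit 265)
(.ord (.leaf p044_l135))
(.leaf p044_l136))))
(.trZ (nat_lit 0) (nat_lit 100) (nat_lit 96) (nat_lit 54) (nat_lit 28) (.leaf p044_l137)))) (by decide +kernel)
noncomputable def p044_l138 : Lf2 := ⟨nat_lit 0, nat_lit 5, [nat_lit 4, nat_lit 5, nat_lit 5, nat_lit 20], false, nat_lit 280, nat_lit 296, nat_lit 0, nat_lit 80, ⟨nat_lit 1000, nat_lit 0, nat_lit 0, nat_lit 0, nat_lit 0, nat_lit 0, nat_lit 0, nat_lit 0, nat_lit 0, nat_lit 0, nat_lit 0, nat_lit 0, nat_lit 0, nat_lit 0, nat_lit 0, nat_lit 0, false, false⟩,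
 nat_lit 0, nat_lit 0, nat_lit 20324, nat_lit 0, nat_lit 6637, nat_lit 10759, nat_lit 0, nat_lit 0, nat_lit 0, nat_lit 2977, nat_lit 0, nat_lit 0, nat_lit 0, nat_lit 0, nat_lit 0, nat_lit 0, nat_lit 0, nat_lit 0, [],
 ⟨p044_k5, nat_lit 0, nat_lit 0, nat_lit 84, nat_lit 0, nat_lit 0, [nat_lit 4688000000, nat_lit 6250000000, nat_lit 7968000000], [], [nat_lit 20642800520, nat_lit 20899857163, nat_lit 20061272790, nat_lit 20280246472, nat_lit 22219823265, nat_lit 22462794371, nat_lit 21476521623, nat_lit 21719266551], nat_lit 0, nat_lit 0, nat_lit 0, nat_lit 0, nat_lit 0, nat_lit 0, [], [nat_lit 9, nat_lit 40, nat_lit 40, nat_lit 80, nat_lit 2, nat_lit 215, nat_lit 10, nat_lit 6]⟩, ⟨p044_k8, nat_lit 0, nat_lit 0, nat_lit 367, nat_lit 0, nat_lit 261452, [nat_lit 4688000000, nat_lit 6250000000, nat_lit 9842000000], [], [nat_lit 21709786101, nat_lit 24053690060, nat_lit 20453640266, nat_lit 22795266997, nat_lit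 21492515588, nat_lit 16177057459, nat_lit 21568238194, nat_lit 16267980381], nat_lit 1271250, nat_lit 1271250, nat_lit 134400, nat_lit 181601, nat_lit 0, nat_lit 490000, [nat_lit 1100000, nat_lit 1442500, nat_lit 1271250], [nat_lit 11, nat_lit 40, nat_lit 40, nat_lit 80, nat_lit 1, nat_lit 317, nat_lit 100, nat_lit 10]⟩,
 zbF0, [⟨nat_lit 0, nat_lit 100, nat_lit 98, nat_lit 55, nat_lit 1179243434⟩, ⟨nat_lit 4, nat_lit 96, nat_lit 100, nat_lit 70, nat_lit 1158270394⟩]⟩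
noncomputable def p044_l139 : Lf2 := ⟨nat_lit 0, nat_lit 5, [nat_lit 4, nat_lit 5, nat_lit 5, nat_lit 20], false, nat_lit 280, nat_lit 296, nat_lit 80, nat_lit 160, ⟨nat_lit 1000, nat_lit 0, nat_lit 0, nat_lit 0, nat_lit 0, nat_lit 0, nat_lit 0, nat_lit 0, nat_lit 0, nat_lit 0, nat_lit 0, nat_lit 0, nat_lit 0, nat_lit 0, nat_lit 0, nat_lit 0, false, false⟩,
 nat_lit 0, nat_lit 0, nat_lit 23122, nat_lit 0, nat_lit 6773, nat_lit 12241, nat_lit 0, nat_lit 0, nat_lit 0, nat_lit 3920, nat_lit 0, nat_lit 0, nat_lit 0, nat_lit 0, nat_lit 0, nat_lit 0, nat_lit 0, nat_lit 0, [],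
 ⟨p044_k5, nat_lit 0, nat_lit 0, nat_lit 84, nat_lit 0, nat_lit 0, [nat_lit 4688000000, nat_lit 6250000000, nat_lit 7968000000], [], [nat_lit 20757537530, nat_lit 21018066609, nat_lit 20000540739, nat_lit 20260400098, nat_lit 22354977508, nat_lit 22600770957, nat_lit 21594420622, nat_lit 21839988747], nat_lit 0, nat_lit 0, nat_lit 0, nat_lit 0, nat_lit 0, nat_lit 0, [], [nat_lit 9, nat_lit 40, nat_lit 40, nat_lit 80, nat_lit 2, nat_lit 215, nat_lit 10, nat_lit 6]⟩, ⟨p044_k8, nat_lit 0, nat_lit 0, nat_lit 298, nat_lit 0, nat_lit 261452, [nat_lit 4688000000, nat_lit 6250000000, nat_lit 9842000000], [], [nat_lit 9668040196, nat_lit 12738329313, nat_lit 8448319501, nat_lit 11141232882, nat_lit 8827696852, nat_lit 12224509868, nat_lit 7672200318, nat_lit 10756645706], nat_lit 1271250, nat_lit 1271250, nat_lit 134400, nat_lit 181601, nat_lit 490000, nat_lit 1100001, [nat_lit 1100000, nat_lit 1442500, nat_lit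 1271250], [nat_lit 11, nat_lit 40, nat_lit 40, nat_lit 80, nat_lit 1, nat_lit 345, nat_lit 125, nat_lit 10]⟩,
 zbF0, [⟨nat_lit 0, nat_lit 100, nat_lit 98, nat_lit 55, nat_lit 2164015132⟩, ⟨nat_lit 4, nat_lit 96, nat_lit 100, nat_lit 70, nat_lit 1412874112⟩]⟩
noncomputable def p044_l140 : Lf2 := ⟨nat_lit 0, nat_lit 5, [nat_lit 4, nat_lit 5, nat_lit 5, nat_lit 20], false, nat_lit 280, nat_lit 296, nat_lit 160, nat_lit 200, ⟨nat_lit 50, nat_lit 950, nat_lit 0, nat_lit 6, nat_lit 85, nat_lit 950, nat_lit 205, nat_lit 0, nat_lit 0, nat_lit 0, nat_lit 0, nat_lit 0, nat_lit 49750737, nat_lit 3493297, nat_lit 13755966, nat_lit 3696107, false, false⟩,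
 nat_lit 0, nat_lit 0, nat_lit 3124, nat_lit 0, nat_lit 4889, nat_lit 1653, nat_lit 0, nat_lit 0, nat_lit 0, nat_lit 0, nat_lit 0, nat_lit 0, nat_lit 0, nat_lit 0, nat_lit 0, nat_lit 380000, nat_lit 0, nat_lit 0, [(nat_lit 9, [(nat_lit 1, nat_lit 950)])],
 ⟨p044_k5, nat_lit 0, nat_lit 0, nat_lit 84, nat_lit 0, nat_lit 0, [nat_lit 2801984001, nat_lit 3032160001, nat_lit 3275709999], [], [nat_lit 19355471724, nat_lit 19543068964, nat_lit 18955842273, nat_lit 19142909571, nat_lit 20482817603, nat_lit 20689389421, nat_lit 20079389963, nat_lit 20257426018], nat_lit 0, nat_lit 0, nat_lit 0, nat_lit 0, nat_lit 0, nat_lit 0, [], [nat_lit 9, nat_lit 40, nat_lit 40, nat_lit 80, nat_lit 2, nat_lit 215, nat_lit 10, nat_lit 6]⟩, ⟨p044_k8, nat_lit 0, nat_lit 0, nat_lit 194, nat_lit 0, nat_lit 209112, [nat_lit 234400000, nat_lit 312500000, nat_lit 492100000], [], [nat_lit 1284785052, nat_lit 858190383, nat_lit 940446638,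 nat_lit 515128085, nat_lit 741884946, nat_lit 908636596, nat_lit 577155286, nat_lit 703524944], nat_lit 1271250, nat_lit 1271250, nat_lit 134400, nat_lit 181601, nat_lit 1100001, nat_lit 1442500, [nat_lit 1100000, nat_lit 1442500, nat_lit 1271250], [nat_lit 11, nat_lit 40, nat_lit 40, nat_lit 80, nat_lit 1, nat_lit 345, nat_lit 125, nat_lit 10]⟩,
 ⟨nat_lit 5852, nat_lit 5917, ⟨.ofNat (nat_lit 197129), .ofNat (nat_lit 212836), .ofNat (nat_lit 207799), .ofNat (nat_lit 223506), .ofNat (nat_lit 199538), .ofNat (nat_lit 215135), .ofNat (nat_lit 210207), .ofNat (nat_lit 225805)⟩, ⟨.ofNat (nat_lit 486351), .ofNat (nat_lit 517765), .ofNat (nat_lit 507691), .ofNat (nat_lit 539104), .ofNat (nat_lit 485260), .ofNat (nat_lit 516454), .ofNat (nat_lit 506599), .ofNat (nat_lit 537793)⟩⟩, [⟨nat_lit 0, nat_lit 100, nat_lit 98, nat_lit 53, nat_lit 611694267⟩, ⟨nat_lit 16, nat_lit 100, nat_lit 92, nat_lit 75, nat_lit 397277915⟩]⟩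
noncomputable def p044_l141 : Lf2 := ⟨nat_lit 0, nat_lit 5, [nat_lit 4, nat_lit 5, nat_lit 5, nat_lit 20], false, nat_lit 280, nat_lit 296, nat_lit 160, nat_lit 200, ⟨nat_lit 1000, nat_lit 0, nat_lit 0, nat_lit 0, nat_lit 0, nat_lit 0, nat_lit 0, nat_lit 0, nat_lit 0, nat_lit 0, nat_lit 0, nat_lit 0, nat_lit 0, nat_lit 0, nat_lit 0, nat_lit 0, false, false⟩,
 nat_lit 0, nat_lit 0, nat_lit 36127, nat_lit 0, nat_lit 6773, nat_lit 20070, nat_lit 0, nat_lit 0, nat_lit 0, nat_lit 5946, nat_lit 0, nat_lit 0, nat_lit 0, nat_lit 0, nat_lit 0, nat_lit 0, nat_lit 0, nat_lit 0, [],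
 ⟨p044_k5, nat_lit 0, nat_lit 0, nat_lit 80, nat_lit 0, nat_lit 0, [nat_lit 4688000000, nat_lit 6250000000, nat_lit 7968000000], [], [nat_lit 20378856986, nat_lit 20639233353, nat_lit 20000540739, nat_lit 20260400098, nat_lit 21974699065, nat_lit 22220379852, nat_lit 21594420622, nat_lit 21839988747], nat_lit 0, nat_lit 0, nat_lit 0, nat_lit 0, nat_lit 0, nat_lit 0, [], [nat_lit 9, nat_lit 40, nat_lit 40, nat_lit 80, nat_lit 2, nat_lit 215, nat_lit 10, nat_lit 6]⟩, ⟨p044_k51, nat_lit 0, nat_lit 0, nat_lit 189, nat_lit 0, nat_lit 246840, [nat_lit 4688000000, nat_lit 6250000000, nat_lit 7968000000], [], [nat_lit 18040614146, nat_lit 12868836056, nat_lit 15957958274, nat_lit 10793927204, nat_lit 14433903277, nat_lit 16901723395, nat_lit 13210004896, nat_lit 15675958940], nat_lit 1271250, nat_lit 1271250, nat_lit 157850, nat_lit 181601, nat_lit 1100001, nat_lit 1442500, [nat_lit 1100000, nat_lit 1442500, nat_lit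 1271250], [nat_lit 9, nat_lit 40, nat_lit 40, nat_lit 80, nat_lit 2, nat_lit 272, nat_lit 60, nat_lit 9]⟩,
 zbF0, [⟨nat_lit 0, nat_lit 100, nat_lit 99, nat_lit 55, nat_lit 3856046280⟩, ⟨nat_lit 4, nat_lit 96, nat_lit 100, nat_lit 70, nat_lit 2298280462⟩]⟩
noncomputable def p044_l142 : Lf2 := ⟨nat_lit 0, nat_lit 5, [nat_lit 4, nat_lit 5, nat_lit 5, nat_lit 20], false, nat_lit 280, nat_lit 296, nat_lit 200, nat_lit 236, ⟨nat_lit 1000, nat_lit 0, nat_lit 0, nat_lit 0, nat_lit 0, nat_lit 0, nat_lit 0, nat_lit 0, nat_lit 0, nat_lit 0, nat_lit 0, nat_lit 0, nat_lit 0, nat_lit 0, nat_lit 0, nat_lit 0, false, false⟩,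
 nat_lit 0, nat_lit 0, nat_lit 19660, nat_lit 0, nat_lit 6773, nat_lit 10408, nat_lit 0, nat_lit 0, nat_lit 0, nat_lit 3159, nat_lit 0, nat_lit 0, nat_lit 0, nat_lit 0, nat_lit 0, nat_lit 0, nat_lit 0, nat_lit 0, [],
 ⟨p044_k5, nat_lit 0, nat_lit 0, nat_lit 84, nat_lit 0, nat_lit 0, [nat_lit 4688000000, nat_lit 6250000000, nat_lit 7968000000], [], [nat_lit 20757537530, nat_lit 21018066609, nat_lit 20000540739, nat_lit 20260400098, nat_lit 22354977508, nat_lit 22600770957, nat_lit 21594420622, nat_lit 21839988747], nat_lit 0, nat_lit 0, nat_lit 0, nat_lit 0, nat_lit 0, nat_lit 0, [], [nat_lit 9, nat_lit 40, nat_lit 40, nat_lit 80, nat_lit 2, nat_lit 215, nat_lit 10, nat_lit 6]⟩, ⟨p044_k8, nat_lit 0, nat_lit 0, nat_lit 216, nat_lit 0, nat_lit 261452, [nat_lit 4688000000, nat_lit 6250000000, nat_lit 9842000000], [], [nat_lit 14130602726, nat_lit 15877163725, nat_lit 13167806407, nat_lit 14909793354, nat_lit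 15900820647, nat_lit 18179421503, nat_lit 14941577884, nat_lit 16970791417], nat_lit 1271250, nat_lit 1271250, nat_lit 134400, nat_lit 181601, nat_lit 1271250, nat_lit 1271250, [nat_lit 1100000, nat_lit 1442500, nat_lit 1271250], [nat_lit 11, nat_lit 40, nat_lit 40, nat_lit 80, nat_lit 1, nat_lit 373, nat_lit 150, nat_lit 10]⟩,
 zbF0, [⟨nat_lit 0, nat_lit 100, nat_lit 98, nat_lit 55, nat_lit 1523606455⟩, ⟨nat_lit 4, nat_lit 96, nat_lit 100, nat_lit 70, nat_lit 1166387814⟩, ⟨nat_lit 23, nat_lit 93, nat_lit 100, nat_lit 55, nat_lit 899353255⟩]⟩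
noncomputable def p044_l143 : Lf2 := ⟨nat_lit 0, nat_lit 5, [nat_lit 4, nat_lit 5, nat_lit 5, nat_lit 20], true, nat_lit 280, nat_lit 292, nat_lit 0, nat_lit 236, ⟨nat_lit 0, nat_lit 1000, nat_lit 0, nat_lit 6, nat_lit 88, nat_lit 1000, nat_lit 203, nat_lit 0, nat_lit 0, nat_lit 0, nat_lit 0, nat_lit 0, nat_lit 49773457, nat_lit 3678700, nat_lit 13547843, nat_lit 3717689, false, false⟩,
 nat_lit 0, nat_lit 0, nat_lit 0, nat_lit 3174, nat_lit 4921, nat_lit 0, nat_lit 0, nat_lit 0, nat_lit 0, nat_lit 0, nat_lit 0, nat_lit 0, nat_lit 0, nat_lit 0, nat_lit 0, nat_lit 400000, nat_lit 0, nat_lit 0, [(nat_lit 9, [(nat_lit 1, nat_lit 1000)])],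
 ⟨p044_k52, nat_lit 0, nat_lit 0, nat_lit 83, nat_lit 0, nat_lit 0, [nat_lit 2702720000, nat_lit 2862800001, nat_lit 3030799999], [], [nat_lit 19433430655, nat_lit 19558885908, nat_lit 19029939774, nat_lit 19155040705, nat_lit 20393473900, nat_lit 20533606502, nat_lit 19868641794, nat_lit 20008301476], nat_lit 0, nat_lit 0, nat_lit 0, nat_lit 0, nat_lit 0, nat_lit 0, [], [nat_lit 9, nat_lit 40, nat_lit 40, nat_lit 80, nat_lit 2, nat_lit 215, nat_lit 10, nat_lit 6]⟩, C1.Rw.none,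
 ⟨nat_lit 5809, nat_lit 5853, ⟨.ofNat (nat_lit 199538), .ofNat (nat_lit 215135), .ofNat (nat_lit 220877), .ofNat (nat_lit 236474), .ofNat (nat_lit 201138), .ofNat (nat_lit 216662), .ofNat (nat_lit 222477), .ofNat (nat_lit 238001)⟩, ⟨.ofNat (nat_lit 485260), .ofNat (nat_lit 508656), .ofNat (nat_lit 506599), .ofNat (nat_lit 529994), .ofNat (nat_lit 484530), .ofNat (nat_lit 507817), .ofNat (nat_lit 505870), .ofNat (nat_lit 529156)⟩⟩, [⟨nat_lit 0, nat_lit 100, nat_lit 98, nat_lit 56, nat_lit 751544990⟩, ⟨nat_lit 16, nat_lit 100, nat_lit 94, nat_lit 75, nat_lit 377653881⟩]⟩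
noncomputable def p044_l144 : Lf2 := ⟨nat_lit 0, nat_lit 5, [nat_lit 4, nat_lit 5, nat_lit 5, nat_lit 20], true, nat_lit 280, nat_lit 292, nat_lit 0, nat_lit 236, ⟨nat_lit 0, nat_lit 1000, nat_lit 0, nat_lit 6, nat_lit 89, nat_lit 1000, nat_lit 202, nat_lit 0, nat_lit 0, nat_lit 0, nat_lit 0, nat_lit 0, nat_lit 49763163, nat_lit 3748529, nat_lit 13488308, nat_lit 3727419, false, false⟩,
 nat_lit 0, nat_lit 0, nat_lit 0, nat_lit 3172, nat_lit 4905, nat_lit 0, nat_lit 0, nat_lit 0, nat_lit 0, nat_lit 0, nat_lit 0, nat_lit 0, nat_lit 0, nat_lit 0, nat_lit 0, nat_lit 400000, nat_lit 0, nat_lit 0, [(nat_lit 9, [(nat_lit 1, nat_lit 1000)])],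
 ⟨p044_k53, nat_lit 0, nat_lit 0, nat_lit 85, nat_lit 0, nat_lit 0, [nat_lit 2702720000, nat_lit 2862800001, nat_lit 3030799999], [], [nat_lit 19563877849, nat_lit 19903920235, nat_lit 19161698904, nat_lit 19473964483, nat_lit 20517729123, nat_lit 20867495064, nat_lit 19994466354, nat_lit 20343798288], nat_lit 0, nat_lit 0, nat_lit 0, nat_lit 0, nat_lit 0, nat_lit 0, [], [nat_lit 9, nat_lit 40, nat_lit 40, nat_lit 80, nat_lit 2, nat_lit 215, nat_lit 10, nat_lit 6]⟩, C1.Rw.none,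
 ⟨nat_lit 5700, nat_lit 5810, ⟨.ofNat (nat_lit 201138), .ofNat (nat_lit 216662), .ofNat (nat_lit 222477), .ofNat (nat_lit 238001), .ofNat (nat_lit 205119), .ofNat (nat_lit 220462), .ofNat (nat_lit 226461), .ofNat (nat_lit 241804)⟩, ⟨.ofNat (nat_lit 484530), .ofNat (nat_lit 507817), .ofNat (nat_lit 505870), .ofNat (nat_lit 529156), .ofNat (nat_lit 482701), .ofNat (nat_lit 505716), .ofNat (nat_lit 504043), .ofNat (nat_lit 527058)⟩⟩, [⟨nat_lit 0, nat_lit 100, nat_lit 97, nat_lit 58, nat_lit 728655861⟩, ⟨nat_lit 16, nat_lit 100, nat_lit 95, nat_lit 76, nat_lit 372412561⟩]⟩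
noncomputable def p044_l145 : Lf2 := ⟨nat_lit 0, nat_lit 5, [nat_lit 4, nat_lit 5, nat_lit 5, nat_lit 20], true, nat_lit 280, nat_lit 288, nat_lit 0, nat_lit 236, ⟨nat_lit 0, nat_lit 1000, nat_lit 0, nat_lit 6, nat_lit 92, nat_lit 1000, nat_lit 200, nat_lit 0, nat_lit 0, nat_lit 0, nat_lit 0, nat_lit 0, nat_lit 49796341, nat_lit 3999444, nat_lit 13204215, nat_lit 3753884, false, false⟩,
 nat_lit 0, nat_lit 0, nat_lit 0, nat_lit 3168, nat_lit 4903, nat_lit 0, nat_lit 0, nat_lit 0, nat_lit 0, nat_lit 0, nat_lit 0, nat_lit 0, nat_lit 0, nat_lit 0, nat_lit 0, nat_lit 400000, nat_lit 0, nat_lit 0, [(nat_lit 9, [(nat_lit 1, nat_lit 1000)])],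
 ⟨p044_k54, nat_lit 0, nat_lit 0, nat_lit 83, nat_lit 0, nat_lit 0, [nat_lit 2702720000, nat_lit 2862800001, nat_lit 3030799999], [], [nat_lit 19676163426, nat_lit 20368523353, nat_lit 19474735914, nat_lit 20107270532, nat_lit 20282919245, nat_lit 20991299651, nat_lit 20022254942, nat_lit 20729453787], nat_lit 0, nat_lit 0, nat_lit 0, nat_lit 0, nat_lit 0, nat_lit 0, [], [nat_lit 9, nat_lit 40, nat_lit 40, nat_lit 80, nat_lit 2, nat_lit 215, nat_lit 10, nat_lit 6]⟩, C1.Rw.none,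
 ⟨nat_lit 5477, nat_lit 5701, ⟨.ofNat (nat_lit 212791), .ofNat (nat_lit 220462), .ofNat (nat_lit 234133), .ofNat (nat_lit 241804), .ofNat (nat_lit 220501), .ofNat (nat_lit 227994), .ofNat (nat_lit 241858), .ofNat (nat_lit 249351)⟩, ⟨.ofNat (nat_lit 482701), .ofNat (nat_lit 498045), .ofNat (nat_lit 504043), .ofNat (nat_lit 519387), .ofNat (nat_lit 479008), .ofNat (nat_lit 493995), .ofNat (nat_lit 500365), .ofNat (nat_lit 515352)⟩⟩, [⟨nat_lit 0, nat_lit 100, nat_lit 96, nat_lit 54, nat_lit 776529323⟩, ⟨nat_lit 16, nat_lit 100, nat_lit 97, nat_lit 76, nat_lit 372562456⟩]⟩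
noncomputable def p044_l146 : Lf2 := ⟨nat_lit 0, nat_lit 2, [nat_lit 10, nat_lit 5, nat_lit 5, nat_lit 20], false, nat_lit 280, nat_lit 320, nat_lit 0, nat_lit 236, ⟨nat_lit 137, nat_lit 863, nat_lit 0, nat_lit 6, nat_lit 85, nat_lit 863, nat_lit 223, nat_lit 0, nat_lit 0, nat_lit 0, nat_lit 0, nat_lit 0, nat_lit 47996738, nat_lit 3471591, nat_lit 15531671, nat_lit 3857256, false, false⟩,
 nat_lit 0, nat_lit 0, nat_lit 3953, nat_lit 7814, nat_lit 4242, nat_lit 2092, nat_lit 0, nat_lit 0, nat_lit 0, nat_lit 0, nat_lit 0, nat_lit 0, nat_lit 0, nat_lit 0, nat_lit 0, nat_lit 345200, nat_lit 0, nat_lit 0, [(nat_lit 9, [(nat_lit 1, nat_lit 863)])],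
 ⟨p044_k55, nat_lit 0, nat_lit 0, nat_lit 0, nat_lit 0, nat_lit 0, [nat_lit 2584164940, nat_lit 3097738700, nat_lit 3326846400], [], [nat_lit 18595692118, nat_lit 18899466662, nat_lit 18358663329, nat_lit 18661118207, nat_lit 21462292381, nat_lit 21759676361, nat_lit 21210803093, nat_lit 21477631789], nat_lit 0, nat_lit 0, nat_lit 0, nat_lit 0, nat_lit 0, nat_lit 0, [], [nat_lit 185, nat_lit 40, nat_lit 20, nat_lit 40]⟩, ⟨p044_k22, nat_lit 0, nat_lit 0, nat_lit 265, nat_lit 0, nat_lit 94506, [nat_lit 642256000, nat_lit 856250000, nat_lit 1091616000], [], [nat_lit 4549036041, nat_lit 4009147325, nat_lit 4113249011, nat_lit 3574975319, nat_lit 2427407384, nat_lit 2589520307, nat_lit 2229501125, nat_lit 2391147862], nat_lit 1271250, nat_lit 1271250, nat_lit 134400, nat_lit 181601, nat_lit 0, nat_lit 1666750, [nat_lit 1100000, nat_lit 1442500, nat_lit 1271250], [nat_lit 9, nat_lit 40, nat_lit 40, nat_lit 80,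 nat_lit 2, nat_lit 289, nat_lit 75, nat_lit 10]⟩,
 ⟨nat_lit 5809, nat_lit 5917, ⟨.ofNat (nat_lit 197129), .ofNat (nat_lit 212836), .ofNat (nat_lit 207799), .ofNat (nat_lit 223506), .ofNat (nat_lit 201138), .ofNat (nat_lit 216662), .ofNat (nat_lit 211807), .ofNat (nat_lit 227332)⟩, ⟨.ofNat (nat_lit 507691), .ofNat (nat_lit 586224), .ofNat (nat_lit 529030), .ofNat (nat_lit 607563), .ofNat (nat_lit 505870), .ofNat (nat_lit 583492), .ofNat (nat_lit 527209), .ofNat (nat_lit 604830)⟩⟩, [⟨nat_lit 0, nat_lit 100, nat_lit 97, nat_lit 53, nat_lit 629933808⟩, ⟨nat_lit 4, nat_lit 90, nat_lit 100, nat_lit 80, nat_lit 399801663⟩]⟩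
noncomputable def p044_l147 : Lf2 := ⟨nat_lit 0, nat_lit 2, [nat_lit 10, nat_lit 5, nat_lit 5, nat_lit 20], false, nat_lit 280, nat_lit 320, nat_lit 0, nat_lit 236, ⟨nat_lit 1000, nat_lit 0, nat_lit 0, nat_lit 0, nat_lit 0, nat_lit 0, nat_lit 0, nat_lit 0, nat_lit 0, nat_lit 0, nat_lit 0, nat_lit 0, nat_lit 0, nat_lit 0, nat_lit 0, nat_lit 0, false, false⟩,
 nat_lit 0, nat_lit 0, nat_lit 24932, nat_lit 0, nat_lit 6274, nat_lit 13850, nat_lit 0, nat_lit 0, nat_lit 0, nat_lit 4684, nat_lit 0, nat_lit 0, nat_lit 0, nat_lit 0, nat_lit 0, nat_lit 0, nat_lit 0, nat_lit 0, [],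
 ⟨p044_k56, nat_lit 0, nat_lit 0, nat_lit 0, nat_lit 0, nat_lit 0, [nat_lit 4688000000, nat_lit 6250000000], [], [nat_lit 20495250609, nat_lit 20849660859, nat_lit 20223373780, nat_lit 20577286803, nat_lit 23794146116, nat_lit 24151883340, nat_lit 23443343136, nat_lit 23800850017], nat_lit 0, nat_lit 0, nat_lit 0, nat_lit 0, nat_lit 0, nat_lit 0, [], [nat_lit 31, nat_lit 40, nat_lit 40, nat_lit 80]⟩, ⟨p044_k21, nat_lit 0, nat_lit 0, nat_lit 261, nat_lit 0, nat_lit 138634, [nat_lit 4688000000, nat_lit 6250000000, nat_lit 7968000000], [], [nat_lit 26486153030, nat_lit 27738295641, nat_lit 25048944070, nat_lit 26616861760, nat_lit 17292952742, nat_lit 18942740303, nat_lit 16472417397, nat_lit 18120999860], nat_lit 1271250, nat_lit 1271250, nat_lit 157850, nat_lit 181601, nat_lit 0, nat_lit 1666750, [nat_lit 1100000, nat_lit 1442500, nat_lit 1271250], [nat_lit 9, nat_lit 40, nat_lit 40, nat_lit 80, nat_lit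 2, nat_lit 289, nat_lit 75, nat_lit 10]⟩,
 zbF0, [⟨nat_lit 0, nat_lit 100, nat_lit 99, nat_lit 55, nat_lit 3006114320⟩, ⟨nat_lit 4, nat_lit 90, nat_lit 100, nat_lit 80, nat_lit 820312733⟩]⟩
noncomputable def p044_l148 : Lf2 := ⟨nat_lit 2, nat_lit 2, [nat_lit 10, nat_lit 5, nat_lit 5, nat_lit 20], true, nat_lit 280, nat_lit 320, nat_lit 0, nat_lit 236, zbN0,
 nat_lit 0, nat_lit 0, nat_lit 0, nat_lit 0, nat_lit 0, nat_lit 0, nat_lit 0, nat_lit 0, nat_lit 0, nat_lit 0, nat_lit 0, nat_lit 0, nat_lit 0, nat_lit 0, nat_lit 0, nat_lit 0, nat_lit 0, nat_lit 0, [],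
 ⟨p044_k56, nat_lit 0, nat_lit 0, nat_lit 79, nat_lit 0, nat_lit 0, [], [], [], nat_lit 0, nat_lit 0, nat_lit 0, nat_lit 0, nat_lit 0, nat_lit 0, [], [nat_lit 31, nat_lit 40, nat_lit 40, nat_lit 80, nat_lit 3, nat_lit 215, nat_lit 10, nat_lit 7]⟩, C1.Rw.none,
 zbF0, []⟩
noncomputable def p044_l149 : Lf2 := ⟨nat_lit 0, nat_lit 2, [nat_lit 10, nat_lit 5, nat_lit 5, nat_lit 20], false, nat_lit 280, nat_lit 316, nat_lit 0, nat_lit 80, ⟨nat_lit 1000, nat_lit 0, nat_lit 0, nat_lit 0, nat_lit 0, nat_lit 0, nat_lit 0, nat_lit 0, nat_lit 0, nat_lit 0, nat_lit 0, nat_lit 0, nat_lit 0, nat_lit 0, nat_lit 0, nat_lit 0, false, false⟩,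
 nat_lit 0, nat_lit 0, nat_lit 15374, nat_lit 7385, nat_lit 6163, nat_lit 8139, nat_lit 0, nat_lit 0, nat_lit 0, nat_lit 3340, nat_lit 0, nat_lit 0, nat_lit 0, nat_lit 0, nat_lit 0, nat_lit 0, nat_lit 0, nat_lit 0, [],
 ⟨p044_k57, nat_lit 0, nat_lit 0, nat_lit 79, nat_lit 0, nat_lit 0, [nat_lit 4688000000, nat_lit 6250000000], [], [nat_lit 21156666504, nat_lit 21508188246, nat_lit 20623478054, nat_lit 20974014258, nat_lit 23993673061, nat_lit 24353706615, nat_lit 23450999711, nat_lit 23760737787], nat_lit 0, nat_lit 0, nat_lit 0, nat_lit 0, nat_lit 0, nat_lit 0, [], [nat_lit 31, nat_lit 40, nat_lit 40, nat_lit 80, nat_lit 3, nat_lit 215, nat_lit 10, nat_lit 7]⟩, ⟨p044_k22, nat_lit 0, nat_lit 0, nat_lit 267, nat_lit 0, nat_lit 124618, [nat_lit 4688000000, nat_lit 6250000000, nat_lit 7968000000], [], [nat_lit 17823838407, nat_lit 19068943917, nat_lit 16904658105, nat_lit 18146884114, nat_lit 13094942060,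 nat_lit 14078795748, nat_lit 12490731258, nat_lit 13470226326], nat_lit 1271250, nat_lit 1271250, nat_lit 134400, nat_lit 181601, nat_lit 0, nat_lit 490000, [nat_lit 1100000, nat_lit 1442500, nat_lit 1271250], [nat_lit 9, nat_lit 40, nat_lit 40, nat_lit 80, nat_lit 2, nat_lit 238, nat_lit 30, nat_lit 8]⟩,
 zbF0, [⟨nat_lit 0, nat_lit 100, nat_lit 97, nat_lit 55, nat_lit 1715977644⟩, ⟨nat_lit 4, nat_lit 92, nat_lit 100, nat_lit 81, nat_lit 796901829⟩]⟩
noncomputable def p044_l150 : Lf2 := ⟨nat_lit 0, nat_lit 2, [nat_lit 10, nat_lit 5, nat_lit 5, nat_lit 20], false, nat_lit 280, nat_lit 316, nat_lit 80, nat_lit 236, ⟨nat_lit 1000, nat_lit 0, nat_lit 0, nat_lit 0, nat_lit 0, nat_lit 0, nat_lit 0, nat_lit 0, nat_lit 0, nat_lit 0, nat_lit 0, nat_lit 0, nat_lit 0, nat_lit 0, nat_lit 0, nat_lit 0, false, false⟩,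
 nat_lit 0, nat_lit 0, nat_lit 14207, nat_lit 0, nat_lit 6280, nat_lit 7521, nat_lit 0, nat_lit 0, nat_lit 0, nat_lit 0, nat_lit 0, nat_lit 0, nat_lit 0, nat_lit 0, nat_lit 0, nat_lit 0, nat_lit 0, nat_lit 0, [],
 ⟨p044_k57, nat_lit 0, nat_lit 0, nat_lit 79, nat_lit 0, nat_lit 0, [nat_lit 4688000000, nat_lit 6250000000], [], [nat_lit 21120162937, nat_lit 21475253424, nat_lit 20574789979, nat_lit 20928885533, nat_lit 24134927952, nat_lit 24498706807, nat_lit 23432930600, nat_lit 23796393528], nat_lit 0, nat_lit 0, nat_lit 0, nat_lit 0, nat_lit 0, nat_lit 0, [], [nat_lit 31, nat_lit 40, nat_lit 40, nat_lit 80, nat_lit 3, nat_lit 215, nat_lit 10, nat_lit 7]⟩, ⟨p044_k22, nat_lit 0, nat_lit 0, nat_lit 227, nat_lit 0, nat_lit 124618, [nat_lit 4688000000, nat_lit 6250000000, nat_lit 7968000000], [], [nat_lit 8423538500, nat_lit 9711012716, nat_lit 7728476337, nat_lit 8952583451, nat_lit 14709285974, nat_lit 15779614338,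 nat_lit 14036848533, nat_lit 14937157821], nat_lit 1271250, nat_lit 1271250, nat_lit 134400, nat_lit 181601, nat_lit 490000, nat_lit 1708750, [nat_lit 1100000, nat_lit 1442500, nat_lit 1271250], [nat_lit 9, nat_lit 40, nat_lit 40, nat_lit 80, nat_lit 2, nat_lit 289, nat_lit 75, nat_lit 10]⟩,
 zbF0, [⟨nat_lit 0, nat_lit 100, nat_lit 97, nat_lit 55, nat_lit 1173505983⟩, ⟨nat_lit 4, nat_lit 92, nat_lit 100, nat_lit 81, nat_lit 302562186⟩, ⟨nat_lit 23, nat_lit 93, nat_lit 100, nat_lit 55, nat_lit 735756924⟩]⟩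
noncomputable def p044_l151 : Lf2 := ⟨nat_lit 0, nat_lit 2, [nat_lit 10, nat_lit 5, nat_lit 5, nat_lit 20], false, nat_lit 280, nat_lit 308, nat_lit 0, nat_lit 80, ⟨nat_lit 1000, nat_lit 0, nat_lit 0, nat_lit 0, nat_lit 0, nat_lit 0, nat_lit 0, nat_lit 0, nat_lit 0, nat_lit 0, nat_lit 0, nat_lit 0, nat_lit 0, nat_lit 0, nat_lit 0, nat_lit 0, false, false⟩,
 nat_lit 0, nat_lit 0, nat_lit 16863, nat_lit 3745, nat_lit 6269, nat_lit 8927, nat_lit 0, nat_lit 0, nat_lit 0, nat_lit 3473, nat_lit 0, nat_lit 0, nat_lit 0, nat_lit 0, nat_lit 0, nat_lit 0, nat_lit 0, nat_lit 0, [],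
 ⟨p044_k58, nat_lit 0, nat_lit 0, nat_lit 73, nat_lit 0, nat_lit 0, [nat_lit 4688000000, nat_lit 6250000000], [], [nat_lit 21205739132, nat_lit 21347442308, nat_lit 20933128404, nat_lit 21074632770, nat_lit 23397937373, nat_lit 23546643138, nat_lit 23121707271, nat_lit 23250339476], nat_lit 0, nat_lit 0, nat_lit 0, nat_lit 0, nat_lit 0, nat_lit 0, [], [nat_lit 31, nat_lit 40, nat_lit 40, nat_lit 80, nat_lit 3, nat_lit 215, nat_lit 10, nat_lit 7]⟩, ⟨p044_k22, nat_lit 0, nat_lit 0, nat_lit 264, nat_lit 0, nat_lit 112819, [nat_lit 4688000000, nat_lit 6250000000, nat_lit 7968000000], [], [nat_lit 17338119843, nat_lit 18005042325, nat_lit 16828400690, nat_lit 17490782818, nat_lit 11387458832, nat_lit 11909167418, nat_lit 11050045357, nat_lit 11570588010], nat_lit 1271250, nat_lit 1271250, nat_lit 157850, nat_lit 181601, nat_lit 0, nat_lit 490000, [nat_lit 1100000, nat_lit 1442500, nat_lit 1271250], [nat_lit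 9, nat_lit 40, nat_lit 40, nat_lit 80, nat_lit 2, nat_lit 238, nat_lit 30, nat_lit 8]⟩,
 zbF0, [⟨nat_lit 0, nat_lit 100, nat_lit 96, nat_lit 54, nat_lit 1795106171⟩, ⟨nat_lit 16, nat_lit 100, nat_lit 90, nat_lit 85, nat_lit 754914876⟩]⟩
noncomputable def p044_l152 : Lf2 := ⟨nat_lit 0, nat_lit 2, [nat_lit 10, nat_lit 5, nat_lit 5, nat_lit 20], false, nat_lit 280, nat_lit 308, nat_lit 80, nat_lit 236, ⟨nat_lit 1000, nat_lit 0, nat_lit 0, nat_lit 0, nat_lit 0, nat_lit 0, nat_lit 0, nat_lit 0, nat_lit 0, nat_lit 0, nat_lit 0, nat_lit 0, nat_lit 0, nat_lit 0, nat_lit 0, nat_lit 0, false, false⟩,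
 nat_lit 0, nat_lit 0, nat_lit 14356, nat_lit 0, nat_lit 6663, nat_lit 7600, nat_lit 0, nat_lit 0, nat_lit 0, nat_lit 0, nat_lit 0, nat_lit 0, nat_lit 0, nat_lit 0, nat_lit 0, nat_lit 0, nat_lit 0, nat_lit 0, [],
 ⟨p044_k58, nat_lit 0, nat_lit 0, nat_lit 73, nat_lit 0, nat_lit 0, [nat_lit 4688000000, nat_lit 6250000000], [], [nat_lit 21152339580, nat_lit 21324268302, nat_lit 20781156458, nat_lit 20951943785, nat_lit 23832197396, nat_lit 23987214795, nat_lit 23457429933, nat_lit 23612391747], nat_lit 0, nat_lit 0, nat_lit 0, nat_lit 0, nat_lit 0, nat_lit 0, [], [nat_lit 31, nat_lit 40, nat_lit 40, nat_lit 80, nat_lit 3, nat_lit 215, nat_lit 10, nat_lit 7]⟩, ⟨p044_k22, nat_lit 0, nat_lit 0, nat_lit 224, nat_lit 0, nat_lit 112819, [nat_lit 4688000000, nat_lit 6250000000, nat_lit 7968000000], [], [nat_lit 7990755201, nat_lit 8608146170, nat_lit 7638923200, nat_lit 8255320281, nat_lit 14305736056, nat_lit 14844074852,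 nat_lit 13965228537, nat_lit 14418306222], nat_lit 1271250, nat_lit 1271250, nat_lit 157850, nat_lit 181601, nat_lit 490000, nat_lit 1708750, [nat_lit 1100000, nat_lit 1442500, nat_lit 1271250], [nat_lit 9, nat_lit 40, nat_lit 40, nat_lit 80, nat_lit 2, nat_lit 289, nat_lit 75, nat_lit 10]⟩,
 zbF0, [⟨nat_lit 0, nat_lit 100, nat_lit 96, nat_lit 56, nat_lit 1128217860⟩, ⟨nat_lit 4, nat_lit 94, nat_lit 100, nat_lit 81, nat_lit 392766772⟩, ⟨nat_lit 23, nat_lit 93, nat_lit 100, nat_lit 55, nat_lit 746935133⟩]⟩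
noncomputable def p044_l153 : Lf2 := ⟨nat_lit 0, nat_lit 2, [nat_lit 10, nat_lit 5, nat_lit 5, nat_lit 20], true, nat_lit 280, nat_lit 308, nat_lit 0, nat_lit 236, ⟨nat_lit 0, nat_lit 1000, nat_lit 0, nat_lit 6, nat_lit 88, nat_lit 1000, nat_lit 216, nat_lit 0, nat_lit 0, nat_lit 0, nat_lit 0, nat_lit 0, nat_lit 48425253, nat_lit 3708233, nat_lit 14866514, nat_lit 3851637, false, false⟩,
 nat_lit 0, nat_lit 0, nat_lit 0, nat_lit 9301, nat_lit 4667, nat_lit 0, nat_lit 0, nat_lit 0, nat_lit 0, nat_lit 0, nat_lit 0, nat_lit 0, nat_lit 0, nat_lit 0, nat_lit 0, nat_lit 1000000, nat_lit 0, nat_lit 0, [(nat_lit 9, [(nat_lit 2, nat_lit 1000)])],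
 ⟨p044_k59, nat_lit 0, nat_lit 0, nat_lit 73, nat_lit 0, nat_lit 0, [nat_lit 2663466667, nat_lit 2329200000], [], [nat_lit 19837824007, nat_lit 19898915587, nat_lit 19648521539, nat_lit 19709526577, nat_lit 21755283252, nat_lit 21819890510, nat_lit 21507639442, nat_lit 21571768719], nat_lit 0, nat_lit 0, nat_lit 0, nat_lit 0, nat_lit 0, nat_lit 0, [], [nat_lit 31, nat_lit 40, nat_lit 40, nat_lit 80, nat_lit 3, nat_lit 215, nat_lit 10, nat_lit 7]⟩, C1.Rw.none,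
 ⟨nat_lit 5634, nat_lit 5657, ⟨.ofNat (nat_lit 214340), .ofNat (nat_lit 221976), .ofNat (nat_lit 219676), .ofNat (nat_lit 227312), .ofNat (nat_lit 215113), .ofNat (nat_lit 222731), .ofNat (nat_lit 220449), .ofNat (nat_lit 228067)⟩, ⟨.ofNat (nat_lit 503310), .ofNat (nat_lit 556762), .ofNat (nat_lit 524654), .ofNat (nat_lit 578106), .ofNat (nat_lit 502943), .ofNat (nat_lit 556270), .ofNat (nat_lit 524288), .ofNat (nat_lit 577615)⟩⟩, [⟨nat_lit 0, nat_lit 100, nat_lit 95, nat_lit 55, nat_lit 1139505965⟩, ⟨nat_lit 16, nat_lit 100, nat_lit 91, nat_lit 86, nat_lit 309957309⟩]⟩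
noncomputable def p044_l154 : Lf2 := ⟨nat_lit 0, nat_lit 5, [nat_lit 4, nat_lit 5, nat_lit 5, nat_lit 20], true, nat_lit 280, nat_lit 320, nat_lit 0, nat_lit 236, ⟨nat_lit 0, nat_lit 312, nat_lit 688, nat_lit 6, nat_lit 89, nat_lit 1000, nat_lit 221, nat_lit 688, nat_lit 4618, nat_lit 210, nat_lit 74817, nat_lit 282, nat_lit 47887590, nat_lit 3749349, nat_lit 15363061, nat_lit 3905608, false, false⟩,
 nat_lit 0, nat_lit 0, nat_lit 0, nat_lit 100000, nat_lit 4431, nat_lit 0, nat_lit 0, nat_lit 0, nat_lit 0, nat_lit 0, nat_lit 0, nat_lit 0, nat_lit 0, nat_lit 0, nat_lit 42, nat_lit 812800, nat_lit 0, nat_lit 0, [(nat_lit 9, [(nat_lit 1, nat_lit 312), (nat_lit 6, nat_lit 688)])],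
 ⟨p044_k5, nat_lit 0, nat_lit 0, nat_lit 128, nat_lit 0, nat_lit 0, [nat_lit 2270397440, nat_lit 1224073601, nat_lit 177468799], [], [nat_lit 18774776910, nat_lit 20159133644, nat_lit 18315464200, nat_lit 19696420964, nat_lit 21906689478, nat_lit 23116671675, nat_lit 21439260031, nat_lit 22648211312], nat_lit 0, nat_lit 0, nat_lit 0, nat_lit 0, nat_lit 0, nat_lit 0, [], [nat_lit 9, nat_lit 40, nat_lit 40, nat_lit 80, nat_lit 2, nat_lit 215, nat_lit 10, nat_lit 6]⟩, C1.Rw.none,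
 ⟨nat_lit 5477, nat_lit 5917, ⟨.ofNat (nat_lit 197129), .ofNat (nat_lit 212836), .ofNat (nat_lit 218469), .ofNat (nat_lit 234175), .ofNat (nat_lit 213007), .ofNat (nat_lit 227994), .ofNat (nat_lit 234364), .ofNat (nat_lit 249351)⟩, ⟨.ofNat (nat_lit 507691), .ofNat (nat_lit 586223), .ofNat (nat_lit 529030), .ofNat (nat_lit 607556), .ofNat (nat_lit 500365), .ofNat (nat_lit 575297), .ofNat (nat_lit 521722), .ofNat (nat_lit 596648)⟩⟩, [⟨nat_lit 0, nat_lit 100, nat_lit 97, nat_lit 59, nat_lit 7231571668⟩, ⟨nat_lit 4, nat_lit 93, nat_lit 100, nat_lit 81, nat_lit 453362420⟩]⟩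
noncomputable def b_V_600_600_10_17 : St := ⟨true, nat_lit 0, nat_lit 1, nat_lit 1, nat_lit 80, nat_lit 260, nat_lit 280, nat_lit 240, nat_lit 280, nat_lit 24, nat_lit 32, nat_lit 40, nat_lit 80, nat_lit 280, nat_lit 320, nat_lit 0, nat_lit 248, nat_lit 0, nat_lit 20, nat_lit 0, nat_lit 0, nat_lit 0, nat_lit 0⟩
theorem d_V_600_600_10_17 (h : EB TB.env) : Dead b_V_600_600_10_17 := chkB_sound0 h (T :=
(.trX (nat_lit 23) (nat_lit 93) (nat_lit 100) (nat_lit 55) (nat_lit 236) (.spl (nat_lit 1) (nat_lit 260)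
(.spl (nat_lit 3) (nat_lit 60)
(.trX (nat_lit 16) (nat_lit 100) (nat_lit 92) (nat_lit 75) (nat_lit 296) (.spl (nat_lit 0) (nat_lit 270)
(.spl (nat_lit 0) (nat_lit 265)
(.spl (nat_lit 0) (nat_lit 263)
(.spl (nat_lit 5) (nat_lit 80)
(.leaf p044_l138)
(.spl (nat_lit 5) (nat_lit 160)
(.leaf p044_l139)
(.spl (nat_lit 5) (nat_lit 200)
(.spl (nat_lit 1) (nat_lit 250)
(.leaf p044_l140)
(.trZ (nat_lit 0) (nat_lit 100) (nat_lit 99) (nat_lit 55) (nat_lit 28) (.leaf p044_l141)))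
(.leaf p044_l142))))
(.trX (nat_lit 16) (nat_lit 100) (nat_lit 94) (nat_lit 75) (nat_lit 292) (.leaf p044_l143)))
(.trX (nat_lit 16) (nat_lit 100) (nat_lit 95) (nat_lit 76) (nat_lit 292) (.leaf p044_l144)))
(.trZ (nat_lit 0) (nat_lit 100) (nat_lit 96) (nat_lit 54) (nat_lit 28) (.trX (nat_lit 16) (nat_lit 100) (nat_lit 97) (nat_lit 76) (nat_lit 288) (.leaf p044_l145)))))
(.spl (nat_lit 6) (nat_lit 8)
(.spl (nat_lit 0) (nat_lit 270)
(.spl (nat_lit 0) (nat_lit 265)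
(.spl (nat_lit 7) (nat_lit 600)
(.spl (nat_lit 1) (nat_lit 250)
(.leaf p044_l146)
(.trZ (nat_lit 0) (nat_lit 100) (nat_lit 99) (nat_lit 55) (nat_lit 28) (.leaf p044_l147)))
(.leaf p044_l148))
(.trX (nat_lit 16) (nat_lit 100) (nat_lit 87) (nat_lit 85) (nat_lit 316) (.spl (nat_lit 1) (nat_lit 250)
(.spl (nat_lit 5) (nat_lit 80)
(.leaf p044_l149)
(.leaf p044_l150))
(.emL (nat_lit 0) (nat_lit 100) (nat_lit 98) (nat_lit 57)))))
(.trZ (nat_lit 0) (nat_lit 100) (nat_lit 96) (nat_lit 54) (nat_lit 28) (.trX (nat_lit 16) (nat_lit 100) (nat_lit 90) (nat_lit 85) (nat_lit 308) (.spl (nat_lit 1) (nat_lit 250)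
(.spl (nat_lit 1) (nat_lit 245)
(.spl (nat_lit 0) (nat_lit 275)
(.spl (nat_lit 0) (nat_lit 273)
(.spl (nat_lit 0) (nat_lit 272)
(.spl (nat_lit 5) (nat_lit 80)
(.leaf p044_l151)
(.leaf p044_l152))
(.leaf p044_l153))
(.emL (nat_lit 0) (nat_lit 100) (nat_lit 95) (nat_lit 56)))
(.emL (nat_lit 0) (nat_lit 100) (nat_lit 95) (nat_lit 56)))
(.emL (nat_lit 0) (nat_lit 100) (nat_lit 96) (nat_lit 57)))
(.emL (nat_lit 0) (nat_lit 100) (nat_lit 97) (nat_lit 59))))))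
(.leaf p044_l154)))
(.emL (nat_lit 0) (nat_lit 100) (nat_lit 100) (nat_lit 60))))) (by decide +kernel)

end B2
end Pool.Agent.Lib.MP_6947cd_al
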