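import Pool.Agent.Lib.MP_6947cd_al.ZB.Pre

/-!
Problem MP_6947cd_al (Chollet).  Case B, second entry in [2/5, 17/20]: certificates of the tree, part P045 (generated).
-/

set_option autoImplicit false
set_option linter.all false

namespace Pool.Agent.Lib.MP_6947cd_al
namespace B2

open Ent Fr B1 PkA

noncomputable def p045_k0 : C1.Kn := ⟨[nat_lit 40, nat_lit 70, nat_lit 90, nat_lit 120], [nat_lit 0, nat_lit 0, nat_lit 0, nat_lit 774], [(nat_lit 0, nat_lit 0, nat_lit 0), (nat_lit 0, nat_lit 0, nat_lit 0), (nat_lit 0, nat_lit 0, nat_lit 0), (nat_lit 1000, nat_lit 959, nat_lit 402)], (nat_lit 96, nat_lit 100, nat_lit 44)⟩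
noncomputable def p045_k1 : C1.Kn := ⟨[nat_lit 40, nat_lit 70, nat_lit 90, nat_lit 120], [nat_lit 0, nat_lit 0, nat_lit 69, nat_lit 840], [(nat_lit 0, nat_lit 0, nat_lit 0), (nat_lit 0, nat_lit 0, nat_lit 0), (nat_lit 1000, nat_lit 984, nat_lit 54), (nat_lit 1000, nat_lit 949, nat_lit 400)], (nat_lit 95, nat_lit 100, nat_lit 44)⟩
noncomputable def p045_k2 : C1.Kn := ⟨[nat_lit 40, nat_lit 70, nat_lit 90, nat_lit 120], [nat_lit 0, nat_lit 0, nat_lit 111, nat_lit 879], [(nat_lit 0, nat_lit 0, nat_lit 0), (nat_lit 0, nat_lit 0, nat_lit 0), (nat_lit 1000, nat_lit 974, nat_lit 87), (nat_lit 1000, nat_lit 942, nat_lit 398)], (nat_lit 95, nat_lit 100, nat_lit 44)⟩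
noncomputable def p045_k3 : C1.Kn := ⟨[nat_lit 80, nat_lit 100], [nat_lit 0, nat_lit 265], [(nat_lit 0, nat_lit 0, nat_lit 0), (nat_lit 1000, nat_lit 959, nat_lit 206)], (nat_lit 95, nat_lit 100, nat_lit 28)⟩
noncomputable def p045_k4 : C1.Kn := ⟨[nat_lit 80, nat_lit 100, nat_lit 120], [nat_lit 0, nat_lit 0, nat_lit 511], [(nat_lit 0, nat_lit 0, nat_lit 0), (nat_lit 0, nat_lit 0, nat_lit 0), (nat_lit 1000, nat_lit 997, nat_lit 383)], (nat_lit 98, nat_lit 100, nat_lit 28)⟩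
noncomputable def p045_k5 : C1.Kn := ⟨[nat_lit 80, nat_lit 100, nat_lit 120], [nat_lit 0, nat_lit 65, nat_lit 576], [(nat_lit 0, nat_lit 0, nat_lit 0), (nat_lit 1000, nat_lit 990, nat_lit 51), (nat_lit 1000, nat_lit 990, nat_lit 399)], (nat_lit 98, nat_lit 100, nat_lit 28)⟩
noncomputable def p045_k6 : C1.Kn := ⟨[nat_lit 80, nat_lit 100, nat_lit 120], [nat_lit 0, nat_lit 132, nat_lit 640], [(nat_lit 0, nat_lit 0, nat_lit 0), (nat_lit 1000, nat_lit 979, nat_lit 103), (nat_lit 1000, nat_lit 979, nat_lit 397)], (nat_lit 97, nat_lit 100, nat_lit 28)⟩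
noncomputable def p045_k7 : C1.Kn := ⟨[nat_lit 80, nat_lit 100, nat_lit 140], [nat_lit 0, nat_lit 0, nat_lit 1022], [(nat_lit 0, nat_lit 0, nat_lit 0), (nat_lit 0, nat_lit 0, nat_lit 0), (nat_lit 1000, nat_lit 1000, nat_lit 399)], (nat_lit 100, nat_lit 99, nat_lit 44)⟩
noncomputable def p045_k8 : C1.Kn := ⟨[nat_lit 80, nat_lit 100, nat_lit 120], [nat_lit 0, nat_lit 265, nat_lit 768], [(nat_lit 0, nat_lit 0, nat_lit 0), (nat_lit 1000, nat_lit 959, nat_lit 206), (nat_lit 1000, nat_lit 958, nat_lit 392)], (nat_lit 96, nat_lit 100, nat_lit 44)⟩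
noncomputable def p045_k9 : C1.Kn := ⟨[nat_lit 40, nat_lit 70, nat_lit 90, nat_lit 110], [nat_lit 0, nat_lit 0, nat_lit 139, nat_lit 651], [(nat_lit 0, nat_lit 0, nat_lit 0), (nat_lit 0, nat_lit 0, nat_lit 0), (nat_lit 1000, nat_lit 967, nat_lit 109), (nat_lit 1000, nat_lit 938, nat_lit 398)], (nat_lit 94, nat_lit 100, nat_lit 44)⟩
noncomputable def p045_k10 : C1.Kn := ⟨[nat_lit 80, nat_lit 140], [nat_lit 0, nat_lit 792], [(nat_lit 0, nat_lit 0, nat_lit 0), (nat_lit 1000, nat_lit 959, nat_lit 206)], (nat_lit 100, nat_lit 99, nat_lit 63)⟩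
noncomputable def p045_k11 : C1.Kn := ⟨[nat_lit 80, nat_lit 140], [nat_lit 0, nat_lit 1192], [(nat_lit 0, nat_lit 0, nat_lit 0), (nat_lit 1000, nat_lit 938, nat_lit 310)], (nat_lit 98, nat_lit 100, nat_lit 63)⟩
noncomputable def p045_k12 : C1.Kn := ⟨[nat_lit 80, nat_lit 120], [nat_lit 0, nat_lit 528], [(nat_lit 0, nat_lit 0, nat_lit 0), (nat_lit 1000, nat_lit 959, nat_lit 206)], (nat_lit 96, nat_lit 100, nat_lit 44)⟩
noncomputable def p045_k13 : C1.Kn := ⟨[nat_lit 80, nat_lit 120], [nat_lit 0, nat_lit 796], [(nat_lit 0, nat_lit 0, nat_lit 0), (nat_lit 1000, nat_lit 938, nat_lit 310)], (nat_lit 94, nat_lit 100, nat_lit 44)⟩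
noncomputable def p045_k14 : C1.Kn := ⟨[nat_lit 80, nat_lit 100, nat_lit 120], [nat_lit 0, nat_lit 399, nat_lit 897], [(nat_lit 0, nat_lit 0, nat_lit 0), (nat_lit 1000, nat_lit 938, nat_lit 310), (nat_lit 1000, nat_lit 938, nat_lit 389)], (nat_lit 94, nat_lit 100, nat_lit 44)⟩
noncomputable def p045_k15 : C1.Kn := ⟨[nat_lit 80, nat_lit 120, nat_lit 140], [nat_lit 0, nat_lit 528, nat_lit 1572], [(nat_lit 0, nat_lit 0, nat_lit 0), (nat_lit 1000, nat_lit 959, nat_lit 206), (nat_lit 966, nat_lit 1000, nat_lit 679)], (nat_lit 100, nat_lit 99, nat_lit 63)⟩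
noncomputable def p045_k16 : C1.Kn := ⟨[nat_lit 80, nat_lit 100, nat_lit 140], [nat_lit 0, nat_lit 399, nat_lit 1395], [(nat_lit 0, nat_lit 0, nat_lit 0), (nat_lit 1000, nat_lit 938, nat_lit 310), (nat_lit 1000, nat_lit 938, nat_lit 389)], (nat_lit 98, nat_lit 100, nat_lit 63)⟩
noncomputable def p045_k17 : C1.Kn := ⟨[nat_lit 80, nat_lit 100, nat_lit 140], [nat_lit 0, nat_lit 265, nat_lit 1269], [(nat_lit 0, nat_lit 0, nat_lit 0), (nat_lit 1000, nat_lit 959, nat_lit 206), (nat_lit 1000, nat_lit 958, nat_lit 392)], (nat_lit 100, nat_lit 99, nat_lit 63)⟩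
noncomputable def p045_k18 : C1.Kn := ⟨[nat_lit 40, nat_lit 80, nat_lit 100, nat_lit 120], [nat_lit 0, nat_lit 0, nat_lit 399, nat_lit 897], [(nat_lit 0, nat_lit 0, nat_lit 0), (nat_lit 0, nat_lit 0, nat_lit 0), (nat_lit 1000, nat_lit 938, nat_lit 310), (nat_lit 1000, nat_lit 938, nat_lit 389)], (nat_lit 94, nat_lit 100, nat_lit 44)⟩
noncomputable def p045_k19 : C1.Kn := ⟨[nat_lit 70, nat_lit 90, nat_lit 140], [nat_lit 0, nat_lit 0, nat_lit 1289], [(nat_lit 0, nat_lit 0, nat_lit 0), (nat_lit 0, nat_lit 0, nat_lit 0), (nat_lit 1000, nat_lit 959, nat_lit 402)], (nat_lit 100, nat_lit 99, nat_lit 63)⟩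
noncomputable def p045_k20 : C1.Kn := ⟨[nat_lit 80, nat_lit 100], [nat_lit 0, nat_lit 399], [(nat_lit 0, nat_lit 0, nat_lit 0), (nat_lit 1000, nat_lit 938, nat_lit 310)], (nat_lit 94, nat_lit 100, nat_lit 28)⟩
noncomputable def p045_k21 : C1.Kn := ⟨[nat_lit 80, nat_lit 100, nat_lit 120], [nat_lit 0, nat_lit 332, nat_lit 833], [(nat_lit 0, nat_lit 0, nat_lit 0), (nat_lit 1000, nat_lit 948, nat_lit 259), (nat_lit 1000, nat_lit 948, nat_lit 391)], (nat_lit 95, nat_lit 100, nat_lit 44)⟩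
noncomputable def p045_k22 : C1.Kn := ⟨[nat_lit 80, nat_lit 120], [nat_lit 0, nat_lit 664], [(nat_lit 0, nat_lit 0, nat_lit 0), (nat_lit 1000, nat_lit 948, nat_lit 259)], (nat_lit 95, nat_lit 100, nat_lit 44)⟩
noncomputable def p045_k23 : C1.Kn := ⟨[nat_lit 30, nat_lit 70, nat_lit 90, nat_lit 120], [nat_lit 0, nat_lit 0, nat_lit 0, nat_lit 774], [(nat_lit 0, nat_lit 0, nat_lit 0), (nat_lit 0, nat_lit 0, nat_lit 0), (nat_lit 0, nat_lit 0, nat_lit 0), (nat_lit 1000, nat_lit 959, nat_lit 402)], (nat_lit 96, nat_lit 100, nat_lit 44)⟩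
noncomputable def p045_k24 : C1.Kn := ⟨[nat_lit 80, nat_lit 100, nat_lit 120], [nat_lit 0, nat_lit 132, nat_lit 640], [(nat_lit 0, nat_lit 0, nat_lit 0), (nat_lit 1000, nat_lit 979, nat_lit 103), (nat_lit 1000, nat_lit 979, nat_lit 397)], (nat_lit 99, nat_lit 100, nat_lit 44)⟩
noncomputable def p045_k25 : C1.Kn := ⟨[nat_lit 80, nat_lit 120, nat_lit 140], [nat_lit 0, nat_lit 0, nat_lit 1164], [(nat_lit 0, nat_lit 0, nat_lit 0), (nat_lit 0, nat_lit 0, nat_lit 0), (nat_lit 941, nat_lit 1000, nat_lit 576)], (nat_lit 100, nat_lit 99, nat_lit 44)⟩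
noncomputable def p045_k26 : C1.Kn := ⟨[nat_lit 80, nat_lit 100], [nat_lit 0, nat_lit 332], [(nat_lit 0, nat_lit 0, nat_lit 0), (nat_lit 1000, nat_lit 948, nat_lit 259)], (nat_lit 95, nat_lit 100, nat_lit 28)⟩
noncomputable def p045_k27 : C1.Kn := ⟨[nat_lit 80, nat_lit 120, nat_lit 160], [nat_lit 0, nat_lit 0, nat_lit 2132], [(nat_lit 0, nat_lit 0, nat_lit 0), (nat_lit 0, nat_lit 0, nat_lit 0), (nat_lit 858, nat_lit 1000, nat_lit 713)], (nat_lit 100, nat_lit 92, nat_lit 61)⟩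
noncomputable def p045_k28 : C1.Kn := ⟨[nat_lit 80, nat_lit 120], [nat_lit 0, nat_lit 264], [(nat_lit 0, nat_lit 0, nat_lit 0), (nat_lit 1000, nat_lit 979, nat_lit 103)], (nat_lit 97, nat_lit 100, nat_lit 28)⟩
noncomputable def p045_k29 : C1.Kn := ⟨[nat_lit 80, nat_lit 120], [nat_lit 0, nat_lit 528], [(nat_lit 0, nat_lit 0, nat_lit 0), (nat_lit 1000, nat_lit 959, nat_lit 206)], (nat_lit 96, nat_lit 100, nat_lit 39)⟩
noncomputable def p045_k30 : C1.Kn := ⟨[nat_lit 80, nat_lit 100, nat_lit 120], [nat_lit 0, nat_lit 265, nat_lit 768], [(nat_lit 0, nat_lit 0, nat_lit 0), (nat_lit 1000, nat_lit 959, nat_lit 206), (nat_lit 1000, nat_lit 958, nat_lit 392)], (nat_lit 97, nat_lit 100, nat_lit 48)⟩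
noncomputable def p045_k31 : C1.Kn := ⟨[nat_lit 80, nat_lit 100, nat_lit 160], [nat_lit 0, nat_lit 0, nat_lit 1533], [(nat_lit 0, nat_lit 0, nat_lit 0), (nat_lit 0, nat_lit 0, nat_lit 0), (nat_lit 1000, nat_lit 1000, nat_lit 399)], (nat_lit 100, nat_lit 92, nat_lit 61)⟩
noncomputable def p045_k32 : C1.Kn := ⟨[nat_lit 80, nat_lit 160], [nat_lit 0, nat_lit 0], [(nat_lit 0, nat_lit 0, nat_lit 0), (nat_lit 0, nat_lit 0, nat_lit 0)], (nat_lit 100, nat_lit 92, nat_lit 61)⟩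
noncomputable def p045_k33 : C1.Kn := ⟨[nat_lit 80, nat_lit 120, nat_lit 140], [nat_lit 0, nat_lit 0, nat_lit 1164], [(nat_lit 0, nat_lit 0, nat_lit 0), (nat_lit 0, nat_lit 0, nat_lit 0), (nat_lit 941, nat_lit 1000, nat_lit 576)], (nat_lit 100, nat_lit 95, nat_lit 55)⟩
noncomputable def p045_k34 : C1.Kn := ⟨[nat_lit 80, nat_lit 120, nat_lit 140], [nat_lit 0, nat_lit 528, nat_lit 1572], [(nat_lit 0, nat_lit 0, nat_lit 0), (nat_lit 1000, nat_lit 959, nat_lit 206), (nat_lit 966, nat_lit 1000, nat_lit 679)], (nat_lit 99, nat_lit 100, nat_lit 56)⟩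
noncomputable def p045_k35 : C1.Kn := ⟨[nat_lit 80, nat_lit 120, nat_lit 140], [nat_lit 0, nat_lit 264, nat_lit 1360], [(nat_lit 0, nat_lit 0, nat_lit 0), (nat_lit 1000, nat_lit 979, nat_lit 103), (nat_lit 951, nat_lit 1000, nat_lit 628)], (nat_lit 100, nat_lit 95, nat_lit 62)⟩
noncomputable def p045_k36 : C1.Kn := ⟨[nat_lit 80, nat_lit 100, nat_lit 120], [nat_lit 0, nat_lit 0, nat_lit 511], [(nat_lit 0, nat_lit 0, nat_lit 0), (nat_lit 0, nat_lit 0, nat_lit 0), (nat_lit 1000, nat_lit 997, nat_lit 383)], (nat_lit 100, nat_lit 100, nat_lit 40)⟩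
noncomputable def p045_k37 : C1.Kn := ⟨[nat_lit 80, nat_lit 100, nat_lit 120], [nat_lit 0, nat_lit 65, nat_lit 576], [(nat_lit 0, nat_lit 0, nat_lit 0), (nat_lit 1000, nat_lit 990, nat_lit 51), (nat_lit 1000, nat_lit 990, nat_lit 399)], (nat_lit 99, nat_lit 100, nat_lit 40)⟩
noncomputable def p045_k38 : C1.Kn := ⟨[nat_lit 80, nat_lit 100, nat_lit 120], [nat_lit 0, nat_lit 132, nat_lit 640], [(nat_lit 0, nat_lit 0, nat_lit 0), (nat_lit 1000, nat_lit 979, nat_lit 103), (nat_lit 1000, nat_lit 979, nat_lit 397)], (nat_lit 98, nat_lit 100, nat_lit 40)⟩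
noncomputable def p045_k39 : C1.Kn := ⟨[nat_lit 80, nat_lit 100, nat_lit 120], [nat_lit 0, nat_lit 198, nat_lit 704], [(nat_lit 0, nat_lit 0, nat_lit 0), (nat_lit 1000, nat_lit 969, nat_lit 154), (nat_lit 1000, nat_lit 969, nat_lit 395)], (nat_lit 97, nat_lit 100, nat_lit 39)⟩
noncomputable def p045_k40 : C1.Kn := ⟨[nat_lit 80, nat_lit 100, nat_lit 140], [nat_lit 0, nat_lit 132, nat_lit 1148], [(nat_lit 0, nat_lit 0, nat_lit 0), (nat_lit 1000, nat_lit 979, nat_lit 103), (nat_lit 1000, nat_lit 979, nat_lit 397)], (nat_lit 100, nat_lit 100, nat_lit 49)⟩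
noncomputable def p045_k41 : C1.Kn := ⟨[nat_lit 80, nat_lit 100, nat_lit 140], [nat_lit 0, nat_lit 0, nat_lit 1022], [(nat_lit 0, nat_lit 0, nat_lit 0), (nat_lit 0, nat_lit 0, nat_lit 0), (nat_lit 1000, nat_lit 1000, nat_lit 399)], (nat_lit 100, nat_lit 98, nat_lit 48)⟩
noncomputable def p045_l0 : Lf2 := ⟨nat_lit 0, nat_lit 5, [nat_lit 4, nat_lit 5, nat_lit 5, nat_lit 20], true, nat_lit 280, nat_lit 296, nat_lit 0, nat_lit 248, ⟨nat_lit 0, nat_lit 1000, nat_lit 0, nat_lit 6, nat_lit 100, nat_lit 1000, nat_lit 203, nat_lit 0, nat_lit 0, nat_lit 0, nat_lit 0, nat_lit 0, nat_lit 48987522, nat_lit 4470935, nat_lit 13541543, nat_lit 3888748, false, false⟩,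
 nat_lit 0, nat_lit 0, nat_lit 0, nat_lit 2233, nat_lit 4286, nat_lit 0, nat_lit 0, nat_lit 0, nat_lit 0, nat_lit 0, nat_lit 0, nat_lit 0, nat_lit 0, nat_lit 8589738071440, nat_lit 0, nat_lit 250000, nat_lit 0, nat_lit 0, [(nat_lit 9, [(nat_lit 0, nat_lit 1000)])],
 ⟨p045_k0, nat_lit 0, nat_lit 0, nat_lit 0, nat_lit 0, nat_lit 0, [nat_lit 1558400000, nat_lit 2319600001, nat_lit 2818000000, nat_lit 3370000000], [], [nat_lit 18073234752, nat_lit 19288723048, nat_lit 17832420801, nat_lit 19042599985, nat_lit 19220105098, nat_lit 20516445077, nat_lit 18973469326, nat_lit 20180296367], nat_lit 0, nat_lit 0, nat_lit 0, nat_lit 0, nat_lit 0, nat_lit 0, [], [nat_lit 138, nat_lit 40, nat_lit 20, nat_lit 40]⟩, C1.Rw.none,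
 ⟨nat_lit 5477, nat_lit 5917, ⟨.ofNat (nat_lit 212836), .ofNat (nat_lit 228543), .ofNat (nat_lit 255515), .ofNat (nat_lit 271221), .ofNat (nat_lit 227994), .ofNat (nat_lit 242980), .ofNat (nat_lit 270708), .ofNat (nat_lit 285695)⟩, ⟨.ofNat (nat_lit 486351), .ofNat (nat_lit 517765), .ofNat (nat_lit 507691), .ofNat (nat_lit 539104), .ofNat (nat_lit 479008), .ofNat (nat_lit 508982), .ofNat (nat_lit 500365), .ofNat (nat_lit 530339)⟩⟩, [⟨nat_lit 0, nat_lit 100, nat_lit 98, nat_lit 64, nat_lit 260603147⟩, ⟨nat_lit 16, nat_lit 100, nat_lit 92, nat_lit 75, nat_lit 387576331⟩]⟩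
noncomputable def p045_l1 : Lf2 := ⟨nat_lit 0, nat_lit 5, [nat_lit 4, nat_lit 5, nat_lit 5, nat_lit 20], true, nat_lit 280, nat_lit 300, nat_lit 0, nat_lit 248, ⟨nat_lit 0, nat_lit 1000, nat_lit 0, nat_lit 6, nat_lit 94, nat_lit 1000, nat_lit 215, nat_lit 0, nat_lit 0, nat_lit 0, nat_lit 0, nat_lit 0, nat_lit 48228568, nat_lit 4083790, nat_lit 14687642, nat_lit 3917859, false, false⟩,
 nat_lit 0, nat_lit 0, nat_lit 0, nat_lit 2244, nat_lit 3116, nat_lit 0, nat_lit 0, nat_lit 0, nat_lit 0, nat_lit 0, nat_lit 0, nat_lit 0, nat_lit 0, nat_lit 8908854953161, nat_lit 0, nat_lit 250000, nat_lit 0, nat_lit 0, [(nat_lit 9, [(nat_lit 0, nat_lit 1000)])],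
 ⟨p045_k0, nat_lit 0, nat_lit 0, nat_lit 0, nat_lit 0, nat_lit 0, [nat_lit 1558400000, nat_lit 2319600001, nat_lit 2818000000, nat_lit 3370000000], [], [nat_lit 17167251525, nat_lit 17452481639, nat_lit 17015131352, nat_lit 17299221114, nat_lit 18533483139, nat_lit 18813590869, nat_lit 18334179192, nat_lit 18602697130], nat_lit 0, nat_lit 0, nat_lit 0, nat_lit 0, nat_lit 0, nat_lit 0, [], [nat_lit 138, nat_lit 40, nat_lit 20, nat_lit 40]⟩, C1.Rw.none,
 ⟨nat_lit 5809, nat_lit 5917, ⟨.ofNat (nat_lit 212836), .ofNat (nat_lit 228543), .ofNat (nat_lit 239510), .ofNat (nat_lit 255217), .ofNat (nat_lit 216662), .ofNat (nat_lit 232187), .ofNat (nat_lit 243336), .ofNat (nat_lit 258861)⟩, ⟨.ofNat (nat_lit 507691), .ofNat (nat_lit 546958), .ofNat (nat_lit 529030), .ofNat (nat_lit 568297), .ofNat (nat_lit 505870), .ofNat (nat_lit 544681), .ofNat (nat_lit 527209), .ofNat (nat_lit 566020)⟩⟩, [⟨nat_lit 0, nat_lit 100, nat_lit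 100, nat_lit 65, nat_lit 227403684⟩, ⟨nat_lit 4, nat_lit 90, nat_lit 100, nat_lit 80, nat_lit 10822863⟩]⟩
noncomputable def p045_l2 : Lf2 := ⟨nat_lit 0, nat_lit 5, [nat_lit 4, nat_lit 5, nat_lit 5, nat_lit 20], true, nat_lit 280, nat_lit 300, nat_lit 0, nat_lit 248, ⟨nat_lit 0, nat_lit 1000, nat_lit 0, nat_lit 6, nat_lit 96, nat_lit 1000, nat_lit 214, nat_lit 0, nat_lit 0, nat_lit 0, nat_lit 0, nat_lit 0, nat_lit 48185618, nat_lit 4204038, nat_lit 14610344, nat_lit 3936417, false, false⟩,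
 nat_lit 0, nat_lit 0, nat_lit 0, nat_lit 2239, nat_lit 3116, nat_lit 0, nat_lit 0, nat_lit 0, nat_lit 0, nat_lit 0, nat_lit 0, nat_lit 0, nat_lit 0, nat_lit 0, nat_lit 0, nat_lit 250000, nat_lit 0, nat_lit 0, [(nat_lit 9, [(nat_lit 0, nat_lit 1000)])],
 ⟨p045_k1, nat_lit 0, nat_lit 0, nat_lit 0, nat_lit 0, nat_lit 0, [nat_lit 1558400000, nat_lit 2319600001, nat_lit 2818000000, nat_lit 3370000000], [], [nat_lit 17452481639, nat_lit 17623619708, nat_lit 17299221114, nat_lit 17469674972, nat_lit 18813590869, nat_lit 18981655508, nat_lit 18602697130, nat_lit 18770154739], nat_lit 0, nat_lit 0, nat_lit 0, nat_lit 0, nat_lit 0, nat_lit 0, [], [nat_lit 138, nat_lit 40, nat_lit 20, nat_lit 40]⟩, C1.Rw.none,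
 ⟨nat_lit 5744, nat_lit 5810, ⟨.ofNat (nat_lit 216662), .ofNat (nat_lit 232187), .ofNat (nat_lit 246537), .ofNat (nat_lit 262062), .ofNat (nat_lit 218945), .ofNat (nat_lit 234361), .ofNat (nat_lit 248822), .ofNat (nat_lit 264238)⟩, ⟨.ofNat (nat_lit 505870), .ofNat (nat_lit 544681), .ofNat (nat_lit 527209), .ofNat (nat_lit 566020), .ofNat (nat_lit 504774), .ofNat (nat_lit 543314), .ofNat (nat_lit 526115), .ofNat (nat_lit 564654)⟩⟩, [⟨nat_lit 0, nat_lit 100, nat_lit 98, nat_lit 60, nat_lit 632134752⟩, ⟨nat_lit 4, nat_lit 92, nat_lit 100, nat_lit 81, nat_lit 11913298⟩]⟩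
noncomputable def p045_l3 : Lf2 := ⟨nat_lit 0, nat_lit 5, [nat_lit 4, nat_lit 5, nat_lit 5, nat_lit 20], true, nat_lit 280, nat_lit 300, nat_lit 0, nat_lit 248, ⟨nat_lit 0, nat_lit 1000, nat_lit 0, nat_lit 6, nat_lit 97, nat_lit 1000, nat_lit 214, nat_lit 0, nat_lit 0, nat_lit 0, nat_lit 0, nat_lit 0, nat_lit 48156824, nat_lit 4281310, nat_lit 14561866, nat_lit 3948256, false, false⟩,
 nat_lit 0, nat_lit 0, nat_lit 0, nat_lit 2286, nat_lit 4279, nat_lit 0, nat_lit 0, nat_lit 0, nat_lit 0, nat_lit 0, nat_lit 0, nat_lit 0, nat_lit 0, nat_lit 0, nat_lit 0, nat_lit 250000, nat_lit 0, nat_lit 0, [(nat_lit 9, [(nat_lit 0, nat_lit 1000)])],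
 ⟨p045_k2, nat_lit 0, nat_lit 0, nat_lit 0, nat_lit 0, nat_lit 0, [nat_lit 1558400000, nat_lit 2319600001, nat_lit 2818000000, nat_lit 3370000000], [], [nat_lit 18562388545, nat_lit 18683847189, nat_lit 18320055072, nat_lit 18440983289, nat_lit 20050582717, nat_lit 20178449750, nat_lit 19716722320, nat_lit 19843630701], nat_lit 0, nat_lit 0, nat_lit 0, nat_lit 0, nat_lit 0, nat_lit 0, [], [nat_lit 138, nat_lit 40, nat_lit 20, nat_lit 40]⟩, C1.Rw.none,
 ⟨nat_lit 5700, nat_lit 5745, ⟨.ofNat (nat_lit 218945), .ofNat (nat_lit 234361), .ofNat (nat_lit 250956), .ofNat (nat_lit 266372), .ofNat (nat_lit 220462), .ofNat (nat_lit 235806), .ofNat (nat_lit 252475), .ofNat (nat_lit 267819)⟩, ⟨.ofNat (nat_lit 504774), .ofNat (nat_lit 543314), .ofNat (nat_lit 526115), .ofNat (nat_lit 564654), .ofNat (nat_lit 504043), .ofNat (nat_lit 542402), .ofNat (nat_lit 525385), .ofNat (nat_lit 563744)⟩⟩, [⟨nat_lit 0, nat_lit 100, nat_lit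 98, nat_lit 61, nat_lit 622742199⟩, ⟨nat_lit 4, nat_lit 93, nat_lit 100, nat_lit 81, nat_lit 19268976⟩]⟩
noncomputable def p045_l4 : Lf2 := ⟨nat_lit 0, nat_lit 2, [nat_lit 10, nat_lit 5, nat_lit 5, nat_lit 20], false, nat_lit 300, nat_lit 320, nat_lit 0, nat_lit 224, ⟨nat_lit 215, nat_lit 785, nat_lit 0, nat_lit 6, nat_lit 91, nat_lit 785, nat_lit 230, nat_lit 0, nat_lit 0, nat_lit 0, nat_lit 0, nat_lit 0, nat_lit 46967129, nat_lit 3813651, nat_lit 16219220, nat_lit 3993126, false, false⟩,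
 nat_lit 0, nat_lit 0, nat_lit 6978, nat_lit 4086, nat_lit 4920, nat_lit 3694, nat_lit 0, nat_lit 0, nat_lit 0, nat_lit 0, nat_lit 0, nat_lit 0, nat_lit 0, nat_lit 0, nat_lit 0, nat_lit 785000, nat_lit 0, nat_lit 0, [(nat_lit 9, [(nat_lit 2, nat_lit 785)])],
 ⟨p045_k3, nat_lit 0, nat_lit 0, nat_lit 0, nat_lit 0, nat_lit 0, [nat_lit 3098741334, nat_lit 3172172000], [], [nat_lit 20647791642, nat_lit 21235417888, nat_lit 20240172214, nat_lit 20826277934, nat_lit 22056827015, nat_lit 22606635695, nat_lit 21644443494, nat_lit 22192982574], nat_lit 0, nat_lit 0, nat_lit 0, nat_lit 0, nat_lit 0, nat_lit 0, [], [nat_lit 31, nat_lit 40, nat_lit 40, nat_lit 80]⟩, ⟨p045_k4, nat_lit 0, nat_lit 0, nat_lit 261, nat_lit 0, nat_lit 100257, [nat_lit 1007920000, nat_lit 1343750000, nat_lit 1713120000], [], [nat_lit 6304334905, nat_lit 5829099958, nat_lit 5534833332, nat_lit 5215393783, nat_lit 3019361222, nat_lit 3192185292,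 nat_lit 2666715110, nat_lit 2809947535], nat_lit 1271250, nat_lit 1271250, nat_lit 181601, nat_lit 230001, nat_lit 0, nat_lit 1582000, [nat_lit 1100000, nat_lit 1442500, nat_lit 1271250], [nat_lit 9, nat_lit 40, nat_lit 40, nat_lit 80, nat_lit 2, nat_lit 289, nat_lit 75, nat_lit 10]⟩,
 ⟨nat_lit 5700, nat_lit 5917, ⟨.ofNat (nat_lit 212836), .ofNat (nat_lit 228543), .ofNat (nat_lit 218171), .ofNat (nat_lit 233878), .ofNat (nat_lit 220462), .ofNat (nat_lit 235806), .ofNat (nat_lit 225798), .ofNat (nat_lit 241142)⟩, ⟨.ofNat (nat_lit 546958), .ofNat (nat_lit 586223), .ofNat (nat_lit 568296), .ofNat (nat_lit 607561), .ofNat (nat_lit 542402), .ofNat (nat_lit 580761), .ofNat (nat_lit 563744), .ofNat (nat_lit 602101)⟩⟩, [⟨nat_lit 4, nat_lit 91, nat_lit 100, nat_lit 80, nat_lit 430002982⟩]⟩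
noncomputable def p045_l5 : Lf2 := ⟨nat_lit 0, nat_lit 2, [nat_lit 10, nat_lit 5, nat_lit 5, nat_lit 20], false, nat_lit 300, nat_lit 320, nat_lit 0, nat_lit 224, ⟨nat_lit 1000, nat_lit 0, nat_lit 0, nat_lit 0, nat_lit 0, nat_lit 0, nat_lit 0, nat_lit 0, nat_lit 0, nat_lit 0, nat_lit 0, nat_lit 0, nat_lit 0, nat_lit 0, nat_lit 0, nat_lit 0, false, false⟩,
 nat_lit 0, nat_lit 0, nat_lit 18995, nat_lit 0, nat_lit 6231, nat_lit 10303, nat_lit 0, nat_lit 0, nat_lit 0, nat_lit 3209, nat_lit 0, nat_lit 0, nat_lit 0, nat_lit 0, nat_lit 0, nat_lit 0, nat_lit 0, nat_lit 0, [],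
 ⟨p045_k3, nat_lit 0, nat_lit 0, nat_lit 0, nat_lit 0, nat_lit 0, [nat_lit 4688000000, nat_lit 6250000000], [], [nat_lit 21846178805, nat_lit 22505646278, nat_lit 21301443984, nat_lit 21959233218, nat_lit 23449781785, nat_lit 24109150351, nat_lit 22899591188, nat_lit 23511941882], nat_lit 0, nat_lit 0, nat_lit 0, nat_lit 0, nat_lit 0, nat_lit 0, [], [nat_lit 31, nat_lit 40, nat_lit 40, nat_lit 80]⟩, ⟨p045_k5, nat_lit 0, nat_lit 0, nat_lit 260, nat_lit 0, nat_lit 121011, [nat_lit 4688000000, nat_lit 6250000000, nat_lit 7968000000], [], [nat_lit 18925254322, nat_lit 19849613049, nat_lit 17276748306, nat_lit 18201894644, nat_lit 14075230276, nat_lit 14596204714, nat_lit 13138515181, nat_lit 13657797712], nat_lit 1271250, nat_lit 1271250, nat_lit 181601, nat_lit 230001, nat_lit 0, nat_lit 1582000, [nat_lit 1100000, nat_lit 1442500, nat_lit 1271250], [nat_lit 9, nat_lit 40, nat_lit 40, nat_lit 80, nat_lit 2, nat_lit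 289, nat_lit 75, nat_lit 10]⟩,
 zbF0, [⟨nat_lit 0, nat_lit 100, nat_lit 97, nat_lit 56, nat_lit 296881175⟩, ⟨nat_lit 4, nat_lit 91, nat_lit 100, nat_lit 80, nat_lit 757732078⟩, ⟨nat_lit 23, nat_lit 84, nat_lit 100, nat_lit 57, nat_lit 93584274⟩]⟩
noncomputable def p045_l6 : Lf2 := ⟨nat_lit 0, nat_lit 2, [nat_lit 10, nat_lit 5, nat_lit 5, nat_lit 20], false, nat_lit 300, nat_lit 320, nat_lit 0, nat_lit 224, ⟨nat_lit 1000, nat_lit 0, nat_lit 0, nat_lit 0, nat_lit 0, nat_lit 0, nat_lit 0, nat_lit 0, nat_lit 0, nat_lit 0, nat_lit 0, nat_lit 0, nat_lit 0, nat_lit 0, nat_lit 0, nat_lit 0, false, false⟩,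
 nat_lit 0, nat_lit 0, nat_lit 23565, nat_lit 0, nat_lit 6281, nat_lit 13091, nat_lit 0, nat_lit 0, nat_lit 0, nat_lit 4057, nat_lit 0, nat_lit 0, nat_lit 0, nat_lit 0, nat_lit 0, nat_lit 0, nat_lit 0, nat_lit 0, [],
 ⟨p045_k3, nat_lit 0, nat_lit 0, nat_lit 0, nat_lit 0, nat_lit 0, [nat_lit 4688000000, nat_lit 6250000000], [], [nat_lit 21831271425, nat_lit 22493478838, nat_lit 21281307184, nat_lit 21941830343, nat_lit 23450820531, nat_lit 24166522981, nat_lit 22886848588, nat_lit 23501632982], nat_lit 0, nat_lit 0, nat_lit 0, nat_lit 0, nat_lit 0, nat_lit 0, [], [nat_lit 31, nat_lit 40, nat_lit 40, nat_lit 80]⟩, ⟨p045_k6, nat_lit 0, nat_lit 0, nat_lit 261, nat_lit 0, nat_lit 165876, [nat_lit 4688000000, nat_lit 6250000000, nat_lit 7968000000], [], [nat_lit 25781335557, nat_lit 25564376498, nat_lit 23064439889, nat_lit 23449198040, nat_lit 15108081137, nat_lit 16742717400, nat_lit 13558218225, nat_lit 15190357297],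 nat_lit 1271250, nat_lit 1271250, nat_lit 181601, nat_lit 230001, nat_lit 0, nat_lit 1582000, [nat_lit 1100000, nat_lit 1442500, nat_lit 1271250], [nat_lit 9, nat_lit 40, nat_lit 40, nat_lit 80, nat_lit 2, nat_lit 289, nat_lit 75, nat_lit 10]⟩,
 zbF0, [⟨nat_lit 0, nat_lit 100, nat_lit 99, nat_lit 55, nat_lit 1225948845⟩, ⟨nat_lit 4, nat_lit 91, nat_lit 100, nat_lit 80, nat_lit 829651444⟩]⟩
noncomputable def p045_l7 : Lf2 := ⟨nat_lit 0, nat_lit 5, [nat_lit 4, nat_lit 5, nat_lit 5, nat_lit 20], false, nat_lit 300, nat_lit 320, nat_lit 0, nat_lit 224, ⟨nat_lit 1000, nat_lit 0, nat_lit 0, nat_lit 0, nat_lit 0, nat_lit 0, nat_lit 0, nat_lit 0, nat_lit 0, nat_lit 0, nat_lit 0, nat_lit 0, nat_lit 0, nat_lit 0, nat_lit 0, nat_lit 0, false, false⟩,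
 nat_lit 0, nat_lit 0, nat_lit 20573, nat_lit 25272, nat_lit 5662, nat_lit 10891, nat_lit 0, nat_lit 0, nat_lit 0, nat_lit 3138, nat_lit 0, nat_lit 0, nat_lit 0, nat_lit 0, nat_lit 0, nat_lit 0, nat_lit 0, nat_lit 0, [],
 ⟨p045_k0, nat_lit 0, nat_lit 0, nat_lit 0, nat_lit 0, nat_lit 0, [nat_lit 2032000001, nat_lit 3965500000, nat_lit 5449500000, nat_lit 7968000000], [], [nat_lit 20735369775, nat_lit 21468398883, nat_lit 20367435552, nat_lit 21016330706, nat_lit 22640753038, nat_lit 23320461472, nat_lit 22153740764, nat_lit 22831798530], nat_lit 0, nat_lit 0, nat_lit 0, nat_lit 0, nat_lit 0, nat_lit 0, [], [nat_lit 138, nat_lit 40, nat_lit 20, nat_lit 40]⟩, ⟨p045_k7, nat_lit 0, nat_lit 0, nat_lit 293, nat_lit 0, nat_lit 80090, [nat_lit 4688000000, nat_lit 6250000000, nat_lit 9842000000], [], [nat_lit 20009843805, nat_lit 22513694578, nat_lit 18737027320, nat_lit 21096316216, nat_lit 14190363533, nat_lit 16128223080,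 nat_lit 13855996969, nat_lit 14856292727], nat_lit 1271250, nat_lit 1271250, nat_lit 181601, nat_lit 230001, nat_lit 0, nat_lit 1582000, [nat_lit 1100000, nat_lit 1442500, nat_lit 1271250], [nat_lit 11, nat_lit 40, nat_lit 40, nat_lit 80, nat_lit 1, nat_lit 373, nat_lit 150, nat_lit 11]⟩,
 zbF0, [⟨nat_lit 0, nat_lit 100, nat_lit 98, nat_lit 57, nat_lit 1747908822⟩, ⟨nat_lit 4, nat_lit 91, nat_lit 100, nat_lit 80, nat_lit 1564964307⟩, ⟨nat_lit 23, nat_lit 87, nat_lit 100, nat_lit 60, nat_lit 37453338⟩]⟩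
noncomputable def p045_l8 : Lf2 := ⟨nat_lit 0, nat_lit 5, [nat_lit 4, nat_lit 5, nat_lit 5, nat_lit 20], false, nat_lit 300, nat_lit 320, nat_lit 0, nat_lit 224, ⟨nat_lit 1000, nat_lit 0, nat_lit 0, nat_lit 0, nat_lit 0, nat_lit 0, nat_lit 0, nat_lit 0, nat_lit 0, nat_lit 0, nat_lit 0, nat_lit 0, nat_lit 0, nat_lit 0, nat_lit 0, nat_lit 0, false, false⟩,
 nat_lit 0, nat_lit 0, nat_lit 24451, nat_lit 5728, nat_lit 5703, nat_lit 14232, nat_lit 0, nat_lit 0, nat_lit 0, nat_lit 5418, nat_lit 0, nat_lit 0, nat_lit 0, nat_lit 30162003951197, nat_lit 0, nat_lit 0, nat_lit 0, nat_lit 0, [],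
 ⟨p045_k0, nat_lit 0, nat_lit 0, nat_lit 0, nat_lit 0, nat_lit 0, [nat_lit 2032000001, nat_lit 3965500000, nat_lit 5449500000, nat_lit 7968000000], [], [nat_lit 20537181551, nat_lit 21263930677, nat_lit 20351428988, nat_lit 21021221029, nat_lit 22438795416, nat_lit 23120148766, nat_lit 22193105766, nat_lit 22873631445], nat_lit 0, nat_lit 0, nat_lit 0, nat_lit 0, nat_lit 0, nat_lit 0, [], [nat_lit 138, nat_lit 40, nat_lit 20, nat_lit 40]⟩, ⟨p045_k8, nat_lit 0, nat_lit 0, nat_lit 272, nat_lit 0, nat_lit 213443, [nat_lit 4688000000, nat_lit 6250000000, nat_lit 7968000000], [], [nat_lit 25993004578, nat_lit 28375183032, nat_lit 24839438080, nat_lit 27222864624, nat_lit 17446755235, nat_lit 17955259183, nat_lit 17590761065, nat_lit 17105509095], nat_lit 1271250, nat_lit 1271250, nat_lit 205650, nat_lit 230001, nat_lit 0, nat_lit 1582000, [nat_lit 1100000, nat_lit 1442500, nat_lit 1271250], [nat_lit 9, nat_lit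 40, nat_lit 40, nat_lit 80, nat_lit 2, nat_lit 289, nat_lit 75, nat_lit 10]⟩,
 zbF0, [⟨nat_lit 0, nat_lit 100, nat_lit 100, nat_lit 65, nat_lit 2434909182⟩, ⟨nat_lit 4, nat_lit 91, nat_lit 100, nat_lit 80, nat_lit 903401037⟩]⟩
noncomputable def p045_l9 : Lf2 := ⟨nat_lit 0, nat_lit 5, [nat_lit 4, nat_lit 5, nat_lit 5, nat_lit 20], true, nat_lit 280, nat_lit 308, nat_lit 0, nat_lit 248, ⟨nat_lit 0, nat_lit 1000, nat_lit 0, nat_lit 6, nat_lit 97, nat_lit 1000, nat_lit 216, nat_lit 0, nat_lit 0, nat_lit 0, nat_lit 0, nat_lit 0, nat_lit 47982623, nat_lit 4251068, nat_lit 14766309, nat_lit 3960849, false, false⟩,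
 nat_lit 0, nat_lit 0, nat_lit 0, nat_lit 2292, nat_lit 4203, nat_lit 0, nat_lit 0, nat_lit 0, nat_lit 0, nat_lit 0, nat_lit 0, nat_lit 0, nat_lit 0, nat_lit 0, nat_lit 0, nat_lit 250000, nat_lit 0, nat_lit 0, [(nat_lit 9, [(nat_lit 0, nat_lit 1000)])],
 ⟨p045_k9, nat_lit 0, nat_lit 0, nat_lit 0, nat_lit 0, nat_lit 0, [nat_lit 1558400000, nat_lit 2319600001, nat_lit 2807600000, nat_lit 3186000000], [], [nat_lit 18714988615, nat_lit 19317386069, nat_lit 18478689017, nat_lit 19078460633, nat_lit 20735039259, nat_lit 21352226367, nat_lit 20406673850, nat_lit 21021251926], nat_lit 0, nat_lit 0, nat_lit 0, nat_lit 0, nat_lit 0, nat_lit 0, [], [nat_lit 189, nat_lit 40, nat_lit 20, nat_lit 40]⟩, C1.Rw.none,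
 ⟨nat_lit 5477, nat_lit 5701, ⟨.ofNat (nat_lit 220462), .ofNat (nat_lit 235806), .ofNat (nat_lit 241804), .ofNat (nat_lit 257148), .ofNat (nat_lit 227994), .ofNat (nat_lit 242980), .ofNat (nat_lit 249351), .ofNat (nat_lit 264337)⟩, ⟨.ofNat (nat_lit 504043), .ofNat (nat_lit 557746), .ofNat (nat_lit 525385), .ofNat (nat_lit 579088), .ofNat (nat_lit 500365), .ofNat (nat_lit 552818), .ofNat (nat_lit 521722), .ofNat (nat_lit 574176)⟩⟩, [⟨nat_lit 0, nat_lit 100, nat_lit 96, nat_lit 61, nat_lit 622950997⟩, ⟨nat_lit 16, nat_lit 100, nat_lit 90, nat_lit 85, nat_lit 327852236⟩]⟩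
noncomputable def p045_l10 : Lf2 := ⟨nat_lit 2, nat_lit 5, [nat_lit 4, nat_lit 5, nat_lit 5, nat_lit 20], true, nat_lit 280, nat_lit 320, nat_lit 0, nat_lit 248, zbN0,
 nat_lit 0, nat_lit 0, nat_lit 0, nat_lit 0, nat_lit 0, nat_lit 0, nat_lit 0, nat_lit 0, nat_lit 0, nat_lit 0, nat_lit 0, nat_lit 0, nat_lit 0, nat_lit 0, nat_lit 0, nat_lit 0, nat_lit 0, nat_lit 0, [],
 ⟨p045_k8, nat_lit 0, nat_lit 0, nat_lit 95, nat_lit 0, nat_lit 0, [], [], [], nat_lit 0, nat_lit 0, nat_lit 0, nat_lit 0, nat_lit 0, nat_lit 0, [], [nat_lit 9, nat_lit 40, nat_lit 40, nat_lit 80, nat_lit 2, nat_lit 215, nat_lit 10, nat_lit 6]⟩, C1.Rw.none,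
 zbF0, []⟩
noncomputable def b_V_600_600_10_18 : St := ⟨true, nat_lit 0, nat_lit 1, nat_lit 1, nat_lit 80, nat_lit 260, nat_lit 280, nat_lit 240, nat_lit 280, nat_lit 32, nat_lit 40, nat_lit 40, nat_lit 80, nat_lit 280, nat_lit 320, nat_lit 0, nat_lit 248, nat_lit 0, nat_lit 20, nat_lit 0, nat_lit 0, nat_lit 0, nat_lit 0⟩
theorem d_V_600_600_10_18 (h : EB TB.env) : Dead b_V_600_600_10_18 := chkB_sound0 h (T :=
(.spl (nat_lit 7) (nat_lit 600)
(.spl (nat_lit 3) (nat_lit 60)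
(.trX (nat_lit 16) (nat_lit 100) (nat_lit 92) (nat_lit 75) (nat_lit 296) (.leaf p045_l0))
(.spl (nat_lit 0) (nat_lit 270)
(.ord (.spl (nat_lit 4) (nat_lit 300)
(.spl (nat_lit 0) (nat_lit 265)
(.ord (.leaf p045_l1))
(.spl (nat_lit 0) (nat_lit 268)
(.ord (.leaf p045_l2))
(.leaf p045_l3)))
(.trX (nat_lit 23) (nat_lit 87) (nat_lit 100) (nat_lit 60) (nat_lit 224) (.spl (nat_lit 1) (nat_lit 260)
(.spl (nat_lit 6) (nat_lit 8)
(.spl (nat_lit 1) (nat_lit 250)
(.spl (nat_lit 1) (nat_lit 245)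
(.leaf p045_l4)
(.leaf p045_l5))
(.leaf p045_l6))
(.leaf p045_l7))
(.trZ (nat_lit 0) (nat_lit 100) (nat_lit 100) (nat_lit 60) (nat_lit 36) (.leaf p045_l8))))))
(.trX (nat_lit 16) (nat_lit 100) (nat_lit 90) (nat_lit 85) (nat_lit 308) (.spl (nat_lit 1) (nat_lit 260)
(.leaf p045_l9)
(.emL (nat_lit 0) (nat_lit 100) (nat_lit 98) (nat_lit 64))))))
(.leaf p045_l10))) (by decide +kernel)
noncomputable def p045_l11 : Lf2 := ⟨nat_lit 0, nat_lit 10, [nat_lit 0, nat_lit 5, nat_lit 5, nat_lit 20], true, nat_lit 280, nat_lit 296, nat_lit 0, nat_lit 248, ⟨nat_lit 0, nat_lit 0, nat_lit 1000, nat_lit 6, nat_lit 93, nat_lit 1000, nat_lit 204, nat_lit 1000, nat_lit 11818, nat_lit 238, nat_lit 81667, nat_lit 285, nat_lit 49313428, nat_lit 0, nat_lit 0, nat_lit 3806530, false, false⟩,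
 nat_lit 0, nat_lit 0, nat_lit 0, nat_lit 100000, nat_lit 4511, nat_lit 0, nat_lit 0, nat_lit 0, nat_lit 0, nat_lit 0, nat_lit 0, nat_lit 0, nat_lit 0, nat_lit 68234604387085, nat_lit 101, nat_lit 478600, nat_lit 0, nat_lit 0, [(nat_lit 9, [(nat_lit 5, nat_lit 869), (nat_lit 6, nat_lit 131)])],
 ⟨p045_k10, nat_lit 0, nat_lit 0, nat_lit 145, nat_lit 0, nat_lit 0, [nat_lit 3209105201, nat_lit 17317600], [], [nat_lit 18842505710, nat_lit 19540704637, nat_lit 17901364571, nat_lit 18596992341, nat_lit 20107044434, nat_lit 20769881900, nat_lit 19159921304, nat_lit 19821161791], nat_lit 0, nat_lit 0, nat_lit 0, nat_lit 0, nat_lit 0, nat_lit 0, [], [nat_lit 70, nat_lit 40, nat_lit 40, nat_lit 80, nat_lit 13, nat_lit 317, nat_lit 100, nat_lit 9]⟩, C1.Rw.none,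
 ⟨nat_lit 5700, nat_lit 5917, ⟨.ofNat (nat_lit 197129), .ofNat (nat_lit 228543), .ofNat (nat_lit 229138), .ofNat (nat_lit 260552), .ofNat (nat_lit 205119), .ofNat (nat_lit 235806), .ofNat (nat_lit 237132), .ofNat (nat_lit 267819)⟩, ⟨.ofNat (nat_lit 486351), .ofNat (nat_lit 517765), .ofNat (nat_lit 507691), .ofNat (nat_lit 539104), .ofNat (nat_lit 482701), .ofNat (nat_lit 513388), .ofNat (nat_lit 504043), .ofNat (nat_lit 534730)⟩⟩, [⟨nat_lit 0, nat_lit 100, nat_lit 98, nat_lit 60, nat_lit 4062122828⟩, ⟨nat_lit 16, nat_lit 100, nat_lit 98, nat_lit 70, nat_lit 4741963735⟩]⟩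
noncomputable def p045_l12 : Lf2 := ⟨nat_lit 0, nat_lit 10, [nat_lit 0, nat_lit 5, nat_lit 5, nat_lit 20], true, nat_lit 280, nat_lit 288, nat_lit 0, nat_lit 248, ⟨nat_lit 0, nat_lit 0, nat_lit 1000, nat_lit 6, nat_lit 100, nat_lit 1000, nat_lit 200, nat_lit 1000, nat_lit 22024, nat_lit 249, nat_lit 93750, nat_lit 290, nat_lit 49352503, nat_lit 0, nat_lit 0, nat_lit 3852321, false, false⟩,
 nat_lit 0, nat_lit 0, nat_lit 0, nat_lit 100000, nat_lit 4399, nat_lit 0, nat_lit 0, nat_lit 0, nat_lit 0, nat_lit 0, nat_lit 0, nat_lit 0, nat_lit 0, nat_lit 0, nat_lit 96, nat_lit 448000, nat_lit 0, nat_lit 0, [(nat_lit 9, [(nat_lit 5, nat_lit 920), (nat_lit 6, nat_lit 80)])],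
 ⟨p045_k11, nat_lit 0, nat_lit 0, nat_lit 141, nat_lit 0, nat_lit 0, [nat_lit 3103136000, nat_lit 26768000], [], [nat_lit 19208620867, nat_lit 19897896217, nat_lit 18523098876, nat_lit 19209907836, nat_lit 19814687782, nat_lit 20486670176, nat_lit 19126321633, nat_lit 19796961208], nat_lit 0, nat_lit 0, nat_lit 0, nat_lit 0, nat_lit 0, nat_lit 0, [], [nat_lit 70, nat_lit 40, nat_lit 40, nat_lit 80, nat_lit 13, nat_lit 317, nat_lit 100, nat_lit 8]⟩, C1.Rw.none,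
 ⟨nat_lit 5477, nat_lit 5701, ⟨.ofNat (nat_lit 212791), .ofNat (nat_lit 235806), .ofNat (nat_lit 255475), .ofNat (nat_lit 278490), .ofNat (nat_lit 220501), .ofNat (nat_lit 242980), .ofNat (nat_lit 263215), .ofNat (nat_lit 285695)⟩, ⟨.ofNat (nat_lit 482701), .ofNat (nat_lit 498045), .ofNat (nat_lit 504043), .ofNat (nat_lit 519387), .ofNat (nat_lit 479008), .ofNat (nat_lit 493995), .ofNat (nat_lit 500365), .ofNat (nat_lit 515352)⟩⟩, [⟨nat_lit 0, nat_lit 100, nat_lit 97, nat_lit 67, nat_lit 6441717879⟩, ⟨nat_lit 16, nat_lit 100, nat_lit 97, nat_lit 76, nat_lit 4871770907⟩]⟩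
noncomputable def p045_l13 : Lf2 := ⟨nat_lit 0, nat_lit 10, [nat_lit 0, nat_lit 5, nat_lit 5, nat_lit 20], true, nat_lit 280, nat_lit 320, nat_lit 0, nat_lit 248, ⟨nat_lit 0, nat_lit 0, nat_lit 1000, nat_lit 6, nat_lit 97, nat_lit 1000, nat_lit 221, nat_lit 1000, nat_lit 4618, nat_lit 210, nat_lit 88817, nat_lit 288, nat_lit 47477101, nat_lit 0, nat_lit 0, nat_lit 4002028, false, false⟩,
 nat_lit 0, nat_lit 0, nat_lit 0, nat_lit 100000, nat_lit 4465, nat_lit 0, nat_lit 0, nat_lit 0, nat_lit 0, nat_lit 0, nat_lit 0, nat_lit 0, nat_lit 0, nat_lit 5250436573482, nat_lit 99, nat_lit 469600, nat_lit 0, nat_lit 0, [(nat_lit 9, [(nat_lit 5, nat_lit 884), (nat_lit 6, nat_lit 116)])],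
 ⟨p045_k10, nat_lit 0, nat_lit 0, nat_lit 154, nat_lit 0, nat_lit 0, [nat_lit 3169467200, nat_lit 5273600], [], [nat_lit 18803561650, nat_lit 20193035860, nat_lit 17956106135, nat_lit 19258996260, nat_lit 21947983770, nat_lit 23162049516, nat_lit 21004474730, nat_lit 22216488220], nat_lit 0, nat_lit 0, nat_lit 0, nat_lit 0, nat_lit 0, nat_lit 0, [], [nat_lit 70, nat_lit 40, nat_lit 40, nat_lit 80, nat_lit 13, nat_lit 317, nat_lit 100, nat_lit 9]⟩, C1.Rw.none,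
 ⟨nat_lit 5477, nat_lit 5917, ⟨.ofNat (nat_lit 197129), .ofNat (nat_lit 228543), .ofNat (nat_lit 239808), .ofNat (nat_lit 271221), .ofNat (nat_lit 213007), .ofNat (nat_lit 242980), .ofNat (nat_lit 255721), .ofNat (nat_lit 285695)⟩, ⟨.ofNat (nat_lit 507691), .ofNat (nat_lit 586223), .ofNat (nat_lit 529030), .ofNat (nat_lit 607556), .ofNat (nat_lit 500365), .ofNat (nat_lit 575297), .ofNat (nat_lit 521722), .ofNat (nat_lit 596648)⟩⟩, [⟨nat_lit 0, nat_lit 100, nat_lit 98, nat_lit 64, nat_lit 6757632423⟩, ⟨nat_lit 4, nat_lit 93, nat_lit 100, nat_lit 81, nat_lit 473449525⟩]⟩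
noncomputable def b_V_600_600_10_19 : St := ⟨true, nat_lit 0, nat_lit 1, nat_lit 1, nat_lit 80, nat_lit 260, nat_lit 280, nat_lit 240, nat_lit 280, nat_lit 24, nat_lit 40, nat_lit 40, nat_lit 80, nat_lit 280, nat_lit 320, nat_lit 0, nat_lit 248, nat_lit 20, nat_lit 40, nat_lit 0, nat_lit 0, nat_lit 0, nat_lit 0⟩
theorem d_V_600_600_10_19 (h : EB TB.env) : Dead b_V_600_600_10_19 := chkB_sound0 h (T :=
(.spl (nat_lit 3) (nat_lit 60)
(.trX (nat_lit 16) (nat_lit 100) (nat_lit 92) (nat_lit 75) (nat_lit 296) (.spl (nat_lit 0) (nat_lit 270)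
(.ord (.leaf p045_l11))
(.trZ (nat_lit 0) (nat_lit 100) (nat_lit 96) (nat_lit 54) (nat_lit 28) (.trX (nat_lit 16) (nat_lit 100) (nat_lit 97) (nat_lit 76) (nat_lit 288) (.leaf p045_l12)))))
(.leaf p045_l13))) (by decide +kernel)
noncomputable def p045_l14 : Lf2 := ⟨nat_lit 0, nat_lit 10, [nat_lit 0, nat_lit 5, nat_lit 5, nat_lit 20], true, nat_lit 240, nat_lit 260, nat_lit 0, nat_lit 336, ⟨nat_lit 0, nat_lit 1000, nat_lit 0, nat_lit 6, nat_lit 118, nat_lit 1000, nat_lit 179, nat_lit 0, nat_lit 0, nat_lit 0, nat_lit 0, nat_lit 0, nat_lit 50085259, nat_lit 5833538, nat_lit 11081203, nat_lit 3881783, false, false⟩,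
 nat_lit 0, nat_lit 0, nat_lit 0, nat_lit 2409, nat_lit 5621, nat_lit 0, nat_lit 0, nat_lit 0, nat_lit 0, nat_lit 0, nat_lit 0, nat_lit 0, nat_lit 0, nat_lit 7540686596502, nat_lit 0, nat_lit 250000, nat_lit 0, nat_lit 0, [(nat_lit 9, [(nat_lit 0, nat_lit 1000)])],
 ⟨p045_k10, nat_lit 0, nat_lit 0, nat_lit 41, nat_lit 0, nat_lit 0, [nat_lit 3116800000, nat_lit 3614800000], [], [nat_lit 15452099052, nat_lit 16951624516, nat_lit 14681003716, nat_lit 16124657980, nat_lit 16960037016, nat_lit 18445403432, nat_lit 16132777490, nat_lit 17497055527], nat_lit 0, nat_lit 0, nat_lit 0, nat_lit 0, nat_lit 0, nat_lit 0, [], [nat_lit 70, nat_lit 40, nat_lit 40, nat_lit 80, nat_lit 13, nat_lit 401, nat_lit 175, nat_lit 11]⟩, C1.Rw.none,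
 ⟨nat_lit 5477, nat_lit 5917, ⟨.ofNat (nat_lit 228543), .ofNat (nat_lit 307076), .ofNat (nat_lit 271221), .ofNat (nat_lit 349755), .ofNat (nat_lit 242980), .ofNat (nat_lit 317913), .ofNat (nat_lit 285695), .ofNat (nat_lit 360628)⟩, ⟨.ofNat (nat_lit 407818), .ofNat (nat_lit 447085), .ofNat (nat_lit 450496), .ofNat (nat_lit 489763), .ofNat (nat_lit 404075), .ofNat (nat_lit 441542), .ofNat (nat_lit 446789), .ofNat (nat_lit 484256)⟩⟩, [⟨nat_lit 0, nat_lit 100, nat_lit 100, nat_lit 80, nat_lit 213742279⟩, ⟨nat_lit 4, nat_lit 97, nat_lit 100, nat_lit 76, nat_lit 20099086⟩]⟩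
noncomputable def p045_l15 : Lf2 := ⟨nat_lit 0, nat_lit 10, [nat_lit 0, nat_lit 5, nat_lit 5, nat_lit 20], true, nat_lit 260, nat_lit 280, nat_lit 0, nat_lit 320, ⟨nat_lit 0, nat_lit 1000, nat_lit 0, nat_lit 6, nat_lit 114, nat_lit 1000, nat_lit 194, nat_lit 0, nat_lit 0, nat_lit 0, nat_lit 0, nat_lit 0, nat_lit 48981798, nat_lit 5476685, nat_lit 12541517, nat_lit 3982475, false, false⟩,
 nat_lit 0, nat_lit 0, nat_lit 0, nat_lit 2717, nat_lit 5541, nat_lit 0, nat_lit 0, nat_lit 0, nat_lit 0, nat_lit 0, nat_lit 0, nat_lit 0, nat_lit 0, nat_lit 0, nat_lit 0, nat_lit 250000, nat_lit 0, nat_lit 0, [(nat_lit 9, [(nat_lit 0, nat_lit 1000)])],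
 ⟨p045_k10, nat_lit 0, nat_lit 0, nat_lit 51, nat_lit 0, nat_lit 0, [nat_lit 3116800000, nat_lit 3614800000], [], [nat_lit 17015917336, nat_lit 18421221211, nat_lit 16211433530, nat_lit 17565568567, nat_lit 18512024580, nat_lit 20059286324, nat_lit 17651959023, nat_lit 18927629554], nat_lit 0, nat_lit 0, nat_lit 0, nat_lit 0, nat_lit 0, nat_lit 0, [], [nat_lit 70, nat_lit 40, nat_lit 40, nat_lit 80, nat_lit 13, nat_lit 401, nat_lit 175, nat_lit 11]⟩, C1.Rw.none,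
 ⟨nat_lit 5477, nat_lit 5917, ⟨.ofNat (nat_lit 228543), .ofNat (nat_lit 307076), .ofNat (nat_lit 249882), .ofNat (nat_lit 328416), .ofNat (nat_lit 242980), .ofNat (nat_lit 317913), .ofNat (nat_lit 264337), .ofNat (nat_lit 339271)⟩, ⟨.ofNat (nat_lit 447085), .ofNat (nat_lit 486351), .ofNat (nat_lit 489763), .ofNat (nat_lit 529030), .ofNat (nat_lit 441542), .ofNat (nat_lit 479008), .ofNat (nat_lit 484256), .ofNat (nat_lit 521722)⟩⟩, [⟨nat_lit 0, nat_lit 100, nat_lit 97, nat_lit 59, nat_lit 54529137⟩, ⟨nat_lit 4, nat_lit 97, nat_lit 100, nat_lit 76, nat_lit 37398014⟩]⟩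
noncomputable def p045_l16 : Lf2 := ⟨nat_lit 0, nat_lit 5, [nat_lit 4, nat_lit 5, nat_lit 5, nat_lit 20], true, nat_lit 260, nat_lit 280, nat_lit 0, nat_lit 296, ⟨nat_lit 0, nat_lit 1000, nat_lit 0, nat_lit 6, nat_lit 119, nat_lit 1000, nat_lit 190, nat_lit 0, nat_lit 0, nat_lit 0, nat_lit 0, nat_lit 0, nat_lit 48969354, nat_lit 5860502, nat_lit 12170144, nat_lit 4012498, false, false⟩,
 nat_lit 0, nat_lit 0, nat_lit 0, nat_lit 1646, nat_lit 5478, nat_lit 0, nat_lit 0, nat_lit 0, nat_lit 0, nat_lit 0, nat_lit 0, nat_lit 0, nat_lit 0, nat_lit 8014836694443, nat_lit 0, nat_lit 250000, nat_lit 0, nat_lit 0, [(nat_lit 9, [(nat_lit 0, nat_lit 1000)])],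
 ⟨p045_k12, nat_lit 0, nat_lit 0, nat_lit 47, nat_lit 0, nat_lit 0, [nat_lit 3116800000, nat_lit 3354400000], [], [nat_lit 17059923088, nat_lit 17758373713, nat_lit 16273375161, nat_lit 16946448874, nat_lit 18546713640, nat_lit 19243461818, nat_lit 17705042634, nat_lit 18339243083], nat_lit 0, nat_lit 0, nat_lit 0, nat_lit 0, nat_lit 0, nat_lit 0, [], [nat_lit 39, nat_lit 40, nat_lit 40, nat_lit 80, nat_lit 7, nat_lit 226, nat_lit 20, nat_lit 7]⟩, C1.Rw.none,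
 ⟨nat_lit 5700, nat_lit 5917, ⟨.ofNat (nat_lit 249882), .ofNat (nat_lit 328416), .ofNat (nat_lit 260552), .ofNat (nat_lit 339085), .ofNat (nat_lit 257148), .ofNat (nat_lit 333867), .ofNat (nat_lit 267819), .ofNat (nat_lit 344538)⟩, ⟨.ofNat (nat_lit 447085), .ofNat (nat_lit 486351), .ofNat (nat_lit 468424), .ofNat (nat_lit 507691), .ofNat (nat_lit 444341), .ofNat (nat_lit 482701), .ofNat (nat_lit 465683), .ofNat (nat_lit 504043)⟩⟩, [⟨nat_lit 0, nat_lit 100, nat_lit 100, nat_lit 65, nat_lit 220443171⟩, ⟨nat_lit 4, nat_lit 98, nat_lit 100, nat_lit 70, nat_lit 18085773⟩]⟩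
noncomputable def p045_l17 : Lf2 := ⟨nat_lit 0, nat_lit 5, [nat_lit 4, nat_lit 5, nat_lit 5, nat_lit 20], true, nat_lit 260, nat_lit 280, nat_lit 0, nat_lit 296, ⟨nat_lit 0, nat_lit 1000, nat_lit 0, nat_lit 6, nat_lit 124, nat_lit 1000, nat_lit 189, nat_lit 0, nat_lit 0, nat_lit 0, nat_lit 0, nat_lit 0, nat_lit 48768347, nat_lit 6208962, nat_lit 12022691, nat_lit 4058092, false, false⟩,
 nat_lit 0, nat_lit 0, nat_lit 0, nat_lit 0, nat_lit 5444, nat_lit 0, nat_lit 0, nat_lit 0, nat_lit 0, nat_lit 0, nat_lit 0, nat_lit 0, nat_lit 0, nat_lit 4645679884211, nat_lit 0, nat_lit 250000, nat_lit 0, nat_lit 0, [(nat_lit 9, [(nat_lit 0, nat_lit 1000)])],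
 ⟨p045_k13, nat_lit 0, nat_lit 0, nat_lit 51, nat_lit 0, nat_lit 0, [nat_lit 3116800000, nat_lit 3354400000], [], [nat_lit 17779855474, nat_lit 18476038724, nat_lit 16977722303, nat_lit 17648640628, nat_lit 19220904972, nat_lit 19987141216, nat_lit 18365929734, nat_lit 18998168536], nat_lit 0, nat_lit 0, nat_lit 0, nat_lit 0, nat_lit 0, nat_lit 0, [], [nat_lit 39, nat_lit 40, nat_lit 40, nat_lit 80, nat_lit 7, nat_lit 226, nat_lit 20, nat_lit 7]⟩, C1.Rw.none,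
 ⟨nat_lit 5477, nat_lit 5701, ⟨.ofNat (nat_lit 257148), .ofNat (nat_lit 333867), .ofNat (nat_lit 278490), .ofNat (nat_lit 355209), .ofNat (nat_lit 264337), .ofNat (nat_lit 339271), .ofNat (nat_lit 285695), .ofNat (nat_lit 360628)⟩, ⟨.ofNat (nat_lit 444341), .ofNat (nat_lit 482701), .ofNat (nat_lit 465683), .ofNat (nat_lit 504043), .ofNat (nat_lit 441542), .ofNat (nat_lit 479008), .ofNat (nat_lit 462899), .ofNat (nat_lit 500365)⟩⟩, [⟨nat_lit 0, nat_lit 100, nat_lit 99, nat_lit 72, nat_lit 220679338⟩]⟩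
noncomputable def p045_l18 : Lf2 := ⟨nat_lit 0, nat_lit 5, [nat_lit 4, nat_lit 5, nat_lit 5, nat_lit 20], true, nat_lit 260, nat_lit 280, nat_lit 0, nat_lit 320, ⟨nat_lit 0, nat_lit 1000, nat_lit 0, nat_lit 6, nat_lit 119, nat_lit 1000, nat_lit 199, nat_lit 0, nat_lit 0, nat_lit 0, nat_lit 0, nat_lit 0, nat_lit 48196185, nat_lit 5828062, nat_lit 12975753, nat_lit 4093282, false, false⟩,
 nat_lit 0, nat_lit 0, nat_lit 0, nat_lit 2076, nat_lit 5444, nat_lit 0, nat_lit 0, nat_lit 0, nat_lit 0, nat_lit 0, nat_lit 0, nat_lit 0, nat_lit 0, nat_lit 8177370860042, nat_lit 0, nat_lit 250000, nat_lit 0, nat_lit 0, [(nat_lit 9, [(nat_lit 0, nat_lit 1000)])],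
 ⟨p045_k8, nat_lit 0, nat_lit 0, nat_lit 59, nat_lit 0, nat_lit 0, [nat_lit 3116800000, nat_lit 2996800000, nat_lit 3375200000], [], [nat_lit 17083672224, nat_lit 17779855474, nat_lit 16306803978, nat_lit 16977722303, nat_lit 18565434720, nat_lit 19220904972, nat_lit 17733690932, nat_lit 18365929734], nat_lit 0, nat_lit 0, nat_lit 0, nat_lit 0, nat_lit 0, nat_lit 0, [], [nat_lit 9, nat_lit 40, nat_lit 40, nat_lit 80, nat_lit 2, nat_lit 226, nat_lit 20, nat_lit 7]⟩, C1.Rw.none,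
 ⟨nat_lit 5700, nat_lit 5917, ⟨.ofNat (nat_lit 249882), .ofNat (nat_lit 328416), .ofNat (nat_lit 260552), .ofNat (nat_lit 339085), .ofNat (nat_lit 257148), .ofNat (nat_lit 333867), .ofNat (nat_lit 267819), .ofNat (nat_lit 344538)⟩, ⟨.ofNat (nat_lit 468424), .ofNat (nat_lit 507691), .ofNat (nat_lit 489763), .ofNat (nat_lit 529030), .ofNat (nat_lit 465683), .ofNat (nat_lit 504043), .ofNat (nat_lit 487025), .ofNat (nat_lit 525385)⟩⟩, [⟨nat_lit 0, nat_lit 100, nat_lit 100, nat_lit 70, nat_lit 213412774⟩]⟩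
noncomputable def p045_l19 : Lf2 := ⟨nat_lit 0, nat_lit 5, [nat_lit 4, nat_lit 5, nat_lit 5, nat_lit 20], true, nat_lit 260, nat_lit 280, nat_lit 0, nat_lit 320, ⟨nat_lit 0, nat_lit 1000, nat_lit 0, nat_lit 6, nat_lit 124, nat_lit 1000, nat_lit 198, nat_lit 0, nat_lit 0, nat_lit 0, nat_lit 0, nat_lit 0, nat_lit 48003621, nat_lit 6173812, nat_lit 12822567, nat_lit 4138761, false, false⟩,
 nat_lit 0, nat_lit 0, nat_lit 0, nat_lit 1979, nat_lit 5383, nat_lit 0, nat_lit 0, nat_lit 0, nat_lit 0, nat_lit 0, nat_lit 0, nat_lit 0, nat_lit 0, nat_lit 7603042006594, nat_lit 0, nat_lit 250000, nat_lit 0, nat_lit 0, [(nat_lit 9, [(nat_lit 0, nat_lit 1000)])],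
 ⟨p045_k14, nat_lit 0, nat_lit 0, nat_lit 65, nat_lit 0, nat_lit 0, [nat_lit 3116800000, nat_lit 2996800000, nat_lit 3375200000], [], [nat_lit 17818396281, nat_lit 18510511593, nat_lit 17033830515, nat_lit 17700881821, nat_lit 19250791129, nat_lit 19941771612, nat_lit 18413808726, nat_lit 19042528102], nat_lit 0, nat_lit 0, nat_lit 0, nat_lit 0, nat_lit 0, nat_lit 0, [], [nat_lit 9, nat_lit 40, nat_lit 40, nat_lit 80, nat_lit 2, nat_lit 226, nat_lit 20, nat_lit 7]⟩, C1.Rw.none,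
 ⟨nat_lit 5477, nat_lit 5701, ⟨.ofNat (nat_lit 257148), .ofNat (nat_lit 333867), .ofNat (nat_lit 278490), .ofNat (nat_lit 355209), .ofNat (nat_lit 264337), .ofNat (nat_lit 339271), .ofNat (nat_lit 285695), .ofNat (nat_lit 360628)⟩, ⟨.ofNat (nat_lit 465683), .ofNat (nat_lit 504043), .ofNat (nat_lit 487025), .ofNat (nat_lit 525385), .ofNat (nat_lit 462899), .ofNat (nat_lit 500365), .ofNat (nat_lit 484256), .ofNat (nat_lit 521722)⟩⟩, [⟨nat_lit 0, nat_lit 100, nat_lit 99, nat_lit 72, nat_lit 188227958⟩, ⟨nat_lit 0, nat_lit 100, nat_lit 100, nat_lit 80, nat_lit 29236363⟩]⟩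
noncomputable def p045_l20 : Lf2 := ⟨nat_lit 0, nat_lit 10, [nat_lit 0, nat_lit 5, nat_lit 5, nat_lit 20], true, nat_lit 260, nat_lit 280, nat_lit 0, nat_lit 296, ⟨nat_lit 0, nat_lit 1000, nat_lit 0, nat_lit 6, nat_lit 111, nat_lit 1000, nat_lit 190, nat_lit 0, nat_lit 0, nat_lit 0, nat_lit 0, nat_lit 0, nat_lit 49486291, nat_lit 5301885, nat_lit 12211824, nat_lit 3913319, false, false⟩,
 nat_lit 0, nat_lit 0, nat_lit 0, nat_lit 3556, nat_lit 5444, nat_lit 0, nat_lit 0, nat_lit 0, nat_lit 0, nat_lit 0, nat_lit 0, nat_lit 0, nat_lit 0, nat_lit 8587052164363, nat_lit 0, nat_lit 250000, nat_lit 0, nat_lit 0, [(nat_lit 9, [(nat_lit 0, nat_lit 1000)])],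
 ⟨p045_k15, nat_lit 0, nat_lit 0, nat_lit 77, nat_lit 0, nat_lit 0, [nat_lit 3116800000, nat_lit 3378800001, nat_lit 3614800000], [], [nat_lit 17083672224, nat_lit 17779855474, nat_lit 16695238101, nat_lit 17378788889, nat_lit 18565434720, nat_lit 19220904972, nat_lit 18149562826, nat_lit 18793417353], nat_lit 0, nat_lit 0, nat_lit 0, nat_lit 0, nat_lit 0, nat_lit 0, [], [nat_lit 29, nat_lit 40, nat_lit 40, nat_lit 80, nat_lit 17, nat_lit 401, nat_lit 175, nat_lit 11]⟩, C1.Rw.none,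
 ⟨nat_lit 5700, nat_lit 5917, ⟨.ofNat (nat_lit 249882), .ofNat (nat_lit 289149), .ofNat (nat_lit 260552), .ofNat (nat_lit 299818), .ofNat (nat_lit 257148), .ofNat (nat_lit 295508), .ofNat (nat_lit 267819), .ofNat (nat_lit 306179)⟩, ⟨.ofNat (nat_lit 447085), .ofNat (nat_lit 486351), .ofNat (nat_lit 468424), .ofNat (nat_lit 507691), .ofNat (nat_lit 444341), .ofNat (nat_lit 482701), .ofNat (nat_lit 465683), .ofNat (nat_lit 504043)⟩⟩, [⟨nat_lit 0, nat_lit 100, nat_lit 100, nat_lit 70, nat_lit 210542290⟩, ⟨nat_lit 4, nat_lit 98, nat_lit 100, nat_lit 70, nat_lit 112711728⟩]⟩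
noncomputable def p045_l21 : Lf2 := ⟨nat_lit 0, nat_lit 10, [nat_lit 0, nat_lit 5, nat_lit 5, nat_lit 20], true, nat_lit 260, nat_lit 280, nat_lit 0, nat_lit 296, ⟨nat_lit 0, nat_lit 1000, nat_lit 0, nat_lit 6, nat_lit 114, nat_lit 1000, nat_lit 189, nat_lit 0, nat_lit 0, nat_lit 0, nat_lit 0, nat_lit 0, nat_lit 49424534, nat_lit 5499211, nat_lit 12076255, nat_lit 3935540, false, false⟩,
 nat_lit 0, nat_lit 0, nat_lit 0, nat_lit 3556, nat_lit 5444, nat_lit 0, nat_lit 0, nat_lit 0, nat_lit 0, nat_lit 0, nat_lit 0, nat_lit 0, nat_lit 0, nat_lit 0, nat_lit 0, nat_lit 250000, nat_lit 0, nat_lit 0, [(nat_lit 9, [(nat_lit 0, nat_lit 1000)])],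
 ⟨p045_k16, nat_lit 0, nat_lit 0, nat_lit 65, nat_lit 0, nat_lit 0, [nat_lit 3116800000, nat_lit 3043066667, nat_lit 3665733333], [], [nat_lit 17779855474, nat_lit 18476038724, nat_lit 17378788889, nat_lit 18062339676, nat_lit 19220904972, nat_lit 19987141216, nat_lit 18793417353, nat_lit 19437271880], nat_lit 0, nat_lit 0, nat_lit 0, nat_lit 0, nat_lit 0, nat_lit 0, [], [nat_lit 11, nat_lit 40, nat_lit 40, nat_lit 80, nat_lit 1, nat_lit 401, nat_lit 175, nat_lit 11]⟩, C1.Rw.none,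
 ⟨nat_lit 5477, nat_lit 5701, ⟨.ofNat (nat_lit 257148), .ofNat (nat_lit 295508), .ofNat (nat_lit 267819), .ofNat (nat_lit 306179), .ofNat (nat_lit 264337), .ofNat (nat_lit 301804), .ofNat (nat_lit 275016), .ofNat (nat_lit 312483)⟩, ⟨.ofNat (nat_lit 444341), .ofNat (nat_lit 482701), .ofNat (nat_lit 465683), .ofNat (nat_lit 504043), .ofNat (nat_lit 441542), .ofNat (nat_lit 479008), .ofNat (nat_lit 462899), .ofNat (nat_lit 500365)⟩⟩, [⟨nat_lit 0, nat_lit 100, nat_lit 98, nat_lit 69, nat_lit 220006810⟩, ⟨nat_lit 16, nat_lit 100, nat_lit 97, nat_lit 76, nat_lit 112756695⟩]⟩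
noncomputable def p045_l22 : Lf2 := ⟨nat_lit 0, nat_lit 10, [nat_lit 0, nat_lit 5, nat_lit 5, nat_lit 20], false, nat_lit 260, nat_lit 280, nat_lit 0, nat_lit 288, ⟨nat_lit 120, nat_lit 880, nat_lit 0, nat_lit 6, nat_lit 121, nat_lit 880, nat_lit 189, nat_lit 0, nat_lit 0, nat_lit 0, nat_lit 0, nat_lit 0, nat_lit 48932954, nat_lit 6030329, nat_lit 12036717, nat_lit 4028116, false, false⟩,
 nat_lit 0, nat_lit 0, nat_lit 3550, nat_lit 0, nat_lit 5667, nat_lit 2161, nat_lit 0, nat_lit 0, nat_lit 0, nat_lit 0, nat_lit 0, nat_lit 0, nat_lit 0, nat_lit 9626842102184, nat_lit 0, nat_lit 220000, nat_lit 0, nat_lit 0, [(nat_lit 9, [(nat_lit 0, nat_lit 880)])],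
 ⟨p045_k16, nat_lit 0, nat_lit 0, nat_lit 59, nat_lit 0, nat_lit 0, [nat_lit 3305344000, nat_lit 3427898667, nat_lit 4388165333], [], [nat_lit 17654233396, nat_lit 18360088072, nat_lit 17394326897, nat_lit 18092381743, nat_lit 19116094396, nat_lit 19894527381, nat_lit 18839816861, nat_lit 19506817570], nat_lit 0, nat_lit 0, nat_lit 0, nat_lit 0, nat_lit 0, nat_lit 0, [], [nat_lit 11, nat_lit 40, nat_lit 40, nat_lit 80, nat_lit 1, nat_lit 401, nat_lit 175, nat_lit 11]⟩, ⟨p045_k16, nat_lit 0, nat_lit 0, nat_lit 336, nat_lit 0, nat_lit 221878, [nat_lit 562560000, nat_lit 750000000, nat_lit 1181040000], [], [nat_lit 4281526908, nat_lit 4486147250, nat_lit 4078463843, nat_lit 4280918266, nat_lit 3364207294, nat_lit 3561275117, nat_lit 3254984822, nat_lit 3352767970], nat_lit 1271250, nat_lit 1271250, nat_lit 279600, nat_lit 356250, nat_lit 0, nat_lit 2034000, [nat_lit 1100000, nat_lit 1442500, nat_lit 1271250],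 [nat_lit 11, nat_lit 40, nat_lit 40, nat_lit 80, nat_lit 1, nat_lit 401, nat_lit 175, nat_lit 12]⟩,
 ⟨nat_lit 5477, nat_lit 5701, ⟨.ofNat (nat_lit 283163), .ofNat (nat_lit 306179), .ofNat (nat_lit 293834), .ofNat (nat_lit 316850), .ofNat (nat_lit 290003), .ofNat (nat_lit 312483), .ofNat (nat_lit 300681), .ofNat (nat_lit 323161)⟩, ⟨.ofNat (nat_lit 444341), .ofNat (nat_lit 482701), .ofNat (nat_lit 465683), .ofNat (nat_lit 504043), .ofNat (nat_lit 441542), .ofNat (nat_lit 479008), .ofNat (nat_lit 462899), .ofNat (nat_lit 500365)⟩⟩, [⟨nat_lit 0, nat_lit 100, nat_lit 100, nat_lit 75, nat_lit 335922180⟩, ⟨nat_lit 16, nat_lit 100, nat_lit 97, nat_lit 76, nat_lit 176549341⟩, ⟨nat_lit 11, nat_lit 100, nat_lit 100, nat_lit 73, nat_lit 7220008⟩]⟩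
noncomputable def p045_l23 : Lf2 := ⟨nat_lit 0, nat_lit 10, [nat_lit 0, nat_lit 5, nat_lit 5, nat_lit 20], true, nat_lit 260, nat_lit 280, nat_lit 0, nat_lit 296, ⟨nat_lit 0, nat_lit 1000, nat_lit 0, nat_lit 6, nat_lit 130, nat_lit 1000, nat_lit 190, nat_lit 0, nat_lit 0, nat_lit 0, nat_lit 0, nat_lit 0, nat_lit 48271074, nat_lit 6686609, nat_lit 12042317, nat_lit 4142113, false, false⟩,
 nat_lit 0, nat_lit 0, nat_lit 0, nat_lit 3499, nat_lit 5493, nat_lit 0, nat_lit 0, nat_lit 0, nat_lit 0, nat_lit 0, nat_lit 0, nat_lit 0, nat_lit 0, nat_lit 13880184047208, nat_lit 0, nat_lit 250000, nat_lit 0, nat_lit 0, [(nat_lit 9, [(nat_lit 0, nat_lit 1000)])],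
 ⟨p045_k17, nat_lit 0, nat_lit 0, nat_lit 50, nat_lit 0, nat_lit 0, [nat_lit 3116800000, nat_lit 3043066667, nat_lit 3665733333], [], [nat_lit 16654036341, nat_lit 18027511897, nat_lit 16258627154, nat_lit 17606676391, nat_lit 18115429010, nat_lit 19408938610, nat_lit 17692403679, nat_lit 18962535442], nat_lit 0, nat_lit 0, nat_lit 0, nat_lit 0, nat_lit 0, nat_lit 0, [], [nat_lit 11, nat_lit 40, nat_lit 40, nat_lit 80, nat_lit 1, nat_lit 401, nat_lit 175, nat_lit 11]⟩, C1.Rw.none,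
 ⟨nat_lit 5477, nat_lit 5917, ⟨.ofNat (nat_lit 289149), .ofNat (nat_lit 328416), .ofNat (nat_lit 310488), .ofNat (nat_lit 349755), .ofNat (nat_lit 301804), .ofNat (nat_lit 339271), .ofNat (nat_lit 323161), .ofNat (nat_lit 360628)⟩, ⟨.ofNat (nat_lit 447085), .ofNat (nat_lit 486351), .ofNat (nat_lit 468424), .ofNat (nat_lit 507691), .ofNat (nat_lit 441542), .ofNat (nat_lit 479008), .ofNat (nat_lit 462899), .ofNat (nat_lit 500365)⟩⟩, [⟨nat_lit 0, nat_lit 100, nat_lit 100, nat_lit 80, nat_lit 79463253⟩, ⟨nat_lit 4, nat_lit 100, nat_lit 100, nat_lit 71, nat_lit 414990515⟩]⟩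
noncomputable def p045_l24 : Lf2 := ⟨nat_lit 0, nat_lit 10, [nat_lit 0, nat_lit 5, nat_lit 5, nat_lit 20], true, nat_lit 260, nat_lit 280, nat_lit 0, nat_lit 320, ⟨nat_lit 0, nat_lit 1000, nat_lit 0, nat_lit 6, nat_lit 120, nat_lit 1000, nat_lit 198, nat_lit 0, nat_lit 0, nat_lit 0, nat_lit 0, nat_lit 0, nat_lit 48171783, nat_lit 5922020, nat_lit 12906197, nat_lit 4102929, false, false⟩,
 nat_lit 0, nat_lit 0, nat_lit 0, nat_lit 3586, nat_lit 5418, nat_lit 0, nat_lit 0, nat_lit 0, nat_lit 0, nat_lit 0, nat_lit 0, nat_lit 0, nat_lit 0, nat_lit 4331049287942, nat_lit 0, nat_lit 250000, nat_lit 0, nat_lit 0, [(nat_lit 9, [(nat_lit 0, nat_lit 1000)])],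
 ⟨p045_k15, nat_lit 0, nat_lit 0, nat_lit 84, nat_lit 0, nat_lit 0, [nat_lit 3116800000, nat_lit 3378800001, nat_lit 3614800000], [], [nat_lit 17101833328, nat_lit 18490732078, nat_lit 16332367191, nat_lit 17670907366, nat_lit 18579750840, nat_lit 19967803352, nat_lit 17755598454, nat_lit 19017075892], nat_lit 0, nat_lit 0, nat_lit 0, nat_lit 0, nat_lit 0, nat_lit 0, [], [nat_lit 29, nat_lit 40, nat_lit 40, nat_lit 80, nat_lit 17, nat_lit 401, nat_lit 175, nat_lit 11]⟩, C1.Rw.none,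
 ⟨nat_lit 5477, nat_lit 5917, ⟨.ofNat (nat_lit 249882), .ofNat (nat_lit 328416), .ofNat (nat_lit 260552), .ofNat (nat_lit 339085), .ofNat (nat_lit 264337), .ofNat (nat_lit 339271), .ofNat (nat_lit 275016), .ofNat (nat_lit 349949)⟩, ⟨.ofNat (nat_lit 468424), .ofNat (nat_lit 507691), .ofNat (nat_lit 489763), .ofNat (nat_lit 529030), .ofNat (nat_lit 462899), .ofNat (nat_lit 500365), .ofNat (nat_lit 484256), .ofNat (nat_lit 521722)⟩⟩, [⟨nat_lit 0, nat_lit 100, nat_lit 99, nat_lit 67, nat_lit 222056378⟩]⟩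
noncomputable def p045_l25 : Lf2 := ⟨nat_lit 0, nat_lit 10, [nat_lit 0, nat_lit 5, nat_lit 5, nat_lit 20], false, nat_lit 260, nat_lit 280, nat_lit 0, nat_lit 308, ⟨nat_lit 1000, nat_lit 0, nat_lit 0, nat_lit 0, nat_lit 0, nat_lit 0, nat_lit 0, nat_lit 0, nat_lit 0, nat_lit 0, nat_lit 0, nat_lit 0, nat_lit 0, nat_lit 0, nat_lit 0, nat_lit 0, false, false⟩,
 nat_lit 0, nat_lit 0, nat_lit 11521, nat_lit 7523, nat_lit 6870, nat_lit 7016, nat_lit 0, nat_lit 0, nat_lit 0, nat_lit 2043, nat_lit 0, nat_lit 0, nat_lit 0, nat_lit 1321663448121, nat_lit 0, nat_lit 0, nat_lit 0, nat_lit 0, [],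
 ⟨p045_k16, nat_lit 0, nat_lit 0, nat_lit 59, nat_lit 0, nat_lit 0, [nat_lit 4688000000, nat_lit 6250000000, nat_lit 9842000000], [], [nat_lit 18207523692, nat_lit 18992810954, nat_lit 17237277878, nat_lit 17998595690, nat_lit 19838335888, nat_lit 20702633489, nat_lit 18817860195, nat_lit 19532372780], nat_lit 0, nat_lit 0, nat_lit 0, nat_lit 0, nat_lit 0, nat_lit 0, [], [nat_lit 11, nat_lit 40, nat_lit 40, nat_lit 80, nat_lit 1, nat_lit 401, nat_lit 175, nat_lit 11]⟩, ⟨p045_k16, nat_lit 0, nat_lit 0, nat_lit 297, nat_lit 0, nat_lit 113428, [nat_lit 4688000000, nat_lit 6250000000, nat_lit 9842000000], [], [nat_lit 20589479234, nat_lit 21470859109, nat_lit 19429443523, nat_lit 20153686379, nat_lit 22959179798, nat_lit 23454523481, nat_lit 21721329942, nat_lit 22232267469], nat_lit 1271250, nat_lit 1271250, nat_lit 279600, nat_lit 490000, nat_lit 0, nat_lit 2175250, [nat_lit 1100000, nat_lit 1442500, nat_lit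 1271250], [nat_lit 11, nat_lit 40, nat_lit 40, nat_lit 80, nat_lit 1, nat_lit 401, nat_lit 175, nat_lit 12]⟩,
 zbF0, [⟨nat_lit 0, nat_lit 100, nat_lit 100, nat_lit 75, nat_lit 746983565⟩, ⟨nat_lit 4, nat_lit 96, nat_lit 100, nat_lit 82, nat_lit 438498538⟩, ⟨nat_lit 11, nat_lit 100, nat_lit 100, nat_lit 80, nat_lit 268457487⟩]⟩
noncomputable def b_V_600_600_10_20 : St := ⟨true, nat_lit 0, nat_lit 1, nat_lit 1, nat_lit 80, nat_lit 260, nat_lit 280, nat_lit 240, nat_lit 280, nat_lit 40, nat_lit 80, nat_lit 40, nat_lit 80, nat_lit 240, nat_lit 280, nat_lit 0, nat_lit 336, nat_lit 0, nat_lit 40, nat_lit 0, nat_lit 0, nat_lit 0, nat_lit 0⟩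
theorem d_V_600_600_10_20 (h : EB TB.env) : Dead b_V_600_600_10_20 := chkB_sound0 h (T :=
(.spl (nat_lit 4) (nat_lit 260)
(.leaf p045_l14)
(.trX (nat_lit 23) (nat_lit 100) (nat_lit 85) (nat_lit 84) (nat_lit 320) (.spl (nat_lit 1) (nat_lit 260)
(.leaf p045_l15)
(.spl (nat_lit 6) (nat_lit 20)
(.spl (nat_lit 3) (nat_lit 60)
(.trX (nat_lit 19) (nat_lit 100) (nat_lit 92) (nat_lit 75) (nat_lit 296) (.spl (nat_lit 0) (nat_lit 270)
(.ord (.leaf p045_l16))
(.leaf p045_l17)))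
(.spl (nat_lit 0) (nat_lit 270)
(.ord (.leaf p045_l18))
(.leaf p045_l19)))
(.spl (nat_lit 3) (nat_lit 60)
(.trX (nat_lit 19) (nat_lit 100) (nat_lit 92) (nat_lit 75) (nat_lit 296) (.spl (nat_lit 2) (nat_lit 60)
(.spl (nat_lit 0) (nat_lit 270)
(.ord (.leaf p045_l20))
(.spl (nat_lit 1) (nat_lit 270)
(.leaf p045_l21)
(.trZ (nat_lit 0) (nat_lit 100) (nat_lit 100) (nat_lit 70) (nat_lit 48) (.trX (nat_lit 19) (nat_lit 100) (nat_lit 97) (nat_lit 76) (nat_lit 288) (.leaf p045_l22)))))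
(.leaf p045_l23)))
(.spl (nat_lit 1) (nat_lit 270)
(.leaf p045_l24)
(.ord (.trZ (nat_lit 0) (nat_lit 100) (nat_lit 100) (nat_lit 70) (nat_lit 48) (.trX (nat_lit 19) (nat_lit 100) (nat_lit 90) (nat_lit 85) (nat_lit 308) (.leaf p045_l25))))))))))) (by decide +kernel)
noncomputable def p045_l26 : Lf2 := ⟨nat_lit 0, nat_lit 5, [nat_lit 4, nat_lit 5, nat_lit 5, nat_lit 20], true, nat_lit 280, nat_lit 296, nat_lit 0, nat_lit 276, ⟨nat_lit 0, nat_lit 1000, nat_lit 0, nat_lit 6, nat_lit 107, nat_lit 1000, nat_lit 204, nat_lit 0, nat_lit 0, nat_lit 0, nat_lit 0, nat_lit 0, nat_lit 48464489, nat_lit 4959671, nat_lit 13575840, nat_lit 3990883, false, false⟩,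
 nat_lit 0, nat_lit 0, nat_lit 0, nat_lit 2240, nat_lit 3124, nat_lit 0, nat_lit 0, nat_lit 0, nat_lit 0, nat_lit 0, nat_lit 0, nat_lit 0, nat_lit 0, nat_lit 13613439835871, nat_lit 0, nat_lit 250000, nat_lit 0, nat_lit 0, [(nat_lit 9, [(nat_lit 0, nat_lit 1000)])],
 ⟨p045_k0, nat_lit 0, nat_lit 0, nat_lit 0, nat_lit 0, nat_lit 0, [nat_lit 1558400000, nat_lit 2319600001, nat_lit 2818000000, nat_lit 3370000000], [], [nat_lit 17012409928, nat_lit 17581163764, nat_lit 16844457368, nat_lit 17405308604, nat_lit 18068857736, nat_lit 18617743162, nat_lit 17884492543, nat_lit 18420973884], nat_lit 0, nat_lit 0, nat_lit 0, nat_lit 0, nat_lit 0, nat_lit 0, [], [nat_lit 138, nat_lit 40, nat_lit 20, nat_lit 40]⟩, C1.Rw.none,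
 ⟨nat_lit 5700, nat_lit 5917, ⟨.ofNat (nat_lit 228543), .ofNat (nat_lit 267810), .ofNat (nat_lit 260552), .ofNat (nat_lit 299818), .ofNat (nat_lit 235806), .ofNat (nat_lit 274166), .ofNat (nat_lit 267819), .ofNat (nat_lit 306179)⟩, ⟨.ofNat (nat_lit 486351), .ofNat (nat_lit 517765), .ofNat (nat_lit 507691), .ofNat (nat_lit 539104), .ofNat (nat_lit 482701), .ofNat (nat_lit 513388), .ofNat (nat_lit 504043), .ofNat (nat_lit 534730)⟩⟩, [⟨nat_lit 0, nat_lit 100, nat_lit 98, nat_lit 60, nat_lit 39021372⟩, ⟨nat_lit 16, nat_lit 100, nat_lit 92, nat_lit 75, nat_lit 351296937⟩]⟩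
noncomputable def p045_l27 : Lf2 := ⟨nat_lit 0, nat_lit 5, [nat_lit 4, nat_lit 5, nat_lit 5, nat_lit 20], true, nat_lit 280, nat_lit 288, nat_lit 0, nat_lit 276, ⟨nat_lit 0, nat_lit 1000, nat_lit 0, nat_lit 6, nat_lit 108, nat_lit 1000, nat_lit 200, nat_lit 0, nat_lit 0, nat_lit 0, nat_lit 0, nat_lit 0, nat_lit 48861476, nat_lit 5014555, nat_lit 13123969, nat_lit 3955571, false, false⟩,
 nat_lit 0, nat_lit 0, nat_lit 0, nat_lit 3158, nat_lit 5004, nat_lit 0, nat_lit 0, nat_lit 0, nat_lit 0, nat_lit 0, nat_lit 0, nat_lit 0, nat_lit 0, nat_lit 0, nat_lit 0, nat_lit 400000, nat_lit 0, nat_lit 0, [(nat_lit 9, [(nat_lit 1, nat_lit 1000)])],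
 ⟨p045_k14, nat_lit 0, nat_lit 0, nat_lit 0, nat_lit 0, nat_lit 0, [nat_lit 2702720000, nat_lit 2862800001, nat_lit 3030799999], [], [nat_lit 19022397252, nat_lit 19659885056, nat_lit 18659801823, nat_lit 19277613080, nat_lit 19573846260, nat_lit 20287684452, nat_lit 19201296151, nat_lit 19804258746], nat_lit 0, nat_lit 0, nat_lit 0, nat_lit 0, nat_lit 0, nat_lit 0, [], [nat_lit 9, nat_lit 40, nat_lit 40, nat_lit 80]⟩, C1.Rw.none,
 ⟨nat_lit 5477, nat_lit 5701, ⟨.ofNat (nat_lit 235806), .ofNat (nat_lit 274166), .ofNat (nat_lit 257148), .ofNat (nat_lit 295508), .ofNat (nat_lit 242980), .ofNat (nat_lit 280447), .ofNat (nat_lit 264337), .ofNat (nat_lit 301804)⟩, ⟨.ofNat (nat_lit 482701), .ofNat (nat_lit 498045), .ofNat (nat_lit 504043), .ofNat (nat_lit 519387), .ofNat (nat_lit 479008), .ofNat (nat_lit 493995), .ofNat (nat_lit 500365), .ofNat (nat_lit 515352)⟩⟩, [⟨nat_lit 0, nat_lit 100, nat_lit 96, nat_lit 61,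 nat_lit 199320761⟩, ⟨nat_lit 16, nat_lit 100, nat_lit 97, nat_lit 76, nat_lit 376966794⟩]⟩
noncomputable def p045_l28 : Lf2 := ⟨nat_lit 0, nat_lit 5, [nat_lit 4, nat_lit 5, nat_lit 5, nat_lit 20], true, nat_lit 280, nat_lit 288, nat_lit 0, nat_lit 276, ⟨nat_lit 0, nat_lit 1000, nat_lit 0, nat_lit 6, nat_lit 116, nat_lit 1000, nat_lit 200, nat_lit 0, nat_lit 0, nat_lit 0, nat_lit 0, nat_lit 0, nat_lit 48314156, nat_lit 5615319, nat_lit 13070525, nat_lit 4064271, false, false⟩,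
 nat_lit 0, nat_lit 0, nat_lit 0, nat_lit 0, nat_lit 3134, nat_lit 0, nat_lit 0, nat_lit 0, nat_lit 0, nat_lit 0, nat_lit 0, nat_lit 0, nat_lit 0, nat_lit 7405391424476, nat_lit 0, nat_lit 250000, nat_lit 0, nat_lit 0, [(nat_lit 9, [(nat_lit 0, nat_lit 1000)])],
 ⟨p045_k18, nat_lit 0, nat_lit 0, nat_lit 0, nat_lit 0, nat_lit 0, [nat_lit 1558400000, nat_lit 2570400001, nat_lit 2996800000, nat_lit 3375200000], [], [nat_lit 17700339466, nat_lit 18269046376, nat_lit 17600421703, nat_lit 18160259072, nat_lit 18192439171, nat_lit 18770903516, nat_lit 18084541958, nat_lit 18632351565], nat_lit 0, nat_lit 0, nat_lit 0, nat_lit 0, nat_lit 0, nat_lit 0, [], [nat_lit 98, nat_lit 40, nat_lit 40, nat_lit 80]⟩, C1.Rw.none,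
 ⟨nat_lit 5477, nat_lit 5701, ⟨.ofNat (nat_lit 257148), .ofNat (nat_lit 295508), .ofNat (nat_lit 278490), .ofNat (nat_lit 316850), .ofNat (nat_lit 264337), .ofNat (nat_lit 301804), .ofNat (nat_lit 285695), .ofNat (nat_lit 323161)⟩, ⟨.ofNat (nat_lit 482701), .ofNat (nat_lit 498045), .ofNat (nat_lit 504043), .ofNat (nat_lit 519387), .ofNat (nat_lit 479008), .ofNat (nat_lit 493995), .ofNat (nat_lit 500365), .ofNat (nat_lit 515352)⟩⟩, [⟨nat_lit 0, nat_lit 100, nat_lit 99, nat_lit 72, nat_lit 136134265⟩, ⟨nat_lit 16, nat_lit 100, nat_lit 97, nat_lit 76, nat_lit 322412410⟩]⟩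
noncomputable def p045_l29 : Lf2 := ⟨nat_lit 0, nat_lit 10, [nat_lit 0, nat_lit 5, nat_lit 5, nat_lit 20], true, nat_lit 280, nat_lit 296, nat_lit 0, nat_lit 276, ⟨nat_lit 0, nat_lit 1000, nat_lit 0, nat_lit 6, nat_lit 106, nat_lit 1000, nat_lit 203, nat_lit 0, nat_lit 0, nat_lit 0, nat_lit 0, nat_lit 0, nat_lit 48589018, nat_lit 4908376, nat_lit 13502606, nat_lit 3973396, false, false⟩,
 nat_lit 0, nat_lit 0, nat_lit 0, nat_lit 100000, nat_lit 5349, nat_lit 0, nat_lit 0, nat_lit 0, nat_lit 0, nat_lit 0, nat_lit 0, nat_lit 0, nat_lit 0, nat_lit 0, nat_lit 0, nat_lit 250000, nat_lit 0, nat_lit 0, [(nat_lit 9, [(nat_lit 0, nat_lit 1000)])],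
 ⟨p045_k10, nat_lit 0, nat_lit 0, nat_lit 0, nat_lit 0, nat_lit 0, [nat_lit 3116800000, nat_lit 3614800000], [], [nat_lit 18617743620, nat_lit 19917154354, nat_lit 18215740634, nat_lit 19492203730, nat_lit 19791914433, nat_lit 21218553099, nat_lit 19368237889, nat_lit 20608804735], nat_lit 0, nat_lit 0, nat_lit 0, nat_lit 0, nat_lit 0, nat_lit 0, [], [nat_lit 70, nat_lit 40, nat_lit 40, nat_lit 80]⟩, C1.Rw.none,
 ⟨nat_lit 5477, nat_lit 5917, ⟨.ofNat (nat_lit 228543), .ofNat (nat_lit 267810), .ofNat (nat_lit 249882), .ofNat (nat_lit 289149), .ofNat (nat_lit 242980), .ofNat (nat_lit 280447), .ofNat (nat_lit 264337), .ofNat (nat_lit 301804)⟩, ⟨.ofNat (nat_lit 486351), .ofNat (nat_lit 517765), .ofNat (nat_lit 507691), .ofNat (nat_lit 539104), .ofNat (nat_lit 479008), .ofNat (nat_lit 508982), .ofNat (nat_lit 500365), .ofNat (nat_lit 530339)⟩⟩, [⟨nat_lit 0, nat_lit 100, nat_lit 96, nat_lit 69, nat_lit 204575624⟩,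 ⟨nat_lit 16, nat_lit 100, nat_lit 92, nat_lit 75, nat_lit 5887389549⟩]⟩
noncomputable def p045_l30 : Lf2 := ⟨nat_lit 0, nat_lit 10, [nat_lit 0, nat_lit 5, nat_lit 5, nat_lit 20], true, nat_lit 280, nat_lit 296, nat_lit 0, nat_lit 276, ⟨nat_lit 0, nat_lit 1000, nat_lit 0, nat_lit 6, nat_lit 115, nat_lit 1000, nat_lit 203, nat_lit 0, nat_lit 0, nat_lit 0, nat_lit 0, nat_lit 0, nat_lit 48050576, nat_lit 5503426, nat_lit 13445998, nat_lit 4081929, false, false⟩,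
 nat_lit 0, nat_lit 0, nat_lit 0, nat_lit 5211, nat_lit 4834, nat_lit 0, nat_lit 0, nat_lit 0, nat_lit 0, nat_lit 0, nat_lit 0, nat_lit 0, nat_lit 0, nat_lit 14184646028306, nat_lit 0, nat_lit 250000, nat_lit 0, nat_lit 0, [(nat_lit 9, [(nat_lit 0, nat_lit 1000)])],
 ⟨p045_k19, nat_lit 0, nat_lit 0, nat_lit 0, nat_lit 0, nat_lit 0, [nat_lit 2727200000, nat_lit 2900133334, nat_lit 3657244444], [], [nat_lit 17933031200, nat_lit 19340380088, nat_lit 17501444884, nat_lit 18761941504, nat_lit 19281126330, nat_lit 20650306322, nat_lit 18696337856, nat_lit 20008137380], nat_lit 0, nat_lit 0, nat_lit 0, nat_lit 0, nat_lit 0, nat_lit 0, [], [nat_lit 169, nat_lit 40, nat_lit 20, nat_lit 40]⟩, C1.Rw.none,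
 ⟨nat_lit 5477, nat_lit 5917, ⟨.ofNat (nat_lit 249882), .ofNat (nat_lit 289149), .ofNat (nat_lit 271221), .ofNat (nat_lit 310488), .ofNat (nat_lit 264337), .ofNat (nat_lit 301804), .ofNat (nat_lit 285695), .ofNat (nat_lit 323161)⟩, ⟨.ofNat (nat_lit 486351), .ofNat (nat_lit 517765), .ofNat (nat_lit 507691), .ofNat (nat_lit 539104), .ofNat (nat_lit 479008), .ofNat (nat_lit 508982), .ofNat (nat_lit 500365), .ofNat (nat_lit 530339)⟩⟩, [⟨nat_lit 0, nat_lit 100, nat_lit 100, nat_lit 70, nat_lit 221180629⟩, ⟨nat_lit 16, nat_lit 100, nat_lit 92, nat_lit 75, nat_lit 475485676⟩]⟩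
noncomputable def p045_l31 : Lf2 := ⟨nat_lit 0, nat_lit 10, [nat_lit 0, nat_lit 5, nat_lit 5, nat_lit 20], true, nat_lit 280, nat_lit 296, nat_lit 0, nat_lit 300, ⟨nat_lit 0, nat_lit 1000, nat_lit 0, nat_lit 6, nat_lit 123, nat_lit 1000, nat_lit 204, nat_lit 0, nat_lit 0, nat_lit 0, nat_lit 0, nat_lit 0, nat_lit 47476214, nat_lit 6057871, nat_lit 13465915, nat_lit 4184489, false, false⟩,
 nat_lit 0, nat_lit 0, nat_lit 0, nat_lit 2781, nat_lit 5592, nat_lit 0, nat_lit 0, nat_lit 0, nat_lit 0, nat_lit 0, nat_lit 0, nat_lit 0, nat_lit 0, nat_lit 14945799318685, nat_lit 0, nat_lit 250000, nat_lit 0, nat_lit 0, [(nat_lit 9, [(nat_lit 0, nat_lit 1000)])],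
 ⟨p045_k10, nat_lit 0, nat_lit 0, nat_lit 0, nat_lit 0, nat_lit 0, [nat_lit 3116800000, nat_lit 3614800000], [], [nat_lit 18046464768, nat_lit 18699079304, nat_lit 17608986576, nat_lit 18249764312, nat_lit 19327340985, nat_lit 20052598612, nat_lit 18767143594, nat_lit 19409242021], nat_lit 0, nat_lit 0, nat_lit 0, nat_lit 0, nat_lit 0, nat_lit 0, [], [nat_lit 70, nat_lit 40, nat_lit 40, nat_lit 80]⟩, C1.Rw.none,
 ⟨nat_lit 5700, nat_lit 5917, ⟨.ofNat (nat_lit 267810), .ofNat (nat_lit 307076), .ofNat (nat_lit 299818), .ofNat (nat_lit 339085), .ofNat (nat_lit 274166), .ofNat (nat_lit 312525), .ofNat (nat_lit 306179), .ofNat (nat_lit 344538)⟩, ⟨.ofNat (nat_lit 486351), .ofNat (nat_lit 517765), .ofNat (nat_lit 507691), .ofNat (nat_lit 539104), .ofNat (nat_lit 482701), .ofNat (nat_lit 513388), .ofNat (nat_lit 504043), .ofNat (nat_lit 534730)⟩⟩, [⟨nat_lit 16, nat_lit 100, nat_lit 92, nat_lit 75, nat_lit 484984669⟩]⟩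
noncomputable def p045_l32 : Lf2 := ⟨nat_lit 0, nat_lit 10, [nat_lit 0, nat_lit 5, nat_lit 5, nat_lit 20], true, nat_lit 280, nat_lit 288, nat_lit 0, nat_lit 300, ⟨nat_lit 0, nat_lit 1000, nat_lit 0, nat_lit 6, nat_lit 127, nat_lit 1000, nat_lit 200, nat_lit 0, nat_lit 0, nat_lit 0, nat_lit 0, nat_lit 0, nat_lit 47597253, nat_lit 6409023, nat_lit 12993724, nat_lit 4197373, false, false⟩,
 nat_lit 0, nat_lit 0, nat_lit 0, nat_lit 2751, nat_lit 5592, nat_lit 0, nat_lit 0, nat_lit 0, nat_lit 0, nat_lit 0, nat_lit 0, nat_lit 0, nat_lit 0, nat_lit 14781190907374, nat_lit 0, nat_lit 250000, nat_lit 0, nat_lit 0, [(nat_lit 9, [(nat_lit 0, nat_lit 1000)])],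
 ⟨p045_k11, nat_lit 0, nat_lit 0, nat_lit 0, nat_lit 0, nat_lit 0, [nat_lit 3116800000, nat_lit 3614800000], [], [nat_lit 18699079304, nat_lit 19464539320, nat_lit 18249764312, nat_lit 18890542048, nat_lit 19375684565, nat_lit 20121197780, nat_lit 18813033676, nat_lit 19477776781], nat_lit 0, nat_lit 0, nat_lit 0, nat_lit 0, nat_lit 0, nat_lit 0, [], [nat_lit 70, nat_lit 40, nat_lit 40, nat_lit 80]⟩, C1.Rw.none,
 ⟨nat_lit 5477, nat_lit 5701, ⟨.ofNat (nat_lit 274166), .ofNat (nat_lit 312525), .ofNat (nat_lit 316850), .ofNat (nat_lit 355209), .ofNat (nat_lit 280447), .ofNat (nat_lit 317913), .ofNat (nat_lit 323161), .ofNat (nat_lit 360628)⟩, ⟨.ofNat (nat_lit 482701), .ofNat (nat_lit 498045), .ofNat (nat_lit 504043), .ofNat (nat_lit 519387), .ofNat (nat_lit 479008), .ofNat (nat_lit 493995), .ofNat (nat_lit 500365), .ofNat (nat_lit 515352)⟩⟩, [⟨nat_lit 16, nat_lit 100, nat_lit 97, nat_lit 76, nat_lit 576525216⟩]⟩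
noncomputable def b_V_600_600_10_21 : St := ⟨true, nat_lit 0, nat_lit 1, nat_lit 1, nat_lit 80, nat_lit 260, nat_lit 280, nat_lit 240, nat_lit 280, nat_lit 40, nat_lit 80, nat_lit 40, nat_lit 60, nat_lit 280, nat_lit 300, nat_lit 0, nat_lit 300, nat_lit 0, nat_lit 40, nat_lit 300, nat_lit 460, nat_lit 0, nat_lit 0⟩
theorem d_V_600_600_10_21 (h : EB TB.env) : Dead b_V_600_600_10_21 := chkB_sound0 h (T :=
(.trX (nat_lit 16) (nat_lit 100) (nat_lit 92) (nat_lit 75) (nat_lit 296) (.spl (nat_lit 2) (nat_lit 60)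
(.trX (nat_lit 23) (nat_lit 99) (nat_lit 100) (nat_lit 77) (nat_lit 276) (.spl (nat_lit 6) (nat_lit 20)
(.spl (nat_lit 0) (nat_lit 270)
(.ord (.leaf p045_l26))
(.trX (nat_lit 16) (nat_lit 100) (nat_lit 97) (nat_lit 76) (nat_lit 288) (.spl (nat_lit 1) (nat_lit 260)
(.leaf p045_l27)
(.leaf p045_l28))))
(.spl (nat_lit 1) (nat_lit 260)
(.leaf p045_l29)
(.leaf p045_l30))))
(.spl (nat_lit 0) (nat_lit 270)
(.ord (.leaf p045_l31))
(.trX (nat_lit 16) (nat_lit 100) (nat_lit 97) (nat_lit 76) (nat_lit 288) (.leaf p045_l32)))))) (by decide +kernel)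
noncomputable def p045_l33 : Lf2 := ⟨nat_lit 0, nat_lit 2, [nat_lit 10, nat_lit 5, nat_lit 5, nat_lit 20], false, nat_lit 280, nat_lit 300, nat_lit 0, nat_lit 160, ⟨nat_lit 1000, nat_lit 0, nat_lit 0, nat_lit 0, nat_lit 0, nat_lit 0, nat_lit 0, nat_lit 0, nat_lit 0, nat_lit 0, nat_lit 0, nat_lit 0, nat_lit 0, nat_lit 0, nat_lit 0, nat_lit 0, false, false⟩,
 nat_lit 0, nat_lit 0, nat_lit 100000, nat_lit 0, nat_lit 6689, nat_lit 58208, nat_lit 0, nat_lit 0, nat_lit 0, nat_lit 26024, nat_lit 2642, nat_lit 0, nat_lit 0, nat_lit 0, nat_lit 0, nat_lit 0, nat_lit 0, nat_lit 0, [],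
 ⟨p045_k3, nat_lit 0, nat_lit 0, nat_lit 0, nat_lit 0, nat_lit 0, [nat_lit 4688000000, nat_lit 6250000000], [], [nat_lit 19451112820, nat_lit 20913153994, nat_lit 18255857667, nat_lit 19663997066, nat_lit 21166382190, nat_lit 22766332704, nat_lit 19857795979, nat_lit 21174387689], nat_lit 0, nat_lit 0, nat_lit 0, nat_lit 0, nat_lit 0, nat_lit 0, [], [nat_lit 31, nat_lit 40, nat_lit 40, nat_lit 80]⟩, ⟨p045_k3, nat_lit 0, nat_lit 0, nat_lit 0, nat_lit 0, nat_lit 305740, [nat_lit 46960000000, nat_lit 59090000000], [], [nat_lit 49693151872, nat_lit 64000198656, nat_lit 31168483520, nat_lit 44938201024, nat_lit 36887052184, nat_lit 10764512480, nat_lit 42464361784, nat_lit 14659098680], nat_lit 1271250, nat_lit 1271250, nat_lit 230001, nat_lit 490000, nat_lit 0, nat_lit 1100001, [nat_lit 1100000, nat_lit 1442500], [nat_lit 31, nat_lit 40, nat_lit 40, nat_lit 80]⟩,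
 zbF0, [⟨nat_lit 0, nat_lit 100, nat_lit 100, nat_lit 70, nat_lit 64251885⟩, ⟨nat_lit 0, nat_lit 100, nat_lit 100, nat_lit 80, nat_lit 61634313⟩, ⟨nat_lit 4, nat_lit 93, nat_lit 100, nat_lit 81, nat_lit 5400721999⟩]⟩
noncomputable def p045_l34 : Lf2 := ⟨nat_lit 0, nat_lit 2, [nat_lit 10, nat_lit 5, nat_lit 5, nat_lit 20], false, nat_lit 280, nat_lit 300, nat_lit 160, nat_lit 240, ⟨nat_lit 1000, nat_lit 0, nat_lit 0, nat_lit 0, nat_lit 0, nat_lit 0, nat_lit 0, nat_lit 0, nat_lit 0, nat_lit 0, nat_lit 0, nat_lit 0, nat_lit 0, nat_lit 0, nat_lit 0, nat_lit 0, false, false⟩,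
 nat_lit 0, nat_lit 0, nat_lit 21125, nat_lit 0, nat_lit 6532, nat_lit 12296, nat_lit 0, nat_lit 0, nat_lit 0, nat_lit 4905, nat_lit 276, nat_lit 0, nat_lit 0, nat_lit 374556939290, nat_lit 0, nat_lit 0, nat_lit 0, nat_lit 0, [],
 ⟨p045_k3, nat_lit 0, nat_lit 0, nat_lit 0, nat_lit 0, nat_lit 0, [nat_lit 4688000000, nat_lit 6250000000], [], [nat_lit 19537560160, nat_lit 20980546872, nat_lit 18388145396, nat_lit 19778168408, nat_lit 21180220448, nat_lit 22623127352, nat_lit 19968008958, nat_lit 21268273532], nat_lit 0, nat_lit 0, nat_lit 0, nat_lit 0, nat_lit 0, nat_lit 0, [], [nat_lit 31, nat_lit 40, nat_lit 40, nat_lit 80]⟩, ⟨p045_k3, nat_lit 0, nat_lit 0, nat_lit 0, nat_lit 0, nat_lit 256703, [nat_lit 9104000000, nat_lit 11770000000], [], [nat_lit 12598552715, nat_lit 13725916531, nat_lit 10520429947, nat_lit 11595064299, nat_lit 17110594347, nat_lit 18002771776, nat_lit 18771390795, nat_lit 15751357939],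 nat_lit 1271250, nat_lit 1271250, nat_lit 230001, nat_lit 490000, nat_lit 1100001, nat_lit 1785000, [nat_lit 1100000, nat_lit 1442500], [nat_lit 31, nat_lit 40, nat_lit 40, nat_lit 80]⟩,
 zbF0, [⟨nat_lit 0, nat_lit 100, nat_lit 99, nat_lit 67, nat_lit 710197687⟩, ⟨nat_lit 4, nat_lit 93, nat_lit 100, nat_lit 81, nat_lit 814250055⟩]⟩
noncomputable def p045_l35 : Lf2 := ⟨nat_lit 0, nat_lit 2, [nat_lit 10, nat_lit 5, nat_lit 5, nat_lit 20], false, nat_lit 280, nat_lit 300, nat_lit 160, nat_lit 240, ⟨nat_lit 1000, nat_lit 0, nat_lit 0, nat_lit 0, nat_lit 0, nat_lit 0, nat_lit 0, nat_lit 0, nat_lit 0, nat_lit 0, nat_lit 0, nat_lit 0, nat_lit 0, nat_lit 0, nat_lit 0, nat_lit 0, false, false⟩,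
 nat_lit 0, nat_lit 0, nat_lit 18582, nat_lit 0, nat_lit 6617, nat_lit 11316, nat_lit 0, nat_lit 0, nat_lit 0, nat_lit 3023, nat_lit 208, nat_lit 0, nat_lit 0, nat_lit 18355981190218, nat_lit 0, nat_lit 0, nat_lit 0, nat_lit 0, [],
 ⟨p045_k20, nat_lit 0, nat_lit 0, nat_lit 0, nat_lit 0, nat_lit 0, [nat_lit 4688000000, nat_lit 6250000000], [], [nat_lit 19977215152, nat_lit 20698519406, nat_lit 19016440275, nat_lit 19716355898, nat_lit 21572484731, nat_lit 22361627925, nat_lit 20562891564, nat_lit 21217443617], nat_lit 0, nat_lit 0, nat_lit 0, nat_lit 0, nat_lit 0, nat_lit 0, [], [nat_lit 31, nat_lit 40, nat_lit 40, nat_lit 80]⟩, ⟨p045_k20, nat_lit 0, nat_lit 0, nat_lit 0, nat_lit 0, nat_lit 289713, [nat_lit 8016000000, nat_lit 10410000000], [], [nat_lit 12991482837, nat_lit 14044836744, nat_lit 11472289179, nat_lit 12486347771, nat_lit 17085442494, nat_lit 18461742173, nat_lit 15468632119, nat_lit 16373435744],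 nat_lit 1271250, nat_lit 1271250, nat_lit 279600, nat_lit 490000, nat_lit 1100001, nat_lit 1785000, [nat_lit 1100000, nat_lit 1442500], [nat_lit 31, nat_lit 40, nat_lit 40, nat_lit 80]⟩,
 zbF0, [⟨nat_lit 0, nat_lit 100, nat_lit 100, nat_lit 75, nat_lit 1070658135⟩, ⟨nat_lit 16, nat_lit 100, nat_lit 96, nat_lit 82, nat_lit 786165161⟩]⟩
noncomputable def p045_l36 : Lf2 := ⟨nat_lit 0, nat_lit 2, [nat_lit 10, nat_lit 5, nat_lit 5, nat_lit 20], false, nat_lit 280, nat_lit 300, nat_lit 240, nat_lit 300, ⟨nat_lit 1000, nat_lit 0, nat_lit 0, nat_lit 0, nat_lit 0, nat_lit 0, nat_lit 0, nat_lit 0, nat_lit 0, nat_lit 0, nat_lit 0, nat_lit 0, nat_lit 0, nat_lit 0, nat_lit 0, nat_lit 0, false, false⟩,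
 nat_lit 0, nat_lit 0, nat_lit 11966, nat_lit 0, nat_lit 7059, nat_lit 6965, nat_lit 0, nat_lit 0, nat_lit 0, nat_lit 2843, nat_lit 0, nat_lit 0, nat_lit 0, nat_lit 1257521010356, nat_lit 0, nat_lit 0, nat_lit 0, nat_lit 0, [],
 ⟨p045_k3, nat_lit 0, nat_lit 0, nat_lit 0, nat_lit 0, nat_lit 0, [nat_lit 4688000000, nat_lit 6250000000], [], [nat_lit 19412498582, nat_lit 21188320076, nat_lit 17944096777, nat_lit 19394930846, nat_lit 21453764890, nat_lit 23103823024, nat_lit 19646126506, nat_lit 21246492098], nat_lit 0, nat_lit 0, nat_lit 0, nat_lit 0, nat_lit 0, nat_lit 0, [], [nat_lit 31, nat_lit 40, nat_lit 40, nat_lit 80]⟩, ⟨p045_k3, nat_lit 0, nat_lit 0, nat_lit 0, nat_lit 0, nat_lit 305740, [nat_lit 4688000000, nat_lit 6250000000], [], [nat_lit 18016828835, nat_lit 19309018245, nat_lit 17043633395, nat_lit 18281956465, nat_lit 21944876390, nat_lit 23018350980, nat_lit 20810092003, nat_lit 21840593185], nat_lit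 1271250, nat_lit 1271250, nat_lit 230001, nat_lit 490000, nat_lit 1271250, nat_lit 1271250, [nat_lit 1100000, nat_lit 1442500], [nat_lit 31, nat_lit 40, nat_lit 40, nat_lit 80]⟩,
 zbF0, [⟨nat_lit 0, nat_lit 100, nat_lit 100, nat_lit 80, nat_lit 328446217⟩, ⟨nat_lit 4, nat_lit 93, nat_lit 100, nat_lit 81, nat_lit 427760149⟩, ⟨nat_lit 19, nat_lit 100, nat_lit 93, nat_lit 81, nat_lit 6950695⟩, ⟨nat_lit 11, nat_lit 100, nat_lit 100, nat_lit 77, nat_lit 688378438⟩]⟩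
noncomputable def p045_l37 : Lf2 := ⟨nat_lit 0, nat_lit 5, [nat_lit 4, nat_lit 5, nat_lit 5, nat_lit 20], true, nat_lit 280, nat_lit 300, nat_lit 0, nat_lit 300, ⟨nat_lit 0, nat_lit 1000, nat_lit 0, nat_lit 6, nat_lit 122, nat_lit 1000, nat_lit 214, nat_lit 0, nat_lit 0, nat_lit 0, nat_lit 0, nat_lit 0, nat_lit 46646209, nat_lit 6005621, nat_lit 14348170, nat_lit 4260796, false, false⟩,
 nat_lit 0, nat_lit 0, nat_lit 0, nat_lit 378, nat_lit 0, nat_lit 0, nat_lit 0, nat_lit 0, nat_lit 392, nat_lit 0, nat_lit 0, nat_lit 0, nat_lit 0, nat_lit 11336900223526, nat_lit 0, nat_lit 250000, nat_lit 0, nat_lit 0, [(nat_lit 9, [(nat_lit 0, nat_lit 1000)])],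
 ⟨p045_k12, nat_lit 0, nat_lit 0, nat_lit 0, nat_lit 0, nat_lit 0, [nat_lit 3116800000, nat_lit 3354400000], [], [nat_lit 15291010000, nat_lit 15941234000, nat_lit 16048789000, nat_lit 16686456000, nat_lit 15970969000, nat_lit 16665055000, nat_lit 16717598000, nat_lit 17397770000], nat_lit 0, nat_lit 0, nat_lit 0, nat_lit 0, nat_lit 0, nat_lit 0, [], [nat_lit 39, nat_lit 40, nat_lit 40, nat_lit 80]⟩, C1.Rw.none,
 ⟨nat_lit 5477, nat_lit 5917, ⟨.ofNat (nat_lit 249882), .ofNat (nat_lit 328416), .ofNat (nat_lit 271221), .ofNat (nat_lit 349755), .ofNat (nat_lit 264337), .ofNat (nat_lit 339271), .ofNat (nat_lit 285695), .ofNat (nat_lit 360628)⟩, ⟨.ofNat (nat_lit 507691), .ofNat (nat_lit 546958), .ofNat (nat_lit 529030), .ofNat (nat_lit 568297), .ofNat (nat_lit 500365), .ofNat (nat_lit 537832), .ofNat (nat_lit 521722), .ofNat (nat_lit 559189)⟩⟩, [⟨nat_lit 0, nat_lit 100, nat_lit 100, nat_lit 80, nat_lit 5964819⟩]⟩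
noncomputable def p045_l38 : Lf2 := ⟨nat_lit 0, nat_lit 5, [nat_lit 4, nat_lit 5, nat_lit 5, nat_lit 20], true, nat_lit 280, nat_lit 300, nat_lit 0, nat_lit 300, ⟨nat_lit 0, nat_lit 1000, nat_lit 0, nat_lit 6, nat_lit 120, nat_lit 1000, nat_lit 214, nat_lit 0, nat_lit 0, nat_lit 0, nat_lit 0, nat_lit 0, nat_lit 46780328, nat_lit 5852730, nat_lit 14366942, nat_lit 4235343, false, false⟩,
 nat_lit 0, nat_lit 0, nat_lit 0, nat_lit 1826, nat_lit 0, nat_lit 0, nat_lit 0, nat_lit 0, nat_lit 396, nat_lit 0, nat_lit 0, nat_lit 0, nat_lit 0, nat_lit 8066851184108, nat_lit 0, nat_lit 250000, nat_lit 0, nat_lit 0, [(nat_lit 9, [(nat_lit 0, nat_lit 1000)])],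
 ⟨p045_k12, nat_lit 0, nat_lit 0, nat_lit 0, nat_lit 0, nat_lit 0, [nat_lit 3116800000, nat_lit 3354400000], [], [nat_lit 15227010000, nat_lit 15938090000, nat_lit 15987536000, nat_lit 16686456000, nat_lit 15970969000, nat_lit 16665055000, nat_lit 16717598000, nat_lit 17397770000], nat_lit 0, nat_lit 0, nat_lit 0, nat_lit 0, nat_lit 0, nat_lit 0, [], [nat_lit 39, nat_lit 40, nat_lit 40, nat_lit 80]⟩, C1.Rw.none,
 ⟨nat_lit 5477, nat_lit 5917, ⟨.ofNat (nat_lit 249882), .ofNat (nat_lit 328416), .ofNat (nat_lit 260552), .ofNat (nat_lit 339085), .ofNat (nat_lit 264337), .ofNat (nat_lit 339271), .ofNat (nat_lit 275016), .ofNat (nat_lit 349949)⟩, ⟨.ofNat (nat_lit 507691), .ofNat (nat_lit 546958), .ofNat (nat_lit 529030), .ofNat (nat_lit 568297), .ofNat (nat_lit 500365), .ofNat (nat_lit 537832), .ofNat (nat_lit 521722), .ofNat (nat_lit 559189)⟩⟩, [⟨nat_lit 0, nat_lit 100, nat_lit 99, nat_lit 67, nat_lit 6148013⟩]⟩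
noncomputable def p045_l39 : Lf2 := ⟨nat_lit 0, nat_lit 5, [nat_lit 4, nat_lit 5, nat_lit 5, nat_lit 20], true, nat_lit 280, nat_lit 300, nat_lit 0, nat_lit 300, ⟨nat_lit 0, nat_lit 1000, nat_lit 0, nat_lit 6, nat_lit 129, nat_lit 1000, nat_lit 213, nat_lit 0, nat_lit 0, nat_lit 0, nat_lit 0, nat_lit 0, nat_lit 46310419, nat_lit 6477816, nat_lit 14211765, nat_lit 4329574, false, false⟩,
 nat_lit 0, nat_lit 0, nat_lit 0, nat_lit 605, nat_lit 935, nat_lit 0, nat_lit 0, nat_lit 0, nat_lit 327, nat_lit 0, nat_lit 0, nat_lit 0, nat_lit 0, nat_lit 10219233310036, nat_lit 0, nat_lit 250000, nat_lit 0, nat_lit 0, [(nat_lit 9, [(nat_lit 0, nat_lit 1000)])],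
 ⟨p045_k13, nat_lit 0, nat_lit 0, nat_lit 0, nat_lit 0, nat_lit 0, [nat_lit 3116800000, nat_lit 3354400000], [], [nat_lit 16293034844, nat_lit 16715842345, nat_lit 16673050598, nat_lit 17045174360, nat_lit 17187342892, nat_lit 17595832242, nat_lit 17506524439, nat_lit 17907552570], nat_lit 0, nat_lit 0, nat_lit 0, nat_lit 0, nat_lit 0, nat_lit 0, [], [nat_lit 39, nat_lit 40, nat_lit 40, nat_lit 80]⟩, C1.Rw.none,
 ⟨nat_lit 5477, nat_lit 5701, ⟨.ofNat (nat_lit 283163), .ofNat (nat_lit 344538), .ofNat (nat_lit 293834), .ofNat (nat_lit 355209), .ofNat (nat_lit 290003), .ofNat (nat_lit 349949), .ofNat (nat_lit 300681), .ofNat (nat_lit 360628)⟩, ⟨.ofNat (nat_lit 504043), .ofNat (nat_lit 542402), .ofNat (nat_lit 525385), .ofNat (nat_lit 563744), .ofNat (nat_lit 500365), .ofNat (nat_lit 537832), .ofNat (nat_lit 521722), .ofNat (nat_lit 559189)⟩⟩, [⟨nat_lit 0, nat_lit 100, nat_lit 100, nat_lit 80, nat_lit 54503381⟩]⟩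
noncomputable def p045_l40 : Lf2 := ⟨nat_lit 0, nat_lit 5, [nat_lit 4, nat_lit 5, nat_lit 5, nat_lit 20], false, nat_lit 280, nat_lit 300, nat_lit 0, nat_lit 160, ⟨nat_lit 1000, nat_lit 0, nat_lit 0, nat_lit 0, nat_lit 0, nat_lit 0, nat_lit 0, nat_lit 0, nat_lit 0, nat_lit 0, nat_lit 0, nat_lit 0, nat_lit 0, nat_lit 0, nat_lit 0, nat_lit 0, false, false⟩,
 nat_lit 0, nat_lit 0, nat_lit 100000, nat_lit 0, nat_lit 6800, nat_lit 58208, nat_lit 0, nat_lit 0, nat_lit 0, nat_lit 20594, nat_lit 3165, nat_lit 0, nat_lit 0, nat_lit 139974137688643, nat_lit 0, nat_lit 0, nat_lit 0, nat_lit 0, [],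
 ⟨p045_k12, nat_lit 0, nat_lit 0, nat_lit 0, nat_lit 0, nat_lit 0, [nat_lit 4688000000, nat_lit 7968000000], [], [nat_lit 19389994000, nat_lit 20127750400, nat_lit 18162329400, nat_lit 18872803300, nat_lit 21252597000, nat_lit 22060088400, nat_lit 19779874700, nat_lit 20443942250], nat_lit 0, nat_lit 0, nat_lit 0, nat_lit 0, nat_lit 0, nat_lit 0, [], [nat_lit 39, nat_lit 40, nat_lit 40, nat_lit 80]⟩, ⟨p045_k12, nat_lit 0, nat_lit 0, nat_lit 0, nat_lit 0, nat_lit 121857, [nat_lit 55328000000, nat_lit 83928000000], [], [nat_lit 76861784592, nat_lit 82492832376, nat_lit 57908867520, nat_lit 63321788256, nat_lit 23550306480, nat_lit 27152544248, nat_lit 10214215712, nat_lit 13621217392], nat_lit 1271250, nat_lit 1271250, nat_lit 230001, nat_lit 490000, nat_lit 0, nat_lit 1100001, [nat_lit 1100000, nat_lit 1785000], [nat_lit 39, nat_lit 40, nat_lit 40, nat_lit 80]⟩,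
 zbF0, [⟨nat_lit 0, nat_lit 100, nat_lit 100, nat_lit 70, nat_lit 2515242909⟩, ⟨nat_lit 4, nat_lit 91, nat_lit 100, nat_lit 80, nat_lit 915125965⟩]⟩
noncomputable def p045_l41 : Lf2 := ⟨nat_lit 0, nat_lit 5, [nat_lit 4, nat_lit 5, nat_lit 5, nat_lit 20], false, nat_lit 280, nat_lit 300, nat_lit 160, nat_lit 276, ⟨nat_lit 150, nat_lit 850, nat_lit 0, nat_lit 6, nat_lit 111, nat_lit 850, nat_lit 214, nat_lit 0, nat_lit 0, nat_lit 0, nat_lit 0, nat_lit 0, nat_lit 47262647, nat_lit 5215418, nat_lit 14521935, nat_lit 4131912, false, false⟩,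
 nat_lit 0, nat_lit 0, nat_lit 3354, nat_lit 0, nat_lit 574, nat_lit 1952, nat_lit 0, nat_lit 0, nat_lit 348, nat_lit 0, nat_lit 0, nat_lit 0, nat_lit 0, nat_lit 6275418507284, nat_lit 0, nat_lit 340000, nat_lit 0, nat_lit 0, [(nat_lit 9, [(nat_lit 1, nat_lit 850)])],
 ⟨p045_k12, nat_lit 0, nat_lit 0, nat_lit 0, nat_lit 0, nat_lit 0, [nat_lit 3034580000, nat_lit 3746080000], [], [nat_lit 15596734120, nat_lit 15964985794, nat_lit 15891826221, nat_lit 16247429101, nat_lit 16416800540, nat_lit 16802710802, nat_lit 16686265382, nat_lit 17067969814], nat_lit 0, nat_lit 0, nat_lit 0, nat_lit 0, nat_lit 0, nat_lit 0, [], [nat_lit 39, nat_lit 40, nat_lit 40, nat_lit 80]⟩, ⟨p045_k12, nat_lit 0, nat_lit 0, nat_lit 0, nat_lit 0, nat_lit 121857, [nat_lit 703200000, nat_lit 1195200000], [], [nat_lit 4300185672, nat_lit 3791906344, nat_lit 3291161736, nat_lit 2786649768, nat_lit 3596546570, nat_lit 3551388736, nat_lit 3717602573,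 nat_lit 3305573645], nat_lit 1271250, nat_lit 1271250, nat_lit 230001, nat_lit 356250, nat_lit 1100001, nat_lit 2093250, [nat_lit 1100000, nat_lit 1785000], [nat_lit 39, nat_lit 40, nat_lit 40, nat_lit 80]⟩,
 ⟨nat_lit 5700, nat_lit 5917, ⟨.ofNat (nat_lit 249882), .ofNat (nat_lit 289149), .ofNat (nat_lit 260552), .ofNat (nat_lit 299818), .ofNat (nat_lit 257148), .ofNat (nat_lit 295508), .ofNat (nat_lit 267819), .ofNat (nat_lit 306179)⟩, ⟨.ofNat (nat_lit 507691), .ofNat (nat_lit 546958), .ofNat (nat_lit 529030), .ofNat (nat_lit 568296), .ofNat (nat_lit 504043), .ofNat (nat_lit 542402), .ofNat (nat_lit 525385), .ofNat (nat_lit 563744)⟩⟩, [⟨nat_lit 0, nat_lit 100, nat_lit 100, nat_lit 65, nat_lit 126942762⟩, ⟨nat_lit 23, nat_lit 92, nat_lit 100, nat_lit 68, nat_lit 16146311⟩]⟩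
noncomputable def p045_l42 : Lf2 := ⟨nat_lit 0, nat_lit 5, [nat_lit 4, nat_lit 5, nat_lit 5, nat_lit 20], false, nat_lit 280, nat_lit 300, nat_lit 160, nat_lit 300, ⟨nat_lit 1000, nat_lit 0, nat_lit 0, nat_lit 0, nat_lit 0, nat_lit 0, nat_lit 0, nat_lit 0, nat_lit 0, nat_lit 0, nat_lit 0, nat_lit 0, nat_lit 0, nat_lit 0, nat_lit 0, nat_lit 0, false, false⟩,
 nat_lit 0, nat_lit 0, nat_lit 19047, nat_lit 0, nat_lit 11910, nat_lit 11087, nat_lit 0, nat_lit 324, nat_lit 0, nat_lit 3044, nat_lit 0, nat_lit 0, nat_lit 0, nat_lit 0, nat_lit 0, nat_lit 0, nat_lit 0, nat_lit 0, [],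
 ⟨p045_k12, nat_lit 0, nat_lit 0, nat_lit 0, nat_lit 0, nat_lit 0, [nat_lit 9872000000, nat_lit 15744000000], [], [nat_lit 20562145805, nat_lit 21794102453, nat_lit 19040658730, nat_lit 20045956635, nat_lit 23440109648, nat_lit 24575044519, nat_lit 21658634195, nat_lit 22774999108], nat_lit 0, nat_lit 0, nat_lit 0, nat_lit 0, nat_lit 0, nat_lit 0, [], [nat_lit 39, nat_lit 40, nat_lit 40, nat_lit 80]⟩, ⟨p045_k12, nat_lit 0, nat_lit 0, nat_lit 0, nat_lit 0, nat_lit 121857, [nat_lit 4688000000, nat_lit 7968000000], [], [nat_lit 9510616648, nat_lit 10633907252, nat_lit 8366891052, nat_lit 9466375056, nat_lit 25128415045, nat_lit 24030026657, nat_lit 26297782695, nat_lit 23667425206], nat_lit 1271250, nat_lit 1271250, nat_lit 356250, nat_lit 490000, nat_lit 1100001, nat_lit 2298750, [nat_lit 1100000, nat_lit 1785000], [nat_lit 39, nat_lit 40, nat_lit 40, nat_lit 80]⟩,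
 zbF0, [⟨nat_lit 4, nat_lit 91, nat_lit 100, nat_lit 80, nat_lit 483031695⟩, ⟨nat_lit 23, nat_lit 97, nat_lit 100, nat_lit 82, nat_lit 877658171⟩]⟩
noncomputable def p045_l43 : Lf2 := ⟨nat_lit 0, nat_lit 5, [nat_lit 4, nat_lit 5, nat_lit 5, nat_lit 20], false, nat_lit 280, nat_lit 300, nat_lit 0, nat_lit 160, ⟨nat_lit 1000, nat_lit 0, nat_lit 0, nat_lit 0, nat_lit 0, nat_lit 0, nat_lit 0, nat_lit 0, nat_lit 0, nat_lit 0, nat_lit 0, nat_lit 0, nat_lit 0, nat_lit 0, nat_lit 0, nat_lit 0, false, false⟩,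
 nat_lit 0, nat_lit 0, nat_lit 100000, nat_lit 0, nat_lit 6689, nat_lit 58208, nat_lit 0, nat_lit 0, nat_lit 0, nat_lit 21625, nat_lit 3134, nat_lit 0, nat_lit 0, nat_lit 0, nat_lit 0, nat_lit 0, nat_lit 0, nat_lit 0, [],
 ⟨p045_k13, nat_lit 0, nat_lit 0, nat_lit 0, nat_lit 0, nat_lit 0, [nat_lit 4688000000, nat_lit 7968000000], [], [nat_lit 20182133407, nat_lit 20913153994, nat_lit 18959927367, nat_lit 19663997066, nat_lit 21966357447, nat_lit 22766332704, nat_lit 20516091834, nat_lit 21174387689], nat_lit 0, nat_lit 0, nat_lit 0, nat_lit 0, nat_lit 0, nat_lit 0, [], [nat_lit 39, nat_lit 40, nat_lit 40, nat_lit 80]⟩, ⟨p045_k12, nat_lit 0, nat_lit 0, nat_lit 0, nat_lit 0, nat_lit 150790, [nat_lit 54832000000, nat_lit 83184000000], [], [nat_lit 74416634592, nat_lit 77232158484, nat_lit 55463717520, nat_lit 58170177888, nat_lit 20609156480, nat_lit 22410275364, nat_lit 7273065712, nat_lit 8976566552], nat_lit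 1271250, nat_lit 1271250, nat_lit 230001, nat_lit 490000, nat_lit 0, nat_lit 1100001, [nat_lit 1100000, nat_lit 1785000], [nat_lit 39, nat_lit 40, nat_lit 40, nat_lit 80]⟩,
 zbF0, [⟨nat_lit 0, nat_lit 100, nat_lit 97, nat_lit 71, nat_lit 2574006391⟩, ⟨nat_lit 4, nat_lit 96, nat_lit 100, nat_lit 82, nat_lit 3532433405⟩]⟩
noncomputable def p045_l44 : Lf2 := ⟨nat_lit 0, nat_lit 5, [nat_lit 4, nat_lit 5, nat_lit 5, nat_lit 20], false, nat_lit 280, nat_lit 300, nat_lit 160, nat_lit 300, ⟨nat_lit 126, nat_lit 874, nat_lit 0, nat_lit 6, nat_lit 121, nat_lit 874, nat_lit 213, nat_lit 0, nat_lit 0, nat_lit 0, nat_lit 0, nat_lit 0, nat_lit 46841928, nat_lit 5871347, nat_lit 14286725, nat_lit 4231142, false, false⟩,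
 nat_lit 0, nat_lit 0, nat_lit 2611, nat_lit 0, nat_lit 775, nat_lit 1519, nat_lit 0, nat_lit 0, nat_lit 328, nat_lit 0, nat_lit 0, nat_lit 0, nat_lit 0, nat_lit 0, nat_lit 0, nat_lit 349600, nat_lit 0, nat_lit 0, [(nat_lit 9, [(nat_lit 1, nat_lit 874)])],
 ⟨p045_k14, nat_lit 0, nat_lit 0, nat_lit 0, nat_lit 0, nat_lit 0, [nat_lit 2952865280, nat_lit 3289587201, nat_lit 3647973199], [], [nat_lit 16099360525, nat_lit 16514507100, nat_lit 16618700118, nat_lit 16983789400, nat_lit 16972439825, nat_lit 17371960400, nat_lit 17429717519, nat_lit 17820317050], nat_lit 0, nat_lit 0, nat_lit 0, nat_lit 0, nat_lit 0, nat_lit 0, [], [nat_lit 9, nat_lit 40, nat_lit 40, nat_lit 80]⟩, ⟨p045_k8, nat_lit 0, nat_lit 0, nat_lit 0, nat_lit 0, nat_lit 150790, [nat_lit 590688000, nat_lit 787500000, nat_lit 1003968000], [], [nat_lit 3618722646, nat_lit 3420957201, nat_lit 2048325762, nat_lit 1853491987, nat_lit 3220510675, nat_lit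 3270012378, nat_lit 2848549722, nat_lit 2893456631], nat_lit 1271250, nat_lit 1271250, nat_lit 230001, nat_lit 490000, nat_lit 1100001, nat_lit 2298750, [nat_lit 1100000, nat_lit 1442500, nat_lit 1271250], [nat_lit 9, nat_lit 40, nat_lit 40, nat_lit 80]⟩,
 ⟨nat_lit 5477, nat_lit 5701, ⟨.ofNat (nat_lit 257148), .ofNat (nat_lit 333867), .ofNat (nat_lit 262484), .ofNat (nat_lit 339203), .ofNat (nat_lit 264337), .ofNat (nat_lit 339271), .ofNat (nat_lit 269677), .ofNat (nat_lit 344610)⟩, ⟨.ofNat (nat_lit 504043), .ofNat (nat_lit 542402), .ofNat (nat_lit 525385), .ofNat (nat_lit 563744), .ofNat (nat_lit 500365), .ofNat (nat_lit 537832), .ofNat (nat_lit 521722), .ofNat (nat_lit 559189)⟩⟩, [⟨nat_lit 0, nat_lit 100, nat_lit 98, nat_lit 64, nat_lit 127744340⟩, ⟨nat_lit 16, nat_lit 100, nat_lit 96, nat_lit 82, nat_lit 319995⟩, ⟨nat_lit 11, nat_lit 100, nat_lit 90, nat_lit 59, nat_lit 41654181⟩]⟩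
noncomputable def p045_l45 : Lf2 := ⟨nat_lit 0, nat_lit 5, [nat_lit 4, nat_lit 5, nat_lit 5, nat_lit 20], false, nat_lit 280, nat_lit 300, nat_lit 0, nat_lit 300, ⟨nat_lit 558, nat_lit 442, nat_lit 0, nat_lit 6, nat_lit 124, nat_lit 442, nat_lit 213, nat_lit 0, nat_lit 0, nat_lit 0, nat_lit 0, nat_lit 0, nat_lit 46611347, nat_lit 6133937, nat_lit 14254716, nat_lit 4274551, false, false⟩,
 nat_lit 0, nat_lit 0, nat_lit 7333, nat_lit 0, nat_lit 336, nat_lit 4366, nat_lit 0, nat_lit 0, nat_lit 413, nat_lit 985, nat_lit 0, nat_lit 0, nat_lit 0, nat_lit 0, nat_lit 0, nat_lit 176800, nat_lit 0, nat_lit 0, [(nat_lit 9, [(nat_lit 1, nat_lit 442)])],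
 ⟨p045_k14, nat_lit 0, nat_lit 0, nat_lit 0, nat_lit 0, nat_lit 0, [nat_lit 3810506240, nat_lit 4752857600, nat_lit 5764541600], [], [nat_lit 15874379751, nat_lit 16250731676, nat_lit 16460912836, nat_lit 16815364416, nat_lit 16663462169, nat_lit 17032475886, nat_lit 17218978532, nat_lit 17580964592], nat_lit 0, nat_lit 0, nat_lit 0, nat_lit 0, nat_lit 0, nat_lit 0, [], [nat_lit 9, nat_lit 40, nat_lit 40, nat_lit 80]⟩, ⟨p045_k21, nat_lit 0, nat_lit 0, nat_lit 0, nat_lit 0, nat_lit 170496, [nat_lit 2615904000, nat_lit 3487500000, nat_lit 4446144000], [], [nat_lit 17751187826, nat_lit 17183601277, nat_lit 13696416389, nat_lit 13136413582, nat_lit 12558127500, nat_lit 12674387013, nat_lit 11991684613, nat_lit 12092415584], nat_lit 1271250, nat_lit 1271250, nat_lit 254650, nat_lit 490000, nat_lit 0, nat_lit 2118750, [nat_lit 1100000, nat_lit 1442500, nat_lit 1271250], [nat_lit 9, nat_lit 40, nat_lit 40, nat_lit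 80]⟩,
 ⟨nat_lit 5477, nat_lit 5701, ⟨.ofNat (nat_lit 270156), .ofNat (nat_lit 339203), .ofNat (nat_lit 275491), .ofNat (nat_lit 344538), .ofNat (nat_lit 277170), .ofNat (nat_lit 344610), .ofNat (nat_lit 282509), .ofNat (nat_lit 349949)⟩, ⟨.ofNat (nat_lit 504043), .ofNat (nat_lit 542402), .ofNat (nat_lit 525385), .ofNat (nat_lit 563744), .ofNat (nat_lit 500365), .ofNat (nat_lit 537832), .ofNat (nat_lit 521722), .ofNat (nat_lit 559189)⟩⟩, [⟨nat_lit 0, nat_lit 100, nat_lit 99, nat_lit 67, nat_lit 401265470⟩, ⟨nat_lit 4, nat_lit 96, nat_lit 100, nat_lit 82, nat_lit 101334855⟩, ⟨nat_lit 23, nat_lit 95, nat_lit 100, nat_lit 77, nat_lit 22216454⟩]⟩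
noncomputable def p045_l46 : Lf2 := ⟨nat_lit 0, nat_lit 5, [nat_lit 4, nat_lit 5, nat_lit 5, nat_lit 20], false, nat_lit 280, nat_lit 300, nat_lit 0, nat_lit 160, ⟨nat_lit 1000, nat_lit 0, nat_lit 0, nat_lit 0, nat_lit 0, nat_lit 0, nat_lit 0, nat_lit 0, nat_lit 0, nat_lit 0, nat_lit 0, nat_lit 0, nat_lit 0, nat_lit 0, nat_lit 0, nat_lit 0, false, false⟩,
 nat_lit 0, nat_lit 0, nat_lit 100000, nat_lit 0, nat_lit 42564, nat_lit 60902, nat_lit 0, nat_lit 2597, nat_lit 0, nat_lit 21422, nat_lit 2602, nat_lit 0, nat_lit 0, nat_lit 0, nat_lit 0, nat_lit 0, nat_lit 0, nat_lit 0, [],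
 ⟨p045_k13, nat_lit 0, nat_lit 0, nat_lit 0, nat_lit 0, nat_lit 0, [nat_lit 46240000001, nat_lit 70296000000], [], [nat_lit 41796832038, nat_lit 44679806714, nat_lit 32353586055, nat_lit 35127481817, nat_lit 49306075037, nat_lit 52512289205, nat_lit 38749476366, nat_lit 41273173565], nat_lit 0, nat_lit 0, nat_lit 0, nat_lit 0, nat_lit 0, nat_lit 0, [], [nat_lit 39, nat_lit 40, nat_lit 40, nat_lit 80]⟩, ⟨p045_k13, nat_lit 0, nat_lit 0, nat_lit 0, nat_lit 0, nat_lit 214275, [nat_lit 46320000000, nat_lit 70416000000], [], [nat_lit 52194175137, nat_lit 59603595103, nat_lit 36432885218, nat_lit 43617772056, nat_lit 22184726207, nat_lit 7678125596, nat_lit 28207722202, nat_lit 13859028296], nat_lit 1271250, nat_lit 1271250, nat_lit 279600, nat_lit 490000, nat_lit 0, nat_lit 1100001, [nat_lit 1100000, nat_lit 1785000], [nat_lit 39, nat_lit 40, nat_lit 40, nat_lit 80]⟩,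
 zbF0, [⟨nat_lit 0, nat_lit 100, nat_lit 100, nat_lit 80, nat_lit 1202811121⟩, ⟨nat_lit 4, nat_lit 96, nat_lit 100, nat_lit 82, nat_lit 4275116567⟩]⟩
noncomputable def p045_l47 : Lf2 := ⟨nat_lit 0, nat_lit 5, [nat_lit 4, nat_lit 5, nat_lit 5, nat_lit 20], false, nat_lit 280, nat_lit 300, nat_lit 160, nat_lit 300, ⟨nat_lit 1000, nat_lit 0, nat_lit 0, nat_lit 0, nat_lit 0, nat_lit 0, nat_lit 0, nat_lit 0, nat_lit 0, nat_lit 0, nat_lit 0, nat_lit 0, nat_lit 0, nat_lit 0, nat_lit 0, nat_lit 0, false, false⟩,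
 nat_lit 0, nat_lit 0, nat_lit 12824, nat_lit 0, nat_lit 4996, nat_lit 7809, nat_lit 0, nat_lit 0, nat_lit 119, nat_lit 1563, nat_lit 0, nat_lit 0, nat_lit 0, nat_lit 6121419602612, nat_lit 0, nat_lit 0, nat_lit 0, nat_lit 0, [],
 ⟨p045_k14, nat_lit 0, nat_lit 0, nat_lit 0, nat_lit 0, nat_lit 0, [nat_lit 4688000000, nat_lit 6250000000, nat_lit 7968000000], [], [nat_lit 18963030520, nat_lit 19586936178, nat_lit 18384765606, nat_lit 18991156824, nat_lit 20330574482, nat_lit 21002008988, nat_lit 19712535485, nat_lit 20282799996], nat_lit 0, nat_lit 0, nat_lit 0, nat_lit 0, nat_lit 0, nat_lit 0, [], [nat_lit 9, nat_lit 40, nat_lit 40, nat_lit 80]⟩, ⟨p045_k14, nat_lit 0, nat_lit 0, nat_lit 0, nat_lit 0, nat_lit 214275, [nat_lit 4688000000, nat_lit 6250000000, nat_lit 7968000000], [], [nat_lit 25309098857, nat_lit 23281749704, nat_lit 18874632789, nat_lit 16871397828, nat_lit 22753232618, nat_lit 23361735364, nat_lit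 23296325558, nat_lit 21984237337], nat_lit 1271250, nat_lit 1271250, nat_lit 279600, nat_lit 490000, nat_lit 1100001, nat_lit 2298750, [nat_lit 1100000, nat_lit 1442500, nat_lit 1271250], [nat_lit 9, nat_lit 40, nat_lit 40, nat_lit 80]⟩,
 zbF0, [⟨nat_lit 0, nat_lit 100, nat_lit 100, nat_lit 75, nat_lit 511937484⟩, ⟨nat_lit 16, nat_lit 100, nat_lit 96, nat_lit 82, nat_lit 479538362⟩, ⟨nat_lit 23, nat_lit 95, nat_lit 100, nat_lit 78, nat_lit 176903795⟩]⟩
noncomputable def p045_l48 : Lf2 := ⟨nat_lit 0, nat_lit 5, [nat_lit 4, nat_lit 5, nat_lit 5, nat_lit 20], false, nat_lit 280, nat_lit 300, nat_lit 0, nat_lit 160, ⟨nat_lit 1000, nat_lit 0, nat_lit 0, nat_lit 0, nat_lit 0, nat_lit 0, nat_lit 0, nat_lit 0, nat_lit 0, nat_lit 0, nat_lit 0, nat_lit 0, nat_lit 0, nat_lit 0, nat_lit 0, nat_lit 0, false, false⟩,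
 nat_lit 0, nat_lit 0, nat_lit 100000, nat_lit 0, nat_lit 34370, nat_lit 58208, nat_lit 0, nat_lit 2029, nat_lit 0, nat_lit 21625, nat_lit 3134, nat_lit 0, nat_lit 0, nat_lit 0, nat_lit 0, nat_lit 0, nat_lit 0, nat_lit 0, [],
 ⟨p045_k12, nat_lit 0, nat_lit 0, nat_lit 0, nat_lit 0, nat_lit 0, [nat_lit 37152000000, nat_lit 56664000000], [], [nat_lit 36673400600, nat_lit 41501258680, nat_lit 32034665355, nat_lit 36746590900, nat_lit 42666491700, nat_lit 48015169320, nat_lit 37661384793, nat_lit 42076109730], nat_lit 0, nat_lit 0, nat_lit 0, nat_lit 0, nat_lit 0, nat_lit 0, [], [nat_lit 39, nat_lit 40, nat_lit 40, nat_lit 80]⟩, ⟨p045_k12, nat_lit 0, nat_lit 0, nat_lit 0, nat_lit 0, nat_lit 150790, [nat_lit 54832000000, nat_lit 83184000000], [], [nat_lit 74416634592, nat_lit 77232158484, nat_lit 64940176056, nat_lit 67701168186, nat_lit 20609156480, nat_lit 22410275364, nat_lit 13941111096, nat_lit 15693420958],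 nat_lit 1271250, nat_lit 1271250, nat_lit 230001, nat_lit 356250, nat_lit 0, nat_lit 1100001, [nat_lit 1100000, nat_lit 1785000], [nat_lit 39, nat_lit 40, nat_lit 40, nat_lit 80]⟩,
 zbF0, [⟨nat_lit 0, nat_lit 100, nat_lit 99, nat_lit 66, nat_lit 2137669097⟩, ⟨nat_lit 0, nat_lit 100, nat_lit 97, nat_lit 71, nat_lit 1466375854⟩, ⟨nat_lit 4, nat_lit 93, nat_lit 100, nat_lit 81, nat_lit 3570447312⟩]⟩
noncomputable def p045_l49 : Lf2 := ⟨nat_lit 0, nat_lit 5, [nat_lit 4, nat_lit 5, nat_lit 5, nat_lit 20], false, nat_lit 280, nat_lit 300, nat_lit 160, nat_lit 276, ⟨nat_lit 1000, nat_lit 0, nat_lit 0, nat_lit 0, nat_lit 0, nat_lit 0, nat_lit 0, nat_lit 0, nat_lit 0, nat_lit 0, nat_lit 0, nat_lit 0, nat_lit 0, nat_lit 0, nat_lit 0, nat_lit 0, false, false⟩,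
 nat_lit 0, nat_lit 0, nat_lit 16185, nat_lit 0, nat_lit 10951, nat_lit 9420, nat_lit 0, nat_lit 312, nat_lit 0, nat_lit 1596, nat_lit 0, nat_lit 0, nat_lit 0, nat_lit 0, nat_lit 0, nat_lit 0, nat_lit 0, nat_lit 0, [],
 ⟨p045_k8, nat_lit 0, nat_lit 0, nat_lit 0, nat_lit 0, nat_lit 0, [nat_lit 9680000000, nat_lit 12490000001, nat_lit 15456000000], [], [nat_lit 22096370380, nat_lit 24083049564, nat_lit 20876539817, nat_lit 22816159270, nat_lit 24476720210, nat_lit 26653856336, nat_lit 23125214873, nat_lit 25011176229], nat_lit 0, nat_lit 0, nat_lit 0, nat_lit 0, nat_lit 0, nat_lit 0, [], [nat_lit 9, nat_lit 40, nat_lit 40, nat_lit 80]⟩, ⟨p045_k8, nat_lit 0, nat_lit 0, nat_lit 0, nat_lit 0, nat_lit 150790, [nat_lit 4688000000, nat_lit 6250000000, nat_lit 7968000000], [], [nat_lit 13257471040, nat_lit 13770430860, nat_lit 12344971680, nat_lit 12847528500, nat_lit 20490107615, nat_lit 20861237172, nat_lit 20026798257,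 nat_lit 19810703725], nat_lit 1271250, nat_lit 1271250, nat_lit 230001, nat_lit 356250, nat_lit 1100001, nat_lit 2093250, [nat_lit 1100000, nat_lit 1442500, nat_lit 1271250], [nat_lit 9, nat_lit 40, nat_lit 40, nat_lit 80]⟩,
 zbF0, [⟨nat_lit 0, nat_lit 100, nat_lit 97, nat_lit 71, nat_lit 468163599⟩, ⟨nat_lit 4, nat_lit 93, nat_lit 100, nat_lit 81, nat_lit 596596173⟩, ⟨nat_lit 23, nat_lit 92, nat_lit 100, nat_lit 68, nat_lit 830289789⟩]⟩
noncomputable def p045_l50 : Lf2 := ⟨nat_lit 0, nat_lit 5, [nat_lit 4, nat_lit 5, nat_lit 5, nat_lit 20], false, nat_lit 280, nat_lit 300, nat_lit 0, nat_lit 276, ⟨nat_lit 1000, nat_lit 0, nat_lit 0, nat_lit 0, nat_lit 0, nat_lit 0, nat_lit 0, nat_lit 0, nat_lit 0, nat_lit 0, nat_lit 0, nat_lit 0, nat_lit 0, nat_lit 0, nat_lit 0, nat_lit 0, false, false⟩,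
 nat_lit 0, nat_lit 0, nat_lit 19302, nat_lit 0, nat_lit 6597, nat_lit 11494, nat_lit 0, nat_lit 0, nat_lit 0, nat_lit 735, nat_lit 0, nat_lit 0, nat_lit 0, nat_lit 9095120754306, nat_lit 0, nat_lit 0, nat_lit 0, nat_lit 0, [],
 ⟨p045_k22, nat_lit 0, nat_lit 0, nat_lit 0, nat_lit 0, nat_lit 0, [nat_lit 4688000000, nat_lit 7968000000], [], [nat_lit 19864488736, nat_lit 20952645362, nat_lit 19273623092, nat_lit 20341772690, nat_lit 21492943391, nat_lit 22682416192, nat_lit 20871039413, nat_lit 21869524667], nat_lit 0, nat_lit 0, nat_lit 0, nat_lit 0, nat_lit 0, nat_lit 0, [], [nat_lit 39, nat_lit 40, nat_lit 40, nat_lit 80]⟩, ⟨p045_k22, nat_lit 0, nat_lit 0, nat_lit 0, nat_lit 0, nat_lit 170496, [nat_lit 4688000000, nat_lit 7968000000], [], [nat_lit 31942121901, nat_lit 30445666318, nat_lit 26011758119, nat_lit 24526394246, nat_lit 22294142818, nat_lit 22713651185, nat_lit 20933153374, nat_lit 21344066172],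 nat_lit 1271250, nat_lit 1271250, nat_lit 230001, nat_lit 356250, nat_lit 0, nat_lit 1949250, [nat_lit 1100000, nat_lit 1785000], [nat_lit 39, nat_lit 40, nat_lit 40, nat_lit 80]⟩,
 zbF0, [⟨nat_lit 0, nat_lit 100, nat_lit 100, nat_lit 65, nat_lit 1181730230⟩, ⟨nat_lit 4, nat_lit 95, nat_lit 100, nat_lit 82, nat_lit 678218558⟩]⟩
noncomputable def p045_l51 : Lf2 := ⟨nat_lit 0, nat_lit 5, [nat_lit 4, nat_lit 5, nat_lit 5, nat_lit 20], false, nat_lit 280, nat_lit 300, nat_lit 0, nat_lit 160, ⟨nat_lit 1000, nat_lit 0, nat_lit 0, nat_lit 0, nat_lit 0, nat_lit 0, nat_lit 0, nat_lit 0, nat_lit 0, nat_lit 0, nat_lit 0, nat_lit 0, nat_lit 0, nat_lit 0, nat_lit 0, nat_lit 0, false, false⟩,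
 nat_lit 0, nat_lit 0, nat_lit 100000, nat_lit 0, nat_lit 61358, nat_lit 60902, nat_lit 0, nat_lit 3995, nat_lit 0, nat_lit 16678, nat_lit 2035, nat_lit 0, nat_lit 0, nat_lit 101167910159131, nat_lit 0, nat_lit 0, nat_lit 0, nat_lit 10512453892, [],
 ⟨p045_k13, nat_lit 0, nat_lit 0, nat_lit 0, nat_lit 0, nat_lit 0, [nat_lit 68608000001, nat_lit 103848000000], [], [nat_lit 53848243497, nat_lit 57858688106, nat_lit 48643957410, nat_lit 52597319661, nat_lit 63806530294, nat_lit 68275816846, nat_lit 57796657130, nat_lit 61741698582], nat_lit 0, nat_lit 0, nat_lit 0, nat_lit 0, nat_lit 0, nat_lit 0, [], [nat_lit 39, nat_lit 40, nat_lit 40, nat_lit 80]⟩, ⟨p045_k13, nat_lit 0, nat_lit 0, nat_lit 0, nat_lit 0, nat_lit 214275, [nat_lit 37248000000, nat_lit 56808000000], [], [nat_lit 55213219731, nat_lit 61044048995, nat_lit 49184782796, nat_lit 55049365352, nat_lit 12745880099, nat_lit 1290724036, nat_lit 14447385597,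 nat_lit 0], nat_lit 1271250, nat_lit 1271250, nat_lit 279600, nat_lit 356250, nat_lit 0, nat_lit 1100001, [nat_lit 1100000, nat_lit 1785000], [nat_lit 39, nat_lit 40, nat_lit 40, nat_lit 80]⟩,
 zbF0, [⟨nat_lit 0, nat_lit 100, nat_lit 100, nat_lit 75, nat_lit 5871849471⟩, ⟨nat_lit 4, nat_lit 96, nat_lit 100, nat_lit 82, nat_lit 5529655667⟩]⟩
noncomputable def p045_l52 : Lf2 := ⟨nat_lit 0, nat_lit 5, [nat_lit 4, nat_lit 5, nat_lit 5, nat_lit 20], false, nat_lit 280, nat_lit 300, nat_lit 160, nat_lit 276, ⟨nat_lit 1000, nat_lit 0, nat_lit 0, nat_lit 0, nat_lit 0, nat_lit 0, nat_lit 0, nat_lit 0, nat_lit 0, nat_lit 0, nat_lit 0, nat_lit 0, nat_lit 0, nat_lit 0, nat_lit 0, nat_lit 0, false, false⟩,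
 nat_lit 0, nat_lit 0, nat_lit 16279, nat_lit 0, nat_lit 6618, nat_lit 9914, nat_lit 0, nat_lit 0, nat_lit 0, nat_lit 1945, nat_lit 0, nat_lit 0, nat_lit 0, nat_lit 13870137080013, nat_lit 0, nat_lit 0, nat_lit 0, nat_lit 0, [],
 ⟨p045_k13, nat_lit 0, nat_lit 0, nat_lit 0, nat_lit 0, nat_lit 0, [nat_lit 4688000000, nat_lit 7968000000], [], [nat_lit 19976666222, nat_lit 20698030561, nat_lit 19616287154, nat_lit 20329629860, nat_lit 21572076286, nat_lit 22362466678, nat_lit 21193388267, nat_lit 21860165198], nat_lit 0, nat_lit 0, nat_lit 0, nat_lit 0, nat_lit 0, nat_lit 0, [], [nat_lit 39, nat_lit 40, nat_lit 40, nat_lit 80]⟩, ⟨p045_k13, nat_lit 0, nat_lit 0, nat_lit 0, nat_lit 0, nat_lit 214275, [nat_lit 4688000000, nat_lit 7968000000], [], [nat_lit 24212818646, nat_lit 21638975708, nat_lit 21149464026, nat_lit 18587101500, nat_lit 21159298259, nat_lit 22271501380, nat_lit 20504921006, nat_lit 21429965507],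 nat_lit 1271250, nat_lit 1271250, nat_lit 279600, nat_lit 356250, nat_lit 1100001, nat_lit 2093250, [nat_lit 1100000, nat_lit 1785000], [nat_lit 39, nat_lit 40, nat_lit 40, nat_lit 80]⟩,
 zbF0, [⟨nat_lit 0, nat_lit 100, nat_lit 100, nat_lit 70, nat_lit 988056817⟩, ⟨nat_lit 4, nat_lit 96, nat_lit 100, nat_lit 82, nat_lit 676596878⟩, ⟨nat_lit 23, nat_lit 93, nat_lit 100, nat_lit 71, nat_lit 124425017⟩]⟩
noncomputable def p045_l53 : Lf2 := ⟨nat_lit 2, nat_lit 5, [nat_lit 4, nat_lit 5, nat_lit 5, nat_lit 20], true, nat_lit 280, nat_lit 300, nat_lit 0, nat_lit 300, zbN0,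
 nat_lit 0, nat_lit 0, nat_lit 0, nat_lit 0, nat_lit 0, nat_lit 0, nat_lit 0, nat_lit 0, nat_lit 0, nat_lit 0, nat_lit 0, nat_lit 0, nat_lit 0, nat_lit 0, nat_lit 0, nat_lit 0, nat_lit 0, nat_lit 0, [],
 ⟨p045_k23, nat_lit 0, nat_lit 0, nat_lit 0, nat_lit 0, nat_lit 0, [], [], [], nat_lit 0, nat_lit 0, nat_lit 0, nat_lit 0, nat_lit 0, nat_lit 0, [], [nat_lit 262, nat_lit 40, nat_lit 20, nat_lit 40]⟩, C1.Rw.none,
 zbF0, []⟩
noncomputable def p045_l54 : Lf2 := ⟨nat_lit 0, nat_lit 5, [nat_lit 4, nat_lit 5, nat_lit 5, nat_lit 20], true, nat_lit 280, nat_lit 300, nat_lit 0, nat_lit 300, ⟨nat_lit 0, nat_lit 1000, nat_lit 0, nat_lit 6, nat_lit 122, nat_lit 1000, nat_lit 214, nat_lit 0, nat_lit 0, nat_lit 0, nat_lit 0, nat_lit 0, nat_lit 46646209, nat_lit 6005621, nat_lit 14348170, nat_lit 4260796, false, false⟩,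
 nat_lit 0, nat_lit 0, nat_lit 0, nat_lit 3616, nat_lit 100000, nat_lit 0, nat_lit 0, nat_lit 7170, nat_lit 0, nat_lit 0, nat_lit 0, nat_lit 0, nat_lit 0, nat_lit 0, nat_lit 0, nat_lit 400000, nat_lit 0, nat_lit 0, [(nat_lit 9, [(nat_lit 1, nat_lit 1000)])],
 ⟨p045_k12, nat_lit 0, nat_lit 0, nat_lit 0, nat_lit 0, nat_lit 0, [nat_lit 117462800000, nat_lit 175094800000], [], [nat_lit 80847010000, nat_lit 93633834000, nat_lit 52407089000, nat_lit 64582478000, nat_lit 96312092000, nat_lit 107881967000, nat_lit 67128880500, nat_lit 78149303000], nat_lit 0, nat_lit 0, nat_lit 0, nat_lit 0, nat_lit 0, nat_lit 0, [], [nat_lit 39, nat_lit 40, nat_lit 40, nat_lit 80]⟩, C1.Rw.none,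
 ⟨nat_lit 5477, nat_lit 5917, ⟨.ofNat (nat_lit 249882), .ofNat (nat_lit 328416), .ofNat (nat_lit 271221), .ofNat (nat_lit 349755), .ofNat (nat_lit 264337), .ofNat (nat_lit 339271), .ofNat (nat_lit 285695), .ofNat (nat_lit 360628)⟩, ⟨.ofNat (nat_lit 507691), .ofNat (nat_lit 546958), .ofNat (nat_lit 529030), .ofNat (nat_lit 568297), .ofNat (nat_lit 500365), .ofNat (nat_lit 537832), .ofNat (nat_lit 521722), .ofNat (nat_lit 559189)⟩⟩, [⟨nat_lit 0, nat_lit 100, nat_lit 100, nat_lit 70, nat_lit 2870793906⟩, ⟨nat_lit 0, nat_lit 100, nat_lit 100, nat_lit 60, nat_lit 900724014⟩, ⟨nat_lit 16, nat_lit 100, nat_lit 93, nat_lit 81, nat_lit 71264586⟩]⟩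
noncomputable def p045_l55 : Lf2 := ⟨nat_lit 0, nat_lit 10, [nat_lit 0, nat_lit 5, nat_lit 5, nat_lit 20], false, nat_lit 280, nat_lit 300, nat_lit 0, nat_lit 160, ⟨nat_lit 1000, nat_lit 0, nat_lit 0, nat_lit 0, nat_lit 0, nat_lit 0, nat_lit 0, nat_lit 0, nat_lit 0, nat_lit 0, nat_lit 0, nat_lit 0, nat_lit 0, nat_lit 0, nat_lit 0, nat_lit 0, false, false⟩,
 nat_lit 0, nat_lit 0, nat_lit 26342, nat_lit 14311, nat_lit 6689, nat_lit 15333, nat_lit 0, nat_lit 0, nat_lit 0, nat_lit 4556, nat_lit 0, nat_lit 0, nat_lit 0, nat_lit 0, nat_lit 0, nat_lit 0, nat_lit 0, nat_lit 0, [],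
 ⟨p045_k17, nat_lit 0, nat_lit 0, nat_lit 0, nat_lit 0, nat_lit 0, [nat_lit 4688000000, nat_lit 6250000000, nat_lit 9842000000], [], [nat_lit 19451112820, nat_lit 20913153994, nat_lit 18255857667, nat_lit 19663997066, nat_lit 21166382190, nat_lit 22766332704, nat_lit 19857795979, nat_lit 21174387689], nat_lit 0, nat_lit 0, nat_lit 0, nat_lit 0, nat_lit 0, nat_lit 0, [], [nat_lit 11, nat_lit 40, nat_lit 40, nat_lit 80]⟩, ⟨p045_k17, nat_lit 0, nat_lit 0, nat_lit 0, nat_lit 0, nat_lit 119946, [nat_lit 4688000000, nat_lit 6250000000, nat_lit 9842000000], [], [nat_lit 15529889808, nat_lit 18561554172, nat_lit 10892077926, nat_lit 14148547596, nat_lit 9337346616, nat_lit 5592883400, nat_lit 11774209582, nat_lit 4549207984], nat_lit 1271250, nat_lit 1271250, nat_lit 230001, nat_lit 490000, nat_lit 0, nat_lit 1100001, [nat_lit 1100000, nat_lit 1442500, nat_lit 1271250], [nat_lit 11, nat_lit 40, nat_lit 40, nat_lit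 80]⟩,
 zbF0, [⟨nat_lit 0, nat_lit 100, nat_lit 100, nat_lit 70, nat_lit 1353178593⟩, ⟨nat_lit 4, nat_lit 93, nat_lit 100, nat_lit 81, nat_lit 879231212⟩]⟩
noncomputable def p045_l56 : Lf2 := ⟨nat_lit 0, nat_lit 10, [nat_lit 0, nat_lit 5, nat_lit 5, nat_lit 20], false, nat_lit 280, nat_lit 300, nat_lit 160, nat_lit 276, ⟨nat_lit 1000, nat_lit 0, nat_lit 0, nat_lit 0, nat_lit 0, nat_lit 0, nat_lit 0, nat_lit 0, nat_lit 0, nat_lit 0, nat_lit 0, nat_lit 0, nat_lit 0, nat_lit 0, nat_lit 0, nat_lit 0, false, false⟩,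
 nat_lit 0, nat_lit 0, nat_lit 15956, nat_lit 447, nat_lit 6869, nat_lit 9287, nat_lit 0, nat_lit 0, nat_lit 0, nat_lit 2043, nat_lit 0, nat_lit 0, nat_lit 0, nat_lit 3933407536833, nat_lit 0, nat_lit 0, nat_lit 0, nat_lit 0, [],
 ⟨p045_k17, nat_lit 0, nat_lit 0, nat_lit 0, nat_lit 0, nat_lit 0, [nat_lit 4688000000, nat_lit 6250000000, nat_lit 9842000000], [], [nat_lit 19352001220, nat_lit 21047004916, nat_lit 18728095714, nat_lit 20184494130, nat_lit 21306189990, nat_lit 22930517184, nat_lit 20436746121, nat_lit 22036708551], nat_lit 0, nat_lit 0, nat_lit 0, nat_lit 0, nat_lit 0, nat_lit 0, [], [nat_lit 11, nat_lit 40, nat_lit 40, nat_lit 80]⟩, ⟨p045_k17, nat_lit 0, nat_lit 0, nat_lit 0, nat_lit 0, nat_lit 119946, [nat_lit 4688000000, nat_lit 6250000000, nat_lit 9842000000], [], [nat_lit 14786228783, nat_lit 16567285589, nat_lit 13816172526, nat_lit 15562357471, nat_lit 20910898592, nat_lit 22387299116, nat_lit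 19836254407, nat_lit 21097206450], nat_lit 1271250, nat_lit 1271250, nat_lit 230001, nat_lit 356250, nat_lit 1100001, nat_lit 2093250, [nat_lit 1100000, nat_lit 1442500, nat_lit 1271250], [nat_lit 11, nat_lit 40, nat_lit 40, nat_lit 80]⟩,
 zbF0, [⟨nat_lit 0, nat_lit 100, nat_lit 100, nat_lit 70, nat_lit 598636457⟩, ⟨nat_lit 16, nat_lit 100, nat_lit 93, nat_lit 81, nat_lit 325408184⟩, ⟨nat_lit 23, nat_lit 99, nat_lit 100, nat_lit 77, nat_lit 498556929⟩, ⟨nat_lit 11, nat_lit 100, nat_lit 100, nat_lit 71, nat_lit 101812934⟩]⟩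
noncomputable def p045_l57 : Lf2 := ⟨nat_lit 0, nat_lit 10, [nat_lit 0, nat_lit 5, nat_lit 5, nat_lit 20], false, nat_lit 280, nat_lit 300, nat_lit 160, nat_lit 300, ⟨nat_lit 1000, nat_lit 0, nat_lit 0, nat_lit 0, nat_lit 0, nat_lit 0, nat_lit 0, nat_lit 0, nat_lit 0, nat_lit 0, nat_lit 0, nat_lit 0, nat_lit 0, nat_lit 0, nat_lit 0, nat_lit 0, false, false⟩,
 nat_lit 0, nat_lit 0, nat_lit 14970, nat_lit 0, nat_lit 6869, nat_lit 8713, nat_lit 0, nat_lit 0, nat_lit 0, nat_lit 1919, nat_lit 0, nat_lit 0, nat_lit 0, nat_lit 0, nat_lit 0, nat_lit 0, nat_lit 0, nat_lit 0, [],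
 ⟨p045_k17, nat_lit 0, nat_lit 0, nat_lit 0, nat_lit 0, nat_lit 0, [nat_lit 4688000000, nat_lit 6250000000, nat_lit 9842000000], [], [nat_lit 18728095714, nat_lit 20184494130, nat_lit 18104190207, nat_lit 19533099986, nat_lit 20436746121, nat_lit 22036708551, nat_lit 19731437149, nat_lit 21142899918], nat_lit 0, nat_lit 0, nat_lit 0, nat_lit 0, nat_lit 0, nat_lit 0, [], [nat_lit 11, nat_lit 40, nat_lit 40, nat_lit 80]⟩, ⟨p045_k17, nat_lit 0, nat_lit 0, nat_lit 0, nat_lit 0, nat_lit 119946, [nat_lit 4688000000, nat_lit 6250000000, nat_lit 9842000000], [], [nat_lit 14723817224, nat_lit 16401848279, nat_lit 13837169481, nat_lit 15482052397, nat_lit 23597612582, nat_lit 23380437173, nat_lit 24573004632, nat_lit 22337827324], nat_lit 1271250, nat_lit 1271250, nat_lit 356250, nat_lit 490000, nat_lit 1100001, nat_lit 2298750, [nat_lit 1100000, nat_lit 1442500, nat_lit 1271250], [nat_lit 11, nat_lit 40, nat_lit 40,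 nat_lit 80]⟩,
 zbF0, [⟨nat_lit 0, nat_lit 100, nat_lit 100, nat_lit 80, nat_lit 20535630⟩, ⟨nat_lit 4, nat_lit 93, nat_lit 100, nat_lit 81, nat_lit 319221997⟩, ⟨nat_lit 23, nat_lit 97, nat_lit 100, nat_lit 82, nat_lit 589478238⟩]⟩
noncomputable def b_V_600_600_10_22 : St := ⟨true, nat_lit 0, nat_lit 1, nat_lit 1, nat_lit 80, nat_lit 260, nat_lit 280, nat_lit 260, nat_lit 280, nat_lit 40, nat_lit 80, nat_lit 60, nat_lit 80, nat_lit 280, nat_lit 300, nat_lit 0, nat_lit 300, nat_lit 0, nat_lit 40, nat_lit 300, nat_lit 460, nat_lit 400, nat_lit 800⟩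
theorem d_V_600_600_10_22 (h : EB TB.env) : Dead b_V_600_600_10_22 := chkB_sound0 h (T :=
(.spl (nat_lit 6) (nat_lit 20)
(.spl (nat_lit 6) (nat_lit 8)
(.spl (nat_lit 5) (nat_lit 160)
(.leaf p045_l33)
(.spl (nat_lit 5) (nat_lit 240)
(.spl (nat_lit 1) (nat_lit 270)
(.leaf p045_l34)
(.ord (.trZ (nat_lit 0) (nat_lit 100) (nat_lit 100) (nat_lit 70) (nat_lit 48) (.leaf p045_l35))))
(.leaf p045_l36)))
(.spl (nat_lit 7) (nat_lit 380)
(.spl (nat_lit 7) (nat_lit 340)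
(.leaf p045_l37)
(.spl (nat_lit 7) (nat_lit 360)
(.spl (nat_lit 1) (nat_lit 270)
(.leaf p045_l38)
(.ord (.trZ (nat_lit 0) (nat_lit 100) (nat_lit 100) (nat_lit 70) (nat_lit 48) (.leaf p045_l39))))
(.spl (nat_lit 0) (nat_lit 270)
(.ord (.spl (nat_lit 5) (nat_lit 160)
(.leaf p045_l40)
(.spl (nat_lit 2) (nat_lit 60)
(.trX (nat_lit 23) (nat_lit 99) (nat_lit 100) (nat_lit 77) (nat_lit 276) (.leaf p045_l41))
(.leaf p045_l42))))
(.spl (nat_lit 1) (nat_lit 270)
(.spl (nat_lit 1) (nat_lit 265)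
(.spl (nat_lit 5) (nat_lit 160)
(.leaf p045_l43)
(.leaf p045_l44))
(.trZ (nat_lit 0) (nat_lit 100) (nat_lit 99) (nat_lit 67) (nat_lit 44) (.leaf p045_l45)))
(.trZ (nat_lit 0) (nat_lit 100) (nat_lit 100) (nat_lit 70) (nat_lit 48) (.spl (nat_lit 5) (nat_lit 160)
(.leaf p045_l46)
(.leaf p045_l47)))))))
(.spl (nat_lit 7) (nat_lit 420)
(.spl (nat_lit 2) (nat_lit 60)
(.trX (nat_lit 23) (nat_lit 99) (nat_lit 100) (nat_lit 77) (nat_lit 276) (.spl (nat_lit 1) (nat_lit 270)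
(.spl (nat_lit 1) (nat_lit 265)
(.spl (nat_lit 5) (nat_lit 160)
(.leaf p045_l48)
(.leaf p045_l49))
(.ord (.leaf p045_l50)))
(.ord (.trZ (nat_lit 0) (nat_lit 100) (nat_lit 100) (nat_lit 70) (nat_lit 48) (.spl (nat_lit 5) (nat_lit 160)
(.leaf p045_l51)
(.leaf p045_l52))))))
(.leaf p045_l53))
(.leaf p045_l54))))
(.spl (nat_lit 5) (nat_lit 160)
(.leaf p045_l55)
(.spl (nat_lit 2) (nat_lit 60)
(.trX (nat_lit 23) (nat_lit 99) (nat_lit 100) (nat_lit 77) (nat_lit 276) (.leaf p045_l56))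
(.leaf p045_l57))))) (by decide +kernel)
noncomputable def p045_l58 : Lf2 := ⟨nat_lit 0, nat_lit 5, [nat_lit 4, nat_lit 5, nat_lit 5, nat_lit 20], true, nat_lit 300, nat_lit 320, nat_lit 0, nat_lit 256, ⟨nat_lit 0, nat_lit 1000, nat_lit 0, nat_lit 6, nat_lit 111, nat_lit 1000, nat_lit 229, nat_lit 0, nat_lit 0, nat_lit 0, nat_lit 0, nat_lit 0, nat_lit 45962526, nat_lit 5096579, nat_lit 15940895, nat_lit 4234230, false, false⟩,
 nat_lit 0, nat_lit 0, nat_lit 0, nat_lit 1468, nat_lit 0, nat_lit 0, nat_lit 0, nat_lit 0, nat_lit 20000, nat_lit 0, nat_lit 0, nat_lit 0, nat_lit 0, nat_lit 10488038971876, nat_lit 0, nat_lit 250000, nat_lit 0, nat_lit 0, [(nat_lit 9, [(nat_lit 0, nat_lit 1000)])],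
 ⟨p045_k0, nat_lit 0, nat_lit 0, nat_lit 0, nat_lit 0, nat_lit 0, [nat_lit 1558400000, nat_lit 2319600001, nat_lit 2818000000, nat_lit 3370000000], [], [nat_lit 15957914000, nat_lit 16652228000, nat_lit 16310781000, nat_lit 16998578000, nat_lit 16717530000, nat_lit 17392020000, nat_lit 17062230000, nat_lit 17730620000], nat_lit 0, nat_lit 0, nat_lit 0, nat_lit 0, nat_lit 0, nat_lit 0, [], [nat_lit 138, nat_lit 40, nat_lit 20, nat_lit 40]⟩, C1.Rw.none,
 ⟨nat_lit 5477, nat_lit 5917, ⟨.ofNat (nat_lit 228543), .ofNat (nat_lit 267810), .ofNat (nat_lit 271221), .ofNat (nat_lit 310488), .ofNat (nat_lit 242980), .ofNat (nat_lit 280447), .ofNat (nat_lit 285695), .ofNat (nat_lit 323161)⟩, ⟨.ofNat (nat_lit 546958), .ofNat (nat_lit 586223), .ofNat (nat_lit 568297), .ofNat (nat_lit 607556), .ofNat (nat_lit 537832), .ofNat (nat_lit 575297), .ofNat (nat_lit 559189), .ofNat (nat_lit 596648)⟩⟩, [⟨nat_lit 0, nat_lit 100, nat_lit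 100, nat_lit 80, nat_lit 95207300⟩]⟩
noncomputable def p045_l59 : Lf2 := ⟨nat_lit 0, nat_lit 5, [nat_lit 4, nat_lit 5, nat_lit 5, nat_lit 20], true, nat_lit 300, nat_lit 320, nat_lit 0, nat_lit 160, ⟨nat_lit 0, nat_lit 1000, nat_lit 0, nat_lit 6, nat_lit 106, nat_lit 1000, nat_lit 229, nat_lit 0, nat_lit 0, nat_lit 0, nat_lit 0, nat_lit 0, nat_lit 46207694, nat_lit 4810039, nat_lit 15982267, nat_lit 4181830, false, false⟩,
 nat_lit 0, nat_lit 0, nat_lit 0, nat_lit 3165, nat_lit 0, nat_lit 0, nat_lit 0, nat_lit 0, nat_lit 366, nat_lit 0, nat_lit 0, nat_lit 0, nat_lit 0, nat_lit 0, nat_lit 0, nat_lit 400000, nat_lit 0, nat_lit 0, [(nat_lit 9, [(nat_lit 1, nat_lit 1000)])],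
 ⟨p045_k8, nat_lit 0, nat_lit 0, nat_lit 0, nat_lit 0, nat_lit 0, [nat_lit 2702720000, nat_lit 2862800001, nat_lit 3030799999], [], [nat_lit 15970969000, nat_lit 16665055000, nat_lit 16344283500, nat_lit 17031412500, nat_lit 16717530000, nat_lit 17392020000, nat_lit 17082595000, nat_lit 17750552000], nat_lit 0, nat_lit 0, nat_lit 0, nat_lit 0, nat_lit 0, nat_lit 0, [], [nat_lit 9, nat_lit 40, nat_lit 40, nat_lit 80]⟩, C1.Rw.none,
 ⟨nat_lit 5477, nat_lit 5917, ⟨.ofNat (nat_lit 228543), .ofNat (nat_lit 267810), .ofNat (nat_lit 249882), .ofNat (nat_lit 289149), .ofNat (nat_lit 242980), .ofNat (nat_lit 280447), .ofNat (nat_lit 264337), .ofNat (nat_lit 301804)⟩, ⟨.ofNat (nat_lit 546958), .ofNat (nat_lit 586223), .ofNat (nat_lit 568297), .ofNat (nat_lit 607556), .ofNat (nat_lit 537832), .ofNat (nat_lit 575297), .ofNat (nat_lit 559189), .ofNat (nat_lit 596648)⟩⟩, [⟨nat_lit 16, nat_lit 100, nat_lit 93, nat_lit 81,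 nat_lit 55325082⟩]⟩
noncomputable def p045_l60 : Lf2 := ⟨nat_lit 0, nat_lit 5, [nat_lit 4, nat_lit 5, nat_lit 5, nat_lit 20], false, nat_lit 300, nat_lit 320, nat_lit 0, nat_lit 160, ⟨nat_lit 1000, nat_lit 0, nat_lit 0, nat_lit 0, nat_lit 0, nat_lit 0, nat_lit 0, nat_lit 0, nat_lit 0, nat_lit 0, nat_lit 0, nat_lit 0, nat_lit 0, nat_lit 0, nat_lit 0, nat_lit 0, false, false⟩,
 nat_lit 0, nat_lit 0, nat_lit 31703, nat_lit 0, nat_lit 6453, nat_lit 16783, nat_lit 0, nat_lit 0, nat_lit 0, nat_lit 2368, nat_lit 0, nat_lit 0, nat_lit 0, nat_lit 0, nat_lit 0, nat_lit 0, nat_lit 0, nat_lit 0, [],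
 ⟨p045_k8, nat_lit 0, nat_lit 0, nat_lit 0, nat_lit 0, nat_lit 0, [nat_lit 4688000000, nat_lit 6250000000, nat_lit 7968000000], [], [nat_lit 21212036592, nat_lit 22551892313, nat_lit 20617751519, nat_lit 21933703883, nat_lit 22913197266, nat_lit 24364538124, nat_lit 22217618187, nat_lit 23517262544], nat_lit 0, nat_lit 0, nat_lit 0, nat_lit 0, nat_lit 0, nat_lit 0, [], [nat_lit 9, nat_lit 40, nat_lit 40, nat_lit 80]⟩, ⟨p045_k7, nat_lit 0, nat_lit 0, nat_lit 0, nat_lit 0, nat_lit 194747, [nat_lit 4688000000, nat_lit 6250000000, nat_lit 9842000000], [], [nat_lit 25972564664, nat_lit 25219032084, nat_lit 21076589476, nat_lit 22672957197, nat_lit 22561629720, nat_lit 18553110868, nat_lit 23524935884, nat_lit 19543613884], nat_lit 1271250, nat_lit 1271250, nat_lit 230001, nat_lit 356250, nat_lit 0, nat_lit 1100001, [nat_lit 1100000, nat_lit 1442500, nat_lit 1271250], [nat_lit 11, nat_lit 40, nat_lit 40, nat_lit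 80]⟩,
 zbF0, [⟨nat_lit 16, nat_lit 100, nat_lit 93, nat_lit 81, nat_lit 1755054507⟩]⟩
noncomputable def p045_l61 : Lf2 := ⟨nat_lit 0, nat_lit 5, [nat_lit 4, nat_lit 5, nat_lit 5, nat_lit 20], false, nat_lit 300, nat_lit 320, nat_lit 0, nat_lit 160, ⟨nat_lit 1000, nat_lit 0, nat_lit 0, nat_lit 0, nat_lit 0, nat_lit 0, nat_lit 0, nat_lit 0, nat_lit 0, nat_lit 0, nat_lit 0, nat_lit 0, nat_lit 0, nat_lit 0, nat_lit 0, nat_lit 0, false, false⟩,
 nat_lit 0, nat_lit 0, nat_lit 24188, nat_lit 0, nat_lit 6453, nat_lit 13437, nat_lit 0, nat_lit 0, nat_lit 0, nat_lit 3527, nat_lit 0, nat_lit 0, nat_lit 0, nat_lit 0, nat_lit 0, nat_lit 0, nat_lit 0, nat_lit 0, [],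
 ⟨p045_k8, nat_lit 0, nat_lit 0, nat_lit 0, nat_lit 0, nat_lit 0, [nat_lit 4688000000, nat_lit 6250000000, nat_lit 7968000000], [], [nat_lit 21212036592, nat_lit 22551892313, nat_lit 20617751519, nat_lit 21933703883, nat_lit 22913197266, nat_lit 24364538124, nat_lit 22217618187, nat_lit 23517262544], nat_lit 0, nat_lit 0, nat_lit 0, nat_lit 0, nat_lit 0, nat_lit 0, [], [nat_lit 9, nat_lit 40, nat_lit 40, nat_lit 80]⟩, ⟨p045_k24, nat_lit 0, nat_lit 0, nat_lit 0, nat_lit 0, nat_lit 231350, [nat_lit 4688000000, nat_lit 6250000000, nat_lit 7968000000], [], [nat_lit 22995289423, nat_lit 23870778280, nat_lit 18900484133, nat_lit 21151548511, nat_lit 20240753252, nat_lit 17031406424, nat_lit 21134461507, nat_lit 17946889337], nat_lit 1271250, nat_lit 1271250, nat_lit 230001, nat_lit 356250, nat_lit 0, nat_lit 1100001, [nat_lit 1100000, nat_lit 1442500, nat_lit 1271250], [nat_lit 9, nat_lit 40, nat_lit 40, nat_lit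 80]⟩,
 zbF0, [⟨nat_lit 0, nat_lit 100, nat_lit 97, nat_lit 62, nat_lit 342987632⟩, ⟨nat_lit 4, nat_lit 93, nat_lit 100, nat_lit 81, nat_lit 1197615505⟩]⟩
noncomputable def p045_l62 : Lf2 := ⟨nat_lit 0, nat_lit 5, [nat_lit 4, nat_lit 5, nat_lit 5, nat_lit 20], false, nat_lit 300, nat_lit 320, nat_lit 160, nat_lit 200, ⟨nat_lit 1000, nat_lit 0, nat_lit 0, nat_lit 0, nat_lit 0, nat_lit 0, nat_lit 0, nat_lit 0, nat_lit 0, nat_lit 0, nat_lit 0, nat_lit 0, nat_lit 0, nat_lit 0, nat_lit 0, nat_lit 0, false, false⟩,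
 nat_lit 0, nat_lit 0, nat_lit 36629, nat_lit 0, nat_lit 6453, nat_lit 19391, nat_lit 0, nat_lit 0, nat_lit 0, nat_lit 1949, nat_lit 0, nat_lit 0, nat_lit 0, nat_lit 0, nat_lit 0, nat_lit 0, nat_lit 0, nat_lit 0, [],
 ⟨p045_k8, nat_lit 0, nat_lit 0, nat_lit 0, nat_lit 0, nat_lit 0, [nat_lit 4688000000, nat_lit 6250000000, nat_lit 7968000000], [], [nat_lit 21212036592, nat_lit 22551892313, nat_lit 20617751519, nat_lit 21933703883, nat_lit 22913197266, nat_lit 24364538124, nat_lit 22217618187, nat_lit 23517262544], nat_lit 0, nat_lit 0, nat_lit 0, nat_lit 0, nat_lit 0, nat_lit 0, [], [nat_lit 9, nat_lit 40, nat_lit 40, nat_lit 80]⟩, ⟨p045_k7, nat_lit 0, nat_lit 0, nat_lit 0, nat_lit 0, nat_lit 245430, [nat_lit 4688000000, nat_lit 6250000000, nat_lit 9842000000], [], [nat_lit 19784463928, nat_lit 10810478244, nat_lit 9835756250, nat_lit 8372199643, nat_lit 10499466572, nat_lit 13195960239, nat_lit 8073865072,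 nat_lit 10710329917], nat_lit 1271250, nat_lit 1271250, nat_lit 230001, nat_lit 356250, nat_lit 1100001, nat_lit 1442500, [nat_lit 1100000, nat_lit 1442500, nat_lit 1271250], [nat_lit 11, nat_lit 40, nat_lit 40, nat_lit 80]⟩,
 zbF0, [⟨nat_lit 0, nat_lit 100, nat_lit 97, nat_lit 59, nat_lit 125561755⟩, ⟨nat_lit 4, nat_lit 93, nat_lit 100, nat_lit 81, nat_lit 1971960052⟩]⟩
noncomputable def p045_l63 : Lf2 := ⟨nat_lit 0, nat_lit 5, [nat_lit 4, nat_lit 5, nat_lit 5, nat_lit 20], false, nat_lit 300, nat_lit 320, nat_lit 200, nat_lit 256, ⟨nat_lit 1000, nat_lit 0, nat_lit 0, nat_lit 0, nat_lit 0, nat_lit 0, nat_lit 0, nat_lit 0, nat_lit 0, nat_lit 0, nat_lit 0, nat_lit 0, nat_lit 0, nat_lit 0, nat_lit 0, nat_lit 0, false, false⟩,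
 nat_lit 0, nat_lit 0, nat_lit 27466, nat_lit 0, nat_lit 6453, nat_lit 14540, nat_lit 0, nat_lit 0, nat_lit 0, nat_lit 1807, nat_lit 0, nat_lit 0, nat_lit 0, nat_lit 0, nat_lit 0, nat_lit 0, nat_lit 0, nat_lit 0, [],
 ⟨p045_k12, nat_lit 0, nat_lit 0, nat_lit 0, nat_lit 0, nat_lit 0, [nat_lit 4688000000, nat_lit 7968000000], [], [nat_lit 21212036592, nat_lit 22551892313, nat_lit 20617751519, nat_lit 21933703883, nat_lit 22913197266, nat_lit 24364538124, nat_lit 22217618187, nat_lit 23517262544], nat_lit 0, nat_lit 0, nat_lit 0, nat_lit 0, nat_lit 0, nat_lit 0, [], [nat_lit 39, nat_lit 40, nat_lit 40, nat_lit 80]⟩, ⟨p045_k25, nat_lit 0, nat_lit 0, nat_lit 0, nat_lit 0, nat_lit 245430, [nat_lit 4688000000, nat_lit 7968000000, nat_lit 9842000000], [], [nat_lit 13159024180, nat_lit 15338299280, nat_lit 11434392180, nat_lit 13667818170, nat_lit 17637822049, nat_lit 19755773209, nat_lit 15925523736, nat_lit 17998248105],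 nat_lit 1271250, nat_lit 1271250, nat_lit 230001, nat_lit 356250, nat_lit 1271250, nat_lit 1271250, [nat_lit 1100000, nat_lit 1785000, nat_lit 1271250], [nat_lit 29, nat_lit 40, nat_lit 40, nat_lit 80]⟩,
 zbF0, [⟨nat_lit 0, nat_lit 100, nat_lit 96, nat_lit 69, nat_lit 383927327⟩, ⟨nat_lit 4, nat_lit 93, nat_lit 100, nat_lit 81, nat_lit 1641298177⟩, ⟨nat_lit 23, nat_lit 84, nat_lit 100, nat_lit 67, nat_lit 1075534356⟩]⟩
noncomputable def p045_l64 : Lf2 := ⟨nat_lit 0, nat_lit 5, [nat_lit 4, nat_lit 5, nat_lit 5, nat_lit 20], false, nat_lit 300, nat_lit 320, nat_lit 0, nat_lit 256, ⟨nat_lit 1000, nat_lit 0, nat_lit 0, nat_lit 0, nat_lit 0, nat_lit 0, nat_lit 0, nat_lit 0, nat_lit 0, nat_lit 0, nat_lit 0, nat_lit 0, nat_lit 0, nat_lit 0, nat_lit 0, nat_lit 0, false, false⟩,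
 nat_lit 0, nat_lit 0, nat_lit 0, nat_lit 12700, nat_lit 6395, nat_lit 0, nat_lit 0, nat_lit 0, nat_lit 0, nat_lit 1689, nat_lit 0, nat_lit 505, nat_lit 0, nat_lit 7168262676425, nat_lit 0, nat_lit 0, nat_lit 0, nat_lit 0, [],
 ⟨p045_k12, nat_lit 0, nat_lit 0, nat_lit 0, nat_lit 0, nat_lit 0, [nat_lit 4688000000, nat_lit 7968000000], [], [nat_lit 21235395280, nat_lit 22568908295, nat_lit 20649788674, nat_lit 21959553845, nat_lit 22857795460, nat_lit 24301868660, nat_lit 22241289205, nat_lit 23465430960], nat_lit 0, nat_lit 0, nat_lit 0, nat_lit 0, nat_lit 0, nat_lit 0, [], [nat_lit 39, nat_lit 40, nat_lit 40, nat_lit 80]⟩, ⟨p045_k12, nat_lit 0, nat_lit 0, nat_lit 0, nat_lit 0, nat_lit 266778, [nat_lit 4688000000, nat_lit 7968000000], [], [nat_lit 9669162000, nat_lit 9669162000, nat_lit 9669162000, nat_lit 9669162000, nat_lit 14341016000, nat_lit 14697133400, nat_lit 14846012000, nat_lit 15084651901], nat_lit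 1271250, nat_lit 1271250, nat_lit 230001, nat_lit 356250, nat_lit 0, nat_lit 1808000, [nat_lit 1100000, nat_lit 1785000], [nat_lit 39, nat_lit 40, nat_lit 40, nat_lit 80]⟩,
 zbF0, [⟨nat_lit 16, nat_lit 100, nat_lit 85, nat_lit 84, nat_lit 778738685⟩, ⟨nat_lit 23, nat_lit 84, nat_lit 100, nat_lit 67, nat_lit 15064523⟩]⟩
noncomputable def p045_l65 : Lf2 := ⟨nat_lit 0, nat_lit 5, [nat_lit 4, nat_lit 5, nat_lit 5, nat_lit 20], false, nat_lit 300, nat_lit 320, nat_lit 0, nat_lit 256, ⟨nat_lit 79, nat_lit 921, nat_lit 0, nat_lit 6, nat_lit 113, nat_lit 921, nat_lit 229, nat_lit 0, nat_lit 0, nat_lit 0, nat_lit 0, nat_lit 0, nat_lit 45838767, nat_lit 5241587, nat_lit 15919646, nat_lit 4260091, false, false⟩,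
 nat_lit 0, nat_lit 0, nat_lit 2347, nat_lit 0, nat_lit 0, nat_lit 1366, nat_lit 0, nat_lit 0, nat_lit 376, nat_lit 0, nat_lit 0, nat_lit 0, nat_lit 0, nat_lit 5607402366755, nat_lit 0, nat_lit 368400, nat_lit 0, nat_lit 0, [(nat_lit 9, [(nat_lit 1, nat_lit 921)])],
 ⟨p045_k8, nat_lit 0, nat_lit 0, nat_lit 0, nat_lit 0, nat_lit 0, [nat_lit 2859557121, nat_lit 3130388800, nat_lit 3417757800], [], [nat_lit 15970969000, nat_lit 16665055000, nat_lit 16344283500, nat_lit 17031412500, nat_lit 16717530000, nat_lit 17392020000, nat_lit 17082595000, nat_lit 17750552000], nat_lit 0, nat_lit 0, nat_lit 0, nat_lit 0, nat_lit 0, nat_lit 0, [], [nat_lit 9, nat_lit 40, nat_lit 40, nat_lit 80]⟩, ⟨p045_k8, nat_lit 0, nat_lit 0, nat_lit 0, nat_lit 0, nat_lit 266778, [nat_lit 370352000, nat_lit 493750000, nat_lit 629472000], [], [nat_lit 2616727424, nat_lit 2477862094, nat_lit 1971370254, nat_lit 2190059216, nat_lit 2100208308,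 nat_lit 1785964719, nat_lit 2202318281, nat_lit 1888513658], nat_lit 1271250, nat_lit 1271250, nat_lit 230001, nat_lit 356250, nat_lit 0, nat_lit 1808000, [nat_lit 1100000, nat_lit 1442500, nat_lit 1271250], [nat_lit 9, nat_lit 40, nat_lit 40, nat_lit 80]⟩,
 ⟨nat_lit 5477, nat_lit 5917, ⟨.ofNat (nat_lit 249882), .ofNat (nat_lit 289149), .ofNat (nat_lit 260552), .ofNat (nat_lit 299818), .ofNat (nat_lit 264337), .ofNat (nat_lit 301804), .ofNat (nat_lit 275016), .ofNat (nat_lit 312483)⟩, ⟨.ofNat (nat_lit 546958), .ofNat (nat_lit 586223), .ofNat (nat_lit 568297), .ofNat (nat_lit 607556), .ofNat (nat_lit 537832), .ofNat (nat_lit 575297), .ofNat (nat_lit 559189), .ofNat (nat_lit 596648)⟩⟩, [⟨nat_lit 0, nat_lit 100, nat_lit 99, nat_lit 67, nat_lit 23294306⟩, ⟨nat_lit 4, nat_lit 93, nat_lit 100, nat_lit 81, nat_lit 10521195⟩]⟩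
noncomputable def p045_l66 : Lf2 := ⟨nat_lit 0, nat_lit 2, [nat_lit 10, nat_lit 5, nat_lit 5, nat_lit 20], false, nat_lit 300, nat_lit 320, nat_lit 0, nat_lit 160, ⟨nat_lit 1000, nat_lit 0, nat_lit 0, nat_lit 0, nat_lit 0, nat_lit 0, nat_lit 0, nat_lit 0, nat_lit 0, nat_lit 0, nat_lit 0, nat_lit 0, nat_lit 0, nat_lit 0, nat_lit 0, nat_lit 0, false, false⟩,
 nat_lit 0, nat_lit 0, nat_lit 100000, nat_lit 0, nat_lit 6549, nat_lit 58208, nat_lit 0, nat_lit 0, nat_lit 0, nat_lit 25635, nat_lit 2913, nat_lit 0, nat_lit 0, nat_lit 160964897707939, nat_lit 0, nat_lit 0, nat_lit 0, nat_lit 922650912, [],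
 ⟨p045_k3, nat_lit 0, nat_lit 0, nat_lit 0, nat_lit 0, nat_lit 0, [nat_lit 4688000000, nat_lit 6250000000], [], [nat_lit 21173373936, nat_lit 21848550933, nat_lit 20564724503, nat_lit 21227821121, nat_lit 23005368978, nat_lit 23736817935, nat_lit 22178438571, nat_lit 22881998882], nat_lit 0, nat_lit 0, nat_lit 0, nat_lit 0, nat_lit 0, nat_lit 0, [], [nat_lit 31, nat_lit 40, nat_lit 40, nat_lit 80]⟩, ⟨p045_k3, nat_lit 0, nat_lit 0, nat_lit 0, nat_lit 0, nat_lit 205382, [nat_lit 51296000000, nat_lit 64510000000], [], [nat_lit 55677315641, nat_lit 62119831425, nat_lit 46425993057, nat_lit 52743627989, nat_lit 6207926640, nat_lit 10834313560, nat_lit 0, nat_lit 4504027848], nat_lit 1271250, nat_lit 1271250, nat_lit 230001, nat_lit 356250, nat_lit 0, nat_lit 1100001, [nat_lit 1100000, nat_lit 1442500], [nat_lit 31, nat_lit 40, nat_lit 40, nat_lit 80]⟩,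
 zbF0, [⟨nat_lit 0, nat_lit 100, nat_lit 100, nat_lit 70, nat_lit 2415825586⟩, ⟨nat_lit 4, nat_lit 91, nat_lit 100, nat_lit 80, nat_lit 5594632423⟩]⟩
noncomputable def p045_l67 : Lf2 := ⟨nat_lit 0, nat_lit 2, [nat_lit 10, nat_lit 5, nat_lit 5, nat_lit 20], false, nat_lit 300, nat_lit 320, nat_lit 160, nat_lit 256, ⟨nat_lit 1000, nat_lit 0, nat_lit 0, nat_lit 0, nat_lit 0, nat_lit 0, nat_lit 0, nat_lit 0, nat_lit 0, nat_lit 0, nat_lit 0, nat_lit 0, nat_lit 0, nat_lit 0, nat_lit 0, nat_lit 0, false, false⟩,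
 nat_lit 0, nat_lit 0, nat_lit 100000, nat_lit 0, nat_lit 6723, nat_lit 58208, nat_lit 0, nat_lit 0, nat_lit 0, nat_lit 24951, nat_lit 3174, nat_lit 0, nat_lit 0, nat_lit 0, nat_lit 0, nat_lit 0, nat_lit 0, nat_lit 0, [],
 ⟨p045_k3, nat_lit 0, nat_lit 0, nat_lit 0, nat_lit 0, nat_lit 0, [nat_lit 4688000000, nat_lit 6250000000], [], [nat_lit 21192790330, nat_lit 21995067829, nat_lit 20468613036, nat_lit 21140990445, nat_lit 23172430206, nat_lit 23914352745, nat_lit 22295871397, nat_lit 23027209451], nat_lit 0, nat_lit 0, nat_lit 0, nat_lit 0, nat_lit 0, nat_lit 0, [], [nat_lit 31, nat_lit 40, nat_lit 40, nat_lit 80]⟩, ⟨p045_k3, nat_lit 0, nat_lit 0, nat_lit 0, nat_lit 0, nat_lit 205382, [nat_lit 55472000000, nat_lit 69730000000], [], [nat_lit 13637275728, nat_lit 18263662648, nat_lit 7429349088, nat_lit 11933376936, nat_lit 36051969949, nat_lit 41325000005, nat_lit 36896184466, nat_lit 31566264563], nat_lit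 1271250, nat_lit 1271250, nat_lit 230001, nat_lit 356250, nat_lit 1100001, nat_lit 1922000, [nat_lit 1100000, nat_lit 1442500], [nat_lit 31, nat_lit 40, nat_lit 40, nat_lit 80]⟩,
 zbF0, [⟨nat_lit 16, nat_lit 100, nat_lit 91, nat_lit 80, nat_lit 5594632423⟩, ⟨nat_lit 23, nat_lit 90, nat_lit 100, nat_lit 74, nat_lit 4231645509⟩]⟩
noncomputable def p045_l68 : Lf2 := ⟨nat_lit 0, nat_lit 5, [nat_lit 4, nat_lit 5, nat_lit 5, nat_lit 20], false, nat_lit 300, nat_lit 320, nat_lit 0, nat_lit 256, ⟨nat_lit 1000, nat_lit 0, nat_lit 0, nat_lit 0, nat_lit 0, nat_lit 0, nat_lit 0, nat_lit 0, nat_lit 0, nat_lit 0, nat_lit 0, nat_lit 0, nat_lit 0, nat_lit 0, nat_lit 0, nat_lit 0, false, false⟩,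
 nat_lit 0, nat_lit 0, nat_lit 100000, nat_lit 0, nat_lit 6549, nat_lit 58208, nat_lit 0, nat_lit 0, nat_lit 0, nat_lit 12820, nat_lit 3059, nat_lit 0, nat_lit 0, nat_lit 153657918801040, nat_lit 0, nat_lit 0, nat_lit 0, nat_lit 0, [],
 ⟨p045_k8, nat_lit 0, nat_lit 0, nat_lit 0, nat_lit 0, nat_lit 0, [nat_lit 4688000000, nat_lit 6250000000, nat_lit 7968000000], [], [nat_lit 21173373936, nat_lit 21848550933, nat_lit 20564724503, nat_lit 21227821121, nat_lit 23005368978, nat_lit 23736817935, nat_lit 22178438571, nat_lit 22881998882], nat_lit 0, nat_lit 0, nat_lit 0, nat_lit 0, nat_lit 0, nat_lit 0, [], [nat_lit 9, nat_lit 40, nat_lit 40, nat_lit 80]⟩, ⟨p045_k8, nat_lit 0, nat_lit 0, nat_lit 0, nat_lit 0, nat_lit 121857, [nat_lit 53632000000, nat_lit 67430000000, nat_lit 81384000000], [], [nat_lit 78421555520, nat_lit 86772173456, nat_lit 68053426056, nat_lit 73581210968, nat_lit 38020662442, nat_lit 41327972338,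 nat_lit 30199177645, nat_lit 33107783067], nat_lit 1271250, nat_lit 1271250, nat_lit 230001, nat_lit 356250, nat_lit 0, nat_lit 1808000, [nat_lit 1100000, nat_lit 1442500, nat_lit 1271250], [nat_lit 9, nat_lit 40, nat_lit 40, nat_lit 80]⟩,
 zbF0, [⟨nat_lit 0, nat_lit 100, nat_lit 100, nat_lit 70, nat_lit 1677032175⟩, ⟨nat_lit 16, nat_lit 100, nat_lit 91, nat_lit 80, nat_lit 5721570679⟩, ⟨nat_lit 23, nat_lit 84, nat_lit 100, nat_lit 67, nat_lit 1442287765⟩]⟩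
noncomputable def p045_l69 : Lf2 := ⟨nat_lit 0, nat_lit 2, [nat_lit 10, nat_lit 5, nat_lit 5, nat_lit 20], false, nat_lit 300, nat_lit 308, nat_lit 0, nat_lit 160, ⟨nat_lit 1000, nat_lit 0, nat_lit 0, nat_lit 0, nat_lit 0, nat_lit 0, nat_lit 0, nat_lit 0, nat_lit 0, nat_lit 0, nat_lit 0, nat_lit 0, nat_lit 0, nat_lit 0, nat_lit 0, nat_lit 0, false, false⟩,
 nat_lit 0, nat_lit 0, nat_lit 100000, nat_lit 0, nat_lit 6549, nat_lit 58208, nat_lit 0, nat_lit 0, nat_lit 0, nat_lit 23668, nat_lit 2938, nat_lit 0, nat_lit 0, nat_lit 0, nat_lit 0, nat_lit 0, nat_lit 0, nat_lit 122650912, [],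
 ⟨p045_k20, nat_lit 0, nat_lit 0, nat_lit 0, nat_lit 0, nat_lit 0, [nat_lit 4688000000, nat_lit 6250000000], [], [nat_lit 21848550933, nat_lit 22638633664, nat_lit 21227821121, nat_lit 21890917739, nat_lit 22603610111, nat_lit 23370486956, nat_lit 21854841937, nat_lit 22523339864], nat_lit 0, nat_lit 0, nat_lit 0, nat_lit 0, nat_lit 0, nat_lit 0, [], [nat_lit 31, nat_lit 40, nat_lit 40, nat_lit 80]⟩, ⟨p045_k3, nat_lit 0, nat_lit 0, nat_lit 0, nat_lit 0, nat_lit 233200, [nat_lit 51696000000, nat_lit 65010000000], [], [nat_lit 57006237516, nat_lit 60227495408, nat_lit 47754914932, nat_lit 50913732398, nat_lit 6207926640, nat_lit 8521120100, nat_lit 0, nat_lit 2252013924], nat_lit 1271250, nat_lit 1271250, nat_lit 230001, nat_lit 356250, nat_lit 0, nat_lit 1100001, [nat_lit 1100000, nat_lit 1442500], [nat_lit 31, nat_lit 40, nat_lit 40, nat_lit 80]⟩,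
 zbF0, [⟨nat_lit 0, nat_lit 100, nat_lit 98, nat_lit 68, nat_lit 2455435429⟩, ⟨nat_lit 16, nat_lit 100, nat_lit 90, nat_lit 85, nat_lit 5630357250⟩]⟩
noncomputable def p045_l70 : Lf2 := ⟨nat_lit 0, nat_lit 2, [nat_lit 10, nat_lit 5, nat_lit 5, nat_lit 20], false, nat_lit 300, nat_lit 308, nat_lit 160, nat_lit 256, ⟨nat_lit 1000, nat_lit 0, nat_lit 0, nat_lit 0, nat_lit 0, nat_lit 0, nat_lit 0, nat_lit 0, nat_lit 0, nat_lit 0, nat_lit 0, nat_lit 0, nat_lit 0, nat_lit 0, nat_lit 0, nat_lit 0, false, false⟩,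
 nat_lit 0, nat_lit 0, nat_lit 100000, nat_lit 0, nat_lit 6623, nat_lit 58208, nat_lit 0, nat_lit 0, nat_lit 0, nat_lit 25626, nat_lit 3100, nat_lit 0, nat_lit 0, nat_lit 0, nat_lit 0, nat_lit 0, nat_lit 0, nat_lit 0, [],
 ⟨p045_k20, nat_lit 0, nat_lit 0, nat_lit 0, nat_lit 0, nat_lit 0, [nat_lit 4688000000, nat_lit 6250000000], [], [nat_lit 21910625529, nat_lit 22706131728, nat_lit 21190893132, nat_lit 21857936753, nat_lit 22671303816, nat_lit 23442968831, nat_lit 21822010362, nat_lit 22582145192], nat_lit 0, nat_lit 0, nat_lit 0, nat_lit 0, nat_lit 0, nat_lit 0, [], [nat_lit 31, nat_lit 40, nat_lit 40, nat_lit 80]⟩, ⟨p045_k3, nat_lit 0, nat_lit 0, nat_lit 0, nat_lit 0, nat_lit 233200, [nat_lit 54288000000, nat_lit 68250000000], [], [nat_lit 11269275728, nat_lit 13582469188, nat_lit 5061349088, nat_lit 7313363012, nat_lit 36051969949, nat_lit 38688484977, nat_lit 33673200091, nat_lit 28980037535], nat_lit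 1271250, nat_lit 1271250, nat_lit 230001, nat_lit 356250, nat_lit 1100001, nat_lit 1922000, [nat_lit 1100000, nat_lit 1442500], [nat_lit 31, nat_lit 40, nat_lit 40, nat_lit 80]⟩,
 zbF0, [⟨nat_lit 16, nat_lit 100, nat_lit 90, nat_lit 85, nat_lit 5706011393⟩, ⟨nat_lit 23, nat_lit 90, nat_lit 100, nat_lit 74, nat_lit 4335558588⟩]⟩
noncomputable def p045_l71 : Lf2 := ⟨nat_lit 0, nat_lit 5, [nat_lit 4, nat_lit 5, nat_lit 5, nat_lit 20], false, nat_lit 300, nat_lit 308, nat_lit 0, nat_lit 256, ⟨nat_lit 1000, nat_lit 0, nat_lit 0, nat_lit 0, nat_lit 0, nat_lit 0, nat_lit 0, nat_lit 0, nat_lit 0, nat_lit 0, nat_lit 0, nat_lit 0, nat_lit 0, nat_lit 0, nat_lit 0, nat_lit 0, false, false⟩,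
 nat_lit 0, nat_lit 0, nat_lit 100000, nat_lit 0, nat_lit 6549, nat_lit 58208, nat_lit 0, nat_lit 0, nat_lit 0, nat_lit 12940, nat_lit 3030, nat_lit 0, nat_lit 0, nat_lit 0, nat_lit 0, nat_lit 0, nat_lit 0, nat_lit 0, [],
 ⟨p045_k14, nat_lit 0, nat_lit 0, nat_lit 0, nat_lit 0, nat_lit 0, [nat_lit 4688000000, nat_lit 6250000000, nat_lit 7968000000], [], [nat_lit 21848550933, nat_lit 22638633664, nat_lit 21227821121, nat_lit 21890917739, nat_lit 22603610111, nat_lit 23370486956, nat_lit 21854841937, nat_lit 22523339864], nat_lit 0, nat_lit 0, nat_lit 0, nat_lit 0, nat_lit 0, nat_lit 0, [], [nat_lit 9, nat_lit 40, nat_lit 40, nat_lit 80]⟩, ⟨p045_k8, nat_lit 0, nat_lit 0, nat_lit 0, nat_lit 0, nat_lit 150790, [nat_lit 53168000000, nat_lit 66850000000, nat_lit 80688000000], [], [nat_lit 78421555520, nat_lit 82596864488, nat_lit 67069426056, nat_lit 69830418186, nat_lit 37036662442, nat_lit 38690317390, nat_lit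 29055802645, nat_lit 30510105356], nat_lit 1271250, nat_lit 1271250, nat_lit 230001, nat_lit 356250, nat_lit 0, nat_lit 1808000, [nat_lit 1100000, nat_lit 1442500, nat_lit 1271250], [nat_lit 9, nat_lit 40, nat_lit 40, nat_lit 80]⟩,
 zbF0, [⟨nat_lit 0, nat_lit 100, nat_lit 98, nat_lit 68, nat_lit 1683143992⟩, ⟨nat_lit 16, nat_lit 100, nat_lit 90, nat_lit 85, nat_lit 5707588235⟩, ⟨nat_lit 23, nat_lit 87, nat_lit 100, nat_lit 67, nat_lit 1419275067⟩]⟩
noncomputable def p045_l72 : Lf2 := ⟨nat_lit 0, nat_lit 2, [nat_lit 10, nat_lit 5, nat_lit 5, nat_lit 20], false, nat_lit 300, nat_lit 308, nat_lit 0, nat_lit 160, ⟨nat_lit 1000, nat_lit 0, nat_lit 0, nat_lit 0, nat_lit 0, nat_lit 0, nat_lit 0, nat_lit 0, nat_lit 0, nat_lit 0, nat_lit 0, nat_lit 0, nat_lit 0, nat_lit 0, nat_lit 0, nat_lit 0, false, false⟩,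
 nat_lit 0, nat_lit 0, nat_lit 100000, nat_lit 0, nat_lit 6486, nat_lit 59550, nat_lit 0, nat_lit 0, nat_lit 0, nat_lit 25497, nat_lit 2410, nat_lit 0, nat_lit 0, nat_lit 0, nat_lit 0, nat_lit 0, nat_lit 0, nat_lit 0, [],
 ⟨p045_k20, nat_lit 0, nat_lit 0, nat_lit 0, nat_lit 0, nat_lit 0, [nat_lit 4688000000, nat_lit 6250000000], [], [nat_lit 21748234807, nat_lit 22417567875, nat_lit 21259259814, nat_lit 21918996146, nat_lit 22381385613, nat_lit 23141678704, nat_lit 21882793142, nat_lit 22524212117], nat_lit 0, nat_lit 0, nat_lit 0, nat_lit 0, nat_lit 0, nat_lit 0, [], [nat_lit 31, nat_lit 40, nat_lit 40, nat_lit 80]⟩, ⟨p045_k26, nat_lit 0, nat_lit 0, nat_lit 0, nat_lit 0, nat_lit 249823, [nat_lit 43248000000, nat_lit 54450000000], [], [nat_lit 47533394268, nat_lit 51174141705, nat_lit 39890008138, nat_lit 43475826925, nat_lit 10249177508, nat_lit 3048227745, nat_lit 11980481638, nat_lit 4819251725], nat_lit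 1271250, nat_lit 1271250, nat_lit 254650, nat_lit 356250, nat_lit 0, nat_lit 1100001, [nat_lit 1100000, nat_lit 1442500], [nat_lit 31, nat_lit 40, nat_lit 40, nat_lit 80]⟩,
 zbF0, [⟨nat_lit 0, nat_lit 100, nat_lit 98, nat_lit 71, nat_lit 895663584⟩, ⟨nat_lit 16, nat_lit 100, nat_lit 90, nat_lit 85, nat_lit 5714464362⟩]⟩
noncomputable def p045_l73 : Lf2 := ⟨nat_lit 0, nat_lit 2, [nat_lit 10, nat_lit 5, nat_lit 5, nat_lit 20], false, nat_lit 300, nat_lit 308, nat_lit 160, nat_lit 256, ⟨nat_lit 1000, nat_lit 0, nat_lit 0, nat_lit 0, nat_lit 0, nat_lit 0, nat_lit 0, nat_lit 0, nat_lit 0, nat_lit 0, nat_lit 0, nat_lit 0, nat_lit 0, nat_lit 0, nat_lit 0, nat_lit 0, false, false⟩,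
 nat_lit 0, nat_lit 0, nat_lit 100000, nat_lit 0, nat_lit 6623, nat_lit 59550, nat_lit 0, nat_lit 0, nat_lit 0, nat_lit 19041, nat_lit 3259, nat_lit 0, nat_lit 0, nat_lit 0, nat_lit 0, nat_lit 0, nat_lit 0, nat_lit 0, [],
 ⟨p045_k20, nat_lit 0, nat_lit 0, nat_lit 0, nat_lit 0, nat_lit 0, [nat_lit 4688000000, nat_lit 6250000000], [], [nat_lit 21743264021, nat_lit 22536396086, nat_lit 21190893132, nat_lit 21857936753, nat_lit 22501401619, nat_lit 23270804103, nat_lit 21822010362, nat_lit 22582145192], nat_lit 0, nat_lit 0, nat_lit 0, nat_lit 0, nat_lit 0, nat_lit 0, [], [nat_lit 31, nat_lit 40, nat_lit 40, nat_lit 80]⟩, ⟨p045_k26, nat_lit 0, nat_lit 0, nat_lit 0, nat_lit 0, nat_lit 249823, [nat_lit 56832000000, nat_lit 71430000000], [], [nat_lit 15162416001, nat_lit 17262231240, nat_lit 9883470400, nat_lit 11937923000, nat_lit 37257609068, nat_lit 39940380158, nat_lit 31461850708, nat_lit 31953996505], nat_lit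 1271250, nat_lit 1271250, nat_lit 254650, nat_lit 356250, nat_lit 1100001, nat_lit 1922000, [nat_lit 1100000, nat_lit 1442500], [nat_lit 31, nat_lit 40, nat_lit 40, nat_lit 80]⟩,
 zbF0, [⟨nat_lit 16, nat_lit 100, nat_lit 90, nat_lit 85, nat_lit 7388643234⟩, ⟨nat_lit 23, nat_lit 90, nat_lit 100, nat_lit 74, nat_lit 4325604139⟩]⟩
noncomputable def p045_l74 : Lf2 := ⟨nat_lit 0, nat_lit 5, [nat_lit 4, nat_lit 5, nat_lit 5, nat_lit 20], false, nat_lit 300, nat_lit 308, nat_lit 0, nat_lit 256, ⟨nat_lit 1000, nat_lit 0, nat_lit 0, nat_lit 0, nat_lit 0, nat_lit 0, nat_lit 0, nat_lit 0, nat_lit 0, nat_lit 0, nat_lit 0, nat_lit 0, nat_lit 0, nat_lit 0, nat_lit 0, nat_lit 0, false, false⟩,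
 nat_lit 0, nat_lit 0, nat_lit 24928, nat_lit 0, nat_lit 6583, nat_lit 14844, nat_lit 0, nat_lit 0, nat_lit 0, nat_lit 0, nat_lit 0, nat_lit 0, nat_lit 0, nat_lit 0, nat_lit 0, nat_lit 0, nat_lit 0, nat_lit 0, [],
 ⟨p045_k13, nat_lit 0, nat_lit 0, nat_lit 0, nat_lit 0, nat_lit 0, [nat_lit 4688000000, nat_lit 7968000000], [], [nat_lit 21711544424, nat_lit 22501378302, nat_lit 21210854207, nat_lit 21875764313, nat_lit 22466279407, nat_lit 23233103257, nat_lit 21839757159, nat_lit 22550358528], nat_lit 0, nat_lit 0, nat_lit 0, nat_lit 0, nat_lit 0, nat_lit 0, [], [nat_lit 39, nat_lit 40, nat_lit 40, nat_lit 80]⟩, ⟨p045_k22, nat_lit 0, nat_lit 0, nat_lit 0, nat_lit 0, nat_lit 170496, [nat_lit 4688000000, nat_lit 7968000000], [], [nat_lit 29791922160, nat_lit 27862179894, nat_lit 23783748798, nat_lit 24979555274, nat_lit 20240893817, nat_lit 21047689828, nat_lit 18492373912, nat_lit 19287734954], nat_lit 1271250,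 nat_lit 1271250, nat_lit 254650, nat_lit 356250, nat_lit 0, nat_lit 1808000, [nat_lit 1100000, nat_lit 1785000], [nat_lit 39, nat_lit 40, nat_lit 40, nat_lit 80]⟩,
 zbF0, [⟨nat_lit 0, nat_lit 100, nat_lit 99, nat_lit 67, nat_lit 1396188680⟩, ⟨nat_lit 16, nat_lit 100, nat_lit 96, nat_lit 82, nat_lit 1044194680⟩]⟩
noncomputable def p045_l75 : Lf2 := ⟨nat_lit 0, nat_lit 5, [nat_lit 4, nat_lit 5, nat_lit 5, nat_lit 20], false, nat_lit 300, nat_lit 308, nat_lit 0, nat_lit 252, ⟨nat_lit 1000, nat_lit 0, nat_lit 0, nat_lit 0, nat_lit 0, nat_lit 0, nat_lit 0, nat_lit 0, nat_lit 0, nat_lit 0, nat_lit 0, nat_lit 0, nat_lit 0, nat_lit 0, nat_lit 0, nat_lit 0, false, false⟩,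
 nat_lit 0, nat_lit 0, nat_lit 21785, nat_lit 0, nat_lit 6618, nat_lit 13267, nat_lit 0, nat_lit 0, nat_lit 0, nat_lit 3885, nat_lit 0, nat_lit 0, nat_lit 0, nat_lit 23587054999407, nat_lit 0, nat_lit 0, nat_lit 0, nat_lit 0, [],
 ⟨p045_k13, nat_lit 0, nat_lit 0, nat_lit 0, nat_lit 0, nat_lit 0, [nat_lit 4688000000, nat_lit 7968000000], [], [nat_lit 21572076286, nat_lit 22362466678, nat_lit 21319617606, nat_lit 22023362308, nat_lit 22327292769, nat_lit 23094111588, nat_lit 21987855621, nat_lit 22750151769], nat_lit 0, nat_lit 0, nat_lit 0, nat_lit 0, nat_lit 0, nat_lit 0, [], [nat_lit 39, nat_lit 40, nat_lit 40, nat_lit 80]⟩, ⟨p045_k13, nat_lit 0, nat_lit 0, nat_lit 0, nat_lit 0, nat_lit 300840, [nat_lit 4688000000, nat_lit 7968000000], [], [nat_lit 27154582281, nat_lit 27077299960, nat_lit 24421643963, nat_lit 25985988912, nat_lit 19386620641, nat_lit 20884375704, nat_lit 18629833620, nat_lit 20108203274],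 nat_lit 1271250, nat_lit 1271250, nat_lit 279600, nat_lit 330400, nat_lit 0, nat_lit 1779750, [nat_lit 1100000, nat_lit 1785000], [nat_lit 39, nat_lit 40, nat_lit 40, nat_lit 80]⟩,
 zbF0, [⟨nat_lit 0, nat_lit 100, nat_lit 100, nat_lit 75, nat_lit 1110675071⟩, ⟨nat_lit 0, nat_lit 100, nat_lit 100, nat_lit 70, nat_lit 175250578⟩, ⟨nat_lit 16, nat_lit 100, nat_lit 90, nat_lit 85, nat_lit 1079281639⟩, ⟨nat_lit 23, nat_lit 87, nat_lit 100, nat_lit 69, nat_lit 24677154⟩]⟩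
noncomputable def p045_l76 : Lf2 := ⟨nat_lit 0, nat_lit 5, [nat_lit 4, nat_lit 5, nat_lit 5, nat_lit 20], false, nat_lit 300, nat_lit 308, nat_lit 0, nat_lit 256, ⟨nat_lit 1000, nat_lit 0, nat_lit 0, nat_lit 0, nat_lit 0, nat_lit 0, nat_lit 0, nat_lit 0, nat_lit 0, nat_lit 0, nat_lit 0, nat_lit 0, nat_lit 0, nat_lit 0, nat_lit 0, nat_lit 0, false, false⟩,
 nat_lit 0, nat_lit 0, nat_lit 20032, nat_lit 0, nat_lit 6588, nat_lit 12199, nat_lit 0, nat_lit 0, nat_lit 0, nat_lit 4227, nat_lit 0, nat_lit 0, nat_lit 0, nat_lit 16056329006942, nat_lit 0, nat_lit 0, nat_lit 0, nat_lit 0, [],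
 ⟨p045_k13, nat_lit 0, nat_lit 0, nat_lit 0, nat_lit 0, nat_lit 0, [nat_lit 4688000000, nat_lit 7968000000], [], [nat_lit 21333682596, nat_lit 22001285924, nat_lit 21208359073, nat_lit 21873535868, nat_lit 21965295157, nat_lit 22725202862, nat_lit 21837538810, nat_lit 22554331861], nat_lit 0, nat_lit 0, nat_lit 0, nat_lit 0, nat_lit 0, nat_lit 0, [], [nat_lit 39, nat_lit 40, nat_lit 40, nat_lit 80]⟩, ⟨p045_k13, nat_lit 0, nat_lit 0, nat_lit 0, nat_lit 0, nat_lit 300840, [nat_lit 4688000000, nat_lit 7968000000], [], [nat_lit 25197859314, nat_lit 24595521264, nat_lit 23941391591, nat_lit 24100031836, nat_lit 19496627678, nat_lit 20263673555, nat_lit 19744136905, nat_lit 19911055693], nat_lit 1271250, nat_lit 1271250, nat_lit 330400, nat_lit 356250, nat_lit 0, nat_lit 1808000, [nat_lit 1100000, nat_lit 1785000], [nat_lit 39, nat_lit 40, nat_lit 40, nat_lit 80]⟩,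
 zbF0, [⟨nat_lit 0, nat_lit 100, nat_lit 100, nat_lit 75, nat_lit 434854326⟩, ⟨nat_lit 16, nat_lit 100, nat_lit 90, nat_lit 85, nat_lit 988181803⟩, ⟨nat_lit 23, nat_lit 88, nat_lit 100, nat_lit 72, nat_lit 92416692⟩]⟩
noncomputable def p045_l77 : Lf2 := ⟨nat_lit 0, nat_lit 5, [nat_lit 4, nat_lit 5, nat_lit 5, nat_lit 20], false, nat_lit 300, nat_lit 320, nat_lit 0, nat_lit 256, ⟨nat_lit 0, nat_lit 1000, nat_lit 0, nat_lit 6, nat_lit 111, nat_lit 1000, nat_lit 229, nat_lit 0, nat_lit 0, nat_lit 0, nat_lit 0, nat_lit 0, nat_lit 45962526, nat_lit 5096579, nat_lit 15940895, nat_lit 4234230, false, false⟩,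
 nat_lit 0, nat_lit 0, nat_lit 100000, nat_lit 0, nat_lit 4341, nat_lit 52941, nat_lit 0, nat_lit 0, nat_lit 0, nat_lit 0, nat_lit 1595, nat_lit 0, nat_lit 0, nat_lit 0, nat_lit 0, nat_lit 250000, nat_lit 0, nat_lit 0, [(nat_lit 9, [(nat_lit 0, nat_lit 1000)])],
 ⟨p045_k0, nat_lit 0, nat_lit 0, nat_lit 0, nat_lit 0, nat_lit 0, [nat_lit 1558400000, nat_lit 2319600001, nat_lit 2818000000, nat_lit 3370000000], [], [nat_lit 19253162759, nat_lit 20536641620, nat_lit 18863098878, nat_lit 19991566131, nat_lit 20885419602, nat_lit 22082505228, nat_lit 20330942226, nat_lit 21514496060], nat_lit 0, nat_lit 0, nat_lit 0, nat_lit 0, nat_lit 0, nat_lit 0, [], [nat_lit 138, nat_lit 40, nat_lit 20, nat_lit 40]⟩, ⟨p045_k7, nat_lit 0, nat_lit 0, nat_lit 435, nat_lit 0, nat_lit 356766, [nat_lit 25520000000, nat_lit 31900000000, nat_lit 44660000000], [], [nat_lit 101249776524, nat_lit 53071772412, nat_lit 73679268426, nat_lit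 45186951636, nat_lit 59121310075, nat_lit 10152663892, nat_lit 61371980220, nat_lit 12724452967], nat_lit 1271250, nat_lit 1271250, nat_lit 230001, nat_lit 356250, nat_lit 0, nat_lit 1808000, [nat_lit 1100000, nat_lit 1442500, nat_lit 1271250], [nat_lit 11, nat_lit 40, nat_lit 40, nat_lit 80, nat_lit 1, nat_lit 373, nat_lit 150, nat_lit 11]⟩,
 ⟨nat_lit 5477, nat_lit 5917, ⟨.ofNat (nat_lit 228543), .ofNat (nat_lit 267810), .ofNat (nat_lit 271221), .ofNat (nat_lit 310488), .ofNat (nat_lit 242980), .ofNat (nat_lit 280447), .ofNat (nat_lit 285695), .ofNat (nat_lit 323161)⟩, ⟨.ofNat (nat_lit 546958), .ofNat (nat_lit 586223), .ofNat (nat_lit 568297), .ofNat (nat_lit 607556), .ofNat (nat_lit 537832), .ofNat (nat_lit 575297), .ofNat (nat_lit 559189), .ofNat (nat_lit 596648)⟩⟩, [⟨nat_lit 4, nat_lit 93, nat_lit 100, nat_lit 81, nat_lit 6232327789⟩]⟩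
noncomputable def p045_l78 : Lf2 := ⟨nat_lit 0, nat_lit 5, [nat_lit 4, nat_lit 5, nat_lit 5, nat_lit 20], true, nat_lit 300, nat_lit 320, nat_lit 0, nat_lit 256, ⟨nat_lit 0, nat_lit 1000, nat_lit 0, nat_lit 6, nat_lit 111, nat_lit 1000, nat_lit 229, nat_lit 0, nat_lit 0, nat_lit 0, nat_lit 0, nat_lit 0, nat_lit 45962526, nat_lit 5096579, nat_lit 15940895, nat_lit 4234230, false, false⟩,
 nat_lit 0, nat_lit 0, nat_lit 0, nat_lit 2312, nat_lit 100000, nat_lit 0, nat_lit 0, nat_lit 9228, nat_lit 0, nat_lit 0, nat_lit 0, nat_lit 0, nat_lit 0, nat_lit 14873337892893, nat_lit 0, nat_lit 250000, nat_lit 0, nat_lit 0, [(nat_lit 9, [(nat_lit 0, nat_lit 1000)])],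
 ⟨p045_k0, nat_lit 0, nat_lit 0, nat_lit 0, nat_lit 0, nat_lit 0, [nat_lit 75382400001, nat_lit 131511600001, nat_lit 168922000000, nat_lit 224842000000], [], [nat_lit 111086217002, nat_lit 123271206001, nat_lit 96385896002, nat_lit 107525760002, nat_lit 128761768001, nat_lit 139661620001, nat_lit 112422846002, nat_lit 122554808001], nat_lit 0, nat_lit 0, nat_lit 0, nat_lit 0, nat_lit 0, nat_lit 0, [], [nat_lit 138, nat_lit 40, nat_lit 20, nat_lit 40]⟩, C1.Rw.none,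
 ⟨nat_lit 5477, nat_lit 5917, ⟨.ofNat (nat_lit 228543), .ofNat (nat_lit 267810), .ofNat (nat_lit 271221), .ofNat (nat_lit 310488), .ofNat (nat_lit 242980), .ofNat (nat_lit 280447), .ofNat (nat_lit 285695), .ofNat (nat_lit 323161)⟩, ⟨.ofNat (nat_lit 546958), .ofNat (nat_lit 586223), .ofNat (nat_lit 568297), .ofNat (nat_lit 607556), .ofNat (nat_lit 537832), .ofNat (nat_lit 575297), .ofNat (nat_lit 559189), .ofNat (nat_lit 596648)⟩⟩, [⟨nat_lit 16, nat_lit 100, nat_lit 85, nat_lit 84, nat_lit 10667865389⟩]⟩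
noncomputable def p045_l79 : Lf2 := ⟨nat_lit 0, nat_lit 10, [nat_lit 0, nat_lit 5, nat_lit 5, nat_lit 20], true, nat_lit 300, nat_lit 320, nat_lit 0, nat_lit 256, ⟨nat_lit 0, nat_lit 1000, nat_lit 0, nat_lit 6, nat_lit 107, nat_lit 1000, nat_lit 226, nat_lit 0, nat_lit 0, nat_lit 0, nat_lit 0, nat_lit 0, nat_lit 46468015, nat_lit 4876915, nat_lit 15655070, nat_lit 4167417, false, false⟩,
 nat_lit 0, nat_lit 0, nat_lit 0, nat_lit 100000, nat_lit 5231, nat_lit 0, nat_lit 0, nat_lit 0, nat_lit 0, nat_lit 0, nat_lit 0, nat_lit 0, nat_lit 0, nat_lit 153387951320334, nat_lit 0, nat_lit 250000, nat_lit 0, nat_lit 0, [(nat_lit 9, [(nat_lit 0, nat_lit 1000)])],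
 ⟨p045_k10, nat_lit 0, nat_lit 0, nat_lit 0, nat_lit 0, nat_lit 0, [nat_lit 3116800000, nat_lit 3614800000], [], [nat_lit 20132979984, nat_lit 20736090718, nat_lit 19721541243, nat_lit 20314338542, nat_lit 21739928182, nat_lit 22392042765, nat_lit 21145142049, nat_lit 21782070549], nat_lit 0, nat_lit 0, nat_lit 0, nat_lit 0, nat_lit 0, nat_lit 0, [], [nat_lit 70, nat_lit 40, nat_lit 40, nat_lit 80]⟩, C1.Rw.none,
 ⟨nat_lit 5700, nat_lit 5917, ⟨.ofNat (nat_lit 228543), .ofNat (nat_lit 267810), .ofNat (nat_lit 260552), .ofNat (nat_lit 299818), .ofNat (nat_lit 235806), .ofNat (nat_lit 274166), .ofNat (nat_lit 267819), .ofNat (nat_lit 306179)⟩, ⟨.ofNat (nat_lit 525618), .ofNat (nat_lit 564885), .ofNat (nat_lit 568296), .ofNat (nat_lit 607561), .ofNat (nat_lit 521060), .ofNat (nat_lit 559420), .ofNat (nat_lit 563744), .ofNat (nat_lit 602101)⟩⟩, [⟨nat_lit 0, nat_lit 100, nat_lit 100, nat_lit 70, nat_lit 199144997⟩,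 ⟨nat_lit 4, nat_lit 95, nat_lit 100, nat_lit 76, nat_lit 4373742810⟩]⟩
noncomputable def p045_l80 : Lf2 := ⟨nat_lit 0, nat_lit 10, [nat_lit 0, nat_lit 5, nat_lit 5, nat_lit 20], true, nat_lit 300, nat_lit 308, nat_lit 0, nat_lit 256, ⟨nat_lit 0, nat_lit 1000, nat_lit 0, nat_lit 6, nat_lit 108, nat_lit 1000, nat_lit 219, nat_lit 0, nat_lit 0, nat_lit 0, nat_lit 0, nat_lit 0, nat_lit 47047081, nat_lit 4943392, nat_lit 15009527, nat_lit 4123894, false, false⟩,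
 nat_lit 0, nat_lit 0, nat_lit 0, nat_lit 100000, nat_lit 5150, nat_lit 0, nat_lit 0, nat_lit 0, nat_lit 0, nat_lit 0, nat_lit 0, nat_lit 0, nat_lit 0, nat_lit 0, nat_lit 0, nat_lit 250000, nat_lit 0, nat_lit 0, [(nat_lit 9, [(nat_lit 0, nat_lit 1000)])],
 ⟨p045_k11, nat_lit 0, nat_lit 0, nat_lit 0, nat_lit 0, nat_lit 0, [nat_lit 3116800000, nat_lit 3614800000], [], [nat_lit 20764283375, nat_lit 21362965150, nat_lit 20354759719, nat_lit 20943236650, nat_lit 21324018145, nat_lit 22000187720, nat_lit 20904336162, nat_lit 21477622711], nat_lit 0, nat_lit 0, nat_lit 0, nat_lit 0, nat_lit 0, nat_lit 0, [], [nat_lit 70, nat_lit 40, nat_lit 40, nat_lit 80]⟩, C1.Rw.none,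
 ⟨nat_lit 5477, nat_lit 5701, ⟨.ofNat (nat_lit 235806), .ofNat (nat_lit 274166), .ofNat (nat_lit 257148), .ofNat (nat_lit 295508), .ofNat (nat_lit 242980), .ofNat (nat_lit 280447), .ofNat (nat_lit 264337), .ofNat (nat_lit 301804)⟩, ⟨.ofNat (nat_lit 521060), .ofNat (nat_lit 536404), .ofNat (nat_lit 563744), .ofNat (nat_lit 579088), .ofNat (nat_lit 516475), .ofNat (nat_lit 531461), .ofNat (nat_lit 559189), .ofNat (nat_lit 574176)⟩⟩, [⟨nat_lit 0, nat_lit 100, nat_lit 96, nat_lit 69, nat_lit 204689666⟩, ⟨nat_lit 16, nat_lit 100, nat_lit 90, nat_lit 85, nat_lit 5298064745⟩]⟩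
noncomputable def p045_l81 : Lf2 := ⟨nat_lit 0, nat_lit 10, [nat_lit 0, nat_lit 5, nat_lit 5, nat_lit 20], false, nat_lit 300, nat_lit 308, nat_lit 0, nat_lit 256, ⟨nat_lit 1000, nat_lit 0, nat_lit 0, nat_lit 0, nat_lit 0, nat_lit 0, nat_lit 0, nat_lit 0, nat_lit 0, nat_lit 0, nat_lit 0, nat_lit 0, nat_lit 0, nat_lit 0, nat_lit 0, nat_lit 0, false, false⟩,
 nat_lit 0, nat_lit 0, nat_lit 26185, nat_lit 93973, nat_lit 6623, nat_lit 15242, nat_lit 0, nat_lit 0, nat_lit 0, nat_lit 1131, nat_lit 0, nat_lit 0, nat_lit 0, nat_lit 49653764564930, nat_lit 0, nat_lit 0, nat_lit 0, nat_lit 0, [],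
 ⟨p045_k16, nat_lit 0, nat_lit 0, nat_lit 0, nat_lit 0, nat_lit 0, [nat_lit 4688000000, nat_lit 6250000000, nat_lit 9842000000], [], [nat_lit 21910625529, nat_lit 22706131728, nat_lit 21190893132, nat_lit 21857936753, nat_lit 22671303816, nat_lit 23442968831, nat_lit 21822010362, nat_lit 22582145192], nat_lit 0, nat_lit 0, nat_lit 0, nat_lit 0, nat_lit 0, nat_lit 0, [], [nat_lit 11, nat_lit 40, nat_lit 40, nat_lit 80]⟩, ⟨p045_k17, nat_lit 0, nat_lit 0, nat_lit 351, nat_lit 0, nat_lit 249092, [nat_lit 4688000000, nat_lit 6250000000, nat_lit 9842000000], [], [nat_lit 33234633812, nat_lit 32077904069, nat_lit 26758496683, nat_lit 29722968417, nat_lit 26828262289, nat_lit 23322591660, nat_lit 28027464324, nat_lit 21024521327], nat_lit 1271250, nat_lit 1271250, nat_lit 230001, nat_lit 356250, nat_lit 0, nat_lit 1808000, [nat_lit 1100000, nat_lit 1442500, nat_lit 1271250], [nat_lit 11, nat_lit 40, nat_lit 40, nat_lit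 80, nat_lit 1, nat_lit 373, nat_lit 150, nat_lit 11]⟩,
 zbF0, [⟨nat_lit 0, nat_lit 100, nat_lit 100, nat_lit 80, nat_lit 1456729985⟩, ⟨nat_lit 16, nat_lit 100, nat_lit 90, nat_lit 85, nat_lit 6142663508⟩]⟩
noncomputable def b_V_600_600_10_23 : St := ⟨true, nat_lit 0, nat_lit 1, nat_lit 1, nat_lit 80, nat_lit 260, nat_lit 280, nat_lit 240, nat_lit 280, nat_lit 40, nat_lit 60, nat_lit 40, nat_lit 80, nat_lit 300, nat_lit 320, nat_lit 0, nat_lit 280, nat_lit 0, nat_lit 40, nat_lit 0, nat_lit 600, nat_lit 0, nat_lit 0⟩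
theorem d_V_600_600_10_23 (h : EB TB.env) : Dead b_V_600_600_10_23 := chkB_sound0 h (T :=
(.trX (nat_lit 23) (nat_lit 90) (nat_lit 100) (nat_lit 74) (nat_lit 256) (.spl (nat_lit 6) (nat_lit 20)
(.spl (nat_lit 3) (nat_lit 60)
(.emL (nat_lit 16) (nat_lit 100) (nat_lit 92) (nat_lit 75))
(.spl (nat_lit 7) (nat_lit 300)
(.leaf p045_l58)
(.spl (nat_lit 7) (nat_lit 460)
(.spl (nat_lit 8) (nat_lit 800)
(.spl (nat_lit 1) (nat_lit 260)
(.spl (nat_lit 5) (nat_lit 160)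
(.spl (nat_lit 7) (nat_lit 380)
(.leaf p045_l59)
(.spl (nat_lit 1) (nat_lit 250)
(.leaf p045_l60)
(.leaf p045_l61)))
(.spl (nat_lit 5) (nat_lit 200)
(.leaf p045_l62)
(.leaf p045_l63)))
(.spl (nat_lit 1) (nat_lit 270)
(.spl (nat_lit 8) (nat_lit 400)
(.leaf p045_l64)
(.spl (nat_lit 7) (nat_lit 380)
(.leaf p045_l65)
(.spl (nat_lit 0) (nat_lit 270)
(.spl (nat_lit 6) (nat_lit 8)
(.spl (nat_lit 5) (nat_lit 160)
(.leaf p045_l66)
(.leaf p045_l67))
(.leaf p045_l68))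
(.trX (nat_lit 16) (nat_lit 100) (nat_lit 90) (nat_lit 85) (nat_lit 308) (.spl (nat_lit 1) (nat_lit 265)
(.spl (nat_lit 6) (nat_lit 8)
(.spl (nat_lit 5) (nat_lit 160)
(.leaf p045_l69)
(.leaf p045_l70))
(.leaf p045_l71))
(.trZ (nat_lit 0) (nat_lit 100) (nat_lit 99) (nat_lit 67) (nat_lit 44) (.spl (nat_lit 6) (nat_lit 8)
(.spl (nat_lit 5) (nat_lit 160)
(.leaf p045_l72)
(.leaf p045_l73))
(.leaf p045_l74))))))))
(.ord (.trZ (nat_lit 0) (nat_lit 100) (nat_lit 100) (nat_lit 70) (nat_lit 48) (.trX (nat_lit 16) (nat_lit 100) (nat_lit 90) (nat_lit 85) (nat_lit 308) (.spl (nat_lit 2) (nat_lit 56)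
(.trX (nat_lit 23) (nat_lit 89) (nat_lit 100) (nat_lit 72) (nat_lit 252) (.leaf p045_l75))
(.leaf p045_l76)))))))
(.leaf p045_l77))
(.leaf p045_l78))))
(.spl (nat_lit 0) (nat_lit 270)
(.ord (.leaf p045_l79))
(.trX (nat_lit 16) (nat_lit 100) (nat_lit 90) (nat_lit 85) (nat_lit 308) (.spl (nat_lit 1) (nat_lit 260)
(.leaf p045_l80)
(.leaf p045_l81))))))) (by decide +kernel)
noncomputable def p045_l82 : Lf2 := ⟨nat_lit 0, nat_lit 10, [nat_lit 0, nat_lit 5, nat_lit 5, nat_lit 20], true, nat_lit 300, nat_lit 320, nat_lit 0, nat_lit 280, ⟨nat_lit 0, nat_lit 1000, nat_lit 0, nat_lit 6, nat_lit 126, nat_lit 1000, nat_lit 229, nat_lit 0, nat_lit 0, nat_lit 0, nat_lit 0, nat_lit 0, nat_lit 45056898, nat_lit 6163196, nat_lit 15779906, nat_lit 4414929, false, false⟩,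
 nat_lit 0, nat_lit 0, nat_lit 0, nat_lit 2819, nat_lit 0, nat_lit 0, nat_lit 0, nat_lit 0, nat_lit 20000, nat_lit 0, nat_lit 0, nat_lit 0, nat_lit 0, nat_lit 14743505914178, nat_lit 0, nat_lit 250000, nat_lit 0, nat_lit 0, [(nat_lit 9, [(nat_lit 0, nat_lit 1000)])],
 ⟨p045_k10, nat_lit 0, nat_lit 0, nat_lit 0, nat_lit 0, nat_lit 0, [nat_lit 3116800000, nat_lit 3614800000], [], [nat_lit 16344283500, nat_lit 17031412500, nat_lit 16717598000, nat_lit 17397770000, nat_lit 17082595000, nat_lit 17750552000, nat_lit 17447660000, nat_lit 18109084000], nat_lit 0, nat_lit 0, nat_lit 0, nat_lit 0, nat_lit 0, nat_lit 0, [], [nat_lit 70, nat_lit 40, nat_lit 40, nat_lit 80]⟩, C1.Rw.none,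
 ⟨nat_lit 5477, nat_lit 5917, ⟨.ofNat (nat_lit 267810), .ofNat (nat_lit 307076), .ofNat (nat_lit 310488), .ofNat (nat_lit 349755), .ofNat (nat_lit 280447), .ofNat (nat_lit 317913), .ofNat (nat_lit 323161), .ofNat (nat_lit 360628)⟩, ⟨.ofNat (nat_lit 546958), .ofNat (nat_lit 586223), .ofNat (nat_lit 568297), .ofNat (nat_lit 607556), .ofNat (nat_lit 537832), .ofNat (nat_lit 575297), .ofNat (nat_lit 559189), .ofNat (nat_lit 596648)⟩⟩, [⟨nat_lit 0, nat_lit 100, nat_lit 100, nat_lit 80, nat_lit 2150300⟩, ⟨nat_lit 4, nat_lit 93, nat_lit 100, nat_lit 81, nat_lit 293552510⟩]⟩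
noncomputable def p045_l83 : Lf2 := ⟨nat_lit 0, nat_lit 10, [nat_lit 0, nat_lit 5, nat_lit 5, nat_lit 20], false, nat_lit 300, nat_lit 320, nat_lit 0, nat_lit 280, ⟨nat_lit 1000, nat_lit 0, nat_lit 0, nat_lit 0, nat_lit 0, nat_lit 0, nat_lit 0, nat_lit 0, nat_lit 0, nat_lit 0, nat_lit 0, nat_lit 0, nat_lit 0, nat_lit 0, nat_lit 0, nat_lit 0, false, false⟩,
 nat_lit 0, nat_lit 0, nat_lit 0, nat_lit 12382, nat_lit 6563, nat_lit 0, nat_lit 0, nat_lit 0, nat_lit 0, nat_lit 272, nat_lit 0, nat_lit 553, nat_lit 0, nat_lit 0, nat_lit 0, nat_lit 0, nat_lit 0, nat_lit 0, [],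
 ⟨p045_k15, nat_lit 0, nat_lit 0, nat_lit 0, nat_lit 0, nat_lit 0, [nat_lit 4688000000, nat_lit 7968000001, nat_lit 9842000000], [], [nat_lit 20556991396, nat_lit 21884678093, nat_lit 19946247160, nat_lit 21249735563, nat_lit 22172724877, nat_lit 23615563824, nat_lit 21530469430, nat_lit 22747733644], nat_lit 0, nat_lit 0, nat_lit 0, nat_lit 0, nat_lit 0, nat_lit 0, [], [nat_lit 29, nat_lit 40, nat_lit 40, nat_lit 80]⟩, ⟨p045_k27, nat_lit 0, nat_lit 0, nat_lit 0, nat_lit 0, nat_lit 380237, [nat_lit 4688000000, nat_lit 7968000000, nat_lit 11872000000], [], [nat_lit 10536012000, nat_lit 10536012000, nat_lit 10536012000, nat_lit 10536012000, nat_lit 16172012000, nat_lit 16313831000, nat_lit 16707012000, nat_lit 16707012000], nat_lit 1271250, nat_lit 1271250, nat_lit 356250, nat_lit 490000, nat_lit 0, nat_lit 1977500, [nat_lit 1100000, nat_lit 1785000, nat_lit 1271250], [nat_lit 21, nat_lit 40, nat_lit 40, nat_lit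 80]⟩,
 zbF0, [⟨nat_lit 16, nat_lit 100, nat_lit 85, nat_lit 84, nat_lit 788793470⟩]⟩
noncomputable def p045_l84 : Lf2 := ⟨nat_lit 0, nat_lit 2, [nat_lit 10, nat_lit 5, nat_lit 5, nat_lit 20], true, nat_lit 300, nat_lit 320, nat_lit 0, nat_lit 280, ⟨nat_lit 0, nat_lit 1000, nat_lit 0, nat_lit 6, nat_lit 119, nat_lit 1000, nat_lit 229, nat_lit 0, nat_lit 0, nat_lit 0, nat_lit 0, nat_lit 0, nat_lit 45439198, nat_lit 5711399, nat_lit 15849403, nat_lit 4341009, false, false⟩,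
 nat_lit 0, nat_lit 0, nat_lit 0, nat_lit 7329, nat_lit 4853, nat_lit 0, nat_lit 0, nat_lit 0, nat_lit 0, nat_lit 0, nat_lit 0, nat_lit 0, nat_lit 0, nat_lit 0, nat_lit 0, nat_lit 1000000, nat_lit 0, nat_lit 0, [(nat_lit 9, [(nat_lit 2, nat_lit 1000)])],
 ⟨p045_k3, nat_lit 0, nat_lit 0, nat_lit 0, nat_lit 0, nat_lit 0, [nat_lit 2663466667, nat_lit 2329200000], [], [nat_lit 19477001786, nat_lit 20622272950, nat_lit 19122122712, nat_lit 20247780520, nat_lit 20846078454, nat_lit 22087425744, nat_lit 20465912997, nat_lit 21539126164], nat_lit 0, nat_lit 0, nat_lit 0, nat_lit 0, nat_lit 0, nat_lit 0, [], [nat_lit 31, nat_lit 40, nat_lit 40, nat_lit 80]⟩, C1.Rw.none,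
 ⟨nat_lit 5477, nat_lit 5917, ⟨.ofNat (nat_lit 267810), .ofNat (nat_lit 307076), .ofNat (nat_lit 278479), .ofNat (nat_lit 317746), .ofNat (nat_lit 280447), .ofNat (nat_lit 317913), .ofNat (nat_lit 291125), .ofNat (nat_lit 328592)⟩, ⟨.ofNat (nat_lit 546958), .ofNat (nat_lit 586223), .ofNat (nat_lit 568297), .ofNat (nat_lit 607556), .ofNat (nat_lit 537832), .ofNat (nat_lit 575297), .ofNat (nat_lit 559189), .ofNat (nat_lit 596648)⟩⟩, [⟨nat_lit 16, nat_lit 100, nat_lit 85, nat_lit 84, nat_lit 322403429⟩]⟩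
noncomputable def p045_l85 : Lf2 := ⟨nat_lit 0, nat_lit 2, [nat_lit 10, nat_lit 5, nat_lit 5, nat_lit 20], false, nat_lit 300, nat_lit 320, nat_lit 0, nat_lit 160, ⟨nat_lit 1000, nat_lit 0, nat_lit 0, nat_lit 0, nat_lit 0, nat_lit 0, nat_lit 0, nat_lit 0, nat_lit 0, nat_lit 0, nat_lit 0, nat_lit 0, nat_lit 0, nat_lit 0, nat_lit 0, nat_lit 0, false, false⟩,
 nat_lit 0, nat_lit 0, nat_lit 83446, nat_lit 0, nat_lit 6623, nat_lit 46358, nat_lit 0, nat_lit 0, nat_lit 0, nat_lit 15161, nat_lit 0, nat_lit 0, nat_lit 0, nat_lit 0, nat_lit 0, nat_lit 0, nat_lit 0, nat_lit 42292452768, [],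
 ⟨p045_k3, nat_lit 0, nat_lit 0, nat_lit 0, nat_lit 0, nat_lit 0, [nat_lit 4688000000, nat_lit 6250000000], [], [nat_lit 20523849511, nat_lit 21857936753, nat_lit 19904127550, nat_lit 21213855623, nat_lit 22218327497, nat_lit 23669182704, nat_lit 21496786030, nat_lit 22790140924], nat_lit 0, nat_lit 0, nat_lit 0, nat_lit 0, nat_lit 0, nat_lit 0, [], [nat_lit 31, nat_lit 40, nat_lit 40, nat_lit 80]⟩, ⟨p045_k28, nat_lit 0, nat_lit 0, nat_lit 0, nat_lit 0, nat_lit 222421, [nat_lit 4688000000, nat_lit 7968000000], [], [nat_lit 61852298234, nat_lit 54516594624, nat_lit 42664477002, nat_lit 47050393788, nat_lit 5948801064, nat_lit 9572523400, nat_lit 0, nat_lit 3536427936], nat_lit 1271250, nat_lit 1271250, nat_lit 356250, nat_lit 490000, nat_lit 0, nat_lit 1100001, [nat_lit 1100000, nat_lit 1785000], [nat_lit 39, nat_lit 40, nat_lit 40, nat_lit 80]⟩,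
 zbF0, [⟨nat_lit 4, nat_lit 93, nat_lit 100, nat_lit 81, nat_lit 5637341797⟩]⟩
noncomputable def p045_l86 : Lf2 := ⟨nat_lit 0, nat_lit 2, [nat_lit 10, nat_lit 5, nat_lit 5, nat_lit 20], false, nat_lit 300, nat_lit 320, nat_lit 160, nat_lit 280, ⟨nat_lit 294, nat_lit 706, nat_lit 0, nat_lit 6, nat_lit 124, nat_lit 706, nat_lit 229, nat_lit 0, nat_lit 0, nat_lit 0, nat_lit 0, nat_lit 0, nat_lit 45184981, nat_lit 6011584, nat_lit 15803435, nat_lit 4390532, false, false⟩,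
 nat_lit 0, nat_lit 0, nat_lit 7777, nat_lit 0, nat_lit 5264, nat_lit 4320, nat_lit 0, nat_lit 0, nat_lit 0, nat_lit 1001, nat_lit 0, nat_lit 0, nat_lit 0, nat_lit 0, nat_lit 0, nat_lit 282400, nat_lit 0, nat_lit 0, [(nat_lit 9, [(nat_lit 1, nat_lit 706)])],
 ⟨p045_k3, nat_lit 0, nat_lit 0, nat_lit 0, nat_lit 0, nat_lit 0, [nat_lit 3286392320, nat_lit 3858636800], [], [nat_lit 19872905526, nat_lit 21062020424, nat_lit 19456529036, nat_lit 20624928584, nat_lit 21301266376, nat_lit 22454715072, nat_lit 20858107360, nat_lit 21951199232], nat_lit 0, nat_lit 0, nat_lit 0, nat_lit 0, nat_lit 0, nat_lit 0, [], [nat_lit 31, nat_lit 40, nat_lit 40, nat_lit 80]⟩, ⟨p045_k28, nat_lit 0, nat_lit 0, nat_lit 0, nat_lit 0, nat_lit 222421, [nat_lit 1378272000, nat_lit 2342592000], [], [nat_lit 7284936168, nat_lit 6168393288, nat_lit 5043512808, nat_lit 3935307528, nat_lit 7246520808, nat_lit 6385861128, nat_lit 7629372048,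 nat_lit 6597362928], nat_lit 1271250, nat_lit 1271250, nat_lit 356250, nat_lit 490000, nat_lit 1100001, nat_lit 2127500, [nat_lit 1100000, nat_lit 1785000], [nat_lit 39, nat_lit 40, nat_lit 40, nat_lit 80]⟩,
 ⟨nat_lit 5477, nat_lit 5917, ⟨.ofNat (nat_lit 278479), .ofNat (nat_lit 317746), .ofNat (nat_lit 289149), .ofNat (nat_lit 328416), .ofNat (nat_lit 291125), .ofNat (nat_lit 328592), .ofNat (nat_lit 301804), .ofNat (nat_lit 339271)⟩, ⟨.ofNat (nat_lit 546958), .ofNat (nat_lit 586223), .ofNat (nat_lit 568297), .ofNat (nat_lit 607556), .ofNat (nat_lit 537832), .ofNat (nat_lit 575297), .ofNat (nat_lit 559189), .ofNat (nat_lit 596648)⟩⟩, [⟨nat_lit 16, nat_lit 100, nat_lit 85, nat_lit 84, nat_lit 371721972⟩, ⟨nat_lit 23, nat_lit 87, nat_lit 100, nat_lit 79, nat_lit 89655294⟩]⟩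
noncomputable def p045_l87 : Lf2 := ⟨nat_lit 0, nat_lit 4, [nat_lit 38, nat_lit 5, nat_lit 5, nat_lit 20], true, nat_lit 300, nat_lit 320, nat_lit 0, nat_lit 280, ⟨nat_lit 0, nat_lit 1000, nat_lit 0, nat_lit 6, nat_lit 122, nat_lit 1000, nat_lit 229, nat_lit 0, nat_lit 0, nat_lit 0, nat_lit 0, nat_lit 0, nat_lit 45312419, nat_lit 5860980, nat_lit 15826601, nat_lit 4365891, false, false⟩,
 nat_lit 0, nat_lit 0, nat_lit 0, nat_lit 10202, nat_lit 4967, nat_lit 0, nat_lit 0, nat_lit 0, nat_lit 0, nat_lit 0, nat_lit 0, nat_lit 0, nat_lit 0, nat_lit 0, nat_lit 0, nat_lit 400000, nat_lit 0, nat_lit 0, [(nat_lit 9, [(nat_lit 1, nat_lit 1000)])],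
 ⟨p045_k29, nat_lit 0, nat_lit 0, nat_lit 0, nat_lit 0, nat_lit 0, [nat_lit 2742800000, nat_lit 3014800000], [], [nat_lit 19493365537, nat_lit 20650797737, nat_lit 19121428786, nat_lit 20258941967, nat_lit 20934200513, nat_lit 22189301616, nat_lit 20481247870, nat_lit 21619699996], nat_lit 0, nat_lit 0, nat_lit 0, nat_lit 0, nat_lit 0, nat_lit 0, [], [nat_lit 39, nat_lit 40, nat_lit 40, nat_lit 80]⟩, C1.Rw.none,
 ⟨nat_lit 5477, nat_lit 5917, ⟨.ofNat (nat_lit 267810), .ofNat (nat_lit 307076), .ofNat (nat_lit 289149), .ofNat (nat_lit 328416), .ofNat (nat_lit 280447), .ofNat (nat_lit 317913), .ofNat (nat_lit 301804), .ofNat (nat_lit 339271)⟩, ⟨.ofNat (nat_lit 546958), .ofNat (nat_lit 586223), .ofNat (nat_lit 568297), .ofNat (nat_lit 607556), .ofNat (nat_lit 537832), .ofNat (nat_lit 575297), .ofNat (nat_lit 559189), .ofNat (nat_lit 596648)⟩⟩, [⟨nat_lit 16, nat_lit 100, nat_lit 93, nat_lit 81, nat_lit 402376217⟩]⟩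
noncomputable def p045_l88 : Lf2 := ⟨nat_lit 0, nat_lit 6, [nat_lit 47, nat_lit 5, nat_lit 5, nat_lit 20], true, nat_lit 300, nat_lit 320, nat_lit 0, nat_lit 280, ⟨nat_lit 0, nat_lit 1000, nat_lit 0, nat_lit 6, nat_lit 122, nat_lit 1000, nat_lit 229, nat_lit 0, nat_lit 0, nat_lit 0, nat_lit 0, nat_lit 0, nat_lit 45312419, nat_lit 5860980, nat_lit 15826601, nat_lit 4365891, false, false⟩,
 nat_lit 0, nat_lit 0, nat_lit 0, nat_lit 100000, nat_lit 4932, nat_lit 0, nat_lit 0, nat_lit 0, nat_lit 0, nat_lit 0, nat_lit 0, nat_lit 0, nat_lit 0, nat_lit 0, nat_lit 0, nat_lit 400000, nat_lit 0, nat_lit 0, [(nat_lit 9, [(nat_lit 1, nat_lit 1000)])],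
 ⟨p045_k30, nat_lit 0, nat_lit 0, nat_lit 0, nat_lit 0, nat_lit 0, [nat_lit 2702720000, nat_lit 2862800001, nat_lit 3030799999], [], [nat_lit 19472618303, nat_lit 20626316852, nat_lit 19105918558, nat_lit 20239791932, nat_lit 20907060148, nat_lit 22158023936, nat_lit 20460816520, nat_lit 21594962416], nat_lit 0, nat_lit 0, nat_lit 0, nat_lit 0, nat_lit 0, nat_lit 0, [], [nat_lit 9, nat_lit 40, nat_lit 40, nat_lit 80]⟩, C1.Rw.none,
 ⟨nat_lit 5477, nat_lit 5917, ⟨.ofNat (nat_lit 267810), .ofNat (nat_lit 307076), .ofNat (nat_lit 289149), .ofNat (nat_lit 328416), .ofNat (nat_lit 280447), .ofNat (nat_lit 317913), .ofNat (nat_lit 301804), .ofNat (nat_lit 339271)⟩, ⟨.ofNat (nat_lit 546958), .ofNat (nat_lit 586223), .ofNat (nat_lit 568297), .ofNat (nat_lit 607556), .ofNat (nat_lit 537832), .ofNat (nat_lit 575297), .ofNat (nat_lit 559189), .ofNat (nat_lit 596648)⟩⟩, [⟨nat_lit 16, nat_lit 100, nat_lit 93, nat_lit 81,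 nat_lit 5430579338⟩]⟩
noncomputable def p045_l89 : Lf2 := ⟨nat_lit 1, nat_lit 10, [nat_lit 0, nat_lit 5, nat_lit 5, nat_lit 20], false, nat_lit 300, nat_lit 320, nat_lit 0, nat_lit 280, zbN0,
 nat_lit 0, nat_lit 0, nat_lit 0, nat_lit 0, nat_lit 0, nat_lit 0, nat_lit 0, nat_lit 0, nat_lit 0, nat_lit 0, nat_lit 0, nat_lit 0, nat_lit 0, nat_lit 0, nat_lit 0, nat_lit 0, nat_lit 0, nat_lit 0, [],
 C1.Rw.none, C1.Rw.none,
 zbF0, []⟩
noncomputable def p045_l90 : Lf2 := ⟨nat_lit 0, nat_lit 10, [nat_lit 0, nat_lit 5, nat_lit 5, nat_lit 20], false, nat_lit 300, nat_lit 320, nat_lit 0, nat_lit 160, ⟨nat_lit 1000, nat_lit 0, nat_lit 0, nat_lit 0, nat_lit 0, nat_lit 0, nat_lit 0, nat_lit 0, nat_lit 0, nat_lit 0, nat_lit 0, nat_lit 0, nat_lit 0, nat_lit 0, nat_lit 0, nat_lit 0, false, false⟩,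
 nat_lit 0, nat_lit 0, nat_lit 29932, nat_lit 0, nat_lit 6623, nat_lit 17423, nat_lit 0, nat_lit 0, nat_lit 0, nat_lit 4161, nat_lit 0, nat_lit 0, nat_lit 0, nat_lit 0, nat_lit 0, nat_lit 0, nat_lit 0, nat_lit 0, [],
 ⟨p045_k17, nat_lit 0, nat_lit 0, nat_lit 0, nat_lit 0, nat_lit 0, [nat_lit 4688000000, nat_lit 6250000000, nat_lit 9842000000], [], [nat_lit 20523849511, nat_lit 21857936753, nat_lit 19904127550, nat_lit 21213855623, nat_lit 22218327497, nat_lit 23669182704, nat_lit 21496786030, nat_lit 22790140924], nat_lit 0, nat_lit 0, nat_lit 0, nat_lit 0, nat_lit 0, nat_lit 0, [], [nat_lit 11, nat_lit 40, nat_lit 40, nat_lit 80]⟩, ⟨p045_k17, nat_lit 0, nat_lit 0, nat_lit 0, nat_lit 0, nat_lit 337739, [nat_lit 4688000000, nat_lit 6250000000, nat_lit 9842000000], [], [nat_lit 24109694564, nat_lit 18863111373, nat_lit 15103432250, nat_lit 16117545535, nat_lit 7657964273, nat_lit 2234033209, nat_lit 9247979192,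 nat_lit 1038157054], nat_lit 1271250, nat_lit 1271250, nat_lit 356250, nat_lit 490000, nat_lit 0, nat_lit 1100001, [nat_lit 1100000, nat_lit 1442500, nat_lit 1271250], [nat_lit 11, nat_lit 40, nat_lit 40, nat_lit 80]⟩,
 zbF0, [⟨nat_lit 4, nat_lit 93, nat_lit 100, nat_lit 81, nat_lit 1689303147⟩]⟩
noncomputable def p045_l91 : Lf2 := ⟨nat_lit 0, nat_lit 10, [nat_lit 0, nat_lit 5, nat_lit 5, nat_lit 20], false, nat_lit 300, nat_lit 320, nat_lit 160, nat_lit 280, ⟨nat_lit 1000, nat_lit 0, nat_lit 0, nat_lit 0, nat_lit 0, nat_lit 0, nat_lit 0, nat_lit 0, nat_lit 0, nat_lit 0, nat_lit 0, nat_lit 0, nat_lit 0, nat_lit 0, nat_lit 0, nat_lit 0, false, false⟩,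
 nat_lit 0, nat_lit 0, nat_lit 14575, nat_lit 0, nat_lit 6623, nat_lit 8483, nat_lit 0, nat_lit 0, nat_lit 0, nat_lit 2181, nat_lit 0, nat_lit 0, nat_lit 0, nat_lit 3807063068839, nat_lit 0, nat_lit 0, nat_lit 0, nat_lit 0, [],
 ⟨p045_k17, nat_lit 0, nat_lit 0, nat_lit 0, nat_lit 0, nat_lit 0, [nat_lit 4688000000, nat_lit 6250000000, nat_lit 9842000000], [], [nat_lit 20523849511, nat_lit 21857936753, nat_lit 19904127550, nat_lit 21213855623, nat_lit 22218327497, nat_lit 23669182704, nat_lit 21496786030, nat_lit 22790140924], nat_lit 0, nat_lit 0, nat_lit 0, nat_lit 0, nat_lit 0, nat_lit 0, [], [nat_lit 11, nat_lit 40, nat_lit 40, nat_lit 80]⟩, ⟨p045_k17, nat_lit 0, nat_lit 0, nat_lit 0, nat_lit 0, nat_lit 337739, [nat_lit 4688000000, nat_lit 6250000000, nat_lit 9842000000], [], [nat_lit 24529402644, nat_lit 20144387250, nat_lit 20144387250, nat_lit 15792116236, nat_lit 21279347752, nat_lit 21095387014, nat_lit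 22213994606, nat_lit 20114289769], nat_lit 1271250, nat_lit 1271250, nat_lit 356250, nat_lit 490000, nat_lit 1100001, nat_lit 2127500, [nat_lit 1100000, nat_lit 1442500, nat_lit 1271250], [nat_lit 11, nat_lit 40, nat_lit 40, nat_lit 80]⟩,
 zbF0, [⟨nat_lit 16, nat_lit 100, nat_lit 85, nat_lit 84, nat_lit 618312346⟩, ⟨nat_lit 4, nat_lit 93, nat_lit 100, nat_lit 81, nat_lit 124750900⟩, ⟨nat_lit 23, nat_lit 87, nat_lit 100, nat_lit 79, nat_lit 115371732⟩]⟩
noncomputable def p045_l92 : Lf2 := ⟨nat_lit 0, nat_lit 10, [nat_lit 0, nat_lit 5, nat_lit 5, nat_lit 20], false, nat_lit 300, nat_lit 320, nat_lit 0, nat_lit 280, ⟨nat_lit 0, nat_lit 1000, nat_lit 0, nat_lit 6, nat_lit 126, nat_lit 1000, nat_lit 229, nat_lit 0, nat_lit 0, nat_lit 0, nat_lit 0, nat_lit 0, nat_lit 45056898, nat_lit 6163196, nat_lit 15779906, nat_lit 4414929, false, false⟩,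
 nat_lit 0, nat_lit 0, nat_lit 21724, nat_lit 0, nat_lit 5100, nat_lit 11500, nat_lit 0, nat_lit 0, nat_lit 0, nat_lit 179, nat_lit 611, nat_lit 0, nat_lit 0, nat_lit 0, nat_lit 0, nat_lit 400000, nat_lit 0, nat_lit 0, [(nat_lit 9, [(nat_lit 1, nat_lit 1000)])],
 ⟨p045_k15, nat_lit 0, nat_lit 0, nat_lit 0, nat_lit 0, nat_lit 0, [nat_lit 2742800000, nat_lit 3038800001, nat_lit 2882000000], [], [nat_lit 19419901025, nat_lit 20747675400, nat_lit 19028063650, nat_lit 20179408100, nat_lit 21037333900, nat_lit 22308156800, nat_lit 20460515600, nat_lit 21713702800], nat_lit 0, nat_lit 0, nat_lit 0, nat_lit 0, nat_lit 0, nat_lit 0, [], [nat_lit 29, nat_lit 40, nat_lit 40, nat_lit 80]⟩, ⟨p045_k27, nat_lit 0, nat_lit 0, nat_lit 512, nat_lit 0, nat_lit 380237, [nat_lit 9776000000, nat_lit 14664000000, nat_lit 19552000000], [], [nat_lit 48138947000, nat_lit 35883673000, nat_lit 41964160000, nat_lit 30004920500, nat_lit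 29610422500, nat_lit 19125401000, nat_lit 30486090000, nat_lit 20069712000], nat_lit 1271250, nat_lit 1271250, nat_lit 356250, nat_lit 490000, nat_lit 0, nat_lit 1977500, [nat_lit 1100000, nat_lit 1785000, nat_lit 1271250], [nat_lit 21, nat_lit 40, nat_lit 40, nat_lit 80, nat_lit 14, nat_lit 401, nat_lit 175, nat_lit 11]⟩,
 ⟨nat_lit 5477, nat_lit 5917, ⟨.ofNat (nat_lit 267810), .ofNat (nat_lit 307076), .ofNat (nat_lit 310488), .ofNat (nat_lit 349755), .ofNat (nat_lit 280447), .ofNat (nat_lit 317913), .ofNat (nat_lit 323161), .ofNat (nat_lit 360628)⟩, ⟨.ofNat (nat_lit 546958), .ofNat (nat_lit 586223), .ofNat (nat_lit 568297), .ofNat (nat_lit 607556), .ofNat (nat_lit 537832), .ofNat (nat_lit 575297), .ofNat (nat_lit 559189), .ofNat (nat_lit 596648)⟩⟩, [⟨nat_lit 4, nat_lit 93, nat_lit 100, nat_lit 81, nat_lit 1388255287⟩]⟩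
noncomputable def p045_l93 : Lf2 := ⟨nat_lit 0, nat_lit 10, [nat_lit 0, nat_lit 5, nat_lit 5, nat_lit 20], true, nat_lit 300, nat_lit 320, nat_lit 0, nat_lit 280, ⟨nat_lit 0, nat_lit 1000, nat_lit 0, nat_lit 6, nat_lit 126, nat_lit 1000, nat_lit 229, nat_lit 0, nat_lit 0, nat_lit 0, nat_lit 0, nat_lit 0, nat_lit 45056898, nat_lit 6163196, nat_lit 15779906, nat_lit 4414929, false, false⟩,
 nat_lit 0, nat_lit 0, nat_lit 0, nat_lit 4019, nat_lit 100000, nat_lit 0, nat_lit 0, nat_lit 7033, nat_lit 0, nat_lit 0, nat_lit 0, nat_lit 0, nat_lit 0, nat_lit 17354574047010, nat_lit 0, nat_lit 400000, nat_lit 0, nat_lit 0, [(nat_lit 9, [(nat_lit 1, nat_lit 1000)])],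
 ⟨p045_k15, nat_lit 0, nat_lit 0, nat_lit 0, nat_lit 0, nat_lit 0, [nat_lit 115270800000, nat_lit 171830800000, nat_lit 199806000000], [], [nat_lit 79528486250, nat_lit 90823635000, nat_lit 64936880500, nat_lit 75957303000, nat_lit 94626495000, nat_lit 107115352000, nat_lit 79658672000, nat_lit 89524128000], nat_lit 0, nat_lit 0, nat_lit 0, nat_lit 0, nat_lit 0, nat_lit 0, [], [nat_lit 29, nat_lit 40, nat_lit 40, nat_lit 80]⟩, C1.Rw.none,
 ⟨nat_lit 5477, nat_lit 5917, ⟨.ofNat (nat_lit 267810), .ofNat (nat_lit 307076), .ofNat (nat_lit 310488), .ofNat (nat_lit 349755), .ofNat (nat_lit 280447), .ofNat (nat_lit 317913), .ofNat (nat_lit 323161), .ofNat (nat_lit 360628)⟩, ⟨.ofNat (nat_lit 546958), .ofNat (nat_lit 586223), .ofNat (nat_lit 568297), .ofNat (nat_lit 607556), .ofNat (nat_lit 537832), .ofNat (nat_lit 575297), .ofNat (nat_lit 559189), .ofNat (nat_lit 596648)⟩⟩, [⟨nat_lit 16, nat_lit 100, nat_lit 85, nat_lit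 84, nat_lit 8594328813⟩]⟩
noncomputable def b_V_600_600_10_24 : St := ⟨true, nat_lit 0, nat_lit 1, nat_lit 1, nat_lit 80, nat_lit 260, nat_lit 280, nat_lit 240, nat_lit 280, nat_lit 60, nat_lit 80, nat_lit 40, nat_lit 80, nat_lit 300, nat_lit 320, nat_lit 0, nat_lit 280, nat_lit 0, nat_lit 40, nat_lit 0, nat_lit 600, nat_lit 0, nat_lit 0⟩
theorem d_V_600_600_10_24 (h : EB TB.env) : Dead b_V_600_600_10_24 := chkB_sound0 h (T :=
(.spl (nat_lit 3) (nat_lit 60)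
(.emL (nat_lit 16) (nat_lit 100) (nat_lit 92) (nat_lit 75))
(.spl (nat_lit 7) (nat_lit 300)
(.leaf p045_l82)
(.spl (nat_lit 7) (nat_lit 460)
(.spl (nat_lit 8) (nat_lit 800)
(.spl (nat_lit 8) (nat_lit 400)
(.leaf p045_l83)
(.spl (nat_lit 1) (nat_lit 260)
(.spl (nat_lit 6) (nat_lit 24)
(.spl (nat_lit 6) (nat_lit 16)
(.spl (nat_lit 6) (nat_lit 8)
(.spl (nat_lit 1) (nat_lit 250)
(.leaf p045_l84)
(.spl (nat_lit 5) (nat_lit 160)
(.leaf p045_l85)
(.leaf p045_l86)))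
(.leaf p045_l87))
(.leaf p045_l88))
(.leaf p045_l89))
(.spl (nat_lit 5) (nat_lit 160)
(.leaf p045_l90)
(.leaf p045_l91))))
(.leaf p045_l92))
(.leaf p045_l93))))) (by decide +kernel)
noncomputable def p045_l94 : Lf2 := ⟨nat_lit 0, nat_lit 10, [nat_lit 0, nat_lit 5, nat_lit 5, nat_lit 20], true, nat_lit 240, nat_lit 280, nat_lit 0, nat_lit 336, ⟨nat_lit 0, nat_lit 1000, nat_lit 0, nat_lit 6, nat_lit 149, nat_lit 1000, nat_lit 186, nat_lit 0, nat_lit 0, nat_lit 0, nat_lit 0, nat_lit 0, nat_lit 47233912, nat_lit 8165985, nat_lit 11600103, nat_lit 4324869, false, false⟩,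
 nat_lit 0, nat_lit 0, nat_lit 0, nat_lit 2661, nat_lit 5644, nat_lit 0, nat_lit 0, nat_lit 0, nat_lit 0, nat_lit 0, nat_lit 0, nat_lit 0, nat_lit 0, nat_lit 13929626149310, nat_lit 0, nat_lit 250000, nat_lit 0, nat_lit 0, [(nat_lit 9, [(nat_lit 0, nat_lit 1000)])],
 ⟨p045_k10, nat_lit 0, nat_lit 0, nat_lit 28, nat_lit 0, nat_lit 0, [nat_lit 3116800000, nat_lit 3614800000], [], [nat_lit 14655156224, nat_lit 16101988720, nat_lit 14736893896, nat_lit 16109233376, nat_lit 17565171532, nat_lit 18852727336, nat_lit 17499519008, nat_lit 18722402088], nat_lit 0, nat_lit 0, nat_lit 0, nat_lit 0, nat_lit 0, nat_lit 0, [], [nat_lit 70, nat_lit 40, nat_lit 40, nat_lit 80, nat_lit 13, nat_lit 401, nat_lit 175, nat_lit 11]⟩, C1.Rw.none,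
 ⟨nat_lit 5477, nat_lit 5917, ⟨.ofNat (nat_lit 307076), .ofNat (nat_lit 385610), .ofNat (nat_lit 349755), .ofNat (nat_lit 428288), .ofNat (nat_lit 317913), .ofNat (nat_lit 392847), .ofNat (nat_lit 360628), .ofNat (nat_lit 435561)⟩, ⟨.ofNat (nat_lit 407818), .ofNat (nat_lit 486351), .ofNat (nat_lit 450496), .ofNat (nat_lit 529030), .ofNat (nat_lit 404075), .ofNat (nat_lit 479008), .ofNat (nat_lit 446789), .ofNat (nat_lit 521722)⟩⟩, [⟨nat_lit 4, nat_lit 97, nat_lit 100, nat_lit 76, nat_lit 37599440⟩]⟩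
noncomputable def p045_l95 : Lf2 := ⟨nat_lit 0, nat_lit 10, [nat_lit 0, nat_lit 5, nat_lit 5, nat_lit 20], true, nat_lit 280, nat_lit 296, nat_lit 0, nat_lit 312, ⟨nat_lit 0, nat_lit 1000, nat_lit 0, nat_lit 6, nat_lit 149, nat_lit 1000, nat_lit 203, nat_lit 0, nat_lit 0, nat_lit 0, nat_lit 0, nat_lit 0, nat_lit 45785559, nat_lit 8052902, nat_lit 13161539, nat_lit 4475824, false, false⟩,
 nat_lit 0, nat_lit 0, nat_lit 0, nat_lit 2751, nat_lit 5644, nat_lit 0, nat_lit 0, nat_lit 0, nat_lit 0, nat_lit 0, nat_lit 0, nat_lit 0, nat_lit 0, nat_lit 14279541518107, nat_lit 0, nat_lit 250000, nat_lit 0, nat_lit 0, [(nat_lit 9, [(nat_lit 0, nat_lit 1000)])],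
 ⟨p045_k10, nat_lit 0, nat_lit 0, nat_lit 37, nat_lit 0, nat_lit 0, [nat_lit 3116800000, nat_lit 3614800000], [], [nat_lit 17565171532, nat_lit 18852727336, nat_lit 17499519008, nat_lit 18722402088, nat_lit 18729177656, nat_lit 20150364468, nat_lit 18604569053, nat_lit 19822844208], nat_lit 0, nat_lit 0, nat_lit 0, nat_lit 0, nat_lit 0, nat_lit 0, [], [nat_lit 70, nat_lit 40, nat_lit 40, nat_lit 80, nat_lit 13, nat_lit 317, nat_lit 100, nat_lit 8]⟩, C1.Rw.none,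
 ⟨nat_lit 5477, nat_lit 5917, ⟨.ofNat (nat_lit 307076), .ofNat (nat_lit 385610), .ofNat (nat_lit 349755), .ofNat (nat_lit 428288), .ofNat (nat_lit 317913), .ofNat (nat_lit 392847), .ofNat (nat_lit 360628), .ofNat (nat_lit 435561)⟩, ⟨.ofNat (nat_lit 486351), .ofNat (nat_lit 517765), .ofNat (nat_lit 507691), .ofNat (nat_lit 539104), .ofNat (nat_lit 479008), .ofNat (nat_lit 508982), .ofNat (nat_lit 500365), .ofNat (nat_lit 530339)⟩⟩, [⟨nat_lit 16, nat_lit 100, nat_lit 92, nat_lit 75, nat_lit 504506666⟩]⟩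
noncomputable def p045_l96 : Lf2 := ⟨nat_lit 0, nat_lit 10, [nat_lit 0, nat_lit 5, nat_lit 5, nat_lit 20], true, nat_lit 280, nat_lit 320, nat_lit 0, nat_lit 320, ⟨nat_lit 0, nat_lit 1000, nat_lit 0, nat_lit 6, nat_lit 137, nat_lit 1000, nat_lit 221, nat_lit 0, nat_lit 0, nat_lit 0, nat_lit 0, nat_lit 0, nat_lit 45050627, nat_lit 7018792, nat_lit 14930581, nat_lit 4484183, false, false⟩,
 nat_lit 0, nat_lit 0, nat_lit 0, nat_lit 3988, nat_lit 5053, nat_lit 0, nat_lit 0, nat_lit 0, nat_lit 0, nat_lit 0, nat_lit 0, nat_lit 0, nat_lit 0, nat_lit 0, nat_lit 0, nat_lit 400000, nat_lit 0, nat_lit 0, [(nat_lit 9, [(nat_lit 1, nat_lit 1000)])],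
 ⟨p045_k15, nat_lit 0, nat_lit 0, nat_lit 75, nat_lit 0, nat_lit 0, [nat_lit 2742800000, nat_lit 3038800001, nat_lit 2882000000], [], [nat_lit 17689146359, nat_lit 18908506082, nat_lit 17705231553, nat_lit 18894787644, nat_lit 20432968330, nat_lit 21680483764, nat_lit 20381226760, nat_lit 21536713490], nat_lit 0, nat_lit 0, nat_lit 0, nat_lit 0, nat_lit 0, nat_lit 0, [], [nat_lit 29, nat_lit 40, nat_lit 40, nat_lit 80, nat_lit 17, nat_lit 317, nat_lit 100, nat_lit 8]⟩, C1.Rw.none,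
 ⟨nat_lit 5477, nat_lit 5917, ⟨.ofNat (nat_lit 307076), .ofNat (nat_lit 346343), .ofNat (nat_lit 328416), .ofNat (nat_lit 367682), .ofNat (nat_lit 317913), .ofNat (nat_lit 355380), .ofNat (nat_lit 339271), .ofNat (nat_lit 376737)⟩, ⟨.ofNat (nat_lit 507691), .ofNat (nat_lit 586223), .ofNat (nat_lit 529030), .ofNat (nat_lit 607556), .ofNat (nat_lit 500365), .ofNat (nat_lit 575297), .ofNat (nat_lit 521722), .ofNat (nat_lit 596648)⟩⟩, [⟨nat_lit 16, nat_lit 100, nat_lit 85, nat_lit 84, nat_lit 325606533⟩]⟩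
noncomputable def p045_l97 : Lf2 := ⟨nat_lit 0, nat_lit 10, [nat_lit 0, nat_lit 5, nat_lit 5, nat_lit 20], false, nat_lit 280, nat_lit 320, nat_lit 0, nat_lit 160, ⟨nat_lit 1000, nat_lit 0, nat_lit 0, nat_lit 0, nat_lit 0, nat_lit 0, nat_lit 0, nat_lit 0, nat_lit 0, nat_lit 0, nat_lit 0, nat_lit 0, nat_lit 0, nat_lit 0, nat_lit 0, nat_lit 0, false, false⟩,
 nat_lit 0, nat_lit 0, nat_lit 20328, nat_lit 0, nat_lit 7059, nat_lit 11832, nat_lit 0, nat_lit 0, nat_lit 0, nat_lit 2972, nat_lit 0, nat_lit 0, nat_lit 0, nat_lit 0, nat_lit 0, nat_lit 0, nat_lit 0, nat_lit 0, [],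
 ⟨p045_k17, nat_lit 0, nat_lit 0, nat_lit 60, nat_lit 0, nat_lit 0, [nat_lit 4688000000, nat_lit 6250000000, nat_lit 9842000000], [], [nat_lit 17944096777, nat_lit 19394930846, nat_lit 17794164408, nat_lit 19206598132, nat_lit 21617806604, nat_lit 23098300492, nat_lit 21283441844, nat_lit 22728939470], nat_lit 0, nat_lit 0, nat_lit 0, nat_lit 0, nat_lit 0, nat_lit 0, [], [nat_lit 11, nat_lit 40, nat_lit 40, nat_lit 80, nat_lit 1, nat_lit 317, nat_lit 100, nat_lit 8]⟩, ⟨p045_k17, nat_lit 0, nat_lit 0, nat_lit 357, nat_lit 0, nat_lit 337739, [nat_lit 4688000000, nat_lit 6250000000, nat_lit 9842000000], [], [nat_lit 21187838000, nat_lit 21248206528, nat_lit 16423833768, nat_lit 20362680128, nat_lit 19725342328, nat_lit 14150032936, nat_lit 21437407400, nat_lit 15899392472], nat_lit 1271250, nat_lit 1271250, nat_lit 490000, nat_lit 631250, nat_lit 0, nat_lit 1100001, [nat_lit 1100000, nat_lit 1442500, nat_lit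 1271250], [nat_lit 11, nat_lit 40, nat_lit 40, nat_lit 80, nat_lit 1, nat_lit 373, nat_lit 150, nat_lit 11]⟩,
 zbF0, [⟨nat_lit 16, nat_lit 100, nat_lit 93, nat_lit 81, nat_lit 884828499⟩]⟩
noncomputable def p045_l98 : Lf2 := ⟨nat_lit 0, nat_lit 10, [nat_lit 0, nat_lit 5, nat_lit 5, nat_lit 20], false, nat_lit 280, nat_lit 320, nat_lit 160, nat_lit 320, ⟨nat_lit 567, nat_lit 433, nat_lit 0, nat_lit 6, nat_lit 145, nat_lit 433, nat_lit 221, nat_lit 0, nat_lit 0, nat_lit 0, nat_lit 0, nat_lit 0, nat_lit 44506318, nat_lit 7659767, nat_lit 14833915, nat_lit 4575253, false, false⟩,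
 nat_lit 0, nat_lit 0, nat_lit 8651, nat_lit 0, nat_lit 6489, nat_lit 5035, nat_lit 0, nat_lit 0, nat_lit 0, nat_lit 974, nat_lit 0, nat_lit 0, nat_lit 0, nat_lit 0, nat_lit 0, nat_lit 108250, nat_lit 0, nat_lit 0, [(nat_lit 9, [(nat_lit 0, nat_lit 433)])],
 ⟨p045_k17, nat_lit 0, nat_lit 0, nat_lit 60, nat_lit 0, nat_lit 0, [nat_lit 4007670401, nat_lit 4861397867, nat_lit 7145622400], [], [nat_lit 17744047468, nat_lit 19175999784, nat_lit 17641288584, nat_lit 18990392173, nat_lit 21281075684, nat_lit 22695431332, nat_lit 21008635724, nat_lit 22390171370], nat_lit 0, nat_lit 0, nat_lit 0, nat_lit 0, nat_lit 0, nat_lit 0, [], [nat_lit 11, nat_lit 40, nat_lit 40, nat_lit 80, nat_lit 1, nat_lit 317, nat_lit 100, nat_lit 8]⟩, ⟨p045_k17, nat_lit 0, nat_lit 0, nat_lit 230, nat_lit 0, nat_lit 337739, [nat_lit 2658096000, nat_lit 3543750000, nat_lit 5580414000], [], [nat_lit 11176860054, nat_lit 9159254006, nat_lit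 8612479169, nat_lit 8965921012, nat_lit 15325004094, nat_lit 13826528208, nat_lit 16101293449, nat_lit 13712452804], nat_lit 1271250, nat_lit 1271250, nat_lit 490000, nat_lit 631250, nat_lit 1100001, nat_lit 2470000, [nat_lit 1100000, nat_lit 1442500, nat_lit 1271250], [nat_lit 11, nat_lit 40, nat_lit 40, nat_lit 80, nat_lit 1, nat_lit 401, nat_lit 175, nat_lit 11]⟩,
 ⟨nat_lit 5477, nat_lit 5917, ⟨.ofNat (nat_lit 328416), .ofNat (nat_lit 367682), .ofNat (nat_lit 349755), .ofNat (nat_lit 389022), .ofNat (nat_lit 339271), .ofNat (nat_lit 376737), .ofNat (nat_lit 360628), .ofNat (nat_lit 398094)⟩, ⟨.ofNat (nat_lit 507691), .ofNat (nat_lit 586223), .ofNat (nat_lit 529030), .ofNat (nat_lit 607556), .ofNat (nat_lit 500365), .ofNat (nat_lit 575297), .ofNat (nat_lit 521722), .ofNat (nat_lit 596648)⟩⟩, [⟨nat_lit 16, nat_lit 100, nat_lit 93, nat_lit 81, nat_lit 368305483⟩, ⟨nat_lit 11, nat_lit 100, nat_lit 100, nat_lit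 95, nat_lit 272383975⟩]⟩
noncomputable def p045_l99 : Lf2 := ⟨nat_lit 0, nat_lit 10, [nat_lit 0, nat_lit 5, nat_lit 5, nat_lit 20], true, nat_lit 280, nat_lit 320, nat_lit 0, nat_lit 336, ⟨nat_lit 0, nat_lit 1000, nat_lit 0, nat_lit 6, nat_lit 157, nat_lit 1000, nat_lit 221, nat_lit 0, nat_lit 0, nat_lit 0, nat_lit 0, nat_lit 0, nat_lit 43789311, nat_lit 8510202, nat_lit 14700487, nat_lit 4687106, false, false⟩,
 nat_lit 0, nat_lit 0, nat_lit 0, nat_lit 2819, nat_lit 5706, nat_lit 0, nat_lit 0, nat_lit 0, nat_lit 0, nat_lit 0, nat_lit 0, nat_lit 0, nat_lit 0, nat_lit 14278941393140, nat_lit 0, nat_lit 250000, nat_lit 0, nat_lit 0, [(nat_lit 9, [(nat_lit 0, nat_lit 1000)])],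
 ⟨p045_k10, nat_lit 0, nat_lit 0, nat_lit 42, nat_lit 0, nat_lit 0, [nat_lit 3116800000, nat_lit 3614800000], [], [nat_lit 17474973105, nat_lit 18737081088, nat_lit 17437015692, nat_lit 18666521612, nat_lit 20631138896, nat_lit 21924810980, nat_lit 20443764056, nat_lit 21707605632], nat_lit 0, nat_lit 0, nat_lit 0, nat_lit 0, nat_lit 0, nat_lit 0, [], [nat_lit 70, nat_lit 40, nat_lit 40, nat_lit 80, nat_lit 13, nat_lit 317, nat_lit 100, nat_lit 8]⟩, C1.Rw.none,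
 ⟨nat_lit 5477, nat_lit 5917, ⟨.ofNat (nat_lit 346343), .ofNat (nat_lit 385610), .ofNat (nat_lit 389022), .ofNat (nat_lit 428288), .ofNat (nat_lit 355380), .ofNat (nat_lit 392847), .ofNat (nat_lit 398094), .ofNat (nat_lit 435561)⟩, ⟨.ofNat (nat_lit 507691), .ofNat (nat_lit 586223), .ofNat (nat_lit 529030), .ofNat (nat_lit 607556), .ofNat (nat_lit 500365), .ofNat (nat_lit 575297), .ofNat (nat_lit 521722), .ofNat (nat_lit 596648)⟩⟩, [⟨nat_lit 16, nat_lit 100, nat_lit 93, nat_lit 81, nat_lit 424477147⟩]⟩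
noncomputable def b_V_600_600_10_25 : St := ⟨true, nat_lit 0, nat_lit 1, nat_lit 1, nat_lit 80, nat_lit 260, nat_lit 280, nat_lit 240, nat_lit 280, nat_lit 80, nat_lit 120, nat_lit 40, nat_lit 80, nat_lit 240, nat_lit 320, nat_lit 0, nat_lit 336, nat_lit 0, nat_lit 40, nat_lit 0, nat_lit 0, nat_lit 0, nat_lit 0⟩
theorem d_V_600_600_10_25 (h : EB TB.env) : Dead b_V_600_600_10_25 := chkB_sound0 h (T :=
(.spl (nat_lit 4) (nat_lit 280)
(.leaf p045_l94)
(.spl (nat_lit 3) (nat_lit 60)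
(.trX (nat_lit 16) (nat_lit 100) (nat_lit 92) (nat_lit 75) (nat_lit 296) (.trX (nat_lit 19) (nat_lit 100) (nat_lit 85) (nat_lit 73) (nat_lit 312) (.leaf p045_l95)))
(.spl (nat_lit 2) (nat_lit 100)
(.trX (nat_lit 23) (nat_lit 100) (nat_lit 88) (nat_lit 94) (nat_lit 320) (.spl (nat_lit 1) (nat_lit 260)
(.leaf p045_l96)
(.spl (nat_lit 5) (nat_lit 160)
(.leaf p045_l97)
(.leaf p045_l98))))
(.leaf p045_l99))))) (by decide +kernel)
noncomputable def p045_l100 : Lf2 := ⟨nat_lit 2, nat_lit 10, [nat_lit 0, nat_lit 5, nat_lit 5, nat_lit 20], true, nat_lit 160, nat_lit 240, nat_lit 0, nat_lit 336, zbN0,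
 nat_lit 0, nat_lit 0, nat_lit 0, nat_lit 0, nat_lit 0, nat_lit 0, nat_lit 0, nat_lit 0, nat_lit 0, nat_lit 0, nat_lit 0, nat_lit 0, nat_lit 0, nat_lit 0, nat_lit 0, nat_lit 0, nat_lit 0, nat_lit 0, [],
 ⟨p045_k31, nat_lit 0, nat_lit 0, nat_lit 1, nat_lit 0, nat_lit 0, [], [], [], nat_lit 0, nat_lit 0, nat_lit 0, nat_lit 0, nat_lit 0, nat_lit 0, [], [nat_lit 48, nat_lit 40, nat_lit 40, nat_lit 80, nat_lit 12, nat_lit 428, nat_lit 200, nat_lit 11]⟩, C1.Rw.none,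
 zbF0, []⟩
noncomputable def p045_l101 : Lf2 := ⟨nat_lit 0, nat_lit 10, [nat_lit 0, nat_lit 5, nat_lit 5, nat_lit 20], true, nat_lit 240, nat_lit 336, nat_lit 0, nat_lit 336, ⟨nat_lit 0, nat_lit 1000, nat_lit 0, nat_lit 6, nat_lit 178, nat_lit 1000, nat_lit 209, nat_lit 0, nat_lit 0, nat_lit 0, nat_lit 0, nat_lit 0, nat_lit 43265467, nat_lit 10375253, nat_lit 13359280, nat_lit 4805393, false, false⟩,
 nat_lit 0, nat_lit 0, nat_lit 0, nat_lit 2819, nat_lit 6258, nat_lit 0, nat_lit 0, nat_lit 0, nat_lit 0, nat_lit 0, nat_lit 0, nat_lit 0, nat_lit 0, nat_lit 13790698348564, nat_lit 0, nat_lit 250000, nat_lit 0, nat_lit 0, [(nat_lit 6, [(nat_lit 0, nat_lit 1000)]), (nat_lit 9, [(nat_lit 0, nat_lit 1000)])],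
 ⟨p045_k32, nat_lit 0, nat_lit 0, nat_lit 44, nat_lit 0, nat_lit 0, [nat_lit 3128000000, nat_lit 3904533334], [], [nat_lit 12517605912, nat_lit 15419677632, nat_lit 13314276992, nat_lit 16069988488, nat_lit 21073734329, nat_lit 23555736335, nat_lit 21371014464, nat_lit 23699847108], nat_lit 0, nat_lit 0, nat_lit 0, nat_lit 0, nat_lit 0, nat_lit 0, [], [nat_lit 116, nat_lit 40, nat_lit 40, nat_lit 80, nat_lit 65, nat_lit 428, nat_lit 200, nat_lit 10]⟩, C1.Rw.none,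
 ⟨nat_lit 5477, nat_lit 6325, ⟨.ofNat (nat_lit 378206), .ofNat (nat_lit 460470), .ofNat (nat_lit 420942), .ofNat (nat_lit 503169), .ofNat (nat_lit 392847), .ofNat (nat_lit 467780), .ofNat (nat_lit 435561), .ofNat (nat_lit 510457)⟩, ⟨.ofNat (nat_lit 411320), .ofNat (nat_lit 608692), .ofNat (nat_lit 454055), .ofNat (nat_lit 651380), .ofNat (nat_lit 404075), .ofNat (nat_lit 583853), .ofNat (nat_lit 446789), .ofNat (nat_lit 626519)⟩⟩, [⟨nat_lit 4, nat_lit 92, nat_lit 100, nat_lit 75, nat_lit 499251365⟩]⟩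
noncomputable def p045_l102 : Lf2 := ⟨nat_lit 0, nat_lit 10, [nat_lit 0, nat_lit 5, nat_lit 5, nat_lit 20], true, nat_lit 240, nat_lit 336, nat_lit 0, nat_lit 336, ⟨nat_lit 0, nat_lit 1000, nat_lit 0, nat_lit 6, nat_lit 226, nat_lit 1000, nat_lit 209, nat_lit 0, nat_lit 0, nat_lit 0, nat_lit 0, nat_lit 0, nat_lit 39963162, nat_lit 14327042, nat_lit 12709796, nat_lit 5146379, false, false⟩,
 nat_lit 0, nat_lit 0, nat_lit 0, nat_lit 2819, nat_lit 5768, nat_lit 0, nat_lit 0, nat_lit 0, nat_lit 0, nat_lit 0, nat_lit 0, nat_lit 0, nat_lit 0, nat_lit 12260603559779, nat_lit 0, nat_lit 250000, nat_lit 0, nat_lit 0, [(nat_lit 6, [(nat_lit 0, nat_lit 1000)]), (nat_lit 9, [(nat_lit 0, nat_lit 1000)])],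
 ⟨p045_k32, nat_lit 0, nat_lit 0, nat_lit 36, nat_lit 0, nat_lit 0, [nat_lit 3128000000, nat_lit 3904533334], [], [nat_lit 14015651232, nat_lit 16611916160, nat_lit 17175408640, nat_lit 19350099936, nat_lit 21203920544, nat_lit 23446498292, nat_lit 23628166541, nat_lit 25507422445], nat_lit 0, nat_lit 0, nat_lit 0, nat_lit 0, nat_lit 0, nat_lit 0, [], [nat_lit 116, nat_lit 40, nat_lit 40, nat_lit 80, nat_lit 65, nat_lit 456, nat_lit 225, nat_lit 11]⟩, C1.Rw.none,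
 ⟨nat_lit 5477, nat_lit 6325, ⟨.ofNat (nat_lit 460470), .ofNat (nat_lit 624852), .ofNat (nat_lit 503169), .ofNat (nat_lit 667525), .ofNat (nat_lit 467780), .ofNat (nat_lit 617499), .ofNat (nat_lit 510457), .ofNat (nat_lit 660151)⟩, ⟨.ofNat (nat_lit 411320), .ofNat (nat_lit 608692), .ofNat (nat_lit 454055), .ofNat (nat_lit 651380), .ofNat (nat_lit 404075), .ofNat (nat_lit 583853), .ofNat (nat_lit 446789), .ofNat (nat_lit 626519)⟩⟩, [⟨nat_lit 4, nat_lit 92, nat_lit 100, nat_lit 75, nat_lit 370919916⟩]⟩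
noncomputable def b_V_600_600_10_26 : St := ⟨true, nat_lit 0, nat_lit 1, nat_lit 1, nat_lit 80, nat_lit 240, nat_lit 280, nat_lit 240, nat_lit 280, nat_lit 120, nat_lit 240, nat_lit 40, nat_lit 80, nat_lit 160, nat_lit 336, nat_lit 0, nat_lit 336, nat_lit 0, nat_lit 40, nat_lit 0, nat_lit 0, nat_lit 0, nat_lit 0⟩
theorem d_V_600_600_10_26 (h : EB TB.env) : Dead b_V_600_600_10_26 := chkB_sound0 h (T :=
(.spl (nat_lit 4) (nat_lit 240)
(.leaf p045_l100)
(.spl (nat_lit 2) (nat_lit 160)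
(.leaf p045_l101)
(.leaf p045_l102)))) (by decide +kernel)
noncomputable def p045_l103 : Lf2 := ⟨nat_lit 0, nat_lit 8, [nat_lit 50, nat_lit 5, nat_lit 5, nat_lit 20], false, nat_lit 0, nat_lit 160, nat_lit 0, nat_lit 336, ⟨nat_lit 1000, nat_lit 0, nat_lit 0, nat_lit 0, nat_lit 0, nat_lit 0, nat_lit 0, nat_lit 0, nat_lit 0, nat_lit 0, nat_lit 0, nat_lit 0, nat_lit 0, nat_lit 0, nat_lit 0, nat_lit 0, false, false⟩,
 nat_lit 0, nat_lit 0, nat_lit 15468, nat_lit 0, nat_lit 8258, nat_lit 8188, nat_lit 1190, nat_lit 0, nat_lit 0, nat_lit 794, nat_lit 0, nat_lit 0, nat_lit 0, nat_lit 0, nat_lit 0, nat_lit 0, nat_lit 0, nat_lit 0, [],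
 ⟨p045_k33, nat_lit 0, nat_lit 0, nat_lit 225, nat_lit 0, nat_lit 0, [nat_lit 4688000000, nat_lit 7968000001, nat_lit 9842000000], [], [nat_lit 24795649784, nat_lit 26172848332, nat_lit 39491618336, nat_lit 40559272632, nat_lit 19100100905, nat_lit 20169170029, nat_lit 31542955977, nat_lit 32205080453], nat_lit 0, nat_lit 0, nat_lit 0, nat_lit 0, nat_lit 0, nat_lit 0, [], [nat_lit 29, nat_lit 40, nat_lit 40, nat_lit 80, nat_lit 17, nat_lit 456, nat_lit 225, nat_lit 13]⟩, ⟨p045_k33, nat_lit 0, nat_lit 0, nat_lit 381, nat_lit 0, nat_lit 388946, [nat_lit 4688000000, nat_lit 7968000000, nat_lit 9842000000], [], [nat_lit 30788076968, nat_lit 31255766484, nat_lit 40338889656, nat_lit 40563446868, nat_lit 31422504221, nat_lit 30647931957, nat_lit 35983523066, nat_lit 36076313509], nat_lit 1271250, nat_lit 1271250, nat_lit 1271250, nat_lit 1271250, nat_lit 0, nat_lit 2373000, [nat_lit 1100000, nat_lit 1785000, nat_lit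 1271250], [nat_lit 29, nat_lit 40, nat_lit 40, nat_lit 80, nat_lit 17, nat_lit 483, nat_lit 250, nat_lit 14]⟩,
 zbF0, [⟨nat_lit 19, nat_lit 100, nat_lit 86, nat_lit 73, nat_lit 67330142⟩, ⟨nat_lit 22, nat_lit 83, nat_lit 100, nat_lit 83, nat_lit 106649814⟩]⟩
noncomputable def p045_l104 : Lf2 := ⟨nat_lit 0, nat_lit 8, [nat_lit 50, nat_lit 5, nat_lit 5, nat_lit 20], false, nat_lit 0, nat_lit 160, nat_lit 0, nat_lit 336, ⟨nat_lit 1000, nat_lit 0, nat_lit 0, nat_lit 0, nat_lit 0, nat_lit 0, nat_lit 0, nat_lit 0, nat_lit 0, nat_lit 0, nat_lit 0, nat_lit 0, nat_lit 0, nat_lit 0, nat_lit 0, nat_lit 0, false, false⟩,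
 nat_lit 0, nat_lit 0, nat_lit 15797, nat_lit 0, nat_lit 7930, nat_lit 8363, nat_lit 5472, nat_lit 0, nat_lit 0, nat_lit 697, nat_lit 0, nat_lit 0, nat_lit 0, nat_lit 0, nat_lit 0, nat_lit 0, nat_lit 0, nat_lit 0, [],
 ⟨p045_k34, nat_lit 0, nat_lit 0, nat_lit 226, nat_lit 0, nat_lit 0, [nat_lit 4688000000, nat_lit 7968000001, nat_lit 9842000000], [], [nat_lit 20003594420, nat_lit 22206146120, nat_lit 39719525720, nat_lit 40768676880, nat_lit 14940057760, nat_lit 16210898720, nat_lit 30573743720, nat_lit 31510833840], nat_lit 0, nat_lit 0, nat_lit 0, nat_lit 0, nat_lit 0, nat_lit 0, [], [nat_lit 29, nat_lit 40, nat_lit 40, nat_lit 80, nat_lit 17, nat_lit 456, nat_lit 225, nat_lit 13]⟩, ⟨p045_k33, nat_lit 0, nat_lit 0, nat_lit 495, nat_lit 0, nat_lit 655487, [nat_lit 4688000000, nat_lit 7968000000, nat_lit 9842000000], [], [nat_lit 34747951696, nat_lit 35059408344, nat_lit 41490387824, nat_lit 41655382243, nat_lit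 32465424379, nat_lit 32610867342, nat_lit 36248402258, nat_lit 36280362461], nat_lit 1271250, nat_lit 1271250, nat_lit 1271250, nat_lit 1271250, nat_lit 0, nat_lit 2373000, [nat_lit 1100000, nat_lit 1785000, nat_lit 1271250], [nat_lit 29, nat_lit 40, nat_lit 40, nat_lit 80, nat_lit 17, nat_lit 483, nat_lit 250, nat_lit 14]⟩,
 zbF0, [⟨nat_lit 22, nat_lit 83, nat_lit 100, nat_lit 83, nat_lit 158823486⟩]⟩
noncomputable def p045_l105 : Lf2 := ⟨nat_lit 1, nat_lit 10, [nat_lit 0, nat_lit 5, nat_lit 5, nat_lit 20], false, nat_lit 0, nat_lit 160, nat_lit 0, nat_lit 336, zbN0,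
 nat_lit 0, nat_lit 0, nat_lit 0, nat_lit 0, nat_lit 0, nat_lit 0, nat_lit 0, nat_lit 0, nat_lit 0, nat_lit 0, nat_lit 0, nat_lit 0, nat_lit 0, nat_lit 0, nat_lit 0, nat_lit 0, nat_lit 0, nat_lit 0, [],
 C1.Rw.none, C1.Rw.none,
 zbF0, []⟩
noncomputable def p045_l106 : Lf2 := ⟨nat_lit 0, nat_lit 10, [nat_lit 0, nat_lit 5, nat_lit 5, nat_lit 20], false, nat_lit 0, nat_lit 160, nat_lit 0, nat_lit 328, ⟨nat_lit 1000, nat_lit 0, nat_lit 0, nat_lit 0, nat_lit 0, nat_lit 0, nat_lit 0, nat_lit 0, nat_lit 0, nat_lit 0, nat_lit 0, nat_lit 0, nat_lit 0, nat_lit 0, nat_lit 0, nat_lit 0, false, false⟩,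
 nat_lit 0, nat_lit 0, nat_lit 13051, nat_lit 0, nat_lit 7222, nat_lit 7250, nat_lit 1067, nat_lit 0, nat_lit 0, nat_lit 3582, nat_lit 0, nat_lit 0, nat_lit 0, nat_lit 0, nat_lit 0, nat_lit 0, nat_lit 0, nat_lit 0, [],
 ⟨p045_k35, nat_lit 0, nat_lit 0, nat_lit 226, nat_lit 0, nat_lit 0, [nat_lit 4688000000, nat_lit 7968000001, nat_lit 9842000000], [], [nat_lit 25258335422, nat_lit 27180378920, nat_lit 37800109145, nat_lit 38916738833, nat_lit 21134676114, nat_lit 22470218969, nat_lit 31312123627, nat_lit 32273263753], nat_lit 0, nat_lit 0, nat_lit 0, nat_lit 0, nat_lit 0, nat_lit 0, [], [nat_lit 29, nat_lit 40, nat_lit 40, nat_lit 80, nat_lit 17, nat_lit 456, nat_lit 225, nat_lit 13]⟩, ⟨p045_k35, nat_lit 0, nat_lit 0, nat_lit 515, nat_lit 0, nat_lit 714715, [nat_lit 4688000000, nat_lit 7968000000, nat_lit 9842000000], [], [nat_lit 30240551250, nat_lit 30418167500, nat_lit 37473191500, nat_lit 37978587000,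 nat_lit 27622499275, nat_lit 27684900551, nat_lit 34498521450, nat_lit 34761299800], nat_lit 1271250, nat_lit 1271250, nat_lit 1271250, nat_lit 1271250, nat_lit 0, nat_lit 2316500, [nat_lit 1100000, nat_lit 1785000, nat_lit 1271250], [nat_lit 29, nat_lit 40, nat_lit 40, nat_lit 80, nat_lit 17, nat_lit 483, nat_lit 250, nat_lit 14]⟩,
 zbF0, [⟨nat_lit 19, nat_lit 100, nat_lit 90, nat_lit 74, nat_lit 118456362⟩, ⟨nat_lit 22, nat_lit 83, nat_lit 100, nat_lit 83, nat_lit 73648399⟩]⟩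
noncomputable def p045_l107 : Lf2 := ⟨nat_lit 0, nat_lit 10, [nat_lit 0, nat_lit 5, nat_lit 5, nat_lit 20], false, nat_lit 0, nat_lit 160, nat_lit 0, nat_lit 320, ⟨nat_lit 1000, nat_lit 0, nat_lit 0, nat_lit 0, nat_lit 0, nat_lit 0, nat_lit 0, nat_lit 0, nat_lit 0, nat_lit 0, nat_lit 0, nat_lit 0, nat_lit 0, nat_lit 0, nat_lit 0, nat_lit 0, false, false⟩,
 nat_lit 0, nat_lit 0, nat_lit 11234, nat_lit 0, nat_lit 6601, nat_lit 6539, nat_lit 2046, nat_lit 0, nat_lit 0, nat_lit 2175, nat_lit 0, nat_lit 0, nat_lit 0, nat_lit 0, nat_lit 0, nat_lit 0, nat_lit 0, nat_lit 0, [],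
 ⟨p045_k15, nat_lit 0, nat_lit 0, nat_lit 226, nat_lit 0, nat_lit 0, [nat_lit 4688000000, nat_lit 7968000001, nat_lit 9842000000], [], [nat_lit 23433177117, nat_lit 24593023753, nat_lit 36317014604, nat_lit 37291194216, nat_lit 20278660167, nat_lit 21240723545, nat_lit 29321319395, nat_lit 30036058488], nat_lit 0, nat_lit 0, nat_lit 0, nat_lit 0, nat_lit 0, nat_lit 0, [], [nat_lit 29, nat_lit 40, nat_lit 40, nat_lit 80, nat_lit 17, nat_lit 456, nat_lit 225, nat_lit 13]⟩, ⟨p045_k15, nat_lit 0, nat_lit 0, nat_lit 585, nat_lit 0, nat_lit 864007, [nat_lit 4688000000, nat_lit 7968000000, nat_lit 9842000000], [], [nat_lit 31623190646, nat_lit 32054140032, nat_lit 36158281956, nat_lit 37128964024, nat_lit 30575373204, nat_lit 30833412664, nat_lit 33902429592, nat_lit 34054570316], nat_lit 1271250, nat_lit 1271250, nat_lit 1271250, nat_lit 1271250, nat_lit 0, nat_lit 2260000, [nat_lit 1100000, nat_lit 1785000, nat_lit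 1271250], [nat_lit 29, nat_lit 40, nat_lit 40, nat_lit 80, nat_lit 17, nat_lit 483, nat_lit 250, nat_lit 14]⟩,
 zbF0, [⟨nat_lit 7, nat_lit 97, nat_lit 100, nat_lit 76, nat_lit 180809428⟩]⟩
noncomputable def p045_l108 : Lf2 := ⟨nat_lit 0, nat_lit 10, [nat_lit 0, nat_lit 5, nat_lit 5, nat_lit 20], false, nat_lit 160, nat_lit 312, nat_lit 0, nat_lit 312, ⟨nat_lit 1000, nat_lit 0, nat_lit 0, nat_lit 0, nat_lit 0, nat_lit 0, nat_lit 0, nat_lit 0, nat_lit 0, nat_lit 0, nat_lit 0, nat_lit 0, nat_lit 0, nat_lit 0, nat_lit 0, nat_lit 0, false, false⟩,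
 nat_lit 0, nat_lit 0, nat_lit 13877, nat_lit 0, nat_lit 6681, nat_lit 7346, nat_lit 0, nat_lit 0, nat_lit 0, nat_lit 2029, nat_lit 0, nat_lit 0, nat_lit 0, nat_lit 0, nat_lit 0, nat_lit 0, nat_lit 0, nat_lit 0, [],
 ⟨p045_k31, nat_lit 0, nat_lit 0, nat_lit 80, nat_lit 0, nat_lit 0, [nat_lit 4688000000, nat_lit 6250000000, nat_lit 11872000000], [], [nat_lit 14268804944, nat_lit 15672843582, nat_lit 28369268320, nat_lit 29247050924, nat_lit 22094989321, nat_lit 23023792491, nat_lit 32796659355, nat_lit 33358163250], nat_lit 0, nat_lit 0, nat_lit 0, nat_lit 0, nat_lit 0, nat_lit 0, [], [nat_lit 48, nat_lit 40, nat_lit 40, nat_lit 80, nat_lit 12, nat_lit 483, nat_lit 250, nat_lit 12]⟩, ⟨p045_k31, nat_lit 0, nat_lit 0, nat_lit 485, nat_lit 0, nat_lit 486080, [nat_lit 4688000000, nat_lit 6250000000, nat_lit 11872000000], [], [nat_lit 28775024611, nat_lit 29539560728, nat_lit 37208160032, nat_lit 38224366584, nat_lit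 28754789461, nat_lit 29147356480, nat_lit 33524176537, nat_lit 34092238928], nat_lit 1271250, nat_lit 1271250, nat_lit 1271250, nat_lit 1271250, nat_lit 0, nat_lit 2203500, [nat_lit 1100000, nat_lit 1442500, nat_lit 1271250], [nat_lit 48, nat_lit 40, nat_lit 40, nat_lit 80, nat_lit 12, nat_lit 483, nat_lit 250, nat_lit 12]⟩,
 zbF0, [⟨nat_lit 4, nat_lit 92, nat_lit 100, nat_lit 68, nat_lit 526154709⟩, ⟨nat_lit 7, nat_lit 92, nat_lit 100, nat_lit 68, nat_lit 172520788⟩]⟩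
noncomputable def p045_l109 : Lf2 := ⟨nat_lit 0, nat_lit 10, [nat_lit 0, nat_lit 5, nat_lit 5, nat_lit 20], false, nat_lit 160, nat_lit 296, nat_lit 0, nat_lit 312, ⟨nat_lit 477, nat_lit 523, nat_lit 0, nat_lit 6, nat_lit 313, nat_lit 523, nat_lit 157, nat_lit 0, nat_lit 0, nat_lit 0, nat_lit 0, nat_lit 0, nat_lit 36354316, nat_lit 23037147, nat_lit 7608537, nat_lit 5070514, true, true⟩,
 nat_lit 0, nat_lit 0, nat_lit 6718, nat_lit 0, nat_lit 4684, nat_lit 3556, nat_lit 0, nat_lit 0, nat_lit 0, nat_lit 789, nat_lit 0, nat_lit 0, nat_lit 0, nat_lit 0, nat_lit 0, nat_lit 523000, nat_lit 0, nat_lit 0, [(nat_lit 9, [(nat_lit 2, nat_lit 523)])],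
 ⟨p045_k17, nat_lit 0, nat_lit 0, nat_lit 82, nat_lit 0, nat_lit 0, [nat_lit 3629169067, nat_lit 4375846934, nat_lit 4791696266], [], [nat_lit 17240822515, nat_lit 18413213147, nat_lit 27557800715, nat_lit 28247191963, nat_lit 22860708980, nat_lit 23714185463, nat_lit 30656736459, nat_lit 31161336252], nat_lit 0, nat_lit 0, nat_lit 0, nat_lit 0, nat_lit 0, nat_lit 0, [], [nat_lit 11, nat_lit 40, nat_lit 40, nat_lit 80, nat_lit 1, nat_lit 483, nat_lit 250, nat_lit 13]⟩, ⟨p045_k31, nat_lit 0, nat_lit 0, nat_lit 571, nat_lit 0, nat_lit 741321, [nat_lit 2236176000, nat_lit 2981250000, nat_lit 5662944000], [], [nat_lit 15505594535, nat_lit 15686721125, nat_lit 18094480691, nat_lit 18366045940, nat_lit 14590348054, nat_lit 14718914735, nat_lit 16237208982, nat_lit 16319353012], nat_lit 1271250, nat_lit 1271250, nat_lit 1271250, nat_lit 1271250, nat_lit 0, nat_lit 2203500, [nat_lit 1100000, nat_lit 1442500, nat_lit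 1271250], [nat_lit 48, nat_lit 40, nat_lit 40, nat_lit 80, nat_lit 12, nat_lit 483, nat_lit 250, nat_lit 12]⟩,
 ⟨nat_lit 5477, nat_lit 5917, ⟨.ofNat (nat_lit 621176), .ofNat (nat_lit 935234), .ofNat (nat_lit 642507), .ofNat (nat_lit 956565), .ofNat (nat_lit 617611), .ofNat (nat_lit 917267), .ofNat (nat_lit 638960), .ofNat (nat_lit 938616)⟩, ⟨.ofNat (nat_lit 250751), .ofNat (nat_lit 517765), .ofNat (nat_lit 272090), .ofNat (nat_lit 539104), .ofNat (nat_lit 254209), .ofNat (nat_lit 508982), .ofNat (nat_lit 275566), .ofNat (nat_lit 530339)⟩⟩, [⟨nat_lit 4, nat_lit 100, nat_lit 100, nat_lit 71, nat_lit 272021766⟩, ⟨nat_lit 19, nat_lit 100, nat_lit 92, nat_lit 68, nat_lit 80707405⟩]⟩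
noncomputable def p045_l110 : Lf2 := ⟨nat_lit 0, nat_lit 10, [nat_lit 0, nat_lit 5, nat_lit 5, nat_lit 20], false, nat_lit 160, nat_lit 336, nat_lit 0, nat_lit 336, ⟨nat_lit 1000, nat_lit 0, nat_lit 0, nat_lit 0, nat_lit 0, nat_lit 0, nat_lit 0, nat_lit 0, nat_lit 0, nat_lit 0, nat_lit 0, nat_lit 0, nat_lit 0, nat_lit 0, nat_lit 0, nat_lit 0, false, false⟩,
 nat_lit 0, nat_lit 0, nat_lit 14153, nat_lit 0, nat_lit 6296, nat_lit 7492, nat_lit 0, nat_lit 0, nat_lit 0, nat_lit 1638, nat_lit 0, nat_lit 0, nat_lit 0, nat_lit 0, nat_lit 0, nat_lit 0, nat_lit 0, nat_lit 0, [],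
 ⟨p045_k31, nat_lit 0, nat_lit 0, nat_lit 83, nat_lit 0, nat_lit 0, [nat_lit 4688000000, nat_lit 6250000000, nat_lit 11872000000], [], [nat_lit 14819884704, nat_lit 17538643520, nat_lit 27978601120, nat_lit 29697603648, nat_lit 24122526804, nat_lit 25781442560, nat_lit 33587214215, nat_lit 34589694260], nat_lit 0, nat_lit 0, nat_lit 0, nat_lit 0, nat_lit 0, nat_lit 0, [], [nat_lit 48, nat_lit 40, nat_lit 40, nat_lit 80, nat_lit 12, nat_lit 538, nat_lit 300, nat_lit 13]⟩, ⟨p045_k31, nat_lit 0, nat_lit 0, nat_lit 486, nat_lit 0, nat_lit 487630, [nat_lit 4688000000, nat_lit 6250000000, nat_lit 11872000000], [], [nat_lit 30223330522, nat_lit 30752877266, nat_lit 38052187162, nat_lit 38601356106, nat_lit 29036993696, nat_lit 29389612572, nat_lit 34998764989, nat_lit 35503203594], nat_lit 1271250, nat_lit 1271250, nat_lit 1271250, nat_lit 1271250, nat_lit 0, nat_lit 2373000, [nat_lit 1100000, nat_lit 1442500, nat_lit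 1271250], [nat_lit 48, nat_lit 40, nat_lit 40, nat_lit 80, nat_lit 12, nat_lit 483, nat_lit 250, nat_lit 12]⟩,
 zbF0, [⟨nat_lit 4, nat_lit 89, nat_lit 100, nat_lit 80, nat_lit 459226210⟩, ⟨nat_lit 7, nat_lit 85, nat_lit 100, nat_lit 78, nat_lit 183753271⟩]⟩
noncomputable def p045_l111 : Lf2 := ⟨nat_lit 0, nat_lit 10, [nat_lit 0, nat_lit 5, nat_lit 5, nat_lit 20], false, nat_lit 160, nat_lit 320, nat_lit 0, nat_lit 320, ⟨nat_lit 1000, nat_lit 0, nat_lit 0, nat_lit 0, nat_lit 0, nat_lit 0, nat_lit 0, nat_lit 0, nat_lit 0, nat_lit 0, nat_lit 0, nat_lit 0, nat_lit 0, nat_lit 0, nat_lit 0, nat_lit 0, false, false⟩,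
 nat_lit 0, nat_lit 0, nat_lit 11234, nat_lit 0, nat_lit 5951, nat_lit 6539, nat_lit 0, nat_lit 0, nat_lit 0, nat_lit 3636, nat_lit 0, nat_lit 0, nat_lit 0, nat_lit 2938979232111, nat_lit 0, nat_lit 0, nat_lit 0, nat_lit 0, [],
 ⟨p045_k15, nat_lit 0, nat_lit 0, nat_lit 97, nat_lit 0, nat_lit 0, [nat_lit 4688000000, nat_lit 7968000001, nat_lit 9842000000], [], [nat_lit 16633069522, nat_lit 17952429620, nat_lit 28471642004, nat_lit 29314761288, nat_lit 24094419576, nat_lit 24957050996, nat_lit 32852378368, nat_lit 33389786400], nat_lit 0, nat_lit 0, nat_lit 0, nat_lit 0, nat_lit 0, nat_lit 0, [], [nat_lit 29, nat_lit 40, nat_lit 40, nat_lit 80, nat_lit 17, nat_lit 483, nat_lit 250, nat_lit 13]⟩, ⟨p045_k15, nat_lit 0, nat_lit 0, nat_lit 585, nat_lit 0, nat_lit 864007, [nat_lit 4688000000, nat_lit 7968000000, nat_lit 9842000000], [], [nat_lit 30050900660, nat_lit 30677775780, nat_lit 36158281956, nat_lit 37128964024,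 nat_lit 30511471078, nat_lit 30833412664, nat_lit 33902429592, nat_lit 34054570316], nat_lit 1271250, nat_lit 1271250, nat_lit 1271250, nat_lit 1271250, nat_lit 0, nat_lit 2260000, [nat_lit 1100000, nat_lit 1785000, nat_lit 1271250], [nat_lit 29, nat_lit 40, nat_lit 40, nat_lit 80, nat_lit 17, nat_lit 483, nat_lit 250, nat_lit 14]⟩,
 zbF0, [⟨nat_lit 16, nat_lit 100, nat_lit 97, nat_lit 76, nat_lit 583431043⟩, ⟨nat_lit 19, nat_lit 100, nat_lit 97, nat_lit 76, nat_lit 180809428⟩]⟩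
noncomputable def b_V_600_600_10_27 : St := ⟨true, nat_lit 0, nat_lit 1, nat_lit 1, nat_lit 80, nat_lit 240, nat_lit 280, nat_lit 240, nat_lit 280, nat_lit 240, nat_lit 400, nat_lit 40, nat_lit 80, nat_lit 0, nat_lit 336, nat_lit 0, nat_lit 336, nat_lit 0, nat_lit 40, nat_lit 0, nat_lit 0, nat_lit 0, nat_lit 0⟩
theorem d_V_600_600_10_27 (h : EB TB.env) : Dead b_V_600_600_10_27 := chkB_sound0 h (T :=
(.spl (nat_lit 4) (nat_lit 160)
(.spl (nat_lit 1) (nat_lit 260)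
(.spl (nat_lit 1) (nat_lit 250)
(.spl (nat_lit 6) (nat_lit 32)
(.spl (nat_lit 0) (nat_lit 260)
(.leaf p045_l103)
(.leaf p045_l104))
(.leaf p045_l105))
(.ord (.trX (nat_lit 19) (nat_lit 100) (nat_lit 81) (nat_lit 83) (nat_lit 328) (.leaf p045_l106))))
(.ord (.trX (nat_lit 19) (nat_lit 100) (nat_lit 85) (nat_lit 84) (nat_lit 320) (.leaf p045_l107))))
(.spl (nat_lit 1) (nat_lit 260)
(.spl (nat_lit 3) (nat_lit 60)
(.trX (nat_lit 16) (nat_lit 100) (nat_lit 85) (nat_lit 73) (nat_lit 312) (.trX (nat_lit 19) (nat_lit 100) (nat_lit 85) (nat_lit 73) (nat_lit 312) (.spl (nat_lit 0) (nat_lit 260)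
(.leaf p045_l108)
(.trX (nat_lit 16) (nat_lit 100) (nat_lit 92) (nat_lit 75) (nat_lit 296) (.leaf p045_l109)))))
(.leaf p045_l110))
(.ord (.trX (nat_lit 16) (nat_lit 100) (nat_lit 85) (nat_lit 84) (nat_lit 320) (.trX (nat_lit 19) (nat_lit 100) (nat_lit 85) (nat_lit 84) (nat_lit 320) (.leaf p045_l111))))))) (by decide +kernel)
noncomputable def p045_l112 : Lf2 := ⟨nat_lit 0, nat_lit 10, [nat_lit 0, nat_lit 5, nat_lit 5, nat_lit 20], true, nat_lit 0, nat_lit 336, nat_lit 0, nat_lit 336, ⟨nat_lit 0, nat_lit 1000, nat_lit 0, nat_lit 6, nat_lit 169, nat_lit 1000, nat_lit 124, nat_lit 0, nat_lit 0, nat_lit 0, nat_lit 0, nat_lit 0, nat_lit 0, nat_lit 0, nat_lit 0, nat_lit 5000000, false, false⟩,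
 nat_lit 0, nat_lit 0, nat_lit 0, nat_lit 6791, nat_lit 5392, nat_lit 0, nat_lit 124, nat_lit 0, nat_lit 0, nat_lit 0, nat_lit 0, nat_lit 0, nat_lit 0, nat_lit 22455707550304, nat_lit 0, nat_lit 1000000, nat_lit 0, nat_lit 0, [(nat_lit 6, [(nat_lit 2, nat_lit 1000)]), (nat_lit 9, [(nat_lit 2, nat_lit 1000)])],
 ⟨p045_k31, nat_lit 0, nat_lit 0, nat_lit 357, nat_lit 0, nat_lit 0, [nat_lit 2819200001, nat_lit 3459600001, nat_lit 34800000], [], [nat_lit 22667231290, nat_lit 24766400959, nat_lit 22780925798, nat_lit 24205339077, nat_lit 26082099829, nat_lit 27396278269, nat_lit 25546984208, nat_lit 26501237469], nat_lit 0, nat_lit 0, nat_lit 0, nat_lit 0, nat_lit 0, nat_lit 0, [], [nat_lit 48, nat_lit 40, nat_lit 40, nat_lit 80, nat_lit 12, nat_lit 456, nat_lit 225, nat_lit 12]⟩, C1.Rw.none,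
 ⟨nat_lit 5477, nat_lit 6325, ⟨.ofNat (nat_lit 164319), .ofNat (nat_lit 624852), .ofNat (nat_lit 207055), .ofNat (nat_lit 667525), .ofNat (nat_lit 198021), .ofNat (nat_lit 617499), .ofNat (nat_lit 240735), .ofNat (nat_lit 660151)⟩, ⟨.negSucc (nat_lit 82265), .ofNat (nat_lit 608692), .negSucc (nat_lit 39529), .ofNat (nat_lit 651380), .negSucc (nat_lit 45522), .ofNat (nat_lit 583853), .negSucc (nat_lit 2808), .ofNat (nat_lit 626519)⟩⟩, [⟨nat_lit 0, nat_lit 100, nat_lit 100, nat_lit 80, nat_lit 6699191⟩, ⟨nat_lit 4, nat_lit 92, nat_lit 100, nat_lit 75, nat_lit 130262643⟩]⟩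
noncomputable def p045_l113 : Lf2 := ⟨nat_lit 0, nat_lit 10, [nat_lit 0, nat_lit 5, nat_lit 5, nat_lit 20], false, nat_lit 0, nat_lit 336, nat_lit 0, nat_lit 336, ⟨nat_lit 1000, nat_lit 0, nat_lit 0, nat_lit 0, nat_lit 0, nat_lit 0, nat_lit 0, nat_lit 0, nat_lit 0, nat_lit 0, nat_lit 0, nat_lit 0, nat_lit 0, nat_lit 0, nat_lit 0, nat_lit 0, false, false⟩,
 nat_lit 0, nat_lit 0, nat_lit 0, nat_lit 13135, nat_lit 7862, nat_lit 7998, nat_lit 1024, nat_lit 0, nat_lit 0, nat_lit 1026, nat_lit 0, nat_lit 0, nat_lit 0, nat_lit 0, nat_lit 0, nat_lit 0, nat_lit 0, nat_lit 0, [],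
 ⟨p045_k27, nat_lit 0, nat_lit 0, nat_lit 251, nat_lit 0, nat_lit 0, [nat_lit 4688000000, nat_lit 7968000001, nat_lit 11872000000], [], [nat_lit 27872526232, nat_lit 30172040736, nat_lit 39487951232, nat_lit 40591936800, nat_lit 28200149471, nat_lit 29284880681, nat_lit 35654099133, nat_lit 36446305023], nat_lit 0, nat_lit 0, nat_lit 0, nat_lit 0, nat_lit 0, nat_lit 0, [], [nat_lit 21, nat_lit 40, nat_lit 40, nat_lit 80, nat_lit 14, nat_lit 538, nat_lit 300, nat_lit 13]⟩, ⟨p045_k27, nat_lit 0, nat_lit 0, nat_lit 251, nat_lit 0, nat_lit 0, [nat_lit 4688000000, nat_lit 7968000000, nat_lit 11872000000], [], [nat_lit 27893695728, nat_lit 30212752344, nat_lit 39625740728, nat_lit 40946606768, nat_lit 28100856042, nat_lit 29188151664, nat_lit 35609898805, nat_lit 36607543250], nat_lit 0, nat_lit 0, nat_lit 0, nat_lit 0, nat_lit 0, nat_lit 0, [], [nat_lit 21, nat_lit 40, nat_lit 40, nat_lit 80, nat_lit 14, nat_lit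 538, nat_lit 300, nat_lit 13]⟩,
 zbF0, [⟨nat_lit 16, nat_lit 100, nat_lit 92, nat_lit 75, nat_lit 170280111⟩, ⟨nat_lit 7, nat_lit 92, nat_lit 100, nat_lit 75, nat_lit 166437545⟩]⟩
noncomputable def p045_l114 : Lf2 := ⟨nat_lit 0, nat_lit 10, [nat_lit 0, nat_lit 5, nat_lit 5, nat_lit 20], true, nat_lit 0, nat_lit 336, nat_lit 0, nat_lit 336, ⟨nat_lit 0, nat_lit 1000, nat_lit 0, nat_lit 6, nat_lit 169, nat_lit 1000, nat_lit 124, nat_lit 0, nat_lit 0, nat_lit 0, nat_lit 0, nat_lit 0, nat_lit 0, nat_lit 0, nat_lit 0, nat_lit 5000000, false, false⟩,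
 nat_lit 0, nat_lit 0, nat_lit 0, nat_lit 6791, nat_lit 5392, nat_lit 0, nat_lit 124, nat_lit 0, nat_lit 0, nat_lit 0, nat_lit 0, nat_lit 0, nat_lit 0, nat_lit 22455707550304, nat_lit 0, nat_lit 1000000, nat_lit 0, nat_lit 0, [(nat_lit 6, [(nat_lit 2, nat_lit 1000)]), (nat_lit 9, [(nat_lit 2, nat_lit 1000)])],
 ⟨p045_k31, nat_lit 0, nat_lit 0, nat_lit 357, nat_lit 0, nat_lit 0, [nat_lit 2819200001, nat_lit 3459600001, nat_lit 34800000], [], [nat_lit 22667231290, nat_lit 24766400959, nat_lit 22780925798, nat_lit 24205339077, nat_lit 26082099829, nat_lit 27396278269, nat_lit 25546984208, nat_lit 26501237469], nat_lit 0, nat_lit 0, nat_lit 0, nat_lit 0, nat_lit 0, nat_lit 0, [], [nat_lit 48, nat_lit 40, nat_lit 40, nat_lit 80, nat_lit 12, nat_lit 456, nat_lit 225, nat_lit 12]⟩, C1.Rw.none,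
 ⟨nat_lit 5477, nat_lit 6325, ⟨.ofNat (nat_lit 164319), .ofNat (nat_lit 624852), .ofNat (nat_lit 207055), .ofNat (nat_lit 667525), .ofNat (nat_lit 198021), .ofNat (nat_lit 617499), .ofNat (nat_lit 240735), .ofNat (nat_lit 660151)⟩, ⟨.negSucc (nat_lit 82265), .ofNat (nat_lit 608692), .negSucc (nat_lit 39529), .ofNat (nat_lit 651380), .negSucc (nat_lit 45522), .ofNat (nat_lit 583853), .negSucc (nat_lit 2808), .ofNat (nat_lit 626519)⟩⟩, [⟨nat_lit 0, nat_lit 100, nat_lit 100, nat_lit 80, nat_lit 6699191⟩, ⟨nat_lit 4, nat_lit 92, nat_lit 100, nat_lit 75, nat_lit 130262643⟩]⟩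
noncomputable def p045_l115 : Lf2 := ⟨nat_lit 0, nat_lit 10, [nat_lit 0, nat_lit 5, nat_lit 5, nat_lit 20], false, nat_lit 0, nat_lit 160, nat_lit 0, nat_lit 336, ⟨nat_lit 332, nat_lit 668, nat_lit 0, nat_lit 6, nat_lit 320, nat_lit 668, nat_lit 54, nat_lit 0, nat_lit 0, nat_lit 0, nat_lit 0, nat_lit 0, nat_lit 0, nat_lit 0, nat_lit 0, nat_lit 5000000, true, true⟩,
 nat_lit 0, nat_lit 0, nat_lit 4631, nat_lit 0, nat_lit 5205, nat_lit 2451, nat_lit 1019, nat_lit 0, nat_lit 0, nat_lit 477, nat_lit 0, nat_lit 0, nat_lit 0, nat_lit 0, nat_lit 0, nat_lit 267200, nat_lit 0, nat_lit 0, [(nat_lit 6, [(nat_lit 1, nat_lit 668)]), (nat_lit 9, [(nat_lit 1, nat_lit 668)])],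
 ⟨p045_k31, nat_lit 0, nat_lit 0, nat_lit 239, nat_lit 0, nat_lit 0, [nat_lit 3361832960, nat_lit 4365705601, nat_lit 5965544000], [], [nat_lit 23638571065, nat_lit 25282639265, nat_lit 32569960005, nat_lit 33638398280, nat_lit 21237076865, nat_lit 22630271345, nat_lit 28285095201, nat_lit 29414885441], nat_lit 0, nat_lit 0, nat_lit 0, nat_lit 0, nat_lit 0, nat_lit 0, [], [nat_lit 48, nat_lit 40, nat_lit 40, nat_lit 80, nat_lit 12, nat_lit 456, nat_lit 225, nat_lit 11]⟩, ⟨p045_k31, nat_lit 0, nat_lit 0, nat_lit 702, nat_lit 0, nat_lit 991439, [nat_lit 1556416000, nat_lit 2075000000, nat_lit 3941504000], [], [nat_lit 11981929315, nat_lit 12154958743, nat_lit 13159549084, nat_lit 13283632180, nat_lit 11172905330, nat_lit 11270773042, nat_lit 11890644513, nat_lit 11916473697], nat_lit 1271250, nat_lit 1271250, nat_lit 1271250, nat_lit 1271250, nat_lit 0, nat_lit 2373000, [nat_lit 1100000, nat_lit 1442500, nat_lit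 1271250], [nat_lit 48, nat_lit 40, nat_lit 40, nat_lit 80, nat_lit 12, nat_lit 538, nat_lit 300, nat_lit 13]⟩,
 ⟨nat_lit 5477, nat_lit 6325, ⟨.ofNat (nat_lit 624852), .ofNat (nat_lit 953563), .ofNat (nat_lit 667525), .ofNat (nat_lit 996238), .ofNat (nat_lit 617499), .ofNat (nat_lit 916886), .ofNat (nat_lit 660151), .ofNat (nat_lit 959538)⟩, ⟨.negSucc (nat_lit 82265), .ofNat (nat_lit 246791), .negSucc (nat_lit 39529), .ofNat (nat_lit 289527), .negSucc (nat_lit 45522), .ofNat (nat_lit 254209), .negSucc (nat_lit 2808), .ofNat (nat_lit 296923)⟩⟩, [⟨nat_lit 10, nat_lit 100, nat_lit 47, nat_lit 81, nat_lit 111718633⟩]⟩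
noncomputable def p045_l116 : Lf2 := ⟨nat_lit 0, nat_lit 10, [nat_lit 0, nat_lit 5, nat_lit 5, nat_lit 20], false, nat_lit 160, nat_lit 336, nat_lit 0, nat_lit 336, ⟨nat_lit 382, nat_lit 618, nat_lit 0, nat_lit 6, nat_lit 316, nat_lit 618, nat_lit 178, nat_lit 0, nat_lit 0, nat_lit 0, nat_lit 0, nat_lit 0, nat_lit 0, nat_lit 0, nat_lit 0, nat_lit 5000000, true, true⟩,
 nat_lit 0, nat_lit 0, nat_lit 5260, nat_lit 0, nat_lit 4417, nat_lit 2784, nat_lit 0, nat_lit 0, nat_lit 0, nat_lit 508, nat_lit 0, nat_lit 0, nat_lit 0, nat_lit 0, nat_lit 0, nat_lit 247200, nat_lit 0, nat_lit 0, [(nat_lit 6, [(nat_lit 1, nat_lit 618)]), (nat_lit 9, [(nat_lit 1, nat_lit 618)])],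
 ⟨p045_k31, nat_lit 0, nat_lit 0, nat_lit 83, nat_lit 0, nat_lit 0, [nat_lit 3461096960, nat_lit 4506745601, nat_lit 6407644000], [], [nat_lit 16282537168, nat_lit 18565375500, nat_lit 26763856660, nat_lit 28123376708, nat_lit 24322838507, nat_lit 25802646480, nat_lit 31477009974, nat_lit 32362781842], nat_lit 0, nat_lit 0, nat_lit 0, nat_lit 0, nat_lit 0, nat_lit 0, [], [nat_lit 48, nat_lit 40, nat_lit 40, nat_lit 80, nat_lit 12, nat_lit 538, nat_lit 300, nat_lit 13]⟩, ⟨p045_k31, nat_lit 0, nat_lit 0, nat_lit 579, nat_lit 0, nat_lit 766709, [nat_lit 1790816000, nat_lit 2387500000, nat_lit 4535104000], [], [nat_lit 13257931212, nat_lit 13403144720, nat_lit 15016682444, nat_lit 15222449992, nat_lit 12414256605, nat_lit 12464213361, nat_lit 13430746861, nat_lit 13475998561], nat_lit 1271250, nat_lit 1271250, nat_lit 1271250, nat_lit 1271250, nat_lit 0, nat_lit 2373000, [nat_lit 1100000, nat_lit 1442500, nat_lit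 1271250], [nat_lit 48, nat_lit 40, nat_lit 40, nat_lit 80, nat_lit 12, nat_lit 483, nat_lit 250, nat_lit 12]⟩,
 ⟨nat_lit 5477, nat_lit 6325, ⟨.ofNat (nat_lit 624852), .ofNat (nat_lit 953563), .ofNat (nat_lit 646189), .ofNat (nat_lit 974900), .ofNat (nat_lit 617499), .ofNat (nat_lit 916886), .ofNat (nat_lit 638825), .ofNat (nat_lit 938212)⟩, ⟨.ofNat (nat_lit 246791), .ofNat (nat_lit 608692), .ofNat (nat_lit 289527), .ofNat (nat_lit 651380), .ofNat (nat_lit 254209), .ofNat (nat_lit 583853), .ofNat (nat_lit 296923), .ofNat (nat_lit 626519)⟩⟩, [⟨nat_lit 13, nat_lit 99, nat_lit 5, nat_lit 100, nat_lit 86052458⟩, ⟨nat_lit 4, nat_lit 92, nat_lit 100, nat_lit 75, nat_lit 345165314⟩, ⟨nat_lit 7, nat_lit 88, nat_lit 100, nat_lit 74, nat_lit 62557699⟩]⟩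
noncomputable def p045_l117 : Lf2 := ⟨nat_lit 0, nat_lit 10, [nat_lit 0, nat_lit 5, nat_lit 5, nat_lit 20], false, nat_lit 160, nat_lit 320, nat_lit 0, nat_lit 320, ⟨nat_lit 402, nat_lit 598, nat_lit 0, nat_lit 6, nat_lit 322, nat_lit 598, nat_lit 171, nat_lit 0, nat_lit 0, nat_lit 0, nat_lit 0, nat_lit 0, nat_lit 0, nat_lit 0, nat_lit 0, nat_lit 5000000, true, true⟩,
 nat_lit 0, nat_lit 0, nat_lit 4521, nat_lit 0, nat_lit 4531, nat_lit 2631, nat_lit 0, nat_lit 0, nat_lit 0, nat_lit 780, nat_lit 0, nat_lit 0, nat_lit 0, nat_lit 8431694164884, nat_lit 0, nat_lit 239200, nat_lit 0, nat_lit 0, [(nat_lit 9, [(nat_lit 1, nat_lit 598)])],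
 ⟨p045_k15, nat_lit 0, nat_lit 0, nat_lit 97, nat_lit 0, nat_lit 0, [nat_lit 3524770400, nat_lit 5020338401, nat_lit 5679920000], [], [nat_lit 17337676682, nat_lit 18492319620, nat_lit 27484281732, nat_lit 28168153964, nat_lit 24089376056, nat_lit 24874731076, nat_lit 31322349188, nat_lit 31790391144], nat_lit 0, nat_lit 0, nat_lit 0, nat_lit 0, nat_lit 0, nat_lit 0, [], [nat_lit 29, nat_lit 40, nat_lit 40, nat_lit 80, nat_lit 17, nat_lit 483, nat_lit 250, nat_lit 13]⟩, ⟨p045_k15, nat_lit 0, nat_lit 0, nat_lit 585, nat_lit 0, nat_lit 864007, [nat_lit 1884576000, nat_lit 3203136000, nat_lit 3956484000], [], [nat_lit 13013110326, nat_lit 13186362600, nat_lit 14749311888, nat_lit 14931919320, nat_lit 12538227774, nat_lit 12618873852, nat_lit 13616650116, nat_lit 13691563560], nat_lit 1271250, nat_lit 1271250, nat_lit 1271250, nat_lit 1271250, nat_lit 0, nat_lit 2260000, [nat_lit 1100000, nat_lit 1785000, nat_lit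 1271250], [nat_lit 29, nat_lit 40, nat_lit 40, nat_lit 80, nat_lit 17, nat_lit 483, nat_lit 250, nat_lit 14]⟩,
 ⟨nat_lit 5477, nat_lit 5917, ⟨.ofNat (nat_lit 642507), .ofNat (nat_lit 956565), .ofNat (nat_lit 663838), .ofNat (nat_lit 977896), .ofNat (nat_lit 638960), .ofNat (nat_lit 938616), .ofNat (nat_lit 660309), .ofNat (nat_lit 959965)⟩, ⟨.ofNat (nat_lit 250751), .ofNat (nat_lit 564885), .ofNat (nat_lit 293429), .ofNat (nat_lit 607556), .ofNat (nat_lit 254209), .ofNat (nat_lit 553941), .ofNat (nat_lit 296923), .ofNat (nat_lit 596648)⟩⟩, [⟨nat_lit 16, nat_lit 100, nat_lit 97, nat_lit 76, nat_lit 331880830⟩, ⟨nat_lit 7, nat_lit 97, nat_lit 100, nat_lit 76, nat_lit 72761702⟩]⟩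
noncomputable def b_V_600_600_10_28 : St := ⟨true, nat_lit 0, nat_lit 2, nat_lit 2, nat_lit 80, nat_lit 240, nat_lit 280, nat_lit 240, nat_lit 280, nat_lit 16, nat_lit 400, nat_lit 40, nat_lit 80, nat_lit 0, nat_lit 336, nat_lit 0, nat_lit 336, nat_lit 0, nat_lit 40, nat_lit 0, nat_lit 0, nat_lit 0, nat_lit 0⟩
theorem d_V_600_600_10_28 (h : EB TB.env) : Dead b_V_600_600_10_28 := chkB_sound0 h (T :=
(.st (nat_lit 1)
(.spl (nat_lit 2) (nat_lit 240)
(.leaf p045_l112)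
(.leaf p045_l113))
(.spl (nat_lit 2) (nat_lit 240)
(.leaf p045_l114)
(.spl (nat_lit 4) (nat_lit 160)
(.leaf p045_l115)
(.spl (nat_lit 1) (nat_lit 260)
(.leaf p045_l116)
(.ord (.trX (nat_lit 16) (nat_lit 100) (nat_lit 85) (nat_lit 84) (nat_lit 320) (.trX (nat_lit 19) (nat_lit 100) (nat_lit 85) (nat_lit 84) (nat_lit 320) (.leaf p045_l117))))))))) (by decide +kernel)
noncomputable def p045_l118 : Lf2 := ⟨nat_lit 0, nat_lit 4, [nat_lit 38, nat_lit 5, nat_lit 5, nat_lit 20], true, nat_lit 0, nat_lit 80, nat_lit 0, nat_lit 336, ⟨nat_lit 0, nat_lit 0, nat_lit 1000, nat_lit 6, nat_lit 95, nat_lit 0, nat_lit 21, nat_lit 0, nat_lit 1067, nat_lit 223, nat_lit 84017, nat_lit 286, nat_lit 63455040, nat_lit 0, nat_lit 0, nat_lit 1034969, false, false⟩,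
 nat_lit 0, nat_lit 7861, nat_lit 0, nat_lit 0, nat_lit 4161, nat_lit 0, nat_lit 512, nat_lit 0, nat_lit 0, nat_lit 0, nat_lit 0, nat_lit 0, nat_lit 0, nat_lit 0, nat_lit 80, nat_lit 1000000, nat_lit 0, nat_lit 0, [(nat_lit 6, [(nat_lit 6, nat_lit 1000)])],
 ⟨p045_k36, nat_lit 0, nat_lit 0, nat_lit 270, nat_lit 0, nat_lit 116113, [nat_lit 2257066667, nat_lit 1408000000, nat_lit 211200000], [], [nat_lit 12374154476, nat_lit 13390620272, nat_lit 11249342047, nat_lit 11736998786, nat_lit 10831968329, nat_lit 11315337335, nat_lit 10033526651, nat_lit 10492363437], nat_lit 1271250, nat_lit 1271250, nat_lit 88400, nat_lit 490000, nat_lit 0, nat_lit 490000, [nat_lit 1100000, nat_lit 1442500, nat_lit 1271250], [nat_lit 9, nat_lit 40, nat_lit 40, nat_lit 80, nat_lit 2, nat_lit 249, nat_lit 40, nat_lit 9]⟩, C1.Rw.none,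
 ⟨nat_lit 6123, nat_lit 6325, ⟨.ofNat (nat_lit 164319), .ofNat (nat_lit 295942), .ofNat (nat_lit 169661), .ofNat (nat_lit 301284), .ofNat (nat_lit 172944), .ofNat (nat_lit 301553), .ofNat (nat_lit 178281), .ofNat (nat_lit 306890)⟩, ⟨.negSucc (nat_lit 82265), .ofNat (nat_lit 82263), .negSucc (nat_lit 39529), .ofNat (nat_lit 124999), .negSucc (nat_lit 72689), .ofNat (nat_lit 88071), .negSucc (nat_lit 29993), .ofNat (nat_lit 130768)⟩⟩, [⟨nat_lit 0, nat_lit 100, nat_lit 100, nat_lit 44, nat_lit 181078449⟩]⟩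
noncomputable def p045_l119 : Lf2 := ⟨nat_lit 0, nat_lit 4, [nat_lit 38, nat_lit 5, nat_lit 5, nat_lit 20], true, nat_lit 0, nat_lit 80, nat_lit 0, nat_lit 332, ⟨nat_lit 0, nat_lit 0, nat_lit 1000, nat_lit 6, nat_lit 99, nat_lit 0, nat_lit 22, nat_lit 436, nat_lit 1067, nat_lit 223, nat_lit 91267, nat_lit 289, nat_lit 63131957, nat_lit 0, nat_lit 0, nat_lit 1103397, false, false⟩,
 nat_lit 0, nat_lit 7013, nat_lit 0, nat_lit 0, nat_lit 3803, nat_lit 0, nat_lit 454, nat_lit 0, nat_lit 0, nat_lit 0, nat_lit 0, nat_lit 0, nat_lit 0, nat_lit 19302005114712, nat_lit 80, nat_lit 1000000, nat_lit 0, nat_lit 0, [(nat_lit 6, [(nat_lit 6, nat_lit 1000)])],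
 ⟨p045_k37, nat_lit 0, nat_lit 0, nat_lit 268, nat_lit 0, nat_lit 139831, [nat_lit 2257066667, nat_lit 1408000000, nat_lit 211200000], [], [nat_lit 12207138381, nat_lit 12547725470, nat_lit 11361234909, nat_lit 11686890572, nat_lit 10818778349, nat_lit 11141084360, nat_lit 10225724919, nat_lit 10532768280], nat_lit 1271250, nat_lit 1271250, nat_lit 111251, nat_lit 490000, nat_lit 0, nat_lit 490000, [nat_lit 1100000, nat_lit 1442500, nat_lit 1271250], [nat_lit 9, nat_lit 40, nat_lit 40, nat_lit 80, nat_lit 2, nat_lit 249, nat_lit 40, nat_lit 9]⟩, C1.Rw.none,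
 ⟨nat_lit 6123, nat_lit 6225, ⟨.ofNat (nat_lit 182121), .ofNat (nat_lit 304098), .ofNat (nat_lit 187461), .ofNat (nat_lit 309437), .ofNat (nat_lit 186319), .ofNat (nat_lit 306890), .ofNat (nat_lit 191656), .ofNat (nat_lit 312227)⟩, ⟨.negSucc (nat_lit 77442), .ofNat (nat_lit 85192), .negSucc (nat_lit 34729), .ofNat (nat_lit 127905), .negSucc (nat_lit 72689), .ofNat (nat_lit 88071), .negSucc (nat_lit 29993), .ofNat (nat_lit 130768)⟩⟩, [⟨nat_lit 0, nat_lit 100, nat_lit 100, nat_lit 50, nat_lit 165828219⟩]⟩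
noncomputable def p045_l120 : Lf2 := ⟨nat_lit 0, nat_lit 4, [nat_lit 38, nat_lit 5, nat_lit 5, nat_lit 20], true, nat_lit 0, nat_lit 40, nat_lit 0, nat_lit 336, ⟨nat_lit 0, nat_lit 0, nat_lit 1000, nat_lit 6, nat_lit 100, nat_lit 0, nat_lit 6, nat_lit 0, nat_lit 150, nat_lit 212, nat_lit 93750, nat_lit 290, nat_lit 63028936, nat_lit 0, nat_lit 0, nat_lit 1124758, false, false⟩,
 nat_lit 0, nat_lit 7382, nat_lit 0, nat_lit 0, nat_lit 4101, nat_lit 0, nat_lit 627, nat_lit 0, nat_lit 0, nat_lit 0, nat_lit 0, nat_lit 0, nat_lit 0, nat_lit 23175763331851, nat_lit 80, nat_lit 1000000, nat_lit 0, nat_lit 0, [(nat_lit 6, [(nat_lit 6, nat_lit 1000)])],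
 ⟨p045_k38, nat_lit 0, nat_lit 0, nat_lit 274, nat_lit 0, nat_lit 189571, [nat_lit 2257066667, nat_lit 1408000000, nat_lit 211200000], [], [nat_lit 12993891218, nat_lit 13498104821, nat_lit 13773033188, nat_lit 13262165467, nat_lit 12833904748, nat_lit 12558681091, nat_lit 14422280966, nat_lit 13918553086], nat_lit 1271250, nat_lit 1271250, nat_lit 111251, nat_lit 490000, nat_lit 0, nat_lit 230001, [nat_lit 1100000, nat_lit 1442500, nat_lit 1271250], [nat_lit 9, nat_lit 40, nat_lit 40, nat_lit 80, nat_lit 2, nat_lit 238, nat_lit 30, nat_lit 8]⟩, C1.Rw.none,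
 ⟨nat_lit 6020, nat_lit 6124, ⟨.ofNat (nat_lit 180982), .ofNat (nat_lit 301553), .ofNat (nat_lit 196993), .ofNat (nat_lit 317564), .ofNat (nat_lit 185145), .ofNat (nat_lit 304325), .ofNat (nat_lit 201152), .ofNat (nat_lit 320331)⟩, ⟨.negSucc (nat_lit 72689), .ofNat (nat_lit 7691), .negSucc (nat_lit 29993), .ofNat (nat_lit 50387), .negSucc (nat_lit 68003), .ofNat (nat_lit 11449), .negSucc (nat_lit 25318), .ofNat (nat_lit 54133)⟩⟩, []⟩
noncomputable def p045_l121 : Lf2 := ⟨nat_lit 0, nat_lit 4, [nat_lit 38, nat_lit 5, nat_lit 5, nat_lit 20], true, nat_lit 0, nat_lit 40, nat_lit 0, nat_lit 336, ⟨nat_lit 0, nat_lit 0, nat_lit 1000, nat_lit 6, nat_lit 103, nat_lit 0, nat_lit 7, nat_lit 0, nat_lit 17, nat_lit 214, nat_lit 98817, nat_lit 292, nat_lit 62845075, nat_lit 0, nat_lit 0, nat_lit 1162358, false, false⟩,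
 nat_lit 0, nat_lit 7115, nat_lit 0, nat_lit 0, nat_lit 4046, nat_lit 0, nat_lit 688, nat_lit 0, nat_lit 0, nat_lit 0, nat_lit 0, nat_lit 0, nat_lit 0, nat_lit 20988189727419, nat_lit 80, nat_lit 1000000, nat_lit 0, nat_lit 0, [(nat_lit 6, [(nat_lit 6, nat_lit 1000)])],
 ⟨p045_k39, nat_lit 0, nat_lit 0, nat_lit 296, nat_lit 0, nat_lit 236939, [nat_lit 2257066667, nat_lit 1408000000, nat_lit 211200000], [], [nat_lit 13411673916, nat_lit 13912172104, nat_lit 13033703744, nat_lit 12871112177, nat_lit 12666519246, nat_lit 12976574789, nat_lit 13693626818, nat_lit 13196654615], nat_lit 1271250, nat_lit 1271250, nat_lit 111251, nat_lit 490000, nat_lit 0, nat_lit 230001, [nat_lit 1100000, nat_lit 1442500, nat_lit 1271250], [nat_lit 9, nat_lit 40, nat_lit 40, nat_lit 80, nat_lit 2, nat_lit 238, nat_lit 30, nat_lit 8]⟩, C1.Rw.none,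
 ⟨nat_lit 5916, nat_lit 6021, ⟨.ofNat (nat_lit 185145), .ofNat (nat_lit 304325), .ofNat (nat_lit 206488), .ofNat (nat_lit 325667), .ofNat (nat_lit 189276), .ofNat (nat_lit 307076), .ofNat (nat_lit 210615), .ofNat (nat_lit 328416)⟩, ⟨.negSucc (nat_lit 68003), .ofNat (nat_lit 11449), .negSucc (nat_lit 25318), .ofNat (nat_lit 54133), .negSucc (nat_lit 63383), .ofNat (nat_lit 15150), .negSucc (nat_lit 20704), .ofNat (nat_lit 57829)⟩⟩, [⟨nat_lit 0, nat_lit 100, nat_lit 100, nat_lit 60, nat_lit 86072030⟩]⟩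
noncomputable def p045_l122 : Lf2 := ⟨nat_lit 0, nat_lit 4, [nat_lit 38, nat_lit 5, nat_lit 5, nat_lit 20], true, nat_lit 40, nat_lit 80, nat_lit 0, nat_lit 336, ⟨nat_lit 0, nat_lit 0, nat_lit 1000, nat_lit 6, nat_lit 102, nat_lit 1000, nat_lit 29, nat_lit 1000, nat_lit 8067, nat_lit 237, nat_lit 98817, nat_lit 292, nat_lit 62138071, nat_lit 0, nat_lit 0, nat_lit 1486588, false, false⟩,
 nat_lit 0, nat_lit 7790, nat_lit 0, nat_lit 0, nat_lit 4327, nat_lit 0, nat_lit 808, nat_lit 0, nat_lit 0, nat_lit 0, nat_lit 0, nat_lit 0, nat_lit 0, nat_lit 24073994647106, nat_lit 80, nat_lit 1000000, nat_lit 0, nat_lit 0, [(nat_lit 6, [(nat_lit 6, nat_lit 1000)])],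
 ⟨p045_k38, nat_lit 0, nat_lit 0, nat_lit 261, nat_lit 0, nat_lit 243793, [nat_lit 2257066667, nat_lit 1408000000, nat_lit 211200000], [], [nat_lit 12259588048, nat_lit 12345859832, nat_lit 13852008140, nat_lit 12789032993, nat_lit 13439775602, nat_lit 12369375323, nat_lit 15125532330, nat_lit 14077623797], nat_lit 1271250, nat_lit 1271250, nat_lit 111251, nat_lit 490000, nat_lit 230001, nat_lit 490000, [nat_lit 1100000, nat_lit 1442500, nat_lit 1271250], [nat_lit 9, nat_lit 40, nat_lit 40, nat_lit 80, nat_lit 2, nat_lit 249, nat_lit 40, nat_lit 9]⟩, C1.Rw.none,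
 ⟨nat_lit 5916, nat_lit 6124, ⟨.ofNat (nat_lit 180982), .ofNat (nat_lit 301553), .ofNat (nat_lit 202330), .ofNat (nat_lit 322901), .ofNat (nat_lit 189276), .ofNat (nat_lit 307076), .ofNat (nat_lit 210615), .ofNat (nat_lit 328416)⟩, ⟨.ofNat (nat_lit 7691), .ofNat (nat_lit 88071), .ofNat (nat_lit 50387), .ofNat (nat_lit 130768), .ofNat (nat_lit 15150), .ofNat (nat_lit 93684), .ofNat (nat_lit 57829), .ofNat (nat_lit 136362)⟩⟩, []⟩
noncomputable def p045_l123 : Lf2 := ⟨nat_lit 0, nat_lit 4, [nat_lit 38, nat_lit 5, nat_lit 5, nat_lit 20], true, nat_lit 0, nat_lit 80, nat_lit 0, nat_lit 336, ⟨nat_lit 0, nat_lit 0, nat_lit 1000, nat_lit 6, nat_lit 138, nat_lit 0, nat_lit 21, nat_lit 242, nat_lit 1067, nat_lit 223, nat_lit 176817, nat_lit 318, nat_lit 59882857, nat_lit 0, nat_lit 0, nat_lit 1692754, false, false⟩,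
 nat_lit 0, nat_lit 8654, nat_lit 0, nat_lit 0, nat_lit 4581, nat_lit 0, nat_lit 1937, nat_lit 0, nat_lit 0, nat_lit 0, nat_lit 0, nat_lit 0, nat_lit 0, nat_lit 0, nat_lit 80, nat_lit 1000000, nat_lit 0, nat_lit 0, [(nat_lit 6, [(nat_lit 6, nat_lit 1000)])],
 ⟨p045_k36, nat_lit 0, nat_lit 0, nat_lit 250, nat_lit 0, nat_lit 264082, [nat_lit 2257066667, nat_lit 1408000000, nat_lit 211200000], [], [nat_lit 9984274923, nat_lit 10697599852, nat_lit 10392627835, nat_lit 11070286628, nat_lit 8341218947, nat_lit 9012598368, nat_lit 9304239115, nat_lit 9438025182], nat_lit 1271250, nat_lit 1271250, nat_lit 490000, nat_lit 780000, nat_lit 0, nat_lit 490000, [nat_lit 1100000, nat_lit 1442500, nat_lit 1271250], [nat_lit 9, nat_lit 40, nat_lit 40, nat_lit 80, nat_lit 2, nat_lit 260, nat_lit 50, nat_lit 9]⟩, C1.Rw.none,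
 ⟨nat_lit 6123, nat_lit 6325, ⟨.ofNat (nat_lit 295942), .ofNat (nat_lit 378206), .ofNat (nat_lit 306625), .ofNat (nat_lit 388890), .ofNat (nat_lit 301553), .ofNat (nat_lit 381933), .ofNat (nat_lit 312227), .ofNat (nat_lit 392607)⟩, ⟨.negSucc (nat_lit 82265), .ofNat (nat_lit 82263), .negSucc (nat_lit 39529), .ofNat (nat_lit 124999), .negSucc (nat_lit 72689), .ofNat (nat_lit 88071), .negSucc (nat_lit 29993), .ofNat (nat_lit 130768)⟩⟩, []⟩
noncomputable def p045_l124 : Lf2 := ⟨nat_lit 0, nat_lit 4, [nat_lit 38, nat_lit 5, nat_lit 5, nat_lit 20], false, nat_lit 0, nat_lit 80, nat_lit 0, nat_lit 336, ⟨nat_lit 1000, nat_lit 0, nat_lit 0, nat_lit 0, nat_lit 0, nat_lit 0, nat_lit 0, nat_lit 0, nat_lit 0, nat_lit 0, nat_lit 0, nat_lit 0, nat_lit 0, nat_lit 0, nat_lit 0, nat_lit 0, false, false⟩,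
 nat_lit 0, nat_lit 10726, nat_lit 0, nat_lit 0, nat_lit 5958, nat_lit 6496, nat_lit 2964, nat_lit 0, nat_lit 0, nat_lit 0, nat_lit 0, nat_lit 0, nat_lit 0, nat_lit 3686882976584, nat_lit 0, nat_lit 0, nat_lit 0, nat_lit 0, [],
 ⟨p045_k38, nat_lit 0, nat_lit 0, nat_lit 333, nat_lit 0, nat_lit 450304, [nat_lit 4688000000, nat_lit 6250000000, nat_lit 7968000000], [], [nat_lit 29108618282, nat_lit 27580218500, nat_lit 27258441998, nat_lit 25795091660, nat_lit 26991888502, nat_lit 25548986020, nat_lit 29311428504, nat_lit 27888395952], nat_lit 1271250, nat_lit 1271250, nat_lit 490000, nat_lit 780000, nat_lit 0, nat_lit 490000, [nat_lit 1100000, nat_lit 1442500, nat_lit 1271250], [nat_lit 9, nat_lit 40, nat_lit 40, nat_lit 80, nat_lit 2, nat_lit 260, nat_lit 50, nat_lit 9]⟩, ⟨p045_k36, nat_lit 0, nat_lit 0, nat_lit 69, nat_lit 0, nat_lit 0, [nat_lit 4688000000, nat_lit 6250000000, nat_lit 7968000000], [], [nat_lit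 11224224192, nat_lit 13475714240, nat_lit 11374876768, nat_lit 13513823792, nat_lit 21944151329, nat_lit 23078725700, nat_lit 21554546829, nat_lit 22632623396], nat_lit 0, nat_lit 0, nat_lit 0, nat_lit 0, nat_lit 0, nat_lit 0, [], [nat_lit 9, nat_lit 40, nat_lit 40, nat_lit 80, nat_lit 2, nat_lit 345, nat_lit 125, nat_lit 12]⟩,
 zbF0, [⟨nat_lit 19, nat_lit 100, nat_lit 88, nat_lit 74, nat_lit 449056861⟩]⟩
noncomputable def p045_l125 : Lf2 := ⟨nat_lit 0, nat_lit 4, [nat_lit 38, nat_lit 5, nat_lit 5, nat_lit 20], true, nat_lit 80, nat_lit 160, nat_lit 0, nat_lit 336, ⟨nat_lit 0, nat_lit 0, nat_lit 1000, nat_lit 6, nat_lit 96, nat_lit 1000, nat_lit 75, nat_lit 1000, nat_lit 52267, nat_lit 271, nat_lit 86400, nat_lit 287, nat_lit 60166364, nat_lit 0, nat_lit 0, nat_lit 2102884, false, false⟩,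
 nat_lit 0, nat_lit 9257, nat_lit 0, nat_lit 0, nat_lit 4900, nat_lit 0, nat_lit 579, nat_lit 0, nat_lit 0, nat_lit 0, nat_lit 0, nat_lit 0, nat_lit 0, nat_lit 28214122785847, nat_lit 80, nat_lit 1000000, nat_lit 0, nat_lit 0, [(nat_lit 6, [(nat_lit 6, nat_lit 1000)])],
 ⟨p045_k36, nat_lit 0, nat_lit 0, nat_lit 233, nat_lit 0, nat_lit 144045, [nat_lit 2257066667, nat_lit 1408000000, nat_lit 211200000], [], [nat_lit 8933132415, nat_lit 9748285700, nat_lit 7656606667, nat_lit 8351477567, nat_lit 10265518027, nat_lit 10916913628, nat_lit 11139193067, nat_lit 9900561267], nat_lit 1271250, nat_lit 1271250, nat_lit 88400, nat_lit 490000, nat_lit 490000, nat_lit 1100001, [nat_lit 1100000, nat_lit 1442500, nat_lit 1271250], [nat_lit 9, nat_lit 40, nat_lit 40, nat_lit 80, nat_lit 2, nat_lit 272, nat_lit 60, nat_lit 9]⟩, C1.Rw.none,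
 ⟨nat_lit 6123, nat_lit 6325, ⟨.ofNat (nat_lit 164319), .ofNat (nat_lit 295942), .ofNat (nat_lit 175003), .ofNat (nat_lit 306625), .ofNat (nat_lit 172944), .ofNat (nat_lit 301553), .ofNat (nat_lit 183618), .ofNat (nat_lit 312227)⟩, ⟨.ofNat (nat_lit 82263), .ofNat (nat_lit 246791), .ofNat (nat_lit 124999), .ofNat (nat_lit 289527), .ofNat (nat_lit 88071), .ofNat (nat_lit 248833), .ofNat (nat_lit 130768), .ofNat (nat_lit 291529)⟩⟩, [⟨nat_lit 0, nat_lit 100, nat_lit 100, nat_lit 50, nat_lit 193297371⟩]⟩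
noncomputable def p045_l126 : Lf2 := ⟨nat_lit 0, nat_lit 4, [nat_lit 38, nat_lit 5, nat_lit 5, nat_lit 20], true, nat_lit 80, nat_lit 160, nat_lit 0, nat_lit 336, ⟨nat_lit 0, nat_lit 0, nat_lit 1000, nat_lit 6, nat_lit 102, nat_lit 1000, nat_lit 77, nat_lit 1000, nat_lit 54150, nat_lit 272, nat_lit 98817, nat_lit 292, nat_lit 59567756, nat_lit 0, nat_lit 0, nat_lit 2232450, false, false⟩,
 nat_lit 0, nat_lit 8299, nat_lit 0, nat_lit 0, nat_lit 4610, nat_lit 0, nat_lit 998, nat_lit 0, nat_lit 0, nat_lit 0, nat_lit 0, nat_lit 0, nat_lit 0, nat_lit 20339439926712, nat_lit 80, nat_lit 1000000, nat_lit 0, nat_lit 0, [(nat_lit 6, [(nat_lit 6, nat_lit 1000)])],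
 ⟨p045_k38, nat_lit 0, nat_lit 0, nat_lit 233, nat_lit 0, nat_lit 243793, [nat_lit 2257066667, nat_lit 1408000000, nat_lit 211200000], [], [nat_lit 9518227077, nat_lit 10434051880, nat_lit 8540821477, nat_lit 9214336487, nat_lit 10906977314, nat_lit 11588569174, nat_lit 10115021207, nat_lit 10647975494], nat_lit 1271250, nat_lit 1271250, nat_lit 111251, nat_lit 490000, nat_lit 490000, nat_lit 1100001, [nat_lit 1100000, nat_lit 1442500, nat_lit 1271250], [nat_lit 9, nat_lit 40, nat_lit 40, nat_lit 80, nat_lit 2, nat_lit 272, nat_lit 60, nat_lit 9]⟩, C1.Rw.none,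
 ⟨nat_lit 5916, nat_lit 6124, ⟨.ofNat (nat_lit 180982), .ofNat (nat_lit 301553), .ofNat (nat_lit 202330), .ofNat (nat_lit 322901), .ofNat (nat_lit 189276), .ofNat (nat_lit 307076), .ofNat (nat_lit 210615), .ofNat (nat_lit 328416)⟩, ⟨.ofNat (nat_lit 88071), .ofNat (nat_lit 248833), .ofNat (nat_lit 130768), .ofNat (nat_lit 291529), .ofNat (nat_lit 93684), .ofNat (nat_lit 250751), .ofNat (nat_lit 136362), .ofNat (nat_lit 293429)⟩⟩, [⟨nat_lit 0, nat_lit 100, nat_lit 100, nat_lit 60, nat_lit 190278434⟩]⟩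
noncomputable def p045_l127 : Lf2 := ⟨nat_lit 0, nat_lit 4, [nat_lit 38, nat_lit 5, nat_lit 5, nat_lit 20], false, nat_lit 80, nat_lit 160, nat_lit 0, nat_lit 160, ⟨nat_lit 1000, nat_lit 0, nat_lit 0, nat_lit 0, nat_lit 0, nat_lit 0, nat_lit 0, nat_lit 0, nat_lit 0, nat_lit 0, nat_lit 0, nat_lit 0, nat_lit 0, nat_lit 0, nat_lit 0, nat_lit 0, false, false⟩,
 nat_lit 0, nat_lit 11442, nat_lit 0, nat_lit 0, nat_lit 6057, nat_lit 7617, nat_lit 720, nat_lit 0, nat_lit 0, nat_lit 0, nat_lit 0, nat_lit 0, nat_lit 0, nat_lit 2421446891022, nat_lit 0, nat_lit 0, nat_lit 0, nat_lit 0, [],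
 ⟨p045_k36, nat_lit 0, nat_lit 0, nat_lit 273, nat_lit 0, nat_lit 482632, [nat_lit 4688000000, nat_lit 6250000000, nat_lit 7968000000], [], [nat_lit 33762778748, nat_lit 30608426402, nat_lit 27681042236, nat_lit 27568366068, nat_lit 30846517652, nat_lit 27954028502, nat_lit 33245925220, nat_lit 30391830478], nat_lit 1271250, nat_lit 1271250, nat_lit 490000, nat_lit 780000, nat_lit 490000, nat_lit 1100001, [nat_lit 1100000, nat_lit 1442500, nat_lit 1271250], [nat_lit 9, nat_lit 40, nat_lit 40, nat_lit 80, nat_lit 2, nat_lit 289, nat_lit 75, nat_lit 9]⟩, ⟨p045_k36, nat_lit 0, nat_lit 0, nat_lit 69, nat_lit 0, nat_lit 0, [nat_lit 4688000000, nat_lit 6250000000, nat_lit 7968000000], [], [nat_lit 11130693076, nat_lit 14039580622, nat_lit 10587881320, nat_lit 13374538844, nat_lit 7266599100, nat_lit 9352865806, nat_lit 7429090924, nat_lit 9399966660], nat_lit 0, nat_lit 0, nat_lit 0, nat_lit 0, nat_lit 0, nat_lit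 0, [], [nat_lit 9, nat_lit 40, nat_lit 40, nat_lit 80, nat_lit 2, nat_lit 289, nat_lit 75, nat_lit 10]⟩,
 zbF0, []⟩
noncomputable def p045_l128 : Lf2 := ⟨nat_lit 0, nat_lit 4, [nat_lit 38, nat_lit 5, nat_lit 5, nat_lit 20], false, nat_lit 80, nat_lit 160, nat_lit 160, nat_lit 336, ⟨nat_lit 1000, nat_lit 0, nat_lit 0, nat_lit 0, nat_lit 0, nat_lit 0, nat_lit 0, nat_lit 0, nat_lit 0, nat_lit 0, nat_lit 0, nat_lit 0, nat_lit 0, nat_lit 0, nat_lit 0, nat_lit 0, false, false⟩,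
 nat_lit 0, nat_lit 7745, nat_lit 0, nat_lit 10019, nat_lit 4100, nat_lit 6658, nat_lit 2629, nat_lit 0, nat_lit 0, nat_lit 0, nat_lit 0, nat_lit 0, nat_lit 0, nat_lit 210321009610, nat_lit 0, nat_lit 0, nat_lit 0, nat_lit 0, [],
 ⟨p045_k36, nat_lit 0, nat_lit 0, nat_lit 210, nat_lit 0, nat_lit 264082, [nat_lit 4688000000, nat_lit 6250000000, nat_lit 7968000000], [], [nat_lit 32850104400, nat_lit 31782509500, nat_lit 28579724800, nat_lit 28399463400, nat_lit 28683688800, nat_lit 29127555400, nat_lit 29002778800, nat_lit 29425046700], nat_lit 1271250, nat_lit 1271250, nat_lit 490000, nat_lit 780000, nat_lit 490000, nat_lit 1100001, [nat_lit 1100000, nat_lit 1442500, nat_lit 1271250], [nat_lit 9, nat_lit 40, nat_lit 40, nat_lit 80, nat_lit 2, nat_lit 289, nat_lit 75, nat_lit 9]⟩, ⟨p045_k36, nat_lit 0, nat_lit 0, nat_lit 61, nat_lit 0, nat_lit 0, [nat_lit 4688000000, nat_lit 6250000000, nat_lit 7968000000], [],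 [nat_lit 8794957400, nat_lit 9752347522, nat_lit 9060760376, nat_lit 9966405608, nat_lit 21863615945, nat_lit 22533146307, nat_lit 21443543263, nat_lit 21988798977], nat_lit 0, nat_lit 0, nat_lit 0, nat_lit 0, nat_lit 0, nat_lit 0, [], [nat_lit 9, nat_lit 40, nat_lit 40, nat_lit 80, nat_lit 2, nat_lit 345, nat_lit 125, nat_lit 11]⟩,
 zbF0, [⟨nat_lit 7, nat_lit 86, nat_lit 100, nat_lit 73, nat_lit 810340746⟩]⟩
noncomputable def p045_l129 : Lf2 := ⟨nat_lit 0, nat_lit 4, [nat_lit 38, nat_lit 5, nat_lit 5, nat_lit 20], false, nat_lit 80, nat_lit 160, nat_lit 160, nat_lit 336, ⟨nat_lit 1000, nat_lit 0, nat_lit 0, nat_lit 0, nat_lit 0, nat_lit 0, nat_lit 0, nat_lit 0, nat_lit 0, nat_lit 0, nat_lit 0, nat_lit 0, nat_lit 0, nat_lit 0, nat_lit 0, nat_lit 0, false, false⟩,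
 nat_lit 0, nat_lit 10780, nat_lit 0, nat_lit 576, nat_lit 5988, nat_lit 6658, nat_lit 1559, nat_lit 0, nat_lit 0, nat_lit 0, nat_lit 0, nat_lit 0, nat_lit 0, nat_lit 558991803163, nat_lit 0, nat_lit 0, nat_lit 0, nat_lit 0, [],
 ⟨p045_k38, nat_lit 0, nat_lit 0, nat_lit 258, nat_lit 0, nat_lit 450304, [nat_lit 4688000000, nat_lit 6250000000, nat_lit 7968000000], [], [nat_lit 31528302800, nat_lit 29969093468, nat_lit 25710362072, nat_lit 24260194220, nat_lit 28874328596, nat_lit 27444130724, nat_lit 31279024216, nat_lit 29868233452], nat_lit 1271250, nat_lit 1271250, nat_lit 490000, nat_lit 780000, nat_lit 490000, nat_lit 1100001, [nat_lit 1100000, nat_lit 1442500, nat_lit 1271250], [nat_lit 9, nat_lit 40, nat_lit 40, nat_lit 80, nat_lit 2, nat_lit 289, nat_lit 75, nat_lit 9]⟩, ⟨p045_k36, nat_lit 0, nat_lit 0, nat_lit 65, nat_lit 0, nat_lit 0, [nat_lit 4688000000, nat_lit 6250000000, nat_lit 7968000000], [],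 [nat_lit 8794957400, nat_lit 10709737644, nat_lit 9060760376, nat_lit 10872050840, nat_lit 21863615945, nat_lit 23203743778, nat_lit 21443543263, nat_lit 22534054690], nat_lit 0, nat_lit 0, nat_lit 0, nat_lit 0, nat_lit 0, nat_lit 0, [], [nat_lit 9, nat_lit 40, nat_lit 40, nat_lit 80, nat_lit 2, nat_lit 345, nat_lit 125, nat_lit 11]⟩,
 zbF0, [⟨nat_lit 7, nat_lit 88, nat_lit 100, nat_lit 74, nat_lit 788378727⟩]⟩
noncomputable def p045_l130 : Lf2 := ⟨nat_lit 1, nat_lit 6, [nat_lit 47, nat_lit 5, nat_lit 5, nat_lit 20], false, nat_lit 0, nat_lit 80, nat_lit 0, nat_lit 336, zbN0,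
 nat_lit 0, nat_lit 0, nat_lit 0, nat_lit 0, nat_lit 0, nat_lit 0, nat_lit 0, nat_lit 0, nat_lit 0, nat_lit 0, nat_lit 0, nat_lit 0, nat_lit 0, nat_lit 0, nat_lit 0, nat_lit 0, nat_lit 0, nat_lit 0, [],
 C1.Rw.none, C1.Rw.none,
 zbF0, []⟩
noncomputable def p045_l131 : Lf2 := ⟨nat_lit 0, nat_lit 6, [nat_lit 47, nat_lit 5, nat_lit 5, nat_lit 20], true, nat_lit 0, nat_lit 80, nat_lit 0, nat_lit 336, ⟨nat_lit 0, nat_lit 0, nat_lit 1000, nat_lit 6, nat_lit 102, nat_lit 0, nat_lit 22, nat_lit 0, nat_lit 1667, nat_lit 225, nat_lit 98817, nat_lit 292, nat_lit 62897457, nat_lit 0, nat_lit 0, nat_lit 1151713, false, false⟩,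
 nat_lit 0, nat_lit 7288, nat_lit 0, nat_lit 5, nat_lit 4048, nat_lit 0, nat_lit 667, nat_lit 0, nat_lit 0, nat_lit 0, nat_lit 0, nat_lit 0, nat_lit 0, nat_lit 18402797618484, nat_lit 79, nat_lit 474400, nat_lit 0, nat_lit 0, [(nat_lit 6, [(nat_lit 5, nat_lit 876), (nat_lit 6, nat_lit 124)])],
 ⟨p045_k40, nat_lit 0, nat_lit 0, nat_lit 301, nat_lit 0, nat_lit 64999, [nat_lit 2626973867, nat_lit 1662777601, nat_lit 16384000], [], [nat_lit 13230133124, nat_lit 13915450152, nat_lit 11885230175, nat_lit 12494918480, nat_lit 11245769143, nat_lit 11887049824, nat_lit 10502776976, nat_lit 11135317750], nat_lit 1271250, nat_lit 1271250, nat_lit 111251, nat_lit 490000, nat_lit 0, nat_lit 490000, [nat_lit 1100000, nat_lit 1442500, nat_lit 1271250], [nat_lit 11, nat_lit 40, nat_lit 40, nat_lit 80, nat_lit 1, nat_lit 345, nat_lit 125, nat_lit 10]⟩, C1.Rw.none,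
 ⟨nat_lit 5916, nat_lit 6124, ⟨.ofNat (nat_lit 180982), .ofNat (nat_lit 301553), .ofNat (nat_lit 202330), .ofNat (nat_lit 322901), .ofNat (nat_lit 189276), .ofNat (nat_lit 307076), .ofNat (nat_lit 210615), .ofNat (nat_lit 328416)⟩, ⟨.negSucc (nat_lit 72689), .ofNat (nat_lit 88071), .negSucc (nat_lit 29993), .ofNat (nat_lit 130768), .negSucc (nat_lit 63383), .ofNat (nat_lit 93684), .negSucc (nat_lit 20704), .ofNat (nat_lit 136362)⟩⟩, [⟨nat_lit 0, nat_lit 100, nat_lit 100, nat_lit 60, nat_lit 174605523⟩]⟩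
noncomputable def p045_l132 : Lf2 := ⟨nat_lit 0, nat_lit 6, [nat_lit 47, nat_lit 5, nat_lit 5, nat_lit 20], true, nat_lit 0, nat_lit 80, nat_lit 0, nat_lit 336, ⟨nat_lit 0, nat_lit 0, nat_lit 1000, nat_lit 6, nat_lit 141, nat_lit 0, nat_lit 22, nat_lit 0, nat_lit 1350, nat_lit 224, nat_lit 187267, nat_lit 321, nat_lit 59599242, nat_lit 0, nat_lit 0, nat_lit 1737368, false, false⟩,
 nat_lit 0, nat_lit 8833, nat_lit 0, nat_lit 0, nat_lit 4676, nat_lit 0, nat_lit 365, nat_lit 0, nat_lit 0, nat_lit 0, nat_lit 0, nat_lit 0, nat_lit 0, nat_lit 0, nat_lit 147, nat_lit 1000000, nat_lit 0, nat_lit 0, [(nat_lit 6, [(nat_lit 6, nat_lit 1000)])],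
 ⟨p045_k41, nat_lit 0, nat_lit 0, nat_lit 239, nat_lit 0, nat_lit 127200, [nat_lit 3329066667, nat_lit 3042400001, nat_lit 177599999], [], [nat_lit 10442719473, nat_lit 11820967321, nat_lit 10536065996, nat_lit 11905453652, nat_lit 8431737548, nat_lit 9788488180, nat_lit 9393420876, nat_lit 10168857652], nat_lit 1271250, nat_lit 1271250, nat_lit 490000, nat_lit 780000, nat_lit 0, nat_lit 490000, [nat_lit 1100000, nat_lit 1442500, nat_lit 1271250], [nat_lit 11, nat_lit 40, nat_lit 40, nat_lit 80, nat_lit 1, nat_lit 345, nat_lit 125, nat_lit 10]⟩, C1.Rw.none,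
 ⟨nat_lit 5916, nat_lit 6325, ⟨.ofNat (nat_lit 295942), .ofNat (nat_lit 378206), .ofNat (nat_lit 317309), .ofNat (nat_lit 399574), .ofNat (nat_lit 307076), .ofNat (nat_lit 385610), .ofNat (nat_lit 328416), .ofNat (nat_lit 406949)⟩, ⟨.negSucc (nat_lit 82265), .ofNat (nat_lit 82263), .negSucc (nat_lit 39529), .ofNat (nat_lit 124999), .negSucc (nat_lit 63383), .ofNat (nat_lit 93684), .negSucc (nat_lit 20704), .ofNat (nat_lit 136362)⟩⟩, []⟩
noncomputable def p045_l133 : Lf2 := ⟨nat_lit 0, nat_lit 6, [nat_lit 47, nat_lit 5, nat_lit 5, nat_lit 20], true, nat_lit 80, nat_lit 160, nat_lit 0, nat_lit 336, ⟨nat_lit 0, nat_lit 0, nat_lit 1000, nat_lit 6, nat_lit 115, nat_lit 1000, nat_lit 76, nat_lit 1000, nat_lit 54150, nat_lit 272, nat_lit 123267, nat_lit 301, nat_lit 58575392, nat_lit 0, nat_lit 0, nat_lit 2425282, false, false⟩,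
 nat_lit 0, nat_lit 9390, nat_lit 0, nat_lit 0, nat_lit 4971, nat_lit 0, nat_lit 355, nat_lit 0, nat_lit 0, nat_lit 0, nat_lit 0, nat_lit 0, nat_lit 0, nat_lit 29991573532530, nat_lit 147, nat_lit 1000000, nat_lit 0, nat_lit 0, [(nat_lit 6, [(nat_lit 6, nat_lit 1000)])],
 ⟨p045_k41, nat_lit 0, nat_lit 0, nat_lit 231, nat_lit 0, nat_lit 127200, [nat_lit 3329066667, nat_lit 3042400001, nat_lit 177599999], [], [nat_lit 9635836401, nat_lit 11049563652, nat_lit 8756164236, nat_lit 9545237682, nat_lit 10433925291, nat_lit 11918590554, nat_lit 13198288196, nat_lit 10721308490], nat_lit 1271250, nat_lit 1271250, nat_lit 88400, nat_lit 780000, nat_lit 490000, nat_lit 1100001, [nat_lit 1100000, nat_lit 1442500, nat_lit 1271250], [nat_lit 11, nat_lit 40, nat_lit 40, nat_lit 80, nat_lit 1, nat_lit 373, nat_lit 150, nat_lit 11]⟩, C1.Rw.none,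
 ⟨nat_lit 5916, nat_lit 6325, ⟨.ofNat (nat_lit 164319), .ofNat (nat_lit 378206), .ofNat (nat_lit 185687), .ofNat (nat_lit 399574), .ofNat (nat_lit 181423), .ofNat (nat_lit 385610), .ofNat (nat_lit 202762), .ofNat (nat_lit 406949)⟩, ⟨.ofNat (nat_lit 82263), .ofNat (nat_lit 246791), .ofNat (nat_lit 124999), .ofNat (nat_lit 289527), .ofNat (nat_lit 93684), .ofNat (nat_lit 250751), .ofNat (nat_lit 136362), .ofNat (nat_lit 293429)⟩⟩, [⟨nat_lit 0, nat_lit 100, nat_lit 100, nat_lit 60, nat_lit 158922228⟩]⟩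
noncomputable def p045_l134 : Lf2 := ⟨nat_lit 0, nat_lit 6, [nat_lit 47, nat_lit 5, nat_lit 5, nat_lit 20], false, nat_lit 0, nat_lit 160, nat_lit 0, nat_lit 312, ⟨nat_lit 1000, nat_lit 0, nat_lit 0, nat_lit 0, nat_lit 0, nat_lit 0, nat_lit 0, nat_lit 0, nat_lit 0, nat_lit 0, nat_lit 0, nat_lit 0, nat_lit 0, nat_lit 0, nat_lit 0, nat_lit 0, false, false⟩,
 nat_lit 0, nat_lit 9925, nat_lit 0, nat_lit 449, nat_lit 5254, nat_lit 9670, nat_lit 370, nat_lit 0, nat_lit 0, nat_lit 2432, nat_lit 0, nat_lit 0, nat_lit 0, nat_lit 10704928265276, nat_lit 0, nat_lit 0, nat_lit 0, nat_lit 0, [],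
 ⟨p045_k41, nat_lit 0, nat_lit 0, nat_lit 431, nat_lit 0, nat_lit 472290, [nat_lit 4688000000, nat_lit 6250000000, nat_lit 9842000000], [], [nat_lit 38944267360, nat_lit 36166277908, nat_lit 33388288456, nat_lit 33871830728, nat_lit 34258138840, nat_lit 31783034216, nat_lit 37311851208, nat_lit 34869256100], nat_lit 1271250, nat_lit 1271250, nat_lit 780000, nat_lit 1100001, nat_lit 0, nat_lit 1100001, [nat_lit 1100000, nat_lit 1442500, nat_lit 1271250], [nat_lit 11, nat_lit 40, nat_lit 40, nat_lit 80, nat_lit 1, nat_lit 373, nat_lit 150, nat_lit 11]⟩, ⟨p045_k41, nat_lit 0, nat_lit 0, nat_lit 142, nat_lit 0, nat_lit 0, [nat_lit 4688000000, nat_lit 6250000000, nat_lit 9842000000], [], [nat_lit 17074670240, nat_lit 19068130620, nat_lit 17518468120, nat_lit 19371892060, nat_lit 19251833932, nat_lit 21003384542, nat_lit 19405732288, nat_lit 21036349265], nat_lit 0, nat_lit 0, nat_lit 0, nat_lit 0, nat_lit 0, nat_lit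 0, [], [nat_lit 11, nat_lit 40, nat_lit 40, nat_lit 80, nat_lit 1, nat_lit 428, nat_lit 200, nat_lit 12]⟩,
 zbF0, [⟨nat_lit 7, nat_lit 92, nat_lit 100, nat_lit 68, nat_lit 315511792⟩]⟩
noncomputable def p045_l135 : Lf2 := ⟨nat_lit 0, nat_lit 6, [nat_lit 47, nat_lit 5, nat_lit 5, nat_lit 20], false, nat_lit 0, nat_lit 160, nat_lit 0, nat_lit 336, ⟨nat_lit 1000, nat_lit 0, nat_lit 0, nat_lit 0, nat_lit 0, nat_lit 0, nat_lit 0, nat_lit 0, nat_lit 0, nat_lit 0, nat_lit 0, nat_lit 0, nat_lit 0, nat_lit 0, nat_lit 0, nat_lit 0, false, false⟩,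
 nat_lit 0, nat_lit 10135, nat_lit 0, nat_lit 5358, nat_lit 5365, nat_lit 8689, nat_lit 333, nat_lit 0, nat_lit 0, nat_lit 2235, nat_lit 0, nat_lit 0, nat_lit 0, nat_lit 9716335727125, nat_lit 0, nat_lit 0, nat_lit 0, nat_lit 0, [],
 ⟨p045_k41, nat_lit 0, nat_lit 0, nat_lit 294, nat_lit 0, nat_lit 231305, [nat_lit 4688000000, nat_lit 6250000000, nat_lit 9842000000], [], [nat_lit 39113413600, nat_lit 36276734230, nat_lit 33440054860, nat_lit 33764356680, nat_lit 34118218900, nat_lit 31590198710, nat_lit 37209403980, nat_lit 34715204750], nat_lit 1271250, nat_lit 1271250, nat_lit 780000, nat_lit 1100001, nat_lit 0, nat_lit 1100001, [nat_lit 1100000, nat_lit 1442500, nat_lit 1271250], [nat_lit 11, nat_lit 40, nat_lit 40, nat_lit 80, nat_lit 1, nat_lit 373, nat_lit 150, nat_lit 11]⟩, ⟨p045_k41, nat_lit 0, nat_lit 0, nat_lit 142, nat_lit 0, nat_lit 0, [nat_lit 4688000000, nat_lit 6250000000, nat_lit 9842000000],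 [], [nat_lit 17824431358, nat_lit 19684756304, nat_lit 18327713154, nat_lit 20060099352, nat_lit 22502038737, nat_lit 23639213605, nat_lit 22481193140, nat_lit 23578386185], nat_lit 0, nat_lit 0, nat_lit 0, nat_lit 0, nat_lit 0, nat_lit 0, [], [nat_lit 11, nat_lit 40, nat_lit 40, nat_lit 80, nat_lit 1, nat_lit 428, nat_lit 200, nat_lit 12]⟩,
 zbF0, [⟨nat_lit 7, nat_lit 85, nat_lit 100, nat_lit 78, nat_lit 318274863⟩]⟩
noncomputable def p045_l136 : Lf2 := ⟨nat_lit 0, nat_lit 6, [nat_lit 47, nat_lit 5, nat_lit 5, nat_lit 20], false, nat_lit 0, nat_lit 160, nat_lit 0, nat_lit 336, ⟨nat_lit 1000, nat_lit 0, nat_lit 0, nat_lit 0, nat_lit 0, nat_lit 0, nat_lit 0, nat_lit 0, nat_lit 0, nat_lit 0, nat_lit 0, nat_lit 0, nat_lit 0, nat_lit 0, nat_lit 0, nat_lit 0, false, false⟩,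
 nat_lit 0, nat_lit 8476, nat_lit 0, nat_lit 6605, nat_lit 4487, nat_lit 8935, nat_lit 1959, nat_lit 0, nat_lit 0, nat_lit 2160, nat_lit 0, nat_lit 0, nat_lit 0, nat_lit 14036857382577, nat_lit 0, nat_lit 0, nat_lit 0, nat_lit 0, [],
 ⟨p045_k41, nat_lit 0, nat_lit 0, nat_lit 425, nat_lit 0, nat_lit 489527, [nat_lit 4688000000, nat_lit 6250000000, nat_lit 9842000000], [], [nat_lit 36213482080, nat_lit 33841034674, nat_lit 31577817250, nat_lit 32274319012, nat_lit 28589339158, nat_lit 29276603914, nat_lit 32738685132, nat_lit 31287373140], nat_lit 1271250, nat_lit 1271250, nat_lit 1100001, nat_lit 1785000, nat_lit 0, nat_lit 1100001, [nat_lit 1100000, nat_lit 1442500, nat_lit 1271250], [nat_lit 11, nat_lit 40, nat_lit 40, nat_lit 80, nat_lit 1, nat_lit 401, nat_lit 175, nat_lit 12]⟩, ⟨p045_k41, nat_lit 0, nat_lit 0, nat_lit 146, nat_lit 0, nat_lit 0, [nat_lit 4688000000, nat_lit 6250000000, nat_lit 9842000000],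 [], [nat_lit 18522087660, nat_lit 20284825830, nat_lit 22207392880, nat_lit 23647217990, nat_lit 22284013200, nat_lit 23683925893, nat_lit 24866101237, nat_lit 26006719676], nat_lit 0, nat_lit 0, nat_lit 0, nat_lit 0, nat_lit 0, nat_lit 0, [], [nat_lit 11, nat_lit 40, nat_lit 40, nat_lit 80, nat_lit 1, nat_lit 456, nat_lit 225, nat_lit 13]⟩,
 zbF0, [⟨nat_lit 7, nat_lit 88, nat_lit 100, nat_lit 74, nat_lit 324301556⟩]⟩
noncomputable def p045_l137 : Lf2 := ⟨nat_lit 1, nat_lit 10, [nat_lit 0, nat_lit 5, nat_lit 5, nat_lit 20], false, nat_lit 0, nat_lit 160, nat_lit 0, nat_lit 336, zbN0,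
 nat_lit 0, nat_lit 0, nat_lit 0, nat_lit 0, nat_lit 0, nat_lit 0, nat_lit 0, nat_lit 0, nat_lit 0, nat_lit 0, nat_lit 0, nat_lit 0, nat_lit 0, nat_lit 0, nat_lit 0, nat_lit 0, nat_lit 0, nat_lit 0, [],
 C1.Rw.none, C1.Rw.none,
 zbF0, []⟩
noncomputable def b_V_600_600_10_29 : St := ⟨true, nat_lit 1, nat_lit 0, nat_lit 1, nat_lit 80, nat_lit 240, nat_lit 260, nat_lit 240, nat_lit 280, nat_lit 16, nat_lit 240, nat_lit 40, nat_lit 80, nat_lit 0, nat_lit 160, nat_lit 0, nat_lit 336, nat_lit 0, nat_lit 40, nat_lit 0, nat_lit 0, nat_lit 0, nat_lit 0⟩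
theorem d_V_600_600_10_29 (h : EB TB.env) : Dead b_V_600_600_10_29 := chkB_sound0 h (T :=
(.ord (.spl (nat_lit 6) (nat_lit 24)
(.spl (nat_lit 2) (nat_lit 160)
(.spl (nat_lit 2) (nat_lit 120)
(.spl (nat_lit 6) (nat_lit 16)
(.spl (nat_lit 4) (nat_lit 80)
(.spl (nat_lit 2) (nat_lit 80)
(.spl (nat_lit 0) (nat_lit 250)
(.ord (.spl (nat_lit 1) (nat_lit 245)
(.leaf p045_l118)
(.ord (.trZ (nat_lit 0) (nat_lit 100) (nat_lit 100) (nat_lit 45) (nat_lit 20) (.trX (nat_lit 19) (nat_lit 100) (nat_lit 78) (nat_lit 82) (nat_lit 332) (.leaf p045_l119))))))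
(.trZ (nat_lit 0) (nat_lit 100) (nat_lit 99) (nat_lit 45) (nat_lit 20) (.spl (nat_lit 4) (nat_lit 40)
(.spl (nat_lit 0) (nat_lit 255)
(.ord (.leaf p045_l120))
(.leaf p045_l121))
(.leaf p045_l122))))
(.spl (nat_lit 0) (nat_lit 250)
(.ord (.leaf p045_l123))
(.leaf p045_l124)))
(.spl (nat_lit 2) (nat_lit 80)
(.spl (nat_lit 0) (nat_lit 250)
(.ord (.leaf p045_l125))
(.trZ (nat_lit 0) (nat_lit 100) (nat_lit 99) (nat_lit 45) (nat_lit 20) (.leaf p045_l126)))
(.spl (nat_lit 5) (nat_lit 160)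
(.leaf p045_l127)
(.spl (nat_lit 0) (nat_lit 250)
(.ord (.leaf p045_l128))
(.leaf p045_l129)))))
(.spl (nat_lit 4) (nat_lit 80)
(.spl (nat_lit 2) (nat_lit 80)
(.spl (nat_lit 0) (nat_lit 250)
(.ord (.leaf p045_l130))
(.trZ (nat_lit 0) (nat_lit 100) (nat_lit 99) (nat_lit 45) (nat_lit 20) (.leaf p045_l131)))
(.leaf p045_l132))
(.leaf p045_l133)))
(.spl (nat_lit 3) (nat_lit 60)
(.trX (nat_lit 19) (nat_lit 100) (nat_lit 85) (nat_lit 73) (nat_lit 312) (.leaf p045_l134))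
(.leaf p045_l135)))
(.leaf p045_l136))
(.leaf p045_l137)))) (by decide +kernel)

end B2
end Pool.Agent.Lib.MP_6947cd_al
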