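import Pool.Agent.Lib.MP_6947cd_al.ZB.Pre

/-!
Problem MP_6947cd_al (Chollet).  Case B, second entry in [2/5, 17/20]: certificates of the tree, part P046 (generated).
-/

set_option autoImplicit false
set_option linter.all false

namespace Pool.Agent.Lib.MP_6947cd_al
namespace B2

open Ent Fr B1 PkA

noncomputable def p046_k0 : C1.Kn := ⟨[nat_lit 80, nat_lit 100, nat_lit 120], [nat_lit 0, nat_lit 265, nat_lit 768], [(nat_lit 0, nat_lit 0, nat_lit 0), (nat_lit 1000, nat_lit 959, nat_lit 206), (nat_lit 1000, nat_lit 958, nat_lit 392)], (nat_lit 96, nat_lit 100, nat_lit 44)⟩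
noncomputable def p046_k1 : C1.Kn := ⟨[nat_lit 80, nat_lit 100, nat_lit 140], [nat_lit 0, nat_lit 0, nat_lit 1022], [(nat_lit 0, nat_lit 0, nat_lit 0), (nat_lit 0, nat_lit 0, nat_lit 0), (nat_lit 1000, nat_lit 1000, nat_lit 399)], (nat_lit 100, nat_lit 99, nat_lit 44)⟩
noncomputable def p046_k2 : C1.Kn := ⟨[nat_lit 80, nat_lit 100, nat_lit 120], [nat_lit 0, nat_lit 399, nat_lit 897], [(nat_lit 0, nat_lit 0, nat_lit 0), (nat_lit 1000, nat_lit 938, nat_lit 310), (nat_lit 1000, nat_lit 938, nat_lit 389)], (nat_lit 94, nat_lit 100, nat_lit 44)⟩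
noncomputable def p046_k3 : C1.Kn := ⟨[nat_lit 80, nat_lit 100, nat_lit 140], [nat_lit 0, nat_lit 265, nat_lit 1269], [(nat_lit 0, nat_lit 0, nat_lit 0), (nat_lit 1000, nat_lit 959, nat_lit 206), (nat_lit 1000, nat_lit 958, nat_lit 392)], (nat_lit 100, nat_lit 99, nat_lit 63)⟩
noncomputable def p046_k4 : C1.Kn := ⟨[nat_lit 80, nat_lit 100, nat_lit 140], [nat_lit 0, nat_lit 399, nat_lit 1395], [(nat_lit 0, nat_lit 0, nat_lit 0), (nat_lit 1000, nat_lit 938, nat_lit 310), (nat_lit 1000, nat_lit 938, nat_lit 389)], (nat_lit 98, nat_lit 100, nat_lit 63)⟩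
noncomputable def p046_k5 : C1.Kn := ⟨[nat_lit 80, nat_lit 100, nat_lit 160], [nat_lit 0, nat_lit 0, nat_lit 1533], [(nat_lit 0, nat_lit 0, nat_lit 0), (nat_lit 0, nat_lit 0, nat_lit 0), (nat_lit 1000, nat_lit 1000, nat_lit 399)], (nat_lit 100, nat_lit 92, nat_lit 61)⟩
noncomputable def p046_k6 : C1.Kn := ⟨[nat_lit 80, nat_lit 100, nat_lit 140], [nat_lit 0, nat_lit 0, nat_lit 1022], [(nat_lit 0, nat_lit 0, nat_lit 0), (nat_lit 0, nat_lit 0, nat_lit 0), (nat_lit 1000, nat_lit 1000, nat_lit 399)], (nat_lit 100, nat_lit 98, nat_lit 48)⟩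
noncomputable def p046_k7 : C1.Kn := ⟨[nat_lit 80, nat_lit 100, nat_lit 140], [nat_lit 0, nat_lit 132, nat_lit 1148], [(nat_lit 0, nat_lit 0, nat_lit 0), (nat_lit 1000, nat_lit 979, nat_lit 103), (nat_lit 1000, nat_lit 979, nat_lit 397)], (nat_lit 100, nat_lit 100, nat_lit 49)⟩
noncomputable def p046_k8 : C1.Kn := ⟨[nat_lit 80, nat_lit 100, nat_lit 140], [nat_lit 0, nat_lit 198, nat_lit 1210], [(nat_lit 0, nat_lit 0, nat_lit 0), (nat_lit 1000, nat_lit 969, nat_lit 154), (nat_lit 1000, nat_lit 969, nat_lit 395)], (nat_lit 98, nat_lit 100, nat_lit 49)⟩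
noncomputable def p046_k9 : C1.Kn := ⟨[nat_lit 80, nat_lit 100, nat_lit 120], [nat_lit 0, nat_lit 0, nat_lit 511], [(nat_lit 0, nat_lit 0, nat_lit 0), (nat_lit 0, nat_lit 0, nat_lit 0), (nat_lit 1000, nat_lit 997, nat_lit 383)], (nat_lit 99, nat_lit 100, nat_lit 34)⟩
noncomputable def p046_k10 : C1.Kn := ⟨[nat_lit 80, nat_lit 100, nat_lit 120], [nat_lit 0, nat_lit 466, nat_lit 966], [(nat_lit 0, nat_lit 0, nat_lit 0), (nat_lit 1000, nat_lit 927, nat_lit 359), (nat_lit 1000, nat_lit 927, nat_lit 391)], (nat_lit 93, nat_lit 100, nat_lit 44)⟩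
noncomputable def p046_k11 : C1.Kn := ⟨[nat_lit 80, nat_lit 120, nat_lit 140], [nat_lit 0, nat_lit 528, nat_lit 1572], [(nat_lit 0, nat_lit 0, nat_lit 0), (nat_lit 1000, nat_lit 959, nat_lit 206), (nat_lit 966, nat_lit 1000, nat_lit 679)], (nat_lit 100, nat_lit 99, nat_lit 63)⟩
noncomputable def p046_k12 : C1.Kn := ⟨[nat_lit 80, nat_lit 120, nat_lit 140], [nat_lit 0, nat_lit 796, nat_lit 1801], [(nat_lit 0, nat_lit 0, nat_lit 0), (nat_lit 1000, nat_lit 938, nat_lit 310), (nat_lit 982, nat_lit 1000, nat_lit 736)], (nat_lit 98, nat_lit 100, nat_lit 63)⟩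
noncomputable def p046_k13 : C1.Kn := ⟨[nat_lit 80, nat_lit 100, nat_lit 140], [nat_lit 0, nat_lit 265, nat_lit 1269], [(nat_lit 0, nat_lit 0, nat_lit 0), (nat_lit 1000, nat_lit 959, nat_lit 206), (nat_lit 1000, nat_lit 958, nat_lit 392)], (nat_lit 99, nat_lit 100, nat_lit 56)⟩
noncomputable def p046_k14 : C1.Kn := ⟨[nat_lit 80, nat_lit 100, nat_lit 140], [nat_lit 0, nat_lit 0, nat_lit 1022], [(nat_lit 0, nat_lit 0, nat_lit 0), (nat_lit 0, nat_lit 0, nat_lit 0), (nat_lit 1000, nat_lit 1000, nat_lit 399)], (nat_lit 100, nat_lit 95, nat_lit 55)⟩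
noncomputable def p046_k15 : C1.Kn := ⟨[nat_lit 80, nat_lit 120, nat_lit 140], [nat_lit 0, nat_lit 528, nat_lit 1572], [(nat_lit 0, nat_lit 0, nat_lit 0), (nat_lit 1000, nat_lit 959, nat_lit 206), (nat_lit 966, nat_lit 1000, nat_lit 679)], (nat_lit 99, nat_lit 100, nat_lit 56)⟩
noncomputable def p046_k16 : C1.Kn := ⟨[nat_lit 80, nat_lit 120, nat_lit 140], [nat_lit 0, nat_lit 664, nat_lit 1684], [(nat_lit 0, nat_lit 0, nat_lit 0), (nat_lit 1000, nat_lit 948, nat_lit 259), (nat_lit 975, nat_lit 1000, nat_lit 704)], (nat_lit 97, nat_lit 100, nat_lit 56)⟩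
noncomputable def p046_k17 : C1.Kn := ⟨[nat_lit 80, nat_lit 120], [nat_lit 0, nat_lit 528], [(nat_lit 0, nat_lit 0, nat_lit 0), (nat_lit 1000, nat_lit 959, nat_lit 206)], (nat_lit 97, nat_lit 100, nat_lit 48)⟩
noncomputable def p046_k18 : C1.Kn := ⟨[nat_lit 80, nat_lit 140], [nat_lit 0, nat_lit 792], [(nat_lit 0, nat_lit 0, nat_lit 0), (nat_lit 1000, nat_lit 959, nat_lit 206)], (nat_lit 100, nat_lit 99, nat_lit 63)⟩
noncomputable def p046_k19 : C1.Kn := ⟨[nat_lit 80, nat_lit 160], [nat_lit 0, nat_lit 0], [(nat_lit 0, nat_lit 0, nat_lit 0), (nat_lit 0, nat_lit 0, nat_lit 0)], (nat_lit 100, nat_lit 92, nat_lit 61)⟩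
noncomputable def p046_k20 : C1.Kn := ⟨[nat_lit 80, nat_lit 100, nat_lit 140], [nat_lit 0, nat_lit 466, nat_lit 1467], [(nat_lit 0, nat_lit 0, nat_lit 0), (nat_lit 1000, nat_lit 927, nat_lit 359), (nat_lit 1000, nat_lit 927, nat_lit 391)], (nat_lit 96, nat_lit 100, nat_lit 62)⟩
noncomputable def p046_k21 : C1.Kn := ⟨[nat_lit 80, nat_lit 120, nat_lit 140], [nat_lit 0, nat_lit 0, nat_lit 1164], [(nat_lit 0, nat_lit 0, nat_lit 0), (nat_lit 0, nat_lit 0, nat_lit 0), (nat_lit 941, nat_lit 1000, nat_lit 576)], (nat_lit 100, nat_lit 98, nat_lit 48)⟩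
noncomputable def p046_k22 : C1.Kn := ⟨[nat_lit 80, nat_lit 120, nat_lit 140], [nat_lit 0, nat_lit 264, nat_lit 1360], [(nat_lit 0, nat_lit 0, nat_lit 0), (nat_lit 1000, nat_lit 979, nat_lit 103), (nat_lit 951, nat_lit 1000, nat_lit 628)], (nat_lit 100, nat_lit 100, nat_lit 49)⟩
noncomputable def p046_k23 : C1.Kn := ⟨[nat_lit 80, nat_lit 120, nat_lit 160], [nat_lit 0, nat_lit 0, nat_lit 2132], [(nat_lit 0, nat_lit 0, nat_lit 0), (nat_lit 0, nat_lit 0, nat_lit 0), (nat_lit 858, nat_lit 1000, nat_lit 713)], (nat_lit 100, nat_lit 92, nat_lit 61)⟩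
noncomputable def p046_k24 : C1.Kn := ⟨[nat_lit 80, nat_lit 100, nat_lit 120], [nat_lit 0, nat_lit 65, nat_lit 576], [(nat_lit 0, nat_lit 0, nat_lit 0), (nat_lit 1000, nat_lit 990, nat_lit 51), (nat_lit 1000, nat_lit 990, nat_lit 399)], (nat_lit 98, nat_lit 100, nat_lit 34)⟩
noncomputable def p046_k25 : C1.Kn := ⟨[nat_lit 80, nat_lit 100, nat_lit 120], [nat_lit 0, nat_lit 132, nat_lit 640], [(nat_lit 0, nat_lit 0, nat_lit 0), (nat_lit 1000, nat_lit 979, nat_lit 103), (nat_lit 1000, nat_lit 979, nat_lit 397)], (nat_lit 98, nat_lit 100, nat_lit 40)⟩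
noncomputable def p046_k26 : C1.Kn := ⟨[nat_lit 80, nat_lit 100, nat_lit 120], [nat_lit 0, nat_lit 198, nat_lit 704], [(nat_lit 0, nat_lit 0, nat_lit 0), (nat_lit 1000, nat_lit 969, nat_lit 154), (nat_lit 1000, nat_lit 969, nat_lit 395)], (nat_lit 97, nat_lit 100, nat_lit 39)⟩
noncomputable def p046_k27 : C1.Kn := ⟨[nat_lit 80, nat_lit 100, nat_lit 120], [nat_lit 0, nat_lit 132, nat_lit 640], [(nat_lit 0, nat_lit 0, nat_lit 0), (nat_lit 1000, nat_lit 979, nat_lit 103), (nat_lit 1000, nat_lit 979, nat_lit 397)], (nat_lit 99, nat_lit 100, nat_lit 44)⟩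
noncomputable def p046_l0 : Lf2 := ⟨nat_lit 0, nat_lit 5, [nat_lit 4, nat_lit 5, nat_lit 5, nat_lit 20], false, nat_lit 0, nat_lit 160, nat_lit 0, nat_lit 160, ⟨nat_lit 1000, nat_lit 0, nat_lit 0, nat_lit 0, nat_lit 0, nat_lit 0, nat_lit 0, nat_lit 0, nat_lit 0, nat_lit 0, nat_lit 0, nat_lit 0, nat_lit 0, nat_lit 0, nat_lit 0, nat_lit 0, false, false⟩,
 nat_lit 0, nat_lit 11356, nat_lit 0, nat_lit 666, nat_lit 6609, nat_lit 8016, nat_lit 0, nat_lit 0, nat_lit 0, nat_lit 3257, nat_lit 0, nat_lit 0, nat_lit 0, nat_lit 0, nat_lit 0, nat_lit 0, nat_lit 0, nat_lit 0, [],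
 ⟨p046_k0, nat_lit 0, nat_lit 0, nat_lit 406, nat_lit 0, nat_lit 444417, [nat_lit 4688000000, nat_lit 6250000000, nat_lit 7968000000], [], [nat_lit 36478890372, nat_lit 35373522844, nat_lit 32789641170, nat_lit 33702563944, nat_lit 31794413191, nat_lit 32584723354, nat_lit 32595796686, nat_lit 31067304036], nat_lit 1271250, nat_lit 1271250, nat_lit 134400, nat_lit 490000, nat_lit 0, nat_lit 1100001, [nat_lit 1100000, nat_lit 1442500, nat_lit 1271250], [nat_lit 9, nat_lit 40, nat_lit 40, nat_lit 80, nat_lit 2, nat_lit 272, nat_lit 60, nat_lit 9]⟩, ⟨p046_k1, nat_lit 0, nat_lit 0, nat_lit 221, nat_lit 0, nat_lit 0, [nat_lit 4688000000, nat_lit 6250000000, nat_lit 9842000000], [], [nat_lit 19006237940, nat_lit 22864953262, nat_lit 15188944634, nat_lit 19036864192, nat_lit 14317675770, nat_lit 17736971802, nat_lit 12167740128, nat_lit 15408056096], nat_lit 0, nat_lit 0, nat_lit 0, nat_lit 0, nat_lit 0, nat_lit 0, [], [nat_lit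 11, nat_lit 40, nat_lit 40, nat_lit 80, nat_lit 1, nat_lit 373, nat_lit 150, nat_lit 11]⟩,
 zbF0, [⟨nat_lit 0, nat_lit 100, nat_lit 98, nat_lit 64, nat_lit 862775061⟩]⟩
noncomputable def p046_l1 : Lf2 := ⟨nat_lit 0, nat_lit 5, [nat_lit 4, nat_lit 5, nat_lit 5, nat_lit 20], false, nat_lit 0, nat_lit 80, nat_lit 160, nat_lit 336, ⟨nat_lit 383, nat_lit 0, nat_lit 617, nat_lit 6, nat_lit 106, nat_lit 476, nat_lit 24, nat_lit 617, nat_lit 2400, nat_lit 227, nat_lit 106667, nat_lit 295, nat_lit 62568484, nat_lit 0, nat_lit 0, nat_lit 1217710, false, false⟩,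
 nat_lit 0, nat_lit 9434, nat_lit 0, nat_lit 0, nat_lit 5491, nat_lit 2988, nat_lit 644, nat_lit 0, nat_lit 0, nat_lit 847, nat_lit 0, nat_lit 0, nat_lit 0, nat_lit 0, nat_lit 0, nat_lit 617000, nat_lit 0, nat_lit 0, [(nat_lit 9, [(nat_lit 6, nat_lit 617)])],
 ⟨p046_k0, nat_lit 0, nat_lit 0, nat_lit 315, nat_lit 0, nat_lit 287060, [nat_lit 2472723200, nat_lit 1937170000, nat_lit 1443959800], [], [nat_lit 16471691705, nat_lit 17058708427, nat_lit 15129312098, nat_lit 15679344507, nat_lit 15341919242, nat_lit 14717365076, nat_lit 17044452490, nat_lit 15714647601], nat_lit 1271250, nat_lit 1271250, nat_lit 134400, nat_lit 490000, nat_lit 0, nat_lit 490000, [nat_lit 1100000, nat_lit 1442500, nat_lit 1271250], [nat_lit 9, nat_lit 40, nat_lit 40, nat_lit 80, nat_lit 2, nat_lit 249, nat_lit 40, nat_lit 9]⟩, ⟨p046_k1, nat_lit 0, nat_lit 0, nat_lit 161, nat_lit 0, nat_lit 0, [nat_lit 1795504000, nat_lit 2393750000, nat_lit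 3769486000], [], [nat_lit 6430130148, nat_lit 6943129232, nat_lit 5533591274, nat_lit 6021262876, nat_lit 10415808451, nat_lit 10773093992, nat_lit 9167947950, nat_lit 9556064830], nat_lit 0, nat_lit 0, nat_lit 0, nat_lit 0, nat_lit 0, nat_lit 0, [], [nat_lit 11, nat_lit 40, nat_lit 40, nat_lit 80, nat_lit 1, nat_lit 401, nat_lit 175, nat_lit 11]⟩,
 ⟨nat_lit 5700, nat_lit 5917, ⟨.ofNat (nat_lit 197129), .ofNat (nat_lit 307076), .ofNat (nat_lit 218469), .ofNat (nat_lit 328416), .ofNat (nat_lit 205119), .ofNat (nat_lit 312525), .ofNat (nat_lit 226461), .ofNat (nat_lit 333867)⟩, ⟨.negSucc (nat_lit 63383), .ofNat (nat_lit 93684), .negSucc (nat_lit 20704), .ofNat (nat_lit 136362), .negSucc (nat_lit 54331), .ofNat (nat_lit 99106), .negSucc (nat_lit 11648), .ofNat (nat_lit 141790)⟩⟩, [⟨nat_lit 0, nat_lit 100, nat_lit 98, nat_lit 64, nat_lit 365138330⟩, ⟨nat_lit 7, nat_lit 88, nat_lit 100, nat_lit 74, nat_lit 253944351⟩]⟩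
noncomputable def p046_l2 : Lf2 := ⟨nat_lit 0, nat_lit 5, [nat_lit 4, nat_lit 5, nat_lit 5, nat_lit 20], true, nat_lit 80, nat_lit 160, nat_lit 160, nat_lit 336, ⟨nat_lit 0, nat_lit 0, nat_lit 1000, nat_lit 6, nat_lit 106, nat_lit 1000, nat_lit 78, nat_lit 1000, nat_lit 58017, nat_lit 274, nat_lit 106667, nat_lit 295, nat_lit 59134096, nat_lit 0, nat_lit 0, nat_lit 2324188, false, false⟩,
 nat_lit 0, nat_lit 7985, nat_lit 0, nat_lit 0, nat_lit 4647, nat_lit 0, nat_lit 0, nat_lit 0, nat_lit 0, nat_lit 0, nat_lit 0, nat_lit 0, nat_lit 0, nat_lit 0, nat_lit 117, nat_lit 1000000, nat_lit 0, nat_lit 0, [(nat_lit 9, [(nat_lit 6, nat_lit 1000)])],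
 ⟨p046_k0, nat_lit 0, nat_lit 0, nat_lit 230, nat_lit 0, nat_lit 287060, [nat_lit 2969600000, nat_lit 1600000000, nat_lit 226400000], [], [nat_lit 10264480196, nat_lit 11235424457, nat_lit 9347294174, nat_lit 10078427253, nat_lit 11622745125, nat_lit 12305590259, nat_lit 10807296432, nat_lit 11457263216], nat_lit 1271250, nat_lit 1271250, nat_lit 134400, nat_lit 490000, nat_lit 490000, nat_lit 1100001, [nat_lit 1100000, nat_lit 1442500, nat_lit 1271250], [nat_lit 9, nat_lit 40, nat_lit 40, nat_lit 80, nat_lit 2, nat_lit 272, nat_lit 60, nat_lit 9]⟩, C1.Rw.none,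
 ⟨nat_lit 5700, nat_lit 5917, ⟨.ofNat (nat_lit 197129), .ofNat (nat_lit 307076), .ofNat (nat_lit 218469), .ofNat (nat_lit 328416), .ofNat (nat_lit 205119), .ofNat (nat_lit 312525), .ofNat (nat_lit 226461), .ofNat (nat_lit 333867)⟩, ⟨.ofNat (nat_lit 93684), .ofNat (nat_lit 250751), .ofNat (nat_lit 136362), .ofNat (nat_lit 293429), .ofNat (nat_lit 99106), .ofNat (nat_lit 252544), .ofNat (nat_lit 141790), .ofNat (nat_lit 295228)⟩⟩, [⟨nat_lit 0, nat_lit 100, nat_lit 98, nat_lit 64, nat_lit 187808584⟩]⟩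
noncomputable def p046_l3 : Lf2 := ⟨nat_lit 0, nat_lit 5, [nat_lit 4, nat_lit 5, nat_lit 5, nat_lit 20], false, nat_lit 0, nat_lit 80, nat_lit 160, nat_lit 336, ⟨nat_lit 344, nat_lit 0, nat_lit 656, nat_lit 6, nat_lit 111, nat_lit 220, nat_lit 25, nat_lit 656, nat_lit 3267, nat_lit 229, nat_lit 114817, nat_lit 298, nat_lit 62238064, nat_lit 0, nat_lit 0, nat_lit 1282032, false, false⟩,
 nat_lit 0, nat_lit 8606, nat_lit 0, nat_lit 0, nat_lit 5240, nat_lit 2712, nat_lit 451, nat_lit 0, nat_lit 0, nat_lit 790, nat_lit 0, nat_lit 0, nat_lit 0, nat_lit 0, nat_lit 0, nat_lit 656000, nat_lit 0, nat_lit 0, [(nat_lit 9, [(nat_lit 6, nat_lit 656)])],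
 ⟨p046_k2, nat_lit 0, nat_lit 0, nat_lit 330, nat_lit 0, nat_lit 325402, [nat_lit 2332697601, nat_lit 1664560001, nat_lit 1034046399], [], [nat_lit 16723606446, nat_lit 17400193088, nat_lit 15673590986, nat_lit 16255544386, nat_lit 14628590554, nat_lit 15201052178, nat_lit 15546885993, nat_lit 14293051266], nat_lit 1271250, nat_lit 1271250, nat_lit 157850, nat_lit 490000, nat_lit 0, nat_lit 490000, [nat_lit 1100000, nat_lit 1442500, nat_lit 1271250], [nat_lit 9, nat_lit 40, nat_lit 40, nat_lit 80, nat_lit 2, nat_lit 249, nat_lit 40, nat_lit 9]⟩, ⟨p046_k1, nat_lit 0, nat_lit 0, nat_lit 157, nat_lit 0, nat_lit 0, [nat_lit 1612672000, nat_lit 2150000000, nat_lit 3385648000], [], [nat_lit 5540539337, nat_lit 6003078875, nat_lit 4823316284, nat_lit 5263840588, nat_lit 9144485382, nat_lit 9556495528, nat_lit 8176774663, nat_lit 8570775434], nat_lit 0, nat_lit 0, nat_lit 0, nat_lit 0, nat_lit 0, nat_lit 0, [], [nat_lit 11,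 nat_lit 40, nat_lit 40, nat_lit 80, nat_lit 1, nat_lit 401, nat_lit 175, nat_lit 11]⟩,
 ⟨nat_lit 5477, nat_lit 5701, ⟨.ofNat (nat_lit 212791), .ofNat (nat_lit 312525), .ofNat (nat_lit 234133), .ofNat (nat_lit 333867), .ofNat (nat_lit 220501), .ofNat (nat_lit 317913), .ofNat (nat_lit 241858), .ofNat (nat_lit 339271)⟩, ⟨.negSucc (nat_lit 54331), .ofNat (nat_lit 99106), .negSucc (nat_lit 11648), .ofNat (nat_lit 141790), .negSucc (nat_lit 45522), .ofNat (nat_lit 104343), .negSucc (nat_lit 2808), .ofNat (nat_lit 147057)⟩⟩, [⟨nat_lit 0, nat_lit 100, nat_lit 96, nat_lit 61, nat_lit 467393503⟩, ⟨nat_lit 7, nat_lit 88, nat_lit 100, nat_lit 74, nat_lit 234972344⟩]⟩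
noncomputable def p046_l4 : Lf2 := ⟨nat_lit 0, nat_lit 5, [nat_lit 4, nat_lit 5, nat_lit 5, nat_lit 20], true, nat_lit 80, nat_lit 160, nat_lit 160, nat_lit 336, ⟨nat_lit 0, nat_lit 0, nat_lit 1000, nat_lit 6, nat_lit 111, nat_lit 1000, nat_lit 80, nat_lit 1000, nat_lit 60000, nat_lit 275, nat_lit 114817, nat_lit 298, nat_lit 58705362, nat_lit 0, nat_lit 0, nat_lit 2412536, false, false⟩,
 nat_lit 0, nat_lit 8119, nat_lit 0, nat_lit 0, nat_lit 4944, nat_lit 0, nat_lit 1381, nat_lit 0, nat_lit 0, nat_lit 0, nat_lit 0, nat_lit 0, nat_lit 0, nat_lit 0, nat_lit 62, nat_lit 475000, nat_lit 0, nat_lit 0, [(nat_lit 9, [(nat_lit 5, nat_lit 875), (nat_lit 6, nat_lit 125)])],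
 ⟨p046_k2, nat_lit 0, nat_lit 0, nat_lit 257, nat_lit 0, nat_lit 325402, [nat_lit 2464800001, nat_lit 966900000, nat_lit 111800000], [], [nat_lit 11083670291, nat_lit 12178374490, nat_lit 10229985858, nat_lit 10985668066, nat_lit 12543835301, nat_lit 13095108864, nat_lit 14259413795, nat_lit 13094592563], nat_lit 1271250, nat_lit 1271250, nat_lit 157850, nat_lit 490000, nat_lit 490000, nat_lit 1100001, [nat_lit 1100000, nat_lit 1442500, nat_lit 1271250], [nat_lit 9, nat_lit 40, nat_lit 40, nat_lit 80, nat_lit 2, nat_lit 272, nat_lit 60, nat_lit 9]⟩, C1.Rw.none,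
 ⟨nat_lit 5477, nat_lit 5701, ⟨.ofNat (nat_lit 212791), .ofNat (nat_lit 312525), .ofNat (nat_lit 234133), .ofNat (nat_lit 333867), .ofNat (nat_lit 220501), .ofNat (nat_lit 317913), .ofNat (nat_lit 241858), .ofNat (nat_lit 339271)⟩, ⟨.ofNat (nat_lit 99106), .ofNat (nat_lit 252544), .ofNat (nat_lit 141790), .ofNat (nat_lit 295228), .ofNat (nat_lit 104343), .ofNat (nat_lit 254209), .ofNat (nat_lit 147057), .ofNat (nat_lit 296923)⟩⟩, []⟩
noncomputable def p046_l5 : Lf2 := ⟨nat_lit 0, nat_lit 5, [nat_lit 4, nat_lit 5, nat_lit 5, nat_lit 20], false, nat_lit 0, nat_lit 80, nat_lit 160, nat_lit 320, ⟨nat_lit 1000, nat_lit 0, nat_lit 0, nat_lit 0, nat_lit 0, nat_lit 0, nat_lit 0, nat_lit 0, nat_lit 0, nat_lit 0, nat_lit 0, nat_lit 0, nat_lit 0, nat_lit 0, nat_lit 0, nat_lit 0, false, false⟩,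
 nat_lit 0, nat_lit 14590, nat_lit 0, nat_lit 0, nat_lit 8492, nat_lit 6334, nat_lit 2137, nat_lit 0, nat_lit 0, nat_lit 0, nat_lit 0, nat_lit 0, nat_lit 0, nat_lit 0, nat_lit 0, nat_lit 0, nat_lit 0, nat_lit 0, [],
 ⟨p046_k0, nat_lit 0, nat_lit 0, nat_lit 322, nat_lit 0, nat_lit 338404, [nat_lit 4688000000, nat_lit 6250000000, nat_lit 7968000000], [], [nat_lit 19227839352, nat_lit 20120734631, nat_lit 17469038851, nat_lit 18159815159, nat_lit 17586841984, nat_lit 15645204518, nat_lit 19258127230, nat_lit 17201543162], nat_lit 1271250, nat_lit 1271250, nat_lit 205650, nat_lit 490000, nat_lit 0, nat_lit 490000, [nat_lit 1100000, nat_lit 1442500, nat_lit 1271250], [nat_lit 9, nat_lit 40, nat_lit 40, nat_lit 80, nat_lit 2, nat_lit 249, nat_lit 40, nat_lit 9]⟩, ⟨p046_k0, nat_lit 0, nat_lit 0, nat_lit 87, nat_lit 0, nat_lit 0, [nat_lit 4688000000, nat_lit 6250000000, nat_lit 7968000000], [], [nat_lit 12272294480, nat_lit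 13240040657, nat_lit 11168159412, nat_lit 12096581018, nat_lit 23153850204, nat_lit 23872394090, nat_lit 21659027740, nat_lit 22255113606], nat_lit 0, nat_lit 0, nat_lit 0, nat_lit 0, nat_lit 0, nat_lit 0, [], [nat_lit 9, nat_lit 40, nat_lit 40, nat_lit 80, nat_lit 2, nat_lit 317, nat_lit 100, nat_lit 10]⟩,
 zbF0, [⟨nat_lit 0, nat_lit 100, nat_lit 100, nat_lit 65, nat_lit 627927649⟩, ⟨nat_lit 19, nat_lit 100, nat_lit 85, nat_lit 84, nat_lit 64230839⟩, ⟨nat_lit 7, nat_lit 95, nat_lit 100, nat_lit 76, nat_lit 671839788⟩]⟩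
noncomputable def p046_l6 : Lf2 := ⟨nat_lit 0, nat_lit 5, [nat_lit 4, nat_lit 5, nat_lit 5, nat_lit 20], false, nat_lit 0, nat_lit 80, nat_lit 160, nat_lit 320, ⟨nat_lit 1000, nat_lit 0, nat_lit 0, nat_lit 0, nat_lit 0, nat_lit 0, nat_lit 0, nat_lit 0, nat_lit 0, nat_lit 0, nat_lit 0, nat_lit 0, nat_lit 0, nat_lit 0, nat_lit 0, nat_lit 0, false, false⟩,
 nat_lit 0, nat_lit 14636, nat_lit 0, nat_lit 0, nat_lit 8913, nat_lit 6395, nat_lit 2229, nat_lit 0, nat_lit 0, nat_lit 0, nat_lit 0, nat_lit 0, nat_lit 0, nat_lit 0, nat_lit 0, nat_lit 0, nat_lit 0, nat_lit 0, [],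
 ⟨p046_k2, nat_lit 0, nat_lit 0, nat_lit 380, nat_lit 0, nat_lit 420780, [nat_lit 4688000000, nat_lit 6250000000, nat_lit 7968000000], [], [nat_lit 20860712398, nat_lit 21681917312, nat_lit 16644140155, nat_lit 18270522952, nat_lit 13130344415, nat_lit 13755750021, nat_lit 14217032293, nat_lit 12649701385], nat_lit 1271250, nat_lit 1271250, nat_lit 230001, nat_lit 490000, nat_lit 0, nat_lit 490000, [nat_lit 1100000, nat_lit 1442500, nat_lit 1271250], [nat_lit 9, nat_lit 40, nat_lit 40, nat_lit 80, nat_lit 2, nat_lit 249, nat_lit 40, nat_lit 9]⟩, ⟨p046_k0, nat_lit 0, nat_lit 0, nat_lit 87, nat_lit 0, nat_lit 0, [nat_lit 4688000000, nat_lit 6250000000, nat_lit 7968000000], [], [nat_lit 11933570730, nat_lit 13877062120, nat_lit 11081851610, nat_lit 12949602720, nat_lit 22857795460, nat_lit 24301868660, nat_lit 21624782950, nat_lit 22822603160], nat_lit 0, nat_lit 0, nat_lit 0, nat_lit 0, nat_lit 0, nat_lit 0, [], [nat_lit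 9, nat_lit 40, nat_lit 40, nat_lit 80, nat_lit 2, nat_lit 317, nat_lit 100, nat_lit 10]⟩,
 zbF0, [⟨nat_lit 0, nat_lit 100, nat_lit 98, nat_lit 64, nat_lit 1272974083⟩, ⟨nat_lit 19, nat_lit 100, nat_lit 85, nat_lit 84, nat_lit 41073258⟩, ⟨nat_lit 7, nat_lit 97, nat_lit 100, nat_lit 76, nat_lit 683514908⟩]⟩
noncomputable def p046_l7 : Lf2 := ⟨nat_lit 0, nat_lit 5, [nat_lit 4, nat_lit 5, nat_lit 5, nat_lit 20], true, nat_lit 80, nat_lit 160, nat_lit 160, nat_lit 320, ⟨nat_lit 0, nat_lit 0, nat_lit 1000, nat_lit 6, nat_lit 118, nat_lit 1000, nat_lit 78, nat_lit 1000, nat_lit 58017, nat_lit 274, nat_lit 129067, nat_lit 303, nat_lit 58238288, nat_lit 0, nat_lit 0, nat_lit 2496331, false, false⟩,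
 nat_lit 0, nat_lit 8262, nat_lit 0, nat_lit 0, nat_lit 4809, nat_lit 0, nat_lit 909, nat_lit 0, nat_lit 0, nat_lit 0, nat_lit 0, nat_lit 0, nat_lit 0, nat_lit 0, nat_lit 117, nat_lit 1000000, nat_lit 0, nat_lit 0, [(nat_lit 9, [(nat_lit 6, nat_lit 1000)])],
 ⟨p046_k0, nat_lit 0, nat_lit 0, nat_lit 247, nat_lit 0, nat_lit 338404, [nat_lit 2969600000, nat_lit 1600000000, nat_lit 226400000], [], [nat_lit 9436689098, nat_lit 10466156613, nat_lit 9007262978, nat_lit 9751786491, nat_lit 10883821015, nat_lit 11574109210, nat_lit 10449382704, nat_lit 11110636352], nat_lit 1271250, nat_lit 1271250, nat_lit 205650, nat_lit 490000, nat_lit 490000, nat_lit 1100001, [nat_lit 1100000, nat_lit 1442500, nat_lit 1271250], [nat_lit 9, nat_lit 40, nat_lit 40, nat_lit 80, nat_lit 2, nat_lit 272, nat_lit 60, nat_lit 9]⟩, C1.Rw.none,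
 ⟨nat_lit 5700, nat_lit 5917, ⟨.ofNat (nat_lit 242029), .ofNat (nat_lit 328416), .ofNat (nat_lit 252698), .ofNat (nat_lit 339085), .ofNat (nat_lit 249476), .ofNat (nat_lit 333867), .ofNat (nat_lit 260147), .ofNat (nat_lit 344538)⟩, ⟨.ofNat (nat_lit 93684), .ofNat (nat_lit 250751), .ofNat (nat_lit 136362), .ofNat (nat_lit 293429), .ofNat (nat_lit 99106), .ofNat (nat_lit 252544), .ofNat (nat_lit 141790), .ofNat (nat_lit 295228)⟩⟩, [⟨nat_lit 0, nat_lit 100, nat_lit 100, nat_lit 70, nat_lit 166265191⟩]⟩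
noncomputable def p046_l8 : Lf2 := ⟨nat_lit 0, nat_lit 5, [nat_lit 4, nat_lit 5, nat_lit 5, nat_lit 20], false, nat_lit 80, nat_lit 160, nat_lit 160, nat_lit 320, ⟨nat_lit 1000, nat_lit 0, nat_lit 0, nat_lit 0, nat_lit 0, nat_lit 0, nat_lit 0, nat_lit 0, nat_lit 0, nat_lit 0, nat_lit 0, nat_lit 0, nat_lit 0, nat_lit 0, nat_lit 0, nat_lit 0, false, false⟩,
 nat_lit 0, nat_lit 17482, nat_lit 0, nat_lit 0, nat_lit 10646, nat_lit 6395, nat_lit 3757, nat_lit 0, nat_lit 0, nat_lit 0, nat_lit 0, nat_lit 0, nat_lit 0, nat_lit 0, nat_lit 0, nat_lit 0, nat_lit 0, nat_lit 0, [],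
 ⟨p046_k2, nat_lit 0, nat_lit 0, nat_lit 284, nat_lit 0, nat_lit 420780, [nat_lit 4688000000, nat_lit 6250000000, nat_lit 7968000000], [], [nat_lit 11297926358, nat_lit 13144944016, nat_lit 8159700610, nat_lit 9952498024, nat_lit 12530888218, nat_lit 12805658672, nat_lit 14575259796, nat_lit 12067030258], nat_lit 1271250, nat_lit 1271250, nat_lit 230001, nat_lit 490000, nat_lit 490000, nat_lit 1100001, [nat_lit 1100000, nat_lit 1442500, nat_lit 1271250], [nat_lit 9, nat_lit 40, nat_lit 40, nat_lit 80, nat_lit 2, nat_lit 272, nat_lit 60, nat_lit 9]⟩, ⟨p046_k0, nat_lit 0, nat_lit 0, nat_lit 87, nat_lit 0, nat_lit 0, [nat_lit 4688000000, nat_lit 6250000000, nat_lit 7968000000], [], [nat_lit 11933570730, nat_lit 13877062120, nat_lit 11081851610, nat_lit 12949602720, nat_lit 22857795460, nat_lit 24301868660, nat_lit 21624782950, nat_lit 22822603160], nat_lit 0, nat_lit 0, nat_lit 0, nat_lit 0, nat_lit 0, nat_lit 0, [],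 [nat_lit 9, nat_lit 40, nat_lit 40, nat_lit 80, nat_lit 2, nat_lit 317, nat_lit 100, nat_lit 10]⟩,
 zbF0, [⟨nat_lit 0, nat_lit 100, nat_lit 99, nat_lit 72, nat_lit 23841819⟩, ⟨nat_lit 0, nat_lit 100, nat_lit 98, nat_lit 64, nat_lit 564493382⟩, ⟨nat_lit 7, nat_lit 97, nat_lit 100, nat_lit 76, nat_lit 728911666⟩]⟩
noncomputable def p046_l9 : Lf2 := ⟨nat_lit 0, nat_lit 10, [nat_lit 0, nat_lit 5, nat_lit 5, nat_lit 20], true, nat_lit 0, nat_lit 80, nat_lit 0, nat_lit 336, ⟨nat_lit 0, nat_lit 0, nat_lit 1000, nat_lit 6, nat_lit 106, nat_lit 0, nat_lit 24, nat_lit 1000, nat_lit 2400, nat_lit 227, nat_lit 106667, nat_lit 295, nat_lit 62568484, nat_lit 0, nat_lit 0, nat_lit 1217710, false, false⟩,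
 nat_lit 0, nat_lit 7149, nat_lit 0, nat_lit 0, nat_lit 4161, nat_lit 0, nat_lit 0, nat_lit 0, nat_lit 0, nat_lit 0, nat_lit 0, nat_lit 0, nat_lit 0, nat_lit 0, nat_lit 157, nat_lit 799000, nat_lit 0, nat_lit 0, [(nat_lit 9, [(nat_lit 5, nat_lit 335), (nat_lit 6, nat_lit 665)])],
 ⟨p046_k3, nat_lit 0, nat_lit 0, nat_lit 306, nat_lit 0, nat_lit 81733, [nat_lit 3753248001, nat_lit 2810940001, nat_lit 147879999], [], [nat_lit 14122138238, nat_lit 14810834995, nat_lit 13237105255, nat_lit 13808898987, nat_lit 13440038689, nat_lit 13188952801, nat_lit 15074719593, nat_lit 14067012774], nat_lit 1271250, nat_lit 1271250, nat_lit 134400, nat_lit 490000, nat_lit 0, nat_lit 490000, [nat_lit 1100000, nat_lit 1442500, nat_lit 1271250], [nat_lit 11, nat_lit 40, nat_lit 40, nat_lit 80, nat_lit 1, nat_lit 345, nat_lit 125, nat_lit 10]⟩, C1.Rw.none,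
 ⟨nat_lit 5700, nat_lit 5917, ⟨.ofNat (nat_lit 197129), .ofNat (nat_lit 307076), .ofNat (nat_lit 218469), .ofNat (nat_lit 328416), .ofNat (nat_lit 205119), .ofNat (nat_lit 312525), .ofNat (nat_lit 226461), .ofNat (nat_lit 333867)⟩, ⟨.negSucc (nat_lit 63383), .ofNat (nat_lit 93684), .negSucc (nat_lit 20704), .ofNat (nat_lit 136362), .negSucc (nat_lit 54331), .ofNat (nat_lit 99106), .negSucc (nat_lit 11648), .ofNat (nat_lit 141790)⟩⟩, []⟩
noncomputable def p046_l10 : Lf2 := ⟨nat_lit 0, nat_lit 10, [nat_lit 0, nat_lit 5, nat_lit 5, nat_lit 20], true, nat_lit 0, nat_lit 80, nat_lit 0, nat_lit 336, ⟨nat_lit 0, nat_lit 0, nat_lit 1000, nat_lit 6, nat_lit 111, nat_lit 321, nat_lit 25, nat_lit 1000, nat_lit 3267, nat_lit 229, nat_lit 114817, nat_lit 298, nat_lit 62238064, nat_lit 0, nat_lit 0, nat_lit 1282032, false, false⟩,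
 nat_lit 0, nat_lit 6649, nat_lit 0, nat_lit 0, nat_lit 4049, nat_lit 0, nat_lit 158, nat_lit 0, nat_lit 0, nat_lit 0, nat_lit 0, nat_lit 0, nat_lit 0, nat_lit 0, nat_lit 124, nat_lit 611800, nat_lit 0, nat_lit 0, [(nat_lit 9, [(nat_lit 5, nat_lit 647), (nat_lit 6, nat_lit 353)])],
 ⟨p046_k4, nat_lit 0, nat_lit 0, nat_lit 323, nat_lit 0, nat_lit 134101, [nat_lit 3359033600, nat_lit 2243708001, nat_lit 58375999], [], [nat_lit 14812212364, nat_lit 15328940900, nat_lit 14204526207, nat_lit 14769396995, nat_lit 13512145570, nat_lit 14067739751, nat_lit 14249136641, nat_lit 13639844675], nat_lit 1271250, nat_lit 1271250, nat_lit 157850, nat_lit 490000, nat_lit 0, nat_lit 490000, [nat_lit 1100000, nat_lit 1442500, nat_lit 1271250], [nat_lit 11, nat_lit 40, nat_lit 40, nat_lit 80, nat_lit 1, nat_lit 345, nat_lit 125, nat_lit 10]⟩, C1.Rw.none,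
 ⟨nat_lit 5477, nat_lit 5701, ⟨.ofNat (nat_lit 212791), .ofNat (nat_lit 312525), .ofNat (nat_lit 234133), .ofNat (nat_lit 333867), .ofNat (nat_lit 220501), .ofNat (nat_lit 317913), .ofNat (nat_lit 241858), .ofNat (nat_lit 339271)⟩, ⟨.negSucc (nat_lit 54331), .ofNat (nat_lit 99106), .negSucc (nat_lit 11648), .ofNat (nat_lit 141790), .negSucc (nat_lit 45522), .ofNat (nat_lit 104343), .negSucc (nat_lit 2808), .ofNat (nat_lit 147057)⟩⟩, [⟨nat_lit 0, nat_lit 100, nat_lit 96, nat_lit 69, nat_lit 165445800⟩]⟩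
noncomputable def p046_l11 : Lf2 := ⟨nat_lit 0, nat_lit 10, [nat_lit 0, nat_lit 5, nat_lit 5, nat_lit 20], false, nat_lit 0, nat_lit 80, nat_lit 0, nat_lit 160, ⟨nat_lit 1000, nat_lit 0, nat_lit 0, nat_lit 0, nat_lit 0, nat_lit 0, nat_lit 0, nat_lit 0, nat_lit 0, nat_lit 0, nat_lit 0, nat_lit 0, nat_lit 0, nat_lit 0, nat_lit 0, nat_lit 0, false, false⟩,
 nat_lit 0, nat_lit 14245, nat_lit 0, nat_lit 5064, nat_lit 8291, nat_lit 7832, nat_lit 1308, nat_lit 0, nat_lit 0, nat_lit 1560, nat_lit 0, nat_lit 0, nat_lit 0, nat_lit 0, nat_lit 0, nat_lit 0, nat_lit 0, nat_lit 0, [],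
 ⟨p046_k3, nat_lit 0, nat_lit 0, nat_lit 355, nat_lit 0, nat_lit 249092, [nat_lit 4688000000, nat_lit 6250000000, nat_lit 9842000000], [], [nat_lit 25128713229, nat_lit 26921226907, nat_lit 23073059918, nat_lit 24533446860, nat_lit 20450754730, nat_lit 21630535633, nat_lit 21043371290, nat_lit 20042320904], nat_lit 1271250, nat_lit 1271250, nat_lit 205650, nat_lit 490000, nat_lit 0, nat_lit 490000, [nat_lit 1100000, nat_lit 1442500, nat_lit 1271250], [nat_lit 11, nat_lit 40, nat_lit 40, nat_lit 80, nat_lit 1, nat_lit 345, nat_lit 125, nat_lit 10]⟩, ⟨p046_k3, nat_lit 0, nat_lit 0, nat_lit 207, nat_lit 0, nat_lit 0, [nat_lit 4688000000, nat_lit 6250000000, nat_lit 9842000000], [], [nat_lit 23669102980, nat_lit 25567396914, nat_lit 21229969704, nat_lit 23066462440, nat_lit 18089668362, nat_lit 19502545074, nat_lit 16543087480, nat_lit 17819085672], nat_lit 0, nat_lit 0, nat_lit 0, nat_lit 0, nat_lit 0, nat_lit 0, [],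 [nat_lit 11, nat_lit 40, nat_lit 40, nat_lit 80, nat_lit 1, nat_lit 373, nat_lit 150, nat_lit 11]⟩,
 zbF0, [⟨nat_lit 0, nat_lit 100, nat_lit 100, nat_lit 70, nat_lit 1203209922⟩]⟩
noncomputable def p046_l12 : Lf2 := ⟨nat_lit 0, nat_lit 10, [nat_lit 0, nat_lit 5, nat_lit 5, nat_lit 20], false, nat_lit 0, nat_lit 80, nat_lit 160, nat_lit 320, ⟨nat_lit 871, nat_lit 0, nat_lit 129, nat_lit 6, nat_lit 118, nat_lit 0, nat_lit 24, nat_lit 0, nat_lit 2400, nat_lit 227, nat_lit 129067, nat_lit 303, nat_lit 61676807, nat_lit 0, nat_lit 0, nat_lit 1387124, false, false⟩,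
 nat_lit 0, nat_lit 13187, nat_lit 0, nat_lit 9239, nat_lit 7675, nat_lit 13099, nat_lit 2477, nat_lit 0, nat_lit 0, nat_lit 22, nat_lit 0, nat_lit 0, nat_lit 0, nat_lit 0, nat_lit 0, nat_lit 129000, nat_lit 0, nat_lit 0, [(nat_lit 9, [(nat_lit 6, nat_lit 129)])],
 ⟨p046_k3, nat_lit 0, nat_lit 0, nat_lit 312, nat_lit 0, nat_lit 136294, [nat_lit 4224838401, nat_lit 5388452000, nat_lit 7881303200], [], [nat_lit 17974393280, nat_lit 18945354131, nat_lit 16263306801, nat_lit 16675635226, nat_lit 16564335291, nat_lit 14676560056, nat_lit 18184256401, nat_lit 16325532576], nat_lit 1271250, nat_lit 1271250, nat_lit 205650, nat_lit 490000, nat_lit 0, nat_lit 490000, [nat_lit 1100000, nat_lit 1442500, nat_lit 1271250], [nat_lit 11, nat_lit 40, nat_lit 40, nat_lit 80, nat_lit 1, nat_lit 345, nat_lit 125, nat_lit 10]⟩, ⟨p046_k3, nat_lit 0, nat_lit 0, nat_lit 142, nat_lit 0, nat_lit 0, [nat_lit 4083248000, nat_lit 5443750000,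 nat_lit 8572382000], [], [nat_lit 17578408809, nat_lit 18660519582, nat_lit 13800207936, nat_lit 14835394775, nat_lit 28359118276, nat_lit 29010955438, nat_lit 24143289772, nat_lit 24731515163], nat_lit 0, nat_lit 0, nat_lit 0, nat_lit 0, nat_lit 0, nat_lit 0, [], [nat_lit 11, nat_lit 40, nat_lit 40, nat_lit 80, nat_lit 1, nat_lit 401, nat_lit 175, nat_lit 11]⟩,
 ⟨nat_lit 5700, nat_lit 5917, ⟨.ofNat (nat_lit 242029), .ofNat (nat_lit 328416), .ofNat (nat_lit 252698), .ofNat (nat_lit 339085), .ofNat (nat_lit 249476), .ofNat (nat_lit 333867), .ofNat (nat_lit 260147), .ofNat (nat_lit 344538)⟩, ⟨.negSucc (nat_lit 63383), .ofNat (nat_lit 93684), .negSucc (nat_lit 20704), .ofNat (nat_lit 136362), .negSucc (nat_lit 54331), .ofNat (nat_lit 99106), .negSucc (nat_lit 11648), .ofNat (nat_lit 141790)⟩⟩, [⟨nat_lit 0, nat_lit 100, nat_lit 100, nat_lit 65, nat_lit 913668784⟩, ⟨nat_lit 7, nat_lit 95, nat_lit 100, nat_lit 76, nat_lit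 682795663⟩]⟩
noncomputable def p046_l13 : Lf2 := ⟨nat_lit 0, nat_lit 10, [nat_lit 0, nat_lit 5, nat_lit 5, nat_lit 20], false, nat_lit 0, nat_lit 80, nat_lit 160, nat_lit 320, ⟨nat_lit 1000, nat_lit 0, nat_lit 0, nat_lit 0, nat_lit 0, nat_lit 0, nat_lit 0, nat_lit 0, nat_lit 0, nat_lit 0, nat_lit 0, nat_lit 0, nat_lit 0, nat_lit 0, nat_lit 0, nat_lit 0, false, false⟩,
 nat_lit 0, nat_lit 12052, nat_lit 0, nat_lit 10477, nat_lit 7339, nat_lit 6395, nat_lit 2666, nat_lit 0, nat_lit 0, nat_lit 0, nat_lit 0, nat_lit 0, nat_lit 0, nat_lit 0, nat_lit 0, nat_lit 0, nat_lit 0, nat_lit 0, [],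
 ⟨p046_k4, nat_lit 0, nat_lit 0, nat_lit 346, nat_lit 0, nat_lit 235556, [nat_lit 4688000000, nat_lit 6250000000, nat_lit 9842000000], [], [nat_lit 18464300484, nat_lit 19339607344, nat_lit 17566066192, nat_lit 18403590000, nat_lit 15298327198, nat_lit 16114108444, nat_lit 16736428229, nat_lit 15325100408], nat_lit 1271250, nat_lit 1271250, nat_lit 230001, nat_lit 490000, nat_lit 0, nat_lit 490000, [nat_lit 1100000, nat_lit 1442500, nat_lit 1271250], [nat_lit 11, nat_lit 40, nat_lit 40, nat_lit 80, nat_lit 1, nat_lit 345, nat_lit 125, nat_lit 10]⟩, ⟨p046_k3, nat_lit 0, nat_lit 0, nat_lit 87, nat_lit 0, nat_lit 0, [nat_lit 4688000000, nat_lit 6250000000, nat_lit 9842000000], [], [nat_lit 11933570730, nat_lit 13877062120, nat_lit 11081851610, nat_lit 12949602720, nat_lit 22857795460, nat_lit 24301868660, nat_lit 21624782950, nat_lit 22822603160], nat_lit 0, nat_lit 0, nat_lit 0, nat_lit 0, nat_lit 0, nat_lit 0, [],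 [nat_lit 11, nat_lit 40, nat_lit 40, nat_lit 80, nat_lit 1, nat_lit 401, nat_lit 175, nat_lit 11]⟩,
 zbF0, [⟨nat_lit 0, nat_lit 100, nat_lit 99, nat_lit 72, nat_lit 832191674⟩, ⟨nat_lit 7, nat_lit 97, nat_lit 100, nat_lit 76, nat_lit 742431241⟩]⟩
noncomputable def p046_l14 : Lf2 := ⟨nat_lit 0, nat_lit 10, [nat_lit 0, nat_lit 5, nat_lit 5, nat_lit 20], true, nat_lit 80, nat_lit 160, nat_lit 0, nat_lit 336, ⟨nat_lit 0, nat_lit 0, nat_lit 1000, nat_lit 6, nat_lit 112, nat_lit 1000, nat_lit 79, nat_lit 1000, nat_lit 58017, nat_lit 274, nat_lit 117600, nat_lit 299, nat_lit 58639922, nat_lit 0, nat_lit 0, nat_lit 2422975, false, false⟩,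
 nat_lit 0, nat_lit 8476, nat_lit 0, nat_lit 0, nat_lit 4933, nat_lit 0, nat_lit 0, nat_lit 0, nat_lit 0, nat_lit 0, nat_lit 0, nat_lit 0, nat_lit 0, nat_lit 0, nat_lit 166, nat_lit 853000, nat_lit 0, nat_lit 0, [(nat_lit 9, [(nat_lit 5, nat_lit 245), (nat_lit 6, nat_lit 755)])],
 ⟨p046_k3, nat_lit 0, nat_lit 0, nat_lit 300, nat_lit 0, nat_lit 249092, [nat_lit 3858656001, nat_lit 2964180001, nat_lit 159159999], [], [nat_lit 11205519406, nat_lit 12610089063, nat_lit 9626611097, nat_lit 10977046459, nat_lit 11884904570, nat_lit 13356990312, nat_lit 10404540495, nat_lit 11725322002], nat_lit 1271250, nat_lit 1271250, nat_lit 134400, nat_lit 490000, nat_lit 490000, nat_lit 1100001, [nat_lit 1100000, nat_lit 1442500, nat_lit 1271250], [nat_lit 11, nat_lit 40, nat_lit 40, nat_lit 80, nat_lit 1, nat_lit 373, nat_lit 150, nat_lit 11]⟩, C1.Rw.none,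
 ⟨nat_lit 5477, nat_lit 5917, ⟨.ofNat (nat_lit 197129), .ofNat (nat_lit 307076), .ofNat (nat_lit 239808), .ofNat (nat_lit 349755), .ofNat (nat_lit 213007), .ofNat (nat_lit 317913), .ofNat (nat_lit 255721), .ofNat (nat_lit 360628)⟩, ⟨.ofNat (nat_lit 93684), .ofNat (nat_lit 250751), .ofNat (nat_lit 136362), .ofNat (nat_lit 293429), .ofNat (nat_lit 104343), .ofNat (nat_lit 254209), .ofNat (nat_lit 147057), .ofNat (nat_lit 296923)⟩⟩, [⟨nat_lit 0, nat_lit 100, nat_lit 100, nat_lit 80, nat_lit 252331213⟩]⟩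
noncomputable def p046_l15 : Lf2 := ⟨nat_lit 0, nat_lit 10, [nat_lit 0, nat_lit 5, nat_lit 5, nat_lit 20], false, nat_lit 0, nat_lit 160, nat_lit 0, nat_lit 160, ⟨nat_lit 1000, nat_lit 0, nat_lit 0, nat_lit 0, nat_lit 0, nat_lit 0, nat_lit 0, nat_lit 0, nat_lit 0, nat_lit 0, nat_lit 0, nat_lit 0, nat_lit 0, nat_lit 0, nat_lit 0, nat_lit 0, false, false⟩,
 nat_lit 0, nat_lit 11370, nat_lit 0, nat_lit 392, nat_lit 6618, nat_lit 9048, nat_lit 0, nat_lit 0, nat_lit 0, nat_lit 3840, nat_lit 0, nat_lit 0, nat_lit 0, nat_lit 0, nat_lit 0, nat_lit 0, nat_lit 0, nat_lit 0, [],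
 ⟨p046_k3, nat_lit 0, nat_lit 0, nat_lit 516, nat_lit 0, nat_lit 646530, [nat_lit 4688000000, nat_lit 6250000000, nat_lit 9842000000], [], [nat_lit 39085597036, nat_lit 37184322544, nat_lit 36218834476, nat_lit 36936058728, nat_lit 33588397432, nat_lit 34245744872, nat_lit 38862014168, nat_lit 35825861072], nat_lit 1271250, nat_lit 1271250, nat_lit 490000, nat_lit 1100001, nat_lit 0, nat_lit 1100001, [nat_lit 1100000, nat_lit 1442500, nat_lit 1271250], [nat_lit 11, nat_lit 40, nat_lit 40, nat_lit 80, nat_lit 1, nat_lit 373, nat_lit 150, nat_lit 11]⟩, ⟨p046_k5, nat_lit 0, nat_lit 0, nat_lit 212, nat_lit 0, nat_lit 0, [nat_lit 4688000000, nat_lit 6250000000, nat_lit 11872000000], [], [nat_lit 14557538752, nat_lit 16270085216, nat_lit 14433087936, nat_lit 16702526208, nat_lit 9835944384, nat_lit 11583682336, nat_lit 10456859616, nat_lit 11981196880], nat_lit 0, nat_lit 0, nat_lit 0, nat_lit 0, nat_lit 0, nat_lit 0, [],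 [nat_lit 48, nat_lit 40, nat_lit 40, nat_lit 80, nat_lit 12, nat_lit 373, nat_lit 150, nat_lit 10]⟩,
 zbF0, []⟩
noncomputable def p046_l16 : Lf2 := ⟨nat_lit 0, nat_lit 10, [nat_lit 0, nat_lit 5, nat_lit 5, nat_lit 20], false, nat_lit 0, nat_lit 160, nat_lit 0, nat_lit 160, ⟨nat_lit 1000, nat_lit 0, nat_lit 0, nat_lit 0, nat_lit 0, nat_lit 0, nat_lit 0, nat_lit 0, nat_lit 0, nat_lit 0, nat_lit 0, nat_lit 0, nat_lit 0, nat_lit 0, nat_lit 0, nat_lit 0, false, false⟩,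
 nat_lit 0, nat_lit 11800, nat_lit 0, nat_lit 0, nat_lit 6868, nat_lit 8099, nat_lit 1449, nat_lit 0, nat_lit 0, nat_lit 3002, nat_lit 0, nat_lit 0, nat_lit 0, nat_lit 15794600537883, nat_lit 0, nat_lit 0, nat_lit 0, nat_lit 0, [],
 ⟨p046_k3, nat_lit 0, nat_lit 0, nat_lit 633, nat_lit 0, nat_lit 864007, [nat_lit 4688000000, nat_lit 6250000000, nat_lit 9842000000], [], [nat_lit 36934466286, nat_lit 33303093702, nat_lit 30596675461, nat_lit 31071044165, nat_lit 29801758222, nat_lit 28621910677, nat_lit 36226726918, nat_lit 33075880822], nat_lit 1271250, nat_lit 1271250, nat_lit 490000, nat_lit 1100001, nat_lit 0, nat_lit 1100001, [nat_lit 1100000, nat_lit 1442500, nat_lit 1271250], [nat_lit 11, nat_lit 40, nat_lit 40, nat_lit 80, nat_lit 1, nat_lit 373, nat_lit 150, nat_lit 11]⟩, ⟨p046_k3, nat_lit 0, nat_lit 0, nat_lit 173, nat_lit 0, nat_lit 0, [nat_lit 4688000000, nat_lit 6250000000, nat_lit 9842000000], [], [nat_lit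 15566466228, nat_lit 17441726830, nat_lit 15328831732, nat_lit 17274312088, nat_lit 11124589818, nat_lit 12755008594, nat_lit 11672826440, nat_lit 13099589422], nat_lit 0, nat_lit 0, nat_lit 0, nat_lit 0, nat_lit 0, nat_lit 0, [], [nat_lit 11, nat_lit 40, nat_lit 40, nat_lit 80, nat_lit 1, nat_lit 373, nat_lit 150, nat_lit 11]⟩,
 zbF0, []⟩
noncomputable def p046_l17 : Lf2 := ⟨nat_lit 0, nat_lit 10, [nat_lit 0, nat_lit 5, nat_lit 5, nat_lit 20], false, nat_lit 0, nat_lit 80, nat_lit 160, nat_lit 336, ⟨nat_lit 1000, nat_lit 0, nat_lit 0, nat_lit 0, nat_lit 0, nat_lit 0, nat_lit 0, nat_lit 0, nat_lit 0, nat_lit 0, nat_lit 0, nat_lit 0, nat_lit 0, nat_lit 0, nat_lit 0, nat_lit 0, false, false⟩,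
 nat_lit 0, nat_lit 11373, nat_lit 0, nat_lit 0, nat_lit 6619, nat_lit 6658, nat_lit 2059, nat_lit 0, nat_lit 0, nat_lit 0, nat_lit 0, nat_lit 0, nat_lit 0, nat_lit 0, nat_lit 0, nat_lit 0, nat_lit 0, nat_lit 0, [],
 ⟨p046_k3, nat_lit 0, nat_lit 0, nat_lit 516, nat_lit 0, nat_lit 647253, [nat_lit 4688000000, nat_lit 6250000000, nat_lit 9842000000], [], [nat_lit 26860885250, nat_lit 25198147215, nat_lit 26885632336, nat_lit 25282649535, nat_lit 23228481860, nat_lit 22542294240, nat_lit 29170360476, nat_lit 27610904219], nat_lit 1271250, nat_lit 1271250, nat_lit 490000, nat_lit 1100001, nat_lit 0, nat_lit 490000, [nat_lit 1100000, nat_lit 1442500, nat_lit 1271250], [nat_lit 11, nat_lit 40, nat_lit 40, nat_lit 80, nat_lit 1, nat_lit 373, nat_lit 150, nat_lit 11]⟩, ⟨p046_k5, nat_lit 0, nat_lit 0, nat_lit 68, nat_lit 0, nat_lit 0, [nat_lit 4688000000, nat_lit 6250000000, nat_lit 11872000000], [], [nat_lit 8794957400, nat_lit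 11667127766, nat_lit 10168913584, nat_lit 12701428072, nat_lit 21863615945, nat_lit 23874341249, nat_lit 21715003996, nat_lit 23306851267], nat_lit 0, nat_lit 0, nat_lit 0, nat_lit 0, nat_lit 0, nat_lit 0, [], [nat_lit 48, nat_lit 40, nat_lit 40, nat_lit 80, nat_lit 12, nat_lit 428, nat_lit 200, nat_lit 11]⟩,
 zbF0, [⟨nat_lit 19, nat_lit 100, nat_lit 90, nat_lit 74, nat_lit 777367258⟩]⟩
noncomputable def p046_l18 : Lf2 := ⟨nat_lit 0, nat_lit 10, [nat_lit 0, nat_lit 5, nat_lit 5, nat_lit 20], false, nat_lit 0, nat_lit 80, nat_lit 160, nat_lit 336, ⟨nat_lit 1000, nat_lit 0, nat_lit 0, nat_lit 0, nat_lit 0, nat_lit 0, nat_lit 0, nat_lit 0, nat_lit 0, nat_lit 0, nat_lit 0, nat_lit 0, nat_lit 0, nat_lit 0, nat_lit 0, nat_lit 0, false, false⟩,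
 nat_lit 0, nat_lit 12786, nat_lit 0, nat_lit 0, nat_lit 7786, nat_lit 8311, nat_lit 2096, nat_lit 0, nat_lit 0, nat_lit 0, nat_lit 0, nat_lit 0, nat_lit 0, nat_lit 0, nat_lit 0, nat_lit 0, nat_lit 0, nat_lit 0, [],
 ⟨p046_k4, nat_lit 0, nat_lit 0, nat_lit 612, nat_lit 0, nat_lit 809865, [nat_lit 4688000000, nat_lit 6250000000, nat_lit 9842000000], [], [nat_lit 23593562706, nat_lit 21599702616, nat_lit 21350214790, nat_lit 21769532168, nat_lit 18348613476, nat_lit 18876688952, nat_lit 23743396686, nat_lit 21908991728], nat_lit 1271250, nat_lit 1271250, nat_lit 490000, nat_lit 1100001, nat_lit 0, nat_lit 490000, [nat_lit 1100000, nat_lit 1442500, nat_lit 1271250], [nat_lit 11, nat_lit 40, nat_lit 40, nat_lit 80, nat_lit 1, nat_lit 373, nat_lit 150, nat_lit 11]⟩, ⟨p046_k5, nat_lit 0, nat_lit 0, nat_lit 71, nat_lit 0, nat_lit 0, [nat_lit 4688000000, nat_lit 6250000000, nat_lit 11872000000], [], [nat_lit 6160571300, nat_lit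 10581304096, nat_lit 7363851928, nat_lit 11241145656, nat_lit 22967305599, nat_lit 25994685840, nat_lit 22071103888, nat_lit 24761326943], nat_lit 0, nat_lit 0, nat_lit 0, nat_lit 0, nat_lit 0, nat_lit 0, [], [nat_lit 48, nat_lit 40, nat_lit 40, nat_lit 80, nat_lit 12, nat_lit 428, nat_lit 200, nat_lit 11]⟩,
 zbF0, [⟨nat_lit 19, nat_lit 100, nat_lit 92, nat_lit 75, nat_lit 888415707⟩]⟩
noncomputable def p046_l19 : Lf2 := ⟨nat_lit 0, nat_lit 10, [nat_lit 0, nat_lit 5, nat_lit 5, nat_lit 20], false, nat_lit 80, nat_lit 160, nat_lit 160, nat_lit 336, ⟨nat_lit 1000, nat_lit 0, nat_lit 0, nat_lit 0, nat_lit 0, nat_lit 0, nat_lit 0, nat_lit 0, nat_lit 0, nat_lit 0, nat_lit 0, nat_lit 0, nat_lit 0, nat_lit 0, nat_lit 0, nat_lit 0, false, false⟩,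
 nat_lit 0, nat_lit 10540, nat_lit 0, nat_lit 887, nat_lit 6135, nat_lit 6658, nat_lit 1918, nat_lit 0, nat_lit 0, nat_lit 0, nat_lit 0, nat_lit 0, nat_lit 0, nat_lit 0, nat_lit 0, nat_lit 0, nat_lit 0, nat_lit 0, [],
 ⟨p046_k3, nat_lit 0, nat_lit 0, nat_lit 456, nat_lit 0, nat_lit 647253, [nat_lit 4688000000, nat_lit 6250000000, nat_lit 9842000000], [], [nat_lit 29015838360, nat_lit 27418351845, nat_lit 26213275230, nat_lit 24816896290, nat_lit 26213275230, nat_lit 24816896290, nat_lit 32058216500, nat_lit 30632129615], nat_lit 1271250, nat_lit 1271250, nat_lit 490000, nat_lit 1100001, nat_lit 490000, nat_lit 1100001, [nat_lit 1100000, nat_lit 1442500, nat_lit 1271250], [nat_lit 11, nat_lit 40, nat_lit 40, nat_lit 80, nat_lit 1, nat_lit 373, nat_lit 150, nat_lit 11]⟩, ⟨p046_k5, nat_lit 0, nat_lit 0, nat_lit 68, nat_lit 0, nat_lit 0, [nat_lit 4688000000, nat_lit 6250000000, nat_lit 11872000000], [], [nat_lit 8794957400,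 nat_lit 11667127766, nat_lit 10168913584, nat_lit 12701428072, nat_lit 21863615945, nat_lit 23874341249, nat_lit 21715003996, nat_lit 23306851267], nat_lit 0, nat_lit 0, nat_lit 0, nat_lit 0, nat_lit 0, nat_lit 0, [], [nat_lit 48, nat_lit 40, nat_lit 40, nat_lit 80, nat_lit 12, nat_lit 428, nat_lit 200, nat_lit 11]⟩,
 zbF0, [⟨nat_lit 7, nat_lit 90, nat_lit 100, nat_lit 74, nat_lit 777367258⟩]⟩
noncomputable def p046_l20 : Lf2 := ⟨nat_lit 0, nat_lit 10, [nat_lit 0, nat_lit 5, nat_lit 5, nat_lit 20], false, nat_lit 80, nat_lit 160, nat_lit 160, nat_lit 336, ⟨nat_lit 1000, nat_lit 0, nat_lit 0, nat_lit 0, nat_lit 0, nat_lit 0, nat_lit 0, nat_lit 0, nat_lit 0, nat_lit 0, nat_lit 0, nat_lit 0, nat_lit 0, nat_lit 0, nat_lit 0, nat_lit 0, false, false⟩,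
 nat_lit 0, nat_lit 11635, nat_lit 0, nat_lit 0, nat_lit 7085, nat_lit 6658, nat_lit 2976, nat_lit 0, nat_lit 0, nat_lit 0, nat_lit 0, nat_lit 0, nat_lit 0, nat_lit 0, nat_lit 0, nat_lit 0, nat_lit 0, nat_lit 0, [],
 ⟨p046_k4, nat_lit 0, nat_lit 0, nat_lit 520, nat_lit 0, nat_lit 809865, [nat_lit 4688000000, nat_lit 6250000000, nat_lit 9842000000], [], [nat_lit 24996932745, nat_lit 23152076680, nat_lit 20552999840, nat_lit 20567454920, nat_lit 20552999840, nat_lit 20567454920, nat_lit 26970487415, nat_lit 25323572080], nat_lit 1271250, nat_lit 1271250, nat_lit 490000, nat_lit 1100001, nat_lit 490000, nat_lit 1100001, [nat_lit 1100000, nat_lit 1442500, nat_lit 1271250], [nat_lit 11, nat_lit 40, nat_lit 40, nat_lit 80, nat_lit 1, nat_lit 373, nat_lit 150, nat_lit 11]⟩, ⟨p046_k5, nat_lit 0, nat_lit 0, nat_lit 71, nat_lit 0, nat_lit 0, [nat_lit 4688000000, nat_lit 6250000000, nat_lit 11872000000], [], [nat_lit 8794957400,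 nat_lit 12624517888, nat_lit 10168913584, nat_lit 13545599568, nat_lit 21863615945, nat_lit 24544938721, nat_lit 21715003996, nat_lit 23906662468], nat_lit 0, nat_lit 0, nat_lit 0, nat_lit 0, nat_lit 0, nat_lit 0, [], [nat_lit 48, nat_lit 40, nat_lit 40, nat_lit 80, nat_lit 12, nat_lit 428, nat_lit 200, nat_lit 11]⟩,
 zbF0, [⟨nat_lit 7, nat_lit 92, nat_lit 100, nat_lit 75, nat_lit 756137712⟩]⟩
noncomputable def p046_l21 : Lf2 := ⟨nat_lit 0, nat_lit 10, [nat_lit 0, nat_lit 5, nat_lit 5, nat_lit 20], false, nat_lit 0, nat_lit 160, nat_lit 0, nat_lit 160, ⟨nat_lit 1000, nat_lit 0, nat_lit 0, nat_lit 0, nat_lit 0, nat_lit 0, nat_lit 0, nat_lit 0, nat_lit 0, nat_lit 0, nat_lit 0, nat_lit 0, nat_lit 0, nat_lit 0, nat_lit 0, nat_lit 0, false, false⟩,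
 nat_lit 0, nat_lit 11980, nat_lit 0, nat_lit 0, nat_lit 6973, nat_lit 8623, nat_lit 1220, nat_lit 0, nat_lit 0, nat_lit 3305, nat_lit 0, nat_lit 0, nat_lit 0, nat_lit 23525180409513, nat_lit 0, nat_lit 0, nat_lit 0, nat_lit 0, [],
 ⟨p046_k3, nat_lit 0, nat_lit 0, nat_lit 601, nat_lit 0, nat_lit 864007, [nat_lit 4688000000, nat_lit 6250000000, nat_lit 9842000000], [], [nat_lit 36314858246, nat_lit 32627968172, nat_lit 31614015532, nat_lit 32056383008, nat_lit 27510142886, nat_lit 27942758468, nat_lit 28126853498, nat_lit 28476384936], nat_lit 1271250, nat_lit 1271250, nat_lit 1100001, nat_lit 1785000, nat_lit 0, nat_lit 1100001, [nat_lit 1100000, nat_lit 1442500, nat_lit 1271250], [nat_lit 11, nat_lit 40, nat_lit 40, nat_lit 80, nat_lit 1, nat_lit 401, nat_lit 175, nat_lit 11]⟩, ⟨p046_k5, nat_lit 0, nat_lit 0, nat_lit 193, nat_lit 0, nat_lit 0, [nat_lit 4688000000, nat_lit 6250000000, nat_lit 11872000000], [], [nat_lit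 16175893715, nat_lit 19123791480, nat_lit 19728652472, nat_lit 23324023916, nat_lit 11475800516, nat_lit 14437079744, nat_lit 14856245460, nat_lit 17523474640], nat_lit 0, nat_lit 0, nat_lit 0, nat_lit 0, nat_lit 0, nat_lit 0, [], [nat_lit 48, nat_lit 40, nat_lit 40, nat_lit 80, nat_lit 12, nat_lit 401, nat_lit 175, nat_lit 10]⟩,
 zbF0, []⟩
noncomputable def p046_l22 : Lf2 := ⟨nat_lit 0, nat_lit 10, [nat_lit 0, nat_lit 5, nat_lit 5, nat_lit 20], false, nat_lit 0, nat_lit 160, nat_lit 160, nat_lit 336, ⟨nat_lit 1000, nat_lit 0, nat_lit 0, nat_lit 0, nat_lit 0, nat_lit 0, nat_lit 0, nat_lit 0, nat_lit 0, nat_lit 0, nat_lit 0, nat_lit 0, nat_lit 0, nat_lit 0, nat_lit 0, nat_lit 0, false, false⟩,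
 nat_lit 0, nat_lit 10616, nat_lit 0, nat_lit 0, nat_lit 6179, nat_lit 8464, nat_lit 2059, nat_lit 0, nat_lit 0, nat_lit 0, nat_lit 0, nat_lit 0, nat_lit 0, nat_lit 0, nat_lit 0, nat_lit 0, nat_lit 0, nat_lit 0, [],
 ⟨p046_k3, nat_lit 0, nat_lit 0, nat_lit 601, nat_lit 0, nat_lit 864007, [nat_lit 4688000000, nat_lit 6250000000, nat_lit 9842000000], [], [nat_lit 35524747258, nat_lit 32257675156, nat_lit 30548715654, nat_lit 31092040804, nat_lit 27042230334, nat_lit 27571434356, nat_lit 28058944702, nat_lit 28499561552], nat_lit 1271250, nat_lit 1271250, nat_lit 1100001, nat_lit 1785000, nat_lit 0, nat_lit 1100001, [nat_lit 1100000, nat_lit 1442500, nat_lit 1271250], [nat_lit 11, nat_lit 40, nat_lit 40, nat_lit 80, nat_lit 1, nat_lit 401, nat_lit 175, nat_lit 11]⟩, ⟨p046_k5, nat_lit 0, nat_lit 0, nat_lit 44, nat_lit 0, nat_lit 0, [nat_lit 4688000000, nat_lit 6250000000, nat_lit 11872000000], [], [nat_lit 7104218272,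 nat_lit 11027847744, nat_lit 11776779616, nat_lit 15665046304, nat_lit 22123278112, nat_lit 24840433818, nat_lit 24681994119, nat_lit 26903447911], nat_lit 0, nat_lit 0, nat_lit 0, nat_lit 0, nat_lit 0, nat_lit 0, [], [nat_lit 48, nat_lit 40, nat_lit 40, nat_lit 80, nat_lit 12, nat_lit 456, nat_lit 225, nat_lit 11]⟩,
 zbF0, [⟨nat_lit 7, nat_lit 92, nat_lit 100, nat_lit 75, nat_lit 827741950⟩]⟩
noncomputable def b_V_600_600_10_30 : St := ⟨true, nat_lit 1, nat_lit 0, nat_lit 1, nat_lit 80, nat_lit 260, nat_lit 280, nat_lit 240, nat_lit 280, nat_lit 16, nat_lit 240, nat_lit 40, nat_lit 80, nat_lit 0, nat_lit 160, nat_lit 0, nat_lit 336, nat_lit 0, nat_lit 40, nat_lit 0, nat_lit 0, nat_lit 0, nat_lit 0⟩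
theorem d_V_600_600_10_30 (h : EB TB.env) : Dead b_V_600_600_10_30 := chkB_sound0 h (T :=
(.trZ (nat_lit 0) (nat_lit 100) (nat_lit 97) (nat_lit 49) (nat_lit 24) (.spl (nat_lit 2) (nat_lit 160)
(.spl (nat_lit 2) (nat_lit 80)
(.spl (nat_lit 6) (nat_lit 20)
(.spl (nat_lit 5) (nat_lit 160)
(.leaf p046_l0)
(.spl (nat_lit 1) (nat_lit 260)
(.spl (nat_lit 0) (nat_lit 270)
(.spl (nat_lit 4) (nat_lit 80)
(.leaf p046_l1)
(.leaf p046_l2))
(.trZ (nat_lit 0) (nat_lit 100) (nat_lit 96) (nat_lit 54) (nat_lit 28) (.spl (nat_lit 4) (nat_lit 80)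
(.leaf p046_l3)
(.leaf p046_l4))))
(.trZ (nat_lit 0) (nat_lit 100) (nat_lit 100) (nat_lit 60) (nat_lit 36) (.trX (nat_lit 19) (nat_lit 100) (nat_lit 85) (nat_lit 84) (nat_lit 320) (.spl (nat_lit 4) (nat_lit 80)
(.spl (nat_lit 0) (nat_lit 270)
(.ord (.leaf p046_l5))
(.trZ (nat_lit 0) (nat_lit 100) (nat_lit 98) (nat_lit 64) (nat_lit 40) (.leaf p046_l6)))
(.spl (nat_lit 0) (nat_lit 270)
(.ord (.leaf p046_l7))
(.trZ (nat_lit 0) (nat_lit 100) (nat_lit 98) (nat_lit 64) (nat_lit 40) (.leaf p046_l8))))))))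
(.spl (nat_lit 4) (nat_lit 80)
(.spl (nat_lit 1) (nat_lit 260)
(.spl (nat_lit 0) (nat_lit 270)
(.leaf p046_l9)
(.trZ (nat_lit 0) (nat_lit 100) (nat_lit 96) (nat_lit 54) (nat_lit 28) (.leaf p046_l10)))
(.trZ (nat_lit 0) (nat_lit 100) (nat_lit 100) (nat_lit 60) (nat_lit 36) (.trX (nat_lit 19) (nat_lit 100) (nat_lit 85) (nat_lit 84) (nat_lit 320) (.spl (nat_lit 5) (nat_lit 160)
(.leaf p046_l11)
(.spl (nat_lit 0) (nat_lit 270)
(.ord (.leaf p046_l12))
(.trZ (nat_lit 0) (nat_lit 100) (nat_lit 98) (nat_lit 64) (nat_lit 40) (.leaf p046_l13)))))))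
(.leaf p046_l14)))
(.spl (nat_lit 5) (nat_lit 160)
(.spl (nat_lit 1) (nat_lit 260)
(.leaf p046_l15)
(.leaf p046_l16))
(.spl (nat_lit 4) (nat_lit 80)
(.spl (nat_lit 0) (nat_lit 270)
(.ord (.leaf p046_l17))
(.leaf p046_l18))
(.spl (nat_lit 0) (nat_lit 270)
(.ord (.leaf p046_l19))
(.leaf p046_l20)))))
(.spl (nat_lit 5) (nat_lit 160)
(.leaf p046_l21)
(.leaf p046_l22))))) (by decide +kernel)
noncomputable def p046_l23 : Lf2 := ⟨nat_lit 0, nat_lit 6, [nat_lit 47, nat_lit 5, nat_lit 5, nat_lit 20], true, nat_lit 160, nat_lit 200, nat_lit 0, nat_lit 336, ⟨nat_lit 0, nat_lit 0, nat_lit 1000, nat_lit 6, nat_lit 96, nat_lit 1000, nat_lit 124, nat_lit 1000, nat_lit 144150, nat_lit 308, nat_lit 86400, nat_lit 287, nat_lit 56493488, nat_lit 0, nat_lit 0, nat_lit 2865415, false, false⟩,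
 nat_lit 0, nat_lit 8974, nat_lit 0, nat_lit 0, nat_lit 4750, nat_lit 0, nat_lit 171, nat_lit 0, nat_lit 0, nat_lit 0, nat_lit 0, nat_lit 0, nat_lit 0, nat_lit 24087880081957, nat_lit 147, nat_lit 1000000, nat_lit 0, nat_lit 0, [(nat_lit 6, [(nat_lit 6, nat_lit 1000)])],
 ⟨p046_k6, nat_lit 0, nat_lit 0, nat_lit 193, nat_lit 0, nat_lit 147886, [nat_lit 3329066667, nat_lit 3042400001, nat_lit 177599999], [], [nat_lit 11101710150, nat_lit 11721371800, nat_lit 11719538668, nat_lit 10518824168, nat_lit 13320886869, nat_lit 13189507101, nat_lit 14828728168, nat_lit 13645044793], nat_lit 1271250, nat_lit 1271250, nat_lit 88400, nat_lit 490000, nat_lit 1100001, nat_lit 1442500, [nat_lit 1100000, nat_lit 1442500, nat_lit 1271250], [nat_lit 11, nat_lit 40, nat_lit 40, nat_lit 80, nat_lit 1, nat_lit 373, nat_lit 150, nat_lit 11]⟩, C1.Rw.none,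
 ⟨nat_lit 6123, nat_lit 6325, ⟨.ofNat (nat_lit 164319), .ofNat (nat_lit 295942), .ofNat (nat_lit 175003), .ofNat (nat_lit 306625), .ofNat (nat_lit 172944), .ofNat (nat_lit 301553), .ofNat (nat_lit 183618), .ofNat (nat_lit 312227)⟩, ⟨.ofNat (nat_lit 246791), .ofNat (nat_lit 329055), .ofNat (nat_lit 289527), .ofNat (nat_lit 371791), .ofNat (nat_lit 248833), .ofNat (nat_lit 329214), .ofNat (nat_lit 291529), .ofNat (nat_lit 371910)⟩⟩, [⟨nat_lit 0, nat_lit 100, nat_lit 100, nat_lit 50, nat_lit 78381970⟩]⟩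
noncomputable def p046_l24 : Lf2 := ⟨nat_lit 0, nat_lit 6, [nat_lit 47, nat_lit 5, nat_lit 5, nat_lit 20], true, nat_lit 160, nat_lit 180, nat_lit 0, nat_lit 336, ⟨nat_lit 0, nat_lit 0, nat_lit 1000, nat_lit 6, nat_lit 102, nat_lit 1000, nat_lit 116, nat_lit 1000, nat_lit 126150, nat_lit 302, nat_lit 98817, nat_lit 292, nat_lit 56630873, nat_lit 0, nat_lit 0, nat_lit 2853714, false, false⟩,
 nat_lit 0, nat_lit 8267, nat_lit 0, nat_lit 0, nat_lit 4592, nat_lit 0, nat_lit 773, nat_lit 0, nat_lit 0, nat_lit 0, nat_lit 0, nat_lit 0, nat_lit 0, nat_lit 19593738117093, nat_lit 147, nat_lit 1000000, nat_lit 0, nat_lit 0, [(nat_lit 6, [(nat_lit 6, nat_lit 1000)])],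
 ⟨p046_k7, nat_lit 0, nat_lit 0, nat_lit 211, nat_lit 0, nat_lit 250147, [nat_lit 3329066667, nat_lit 3042400001, nat_lit 177599999], [], [nat_lit 11279554120, nat_lit 11909103832, nat_lit 10541097256, nat_lit 10923714312, nat_lit 12073365245, nat_lit 12678805642, nat_lit 12074987596, nat_lit 11662853720], nat_lit 1271250, nat_lit 1271250, nat_lit 111251, nat_lit 490000, nat_lit 1100001, nat_lit 1271250, [nat_lit 1100000, nat_lit 1442500, nat_lit 1271250], [nat_lit 11, nat_lit 40, nat_lit 40, nat_lit 80, nat_lit 1, nat_lit 373, nat_lit 150, nat_lit 11]⟩, C1.Rw.none,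
 ⟨nat_lit 5916, nat_lit 6124, ⟨.ofNat (nat_lit 180982), .ofNat (nat_lit 301553), .ofNat (nat_lit 202330), .ofNat (nat_lit 322901), .ofNat (nat_lit 189276), .ofNat (nat_lit 307076), .ofNat (nat_lit 210615), .ofNat (nat_lit 328416)⟩, ⟨.ofNat (nat_lit 248833), .ofNat (nat_lit 289023), .ofNat (nat_lit 291529), .ofNat (nat_lit 331719), .ofNat (nat_lit 250751), .ofNat (nat_lit 290018), .ofNat (nat_lit 293429), .ofNat (nat_lit 332696)⟩⟩, [⟨nat_lit 0, nat_lit 100, nat_lit 100, nat_lit 60, nat_lit 196568414⟩]⟩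
noncomputable def p046_l25 : Lf2 := ⟨nat_lit 0, nat_lit 6, [nat_lit 47, nat_lit 5, nat_lit 5, nat_lit 20], true, nat_lit 180, nat_lit 200, nat_lit 0, nat_lit 336, ⟨nat_lit 0, nat_lit 0, nat_lit 1000, nat_lit 6, nat_lit 102, nat_lit 1000, nat_lit 132, nat_lit 1000, nat_lit 163350, nat_lit 314, nat_lit 98817, nat_lit 292, nat_lit 55312878, nat_lit 0, nat_lit 0, nat_lit 3084442, false, false⟩,
 nat_lit 0, nat_lit 7990, nat_lit 0, nat_lit 0, nat_lit 4438, nat_lit 0, nat_lit 717, nat_lit 0, nat_lit 0, nat_lit 0, nat_lit 0, nat_lit 0, nat_lit 0, nat_lit 19042876191132, nat_lit 147, nat_lit 1000000, nat_lit 0, nat_lit 0, [(nat_lit 6, [(nat_lit 6, nat_lit 1000)])],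
 ⟨p046_k7, nat_lit 0, nat_lit 0, nat_lit 213, nat_lit 0, nat_lit 250147, [nat_lit 3329066667, nat_lit 3042400001, nat_lit 177599999], [], [nat_lit 12358401959, nat_lit 12954235104, nat_lit 12402117823, nat_lit 12008245921, nat_lit 13144431271, nat_lit 13716767444, nat_lit 12195972149, nat_lit 12740753858], nat_lit 1271250, nat_lit 1271250, nat_lit 111251, nat_lit 490000, nat_lit 1271250, nat_lit 1271250, [nat_lit 1100000, nat_lit 1442500, nat_lit 1271250], [nat_lit 11, nat_lit 40, nat_lit 40, nat_lit 80, nat_lit 1, nat_lit 373, nat_lit 150, nat_lit 11]⟩, C1.Rw.none,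
 ⟨nat_lit 5916, nat_lit 6124, ⟨.ofNat (nat_lit 180982), .ofNat (nat_lit 301553), .ofNat (nat_lit 202330), .ofNat (nat_lit 322901), .ofNat (nat_lit 189276), .ofNat (nat_lit 307076), .ofNat (nat_lit 210615), .ofNat (nat_lit 328416)⟩, ⟨.ofNat (nat_lit 289023), .ofNat (nat_lit 329214), .ofNat (nat_lit 331719), .ofNat (nat_lit 371910), .ofNat (nat_lit 290018), .ofNat (nat_lit 329284), .ofNat (nat_lit 332696), .ofNat (nat_lit 371963)⟩⟩, [⟨nat_lit 0, nat_lit 100, nat_lit 100, nat_lit 60, nat_lit 193243890⟩]⟩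
noncomputable def p046_l26 : Lf2 := ⟨nat_lit 0, nat_lit 6, [nat_lit 47, nat_lit 5, nat_lit 5, nat_lit 20], true, nat_lit 200, nat_lit 240, nat_lit 0, nat_lit 336, ⟨nat_lit 0, nat_lit 0, nat_lit 1000, nat_lit 6, nat_lit 97, nat_lit 1000, nat_lit 156, nat_lit 1000, nat_lit 190817, nat_lit 322, nat_lit 88817, nat_lit 288, nat_lit 53567356, nat_lit 0, nat_lit 0, nat_lit 3330987, false, false⟩,
 nat_lit 0, nat_lit 7992, nat_lit 0, nat_lit 0, nat_lit 4230, nat_lit 0, nat_lit 0, nat_lit 0, nat_lit 0, nat_lit 0, nat_lit 0, nat_lit 0, nat_lit 0, nat_lit 0, nat_lit 147, nat_lit 1000000, nat_lit 0, nat_lit 0, [(nat_lit 6, [(nat_lit 6, nat_lit 1000)])],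
 ⟨p046_k6, nat_lit 0, nat_lit 0, nat_lit 205, nat_lit 0, nat_lit 207978, [nat_lit 3329066667, nat_lit 3042400001, nat_lit 177599999], [], [nat_lit 13347263465, nat_lit 14469940038, nat_lit 12395911788, nat_lit 13462863318, nat_lit 14945663348, nat_lit 15977380857, nat_lit 13928180068, nat_lit 14909965608], nat_lit 1271250, nat_lit 1271250, nat_lit 88400, nat_lit 490000, nat_lit 1271250, nat_lit 1271250, [nat_lit 1100000, nat_lit 1442500, nat_lit 1271250], [nat_lit 11, nat_lit 40, nat_lit 40, nat_lit 80, nat_lit 1, nat_lit 373, nat_lit 150, nat_lit 11]⟩, C1.Rw.none,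
 ⟨nat_lit 5916, nat_lit 6325, ⟨.ofNat (nat_lit 164319), .ofNat (nat_lit 295942), .ofNat (nat_lit 175003), .ofNat (nat_lit 306625), .ofNat (nat_lit 181423), .ofNat (nat_lit 307076), .ofNat (nat_lit 192092), .ofNat (nat_lit 317746)⟩, ⟨.ofNat (nat_lit 329055), .ofNat (nat_lit 411320), .ofNat (nat_lit 371791), .ofNat (nat_lit 454055), .ofNat (nat_lit 329284), .ofNat (nat_lit 407818), .ofNat (nat_lit 371963), .ofNat (nat_lit 450496)⟩⟩, [⟨nat_lit 0, nat_lit 100, nat_lit 99, nat_lit 55, nat_lit 194525486⟩]⟩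
noncomputable def p046_l27 : Lf2 := ⟨nat_lit 0, nat_lit 6, [nat_lit 47, nat_lit 5, nat_lit 5, nat_lit 20], true, nat_lit 200, nat_lit 240, nat_lit 0, nat_lit 320, ⟨nat_lit 0, nat_lit 0, nat_lit 1000, nat_lit 6, nat_lit 88, nat_lit 1000, nat_lit 156, nat_lit 1000, nat_lit 212817, nat_lit 328, nat_lit 72600, nat_lit 281, nat_lit 54169195, nat_lit 0, nat_lit 0, nat_lit 3200263, false, false⟩,
 nat_lit 0, nat_lit 7691, nat_lit 0, nat_lit 0, nat_lit 4272, nat_lit 0, nat_lit 516, nat_lit 0, nat_lit 0, nat_lit 0, nat_lit 0, nat_lit 0, nat_lit 0, nat_lit 3240162489113, nat_lit 147, nat_lit 1000000, nat_lit 0, nat_lit 0, [(nat_lit 6, [(nat_lit 6, nat_lit 1000)])],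
 ⟨p046_k7, nat_lit 0, nat_lit 0, nat_lit 189, nat_lit 0, nat_lit 194512, [nat_lit 3329066667, nat_lit 3042400001, nat_lit 177599999], [], [nat_lit 13374343021, nat_lit 13655084545, nat_lit 12866503304, nat_lit 13144930198, nat_lit 14927739555, nat_lit 15185714534, nat_lit 14412356972, nat_lit 14668298804], nat_lit 1271250, nat_lit 1271250, nat_lit 134400, nat_lit 230001, nat_lit 1271250, nat_lit 1271250, [nat_lit 1100000, nat_lit 1442500, nat_lit 1271250], [nat_lit 11, nat_lit 40, nat_lit 40, nat_lit 80, nat_lit 1, nat_lit 373, nat_lit 150, nat_lit 10]⟩, C1.Rw.none,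
 ⟨nat_lit 6020, nat_lit 6124, ⟨.ofNat (nat_lit 199694), .ofNat (nat_lit 231846), .ofNat (nat_lit 205031), .ofNat (nat_lit 237183), .ofNat (nat_lit 203762), .ofNat (nat_lit 235543), .ofNat (nat_lit 209097), .ofNat (nat_lit 240879)⟩, ⟨.ofNat (nat_lit 329214), .ofNat (nat_lit 409594), .ofNat (nat_lit 371910), .ofNat (nat_lit 452290), .ofNat (nat_lit 329260), .ofNat (nat_lit 408713), .ofNat (nat_lit 371945), .ofNat (nat_lit 451398)⟩⟩, [⟨nat_lit 0, nat_lit 100, nat_lit 100, nat_lit 55, nat_lit 273361570⟩]⟩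
noncomputable def p046_l28 : Lf2 := ⟨nat_lit 0, nat_lit 6, [nat_lit 47, nat_lit 5, nat_lit 5, nat_lit 20], true, nat_lit 200, nat_lit 240, nat_lit 0, nat_lit 320, ⟨nat_lit 0, nat_lit 0, nat_lit 1000, nat_lit 6, nat_lit 91, nat_lit 1000, nat_lit 156, nat_lit 1000, nat_lit 228150, nat_lit 332, nat_lit 77067, nat_lit 283, nat_lit 54011763, nat_lit 0, nat_lit 0, nat_lit 3236645, false, false⟩,
 nat_lit 0, nat_lit 7615, nat_lit 0, nat_lit 0, nat_lit 4330, nat_lit 0, nat_lit 623, nat_lit 0, nat_lit 0, nat_lit 0, nat_lit 0, nat_lit 0, nat_lit 0, nat_lit 14507199538816, nat_lit 147, nat_lit 1000000, nat_lit 0, nat_lit 0, [(nat_lit 6, [(nat_lit 6, nat_lit 1000)])],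
 ⟨p046_k8, nat_lit 0, nat_lit 0, nat_lit 209, nat_lit 0, nat_lit 243046, [nat_lit 3329066667, nat_lit 3042400001, nat_lit 177599999], [], [nat_lit 13385900402, nat_lit 13668331468, nat_lit 12865641806, nat_lit 13145741028, nat_lit 15209402963, nat_lit 15594517460, nat_lit 14436696919, nat_lit 14713849634], nat_lit 1271250, nat_lit 1271250, nat_lit 134400, nat_lit 230001, nat_lit 1271250, nat_lit 1271250, [nat_lit 1100000, nat_lit 1442500, nat_lit 1271250], [nat_lit 11, nat_lit 40, nat_lit 40, nat_lit 80, nat_lit 1, nat_lit 373, nat_lit 150, nat_lit 10]⟩, C1.Rw.none,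
 ⟨nat_lit 5916, nat_lit 6021, ⟨.ofNat (nat_lit 203762), .ofNat (nat_lit 235543), .ofNat (nat_lit 214433), .ofNat (nat_lit 246214), .ofNat (nat_lit 207799), .ofNat (nat_lit 239212), .ofNat (nat_lit 218469), .ofNat (nat_lit 249882)⟩, ⟨.ofNat (nat_lit 329260), .ofNat (nat_lit 408713), .ofNat (nat_lit 371945), .ofNat (nat_lit 451398), .ofNat (nat_lit 329284), .ofNat (nat_lit 407818), .ofNat (nat_lit 371963), .ofNat (nat_lit 450496)⟩⟩, [⟨nat_lit 0, nat_lit 100, nat_lit 100, nat_lit 60, nat_lit 386773972⟩]⟩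
noncomputable def p046_l29 : Lf2 := ⟨nat_lit 0, nat_lit 6, [nat_lit 47, nat_lit 5, nat_lit 5, nat_lit 20], true, nat_lit 200, nat_lit 240, nat_lit 0, nat_lit 328, ⟨nat_lit 0, nat_lit 0, nat_lit 1000, nat_lit 6, nat_lit 112, nat_lit 1000, nat_lit 156, nat_lit 1000, nat_lit 212817, nat_lit 328, nat_lit 117600, nat_lit 299, nat_lit 52508845, nat_lit 0, nat_lit 0, nat_lit 3544297, false, false⟩,
 nat_lit 0, nat_lit 7835, nat_lit 0, nat_lit 0, nat_lit 4352, nat_lit 0, nat_lit 682, nat_lit 0, nat_lit 0, nat_lit 0, nat_lit 0, nat_lit 0, nat_lit 0, nat_lit 0, nat_lit 147, nat_lit 1000000, nat_lit 0, nat_lit 0, [(nat_lit 6, [(nat_lit 6, nat_lit 1000)])],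
 ⟨p046_k7, nat_lit 0, nat_lit 0, nat_lit 194, nat_lit 0, nat_lit 250147, [nat_lit 3329066667, nat_lit 3042400001, nat_lit 177599999], [], [nat_lit 12648608344, nat_lit 13210075452, nat_lit 12391362292, nat_lit 12931469428, nat_lit 14202518532, nat_lit 14718389156, nat_lit 13892464276, nat_lit 14389078724], nat_lit 1271250, nat_lit 1271250, nat_lit 230001, nat_lit 490000, nat_lit 1271250, nat_lit 1271250, [nat_lit 1100000, nat_lit 1442500, nat_lit 1271250], [nat_lit 11, nat_lit 40, nat_lit 40, nat_lit 80, nat_lit 1, nat_lit 373, nat_lit 150, nat_lit 10]⟩, C1.Rw.none,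
 ⟨nat_lit 5916, nat_lit 6124, ⟨.ofNat (nat_lit 231846), .ofNat (nat_lit 312227), .ofNat (nat_lit 242520), .ofNat (nat_lit 322901), .ofNat (nat_lit 239212), .ofNat (nat_lit 317746), .ofNat (nat_lit 249882), .ofNat (nat_lit 328416)⟩, ⟨.ofNat (nat_lit 329214), .ofNat (nat_lit 409594), .ofNat (nat_lit 371910), .ofNat (nat_lit 452290), .ofNat (nat_lit 329284), .ofNat (nat_lit 407818), .ofNat (nat_lit 371963), .ofNat (nat_lit 450496)⟩⟩, []⟩
noncomputable def p046_l30 : Lf2 := ⟨nat_lit 0, nat_lit 6, [nat_lit 47, nat_lit 5, nat_lit 5, nat_lit 20], false, nat_lit 160, nat_lit 240, nat_lit 0, nat_lit 160, ⟨nat_lit 1000, nat_lit 0, nat_lit 0, nat_lit 0, nat_lit 0, nat_lit 0, nat_lit 0, nat_lit 0, nat_lit 0, nat_lit 0, nat_lit 0, nat_lit 0, nat_lit 0, nat_lit 0, nat_lit 0, nat_lit 0, false, false⟩,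
 nat_lit 0, nat_lit 16613, nat_lit 0, nat_lit 0, nat_lit 8795, nat_lit 10092, nat_lit 2267, nat_lit 0, nat_lit 0, nat_lit 4106, nat_lit 0, nat_lit 0, nat_lit 0, nat_lit 35588412838661, nat_lit 0, nat_lit 0, nat_lit 0, nat_lit 0, [],
 ⟨p046_k6, nat_lit 0, nat_lit 0, nat_lit 316, nat_lit 0, nat_lit 489527, [nat_lit 4688000000, nat_lit 6250000000, nat_lit 9842000000], [], [nat_lit 24317198360, nat_lit 19804853250, nat_lit 16336401560, nat_lit 15795865070, nat_lit 23047611640, nat_lit 18727684430, nat_lit 25769216660, nat_lit 21509288050], nat_lit 1271250, nat_lit 1271250, nat_lit 490000, nat_lit 780000, nat_lit 1100001, nat_lit 1785000, [nat_lit 1100000, nat_lit 1442500, nat_lit 1271250], [nat_lit 11, nat_lit 40, nat_lit 40, nat_lit 80, nat_lit 1, nat_lit 401, nat_lit 175, nat_lit 11]⟩, ⟨p046_k6, nat_lit 0, nat_lit 0, nat_lit 0, nat_lit 0, nat_lit 0, [nat_lit 4688000000, nat_lit 6250000000, nat_lit 9842000000], [], [nat_lit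 13122613824, nat_lit 15908017664, nat_lit 12667315376, nat_lit 15302915392, nat_lit 7477034736, nat_lit 9654210648, nat_lit 7243595968, nat_lit 9271715128], nat_lit 0, nat_lit 0, nat_lit 0, nat_lit 0, nat_lit 0, nat_lit 0, [], [nat_lit 11, nat_lit 40, nat_lit 40, nat_lit 80]⟩,
 zbF0, []⟩
noncomputable def p046_l31 : Lf2 := ⟨nat_lit 0, nat_lit 6, [nat_lit 47, nat_lit 5, nat_lit 5, nat_lit 20], false, nat_lit 160, nat_lit 240, nat_lit 160, nat_lit 336, ⟨nat_lit 1000, nat_lit 0, nat_lit 0, nat_lit 0, nat_lit 0, nat_lit 0, nat_lit 0, nat_lit 0, nat_lit 0, nat_lit 0, nat_lit 0, nat_lit 0, nat_lit 0, nat_lit 0, nat_lit 0, nat_lit 0, false, false⟩,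
 nat_lit 0, nat_lit 16613, nat_lit 0, nat_lit 0, nat_lit 8795, nat_lit 8785, nat_lit 2267, nat_lit 0, nat_lit 0, nat_lit 0, nat_lit 0, nat_lit 0, nat_lit 0, nat_lit 0, nat_lit 0, nat_lit 0, nat_lit 0, nat_lit 0, [],
 ⟨p046_k6, nat_lit 0, nat_lit 0, nat_lit 316, nat_lit 0, nat_lit 489527, [nat_lit 4688000000, nat_lit 6250000000, nat_lit 9842000000], [], [nat_lit 24317198360, nat_lit 19804853250, nat_lit 16336401560, nat_lit 15795865070, nat_lit 23047611640, nat_lit 18727684430, nat_lit 25769216660, nat_lit 21509288050], nat_lit 1271250, nat_lit 1271250, nat_lit 490000, nat_lit 780000, nat_lit 1100001, nat_lit 1785000, [nat_lit 1100000, nat_lit 1442500, nat_lit 1271250], [nat_lit 11, nat_lit 40, nat_lit 40, nat_lit 80, nat_lit 1, nat_lit 401, nat_lit 175, nat_lit 11]⟩, ⟨p046_k6, nat_lit 0, nat_lit 0, nat_lit 0, nat_lit 0, nat_lit 0, [nat_lit 4688000000, nat_lit 6250000000, nat_lit 9842000000], [], [nat_lit 5405157500,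 nat_lit 7700283630, nat_lit 5441823020, nat_lit 7607063300, nat_lit 23284096104, nat_lit 24847249452, nat_lit 22203596460, nat_lit 23690854624], nat_lit 0, nat_lit 0, nat_lit 0, nat_lit 0, nat_lit 0, nat_lit 0, [], [nat_lit 11, nat_lit 40, nat_lit 40, nat_lit 80]⟩,
 zbF0, [⟨nat_lit 7, nat_lit 88, nat_lit 100, nat_lit 74, nat_lit 966981558⟩]⟩
noncomputable def p046_l32 : Lf2 := ⟨nat_lit 3, nat_lit 6, [nat_lit 47, nat_lit 5, nat_lit 5, nat_lit 20], false, nat_lit 160, nat_lit 240, nat_lit 0, nat_lit 336, zbN0,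
 nat_lit 0, nat_lit 0, nat_lit 0, nat_lit 0, nat_lit 0, nat_lit 0, nat_lit 0, nat_lit 0, nat_lit 0, nat_lit 0, nat_lit 0, nat_lit 0, nat_lit 0, nat_lit 0, nat_lit 0, nat_lit 0, nat_lit 0, nat_lit 0, [],
 C1.Rw.none, ⟨p046_k6, nat_lit 0, nat_lit 0, nat_lit 283, nat_lit 0, nat_lit 0, [], [], [], nat_lit 0, nat_lit 0, nat_lit 0, nat_lit 0, nat_lit 0, nat_lit 0, [], [nat_lit 11, nat_lit 40, nat_lit 40, nat_lit 80, nat_lit 1, nat_lit 428, nat_lit 200, nat_lit 13]⟩,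
 zbF0, []⟩
noncomputable def p046_l33 : Lf2 := ⟨nat_lit 0, nat_lit 6, [nat_lit 47, nat_lit 5, nat_lit 5, nat_lit 20], false, nat_lit 160, nat_lit 240, nat_lit 0, nat_lit 336, ⟨nat_lit 1000, nat_lit 0, nat_lit 0, nat_lit 0, nat_lit 0, nat_lit 0, nat_lit 0, nat_lit 0, nat_lit 0, nat_lit 0, nat_lit 0, nat_lit 0, nat_lit 0, nat_lit 0, nat_lit 0, nat_lit 0, false, false⟩,
 nat_lit 0, nat_lit 21124, nat_lit 0, nat_lit 0, nat_lit 11183, nat_lit 6761, nat_lit 76, nat_lit 0, nat_lit 0, nat_lit 0, nat_lit 0, nat_lit 0, nat_lit 0, nat_lit 0, nat_lit 0, nat_lit 0, nat_lit 0, nat_lit 0, [],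
 ⟨p046_k6, nat_lit 0, nat_lit 0, nat_lit 151, nat_lit 0, nat_lit 267923, [nat_lit 4688000000, nat_lit 6250000000, nat_lit 9842000000], [], [nat_lit 16270069832, nat_lit 17179181227, nat_lit 16589278000, nat_lit 17429391687, nat_lit 23389689284, nat_lit 20681401527, nat_lit 28150826988, nat_lit 25479834536], nat_lit 1271250, nat_lit 1271250, nat_lit 780000, nat_lit 1100001, nat_lit 1100001, nat_lit 1785000, [nat_lit 1100000, nat_lit 1442500, nat_lit 1271250], [nat_lit 11, nat_lit 40, nat_lit 40, nat_lit 80, nat_lit 1, nat_lit 401, nat_lit 175, nat_lit 11]⟩, ⟨p046_k6, nat_lit 0, nat_lit 0, nat_lit 43, nat_lit 0, nat_lit 0, [nat_lit 4688000000, nat_lit 6250000000, nat_lit 9842000000], [], [nat_lit 11154080888, nat_lit 12251246105, nat_lit 12370417484, nat_lit 13394600813, nat_lit 21372966921, nat_lit 21943642954, nat_lit 21634556299, nat_lit 22147769952], nat_lit 0, nat_lit 0, nat_lit 0, nat_lit 0, nat_lit 0, nat_lit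 0, [], [nat_lit 11, nat_lit 40, nat_lit 40, nat_lit 80, nat_lit 1, nat_lit 428, nat_lit 200, nat_lit 12]⟩,
 zbF0, [⟨nat_lit 7, nat_lit 86, nat_lit 100, nat_lit 73, nat_lit 437883941⟩]⟩
noncomputable def p046_l34 : Lf2 := ⟨nat_lit 0, nat_lit 6, [nat_lit 47, nat_lit 5, nat_lit 5, nat_lit 20], false, nat_lit 160, nat_lit 240, nat_lit 0, nat_lit 336, ⟨nat_lit 1000, nat_lit 0, nat_lit 0, nat_lit 0, nat_lit 0, nat_lit 0, nat_lit 0, nat_lit 0, nat_lit 0, nat_lit 0, nat_lit 0, nat_lit 0, nat_lit 0, nat_lit 0, nat_lit 0, nat_lit 0, false, false⟩,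
 nat_lit 0, nat_lit 15131, nat_lit 0, nat_lit 0, nat_lit 8405, nat_lit 8689, nat_lit 1760, nat_lit 0, nat_lit 0, nat_lit 3386, nat_lit 0, nat_lit 0, nat_lit 0, nat_lit 6927338644851, nat_lit 0, nat_lit 0, nat_lit 0, nat_lit 0, [],
 ⟨p046_k7, nat_lit 0, nat_lit 0, nat_lit 285, nat_lit 0, nat_lit 456658, [nat_lit 4688000000, nat_lit 6250000000, nat_lit 9842000000], [], [nat_lit 14312353055, nat_lit 14937531870, nat_lit 17893689545, nat_lit 15829329090, nat_lit 23396318445, nat_lit 21360803950, nat_lit 27320728760, nat_lit 25313244940], nat_lit 1271250, nat_lit 1271250, nat_lit 780000, nat_lit 1100001, nat_lit 1100001, nat_lit 1785000, [nat_lit 1100000, nat_lit 1442500, nat_lit 1271250], [nat_lit 11, nat_lit 40, nat_lit 40, nat_lit 80, nat_lit 1, nat_lit 401, nat_lit 175, nat_lit 11]⟩, ⟨p046_k6, nat_lit 0, nat_lit 0, nat_lit 142, nat_lit 0, nat_lit 0, [nat_lit 4688000000, nat_lit 6250000000, nat_lit 9842000000], [],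 [nat_lit 14148425108, nat_lit 16009640164, nat_lit 14953668088, nat_lit 16892061694, nat_lit 22501220113, nat_lit 23639213605, nat_lit 22481193140, nat_lit 23578386185], nat_lit 0, nat_lit 0, nat_lit 0, nat_lit 0, nat_lit 0, nat_lit 0, [], [nat_lit 11, nat_lit 40, nat_lit 40, nat_lit 80, nat_lit 1, nat_lit 428, nat_lit 200, nat_lit 12]⟩,
 zbF0, [⟨nat_lit 7, nat_lit 88, nat_lit 100, nat_lit 74, nat_lit 409370664⟩]⟩
noncomputable def p046_l35 : Lf2 := ⟨nat_lit 0, nat_lit 6, [nat_lit 47, nat_lit 5, nat_lit 5, nat_lit 20], false, nat_lit 160, nat_lit 240, nat_lit 0, nat_lit 336, ⟨nat_lit 1000, nat_lit 0, nat_lit 0, nat_lit 0, nat_lit 0, nat_lit 0, nat_lit 0, nat_lit 0, nat_lit 0, nat_lit 0, nat_lit 0, nat_lit 0, nat_lit 0, nat_lit 0, nat_lit 0, nat_lit 0, false, false⟩,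
 nat_lit 0, nat_lit 7989, nat_lit 0, nat_lit 6807, nat_lit 4229, nat_lit 9644, nat_lit 2018, nat_lit 0, nat_lit 0, nat_lit 1937, nat_lit 0, nat_lit 0, nat_lit 0, nat_lit 14365846452993, nat_lit 0, nat_lit 0, nat_lit 0, nat_lit 0, [],
 ⟨p046_k6, nat_lit 0, nat_lit 0, nat_lit 287, nat_lit 0, nat_lit 489527, [nat_lit 4688000000, nat_lit 6250000000, nat_lit 9842000000], [], [nat_lit 31132331360, nat_lit 28896298358, nat_lit 24881802476, nat_lit 25617486490, nat_lit 24881802476, nat_lit 25617486490, nat_lit 27798752168, nat_lit 27771698326], nat_lit 1271250, nat_lit 1271250, nat_lit 1100001, nat_lit 1785000, nat_lit 1100001, nat_lit 1785000, [nat_lit 1100000, nat_lit 1442500, nat_lit 1271250], [nat_lit 11, nat_lit 40, nat_lit 40, nat_lit 80, nat_lit 1, nat_lit 428, nat_lit 200, nat_lit 12]⟩, ⟨p046_k6, nat_lit 0, nat_lit 0, nat_lit 146, nat_lit 0, nat_lit 0, [nat_lit 4688000000, nat_lit 6250000000, nat_lit 9842000000],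 [], [nat_lit 19104147034, nat_lit 20954363042, nat_lit 22900348362, nat_lit 24405760226, nat_lit 22525667552, nat_lit 23988103341, nat_lit 25143239127, nat_lit 26328853543], nat_lit 0, nat_lit 0, nat_lit 0, nat_lit 0, nat_lit 0, nat_lit 0, [], [nat_lit 11, nat_lit 40, nat_lit 40, nat_lit 80, nat_lit 1, nat_lit 456, nat_lit 225, nat_lit 13]⟩,
 zbF0, [⟨nat_lit 7, nat_lit 88, nat_lit 100, nat_lit 74, nat_lit 316937510⟩]⟩
noncomputable def b_V_600_600_10_31 : St := ⟨true, nat_lit 1, nat_lit 0, nat_lit 1, nat_lit 80, nat_lit 240, nat_lit 260, nat_lit 240, nat_lit 260, nat_lit 16, nat_lit 240, nat_lit 40, nat_lit 80, nat_lit 160, nat_lit 240, nat_lit 0, nat_lit 336, nat_lit 0, nat_lit 24, nat_lit 0, nat_lit 0, nat_lit 0, nat_lit 0⟩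
theorem d_V_600_600_10_31 (h : EB TB.env) : Dead b_V_600_600_10_31 := chkB_sound0 h (T :=
(.spl (nat_lit 2) (nat_lit 160)
(.spl (nat_lit 2) (nat_lit 120)
(.spl (nat_lit 8) (nat_lit 800)
(.spl (nat_lit 2) (nat_lit 80)
(.spl (nat_lit 4) (nat_lit 200)
(.spl (nat_lit 0) (nat_lit 250)
(.ord (.leaf p046_l23))
(.trZ (nat_lit 0) (nat_lit 100) (nat_lit 99) (nat_lit 45) (nat_lit 20) (.spl (nat_lit 4) (nat_lit 180)
(.leaf p046_l24)
(.leaf p046_l25))))
(.spl (nat_lit 1) (nat_lit 250)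
(.leaf p046_l26)
(.ord (.trZ (nat_lit 0) (nat_lit 100) (nat_lit 100) (nat_lit 50) (nat_lit 24) (.trX (nat_lit 19) (nat_lit 100) (nat_lit 81) (nat_lit 83) (nat_lit 328) (.spl (nat_lit 2) (nat_lit 40)
(.trX (nat_lit 23) (nat_lit 100) (nat_lit 80) (nat_lit 60) (nat_lit 320) (.spl (nat_lit 0) (nat_lit 255)
(.ord (.leaf p046_l27))
(.leaf p046_l28)))
(.leaf p046_l29)))))))
(.spl (nat_lit 5) (nat_lit 160)
(.leaf p046_l30)
(.leaf p046_l31)))
(.leaf p046_l32))
(.spl (nat_lit 0) (nat_lit 250)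
(.ord (.leaf p046_l33))
(.leaf p046_l34)))
(.leaf p046_l35))) (by decide +kernel)
noncomputable def p046_l36 : Lf2 := ⟨nat_lit 0, nat_lit 3, [nat_lit 45, nat_lit 5, nat_lit 5, nat_lit 20], false, nat_lit 240, nat_lit 312, nat_lit 0, nat_lit 160, ⟨nat_lit 1000, nat_lit 0, nat_lit 0, nat_lit 0, nat_lit 0, nat_lit 0, nat_lit 0, nat_lit 0, nat_lit 0, nat_lit 0, nat_lit 0, nat_lit 0, nat_lit 0, nat_lit 0, nat_lit 0, nat_lit 0, false, false⟩,
 nat_lit 0, nat_lit 15728, nat_lit 0, nat_lit 12012, nat_lit 8326, nat_lit 8336, nat_lit 2238, nat_lit 0, nat_lit 0, nat_lit 3288, nat_lit 0, nat_lit 0, nat_lit 0, nat_lit 15395270859490, nat_lit 0, nat_lit 0, nat_lit 0, nat_lit 0, [],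
 ⟨p046_k9, nat_lit 0, nat_lit 0, nat_lit 171, nat_lit 0, nat_lit 132521, [nat_lit 4688000000, nat_lit 6250000000, nat_lit 7968000000], [], [nat_lit 19045572053, nat_lit 19829536293, nat_lit 15487510102, nat_lit 16102011000, nat_lit 25138711027, nat_lit 25817554703, nat_lit 21099715216, nat_lit 21749662344], nat_lit 1271250, nat_lit 1271250, nat_lit 88400, nat_lit 490000, nat_lit 1271250, nat_lit 1271250, [nat_lit 1100000, nat_lit 1442500, nat_lit 1271250], [nat_lit 9, nat_lit 40, nat_lit 40, nat_lit 80, nat_lit 2, nat_lit 226, nat_lit 20, nat_lit 7]⟩, ⟨p046_k9, nat_lit 0, nat_lit 0, nat_lit 169, nat_lit 0, nat_lit 0, [nat_lit 4688000000, nat_lit 6250000000, nat_lit 7968000000], [], [nat_lit 18907160530, nat_lit 20042486085, nat_lit 14618019136, nat_lit 15630651360, nat_lit 14321112679, nat_lit 15201119103, nat_lit 11444702688, nat_lit 12274561520], nat_lit 0, nat_lit 0, nat_lit 0, nat_lit 0, nat_lit 0, nat_lit 0,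 [], [nat_lit 9, nat_lit 40, nat_lit 40, nat_lit 80, nat_lit 2, nat_lit 272, nat_lit 60, nat_lit 9]⟩,
 zbF0, [⟨nat_lit 0, nat_lit 100, nat_lit 100, nat_lit 50, nat_lit 1260394111⟩, ⟨nat_lit 4, nat_lit 90, nat_lit 100, nat_lit 68, nat_lit 967562135⟩]⟩
noncomputable def p046_l37 : Lf2 := ⟨nat_lit 0, nat_lit 3, [nat_lit 45, nat_lit 5, nat_lit 5, nat_lit 20], false, nat_lit 240, nat_lit 312, nat_lit 160, nat_lit 288, ⟨nat_lit 1000, nat_lit 0, nat_lit 0, nat_lit 0, nat_lit 0, nat_lit 0, nat_lit 0, nat_lit 0, nat_lit 0, nat_lit 0, nat_lit 0, nat_lit 0, nat_lit 0, nat_lit 0, nat_lit 0, nat_lit 0, false, false⟩,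
 nat_lit 0, nat_lit 15728, nat_lit 0, nat_lit 0, nat_lit 8326, nat_lit 7727, nat_lit 2598, nat_lit 0, nat_lit 0, nat_lit 0, nat_lit 0, nat_lit 0, nat_lit 0, nat_lit 0, nat_lit 0, nat_lit 0, nat_lit 0, nat_lit 0, [],
 ⟨p046_k9, nat_lit 0, nat_lit 0, nat_lit 171, nat_lit 0, nat_lit 132521, [nat_lit 4688000000, nat_lit 6250000000, nat_lit 7968000000], [], [nat_lit 18470697053, nat_lit 19255536033, nat_lit 16606225120, nat_lit 17320147982, nat_lit 25138120624, nat_lit 25817554703, nat_lit 22865409460, nat_lit 23540370584], nat_lit 1271250, nat_lit 1271250, nat_lit 88400, nat_lit 230001, nat_lit 1271250, nat_lit 1271250, [nat_lit 1100000, nat_lit 1442500, nat_lit 1271250], [nat_lit 9, nat_lit 40, nat_lit 40, nat_lit 80, nat_lit 2, nat_lit 215, nat_lit 10, nat_lit 7]⟩, ⟨p046_k9, nat_lit 0, nat_lit 0, nat_lit 83, nat_lit 0, nat_lit 0, [nat_lit 4688000000, nat_lit 6250000000, nat_lit 7968000000], [], [nat_lit 10227347147,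 nat_lit 11336068531, nat_lit 8206653884, nat_lit 9303528991, nat_lit 21486727686, nat_lit 22400372970, nat_lit 18852327106, nat_lit 19763331481], nat_lit 0, nat_lit 0, nat_lit 0, nat_lit 0, nat_lit 0, nat_lit 0, [], [nat_lit 9, nat_lit 40, nat_lit 40, nat_lit 80, nat_lit 2, nat_lit 317, nat_lit 100, nat_lit 10]⟩,
 zbF0, [⟨nat_lit 0, nat_lit 100, nat_lit 100, nat_lit 50, nat_lit 260186027⟩, ⟨nat_lit 11, nat_lit 100, nat_lit 93, nat_lit 49, nat_lit 1424009388⟩]⟩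
noncomputable def p046_l38 : Lf2 := ⟨nat_lit 0, nat_lit 3, [nat_lit 45, nat_lit 5, nat_lit 5, nat_lit 20], false, nat_lit 240, nat_lit 312, nat_lit 160, nat_lit 312, ⟨nat_lit 1000, nat_lit 0, nat_lit 0, nat_lit 0, nat_lit 0, nat_lit 0, nat_lit 0, nat_lit 0, nat_lit 0, nat_lit 0, nat_lit 0, nat_lit 0, nat_lit 0, nat_lit 0, nat_lit 0, nat_lit 0, false, false⟩,
 nat_lit 0, nat_lit 16696, nat_lit 0, nat_lit 0, nat_lit 8838, nat_lit 6584, nat_lit 3553, nat_lit 0, nat_lit 0, nat_lit 0, nat_lit 0, nat_lit 0, nat_lit 0, nat_lit 0, nat_lit 0, nat_lit 0, nat_lit 0, nat_lit 0, [],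
 ⟨p046_k9, nat_lit 0, nat_lit 0, nat_lit 144, nat_lit 0, nat_lit 132521, [nat_lit 4688000000, nat_lit 6250000000, nat_lit 7968000000], [], [nat_lit 15710235280, nat_lit 16608929006, nat_lit 14306122040, nat_lit 15013125402, nat_lit 22659539381, nat_lit 23357429502, nat_lit 20740401809, nat_lit 21412111650], nat_lit 1271250, nat_lit 1271250, nat_lit 230001, nat_lit 490000, nat_lit 1271250, nat_lit 1271250, [nat_lit 1100000, nat_lit 1442500, nat_lit 1271250], [nat_lit 9, nat_lit 40, nat_lit 40, nat_lit 80, nat_lit 2, nat_lit 226, nat_lit 20, nat_lit 7]⟩, ⟨p046_k9, nat_lit 0, nat_lit 0, nat_lit 70, nat_lit 0, nat_lit 0, [nat_lit 4688000000, nat_lit 6250000000, nat_lit 7968000000], [], [nat_lit 9737025728, nat_lit 10726526272, nat_lit 8912891200, nat_lit 9863665056, nat_lit 20852376596, nat_lit 21500932463, nat_lit 19632348608, nat_lit 20258079436], nat_lit 0, nat_lit 0, nat_lit 0, nat_lit 0, nat_lit 0, nat_lit 0, [],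 [nat_lit 9, nat_lit 40, nat_lit 40, nat_lit 80, nat_lit 2, nat_lit 317, nat_lit 100, nat_lit 10]⟩,
 zbF0, [⟨nat_lit 4, nat_lit 90, nat_lit 100, nat_lit 68, nat_lit 147386016⟩, ⟨nat_lit 11, nat_lit 100, nat_lit 94, nat_lit 55, nat_lit 1015522114⟩, ⟨nat_lit 11, nat_lit 100, nat_lit 100, nat_lit 77, nat_lit 67491125⟩]⟩
noncomputable def p046_l39 : Lf2 := ⟨nat_lit 1, nat_lit 6, [nat_lit 47, nat_lit 5, nat_lit 5, nat_lit 20], false, nat_lit 240, nat_lit 312, nat_lit 0, nat_lit 312, zbN0,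
 nat_lit 0, nat_lit 0, nat_lit 0, nat_lit 0, nat_lit 0, nat_lit 0, nat_lit 0, nat_lit 0, nat_lit 0, nat_lit 0, nat_lit 0, nat_lit 0, nat_lit 0, nat_lit 0, nat_lit 0, nat_lit 0, nat_lit 0, nat_lit 0, [],
 C1.Rw.none, C1.Rw.none,
 zbF0, []⟩
noncomputable def p046_l40 : Lf2 := ⟨nat_lit 0, nat_lit 6, [nat_lit 47, nat_lit 5, nat_lit 5, nat_lit 20], false, nat_lit 240, nat_lit 304, nat_lit 0, nat_lit 160, ⟨nat_lit 1000, nat_lit 0, nat_lit 0, nat_lit 0, nat_lit 0, nat_lit 0, nat_lit 0, nat_lit 0, nat_lit 0, nat_lit 0, nat_lit 0, nat_lit 0, nat_lit 0, nat_lit 0, nat_lit 0, nat_lit 0, false, false⟩,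
 nat_lit 0, nat_lit 14039, nat_lit 0, nat_lit 16411, nat_lit 7799, nat_lit 7563, nat_lit 2337, nat_lit 0, nat_lit 0, nat_lit 3015, nat_lit 0, nat_lit 0, nat_lit 0, nat_lit 12898382210593, nat_lit 0, nat_lit 0, nat_lit 0, nat_lit 0, [],
 ⟨p046_k7, nat_lit 0, nat_lit 0, nat_lit 230, nat_lit 0, nat_lit 234262, [nat_lit 4688000000, nat_lit 6250000000, nat_lit 9842000000], [], [nat_lit 19684465422, nat_lit 20347770811, nat_lit 16478171898, nat_lit 17003493740, nat_lit 24163314091, nat_lit 24696352243, nat_lit 20647972125, nat_lit 21159951696], nat_lit 1271250, nat_lit 1271250, nat_lit 111251, nat_lit 490000, nat_lit 1271250, nat_lit 1271250, [nat_lit 1100000, nat_lit 1442500, nat_lit 1271250], [nat_lit 11, nat_lit 40, nat_lit 40, nat_lit 80, nat_lit 1, nat_lit 401, nat_lit 175, nat_lit 11]⟩, ⟨p046_k6, nat_lit 0, nat_lit 0, nat_lit 215, nat_lit 0, nat_lit 0, [nat_lit 4688000000, nat_lit 6250000000, nat_lit 9842000000],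 [], [nat_lit 19906581126, nat_lit 21768557887, nat_lit 15994627690, nat_lit 17731849236, nat_lit 15426775860, nat_lit 17080192346, nat_lit 13191290004, nat_lit 14755446316], nat_lit 0, nat_lit 0, nat_lit 0, nat_lit 0, nat_lit 0, nat_lit 0, [], [nat_lit 11, nat_lit 40, nat_lit 40, nat_lit 80, nat_lit 1, nat_lit 345, nat_lit 125, nat_lit 10]⟩,
 zbF0, [⟨nat_lit 0, nat_lit 100, nat_lit 100, nat_lit 60, nat_lit 1174890250⟩, ⟨nat_lit 4, nat_lit 94, nat_lit 100, nat_lit 69, nat_lit 840351810⟩]⟩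
noncomputable def p046_l41 : Lf2 := ⟨nat_lit 0, nat_lit 6, [nat_lit 47, nat_lit 5, nat_lit 5, nat_lit 20], false, nat_lit 240, nat_lit 304, nat_lit 160, nat_lit 276, ⟨nat_lit 1000, nat_lit 0, nat_lit 0, nat_lit 0, nat_lit 0, nat_lit 0, nat_lit 0, nat_lit 0, nat_lit 0, nat_lit 0, nat_lit 0, nat_lit 0, nat_lit 0, nat_lit 0, nat_lit 0, nat_lit 0, false, false⟩,
 nat_lit 0, nat_lit 14025, nat_lit 0, nat_lit 0, nat_lit 7791, nat_lit 7060, nat_lit 2578, nat_lit 0, nat_lit 0, nat_lit 0, nat_lit 0, nat_lit 0, nat_lit 0, nat_lit 0, nat_lit 0, nat_lit 0, nat_lit 0, nat_lit 0, [],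
 ⟨p046_k7, nat_lit 0, nat_lit 0, nat_lit 230, nat_lit 0, nat_lit 234262, [nat_lit 4688000000, nat_lit 6250000000, nat_lit 9842000000], [], [nat_lit 18821774894, nat_lit 19484712199, nat_lit 17781612495, nat_lit 18456450290, nat_lit 23823624396, nat_lit 24685990777, nat_lit 22677022082, nat_lit 23349625889], nat_lit 1271250, nat_lit 1271250, nat_lit 111251, nat_lit 181601, nat_lit 1271250, nat_lit 1271250, [nat_lit 1100000, nat_lit 1442500, nat_lit 1271250], [nat_lit 11, nat_lit 40, nat_lit 40, nat_lit 80, nat_lit 1, nat_lit 373, nat_lit 150, nat_lit 10]⟩, ⟨p046_k6, nat_lit 0, nat_lit 0, nat_lit 75, nat_lit 0, nat_lit 0, [nat_lit 4688000000, nat_lit 6250000000, nat_lit 9842000000], [], [nat_lit 10611880080, nat_lit 12698890880, nat_lit 9704575344, nat_lit 11780439417, nat_lit 19180462545, nat_lit 20987043357, nat_lit 17995451402, nat_lit 19797698505], nat_lit 0, nat_lit 0, nat_lit 0, nat_lit 0, nat_lit 0, nat_lit 0,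 [], [nat_lit 11, nat_lit 40, nat_lit 40, nat_lit 80, nat_lit 1, nat_lit 373, nat_lit 150, nat_lit 11]⟩,
 zbF0, [⟨nat_lit 0, nat_lit 100, nat_lit 100, nat_lit 60, nat_lit 763945487⟩, ⟨nat_lit 4, nat_lit 94, nat_lit 100, nat_lit 69, nat_lit 39621158⟩, ⟨nat_lit 23, nat_lit 94, nat_lit 100, nat_lit 50, nat_lit 1190248086⟩]⟩
noncomputable def p046_l42 : Lf2 := ⟨nat_lit 0, nat_lit 6, [nat_lit 47, nat_lit 5, nat_lit 5, nat_lit 20], false, nat_lit 240, nat_lit 304, nat_lit 160, nat_lit 288, ⟨nat_lit 1000, nat_lit 0, nat_lit 0, nat_lit 0, nat_lit 0, nat_lit 0, nat_lit 0, nat_lit 0, nat_lit 0, nat_lit 0, nat_lit 0, nat_lit 0, nat_lit 0, nat_lit 0, nat_lit 0, nat_lit 0, false, false⟩,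
 nat_lit 0, nat_lit 13961, nat_lit 0, nat_lit 0, nat_lit 7756, nat_lit 6724, nat_lit 2681, nat_lit 0, nat_lit 0, nat_lit 0, nat_lit 0, nat_lit 0, nat_lit 0, nat_lit 980695959553, nat_lit 0, nat_lit 0, nat_lit 0, nat_lit 0, [],
 ⟨p046_k7, nat_lit 0, nat_lit 0, nat_lit 219, nat_lit 0, nat_lit 234262, [nat_lit 4688000000, nat_lit 6250000000, nat_lit 9842000000], [], [nat_lit 17782596290, nat_lit 18471007848, nat_lit 17221449992, nat_lit 17906965764, nat_lit 22645340848, nat_lit 23316297472, nat_lit 21947758239, nat_lit 22617136817], nat_lit 1271250, nat_lit 1271250, nat_lit 181601, nat_lit 230001, nat_lit 1271250, nat_lit 1271250, [nat_lit 1100000, nat_lit 1442500, nat_lit 1271250], [nat_lit 11, nat_lit 40, nat_lit 40, nat_lit 80, nat_lit 1, nat_lit 401, nat_lit 175, nat_lit 11]⟩, ⟨p046_k6, nat_lit 0, nat_lit 0, nat_lit 69, nat_lit 0, nat_lit 0, [nat_lit 4688000000, nat_lit 6250000000, nat_lit 9842000000], [], [nat_lit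 10119843658, nat_lit 12132344447, nat_lit 9549578608, nat_lit 11554883176, nat_lit 19261696674, nat_lit 20758420501, nat_lit 18672692749, nat_lit 20100262727], nat_lit 0, nat_lit 0, nat_lit 0, nat_lit 0, nat_lit 0, nat_lit 0, [], [nat_lit 11, nat_lit 40, nat_lit 40, nat_lit 80, nat_lit 1, nat_lit 373, nat_lit 150, nat_lit 11]⟩,
 zbF0, [⟨nat_lit 0, nat_lit 100, nat_lit 100, nat_lit 60, nat_lit 550339673⟩, ⟨nat_lit 4, nat_lit 94, nat_lit 100, nat_lit 69, nat_lit 65543367⟩, ⟨nat_lit 23, nat_lit 96, nat_lit 100, nat_lit 59, nat_lit 971939004⟩]⟩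
noncomputable def p046_l43 : Lf2 := ⟨nat_lit 0, nat_lit 6, [nat_lit 47, nat_lit 5, nat_lit 5, nat_lit 20], false, nat_lit 240, nat_lit 304, nat_lit 160, nat_lit 312, ⟨nat_lit 1000, nat_lit 0, nat_lit 0, nat_lit 0, nat_lit 0, nat_lit 0, nat_lit 0, nat_lit 0, nat_lit 0, nat_lit 0, nat_lit 0, nat_lit 0, nat_lit 0, nat_lit 0, nat_lit 0, nat_lit 0, false, false⟩,
 nat_lit 0, nat_lit 14214, nat_lit 0, nat_lit 0, nat_lit 7896, nat_lit 6494, nat_lit 2736, nat_lit 0, nat_lit 0, nat_lit 0, nat_lit 0, nat_lit 0, nat_lit 0, nat_lit 0, nat_lit 0, nat_lit 0, nat_lit 0, nat_lit 0, [],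
 ⟨p046_k7, nat_lit 0, nat_lit 0, nat_lit 211, nat_lit 0, nat_lit 234262, [nat_lit 4688000000, nat_lit 6250000000, nat_lit 9842000000], [], [nat_lit 16951376472, nat_lit 17643869424, nat_lit 15778436184, nat_lit 16441260688, nat_lit 21867353135, nat_lit 22543307709, nat_lit 20234159362, nat_lit 20885078468], nat_lit 1271250, nat_lit 1271250, nat_lit 230001, nat_lit 490000, nat_lit 1271250, nat_lit 1271250, [nat_lit 1100000, nat_lit 1442500, nat_lit 1271250], [nat_lit 11, nat_lit 40, nat_lit 40, nat_lit 80, nat_lit 1, nat_lit 401, nat_lit 175, nat_lit 11]⟩, ⟨p046_k6, nat_lit 0, nat_lit 0, nat_lit 74, nat_lit 0, nat_lit 0, [nat_lit 4688000000, nat_lit 6250000000, nat_lit 9842000000], [], [nat_lit 9857527448, nat_lit 11819619156, nat_lit 9056324200, nat_lit 10941778292, nat_lit 20889830744, nat_lit 22177748834, nat_lit 19696679528, nat_lit 20939397089], nat_lit 0, nat_lit 0, nat_lit 0, nat_lit 0, nat_lit 0, nat_lit 0,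 [], [nat_lit 11, nat_lit 40, nat_lit 40, nat_lit 80, nat_lit 1, nat_lit 401, nat_lit 175, nat_lit 11]⟩,
 zbF0, [⟨nat_lit 16, nat_lit 100, nat_lit 94, nat_lit 69, nat_lit 58093075⟩, ⟨nat_lit 11, nat_lit 100, nat_lit 95, nat_lit 53, nat_lit 737813565⟩, ⟨nat_lit 11, nat_lit 100, nat_lit 100, nat_lit 77, nat_lit 249083595⟩]⟩
noncomputable def p046_l44 : Lf2 := ⟨nat_lit 0, nat_lit 3, [nat_lit 45, nat_lit 5, nat_lit 5, nat_lit 20], false, nat_lit 240, nat_lit 336, nat_lit 0, nat_lit 160, ⟨nat_lit 1000, nat_lit 0, nat_lit 0, nat_lit 0, nat_lit 0, nat_lit 0, nat_lit 0, nat_lit 0, nat_lit 0, nat_lit 0, nat_lit 0, nat_lit 0, nat_lit 0, nat_lit 0, nat_lit 0, nat_lit 0, false, false⟩,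
 nat_lit 0, nat_lit 14480, nat_lit 0, nat_lit 14346, nat_lit 7665, nat_lit 8157, nat_lit 2194, nat_lit 0, nat_lit 0, nat_lit 3147, nat_lit 0, nat_lit 0, nat_lit 0, nat_lit 15152345259206, nat_lit 0, nat_lit 0, nat_lit 0, nat_lit 0, [],
 ⟨p046_k9, nat_lit 0, nat_lit 0, nat_lit 182, nat_lit 0, nat_lit 120540, [nat_lit 4688000000, nat_lit 6250000000, nat_lit 7968000000], [], [nat_lit 19686529203, nat_lit 20929182950, nat_lit 16846754330, nat_lit 18023457370, nat_lit 27639088085, nat_lit 28815906966, nat_lit 23880071217, nat_lit 25009599849], nat_lit 1271250, nat_lit 1271250, nat_lit 88400, nat_lit 490000, nat_lit 1271250, nat_lit 1271250, [nat_lit 1100000, nat_lit 1442500, nat_lit 1271250], [nat_lit 9, nat_lit 40, nat_lit 40, nat_lit 80, nat_lit 2, nat_lit 226, nat_lit 20, nat_lit 7]⟩, ⟨p046_k9, nat_lit 0, nat_lit 0, nat_lit 176, nat_lit 0, nat_lit 0, [nat_lit 4688000000, nat_lit 6250000000, nat_lit 7968000000], [],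 [nat_lit 19056482331, nat_lit 21292967377, nat_lit 14881117632, nat_lit 16877846258, nat_lit 14638756341, nat_lit 16374950017, nat_lit 11849151756, nat_lit 13486740724], nat_lit 0, nat_lit 0, nat_lit 0, nat_lit 0, nat_lit 0, nat_lit 0, [], [nat_lit 9, nat_lit 40, nat_lit 40, nat_lit 80, nat_lit 2, nat_lit 272, nat_lit 60, nat_lit 9]⟩,
 zbF0, [⟨nat_lit 0, nat_lit 100, nat_lit 100, nat_lit 60, nat_lit 1175797527⟩, ⟨nat_lit 4, nat_lit 85, nat_lit 100, nat_lit 78, nat_lit 844509009⟩]⟩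
noncomputable def p046_l45 : Lf2 := ⟨nat_lit 0, nat_lit 3, [nat_lit 45, nat_lit 5, nat_lit 5, nat_lit 20], false, nat_lit 240, nat_lit 336, nat_lit 160, nat_lit 288, ⟨nat_lit 1000, nat_lit 0, nat_lit 0, nat_lit 0, nat_lit 0, nat_lit 0, nat_lit 0, nat_lit 0, nat_lit 0, nat_lit 0, nat_lit 0, nat_lit 0, nat_lit 0, nat_lit 0, nat_lit 0, nat_lit 0, false, false⟩,
 nat_lit 0, nat_lit 15304, nat_lit 0, nat_lit 0, nat_lit 8101, nat_lit 7607, nat_lit 2522, nat_lit 0, nat_lit 0, nat_lit 0, nat_lit 0, nat_lit 0, nat_lit 0, nat_lit 0, nat_lit 0, nat_lit 0, nat_lit 0, nat_lit 0, [],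
 ⟨p046_k9, nat_lit 0, nat_lit 0, nat_lit 182, nat_lit 0, nat_lit 120540, [nat_lit 4688000000, nat_lit 6250000000, nat_lit 7968000000], [], [nat_lit 18779666477, nat_lit 20237672213, nat_lit 17015023120, nat_lit 18420442194, nat_lit 27949346508, nat_lit 29483302653, nat_lit 25458219909, nat_lit 26662049054], nat_lit 1271250, nat_lit 1271250, nat_lit 88400, nat_lit 230001, nat_lit 1271250, nat_lit 1271250, [nat_lit 1100000, nat_lit 1442500, nat_lit 1271250], [nat_lit 9, nat_lit 40, nat_lit 40, nat_lit 80, nat_lit 2, nat_lit 215, nat_lit 10, nat_lit 7]⟩, ⟨p046_k9, nat_lit 0, nat_lit 0, nat_lit 87, nat_lit 0, nat_lit 0, [nat_lit 4688000000, nat_lit 6250000000, nat_lit 7968000000], [], [nat_lit 10350939563, nat_lit 12561539010, nat_lit 8367322844, nat_lit 10538527218, nat_lit 21378423021, nat_lit 23188382815, nat_lit 18789661570, nat_lit 20594336320], nat_lit 0, nat_lit 0, nat_lit 0, nat_lit 0, nat_lit 0, nat_lit 0, [],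 [nat_lit 9, nat_lit 40, nat_lit 40, nat_lit 80, nat_lit 2, nat_lit 317, nat_lit 100, nat_lit 10]⟩,
 zbF0, [⟨nat_lit 0, nat_lit 100, nat_lit 100, nat_lit 60, nat_lit 750378625⟩, ⟨nat_lit 11, nat_lit 100, nat_lit 90, nat_lit 55, nat_lit 1231332715⟩]⟩
noncomputable def p046_l46 : Lf2 := ⟨nat_lit 0, nat_lit 3, [nat_lit 45, nat_lit 5, nat_lit 5, nat_lit 20], false, nat_lit 240, nat_lit 336, nat_lit 160, nat_lit 336, ⟨nat_lit 1000, nat_lit 0, nat_lit 0, nat_lit 0, nat_lit 0, nat_lit 0, nat_lit 0, nat_lit 0, nat_lit 0, nat_lit 0, nat_lit 0, nat_lit 0, nat_lit 0, nat_lit 0, nat_lit 0, nat_lit 0, false, false⟩,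
 nat_lit 0, nat_lit 15620, nat_lit 0, nat_lit 0, nat_lit 8269, nat_lit 7343, nat_lit 2421, nat_lit 0, nat_lit 0, nat_lit 0, nat_lit 0, nat_lit 0, nat_lit 0, nat_lit 0, nat_lit 0, nat_lit 0, nat_lit 0, nat_lit 0, [],
 ⟨p046_k9, nat_lit 0, nat_lit 0, nat_lit 157, nat_lit 0, nat_lit 120540, [nat_lit 4688000000, nat_lit 6250000000, nat_lit 7968000000], [], [nat_lit 16709787280, nat_lit 18132023613, nat_lit 15476794020, nat_lit 16837429682, nat_lit 25425464748, nat_lit 26854005609, nat_lit 23575262858, nat_lit 24748485333], nat_lit 1271250, nat_lit 1271250, nat_lit 230001, nat_lit 490000, nat_lit 1271250, nat_lit 1271250, [nat_lit 1100000, nat_lit 1442500, nat_lit 1271250], [nat_lit 9, nat_lit 40, nat_lit 40, nat_lit 80, nat_lit 2, nat_lit 226, nat_lit 20, nat_lit 7]⟩, ⟨p046_k9, nat_lit 0, nat_lit 0, nat_lit 91, nat_lit 0, nat_lit 0, [nat_lit 4688000000, nat_lit 6250000000, nat_lit 7968000000], [], [nat_lit 8720794556,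 nat_lit 10842398082, nat_lit 7703272900, nat_lit 9740543474, nat_lit 24336475029, nat_lit 25789017454, nat_lit 22320357900, nat_lit 23733034510], nat_lit 0, nat_lit 0, nat_lit 0, nat_lit 0, nat_lit 0, nat_lit 0, [], [nat_lit 9, nat_lit 40, nat_lit 40, nat_lit 80, nat_lit 2, nat_lit 345, nat_lit 125, nat_lit 11]⟩,
 zbF0, [⟨nat_lit 11, nat_lit 100, nat_lit 93, nat_lit 66, nat_lit 1064002925⟩]⟩
noncomputable def p046_l47 : Lf2 := ⟨nat_lit 1, nat_lit 6, [nat_lit 47, nat_lit 5, nat_lit 5, nat_lit 20], false, nat_lit 240, nat_lit 336, nat_lit 0, nat_lit 336, zbN0,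
 nat_lit 0, nat_lit 0, nat_lit 0, nat_lit 0, nat_lit 0, nat_lit 0, nat_lit 0, nat_lit 0, nat_lit 0, nat_lit 0, nat_lit 0, nat_lit 0, nat_lit 0, nat_lit 0, nat_lit 0, nat_lit 0, nat_lit 0, nat_lit 0, [],
 C1.Rw.none, C1.Rw.none,
 zbF0, []⟩
noncomputable def p046_l48 : Lf2 := ⟨nat_lit 0, nat_lit 6, [nat_lit 47, nat_lit 5, nat_lit 5, nat_lit 20], false, nat_lit 240, nat_lit 336, nat_lit 0, nat_lit 160, ⟨nat_lit 1000, nat_lit 0, nat_lit 0, nat_lit 0, nat_lit 0, nat_lit 0, nat_lit 0, nat_lit 0, nat_lit 0, nat_lit 0, nat_lit 0, nat_lit 0, nat_lit 0, nat_lit 0, nat_lit 0, nat_lit 0, false, false⟩,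
 nat_lit 0, nat_lit 16802, nat_lit 0, nat_lit 1169, nat_lit 8895, nat_lit 10092, nat_lit 2300, nat_lit 0, nat_lit 0, nat_lit 3749, nat_lit 0, nat_lit 0, nat_lit 0, nat_lit 4570715520366, nat_lit 0, nat_lit 0, nat_lit 0, nat_lit 0, [],
 ⟨p046_k6, nat_lit 0, nat_lit 0, nat_lit 328, nat_lit 0, nat_lit 489527, [nat_lit 4688000000, nat_lit 6250000000, nat_lit 9842000000], [], [nat_lit 17425481060, nat_lit 18448570350, nat_lit 16924641620, nat_lit 17909088180, nat_lit 24015623160, nat_lit 24933227057, nat_lit 23165288372, nat_lit 24027893709], nat_lit 1271250, nat_lit 1271250, nat_lit 490000, nat_lit 780000, nat_lit 1271250, nat_lit 1271250, [nat_lit 1100000, nat_lit 1442500, nat_lit 1271250], [nat_lit 11, nat_lit 40, nat_lit 40, nat_lit 80, nat_lit 1, nat_lit 428, nat_lit 200, nat_lit 12]⟩, ⟨p046_k6, nat_lit 0, nat_lit 0, nat_lit 160, nat_lit 0, nat_lit 0, [nat_lit 4688000000, nat_lit 6250000000, nat_lit 9842000000], [],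 [nat_lit 13743267458, nat_lit 15908017664, nat_lit 12816625874, nat_lit 15302915392, nat_lit 7477034736, nat_lit 9654210648, nat_lit 7243595968, nat_lit 9271715128], nat_lit 0, nat_lit 0, nat_lit 0, nat_lit 0, nat_lit 0, nat_lit 0, [], [nat_lit 11, nat_lit 40, nat_lit 40, nat_lit 80, nat_lit 1, nat_lit 373, nat_lit 150, nat_lit 11]⟩,
 zbF0, [⟨nat_lit 4, nat_lit 88, nat_lit 100, nat_lit 74, nat_lit 791447602⟩]⟩
noncomputable def p046_l49 : Lf2 := ⟨nat_lit 0, nat_lit 6, [nat_lit 47, nat_lit 5, nat_lit 5, nat_lit 20], false, nat_lit 240, nat_lit 336, nat_lit 160, nat_lit 336, ⟨nat_lit 1000, nat_lit 0, nat_lit 0, nat_lit 0, nat_lit 0, nat_lit 0, nat_lit 0, nat_lit 0, nat_lit 0, nat_lit 0, nat_lit 0, nat_lit 0, nat_lit 0, nat_lit 0, nat_lit 0, nat_lit 0, false, false⟩,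
 nat_lit 0, nat_lit 16089, nat_lit 0, nat_lit 0, nat_lit 8517, nat_lit 6496, nat_lit 2662, nat_lit 0, nat_lit 0, nat_lit 0, nat_lit 0, nat_lit 0, nat_lit 0, nat_lit 0, nat_lit 0, nat_lit 0, nat_lit 0, nat_lit 0, [],
 ⟨p046_k6, nat_lit 0, nat_lit 0, nat_lit 208, nat_lit 0, nat_lit 265448, [nat_lit 4688000000, nat_lit 6250000000, nat_lit 9842000000], [], [nat_lit 15018693068, nat_lit 16350451426, nat_lit 14812466158, nat_lit 16155901077, nat_lit 23450109757, nat_lit 24641272751, nat_lit 23035640647, nat_lit 24194516092], nat_lit 1271250, nat_lit 1271250, nat_lit 490000, nat_lit 631250, nat_lit 1271250, nat_lit 1271250, [nat_lit 1100000, nat_lit 1442500, nat_lit 1271250], [nat_lit 11, nat_lit 40, nat_lit 40, nat_lit 80, nat_lit 1, nat_lit 401, nat_lit 175, nat_lit 11]⟩, ⟨p046_k6, nat_lit 0, nat_lit 0, nat_lit 65, nat_lit 0, nat_lit 0, [nat_lit 4688000000, nat_lit 6250000000, nat_lit 9842000000], [], [nat_lit 9053136800,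 nat_lit 10938948528, nat_lit 9194764256, nat_lit 11029836304, nat_lit 21944151329, nat_lit 23078725700, nat_lit 21749349079, nat_lit 22855674548], nat_lit 0, nat_lit 0, nat_lit 0, nat_lit 0, nat_lit 0, nat_lit 0, [], [nat_lit 11, nat_lit 40, nat_lit 40, nat_lit 80, nat_lit 1, nat_lit 401, nat_lit 175, nat_lit 11]⟩,
 zbF0, [⟨nat_lit 16, nat_lit 100, nat_lit 88, nat_lit 74, nat_lit 435426960⟩, ⟨nat_lit 19, nat_lit 100, nat_lit 88, nat_lit 74, nat_lit 291504197⟩, ⟨nat_lit 11, nat_lit 100, nat_lit 100, nat_lit 95, nat_lit 376390206⟩]⟩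
noncomputable def p046_l50 : Lf2 := ⟨nat_lit 0, nat_lit 6, [nat_lit 47, nat_lit 5, nat_lit 5, nat_lit 20], false, nat_lit 240, nat_lit 336, nat_lit 160, nat_lit 336, ⟨nat_lit 1000, nat_lit 0, nat_lit 0, nat_lit 0, nat_lit 0, nat_lit 0, nat_lit 0, nat_lit 0, nat_lit 0, nat_lit 0, nat_lit 0, nat_lit 0, nat_lit 0, nat_lit 0, nat_lit 0, nat_lit 0, false, false⟩,
 nat_lit 0, nat_lit 16918, nat_lit 0, nat_lit 0, nat_lit 8956, nat_lit 8898, nat_lit 2283, nat_lit 0, nat_lit 0, nat_lit 0, nat_lit 0, nat_lit 0, nat_lit 0, nat_lit 0, nat_lit 0, nat_lit 0, nat_lit 0, nat_lit 0, [],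
 ⟨p046_k6, nat_lit 0, nat_lit 0, nat_lit 319, nat_lit 0, nat_lit 489527, [nat_lit 4688000000, nat_lit 6250000000, nat_lit 9842000000], [], [nat_lit 17009140382, nat_lit 18004296492, nat_lit 16742358736, nat_lit 17730082704, nat_lit 23490166325, nat_lit 24382887890, nat_lit 23059488362, nat_lit 23924560343], nat_lit 1271250, nat_lit 1271250, nat_lit 631250, nat_lit 780000, nat_lit 1271250, nat_lit 1271250, [nat_lit 1100000, nat_lit 1442500, nat_lit 1271250], [nat_lit 11, nat_lit 40, nat_lit 40, nat_lit 80, nat_lit 1, nat_lit 428, nat_lit 200, nat_lit 12]⟩, ⟨p046_k6, nat_lit 0, nat_lit 0, nat_lit 56, nat_lit 0, nat_lit 0, [nat_lit 4688000000, nat_lit 6250000000, nat_lit 9842000000], [], [nat_lit 5237315528, nat_lit 7487004002, nat_lit 5249561656, nat_lit 7433606040, nat_lit 22806869230, nat_lit 24343476867, nat_lit 22254120569, nat_lit 23752390628], nat_lit 0, nat_lit 0, nat_lit 0, nat_lit 0, nat_lit 0, nat_lit 0, [],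 [nat_lit 11, nat_lit 40, nat_lit 40, nat_lit 80, nat_lit 1, nat_lit 428, nat_lit 200, nat_lit 12]⟩,
 zbF0, [⟨nat_lit 4, nat_lit 88, nat_lit 100, nat_lit 74, nat_lit 783991162⟩, ⟨nat_lit 7, nat_lit 88, nat_lit 100, nat_lit 74, nat_lit 955845700⟩]⟩
noncomputable def p046_l51 : Lf2 := ⟨nat_lit 0, nat_lit 6, [nat_lit 47, nat_lit 5, nat_lit 5, nat_lit 20], false, nat_lit 240, nat_lit 336, nat_lit 0, nat_lit 336, ⟨nat_lit 1000, nat_lit 0, nat_lit 0, nat_lit 0, nat_lit 0, nat_lit 0, nat_lit 0, nat_lit 0, nat_lit 0, nat_lit 0, nat_lit 0, nat_lit 0, nat_lit 0, nat_lit 0, nat_lit 0, nat_lit 0, false, false⟩,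
 nat_lit 0, nat_lit 16414, nat_lit 0, nat_lit 5859, nat_lit 8689, nat_lit 8836, nat_lit 2622, nat_lit 0, nat_lit 0, nat_lit 2203, nat_lit 0, nat_lit 0, nat_lit 0, nat_lit 0, nat_lit 0, nat_lit 0, nat_lit 0, nat_lit 0, [],
 ⟨p046_k6, nat_lit 0, nat_lit 0, nat_lit 230, nat_lit 0, nat_lit 376791, [nat_lit 4688000000, nat_lit 6250000000, nat_lit 9842000000], [], [nat_lit 14325937860, nat_lit 15598943976, nat_lit 19134662316, nat_lit 18925108846, nat_lit 22501220113, nat_lit 23639213605, nat_lit 24769943379, nat_lit 25894949675], nat_lit 1271250, nat_lit 1271250, nat_lit 780000, nat_lit 1762500, nat_lit 1271250, nat_lit 1271250, [nat_lit 1100000, nat_lit 1442500, nat_lit 1271250], [nat_lit 11, nat_lit 40, nat_lit 40, nat_lit 80, nat_lit 1, nat_lit 456, nat_lit 225, nat_lit 12]⟩, ⟨p046_k6, nat_lit 0, nat_lit 0, nat_lit 142, nat_lit 0, nat_lit 0, [nat_lit 4688000000, nat_lit 6250000000, nat_lit 9842000000], [], [nat_lit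 17908560942, nat_lit 18848698394, nat_lit 22072749678, nat_lit 22788083186, nat_lit 22525675704, nat_lit 22973001079, nat_lit 24827403562, nat_lit 25394571314], nat_lit 0, nat_lit 0, nat_lit 0, nat_lit 0, nat_lit 0, nat_lit 0, [], [nat_lit 11, nat_lit 40, nat_lit 40, nat_lit 80, nat_lit 1, nat_lit 456, nat_lit 225, nat_lit 13]⟩,
 zbF0, [⟨nat_lit 4, nat_lit 88, nat_lit 100, nat_lit 74, nat_lit 900953672⟩, ⟨nat_lit 7, nat_lit 86, nat_lit 100, nat_lit 73, nat_lit 343524925⟩]⟩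
noncomputable def p046_l52 : Lf2 := ⟨nat_lit 0, nat_lit 6, [nat_lit 47, nat_lit 5, nat_lit 5, nat_lit 20], false, nat_lit 240, nat_lit 328, nat_lit 0, nat_lit 328, ⟨nat_lit 1000, nat_lit 0, nat_lit 0, nat_lit 0, nat_lit 0, nat_lit 0, nat_lit 0, nat_lit 0, nat_lit 0, nat_lit 0, nat_lit 0, nat_lit 0, nat_lit 0, nat_lit 0, nat_lit 0, nat_lit 0, false, false⟩,
 nat_lit 0, nat_lit 15189, nat_lit 0, nat_lit 1230, nat_lit 8438, nat_lit 8110, nat_lit 2094, nat_lit 0, nat_lit 0, nat_lit 2185, nat_lit 0, nat_lit 0, nat_lit 0, nat_lit 7652188657607, nat_lit 0, nat_lit 0, nat_lit 0, nat_lit 0, [],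
 ⟨p046_k7, nat_lit 0, nat_lit 0, nat_lit 296, nat_lit 0, nat_lit 456658, [nat_lit 4688000000, nat_lit 6250000000, nat_lit 9842000000], [], [nat_lit 17052944432, nat_lit 17522611992, nat_lit 18882740476, nat_lit 19331899744, nat_lit 22027531856, nat_lit 22482995286, nat_lit 24395480176, nat_lit 24970534521], nat_lit 1271250, nat_lit 1271250, nat_lit 780000, nat_lit 1762500, nat_lit 1271250, nat_lit 1271250, [nat_lit 1100000, nat_lit 1442500, nat_lit 1271250], [nat_lit 11, nat_lit 40, nat_lit 40, nat_lit 80, nat_lit 1, nat_lit 456, nat_lit 225, nat_lit 12]⟩, ⟨p046_k7, nat_lit 0, nat_lit 0, nat_lit 146, nat_lit 0, nat_lit 0, [nat_lit 4688000000, nat_lit 6250000000, nat_lit 9842000000], [], [nat_lit 18085823690, nat_lit 18976696960, nat_lit 21971359610, nat_lit 22653113440, nat_lit 21886221421, nat_lit 22333821952, nat_lit 24278683214, nat_lit 24842642138], nat_lit 0, nat_lit 0, nat_lit 0, nat_lit 0, nat_lit 0, nat_lit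 0, [], [nat_lit 11, nat_lit 40, nat_lit 40, nat_lit 80, nat_lit 1, nat_lit 456, nat_lit 225, nat_lit 13]⟩,
 zbF0, [⟨nat_lit 4, nat_lit 90, nat_lit 100, nat_lit 74, nat_lit 713275693⟩, ⟨nat_lit 19, nat_lit 100, nat_lit 90, nat_lit 74, nat_lit 322456615⟩]⟩
noncomputable def b_V_600_600_10_32 : St := ⟨true, nat_lit 1, nat_lit 0, nat_lit 1, nat_lit 80, nat_lit 240, nat_lit 260, nat_lit 240, nat_lit 260, nat_lit 16, nat_lit 240, nat_lit 40, nat_lit 80, nat_lit 240, nat_lit 336, nat_lit 0, nat_lit 336, nat_lit 0, nat_lit 24, nat_lit 0, nat_lit 0, nat_lit 0, nat_lit 0⟩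
theorem d_V_600_600_10_32 (h : EB TB.env) : Dead b_V_600_600_10_32 := chkB_sound0 h (T :=
(.spl (nat_lit 2) (nat_lit 120)
(.spl (nat_lit 2) (nat_lit 80)
(.spl (nat_lit 3) (nat_lit 60)
(.trX (nat_lit 16) (nat_lit 100) (nat_lit 85) (nat_lit 73) (nat_lit 312) (.trX (nat_lit 19) (nat_lit 100) (nat_lit 85) (nat_lit 73) (nat_lit 312) (.spl (nat_lit 0) (nat_lit 250)
(.ord (.spl (nat_lit 6) (nat_lit 12)
(.spl (nat_lit 5) (nat_lit 160)
(.leaf p046_l36)
(.spl (nat_lit 2) (nat_lit 40)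
(.trX (nat_lit 23) (nat_lit 100) (nat_lit 92) (nat_lit 61) (nat_lit 288) (.leaf p046_l37))
(.leaf p046_l38)))
(.leaf p046_l39)))
(.trZ (nat_lit 0) (nat_lit 100) (nat_lit 99) (nat_lit 45) (nat_lit 20) (.trX (nat_lit 16) (nat_lit 100) (nat_lit 88) (nat_lit 74) (nat_lit 304) (.spl (nat_lit 5) (nat_lit 160)
(.leaf p046_l40)
(.spl (nat_lit 2) (nat_lit 40)
(.trX (nat_lit 23) (nat_lit 100) (nat_lit 92) (nat_lit 61) (nat_lit 288) (.spl (nat_lit 2) (nat_lit 32)
(.trX (nat_lit 23) (nat_lit 100) (nat_lit 95) (nat_lit 55) (nat_lit 276) (.leaf p046_l41))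
(.leaf p046_l42)))
(.leaf p046_l43))))))))
(.spl (nat_lit 6) (nat_lit 12)
(.spl (nat_lit 5) (nat_lit 160)
(.leaf p046_l44)
(.spl (nat_lit 2) (nat_lit 40)
(.trX (nat_lit 23) (nat_lit 100) (nat_lit 92) (nat_lit 61) (nat_lit 288) (.leaf p046_l45))
(.leaf p046_l46)))
(.leaf p046_l47)))
(.spl (nat_lit 5) (nat_lit 160)
(.leaf p046_l48)
(.spl (nat_lit 2) (nat_lit 100)
(.leaf p046_l49)
(.leaf p046_l50))))
(.spl (nat_lit 1) (nat_lit 250)
(.leaf p046_l51)
(.ord (.trX (nat_lit 16) (nat_lit 100) (nat_lit 81) (nat_lit 83) (nat_lit 328) (.trX (nat_lit 19) (nat_lit 100) (nat_lit 81) (nat_lit 83) (nat_lit 328) (.leaf p046_l52))))))) (by decide +kernel)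
noncomputable def p046_l53 : Lf2 := ⟨nat_lit 0, nat_lit 5, [nat_lit 4, nat_lit 5, nat_lit 5, nat_lit 20], true, nat_lit 160, nat_lit 200, nat_lit 0, nat_lit 312, ⟨nat_lit 0, nat_lit 0, nat_lit 1000, nat_lit 6, nat_lit 106, nat_lit 1000, nat_lit 120, nat_lit 1000, nat_lit 135000, nat_lit 305, nat_lit 106667, nat_lit 295, nat_lit 55978149, nat_lit 0, nat_lit 0, nat_lit 2978402, false, false⟩,
 nat_lit 0, nat_lit 7566, nat_lit 0, nat_lit 0, nat_lit 4404, nat_lit 0, nat_lit 0, nat_lit 0, nat_lit 0, nat_lit 0, nat_lit 0, nat_lit 0, nat_lit 0, nat_lit 0, nat_lit 117, nat_lit 1000000, nat_lit 0, nat_lit 0, [(nat_lit 9, [(nat_lit 6, nat_lit 1000)])],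
 ⟨p046_k0, nat_lit 0, nat_lit 0, nat_lit 188, nat_lit 0, nat_lit 268991, [nat_lit 2969600000, nat_lit 1600000000, nat_lit 226400000], [], [nat_lit 12061972874, nat_lit 12726707509, nat_lit 11344167024, nat_lit 11977203512, nat_lit 13713561267, nat_lit 14327467209, nat_lit 12932166540, nat_lit 13517367454], nat_lit 1271250, nat_lit 1271250, nat_lit 134400, nat_lit 490000, nat_lit 1100001, nat_lit 1442500, [nat_lit 1100000, nat_lit 1442500, nat_lit 1271250], [nat_lit 9, nat_lit 40, nat_lit 40, nat_lit 80, nat_lit 2, nat_lit 289, nat_lit 75, nat_lit 9]⟩, C1.Rw.none,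
 ⟨nat_lit 5700, nat_lit 5917, ⟨.ofNat (nat_lit 197129), .ofNat (nat_lit 307076), .ofNat (nat_lit 218469), .ofNat (nat_lit 328416), .ofNat (nat_lit 205119), .ofNat (nat_lit 312525), .ofNat (nat_lit 226461), .ofNat (nat_lit 333867)⟩, ⟨.ofNat (nat_lit 250751), .ofNat (nat_lit 329284), .ofNat (nat_lit 272090), .ofNat (nat_lit 350624), .ofNat (nat_lit 252544), .ofNat (nat_lit 329263), .ofNat (nat_lit 273886), .ofNat (nat_lit 350605)⟩⟩, [⟨nat_lit 0, nat_lit 100, nat_lit 98, nat_lit 64, nat_lit 184296899⟩]⟩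
noncomputable def p046_l54 : Lf2 := ⟨nat_lit 0, nat_lit 5, [nat_lit 4, nat_lit 5, nat_lit 5, nat_lit 20], false, nat_lit 160, nat_lit 200, nat_lit 0, nat_lit 296, ⟨nat_lit 1000, nat_lit 0, nat_lit 0, nat_lit 0, nat_lit 0, nat_lit 0, nat_lit 0, nat_lit 0, nat_lit 0, nat_lit 0, nat_lit 0, nat_lit 0, nat_lit 0, nat_lit 0, nat_lit 0, nat_lit 0, false, false⟩,
 nat_lit 0, nat_lit 21101, nat_lit 0, nat_lit 0, nat_lit 12282, nat_lit 7478, nat_lit 2311, nat_lit 0, nat_lit 0, nat_lit 2175, nat_lit 0, nat_lit 0, nat_lit 0, nat_lit 4927562893680, nat_lit 0, nat_lit 0, nat_lit 0, nat_lit 0, [],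
 ⟨p046_k0, nat_lit 0, nat_lit 0, nat_lit 188, nat_lit 0, nat_lit 317104, [nat_lit 4688000000, nat_lit 6250000000, nat_lit 7968000000], [], [nat_lit 16928086001, nat_lit 13772655971, nat_lit 6500145272, nat_lit 7807696638, nat_lit 13627193692, nat_lit 15288230997, nat_lit 9589725080, nat_lit 11191114156], nat_lit 1271250, nat_lit 1271250, nat_lit 205650, nat_lit 490000, nat_lit 1100001, nat_lit 1442500, [nat_lit 1100000, nat_lit 1442500, nat_lit 1271250], [nat_lit 9, nat_lit 40, nat_lit 40, nat_lit 80, nat_lit 2, nat_lit 289, nat_lit 75, nat_lit 9]⟩, ⟨p046_k0, nat_lit 0, nat_lit 0, nat_lit 157, nat_lit 0, nat_lit 0, [nat_lit 4688000000, nat_lit 6250000000, nat_lit 7968000000], [], [nat_lit 18591996029, nat_lit 19644370584, nat_lit 16913299688, nat_lit 17763430664, nat_lit 21780844678, nat_lit 22647561185, nat_lit 20243899906, nat_lit 20784195771], nat_lit 0, nat_lit 0, nat_lit 0, nat_lit 0, nat_lit 0, nat_lit 0, [],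 [nat_lit 9, nat_lit 40, nat_lit 40, nat_lit 80, nat_lit 2, nat_lit 317, nat_lit 100, nat_lit 11]⟩,
 zbF0, [⟨nat_lit 0, nat_lit 100, nat_lit 100, nat_lit 60, nat_lit 1320855080⟩, ⟨nat_lit 7, nat_lit 98, nat_lit 100, nat_lit 70, nat_lit 329104496⟩]⟩
noncomputable def p046_l55 : Lf2 := ⟨nat_lit 0, nat_lit 5, [nat_lit 4, nat_lit 5, nat_lit 5, nat_lit 20], false, nat_lit 160, nat_lit 200, nat_lit 0, nat_lit 312, ⟨nat_lit 602, nat_lit 0, nat_lit 398, nat_lit 6, nat_lit 113, nat_lit 398, nat_lit 121, nat_lit 398, nat_lit 138017, nat_lit 306, nat_lit 120417, nat_lit 300, nat_lit 55439460, nat_lit 0, nat_lit 0, nat_lit 3081856, false, false⟩,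
 nat_lit 0, nat_lit 14143, nat_lit 0, nat_lit 0, nat_lit 8613, nat_lit 5049, nat_lit 946, nat_lit 0, nat_lit 0, nat_lit 1488, nat_lit 0, nat_lit 0, nat_lit 0, nat_lit 0, nat_lit 0, nat_lit 398000, nat_lit 0, nat_lit 0, [(nat_lit 9, [(nat_lit 6, nat_lit 398)])],
 ⟨p046_k2, nat_lit 0, nat_lit 0, nat_lit 212, nat_lit 0, nat_lit 347671, [nat_lit 3259020801, nat_lit 3467980000, nat_lit 3745781200], [], [nat_lit 16626242511, nat_lit 15516513445, nat_lit 10224357494, nat_lit 10688632692, nat_lit 15515259200, nat_lit 16157732855, nat_lit 12077560252, nat_lit 12525769271], nat_lit 1271250, nat_lit 1271250, nat_lit 157850, nat_lit 490000, nat_lit 1100001, nat_lit 1442500, [nat_lit 1100000, nat_lit 1442500, nat_lit 1271250], [nat_lit 9, nat_lit 40, nat_lit 40, nat_lit 80, nat_lit 2, nat_lit 289, nat_lit 75, nat_lit 9]⟩, ⟨p046_k1, nat_lit 0, nat_lit 0, nat_lit 214, nat_lit 0, nat_lit 0, [nat_lit 2822176000, nat_lit 3762500000,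 nat_lit 5924884000], [], [nat_lit 12810888346, nat_lit 14901387932, nat_lit 10666994132, nat_lit 12686642018, nat_lit 14439999286, nat_lit 16023591137, nat_lit 12676239402, nat_lit 14051144947], nat_lit 0, nat_lit 0, nat_lit 0, nat_lit 0, nat_lit 0, nat_lit 0, [], [nat_lit 11, nat_lit 40, nat_lit 40, nat_lit 80, nat_lit 1, nat_lit 401, nat_lit 175, nat_lit 12]⟩,
 ⟨nat_lit 5590, nat_lit 5701, ⟨.ofNat (nat_lit 212791), .ofNat (nat_lit 312525), .ofNat (nat_lit 250139), .ofNat (nat_lit 349874), .ofNat (nat_lit 216657), .ofNat (nat_lit 315226), .ofNat (nat_lit 254015), .ofNat (nat_lit 352585)⟩, ⟨.ofNat (nat_lit 252544), .ofNat (nat_lit 329263), .ofNat (nat_lit 273886), .ofNat (nat_lit 350605), .ofNat (nat_lit 253393), .ofNat (nat_lit 329215), .ofNat (nat_lit 274740), .ofNat (nat_lit 350563)⟩⟩, [⟨nat_lit 0, nat_lit 100, nat_lit 97, nat_lit 64, nat_lit 1016484220⟩, ⟨nat_lit 7, nat_lit 95, nat_lit 100, nat_lit 69, nat_lit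 186230300⟩]⟩
noncomputable def p046_l56 : Lf2 := ⟨nat_lit 0, nat_lit 5, [nat_lit 4, nat_lit 5, nat_lit 5, nat_lit 20], false, nat_lit 160, nat_lit 200, nat_lit 0, nat_lit 312, ⟨nat_lit 505, nat_lit 0, nat_lit 495, nat_lit 6, nat_lit 117, nat_lit 495, nat_lit 121, nat_lit 495, nat_lit 138017, nat_lit 306, nat_lit 129067, nat_lit 303, nat_lit 55122490, nat_lit 0, nat_lit 0, nat_lit 3140641, false, false⟩,
 nat_lit 0, nat_lit 11198, nat_lit 0, nat_lit 0, nat_lit 6972, nat_lit 4312, nat_lit 973, nat_lit 0, nat_lit 0, nat_lit 1142, nat_lit 0, nat_lit 0, nat_lit 0, nat_lit 0, nat_lit 0, nat_lit 198000, nat_lit 0, nat_lit 0, [(nat_lit 9, [(nat_lit 5, nat_lit 495)])],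
 ⟨p046_k10, nat_lit 0, nat_lit 0, nat_lit 252, nat_lit 0, nat_lit 384736, [nat_lit 3123008000, nat_lit 3054082000, nat_lit 3408165000], [], [nat_lit 15923618811, nat_lit 15026667525, nat_lit 12276487656, nat_lit 12553151186, nat_lit 15273862053, nat_lit 15685895349, nat_lit 13418715945, nat_lit 13791394874], nat_lit 1271250, nat_lit 1271250, nat_lit 181601, nat_lit 490000, nat_lit 1100001, nat_lit 1442500, [nat_lit 1100000, nat_lit 1442500, nat_lit 1271250], [nat_lit 9, nat_lit 40, nat_lit 40, nat_lit 80, nat_lit 2, nat_lit 289, nat_lit 75, nat_lit 9]⟩, ⟨p046_k1, nat_lit 0, nat_lit 0, nat_lit 212, nat_lit 0, nat_lit 0, [nat_lit 2367440000, nat_lit 3156250000, nat_lit 4970210000], [], [nat_lit 10885260702, nat_lit 12911465396, nat_lit 9292160128, nat_lit 11250642700, nat_lit 12252943718, nat_lit 13504278182, nat_lit 10855753584, nat_lit 11911154011], nat_lit 0, nat_lit 0, nat_lit 0, nat_lit 0, nat_lit 0, nat_lit 0,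 [], [nat_lit 11, nat_lit 40, nat_lit 40, nat_lit 80, nat_lit 1, nat_lit 401, nat_lit 175, nat_lit 12]⟩,
 ⟨nat_lit 5477, nat_lit 5591, ⟨.ofNat (nat_lit 224239), .ofNat (nat_lit 315226), .ofNat (nat_lit 266935), .ofNat (nat_lit 357922), .ofNat (nat_lit 227994), .ofNat (nat_lit 317913), .ofNat (nat_lit 270708), .ofNat (nat_lit 360628)⟩, ⟨.ofNat (nat_lit 253393), .ofNat (nat_lit 329215), .ofNat (nat_lit 274740), .ofNat (nat_lit 350563), .ofNat (nat_lit 254209), .ofNat (nat_lit 329142), .ofNat (nat_lit 275566), .ofNat (nat_lit 350499)⟩⟩, [⟨nat_lit 0, nat_lit 100, nat_lit 97, nat_lit 68, nat_lit 768256675⟩, ⟨nat_lit 7, nat_lit 96, nat_lit 100, nat_lit 69, nat_lit 148144356⟩]⟩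
noncomputable def p046_l57 : Lf2 := ⟨nat_lit 0, nat_lit 5, [nat_lit 4, nat_lit 5, nat_lit 5, nat_lit 20], true, nat_lit 160, nat_lit 200, nat_lit 0, nat_lit 336, ⟨nat_lit 0, nat_lit 0, nat_lit 1000, nat_lit 6, nat_lit 109, nat_lit 1000, nat_lit 129, nat_lit 1000, nat_lit 156817, nat_lit 312, nat_lit 109350, nat_lit 296, nat_lit 55112870, nat_lit 0, nat_lit 0, nat_lit 3132709, false, false⟩,
 nat_lit 0, nat_lit 7566, nat_lit 0, nat_lit 0, nat_lit 4404, nat_lit 0, nat_lit 0, nat_lit 0, nat_lit 0, nat_lit 0, nat_lit 0, nat_lit 0, nat_lit 0, nat_lit 0, nat_lit 117, nat_lit 1000000, nat_lit 0, nat_lit 0, [(nat_lit 9, [(nat_lit 6, nat_lit 1000)])],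
 ⟨p046_k0, nat_lit 0, nat_lit 0, nat_lit 184, nat_lit 0, nat_lit 213443, [nat_lit 2969600000, nat_lit 1600000000, nat_lit 226400000], [], [nat_lit 12061972874, nat_lit 12726707509, nat_lit 11344167024, nat_lit 11977203512, nat_lit 13713561267, nat_lit 14327467209, nat_lit 12932166540, nat_lit 13517367454], nat_lit 1271250, nat_lit 1271250, nat_lit 134400, nat_lit 490000, nat_lit 1100001, nat_lit 1442500, [nat_lit 1100000, nat_lit 1442500, nat_lit 1271250], [nat_lit 9, nat_lit 40, nat_lit 40, nat_lit 80, nat_lit 2, nat_lit 289, nat_lit 75, nat_lit 9]⟩, C1.Rw.none,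
 ⟨nat_lit 5700, nat_lit 5917, ⟨.ofNat (nat_lit 197129), .ofNat (nat_lit 307076), .ofNat (nat_lit 229138), .ofNat (nat_lit 339085), .ofNat (nat_lit 205119), .ofNat (nat_lit 312525), .ofNat (nat_lit 237132), .ofNat (nat_lit 344538)⟩, ⟨.ofNat (nat_lit 272090), .ofNat (nat_lit 350624), .ofNat (nat_lit 293429), .ofNat (nat_lit 371963), .ofNat (nat_lit 273886), .ofNat (nat_lit 350605), .ofNat (nat_lit 295228), .ofNat (nat_lit 371947)⟩⟩, [⟨nat_lit 0, nat_lit 100, nat_lit 100, nat_lit 70, nat_lit 182116563⟩]⟩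
noncomputable def p046_l58 : Lf2 := ⟨nat_lit 0, nat_lit 5, [nat_lit 4, nat_lit 5, nat_lit 5, nat_lit 20], true, nat_lit 160, nat_lit 200, nat_lit 0, nat_lit 336, ⟨nat_lit 0, nat_lit 0, nat_lit 1000, nat_lit 6, nat_lit 115, nat_lit 1000, nat_lit 129, nat_lit 1000, nat_lit 156817, nat_lit 312, nat_lit 123267, nat_lit 301, nat_lit 54602170, nat_lit 0, nat_lit 0, nat_lit 3229143, false, false⟩,
 nat_lit 0, nat_lit 7714, nat_lit 0, nat_lit 0, nat_lit 4697, nat_lit 0, nat_lit 0, nat_lit 0, nat_lit 0, nat_lit 0, nat_lit 0, nat_lit 0, nat_lit 0, nat_lit 0, nat_lit 117, nat_lit 1000000, nat_lit 0, nat_lit 0, [(nat_lit 9, [(nat_lit 6, nat_lit 1000)])],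
 ⟨p046_k2, nat_lit 0, nat_lit 0, nat_lit 196, nat_lit 0, nat_lit 300840, [nat_lit 2969600000, nat_lit 1600000000, nat_lit 226400000], [], [nat_lit 12073607847, nat_lit 13025243432, nat_lit 11350279616, nat_lit 12003730000, nat_lit 14197865696, nat_lit 15078507348, nat_lit 12919321785, nat_lit 13522543224], nat_lit 1271250, nat_lit 1271250, nat_lit 157850, nat_lit 490000, nat_lit 1100001, nat_lit 1442500, [nat_lit 1100000, nat_lit 1442500, nat_lit 1271250], [nat_lit 9, nat_lit 40, nat_lit 40, nat_lit 80, nat_lit 2, nat_lit 289, nat_lit 75, nat_lit 9]⟩, C1.Rw.none,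
 ⟨nat_lit 5477, nat_lit 5701, ⟨.ofNat (nat_lit 212791), .ofNat (nat_lit 312525), .ofNat (nat_lit 255475), .ofNat (nat_lit 355209), .ofNat (nat_lit 220501), .ofNat (nat_lit 317913), .ofNat (nat_lit 263215), .ofNat (nat_lit 360628)⟩, ⟨.ofNat (nat_lit 273886), .ofNat (nat_lit 350605), .ofNat (nat_lit 295228), .ofNat (nat_lit 371947), .ofNat (nat_lit 275566), .ofNat (nat_lit 350499), .ofNat (nat_lit 296923), .ofNat (nat_lit 371856)⟩⟩, [⟨nat_lit 0, nat_lit 100, nat_lit 100, nat_lit 80, nat_lit 257408326⟩]⟩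
noncomputable def p046_l59 : Lf2 := ⟨nat_lit 0, nat_lit 10, [nat_lit 0, nat_lit 5, nat_lit 5, nat_lit 20], true, nat_lit 160, nat_lit 200, nat_lit 0, nat_lit 336, ⟨nat_lit 0, nat_lit 0, nat_lit 1000, nat_lit 6, nat_lit 108, nat_lit 1000, nat_lit 125, nat_lit 1000, nat_lit 147267, nat_lit 309, nat_lit 109350, nat_lit 296, nat_lit 55514648, nat_lit 0, nat_lit 0, nat_lit 3062318, false, false⟩,
 nat_lit 0, nat_lit 8167, nat_lit 0, nat_lit 0, nat_lit 4753, nat_lit 0, nat_lit 0, nat_lit 0, nat_lit 0, nat_lit 0, nat_lit 0, nat_lit 0, nat_lit 0, nat_lit 0, nat_lit 134, nat_lit 669400, nat_lit 0, nat_lit 0, [(nat_lit 9, [(nat_lit 5, nat_lit 551), (nat_lit 6, nat_lit 449)])],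
 ⟨p046_k3, nat_lit 0, nat_lit 0, nat_lit 178, nat_lit 0, nat_lit 141808, [nat_lit 3477868800, nat_lit 2415164001, nat_lit 81607999], [], [nat_lit 12770246402, nat_lit 14006406289, nat_lit 11406247719, nat_lit 12566152531, nat_lit 14190015895, nat_lit 15354217705, nat_lit 12762897551, nat_lit 13884222776], nat_lit 1271250, nat_lit 1271250, nat_lit 134400, nat_lit 490000, nat_lit 1100001, nat_lit 1442500, [nat_lit 1100000, nat_lit 1442500, nat_lit 1271250], [nat_lit 11, nat_lit 40, nat_lit 40, nat_lit 80, nat_lit 1, nat_lit 373, nat_lit 150, nat_lit 11]⟩, C1.Rw.none,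
 ⟨nat_lit 5477, nat_lit 5917, ⟨.ofNat (nat_lit 197129), .ofNat (nat_lit 307076), .ofNat (nat_lit 218469), .ofNat (nat_lit 328416), .ofNat (nat_lit 213007), .ofNat (nat_lit 317913), .ofNat (nat_lit 234364), .ofNat (nat_lit 339271)⟩, ⟨.ofNat (nat_lit 250751), .ofNat (nat_lit 329284), .ofNat (nat_lit 293429), .ofNat (nat_lit 371963), .ofNat (nat_lit 254209), .ofNat (nat_lit 329142), .ofNat (nat_lit 296923), .ofNat (nat_lit 371856)⟩⟩, [⟨nat_lit 0, nat_lit 100, nat_lit 96, nat_lit 69, nat_lit 245205857⟩]⟩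
noncomputable def p046_l60 : Lf2 := ⟨nat_lit 0, nat_lit 10, [nat_lit 0, nat_lit 5, nat_lit 5, nat_lit 20], false, nat_lit 160, nat_lit 200, nat_lit 0, nat_lit 320, ⟨nat_lit 193, nat_lit 0, nat_lit 807, nat_lit 6, nat_lit 121, nat_lit 807, nat_lit 125, nat_lit 807, nat_lit 147267, nat_lit 309, nat_lit 138017, nat_lit 306, nat_lit 54495363, nat_lit 0, nat_lit 0, nat_lit 3252576, false, false⟩,
 nat_lit 0, nat_lit 9187, nat_lit 0, nat_lit 0, nat_lit 5347, nat_lit 1380, nat_lit 295, nat_lit 0, nat_lit 0, nat_lit 410, nat_lit 0, nat_lit 0, nat_lit 0, nat_lit 1529332129456, nat_lit 87, nat_lit 807000, nat_lit 0, nat_lit 0, [(nat_lit 9, [(nat_lit 6, nat_lit 807)])],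
 ⟨p046_k3, nat_lit 0, nat_lit 0, nat_lit 202, nat_lit 0, nat_lit 249092, [nat_lit 3182547200, nat_lit 2600316001, nat_lit 154082399], [], [nat_lit 12099426737, nat_lit 13402699270, nat_lit 11081469888, nat_lit 12336798892, nat_lit 13558659980, nat_lit 14786219611, nat_lit 12571446129, nat_lit 13688779528], nat_lit 1271250, nat_lit 1271250, nat_lit 205650, nat_lit 490000, nat_lit 1100001, nat_lit 1442500, [nat_lit 1100000, nat_lit 1442500, nat_lit 1271250], [nat_lit 11, nat_lit 40, nat_lit 40, nat_lit 80, nat_lit 1, nat_lit 373, nat_lit 150, nat_lit 11]⟩, ⟨p046_k3, nat_lit 0, nat_lit 0, nat_lit 207, nat_lit 0, nat_lit 0, [nat_lit 904784000, nat_lit 1206250000, nat_lit 1899506000], [], [nat_lit 4054460647, nat_lit 4400953638, nat_lit 3680554144, nat_lit 3973718726, nat_lit 4695676749, nat_lit 4926310839, nat_lit 4324441122, nat_lit 4504840418], nat_lit 0, nat_lit 0, nat_lit 0, nat_lit 0, nat_lit 0, nat_lit 0, [], [nat_lit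 11, nat_lit 40, nat_lit 40, nat_lit 80, nat_lit 1, nat_lit 401, nat_lit 175, nat_lit 12]⟩,
 ⟨nat_lit 5477, nat_lit 5917, ⟨.ofNat (nat_lit 242029), .ofNat (nat_lit 328416), .ofNat (nat_lit 263368), .ofNat (nat_lit 349755), .ofNat (nat_lit 256844), .ofNat (nat_lit 339271), .ofNat (nat_lit 278201), .ofNat (nat_lit 360628)⟩, ⟨.ofNat (nat_lit 250751), .ofNat (nat_lit 329284), .ofNat (nat_lit 293429), .ofNat (nat_lit 371963), .ofNat (nat_lit 254209), .ofNat (nat_lit 329142), .ofNat (nat_lit 296923), .ofNat (nat_lit 371856)⟩⟩, [⟨nat_lit 0, nat_lit 100, nat_lit 100, nat_lit 80, nat_lit 387448733⟩, ⟨nat_lit 7, nat_lit 97, nat_lit 100, nat_lit 76, nat_lit 57900203⟩]⟩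
noncomputable def p046_l61 : Lf2 := ⟨nat_lit 0, nat_lit 5, [nat_lit 4, nat_lit 5, nat_lit 5, nat_lit 20], false, nat_lit 200, nat_lit 240, nat_lit 0, nat_lit 160, ⟨nat_lit 1000, nat_lit 0, nat_lit 0, nat_lit 0, nat_lit 0, nat_lit 0, nat_lit 0, nat_lit 0, nat_lit 0, nat_lit 0, nat_lit 0, nat_lit 0, nat_lit 0, nat_lit 0, nat_lit 0, nat_lit 0, false, false⟩,
 nat_lit 0, nat_lit 17947, nat_lit 0, nat_lit 0, nat_lit 10446, nat_lit 8382, nat_lit 1304, nat_lit 0, nat_lit 0, nat_lit 3158, nat_lit 0, nat_lit 0, nat_lit 0, nat_lit 0, nat_lit 0, nat_lit 0, nat_lit 0, nat_lit 0, [],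
 ⟨p046_k0, nat_lit 0, nat_lit 0, nat_lit 286, nat_lit 0, nat_lit 444417, [nat_lit 4688000000, nat_lit 6250000000, nat_lit 7968000000], [], [nat_lit 17192744229, nat_lit 19200320213, nat_lit 16341207778, nat_lit 15000806132, nat_lit 19370539309, nat_lit 21170263313, nat_lit 15194686372, nat_lit 16910970784], nat_lit 1271250, nat_lit 1271250, nat_lit 134400, nat_lit 490000, nat_lit 1271250, nat_lit 1271250, [nat_lit 1100000, nat_lit 1442500, nat_lit 1271250], [nat_lit 9, nat_lit 40, nat_lit 40, nat_lit 80, nat_lit 2, nat_lit 317, nat_lit 100, nat_lit 10]⟩, ⟨p046_k1, nat_lit 0, nat_lit 0, nat_lit 221, nat_lit 0, nat_lit 0, [nat_lit 4688000000, nat_lit 6250000000, nat_lit 9842000000], [], [nat_lit 19563834840, nat_lit 23533176443, nat_lit 15527277668, nat_lit 19359980940, nat_lit 13636544500, nat_lit 17152739764, nat_lit 11340766056, nat_lit 14671574792], nat_lit 0, nat_lit 0, nat_lit 0, nat_lit 0, nat_lit 0, nat_lit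 0, [], [nat_lit 11, nat_lit 40, nat_lit 40, nat_lit 80, nat_lit 1, nat_lit 373, nat_lit 150, nat_lit 11]⟩,
 zbF0, [⟨nat_lit 0, nat_lit 100, nat_lit 98, nat_lit 64, nat_lit 1435696919⟩]⟩
noncomputable def p046_l62 : Lf2 := ⟨nat_lit 0, nat_lit 5, [nat_lit 4, nat_lit 5, nat_lit 5, nat_lit 20], false, nat_lit 200, nat_lit 240, nat_lit 160, nat_lit 336, ⟨nat_lit 302, nat_lit 0, nat_lit 698, nat_lit 6, nat_lit 106, nat_lit 698, nat_lit 156, nat_lit 698, nat_lit 228150, nat_lit 332, nat_lit 106667, nat_lit 295, nat_lit 52955238, nat_lit 0, nat_lit 0, nat_lit 3459279, false, false⟩,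
 nat_lit 0, nat_lit 8953, nat_lit 0, nat_lit 0, nat_lit 5211, nat_lit 2355, nat_lit 504, nat_lit 0, nat_lit 0, nat_lit 807, nat_lit 0, nat_lit 0, nat_lit 0, nat_lit 0, nat_lit 0, nat_lit 698000, nat_lit 0, nat_lit 0, [(nat_lit 9, [(nat_lit 6, nat_lit 698)])],
 ⟨p046_k0, nat_lit 0, nat_lit 0, nat_lit 195, nat_lit 0, nat_lit 287060, [nat_lit 2181900800, nat_lit 1370980000, nat_lit 592601200], [], [nat_lit 14889243878, nat_lit 15450621949, nat_lit 13652043716, nat_lit 14187317435, nat_lit 16317376813, nat_lit 16869201547, nat_lit 15078087654, nat_lit 15658494339], nat_lit 1271250, nat_lit 1271250, nat_lit 134400, nat_lit 490000, nat_lit 1271250, nat_lit 1271250, [nat_lit 1100000, nat_lit 1442500, nat_lit 1271250], [nat_lit 9, nat_lit 40, nat_lit 40, nat_lit 80, nat_lit 2, nat_lit 317, nat_lit 100, nat_lit 10]⟩, ⟨p046_k1, nat_lit 0, nat_lit 0, nat_lit 161, nat_lit 0, nat_lit 0, [nat_lit 1415776000, nat_lit 1887500000,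 nat_lit 2972284000], [], [nat_lit 4627456098, nat_lit 5031859705, nat_lit 3920980878, nat_lit 4305420314, nat_lit 8136586882, nat_lit 8494426693, nat_lit 7191509733, nat_lit 7535533310], nat_lit 0, nat_lit 0, nat_lit 0, nat_lit 0, nat_lit 0, nat_lit 0, [], [nat_lit 11, nat_lit 40, nat_lit 40, nat_lit 80, nat_lit 1, nat_lit 401, nat_lit 175, nat_lit 11]⟩,
 ⟨nat_lit 5700, nat_lit 5917, ⟨.ofNat (nat_lit 197129), .ofNat (nat_lit 307076), .ofNat (nat_lit 218469), .ofNat (nat_lit 328416), .ofNat (nat_lit 205119), .ofNat (nat_lit 312525), .ofNat (nat_lit 226461), .ofNat (nat_lit 333867)⟩, ⟨.ofNat (nat_lit 329284), .ofNat (nat_lit 407818), .ofNat (nat_lit 371963), .ofNat (nat_lit 450496), .ofNat (nat_lit 329263), .ofNat (nat_lit 405982), .ofNat (nat_lit 371947), .ofNat (nat_lit 448666)⟩⟩, [⟨nat_lit 0, nat_lit 100, nat_lit 98, nat_lit 64, nat_lit 465506851⟩, ⟨nat_lit 7, nat_lit 88, nat_lit 100, nat_lit 74, nat_lit 226174228⟩]⟩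
noncomputable def p046_l63 : Lf2 := ⟨nat_lit 0, nat_lit 5, [nat_lit 4, nat_lit 5, nat_lit 5, nat_lit 20], false, nat_lit 200, nat_lit 240, nat_lit 160, nat_lit 336, ⟨nat_lit 292, nat_lit 0, nat_lit 708, nat_lit 6, nat_lit 111, nat_lit 708, nat_lit 155, nat_lit 708, nat_lit 228150, nat_lit 332, nat_lit 114817, nat_lit 298, nat_lit 52689528, nat_lit 0, nat_lit 0, nat_lit 3513048, false, false⟩,
 nat_lit 0, nat_lit 8399, nat_lit 0, nat_lit 0, nat_lit 5115, nat_lit 2304, nat_lit 367, nat_lit 0, nat_lit 0, nat_lit 784, nat_lit 0, nat_lit 0, nat_lit 0, nat_lit 0, nat_lit 0, nat_lit 708000, nat_lit 0, nat_lit 0, [(nat_lit 9, [(nat_lit 6, nat_lit 708)])],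
 ⟨p046_k2, nat_lit 0, nat_lit 0, nat_lit 210, nat_lit 0, nat_lit 325402, [nat_lit 2145996801, nat_lit 1301080000, nat_lit 487495200], [], [nat_lit 15461960402, nat_lit 16017427611, nat_lit 14408256401, nat_lit 14939053736, nat_lit 16835151833, nat_lit 17381091209, nat_lit 15773171237, nat_lit 16348457762], nat_lit 1271250, nat_lit 1271250, nat_lit 157850, nat_lit 490000, nat_lit 1271250, nat_lit 1271250, [nat_lit 1100000, nat_lit 1442500, nat_lit 1271250], [nat_lit 9, nat_lit 40, nat_lit 40, nat_lit 80, nat_lit 2, nat_lit 317, nat_lit 100, nat_lit 10]⟩, ⟨p046_k1, nat_lit 0, nat_lit 0, nat_lit 157, nat_lit 0, nat_lit 0, [nat_lit 1368896000, nat_lit 1825000000, nat_lit 2873864000], [], [nat_lit 4337839034, nat_lit 4730645423, nat_lit 3728289104, nat_lit 4104392800, nat_lit 7762104862, nat_lit 8114530103, nat_lit 6939764759, nat_lit 7274348591], nat_lit 0, nat_lit 0, nat_lit 0, nat_lit 0, nat_lit 0, nat_lit 0, [], [nat_lit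 11, nat_lit 40, nat_lit 40, nat_lit 80, nat_lit 1, nat_lit 401, nat_lit 175, nat_lit 11]⟩,
 ⟨nat_lit 5477, nat_lit 5701, ⟨.ofNat (nat_lit 212791), .ofNat (nat_lit 312525), .ofNat (nat_lit 234133), .ofNat (nat_lit 333867), .ofNat (nat_lit 220501), .ofNat (nat_lit 317913), .ofNat (nat_lit 241858), .ofNat (nat_lit 339271)⟩, ⟨.ofNat (nat_lit 329263), .ofNat (nat_lit 405982), .ofNat (nat_lit 371947), .ofNat (nat_lit 448666), .ofNat (nat_lit 329142), .ofNat (nat_lit 404075), .ofNat (nat_lit 371856), .ofNat (nat_lit 446789)⟩⟩, [⟨nat_lit 0, nat_lit 100, nat_lit 96, nat_lit 69, nat_lit 463945143⟩, ⟨nat_lit 19, nat_lit 100, nat_lit 88, nat_lit 74, nat_lit 214050385⟩]⟩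
noncomputable def p046_l64 : Lf2 := ⟨nat_lit 0, nat_lit 5, [nat_lit 4, nat_lit 5, nat_lit 5, nat_lit 20], false, nat_lit 200, nat_lit 240, nat_lit 160, nat_lit 320, ⟨nat_lit 1000, nat_lit 0, nat_lit 0, nat_lit 0, nat_lit 0, nat_lit 0, nat_lit 0, nat_lit 0, nat_lit 0, nat_lit 0, nat_lit 0, nat_lit 0, nat_lit 0, nat_lit 0, nat_lit 0, nat_lit 0, false, false⟩,
 nat_lit 0, nat_lit 16427, nat_lit 0, nat_lit 0, nat_lit 9561, nat_lit 6334, nat_lit 2056, nat_lit 0, nat_lit 0, nat_lit 0, nat_lit 0, nat_lit 0, nat_lit 0, nat_lit 0, nat_lit 0, nat_lit 0, nat_lit 0, nat_lit 0, [],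
 ⟨p046_k0, nat_lit 0, nat_lit 0, nat_lit 274, nat_lit 0, nat_lit 444417, [nat_lit 4688000000, nat_lit 6250000000, nat_lit 7968000000], [], [nat_lit 20032657648, nat_lit 16448658532, nat_lit 12411953920, nat_lit 14000522462, nat_lit 16658009125, nat_lit 18928101751, nat_lit 14219678302, nat_lit 15842929744], nat_lit 1271250, nat_lit 1271250, nat_lit 205650, nat_lit 490000, nat_lit 1271250, nat_lit 1271250, [nat_lit 1100000, nat_lit 1442500, nat_lit 1271250], [nat_lit 9, nat_lit 40, nat_lit 40, nat_lit 80, nat_lit 2, nat_lit 317, nat_lit 100, nat_lit 10]⟩, ⟨p046_k0, nat_lit 0, nat_lit 0, nat_lit 91, nat_lit 0, nat_lit 0, [nat_lit 4688000000, nat_lit 6250000000, nat_lit 7968000000], [], [nat_lit 12272294480, nat_lit 14207786834, nat_lit 11168159412, nat_lit 13025002624, nat_lit 23153850204, nat_lit 24591092295, nat_lit 21659027740, nat_lit 22851199472], nat_lit 0, nat_lit 0, nat_lit 0, nat_lit 0, nat_lit 0, nat_lit 0,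 [], [nat_lit 9, nat_lit 40, nat_lit 40, nat_lit 80, nat_lit 2, nat_lit 317, nat_lit 100, nat_lit 10]⟩,
 zbF0, [⟨nat_lit 0, nat_lit 100, nat_lit 100, nat_lit 60, nat_lit 1145342899⟩, ⟨nat_lit 19, nat_lit 100, nat_lit 97, nat_lit 76, nat_lit 742831768⟩]⟩
noncomputable def p046_l65 : Lf2 := ⟨nat_lit 0, nat_lit 10, [nat_lit 0, nat_lit 5, nat_lit 5, nat_lit 20], true, nat_lit 200, nat_lit 240, nat_lit 0, nat_lit 336, ⟨nat_lit 0, nat_lit 0, nat_lit 1000, nat_lit 6, nat_lit 108, nat_lit 1000, nat_lit 156, nat_lit 1000, nat_lit 228150, nat_lit 332, nat_lit 109350, nat_lit 296, nat_lit 52878368, nat_lit 0, nat_lit 0, nat_lit 3475450, false, false⟩,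
 nat_lit 0, nat_lit 7906, nat_lit 0, nat_lit 0, nat_lit 4601, nat_lit 0, nat_lit 0, nat_lit 0, nat_lit 0, nat_lit 0, nat_lit 0, nat_lit 0, nat_lit 0, nat_lit 0, nat_lit 111, nat_lit 533800, nat_lit 0, nat_lit 0, [(nat_lit 9, [(nat_lit 5, nat_lit 777), (nat_lit 6, nat_lit 223)])],
 ⟨p046_k3, nat_lit 0, nat_lit 0, nat_lit 179, nat_lit 0, nat_lit 141808, [nat_lit 3206777601, nat_lit 2022361334, nat_lit 42082666], [], [nat_lit 14841157328, nat_lit 15965441368, nat_lit 13560472467, nat_lit 14570387692, nat_lit 16251105462, nat_lit 17313728566, nat_lit 14864054522, nat_lit 15889076386], nat_lit 1271250, nat_lit 1271250, nat_lit 134400, nat_lit 490000, nat_lit 1271250, nat_lit 1271250, [nat_lit 1100000, nat_lit 1442500, nat_lit 1271250], [nat_lit 11, nat_lit 40, nat_lit 40, nat_lit 80, nat_lit 1, nat_lit 373, nat_lit 150, nat_lit 10]⟩, C1.Rw.none,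
 ⟨nat_lit 5477, nat_lit 5917, ⟨.ofNat (nat_lit 197129), .ofNat (nat_lit 307076), .ofNat (nat_lit 218469), .ofNat (nat_lit 328416), .ofNat (nat_lit 213007), .ofNat (nat_lit 317913), .ofNat (nat_lit 234364), .ofNat (nat_lit 339271)⟩, ⟨.ofNat (nat_lit 329284), .ofNat (nat_lit 407818), .ofNat (nat_lit 371963), .ofNat (nat_lit 450496), .ofNat (nat_lit 329142), .ofNat (nat_lit 404075), .ofNat (nat_lit 371856), .ofNat (nat_lit 446789)⟩⟩, [⟨nat_lit 0, nat_lit 100, nat_lit 96, nat_lit 69, nat_lit 240958469⟩]⟩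
noncomputable def p046_l66 : Lf2 := ⟨nat_lit 0, nat_lit 10, [nat_lit 0, nat_lit 5, nat_lit 5, nat_lit 20], false, nat_lit 200, nat_lit 240, nat_lit 0, nat_lit 160, ⟨nat_lit 1000, nat_lit 0, nat_lit 0, nat_lit 0, nat_lit 0, nat_lit 0, nat_lit 0, nat_lit 0, nat_lit 0, nat_lit 0, nat_lit 0, nat_lit 0, nat_lit 0, nat_lit 0, nat_lit 0, nat_lit 0, false, false⟩,
 nat_lit 0, nat_lit 24282, nat_lit 0, nat_lit 0, nat_lit 14134, nat_lit 7707, nat_lit 1425, nat_lit 0, nat_lit 0, nat_lit 2706, nat_lit 0, nat_lit 0, nat_lit 0, nat_lit 0, nat_lit 0, nat_lit 0, nat_lit 0, nat_lit 0, [],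
 ⟨p046_k3, nat_lit 0, nat_lit 0, nat_lit 205, nat_lit 0, nat_lit 249092, [nat_lit 4688000000, nat_lit 6250000000, nat_lit 9842000000], [], [nat_lit 17143406355, nat_lit 19280922727, nat_lit 13046152031, nat_lit 15091519459, nat_lit 19178515853, nat_lit 21079119675, nat_lit 15011778679, nat_lit 16830247447], nat_lit 1271250, nat_lit 1271250, nat_lit 205650, nat_lit 490000, nat_lit 1271250, nat_lit 1271250, [nat_lit 1100000, nat_lit 1442500, nat_lit 1271250], [nat_lit 11, nat_lit 40, nat_lit 40, nat_lit 80, nat_lit 1, nat_lit 373, nat_lit 150, nat_lit 10]⟩, ⟨p046_k3, nat_lit 0, nat_lit 0, nat_lit 207, nat_lit 0, nat_lit 0, [nat_lit 4688000000, nat_lit 6250000000, nat_lit 9842000000], [], [nat_lit 19046841655, nat_lit 20926251314, nat_lit 16659648204, nat_lit 18477991190, nat_lit 13732792887, nat_lit 15149743939, nat_lit 12223526230, nat_lit 13788933242], nat_lit 0, nat_lit 0, nat_lit 0, nat_lit 0, nat_lit 0, nat_lit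 0, [], [nat_lit 11, nat_lit 40, nat_lit 40, nat_lit 80, nat_lit 1, nat_lit 373, nat_lit 150, nat_lit 11]⟩,
 zbF0, [⟨nat_lit 0, nat_lit 100, nat_lit 100, nat_lit 70, nat_lit 20751307⟩, ⟨nat_lit 0, nat_lit 100, nat_lit 100, nat_lit 80, nat_lit 1387825144⟩]⟩
noncomputable def p046_l67 : Lf2 := ⟨nat_lit 0, nat_lit 10, [nat_lit 0, nat_lit 5, nat_lit 5, nat_lit 20], true, nat_lit 200, nat_lit 240, nat_lit 160, nat_lit 320, ⟨nat_lit 0, nat_lit 0, nat_lit 1000, nat_lit 6, nat_lit 118, nat_lit 1000, nat_lit 156, nat_lit 1000, nat_lit 228150, nat_lit 332, nat_lit 129067, nat_lit 303, nat_lit 52155236, nat_lit 0, nat_lit 0, nat_lit 3611932, false, false⟩,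
 nat_lit 0, nat_lit 8296, nat_lit 0, nat_lit 0, nat_lit 4829, nat_lit 0, nat_lit 0, nat_lit 0, nat_lit 0, nat_lit 0, nat_lit 0, nat_lit 0, nat_lit 0, nat_lit 0, nat_lit 119, nat_lit 580600, nat_lit 0, nat_lit 0, [(nat_lit 9, [(nat_lit 5, nat_lit 699), (nat_lit 6, nat_lit 301)])],
 ⟨p046_k11, nat_lit 0, nat_lit 0, nat_lit 163, nat_lit 0, nat_lit 136294, [nat_lit 3364180000, nat_lit 1149410534, nat_lit 23149600], [], [nat_lit 13940809472, nat_lit 14512830933, nat_lit 13063045136, nat_lit 13614700445, nat_lit 15366094394, nat_lit 15890158000, nat_lit 14451091824, nat_lit 14957107221], nat_lit 1271250, nat_lit 1271250, nat_lit 205650, nat_lit 490000, nat_lit 1271250, nat_lit 1271250, [nat_lit 1100000, nat_lit 1785000, nat_lit 1271250], [nat_lit 29, nat_lit 40, nat_lit 40, nat_lit 80, nat_lit 17, nat_lit 373, nat_lit 150, nat_lit 10]⟩, C1.Rw.none,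
 ⟨nat_lit 5700, nat_lit 5917, ⟨.ofNat (nat_lit 242029), .ofNat (nat_lit 328416), .ofNat (nat_lit 252698), .ofNat (nat_lit 339085), .ofNat (nat_lit 249476), .ofNat (nat_lit 333867), .ofNat (nat_lit 260147), .ofNat (nat_lit 344538)⟩, ⟨.ofNat (nat_lit 329284), .ofNat (nat_lit 407818), .ofNat (nat_lit 371963), .ofNat (nat_lit 450496), .ofNat (nat_lit 329263), .ofNat (nat_lit 405982), .ofNat (nat_lit 371947), .ofNat (nat_lit 448666)⟩⟩, [⟨nat_lit 0, nat_lit 100, nat_lit 100, nat_lit 70, nat_lit 219655824⟩]⟩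
noncomputable def p046_l68 : Lf2 := ⟨nat_lit 0, nat_lit 10, [nat_lit 0, nat_lit 5, nat_lit 5, nat_lit 20], false, nat_lit 200, nat_lit 240, nat_lit 160, nat_lit 320, ⟨nat_lit 1000, nat_lit 0, nat_lit 0, nat_lit 0, nat_lit 0, nat_lit 0, nat_lit 0, nat_lit 0, nat_lit 0, nat_lit 0, nat_lit 0, nat_lit 0, nat_lit 0, nat_lit 0, nat_lit 0, nat_lit 0, false, false⟩,
 nat_lit 0, nat_lit 16555, nat_lit 0, nat_lit 1412, nat_lit 10082, nat_lit 6395, nat_lit 1605, nat_lit 0, nat_lit 0, nat_lit 0, nat_lit 0, nat_lit 0, nat_lit 0, nat_lit 0, nat_lit 0, nat_lit 0, nat_lit 0, nat_lit 0, [],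
 ⟨p046_k12, nat_lit 0, nat_lit 0, nat_lit 208, nat_lit 0, nat_lit 235556, [nat_lit 4688000000, nat_lit 7968000001, nat_lit 9842000000], [], [nat_lit 16017038470, nat_lit 16868363087, nat_lit 13754864885, nat_lit 14572432307, nat_lit 17701796041, nat_lit 18587735640, nat_lit 15512151827, nat_lit 16351161829], nat_lit 1271250, nat_lit 1271250, nat_lit 230001, nat_lit 490000, nat_lit 1271250, nat_lit 1271250, [nat_lit 1100000, nat_lit 1785000, nat_lit 1271250], [nat_lit 29, nat_lit 40, nat_lit 40, nat_lit 80, nat_lit 17, nat_lit 373, nat_lit 150, nat_lit 10]⟩, ⟨p046_k11, nat_lit 0, nat_lit 0, nat_lit 108, nat_lit 0, nat_lit 0, [nat_lit 4688000000, nat_lit 7968000000, nat_lit 9842000000], [], [nat_lit 11933570730, nat_lit 13877062120, nat_lit 11081851610, nat_lit 12949602720, nat_lit 22857795460, nat_lit 24301868660, nat_lit 21624782950, nat_lit 22822603160], nat_lit 0, nat_lit 0, nat_lit 0, nat_lit 0, nat_lit 0, nat_lit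 0, [], [nat_lit 29, nat_lit 40, nat_lit 40, nat_lit 80, nat_lit 17, nat_lit 401, nat_lit 175, nat_lit 11]⟩,
 zbF0, [⟨nat_lit 0, nat_lit 100, nat_lit 98, nat_lit 64, nat_lit 1099907019⟩, ⟨nat_lit 7, nat_lit 97, nat_lit 100, nat_lit 76, nat_lit 736382222⟩]⟩
noncomputable def b_V_600_600_10_33 : St := ⟨true, nat_lit 1, nat_lit 0, nat_lit 1, nat_lit 80, nat_lit 260, nat_lit 280, nat_lit 240, nat_lit 280, nat_lit 24, nat_lit 80, nat_lit 40, nat_lit 80, nat_lit 160, nat_lit 240, nat_lit 0, nat_lit 336, nat_lit 0, nat_lit 40, nat_lit 0, nat_lit 0, nat_lit 0, nat_lit 0⟩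
theorem d_V_600_600_10_33 (h : EB TB.env) : Dead b_V_600_600_10_33 := chkB_sound0 h (T :=
(.spl (nat_lit 4) (nat_lit 200)
(.spl (nat_lit 6) (nat_lit 20)
(.spl (nat_lit 3) (nat_lit 60)
(.trX (nat_lit 19) (nat_lit 100) (nat_lit 85) (nat_lit 73) (nat_lit 312) (.spl (nat_lit 0) (nat_lit 270)
(.ord (.spl (nat_lit 1) (nat_lit 260)
(.leaf p046_l53)
(.trZ (nat_lit 0) (nat_lit 100) (nat_lit 100) (nat_lit 60) (nat_lit 36) (.trX (nat_lit 19) (nat_lit 100) (nat_lit 92) (nat_lit 75) (nat_lit 296) (.leaf p046_l54)))))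
(.trZ (nat_lit 0) (nat_lit 100) (nat_lit 96) (nat_lit 54) (nat_lit 28) (.spl (nat_lit 0) (nat_lit 275)
(.ord (.leaf p046_l55))
(.trZ (nat_lit 0) (nat_lit 100) (nat_lit 95) (nat_lit 56) (nat_lit 32) (.leaf p046_l56))))))
(.spl (nat_lit 0) (nat_lit 270)
(.ord (.leaf p046_l57))
(.trZ (nat_lit 0) (nat_lit 100) (nat_lit 96) (nat_lit 54) (nat_lit 28) (.leaf p046_l58))))
(.spl (nat_lit 1) (nat_lit 260)
(.leaf p046_l59)
(.trZ (nat_lit 0) (nat_lit 100) (nat_lit 100) (nat_lit 60) (nat_lit 36) (.trX (nat_lit 19) (nat_lit 100) (nat_lit 85) (nat_lit 84) (nat_lit 320) (.leaf p046_l60)))))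
(.spl (nat_lit 6) (nat_lit 20)
(.spl (nat_lit 5) (nat_lit 160)
(.leaf p046_l61)
(.spl (nat_lit 1) (nat_lit 260)
(.spl (nat_lit 0) (nat_lit 270)
(.leaf p046_l62)
(.trZ (nat_lit 0) (nat_lit 100) (nat_lit 96) (nat_lit 54) (nat_lit 28) (.leaf p046_l63)))
(.trZ (nat_lit 0) (nat_lit 100) (nat_lit 100) (nat_lit 60) (nat_lit 36) (.trX (nat_lit 19) (nat_lit 100) (nat_lit 85) (nat_lit 84) (nat_lit 320) (.leaf p046_l64)))))
(.spl (nat_lit 1) (nat_lit 260)
(.leaf p046_l65)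
(.trZ (nat_lit 0) (nat_lit 100) (nat_lit 100) (nat_lit 60) (nat_lit 36) (.trX (nat_lit 19) (nat_lit 100) (nat_lit 85) (nat_lit 84) (nat_lit 320) (.spl (nat_lit 5) (nat_lit 160)
(.leaf p046_l66)
(.spl (nat_lit 0) (nat_lit 270)
(.ord (.leaf p046_l67))
(.trZ (nat_lit 0) (nat_lit 100) (nat_lit 98) (nat_lit 64) (nat_lit 40) (.leaf p046_l68)))))))))) (by decide +kernel)
noncomputable def p046_l69 : Lf2 := ⟨nat_lit 0, nat_lit 5, [nat_lit 4, nat_lit 5, nat_lit 5, nat_lit 20], false, nat_lit 240, nat_lit 320, nat_lit 0, nat_lit 160, ⟨nat_lit 1000, nat_lit 0, nat_lit 0, nat_lit 0, nat_lit 0, nat_lit 0, nat_lit 0, nat_lit 0, nat_lit 0, nat_lit 0, nat_lit 0, nat_lit 0, nat_lit 0, nat_lit 0, nat_lit 0, nat_lit 0, false, false⟩,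
 nat_lit 0, nat_lit 14319, nat_lit 0, nat_lit 8380, nat_lit 8334, nat_lit 8016, nat_lit 1316, nat_lit 0, nat_lit 0, nat_lit 3257, nat_lit 0, nat_lit 0, nat_lit 0, nat_lit 8977876501222, nat_lit 0, nat_lit 0, nat_lit 0, nat_lit 0, [],
 ⟨p046_k0, nat_lit 0, nat_lit 0, nat_lit 304, nat_lit 0, nat_lit 444417, [nat_lit 4688000000, nat_lit 6250000000, nat_lit 7968000000], [], [nat_lit 21207585012, nat_lit 22391049816, nat_lit 18815101668, nat_lit 19728337220, nat_lit 26648518763, nat_lit 28325780962, nat_lit 23224603948, nat_lit 24355119104], nat_lit 1271250, nat_lit 1271250, nat_lit 134400, nat_lit 490000, nat_lit 1271250, nat_lit 1271250, [nat_lit 1100000, nat_lit 1442500, nat_lit 1271250], [nat_lit 9, nat_lit 40, nat_lit 40, nat_lit 80, nat_lit 2, nat_lit 226, nat_lit 20, nat_lit 7]⟩, ⟨p046_k1, nat_lit 0, nat_lit 0, nat_lit 221, nat_lit 0, nat_lit 0, [nat_lit 4688000000, nat_lit 6250000000, nat_lit 9842000000], [], [nat_lit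 19006237940, nat_lit 22864953262, nat_lit 15188944634, nat_lit 19036864192, nat_lit 14317675770, nat_lit 17736971802, nat_lit 12167740128, nat_lit 15408056096], nat_lit 0, nat_lit 0, nat_lit 0, nat_lit 0, nat_lit 0, nat_lit 0, [], [nat_lit 11, nat_lit 40, nat_lit 40, nat_lit 80, nat_lit 1, nat_lit 373, nat_lit 150, nat_lit 11]⟩,
 zbF0, [⟨nat_lit 0, nat_lit 100, nat_lit 98, nat_lit 64, nat_lit 1154005833⟩, ⟨nat_lit 4, nat_lit 97, nat_lit 100, nat_lit 76, nat_lit 768606506⟩]⟩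
noncomputable def p046_l70 : Lf2 := ⟨nat_lit 0, nat_lit 5, [nat_lit 4, nat_lit 5, nat_lit 5, nat_lit 20], false, nat_lit 240, nat_lit 320, nat_lit 160, nat_lit 240, ⟨nat_lit 1000, nat_lit 0, nat_lit 0, nat_lit 0, nat_lit 0, nat_lit 0, nat_lit 0, nat_lit 0, nat_lit 0, nat_lit 0, nat_lit 0, nat_lit 0, nat_lit 0, nat_lit 0, nat_lit 0, nat_lit 0, false, false⟩,
 nat_lit 0, nat_lit 13971, nat_lit 0, nat_lit 0, nat_lit 8132, nat_lit 7177, nat_lit 2452, nat_lit 0, nat_lit 0, nat_lit 0, nat_lit 0, nat_lit 0, nat_lit 0, nat_lit 0, nat_lit 0, nat_lit 0, nat_lit 0, nat_lit 0, [],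
 ⟨p046_k0, nat_lit 0, nat_lit 0, nat_lit 267, nat_lit 0, nat_lit 343681, [nat_lit 4688000000, nat_lit 6250000000, nat_lit 7968000000], [], [nat_lit 18719555647, nat_lit 19781925394, nat_lit 16514590160, nat_lit 17518414712, nat_lit 26401694616, nat_lit 28056183197, nat_lit 22251687792, nat_lit 23856684016], nat_lit 1271250, nat_lit 1271250, nat_lit 134400, nat_lit 490000, nat_lit 1271250, nat_lit 1271250, [nat_lit 1100000, nat_lit 1442500, nat_lit 1271250], [nat_lit 9, nat_lit 40, nat_lit 40, nat_lit 80, nat_lit 2, nat_lit 226, nat_lit 20, nat_lit 7]⟩, ⟨p046_k1, nat_lit 0, nat_lit 0, nat_lit 46, nat_lit 0, nat_lit 0, [nat_lit 4688000000, nat_lit 6250000000, nat_lit 9842000000], [], [nat_lit 10176892686, nat_lit 12282333717, nat_lit 7967827100, nat_lit 9975413886, nat_lit 15220927169, nat_lit 16957940907, nat_lit 12844896124, nat_lit 14503564692], nat_lit 0, nat_lit 0, nat_lit 0, nat_lit 0, nat_lit 0, nat_lit 0, [],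 [nat_lit 11, nat_lit 40, nat_lit 40, nat_lit 80, nat_lit 1, nat_lit 373, nat_lit 150, nat_lit 11]⟩,
 zbF0, [⟨nat_lit 0, nat_lit 100, nat_lit 97, nat_lit 59, nat_lit 675714543⟩, ⟨nat_lit 4, nat_lit 97, nat_lit 100, nat_lit 76, nat_lit 509357509⟩, ⟨nat_lit 23, nat_lit 97, nat_lit 100, nat_lit 71, nat_lit 474701781⟩]⟩
noncomputable def p046_l71 : Lf2 := ⟨nat_lit 0, nat_lit 5, [nat_lit 4, nat_lit 5, nat_lit 5, nat_lit 20], false, nat_lit 240, nat_lit 320, nat_lit 240, nat_lit 280, ⟨nat_lit 1000, nat_lit 0, nat_lit 0, nat_lit 0, nat_lit 0, nat_lit 0, nat_lit 0, nat_lit 0, nat_lit 0, nat_lit 0, nat_lit 0, nat_lit 0, nat_lit 0, nat_lit 0, nat_lit 0, nat_lit 0, false, false⟩,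
 nat_lit 0, nat_lit 13585, nat_lit 0, nat_lit 0, nat_lit 7907, nat_lit 6637, nat_lit 2988, nat_lit 0, nat_lit 0, nat_lit 0, nat_lit 0, nat_lit 0, nat_lit 0, nat_lit 0, nat_lit 0, nat_lit 0, nat_lit 0, nat_lit 0, [],
 ⟨p046_k0, nat_lit 0, nat_lit 0, nat_lit 267, nat_lit 0, nat_lit 343681, [nat_lit 4688000000, nat_lit 6250000000, nat_lit 7968000000], [], [nat_lit 18372765227, nat_lit 19496656416, nat_lit 16283668470, nat_lit 17365629616, nat_lit 26128423566, nat_lit 27755888657, nat_lit 22118767692, nat_lit 23697656716], nat_lit 1271250, nat_lit 1271250, nat_lit 134400, nat_lit 490000, nat_lit 1271250, nat_lit 1271250, [nat_lit 1100000, nat_lit 1442500, nat_lit 1271250], [nat_lit 9, nat_lit 40, nat_lit 40, nat_lit 80, nat_lit 2, nat_lit 226, nat_lit 20, nat_lit 7]⟩, ⟨p046_k1, nat_lit 0, nat_lit 0, nat_lit 73, nat_lit 0, nat_lit 0, [nat_lit 4688000000, nat_lit 6250000000, nat_lit 9842000000], [], [nat_lit 15645758993,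 nat_lit 17303744379, nat_lit 13526369644, nat_lit 15110418852, nat_lit 19178881569, nat_lit 20642800520, nat_lit 16897533644, nat_lit 18299672711], nat_lit 0, nat_lit 0, nat_lit 0, nat_lit 0, nat_lit 0, nat_lit 0, [], [nat_lit 11, nat_lit 40, nat_lit 40, nat_lit 80, nat_lit 1, nat_lit 401, nat_lit 175, nat_lit 11]⟩,
 zbF0, [⟨nat_lit 0, nat_lit 100, nat_lit 96, nat_lit 69, nat_lit 343241576⟩, ⟨nat_lit 4, nat_lit 97, nat_lit 100, nat_lit 76, nat_lit 293579701⟩, ⟨nat_lit 7, nat_lit 88, nat_lit 100, nat_lit 74, nat_lit 129275744⟩, ⟨nat_lit 11, nat_lit 100, nat_lit 100, nat_lit 72, nat_lit 746186893⟩]⟩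
noncomputable def p046_l72 : Lf2 := ⟨nat_lit 0, nat_lit 5, [nat_lit 4, nat_lit 5, nat_lit 5, nat_lit 20], false, nat_lit 240, nat_lit 276, nat_lit 280, nat_lit 312, ⟨nat_lit 1000, nat_lit 0, nat_lit 0, nat_lit 0, nat_lit 0, nat_lit 0, nat_lit 0, nat_lit 0, nat_lit 0, nat_lit 0, nat_lit 0, nat_lit 0, nat_lit 0, nat_lit 0, nat_lit 0, nat_lit 0, false, false⟩,
 nat_lit 0, nat_lit 13110, nat_lit 0, nat_lit 0, nat_lit 7630, nat_lit 6917, nat_lit 2872, nat_lit 0, nat_lit 0, nat_lit 0, nat_lit 0, nat_lit 0, nat_lit 0, nat_lit 0, nat_lit 0, nat_lit 0, nat_lit 0, nat_lit 0, [],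
 ⟨p046_k0, nat_lit 0, nat_lit 0, nat_lit 244, nat_lit 0, nat_lit 343681, [nat_lit 4688000000, nat_lit 6250000000, nat_lit 7968000000], [], [nat_lit 18515436064, nat_lit 19537658697, nat_lit 17747716730, nat_lit 18744766860, nat_lit 20446990334, nat_lit 21644312332, nat_lit 19653074851, nat_lit 20629910154], nat_lit 1271250, nat_lit 1271250, nat_lit 205650, nat_lit 356250, nat_lit 1271250, nat_lit 1271250, [nat_lit 1100000, nat_lit 1442500, nat_lit 1271250], [nat_lit 9, nat_lit 40, nat_lit 40, nat_lit 80, nat_lit 2, nat_lit 226, nat_lit 20, nat_lit 7]⟩, ⟨p046_k1, nat_lit 0, nat_lit 0, nat_lit 79, nat_lit 0, nat_lit 0, [nat_lit 4688000000, nat_lit 6250000000, nat_lit 9842000000], [], [nat_lit 18139099045, nat_lit 19716050042, nat_lit 17232577921, nat_lit 18694658506, nat_lit 21386505173, nat_lit 22943632522, nat_lit 20120019816, nat_lit 21653921502], nat_lit 0, nat_lit 0, nat_lit 0, nat_lit 0, nat_lit 0, nat_lit 0,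 [], [nat_lit 11, nat_lit 40, nat_lit 40, nat_lit 80, nat_lit 1, nat_lit 317, nat_lit 100, nat_lit 9]⟩,
 zbF0, [⟨nat_lit 0, nat_lit 100, nat_lit 96, nat_lit 69, nat_lit 366682520⟩, ⟨nat_lit 16, nat_lit 100, nat_lit 97, nat_lit 76, nat_lit 60317718⟩, ⟨nat_lit 19, nat_lit 100, nat_lit 88, nat_lit 74, nat_lit 349779586⟩, ⟨nat_lit 23, nat_lit 100, nat_lit 96, nat_lit 68, nat_lit 735883031⟩]⟩
noncomputable def p046_l73 : Lf2 := ⟨nat_lit 0, nat_lit 5, [nat_lit 4, nat_lit 5, nat_lit 5, nat_lit 20], false, nat_lit 240, nat_lit 300, nat_lit 280, nat_lit 336, ⟨nat_lit 1000, nat_lit 0, nat_lit 0, nat_lit 0, nat_lit 0, nat_lit 0, nat_lit 0, nat_lit 0, nat_lit 0, nat_lit 0, nat_lit 0, nat_lit 0, nat_lit 0, nat_lit 0, nat_lit 0, nat_lit 0, false, false⟩,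
 nat_lit 0, nat_lit 12663, nat_lit 0, nat_lit 0, nat_lit 7371, nat_lit 7105, nat_lit 2154, nat_lit 0, nat_lit 0, nat_lit 0, nat_lit 0, nat_lit 0, nat_lit 0, nat_lit 0, nat_lit 0, nat_lit 0, nat_lit 0, nat_lit 0, [],
 ⟨p046_k0, nat_lit 0, nat_lit 0, nat_lit 212, nat_lit 0, nat_lit 343681, [nat_lit 4688000000, nat_lit 6250000000, nat_lit 7968000000], [], [nat_lit 17480740327, nat_lit 18658593712, nat_lit 16906761058, nat_lit 18093386046, nat_lit 21322360395, nat_lit 22403277101, nat_lit 20701352349, nat_lit 21759859614], nat_lit 1271250, nat_lit 1271250, nat_lit 356250, nat_lit 490000, nat_lit 1271250, nat_lit 1271250, [nat_lit 1100000, nat_lit 1442500, nat_lit 1271250], [nat_lit 9, nat_lit 40, nat_lit 40, nat_lit 80, nat_lit 2, nat_lit 226, nat_lit 20, nat_lit 7]⟩, ⟨p046_k1, nat_lit 0, nat_lit 0, nat_lit 78, nat_lit 0, nat_lit 0, [nat_lit 4688000000, nat_lit 6250000000, nat_lit 9842000000], [], [nat_lit 17079360365,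 nat_lit 18563696108, nat_lit 16449195260, nat_lit 17905337315, nat_lit 23124887147, nat_lit 24532214876, nat_lit 22161294313, nat_lit 23549134956], nat_lit 0, nat_lit 0, nat_lit 0, nat_lit 0, nat_lit 0, nat_lit 0, [], [nat_lit 11, nat_lit 40, nat_lit 40, nat_lit 80, nat_lit 1, nat_lit 317, nat_lit 100, nat_lit 8]⟩,
 zbF0, [⟨nat_lit 16, nat_lit 100, nat_lit 97, nat_lit 76, nat_lit 170298983⟩, ⟨nat_lit 7, nat_lit 88, nat_lit 100, nat_lit 74, nat_lit 464901698⟩, ⟨nat_lit 23, nat_lit 100, nat_lit 93, nat_lit 81, nat_lit 559934367⟩]⟩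
noncomputable def p046_l74 : Lf2 := ⟨nat_lit 0, nat_lit 5, [nat_lit 4, nat_lit 5, nat_lit 5, nat_lit 20], false, nat_lit 240, nat_lit 320, nat_lit 160, nat_lit 320, ⟨nat_lit 1000, nat_lit 0, nat_lit 0, nat_lit 0, nat_lit 0, nat_lit 0, nat_lit 0, nat_lit 0, nat_lit 0, nat_lit 0, nat_lit 0, nat_lit 0, nat_lit 0, nat_lit 0, nat_lit 0, nat_lit 0, false, false⟩,
 nat_lit 0, nat_lit 14222, nat_lit 0, nat_lit 0, nat_lit 8278, nat_lit 6252, nat_lit 3051, nat_lit 0, nat_lit 0, nat_lit 0, nat_lit 0, nat_lit 0, nat_lit 0, nat_lit 2220963294723, nat_lit 0, nat_lit 0, nat_lit 0, nat_lit 0, [],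
 ⟨p046_k0, nat_lit 0, nat_lit 0, nat_lit 252, nat_lit 0, nat_lit 338404, [nat_lit 4688000000, nat_lit 6250000000, nat_lit 7968000000], [], [nat_lit 16620435847, nat_lit 17202346062, nat_lit 15198896005, nat_lit 15752727647, nat_lit 25143819229, nat_lit 25979464197, nat_lit 22337938168, nat_lit 23148906616], nat_lit 1271250, nat_lit 1271250, nat_lit 205650, nat_lit 490000, nat_lit 1271250, nat_lit 1271250, [nat_lit 1100000, nat_lit 1442500, nat_lit 1271250], [nat_lit 9, nat_lit 40, nat_lit 40, nat_lit 80, nat_lit 2, nat_lit 226, nat_lit 20, nat_lit 7]⟩, ⟨p046_k0, nat_lit 0, nat_lit 0, nat_lit 87, nat_lit 0, nat_lit 0, [nat_lit 4688000000, nat_lit 6250000000, nat_lit 7968000000], [], [nat_lit 12362427338, nat_lit 13322456020, nat_lit 11284179736, nat_lit 12205269804, nat_lit 23170438312, nat_lit 23784499240, nat_lit 21705061720, nat_lit 22297351068], nat_lit 0, nat_lit 0, nat_lit 0, nat_lit 0, nat_lit 0, nat_lit 0,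 [], [nat_lit 9, nat_lit 40, nat_lit 40, nat_lit 80, nat_lit 2, nat_lit 317, nat_lit 100, nat_lit 10]⟩,
 zbF0, [⟨nat_lit 0, nat_lit 100, nat_lit 100, nat_lit 70, nat_lit 331575524⟩, ⟨nat_lit 16, nat_lit 100, nat_lit 95, nat_lit 76, nat_lit 413713382⟩, ⟨nat_lit 19, nat_lit 100, nat_lit 95, nat_lit 76, nat_lit 96249367⟩, ⟨nat_lit 11, nat_lit 100, nat_lit 100, nat_lit 76, nat_lit 629355897⟩]⟩
noncomputable def p046_l75 : Lf2 := ⟨nat_lit 0, nat_lit 5, [nat_lit 4, nat_lit 5, nat_lit 5, nat_lit 20], false, nat_lit 240, nat_lit 308, nat_lit 160, nat_lit 320, ⟨nat_lit 1000, nat_lit 0, nat_lit 0, nat_lit 0, nat_lit 0, nat_lit 0, nat_lit 0, nat_lit 0, nat_lit 0, nat_lit 0, nat_lit 0, nat_lit 0, nat_lit 0, nat_lit 0, nat_lit 0, nat_lit 0, false, false⟩,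
 nat_lit 0, nat_lit 12011, nat_lit 0, nat_lit 0, nat_lit 7314, nat_lit 6395, nat_lit 2024, nat_lit 0, nat_lit 0, nat_lit 0, nat_lit 0, nat_lit 0, nat_lit 0, nat_lit 0, nat_lit 0, nat_lit 0, nat_lit 0, nat_lit 0, [],
 ⟨p046_k2, nat_lit 0, nat_lit 0, nat_lit 277, nat_lit 0, nat_lit 420780, [nat_lit 4688000000, nat_lit 6250000000, nat_lit 7968000000], [], [nat_lit 19378178120, nat_lit 19917536688, nat_lit 18405679962, nat_lit 18972637432, nat_lit 23305891816, nat_lit 24119792828, nat_lit 22214484884, nat_lit 22674656019], nat_lit 1271250, nat_lit 1271250, nat_lit 230001, nat_lit 490000, nat_lit 1271250, nat_lit 1271250, [nat_lit 1100000, nat_lit 1442500, nat_lit 1271250], [nat_lit 9, nat_lit 40, nat_lit 40, nat_lit 80, nat_lit 2, nat_lit 226, nat_lit 20, nat_lit 7]⟩, ⟨p046_k0, nat_lit 0, nat_lit 0, nat_lit 87, nat_lit 0, nat_lit 0, [nat_lit 4688000000, nat_lit 6250000000, nat_lit 7968000000], [], [nat_lit 11933570730,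 nat_lit 13877062120, nat_lit 11081851610, nat_lit 12949602720, nat_lit 22857795460, nat_lit 24301868660, nat_lit 21624782950, nat_lit 22822603160], nat_lit 0, nat_lit 0, nat_lit 0, nat_lit 0, nat_lit 0, nat_lit 0, [], [nat_lit 9, nat_lit 40, nat_lit 40, nat_lit 80, nat_lit 2, nat_lit 317, nat_lit 100, nat_lit 10]⟩,
 zbF0, [⟨nat_lit 0, nat_lit 100, nat_lit 99, nat_lit 72, nat_lit 513762236⟩, ⟨nat_lit 4, nat_lit 99, nat_lit 100, nat_lit 77, nat_lit 242684568⟩, ⟨nat_lit 19, nat_lit 100, nat_lit 97, nat_lit 76, nat_lit 259457818⟩, ⟨nat_lit 11, nat_lit 100, nat_lit 100, nat_lit 77, nat_lit 445416585⟩]⟩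
noncomputable def p046_l76 : Lf2 := ⟨nat_lit 0, nat_lit 10, [nat_lit 0, nat_lit 5, nat_lit 5, nat_lit 20], true, nat_lit 240, nat_lit 260, nat_lit 0, nat_lit 288, ⟨nat_lit 0, nat_lit 0, nat_lit 1000, nat_lit 6, nat_lit 92, nat_lit 1000, nat_lit 174, nat_lit 1000, nat_lit 101400, nat_lit 293, nat_lit 79350, nat_lit 284, nat_lit 52206012, nat_lit 0, nat_lit 0, nat_lit 3484281, false, false⟩,
 nat_lit 0, nat_lit 7900, nat_lit 0, nat_lit 0, nat_lit 4598, nat_lit 0, nat_lit 0, nat_lit 0, nat_lit 0, nat_lit 0, nat_lit 0, nat_lit 0, nat_lit 0, nat_lit 0, nat_lit 117, nat_lit 571000, nat_lit 0, nat_lit 0, [(nat_lit 9, [(nat_lit 5, nat_lit 715), (nat_lit 6, nat_lit 285)])],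
 ⟨p046_k11, nat_lit 0, nat_lit 0, nat_lit 191, nat_lit 0, nat_lit 133410, [nat_lit 3335700000, nat_lit 1123002000, nat_lit 14036000], [], [nat_lit 16055786008, nat_lit 17311749749, nat_lit 15320767552, nat_lit 16356060296, nat_lit 17319482508, nat_lit 18818701551, nat_lit 16363628511, nat_lit 17856777416], nat_lit 1271250, nat_lit 1271250, nat_lit 134400, nat_lit 230001, nat_lit 1271250, nat_lit 1271250, [nat_lit 1100000, nat_lit 1785000, nat_lit 1271250], [nat_lit 29, nat_lit 40, nat_lit 40, nat_lit 80, nat_lit 17, nat_lit 373, nat_lit 150, nat_lit 10]⟩, C1.Rw.none,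
 ⟨nat_lit 5477, nat_lit 5917, ⟨.ofNat (nat_lit 197129), .ofNat (nat_lit 228543), .ofNat (nat_lit 218469), .ofNat (nat_lit 249882), .ofNat (nat_lit 213007), .ofNat (nat_lit 242980), .ofNat (nat_lit 234364), .ofNat (nat_lit 264337)⟩, ⟨.ofNat (nat_lit 407818), .ofNat (nat_lit 447085), .ofNat (nat_lit 429157), .ofNat (nat_lit 468424), .ofNat (nat_lit 404075), .ofNat (nat_lit 441542), .ofNat (nat_lit 425432), .ofNat (nat_lit 462899)⟩⟩, [⟨nat_lit 0, nat_lit 100, nat_lit 97, nat_lit 59, nat_lit 707189742⟩]⟩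
noncomputable def p046_l77 : Lf2 := ⟨nat_lit 0, nat_lit 10, [nat_lit 0, nat_lit 5, nat_lit 5, nat_lit 20], true, nat_lit 260, nat_lit 280, nat_lit 0, nat_lit 256, ⟨nat_lit 0, nat_lit 0, nat_lit 1000, nat_lit 6, nat_lit 89, nat_lit 1000, nat_lit 190, nat_lit 1000, nat_lit 28439, nat_lit 256, nat_lit 74817, nat_lit 282, nat_lit 50940356, nat_lit 0, nat_lit 0, nat_lit 3610452, false, false⟩,
 nat_lit 0, nat_lit 7751, nat_lit 0, nat_lit 100000, nat_lit 4511, nat_lit 0, nat_lit 0, nat_lit 0, nat_lit 0, nat_lit 0, nat_lit 0, nat_lit 0, nat_lit 0, nat_lit 0, nat_lit 116, nat_lit 563200, nat_lit 0, nat_lit 0, [(nat_lit 9, [(nat_lit 5, nat_lit 728), (nat_lit 6, nat_lit 272)])],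
 ⟨p046_k11, nat_lit 0, nat_lit 0, nat_lit 199, nat_lit 0, nat_lit 133410, [nat_lit 3322560000, nat_lit 1116545067, nat_lit 24131200], [], [nat_lit 17261832306, nat_lit 18746633813, nat_lit 16795964673, nat_lit 18276676063, nat_lit 18842505710, nat_lit 20238903564, nat_lit 18371640494, nat_lit 19766056484], nat_lit 1271250, nat_lit 1271250, nat_lit 134400, nat_lit 181601, nat_lit 1271250, nat_lit 1271250, [nat_lit 1100000, nat_lit 1785000, nat_lit 1271250], [nat_lit 29, nat_lit 40, nat_lit 40, nat_lit 80, nat_lit 17, nat_lit 373, nat_lit 150, nat_lit 10]⟩, C1.Rw.none,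
 ⟨nat_lit 5477, nat_lit 5917, ⟨.ofNat (nat_lit 197129), .ofNat (nat_lit 212836), .ofNat (nat_lit 218469), .ofNat (nat_lit 234175), .ofNat (nat_lit 213007), .ofNat (nat_lit 227994), .ofNat (nat_lit 234364), .ofNat (nat_lit 249351)⟩, ⟨.ofNat (nat_lit 447085), .ofNat (nat_lit 486351), .ofNat (nat_lit 468424), .ofNat (nat_lit 507691), .ofNat (nat_lit 441542), .ofNat (nat_lit 479008), .ofNat (nat_lit 462899), .ofNat (nat_lit 500365)⟩⟩, [⟨nat_lit 0, nat_lit 100, nat_lit 97, nat_lit 59, nat_lit 7865820424⟩, ⟨nat_lit 4, nat_lit 100, nat_lit 100, nat_lit 71, nat_lit 608460530⟩]⟩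
noncomputable def p046_l78 : Lf2 := ⟨nat_lit 0, nat_lit 8, [nat_lit 50, nat_lit 5, nat_lit 5, nat_lit 20], false, nat_lit 260, nat_lit 280, nat_lit 0, nat_lit 160, ⟨nat_lit 1000, nat_lit 0, nat_lit 0, nat_lit 0, nat_lit 0, nat_lit 0, nat_lit 0, nat_lit 0, nat_lit 0, nat_lit 0, nat_lit 0, nat_lit 0, nat_lit 0, nat_lit 0, nat_lit 0, nat_lit 0, false, false⟩,
 nat_lit 0, nat_lit 13530, nat_lit 0, nat_lit 30534, nat_lit 7875, nat_lit 7481, nat_lit 2580, nat_lit 0, nat_lit 0, nat_lit 2705, nat_lit 0, nat_lit 0, nat_lit 0, nat_lit 0, nat_lit 0, nat_lit 0, nat_lit 0, nat_lit 0, [],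
 ⟨p046_k13, nat_lit 0, nat_lit 0, nat_lit 158, nat_lit 0, nat_lit 77647, [nat_lit 4688000000, nat_lit 6250000000, nat_lit 9842000000], [], [nat_lit 18791163213, nat_lit 19618065675, nat_lit 18083811313, nat_lit 18725810750, nat_lit 20793565750, nat_lit 21743897926, nat_lit 19896629750, nat_lit 20845930625], nat_lit 1271250, nat_lit 1271250, nat_lit 181601, nat_lit 230001, nat_lit 1271250, nat_lit 1271250, [nat_lit 1100000, nat_lit 1442500, nat_lit 1271250], [nat_lit 11, nat_lit 40, nat_lit 40, nat_lit 80, nat_lit 1, nat_lit 373, nat_lit 150, nat_lit 10]⟩, ⟨p046_k14, nat_lit 0, nat_lit 0, nat_lit 201, nat_lit 0, nat_lit 0, [nat_lit 4688000000, nat_lit 6250000000, nat_lit 9842000000], [], [nat_lit 19574140907, nat_lit 21420486752, nat_lit 18731982870, nat_lit 20576170806, nat_lit 15135950224, nat_lit 16439707586, nat_lit 14589866662, nat_lit 15888487670], nat_lit 0, nat_lit 0, nat_lit 0, nat_lit 0, nat_lit 0, nat_lit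 0, [], [nat_lit 11, nat_lit 40, nat_lit 40, nat_lit 80, nat_lit 1, nat_lit 345, nat_lit 125, nat_lit 10]⟩,
 zbF0, [⟨nat_lit 0, nat_lit 100, nat_lit 98, nat_lit 64, nat_lit 1829884113⟩, ⟨nat_lit 4, nat_lit 98, nat_lit 100, nat_lit 70, nat_lit 1100890110⟩]⟩
noncomputable def p046_l79 : Lf2 := ⟨nat_lit 0, nat_lit 8, [nat_lit 50, nat_lit 5, nat_lit 5, nat_lit 20], false, nat_lit 260, nat_lit 280, nat_lit 160, nat_lit 268, ⟨nat_lit 1000, nat_lit 0, nat_lit 0, nat_lit 0, nat_lit 0, nat_lit 0, nat_lit 0, nat_lit 0, nat_lit 0, nat_lit 0, nat_lit 0, nat_lit 0, nat_lit 0, nat_lit 0, nat_lit 0, nat_lit 0, false, false⟩,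
 nat_lit 0, nat_lit 13534, nat_lit 0, nat_lit 7928, nat_lit 7877, nat_lit 7083, nat_lit 2575, nat_lit 0, nat_lit 0, nat_lit 0, nat_lit 0, nat_lit 0, nat_lit 0, nat_lit 0, nat_lit 0, nat_lit 0, nat_lit 0, nat_lit 0, [],
 ⟨p046_k13, nat_lit 0, nat_lit 0, nat_lit 158, nat_lit 0, nat_lit 77647, [nat_lit 4688000000, nat_lit 6250000000, nat_lit 9842000000], [], [nat_lit 18810493730, nat_lit 19619303820, nat_lit 18102936169, nat_lit 18726813339, nat_lit 20795005658, nat_lit 21745488323, nat_lit 19897816346, nat_lit 20847267687], nat_lit 1271250, nat_lit 1271250, nat_lit 181601, nat_lit 230001, nat_lit 1271250, nat_lit 1271250, [nat_lit 1100000, nat_lit 1442500, nat_lit 1271250], [nat_lit 11, nat_lit 40, nat_lit 40, nat_lit 80, nat_lit 1, nat_lit 373, nat_lit 150, nat_lit 10]⟩, ⟨p046_k14, nat_lit 0, nat_lit 0, nat_lit 55, nat_lit 0, nat_lit 0, [nat_lit 4688000000, nat_lit 6250000000, nat_lit 9842000000], [], [nat_lit 9676149240,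 nat_lit 11756350679, nat_lit 9068910636, nat_lit 11141664842, nat_lit 17248909590, nat_lit 18993513080, nat_lit 16629157291, nat_lit 18199681917], nat_lit 0, nat_lit 0, nat_lit 0, nat_lit 0, nat_lit 0, nat_lit 0, [], [nat_lit 11, nat_lit 40, nat_lit 40, nat_lit 80, nat_lit 1, nat_lit 373, nat_lit 150, nat_lit 11]⟩,
 zbF0, [⟨nat_lit 0, nat_lit 100, nat_lit 98, nat_lit 64, nat_lit 934450353⟩, ⟨nat_lit 16, nat_lit 100, nat_lit 98, nat_lit 70, nat_lit 339293382⟩, ⟨nat_lit 23, nat_lit 100, nat_lit 99, nat_lit 63, nat_lit 854908463⟩]⟩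
noncomputable def p046_l80 : Lf2 := ⟨nat_lit 1, nat_lit 10, [nat_lit 0, nat_lit 5, nat_lit 5, nat_lit 20], false, nat_lit 260, nat_lit 280, nat_lit 0, nat_lit 268, zbN0,
 nat_lit 0, nat_lit 0, nat_lit 0, nat_lit 0, nat_lit 0, nat_lit 0, nat_lit 0, nat_lit 0, nat_lit 0, nat_lit 0, nat_lit 0, nat_lit 0, nat_lit 0, nat_lit 0, nat_lit 0, nat_lit 0, nat_lit 0, nat_lit 0, [],
 C1.Rw.none, C1.Rw.none,
 zbF0, []⟩
noncomputable def p046_l81 : Lf2 := ⟨nat_lit 0, nat_lit 10, [nat_lit 0, nat_lit 5, nat_lit 5, nat_lit 20], true, nat_lit 260, nat_lit 280, nat_lit 0, nat_lit 268, ⟨nat_lit 0, nat_lit 0, nat_lit 1000, nat_lit 6, nat_lit 97, nat_lit 1000, nat_lit 189, nat_lit 1000, nat_lit 34222, nat_lit 259, nat_lit 88817, nat_lit 288, nat_lit 50528627, nat_lit 0, nat_lit 0, nat_lit 3709348, false, false⟩,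
 nat_lit 0, nat_lit 7161, nat_lit 0, nat_lit 1049, nat_lit 4361, nat_lit 0, nat_lit 63, nat_lit 0, nat_lit 0, nat_lit 0, nat_lit 0, nat_lit 0, nat_lit 0, nat_lit 0, nat_lit 87, nat_lit 400000, nat_lit 0, nat_lit 0, [(nat_lit 9, [(nat_lit 5, nat_lit 1000)])],
 ⟨p046_k12, nat_lit 0, nat_lit 0, nat_lit 186, nat_lit 0, nat_lit 126315, [nat_lit 2918400000, nat_lit 787600001, nat_lit 9200000], [], [nat_lit 17751274662, nat_lit 18229147878, nat_lit 17405945393, nat_lit 17934678671, nat_lit 18949568639, nat_lit 19635489884, nat_lit 18497679745, nat_lit 19181644804], nat_lit 1271250, nat_lit 1271250, nat_lit 181601, nat_lit 230001, nat_lit 1271250, nat_lit 1271250, [nat_lit 1100000, nat_lit 1785000, nat_lit 1271250], [nat_lit 29, nat_lit 40, nat_lit 40, nat_lit 80, nat_lit 17, nat_lit 373, nat_lit 150, nat_lit 10]⟩, C1.Rw.none,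
 ⟨nat_lit 5477, nat_lit 5701, ⟨.ofNat (nat_lit 220462), .ofNat (nat_lit 235806), .ofNat (nat_lit 241804), .ofNat (nat_lit 257148), .ofNat (nat_lit 227994), .ofNat (nat_lit 242980), .ofNat (nat_lit 249351), .ofNat (nat_lit 264337)⟩, ⟨.ofNat (nat_lit 444341), .ofNat (nat_lit 482701), .ofNat (nat_lit 465683), .ofNat (nat_lit 504043), .ofNat (nat_lit 441542), .ofNat (nat_lit 479008), .ofNat (nat_lit 462899), .ofNat (nat_lit 500365)⟩⟩, [⟨nat_lit 0, nat_lit 100, nat_lit 96, nat_lit 61, nat_lit 989368078⟩, ⟨nat_lit 16, nat_lit 98, nat_lit 100, nat_lit 70, nat_lit 378362711⟩]⟩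
noncomputable def p046_l82 : Lf2 := ⟨nat_lit 0, nat_lit 8, [nat_lit 50, nat_lit 5, nat_lit 5, nat_lit 20], true, nat_lit 240, nat_lit 280, nat_lit 0, nat_lit 312, ⟨nat_lit 0, nat_lit 0, nat_lit 1000, nat_lit 6, nat_lit 112, nat_lit 1000, nat_lit 183, nat_lit 1000, nat_lit 28439, nat_lit 256, nat_lit 117600, nat_lit 299, nat_lit 50123713, nat_lit 0, nat_lit 0, nat_lit 3846316, false, false⟩,
 nat_lit 0, nat_lit 7062, nat_lit 0, nat_lit 3116, nat_lit 4110, nat_lit 0, nat_lit 0, nat_lit 0, nat_lit 0, nat_lit 0, nat_lit 0, nat_lit 0, nat_lit 0, nat_lit 0, nat_lit 87, nat_lit 400000, nat_lit 0, nat_lit 0, [(nat_lit 9, [(nat_lit 5, nat_lit 1000)])],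
 ⟨p046_k15, nat_lit 0, nat_lit 0, nat_lit 123, nat_lit 0, nat_lit 51113, [nat_lit 2918400000, nat_lit 787600001, nat_lit 9200000], [], [nat_lit 15140591320, nat_lit 15460553880, nat_lit 14788671560, nat_lit 15097386120, nat_lit 17709561800, nat_lit 17996821365, nat_lit 17267315330, nat_lit 17544951833], nat_lit 1271250, nat_lit 1271250, nat_lit 230001, nat_lit 490000, nat_lit 1271250, nat_lit 1271250, [nat_lit 1100000, nat_lit 1785000, nat_lit 1271250], [nat_lit 29, nat_lit 40, nat_lit 40, nat_lit 80, nat_lit 17, nat_lit 401, nat_lit 175, nat_lit 11]⟩, C1.Rw.none,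
 ⟨nat_lit 5809, nat_lit 5917, ⟨.ofNat (nat_lit 228543), .ofNat (nat_lit 307076), .ofNat (nat_lit 249882), .ofNat (nat_lit 328416), .ofNat (nat_lit 232187), .ofNat (nat_lit 309809), .ofNat (nat_lit 253526), .ofNat (nat_lit 331148)⟩, ⟨.ofNat (nat_lit 407818), .ofNat (nat_lit 486351), .ofNat (nat_lit 429157), .ofNat (nat_lit 507691), .ofNat (nat_lit 406908), .ofNat (nat_lit 484530), .ofNat (nat_lit 428247), .ofNat (nat_lit 505870)⟩⟩, [⟨nat_lit 16, nat_lit 100, nat_lit 97, nat_lit 70, nat_lit 427520706⟩]⟩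
noncomputable def p046_l83 : Lf2 := ⟨nat_lit 0, nat_lit 8, [nat_lit 50, nat_lit 5, nat_lit 5, nat_lit 20], true, nat_lit 240, nat_lit 280, nat_lit 0, nat_lit 312, ⟨nat_lit 0, nat_lit 0, nat_lit 1000, nat_lit 6, nat_lit 113, nat_lit 1000, nat_lit 182, nat_lit 1000, nat_lit 33895, nat_lit 258, nat_lit 120417, nat_lit 300, nat_lit 50087679, nat_lit 0, nat_lit 0, nat_lit 3857219, false, false⟩,
 nat_lit 0, nat_lit 6926, nat_lit 0, nat_lit 0, nat_lit 4124, nat_lit 0, nat_lit 110, nat_lit 0, nat_lit 0, nat_lit 0, nat_lit 0, nat_lit 0, nat_lit 0, nat_lit 0, nat_lit 87, nat_lit 400000, nat_lit 0, nat_lit 0, [(nat_lit 9, [(nat_lit 5, nat_lit 1000)])],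
 ⟨p046_k16, nat_lit 0, nat_lit 0, nat_lit 150, nat_lit 0, nat_lit 75555, [nat_lit 2918400000, nat_lit 787600001, nat_lit 9200000], [], [nat_lit 16315582960, nat_lit 16525742952, nat_lit 15921298836, nat_lit 16124134432, nat_lit 18005991646, nat_lit 18338270844, nat_lit 17553404847, nat_lit 17811599714], nat_lit 1271250, nat_lit 1271250, nat_lit 230001, nat_lit 490000, nat_lit 1271250, nat_lit 1271250, [nat_lit 1100000, nat_lit 1785000, nat_lit 1271250], [nat_lit 29, nat_lit 40, nat_lit 40, nat_lit 80, nat_lit 17, nat_lit 401, nat_lit 175, nat_lit 11]⟩, C1.Rw.none,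
 ⟨nat_lit 5700, nat_lit 5810, ⟨.ofNat (nat_lit 232187), .ofNat (nat_lit 309809), .ofNat (nat_lit 253526), .ofNat (nat_lit 331148), .ofNat (nat_lit 235806), .ofNat (nat_lit 312525), .ofNat (nat_lit 257148), .ofNat (nat_lit 333867)⟩, ⟨.ofNat (nat_lit 406908), .ofNat (nat_lit 484530), .ofNat (nat_lit 428247), .ofNat (nat_lit 505870), .ofNat (nat_lit 405982), .ofNat (nat_lit 482701), .ofNat (nat_lit 427324), .ofNat (nat_lit 504043)⟩⟩, [⟨nat_lit 0, nat_lit 100, nat_lit 98, nat_lit 64, nat_lit 165245152⟩, ⟨nat_lit 4, nat_lit 99, nat_lit 100, nat_lit 70, nat_lit 275873580⟩]⟩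
noncomputable def p046_l84 : Lf2 := ⟨nat_lit 1, nat_lit 10, [nat_lit 0, nat_lit 5, nat_lit 5, nat_lit 20], false, nat_lit 240, nat_lit 280, nat_lit 0, nat_lit 312, zbN0,
 nat_lit 0, nat_lit 0, nat_lit 0, nat_lit 0, nat_lit 0, nat_lit 0, nat_lit 0, nat_lit 0, nat_lit 0, nat_lit 0, nat_lit 0, nat_lit 0, nat_lit 0, nat_lit 0, nat_lit 0, nat_lit 0, nat_lit 0, nat_lit 0, [],
 C1.Rw.none, C1.Rw.none,
 zbF0, []⟩
noncomputable def p046_l85 : Lf2 := ⟨nat_lit 0, nat_lit 10, [nat_lit 0, nat_lit 5, nat_lit 5, nat_lit 20], true, nat_lit 240, nat_lit 280, nat_lit 0, nat_lit 312, ⟨nat_lit 0, nat_lit 0, nat_lit 1000, nat_lit 6, nat_lit 115, nat_lit 1000, nat_lit 181, nat_lit 1000, nat_lit 34222, nat_lit 259, nat_lit 123267, nat_lit 301, nat_lit 50034556, nat_lit 0, nat_lit 0, nat_lit 3873121, false, false⟩,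
 nat_lit 0, nat_lit 7161, nat_lit 0, nat_lit 0, nat_lit 4361, nat_lit 0, nat_lit 46, nat_lit 0, nat_lit 0, nat_lit 0, nat_lit 0, nat_lit 0, nat_lit 0, nat_lit 0, nat_lit 87, nat_lit 400000, nat_lit 0, nat_lit 0, [(nat_lit 9, [(nat_lit 5, nat_lit 1000)])],
 ⟨p046_k12, nat_lit 0, nat_lit 0, nat_lit 175, nat_lit 0, nat_lit 126315, [nat_lit 2918400000, nat_lit 787600001, nat_lit 9200000], [], [nat_lit 16507477328, nat_lit 17006895810, nat_lit 16042950048, nat_lit 16533733024, nat_lit 18497679745, nat_lit 19181644804, nat_lit 18101211776, nat_lit 18584375798], nat_lit 1271250, nat_lit 1271250, nat_lit 230001, nat_lit 490000, nat_lit 1271250, nat_lit 1271250, [nat_lit 1100000, nat_lit 1785000, nat_lit 1271250], [nat_lit 29, nat_lit 40, nat_lit 40, nat_lit 80, nat_lit 17, nat_lit 401, nat_lit 175, nat_lit 11]⟩, C1.Rw.none,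
 ⟨nat_lit 5477, nat_lit 5701, ⟨.ofNat (nat_lit 235806), .ofNat (nat_lit 312525), .ofNat (nat_lit 257148), .ofNat (nat_lit 333867), .ofNat (nat_lit 242980), .ofNat (nat_lit 317913), .ofNat (nat_lit 264337), .ofNat (nat_lit 339271)⟩, ⟨.ofNat (nat_lit 405982), .ofNat (nat_lit 482701), .ofNat (nat_lit 427324), .ofNat (nat_lit 504043), .ofNat (nat_lit 404075), .ofNat (nat_lit 479008), .ofNat (nat_lit 425432), .ofNat (nat_lit 500365)⟩⟩, [⟨nat_lit 0, nat_lit 100, nat_lit 96, nat_lit 69, nat_lit 167206927⟩, ⟨nat_lit 16, nat_lit 100, nat_lit 97, nat_lit 76, nat_lit 78508671⟩, ⟨nat_lit 4, nat_lit 100, nat_lit 98, nat_lit 70, nat_lit 252949809⟩]⟩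
noncomputable def p046_l86 : Lf2 := ⟨nat_lit 0, nat_lit 10, [nat_lit 0, nat_lit 5, nat_lit 5, nat_lit 20], true, nat_lit 280, nat_lit 296, nat_lit 0, nat_lit 300, ⟨nat_lit 0, nat_lit 0, nat_lit 1000, nat_lit 6, nat_lit 108, nat_lit 1000, nat_lit 203, nat_lit 1000, nat_lit 11818, nat_lit 238, nat_lit 109350, nat_lit 296, nat_lit 48493279, nat_lit 0, nat_lit 0, nat_lit 3993170, false, false⟩,
 nat_lit 0, nat_lit 7464, nat_lit 0, nat_lit 100000, nat_lit 4344, nat_lit 0, nat_lit 0, nat_lit 0, nat_lit 0, nat_lit 0, nat_lit 0, nat_lit 0, nat_lit 0, nat_lit 0, nat_lit 87, nat_lit 400000, nat_lit 0, nat_lit 0, [(nat_lit 9, [(nat_lit 5, nat_lit 1000)])],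
 ⟨p046_k11, nat_lit 0, nat_lit 0, nat_lit 204, nat_lit 0, nat_lit 133410, [nat_lit 2918400000, nat_lit 787600001, nat_lit 9200000], [], [nat_lit 19000400871, nat_lit 20072383856, nat_lit 17664077656, nat_lit 18613083392, nat_lit 19941082973, nat_lit 21243653428, nat_lit 18508558577, nat_lit 19483583028], nat_lit 1271250, nat_lit 1271250, nat_lit 134400, nat_lit 490000, nat_lit 1271250, nat_lit 1271250, [nat_lit 1100000, nat_lit 1785000, nat_lit 1271250], [nat_lit 29, nat_lit 40, nat_lit 40, nat_lit 80, nat_lit 17, nat_lit 317, nat_lit 100, nat_lit 9]⟩, C1.Rw.none,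
 ⟨nat_lit 5477, nat_lit 5917, ⟨.ofNat (nat_lit 197129), .ofNat (nat_lit 307076), .ofNat (nat_lit 218469), .ofNat (nat_lit 328416), .ofNat (nat_lit 213007), .ofNat (nat_lit 317913), .ofNat (nat_lit 234364), .ofNat (nat_lit 339271)⟩, ⟨.ofNat (nat_lit 486351), .ofNat (nat_lit 517765), .ofNat (nat_lit 507691), .ofNat (nat_lit 539104), .ofNat (nat_lit 479008), .ofNat (nat_lit 508982), .ofNat (nat_lit 500365), .ofNat (nat_lit 530339)⟩⟩, [⟨nat_lit 0, nat_lit 100, nat_lit 96, nat_lit 69, nat_lit 244106873⟩, ⟨nat_lit 16, nat_lit 100, nat_lit 92, nat_lit 75, nat_lit 6200307061⟩]⟩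
noncomputable def p046_l87 : Lf2 := ⟨nat_lit 0, nat_lit 6, [nat_lit 47, nat_lit 5, nat_lit 5, nat_lit 20], true, nat_lit 240, nat_lit 320, nat_lit 0, nat_lit 288, ⟨nat_lit 0, nat_lit 49, nat_lit 951, nat_lit 6, nat_lit 92, nat_lit 1000, nat_lit 206, nat_lit 951, nat_lit 4618, nat_lit 210, nat_lit 79350, nat_lit 284, nat_lit 49197293, nat_lit 3984459, nat_lit 13818248, nat_lit 3812877, false, false⟩,
 nat_lit 0, nat_lit 100000, nat_lit 0, nat_lit 100000, nat_lit 4735, nat_lit 0, nat_lit 0, nat_lit 0, nat_lit 0, nat_lit 0, nat_lit 0, nat_lit 0, nat_lit 0, nat_lit 0, nat_lit 45, nat_lit 392650, nat_lit 0, nat_lit 0, [(nat_lit 9, [(nat_lit 0, nat_lit 49), (nat_lit 5, nat_lit 951)])],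
 ⟨p046_k17, nat_lit 0, nat_lit 0, nat_lit 132, nat_lit 0, nat_lit 19058, [nat_lit 2324329600, nat_lit 7685200], [], [nat_lit 16005715209, nat_lit 17402115716, nat_lit 15361491660, nat_lit 16412564420, nat_lit 22275909030, nat_lit 23522402964, nat_lit 21263707670, nat_lit 22508225380], nat_lit 1271250, nat_lit 1271250, nat_lit 134400, nat_lit 230001, nat_lit 1271250, nat_lit 1271250, [nat_lit 1100000, nat_lit 1785000], [nat_lit 39, nat_lit 40, nat_lit 40, nat_lit 80, nat_lit 7, nat_lit 215, nat_lit 10, nat_lit 6]⟩, C1.Rw.none,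
 ⟨nat_lit 5477, nat_lit 5917, ⟨.ofNat (nat_lit 197129), .ofNat (nat_lit 228543), .ofNat (nat_lit 218469), .ofNat (nat_lit 249882), .ofNat (nat_lit 213007), .ofNat (nat_lit 242980), .ofNat (nat_lit 234364), .ofNat (nat_lit 264337)⟩, ⟨.ofNat (nat_lit 429157), .ofNat (nat_lit 586223), .ofNat (nat_lit 450496), .ofNat (nat_lit 607556), .ofNat (nat_lit 425432), .ofNat (nat_lit 575297), .ofNat (nat_lit 446789), .ofNat (nat_lit 596648)⟩⟩, [⟨nat_lit 0, nat_lit 100, nat_lit 97, nat_lit 59, nat_lit 10309278351⟩, ⟨nat_lit 0, nat_lit 100, nat_lit 96, nat_lit 69, nat_lit 2049244098⟩, ⟨nat_lit 4, nat_lit 93, nat_lit 100, nat_lit 81, nat_lit 477556523⟩]⟩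
noncomputable def p046_l88 : Lf2 := ⟨nat_lit 0, nat_lit 6, [nat_lit 47, nat_lit 5, nat_lit 5, nat_lit 20], true, nat_lit 240, nat_lit 320, nat_lit 0, nat_lit 336, ⟨nat_lit 0, nat_lit 1000, nat_lit 0, nat_lit 6, nat_lit 114, nat_lit 1000, nat_lit 206, nat_lit 0, nat_lit 0, nat_lit 0, nat_lit 0, nat_lit 0, nat_lit 47885031, nat_lit 5432765, nat_lit 13682204, nat_lit 4092344, false, false⟩,
 nat_lit 0, nat_lit 8668, nat_lit 0, nat_lit 3018, nat_lit 5045, nat_lit 0, nat_lit 0, nat_lit 0, nat_lit 0, nat_lit 0, nat_lit 0, nat_lit 0, nat_lit 0, nat_lit 0, nat_lit 0, nat_lit 250000, nat_lit 0, nat_lit 0, [(nat_lit 9, [(nat_lit 0, nat_lit 1000)])],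
 ⟨p046_k17, nat_lit 0, nat_lit 0, nat_lit 121, nat_lit 0, nat_lit 19058, [nat_lit 3116800000, nat_lit 3354400000], [], [nat_lit 15939618540, nat_lit 17355402820, nat_lit 15328314820, nat_lit 16692375100, nat_lit 21630645660, nat_lit 22843182860, nat_lit 20811459450, nat_lit 21884272360], nat_lit 1271250, nat_lit 1271250, nat_lit 230001, nat_lit 490000, nat_lit 1271250, nat_lit 1271250, [nat_lit 1100000, nat_lit 1785000], [nat_lit 39, nat_lit 40, nat_lit 40, nat_lit 80, nat_lit 7, nat_lit 226, nat_lit 20, nat_lit 7]⟩, C1.Rw.none,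
 ⟨nat_lit 5477, nat_lit 5917, ⟨.ofNat (nat_lit 228543), .ofNat (nat_lit 307076), .ofNat (nat_lit 249882), .ofNat (nat_lit 328416), .ofNat (nat_lit 242980), .ofNat (nat_lit 317913), .ofNat (nat_lit 264337), .ofNat (nat_lit 339271)⟩, ⟨.ofNat (nat_lit 429157), .ofNat (nat_lit 586223), .ofNat (nat_lit 450496), .ofNat (nat_lit 607556), .ofNat (nat_lit 425432), .ofNat (nat_lit 575297), .ofNat (nat_lit 446789), .ofNat (nat_lit 596648)⟩⟩, [⟨nat_lit 0, nat_lit 100, nat_lit 96, nat_lit 69, nat_lit 183637343⟩, ⟨nat_lit 16, nat_lit 100, nat_lit 93, nat_lit 81, nat_lit 342231577⟩]⟩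
noncomputable def p046_l89 : Lf2 := ⟨nat_lit 1, nat_lit 10, [nat_lit 0, nat_lit 5, nat_lit 5, nat_lit 20], false, nat_lit 240, nat_lit 320, nat_lit 0, nat_lit 336, zbN0,
 nat_lit 0, nat_lit 0, nat_lit 0, nat_lit 0, nat_lit 0, nat_lit 0, nat_lit 0, nat_lit 0, nat_lit 0, nat_lit 0, nat_lit 0, nat_lit 0, nat_lit 0, nat_lit 0, nat_lit 0, nat_lit 0, nat_lit 0, nat_lit 0, [],
 C1.Rw.none, C1.Rw.none,
 zbF0, []⟩
noncomputable def p046_l90 : Lf2 := ⟨nat_lit 0, nat_lit 10, [nat_lit 0, nat_lit 5, nat_lit 5, nat_lit 20], false, nat_lit 240, nat_lit 320, nat_lit 0, nat_lit 160, ⟨nat_lit 1000, nat_lit 0, nat_lit 0, nat_lit 0, nat_lit 0, nat_lit 0, nat_lit 0, nat_lit 0, nat_lit 0, nat_lit 0, nat_lit 0, nat_lit 0, nat_lit 0, nat_lit 0, nat_lit 0, nat_lit 0, false, false⟩,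
 nat_lit 0, nat_lit 17586, nat_lit 0, nat_lit 9119, nat_lit 10236, nat_lit 7417, nat_lit 1312, nat_lit 0, nat_lit 0, nat_lit 2667, nat_lit 0, nat_lit 0, nat_lit 0, nat_lit 15399227656149, nat_lit 0, nat_lit 0, nat_lit 0, nat_lit 0, [],
 ⟨p046_k3, nat_lit 0, nat_lit 0, nat_lit 228, nat_lit 0, nat_lit 249092, [nat_lit 4688000000, nat_lit 6250000000, nat_lit 9842000000], [], [nat_lit 21171342612, nat_lit 22714761000, nat_lit 18366804416, nat_lit 19847113888, nat_lit 27514300145, nat_lit 29055142618, nat_lit 24449909112, nat_lit 25543223408], nat_lit 1271250, nat_lit 1271250, nat_lit 205650, nat_lit 490000, nat_lit 1271250, nat_lit 1271250, [nat_lit 1100000, nat_lit 1442500, nat_lit 1271250], [nat_lit 11, nat_lit 40, nat_lit 40, nat_lit 80, nat_lit 1, nat_lit 401, nat_lit 175, nat_lit 11]⟩, ⟨p046_k3, nat_lit 0, nat_lit 0, nat_lit 207, nat_lit 0, nat_lit 0, [nat_lit 4688000000, nat_lit 6250000000, nat_lit 9842000000],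 [], [nat_lit 19021341256, nat_lit 20856939397, nat_lit 16754648199, nat_lit 18530883765, nat_lit 14322987660, nat_lit 15683172878, nat_lit 12900290005, nat_lit 14404780877], nat_lit 0, nat_lit 0, nat_lit 0, nat_lit 0, nat_lit 0, nat_lit 0, [], [nat_lit 11, nat_lit 40, nat_lit 40, nat_lit 80, nat_lit 1, nat_lit 373, nat_lit 150, nat_lit 11]⟩,
 zbF0, [⟨nat_lit 0, nat_lit 100, nat_lit 100, nat_lit 70, nat_lit 1174190808⟩, ⟨nat_lit 16, nat_lit 100, nat_lit 97, nat_lit 76, nat_lit 842706300⟩]⟩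
noncomputable def p046_l91 : Lf2 := ⟨nat_lit 0, nat_lit 10, [nat_lit 0, nat_lit 5, nat_lit 5, nat_lit 20], false, nat_lit 240, nat_lit 280, nat_lit 160, nat_lit 312, ⟨nat_lit 1000, nat_lit 0, nat_lit 0, nat_lit 0, nat_lit 0, nat_lit 0, nat_lit 0, nat_lit 0, nat_lit 0, nat_lit 0, nat_lit 0, nat_lit 0, nat_lit 0, nat_lit 0, nat_lit 0, nat_lit 0, false, false⟩,
 nat_lit 0, nat_lit 13122, nat_lit 0, nat_lit 5623, nat_lit 7637, nat_lit 6431, nat_lit 2403, nat_lit 0, nat_lit 0, nat_lit 0, nat_lit 0, nat_lit 0, nat_lit 0, nat_lit 1849739801601, nat_lit 0, nat_lit 0, nat_lit 0, nat_lit 0, [],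
 ⟨p046_k3, nat_lit 0, nat_lit 0, nat_lit 174, nat_lit 0, nat_lit 136294, [nat_lit 4688000000, nat_lit 6250000000, nat_lit 9842000000], [], [nat_lit 17874785254, nat_lit 18527417365, nat_lit 16793490377, nat_lit 17396447569, nat_lit 20546924908, nat_lit 21120730405, nat_lit 19375364711, nat_lit 19945092884], nat_lit 1271250, nat_lit 1271250, nat_lit 205650, nat_lit 356250, nat_lit 1271250, nat_lit 1271250, [nat_lit 1100000, nat_lit 1442500, nat_lit 1271250], [nat_lit 11, nat_lit 40, nat_lit 40, nat_lit 80, nat_lit 1, nat_lit 401, nat_lit 175, nat_lit 11]⟩, ⟨p046_k3, nat_lit 0, nat_lit 0, nat_lit 83, nat_lit 0, nat_lit 0, [nat_lit 4688000000, nat_lit 6250000000, nat_lit 9842000000], [], [nat_lit 12165673903, nat_lit 13142549313, nat_lit 11461524826, nat_lit 12417635751, nat_lit 22482025826, nat_lit 23229644898, nat_lit 21587919527, nat_lit 22217439336], nat_lit 0, nat_lit 0, nat_lit 0, nat_lit 0, nat_lit 0, nat_lit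 0, [], [nat_lit 11, nat_lit 40, nat_lit 40, nat_lit 80, nat_lit 1, nat_lit 401, nat_lit 175, nat_lit 11]⟩,
 zbF0, [⟨nat_lit 0, nat_lit 100, nat_lit 100, nat_lit 65, nat_lit 618857686⟩, ⟨nat_lit 4, nat_lit 95, nat_lit 100, nat_lit 76, nat_lit 268685402⟩, ⟨nat_lit 19, nat_lit 100, nat_lit 95, nat_lit 76, nat_lit 261261125⟩, ⟨nat_lit 11, nat_lit 100, nat_lit 100, nat_lit 69, nat_lit 504916485⟩]⟩
noncomputable def p046_l92 : Lf2 := ⟨nat_lit 0, nat_lit 10, [nat_lit 0, nat_lit 5, nat_lit 5, nat_lit 20], false, nat_lit 240, nat_lit 280, nat_lit 160, nat_lit 320, ⟨nat_lit 1000, nat_lit 0, nat_lit 0, nat_lit 0, nat_lit 0, nat_lit 0, nat_lit 0, nat_lit 0, nat_lit 0, nat_lit 0, nat_lit 0, nat_lit 0, nat_lit 0, nat_lit 0, nat_lit 0, nat_lit 0, false, false⟩,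
 nat_lit 0, nat_lit 13295, nat_lit 0, nat_lit 5497, nat_lit 7738, nat_lit 6476, nat_lit 2441, nat_lit 0, nat_lit 0, nat_lit 0, nat_lit 0, nat_lit 0, nat_lit 0, nat_lit 0, nat_lit 0, nat_lit 0, nat_lit 0, nat_lit 0, [],
 ⟨p046_k3, nat_lit 0, nat_lit 0, nat_lit 156, nat_lit 0, nat_lit 136294, [nat_lit 4688000000, nat_lit 6250000000, nat_lit 9842000000], [], [nat_lit 16545867295, nat_lit 17189992931, nat_lit 15858659839, nat_lit 16514074301, nat_lit 19183289039, nat_lit 19751920836, nat_lit 18519298185, nat_lit 19099044042], nat_lit 1271250, nat_lit 1271250, nat_lit 356250, nat_lit 490000, nat_lit 1271250, nat_lit 1271250, [nat_lit 1100000, nat_lit 1442500, nat_lit 1271250], [nat_lit 11, nat_lit 40, nat_lit 40, nat_lit 80, nat_lit 1, nat_lit 401, nat_lit 175, nat_lit 11]⟩, ⟨p046_k3, nat_lit 0, nat_lit 0, nat_lit 70, nat_lit 0, nat_lit 0, [nat_lit 4688000000, nat_lit 6250000000, nat_lit 9842000000], [], [nat_lit 11403791896,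 nat_lit 12364028196, nat_lit 10967246168, nat_lit 11908363852, nat_lit 22208231404, nat_lit 22821699478, nat_lit 21579310360, nat_lit 22181970684], nat_lit 0, nat_lit 0, nat_lit 0, nat_lit 0, nat_lit 0, nat_lit 0, [], [nat_lit 11, nat_lit 40, nat_lit 40, nat_lit 80, nat_lit 1, nat_lit 401, nat_lit 175, nat_lit 11]⟩,
 zbF0, [⟨nat_lit 4, nat_lit 95, nat_lit 100, nat_lit 76, nat_lit 277719858⟩, ⟨nat_lit 19, nat_lit 100, nat_lit 95, nat_lit 76, nat_lit 273902575⟩, ⟨nat_lit 11, nat_lit 100, nat_lit 100, nat_lit 84, nat_lit 408511649⟩]⟩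
noncomputable def p046_l93 : Lf2 := ⟨nat_lit 0, nat_lit 10, [nat_lit 0, nat_lit 5, nat_lit 5, nat_lit 20], false, nat_lit 240, nat_lit 280, nat_lit 160, nat_lit 320, ⟨nat_lit 1000, nat_lit 0, nat_lit 0, nat_lit 0, nat_lit 0, nat_lit 0, nat_lit 0, nat_lit 0, nat_lit 0, nat_lit 0, nat_lit 0, nat_lit 0, nat_lit 0, nat_lit 0, nat_lit 0, nat_lit 0, false, false⟩,
 nat_lit 0, nat_lit 14740, nat_lit 0, nat_lit 0, nat_lit 8976, nat_lit 6395, nat_lit 1470, nat_lit 0, nat_lit 0, nat_lit 0, nat_lit 0, nat_lit 0, nat_lit 0, nat_lit 0, nat_lit 0, nat_lit 0, nat_lit 0, nat_lit 0, [],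
 ⟨p046_k12, nat_lit 0, nat_lit 0, nat_lit 222, nat_lit 0, nat_lit 235556, [nat_lit 4688000000, nat_lit 7968000001, nat_lit 9842000000], [], [nat_lit 18905010642, nat_lit 19618121210, nat_lit 16921499082, nat_lit 17607714905, nat_lit 21903380689, nat_lit 22614777017, nat_lit 19908620217, nat_lit 20592559081], nat_lit 1271250, nat_lit 1271250, nat_lit 230001, nat_lit 490000, nat_lit 1271250, nat_lit 1271250, [nat_lit 1100000, nat_lit 1785000, nat_lit 1271250], [nat_lit 29, nat_lit 40, nat_lit 40, nat_lit 80, nat_lit 17, nat_lit 401, nat_lit 175, nat_lit 11]⟩, ⟨p046_k11, nat_lit 0, nat_lit 0, nat_lit 108, nat_lit 0, nat_lit 0, [nat_lit 4688000000, nat_lit 7968000000, nat_lit 9842000000], [], [nat_lit 11933570730, nat_lit 13877062120, nat_lit 11081851610, nat_lit 12949602720, nat_lit 22857795460, nat_lit 24301868660, nat_lit 21624782950, nat_lit 22822603160], nat_lit 0, nat_lit 0, nat_lit 0, nat_lit 0, nat_lit 0, nat_lit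 0, [], [nat_lit 29, nat_lit 40, nat_lit 40, nat_lit 80, nat_lit 17, nat_lit 401, nat_lit 175, nat_lit 11]⟩,
 zbF0, [⟨nat_lit 0, nat_lit 100, nat_lit 99, nat_lit 72, nat_lit 616922964⟩, ⟨nat_lit 4, nat_lit 99, nat_lit 100, nat_lit 77, nat_lit 317815005⟩, ⟨nat_lit 19, nat_lit 100, nat_lit 97, nat_lit 76, nat_lit 224639767⟩, ⟨nat_lit 11, nat_lit 100, nat_lit 100, nat_lit 77, nat_lit 470991075⟩]⟩
noncomputable def p046_l94 : Lf2 := ⟨nat_lit 0, nat_lit 10, [nat_lit 0, nat_lit 5, nat_lit 5, nat_lit 20], false, nat_lit 280, nat_lit 320, nat_lit 160, nat_lit 300, ⟨nat_lit 1000, nat_lit 0, nat_lit 0, nat_lit 0, nat_lit 0, nat_lit 0, nat_lit 0, nat_lit 0, nat_lit 0, nat_lit 0, nat_lit 0, nat_lit 0, nat_lit 0, nat_lit 0, nat_lit 0, nat_lit 0, false, false⟩,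
 nat_lit 0, nat_lit 13072, nat_lit 0, nat_lit 2323, nat_lit 7609, nat_lit 6525, nat_lit 2319, nat_lit 0, nat_lit 0, nat_lit 0, nat_lit 0, nat_lit 0, nat_lit 0, nat_lit 8821404736130, nat_lit 0, nat_lit 0, nat_lit 0, nat_lit 0, [],
 ⟨p046_k3, nat_lit 0, nat_lit 0, nat_lit 228, nat_lit 0, nat_lit 249092, [nat_lit 4688000000, nat_lit 6250000000, nat_lit 9842000000], [], [nat_lit 20885753765, nat_lit 22030844661, nat_lit 18895946266, nat_lit 19998424187, nat_lit 24458946534, nat_lit 26049745335, nat_lit 21942722404, nat_lit 23487033892], nat_lit 1271250, nat_lit 1271250, nat_lit 205650, nat_lit 490000, nat_lit 1271250, nat_lit 1271250, [nat_lit 1100000, nat_lit 1442500, nat_lit 1271250], [nat_lit 11, nat_lit 40, nat_lit 40, nat_lit 80, nat_lit 1, nat_lit 317, nat_lit 100, nat_lit 8]⟩, ⟨p046_k3, nat_lit 0, nat_lit 0, nat_lit 81, nat_lit 0, nat_lit 0, [nat_lit 4688000000, nat_lit 6250000000, nat_lit 9842000000], [], [nat_lit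 12062350870, nat_lit 14033795460, nat_lit 10897916950, nat_lit 12788914400, nat_lit 21470781505, nat_lit 22982372321, nat_lit 19972922913, nat_lit 21272459525], nat_lit 0, nat_lit 0, nat_lit 0, nat_lit 0, nat_lit 0, nat_lit 0, [], [nat_lit 11, nat_lit 40, nat_lit 40, nat_lit 80, nat_lit 1, nat_lit 401, nat_lit 175, nat_lit 11]⟩,
 zbF0, [⟨nat_lit 0, nat_lit 100, nat_lit 100, nat_lit 70, nat_lit 385261896⟩, ⟨nat_lit 4, nat_lit 97, nat_lit 100, nat_lit 76, nat_lit 481222846⟩, ⟨nat_lit 11, nat_lit 100, nat_lit 100, nat_lit 76, nat_lit 687664971⟩]⟩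
noncomputable def b_V_600_600_10_34 : St := ⟨true, nat_lit 1, nat_lit 0, nat_lit 1, nat_lit 80, nat_lit 260, nat_lit 280, nat_lit 240, nat_lit 280, nat_lit 24, nat_lit 80, nat_lit 40, nat_lit 80, nat_lit 240, nat_lit 320, nat_lit 0, nat_lit 336, nat_lit 0, nat_lit 40, nat_lit 0, nat_lit 0, nat_lit 0, nat_lit 0⟩
theorem d_V_600_600_10_34 (h : EB TB.env) : Dead b_V_600_600_10_34 := chkB_sound0 h (T :=
(.spl (nat_lit 6) (nat_lit 20)
(.spl (nat_lit 5) (nat_lit 160)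
(.leaf p046_l69)
(.spl (nat_lit 1) (nat_lit 260)
(.spl (nat_lit 5) (nat_lit 240)
(.leaf p046_l70)
(.spl (nat_lit 5) (nat_lit 280)
(.leaf p046_l71)
(.trZ (nat_lit 11) (nat_lit 94) (nat_lit 100) (nat_lit 59) (nat_lit 36) (.trX (nat_lit 11) (nat_lit 100) (nat_lit 95) (nat_lit 87) (nat_lit 300) (.spl (nat_lit 2) (nat_lit 60)
(.trX (nat_lit 11) (nat_lit 99) (nat_lit 100) (nat_lit 77) (nat_lit 276) (.trX (nat_lit 23) (nat_lit 100) (nat_lit 85) (nat_lit 73) (nat_lit 312) (.leaf p046_l72)))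
(.leaf p046_l73))))))
(.trZ (nat_lit 0) (nat_lit 100) (nat_lit 100) (nat_lit 60) (nat_lit 36) (.trX (nat_lit 19) (nat_lit 100) (nat_lit 85) (nat_lit 84) (nat_lit 320) (.spl (nat_lit 0) (nat_lit 270)
(.ord (.leaf p046_l74))
(.trZ (nat_lit 0) (nat_lit 100) (nat_lit 98) (nat_lit 64) (nat_lit 40) (.trX (nat_lit 16) (nat_lit 100) (nat_lit 90) (nat_lit 85) (nat_lit 308) (.leaf p046_l75))))))))
(.spl (nat_lit 1) (nat_lit 260)
(.spl (nat_lit 3) (nat_lit 60)
(.trX (nat_lit 16) (nat_lit 100) (nat_lit 92) (nat_lit 75) (nat_lit 296) (.trX (nat_lit 19) (nat_lit 100) (nat_lit 85) (nat_lit 73) (nat_lit 312) (.spl (nat_lit 4) (nat_lit 280)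
(.spl (nat_lit 2) (nat_lit 40)
(.trX (nat_lit 23) (nat_lit 100) (nat_lit 92) (nat_lit 61) (nat_lit 288) (.spl (nat_lit 4) (nat_lit 260)
(.leaf p046_l76)
(.trX (nat_lit 23) (nat_lit 100) (nat_lit 99) (nat_lit 63) (nat_lit 268) (.spl (nat_lit 2) (nat_lit 32)
(.trX (nat_lit 23) (nat_lit 99) (nat_lit 100) (nat_lit 56) (nat_lit 256) (.leaf p046_l77))
(.spl (nat_lit 0) (nat_lit 270)
(.spl (nat_lit 6) (nat_lit 32)
(.spl (nat_lit 5) (nat_lit 160)
(.leaf p046_l78)
(.leaf p046_l79))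
(.leaf p046_l80))
(.leaf p046_l81))))))
(.spl (nat_lit 0) (nat_lit 270)
(.spl (nat_lit 6) (nat_lit 32)
(.spl (nat_lit 0) (nat_lit 265)
(.leaf p046_l82)
(.leaf p046_l83))
(.leaf p046_l84))
(.leaf p046_l85)))
(.trX (nat_lit 23) (nat_lit 100) (nat_lit 95) (nat_lit 87) (nat_lit 300) (.leaf p046_l86)))))
(.spl (nat_lit 6) (nat_lit 24)
(.spl (nat_lit 2) (nat_lit 40)
(.trX (nat_lit 23) (nat_lit 100) (nat_lit 92) (nat_lit 61) (nat_lit 288) (.leaf p046_l87))
(.leaf p046_l88))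
(.leaf p046_l89)))
(.trZ (nat_lit 0) (nat_lit 100) (nat_lit 100) (nat_lit 60) (nat_lit 36) (.trX (nat_lit 19) (nat_lit 100) (nat_lit 85) (nat_lit 84) (nat_lit 320) (.spl (nat_lit 5) (nat_lit 160)
(.leaf p046_l90)
(.spl (nat_lit 4) (nat_lit 280)
(.spl (nat_lit 0) (nat_lit 270)
(.ord (.spl (nat_lit 2) (nat_lit 60)
(.trX (nat_lit 23) (nat_lit 100) (nat_lit 85) (nat_lit 73) (nat_lit 312) (.leaf p046_l91))
(.leaf p046_l92)))
(.trZ (nat_lit 0) (nat_lit 100) (nat_lit 98) (nat_lit 64) (nat_lit 40) (.leaf p046_l93)))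
(.trX (nat_lit 23) (nat_lit 100) (nat_lit 95) (nat_lit 87) (nat_lit 300) (.leaf p046_l94))))))))) (by decide +kernel)
noncomputable def p046_l95 : Lf2 := ⟨nat_lit 0, nat_lit 10, [nat_lit 0, nat_lit 5, nat_lit 5, nat_lit 20], false, nat_lit 160, nat_lit 320, nat_lit 0, nat_lit 160, ⟨nat_lit 1000, nat_lit 0, nat_lit 0, nat_lit 0, nat_lit 0, nat_lit 0, nat_lit 0, nat_lit 0, nat_lit 0, nat_lit 0, nat_lit 0, nat_lit 0, nat_lit 0, nat_lit 0, nat_lit 0, nat_lit 0, false, false⟩,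
 nat_lit 0, nat_lit 15701, nat_lit 0, nat_lit 2094, nat_lit 9139, nat_lit 8821, nat_lit 1448, nat_lit 0, nat_lit 0, nat_lit 3707, nat_lit 0, nat_lit 0, nat_lit 0, nat_lit 24217532380728, nat_lit 0, nat_lit 0, nat_lit 0, nat_lit 0, [],
 ⟨p046_k3, nat_lit 0, nat_lit 0, nat_lit 424, nat_lit 0, nat_lit 647253, [nat_lit 4688000000, nat_lit 6250000000, nat_lit 9842000000], [], [nat_lit 19430495250, nat_lit 17250380040, nat_lit 16081466906, nat_lit 16520126625, nat_lit 27028246016, nat_lit 24846637865, nat_lit 30117543750, nat_lit 27964367933], nat_lit 1271250, nat_lit 1271250, nat_lit 490000, nat_lit 780000, nat_lit 1100001, nat_lit 2470000, [nat_lit 1100000, nat_lit 1442500, nat_lit 1271250], [nat_lit 11, nat_lit 40, nat_lit 40, nat_lit 80, nat_lit 1, nat_lit 428, nat_lit 200, nat_lit 12]⟩, ⟨p046_k5, nat_lit 0, nat_lit 0, nat_lit 216, nat_lit 0, nat_lit 0, [nat_lit 4688000000, nat_lit 6250000000, nat_lit 11872000000],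 [], [nat_lit 15086929529, nat_lit 17614717592, nat_lit 14118799805, nat_lit 17142206700, nat_lit 10348849068, nat_lit 12928362024, nat_lit 10258021584, nat_lit 12685637085], nat_lit 0, nat_lit 0, nat_lit 0, nat_lit 0, nat_lit 0, nat_lit 0, [], [nat_lit 48, nat_lit 40, nat_lit 40, nat_lit 80, nat_lit 12, nat_lit 373, nat_lit 150, nat_lit 10]⟩,
 zbF0, [⟨nat_lit 4, nat_lit 95, nat_lit 100, nat_lit 76, nat_lit 607789609⟩]⟩
noncomputable def p046_l96 : Lf2 := ⟨nat_lit 0, nat_lit 10, [nat_lit 0, nat_lit 5, nat_lit 5, nat_lit 20], false, nat_lit 160, nat_lit 308, nat_lit 0, nat_lit 160, ⟨nat_lit 1000, nat_lit 0, nat_lit 0, nat_lit 0, nat_lit 0, nat_lit 0, nat_lit 0, nat_lit 0, nat_lit 0, nat_lit 0, nat_lit 0, nat_lit 0, nat_lit 0, nat_lit 0, nat_lit 0, nat_lit 0, false, false⟩,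
 nat_lit 0, nat_lit 13754, nat_lit 0, nat_lit 0, nat_lit 8376, nat_lit 8604, nat_lit 1561, nat_lit 0, nat_lit 0, nat_lit 3580, nat_lit 0, nat_lit 0, nat_lit 0, nat_lit 18040827150387, nat_lit 0, nat_lit 0, nat_lit 0, nat_lit 0, [],
 ⟨p046_k4, nat_lit 0, nat_lit 0, nat_lit 488, nat_lit 0, nat_lit 809865, [nat_lit 4688000000, nat_lit 6250000000, nat_lit 9842000000], [], [nat_lit 18112143096, nat_lit 17431590179, nat_lit 16448379907, nat_lit 16792965446, nat_lit 23511196173, nat_lit 23789421306, nat_lit 26433278327, nat_lit 24451605513], nat_lit 1271250, nat_lit 1271250, nat_lit 490000, nat_lit 780000, nat_lit 1100001, nat_lit 2367250, [nat_lit 1100000, nat_lit 1442500, nat_lit 1271250], [nat_lit 11, nat_lit 40, nat_lit 40, nat_lit 80, nat_lit 1, nat_lit 428, nat_lit 200, nat_lit 12]⟩, ⟨p046_k5, nat_lit 0, nat_lit 0, nat_lit 220, nat_lit 0, nat_lit 0, [nat_lit 4688000000, nat_lit 6250000000, nat_lit 11872000000], [],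 [nat_lit 15592323796, nat_lit 18912586048, nat_lit 14669686820, nat_lit 18410026896, nat_lit 10839158832, nat_lit 14224856624, nat_lit 10772679616, nat_lit 13960000848], nat_lit 0, nat_lit 0, nat_lit 0, nat_lit 0, nat_lit 0, nat_lit 0, [], [nat_lit 48, nat_lit 40, nat_lit 40, nat_lit 80, nat_lit 12, nat_lit 373, nat_lit 150, nat_lit 10]⟩,
 zbF0, [⟨nat_lit 4, nat_lit 99, nat_lit 100, nat_lit 77, nat_lit 566772489⟩]⟩
noncomputable def p046_l97 : Lf2 := ⟨nat_lit 0, nat_lit 10, [nat_lit 0, nat_lit 5, nat_lit 5, nat_lit 20], false, nat_lit 160, nat_lit 240, nat_lit 160, nat_lit 336, ⟨nat_lit 1000, nat_lit 0, nat_lit 0, nat_lit 0, nat_lit 0, nat_lit 0, nat_lit 0, nat_lit 0, nat_lit 0, nat_lit 0, nat_lit 0, nat_lit 0, nat_lit 0, nat_lit 0, nat_lit 0, nat_lit 0, false, false⟩,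
 nat_lit 0, nat_lit 15545, nat_lit 0, nat_lit 0, nat_lit 9048, nat_lit 6658, nat_lit 2527, nat_lit 0, nat_lit 0, nat_lit 0, nat_lit 0, nat_lit 0, nat_lit 0, nat_lit 0, nat_lit 0, nat_lit 0, nat_lit 0, nat_lit 0, [],
 ⟨p046_k3, nat_lit 0, nat_lit 0, nat_lit 314, nat_lit 0, nat_lit 472390, [nat_lit 4688000000, nat_lit 6250000000, nat_lit 9842000000], [], [nat_lit 19529526000, nat_lit 14887377216, nat_lit 14921280072, nat_lit 12462819017, nat_lit 16213339085, nat_lit 15811762009, nat_lit 17476935165, nat_lit 15443890304], nat_lit 1271250, nat_lit 1271250, nat_lit 490000, nat_lit 631250, nat_lit 1100001, nat_lit 1785000, [nat_lit 1100000, nat_lit 1442500, nat_lit 1271250], [nat_lit 11, nat_lit 40, nat_lit 40, nat_lit 80, nat_lit 1, nat_lit 401, nat_lit 175, nat_lit 11]⟩, ⟨p046_k5, nat_lit 0, nat_lit 0, nat_lit 71, nat_lit 0, nat_lit 0, [nat_lit 4688000000, nat_lit 6250000000, nat_lit 11872000000], [], [nat_lit 8794957400,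 nat_lit 12624517888, nat_lit 8927858888, nat_lit 12653929596, nat_lit 21863615945, nat_lit 24544938721, nat_lit 21653579604, nat_lit 24178740888], nat_lit 0, nat_lit 0, nat_lit 0, nat_lit 0, nat_lit 0, nat_lit 0, [], [nat_lit 48, nat_lit 40, nat_lit 40, nat_lit 80, nat_lit 12, nat_lit 428, nat_lit 200, nat_lit 11]⟩,
 zbF0, [⟨nat_lit 19, nat_lit 100, nat_lit 92, nat_lit 75, nat_lit 756137712⟩]⟩
noncomputable def p046_l98 : Lf2 := ⟨nat_lit 0, nat_lit 10, [nat_lit 0, nat_lit 5, nat_lit 5, nat_lit 20], false, nat_lit 240, nat_lit 320, nat_lit 160, nat_lit 336, ⟨nat_lit 1000, nat_lit 0, nat_lit 0, nat_lit 0, nat_lit 0, nat_lit 0, nat_lit 0, nat_lit 0, nat_lit 0, nat_lit 0, nat_lit 0, nat_lit 0, nat_lit 0, nat_lit 0, nat_lit 0, nat_lit 0, false, false⟩,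
 nat_lit 0, nat_lit 13280, nat_lit 0, nat_lit 0, nat_lit 7730, nat_lit 6339, nat_lit 2016, nat_lit 0, nat_lit 0, nat_lit 0, nat_lit 0, nat_lit 0, nat_lit 0, nat_lit 404257514603, nat_lit 0, nat_lit 0, nat_lit 0, nat_lit 0, [],
 ⟨p046_k3, nat_lit 0, nat_lit 0, nat_lit 318, nat_lit 0, nat_lit 472390, [nat_lit 4688000000, nat_lit 6250000000, nat_lit 9842000000], [], [nat_lit 18595389940, nat_lit 19377604480, nat_lit 18317845110, nat_lit 19123961220, nat_lit 22614794660, nat_lit 23573822440, nat_lit 22188056050, nat_lit 23127734900], nat_lit 1271250, nat_lit 1271250, nat_lit 490000, nat_lit 631250, nat_lit 1271250, nat_lit 1271250, [nat_lit 1100000, nat_lit 1442500, nat_lit 1271250], [nat_lit 11, nat_lit 40, nat_lit 40, nat_lit 80, nat_lit 1, nat_lit 401, nat_lit 175, nat_lit 11]⟩, ⟨p046_k5, nat_lit 0, nat_lit 0, nat_lit 71, nat_lit 0, nat_lit 0, [nat_lit 4688000000, nat_lit 6250000000, nat_lit 11872000000], [], [nat_lit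 9303347700, nat_lit 13018822304, nat_lit 9453431804, nat_lit 13069375418, nat_lit 22022201052, nat_lit 24265191334, nat_lit 21842162706, nat_lit 24029683344], nat_lit 0, nat_lit 0, nat_lit 0, nat_lit 0, nat_lit 0, nat_lit 0, [], [nat_lit 48, nat_lit 40, nat_lit 40, nat_lit 80, nat_lit 12, nat_lit 428, nat_lit 200, nat_lit 11]⟩,
 zbF0, [⟨nat_lit 4, nat_lit 97, nat_lit 100, nat_lit 76, nat_lit 336862854⟩, ⟨nat_lit 19, nat_lit 100, nat_lit 92, nat_lit 75, nat_lit 396818816⟩, ⟨nat_lit 11, nat_lit 100, nat_lit 100, nat_lit 95, nat_lit 263458539⟩]⟩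
noncomputable def p046_l99 : Lf2 := ⟨nat_lit 0, nat_lit 10, [nat_lit 0, nat_lit 5, nat_lit 5, nat_lit 20], false, nat_lit 160, nat_lit 296, nat_lit 160, nat_lit 312, ⟨nat_lit 1000, nat_lit 0, nat_lit 0, nat_lit 0, nat_lit 0, nat_lit 0, nat_lit 0, nat_lit 0, nat_lit 0, nat_lit 0, nat_lit 0, nat_lit 0, nat_lit 0, nat_lit 0, nat_lit 0, nat_lit 0, false, false⟩,
 nat_lit 0, nat_lit 13437, nat_lit 0, nat_lit 23, nat_lit 7821, nat_lit 7135, nat_lit 3677, nat_lit 0, nat_lit 0, nat_lit 0, nat_lit 0, nat_lit 0, nat_lit 0, nat_lit 0, nat_lit 0, nat_lit 0, nat_lit 0, nat_lit 0, [],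
 ⟨p046_k18, nat_lit 0, nat_lit 0, nat_lit 352, nat_lit 0, nat_lit 625953, [nat_lit 4688000000, nat_lit 9842000000], [], [nat_lit 22051917580, nat_lit 20144414785, nat_lit 23485406990, nat_lit 21591325031, nat_lit 19553037810, nat_lit 20032674427, nat_lit 19341000446, nat_lit 19806148842], nat_lit 1271250, nat_lit 1271250, nat_lit 631250, nat_lit 780000, nat_lit 1271250, nat_lit 1271250, [nat_lit 1100000, nat_lit 2127500], [nat_lit 70, nat_lit 40, nat_lit 40, nat_lit 80, nat_lit 13, nat_lit 401, nat_lit 175, nat_lit 11]⟩, ⟨p046_k19, nat_lit 0, nat_lit 0, nat_lit 34, nat_lit 0, nat_lit 0, [nat_lit 4688000000, nat_lit 11872000000], [], [nat_lit 8141970860, nat_lit 11060028493, nat_lit 8249179220, nat_lit 11085179840, nat_lit 19045415587, nat_lit 21296589377, nat_lit 18852330754, nat_lit 20955645586], nat_lit 0, nat_lit 0, nat_lit 0, nat_lit 0, nat_lit 0, nat_lit 0, [], [nat_lit 116, nat_lit 40, nat_lit 40, nat_lit 80,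 nat_lit 65, nat_lit 428, nat_lit 200, nat_lit 11]⟩,
 zbF0, [⟨nat_lit 4, nat_lit 98, nat_lit 100, nat_lit 70, nat_lit 205164301⟩, ⟨nat_lit 7, nat_lit 94, nat_lit 100, nat_lit 69, nat_lit 810567433⟩]⟩
noncomputable def p046_l100 : Lf2 := ⟨nat_lit 0, nat_lit 10, [nat_lit 0, nat_lit 5, nat_lit 5, nat_lit 20], false, nat_lit 160, nat_lit 288, nat_lit 160, nat_lit 312, ⟨nat_lit 1000, nat_lit 0, nat_lit 0, nat_lit 0, nat_lit 0, nat_lit 0, nat_lit 0, nat_lit 0, nat_lit 0, nat_lit 0, nat_lit 0, nat_lit 0, nat_lit 0, nat_lit 0, nat_lit 0, nat_lit 0, false, false⟩,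
 nat_lit 0, nat_lit 13035, nat_lit 0, nat_lit 0, nat_lit 7938, nat_lit 8535, nat_lit 3114, nat_lit 0, nat_lit 0, nat_lit 0, nat_lit 0, nat_lit 0, nat_lit 0, nat_lit 0, nat_lit 0, nat_lit 0, nat_lit 0, nat_lit 0, [],
 ⟨p046_k4, nat_lit 0, nat_lit 0, nat_lit 430, nat_lit 0, nat_lit 684563, [nat_lit 4688000000, nat_lit 6250000000, nat_lit 9842000000], [], [nat_lit 15713082083, nat_lit 15993564634, nat_lit 15633071912, nat_lit 15904887660, nat_lit 21074373928, nat_lit 20450439025, nat_lit 22597123709, nat_lit 21651575345], nat_lit 1271250, nat_lit 1271250, nat_lit 631250, nat_lit 780000, nat_lit 1100001, nat_lit 2196000, [nat_lit 1100000, nat_lit 1442500, nat_lit 1271250], [nat_lit 11, nat_lit 40, nat_lit 40, nat_lit 80, nat_lit 1, nat_lit 401, nat_lit 175, nat_lit 11]⟩, ⟨p046_k5, nat_lit 0, nat_lit 0, nat_lit 44, nat_lit 0, nat_lit 0, [nat_lit 4688000000, nat_lit 6250000000, nat_lit 11872000000], [], [nat_lit 5835381260,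 nat_lit 9662683682, nat_lit 5867180020, nat_lit 9583547010, nat_lit 19459933782, nat_lit 22375092013, nat_lit 19030787062, nat_lit 21871817263], nat_lit 0, nat_lit 0, nat_lit 0, nat_lit 0, nat_lit 0, nat_lit 0, [], [nat_lit 48, nat_lit 40, nat_lit 40, nat_lit 80, nat_lit 12, nat_lit 428, nat_lit 200, nat_lit 11]⟩,
 zbF0, [⟨nat_lit 4, nat_lit 100, nat_lit 99, nat_lit 70, nat_lit 563923935⟩, ⟨nat_lit 7, nat_lit 95, nat_lit 100, nat_lit 69, nat_lit 928612549⟩]⟩
noncomputable def p046_l101 : Lf2 := ⟨nat_lit 0, nat_lit 10, [nat_lit 0, nat_lit 5, nat_lit 5, nat_lit 20], false, nat_lit 160, nat_lit 280, nat_lit 160, nat_lit 312, ⟨nat_lit 1000, nat_lit 0, nat_lit 0, nat_lit 0, nat_lit 0, nat_lit 0, nat_lit 0, nat_lit 0, nat_lit 0, nat_lit 0, nat_lit 0, nat_lit 0, nat_lit 0, nat_lit 0, nat_lit 0, nat_lit 0, false, false⟩,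
 nat_lit 0, nat_lit 13147, nat_lit 0, nat_lit 0, nat_lit 8185, nat_lit 8419, nat_lit 1976, nat_lit 0, nat_lit 0, nat_lit 0, nat_lit 0, nat_lit 0, nat_lit 0, nat_lit 25816027822491, nat_lit 0, nat_lit 0, nat_lit 0, nat_lit 0, [],
 ⟨p046_k20, nat_lit 0, nat_lit 0, nat_lit 459, nat_lit 0, nat_lit 759801, [nat_lit 4688000000, nat_lit 6250000000, nat_lit 9842000000], [], [nat_lit 15173769715, nat_lit 15383209080, nat_lit 14994462950, nat_lit 15270661960, nat_lit 19817373931, nat_lit 19438391060, nat_lit 21364975948, nat_lit 20387314530], nat_lit 1271250, nat_lit 1271250, nat_lit 631250, nat_lit 780000, nat_lit 1100001, nat_lit 2127500, [nat_lit 1100000, nat_lit 1442500, nat_lit 1271250], [nat_lit 11, nat_lit 40, nat_lit 40, nat_lit 80, nat_lit 1, nat_lit 401, nat_lit 175, nat_lit 11]⟩, ⟨p046_k5, nat_lit 0, nat_lit 0, nat_lit 46, nat_lit 0, nat_lit 0, [nat_lit 4688000000, nat_lit 6250000000, nat_lit 11872000000], [], [nat_lit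 6026498684, nat_lit 10360512378, nat_lit 6064545668, nat_lit 10273215572, nat_lit 19425569339, nat_lit 22729857080, nat_lit 19008300091, nat_lit 22228797248], nat_lit 0, nat_lit 0, nat_lit 0, nat_lit 0, nat_lit 0, nat_lit 0, [], [nat_lit 48, nat_lit 40, nat_lit 40, nat_lit 80, nat_lit 12, nat_lit 428, nat_lit 200, nat_lit 11]⟩,
 zbF0, [⟨nat_lit 4, nat_lit 100, nat_lit 97, nat_lit 70, nat_lit 565128911⟩, ⟨nat_lit 7, nat_lit 96, nat_lit 100, nat_lit 69, nat_lit 912279978⟩]⟩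
noncomputable def p046_l102 : Lf2 := ⟨nat_lit 0, nat_lit 10, [nat_lit 0, nat_lit 5, nat_lit 5, nat_lit 20], false, nat_lit 160, nat_lit 320, nat_lit 160, nat_lit 336, ⟨nat_lit 1000, nat_lit 0, nat_lit 0, nat_lit 0, nat_lit 0, nat_lit 0, nat_lit 0, nat_lit 0, nat_lit 0, nat_lit 0, nat_lit 0, nat_lit 0, nat_lit 0, nat_lit 0, nat_lit 0, nat_lit 0, false, false⟩,
 nat_lit 0, nat_lit 16151, nat_lit 0, nat_lit 0, nat_lit 9401, nat_lit 6570, nat_lit 2532, nat_lit 0, nat_lit 0, nat_lit 0, nat_lit 0, nat_lit 0, nat_lit 0, nat_lit 0, nat_lit 0, nat_lit 0, nat_lit 0, nat_lit 0, [],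
 ⟨p046_k18, nat_lit 0, nat_lit 0, nat_lit 209, nat_lit 0, nat_lit 337739, [nat_lit 4688000000, nat_lit 9842000000], [], [nat_lit 23459020980, nat_lit 18873307190, nat_lit 24383347710, nat_lit 19816992460, nat_lit 23103089485, nat_lit 24121798530, nat_lit 22742016951, nat_lit 23742809432], nat_lit 1271250, nat_lit 1271250, nat_lit 631250, nat_lit 719601, nat_lit 1271250, nat_lit 1271250, [nat_lit 1100000, nat_lit 2127500], [nat_lit 70, nat_lit 40, nat_lit 40, nat_lit 80, nat_lit 13, nat_lit 428, nat_lit 200, nat_lit 12]⟩, ⟨p046_k19, nat_lit 0, nat_lit 0, nat_lit 52, nat_lit 0, nat_lit 0, [nat_lit 4688000000, nat_lit 11872000000], [], [nat_lit 9072844520, nat_lit 12768535340, nat_lit 9155429433, nat_lit 12789681632, nat_lit 21705602529, nat_lit 24111902388, nat_lit 21584545909, nat_lit 23898388301], nat_lit 0, nat_lit 0, nat_lit 0, nat_lit 0, nat_lit 0, nat_lit 0, [], [nat_lit 116, nat_lit 40, nat_lit 40, nat_lit 80,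 nat_lit 65, nat_lit 428, nat_lit 200, nat_lit 11]⟩,
 zbF0, [⟨nat_lit 4, nat_lit 93, nat_lit 100, nat_lit 81, nat_lit 217574779⟩, ⟨nat_lit 19, nat_lit 100, nat_lit 89, nat_lit 80, nat_lit 600687723⟩, ⟨nat_lit 11, nat_lit 97, nat_lit 97, nat_lit 100, nat_lit 72319235⟩]⟩
noncomputable def p046_l103 : Lf2 := ⟨nat_lit 0, nat_lit 10, [nat_lit 0, nat_lit 5, nat_lit 5, nat_lit 20], false, nat_lit 160, nat_lit 240, nat_lit 160, nat_lit 336, ⟨nat_lit 1000, nat_lit 0, nat_lit 0, nat_lit 0, nat_lit 0, nat_lit 0, nat_lit 0, nat_lit 0, nat_lit 0, nat_lit 0, nat_lit 0, nat_lit 0, nat_lit 0, nat_lit 0, nat_lit 0, nat_lit 0, false, false⟩,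
 nat_lit 0, nat_lit 14708, nat_lit 0, nat_lit 0, nat_lit 8561, nat_lit 6465, nat_lit 3765, nat_lit 0, nat_lit 0, nat_lit 0, nat_lit 0, nat_lit 0, nat_lit 0, nat_lit 0, nat_lit 0, nat_lit 0, nat_lit 0, nat_lit 0, [],
 ⟨p046_k3, nat_lit 0, nat_lit 0, nat_lit 357, nat_lit 0, nat_lit 617729, [nat_lit 4688000000, nat_lit 6250000000, nat_lit 9842000000], [], [nat_lit 13083165397, nat_lit 12436254801, nat_lit 11339080808, nat_lit 12396749276, nat_lit 18098395685, nat_lit 15265631337, nat_lit 18737906965, nat_lit 15184411904], nat_lit 1271250, nat_lit 1271250, nat_lit 719601, nat_lit 780000, nat_lit 1100001, nat_lit 1785000, [nat_lit 1100000, nat_lit 1442500, nat_lit 1271250], [nat_lit 11, nat_lit 40, nat_lit 40, nat_lit 80, nat_lit 1, nat_lit 401, nat_lit 175, nat_lit 11]⟩, ⟨p046_k5, nat_lit 0, nat_lit 0, nat_lit 57, nat_lit 0, nat_lit 0, [nat_lit 4688000000, nat_lit 6250000000, nat_lit 11872000000], [], [nat_lit 9331817085,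 nat_lit 12930602384, nat_lit 9389135980, nat_lit 12947483420, nat_lit 21652543086, nat_lit 23826455115, nat_lit 21575788253, nat_lit 23727182365], nat_lit 0, nat_lit 0, nat_lit 0, nat_lit 0, nat_lit 0, nat_lit 0, [], [nat_lit 48, nat_lit 40, nat_lit 40, nat_lit 80, nat_lit 12, nat_lit 428, nat_lit 200, nat_lit 11]⟩,
 zbF0, [⟨nat_lit 19, nat_lit 100, nat_lit 89, nat_lit 80, nat_lit 672437184⟩]⟩
noncomputable def p046_l104 : Lf2 := ⟨nat_lit 0, nat_lit 10, [nat_lit 0, nat_lit 5, nat_lit 5, nat_lit 20], false, nat_lit 240, nat_lit 320, nat_lit 160, nat_lit 336, ⟨nat_lit 1000, nat_lit 0, nat_lit 0, nat_lit 0, nat_lit 0, nat_lit 0, nat_lit 0, nat_lit 0, nat_lit 0, nat_lit 0, nat_lit 0, nat_lit 0, nat_lit 0, nat_lit 0, nat_lit 0, nat_lit 0, false, false⟩,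
 nat_lit 0, nat_lit 12737, nat_lit 0, nat_lit 0, nat_lit 7413, nat_lit 6590, nat_lit 2706, nat_lit 0, nat_lit 0, nat_lit 0, nat_lit 0, nat_lit 0, nat_lit 0, nat_lit 0, nat_lit 0, nat_lit 0, nat_lit 0, nat_lit 0, [],
 ⟨p046_k3, nat_lit 0, nat_lit 0, nat_lit 356, nat_lit 0, nat_lit 617729, [nat_lit 4688000000, nat_lit 6250000000, nat_lit 9842000000], [], [nat_lit 17840658952, nat_lit 18756698347, nat_lit 17776228392, nat_lit 18681050056, nat_lit 21849552456, nat_lit 22696393243, nat_lit 21761538574, nat_lit 22598164460], nat_lit 1271250, nat_lit 1271250, nat_lit 719601, nat_lit 780000, nat_lit 1271250, nat_lit 1271250, [nat_lit 1100000, nat_lit 1442500, nat_lit 1271250], [nat_lit 11, nat_lit 40, nat_lit 40, nat_lit 80, nat_lit 1, nat_lit 428, nat_lit 200, nat_lit 12]⟩, ⟨p046_k5, nat_lit 0, nat_lit 0, nat_lit 57, nat_lit 0, nat_lit 0, [nat_lit 4688000000, nat_lit 6250000000, nat_lit 11872000000], [], [nat_lit 9121831785,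 nat_lit 12762839584, nat_lit 9176457480, nat_lit 12776406920, nat_lit 21571594066, nat_lit 23912168730, nat_lit 21490137353, nat_lit 23768885913], nat_lit 0, nat_lit 0, nat_lit 0, nat_lit 0, nat_lit 0, nat_lit 0, [], [nat_lit 48, nat_lit 40, nat_lit 40, nat_lit 80, nat_lit 12, nat_lit 428, nat_lit 200, nat_lit 11]⟩,
 zbF0, [⟨nat_lit 4, nat_lit 93, nat_lit 100, nat_lit 81, nat_lit 605264044⟩, ⟨nat_lit 7, nat_lit 89, nat_lit 100, nat_lit 80, nat_lit 681439603⟩]⟩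
noncomputable def b_V_600_600_10_35 : St := ⟨true, nat_lit 1, nat_lit 0, nat_lit 1, nat_lit 80, nat_lit 260, nat_lit 280, nat_lit 240, nat_lit 280, nat_lit 80, nat_lit 120, nat_lit 40, nat_lit 80, nat_lit 160, nat_lit 320, nat_lit 0, nat_lit 336, nat_lit 0, nat_lit 40, nat_lit 0, nat_lit 0, nat_lit 0, nat_lit 0⟩
theorem d_V_600_600_10_35 (h : EB TB.env) : Dead b_V_600_600_10_35 := chkB_sound0 h (T :=
(.spl (nat_lit 5) (nat_lit 160)
(.spl (nat_lit 0) (nat_lit 270)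
(.ord (.leaf p046_l95))
(.trX (nat_lit 16) (nat_lit 100) (nat_lit 90) (nat_lit 85) (nat_lit 308) (.leaf p046_l96)))
(.spl (nat_lit 2) (nat_lit 100)
(.spl (nat_lit 4) (nat_lit 240)
(.leaf p046_l97)
(.leaf p046_l98))
(.spl (nat_lit 3) (nat_lit 60)
(.trX (nat_lit 16) (nat_lit 100) (nat_lit 92) (nat_lit 75) (nat_lit 296) (.trX (nat_lit 19) (nat_lit 100) (nat_lit 85) (nat_lit 73) (nat_lit 312) (.spl (nat_lit 0) (nat_lit 270)
(.ord (.leaf p046_l99))
(.trX (nat_lit 16) (nat_lit 100) (nat_lit 97) (nat_lit 76) (nat_lit 288) (.spl (nat_lit 0) (nat_lit 275)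
(.ord (.leaf p046_l100))
(.trX (nat_lit 16) (nat_lit 100) (nat_lit 99) (nat_lit 77) (nat_lit 280) (.leaf p046_l101)))))))
(.spl (nat_lit 2) (nat_lit 112)
(.leaf p046_l102)
(.spl (nat_lit 4) (nat_lit 240)
(.leaf p046_l103)
(.leaf p046_l104))))))) (by decide +kernel)
noncomputable def p046_l105 : Lf2 := ⟨nat_lit 0, nat_lit 10, [nat_lit 0, nat_lit 5, nat_lit 5, nat_lit 20], false, nat_lit 160, nat_lit 320, nat_lit 0, nat_lit 160, ⟨nat_lit 1000, nat_lit 0, nat_lit 0, nat_lit 0, nat_lit 0, nat_lit 0, nat_lit 0, nat_lit 0, nat_lit 0, nat_lit 0, nat_lit 0, nat_lit 0, nat_lit 0, nat_lit 0, nat_lit 0, nat_lit 0, false, false⟩,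
 nat_lit 0, nat_lit 13596, nat_lit 0, nat_lit 0, nat_lit 7914, nat_lit 8513, nat_lit 1827, nat_lit 0, nat_lit 0, nat_lit 3359, nat_lit 0, nat_lit 0, nat_lit 0, nat_lit 24122699632870, nat_lit 0, nat_lit 0, nat_lit 0, nat_lit 0, [],
 ⟨p046_k3, nat_lit 0, nat_lit 0, nat_lit 491, nat_lit 0, nat_lit 864007, [nat_lit 4688000000, nat_lit 6250000000, nat_lit 9842000000], [], [nat_lit 18534333717, nat_lit 18896183937, nat_lit 30401015241, nat_lit 26620592409, nat_lit 22402026517, nat_lit 23318749173, nat_lit 23989608548, nat_lit 25143101792], nat_lit 1271250, nat_lit 1271250, nat_lit 780000, nat_lit 1762500, nat_lit 1271250, nat_lit 1271250, [nat_lit 1100000, nat_lit 1442500, nat_lit 1271250], [nat_lit 11, nat_lit 40, nat_lit 40, nat_lit 80, nat_lit 1, nat_lit 456, nat_lit 225, nat_lit 13]⟩, ⟨p046_k5, nat_lit 0, nat_lit 0, nat_lit 202, nat_lit 0, nat_lit 0, [nat_lit 4688000000, nat_lit 6250000000, nat_lit 11872000000], [],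 [nat_lit 15704292665, nat_lit 18840510961, nat_lit 19773503432, nat_lit 23340051796, nat_lit 10988503952, nat_lit 14155067356, nat_lit 15103633260, nat_lit 17653089840], nat_lit 0, nat_lit 0, nat_lit 0, nat_lit 0, nat_lit 0, nat_lit 0, [], [nat_lit 48, nat_lit 40, nat_lit 40, nat_lit 80, nat_lit 12, nat_lit 401, nat_lit 175, nat_lit 10]⟩,
 zbF0, [⟨nat_lit 4, nat_lit 97, nat_lit 100, nat_lit 76, nat_lit 477320562⟩]⟩
noncomputable def p046_l106 : Lf2 := ⟨nat_lit 0, nat_lit 10, [nat_lit 0, nat_lit 5, nat_lit 5, nat_lit 20], false, nat_lit 160, nat_lit 320, nat_lit 160, nat_lit 336, ⟨nat_lit 1000, nat_lit 0, nat_lit 0, nat_lit 0, nat_lit 0, nat_lit 0, nat_lit 0, nat_lit 0, nat_lit 0, nat_lit 0, nat_lit 0, nat_lit 0, nat_lit 0, nat_lit 0, nat_lit 0, nat_lit 0, false, false⟩,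
 nat_lit 0, nat_lit 12999, nat_lit 0, nat_lit 0, nat_lit 7566, nat_lit 8129, nat_lit 2436, nat_lit 0, nat_lit 0, nat_lit 0, nat_lit 0, nat_lit 0, nat_lit 0, nat_lit 0, nat_lit 0, nat_lit 0, nat_lit 0, nat_lit 0, [],
 ⟨p046_k3, nat_lit 0, nat_lit 0, nat_lit 364, nat_lit 0, nat_lit 647253, [nat_lit 4688000000, nat_lit 6250000000, nat_lit 9842000000], [], [nat_lit 18576616848, nat_lit 16691600910, nat_lit 30094301004, nat_lit 28287207300, nat_lit 21521376164, nat_lit 21873819942, nat_lit 23876340812, nat_lit 24440586230], nat_lit 1271250, nat_lit 1271250, nat_lit 780000, nat_lit 1762500, nat_lit 1271250, nat_lit 1271250, [nat_lit 1100000, nat_lit 1442500, nat_lit 1271250], [nat_lit 11, nat_lit 40, nat_lit 40, nat_lit 80, nat_lit 1, nat_lit 456, nat_lit 225, nat_lit 13]⟩, ⟨p046_k5, nat_lit 0, nat_lit 0, nat_lit 50, nat_lit 0, nat_lit 0, [nat_lit 4688000000, nat_lit 6250000000, nat_lit 11872000000], [], [nat_lit 6557959788,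 nat_lit 9642074736, nat_lit 12196172496, nat_lit 14779229402, nat_lit 21910288365, nat_lit 24045284417, nat_lit 24551047443, nat_lit 26185247127], nat_lit 0, nat_lit 0, nat_lit 0, nat_lit 0, nat_lit 0, nat_lit 0, [], [nat_lit 48, nat_lit 40, nat_lit 40, nat_lit 80, nat_lit 12, nat_lit 456, nat_lit 225, nat_lit 11]⟩,
 zbF0, [⟨nat_lit 16, nat_lit 100, nat_lit 95, nat_lit 76, nat_lit 344926909⟩, ⟨nat_lit 7, nat_lit 90, nat_lit 100, nat_lit 74, nat_lit 861612454⟩]⟩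
noncomputable def p046_l107 : Lf2 := ⟨nat_lit 0, nat_lit 10, [nat_lit 0, nat_lit 5, nat_lit 5, nat_lit 20], false, nat_lit 160, nat_lit 308, nat_lit 160, nat_lit 336, ⟨nat_lit 1000, nat_lit 0, nat_lit 0, nat_lit 0, nat_lit 0, nat_lit 0, nat_lit 0, nat_lit 0, nat_lit 0, nat_lit 0, nat_lit 0, nat_lit 0, nat_lit 0, nat_lit 0, nat_lit 0, nat_lit 0, false, false⟩,
 nat_lit 0, nat_lit 12225, nat_lit 0, nat_lit 0, nat_lit 7445, nat_lit 8190, nat_lit 2529, nat_lit 0, nat_lit 0, nat_lit 0, nat_lit 0, nat_lit 0, nat_lit 0, nat_lit 0, nat_lit 0, nat_lit 0, nat_lit 0, nat_lit 0, [],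
 ⟨p046_k4, nat_lit 0, nat_lit 0, nat_lit 470, nat_lit 0, nat_lit 809865, [nat_lit 4688000000, nat_lit 6250000000, nat_lit 9842000000], [], [nat_lit 17458984180, nat_lit 17985118120, nat_lit 27248783625, nat_lit 25470590045, nat_lit 22626907258, nat_lit 22981799264, nat_lit 23706496811, nat_lit 24108894120], nat_lit 1271250, nat_lit 1271250, nat_lit 780000, nat_lit 1762500, nat_lit 1271250, nat_lit 1271250, [nat_lit 1100000, nat_lit 1442500, nat_lit 1271250], [nat_lit 11, nat_lit 40, nat_lit 40, nat_lit 80, nat_lit 1, nat_lit 456, nat_lit 225, nat_lit 13]⟩, ⟨p046_k5, nat_lit 0, nat_lit 0, nat_lit 54, nat_lit 0, nat_lit 0, [nat_lit 4688000000, nat_lit 6250000000, nat_lit 11872000000], [], [nat_lit 6454172680, nat_lit 10586627720, nat_lit 12108858560, nat_lit 15715342840, nat_lit 21937562440, nat_lit 24796112792, nat_lit 24574891465, nat_lit 26761566985], nat_lit 0, nat_lit 0, nat_lit 0, nat_lit 0, nat_lit 0, nat_lit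 0, [], [nat_lit 48, nat_lit 40, nat_lit 40, nat_lit 80, nat_lit 12, nat_lit 456, nat_lit 225, nat_lit 11]⟩,
 zbF0, [⟨nat_lit 16, nat_lit 100, nat_lit 99, nat_lit 77, nat_lit 506994600⟩, ⟨nat_lit 7, nat_lit 92, nat_lit 100, nat_lit 75, nat_lit 842843624⟩]⟩
noncomputable def b_V_600_600_10_36 : St := ⟨true, nat_lit 1, nat_lit 0, nat_lit 1, nat_lit 80, nat_lit 260, nat_lit 280, nat_lit 240, nat_lit 280, nat_lit 120, nat_lit 240, nat_lit 40, nat_lit 80, nat_lit 160, nat_lit 320, nat_lit 0, nat_lit 336, nat_lit 0, nat_lit 40, nat_lit 0, nat_lit 0, nat_lit 0, nat_lit 0⟩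
theorem d_V_600_600_10_36 (h : EB TB.env) : Dead b_V_600_600_10_36 := chkB_sound0 h (T :=
(.spl (nat_lit 5) (nat_lit 160)
(.leaf p046_l105)
(.spl (nat_lit 0) (nat_lit 270)
(.ord (.leaf p046_l106))
(.trX (nat_lit 16) (nat_lit 100) (nat_lit 90) (nat_lit 85) (nat_lit 308) (.leaf p046_l107))))) (by decide +kernel)
noncomputable def p046_l108 : Lf2 := ⟨nat_lit 0, nat_lit 6, [nat_lit 47, nat_lit 5, nat_lit 5, nat_lit 20], false, nat_lit 0, nat_lit 336, nat_lit 0, nat_lit 336, ⟨nat_lit 1000, nat_lit 0, nat_lit 0, nat_lit 0, nat_lit 0, nat_lit 0, nat_lit 0, nat_lit 0, nat_lit 0, nat_lit 0, nat_lit 0, nat_lit 0, nat_lit 0, nat_lit 0, nat_lit 0, nat_lit 0, false, false⟩,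
 nat_lit 0, nat_lit 15921, nat_lit 0, nat_lit 0, nat_lit 8428, nat_lit 8868, nat_lit 1109, nat_lit 0, nat_lit 0, nat_lit 923, nat_lit 0, nat_lit 0, nat_lit 0, nat_lit 0, nat_lit 0, nat_lit 0, nat_lit 0, nat_lit 0, [],
 ⟨p046_k21, nat_lit 0, nat_lit 0, nat_lit 338, nat_lit 0, nat_lit 267923, [nat_lit 4688000000, nat_lit 7968000001, nat_lit 9842000000], [], [nat_lit 29389865906, nat_lit 29929658582, nat_lit 40193817746, nat_lit 40458238194, nat_lit 31114282206, nat_lit 30181956839, nat_lit 36103456900, nat_lit 36356927821], nat_lit 1271250, nat_lit 1271250, nat_lit 1271250, nat_lit 1271250, nat_lit 0, nat_lit 2373000, [nat_lit 1100000, nat_lit 1785000, nat_lit 1271250], [nat_lit 29, nat_lit 40, nat_lit 40, nat_lit 80, nat_lit 17, nat_lit 483, nat_lit 250, nat_lit 14]⟩, ⟨p046_k21, nat_lit 0, nat_lit 0, nat_lit 225, nat_lit 0, nat_lit 0, [nat_lit 4688000000, nat_lit 7968000000, nat_lit 9842000000], [], [nat_lit 25750299564,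 nat_lit 26467113168, nat_lit 41018931456, nat_lit 41569964264, nat_lit 27062400220, nat_lit 27395121441, nat_lit 36622756516, nat_lit 36876815805], nat_lit 0, nat_lit 0, nat_lit 0, nat_lit 0, nat_lit 0, nat_lit 0, [], [nat_lit 29, nat_lit 40, nat_lit 40, nat_lit 80, nat_lit 17, nat_lit 483, nat_lit 250, nat_lit 14]⟩,
 zbF0, [⟨nat_lit 4, nat_lit 86, nat_lit 100, nat_lit 73, nat_lit 175873521⟩, ⟨nat_lit 7, nat_lit 86, nat_lit 100, nat_lit 73, nat_lit 163776909⟩]⟩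
noncomputable def p046_l109 : Lf2 := ⟨nat_lit 0, nat_lit 6, [nat_lit 47, nat_lit 5, nat_lit 5, nat_lit 20], false, nat_lit 0, nat_lit 328, nat_lit 0, nat_lit 336, ⟨nat_lit 1000, nat_lit 0, nat_lit 0, nat_lit 0, nat_lit 0, nat_lit 0, nat_lit 0, nat_lit 0, nat_lit 0, nat_lit 0, nat_lit 0, nat_lit 0, nat_lit 0, nat_lit 0, nat_lit 0, nat_lit 0, false, false⟩,
 nat_lit 0, nat_lit 12957, nat_lit 0, nat_lit 0, nat_lit 7198, nat_lit 7893, nat_lit 3788, nat_lit 0, nat_lit 0, nat_lit 907, nat_lit 0, nat_lit 0, nat_lit 0, nat_lit 8009676682072, nat_lit 0, nat_lit 0, nat_lit 0, nat_lit 0, [],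
 ⟨p046_k22, nat_lit 0, nat_lit 0, nat_lit 419, nat_lit 0, nat_lit 456658, [nat_lit 4688000000, nat_lit 7968000001, nat_lit 9842000000], [], [nat_lit 28100398251, nat_lit 28377425739, nat_lit 37341527604, nat_lit 37845456392, nat_lit 27390197704, nat_lit 26872503567, nat_lit 34438812045, nat_lit 34701456412], nat_lit 1271250, nat_lit 1271250, nat_lit 1271250, nat_lit 1271250, nat_lit 0, nat_lit 2316500, [nat_lit 1100000, nat_lit 1785000, nat_lit 1271250], [nat_lit 29, nat_lit 40, nat_lit 40, nat_lit 80, nat_lit 17, nat_lit 483, nat_lit 250, nat_lit 14]⟩, ⟨p046_k21, nat_lit 0, nat_lit 0, nat_lit 225, nat_lit 0, nat_lit 0, [nat_lit 4688000000, nat_lit 7968000000, nat_lit 9842000000], [], [nat_lit 25834972764, nat_lit 27178406622, nat_lit 39042637608, nat_lit 39704836426, nat_lit 27836893720, nat_lit 28524462701, nat_lit 35644024057, nat_lit 35978156423], nat_lit 0, nat_lit 0, nat_lit 0, nat_lit 0, nat_lit 0, nat_lit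 0, [], [nat_lit 29, nat_lit 40, nat_lit 40, nat_lit 80, nat_lit 17, nat_lit 483, nat_lit 250, nat_lit 14]⟩,
 zbF0, [⟨nat_lit 4, nat_lit 90, nat_lit 100, nat_lit 74, nat_lit 188535083⟩, ⟨nat_lit 19, nat_lit 100, nat_lit 88, nat_lit 74, nat_lit 181024152⟩]⟩
noncomputable def p046_l110 : Lf2 := ⟨nat_lit 1, nat_lit 10, [nat_lit 0, nat_lit 5, nat_lit 5, nat_lit 20], false, nat_lit 0, nat_lit 336, nat_lit 0, nat_lit 336, zbN0,
 nat_lit 0, nat_lit 0, nat_lit 0, nat_lit 0, nat_lit 0, nat_lit 0, nat_lit 0, nat_lit 0, nat_lit 0, nat_lit 0, nat_lit 0, nat_lit 0, nat_lit 0, nat_lit 0, nat_lit 0, nat_lit 0, nat_lit 0, nat_lit 0, [],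
 C1.Rw.none, C1.Rw.none,
 zbF0, []⟩
noncomputable def p046_l111 : Lf2 := ⟨nat_lit 0, nat_lit 10, [nat_lit 0, nat_lit 5, nat_lit 5, nat_lit 20], false, nat_lit 0, nat_lit 320, nat_lit 0, nat_lit 160, ⟨nat_lit 1000, nat_lit 0, nat_lit 0, nat_lit 0, nat_lit 0, nat_lit 0, nat_lit 0, nat_lit 0, nat_lit 0, nat_lit 0, nat_lit 0, nat_lit 0, nat_lit 0, nat_lit 0, nat_lit 0, nat_lit 0, false, false⟩,
 nat_lit 0, nat_lit 11234, nat_lit 0, nat_lit 0, nat_lit 6539, nat_lit 7766, nat_lit 2869, nat_lit 0, nat_lit 0, nat_lit 1351, nat_lit 0, nat_lit 0, nat_lit 0, nat_lit 23357303398756, nat_lit 0, nat_lit 0, nat_lit 0, nat_lit 0, [],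
 ⟨p046_k11, nat_lit 0, nat_lit 0, nat_lit 585, nat_lit 0, nat_lit 864007, [nat_lit 4688000000, nat_lit 7968000001, nat_lit 9842000000], [], [nat_lit 30050900660, nat_lit 30677775780, nat_lit 36158281956, nat_lit 37128964024, nat_lit 30511471078, nat_lit 30833412664, nat_lit 33902429592, nat_lit 34054570316], nat_lit 1271250, nat_lit 1271250, nat_lit 1271250, nat_lit 1271250, nat_lit 0, nat_lit 2260000, [nat_lit 1100000, nat_lit 1785000, nat_lit 1271250], [nat_lit 29, nat_lit 40, nat_lit 40, nat_lit 80, nat_lit 17, nat_lit 483, nat_lit 250, nat_lit 14]⟩, ⟨p046_k23, nat_lit 0, nat_lit 0, nat_lit 251, nat_lit 0, nat_lit 0, [nat_lit 4688000000, nat_lit 7968000000, nat_lit 11872000000], [], [nat_lit 25669539676, nat_lit 27955259748, nat_lit 38819471144, nat_lit 40340881096, nat_lit 20166762808, nat_lit 22241356304, nat_lit 31699228952, nat_lit 33003185856], nat_lit 0, nat_lit 0, nat_lit 0, nat_lit 0, nat_lit 0, nat_lit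 0, [], [nat_lit 21, nat_lit 40, nat_lit 40, nat_lit 80, nat_lit 14, nat_lit 456, nat_lit 225, nat_lit 11]⟩,
 zbF0, [⟨nat_lit 4, nat_lit 97, nat_lit 100, nat_lit 76, nat_lit 145836984⟩, ⟨nat_lit 21, nat_lit 83, nat_lit 100, nat_lit 83, nat_lit 38581880⟩]⟩
noncomputable def p046_l112 : Lf2 := ⟨nat_lit 0, nat_lit 10, [nat_lit 0, nat_lit 5, nat_lit 5, nat_lit 20], false, nat_lit 0, nat_lit 320, nat_lit 160, nat_lit 336, ⟨nat_lit 1000, nat_lit 0, nat_lit 0, nat_lit 0, nat_lit 0, nat_lit 0, nat_lit 0, nat_lit 0, nat_lit 0, nat_lit 0, nat_lit 0, nat_lit 0, nat_lit 0, nat_lit 0, nat_lit 0, nat_lit 0, false, false⟩,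
 nat_lit 0, nat_lit 10997, nat_lit 0, nat_lit 0, nat_lit 6401, nat_lit 5821, nat_lit 2403, nat_lit 0, nat_lit 0, nat_lit 0, nat_lit 0, nat_lit 0, nat_lit 0, nat_lit 0, nat_lit 0, nat_lit 0, nat_lit 0, nat_lit 0, [],
 ⟨p046_k11, nat_lit 0, nat_lit 0, nat_lit 489, nat_lit 0, nat_lit 647253, [nat_lit 4688000000, nat_lit 7968000001, nat_lit 9842000000], [], [nat_lit 29578141336, nat_lit 29844547083, nat_lit 35804973804, nat_lit 36286422410, nat_lit 29406357712, nat_lit 29609342154, nat_lit 33522925514, nat_lit 33626798315], nat_lit 1271250, nat_lit 1271250, nat_lit 1271250, nat_lit 1271250, nat_lit 0, nat_lit 2260000, [nat_lit 1100000, nat_lit 1785000, nat_lit 1271250], [nat_lit 29, nat_lit 40, nat_lit 40, nat_lit 80, nat_lit 17, nat_lit 483, nat_lit 250, nat_lit 14]⟩, ⟨p046_k23, nat_lit 0, nat_lit 0, nat_lit 95, nat_lit 0, nat_lit 0, [nat_lit 4688000000, nat_lit 7968000000, nat_lit 11872000000], [], [nat_lit 15499788304,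 nat_lit 17456208841, nat_lit 27656748100, nat_lit 28752355768, nat_lit 24483318184, nat_lit 25693546966, nat_lit 33026606675, nat_lit 33776561199], nat_lit 0, nat_lit 0, nat_lit 0, nat_lit 0, nat_lit 0, nat_lit 0, [], [nat_lit 21, nat_lit 40, nat_lit 40, nat_lit 80, nat_lit 14, nat_lit 538, nat_lit 300, nat_lit 13]⟩,
 zbF0, [⟨nat_lit 16, nat_lit 100, nat_lit 95, nat_lit 76, nat_lit 189384757⟩, ⟨nat_lit 19, nat_lit 100, nat_lit 90, nat_lit 74, nat_lit 610033360⟩]⟩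
noncomputable def p046_l113 : Lf2 := ⟨nat_lit 0, nat_lit 10, [nat_lit 0, nat_lit 5, nat_lit 5, nat_lit 20], false, nat_lit 0, nat_lit 308, nat_lit 160, nat_lit 336, ⟨nat_lit 1000, nat_lit 0, nat_lit 0, nat_lit 0, nat_lit 0, nat_lit 0, nat_lit 0, nat_lit 0, nat_lit 0, nat_lit 0, nat_lit 0, nat_lit 0, nat_lit 0, nat_lit 0, nat_lit 0, nat_lit 0, false, false⟩,
 nat_lit 0, nat_lit 10181, nat_lit 0, nat_lit 0, nat_lit 6200, nat_lit 5779, nat_lit 1785, nat_lit 0, nat_lit 0, nat_lit 0, nat_lit 0, nat_lit 0, nat_lit 0, nat_lit 0, nat_lit 0, nat_lit 0, nat_lit 0, nat_lit 0, [],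
 ⟨p046_k12, nat_lit 0, nat_lit 0, nat_lit 562, nat_lit 0, nat_lit 809865, [nat_lit 4688000000, nat_lit 7968000001, nat_lit 9842000000], [], [nat_lit 29661554202, nat_lit 29926362602, nat_lit 36026111600, nat_lit 36245243200, nat_lit 30194155891, nat_lit 30405329480, nat_lit 34317277761, nat_lit 34429241360], nat_lit 1271250, nat_lit 1271250, nat_lit 1271250, nat_lit 1271250, nat_lit 0, nat_lit 2175250, [nat_lit 1100000, nat_lit 1785000, nat_lit 1271250], [nat_lit 29, nat_lit 40, nat_lit 40, nat_lit 80, nat_lit 17, nat_lit 483, nat_lit 250, nat_lit 13]⟩, ⟨p046_k23, nat_lit 0, nat_lit 0, nat_lit 97, nat_lit 0, nat_lit 0, [nat_lit 4688000000, nat_lit 7968000000, nat_lit 11872000000], [], [nat_lit 15559906096, nat_lit 18158722980, nat_lit 27666739900, nat_lit 29124520076, nat_lit 24515219737, nat_lit 26124854640, nat_lit 32977037166, nat_lit 33976751881], nat_lit 0, nat_lit 0, nat_lit 0, nat_lit 0, nat_lit 0, nat_lit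 0, [], [nat_lit 21, nat_lit 40, nat_lit 40, nat_lit 80, nat_lit 14, nat_lit 538, nat_lit 300, nat_lit 13]⟩,
 zbF0, [⟨nat_lit 4, nat_lit 99, nat_lit 100, nat_lit 77, nat_lit 198810915⟩, ⟨nat_lit 7, nat_lit 92, nat_lit 100, nat_lit 75, nat_lit 590966296⟩]⟩
noncomputable def b_V_600_600_10_37 : St := ⟨true, nat_lit 1, nat_lit 0, nat_lit 1, nat_lit 80, nat_lit 240, nat_lit 280, nat_lit 240, nat_lit 280, nat_lit 240, nat_lit 400, nat_lit 40, nat_lit 80, nat_lit 0, nat_lit 336, nat_lit 0, nat_lit 336, nat_lit 0, nat_lit 40, nat_lit 0, nat_lit 0, nat_lit 0, nat_lit 0⟩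
theorem d_V_600_600_10_37 (h : EB TB.env) : Dead b_V_600_600_10_37 := chkB_sound0 h (T :=
(.spl (nat_lit 0) (nat_lit 260)
(.ord (.spl (nat_lit 6) (nat_lit 24)
(.spl (nat_lit 0) (nat_lit 250)
(.ord (.leaf p046_l108))
(.trX (nat_lit 16) (nat_lit 100) (nat_lit 81) (nat_lit 83) (nat_lit 328) (.leaf p046_l109)))
(.leaf p046_l110)))
(.trX (nat_lit 16) (nat_lit 100) (nat_lit 85) (nat_lit 84) (nat_lit 320) (.spl (nat_lit 5) (nat_lit 160)
(.leaf p046_l111)
(.spl (nat_lit 0) (nat_lit 270)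
(.ord (.leaf p046_l112))
(.trX (nat_lit 16) (nat_lit 100) (nat_lit 90) (nat_lit 85) (nat_lit 308) (.leaf p046_l113))))))) (by decide +kernel)
noncomputable def p046_l114 : Lf2 := ⟨nat_lit 0, nat_lit 3, [nat_lit 45, nat_lit 5, nat_lit 5, nat_lit 20], true, nat_lit 0, nat_lit 80, nat_lit 0, nat_lit 336, ⟨nat_lit 0, nat_lit 0, nat_lit 1000, nat_lit 6, nat_lit 95, nat_lit 0, nat_lit 21, nat_lit 427, nat_lit 1067, nat_lit 223, nat_lit 84017, nat_lit 286, nat_lit 63455040, nat_lit 0, nat_lit 0, nat_lit 1034969, false, false⟩,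
 nat_lit 0, nat_lit 7147, nat_lit 0, nat_lit 0, nat_lit 3783, nat_lit 0, nat_lit 382, nat_lit 0, nat_lit 0, nat_lit 0, nat_lit 0, nat_lit 0, nat_lit 0, nat_lit 0, nat_lit 80, nat_lit 1000000, nat_lit 0, nat_lit 0, [(nat_lit 6, [(nat_lit 6, nat_lit 1000)])],
 ⟨p046_k9, nat_lit 0, nat_lit 0, nat_lit 270, nat_lit 0, nat_lit 114565, [nat_lit 2257066667, nat_lit 1408000000, nat_lit 211200000], [], [nat_lit 12133545938, nat_lit 12792262591, nat_lit 11157194475, nat_lit 11806911622, nat_lit 10729493525, nat_lit 11373866717, nat_lit 10053822707, nat_lit 10666436610], nat_lit 1271250, nat_lit 1271250, nat_lit 88400, nat_lit 490000, nat_lit 0, nat_lit 490000, [nat_lit 1100000, nat_lit 1442500, nat_lit 1271250], [nat_lit 9, nat_lit 40, nat_lit 40, nat_lit 80, nat_lit 2, nat_lit 249, nat_lit 40, nat_lit 9]⟩, C1.Rw.none,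
 ⟨nat_lit 6123, nat_lit 6325, ⟨.ofNat (nat_lit 164319), .ofNat (nat_lit 295942), .ofNat (nat_lit 169661), .ofNat (nat_lit 301284), .ofNat (nat_lit 172944), .ofNat (nat_lit 301553), .ofNat (nat_lit 178281), .ofNat (nat_lit 306890)⟩, ⟨.negSucc (nat_lit 82265), .ofNat (nat_lit 82263), .negSucc (nat_lit 39529), .ofNat (nat_lit 124999), .negSucc (nat_lit 72689), .ofNat (nat_lit 88071), .negSucc (nat_lit 29993), .ofNat (nat_lit 130768)⟩⟩, [⟨nat_lit 0, nat_lit 100, nat_lit 99, nat_lit 47, nat_lit 170080550⟩]⟩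
noncomputable def p046_l115 : Lf2 := ⟨nat_lit 0, nat_lit 3, [nat_lit 45, nat_lit 5, nat_lit 5, nat_lit 20], true, nat_lit 0, nat_lit 80, nat_lit 0, nat_lit 332, ⟨nat_lit 0, nat_lit 0, nat_lit 1000, nat_lit 6, nat_lit 99, nat_lit 0, nat_lit 22, nat_lit 443, nat_lit 1067, nat_lit 223, nat_lit 91267, nat_lit 289, nat_lit 63131957, nat_lit 0, nat_lit 0, nat_lit 1103397, false, false⟩,
 nat_lit 0, nat_lit 6988, nat_lit 0, nat_lit 0, nat_lit 3790, nat_lit 0, nat_lit 608, nat_lit 0, nat_lit 0, nat_lit 0, nat_lit 0, nat_lit 0, nat_lit 0, nat_lit 1073786077365, nat_lit 80, nat_lit 1000000, nat_lit 0, nat_lit 0, [(nat_lit 6, [(nat_lit 6, nat_lit 1000)])],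
 ⟨p046_k24, nat_lit 0, nat_lit 0, nat_lit 268, nat_lit 0, nat_lit 137988, [nat_lit 2257066667, nat_lit 1408000000, nat_lit 211200000], [], [nat_lit 12187713722, nat_lit 12527750957, nat_lit 11348543262, nat_lit 11673680817, nat_lit 10809005462, nat_lit 11130799657, nat_lit 10221864562, nat_lit 10528429257], nat_lit 1271250, nat_lit 1271250, nat_lit 111251, nat_lit 490000, nat_lit 0, nat_lit 490000, [nat_lit 1100000, nat_lit 1442500, nat_lit 1271250], [nat_lit 9, nat_lit 40, nat_lit 40, nat_lit 80, nat_lit 2, nat_lit 249, nat_lit 40, nat_lit 9]⟩, C1.Rw.none,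
 ⟨nat_lit 6123, nat_lit 6225, ⟨.ofNat (nat_lit 182121), .ofNat (nat_lit 304098), .ofNat (nat_lit 187461), .ofNat (nat_lit 309437), .ofNat (nat_lit 186319), .ofNat (nat_lit 306890), .ofNat (nat_lit 191656), .ofNat (nat_lit 312227)⟩, ⟨.negSucc (nat_lit 77442), .ofNat (nat_lit 85192), .negSucc (nat_lit 34729), .ofNat (nat_lit 127905), .negSucc (nat_lit 72689), .ofNat (nat_lit 88071), .negSucc (nat_lit 29993), .ofNat (nat_lit 130768)⟩⟩, [⟨nat_lit 0, nat_lit 100, nat_lit 100, nat_lit 50, nat_lit 165325315⟩]⟩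
noncomputable def p046_l116 : Lf2 := ⟨nat_lit 1, nat_lit 6, [nat_lit 47, nat_lit 5, nat_lit 5, nat_lit 20], false, nat_lit 0, nat_lit 80, nat_lit 0, nat_lit 336, zbN0,
 nat_lit 0, nat_lit 0, nat_lit 0, nat_lit 0, nat_lit 0, nat_lit 0, nat_lit 0, nat_lit 0, nat_lit 0, nat_lit 0, nat_lit 0, nat_lit 0, nat_lit 0, nat_lit 0, nat_lit 0, nat_lit 0, nat_lit 0, nat_lit 0, [],
 C1.Rw.none, C1.Rw.none,
 zbF0, []⟩
noncomputable def p046_l117 : Lf2 := ⟨nat_lit 0, nat_lit 4, [nat_lit 38, nat_lit 5, nat_lit 5, nat_lit 20], true, nat_lit 0, nat_lit 40, nat_lit 0, nat_lit 336, ⟨nat_lit 0, nat_lit 0, nat_lit 1000, nat_lit 6, nat_lit 100, nat_lit 0, nat_lit 6, nat_lit 0, nat_lit 150, nat_lit 212, nat_lit 93750, nat_lit 290, nat_lit 63028936, nat_lit 0, nat_lit 0, nat_lit 1124758, false, false⟩,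
 nat_lit 0, nat_lit 7382, nat_lit 0, nat_lit 0, nat_lit 4101, nat_lit 0, nat_lit 627, nat_lit 0, nat_lit 0, nat_lit 0, nat_lit 0, nat_lit 0, nat_lit 0, nat_lit 23175763331851, nat_lit 80, nat_lit 1000000, nat_lit 0, nat_lit 0, [(nat_lit 6, [(nat_lit 6, nat_lit 1000)])],
 ⟨p046_k25, nat_lit 0, nat_lit 0, nat_lit 274, nat_lit 0, nat_lit 189571, [nat_lit 2257066667, nat_lit 1408000000, nat_lit 211200000], [], [nat_lit 12993891218, nat_lit 13498104821, nat_lit 13773033188, nat_lit 13262165467, nat_lit 12833904748, nat_lit 12558681091, nat_lit 14422280966, nat_lit 13918553086], nat_lit 1271250, nat_lit 1271250, nat_lit 111251, nat_lit 490000, nat_lit 0, nat_lit 230001, [nat_lit 1100000, nat_lit 1442500, nat_lit 1271250], [nat_lit 9, nat_lit 40, nat_lit 40, nat_lit 80, nat_lit 2, nat_lit 238, nat_lit 30, nat_lit 8]⟩, C1.Rw.none,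
 ⟨nat_lit 6020, nat_lit 6124, ⟨.ofNat (nat_lit 180982), .ofNat (nat_lit 301553), .ofNat (nat_lit 196993), .ofNat (nat_lit 317564), .ofNat (nat_lit 185145), .ofNat (nat_lit 304325), .ofNat (nat_lit 201152), .ofNat (nat_lit 320331)⟩, ⟨.negSucc (nat_lit 72689), .ofNat (nat_lit 7691), .negSucc (nat_lit 29993), .ofNat (nat_lit 50387), .negSucc (nat_lit 68003), .ofNat (nat_lit 11449), .negSucc (nat_lit 25318), .ofNat (nat_lit 54133)⟩⟩, []⟩
noncomputable def p046_l118 : Lf2 := ⟨nat_lit 0, nat_lit 4, [nat_lit 38, nat_lit 5, nat_lit 5, nat_lit 20], true, nat_lit 0, nat_lit 40, nat_lit 0, nat_lit 336, ⟨nat_lit 0, nat_lit 0, nat_lit 1000, nat_lit 6, nat_lit 103, nat_lit 0, nat_lit 7, nat_lit 0, nat_lit 17, nat_lit 214, nat_lit 98817, nat_lit 292, nat_lit 62845075, nat_lit 0, nat_lit 0, nat_lit 1162358, false, false⟩,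
 nat_lit 0, nat_lit 7115, nat_lit 0, nat_lit 0, nat_lit 4046, nat_lit 0, nat_lit 688, nat_lit 0, nat_lit 0, nat_lit 0, nat_lit 0, nat_lit 0, nat_lit 0, nat_lit 20988189727419, nat_lit 80, nat_lit 1000000, nat_lit 0, nat_lit 0, [(nat_lit 6, [(nat_lit 6, nat_lit 1000)])],
 ⟨p046_k26, nat_lit 0, nat_lit 0, nat_lit 296, nat_lit 0, nat_lit 236939, [nat_lit 2257066667, nat_lit 1408000000, nat_lit 211200000], [], [nat_lit 13411673916, nat_lit 13912172104, nat_lit 13033703744, nat_lit 12871112177, nat_lit 12666519246, nat_lit 12976574789, nat_lit 13693626818, nat_lit 13196654615], nat_lit 1271250, nat_lit 1271250, nat_lit 111251, nat_lit 490000, nat_lit 0, nat_lit 230001, [nat_lit 1100000, nat_lit 1442500, nat_lit 1271250], [nat_lit 9, nat_lit 40, nat_lit 40, nat_lit 80, nat_lit 2, nat_lit 238, nat_lit 30, nat_lit 8]⟩, C1.Rw.none,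
 ⟨nat_lit 5916, nat_lit 6021, ⟨.ofNat (nat_lit 185145), .ofNat (nat_lit 304325), .ofNat (nat_lit 206488), .ofNat (nat_lit 325667), .ofNat (nat_lit 189276), .ofNat (nat_lit 307076), .ofNat (nat_lit 210615), .ofNat (nat_lit 328416)⟩, ⟨.negSucc (nat_lit 68003), .ofNat (nat_lit 11449), .negSucc (nat_lit 25318), .ofNat (nat_lit 54133), .negSucc (nat_lit 63383), .ofNat (nat_lit 15150), .negSucc (nat_lit 20704), .ofNat (nat_lit 57829)⟩⟩, [⟨nat_lit 0, nat_lit 100, nat_lit 100, nat_lit 60, nat_lit 86072030⟩]⟩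
noncomputable def p046_l119 : Lf2 := ⟨nat_lit 0, nat_lit 6, [nat_lit 47, nat_lit 5, nat_lit 5, nat_lit 20], true, nat_lit 0, nat_lit 40, nat_lit 0, nat_lit 336, ⟨nat_lit 0, nat_lit 0, nat_lit 1000, nat_lit 6, nat_lit 102, nat_lit 0, nat_lit 7, nat_lit 0, nat_lit 67, nat_lit 213, nat_lit 98817, nat_lit 292, nat_lit 62897457, nat_lit 0, nat_lit 0, nat_lit 1151713, false, false⟩,
 nat_lit 0, nat_lit 7104, nat_lit 0, nat_lit 387, nat_lit 3946, nat_lit 0, nat_lit 695, nat_lit 0, nat_lit 0, nat_lit 0, nat_lit 0, nat_lit 0, nat_lit 0, nat_lit 18545516201046, nat_lit 78, nat_lit 467800, nat_lit 0, nat_lit 0, [(nat_lit 6, [(nat_lit 5, nat_lit 887), (nat_lit 6, nat_lit 113)])],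
 ⟨p046_k7, nat_lit 0, nat_lit 0, nat_lit 301, nat_lit 0, nat_lit 64999, [nat_lit 2615819734, nat_lit 1642531201, nat_lit 12408000], [], [nat_lit 13072277923, nat_lit 13748269704, nat_lit 11958919645, nat_lit 12621629359, nat_lit 12158173593, nat_lit 12812123853, nat_lit 11333069473, nat_lit 11976820148], nat_lit 1271250, nat_lit 1271250, nat_lit 111251, nat_lit 490000, nat_lit 0, nat_lit 230001, [nat_lit 1100000, nat_lit 1442500, nat_lit 1271250], [nat_lit 11, nat_lit 40, nat_lit 40, nat_lit 80, nat_lit 1, nat_lit 317, nat_lit 100, nat_lit 10]⟩, C1.Rw.none,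
 ⟨nat_lit 5916, nat_lit 6124, ⟨.ofNat (nat_lit 180982), .ofNat (nat_lit 301553), .ofNat (nat_lit 202330), .ofNat (nat_lit 322901), .ofNat (nat_lit 189276), .ofNat (nat_lit 307076), .ofNat (nat_lit 210615), .ofNat (nat_lit 328416)⟩, ⟨.negSucc (nat_lit 72689), .ofNat (nat_lit 7691), .negSucc (nat_lit 29993), .ofNat (nat_lit 50387), .negSucc (nat_lit 63383), .ofNat (nat_lit 15150), .negSucc (nat_lit 20704), .ofNat (nat_lit 57829)⟩⟩, [⟨nat_lit 0, nat_lit 100, nat_lit 100, nat_lit 60, nat_lit 181526905⟩]⟩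
noncomputable def p046_l120 : Lf2 := ⟨nat_lit 0, nat_lit 6, [nat_lit 47, nat_lit 5, nat_lit 5, nat_lit 20], true, nat_lit 40, nat_lit 80, nat_lit 0, nat_lit 336, ⟨nat_lit 0, nat_lit 0, nat_lit 1000, nat_lit 6, nat_lit 100, nat_lit 1000, nat_lit 28, nat_lit 1000, nat_lit 7350, nat_lit 236, nat_lit 93750, nat_lit 290, nat_lit 62297079, nat_lit 0, nat_lit 0, nat_lit 1449340, false, false⟩,
 nat_lit 0, nat_lit 8773, nat_lit 0, nat_lit 0, nat_lit 4873, nat_lit 0, nat_lit 1284, nat_lit 0, nat_lit 0, nat_lit 0, nat_lit 0, nat_lit 0, nat_lit 0, nat_lit 25364414921289, nat_lit 69, nat_lit 400000, nat_lit 0, nat_lit 0, [(nat_lit 6, [(nat_lit 5, nat_lit 1000)])],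
 ⟨p046_k7, nat_lit 0, nat_lit 0, nat_lit 312, nat_lit 0, nat_lit 194512, [nat_lit 2521600001, nat_lit 1460000001, nat_lit 7200000], [], [nat_lit 11824671523, nat_lit 12354445482, nat_lit 13426861330, nat_lit 12828308304, nat_lit 13022549068, nat_lit 12419815008, nat_lit 14729853140, nat_lit 14139784007], nat_lit 1271250, nat_lit 1271250, nat_lit 111251, nat_lit 490000, nat_lit 230001, nat_lit 490000, [nat_lit 1100000, nat_lit 1442500, nat_lit 1271250], [nat_lit 11, nat_lit 40, nat_lit 40, nat_lit 80, nat_lit 1, nat_lit 345, nat_lit 125, nat_lit 10]⟩, C1.Rw.none,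
 ⟨nat_lit 6020, nat_lit 6124, ⟨.ofNat (nat_lit 180982), .ofNat (nat_lit 301553), .ofNat (nat_lit 196993), .ofNat (nat_lit 317564), .ofNat (nat_lit 185145), .ofNat (nat_lit 304325), .ofNat (nat_lit 201152), .ofNat (nat_lit 320331)⟩, ⟨.ofNat (nat_lit 7691), .ofNat (nat_lit 88071), .ofNat (nat_lit 50387), .ofNat (nat_lit 130768), .ofNat (nat_lit 11449), .ofNat (nat_lit 90902), .ofNat (nat_lit 54133), .ofNat (nat_lit 133586)⟩⟩, []⟩
noncomputable def p046_l121 : Lf2 := ⟨nat_lit 0, nat_lit 6, [nat_lit 47, nat_lit 5, nat_lit 5, nat_lit 20], true, nat_lit 40, nat_lit 80, nat_lit 0, nat_lit 336, ⟨nat_lit 0, nat_lit 0, nat_lit 1000, nat_lit 6, nat_lit 103, nat_lit 1000, nat_lit 30, nat_lit 1000, nat_lit 8067, nat_lit 237, nat_lit 98817, nat_lit 292, nat_lit 62058678, nat_lit 0, nat_lit 0, nat_lit 1507115, false, false⟩,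
 nat_lit 0, nat_lit 7826, nat_lit 0, nat_lit 0, nat_lit 4451, nat_lit 0, nat_lit 790, nat_lit 0, nat_lit 0, nat_lit 0, nat_lit 0, nat_lit 0, nat_lit 0, nat_lit 23753887437359, nat_lit 123, nat_lit 815800, nat_lit 0, nat_lit 0, [(nat_lit 6, [(nat_lit 5, nat_lit 307), (nat_lit 6, nat_lit 693)])],
 ⟨p046_k8, nat_lit 0, nat_lit 0, nat_lit 331, nat_lit 0, nat_lit 243046, [nat_lit 3080310401, nat_lit 2555523201, nat_lit 90619199], [], [nat_lit 12172414123, nat_lit 12473139915, nat_lit 13473592197, nat_lit 12926873641, nat_lit 13059339445, nat_lit 12508801931, nat_lit 14761557858, nat_lit 14222588493], nat_lit 1271250, nat_lit 1271250, nat_lit 111251, nat_lit 490000, nat_lit 230001, nat_lit 490000, [nat_lit 1100000, nat_lit 1442500, nat_lit 1271250], [nat_lit 11, nat_lit 40, nat_lit 40, nat_lit 80, nat_lit 1, nat_lit 345, nat_lit 125, nat_lit 10]⟩, C1.Rw.none,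
 ⟨nat_lit 5916, nat_lit 6021, ⟨.ofNat (nat_lit 185145), .ofNat (nat_lit 304325), .ofNat (nat_lit 206488), .ofNat (nat_lit 325667), .ofNat (nat_lit 189276), .ofNat (nat_lit 307076), .ofNat (nat_lit 210615), .ofNat (nat_lit 328416)⟩, ⟨.ofNat (nat_lit 11449), .ofNat (nat_lit 90902), .ofNat (nat_lit 54133), .ofNat (nat_lit 133586), .ofNat (nat_lit 15150), .ofNat (nat_lit 93684), .ofNat (nat_lit 57829), .ofNat (nat_lit 136362)⟩⟩, []⟩
noncomputable def p046_l122 : Lf2 := ⟨nat_lit 0, nat_lit 6, [nat_lit 47, nat_lit 5, nat_lit 5, nat_lit 20], false, nat_lit 0, nat_lit 80, nat_lit 0, nat_lit 160, ⟨nat_lit 1000, nat_lit 0, nat_lit 0, nat_lit 0, nat_lit 0, nat_lit 0, nat_lit 0, nat_lit 0, nat_lit 0, nat_lit 0, nat_lit 0, nat_lit 0, nat_lit 0, nat_lit 0, nat_lit 0, nat_lit 0, false, false⟩,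
 nat_lit 6312, nat_lit 13441, nat_lit 0, nat_lit 9417, nat_lit 10457, nat_lit 3341, nat_lit 3912, nat_lit 0, nat_lit 0, nat_lit 1159, nat_lit 0, nat_lit 0, nat_lit 0, nat_lit 0, nat_lit 0, nat_lit 0, nat_lit 0, nat_lit 0, [],
 ⟨p046_k6, nat_lit 0, nat_lit 0, nat_lit 241, nat_lit 0, nat_lit 147886, [nat_lit 4688000000, nat_lit 6250000000, nat_lit 9842000000], [], [nat_lit 13244777468, nat_lit 14353596211, nat_lit 13448664724, nat_lit 14703651873, nat_lit 5908538056, nat_lit 7259374467, nat_lit 10698795072, nat_lit 8055453698], nat_lit 1271250, nat_lit 1271250, nat_lit 490000, nat_lit 1100001, nat_lit 0, nat_lit 490000, [nat_lit 1100000, nat_lit 1442500, nat_lit 1271250], [nat_lit 11, nat_lit 40, nat_lit 40, nat_lit 80, nat_lit 1, nat_lit 345, nat_lit 125, nat_lit 10]⟩, ⟨p046_k6, nat_lit 0, nat_lit 0, nat_lit 241, nat_lit 0, nat_lit 147886, [nat_lit 4688000000, nat_lit 6250000000, nat_lit 9842000000], [], [nat_lit 39616981156,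 nat_lit 38720026227, nat_lit 34497868350, nat_lit 34869305581, nat_lit 33684689658, nat_lit 34036192329, nat_lit 34705734720, nat_lit 35043671153], nat_lit 1271250, nat_lit 1271250, nat_lit 490000, nat_lit 1100001, nat_lit 0, nat_lit 1100001, [nat_lit 1100000, nat_lit 1442500, nat_lit 1271250], [nat_lit 11, nat_lit 40, nat_lit 40, nat_lit 80, nat_lit 1, nat_lit 373, nat_lit 150, nat_lit 11]⟩,
 zbF0, []⟩
noncomputable def p046_l123 : Lf2 := ⟨nat_lit 0, nat_lit 6, [nat_lit 47, nat_lit 5, nat_lit 5, nat_lit 20], false, nat_lit 0, nat_lit 80, nat_lit 0, nat_lit 160, ⟨nat_lit 1000, nat_lit 0, nat_lit 0, nat_lit 0, nat_lit 0, nat_lit 0, nat_lit 0, nat_lit 0, nat_lit 0, nat_lit 0, nat_lit 0, nat_lit 0, nat_lit 0, nat_lit 0, nat_lit 0, nat_lit 0, false, false⟩,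
 nat_lit 7489, nat_lit 13577, nat_lit 0, nat_lit 0, nat_lit 11703, nat_lit 3964, nat_lit 3155, nat_lit 0, nat_lit 0, nat_lit 629, nat_lit 0, nat_lit 0, nat_lit 0, nat_lit 8099575915194, nat_lit 0, nat_lit 0, nat_lit 0, nat_lit 0, [],
 ⟨p046_k7, nat_lit 0, nat_lit 0, nat_lit 319, nat_lit 0, nat_lit 250147, [nat_lit 4688000000, nat_lit 6250000000, nat_lit 9842000000], [], [nat_lit 15694854969, nat_lit 17123554498, nat_lit 22541219219, nat_lit 19706998382, nat_lit 16443728407, nat_lit 13609507570, nat_lit 24998409471, nat_lit 22241147562], nat_lit 1271250, nat_lit 1271250, nat_lit 490000, nat_lit 1100001, nat_lit 0, nat_lit 490000, [nat_lit 1100000, nat_lit 1442500, nat_lit 1271250], [nat_lit 11, nat_lit 40, nat_lit 40, nat_lit 80, nat_lit 1, nat_lit 345, nat_lit 125, nat_lit 10]⟩, ⟨p046_k6, nat_lit 0, nat_lit 0, nat_lit 325, nat_lit 0, nat_lit 265448, [nat_lit 4688000000, nat_lit 6250000000, nat_lit 9842000000], [],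 [nat_lit 41235358224, nat_lit 39106935992, nat_lit 34885121650, nat_lit 35666984698, nat_lit 33913105904, nat_lit 34424604250, nat_lit 38502454128, nat_lit 36659582600], nat_lit 1271250, nat_lit 1271250, nat_lit 490000, nat_lit 1100001, nat_lit 0, nat_lit 1100001, [nat_lit 1100000, nat_lit 1442500, nat_lit 1271250], [nat_lit 11, nat_lit 40, nat_lit 40, nat_lit 80, nat_lit 1, nat_lit 373, nat_lit 150, nat_lit 11]⟩,
 zbF0, []⟩
noncomputable def p046_l124 : Lf2 := ⟨nat_lit 0, nat_lit 6, [nat_lit 47, nat_lit 5, nat_lit 5, nat_lit 20], false, nat_lit 0, nat_lit 80, nat_lit 160, nat_lit 336, ⟨nat_lit 1000, nat_lit 0, nat_lit 0, nat_lit 0, nat_lit 0, nat_lit 0, nat_lit 0, nat_lit 0, nat_lit 0, nat_lit 0, nat_lit 0, nat_lit 0, nat_lit 0, nat_lit 0, nat_lit 0, nat_lit 0, false, false⟩,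
 nat_lit 26415, nat_lit 0, nat_lit 0, nat_lit 0, nat_lit 13984, nat_lit 10223, nat_lit 3080, nat_lit 0, nat_lit 0, nat_lit 1651, nat_lit 0, nat_lit 0, nat_lit 0, nat_lit 29409879165642, nat_lit 0, nat_lit 0, nat_lit 0, nat_lit 0, [],
 ⟨p046_k6, nat_lit 0, nat_lit 0, nat_lit 325, nat_lit 0, nat_lit 265448, [nat_lit 4688000000, nat_lit 6250000000, nat_lit 9842000000], [], [nat_lit 26020527072, nat_lit 18845924000, nat_lit 25500127168, nat_lit 18726864896, nat_lit 18307747232, nat_lit 11534484960, nat_lit 27962264640, nat_lit 21372919936], nat_lit 1271250, nat_lit 1271250, nat_lit 490000, nat_lit 1100001, nat_lit 0, nat_lit 490000, [nat_lit 1100000, nat_lit 1442500, nat_lit 1271250], [nat_lit 11, nat_lit 40, nat_lit 40, nat_lit 80, nat_lit 1, nat_lit 345, nat_lit 125, nat_lit 10]⟩, ⟨p046_k6, nat_lit 0, nat_lit 0, nat_lit 208, nat_lit 0, nat_lit 265448, [nat_lit 4688000000, nat_lit 6250000000, nat_lit 9842000000], [],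 [nat_lit 23495824184, nat_lit 18250832250, nat_lit 25692028108, nat_lit 20670265602, nat_lit 24945631242, nat_lit 25958373646, nat_lit 23054090830, nat_lit 24236507774], nat_lit 1271250, nat_lit 1271250, nat_lit 490000, nat_lit 1100001, nat_lit 1271250, nat_lit 1271250, [nat_lit 1100000, nat_lit 1442500, nat_lit 1271250], [nat_lit 11, nat_lit 40, nat_lit 40, nat_lit 80, nat_lit 1, nat_lit 428, nat_lit 200, nat_lit 12]⟩,
 zbF0, [⟨nat_lit 7, nat_lit 88, nat_lit 100, nat_lit 74, nat_lit 364343800⟩]⟩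
noncomputable def p046_l125 : Lf2 := ⟨nat_lit 0, nat_lit 6, [nat_lit 47, nat_lit 5, nat_lit 5, nat_lit 20], false, nat_lit 80, nat_lit 160, nat_lit 0, nat_lit 336, ⟨nat_lit 0, nat_lit 0, nat_lit 1000, nat_lit 6, nat_lit 112, nat_lit 1000, nat_lit 75, nat_lit 1000, nat_lit 52267, nat_lit 271, nat_lit 117600, nat_lit 299, nat_lit 58898132, nat_lit 0, nat_lit 0, nat_lit 2361213, false, false⟩,
 nat_lit 9814, nat_lit 0, nat_lit 0, nat_lit 0, nat_lit 5195, nat_lit 0, nat_lit 452, nat_lit 0, nat_lit 0, nat_lit 0, nat_lit 0, nat_lit 0, nat_lit 0, nat_lit 24557836375759, nat_lit 147, nat_lit 1000000, nat_lit 0, nat_lit 0, [(nat_lit 6, [(nat_lit 6, nat_lit 1000)])],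
 ⟨p046_k6, nat_lit 0, nat_lit 0, nat_lit 233, nat_lit 0, nat_lit 147886, [nat_lit 3329066667, nat_lit 3042400001, nat_lit 177599999], [], [nat_lit 9290832539, nat_lit 10013885765, nat_lit 8272281228, nat_lit 8392563593, nat_lit 10153618597, nat_lit 10953928428, nat_lit 12804623428, nat_lit 11510325543], nat_lit 1271250, nat_lit 1271250, nat_lit 88400, nat_lit 780000, nat_lit 490000, nat_lit 1100001, [nat_lit 1100000, nat_lit 1442500, nat_lit 1271250], [nat_lit 11, nat_lit 40, nat_lit 40, nat_lit 80, nat_lit 1, nat_lit 373, nat_lit 150, nat_lit 11]⟩, ⟨p046_k6, nat_lit 0, nat_lit 0, nat_lit 332, nat_lit 0, nat_lit 147886, [nat_lit 0, nat_lit 0, nat_lit 0], [], [nat_lit 0, nat_lit 0, nat_lit 0, nat_lit 0, nat_lit 0, nat_lit 0, nat_lit 0, nat_lit 0], nat_lit 1271250, nat_lit 1271250, nat_lit 88400, nat_lit 780000, nat_lit 0, nat_lit 2373000, [nat_lit 1100000, nat_lit 1442500, nat_lit 1271250], [nat_lit 11, nat_lit 40,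 nat_lit 40, nat_lit 80, nat_lit 1, nat_lit 428, nat_lit 200, nat_lit 13]⟩,
 ⟨nat_lit 6123, nat_lit 6325, ⟨.ofNat (nat_lit 164319), .ofNat (nat_lit 378206), .ofNat (nat_lit 175003), .ofNat (nat_lit 388890), .ofNat (nat_lit 172944), .ofNat (nat_lit 381933), .ofNat (nat_lit 183618), .ofNat (nat_lit 392607)⟩, ⟨.ofNat (nat_lit 82263), .ofNat (nat_lit 246791), .ofNat (nat_lit 124999), .ofNat (nat_lit 289527), .ofNat (nat_lit 88071), .ofNat (nat_lit 248833), .ofNat (nat_lit 130768), .ofNat (nat_lit 291529)⟩⟩, [⟨nat_lit 0, nat_lit 100, nat_lit 100, nat_lit 50, nat_lit 90742799⟩]⟩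
noncomputable def p046_l126 : Lf2 := ⟨nat_lit 0, nat_lit 6, [nat_lit 47, nat_lit 5, nat_lit 5, nat_lit 20], false, nat_lit 80, nat_lit 160, nat_lit 0, nat_lit 336, ⟨nat_lit 0, nat_lit 0, nat_lit 1000, nat_lit 6, nat_lit 118, nat_lit 1000, nat_lit 77, nat_lit 1000, nat_lit 54150, nat_lit 272, nat_lit 132017, nat_lit 304, nat_lit 58290769, nat_lit 0, nat_lit 0, nat_lit 2481181, false, false⟩,
 nat_lit 0, nat_lit 8602, nat_lit 0, nat_lit 0, nat_lit 4778, nat_lit 0, nat_lit 715, nat_lit 0, nat_lit 0, nat_lit 0, nat_lit 0, nat_lit 0, nat_lit 0, nat_lit 21717093858726, nat_lit 147, nat_lit 1000000, nat_lit 0, nat_lit 0, [(nat_lit 6, [(nat_lit 6, nat_lit 1000)])],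
 ⟨p046_k7, nat_lit 0, nat_lit 0, nat_lit 298, nat_lit 0, nat_lit 250147, [nat_lit 3329066667, nat_lit 3042400001, nat_lit 177599999], [], [nat_lit 9658024586, nat_lit 10502362024, nat_lit 9007597238, nat_lit 9658295620, nat_lit 10977715186, nat_lit 11619608044, nat_lit 12052129818, nat_lit 10861724564], nat_lit 1271250, nat_lit 1271250, nat_lit 111251, nat_lit 780000, nat_lit 490000, nat_lit 1100001, [nat_lit 1100000, nat_lit 1442500, nat_lit 1271250], [nat_lit 11, nat_lit 40, nat_lit 40, nat_lit 80, nat_lit 1, nat_lit 373, nat_lit 150, nat_lit 11]⟩, ⟨p046_k6, nat_lit 0, nat_lit 0, nat_lit 372, nat_lit 0, nat_lit 265448, [nat_lit 0, nat_lit 0, nat_lit 0], [], [nat_lit 0, nat_lit 0, nat_lit 0, nat_lit 0, nat_lit 0, nat_lit 0, nat_lit 0, nat_lit 0], nat_lit 1271250, nat_lit 1271250, nat_lit 111251, nat_lit 780000, nat_lit 0, nat_lit 2373000, [nat_lit 1100000, nat_lit 1442500, nat_lit 1271250], [nat_lit 11, nat_lit 40,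 nat_lit 40, nat_lit 80, nat_lit 1, nat_lit 428, nat_lit 200, nat_lit 13]⟩,
 ⟨nat_lit 5916, nat_lit 6124, ⟨.ofNat (nat_lit 180982), .ofNat (nat_lit 381933), .ofNat (nat_lit 202330), .ofNat (nat_lit 403281), .ofNat (nat_lit 189276), .ofNat (nat_lit 385610), .ofNat (nat_lit 210615), .ofNat (nat_lit 406949)⟩, ⟨.ofNat (nat_lit 88071), .ofNat (nat_lit 248833), .ofNat (nat_lit 130768), .ofNat (nat_lit 291529), .ofNat (nat_lit 93684), .ofNat (nat_lit 250751), .ofNat (nat_lit 136362), .ofNat (nat_lit 293429)⟩⟩, [⟨nat_lit 0, nat_lit 100, nat_lit 100, nat_lit 60, nat_lit 141547316⟩]⟩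
noncomputable def p046_l127 : Lf2 := ⟨nat_lit 0, nat_lit 6, [nat_lit 47, nat_lit 5, nat_lit 5, nat_lit 20], false, nat_lit 80, nat_lit 160, nat_lit 0, nat_lit 336, ⟨nat_lit 1000, nat_lit 0, nat_lit 0, nat_lit 0, nat_lit 0, nat_lit 0, nat_lit 0, nat_lit 0, nat_lit 0, nat_lit 0, nat_lit 0, nat_lit 0, nat_lit 0, nat_lit 0, nat_lit 0, nat_lit 0, false, false⟩,
 nat_lit 100000, nat_lit 64448, nat_lit 0, nat_lit 0, nat_lit 87060, nat_lit 8577, nat_lit 0, nat_lit 0, nat_lit 0, nat_lit 0, nat_lit 0, nat_lit 0, nat_lit 0, nat_lit 73184990078263, nat_lit 0, nat_lit 0, nat_lit 60438403520, nat_lit 0, [],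
 ⟨p046_k6, nat_lit 0, nat_lit 0, nat_lit 181, nat_lit 0, nat_lit 147886, [nat_lit 4688000000, nat_lit 6250000000, nat_lit 9842000000], [], [nat_lit 41300200000, nat_lit 18966785260, nat_lit 10737088640, nat_lit 20835165780, nat_lit 0, nat_lit 9488169820, nat_lit 1957978160, nat_lit 10665892500], nat_lit 1271250, nat_lit 1271250, nat_lit 780000, nat_lit 1100001, nat_lit 490000, nat_lit 1100001, [nat_lit 1100000, nat_lit 1442500, nat_lit 1271250], [nat_lit 11, nat_lit 40, nat_lit 40, nat_lit 80, nat_lit 1, nat_lit 373, nat_lit 150, nat_lit 11]⟩, ⟨p046_k6, nat_lit 0, nat_lit 0, nat_lit 221, nat_lit 0, nat_lit 147886, [nat_lit 4688000000, nat_lit 6250000000, nat_lit 9842000000], [], [nat_lit 51656622132, nat_lit 49353963519, nat_lit 42445987680, nat_lit 40178494767, nat_lit 37138087306, nat_lit 35206051155, nat_lit 41668541012, nat_lit 39761151728], nat_lit 1271250, nat_lit 1271250, nat_lit 780000, nat_lit 1100001, nat_lit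 0, nat_lit 2373000, [nat_lit 1100000, nat_lit 1442500, nat_lit 1271250], [nat_lit 11, nat_lit 40, nat_lit 40, nat_lit 80, nat_lit 1, nat_lit 428, nat_lit 200, nat_lit 12]⟩,
 zbF0, []⟩
noncomputable def p046_l128 : Lf2 := ⟨nat_lit 0, nat_lit 6, [nat_lit 47, nat_lit 5, nat_lit 5, nat_lit 20], false, nat_lit 80, nat_lit 160, nat_lit 0, nat_lit 336, ⟨nat_lit 1000, nat_lit 0, nat_lit 0, nat_lit 0, nat_lit 0, nat_lit 0, nat_lit 0, nat_lit 0, nat_lit 0, nat_lit 0, nat_lit 0, nat_lit 0, nat_lit 0, nat_lit 0, nat_lit 0, nat_lit 0, false, false⟩,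
 nat_lit 15581, nat_lit 29163, nat_lit 0, nat_lit 0, nat_lit 24857, nat_lit 8248, nat_lit 8106, nat_lit 0, nat_lit 0, nat_lit 0, nat_lit 0, nat_lit 0, nat_lit 0, nat_lit 37311439569140, nat_lit 0, nat_lit 0, nat_lit 5623218615, nat_lit 0, [],
 ⟨p046_k7, nat_lit 0, nat_lit 0, nat_lit 184, nat_lit 0, nat_lit 250147, [nat_lit 4688000000, nat_lit 6250000000, nat_lit 9842000000], [], [nat_lit 12543416718, nat_lit 6166875365, nat_lit 2513174712, nat_lit 5683765945, nat_lit 0, nat_lit 2988142929, nat_lit 1151099796, nat_lit 3906871269], nat_lit 1271250, nat_lit 1271250, nat_lit 780000, nat_lit 1100001, nat_lit 490000, nat_lit 1100001, [nat_lit 1100000, nat_lit 1442500, nat_lit 1271250], [nat_lit 11, nat_lit 40, nat_lit 40, nat_lit 80, nat_lit 1, nat_lit 373, nat_lit 150, nat_lit 11]⟩, ⟨p046_k6, nat_lit 0, nat_lit 0, nat_lit 307, nat_lit 0, nat_lit 265448, [nat_lit 4688000000, nat_lit 6250000000, nat_lit 9842000000], [],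 [nat_lit 50801973568, nat_lit 46373308944, nat_lit 41944644320, nat_lit 37583613296, nat_lit 37364514055, nat_lit 33648661386, nat_lit 41770285709, nat_lit 38101835946], nat_lit 1271250, nat_lit 1271250, nat_lit 780000, nat_lit 1100001, nat_lit 0, nat_lit 2373000, [nat_lit 1100000, nat_lit 1442500, nat_lit 1271250], [nat_lit 11, nat_lit 40, nat_lit 40, nat_lit 80, nat_lit 1, nat_lit 428, nat_lit 200, nat_lit 12]⟩,
 zbF0, []⟩
noncomputable def p046_l129 : Lf2 := ⟨nat_lit 1, nat_lit 10, [nat_lit 0, nat_lit 5, nat_lit 5, nat_lit 20], false, nat_lit 0, nat_lit 160, nat_lit 0, nat_lit 336, zbN0,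
 nat_lit 0, nat_lit 0, nat_lit 0, nat_lit 0, nat_lit 0, nat_lit 0, nat_lit 0, nat_lit 0, nat_lit 0, nat_lit 0, nat_lit 0, nat_lit 0, nat_lit 0, nat_lit 0, nat_lit 0, nat_lit 0, nat_lit 0, nat_lit 0, [],
 C1.Rw.none, C1.Rw.none,
 zbF0, []⟩
noncomputable def b_V_600_600_10_38 : St := ⟨true, nat_lit 1, nat_lit 1, nat_lit 1, nat_lit 80, nat_lit 240, nat_lit 260, nat_lit 240, nat_lit 280, nat_lit 16, nat_lit 160, nat_lit 40, nat_lit 80, nat_lit 0, nat_lit 160, nat_lit 0, nat_lit 336, nat_lit 0, nat_lit 40, nat_lit 0, nat_lit 0, nat_lit 0, nat_lit 0⟩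
theorem d_V_600_600_10_38 (h : EB TB.env) : Dead b_V_600_600_10_38 := chkB_sound0 h (T :=
(.ord (.spl (nat_lit 6) (nat_lit 24)
(.spl (nat_lit 4) (nat_lit 80)
(.spl (nat_lit 2) (nat_lit 80)
(.spl (nat_lit 0) (nat_lit 250)
(.ord (.spl (nat_lit 6) (nat_lit 12)
(.spl (nat_lit 1) (nat_lit 245)
(.leaf p046_l114)
(.ord (.trZ (nat_lit 0) (nat_lit 100) (nat_lit 100) (nat_lit 45) (nat_lit 20) (.trX (nat_lit 19) (nat_lit 100) (nat_lit 78) (nat_lit 82) (nat_lit 332) (.leaf p046_l115)))))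
(.leaf p046_l116)))
(.trZ (nat_lit 0) (nat_lit 100) (nat_lit 99) (nat_lit 45) (nat_lit 20) (.spl (nat_lit 4) (nat_lit 40)
(.spl (nat_lit 6) (nat_lit 16)
(.spl (nat_lit 0) (nat_lit 255)
(.ord (.leaf p046_l117))
(.leaf p046_l118))
(.leaf p046_l119))
(.spl (nat_lit 0) (nat_lit 255)
(.ord (.leaf p046_l120))
(.leaf p046_l121)))))
(.spl (nat_lit 5) (nat_lit 160)
(.spl (nat_lit 0) (nat_lit 250)
(.ord (.leaf p046_l122))
(.leaf p046_l123))
(.leaf p046_l124)))
(.spl (nat_lit 2) (nat_lit 120)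
(.spl (nat_lit 0) (nat_lit 250)
(.ord (.leaf p046_l125))
(.trZ (nat_lit 0) (nat_lit 100) (nat_lit 99) (nat_lit 45) (nat_lit 20) (.leaf p046_l126)))
(.spl (nat_lit 0) (nat_lit 250)
(.ord (.leaf p046_l127))
(.leaf p046_l128))))
(.leaf p046_l129)))) (by decide +kernel)
noncomputable def p046_l130 : Lf2 := ⟨nat_lit 0, nat_lit 5, [nat_lit 4, nat_lit 5, nat_lit 5, nat_lit 20], true, nat_lit 0, nat_lit 40, nat_lit 0, nat_lit 336, ⟨nat_lit 0, nat_lit 0, nat_lit 1000, nat_lit 6, nat_lit 104, nat_lit 0, nat_lit 8, nat_lit 0, nat_lit 0, nat_lit 215, nat_lit 101400, nat_lit 293, nat_lit 62733182, nat_lit 0, nat_lit 0, nat_lit 1184922, false, false⟩,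
 nat_lit 0, nat_lit 7030, nat_lit 0, nat_lit 0, nat_lit 4092, nat_lit 0, nat_lit 0, nat_lit 0, nat_lit 0, nat_lit 0, nat_lit 0, nat_lit 0, nat_lit 0, nat_lit 0, nat_lit 117, nat_lit 1000000, nat_lit 0, nat_lit 0, [(nat_lit 9, [(nat_lit 6, nat_lit 1000)])],
 ⟨p046_k0, nat_lit 0, nat_lit 0, nat_lit 296, nat_lit 0, nat_lit 238776, [nat_lit 2969600000, nat_lit 1600000000, nat_lit 226400000], [], [nat_lit 13723519613, nat_lit 14694215997, nat_lit 13131082352, nat_lit 13742381176, nat_lit 13134850514, nat_lit 13756820090, nat_lit 12975607896, nat_lit 13212562812], nat_lit 1271250, nat_lit 1271250, nat_lit 134400, nat_lit 490000, nat_lit 0, nat_lit 230001, [nat_lit 1100000, nat_lit 1442500, nat_lit 1271250], [nat_lit 9, nat_lit 40, nat_lit 40, nat_lit 80, nat_lit 2, nat_lit 238, nat_lit 30, nat_lit 8]⟩, C1.Rw.none,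
 ⟨nat_lit 5700, nat_lit 5917, ⟨.ofNat (nat_lit 197129), .ofNat (nat_lit 307076), .ofNat (nat_lit 207799), .ofNat (nat_lit 317746), .ofNat (nat_lit 205119), .ofNat (nat_lit 312525), .ofNat (nat_lit 215790), .ofNat (nat_lit 323196)⟩, ⟨.negSucc (nat_lit 63383), .ofNat (nat_lit 15150), .negSucc (nat_lit 20704), .ofNat (nat_lit 57829), .negSucc (nat_lit 54331), .ofNat (nat_lit 22387), .negSucc (nat_lit 11648), .ofNat (nat_lit 65071)⟩⟩, [⟨nat_lit 0, nat_lit 100, nat_lit 97, nat_lit 59, nat_lit 160166458⟩]⟩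
noncomputable def p046_l131 : Lf2 := ⟨nat_lit 0, nat_lit 5, [nat_lit 4, nat_lit 5, nat_lit 5, nat_lit 20], false, nat_lit 0, nat_lit 40, nat_lit 0, nat_lit 328, ⟨nat_lit 31, nat_lit 0, nat_lit 969, nat_lit 6, nat_lit 110, nat_lit 0, nat_lit 8, nat_lit 0, nat_lit 0, nat_lit 215, nat_lit 114817, nat_lit 298, nat_lit 62278238, nat_lit 0, nat_lit 0, nat_lit 1274312, false, false⟩,
 nat_lit 459, nat_lit 6813, nat_lit 0, nat_lit 0, nat_lit 4232, nat_lit 254, nat_lit 178, nat_lit 0, nat_lit 0, nat_lit 506, nat_lit 0, nat_lit 0, nat_lit 0, nat_lit 0, nat_lit 103, nat_lit 969000, nat_lit 0, nat_lit 0, [(nat_lit 9, [(nat_lit 6, nat_lit 969)])],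
 ⟨p046_k0, nat_lit 0, nat_lit 0, nat_lit 311, nat_lit 0, nat_lit 287060, [nat_lit 2856902401, nat_lit 1536690000, nat_lit 216228600], [], [nat_lit 13680866973, nat_lit 14618511846, nat_lit 13155681395, nat_lit 13776734299, nat_lit 13057899059, nat_lit 13688405297, nat_lit 12930321117, nat_lit 13204647555], nat_lit 1271250, nat_lit 1271250, nat_lit 157850, nat_lit 490000, nat_lit 0, nat_lit 230001, [nat_lit 1100000, nat_lit 1442500, nat_lit 1271250], [nat_lit 9, nat_lit 40, nat_lit 40, nat_lit 80, nat_lit 2, nat_lit 238, nat_lit 30, nat_lit 8]⟩, ⟨p046_k27, nat_lit 0, nat_lit 0, nat_lit 313, nat_lit 0, nat_lit 303827, [nat_lit 145328000, nat_lit 193750000, nat_lit 247008000], [], [nat_lit 1188578418, nat_lit 1122136336, nat_lit 844727238, nat_lit 779568872, nat_lit 912019362, nat_lit 852891515, nat_lit 984505529, nat_lit 927757129], nat_lit 1271250, nat_lit 1271250, nat_lit 157850, nat_lit 490000, nat_lit 0, nat_lit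 2316500, [nat_lit 1100000, nat_lit 1442500, nat_lit 1271250], [nat_lit 9, nat_lit 40, nat_lit 40, nat_lit 80, nat_lit 2, nat_lit 345, nat_lit 125, nat_lit 12]⟩,
 ⟨nat_lit 5700, nat_lit 5917, ⟨.ofNat (nat_lit 215652), .ofNat (nat_lit 317746), .ofNat (nat_lit 226322), .ofNat (nat_lit 328416), .ofNat (nat_lit 223462), .ofNat (nat_lit 323196), .ofNat (nat_lit 234133), .ofNat (nat_lit 333867)⟩, ⟨.negSucc (nat_lit 63383), .ofNat (nat_lit 15150), .negSucc (nat_lit 20704), .ofNat (nat_lit 57829), .negSucc (nat_lit 54331), .ofNat (nat_lit 22387), .negSucc (nat_lit 11648), .ofNat (nat_lit 65071)⟩⟩, [⟨nat_lit 0, nat_lit 100, nat_lit 98, nat_lit 64, nat_lit 170689821⟩, ⟨nat_lit 7, nat_lit 90, nat_lit 100, nat_lit 74, nat_lit 2105229⟩]⟩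
noncomputable def p046_l132 : Lf2 := ⟨nat_lit 0, nat_lit 5, [nat_lit 4, nat_lit 5, nat_lit 5, nat_lit 20], false, nat_lit 0, nat_lit 40, nat_lit 0, nat_lit 296, ⟨nat_lit 293, nat_lit 0, nat_lit 707, nat_lit 6, nat_lit 118, nat_lit 0, nat_lit 6, nat_lit 0, nat_lit 150, nat_lit 212, nat_lit 129067, nat_lit 303, nat_lit 61676807, nat_lit 0, nat_lit 0, nat_lit 1387124, false, false⟩,
 nat_lit 8812, nat_lit 0, nat_lit 0, nat_lit 0, nat_lit 5129, nat_lit 4113, nat_lit 685, nat_lit 0, nat_lit 0, nat_lit 448, nat_lit 0, nat_lit 0, nat_lit 0, nat_lit 0, nat_lit 0, nat_lit 707000, nat_lit 0, nat_lit 0, [(nat_lit 9, [(nat_lit 6, nat_lit 707)])],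
 ⟨p046_k0, nat_lit 0, nat_lit 0, nat_lit 314, nat_lit 0, nat_lit 317104, [nat_lit 2149587200, nat_lit 1308070000, nat_lit 498005800], [], [nat_lit 14678477415, nat_lit 15288119908, nat_lit 14203699812, nat_lit 14687755551, nat_lit 13712724800, nat_lit 14351349948, nat_lit 14802936152, nat_lit 13836596619], nat_lit 1271250, nat_lit 1271250, nat_lit 205650, nat_lit 490000, nat_lit 0, nat_lit 230001, [nat_lit 1100000, nat_lit 1442500, nat_lit 1271250], [nat_lit 9, nat_lit 40, nat_lit 40, nat_lit 80, nat_lit 2, nat_lit 238, nat_lit 30, nat_lit 8]⟩, ⟨p046_k0, nat_lit 0, nat_lit 0, nat_lit 314, nat_lit 0, nat_lit 317104, [nat_lit 1373584000, nat_lit 1831250000, nat_lit 2334624000], [], [nat_lit 10188616665, nat_lit 9115999734, nat_lit 5533477262, nat_lit 6209208731, nat_lit 9185429735, nat_lit 8312964887, nat_lit 10088496210, nat_lit 9161977974], nat_lit 1271250, nat_lit 1271250, nat_lit 205650, nat_lit 490000, nat_lit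 0, nat_lit 2090500, [nat_lit 1100000, nat_lit 1442500, nat_lit 1271250], [nat_lit 9, nat_lit 40, nat_lit 40, nat_lit 80, nat_lit 2, nat_lit 317, nat_lit 100, nat_lit 11]⟩,
 ⟨nat_lit 5700, nat_lit 5917, ⟨.ofNat (nat_lit 242029), .ofNat (nat_lit 328416), .ofNat (nat_lit 252698), .ofNat (nat_lit 339085), .ofNat (nat_lit 249476), .ofNat (nat_lit 333867), .ofNat (nat_lit 260147), .ofNat (nat_lit 344538)⟩, ⟨.negSucc (nat_lit 63383), .ofNat (nat_lit 15150), .negSucc (nat_lit 42043), .ofNat (nat_lit 36489), .negSucc (nat_lit 54331), .ofNat (nat_lit 22387), .negSucc (nat_lit 32990), .ofNat (nat_lit 43729)⟩⟩, [⟨nat_lit 0, nat_lit 100, nat_lit 100, nat_lit 65, nat_lit 114922521⟩, ⟨nat_lit 7, nat_lit 98, nat_lit 100, nat_lit 70, nat_lit 50862894⟩]⟩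
noncomputable def p046_l133 : Lf2 := ⟨nat_lit 0, nat_lit 5, [nat_lit 4, nat_lit 5, nat_lit 5, nat_lit 20], true, nat_lit 0, nat_lit 40, nat_lit 0, nat_lit 320, ⟨nat_lit 0, nat_lit 0, nat_lit 1000, nat_lit 6, nat_lit 118, nat_lit 0, nat_lit 10, nat_lit 579, nat_lit 267, nat_lit 219, nat_lit 129067, nat_lit 303, nat_lit 61676807, nat_lit 0, nat_lit 0, nat_lit 1387124, false, false⟩,
 nat_lit 0, nat_lit 6712, nat_lit 0, nat_lit 0, nat_lit 3906, nat_lit 0, nat_lit 445, nat_lit 0, nat_lit 0, nat_lit 0, nat_lit 0, nat_lit 0, nat_lit 0, nat_lit 10719045233144, nat_lit 117, nat_lit 1000000, nat_lit 0, nat_lit 0, [(nat_lit 9, [(nat_lit 6, nat_lit 1000)])],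
 ⟨p046_k0, nat_lit 0, nat_lit 0, nat_lit 272, nat_lit 0, nat_lit 213443, [nat_lit 2969600000, nat_lit 1600000000, nat_lit 226400000], [], [nat_lit 12949446458, nat_lit 13528533572, nat_lit 12714999967, nat_lit 13271031639, nat_lit 12418316543, nat_lit 12980034925, nat_lit 12630713378, nat_lit 12767287368], nat_lit 1271250, nat_lit 1271250, nat_lit 205650, nat_lit 490000, nat_lit 0, nat_lit 230001, [nat_lit 1100000, nat_lit 1442500, nat_lit 1271250], [nat_lit 9, nat_lit 40, nat_lit 40, nat_lit 80, nat_lit 2, nat_lit 238, nat_lit 30, nat_lit 8]⟩, C1.Rw.none,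
 ⟨nat_lit 5700, nat_lit 5917, ⟨.ofNat (nat_lit 242029), .ofNat (nat_lit 328416), .ofNat (nat_lit 252698), .ofNat (nat_lit 339085), .ofNat (nat_lit 249476), .ofNat (nat_lit 333867), .ofNat (nat_lit 260147), .ofNat (nat_lit 344538)⟩, ⟨.negSucc (nat_lit 42043), .ofNat (nat_lit 36489), .negSucc (nat_lit 20704), .ofNat (nat_lit 57829), .negSucc (nat_lit 32990), .ofNat (nat_lit 43729), .negSucc (nat_lit 11648), .ofNat (nat_lit 65071)⟩⟩, [⟨nat_lit 0, nat_lit 100, nat_lit 100, nat_lit 70, nat_lit 137796928⟩]⟩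
noncomputable def p046_l134 : Lf2 := ⟨nat_lit 0, nat_lit 5, [nat_lit 4, nat_lit 5, nat_lit 5, nat_lit 20], true, nat_lit 0, nat_lit 40, nat_lit 0, nat_lit 336, ⟨nat_lit 0, nat_lit 0, nat_lit 1000, nat_lit 6, nat_lit 110, nat_lit 0, nat_lit 9, nat_lit 549, nat_lit 67, nat_lit 217, nat_lit 112067, nat_lit 297, nat_lit 62290254, nat_lit 0, nat_lit 0, nat_lit 1271998, false, false⟩,
 nat_lit 0, nat_lit 6560, nat_lit 0, nat_lit 0, nat_lit 3995, nat_lit 0, nat_lit 0, nat_lit 0, nat_lit 0, nat_lit 0, nat_lit 0, nat_lit 0, nat_lit 0, nat_lit 0, nat_lit 117, nat_lit 1000000, nat_lit 0, nat_lit 0, [(nat_lit 9, [(nat_lit 6, nat_lit 1000)])],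
 ⟨p046_k2, nat_lit 0, nat_lit 0, nat_lit 317, nat_lit 0, nat_lit 298238, [nat_lit 2969600000, nat_lit 1600000000, nat_lit 226400000], [], [nat_lit 14418560479, nat_lit 14734995149, nat_lit 13949929360, nat_lit 14252199680, nat_lit 13851259550, nat_lit 14158069959, nat_lit 13449396945, nat_lit 13742210883], nat_lit 1271250, nat_lit 1271250, nat_lit 157850, nat_lit 490000, nat_lit 0, nat_lit 230001, [nat_lit 1100000, nat_lit 1442500, nat_lit 1271250], [nat_lit 9, nat_lit 40, nat_lit 40, nat_lit 80, nat_lit 2, nat_lit 238, nat_lit 30, nat_lit 8]⟩, C1.Rw.none,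
 ⟨nat_lit 5590, nat_lit 5701, ⟨.ofNat (nat_lit 212791), .ofNat (nat_lit 312525), .ofNat (nat_lit 234133), .ofNat (nat_lit 333867), .ofNat (nat_lit 216657), .ofNat (nat_lit 315226), .ofNat (nat_lit 238004), .ofNat (nat_lit 336574)⟩, ⟨.negSucc (nat_lit 54331), .ofNat (nat_lit 22387), .negSucc (nat_lit 11648), .ofNat (nat_lit 65071), .negSucc (nat_lit 49897), .ofNat (nat_lit 25924), .negSucc (nat_lit 7202), .ofNat (nat_lit 68620)⟩⟩, [⟨nat_lit 0, nat_lit 100, nat_lit 97, nat_lit 67, nat_lit 151550510⟩]⟩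
noncomputable def p046_l135 : Lf2 := ⟨nat_lit 0, nat_lit 5, [nat_lit 4, nat_lit 5, nat_lit 5, nat_lit 20], true, nat_lit 0, nat_lit 40, nat_lit 0, nat_lit 336, ⟨nat_lit 0, nat_lit 0, nat_lit 1000, nat_lit 6, nat_lit 113, nat_lit 0, nat_lit 10, nat_lit 553, nat_lit 150, nat_lit 218, nat_lit 120417, nat_lit 300, nat_lit 62063763, nat_lit 0, nat_lit 0, nat_lit 1315212, false, false⟩,
 nat_lit 0, nat_lit 6414, nat_lit 0, nat_lit 0, nat_lit 3993, nat_lit 0, nat_lit 0, nat_lit 0, nat_lit 0, nat_lit 0, nat_lit 0, nat_lit 0, nat_lit 0, nat_lit 0, nat_lit 117, nat_lit 1000000, nat_lit 0, nat_lit 0, [(nat_lit 9, [(nat_lit 6, nat_lit 1000)])],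
 ⟨p046_k10, nat_lit 0, nat_lit 0, nat_lit 322, nat_lit 0, nat_lit 316864, [nat_lit 2969600000, nat_lit 1600000000, nat_lit 226400000], [], [nat_lit 14623329859, nat_lit 14938998888, nat_lit 14256409352, nat_lit 14558610000, nat_lit 14056725436, nat_lit 14362755896, nat_lit 13747027436, nat_lit 14039774748], nat_lit 1271250, nat_lit 1271250, nat_lit 181601, nat_lit 490000, nat_lit 0, nat_lit 230001, [nat_lit 1100000, nat_lit 1442500, nat_lit 1271250], [nat_lit 9, nat_lit 40, nat_lit 40, nat_lit 80, nat_lit 2, nat_lit 238, nat_lit 30, nat_lit 8]⟩, C1.Rw.none,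
 ⟨nat_lit 5477, nat_lit 5591, ⟨.ofNat (nat_lit 224239), .ofNat (nat_lit 315226), .ofNat (nat_lit 245587), .ofNat (nat_lit 336574), .ofNat (nat_lit 227994), .ofNat (nat_lit 317913), .ofNat (nat_lit 249351), .ofNat (nat_lit 339271)⟩, ⟨.negSucc (nat_lit 49897), .ofNat (nat_lit 25924), .negSucc (nat_lit 7202), .ofNat (nat_lit 68620), .negSucc (nat_lit 45522), .ofNat (nat_lit 29410), .negSucc (nat_lit 2808), .ofNat (nat_lit 72124)⟩⟩, [⟨nat_lit 0, nat_lit 100, nat_lit 96, nat_lit 69, nat_lit 145209180⟩]⟩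
noncomputable def p046_l136 : Lf2 := ⟨nat_lit 0, nat_lit 5, [nat_lit 4, nat_lit 5, nat_lit 5, nat_lit 20], false, nat_lit 0, nat_lit 40, nat_lit 0, nat_lit 296, ⟨nat_lit 352, nat_lit 0, nat_lit 648, nat_lit 6, nat_lit 124, nat_lit 0, nat_lit 7, nat_lit 0, nat_lit 0, nat_lit 215, nat_lit 144150, nat_lit 308, nat_lit 61148937, nat_lit 0, nat_lit 0, nat_lit 1481570, false, false⟩,
 nat_lit 8606, nat_lit 0, nat_lit 0, nat_lit 0, nat_lit 5241, nat_lit 5009, nat_lit 721, nat_lit 0, nat_lit 0, nat_lit 413, nat_lit 0, nat_lit 0, nat_lit 0, nat_lit 0, nat_lit 0, nat_lit 648000, nat_lit 0, nat_lit 0, [(nat_lit 9, [(nat_lit 6, nat_lit 648)])],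
 ⟨p046_k2, nat_lit 0, nat_lit 0, nat_lit 369, nat_lit 0, nat_lit 394841, [nat_lit 2361420800, nat_lit 1720480000, nat_lit 1118131200], [], [nat_lit 15587865996, nat_lit 16211283584, nat_lit 15075360448, nat_lit 15766712400, nat_lit 14575473436, nat_lit 15258353186, nat_lit 14198639451, nat_lit 14867282076], nat_lit 1271250, nat_lit 1271250, nat_lit 230001, nat_lit 490000, nat_lit 0, nat_lit 230001, [nat_lit 1100000, nat_lit 1442500, nat_lit 1271250], [nat_lit 9, nat_lit 40, nat_lit 40, nat_lit 80, nat_lit 2, nat_lit 238, nat_lit 30, nat_lit 8]⟩, ⟨p046_k0, nat_lit 0, nat_lit 0, nat_lit 378, nat_lit 0, nat_lit 416444, [nat_lit 1650176000, nat_lit 2200000000, nat_lit 2804736000], [], [nat_lit 11717972498, nat_lit 10420425248, nat_lit 6698888750, nat_lit 8340475208, nat_lit 11248330596, nat_lit 10215135179, nat_lit 12280747442, nat_lit 10024034658], nat_lit 1271250, nat_lit 1271250, nat_lit 230001, nat_lit 490000, nat_lit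 0, nat_lit 2090500, [nat_lit 1100000, nat_lit 1442500, nat_lit 1271250], [nat_lit 9, nat_lit 40, nat_lit 40, nat_lit 80, nat_lit 2, nat_lit 317, nat_lit 100, nat_lit 11]⟩,
 ⟨nat_lit 5477, nat_lit 5701, ⟨.ofNat (nat_lit 257148), .ofNat (nat_lit 333867), .ofNat (nat_lit 278490), .ofNat (nat_lit 355209), .ofNat (nat_lit 264337), .ofNat (nat_lit 339271), .ofNat (nat_lit 285695), .ofNat (nat_lit 360628)⟩, ⟨.negSucc (nat_lit 54331), .ofNat (nat_lit 22387), .negSucc (nat_lit 32990), .ofNat (nat_lit 43729), .negSucc (nat_lit 45522), .ofNat (nat_lit 29410), .negSucc (nat_lit 24165), .ofNat (nat_lit 50767)⟩⟩, [⟨nat_lit 0, nat_lit 100, nat_lit 99, nat_lit 72, nat_lit 230733653⟩, ⟨nat_lit 7, nat_lit 100, nat_lit 100, nat_lit 71, nat_lit 78044264⟩]⟩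
noncomputable def p046_l137 : Lf2 := ⟨nat_lit 0, nat_lit 5, [nat_lit 4, nat_lit 5, nat_lit 5, nat_lit 20], false, nat_lit 0, nat_lit 40, nat_lit 0, nat_lit 320, ⟨nat_lit 256, nat_lit 0, nat_lit 744, nat_lit 6, nat_lit 124, nat_lit 0, nat_lit 12, nat_lit 181, nat_lit 600, nat_lit 221, nat_lit 144150, nat_lit 308, nat_lit 61148937, nat_lit 0, nat_lit 0, nat_lit 1481570, false, false⟩,
 nat_lit 5000, nat_lit 3167, nat_lit 0, nat_lit 0, nat_lit 4973, nat_lit 2910, nat_lit 435, nat_lit 0, nat_lit 0, nat_lit 593, nat_lit 0, nat_lit 0, nat_lit 0, nat_lit 0, nat_lit 2, nat_lit 744000, nat_lit 0, nat_lit 0, [(nat_lit 9, [(nat_lit 6, nat_lit 744)])],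
 ⟨p046_k2, nat_lit 0, nat_lit 0, nat_lit 307, nat_lit 0, nat_lit 300840, [nat_lit 2048742400, nat_lit 1089440000, nat_lit 157113600], [], [nat_lit 15146013238, nat_lit 15812010752, nat_lit 14680258902, nat_lit 15287437200, nat_lit 14219739932, nat_lit 14800586058, nat_lit 13818950103, nat_lit 14469737228], nat_lit 1271250, nat_lit 1271250, nat_lit 230001, nat_lit 490000, nat_lit 0, nat_lit 230001, [nat_lit 1100000, nat_lit 1442500, nat_lit 1271250], [nat_lit 9, nat_lit 40, nat_lit 40, nat_lit 80, nat_lit 2, nat_lit 238, nat_lit 30, nat_lit 8]⟩, ⟨p046_k0, nat_lit 0, nat_lit 0, nat_lit 314, nat_lit 0, nat_lit 317739, [nat_lit 1200128000, nat_lit 1600000000, nat_lit 2039808000], [], [nat_lit 8562042332, nat_lit 7046578352, nat_lit 5553579572, nat_lit 5318156656, nat_lit 8841671566, nat_lit 7596635400, nat_lit 9515857622, nat_lit 8215087622], nat_lit 1271250, nat_lit 1271250, nat_lit 230001, nat_lit 490000, nat_lit 0,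 nat_lit 2260000, [nat_lit 1100000, nat_lit 1442500, nat_lit 1271250], [nat_lit 9, nat_lit 40, nat_lit 40, nat_lit 80, nat_lit 2, nat_lit 317, nat_lit 100, nat_lit 11]⟩,
 ⟨nat_lit 5477, nat_lit 5701, ⟨.ofNat (nat_lit 257148), .ofNat (nat_lit 333867), .ofNat (nat_lit 278490), .ofNat (nat_lit 355209), .ofNat (nat_lit 264337), .ofNat (nat_lit 339271), .ofNat (nat_lit 285695), .ofNat (nat_lit 360628)⟩, ⟨.negSucc (nat_lit 32990), .ofNat (nat_lit 43729), .negSucc (nat_lit 11648), .ofNat (nat_lit 65071), .negSucc (nat_lit 24165), .ofNat (nat_lit 50767), .negSucc (nat_lit 2808), .ofNat (nat_lit 72124)⟩⟩, [⟨nat_lit 0, nat_lit 100, nat_lit 99, nat_lit 72, nat_lit 237192940⟩, ⟨nat_lit 7, nat_lit 93, nat_lit 100, nat_lit 81, nat_lit 64220593⟩]⟩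
noncomputable def p046_l138 : Lf2 := ⟨nat_lit 0, nat_lit 5, [nat_lit 4, nat_lit 5, nat_lit 5, nat_lit 20], true, nat_lit 40, nat_lit 80, nat_lit 0, nat_lit 336, ⟨nat_lit 0, nat_lit 0, nat_lit 1000, nat_lit 6, nat_lit 108, nat_lit 1000, nat_lit 33, nat_lit 1000, nat_lit 10417, nat_lit 240, nat_lit 109350, nat_lit 296, nat_lit 61543153, nat_lit 0, nat_lit 0, nat_lit 1631586, false, false⟩,
 nat_lit 0, nat_lit 7325, nat_lit 0, nat_lit 0, nat_lit 4263, nat_lit 0, nat_lit 507, nat_lit 0, nat_lit 0, nat_lit 0, nat_lit 0, nat_lit 0, nat_lit 0, nat_lit 0, nat_lit 117, nat_lit 1000000, nat_lit 0, nat_lit 0, [(nat_lit 9, [(nat_lit 6, nat_lit 1000)])],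
 ⟨p046_k0, nat_lit 0, nat_lit 0, nat_lit 307, nat_lit 0, nat_lit 343681, [nat_lit 2969600000, nat_lit 1600000000, nat_lit 226400000], [], [nat_lit 12771325171, nat_lit 14039701249, nat_lit 12191567718, nat_lit 13398534468, nat_lit 12128216922, nat_lit 13356516929, nat_lit 13060290220, nat_lit 12797358936], nat_lit 1271250, nat_lit 1271250, nat_lit 134400, nat_lit 490000, nat_lit 230001, nat_lit 490000, [nat_lit 1100000, nat_lit 1442500, nat_lit 1271250], [nat_lit 9, nat_lit 40, nat_lit 40, nat_lit 80, nat_lit 2, nat_lit 249, nat_lit 40, nat_lit 8]⟩, C1.Rw.none,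
 ⟨nat_lit 5477, nat_lit 5917, ⟨.ofNat (nat_lit 197129), .ofNat (nat_lit 307076), .ofNat (nat_lit 218469), .ofNat (nat_lit 328416), .ofNat (nat_lit 213007), .ofNat (nat_lit 317913), .ofNat (nat_lit 234364), .ofNat (nat_lit 339271)⟩, ⟨.ofNat (nat_lit 15150), .ofNat (nat_lit 93684), .ofNat (nat_lit 57829), .ofNat (nat_lit 136362), .ofNat (nat_lit 29410), .ofNat (nat_lit 104343), .ofNat (nat_lit 72124), .ofNat (nat_lit 147057)⟩⟩, [⟨nat_lit 0, nat_lit 100, nat_lit 96, nat_lit 69, nat_lit 167900362⟩]⟩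
noncomputable def p046_l139 : Lf2 := ⟨nat_lit 0, nat_lit 5, [nat_lit 4, nat_lit 5, nat_lit 5, nat_lit 20], false, nat_lit 40, nat_lit 80, nat_lit 0, nat_lit 160, ⟨nat_lit 1000, nat_lit 0, nat_lit 0, nat_lit 0, nat_lit 0, nat_lit 0, nat_lit 0, nat_lit 0, nat_lit 0, nat_lit 0, nat_lit 0, nat_lit 0, nat_lit 0, nat_lit 0, nat_lit 0, nat_lit 0, false, false⟩,
 nat_lit 14183, nat_lit 0, nat_lit 0, nat_lit 0, nat_lit 8255, nat_lit 8255, nat_lit 3120, nat_lit 0, nat_lit 0, nat_lit 0, nat_lit 0, nat_lit 0, nat_lit 0, nat_lit 0, nat_lit 0, nat_lit 0, nat_lit 0, nat_lit 0, [],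
 ⟨p046_k0, nat_lit 0, nat_lit 0, nat_lit 335, nat_lit 0, nat_lit 444417, [nat_lit 4688000000, nat_lit 6250000000, nat_lit 7968000000], [], [nat_lit 15427377715, nat_lit 17123213559, nat_lit 16601813190, nat_lit 15480229320, nat_lit 16459690204, nat_lit 14964129567, nat_lit 18116075450, nat_lit 14117700160], nat_lit 1271250, nat_lit 1271250, nat_lit 205650, nat_lit 490000, nat_lit 230001, nat_lit 490000, [nat_lit 1100000, nat_lit 1442500, nat_lit 1271250], [nat_lit 9, nat_lit 40, nat_lit 40, nat_lit 80, nat_lit 2, nat_lit 249, nat_lit 40, nat_lit 8]⟩, ⟨p046_k0, nat_lit 0, nat_lit 0, nat_lit 394, nat_lit 0, nat_lit 444417, [nat_lit 4688000000, nat_lit 6250000000, nat_lit 7968000000], [], [nat_lit 34481199888, nat_lit 30727908197, nat_lit 28200807150, nat_lit 29211973080, nat_lit 28191654713, nat_lit 26640663108, nat_lit 30091002770, nat_lit 26201197240], nat_lit 1271250, nat_lit 1271250, nat_lit 205650, nat_lit 490000,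 nat_lit 0, nat_lit 1100001, [nat_lit 1100000, nat_lit 1442500, nat_lit 1271250], [nat_lit 9, nat_lit 40, nat_lit 40, nat_lit 80, nat_lit 2, nat_lit 272, nat_lit 60, nat_lit 9]⟩,
 zbF0, [⟨nat_lit 0, nat_lit 100, nat_lit 100, nat_lit 60, nat_lit 470393197⟩]⟩
noncomputable def p046_l140 : Lf2 := ⟨nat_lit 0, nat_lit 5, [nat_lit 4, nat_lit 5, nat_lit 5, nat_lit 20], false, nat_lit 40, nat_lit 80, nat_lit 160, nat_lit 320, ⟨nat_lit 1000, nat_lit 0, nat_lit 0, nat_lit 0, nat_lit 0, nat_lit 0, nat_lit 0, nat_lit 0, nat_lit 0, nat_lit 0, nat_lit 0, nat_lit 0, nat_lit 0, nat_lit 0, nat_lit 0, nat_lit 0, false, false⟩,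
 nat_lit 14991, nat_lit 0, nat_lit 0, nat_lit 0, nat_lit 8725, nat_lit 8725, nat_lit 2359, nat_lit 0, nat_lit 0, nat_lit 973, nat_lit 0, nat_lit 0, nat_lit 0, nat_lit 0, nat_lit 0, nat_lit 0, nat_lit 0, nat_lit 0, [],
 ⟨p046_k0, nat_lit 0, nat_lit 0, nat_lit 335, nat_lit 0, nat_lit 444417, [nat_lit 4688000000, nat_lit 6250000000, nat_lit 7968000000], [], [nat_lit 15869302156, nat_lit 17586659520, nat_lit 16871336300, nat_lit 15667843650, nat_lit 16726667230, nat_lit 15130175221, nat_lit 18412601000, nat_lit 14186577450], nat_lit 1271250, nat_lit 1271250, nat_lit 205650, nat_lit 490000, nat_lit 230001, nat_lit 490000, [nat_lit 1100000, nat_lit 1442500, nat_lit 1271250], [nat_lit 9, nat_lit 40, nat_lit 40, nat_lit 80, nat_lit 2, nat_lit 249, nat_lit 40, nat_lit 8]⟩, ⟨p046_k0, nat_lit 0, nat_lit 0, nat_lit 293, nat_lit 0, nat_lit 444417, [nat_lit 4688000000, nat_lit 6250000000, nat_lit 7968000000], [], [nat_lit 29816952560,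 nat_lit 25266219410, nat_lit 19881030750, nat_lit 17759039675, nat_lit 26273155341, nat_lit 27475370291, nat_lit 27778827775, nat_lit 25008099600], nat_lit 1271250, nat_lit 1271250, nat_lit 205650, nat_lit 490000, nat_lit 1100001, nat_lit 2470000, [nat_lit 1100000, nat_lit 1442500, nat_lit 1271250], [nat_lit 9, nat_lit 40, nat_lit 40, nat_lit 80, nat_lit 2, nat_lit 317, nat_lit 100, nat_lit 10]⟩,
 zbF0, [⟨nat_lit 0, nat_lit 100, nat_lit 100, nat_lit 70, nat_lit 456118944⟩, ⟨nat_lit 7, nat_lit 97, nat_lit 100, nat_lit 76, nat_lit 186105257⟩]⟩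
noncomputable def p046_l141 : Lf2 := ⟨nat_lit 0, nat_lit 5, [nat_lit 4, nat_lit 5, nat_lit 5, nat_lit 20], true, nat_lit 80, nat_lit 160, nat_lit 0, nat_lit 336, ⟨nat_lit 0, nat_lit 0, nat_lit 1000, nat_lit 6, nat_lit 106, nat_lit 1000, nat_lit 78, nat_lit 1000, nat_lit 58017, nat_lit 274, nat_lit 106667, nat_lit 295, nat_lit 59134096, nat_lit 0, nat_lit 0, nat_lit 2324188, false, false⟩,
 nat_lit 0, nat_lit 7985, nat_lit 0, nat_lit 0, nat_lit 4647, nat_lit 0, nat_lit 0, nat_lit 0, nat_lit 0, nat_lit 0, nat_lit 0, nat_lit 0, nat_lit 0, nat_lit 0, nat_lit 117, nat_lit 1000000, nat_lit 0, nat_lit 0, [(nat_lit 9, [(nat_lit 6, nat_lit 1000)])],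
 ⟨p046_k0, nat_lit 0, nat_lit 0, nat_lit 230, nat_lit 0, nat_lit 287060, [nat_lit 2969600000, nat_lit 1600000000, nat_lit 226400000], [], [nat_lit 10264480196, nat_lit 11235424457, nat_lit 9347294174, nat_lit 10078427253, nat_lit 11622745125, nat_lit 12305590259, nat_lit 10807296432, nat_lit 11457263216], nat_lit 1271250, nat_lit 1271250, nat_lit 134400, nat_lit 490000, nat_lit 490000, nat_lit 1100001, [nat_lit 1100000, nat_lit 1442500, nat_lit 1271250], [nat_lit 9, nat_lit 40, nat_lit 40, nat_lit 80, nat_lit 2, nat_lit 272, nat_lit 60, nat_lit 9]⟩, C1.Rw.none,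
 ⟨nat_lit 5700, nat_lit 5917, ⟨.ofNat (nat_lit 197129), .ofNat (nat_lit 307076), .ofNat (nat_lit 218469), .ofNat (nat_lit 328416), .ofNat (nat_lit 205119), .ofNat (nat_lit 312525), .ofNat (nat_lit 226461), .ofNat (nat_lit 333867)⟩, ⟨.ofNat (nat_lit 93684), .ofNat (nat_lit 250751), .ofNat (nat_lit 136362), .ofNat (nat_lit 293429), .ofNat (nat_lit 99106), .ofNat (nat_lit 252544), .ofNat (nat_lit 141790), .ofNat (nat_lit 295228)⟩⟩, [⟨nat_lit 0, nat_lit 100, nat_lit 98, nat_lit 64, nat_lit 187808584⟩]⟩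
noncomputable def p046_l142 : Lf2 := ⟨nat_lit 0, nat_lit 5, [nat_lit 4, nat_lit 5, nat_lit 5, nat_lit 20], true, nat_lit 80, nat_lit 160, nat_lit 0, nat_lit 320, ⟨nat_lit 0, nat_lit 0, nat_lit 1000, nat_lit 6, nat_lit 118, nat_lit 1000, nat_lit 78, nat_lit 1000, nat_lit 58017, nat_lit 274, nat_lit 129067, nat_lit 303, nat_lit 58238288, nat_lit 0, nat_lit 0, nat_lit 2496331, false, false⟩,
 nat_lit 0, nat_lit 8262, nat_lit 0, nat_lit 0, nat_lit 4809, nat_lit 0, nat_lit 0, nat_lit 0, nat_lit 0, nat_lit 0, nat_lit 0, nat_lit 0, nat_lit 0, nat_lit 0, nat_lit 117, nat_lit 1000000, nat_lit 0, nat_lit 0, [(nat_lit 9, [(nat_lit 6, nat_lit 1000)])],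
 ⟨p046_k0, nat_lit 0, nat_lit 0, nat_lit 247, nat_lit 0, nat_lit 338404, [nat_lit 2969600000, nat_lit 1600000000, nat_lit 226400000], [], [nat_lit 9576149706, nat_lit 10466156613, nat_lit 9007262978, nat_lit 9751786491, nat_lit 10883821015, nat_lit 11574109210, nat_lit 10449382704, nat_lit 11110636352], nat_lit 1271250, nat_lit 1271250, nat_lit 205650, nat_lit 490000, nat_lit 490000, nat_lit 1100001, [nat_lit 1100000, nat_lit 1442500, nat_lit 1271250], [nat_lit 9, nat_lit 40, nat_lit 40, nat_lit 80, nat_lit 2, nat_lit 272, nat_lit 60, nat_lit 9]⟩, C1.Rw.none,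
 ⟨nat_lit 5700, nat_lit 5917, ⟨.ofNat (nat_lit 242029), .ofNat (nat_lit 328416), .ofNat (nat_lit 252698), .ofNat (nat_lit 339085), .ofNat (nat_lit 249476), .ofNat (nat_lit 333867), .ofNat (nat_lit 260147), .ofNat (nat_lit 344538)⟩, ⟨.ofNat (nat_lit 93684), .ofNat (nat_lit 250751), .ofNat (nat_lit 136362), .ofNat (nat_lit 293429), .ofNat (nat_lit 99106), .ofNat (nat_lit 252544), .ofNat (nat_lit 141790), .ofNat (nat_lit 295228)⟩⟩, [⟨nat_lit 0, nat_lit 100, nat_lit 100, nat_lit 70, nat_lit 166265191⟩]⟩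
noncomputable def p046_l143 : Lf2 := ⟨nat_lit 0, nat_lit 5, [nat_lit 4, nat_lit 5, nat_lit 5, nat_lit 20], true, nat_lit 80, nat_lit 160, nat_lit 0, nat_lit 336, ⟨nat_lit 0, nat_lit 0, nat_lit 1000, nat_lit 6, nat_lit 111, nat_lit 1000, nat_lit 80, nat_lit 1000, nat_lit 60000, nat_lit 275, nat_lit 114817, nat_lit 298, nat_lit 58705362, nat_lit 0, nat_lit 0, nat_lit 2412536, false, false⟩,
 nat_lit 0, nat_lit 8119, nat_lit 0, nat_lit 0, nat_lit 4944, nat_lit 0, nat_lit 1381, nat_lit 0, nat_lit 0, nat_lit 0, nat_lit 0, nat_lit 0, nat_lit 0, nat_lit 0, nat_lit 62, nat_lit 475000, nat_lit 0, nat_lit 0, [(nat_lit 9, [(nat_lit 5, nat_lit 875), (nat_lit 6, nat_lit 125)])],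
 ⟨p046_k2, nat_lit 0, nat_lit 0, nat_lit 257, nat_lit 0, nat_lit 325402, [nat_lit 2464800001, nat_lit 966900000, nat_lit 111800000], [], [nat_lit 11083670291, nat_lit 12178374490, nat_lit 10229985858, nat_lit 10985668066, nat_lit 12543835301, nat_lit 13095108864, nat_lit 14259413795, nat_lit 13094592563], nat_lit 1271250, nat_lit 1271250, nat_lit 157850, nat_lit 490000, nat_lit 490000, nat_lit 1100001, [nat_lit 1100000, nat_lit 1442500, nat_lit 1271250], [nat_lit 9, nat_lit 40, nat_lit 40, nat_lit 80, nat_lit 2, nat_lit 272, nat_lit 60, nat_lit 9]⟩, C1.Rw.none,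
 ⟨nat_lit 5477, nat_lit 5701, ⟨.ofNat (nat_lit 212791), .ofNat (nat_lit 312525), .ofNat (nat_lit 234133), .ofNat (nat_lit 333867), .ofNat (nat_lit 220501), .ofNat (nat_lit 317913), .ofNat (nat_lit 241858), .ofNat (nat_lit 339271)⟩, ⟨.ofNat (nat_lit 99106), .ofNat (nat_lit 252544), .ofNat (nat_lit 141790), .ofNat (nat_lit 295228), .ofNat (nat_lit 104343), .ofNat (nat_lit 254209), .ofNat (nat_lit 147057), .ofNat (nat_lit 296923)⟩⟩, []⟩
noncomputable def p046_l144 : Lf2 := ⟨nat_lit 0, nat_lit 5, [nat_lit 4, nat_lit 5, nat_lit 5, nat_lit 20], false, nat_lit 80, nat_lit 160, nat_lit 0, nat_lit 160, ⟨nat_lit 1000, nat_lit 0, nat_lit 0, nat_lit 0, nat_lit 0, nat_lit 0, nat_lit 0, nat_lit 0, nat_lit 0, nat_lit 0, nat_lit 0, nat_lit 0, nat_lit 0, nat_lit 0, nat_lit 0, nat_lit 0, false, false⟩,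
 nat_lit 16816, nat_lit 0, nat_lit 0, nat_lit 0, nat_lit 10241, nat_lit 9788, nat_lit 3779, nat_lit 0, nat_lit 0, nat_lit 0, nat_lit 0, nat_lit 0, nat_lit 0, nat_lit 0, nat_lit 0, nat_lit 0, nat_lit 0, nat_lit 0, [],
 ⟨p046_k2, nat_lit 0, nat_lit 0, nat_lit 284, nat_lit 0, nat_lit 420780, [nat_lit 4688000000, nat_lit 6250000000, nat_lit 7968000000], [], [nat_lit 11220663293, nat_lit 13014090136, nat_lit 8233598935, nat_lit 9974512204, nat_lit 13225960978, nat_lit 12769600712, nat_lit 15232123641, nat_lit 12819313318], nat_lit 1271250, nat_lit 1271250, nat_lit 230001, nat_lit 490000, nat_lit 490000, nat_lit 1100001, [nat_lit 1100000, nat_lit 1442500, nat_lit 1271250], [nat_lit 9, nat_lit 40, nat_lit 40, nat_lit 80, nat_lit 2, nat_lit 272, nat_lit 60, nat_lit 9]⟩, ⟨p046_k0, nat_lit 0, nat_lit 0, nat_lit 389, nat_lit 0, nat_lit 444417, [nat_lit 4688000000, nat_lit 6250000000, nat_lit 7968000000], [], [nat_lit 33531407768,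 nat_lit 28434032704, nat_lit 24539111328, nat_lit 25908214784, nat_lit 25826463776, nat_lit 21951621952, nat_lit 27758166152, nat_lit 23146001824], nat_lit 1271250, nat_lit 1271250, nat_lit 230001, nat_lit 490000, nat_lit 0, nat_lit 1100001, [nat_lit 1100000, nat_lit 1442500, nat_lit 1271250], [nat_lit 9, nat_lit 40, nat_lit 40, nat_lit 80, nat_lit 2, nat_lit 272, nat_lit 60, nat_lit 9]⟩,
 zbF0, [⟨nat_lit 0, nat_lit 100, nat_lit 98, nat_lit 64, nat_lit 574663060⟩]⟩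
noncomputable def p046_l145 : Lf2 := ⟨nat_lit 0, nat_lit 5, [nat_lit 4, nat_lit 5, nat_lit 5, nat_lit 20], false, nat_lit 80, nat_lit 160, nat_lit 160, nat_lit 320, ⟨nat_lit 835, nat_lit 0, nat_lit 165, nat_lit 6, nat_lit 124, nat_lit 165, nat_lit 80, nat_lit 165, nat_lit 60000, nat_lit 275, nat_lit 144150, nat_lit 308, nat_lit 57622631, nat_lit 0, nat_lit 0, nat_lit 2613138, false, false⟩,
 nat_lit 15613, nat_lit 0, nat_lit 0, nat_lit 0, nat_lit 9508, nat_lit 9088, nat_lit 3454, nat_lit 0, nat_lit 0, nat_lit 0, nat_lit 0, nat_lit 0, nat_lit 0, nat_lit 0, nat_lit 0, nat_lit 66000, nat_lit 0, nat_lit 0, [(nat_lit 9, [(nat_lit 5, nat_lit 165)])],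
 ⟨p046_k2, nat_lit 0, nat_lit 0, nat_lit 284, nat_lit 0, nat_lit 420780, [nat_lit 4166336001, nat_lit 5184694000, nat_lit 6438714000], [], [nat_lit 11080826684, nat_lit 12777260768, nat_lit 8367345780, nat_lit 10014355152, nat_lit 12741443965, nat_lit 12704340256, nat_lit 14678453209, nat_lit 12438339885], nat_lit 1271250, nat_lit 1271250, nat_lit 230001, nat_lit 490000, nat_lit 490000, nat_lit 1100001, [nat_lit 1100000, nat_lit 1442500, nat_lit 1271250], [nat_lit 9, nat_lit 40, nat_lit 40, nat_lit 80, nat_lit 2, nat_lit 272, nat_lit 60, nat_lit 9]⟩, ⟨p046_k0, nat_lit 0, nat_lit 0, nat_lit 289, nat_lit 0, nat_lit 444417, [nat_lit 3914480000, nat_lit 5218750000, nat_lit 6653280000], [], [nat_lit 24034455588, nat_lit 19301625124, nat_lit 14638954020, nat_lit 13851638888, nat_lit 23206498454, nat_lit 24341993404, nat_lit 22312729692, nat_lit 22046893188], nat_lit 1271250, nat_lit 1271250, nat_lit 230001, nat_lit 490000,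 nat_lit 1100001, nat_lit 2470000, [nat_lit 1100000, nat_lit 1442500, nat_lit 1271250], [nat_lit 9, nat_lit 40, nat_lit 40, nat_lit 80, nat_lit 2, nat_lit 317, nat_lit 100, nat_lit 10]⟩,
 ⟨nat_lit 5477, nat_lit 5701, ⟨.ofNat (nat_lit 257148), .ofNat (nat_lit 333867), .ofNat (nat_lit 278490), .ofNat (nat_lit 355209), .ofNat (nat_lit 264337), .ofNat (nat_lit 339271), .ofNat (nat_lit 285695), .ofNat (nat_lit 360628)⟩, ⟨.ofNat (nat_lit 99106), .ofNat (nat_lit 252544), .ofNat (nat_lit 141790), .ofNat (nat_lit 295228), .ofNat (nat_lit 104343), .ofNat (nat_lit 254209), .ofNat (nat_lit 147057), .ofNat (nat_lit 296923)⟩⟩, [⟨nat_lit 0, nat_lit 100, nat_lit 99, nat_lit 72, nat_lit 590963952⟩, ⟨nat_lit 7, nat_lit 97, nat_lit 100, nat_lit 76, nat_lit 249569899⟩]⟩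
noncomputable def p046_l146 : Lf2 := ⟨nat_lit 0, nat_lit 10, [nat_lit 0, nat_lit 5, nat_lit 5, nat_lit 20], true, nat_lit 0, nat_lit 80, nat_lit 0, nat_lit 336, ⟨nat_lit 0, nat_lit 0, nat_lit 1000, nat_lit 6, nat_lit 97, nat_lit 0, nat_lit 24, nat_lit 317, nat_lit 2817, nat_lit 228, nat_lit 88817, nat_lit 288, nat_lit 63300148, nat_lit 0, nat_lit 0, nat_lit 1068053, false, false⟩,
 nat_lit 0, nat_lit 8544, nat_lit 0, nat_lit 0, nat_lit 4973, nat_lit 0, nat_lit 0, nat_lit 0, nat_lit 0, nat_lit 0, nat_lit 0, nat_lit 0, nat_lit 0, nat_lit 3583676398425, nat_lit 164, nat_lit 839200, nat_lit 0, nat_lit 0, [(nat_lit 9, [(nat_lit 5, nat_lit 268), (nat_lit 6, nat_lit 732)])],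
 ⟨p046_k3, nat_lit 0, nat_lit 0, nat_lit 367, nat_lit 0, nat_lit 249092, [nat_lit 3836518401, nat_lit 2931018667, nat_lit 164677333], [], [nat_lit 15056818306, nat_lit 17309623453, nat_lit 13557902120, nat_lit 15812010752, nat_lit 11664783059, nat_lit 12672502717, nat_lit 11980552837, nat_lit 11800681533], nat_lit 1271250, nat_lit 1271250, nat_lit 134400, nat_lit 230001, nat_lit 0, nat_lit 490000, [nat_lit 1100000, nat_lit 1442500, nat_lit 1271250], [nat_lit 11, nat_lit 40, nat_lit 40, nat_lit 80, nat_lit 1, nat_lit 317, nat_lit 100, nat_lit 10]⟩, C1.Rw.none,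
 ⟨nat_lit 5477, nat_lit 5917, ⟨.ofNat (nat_lit 197129), .ofNat (nat_lit 228543), .ofNat (nat_lit 239808), .ofNat (nat_lit 271221), .ofNat (nat_lit 213007), .ofNat (nat_lit 242980), .ofNat (nat_lit 255721), .ofNat (nat_lit 285695)⟩, ⟨.negSucc (nat_lit 63383), .ofNat (nat_lit 93684), .negSucc (nat_lit 20704), .ofNat (nat_lit 136362), .negSucc (nat_lit 45522), .ofNat (nat_lit 104343), .negSucc (nat_lit 2808), .ofNat (nat_lit 147057)⟩⟩, [⟨nat_lit 0, nat_lit 100, nat_lit 98, nat_lit 64, nat_lit 1046138685⟩]⟩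
noncomputable def p046_l147 : Lf2 := ⟨nat_lit 0, nat_lit 10, [nat_lit 0, nat_lit 5, nat_lit 5, nat_lit 20], true, nat_lit 0, nat_lit 80, nat_lit 0, nat_lit 336, ⟨nat_lit 0, nat_lit 0, nat_lit 1000, nat_lit 6, nat_lit 115, nat_lit 0, nat_lit 24, nat_lit 839, nat_lit 2400, nat_lit 227, nat_lit 123267, nat_lit 301, nat_lit 61901485, nat_lit 0, nat_lit 0, nat_lit 1345657, false, false⟩,
 nat_lit 0, nat_lit 7310, nat_lit 0, nat_lit 0, nat_lit 4255, nat_lit 0, nat_lit 0, nat_lit 0, nat_lit 0, nat_lit 0, nat_lit 0, nat_lit 0, nat_lit 0, nat_lit 22894186343348, nat_lit 168, nat_lit 866200, nat_lit 0, nat_lit 0, [(nat_lit 9, [(nat_lit 5, nat_lit 223), (nat_lit 6, nat_lit 777)])],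
 ⟨p046_k3, nat_lit 0, nat_lit 0, nat_lit 308, nat_lit 0, nat_lit 136294, [nat_lit 3881222401, nat_lit 2997638667, nat_lit 156317333], [], [nat_lit 13112290669, nat_lit 13713001149, nat_lit 12906981129, nat_lit 13484585189, nat_lit 13453229105, nat_lit 12414305169, nat_lit 14767315185, nat_lit 13736843540], nat_lit 1271250, nat_lit 1271250, nat_lit 230001, nat_lit 490000, nat_lit 0, nat_lit 490000, [nat_lit 1100000, nat_lit 1442500, nat_lit 1271250], [nat_lit 11, nat_lit 40, nat_lit 40, nat_lit 80, nat_lit 1, nat_lit 345, nat_lit 125, nat_lit 10]⟩, C1.Rw.none,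
 ⟨nat_lit 5700, nat_lit 5917, ⟨.ofNat (nat_lit 228543), .ofNat (nat_lit 307076), .ofNat (nat_lit 260552), .ofNat (nat_lit 339085), .ofNat (nat_lit 235806), .ofNat (nat_lit 312525), .ofNat (nat_lit 267819), .ofNat (nat_lit 344538)⟩, ⟨.negSucc (nat_lit 63383), .ofNat (nat_lit 93684), .negSucc (nat_lit 20704), .ofNat (nat_lit 136362), .negSucc (nat_lit 54331), .ofNat (nat_lit 99106), .negSucc (nat_lit 11648), .ofNat (nat_lit 141790)⟩⟩, []⟩
noncomputable def p046_l148 : Lf2 := ⟨nat_lit 0, nat_lit 10, [nat_lit 0, nat_lit 5, nat_lit 5, nat_lit 20], false, nat_lit 0, nat_lit 80, nat_lit 0, nat_lit 160, ⟨nat_lit 598, nat_lit 0, nat_lit 402, nat_lit 6, nat_lit 119, nat_lit 0, nat_lit 25, nat_lit 0, nat_lit 3267, nat_lit 229, nat_lit 135000, nat_lit 305, nat_lit 61513305, nat_lit 0, nat_lit 0, nat_lit 1416814, false, false⟩,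
 nat_lit 9262, nat_lit 702, nat_lit 0, nat_lit 0, nat_lit 6068, nat_lit 4903, nat_lit 1437, nat_lit 0, nat_lit 0, nat_lit 0, nat_lit 0, nat_lit 0, nat_lit 0, nat_lit 0, nat_lit 0, nat_lit 160800, nat_lit 0, nat_lit 0, [(nat_lit 9, [(nat_lit 5, nat_lit 402)])],
 ⟨p046_k4, nat_lit 0, nat_lit 0, nat_lit 346, nat_lit 0, nat_lit 235556, [nat_lit 3417036800, nat_lit 3684704000, nat_lit 4909942400], [], [nat_lit 18244567397, nat_lit 18860969501, nat_lit 17414519749, nat_lit 17974147853, nat_lit 15540518441, nat_lit 16087702845, nat_lit 16314080798, nat_lit 15352752509], nat_lit 1271250, nat_lit 1271250, nat_lit 230001, nat_lit 490000, nat_lit 0, nat_lit 490000, [nat_lit 1100000, nat_lit 1442500, nat_lit 1271250], [nat_lit 11, nat_lit 40, nat_lit 40, nat_lit 80, nat_lit 1, nat_lit 345, nat_lit 125, nat_lit 10]⟩, ⟨p046_k5, nat_lit 0, nat_lit 0, nat_lit 487, nat_lit 0, nat_lit 280436, [nat_lit 2803424000, nat_lit 3737500000,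 nat_lit 7099456000], [], [nat_lit 22656861868, nat_lit 22797614684, nat_lit 20192625856, nat_lit 21686836108, nat_lit 19318896480, nat_lit 19292122080, nat_lit 20355705948, nat_lit 18355502808], nat_lit 1271250, nat_lit 1271250, nat_lit 230001, nat_lit 490000, nat_lit 0, nat_lit 1100001, [nat_lit 1100000, nat_lit 1442500, nat_lit 1271250], [nat_lit 48, nat_lit 40, nat_lit 40, nat_lit 80, nat_lit 12, nat_lit 373, nat_lit 150, nat_lit 10]⟩,
 ⟨nat_lit 5477, nat_lit 5701, ⟨.ofNat (nat_lit 235806), .ofNat (nat_lit 312525), .ofNat (nat_lit 278490), .ofNat (nat_lit 355209), .ofNat (nat_lit 242980), .ofNat (nat_lit 317913), .ofNat (nat_lit 285695), .ofNat (nat_lit 360628)⟩, ⟨.negSucc (nat_lit 54331), .ofNat (nat_lit 99106), .negSucc (nat_lit 11648), .ofNat (nat_lit 141790), .negSucc (nat_lit 45522), .ofNat (nat_lit 104343), .negSucc (nat_lit 2808), .ofNat (nat_lit 147057)⟩⟩, [⟨nat_lit 0, nat_lit 100, nat_lit 97, nat_lit 67,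 nat_lit 402061469⟩]⟩
noncomputable def p046_l149 : Lf2 := ⟨nat_lit 0, nat_lit 10, [nat_lit 0, nat_lit 5, nat_lit 5, nat_lit 20], true, nat_lit 0, nat_lit 80, nat_lit 160, nat_lit 336, ⟨nat_lit 0, nat_lit 0, nat_lit 1000, nat_lit 6, nat_lit 115, nat_lit 0, nat_lit 25, nat_lit 552, nat_lit 3267, nat_lit 229, nat_lit 123267, nat_lit 301, nat_lit 61869018, nat_lit 0, nat_lit 0, nat_lit 1351698, false, false⟩,
 nat_lit 0, nat_lit 6830, nat_lit 0, nat_lit 0, nat_lit 4159, nat_lit 0, nat_lit 0, nat_lit 0, nat_lit 0, nat_lit 0, nat_lit 0, nat_lit 0, nat_lit 0, nat_lit 0, nat_lit 158, nat_lit 805000, nat_lit 0, nat_lit 0, [(nat_lit 9, [(nat_lit 5, nat_lit 325), (nat_lit 6, nat_lit 675)])],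
 ⟨p046_k4, nat_lit 0, nat_lit 0, nat_lit 310, nat_lit 0, nat_lit 134101, [nat_lit 3764960001, nat_lit 2827966667, nat_lit 149133333], [], [nat_lit 14007200893, nat_lit 14601623757, nat_lit 13801497765, nat_lit 14373167873, nat_lit 12769042129, nat_lit 13327250501, nat_lit 14061364084, nat_lit 13175890753], nat_lit 1271250, nat_lit 1271250, nat_lit 230001, nat_lit 490000, nat_lit 0, nat_lit 490000, [nat_lit 1100000, nat_lit 1442500, nat_lit 1271250], [nat_lit 11, nat_lit 40, nat_lit 40, nat_lit 80, nat_lit 1, nat_lit 345, nat_lit 125, nat_lit 10]⟩, C1.Rw.none,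
 ⟨nat_lit 5477, nat_lit 5701, ⟨.ofNat (nat_lit 235806), .ofNat (nat_lit 312525), .ofNat (nat_lit 257148), .ofNat (nat_lit 333867), .ofNat (nat_lit 242980), .ofNat (nat_lit 317913), .ofNat (nat_lit 264337), .ofNat (nat_lit 339271)⟩, ⟨.negSucc (nat_lit 54331), .ofNat (nat_lit 99106), .negSucc (nat_lit 11648), .ofNat (nat_lit 141790), .negSucc (nat_lit 45522), .ofNat (nat_lit 104343), .negSucc (nat_lit 2808), .ofNat (nat_lit 147057)⟩⟩, [⟨nat_lit 0, nat_lit 100, nat_lit 96, nat_lit 69, nat_lit 7759427⟩]⟩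
noncomputable def p046_l150 : Lf2 := ⟨nat_lit 0, nat_lit 10, [nat_lit 0, nat_lit 5, nat_lit 5, nat_lit 20], false, nat_lit 0, nat_lit 80, nat_lit 160, nat_lit 320, ⟨nat_lit 358, nat_lit 0, nat_lit 642, nat_lit 6, nat_lit 124, nat_lit 0, nat_lit 25, nat_lit 593, nat_lit 3267, nat_lit 229, nat_lit 144150, nat_lit 308, nat_lit 61148937, nat_lit 0, nat_lit 0, nat_lit 1481570, false, false⟩,
 nat_lit 9067, nat_lit 0, nat_lit 0, nat_lit 0, nat_lit 5522, nat_lit 5277, nat_lit 1183, nat_lit 0, nat_lit 0, nat_lit 0, nat_lit 0, nat_lit 0, nat_lit 0, nat_lit 0, nat_lit 0, nat_lit 256800, nat_lit 0, nat_lit 0, [(nat_lit 9, [(nat_lit 5, nat_lit 642)])],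
 ⟨p046_k4, nat_lit 0, nat_lit 0, nat_lit 346, nat_lit 0, nat_lit 235556, [nat_lit 2658252800, nat_lit 2153184000, nat_lit 1965430400], [], [nat_lit 15862418063, nat_lit 16636552679, nat_lit 15364608616, nat_lit 16075538400, nat_lit 13812124404, nat_lit 14505232712, nat_lit 14377641292, nat_lit 14105287984], nat_lit 1271250, nat_lit 1271250, nat_lit 230001, nat_lit 490000, nat_lit 0, nat_lit 490000, [nat_lit 1100000, nat_lit 1442500, nat_lit 1271250], [nat_lit 11, nat_lit 40, nat_lit 40, nat_lit 80, nat_lit 1, nat_lit 345, nat_lit 125, nat_lit 10]⟩, ⟨p046_k3, nat_lit 0, nat_lit 0, nat_lit 224, nat_lit 0, nat_lit 249092, [nat_lit 1678304000, nat_lit 2237500000, nat_lit 3523436000], [], [nat_lit 10229469618, nat_lit 7938311704, nat_lit 5801101628, nat_lit 6639689972, nat_lit 11437509422, nat_lit 11935659520, nat_lit 10000116306, nat_lit 10477930892], nat_lit 1271250, nat_lit 1271250, nat_lit 230001, nat_lit 490000, nat_lit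 1100001, nat_lit 2470000, [nat_lit 1100000, nat_lit 1442500, nat_lit 1271250], [nat_lit 11, nat_lit 40, nat_lit 40, nat_lit 80, nat_lit 1, nat_lit 401, nat_lit 175, nat_lit 11]⟩,
 ⟨nat_lit 5477, nat_lit 5701, ⟨.ofNat (nat_lit 257148), .ofNat (nat_lit 333867), .ofNat (nat_lit 278490), .ofNat (nat_lit 355209), .ofNat (nat_lit 264337), .ofNat (nat_lit 339271), .ofNat (nat_lit 285695), .ofNat (nat_lit 360628)⟩, ⟨.negSucc (nat_lit 54331), .ofNat (nat_lit 99106), .negSucc (nat_lit 11648), .ofNat (nat_lit 141790), .negSucc (nat_lit 45522), .ofNat (nat_lit 104343), .negSucc (nat_lit 2808), .ofNat (nat_lit 147057)⟩⟩, [⟨nat_lit 0, nat_lit 100, nat_lit 99, nat_lit 72, nat_lit 546193910⟩, ⟨nat_lit 19, nat_lit 100, nat_lit 97, nat_lit 76, nat_lit 160706051⟩]⟩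
noncomputable def p046_l151 : Lf2 := ⟨nat_lit 0, nat_lit 10, [nat_lit 0, nat_lit 5, nat_lit 5, nat_lit 20], true, nat_lit 80, nat_lit 160, nat_lit 0, nat_lit 336, ⟨nat_lit 0, nat_lit 0, nat_lit 1000, nat_lit 6, nat_lit 112, nat_lit 1000, nat_lit 79, nat_lit 1000, nat_lit 58017, nat_lit 274, nat_lit 117600, nat_lit 299, nat_lit 58639922, nat_lit 0, nat_lit 0, nat_lit 2422975, false, false⟩,
 nat_lit 0, nat_lit 8476, nat_lit 0, nat_lit 0, nat_lit 4933, nat_lit 0, nat_lit 0, nat_lit 0, nat_lit 0, nat_lit 0, nat_lit 0, nat_lit 0, nat_lit 0, nat_lit 0, nat_lit 166, nat_lit 853000, nat_lit 0, nat_lit 0, [(nat_lit 9, [(nat_lit 5, nat_lit 245), (nat_lit 6, nat_lit 755)])],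
 ⟨p046_k3, nat_lit 0, nat_lit 0, nat_lit 300, nat_lit 0, nat_lit 249092, [nat_lit 3858656001, nat_lit 2964180001, nat_lit 159159999], [], [nat_lit 11205519406, nat_lit 12610089063, nat_lit 9626611097, nat_lit 10977046459, nat_lit 11884904570, nat_lit 13356990312, nat_lit 10404540495, nat_lit 11725322002], nat_lit 1271250, nat_lit 1271250, nat_lit 134400, nat_lit 490000, nat_lit 490000, nat_lit 1100001, [nat_lit 1100000, nat_lit 1442500, nat_lit 1271250], [nat_lit 11, nat_lit 40, nat_lit 40, nat_lit 80, nat_lit 1, nat_lit 373, nat_lit 150, nat_lit 11]⟩, C1.Rw.none,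
 ⟨nat_lit 5477, nat_lit 5917, ⟨.ofNat (nat_lit 197129), .ofNat (nat_lit 307076), .ofNat (nat_lit 239808), .ofNat (nat_lit 349755), .ofNat (nat_lit 213007), .ofNat (nat_lit 317913), .ofNat (nat_lit 255721), .ofNat (nat_lit 360628)⟩, ⟨.ofNat (nat_lit 93684), .ofNat (nat_lit 250751), .ofNat (nat_lit 136362), .ofNat (nat_lit 293429), .ofNat (nat_lit 104343), .ofNat (nat_lit 254209), .ofNat (nat_lit 147057), .ofNat (nat_lit 296923)⟩⟩, [⟨nat_lit 0, nat_lit 100, nat_lit 100, nat_lit 80, nat_lit 252331213⟩]⟩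
noncomputable def b_V_600_600_10_39 : St := ⟨true, nat_lit 1, nat_lit 1, nat_lit 1, nat_lit 80, nat_lit 260, nat_lit 280, nat_lit 240, nat_lit 280, nat_lit 24, nat_lit 80, nat_lit 40, nat_lit 80, nat_lit 0, nat_lit 160, nat_lit 0, nat_lit 336, nat_lit 0, nat_lit 40, nat_lit 0, nat_lit 0, nat_lit 0, nat_lit 0⟩
theorem d_V_600_600_10_39 (h : EB TB.env) : Dead b_V_600_600_10_39 := chkB_sound0 h (T :=
(.spl (nat_lit 6) (nat_lit 20)
(.spl (nat_lit 4) (nat_lit 80)
(.spl (nat_lit 4) (nat_lit 40)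
(.spl (nat_lit 0) (nat_lit 270)
(.ord (.spl (nat_lit 1) (nat_lit 260)
(.spl (nat_lit 1) (nat_lit 250)
(.leaf p046_l130)
(.trZ (nat_lit 0) (nat_lit 100) (nat_lit 99) (nat_lit 55) (nat_lit 28) (.trX (nat_lit 19) (nat_lit 100) (nat_lit 81) (nat_lit 83) (nat_lit 328) (.leaf p046_l131))))
(.trZ (nat_lit 0) (nat_lit 100) (nat_lit 100) (nat_lit 60) (nat_lit 36) (.trX (nat_lit 19) (nat_lit 100) (nat_lit 85) (nat_lit 84) (nat_lit 320) (.spl (nat_lit 3) (nat_lit 60)
(.trX (nat_lit 19) (nat_lit 100) (nat_lit 92) (nat_lit 75) (nat_lit 296) (.leaf p046_l132))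
(.leaf p046_l133))))))
(.trZ (nat_lit 0) (nat_lit 100) (nat_lit 96) (nat_lit 54) (nat_lit 28) (.spl (nat_lit 1) (nat_lit 260)
(.spl (nat_lit 0) (nat_lit 275)
(.leaf p046_l134)
(.trZ (nat_lit 0) (nat_lit 100) (nat_lit 95) (nat_lit 56) (nat_lit 32) (.leaf p046_l135)))
(.trZ (nat_lit 0) (nat_lit 100) (nat_lit 98) (nat_lit 64) (nat_lit 40) (.trX (nat_lit 19) (nat_lit 100) (nat_lit 85) (nat_lit 84) (nat_lit 320) (.spl (nat_lit 3) (nat_lit 60)
(.trX (nat_lit 19) (nat_lit 100) (nat_lit 92) (nat_lit 75) (nat_lit 296) (.leaf p046_l136))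
(.leaf p046_l137)))))))
(.spl (nat_lit 1) (nat_lit 260)
(.leaf p046_l138)
(.trZ (nat_lit 0) (nat_lit 100) (nat_lit 100) (nat_lit 60) (nat_lit 36) (.trX (nat_lit 19) (nat_lit 100) (nat_lit 85) (nat_lit 84) (nat_lit 320) (.spl (nat_lit 5) (nat_lit 160)
(.leaf p046_l139)
(.leaf p046_l140))))))
(.spl (nat_lit 0) (nat_lit 270)
(.ord (.spl (nat_lit 1) (nat_lit 260)
(.leaf p046_l141)
(.trZ (nat_lit 0) (nat_lit 100) (nat_lit 100) (nat_lit 60) (nat_lit 36) (.trX (nat_lit 19) (nat_lit 100) (nat_lit 85) (nat_lit 84) (nat_lit 320) (.leaf p046_l142)))))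
(.trZ (nat_lit 0) (nat_lit 100) (nat_lit 96) (nat_lit 54) (nat_lit 28) (.spl (nat_lit 1) (nat_lit 260)
(.leaf p046_l143)
(.trZ (nat_lit 0) (nat_lit 100) (nat_lit 98) (nat_lit 64) (nat_lit 40) (.trX (nat_lit 19) (nat_lit 100) (nat_lit 85) (nat_lit 84) (nat_lit 320) (.spl (nat_lit 5) (nat_lit 160)
(.leaf p046_l144)
(.leaf p046_l145))))))))
(.spl (nat_lit 4) (nat_lit 80)
(.spl (nat_lit 2) (nat_lit 40)
(.leaf p046_l146)
(.spl (nat_lit 0) (nat_lit 270)
(.ord (.leaf p046_l147))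
(.spl (nat_lit 5) (nat_lit 160)
(.leaf p046_l148)
(.spl (nat_lit 1) (nat_lit 260)
(.leaf p046_l149)
(.trX (nat_lit 19) (nat_lit 100) (nat_lit 85) (nat_lit 84) (nat_lit 320) (.leaf p046_l150))))))
(.leaf p046_l151)))) (by decide +kernel)

end B2
end Pool.Agent.Lib.MP_6947cd_al
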