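import Pool.Agent.Lib.MP_6947cd_al.ZB.Pre

/-!
Problem MP_6947cd_al (Chollet).  Case B, second entry in [2/5, 17/20]: certificates of the tree, part P047 (generated).
-/

set_option autoImplicit false
set_option linter.all false

namespace Pool.Agent.Lib.MP_6947cd_al
namespace B2

open Ent Fr B1 PkA

noncomputable def p047_k0 : C1.Kn := ⟨[nat_lit 80, nat_lit 100, nat_lit 140], [nat_lit 0, nat_lit 265, nat_lit 1269], [(nat_lit 0, nat_lit 0, nat_lit 0), (nat_lit 1000, nat_lit 959, nat_lit 206), (nat_lit 1000, nat_lit 958, nat_lit 392)], (nat_lit 100, nat_lit 99, nat_lit 63)⟩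
noncomputable def p047_k1 : C1.Kn := ⟨[nat_lit 80, nat_lit 100, nat_lit 160], [nat_lit 0, nat_lit 0, nat_lit 1533], [(nat_lit 0, nat_lit 0, nat_lit 0), (nat_lit 0, nat_lit 0, nat_lit 0), (nat_lit 1000, nat_lit 1000, nat_lit 399)], (nat_lit 100, nat_lit 92, nat_lit 61)⟩
noncomputable def p047_k2 : C1.Kn := ⟨[nat_lit 80, nat_lit 100, nat_lit 140], [nat_lit 0, nat_lit 399, nat_lit 1395], [(nat_lit 0, nat_lit 0, nat_lit 0), (nat_lit 1000, nat_lit 938, nat_lit 310), (nat_lit 1000, nat_lit 938, nat_lit 389)], (nat_lit 98, nat_lit 100, nat_lit 63)⟩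
noncomputable def p047_k3 : C1.Kn := ⟨[nat_lit 80, nat_lit 120], [nat_lit 0, nat_lit 528], [(nat_lit 0, nat_lit 0, nat_lit 0), (nat_lit 1000, nat_lit 959, nat_lit 206)], (nat_lit 96, nat_lit 100, nat_lit 44)⟩
noncomputable def p047_k4 : C1.Kn := ⟨[nat_lit 80, nat_lit 120, nat_lit 140], [nat_lit 0, nat_lit 0, nat_lit 1164], [(nat_lit 0, nat_lit 0, nat_lit 0), (nat_lit 0, nat_lit 0, nat_lit 0), (nat_lit 941, nat_lit 1000, nat_lit 576)], (nat_lit 100, nat_lit 99, nat_lit 44)⟩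
noncomputable def p047_k5 : C1.Kn := ⟨[nat_lit 80, nat_lit 120], [nat_lit 0, nat_lit 796], [(nat_lit 0, nat_lit 0, nat_lit 0), (nat_lit 1000, nat_lit 938, nat_lit 310)], (nat_lit 94, nat_lit 100, nat_lit 44)⟩
noncomputable def p047_k6 : C1.Kn := ⟨[nat_lit 80, nat_lit 120, nat_lit 140], [nat_lit 0, nat_lit 528, nat_lit 1572], [(nat_lit 0, nat_lit 0, nat_lit 0), (nat_lit 1000, nat_lit 959, nat_lit 206), (nat_lit 966, nat_lit 1000, nat_lit 679)], (nat_lit 100, nat_lit 99, nat_lit 63)⟩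
noncomputable def p047_k7 : C1.Kn := ⟨[nat_lit 80, nat_lit 120, nat_lit 160], [nat_lit 0, nat_lit 0, nat_lit 2132], [(nat_lit 0, nat_lit 0, nat_lit 0), (nat_lit 0, nat_lit 0, nat_lit 0), (nat_lit 858, nat_lit 1000, nat_lit 713)], (nat_lit 100, nat_lit 92, nat_lit 61)⟩
noncomputable def p047_k8 : C1.Kn := ⟨[nat_lit 80, nat_lit 100, nat_lit 120], [nat_lit 0, nat_lit 0, nat_lit 511], [(nat_lit 0, nat_lit 0, nat_lit 0), (nat_lit 0, nat_lit 0, nat_lit 0), (nat_lit 1000, nat_lit 997, nat_lit 383)], (nat_lit 100, nat_lit 100, nat_lit 40)⟩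
noncomputable def p047_k9 : C1.Kn := ⟨[nat_lit 80, nat_lit 100, nat_lit 120], [nat_lit 0, nat_lit 132, nat_lit 640], [(nat_lit 0, nat_lit 0, nat_lit 0), (nat_lit 1000, nat_lit 979, nat_lit 103), (nat_lit 1000, nat_lit 979, nat_lit 397)], (nat_lit 98, nat_lit 100, nat_lit 40)⟩
noncomputable def p047_k10 : C1.Kn := ⟨[nat_lit 80, nat_lit 100, nat_lit 120], [nat_lit 0, nat_lit 198, nat_lit 704], [(nat_lit 0, nat_lit 0, nat_lit 0), (nat_lit 1000, nat_lit 969, nat_lit 154), (nat_lit 1000, nat_lit 969, nat_lit 395)], (nat_lit 97, nat_lit 100, nat_lit 39)⟩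
noncomputable def p047_k11 : C1.Kn := ⟨[nat_lit 80, nat_lit 100, nat_lit 140], [nat_lit 0, nat_lit 132, nat_lit 1148], [(nat_lit 0, nat_lit 0, nat_lit 0), (nat_lit 1000, nat_lit 979, nat_lit 103), (nat_lit 1000, nat_lit 979, nat_lit 397)], (nat_lit 100, nat_lit 100, nat_lit 49)⟩
noncomputable def p047_k12 : C1.Kn := ⟨[nat_lit 80, nat_lit 100, nat_lit 140], [nat_lit 0, nat_lit 0, nat_lit 1022], [(nat_lit 0, nat_lit 0, nat_lit 0), (nat_lit 0, nat_lit 0, nat_lit 0), (nat_lit 1000, nat_lit 1000, nat_lit 399)], (nat_lit 100, nat_lit 98, nat_lit 48)⟩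
noncomputable def p047_k13 : C1.Kn := ⟨[nat_lit 80, nat_lit 100, nat_lit 140], [nat_lit 0, nat_lit 198, nat_lit 1210], [(nat_lit 0, nat_lit 0, nat_lit 0), (nat_lit 1000, nat_lit 969, nat_lit 154), (nat_lit 1000, nat_lit 969, nat_lit 395)], (nat_lit 98, nat_lit 100, nat_lit 49)⟩
noncomputable def p047_k14 : C1.Kn := ⟨[nat_lit 80, nat_lit 100, nat_lit 120], [nat_lit 0, nat_lit 238, nat_lit 742], [(nat_lit 0, nat_lit 0, nat_lit 0), (nat_lit 1000, nat_lit 963, nat_lit 185), (nat_lit 1000, nat_lit 963, nat_lit 393)], (nat_lit 98, nat_lit 100, nat_lit 48)⟩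
noncomputable def p047_k15 : C1.Kn := ⟨[nat_lit 80, nat_lit 100], [nat_lit 0, nat_lit 265], [(nat_lit 0, nat_lit 0, nat_lit 0), (nat_lit 1000, nat_lit 959, nat_lit 206)], (nat_lit 95, nat_lit 100, nat_lit 28)⟩
noncomputable def p047_k16 : C1.Kn := ⟨[nat_lit 80, nat_lit 100, nat_lit 120], [nat_lit 0, nat_lit 265, nat_lit 768], [(nat_lit 0, nat_lit 0, nat_lit 0), (nat_lit 1000, nat_lit 959, nat_lit 206), (nat_lit 1000, nat_lit 958, nat_lit 392)], (nat_lit 96, nat_lit 100, nat_lit 44)⟩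
noncomputable def p047_k17 : C1.Kn := ⟨[nat_lit 80, nat_lit 100, nat_lit 120], [nat_lit 0, nat_lit 399, nat_lit 897], [(nat_lit 0, nat_lit 0, nat_lit 0), (nat_lit 1000, nat_lit 938, nat_lit 310), (nat_lit 1000, nat_lit 938, nat_lit 389)], (nat_lit 94, nat_lit 100, nat_lit 44)⟩
noncomputable def p047_k18 : C1.Kn := ⟨[nat_lit 80, nat_lit 100, nat_lit 140], [nat_lit 0, nat_lit 466, nat_lit 1467], [(nat_lit 0, nat_lit 0, nat_lit 0), (nat_lit 1000, nat_lit 927, nat_lit 359), (nat_lit 1000, nat_lit 927, nat_lit 391)], (nat_lit 96, nat_lit 100, nat_lit 62)⟩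
noncomputable def p047_k19 : C1.Kn := ⟨[nat_lit 80, nat_lit 100, nat_lit 140], [nat_lit 0, nat_lit 0, nat_lit 1022], [(nat_lit 0, nat_lit 0, nat_lit 0), (nat_lit 0, nat_lit 0, nat_lit 0), (nat_lit 1000, nat_lit 1000, nat_lit 399)], (nat_lit 100, nat_lit 99, nat_lit 44)⟩
noncomputable def p047_k20 : C1.Kn := ⟨[nat_lit 80, nat_lit 100, nat_lit 120], [nat_lit 0, nat_lit 332, nat_lit 833], [(nat_lit 0, nat_lit 0, nat_lit 0), (nat_lit 1000, nat_lit 948, nat_lit 259), (nat_lit 1000, nat_lit 948, nat_lit 391)], (nat_lit 95, nat_lit 100, nat_lit 44)⟩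
noncomputable def p047_k21 : C1.Kn := ⟨[nat_lit 80, nat_lit 100, nat_lit 120], [nat_lit 0, nat_lit 132, nat_lit 640], [(nat_lit 0, nat_lit 0, nat_lit 0), (nat_lit 1000, nat_lit 979, nat_lit 103), (nat_lit 1000, nat_lit 979, nat_lit 397)], (nat_lit 99, nat_lit 100, nat_lit 44)⟩
noncomputable def p047_k22 : C1.Kn := ⟨[nat_lit 80, nat_lit 100, nat_lit 120], [nat_lit 0, nat_lit 466, nat_lit 966], [(nat_lit 0, nat_lit 0, nat_lit 0), (nat_lit 1000, nat_lit 927, nat_lit 359), (nat_lit 1000, nat_lit 927, nat_lit 391)], (nat_lit 93, nat_lit 100, nat_lit 44)⟩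
noncomputable def p047_k23 : C1.Kn := ⟨[nat_lit 80, nat_lit 120, nat_lit 140], [nat_lit 0, nat_lit 796, nat_lit 1801], [(nat_lit 0, nat_lit 0, nat_lit 0), (nat_lit 1000, nat_lit 938, nat_lit 310), (nat_lit 982, nat_lit 1000, nat_lit 736)], (nat_lit 98, nat_lit 100, nat_lit 63)⟩
noncomputable def p047_k24 : C1.Kn := ⟨[nat_lit 40, nat_lit 80, nat_lit 100, nat_lit 120], [nat_lit 0, nat_lit 0, nat_lit 0, nat_lit 511], [(nat_lit 0, nat_lit 0, nat_lit 0), (nat_lit 0, nat_lit 0, nat_lit 0), (nat_lit 0, nat_lit 0, nat_lit 0), (nat_lit 1000, nat_lit 997, nat_lit 383)], (nat_lit 99, nat_lit 100, nat_lit 34)⟩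
noncomputable def p047_k25 : C1.Kn := ⟨[nat_lit 80, nat_lit 90, nat_lit 110, nat_lit 120], [nat_lit 0, nat_lit 0, nat_lit 257, nat_lit 511], [(nat_lit 0, nat_lit 0, nat_lit 0), (nat_lit 0, nat_lit 0, nat_lit 0), (nat_lit 1000, nat_lit 980, nat_lit 201), (nat_lit 1000, nat_lit 997, nat_lit 383)], (nat_lit 99, nat_lit 100, nat_lit 34)⟩
noncomputable def p047_k26 : C1.Kn := ⟨[nat_lit 80, nat_lit 100, nat_lit 120], [nat_lit 0, nat_lit 0, nat_lit 511], [(nat_lit 0, nat_lit 0, nat_lit 0), (nat_lit 0, nat_lit 0, nat_lit 0), (nat_lit 1000, nat_lit 997, nat_lit 383)], (nat_lit 99, nat_lit 100, nat_lit 34)⟩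
noncomputable def p047_k27 : C1.Kn := ⟨[nat_lit 80, nat_lit 90, nat_lit 110], [nat_lit 0, nat_lit 0, nat_lit 257], [(nat_lit 0, nat_lit 0, nat_lit 0), (nat_lit 0, nat_lit 0, nat_lit 0), (nat_lit 1000, nat_lit 980, nat_lit 201)], (nat_lit 98, nat_lit 100, nat_lit 28)⟩
noncomputable def p047_k28 : C1.Kn := ⟨[nat_lit 80, nat_lit 100], [nat_lit 0, nat_lit 65], [(nat_lit 0, nat_lit 0, nat_lit 0), (nat_lit 1000, nat_lit 990, nat_lit 51)], (nat_lit 97, nat_lit 100, nat_lit 20)⟩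
noncomputable def p047_k29 : C1.Kn := ⟨[nat_lit 80, nat_lit 100], [nat_lit 0, nat_lit 0], [(nat_lit 0, nat_lit 0, nat_lit 0), (nat_lit 0, nat_lit 0, nat_lit 0)], (nat_lit 98, nat_lit 100, nat_lit 20)⟩
noncomputable def p047_k30 : C1.Kn := ⟨[nat_lit 80, nat_lit 90, nat_lit 110], [nat_lit 0, nat_lit 32, nat_lit 292], [(nat_lit 0, nat_lit 0, nat_lit 0), (nat_lit 1000, nat_lit 990, nat_lit 51), (nat_lit 1000, nat_lit 975, nat_lit 203)], (nat_lit 98, nat_lit 100, nat_lit 28)⟩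
noncomputable def p047_k31 : C1.Kn := ⟨[nat_lit 80, nat_lit 120], [nat_lit 0, nat_lit 0], [(nat_lit 0, nat_lit 0, nat_lit 0), (nat_lit 0, nat_lit 0, nat_lit 0)], (nat_lit 99, nat_lit 100, nat_lit 34)⟩
noncomputable def p047_k32 : C1.Kn := ⟨[nat_lit 80, nat_lit 90, nat_lit 110, nat_lit 120], [nat_lit 0, nat_lit 32, nat_lit 292, nat_lit 578], [(nat_lit 0, nat_lit 0, nat_lit 0), (nat_lit 1000, nat_lit 990, nat_lit 51), (nat_lit 1000, nat_lit 975, nat_lit 203), (nat_lit 1000, nat_lit 994, nat_lit 421)], (nat_lit 98, nat_lit 100, nat_lit 34)⟩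
noncomputable def p047_k33 : C1.Kn := ⟨[nat_lit 40, nat_lit 80, nat_lit 100, nat_lit 120], [nat_lit 0, nat_lit 0, nat_lit 132, nat_lit 640], [(nat_lit 0, nat_lit 0, nat_lit 0), (nat_lit 0, nat_lit 0, nat_lit 0), (nat_lit 1000, nat_lit 979, nat_lit 103), (nat_lit 1000, nat_lit 979, nat_lit 397)], (nat_lit 98, nat_lit 100, nat_lit 40)⟩
noncomputable def p047_k34 : C1.Kn := ⟨[nat_lit 80, nat_lit 100], [nat_lit 0, nat_lit 132], [(nat_lit 0, nat_lit 0, nat_lit 0), (nat_lit 1000, nat_lit 979, nat_lit 103)], (nat_lit 97, nat_lit 100, nat_lit 20)⟩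
noncomputable def p047_k35 : C1.Kn := ⟨[nat_lit 80, nat_lit 100, nat_lit 120], [nat_lit 0, nat_lit 132, nat_lit 640], [(nat_lit 0, nat_lit 0, nat_lit 0), (nat_lit 1000, nat_lit 979, nat_lit 103), (nat_lit 1000, nat_lit 979, nat_lit 397)], (nat_lit 97, nat_lit 100, nat_lit 28)⟩
noncomputable def p047_k36 : C1.Kn := ⟨[nat_lit 80, nat_lit 100, nat_lit 120], [nat_lit 0, nat_lit 0, nat_lit 511], [(nat_lit 0, nat_lit 0, nat_lit 0), (nat_lit 0, nat_lit 0, nat_lit 0), (nat_lit 1000, nat_lit 997, nat_lit 383)], (nat_lit 98, nat_lit 100, nat_lit 28)⟩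
noncomputable def p047_k37 : C1.Kn := ⟨[nat_lit 80, nat_lit 120], [nat_lit 0, nat_lit 264], [(nat_lit 0, nat_lit 0, nat_lit 0), (nat_lit 1000, nat_lit 979, nat_lit 103)], (nat_lit 97, nat_lit 100, nat_lit 28)⟩
noncomputable def p047_k38 : C1.Kn := ⟨[nat_lit 80, nat_lit 120], [nat_lit 0, nat_lit 341], [(nat_lit 0, nat_lit 0, nat_lit 0), (nat_lit 1000, nat_lit 973, nat_lit 133)], (nat_lit 96, nat_lit 100, nat_lit 28)⟩
noncomputable def p047_k39 : C1.Kn := ⟨[nat_lit 40, nat_lit 80, nat_lit 100, nat_lit 120], [nat_lit 0, nat_lit 0, nat_lit 0, nat_lit 511], [(nat_lit 0, nat_lit 0, nat_lit 0), (nat_lit 0, nat_lit 0, nat_lit 0), (nat_lit 0, nat_lit 0, nat_lit 0), (nat_lit 1000, nat_lit 997, nat_lit 383)], (nat_lit 100, nat_lit 100, nat_lit 40)⟩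
noncomputable def p047_k40 : C1.Kn := ⟨[nat_lit 80, nat_lit 90, nat_lit 110, nat_lit 120], [nat_lit 0, nat_lit 66, nat_lit 324, nat_lit 648], [(nat_lit 0, nat_lit 0, nat_lit 0), (nat_lit 1000, nat_lit 979, nat_lit 103), (nat_lit 1000, nat_lit 969, nat_lit 202), (nat_lit 1000, nat_lit 986, nat_lit 438)], (nat_lit 98, nat_lit 100, nat_lit 40)⟩
noncomputable def p047_k41 : C1.Kn := ⟨[nat_lit 40, nat_lit 80, nat_lit 100, nat_lit 120], [nat_lit 0, nat_lit 0, nat_lit 198, nat_lit 704], [(nat_lit 0, nat_lit 0, nat_lit 0), (nat_lit 0, nat_lit 0, nat_lit 0), (nat_lit 1000, nat_lit 969, nat_lit 154), (nat_lit 1000, nat_lit 969, nat_lit 395)], (nat_lit 97, nat_lit 100, nat_lit 39)⟩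
noncomputable def p047_k42 : C1.Kn := ⟨[nat_lit 40, nat_lit 80, nat_lit 100, nat_lit 110], [nat_lit 0, nat_lit 0, nat_lit 198, nat_lit 453], [(nat_lit 0, nat_lit 0, nat_lit 0), (nat_lit 0, nat_lit 0, nat_lit 0), (nat_lit 1000, nat_lit 969, nat_lit 154), (nat_lit 1000, nat_lit 965, nat_lit 360)], (nat_lit 96, nat_lit 100, nat_lit 28)⟩
noncomputable def p047_k43 : C1.Kn := ⟨[nat_lit 80, nat_lit 90, nat_lit 110, nat_lit 120], [nat_lit 0, nat_lit 99, nat_lit 359, nat_lit 723], [(nat_lit 0, nat_lit 0, nat_lit 0), (nat_lit 1000, nat_lit 969, nat_lit 151), (nat_lit 1000, nat_lit 964, nat_lit 203), (nat_lit 1000, nat_lit 981, nat_lit 468)], (nat_lit 97, nat_lit 100, nat_lit 39)⟩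
noncomputable def p047_k44 : C1.Kn := ⟨[nat_lit 40, nat_lit 80, nat_lit 100, nat_lit 120], [nat_lit 0, nat_lit 0, nat_lit 65, nat_lit 576], [(nat_lit 0, nat_lit 0, nat_lit 0), (nat_lit 0, nat_lit 0, nat_lit 0), (nat_lit 1000, nat_lit 990, nat_lit 51), (nat_lit 1000, nat_lit 990, nat_lit 399)], (nat_lit 99, nat_lit 100, nat_lit 40)⟩
noncomputable def p047_k45 : C1.Kn := ⟨[nat_lit 80, nat_lit 90, nat_lit 110], [nat_lit 0, nat_lit 99, nat_lit 359], [(nat_lit 0, nat_lit 0, nat_lit 0), (nat_lit 1000, nat_lit 969, nat_lit 151), (nat_lit 1000, nat_lit 964, nat_lit 203)], (nat_lit 96, nat_lit 100, nat_lit 28)⟩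
noncomputable def p047_k46 : C1.Kn := ⟨[nat_lit 80, nat_lit 100, nat_lit 120], [nat_lit 0, nat_lit 198, nat_lit 704], [(nat_lit 0, nat_lit 0, nat_lit 0), (nat_lit 1000, nat_lit 969, nat_lit 154), (nat_lit 1000, nat_lit 969, nat_lit 395)], (nat_lit 96, nat_lit 100, nat_lit 28)⟩
noncomputable def p047_k47 : C1.Kn := ⟨[nat_lit 40, nat_lit 80, nat_lit 100, nat_lit 120], [nat_lit 0, nat_lit 0, nat_lit 198, nat_lit 704], [(nat_lit 0, nat_lit 0, nat_lit 0), (nat_lit 0, nat_lit 0, nat_lit 0), (nat_lit 1000, nat_lit 969, nat_lit 154), (nat_lit 1000, nat_lit 969, nat_lit 395)], (nat_lit 96, nat_lit 100, nat_lit 28)⟩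
noncomputable def p047_k48 : C1.Kn := ⟨[nat_lit 40, nat_lit 80, nat_lit 100, nat_lit 120], [nat_lit 0, nat_lit 0, nat_lit 0, nat_lit 511], [(nat_lit 0, nat_lit 0, nat_lit 0), (nat_lit 0, nat_lit 0, nat_lit 0), (nat_lit 0, nat_lit 0, nat_lit 0), (nat_lit 1000, nat_lit 997, nat_lit 383)], (nat_lit 98, nat_lit 100, nat_lit 28)⟩
noncomputable def p047_k49 : C1.Kn := ⟨[nat_lit 40, nat_lit 80, nat_lit 100, nat_lit 120], [nat_lit 0, nat_lit 0, nat_lit 238, nat_lit 742], [(nat_lit 0, nat_lit 0, nat_lit 0), (nat_lit 0, nat_lit 0, nat_lit 0), (nat_lit 1000, nat_lit 963, nat_lit 185), (nat_lit 1000, nat_lit 963, nat_lit 393)], (nat_lit 96, nat_lit 100, nat_lit 39)⟩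
noncomputable def p047_k50 : C1.Kn := ⟨[nat_lit 40, nat_lit 80, nat_lit 100, nat_lit 120], [nat_lit 0, nat_lit 0, nat_lit 132, nat_lit 640], [(nat_lit 0, nat_lit 0, nat_lit 0), (nat_lit 0, nat_lit 0, nat_lit 0), (nat_lit 1000, nat_lit 979, nat_lit 103), (nat_lit 1000, nat_lit 979, nat_lit 397)], (nat_lit 99, nat_lit 100, nat_lit 44)⟩
noncomputable def p047_k51 : C1.Kn := ⟨[nat_lit 40, nat_lit 80, nat_lit 100, nat_lit 120], [nat_lit 0, nat_lit 0, nat_lit 198, nat_lit 704], [(nat_lit 0, nat_lit 0, nat_lit 0), (nat_lit 0, nat_lit 0, nat_lit 0), (nat_lit 1000, nat_lit 969, nat_lit 154), (nat_lit 1000, nat_lit 969, nat_lit 395)], (nat_lit 98, nat_lit 100, nat_lit 44)⟩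
noncomputable def p047_k52 : C1.Kn := ⟨[nat_lit 80, nat_lit 120, nat_lit 140], [nat_lit 0, nat_lit 264, nat_lit 1360], [(nat_lit 0, nat_lit 0, nat_lit 0), (nat_lit 1000, nat_lit 979, nat_lit 103), (nat_lit 951, nat_lit 1000, nat_lit 628)], (nat_lit 100, nat_lit 100, nat_lit 49)⟩
noncomputable def p047_k53 : C1.Kn := ⟨[nat_lit 80, nat_lit 100, nat_lit 130], [nat_lit 0, nat_lit 132, nat_lit 894], [(nat_lit 0, nat_lit 0, nat_lit 0), (nat_lit 1000, nat_lit 979, nat_lit 103), (nat_lit 1000, nat_lit 979, nat_lit 397)], (nat_lit 100, nat_lit 100, nat_lit 49)⟩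
noncomputable def p047_k54 : C1.Kn := ⟨[nat_lit 80, nat_lit 140], [nat_lit 0, nat_lit 395], [(nat_lit 0, nat_lit 0, nat_lit 0), (nat_lit 1000, nat_lit 979, nat_lit 103)], (nat_lit 100, nat_lit 100, nat_lit 49)⟩
noncomputable def p047_k55 : C1.Kn := ⟨[nat_lit 80, nat_lit 120, nat_lit 140], [nat_lit 0, nat_lit 395, nat_lit 1464], [(nat_lit 0, nat_lit 0, nat_lit 0), (nat_lit 1000, nat_lit 969, nat_lit 154), (nat_lit 957, nat_lit 1000, nat_lit 654)], (nat_lit 98, nat_lit 100, nat_lit 49)⟩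
noncomputable def p047_k56 : C1.Kn := ⟨[nat_lit 80, nat_lit 100, nat_lit 130], [nat_lit 0, nat_lit 198, nat_lit 957], [(nat_lit 0, nat_lit 0, nat_lit 0), (nat_lit 1000, nat_lit 969, nat_lit 154), (nat_lit 1000, nat_lit 969, nat_lit 395)], (nat_lit 98, nat_lit 100, nat_lit 49)⟩
noncomputable def p047_k57 : C1.Kn := ⟨[nat_lit 80, nat_lit 100, nat_lit 120], [nat_lit 0, nat_lit 132, nat_lit 640], [(nat_lit 0, nat_lit 0, nat_lit 0), (nat_lit 1000, nat_lit 979, nat_lit 103), (nat_lit 1000, nat_lit 979, nat_lit 397)], (nat_lit 97, nat_lit 100, nat_lit 34)⟩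
noncomputable def p047_k58 : C1.Kn := ⟨[nat_lit 80, nat_lit 100], [nat_lit 0, nat_lit 198], [(nat_lit 0, nat_lit 0, nat_lit 0), (nat_lit 1000, nat_lit 969, nat_lit 154)], (nat_lit 96, nat_lit 100, nat_lit 20)⟩
noncomputable def p047_k59 : C1.Kn := ⟨[nat_lit 80, nat_lit 100, nat_lit 120], [nat_lit 0, nat_lit 198, nat_lit 704], [(nat_lit 0, nat_lit 0, nat_lit 0), (nat_lit 1000, nat_lit 969, nat_lit 154), (nat_lit 1000, nat_lit 969, nat_lit 395)], (nat_lit 96, nat_lit 100, nat_lit 34)⟩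
noncomputable def p047_l0 : Lf2 := ⟨nat_lit 0, nat_lit 10, [nat_lit 0, nat_lit 5, nat_lit 5, nat_lit 20], false, nat_lit 0, nat_lit 160, nat_lit 0, nat_lit 80, ⟨nat_lit 1000, nat_lit 0, nat_lit 0, nat_lit 0, nat_lit 0, nat_lit 0, nat_lit 0, nat_lit 0, nat_lit 0, nat_lit 0, nat_lit 0, nat_lit 0, nat_lit 0, nat_lit 0, nat_lit 0, nat_lit 0, false, false⟩,
 nat_lit 18633, nat_lit 2281, nat_lit 0, nat_lit 0, nat_lit 12173, nat_lit 9864, nat_lit 1991, nat_lit 0, nat_lit 0, nat_lit 2411, nat_lit 0, nat_lit 0, nat_lit 0, nat_lit 0, nat_lit 0, nat_lit 0, nat_lit 0, nat_lit 0, [],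
 ⟨p047_k0, nat_lit 0, nat_lit 0, nat_lit 452, nat_lit 0, nat_lit 472390, [nat_lit 4688000000, nat_lit 6250000000, nat_lit 9842000000], [], [nat_lit 20816744750, nat_lit 22880621785, nat_lit 18971774603, nat_lit 21304927125, nat_lit 20831208192, nat_lit 15095217554, nat_lit 24716645508, nat_lit 19057393462], nat_lit 1271250, nat_lit 1271250, nat_lit 490000, nat_lit 780000, nat_lit 0, nat_lit 1100001, [nat_lit 1100000, nat_lit 1442500, nat_lit 1271250], [nat_lit 11, nat_lit 40, nat_lit 40, nat_lit 80, nat_lit 1, nat_lit 373, nat_lit 150, nat_lit 11]⟩, ⟨p047_k1, nat_lit 0, nat_lit 0, nat_lit 548, nat_lit 0, nat_lit 531831, [nat_lit 4688000000, nat_lit 6250000000, nat_lit 11872000000], [], [nat_lit 28390318112, nat_lit 25402643957, nat_lit 25761157088, nat_lit 24033032533, nat_lit 24761529472, nat_lit 18049713941, nat_lit 27808354848, nat_lit 18384525984], nat_lit 1271250, nat_lit 1271250, nat_lit 490000, nat_lit 780000, nat_lit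 0, nat_lit 490000, [nat_lit 1100000, nat_lit 1442500, nat_lit 1271250], [nat_lit 48, nat_lit 40, nat_lit 40, nat_lit 80, nat_lit 12, nat_lit 345, nat_lit 125, nat_lit 9]⟩,
 zbF0, []⟩
noncomputable def p047_l1 : Lf2 := ⟨nat_lit 0, nat_lit 10, [nat_lit 0, nat_lit 5, nat_lit 5, nat_lit 20], false, nat_lit 0, nat_lit 160, nat_lit 80, nat_lit 160, ⟨nat_lit 1000, nat_lit 0, nat_lit 0, nat_lit 0, nat_lit 0, nat_lit 0, nat_lit 0, nat_lit 0, nat_lit 0, nat_lit 0, nat_lit 0, nat_lit 0, nat_lit 0, nat_lit 0, nat_lit 0, nat_lit 0, false, false⟩,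
 nat_lit 17565, nat_lit 2746, nat_lit 0, nat_lit 0, nat_lit 11822, nat_lit 9298, nat_lit 2374, nat_lit 0, nat_lit 0, nat_lit 672, nat_lit 0, nat_lit 0, nat_lit 0, nat_lit 0, nat_lit 0, nat_lit 0, nat_lit 0, nat_lit 0, [],
 ⟨p047_k0, nat_lit 0, nat_lit 0, nat_lit 452, nat_lit 0, nat_lit 472390, [nat_lit 4688000000, nat_lit 6250000000, nat_lit 9842000000], [], [nat_lit 21198720500, nat_lit 21238614490, nat_lit 17448452342, nat_lit 19733969250, nat_lit 20730997288, nat_lit 15160399956, nat_lit 24537848512, nat_lit 19041777068], nat_lit 1271250, nat_lit 1271250, nat_lit 490000, nat_lit 780000, nat_lit 0, nat_lit 1100001, [nat_lit 1100000, nat_lit 1442500, nat_lit 1271250], [nat_lit 11, nat_lit 40, nat_lit 40, nat_lit 80, nat_lit 1, nat_lit 373, nat_lit 150, nat_lit 11]⟩, ⟨p047_k1, nat_lit 0, nat_lit 0, nat_lit 489, nat_lit 0, nat_lit 531831, [nat_lit 4688000000, nat_lit 6250000000, nat_lit 11872000000], [], [nat_lit 35274264472,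 nat_lit 26794299672, nat_lit 25589876784, nat_lit 25907851568, nat_lit 26097921128, nat_lit 25809783360, nat_lit 29160515080, nat_lit 24898802512], nat_lit 1271250, nat_lit 1271250, nat_lit 490000, nat_lit 780000, nat_lit 490000, nat_lit 1100001, [nat_lit 1100000, nat_lit 1442500, nat_lit 1271250], [nat_lit 48, nat_lit 40, nat_lit 40, nat_lit 80, nat_lit 12, nat_lit 373, nat_lit 150, nat_lit 10]⟩,
 zbF0, []⟩
noncomputable def p047_l2 : Lf2 := ⟨nat_lit 0, nat_lit 10, [nat_lit 0, nat_lit 5, nat_lit 5, nat_lit 20], false, nat_lit 0, nat_lit 160, nat_lit 160, nat_lit 240, ⟨nat_lit 1000, nat_lit 0, nat_lit 0, nat_lit 0, nat_lit 0, nat_lit 0, nat_lit 0, nat_lit 0, nat_lit 0, nat_lit 0, nat_lit 0, nat_lit 0, nat_lit 0, nat_lit 0, nat_lit 0, nat_lit 0, false, false⟩,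
 nat_lit 23846, nat_lit 0, nat_lit 0, nat_lit 0, nat_lit 12486, nat_lit 12624, nat_lit 2262, nat_lit 0, nat_lit 0, nat_lit 2823, nat_lit 0, nat_lit 0, nat_lit 0, nat_lit 0, nat_lit 0, nat_lit 0, nat_lit 0, nat_lit 0, [],
 ⟨p047_k0, nat_lit 0, nat_lit 0, nat_lit 452, nat_lit 0, nat_lit 472390, [nat_lit 4688000000, nat_lit 6250000000, nat_lit 9842000000], [], [nat_lit 20476122500, nat_lit 21915775370, nat_lit 17901092246, nat_lit 20276723250, nat_lit 19906057944, nat_lit 14022579828, nat_lit 23861573456, nat_lit 18056807084], nat_lit 1271250, nat_lit 1271250, nat_lit 490000, nat_lit 780000, nat_lit 0, nat_lit 1100001, [nat_lit 1100000, nat_lit 1442500, nat_lit 1271250], [nat_lit 11, nat_lit 40, nat_lit 40, nat_lit 80, nat_lit 1, nat_lit 373, nat_lit 150, nat_lit 11]⟩, ⟨p047_k1, nat_lit 0, nat_lit 0, nat_lit 396, nat_lit 0, nat_lit 531831, [nat_lit 4688000000, nat_lit 6250000000, nat_lit 11872000000], [], [nat_lit 22114788192,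 nat_lit 13562563417, nat_lit 9607194432, nat_lit 11950962425, nat_lit 18552335008, nat_lit 16027882976, nat_lit 21953801952, nat_lit 14636740928], nat_lit 1271250, nat_lit 1271250, nat_lit 490000, nat_lit 780000, nat_lit 1100001, nat_lit 1785000, [nat_lit 1100000, nat_lit 1442500, nat_lit 1271250], [nat_lit 48, nat_lit 40, nat_lit 40, nat_lit 80, nat_lit 12, nat_lit 401, nat_lit 175, nat_lit 10]⟩,
 zbF0, []⟩
noncomputable def p047_l3 : Lf2 := ⟨nat_lit 0, nat_lit 10, [nat_lit 0, nat_lit 5, nat_lit 5, nat_lit 20], false, nat_lit 0, nat_lit 160, nat_lit 240, nat_lit 336, ⟨nat_lit 1000, nat_lit 0, nat_lit 0, nat_lit 0, nat_lit 0, nat_lit 0, nat_lit 0, nat_lit 0, nat_lit 0, nat_lit 0, nat_lit 0, nat_lit 0, nat_lit 0, nat_lit 0, nat_lit 0, nat_lit 0, false, false⟩,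
 nat_lit 18055, nat_lit 3688, nat_lit 0, nat_lit 0, nat_lit 12656, nat_lit 9558, nat_lit 2233, nat_lit 0, nat_lit 0, nat_lit 2317, nat_lit 0, nat_lit 0, nat_lit 0, nat_lit 3622814857141, nat_lit 0, nat_lit 0, nat_lit 0, nat_lit 0, [],
 ⟨p047_k0, nat_lit 0, nat_lit 0, nat_lit 452, nat_lit 0, nat_lit 472390, [nat_lit 4688000000, nat_lit 6250000000, nat_lit 9842000000], [], [nat_lit 20291120000, nat_lit 22090434895, nat_lit 18018268991, nat_lit 20416971375, nat_lit 19695392374, nat_lit 13731809238, nat_lit 23688969526, nat_lit 17805169814], nat_lit 1271250, nat_lit 1271250, nat_lit 490000, nat_lit 780000, nat_lit 0, nat_lit 1100001, [nat_lit 1100000, nat_lit 1442500, nat_lit 1271250], [nat_lit 11, nat_lit 40, nat_lit 40, nat_lit 80, nat_lit 1, nat_lit 373, nat_lit 150, nat_lit 11]⟩, ⟨p047_k1, nat_lit 0, nat_lit 0, nat_lit 390, nat_lit 0, nat_lit 531831, [nat_lit 4688000000, nat_lit 6250000000, nat_lit 11872000000], [], [nat_lit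 17358561363, nat_lit 19784779923, nat_lit 16373144163, nat_lit 18608830867, nat_lit 24122801685, nat_lit 27088354721, nat_lit 22716273063, nat_lit 25674391775], nat_lit 1271250, nat_lit 1271250, nat_lit 490000, nat_lit 780000, nat_lit 1271250, nat_lit 1271250, [nat_lit 1100000, nat_lit 1442500, nat_lit 1271250], [nat_lit 48, nat_lit 40, nat_lit 40, nat_lit 80, nat_lit 12, nat_lit 428, nat_lit 200, nat_lit 10]⟩,
 zbF0, [⟨nat_lit 7, nat_lit 92, nat_lit 100, nat_lit 75, nat_lit 837913902⟩]⟩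
noncomputable def p047_l4 : Lf2 := ⟨nat_lit 0, nat_lit 10, [nat_lit 0, nat_lit 5, nat_lit 5, nat_lit 20], false, nat_lit 0, nat_lit 80, nat_lit 0, nat_lit 160, ⟨nat_lit 1000, nat_lit 0, nat_lit 0, nat_lit 0, nat_lit 0, nat_lit 0, nat_lit 0, nat_lit 0, nat_lit 0, nat_lit 0, nat_lit 0, nat_lit 0, nat_lit 0, nat_lit 0, nat_lit 0, nat_lit 0, false, false⟩,
 nat_lit 10744, nat_lit 0, nat_lit 0, nat_lit 0, nat_lit 6253, nat_lit 5688, nat_lit 903, nat_lit 0, nat_lit 0, nat_lit 533, nat_lit 0, nat_lit 0, nat_lit 0, nat_lit 0, nat_lit 0, nat_lit 0, nat_lit 0, nat_lit 0, [],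
 ⟨p047_k0, nat_lit 0, nat_lit 0, nat_lit 345, nat_lit 0, nat_lit 359704, [nat_lit 4688000000, nat_lit 6250000000, nat_lit 9842000000], [], [nat_lit 30664167508, nat_lit 29035955091, nat_lit 29375172332, nat_lit 29156533419, nat_lit 28291509682, nat_lit 26798018150, nat_lit 31641944512, nat_lit 30168718953], nat_lit 1271250, nat_lit 1271250, nat_lit 780000, nat_lit 1100001, nat_lit 0, nat_lit 490000, [nat_lit 1100000, nat_lit 1442500, nat_lit 1271250], [nat_lit 11, nat_lit 40, nat_lit 40, nat_lit 80, nat_lit 1, nat_lit 373, nat_lit 150, nat_lit 11]⟩, ⟨p047_k1, nat_lit 0, nat_lit 0, nat_lit 485, nat_lit 0, nat_lit 404966, [nat_lit 4688000000, nat_lit 6250000000, nat_lit 11872000000], [], [nat_lit 39605613920, nat_lit 35954668435, nat_lit 35008033675, nat_lit 36186100051, nat_lit 33711064480, nat_lit 33479776043, nat_lit 36911291776, nat_lit 33648836355], nat_lit 1271250, nat_lit 1271250, nat_lit 780000, nat_lit 1100001, nat_lit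 0, nat_lit 1100001, [nat_lit 1100000, nat_lit 1442500, nat_lit 1271250], [nat_lit 48, nat_lit 40, nat_lit 40, nat_lit 80, nat_lit 12, nat_lit 373, nat_lit 150, nat_lit 10]⟩,
 zbF0, []⟩
noncomputable def p047_l5 : Lf2 := ⟨nat_lit 0, nat_lit 10, [nat_lit 0, nat_lit 5, nat_lit 5, nat_lit 20], false, nat_lit 0, nat_lit 80, nat_lit 0, nat_lit 160, ⟨nat_lit 1000, nat_lit 0, nat_lit 0, nat_lit 0, nat_lit 0, nat_lit 0, nat_lit 0, nat_lit 0, nat_lit 0, nat_lit 0, nat_lit 0, nat_lit 0, nat_lit 0, nat_lit 0, nat_lit 0, nat_lit 0, false, false⟩,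
 nat_lit 15119, nat_lit 3763, nat_lit 0, nat_lit 0, nat_lit 11499, nat_lit 8004, nat_lit 3061, nat_lit 0, nat_lit 0, nat_lit 0, nat_lit 0, nat_lit 0, nat_lit 0, nat_lit 0, nat_lit 0, nat_lit 0, nat_lit 0, nat_lit 0, [],
 ⟨p047_k2, nat_lit 0, nat_lit 0, nat_lit 424, nat_lit 0, nat_lit 446719, [nat_lit 4688000000, nat_lit 6250000000, nat_lit 9842000000], [], [nat_lit 21246723553, nat_lit 19215181296, nat_lit 18014732047, nat_lit 19773692888, nat_lit 9687184950, nat_lit 8874273580, nat_lit 14811891099, nat_lit 12102692202], nat_lit 1271250, nat_lit 1271250, nat_lit 780000, nat_lit 1100001, nat_lit 0, nat_lit 490000, [nat_lit 1100000, nat_lit 1442500, nat_lit 1271250], [nat_lit 11, nat_lit 40, nat_lit 40, nat_lit 80, nat_lit 1, nat_lit 373, nat_lit 150, nat_lit 11]⟩, ⟨p047_k1, nat_lit 0, nat_lit 0, nat_lit 529, nat_lit 0, nat_lit 531831, [nat_lit 4688000000, nat_lit 6250000000, nat_lit 11872000000], [], [nat_lit 43134827360,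 nat_lit 37107434496, nat_lit 35458868272, nat_lit 36986601200, nat_lit 31324512048, nat_lit 32476890688, nat_lit 34773744208, nat_lit 32238007680], nat_lit 1271250, nat_lit 1271250, nat_lit 780000, nat_lit 1100001, nat_lit 0, nat_lit 1100001, [nat_lit 1100000, nat_lit 1442500, nat_lit 1271250], [nat_lit 48, nat_lit 40, nat_lit 40, nat_lit 80, nat_lit 12, nat_lit 373, nat_lit 150, nat_lit 10]⟩,
 zbF0, []⟩
noncomputable def p047_l6 : Lf2 := ⟨nat_lit 0, nat_lit 10, [nat_lit 0, nat_lit 5, nat_lit 5, nat_lit 20], false, nat_lit 80, nat_lit 160, nat_lit 0, nat_lit 160, ⟨nat_lit 1000, nat_lit 0, nat_lit 0, nat_lit 0, nat_lit 0, nat_lit 0, nat_lit 0, nat_lit 0, nat_lit 0, nat_lit 0, nat_lit 0, nat_lit 0, nat_lit 0, nat_lit 0, nat_lit 0, nat_lit 0, false, false⟩,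
 nat_lit 9925, nat_lit 2070, nat_lit 0, nat_lit 0, nat_lit 6982, nat_lit 5254, nat_lit 638, nat_lit 0, nat_lit 0, nat_lit 1006, nat_lit 0, nat_lit 0, nat_lit 0, nat_lit 0, nat_lit 0, nat_lit 0, nat_lit 0, nat_lit 0, [],
 ⟨p047_k0, nat_lit 0, nat_lit 0, nat_lit 215, nat_lit 0, nat_lit 359704, [nat_lit 4688000000, nat_lit 6250000000, nat_lit 9842000000], [], [nat_lit 28996093452, nat_lit 27178057454, nat_lit 25353971000, nat_lit 25807898642, nat_lit 25050722528, nat_lit 25478823686, nat_lit 25242670804, nat_lit 25640928712], nat_lit 1271250, nat_lit 1271250, nat_lit 780000, nat_lit 1100001, nat_lit 490000, nat_lit 1100001, [nat_lit 1100000, nat_lit 1442500, nat_lit 1271250], [nat_lit 11, nat_lit 40, nat_lit 40, nat_lit 80, nat_lit 1, nat_lit 373, nat_lit 150, nat_lit 11]⟩, ⟨p047_k1, nat_lit 0, nat_lit 0, nat_lit 485, nat_lit 0, nat_lit 404966, [nat_lit 4688000000, nat_lit 6250000000, nat_lit 11872000000], [], [nat_lit 38944267360,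 nat_lit 34777283182, nat_lit 33566624650, nat_lit 34713496408, nat_lit 34258138840, nat_lit 32359695844, nat_lit 37311851208, nat_lit 33647958546], nat_lit 1271250, nat_lit 1271250, nat_lit 780000, nat_lit 1100001, nat_lit 0, nat_lit 1100001, [nat_lit 1100000, nat_lit 1442500, nat_lit 1271250], [nat_lit 48, nat_lit 40, nat_lit 40, nat_lit 80, nat_lit 12, nat_lit 373, nat_lit 150, nat_lit 10]⟩,
 zbF0, []⟩
noncomputable def p047_l7 : Lf2 := ⟨nat_lit 0, nat_lit 10, [nat_lit 0, nat_lit 5, nat_lit 5, nat_lit 20], false, nat_lit 80, nat_lit 160, nat_lit 0, nat_lit 160, ⟨nat_lit 1000, nat_lit 0, nat_lit 0, nat_lit 0, nat_lit 0, nat_lit 0, nat_lit 0, nat_lit 0, nat_lit 0, nat_lit 0, nat_lit 0, nat_lit 0, nat_lit 0, nat_lit 0, nat_lit 0, nat_lit 0, false, false⟩,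
 nat_lit 10833, nat_lit 3482, nat_lit 0, nat_lit 0, nat_lit 8717, nat_lit 5734, nat_lit 302, nat_lit 0, nat_lit 0, nat_lit 1926, nat_lit 0, nat_lit 0, nat_lit 0, nat_lit 0, nat_lit 0, nat_lit 0, nat_lit 0, nat_lit 0, [],
 ⟨p047_k2, nat_lit 0, nat_lit 0, nat_lit 315, nat_lit 0, nat_lit 446719, [nat_lit 4688000000, nat_lit 6250000000, nat_lit 9842000000], [], [nat_lit 26631874249, nat_lit 24362063336, nat_lit 22677493244, nat_lit 23296225428, nat_lit 22068346860, nat_lit 22650783980, nat_lit 22172439641, nat_lit 22712097288], nat_lit 1271250, nat_lit 1271250, nat_lit 780000, nat_lit 1100001, nat_lit 490000, nat_lit 1100001, [nat_lit 1100000, nat_lit 1442500, nat_lit 1271250], [nat_lit 11, nat_lit 40, nat_lit 40, nat_lit 80, nat_lit 1, nat_lit 373, nat_lit 150, nat_lit 10]⟩, ⟨p047_k1, nat_lit 0, nat_lit 0, nat_lit 529, nat_lit 0, nat_lit 531831, [nat_lit 4688000000, nat_lit 6250000000, nat_lit 11872000000], [], [nat_lit 39675710560,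 nat_lit 33806891530, nat_lit 33612143176, nat_lit 33895734562, nat_lit 33653079640, nat_lit 31318127592, nat_lit 36868836168, nat_lit 31586730016], nat_lit 1271250, nat_lit 1271250, nat_lit 780000, nat_lit 1100001, nat_lit 0, nat_lit 1100001, [nat_lit 1100000, nat_lit 1442500, nat_lit 1271250], [nat_lit 48, nat_lit 40, nat_lit 40, nat_lit 80, nat_lit 12, nat_lit 373, nat_lit 150, nat_lit 10]⟩,
 zbF0, []⟩
noncomputable def p047_l8 : Lf2 := ⟨nat_lit 0, nat_lit 5, [nat_lit 4, nat_lit 5, nat_lit 5, nat_lit 20], false, nat_lit 0, nat_lit 160, nat_lit 160, nat_lit 336, ⟨nat_lit 1000, nat_lit 0, nat_lit 0, nat_lit 0, nat_lit 0, nat_lit 0, nat_lit 0, nat_lit 0, nat_lit 0, nat_lit 0, nat_lit 0, nat_lit 0, nat_lit 0, nat_lit 0, nat_lit 0, nat_lit 0, false, false⟩,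
 nat_lit 20858, nat_lit 1961, nat_lit 0, nat_lit 0, nat_lit 13282, nat_lit 11042, nat_lit 4319, nat_lit 0, nat_lit 0, nat_lit 1034, nat_lit 0, nat_lit 0, nat_lit 0, nat_lit 0, nat_lit 0, nat_lit 0, nat_lit 0, nat_lit 0, [],
 ⟨p047_k3, nat_lit 0, nat_lit 0, nat_lit 266, nat_lit 0, nat_lit 338404, [nat_lit 4688000000, nat_lit 7968000000], [], [nat_lit 24806935252, nat_lit 21348448554, nat_lit 17150469908, nat_lit 19117433746, nat_lit 19604569172, nat_lit 16517154990, nat_lit 25617348232, nat_lit 22570643380], nat_lit 1271250, nat_lit 1271250, nat_lit 780000, nat_lit 1100001, nat_lit 0, nat_lit 1100001, [nat_lit 1100000, nat_lit 1785000], [nat_lit 39, nat_lit 40, nat_lit 40, nat_lit 80, nat_lit 7, nat_lit 317, nat_lit 100, nat_lit 10]⟩, ⟨p047_k4, nat_lit 0, nat_lit 0, nat_lit 248, nat_lit 0, nat_lit 379968, [nat_lit 4688000000, nat_lit 7968000000, nat_lit 9842000000], [], [nat_lit 33117603288, nat_lit 24491957274, nat_lit 32413227184,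 nat_lit 24390805630, nat_lit 24621352020, nat_lit 26102242610, nat_lit 24021784520, nat_lit 25381873091], nat_lit 1271250, nat_lit 1271250, nat_lit 780000, nat_lit 1100001, nat_lit 1271250, nat_lit 1271250, [nat_lit 1100000, nat_lit 1785000, nat_lit 1271250], [nat_lit 29, nat_lit 40, nat_lit 40, nat_lit 80, nat_lit 17, nat_lit 428, nat_lit 200, nat_lit 12]⟩,
 zbF0, [⟨nat_lit 7, nat_lit 90, nat_lit 100, nat_lit 74, nat_lit 159013312⟩]⟩
noncomputable def p047_l9 : Lf2 := ⟨nat_lit 0, nat_lit 5, [nat_lit 4, nat_lit 5, nat_lit 5, nat_lit 20], false, nat_lit 0, nat_lit 160, nat_lit 160, nat_lit 336, ⟨nat_lit 1000, nat_lit 0, nat_lit 0, nat_lit 0, nat_lit 0, nat_lit 0, nat_lit 0, nat_lit 0, nat_lit 0, nat_lit 0, nat_lit 0, nat_lit 0, nat_lit 0, nat_lit 0, nat_lit 0, nat_lit 0, false, false⟩,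
 nat_lit 19791, nat_lit 0, nat_lit 0, nat_lit 0, nat_lit 12053, nat_lit 10477, nat_lit 3714, nat_lit 0, nat_lit 0, nat_lit 893, nat_lit 0, nat_lit 0, nat_lit 0, nat_lit 0, nat_lit 0, nat_lit 0, nat_lit 0, nat_lit 0, [],
 ⟨p047_k5, nat_lit 0, nat_lit 0, nat_lit 298, nat_lit 0, nat_lit 420780, [nat_lit 4688000000, nat_lit 7968000000], [], [nat_lit 17697925454, nat_lit 19651015312, nat_lit 18357355009, nat_lit 20180944936, nat_lit 16285674835, nat_lit 13483942932, nat_lit 21897466770, nat_lit 19132677312], nat_lit 1271250, nat_lit 1271250, nat_lit 780000, nat_lit 1100001, nat_lit 0, nat_lit 1100001, [nat_lit 1100000, nat_lit 1785000], [nat_lit 39, nat_lit 40, nat_lit 40, nat_lit 80, nat_lit 7, nat_lit 317, nat_lit 100, nat_lit 10]⟩, ⟨p047_k4, nat_lit 0, nat_lit 0, nat_lit 318, nat_lit 0, nat_lit 499002, [nat_lit 4688000000, nat_lit 7968000000, nat_lit 9842000000], [], [nat_lit 32854107628, nat_lit 21941725416, nat_lit 32640045304,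 nat_lit 22490807772, nat_lit 25988258262, nat_lit 27363281959, nat_lit 25358110666, nat_lit 26682918944], nat_lit 1271250, nat_lit 1271250, nat_lit 780000, nat_lit 1100001, nat_lit 1271250, nat_lit 1271250, [nat_lit 1100000, nat_lit 1785000, nat_lit 1271250], [nat_lit 29, nat_lit 40, nat_lit 40, nat_lit 80, nat_lit 17, nat_lit 428, nat_lit 200, nat_lit 12]⟩,
 zbF0, [⟨nat_lit 7, nat_lit 92, nat_lit 100, nat_lit 75, nat_lit 238278273⟩]⟩
noncomputable def p047_l10 : Lf2 := ⟨nat_lit 0, nat_lit 10, [nat_lit 0, nat_lit 5, nat_lit 5, nat_lit 20], false, nat_lit 0, nat_lit 160, nat_lit 160, nat_lit 336, ⟨nat_lit 1000, nat_lit 0, nat_lit 0, nat_lit 0, nat_lit 0, nat_lit 0, nat_lit 0, nat_lit 0, nat_lit 0, nat_lit 0, nat_lit 0, nat_lit 0, nat_lit 0, nat_lit 0, nat_lit 0, nat_lit 0, false, false⟩,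
 nat_lit 20434, nat_lit 2358, nat_lit 0, nat_lit 0, nat_lit 13266, nat_lit 10818, nat_lit 1036, nat_lit 0, nat_lit 0, nat_lit 1217, nat_lit 0, nat_lit 0, nat_lit 0, nat_lit 18073082174744, nat_lit 0, nat_lit 0, nat_lit 0, nat_lit 0, [],
 ⟨p047_k6, nat_lit 0, nat_lit 0, nat_lit 312, nat_lit 0, nat_lit 249092, [nat_lit 4688000000, nat_lit 7968000001, nat_lit 9842000000], [], [nat_lit 30224755877, nat_lit 24273447000, nat_lit 21833327588, nat_lit 24130433200, nat_lit 25042284837, nat_lit 18874894905, nat_lit 31049362617, nat_lit 24963293265], nat_lit 1271250, nat_lit 1271250, nat_lit 780000, nat_lit 1100001, nat_lit 0, nat_lit 1100001, [nat_lit 1100000, nat_lit 1785000, nat_lit 1271250], [nat_lit 29, nat_lit 40, nat_lit 40, nat_lit 80, nat_lit 17, nat_lit 373, nat_lit 150, nat_lit 11]⟩, ⟨p047_k7, nat_lit 0, nat_lit 0, nat_lit 237, nat_lit 0, nat_lit 280436, [nat_lit 4688000000, nat_lit 7968000000, nat_lit 11872000000], [],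 [nat_lit 33013137752, nat_lit 21745584944, nat_lit 32503151536, nat_lit 22023581848, nat_lit 25231052272, nat_lit 26859222715, nat_lit 24461634147, nat_lit 26057749280], nat_lit 1271250, nat_lit 1271250, nat_lit 780000, nat_lit 1100001, nat_lit 1271250, nat_lit 1271250, [nat_lit 1100000, nat_lit 1785000, nat_lit 1271250], [nat_lit 21, nat_lit 40, nat_lit 40, nat_lit 80, nat_lit 14, nat_lit 428, nat_lit 200, nat_lit 11]⟩,
 zbF0, [⟨nat_lit 19, nat_lit 100, nat_lit 92, nat_lit 75, nat_lit 144374612⟩]⟩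
noncomputable def b_V_600_600_10_40 : St := ⟨true, nat_lit 1, nat_lit 1, nat_lit 1, nat_lit 80, nat_lit 260, nat_lit 280, nat_lit 240, nat_lit 280, nat_lit 80, nat_lit 160, nat_lit 40, nat_lit 80, nat_lit 0, nat_lit 160, nat_lit 0, nat_lit 336, nat_lit 0, nat_lit 40, nat_lit 0, nat_lit 0, nat_lit 0, nat_lit 0⟩
theorem d_V_600_600_10_40 (h : EB TB.env) : Dead b_V_600_600_10_40 := chkB_sound0 h (T :=
(.spl (nat_lit 2) (nat_lit 120)
(.spl (nat_lit 5) (nat_lit 160)
(.spl (nat_lit 5) (nat_lit 80)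
(.leaf p047_l0)
(.leaf p047_l1))
(.spl (nat_lit 5) (nat_lit 240)
(.leaf p047_l2)
(.leaf p047_l3)))
(.spl (nat_lit 5) (nat_lit 160)
(.spl (nat_lit 4) (nat_lit 80)
(.spl (nat_lit 0) (nat_lit 270)
(.ord (.leaf p047_l4))
(.leaf p047_l5))
(.spl (nat_lit 0) (nat_lit 270)
(.ord (.leaf p047_l6))
(.leaf p047_l7)))
(.spl (nat_lit 6) (nat_lit 20)
(.spl (nat_lit 0) (nat_lit 270)
(.ord (.leaf p047_l8))
(.leaf p047_l9))
(.leaf p047_l10))))) (by decide +kernel)
noncomputable def p047_l11 : Lf2 := ⟨nat_lit 0, nat_lit 10, [nat_lit 0, nat_lit 5, nat_lit 5, nat_lit 20], false, nat_lit 0, nat_lit 160, nat_lit 0, nat_lit 160, ⟨nat_lit 1000, nat_lit 0, nat_lit 0, nat_lit 0, nat_lit 0, nat_lit 0, nat_lit 0, nat_lit 0, nat_lit 0, nat_lit 0, nat_lit 0, nat_lit 0, nat_lit 0, nat_lit 0, nat_lit 0, nat_lit 0, false, false⟩,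
 nat_lit 9152, nat_lit 0, nat_lit 0, nat_lit 16240, nat_lit 4845, nat_lit 4845, nat_lit 1815, nat_lit 0, nat_lit 0, nat_lit 1815, nat_lit 0, nat_lit 0, nat_lit 0, nat_lit 0, nat_lit 0, nat_lit 0, nat_lit 0, nat_lit 0, [],
 ⟨p047_k1, nat_lit 0, nat_lit 0, nat_lit 367, nat_lit 0, nat_lit 279237, [nat_lit 4688000000, nat_lit 6250000000, nat_lit 11872000000], [], [nat_lit 36759016800, nat_lit 34197281190, nat_lit 32224163985, nat_lit 32858131915, nat_lit 28880764485, nat_lit 29509138795, nat_lit 32493396420, nat_lit 30885111195], nat_lit 1271250, nat_lit 1271250, nat_lit 1100001, nat_lit 1785000, nat_lit 0, nat_lit 1100001, [nat_lit 1100000, nat_lit 1442500, nat_lit 1271250], [nat_lit 48, nat_lit 40, nat_lit 40, nat_lit 80, nat_lit 12, nat_lit 401, nat_lit 175, nat_lit 10]⟩, ⟨p047_k1, nat_lit 0, nat_lit 0, nat_lit 367, nat_lit 0, nat_lit 279237, [nat_lit 4688000000, nat_lit 6250000000, nat_lit 11872000000], [], [nat_lit 36759016800,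 nat_lit 34197281190, nat_lit 32224163985, nat_lit 32858131915, nat_lit 28880764485, nat_lit 29509138795, nat_lit 32493396420, nat_lit 30885111195], nat_lit 1271250, nat_lit 1271250, nat_lit 1100001, nat_lit 1785000, nat_lit 0, nat_lit 1100001, [nat_lit 1100000, nat_lit 1442500, nat_lit 1271250], [nat_lit 48, nat_lit 40, nat_lit 40, nat_lit 80, nat_lit 12, nat_lit 401, nat_lit 175, nat_lit 10]⟩,
 zbF0, []⟩
noncomputable def p047_l12 : Lf2 := ⟨nat_lit 0, nat_lit 10, [nat_lit 0, nat_lit 5, nat_lit 5, nat_lit 20], false, nat_lit 0, nat_lit 160, nat_lit 0, nat_lit 160, ⟨nat_lit 1000, nat_lit 0, nat_lit 0, nat_lit 0, nat_lit 0, nat_lit 0, nat_lit 0, nat_lit 0, nat_lit 0, nat_lit 0, nat_lit 0, nat_lit 0, nat_lit 0, nat_lit 0, nat_lit 0, nat_lit 0, false, false⟩,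
 nat_lit 11426, nat_lit 0, nat_lit 0, nat_lit 0, nat_lit 6650, nat_lit 6049, nat_lit 25, nat_lit 0, nat_lit 0, nat_lit 1638, nat_lit 0, nat_lit 0, nat_lit 0, nat_lit 0, nat_lit 0, nat_lit 0, nat_lit 0, nat_lit 0, [],
 ⟨p047_k0, nat_lit 0, nat_lit 0, nat_lit 378, nat_lit 0, nat_lit 472390, [nat_lit 4688000000, nat_lit 6250000000, nat_lit 9842000000], [], [nat_lit 35993440300, nat_lit 33045818850, nat_lit 34037069150, nat_lit 34827285050, nat_lit 29143584050, nat_lit 29925562250, nat_lit 30697733250, nat_lit 31347652850], nat_lit 1271250, nat_lit 1271250, nat_lit 1100001, nat_lit 1785000, nat_lit 0, nat_lit 1100001, [nat_lit 1100000, nat_lit 1442500, nat_lit 1271250], [nat_lit 11, nat_lit 40, nat_lit 40, nat_lit 80, nat_lit 1, nat_lit 401, nat_lit 175, nat_lit 11]⟩, ⟨p047_k1, nat_lit 0, nat_lit 0, nat_lit 515, nat_lit 0, nat_lit 531831, [nat_lit 4688000000, nat_lit 6250000000, nat_lit 11872000000], [], [nat_lit 38593720160,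 nat_lit 34396164982, nat_lit 34422148834, nat_lit 35445796470, nat_lit 30559770830, nat_lit 31569880330, nat_lit 31668458964, nat_lit 32378602502], nat_lit 1271250, nat_lit 1271250, nat_lit 1100001, nat_lit 1785000, nat_lit 0, nat_lit 1100001, [nat_lit 1100000, nat_lit 1442500, nat_lit 1271250], [nat_lit 48, nat_lit 40, nat_lit 40, nat_lit 80, nat_lit 12, nat_lit 401, nat_lit 175, nat_lit 10]⟩,
 zbF0, []⟩
noncomputable def p047_l13 : Lf2 := ⟨nat_lit 0, nat_lit 10, [nat_lit 0, nat_lit 5, nat_lit 5, nat_lit 20], false, nat_lit 0, nat_lit 160, nat_lit 160, nat_lit 240, ⟨nat_lit 1000, nat_lit 0, nat_lit 0, nat_lit 0, nat_lit 0, nat_lit 0, nat_lit 0, nat_lit 0, nat_lit 0, nat_lit 0, nat_lit 0, nat_lit 0, nat_lit 0, nat_lit 0, nat_lit 0, nat_lit 0, false, false⟩,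
 nat_lit 9932, nat_lit 0, nat_lit 0, nat_lit 15143, nat_lit 5257, nat_lit 4229, nat_lit 1491, nat_lit 0, nat_lit 0, nat_lit 2133, nat_lit 0, nat_lit 0, nat_lit 0, nat_lit 2719334542978, nat_lit 0, nat_lit 0, nat_lit 0, nat_lit 0, [],
 ⟨p047_k1, nat_lit 0, nat_lit 0, nat_lit 367, nat_lit 0, nat_lit 279237, [nat_lit 4688000000, nat_lit 6250000000, nat_lit 11872000000], [], [nat_lit 37386838880, nat_lit 34607263214, nat_lit 32987135541, nat_lit 33633872999, nat_lit 29281217241, nat_lit 29922774727, nat_lit 32211108852, nat_lit 31272840567], nat_lit 1271250, nat_lit 1271250, nat_lit 1100001, nat_lit 1785000, nat_lit 0, nat_lit 1100001, [nat_lit 1100000, nat_lit 1442500, nat_lit 1271250], [nat_lit 48, nat_lit 40, nat_lit 40, nat_lit 80, nat_lit 12, nat_lit 401, nat_lit 175, nat_lit 10]⟩, ⟨p047_k1, nat_lit 0, nat_lit 0, nat_lit 189, nat_lit 0, nat_lit 279237, [nat_lit 4688000000, nat_lit 6250000000, nat_lit 11872000000], [], [nat_lit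 31132331360, nat_lit 28896298358, nat_lit 24956974439, nat_lit 25617486490, nat_lit 24956974439, nat_lit 25617486490, nat_lit 27798752168, nat_lit 27771698326], nat_lit 1271250, nat_lit 1271250, nat_lit 1100001, nat_lit 1785000, nat_lit 1100001, nat_lit 1785000, [nat_lit 1100000, nat_lit 1442500, nat_lit 1271250], [nat_lit 48, nat_lit 40, nat_lit 40, nat_lit 80, nat_lit 12, nat_lit 428, nat_lit 200, nat_lit 10]⟩,
 zbF0, []⟩
noncomputable def p047_l14 : Lf2 := ⟨nat_lit 0, nat_lit 10, [nat_lit 0, nat_lit 5, nat_lit 5, nat_lit 20], false, nat_lit 0, nat_lit 160, nat_lit 160, nat_lit 240, ⟨nat_lit 1000, nat_lit 0, nat_lit 0, nat_lit 0, nat_lit 0, nat_lit 0, nat_lit 0, nat_lit 0, nat_lit 0, nat_lit 0, nat_lit 0, nat_lit 0, nat_lit 0, nat_lit 0, nat_lit 0, nat_lit 0, false, false⟩,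
 nat_lit 11487, nat_lit 0, nat_lit 0, nat_lit 0, nat_lit 6686, nat_lit 6081, nat_lit 0, nat_lit 0, nat_lit 0, nat_lit 1710, nat_lit 0, nat_lit 0, nat_lit 0, nat_lit 0, nat_lit 0, nat_lit 0, nat_lit 0, nat_lit 0, [],
 ⟨p047_k0, nat_lit 0, nat_lit 0, nat_lit 378, nat_lit 0, nat_lit 472390, [nat_lit 4688000000, nat_lit 6250000000, nat_lit 9842000000], [], [nat_lit 36029263972, nat_lit 33094734104, nat_lit 34084114636, nat_lit 34875890272, nat_lit 29159077192, nat_lit 29942631760, nat_lit 30712231640, nat_lit 31363158664], nat_lit 1271250, nat_lit 1271250, nat_lit 1100001, nat_lit 1785000, nat_lit 0, nat_lit 1100001, [nat_lit 1100000, nat_lit 1442500, nat_lit 1271250], [nat_lit 11, nat_lit 40, nat_lit 40, nat_lit 80, nat_lit 1, nat_lit 401, nat_lit 175, nat_lit 11]⟩, ⟨p047_k1, nat_lit 0, nat_lit 0, nat_lit 365, nat_lit 0, nat_lit 531831, [nat_lit 4688000000, nat_lit 6250000000, nat_lit 11872000000], [], [nat_lit 33954483040,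 nat_lit 27523971484, nat_lit 27337105866, nat_lit 28452549006, nat_lit 27337105866, nat_lit 28452549006, nat_lit 33975833936, nat_lit 29339963070], nat_lit 1271250, nat_lit 1271250, nat_lit 1100001, nat_lit 1785000, nat_lit 1100001, nat_lit 1785000, [nat_lit 1100000, nat_lit 1442500, nat_lit 1271250], [nat_lit 48, nat_lit 40, nat_lit 40, nat_lit 80, nat_lit 12, nat_lit 428, nat_lit 200, nat_lit 10]⟩,
 zbF0, []⟩
noncomputable def p047_l15 : Lf2 := ⟨nat_lit 0, nat_lit 10, [nat_lit 0, nat_lit 5, nat_lit 5, nat_lit 20], false, nat_lit 0, nat_lit 160, nat_lit 240, nat_lit 336, ⟨nat_lit 1000, nat_lit 0, nat_lit 0, nat_lit 0, nat_lit 0, nat_lit 0, nat_lit 0, nat_lit 0, nat_lit 0, nat_lit 0, nat_lit 0, nat_lit 0, nat_lit 0, nat_lit 0, nat_lit 0, nat_lit 0, false, false⟩,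
 nat_lit 17920, nat_lit 0, nat_lit 0, nat_lit 3647, nat_lit 7970, nat_lit 9487, nat_lit 826, nat_lit 0, nat_lit 0, nat_lit 2466, nat_lit 0, nat_lit 0, nat_lit 0, nat_lit 20670781286959, nat_lit 0, nat_lit 0, nat_lit 0, nat_lit 0, [],
 ⟨p047_k1, nat_lit 0, nat_lit 0, nat_lit 515, nat_lit 0, nat_lit 531831, [nat_lit 4688000000, nat_lit 6250000000, nat_lit 11872000000], [], [nat_lit 41521016800, nat_lit 33092933080, nat_lit 32942417750, nat_lit 34270637510, nat_lit 27346707150, nat_lit 28405802150, nat_lit 30352258920, nat_lit 29105276350], nat_lit 1271250, nat_lit 1271250, nat_lit 1100001, nat_lit 1785000, nat_lit 0, nat_lit 1100001, [nat_lit 1100000, nat_lit 1442500, nat_lit 1271250], [nat_lit 48, nat_lit 40, nat_lit 40, nat_lit 80, nat_lit 12, nat_lit 401, nat_lit 175, nat_lit 10]⟩, ⟨p047_k1, nat_lit 0, nat_lit 0, nat_lit 358, nat_lit 0, nat_lit 531831, [nat_lit 4688000000, nat_lit 6250000000, nat_lit 11872000000], [], [nat_lit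 15526605608, nat_lit 17862446272, nat_lit 18492103428, nat_lit 19751784220, nat_lit 22472129296, nat_lit 25369364101, nat_lit 25081870088, nat_lit 27433171224], nat_lit 1271250, nat_lit 1271250, nat_lit 1100001, nat_lit 1785000, nat_lit 1271250, nat_lit 1271250, [nat_lit 1100000, nat_lit 1442500, nat_lit 1271250], [nat_lit 48, nat_lit 40, nat_lit 40, nat_lit 80, nat_lit 12, nat_lit 456, nat_lit 225, nat_lit 11]⟩,
 zbF0, [⟨nat_lit 7, nat_lit 92, nat_lit 100, nat_lit 75, nat_lit 851852140⟩]⟩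
noncomputable def b_V_600_600_10_41 : St := ⟨true, nat_lit 1, nat_lit 1, nat_lit 1, nat_lit 80, nat_lit 240, nat_lit 280, nat_lit 240, nat_lit 280, nat_lit 160, nat_lit 240, nat_lit 40, nat_lit 80, nat_lit 0, nat_lit 160, nat_lit 0, nat_lit 336, nat_lit 0, nat_lit 40, nat_lit 0, nat_lit 0, nat_lit 0, nat_lit 0⟩
theorem d_V_600_600_10_41 (h : EB TB.env) : Dead b_V_600_600_10_41 := chkB_sound0 h (T :=
(.spl (nat_lit 5) (nat_lit 160)
(.spl (nat_lit 0) (nat_lit 260)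
(.ord (.leaf p047_l11))
(.leaf p047_l12))
(.spl (nat_lit 5) (nat_lit 240)
(.spl (nat_lit 0) (nat_lit 260)
(.ord (.leaf p047_l13))
(.leaf p047_l14))
(.leaf p047_l15)))) (by decide +kernel)
noncomputable def p047_l16 : Lf2 := ⟨nat_lit 0, nat_lit 4, [nat_lit 38, nat_lit 5, nat_lit 5, nat_lit 20], true, nat_lit 160, nat_lit 200, nat_lit 0, nat_lit 336, ⟨nat_lit 0, nat_lit 0, nat_lit 1000, nat_lit 6, nat_lit 96, nat_lit 1000, nat_lit 124, nat_lit 1000, nat_lit 144150, nat_lit 308, nat_lit 86400, nat_lit 287, nat_lit 56493488, nat_lit 0, nat_lit 0, nat_lit 2865415, false, false⟩,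
 nat_lit 0, nat_lit 8571, nat_lit 0, nat_lit 0, nat_lit 4537, nat_lit 0, nat_lit 433, nat_lit 0, nat_lit 0, nat_lit 0, nat_lit 0, nat_lit 0, nat_lit 0, nat_lit 29891890584601, nat_lit 80, nat_lit 1000000, nat_lit 0, nat_lit 0, [(nat_lit 6, [(nat_lit 6, nat_lit 1000)])],
 ⟨p047_k8, nat_lit 0, nat_lit 0, nat_lit 193, nat_lit 0, nat_lit 144045, [nat_lit 2257066667, nat_lit 1408000000, nat_lit 211200000], [], [nat_lit 10909678080, nat_lit 11536921838, nat_lit 11831181419, nat_lit 10684309485, nat_lit 13350120942, nat_lit 13120890235, nat_lit 14862381821, nat_lit 13731777301], nat_lit 1271250, nat_lit 1271250, nat_lit 88400, nat_lit 490000, nat_lit 1100001, nat_lit 1442500, [nat_lit 1100000, nat_lit 1442500, nat_lit 1271250], [nat_lit 9, nat_lit 40, nat_lit 40, nat_lit 80, nat_lit 2, nat_lit 289, nat_lit 75, nat_lit 9]⟩, C1.Rw.none,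
 ⟨nat_lit 6123, nat_lit 6325, ⟨.ofNat (nat_lit 164319), .ofNat (nat_lit 295942), .ofNat (nat_lit 175003), .ofNat (nat_lit 306625), .ofNat (nat_lit 172944), .ofNat (nat_lit 301553), .ofNat (nat_lit 183618), .ofNat (nat_lit 312227)⟩, ⟨.ofNat (nat_lit 246791), .ofNat (nat_lit 329055), .ofNat (nat_lit 289527), .ofNat (nat_lit 371791), .ofNat (nat_lit 248833), .ofNat (nat_lit 329214), .ofNat (nat_lit 291529), .ofNat (nat_lit 371910)⟩⟩, [⟨nat_lit 0, nat_lit 100, nat_lit 100, nat_lit 50, nat_lit 66154446⟩]⟩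
noncomputable def p047_l17 : Lf2 := ⟨nat_lit 0, nat_lit 4, [nat_lit 38, nat_lit 5, nat_lit 5, nat_lit 20], true, nat_lit 160, nat_lit 200, nat_lit 0, nat_lit 336, ⟨nat_lit 0, nat_lit 0, nat_lit 1000, nat_lit 6, nat_lit 100, nat_lit 1000, nat_lit 124, nat_lit 1000, nat_lit 144150, nat_lit 308, nat_lit 93750, nat_lit 290, nat_lit 56117993, nat_lit 0, nat_lit 0, nat_lit 2942883, false, false⟩,
 nat_lit 0, nat_lit 7946, nat_lit 0, nat_lit 0, nat_lit 4414, nat_lit 0, nat_lit 544, nat_lit 0, nat_lit 0, nat_lit 0, nat_lit 0, nat_lit 0, nat_lit 0, nat_lit 25793999280008, nat_lit 80, nat_lit 1000000, nat_lit 0, nat_lit 0, [(nat_lit 6, [(nat_lit 6, nat_lit 1000)])],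
 ⟨p047_k9, nat_lit 0, nat_lit 0, nat_lit 189, nat_lit 0, nat_lit 189571, [nat_lit 2257066667, nat_lit 1408000000, nat_lit 211200000], [], [nat_lit 11391369201, nat_lit 11700237928, nat_lit 10725477063, nat_lit 10810245231, nat_lit 12973141077, nat_lit 13281076591, nat_lit 13727467904, nat_lit 13177491229], nat_lit 1271250, nat_lit 1271250, nat_lit 111251, nat_lit 490000, nat_lit 1100001, nat_lit 1442500, [nat_lit 1100000, nat_lit 1442500, nat_lit 1271250], [nat_lit 9, nat_lit 40, nat_lit 40, nat_lit 80, nat_lit 2, nat_lit 289, nat_lit 75, nat_lit 9]⟩, C1.Rw.none,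
 ⟨nat_lit 6020, nat_lit 6124, ⟨.ofNat (nat_lit 180982), .ofNat (nat_lit 301553), .ofNat (nat_lit 196993), .ofNat (nat_lit 317564), .ofNat (nat_lit 185145), .ofNat (nat_lit 304325), .ofNat (nat_lit 201152), .ofNat (nat_lit 320331)⟩, ⟨.ofNat (nat_lit 248833), .ofNat (nat_lit 329214), .ofNat (nat_lit 291529), .ofNat (nat_lit 371910), .ofNat (nat_lit 249807), .ofNat (nat_lit 329260), .ofNat (nat_lit 292492), .ofNat (nat_lit 371945)⟩⟩, [⟨nat_lit 0, nat_lit 100, nat_lit 100, nat_lit 55, nat_lit 121739372⟩]⟩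
noncomputable def p047_l18 : Lf2 := ⟨nat_lit 0, nat_lit 4, [nat_lit 38, nat_lit 5, nat_lit 5, nat_lit 20], true, nat_lit 160, nat_lit 200, nat_lit 0, nat_lit 336, ⟨nat_lit 0, nat_lit 0, nat_lit 1000, nat_lit 6, nat_lit 103, nat_lit 1000, nat_lit 124, nat_lit 1000, nat_lit 144150, nat_lit 308, nat_lit 98817, nat_lit 292, nat_lit 55920510, nat_lit 0, nat_lit 0, nat_lit 2982614, false, false⟩,
 nat_lit 0, nat_lit 7658, nat_lit 0, nat_lit 0, nat_lit 4355, nat_lit 0, nat_lit 826, nat_lit 0, nat_lit 0, nat_lit 0, nat_lit 0, nat_lit 0, nat_lit 0, nat_lit 19474896580722, nat_lit 80, nat_lit 1000000, nat_lit 0, nat_lit 0, [(nat_lit 6, [(nat_lit 6, nat_lit 1000)])],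
 ⟨p047_k10, nat_lit 0, nat_lit 0, nat_lit 190, nat_lit 0, nat_lit 236939, [nat_lit 2257066667, nat_lit 1408000000, nat_lit 211200000], [], [nat_lit 11707084089, nat_lit 12038352454, nat_lit 10896546934, nat_lit 11211358214, nat_lit 13380326258, nat_lit 13686314609, nat_lit 13003726941, nat_lit 12794128009], nat_lit 1271250, nat_lit 1271250, nat_lit 111251, nat_lit 490000, nat_lit 1100001, nat_lit 1442500, [nat_lit 1100000, nat_lit 1442500, nat_lit 1271250], [nat_lit 9, nat_lit 40, nat_lit 40, nat_lit 80, nat_lit 2, nat_lit 289, nat_lit 75, nat_lit 9]⟩, C1.Rw.none,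
 ⟨nat_lit 5916, nat_lit 6021, ⟨.ofNat (nat_lit 185145), .ofNat (nat_lit 304325), .ofNat (nat_lit 206488), .ofNat (nat_lit 325667), .ofNat (nat_lit 189276), .ofNat (nat_lit 307076), .ofNat (nat_lit 210615), .ofNat (nat_lit 328416)⟩, ⟨.ofNat (nat_lit 249807), .ofNat (nat_lit 329260), .ofNat (nat_lit 292492), .ofNat (nat_lit 371945), .ofNat (nat_lit 250751), .ofNat (nat_lit 329284), .ofNat (nat_lit 293429), .ofNat (nat_lit 371963)⟩⟩, [⟨nat_lit 0, nat_lit 100, nat_lit 100, nat_lit 60, nat_lit 186632584⟩]⟩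
noncomputable def p047_l19 : Lf2 := ⟨nat_lit 0, nat_lit 4, [nat_lit 38, nat_lit 5, nat_lit 5, nat_lit 20], false, nat_lit 160, nat_lit 200, nat_lit 0, nat_lit 160, ⟨nat_lit 1000, nat_lit 0, nat_lit 0, nat_lit 0, nat_lit 0, nat_lit 0, nat_lit 0, nat_lit 0, nat_lit 0, nat_lit 0, nat_lit 0, nat_lit 0, nat_lit 0, nat_lit 0, nat_lit 0, nat_lit 0, false, false⟩,
 nat_lit 34754, nat_lit 0, nat_lit 0, nat_lit 0, nat_lit 18399, nat_lit 5764, nat_lit 143, nat_lit 0, nat_lit 0, nat_lit 0, nat_lit 0, nat_lit 0, nat_lit 0, nat_lit 33617628044029, nat_lit 0, nat_lit 0, nat_lit 0, nat_lit 0, [],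
 ⟨p047_k8, nat_lit 0, nat_lit 0, nat_lit 169, nat_lit 0, nat_lit 258553, [nat_lit 4688000000, nat_lit 6250000000, nat_lit 7968000000], [], [nat_lit 18793054392, nat_lit 9353300250, nat_lit 160554111, nat_lit 3167701941, nat_lit 4910625639, nat_lit 7791470186, nat_lit 7828619344, nat_lit 5811781428], nat_lit 1271250, nat_lit 1271250, nat_lit 490000, nat_lit 780000, nat_lit 1100001, nat_lit 1442500, [nat_lit 1100000, nat_lit 1442500, nat_lit 1271250], [nat_lit 9, nat_lit 40, nat_lit 40, nat_lit 80, nat_lit 2, nat_lit 317, nat_lit 100, nat_lit 10]⟩, ⟨p047_k8, nat_lit 0, nat_lit 0, nat_lit 251, nat_lit 0, nat_lit 258553, [nat_lit 4688000000, nat_lit 6250000000, nat_lit 7968000000], [], [nat_lit 41283425760, nat_lit 38235779928, nat_lit 35188134096, nat_lit 32968204112, nat_lit 36597703440, nat_lit 33881672056, nat_lit 39011880672, nat_lit 36332185544], nat_lit 1271250, nat_lit 1271250, nat_lit 490000, nat_lit 780000, nat_lit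 0, nat_lit 1100001, [nat_lit 1100000, nat_lit 1442500, nat_lit 1271250], [nat_lit 9, nat_lit 40, nat_lit 40, nat_lit 80, nat_lit 2, nat_lit 289, nat_lit 75, nat_lit 10]⟩,
 zbF0, []⟩
noncomputable def p047_l20 : Lf2 := ⟨nat_lit 0, nat_lit 4, [nat_lit 38, nat_lit 5, nat_lit 5, nat_lit 20], false, nat_lit 160, nat_lit 200, nat_lit 0, nat_lit 160, ⟨nat_lit 1000, nat_lit 0, nat_lit 0, nat_lit 0, nat_lit 0, nat_lit 0, nat_lit 0, nat_lit 0, nat_lit 0, nat_lit 0, nat_lit 0, nat_lit 0, nat_lit 0, nat_lit 0, nat_lit 0, nat_lit 0, false, false⟩,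
 nat_lit 16158, nat_lit 0, nat_lit 0, nat_lit 0, nat_lit 8554, nat_lit 5254, nat_lit 0, nat_lit 0, nat_lit 0, nat_lit 0, nat_lit 0, nat_lit 0, nat_lit 0, nat_lit 0, nat_lit 0, nat_lit 0, nat_lit 0, nat_lit 0, [],
 ⟨p047_k8, nat_lit 0, nat_lit 0, nat_lit 149, nat_lit 0, nat_lit 258553, [nat_lit 4688000000, nat_lit 6250000000, nat_lit 7968000000], [], [nat_lit 5834852888, nat_lit 7961652920, nat_lit 6951492592, nat_lit 8926935488, nat_lit 8351743272, nat_lit 10287800378, nat_lit 9269665144, nat_lit 11143831174], nat_lit 1271250, nat_lit 1271250, nat_lit 780000, nat_lit 1100001, nat_lit 1100001, nat_lit 1442500, [nat_lit 1100000, nat_lit 1442500, nat_lit 1271250], [nat_lit 9, nat_lit 40, nat_lit 40, nat_lit 80, nat_lit 2, nat_lit 317, nat_lit 100, nat_lit 10]⟩, ⟨p047_k8, nat_lit 0, nat_lit 0, nat_lit 229, nat_lit 0, nat_lit 258553, [nat_lit 4688000000, nat_lit 6250000000, nat_lit 7968000000], [], [nat_lit 38944267360, nat_lit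 36166277908, nat_lit 33388288456, nat_lit 31358991740, nat_lit 34258138840, nat_lit 31782422516, nat_lit 37311851208, nat_lit 34869256100], nat_lit 1271250, nat_lit 1271250, nat_lit 780000, nat_lit 1100001, nat_lit 0, nat_lit 1100001, [nat_lit 1100000, nat_lit 1442500, nat_lit 1271250], [nat_lit 9, nat_lit 40, nat_lit 40, nat_lit 80, nat_lit 2, nat_lit 317, nat_lit 100, nat_lit 11]⟩,
 zbF0, []⟩
noncomputable def p047_l21 : Lf2 := ⟨nat_lit 0, nat_lit 4, [nat_lit 38, nat_lit 5, nat_lit 5, nat_lit 20], false, nat_lit 160, nat_lit 200, nat_lit 160, nat_lit 336, ⟨nat_lit 1000, nat_lit 0, nat_lit 0, nat_lit 0, nat_lit 0, nat_lit 0, nat_lit 0, nat_lit 0, nat_lit 0, nat_lit 0, nat_lit 0, nat_lit 0, nat_lit 0, nat_lit 0, nat_lit 0, nat_lit 0, false, false⟩,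
 nat_lit 34754, nat_lit 0, nat_lit 0, nat_lit 0, nat_lit 18399, nat_lit 8517, nat_lit 143, nat_lit 0, nat_lit 0, nat_lit 1996, nat_lit 0, nat_lit 0, nat_lit 0, nat_lit 34550208036972, nat_lit 0, nat_lit 0, nat_lit 0, nat_lit 0, [],
 ⟨p047_k8, nat_lit 0, nat_lit 0, nat_lit 169, nat_lit 0, nat_lit 258553, [nat_lit 4688000000, nat_lit 6250000000, nat_lit 7968000000], [], [nat_lit 18793054392, nat_lit 9353300250, nat_lit 5952894000, nat_lit 3310891053, nat_lit 4910625639, nat_lit 7791470186, nat_lit 14579749984, nat_lit 6398846369], nat_lit 1271250, nat_lit 1271250, nat_lit 490000, nat_lit 1100001, nat_lit 1100001, nat_lit 1442500, [nat_lit 1100000, nat_lit 1442500, nat_lit 1271250], [nat_lit 9, nat_lit 40, nat_lit 40, nat_lit 80, nat_lit 2, nat_lit 317, nat_lit 100, nat_lit 10]⟩, ⟨p047_k8, nat_lit 0, nat_lit 0, nat_lit 179, nat_lit 0, nat_lit 258553, [nat_lit 4688000000, nat_lit 6250000000, nat_lit 7968000000], [], [nat_lit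 24477101736, nat_lit 20107386750, nat_lit 27038068932, nat_lit 22854331158, nat_lit 23574502238, nat_lit 24641272751, nat_lit 22619092420, nat_lit 23665376150], nat_lit 1271250, nat_lit 1271250, nat_lit 490000, nat_lit 1100001, nat_lit 1271250, nat_lit 1271250, [nat_lit 1100000, nat_lit 1442500, nat_lit 1271250], [nat_lit 9, nat_lit 40, nat_lit 40, nat_lit 80, nat_lit 2, nat_lit 345, nat_lit 125, nat_lit 11]⟩,
 zbF0, [⟨nat_lit 19, nat_lit 100, nat_lit 88, nat_lit 74, nat_lit 374620077⟩]⟩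
noncomputable def p047_l22 : Lf2 := ⟨nat_lit 1, nat_lit 6, [nat_lit 47, nat_lit 5, nat_lit 5, nat_lit 20], false, nat_lit 160, nat_lit 200, nat_lit 0, nat_lit 336, zbN0,
 nat_lit 0, nat_lit 0, nat_lit 0, nat_lit 0, nat_lit 0, nat_lit 0, nat_lit 0, nat_lit 0, nat_lit 0, nat_lit 0, nat_lit 0, nat_lit 0, nat_lit 0, nat_lit 0, nat_lit 0, nat_lit 0, nat_lit 0, nat_lit 0, [],
 C1.Rw.none, C1.Rw.none,
 zbF0, []⟩
noncomputable def p047_l23 : Lf2 := ⟨nat_lit 0, nat_lit 6, [nat_lit 47, nat_lit 5, nat_lit 5, nat_lit 20], false, nat_lit 160, nat_lit 200, nat_lit 0, nat_lit 336, ⟨nat_lit 0, nat_lit 0, nat_lit 1000, nat_lit 6, nat_lit 134, nat_lit 1000, nat_lit 124, nat_lit 1000, nat_lit 144150, nat_lit 308, nat_lit 58974, nat_lit 274, nat_lit 53486384, nat_lit 0, nat_lit 0, nat_lit 3424713, false, false⟩,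
 nat_lit 0, nat_lit 9155, nat_lit 0, nat_lit 0, nat_lit 5086, nat_lit 0, nat_lit 583, nat_lit 0, nat_lit 0, nat_lit 0, nat_lit 0, nat_lit 0, nat_lit 0, nat_lit 26188891923546, nat_lit 69, nat_lit 400000, nat_lit 0, nat_lit 0, [(nat_lit 6, [(nat_lit 5, nat_lit 1000)])],
 ⟨p047_k11, nat_lit 0, nat_lit 0, nat_lit 179, nat_lit 0, nat_lit 64999, [nat_lit 2521600001, nat_lit 1460000001, nat_lit 7200000], [], [nat_lit 11870550156, nat_lit 12509919236, nat_lit 14646190956, nat_lit 13397013410, nat_lit 13362000604, nat_lit 13950924595, nat_lit 18039395213, nat_lit 16807426148], nat_lit 1271250, nat_lit 1271250, nat_lit 111251, nat_lit 1100001, nat_lit 1100001, nat_lit 1442500, [nat_lit 1100000, nat_lit 1442500, nat_lit 1271250], [nat_lit 11, nat_lit 40, nat_lit 40, nat_lit 80, nat_lit 1, nat_lit 401, nat_lit 175, nat_lit 11]⟩, ⟨p047_k12, nat_lit 0, nat_lit 0, nat_lit 303, nat_lit 0, nat_lit 68975, [nat_lit 0, nat_lit 0, nat_lit 0],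 [], [nat_lit 0, nat_lit 0, nat_lit 0, nat_lit 0, nat_lit 0, nat_lit 0, nat_lit 0, nat_lit 0], nat_lit 1271250, nat_lit 1271250, nat_lit 111251, nat_lit 1100001, nat_lit 0, nat_lit 2373000, [nat_lit 1100000, nat_lit 1442500, nat_lit 1271250], [nat_lit 11, nat_lit 40, nat_lit 40, nat_lit 80, nat_lit 1, nat_lit 428, nat_lit 200, nat_lit 13]⟩,
 ⟨nat_lit 5916, nat_lit 6124, ⟨.ofNat (nat_lit 180982), .ofNat (nat_lit 462314), .ofNat (nat_lit 202330), .ofNat (nat_lit 483662), .ofNat (nat_lit 189276), .ofNat (nat_lit 464143), .ofNat (nat_lit 210615), .ofNat (nat_lit 485483)⟩, ⟨.ofNat (nat_lit 248833), .ofNat (nat_lit 329214), .ofNat (nat_lit 291529), .ofNat (nat_lit 371910), .ofNat (nat_lit 250751), .ofNat (nat_lit 329284), .ofNat (nat_lit 293429), .ofNat (nat_lit 371963)⟩⟩, []⟩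
noncomputable def p047_l24 : Lf2 := ⟨nat_lit 0, nat_lit 6, [nat_lit 47, nat_lit 5, nat_lit 5, nat_lit 20], false, nat_lit 200, nat_lit 240, nat_lit 0, nat_lit 336, ⟨nat_lit 0, nat_lit 0, nat_lit 1000, nat_lit 6, nat_lit 128, nat_lit 1000, nat_lit 156, nat_lit 1000, nat_lit 190817, nat_lit 322, nat_lit 86400, nat_lit 287, nat_lit 51302699, nat_lit 0, nat_lit 0, nat_lit 3760790, false, false⟩,
 nat_lit 8225, nat_lit 0, nat_lit 0, nat_lit 0, nat_lit 4354, nat_lit 0, nat_lit 0, nat_lit 0, nat_lit 0, nat_lit 0, nat_lit 0, nat_lit 0, nat_lit 0, nat_lit 21942870107829, nat_lit 147, nat_lit 1000000, nat_lit 0, nat_lit 0, [(nat_lit 6, [(nat_lit 6, nat_lit 1000)])],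
 ⟨p047_k12, nat_lit 0, nat_lit 0, nat_lit 179, nat_lit 0, nat_lit 147886, [nat_lit 3329066667, nat_lit 3042400001, nat_lit 177599999], [], [nat_lit 13286290147, nat_lit 13836693700, nat_lit 16216483932, nat_lit 15161825397, nat_lit 14770085056, nat_lit 15277135001, nat_lit 14598607748, nat_lit 15043018578], nat_lit 1271250, nat_lit 1271250, nat_lit 88400, nat_lit 1100001, nat_lit 1271250, nat_lit 1271250, [nat_lit 1100000, nat_lit 1442500, nat_lit 1271250], [nat_lit 11, nat_lit 40, nat_lit 40, nat_lit 80, nat_lit 1, nat_lit 401, nat_lit 175, nat_lit 11]⟩, ⟨p047_k12, nat_lit 0, nat_lit 0, nat_lit 332, nat_lit 0, nat_lit 147886, [nat_lit 0, nat_lit 0, nat_lit 0], [], [nat_lit 0, nat_lit 0, nat_lit 0, nat_lit 0, nat_lit 0, nat_lit 0, nat_lit 0, nat_lit 0], nat_lit 1271250, nat_lit 1271250, nat_lit 88400, nat_lit 1100001, nat_lit 0, nat_lit 2373000, [nat_lit 1100000, nat_lit 1442500, nat_lit 1271250], [nat_lit 11, nat_lit 40,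 nat_lit 40, nat_lit 80, nat_lit 1, nat_lit 428, nat_lit 200, nat_lit 13]⟩,
 ⟨nat_lit 6123, nat_lit 6325, ⟨.ofNat (nat_lit 164319), .ofNat (nat_lit 460470), .ofNat (nat_lit 175003), .ofNat (nat_lit 471154), .ofNat (nat_lit 172944), .ofNat (nat_lit 462314), .ofNat (nat_lit 183618), .ofNat (nat_lit 472988)⟩, ⟨.ofNat (nat_lit 329055), .ofNat (nat_lit 411320), .ofNat (nat_lit 371791), .ofNat (nat_lit 454055), .ofNat (nat_lit 329214), .ofNat (nat_lit 409594), .ofNat (nat_lit 371910), .ofNat (nat_lit 452290)⟩⟩, [⟨nat_lit 0, nat_lit 100, nat_lit 100, nat_lit 50, nat_lit 98170477⟩]⟩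
noncomputable def p047_l25 : Lf2 := ⟨nat_lit 0, nat_lit 6, [nat_lit 47, nat_lit 5, nat_lit 5, nat_lit 20], false, nat_lit 200, nat_lit 240, nat_lit 0, nat_lit 336, ⟨nat_lit 0, nat_lit 0, nat_lit 1000, nat_lit 6, nat_lit 132, nat_lit 1000, nat_lit 156, nat_lit 1000, nat_lit 212817, nat_lit 328, nat_lit 81968, nat_lit 285, nat_lit 51052650, nat_lit 0, nat_lit 0, nat_lit 3803813, false, false⟩,
 nat_lit 0, nat_lit 7516, nat_lit 0, nat_lit 0, nat_lit 4175, nat_lit 0, nat_lit 483, nat_lit 0, nat_lit 0, nat_lit 0, nat_lit 0, nat_lit 0, nat_lit 0, nat_lit 0, nat_lit 147, nat_lit 1000000, nat_lit 0, nat_lit 0, [(nat_lit 6, [(nat_lit 6, nat_lit 1000)])],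
 ⟨p047_k11, nat_lit 0, nat_lit 0, nat_lit 196, nat_lit 0, nat_lit 195990, [nat_lit 3329066667, nat_lit 3042400001, nat_lit 177599999], [], [nat_lit 13675000031, nat_lit 14231974768, nat_lit 15321807156, nat_lit 14391232168, nat_lit 15220479218, nat_lit 15732551518, nat_lit 15252680634, nat_lit 15722745934], nat_lit 1271250, nat_lit 1271250, nat_lit 111251, nat_lit 1100001, nat_lit 1271250, nat_lit 1271250, [nat_lit 1100000, nat_lit 1442500, nat_lit 1271250], [nat_lit 11, nat_lit 40, nat_lit 40, nat_lit 80, nat_lit 1, nat_lit 401, nat_lit 175, nat_lit 11]⟩, ⟨p047_k12, nat_lit 0, nat_lit 0, nat_lit 349, nat_lit 0, nat_lit 207978, [nat_lit 0, nat_lit 0, nat_lit 0], [], [nat_lit 0, nat_lit 0, nat_lit 0, nat_lit 0, nat_lit 0, nat_lit 0, nat_lit 0, nat_lit 0], nat_lit 1271250, nat_lit 1271250, nat_lit 111251, nat_lit 1100001, nat_lit 0, nat_lit 2373000, [nat_lit 1100000, nat_lit 1442500, nat_lit 1271250], [nat_lit 11, nat_lit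 40, nat_lit 40, nat_lit 80, nat_lit 1, nat_lit 428, nat_lit 200, nat_lit 13]⟩,
 ⟨nat_lit 5916, nat_lit 6124, ⟨.ofNat (nat_lit 180982), .ofNat (nat_lit 462314), .ofNat (nat_lit 191656), .ofNat (nat_lit 472988), .ofNat (nat_lit 189276), .ofNat (nat_lit 464143), .ofNat (nat_lit 199946), .ofNat (nat_lit 474813)⟩, ⟨.ofNat (nat_lit 329214), .ofNat (nat_lit 409594), .ofNat (nat_lit 371910), .ofNat (nat_lit 452290), .ofNat (nat_lit 329284), .ofNat (nat_lit 407818), .ofNat (nat_lit 371963), .ofNat (nat_lit 450496)⟩⟩, [⟨nat_lit 0, nat_lit 100, nat_lit 99, nat_lit 55, nat_lit 91397249⟩]⟩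
noncomputable def p047_l26 : Lf2 := ⟨nat_lit 0, nat_lit 6, [nat_lit 47, nat_lit 5, nat_lit 5, nat_lit 20], false, nat_lit 200, nat_lit 240, nat_lit 0, nat_lit 328, ⟨nat_lit 0, nat_lit 0, nat_lit 1000, nat_lit 6, nat_lit 137, nat_lit 1000, nat_lit 156, nat_lit 1000, nat_lit 212817, nat_lit 328, nat_lit 68363, nat_lit 279, nat_lit 50685168, nat_lit 0, nat_lit 0, nat_lit 3864038, false, false⟩,
 nat_lit 7565, nat_lit 0, nat_lit 0, nat_lit 0, nat_lit 4202, nat_lit 0, nat_lit 556, nat_lit 0, nat_lit 0, nat_lit 0, nat_lit 0, nat_lit 0, nat_lit 0, nat_lit 0, nat_lit 147, nat_lit 1000000, nat_lit 0, nat_lit 0, [(nat_lit 6, [(nat_lit 6, nat_lit 1000)])],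
 ⟨p047_k11, nat_lit 0, nat_lit 0, nat_lit 201, nat_lit 0, nat_lit 222671, [nat_lit 3329066667, nat_lit 3042400001, nat_lit 177599999], [], [nat_lit 13476411478, nat_lit 14033816318, nat_lit 15237510745, nat_lit 14300816788, nat_lit 15022738621, nat_lit 15535165325, nat_lit 15192497526, nat_lit 15663751798], nat_lit 1271250, nat_lit 1271250, nat_lit 134400, nat_lit 1100001, nat_lit 1271250, nat_lit 1271250, [nat_lit 1100000, nat_lit 1442500, nat_lit 1271250], [nat_lit 11, nat_lit 40, nat_lit 40, nat_lit 80, nat_lit 1, nat_lit 401, nat_lit 175, nat_lit 11]⟩, ⟨p047_k11, nat_lit 0, nat_lit 0, nat_lit 352, nat_lit 0, nat_lit 222671, [nat_lit 0, nat_lit 0, nat_lit 0], [], [nat_lit 0, nat_lit 0, nat_lit 0, nat_lit 0, nat_lit 0, nat_lit 0, nat_lit 0, nat_lit 0], nat_lit 1271250, nat_lit 1271250, nat_lit 134400, nat_lit 1100001, nat_lit 0, nat_lit 2316500, [nat_lit 1100000, nat_lit 1442500, nat_lit 1271250], [nat_lit 11, nat_lit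 40, nat_lit 40, nat_lit 80, nat_lit 1, nat_lit 428, nat_lit 200, nat_lit 13]⟩,
 ⟨nat_lit 5916, nat_lit 6124, ⟨.ofNat (nat_lit 199694), .ofNat (nat_lit 472988), .ofNat (nat_lit 205031), .ofNat (nat_lit 478325), .ofNat (nat_lit 207799), .ofNat (nat_lit 474813), .ofNat (nat_lit 213134), .ofNat (nat_lit 480148)⟩, ⟨.ofNat (nat_lit 329214), .ofNat (nat_lit 409594), .ofNat (nat_lit 371910), .ofNat (nat_lit 452290), .ofNat (nat_lit 329284), .ofNat (nat_lit 407818), .ofNat (nat_lit 371963), .ofNat (nat_lit 450496)⟩⟩, [⟨nat_lit 0, nat_lit 100, nat_lit 99, nat_lit 57, nat_lit 85260717⟩]⟩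
noncomputable def p047_l27 : Lf2 := ⟨nat_lit 0, nat_lit 6, [nat_lit 47, nat_lit 5, nat_lit 5, nat_lit 20], true, nat_lit 200, nat_lit 240, nat_lit 0, nat_lit 324, ⟨nat_lit 0, nat_lit 0, nat_lit 1000, nat_lit 6, nat_lit 109, nat_lit 1000, nat_lit 156, nat_lit 1000, nat_lit 228150, nat_lit 332, nat_lit 109350, nat_lit 296, nat_lit 52780740, nat_lit 0, nat_lit 0, nat_lit 3492067, false, false⟩,
 nat_lit 0, nat_lit 7422, nat_lit 0, nat_lit 0, nat_lit 4221, nat_lit 0, nat_lit 529, nat_lit 0, nat_lit 0, nat_lit 0, nat_lit 0, nat_lit 0, nat_lit 0, nat_lit 19486231405489, nat_lit 147, nat_lit 1000000, nat_lit 0, nat_lit 0, [(nat_lit 6, [(nat_lit 6, nat_lit 1000)])],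
 ⟨p047_k13, nat_lit 0, nat_lit 0, nat_lit 196, nat_lit 0, nat_lit 221564, [nat_lit 3329066667, nat_lit 3042400001, nat_lit 177599999], [], [nat_lit 13500198359, nat_lit 13667406969, nat_lit 12887498991, nat_lit 13047394960, nat_lit 15024067611, nat_lit 15177779438, nat_lit 14380544011, nat_lit 14538825521], nat_lit 1271250, nat_lit 1271250, nat_lit 157850, nat_lit 490000, nat_lit 1271250, nat_lit 1271250, [nat_lit 1100000, nat_lit 1442500, nat_lit 1271250], [nat_lit 11, nat_lit 40, nat_lit 40, nat_lit 80, nat_lit 1, nat_lit 373, nat_lit 150, nat_lit 10]⟩, C1.Rw.none,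
 ⟨nat_lit 5958, nat_lit 6021, ⟨.ofNat (nat_lit 217043), .ofNat (nat_lit 320331), .ofNat (nat_lit 220244), .ofNat (nat_lit 323533), .ofNat (nat_lit 219413), .ofNat (nat_lit 321983), .ofNat (nat_lit 222614), .ofNat (nat_lit 325184)⟩, ⟨.ofNat (nat_lit 329260), .ofNat (nat_lit 408713), .ofNat (nat_lit 371945), .ofNat (nat_lit 451398), .ofNat (nat_lit 329277), .ofNat (nat_lit 408178), .ofNat (nat_lit 371958), .ofNat (nat_lit 450858)⟩⟩, [⟨nat_lit 0, nat_lit 100, nat_lit 100, nat_lit 58, nat_lit 177237859⟩]⟩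
noncomputable def p047_l28 : Lf2 := ⟨nat_lit 0, nat_lit 6, [nat_lit 47, nat_lit 5, nat_lit 5, nat_lit 20], true, nat_lit 200, nat_lit 240, nat_lit 0, nat_lit 324, ⟨nat_lit 0, nat_lit 0, nat_lit 1000, nat_lit 6, nat_lit 110, nat_lit 1000, nat_lit 156, nat_lit 1000, nat_lit 228150, nat_lit 332, nat_lit 112067, nat_lit 297, nat_lit 52710018, nat_lit 0, nat_lit 0, nat_lit 3506259, false, false⟩,
 nat_lit 0, nat_lit 7282, nat_lit 0, nat_lit 0, nat_lit 4199, nat_lit 0, nat_lit 542, nat_lit 0, nat_lit 0, nat_lit 0, nat_lit 0, nat_lit 0, nat_lit 0, nat_lit 18979672783683, nat_lit 80, nat_lit 1000000, nat_lit 0, nat_lit 0, [(nat_lit 6, [(nat_lit 6, nat_lit 1000)])],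
 ⟨p047_k14, nat_lit 0, nat_lit 0, nat_lit 167, nat_lit 0, nat_lit 238947, [nat_lit 2257066667, nat_lit 1408000000, nat_lit 211200000], [], [nat_lit 13575679069, nat_lit 13695506966, nat_lit 13007617410, nat_lit 13122135949, nat_lit 15211582455, nat_lit 15321631651, nat_lit 14582969687, nat_lit 14688256020], nat_lit 1271250, nat_lit 1271250, nat_lit 157850, nat_lit 490000, nat_lit 1271250, nat_lit 1271250, [nat_lit 1100000, nat_lit 1442500, nat_lit 1271250], [nat_lit 9, nat_lit 40, nat_lit 40, nat_lit 80, nat_lit 2, nat_lit 317, nat_lit 100, nat_lit 10]⟩, C1.Rw.none,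
 ⟨nat_lit 5916, nat_lit 5959, ⟨.ofNat (nat_lit 219413), .ofNat (nat_lit 321983), .ofNat (nat_lit 224748), .ofNat (nat_lit 327318), .ofNat (nat_lit 220987), .ofNat (nat_lit 323081), .ofNat (nat_lit 226322), .ofNat (nat_lit 328416)⟩, ⟨.ofNat (nat_lit 329277), .ofNat (nat_lit 408178), .ofNat (nat_lit 371958), .ofNat (nat_lit 450858), .ofNat (nat_lit 329284), .ofNat (nat_lit 407818), .ofNat (nat_lit 371963), .ofNat (nat_lit 450496)⟩⟩, [⟨nat_lit 0, nat_lit 100, nat_lit 100, nat_lit 60, nat_lit 176350918⟩]⟩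
noncomputable def p047_l29 : Lf2 := ⟨nat_lit 0, nat_lit 6, [nat_lit 47, nat_lit 5, nat_lit 5, nat_lit 20], false, nat_lit 200, nat_lit 240, nat_lit 0, nat_lit 324, ⟨nat_lit 0, nat_lit 0, nat_lit 1000, nat_lit 6, nat_lit 161, nat_lit 1000, nat_lit 156, nat_lit 1000, nat_lit 228150, nat_lit 332, nat_lit 58974, nat_lit 274, nat_lit 48740364, nat_lit 0, nat_lit 0, nat_lit 4151593, false, false⟩,
 nat_lit 7855, nat_lit 0, nat_lit 0, nat_lit 0, nat_lit 4467, nat_lit 0, nat_lit 678, nat_lit 0, nat_lit 0, nat_lit 0, nat_lit 0, nat_lit 0, nat_lit 0, nat_lit 0, nat_lit 147, nat_lit 1000000, nat_lit 0, nat_lit 0, [(nat_lit 6, [(nat_lit 6, nat_lit 1000)])],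
 ⟨p047_k13, nat_lit 0, nat_lit 0, nat_lit 163, nat_lit 0, nat_lit 243046, [nat_lit 3329066667, nat_lit 3042400001, nat_lit 177599999], [], [nat_lit 12284382244, nat_lit 12557561253, nat_lit 13974528077, nat_lit 13518792688, nat_lit 13774070778, nat_lit 14025074694, nat_lit 14707010697, nat_lit 15045358880], nat_lit 1271250, nat_lit 1271250, nat_lit 490000, nat_lit 1100001, nat_lit 1271250, nat_lit 1271250, [nat_lit 1100000, nat_lit 1442500, nat_lit 1271250], [nat_lit 11, nat_lit 40, nat_lit 40, nat_lit 80, nat_lit 1, nat_lit 401, nat_lit 175, nat_lit 11]⟩, ⟨p047_k13, nat_lit 0, nat_lit 0, nat_lit 317, nat_lit 0, nat_lit 243046, [nat_lit 0, nat_lit 0, nat_lit 0], [], [nat_lit 0, nat_lit 0, nat_lit 0, nat_lit 0, nat_lit 0, nat_lit 0, nat_lit 0, nat_lit 0], nat_lit 1271250, nat_lit 1271250, nat_lit 490000, nat_lit 1100001, nat_lit 0, nat_lit 2288250, [nat_lit 1100000, nat_lit 1442500, nat_lit 1271250], [nat_lit 11, nat_lit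 40, nat_lit 40, nat_lit 80, nat_lit 1, nat_lit 428, nat_lit 200, nat_lit 13]⟩,
 ⟨nat_lit 5916, nat_lit 6021, ⟨.ofNat (nat_lit 320331), .ofNat (nat_lit 479237), .ofNat (nat_lit 325667), .ofNat (nat_lit 484573), .ofNat (nat_lit 323081), .ofNat (nat_lit 480148), .ofNat (nat_lit 328416), .ofNat (nat_lit 485483)⟩, ⟨.ofNat (nat_lit 329260), .ofNat (nat_lit 408713), .ofNat (nat_lit 371945), .ofNat (nat_lit 451398), .ofNat (nat_lit 329284), .ofNat (nat_lit 407818), .ofNat (nat_lit 371963), .ofNat (nat_lit 450496)⟩⟩, []⟩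
noncomputable def p047_l30 : Lf2 := ⟨nat_lit 0, nat_lit 6, [nat_lit 47, nat_lit 5, nat_lit 5, nat_lit 20], false, nat_lit 160, nat_lit 240, nat_lit 0, nat_lit 160, ⟨nat_lit 1000, nat_lit 0, nat_lit 0, nat_lit 0, nat_lit 0, nat_lit 0, nat_lit 0, nat_lit 0, nat_lit 0, nat_lit 0, nat_lit 0, nat_lit 0, nat_lit 0, nat_lit 0, nat_lit 0, nat_lit 0, false, false⟩,
 nat_lit 9167, nat_lit 0, nat_lit 0, nat_lit 13270, nat_lit 4229, nat_lit 4852, nat_lit 2018, nat_lit 0, nat_lit 0, nat_lit 1552, nat_lit 0, nat_lit 0, nat_lit 0, nat_lit 0, nat_lit 0, nat_lit 0, nat_lit 0, nat_lit 0, [],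
 ⟨p047_k12, nat_lit 0, nat_lit 0, nat_lit 146, nat_lit 0, nat_lit 265448, [nat_lit 4688000000, nat_lit 6250000000, nat_lit 9842000000], [], [nat_lit 31132331360, nat_lit 28896298358, nat_lit 24881802476, nat_lit 25617486490, nat_lit 24881802476, nat_lit 25617486490, nat_lit 27798752168, nat_lit 27771698326], nat_lit 1271250, nat_lit 1271250, nat_lit 1100001, nat_lit 1785000, nat_lit 1100001, nat_lit 1785000, [nat_lit 1100000, nat_lit 1442500, nat_lit 1271250], [nat_lit 11, nat_lit 40, nat_lit 40, nat_lit 80, nat_lit 1, nat_lit 428, nat_lit 200, nat_lit 12]⟩, ⟨p047_k12, nat_lit 0, nat_lit 0, nat_lit 297, nat_lit 0, nat_lit 265448, [nat_lit 4688000000, nat_lit 6250000000, nat_lit 9842000000], [], [nat_lit 36769683680, nat_lit 34204246904, nat_lit 32123766000, nat_lit 32836081752, nat_lit 28815213568, nat_lit 29518460944, nat_lit 32488600272, nat_lit 31122292480], nat_lit 1271250, nat_lit 1271250, nat_lit 1100001, nat_lit 1785000,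 nat_lit 0, nat_lit 1100001, [nat_lit 1100000, nat_lit 1442500, nat_lit 1271250], [nat_lit 11, nat_lit 40, nat_lit 40, nat_lit 80, nat_lit 1, nat_lit 401, nat_lit 175, nat_lit 12]⟩,
 zbF0, []⟩
noncomputable def p047_l31 : Lf2 := ⟨nat_lit 0, nat_lit 6, [nat_lit 47, nat_lit 5, nat_lit 5, nat_lit 20], false, nat_lit 160, nat_lit 240, nat_lit 160, nat_lit 336, ⟨nat_lit 1000, nat_lit 0, nat_lit 0, nat_lit 0, nat_lit 0, nat_lit 0, nat_lit 0, nat_lit 0, nat_lit 0, nat_lit 0, nat_lit 0, nat_lit 0, nat_lit 0, nat_lit 0, nat_lit 0, nat_lit 0, false, false⟩,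
 nat_lit 11622, nat_lit 0, nat_lit 0, nat_lit 4627, nat_lit 5126, nat_lit 6152, nat_lit 1180, nat_lit 0, nat_lit 0, nat_lit 1847, nat_lit 0, nat_lit 0, nat_lit 0, nat_lit 16631771991358, nat_lit 0, nat_lit 0, nat_lit 0, nat_lit 0, [],
 ⟨p047_k12, nat_lit 0, nat_lit 0, nat_lit 146, nat_lit 0, nat_lit 265448, [nat_lit 4688000000, nat_lit 6250000000, nat_lit 9842000000], [], [nat_lit 32499215840, nat_lit 29788904852, nat_lit 25729311144, nat_lit 26510841580, nat_lit 25729311144, nat_lit 26510841580, nat_lit 27563794544, nat_lit 28225915712], nat_lit 1271250, nat_lit 1271250, nat_lit 1100001, nat_lit 1785000, nat_lit 1100001, nat_lit 1785000, [nat_lit 1100000, nat_lit 1442500, nat_lit 1271250], [nat_lit 11, nat_lit 40, nat_lit 40, nat_lit 80, nat_lit 1, nat_lit 428, nat_lit 200, nat_lit 12]⟩, ⟨p047_k12, nat_lit 0, nat_lit 0, nat_lit 179, nat_lit 0, nat_lit 265448, [nat_lit 4688000000, nat_lit 6250000000, nat_lit 9842000000],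 [], [nat_lit 34062675680, nat_lit 30809879504, nat_lit 31096279296, nat_lit 28116508880, nat_lit 26025879642, nat_lit 26641715152, nat_lit 27468940218, nat_lit 28104910039], nat_lit 1271250, nat_lit 1271250, nat_lit 1100001, nat_lit 1785000, nat_lit 1271250, nat_lit 1271250, [nat_lit 1100000, nat_lit 1442500, nat_lit 1271250], [nat_lit 11, nat_lit 40, nat_lit 40, nat_lit 80, nat_lit 1, nat_lit 456, nat_lit 225, nat_lit 13]⟩,
 zbF0, []⟩
noncomputable def p047_l32 : Lf2 := ⟨nat_lit 1, nat_lit 10, [nat_lit 0, nat_lit 5, nat_lit 5, nat_lit 20], false, nat_lit 160, nat_lit 240, nat_lit 0, nat_lit 336, zbN0,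
 nat_lit 0, nat_lit 0, nat_lit 0, nat_lit 0, nat_lit 0, nat_lit 0, nat_lit 0, nat_lit 0, nat_lit 0, nat_lit 0, nat_lit 0, nat_lit 0, nat_lit 0, nat_lit 0, nat_lit 0, nat_lit 0, nat_lit 0, nat_lit 0, [],
 C1.Rw.none, C1.Rw.none,
 zbF0, []⟩
noncomputable def b_V_600_600_10_42 : St := ⟨true, nat_lit 1, nat_lit 1, nat_lit 1, nat_lit 80, nat_lit 240, nat_lit 260, nat_lit 240, nat_lit 280, nat_lit 16, nat_lit 240, nat_lit 40, nat_lit 80, nat_lit 160, nat_lit 240, nat_lit 0, nat_lit 336, nat_lit 0, nat_lit 40, nat_lit 0, nat_lit 0, nat_lit 0, nat_lit 0⟩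
theorem d_V_600_600_10_42 (h : EB TB.env) : Dead b_V_600_600_10_42 := chkB_sound0 h (T :=
(.ord (.spl (nat_lit 6) (nat_lit 24)
(.spl (nat_lit 2) (nat_lit 160)
(.spl (nat_lit 4) (nat_lit 200)
(.spl (nat_lit 6) (nat_lit 16)
(.spl (nat_lit 2) (nat_lit 80)
(.spl (nat_lit 0) (nat_lit 250)
(.ord (.leaf p047_l16))
(.trZ (nat_lit 0) (nat_lit 100) (nat_lit 99) (nat_lit 45) (nat_lit 20) (.spl (nat_lit 0) (nat_lit 255)
(.ord (.leaf p047_l17))
(.leaf p047_l18))))
(.spl (nat_lit 5) (nat_lit 160)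
(.spl (nat_lit 2) (nat_lit 120)
(.leaf p047_l19)
(.leaf p047_l20))
(.leaf p047_l21)))
(.spl (nat_lit 0) (nat_lit 250)
(.ord (.leaf p047_l22))
(.trZ (nat_lit 0) (nat_lit 100) (nat_lit 99) (nat_lit 45) (nat_lit 20) (.leaf p047_l23))))
(.spl (nat_lit 1) (nat_lit 250)
(.spl (nat_lit 0) (nat_lit 250)
(.leaf p047_l24)
(.trZ (nat_lit 0) (nat_lit 100) (nat_lit 99) (nat_lit 45) (nat_lit 20) (.leaf p047_l25)))
(.ord (.trZ (nat_lit 0) (nat_lit 100) (nat_lit 100) (nat_lit 50) (nat_lit 24) (.trX (nat_lit 19) (nat_lit 100) (nat_lit 81) (nat_lit 83) (nat_lit 328) (.spl (nat_lit 1) (nat_lit 255)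
(.leaf p047_l26)
(.ord (.trZ (nat_lit 0) (nat_lit 100) (nat_lit 100) (nat_lit 55) (nat_lit 28) (.trX (nat_lit 19) (nat_lit 100) (nat_lit 83) (nat_lit 83) (nat_lit 324) (.spl (nat_lit 2) (nat_lit 80)
(.spl (nat_lit 0) (nat_lit 258)
(.ord (.leaf p047_l27))
(.leaf p047_l28))
(.leaf p047_l29)))))))))))
(.spl (nat_lit 5) (nat_lit 160)
(.leaf p047_l30)
(.leaf p047_l31)))
(.leaf p047_l32)))) (by decide +kernel)
noncomputable def p047_l33 : Lf2 := ⟨nat_lit 0, nat_lit 2, [nat_lit 10, nat_lit 5, nat_lit 5, nat_lit 20], true, nat_lit 160, nat_lit 200, nat_lit 0, nat_lit 336, ⟨nat_lit 0, nat_lit 0, nat_lit 1000, nat_lit 6, nat_lit 106, nat_lit 1000, nat_lit 125, nat_lit 1000, nat_lit 147267, nat_lit 309, nat_lit 106667, nat_lit 295, nat_lit 55628090, nat_lit 0, nat_lit 0, nat_lit 3040358, false, false⟩,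
 nat_lit 0, nat_lit 7566, nat_lit 0, nat_lit 0, nat_lit 4404, nat_lit 0, nat_lit 0, nat_lit 0, nat_lit 0, nat_lit 0, nat_lit 0, nat_lit 0, nat_lit 0, nat_lit 0, nat_lit 37, nat_lit 1000000, nat_lit 0, nat_lit 0, [(nat_lit 9, [(nat_lit 6, nat_lit 1000)])],
 ⟨p047_k15, nat_lit 0, nat_lit 0, nat_lit 189, nat_lit 0, nat_lit 276219, [nat_lit 1689600001, nat_lit 0], [], [nat_lit 12061972876, nat_lit 12726707511, nat_lit 11344167026, nat_lit 11977203514, nat_lit 13713561269, nat_lit 14327467211, nat_lit 12932166542, nat_lit 13517367456], nat_lit 1271250, nat_lit 1271250, nat_lit 134400, nat_lit 490000, nat_lit 1100001, nat_lit 1442500, [nat_lit 1100000, nat_lit 1442500], [nat_lit 31, nat_lit 40, nat_lit 40, nat_lit 80, nat_lit 3, nat_lit 289, nat_lit 75, nat_lit 11]⟩, C1.Rw.none,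
 ⟨nat_lit 5700, nat_lit 5917, ⟨.ofNat (nat_lit 197129), .ofNat (nat_lit 307076), .ofNat (nat_lit 218469), .ofNat (nat_lit 328416), .ofNat (nat_lit 205119), .ofNat (nat_lit 312525), .ofNat (nat_lit 226461), .ofNat (nat_lit 333867)⟩, ⟨.ofNat (nat_lit 250751), .ofNat (nat_lit 329284), .ofNat (nat_lit 293429), .ofNat (nat_lit 371963), .ofNat (nat_lit 252544), .ofNat (nat_lit 329263), .ofNat (nat_lit 295228), .ofNat (nat_lit 371947)⟩⟩, [⟨nat_lit 0, nat_lit 100, nat_lit 98, nat_lit 64, nat_lit 184296899⟩]⟩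
noncomputable def p047_l34 : Lf2 := ⟨nat_lit 0, nat_lit 2, [nat_lit 10, nat_lit 5, nat_lit 5, nat_lit 20], true, nat_lit 160, nat_lit 200, nat_lit 0, nat_lit 320, ⟨nat_lit 0, nat_lit 0, nat_lit 1000, nat_lit 6, nat_lit 118, nat_lit 1000, nat_lit 125, nat_lit 1000, nat_lit 147267, nat_lit 309, nat_lit 129067, nat_lit 303, nat_lit 54777161, nat_lit 0, nat_lit 0, nat_lit 3201772, false, false⟩,
 nat_lit 0, nat_lit 7811, nat_lit 0, nat_lit 0, nat_lit 4546, nat_lit 0, nat_lit 0, nat_lit 0, nat_lit 0, nat_lit 0, nat_lit 0, nat_lit 0, nat_lit 0, nat_lit 0, nat_lit 37, nat_lit 1000000, nat_lit 0, nat_lit 0, [(nat_lit 9, [(nat_lit 6, nat_lit 1000)])],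
 ⟨p047_k15, nat_lit 0, nat_lit 0, nat_lit 187, nat_lit 0, nat_lit 325624, [nat_lit 1689600001, nat_lit 0], [], [nat_lit 11393651356, nat_lit 12064494067, nat_lit 11030440178, nat_lit 11673370090, nat_lit 13055498127, nat_lit 13674765200, nat_lit 12633595212, nat_lit 13227529623], nat_lit 1271250, nat_lit 1271250, nat_lit 205650, nat_lit 490000, nat_lit 1100001, nat_lit 1442500, [nat_lit 1100000, nat_lit 1442500], [nat_lit 31, nat_lit 40, nat_lit 40, nat_lit 80, nat_lit 3, nat_lit 289, nat_lit 75, nat_lit 11]⟩, C1.Rw.none,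
 ⟨nat_lit 5700, nat_lit 5917, ⟨.ofNat (nat_lit 242029), .ofNat (nat_lit 328416), .ofNat (nat_lit 252698), .ofNat (nat_lit 339085), .ofNat (nat_lit 249476), .ofNat (nat_lit 333867), .ofNat (nat_lit 260147), .ofNat (nat_lit 344538)⟩, ⟨.ofNat (nat_lit 250751), .ofNat (nat_lit 329284), .ofNat (nat_lit 293429), .ofNat (nat_lit 371963), .ofNat (nat_lit 252544), .ofNat (nat_lit 329263), .ofNat (nat_lit 295228), .ofNat (nat_lit 371947)⟩⟩, [⟨nat_lit 0, nat_lit 100, nat_lit 100, nat_lit 70, nat_lit 164435505⟩]⟩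
noncomputable def p047_l35 : Lf2 := ⟨nat_lit 0, nat_lit 5, [nat_lit 4, nat_lit 5, nat_lit 5, nat_lit 20], true, nat_lit 160, nat_lit 200, nat_lit 0, nat_lit 336, ⟨nat_lit 0, nat_lit 0, nat_lit 1000, nat_lit 6, nat_lit 109, nat_lit 1000, nat_lit 125, nat_lit 1000, nat_lit 147267, nat_lit 309, nat_lit 109350, nat_lit 296, nat_lit 55466541, nat_lit 0, nat_lit 0, nat_lit 3071946, false, false⟩,
 nat_lit 0, nat_lit 7566, nat_lit 0, nat_lit 0, nat_lit 4404, nat_lit 0, nat_lit 0, nat_lit 0, nat_lit 0, nat_lit 0, nat_lit 0, nat_lit 0, nat_lit 0, nat_lit 0, nat_lit 117, nat_lit 1000000, nat_lit 0, nat_lit 0, [(nat_lit 9, [(nat_lit 6, nat_lit 1000)])],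
 ⟨p047_k16, nat_lit 0, nat_lit 0, nat_lit 186, nat_lit 0, nat_lit 244712, [nat_lit 2969600000, nat_lit 1600000000, nat_lit 226400000], [], [nat_lit 12061972874, nat_lit 12726707509, nat_lit 11344167024, nat_lit 11977203512, nat_lit 13713561267, nat_lit 14327467209, nat_lit 12932166540, nat_lit 13517367454], nat_lit 1271250, nat_lit 1271250, nat_lit 134400, nat_lit 490000, nat_lit 1100001, nat_lit 1442500, [nat_lit 1100000, nat_lit 1442500, nat_lit 1271250], [nat_lit 9, nat_lit 40, nat_lit 40, nat_lit 80, nat_lit 2, nat_lit 289, nat_lit 75, nat_lit 9]⟩, C1.Rw.none,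
 ⟨nat_lit 5700, nat_lit 5917, ⟨.ofNat (nat_lit 197129), .ofNat (nat_lit 307076), .ofNat (nat_lit 229138), .ofNat (nat_lit 339085), .ofNat (nat_lit 205119), .ofNat (nat_lit 312525), .ofNat (nat_lit 237132), .ofNat (nat_lit 344538)⟩, ⟨.ofNat (nat_lit 250751), .ofNat (nat_lit 329284), .ofNat (nat_lit 293429), .ofNat (nat_lit 371963), .ofNat (nat_lit 252544), .ofNat (nat_lit 329263), .ofNat (nat_lit 295228), .ofNat (nat_lit 371947)⟩⟩, [⟨nat_lit 0, nat_lit 100, nat_lit 100, nat_lit 70, nat_lit 182116563⟩]⟩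
noncomputable def p047_l36 : Lf2 := ⟨nat_lit 0, nat_lit 5, [nat_lit 4, nat_lit 5, nat_lit 5, nat_lit 20], true, nat_lit 160, nat_lit 200, nat_lit 0, nat_lit 336, ⟨nat_lit 0, nat_lit 0, nat_lit 1000, nat_lit 6, nat_lit 111, nat_lit 1000, nat_lit 125, nat_lit 1000, nat_lit 147267, nat_lit 309, nat_lit 114817, nat_lit 298, nat_lit 55282161, nat_lit 0, nat_lit 0, nat_lit 3106974, false, false⟩,
 nat_lit 0, nat_lit 7116, nat_lit 0, nat_lit 0, nat_lit 4333, nat_lit 0, nat_lit 0, nat_lit 0, nat_lit 0, nat_lit 0, nat_lit 0, nat_lit 0, nat_lit 0, nat_lit 0, nat_lit 117, nat_lit 1000000, nat_lit 0, nat_lit 0, [(nat_lit 9, [(nat_lit 6, nat_lit 1000)])],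
 ⟨p047_k17, nat_lit 0, nat_lit 0, nat_lit 206, nat_lit 0, nat_lit 325402, [nat_lit 2969600000, nat_lit 1600000000, nat_lit 226400000], [], [nat_lit 12720383286, nat_lit 13378376709, nat_lit 12129120224, nat_lit 12757210000, nat_lit 14311795593, nat_lit 14919734254, nat_lit 13662286371, nat_lit 14243120536], nat_lit 1271250, nat_lit 1271250, nat_lit 157850, nat_lit 490000, nat_lit 1100001, nat_lit 1442500, [nat_lit 1100000, nat_lit 1442500, nat_lit 1271250], [nat_lit 9, nat_lit 40, nat_lit 40, nat_lit 80, nat_lit 2, nat_lit 289, nat_lit 75, nat_lit 9]⟩, C1.Rw.none,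
 ⟨nat_lit 5477, nat_lit 5701, ⟨.ofNat (nat_lit 212791), .ofNat (nat_lit 312525), .ofNat (nat_lit 234133), .ofNat (nat_lit 333867), .ofNat (nat_lit 220501), .ofNat (nat_lit 317913), .ofNat (nat_lit 241858), .ofNat (nat_lit 339271)⟩, ⟨.ofNat (nat_lit 252544), .ofNat (nat_lit 329263), .ofNat (nat_lit 295228), .ofNat (nat_lit 371947), .ofNat (nat_lit 254209), .ofNat (nat_lit 329142), .ofNat (nat_lit 296923), .ofNat (nat_lit 371856)⟩⟩, [⟨nat_lit 0, nat_lit 100, nat_lit 96, nat_lit 69, nat_lit 177169507⟩]⟩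
noncomputable def p047_l37 : Lf2 := ⟨nat_lit 0, nat_lit 5, [nat_lit 4, nat_lit 5, nat_lit 5, nat_lit 20], false, nat_lit 160, nat_lit 200, nat_lit 0, nat_lit 160, ⟨nat_lit 1000, nat_lit 0, nat_lit 0, nat_lit 0, nat_lit 0, nat_lit 0, nat_lit 0, nat_lit 0, nat_lit 0, nat_lit 0, nat_lit 0, nat_lit 0, nat_lit 0, nat_lit 0, nat_lit 0, nat_lit 0, false, false⟩,
 nat_lit 13456, nat_lit 0, nat_lit 0, nat_lit 0, nat_lit 8195, nat_lit 7832, nat_lit 2939, nat_lit 0, nat_lit 0, nat_lit 18, nat_lit 0, nat_lit 0, nat_lit 0, nat_lit 0, nat_lit 0, nat_lit 0, nat_lit 0, nat_lit 0, [],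
 ⟨p047_k17, nat_lit 0, nat_lit 0, nat_lit 258, nat_lit 0, nat_lit 420780, [nat_lit 4688000000, nat_lit 6250000000, nat_lit 7968000000], [], [nat_lit 16252982470, nat_lit 14150727315, nat_lit 12091805270, nat_lit 12759237415, nat_lit 14565287305, nat_lit 15203793005, nat_lit 13467357350, nat_lit 14076551725], nat_lit 1271250, nat_lit 1271250, nat_lit 230001, nat_lit 490000, nat_lit 1100001, nat_lit 1442500, [nat_lit 1100000, nat_lit 1442500, nat_lit 1271250], [nat_lit 9, nat_lit 40, nat_lit 40, nat_lit 80, nat_lit 2, nat_lit 289, nat_lit 75, nat_lit 9]⟩, ⟨p047_k16, nat_lit 0, nat_lit 0, nat_lit 389, nat_lit 0, nat_lit 444417, [nat_lit 4688000000, nat_lit 6250000000, nat_lit 7968000000], [], [nat_lit 33637841552, nat_lit 31444670028, nat_lit 29307063660, nat_lit 30292982412, nat_lit 28951381964, nat_lit 27736642604, nat_lit 30704888828, nat_lit 27014403436], nat_lit 1271250, nat_lit 1271250, nat_lit 230001, nat_lit 490000,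 nat_lit 0, nat_lit 1100001, [nat_lit 1100000, nat_lit 1442500, nat_lit 1271250], [nat_lit 9, nat_lit 40, nat_lit 40, nat_lit 80, nat_lit 2, nat_lit 272, nat_lit 60, nat_lit 9]⟩,
 zbF0, [⟨nat_lit 0, nat_lit 100, nat_lit 99, nat_lit 72, nat_lit 594574859⟩]⟩
noncomputable def p047_l38 : Lf2 := ⟨nat_lit 0, nat_lit 5, [nat_lit 4, nat_lit 5, nat_lit 5, nat_lit 20], false, nat_lit 160, nat_lit 200, nat_lit 160, nat_lit 320, ⟨nat_lit 699, nat_lit 0, nat_lit 301, nat_lit 6, nat_lit 124, nat_lit 301, nat_lit 125, nat_lit 301, nat_lit 147267, nat_lit 309, nat_lit 144150, nat_lit 308, nat_lit 54257705, nat_lit 0, nat_lit 0, nat_lit 3294549, false, false⟩,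
 nat_lit 11983, nat_lit 0, nat_lit 0, nat_lit 0, nat_lit 7297, nat_lit 6975, nat_lit 2048, nat_lit 0, nat_lit 0, nat_lit 314, nat_lit 0, nat_lit 0, nat_lit 0, nat_lit 0, nat_lit 0, nat_lit 301000, nat_lit 0, nat_lit 0, [(nat_lit 9, [(nat_lit 6, nat_lit 301)])],
 ⟨p047_k17, nat_lit 0, nat_lit 0, nat_lit 258, nat_lit 0, nat_lit 420780, [nat_lit 3607289600, nat_lit 4146010000, nat_lit 4765309400], [], [nat_lit 15386859237, nat_lit 13514967124, nat_lit 11490858117, nat_lit 12116433584, nat_lit 13834854318, nat_lit 14980837722, nat_lit 12823805485, nat_lit 13396518610], nat_lit 1271250, nat_lit 1271250, nat_lit 230001, nat_lit 490000, nat_lit 1100001, nat_lit 1442500, [nat_lit 1100000, nat_lit 1442500, nat_lit 1271250], [nat_lit 9, nat_lit 40, nat_lit 40, nat_lit 80, nat_lit 2, nat_lit 289, nat_lit 75, nat_lit 9]⟩, ⟨p047_k16, nat_lit 0, nat_lit 0, nat_lit 289, nat_lit 0, nat_lit 444417, [nat_lit 3276912000, nat_lit 4368750000,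 nat_lit 5569632000], [], [nat_lit 20154294738, nat_lit 16521868188, nat_lit 12943288638, nat_lit 11765154710, nat_lit 18794706648, nat_lit 19696986408, nat_lit 18964543538, nat_lit 17977907124], nat_lit 1271250, nat_lit 1271250, nat_lit 230001, nat_lit 490000, nat_lit 1100001, nat_lit 2470000, [nat_lit 1100000, nat_lit 1442500, nat_lit 1271250], [nat_lit 9, nat_lit 40, nat_lit 40, nat_lit 80, nat_lit 2, nat_lit 317, nat_lit 100, nat_lit 10]⟩,
 ⟨nat_lit 5477, nat_lit 5701, ⟨.ofNat (nat_lit 257148), .ofNat (nat_lit 333867), .ofNat (nat_lit 278490), .ofNat (nat_lit 355209), .ofNat (nat_lit 264337), .ofNat (nat_lit 339271), .ofNat (nat_lit 285695), .ofNat (nat_lit 360628)⟩, ⟨.ofNat (nat_lit 252544), .ofNat (nat_lit 329263), .ofNat (nat_lit 295228), .ofNat (nat_lit 371947), .ofNat (nat_lit 254209), .ofNat (nat_lit 329142), .ofNat (nat_lit 296923), .ofNat (nat_lit 371856)⟩⟩, [⟨nat_lit 0, nat_lit 100, nat_lit 99, nat_lit 72, nat_lit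 706762889⟩, ⟨nat_lit 7, nat_lit 97, nat_lit 100, nat_lit 76, nat_lit 157920414⟩]⟩
noncomputable def p047_l39 : Lf2 := ⟨nat_lit 0, nat_lit 10, [nat_lit 0, nat_lit 5, nat_lit 5, nat_lit 20], true, nat_lit 160, nat_lit 200, nat_lit 0, nat_lit 336, ⟨nat_lit 0, nat_lit 0, nat_lit 1000, nat_lit 6, nat_lit 109, nat_lit 1000, nat_lit 125, nat_lit 1000, nat_lit 147267, nat_lit 309, nat_lit 109350, nat_lit 296, nat_lit 55466541, nat_lit 0, nat_lit 0, nat_lit 3071946, false, false⟩,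
 nat_lit 0, nat_lit 8006, nat_lit 0, nat_lit 0, nat_lit 4660, nat_lit 0, nat_lit 0, nat_lit 0, nat_lit 0, nat_lit 0, nat_lit 0, nat_lit 0, nat_lit 0, nat_lit 0, nat_lit 149, nat_lit 752800, nat_lit 0, nat_lit 0, [(nat_lit 9, [(nat_lit 5, nat_lit 412), (nat_lit 6, nat_lit 588)])],
 ⟨p047_k0, nat_lit 0, nat_lit 0, nat_lit 178, nat_lit 0, nat_lit 136294, [nat_lit 3658265601, nat_lit 2673834667, nat_lit 129829333], [], [nat_lit 12433029549, nat_lit 13045418097, nat_lit 11142299334, nat_lit 11676599813, nat_lit 13846789921, nat_lit 14429708335, nat_lit 12533464608, nat_lit 13026955198], nat_lit 1271250, nat_lit 1271250, nat_lit 134400, nat_lit 490000, nat_lit 1100001, nat_lit 1442500, [nat_lit 1100000, nat_lit 1442500, nat_lit 1271250], [nat_lit 11, nat_lit 40, nat_lit 40, nat_lit 80, nat_lit 1, nat_lit 373, nat_lit 150, nat_lit 11]⟩, C1.Rw.none,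
 ⟨nat_lit 5700, nat_lit 5917, ⟨.ofNat (nat_lit 197129), .ofNat (nat_lit 307076), .ofNat (nat_lit 229138), .ofNat (nat_lit 339085), .ofNat (nat_lit 205119), .ofNat (nat_lit 312525), .ofNat (nat_lit 237132), .ofNat (nat_lit 344538)⟩, ⟨.ofNat (nat_lit 250751), .ofNat (nat_lit 329284), .ofNat (nat_lit 293429), .ofNat (nat_lit 371963), .ofNat (nat_lit 252544), .ofNat (nat_lit 329263), .ofNat (nat_lit 295228), .ofNat (nat_lit 371947)⟩⟩, [⟨nat_lit 0, nat_lit 100, nat_lit 100, nat_lit 70, nat_lit 235027646⟩]⟩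
noncomputable def p047_l40 : Lf2 := ⟨nat_lit 0, nat_lit 10, [nat_lit 0, nat_lit 5, nat_lit 5, nat_lit 20], true, nat_lit 160, nat_lit 200, nat_lit 0, nat_lit 336, ⟨nat_lit 0, nat_lit 0, nat_lit 1000, nat_lit 6, nat_lit 113, nat_lit 1000, nat_lit 125, nat_lit 1000, nat_lit 147267, nat_lit 309, nat_lit 120417, nat_lit 300, nat_lit 55092490, nat_lit 0, nat_lit 0, nat_lit 3143069, false, false⟩,
 nat_lit 0, nat_lit 7918, nat_lit 0, nat_lit 0, nat_lit 4822, nat_lit 0, nat_lit 0, nat_lit 0, nat_lit 0, nat_lit 0, nat_lit 0, nat_lit 0, nat_lit 0, nat_lit 0, nat_lit 141, nat_lit 706600, nat_lit 0, nat_lit 0, [(nat_lit 9, [(nat_lit 5, nat_lit 489), (nat_lit 6, nat_lit 511)])],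
 ⟨p047_k2, nat_lit 0, nat_lit 0, nat_lit 184, nat_lit 0, nat_lit 182141, [nat_lit 3563283201, nat_lit 2536729334, nat_lit 111778666], [], [nat_lit 13004545352, nat_lit 13315252364, nat_lit 11751001582, nat_lit 12049644008, nat_lit 14380763341, nat_lit 14686690938, nat_lit 13092629876, nat_lit 13389003938], nat_lit 1271250, nat_lit 1271250, nat_lit 157850, nat_lit 490000, nat_lit 1100001, nat_lit 1442500, [nat_lit 1100000, nat_lit 1442500, nat_lit 1271250], [nat_lit 11, nat_lit 40, nat_lit 40, nat_lit 80, nat_lit 1, nat_lit 373, nat_lit 150, nat_lit 11]⟩, C1.Rw.none,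
 ⟨nat_lit 5590, nat_lit 5701, ⟨.ofNat (nat_lit 212791), .ofNat (nat_lit 312525), .ofNat (nat_lit 250139), .ofNat (nat_lit 349874), .ofNat (nat_lit 216657), .ofNat (nat_lit 315226), .ofNat (nat_lit 254015), .ofNat (nat_lit 352585)⟩, ⟨.ofNat (nat_lit 252544), .ofNat (nat_lit 329263), .ofNat (nat_lit 295228), .ofNat (nat_lit 371947), .ofNat (nat_lit 253393), .ofNat (nat_lit 329215), .ofNat (nat_lit 296088), .ofNat (nat_lit 371911)⟩⟩, [⟨nat_lit 0, nat_lit 100, nat_lit 100, nat_lit 75, nat_lit 234198459⟩]⟩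
noncomputable def p047_l41 : Lf2 := ⟨nat_lit 0, nat_lit 10, [nat_lit 0, nat_lit 5, nat_lit 5, nat_lit 20], true, nat_lit 160, nat_lit 200, nat_lit 0, nat_lit 336, ⟨nat_lit 0, nat_lit 0, nat_lit 1000, nat_lit 6, nat_lit 117, nat_lit 1000, nat_lit 125, nat_lit 1000, nat_lit 147267, nat_lit 309, nat_lit 129067, nat_lit 303, nat_lit 54777363, nat_lit 0, nat_lit 0, nat_lit 3201425, false, false⟩,
 nat_lit 0, nat_lit 7709, nat_lit 0, nat_lit 0, nat_lit 4799, nat_lit 0, nat_lit 0, nat_lit 0, nat_lit 0, nat_lit 0, nat_lit 0, nat_lit 0, nat_lit 0, nat_lit 21743097370542, nat_lit 137, nat_lit 688000, nat_lit 0, nat_lit 0, [(nat_lit 9, [(nat_lit 5, nat_lit 520), (nat_lit 6, nat_lit 480)])],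
 ⟨p047_k18, nat_lit 0, nat_lit 0, nat_lit 199, nat_lit 0, nat_lit 229242, [nat_lit 3512576001, nat_lit 2465946667, nat_lit 82693333], [], [nat_lit 13210020753, nat_lit 13519581596, nat_lit 12150569722, nat_lit 12448546689, nat_lit 14561260039, nat_lit 14869324540, nat_lit 13468028368, nat_lit 13766575210], nat_lit 1271250, nat_lit 1271250, nat_lit 181601, nat_lit 490000, nat_lit 1100001, nat_lit 1442500, [nat_lit 1100000, nat_lit 1442500, nat_lit 1271250], [nat_lit 11, nat_lit 40, nat_lit 40, nat_lit 80, nat_lit 1, nat_lit 373, nat_lit 150, nat_lit 10]⟩, C1.Rw.none,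
 ⟨nat_lit 5477, nat_lit 5591, ⟨.ofNat (nat_lit 224239), .ofNat (nat_lit 315226), .ofNat (nat_lit 266935), .ofNat (nat_lit 357922), .ofNat (nat_lit 227994), .ofNat (nat_lit 317913), .ofNat (nat_lit 270708), .ofNat (nat_lit 360628)⟩, ⟨.ofNat (nat_lit 253393), .ofNat (nat_lit 329215), .ofNat (nat_lit 296088), .ofNat (nat_lit 371911), .ofNat (nat_lit 254209), .ofNat (nat_lit 329142), .ofNat (nat_lit 296923), .ofNat (nat_lit 371856)⟩⟩, [⟨nat_lit 0, nat_lit 100, nat_lit 100, nat_lit 80, nat_lit 223319224⟩]⟩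
noncomputable def p047_l42 : Lf2 := ⟨nat_lit 0, nat_lit 10, [nat_lit 0, nat_lit 5, nat_lit 5, nat_lit 20], false, nat_lit 160, nat_lit 200, nat_lit 0, nat_lit 160, ⟨nat_lit 1000, nat_lit 0, nat_lit 0, nat_lit 0, nat_lit 0, nat_lit 0, nat_lit 0, nat_lit 0, nat_lit 0, nat_lit 0, nat_lit 0, nat_lit 0, nat_lit 0, nat_lit 0, nat_lit 0, nat_lit 0, false, false⟩,
 nat_lit 11423, nat_lit 11961, nat_lit 0, nat_lit 0, nat_lit 13611, nat_lit 6047, nat_lit 2316, nat_lit 0, nat_lit 0, nat_lit 1516, nat_lit 0, nat_lit 0, nat_lit 0, nat_lit 0, nat_lit 0, nat_lit 0, nat_lit 0, nat_lit 0, [],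
 ⟨p047_k0, nat_lit 0, nat_lit 0, nat_lit 210, nat_lit 0, nat_lit 359704, [nat_lit 4688000000, nat_lit 6250000000, nat_lit 9842000000], [], [nat_lit 14563841250, nat_lit 11072225031, nat_lit 6635675074, nat_lit 7674842289, nat_lit 9935267924, nat_lit 10931903338, nat_lit 8429666177, nat_lit 9625771483], nat_lit 1271250, nat_lit 1271250, nat_lit 490000, nat_lit 780000, nat_lit 1100001, nat_lit 1442500, [nat_lit 1100000, nat_lit 1442500, nat_lit 1271250], [nat_lit 11, nat_lit 40, nat_lit 40, nat_lit 80, nat_lit 1, nat_lit 373, nat_lit 150, nat_lit 10]⟩, ⟨p047_k1, nat_lit 0, nat_lit 0, nat_lit 504, nat_lit 0, nat_lit 404966, [nat_lit 4688000000, nat_lit 6250000000, nat_lit 11872000000], [], [nat_lit 41714672480, nat_lit 36918754451, nat_lit 35320115108, nat_lit 34604670739, nat_lit 36300400620, nat_lit 32233622125, nat_lit 38776155256, nat_lit 34559261665], nat_lit 1271250, nat_lit 1271250, nat_lit 490000, nat_lit 780000, nat_lit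 0, nat_lit 1100001, [nat_lit 1100000, nat_lit 1442500, nat_lit 1271250], [nat_lit 48, nat_lit 40, nat_lit 40, nat_lit 80, nat_lit 12, nat_lit 373, nat_lit 150, nat_lit 10]⟩,
 zbF0, []⟩
noncomputable def p047_l43 : Lf2 := ⟨nat_lit 0, nat_lit 10, [nat_lit 0, nat_lit 5, nat_lit 5, nat_lit 20], false, nat_lit 160, nat_lit 200, nat_lit 0, nat_lit 160, ⟨nat_lit 672, nat_lit 0, nat_lit 328, nat_lit 6, nat_lit 150, nat_lit 328, nat_lit 125, nat_lit 328, nat_lit 147267, nat_lit 309, nat_lit 209067, nat_lit 327, nat_lit 52104978, nat_lit 0, nat_lit 0, nat_lit 3639301, false, false⟩,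
 nat_lit 9176, nat_lit 5494, nat_lit 0, nat_lit 0, nat_lit 8934, nat_lit 4857, nat_lit 1466, nat_lit 0, nat_lit 0, nat_lit 646, nat_lit 0, nat_lit 0, nat_lit 0, nat_lit 0, nat_lit 0, nat_lit 328000, nat_lit 0, nat_lit 0, [(nat_lit 9, [(nat_lit 6, nat_lit 328)])],
 ⟨p047_k2, nat_lit 0, nat_lit 0, nat_lit 303, nat_lit 0, nat_lit 446719, [nat_lit 3510348801, nat_lit 4059397334, nat_lit 4856662400], [], [nat_lit 15006454016, nat_lit 12714623930, nat_lit 10069319316, nat_lit 10857963026, nat_lit 12281084020, nat_lit 13113991584, nat_lit 11541033433, nat_lit 12521424356], nat_lit 1271250, nat_lit 1271250, nat_lit 490000, nat_lit 780000, nat_lit 1100001, nat_lit 1442500, [nat_lit 1100000, nat_lit 1442500, nat_lit 1271250], [nat_lit 11, nat_lit 40, nat_lit 40, nat_lit 80, nat_lit 1, nat_lit 373, nat_lit 150, nat_lit 10]⟩, ⟨p047_k1, nat_lit 0, nat_lit 0, nat_lit 548, nat_lit 0, nat_lit 531831, [nat_lit 3150336000, nat_lit 4200000000,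 nat_lit 7977984000], [], [nat_lit 29241298944, nat_lit 24105138012, nat_lit 24105138012, nat_lit 23138742258, nat_lit 23560353972, nat_lit 20954789238, nat_lit 25396698888, nat_lit 20880640860], nat_lit 1271250, nat_lit 1271250, nat_lit 490000, nat_lit 780000, nat_lit 0, nat_lit 1100001, [nat_lit 1100000, nat_lit 1442500, nat_lit 1271250], [nat_lit 48, nat_lit 40, nat_lit 40, nat_lit 80, nat_lit 12, nat_lit 373, nat_lit 150, nat_lit 10]⟩,
 ⟨nat_lit 5477, nat_lit 5701, ⟨.ofNat (nat_lit 312525), .ofNat (nat_lit 389244), .ofNat (nat_lit 355209), .ofNat (nat_lit 431928), .ofNat (nat_lit 317913), .ofNat (nat_lit 392847), .ofNat (nat_lit 360628), .ofNat (nat_lit 435561)⟩, ⟨.ofNat (nat_lit 252544), .ofNat (nat_lit 329263), .ofNat (nat_lit 295228), .ofNat (nat_lit 371947), .ofNat (nat_lit 254209), .ofNat (nat_lit 329142), .ofNat (nat_lit 296923), .ofNat (nat_lit 371856)⟩⟩, []⟩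
noncomputable def p047_l44 : Lf2 := ⟨nat_lit 0, nat_lit 10, [nat_lit 0, nat_lit 5, nat_lit 5, nat_lit 20], false, nat_lit 160, nat_lit 200, nat_lit 160, nat_lit 336, ⟨nat_lit 844, nat_lit 0, nat_lit 156, nat_lit 6, nat_lit 146, nat_lit 156, nat_lit 125, nat_lit 156, nat_lit 147267, nat_lit 309, nat_lit 198017, nat_lit 324, nat_lit 52464718, nat_lit 0, nat_lit 0, nat_lit 3585313, false, false⟩,
 nat_lit 21962, nat_lit 0, nat_lit 0, nat_lit 0, nat_lit 12783, nat_lit 11626, nat_lit 1845, nat_lit 0, nat_lit 0, nat_lit 1426, nat_lit 0, nat_lit 0, nat_lit 0, nat_lit 0, nat_lit 0, nat_lit 156000, nat_lit 0, nat_lit 0, [(nat_lit 9, [(nat_lit 6, nat_lit 156)])],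
 ⟨p047_k0, nat_lit 0, nat_lit 0, nat_lit 210, nat_lit 0, nat_lit 359704, [nat_lit 4127897600, nat_lit 5208128000, nat_lit 7470924800], [], [nat_lit 14344707450, nat_lit 11065497243, nat_lit 6988698697, nat_lit 7983514092, nat_lit 10100873747, nat_lit 11093398114, nat_lit 8738331356, nat_lit 9925380799], nat_lit 1271250, nat_lit 1271250, nat_lit 490000, nat_lit 780000, nat_lit 1100001, nat_lit 1442500, [nat_lit 1100000, nat_lit 1442500, nat_lit 1271250], [nat_lit 11, nat_lit 40, nat_lit 40, nat_lit 80, nat_lit 1, nat_lit 373, nat_lit 150, nat_lit 10]⟩, ⟨p047_k1, nat_lit 0, nat_lit 0, nat_lit 349, nat_lit 0, nat_lit 404966, [nat_lit 3956672000, nat_lit 5275000000, nat_lit 10019968000], [], [nat_lit 18106171936, nat_lit 14780355584, nat_lit 11042018030, nat_lit 13280778404, nat_lit 28422242303, nat_lit 25104609308, nat_lit 31839700941, nat_lit 23665706812], nat_lit 1271250, nat_lit 1271250, nat_lit 490000, nat_lit 780000, nat_lit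 1100001, nat_lit 2607000, [nat_lit 1100000, nat_lit 1442500, nat_lit 1271250], [nat_lit 48, nat_lit 40, nat_lit 40, nat_lit 80, nat_lit 12, nat_lit 428, nat_lit 200, nat_lit 11]⟩,
 ⟨nat_lit 5700, nat_lit 5917, ⟨.ofNat (nat_lit 307076), .ofNat (nat_lit 385610), .ofNat (nat_lit 339085), .ofNat (nat_lit 417619), .ofNat (nat_lit 312525), .ofNat (nat_lit 389244), .ofNat (nat_lit 344538), .ofNat (nat_lit 421257)⟩, ⟨.ofNat (nat_lit 250751), .ofNat (nat_lit 329284), .ofNat (nat_lit 293429), .ofNat (nat_lit 371963), .ofNat (nat_lit 252544), .ofNat (nat_lit 329263), .ofNat (nat_lit 295228), .ofNat (nat_lit 371947)⟩⟩, [⟨nat_lit 19, nat_lit 100, nat_lit 90, nat_lit 74, nat_lit 656823298⟩]⟩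
noncomputable def p047_l45 : Lf2 := ⟨nat_lit 0, nat_lit 10, [nat_lit 0, nat_lit 5, nat_lit 5, nat_lit 20], false, nat_lit 160, nat_lit 200, nat_lit 160, nat_lit 336, ⟨nat_lit 538, nat_lit 0, nat_lit 462, nat_lit 6, nat_lit 150, nat_lit 462, nat_lit 125, nat_lit 462, nat_lit 147267, nat_lit 309, nat_lit 209067, nat_lit 327, nat_lit 52104978, nat_lit 0, nat_lit 0, nat_lit 3639301, false, false⟩,
 nat_lit 12536, nat_lit 1342, nat_lit 0, nat_lit 0, nat_lit 8451, nat_lit 6636, nat_lit 1071, nat_lit 0, nat_lit 0, nat_lit 1055, nat_lit 0, nat_lit 0, nat_lit 0, nat_lit 0, nat_lit 0, nat_lit 462000, nat_lit 0, nat_lit 0, [(nat_lit 9, [(nat_lit 6, nat_lit 462)])],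
 ⟨p047_k2, nat_lit 0, nat_lit 0, nat_lit 303, nat_lit 0, nat_lit 446719, [nat_lit 3029235200, nat_lit 3164456001, nat_lit 2834478399], [], [nat_lit 14693755071, nat_lit 12525828492, nat_lit 10242718723, nat_lit 11005490538, nat_lit 12346578329, nat_lit 13160371176, nat_lit 11691864424, nat_lit 12651383234], nat_lit 1271250, nat_lit 1271250, nat_lit 490000, nat_lit 780000, nat_lit 1100001, nat_lit 1442500, [nat_lit 1100000, nat_lit 1442500, nat_lit 1271250], [nat_lit 11, nat_lit 40, nat_lit 40, nat_lit 80, nat_lit 1, nat_lit 373, nat_lit 150, nat_lit 10]⟩, ⟨p047_k1, nat_lit 0, nat_lit 0, nat_lit 396, nat_lit 0, nat_lit 531831, [nat_lit 2522144000, nat_lit 3362500000, nat_lit 6387136000], [], [nat_lit 11987320344, nat_lit 9591422977, nat_lit 6984047025, nat_lit 8754357449, nat_lit 18285433375, nat_lit 15883653684, nat_lit 20301337397, nat_lit 14771864903], nat_lit 1271250, nat_lit 1271250, nat_lit 490000, nat_lit 780000, nat_lit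 1100001, nat_lit 2607000, [nat_lit 1100000, nat_lit 1442500, nat_lit 1271250], [nat_lit 48, nat_lit 40, nat_lit 40, nat_lit 80, nat_lit 12, nat_lit 428, nat_lit 200, nat_lit 11]⟩,
 ⟨nat_lit 5477, nat_lit 5701, ⟨.ofNat (nat_lit 312525), .ofNat (nat_lit 389244), .ofNat (nat_lit 355209), .ofNat (nat_lit 431928), .ofNat (nat_lit 317913), .ofNat (nat_lit 392847), .ofNat (nat_lit 360628), .ofNat (nat_lit 435561)⟩, ⟨.ofNat (nat_lit 252544), .ofNat (nat_lit 329263), .ofNat (nat_lit 295228), .ofNat (nat_lit 371947), .ofNat (nat_lit 254209), .ofNat (nat_lit 329142), .ofNat (nat_lit 296923), .ofNat (nat_lit 371856)⟩⟩, [⟨nat_lit 7, nat_lit 92, nat_lit 100, nat_lit 75, nat_lit 402265136⟩]⟩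
noncomputable def b_V_600_600_10_43 : St := ⟨true, nat_lit 1, nat_lit 1, nat_lit 1, nat_lit 80, nat_lit 260, nat_lit 280, nat_lit 240, nat_lit 280, nat_lit 24, nat_lit 120, nat_lit 40, nat_lit 80, nat_lit 160, nat_lit 200, nat_lit 0, nat_lit 336, nat_lit 0, nat_lit 40, nat_lit 0, nat_lit 0, nat_lit 0, nat_lit 0⟩
theorem d_V_600_600_10_43 (h : EB TB.env) : Dead b_V_600_600_10_43 := chkB_sound0 h (T :=
(.spl (nat_lit 2) (nat_lit 80)
(.spl (nat_lit 6) (nat_lit 20)
(.spl (nat_lit 0) (nat_lit 270)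
(.ord (.spl (nat_lit 6) (nat_lit 8)
(.spl (nat_lit 1) (nat_lit 260)
(.leaf p047_l33)
(.trZ (nat_lit 0) (nat_lit 100) (nat_lit 100) (nat_lit 60) (nat_lit 36) (.trX (nat_lit 19) (nat_lit 100) (nat_lit 85) (nat_lit 84) (nat_lit 320) (.leaf p047_l34))))
(.leaf p047_l35)))
(.trZ (nat_lit 0) (nat_lit 100) (nat_lit 96) (nat_lit 54) (nat_lit 28) (.spl (nat_lit 1) (nat_lit 260)
(.leaf p047_l36)
(.trZ (nat_lit 0) (nat_lit 100) (nat_lit 98) (nat_lit 64) (nat_lit 40) (.trX (nat_lit 19) (nat_lit 100) (nat_lit 85) (nat_lit 84) (nat_lit 320) (.spl (nat_lit 5) (nat_lit 160)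
(.leaf p047_l37)
(.leaf p047_l38)))))))
(.spl (nat_lit 0) (nat_lit 270)
(.ord (.leaf p047_l39))
(.trZ (nat_lit 0) (nat_lit 100) (nat_lit 96) (nat_lit 54) (nat_lit 28) (.spl (nat_lit 0) (nat_lit 275)
(.ord (.leaf p047_l40))
(.trZ (nat_lit 0) (nat_lit 100) (nat_lit 95) (nat_lit 56) (nat_lit 32) (.leaf p047_l41))))))
(.spl (nat_lit 5) (nat_lit 160)
(.spl (nat_lit 0) (nat_lit 270)
(.ord (.leaf p047_l42))
(.leaf p047_l43))
(.spl (nat_lit 0) (nat_lit 270)
(.ord (.leaf p047_l44))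
(.leaf p047_l45))))) (by decide +kernel)
noncomputable def p047_l46 : Lf2 := ⟨nat_lit 0, nat_lit 5, [nat_lit 4, nat_lit 5, nat_lit 5, nat_lit 20], true, nat_lit 200, nat_lit 240, nat_lit 0, nat_lit 312, ⟨nat_lit 0, nat_lit 0, nat_lit 1000, nat_lit 6, nat_lit 91, nat_lit 1000, nat_lit 152, nat_lit 1000, nat_lit 216600, nat_lit 329, nat_lit 77067, nat_lit 283, nat_lit 54414389, nat_lit 0, nat_lit 0, nat_lit 3179898, false, false⟩,
 nat_lit 0, nat_lit 7484, nat_lit 0, nat_lit 0, nat_lit 4356, nat_lit 0, nat_lit 0, nat_lit 0, nat_lit 0, nat_lit 0, nat_lit 0, nat_lit 0, nat_lit 0, nat_lit 0, nat_lit 117, nat_lit 1000000, nat_lit 0, nat_lit 0, [(nat_lit 9, [(nat_lit 6, nat_lit 1000)])],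
 ⟨p047_k16, nat_lit 0, nat_lit 0, nat_lit 188, nat_lit 0, nat_lit 268991, [nat_lit 2969600000, nat_lit 1600000000, nat_lit 226400000], [], [nat_lit 13794822550, nat_lit 14405568388, nat_lit 13271184428, nat_lit 13876742786, nat_lit 15606963192, nat_lit 16379544193, nat_lit 14909320360, nat_lit 15487472932], nat_lit 1271250, nat_lit 1271250, nat_lit 134400, nat_lit 230001, nat_lit 1271250, nat_lit 1271250, [nat_lit 1100000, nat_lit 1442500, nat_lit 1271250], [nat_lit 9, nat_lit 40, nat_lit 40, nat_lit 80, nat_lit 2, nat_lit 289, nat_lit 75, nat_lit 9]⟩, C1.Rw.none,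
 ⟨nat_lit 5700, nat_lit 5917, ⟨.ofNat (nat_lit 197129), .ofNat (nat_lit 228543), .ofNat (nat_lit 218469), .ofNat (nat_lit 249882), .ofNat (nat_lit 205119), .ofNat (nat_lit 235806), .ofNat (nat_lit 226461), .ofNat (nat_lit 257148)⟩, ⟨.ofNat (nat_lit 329284), .ofNat (nat_lit 407818), .ofNat (nat_lit 350624), .ofNat (nat_lit 429157), .ofNat (nat_lit 329263), .ofNat (nat_lit 405982), .ofNat (nat_lit 350605), .ofNat (nat_lit 427324)⟩⟩, [⟨nat_lit 0, nat_lit 100, nat_lit 98, nat_lit 64, nat_lit 392197142⟩]⟩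
noncomputable def p047_l47 : Lf2 := ⟨nat_lit 0, nat_lit 5, [nat_lit 4, nat_lit 5, nat_lit 5, nat_lit 20], true, nat_lit 200, nat_lit 240, nat_lit 0, nat_lit 312, ⟨nat_lit 0, nat_lit 0, nat_lit 1000, nat_lit 6, nat_lit 113, nat_lit 1000, nat_lit 152, nat_lit 1000, nat_lit 216600, nat_lit 329, nat_lit 117600, nat_lit 299, nat_lit 52883840, nat_lit 0, nat_lit 0, nat_lit 3492433, false, false⟩,
 nat_lit 0, nat_lit 7464, nat_lit 0, nat_lit 0, nat_lit 4344, nat_lit 0, nat_lit 0, nat_lit 0, nat_lit 0, nat_lit 0, nat_lit 0, nat_lit 0, nat_lit 0, nat_lit 0, nat_lit 117, nat_lit 1000000, nat_lit 0, nat_lit 0, [(nat_lit 9, [(nat_lit 6, nat_lit 1000)])],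
 ⟨p047_k16, nat_lit 0, nat_lit 0, nat_lit 169, nat_lit 0, nat_lit 268991, [nat_lit 2969600000, nat_lit 1600000000, nat_lit 226400000], [], [nat_lit 13293599672, nat_lit 13898376164, nat_lit 13058323440, nat_lit 13639834144, nat_lit 14930364640, nat_lit 15485462064, nat_lit 14639919216, nat_lit 15174084456], nat_lit 1271250, nat_lit 1271250, nat_lit 230001, nat_lit 490000, nat_lit 1271250, nat_lit 1271250, [nat_lit 1100000, nat_lit 1442500, nat_lit 1271250], [nat_lit 9, nat_lit 40, nat_lit 40, nat_lit 80, nat_lit 2, nat_lit 317, nat_lit 100, nat_lit 10]⟩, C1.Rw.none,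
 ⟨nat_lit 5700, nat_lit 5917, ⟨.ofNat (nat_lit 228543), .ofNat (nat_lit 307076), .ofNat (nat_lit 249882), .ofNat (nat_lit 328416), .ofNat (nat_lit 235806), .ofNat (nat_lit 312525), .ofNat (nat_lit 257148), .ofNat (nat_lit 333867)⟩, ⟨.ofNat (nat_lit 329284), .ofNat (nat_lit 407818), .ofNat (nat_lit 350624), .ofNat (nat_lit 429157), .ofNat (nat_lit 329263), .ofNat (nat_lit 405982), .ofNat (nat_lit 350605), .ofNat (nat_lit 427324)⟩⟩, [⟨nat_lit 0, nat_lit 100, nat_lit 98, nat_lit 64, nat_lit 151408041⟩]⟩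
noncomputable def p047_l48 : Lf2 := ⟨nat_lit 0, nat_lit 5, [nat_lit 4, nat_lit 5, nat_lit 5, nat_lit 20], false, nat_lit 200, nat_lit 240, nat_lit 0, nat_lit 312, ⟨nat_lit 0, nat_lit 0, nat_lit 1000, nat_lit 6, nat_lit 144, nat_lit 1000, nat_lit 152, nat_lit 1000, nat_lit 216600, nat_lit 329, nat_lit 194400, nat_lit 323, nat_lit 50511934, nat_lit 0, nat_lit 0, nat_lit 3896973, false, false⟩,
 nat_lit 0, nat_lit 7814, nat_lit 0, nat_lit 0, nat_lit 4548, nat_lit 0, nat_lit 0, nat_lit 0, nat_lit 0, nat_lit 0, nat_lit 0, nat_lit 0, nat_lit 0, nat_lit 0, nat_lit 117, nat_lit 1000000, nat_lit 0, nat_lit 0, [(nat_lit 9, [(nat_lit 6, nat_lit 1000)])],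
 ⟨p047_k16, nat_lit 0, nat_lit 0, nat_lit 141, nat_lit 0, nat_lit 268991, [nat_lit 2969600000, nat_lit 1600000000, nat_lit 226400000], [], [nat_lit 12629389980, nat_lit 13223447398, nat_lit 12948953836, nat_lit 13512963274, nat_lit 14232758472, nat_lit 14777804052, nat_lit 14471899472, nat_lit 14989761928], nat_lit 1271250, nat_lit 1271250, nat_lit 490000, nat_lit 780000, nat_lit 1271250, nat_lit 1271250, [nat_lit 1100000, nat_lit 1442500, nat_lit 1271250], [nat_lit 9, nat_lit 40, nat_lit 40, nat_lit 80, nat_lit 2, nat_lit 317, nat_lit 100, nat_lit 10]⟩, ⟨p047_k19, nat_lit 0, nat_lit 0, nat_lit 339, nat_lit 0, nat_lit 301113, [nat_lit 0, nat_lit 0, nat_lit 0], [], [nat_lit 0, nat_lit 0, nat_lit 0, nat_lit 0, nat_lit 0, nat_lit 0, nat_lit 0, nat_lit 0], nat_lit 1271250, nat_lit 1271250, nat_lit 490000, nat_lit 780000, nat_lit 0, nat_lit 2203500, [nat_lit 1100000, nat_lit 1442500, nat_lit 1271250], [nat_lit 11, nat_lit 40,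 nat_lit 40, nat_lit 80, nat_lit 1, nat_lit 401, nat_lit 175, nat_lit 12]⟩,
 ⟨nat_lit 5700, nat_lit 5917, ⟨.ofNat (nat_lit 307076), .ofNat (nat_lit 385610), .ofNat (nat_lit 328416), .ofNat (nat_lit 406949), .ofNat (nat_lit 312525), .ofNat (nat_lit 389244), .ofNat (nat_lit 333867), .ofNat (nat_lit 410586)⟩, ⟨.ofNat (nat_lit 329284), .ofNat (nat_lit 407818), .ofNat (nat_lit 350624), .ofNat (nat_lit 429157), .ofNat (nat_lit 329263), .ofNat (nat_lit 405982), .ofNat (nat_lit 350605), .ofNat (nat_lit 427324)⟩⟩, []⟩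
noncomputable def p047_l49 : Lf2 := ⟨nat_lit 0, nat_lit 5, [nat_lit 4, nat_lit 5, nat_lit 5, nat_lit 20], false, nat_lit 200, nat_lit 240, nat_lit 0, nat_lit 160, ⟨nat_lit 337, nat_lit 0, nat_lit 663, nat_lit 6, nat_lit 133, nat_lit 663, nat_lit 152, nat_lit 663, nat_lit 216600, nat_lit 329, nat_lit 166667, nat_lit 315, nat_lit 51347539, nat_lit 0, nat_lit 0, nat_lit 3764170, false, false⟩,
 nat_lit 9436, nat_lit 0, nat_lit 0, nat_lit 0, nat_lit 5492, nat_lit 5492, nat_lit 664, nat_lit 0, nat_lit 0, nat_lit 640, nat_lit 0, nat_lit 0, nat_lit 0, nat_lit 0, nat_lit 0, nat_lit 663000, nat_lit 0, nat_lit 0, [(nat_lit 9, [(nat_lit 6, nat_lit 663)])],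
 ⟨p047_k16, nat_lit 0, nat_lit 0, nat_lit 194, nat_lit 0, nat_lit 317104, [nat_lit 2307564800, nat_lit 1615630001, nat_lit 960472199], [], [nat_lit 14022342715, nat_lit 14594316659, nat_lit 13298917933, nat_lit 13885121346, nat_lit 15519748071, nat_lit 16141996031, nat_lit 14880036688, nat_lit 15444223112], nat_lit 1271250, nat_lit 1271250, nat_lit 205650, nat_lit 780000, nat_lit 1271250, nat_lit 1271250, [nat_lit 1100000, nat_lit 1442500, nat_lit 1271250], [nat_lit 9, nat_lit 40, nat_lit 40, nat_lit 80, nat_lit 2, nat_lit 317, nat_lit 100, nat_lit 10]⟩, ⟨p047_k16, nat_lit 0, nat_lit 0, nat_lit 314, nat_lit 0, nat_lit 317104, [nat_lit 1579856000, nat_lit 2106250000, nat_lit 2685216000], [], [nat_lit 11757124544, nat_lit 10563111659, nat_lit 6070178628, nat_lit 6908833430, nat_lit 4066414272, nat_lit 4046290349, nat_lit 6577172224, nat_lit 5300551332], nat_lit 1271250, nat_lit 1271250, nat_lit 205650, nat_lit 780000, nat_lit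 0, nat_lit 1100001, [nat_lit 1100000, nat_lit 1442500, nat_lit 1271250], [nat_lit 9, nat_lit 40, nat_lit 40, nat_lit 80, nat_lit 2, nat_lit 289, nat_lit 75, nat_lit 10]⟩,
 ⟨nat_lit 5700, nat_lit 5917, ⟨.ofNat (nat_lit 242029), .ofNat (nat_lit 406949), .ofNat (nat_lit 252698), .ofNat (nat_lit 417619), .ofNat (nat_lit 249476), .ofNat (nat_lit 410586), .ofNat (nat_lit 260147), .ofNat (nat_lit 421257)⟩, ⟨.ofNat (nat_lit 329284), .ofNat (nat_lit 407818), .ofNat (nat_lit 350624), .ofNat (nat_lit 429157), .ofNat (nat_lit 329263), .ofNat (nat_lit 405982), .ofNat (nat_lit 350605), .ofNat (nat_lit 427324)⟩⟩, [⟨nat_lit 0, nat_lit 100, nat_lit 100, nat_lit 65, nat_lit 554911784⟩]⟩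
noncomputable def p047_l50 : Lf2 := ⟨nat_lit 0, nat_lit 5, [nat_lit 4, nat_lit 5, nat_lit 5, nat_lit 20], false, nat_lit 200, nat_lit 240, nat_lit 160, nat_lit 296, ⟨nat_lit 369, nat_lit 0, nat_lit 631, nat_lit 6, nat_lit 132, nat_lit 631, nat_lit 152, nat_lit 631, nat_lit 216600, nat_lit 329, nat_lit 163350, nat_lit 314, nat_lit 51430008, nat_lit 0, nat_lit 0, nat_lit 3750519, false, false⟩,
 nat_lit 9631, nat_lit 0, nat_lit 0, nat_lit 0, nat_lit 5606, nat_lit 3086, nat_lit 743, nat_lit 0, nat_lit 0, nat_lit 638, nat_lit 0, nat_lit 0, nat_lit 0, nat_lit 0, nat_lit 0, nat_lit 631000, nat_lit 0, nat_lit 0, [(nat_lit 9, [(nat_lit 6, nat_lit 631)])],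
 ⟨p047_k16, nat_lit 0, nat_lit 0, nat_lit 184, nat_lit 0, nat_lit 292675, [nat_lit 2422457601, nat_lit 1839310000, nat_lit 1296811400], [], [nat_lit 14096867725, nat_lit 14674503274, nat_lit 13323283352, nat_lit 13899359957, nat_lit 15601464692, nat_lit 16185298498, nat_lit 14866872786, nat_lit 15436653418], nat_lit 1271250, nat_lit 1271250, nat_lit 205650, nat_lit 780000, nat_lit 1271250, nat_lit 1271250, [nat_lit 1100000, nat_lit 1442500, nat_lit 1271250], [nat_lit 9, nat_lit 40, nat_lit 40, nat_lit 80, nat_lit 2, nat_lit 317, nat_lit 100, nat_lit 10]⟩, ⟨p047_k16, nat_lit 0, nat_lit 0, nat_lit 205, nat_lit 0, nat_lit 292675, [nat_lit 1729872000, nat_lit 2306250000, nat_lit 2940192000], [], [nat_lit 10995707462, nat_lit 10593313121, nat_lit 5461274776, nat_lit 5557820991, nat_lit 8456690713, nat_lit 8470721608, nat_lit 10143235430, nat_lit 9776655971], nat_lit 1271250, nat_lit 1271250, nat_lit 205650, nat_lit 780000, nat_lit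 1100001, nat_lit 2264500, [nat_lit 1100000, nat_lit 1442500, nat_lit 1271250], [nat_lit 9, nat_lit 40, nat_lit 40, nat_lit 80, nat_lit 2, nat_lit 345, nat_lit 125, nat_lit 11]⟩,
 ⟨nat_lit 5700, nat_lit 5917, ⟨.ofNat (nat_lit 242029), .ofNat (nat_lit 406949), .ofNat (nat_lit 247363), .ofNat (nat_lit 412284), .ofNat (nat_lit 249476), .ofNat (nat_lit 410586), .ofNat (nat_lit 254812), .ofNat (nat_lit 415922)⟩, ⟨.ofNat (nat_lit 329284), .ofNat (nat_lit 407818), .ofNat (nat_lit 350624), .ofNat (nat_lit 429157), .ofNat (nat_lit 329263), .ofNat (nat_lit 405982), .ofNat (nat_lit 350605), .ofNat (nat_lit 427324)⟩⟩, [⟨nat_lit 0, nat_lit 100, nat_lit 100, nat_lit 64, nat_lit 280470293⟩]⟩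
noncomputable def p047_l51 : Lf2 := ⟨nat_lit 0, nat_lit 5, [nat_lit 4, nat_lit 5, nat_lit 5, nat_lit 20], false, nat_lit 200, nat_lit 240, nat_lit 160, nat_lit 292, ⟨nat_lit 648, nat_lit 0, nat_lit 352, nat_lit 6, nat_lit 136, nat_lit 352, nat_lit 151, nat_lit 352, nat_lit 216600, nat_lit 329, nat_lit 173400, nat_lit 317, nat_lit 51109210, nat_lit 0, nat_lit 0, nat_lit 3803186, false, false⟩,
 nat_lit 11260, nat_lit 0, nat_lit 0, nat_lit 0, nat_lit 6705, nat_lit 6705, nat_lit 1445, nat_lit 0, nat_lit 0, nat_lit 516, nat_lit 0, nat_lit 0, nat_lit 0, nat_lit 0, nat_lit 0, nat_lit 352000, nat_lit 0, nat_lit 0, [(nat_lit 9, [(nat_lit 6, nat_lit 352)])],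
 ⟨p047_k20, nat_lit 0, nat_lit 0, nat_lit 186, nat_lit 0, nat_lit 308694, [nat_lit 3424179200, nat_lit 3789520000, nat_lit 4229268800], [], [nat_lit 14327202819, nat_lit 14642659698, nat_lit 13308467674, nat_lit 13623990593, nat_lit 15910742013, nat_lit 16231511635, nat_lit 14842553240, nat_lit 15151908280], nat_lit 1271250, nat_lit 1271250, nat_lit 230001, nat_lit 780000, nat_lit 1271250, nat_lit 1271250, [nat_lit 1100000, nat_lit 1442500, nat_lit 1271250], [nat_lit 9, nat_lit 40, nat_lit 40, nat_lit 80, nat_lit 2, nat_lit 317, nat_lit 100, nat_lit 10]⟩, ⟨p047_k20, nat_lit 0, nat_lit 0, nat_lit 206, nat_lit 0, nat_lit 308694, [nat_lit 3037824000, nat_lit 4050000000, nat_lit 5163264000], [], [nat_lit 17797855784, nat_lit 16924901661, nat_lit 8327530416, nat_lit 8564115324, nat_lit 15328633102, nat_lit 15573216678, nat_lit 15882974300, nat_lit 15085399128], nat_lit 1271250, nat_lit 1271250, nat_lit 230001, nat_lit 780000,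 nat_lit 1100001, nat_lit 2230250, [nat_lit 1100000, nat_lit 1442500, nat_lit 1271250], [nat_lit 9, nat_lit 40, nat_lit 40, nat_lit 80, nat_lit 2, nat_lit 345, nat_lit 125, nat_lit 11]⟩,
 ⟨nat_lit 5700, nat_lit 5810, ⟨.ofNat (nat_lit 258861), .ofNat (nat_lit 414106), .ofNat (nat_lit 264196), .ofNat (nat_lit 419441), .ofNat (nat_lit 262484), .ofNat (nat_lit 415922), .ofNat (nat_lit 267819), .ofNat (nat_lit 421257)⟩, ⟨.ofNat (nat_lit 329285), .ofNat (nat_lit 406908), .ofNat (nat_lit 350625), .ofNat (nat_lit 428247), .ofNat (nat_lit 329263), .ofNat (nat_lit 405982), .ofNat (nat_lit 350605), .ofNat (nat_lit 427324)⟩⟩, [⟨nat_lit 0, nat_lit 100, nat_lit 100, nat_lit 70, nat_lit 510392075⟩, ⟨nat_lit 7, nat_lit 99, nat_lit 100, nat_lit 70, nat_lit 80371554⟩]⟩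
noncomputable def p047_l52 : Lf2 := ⟨nat_lit 0, nat_lit 5, [nat_lit 4, nat_lit 5, nat_lit 5, nat_lit 20], false, nat_lit 200, nat_lit 240, nat_lit 0, nat_lit 336, ⟨nat_lit 0, nat_lit 0, nat_lit 1000, nat_lit 6, nat_lit 122, nat_lit 1000, nat_lit 160, nat_lit 1000, nat_lit 240000, nat_lit 335, nat_lit 138017, nat_lit 306, nat_lit 51454433, nat_lit 0, nat_lit 0, nat_lit 3722842, false, false⟩,
 nat_lit 0, nat_lit 7172, nat_lit 0, nat_lit 0, nat_lit 4174, nat_lit 0, nat_lit 0, nat_lit 0, nat_lit 0, nat_lit 0, nat_lit 0, nat_lit 0, nat_lit 0, nat_lit 0, nat_lit 117, nat_lit 1000000, nat_lit 0, nat_lit 0, [(nat_lit 9, [(nat_lit 6, nat_lit 1000)])],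
 ⟨p047_k16, nat_lit 0, nat_lit 0, nat_lit 160, nat_lit 0, nat_lit 163013, [nat_lit 2969600000, nat_lit 1600000000, nat_lit 226400000], [], [nat_lit 14102938249, nat_lit 14701702026, nat_lit 13781475218, nat_lit 14324262587, nat_lit 15728173656, nat_lit 16278108198, nat_lit 15268944336, nat_lit 15768453864], nat_lit 1271250, nat_lit 1271250, nat_lit 134400, nat_lit 780000, nat_lit 1271250, nat_lit 1271250, [nat_lit 1100000, nat_lit 1442500, nat_lit 1271250], [nat_lit 9, nat_lit 40, nat_lit 40, nat_lit 80, nat_lit 2, nat_lit 317, nat_lit 100, nat_lit 10]⟩, ⟨p047_k19, nat_lit 0, nat_lit 0, nat_lit 339, nat_lit 0, nat_lit 183035, [nat_lit 0, nat_lit 0, nat_lit 0], [], [nat_lit 0, nat_lit 0, nat_lit 0, nat_lit 0, nat_lit 0, nat_lit 0, nat_lit 0, nat_lit 0], nat_lit 1271250, nat_lit 1271250, nat_lit 134400, nat_lit 780000, nat_lit 0, nat_lit 2373000, [nat_lit 1100000, nat_lit 1442500, nat_lit 1271250], [nat_lit 11, nat_lit 40,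 nat_lit 40, nat_lit 80, nat_lit 1, nat_lit 428, nat_lit 200, nat_lit 13]⟩,
 ⟨nat_lit 5700, nat_lit 5917, ⟨.ofNat (nat_lit 197129), .ofNat (nat_lit 385610), .ofNat (nat_lit 218469), .ofNat (nat_lit 406949), .ofNat (nat_lit 205119), .ofNat (nat_lit 389244), .ofNat (nat_lit 226461), .ofNat (nat_lit 410586)⟩, ⟨.ofNat (nat_lit 350624), .ofNat (nat_lit 429157), .ofNat (nat_lit 371963), .ofNat (nat_lit 450496), .ofNat (nat_lit 350605), .ofNat (nat_lit 427324), .ofNat (nat_lit 371947), .ofNat (nat_lit 448666)⟩⟩, [⟨nat_lit 0, nat_lit 100, nat_lit 98, nat_lit 64, nat_lit 140362586⟩]⟩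
noncomputable def p047_l53 : Lf2 := ⟨nat_lit 0, nat_lit 5, [nat_lit 4, nat_lit 5, nat_lit 5, nat_lit 20], false, nat_lit 200, nat_lit 240, nat_lit 0, nat_lit 320, ⟨nat_lit 0, nat_lit 0, nat_lit 1000, nat_lit 6, nat_lit 133, nat_lit 1000, nat_lit 160, nat_lit 1000, nat_lit 240000, nat_lit 335, nat_lit 166667, nat_lit 315, nat_lit 50627401, nat_lit 0, nat_lit 0, nat_lit 3865048, false, false⟩,
 nat_lit 7389, nat_lit 0, nat_lit 0, nat_lit 0, nat_lit 4301, nat_lit 0, nat_lit 0, nat_lit 0, nat_lit 0, nat_lit 586, nat_lit 0, nat_lit 0, nat_lit 0, nat_lit 19974507811787, nat_lit 117, nat_lit 1000000, nat_lit 0, nat_lit 0, [(nat_lit 9, [(nat_lit 6, nat_lit 1000)])],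
 ⟨p047_k16, nat_lit 0, nat_lit 0, nat_lit 158, nat_lit 0, nat_lit 213443, [nat_lit 2969600000, nat_lit 1600000000, nat_lit 226400000], [], [nat_lit 13502424332, nat_lit 14105686657, nat_lit 13498774107, nat_lit 14048767901, nat_lit 15136260302, nat_lit 15690056855, nat_lit 14998290064, nat_lit 15504031736], nat_lit 1271250, nat_lit 1271250, nat_lit 205650, nat_lit 780000, nat_lit 1271250, nat_lit 1271250, [nat_lit 1100000, nat_lit 1442500, nat_lit 1271250], [nat_lit 9, nat_lit 40, nat_lit 40, nat_lit 80, nat_lit 2, nat_lit 317, nat_lit 100, nat_lit 10]⟩, ⟨p047_k16, nat_lit 0, nat_lit 0, nat_lit 272, nat_lit 0, nat_lit 213443, [nat_lit 0, nat_lit 0, nat_lit 0], [], [nat_lit 0, nat_lit 0, nat_lit 0, nat_lit 0, nat_lit 0, nat_lit 0, nat_lit 0, nat_lit 0], nat_lit 1271250, nat_lit 1271250, nat_lit 205650, nat_lit 780000, nat_lit 0, nat_lit 2260000, [nat_lit 1100000, nat_lit 1442500, nat_lit 1271250], [nat_lit 9, nat_lit 40,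 nat_lit 40, nat_lit 80, nat_lit 2, nat_lit 345, nat_lit 125, nat_lit 12]⟩,
 ⟨nat_lit 5700, nat_lit 5917, ⟨.ofNat (nat_lit 242029), .ofNat (nat_lit 406949), .ofNat (nat_lit 252698), .ofNat (nat_lit 417619), .ofNat (nat_lit 249476), .ofNat (nat_lit 410586), .ofNat (nat_lit 260147), .ofNat (nat_lit 421257)⟩, ⟨.ofNat (nat_lit 350624), .ofNat (nat_lit 429157), .ofNat (nat_lit 371963), .ofNat (nat_lit 450496), .ofNat (nat_lit 350605), .ofNat (nat_lit 427324), .ofNat (nat_lit 371947), .ofNat (nat_lit 448666)⟩⟩, [⟨nat_lit 0, nat_lit 100, nat_lit 100, nat_lit 70, nat_lit 127376860⟩]⟩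
noncomputable def p047_l54 : Lf2 := ⟨nat_lit 0, nat_lit 10, [nat_lit 0, nat_lit 5, nat_lit 5, nat_lit 20], false, nat_lit 200, nat_lit 240, nat_lit 0, nat_lit 336, ⟨nat_lit 0, nat_lit 0, nat_lit 1000, nat_lit 6, nat_lit 122, nat_lit 1000, nat_lit 156, nat_lit 1000, nat_lit 228150, nat_lit 332, nat_lit 138017, nat_lit 306, nat_lit 51824536, nat_lit 0, nat_lit 0, nat_lit 3671777, false, false⟩,
 nat_lit 0, nat_lit 7202, nat_lit 0, nat_lit 0, nat_lit 4192, nat_lit 0, nat_lit 0, nat_lit 0, nat_lit 0, nat_lit 0, nat_lit 0, nat_lit 0, nat_lit 0, nat_lit 0, nat_lit 133, nat_lit 664600, nat_lit 0, nat_lit 0, [(nat_lit 9, [(nat_lit 5, nat_lit 559), (nat_lit 6, nat_lit 441)])],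
 ⟨p047_k0, nat_lit 0, nat_lit 0, nat_lit 154, nat_lit 0, nat_lit 81733, [nat_lit 3465299201, nat_lit 2397542667, nat_lit 75005333], [], [nat_lit 14495397488, nat_lit 14957112045, nat_lit 13837467700, nat_lit 14342819560, nat_lit 15775315641, nat_lit 16287239024, nat_lit 15211036796, nat_lit 15676513332], nat_lit 1271250, nat_lit 1271250, nat_lit 134400, nat_lit 780000, nat_lit 1271250, nat_lit 1271250, [nat_lit 1100000, nat_lit 1442500, nat_lit 1271250], [nat_lit 11, nat_lit 40, nat_lit 40, nat_lit 80, nat_lit 1, nat_lit 401, nat_lit 175, nat_lit 11]⟩, ⟨p047_k1, nat_lit 0, nat_lit 0, nat_lit 376, nat_lit 0, nat_lit 92017, [nat_lit 0, nat_lit 0, nat_lit 0], [], [nat_lit 0, nat_lit 0, nat_lit 0, nat_lit 0, nat_lit 0, nat_lit 0, nat_lit 0, nat_lit 0], nat_lit 1271250, nat_lit 1271250, nat_lit 134400, nat_lit 780000, nat_lit 0, nat_lit 2373000, [nat_lit 1100000, nat_lit 1442500, nat_lit 1271250], [nat_lit 48, nat_lit 40, nat_lit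 40, nat_lit 80, nat_lit 12, nat_lit 428, nat_lit 200, nat_lit 11]⟩,
 ⟨nat_lit 5700, nat_lit 5917, ⟨.ofNat (nat_lit 197129), .ofNat (nat_lit 385610), .ofNat (nat_lit 218469), .ofNat (nat_lit 406949), .ofNat (nat_lit 205119), .ofNat (nat_lit 389244), .ofNat (nat_lit 226461), .ofNat (nat_lit 410586)⟩, ⟨.ofNat (nat_lit 329284), .ofNat (nat_lit 407818), .ofNat (nat_lit 371963), .ofNat (nat_lit 450496), .ofNat (nat_lit 329263), .ofNat (nat_lit 405982), .ofNat (nat_lit 371947), .ofNat (nat_lit 448666)⟩⟩, [⟨nat_lit 0, nat_lit 100, nat_lit 98, nat_lit 64, nat_lit 145713782⟩]⟩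
noncomputable def p047_l55 : Lf2 := ⟨nat_lit 0, nat_lit 10, [nat_lit 0, nat_lit 5, nat_lit 5, nat_lit 20], false, nat_lit 200, nat_lit 240, nat_lit 0, nat_lit 320, ⟨nat_lit 0, nat_lit 0, nat_lit 1000, nat_lit 6, nat_lit 133, nat_lit 1000, nat_lit 156, nat_lit 1000, nat_lit 228150, nat_lit 332, nat_lit 166667, nat_lit 315, nat_lit 50988676, nat_lit 0, nat_lit 0, nat_lit 3815212, false, false⟩,
 nat_lit 0, nat_lit 7408, nat_lit 0, nat_lit 0, nat_lit 4312, nat_lit 0, nat_lit 0, nat_lit 0, nat_lit 0, nat_lit 0, nat_lit 0, nat_lit 0, nat_lit 0, nat_lit 0, nat_lit 136, nat_lit 677800, nat_lit 0, nat_lit 0, [(nat_lit 9, [(nat_lit 5, nat_lit 537), (nat_lit 6, nat_lit 463)])],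
 ⟨p047_k0, nat_lit 0, nat_lit 0, nat_lit 159, nat_lit 0, nat_lit 136294, [nat_lit 3503865600, nat_lit 2451001334, nat_lit 100162666], [], [nat_lit 13859716213, nat_lit 14325005644, nat_lit 13559613286, nat_lit 14070967246, nat_lit 15179411826, nat_lit 15694310495, nat_lit 14942219942, nat_lit 15412857438], nat_lit 1271250, nat_lit 1271250, nat_lit 205650, nat_lit 780000, nat_lit 1271250, nat_lit 1271250, [nat_lit 1100000, nat_lit 1442500, nat_lit 1271250], [nat_lit 11, nat_lit 40, nat_lit 40, nat_lit 80, nat_lit 1, nat_lit 401, nat_lit 175, nat_lit 11]⟩, ⟨p047_k0, nat_lit 0, nat_lit 0, nat_lit 312, nat_lit 0, nat_lit 136294, [nat_lit 0, nat_lit 0, nat_lit 0], [], [nat_lit 0, nat_lit 0, nat_lit 0, nat_lit 0, nat_lit 0, nat_lit 0, nat_lit 0, nat_lit 0], nat_lit 1271250, nat_lit 1271250, nat_lit 205650, nat_lit 780000, nat_lit 0, nat_lit 2260000, [nat_lit 1100000, nat_lit 1442500, nat_lit 1271250], [nat_lit 11, nat_lit 40,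 nat_lit 40, nat_lit 80, nat_lit 1, nat_lit 428, nat_lit 200, nat_lit 13]⟩,
 ⟨nat_lit 5700, nat_lit 5917, ⟨.ofNat (nat_lit 242029), .ofNat (nat_lit 406949), .ofNat (nat_lit 252698), .ofNat (nat_lit 417619), .ofNat (nat_lit 249476), .ofNat (nat_lit 410586), .ofNat (nat_lit 260147), .ofNat (nat_lit 421257)⟩, ⟨.ofNat (nat_lit 329284), .ofNat (nat_lit 407818), .ofNat (nat_lit 371963), .ofNat (nat_lit 450496), .ofNat (nat_lit 329263), .ofNat (nat_lit 405982), .ofNat (nat_lit 371947), .ofNat (nat_lit 448666)⟩⟩, [⟨nat_lit 0, nat_lit 100, nat_lit 100, nat_lit 70, nat_lit 133053600⟩]⟩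
noncomputable def p047_l56 : Lf2 := ⟨nat_lit 0, nat_lit 5, [nat_lit 4, nat_lit 5, nat_lit 5, nat_lit 20], false, nat_lit 200, nat_lit 240, nat_lit 0, nat_lit 312, ⟨nat_lit 0, nat_lit 0, nat_lit 1000, nat_lit 6, nat_lit 124, nat_lit 1000, nat_lit 151, nat_lit 1000, nat_lit 212817, nat_lit 328, nat_lit 144150, nat_lit 308, nat_lit 52097212, nat_lit 0, nat_lit 0, nat_lit 3637336, false, false⟩,
 nat_lit 0, nat_lit 6761, nat_lit 0, nat_lit 0, nat_lit 4117, nat_lit 0, nat_lit 0, nat_lit 0, nat_lit 0, nat_lit 0, nat_lit 0, nat_lit 0, nat_lit 0, nat_lit 0, nat_lit 117, nat_lit 1000000, nat_lit 0, nat_lit 0, [(nat_lit 9, [(nat_lit 6, nat_lit 1000)])],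
 ⟨p047_k17, nat_lit 0, nat_lit 0, nat_lit 186, nat_lit 0, nat_lit 264552, [nat_lit 2969600000, nat_lit 1600000000, nat_lit 226400000], [], [nat_lit 14672737273, nat_lit 15266492187, nat_lit 14447909809, nat_lit 14987462798, nat_lit 16241290451, nat_lit 16786862481, nat_lit 15887131512, nat_lit 16383843936], nat_lit 1271250, nat_lit 1271250, nat_lit 157850, nat_lit 780000, nat_lit 1271250, nat_lit 1271250, [nat_lit 1100000, nat_lit 1442500, nat_lit 1271250], [nat_lit 9, nat_lit 40, nat_lit 40, nat_lit 80, nat_lit 2, nat_lit 317, nat_lit 100, nat_lit 10]⟩, ⟨p047_k19, nat_lit 0, nat_lit 0, nat_lit 427, nat_lit 0, nat_lit 312347, [nat_lit 0, nat_lit 0, nat_lit 0], [], [nat_lit 0, nat_lit 0, nat_lit 0, nat_lit 0, nat_lit 0, nat_lit 0, nat_lit 0, nat_lit 0], nat_lit 1271250, nat_lit 1271250, nat_lit 157850, nat_lit 780000, nat_lit 0, nat_lit 2203500, [nat_lit 1100000, nat_lit 1442500, nat_lit 1271250], [nat_lit 11, nat_lit 40,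 nat_lit 40, nat_lit 80, nat_lit 1, nat_lit 401, nat_lit 175, nat_lit 12]⟩,
 ⟨nat_lit 5477, nat_lit 5701, ⟨.ofNat (nat_lit 212791), .ofNat (nat_lit 389244), .ofNat (nat_lit 223462), .ofNat (nat_lit 399915), .ofNat (nat_lit 220501), .ofNat (nat_lit 392847), .ofNat (nat_lit 231179), .ofNat (nat_lit 403525)⟩, ⟨.ofNat (nat_lit 329263), .ofNat (nat_lit 405982), .ofNat (nat_lit 350605), .ofNat (nat_lit 427324), .ofNat (nat_lit 329142), .ofNat (nat_lit 404075), .ofNat (nat_lit 350499), .ofNat (nat_lit 425432)⟩⟩, [⟨nat_lit 0, nat_lit 100, nat_lit 95, nat_lit 64, nat_lit 134646501⟩]⟩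
noncomputable def p047_l57 : Lf2 := ⟨nat_lit 0, nat_lit 5, [nat_lit 4, nat_lit 5, nat_lit 5, nat_lit 20], false, nat_lit 200, nat_lit 240, nat_lit 0, nat_lit 304, ⟨nat_lit 0, nat_lit 0, nat_lit 1000, nat_lit 6, nat_lit 130, nat_lit 1000, nat_lit 151, nat_lit 1000, nat_lit 212817, nat_lit 328, nat_lit 160067, nat_lit 313, nat_lit 51572819, nat_lit 0, nat_lit 0, nat_lit 3727205, false, false⟩,
 nat_lit 0, nat_lit 6978, nat_lit 0, nat_lit 0, nat_lit 4249, nat_lit 0, nat_lit 0, nat_lit 0, nat_lit 0, nat_lit 474, nat_lit 0, nat_lit 0, nat_lit 0, nat_lit 0, nat_lit 117, nat_lit 1000000, nat_lit 0, nat_lit 0, [(nat_lit 9, [(nat_lit 6, nat_lit 1000)])],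
 ⟨p047_k17, nat_lit 0, nat_lit 0, nat_lit 181, nat_lit 0, nat_lit 279853, [nat_lit 2969600000, nat_lit 1600000000, nat_lit 226400000], [], [nat_lit 14197147539, nat_lit 14497080238, nat_lit 14161568875, nat_lit 14435090441, nat_lit 15776020395, nat_lit 16051444114, nat_lit 15612299064, nat_lit 15863894028], nat_lit 1271250, nat_lit 1271250, nat_lit 205650, nat_lit 780000, nat_lit 1271250, nat_lit 1271250, [nat_lit 1100000, nat_lit 1442500, nat_lit 1271250], [nat_lit 9, nat_lit 40, nat_lit 40, nat_lit 80, nat_lit 2, nat_lit 317, nat_lit 100, nat_lit 10]⟩, ⟨p047_k21, nat_lit 0, nat_lit 0, nat_lit 307, nat_lit 0, nat_lit 311946, [nat_lit 0, nat_lit 0, nat_lit 0], [], [nat_lit 0, nat_lit 0, nat_lit 0, nat_lit 0, nat_lit 0, nat_lit 0, nat_lit 0, nat_lit 0], nat_lit 1271250, nat_lit 1271250, nat_lit 205650, nat_lit 780000, nat_lit 0, nat_lit 2147000, [nat_lit 1100000, nat_lit 1442500, nat_lit 1271250], [nat_lit 9, nat_lit 40,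 nat_lit 40, nat_lit 80, nat_lit 2, nat_lit 345, nat_lit 125, nat_lit 12]⟩,
 ⟨nat_lit 5590, nat_lit 5701, ⟨.ofNat (nat_lit 238805), .ofNat (nat_lit 399915), .ofNat (nat_lit 249476), .ofNat (nat_lit 410586), .ofNat (nat_lit 242495), .ofNat (nat_lit 401723), .ofNat (nat_lit 253169), .ofNat (nat_lit 412397)⟩, ⟨.ofNat (nat_lit 329263), .ofNat (nat_lit 405982), .ofNat (nat_lit 350605), .ofNat (nat_lit 427324), .ofNat (nat_lit 329215), .ofNat (nat_lit 405038), .ofNat (nat_lit 350563), .ofNat (nat_lit 426386)⟩⟩, [⟨nat_lit 0, nat_lit 100, nat_lit 97, nat_lit 67, nat_lit 126447682⟩]⟩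
noncomputable def p047_l58 : Lf2 := ⟨nat_lit 0, nat_lit 5, [nat_lit 4, nat_lit 5, nat_lit 5, nat_lit 20], false, nat_lit 200, nat_lit 240, nat_lit 0, nat_lit 304, ⟨nat_lit 0, nat_lit 0, nat_lit 1000, nat_lit 6, nat_lit 132, nat_lit 1000, nat_lit 151, nat_lit 1000, nat_lit 212817, nat_lit 328, nat_lit 163350, nat_lit 314, nat_lit 51505118, nat_lit 0, nat_lit 0, nat_lit 3738909, false, false⟩,
 nat_lit 0, nat_lit 6744, nat_lit 0, nat_lit 0, nat_lit 4198, nat_lit 0, nat_lit 0, nat_lit 0, nat_lit 0, nat_lit 415, nat_lit 0, nat_lit 0, nat_lit 0, nat_lit 0, nat_lit 117, nat_lit 1000000, nat_lit 0, nat_lit 0, [(nat_lit 9, [(nat_lit 6, nat_lit 1000)])],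
 ⟨p047_k22, nat_lit 0, nat_lit 0, nat_lit 190, nat_lit 0, nat_lit 297527, [nat_lit 2969600000, nat_lit 1600000000, nat_lit 226400000], [], [nat_lit 14585116456, nat_lit 14883383356, nat_lit 14544275206, nat_lit 14816349812, nat_lit 16134308307, nat_lit 16408285823, nat_lit 15968827956, nat_lit 16219171584], nat_lit 1271250, nat_lit 1271250, nat_lit 205650, nat_lit 780000, nat_lit 1271250, nat_lit 1271250, [nat_lit 1100000, nat_lit 1442500, nat_lit 1271250], [nat_lit 9, nat_lit 40, nat_lit 40, nat_lit 80, nat_lit 2, nat_lit 317, nat_lit 100, nat_lit 10]⟩, ⟨p047_k21, nat_lit 0, nat_lit 0, nat_lit 319, nat_lit 0, nat_lit 340358, [nat_lit 0, nat_lit 0, nat_lit 0], [], [nat_lit 0, nat_lit 0, nat_lit 0, nat_lit 0, nat_lit 0, nat_lit 0, nat_lit 0, nat_lit 0], nat_lit 1271250, nat_lit 1271250, nat_lit 205650, nat_lit 780000, nat_lit 0, nat_lit 2147000, [nat_lit 1100000, nat_lit 1442500, nat_lit 1271250], [nat_lit 9, nat_lit 40,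 nat_lit 40, nat_lit 80, nat_lit 2, nat_lit 345, nat_lit 125, nat_lit 12]⟩,
 ⟨nat_lit 5477, nat_lit 5591, ⟨.ofNat (nat_lit 242495), .ofNat (nat_lit 401723), .ofNat (nat_lit 253169), .ofNat (nat_lit 412397), .ofNat (nat_lit 246166), .ofNat (nat_lit 403525), .ofNat (nat_lit 256844), .ofNat (nat_lit 414204)⟩, ⟨.ofNat (nat_lit 329215), .ofNat (nat_lit 405038), .ofNat (nat_lit 350563), .ofNat (nat_lit 426386), .ofNat (nat_lit 329142), .ofNat (nat_lit 404075), .ofNat (nat_lit 350499), .ofNat (nat_lit 425432)⟩⟩, [⟨nat_lit 0, nat_lit 100, nat_lit 96, nat_lit 69, nat_lit 125985697⟩]⟩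
noncomputable def p047_l59 : Lf2 := ⟨nat_lit 0, nat_lit 5, [nat_lit 4, nat_lit 5, nat_lit 5, nat_lit 20], false, nat_lit 200, nat_lit 240, nat_lit 0, nat_lit 336, ⟨nat_lit 0, nat_lit 0, nat_lit 1000, nat_lit 6, nat_lit 126, nat_lit 1000, nat_lit 160, nat_lit 1000, nat_lit 240000, nat_lit 335, nat_lit 147267, nat_lit 309, nat_lit 51203644, nat_lit 0, nat_lit 0, nat_lit 3768377, false, false⟩,
 nat_lit 0, nat_lit 6761, nat_lit 0, nat_lit 0, nat_lit 4117, nat_lit 0, nat_lit 0, nat_lit 0, nat_lit 0, nat_lit 0, nat_lit 0, nat_lit 0, nat_lit 0, nat_lit 0, nat_lit 117, nat_lit 1000000, nat_lit 0, nat_lit 0, [(nat_lit 9, [(nat_lit 6, nat_lit 1000)])],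
 ⟨p047_k17, nat_lit 0, nat_lit 0, nat_lit 164, nat_lit 0, nat_lit 206957, [nat_lit 2969600000, nat_lit 1600000000, nat_lit 226400000], [], [nat_lit 14672737273, nat_lit 15266492187, nat_lit 14447909809, nat_lit 14987462798, nat_lit 16241290451, nat_lit 16786862481, nat_lit 15887131512, nat_lit 16383843936], nat_lit 1271250, nat_lit 1271250, nat_lit 157850, nat_lit 780000, nat_lit 1271250, nat_lit 1271250, [nat_lit 1100000, nat_lit 1442500, nat_lit 1271250], [nat_lit 9, nat_lit 40, nat_lit 40, nat_lit 80, nat_lit 2, nat_lit 317, nat_lit 100, nat_lit 10]⟩, ⟨p047_k19, nat_lit 0, nat_lit 0, nat_lit 357, nat_lit 0, nat_lit 245430, [nat_lit 0, nat_lit 0, nat_lit 0], [], [nat_lit 0, nat_lit 0, nat_lit 0, nat_lit 0, nat_lit 0, nat_lit 0, nat_lit 0, nat_lit 0], nat_lit 1271250, nat_lit 1271250, nat_lit 157850, nat_lit 780000, nat_lit 0, nat_lit 2373000, [nat_lit 1100000, nat_lit 1442500, nat_lit 1271250], [nat_lit 11, nat_lit 40,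 nat_lit 40, nat_lit 80, nat_lit 1, nat_lit 428, nat_lit 200, nat_lit 13]⟩,
 ⟨nat_lit 5477, nat_lit 5701, ⟨.ofNat (nat_lit 212791), .ofNat (nat_lit 389244), .ofNat (nat_lit 234133), .ofNat (nat_lit 410586), .ofNat (nat_lit 220501), .ofNat (nat_lit 392847), .ofNat (nat_lit 241858), .ofNat (nat_lit 414204)⟩, ⟨.ofNat (nat_lit 350605), .ofNat (nat_lit 427324), .ofNat (nat_lit 371947), .ofNat (nat_lit 448666), .ofNat (nat_lit 350499), .ofNat (nat_lit 425432), .ofNat (nat_lit 371856), .ofNat (nat_lit 446789)⟩⟩, [⟨nat_lit 0, nat_lit 100, nat_lit 96, nat_lit 69, nat_lit 134395249⟩]⟩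
noncomputable def p047_l60 : Lf2 := ⟨nat_lit 0, nat_lit 10, [nat_lit 0, nat_lit 5, nat_lit 5, nat_lit 20], false, nat_lit 200, nat_lit 240, nat_lit 0, nat_lit 336, ⟨nat_lit 0, nat_lit 0, nat_lit 1000, nat_lit 6, nat_lit 126, nat_lit 1000, nat_lit 155, nat_lit 1000, nat_lit 228150, nat_lit 332, nat_lit 147267, nat_lit 309, nat_lit 51570681, nat_lit 0, nat_lit 0, nat_lit 3717607, false, false⟩,
 nat_lit 0, nat_lit 7228, nat_lit 0, nat_lit 0, nat_lit 4401, nat_lit 0, nat_lit 0, nat_lit 0, nat_lit 0, nat_lit 0, nat_lit 0, nat_lit 0, nat_lit 0, nat_lit 0, nat_lit 119, nat_lit 581200, nat_lit 0, nat_lit 0, [(nat_lit 9, [(nat_lit 5, nat_lit 698), (nat_lit 6, nat_lit 302)])],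
 ⟨p047_k2, nat_lit 0, nat_lit 0, nat_lit 171, nat_lit 0, nat_lit 134101, [nat_lit 3300902400, nat_lit 2158872001, nat_lit 54783999], [], [nat_lit 15068217605, nat_lit 15618892690, nat_lit 14430447751, nat_lit 14986115894, nat_lit 16420303516, nat_lit 16957139163, nat_lit 15894430136, nat_lit 16405079008], nat_lit 1271250, nat_lit 1271250, nat_lit 157850, nat_lit 780000, nat_lit 1271250, nat_lit 1271250, [nat_lit 1100000, nat_lit 1442500, nat_lit 1271250], [nat_lit 11, nat_lit 40, nat_lit 40, nat_lit 80, nat_lit 1, nat_lit 401, nat_lit 175, nat_lit 11]⟩, ⟨p047_k1, nat_lit 0, nat_lit 0, nat_lit 394, nat_lit 0, nat_lit 159651, [nat_lit 0, nat_lit 0, nat_lit 0], [], [nat_lit 0, nat_lit 0, nat_lit 0, nat_lit 0, nat_lit 0, nat_lit 0, nat_lit 0, nat_lit 0], nat_lit 1271250, nat_lit 1271250, nat_lit 157850, nat_lit 780000, nat_lit 0, nat_lit 2373000, [nat_lit 1100000, nat_lit 1442500, nat_lit 1271250], [nat_lit 48, nat_lit 40, nat_lit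 40, nat_lit 80, nat_lit 12, nat_lit 428, nat_lit 200, nat_lit 11]⟩,
 ⟨nat_lit 5477, nat_lit 5701, ⟨.ofNat (nat_lit 212791), .ofNat (nat_lit 389244), .ofNat (nat_lit 234133), .ofNat (nat_lit 410586), .ofNat (nat_lit 220501), .ofNat (nat_lit 392847), .ofNat (nat_lit 241858), .ofNat (nat_lit 414204)⟩, ⟨.ofNat (nat_lit 329263), .ofNat (nat_lit 405982), .ofNat (nat_lit 371947), .ofNat (nat_lit 448666), .ofNat (nat_lit 329142), .ofNat (nat_lit 404075), .ofNat (nat_lit 371856), .ofNat (nat_lit 446789)⟩⟩, [⟨nat_lit 0, nat_lit 100, nat_lit 96, nat_lit 69, nat_lit 142846290⟩]⟩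
noncomputable def p047_l61 : Lf2 := ⟨nat_lit 0, nat_lit 5, [nat_lit 4, nat_lit 5, nat_lit 5, nat_lit 20], false, nat_lit 200, nat_lit 240, nat_lit 0, nat_lit 160, ⟨nat_lit 538, nat_lit 0, nat_lit 462, nat_lit 6, nat_lit 139, nat_lit 462, nat_lit 155, nat_lit 462, nat_lit 228150, nat_lit 332, nat_lit 180267, nat_lit 319, nat_lit 50569136, nat_lit 0, nat_lit 0, nat_lit 3883812, false, false⟩,
 nat_lit 10577, nat_lit 0, nat_lit 0, nat_lit 0, nat_lit 6441, nat_lit 6156, nat_lit 909, nat_lit 0, nat_lit 0, nat_lit 982, nat_lit 0, nat_lit 0, nat_lit 0, nat_lit 0, nat_lit 0, nat_lit 462000, nat_lit 0, nat_lit 0, [(nat_lit 9, [(nat_lit 6, nat_lit 462)])],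
 ⟨p047_k17, nat_lit 0, nat_lit 0, nat_lit 260, nat_lit 0, nat_lit 420780, [nat_lit 3029235200, nat_lit 3020620001, nat_lit 3073102799], [], [nat_lit 17445393632, nat_lit 15792726426, nat_lit 16614802616, nat_lit 15096997068, nat_lit 16554715514, nat_lit 17110828872, nat_lit 15751610437, nat_lit 16254221824], nat_lit 1271250, nat_lit 1271250, nat_lit 230001, nat_lit 780000, nat_lit 1271250, nat_lit 1271250, [nat_lit 1100000, nat_lit 1442500, nat_lit 1271250], [nat_lit 9, nat_lit 40, nat_lit 40, nat_lit 80, nat_lit 2, nat_lit 317, nat_lit 100, nat_lit 10]⟩, ⟨p047_k16, nat_lit 0, nat_lit 0, nat_lit 389, nat_lit 0, nat_lit 444417, [nat_lit 2522144000, nat_lit 3362500000, nat_lit 4286784000], [], [nat_lit 17991465872, nat_lit 14785556504, nat_lit 8499291252, nat_lit 10313802960, nat_lit 10832674972, nat_lit 7892027644, nat_lit 13955375884, nat_lit 11093439172], nat_lit 1271250, nat_lit 1271250, nat_lit 230001, nat_lit 780000,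 nat_lit 0, nat_lit 1100001, [nat_lit 1100000, nat_lit 1442500, nat_lit 1271250], [nat_lit 9, nat_lit 40, nat_lit 40, nat_lit 80, nat_lit 2, nat_lit 289, nat_lit 75, nat_lit 10]⟩,
 ⟨nat_lit 5477, nat_lit 5701, ⟨.ofNat (nat_lit 257148), .ofNat (nat_lit 410586), .ofNat (nat_lit 278490), .ofNat (nat_lit 431928), .ofNat (nat_lit 264337), .ofNat (nat_lit 414204), .ofNat (nat_lit 285695), .ofNat (nat_lit 435561)⟩, ⟨.ofNat (nat_lit 329263), .ofNat (nat_lit 405982), .ofNat (nat_lit 371947), .ofNat (nat_lit 448666), .ofNat (nat_lit 329142), .ofNat (nat_lit 404075), .ofNat (nat_lit 371856), .ofNat (nat_lit 446789)⟩⟩, [⟨nat_lit 0, nat_lit 100, nat_lit 99, nat_lit 72, nat_lit 553811716⟩]⟩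
noncomputable def p047_l62 : Lf2 := ⟨nat_lit 0, nat_lit 10, [nat_lit 0, nat_lit 5, nat_lit 5, nat_lit 20], false, nat_lit 200, nat_lit 240, nat_lit 0, nat_lit 160, ⟨nat_lit 875, nat_lit 0, nat_lit 125, nat_lit 6, nat_lit 139, nat_lit 125, nat_lit 155, nat_lit 125, nat_lit 228150, nat_lit 332, nat_lit 180267, nat_lit 319, nat_lit 50569136, nat_lit 0, nat_lit 0, nat_lit 3883812, false, false⟩,
 nat_lit 13528, nat_lit 0, nat_lit 0, nat_lit 0, nat_lit 8238, nat_lit 7874, nat_lit 1935, nat_lit 0, nat_lit 0, nat_lit 95, nat_lit 0, nat_lit 0, nat_lit 0, nat_lit 0, nat_lit 0, nat_lit 125000, nat_lit 0, nat_lit 0, [(nat_lit 9, [(nat_lit 6, nat_lit 125)])],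
 ⟨p047_k2, nat_lit 0, nat_lit 0, nat_lit 196, nat_lit 0, nat_lit 235556, [nat_lit 4239200000, nat_lit 5415166667, nat_lit 7942100000], [], [nat_lit 15563317480, nat_lit 16316322783, nat_lit 13231901506, nat_lit 13916313771, nat_lit 17139598071, nat_lit 17837190760, nat_lit 14671094675, nat_lit 15288556735], nat_lit 1271250, nat_lit 1271250, nat_lit 230001, nat_lit 780000, nat_lit 1271250, nat_lit 1271250, [nat_lit 1100000, nat_lit 1442500, nat_lit 1271250], [nat_lit 11, nat_lit 40, nat_lit 40, nat_lit 80, nat_lit 1, nat_lit 401, nat_lit 175, nat_lit 11]⟩, ⟨p047_k0, nat_lit 0, nat_lit 0, nat_lit 351, nat_lit 0, nat_lit 249092, [nat_lit 4102000000, nat_lit 5468750000, nat_lit 8611750000], [], [nat_lit 26351142600, nat_lit 27746745918, nat_lit 24092984224, nat_lit 25358546134, nat_lit 23554483598, nat_lit 22434597262, nat_lit 27959742854, nat_lit 24299104506], nat_lit 1271250, nat_lit 1271250, nat_lit 230001, nat_lit 780000,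 nat_lit 0, nat_lit 1100001, [nat_lit 1100000, nat_lit 1442500, nat_lit 1271250], [nat_lit 11, nat_lit 40, nat_lit 40, nat_lit 80, nat_lit 1, nat_lit 373, nat_lit 150, nat_lit 11]⟩,
 ⟨nat_lit 5477, nat_lit 5701, ⟨.ofNat (nat_lit 257148), .ofNat (nat_lit 410586), .ofNat (nat_lit 278490), .ofNat (nat_lit 431928), .ofNat (nat_lit 264337), .ofNat (nat_lit 414204), .ofNat (nat_lit 285695), .ofNat (nat_lit 435561)⟩, ⟨.ofNat (nat_lit 329263), .ofNat (nat_lit 405982), .ofNat (nat_lit 371947), .ofNat (nat_lit 448666), .ofNat (nat_lit 329142), .ofNat (nat_lit 404075), .ofNat (nat_lit 371856), .ofNat (nat_lit 446789)⟩⟩, [⟨nat_lit 0, nat_lit 100, nat_lit 99, nat_lit 72, nat_lit 466810446⟩]⟩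
noncomputable def p047_l63 : Lf2 := ⟨nat_lit 0, nat_lit 5, [nat_lit 4, nat_lit 5, nat_lit 5, nat_lit 20], false, nat_lit 200, nat_lit 240, nat_lit 160, nat_lit 240, ⟨nat_lit 1000, nat_lit 0, nat_lit 0, nat_lit 0, nat_lit 0, nat_lit 0, nat_lit 0, nat_lit 0, nat_lit 0, nat_lit 0, nat_lit 0, nat_lit 0, nat_lit 0, nat_lit 0, nat_lit 0, nat_lit 0, false, false⟩,
 nat_lit 13404, nat_lit 0, nat_lit 0, nat_lit 0, nat_lit 8163, nat_lit 7802, nat_lit 2068, nat_lit 0, nat_lit 0, nat_lit 873, nat_lit 0, nat_lit 0, nat_lit 0, nat_lit 0, nat_lit 0, nat_lit 0, nat_lit 0, nat_lit 0, [],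
 ⟨p047_k17, nat_lit 0, nat_lit 0, nat_lit 260, nat_lit 0, nat_lit 420780, [nat_lit 4688000000, nat_lit 6250000000, nat_lit 7968000000], [], [nat_lit 18460215755, nat_lit 16488224334, nat_lit 17034677267, nat_lit 15111086724, nat_lit 17178059102, nat_lit 17807595096, nat_lit 15754350391, nat_lit 16319482432], nat_lit 1271250, nat_lit 1271250, nat_lit 230001, nat_lit 780000, nat_lit 1271250, nat_lit 1271250, [nat_lit 1100000, nat_lit 1442500, nat_lit 1271250], [nat_lit 9, nat_lit 40, nat_lit 40, nat_lit 80, nat_lit 2, nat_lit 317, nat_lit 100, nat_lit 10]⟩, ⟨p047_k16, nat_lit 0, nat_lit 0, nat_lit 269, nat_lit 0, nat_lit 444417, [nat_lit 4688000000, nat_lit 6250000000, nat_lit 7968000000], [], [nat_lit 28951473972, nat_lit 24888364016, nat_lit 19203838751, nat_lit 20215182707, nat_lit 22867019903, nat_lit 23796012347, nat_lit 22256779255, nat_lit 22071730043], nat_lit 1271250, nat_lit 1271250, nat_lit 230001, nat_lit 780000,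 nat_lit 1100001, nat_lit 1785000, [nat_lit 1100000, nat_lit 1442500, nat_lit 1271250], [nat_lit 9, nat_lit 40, nat_lit 40, nat_lit 80, nat_lit 2, nat_lit 317, nat_lit 100, nat_lit 10]⟩,
 zbF0, [⟨nat_lit 0, nat_lit 100, nat_lit 99, nat_lit 72, nat_lit 909346490⟩, ⟨nat_lit 0, nat_lit 100, nat_lit 98, nat_lit 64, nat_lit 53340460⟩]⟩
noncomputable def p047_l64 : Lf2 := ⟨nat_lit 0, nat_lit 10, [nat_lit 0, nat_lit 5, nat_lit 5, nat_lit 20], false, nat_lit 200, nat_lit 240, nat_lit 160, nat_lit 240, ⟨nat_lit 286, nat_lit 0, nat_lit 714, nat_lit 6, nat_lit 139, nat_lit 714, nat_lit 155, nat_lit 714, nat_lit 228150, nat_lit 332, nat_lit 180267, nat_lit 319, nat_lit 50569136, nat_lit 0, nat_lit 0, nat_lit 3883812, false, false⟩,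
 nat_lit 9105, nat_lit 0, nat_lit 0, nat_lit 0, nat_lit 5545, nat_lit 5299, nat_lit 383, nat_lit 0, nat_lit 0, nat_lit 177, nat_lit 0, nat_lit 0, nat_lit 0, nat_lit 0, nat_lit 37, nat_lit 714000, nat_lit 0, nat_lit 0, [(nat_lit 9, [(nat_lit 6, nat_lit 714)])],
 ⟨p047_k2, nat_lit 0, nat_lit 0, nat_lit 196, nat_lit 0, nat_lit 235556, [nat_lit 2716454400, nat_lit 2221432001, nat_lit 133284799], [], [nat_lit 14723308312, nat_lit 15332726894, nat_lit 13667763027, nat_lit 14226365064, nat_lit 16142601814, nat_lit 16741085900, nat_lit 14981124424, nat_lit 15534440160], nat_lit 1271250, nat_lit 1271250, nat_lit 230001, nat_lit 780000, nat_lit 1271250, nat_lit 1271250, [nat_lit 1100000, nat_lit 1442500, nat_lit 1271250], [nat_lit 11, nat_lit 40, nat_lit 40, nat_lit 80, nat_lit 1, nat_lit 401, nat_lit 175, nat_lit 11]⟩, ⟨p047_k0, nat_lit 0, nat_lit 0, nat_lit 201, nat_lit 0, nat_lit 249092, [nat_lit 1340768000, nat_lit 1787500000,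 nat_lit 2814812000], [], [nat_lit 8113199646, nat_lit 5353597024, nat_lit 2368322197, nat_lit 3113377835, nat_lit 5644427347, nat_lit 6302390495, nat_lit 3545159599, nat_lit 4133017295], nat_lit 1271250, nat_lit 1271250, nat_lit 230001, nat_lit 780000, nat_lit 1100001, nat_lit 1785000, [nat_lit 1100000, nat_lit 1442500, nat_lit 1271250], [nat_lit 11, nat_lit 40, nat_lit 40, nat_lit 80, nat_lit 1, nat_lit 401, nat_lit 175, nat_lit 11]⟩,
 ⟨nat_lit 5477, nat_lit 5701, ⟨.ofNat (nat_lit 257148), .ofNat (nat_lit 410586), .ofNat (nat_lit 278490), .ofNat (nat_lit 431928), .ofNat (nat_lit 264337), .ofNat (nat_lit 414204), .ofNat (nat_lit 285695), .ofNat (nat_lit 435561)⟩, ⟨.ofNat (nat_lit 329263), .ofNat (nat_lit 405982), .ofNat (nat_lit 371947), .ofNat (nat_lit 448666), .ofNat (nat_lit 329142), .ofNat (nat_lit 404075), .ofNat (nat_lit 371856), .ofNat (nat_lit 446789)⟩⟩, [⟨nat_lit 0, nat_lit 100, nat_lit 99, nat_lit 72, nat_lit 475727183⟩]⟩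
noncomputable def p047_l65 : Lf2 := ⟨nat_lit 0, nat_lit 10, [nat_lit 0, nat_lit 5, nat_lit 5, nat_lit 20], false, nat_lit 200, nat_lit 240, nat_lit 240, nat_lit 296, ⟨nat_lit 536, nat_lit 0, nat_lit 464, nat_lit 6, nat_lit 139, nat_lit 464, nat_lit 151, nat_lit 464, nat_lit 212817, nat_lit 328, nat_lit 180267, nat_lit 319, nat_lit 50923142, nat_lit 0, nat_lit 0, nat_lit 3833295, false, false⟩,
 nat_lit 9999, nat_lit 1485, nat_lit 0, nat_lit 0, nat_lit 6994, nat_lit 5820, nat_lit 1045, nat_lit 0, nat_lit 0, nat_lit 694, nat_lit 0, nat_lit 0, nat_lit 0, nat_lit 0, nat_lit 0, nat_lit 185600, nat_lit 0, nat_lit 0, [(nat_lit 9, [(nat_lit 5, nat_lit 464)])],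
 ⟨p047_k23, nat_lit 0, nat_lit 0, nat_lit 323, nat_lit 0, nat_lit 420780, [nat_lit 3221017600, nat_lit 3667462400, nat_lit 4149276800], [], [nat_lit 17089471071, nat_lit 15636969248, nat_lit 15726909327, nat_lit 14137532772, nat_lit 16630167080, nat_lit 17333567572, nat_lit 14991958448, nat_lit 15632433460], nat_lit 1271250, nat_lit 1271250, nat_lit 230001, nat_lit 780000, nat_lit 1271250, nat_lit 1271250, [nat_lit 1100000, nat_lit 1785000, nat_lit 1271250], [nat_lit 29, nat_lit 40, nat_lit 40, nat_lit 80, nat_lit 17, nat_lit 401, nat_lit 175, nat_lit 11]⟩, ⟨p047_k6, nat_lit 0, nat_lit 0, nat_lit 338, nat_lit 0, nat_lit 444417, [nat_lit 2512768000, nat_lit 4270848000, nat_lit 5275312000], [], [nat_lit 10327416672, nat_lit 11181354280, nat_lit 8592468800, nat_lit 9171583520, nat_lit 12790835558, nat_lit 13967185344, nat_lit 10592362324, nat_lit 11464696656], nat_lit 1271250, nat_lit 1271250, nat_lit 230001, nat_lit 780000,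 nat_lit 1271250, nat_lit 1271250, [nat_lit 1100000, nat_lit 1785000, nat_lit 1271250], [nat_lit 29, nat_lit 40, nat_lit 40, nat_lit 80, nat_lit 17, nat_lit 401, nat_lit 175, nat_lit 11]⟩,
 ⟨nat_lit 5477, nat_lit 5701, ⟨.ofNat (nat_lit 257148), .ofNat (nat_lit 410586), .ofNat (nat_lit 278490), .ofNat (nat_lit 431928), .ofNat (nat_lit 264337), .ofNat (nat_lit 414204), .ofNat (nat_lit 285695), .ofNat (nat_lit 435561)⟩, ⟨.ofNat (nat_lit 329263), .ofNat (nat_lit 405982), .ofNat (nat_lit 350605), .ofNat (nat_lit 427324), .ofNat (nat_lit 329142), .ofNat (nat_lit 404075), .ofNat (nat_lit 350499), .ofNat (nat_lit 425432)⟩⟩, [⟨nat_lit 0, nat_lit 100, nat_lit 99, nat_lit 72, nat_lit 624327229⟩, ⟨nat_lit 19, nat_lit 100, nat_lit 100, nat_lit 71, nat_lit 489816591⟩]⟩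
noncomputable def p047_l66 : Lf2 := ⟨nat_lit 0, nat_lit 10, [nat_lit 0, nat_lit 5, nat_lit 5, nat_lit 20], false, nat_lit 200, nat_lit 240, nat_lit 240, nat_lit 320, ⟨nat_lit 323, nat_lit 0, nat_lit 677, nat_lit 6, nat_lit 139, nat_lit 677, nat_lit 160, nat_lit 677, nat_lit 240000, nat_lit 335, nat_lit 180267, nat_lit 319, nat_lit 50212796, nat_lit 0, nat_lit 0, nat_lit 3933128, false, false⟩,
 nat_lit 5998, nat_lit 3154, nat_lit 0, nat_lit 0, nat_lit 5573, nat_lit 3491, nat_lit 424, nat_lit 0, nat_lit 0, nat_lit 409, nat_lit 0, nat_lit 0, nat_lit 0, nat_lit 0, nat_lit 16, nat_lit 677000, nat_lit 0, nat_lit 0, [(nat_lit 9, [(nat_lit 6, nat_lit 677)])],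
 ⟨p047_k23, nat_lit 0, nat_lit 0, nat_lit 247, nat_lit 0, nat_lit 319385, [nat_lit 2654656800, nat_lit 1163704267, nat_lit 141600], [], [nat_lit 14725848536, nat_lit 15300681315, nat_lit 14058520479, nat_lit 14581796313, nat_lit 16131973577, nat_lit 16756625091, nat_lit 15457759928, nat_lit 16025921184], nat_lit 1271250, nat_lit 1271250, nat_lit 230001, nat_lit 780000, nat_lit 1271250, nat_lit 1271250, [nat_lit 1100000, nat_lit 1785000, nat_lit 1271250], [nat_lit 29, nat_lit 40, nat_lit 40, nat_lit 80, nat_lit 17, nat_lit 401, nat_lit 175, nat_lit 11]⟩, ⟨p047_k6, nat_lit 0, nat_lit 0, nat_lit 298, nat_lit 0, nat_lit 337739, [nat_lit 1514224000, nat_lit 2573664000, nat_lit 3178966000], [], [nat_lit 6279011620, nat_lit 6789043300, nat_lit 5240509130, nat_lit 5588649588, nat_lit 8751548092, nat_lit 9389675888, nat_lit 7218810046, nat_lit 7805663364], nat_lit 1271250, nat_lit 1271250, nat_lit 230001, nat_lit 780000, nat_lit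 1271250, nat_lit 1271250, [nat_lit 1100000, nat_lit 1785000, nat_lit 1271250], [nat_lit 29, nat_lit 40, nat_lit 40, nat_lit 80, nat_lit 17, nat_lit 428, nat_lit 200, nat_lit 12]⟩,
 ⟨nat_lit 5477, nat_lit 5701, ⟨.ofNat (nat_lit 257148), .ofNat (nat_lit 410586), .ofNat (nat_lit 278490), .ofNat (nat_lit 431928), .ofNat (nat_lit 264337), .ofNat (nat_lit 414204), .ofNat (nat_lit 285695), .ofNat (nat_lit 435561)⟩, ⟨.ofNat (nat_lit 350605), .ofNat (nat_lit 427324), .ofNat (nat_lit 371947), .ofNat (nat_lit 448666), .ofNat (nat_lit 350499), .ofNat (nat_lit 425432), .ofNat (nat_lit 371856), .ofNat (nat_lit 446789)⟩⟩, [⟨nat_lit 0, nat_lit 100, nat_lit 99, nat_lit 72, nat_lit 403829567⟩, ⟨nat_lit 19, nat_lit 100, nat_lit 93, nat_lit 81, nat_lit 298013403⟩]⟩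
noncomputable def b_V_600_600_10_44 : St := ⟨true, nat_lit 1, nat_lit 1, nat_lit 1, nat_lit 80, nat_lit 260, nat_lit 280, nat_lit 240, nat_lit 280, nat_lit 24, nat_lit 120, nat_lit 40, nat_lit 80, nat_lit 200, nat_lit 240, nat_lit 0, nat_lit 336, nat_lit 0, nat_lit 40, nat_lit 0, nat_lit 0, nat_lit 0, nat_lit 0⟩
theorem d_V_600_600_10_44 (h : EB TB.env) : Dead b_V_600_600_10_44 := chkB_sound0 h (T :=
(.spl (nat_lit 0) (nat_lit 270)
(.ord (.spl (nat_lit 6) (nat_lit 20)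
(.spl (nat_lit 3) (nat_lit 60)
(.trX (nat_lit 19) (nat_lit 100) (nat_lit 85) (nat_lit 73) (nat_lit 312) (.spl (nat_lit 1) (nat_lit 260)
(.spl (nat_lit 2) (nat_lit 80)
(.spl (nat_lit 2) (nat_lit 40)
(.leaf p047_l46)
(.leaf p047_l47))
(.leaf p047_l48))
(.trZ (nat_lit 0) (nat_lit 100) (nat_lit 100) (nat_lit 60) (nat_lit 36) (.trX (nat_lit 19) (nat_lit 100) (nat_lit 92) (nat_lit 75) (nat_lit 296) (.spl (nat_lit 5) (nat_lit 160)
(.leaf p047_l49)
(.spl (nat_lit 1) (nat_lit 265)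
(.leaf p047_l50)
(.ord (.trZ (nat_lit 0) (nat_lit 100) (nat_lit 100) (nat_lit 65) (nat_lit 40) (.trX (nat_lit 19) (nat_lit 100) (nat_lit 95) (nat_lit 76) (nat_lit 292) (.leaf p047_l51))))))))))
(.spl (nat_lit 1) (nat_lit 260)
(.leaf p047_l52)
(.trZ (nat_lit 0) (nat_lit 100) (nat_lit 100) (nat_lit 60) (nat_lit 36) (.trX (nat_lit 19) (nat_lit 100) (nat_lit 85) (nat_lit 84) (nat_lit 320) (.leaf p047_l53)))))
(.spl (nat_lit 1) (nat_lit 260)
(.leaf p047_l54)
(.trZ (nat_lit 0) (nat_lit 100) (nat_lit 100) (nat_lit 60) (nat_lit 36) (.trX (nat_lit 19) (nat_lit 100) (nat_lit 85) (nat_lit 84) (nat_lit 320) (.leaf p047_l55))))))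
(.trZ (nat_lit 0) (nat_lit 100) (nat_lit 96) (nat_lit 54) (nat_lit 28) (.spl (nat_lit 1) (nat_lit 260)
(.spl (nat_lit 6) (nat_lit 20)
(.spl (nat_lit 3) (nat_lit 60)
(.trX (nat_lit 19) (nat_lit 100) (nat_lit 85) (nat_lit 73) (nat_lit 312) (.spl (nat_lit 1) (nat_lit 250)
(.leaf p047_l56)
(.trZ (nat_lit 0) (nat_lit 100) (nat_lit 97) (nat_lit 59) (nat_lit 36) (.trX (nat_lit 19) (nat_lit 100) (nat_lit 88) (nat_lit 74) (nat_lit 304) (.spl (nat_lit 0) (nat_lit 275)
(.leaf p047_l57)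
(.leaf p047_l58))))))
(.leaf p047_l59))
(.leaf p047_l60))
(.trZ (nat_lit 0) (nat_lit 100) (nat_lit 98) (nat_lit 64) (nat_lit 40) (.trX (nat_lit 19) (nat_lit 100) (nat_lit 85) (nat_lit 84) (nat_lit 320) (.spl (nat_lit 5) (nat_lit 160)
(.spl (nat_lit 6) (nat_lit 20)
(.leaf p047_l61)
(.leaf p047_l62))
(.spl (nat_lit 5) (nat_lit 240)
(.spl (nat_lit 6) (nat_lit 20)
(.leaf p047_l63)
(.leaf p047_l64))
(.spl (nat_lit 3) (nat_lit 60)
(.trX (nat_lit 19) (nat_lit 100) (nat_lit 92) (nat_lit 75) (nat_lit 296) (.leaf p047_l65))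
(.leaf p047_l66)))))))))) (by decide +kernel)
noncomputable def p047_l67 : Lf2 := ⟨nat_lit 0, nat_lit 10, [nat_lit 0, nat_lit 5, nat_lit 5, nat_lit 20], false, nat_lit 160, nat_lit 240, nat_lit 0, nat_lit 160, ⟨nat_lit 814, nat_lit 0, nat_lit 186, nat_lit 6, nat_lit 180, nat_lit 186, nat_lit 140, nat_lit 186, nat_lit 183750, nat_lit 320, nat_lit 25370, nat_lit 254, nat_lit 48428697, nat_lit 0, nat_lit 0, nat_lit 4162402, false, false⟩,
 nat_lit 10410, nat_lit 6847, nat_lit 0, nat_lit 0, nat_lit 10044, nat_lit 5511, nat_lit 1601, nat_lit 0, nat_lit 0, nat_lit 1266, nat_lit 0, nat_lit 0, nat_lit 0, nat_lit 0, nat_lit 0, nat_lit 186000, nat_lit 0, nat_lit 0, [(nat_lit 9, [(nat_lit 6, nat_lit 186)])],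
 ⟨p047_k0, nat_lit 0, nat_lit 0, nat_lit 295, nat_lit 0, nat_lit 472390, [nat_lit 4020185601, nat_lit 5007768000, nat_lit 7014948800], [], [nat_lit 10332915871, nat_lit 12029117591, nat_lit 10593080127, nat_lit 12164809799, nat_lit 16423881836, nat_lit 14953895168, nat_lit 20897455988, nat_lit 16099557716], nat_lit 1271250, nat_lit 1271250, nat_lit 780000, nat_lit 1100001, nat_lit 1100001, nat_lit 1785000, [nat_lit 1100000, nat_lit 1442500, nat_lit 1271250], [nat_lit 11, nat_lit 40, nat_lit 40, nat_lit 80, nat_lit 1, nat_lit 401, nat_lit 175, nat_lit 11]⟩, ⟨p047_k1, nat_lit 0, nat_lit 0, nat_lit 529, nat_lit 0, nat_lit 531831, [nat_lit 3816032000, nat_lit 5087500000, nat_lit 9663808000], [], [nat_lit 33581424008, nat_lit 27753673772, nat_lit 27753673772, nat_lit 26682210562, nat_lit 26330311084, nat_lit 23939708734, nat_lit 29232703852, nat_lit 24108554008], nat_lit 1271250, nat_lit 1271250, nat_lit 780000, nat_lit 1100001,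 nat_lit 0, nat_lit 1100001, [nat_lit 1100000, nat_lit 1442500, nat_lit 1271250], [nat_lit 48, nat_lit 40, nat_lit 40, nat_lit 80, nat_lit 12, nat_lit 373, nat_lit 150, nat_lit 10]⟩,
 ⟨nat_lit 5477, nat_lit 5917, ⟨.ofNat (nat_lit 385610), .ofNat (nat_lit 464143), .ofNat (nat_lit 428288), .ofNat (nat_lit 506809), .ofNat (nat_lit 392847), .ofNat (nat_lit 467780), .ofNat (nat_lit 435561), .ofNat (nat_lit 510480)⟩, ⟨.ofNat (nat_lit 250751), .ofNat (nat_lit 407818), .ofNat (nat_lit 293429), .ofNat (nat_lit 450496), .ofNat (nat_lit 254209), .ofNat (nat_lit 404075), .ofNat (nat_lit 296923), .ofNat (nat_lit 446789)⟩⟩, []⟩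
noncomputable def p047_l68 : Lf2 := ⟨nat_lit 0, nat_lit 10, [nat_lit 0, nat_lit 5, nat_lit 5, nat_lit 20], false, nat_lit 160, nat_lit 240, nat_lit 160, nat_lit 336, ⟨nat_lit 1000, nat_lit 0, nat_lit 0, nat_lit 0, nat_lit 0, nat_lit 0, nat_lit 0, nat_lit 0, nat_lit 0, nat_lit 0, nat_lit 0, nat_lit 0, nat_lit 0, nat_lit 0, nat_lit 0, nat_lit 0, false, false⟩,
 nat_lit 21312, nat_lit 0, nat_lit 0, nat_lit 0, nat_lit 12405, nat_lit 11282, nat_lit 1873, nat_lit 0, nat_lit 0, nat_lit 1678, nat_lit 0, nat_lit 0, nat_lit 0, nat_lit 0, nat_lit 0, nat_lit 0, nat_lit 0, nat_lit 0, [],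
 ⟨p047_k0, nat_lit 0, nat_lit 0, nat_lit 295, nat_lit 0, nat_lit 472390, [nat_lit 4688000000, nat_lit 6250000000, nat_lit 9842000000], [], [nat_lit 9639651145, nat_lit 11588786795, nat_lit 9737671365, nat_lit 11537327255, nat_lit 14612485825, nat_lit 14665615975, nat_lit 19836758815, nat_lit 14941620580], nat_lit 1271250, nat_lit 1271250, nat_lit 780000, nat_lit 1100001, nat_lit 1100001, nat_lit 1785000, [nat_lit 1100000, nat_lit 1442500, nat_lit 1271250], [nat_lit 11, nat_lit 40, nat_lit 40, nat_lit 80, nat_lit 1, nat_lit 401, nat_lit 175, nat_lit 11]⟩, ⟨p047_k1, nat_lit 0, nat_lit 0, nat_lit 378, nat_lit 0, nat_lit 531831, [nat_lit 4688000000, nat_lit 6250000000, nat_lit 11872000000], [], [nat_lit 20378789048, nat_lit 18323692650, nat_lit 24856472872, nat_lit 18060819242, nat_lit 25125049119, nat_lit 26781228738, nat_lit 24288112684, nat_lit 26297448029], nat_lit 1271250, nat_lit 1271250, nat_lit 780000, nat_lit 1100001,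 nat_lit 1271250, nat_lit 1271250, [nat_lit 1100000, nat_lit 1442500, nat_lit 1271250], [nat_lit 48, nat_lit 40, nat_lit 40, nat_lit 80, nat_lit 12, nat_lit 428, nat_lit 200, nat_lit 11]⟩,
 zbF0, [⟨nat_lit 7, nat_lit 92, nat_lit 100, nat_lit 75, nat_lit 624852431⟩]⟩
noncomputable def b_V_600_600_10_45 : St := ⟨true, nat_lit 1, nat_lit 1, nat_lit 1, nat_lit 80, nat_lit 260, nat_lit 280, nat_lit 240, nat_lit 280, nat_lit 120, nat_lit 160, nat_lit 40, nat_lit 80, nat_lit 160, nat_lit 240, nat_lit 0, nat_lit 336, nat_lit 0, nat_lit 40, nat_lit 0, nat_lit 0, nat_lit 0, nat_lit 0⟩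
theorem d_V_600_600_10_45 (h : EB TB.env) : Dead b_V_600_600_10_45 := chkB_sound0 h (T :=
(.spl (nat_lit 5) (nat_lit 160)
(.leaf p047_l67)
(.leaf p047_l68))) (by decide +kernel)
noncomputable def p047_l69 : Lf2 := ⟨nat_lit 0, nat_lit 10, [nat_lit 0, nat_lit 5, nat_lit 5, nat_lit 20], false, nat_lit 160, nat_lit 200, nat_lit 0, nat_lit 160, ⟨nat_lit 1000, nat_lit 0, nat_lit 0, nat_lit 0, nat_lit 0, nat_lit 0, nat_lit 0, nat_lit 0, nat_lit 0, nat_lit 0, nat_lit 0, nat_lit 0, nat_lit 0, nat_lit 0, nat_lit 0, nat_lit 0, false, false⟩,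
 nat_lit 13289, nat_lit 0, nat_lit 0, nat_lit 0, nat_lit 7735, nat_lit 7035, nat_lit 999, nat_lit 0, nat_lit 0, nat_lit 867, nat_lit 0, nat_lit 0, nat_lit 0, nat_lit 0, nat_lit 0, nat_lit 0, nat_lit 0, nat_lit 0, [],
 ⟨p047_k0, nat_lit 0, nat_lit 0, nat_lit 284, nat_lit 0, nat_lit 472390, [nat_lit 4688000000, nat_lit 6250000000, nat_lit 9842000000], [], [nat_lit 25001822835, nat_lit 20973605005, nat_lit 25991058905, nat_lit 22296142225, nat_lit 21517877460, nat_lit 21042623685, nat_lit 30667728730, nat_lit 27022261905], nat_lit 1271250, nat_lit 1271250, nat_lit 1100001, nat_lit 1785000, nat_lit 1100001, nat_lit 1442500, [nat_lit 1100000, nat_lit 1442500, nat_lit 1271250], [nat_lit 11, nat_lit 40, nat_lit 40, nat_lit 80, nat_lit 1, nat_lit 428, nat_lit 200, nat_lit 12]⟩, ⟨p047_k1, nat_lit 0, nat_lit 0, nat_lit 515, nat_lit 0, nat_lit 531831, [nat_lit 4688000000, nat_lit 6250000000, nat_lit 11872000000], [], [nat_lit 40096226400,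 nat_lit 35337483505, nat_lit 35246673685, nat_lit 36294541425, nat_lit 30607528825, nat_lit 31642781325, nat_lit 31494319905, nat_lit 32336366305], nat_lit 1271250, nat_lit 1271250, nat_lit 1100001, nat_lit 1785000, nat_lit 0, nat_lit 1100001, [nat_lit 1100000, nat_lit 1442500, nat_lit 1271250], [nat_lit 48, nat_lit 40, nat_lit 40, nat_lit 80, nat_lit 12, nat_lit 401, nat_lit 175, nat_lit 10]⟩,
 zbF0, []⟩
noncomputable def p047_l70 : Lf2 := ⟨nat_lit 0, nat_lit 10, [nat_lit 0, nat_lit 5, nat_lit 5, nat_lit 20], false, nat_lit 160, nat_lit 200, nat_lit 160, nat_lit 336, ⟨nat_lit 1000, nat_lit 0, nat_lit 0, nat_lit 0, nat_lit 0, nat_lit 0, nat_lit 0, nat_lit 0, nat_lit 0, nat_lit 0, nat_lit 0, nat_lit 0, nat_lit 0, nat_lit 0, nat_lit 0, nat_lit 0, false, false⟩,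
 nat_lit 14373, nat_lit 0, nat_lit 0, nat_lit 0, nat_lit 8366, nat_lit 7609, nat_lit 698, nat_lit 0, nat_lit 0, nat_lit 1902, nat_lit 0, nat_lit 0, nat_lit 0, nat_lit 0, nat_lit 0, nat_lit 0, nat_lit 0, nat_lit 0, [],
 ⟨p047_k0, nat_lit 0, nat_lit 0, nat_lit 284, nat_lit 0, nat_lit 472390, [nat_lit 4688000000, nat_lit 6250000000, nat_lit 9842000000], [], [nat_lit 25216753226, nat_lit 20859924478, nat_lit 25506564918, nat_lit 22773227494, nat_lit 20780234476, nat_lit 21517312990, nat_lit 30452984088, nat_lit 26510130118], nat_lit 1271250, nat_lit 1271250, nat_lit 1100001, nat_lit 1785000, nat_lit 1100001, nat_lit 1442500, [nat_lit 1100000, nat_lit 1442500, nat_lit 1271250], [nat_lit 11, nat_lit 40, nat_lit 40, nat_lit 80, nat_lit 1, nat_lit 428, nat_lit 200, nat_lit 12]⟩, ⟨p047_k1, nat_lit 0, nat_lit 0, nat_lit 365, nat_lit 0, nat_lit 531831, [nat_lit 4688000000, nat_lit 6250000000, nat_lit 11872000000], [], [nat_lit 36282910560,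 nat_lit 28236575676, nat_lit 30511363732, nat_lit 23264175134, nat_lit 25873204926, nat_lit 26878535119, nat_lit 26707930704, nat_lit 27933287377], nat_lit 1271250, nat_lit 1271250, nat_lit 1100001, nat_lit 1785000, nat_lit 1271250, nat_lit 1271250, [nat_lit 1100000, nat_lit 1442500, nat_lit 1271250], [nat_lit 48, nat_lit 40, nat_lit 40, nat_lit 80, nat_lit 12, nat_lit 456, nat_lit 225, nat_lit 11]⟩,
 zbF0, [⟨nat_lit 7, nat_lit 92, nat_lit 100, nat_lit 75, nat_lit 23964799⟩]⟩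
noncomputable def p047_l71 : Lf2 := ⟨nat_lit 0, nat_lit 10, [nat_lit 0, nat_lit 5, nat_lit 5, nat_lit 20], false, nat_lit 200, nat_lit 240, nat_lit 0, nat_lit 336, ⟨nat_lit 539, nat_lit 0, nat_lit 461, nat_lit 6, nat_lit 226, nat_lit 461, nat_lit 156, nat_lit 461, nat_lit 228150, nat_lit 332, nat_lit 56426, nat_lit 200, nat_lit 43490727, nat_lit 0, nat_lit 0, nat_lit 4706900, false, false⟩,
 nat_lit 8291, nat_lit 2934, nat_lit 0, nat_lit 0, nat_lit 6533, nat_lit 4389, nat_lit 1105, nat_lit 0, nat_lit 0, nat_lit 375, nat_lit 0, nat_lit 0, nat_lit 0, nat_lit 0, nat_lit 0, nat_lit 461000, nat_lit 0, nat_lit 0, [(nat_lit 9, [(nat_lit 6, nat_lit 461)])],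
 ⟨p047_k0, nat_lit 0, nat_lit 0, nat_lit 281, nat_lit 0, nat_lit 472390, [nat_lit 3032825600, nat_lit 3171134667, nat_lit 2849308533], [], [nat_lit 15196227823, nat_lit 14703029528, nat_lit 21569701861, nat_lit 18490731626, nat_lit 14963642872, nat_lit 16019789942, nat_lit 17953709982, nat_lit 19329111984], nat_lit 1271250, nat_lit 1271250, nat_lit 1100001, nat_lit 1785000, nat_lit 1271250, nat_lit 1271250, [nat_lit 1100000, nat_lit 1442500, nat_lit 1271250], [nat_lit 11, nat_lit 40, nat_lit 40, nat_lit 80, nat_lit 1, nat_lit 428, nat_lit 200, nat_lit 12]⟩, ⟨p047_k1, nat_lit 0, nat_lit 0, nat_lit 515, nat_lit 0, nat_lit 531831, [nat_lit 2526832000, nat_lit 3368750000, nat_lit 6399008000], [], [nat_lit 22521804228, nat_lit 18000555349, nat_lit 17908656773, nat_lit 18629077397, nat_lit 21311353510, nat_lit 17251675980, nat_lit 16984978079, nat_lit 17572544258], nat_lit 1271250, nat_lit 1271250, nat_lit 1271250, nat_lit 1271250,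 nat_lit 0, nat_lit 2373000, [nat_lit 1100000, nat_lit 1442500, nat_lit 1271250], [nat_lit 48, nat_lit 40, nat_lit 40, nat_lit 80, nat_lit 12, nat_lit 456, nat_lit 225, nat_lit 12]⟩,
 ⟨nat_lit 5477, nat_lit 5917, ⟨.ofNat (nat_lit 464143), .ofNat (nat_lit 621176), .ofNat (nat_lit 506809), .ofNat (nat_lit 663838), .ofNat (nat_lit 467780), .ofNat (nat_lit 617611), .ofNat (nat_lit 510480), .ofNat (nat_lit 660309)⟩, ⟨.ofNat (nat_lit 329284), .ofNat (nat_lit 407818), .ofNat (nat_lit 371963), .ofNat (nat_lit 450496), .ofNat (nat_lit 329142), .ofNat (nat_lit 404075), .ofNat (nat_lit 371856), .ofNat (nat_lit 446789)⟩⟩, [⟨nat_lit 7, nat_lit 92, nat_lit 100, nat_lit 75, nat_lit 112185875⟩]⟩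
noncomputable def b_V_600_600_10_46 : St := ⟨true, nat_lit 1, nat_lit 1, nat_lit 1, nat_lit 80, nat_lit 260, nat_lit 280, nat_lit 240, nat_lit 280, nat_lit 160, nat_lit 240, nat_lit 40, nat_lit 80, nat_lit 160, nat_lit 240, nat_lit 0, nat_lit 336, nat_lit 0, nat_lit 40, nat_lit 0, nat_lit 0, nat_lit 0, nat_lit 0⟩
theorem d_V_600_600_10_46 (h : EB TB.env) : Dead b_V_600_600_10_46 := chkB_sound0 h (T :=
(.spl (nat_lit 4) (nat_lit 200)
(.spl (nat_lit 5) (nat_lit 160)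
(.leaf p047_l69)
(.leaf p047_l70))
(.leaf p047_l71))) (by decide +kernel)
noncomputable def p047_l72 : Lf2 := ⟨nat_lit 0, nat_lit 3, [nat_lit 45, nat_lit 5, nat_lit 5, nat_lit 20], true, nat_lit 240, nat_lit 312, nat_lit 0, nat_lit 312, ⟨nat_lit 0, nat_lit 1000, nat_lit 0, nat_lit 6, nat_lit 96, nat_lit 1000, nat_lit 198, nat_lit 0, nat_lit 0, nat_lit 0, nat_lit 0, nat_lit 0, nat_lit 49788087, nat_lit 4210035, nat_lit 13001878, nat_lit 3778261, false, false⟩,
 nat_lit 0, nat_lit 1382, nat_lit 0, nat_lit 174, nat_lit 731, nat_lit 0, nat_lit 0, nat_lit 0, nat_lit 281, nat_lit 0, nat_lit 0, nat_lit 0, nat_lit 0, nat_lit 12361211110053, nat_lit 0, nat_lit 250000, nat_lit 0, nat_lit 0, [(nat_lit 6, [(nat_lit 0, nat_lit 1000)])],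
 ⟨p047_k24, nat_lit 0, nat_lit 0, nat_lit 0, nat_lit 0, nat_lit 132521, [nat_lit 1564000000, nat_lit 2639600001, nat_lit 3087600001, nat_lit 3486799999], [], [nat_lit 12906781274, nat_lit 13336417596, nat_lit 13710055604, nat_lit 14123874841, nat_lit 16192287260, nat_lit 16582817705, nat_lit 16768221605, nat_lit 17147263135], nat_lit 1271250, nat_lit 1271250, nat_lit 88400, nat_lit 490000, nat_lit 1271250, nat_lit 1271250, [nat_lit 490000, nat_lit 1100000, nat_lit 1442500, nat_lit 1271250], [nat_lit 98, nat_lit 40, nat_lit 20, nat_lit 40]⟩, C1.Rw.none,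
 ⟨nat_lit 6123, nat_lit 6325, ⟨.ofNat (nat_lit 164319), .ofNat (nat_lit 295942), .ofNat (nat_lit 175003), .ofNat (nat_lit 306625), .ofNat (nat_lit 172944), .ofNat (nat_lit 301553), .ofNat (nat_lit 183618), .ofNat (nat_lit 312227)⟩, ⟨.ofNat (nat_lit 411320), .ofNat (nat_lit 559393), .ofNat (nat_lit 432688), .ofNat (nat_lit 580758), .ofNat (nat_lit 409594), .ofNat (nat_lit 554277), .ofNat (nat_lit 430942), .ofNat (nat_lit 575623)⟩⟩, [⟨nat_lit 0, nat_lit 100, nat_lit 100, nat_lit 50, nat_lit 41272731⟩]⟩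
noncomputable def p047_l73 : Lf2 := ⟨nat_lit 0, nat_lit 3, [nat_lit 45, nat_lit 5, nat_lit 5, nat_lit 20], false, nat_lit 240, nat_lit 312, nat_lit 0, nat_lit 160, ⟨nat_lit 1000, nat_lit 0, nat_lit 0, nat_lit 0, nat_lit 0, nat_lit 0, nat_lit 0, nat_lit 0, nat_lit 0, nat_lit 0, nat_lit 0, nat_lit 0, nat_lit 0, nat_lit 0, nat_lit 0, nat_lit 0, false, false⟩,
 nat_lit 17695, nat_lit 0, nat_lit 0, nat_lit 9598, nat_lit 8220, nat_lit 9367, nat_lit 2498, nat_lit 0, nat_lit 0, nat_lit 3013, nat_lit 0, nat_lit 0, nat_lit 0, nat_lit 13438611729070, nat_lit 0, nat_lit 0, nat_lit 0, nat_lit 0, [],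
 ⟨p047_k25, nat_lit 0, nat_lit 0, nat_lit 0, nat_lit 0, nat_lit 132521, [nat_lit 4688000000, nat_lit 5449500000, nat_lit 7089500001, nat_lit 7968000000], [], [nat_lit 18341819451, nat_lit 19122846182, nat_lit 16595660871, nat_lit 17269568730, nat_lit 24456170251, nat_lit 25236737945, nat_lit 22540472951, nat_lit 23177334811], nat_lit 1271250, nat_lit 1271250, nat_lit 88400, nat_lit 230001, nat_lit 1271250, nat_lit 1271250, [nat_lit 1100000, nat_lit 1271250, nat_lit 1271250, nat_lit 1271250], [nat_lit 129, nat_lit 40, nat_lit 20, nat_lit 40]⟩, ⟨p047_k25, nat_lit 0, nat_lit 0, nat_lit 0, nat_lit 0, nat_lit 132521, [nat_lit 4688000000, nat_lit 5449500000, nat_lit 7089500000, nat_lit 7968000000], [], [nat_lit 20182042648, nat_lit 21107163908, nat_lit 18045912928, nat_lit 18973111903, nat_lit 14647800337, nat_lit 15429898843, nat_lit 14396370655, nat_lit 13692563180], nat_lit 1271250, nat_lit 1271250, nat_lit 88400, nat_lit 230001,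 nat_lit 0, nat_lit 1100001, [nat_lit 1100000, nat_lit 1271250, nat_lit 1271250, nat_lit 1271250], [nat_lit 129, nat_lit 40, nat_lit 20, nat_lit 40]⟩,
 zbF0, [⟨nat_lit 0, nat_lit 100, nat_lit 100, nat_lit 45, nat_lit 1387514818⟩, ⟨nat_lit 4, nat_lit 90, nat_lit 100, nat_lit 68, nat_lit 980417437⟩]⟩
noncomputable def p047_l74 : Lf2 := ⟨nat_lit 0, nat_lit 3, [nat_lit 45, nat_lit 5, nat_lit 5, nat_lit 20], false, nat_lit 240, nat_lit 312, nat_lit 160, nat_lit 240, ⟨nat_lit 1000, nat_lit 0, nat_lit 0, nat_lit 0, nat_lit 0, nat_lit 0, nat_lit 0, nat_lit 0, nat_lit 0, nat_lit 0, nat_lit 0, nat_lit 0, nat_lit 0, nat_lit 0, nat_lit 0, nat_lit 0, false, false⟩,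
 nat_lit 15439, nat_lit 0, nat_lit 5799, nat_lit 0, nat_lit 8173, nat_lit 11243, nat_lit 2397, nat_lit 0, nat_lit 0, nat_lit 2211, nat_lit 0, nat_lit 0, nat_lit 0, nat_lit 0, nat_lit 0, nat_lit 0, nat_lit 0, nat_lit 0, [],
 ⟨p047_k25, nat_lit 0, nat_lit 0, nat_lit 0, nat_lit 0, nat_lit 132521, [nat_lit 4688000000, nat_lit 5449500000, nat_lit 7089500001, nat_lit 7968000000], [], [nat_lit 18526236286, nat_lit 19304621119, nat_lit 16829010821, nat_lit 17464584397, nat_lit 24541822346, nat_lit 25183363525, nat_lit 22639053776, nat_lit 23273971105], nat_lit 1271250, nat_lit 1271250, nat_lit 88400, nat_lit 230001, nat_lit 1271250, nat_lit 1271250, [nat_lit 1100000, nat_lit 1271250, nat_lit 1271250, nat_lit 1271250], [nat_lit 129, nat_lit 40, nat_lit 20, nat_lit 40]⟩, ⟨p047_k25, nat_lit 0, nat_lit 0, nat_lit 0, nat_lit 0, nat_lit 132521, [nat_lit 4688000000, nat_lit 5449500000, nat_lit 7089500000, nat_lit 7968000000], [], [nat_lit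 12333768531, nat_lit 13508142918, nat_lit 9697340779, nat_lit 10855777935, nat_lit 17312262436, nat_lit 18263213811, nat_lit 15122606480, nat_lit 15595550437], nat_lit 1271250, nat_lit 1271250, nat_lit 88400, nat_lit 230001, nat_lit 1100001, nat_lit 1785000, [nat_lit 1100000, nat_lit 1271250, nat_lit 1271250, nat_lit 1271250], [nat_lit 129, nat_lit 40, nat_lit 20, nat_lit 40]⟩,
 zbF0, [⟨nat_lit 0, nat_lit 100, nat_lit 100, nat_lit 50, nat_lit 733075217⟩, ⟨nat_lit 4, nat_lit 90, nat_lit 100, nat_lit 68, nat_lit 163751316⟩, ⟨nat_lit 23, nat_lit 93, nat_lit 100, nat_lit 52, nat_lit 1036490423⟩]⟩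
noncomputable def p047_l75 : Lf2 := ⟨nat_lit 0, nat_lit 3, [nat_lit 45, nat_lit 5, nat_lit 5, nat_lit 20], false, nat_lit 240, nat_lit 288, nat_lit 240, nat_lit 288, ⟨nat_lit 1000, nat_lit 0, nat_lit 0, nat_lit 0, nat_lit 0, nat_lit 0, nat_lit 0, nat_lit 0, nat_lit 0, nat_lit 0, nat_lit 0, nat_lit 0, nat_lit 0, nat_lit 0, nat_lit 0, nat_lit 0, false, false⟩,
 nat_lit 20848, nat_lit 0, nat_lit 0, nat_lit 0, nat_lit 11037, nat_lit 11037, nat_lit 2259, nat_lit 0, nat_lit 0, nat_lit 2259, nat_lit 0, nat_lit 0, nat_lit 0, nat_lit 0, nat_lit 0, nat_lit 0, nat_lit 0, nat_lit 0, [],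
 ⟨p047_k26, nat_lit 0, nat_lit 0, nat_lit 0, nat_lit 0, nat_lit 132521, [nat_lit 4688000000, nat_lit 6250000000, nat_lit 7968000000], [], [nat_lit 17777237904, nat_lit 18713072303, nat_lit 14736750367, nat_lit 15664205833, nat_lit 24474131379, nat_lit 25626796927, nat_lit 20580851474, nat_lit 21730920599], nat_lit 1271250, nat_lit 1271250, nat_lit 88400, nat_lit 230001, nat_lit 1271250, nat_lit 1271250, [nat_lit 1100000, nat_lit 1442500, nat_lit 1271250], [nat_lit 9, nat_lit 40, nat_lit 40, nat_lit 80]⟩, ⟨p047_k26, nat_lit 0, nat_lit 0, nat_lit 0, nat_lit 0, nat_lit 132521, [nat_lit 4688000000, nat_lit 6250000000, nat_lit 7968000000], [], [nat_lit 17777237904, nat_lit 18713072303, nat_lit 14736750367, nat_lit 15664205833, nat_lit 24474131379, nat_lit 25626796927, nat_lit 20580851474, nat_lit 21730920599], nat_lit 1271250, nat_lit 1271250, nat_lit 88400, nat_lit 230001, nat_lit 1271250, nat_lit 1271250, [nat_lit 1100000,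 nat_lit 1442500, nat_lit 1271250], [nat_lit 9, nat_lit 40, nat_lit 40, nat_lit 80]⟩,
 zbF0, [⟨nat_lit 0, nat_lit 100, nat_lit 100, nat_lit 50, nat_lit 223435986⟩, ⟨nat_lit 11, nat_lit 100, nat_lit 100, nat_lit 53, nat_lit 1804516008⟩]⟩
noncomputable def p047_l76 : Lf2 := ⟨nat_lit 0, nat_lit 3, [nat_lit 45, nat_lit 5, nat_lit 5, nat_lit 20], false, nat_lit 240, nat_lit 312, nat_lit 0, nat_lit 288, ⟨nat_lit 0, nat_lit 0, nat_lit 1000, nat_lit 6, nat_lit 79, nat_lit 1000, nat_lit 198, nat_lit 1000, nat_lit 611, nat_lit 219, nat_lit 60000, nat_lit 275, nat_lit 50747202, nat_lit 0, nat_lit 0, nat_lit 3552631, false, false⟩,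
 nat_lit 9616, nat_lit 0, nat_lit 0, nat_lit 0, nat_lit 4479, nat_lit 5090, nat_lit 160, nat_lit 0, nat_lit 0, nat_lit 970, nat_lit 638, nat_lit 0, nat_lit 0, nat_lit 0, nat_lit 80, nat_lit 1000000, nat_lit 0, nat_lit 0, [(nat_lit 6, [(nat_lit 6, nat_lit 1000)])],
 ⟨p047_k26, nat_lit 0, nat_lit 0, nat_lit 0, nat_lit 0, nat_lit 132521, [nat_lit 2257066667, nat_lit 1408000000, nat_lit 211200000], [], [nat_lit 14555576455, nat_lit 15340753275, nat_lit 13442829147, nat_lit 13965036686, nat_lit 20555133879, nat_lit 21181198675, nat_lit 19142208141, nat_lit 19766449620], nat_lit 1271250, nat_lit 1271250, nat_lit 88400, nat_lit 230001, nat_lit 1271250, nat_lit 1271250, [nat_lit 1100000, nat_lit 1442500, nat_lit 1271250], [nat_lit 9, nat_lit 40, nat_lit 40, nat_lit 80]⟩, ⟨p047_k26, nat_lit 0, nat_lit 0, nat_lit 272, nat_lit 0, nat_lit 132521, [nat_lit 10208000000, nat_lit 12760000000, nat_lit 15312000000], [], [nat_lit 36227324464,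 nat_lit 34905201332, nat_lit 33543087810, nat_lit 33732272930, nat_lit 33614275293, nat_lit 32440252541, nat_lit 33664713528, nat_lit 32500005476], nat_lit 1271250, nat_lit 1271250, nat_lit 88400, nat_lit 230001, nat_lit 0, nat_lit 2034000, [nat_lit 1100000, nat_lit 1442500, nat_lit 1271250], [nat_lit 9, nat_lit 40, nat_lit 40, nat_lit 80, nat_lit 2, nat_lit 317, nat_lit 100, nat_lit 11]⟩,
 ⟨nat_lit 6123, nat_lit 6325, ⟨.ofNat (nat_lit 164319), .ofNat (nat_lit 213677), .ofNat (nat_lit 175003), .ofNat (nat_lit 224361), .ofNat (nat_lit 172944), .ofNat (nat_lit 221172), .ofNat (nat_lit 183618), .ofNat (nat_lit 231846)⟩, ⟨.ofNat (nat_lit 411320), .ofNat (nat_lit 559393), .ofNat (nat_lit 432688), .ofNat (nat_lit 580758), .ofNat (nat_lit 409594), .ofNat (nat_lit 554277), .ofNat (nat_lit 430942), .ofNat (nat_lit 575623)⟩⟩, [⟨nat_lit 16, nat_lit 100, nat_lit 90, nat_lit 68, nat_lit 119337474⟩, ⟨nat_lit 23, nat_lit 93, nat_lit 100,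 nat_lit 52, nat_lit 599577168⟩]⟩
noncomputable def p047_l77 : Lf2 := ⟨nat_lit 0, nat_lit 3, [nat_lit 45, nat_lit 5, nat_lit 5, nat_lit 20], true, nat_lit 240, nat_lit 280, nat_lit 0, nat_lit 312, ⟨nat_lit 0, nat_lit 0, nat_lit 1000, nat_lit 6, nat_lit 105, nat_lit 1000, nat_lit 185, nat_lit 1000, nat_lit 21600, nat_lit 251, nat_lit 104017, nat_lit 294, nat_lit 50393240, nat_lit 0, nat_lit 0, nat_lit 3777811, false, false⟩,
 nat_lit 0, nat_lit 7219, nat_lit 0, nat_lit 0, nat_lit 3821, nat_lit 0, nat_lit 153, nat_lit 0, nat_lit 0, nat_lit 0, nat_lit 0, nat_lit 0, nat_lit 0, nat_lit 5255629667104, nat_lit 80, nat_lit 1000000, nat_lit 0, nat_lit 0, [(nat_lit 6, [(nat_lit 6, nat_lit 1000)])],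
 ⟨p047_k24, nat_lit 0, nat_lit 0, nat_lit 0, nat_lit 0, nat_lit 132521, [nat_lit 1156400000, nat_lit 2229200000, nat_lit 1408000000, nat_lit 211200000], [], [nat_lit 13912786461, nat_lit 14441227377, nat_lit 13603192416, nat_lit 14158674826, nat_lit 16166865228, nat_lit 16686219064, nat_lit 15825122056, nat_lit 16327430457], nat_lit 1271250, nat_lit 1271250, nat_lit 230001, nat_lit 490000, nat_lit 1271250, nat_lit 1271250, [nat_lit 490000, nat_lit 1100000, nat_lit 1442500, nat_lit 1271250], [nat_lit 98, nat_lit 40, nat_lit 20, nat_lit 40]⟩, C1.Rw.none,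
 ⟨nat_lit 6123, nat_lit 6325, ⟨.ofNat (nat_lit 213677), .ofNat (nat_lit 295942), .ofNat (nat_lit 224361), .ofNat (nat_lit 306625), .ofNat (nat_lit 221172), .ofNat (nat_lit 301553), .ofNat (nat_lit 231846), .ofNat (nat_lit 312227)⟩, ⟨.ofNat (nat_lit 411320), .ofNat (nat_lit 493584), .ofNat (nat_lit 432688), .ofNat (nat_lit 514952), .ofNat (nat_lit 409594), .ofNat (nat_lit 489975), .ofNat (nat_lit 430942), .ofNat (nat_lit 511323)⟩⟩, [⟨nat_lit 4, nat_lit 90, nat_lit 100, nat_lit 68, nat_lit 375185259⟩]⟩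
noncomputable def p047_l78 : Lf2 := ⟨nat_lit 0, nat_lit 2, [nat_lit 10, nat_lit 5, nat_lit 5, nat_lit 20], true, nat_lit 280, nat_lit 312, nat_lit 0, nat_lit 276, ⟨nat_lit 0, nat_lit 1000, nat_lit 0, nat_lit 6, nat_lit 95, nat_lit 1000, nat_lit 214, nat_lit 0, nat_lit 0, nat_lit 0, nat_lit 0, nat_lit 0, nat_lit 48198576, nat_lit 4156547, nat_lit 14644877, nat_lit 3929506, false, false⟩,
 nat_lit 0, nat_lit 9988, nat_lit 0, nat_lit 0, nat_lit 5287, nat_lit 0, nat_lit 0, nat_lit 0, nat_lit 0, nat_lit 0, nat_lit 0, nat_lit 0, nat_lit 0, nat_lit 2303383103799, nat_lit 0, nat_lit 1000000, nat_lit 0, nat_lit 0, [(nat_lit 6, [(nat_lit 2, nat_lit 1000)])],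
 ⟨p047_k27, nat_lit 0, nat_lit 0, nat_lit 0, nat_lit 0, nat_lit 79445, [nat_lit 2645485715, nat_lit 2965600001, nat_lit 2636000000], [], [nat_lit 16714445567, nat_lit 17037971769, nat_lit 16230802135, nat_lit 16549195278, nat_lit 19713394334, nat_lit 20051227044, nat_lit 18990141564, nat_lit 19323959693], nat_lit 1271250, nat_lit 1271250, nat_lit 230001, nat_lit 356250, nat_lit 1271250, nat_lit 1271250, [nat_lit 1100000, nat_lit 1271250, nat_lit 1271250], [nat_lit 105, nat_lit 40, nat_lit 20, nat_lit 40]⟩, C1.Rw.none,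
 ⟨nat_lit 6224, nat_lit 6325, ⟨.ofNat (nat_lit 213677), .ofNat (nat_lit 254809), .ofNat (nat_lit 219019), .ofNat (nat_lit 260151), .ofNat (nat_lit 217441), .ofNat (nat_lit 258100), .ofNat (nat_lit 222780), .ofNat (nat_lit 263439)⟩, ⟨.ofNat (nat_lit 493584), .ofNat (nat_lit 559395), .ofNat (nat_lit 514952), .ofNat (nat_lit 580762), .ofNat (nat_lit 491781), .ofNat (nat_lit 556834), .ofNat (nat_lit 513137), .ofNat (nat_lit 578190)⟩⟩, [⟨nat_lit 4, nat_lit 89, nat_lit 100, nat_lit 68, nat_lit 560002390⟩]⟩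
noncomputable def p047_l79 : Lf2 := ⟨nat_lit 0, nat_lit 1, [nat_lit 19, nat_lit 5, nat_lit 5, nat_lit 20], false, nat_lit 280, nat_lit 308, nat_lit 0, nat_lit 160, ⟨nat_lit 1000, nat_lit 0, nat_lit 0, nat_lit 0, nat_lit 0, nat_lit 0, nat_lit 0, nat_lit 0, nat_lit 0, nat_lit 0, nat_lit 0, nat_lit 0, nat_lit 0, nat_lit 0, nat_lit 0, nat_lit 0, false, false⟩,
 nat_lit 17521, nat_lit 0, nat_lit 0, nat_lit 0, nat_lit 8366, nat_lit 9275, nat_lit 3279, nat_lit 0, nat_lit 0, nat_lit 0, nat_lit 0, nat_lit 0, nat_lit 0, nat_lit 16965146571772, nat_lit 0, nat_lit 0, nat_lit 0, nat_lit 0, [],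
 ⟨p047_k28, nat_lit 0, nat_lit 0, nat_lit 0, nat_lit 0, nat_lit 125087, [nat_lit 4688000000, nat_lit 6250000000], [], [nat_lit 19583532173, nat_lit 19964465761, nat_lit 18747395110, nat_lit 19120999797, nat_lit 22154389831, nat_lit 22498085727, nat_lit 21266645079, nat_lit 21603933119], nat_lit 1271250, nat_lit 1271250, nat_lit 230001, nat_lit 356250, nat_lit 1271250, nat_lit 1271250, [nat_lit 1100000, nat_lit 1442500], [nat_lit 31, nat_lit 40, nat_lit 40, nat_lit 80]⟩, ⟨p047_k29, nat_lit 0, nat_lit 0, nat_lit 259, nat_lit 0, nat_lit 128680, [nat_lit 4688000000, nat_lit 6250000000], [], [nat_lit 15731494800, nat_lit 17089969750, nat_lit 14650229300, nat_lit 15985065775, nat_lit 11783313400, nat_lit 11543847600, nat_lit 12213534350, nat_lit 10877393800], nat_lit 1271250, nat_lit 1271250, nat_lit 230001, nat_lit 356250, nat_lit 0, nat_lit 1100001, [nat_lit 1100000, nat_lit 1442500], [nat_lit 31, nat_lit 40, nat_lit 40, nat_lit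 80, nat_lit 3, nat_lit 272, nat_lit 60, nat_lit 11]⟩,
 zbF0, [⟨nat_lit 16, nat_lit 100, nat_lit 86, nat_lit 73, nat_lit 749862454⟩, ⟨nat_lit 4, nat_lit 91, nat_lit 100, nat_lit 68, nat_lit 229250280⟩]⟩
noncomputable def p047_l80 : Lf2 := ⟨nat_lit 0, nat_lit 1, [nat_lit 19, nat_lit 5, nat_lit 5, nat_lit 20], false, nat_lit 280, nat_lit 308, nat_lit 160, nat_lit 240, ⟨nat_lit 1000, nat_lit 0, nat_lit 0, nat_lit 0, nat_lit 0, nat_lit 0, nat_lit 0, nat_lit 0, nat_lit 0, nat_lit 0, nat_lit 0, nat_lit 0, nat_lit 0, nat_lit 0, nat_lit 0, nat_lit 0, false, false⟩,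
 nat_lit 14471, nat_lit 762, nat_lit 0, nat_lit 0, nat_lit 8262, nat_lit 7661, nat_lit 3879, nat_lit 0, nat_lit 0, nat_lit 0, nat_lit 0, nat_lit 0, nat_lit 0, nat_lit 1154525596651, nat_lit 0, nat_lit 0, nat_lit 0, nat_lit 0, [],
 ⟨p047_k28, nat_lit 0, nat_lit 0, nat_lit 0, nat_lit 0, nat_lit 125087, [nat_lit 4688000000, nat_lit 6250000000], [], [nat_lit 19524465061, nat_lit 19902614777, nat_lit 18703385781, nat_lit 19074277251, nat_lit 22074918372, nat_lit 22416228648, nat_lit 21202743741, nat_lit 21537706816], nat_lit 1271250, nat_lit 1271250, nat_lit 230001, nat_lit 356250, nat_lit 1271250, nat_lit 1271250, [nat_lit 1100000, nat_lit 1442500], [nat_lit 31, nat_lit 40, nat_lit 40, nat_lit 80]⟩, ⟨p047_k29, nat_lit 0, nat_lit 0, nat_lit 179, nat_lit 0, nat_lit 128680, [nat_lit 4688000000, nat_lit 6250000000], [], [nat_lit 8295021812, nat_lit 9385696813, nat_lit 7745749056, nat_lit 8814620231, nat_lit 13500558708, nat_lit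 14398613120, nat_lit 12867326320, nat_lit 13747740932], nat_lit 1271250, nat_lit 1271250, nat_lit 230001, nat_lit 356250, nat_lit 1100001, nat_lit 1785000, [nat_lit 1100000, nat_lit 1442500], [nat_lit 31, nat_lit 40, nat_lit 40, nat_lit 80, nat_lit 3, nat_lit 289, nat_lit 75, nat_lit 11]⟩,
 zbF0, [⟨nat_lit 4, nat_lit 91, nat_lit 100, nat_lit 68, nat_lit 665622253⟩, ⟨nat_lit 23, nat_lit 91, nat_lit 100, nat_lit 68, nat_lit 363370957⟩]⟩
noncomputable def p047_l81 : Lf2 := ⟨nat_lit 0, nat_lit 1, [nat_lit 19, nat_lit 5, nat_lit 5, nat_lit 20], false, nat_lit 280, nat_lit 308, nat_lit 240, nat_lit 276, ⟨nat_lit 1000, nat_lit 0, nat_lit 0, nat_lit 0, nat_lit 0, nat_lit 0, nat_lit 0, nat_lit 0, nat_lit 0, nat_lit 0, nat_lit 0, nat_lit 0, nat_lit 0, nat_lit 0, nat_lit 0, nat_lit 0, false, false⟩,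
 nat_lit 14653, nat_lit 1740, nat_lit 0, nat_lit 0, nat_lit 8892, nat_lit 7757, nat_lit 4196, nat_lit 0, nat_lit 0, nat_lit 0, nat_lit 0, nat_lit 0, nat_lit 0, nat_lit 21710457980652, nat_lit 0, nat_lit 0, nat_lit 0, nat_lit 0, [],
 ⟨p047_k28, nat_lit 0, nat_lit 0, nat_lit 0, nat_lit 0, nat_lit 125087, [nat_lit 4688000000, nat_lit 6250000000], [], [nat_lit 19079603576, nat_lit 19474617132, nat_lit 18167308880, nat_lit 18554636183, nat_lit 22450737532, nat_lit 22909977862, nat_lit 21219651145, nat_lit 21671878654], nat_lit 1271250, nat_lit 1271250, nat_lit 230001, nat_lit 356250, nat_lit 1271250, nat_lit 1271250, [nat_lit 1100000, nat_lit 1442500], [nat_lit 31, nat_lit 40, nat_lit 40, nat_lit 80]⟩, ⟨p047_k29, nat_lit 0, nat_lit 0, nat_lit 139, nat_lit 0, nat_lit 128680, [nat_lit 4688000000, nat_lit 6250000000], [], [nat_lit 13405348596, nat_lit 14411360157, nat_lit 12759145840, nat_lit 13646366084, nat_lit 17484663992, nat_lit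 18438713501, nat_lit 16529911434, nat_lit 17468736242], nat_lit 1271250, nat_lit 1271250, nat_lit 230001, nat_lit 356250, nat_lit 1271250, nat_lit 1271250, [nat_lit 1100000, nat_lit 1442500], [nat_lit 31, nat_lit 40, nat_lit 40, nat_lit 80, nat_lit 3, nat_lit 226, nat_lit 20, nat_lit 8]⟩,
 zbF0, [⟨nat_lit 4, nat_lit 91, nat_lit 100, nat_lit 68, nat_lit 735148981⟩, ⟨nat_lit 11, nat_lit 100, nat_lit 95, nat_lit 69, nat_lit 1209239017⟩]⟩
noncomputable def p047_l82 : Lf2 := ⟨nat_lit 0, nat_lit 2, [nat_lit 10, nat_lit 5, nat_lit 5, nat_lit 20], true, nat_lit 280, nat_lit 308, nat_lit 0, nat_lit 276, ⟨nat_lit 0, nat_lit 1000, nat_lit 0, nat_lit 6, nat_lit 98, nat_lit 1000, nat_lit 212, nat_lit 0, nat_lit 0, nat_lit 0, nat_lit 0, nat_lit 0, nat_lit 48292658, nat_lit 4324925, nat_lit 14382417, nat_lit 3940535, false, false⟩,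
 nat_lit 0, nat_lit 9538, nat_lit 0, nat_lit 0, nat_lit 5173, nat_lit 0, nat_lit 0, nat_lit 0, nat_lit 0, nat_lit 0, nat_lit 0, nat_lit 0, nat_lit 0, nat_lit 26098978097216, nat_lit 0, nat_lit 400000, nat_lit 0, nat_lit 0, [(nat_lit 6, [(nat_lit 1, nat_lit 1000)])],
 ⟨p047_k30, nat_lit 0, nat_lit 0, nat_lit 0, nat_lit 0, nat_lit 75873, [nat_lit 2692266667, nat_lit 2905200001, nat_lit 3155600000], [], [nat_lit 17161197644, nat_lit 17481254312, nat_lit 16690888355, nat_lit 17005886862, nat_lit 19586982856, nat_lit 19926167344, nat_lit 18888809363, nat_lit 19223920674], nat_lit 1271250, nat_lit 1271250, nat_lit 230001, nat_lit 356250, nat_lit 1271250, nat_lit 1271250, [nat_lit 1100000, nat_lit 1271250, nat_lit 1271250], [nat_lit 105, nat_lit 40, nat_lit 20, nat_lit 40]⟩, C1.Rw.none,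
 ⟨nat_lit 6123, nat_lit 6225, ⟨.ofNat (nat_lit 217441), .ofNat (nat_lit 258100), .ofNat (nat_lit 228119), .ofNat (nat_lit 268778), .ofNat (nat_lit 221172), .ofNat (nat_lit 261362), .ofNat (nat_lit 231846), .ofNat (nat_lit 272036)⟩, ⟨.ofNat (nat_lit 491781), .ofNat (nat_lit 548702), .ofNat (nat_lit 513137), .ofNat (nat_lit 570059), .ofNat (nat_lit 489975), .ofNat (nat_lit 546241), .ofNat (nat_lit 511323), .ofNat (nat_lit 567589)⟩⟩, [⟨nat_lit 4, nat_lit 91, nat_lit 100, nat_lit 68, nat_lit 526564319⟩]⟩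
noncomputable def p047_l83 : Lf2 := ⟨nat_lit 0, nat_lit 3, [nat_lit 45, nat_lit 5, nat_lit 5, nat_lit 20], true, nat_lit 280, nat_lit 312, nat_lit 0, nat_lit 276, ⟨nat_lit 0, nat_lit 1000, nat_lit 0, nat_lit 6, nat_lit 97, nat_lit 1000, nat_lit 214, nat_lit 0, nat_lit 0, nat_lit 0, nat_lit 0, nat_lit 0, nat_lit 48137891, nat_lit 4272508, nat_lit 14589601, nat_lit 3948991, false, false⟩,
 nat_lit 0, nat_lit 10188, nat_lit 0, nat_lit 643, nat_lit 5393, nat_lit 0, nat_lit 0, nat_lit 0, nat_lit 0, nat_lit 0, nat_lit 0, nat_lit 0, nat_lit 0, nat_lit 1926255918706, nat_lit 0, nat_lit 400000, nat_lit 0, nat_lit 0, [(nat_lit 6, [(nat_lit 1, nat_lit 1000)])],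
 ⟨p047_k31, nat_lit 0, nat_lit 0, nat_lit 0, nat_lit 0, nat_lit 34683, [nat_lit 2838000000, nat_lit 3261466667], [], [nat_lit 17009965502, nat_lit 17662340921, nat_lit 16624618109, nat_lit 17265453985, nat_lit 19837172794, nat_lit 20519179987, nat_lit 19236867607, nat_lit 19909267890], nat_lit 1271250, nat_lit 1271250, nat_lit 230001, nat_lit 356250, nat_lit 1271250, nat_lit 1271250, [nat_lit 1100000, nat_lit 1785000], [nat_lit 39, nat_lit 40, nat_lit 40, nat_lit 80]⟩, C1.Rw.none,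
 ⟨nat_lit 6123, nat_lit 6325, ⟨.ofNat (nat_lit 213677), .ofNat (nat_lit 254809), .ofNat (nat_lit 224361), .ofNat (nat_lit 265493), .ofNat (nat_lit 221172), .ofNat (nat_lit 261362), .ofNat (nat_lit 231846), .ofNat (nat_lit 272036)⟩, ⟨.ofNat (nat_lit 493584), .ofNat (nat_lit 559393), .ofNat (nat_lit 514952), .ofNat (nat_lit 580758), .ofNat (nat_lit 489975), .ofNat (nat_lit 554277), .ofNat (nat_lit 511323), .ofNat (nat_lit 575623)⟩⟩, [⟨nat_lit 16, nat_lit 100, nat_lit 90, nat_lit 68, nat_lit 539538929⟩]⟩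
noncomputable def p047_l84 : Lf2 := ⟨nat_lit 0, nat_lit 3, [nat_lit 45, nat_lit 5, nat_lit 5, nat_lit 20], true, nat_lit 280, nat_lit 312, nat_lit 0, nat_lit 300, ⟨nat_lit 0, nat_lit 1000, nat_lit 0, nat_lit 6, nat_lit 112, nat_lit 1000, nat_lit 214, nat_lit 0, nat_lit 0, nat_lit 0, nat_lit 0, nat_lit 0, nat_lit 47225506, nat_lit 5251565, nat_lit 14522929, nat_lit 4138893, false, false⟩,
 nat_lit 0, nat_lit 10570, nat_lit 0, nat_lit 0, nat_lit 5595, nat_lit 0, nat_lit 0, nat_lit 0, nat_lit 0, nat_lit 0, nat_lit 0, nat_lit 0, nat_lit 0, nat_lit 0, nat_lit 0, nat_lit 400000, nat_lit 0, nat_lit 0, [(nat_lit 6, [(nat_lit 1, nat_lit 1000)])],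
 ⟨p047_k31, nat_lit 0, nat_lit 0, nat_lit 0, nat_lit 0, nat_lit 80613, [nat_lit 2838000000, nat_lit 3261466667], [], [nat_lit 16459990735, nat_lit 16786386787, nat_lit 16045757140, nat_lit 16366232552, nat_lit 19353925839, nat_lit 19696392127, nat_lit 18717087134, nat_lit 19054632812], nat_lit 1271250, nat_lit 1271250, nat_lit 356250, nat_lit 490000, nat_lit 1271250, nat_lit 1271250, [nat_lit 1100000, nat_lit 1785000], [nat_lit 39, nat_lit 40, nat_lit 40, nat_lit 80]⟩, C1.Rw.none,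
 ⟨nat_lit 6224, nat_lit 6325, ⟨.ofNat (nat_lit 254809), .ofNat (nat_lit 295942), .ofNat (nat_lit 260151), .ofNat (nat_lit 301284), .ofNat (nat_lit 258100), .ofNat (nat_lit 298759), .ofNat (nat_lit 263439), .ofNat (nat_lit 304098)⟩, ⟨.ofNat (nat_lit 493584), .ofNat (nat_lit 559395), .ofNat (nat_lit 514952), .ofNat (nat_lit 580762), .ofNat (nat_lit 491781), .ofNat (nat_lit 556834), .ofNat (nat_lit 513137), .ofNat (nat_lit 578190)⟩⟩, [⟨nat_lit 4, nat_lit 89, nat_lit 100, nat_lit 68, nat_lit 538468916⟩]⟩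
noncomputable def p047_l85 : Lf2 := ⟨nat_lit 0, nat_lit 3, [nat_lit 45, nat_lit 5, nat_lit 5, nat_lit 20], true, nat_lit 280, nat_lit 308, nat_lit 0, nat_lit 300, ⟨nat_lit 0, nat_lit 352, nat_lit 648, nat_lit 6, nat_lit 114, nat_lit 1000, nat_lit 212, nat_lit 648, nat_lit 5683, nat_lit 224, nat_lit 123267, nat_lit 301, nat_lit 47315088, nat_lit 5421075, nat_lit 14263837, nat_lit 4146546, false, false⟩,
 nat_lit 0, nat_lit 8787, nat_lit 0, nat_lit 0, nat_lit 4766, nat_lit 0, nat_lit 463, nat_lit 0, nat_lit 0, nat_lit 0, nat_lit 0, nat_lit 0, nat_lit 0, nat_lit 24610446514185, nat_lit 19, nat_lit 1000000, nat_lit 0, nat_lit 0, [(nat_lit 6, [(nat_lit 2, nat_lit 352), (nat_lit 6, nat_lit 648)])],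
 ⟨p047_k32, nat_lit 0, nat_lit 0, nat_lit 0, nat_lit 0, nat_lit 128773, [nat_lit 1868350172, nat_lit 1752918400, nat_lit 730012800, nat_lit 13584000], [], [nat_lit 16331965319, nat_lit 16559774830, nat_lit 16162909874, nat_lit 16386111804, nat_lit 18669497148, nat_lit 18991618546, nat_lit 18316699389, nat_lit 18633573754], nat_lit 1271250, nat_lit 1271250, nat_lit 356250, nat_lit 490000, nat_lit 1271250, nat_lit 1271250, [nat_lit 1100000, nat_lit 1271250, nat_lit 1271250, nat_lit 1271250], [nat_lit 129, nat_lit 40, nat_lit 20, nat_lit 40]⟩, C1.Rw.none,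
 ⟨nat_lit 6123, nat_lit 6225, ⟨.ofNat (nat_lit 258100), .ofNat (nat_lit 298759), .ofNat (nat_lit 268778), .ofNat (nat_lit 309437), .ofNat (nat_lit 261362), .ofNat (nat_lit 301553), .ofNat (nat_lit 272036), .ofNat (nat_lit 312227)⟩, ⟨.ofNat (nat_lit 491781), .ofNat (nat_lit 548702), .ofNat (nat_lit 513137), .ofNat (nat_lit 570059), .ofNat (nat_lit 489975), .ofNat (nat_lit 546241), .ofNat (nat_lit 511323), .ofNat (nat_lit 567589)⟩⟩, [⟨nat_lit 16, nat_lit 100, nat_lit 91, nat_lit 68, nat_lit 70737580⟩, ⟨nat_lit 16, nat_lit 100, nat_lit 86, nat_lit 73, nat_lit 484045751⟩]⟩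
noncomputable def p047_l86 : Lf2 := ⟨nat_lit 0, nat_lit 3, [nat_lit 45, nat_lit 5, nat_lit 5, nat_lit 20], true, nat_lit 240, nat_lit 312, nat_lit 0, nat_lit 312, ⟨nat_lit 0, nat_lit 0, nat_lit 1000, nat_lit 6, nat_lit 96, nat_lit 1000, nat_lit 198, nat_lit 1000, nat_lit 611, nat_lit 219, nat_lit 86400, nat_lit 287, nat_lit 49788087, nat_lit 0, nat_lit 0, nat_lit 3778261, false, false⟩,
 nat_lit 0, nat_lit 100000, nat_lit 0, nat_lit 0, nat_lit 52941, nat_lit 0, nat_lit 22116, nat_lit 3287, nat_lit 0, nat_lit 0, nat_lit 0, nat_lit 0, nat_lit 0, nat_lit 0, nat_lit 0, nat_lit 1000000, nat_lit 0, nat_lit 0, [(nat_lit 6, [(nat_lit 6, nat_lit 1000)])],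
 ⟨p047_k26, nat_lit 0, nat_lit 0, nat_lit 171, nat_lit 0, nat_lit 132521, [nat_lit 53569066667, nat_lit 65548000001, nat_lit 77179199999], [], [nat_lit 57173164985, nat_lit 60152816376, nat_lit 31746794448, nat_lit 34522184407, nat_lit 80947222237, nat_lit 83056019601, nat_lit 53908265644, nat_lit 55874356843], nat_lit 1271250, nat_lit 1271250, nat_lit 88400, nat_lit 490000, nat_lit 1271250, nat_lit 1271250, [nat_lit 1100000, nat_lit 1442500, nat_lit 1271250], [nat_lit 9, nat_lit 40, nat_lit 40, nat_lit 80, nat_lit 2, nat_lit 226, nat_lit 20, nat_lit 7]⟩, C1.Rw.none,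
 ⟨nat_lit 6123, nat_lit 6325, ⟨.ofNat (nat_lit 164319), .ofNat (nat_lit 295942), .ofNat (nat_lit 175003), .ofNat (nat_lit 306625), .ofNat (nat_lit 172944), .ofNat (nat_lit 301553), .ofNat (nat_lit 183618), .ofNat (nat_lit 312227)⟩, ⟨.ofNat (nat_lit 411320), .ofNat (nat_lit 559393), .ofNat (nat_lit 432688), .ofNat (nat_lit 580758), .ofNat (nat_lit 409594), .ofNat (nat_lit 554277), .ofNat (nat_lit 430942), .ofNat (nat_lit 575623)⟩⟩, [⟨nat_lit 0, nat_lit 100, nat_lit 100, nat_lit 50, nat_lit 2116273584⟩, ⟨nat_lit 4, nat_lit 90, nat_lit 100, nat_lit 68, nat_lit 4741250481⟩]⟩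
noncomputable def p047_l87 : Lf2 := ⟨nat_lit 0, nat_lit 3, [nat_lit 45, nat_lit 5, nat_lit 5, nat_lit 20], false, nat_lit 240, nat_lit 312, nat_lit 0, nat_lit 312, ⟨nat_lit 0, nat_lit 178, nat_lit 822, nat_lit 6, nat_lit 138, nat_lit 1000, nat_lit 198, nat_lit 822, nat_lit 611, nat_lit 219, nat_lit 176817, nat_lit 318, nat_lit 47031229, nat_lit 7238029, nat_lit 12730742, nat_lit 4306648, false, false⟩,
 nat_lit 7414, nat_lit 0, nat_lit 0, nat_lit 0, nat_lit 3924, nat_lit 0, nat_lit 0, nat_lit 0, nat_lit 0, nat_lit 0, nat_lit 0, nat_lit 0, nat_lit 0, nat_lit 6845745901212, nat_lit 42, nat_lit 893200, nat_lit 0, nat_lit 0, [(nat_lit 6, [(nat_lit 1, nat_lit 178), (nat_lit 6, nat_lit 822)])],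
 ⟨p047_k26, nat_lit 0, nat_lit 0, nat_lit 120, nat_lit 0, nat_lit 132521, [nat_lit 1954372267, nat_lit 1221587200, nat_lit 187348800], [], [nat_lit 13544515355, nat_lit 14149093363, nat_lit 13934060603, nat_lit 14510004143, nat_lit 18128056956, nat_lit 18624569505, nat_lit 18300574317, nat_lit 18775056897], nat_lit 1271250, nat_lit 1271250, nat_lit 490000, nat_lit 780000, nat_lit 1271250, nat_lit 1271250, [nat_lit 1100000, nat_lit 1442500, nat_lit 1271250], [nat_lit 9, nat_lit 40, nat_lit 40, nat_lit 80, nat_lit 2, nat_lit 238, nat_lit 30, nat_lit 7]⟩, ⟨p047_k26, nat_lit 0, nat_lit 0, nat_lit 240, nat_lit 0, nat_lit 132521, [nat_lit 0, nat_lit 0, nat_lit 0], [], [nat_lit 0, nat_lit 0, nat_lit 0, nat_lit 0, nat_lit 0, nat_lit 0, nat_lit 0, nat_lit 0], nat_lit 1271250, nat_lit 1271250, nat_lit 490000, nat_lit 780000, nat_lit 0, nat_lit 2203500, [nat_lit 1100000, nat_lit 1442500, nat_lit 1271250], [nat_lit 9, nat_lit 40, nat_lit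 40, nat_lit 80, nat_lit 2, nat_lit 345, nat_lit 125, nat_lit 12]⟩,
 ⟨nat_lit 6123, nat_lit 6325, ⟨.ofNat (nat_lit 295942), .ofNat (nat_lit 378206), .ofNat (nat_lit 306625), .ofNat (nat_lit 388890), .ofNat (nat_lit 301553), .ofNat (nat_lit 381933), .ofNat (nat_lit 312227), .ofNat (nat_lit 392607)⟩, ⟨.ofNat (nat_lit 411320), .ofNat (nat_lit 559393), .ofNat (nat_lit 432688), .ofNat (nat_lit 580758), .ofNat (nat_lit 409594), .ofNat (nat_lit 554277), .ofNat (nat_lit 430942), .ofNat (nat_lit 575623)⟩⟩, [⟨nat_lit 4, nat_lit 90, nat_lit 100, nat_lit 68, nat_lit 423656040⟩]⟩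
noncomputable def p047_l88 : Lf2 := ⟨nat_lit 1, nat_lit 6, [nat_lit 47, nat_lit 5, nat_lit 5, nat_lit 20], false, nat_lit 240, nat_lit 312, nat_lit 0, nat_lit 312, zbN0,
 nat_lit 0, nat_lit 0, nat_lit 0, nat_lit 0, nat_lit 0, nat_lit 0, nat_lit 0, nat_lit 0, nat_lit 0, nat_lit 0, nat_lit 0, nat_lit 0, nat_lit 0, nat_lit 0, nat_lit 0, nat_lit 0, nat_lit 0, nat_lit 0, [],
 C1.Rw.none, C1.Rw.none,
 zbF0, []⟩
noncomputable def b_V_600_600_10_47 : St := ⟨true, nat_lit 1, nat_lit 1, nat_lit 1, nat_lit 80, nat_lit 240, nat_lit 250, nat_lit 240, nat_lit 260, nat_lit 16, nat_lit 120, nat_lit 40, nat_lit 60, nat_lit 240, nat_lit 312, nat_lit 0, nat_lit 312, nat_lit 0, nat_lit 24, nat_lit 0, nat_lit 0, nat_lit 0, nat_lit 0⟩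
theorem d_V_600_600_10_47 (h : EB TB.env) : Dead b_V_600_600_10_47 := chkB_sound0 h (T :=
(.ord (.spl (nat_lit 6) (nat_lit 12)
(.spl (nat_lit 2) (nat_lit 80)
(.spl (nat_lit 7) (nat_lit 600)
(.spl (nat_lit 7) (nat_lit 300)
(.leaf p047_l72)
(.spl (nat_lit 2) (nat_lit 40)
(.trX (nat_lit 23) (nat_lit 100) (nat_lit 92) (nat_lit 61) (nat_lit 288) (.spl (nat_lit 8) (nat_lit 800)
(.spl (nat_lit 5) (nat_lit 160)
(.leaf p047_l73)
(.spl (nat_lit 5) (nat_lit 240)
(.leaf p047_l74)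
(.trX (nat_lit 11) (nat_lit 100) (nat_lit 92) (nat_lit 61) (nat_lit 288) (.leaf p047_l75))))
(.leaf p047_l76)))
(.spl (nat_lit 4) (nat_lit 280)
(.leaf p047_l77)
(.trX (nat_lit 23) (nat_lit 100) (nat_lit 95) (nat_lit 87) (nat_lit 300) (.spl (nat_lit 2) (nat_lit 60)
(.trX (nat_lit 23) (nat_lit 99) (nat_lit 100) (nat_lit 77) (nat_lit 276) (.spl (nat_lit 6) (nat_lit 8)
(.spl (nat_lit 0) (nat_lit 245)
(.ord (.leaf p047_l78))
(.trX (nat_lit 16) (nat_lit 100) (nat_lit 86) (nat_lit 73) (nat_lit 308) (.spl (nat_lit 6) (nat_lit 4)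
(.spl (nat_lit 5) (nat_lit 160)
(.leaf p047_l79)
(.spl (nat_lit 5) (nat_lit 240)
(.leaf p047_l80)
(.leaf p047_l81)))
(.leaf p047_l82))))
(.leaf p047_l83)))
(.spl (nat_lit 0) (nat_lit 245)
(.ord (.leaf p047_l84))
(.trX (nat_lit 16) (nat_lit 100) (nat_lit 86) (nat_lit 73) (nat_lit 308) (.leaf p047_l85))))))))
(.leaf p047_l86))
(.leaf p047_l87))
(.leaf p047_l88)))) (by decide +kernel)
noncomputable def p047_l89 : Lf2 := ⟨nat_lit 0, nat_lit 4, [nat_lit 38, nat_lit 5, nat_lit 5, nat_lit 20], true, nat_lit 240, nat_lit 304, nat_lit 0, nat_lit 312, ⟨nat_lit 0, nat_lit 1000, nat_lit 0, nat_lit 6, nat_lit 100, nat_lit 1000, nat_lit 194, nat_lit 0, nat_lit 0, nat_lit 0, nat_lit 0, nat_lit 0, nat_lit 49891717, nat_lit 4538924, nat_lit 12569359, nat_lit 3801123, false, false⟩,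
 nat_lit 0, nat_lit 1276, nat_lit 0, nat_lit 135, nat_lit 708, nat_lit 0, nat_lit 0, nat_lit 0, nat_lit 284, nat_lit 0, nat_lit 0, nat_lit 0, nat_lit 0, nat_lit 12014804119439, nat_lit 0, nat_lit 250000, nat_lit 0, nat_lit 0, [(nat_lit 6, [(nat_lit 0, nat_lit 1000)])],
 ⟨p047_k33, nat_lit 0, nat_lit 0, nat_lit 0, nat_lit 0, nat_lit 177219, [nat_lit 1564000000, nat_lit 2639600001, nat_lit 3087600001, nat_lit 3486799999], [], [nat_lit 13326074560, nat_lit 13539629968, nat_lit 14123477188, nat_lit 14329449246, nat_lit 16172269980, nat_lit 16369803817, nat_lit 16779568786, nat_lit 16971315203], nat_lit 1271250, nat_lit 1271250, nat_lit 111251, nat_lit 490000, nat_lit 1271250, nat_lit 1271250, [nat_lit 490000, nat_lit 1100000, nat_lit 1442500, nat_lit 1271250], [nat_lit 98, nat_lit 40, nat_lit 20, nat_lit 40]⟩, C1.Rw.none,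
 ⟨nat_lit 6020, nat_lit 6124, ⟨.ofNat (nat_lit 180982), .ofNat (nat_lit 301553), .ofNat (nat_lit 196993), .ofNat (nat_lit 317564), .ofNat (nat_lit 185145), .ofNat (nat_lit 304325), .ofNat (nat_lit 201152), .ofNat (nat_lit 320331)⟩, ⟨.ofNat (nat_lit 409594), .ofNat (nat_lit 538203), .ofNat (nat_lit 430942), .ofNat (nat_lit 559551), .ofNat (nat_lit 408713), .ofNat (nat_lit 535837), .ofNat (nat_lit 430055), .ofNat (nat_lit 557179)⟩⟩, [⟨nat_lit 0, nat_lit 100, nat_lit 100, nat_lit 55, nat_lit 37177932⟩]⟩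
noncomputable def p047_l90 : Lf2 := ⟨nat_lit 0, nat_lit 1, [nat_lit 19, nat_lit 5, nat_lit 5, nat_lit 20], false, nat_lit 240, nat_lit 304, nat_lit 0, nat_lit 80, ⟨nat_lit 1000, nat_lit 0, nat_lit 0, nat_lit 0, nat_lit 0, nat_lit 0, nat_lit 0, nat_lit 0, nat_lit 0, nat_lit 0, nat_lit 0, nat_lit 0, nat_lit 0, nat_lit 0, nat_lit 0, nat_lit 0, false, false⟩,
 nat_lit 14815, nat_lit 0, nat_lit 0, nat_lit 2977, nat_lit 7336, nat_lit 7843, nat_lit 3690, nat_lit 0, nat_lit 0, nat_lit 0, nat_lit 0, nat_lit 0, nat_lit 0, nat_lit 0, nat_lit 0, nat_lit 0, nat_lit 0, nat_lit 0, [],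
 ⟨p047_k34, nat_lit 0, nat_lit 0, nat_lit 0, nat_lit 0, nat_lit 145975, [nat_lit 4688000000, nat_lit 6250000000], [], [nat_lit 18858806716, nat_lit 19194588574, nat_lit 17547395552, nat_lit 17879687668, nat_lit 23340721209, nat_lit 23755307358, nat_lit 21981070791, nat_lit 22252452046], nat_lit 1271250, nat_lit 1271250, nat_lit 111251, nat_lit 230001, nat_lit 1271250, nat_lit 1271250, [nat_lit 1100000, nat_lit 1442500], [nat_lit 31, nat_lit 40, nat_lit 40, nat_lit 80]⟩, ⟨p047_k29, nat_lit 0, nat_lit 0, nat_lit 0, nat_lit 0, nat_lit 154397, [nat_lit 4688000000, nat_lit 6250000000], [], [nat_lit 18256161694, nat_lit 19471368335, nat_lit 16549340512, nat_lit 17563336359, nat_lit 13898430020, nat_lit 14861155683, nat_lit 12454217672, nat_lit 13406333311], nat_lit 1271250, nat_lit 1271250, nat_lit 111251, nat_lit 230001, nat_lit 0, nat_lit 490000, [nat_lit 1100000, nat_lit 1442500], [nat_lit 31, nat_lit 40, nat_lit 40, nat_lit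 80]⟩,
 zbF0, [⟨nat_lit 0, nat_lit 100, nat_lit 99, nat_lit 49, nat_lit 494859664⟩, ⟨nat_lit 0, nat_lit 100, nat_lit 99, nat_lit 45, nat_lit 1044469004⟩, ⟨nat_lit 4, nat_lit 93, nat_lit 100, nat_lit 69, nat_lit 855462640⟩]⟩
noncomputable def p047_l91 : Lf2 := ⟨nat_lit 0, nat_lit 1, [nat_lit 19, nat_lit 5, nat_lit 5, nat_lit 20], false, nat_lit 240, nat_lit 304, nat_lit 80, nat_lit 160, ⟨nat_lit 1000, nat_lit 0, nat_lit 0, nat_lit 0, nat_lit 0, nat_lit 0, nat_lit 0, nat_lit 0, nat_lit 0, nat_lit 0, nat_lit 0, nat_lit 0, nat_lit 0, nat_lit 0, nat_lit 0, nat_lit 0, false, false⟩,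
 nat_lit 16232, nat_lit 0, nat_lit 0, nat_lit 1290, nat_lit 7336, nat_lit 8593, nat_lit 3690, nat_lit 0, nat_lit 0, nat_lit 0, nat_lit 0, nat_lit 0, nat_lit 0, nat_lit 0, nat_lit 0, nat_lit 0, nat_lit 0, nat_lit 0, [],
 ⟨p047_k34, nat_lit 0, nat_lit 0, nat_lit 0, nat_lit 0, nat_lit 145975, [nat_lit 4688000000, nat_lit 6250000000], [], [nat_lit 18858806716, nat_lit 19194588574, nat_lit 17547395552, nat_lit 17879687668, nat_lit 23340721209, nat_lit 23755307358, nat_lit 21981070791, nat_lit 22252452046], nat_lit 1271250, nat_lit 1271250, nat_lit 111251, nat_lit 230001, nat_lit 1271250, nat_lit 1271250, [nat_lit 1100000, nat_lit 1442500], [nat_lit 31, nat_lit 40, nat_lit 40, nat_lit 80]⟩, ⟨p047_k29, nat_lit 0, nat_lit 0, nat_lit 0, nat_lit 0, nat_lit 154397, [nat_lit 4688000000, nat_lit 6250000000], [], [nat_lit 8894284288, nat_lit 10473927916, nat_lit 6180193772, nat_lit 7755552311, nat_lit 9476435858, nat_lit 10889868568,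 nat_lit 7047159556, nat_lit 8402129080], nat_lit 1271250, nat_lit 1271250, nat_lit 111251, nat_lit 230001, nat_lit 490000, nat_lit 1100001, [nat_lit 1100000, nat_lit 1442500], [nat_lit 31, nat_lit 40, nat_lit 40, nat_lit 80]⟩,
 zbF0, [⟨nat_lit 0, nat_lit 100, nat_lit 99, nat_lit 49, nat_lit 675891001⟩, ⟨nat_lit 0, nat_lit 100, nat_lit 99, nat_lit 45, nat_lit 1045993812⟩, ⟨nat_lit 4, nat_lit 93, nat_lit 100, nat_lit 69, nat_lit 855462640⟩]⟩
noncomputable def p047_l92 : Lf2 := ⟨nat_lit 0, nat_lit 2, [nat_lit 10, nat_lit 5, nat_lit 5, nat_lit 20], false, nat_lit 240, nat_lit 304, nat_lit 0, nat_lit 160, ⟨nat_lit 1000, nat_lit 0, nat_lit 0, nat_lit 0, nat_lit 0, nat_lit 0, nat_lit 0, nat_lit 0, nat_lit 0, nat_lit 0, nat_lit 0, nat_lit 0, nat_lit 0, nat_lit 0, nat_lit 0, nat_lit 0, false, false⟩,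
 nat_lit 16044, nat_lit 0, nat_lit 0, nat_lit 6800, nat_lit 7832, nat_lit 8493, nat_lit 2225, nat_lit 0, nat_lit 0, nat_lit 3313, nat_lit 0, nat_lit 0, nat_lit 0, nat_lit 0, nat_lit 0, nat_lit 0, nat_lit 0, nat_lit 0, [],
 ⟨p047_k35, nat_lit 0, nat_lit 0, nat_lit 0, nat_lit 0, nat_lit 98586, [nat_lit 4688000000, nat_lit 6250000000, nat_lit 7968000000], [], [nat_lit 18841447192, nat_lit 19183627076, nat_lit 17408025048, nat_lit 17718563540, nat_lit 23868150798, nat_lit 24299817497, nat_lit 22104525825, nat_lit 22441000028], nat_lit 1271250, nat_lit 1271250, nat_lit 111251, nat_lit 230001, nat_lit 1271250, nat_lit 1271250, [nat_lit 1100000, nat_lit 1442500, nat_lit 1271250], [nat_lit 9, nat_lit 40, nat_lit 40, nat_lit 80]⟩, ⟨p047_k36, nat_lit 0, nat_lit 0, nat_lit 0, nat_lit 0, nat_lit 104312, [nat_lit 4688000000, nat_lit 6250000000, nat_lit 7968000000], [], [nat_lit 18452468113, nat_lit 19600213550, nat_lit 16046031629, nat_lit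 17189157218, nat_lit 13736240460, nat_lit 14624664433, nat_lit 13284897288, nat_lit 13083180192], nat_lit 1271250, nat_lit 1271250, nat_lit 111251, nat_lit 230001, nat_lit 0, nat_lit 1100001, [nat_lit 1100000, nat_lit 1442500, nat_lit 1271250], [nat_lit 9, nat_lit 40, nat_lit 40, nat_lit 80]⟩,
 zbF0, [⟨nat_lit 0, nat_lit 100, nat_lit 99, nat_lit 49, nat_lit 1385392253⟩, ⟨nat_lit 4, nat_lit 93, nat_lit 100, nat_lit 69, nat_lit 917211340⟩]⟩
noncomputable def p047_l93 : Lf2 := ⟨nat_lit 0, nat_lit 2, [nat_lit 10, nat_lit 5, nat_lit 5, nat_lit 20], false, nat_lit 240, nat_lit 304, nat_lit 0, nat_lit 160, ⟨nat_lit 1000, nat_lit 0, nat_lit 0, nat_lit 0, nat_lit 0, nat_lit 0, nat_lit 0, nat_lit 0, nat_lit 0, nat_lit 0, nat_lit 0, nat_lit 0, nat_lit 0, nat_lit 0, nat_lit 0, nat_lit 0, false, false⟩,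
 nat_lit 21323, nat_lit 0, nat_lit 0, nat_lit 4293, nat_lit 11846, nat_lit 7927, nat_lit 0, nat_lit 0, nat_lit 0, nat_lit 7194, nat_lit 0, nat_lit 0, nat_lit 0, nat_lit 14601667792459, nat_lit 0, nat_lit 0, nat_lit 0, nat_lit 0, [],
 ⟨p047_k37, nat_lit 0, nat_lit 0, nat_lit 0, nat_lit 0, nat_lit 162606, [nat_lit 4688000000, nat_lit 7968000000], [], [nat_lit 20898153788, nat_lit 21387095509, nat_lit 18700905364, nat_lit 19187049678, nat_lit 27495539753, nat_lit 28003324021, nat_lit 25256345177, nat_lit 25638451439], nat_lit 1271250, nat_lit 1271250, nat_lit 134400, nat_lit 230001, nat_lit 1271250, nat_lit 1271250, [nat_lit 1100000, nat_lit 1785000], [nat_lit 39, nat_lit 40, nat_lit 40, nat_lit 80]⟩, ⟨p047_k37, nat_lit 0, nat_lit 0, nat_lit 0, nat_lit 0, nat_lit 162606, [nat_lit 4688000000, nat_lit 7968000000], [], [nat_lit 18253666526, nat_lit 18582352552, nat_lit 16467464327, nat_lit 16795073649, nat_lit 13565929841, nat_lit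 13795246607, nat_lit 12414852053, nat_lit 12642189449], nat_lit 1271250, nat_lit 1271250, nat_lit 134400, nat_lit 230001, nat_lit 0, nat_lit 1100001, [nat_lit 1100000, nat_lit 1785000], [nat_lit 39, nat_lit 40, nat_lit 40, nat_lit 80]⟩,
 zbF0, [⟨nat_lit 0, nat_lit 100, nat_lit 100, nat_lit 52, nat_lit 1798311029⟩, ⟨nat_lit 4, nat_lit 93, nat_lit 100, nat_lit 69, nat_lit 1094968313⟩]⟩
noncomputable def p047_l94 : Lf2 := ⟨nat_lit 0, nat_lit 2, [nat_lit 10, nat_lit 5, nat_lit 5, nat_lit 20], false, nat_lit 240, nat_lit 304, nat_lit 0, nat_lit 160, ⟨nat_lit 1000, nat_lit 0, nat_lit 0, nat_lit 0, nat_lit 0, nat_lit 0, nat_lit 0, nat_lit 0, nat_lit 0, nat_lit 0, nat_lit 0, nat_lit 0, nat_lit 0, nat_lit 0, nat_lit 0, nat_lit 0, false, false⟩,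
 nat_lit 14120, nat_lit 0, nat_lit 0, nat_lit 7197, nat_lit 7956, nat_lit 7956, nat_lit 4153, nat_lit 0, nat_lit 0, nat_lit 5698, nat_lit 0, nat_lit 0, nat_lit 0, nat_lit 17986306623206, nat_lit 0, nat_lit 0, nat_lit 0, nat_lit 0, [],
 ⟨p047_k38, nat_lit 0, nat_lit 0, nat_lit 0, nat_lit 0, nat_lit 169457, [nat_lit 4688000000, nat_lit 7968000000], [], [nat_lit 18300444643, nat_lit 18452444569, nat_lit 17414668501, nat_lit 17539938195, nat_lit 23349545527, nat_lit 23523851032, nat_lit 22271573799, nat_lit 22393534372], nat_lit 1271250, nat_lit 1271250, nat_lit 157850, nat_lit 230001, nat_lit 1271250, nat_lit 1271250, [nat_lit 1100000, nat_lit 1785000], [nat_lit 39, nat_lit 40, nat_lit 40, nat_lit 80]⟩, ⟨p047_k38, nat_lit 0, nat_lit 0, nat_lit 0, nat_lit 0, nat_lit 169457, [nat_lit 4688000000, nat_lit 7968000000], [], [nat_lit 18008869430, nat_lit 18304314062, nat_lit 16662927603, nat_lit 16881857400, nat_lit 13321900284, nat_lit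 13474778829, nat_lit 12453302797, nat_lit 12605189172], nat_lit 1271250, nat_lit 1271250, nat_lit 157850, nat_lit 230001, nat_lit 0, nat_lit 1100001, [nat_lit 1100000, nat_lit 1785000], [nat_lit 39, nat_lit 40, nat_lit 40, nat_lit 80]⟩,
 zbF0, [⟨nat_lit 0, nat_lit 100, nat_lit 100, nat_lit 53, nat_lit 1472024994⟩, ⟨nat_lit 4, nat_lit 94, nat_lit 100, nat_lit 69, nat_lit 919675599⟩]⟩
noncomputable def p047_l95 : Lf2 := ⟨nat_lit 0, nat_lit 4, [nat_lit 38, nat_lit 5, nat_lit 5, nat_lit 20], false, nat_lit 240, nat_lit 304, nat_lit 0, nat_lit 160, ⟨nat_lit 1000, nat_lit 0, nat_lit 0, nat_lit 0, nat_lit 0, nat_lit 0, nat_lit 0, nat_lit 0, nat_lit 0, nat_lit 0, nat_lit 0, nat_lit 0, nat_lit 0, nat_lit 0, nat_lit 0, nat_lit 0, false, false⟩,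
 nat_lit 16576, nat_lit 0, nat_lit 0, nat_lit 12050, nat_lit 8173, nat_lit 8775, nat_lit 2032, nat_lit 0, nat_lit 0, nat_lit 2504, nat_lit 0, nat_lit 0, nat_lit 0, nat_lit 9439323472177, nat_lit 0, nat_lit 0, nat_lit 0, nat_lit 0, [],
 ⟨p047_k9, nat_lit 0, nat_lit 0, nat_lit 0, nat_lit 0, nat_lit 82747, [nat_lit 4688000000, nat_lit 6250000000, nat_lit 7968000000], [], [nat_lit 19038352572, nat_lit 19425503171, nat_lit 17228293772, nat_lit 17612083839, nat_lit 24231645524, nat_lit 24674168218, nat_lit 22380006789, nat_lit 22689215020], nat_lit 1271250, nat_lit 1271250, nat_lit 111251, nat_lit 230001, nat_lit 1271250, nat_lit 1271250, [nat_lit 1100000, nat_lit 1442500, nat_lit 1271250], [nat_lit 9, nat_lit 40, nat_lit 40, nat_lit 80]⟩, ⟨p047_k8, nat_lit 0, nat_lit 0, nat_lit 0, nat_lit 0, nat_lit 87616, [nat_lit 4688000000, nat_lit 6250000000, nat_lit 7968000000], [], [nat_lit 19846061900, nat_lit 21605965363, nat_lit 17350855200,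 nat_lit 19103729063, nat_lit 13637168400, nat_lit 15117730088, nat_lit 12743405400, nat_lit 13219107488], nat_lit 1271250, nat_lit 1271250, nat_lit 111251, nat_lit 230001, nat_lit 0, nat_lit 1100001, [nat_lit 1100000, nat_lit 1442500, nat_lit 1271250], [nat_lit 9, nat_lit 40, nat_lit 40, nat_lit 80]⟩,
 zbF0, [⟨nat_lit 0, nat_lit 100, nat_lit 99, nat_lit 50, nat_lit 1844474760⟩, ⟨nat_lit 4, nat_lit 93, nat_lit 100, nat_lit 69, nat_lit 936006206⟩]⟩
noncomputable def p047_l96 : Lf2 := ⟨nat_lit 0, nat_lit 4, [nat_lit 38, nat_lit 5, nat_lit 5, nat_lit 20], false, nat_lit 240, nat_lit 304, nat_lit 0, nat_lit 160, ⟨nat_lit 1000, nat_lit 0, nat_lit 0, nat_lit 0, nat_lit 0, nat_lit 0, nat_lit 0, nat_lit 0, nat_lit 0, nat_lit 0, nat_lit 0, nat_lit 0, nat_lit 0, nat_lit 0, nat_lit 0, nat_lit 0, false, false⟩,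
 nat_lit 27916, nat_lit 0, nat_lit 0, nat_lit 0, nat_lit 8541, nat_lit 14778, nat_lit 5047, nat_lit 0, nat_lit 0, nat_lit 279, nat_lit 0, nat_lit 0, nat_lit 0, nat_lit 0, nat_lit 0, nat_lit 0, nat_lit 0, nat_lit 0, [],
 ⟨p047_k9, nat_lit 0, nat_lit 0, nat_lit 0, nat_lit 0, nat_lit 177219, [nat_lit 4688000000, nat_lit 6250000000, nat_lit 7968000000], [], [nat_lit 14858346237, nat_lit 15220665146, nat_lit 13528362639, nat_lit 13874899819, nat_lit 22156891220, nat_lit 22612178454, nat_lit 19824758461, nat_lit 20266092208], nat_lit 1271250, nat_lit 1271250, nat_lit 230001, nat_lit 490000, nat_lit 1271250, nat_lit 1271250, [nat_lit 1100000, nat_lit 1442500, nat_lit 1271250], [nat_lit 9, nat_lit 40, nat_lit 40, nat_lit 80]⟩, ⟨p047_k8, nat_lit 0, nat_lit 0, nat_lit 0, nat_lit 0, nat_lit 187645, [nat_lit 4688000000, nat_lit 6250000000, nat_lit 7968000000], [], [nat_lit 27125824624, nat_lit 24277103104, nat_lit 19167796030, nat_lit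 20796550717, nat_lit 11806939406, nat_lit 13181487410, nat_lit 8868550406, nat_lit 10176676547], nat_lit 1271250, nat_lit 1271250, nat_lit 230001, nat_lit 490000, nat_lit 0, nat_lit 1100001, [nat_lit 1100000, nat_lit 1442500, nat_lit 1271250], [nat_lit 9, nat_lit 40, nat_lit 40, nat_lit 80]⟩,
 zbF0, [⟨nat_lit 4, nat_lit 93, nat_lit 100, nat_lit 69, nat_lit 1185143784⟩]⟩
noncomputable def p047_l97 : Lf2 := ⟨nat_lit 0, nat_lit 4, [nat_lit 38, nat_lit 5, nat_lit 5, nat_lit 20], false, nat_lit 240, nat_lit 304, nat_lit 160, nat_lit 240, ⟨nat_lit 1000, nat_lit 0, nat_lit 0, nat_lit 0, nat_lit 0, nat_lit 0, nat_lit 0, nat_lit 0, nat_lit 0, nat_lit 0, nat_lit 0, nat_lit 0, nat_lit 0, nat_lit 0, nat_lit 0, nat_lit 0, false, false⟩,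
 nat_lit 21976, nat_lit 0, nat_lit 0, nat_lit 0, nat_lit 7758, nat_lit 11634, nat_lit 2477, nat_lit 0, nat_lit 0, nat_lit 2096, nat_lit 0, nat_lit 0, nat_lit 0, nat_lit 0, nat_lit 0, nat_lit 0, nat_lit 0, nat_lit 0, [],
 ⟨p047_k33, nat_lit 0, nat_lit 0, nat_lit 0, nat_lit 0, nat_lit 152347, [nat_lit 2032000001, nat_lit 4688000000, nat_lit 6250000000, nat_lit 7968000000], [], [nat_lit 17939016292, nat_lit 18316359398, nat_lit 15173745318, nat_lit 15532174437, nat_lit 23295413522, nat_lit 23634073341, nat_lit 20349770835, nat_lit 20672427455], nat_lit 1271250, nat_lit 1271250, nat_lit 111251, nat_lit 490000, nat_lit 1271250, nat_lit 1271250, [nat_lit 490000, nat_lit 1100000, nat_lit 1442500, nat_lit 1271250], [nat_lit 98, nat_lit 40, nat_lit 20, nat_lit 40]⟩, ⟨p047_k39, nat_lit 0, nat_lit 0, nat_lit 0, nat_lit 0, nat_lit 161310, [nat_lit 2032000000, nat_lit 4688000000, nat_lit 6250000000, nat_lit 7968000000], [], [nat_lit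 11573641136, nat_lit 12776091976, nat_lit 7153165608, nat_lit 8290442936, nat_lit 16650797840, nat_lit 17623369516, nat_lit 12022176840, nat_lit 12942761514], nat_lit 1271250, nat_lit 1271250, nat_lit 111251, nat_lit 490000, nat_lit 1100001, nat_lit 1785000, [nat_lit 490000, nat_lit 1100000, nat_lit 1442500, nat_lit 1271250], [nat_lit 98, nat_lit 40, nat_lit 20, nat_lit 40]⟩,
 zbF0, [⟨nat_lit 0, nat_lit 100, nat_lit 99, nat_lit 52, nat_lit 651744475⟩, ⟨nat_lit 16, nat_lit 100, nat_lit 93, nat_lit 69, nat_lit 224333399⟩, ⟨nat_lit 23, nat_lit 99, nat_lit 100, nat_lit 71, nat_lit 705322711⟩]⟩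
noncomputable def p047_l98 : Lf2 := ⟨nat_lit 0, nat_lit 4, [nat_lit 38, nat_lit 5, nat_lit 5, nat_lit 20], false, nat_lit 240, nat_lit 304, nat_lit 160, nat_lit 240, ⟨nat_lit 1000, nat_lit 0, nat_lit 0, nat_lit 0, nat_lit 0, nat_lit 0, nat_lit 0, nat_lit 0, nat_lit 0, nat_lit 0, nat_lit 0, nat_lit 0, nat_lit 0, nat_lit 0, nat_lit 0, nat_lit 0, false, false⟩,
 nat_lit 18952, nat_lit 0, nat_lit 0, nat_lit 0, nat_lit 8472, nat_lit 10528, nat_lit 1957, nat_lit 0, nat_lit 0, nat_lit 2084, nat_lit 0, nat_lit 0, nat_lit 0, nat_lit 8318079458757, nat_lit 0, nat_lit 0, nat_lit 0, nat_lit 0, [],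
 ⟨p047_k40, nat_lit 0, nat_lit 0, nat_lit 0, nat_lit 0, nat_lit 177219, [nat_lit 4688000000, nat_lit 5449500000, nat_lit 7089500001, nat_lit 7968000000], [], [nat_lit 18284320032, nat_lit 18680780065, nat_lit 15507453237, nat_lit 15835259185, nat_lit 23585218938, nat_lit 23981303535, nat_lit 20545925140, nat_lit 20867427500], nat_lit 1271250, nat_lit 1271250, nat_lit 134400, nat_lit 490000, nat_lit 1271250, nat_lit 1271250, [nat_lit 1100000, nat_lit 1271250, nat_lit 1271250, nat_lit 1271250], [nat_lit 129, nat_lit 40, nat_lit 20, nat_lit 40]⟩, ⟨p047_k40, nat_lit 0, nat_lit 0, nat_lit 0, nat_lit 0, nat_lit 177219, [nat_lit 4688000000, nat_lit 5449500000, nat_lit 7089500000, nat_lit 7968000000], [], [nat_lit 12315641026, nat_lit 12874636176, nat_lit 8736735912, nat_lit 9267166700, nat_lit 16921234968, nat_lit 17375350800, nat_lit 14509628376, nat_lit 13596075592], nat_lit 1271250, nat_lit 1271250, nat_lit 134400, nat_lit 490000,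 nat_lit 1100001, nat_lit 1785000, [nat_lit 1100000, nat_lit 1271250, nat_lit 1271250, nat_lit 1271250], [nat_lit 129, nat_lit 40, nat_lit 20, nat_lit 40]⟩,
 zbF0, [⟨nat_lit 0, nat_lit 100, nat_lit 100, nat_lit 55, nat_lit 814670979⟩, ⟨nat_lit 4, nat_lit 93, nat_lit 100, nat_lit 69, nat_lit 558304682⟩, ⟨nat_lit 11, nat_lit 100, nat_lit 100, nat_lit 72, nat_lit 373629383⟩]⟩
noncomputable def p047_l99 : Lf2 := ⟨nat_lit 0, nat_lit 4, [nat_lit 38, nat_lit 5, nat_lit 5, nat_lit 20], false, nat_lit 240, nat_lit 304, nat_lit 240, nat_lit 312, ⟨nat_lit 400, nat_lit 0, nat_lit 600, nat_lit 6, nat_lit 100, nat_lit 600, nat_lit 194, nat_lit 600, nat_lit 4527, nat_lit 228, nat_lit 93750, nat_lit 290, nat_lit 49891717, nat_lit 0, nat_lit 0, nat_lit 3801123, false, false⟩,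
 nat_lit 9286, nat_lit 0, nat_lit 0, nat_lit 0, nat_lit 5158, nat_lit 4916, nat_lit 1181, nat_lit 0, nat_lit 0, nat_lit 633, nat_lit 0, nat_lit 0, nat_lit 0, nat_lit 18351304163769, nat_lit 0, nat_lit 147480, nat_lit 0, nat_lit 0, [(nat_lit 6, [(nat_lit 3, nat_lit 42), (nat_lit 4, nat_lit 558)])],
 ⟨p047_k33, nat_lit 0, nat_lit 0, nat_lit 0, nat_lit 0, nat_lit 177219, [nat_lit 2352611201, nat_lit 2283845600, nat_lit 2554477600, nat_lit 2774997600], [], [nat_lit 16627681492, nat_lit 16931946398, nat_lit 15165964769, nat_lit 15439990929, nat_lit 20677575482, nat_lit 20954970787, nat_lit 19066150875, nat_lit 19330764315], nat_lit 1271250, nat_lit 1271250, nat_lit 111251, nat_lit 490000, nat_lit 1271250, nat_lit 1271250, [nat_lit 490000, nat_lit 1100000, nat_lit 1442500, nat_lit 1271250], [nat_lit 98, nat_lit 40, nat_lit 20, nat_lit 40]⟩, ⟨p047_k39, nat_lit 0, nat_lit 0, nat_lit 0, nat_lit 0, nat_lit 187645, [nat_lit 812800000,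 nat_lit 1875200000, nat_lit 2500000000, nat_lit 3187200000], [], [nat_lit 6843409485, nat_lit 7452450828, nat_lit 4863253885, nat_lit 5436292699, nat_lit 11177121969, nat_lit 11852392657, nat_lit 8519203504, nat_lit 9169220377], nat_lit 1271250, nat_lit 1271250, nat_lit 111251, nat_lit 490000, nat_lit 1271250, nat_lit 1271250, [nat_lit 490000, nat_lit 1100000, nat_lit 1442500, nat_lit 1271250], [nat_lit 98, nat_lit 40, nat_lit 20, nat_lit 40]⟩,
 ⟨nat_lit 6020, nat_lit 6124, ⟨.ofNat (nat_lit 180982), .ofNat (nat_lit 301553), .ofNat (nat_lit 196993), .ofNat (nat_lit 317564), .ofNat (nat_lit 185145), .ofNat (nat_lit 304325), .ofNat (nat_lit 201152), .ofNat (nat_lit 320331)⟩, ⟨.ofNat (nat_lit 409594), .ofNat (nat_lit 538203), .ofNat (nat_lit 430942), .ofNat (nat_lit 559551), .ofNat (nat_lit 408713), .ofNat (nat_lit 535837), .ofNat (nat_lit 430055), .ofNat (nat_lit 557179)⟩⟩, [⟨nat_lit 0, nat_lit 100, nat_lit 100, nat_lit 55,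 nat_lit 79420326⟩, ⟨nat_lit 11, nat_lit 100, nat_lit 100, nat_lit 71, nat_lit 566887157⟩]⟩
noncomputable def p047_l100 : Lf2 := ⟨nat_lit 0, nat_lit 4, [nat_lit 38, nat_lit 5, nat_lit 5, nat_lit 20], false, nat_lit 240, nat_lit 304, nat_lit 0, nat_lit 312, ⟨nat_lit 0, nat_lit 0, nat_lit 1000, nat_lit 6, nat_lit 100, nat_lit 1000, nat_lit 194, nat_lit 1000, nat_lit 4527, nat_lit 228, nat_lit 93750, nat_lit 290, nat_lit 49891717, nat_lit 0, nat_lit 0, nat_lit 3801123, false, false⟩,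
 nat_lit 5863, nat_lit 0, nat_lit 0, nat_lit 0, nat_lit 3257, nat_lit 3103, nat_lit 684, nat_lit 0, nat_lit 0, nat_lit 0, nat_lit 227, nat_lit 0, nat_lit 0, nat_lit 4216943199544, nat_lit 40, nat_lit 381250, nat_lit 0, nat_lit 0, [(nat_lit 6, [(nat_lit 4, nat_lit 125), (nat_lit 5, nat_lit 875)])],
 ⟨p047_k33, nat_lit 0, nat_lit 0, nat_lit 0, nat_lit 0, nat_lit 177219, [nat_lit 1248216667, nat_lit 1413233334, nat_lit 840200001, nat_lit 110499999], [], [nat_lit 15224111146, nat_lit 15496579273, nat_lit 14759483666, nat_lit 15006190257, nat_lit 18765388601, nat_lit 18996815246, nat_lit 18129482676, nat_lit 18351657621], nat_lit 1271250, nat_lit 1271250, nat_lit 111251, nat_lit 490000, nat_lit 1271250, nat_lit 1271250, [nat_lit 490000, nat_lit 1100000, nat_lit 1442500, nat_lit 1271250], [nat_lit 98, nat_lit 40, nat_lit 20, nat_lit 40]⟩, ⟨p047_k8, nat_lit 0, nat_lit 0, nat_lit 274, nat_lit 0, nat_lit 187645, [nat_lit 3632000000,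 nat_lit 4540000000, nat_lit 5448000000], [], [nat_lit 13983801506, nat_lit 12762558451, nat_lit 9111179224, nat_lit 8662822660, nat_lit 11791805971, nat_lit 10728214554, nat_lit 12247778788, nat_lit 11204758400], nat_lit 1271250, nat_lit 1271250, nat_lit 111251, nat_lit 490000, nat_lit 0, nat_lit 2203500, [nat_lit 1100000, nat_lit 1442500, nat_lit 1271250], [nat_lit 9, nat_lit 40, nat_lit 40, nat_lit 80, nat_lit 2, nat_lit 317, nat_lit 100, nat_lit 11]⟩,
 ⟨nat_lit 6020, nat_lit 6124, ⟨.ofNat (nat_lit 180982), .ofNat (nat_lit 301553), .ofNat (nat_lit 196993), .ofNat (nat_lit 317564), .ofNat (nat_lit 185145), .ofNat (nat_lit 304325), .ofNat (nat_lit 201152), .ofNat (nat_lit 320331)⟩, ⟨.ofNat (nat_lit 409594), .ofNat (nat_lit 538203), .ofNat (nat_lit 430942), .ofNat (nat_lit 559551), .ofNat (nat_lit 408713), .ofNat (nat_lit 535837), .ofNat (nat_lit 430055), .ofNat (nat_lit 557179)⟩⟩, [⟨nat_lit 16, nat_lit 100, nat_lit 93, nat_lit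 69, nat_lit 261577103⟩, ⟨nat_lit 23, nat_lit 99, nat_lit 100, nat_lit 71, nat_lit 115427755⟩]⟩
noncomputable def b_V_600_600_10_48 : St := ⟨true, nat_lit 1, nat_lit 1, nat_lit 1, nat_lit 80, nat_lit 250, nat_lit 255, nat_lit 240, nat_lit 260, nat_lit 20, nat_lit 80, nat_lit 40, nat_lit 60, nat_lit 240, nat_lit 304, nat_lit 0, nat_lit 312, nat_lit 0, nat_lit 16, nat_lit 0, nat_lit 600, nat_lit 0, nat_lit 0⟩
theorem d_V_600_600_10_48 (h : EB TB.env) : Dead b_V_600_600_10_48 := chkB_sound0 h (T :=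
(.ord (.spl (nat_lit 7) (nat_lit 300)
(.leaf p047_l89)
(.spl (nat_lit 8) (nat_lit 800)
(.spl (nat_lit 5) (nat_lit 160)
(.spl (nat_lit 2) (nat_lit 40)
(.spl (nat_lit 6) (nat_lit 8)
(.spl (nat_lit 1) (nat_lit 250)
(.spl (nat_lit 6) (nat_lit 4)
(.spl (nat_lit 5) (nat_lit 80)
(.leaf p047_l90)
(.leaf p047_l91))
(.leaf p047_l92))
(.trZ (nat_lit 0) (nat_lit 100) (nat_lit 100) (nat_lit 50) (nat_lit 24) (.spl (nat_lit 1) (nat_lit 253)
(.leaf p047_l93)
(.ord (.trZ (nat_lit 0) (nat_lit 100) (nat_lit 100) (nat_lit 53) (nat_lit 28) (.leaf p047_l94))))))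
(.leaf p047_l95))
(.leaf p047_l96))
(.spl (nat_lit 5) (nat_lit 240)
(.spl (nat_lit 1) (nat_lit 250)
(.leaf p047_l97)
(.trZ (nat_lit 0) (nat_lit 100) (nat_lit 100) (nat_lit 50) (nat_lit 24) (.leaf p047_l98)))
(.leaf p047_l99)))
(.leaf p047_l100))))) (by decide +kernel)
noncomputable def p047_l101 : Lf2 := ⟨nat_lit 0, nat_lit 4, [nat_lit 38, nat_lit 5, nat_lit 5, nat_lit 20], true, nat_lit 240, nat_lit 300, nat_lit 0, nat_lit 312, ⟨nat_lit 0, nat_lit 1000, nat_lit 0, nat_lit 6, nat_lit 103, nat_lit 1000, nat_lit 191, nat_lit 0, nat_lit 0, nat_lit 0, nat_lit 0, nat_lit 0, nat_lit 49946045, nat_lit 4710563, nat_lit 12343392, nat_lit 3811538, false, false⟩,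
 nat_lit 0, nat_lit 1163, nat_lit 0, nat_lit 0, nat_lit 661, nat_lit 0, nat_lit 0, nat_lit 0, nat_lit 289, nat_lit 0, nat_lit 0, nat_lit 0, nat_lit 0, nat_lit 11597956785912, nat_lit 0, nat_lit 250000, nat_lit 0, nat_lit 0, [(nat_lit 6, [(nat_lit 0, nat_lit 1000)])],
 ⟨p047_k41, nat_lit 0, nat_lit 0, nat_lit 0, nat_lit 0, nat_lit 221670, [nat_lit 1564000000, nat_lit 2639600001, nat_lit 3087600001, nat_lit 3486799999], [], [nat_lit 13522020956, nat_lit 13736219536, nat_lit 14335764245, nat_lit 14539820418, nat_lit 16139680747, nat_lit 16337171270, nat_lit 16776956101, nat_lit 16968630979], nat_lit 1271250, nat_lit 1271250, nat_lit 111251, nat_lit 490000, nat_lit 1271250, nat_lit 1271250, [nat_lit 490000, nat_lit 1100000, nat_lit 1442500, nat_lit 1271250], [nat_lit 98, nat_lit 40, nat_lit 20, nat_lit 40]⟩, C1.Rw.none,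
 ⟨nat_lit 5916, nat_lit 6021, ⟨.ofNat (nat_lit 185145), .ofNat (nat_lit 304325), .ofNat (nat_lit 206488), .ofNat (nat_lit 325667), .ofNat (nat_lit 189276), .ofNat (nat_lit 307076), .ofNat (nat_lit 210615), .ofNat (nat_lit 328416)⟩, ⟨.ofNat (nat_lit 408713), .ofNat (nat_lit 527892), .ofNat (nat_lit 430055), .ofNat (nat_lit 549234), .ofNat (nat_lit 407818), .ofNat (nat_lit 525618), .ofNat (nat_lit 429157), .ofNat (nat_lit 546957)⟩⟩, [⟨nat_lit 0, nat_lit 100, nat_lit 100, nat_lit 60, nat_lit 34539416⟩]⟩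
noncomputable def p047_l102 : Lf2 := ⟨nat_lit 0, nat_lit 2, [nat_lit 10, nat_lit 5, nat_lit 5, nat_lit 20], true, nat_lit 240, nat_lit 280, nat_lit 0, nat_lit 288, ⟨nat_lit 0, nat_lit 0, nat_lit 1000, nat_lit 6, nat_lit 85, nat_lit 1000, nat_lit 183, nat_lit 1000, nat_lit 27996, nat_lit 255, nat_lit 68267, nat_lit 279, nat_lit 51815937, nat_lit 0, nat_lit 0, nat_lit 3479534, false, false⟩,
 nat_lit 0, nat_lit 5906, nat_lit 0, nat_lit 0, nat_lit 3359, nat_lit 0, nat_lit 855, nat_lit 0, nat_lit 0, nat_lit 0, nat_lit 0, nat_lit 0, nat_lit 0, nat_lit 0, nat_lit 16, nat_lit 316000, nat_lit 0, nat_lit 0, [(nat_lit 6, [(nat_lit 4, nat_lit 560), (nat_lit 5, nat_lit 440)])],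
 ⟨p047_k42, nat_lit 0, nat_lit 0, nat_lit 0, nat_lit 0, nat_lit 168893, [nat_lit 1304282667, nat_lit 983877334, nat_lit 384560000, nat_lit 4944000], [], [nat_lit 15211705371, nat_lit 15487510376, nat_lit 14914319296, nat_lit 15172954947, nat_lit 17340356257, nat_lit 17647965224, nat_lit 16943144723, nat_lit 17207766840], nat_lit 1271250, nat_lit 1271250, nat_lit 111251, nat_lit 230001, nat_lit 1271250, nat_lit 1271250, [nat_lit 490000, nat_lit 1100000, nat_lit 1442500, nat_lit 1271250], [nat_lit 101, nat_lit 40, nat_lit 20, nat_lit 40]⟩, C1.Rw.none,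
 ⟨nat_lit 5916, nat_lit 6021, ⟨.ofNat (nat_lit 185145), .ofNat (nat_lit 224872), .ofNat (nat_lit 195817), .ofNat (nat_lit 235543), .ofNat (nat_lit 189276), .ofNat (nat_lit 228543), .ofNat (nat_lit 199946), .ofNat (nat_lit 239212)⟩, ⟨.ofNat (nat_lit 408713), .ofNat (nat_lit 488166), .ofNat (nat_lit 430055), .ofNat (nat_lit 509508), .ofNat (nat_lit 407818), .ofNat (nat_lit 486351), .ofNat (nat_lit 429157), .ofNat (nat_lit 507691)⟩⟩, [⟨nat_lit 0, nat_lit 100, nat_lit 98, nat_lit 51, nat_lit 214068199⟩, ⟨nat_lit 4, nat_lit 95, nat_lit 100, nat_lit 69, nat_lit 281960721⟩]⟩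
noncomputable def p047_l103 : Lf2 := ⟨nat_lit 0, nat_lit 4, [nat_lit 38, nat_lit 5, nat_lit 5, nat_lit 20], true, nat_lit 240, nat_lit 280, nat_lit 0, nat_lit 288, ⟨nat_lit 0, nat_lit 0, nat_lit 1000, nat_lit 6, nat_lit 85, nat_lit 1000, nat_lit 183, nat_lit 1000, nat_lit 27996, nat_lit 255, nat_lit 68267, nat_lit 279, nat_lit 51815937, nat_lit 0, nat_lit 0, nat_lit 3479534, false, false⟩,
 nat_lit 0, nat_lit 6986, nat_lit 0, nat_lit 0, nat_lit 3973, nat_lit 0, nat_lit 0, nat_lit 0, nat_lit 0, nat_lit 0, nat_lit 0, nat_lit 0, nat_lit 0, nat_lit 0, nat_lit 61, nat_lit 697000, nat_lit 0, nat_lit 0, [(nat_lit 6, [(nat_lit 5, nat_lit 505), (nat_lit 6, nat_lit 495)])],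
 ⟨p047_k43, nat_lit 0, nat_lit 0, nat_lit 0, nat_lit 0, nat_lit 81785, [nat_lit 2175536000, nat_lit 1624606000, nat_lit 658846001, nat_lit 21508000], [], [nat_lit 15994114185, nat_lit 16225546176, nat_lit 15589800560, nat_lit 15818312148, nat_lit 17820825803, nat_lit 18151283128, nat_lit 17402533838, nat_lit 17630397650], nat_lit 1271250, nat_lit 1271250, nat_lit 111251, nat_lit 230001, nat_lit 1271250, nat_lit 1271250, [nat_lit 1100000, nat_lit 1271250, nat_lit 1271250, nat_lit 1271250], [nat_lit 129, nat_lit 40, nat_lit 20, nat_lit 40]⟩, C1.Rw.none,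
 ⟨nat_lit 5916, nat_lit 6021, ⟨.ofNat (nat_lit 185145), .ofNat (nat_lit 224872), .ofNat (nat_lit 195817), .ofNat (nat_lit 235543), .ofNat (nat_lit 189276), .ofNat (nat_lit 228543), .ofNat (nat_lit 199946), .ofNat (nat_lit 239212)⟩, ⟨.ofNat (nat_lit 408713), .ofNat (nat_lit 488166), .ofNat (nat_lit 430055), .ofNat (nat_lit 509508), .ofNat (nat_lit 407818), .ofNat (nat_lit 486351), .ofNat (nat_lit 429157), .ofNat (nat_lit 507691)⟩⟩, [⟨nat_lit 0, nat_lit 100, nat_lit 98, nat_lit 51, nat_lit 219394546⟩, ⟨nat_lit 4, nat_lit 95, nat_lit 100, nat_lit 69, nat_lit 294564818⟩]⟩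
noncomputable def p047_l104 : Lf2 := ⟨nat_lit 0, nat_lit 4, [nat_lit 38, nat_lit 5, nat_lit 5, nat_lit 20], false, nat_lit 280, nat_lit 300, nat_lit 0, nat_lit 160, ⟨nat_lit 1000, nat_lit 0, nat_lit 0, nat_lit 0, nat_lit 0, nat_lit 0, nat_lit 0, nat_lit 0, nat_lit 0, nat_lit 0, nat_lit 0, nat_lit 0, nat_lit 0, nat_lit 0, nat_lit 0, nat_lit 0, false, false⟩,
 nat_lit 21360, nat_lit 0, nat_lit 0, nat_lit 2841, nat_lit 7938, nat_lit 11308, nat_lit 2358, nat_lit 0, nat_lit 0, nat_lit 1906, nat_lit 0, nat_lit 0, nat_lit 0, nat_lit 0, nat_lit 0, nat_lit 0, nat_lit 0, nat_lit 0, [],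
 ⟨p047_k41, nat_lit 0, nat_lit 0, nat_lit 0, nat_lit 0, nat_lit 173678, [nat_lit 2032000001, nat_lit 4688000000, nat_lit 6250000000, nat_lit 7968000000], [], [nat_lit 20920058282, nat_lit 21401536368, nat_lit 19549430396, nat_lit 19919681700, nat_lit 23336102526, nat_lit 23782051660, nat_lit 21540725038, nat_lit 21983641862], nat_lit 1271250, nat_lit 1271250, nat_lit 111251, nat_lit 230001, nat_lit 1271250, nat_lit 1271250, [nat_lit 490000, nat_lit 1100000, nat_lit 1442500, nat_lit 1271250], [nat_lit 98, nat_lit 40, nat_lit 20, nat_lit 40]⟩, ⟨p047_k39, nat_lit 0, nat_lit 0, nat_lit 0, nat_lit 0, nat_lit 189071, [nat_lit 2032000000, nat_lit 4688000000, nat_lit 6250000000, nat_lit 7968000000], [], [nat_lit 22058590580, nat_lit 23012836492, nat_lit 20018631028, nat_lit 20961104772, nat_lit 17921673712, nat_lit 15124481600, nat_lit 18152828000, nat_lit 15375458812], nat_lit 1271250, nat_lit 1271250, nat_lit 111251, nat_lit 230001,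 nat_lit 0, nat_lit 1100001, [nat_lit 490000, nat_lit 1100000, nat_lit 1442500, nat_lit 1271250], [nat_lit 98, nat_lit 40, nat_lit 20, nat_lit 40]⟩,
 zbF0, [⟨nat_lit 0, nat_lit 100, nat_lit 98, nat_lit 51, nat_lit 1068142183⟩, ⟨nat_lit 4, nat_lit 95, nat_lit 100, nat_lit 69, nat_lit 1236250330⟩]⟩
noncomputable def p047_l105 : Lf2 := ⟨nat_lit 0, nat_lit 4, [nat_lit 38, nat_lit 5, nat_lit 5, nat_lit 20], false, nat_lit 280, nat_lit 300, nat_lit 160, nat_lit 248, ⟨nat_lit 1000, nat_lit 0, nat_lit 0, nat_lit 0, nat_lit 0, nat_lit 0, nat_lit 0, nat_lit 0, nat_lit 0, nat_lit 0, nat_lit 0, nat_lit 0, nat_lit 0, nat_lit 0, nat_lit 0, nat_lit 0, false, false⟩,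
 nat_lit 21647, nat_lit 0, nat_lit 0, nat_lit 0, nat_lit 7868, nat_lit 11459, nat_lit 2353, nat_lit 0, nat_lit 0, nat_lit 2111, nat_lit 0, nat_lit 0, nat_lit 0, nat_lit 0, nat_lit 0, nat_lit 0, nat_lit 0, nat_lit 0, [],
 ⟨p047_k41, nat_lit 0, nat_lit 0, nat_lit 0, nat_lit 0, nat_lit 150816, [nat_lit 2032000001, nat_lit 4688000000, nat_lit 6250000000, nat_lit 7968000000], [], [nat_lit 20949105052, nat_lit 21344154848, nat_lit 19592981206, nat_lit 19961352450, nat_lit 23266877636, nat_lit 23710436760, nat_lit 21489963225, nat_lit 21930504932], nat_lit 1271250, nat_lit 1271250, nat_lit 111251, nat_lit 230001, nat_lit 1271250, nat_lit 1271250, [nat_lit 490000, nat_lit 1100000, nat_lit 1442500, nat_lit 1271250], [nat_lit 98, nat_lit 40, nat_lit 20, nat_lit 40]⟩, ⟨p047_k39, nat_lit 0, nat_lit 0, nat_lit 0, nat_lit 0, nat_lit 164183, [nat_lit 2032000000, nat_lit 4688000000, nat_lit 6250000000, nat_lit 7968000000], [], [nat_lit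 11686904811, nat_lit 12281676231, nat_lit 9642805527, nat_lit 10229874841, nat_lit 17493674096, nat_lit 17962399720, nat_lit 15412710509, nat_lit 15875722505], nat_lit 1271250, nat_lit 1271250, nat_lit 111251, nat_lit 230001, nat_lit 1100001, nat_lit 1853500, [nat_lit 490000, nat_lit 1100000, nat_lit 1442500, nat_lit 1271250], [nat_lit 98, nat_lit 40, nat_lit 20, nat_lit 40]⟩,
 zbF0, [⟨nat_lit 0, nat_lit 100, nat_lit 98, nat_lit 50, nat_lit 632301922⟩, ⟨nat_lit 4, nat_lit 95, nat_lit 100, nat_lit 69, nat_lit 825850365⟩, ⟨nat_lit 23, nat_lit 90, nat_lit 100, nat_lit 53, nat_lit 1106396753⟩]⟩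
noncomputable def p047_l106 : Lf2 := ⟨nat_lit 0, nat_lit 4, [nat_lit 38, nat_lit 5, nat_lit 5, nat_lit 20], false, nat_lit 280, nat_lit 300, nat_lit 160, nat_lit 248, ⟨nat_lit 1000, nat_lit 0, nat_lit 0, nat_lit 0, nat_lit 0, nat_lit 0, nat_lit 0, nat_lit 0, nat_lit 0, nat_lit 0, nat_lit 0, nat_lit 0, nat_lit 0, nat_lit 0, nat_lit 0, nat_lit 0, false, false⟩,
 nat_lit 20502, nat_lit 0, nat_lit 0, nat_lit 0, nat_lit 7931, nat_lit 11121, nat_lit 2356, nat_lit 0, nat_lit 0, nat_lit 1981, nat_lit 0, nat_lit 0, nat_lit 0, nat_lit 0, nat_lit 0, nat_lit 0, nat_lit 0, nat_lit 0, [],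
 ⟨p047_k41, nat_lit 0, nat_lit 0, nat_lit 0, nat_lit 0, nat_lit 173678, [nat_lit 2032000001, nat_lit 4688000000, nat_lit 6250000000, nat_lit 7968000000], [], [nat_lit 20649748184, nat_lit 21041518324, nat_lit 19554713602, nat_lit 19924776900, nat_lit 22970473801, nat_lit 23415577770, nat_lit 21535648857, nat_lit 21978328169], nat_lit 1271250, nat_lit 1271250, nat_lit 134400, nat_lit 230001, nat_lit 1271250, nat_lit 1271250, [nat_lit 490000, nat_lit 1100000, nat_lit 1442500, nat_lit 1271250], [nat_lit 98, nat_lit 40, nat_lit 20, nat_lit 40]⟩, ⟨p047_k44, nat_lit 0, nat_lit 0, nat_lit 0, nat_lit 0, nat_lit 183691, [nat_lit 2032000000, nat_lit 4688000000, nat_lit 6250000000, nat_lit 7968000000], [], [nat_lit 11943153082, nat_lit 12523954740, nat_lit 10358011954, nat_lit 10932796320, nat_lit 17526722709, nat_lit 17985395951, nat_lit 15914046123, nat_lit 16368018647], nat_lit 1271250, nat_lit 1271250, nat_lit 134400, nat_lit 230001,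 nat_lit 1100001, nat_lit 1853500, [nat_lit 490000, nat_lit 1100000, nat_lit 1442500, nat_lit 1271250], [nat_lit 98, nat_lit 40, nat_lit 20, nat_lit 40]⟩,
 zbF0, [⟨nat_lit 0, nat_lit 100, nat_lit 99, nat_lit 52, nat_lit 661362924⟩, ⟨nat_lit 16, nat_lit 100, nat_lit 95, nat_lit 69, nat_lit 772767336⟩, ⟨nat_lit 23, nat_lit 90, nat_lit 100, nat_lit 55, nat_lit 1041966459⟩]⟩
noncomputable def p047_l107 : Lf2 := ⟨nat_lit 0, nat_lit 2, [nat_lit 10, nat_lit 5, nat_lit 5, nat_lit 20], true, nat_lit 240, nat_lit 280, nat_lit 0, nat_lit 312, ⟨nat_lit 0, nat_lit 0, nat_lit 1000, nat_lit 6, nat_lit 109, nat_lit 1000, nat_lit 183, nat_lit 1000, nat_lit 27996, nat_lit 255, nat_lit 109350, nat_lit 296, nat_lit 50302744, nat_lit 0, nat_lit 0, nat_lit 3806967, false, false⟩,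
 nat_lit 0, nat_lit 6995, nat_lit 0, nat_lit 0, nat_lit 3978, nat_lit 0, nat_lit 463, nat_lit 0, nat_lit 0, nat_lit 0, nat_lit 0, nat_lit 0, nat_lit 0, nat_lit 0, nat_lit 44, nat_lit 1000000, nat_lit 0, nat_lit 0, [(nat_lit 6, [(nat_lit 6, nat_lit 1000)])],
 ⟨p047_k45, nat_lit 0, nat_lit 0, nat_lit 0, nat_lit 0, nat_lit 168893, [nat_lit 1681066667, nat_lit 1358400000, nat_lit 17600000], [], [nat_lit 15070411493, nat_lit 15331148514, nat_lit 14872024511, nat_lit 15129346826, nat_lit 17125970818, nat_lit 17418324328, nat_lit 16858796462, nat_lit 17092183254], nat_lit 1271250, nat_lit 1271250, nat_lit 230001, nat_lit 490000, nat_lit 1271250, nat_lit 1271250, [nat_lit 1100000, nat_lit 1271250, nat_lit 1271250], [nat_lit 105, nat_lit 40, nat_lit 20, nat_lit 40]⟩, C1.Rw.none,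
 ⟨nat_lit 5916, nat_lit 6021, ⟨.ofNat (nat_lit 224872), .ofNat (nat_lit 304325), .ofNat (nat_lit 235543), .ofNat (nat_lit 314996), .ofNat (nat_lit 228543), .ofNat (nat_lit 307076), .ofNat (nat_lit 239212), .ofNat (nat_lit 317746)⟩, ⟨.ofNat (nat_lit 408713), .ofNat (nat_lit 488166), .ofNat (nat_lit 430055), .ofNat (nat_lit 509508), .ofNat (nat_lit 407818), .ofNat (nat_lit 486351), .ofNat (nat_lit 429157), .ofNat (nat_lit 507691)⟩⟩, [⟨nat_lit 4, nat_lit 95, nat_lit 100, nat_lit 69, nat_lit 338555491⟩]⟩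
noncomputable def p047_l108 : Lf2 := ⟨nat_lit 0, nat_lit 2, [nat_lit 10, nat_lit 5, nat_lit 5, nat_lit 20], false, nat_lit 280, nat_lit 300, nat_lit 0, nat_lit 160, ⟨nat_lit 1000, nat_lit 0, nat_lit 0, nat_lit 0, nat_lit 0, nat_lit 0, nat_lit 0, nat_lit 0, nat_lit 0, nat_lit 0, nat_lit 0, nat_lit 0, nat_lit 0, nat_lit 0, nat_lit 0, nat_lit 0, false, false⟩,
 nat_lit 30348, nat_lit 0, nat_lit 0, nat_lit 0, nat_lit 7472, nat_lit 16066, nat_lit 5423, nat_lit 0, nat_lit 0, nat_lit 0, nat_lit 0, nat_lit 0, nat_lit 0, nat_lit 0, nat_lit 0, nat_lit 0, nat_lit 0, nat_lit 0, [],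
 ⟨p047_k46, nat_lit 0, nat_lit 0, nat_lit 0, nat_lit 0, nat_lit 168893, [nat_lit 4688000000, nat_lit 6250000000, nat_lit 7968000000], [], [nat_lit 19260270900, nat_lit 19657530656, nat_lit 18680944068, nat_lit 18998132448, nat_lit 21348048852, nat_lit 21774546120, nat_lit 20375981793, nat_lit 20796005832], nat_lit 1271250, nat_lit 1271250, nat_lit 230001, nat_lit 356250, nat_lit 1271250, nat_lit 1271250, [nat_lit 1100000, nat_lit 1442500, nat_lit 1271250], [nat_lit 9, nat_lit 40, nat_lit 40, nat_lit 80]⟩, ⟨p047_k36, nat_lit 0, nat_lit 0, nat_lit 0, nat_lit 0, nat_lit 183669, [nat_lit 4688000000, nat_lit 6250000000, nat_lit 7968000000], [], [nat_lit 26384977328, nat_lit 24441771368, nat_lit 19423048872, nat_lit 21216730392, nat_lit 8444715048, nat_lit 9953745720, nat_lit 6675899920, nat_lit 8152161792], nat_lit 1271250, nat_lit 1271250, nat_lit 230001, nat_lit 356250, nat_lit 0, nat_lit 1100001, [nat_lit 1100000, nat_lit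 1442500, nat_lit 1271250], [nat_lit 9, nat_lit 40, nat_lit 40, nat_lit 80]⟩,
 zbF0, [⟨nat_lit 4, nat_lit 95, nat_lit 100, nat_lit 69, nat_lit 1782170843⟩]⟩
noncomputable def p047_l109 : Lf2 := ⟨nat_lit 0, nat_lit 2, [nat_lit 10, nat_lit 5, nat_lit 5, nat_lit 20], false, nat_lit 280, nat_lit 300, nat_lit 160, nat_lit 276, ⟨nat_lit 315, nat_lit 0, nat_lit 685, nat_lit 6, nat_lit 101, nat_lit 685, nat_lit 207, nat_lit 685, nat_lit 8466, nat_lit 233, nat_lit 96267, nat_lit 291, nat_lit 48590172, nat_lit 0, nat_lit 0, nat_lit 3933898, false, false⟩,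
 nat_lit 8257, nat_lit 0, nat_lit 0, nat_lit 0, nat_lit 4696, nat_lit 4371, nat_lit 1277, nat_lit 0, nat_lit 0, nat_lit 0, nat_lit 0, nat_lit 0, nat_lit 0, nat_lit 0, nat_lit 0, nat_lit 169030, nat_lit 0, nat_lit 0, [(nat_lit 6, [(nat_lit 3, nat_lit 37), (nat_lit 4, nat_lit 648)])],
 ⟨p047_k47, nat_lit 0, nat_lit 0, nat_lit 0, nat_lit 0, nat_lit 168893, [nat_lit 2219835200, nat_lit 1943401600, nat_lit 2030695600, nat_lit 2043940600], [], [nat_lit 18025914458, nat_lit 18304609722, nat_lit 17780480753, nat_lit 18043834926, nat_lit 19310808742, nat_lit 19618399160, nat_lit 18975465356, nat_lit 19234934760], nat_lit 1271250, nat_lit 1271250, nat_lit 230001, nat_lit 356250, nat_lit 1271250, nat_lit 1271250, [nat_lit 490000, nat_lit 1100000, nat_lit 1442500, nat_lit 1271250], [nat_lit 98, nat_lit 40, nat_lit 40, nat_lit 80]⟩, ⟨p047_k48, nat_lit 0, nat_lit 0, nat_lit 0, nat_lit 0, nat_lit 183669, [nat_lit 640080000, nat_lit 1476720000,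 nat_lit 1968750000, nat_lit 2509920000], [], [nat_lit 7231309548, nat_lit 6110021289, nat_lit 4988733030, nat_lit 3875633840, nat_lit 6439472834, nat_lit 6738659326, nat_lit 5914118182, nat_lit 6207031667], nat_lit 1271250, nat_lit 1271250, nat_lit 230001, nat_lit 356250, nat_lit 1100001, nat_lit 2093250, [nat_lit 490000, nat_lit 1100000, nat_lit 1442500, nat_lit 1271250], [nat_lit 98, nat_lit 40, nat_lit 40, nat_lit 80]⟩,
 ⟨nat_lit 5916, nat_lit 6021, ⟨.ofNat (nat_lit 224872), .ofNat (nat_lit 264598), .ofNat (nat_lit 235543), .ofNat (nat_lit 275269), .ofNat (nat_lit 228543), .ofNat (nat_lit 267810), .ofNat (nat_lit 239212), .ofNat (nat_lit 278479)⟩, ⟨.ofNat (nat_lit 488166), .ofNat (nat_lit 527892), .ofNat (nat_lit 509508), .ofNat (nat_lit 549234), .ofNat (nat_lit 486351), .ofNat (nat_lit 525618), .ofNat (nat_lit 507691), .ofNat (nat_lit 546957)⟩⟩, [⟨nat_lit 16, nat_lit 100, nat_lit 95, nat_lit 69, nat_lit 236187432⟩, ⟨nat_lit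 16, nat_lit 100, nat_lit 90, nat_lit 74, nat_lit 203195471⟩, ⟨nat_lit 23, nat_lit 92, nat_lit 100, nat_lit 68, nat_lit 118900539⟩]⟩
noncomputable def p047_l110 : Lf2 := ⟨nat_lit 0, nat_lit 2, [nat_lit 10, nat_lit 5, nat_lit 5, nat_lit 20], true, nat_lit 280, nat_lit 300, nat_lit 0, nat_lit 300, ⟨nat_lit 0, nat_lit 0, nat_lit 1000, nat_lit 6, nat_lit 117, nat_lit 1000, nat_lit 207, nat_lit 1000, nat_lit 8466, nat_lit 233, nat_lit 126150, nat_lit 302, nat_lit 47611530, nat_lit 0, nat_lit 0, nat_lit 4134878, false, false⟩,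
 nat_lit 0, nat_lit 6916, nat_lit 0, nat_lit 0, nat_lit 3933, nat_lit 0, nat_lit 0, nat_lit 0, nat_lit 0, nat_lit 0, nat_lit 0, nat_lit 0, nat_lit 0, nat_lit 0, nat_lit 80, nat_lit 1000000, nat_lit 0, nat_lit 0, [(nat_lit 6, [(nat_lit 6, nat_lit 1000)])],
 ⟨p047_k46, nat_lit 0, nat_lit 0, nat_lit 0, nat_lit 0, nat_lit 168893, [nat_lit 2257066667, nat_lit 1408000000, nat_lit 211200000], [], [nat_lit 17178197790, nat_lit 17414566469, nat_lit 17047958113, nat_lit 17280059496, nat_lit 18385066692, nat_lit 18687514755, nat_lit 18090417461, nat_lit 18349260079], nat_lit 1271250, nat_lit 1271250, nat_lit 356250, nat_lit 490000, nat_lit 1271250, nat_lit 1271250, [nat_lit 1100000, nat_lit 1442500, nat_lit 1271250], [nat_lit 9, nat_lit 40, nat_lit 40, nat_lit 80]⟩, C1.Rw.none,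
 ⟨nat_lit 5916, nat_lit 6021, ⟨.ofNat (nat_lit 264598), .ofNat (nat_lit 304325), .ofNat (nat_lit 275269), .ofNat (nat_lit 314996), .ofNat (nat_lit 267810), .ofNat (nat_lit 307076), .ofNat (nat_lit 278479), .ofNat (nat_lit 317746)⟩, ⟨.ofNat (nat_lit 488166), .ofNat (nat_lit 527892), .ofNat (nat_lit 509508), .ofNat (nat_lit 549234), .ofNat (nat_lit 486351), .ofNat (nat_lit 525618), .ofNat (nat_lit 507691), .ofNat (nat_lit 546957)⟩⟩, [⟨nat_lit 16, nat_lit 100, nat_lit 90, nat_lit 74, nat_lit 395567243⟩]⟩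
noncomputable def p047_l111 : Lf2 := ⟨nat_lit 0, nat_lit 4, [nat_lit 38, nat_lit 5, nat_lit 5, nat_lit 20], true, nat_lit 240, nat_lit 300, nat_lit 0, nat_lit 312, ⟨nat_lit 0, nat_lit 0, nat_lit 1000, nat_lit 6, nat_lit 109, nat_lit 1000, nat_lit 191, nat_lit 1000, nat_lit 8466, nat_lit 233, nat_lit 109350, nat_lit 296, nat_lit 49574086, nat_lit 0, nat_lit 0, nat_lit 3887812, false, false⟩,
 nat_lit 0, nat_lit 6072, nat_lit 0, nat_lit 2298, nat_lit 3453, nat_lit 0, nat_lit 390, nat_lit 0, nat_lit 0, nat_lit 0, nat_lit 0, nat_lit 0, nat_lit 0, nat_lit 0, nat_lit 35, nat_lit 299950, nat_lit 0, nat_lit 0, [(nat_lit 6, [(nat_lit 4, nat_lit 667), (nat_lit 5, nat_lit 333)])],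
 ⟨p047_k41, nat_lit 0, nat_lit 0, nat_lit 0, nat_lit 0, nat_lit 81785, [nat_lit 1517301201, nat_lit 1276720801, nat_lit 770552001, nat_lit 103669599], [], [nat_lit 15313028440, nat_lit 15565877155, nat_lit 15172433398, nat_lit 15405079208, nat_lit 18416469970, nat_lit 18652948630, nat_lit 18112796873, nat_lit 18341717801], nat_lit 1271250, nat_lit 1271250, nat_lit 230001, nat_lit 490000, nat_lit 1271250, nat_lit 1271250, [nat_lit 490000, nat_lit 1100000, nat_lit 1442500, nat_lit 1271250], [nat_lit 98, nat_lit 40, nat_lit 40, nat_lit 80]⟩, C1.Rw.none,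
 ⟨nat_lit 5916, nat_lit 6021, ⟨.ofNat (nat_lit 224872), .ofNat (nat_lit 304325), .ofNat (nat_lit 235543), .ofNat (nat_lit 314996), .ofNat (nat_lit 228543), .ofNat (nat_lit 307076), .ofNat (nat_lit 239212), .ofNat (nat_lit 317746)⟩, ⟨.ofNat (nat_lit 408713), .ofNat (nat_lit 527892), .ofNat (nat_lit 430055), .ofNat (nat_lit 549234), .ofNat (nat_lit 407818), .ofNat (nat_lit 525618), .ofNat (nat_lit 429157), .ofNat (nat_lit 546957)⟩⟩, [⟨nat_lit 16, nat_lit 100, nat_lit 95, nat_lit 69, nat_lit 356341880⟩]⟩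
noncomputable def p047_l112 : Lf2 := ⟨nat_lit 0, nat_lit 4, [nat_lit 38, nat_lit 5, nat_lit 5, nat_lit 20], false, nat_lit 240, nat_lit 300, nat_lit 0, nat_lit 160, ⟨nat_lit 1000, nat_lit 0, nat_lit 0, nat_lit 0, nat_lit 0, nat_lit 0, nat_lit 0, nat_lit 0, nat_lit 0, nat_lit 0, nat_lit 0, nat_lit 0, nat_lit 0, nat_lit 0, nat_lit 0, nat_lit 0, false, false⟩,
 nat_lit 17419, nat_lit 0, nat_lit 0, nat_lit 3102, nat_lit 7564, nat_lit 9677, nat_lit 2226, nat_lit 0, nat_lit 0, nat_lit 1917, nat_lit 0, nat_lit 0, nat_lit 0, nat_lit 4023792966637, nat_lit 0, nat_lit 0, nat_lit 0, nat_lit 0, [],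
 ⟨p047_k41, nat_lit 0, nat_lit 0, nat_lit 0, nat_lit 0, nat_lit 221670, [nat_lit 2032000001, nat_lit 4688000000, nat_lit 6250000000, nat_lit 7968000000], [], [nat_lit 18209463938, nat_lit 18580475092, nat_lit 15775970746, nat_lit 16129301448, nat_lit 22688673190, nat_lit 23059486552, nat_lit 20108932358, nat_lit 20431964636], nat_lit 1271250, nat_lit 1271250, nat_lit 134400, nat_lit 490000, nat_lit 1271250, nat_lit 1271250, [nat_lit 490000, nat_lit 1100000, nat_lit 1442500, nat_lit 1271250], [nat_lit 98, nat_lit 40, nat_lit 20, nat_lit 40]⟩, ⟨p047_k33, nat_lit 0, nat_lit 0, nat_lit 0, nat_lit 0, nat_lit 227908, [nat_lit 2032000000, nat_lit 4688000000, nat_lit 6250000000, nat_lit 7968000000], [], [nat_lit 20587251786, nat_lit 21808470622, nat_lit 17331937862, nat_lit 18245866032, nat_lit 16590970683, nat_lit 15500199939, nat_lit 18473407521, nat_lit 16129841338], nat_lit 1271250, nat_lit 1271250, nat_lit 134400, nat_lit 490000,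 nat_lit 0, nat_lit 1100001, [nat_lit 490000, nat_lit 1100000, nat_lit 1442500, nat_lit 1271250], [nat_lit 98, nat_lit 40, nat_lit 20, nat_lit 40]⟩,
 zbF0, [⟨nat_lit 0, nat_lit 100, nat_lit 100, nat_lit 56, nat_lit 767947253⟩, ⟨nat_lit 4, nat_lit 95, nat_lit 100, nat_lit 69, nat_lit 887515707⟩]⟩
noncomputable def p047_l113 : Lf2 := ⟨nat_lit 0, nat_lit 4, [nat_lit 38, nat_lit 5, nat_lit 5, nat_lit 20], false, nat_lit 240, nat_lit 300, nat_lit 160, nat_lit 240, ⟨nat_lit 1000, nat_lit 0, nat_lit 0, nat_lit 0, nat_lit 0, nat_lit 0, nat_lit 0, nat_lit 0, nat_lit 0, nat_lit 0, nat_lit 0, nat_lit 0, nat_lit 0, nat_lit 0, nat_lit 0, nat_lit 0, false, false⟩,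
 nat_lit 19126, nat_lit 0, nat_lit 0, nat_lit 0, nat_lit 7614, nat_lit 10625, nat_lit 2229, nat_lit 0, nat_lit 0, nat_lit 1979, nat_lit 0, nat_lit 0, nat_lit 0, nat_lit 5254892863736, nat_lit 0, nat_lit 0, nat_lit 0, nat_lit 0, [],
 ⟨p047_k41, nat_lit 0, nat_lit 0, nat_lit 0, nat_lit 0, nat_lit 221670, [nat_lit 2032000001, nat_lit 4688000000, nat_lit 6250000000, nat_lit 7968000000], [], [nat_lit 18177370608, nat_lit 18549783132, nat_lit 15721175821, nat_lit 16075820548, nat_lit 22673913163, nat_lit 23108000342, nat_lit 20070679708, nat_lit 20394854586], nat_lit 1271250, nat_lit 1271250, nat_lit 134400, nat_lit 490000, nat_lit 1271250, nat_lit 1271250, [nat_lit 490000, nat_lit 1100000, nat_lit 1442500, nat_lit 1271250], [nat_lit 98, nat_lit 40, nat_lit 20, nat_lit 40]⟩, ⟨p047_k33, nat_lit 0, nat_lit 0, nat_lit 0, nat_lit 0, nat_lit 227908, [nat_lit 2032000000, nat_lit 4688000000, nat_lit 6250000000, nat_lit 7968000000], [],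 [nat_lit 12504788800, nat_lit 13629913101, nat_lit 8883125000, nat_lit 9950688500, nat_lit 17131159250, nat_lit 18085519250, nat_lit 13330902125, nat_lit 14198452750], nat_lit 1271250, nat_lit 1271250, nat_lit 134400, nat_lit 490000, nat_lit 1100001, nat_lit 1785000, [nat_lit 490000, nat_lit 1100000, nat_lit 1442500, nat_lit 1271250], [nat_lit 98, nat_lit 40, nat_lit 20, nat_lit 40]⟩,
 zbF0, [⟨nat_lit 0, nat_lit 100, nat_lit 100, nat_lit 56, nat_lit 1095516950⟩, ⟨nat_lit 4, nat_lit 95, nat_lit 100, nat_lit 69, nat_lit 704876814⟩, ⟨nat_lit 11, nat_lit 100, nat_lit 100, nat_lit 72, nat_lit 177008288⟩]⟩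
noncomputable def p047_l114 : Lf2 := ⟨nat_lit 0, nat_lit 4, [nat_lit 38, nat_lit 5, nat_lit 5, nat_lit 20], false, nat_lit 240, nat_lit 300, nat_lit 240, nat_lit 304, ⟨nat_lit 409, nat_lit 0, nat_lit 591, nat_lit 6, nat_lit 106, nat_lit 591, nat_lit 191, nat_lit 591, nat_lit 8466, nat_lit 233, nat_lit 104017, nat_lit 294, nat_lit 49740497, nat_lit 0, nat_lit 0, nat_lit 3852916, false, false⟩,
 nat_lit 8885, nat_lit 0, nat_lit 0, nat_lit 0, nat_lit 5053, nat_lit 4936, nat_lit 1216, nat_lit 0, nat_lit 0, nat_lit 547, nat_lit 0, nat_lit 0, nat_lit 0, nat_lit 19945118661655, nat_lit 0, nat_lit 145470, nat_lit 0, nat_lit 0, [(nat_lit 6, [(nat_lit 3, nat_lit 38), (nat_lit 4, nat_lit 553)])],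
 ⟨p047_k41, nat_lit 0, nat_lit 0, nat_lit 0, nat_lit 0, nat_lit 202077, [nat_lit 2292960001, nat_lit 2319952401, nat_lit 2609833600, nat_lit 2852028600], [], [nat_lit 16595767571, nat_lit 16776148182, nat_lit 15319996799, nat_lit 15482883486, nat_lit 20321471996, nat_lit 20487834617, nat_lit 18921530666, nat_lit 19080921210], nat_lit 1271250, nat_lit 1271250, nat_lit 134400, nat_lit 490000, nat_lit 1271250, nat_lit 1271250, [nat_lit 490000, nat_lit 1100000, nat_lit 1442500, nat_lit 1271250], [nat_lit 98, nat_lit 40, nat_lit 20, nat_lit 40]⟩, ⟨p047_k33, nat_lit 0, nat_lit 0, nat_lit 0, nat_lit 0, nat_lit 207763, [nat_lit 831088000, nat_lit 1917392000, nat_lit 2556250000, nat_lit 3258912000], [], [nat_lit 7213906963, nat_lit 7539313545, nat_lit 5392584042, nat_lit 5701271167, nat_lit 11010747703, nat_lit 11387550532, nat_lit 8595465039, nat_lit 8958280463], nat_lit 1271250, nat_lit 1271250, nat_lit 134400, nat_lit 490000,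 nat_lit 1271250, nat_lit 1271250, [nat_lit 490000, nat_lit 1100000, nat_lit 1442500, nat_lit 1271250], [nat_lit 98, nat_lit 40, nat_lit 20, nat_lit 40]⟩,
 ⟨nat_lit 5958, nat_lit 6021, ⟨.ofNat (nat_lit 203762), .ofNat (nat_lit 314996), .ofNat (nat_lit 212299), .ofNat (nat_lit 323533), .ofNat (nat_lit 206188), .ofNat (nat_lit 316648), .ofNat (nat_lit 214724), .ofNat (nat_lit 325184)⟩, ⟨.ofNat (nat_lit 408713), .ofNat (nat_lit 527892), .ofNat (nat_lit 430055), .ofNat (nat_lit 549234), .ofNat (nat_lit 408178), .ofNat (nat_lit 526528), .ofNat (nat_lit 429518), .ofNat (nat_lit 547868)⟩⟩, [⟨nat_lit 0, nat_lit 100, nat_lit 100, nat_lit 58, nat_lit 73811874⟩, ⟨nat_lit 11, nat_lit 100, nat_lit 100, nat_lit 71, nat_lit 562290683⟩]⟩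
noncomputable def p047_l115 : Lf2 := ⟨nat_lit 0, nat_lit 4, [nat_lit 38, nat_lit 5, nat_lit 5, nat_lit 20], false, nat_lit 240, nat_lit 300, nat_lit 240, nat_lit 304, ⟨nat_lit 398, nat_lit 0, nat_lit 602, nat_lit 6, nat_lit 109, nat_lit 602, nat_lit 191, nat_lit 602, nat_lit 5400, nat_lit 233, nat_lit 109350, nat_lit 296, nat_lit 49596177, nat_lit 0, nat_lit 0, nat_lit 3885013, false, false⟩,
 nat_lit 8571, nat_lit 0, nat_lit 0, nat_lit 0, nat_lit 4943, nat_lit 4761, nat_lit 1131, nat_lit 0, nat_lit 0, nat_lit 557, nat_lit 0, nat_lit 0, nat_lit 0, nat_lit 0, nat_lit 0, nat_lit 148520, nat_lit 0, nat_lit 0, [(nat_lit 6, [(nat_lit 3, nat_lit 33), (nat_lit 4, nat_lit 569)])],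
 ⟨p047_k49, nat_lit 0, nat_lit 0, nat_lit 0, nat_lit 0, nat_lit 218065, [nat_lit 2204939200, nat_lit 2275952400, nat_lit 2541950800, nat_lit 2757060800], [], [nat_lit 16643180225, nat_lit 16761932535, nat_lit 15536772972, nat_lit 15650552776, nat_lit 20206900712, nat_lit 20316511524, nat_lit 19002821008, nat_lit 19108075882], nat_lit 1271250, nat_lit 1271250, nat_lit 157850, nat_lit 490000, nat_lit 1271250, nat_lit 1271250, [nat_lit 490000, nat_lit 1100000, nat_lit 1442500, nat_lit 1271250], [nat_lit 98, nat_lit 40, nat_lit 20, nat_lit 40]⟩, ⟨p047_k33, nat_lit 0, nat_lit 0, nat_lit 0, nat_lit 0, nat_lit 227908, [nat_lit 808736000, nat_lit 1865824000, nat_lit 2487500000, nat_lit 3171264000], [], [nat_lit 6818970358, nat_lit 7211442211, nat_lit 5239960273, nat_lit 5613221014, nat_lit 10447053331, nat_lit 10901984227, nat_lit 8348537565, nat_lit 8787162071], nat_lit 1271250, nat_lit 1271250, nat_lit 157850, nat_lit 490000,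 nat_lit 1271250, nat_lit 1271250, [nat_lit 490000, nat_lit 1100000, nat_lit 1442500, nat_lit 1271250], [nat_lit 98, nat_lit 40, nat_lit 20, nat_lit 40]⟩,
 ⟨nat_lit 5916, nat_lit 5959, ⟨.ofNat (nat_lit 214078), .ofNat (nat_lit 316648), .ofNat (nat_lit 224748), .ofNat (nat_lit 327318), .ofNat (nat_lit 215652), .ofNat (nat_lit 317746), .ofNat (nat_lit 226322), .ofNat (nat_lit 328416)⟩, ⟨.ofNat (nat_lit 408178), .ofNat (nat_lit 526528), .ofNat (nat_lit 429518), .ofNat (nat_lit 547868), .ofNat (nat_lit 407818), .ofNat (nat_lit 525618), .ofNat (nat_lit 429157), .ofNat (nat_lit 546958)⟩⟩, [⟨nat_lit 0, nat_lit 100, nat_lit 100, nat_lit 60, nat_lit 65989890⟩, ⟨nat_lit 11, nat_lit 100, nat_lit 100, nat_lit 71, nat_lit 541009273⟩]⟩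
noncomputable def p047_l116 : Lf2 := ⟨nat_lit 0, nat_lit 4, [nat_lit 38, nat_lit 5, nat_lit 5, nat_lit 20], false, nat_lit 240, nat_lit 300, nat_lit 0, nat_lit 312, ⟨nat_lit 0, nat_lit 0, nat_lit 1000, nat_lit 6, nat_lit 103, nat_lit 1000, nat_lit 191, nat_lit 1000, nat_lit 8466, nat_lit 233, nat_lit 98817, nat_lit 292, nat_lit 49946045, nat_lit 0, nat_lit 0, nat_lit 3811538, false, false⟩,
 nat_lit 5671, nat_lit 0, nat_lit 0, nat_lit 0, nat_lit 3225, nat_lit 3002, nat_lit 611, nat_lit 0, nat_lit 0, nat_lit 0, nat_lit 222, nat_lit 0, nat_lit 0, nat_lit 4368814474167, nat_lit 46, nat_lit 476200, nat_lit 0, nat_lit 0, [(nat_lit 6, [(nat_lit 5, nat_lit 873), (nat_lit 6, nat_lit 127)])],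
 ⟨p047_k41, nat_lit 0, nat_lit 0, nat_lit 0, nat_lit 0, nat_lit 221670, [nat_lit 1181685600, nat_lit 1542959201, nat_lit 924599601, nat_lit 122583599], [], [nat_lit 15384634239, nat_lit 15656055501, nat_lit 14921853776, nat_lit 15169985401, nat_lit 18711689308, nat_lit 18961077776, nat_lit 18115474645, nat_lit 18354728426], nat_lit 1271250, nat_lit 1271250, nat_lit 111251, nat_lit 490000, nat_lit 1271250, nat_lit 1271250, [nat_lit 490000, nat_lit 1100000, nat_lit 1442500, nat_lit 1271250], [nat_lit 98, nat_lit 40, nat_lit 20, nat_lit 40]⟩, ⟨p047_k8, nat_lit 0, nat_lit 0, nat_lit 297, nat_lit 0, nat_lit 241316, [nat_lit 3552000000, nat_lit 4440000000, nat_lit 5328000000], [], [nat_lit 13643296204, nat_lit 12067972688, nat_lit 8929273616, nat_lit 8593653596, nat_lit 11541757501, nat_lit 10169794268, nat_lit 11982888792, nat_lit 10637460838], nat_lit 1271250, nat_lit 1271250, nat_lit 111251, nat_lit 490000, nat_lit 0, nat_lit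 2203500, [nat_lit 1100000, nat_lit 1442500, nat_lit 1271250], [nat_lit 9, nat_lit 40, nat_lit 40, nat_lit 80, nat_lit 2, nat_lit 317, nat_lit 100, nat_lit 11]⟩,
 ⟨nat_lit 5916, nat_lit 6021, ⟨.ofNat (nat_lit 185145), .ofNat (nat_lit 304325), .ofNat (nat_lit 206488), .ofNat (nat_lit 325667), .ofNat (nat_lit 189276), .ofNat (nat_lit 307076), .ofNat (nat_lit 210615), .ofNat (nat_lit 328416)⟩, ⟨.ofNat (nat_lit 408713), .ofNat (nat_lit 527892), .ofNat (nat_lit 430055), .ofNat (nat_lit 549234), .ofNat (nat_lit 407818), .ofNat (nat_lit 525618), .ofNat (nat_lit 429157), .ofNat (nat_lit 546957)⟩⟩, [⟨nat_lit 4, nat_lit 95, nat_lit 100, nat_lit 69, nat_lit 267619933⟩, ⟨nat_lit 11, nat_lit 100, nat_lit 100, nat_lit 71, nat_lit 113889764⟩]⟩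
noncomputable def b_V_600_600_10_49 : St := ⟨true, nat_lit 1, nat_lit 1, nat_lit 1, nat_lit 80, nat_lit 255, nat_lit 260, nat_lit 240, nat_lit 260, nat_lit 20, nat_lit 80, nat_lit 40, nat_lit 60, nat_lit 240, nat_lit 304, nat_lit 0, nat_lit 312, nat_lit 0, nat_lit 16, nat_lit 0, nat_lit 600, nat_lit 0, nat_lit 0⟩
theorem d_V_600_600_10_49 (h : EB TB.env) : Dead b_V_600_600_10_49 := chkB_sound0 h (T :=
(.trX (nat_lit 16) (nat_lit 100) (nat_lit 90) (nat_lit 74) (nat_lit 300) (.spl (nat_lit 7) (nat_lit 300)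
(.leaf p047_l101)
(.spl (nat_lit 8) (nat_lit 800)
(.spl (nat_lit 1) (nat_lit 250)
(.spl (nat_lit 2) (nat_lit 40)
(.trX (nat_lit 23) (nat_lit 100) (nat_lit 92) (nat_lit 61) (nat_lit 288) (.spl (nat_lit 4) (nat_lit 280)
(.spl (nat_lit 6) (nat_lit 8)
(.leaf p047_l102)
(.leaf p047_l103))
(.trX (nat_lit 23) (nat_lit 94) (nat_lit 100) (nat_lit 62) (nat_lit 248) (.spl (nat_lit 5) (nat_lit 160)
(.leaf p047_l104)
(.spl (nat_lit 1) (nat_lit 245)
(.leaf p047_l105)
(.trZ (nat_lit 0) (nat_lit 100) (nat_lit 99) (nat_lit 50) (nat_lit 24) (.leaf p047_l106)))))))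
(.spl (nat_lit 6) (nat_lit 8)
(.spl (nat_lit 4) (nat_lit 280)
(.leaf p047_l107)
(.trX (nat_lit 23) (nat_lit 100) (nat_lit 95) (nat_lit 87) (nat_lit 300) (.spl (nat_lit 2) (nat_lit 60)
(.trX (nat_lit 23) (nat_lit 99) (nat_lit 100) (nat_lit 77) (nat_lit 276) (.spl (nat_lit 5) (nat_lit 160)
(.leaf p047_l108)
(.leaf p047_l109)))
(.leaf p047_l110))))
(.leaf p047_l111)))
(.trZ (nat_lit 0) (nat_lit 100) (nat_lit 99) (nat_lit 52) (nat_lit 24) (.trX (nat_lit 19) (nat_lit 100) (nat_lit 88) (nat_lit 74) (nat_lit 304) (.spl (nat_lit 5) (nat_lit 160)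
(.leaf p047_l112)
(.spl (nat_lit 5) (nat_lit 240)
(.leaf p047_l113)
(.spl (nat_lit 0) (nat_lit 258)
(.ord (.leaf p047_l114))
(.trZ (nat_lit 0) (nat_lit 100) (nat_lit 99) (nat_lit 54) (nat_lit 28) (.leaf p047_l115))))))))
(.leaf p047_l116))))) (by decide +kernel)
noncomputable def p047_l117 : Lf2 := ⟨nat_lit 0, nat_lit 5, [nat_lit 4, nat_lit 5, nat_lit 5, nat_lit 20], true, nat_lit 240, nat_lit 280, nat_lit 0, nat_lit 276, ⟨nat_lit 0, nat_lit 1000, nat_lit 0, nat_lit 6, nat_lit 81, nat_lit 1000, nat_lit 184, nat_lit 0, nat_lit 0, nat_lit 0, nat_lit 0, nat_lit 0, nat_lit 51986174, nat_lit 3314536, nat_lit 11699290, nat_lit 3432480, false, false⟩,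
 nat_lit 0, nat_lit 5694, nat_lit 0, nat_lit 2283, nat_lit 3163, nat_lit 0, nat_lit 0, nat_lit 0, nat_lit 0, nat_lit 0, nat_lit 0, nat_lit 0, nat_lit 0, nat_lit 19081178233468, nat_lit 0, nat_lit 250000, nat_lit 0, nat_lit 0, [(nat_lit 6, [(nat_lit 0, nat_lit 1000)])],
 ⟨p047_k50, nat_lit 0, nat_lit 0, nat_lit 0, nat_lit 0, nat_lit 12734, [nat_lit 1564000000, nat_lit 2639600001, nat_lit 3087600001, nat_lit 3486799999], [], [nat_lit 14322260160, nat_lit 14642058148, nat_lit 14107023272, nat_lit 14424752843, nat_lit 16886681646, nat_lit 17186989307, nat_lit 16587251178, nat_lit 16874176417], nat_lit 1271250, nat_lit 1271250, nat_lit 111251, nat_lit 181601, nat_lit 1271250, nat_lit 1271250, [nat_lit 490000, nat_lit 1100000, nat_lit 1442500, nat_lit 1271250], [nat_lit 98, nat_lit 40, nat_lit 20, nat_lit 40]⟩, C1.Rw.none,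
 ⟨nat_lit 6020, nat_lit 6124, ⟨.ofNat (nat_lit 180982), .ofNat (nat_lit 205096), .ofNat (nat_lit 196993), .ofNat (nat_lit 221107), .ofNat (nat_lit 185145), .ofNat (nat_lit 208981), .ofNat (nat_lit 201152), .ofNat (nat_lit 224988)⟩, ⟨.ofNat (nat_lit 409594), .ofNat (nat_lit 489975), .ofNat (nat_lit 430942), .ofNat (nat_lit 511323), .ofNat (nat_lit 408713), .ofNat (nat_lit 488166), .ofNat (nat_lit 430055), .ofNat (nat_lit 509508)⟩⟩, [⟨nat_lit 0, nat_lit 100, nat_lit 100, nat_lit 55, nat_lit 222245453⟩, ⟨nat_lit 4, nat_lit 93, nat_lit 100, nat_lit 69, nat_lit 331382252⟩]⟩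
noncomputable def p047_l118 : Lf2 := ⟨nat_lit 0, nat_lit 5, [nat_lit 4, nat_lit 5, nat_lit 5, nat_lit 20], true, nat_lit 240, nat_lit 280, nat_lit 0, nat_lit 276, ⟨nat_lit 0, nat_lit 0, nat_lit 1000, nat_lit 6, nat_lit 84, nat_lit 1000, nat_lit 183, nat_lit 1000, nat_lit 27996, nat_lit 255, nat_lit 66150, nat_lit 278, nat_lit 51878116, nat_lit 0, nat_lit 0, nat_lit 3464848, false, false⟩,
 nat_lit 0, nat_lit 6159, nat_lit 0, nat_lit 2798, nat_lit 3503, nat_lit 0, nat_lit 0, nat_lit 0, nat_lit 0, nat_lit 0, nat_lit 0, nat_lit 0, nat_lit 0, nat_lit 11435897523903, nat_lit 31, nat_lit 250000, nat_lit 0, nat_lit 0, [(nat_lit 6, [(nat_lit 4, nat_lit 1000)])],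
 ⟨p047_k51, nat_lit 0, nat_lit 0, nat_lit 0, nat_lit 0, nat_lit 57993, [nat_lit 1675200000, nat_lit 1178000001, nat_lit 709200000, nat_lit 77200000], [], [nat_lit 15082437335, nat_lit 15368286127, nat_lit 14897524196, nat_lit 15181163461, nat_lit 17452763567, nat_lit 17766007208, nat_lit 17086984131, nat_lit 17398345820], nat_lit 1271250, nat_lit 1271250, nat_lit 111251, nat_lit 181601, nat_lit 1271250, nat_lit 1271250, [nat_lit 490000, nat_lit 1100000, nat_lit 1442500, nat_lit 1271250], [nat_lit 98, nat_lit 40, nat_lit 20, nat_lit 40]⟩, C1.Rw.none,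
 ⟨nat_lit 5916, nat_lit 6021, ⟨.ofNat (nat_lit 185145), .ofNat (nat_lit 208981), .ofNat (nat_lit 206488), .ofNat (nat_lit 230324), .ofNat (nat_lit 189276), .ofNat (nat_lit 212836), .ofNat (nat_lit 210615), .ofNat (nat_lit 234175)⟩, ⟨.ofNat (nat_lit 408713), .ofNat (nat_lit 488166), .ofNat (nat_lit 430055), .ofNat (nat_lit 509508), .ofNat (nat_lit 407818), .ofNat (nat_lit 486351), .ofNat (nat_lit 429157), .ofNat (nat_lit 507691)⟩⟩, [⟨nat_lit 0, nat_lit 100, nat_lit 100, nat_lit 60, nat_lit 588978181⟩, ⟨nat_lit 4, nat_lit 95, nat_lit 100, nat_lit 69, nat_lit 362816109⟩]⟩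
noncomputable def p047_l119 : Lf2 := ⟨nat_lit 0, nat_lit 6, [nat_lit 47, nat_lit 5, nat_lit 5, nat_lit 20], true, nat_lit 240, nat_lit 280, nat_lit 0, nat_lit 276, ⟨nat_lit 0, nat_lit 0, nat_lit 1000, nat_lit 6, nat_lit 83, nat_lit 1000, nat_lit 184, nat_lit 1000, nat_lit 27511, nat_lit 254, nat_lit 64067, nat_lit 277, nat_lit 51900650, nat_lit 0, nat_lit 0, nat_lit 3456303, false, false⟩,
 nat_lit 0, nat_lit 7527, nat_lit 0, nat_lit 100000, nat_lit 4181, nat_lit 0, nat_lit 246, nat_lit 0, nat_lit 0, nat_lit 0, nat_lit 0, nat_lit 0, nat_lit 0, nat_lit 11920969001378, nat_lit 69, nat_lit 400000, nat_lit 0, nat_lit 0, [(nat_lit 6, [(nat_lit 5, nat_lit 1000)])],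
 ⟨p047_k52, nat_lit 0, nat_lit 0, nat_lit 0, nat_lit 0, nat_lit 25420, [nat_lit 2521600001, nat_lit 679600001, nat_lit 7200000], [], [nat_lit 16178735004, nat_lit 16610897909, nat_lit 15787312490, nat_lit 16219276606, nat_lit 18182748951, nat_lit 18777658778, nat_lit 17689847024, nat_lit 18134714506], nat_lit 1271250, nat_lit 1271250, nat_lit 111251, nat_lit 181601, nat_lit 1271250, nat_lit 1271250, [nat_lit 1100000, nat_lit 1785000, nat_lit 1271250], [nat_lit 29, nat_lit 40, nat_lit 40, nat_lit 80]⟩, C1.Rw.none,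
 ⟨nat_lit 5916, nat_lit 6124, ⟨.ofNat (nat_lit 180982), .ofNat (nat_lit 205096), .ofNat (nat_lit 202330), .ofNat (nat_lit 226444), .ofNat (nat_lit 189276), .ofNat (nat_lit 212836), .ofNat (nat_lit 210615), .ofNat (nat_lit 234175)⟩, ⟨.ofNat (nat_lit 409594), .ofNat (nat_lit 489975), .ofNat (nat_lit 430942), .ofNat (nat_lit 511323), .ofNat (nat_lit 407818), .ofNat (nat_lit 486351), .ofNat (nat_lit 429157), .ofNat (nat_lit 507691)⟩⟩, [⟨nat_lit 0, nat_lit 100, nat_lit 100, nat_lit 60, nat_lit 6992834827⟩, ⟨nat_lit 4, nat_lit 94, nat_lit 100, nat_lit 69, nat_lit 306476471⟩]⟩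
noncomputable def p047_l120 : Lf2 := ⟨nat_lit 0, nat_lit 6, [nat_lit 47, nat_lit 5, nat_lit 5, nat_lit 20], true, nat_lit 240, nat_lit 280, nat_lit 0, nat_lit 288, ⟨nat_lit 0, nat_lit 0, nat_lit 1000, nat_lit 6, nat_lit 91, nat_lit 1000, nat_lit 184, nat_lit 1000, nat_lit 27511, nat_lit 254, nat_lit 77067, nat_lit 283, nat_lit 51413414, nat_lit 0, nat_lit 0, nat_lit 3569243, false, false⟩,
 nat_lit 0, nat_lit 7221, nat_lit 0, nat_lit 0, nat_lit 4011, nat_lit 0, nat_lit 0, nat_lit 0, nat_lit 0, nat_lit 0, nat_lit 0, nat_lit 0, nat_lit 0, nat_lit 16581721164364, nat_lit 64, nat_lit 400000, nat_lit 0, nat_lit 0, [(nat_lit 6, [(nat_lit 5, nat_lit 1000)])],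
 ⟨p047_k53, nat_lit 0, nat_lit 0, nat_lit 0, nat_lit 0, nat_lit 60871, [nat_lit 2441600001, nat_lit 1479400001, nat_lit 99700000], [], [nat_lit 14684766395, nat_lit 15320474906, nat_lit 14482855121, nat_lit 15115583733, nat_lit 17163759553, nat_lit 17735627177, nat_lit 16950424516, nat_lit 17519808075], nat_lit 1271250, nat_lit 1271250, nat_lit 181601, nat_lit 230001, nat_lit 1271250, nat_lit 1271250, [nat_lit 1100000, nat_lit 1442500, nat_lit 1271250], [nat_lit 123, nat_lit 40, nat_lit 20, nat_lit 40]⟩, C1.Rw.none,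
 ⟨nat_lit 5916, nat_lit 6124, ⟨.ofNat (nat_lit 205096), .ofNat (nat_lit 221172), .ofNat (nat_lit 226444), .ofNat (nat_lit 242520), .ofNat (nat_lit 212836), .ofNat (nat_lit 228543), .ofNat (nat_lit 234175), .ofNat (nat_lit 249882)⟩, ⟨.ofNat (nat_lit 409594), .ofNat (nat_lit 489975), .ofNat (nat_lit 430942), .ofNat (nat_lit 511323), .ofNat (nat_lit 407818), .ofNat (nat_lit 486351), .ofNat (nat_lit 429157), .ofNat (nat_lit 507691)⟩⟩, [⟨nat_lit 0, nat_lit 100, nat_lit 100, nat_lit 60, nat_lit 244307319⟩, ⟨nat_lit 4, nat_lit 94, nat_lit 100, nat_lit 69, nat_lit 315185001⟩]⟩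
noncomputable def p047_l121 : Lf2 := ⟨nat_lit 0, nat_lit 6, [nat_lit 47, nat_lit 5, nat_lit 5, nat_lit 20], true, nat_lit 240, nat_lit 280, nat_lit 0, nat_lit 312, ⟨nat_lit 0, nat_lit 0, nat_lit 1000, nat_lit 6, nat_lit 110, nat_lit 1000, nat_lit 184, nat_lit 1000, nat_lit 27511, nat_lit 254, nat_lit 114817, nat_lit 298, nat_lit 50178659, nat_lit 0, nat_lit 0, nat_lit 3829489, false, false⟩,
 nat_lit 0, nat_lit 7300, nat_lit 0, nat_lit 0, nat_lit 4055, nat_lit 0, nat_lit 0, nat_lit 0, nat_lit 0, nat_lit 0, nat_lit 0, nat_lit 0, nat_lit 0, nat_lit 22281193330073, nat_lit 69, nat_lit 400000, nat_lit 0, nat_lit 0, [(nat_lit 6, [(nat_lit 5, nat_lit 1000)])],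
 ⟨p047_k54, nat_lit 0, nat_lit 0, nat_lit 0, nat_lit 0, nat_lit 60871, [nat_lit 2521600001, nat_lit 7200000], [], [nat_lit 14442415601, nat_lit 15078342661, nat_lit 14128051721, nat_lit 14741680781, nat_lit 17059864336, nat_lit 17631045901, nat_lit 16652758414, nat_lit 17204858166], nat_lit 1271250, nat_lit 1271250, nat_lit 230001, nat_lit 490000, nat_lit 1271250, nat_lit 1271250, [nat_lit 1100000, nat_lit 2127500], [nat_lit 70, nat_lit 40, nat_lit 40, nat_lit 80]⟩, C1.Rw.none,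
 ⟨nat_lit 5916, nat_lit 6124, ⟨.ofNat (nat_lit 221172), .ofNat (nat_lit 301553), .ofNat (nat_lit 242520), .ofNat (nat_lit 322901), .ofNat (nat_lit 228543), .ofNat (nat_lit 307076), .ofNat (nat_lit 249882), .ofNat (nat_lit 328416)⟩, ⟨.ofNat (nat_lit 409594), .ofNat (nat_lit 489975), .ofNat (nat_lit 430942), .ofNat (nat_lit 511323), .ofNat (nat_lit 407818), .ofNat (nat_lit 486351), .ofNat (nat_lit 429157), .ofNat (nat_lit 507691)⟩⟩, [⟨nat_lit 4, nat_lit 94, nat_lit 100, nat_lit 69, nat_lit 319670701⟩]⟩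
noncomputable def p047_l122 : Lf2 := ⟨nat_lit 0, nat_lit 6, [nat_lit 47, nat_lit 5, nat_lit 5, nat_lit 20], true, nat_lit 280, nat_lit 304, nat_lit 0, nat_lit 300, ⟨nat_lit 0, nat_lit 0, nat_lit 1000, nat_lit 6, nat_lit 100, nat_lit 1000, nat_lit 209, nat_lit 1000, nat_lit 4527, nat_lit 228, nat_lit 93750, nat_lit 290, nat_lit 48380034, nat_lit 0, nat_lit 0, nat_lit 3951281, false, false⟩,
 nat_lit 0, nat_lit 100000, nat_lit 0, nat_lit 100000, nat_lit 4186, nat_lit 0, nat_lit 237, nat_lit 0, nat_lit 0, nat_lit 0, nat_lit 0, nat_lit 0, nat_lit 0, nat_lit 316743064947196, nat_lit 69, nat_lit 400000, nat_lit 0, nat_lit 0, [(nat_lit 6, [(nat_lit 5, nat_lit 1000)])],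
 ⟨p047_k52, nat_lit 0, nat_lit 0, nat_lit 0, nat_lit 0, nat_lit 13376, [nat_lit 2521600001, nat_lit 679600001, nat_lit 7200000], [], [nat_lit 18220823003, nat_lit 18446090870, nat_lit 17236061634, nat_lit 17473767220, nat_lit 19985218670, nat_lit 20297228853, nat_lit 18535980077, nat_lit 18758587522], nat_lit 1271250, nat_lit 1271250, nat_lit 111251, nat_lit 490000, nat_lit 1271250, nat_lit 1271250, [nat_lit 1100000, nat_lit 1785000, nat_lit 1271250], [nat_lit 29, nat_lit 40, nat_lit 40, nat_lit 80]⟩, C1.Rw.none,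
 ⟨nat_lit 6020, nat_lit 6124, ⟨.ofNat (nat_lit 180982), .ofNat (nat_lit 301553), .ofNat (nat_lit 196993), .ofNat (nat_lit 317564), .ofNat (nat_lit 185145), .ofNat (nat_lit 304325), .ofNat (nat_lit 201152), .ofNat (nat_lit 320331)⟩, ⟨.ofNat (nat_lit 489975), .ofNat (nat_lit 538203), .ofNat (nat_lit 511323), .ofNat (nat_lit 559551), .ofNat (nat_lit 488166), .ofNat (nat_lit 535837), .ofNat (nat_lit 509508), .ofNat (nat_lit 557179)⟩⟩, [⟨nat_lit 0, nat_lit 100, nat_lit 100, nat_lit 55, nat_lit 194146168⟩, ⟨nat_lit 4, nat_lit 93, nat_lit 100, nat_lit 69, nat_lit 10020940156⟩]⟩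
noncomputable def p047_l123 : Lf2 := ⟨nat_lit 0, nat_lit 6, [nat_lit 47, nat_lit 5, nat_lit 5, nat_lit 20], true, nat_lit 280, nat_lit 300, nat_lit 0, nat_lit 248, ⟨nat_lit 0, nat_lit 0, nat_lit 1000, nat_lit 6, nat_lit 85, nat_lit 1000, nat_lit 207, nat_lit 1000, nat_lit 8466, nat_lit 233, nat_lit 68267, nat_lit 279, nat_lit 49515667, nat_lit 0, nat_lit 0, nat_lit 3721423, false, false⟩,
 nat_lit 0, nat_lit 100000, nat_lit 0, nat_lit 100000, nat_lit 4227, nat_lit 0, nat_lit 187, nat_lit 0, nat_lit 0, nat_lit 0, nat_lit 0, nat_lit 0, nat_lit 0, nat_lit 0, nat_lit 69, nat_lit 400000, nat_lit 0, nat_lit 0, [(nat_lit 6, [(nat_lit 5, nat_lit 1000)])],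
 ⟨p047_k55, nat_lit 0, nat_lit 0, nat_lit 0, nat_lit 0, nat_lit 13908, [nat_lit 2521600001, nat_lit 679600001, nat_lit 7200000], [], [nat_lit 18595639686, nat_lit 18820174138, nat_lit 17759363938, nat_lit 17982665689, nat_lit 20032008315, nat_lit 20349589580, nat_lit 18937489245, nat_lit 19254122170], nat_lit 1271250, nat_lit 1271250, nat_lit 111251, nat_lit 230001, nat_lit 1271250, nat_lit 1271250, [nat_lit 1100000, nat_lit 1785000, nat_lit 1271250], [nat_lit 29, nat_lit 40, nat_lit 40, nat_lit 80]⟩, C1.Rw.none,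
 ⟨nat_lit 5916, nat_lit 6021, ⟨.ofNat (nat_lit 185145), .ofNat (nat_lit 224872), .ofNat (nat_lit 195817), .ofNat (nat_lit 235543), .ofNat (nat_lit 189276), .ofNat (nat_lit 228543), .ofNat (nat_lit 199946), .ofNat (nat_lit 239212)⟩, ⟨.ofNat (nat_lit 488166), .ofNat (nat_lit 527892), .ofNat (nat_lit 509508), .ofNat (nat_lit 549234), .ofNat (nat_lit 486351), .ofNat (nat_lit 525618), .ofNat (nat_lit 507691), .ofNat (nat_lit 546957)⟩⟩, [⟨nat_lit 0, nat_lit 100, nat_lit 99, nat_lit 55, nat_lit 320365139⟩, ⟨nat_lit 16, nat_lit 100, nat_lit 95, nat_lit 69, nat_lit 9813606610⟩]⟩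
noncomputable def p047_l124 : Lf2 := ⟨nat_lit 0, nat_lit 6, [nat_lit 47, nat_lit 5, nat_lit 5, nat_lit 20], false, nat_lit 280, nat_lit 300, nat_lit 0, nat_lit 248, ⟨nat_lit 1000, nat_lit 0, nat_lit 0, nat_lit 0, nat_lit 0, nat_lit 0, nat_lit 0, nat_lit 0, nat_lit 0, nat_lit 0, nat_lit 0, nat_lit 0, nat_lit 0, nat_lit 0, nat_lit 0, nat_lit 0, false, false⟩,
 nat_lit 16581, nat_lit 0, nat_lit 0, nat_lit 31975, nat_lit 8146, nat_lit 9211, nat_lit 2455, nat_lit 0, nat_lit 0, nat_lit 2833, nat_lit 0, nat_lit 0, nat_lit 0, nat_lit 29929149363872, nat_lit 0, nat_lit 0, nat_lit 0, nat_lit 0, [],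
 ⟨p047_k56, nat_lit 0, nat_lit 0, nat_lit 0, nat_lit 0, nat_lit 59186, [nat_lit 4688000000, nat_lit 6250000000, nat_lit 8885500000], [], [nat_lit 20717361486, nat_lit 21206510184, nat_lit 19427005481, nat_lit 19745034150, nat_lit 23171751502, nat_lit 23624187067, nat_lit 21691560138, nat_lit 22141534454], nat_lit 1271250, nat_lit 1271250, nat_lit 134400, nat_lit 230001, nat_lit 1271250, nat_lit 1271250, [nat_lit 1100000, nat_lit 1442500, nat_lit 1271250], [nat_lit 123, nat_lit 40, nat_lit 20, nat_lit 40]⟩, ⟨p047_k11, nat_lit 0, nat_lit 0, nat_lit 295, nat_lit 0, nat_lit 60871, [nat_lit 4688000000, nat_lit 6250000000, nat_lit 9842000000], [], [nat_lit 21088101171, nat_lit 22143079459, nat_lit 18964591128, nat_lit 20017348536, nat_lit 17766789478, nat_lit 18909085984, nat_lit 16085421214, nat_lit 16792484384], nat_lit 1271250, nat_lit 1271250, nat_lit 134400, nat_lit 230001, nat_lit 0, nat_lit 1751500, [nat_lit 1100000, nat_lit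 1442500, nat_lit 1271250], [nat_lit 11, nat_lit 40, nat_lit 40, nat_lit 80, nat_lit 1, nat_lit 373, nat_lit 150, nat_lit 11]⟩,
 zbF0, [⟨nat_lit 0, nat_lit 100, nat_lit 100, nat_lit 60, nat_lit 1656646403⟩, ⟨nat_lit 4, nat_lit 95, nat_lit 100, nat_lit 69, nat_lit 2282909193⟩, ⟨nat_lit 23, nat_lit 90, nat_lit 100, nat_lit 55, nat_lit 207498682⟩]⟩
noncomputable def p047_l125 : Lf2 := ⟨nat_lit 0, nat_lit 6, [nat_lit 47, nat_lit 5, nat_lit 5, nat_lit 20], true, nat_lit 280, nat_lit 300, nat_lit 0, nat_lit 300, ⟨nat_lit 0, nat_lit 1000, nat_lit 0, nat_lit 6, nat_lit 111, nat_lit 1000, nat_lit 207, nat_lit 0, nat_lit 0, nat_lit 0, nat_lit 0, nat_lit 0, nat_lit 47974131, nat_lit 5206326, nat_lit 13819543, nat_lit 4062978, false, false⟩,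
 nat_lit 0, nat_lit 9824, nat_lit 0, nat_lit 1716, nat_lit 5587, nat_lit 0, nat_lit 0, nat_lit 0, nat_lit 0, nat_lit 0, nat_lit 0, nat_lit 0, nat_lit 0, nat_lit 28572718144239, nat_lit 0, nat_lit 250000, nat_lit 0, nat_lit 0, [(nat_lit 6, [(nat_lit 0, nat_lit 1000)])],
 ⟨p047_k56, nat_lit 0, nat_lit 0, nat_lit 0, nat_lit 0, nat_lit 59186, [nat_lit 3128000000, nat_lit 3130000000, nat_lit 3623200000], [], [nat_lit 17984628307, nat_lit 18317284858, nat_lit 17131697573, nat_lit 17452473744, nat_lit 19835853307, nat_lit 20199000113, nat_lit 18684666694, nat_lit 18985429907], nat_lit 1271250, nat_lit 1271250, nat_lit 230001, nat_lit 490000, nat_lit 1271250, nat_lit 1271250, [nat_lit 1100000, nat_lit 1442500, nat_lit 1271250], [nat_lit 123, nat_lit 40, nat_lit 20, nat_lit 40]⟩, C1.Rw.none,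
 ⟨nat_lit 5916, nat_lit 6021, ⟨.ofNat (nat_lit 224872), .ofNat (nat_lit 304325), .ofNat (nat_lit 246214), .ofNat (nat_lit 325667), .ofNat (nat_lit 228543), .ofNat (nat_lit 307076), .ofNat (nat_lit 249882), .ofNat (nat_lit 328416)⟩, ⟨.ofNat (nat_lit 488166), .ofNat (nat_lit 527892), .ofNat (nat_lit 509508), .ofNat (nat_lit 549234), .ofNat (nat_lit 486351), .ofNat (nat_lit 525618), .ofNat (nat_lit 507691), .ofNat (nat_lit 546957)⟩⟩, [⟨nat_lit 4, nat_lit 95, nat_lit 100, nat_lit 69, nat_lit 583004338⟩]⟩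
noncomputable def b_V_600_600_10_50 : St := ⟨true, nat_lit 1, nat_lit 1, nat_lit 1, nat_lit 80, nat_lit 250, nat_lit 260, nat_lit 240, nat_lit 260, nat_lit 20, nat_lit 80, nat_lit 40, nat_lit 60, nat_lit 240, nat_lit 304, nat_lit 0, nat_lit 312, nat_lit 16, nat_lit 24, nat_lit 0, nat_lit 600, nat_lit 0, nat_lit 0⟩
theorem d_V_600_600_10_50 (h : EB TB.env) : Dead b_V_600_600_10_50 := chkB_sound0 h (T :=
(.spl (nat_lit 4) (nat_lit 280)
(.spl (nat_lit 2) (nat_lit 40)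
(.trX (nat_lit 23) (nat_lit 100) (nat_lit 92) (nat_lit 61) (nat_lit 288) (.spl (nat_lit 2) (nat_lit 32)
(.trX (nat_lit 23) (nat_lit 100) (nat_lit 95) (nat_lit 55) (nat_lit 276) (.spl (nat_lit 6) (nat_lit 20)
(.spl (nat_lit 0) (nat_lit 255)
(.ord (.leaf p047_l117))
(.leaf p047_l118))
(.leaf p047_l119)))
(.leaf p047_l120)))
(.leaf p047_l121))
(.trX (nat_lit 23) (nat_lit 100) (nat_lit 95) (nat_lit 87) (nat_lit 300) (.spl (nat_lit 0) (nat_lit 255)
(.ord (.leaf p047_l122))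
(.trX (nat_lit 16) (nat_lit 100) (nat_lit 90) (nat_lit 74) (nat_lit 300) (.spl (nat_lit 2) (nat_lit 40)
(.trX (nat_lit 23) (nat_lit 94) (nat_lit 100) (nat_lit 62) (nat_lit 248) (.spl (nat_lit 1) (nat_lit 250)
(.leaf p047_l123)
(.trZ (nat_lit 0) (nat_lit 100) (nat_lit 99) (nat_lit 52) (nat_lit 24) (.leaf p047_l124))))
(.leaf p047_l125))))))) (by decide +kernel)
noncomputable def p047_l126 : Lf2 := ⟨nat_lit 0, nat_lit 4, [nat_lit 38, nat_lit 5, nat_lit 5, nat_lit 20], false, nat_lit 240, nat_lit 280, nat_lit 0, nat_lit 312, ⟨nat_lit 0, nat_lit 0, nat_lit 1000, nat_lit 6, nat_lit 140, nat_lit 1000, nat_lit 184, nat_lit 1000, nat_lit 27511, nat_lit 254, nat_lit 183750, nat_lit 320, nat_lit 48048359, nat_lit 0, nat_lit 0, nat_lit 4206776, false, false⟩,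
 nat_lit 0, nat_lit 7053, nat_lit 0, nat_lit 0, nat_lit 3918, nat_lit 0, nat_lit 0, nat_lit 0, nat_lit 0, nat_lit 0, nat_lit 0, nat_lit 0, nat_lit 0, nat_lit 22299298237532, nat_lit 80, nat_lit 1000000, nat_lit 0, nat_lit 0, [(nat_lit 6, [(nat_lit 6, nat_lit 1000)])],
 ⟨p047_k9, nat_lit 0, nat_lit 0, nat_lit 118, nat_lit 0, nat_lit 177219, [nat_lit 2257066667, nat_lit 1408000000, nat_lit 211200000], [], [nat_lit 13850945139, nat_lit 14153026867, nat_lit 14212699849, nat_lit 14500479364, nat_lit 16335565152, nat_lit 16607662887, nat_lit 16580541463, nat_lit 16840169403], nat_lit 1271250, nat_lit 1271250, nat_lit 490000, nat_lit 780000, nat_lit 1271250, nat_lit 1271250, [nat_lit 1100000, nat_lit 1442500, nat_lit 1271250], [nat_lit 9, nat_lit 40, nat_lit 40, nat_lit 80, nat_lit 2, nat_lit 238, nat_lit 30, nat_lit 7]⟩, ⟨p047_k8, nat_lit 0, nat_lit 0, nat_lit 244, nat_lit 0, nat_lit 187645, [nat_lit 0, nat_lit 0, nat_lit 0],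 [], [nat_lit 0, nat_lit 0, nat_lit 0, nat_lit 0, nat_lit 0, nat_lit 0, nat_lit 0, nat_lit 0], nat_lit 1271250, nat_lit 1271250, nat_lit 490000, nat_lit 780000, nat_lit 0, nat_lit 2203500, [nat_lit 1100000, nat_lit 1442500, nat_lit 1271250], [nat_lit 9, nat_lit 40, nat_lit 40, nat_lit 80, nat_lit 2, nat_lit 345, nat_lit 125, nat_lit 12]⟩,
 ⟨nat_lit 6020, nat_lit 6124, ⟨.ofNat (nat_lit 301553), .ofNat (nat_lit 381933), .ofNat (nat_lit 317564), .ofNat (nat_lit 397944), .ofNat (nat_lit 304325), .ofNat (nat_lit 383777), .ofNat (nat_lit 320331), .ofNat (nat_lit 399784)⟩, ⟨.ofNat (nat_lit 409594), .ofNat (nat_lit 489975), .ofNat (nat_lit 430942), .ofNat (nat_lit 511323), .ofNat (nat_lit 408713), .ofNat (nat_lit 488166), .ofNat (nat_lit 430055), .ofNat (nat_lit 509508)⟩⟩, [⟨nat_lit 4, nat_lit 93, nat_lit 100, nat_lit 69, nat_lit 410078907⟩]⟩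
noncomputable def p047_l127 : Lf2 := ⟨nat_lit 0, nat_lit 4, [nat_lit 38, nat_lit 5, nat_lit 5, nat_lit 20], false, nat_lit 280, nat_lit 304, nat_lit 0, nat_lit 312, ⟨nat_lit 0, nat_lit 233, nat_lit 767, nat_lit 6, nat_lit 140, nat_lit 1000, nat_lit 209, nat_lit 767, nat_lit 4527, nat_lit 228, nat_lit 183750, nat_lit 320, nat_lit 45847590, nat_lit 7354264, nat_lit 13798146, nat_lit 4432571, false, false⟩,
 nat_lit 0, nat_lit 8190, nat_lit 0, nat_lit 0, nat_lit 4550, nat_lit 0, nat_lit 522, nat_lit 0, nat_lit 0, nat_lit 0, nat_lit 0, nat_lit 0, nat_lit 0, nat_lit 23210413197345, nat_lit 31, nat_lit 860200, nat_lit 0, nat_lit 0, [(nat_lit 6, [(nat_lit 1, nat_lit 233), (nat_lit 6, nat_lit 767)])],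
 ⟨p047_k9, nat_lit 0, nat_lit 0, nat_lit 130, nat_lit 0, nat_lit 177219, [nat_lit 1872708267, nat_lit 1178819200, nat_lit 197776800], [], [nat_lit 16509125142, nat_lit 16737427430, nat_lit 16646899434, nat_lit 16880689284, nat_lit 18283048731, nat_lit 18597176936, nat_lit 18243880990, nat_lit 18544284425], nat_lit 1271250, nat_lit 1271250, nat_lit 490000, nat_lit 780000, nat_lit 1271250, nat_lit 1271250, [nat_lit 1100000, nat_lit 1442500, nat_lit 1271250], [nat_lit 9, nat_lit 40, nat_lit 40, nat_lit 80, nat_lit 2, nat_lit 238, nat_lit 30, nat_lit 7]⟩, ⟨p047_k8, nat_lit 0, nat_lit 0, nat_lit 244, nat_lit 0, nat_lit 187645, [nat_lit 0, nat_lit 0, nat_lit 0], [], [nat_lit 0, nat_lit 0, nat_lit 0, nat_lit 0, nat_lit 0, nat_lit 0, nat_lit 0, nat_lit 0], nat_lit 1271250, nat_lit 1271250, nat_lit 490000, nat_lit 780000, nat_lit 0, nat_lit 2203500, [nat_lit 1100000, nat_lit 1442500, nat_lit 1271250], [nat_lit 9, nat_lit 40, nat_lit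 40, nat_lit 80, nat_lit 2, nat_lit 345, nat_lit 125, nat_lit 12]⟩,
 ⟨nat_lit 6020, nat_lit 6124, ⟨.ofNat (nat_lit 301553), .ofNat (nat_lit 381933), .ofNat (nat_lit 317564), .ofNat (nat_lit 397944), .ofNat (nat_lit 304325), .ofNat (nat_lit 383777), .ofNat (nat_lit 320331), .ofNat (nat_lit 399784)⟩, ⟨.ofNat (nat_lit 489975), .ofNat (nat_lit 538203), .ofNat (nat_lit 511323), .ofNat (nat_lit 559551), .ofNat (nat_lit 488166), .ofNat (nat_lit 535837), .ofNat (nat_lit 509508), .ofNat (nat_lit 557179)⟩⟩, [⟨nat_lit 16, nat_lit 100, nat_lit 88, nat_lit 74, nat_lit 236541310⟩, ⟨nat_lit 4, nat_lit 93, nat_lit 100, nat_lit 69, nat_lit 276924063⟩]⟩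
noncomputable def p047_l128 : Lf2 := ⟨nat_lit 0, nat_lit 4, [nat_lit 38, nat_lit 5, nat_lit 5, nat_lit 20], false, nat_lit 240, nat_lit 300, nat_lit 0, nat_lit 160, ⟨nat_lit 1000, nat_lit 0, nat_lit 0, nat_lit 0, nat_lit 0, nat_lit 0, nat_lit 0, nat_lit 0, nat_lit 0, nat_lit 0, nat_lit 0, nat_lit 0, nat_lit 0, nat_lit 0, nat_lit 0, nat_lit 0, false, false⟩,
 nat_lit 36925, nat_lit 0, nat_lit 0, nat_lit 0, nat_lit 8477, nat_lit 19548, nat_lit 4618, nat_lit 0, nat_lit 0, nat_lit 0, nat_lit 0, nat_lit 0, nat_lit 0, nat_lit 0, nat_lit 0, nat_lit 0, nat_lit 0, nat_lit 1216976528, [],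
 ⟨p047_k10, nat_lit 0, nat_lit 0, nat_lit 128, nat_lit 0, nat_lit 173678, [nat_lit 4688000000, nat_lit 6250000000, nat_lit 7968000000], [], [nat_lit 13226572395, nat_lit 13571722378, nat_lit 12924132956, nat_lit 13279466128, nat_lit 19788101235, nat_lit 20234404367, nat_lit 18949025955, nat_lit 19372977873], nat_lit 1271250, nat_lit 1271250, nat_lit 490000, nat_lit 780000, nat_lit 1271250, nat_lit 1271250, [nat_lit 1100000, nat_lit 1442500, nat_lit 1271250], [nat_lit 9, nat_lit 40, nat_lit 40, nat_lit 80, nat_lit 2, nat_lit 238, nat_lit 30, nat_lit 7]⟩, ⟨p047_k8, nat_lit 0, nat_lit 0, nat_lit 244, nat_lit 0, nat_lit 189071, [nat_lit 4688000000, nat_lit 6250000000, nat_lit 7968000000], [], [nat_lit 24037135312, nat_lit 21224352684, nat_lit 15199461504, nat_lit 18067776536, nat_lit 1729819104, nat_lit 3413890520, nat_lit 0, nat_lit 1577207580], nat_lit 1271250, nat_lit 1271250, nat_lit 490000, nat_lit 780000, nat_lit 0, nat_lit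 1100001, [nat_lit 1100000, nat_lit 1442500, nat_lit 1271250], [nat_lit 9, nat_lit 40, nat_lit 40, nat_lit 80, nat_lit 2, nat_lit 289, nat_lit 75, nat_lit 10]⟩,
 zbF0, [⟨nat_lit 4, nat_lit 95, nat_lit 100, nat_lit 69, nat_lit 1151322593⟩]⟩
noncomputable def p047_l129 : Lf2 := ⟨nat_lit 0, nat_lit 4, [nat_lit 38, nat_lit 5, nat_lit 5, nat_lit 20], false, nat_lit 240, nat_lit 300, nat_lit 0, nat_lit 160, ⟨nat_lit 1000, nat_lit 0, nat_lit 0, nat_lit 0, nat_lit 0, nat_lit 0, nat_lit 0, nat_lit 0, nat_lit 0, nat_lit 0, nat_lit 0, nat_lit 0, nat_lit 0, nat_lit 0, nat_lit 0, nat_lit 0, false, false⟩,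
 nat_lit 26995, nat_lit 0, nat_lit 0, nat_lit 0, nat_lit 8477, nat_lit 14997, nat_lit 5189, nat_lit 0, nat_lit 0, nat_lit 597, nat_lit 0, nat_lit 0, nat_lit 0, nat_lit 0, nat_lit 0, nat_lit 0, nat_lit 0, nat_lit 0, [],
 ⟨p047_k10, nat_lit 0, nat_lit 0, nat_lit 147, nat_lit 0, nat_lit 221670, [nat_lit 4688000000, nat_lit 6250000000, nat_lit 7968000000], [], [nat_lit 13194422981, nat_lit 13571722378, nat_lit 12924132956, nat_lit 13279466128, nat_lit 19788101235, nat_lit 20234404367, nat_lit 18949025955, nat_lit 19372977873], nat_lit 1271250, nat_lit 1271250, nat_lit 490000, nat_lit 780000, nat_lit 1271250, nat_lit 1271250, [nat_lit 1100000, nat_lit 1442500, nat_lit 1271250], [nat_lit 9, nat_lit 40, nat_lit 40, nat_lit 80, nat_lit 2, nat_lit 238, nat_lit 30, nat_lit 7]⟩, ⟨p047_k9, nat_lit 0, nat_lit 0, nat_lit 242, nat_lit 0, nat_lit 227908, [nat_lit 4688000000, nat_lit 6250000000, nat_lit 7968000000], [], [nat_lit 21590692163,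 nat_lit 19609753702, nat_lit 16397486369, nat_lit 17971335174, nat_lit 6431783688, nat_lit 7801417412, nat_lit 5235221653, nat_lit 6520778398], nat_lit 1271250, nat_lit 1271250, nat_lit 490000, nat_lit 780000, nat_lit 0, nat_lit 1100001, [nat_lit 1100000, nat_lit 1442500, nat_lit 1271250], [nat_lit 9, nat_lit 40, nat_lit 40, nat_lit 80, nat_lit 2, nat_lit 289, nat_lit 75, nat_lit 10]⟩,
 zbF0, [⟨nat_lit 4, nat_lit 95, nat_lit 100, nat_lit 69, nat_lit 1151322593⟩]⟩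
noncomputable def p047_l130 : Lf2 := ⟨nat_lit 0, nat_lit 4, [nat_lit 38, nat_lit 5, nat_lit 5, nat_lit 20], false, nat_lit 240, nat_lit 300, nat_lit 160, nat_lit 312, ⟨nat_lit 345, nat_lit 0, nat_lit 655, nat_lit 6, nat_lit 142, nat_lit 655, nat_lit 191, nat_lit 655, nat_lit 8466, nat_lit 233, nat_lit 190817, nat_lit 322, nat_lit 47277588, nat_lit 0, nat_lit 0, nat_lit 4298797, false, false⟩,
 nat_lit 9333, nat_lit 0, nat_lit 0, nat_lit 0, nat_lit 5308, nat_lit 4941, nat_lit 763, nat_lit 0, nat_lit 0, nat_lit 0, nat_lit 0, nat_lit 0, nat_lit 0, nat_lit 0, nat_lit 0, nat_lit 637600, nat_lit 0, nat_lit 0, [(nat_lit 6, [(nat_lit 5, nat_lit 29), (nat_lit 6, nat_lit 626)])],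
 ⟨p047_k10, nat_lit 0, nat_lit 0, nat_lit 147, nat_lit 0, nat_lit 221670, [nat_lit 2270114134, nat_lit 2037020800, nat_lit 1640403800], [], [nat_lit 15278018162, nat_lit 15548743108, nat_lit 15363057024, nat_lit 15619793756, nat_lit 18604916539, nat_lit 18919698766, nat_lit 18521658873, nat_lit 18739183928], nat_lit 1271250, nat_lit 1271250, nat_lit 490000, nat_lit 780000, nat_lit 1271250, nat_lit 1271250, [nat_lit 1100000, nat_lit 1442500, nat_lit 1271250], [nat_lit 9, nat_lit 40, nat_lit 40, nat_lit 80, nat_lit 2, nat_lit 238, nat_lit 30, nat_lit 7]⟩, ⟨p047_k8, nat_lit 0, nat_lit 0, nat_lit 168, nat_lit 0, nat_lit 241316, [nat_lit 1617360000, nat_lit 2156250000, nat_lit 2748960000], [], [nat_lit 7292700468, nat_lit 4757680890, nat_lit 2285119008, nat_lit 2957339694, nat_lit 10071578208, nat_lit 8489987580, nat_lit 11469451094, nat_lit 9134723844], nat_lit 1271250, nat_lit 1271250, nat_lit 490000, nat_lit 780000, nat_lit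 1100001, nat_lit 2401500, [nat_lit 1100000, nat_lit 1442500, nat_lit 1271250], [nat_lit 9, nat_lit 40, nat_lit 40, nat_lit 80, nat_lit 2, nat_lit 345, nat_lit 125, nat_lit 11]⟩,
 ⟨nat_lit 5916, nat_lit 6021, ⟨.ofNat (nat_lit 304325), .ofNat (nat_lit 383777), .ofNat (nat_lit 325667), .ofNat (nat_lit 405120), .ofNat (nat_lit 307076), .ofNat (nat_lit 385610), .ofNat (nat_lit 328416), .ofNat (nat_lit 406949)⟩, ⟨.ofNat (nat_lit 408713), .ofNat (nat_lit 527892), .ofNat (nat_lit 430055), .ofNat (nat_lit 549234), .ofNat (nat_lit 407818), .ofNat (nat_lit 525618), .ofNat (nat_lit 429157), .ofNat (nat_lit 546957)⟩⟩, [⟨nat_lit 4, nat_lit 95, nat_lit 100, nat_lit 69, nat_lit 393510488⟩, ⟨nat_lit 7, nat_lit 92, nat_lit 100, nat_lit 68, nat_lit 130034191⟩, ⟨nat_lit 11, nat_lit 100, nat_lit 100, nat_lit 100, nat_lit 79902580⟩]⟩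
noncomputable def p047_l131 : Lf2 := ⟨nat_lit 0, nat_lit 6, [nat_lit 47, nat_lit 5, nat_lit 5, nat_lit 20], false, nat_lit 240, nat_lit 304, nat_lit 0, nat_lit 312, ⟨nat_lit 0, nat_lit 1000, nat_lit 0, nat_lit 6, nat_lit 142, nat_lit 1000, nat_lit 193, nat_lit 0, nat_lit 0, nat_lit 0, nat_lit 0, nat_lit 0, nat_lit 47147026, nat_lit 7572386, nat_lit 12280588, nat_lit 4310961, false, false⟩,
 nat_lit 0, nat_lit 11540, nat_lit 0, nat_lit 0, nat_lit 6411, nat_lit 0, nat_lit 0, nat_lit 0, nat_lit 0, nat_lit 0, nat_lit 0, nat_lit 0, nat_lit 0, nat_lit 0, nat_lit 0, nat_lit 250000, nat_lit 0, nat_lit 0, [(nat_lit 6, [(nat_lit 0, nat_lit 1000)])],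
 ⟨p047_k11, nat_lit 0, nat_lit 0, nat_lit 109, nat_lit 0, nat_lit 60871, [nat_lit 3128000000, nat_lit 3146133334, nat_lit 3771466666], [], [nat_lit 13027988744, nat_lit 13804398556, nat_lit 13039090539, nat_lit 13774413474, nat_lit 19001946703, nat_lit 19748834791, nat_lit 18582951096, nat_lit 19294620342], nat_lit 1271250, nat_lit 1271250, nat_lit 490000, nat_lit 780000, nat_lit 1271250, nat_lit 1271250, [nat_lit 1100000, nat_lit 1442500, nat_lit 1271250], [nat_lit 11, nat_lit 40, nat_lit 40, nat_lit 80, nat_lit 1, nat_lit 401, nat_lit 175, nat_lit 11]⟩, ⟨p047_k12, nat_lit 0, nat_lit 0, nat_lit 234, nat_lit 0, nat_lit 64496, [nat_lit 0, nat_lit 0, nat_lit 0], [], [nat_lit 0, nat_lit 0, nat_lit 0, nat_lit 0, nat_lit 0, nat_lit 0, nat_lit 0, nat_lit 0], nat_lit 1271250, nat_lit 1271250, nat_lit 490000, nat_lit 780000, nat_lit 0, nat_lit 2203500, [nat_lit 1100000, nat_lit 1442500, nat_lit 1271250], [nat_lit 11, nat_lit 40,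 nat_lit 40, nat_lit 80, nat_lit 1, nat_lit 401, nat_lit 175, nat_lit 12]⟩,
 ⟨nat_lit 5916, nat_lit 6124, ⟨.ofNat (nat_lit 301553), .ofNat (nat_lit 381933), .ofNat (nat_lit 322901), .ofNat (nat_lit 403281), .ofNat (nat_lit 307076), .ofNat (nat_lit 385610), .ofNat (nat_lit 328416), .ofNat (nat_lit 406949)⟩, ⟨.ofNat (nat_lit 409594), .ofNat (nat_lit 538203), .ofNat (nat_lit 430942), .ofNat (nat_lit 559550), .ofNat (nat_lit 407818), .ofNat (nat_lit 533471), .ofNat (nat_lit 429157), .ofNat (nat_lit 554809)⟩⟩, [⟨nat_lit 16, nat_lit 100, nat_lit 94, nat_lit 69, nat_lit 568666859⟩]⟩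
noncomputable def b_V_600_600_10_51 : St := ⟨true, nat_lit 1, nat_lit 1, nat_lit 1, nat_lit 80, nat_lit 250, nat_lit 260, nat_lit 240, nat_lit 260, nat_lit 80, nat_lit 120, nat_lit 40, nat_lit 60, nat_lit 240, nat_lit 304, nat_lit 0, nat_lit 312, nat_lit 0, nat_lit 24, nat_lit 0, nat_lit 0, nat_lit 0, nat_lit 0⟩
theorem d_V_600_600_10_51 (h : EB TB.env) : Dead b_V_600_600_10_51 := chkB_sound0 h (T :=
(.spl (nat_lit 6) (nat_lit 16)
(.spl (nat_lit 0) (nat_lit 255)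
(.ord (.spl (nat_lit 4) (nat_lit 280)
(.leaf p047_l126)
(.leaf p047_l127)))
(.trX (nat_lit 16) (nat_lit 100) (nat_lit 90) (nat_lit 74) (nat_lit 300) (.spl (nat_lit 5) (nat_lit 160)
(.spl (nat_lit 1) (nat_lit 250)
(.leaf p047_l128)
(.leaf p047_l129))
(.leaf p047_l130))))
(.leaf p047_l131))) (by decide +kernel)
noncomputable def p047_l132 : Lf2 := ⟨nat_lit 1, nat_lit 1, [nat_lit 19, nat_lit 5, nat_lit 5, nat_lit 20], false, nat_lit 240, nat_lit 280, nat_lit 0, nat_lit 336, zbN0,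
 nat_lit 0, nat_lit 0, nat_lit 0, nat_lit 0, nat_lit 0, nat_lit 0, nat_lit 0, nat_lit 0, nat_lit 0, nat_lit 0, nat_lit 0, nat_lit 0, nat_lit 0, nat_lit 0, nat_lit 0, nat_lit 0, nat_lit 0, nat_lit 0, [],
 C1.Rw.none, C1.Rw.none,
 zbF0, []⟩
noncomputable def p047_l133 : Lf2 := ⟨nat_lit 0, nat_lit 1, [nat_lit 19, nat_lit 5, nat_lit 5, nat_lit 20], true, nat_lit 240, nat_lit 280, nat_lit 0, nat_lit 332, ⟨nat_lit 0, nat_lit 0, nat_lit 1000, nat_lit 6, nat_lit 99, nat_lit 1000, nat_lit 193, nat_lit 1000, nat_lit 11536, nat_lit 240, nat_lit 91267, nat_lit 289, nat_lit 50027354, nat_lit 0, nat_lit 0, nat_lit 3777262, false, false⟩,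
 nat_lit 0, nat_lit 6541, nat_lit 0, nat_lit 0, nat_lit 3548, nat_lit 0, nat_lit 0, nat_lit 0, nat_lit 0, nat_lit 0, nat_lit 0, nat_lit 0, nat_lit 0, nat_lit 2215066303117, nat_lit 10, nat_lit 1000000, nat_lit 0, nat_lit 0, [(nat_lit 6, [(nat_lit 6, nat_lit 1000)])],
 ⟨p047_k28, nat_lit 0, nat_lit 0, nat_lit 138, nat_lit 0, nat_lit 13697, [nat_lit 1137066667, nat_lit 8000000], [], [nat_lit 14791044475, nat_lit 15093008555, nat_lit 14003016951, nat_lit 14292316659, nat_lit 17303447119, nat_lit 17575593647, nat_lit 16407249310, nat_lit 16668673377], nat_lit 1271250, nat_lit 1271250, nat_lit 111251, nat_lit 490000, nat_lit 1271250, nat_lit 1271250, [nat_lit 1100000, nat_lit 1442500], [nat_lit 31, nat_lit 40, nat_lit 40, nat_lit 80, nat_lit 3, nat_lit 226, nat_lit 20, nat_lit 8]⟩, C1.Rw.none,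
 ⟨nat_lit 6123, nat_lit 6225, ⟨.ofNat (nat_lit 182121), .ofNat (nat_lit 304098), .ofNat (nat_lit 187461), .ofNat (nat_lit 309437), .ofNat (nat_lit 186319), .ofNat (nat_lit 306890), .ofNat (nat_lit 191656), .ofNat (nat_lit 312227)⟩, ⟨.ofNat (nat_lit 431820), .ofNat (nat_lit 513137), .ofNat (nat_lit 453176), .ofNat (nat_lit 534494), .ofNat (nat_lit 430942), .ofNat (nat_lit 511323), .ofNat (nat_lit 452290), .ofNat (nat_lit 532671)⟩⟩, [⟨nat_lit 0, nat_lit 100, nat_lit 100, nat_lit 50, nat_lit 190685153⟩]⟩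
noncomputable def p047_l134 : Lf2 := ⟨nat_lit 1, nat_lit 3, [nat_lit 45, nat_lit 5, nat_lit 5, nat_lit 20], false, nat_lit 240, nat_lit 280, nat_lit 0, nat_lit 336, zbN0,
 nat_lit 0, nat_lit 0, nat_lit 0, nat_lit 0, nat_lit 0, nat_lit 0, nat_lit 0, nat_lit 0, nat_lit 0, nat_lit 0, nat_lit 0, nat_lit 0, nat_lit 0, nat_lit 0, nat_lit 0, nat_lit 0, nat_lit 0, nat_lit 0, [],
 C1.Rw.none, C1.Rw.none,
 zbF0, []⟩
noncomputable def p047_l135 : Lf2 := ⟨nat_lit 0, nat_lit 2, [nat_lit 10, nat_lit 5, nat_lit 5, nat_lit 20], true, nat_lit 240, nat_lit 260, nat_lit 0, nat_lit 288, ⟨nat_lit 0, nat_lit 0, nat_lit 1000, nat_lit 6, nat_lit 86, nat_lit 1000, nat_lit 184, nat_lit 1000, nat_lit 48600, nat_lit 268, nat_lit 70417, nat_lit 280, nat_lit 51651069, nat_lit 0, nat_lit 0, nat_lit 3508274, false, false⟩,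
 nat_lit 0, nat_lit 7422, nat_lit 0, nat_lit 0, nat_lit 4123, nat_lit 0, nat_lit 526, nat_lit 0, nat_lit 0, nat_lit 0, nat_lit 0, nat_lit 0, nat_lit 0, nat_lit 1025060844598, nat_lit 80, nat_lit 1000000, nat_lit 0, nat_lit 0, [(nat_lit 6, [(nat_lit 6, nat_lit 1000)])],
 ⟨p047_k35, nat_lit 0, nat_lit 0, nat_lit 143, nat_lit 0, nat_lit 112192, [nat_lit 2257066667, nat_lit 1408000000, nat_lit 211200000], [], [nat_lit 15142162097, nat_lit 15703028282, nat_lit 14534268231, nat_lit 15076863464, nat_lit 16503098600, nat_lit 17213955328, nat_lit 15651964043, nat_lit 16168366958], nat_lit 1271250, nat_lit 1271250, nat_lit 111251, nat_lit 230001, nat_lit 1271250, nat_lit 1271250, [nat_lit 1100000, nat_lit 1442500, nat_lit 1271250], [nat_lit 9, nat_lit 40, nat_lit 40, nat_lit 80, nat_lit 2, nat_lit 215, nat_lit 10, nat_lit 7]⟩, C1.Rw.none,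
 ⟨nat_lit 5916, nat_lit 6124, ⟨.ofNat (nat_lit 180982), .ofNat (nat_lit 221172), .ofNat (nat_lit 202330), .ofNat (nat_lit 242520), .ofNat (nat_lit 189276), .ofNat (nat_lit 228543), .ofNat (nat_lit 210615), .ofNat (nat_lit 249882)⟩, ⟨.ofNat (nat_lit 430942), .ofNat (nat_lit 471133), .ofNat (nat_lit 452290), .ofNat (nat_lit 492481), .ofNat (nat_lit 429157), .ofNat (nat_lit 468424), .ofNat (nat_lit 450496), .ofNat (nat_lit 489763)⟩⟩, [⟨nat_lit 0, nat_lit 100, nat_lit 100, nat_lit 60, nat_lit 370105717⟩]⟩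
noncomputable def p047_l136 : Lf2 := ⟨nat_lit 0, nat_lit 2, [nat_lit 10, nat_lit 5, nat_lit 5, nat_lit 20], false, nat_lit 260, nat_lit 280, nat_lit 0, nat_lit 160, ⟨nat_lit 1000, nat_lit 0, nat_lit 0, nat_lit 0, nat_lit 0, nat_lit 0, nat_lit 0, nat_lit 0, nat_lit 0, nat_lit 0, nat_lit 0, nat_lit 0, nat_lit 0, nat_lit 0, nat_lit 0, nat_lit 0, false, false⟩,
 nat_lit 16727, nat_lit 0, nat_lit 0, nat_lit 7937, nat_lit 8125, nat_lit 8855, nat_lit 2371, nat_lit 0, nat_lit 0, nat_lit 2780, nat_lit 0, nat_lit 0, nat_lit 0, nat_lit 0, nat_lit 0, nat_lit 0, nat_lit 0, nat_lit 0, [],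
 ⟨p047_k35, nat_lit 0, nat_lit 0, nat_lit 147, nat_lit 0, nat_lit 112192, [nat_lit 4688000000, nat_lit 6250000000, nat_lit 7968000000], [], [nat_lit 19999106297, nat_lit 20723253844, nat_lit 18187933282, nat_lit 18907271813, nat_lit 21616233407, nat_lit 22366780938, nat_lit 19792294313, nat_lit 20540534250], nat_lit 1271250, nat_lit 1271250, nat_lit 111251, nat_lit 230001, nat_lit 1271250, nat_lit 1271250, [nat_lit 1100000, nat_lit 1442500, nat_lit 1271250], [nat_lit 9, nat_lit 40, nat_lit 40, nat_lit 80, nat_lit 2, nat_lit 215, nat_lit 10, nat_lit 6]⟩, ⟨p047_k36, nat_lit 0, nat_lit 0, nat_lit 269, nat_lit 0, nat_lit 118911, [nat_lit 4688000000, nat_lit 6250000000, nat_lit 7968000000], [], [nat_lit 19434181680, nat_lit 21795201070, nat_lit 16913791940, nat_lit 19265400770, nat_lit 13137593780, nat_lit 15123403230, nat_lit 12589790680, nat_lit 13272591200], nat_lit 1271250, nat_lit 1271250, nat_lit 111251, nat_lit 230001,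 nat_lit 0, nat_lit 1100001, [nat_lit 1100000, nat_lit 1442500, nat_lit 1271250], [nat_lit 9, nat_lit 40, nat_lit 40, nat_lit 80, nat_lit 2, nat_lit 260, nat_lit 50, nat_lit 9]⟩,
 zbF0, [⟨nat_lit 0, nat_lit 100, nat_lit 99, nat_lit 52, nat_lit 1834771740⟩]⟩
noncomputable def p047_l137 : Lf2 := ⟨nat_lit 0, nat_lit 2, [nat_lit 10, nat_lit 5, nat_lit 5, nat_lit 20], false, nat_lit 260, nat_lit 280, nat_lit 160, nat_lit 240, ⟨nat_lit 1000, nat_lit 0, nat_lit 0, nat_lit 0, nat_lit 0, nat_lit 0, nat_lit 0, nat_lit 0, nat_lit 0, nat_lit 0, nat_lit 0, nat_lit 0, nat_lit 0, nat_lit 0, nat_lit 0, nat_lit 0, false, false⟩,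
 nat_lit 14471, nat_lit 0, nat_lit 0, nat_lit 0, nat_lit 8007, nat_lit 7661, nat_lit 2831, nat_lit 0, nat_lit 0, nat_lit 0, nat_lit 0, nat_lit 0, nat_lit 0, nat_lit 0, nat_lit 0, nat_lit 0, nat_lit 0, nat_lit 0, [],
 ⟨p047_k35, nat_lit 0, nat_lit 0, nat_lit 129, nat_lit 0, nat_lit 61561, [nat_lit 4688000000, nat_lit 6250000000, nat_lit 7968000000], [], [nat_lit 19685289378, nat_lit 20485019025, nat_lit 18173412668, nat_lit 18830444021, nat_lit 21460756928, nat_lit 22259081566, nat_lit 19669923422, nat_lit 20412571174], nat_lit 1271250, nat_lit 1271250, nat_lit 111251, nat_lit 230001, nat_lit 1271250, nat_lit 1271250, [nat_lit 1100000, nat_lit 1442500, nat_lit 1271250], [nat_lit 9, nat_lit 40, nat_lit 40, nat_lit 80, nat_lit 2, nat_lit 215, nat_lit 10, nat_lit 6]⟩, ⟨p047_k36, nat_lit 0, nat_lit 0, nat_lit 184, nat_lit 0, nat_lit 65248, [nat_lit 4688000000, nat_lit 6250000000, nat_lit 7968000000], [], [nat_lit 9961939448,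 nat_lit 11062428663, nat_lit 8295021812, nat_lit 9385696813, nat_lit 15474799276, nat_lit 16547241225, nat_lit 13500558708, nat_lit 14398613120], nat_lit 1271250, nat_lit 1271250, nat_lit 111251, nat_lit 230001, nat_lit 1100001, nat_lit 1785000, [nat_lit 1100000, nat_lit 1442500, nat_lit 1271250], [nat_lit 9, nat_lit 40, nat_lit 40, nat_lit 80, nat_lit 2, nat_lit 289, nat_lit 75, nat_lit 9]⟩,
 zbF0, [⟨nat_lit 0, nat_lit 100, nat_lit 99, nat_lit 55, nat_lit 787819401⟩, ⟨nat_lit 23, nat_lit 96, nat_lit 100, nat_lit 54, nat_lit 999833342⟩]⟩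
noncomputable def p047_l138 : Lf2 := ⟨nat_lit 0, nat_lit 2, [nat_lit 10, nat_lit 5, nat_lit 5, nat_lit 20], false, nat_lit 260, nat_lit 280, nat_lit 160, nat_lit 240, ⟨nat_lit 1000, nat_lit 0, nat_lit 0, nat_lit 0, nat_lit 0, nat_lit 0, nat_lit 0, nat_lit 0, nat_lit 0, nat_lit 0, nat_lit 0, nat_lit 0, nat_lit 0, nat_lit 0, nat_lit 0, nat_lit 0, false, false⟩,
 nat_lit 19542, nat_lit 0, nat_lit 0, nat_lit 0, nat_lit 8207, nat_lit 10856, nat_lit 2379, nat_lit 0, nat_lit 0, nat_lit 2268, nat_lit 0, nat_lit 0, nat_lit 0, nat_lit 0, nat_lit 0, nat_lit 0, nat_lit 0, nat_lit 0, [],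
 ⟨p047_k35, nat_lit 0, nat_lit 0, nat_lit 142, nat_lit 0, nat_lit 112192, [nat_lit 4688000000, nat_lit 6250000000, nat_lit 7968000000], [], [nat_lit 19589600301, nat_lit 20316947869, nat_lit 18123882450, nat_lit 18847362330, nat_lit 21214780987, nat_lit 21972197256, nat_lit 19740942622, nat_lit 20494297574], nat_lit 1271250, nat_lit 1271250, nat_lit 134400, nat_lit 230001, nat_lit 1271250, nat_lit 1271250, [nat_lit 1100000, nat_lit 1442500, nat_lit 1271250], [nat_lit 9, nat_lit 40, nat_lit 40, nat_lit 80, nat_lit 2, nat_lit 215, nat_lit 10, nat_lit 6]⟩, ⟨p047_k35, nat_lit 0, nat_lit 0, nat_lit 181, nat_lit 0, nat_lit 112192, [nat_lit 4688000000, nat_lit 6250000000, nat_lit 7968000000], [], [nat_lit 12208279173, nat_lit 13345994660, nat_lit 10206152520, nat_lit 11336457872, nat_lit 17357813492, nat_lit 18718396192, nat_lit 15476327800, nat_lit 16189887744], nat_lit 1271250, nat_lit 1271250, nat_lit 134400, nat_lit 230001,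 nat_lit 1100001, nat_lit 1785000, [nat_lit 1100000, nat_lit 1442500, nat_lit 1271250], [nat_lit 9, nat_lit 40, nat_lit 40, nat_lit 80, nat_lit 2, nat_lit 289, nat_lit 75, nat_lit 9]⟩,
 zbF0, [⟨nat_lit 0, nat_lit 100, nat_lit 100, nat_lit 55, nat_lit 57556259⟩, ⟨nat_lit 0, nat_lit 100, nat_lit 100, nat_lit 60, nat_lit 1011411557⟩, ⟨nat_lit 23, nat_lit 96, nat_lit 100, nat_lit 56, nat_lit 945645055⟩]⟩
noncomputable def p047_l139 : Lf2 := ⟨nat_lit 0, nat_lit 2, [nat_lit 10, nat_lit 5, nat_lit 5, nat_lit 20], false, nat_lit 260, nat_lit 280, nat_lit 240, nat_lit 268, ⟨nat_lit 1000, nat_lit 0, nat_lit 0, nat_lit 0, nat_lit 0, nat_lit 0, nat_lit 0, nat_lit 0, nat_lit 0, nat_lit 0, nat_lit 0, nat_lit 0, nat_lit 0, nat_lit 0, nat_lit 0, nat_lit 0, false, false⟩,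
 nat_lit 19258, nat_lit 0, nat_lit 0, nat_lit 0, nat_lit 9022, nat_lit 10195, nat_lit 2496, nat_lit 0, nat_lit 0, nat_lit 2697, nat_lit 0, nat_lit 0, nat_lit 0, nat_lit 0, nat_lit 0, nat_lit 0, nat_lit 0, nat_lit 0, [],
 ⟨p047_k35, nat_lit 0, nat_lit 0, nat_lit 142, nat_lit 0, nat_lit 112192, [nat_lit 4688000000, nat_lit 6250000000, nat_lit 7968000000], [], [nat_lit 19134848906, nat_lit 20251028413, nat_lit 17412304064, nat_lit 18176944907, nat_lit 21623880166, nat_lit 22661563420, nat_lit 19541549430, nat_lit 20577142556], nat_lit 1271250, nat_lit 1271250, nat_lit 134400, nat_lit 230001, nat_lit 1271250, nat_lit 1271250, [nat_lit 1100000, nat_lit 1442500, nat_lit 1271250], [nat_lit 9, nat_lit 40, nat_lit 40, nat_lit 80, nat_lit 2, nat_lit 215, nat_lit 10, nat_lit 6]⟩, ⟨p047_k36, nat_lit 0, nat_lit 0, nat_lit 147, nat_lit 0, nat_lit 118911, [nat_lit 4688000000, nat_lit 6250000000, nat_lit 7968000000], [], [nat_lit 16533512277,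 nat_lit 18401987390, nat_lit 14677899245, nat_lit 16439486265, nat_lit 19722026011, nat_lit 22078842083, nat_lit 17440567275, nat_lit 19703213307], nat_lit 1271250, nat_lit 1271250, nat_lit 134400, nat_lit 230001, nat_lit 1271250, nat_lit 1271250, [nat_lit 1100000, nat_lit 1442500, nat_lit 1271250], [nat_lit 9, nat_lit 40, nat_lit 40, nat_lit 80, nat_lit 2, nat_lit 215, nat_lit 10, nat_lit 7]⟩,
 zbF0, [⟨nat_lit 0, nat_lit 100, nat_lit 100, nat_lit 60, nat_lit 783609404⟩, ⟨nat_lit 11, nat_lit 100, nat_lit 97, nat_lit 61, nat_lit 1376161223⟩]⟩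
noncomputable def p047_l140 : Lf2 := ⟨nat_lit 0, nat_lit 3, [nat_lit 45, nat_lit 5, nat_lit 5, nat_lit 20], false, nat_lit 240, nat_lit 280, nat_lit 0, nat_lit 288, ⟨nat_lit 199, nat_lit 801, nat_lit 0, nat_lit 6, nat_lit 86, nat_lit 801, nat_lit 192, nat_lit 0, nat_lit 0, nat_lit 0, nat_lit 0, nat_lit 0, nat_lit 50885332, nat_lit 3618908, nat_lit 12495760, nat_lit 3593259, false, false⟩,
 nat_lit 3465, nat_lit 6464, nat_lit 0, nat_lit 4063, nat_lit 5516, nat_lit 1834, nat_lit 0, nat_lit 0, nat_lit 0, nat_lit 463, nat_lit 0, nat_lit 0, nat_lit 0, nat_lit 0, nat_lit 0, nat_lit 320400, nat_lit 0, nat_lit 0, [(nat_lit 6, [(nat_lit 1, nat_lit 801)])],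
 ⟨p047_k57, nat_lit 0, nat_lit 0, nat_lit 136, nat_lit 0, nat_lit 19825, [nat_lit 3089417600, nat_lit 3671100401, nat_lit 4205791799], [], [nat_lit 15902210896, nat_lit 16650383616, nat_lit 14771457320, nat_lit 15513587392, nat_lit 19218092300, nat_lit 19992426008, nat_lit 17838568252, nat_lit 18498407680], nat_lit 1271250, nat_lit 1271250, nat_lit 111251, nat_lit 230001, nat_lit 1271250, nat_lit 1271250, [nat_lit 1100000, nat_lit 1442500, nat_lit 1271250], [nat_lit 9, nat_lit 40, nat_lit 40, nat_lit 80, nat_lit 2, nat_lit 215, nat_lit 10, nat_lit 7]⟩, ⟨p047_k26, nat_lit 0, nat_lit 0, nat_lit 261, nat_lit 0, nat_lit 21084, [nat_lit 932912000, nat_lit 1243750000, nat_lit 1585632000], [], [nat_lit 6989781112, nat_lit 6041753500, nat_lit 6034674260, nat_lit 5093725888, nat_lit 4459152693, nat_lit 4843401122, nat_lit 4135284964, nat_lit 4325779084], nat_lit 1271250, nat_lit 1271250, nat_lit 111251, nat_lit 230001, nat_lit 0,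 nat_lit 2034000, [nat_lit 1100000, nat_lit 1442500, nat_lit 1271250], [nat_lit 9, nat_lit 40, nat_lit 40, nat_lit 80, nat_lit 2, nat_lit 317, nat_lit 100, nat_lit 11]⟩,
 ⟨nat_lit 5916, nat_lit 6124, ⟨.ofNat (nat_lit 180982), .ofNat (nat_lit 221172), .ofNat (nat_lit 202330), .ofNat (nat_lit 242520), .ofNat (nat_lit 189276), .ofNat (nat_lit 228543), .ofNat (nat_lit 210615), .ofNat (nat_lit 249882)⟩, ⟨.ofNat (nat_lit 430942), .ofNat (nat_lit 511323), .ofNat (nat_lit 452290), .ofNat (nat_lit 532671), .ofNat (nat_lit 429157), .ofNat (nat_lit 507691), .ofNat (nat_lit 450496), .ofNat (nat_lit 529030)⟩⟩, [⟨nat_lit 0, nat_lit 100, nat_lit 100, nat_lit 60, nat_lit 696994760⟩, ⟨nat_lit 23, nat_lit 98, nat_lit 100, nat_lit 54, nat_lit 27688543⟩]⟩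
noncomputable def p047_l141 : Lf2 := ⟨nat_lit 0, nat_lit 3, [nat_lit 45, nat_lit 5, nat_lit 5, nat_lit 20], true, nat_lit 240, nat_lit 280, nat_lit 0, nat_lit 336, ⟨nat_lit 0, nat_lit 0, nat_lit 1000, nat_lit 6, nat_lit 108, nat_lit 1000, nat_lit 192, nat_lit 1000, nat_lit 12488, nat_lit 241, nat_lit 109350, nat_lit 296, nat_lit 49479303, nat_lit 0, nat_lit 0, nat_lit 3896601, false, false⟩,
 nat_lit 0, nat_lit 6674, nat_lit 0, nat_lit 0, nat_lit 3707, nat_lit 0, nat_lit 0, nat_lit 0, nat_lit 0, nat_lit 0, nat_lit 0, nat_lit 0, nat_lit 0, nat_lit 22243566165625, nat_lit 80, nat_lit 1000000, nat_lit 0, nat_lit 0, [(nat_lit 6, [(nat_lit 6, nat_lit 1000)])],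
 ⟨p047_k57, nat_lit 0, nat_lit 0, nat_lit 129, nat_lit 0, nat_lit 60999, [nat_lit 2257066667, nat_lit 1408000000, nat_lit 211200000], [], [nat_lit 14321722107, nat_lit 14627037229, nat_lit 14102646195, nat_lit 14397438717, nat_lit 16832064446, nat_lit 17107096387, nat_lit 16525526870, nat_lit 16791537729], nat_lit 1271250, nat_lit 1271250, nat_lit 230001, nat_lit 490000, nat_lit 1271250, nat_lit 1271250, [nat_lit 1100000, nat_lit 1442500, nat_lit 1271250], [nat_lit 9, nat_lit 40, nat_lit 40, nat_lit 80, nat_lit 2, nat_lit 226, nat_lit 20, nat_lit 7]⟩, C1.Rw.none,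
 ⟨nat_lit 6020, nat_lit 6124, ⟨.ofNat (nat_lit 221172), .ofNat (nat_lit 301553), .ofNat (nat_lit 237183), .ofNat (nat_lit 317564), .ofNat (nat_lit 224872), .ofNat (nat_lit 304325), .ofNat (nat_lit 240879), .ofNat (nat_lit 320331)⟩, ⟨.ofNat (nat_lit 430942), .ofNat (nat_lit 511323), .ofNat (nat_lit 452290), .ofNat (nat_lit 532671), .ofNat (nat_lit 430055), .ofNat (nat_lit 509508), .ofNat (nat_lit 451398), .ofNat (nat_lit 530850)⟩⟩, []⟩
noncomputable def p047_l142 : Lf2 := ⟨nat_lit 0, nat_lit 2, [nat_lit 10, nat_lit 5, nat_lit 5, nat_lit 20], true, nat_lit 240, nat_lit 260, nat_lit 0, nat_lit 312, ⟨nat_lit 0, nat_lit 0, nat_lit 1000, nat_lit 6, nat_lit 103, nat_lit 1000, nat_lit 184, nat_lit 1000, nat_lit 49874, nat_lit 269, nat_lit 98817, nat_lit 292, nat_lit 50624066, nat_lit 0, nat_lit 0, nat_lit 3736378, false, false⟩,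
 nat_lit 0, nat_lit 6771, nat_lit 0, nat_lit 0, nat_lit 3851, nat_lit 0, nat_lit 0, nat_lit 0, nat_lit 0, nat_lit 0, nat_lit 0, nat_lit 0, nat_lit 0, nat_lit 25365846553509, nat_lit 80, nat_lit 1000000, nat_lit 0, nat_lit 0, [(nat_lit 6, [(nat_lit 6, nat_lit 1000)])],
 ⟨p047_k46, nat_lit 0, nat_lit 0, nat_lit 130, nat_lit 0, nat_lit 109070, [nat_lit 2257066667, nat_lit 1408000000, nat_lit 211200000], [], [nat_lit 14499923533, nat_lit 14810472479, nat_lit 14365279925, nat_lit 14670437971, nat_lit 15761680732, nat_lit 16056655763, nat_lit 15605011867, nat_lit 15894982403], nat_lit 1271250, nat_lit 1271250, nat_lit 230001, nat_lit 356250, nat_lit 1271250, nat_lit 1271250, [nat_lit 1100000, nat_lit 1442500, nat_lit 1271250], [nat_lit 9, nat_lit 40, nat_lit 40, nat_lit 80, nat_lit 2, nat_lit 226, nat_lit 20, nat_lit 7]⟩, C1.Rw.none,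
 ⟨nat_lit 5916, nat_lit 6021, ⟨.ofNat (nat_lit 224872), .ofNat (nat_lit 264598), .ofNat (nat_lit 246214), .ofNat (nat_lit 285941), .ofNat (nat_lit 228543), .ofNat (nat_lit 267810), .ofNat (nat_lit 249882), .ofNat (nat_lit 289149)⟩, ⟨.ofNat (nat_lit 430055), .ofNat (nat_lit 469782), .ofNat (nat_lit 451398), .ofNat (nat_lit 491124), .ofNat (nat_lit 429157), .ofNat (nat_lit 468424), .ofNat (nat_lit 450496), .ofNat (nat_lit 489763)⟩⟩, []⟩
noncomputable def p047_l143 : Lf2 := ⟨nat_lit 0, nat_lit 1, [nat_lit 19, nat_lit 5, nat_lit 5, nat_lit 20], true, nat_lit 260, nat_lit 280, nat_lit 0, nat_lit 296, ⟨nat_lit 0, nat_lit 0, nat_lit 1000, nat_lit 6, nat_lit 101, nat_lit 1000, nat_lit 200, nat_lit 1000, nat_lit 13407, nat_lit 242, nat_lit 96267, nat_lit 291, nat_lit 49277245, nat_lit 0, nat_lit 0, nat_lit 3866758, false, false⟩,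
 nat_lit 0, nat_lit 6454, nat_lit 0, nat_lit 0, nat_lit 3670, nat_lit 0, nat_lit 0, nat_lit 0, nat_lit 0, nat_lit 0, nat_lit 0, nat_lit 0, nat_lit 0, nat_lit 0, nat_lit 10, nat_lit 1000000, nat_lit 0, nat_lit 0, [(nat_lit 6, [(nat_lit 6, nat_lit 1000)])],
 ⟨p047_k58, nat_lit 0, nat_lit 0, nat_lit 116, nat_lit 0, nat_lit 59056, [nat_lit 1137066667, nat_lit 8000000], [], [nat_lit 15894145175, nat_lit 16183084987, nat_lit 15763092301, nat_lit 16047176660, nat_lit 17128591962, nat_lit 17402501267, nat_lit 16976186574, nat_lit 17245612972], nat_lit 1271250, nat_lit 1271250, nat_lit 230001, nat_lit 356250, nat_lit 1271250, nat_lit 1271250, [nat_lit 1100000, nat_lit 1442500], [nat_lit 31, nat_lit 40, nat_lit 40, nat_lit 80, nat_lit 3, nat_lit 226, nat_lit 20, nat_lit 8]⟩, C1.Rw.none,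
 ⟨nat_lit 5916, nat_lit 6021, ⟨.ofNat (nat_lit 224872), .ofNat (nat_lit 264598), .ofNat (nat_lit 235543), .ofNat (nat_lit 275269), .ofNat (nat_lit 228543), .ofNat (nat_lit 267810), .ofNat (nat_lit 239212), .ofNat (nat_lit 278479)⟩, ⟨.ofNat (nat_lit 469782), .ofNat (nat_lit 509508), .ofNat (nat_lit 491124), .ofNat (nat_lit 530850), .ofNat (nat_lit 468424), .ofNat (nat_lit 507691), .ofNat (nat_lit 489763), .ofNat (nat_lit 529030)⟩⟩, []⟩
noncomputable def p047_l144 : Lf2 := ⟨nat_lit 0, nat_lit 1, [nat_lit 19, nat_lit 5, nat_lit 5, nat_lit 20], true, nat_lit 260, nat_lit 280, nat_lit 0, nat_lit 296, ⟨nat_lit 0, nat_lit 0, nat_lit 1000, nat_lit 6, nat_lit 104, nat_lit 1000, nat_lit 200, nat_lit 1000, nat_lit 13407, nat_lit 242, nat_lit 101400, nat_lit 293, nat_lit 49078332, nat_lit 0, nat_lit 0, nat_lit 3908993, false, false⟩,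
 nat_lit 0, nat_lit 6454, nat_lit 0, nat_lit 0, nat_lit 3670, nat_lit 0, nat_lit 0, nat_lit 0, nat_lit 0, nat_lit 0, nat_lit 0, nat_lit 0, nat_lit 0, nat_lit 0, nat_lit 10, nat_lit 1000000, nat_lit 0, nat_lit 0, [(nat_lit 6, [(nat_lit 6, nat_lit 1000)])],
 ⟨p047_k58, nat_lit 0, nat_lit 0, nat_lit 118, nat_lit 0, nat_lit 82937, [nat_lit 1137066667, nat_lit 8000000], [], [nat_lit 15894145175, nat_lit 16183084987, nat_lit 15763092301, nat_lit 16047176660, nat_lit 17128591962, nat_lit 17402501267, nat_lit 16976186574, nat_lit 17245612972], nat_lit 1271250, nat_lit 1271250, nat_lit 230001, nat_lit 356250, nat_lit 1271250, nat_lit 1271250, [nat_lit 1100000, nat_lit 1442500], [nat_lit 31, nat_lit 40, nat_lit 40, nat_lit 80, nat_lit 3, nat_lit 226, nat_lit 20, nat_lit 8]⟩, C1.Rw.none,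
 ⟨nat_lit 5916, nat_lit 6021, ⟨.ofNat (nat_lit 235543), .ofNat (nat_lit 275269), .ofNat (nat_lit 240879), .ofNat (nat_lit 280605), .ofNat (nat_lit 239212), .ofNat (nat_lit 278479), .ofNat (nat_lit 244547), .ofNat (nat_lit 283814)⟩, ⟨.ofNat (nat_lit 469782), .ofNat (nat_lit 509508), .ofNat (nat_lit 491124), .ofNat (nat_lit 530850), .ofNat (nat_lit 468424), .ofNat (nat_lit 507691), .ofNat (nat_lit 489763), .ofNat (nat_lit 529030)⟩⟩, []⟩
noncomputable def p047_l145 : Lf2 := ⟨nat_lit 0, nat_lit 1, [nat_lit 19, nat_lit 5, nat_lit 5, nat_lit 20], false, nat_lit 260, nat_lit 280, nat_lit 0, nat_lit 280, ⟨nat_lit 1000, nat_lit 0, nat_lit 0, nat_lit 0, nat_lit 0, nat_lit 0, nat_lit 0, nat_lit 0, nat_lit 0, nat_lit 0, nat_lit 0, nat_lit 0, nat_lit 0, nat_lit 0, nat_lit 0, nat_lit 0, false, false⟩,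
 nat_lit 13460, nat_lit 0, nat_lit 0, nat_lit 0, nat_lit 6914, nat_lit 7655, nat_lit 0, nat_lit 0, nat_lit 0, nat_lit 3522, nat_lit 0, nat_lit 0, nat_lit 0, nat_lit 0, nat_lit 0, nat_lit 0, nat_lit 0, nat_lit 0, [],
 ⟨p047_k58, nat_lit 0, nat_lit 0, nat_lit 120, nat_lit 0, nat_lit 107627, [nat_lit 4688000000, nat_lit 6250000000], [], [nat_lit 17230964407, nat_lit 17628071344, nat_lit 16994900661, nat_lit 17388996924, nat_lit 18954886189, nat_lit 19327223320, nat_lit 18705458501, nat_lit 19075033325], nat_lit 1271250, nat_lit 1271250, nat_lit 230001, nat_lit 279600, nat_lit 1271250, nat_lit 1271250, [nat_lit 1100000, nat_lit 1442500], [nat_lit 31, nat_lit 40, nat_lit 40, nat_lit 80, nat_lit 3, nat_lit 226, nat_lit 20, nat_lit 8]⟩, ⟨p047_k58, nat_lit 0, nat_lit 0, nat_lit 250, nat_lit 0, nat_lit 107627, [nat_lit 4688000000, nat_lit 6250000000], [], [nat_lit 16094940013, nat_lit 16825758200, nat_lit 15851403485, nat_lit 16346532923,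 nat_lit 19466733733, nat_lit 19767515360, nat_lit 19217417846, nat_lit 19515697133], nat_lit 1271250, nat_lit 1271250, nat_lit 230001, nat_lit 279600, nat_lit 0, nat_lit 1977500, [nat_lit 1100000, nat_lit 1442500], [nat_lit 31, nat_lit 40, nat_lit 40, nat_lit 80, nat_lit 3, nat_lit 317, nat_lit 100, nat_lit 13]⟩,
 zbF0, [⟨nat_lit 23, nat_lit 99, nat_lit 100, nat_lit 66, nat_lit 349324246⟩]⟩
noncomputable def p047_l146 : Lf2 := ⟨nat_lit 0, nat_lit 1, [nat_lit 19, nat_lit 5, nat_lit 5, nat_lit 20], false, nat_lit 260, nat_lit 280, nat_lit 0, nat_lit 296, ⟨nat_lit 1000, nat_lit 0, nat_lit 0, nat_lit 0, nat_lit 0, nat_lit 0, nat_lit 0, nat_lit 0, nat_lit 0, nat_lit 0, nat_lit 0, nat_lit 0, nat_lit 0, nat_lit 0, nat_lit 0, nat_lit 0, false, false⟩,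
 nat_lit 13490, nat_lit 0, nat_lit 0, nat_lit 0, nat_lit 6989, nat_lit 7672, nat_lit 0, nat_lit 0, nat_lit 0, nat_lit 3477, nat_lit 0, nat_lit 0, nat_lit 0, nat_lit 0, nat_lit 0, nat_lit 0, nat_lit 0, nat_lit 0, [],
 ⟨p047_k58, nat_lit 0, nat_lit 0, nat_lit 116, nat_lit 0, nat_lit 107627, [nat_lit 4688000000, nat_lit 6250000000], [], [nat_lit 16935766335, nat_lit 17332338677, nat_lit 16575302099, nat_lit 16967321375, nat_lit 18657529140, nat_lit 19029357170, nat_lit 18276851735, nat_lit 18644502694], nat_lit 1271250, nat_lit 1271250, nat_lit 279600, nat_lit 356250, nat_lit 1271250, nat_lit 1271250, [nat_lit 1100000, nat_lit 1442500], [nat_lit 31, nat_lit 40, nat_lit 40, nat_lit 80, nat_lit 3, nat_lit 226, nat_lit 20, nat_lit 8]⟩, ⟨p047_k58, nat_lit 0, nat_lit 0, nat_lit 246, nat_lit 0, nat_lit 107627, [nat_lit 4688000000, nat_lit 6250000000], [], [nat_lit 33056120646, nat_lit 32060229834, nat_lit 30672201620, nat_lit 29680752896,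 nat_lit 22003135424, nat_lit 22192015371, nat_lit 21683005594, nat_lit 21879993207], nat_lit 1271250, nat_lit 1271250, nat_lit 279600, nat_lit 356250, nat_lit 0, nat_lit 2090500, [nat_lit 1100000, nat_lit 1442500], [nat_lit 31, nat_lit 40, nat_lit 40, nat_lit 80, nat_lit 3, nat_lit 317, nat_lit 100, nat_lit 13]⟩,
 zbF0, []⟩
noncomputable def p047_l147 : Lf2 := ⟨nat_lit 0, nat_lit 2, [nat_lit 10, nat_lit 5, nat_lit 5, nat_lit 20], false, nat_lit 260, nat_lit 280, nat_lit 0, nat_lit 296, ⟨nat_lit 312, nat_lit 32, nat_lit 656, nat_lit 6, nat_lit 103, nat_lit 688, nat_lit 200, nat_lit 656, nat_lit 13407, nat_lit 242, nat_lit 98817, nat_lit 292, nat_lit 49144875, nat_lit 4688085, nat_lit 13167040, nat_lit 3894970, false, false⟩,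
 nat_lit 5647, nat_lit 2672, nat_lit 0, nat_lit 0, nat_lit 4731, nat_lit 2989, nat_lit 0, nat_lit 0, nat_lit 0, nat_lit 600, nat_lit 0, nat_lit 0, nat_lit 0, nat_lit 0, nat_lit 0, nat_lit 668800, nat_lit 0, nat_lit 0, [(nat_lit 6, [(nat_lit 1, nat_lit 32), (nat_lit 6, nat_lit 656)])],
 ⟨p047_k46, nat_lit 0, nat_lit 0, nat_lit 116, nat_lit 0, nat_lit 58547, [nat_lit 2189764267, nat_lit 1921020800, nat_lit 1457860800], [], [nat_lit 16330352312, nat_lit 16654669843, nat_lit 16049141612, nat_lit 16367730023, nat_lit 17724889411, nat_lit 18031300838, nat_lit 17418382658, nat_lit 17719208954], nat_lit 1271250, nat_lit 1271250, nat_lit 230001, nat_lit 356250, nat_lit 1271250, nat_lit 1271250, [nat_lit 1100000, nat_lit 1442500, nat_lit 1271250], [nat_lit 9, nat_lit 40, nat_lit 40, nat_lit 80, nat_lit 2, nat_lit 226, nat_lit 20, nat_lit 7]⟩, ⟨p047_k36, nat_lit 0, nat_lit 0, nat_lit 254, nat_lit 0, nat_lit 63830, [nat_lit 1462656000,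 nat_lit 1950000000, nat_lit 2486016000], [], [nat_lit 12021933740, nat_lit 10465328298, nat_lit 10465328298, nat_lit 8920260396, nat_lit 6711445340, nat_lit 7148299418, nat_lit 6548880064, nat_lit 6801896274], nat_lit 1271250, nat_lit 1271250, nat_lit 230001, nat_lit 356250, nat_lit 0, nat_lit 2090500, [nat_lit 1100000, nat_lit 1442500, nat_lit 1271250], [nat_lit 9, nat_lit 40, nat_lit 40, nat_lit 80, nat_lit 2, nat_lit 317, nat_lit 100, nat_lit 11]⟩,
 ⟨nat_lit 5916, nat_lit 6021, ⟨.ofNat (nat_lit 224872), .ofNat (nat_lit 264598), .ofNat (nat_lit 246214), .ofNat (nat_lit 285941), .ofNat (nat_lit 228543), .ofNat (nat_lit 267810), .ofNat (nat_lit 249882), .ofNat (nat_lit 289149)⟩, ⟨.ofNat (nat_lit 469782), .ofNat (nat_lit 509508), .ofNat (nat_lit 491124), .ofNat (nat_lit 530850), .ofNat (nat_lit 468424), .ofNat (nat_lit 507691), .ofNat (nat_lit 489763), .ofNat (nat_lit 529030)⟩⟩, []⟩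
noncomputable def p047_l148 : Lf2 := ⟨nat_lit 0, nat_lit 2, [nat_lit 10, nat_lit 5, nat_lit 5, nat_lit 20], true, nat_lit 240, nat_lit 280, nat_lit 0, nat_lit 336, ⟨nat_lit 0, nat_lit 0, nat_lit 1000, nat_lit 6, nat_lit 119, nat_lit 1000, nat_lit 192, nat_lit 1000, nat_lit 13407, nat_lit 242, nat_lit 132017, nat_lit 304, nat_lit 48853172, nat_lit 0, nat_lit 0, nat_lit 4022751, false, false⟩,
 nat_lit 0, nat_lit 6630, nat_lit 0, nat_lit 0, nat_lit 3770, nat_lit 0, nat_lit 0, nat_lit 0, nat_lit 0, nat_lit 0, nat_lit 0, nat_lit 0, nat_lit 0, nat_lit 0, nat_lit 80, nat_lit 1000000, nat_lit 0, nat_lit 0, [(nat_lit 6, [(nat_lit 6, nat_lit 1000)])],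
 ⟨p047_k46, nat_lit 0, nat_lit 0, nat_lit 120, nat_lit 0, nat_lit 109070, [nat_lit 2257066667, nat_lit 1408000000, nat_lit 211200000], [], [nat_lit 14447943827, nat_lit 14750230747, nat_lit 14324462667, nat_lit 14621431587, nat_lit 16903566261, nat_lit 17175952122, nat_lit 16736636710, nat_lit 17004464977], nat_lit 1271250, nat_lit 1271250, nat_lit 356250, nat_lit 490000, nat_lit 1271250, nat_lit 1271250, [nat_lit 1100000, nat_lit 1442500, nat_lit 1271250], [nat_lit 9, nat_lit 40, nat_lit 40, nat_lit 80, nat_lit 2, nat_lit 226, nat_lit 20, nat_lit 7]⟩, C1.Rw.none,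
 ⟨nat_lit 5916, nat_lit 6021, ⟨.ofNat (nat_lit 264598), .ofNat (nat_lit 304325), .ofNat (nat_lit 285941), .ofNat (nat_lit 325667), .ofNat (nat_lit 267810), .ofNat (nat_lit 307076), .ofNat (nat_lit 289149), .ofNat (nat_lit 328416)⟩, ⟨.ofNat (nat_lit 430055), .ofNat (nat_lit 509508), .ofNat (nat_lit 451398), .ofNat (nat_lit 530850), .ofNat (nat_lit 429157), .ofNat (nat_lit 507691), .ofNat (nat_lit 450496), .ofNat (nat_lit 529030)⟩⟩, []⟩
noncomputable def p047_l149 : Lf2 := ⟨nat_lit 0, nat_lit 3, [nat_lit 45, nat_lit 5, nat_lit 5, nat_lit 20], true, nat_lit 240, nat_lit 280, nat_lit 0, nat_lit 336, ⟨nat_lit 0, nat_lit 1000, nat_lit 0, nat_lit 6, nat_lit 111, nat_lit 1000, nat_lit 192, nat_lit 0, nat_lit 0, nat_lit 0, nat_lit 0, nat_lit 0, nat_lit 49375971, nat_lit 5258004, nat_lit 12366025, nat_lit 3921924, false, false⟩,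
 nat_lit 0, nat_lit 9090, nat_lit 0, nat_lit 0, nat_lit 5170, nat_lit 0, nat_lit 0, nat_lit 0, nat_lit 0, nat_lit 0, nat_lit 0, nat_lit 0, nat_lit 0, nat_lit 24801616455963, nat_lit 0, nat_lit 400000, nat_lit 0, nat_lit 0, [(nat_lit 6, [(nat_lit 1, nat_lit 1000)])],
 ⟨p047_k59, nat_lit 0, nat_lit 0, nat_lit 123, nat_lit 0, nat_lit 19242, [nat_lit 2692266667, nat_lit 3030400001, nat_lit 3280799999], [], [nat_lit 15050797387, nat_lit 15409286707, nat_lit 14417972667, nat_lit 14763305987, nat_lit 17972349712, nat_lit 18291771267, nat_lit 17231814060, nat_lit 17540029177], nat_lit 1271250, nat_lit 1271250, nat_lit 230001, nat_lit 490000, nat_lit 1271250, nat_lit 1271250, [nat_lit 1100000, nat_lit 1442500, nat_lit 1271250], [nat_lit 9, nat_lit 40, nat_lit 40, nat_lit 80, nat_lit 2, nat_lit 226, nat_lit 20, nat_lit 7]⟩, C1.Rw.none,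
 ⟨nat_lit 5916, nat_lit 6021, ⟨.ofNat (nat_lit 224872), .ofNat (nat_lit 304325), .ofNat (nat_lit 246214), .ofNat (nat_lit 325667), .ofNat (nat_lit 228543), .ofNat (nat_lit 307076), .ofNat (nat_lit 249882), .ofNat (nat_lit 328416)⟩, ⟨.ofNat (nat_lit 430055), .ofNat (nat_lit 509508), .ofNat (nat_lit 451398), .ofNat (nat_lit 530850), .ofNat (nat_lit 429157), .ofNat (nat_lit 507691), .ofNat (nat_lit 450496), .ofNat (nat_lit 529030)⟩⟩, []⟩
noncomputable def b_V_600_600_10_52 : St := ⟨true, nat_lit 1, nat_lit 1, nat_lit 1, nat_lit 80, nat_lit 240, nat_lit 260, nat_lit 240, nat_lit 260, nat_lit 16, nat_lit 80, nat_lit 60, nat_lit 80, nat_lit 240, nat_lit 280, nat_lit 0, nat_lit 336, nat_lit 0, nat_lit 12, nat_lit 0, nat_lit 0, nat_lit 0, nat_lit 0⟩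
theorem d_V_600_600_10_52 (h : EB TB.env) : Dead b_V_600_600_10_52 := chkB_sound0 h (T :=
(.spl (nat_lit 0) (nat_lit 250)
(.ord (.spl (nat_lit 6) (nat_lit 4)
(.spl (nat_lit 1) (nat_lit 245)
(.leaf p047_l132)
(.ord (.trZ (nat_lit 0) (nat_lit 100) (nat_lit 100) (nat_lit 45) (nat_lit 20) (.trX (nat_lit 19) (nat_lit 100) (nat_lit 78) (nat_lit 82) (nat_lit 332) (.leaf p047_l133)))))
(.leaf p047_l134)))
(.trZ (nat_lit 0) (nat_lit 100) (nat_lit 99) (nat_lit 45) (nat_lit 20) (.spl (nat_lit 2) (nat_lit 40)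
(.trX (nat_lit 23) (nat_lit 100) (nat_lit 92) (nat_lit 61) (nat_lit 288) (.spl (nat_lit 6) (nat_lit 8)
(.spl (nat_lit 4) (nat_lit 260)
(.leaf p047_l135)
(.trX (nat_lit 23) (nat_lit 100) (nat_lit 99) (nat_lit 63) (nat_lit 268) (.spl (nat_lit 5) (nat_lit 160)
(.leaf p047_l136)
(.spl (nat_lit 5) (nat_lit 240)
(.spl (nat_lit 1) (nat_lit 250)
(.leaf p047_l137)
(.trZ (nat_lit 0) (nat_lit 100) (nat_lit 100) (nat_lit 50) (nat_lit 24) (.leaf p047_l138)))
(.trZ (nat_lit 11) (nat_lit 100) (nat_lit 97) (nat_lit 49) (nat_lit 24) (.leaf p047_l139))))))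
(.leaf p047_l140)))
(.spl (nat_lit 0) (nat_lit 255)
(.ord (.leaf p047_l141))
(.spl (nat_lit 6) (nat_lit 8)
(.spl (nat_lit 2) (nat_lit 60)
(.trX (nat_lit 23) (nat_lit 100) (nat_lit 85) (nat_lit 73) (nat_lit 312) (.spl (nat_lit 4) (nat_lit 260)
(.leaf p047_l142)
(.trX (nat_lit 23) (nat_lit 100) (nat_lit 92) (nat_lit 75) (nat_lit 296) (.spl (nat_lit 6) (nat_lit 4)
(.spl (nat_lit 1) (nat_lit 250)
(.leaf p047_l143)
(.spl (nat_lit 1) (nat_lit 255)
(.leaf p047_l144)
(.spl (nat_lit 2) (nat_lit 48)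
(.trX (nat_lit 23) (nat_lit 100) (nat_lit 96) (nat_lit 68) (nat_lit 280) (.leaf p047_l145))
(.leaf p047_l146))))
(.leaf p047_l147)))))
(.leaf p047_l148))
(.leaf p047_l149))))))) (by decide +kernel)

end B2
end Pool.Agent.Lib.MP_6947cd_al
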