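import Pool.Agent.Lib.MP_6947cd_al.ZB.Pre

/-!
Problem MP_6947cd_al (Chollet).  Case B, second entry in [2/5, 17/20]: certificates of the tree, part P048 (generated).
-/

set_option autoImplicit false
set_option linter.all false

namespace Pool.Agent.Lib.MP_6947cd_al
namespace B2

open Ent Fr B1 PkA

noncomputable def p048_k0 : C1.Kn := ⟨[nat_lit 40, nat_lit 80, nat_lit 100, nat_lit 120], [nat_lit 0, nat_lit 0, nat_lit 0, nat_lit 511], [(nat_lit 0, nat_lit 0, nat_lit 0), (nat_lit 0, nat_lit 0, nat_lit 0), (nat_lit 0, nat_lit 0, nat_lit 0), (nat_lit 1000, nat_lit 997, nat_lit 383)], (nat_lit 99, nat_lit 100, nat_lit 34)⟩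
noncomputable def p048_k1 : C1.Kn := ⟨[nat_lit 80, nat_lit 90, nat_lit 110, nat_lit 120], [nat_lit 0, nat_lit 0, nat_lit 257, nat_lit 511], [(nat_lit 0, nat_lit 0, nat_lit 0), (nat_lit 0, nat_lit 0, nat_lit 0), (nat_lit 1000, nat_lit 980, nat_lit 201), (nat_lit 1000, nat_lit 997, nat_lit 383)], (nat_lit 99, nat_lit 100, nat_lit 34)⟩
noncomputable def p048_k2 : C1.Kn := ⟨[nat_lit 80, nat_lit 100, nat_lit 120], [nat_lit 0, nat_lit 0, nat_lit 511], [(nat_lit 0, nat_lit 0, nat_lit 0), (nat_lit 0, nat_lit 0, nat_lit 0), (nat_lit 1000, nat_lit 997, nat_lit 383)], (nat_lit 99, nat_lit 100, nat_lit 34)⟩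
noncomputable def p048_k3 : C1.Kn := ⟨[nat_lit 80, nat_lit 90, nat_lit 110], [nat_lit 0, nat_lit 66, nat_lit 324], [(nat_lit 0, nat_lit 0, nat_lit 0), (nat_lit 1000, nat_lit 979, nat_lit 103), (nat_lit 1000, nat_lit 969, nat_lit 202)], (nat_lit 97, nat_lit 100, nat_lit 34)⟩
noncomputable def p048_k4 : C1.Kn := ⟨[nat_lit 80, nat_lit 100, nat_lit 120], [nat_lit 0, nat_lit 132, nat_lit 640], [(nat_lit 0, nat_lit 0, nat_lit 0), (nat_lit 1000, nat_lit 979, nat_lit 103), (nat_lit 1000, nat_lit 979, nat_lit 397)], (nat_lit 97, nat_lit 100, nat_lit 34)⟩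
noncomputable def p048_k5 : C1.Kn := ⟨[nat_lit 80, nat_lit 100, nat_lit 140], [nat_lit 0, nat_lit 0, nat_lit 1022], [(nat_lit 0, nat_lit 0, nat_lit 0), (nat_lit 0, nat_lit 0, nat_lit 0), (nat_lit 1000, nat_lit 1000, nat_lit 399)], (nat_lit 100, nat_lit 98, nat_lit 48)⟩
noncomputable def p048_k6 : C1.Kn := ⟨[nat_lit 80, nat_lit 100, nat_lit 140], [nat_lit 0, nat_lit 132, nat_lit 1148], [(nat_lit 0, nat_lit 0, nat_lit 0), (nat_lit 1000, nat_lit 979, nat_lit 103), (nat_lit 1000, nat_lit 979, nat_lit 397)], (nat_lit 100, nat_lit 100, nat_lit 49)⟩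
noncomputable def p048_k7 : C1.Kn := ⟨[nat_lit 70, nat_lit 90, nat_lit 100], [nat_lit 0, nat_lit 0, nat_lit 294], [(nat_lit 0, nat_lit 0, nat_lit 0), (nat_lit 0, nat_lit 0, nat_lit 0), (nat_lit 1000, nat_lit 954, nat_lit 287)], (nat_lit 95, nat_lit 100, nat_lit 28)⟩
noncomputable def p048_k8 : C1.Kn := ⟨[nat_lit 50, nat_lit 70, nat_lit 90, nat_lit 100], [nat_lit 0, nat_lit 0, nat_lit 0, nat_lit 294], [(nat_lit 0, nat_lit 0, nat_lit 0), (nat_lit 0, nat_lit 0, nat_lit 0), (nat_lit 0, nat_lit 0, nat_lit 0), (nat_lit 1000, nat_lit 954, nat_lit 287)], (nat_lit 95, nat_lit 100, nat_lit 28)⟩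
noncomputable def p048_k9 : C1.Kn := ⟨[nat_lit 40, nat_lit 70, nat_lit 90, nat_lit 120], [nat_lit 0, nat_lit 0, nat_lit 0, nat_lit 774], [(nat_lit 0, nat_lit 0, nat_lit 0), (nat_lit 0, nat_lit 0, nat_lit 0), (nat_lit 0, nat_lit 0, nat_lit 0), (nat_lit 1000, nat_lit 959, nat_lit 402)], (nat_lit 96, nat_lit 100, nat_lit 44)⟩
noncomputable def p048_k10 : C1.Kn := ⟨[nat_lit 40, nat_lit 80, nat_lit 100, nat_lit 120], [nat_lit 0, nat_lit 0, nat_lit 265, nat_lit 768], [(nat_lit 0, nat_lit 0, nat_lit 0), (nat_lit 0, nat_lit 0, nat_lit 0), (nat_lit 1000, nat_lit 959, nat_lit 206), (nat_lit 1000, nat_lit 958, nat_lit 392)], (nat_lit 96, nat_lit 100, nat_lit 44)⟩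
noncomputable def p048_k11 : C1.Kn := ⟨[nat_lit 70, nat_lit 80, nat_lit 100, nat_lit 120], [nat_lit 0, nat_lit 0, nat_lit 265, nat_lit 768], [(nat_lit 0, nat_lit 0, nat_lit 0), (nat_lit 0, nat_lit 0, nat_lit 0), (nat_lit 1000, nat_lit 959, nat_lit 206), (nat_lit 1000, nat_lit 958, nat_lit 392)], (nat_lit 96, nat_lit 100, nat_lit 44)⟩
noncomputable def p048_k12 : C1.Kn := ⟨[nat_lit 70, nat_lit 80, nat_lit 100], [nat_lit 0, nat_lit 0, nat_lit 265], [(nat_lit 0, nat_lit 0, nat_lit 0), (nat_lit 0, nat_lit 0, nat_lit 0), (nat_lit 1000, nat_lit 959, nat_lit 206)], (nat_lit 95, nat_lit 100, nat_lit 28)⟩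
noncomputable def p048_k13 : C1.Kn := ⟨[nat_lit 70, nat_lit 90, nat_lit 120], [nat_lit 0, nat_lit 0, nat_lit 774], [(nat_lit 0, nat_lit 0, nat_lit 0), (nat_lit 0, nat_lit 0, nat_lit 0), (nat_lit 1000, nat_lit 959, nat_lit 402)], (nat_lit 96, nat_lit 100, nat_lit 44)⟩
noncomputable def p048_k14 : C1.Kn := ⟨[nat_lit 40, nat_lit 70, nat_lit 90, nat_lit 100], [nat_lit 0, nat_lit 0, nat_lit 0, nat_lit 294], [(nat_lit 0, nat_lit 0, nat_lit 0), (nat_lit 0, nat_lit 0, nat_lit 0), (nat_lit 0, nat_lit 0, nat_lit 0), (nat_lit 1000, nat_lit 954, nat_lit 287)], (nat_lit 95, nat_lit 100, nat_lit 28)⟩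
noncomputable def p048_k15 : C1.Kn := ⟨[nat_lit 80, nat_lit 100], [nat_lit 0, nat_lit 265], [(nat_lit 0, nat_lit 0, nat_lit 0), (nat_lit 1000, nat_lit 959, nat_lit 206)], (nat_lit 95, nat_lit 100, nat_lit 28)⟩
noncomputable def p048_k16 : C1.Kn := ⟨[nat_lit 80, nat_lit 100, nat_lit 120], [nat_lit 0, nat_lit 198, nat_lit 704], [(nat_lit 0, nat_lit 0, nat_lit 0), (nat_lit 1000, nat_lit 969, nat_lit 154), (nat_lit 1000, nat_lit 969, nat_lit 395)], (nat_lit 96, nat_lit 100, nat_lit 28)⟩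
noncomputable def p048_k17 : C1.Kn := ⟨[nat_lit 80, nat_lit 120], [nat_lit 0, nat_lit 395], [(nat_lit 0, nat_lit 0, nat_lit 0), (nat_lit 1000, nat_lit 969, nat_lit 154)], (nat_lit 96, nat_lit 100, nat_lit 28)⟩
noncomputable def p048_k18 : C1.Kn := ⟨[nat_lit 40, nat_lit 70, nat_lit 90], [nat_lit 0, nat_lit 0, nat_lit 69], [(nat_lit 0, nat_lit 0, nat_lit 0), (nat_lit 0, nat_lit 0, nat_lit 0), (nat_lit 1000, nat_lit 984, nat_lit 54)], (nat_lit 95, nat_lit 100, nat_lit 20)⟩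
noncomputable def p048_k19 : C1.Kn := ⟨[nat_lit 40, nat_lit 70, nat_lit 90, nat_lit 100], [nat_lit 0, nat_lit 0, nat_lit 69, nat_lit 347], [(nat_lit 0, nat_lit 0, nat_lit 0), (nat_lit 0, nat_lit 0, nat_lit 0), (nat_lit 1000, nat_lit 984, nat_lit 54), (nat_lit 1000, nat_lit 946, nat_lit 315)], (nat_lit 95, nat_lit 100, nat_lit 28)⟩
noncomputable def p048_k20 : C1.Kn := ⟨[nat_lit 40, nat_lit 70, nat_lit 90, nat_lit 110], [nat_lit 0, nat_lit 0, nat_lit 0, nat_lit 517], [(nat_lit 0, nat_lit 0, nat_lit 0), (nat_lit 0, nat_lit 0, nat_lit 0), (nat_lit 0, nat_lit 0, nat_lit 0), (nat_lit 1000, nat_lit 958, nat_lit 386)], (nat_lit 96, nat_lit 100, nat_lit 39)⟩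
noncomputable def p048_k21 : C1.Kn := ⟨[nat_lit 40, nat_lit 80, nat_lit 100, nat_lit 120], [nat_lit 0, nat_lit 0, nat_lit 132, nat_lit 640], [(nat_lit 0, nat_lit 0, nat_lit 0), (nat_lit 0, nat_lit 0, nat_lit 0), (nat_lit 1000, nat_lit 979, nat_lit 103), (nat_lit 1000, nat_lit 979, nat_lit 397)], (nat_lit 98, nat_lit 100, nat_lit 40)⟩
noncomputable def p048_k22 : C1.Kn := ⟨[nat_lit 80, nat_lit 100, nat_lit 110], [nat_lit 0, nat_lit 132, nat_lit 394], [(nat_lit 0, nat_lit 0, nat_lit 0), (nat_lit 1000, nat_lit 979, nat_lit 103), (nat_lit 1000, nat_lit 972, nat_lit 338)], (nat_lit 97, nat_lit 100, nat_lit 28)⟩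
noncomputable def p048_k23 : C1.Kn := ⟨[nat_lit 40, nat_lit 80, nat_lit 100], [nat_lit 0, nat_lit 0, nat_lit 265], [(nat_lit 0, nat_lit 0, nat_lit 0), (nat_lit 0, nat_lit 0, nat_lit 0), (nat_lit 1000, nat_lit 959, nat_lit 206)], (nat_lit 95, nat_lit 100, nat_lit 28)⟩
noncomputable def p048_k24 : C1.Kn := ⟨[nat_lit 40, nat_lit 80, nat_lit 100, nat_lit 120], [nat_lit 0, nat_lit 0, nat_lit 132, nat_lit 640], [(nat_lit 0, nat_lit 0, nat_lit 0), (nat_lit 0, nat_lit 0, nat_lit 0), (nat_lit 1000, nat_lit 979, nat_lit 103), (nat_lit 1000, nat_lit 979, nat_lit 397)], (nat_lit 97, nat_lit 100, nat_lit 28)⟩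
noncomputable def p048_k25 : C1.Kn := ⟨[nat_lit 40, nat_lit 80, nat_lit 100, nat_lit 120], [nat_lit 0, nat_lit 0, nat_lit 132, nat_lit 640], [(nat_lit 0, nat_lit 0, nat_lit 0), (nat_lit 0, nat_lit 0, nat_lit 0), (nat_lit 1000, nat_lit 979, nat_lit 103), (nat_lit 1000, nat_lit 979, nat_lit 397)], (nat_lit 99, nat_lit 100, nat_lit 44)⟩
noncomputable def p048_k26 : C1.Kn := ⟨[nat_lit 80, nat_lit 100, nat_lit 120], [nat_lit 0, nat_lit 265, nat_lit 768], [(nat_lit 0, nat_lit 0, nat_lit 0), (nat_lit 1000, nat_lit 959, nat_lit 206), (nat_lit 1000, nat_lit 958, nat_lit 392)], (nat_lit 96, nat_lit 100, nat_lit 44)⟩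
noncomputable def p048_k27 : C1.Kn := ⟨[nat_lit 80, nat_lit 100, nat_lit 120], [nat_lit 0, nat_lit 198, nat_lit 704], [(nat_lit 0, nat_lit 0, nat_lit 0), (nat_lit 1000, nat_lit 969, nat_lit 154), (nat_lit 1000, nat_lit 969, nat_lit 395)], (nat_lit 98, nat_lit 100, nat_lit 44)⟩
noncomputable def p048_k28 : C1.Kn := ⟨[nat_lit 40, nat_lit 80, nat_lit 100, nat_lit 120], [nat_lit 0, nat_lit 0, nat_lit 198, nat_lit 704], [(nat_lit 0, nat_lit 0, nat_lit 0), (nat_lit 0, nat_lit 0, nat_lit 0), (nat_lit 1000, nat_lit 969, nat_lit 154), (nat_lit 1000, nat_lit 969, nat_lit 395)], (nat_lit 98, nat_lit 100, nat_lit 44)⟩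
noncomputable def p048_k29 : C1.Kn := ⟨[nat_lit 80, nat_lit 100, nat_lit 120], [nat_lit 0, nat_lit 132, nat_lit 640], [(nat_lit 0, nat_lit 0, nat_lit 0), (nat_lit 1000, nat_lit 979, nat_lit 103), (nat_lit 1000, nat_lit 979, nat_lit 397)], (nat_lit 99, nat_lit 100, nat_lit 44)⟩
noncomputable def p048_k30 : C1.Kn := ⟨[nat_lit 80, nat_lit 120], [nat_lit 0, nat_lit 528], [(nat_lit 0, nat_lit 0, nat_lit 0), (nat_lit 1000, nat_lit 959, nat_lit 206)], (nat_lit 96, nat_lit 100, nat_lit 44)⟩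
noncomputable def p048_k31 : C1.Kn := ⟨[nat_lit 80, nat_lit 140], [nat_lit 0, nat_lit 0], [(nat_lit 0, nat_lit 0, nat_lit 0), (nat_lit 0, nat_lit 0, nat_lit 0)], (nat_lit 100, nat_lit 99, nat_lit 44)⟩
noncomputable def p048_k32 : C1.Kn := ⟨[nat_lit 80, nat_lit 100, nat_lit 140], [nat_lit 0, nat_lit 0, nat_lit 1022], [(nat_lit 0, nat_lit 0, nat_lit 0), (nat_lit 0, nat_lit 0, nat_lit 0), (nat_lit 1000, nat_lit 1000, nat_lit 399)], (nat_lit 100, nat_lit 99, nat_lit 44)⟩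
noncomputable def p048_k33 : C1.Kn := ⟨[nat_lit 80, nat_lit 100], [nat_lit 0, nat_lit 399], [(nat_lit 0, nat_lit 0, nat_lit 0), (nat_lit 1000, nat_lit 938, nat_lit 310)], (nat_lit 94, nat_lit 100, nat_lit 28)⟩
noncomputable def p048_k34 : C1.Kn := ⟨[nat_lit 80, nat_lit 100], [nat_lit 0, nat_lit 399], [(nat_lit 0, nat_lit 0, nat_lit 0), (nat_lit 1000, nat_lit 938, nat_lit 310)], (nat_lit 95, nat_lit 100, nat_lit 20)⟩
noncomputable def p048_k35 : C1.Kn := ⟨[nat_lit 80, nat_lit 100], [nat_lit 0, nat_lit 65], [(nat_lit 0, nat_lit 0, nat_lit 0), (nat_lit 1000, nat_lit 990, nat_lit 51)], (nat_lit 97, nat_lit 100, nat_lit 20)⟩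
noncomputable def p048_k36 : C1.Kn := ⟨[nat_lit 80, nat_lit 100, nat_lit 120], [nat_lit 0, nat_lit 119, nat_lit 627], [(nat_lit 0, nat_lit 0, nat_lit 0), (nat_lit 1000, nat_lit 981, nat_lit 93), (nat_lit 1000, nat_lit 981, nat_lit 396)], (nat_lit 97, nat_lit 100, nat_lit 28)⟩
noncomputable def p048_k37 : C1.Kn := ⟨[nat_lit 80, nat_lit 100], [nat_lit 0, nat_lit 412], [(nat_lit 0, nat_lit 0, nat_lit 0), (nat_lit 1000, nat_lit 936, nat_lit 318)], (nat_lit 94, nat_lit 100, nat_lit 28)⟩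
noncomputable def p048_k38 : C1.Kn := ⟨[nat_lit 80, nat_lit 100], [nat_lit 0, nat_lit 426], [(nat_lit 0, nat_lit 0, nat_lit 0), (nat_lit 1000, nat_lit 933, nat_lit 332)], (nat_lit 94, nat_lit 100, nat_lit 28)⟩
noncomputable def p048_k39 : C1.Kn := ⟨[nat_lit 80, nat_lit 100], [nat_lit 0, nat_lit 439], [(nat_lit 0, nat_lit 0, nat_lit 0), (nat_lit 1000, nat_lit 931, nat_lit 340)], (nat_lit 93, nat_lit 100, nat_lit 28)⟩
noncomputable def p048_k40 : C1.Kn := ⟨[nat_lit 80, nat_lit 100], [nat_lit 0, nat_lit 466], [(nat_lit 0, nat_lit 0, nat_lit 0), (nat_lit 1000, nat_lit 927, nat_lit 359)], (nat_lit 93, nat_lit 100, nat_lit 28)⟩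
noncomputable def p048_k41 : C1.Kn := ⟨[nat_lit 80, nat_lit 100, nat_lit 120], [nat_lit 0, nat_lit 399, nat_lit 897], [(nat_lit 0, nat_lit 0, nat_lit 0), (nat_lit 1000, nat_lit 938, nat_lit 310), (nat_lit 1000, nat_lit 938, nat_lit 389)], (nat_lit 94, nat_lit 100, nat_lit 44)⟩
noncomputable def p048_k42 : C1.Kn := ⟨[nat_lit 80, nat_lit 100], [nat_lit 0, nat_lit 466], [(nat_lit 0, nat_lit 0, nat_lit 0), (nat_lit 1000, nat_lit 927, nat_lit 359)], (nat_lit 94, nat_lit 100, nat_lit 20)⟩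
noncomputable def p048_k43 : C1.Kn := ⟨[nat_lit 40, nat_lit 70, nat_lit 90, nat_lit 100], [nat_lit 0, nat_lit 0, nat_lit 139, nat_lit 404], [(nat_lit 0, nat_lit 0, nat_lit 0), (nat_lit 0, nat_lit 0, nat_lit 0), (nat_lit 1000, nat_lit 967, nat_lit 109), (nat_lit 1000, nat_lit 937, nat_lit 335)], (nat_lit 94, nat_lit 100, nat_lit 28)⟩
noncomputable def p048_k44 : C1.Kn := ⟨[nat_lit 40, nat_lit 70, nat_lit 90, nat_lit 100], [nat_lit 0, nat_lit 0, nat_lit 180, nat_lit 441], [(nat_lit 0, nat_lit 0, nat_lit 0), (nat_lit 0, nat_lit 0, nat_lit 0), (nat_lit 1000, nat_lit 958, nat_lit 140), (nat_lit 1000, nat_lit 931, nat_lit 356)], (nat_lit 93, nat_lit 100, nat_lit 28)⟩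
noncomputable def p048_k45 : C1.Kn := ⟨[nat_lit 70, nat_lit 90, nat_lit 100], [nat_lit 0, nat_lit 139, nat_lit 404], [(nat_lit 0, nat_lit 0, nat_lit 0), (nat_lit 1000, nat_lit 967, nat_lit 109), (nat_lit 1000, nat_lit 937, nat_lit 335)], (nat_lit 94, nat_lit 100, nat_lit 28)⟩
noncomputable def p048_k46 : C1.Kn := ⟨[nat_lit 40, nat_lit 70, nat_lit 90], [nat_lit 0, nat_lit 0, nat_lit 208], [(nat_lit 0, nat_lit 0, nat_lit 0), (nat_lit 0, nat_lit 0, nat_lit 0), (nat_lit 1000, nat_lit 951, nat_lit 162)], (nat_lit 93, nat_lit 100, nat_lit 28)⟩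
noncomputable def p048_k47 : C1.Kn := ⟨[nat_lit 40, nat_lit 70, nat_lit 90, nat_lit 110], [nat_lit 0, nat_lit 0, nat_lit 139, nat_lit 651], [(nat_lit 0, nat_lit 0, nat_lit 0), (nat_lit 0, nat_lit 0, nat_lit 0), (nat_lit 1000, nat_lit 967, nat_lit 109), (nat_lit 1000, nat_lit 938, nat_lit 398)], (nat_lit 94, nat_lit 100, nat_lit 44)⟩
noncomputable def p048_k48 : C1.Kn := ⟨[nat_lit 40, nat_lit 70, nat_lit 90], [nat_lit 0, nat_lit 0, nat_lit 0], [(nat_lit 0, nat_lit 0, nat_lit 0), (nat_lit 0, nat_lit 0, nat_lit 0), (nat_lit 0, nat_lit 0, nat_lit 0)], (nat_lit 96, nat_lit 100, nat_lit 20)⟩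
noncomputable def p048_k49 : C1.Kn := ⟨[nat_lit 80, nat_lit 100], [nat_lit 0, nat_lit 198], [(nat_lit 0, nat_lit 0, nat_lit 0), (nat_lit 1000, nat_lit 969, nat_lit 154)], (nat_lit 96, nat_lit 100, nat_lit 20)⟩
noncomputable def p048_k50 : C1.Kn := ⟨[nat_lit 40, nat_lit 70, nat_lit 90], [nat_lit 0, nat_lit 0, nat_lit 139], [(nat_lit 0, nat_lit 0, nat_lit 0), (nat_lit 0, nat_lit 0, nat_lit 0), (nat_lit 1000, nat_lit 967, nat_lit 109)], (nat_lit 95, nat_lit 100, nat_lit 20)⟩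
noncomputable def p048_k51 : C1.Kn := ⟨[nat_lit 40, nat_lit 70, nat_lit 90, nat_lit 100], [nat_lit 0, nat_lit 0, nat_lit 41, nat_lit 325], [(nat_lit 0, nat_lit 0, nat_lit 0), (nat_lit 0, nat_lit 0, nat_lit 0), (nat_lit 1000, nat_lit 990, nat_lit 32), (nat_lit 1000, nat_lit 949, nat_lit 300)], (nat_lit 95, nat_lit 100, nat_lit 28)⟩
noncomputable def p048_k52 : C1.Kn := ⟨[nat_lit 80, nat_lit 100], [nat_lit 0, nat_lit 265], [(nat_lit 0, nat_lit 0, nat_lit 0), (nat_lit 1000, nat_lit 959, nat_lit 206)], (nat_lit 96, nat_lit 100, nat_lit 20)⟩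
noncomputable def p048_k53 : C1.Kn := ⟨[nat_lit 80, nat_lit 100], [nat_lit 0, nat_lit 0], [(nat_lit 0, nat_lit 0, nat_lit 0), (nat_lit 0, nat_lit 0, nat_lit 0)], (nat_lit 98, nat_lit 100, nat_lit 20)⟩
noncomputable def p048_k54 : C1.Kn := ⟨[nat_lit 80, nat_lit 120], [nat_lit 0, nat_lit 0], [(nat_lit 0, nat_lit 0, nat_lit 0), (nat_lit 0, nat_lit 0, nat_lit 0)], (nat_lit 98, nat_lit 100, nat_lit 28)⟩
noncomputable def p048_k55 : C1.Kn := ⟨[nat_lit 80, nat_lit 100, nat_lit 110], [nat_lit 0, nat_lit 0, nat_lit 288], [(nat_lit 0, nat_lit 0, nat_lit 0), (nat_lit 0, nat_lit 0, nat_lit 0), (nat_lit 1000, nat_lit 983, nat_lit 284)], (nat_lit 98, nat_lit 100, nat_lit 28)⟩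
noncomputable def p048_k56 : C1.Kn := ⟨[nat_lit 80, nat_lit 100, nat_lit 120], [nat_lit 0, nat_lit 0, nat_lit 511], [(nat_lit 0, nat_lit 0, nat_lit 0), (nat_lit 0, nat_lit 0, nat_lit 0), (nat_lit 1000, nat_lit 997, nat_lit 383)], (nat_lit 98, nat_lit 100, nat_lit 28)⟩
noncomputable def p048_k57 : C1.Kn := ⟨[nat_lit 80, nat_lit 100, nat_lit 120], [nat_lit 0, nat_lit 399, nat_lit 897], [(nat_lit 0, nat_lit 0, nat_lit 0), (nat_lit 1000, nat_lit 938, nat_lit 310), (nat_lit 1000, nat_lit 938, nat_lit 389)], (nat_lit 94, nat_lit 100, nat_lit 39)⟩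
noncomputable def p048_k58 : C1.Kn := ⟨[nat_lit 80, nat_lit 100, nat_lit 120], [nat_lit 0, nat_lit 0, nat_lit 511], [(nat_lit 0, nat_lit 0, nat_lit 0), (nat_lit 0, nat_lit 0, nat_lit 0), (nat_lit 1000, nat_lit 997, nat_lit 383)], (nat_lit 100, nat_lit 100, nat_lit 40)⟩
noncomputable def p048_k59 : C1.Kn := ⟨[nat_lit 80, nat_lit 120, nat_lit 140], [nat_lit 0, nat_lit 0, nat_lit 1164], [(nat_lit 0, nat_lit 0, nat_lit 0), (nat_lit 0, nat_lit 0, nat_lit 0), (nat_lit 941, nat_lit 1000, nat_lit 576)], (nat_lit 100, nat_lit 99, nat_lit 44)⟩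
noncomputable def p048_k60 : C1.Kn := ⟨[nat_lit 80, nat_lit 120, nat_lit 140], [nat_lit 0, nat_lit 130, nat_lit 1260], [(nat_lit 0, nat_lit 0, nat_lit 0), (nat_lit 1000, nat_lit 990, nat_lit 51), (nat_lit 946, nat_lit 1000, nat_lit 600)], (nat_lit 100, nat_lit 100, nat_lit 45)⟩
noncomputable def p048_k61 : C1.Kn := ⟨[nat_lit 80, nat_lit 120, nat_lit 140], [nat_lit 0, nat_lit 212, nat_lit 1320], [(nat_lit 0, nat_lit 0, nat_lit 0), (nat_lit 1000, nat_lit 983, nat_lit 83), (nat_lit 946, nat_lit 1000, nat_lit 623)], (nat_lit 99, nat_lit 100, nat_lit 45)⟩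
noncomputable def p048_k62 : C1.Kn := ⟨[nat_lit 80, nat_lit 100, nat_lit 140], [nat_lit 0, nat_lit 65, nat_lit 1086], [(nat_lit 0, nat_lit 0, nat_lit 0), (nat_lit 1000, nat_lit 990, nat_lit 51), (nat_lit 1000, nat_lit 990, nat_lit 399)], (nat_lit 100, nat_lit 100, nat_lit 45)⟩
noncomputable def p048_k63 : C1.Kn := ⟨[nat_lit 80, nat_lit 120], [nat_lit 0, nat_lit 264], [(nat_lit 0, nat_lit 0, nat_lit 0), (nat_lit 1000, nat_lit 979, nat_lit 103)], (nat_lit 99, nat_lit 100, nat_lit 44)⟩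
noncomputable def p048_k64 : C1.Kn := ⟨[nat_lit 70, nat_lit 90, nat_lit 120], [nat_lit 0, nat_lit 69, nat_lit 840], [(nat_lit 0, nat_lit 0, nat_lit 0), (nat_lit 1000, nat_lit 984, nat_lit 54), (nat_lit 1000, nat_lit 949, nat_lit 400)], (nat_lit 95, nat_lit 100, nat_lit 44)⟩
noncomputable def p048_k65 : C1.Kn := ⟨[nat_lit 80, nat_lit 100, nat_lit 120], [nat_lit 0, nat_lit 466, nat_lit 966], [(nat_lit 0, nat_lit 0, nat_lit 0), (nat_lit 1000, nat_lit 927, nat_lit 359), (nat_lit 1000, nat_lit 927, nat_lit 391)], (nat_lit 93, nat_lit 100, nat_lit 44)⟩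
noncomputable def p048_l0 : Lf2 := ⟨nat_lit 0, nat_lit 3, [nat_lit 45, nat_lit 5, nat_lit 5, nat_lit 20], true, nat_lit 280, nat_lit 320, nat_lit 0, nat_lit 300, ⟨nat_lit 0, nat_lit 1000, nat_lit 0, nat_lit 6, nat_lit 99, nat_lit 1000, nat_lit 225, nat_lit 0, nat_lit 0, nat_lit 0, nat_lit 0, nat_lit 0, nat_lit 46990943, nat_lit 4359477, nat_lit 15649580, nat_lit 4062230, false, false⟩,
 nat_lit 0, nat_lit 0, nat_lit 0, nat_lit 1979, nat_lit 0, nat_lit 0, nat_lit 0, nat_lit 0, nat_lit 362, nat_lit 0, nat_lit 0, nat_lit 0, nat_lit 0, nat_lit 9224146385815, nat_lit 0, nat_lit 250000, nat_lit 0, nat_lit 0, [(nat_lit 6, [(nat_lit 0, nat_lit 1000)])],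
 ⟨p048_k0, nat_lit 0, nat_lit 0, nat_lit 0, nat_lit 0, nat_lit 120540, [nat_lit 1564000000, nat_lit 2639600001, nat_lit 3087600001, nat_lit 3486799999], [], [nat_lit 14133883200, nat_lit 14854484400, nat_lit 15288688000, nat_lit 15963130000, nat_lit 15709008800, nat_lit 16389174400, nat_lit 16786236000, nat_lit 17447660000], nat_lit 1271250, nat_lit 1271250, nat_lit 88400, nat_lit 490000, nat_lit 1271250, nat_lit 1271250, [nat_lit 490000, nat_lit 1100000, nat_lit 1442500, nat_lit 1271250], [nat_lit 98, nat_lit 40, nat_lit 20, nat_lit 40]⟩, C1.Rw.none,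
 ⟨nat_lit 5916, nat_lit 6325, ⟨.ofNat (nat_lit 164319), .ofNat (nat_lit 295942), .ofNat (nat_lit 185687), .ofNat (nat_lit 317309), .ofNat (nat_lit 181423), .ofNat (nat_lit 307076), .ofNat (nat_lit 202762), .ofNat (nat_lit 328416)⟩, ⟨.ofNat (nat_lit 514952), .ofNat (nat_lit 597195), .ofNat (nat_lit 536315), .ofNat (nat_lit 618556), .ofNat (nat_lit 507691), .ofNat (nat_lit 586203), .ofNat (nat_lit 529025), .ofNat (nat_lit 607536)⟩⟩, [⟨nat_lit 0, nat_lit 100, nat_lit 100, nat_lit 60, nat_lit 8270570⟩]⟩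
noncomputable def p048_l1 : Lf2 := ⟨nat_lit 0, nat_lit 3, [nat_lit 45, nat_lit 5, nat_lit 5, nat_lit 20], false, nat_lit 280, nat_lit 320, nat_lit 0, nat_lit 160, ⟨nat_lit 1000, nat_lit 0, nat_lit 0, nat_lit 0, nat_lit 0, nat_lit 0, nat_lit 0, nat_lit 0, nat_lit 0, nat_lit 0, nat_lit 0, nat_lit 0, nat_lit 0, nat_lit 0, nat_lit 0, nat_lit 0, false, false⟩,
 nat_lit 16138, nat_lit 0, nat_lit 0, nat_lit 15865, nat_lit 7864, nat_lit 8543, nat_lit 2537, nat_lit 0, nat_lit 0, nat_lit 3667, nat_lit 0, nat_lit 0, nat_lit 0, nat_lit 5811936837211, nat_lit 0, nat_lit 0, nat_lit 0, nat_lit 0, [],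
 ⟨p048_k1, nat_lit 0, nat_lit 0, nat_lit 0, nat_lit 0, nat_lit 120540, [nat_lit 4688000000, nat_lit 5449500000, nat_lit 7089500001, nat_lit 7968000000], [], [nat_lit 21498820439, nat_lit 22915359281, nat_lit 18535063364, nat_lit 19649130244, nat_lit 25199342219, nat_lit 26615170839, nat_lit 21690688932, nat_lit 22852442820], nat_lit 1271250, nat_lit 1271250, nat_lit 88400, nat_lit 490000, nat_lit 1271250, nat_lit 1271250, [nat_lit 1100000, nat_lit 1271250, nat_lit 1271250, nat_lit 1271250], [nat_lit 129, nat_lit 40, nat_lit 20, nat_lit 40]⟩, ⟨p048_k1, nat_lit 0, nat_lit 0, nat_lit 0, nat_lit 0, nat_lit 120540, [nat_lit 4688000000, nat_lit 5449500000, nat_lit 7089500000, nat_lit 7968000000], [], [nat_lit 19664147224, nat_lit 21455851783, nat_lit 16751386502, nat_lit 18143639476, nat_lit 15561117050, nat_lit 16768635969, nat_lit 17698283405, nat_lit 14175973028], nat_lit 1271250, nat_lit 1271250, nat_lit 88400, nat_lit 490000,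 nat_lit 0, nat_lit 1100001, [nat_lit 1100000, nat_lit 1271250, nat_lit 1271250, nat_lit 1271250], [nat_lit 129, nat_lit 40, nat_lit 20, nat_lit 40]⟩,
 zbF0, [⟨nat_lit 0, nat_lit 100, nat_lit 100, nat_lit 60, nat_lit 902141737⟩, ⟨nat_lit 16, nat_lit 100, nat_lit 85, nat_lit 78, nat_lit 918401469⟩]⟩
noncomputable def p048_l2 : Lf2 := ⟨nat_lit 0, nat_lit 3, [nat_lit 45, nat_lit 5, nat_lit 5, nat_lit 20], false, nat_lit 280, nat_lit 320, nat_lit 160, nat_lit 240, ⟨nat_lit 1000, nat_lit 0, nat_lit 0, nat_lit 0, nat_lit 0, nat_lit 0, nat_lit 0, nat_lit 0, nat_lit 0, nat_lit 0, nat_lit 0, nat_lit 0, nat_lit 0, nat_lit 0, nat_lit 0, nat_lit 0, false, false⟩,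
 nat_lit 23054, nat_lit 0, nat_lit 0, nat_lit 0, nat_lit 7981, nat_lit 12204, nat_lit 3601, nat_lit 0, nat_lit 0, nat_lit 1362, nat_lit 0, nat_lit 0, nat_lit 0, nat_lit 0, nat_lit 0, nat_lit 0, nat_lit 0, nat_lit 0, [],
 ⟨p048_k1, nat_lit 0, nat_lit 0, nat_lit 0, nat_lit 0, nat_lit 120540, [nat_lit 4688000000, nat_lit 5449500000, nat_lit 7089500001, nat_lit 7968000000], [], [nat_lit 20604799499, nat_lit 22033294026, nat_lit 17465620128, nat_lit 18588043148, nat_lit 25123830567, nat_lit 26767312444, nat_lit 20763963700, nat_lit 22162483636], nat_lit 1271250, nat_lit 1271250, nat_lit 88400, nat_lit 490000, nat_lit 1271250, nat_lit 1271250, [nat_lit 1100000, nat_lit 1271250, nat_lit 1271250, nat_lit 1271250], [nat_lit 129, nat_lit 40, nat_lit 20, nat_lit 40]⟩, ⟨p048_k1, nat_lit 0, nat_lit 0, nat_lit 0, nat_lit 0, nat_lit 120540, [nat_lit 4688000000, nat_lit 5449500000, nat_lit 7089500000, nat_lit 7968000000], [], [nat_lit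 12994608618, nat_lit 15485177159, nat_lit 7605938698, nat_lit 9959258234, nat_lit 18195024330, nat_lit 20204963855, nat_lit 15260245424, nat_lit 14501010178], nat_lit 1271250, nat_lit 1271250, nat_lit 88400, nat_lit 490000, nat_lit 1100001, nat_lit 1785000, [nat_lit 1100000, nat_lit 1271250, nat_lit 1271250, nat_lit 1271250], [nat_lit 129, nat_lit 40, nat_lit 20, nat_lit 40]⟩,
 zbF0, [⟨nat_lit 0, nat_lit 100, nat_lit 100, nat_lit 60, nat_lit 405893765⟩, ⟨nat_lit 4, nat_lit 85, nat_lit 100, nat_lit 78, nat_lit 347177799⟩, ⟨nat_lit 11, nat_lit 100, nat_lit 87, nat_lit 50, nat_lit 1149418373⟩]⟩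
noncomputable def p048_l3 : Lf2 := ⟨nat_lit 0, nat_lit 3, [nat_lit 45, nat_lit 5, nat_lit 5, nat_lit 20], false, nat_lit 280, nat_lit 320, nat_lit 240, nat_lit 300, ⟨nat_lit 1000, nat_lit 0, nat_lit 0, nat_lit 0, nat_lit 0, nat_lit 0, nat_lit 0, nat_lit 0, nat_lit 0, nat_lit 0, nat_lit 0, nat_lit 0, nat_lit 0, nat_lit 0, nat_lit 0, nat_lit 0, false, false⟩,
 nat_lit 21540, nat_lit 0, nat_lit 0, nat_lit 0, nat_lit 9430, nat_lit 11403, nat_lit 2401, nat_lit 0, nat_lit 0, nat_lit 2214, nat_lit 0, nat_lit 0, nat_lit 0, nat_lit 0, nat_lit 0, nat_lit 0, nat_lit 0, nat_lit 0, [],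
 ⟨p048_k0, nat_lit 0, nat_lit 0, nat_lit 0, nat_lit 0, nat_lit 120540, [nat_lit 2032000001, nat_lit 4688000000, nat_lit 6250000000, nat_lit 7968000000], [], [nat_lit 19424053574, nat_lit 20895160461, nat_lit 17052289845, nat_lit 18540536140, nat_lit 24403846512, nat_lit 26215656712, nat_lit 21262883320, nat_lit 23018489080], nat_lit 1271250, nat_lit 1271250, nat_lit 205650, nat_lit 490000, nat_lit 1271250, nat_lit 1271250, [nat_lit 490000, nat_lit 1100000, nat_lit 1442500, nat_lit 1271250], [nat_lit 98, nat_lit 40, nat_lit 20, nat_lit 40]⟩, ⟨p048_k0, nat_lit 0, nat_lit 0, nat_lit 0, nat_lit 0, nat_lit 120540, [nat_lit 2032000000, nat_lit 4688000000, nat_lit 6250000000, nat_lit 7968000000], [], [nat_lit 14942117045, nat_lit 16842333068, nat_lit 12074618530, nat_lit 13891504696, nat_lit 22911577607, nat_lit 25156533760, nat_lit 19076748472, nat_lit 21246514317], nat_lit 1271250, nat_lit 1271250, nat_lit 205650, nat_lit 490000,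 nat_lit 1271250, nat_lit 1271250, [nat_lit 490000, nat_lit 1100000, nat_lit 1442500, nat_lit 1271250], [nat_lit 98, nat_lit 40, nat_lit 20, nat_lit 40]⟩,
 zbF0, [⟨nat_lit 11, nat_lit 100, nat_lit 97, nat_lit 75, nat_lit 1281254334⟩]⟩
noncomputable def p048_l4 : Lf2 := ⟨nat_lit 0, nat_lit 3, [nat_lit 45, nat_lit 5, nat_lit 5, nat_lit 20], false, nat_lit 280, nat_lit 320, nat_lit 0, nat_lit 300, ⟨nat_lit 0, nat_lit 1000, nat_lit 0, nat_lit 6, nat_lit 96, nat_lit 1000, nat_lit 226, nat_lit 0, nat_lit 0, nat_lit 0, nat_lit 0, nat_lit 0, nat_lit 47101655, nat_lit 4128599, nat_lit 15769746, nat_lit 4023836, false, false⟩,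
 nat_lit 100000, nat_lit 78230, nat_lit 100000, nat_lit 100000, nat_lit 5207, nat_lit 100000, nat_lit 1937, nat_lit 0, nat_lit 0, nat_lit 18084, nat_lit 7152, nat_lit 0, nat_lit 0, nat_lit 0, nat_lit 0, nat_lit 400000, nat_lit 0, nat_lit 0, [(nat_lit 6, [(nat_lit 1, nat_lit 1000)])],
 ⟨p048_k1, nat_lit 0, nat_lit 0, nat_lit 0, nat_lit 0, nat_lit 14905, [nat_lit 2692266667, nat_lit 2905200001, nat_lit 3155600000, nat_lit 3222800000], [], [nat_lit 19431796139, nat_lit 19918715962, nat_lit 17982946156, nat_lit 18485437604, nat_lit 22040414988, nat_lit 22507841106, nat_lit 20489322980, nat_lit 20933921554], nat_lit 1271250, nat_lit 1271250, nat_lit 88400, nat_lit 490000, nat_lit 1271250, nat_lit 1271250, [nat_lit 1100000, nat_lit 1271250, nat_lit 1271250, nat_lit 1271250], [nat_lit 129, nat_lit 40, nat_lit 20, nat_lit 40]⟩, ⟨p048_k2, nat_lit 0, nat_lit 0, nat_lit 263, nat_lit 0, nat_lit 14905, [nat_lit 114432000000, nat_lit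 143040000000, nat_lit 171648000000], [], [nat_lit 453380960000, nat_lit 427103260001, nat_lit 285776800000, nat_lit 260123900000, nat_lit 211449652500, nat_lit 212570497500, nat_lit 167380900000, nat_lit 168686025000], nat_lit 1271250, nat_lit 1271250, nat_lit 88400, nat_lit 490000, nat_lit 0, nat_lit 2118750, [nat_lit 1100000, nat_lit 1442500, nat_lit 1271250], [nat_lit 9, nat_lit 40, nat_lit 40, nat_lit 80, nat_lit 2, nat_lit 317, nat_lit 100, nat_lit 11]⟩,
 ⟨nat_lit 6123, nat_lit 6325, ⟨.ofNat (nat_lit 164319), .ofNat (nat_lit 295942), .ofNat (nat_lit 175003), .ofNat (nat_lit 306625), .ofNat (nat_lit 172944), .ofNat (nat_lit 301553), .ofNat (nat_lit 183618), .ofNat (nat_lit 312227)⟩, ⟨.ofNat (nat_lit 514952), .ofNat (nat_lit 597210), .ofNat (nat_lit 536318), .ofNat (nat_lit 618577), .ofNat (nat_lit 511323), .ofNat (nat_lit 591698), .ofNat (nat_lit 532670), .ofNat (nat_lit 613044)⟩⟩, [⟨nat_lit 0, nat_lit 100, nat_lit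 100, nat_lit 50, nat_lit 3641023877⟩, ⟨nat_lit 4, nat_lit 83, nat_lit 100, nat_lit 78, nat_lit 295744534⟩]⟩
noncomputable def p048_l5 : Lf2 := ⟨nat_lit 0, nat_lit 3, [nat_lit 45, nat_lit 5, nat_lit 5, nat_lit 20], false, nat_lit 280, nat_lit 320, nat_lit 0, nat_lit 300, ⟨nat_lit 0, nat_lit 1000, nat_lit 0, nat_lit 6, nat_lit 102, nat_lit 1000, nat_lit 224, nat_lit 0, nat_lit 0, nat_lit 0, nat_lit 0, nat_lit 0, nat_lit 46906068, nat_lit 4559784, nat_lit 15534148, nat_lit 4093524, false, false⟩,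
 nat_lit 51074, nat_lit 0, nat_lit 0, nat_lit 0, nat_lit 5796, nat_lit 27038, nat_lit 8011, nat_lit 0, nat_lit 0, nat_lit 0, nat_lit 962, nat_lit 0, nat_lit 0, nat_lit 0, nat_lit 0, nat_lit 1000000, nat_lit 0, nat_lit 0, [(nat_lit 6, [(nat_lit 2, nat_lit 1000)])],
 ⟨p048_k3, nat_lit 0, nat_lit 0, nat_lit 0, nat_lit 0, nat_lit 113693, [nat_lit 2645485715, nat_lit 2965600001, nat_lit 2636000000], [], [nat_lit 18844691032, nat_lit 19645661856, nat_lit 16608423182, nat_lit 17155966870, nat_lit 22845321096, nat_lit 23535609584, nat_lit 20204709040, nat_lit 20871681776], nat_lit 1271250, nat_lit 1271250, nat_lit 111251, nat_lit 490000, nat_lit 1271250, nat_lit 1271250, [nat_lit 1100000, nat_lit 1271250, nat_lit 1271250], [nat_lit 105, nat_lit 40, nat_lit 20, nat_lit 40]⟩, ⟨p048_k2, nat_lit 0, nat_lit 0, nat_lit 269, nat_lit 0, nat_lit 120540, [nat_lit 15392000000, nat_lit 19240000000, nat_lit 23088000000], [], [nat_lit 73081567876,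 nat_lit 58893161072, nat_lit 30623958704, nat_lit 16751896500, nat_lit 44230722365, nat_lit 31824173837, nat_lit 48055315060, nat_lit 35889756226], nat_lit 1271250, nat_lit 1271250, nat_lit 111251, nat_lit 490000, nat_lit 0, nat_lit 2118750, [nat_lit 1100000, nat_lit 1442500, nat_lit 1271250], [nat_lit 9, nat_lit 40, nat_lit 40, nat_lit 80, nat_lit 2, nat_lit 317, nat_lit 100, nat_lit 11]⟩,
 ⟨nat_lit 5916, nat_lit 6124, ⟨.ofNat (nat_lit 180982), .ofNat (nat_lit 301553), .ofNat (nat_lit 202330), .ofNat (nat_lit 322901), .ofNat (nat_lit 189276), .ofNat (nat_lit 307076), .ofNat (nat_lit 210615), .ofNat (nat_lit 328416)⟩, ⟨.ofNat (nat_lit 511323), .ofNat (nat_lit 591701), .ofNat (nat_lit 532671), .ofNat (nat_lit 613047), .ofNat (nat_lit 507691), .ofNat (nat_lit 586221), .ofNat (nat_lit 529030), .ofNat (nat_lit 607559)⟩⟩, [⟨nat_lit 16, nat_lit 100, nat_lit 87, nat_lit 79, nat_lit 502270932⟩]⟩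
noncomputable def p048_l6 : Lf2 := ⟨nat_lit 0, nat_lit 3, [nat_lit 45, nat_lit 5, nat_lit 5, nat_lit 20], true, nat_lit 280, nat_lit 320, nat_lit 0, nat_lit 300, ⟨nat_lit 0, nat_lit 0, nat_lit 1000, nat_lit 6, nat_lit 99, nat_lit 1000, nat_lit 225, nat_lit 1000, nat_lit 2976, nat_lit 206, nat_lit 91267, nat_lit 289, nat_lit 46990943, nat_lit 0, nat_lit 0, nat_lit 4062230, false, false⟩,
 nat_lit 0, nat_lit 100000, nat_lit 0, nat_lit 0, nat_lit 52941, nat_lit 0, nat_lit 21802, nat_lit 3363, nat_lit 0, nat_lit 0, nat_lit 0, nat_lit 0, nat_lit 0, nat_lit 109081645827169, nat_lit 0, nat_lit 1000000, nat_lit 0, nat_lit 0, [(nat_lit 6, [(nat_lit 6, nat_lit 1000)])],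
 ⟨p048_k2, nat_lit 0, nat_lit 0, nat_lit 172, nat_lit 0, nat_lit 120540, [nat_lit 54785066667, nat_lit 67068000000, nat_lit 79003200000], [], [nat_lit 73116974568, nat_lit 78108661765, nat_lit 46794722889, nat_lit 51446281962, nat_lit 86324784153, nat_lit 90350040794, nat_lit 59106651331, nat_lit 62858989559], nat_lit 1271250, nat_lit 1271250, nat_lit 88400, nat_lit 490000, nat_lit 1271250, nat_lit 1271250, [nat_lit 1100000, nat_lit 1442500, nat_lit 1271250], [nat_lit 9, nat_lit 40, nat_lit 40, nat_lit 80, nat_lit 2, nat_lit 226, nat_lit 20, nat_lit 7]⟩, C1.Rw.none,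
 ⟨nat_lit 5916, nat_lit 6325, ⟨.ofNat (nat_lit 164319), .ofNat (nat_lit 295942), .ofNat (nat_lit 185687), .ofNat (nat_lit 317309), .ofNat (nat_lit 181423), .ofNat (nat_lit 307076), .ofNat (nat_lit 202762), .ofNat (nat_lit 328416)⟩, ⟨.ofNat (nat_lit 514952), .ofNat (nat_lit 597195), .ofNat (nat_lit 536315), .ofNat (nat_lit 618556), .ofNat (nat_lit 507691), .ofNat (nat_lit 586203), .ofNat (nat_lit 529025), .ofNat (nat_lit 607536)⟩⟩, [⟨nat_lit 0, nat_lit 100, nat_lit 100, nat_lit 60, nat_lit 2193313040⟩, ⟨nat_lit 4, nat_lit 85, nat_lit 100, nat_lit 78, nat_lit 4120431135⟩]⟩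
noncomputable def p048_l7 : Lf2 := ⟨nat_lit 0, nat_lit 3, [nat_lit 45, nat_lit 5, nat_lit 5, nat_lit 20], true, nat_lit 320, nat_lit 336, nat_lit 0, nat_lit 260, ⟨nat_lit 0, nat_lit 846, nat_lit 154, nat_lit 6, nat_lit 96, nat_lit 1000, nat_lit 249, nat_lit 154, nat_lit 31708, nat_lit 200, nat_lit 86400, nat_lit 287, nat_lit 44927680, nat_lit 4040038, nat_lit 18032282, nat_lit 4181552, false, false⟩,
 nat_lit 0, nat_lit 100000, nat_lit 0, nat_lit 100000, nat_lit 5084, nat_lit 0, nat_lit 604, nat_lit 0, nat_lit 0, nat_lit 0, nat_lit 0, nat_lit 0, nat_lit 0, nat_lit 310127610148247, nat_lit 0, nat_lit 1000000, nat_lit 0, nat_lit 0, [(nat_lit 6, [(nat_lit 2, nat_lit 846), (nat_lit 6, nat_lit 154)])],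
 ⟨p048_k2, nat_lit 0, nat_lit 0, nat_lit 144, nat_lit 0, nat_lit 14905, [nat_lit 2535511467, nat_lit 2339908800, nat_lit 1827480000], [], [nat_lit 22163003522, nat_lit 22606631437, nat_lit 20475508203, nat_lit 20899025939, nat_lit 23647213603, nat_lit 24252093575, nat_lit 21548821890, nat_lit 21950351090], nat_lit 1271250, nat_lit 1271250, nat_lit 88400, nat_lit 490000, nat_lit 1271250, nat_lit 1271250, [nat_lit 1100000, nat_lit 1442500, nat_lit 1271250], [nat_lit 9, nat_lit 40, nat_lit 40, nat_lit 80, nat_lit 2, nat_lit 226, nat_lit 20, nat_lit 7]⟩, C1.Rw.none,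
 ⟨nat_lit 6123, nat_lit 6325, ⟨.ofNat (nat_lit 164319), .ofNat (nat_lit 295942), .ofNat (nat_lit 175003), .ofNat (nat_lit 306625), .ofNat (nat_lit 172944), .ofNat (nat_lit 301553), .ofNat (nat_lit 183618), .ofNat (nat_lit 312227)⟩, ⟨.ofNat (nat_lit 597210), .ofNat (nat_lit 630114), .ofNat (nat_lit 618577), .ofNat (nat_lit 651479), .ofNat (nat_lit 591698), .ofNat (nat_lit 623848), .ofNat (nat_lit 613044), .ofNat (nat_lit 645194)⟩⟩, [⟨nat_lit 0, nat_lit 100, nat_lit 100, nat_lit 50, nat_lit 234348619⟩, ⟨nat_lit 4, nat_lit 83, nat_lit 100, nat_lit 78, nat_lit 8616401730⟩]⟩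
noncomputable def p048_l8 : Lf2 := ⟨nat_lit 0, nat_lit 3, [nat_lit 45, nat_lit 5, nat_lit 5, nat_lit 20], true, nat_lit 320, nat_lit 328, nat_lit 0, nat_lit 260, ⟨nat_lit 0, nat_lit 1000, nat_lit 0, nat_lit 6, nat_lit 102, nat_lit 1000, nat_lit 243, nat_lit 0, nat_lit 0, nat_lit 0, nat_lit 0, nat_lit 0, nat_lit 45107995, nat_lit 4478501, nat_lit 17413504, nat_lit 4228033, false, false⟩,
 nat_lit 0, nat_lit 100000, nat_lit 0, nat_lit 100000, nat_lit 4917, nat_lit 0, nat_lit 34457, nat_lit 0, nat_lit 0, nat_lit 0, nat_lit 0, nat_lit 0, nat_lit 0, nat_lit 305381761960846, nat_lit 0, nat_lit 400000, nat_lit 0, nat_lit 0, [(nat_lit 6, [(nat_lit 1, nat_lit 1000)])],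
 ⟨p048_k4, nat_lit 0, nat_lit 0, nat_lit 171, nat_lit 0, nat_lit 113693, [nat_lit 2692266667, nat_lit 3030400001, nat_lit 3280799999], [], [nat_lit 22214249600, nat_lit 22761581214, nat_lit 20786744599, nat_lit 21237610272, nat_lit 22932637446, nat_lit 23547736296, nat_lit 21338477604, nat_lit 21777746919], nat_lit 1271250, nat_lit 1271250, nat_lit 111251, nat_lit 490000, nat_lit 1271250, nat_lit 1271250, [nat_lit 1100000, nat_lit 1442500, nat_lit 1271250], [nat_lit 9, nat_lit 40, nat_lit 40, nat_lit 80, nat_lit 2, nat_lit 226, nat_lit 20, nat_lit 7]⟩, C1.Rw.none,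
 ⟨nat_lit 5916, nat_lit 6124, ⟨.ofNat (nat_lit 180982), .ofNat (nat_lit 301553), .ofNat (nat_lit 202330), .ofNat (nat_lit 322901), .ofNat (nat_lit 189276), .ofNat (nat_lit 307076), .ofNat (nat_lit 210615), .ofNat (nat_lit 328416)⟩, ⟨.ofNat (nat_lit 591701), .ofNat (nat_lit 607776), .ofNat (nat_lit 613047), .ofNat (nat_lit 629122), .ofNat (nat_lit 586221), .ofNat (nat_lit 601927), .ofNat (nat_lit 607559), .ofNat (nat_lit 623264)⟩⟩, [⟨nat_lit 0, nat_lit 100, nat_lit 100, nat_lit 60, nat_lit 223246210⟩, ⟨nat_lit 16, nat_lit 100, nat_lit 81, nat_lit 83, nat_lit 12345679012⟩, ⟨nat_lit 4, nat_lit 87, nat_lit 100, nat_lit 79, nat_lit 9862556487⟩]⟩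
noncomputable def b_V_600_600_10_53 : St := ⟨true, nat_lit 1, nat_lit 1, nat_lit 1, nat_lit 80, nat_lit 240, nat_lit 260, nat_lit 240, nat_lit 260, nat_lit 16, nat_lit 80, nat_lit 60, nat_lit 80, nat_lit 280, nat_lit 336, nat_lit 0, nat_lit 336, nat_lit 0, nat_lit 12, nat_lit 0, nat_lit 0, nat_lit 0, nat_lit 0⟩
theorem d_V_600_600_10_53 (h : EB TB.env) : Dead b_V_600_600_10_53 := chkB_sound0 h (T :=
(.trX (nat_lit 23) (nat_lit 100) (nat_lit 95) (nat_lit 87) (nat_lit 300) (.spl (nat_lit 4) (nat_lit 320)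
(.spl (nat_lit 7) (nat_lit 600)
(.spl (nat_lit 7) (nat_lit 300)
(.leaf p048_l0)
(.spl (nat_lit 8) (nat_lit 800)
(.spl (nat_lit 5) (nat_lit 160)
(.leaf p048_l1)
(.spl (nat_lit 5) (nat_lit 240)
(.leaf p048_l2)
(.trZ (nat_lit 11) (nat_lit 100) (nat_lit 94) (nat_lit 59) (nat_lit 36) (.leaf p048_l3))))
(.spl (nat_lit 0) (nat_lit 250)
(.ord (.leaf p048_l4))
(.trZ (nat_lit 0) (nat_lit 100) (nat_lit 99) (nat_lit 45) (nat_lit 20) (.leaf p048_l5)))))
(.leaf p048_l6))
(.trX (nat_lit 23) (nat_lit 83) (nat_lit 100) (nat_lit 83) (nat_lit 260) (.spl (nat_lit 0) (nat_lit 250)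
(.ord (.leaf p048_l7))
(.trZ (nat_lit 0) (nat_lit 100) (nat_lit 99) (nat_lit 45) (nat_lit 20) (.trX (nat_lit 16) (nat_lit 100) (nat_lit 81) (nat_lit 83) (nat_lit 328) (.leaf p048_l8)))))))) (by decide +kernel)
noncomputable def p048_l9 : Lf2 := ⟨nat_lit 0, nat_lit 3, [nat_lit 45, nat_lit 5, nat_lit 5, nat_lit 20], false, nat_lit 240, nat_lit 336, nat_lit 0, nat_lit 160, ⟨nat_lit 1000, nat_lit 0, nat_lit 0, nat_lit 0, nat_lit 0, nat_lit 0, nat_lit 0, nat_lit 0, nat_lit 0, nat_lit 0, nat_lit 0, nat_lit 0, nat_lit 0, nat_lit 0, nat_lit 0, nat_lit 0, false, false⟩,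
 nat_lit 19063, nat_lit 0, nat_lit 0, nat_lit 7408, nat_lit 8573, nat_lit 10092, nat_lit 1956, nat_lit 0, nat_lit 0, nat_lit 3412, nat_lit 0, nat_lit 0, nat_lit 0, nat_lit 0, nat_lit 0, nat_lit 0, nat_lit 0, nat_lit 0, [],
 ⟨p048_k2, nat_lit 0, nat_lit 0, nat_lit 129, nat_lit 0, nat_lit 120540, [nat_lit 4688000000, nat_lit 6250000000, nat_lit 7968000000], [], [nat_lit 15456166996, nat_lit 16956957386, nat_lit 15014473760, nat_lit 16385140312, nat_lit 23613578915, nat_lit 24683608654, nat_lit 22681869469, nat_lit 23712418931], nat_lit 1271250, nat_lit 1271250, nat_lit 490000, nat_lit 780000, nat_lit 1271250, nat_lit 1271250, [nat_lit 1100000, nat_lit 1442500, nat_lit 1271250], [nat_lit 9, nat_lit 40, nat_lit 40, nat_lit 80, nat_lit 2, nat_lit 238, nat_lit 30, nat_lit 7]⟩, ⟨p048_k2, nat_lit 0, nat_lit 0, nat_lit 239, nat_lit 0, nat_lit 120540, [nat_lit 4688000000, nat_lit 6250000000, nat_lit 7968000000], [], [nat_lit 13422693252,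 nat_lit 15908395980, nat_lit 12762557204, nat_lit 15302915392, nat_lit 11394596032, nat_lit 9654210648, nat_lit 14057012256, nat_lit 9271715128], nat_lit 1271250, nat_lit 1271250, nat_lit 490000, nat_lit 780000, nat_lit 0, nat_lit 1100001, [nat_lit 1100000, nat_lit 1442500, nat_lit 1271250], [nat_lit 9, nat_lit 40, nat_lit 40, nat_lit 80, nat_lit 2, nat_lit 289, nat_lit 75, nat_lit 10]⟩,
 zbF0, [⟨nat_lit 4, nat_lit 85, nat_lit 100, nat_lit 78, nat_lit 833771483⟩]⟩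
noncomputable def p048_l10 : Lf2 := ⟨nat_lit 0, nat_lit 3, [nat_lit 45, nat_lit 5, nat_lit 5, nat_lit 20], false, nat_lit 240, nat_lit 336, nat_lit 160, nat_lit 336, ⟨nat_lit 256, nat_lit 744, nat_lit 0, nat_lit 6, nat_lit 139, nat_lit 744, nat_lit 215, nat_lit 0, nat_lit 0, nat_lit 0, nat_lit 0, nat_lit 0, nat_lit 45452099, nat_lit 7199651, nat_lit 14348250, nat_lit 4460267, false, false⟩,
 nat_lit 10146, nat_lit 0, nat_lit 0, nat_lit 0, nat_lit 5371, nat_lit 4527, nat_lit 0, nat_lit 0, nat_lit 0, nat_lit 533, nat_lit 0, nat_lit 0, nat_lit 0, nat_lit 0, nat_lit 0, nat_lit 297600, nat_lit 0, nat_lit 117514947, [(nat_lit 6, [(nat_lit 1, nat_lit 744)])],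
 ⟨p048_k2, nat_lit 0, nat_lit 0, nat_lit 115, nat_lit 0, nat_lit 66141, [nat_lit 3203174400, nat_lit 3854617600, nat_lit 4470739200], [], [nat_lit 13639220852, nat_lit 15048329116, nat_lit 13832483444, nat_lit 15169832514, nat_lit 21018599228, nat_lit 22209295352, nat_lit 20840579329, nat_lit 21832302696], nat_lit 1271250, nat_lit 1271250, nat_lit 490000, nat_lit 780000, nat_lit 1271250, nat_lit 1271250, [nat_lit 1100000, nat_lit 1442500, nat_lit 1271250], [nat_lit 9, nat_lit 40, nat_lit 40, nat_lit 80, nat_lit 2, nat_lit 238, nat_lit 30, nat_lit 7]⟩, ⟨p048_k2, nat_lit 0, nat_lit 0, nat_lit 155, nat_lit 0, nat_lit 66141, [nat_lit 1200128000, nat_lit 1600000000, nat_lit 2039808000], [], [nat_lit 0, nat_lit 398716330, nat_lit 300632379, nat_lit 16140650, nat_lit 8521617228, nat_lit 7919679601, nat_lit 9768062965, nat_lit 8707117056], nat_lit 1271250, nat_lit 1271250, nat_lit 490000, nat_lit 780000, nat_lit 1100001, nat_lit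 2607000, [nat_lit 1100000, nat_lit 1442500, nat_lit 1271250], [nat_lit 9, nat_lit 40, nat_lit 40, nat_lit 80, nat_lit 2, nat_lit 345, nat_lit 125, nat_lit 11]⟩,
 ⟨nat_lit 5916, nat_lit 6325, ⟨.ofNat (nat_lit 295942), .ofNat (nat_lit 378206), .ofNat (nat_lit 306625), .ofNat (nat_lit 388890), .ofNat (nat_lit 307076), .ofNat (nat_lit 385610), .ofNat (nat_lit 317746), .ofNat (nat_lit 396280)⟩, ⟨.ofNat (nat_lit 432688), .ofNat (nat_lit 630091), .ofNat (nat_lit 454055), .ofNat (nat_lit 651452), .ofNat (nat_lit 429157), .ofNat (nat_lit 617607), .ofNat (nat_lit 450496), .ofNat (nat_lit 638940)⟩⟩, [⟨nat_lit 4, nat_lit 85, nat_lit 100, nat_lit 78, nat_lit 192972626⟩, ⟨nat_lit 7, nat_lit 83, nat_lit 100, nat_lit 78, nat_lit 93084844⟩, ⟨nat_lit 11, nat_lit 100, nat_lit 100, nat_lit 100, nat_lit 199539033⟩]⟩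
noncomputable def p048_l11 : Lf2 := ⟨nat_lit 0, nat_lit 3, [nat_lit 45, nat_lit 5, nat_lit 5, nat_lit 20], false, nat_lit 240, nat_lit 328, nat_lit 160, nat_lit 328, ⟨nat_lit 549, nat_lit 451, nat_lit 0, nat_lit 6, nat_lit 144, nat_lit 451, nat_lit 211, nat_lit 0, nat_lit 0, nat_lit 0, nat_lit 0, nat_lit 0, nat_lit 45453502, nat_lit 7621673, nat_lit 13924825, nat_lit 4486003, false, false⟩,
 nat_lit 14412, nat_lit 0, nat_lit 0, nat_lit 0, nat_lit 8006, nat_lit 8006, nat_lit 2019, nat_lit 0, nat_lit 0, nat_lit 509, nat_lit 0, nat_lit 0, nat_lit 0, nat_lit 0, nat_lit 0, nat_lit 112750, nat_lit 0, nat_lit 0, [(nat_lit 6, [(nat_lit 0, nat_lit 451)])],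
 ⟨p048_k4, nat_lit 0, nat_lit 0, nat_lit 122, nat_lit 0, nat_lit 113693, [nat_lit 3984440000, nat_lit 4823757600, nat_lit 5934350800], [], [nat_lit 13810531726, nat_lit 14540425092, nat_lit 13445886956, nat_lit 14075396004, nat_lit 22443229653, nat_lit 23211289330, nat_lit 21553573958, nat_lit 22284698128], nat_lit 1271250, nat_lit 1271250, nat_lit 490000, nat_lit 780000, nat_lit 1271250, nat_lit 1271250, [nat_lit 1100000, nat_lit 1442500, nat_lit 1271250], [nat_lit 9, nat_lit 40, nat_lit 40, nat_lit 80, nat_lit 2, nat_lit 238, nat_lit 30, nat_lit 7]⟩, ⟨p048_k4, nat_lit 0, nat_lit 0, nat_lit 153, nat_lit 0, nat_lit 113693, [nat_lit 2573712000, nat_lit 3431250000, nat_lit 4374432000], [], [nat_lit 3439763729, nat_lit 4175984370, nat_lit 2814829508, nat_lit 3506030244, nat_lit 15450060179, nat_lit 15204494114, nat_lit 17771399407, nat_lit 15890139119], nat_lit 1271250, nat_lit 1271250, nat_lit 490000, nat_lit 780000, nat_lit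 1100001, nat_lit 2538500, [nat_lit 1100000, nat_lit 1442500, nat_lit 1271250], [nat_lit 9, nat_lit 40, nat_lit 40, nat_lit 80, nat_lit 2, nat_lit 345, nat_lit 125, nat_lit 11]⟩,
 ⟨nat_lit 5916, nat_lit 6124, ⟨.ofNat (nat_lit 312227), .ofNat (nat_lit 392607), .ofNat (nat_lit 322901), .ofNat (nat_lit 403281), .ofNat (nat_lit 317746), .ofNat (nat_lit 396280), .ofNat (nat_lit 328416), .ofNat (nat_lit 406949)⟩, ⟨.ofNat (nat_lit 430942), .ofNat (nat_lit 607776), .ofNat (nat_lit 452290), .ofNat (nat_lit 629122), .ofNat (nat_lit 429157), .ofNat (nat_lit 601927), .ofNat (nat_lit 450496), .ofNat (nat_lit 623264)⟩⟩, [⟨nat_lit 4, nat_lit 87, nat_lit 100, nat_lit 79, nat_lit 267031261⟩, ⟨nat_lit 7, nat_lit 87, nat_lit 100, nat_lit 79, nat_lit 123555875⟩, ⟨nat_lit 11, nat_lit 100, nat_lit 100, nat_lit 100, nat_lit 354973708⟩]⟩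
noncomputable def b_V_600_600_10_54 : St := ⟨true, nat_lit 1, nat_lit 1, nat_lit 1, nat_lit 80, nat_lit 240, nat_lit 260, nat_lit 240, nat_lit 260, nat_lit 80, nat_lit 120, nat_lit 60, nat_lit 80, nat_lit 240, nat_lit 336, nat_lit 0, nat_lit 336, nat_lit 0, nat_lit 12, nat_lit 0, nat_lit 0, nat_lit 0, nat_lit 0⟩
theorem d_V_600_600_10_54 (h : EB TB.env) : Dead b_V_600_600_10_54 := chkB_sound0 h (T :=
(.spl (nat_lit 5) (nat_lit 160)
(.leaf p048_l9)
(.spl (nat_lit 1) (nat_lit 250)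
(.leaf p048_l10)
(.ord (.trX (nat_lit 16) (nat_lit 100) (nat_lit 81) (nat_lit 83) (nat_lit 328) (.trX (nat_lit 19) (nat_lit 100) (nat_lit 81) (nat_lit 83) (nat_lit 328) (.leaf p048_l11))))))) (by decide +kernel)
noncomputable def p048_l12 : Lf2 := ⟨nat_lit 0, nat_lit 6, [nat_lit 47, nat_lit 5, nat_lit 5, nat_lit 20], false, nat_lit 240, nat_lit 336, nat_lit 0, nat_lit 160, ⟨nat_lit 1000, nat_lit 0, nat_lit 0, nat_lit 0, nat_lit 0, nat_lit 0, nat_lit 0, nat_lit 0, nat_lit 0, nat_lit 0, nat_lit 0, nat_lit 0, nat_lit 0, nat_lit 0, nat_lit 0, nat_lit 0, false, false⟩,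
 nat_lit 16624, nat_lit 0, nat_lit 0, nat_lit 7848, nat_lit 8800, nat_lit 3449, nat_lit 2663, nat_lit 0, nat_lit 0, nat_lit 1954, nat_lit 0, nat_lit 0, nat_lit 0, nat_lit 0, nat_lit 0, nat_lit 0, nat_lit 0, nat_lit 0, [],
 ⟨p048_k5, nat_lit 0, nat_lit 0, nat_lit 190, nat_lit 0, nat_lit 265448, [nat_lit 4688000000, nat_lit 6250000000, nat_lit 9842000000], [], [nat_lit 14083243750, nat_lit 15365065200, nat_lit 18913999200, nat_lit 18794219200, nat_lit 22423809600, nat_lit 23699023120, nat_lit 24813331681, nat_lit 25945382480], nat_lit 1271250, nat_lit 1271250, nat_lit 780000, nat_lit 1762500, nat_lit 1271250, nat_lit 1271250, [nat_lit 1100000, nat_lit 1442500, nat_lit 1271250], [nat_lit 11, nat_lit 40, nat_lit 40, nat_lit 80, nat_lit 1, nat_lit 456, nat_lit 225, nat_lit 12]⟩, ⟨p048_k5, nat_lit 0, nat_lit 0, nat_lit 307, nat_lit 0, nat_lit 265448, [nat_lit 4688000000, nat_lit 6250000000, nat_lit 9842000000], [], [nat_lit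 38335534484, nat_lit 36483635322, nat_lit 33738614616, nat_lit 34505394380, nat_lit 32171375364, nat_lit 31796086746, nat_lit 39903580556, nat_lit 38321275928], nat_lit 1271250, nat_lit 1271250, nat_lit 780000, nat_lit 1762500, nat_lit 0, nat_lit 1100001, [nat_lit 1100000, nat_lit 1442500, nat_lit 1271250], [nat_lit 11, nat_lit 40, nat_lit 40, nat_lit 80, nat_lit 1, nat_lit 401, nat_lit 175, nat_lit 12]⟩,
 zbF0, [⟨nat_lit 4, nat_lit 88, nat_lit 100, nat_lit 74, nat_lit 921744073⟩]⟩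
noncomputable def p048_l13 : Lf2 := ⟨nat_lit 0, nat_lit 6, [nat_lit 47, nat_lit 5, nat_lit 5, nat_lit 20], false, nat_lit 240, nat_lit 336, nat_lit 160, nat_lit 336, ⟨nat_lit 1000, nat_lit 0, nat_lit 0, nat_lit 0, nat_lit 0, nat_lit 0, nat_lit 0, nat_lit 0, nat_lit 0, nat_lit 0, nat_lit 0, nat_lit 0, nat_lit 0, nat_lit 0, nat_lit 0, nat_lit 0, false, false⟩,
 nat_lit 21462, nat_lit 0, nat_lit 0, nat_lit 7693, nat_lit 11362, nat_lit 6194, nat_lit 2899, nat_lit 0, nat_lit 0, nat_lit 1927, nat_lit 0, nat_lit 0, nat_lit 0, nat_lit 0, nat_lit 0, nat_lit 0, nat_lit 0, nat_lit 0, [],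
 ⟨p048_k5, nat_lit 0, nat_lit 0, nat_lit 170, nat_lit 0, nat_lit 207978, [nat_lit 4688000000, nat_lit 6250000000, nat_lit 9842000000], [], [nat_lit 10750199630, nat_lit 12234231510, nat_lit 15361689720, nat_lit 17279842348, nat_lit 23355814393, nat_lit 25094202237, nat_lit 25814780588, nat_lit 27109426156], nat_lit 1271250, nat_lit 1271250, nat_lit 780000, nat_lit 1762500, nat_lit 1271250, nat_lit 1271250, [nat_lit 1100000, nat_lit 1442500, nat_lit 1271250], [nat_lit 11, nat_lit 40, nat_lit 40, nat_lit 80, nat_lit 1, nat_lit 456, nat_lit 225, nat_lit 12]⟩, ⟨p048_k5, nat_lit 0, nat_lit 0, nat_lit 169, nat_lit 0, nat_lit 207978, [nat_lit 4688000000, nat_lit 6250000000, nat_lit 9842000000], [], [nat_lit 35688676960, nat_lit 34051175374, nat_lit 35849511408, nat_lit 34370111672, nat_lit 25684845466, nat_lit 26015373089, nat_lit 27391809268, nat_lit 27710338717], nat_lit 1271250, nat_lit 1271250, nat_lit 780000, nat_lit 1762500,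 nat_lit 1271250, nat_lit 1271250, [nat_lit 1100000, nat_lit 1442500, nat_lit 1271250], [nat_lit 11, nat_lit 40, nat_lit 40, nat_lit 80, nat_lit 1, nat_lit 456, nat_lit 225, nat_lit 13]⟩,
 zbF0, [⟨nat_lit 4, nat_lit 88, nat_lit 100, nat_lit 74, nat_lit 1240193942⟩]⟩
noncomputable def p048_l14 : Lf2 := ⟨nat_lit 0, nat_lit 6, [nat_lit 47, nat_lit 5, nat_lit 5, nat_lit 20], false, nat_lit 240, nat_lit 328, nat_lit 160, nat_lit 328, ⟨nat_lit 1000, nat_lit 0, nat_lit 0, nat_lit 0, nat_lit 0, nat_lit 0, nat_lit 0, nat_lit 0, nat_lit 0, nat_lit 0, nat_lit 0, nat_lit 0, nat_lit 0, nat_lit 0, nat_lit 0, nat_lit 0, false, false⟩,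
 nat_lit 15842, nat_lit 0, nat_lit 0, nat_lit 10569, nat_lit 8800, nat_lit 6591, nat_lit 2678, nat_lit 0, nat_lit 0, nat_lit 1953, nat_lit 0, nat_lit 0, nat_lit 0, nat_lit 0, nat_lit 0, nat_lit 0, nat_lit 0, nat_lit 0, [],
 ⟨p048_k6, nat_lit 0, nat_lit 0, nat_lit 181, nat_lit 0, nat_lit 250147, [nat_lit 4688000000, nat_lit 6250000000, nat_lit 9842000000], [], [nat_lit 13620744000, nat_lit 14260613000, nat_lit 17073307000, nat_lit 17689544200, nat_lit 21877176281, nat_lit 22649160961, nat_lit 24524384141, nat_lit 25111684040], nat_lit 1271250, nat_lit 1271250, nat_lit 780000, nat_lit 1762500, nat_lit 1271250, nat_lit 1271250, [nat_lit 1100000, nat_lit 1442500, nat_lit 1271250], [nat_lit 11, nat_lit 40, nat_lit 40, nat_lit 80, nat_lit 1, nat_lit 456, nat_lit 225, nat_lit 12]⟩, ⟨p048_k6, nat_lit 0, nat_lit 0, nat_lit 181, nat_lit 0, nat_lit 250147, [nat_lit 4688000000, nat_lit 6250000000, nat_lit 9842000000], [], [nat_lit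 33745572861, nat_lit 32003116782, nat_lit 33433881408, nat_lit 31859660604, nat_lit 24048821030, nat_lit 24396258723, nat_lit 25710947955, nat_lit 26044807135], nat_lit 1271250, nat_lit 1271250, nat_lit 780000, nat_lit 1762500, nat_lit 1271250, nat_lit 1271250, [nat_lit 1100000, nat_lit 1442500, nat_lit 1271250], [nat_lit 11, nat_lit 40, nat_lit 40, nat_lit 80, nat_lit 1, nat_lit 456, nat_lit 225, nat_lit 13]⟩,
 zbF0, [⟨nat_lit 4, nat_lit 90, nat_lit 100, nat_lit 74, nat_lit 976665042⟩]⟩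
noncomputable def b_V_600_600_10_55 : St := ⟨true, nat_lit 1, nat_lit 1, nat_lit 1, nat_lit 80, nat_lit 240, nat_lit 260, nat_lit 240, nat_lit 260, nat_lit 120, nat_lit 240, nat_lit 40, nat_lit 80, nat_lit 240, nat_lit 336, nat_lit 0, nat_lit 336, nat_lit 0, nat_lit 24, nat_lit 0, nat_lit 0, nat_lit 0, nat_lit 0⟩
theorem d_V_600_600_10_55 (h : EB TB.env) : Dead b_V_600_600_10_55 := chkB_sound0 h (T :=
(.spl (nat_lit 5) (nat_lit 160)
(.leaf p048_l12)
(.spl (nat_lit 1) (nat_lit 250)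
(.leaf p048_l13)
(.ord (.trX (nat_lit 16) (nat_lit 100) (nat_lit 81) (nat_lit 83) (nat_lit 328) (.trX (nat_lit 19) (nat_lit 100) (nat_lit 81) (nat_lit 83) (nat_lit 328) (.leaf p048_l14))))))) (by decide +kernel)
noncomputable def p048_l15 : Lf2 := ⟨nat_lit 0, nat_lit 2, [nat_lit 10, nat_lit 5, nat_lit 5, nat_lit 20], true, nat_lit 240, nat_lit 280, nat_lit 0, nat_lit 288, ⟨nat_lit 0, nat_lit 0, nat_lit 1000, nat_lit 6, nat_lit 89, nat_lit 1000, nat_lit 183, nat_lit 1000, nat_lit 28439, nat_lit 256, nat_lit 74817, nat_lit 282, nat_lit 51656528, nat_lit 0, nat_lit 0, nat_lit 3525653, false, false⟩,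
 nat_lit 0, nat_lit 5906, nat_lit 0, nat_lit 0, nat_lit 3437, nat_lit 0, nat_lit 0, nat_lit 0, nat_lit 0, nat_lit 0, nat_lit 0, nat_lit 0, nat_lit 0, nat_lit 0, nat_lit 37, nat_lit 1000000, nat_lit 0, nat_lit 0, [(nat_lit 9, [(nat_lit 6, nat_lit 1000)])],
 ⟨p048_k7, nat_lit 0, nat_lit 0, nat_lit 0, nat_lit 0, nat_lit 214729, [nat_lit 1478400001, nat_lit 611200001, nat_lit 0], [], [nat_lit 15561874350, nat_lit 16070473738, nat_lit 15330759146, nat_lit 15837170039, nat_lit 17594480225, nat_lit 18213308558, nat_lit 17345766104, nat_lit 17832320323], nat_lit 1271250, nat_lit 1271250, nat_lit 134400, nat_lit 230001, nat_lit 1271250, nat_lit 1271250, [nat_lit 936250, nat_lit 1271250, nat_lit 1271250], [nat_lit 185, nat_lit 40, nat_lit 20, nat_lit 40]⟩, C1.Rw.none,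
 ⟨nat_lit 5700, nat_lit 5917, ⟨.ofNat (nat_lit 197129), .ofNat (nat_lit 228543), .ofNat (nat_lit 207799), .ofNat (nat_lit 239212), .ofNat (nat_lit 205119), .ofNat (nat_lit 235806), .ofNat (nat_lit 215790), .ofNat (nat_lit 246477)⟩, ⟨.ofNat (nat_lit 407818), .ofNat (nat_lit 486351), .ofNat (nat_lit 429157), .ofNat (nat_lit 507691), .ofNat (nat_lit 405982), .ofNat (nat_lit 482701), .ofNat (nat_lit 427324), .ofNat (nat_lit 504043)⟩⟩, [⟨nat_lit 0, nat_lit 100, nat_lit 97, nat_lit 54, nat_lit 193284596⟩, ⟨nat_lit 4, nat_lit 98, nat_lit 100, nat_lit 70, nat_lit 297718634⟩]⟩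
noncomputable def p048_l16 : Lf2 := ⟨nat_lit 0, nat_lit 2, [nat_lit 10, nat_lit 5, nat_lit 5, nat_lit 20], true, nat_lit 280, nat_lit 296, nat_lit 0, nat_lit 236, ⟨nat_lit 0, nat_lit 0, nat_lit 1000, nat_lit 6, nat_lit 86, nat_lit 1000, nat_lit 204, nat_lit 1000, nat_lit 11818, nat_lit 238, nat_lit 68267, nat_lit 279, nat_lit 49743229, nat_lit 0, nat_lit 0, nat_lit 3705834, false, false⟩,
 nat_lit 0, nat_lit 5193, nat_lit 0, nat_lit 0, nat_lit 3022, nat_lit 0, nat_lit 0, nat_lit 0, nat_lit 0, nat_lit 0, nat_lit 0, nat_lit 0, nat_lit 0, nat_lit 0, nat_lit 34, nat_lit 923800, nat_lit 0, nat_lit 0, [(nat_lit 9, [(nat_lit 5, nat_lit 127), (nat_lit 6, nat_lit 873)])],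
 ⟨p048_k8, nat_lit 0, nat_lit 0, nat_lit 0, nat_lit 0, nat_lit 214729, [nat_lit 1060036000, nat_lit 1389858000, nat_lit 587426000, nat_lit 7767200], [], [nat_lit 17455044220, nat_lit 17952450709, nat_lit 17323837402, nat_lit 17819166112, nat_lit 18377757673, nat_lit 18938983644, nat_lit 18240940042, nat_lit 18745013686], nat_lit 1271250, nat_lit 1271250, nat_lit 134400, nat_lit 181601, nat_lit 1271250, nat_lit 1271250, [nat_lit 631250, nat_lit 936250, nat_lit 1271250, nat_lit 1271250], [nat_lit 209, nat_lit 40, nat_lit 20, nat_lit 40]⟩, C1.Rw.none,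
 ⟨nat_lit 5700, nat_lit 5917, ⟨.ofNat (nat_lit 197129), .ofNat (nat_lit 212836), .ofNat (nat_lit 207799), .ofNat (nat_lit 223506), .ofNat (nat_lit 205119), .ofNat (nat_lit 220462), .ofNat (nat_lit 215790), .ofNat (nat_lit 231133)⟩, ⟨.ofNat (nat_lit 486351), .ofNat (nat_lit 517765), .ofNat (nat_lit 507691), .ofNat (nat_lit 539104), .ofNat (nat_lit 482701), .ofNat (nat_lit 513388), .ofNat (nat_lit 504043), .ofNat (nat_lit 534730)⟩⟩, [⟨nat_lit 0, nat_lit 100, nat_lit 97, nat_lit 54, nat_lit 200472215⟩, ⟨nat_lit 16, nat_lit 100, nat_lit 92, nat_lit 75, nat_lit 371369351⟩]⟩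
noncomputable def p048_l17 : Lf2 := ⟨nat_lit 0, nat_lit 2, [nat_lit 10, nat_lit 5, nat_lit 5, nat_lit 20], true, nat_lit 280, nat_lit 296, nat_lit 0, nat_lit 248, ⟨nat_lit 0, nat_lit 0, nat_lit 1000, nat_lit 6, nat_lit 92, nat_lit 1000, nat_lit 204, nat_lit 1000, nat_lit 11818, nat_lit 238, nat_lit 79350, nat_lit 284, nat_lit 49382119, nat_lit 0, nat_lit 0, nat_lit 3790792, false, false⟩,
 nat_lit 0, nat_lit 5284, nat_lit 0, nat_lit 0, nat_lit 3075, nat_lit 0, nat_lit 0, nat_lit 0, nat_lit 0, nat_lit 0, nat_lit 0, nat_lit 0, nat_lit 0, nat_lit 0, nat_lit 34, nat_lit 921400, nat_lit 0, nat_lit 0, [(nat_lit 9, [(nat_lit 5, nat_lit 131), (nat_lit 6, nat_lit 869)])],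
 ⟨p048_k8, nat_lit 0, nat_lit 0, nat_lit 0, nat_lit 0, nat_lit 214729, [nat_lit 1061108000, nat_lit 1389274000, nat_lit 588378000, nat_lit 9901600], [], [nat_lit 17298796760, nat_lit 17797184800, nat_lit 17163084900, nat_lit 17659378350, nat_lit 18222469509, nat_lit 18785535982, nat_lit 18082242340, nat_lit 18586211861], nat_lit 1271250, nat_lit 1271250, nat_lit 181601, nat_lit 230001, nat_lit 1271250, nat_lit 1271250, [nat_lit 631250, nat_lit 936250, nat_lit 1271250, nat_lit 1271250], [nat_lit 209, nat_lit 40, nat_lit 20, nat_lit 40]⟩, C1.Rw.none,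
 ⟨nat_lit 5700, nat_lit 5917, ⟨.ofNat (nat_lit 212836), .ofNat (nat_lit 228543), .ofNat (nat_lit 223506), .ofNat (nat_lit 239212), .ofNat (nat_lit 220462), .ofNat (nat_lit 235806), .ofNat (nat_lit 231133), .ofNat (nat_lit 246477)⟩, ⟨.ofNat (nat_lit 486351), .ofNat (nat_lit 517765), .ofNat (nat_lit 507691), .ofNat (nat_lit 539104), .ofNat (nat_lit 482701), .ofNat (nat_lit 513388), .ofNat (nat_lit 504043), .ofNat (nat_lit 534730)⟩⟩, [⟨nat_lit 16, nat_lit 100, nat_lit 92, nat_lit 75, nat_lit 374119866⟩]⟩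
noncomputable def p048_l18 : Lf2 := ⟨nat_lit 0, nat_lit 2, [nat_lit 10, nat_lit 5, nat_lit 5, nat_lit 20], true, nat_lit 240, nat_lit 296, nat_lit 0, nat_lit 312, ⟨nat_lit 0, nat_lit 0, nat_lit 1000, nat_lit 6, nat_lit 111, nat_lit 1000, nat_lit 189, nat_lit 1000, nat_lit 11818, nat_lit 238, nat_lit 114817, nat_lit 298, nat_lit 49680054, nat_lit 0, nat_lit 0, nat_lit 3887694, false, false⟩,
 nat_lit 0, nat_lit 5880, nat_lit 0, nat_lit 0, nat_lit 3422, nat_lit 0, nat_lit 0, nat_lit 0, nat_lit 0, nat_lit 0, nat_lit 0, nat_lit 0, nat_lit 0, nat_lit 0, nat_lit 37, nat_lit 1000000, nat_lit 0, nat_lit 0, [(nat_lit 9, [(nat_lit 6, nat_lit 1000)])],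
 ⟨p048_k7, nat_lit 0, nat_lit 0, nat_lit 0, nat_lit 0, nat_lit 214729, [nat_lit 1478400001, nat_lit 611200001, nat_lit 0], [], [nat_lit 15356728466, nat_lit 15862283024, nat_lit 15285033094, nat_lit 15797013772, nat_lit 18267221835, nat_lit 18852653105, nat_lit 18116879727, nat_lit 18566941191], nat_lit 1271250, nat_lit 1271250, nat_lit 230001, nat_lit 490000, nat_lit 1271250, nat_lit 1271250, [nat_lit 936250, nat_lit 1271250, nat_lit 1271250], [nat_lit 185, nat_lit 40, nat_lit 20, nat_lit 40]⟩, C1.Rw.none,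
 ⟨nat_lit 5700, nat_lit 5917, ⟨.ofNat (nat_lit 228543), .ofNat (nat_lit 307076), .ofNat (nat_lit 239212), .ofNat (nat_lit 317746), .ofNat (nat_lit 235806), .ofNat (nat_lit 312525), .ofNat (nat_lit 246477), .ofNat (nat_lit 323196)⟩, ⟨.ofNat (nat_lit 407818), .ofNat (nat_lit 517765), .ofNat (nat_lit 429157), .ofNat (nat_lit 539104), .ofNat (nat_lit 405982), .ofNat (nat_lit 513388), .ofNat (nat_lit 427324), .ofNat (nat_lit 534730)⟩⟩, [⟨nat_lit 16, nat_lit 100, nat_lit 92, nat_lit 75, nat_lit 330393119⟩]⟩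
noncomputable def p048_l19 : Lf2 := ⟨nat_lit 0, nat_lit 5, [nat_lit 4, nat_lit 5, nat_lit 5, nat_lit 20], true, nat_lit 240, nat_lit 296, nat_lit 0, nat_lit 288, ⟨nat_lit 0, nat_lit 0, nat_lit 1000, nat_lit 6, nat_lit 89, nat_lit 1000, nat_lit 189, nat_lit 1000, nat_lit 11818, nat_lit 238, nat_lit 74817, nat_lit 282, nat_lit 51062082, nat_lit 0, nat_lit 0, nat_lit 3592878, false, false⟩,
 nat_lit 0, nat_lit 5682, nat_lit 0, nat_lit 1079, nat_lit 3307, nat_lit 0, nat_lit 0, nat_lit 0, nat_lit 0, nat_lit 0, nat_lit 0, nat_lit 0, nat_lit 0, nat_lit 0, nat_lit 75, nat_lit 599800, nat_lit 0, nat_lit 0, [(nat_lit 9, [(nat_lit 5, nat_lit 667), (nat_lit 6, nat_lit 333)])],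
 ⟨p048_k9, nat_lit 0, nat_lit 0, nat_lit 0, nat_lit 0, nat_lit 135718, [nat_lit 1398925801, nat_lit 1885018001, nat_lit 1671485800, nat_lit 104134900], [], [nat_lit 15864999466, nat_lit 16368396490, nat_lit 15559234864, nat_lit 16058309190, nat_lit 18642609671, nat_lit 19223829265, nat_lit 18322459971, nat_lit 18810406228], nat_lit 1271250, nat_lit 1271250, nat_lit 134400, nat_lit 230001, nat_lit 1271250, nat_lit 1271250, [nat_lit 490000, nat_lit 936250, nat_lit 1271250, nat_lit 1271250], [nat_lit 138, nat_lit 40, nat_lit 20, nat_lit 40]⟩, C1.Rw.none,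
 ⟨nat_lit 5700, nat_lit 5917, ⟨.ofNat (nat_lit 197129), .ofNat (nat_lit 228543), .ofNat (nat_lit 207799), .ofNat (nat_lit 239212), .ofNat (nat_lit 205119), .ofNat (nat_lit 235806), .ofNat (nat_lit 215790), .ofNat (nat_lit 246477)⟩, ⟨.ofNat (nat_lit 407818), .ofNat (nat_lit 517765), .ofNat (nat_lit 429157), .ofNat (nat_lit 539104), .ofNat (nat_lit 405982), .ofNat (nat_lit 513388), .ofNat (nat_lit 427324), .ofNat (nat_lit 534730)⟩⟩, [⟨nat_lit 0, nat_lit 100, nat_lit 97, nat_lit 54, nat_lit 216298186⟩, ⟨nat_lit 16, nat_lit 100, nat_lit 92, nat_lit 75, nat_lit 312778417⟩]⟩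
noncomputable def p048_l20 : Lf2 := ⟨nat_lit 0, nat_lit 5, [nat_lit 4, nat_lit 5, nat_lit 5, nat_lit 20], true, nat_lit 240, nat_lit 296, nat_lit 0, nat_lit 312, ⟨nat_lit 0, nat_lit 0, nat_lit 1000, nat_lit 6, nat_lit 111, nat_lit 1000, nat_lit 189, nat_lit 1000, nat_lit 11818, nat_lit 238, nat_lit 114817, nat_lit 298, nat_lit 49680054, nat_lit 0, nat_lit 0, nat_lit 3887694, false, false⟩,
 nat_lit 0, nat_lit 5588, nat_lit 0, nat_lit 1152, nat_lit 3252, nat_lit 0, nat_lit 45, nat_lit 0, nat_lit 0, nat_lit 0, nat_lit 0, nat_lit 0, nat_lit 0, nat_lit 0, nat_lit 79, nat_lit 639700, nat_lit 0, nat_lit 0, [(nat_lit 9, [(nat_lit 4, nat_lit 410), (nat_lit 5, nat_lit 88), (nat_lit 6, nat_lit 502)])],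
 ⟨p048_k10, nat_lit 0, nat_lit 0, nat_lit 0, nat_lit 0, nat_lit 135718, [nat_lit 1732999734, nat_lit 1911684267, nat_lit 1160672800, nat_lit 141976800], [], [nat_lit 15429610726, nat_lit 15924850240, nat_lit 15332788006, nat_lit 15788323086, nat_lit 18229358642, nat_lit 18802322840, nat_lit 18040577536, nat_lit 18501515715], nat_lit 1271250, nat_lit 1271250, nat_lit 230001, nat_lit 490000, nat_lit 1271250, nat_lit 1271250, [nat_lit 490000, nat_lit 1100000, nat_lit 1442500, nat_lit 1271250], [nat_lit 98, nat_lit 40, nat_lit 40, nat_lit 80]⟩, C1.Rw.none,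
 ⟨nat_lit 5700, nat_lit 5917, ⟨.ofNat (nat_lit 228543), .ofNat (nat_lit 307076), .ofNat (nat_lit 239212), .ofNat (nat_lit 317746), .ofNat (nat_lit 235806), .ofNat (nat_lit 312525), .ofNat (nat_lit 246477), .ofNat (nat_lit 323196)⟩, ⟨.ofNat (nat_lit 407818), .ofNat (nat_lit 517765), .ofNat (nat_lit 429157), .ofNat (nat_lit 539104), .ofNat (nat_lit 405982), .ofNat (nat_lit 513388), .ofNat (nat_lit 427324), .ofNat (nat_lit 534730)⟩⟩, [⟨nat_lit 16, nat_lit 100, nat_lit 92, nat_lit 75, nat_lit 317196022⟩]⟩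
noncomputable def b_V_600_600_10_56 : St := ⟨true, nat_lit 1, nat_lit 1, nat_lit 1, nat_lit 80, nat_lit 260, nat_lit 270, nat_lit 240, nat_lit 250, nat_lit 24, nat_lit 80, nat_lit 40, nat_lit 60, nat_lit 240, nat_lit 296, nat_lit 0, nat_lit 312, nat_lit 0, nat_lit 20, nat_lit 0, nat_lit 600, nat_lit 0, nat_lit 0⟩
theorem d_V_600_600_10_56 (h : EB TB.env) : Dead b_V_600_600_10_56 := chkB_sound0 h (T :=
(.spl (nat_lit 6) (nat_lit 8)
(.spl (nat_lit 2) (nat_lit 40)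
(.trX (nat_lit 23) (nat_lit 100) (nat_lit 92) (nat_lit 61) (nat_lit 288) (.spl (nat_lit 4) (nat_lit 280)
(.leaf p048_l15)
(.trX (nat_lit 23) (nat_lit 94) (nat_lit 100) (nat_lit 62) (nat_lit 248) (.spl (nat_lit 2) (nat_lit 32)
(.trX (nat_lit 23) (nat_lit 93) (nat_lit 100) (nat_lit 55) (nat_lit 236) (.leaf p048_l16))
(.leaf p048_l17)))))
(.leaf p048_l18))
(.spl (nat_lit 2) (nat_lit 40)
(.trX (nat_lit 23) (nat_lit 100) (nat_lit 92) (nat_lit 61) (nat_lit 288) (.leaf p048_l19))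
(.leaf p048_l20)))) (by decide +kernel)
noncomputable def p048_l21 : Lf2 := ⟨nat_lit 0, nat_lit 5, [nat_lit 4, nat_lit 5, nat_lit 5, nat_lit 20], true, nat_lit 240, nat_lit 296, nat_lit 0, nat_lit 304, ⟨nat_lit 0, nat_lit 950, nat_lit 50, nat_lit 6, nat_lit 102, nat_lit 1000, nat_lit 189, nat_lit 50, nat_lit 11818, nat_lit 238, nat_lit 98817, nat_lit 292, nat_lit 50211143, nat_lit 4684031, nat_lit 12104826, nat_lit 3779646, false, false⟩,
 nat_lit 0, nat_lit 1629, nat_lit 0, nat_lit 0, nat_lit 948, nat_lit 0, nat_lit 0, nat_lit 0, nat_lit 317, nat_lit 0, nat_lit 0, nat_lit 0, nat_lit 0, nat_lit 0, nat_lit 0, nat_lit 257500, nat_lit 0, nat_lit 0, [(nat_lit 9, [(nat_lit 0, nat_lit 950), (nat_lit 5, nat_lit 50)])],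
 ⟨p048_k11, nat_lit 0, nat_lit 0, nat_lit 0, nat_lit 0, nat_lit 268991, [nat_lit 2657620000, nat_lit 2470520001, nat_lit 2836640001, nat_lit 3146239999], [], [nat_lit 13903706810, nat_lit 14368090648, nat_lit 14210666992, nat_lit 14624741200, nat_lit 16458371217, nat_lit 16875187217, nat_lit 16649860935, nat_lit 17060475079], nat_lit 1271250, nat_lit 1271250, nat_lit 157850, nat_lit 356250, nat_lit 1271250, nat_lit 1271250, [nat_lit 936250, nat_lit 1100000, nat_lit 1442500, nat_lit 1271250], [nat_lit 196, nat_lit 40, nat_lit 20, nat_lit 40]⟩, C1.Rw.none,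
 ⟨nat_lit 5700, nat_lit 5917, ⟨.ofNat (nat_lit 215652), .ofNat (nat_lit 278479), .ofNat (nat_lit 226322), .ofNat (nat_lit 289149), .ofNat (nat_lit 223462), .ofNat (nat_lit 284837), .ofNat (nat_lit 234133), .ofNat (nat_lit 295508)⟩, ⟨.ofNat (nat_lit 407818), .ofNat (nat_lit 517765), .ofNat (nat_lit 429157), .ofNat (nat_lit 539104), .ofNat (nat_lit 405982), .ofNat (nat_lit 513388), .ofNat (nat_lit 427324), .ofNat (nat_lit 534730)⟩⟩, [⟨nat_lit 0, nat_lit 100, nat_lit 98, nat_lit 60, nat_lit 59870858⟩]⟩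
noncomputable def p048_l22 : Lf2 := ⟨nat_lit 0, nat_lit 2, [nat_lit 10, nat_lit 5, nat_lit 5, nat_lit 20], true, nat_lit 240, nat_lit 260, nat_lit 0, nat_lit 288, ⟨nat_lit 0, nat_lit 0, nat_lit 1000, nat_lit 6, nat_lit 95, nat_lit 1000, nat_lit 175, nat_lit 1000, nat_lit 101400, nat_lit 293, nat_lit 84017, nat_lit 286, nat_lit 52021245, nat_lit 0, nat_lit 0, nat_lit 3520574, false, false⟩,
 nat_lit 0, nat_lit 6337, nat_lit 0, nat_lit 0, nat_lit 3688, nat_lit 0, nat_lit 0, nat_lit 0, nat_lit 0, nat_lit 0, nat_lit 0, nat_lit 0, nat_lit 0, nat_lit 0, nat_lit 37, nat_lit 1000000, nat_lit 0, nat_lit 0, [(nat_lit 9, [(nat_lit 6, nat_lit 1000)])],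
 ⟨p048_k12, nat_lit 0, nat_lit 0, nat_lit 0, nat_lit 0, nat_lit 258151, [nat_lit 1478400001, nat_lit 1222400001, nat_lit 0], [], [nat_lit 15212685369, nat_lit 15751309111, nat_lit 15014628162, nat_lit 15548960930, nat_lit 16301534197, nat_lit 16977361067, nat_lit 16033767122, nat_lit 16583992244], nat_lit 1271250, nat_lit 1271250, nat_lit 157850, nat_lit 230001, nat_lit 1271250, nat_lit 1271250, [nat_lit 936250, nat_lit 1100000, nat_lit 1442500], [nat_lit 187, nat_lit 40, nat_lit 20, nat_lit 40]⟩, C1.Rw.none,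
 ⟨nat_lit 5700, nat_lit 5917, ⟨.ofNat (nat_lit 215652), .ofNat (nat_lit 239212), .ofNat (nat_lit 226322), .ofNat (nat_lit 249882), .ofNat (nat_lit 223462), .ofNat (nat_lit 246477), .ofNat (nat_lit 234133), .ofNat (nat_lit 257148)⟩, ⟨.ofNat (nat_lit 407818), .ofNat (nat_lit 447085), .ofNat (nat_lit 429157), .ofNat (nat_lit 468424), .ofNat (nat_lit 405982), .ofNat (nat_lit 444341), .ofNat (nat_lit 427324), .ofNat (nat_lit 465683)⟩⟩, [⟨nat_lit 0, nat_lit 100, nat_lit 98, nat_lit 60, nat_lit 276943225⟩]⟩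
noncomputable def p048_l23 : Lf2 := ⟨nat_lit 0, nat_lit 2, [nat_lit 10, nat_lit 5, nat_lit 5, nat_lit 20], true, nat_lit 240, nat_lit 260, nat_lit 0, nat_lit 304, ⟨nat_lit 0, nat_lit 0, nat_lit 1000, nat_lit 6, nat_lit 107, nat_lit 1000, nat_lit 175, nat_lit 1000, nat_lit 101400, nat_lit 293, nat_lit 106667, nat_lit 295, nat_lit 51196345, nat_lit 0, nat_lit 0, nat_lit 3692650, false, false⟩,
 nat_lit 0, nat_lit 6302, nat_lit 0, nat_lit 0, nat_lit 3668, nat_lit 0, nat_lit 0, nat_lit 0, nat_lit 0, nat_lit 0, nat_lit 0, nat_lit 0, nat_lit 0, nat_lit 0, nat_lit 37, nat_lit 1000000, nat_lit 0, nat_lit 0, [(nat_lit 9, [(nat_lit 6, nat_lit 1000)])],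
 ⟨p048_k12, nat_lit 0, nat_lit 0, nat_lit 0, nat_lit 0, nat_lit 258151, [nat_lit 1478400001, nat_lit 1222400001, nat_lit 0], [], [nat_lit 15049506762, nat_lit 15582646310, nat_lit 14917754834, nat_lit 15441906346, nat_lit 16066454822, nat_lit 16574928852, nat_lit 15917914146, nat_lit 16417993802], nat_lit 1271250, nat_lit 1271250, nat_lit 230001, nat_lit 356250, nat_lit 1271250, nat_lit 1271250, [nat_lit 936250, nat_lit 1100000, nat_lit 1442500], [nat_lit 187, nat_lit 40, nat_lit 20, nat_lit 40]⟩, C1.Rw.none,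
 ⟨nat_lit 5700, nat_lit 5917, ⟨.ofNat (nat_lit 239212), .ofNat (nat_lit 278479), .ofNat (nat_lit 249882), .ofNat (nat_lit 289149), .ofNat (nat_lit 246477), .ofNat (nat_lit 284837), .ofNat (nat_lit 257148), .ofNat (nat_lit 295508)⟩, ⟨.ofNat (nat_lit 407818), .ofNat (nat_lit 447085), .ofNat (nat_lit 429157), .ofNat (nat_lit 468424), .ofNat (nat_lit 405982), .ofNat (nat_lit 444341), .ofNat (nat_lit 427324), .ofNat (nat_lit 465683)⟩⟩, [⟨nat_lit 0, nat_lit 100, nat_lit 98, nat_lit 64, nat_lit 151679992⟩, ⟨nat_lit 4, nat_lit 98, nat_lit 100, nat_lit 70, nat_lit 61937273⟩]⟩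
noncomputable def p048_l24 : Lf2 := ⟨nat_lit 0, nat_lit 5, [nat_lit 4, nat_lit 5, nat_lit 5, nat_lit 20], true, nat_lit 240, nat_lit 260, nat_lit 0, nat_lit 304, ⟨nat_lit 0, nat_lit 0, nat_lit 1000, nat_lit 6, nat_lit 102, nat_lit 1000, nat_lit 175, nat_lit 1000, nat_lit 101400, nat_lit 293, nat_lit 98817, nat_lit 292, nat_lit 51510062, nat_lit 0, nat_lit 0, nat_lit 3628943, false, false⟩,
 nat_lit 0, nat_lit 6533, nat_lit 0, nat_lit 0, nat_lit 3802, nat_lit 0, nat_lit 0, nat_lit 0, nat_lit 0, nat_lit 0, nat_lit 0, nat_lit 0, nat_lit 0, nat_lit 0, nat_lit 78, nat_lit 623800, nat_lit 0, nat_lit 0, [(nat_lit 9, [(nat_lit 5, nat_lit 627), (nat_lit 6, nat_lit 373)])],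
 ⟨p048_k13, nat_lit 0, nat_lit 0, nat_lit 0, nat_lit 0, nat_lit 181091, [nat_lit 2287650400, nat_lit 1723189800, nat_lit 119946900], [], [nat_lit 15633637052, nat_lit 16100865819, nat_lit 15220484680, nat_lit 15676610558, nat_lit 16525711620, nat_lit 17049381456, nat_lit 16132756176, nat_lit 16623108032], nat_lit 1271250, nat_lit 1271250, nat_lit 157850, nat_lit 356250, nat_lit 1271250, nat_lit 1271250, [nat_lit 936250, nat_lit 1271250, nat_lit 1271250], [nat_lit 175, nat_lit 40, nat_lit 20, nat_lit 40]⟩, C1.Rw.none,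
 ⟨nat_lit 5700, nat_lit 5917, ⟨.ofNat (nat_lit 215652), .ofNat (nat_lit 278479), .ofNat (nat_lit 226322), .ofNat (nat_lit 289149), .ofNat (nat_lit 223462), .ofNat (nat_lit 284837), .ofNat (nat_lit 234133), .ofNat (nat_lit 295508)⟩, ⟨.ofNat (nat_lit 407818), .ofNat (nat_lit 447085), .ofNat (nat_lit 429157), .ofNat (nat_lit 468424), .ofNat (nat_lit 405982), .ofNat (nat_lit 444341), .ofNat (nat_lit 427324), .ofNat (nat_lit 465683)⟩⟩, [⟨nat_lit 0, nat_lit 100, nat_lit 98, nat_lit 64, nat_lit 179152460⟩, ⟨nat_lit 4, nat_lit 98, nat_lit 100, nat_lit 70, nat_lit 82834684⟩]⟩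
noncomputable def p048_l25 : Lf2 := ⟨nat_lit 0, nat_lit 2, [nat_lit 10, nat_lit 5, nat_lit 5, nat_lit 20], true, nat_lit 260, nat_lit 280, nat_lit 0, nat_lit 296, ⟨nat_lit 0, nat_lit 0, nat_lit 1000, nat_lit 6, nat_lit 101, nat_lit 1000, nat_lit 190, nat_lit 1000, nat_lit 28439, nat_lit 256, nat_lit 96267, nat_lit 291, nat_lit 50133977, nat_lit 0, nat_lit 0, nat_lit 3781178, false, false⟩,
 nat_lit 0, nat_lit 4990, nat_lit 0, nat_lit 0, nat_lit 2904, nat_lit 0, nat_lit 0, nat_lit 0, nat_lit 0, nat_lit 0, nat_lit 0, nat_lit 0, nat_lit 0, nat_lit 0, nat_lit 37, nat_lit 1000000, nat_lit 0, nat_lit 0, [(nat_lit 9, [(nat_lit 6, nat_lit 1000)])],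
 ⟨p048_k14, nat_lit 0, nat_lit 0, nat_lit 0, nat_lit 0, nat_lit 236112, [nat_lit 976600001, nat_lit 1450400000, nat_lit 611200001, nat_lit 0], [], [nat_lit 16384274097, nat_lit 16898172136, nat_lit 16154040810, nat_lit 16633826510, nat_lit 17412070174, nat_lit 17922112063, nat_lit 17113612210, nat_lit 17615439064], nat_lit 1271250, nat_lit 1271250, nat_lit 157850, nat_lit 356250, nat_lit 1271250, nat_lit 1271250, [nat_lit 490000, nat_lit 936250, nat_lit 1271250, nat_lit 1271250], [nat_lit 179, nat_lit 40, nat_lit 20, nat_lit 40]⟩, C1.Rw.none,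
 ⟨nat_lit 5700, nat_lit 5917, ⟨.ofNat (nat_lit 215652), .ofNat (nat_lit 278479), .ofNat (nat_lit 220987), .ofNat (nat_lit 283814), .ofNat (nat_lit 223462), .ofNat (nat_lit 284837), .ofNat (nat_lit 228797), .ofNat (nat_lit 290172)⟩, ⟨.ofNat (nat_lit 447085), .ofNat (nat_lit 486351), .ofNat (nat_lit 468424), .ofNat (nat_lit 507691), .ofNat (nat_lit 444341), .ofNat (nat_lit 482701), .ofNat (nat_lit 465683), .ofNat (nat_lit 504043)⟩⟩, [⟨nat_lit 0, nat_lit 100, nat_lit 98, nat_lit 58, nat_lit 163354602⟩, ⟨nat_lit 4, nat_lit 98, nat_lit 100, nat_lit 70, nat_lit 240913886⟩]⟩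
noncomputable def p048_l26 : Lf2 := ⟨nat_lit 0, nat_lit 2, [nat_lit 10, nat_lit 5, nat_lit 5, nat_lit 20], false, nat_lit 260, nat_lit 280, nat_lit 0, nat_lit 160, ⟨nat_lit 1000, nat_lit 0, nat_lit 0, nat_lit 0, nat_lit 0, nat_lit 0, nat_lit 0, nat_lit 0, nat_lit 0, nat_lit 0, nat_lit 0, nat_lit 0, nat_lit 0, nat_lit 0, nat_lit 0, nat_lit 0, false, false⟩,
 nat_lit 20705, nat_lit 0, nat_lit 0, nat_lit 0, nat_lit 9276, nat_lit 11776, nat_lit 0, nat_lit 0, nat_lit 0, nat_lit 4947, nat_lit 0, nat_lit 0, nat_lit 0, nat_lit 0, nat_lit 0, nat_lit 0, nat_lit 0, nat_lit 0, [],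
 ⟨p048_k15, nat_lit 0, nat_lit 0, nat_lit 0, nat_lit 0, nat_lit 233686, [nat_lit 4688000000, nat_lit 6250000000], [], [nat_lit 19882151229, nat_lit 20317808843, nat_lit 18085465155, nat_lit 18511177525, nat_lit 21802221304, nat_lit 22330096515, nat_lit 19924153370, nat_lit 20321498706], nat_lit 1271250, nat_lit 1271250, nat_lit 181601, nat_lit 356250, nat_lit 1271250, nat_lit 1271250, [nat_lit 1100000, nat_lit 1442500], [nat_lit 31, nat_lit 40, nat_lit 40, nat_lit 80]⟩, ⟨p048_k16, nat_lit 0, nat_lit 0, nat_lit 0, nat_lit 0, nat_lit 240057, [nat_lit 4688000000, nat_lit 6250000000, nat_lit 7968000000], [], [nat_lit 23699702586, nat_lit 23740900714, nat_lit 18498705644, nat_lit 19512800928, nat_lit 17700827360, nat_lit 16290586592, nat_lit 18759722444, nat_lit 17362950476], nat_lit 1271250, nat_lit 1271250, nat_lit 181601, nat_lit 356250, nat_lit 0, nat_lit 1100001, [nat_lit 1100000, nat_lit 1442500, nat_lit 1271250], [nat_lit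 9, nat_lit 40, nat_lit 40, nat_lit 80]⟩,
 zbF0, [⟨nat_lit 0, nat_lit 100, nat_lit 99, nat_lit 57, nat_lit 1089972642⟩, ⟨nat_lit 4, nat_lit 97, nat_lit 100, nat_lit 70, nat_lit 1027487789⟩]⟩
noncomputable def p048_l27 : Lf2 := ⟨nat_lit 0, nat_lit 2, [nat_lit 10, nat_lit 5, nat_lit 5, nat_lit 20], false, nat_lit 260, nat_lit 280, nat_lit 160, nat_lit 240, ⟨nat_lit 1000, nat_lit 0, nat_lit 0, nat_lit 0, nat_lit 0, nat_lit 0, nat_lit 0, nat_lit 0, nat_lit 0, nat_lit 0, nat_lit 0, nat_lit 0, nat_lit 0, nat_lit 0, nat_lit 0, nat_lit 0, false, false⟩,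
 nat_lit 19640, nat_lit 0, nat_lit 0, nat_lit 0, nat_lit 8204, nat_lit 11170, nat_lit 1430, nat_lit 0, nat_lit 0, nat_lit 3244, nat_lit 0, nat_lit 0, nat_lit 0, nat_lit 0, nat_lit 0, nat_lit 0, nat_lit 0, nat_lit 0, [],
 ⟨p048_k15, nat_lit 0, nat_lit 0, nat_lit 0, nat_lit 0, nat_lit 233686, [nat_lit 4688000000, nat_lit 6250000000], [], [nat_lit 19290688554, nat_lit 19694627537, nat_lit 17826117579, nat_lit 18152729554, nat_lit 21031627831, nat_lit 21517974506, nat_lit 19458648980, nat_lit 19828027310], nat_lit 1271250, nat_lit 1271250, nat_lit 181601, nat_lit 356250, nat_lit 1271250, nat_lit 1271250, [nat_lit 1100000, nat_lit 1442500], [nat_lit 31, nat_lit 40, nat_lit 40, nat_lit 80]⟩, ⟨p048_k16, nat_lit 0, nat_lit 0, nat_lit 0, nat_lit 0, nat_lit 240057, [nat_lit 4688000000, nat_lit 6250000000, nat_lit 7968000000], [], [nat_lit 20521650209, nat_lit 19084624124, nat_lit 12508281598, nat_lit 11086030630, nat_lit 16871407931,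 nat_lit 17564851461, nat_lit 14083896240, nat_lit 14764162440], nat_lit 1271250, nat_lit 1271250, nat_lit 181601, nat_lit 356250, nat_lit 1100001, nat_lit 1785000, [nat_lit 1100000, nat_lit 1442500, nat_lit 1271250], [nat_lit 9, nat_lit 40, nat_lit 40, nat_lit 80]⟩,
 zbF0, [⟨nat_lit 0, nat_lit 100, nat_lit 99, nat_lit 57, nat_lit 1483593985⟩, ⟨nat_lit 4, nat_lit 97, nat_lit 100, nat_lit 70, nat_lit 963414540⟩]⟩
noncomputable def p048_l28 : Lf2 := ⟨nat_lit 0, nat_lit 2, [nat_lit 10, nat_lit 5, nat_lit 5, nat_lit 20], false, nat_lit 260, nat_lit 280, nat_lit 240, nat_lit 296, ⟨nat_lit 1000, nat_lit 0, nat_lit 0, nat_lit 0, nat_lit 0, nat_lit 0, nat_lit 0, nat_lit 0, nat_lit 0, nat_lit 0, nat_lit 0, nat_lit 0, nat_lit 0, nat_lit 0, nat_lit 0, nat_lit 0, false, false⟩,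
 nat_lit 15187, nat_lit 0, nat_lit 0, nat_lit 0, nat_lit 8840, nat_lit 8637, nat_lit 414, nat_lit 0, nat_lit 0, nat_lit 3128, nat_lit 0, nat_lit 0, nat_lit 0, nat_lit 0, nat_lit 0, nat_lit 0, nat_lit 0, nat_lit 0, [],
 ⟨p048_k15, nat_lit 0, nat_lit 0, nat_lit 0, nat_lit 0, nat_lit 233686, [nat_lit 4688000000, nat_lit 6250000000], [], [nat_lit 19780391107, nat_lit 20203148233, nat_lit 18091013200, nat_lit 18504188308, nat_lit 21605529851, nat_lit 22000209243, nat_lit 19873622550, nat_lit 20259593245], nat_lit 1271250, nat_lit 1271250, nat_lit 181601, nat_lit 356250, nat_lit 1271250, nat_lit 1271250, [nat_lit 1100000, nat_lit 1442500], [nat_lit 31, nat_lit 40, nat_lit 40, nat_lit 80]⟩, ⟨p048_k17, nat_lit 0, nat_lit 0, nat_lit 0, nat_lit 0, nat_lit 240057, [nat_lit 4688000000, nat_lit 7968000000], [], [nat_lit 18273222884, nat_lit 18671597739, nat_lit 16639154324, nat_lit 17028532229, nat_lit 22882041384, nat_lit 23211024576,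 nat_lit 21142719046, nat_lit 21464798547], nat_lit 1271250, nat_lit 1271250, nat_lit 181601, nat_lit 356250, nat_lit 1271250, nat_lit 1271250, [nat_lit 1100000, nat_lit 1785000], [nat_lit 39, nat_lit 40, nat_lit 40, nat_lit 80]⟩,
 zbF0, [⟨nat_lit 0, nat_lit 100, nat_lit 99, nat_lit 62, nat_lit 354760937⟩, ⟨nat_lit 4, nat_lit 97, nat_lit 100, nat_lit 70, nat_lit 64162282⟩, ⟨nat_lit 11, nat_lit 100, nat_lit 100, nat_lit 68, nat_lit 946304532⟩]⟩
noncomputable def p048_l29 : Lf2 := ⟨nat_lit 0, nat_lit 1, [nat_lit 19, nat_lit 5, nat_lit 5, nat_lit 20], true, nat_lit 260, nat_lit 280, nat_lit 0, nat_lit 296, ⟨nat_lit 0, nat_lit 0, nat_lit 1000, nat_lit 6, nat_lit 107, nat_lit 1000, nat_lit 190, nat_lit 1000, nat_lit 33895, nat_lit 258, nat_lit 106667, nat_lit 295, nat_lit 49781614, nat_lit 0, nat_lit 0, nat_lit 3856993, false, false⟩,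
 nat_lit 0, nat_lit 4645, nat_lit 0, nat_lit 0, nat_lit 2766, nat_lit 0, nat_lit 215, nat_lit 0, nat_lit 0, nat_lit 0, nat_lit 0, nat_lit 0, nat_lit 0, nat_lit 0, nat_lit 2, nat_lit 924400, nat_lit 0, nat_lit 0, [(nat_lit 9, [(nat_lit 5, nat_lit 126), (nat_lit 6, nat_lit 874)])],
 ⟨p048_k18, nat_lit 0, nat_lit 0, nat_lit 0, nat_lit 0, nat_lit 247944, [nat_lit 718952401, nat_lit 942004000, nat_lit 11188000], [], [nat_lit 16593652041, nat_lit 16845123389, nat_lit 16492514191, nat_lit 16727431853, nat_lit 17587842726, nat_lit 17842120182, nat_lit 17438412983, nat_lit 17688462406], nat_lit 1271250, nat_lit 1271250, nat_lit 205650, nat_lit 356250, nat_lit 1271250, nat_lit 1271250, [nat_lit 490000, nat_lit 936250, nat_lit 1271250], [nat_lit 178, nat_lit 40, nat_lit 20, nat_lit 40]⟩, C1.Rw.none,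
 ⟨nat_lit 5700, nat_lit 5810, ⟨.ofNat (nat_lit 240429), .ofNat (nat_lit 287002), .ofNat (nat_lit 245764), .ofNat (nat_lit 292337), .ofNat (nat_lit 244141), .ofNat (nat_lit 290172), .ofNat (nat_lit 249476), .ofNat (nat_lit 295508)⟩, ⟨.ofNat (nat_lit 445719), .ofNat (nat_lit 484530), .ofNat (nat_lit 467058), .ofNat (nat_lit 505870), .ofNat (nat_lit 444341), .ofNat (nat_lit 482701), .ofNat (nat_lit 465683), .ofNat (nat_lit 504043)⟩⟩, [⟨nat_lit 0, nat_lit 100, nat_lit 98, nat_lit 62, nat_lit 147033046⟩, ⟨nat_lit 4, nat_lit 99, nat_lit 100, nat_lit 70, nat_lit 214334826⟩]⟩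
noncomputable def p048_l30 : Lf2 := ⟨nat_lit 0, nat_lit 2, [nat_lit 10, nat_lit 5, nat_lit 5, nat_lit 20], true, nat_lit 260, nat_lit 280, nat_lit 0, nat_lit 296, ⟨nat_lit 0, nat_lit 0, nat_lit 1000, nat_lit 6, nat_lit 107, nat_lit 1000, nat_lit 190, nat_lit 1000, nat_lit 33895, nat_lit 258, nat_lit 106667, nat_lit 295, nat_lit 49781614, nat_lit 0, nat_lit 0, nat_lit 3856993, false, false⟩,
 nat_lit 0, nat_lit 5445, nat_lit 0, nat_lit 0, nat_lit 3242, nat_lit 0, nat_lit 0, nat_lit 0, nat_lit 0, nat_lit 0, nat_lit 0, nat_lit 0, nat_lit 0, nat_lit 0, nat_lit 31, nat_lit 863575, nat_lit 0, nat_lit 0, [(nat_lit 9, [(nat_lit 3, nat_lit 15), (nat_lit 5, nat_lit 207), (nat_lit 6, nat_lit 778)])],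
 ⟨p048_k19, nat_lit 0, nat_lit 0, nat_lit 0, nat_lit 0, nat_lit 205956, [nat_lit 1303136801, nat_lit 1333214000, nat_lit 557314001, nat_lit 1339200], [], [nat_lit 16402255068, nat_lit 16659348092, nat_lit 16184143557, nat_lit 16424043690, nat_lit 17418354939, nat_lit 17719345507, nat_lit 17166602022, nat_lit 17415888551], nat_lit 1271250, nat_lit 1271250, nat_lit 205650, nat_lit 356250, nat_lit 1271250, nat_lit 1271250, [nat_lit 490000, nat_lit 936250, nat_lit 1271250, nat_lit 1271250], [nat_lit 179, nat_lit 40, nat_lit 20, nat_lit 40]⟩, C1.Rw.none,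
 ⟨nat_lit 5700, nat_lit 5810, ⟨.ofNat (nat_lit 240429), .ofNat (nat_lit 287002), .ofNat (nat_lit 245764), .ofNat (nat_lit 292337), .ofNat (nat_lit 244141), .ofNat (nat_lit 290172), .ofNat (nat_lit 249476), .ofNat (nat_lit 295508)⟩, ⟨.ofNat (nat_lit 445719), .ofNat (nat_lit 484530), .ofNat (nat_lit 467058), .ofNat (nat_lit 505870), .ofNat (nat_lit 444341), .ofNat (nat_lit 482701), .ofNat (nat_lit 465683), .ofNat (nat_lit 504043)⟩⟩, [⟨nat_lit 0, nat_lit 100, nat_lit 98, nat_lit 62, nat_lit 168770373⟩, ⟨nat_lit 4, nat_lit 99, nat_lit 100, nat_lit 70, nat_lit 267409226⟩]⟩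
noncomputable def p048_l31 : Lf2 := ⟨nat_lit 0, nat_lit 4, [nat_lit 38, nat_lit 5, nat_lit 5, nat_lit 20], false, nat_lit 260, nat_lit 280, nat_lit 0, nat_lit 160, ⟨nat_lit 1000, nat_lit 0, nat_lit 0, nat_lit 0, nat_lit 0, nat_lit 0, nat_lit 0, nat_lit 0, nat_lit 0, nat_lit 0, nat_lit 0, nat_lit 0, nat_lit 0, nat_lit 0, nat_lit 0, nat_lit 0, false, false⟩,
 nat_lit 19201, nat_lit 0, nat_lit 0, nat_lit 0, nat_lit 9345, nat_lit 10667, nat_lit 1062, nat_lit 0, nat_lit 0, nat_lit 1494, nat_lit 0, nat_lit 0, nat_lit 0, nat_lit 0, nat_lit 0, nat_lit 0, nat_lit 0, nat_lit 0, [],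
 ⟨p048_k20, nat_lit 0, nat_lit 0, nat_lit 0, nat_lit 0, nat_lit 176214, [nat_lit 2032000001, nat_lit 3965500000, nat_lit 5449500000, nat_lit 7089500000], [], [nat_lit 20030258818, nat_lit 20864958114, nat_lit 19036161615, nat_lit 19864822638, nat_lit 21699657410, nat_lit 22766118563, nat_lit 20693483660, nat_lit 21476396380], nat_lit 1271250, nat_lit 1271250, nat_lit 157850, nat_lit 230001, nat_lit 1271250, nat_lit 1271250, [nat_lit 490000, nat_lit 936250, nat_lit 1271250, nat_lit 1271250], [nat_lit 189, nat_lit 40, nat_lit 20, nat_lit 40]⟩, ⟨p048_k21, nat_lit 0, nat_lit 0, nat_lit 0, nat_lit 0, nat_lit 186173, [nat_lit 2032000000, nat_lit 4688000000, nat_lit 6250000000, nat_lit 7968000000], [], [nat_lit 21248080685, nat_lit 22594845556, nat_lit 19787705067, nat_lit 21127084158, nat_lit 15141075958, nat_lit 14644411646, nat_lit 15341329463, nat_lit 13689816598], nat_lit 1271250, nat_lit 1271250, nat_lit 157850, nat_lit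 230001, nat_lit 0, nat_lit 1100001, [nat_lit 490000, nat_lit 1100000, nat_lit 1442500, nat_lit 1271250], [nat_lit 98, nat_lit 40, nat_lit 20, nat_lit 40]⟩,
 zbF0, [⟨nat_lit 0, nat_lit 100, nat_lit 99, nat_lit 55, nat_lit 1770501226⟩, ⟨nat_lit 16, nat_lit 100, nat_lit 98, nat_lit 70, nat_lit 933539615⟩]⟩
noncomputable def p048_l32 : Lf2 := ⟨nat_lit 0, nat_lit 4, [nat_lit 38, nat_lit 5, nat_lit 5, nat_lit 20], false, nat_lit 260, nat_lit 280, nat_lit 160, nat_lit 268, ⟨nat_lit 1000, nat_lit 0, nat_lit 0, nat_lit 0, nat_lit 0, nat_lit 0, nat_lit 0, nat_lit 0, nat_lit 0, nat_lit 0, nat_lit 0, nat_lit 0, nat_lit 0, nat_lit 0, nat_lit 0, nat_lit 0, false, false⟩,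
 nat_lit 17033, nat_lit 0, nat_lit 0, nat_lit 0, nat_lit 9914, nat_lit 9462, nat_lit 1103, nat_lit 0, nat_lit 0, nat_lit 2165, nat_lit 0, nat_lit 0, nat_lit 0, nat_lit 0, nat_lit 0, nat_lit 0, nat_lit 0, nat_lit 0, [],
 ⟨p048_k20, nat_lit 0, nat_lit 0, nat_lit 0, nat_lit 0, nat_lit 176214, [nat_lit 2032000001, nat_lit 3965500000, nat_lit 5449500000, nat_lit 7089500000], [], [nat_lit 19716144051, nat_lit 20910685130, nat_lit 18618459363, nat_lit 19542434907, nat_lit 22105226208, nat_lit 23216163195, nat_lit 20731063464, nat_lit 21836917056], nat_lit 1271250, nat_lit 1271250, nat_lit 157850, nat_lit 230001, nat_lit 1271250, nat_lit 1271250, [nat_lit 490000, nat_lit 936250, nat_lit 1271250, nat_lit 1271250], [nat_lit 189, nat_lit 40, nat_lit 20, nat_lit 40]⟩, ⟨p048_k21, nat_lit 0, nat_lit 0, nat_lit 0, nat_lit 0, nat_lit 186173, [nat_lit 2032000000, nat_lit 4688000000, nat_lit 6250000000, nat_lit 7968000000], [], [nat_lit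 12678935077, nat_lit 13715870631, nat_lit 11693350040, nat_lit 12722322744, nat_lit 19347265619, nat_lit 20393753992, nat_lit 18331607023, nat_lit 19098406329], nat_lit 1271250, nat_lit 1271250, nat_lit 157850, nat_lit 230001, nat_lit 1100001, nat_lit 2024750, [nat_lit 490000, nat_lit 1100000, nat_lit 1442500, nat_lit 1271250], [nat_lit 98, nat_lit 40, nat_lit 20, nat_lit 40]⟩,
 zbF0, [⟨nat_lit 0, nat_lit 100, nat_lit 98, nat_lit 60, nat_lit 1048395632⟩, ⟨nat_lit 4, nat_lit 98, nat_lit 100, nat_lit 70, nat_lit 444031439⟩, ⟨nat_lit 23, nat_lit 100, nat_lit 99, nat_lit 63, nat_lit 804806855⟩]⟩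
noncomputable def p048_l33 : Lf2 := ⟨nat_lit 0, nat_lit 4, [nat_lit 38, nat_lit 5, nat_lit 5, nat_lit 20], true, nat_lit 260, nat_lit 280, nat_lit 0, nat_lit 296, ⟨nat_lit 0, nat_lit 0, nat_lit 1000, nat_lit 6, nat_lit 107, nat_lit 1000, nat_lit 190, nat_lit 1000, nat_lit 28439, nat_lit 256, nat_lit 106667, nat_lit 295, nat_lit 49765514, nat_lit 0, nat_lit 0, nat_lit 3857473, false, false⟩,
 nat_lit 0, nat_lit 6068, nat_lit 0, nat_lit 0, nat_lit 3532, nat_lit 0, nat_lit 0, nat_lit 0, nat_lit 0, nat_lit 0, nat_lit 0, nat_lit 0, nat_lit 0, nat_lit 0, nat_lit 51, nat_lit 649000, nat_lit 0, nat_lit 0, [(nat_lit 9, [(nat_lit 5, nat_lit 585), (nat_lit 6, nat_lit 415)])],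
 ⟨p048_k20, nat_lit 0, nat_lit 0, nat_lit 0, nat_lit 0, nat_lit 176214, [nat_lit 1192379001, nat_lit 1560990001, nat_lit 1164086000, nat_lit 20226000], [], [nat_lit 16151272644, nat_lit 16660622670, nat_lit 15932529812, nat_lit 16434345882, nat_lit 17169972696, nat_lit 17793256328, nat_lit 16949669032, nat_lit 17464525300], nat_lit 1271250, nat_lit 1271250, nat_lit 230001, nat_lit 356250, nat_lit 1271250, nat_lit 1271250, [nat_lit 490000, nat_lit 936250, nat_lit 1271250, nat_lit 1271250], [nat_lit 189, nat_lit 40, nat_lit 20, nat_lit 40]⟩, C1.Rw.none,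
 ⟨nat_lit 5700, nat_lit 5917, ⟨.ofNat (nat_lit 239212), .ofNat (nat_lit 278479), .ofNat (nat_lit 249882), .ofNat (nat_lit 289149), .ofNat (nat_lit 246477), .ofNat (nat_lit 284837), .ofNat (nat_lit 257148), .ofNat (nat_lit 295508)⟩, ⟨.ofNat (nat_lit 447085), .ofNat (nat_lit 486351), .ofNat (nat_lit 468424), .ofNat (nat_lit 507691), .ofNat (nat_lit 444341), .ofNat (nat_lit 482701), .ofNat (nat_lit 465683), .ofNat (nat_lit 504043)⟩⟩, [⟨nat_lit 4, nat_lit 98, nat_lit 100, nat_lit 70, nat_lit 308946322⟩]⟩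
noncomputable def p048_l34 : Lf2 := ⟨nat_lit 0, nat_lit 5, [nat_lit 4, nat_lit 5, nat_lit 5, nat_lit 20], true, nat_lit 260, nat_lit 280, nat_lit 0, nat_lit 296, ⟨nat_lit 0, nat_lit 0, nat_lit 1000, nat_lit 6, nat_lit 102, nat_lit 1000, nat_lit 190, nat_lit 1000, nat_lit 28439, nat_lit 256, nat_lit 98817, nat_lit 292, nat_lit 50065839, nat_lit 0, nat_lit 0, nat_lit 3795518, false, false⟩,
 nat_lit 0, nat_lit 6226, nat_lit 0, nat_lit 0, nat_lit 3624, nat_lit 0, nat_lit 308, nat_lit 0, nat_lit 0, nat_lit 0, nat_lit 0, nat_lit 0, nat_lit 0, nat_lit 0, nat_lit 42, nat_lit 280000, nat_lit 0, nat_lit 0, [(nat_lit 9, [(nat_lit 4, nat_lit 800), (nat_lit 5, nat_lit 200)])],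
 ⟨p048_k9, nat_lit 0, nat_lit 0, nat_lit 0, nat_lit 0, nat_lit 106825, [nat_lit 1747920001, nat_lit 1345280000, nat_lit 1108760000, nat_lit 61340000], [], [nat_lit 16617771935, nat_lit 17113296519, nat_lit 16147077337, nat_lit 16608008913, nat_lit 17608821103, nat_lit 18241153111, nat_lit 17068940489, nat_lit 17561290097], nat_lit 1271250, nat_lit 1271250, nat_lit 157850, nat_lit 356250, nat_lit 1271250, nat_lit 1271250, [nat_lit 490000, nat_lit 936250, nat_lit 1271250, nat_lit 1271250], [nat_lit 138, nat_lit 40, nat_lit 20, nat_lit 40]⟩, C1.Rw.none,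
 ⟨nat_lit 5700, nat_lit 5917, ⟨.ofNat (nat_lit 215652), .ofNat (nat_lit 278479), .ofNat (nat_lit 226322), .ofNat (nat_lit 289149), .ofNat (nat_lit 223462), .ofNat (nat_lit 284837), .ofNat (nat_lit 234133), .ofNat (nat_lit 295508)⟩, ⟨.ofNat (nat_lit 447085), .ofNat (nat_lit 486351), .ofNat (nat_lit 468424), .ofNat (nat_lit 507691), .ofNat (nat_lit 444341), .ofNat (nat_lit 482701), .ofNat (nat_lit 465683), .ofNat (nat_lit 504043)⟩⟩, [⟨nat_lit 0, nat_lit 100, nat_lit 98, nat_lit 60, nat_lit 202603589⟩, ⟨nat_lit 16, nat_lit 100, nat_lit 98, nat_lit 70, nat_lit 247017556⟩]⟩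
noncomputable def p048_l35 : Lf2 := ⟨nat_lit 0, nat_lit 2, [nat_lit 10, nat_lit 5, nat_lit 5, nat_lit 20], false, nat_lit 280, nat_lit 296, nat_lit 0, nat_lit 160, ⟨nat_lit 411, nat_lit 0, nat_lit 589, nat_lit 6, nat_lit 101, nat_lit 589, nat_lit 204, nat_lit 589, nat_lit 11818, nat_lit 238, nat_lit 96267, nat_lit 291, nat_lit 48817391, nat_lit 0, nat_lit 0, nat_lit 3916441, false, false⟩,
 nat_lit 10674, nat_lit 0, nat_lit 0, nat_lit 0, nat_lit 4924, nat_lit 5929, nat_lit 579, nat_lit 0, nat_lit 0, nat_lit 906, nat_lit 0, nat_lit 0, nat_lit 0, nat_lit 0, nat_lit 0, nat_lit 589000, nat_lit 0, nat_lit 0, [(nat_lit 9, [(nat_lit 6, nat_lit 589)])],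
 ⟨p048_k7, nat_lit 0, nat_lit 0, nat_lit 0, nat_lit 0, nat_lit 236112, [nat_lit 2195496101, nat_lit 2207467301, nat_lit 2132890000], [], [nat_lit 18831489818, nat_lit 19413914766, nat_lit 18130360858, nat_lit 18648238394, nat_lit 19945321945, nat_lit 20639130597, nat_lit 19111213566, nat_lit 19605441049], nat_lit 1271250, nat_lit 1271250, nat_lit 157850, nat_lit 356250, nat_lit 1271250, nat_lit 1271250, [nat_lit 936250, nat_lit 1271250, nat_lit 1271250], [nat_lit 185, nat_lit 40, nat_lit 20, nat_lit 40]⟩, ⟨p048_k22, nat_lit 0, nat_lit 0, nat_lit 0, nat_lit 0, nat_lit 249290, [nat_lit 1926768000, nat_lit 2568750000, nat_lit 2913784500], [], [nat_lit 11176407448, nat_lit 11001627397, nat_lit 7890232075, nat_lit 8381533207, nat_lit 8090676136, nat_lit 7379677571, nat_lit 8578820087, nat_lit 7875602149], nat_lit 1271250, nat_lit 1271250, nat_lit 157850, nat_lit 356250, nat_lit 0, nat_lit 1100001, [nat_lit 1100000, nat_lit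 1442500, nat_lit 1271250], [nat_lit 176, nat_lit 40, nat_lit 20, nat_lit 40]⟩,
 ⟨nat_lit 5700, nat_lit 5917, ⟨.ofNat (nat_lit 215652), .ofNat (nat_lit 278479), .ofNat (nat_lit 220987), .ofNat (nat_lit 283814), .ofNat (nat_lit 223462), .ofNat (nat_lit 284837), .ofNat (nat_lit 228797), .ofNat (nat_lit 290172)⟩, ⟨.ofNat (nat_lit 486351), .ofNat (nat_lit 517765), .ofNat (nat_lit 507691), .ofNat (nat_lit 539104), .ofNat (nat_lit 482701), .ofNat (nat_lit 513388), .ofNat (nat_lit 504043), .ofNat (nat_lit 534730)⟩⟩, [⟨nat_lit 0, nat_lit 100, nat_lit 99, nat_lit 55, nat_lit 583587728⟩, ⟨nat_lit 16, nat_lit 100, nat_lit 92, nat_lit 75, nat_lit 593080618⟩]⟩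
noncomputable def p048_l36 : Lf2 := ⟨nat_lit 0, nat_lit 2, [nat_lit 10, nat_lit 5, nat_lit 5, nat_lit 20], false, nat_lit 280, nat_lit 296, nat_lit 160, nat_lit 248, ⟨nat_lit 468, nat_lit 0, nat_lit 532, nat_lit 6, nat_lit 94, nat_lit 532, nat_lit 204, nat_lit 532, nat_lit 11818, nat_lit 238, nat_lit 81667, nat_lit 285, nat_lit 49284664, nat_lit 0, nat_lit 0, nat_lit 3813081, false, false⟩,
 nat_lit 11892, nat_lit 0, nat_lit 0, nat_lit 0, nat_lit 4680, nat_lit 6606, nat_lit 1927, nat_lit 0, nat_lit 0, nat_lit 259, nat_lit 0, nat_lit 0, nat_lit 0, nat_lit 0, nat_lit 0, nat_lit 133000, nat_lit 0, nat_lit 0, [(nat_lit 9, [(nat_lit 4, nat_lit 532)])],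
 ⟨p048_k23, nat_lit 0, nat_lit 0, nat_lit 0, nat_lit 0, nat_lit 236112, [nat_lit 1775788801, nat_lit 2490840001, nat_lit 2886483200], [], [nat_lit 18926969517, nat_lit 19538677319, nat_lit 18363122085, nat_lit 18969256841, nat_lit 20027557775, nat_lit 20701622165, nat_lit 19455171698, nat_lit 20035379689], nat_lit 1271250, nat_lit 1271250, nat_lit 157850, nat_lit 230001, nat_lit 1271250, nat_lit 1271250, [nat_lit 490000, nat_lit 1100000, nat_lit 1442500], [nat_lit 6, nat_lit 40, nat_lit 40, nat_lit 80]⟩, ⟨p048_k24, nat_lit 0, nat_lit 0, nat_lit 0, nat_lit 0, nat_lit 249290, [nat_lit 950976000, nat_lit 2193984000, nat_lit 2925000000, nat_lit 3729024000], [], [nat_lit 10934309123, nat_lit 10083168962, nat_lit 8877803190, nat_lit 8030487903, nat_lit 8972165359, nat_lit 9348316410, nat_lit 7919083630, nat_lit 8171327720], nat_lit 1271250, nat_lit 1271250, nat_lit 157850, nat_lit 230001, nat_lit 1100001, nat_lit 1853500, [nat_lit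 490000, nat_lit 1100000, nat_lit 1442500, nat_lit 1271250], [nat_lit 98, nat_lit 40, nat_lit 40, nat_lit 80]⟩,
 ⟨nat_lit 5700, nat_lit 5917, ⟨.ofNat (nat_lit 215652), .ofNat (nat_lit 239212), .ofNat (nat_lit 220987), .ofNat (nat_lit 244547), .ofNat (nat_lit 223462), .ofNat (nat_lit 246477), .ofNat (nat_lit 228797), .ofNat (nat_lit 251813)⟩, ⟨.ofNat (nat_lit 486351), .ofNat (nat_lit 517765), .ofNat (nat_lit 507691), .ofNat (nat_lit 539104), .ofNat (nat_lit 482701), .ofNat (nat_lit 513388), .ofNat (nat_lit 504043), .ofNat (nat_lit 534730)⟩⟩, [⟨nat_lit 0, nat_lit 100, nat_lit 99, nat_lit 55, nat_lit 1137294621⟩, ⟨nat_lit 16, nat_lit 100, nat_lit 92, nat_lit 75, nat_lit 143236721⟩, ⟨nat_lit 4, nat_lit 98, nat_lit 100, nat_lit 70, nat_lit 497595515⟩]⟩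
noncomputable def p048_l37 : Lf2 := ⟨nat_lit 0, nat_lit 2, [nat_lit 10, nat_lit 5, nat_lit 5, nat_lit 20], false, nat_lit 280, nat_lit 296, nat_lit 160, nat_lit 276, ⟨nat_lit 1000, nat_lit 0, nat_lit 0, nat_lit 0, nat_lit 0, nat_lit 0, nat_lit 0, nat_lit 0, nat_lit 0, nat_lit 0, nat_lit 0, nat_lit 0, nat_lit 0, nat_lit 0, nat_lit 0, nat_lit 0, false, false⟩,
 nat_lit 16612, nat_lit 0, nat_lit 0, nat_lit 0, nat_lit 8029, nat_lit 9228, nat_lit 1646, nat_lit 0, nat_lit 0, nat_lit 2180, nat_lit 0, nat_lit 0, nat_lit 0, nat_lit 0, nat_lit 0, nat_lit 0, nat_lit 0, nat_lit 0, [],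
 ⟨p048_k23, nat_lit 0, nat_lit 0, nat_lit 0, nat_lit 0, nat_lit 236112, [nat_lit 2032000001, nat_lit 4688000000, nat_lit 6250000000], [], [nat_lit 20205745328, nat_lit 20949570872, nat_lit 19397101418, nat_lit 20126727058, nat_lit 21763338401, nat_lit 22668084294, nat_lit 20739739431, nat_lit 21582476661], nat_lit 1271250, nat_lit 1271250, nat_lit 230001, nat_lit 356250, nat_lit 1271250, nat_lit 1271250, [nat_lit 490000, nat_lit 1100000, nat_lit 1442500], [nat_lit 6, nat_lit 40, nat_lit 40, nat_lit 80]⟩, ⟨p048_k24, nat_lit 0, nat_lit 0, nat_lit 0, nat_lit 0, nat_lit 249290, [nat_lit 2032000000, nat_lit 4688000000, nat_lit 6250000000, nat_lit 7968000000], [], [nat_lit 22363640612, nat_lit 21180015806, nat_lit 17646430046, nat_lit 16471449569, nat_lit 19372144995, nat_lit 19679989453, nat_lit 18538712105, nat_lit 18839820156], nat_lit 1271250, nat_lit 1271250, nat_lit 230001, nat_lit 356250, nat_lit 1100001, nat_lit 2093250,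 [nat_lit 490000, nat_lit 1100000, nat_lit 1442500, nat_lit 1271250], [nat_lit 98, nat_lit 40, nat_lit 40, nat_lit 80]⟩,
 zbF0, [⟨nat_lit 16, nat_lit 100, nat_lit 98, nat_lit 70, nat_lit 274940659⟩, ⟨nat_lit 16, nat_lit 100, nat_lit 92, nat_lit 75, nat_lit 642131812⟩, ⟨nat_lit 23, nat_lit 93, nat_lit 100, nat_lit 69, nat_lit 161047145⟩]⟩
noncomputable def p048_l38 : Lf2 := ⟨nat_lit 0, nat_lit 5, [nat_lit 4, nat_lit 5, nat_lit 5, nat_lit 20], false, nat_lit 280, nat_lit 296, nat_lit 0, nat_lit 248, ⟨nat_lit 1000, nat_lit 0, nat_lit 0, nat_lit 0, nat_lit 0, nat_lit 0, nat_lit 0, nat_lit 0, nat_lit 0, nat_lit 0, nat_lit 0, nat_lit 0, nat_lit 0, nat_lit 0, nat_lit 0, nat_lit 0, false, false⟩,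
 nat_lit 26171, nat_lit 0, nat_lit 0, nat_lit 0, nat_lit 7919, nat_lit 14539, nat_lit 2156, nat_lit 0, nat_lit 0, nat_lit 288, nat_lit 0, nat_lit 0, nat_lit 0, nat_lit 0, nat_lit 0, nat_lit 0, nat_lit 0, nat_lit 0, [],
 ⟨p048_k9, nat_lit 0, nat_lit 0, nat_lit 0, nat_lit 0, nat_lit 158066, [nat_lit 2032000001, nat_lit 3965500000, nat_lit 5449500000, nat_lit 7968000000], [], [nat_lit 20680079795, nat_lit 21638238693, nat_lit 19849506656, nat_lit 20623201782, nat_lit 22571935986, nat_lit 23474394787, nat_lit 21498915554, nat_lit 22397586040], nat_lit 1271250, nat_lit 1271250, nat_lit 157850, nat_lit 230001, nat_lit 1271250, nat_lit 1271250, [nat_lit 490000, nat_lit 936250, nat_lit 1271250, nat_lit 1271250], [nat_lit 138, nat_lit 40, nat_lit 20, nat_lit 40]⟩, ⟨p048_k25, nat_lit 0, nat_lit 0, nat_lit 0, nat_lit 0, nat_lit 167052, [nat_lit 2032000000, nat_lit 4688000000, nat_lit 6250000000, nat_lit 7968000000], [], [nat_lit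 27300669884, nat_lit 26922276693, nat_lit 22790820381, nat_lit 24000957166, nat_lit 18735220263, nat_lit 19531504584, nat_lit 17091815898, nat_lit 17637199414], nat_lit 1271250, nat_lit 1271250, nat_lit 157850, nat_lit 230001, nat_lit 0, nat_lit 1751500, [nat_lit 490000, nat_lit 1100000, nat_lit 1442500, nat_lit 1271250], [nat_lit 98, nat_lit 40, nat_lit 20, nat_lit 40]⟩,
 zbF0, [⟨nat_lit 0, nat_lit 100, nat_lit 99, nat_lit 55, nat_lit 1883009083⟩, ⟨nat_lit 4, nat_lit 98, nat_lit 100, nat_lit 70, nat_lit 1413409843⟩]⟩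
noncomputable def p048_l39 : Lf2 := ⟨nat_lit 0, nat_lit 5, [nat_lit 4, nat_lit 5, nat_lit 5, nat_lit 20], true, nat_lit 280, nat_lit 296, nat_lit 0, nat_lit 276, ⟨nat_lit 0, nat_lit 0, nat_lit 1000, nat_lit 6, nat_lit 106, nat_lit 1000, nat_lit 204, nat_lit 1000, nat_lit 11818, nat_lit 238, nat_lit 104017, nat_lit 294, nat_lit 48530777, nat_lit 0, nat_lit 0, nat_lit 3977126, false, false⟩,
 nat_lit 0, nat_lit 5885, nat_lit 0, nat_lit 954, nat_lit 3425, nat_lit 0, nat_lit 0, nat_lit 0, nat_lit 0, nat_lit 0, nat_lit 0, nat_lit 0, nat_lit 0, nat_lit 0, nat_lit 75, nat_lit 601000, nat_lit 0, nat_lit 0, [(nat_lit 9, [(nat_lit 5, nat_lit 665), (nat_lit 6, nat_lit 335)])],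
 ⟨p048_k9, nat_lit 0, nat_lit 0, nat_lit 0, nat_lit 0, nat_lit 158066, [nat_lit 1398571001, nat_lit 1885310000, nat_lit 1671371000, nat_lit 101325500], [], [nat_lit 17409063700, nat_lit 17868116100, nat_lit 17183729800, nat_lit 17636319750, nat_lit 18268995860, nat_lit 18855017970, nat_lit 18051107771, nat_lit 18538265955], nat_lit 1271250, nat_lit 1271250, nat_lit 230001, nat_lit 356250, nat_lit 1271250, nat_lit 1271250, [nat_lit 490000, nat_lit 936250, nat_lit 1271250, nat_lit 1271250], [nat_lit 138, nat_lit 40, nat_lit 20, nat_lit 40]⟩, C1.Rw.none,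
 ⟨nat_lit 5700, nat_lit 5917, ⟨.ofNat (nat_lit 239212), .ofNat (nat_lit 278479), .ofNat (nat_lit 244547), .ofNat (nat_lit 283814), .ofNat (nat_lit 246477), .ofNat (nat_lit 284837), .ofNat (nat_lit 251813), .ofNat (nat_lit 290172)⟩, ⟨.ofNat (nat_lit 486351), .ofNat (nat_lit 517765), .ofNat (nat_lit 507691), .ofNat (nat_lit 539104), .ofNat (nat_lit 482701), .ofNat (nat_lit 513388), .ofNat (nat_lit 504043), .ofNat (nat_lit 534730)⟩⟩, [⟨nat_lit 16, nat_lit 100, nat_lit 92, nat_lit 75, nat_lit 347457327⟩]⟩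
noncomputable def p048_l40 : Lf2 := ⟨nat_lit 0, nat_lit 5, [nat_lit 4, nat_lit 5, nat_lit 5, nat_lit 20], false, nat_lit 280, nat_lit 296, nat_lit 0, nat_lit 160, ⟨nat_lit 1000, nat_lit 0, nat_lit 0, nat_lit 0, nat_lit 0, nat_lit 0, nat_lit 0, nat_lit 0, nat_lit 0, nat_lit 0, nat_lit 0, nat_lit 0, nat_lit 0, nat_lit 0, nat_lit 0, nat_lit 0, false, false⟩,
 nat_lit 22353, nat_lit 0, nat_lit 0, nat_lit 0, nat_lit 7653, nat_lit 12713, nat_lit 2273, nat_lit 0, nat_lit 0, nat_lit 1434, nat_lit 0, nat_lit 0, nat_lit 0, nat_lit 0, nat_lit 0, nat_lit 0, nat_lit 0, nat_lit 0, [],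
 ⟨p048_k26, nat_lit 0, nat_lit 0, nat_lit 0, nat_lit 0, nat_lit 268991, [nat_lit 4688000000, nat_lit 6250000000, nat_lit 7968000000], [], [nat_lit 20634342251, nat_lit 21567363747, nat_lit 19438160961, nat_lit 20027132770, nat_lit 22357296494, nat_lit 23236749428, nat_lit 20519002332, nat_lit 21346434746], nat_lit 1271250, nat_lit 1271250, nat_lit 181601, nat_lit 356250, nat_lit 1271250, nat_lit 1271250, [nat_lit 1100000, nat_lit 1442500, nat_lit 1271250], [nat_lit 9, nat_lit 40, nat_lit 40, nat_lit 80]⟩, ⟨p048_k27, nat_lit 0, nat_lit 0, nat_lit 0, nat_lit 0, nat_lit 276459, [nat_lit 4688000000, nat_lit 6250000000, nat_lit 7968000000], [], [nat_lit 25167967471, nat_lit 25040213877, nat_lit 19360289091, nat_lit 20437247939, nat_lit 20648021408, nat_lit 19125569736, nat_lit 21735584991, nat_lit 20227673813], nat_lit 1271250, nat_lit 1271250, nat_lit 181601, nat_lit 356250, nat_lit 0, nat_lit 1100001, [nat_lit 1100000, nat_lit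 1442500, nat_lit 1271250], [nat_lit 9, nat_lit 40, nat_lit 40, nat_lit 80]⟩,
 zbF0, [⟨nat_lit 0, nat_lit 100, nat_lit 99, nat_lit 57, nat_lit 739969159⟩, ⟨nat_lit 4, nat_lit 98, nat_lit 100, nat_lit 70, nat_lit 1304519570⟩]⟩
noncomputable def p048_l41 : Lf2 := ⟨nat_lit 0, nat_lit 5, [nat_lit 4, nat_lit 5, nat_lit 5, nat_lit 20], false, nat_lit 280, nat_lit 296, nat_lit 160, nat_lit 248, ⟨nat_lit 1000, nat_lit 0, nat_lit 0, nat_lit 0, nat_lit 0, nat_lit 0, nat_lit 0, nat_lit 0, nat_lit 0, nat_lit 0, nat_lit 0, nat_lit 0, nat_lit 0, nat_lit 0, nat_lit 0, nat_lit 0, false, false⟩,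
 nat_lit 18763, nat_lit 0, nat_lit 0, nat_lit 0, nat_lit 8107, nat_lit 10671, nat_lit 2166, nat_lit 0, nat_lit 0, nat_lit 1803, nat_lit 0, nat_lit 0, nat_lit 0, nat_lit 0, nat_lit 0, nat_lit 0, nat_lit 0, nat_lit 0, [],
 ⟨p048_k9, nat_lit 0, nat_lit 0, nat_lit 0, nat_lit 0, nat_lit 268991, [nat_lit 2032000001, nat_lit 3965500000, nat_lit 5449500000, nat_lit 7968000000], [], [nat_lit 20449600780, nat_lit 21421955101, nat_lit 19741174868, nat_lit 20691994628, nat_lit 22369230518, nat_lit 23283506730, nat_lit 21634067701, nat_lit 22545784259], nat_lit 1271250, nat_lit 1271250, nat_lit 181601, nat_lit 230001, nat_lit 1271250, nat_lit 1271250, [nat_lit 490000, nat_lit 936250, nat_lit 1271250, nat_lit 1271250], [nat_lit 138, nat_lit 40, nat_lit 20, nat_lit 40]⟩, ⟨p048_k28, nat_lit 0, nat_lit 0, nat_lit 0, nat_lit 0, nat_lit 276459, [nat_lit 2032000000, nat_lit 4688000000, nat_lit 6250000000, nat_lit 7968000000], [], [nat_lit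 12264928802, nat_lit 12826269993, nat_lit 11504010986, nat_lit 12062439652, nat_lit 17480437953, nat_lit 18131155109, nat_lit 16707489091, nat_lit 17149426815], nat_lit 1271250, nat_lit 1271250, nat_lit 181601, nat_lit 230001, nat_lit 1100001, nat_lit 1853500, [nat_lit 490000, nat_lit 1100000, nat_lit 1442500, nat_lit 1271250], [nat_lit 98, nat_lit 40, nat_lit 20, nat_lit 40]⟩,
 zbF0, [⟨nat_lit 0, nat_lit 100, nat_lit 99, nat_lit 61, nat_lit 979488653⟩, ⟨nat_lit 4, nat_lit 98, nat_lit 100, nat_lit 70, nat_lit 669410533⟩, ⟨nat_lit 23, nat_lit 91, nat_lit 100, nat_lit 58, nat_lit 121575310⟩, ⟨nat_lit 23, nat_lit 94, nat_lit 100, nat_lit 62, nat_lit 740948616⟩]⟩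
noncomputable def p048_l42 : Lf2 := ⟨nat_lit 0, nat_lit 5, [nat_lit 4, nat_lit 5, nat_lit 5, nat_lit 20], false, nat_lit 280, nat_lit 296, nat_lit 160, nat_lit 276, ⟨nat_lit 417, nat_lit 0, nat_lit 583, nat_lit 6, nat_lit 108, nat_lit 583, nat_lit 204, nat_lit 583, nat_lit 11818, nat_lit 238, nat_lit 109350, nat_lit 296, nat_lit 48397981, nat_lit 0, nat_lit 0, nat_lit 4004583, false, false⟩,
 nat_lit 9058, nat_lit 0, nat_lit 0, nat_lit 0, nat_lit 5272, nat_lit 5151, nat_lit 1151, nat_lit 0, nat_lit 0, nat_lit 204, nat_lit 0, nat_lit 0, nat_lit 0, nat_lit 0, nat_lit 0, nat_lit 144385, nat_lit 0, nat_lit 0, [(nat_lit 9, [(nat_lit 3, nat_lit 21), (nat_lit 4, nat_lit 562)])],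
 ⟨p048_k10, nat_lit 0, nat_lit 0, nat_lit 0, nat_lit 0, nat_lit 268991, [nat_lit 2205902400, nat_lit 2280067200, nat_lit 2565258800, nat_lit 2808845800], [], [nat_lit 18511600941, nat_lit 19105744432, nat_lit 18238905905, nat_lit 18703789171, nat_lit 19723082308, nat_lit 20436996932, nat_lit 19148186777, nat_lit 19851711876], nat_lit 1271250, nat_lit 1271250, nat_lit 230001, nat_lit 356250, nat_lit 1271250, nat_lit 1271250, [nat_lit 490000, nat_lit 1100000, nat_lit 1442500, nat_lit 1271250], [nat_lit 98, nat_lit 40, nat_lit 40, nat_lit 80]⟩, ⟨p048_k28, nat_lit 0, nat_lit 0, nat_lit 0, nat_lit 0, nat_lit 276459, [nat_lit 847344000, nat_lit 1954896000, nat_lit 2606250000, nat_lit 3322656000], [], [nat_lit 7830040694, nat_lit 7169350254, nat_lit 5201754534, nat_lit 5091695496, nat_lit 8966776664, nat_lit 9153441905, nat_lit 8353188952, nat_lit 8532659249], nat_lit 1271250, nat_lit 1271250, nat_lit 230001, nat_lit 356250,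 nat_lit 1100001, nat_lit 2093250, [nat_lit 490000, nat_lit 1100000, nat_lit 1442500, nat_lit 1271250], [nat_lit 98, nat_lit 40, nat_lit 40, nat_lit 80]⟩,
 ⟨nat_lit 5700, nat_lit 5917, ⟨.ofNat (nat_lit 244547), .ofNat (nat_lit 283814), .ofNat (nat_lit 249882), .ofNat (nat_lit 289149), .ofNat (nat_lit 251813), .ofNat (nat_lit 290172), .ofNat (nat_lit 257148), .ofNat (nat_lit 295508)⟩, ⟨.ofNat (nat_lit 486351), .ofNat (nat_lit 517765), .ofNat (nat_lit 507691), .ofNat (nat_lit 539104), .ofNat (nat_lit 482701), .ofNat (nat_lit 513388), .ofNat (nat_lit 504043), .ofNat (nat_lit 534730)⟩⟩, [⟨nat_lit 16, nat_lit 100, nat_lit 92, nat_lit 75, nat_lit 95609777⟩, ⟨nat_lit 4, nat_lit 98, nat_lit 100, nat_lit 70, nat_lit 393299090⟩, ⟨nat_lit 23, nat_lit 93, nat_lit 100, nat_lit 69, nat_lit 248130401⟩]⟩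
noncomputable def p048_l43 : Lf2 := ⟨nat_lit 0, nat_lit 5, [nat_lit 4, nat_lit 5, nat_lit 5, nat_lit 20], false, nat_lit 240, nat_lit 296, nat_lit 0, nat_lit 304, ⟨nat_lit 0, nat_lit 0, nat_lit 1000, nat_lit 6, nat_lit 102, nat_lit 1000, nat_lit 189, nat_lit 1000, nat_lit 11818, nat_lit 238, nat_lit 98817, nat_lit 292, nat_lit 50211143, nat_lit 0, nat_lit 0, nat_lit 3779646, false, false⟩,
 nat_lit 8252, nat_lit 0, nat_lit 0, nat_lit 0, nat_lit 4803, nat_lit 4584, nat_lit 0, nat_lit 0, nat_lit 0, nat_lit 1142, nat_lit 294, nat_lit 0, nat_lit 0, nat_lit 0, nat_lit 55, nat_lit 407200, nat_lit 0, nat_lit 0, [(nat_lit 9, [(nat_lit 5, nat_lit 988), (nat_lit 6, nat_lit 12)])],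
 ⟨p048_k26, nat_lit 0, nat_lit 0, nat_lit 0, nat_lit 0, nat_lit 268991, [nat_lit 2401254400, nat_lit 887196800, nat_lit 99468800], [], [nat_lit 15635950598, nat_lit 16382728314, nat_lit 14772019711, nat_lit 15341777795, nat_lit 20141923749, nat_lit 20824564154, nat_lit 18885613891, nat_lit 19557287254], nat_lit 1271250, nat_lit 1271250, nat_lit 157850, nat_lit 356250, nat_lit 1271250, nat_lit 1271250, [nat_lit 1100000, nat_lit 1442500, nat_lit 1271250], [nat_lit 9, nat_lit 40, nat_lit 40, nat_lit 80]⟩, ⟨p048_k29, nat_lit 0, nat_lit 0, nat_lit 305, nat_lit 0, nat_lit 284284, [nat_lit 4704000000, nat_lit 5880000000, nat_lit 7056000000], [], [nat_lit 16504957100, nat_lit 15305860628, nat_lit 12677790168, nat_lit 11493014112, nat_lit 12940153486, nat_lit 11892626057, nat_lit 13233487404, nat_lit 12196837349], nat_lit 1271250, nat_lit 1271250, nat_lit 157850, nat_lit 356250, nat_lit 0, nat_lit 2147000, [nat_lit 1100000, nat_lit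 1442500, nat_lit 1271250], [nat_lit 9, nat_lit 40, nat_lit 40, nat_lit 80, nat_lit 2, nat_lit 317, nat_lit 100, nat_lit 11]⟩,
 ⟨nat_lit 5700, nat_lit 5917, ⟨.ofNat (nat_lit 215652), .ofNat (nat_lit 278479), .ofNat (nat_lit 226322), .ofNat (nat_lit 289149), .ofNat (nat_lit 223462), .ofNat (nat_lit 284837), .ofNat (nat_lit 234133), .ofNat (nat_lit 295508)⟩, ⟨.ofNat (nat_lit 407818), .ofNat (nat_lit 517765), .ofNat (nat_lit 429157), .ofNat (nat_lit 539104), .ofNat (nat_lit 405982), .ofNat (nat_lit 513388), .ofNat (nat_lit 427324), .ofNat (nat_lit 534730)⟩⟩, [⟨nat_lit 0, nat_lit 100, nat_lit 98, nat_lit 60, nat_lit 76235178⟩, ⟨nat_lit 4, nat_lit 98, nat_lit 100, nat_lit 70, nat_lit 426254739⟩, ⟨nat_lit 23, nat_lit 99, nat_lit 100, nat_lit 66, nat_lit 139287006⟩]⟩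
noncomputable def b_V_600_600_10_57 : St := ⟨true, nat_lit 1, nat_lit 1, nat_lit 1, nat_lit 80, nat_lit 260, nat_lit 270, nat_lit 250, nat_lit 260, nat_lit 28, nat_lit 60, nat_lit 40, nat_lit 60, nat_lit 240, nat_lit 296, nat_lit 0, nat_lit 304, nat_lit 0, nat_lit 20, nat_lit 0, nat_lit 600, nat_lit 0, nat_lit 0⟩
theorem d_V_600_600_10_57 (h : EB TB.env) : Dead b_V_600_600_10_57 := chkB_sound0 h (T :=
(.spl (nat_lit 7) (nat_lit 300)
(.leaf p048_l21)
(.spl (nat_lit 8) (nat_lit 800)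
(.spl (nat_lit 4) (nat_lit 280)
(.spl (nat_lit 4) (nat_lit 260)
(.spl (nat_lit 6) (nat_lit 8)
(.spl (nat_lit 2) (nat_lit 40)
(.trX (nat_lit 23) (nat_lit 100) (nat_lit 92) (nat_lit 61) (nat_lit 288) (.leaf p048_l22))
(.leaf p048_l23))
(.leaf p048_l24))
(.trX (nat_lit 23) (nat_lit 100) (nat_lit 92) (nat_lit 75) (nat_lit 296) (.spl (nat_lit 6) (nat_lit 8)
(.spl (nat_lit 1) (nat_lit 255)
(.leaf p048_l25)
(.trZ (nat_lit 0) (nat_lit 100) (nat_lit 99) (nat_lit 57) (nat_lit 32) (.spl (nat_lit 0) (nat_lit 265)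
(.spl (nat_lit 5) (nat_lit 160)
(.leaf p048_l26)
(.spl (nat_lit 5) (nat_lit 240)
(.leaf p048_l27)
(.leaf p048_l28)))
(.trZ (nat_lit 0) (nat_lit 100) (nat_lit 98) (nat_lit 60) (nat_lit 36) (.spl (nat_lit 6) (nat_lit 4)
(.leaf p048_l29)
(.leaf p048_l30))))))
(.spl (nat_lit 6) (nat_lit 16)
(.spl (nat_lit 2) (nat_lit 40)
(.trX (nat_lit 23) (nat_lit 100) (nat_lit 99) (nat_lit 63) (nat_lit 268) (.spl (nat_lit 5) (nat_lit 160)
(.leaf p048_l31)
(.leaf p048_l32)))
(.leaf p048_l33))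
(.leaf p048_l34)))))
(.trX (nat_lit 23) (nat_lit 99) (nat_lit 100) (nat_lit 77) (nat_lit 276) (.spl (nat_lit 1) (nat_lit 255)
(.spl (nat_lit 6) (nat_lit 8)
(.spl (nat_lit 5) (nat_lit 160)
(.leaf p048_l35)
(.spl (nat_lit 2) (nat_lit 40)
(.trX (nat_lit 23) (nat_lit 94) (nat_lit 100) (nat_lit 62) (nat_lit 248) (.leaf p048_l36))
(.leaf p048_l37)))
(.spl (nat_lit 2) (nat_lit 40)
(.trX (nat_lit 23) (nat_lit 94) (nat_lit 100) (nat_lit 62) (nat_lit 248) (.leaf p048_l38))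
(.leaf p048_l39)))
(.trZ (nat_lit 0) (nat_lit 100) (nat_lit 99) (nat_lit 57) (nat_lit 32) (.spl (nat_lit 5) (nat_lit 160)
(.leaf p048_l40)
(.spl (nat_lit 2) (nat_lit 40)
(.trX (nat_lit 23) (nat_lit 94) (nat_lit 100) (nat_lit 62) (nat_lit 248) (.leaf p048_l41))
(.leaf p048_l42)))))))
(.leaf p048_l43)))) (by decide +kernel)
noncomputable def p048_l44 : Lf2 := ⟨nat_lit 0, nat_lit 5, [nat_lit 4, nat_lit 5, nat_lit 5, nat_lit 20], false, nat_lit 240, nat_lit 296, nat_lit 0, nat_lit 160, ⟨nat_lit 766, nat_lit 0, nat_lit 234, nat_lit 6, nat_lit 123, nat_lit 234, nat_lit 189, nat_lit 234, nat_lit 11818, nat_lit 238, nat_lit 141067, nat_lit 307, nat_lit 48872192, nat_lit 0, nat_lit 0, nat_lit 4040977, false, false⟩,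
 nat_lit 16777, nat_lit 0, nat_lit 0, nat_lit 0, nat_lit 7243, nat_lit 9320, nat_lit 2402, nat_lit 0, nat_lit 0, nat_lit 170, nat_lit 0, nat_lit 0, nat_lit 0, nat_lit 0, nat_lit 0, nat_lit 234000, nat_lit 0, nat_lit 0, [(nat_lit 9, [(nat_lit 6, nat_lit 234)])],
 ⟨p048_k26, nat_lit 0, nat_lit 0, nat_lit 0, nat_lit 0, nat_lit 268991, [nat_lit 3847846400, nat_lit 4614340000, nat_lit 5469519600], [], [nat_lit 14907985548, nat_lit 15554564395, nat_lit 14387136004, nat_lit 15043121907, nat_lit 20251664727, nat_lit 21089048616, nat_lit 19321652747, nat_lit 20146079193], nat_lit 1271250, nat_lit 1271250, nat_lit 356250, nat_lit 490000, nat_lit 1271250, nat_lit 1271250, [nat_lit 1100000, nat_lit 1442500, nat_lit 1271250], [nat_lit 9, nat_lit 40, nat_lit 40, nat_lit 80]⟩, ⟨p048_k29, nat_lit 0, nat_lit 0, nat_lit 277, nat_lit 0, nat_lit 284284, [nat_lit 3591008000, nat_lit 4787500000, nat_lit 6103488000], [], [nat_lit 23177056832,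 nat_lit 20768218952, nat_lit 18341393472, nat_lit 15950543192, nat_lit 19586046596, nat_lit 17375123576, nat_lit 20545107496, nat_lit 18349287536], nat_lit 1271250, nat_lit 1271250, nat_lit 356250, nat_lit 490000, nat_lit 0, nat_lit 1100001, [nat_lit 1100000, nat_lit 1442500, nat_lit 1271250], [nat_lit 9, nat_lit 40, nat_lit 40, nat_lit 80, nat_lit 2, nat_lit 272, nat_lit 60, nat_lit 9]⟩,
 ⟨nat_lit 5700, nat_lit 5917, ⟨.ofNat (nat_lit 278479), .ofNat (nat_lit 317746), .ofNat (nat_lit 289149), .ofNat (nat_lit 328416), .ofNat (nat_lit 284837), .ofNat (nat_lit 323196), .ofNat (nat_lit 295508), .ofNat (nat_lit 333867)⟩, ⟨.ofNat (nat_lit 407818), .ofNat (nat_lit 517765), .ofNat (nat_lit 429157), .ofNat (nat_lit 539104), .ofNat (nat_lit 405982), .ofNat (nat_lit 513388), .ofNat (nat_lit 427324), .ofNat (nat_lit 534730)⟩⟩, [⟨nat_lit 4, nat_lit 98, nat_lit 100, nat_lit 70, nat_lit 964523882⟩]⟩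
noncomputable def p048_l45 : Lf2 := ⟨nat_lit 0, nat_lit 5, [nat_lit 4, nat_lit 5, nat_lit 5, nat_lit 20], false, nat_lit 240, nat_lit 296, nat_lit 160, nat_lit 304, ⟨nat_lit 445, nat_lit 0, nat_lit 555, nat_lit 6, nat_lit 123, nat_lit 555, nat_lit 189, nat_lit 555, nat_lit 11818, nat_lit 238, nat_lit 141067, nat_lit 307, nat_lit 48872192, nat_lit 0, nat_lit 0, nat_lit 4040977, false, false⟩,
 nat_lit 9301, nat_lit 0, nat_lit 0, nat_lit 0, nat_lit 5413, nat_lit 5167, nat_lit 805, nat_lit 0, nat_lit 0, nat_lit 185, nat_lit 0, nat_lit 0, nat_lit 0, nat_lit 0, nat_lit 0, nat_lit 555000, nat_lit 0, nat_lit 0, [(nat_lit 9, [(nat_lit 6, nat_lit 555)])],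
 ⟨p048_k13, nat_lit 0, nat_lit 0, nat_lit 0, nat_lit 0, nat_lit 268991, [nat_lit 2297669501, nat_lit 2582203500, nat_lit 2058523500], [], [nat_lit 15506661117, nat_lit 16108992213, nat_lit 15328048719, nat_lit 15917305174, nat_lit 19081750762, nat_lit 19671482192, nat_lit 18761532472, nat_lit 19339745607], nat_lit 1271250, nat_lit 1271250, nat_lit 356250, nat_lit 490000, nat_lit 1271250, nat_lit 1271250, [nat_lit 936250, nat_lit 1271250, nat_lit 1271250], [nat_lit 175, nat_lit 40, nat_lit 20, nat_lit 40]⟩, ⟨p048_k29, nat_lit 0, nat_lit 0, nat_lit 186, nat_lit 0, nat_lit 284284, [nat_lit 2086160000, nat_lit 2781250000, nat_lit 3545760000], [], [nat_lit 11455710549, nat_lit 10120252896, nat_lit 8774822933, nat_lit 7449337590, nat_lit 11209600781, nat_lit 10603908413, nat_lit 11703667563, nat_lit 10462567597], nat_lit 1271250, nat_lit 1271250, nat_lit 356250, nat_lit 490000, nat_lit 1100001, nat_lit 2333000, [nat_lit 1100000,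 nat_lit 1442500, nat_lit 1271250], [nat_lit 9, nat_lit 40, nat_lit 40, nat_lit 80, nat_lit 2, nat_lit 317, nat_lit 100, nat_lit 10]⟩,
 ⟨nat_lit 5700, nat_lit 5917, ⟨.ofNat (nat_lit 278479), .ofNat (nat_lit 317746), .ofNat (nat_lit 289149), .ofNat (nat_lit 328416), .ofNat (nat_lit 284837), .ofNat (nat_lit 323196), .ofNat (nat_lit 295508), .ofNat (nat_lit 333867)⟩, ⟨.ofNat (nat_lit 407818), .ofNat (nat_lit 517765), .ofNat (nat_lit 429157), .ofNat (nat_lit 539104), .ofNat (nat_lit 405982), .ofNat (nat_lit 513388), .ofNat (nat_lit 427324), .ofNat (nat_lit 534730)⟩⟩, [⟨nat_lit 4, nat_lit 98, nat_lit 100, nat_lit 70, nat_lit 484919850⟩, ⟨nat_lit 19, nat_lit 100, nat_lit 94, nat_lit 69, nat_lit 12625812⟩, ⟨nat_lit 11, nat_lit 100, nat_lit 100, nat_lit 84, nat_lit 96310328⟩]⟩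
noncomputable def b_V_600_600_10_58 : St := ⟨true, nat_lit 1, nat_lit 1, nat_lit 1, nat_lit 80, nat_lit 260, nat_lit 270, nat_lit 250, nat_lit 260, nat_lit 60, nat_lit 80, nat_lit 40, nat_lit 60, nat_lit 240, nat_lit 296, nat_lit 0, nat_lit 304, nat_lit 0, nat_lit 20, nat_lit 0, nat_lit 600, nat_lit 0, nat_lit 0⟩
theorem d_V_600_600_10_58 (h : EB TB.env) : Dead b_V_600_600_10_58 := chkB_sound0 h (T :=
(.spl (nat_lit 5) (nat_lit 160)
(.leaf p048_l44)
(.leaf p048_l45))) (by decide +kernel)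
noncomputable def p048_l46 : Lf2 := ⟨nat_lit 0, nat_lit 5, [nat_lit 4, nat_lit 5, nat_lit 5, nat_lit 20], false, nat_lit 240, nat_lit 296, nat_lit 0, nat_lit 160, ⟨nat_lit 253, nat_lit 0, nat_lit 747, nat_lit 6, nat_lit 144, nat_lit 747, nat_lit 189, nat_lit 747, nat_lit 11818, nat_lit 238, nat_lit 194400, nat_lit 323, nat_lit 47394551, nat_lit 0, nat_lit 0, nat_lit 4290956, false, false⟩,
 nat_lit 7490, nat_lit 1137, nat_lit 0, nat_lit 0, nat_lit 5021, nat_lit 3965, nat_lit 361, nat_lit 0, nat_lit 0, nat_lit 0, nat_lit 0, nat_lit 0, nat_lit 0, nat_lit 0, nat_lit 3, nat_lit 747000, nat_lit 0, nat_lit 0, [(nat_lit 9, [(nat_lit 6, nat_lit 747)])],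
 ⟨p048_k30, nat_lit 0, nat_lit 0, nat_lit 159, nat_lit 0, nat_lit 268991, [nat_lit 2209944800, nat_lit 88719600], [], [nat_lit 15417393994, nat_lit 15987667029, nat_lit 15592561744, nat_lit 16133635256, nat_lit 18635622435, nat_lit 19154406148, nat_lit 18649683124, nat_lit 19114639577], nat_lit 1271250, nat_lit 1271250, nat_lit 490000, nat_lit 780000, nat_lit 1271250, nat_lit 1271250, [nat_lit 1100000, nat_lit 1785000], [nat_lit 39, nat_lit 40, nat_lit 40, nat_lit 80, nat_lit 7, nat_lit 238, nat_lit 30, nat_lit 7]⟩, ⟨p048_k31, nat_lit 0, nat_lit 0, nat_lit 329, nat_lit 0, nat_lit 301113, [nat_lit 1186064000, nat_lit 2490026000], [], [nat_lit 10585226296, nat_lit 8520341526, nat_lit 7379307020, nat_lit 7775368798, nat_lit 9181408368, nat_lit 7338071938, nat_lit 10387615508, nat_lit 8568584528], nat_lit 1271250, nat_lit 1271250, nat_lit 490000, nat_lit 780000, nat_lit 0, nat_lit 1100001, [nat_lit 1100000, nat_lit 2127500],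 [nat_lit 70, nat_lit 40, nat_lit 40, nat_lit 80, nat_lit 13, nat_lit 373, nat_lit 150, nat_lit 11]⟩,
 ⟨nat_lit 5700, nat_lit 5917, ⟨.ofNat (nat_lit 307076), .ofNat (nat_lit 385610), .ofNat (nat_lit 328416), .ofNat (nat_lit 406949), .ofNat (nat_lit 312525), .ofNat (nat_lit 389244), .ofNat (nat_lit 333867), .ofNat (nat_lit 410586)⟩, ⟨.ofNat (nat_lit 407818), .ofNat (nat_lit 517765), .ofNat (nat_lit 429157), .ofNat (nat_lit 539104), .ofNat (nat_lit 405982), .ofNat (nat_lit 513388), .ofNat (nat_lit 427324), .ofNat (nat_lit 534730)⟩⟩, [⟨nat_lit 16, nat_lit 100, nat_lit 92, nat_lit 75, nat_lit 62341332⟩, ⟨nat_lit 4, nat_lit 98, nat_lit 100, nat_lit 70, nat_lit 416829936⟩]⟩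
noncomputable def p048_l47 : Lf2 := ⟨nat_lit 0, nat_lit 5, [nat_lit 4, nat_lit 5, nat_lit 5, nat_lit 20], false, nat_lit 240, nat_lit 296, nat_lit 160, nat_lit 312, ⟨nat_lit 326, nat_lit 0, nat_lit 674, nat_lit 6, nat_lit 144, nat_lit 674, nat_lit 189, nat_lit 674, nat_lit 11818, nat_lit 238, nat_lit 194400, nat_lit 323, nat_lit 47394551, nat_lit 0, nat_lit 0, nat_lit 4290956, false, false⟩,
 nat_lit 8777, nat_lit 0, nat_lit 0, nat_lit 0, nat_lit 5109, nat_lit 4646, nat_lit 358, nat_lit 0, nat_lit 0, nat_lit 286, nat_lit 0, nat_lit 0, nat_lit 0, nat_lit 0, nat_lit 0, nat_lit 674000, nat_lit 0, nat_lit 0, [(nat_lit 9, [(nat_lit 6, nat_lit 674)])],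
 ⟨p048_k26, nat_lit 0, nat_lit 0, nat_lit 166, nat_lit 0, nat_lit 268991, [nat_lit 2268070400, nat_lit 1538740000, nat_lit 844855600], [], [nat_lit 15904483982, nat_lit 16390552589, nat_lit 15923972372, nat_lit 16385452768, nat_lit 18699167187, nat_lit 19193680328, nat_lit 18699252173, nat_lit 19167483705], nat_lit 1271250, nat_lit 1271250, nat_lit 490000, nat_lit 780000, nat_lit 1271250, nat_lit 1271250, [nat_lit 1100000, nat_lit 1442500, nat_lit 1271250], [nat_lit 9, nat_lit 40, nat_lit 40, nat_lit 80, nat_lit 2, nat_lit 238, nat_lit 30, nat_lit 7]⟩, ⟨p048_k32, nat_lit 0, nat_lit 0, nat_lit 211, nat_lit 0, nat_lit 301113, [nat_lit 1528288000, nat_lit 2037500000, nat_lit 3208492000], [], [nat_lit 6904237880, nat_lit 4520570412, nat_lit 3328072292, nat_lit 4027979560, nat_lit 9527532320, nat_lit 8010512688, nat_lit 10843799632, nat_lit 8648466136], nat_lit 1271250, nat_lit 1271250, nat_lit 490000, nat_lit 780000, nat_lit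 1100001, nat_lit 2401500, [nat_lit 1100000, nat_lit 1442500, nat_lit 1271250], [nat_lit 11, nat_lit 40, nat_lit 40, nat_lit 80, nat_lit 1, nat_lit 401, nat_lit 175, nat_lit 11]⟩,
 ⟨nat_lit 5700, nat_lit 5917, ⟨.ofNat (nat_lit 307076), .ofNat (nat_lit 385610), .ofNat (nat_lit 328416), .ofNat (nat_lit 406949), .ofNat (nat_lit 312525), .ofNat (nat_lit 389244), .ofNat (nat_lit 333867), .ofNat (nat_lit 410586)⟩, ⟨.ofNat (nat_lit 407818), .ofNat (nat_lit 517765), .ofNat (nat_lit 429157), .ofNat (nat_lit 539104), .ofNat (nat_lit 405982), .ofNat (nat_lit 513388), .ofNat (nat_lit 427324), .ofNat (nat_lit 534730)⟩⟩, [⟨nat_lit 4, nat_lit 98, nat_lit 100, nat_lit 70, nat_lit 356996901⟩, ⟨nat_lit 7, nat_lit 92, nat_lit 100, nat_lit 68, nat_lit 133969864⟩, ⟨nat_lit 11, nat_lit 100, nat_lit 100, nat_lit 100, nat_lit 67867348⟩]⟩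
noncomputable def b_V_600_600_10_59 : St := ⟨true, nat_lit 1, nat_lit 1, nat_lit 1, nat_lit 80, nat_lit 260, nat_lit 270, nat_lit 240, nat_lit 260, nat_lit 80, nat_lit 120, nat_lit 40, nat_lit 60, nat_lit 240, nat_lit 296, nat_lit 0, nat_lit 312, nat_lit 0, nat_lit 20, nat_lit 0, nat_lit 0, nat_lit 0, nat_lit 0⟩
theorem d_V_600_600_10_59 (h : EB TB.env) : Dead b_V_600_600_10_59 := chkB_sound0 h (T :=
(.spl (nat_lit 5) (nat_lit 160)
(.leaf p048_l46)
(.leaf p048_l47))) (by decide +kernel)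
noncomputable def p048_l48 : Lf2 := ⟨nat_lit 0, nat_lit 2, [nat_lit 10, nat_lit 5, nat_lit 5, nat_lit 20], true, nat_lit 240, nat_lit 260, nat_lit 0, nat_lit 288, ⟨nat_lit 0, nat_lit 0, nat_lit 1000, nat_lit 6, nat_lit 93, nat_lit 1000, nat_lit 174, nat_lit 1000, nat_lit 112067, nat_lit 297, nat_lit 81667, nat_lit 285, nat_lit 52190434, nat_lit 0, nat_lit 0, nat_lit 3491881, false, false⟩,
 nat_lit 0, nat_lit 6810, nat_lit 0, nat_lit 0, nat_lit 4147, nat_lit 0, nat_lit 0, nat_lit 0, nat_lit 0, nat_lit 0, nat_lit 0, nat_lit 0, nat_lit 0, nat_lit 0, nat_lit 37, nat_lit 1000000, nat_lit 0, nat_lit 0, [(nat_lit 9, [(nat_lit 6, nat_lit 1000)])],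
 ⟨p048_k33, nat_lit 0, nat_lit 0, nat_lit 151, nat_lit 0, nat_lit 254125, [nat_lit 1689600001, nat_lit 0], [], [nat_lit 16194334543, nat_lit 16803718703, nat_lit 15819794509, nat_lit 16363747446, nat_lit 17521516804, nat_lit 18233150676, nat_lit 16887770207, nat_lit 17597275624], nat_lit 1271250, nat_lit 1271250, nat_lit 157850, nat_lit 230001, nat_lit 1271250, nat_lit 1271250, [nat_lit 1100000, nat_lit 1442500], [nat_lit 31, nat_lit 40, nat_lit 40, nat_lit 80, nat_lit 3, nat_lit 215, nat_lit 10, nat_lit 7]⟩, C1.Rw.none,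
 ⟨nat_lit 5477, nat_lit 5701, ⟨.ofNat (nat_lit 212791), .ofNat (nat_lit 235806), .ofNat (nat_lit 223462), .ofNat (nat_lit 246477), .ofNat (nat_lit 220501), .ofNat (nat_lit 242980), .ofNat (nat_lit 231179), .ofNat (nat_lit 253659)⟩, ⟨.ofNat (nat_lit 405982), .ofNat (nat_lit 444341), .ofNat (nat_lit 427324), .ofNat (nat_lit 465683), .ofNat (nat_lit 404075), .ofNat (nat_lit 441542), .ofNat (nat_lit 425432), .ofNat (nat_lit 462899)⟩⟩, [⟨nat_lit 0, nat_lit 100, nat_lit 95, nat_lit 59, nat_lit 390026571⟩, ⟨nat_lit 4, nat_lit 100, nat_lit 98, nat_lit 70, nat_lit 342418285⟩]⟩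
noncomputable def p048_l49 : Lf2 := ⟨nat_lit 0, nat_lit 2, [nat_lit 10, nat_lit 5, nat_lit 5, nat_lit 20], true, nat_lit 260, nat_lit 288, nat_lit 0, nat_lit 256, ⟨nat_lit 0, nat_lit 0, nat_lit 1000, nat_lit 6, nat_lit 90, nat_lit 1000, nat_lit 192, nat_lit 1000, nat_lit 22024, nat_lit 249, nat_lit 77067, nat_lit 283, nat_lit 50653213, nat_lit 0, nat_lit 0, nat_lit 3648548, false, false⟩,
 nat_lit 0, nat_lit 6271, nat_lit 0, nat_lit 0, nat_lit 3818, nat_lit 0, nat_lit 0, nat_lit 0, nat_lit 0, nat_lit 0, nat_lit 0, nat_lit 0, nat_lit 0, nat_lit 0, nat_lit 37, nat_lit 1000000, nat_lit 0, nat_lit 0, [(nat_lit 9, [(nat_lit 6, nat_lit 1000)])],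
 ⟨p048_k33, nat_lit 0, nat_lit 0, nat_lit 162, nat_lit 0, nat_lit 254125, [nat_lit 1689600001, nat_lit 0], [], [nat_lit 17746948804, nat_lit 18250468903, nat_lit 17634497937, nat_lit 18137045135, nat_lit 19274920957, nat_lit 19904944530, nat_lit 19084327874, nat_lit 19711864577], nat_lit 1271250, nat_lit 1271250, nat_lit 157850, nat_lit 181601, nat_lit 1271250, nat_lit 1271250, [nat_lit 1100000, nat_lit 1442500], [nat_lit 31, nat_lit 40, nat_lit 40, nat_lit 80, nat_lit 3, nat_lit 215, nat_lit 10, nat_lit 7]⟩, C1.Rw.none,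
 ⟨nat_lit 5477, nat_lit 5701, ⟨.ofNat (nat_lit 212791), .ofNat (nat_lit 220462), .ofNat (nat_lit 223462), .ofNat (nat_lit 231133), .ofNat (nat_lit 220501), .ofNat (nat_lit 227994), .ofNat (nat_lit 231179), .ofNat (nat_lit 238672)⟩, ⟨.ofNat (nat_lit 444341), .ofNat (nat_lit 498045), .ofNat (nat_lit 465683), .ofNat (nat_lit 519387), .ofNat (nat_lit 441542), .ofNat (nat_lit 493995), .ofNat (nat_lit 462899), .ofNat (nat_lit 515352)⟩⟩, [⟨nat_lit 0, nat_lit 100, nat_lit 96, nat_lit 54, nat_lit 1094027066⟩, ⟨nat_lit 16, nat_lit 100, nat_lit 97, nat_lit 76, nat_lit 329208739⟩]⟩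
noncomputable def p048_l50 : Lf2 := ⟨nat_lit 0, nat_lit 2, [nat_lit 10, nat_lit 5, nat_lit 5, nat_lit 20], true, nat_lit 260, nat_lit 288, nat_lit 0, nat_lit 268, ⟨nat_lit 0, nat_lit 0, nat_lit 1000, nat_lit 6, nat_lit 93, nat_lit 1000, nat_lit 192, nat_lit 1000, nat_lit 22024, nat_lit 249, nat_lit 81667, nat_lit 285, nat_lit 50452536, nat_lit 0, nat_lit 0, nat_lit 3690103, false, false⟩,
 nat_lit 0, nat_lit 6271, nat_lit 0, nat_lit 0, nat_lit 3818, nat_lit 0, nat_lit 0, nat_lit 0, nat_lit 0, nat_lit 0, nat_lit 0, nat_lit 0, nat_lit 0, nat_lit 0, nat_lit 37, nat_lit 1000000, nat_lit 0, nat_lit 0, [(nat_lit 9, [(nat_lit 6, nat_lit 1000)])],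
 ⟨p048_k33, nat_lit 0, nat_lit 0, nat_lit 143, nat_lit 0, nat_lit 209573, [nat_lit 1689600001, nat_lit 0], [], [nat_lit 17634497937, nat_lit 17885771536, nat_lit 17409596202, nat_lit 17659896901, nat_lit 19084327874, nat_lit 19397077244, nat_lit 18853625560, nat_lit 19086608484], nat_lit 1271250, nat_lit 1271250, nat_lit 181601, nat_lit 230001, nat_lit 1271250, nat_lit 1271250, [nat_lit 1100000, nat_lit 1442500], [nat_lit 31, nat_lit 40, nat_lit 40, nat_lit 80, nat_lit 3, nat_lit 215, nat_lit 10, nat_lit 7]⟩, C1.Rw.none,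
 ⟨nat_lit 5590, nat_lit 5701, ⟨.ofNat (nat_lit 220462), .ofNat (nat_lit 235806), .ofNat (nat_lit 225798), .ofNat (nat_lit 241142), .ofNat (nat_lit 224239), .ofNat (nat_lit 239403), .ofNat (nat_lit 229576), .ofNat (nat_lit 244740)⟩, ⟨.ofNat (nat_lit 444341), .ofNat (nat_lit 498045), .ofNat (nat_lit 465683), .ofNat (nat_lit 519387), .ofNat (nat_lit 442949), .ofNat (nat_lit 496025), .ofNat (nat_lit 464297), .ofNat (nat_lit 517373)⟩⟩, [⟨nat_lit 0, nat_lit 100, nat_lit 95, nat_lit 57, nat_lit 262972010⟩, ⟨nat_lit 16, nat_lit 100, nat_lit 97, nat_lit 76, nat_lit 327845651⟩]⟩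
noncomputable def p048_l51 : Lf2 := ⟨nat_lit 0, nat_lit 1, [nat_lit 19, nat_lit 5, nat_lit 5, nat_lit 20], false, nat_lit 260, nat_lit 288, nat_lit 0, nat_lit 160, ⟨nat_lit 259, nat_lit 0, nat_lit 741, nat_lit 6, nat_lit 95, nat_lit 741, nat_lit 193, nat_lit 741, nat_lit 22024, nat_lit 249, nat_lit 84017, nat_lit 286, nat_lit 50326180, nat_lit 0, nat_lit 0, nat_lit 3716769, false, false⟩,
 nat_lit 7655, nat_lit 0, nat_lit 0, nat_lit 0, nat_lit 4662, nat_lit 4152, nat_lit 18, nat_lit 0, nat_lit 0, nat_lit 1146, nat_lit 0, nat_lit 0, nat_lit 0, nat_lit 0, nat_lit 0, nat_lit 741000, nat_lit 0, nat_lit 0, [(nat_lit 9, [(nat_lit 6, nat_lit 741)])],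
 ⟨p048_k34, nat_lit 0, nat_lit 0, nat_lit 144, nat_lit 0, nat_lit 215724, [nat_lit 2027513600, nat_lit 1070410000], [], [nat_lit 18341205305, nat_lit 18493259262, nat_lit 18041107934, nat_lit 18192579164, nat_lit 19812898275, nat_lit 20020056910, nat_lit 19506060041, nat_lit 19657189282], nat_lit 1271250, nat_lit 1271250, nat_lit 181601, nat_lit 230001, nat_lit 1271250, nat_lit 1271250, [nat_lit 1100000, nat_lit 1442500], [nat_lit 31, nat_lit 40, nat_lit 40, nat_lit 80, nat_lit 3, nat_lit 215, nat_lit 10, nat_lit 7]⟩, ⟨p048_k35, nat_lit 0, nat_lit 0, nat_lit 270, nat_lit 0, nat_lit 246597, [nat_lit 1214192000, nat_lit 1618750000], [], [nat_lit 6936909901, nat_lit 6997257494, nat_lit 6073604470, nat_lit 6320572274, nat_lit 5052252691, nat_lit 4555027855, nat_lit 5103185216, nat_lit 4607345072], nat_lit 1271250, nat_lit 1271250, nat_lit 181601, nat_lit 230001, nat_lit 0, nat_lit 1100001, [nat_lit 1100000, nat_lit 1442500],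 [nat_lit 31, nat_lit 40, nat_lit 40, nat_lit 80, nat_lit 3, nat_lit 260, nat_lit 50, nat_lit 11]⟩,
 ⟨nat_lit 5634, nat_lit 5701, ⟨.ofNat (nat_lit 225798), .ofNat (nat_lit 241142), .ofNat (nat_lit 231133), .ofNat (nat_lit 246477), .ofNat (nat_lit 228067), .ofNat (nat_lit 243303), .ofNat (nat_lit 233404), .ofNat (nat_lit 248640)⟩, ⟨.ofNat (nat_lit 444341), .ofNat (nat_lit 498045), .ofNat (nat_lit 465683), .ofNat (nat_lit 519387), .ofNat (nat_lit 443508), .ofNat (nat_lit 496834), .ofNat (nat_lit 464853), .ofNat (nat_lit 518179)⟩⟩, [⟨nat_lit 0, nat_lit 100, nat_lit 96, nat_lit 57, nat_lit 880205487⟩, ⟨nat_lit 16, nat_lit 100, nat_lit 97, nat_lit 76, nat_lit 417536864⟩]⟩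
noncomputable def p048_l52 : Lf2 := ⟨nat_lit 0, nat_lit 1, [nat_lit 19, nat_lit 5, nat_lit 5, nat_lit 20], false, nat_lit 260, nat_lit 288, nat_lit 160, nat_lit 200, ⟨nat_lit 219, nat_lit 0, nat_lit 781, nat_lit 6, nat_lit 95, nat_lit 781, nat_lit 193, nat_lit 781, nat_lit 22024, nat_lit 249, nat_lit 84017, nat_lit 286, nat_lit 50326180, nat_lit 0, nat_lit 0, nat_lit 3716769, false, false⟩,
 nat_lit 10109, nat_lit 0, nat_lit 0, nat_lit 0, nat_lit 4752, nat_lit 5483, nat_lit 0, nat_lit 0, nat_lit 0, nat_lit 1787, nat_lit 0, nat_lit 0, nat_lit 0, nat_lit 0, nat_lit 0, nat_lit 781000, nat_lit 0, nat_lit 0, [(nat_lit 9, [(nat_lit 6, nat_lit 781)])],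
 ⟨p048_k34, nat_lit 0, nat_lit 0, nat_lit 144, nat_lit 0, nat_lit 215724, [nat_lit 1883897601, nat_lit 790810000], [], [nat_lit 17808344824, nat_lit 17973695859, nat_lit 17500776570, nat_lit 17665473662, nat_lit 19890806750, nat_lit 20099915339, nat_lit 19387149026, nat_lit 19595989526], nat_lit 1271250, nat_lit 1271250, nat_lit 181601, nat_lit 230001, nat_lit 1271250, nat_lit 1271250, [nat_lit 1100000, nat_lit 1442500], [nat_lit 31, nat_lit 40, nat_lit 40, nat_lit 80, nat_lit 3, nat_lit 215, nat_lit 10, nat_lit 7]⟩, ⟨p048_k35, nat_lit 0, nat_lit 0, nat_lit 190, nat_lit 0, nat_lit 246597, [nat_lit 1026672000, nat_lit 1368750000], [], [nat_lit 3695442136, nat_lit 2990051444, nat_lit 2555388264, nat_lit 1852114010, nat_lit 2638906951, nat_lit 2965041379, nat_lit 1964791057, nat_lit 2290445735], nat_lit 1271250, nat_lit 1271250, nat_lit 181601, nat_lit 230001, nat_lit 1100001, nat_lit 1442500, [nat_lit 1100000, nat_lit 1442500],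 [nat_lit 31, nat_lit 40, nat_lit 40, nat_lit 80, nat_lit 3, nat_lit 272, nat_lit 60, nat_lit 10]⟩,
 ⟨nat_lit 5634, nat_lit 5701, ⟨.ofNat (nat_lit 225798), .ofNat (nat_lit 241142), .ofNat (nat_lit 231133), .ofNat (nat_lit 246477), .ofNat (nat_lit 228067), .ofNat (nat_lit 243303), .ofNat (nat_lit 233404), .ofNat (nat_lit 248640)⟩, ⟨.ofNat (nat_lit 444341), .ofNat (nat_lit 498045), .ofNat (nat_lit 465683), .ofNat (nat_lit 519387), .ofNat (nat_lit 443508), .ofNat (nat_lit 496834), .ofNat (nat_lit 464853), .ofNat (nat_lit 518179)⟩⟩, [⟨nat_lit 0, nat_lit 100, nat_lit 96, nat_lit 57, nat_lit 1195199432⟩, ⟨nat_lit 16, nat_lit 100, nat_lit 97, nat_lit 76, nat_lit 549456182⟩]⟩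
noncomputable def p048_l53 : Lf2 := ⟨nat_lit 0, nat_lit 1, [nat_lit 19, nat_lit 5, nat_lit 5, nat_lit 20], false, nat_lit 260, nat_lit 288, nat_lit 200, nat_lit 240, ⟨nat_lit 1000, nat_lit 0, nat_lit 0, nat_lit 0, nat_lit 0, nat_lit 0, nat_lit 0, nat_lit 0, nat_lit 0, nat_lit 0, nat_lit 0, nat_lit 0, nat_lit 0, nat_lit 0, nat_lit 0, nat_lit 0, false, false⟩,
 nat_lit 12249, nat_lit 0, nat_lit 6520, nat_lit 0, nat_lit 7459, nat_lit 10180, nat_lit 2165, nat_lit 0, nat_lit 0, nat_lit 2541, nat_lit 0, nat_lit 0, nat_lit 0, nat_lit 0, nat_lit 0, nat_lit 0, nat_lit 0, nat_lit 0, [],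
 ⟨p048_k34, nat_lit 0, nat_lit 0, nat_lit 144, nat_lit 0, nat_lit 215724, [nat_lit 4688000000, nat_lit 6250000000], [], [nat_lit 19362575658, nat_lit 19656116224, nat_lit 18815600363, nat_lit 19022186684, nat_lit 22234120542, nat_lit 22501879416, nat_lit 21387318301, nat_lit 21654812723], nat_lit 1271250, nat_lit 1271250, nat_lit 181601, nat_lit 230001, nat_lit 1271250, nat_lit 1271250, [nat_lit 1100000, nat_lit 1442500], [nat_lit 31, nat_lit 40, nat_lit 40, nat_lit 80, nat_lit 3, nat_lit 215, nat_lit 10, nat_lit 7]⟩, ⟨p048_k35, nat_lit 0, nat_lit 0, nat_lit 170, nat_lit 0, nat_lit 246597, [nat_lit 4688000000, nat_lit 6250000000], [], [nat_lit 12713656313, nat_lit 13264290555, nat_lit 11789593855, nat_lit 12338375375, nat_lit 15381091590, nat_lit 15918375908, nat_lit 14456843105, nat_lit 14949454035], nat_lit 1271250, nat_lit 1271250, nat_lit 181601, nat_lit 230001, nat_lit 1271250, nat_lit 1271250, [nat_lit 1100000, nat_lit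 1442500], [nat_lit 31, nat_lit 40, nat_lit 40, nat_lit 80, nat_lit 3, nat_lit 215, nat_lit 10, nat_lit 8]⟩,
 zbF0, [⟨nat_lit 0, nat_lit 100, nat_lit 96, nat_lit 57, nat_lit 1616427010⟩, ⟨nat_lit 4, nat_lit 100, nat_lit 100, nat_lit 71, nat_lit 980160072⟩, ⟨nat_lit 23, nat_lit 95, nat_lit 100, nat_lit 59, nat_lit 98889396⟩]⟩
noncomputable def p048_l54 : Lf2 := ⟨nat_lit 0, nat_lit 1, [nat_lit 19, nat_lit 5, nat_lit 5, nat_lit 20], false, nat_lit 260, nat_lit 288, nat_lit 240, nat_lit 268, ⟨nat_lit 1000, nat_lit 0, nat_lit 0, nat_lit 0, nat_lit 0, nat_lit 0, nat_lit 0, nat_lit 0, nat_lit 0, nat_lit 0, nat_lit 0, nat_lit 0, nat_lit 0, nat_lit 0, nat_lit 0, nat_lit 0, false, false⟩,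
 nat_lit 15903, nat_lit 0, nat_lit 0, nat_lit 0, nat_lit 7598, nat_lit 8626, nat_lit 2167, nat_lit 0, nat_lit 0, nat_lit 1859, nat_lit 0, nat_lit 0, nat_lit 0, nat_lit 0, nat_lit 0, nat_lit 0, nat_lit 0, nat_lit 0, [],
 ⟨p048_k34, nat_lit 0, nat_lit 0, nat_lit 144, nat_lit 0, nat_lit 215724, [nat_lit 4688000000, nat_lit 6250000000], [], [nat_lit 19446582676, nat_lit 19745620278, nat_lit 18595013111, nat_lit 18886176011, nat_lit 22354445853, nat_lit 22625216322, nat_lit 21490023705, nat_lit 21760529910], nat_lit 1271250, nat_lit 1271250, nat_lit 181601, nat_lit 230001, nat_lit 1271250, nat_lit 1271250, [nat_lit 1100000, nat_lit 1442500], [nat_lit 31, nat_lit 40, nat_lit 40, nat_lit 80, nat_lit 3, nat_lit 215, nat_lit 10, nat_lit 7]⟩, ⟨p048_k35, nat_lit 0, nat_lit 0, nat_lit 150, nat_lit 0, nat_lit 246597, [nat_lit 4688000000, nat_lit 6250000000], [], [nat_lit 16735406705, nat_lit 17179320484, nat_lit 16047988726, nat_lit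 16412425707, nat_lit 19366389057, nat_lit 19771818874, nat_lit 18591292013, nat_lit 18995570991], nat_lit 1271250, nat_lit 1271250, nat_lit 181601, nat_lit 230001, nat_lit 1271250, nat_lit 1271250, [nat_lit 1100000, nat_lit 1442500], [nat_lit 31, nat_lit 40, nat_lit 40, nat_lit 80, nat_lit 3, nat_lit 215, nat_lit 10, nat_lit 8]⟩,
 zbF0, [⟨nat_lit 0, nat_lit 100, nat_lit 96, nat_lit 59, nat_lit 174644118⟩, ⟨nat_lit 0, nat_lit 100, nat_lit 96, nat_lit 61, nat_lit 433135411⟩, ⟨nat_lit 16, nat_lit 100, nat_lit 100, nat_lit 71, nat_lit 791327666⟩, ⟨nat_lit 11, nat_lit 100, nat_lit 100, nat_lit 60, nat_lit 1154511366⟩]⟩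
noncomputable def p048_l55 : Lf2 := ⟨nat_lit 0, nat_lit 2, [nat_lit 10, nat_lit 5, nat_lit 5, nat_lit 20], true, nat_lit 260, nat_lit 288, nat_lit 0, nat_lit 260, ⟨nat_lit 0, nat_lit 0, nat_lit 1000, nat_lit 6, nat_lit 93, nat_lit 1000, nat_lit 193, nat_lit 1000, nat_lit 22024, nat_lit 249, nat_lit 81667, nat_lit 285, nat_lit 50420409, nat_lit 0, nat_lit 0, nat_lit 3695779, false, false⟩,
 nat_lit 0, nat_lit 6329, nat_lit 0, nat_lit 0, nat_lit 3854, nat_lit 0, nat_lit 0, nat_lit 0, nat_lit 0, nat_lit 0, nat_lit 0, nat_lit 0, nat_lit 0, nat_lit 0, nat_lit 37, nat_lit 1000000, nat_lit 0, nat_lit 0, [(nat_lit 9, [(nat_lit 6, nat_lit 1000)])],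
 ⟨p048_k33, nat_lit 0, nat_lit 0, nat_lit 131, nat_lit 0, nat_lit 174315, [nat_lit 1689600001, nat_lit 0], [], [nat_lit 17580584726, nat_lit 17731911120, nat_lit 17466540713, nat_lit 17617573885, nat_lit 19113453301, nat_lit 19303105683, nat_lit 18919079971, nat_lit 19108058275], nat_lit 1271250, nat_lit 1271250, nat_lit 181601, nat_lit 205650, nat_lit 1271250, nat_lit 1271250, [nat_lit 1100000, nat_lit 1442500], [nat_lit 31, nat_lit 40, nat_lit 40, nat_lit 80, nat_lit 3, nat_lit 215, nat_lit 10, nat_lit 7]⟩, C1.Rw.none,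
 ⟨nat_lit 5634, nat_lit 5701, ⟨.ofNat (nat_lit 225798), .ofNat (nat_lit 233470), .ofNat (nat_lit 231133), .ofNat (nat_lit 238805), .ofNat (nat_lit 228067), .ofNat (nat_lit 235685), .ofNat (nat_lit 233404), .ofNat (nat_lit 241022)⟩, ⟨.ofNat (nat_lit 444341), .ofNat (nat_lit 498045), .ofNat (nat_lit 465683), .ofNat (nat_lit 519387), .ofNat (nat_lit 443508), .ofNat (nat_lit 496834), .ofNat (nat_lit 464853), .ofNat (nat_lit 518179)⟩⟩, [⟨nat_lit 0, nat_lit 100, nat_lit 96, nat_lit 59, nat_lit 1016480603⟩, ⟨nat_lit 16, nat_lit 100, nat_lit 97, nat_lit 76, nat_lit 329328342⟩]⟩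
noncomputable def p048_l56 : Lf2 := ⟨nat_lit 0, nat_lit 2, [nat_lit 10, nat_lit 5, nat_lit 5, nat_lit 20], true, nat_lit 260, nat_lit 288, nat_lit 0, nat_lit 268, ⟨nat_lit 0, nat_lit 0, nat_lit 1000, nat_lit 6, nat_lit 96, nat_lit 1000, nat_lit 193, nat_lit 1000, nat_lit 22024, nat_lit 249, nat_lit 86400, nat_lit 287, nat_lit 50257906, nat_lit 0, nat_lit 0, nat_lit 3731837, false, false⟩,
 nat_lit 0, nat_lit 6325, nat_lit 0, nat_lit 0, nat_lit 3852, nat_lit 0, nat_lit 0, nat_lit 0, nat_lit 0, nat_lit 0, nat_lit 0, nat_lit 0, nat_lit 0, nat_lit 0, nat_lit 37, nat_lit 1000000, nat_lit 0, nat_lit 0, [(nat_lit 9, [(nat_lit 6, nat_lit 1000)])],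
 ⟨p048_k33, nat_lit 0, nat_lit 0, nat_lit 125, nat_lit 0, nat_lit 166601, [nat_lit 1689600001, nat_lit 0], [], [nat_lit 17469624400, nat_lit 17620626411, nat_lit 17355668895, nat_lit 17506377759, nat_lit 18921852012, nat_lit 19106410403, nat_lit 18804982889, nat_lit 18945233075], nat_lit 1271250, nat_lit 1271250, nat_lit 205650, nat_lit 230001, nat_lit 1271250, nat_lit 1271250, [nat_lit 1100000, nat_lit 1442500], [nat_lit 31, nat_lit 40, nat_lit 40, nat_lit 80, nat_lit 3, nat_lit 215, nat_lit 10, nat_lit 7]⟩, C1.Rw.none,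
 ⟨nat_lit 5634, nat_lit 5701, ⟨.ofNat (nat_lit 233470), .ofNat (nat_lit 241142), .ofNat (nat_lit 236671), .ofNat (nat_lit 244343), .ofNat (nat_lit 235685), .ofNat (nat_lit 243303), .ofNat (nat_lit 238887), .ofNat (nat_lit 246505)⟩, ⟨.ofNat (nat_lit 444341), .ofNat (nat_lit 498045), .ofNat (nat_lit 465683), .ofNat (nat_lit 519387), .ofNat (nat_lit 443508), .ofNat (nat_lit 496834), .ofNat (nat_lit 464853), .ofNat (nat_lit 518179)⟩⟩, [⟨nat_lit 16, nat_lit 100, nat_lit 97, nat_lit 76, nat_lit 329254503⟩]⟩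
noncomputable def p048_l57 : Lf2 := ⟨nat_lit 0, nat_lit 2, [nat_lit 10, nat_lit 5, nat_lit 5, nat_lit 20], true, nat_lit 260, nat_lit 288, nat_lit 0, nat_lit 268, ⟨nat_lit 0, nat_lit 0, nat_lit 1000, nat_lit 6, nat_lit 97, nat_lit 1000, nat_lit 193, nat_lit 1000, nat_lit 22024, nat_lit 249, nat_lit 88817, nat_lit 288, nat_lit 50204819, nat_lit 0, nat_lit 0, nat_lit 3743473, false, false⟩,
 nat_lit 0, nat_lit 6329, nat_lit 0, nat_lit 0, nat_lit 3854, nat_lit 0, nat_lit 0, nat_lit 0, nat_lit 0, nat_lit 0, nat_lit 0, nat_lit 0, nat_lit 0, nat_lit 0, nat_lit 37, nat_lit 1000000, nat_lit 0, nat_lit 0, [(nat_lit 9, [(nat_lit 6, nat_lit 1000)])],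
 ⟨p048_k33, nat_lit 0, nat_lit 0, nat_lit 126, nat_lit 0, nat_lit 170458, [nat_lit 1689600001, nat_lit 0], [], [nat_lit 17466540713, nat_lit 17617573885, nat_lit 17352496701, nat_lit 17503236650, nat_lit 18919079971, nat_lit 19108058275, nat_lit 18802121555, nat_lit 18942398826], nat_lit 1271250, nat_lit 1271250, nat_lit 205650, nat_lit 230001, nat_lit 1271250, nat_lit 1271250, [nat_lit 1100000, nat_lit 1442500], [nat_lit 31, nat_lit 40, nat_lit 40, nat_lit 80, nat_lit 3, nat_lit 215, nat_lit 10, nat_lit 7]⟩, C1.Rw.none,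
 ⟨nat_lit 5634, nat_lit 5701, ⟨.ofNat (nat_lit 236671), .ofNat (nat_lit 244343), .ofNat (nat_lit 237738), .ofNat (nat_lit 245410), .ofNat (nat_lit 238887), .ofNat (nat_lit 246505), .ofNat (nat_lit 239954), .ofNat (nat_lit 247572)⟩, ⟨.ofNat (nat_lit 444341), .ofNat (nat_lit 498045), .ofNat (nat_lit 465683), .ofNat (nat_lit 519387), .ofNat (nat_lit 443508), .ofNat (nat_lit 496834), .ofNat (nat_lit 464853), .ofNat (nat_lit 518179)⟩⟩, [⟨nat_lit 0, nat_lit 100, nat_lit 96, nat_lit 59, nat_lit 10737519⟩, ⟨nat_lit 16, nat_lit 100, nat_lit 97, nat_lit 76, nat_lit 329328342⟩]⟩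
noncomputable def p048_l58 : Lf2 := ⟨nat_lit 0, nat_lit 2, [nat_lit 10, nat_lit 5, nat_lit 5, nat_lit 20], false, nat_lit 260, nat_lit 288, nat_lit 0, nat_lit 160, ⟨nat_lit 560, nat_lit 0, nat_lit 440, nat_lit 6, nat_lit 97, nat_lit 440, nat_lit 193, nat_lit 440, nat_lit 22024, nat_lit 249, nat_lit 88817, nat_lit 288, nat_lit 50183490, nat_lit 0, nat_lit 0, nat_lit 3746691, false, false⟩,
 nat_lit 15432, nat_lit 0, nat_lit 0, nat_lit 0, nat_lit 6312, nat_lit 8532, nat_lit 442, nat_lit 0, nat_lit 0, nat_lit 0, nat_lit 0, nat_lit 0, nat_lit 0, nat_lit 0, nat_lit 0, nat_lit 440000, nat_lit 0, nat_lit 0, [(nat_lit 9, [(nat_lit 6, nat_lit 440)])],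
 ⟨p048_k33, nat_lit 0, nat_lit 0, nat_lit 124, nat_lit 0, nat_lit 164391, [nat_lit 3108224001, nat_lit 3174400000], [], [nat_lit 18330972322, nat_lit 18391203556, nat_lit 18108253635, nat_lit 18166248080, nat_lit 20890517154, nat_lit 20971442086, nat_lit 20539813994, nat_lit 20620694594], nat_lit 1271250, nat_lit 1271250, nat_lit 205650, nat_lit 230001, nat_lit 1271250, nat_lit 1271250, [nat_lit 1100000, nat_lit 1442500], [nat_lit 31, nat_lit 40, nat_lit 40, nat_lit 80, nat_lit 3, nat_lit 215, nat_lit 10, nat_lit 7]⟩, ⟨p048_k36, nat_lit 0, nat_lit 0, nat_lit 261, nat_lit 0, nat_lit 183911, [nat_lit 2625280000, nat_lit 3500000000, nat_lit 4462080000], [], [nat_lit 13958885254, nat_lit 13877999872, nat_lit 13073193691, nat_lit 13183957456, nat_lit 6326493660, nat_lit 6407752811, nat_lit 5920307210, nat_lit 6001433040], nat_lit 1271250, nat_lit 1271250, nat_lit 205650, nat_lit 230001, nat_lit 0, nat_lit 1100001, [nat_lit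 1100000, nat_lit 1442500, nat_lit 1271250], [nat_lit 9, nat_lit 40, nat_lit 40, nat_lit 80, nat_lit 2, nat_lit 260, nat_lit 50, nat_lit 9]⟩,
 ⟨nat_lit 5678, nat_lit 5701, ⟨.ofNat (nat_lit 237738), .ofNat (nat_lit 245410), .ofNat (nat_lit 238805), .ofNat (nat_lit 246477), .ofNat (nat_lit 238478), .ofNat (nat_lit 246132), .ofNat (nat_lit 239545), .ofNat (nat_lit 247199)⟩, ⟨.ofNat (nat_lit 444341), .ofNat (nat_lit 498045), .ofNat (nat_lit 465683), .ofNat (nat_lit 519387), .ofNat (nat_lit 444064), .ofNat (nat_lit 497642), .ofNat (nat_lit 465407), .ofNat (nat_lit 518984)⟩⟩, [⟨nat_lit 0, nat_lit 100, nat_lit 97, nat_lit 59, nat_lit 215092676⟩, ⟨nat_lit 4, nat_lit 100, nat_lit 100, nat_lit 71, nat_lit 833990995⟩]⟩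
noncomputable def p048_l59 : Lf2 := ⟨nat_lit 0, nat_lit 2, [nat_lit 10, nat_lit 5, nat_lit 5, nat_lit 20], false, nat_lit 260, nat_lit 288, nat_lit 160, nat_lit 240, ⟨nat_lit 532, nat_lit 0, nat_lit 468, nat_lit 6, nat_lit 97, nat_lit 468, nat_lit 193, nat_lit 468, nat_lit 22024, nat_lit 249, nat_lit 88817, nat_lit 288, nat_lit 50183490, nat_lit 0, nat_lit 0, nat_lit 3746691, false, false⟩,
 nat_lit 15147, nat_lit 0, nat_lit 0, nat_lit 0, nat_lit 6221, nat_lit 8374, nat_lit 375, nat_lit 0, nat_lit 0, nat_lit 73, nat_lit 0, nat_lit 0, nat_lit 0, nat_lit 0, nat_lit 0, nat_lit 468000, nat_lit 0, nat_lit 0, [(nat_lit 9, [(nat_lit 6, nat_lit 468)])],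
 ⟨p048_k33, nat_lit 0, nat_lit 0, nat_lit 124, nat_lit 0, nat_lit 164391, [nat_lit 3007692801, nat_lit 2978680000], [], [nat_lit 18257316008, nat_lit 18339867402, nat_lit 18038323698, nat_lit 18095904284, nat_lit 20817510696, nat_lit 20897778401, nat_lit 20472575204, nat_lit 20552798557], nat_lit 1271250, nat_lit 1271250, nat_lit 205650, nat_lit 230001, nat_lit 1271250, nat_lit 1271250, [nat_lit 1100000, nat_lit 1442500], [nat_lit 31, nat_lit 40, nat_lit 40, nat_lit 80, nat_lit 3, nat_lit 215, nat_lit 10, nat_lit 7]⟩, ⟨p048_k36, nat_lit 0, nat_lit 0, nat_lit 181, nat_lit 0, nat_lit 183911, [nat_lit 2494016000, nat_lit 3325000000, nat_lit 4238976000], [], [nat_lit 10551151107, nat_lit 10336010486, nat_lit 9681861240, nat_lit 9467043855, nat_lit 8678905453, nat_lit 8744792356, nat_lit 8281171748, nat_lit 8344379713], nat_lit 1271250, nat_lit 1271250, nat_lit 205650, nat_lit 230001, nat_lit 1100001, nat_lit 1785000, [nat_lit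 1100000, nat_lit 1442500, nat_lit 1271250], [nat_lit 9, nat_lit 40, nat_lit 40, nat_lit 80, nat_lit 2, nat_lit 289, nat_lit 75, nat_lit 9]⟩,
 ⟨nat_lit 5678, nat_lit 5701, ⟨.ofNat (nat_lit 237738), .ofNat (nat_lit 245410), .ofNat (nat_lit 238805), .ofNat (nat_lit 246477), .ofNat (nat_lit 238478), .ofNat (nat_lit 246132), .ofNat (nat_lit 239545), .ofNat (nat_lit 247199)⟩, ⟨.ofNat (nat_lit 444341), .ofNat (nat_lit 498045), .ofNat (nat_lit 465683), .ofNat (nat_lit 519387), .ofNat (nat_lit 444064), .ofNat (nat_lit 497642), .ofNat (nat_lit 465407), .ofNat (nat_lit 518984)⟩⟩, [⟨nat_lit 0, nat_lit 100, nat_lit 97, nat_lit 59, nat_lit 440261441⟩, ⟨nat_lit 4, nat_lit 100, nat_lit 100, nat_lit 71, nat_lit 818522295⟩]⟩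
noncomputable def p048_l60 : Lf2 := ⟨nat_lit 0, nat_lit 2, [nat_lit 10, nat_lit 5, nat_lit 5, nat_lit 20], false, nat_lit 260, nat_lit 288, nat_lit 240, nat_lit 268, ⟨nat_lit 1000, nat_lit 0, nat_lit 0, nat_lit 0, nat_lit 0, nat_lit 0, nat_lit 0, nat_lit 0, nat_lit 0, nat_lit 0, nat_lit 0, nat_lit 0, nat_lit 0, nat_lit 0, nat_lit 0, nat_lit 0, false, false⟩,
 nat_lit 16242, nat_lit 0, nat_lit 0, nat_lit 0, nat_lit 8663, nat_lit 8980, nat_lit 832, nat_lit 0, nat_lit 0, nat_lit 2667, nat_lit 0, nat_lit 0, nat_lit 0, nat_lit 0, nat_lit 0, nat_lit 0, nat_lit 0, nat_lit 0, [],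
 ⟨p048_k33, nat_lit 0, nat_lit 0, nat_lit 124, nat_lit 0, nat_lit 164391, [nat_lit 4688000000, nat_lit 6250000000], [], [nat_lit 19627541899, nat_lit 19717481556, nat_lit 19236337834, nat_lit 19319596715, nat_lit 22776651008, nat_lit 22874555511, nat_lit 22276939212, nat_lit 22374799909], nat_lit 1271250, nat_lit 1271250, nat_lit 205650, nat_lit 230001, nat_lit 1271250, nat_lit 1271250, [nat_lit 1100000, nat_lit 1442500], [nat_lit 31, nat_lit 40, nat_lit 40, nat_lit 80, nat_lit 3, nat_lit 215, nat_lit 10, nat_lit 7]⟩, ⟨p048_k36, nat_lit 0, nat_lit 0, nat_lit 145, nat_lit 0, nat_lit 183911, [nat_lit 4688000000, nat_lit 6250000000, nat_lit 7968000000], [], [nat_lit 15818621741, nat_lit 15900085349, nat_lit 15415485132, nat_lit 15496831195, nat_lit 18471197714, nat_lit 18554182717, nat_lit 18065025346, nat_lit 18147892509], nat_lit 1271250, nat_lit 1271250, nat_lit 205650, nat_lit 230001, nat_lit 1271250, nat_lit 1271250,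 [nat_lit 1100000, nat_lit 1442500, nat_lit 1271250], [nat_lit 9, nat_lit 40, nat_lit 40, nat_lit 80, nat_lit 2, nat_lit 215, nat_lit 10, nat_lit 6]⟩,
 zbF0, [⟨nat_lit 0, nat_lit 100, nat_lit 97, nat_lit 59, nat_lit 589957703⟩, ⟨nat_lit 16, nat_lit 100, nat_lit 100, nat_lit 71, nat_lit 805862513⟩, ⟨nat_lit 11, nat_lit 100, nat_lit 100, nat_lit 62, nat_lit 1137746094⟩]⟩
noncomputable def p048_l61 : Lf2 := ⟨nat_lit 0, nat_lit 2, [nat_lit 10, nat_lit 5, nat_lit 5, nat_lit 20], true, nat_lit 260, nat_lit 284, nat_lit 0, nat_lit 268, ⟨nat_lit 0, nat_lit 0, nat_lit 1000, nat_lit 6, nat_lit 97, nat_lit 1000, nat_lit 191, nat_lit 1000, nat_lit 27531, nat_lit 254, nat_lit 88817, nat_lit 288, nat_lit 50322941, nat_lit 0, nat_lit 0, nat_lit 3733724, false, false⟩,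
 nat_lit 0, nat_lit 6345, nat_lit 0, nat_lit 0, nat_lit 3881, nat_lit 0, nat_lit 0, nat_lit 0, nat_lit 0, nat_lit 0, nat_lit 0, nat_lit 0, nat_lit 0, nat_lit 0, nat_lit 37, nat_lit 1000000, nat_lit 0, nat_lit 0, [(nat_lit 9, [(nat_lit 6, nat_lit 1000)])],
 ⟨p048_k37, nat_lit 0, nat_lit 0, nat_lit 123, nat_lit 0, nat_lit 168486, [nat_lit 1689600001, nat_lit 0], [], [nat_lit 17475395557, nat_lit 17525880168, nat_lit 17360058607, nat_lit 17410445139, nat_lit 18721019706, nat_lit 18784322407, nat_lit 18603186533, nat_lit 18650568297], nat_lit 1271250, nat_lit 1271250, nat_lit 205650, nat_lit 230001, nat_lit 1271250, nat_lit 1271250, [nat_lit 1100000, nat_lit 1442500], [nat_lit 31, nat_lit 40, nat_lit 40, nat_lit 80, nat_lit 3, nat_lit 215, nat_lit 10, nat_lit 7]⟩, C1.Rw.none,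
 ⟨nat_lit 5656, nat_lit 5679, ⟨.ofNat (nat_lit 238478), .ofNat (nat_lit 246132), .ofNat (nat_lit 239545), .ofNat (nat_lit 247199), .ofNat (nat_lit 239217), .ofNat (nat_lit 246852), .ofNat (nat_lit 240284), .ofNat (nat_lit 247920)⟩, ⟨.ofNat (nat_lit 444064), .ofNat (nat_lit 489988), .ofNat (nat_lit 465407), .ofNat (nat_lit 511331), .ofNat (nat_lit 443786), .ofNat (nat_lit 489602), .ofNat (nat_lit 465130), .ofNat (nat_lit 510946)⟩⟩, [⟨nat_lit 0, nat_lit 100, nat_lit 96, nat_lit 60, nat_lit 261598594⟩, ⟨nat_lit 16, nat_lit 100, nat_lit 97, nat_lit 76, nat_lit 312073282⟩, ⟨nat_lit 4, nat_lit 100, nat_lit 100, nat_lit 71, nat_lit 16458450⟩]⟩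
noncomputable def p048_l62 : Lf2 := ⟨nat_lit 0, nat_lit 2, [nat_lit 10, nat_lit 5, nat_lit 5, nat_lit 20], true, nat_lit 260, nat_lit 284, nat_lit 0, nat_lit 268, ⟨nat_lit 0, nat_lit 0, nat_lit 1000, nat_lit 6, nat_lit 98, nat_lit 1000, nat_lit 191, nat_lit 1000, nat_lit 26553, nat_lit 254, nat_lit 88817, nat_lit 288, nat_lit 50317193, nat_lit 0, nat_lit 0, nat_lit 3736340, false, false⟩,
 nat_lit 0, nat_lit 6304, nat_lit 0, nat_lit 0, nat_lit 3873, nat_lit 0, nat_lit 0, nat_lit 0, nat_lit 0, nat_lit 0, nat_lit 0, nat_lit 0, nat_lit 0, nat_lit 0, nat_lit 37, nat_lit 1000000, nat_lit 0, nat_lit 0, [(nat_lit 9, [(nat_lit 6, nat_lit 1000)])],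
 ⟨p048_k38, nat_lit 0, nat_lit 0, nat_lit 125, nat_lit 0, nat_lit 172538, [nat_lit 1689600001, nat_lit 0], [], [nat_lit 17538131821, nat_lit 17588574885, nat_lit 17423051024, nat_lit 17473396109, nat_lit 18779680973, nat_lit 18842158305, nat_lit 18662117518, nat_lit 18709462407], nat_lit 1271250, nat_lit 1271250, nat_lit 205650, nat_lit 230001, nat_lit 1271250, nat_lit 1271250, [nat_lit 1100000, nat_lit 1442500], [nat_lit 31, nat_lit 40, nat_lit 40, nat_lit 80, nat_lit 3, nat_lit 215, nat_lit 10, nat_lit 7]⟩, C1.Rw.none,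
 ⟨nat_lit 5634, nat_lit 5657, ⟨.ofNat (nat_lit 239217), .ofNat (nat_lit 246852), .ofNat (nat_lit 240284), .ofNat (nat_lit 247920), .ofNat (nat_lit 239954), .ofNat (nat_lit 247572), .ofNat (nat_lit 241022), .ofNat (nat_lit 248640)⟩, ⟨.ofNat (nat_lit 443786), .ofNat (nat_lit 489602), .ofNat (nat_lit 465130), .ofNat (nat_lit 510946), .ofNat (nat_lit 443508), .ofNat (nat_lit 489216), .ofNat (nat_lit 464853), .ofNat (nat_lit 510561)⟩⟩, [⟨nat_lit 0, nat_lit 100, nat_lit 96, nat_lit 60, nat_lit 261112839⟩, ⟨nat_lit 16, nat_lit 100, nat_lit 98, nat_lit 77, nat_lit 320761287⟩, ⟨nat_lit 4, nat_lit 100, nat_lit 99, nat_lit 70, nat_lit 2345428⟩]⟩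
noncomputable def p048_l63 : Lf2 := ⟨nat_lit 0, nat_lit 2, [nat_lit 10, nat_lit 5, nat_lit 5, nat_lit 20], true, nat_lit 260, nat_lit 284, nat_lit 0, nat_lit 268, ⟨nat_lit 0, nat_lit 0, nat_lit 1000, nat_lit 6, nat_lit 96, nat_lit 1000, nat_lit 191, nat_lit 1000, nat_lit 25575, nat_lit 254, nat_lit 86400, nat_lit 287, nat_lit 50457227, nat_lit 0, nat_lit 0, nat_lit 3707829, false, false⟩,
 nat_lit 0, nat_lit 6323, nat_lit 0, nat_lit 0, nat_lit 3902, nat_lit 0, nat_lit 0, nat_lit 0, nat_lit 0, nat_lit 0, nat_lit 0, nat_lit 0, nat_lit 0, nat_lit 0, nat_lit 37, nat_lit 1000000, nat_lit 0, nat_lit 0, [(nat_lit 9, [(nat_lit 6, nat_lit 1000)])],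
 ⟨p048_k39, nat_lit 0, nat_lit 0, nat_lit 146, nat_lit 0, nat_lit 225192, [nat_lit 1689600001, nat_lit 0], [], [nat_lit 17660776485, nat_lit 17762160513, nat_lit 17427850020, nat_lit 17528840679, nat_lit 19062842140, nat_lit 19191544638, nat_lit 18667730152, nat_lit 18795761658], nat_lit 1271250, nat_lit 1271250, nat_lit 181601, nat_lit 230001, nat_lit 1271250, nat_lit 1271250, [nat_lit 1100000, nat_lit 1442500], [nat_lit 31, nat_lit 40, nat_lit 40, nat_lit 80, nat_lit 3, nat_lit 215, nat_lit 10, nat_lit 7]⟩, C1.Rw.none,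
 ⟨nat_lit 5590, nat_lit 5635, ⟨.ofNat (nat_lit 228067), .ofNat (nat_lit 243303), .ofNat (nat_lit 233404), .ofNat (nat_lit 248640), .ofNat (nat_lit 229576), .ofNat (nat_lit 244740), .ofNat (nat_lit 234913), .ofNat (nat_lit 250077)⟩, ⟨.ofNat (nat_lit 443508), .ofNat (nat_lit 489216), .ofNat (nat_lit 464853), .ofNat (nat_lit 510561), .ofNat (nat_lit 442949), .ofNat (nat_lit 488443), .ofNat (nat_lit 464297), .ofNat (nat_lit 509791)⟩⟩, [⟨nat_lit 0, nat_lit 100, nat_lit 96, nat_lit 60, nat_lit 367842189⟩, ⟨nat_lit 16, nat_lit 99, nat_lit 100, nat_lit 70, nat_lit 44709476⟩, ⟨nat_lit 16, nat_lit 100, nat_lit 98, nat_lit 77, nat_lit 282929354⟩]⟩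
noncomputable def p048_l64 : Lf2 := ⟨nat_lit 0, nat_lit 2, [nat_lit 10, nat_lit 5, nat_lit 5, nat_lit 20], true, nat_lit 260, nat_lit 280, nat_lit 0, nat_lit 268, ⟨nat_lit 0, nat_lit 0, nat_lit 1000, nat_lit 6, nat_lit 96, nat_lit 1000, nat_lit 189, nat_lit 1000, nat_lit 34494, nat_lit 260, nat_lit 86400, nat_lit 287, nat_lit 50646947, nat_lit 0, nat_lit 0, nat_lit 3686816, false, false⟩,
 nat_lit 0, nat_lit 6298, nat_lit 0, nat_lit 0, nat_lit 3921, nat_lit 0, nat_lit 0, nat_lit 0, nat_lit 0, nat_lit 0, nat_lit 0, nat_lit 0, nat_lit 0, nat_lit 0, nat_lit 37, nat_lit 1000000, nat_lit 0, nat_lit 0, [(nat_lit 9, [(nat_lit 6, nat_lit 1000)])],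
 ⟨p048_k40, nat_lit 0, nat_lit 0, nat_lit 153, nat_lit 0, nat_lit 247729, [nat_lit 1689600001, nat_lit 0], [], [nat_lit 17734200877, nat_lit 17988155504, nat_lit 17499197009, nat_lit 17752165833, nat_lit 18926087802, nat_lit 19252494524, nat_lit 18529466670, nat_lit 18854388644], nat_lit 1271250, nat_lit 1271250, nat_lit 181601, nat_lit 230001, nat_lit 1271250, nat_lit 1271250, [nat_lit 1100000, nat_lit 1442500], [nat_lit 31, nat_lit 40, nat_lit 40, nat_lit 80, nat_lit 3, nat_lit 215, nat_lit 10, nat_lit 7]⟩, C1.Rw.none,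
 ⟨nat_lit 5477, nat_lit 5591, ⟨.ofNat (nat_lit 224239), .ofNat (nat_lit 239403), .ofNat (nat_lit 234913), .ofNat (nat_lit 250077), .ofNat (nat_lit 227994), .ofNat (nat_lit 242980), .ofNat (nat_lit 238672), .ofNat (nat_lit 253659)⟩, ⟨.ofNat (nat_lit 442949), .ofNat (nat_lit 480861), .ofNat (nat_lit 464297), .ofNat (nat_lit 502209), .ofNat (nat_lit 441542), .ofNat (nat_lit 479008), .ofNat (nat_lit 462899), .ofNat (nat_lit 500365)⟩⟩, [⟨nat_lit 0, nat_lit 100, nat_lit 95, nat_lit 60, nat_lit 371933800⟩, ⟨nat_lit 16, nat_lit 97, nat_lit 100, nat_lit 70, nat_lit 40245287⟩, ⟨nat_lit 16, nat_lit 100, nat_lit 99, nat_lit 77, nat_lit 284979253⟩]⟩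
noncomputable def p048_l65 : Lf2 := ⟨nat_lit 0, nat_lit 5, [nat_lit 4, nat_lit 5, nat_lit 5, nat_lit 20], true, nat_lit 240, nat_lit 288, nat_lit 0, nat_lit 288, ⟨nat_lit 0, nat_lit 0, nat_lit 1000, nat_lit 6, nat_lit 93, nat_lit 1000, nat_lit 184, nat_lit 1000, nat_lit 22024, nat_lit 249, nat_lit 81667, nat_lit 285, nat_lit 51189234, nat_lit 0, nat_lit 0, nat_lit 3610682, false, false⟩,
 nat_lit 0, nat_lit 7042, nat_lit 0, nat_lit 0, nat_lit 4288, nat_lit 0, nat_lit 0, nat_lit 0, nat_lit 0, nat_lit 0, nat_lit 0, nat_lit 0, nat_lit 0, nat_lit 0, nat_lit 55, nat_lit 400000, nat_lit 0, nat_lit 0, [(nat_lit 9, [(nat_lit 5, nat_lit 1000)])],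
 ⟨p048_k41, nat_lit 0, nat_lit 0, nat_lit 174, nat_lit 0, nat_lit 181157, [nat_lit 2406400000, nat_lit 893600000, nat_lit 116000000], [], [nat_lit 16831241764, nat_lit 17386560692, nat_lit 16438100728, nat_lit 16990030176, nat_lit 19711565376, nat_lit 20375531541, nat_lit 19044305087, nat_lit 19706927687], nat_lit 1271250, nat_lit 1271250, nat_lit 157850, nat_lit 230001, nat_lit 1271250, nat_lit 1271250, [nat_lit 1100000, nat_lit 1442500, nat_lit 1271250], [nat_lit 9, nat_lit 40, nat_lit 40, nat_lit 80, nat_lit 2, nat_lit 215, nat_lit 10, nat_lit 6]⟩, C1.Rw.none,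
 ⟨nat_lit 5477, nat_lit 5701, ⟨.ofNat (nat_lit 212791), .ofNat (nat_lit 235806), .ofNat (nat_lit 223462), .ofNat (nat_lit 246477), .ofNat (nat_lit 220501), .ofNat (nat_lit 242980), .ofNat (nat_lit 231179), .ofNat (nat_lit 253659)⟩, ⟨.ofNat (nat_lit 405982), .ofNat (nat_lit 498045), .ofNat (nat_lit 427324), .ofNat (nat_lit 519387), .ofNat (nat_lit 404075), .ofNat (nat_lit 493995), .ofNat (nat_lit 425432), .ofNat (nat_lit 515352)⟩⟩, [⟨nat_lit 0, nat_lit 100, nat_lit 95, nat_lit 59, nat_lit 404632061⟩, ⟨nat_lit 4, nat_lit 100, nat_lit 98, nat_lit 70, nat_lit 380526848⟩]⟩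
noncomputable def p048_l66 : Lf2 := ⟨nat_lit 0, nat_lit 1, [nat_lit 19, nat_lit 5, nat_lit 5, nat_lit 20], true, nat_lit 240, nat_lit 260, nat_lit 0, nat_lit 312, ⟨nat_lit 0, nat_lit 0, nat_lit 1000, nat_lit 6, nat_lit 105, nat_lit 1000, nat_lit 174, nat_lit 1000, nat_lit 112067, nat_lit 297, nat_lit 104017, nat_lit 294, nat_lit 51386948, nat_lit 0, nat_lit 0, nat_lit 3661008, false, false⟩,
 nat_lit 0, nat_lit 6705, nat_lit 0, nat_lit 0, nat_lit 4083, nat_lit 0, nat_lit 0, nat_lit 0, nat_lit 0, nat_lit 0, nat_lit 0, nat_lit 0, nat_lit 0, nat_lit 0, nat_lit 37, nat_lit 1000000, nat_lit 0, nat_lit 0, [(nat_lit 9, [(nat_lit 6, nat_lit 1000)])],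
 ⟨p048_k34, nat_lit 0, nat_lit 0, nat_lit 138, nat_lit 0, nat_lit 250649, [nat_lit 1689600001, nat_lit 0], [], [nat_lit 15928410125, nat_lit 16468742518, nat_lit 15804750197, nat_lit 16335038796, nat_lit 16989280431, nat_lit 17560450536, nat_lit 16846258115, nat_lit 17351196625], nat_lit 1271250, nat_lit 1271250, nat_lit 230001, nat_lit 356250, nat_lit 1271250, nat_lit 1271250, [nat_lit 1100000, nat_lit 1442500], [nat_lit 31, nat_lit 40, nat_lit 40, nat_lit 80, nat_lit 3, nat_lit 226, nat_lit 20, nat_lit 8]⟩, C1.Rw.none,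
 ⟨nat_lit 5477, nat_lit 5701, ⟨.ofNat (nat_lit 235806), .ofNat (nat_lit 274166), .ofNat (nat_lit 246477), .ofNat (nat_lit 284837), .ofNat (nat_lit 242980), .ofNat (nat_lit 280447), .ofNat (nat_lit 253659), .ofNat (nat_lit 291125)⟩, ⟨.ofNat (nat_lit 405982), .ofNat (nat_lit 444341), .ofNat (nat_lit 427324), .ofNat (nat_lit 465683), .ofNat (nat_lit 404075), .ofNat (nat_lit 441542), .ofNat (nat_lit 425432), .ofNat (nat_lit 462899)⟩⟩, [⟨nat_lit 4, nat_lit 100, nat_lit 98, nat_lit 70, nat_lit 339836399⟩]⟩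
noncomputable def p048_l67 : Lf2 := ⟨nat_lit 0, nat_lit 1, [nat_lit 19, nat_lit 5, nat_lit 5, nat_lit 20], true, nat_lit 260, nat_lit 288, nat_lit 0, nat_lit 296, ⟨nat_lit 0, nat_lit 0, nat_lit 1000, nat_lit 6, nat_lit 105, nat_lit 1000, nat_lit 192, nat_lit 1000, nat_lit 22024, nat_lit 249, nat_lit 104017, nat_lit 294, nat_lit 49715168, nat_lit 0, nat_lit 0, nat_lit 3848882, false, false⟩,
 nat_lit 0, nat_lit 6385, nat_lit 0, nat_lit 0, nat_lit 3888, nat_lit 0, nat_lit 0, nat_lit 0, nat_lit 0, nat_lit 0, nat_lit 0, nat_lit 0, nat_lit 0, nat_lit 0, nat_lit 37, nat_lit 1000000, nat_lit 0, nat_lit 0, [(nat_lit 9, [(nat_lit 6, nat_lit 1000)])],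
 ⟨p048_k34, nat_lit 0, nat_lit 0, nat_lit 140, nat_lit 0, nat_lit 225546, [nat_lit 1689600001, nat_lit 0], [], [nat_lit 17298569394, nat_lit 17550683382, nat_lit 17180084928, nat_lit 17427648629, nat_lit 18753478884, nat_lit 19065616267, nat_lit 18608738597, nat_lit 18839190544], nat_lit 1271250, nat_lit 1271250, nat_lit 230001, nat_lit 356250, nat_lit 1271250, nat_lit 1271250, [nat_lit 1100000, nat_lit 1442500], [nat_lit 31, nat_lit 40, nat_lit 40, nat_lit 80, nat_lit 3, nat_lit 226, nat_lit 20, nat_lit 8]⟩, C1.Rw.none,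
 ⟨nat_lit 5590, nat_lit 5701, ⟨.ofNat (nat_lit 235806), .ofNat (nat_lit 274166), .ofNat (nat_lit 246477), .ofNat (nat_lit 284837), .ofNat (nat_lit 239403), .ofNat (nat_lit 277315), .ofNat (nat_lit 250077), .ofNat (nat_lit 287989)⟩, ⟨.ofNat (nat_lit 444341), .ofNat (nat_lit 498045), .ofNat (nat_lit 465683), .ofNat (nat_lit 519387), .ofNat (nat_lit 442949), .ofNat (nat_lit 496025), .ofNat (nat_lit 464297), .ofNat (nat_lit 517373)⟩⟩, [⟨nat_lit 16, nat_lit 100, nat_lit 97, nat_lit 76, nat_lit 327759410⟩, ⟨nat_lit 4, nat_lit 100, nat_lit 99, nat_lit 70, nat_lit 2887729⟩]⟩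
noncomputable def p048_l68 : Lf2 := ⟨nat_lit 0, nat_lit 1, [nat_lit 19, nat_lit 5, nat_lit 5, nat_lit 20], true, nat_lit 260, nat_lit 280, nat_lit 0, nat_lit 296, ⟨nat_lit 0, nat_lit 0, nat_lit 1000, nat_lit 6, nat_lit 106, nat_lit 1000, nat_lit 189, nat_lit 1000, nat_lit 34494, nat_lit 260, nat_lit 106667, nat_lit 295, nat_lit 49972403, nat_lit 0, nat_lit 0, nat_lit 3829471, false, false⟩,
 nat_lit 0, nat_lit 6298, nat_lit 0, nat_lit 0, nat_lit 3921, nat_lit 0, nat_lit 0, nat_lit 0, nat_lit 0, nat_lit 0, nat_lit 0, nat_lit 0, nat_lit 0, nat_lit 0, nat_lit 37, nat_lit 1000000, nat_lit 0, nat_lit 0, [(nat_lit 9, [(nat_lit 6, nat_lit 1000)])],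
 ⟨p048_k42, nat_lit 0, nat_lit 0, nat_lit 145, nat_lit 0, nat_lit 244379, [nat_lit 1689600001, nat_lit 0], [], [nat_lit 17499197009, nat_lit 17752165833, nat_lit 17371985032, nat_lit 17620378903, nat_lit 18529466670, nat_lit 18854388644, nat_lit 18383713490, nat_lit 18619808126], nat_lit 1271250, nat_lit 1271250, nat_lit 230001, nat_lit 356250, nat_lit 1271250, nat_lit 1271250, [nat_lit 1100000, nat_lit 1442500], [nat_lit 31, nat_lit 40, nat_lit 40, nat_lit 80, nat_lit 3, nat_lit 226, nat_lit 20, nat_lit 8]⟩, C1.Rw.none,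
 ⟨nat_lit 5477, nat_lit 5591, ⟨.ofNat (nat_lit 239403), .ofNat (nat_lit 277315), .ofNat (nat_lit 250077), .ofNat (nat_lit 287989), .ofNat (nat_lit 242980), .ofNat (nat_lit 280447), .ofNat (nat_lit 253659), .ofNat (nat_lit 291125)⟩, ⟨.ofNat (nat_lit 442949), .ofNat (nat_lit 480861), .ofNat (nat_lit 464297), .ofNat (nat_lit 502209), .ofNat (nat_lit 441542), .ofNat (nat_lit 479008), .ofNat (nat_lit 462899), .ofNat (nat_lit 500365)⟩⟩, [⟨nat_lit 0, nat_lit 100, nat_lit 95, nat_lit 60, nat_lit 31601020⟩, ⟨nat_lit 16, nat_lit 100, nat_lit 99, nat_lit 77, nat_lit 320468278⟩]⟩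
noncomputable def p048_l69 : Lf2 := ⟨nat_lit 0, nat_lit 2, [nat_lit 10, nat_lit 5, nat_lit 5, nat_lit 20], true, nat_lit 240, nat_lit 288, nat_lit 0, nat_lit 312, ⟨nat_lit 0, nat_lit 0, nat_lit 1000, nat_lit 6, nat_lit 105, nat_lit 1000, nat_lit 184, nat_lit 1000, nat_lit 22024, nat_lit 249, nat_lit 104017, nat_lit 294, nat_lit 50408531, nat_lit 0, nat_lit 0, nat_lit 3776700, false, false⟩,
 nat_lit 0, nat_lit 6364, nat_lit 0, nat_lit 0, nat_lit 3875, nat_lit 0, nat_lit 0, nat_lit 0, nat_lit 0, nat_lit 0, nat_lit 0, nat_lit 0, nat_lit 0, nat_lit 0, nat_lit 37, nat_lit 1000000, nat_lit 0, nat_lit 0, [(nat_lit 9, [(nat_lit 6, nat_lit 1000)])],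
 ⟨p048_k33, nat_lit 0, nat_lit 0, nat_lit 137, nat_lit 0, nat_lit 209803, [nat_lit 1689600001, nat_lit 0], [], [nat_lit 16281410877, nat_lit 16809976502, nat_lit 16183275877, nat_lit 16702134252, nat_lit 18772077552, nat_lit 19371938100, nat_lit 18629029890, nat_lit 19089364153], nat_lit 1271250, nat_lit 1271250, nat_lit 230001, nat_lit 356250, nat_lit 1271250, nat_lit 1271250, [nat_lit 1100000, nat_lit 1442500], [nat_lit 31, nat_lit 40, nat_lit 40, nat_lit 80, nat_lit 3, nat_lit 226, nat_lit 20, nat_lit 8]⟩, C1.Rw.none,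
 ⟨nat_lit 5477, nat_lit 5701, ⟨.ofNat (nat_lit 235806), .ofNat (nat_lit 274166), .ofNat (nat_lit 246477), .ofNat (nat_lit 284837), .ofNat (nat_lit 242980), .ofNat (nat_lit 280447), .ofNat (nat_lit 253659), .ofNat (nat_lit 291125)⟩, ⟨.ofNat (nat_lit 405982), .ofNat (nat_lit 498045), .ofNat (nat_lit 427324), .ofNat (nat_lit 519387), .ofNat (nat_lit 404075), .ofNat (nat_lit 493995), .ofNat (nat_lit 425432), .ofNat (nat_lit 515352)⟩⟩, [⟨nat_lit 16, nat_lit 98, nat_lit 100, nat_lit 70, nat_lit 43548938⟩, ⟨nat_lit 16, nat_lit 100, nat_lit 97, nat_lit 76, nat_lit 288144709⟩]⟩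
noncomputable def p048_l70 : Lf2 := ⟨nat_lit 0, nat_lit 5, [nat_lit 4, nat_lit 5, nat_lit 5, nat_lit 20], true, nat_lit 240, nat_lit 288, nat_lit 0, nat_lit 312, ⟨nat_lit 0, nat_lit 0, nat_lit 1000, nat_lit 6, nat_lit 105, nat_lit 1000, nat_lit 184, nat_lit 1000, nat_lit 22024, nat_lit 249, nat_lit 104017, nat_lit 294, nat_lit 50408531, nat_lit 0, nat_lit 0, nat_lit 3776700, false, false⟩,
 nat_lit 0, nat_lit 6942, nat_lit 0, nat_lit 0, nat_lit 4227, nat_lit 0, nat_lit 0, nat_lit 0, nat_lit 0, nat_lit 0, nat_lit 0, nat_lit 0, nat_lit 0, nat_lit 0, nat_lit 55, nat_lit 400000, nat_lit 0, nat_lit 0, [(nat_lit 9, [(nat_lit 5, nat_lit 1000)])],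
 ⟨p048_k41, nat_lit 0, nat_lit 0, nat_lit 161, nat_lit 0, nat_lit 181157, [nat_lit 2406400000, nat_lit 893600000, nat_lit 116000000], [], [nat_lit 16541624987, nat_lit 17090103604, nat_lit 16400293955, nat_lit 16938495786, nat_lit 19126082837, nat_lit 19657449806, nat_lit 18937204106, nat_lit 19412962269], nat_lit 1271250, nat_lit 1271250, nat_lit 230001, nat_lit 356250, nat_lit 1271250, nat_lit 1271250, [nat_lit 1100000, nat_lit 1442500, nat_lit 1271250], [nat_lit 9, nat_lit 40, nat_lit 40, nat_lit 80, nat_lit 2, nat_lit 226, nat_lit 20, nat_lit 7]⟩, C1.Rw.none,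
 ⟨nat_lit 5477, nat_lit 5701, ⟨.ofNat (nat_lit 235806), .ofNat (nat_lit 274166), .ofNat (nat_lit 246477), .ofNat (nat_lit 284837), .ofNat (nat_lit 242980), .ofNat (nat_lit 280447), .ofNat (nat_lit 253659), .ofNat (nat_lit 291125)⟩, ⟨.ofNat (nat_lit 405982), .ofNat (nat_lit 498045), .ofNat (nat_lit 427324), .ofNat (nat_lit 519387), .ofNat (nat_lit 404075), .ofNat (nat_lit 493995), .ofNat (nat_lit 425432), .ofNat (nat_lit 515352)⟩⟩, [⟨nat_lit 4, nat_lit 100, nat_lit 98, nat_lit 70, nat_lit 377007195⟩]⟩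
noncomputable def p048_l71 : Lf2 := ⟨nat_lit 0, nat_lit 5, [nat_lit 4, nat_lit 5, nat_lit 5, nat_lit 20], true, nat_lit 240, nat_lit 288, nat_lit 0, nat_lit 312, ⟨nat_lit 0, nat_lit 0, nat_lit 1000, nat_lit 6, nat_lit 121, nat_lit 1000, nat_lit 184, nat_lit 1000, nat_lit 22024, nat_lit 249, nat_lit 135000, nat_lit 305, nat_lit 49387661, nat_lit 0, nat_lit 0, nat_lit 3974215, false, false⟩,
 nat_lit 0, nat_lit 6473, nat_lit 0, nat_lit 0, nat_lit 3942, nat_lit 0, nat_lit 0, nat_lit 0, nat_lit 0, nat_lit 0, nat_lit 0, nat_lit 0, nat_lit 0, nat_lit 0, nat_lit 117, nat_lit 1000000, nat_lit 0, nat_lit 0, [(nat_lit 9, [(nat_lit 6, nat_lit 1000)])],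
 ⟨p048_k41, nat_lit 0, nat_lit 0, nat_lit 178, nat_lit 0, nat_lit 264552, [nat_lit 2969600000, nat_lit 1600000000, nat_lit 226400000], [], [nat_lit 16061346930, nat_lit 16583887156, nat_lit 15954989958, nat_lit 16467714528, nat_lit 18524451685, nat_lit 19082196740, nat_lit 18372680495, nat_lit 18827657362], nat_lit 1271250, nat_lit 1271250, nat_lit 356250, nat_lit 490000, nat_lit 1271250, nat_lit 1271250, [nat_lit 1100000, nat_lit 1442500, nat_lit 1271250], [nat_lit 9, nat_lit 40, nat_lit 40, nat_lit 80, nat_lit 2, nat_lit 226, nat_lit 20, nat_lit 7]⟩, C1.Rw.none,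
 ⟨nat_lit 5477, nat_lit 5701, ⟨.ofNat (nat_lit 274166), .ofNat (nat_lit 312525), .ofNat (nat_lit 284837), .ofNat (nat_lit 323196), .ofNat (nat_lit 280447), .ofNat (nat_lit 317913), .ofNat (nat_lit 291125), .ofNat (nat_lit 328592)⟩, ⟨.ofNat (nat_lit 405982), .ofNat (nat_lit 498045), .ofNat (nat_lit 427324), .ofNat (nat_lit 519387), .ofNat (nat_lit 404075), .ofNat (nat_lit 493995), .ofNat (nat_lit 425432), .ofNat (nat_lit 515352)⟩⟩, [⟨nat_lit 16, nat_lit 98, nat_lit 100, nat_lit 70, nat_lit 343396519⟩, ⟨nat_lit 16, nat_lit 100, nat_lit 97, nat_lit 76, nat_lit 13689968⟩]⟩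
noncomputable def b_V_600_600_10_60 : St := ⟨true, nat_lit 1, nat_lit 1, nat_lit 1, nat_lit 80, nat_lit 270, nat_lit 280, nat_lit 240, nat_lit 250, nat_lit 28, nat_lit 80, nat_lit 40, nat_lit 60, nat_lit 240, nat_lit 288, nat_lit 0, nat_lit 312, nat_lit 0, nat_lit 20, nat_lit 0, nat_lit 0, nat_lit 0, nat_lit 0⟩
theorem d_V_600_600_10_60 (h : EB TB.env) : Dead b_V_600_600_10_60 := chkB_sound0 h (T :=
(.spl (nat_lit 2) (nat_lit 60)
(.spl (nat_lit 2) (nat_lit 40)
(.trX (nat_lit 23) (nat_lit 100) (nat_lit 92) (nat_lit 61) (nat_lit 288) (.spl (nat_lit 6) (nat_lit 8)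
(.spl (nat_lit 4) (nat_lit 260)
(.leaf p048_l48)
(.trX (nat_lit 23) (nat_lit 100) (nat_lit 99) (nat_lit 63) (nat_lit 268) (.spl (nat_lit 2) (nat_lit 32)
(.trX (nat_lit 23) (nat_lit 99) (nat_lit 100) (nat_lit 56) (nat_lit 256) (.leaf p048_l49))
(.spl (nat_lit 0) (nat_lit 275)
(.spl (nat_lit 1) (nat_lit 245)
(.leaf p048_l50)
(.spl (nat_lit 0) (nat_lit 273)
(.spl (nat_lit 6) (nat_lit 4)
(.spl (nat_lit 5) (nat_lit 160)
(.leaf p048_l51)
(.spl (nat_lit 5) (nat_lit 240)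
(.spl (nat_lit 5) (nat_lit 200)
(.leaf p048_l52)
(.leaf p048_l53))
(.leaf p048_l54)))
(.spl (nat_lit 2) (nat_lit 36)
(.trX (nat_lit 23) (nat_lit 100) (nat_lit 100) (nat_lit 60) (nat_lit 260) (.leaf p048_l55))
(.spl (nat_lit 1) (nat_lit 248)
(.leaf p048_l56)
(.spl (nat_lit 1) (nat_lit 249)
(.leaf p048_l57)
(.spl (nat_lit 0) (nat_lit 272)
(.spl (nat_lit 0) (nat_lit 271)
(.spl (nat_lit 5) (nat_lit 160)
(.leaf p048_l58)
(.spl (nat_lit 5) (nat_lit 240)
(.leaf p048_l59)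
(.leaf p048_l60)))
(.trX (nat_lit 16) (nat_lit 100) (nat_lit 97) (nat_lit 76) (nat_lit 284) (.leaf p048_l61)))
(.trX (nat_lit 16) (nat_lit 100) (nat_lit 98) (nat_lit 77) (nat_lit 284) (.leaf p048_l62)))))))
(.trX (nat_lit 16) (nat_lit 100) (nat_lit 98) (nat_lit 77) (nat_lit 284) (.leaf p048_l63))))
(.trX (nat_lit 16) (nat_lit 100) (nat_lit 99) (nat_lit 77) (nat_lit 280) (.leaf p048_l64))))))
(.leaf p048_l65)))
(.spl (nat_lit 6) (nat_lit 8)
(.spl (nat_lit 6) (nat_lit 4)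
(.spl (nat_lit 4) (nat_lit 260)
(.leaf p048_l66)
(.trX (nat_lit 23) (nat_lit 100) (nat_lit 92) (nat_lit 75) (nat_lit 296) (.spl (nat_lit 0) (nat_lit 275)
(.leaf p048_l67)
(.trX (nat_lit 16) (nat_lit 100) (nat_lit 99) (nat_lit 77) (nat_lit 280) (.leaf p048_l68)))))
(.leaf p048_l69))
(.leaf p048_l70)))
(.leaf p048_l71))) (by decide +kernel)
noncomputable def p048_l72 : Lf2 := ⟨nat_lit 0, nat_lit 2, [nat_lit 10, nat_lit 5, nat_lit 5, nat_lit 20], true, nat_lit 240, nat_lit 288, nat_lit 0, nat_lit 304, ⟨nat_lit 0, nat_lit 0, nat_lit 1000, nat_lit 6, nat_lit 107, nat_lit 1000, nat_lit 185, nat_lit 1000, nat_lit 22024, nat_lit 249, nat_lit 106667, nat_lit 295, nat_lit 50251397, nat_lit 0, nat_lit 0, nat_lit 3805097, false, false⟩,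
 nat_lit 0, nat_lit 4954, nat_lit 0, nat_lit 0, nat_lit 3016, nat_lit 0, nat_lit 625, nat_lit 0, nat_lit 0, nat_lit 0, nat_lit 0, nat_lit 0, nat_lit 0, nat_lit 0, nat_lit 15, nat_lit 498400, nat_lit 0, nat_lit 0, [(nat_lit 9, [(nat_lit 5, nat_lit 836), (nat_lit 6, nat_lit 164)])],
 ⟨p048_k43, nat_lit 0, nat_lit 0, nat_lit 0, nat_lit 0, nat_lit 259287, [nat_lit 948906401, nat_lit 1020344001, nat_lit 414168001, nat_lit 6089600], [], [nat_lit 15656256002, nat_lit 15811785618, nat_lit 15613251363, nat_lit 15765751002, nat_lit 18099614324, nat_lit 18270254271, nat_lit 17930520770, nat_lit 18067137744], nat_lit 1271250, nat_lit 1271250, nat_lit 205650, nat_lit 356250, nat_lit 1271250, nat_lit 1271250, [nat_lit 490000, nat_lit 936250, nat_lit 1271250, nat_lit 1271250], [nat_lit 179, nat_lit 40, nat_lit 20, nat_lit 40]⟩, C1.Rw.none,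
 ⟨nat_lit 5634, nat_lit 5701, ⟨.ofNat (nat_lit 238805), .ofNat (nat_lit 284837), .ofNat (nat_lit 249476), .ofNat (nat_lit 295508), .ofNat (nat_lit 241022), .ofNat (nat_lit 286730), .ofNat (nat_lit 251694), .ofNat (nat_lit 297402)⟩, ⟨.ofNat (nat_lit 405982), .ofNat (nat_lit 498045), .ofNat (nat_lit 427324), .ofNat (nat_lit 519387), .ofNat (nat_lit 405418), .ofNat (nat_lit 496834), .ofNat (nat_lit 426763), .ofNat (nat_lit 518179)⟩⟩, [⟨nat_lit 0, nat_lit 100, nat_lit 98, nat_lit 66, nat_lit 148702847⟩, ⟨nat_lit 16, nat_lit 100, nat_lit 97, nat_lit 76, nat_lit 303199118⟩]⟩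
noncomputable def p048_l73 : Lf2 := ⟨nat_lit 0, nat_lit 2, [nat_lit 10, nat_lit 5, nat_lit 5, nat_lit 20], true, nat_lit 240, nat_lit 284, nat_lit 0, nat_lit 304, ⟨nat_lit 0, nat_lit 0, nat_lit 1000, nat_lit 6, nat_lit 108, nat_lit 1000, nat_lit 183, nat_lit 1000, nat_lit 25575, nat_lit 254, nat_lit 109350, nat_lit 296, nat_lit 50373411, nat_lit 0, nat_lit 0, nat_lit 3795145, false, false⟩,
 nat_lit 0, nat_lit 4920, nat_lit 0, nat_lit 0, nat_lit 3036, nat_lit 0, nat_lit 570, nat_lit 0, nat_lit 0, nat_lit 0, nat_lit 0, nat_lit 0, nat_lit 0, nat_lit 0, nat_lit 17, nat_lit 542200, nat_lit 0, nat_lit 0, [(nat_lit 9, [(nat_lit 5, nat_lit 763), (nat_lit 6, nat_lit 237)])],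
 ⟨p048_k44, nat_lit 0, nat_lit 0, nat_lit 0, nat_lit 0, nat_lit 264728, [nat_lit 951956201, nat_lit 1059002001, nat_lit 432794000, nat_lit 7136800], [], [nat_lit 15754287011, nat_lit 15858235784, nat_lit 15705001100, nat_lit 15806922057, nat_lit 18020840672, nat_lit 18136208494, nat_lit 17804784863, nat_lit 17906241815], nat_lit 1271250, nat_lit 1271250, nat_lit 205650, nat_lit 356250, nat_lit 1271250, nat_lit 1271250, [nat_lit 490000, nat_lit 936250, nat_lit 1271250, nat_lit 1271250], [nat_lit 179, nat_lit 40, nat_lit 20, nat_lit 40]⟩, C1.Rw.none,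
 ⟨nat_lit 5590, nat_lit 5635, ⟨.ofNat (nat_lit 241022), .ofNat (nat_lit 286730), .ofNat (nat_lit 251694), .ofNat (nat_lit 297402), .ofNat (nat_lit 242495), .ofNat (nat_lit 287989), .ofNat (nat_lit 253169), .ofNat (nat_lit 298663)⟩, ⟨.ofNat (nat_lit 405418), .ofNat (nat_lit 489216), .ofNat (nat_lit 426763), .ofNat (nat_lit 510561), .ofNat (nat_lit 405038), .ofNat (nat_lit 488443), .ofNat (nat_lit 426386), .ofNat (nat_lit 509791)⟩⟩, [⟨nat_lit 0, nat_lit 100, nat_lit 97, nat_lit 67, nat_lit 159267590⟩, ⟨nat_lit 16, nat_lit 100, nat_lit 98, nat_lit 77, nat_lit 295131687⟩]⟩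
noncomputable def p048_l74 : Lf2 := ⟨nat_lit 0, nat_lit 2, [nat_lit 10, nat_lit 5, nat_lit 5, nat_lit 20], true, nat_lit 240, nat_lit 288, nat_lit 0, nat_lit 304, ⟨nat_lit 0, nat_lit 0, nat_lit 1000, nat_lit 6, nat_lit 124, nat_lit 1000, nat_lit 185, nat_lit 1000, nat_lit 22024, nat_lit 249, nat_lit 144150, nat_lit 308, nat_lit 49106393, nat_lit 0, nat_lit 0, nat_lit 4023393, false, false⟩,
 nat_lit 0, nat_lit 5780, nat_lit 0, nat_lit 0, nat_lit 3520, nat_lit 0, nat_lit 0, nat_lit 0, nat_lit 0, nat_lit 0, nat_lit 0, nat_lit 0, nat_lit 0, nat_lit 0, nat_lit 37, nat_lit 1000000, nat_lit 0, nat_lit 0, [(nat_lit 9, [(nat_lit 6, nat_lit 1000)])],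
 ⟨p048_k45, nat_lit 0, nat_lit 0, nat_lit 0, nat_lit 0, nat_lit 268822, [nat_lit 1478400001, nat_lit 611200001, nat_lit 0], [], [nat_lit 15582196482, nat_lit 15848014802, nat_lit 15609004202, nat_lit 15869578182, nat_lit 18000333074, nat_lit 18300343668, nat_lit 17980611482, nat_lit 18212719470], nat_lit 1271250, nat_lit 1271250, nat_lit 356250, nat_lit 490000, nat_lit 1271250, nat_lit 1271250, [nat_lit 936250, nat_lit 1271250, nat_lit 1271250], [nat_lit 185, nat_lit 40, nat_lit 20, nat_lit 40]⟩, C1.Rw.none,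
 ⟨nat_lit 5590, nat_lit 5701, ⟨.ofNat (nat_lit 284837), .ofNat (nat_lit 323196), .ofNat (nat_lit 295508), .ofNat (nat_lit 333867), .ofNat (nat_lit 287989), .ofNat (nat_lit 325900), .ofNat (nat_lit 298663), .ofNat (nat_lit 336574)⟩, ⟨.ofNat (nat_lit 405982), .ofNat (nat_lit 498045), .ofNat (nat_lit 427324), .ofNat (nat_lit 519387), .ofNat (nat_lit 405038), .ofNat (nat_lit 496025), .ofNat (nat_lit 426386), .ofNat (nat_lit 517373)⟩⟩, [⟨nat_lit 16, nat_lit 100, nat_lit 97, nat_lit 76, nat_lit 316993233⟩]⟩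
noncomputable def p048_l75 : Lf2 := ⟨nat_lit 0, nat_lit 2, [nat_lit 10, nat_lit 5, nat_lit 5, nat_lit 20], true, nat_lit 240, nat_lit 280, nat_lit 0, nat_lit 304, ⟨nat_lit 0, nat_lit 0, nat_lit 1000, nat_lit 6, nat_lit 116, nat_lit 1000, nat_lit 181, nat_lit 1000, nat_lit 34494, nat_lit 260, nat_lit 126150, nat_lit 302, nat_lit 49973480, nat_lit 0, nat_lit 0, nat_lit 3886515, false, false⟩,
 nat_lit 0, nat_lit 4853, nat_lit 0, nat_lit 0, nat_lit 3021, nat_lit 0, nat_lit 533, nat_lit 0, nat_lit 0, nat_lit 0, nat_lit 0, nat_lit 0, nat_lit 0, nat_lit 0, nat_lit 0, nat_lit 400000, nat_lit 0, nat_lit 0, [(nat_lit 9, [(nat_lit 5, nat_lit 1000)])],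
 ⟨p048_k46, nat_lit 0, nat_lit 0, nat_lit 0, nat_lit 0, nat_lit 285925, [nat_lit 858000001, nat_lit 786400000, nat_lit 183200000], [], [nat_lit 15939216766, nat_lit 16198596770, nat_lit 15995269230, nat_lit 16244655366, nat_lit 17861589495, nat_lit 18153881899, nat_lit 17840506252, nat_lit 18068484950], nat_lit 1271250, nat_lit 1271250, nat_lit 205650, nat_lit 490000, nat_lit 1271250, nat_lit 1271250, [nat_lit 490000, nat_lit 936250, nat_lit 1271250], [nat_lit 178, nat_lit 40, nat_lit 20, nat_lit 40]⟩, C1.Rw.none,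
 ⟨nat_lit 5477, nat_lit 5591, ⟨.ofNat (nat_lit 242495), .ofNat (nat_lit 325900), .ofNat (nat_lit 253169), .ofNat (nat_lit 336574), .ofNat (nat_lit 246166), .ofNat (nat_lit 328592), .ofNat (nat_lit 256844), .ofNat (nat_lit 339271)⟩, ⟨.ofNat (nat_lit 405038), .ofNat (nat_lit 480861), .ofNat (nat_lit 426386), .ofNat (nat_lit 502209), .ofNat (nat_lit 404075), .ofNat (nat_lit 479008), .ofNat (nat_lit 425432), .ofNat (nat_lit 500365)⟩⟩, [⟨nat_lit 0, nat_lit 100, nat_lit 96, nat_lit 65, nat_lit 116833177⟩, ⟨nat_lit 16, nat_lit 100, nat_lit 99, nat_lit 77, nat_lit 283037496⟩]⟩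
noncomputable def p048_l76 : Lf2 := ⟨nat_lit 0, nat_lit 5, [nat_lit 4, nat_lit 5, nat_lit 5, nat_lit 20], true, nat_lit 240, nat_lit 288, nat_lit 0, nat_lit 304, ⟨nat_lit 0, nat_lit 0, nat_lit 1000, nat_lit 6, nat_lit 116, nat_lit 1000, nat_lit 184, nat_lit 1000, nat_lit 22024, nat_lit 249, nat_lit 126150, nat_lit 302, nat_lit 49717643, nat_lit 0, nat_lit 0, nat_lit 3912610, false, false⟩,
 nat_lit 0, nat_lit 5426, nat_lit 0, nat_lit 0, nat_lit 3304, nat_lit 0, nat_lit 201, nat_lit 0, nat_lit 0, nat_lit 0, nat_lit 0, nat_lit 0, nat_lit 0, nat_lit 0, nat_lit 30, nat_lit 361900, nat_lit 0, nat_lit 0, [(nat_lit 9, [(nat_lit 4, nat_lit 254), (nat_lit 5, nat_lit 746)])],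
 ⟨p048_k47, nat_lit 0, nat_lit 0, nat_lit 0, nat_lit 0, nat_lit 222075, [nat_lit 1273869601, nat_lit 1197154400, nat_lit 839613600, nat_lit 15658400], [], [nat_lit 15943571254, nat_lit 16465487841, nat_lit 15672654850, nat_lit 16175339873, nat_lit 18319338950, nat_lit 18911817792, nat_lit 17996958661, nat_lit 18479798152], nat_lit 1271250, nat_lit 1271250, nat_lit 205650, nat_lit 490000, nat_lit 1271250, nat_lit 1271250, [nat_lit 490000, nat_lit 936250, nat_lit 1271250, nat_lit 1271250], [nat_lit 189, nat_lit 40, nat_lit 20, nat_lit 40]⟩, C1.Rw.none,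
 ⟨nat_lit 5477, nat_lit 5701, ⟨.ofNat (nat_lit 238805), .ofNat (nat_lit 323196), .ofNat (nat_lit 249476), .ofNat (nat_lit 333867), .ofNat (nat_lit 246166), .ofNat (nat_lit 328592), .ofNat (nat_lit 256844), .ofNat (nat_lit 339271)⟩, ⟨.ofNat (nat_lit 405982), .ofNat (nat_lit 498045), .ofNat (nat_lit 427324), .ofNat (nat_lit 519387), .ofNat (nat_lit 404075), .ofNat (nat_lit 493995), .ofNat (nat_lit 425432), .ofNat (nat_lit 515352)⟩⟩, [⟨nat_lit 0, nat_lit 100, nat_lit 96, nat_lit 64, nat_lit 155333623⟩, ⟨nat_lit 16, nat_lit 100, nat_lit 97, nat_lit 76, nat_lit 304742873⟩]⟩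
noncomputable def p048_l77 : Lf2 := ⟨nat_lit 0, nat_lit 5, [nat_lit 4, nat_lit 5, nat_lit 5, nat_lit 20], true, nat_lit 240, nat_lit 288, nat_lit 0, nat_lit 304, ⟨nat_lit 0, nat_lit 0, nat_lit 1000, nat_lit 6, nat_lit 116, nat_lit 1000, nat_lit 184, nat_lit 1000, nat_lit 22024, nat_lit 249, nat_lit 126150, nat_lit 302, nat_lit 49717643, nat_lit 0, nat_lit 0, nat_lit 3912610, false, false⟩,
 nat_lit 0, nat_lit 100000, nat_lit 0, nat_lit 0, nat_lit 60902, nat_lit 0, nat_lit 19903, nat_lit 6118, nat_lit 0, nat_lit 0, nat_lit 0, nat_lit 0, nat_lit 0, nat_lit 0, nat_lit 0, nat_lit 1000000, nat_lit 0, nat_lit 0, [(nat_lit 9, [(nat_lit 6, nat_lit 1000)])],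
 ⟨p048_k41, nat_lit 0, nat_lit 0, nat_lit 211, nat_lit 0, nat_lit 305342, [nat_lit 98985600000, nat_lit 121620000001, nat_lit 144250399999], [], [nat_lit 118546573593, nat_lit 121888753935, nat_lit 101485912730, nat_lit 104634665628, nat_lit 135625368793, nat_lit 138674727041, nat_lit 117825299119, nat_lit 120700813970], nat_lit 1271250, nat_lit 1271250, nat_lit 205650, nat_lit 490000, nat_lit 1271250, nat_lit 1271250, [nat_lit 1100000, nat_lit 1442500, nat_lit 1271250], [nat_lit 9, nat_lit 40, nat_lit 40, nat_lit 80, nat_lit 2, nat_lit 226, nat_lit 20, nat_lit 7]⟩, C1.Rw.none,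
 ⟨nat_lit 5477, nat_lit 5701, ⟨.ofNat (nat_lit 238805), .ofNat (nat_lit 323196), .ofNat (nat_lit 249476), .ofNat (nat_lit 333867), .ofNat (nat_lit 246166), .ofNat (nat_lit 328592), .ofNat (nat_lit 256844), .ofNat (nat_lit 339271)⟩, ⟨.ofNat (nat_lit 405982), .ofNat (nat_lit 498045), .ofNat (nat_lit 427324), .ofNat (nat_lit 519387), .ofNat (nat_lit 404075), .ofNat (nat_lit 493995), .ofNat (nat_lit 425432), .ofNat (nat_lit 515352)⟩⟩, [⟨nat_lit 0, nat_lit 100, nat_lit 96, nat_lit 69, nat_lit 2153675917⟩, ⟨nat_lit 16, nat_lit 100, nat_lit 97, nat_lit 76, nat_lit 1527921278⟩, ⟨nat_lit 4, nat_lit 100, nat_lit 98, nat_lit 70, nat_lit 5308165979⟩]⟩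
noncomputable def b_V_600_600_10_61 : St := ⟨true, nat_lit 1, nat_lit 1, nat_lit 1, nat_lit 80, nat_lit 270, nat_lit 280, nat_lit 250, nat_lit 260, nat_lit 28, nat_lit 80, nat_lit 40, nat_lit 60, nat_lit 240, nat_lit 288, nat_lit 0, nat_lit 312, nat_lit 0, nat_lit 20, nat_lit 0, nat_lit 0, nat_lit 0, nat_lit 0⟩
theorem d_V_600_600_10_61 (h : EB TB.env) : Dead b_V_600_600_10_61 := chkB_sound0 h (T :=
(.trZ (nat_lit 0) (nat_lit 100) (nat_lit 97) (nat_lit 59) (nat_lit 36) (.trX (nat_lit 19) (nat_lit 100) (nat_lit 88) (nat_lit 74) (nat_lit 304) (.spl (nat_lit 7) (nat_lit 600)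
(.spl (nat_lit 6) (nat_lit 8)
(.spl (nat_lit 0) (nat_lit 275)
(.spl (nat_lit 2) (nat_lit 60)
(.spl (nat_lit 0) (nat_lit 273)
(.leaf p048_l72)
(.trX (nat_lit 16) (nat_lit 100) (nat_lit 98) (nat_lit 77) (nat_lit 284) (.leaf p048_l73)))
(.leaf p048_l74))
(.trX (nat_lit 16) (nat_lit 100) (nat_lit 99) (nat_lit 77) (nat_lit 280) (.leaf p048_l75)))
(.leaf p048_l76))
(.leaf p048_l77))))) (by decide +kernel)
noncomputable def p048_l78 : Lf2 := ⟨nat_lit 0, nat_lit 5, [nat_lit 4, nat_lit 5, nat_lit 5, nat_lit 20], false, nat_lit 240, nat_lit 288, nat_lit 0, nat_lit 160, ⟨nat_lit 458, nat_lit 0, nat_lit 542, nat_lit 6, nat_lit 146, nat_lit 542, nat_lit 184, nat_lit 542, nat_lit 22024, nat_lit 249, nat_lit 198017, nat_lit 324, nat_lit 47627567, nat_lit 0, nat_lit 0, nat_lit 4270810, false, false⟩,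
 nat_lit 5103, nat_lit 4031, nat_lit 0, nat_lit 0, nat_lit 5562, nat_lit 2701, nat_lit 786, nat_lit 0, nat_lit 0, nat_lit 0, nat_lit 0, nat_lit 0, nat_lit 0, nat_lit 0, nat_lit 0, nat_lit 542000, nat_lit 0, nat_lit 0, [(nat_lit 9, [(nat_lit 6, nat_lit 542)])],
 ⟨p048_k41, nat_lit 0, nat_lit 0, nat_lit 180, nat_lit 0, nat_lit 305342, [nat_lit 2742003201, nat_lit 2461420000, nat_lit 2232254800], [], [nat_lit 16096863740, nat_lit 16695991010, nat_lit 16167355434, nat_lit 16734976898, nat_lit 18921952525, nat_lit 19464328309, nat_lit 18847992354, nat_lit 19344873199], nat_lit 1271250, nat_lit 1271250, nat_lit 490000, nat_lit 780000, nat_lit 1271250, nat_lit 1271250, [nat_lit 1100000, nat_lit 1442500, nat_lit 1271250], [nat_lit 9, nat_lit 40, nat_lit 40, nat_lit 80, nat_lit 2, nat_lit 238, nat_lit 30, nat_lit 7]⟩, ⟨p048_k32, nat_lit 0, nat_lit 0, nat_lit 361, nat_lit 0, nat_lit 360506, [nat_lit 2147104000, nat_lit 2862500000,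 nat_lit 4507636000], [], [nat_lit 19000897336, nat_lit 17572775998, nat_lit 16144654660, nat_lit 15281649024, nat_lit 16697572788, nat_lit 15424845382, nat_lit 17816557976, nat_lit 16560857674], nat_lit 1271250, nat_lit 1271250, nat_lit 490000, nat_lit 780000, nat_lit 0, nat_lit 1100001, [nat_lit 1100000, nat_lit 1442500, nat_lit 1271250], [nat_lit 11, nat_lit 40, nat_lit 40, nat_lit 80, nat_lit 1, nat_lit 373, nat_lit 150, nat_lit 11]⟩,
 ⟨nat_lit 5477, nat_lit 5701, ⟨.ofNat (nat_lit 312525), .ofNat (nat_lit 389244), .ofNat (nat_lit 333867), .ofNat (nat_lit 410586), .ofNat (nat_lit 317913), .ofNat (nat_lit 392847), .ofNat (nat_lit 339271), .ofNat (nat_lit 414204)⟩, ⟨.ofNat (nat_lit 405982), .ofNat (nat_lit 498045), .ofNat (nat_lit 427324), .ofNat (nat_lit 519387), .ofNat (nat_lit 404075), .ofNat (nat_lit 493995), .ofNat (nat_lit 425432), .ofNat (nat_lit 515352)⟩⟩, [⟨nat_lit 16, nat_lit 100, nat_lit 97, nat_lit 76, nat_lit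 518427604⟩]⟩
noncomputable def p048_l79 : Lf2 := ⟨nat_lit 0, nat_lit 5, [nat_lit 4, nat_lit 5, nat_lit 5, nat_lit 20], false, nat_lit 240, nat_lit 288, nat_lit 160, nat_lit 312, ⟨nat_lit 243, nat_lit 0, nat_lit 757, nat_lit 6, nat_lit 146, nat_lit 757, nat_lit 184, nat_lit 757, nat_lit 22024, nat_lit 249, nat_lit 198017, nat_lit 324, nat_lit 47627567, nat_lit 0, nat_lit 0, nat_lit 4270810, false, false⟩,
 nat_lit 5871, nat_lit 2041, nat_lit 0, nat_lit 0, nat_lit 4818, nat_lit 3108, nat_lit 197, nat_lit 0, nat_lit 0, nat_lit 319, nat_lit 0, nat_lit 0, nat_lit 0, nat_lit 0, nat_lit 8, nat_lit 757000, nat_lit 0, nat_lit 0, [(nat_lit 9, [(nat_lit 6, nat_lit 757)])],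
 ⟨p048_k41, nat_lit 0, nat_lit 0, nat_lit 180, nat_lit 0, nat_lit 305342, [nat_lit 2098067200, nat_lit 1118570000, nat_lit 164475800], [], [nat_lit 16059765153, nat_lit 16557695712, nat_lit 16172539048, nat_lit 16703650944, nat_lit 18636237050, nat_lit 19130806204, nat_lit 18680597728, nat_lit 19148529236], nat_lit 1271250, nat_lit 1271250, nat_lit 490000, nat_lit 780000, nat_lit 1271250, nat_lit 1271250, [nat_lit 1100000, nat_lit 1442500, nat_lit 1271250], [nat_lit 9, nat_lit 40, nat_lit 40, nat_lit 80, nat_lit 2, nat_lit 238, nat_lit 30, nat_lit 7]⟩, ⟨p048_k32, nat_lit 0, nat_lit 0, nat_lit 232, nat_lit 0, nat_lit 360506, [nat_lit 1139184000, nat_lit 1518750000, nat_lit 2391606000], [], [nat_lit 5350674180, nat_lit 3756089916, nat_lit 2548091426, nat_lit 3031757150, nat_lit 7266606300, nat_lit 5786220689, nat_lit 8176044958, nat_lit 6707449068], nat_lit 1271250, nat_lit 1271250, nat_lit 490000, nat_lit 780000, nat_lit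 1100001, nat_lit 2401500, [nat_lit 1100000, nat_lit 1442500, nat_lit 1271250], [nat_lit 11, nat_lit 40, nat_lit 40, nat_lit 80, nat_lit 1, nat_lit 401, nat_lit 175, nat_lit 11]⟩,
 ⟨nat_lit 5477, nat_lit 5701, ⟨.ofNat (nat_lit 312525), .ofNat (nat_lit 389244), .ofNat (nat_lit 333867), .ofNat (nat_lit 410586), .ofNat (nat_lit 317913), .ofNat (nat_lit 392847), .ofNat (nat_lit 339271), .ofNat (nat_lit 414204)⟩, ⟨.ofNat (nat_lit 405982), .ofNat (nat_lit 498045), .ofNat (nat_lit 427324), .ofNat (nat_lit 519387), .ofNat (nat_lit 404075), .ofNat (nat_lit 493995), .ofNat (nat_lit 425432), .ofNat (nat_lit 515352)⟩⟩, [⟨nat_lit 16, nat_lit 100, nat_lit 97, nat_lit 76, nat_lit 396592544⟩, ⟨nat_lit 19, nat_lit 100, nat_lit 85, nat_lit 73, nat_lit 140120408⟩, ⟨nat_lit 11, nat_lit 100, nat_lit 100, nat_lit 100, nat_lit 15021377⟩]⟩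
noncomputable def b_V_600_600_10_62 : St := ⟨true, nat_lit 1, nat_lit 1, nat_lit 1, nat_lit 80, nat_lit 270, nat_lit 280, nat_lit 240, nat_lit 260, nat_lit 80, nat_lit 120, nat_lit 40, nat_lit 60, nat_lit 240, nat_lit 288, nat_lit 0, nat_lit 312, nat_lit 0, nat_lit 20, nat_lit 0, nat_lit 0, nat_lit 0, nat_lit 0⟩
theorem d_V_600_600_10_62 (h : EB TB.env) : Dead b_V_600_600_10_62 := chkB_sound0 h (T :=
(.spl (nat_lit 5) (nat_lit 160)
(.leaf p048_l78)
(.leaf p048_l79))) (by decide +kernel)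
noncomputable def p048_l80 : Lf2 := ⟨nat_lit 0, nat_lit 1, [nat_lit 19, nat_lit 5, nat_lit 5, nat_lit 20], true, nat_lit 240, nat_lit 280, nat_lit 0, nat_lit 288, ⟨nat_lit 0, nat_lit 0, nat_lit 1000, nat_lit 6, nat_lit 89, nat_lit 1000, nat_lit 191, nat_lit 1000, nat_lit 14293, nat_lit 243, nat_lit 74817, nat_lit 282, nat_lit 50838578, nat_lit 0, nat_lit 0, nat_lit 3617330, false, false⟩,
 nat_lit 0, nat_lit 5317, nat_lit 0, nat_lit 0, nat_lit 3094, nat_lit 0, nat_lit 0, nat_lit 0, nat_lit 0, nat_lit 0, nat_lit 0, nat_lit 0, nat_lit 0, nat_lit 0, nat_lit 3, nat_lit 967000, nat_lit 0, nat_lit 0, [(nat_lit 9, [(nat_lit 5, nat_lit 55), (nat_lit 6, nat_lit 945)])],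
 ⟨p048_k48, nat_lit 0, nat_lit 0, nat_lit 0, nat_lit 0, nat_lit 109729, [nat_lit 714357001, nat_lit 966370000, nat_lit 12290000], [], [nat_lit 15300194738, nat_lit 15852870731, nat_lit 15043920712, nat_lit 15591608076, nat_lit 17408717519, nat_lit 17924027572, nat_lit 17134063768, nat_lit 17633664968], nat_lit 1271250, nat_lit 1271250, nat_lit 134400, nat_lit 230001, nat_lit 1271250, nat_lit 1271250, [nat_lit 490000, nat_lit 936250, nat_lit 1271250], [nat_lit 178, nat_lit 40, nat_lit 20, nat_lit 40]⟩, C1.Rw.none,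
 ⟨nat_lit 5700, nat_lit 5917, ⟨.ofNat (nat_lit 197129), .ofNat (nat_lit 228543), .ofNat (nat_lit 207799), .ofNat (nat_lit 239212), .ofNat (nat_lit 205119), .ofNat (nat_lit 235806), .ofNat (nat_lit 215790), .ofNat (nat_lit 246477)⟩, ⟨.ofNat (nat_lit 429157), .ofNat (nat_lit 507691), .ofNat (nat_lit 450496), .ofNat (nat_lit 529030), .ofNat (nat_lit 427324), .ofNat (nat_lit 504043), .ofNat (nat_lit 448666), .ofNat (nat_lit 525385)⟩⟩, [⟨nat_lit 0, nat_lit 100, nat_lit 97, nat_lit 59, nat_lit 201659259⟩]⟩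
noncomputable def p048_l81 : Lf2 := ⟨nat_lit 0, nat_lit 1, [nat_lit 19, nat_lit 5, nat_lit 5, nat_lit 20], true, nat_lit 240, nat_lit 260, nat_lit 0, nat_lit 288, ⟨nat_lit 0, nat_lit 0, nat_lit 1000, nat_lit 6, nat_lit 95, nat_lit 1000, nat_lit 183, nat_lit 1000, nat_lit 51111, nat_lit 270, nat_lit 84017, nat_lit 286, nat_lit 51218083, nat_lit 0, nat_lit 0, nat_lit 3615917, false, false⟩,
 nat_lit 0, nat_lit 5635, nat_lit 0, nat_lit 0, nat_lit 3279, nat_lit 0, nat_lit 0, nat_lit 0, nat_lit 0, nat_lit 0, nat_lit 0, nat_lit 0, nat_lit 0, nat_lit 0, nat_lit 4, nat_lit 1000000, nat_lit 0, nat_lit 0, [(nat_lit 9, [(nat_lit 6, nat_lit 1000)])],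
 ⟨p048_k48, nat_lit 0, nat_lit 0, nat_lit 0, nat_lit 0, nat_lit 154804, [nat_lit 712600000, nat_lit 988400001, nat_lit 17200000], [], [nat_lit 15093106070, nat_lit 15657358624, nat_lit 14877715092, nat_lit 15438113066, nat_lit 16168601846, nat_lit 16718972127, nat_lit 15946117340, nat_lit 16480318464], nat_lit 1271250, nat_lit 1271250, nat_lit 157850, nat_lit 230001, nat_lit 1271250, nat_lit 1271250, [nat_lit 490000, nat_lit 936250, nat_lit 1271250], [nat_lit 178, nat_lit 40, nat_lit 20, nat_lit 40]⟩, C1.Rw.none,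
 ⟨nat_lit 5700, nat_lit 5917, ⟨.ofNat (nat_lit 215652), .ofNat (nat_lit 239212), .ofNat (nat_lit 226322), .ofNat (nat_lit 249882), .ofNat (nat_lit 223462), .ofNat (nat_lit 246477), .ofNat (nat_lit 234133), .ofNat (nat_lit 257148)⟩, ⟨.ofNat (nat_lit 429157), .ofNat (nat_lit 468424), .ofNat (nat_lit 450496), .ofNat (nat_lit 489763), .ofNat (nat_lit 427324), .ofNat (nat_lit 465683), .ofNat (nat_lit 448666), .ofNat (nat_lit 487025)⟩⟩, [⟨nat_lit 0, nat_lit 100, nat_lit 98, nat_lit 60, nat_lit 211574012⟩]⟩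
noncomputable def p048_l82 : Lf2 := ⟨nat_lit 0, nat_lit 1, [nat_lit 19, nat_lit 5, nat_lit 5, nat_lit 20], true, nat_lit 260, nat_lit 280, nat_lit 0, nat_lit 268, ⟨nat_lit 0, nat_lit 0, nat_lit 1000, nat_lit 6, nat_lit 94, nat_lit 1000, nat_lit 199, nat_lit 1000, nat_lit 14293, nat_lit 243, nat_lit 81667, nat_lit 285, nat_lit 49806068, nat_lit 0, nat_lit 0, nat_lit 3761194, false, false⟩,
 nat_lit 0, nat_lit 5365, nat_lit 0, nat_lit 0, nat_lit 3122, nat_lit 0, nat_lit 0, nat_lit 0, nat_lit 0, nat_lit 0, nat_lit 0, nat_lit 0, nat_lit 0, nat_lit 0, nat_lit 3, nat_lit 977800, nat_lit 0, nat_lit 0, [(nat_lit 9, [(nat_lit 5, nat_lit 37), (nat_lit 6, nat_lit 963)])],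
 ⟨p048_k48, nat_lit 0, nat_lit 0, nat_lit 0, nat_lit 0, nat_lit 131876, [nat_lit 711163801, nat_lit 968998001, nat_lit 8006000], [], [nat_lit 16267702628, nat_lit 16795465380, nat_lit 16065065120, nat_lit 16589366452, nat_lit 17323228131, nat_lit 17844101432, nat_lit 17113667784, nat_lit 17622401385], nat_lit 1271250, nat_lit 1271250, nat_lit 157850, nat_lit 230001, nat_lit 1271250, nat_lit 1271250, [nat_lit 490000, nat_lit 936250, nat_lit 1271250], [nat_lit 178, nat_lit 40, nat_lit 20, nat_lit 40]⟩, C1.Rw.none,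
 ⟨nat_lit 5700, nat_lit 5917, ⟨.ofNat (nat_lit 215652), .ofNat (nat_lit 239212), .ofNat (nat_lit 220987), .ofNat (nat_lit 244547), .ofNat (nat_lit 223462), .ofNat (nat_lit 246477), .ofNat (nat_lit 228797), .ofNat (nat_lit 251813)⟩, ⟨.ofNat (nat_lit 468424), .ofNat (nat_lit 507691), .ofNat (nat_lit 489763), .ofNat (nat_lit 529030), .ofNat (nat_lit 465683), .ofNat (nat_lit 504043), .ofNat (nat_lit 487025), .ofNat (nat_lit 525385)⟩⟩, [⟨nat_lit 0, nat_lit 100, nat_lit 98, nat_lit 58, nat_lit 203493994⟩]⟩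
noncomputable def p048_l83 : Lf2 := ⟨nat_lit 0, nat_lit 1, [nat_lit 19, nat_lit 5, nat_lit 5, nat_lit 20], false, nat_lit 260, nat_lit 280, nat_lit 0, nat_lit 268, ⟨nat_lit 1000, nat_lit 0, nat_lit 0, nat_lit 0, nat_lit 0, nat_lit 0, nat_lit 0, nat_lit 0, nat_lit 0, nat_lit 0, nat_lit 0, nat_lit 0, nat_lit 0, nat_lit 0, nat_lit 0, nat_lit 0, false, false⟩,
 nat_lit 13797, nat_lit 0, nat_lit 0, nat_lit 0, nat_lit 7962, nat_lit 7847, nat_lit 0, nat_lit 0, nat_lit 0, nat_lit 3615, nat_lit 0, nat_lit 0, nat_lit 0, nat_lit 0, nat_lit 0, nat_lit 0, nat_lit 0, nat_lit 0, [],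
 ⟨p048_k48, nat_lit 0, nat_lit 0, nat_lit 0, nat_lit 0, nat_lit 129381, [nat_lit 2032000001, nat_lit 3965500000, nat_lit 5449500000], [], [nat_lit 18708093032, nat_lit 19124870033, nat_lit 18165105520, nat_lit 18579851706, nat_lit 20375201034, nat_lit 20834188447, nat_lit 19824090264, nat_lit 20212508550], nat_lit 1271250, nat_lit 1271250, nat_lit 181601, nat_lit 230001, nat_lit 1271250, nat_lit 1271250, [nat_lit 490000, nat_lit 936250, nat_lit 1271250], [nat_lit 178, nat_lit 40, nat_lit 20, nat_lit 40]⟩, ⟨p048_k49, nat_lit 0, nat_lit 0, nat_lit 256, nat_lit 0, nat_lit 132993, [nat_lit 4688000000, nat_lit 6250000000], [], [nat_lit 17534643346, nat_lit 18292660140, nat_lit 16301182118, nat_lit 17059698680, nat_lit 18964487068, nat_lit 19459355357, nat_lit 18262927089, nat_lit 18579745201], nat_lit 1271250, nat_lit 1271250, nat_lit 181601, nat_lit 230001, nat_lit 0, nat_lit 1892750, [nat_lit 1100000, nat_lit 1442500], [nat_lit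 31, nat_lit 40, nat_lit 40, nat_lit 80, nat_lit 3, nat_lit 317, nat_lit 100, nat_lit 13]⟩,
 zbF0, [⟨nat_lit 0, nat_lit 100, nat_lit 99, nat_lit 60, nat_lit 1198692565⟩, ⟨nat_lit 23, nat_lit 97, nat_lit 100, nat_lit 59, nat_lit 340001795⟩]⟩
noncomputable def p048_l84 : Lf2 := ⟨nat_lit 0, nat_lit 1, [nat_lit 19, nat_lit 5, nat_lit 5, nat_lit 20], true, nat_lit 260, nat_lit 280, nat_lit 0, nat_lit 268, ⟨nat_lit 0, nat_lit 0, nat_lit 1000, nat_lit 6, nat_lit 100, nat_lit 1000, nat_lit 199, nat_lit 1000, nat_lit 15140, nat_lit 244, nat_lit 93750, nat_lit 290, nat_lit 49471462, nat_lit 0, nat_lit 0, nat_lit 3838689, false, false⟩,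
 nat_lit 0, nat_lit 5267, nat_lit 0, nat_lit 0, nat_lit 3136, nat_lit 0, nat_lit 622, nat_lit 0, nat_lit 0, nat_lit 0, nat_lit 0, nat_lit 0, nat_lit 0, nat_lit 0, nat_lit 0, nat_lit 777400, nat_lit 0, nat_lit 0, [(nat_lit 9, [(nat_lit 5, nat_lit 371), (nat_lit 6, nat_lit 629)])],
 ⟨p048_k18, nat_lit 0, nat_lit 0, nat_lit 0, nat_lit 0, nat_lit 150677, [nat_lit 746415401, nat_lit 878234001, nat_lit 33498000], [], [nat_lit 16331922808, nat_lit 16595093038, nat_lit 16263208868, nat_lit 16525800926, nat_lit 17372494157, nat_lit 17646624292, nat_lit 17300988197, nat_lit 17566691593], nat_lit 1271250, nat_lit 1271250, nat_lit 205650, nat_lit 230001, nat_lit 1271250, nat_lit 1271250, [nat_lit 490000, nat_lit 936250, nat_lit 1271250], [nat_lit 178, nat_lit 40, nat_lit 20, nat_lit 40]⟩, C1.Rw.none,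
 ⟨nat_lit 5700, nat_lit 5810, ⟨.ofNat (nat_lit 240429), .ofNat (nat_lit 248191), .ofNat (nat_lit 245764), .ofNat (nat_lit 253526), .ofNat (nat_lit 244141), .ofNat (nat_lit 251813), .ofNat (nat_lit 249476), .ofNat (nat_lit 257148)⟩, ⟨.ofNat (nat_lit 467058), .ofNat (nat_lit 505870), .ofNat (nat_lit 488397), .ofNat (nat_lit 527209), .ofNat (nat_lit 465683), .ofNat (nat_lit 504043), .ofNat (nat_lit 487025), .ofNat (nat_lit 525385)⟩⟩, [⟨nat_lit 0, nat_lit 100, nat_lit 98, nat_lit 62, nat_lit 205610014⟩]⟩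
noncomputable def p048_l85 : Lf2 := ⟨nat_lit 0, nat_lit 1, [nat_lit 19, nat_lit 5, nat_lit 5, nat_lit 20], true, nat_lit 240, nat_lit 280, nat_lit 0, nat_lit 288, ⟨nat_lit 0, nat_lit 0, nat_lit 1000, nat_lit 6, nat_lit 95, nat_lit 1000, nat_lit 190, nat_lit 1000, nat_lit 15944, nat_lit 245, nat_lit 86400, nat_lit 287, nat_lit 50533025, nat_lit 0, nat_lit 0, nat_lit 3698486, false, false⟩,
 nat_lit 0, nat_lit 5040, nat_lit 0, nat_lit 0, nat_lit 3069, nat_lit 0, nat_lit 876, nat_lit 0, nat_lit 0, nat_lit 0, nat_lit 0, nat_lit 0, nat_lit 0, nat_lit 0, nat_lit 0, nat_lit 369700, nat_lit 0, nat_lit 0, [(nat_lit 9, [(nat_lit 4, nat_lit 202), (nat_lit 5, nat_lit 798)])],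
 ⟨p048_k50, nat_lit 0, nat_lit 0, nat_lit 0, nat_lit 0, nat_lit 196751, [nat_lit 997864801, nat_lit 779047200, nat_lit 195239200], [], [nat_lit 15704624532, nat_lit 16226454899, nat_lit 15560317598, nat_lit 16078198969, nat_lit 17802181633, nat_lit 18393804897, nat_lit 17501405617, nat_lit 18088762108], nat_lit 1271250, nat_lit 1271250, nat_lit 157850, nat_lit 230001, nat_lit 1271250, nat_lit 1271250, [nat_lit 490000, nat_lit 936250, nat_lit 1271250], [nat_lit 178, nat_lit 40, nat_lit 20, nat_lit 40]⟩, C1.Rw.none,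
 ⟨nat_lit 5477, nat_lit 5701, ⟨.ofNat (nat_lit 212791), .ofNat (nat_lit 235806), .ofNat (nat_lit 234133), .ofNat (nat_lit 257148), .ofNat (nat_lit 220501), .ofNat (nat_lit 242980), .ofNat (nat_lit 241858), .ofNat (nat_lit 264337)⟩, ⟨.ofNat (nat_lit 427324), .ofNat (nat_lit 504043), .ofNat (nat_lit 448666), .ofNat (nat_lit 525385), .ofNat (nat_lit 425432), .ofNat (nat_lit 500365), .ofNat (nat_lit 446789), .ofNat (nat_lit 521722)⟩⟩, [⟨nat_lit 0, nat_lit 100, nat_lit 96, nat_lit 61, nat_lit 910918865⟩]⟩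
noncomputable def p048_l86 : Lf2 := ⟨nat_lit 0, nat_lit 2, [nat_lit 10, nat_lit 5, nat_lit 5, nat_lit 20], true, nat_lit 240, nat_lit 280, nat_lit 0, nat_lit 288, ⟨nat_lit 0, nat_lit 0, nat_lit 1000, nat_lit 6, nat_lit 92, nat_lit 1000, nat_lit 191, nat_lit 1000, nat_lit 14293, nat_lit 243, nat_lit 79350, nat_lit 284, nat_lit 50669481, nat_lit 0, nat_lit 0, nat_lit 3662219, false, false⟩,
 nat_lit 0, nat_lit 5466, nat_lit 0, nat_lit 0, nat_lit 3181, nat_lit 0, nat_lit 0, nat_lit 0, nat_lit 0, nat_lit 0, nat_lit 0, nat_lit 0, nat_lit 0, nat_lit 0, nat_lit 32, nat_lit 877000, nat_lit 0, nat_lit 0, [(nat_lit 9, [(nat_lit 5, nat_lit 205), (nat_lit 6, nat_lit 795)])],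
 ⟨p048_k14, nat_lit 0, nat_lit 0, nat_lit 0, nat_lit 0, nat_lit 161464, [nat_lit 972967001, nat_lit 1350470001, nat_lit 569990000, nat_lit 9388000], [], [nat_lit 15355850154, nat_lit 16433370928, nat_lit 15081819034, nat_lit 16149713708, nat_lit 17411445803, nat_lit 18598454774, nat_lit 17119701532, nat_lit 18168184892], nat_lit 1271250, nat_lit 1271250, nat_lit 134400, nat_lit 230001, nat_lit 1271250, nat_lit 1271250, [nat_lit 490000, nat_lit 936250, nat_lit 1271250, nat_lit 1271250], [nat_lit 179, nat_lit 40, nat_lit 20, nat_lit 40]⟩, C1.Rw.none,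
 ⟨nat_lit 5477, nat_lit 5917, ⟨.ofNat (nat_lit 197129), .ofNat (nat_lit 228543), .ofNat (nat_lit 218469), .ofNat (nat_lit 249882), .ofNat (nat_lit 213007), .ofNat (nat_lit 242980), .ofNat (nat_lit 234364), .ofNat (nat_lit 264337)⟩, ⟨.ofNat (nat_lit 429157), .ofNat (nat_lit 507691), .ofNat (nat_lit 450496), .ofNat (nat_lit 529030), .ofNat (nat_lit 425432), .ofNat (nat_lit 500365), .ofNat (nat_lit 446789), .ofNat (nat_lit 521722)⟩⟩, [⟨nat_lit 0, nat_lit 100, nat_lit 97, nat_lit 59, nat_lit 242869437⟩]⟩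
noncomputable def p048_l87 : Lf2 := ⟨nat_lit 0, nat_lit 2, [nat_lit 10, nat_lit 5, nat_lit 5, nat_lit 20], true, nat_lit 240, nat_lit 280, nat_lit 0, nat_lit 336, ⟨nat_lit 0, nat_lit 0, nat_lit 1000, nat_lit 6, nat_lit 112, nat_lit 1000, nat_lit 191, nat_lit 1000, nat_lit 14293, nat_lit 243, nat_lit 117600, nat_lit 299, nat_lit 49348835, nat_lit 0, nat_lit 0, nat_lit 3930901, false, false⟩,
 nat_lit 0, nat_lit 5339, nat_lit 0, nat_lit 0, nat_lit 3107, nat_lit 0, nat_lit 0, nat_lit 0, nat_lit 0, nat_lit 0, nat_lit 0, nat_lit 0, nat_lit 0, nat_lit 0, nat_lit 9, nat_lit 367450, nat_lit 0, nat_lit 0, [(nat_lit 9, [(nat_lit 4, nat_lit 217), (nat_lit 5, nat_lit 783)])],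
 ⟨p048_k14, nat_lit 0, nat_lit 0, nat_lit 0, nat_lit 0, nat_lit 121062, [nat_lit 1080250801, nat_lit 904501200, nat_lit 358133201, nat_lit 2678000], [], [nat_lit 14844619967, nat_lit 15010809500, nat_lit 14875293703, nat_lit 15035672675, nat_lit 16959883693, nat_lit 17110983720, nat_lit 16918141125, nat_lit 17064189267], nat_lit 1271250, nat_lit 1271250, nat_lit 230001, nat_lit 490000, nat_lit 1271250, nat_lit 1271250, [nat_lit 490000, nat_lit 936250, nat_lit 1271250, nat_lit 1271250], [nat_lit 179, nat_lit 40, nat_lit 20, nat_lit 40]⟩, C1.Rw.none,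
 ⟨nat_lit 5852, nat_lit 5917, ⟨.ofNat (nat_lit 228543), .ofNat (nat_lit 307076), .ofNat (nat_lit 249882), .ofNat (nat_lit 328416), .ofNat (nat_lit 230732), .ofNat (nat_lit 308718), .ofNat (nat_lit 252071), .ofNat (nat_lit 330057)⟩, ⟨.ofNat (nat_lit 429157), .ofNat (nat_lit 507691), .ofNat (nat_lit 450496), .ofNat (nat_lit 529030), .ofNat (nat_lit 428613), .ofNat (nat_lit 506599), .ofNat (nat_lit 449951), .ofNat (nat_lit 527937)⟩⟩, []⟩
noncomputable def p048_l88 : Lf2 := ⟨nat_lit 0, nat_lit 2, [nat_lit 10, nat_lit 5, nat_lit 5, nat_lit 20], true, nat_lit 240, nat_lit 280, nat_lit 0, nat_lit 336, ⟨nat_lit 0, nat_lit 0, nat_lit 1000, nat_lit 6, nat_lit 112, nat_lit 1000, nat_lit 191, nat_lit 1000, nat_lit 16917, nat_lit 244, nat_lit 117600, nat_lit 299, nat_lit 49331951, nat_lit 0, nat_lit 0, nat_lit 3936442, false, false⟩,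
 nat_lit 0, nat_lit 5248, nat_lit 0, nat_lit 0, nat_lit 3096, nat_lit 0, nat_lit 0, nat_lit 0, nat_lit 0, nat_lit 0, nat_lit 0, nat_lit 0, nat_lit 0, nat_lit 0, nat_lit 9, nat_lit 368050, nat_lit 0, nat_lit 0, [(nat_lit 9, [(nat_lit 4, nat_lit 213), (nat_lit 5, nat_lit 787)])],
 ⟨p048_k51, nat_lit 0, nat_lit 0, nat_lit 0, nat_lit 0, nat_lit 128969, [nat_lit 1077481201, nat_lit 904646800, nat_lit 357894801, nat_lit 2142000], [], [nat_lit 15025290078, nat_lit 15135926897, nat_lit 15052873341, nat_lit 15159644729, nat_lit 17122625968, nat_lit 17223227961, nat_lit 17078702253, nat_lit 17175943305], nat_lit 1271250, nat_lit 1271250, nat_lit 230001, nat_lit 490000, nat_lit 1271250, nat_lit 1271250, [nat_lit 490000, nat_lit 936250, nat_lit 1271250, nat_lit 1271250], [nat_lit 179, nat_lit 40, nat_lit 20, nat_lit 40]⟩, C1.Rw.none,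
 ⟨nat_lit 5809, nat_lit 5853, ⟨.ofNat (nat_lit 230732), .ofNat (nat_lit 308718), .ofNat (nat_lit 252071), .ofNat (nat_lit 330057), .ofNat (nat_lit 232187), .ofNat (nat_lit 309809), .ofNat (nat_lit 253526), .ofNat (nat_lit 331148)⟩, ⟨.ofNat (nat_lit 428613), .ofNat (nat_lit 506599), .ofNat (nat_lit 449951), .ofNat (nat_lit 527937), .ofNat (nat_lit 428247), .ofNat (nat_lit 505870), .ofNat (nat_lit 449586), .ofNat (nat_lit 527209)⟩⟩, []⟩
noncomputable def p048_l89 : Lf2 := ⟨nat_lit 0, nat_lit 2, [nat_lit 10, nat_lit 5, nat_lit 5, nat_lit 20], true, nat_lit 240, nat_lit 280, nat_lit 0, nat_lit 336, ⟨nat_lit 0, nat_lit 0, nat_lit 1000, nat_lit 6, nat_lit 113, nat_lit 1000, nat_lit 191, nat_lit 1000, nat_lit 15140, nat_lit 244, nat_lit 120417, nat_lit 300, nat_lit 49308505, nat_lit 0, nat_lit 0, nat_lit 3944096, false, false⟩,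
 nat_lit 0, nat_lit 4954, nat_lit 0, nat_lit 0, nat_lit 2950, nat_lit 0, nat_lit 367, nat_lit 0, nat_lit 0, nat_lit 0, nat_lit 0, nat_lit 0, nat_lit 0, nat_lit 0, nat_lit 31, nat_lit 845200, nat_lit 0, nat_lit 0, [(nat_lit 9, [(nat_lit 5, nat_lit 258), (nat_lit 6, nat_lit 742)])],
 ⟨p048_k19, nat_lit 0, nat_lit 0, nat_lit 0, nat_lit 0, nat_lit 152652, [nat_lit 974369201, nat_lit 1328732000, nat_lit 564604001, nat_lit 17668800], [], [nat_lit 15401179076, nat_lit 15670075926, nat_lit 15361121127, nat_lit 15610699926, nat_lit 17430663876, nat_lit 17675469400, nat_lit 17315408076, nat_lit 17564901400], nat_lit 1271250, nat_lit 1271250, nat_lit 230001, nat_lit 490000, nat_lit 1271250, nat_lit 1271250, [nat_lit 490000, nat_lit 936250, nat_lit 1271250, nat_lit 1271250], [nat_lit 179, nat_lit 40, nat_lit 20, nat_lit 40]⟩, C1.Rw.none,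
 ⟨nat_lit 5700, nat_lit 5810, ⟨.ofNat (nat_lit 232187), .ofNat (nat_lit 309809), .ofNat (nat_lit 253526), .ofNat (nat_lit 331148), .ofNat (nat_lit 235806), .ofNat (nat_lit 312525), .ofNat (nat_lit 257148), .ofNat (nat_lit 333867)⟩, ⟨.ofNat (nat_lit 428247), .ofNat (nat_lit 505870), .ofNat (nat_lit 449586), .ofNat (nat_lit 527209), .ofNat (nat_lit 427324), .ofNat (nat_lit 504043), .ofNat (nat_lit 448666), .ofNat (nat_lit 525385)⟩⟩, [⟨nat_lit 0, nat_lit 100, nat_lit 98, nat_lit 64, nat_lit 126162115⟩]⟩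
noncomputable def p048_l90 : Lf2 := ⟨nat_lit 0, nat_lit 2, [nat_lit 10, nat_lit 5, nat_lit 5, nat_lit 20], true, nat_lit 240, nat_lit 280, nat_lit 0, nat_lit 336, ⟨nat_lit 0, nat_lit 0, nat_lit 1000, nat_lit 6, nat_lit 115, nat_lit 1000, nat_lit 190, nat_lit 1000, nat_lit 15944, nat_lit 245, nat_lit 123267, nat_lit 301, nat_lit 49258728, nat_lit 0, nat_lit 0, nat_lit 3960154, false, false⟩,
 nat_lit 0, nat_lit 4887, nat_lit 0, nat_lit 0, nat_lit 2976, nat_lit 0, nat_lit 788, nat_lit 0, nat_lit 0, nat_lit 0, nat_lit 0, nat_lit 0, nat_lit 0, nat_lit 0, nat_lit 11, nat_lit 400000, nat_lit 0, nat_lit 0, [(nat_lit 9, [(nat_lit 5, nat_lit 1000)])],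
 ⟨p048_k43, nat_lit 0, nat_lit 0, nat_lit 0, nat_lit 0, nat_lit 199302, [nat_lit 946000001, nat_lit 940400000, nat_lit 381200000, nat_lit 13600000], [], [nat_lit 15585690989, nat_lit 16103366260, nat_lit 15607172581, nat_lit 16101535573, nat_lit 17575197028, nat_lit 18075393344, nat_lit 17461518017, nat_lit 17940939201], nat_lit 1271250, nat_lit 1271250, nat_lit 230001, nat_lit 490000, nat_lit 1271250, nat_lit 1271250, [nat_lit 490000, nat_lit 936250, nat_lit 1271250, nat_lit 1271250], [nat_lit 179, nat_lit 40, nat_lit 20, nat_lit 40]⟩, C1.Rw.none,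
 ⟨nat_lit 5477, nat_lit 5701, ⟨.ofNat (nat_lit 235806), .ofNat (nat_lit 312525), .ofNat (nat_lit 257148), .ofNat (nat_lit 333867), .ofNat (nat_lit 242980), .ofNat (nat_lit 317913), .ofNat (nat_lit 264337), .ofNat (nat_lit 339271)⟩, ⟨.ofNat (nat_lit 427324), .ofNat (nat_lit 504043), .ofNat (nat_lit 448666), .ofNat (nat_lit 525385), .ofNat (nat_lit 425432), .ofNat (nat_lit 500365), .ofNat (nat_lit 446789), .ofNat (nat_lit 521722)⟩⟩, [⟨nat_lit 0, nat_lit 100, nat_lit 96, nat_lit 69, nat_lit 127264840⟩, ⟨nat_lit 4, nat_lit 96, nat_lit 100, nat_lit 82, nat_lit 16229556⟩]⟩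
noncomputable def p048_l91 : Lf2 := ⟨nat_lit 0, nat_lit 5, [nat_lit 4, nat_lit 5, nat_lit 5, nat_lit 20], true, nat_lit 240, nat_lit 280, nat_lit 0, nat_lit 288, ⟨nat_lit 0, nat_lit 0, nat_lit 1000, nat_lit 6, nat_lit 92, nat_lit 1000, nat_lit 191, nat_lit 1000, nat_lit 14293, nat_lit 243, nat_lit 79350, nat_lit 284, nat_lit 50669481, nat_lit 0, nat_lit 0, nat_lit 3662219, false, false⟩,
 nat_lit 0, nat_lit 5875, nat_lit 0, nat_lit 0, nat_lit 3419, nat_lit 0, nat_lit 0, nat_lit 0, nat_lit 0, nat_lit 0, nat_lit 0, nat_lit 0, nat_lit 0, nat_lit 0, nat_lit 80, nat_lit 646000, nat_lit 0, nat_lit 0, [(nat_lit 9, [(nat_lit 5, nat_lit 590), (nat_lit 6, nat_lit 410)])],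
 ⟨p048_k9, nat_lit 0, nat_lit 0, nat_lit 0, nat_lit 0, nat_lit 126968, [nat_lit 1425266000, nat_lit 1966260000, nat_lit 1757066000, nat_lit 115973000], [], [nat_lit 15702871576, nat_lit 16722221898, nat_lit 15378278788, nat_lit 16388841072, nat_lit 17647185908, nat_lit 18817263787, nat_lit 17306396656, nat_lit 18337907896], nat_lit 1271250, nat_lit 1271250, nat_lit 134400, nat_lit 230001, nat_lit 1271250, nat_lit 1271250, [nat_lit 490000, nat_lit 936250, nat_lit 1271250, nat_lit 1271250], [nat_lit 138, nat_lit 40, nat_lit 20, nat_lit 40]⟩, C1.Rw.none,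
 ⟨nat_lit 5477, nat_lit 5917, ⟨.ofNat (nat_lit 197129), .ofNat (nat_lit 228543), .ofNat (nat_lit 218469), .ofNat (nat_lit 249882), .ofNat (nat_lit 213007), .ofNat (nat_lit 242980), .ofNat (nat_lit 234364), .ofNat (nat_lit 264337)⟩, ⟨.ofNat (nat_lit 429157), .ofNat (nat_lit 507691), .ofNat (nat_lit 450496), .ofNat (nat_lit 529030), .ofNat (nat_lit 425432), .ofNat (nat_lit 500365), .ofNat (nat_lit 446789), .ofNat (nat_lit 521722)⟩⟩, [⟨nat_lit 0, nat_lit 100, nat_lit 97, nat_lit 59, nat_lit 288168628⟩]⟩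
noncomputable def p048_l92 : Lf2 := ⟨nat_lit 0, nat_lit 5, [nat_lit 4, nat_lit 5, nat_lit 5, nat_lit 20], true, nat_lit 240, nat_lit 280, nat_lit 0, nat_lit 336, ⟨nat_lit 0, nat_lit 0, nat_lit 1000, nat_lit 6, nat_lit 114, nat_lit 1000, nat_lit 191, nat_lit 1000, nat_lit 14293, nat_lit 243, nat_lit 120417, nat_lit 300, nat_lit 49293271, nat_lit 0, nat_lit 0, nat_lit 3949277, false, false⟩,
 nat_lit 0, nat_lit 5882, nat_lit 0, nat_lit 0, nat_lit 3423, nat_lit 0, nat_lit 0, nat_lit 0, nat_lit 0, nat_lit 0, nat_lit 0, nat_lit 0, nat_lit 0, nat_lit 0, nat_lit 75, nat_lit 595600, nat_lit 0, nat_lit 0, [(nat_lit 9, [(nat_lit 5, nat_lit 674), (nat_lit 6, nat_lit 326)])],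
 ⟨p048_k9, nat_lit 0, nat_lit 0, nat_lit 0, nat_lit 0, nat_lit 126968, [nat_lit 1400167601, nat_lit 1883996000, nat_lit 1671887600, nat_lit 113967800], [], [nat_lit 15493673796, nat_lit 16504679424, nat_lit 15255145386, nat_lit 16233157992, nat_lit 17422601152, nat_lit 18340887032, nat_lit 17122426088, nat_lit 18062349240], nat_lit 1271250, nat_lit 1271250, nat_lit 230001, nat_lit 490000, nat_lit 1271250, nat_lit 1271250, [nat_lit 490000, nat_lit 936250, nat_lit 1271250, nat_lit 1271250], [nat_lit 138, nat_lit 40, nat_lit 20, nat_lit 40]⟩, C1.Rw.none,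
 ⟨nat_lit 5477, nat_lit 5917, ⟨.ofNat (nat_lit 228543), .ofNat (nat_lit 307076), .ofNat (nat_lit 249882), .ofNat (nat_lit 328416), .ofNat (nat_lit 242980), .ofNat (nat_lit 317913), .ofNat (nat_lit 264337), .ofNat (nat_lit 339271)⟩, ⟨.ofNat (nat_lit 429157), .ofNat (nat_lit 507691), .ofNat (nat_lit 450496), .ofNat (nat_lit 529030), .ofNat (nat_lit 425432), .ofNat (nat_lit 500365), .ofNat (nat_lit 446789), .ofNat (nat_lit 521722)⟩⟩, [⟨nat_lit 0, nat_lit 100, nat_lit 96, nat_lit 69, nat_lit 145262326⟩, ⟨nat_lit 4, nat_lit 93, nat_lit 100, nat_lit 81, nat_lit 48156362⟩]⟩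
noncomputable def b_V_600_600_10_63 : St := ⟨true, nat_lit 1, nat_lit 1, nat_lit 1, nat_lit 80, nat_lit 260, nat_lit 280, nat_lit 240, nat_lit 260, nat_lit 24, nat_lit 80, nat_lit 60, nat_lit 80, nat_lit 240, nat_lit 280, nat_lit 0, nat_lit 336, nat_lit 0, nat_lit 20, nat_lit 0, nat_lit 600, nat_lit 0, nat_lit 0⟩
theorem d_V_600_600_10_63 (h : EB TB.env) : Dead b_V_600_600_10_63 := chkB_sound0 h (T :=
(.spl (nat_lit 6) (nat_lit 8)
(.spl (nat_lit 2) (nat_lit 40)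
(.trX (nat_lit 23) (nat_lit 100) (nat_lit 92) (nat_lit 61) (nat_lit 288) (.spl (nat_lit 6) (nat_lit 4)
(.spl (nat_lit 0) (nat_lit 270)
(.spl (nat_lit 1) (nat_lit 250)
(.leaf p048_l80)
(.trZ (nat_lit 0) (nat_lit 100) (nat_lit 99) (nat_lit 55) (nat_lit 28) (.spl (nat_lit 4) (nat_lit 260)
(.leaf p048_l81)
(.trX (nat_lit 23) (nat_lit 100) (nat_lit 99) (nat_lit 63) (nat_lit 268) (.spl (nat_lit 1) (nat_lit 255)
(.leaf p048_l82)
(.trZ (nat_lit 0) (nat_lit 100) (nat_lit 99) (nat_lit 57) (nat_lit 32) (.spl (nat_lit 0) (nat_lit 265)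
(.leaf p048_l83)
(.trZ (nat_lit 0) (nat_lit 100) (nat_lit 98) (nat_lit 60) (nat_lit 36) (.leaf p048_l84)))))))))
(.trZ (nat_lit 0) (nat_lit 100) (nat_lit 96) (nat_lit 54) (nat_lit 28) (.leaf p048_l85)))
(.leaf p048_l86)))
(.spl (nat_lit 0) (nat_lit 270)
(.spl (nat_lit 0) (nat_lit 265)
(.spl (nat_lit 0) (nat_lit 263)
(.leaf p048_l87)
(.leaf p048_l88))
(.leaf p048_l89))
(.leaf p048_l90)))
(.spl (nat_lit 2) (nat_lit 40)
(.trX (nat_lit 23) (nat_lit 100) (nat_lit 92) (nat_lit 61) (nat_lit 288) (.leaf p048_l91))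
(.leaf p048_l92)))) (by decide +kernel)
noncomputable def p048_l93 : Lf2 := ⟨nat_lit 0, nat_lit 5, [nat_lit 4, nat_lit 5, nat_lit 5, nat_lit 20], true, nat_lit 280, nat_lit 320, nat_lit 0, nat_lit 300, ⟨nat_lit 0, nat_lit 1000, nat_lit 0, nat_lit 6, nat_lit 108, nat_lit 1000, nat_lit 221, nat_lit 0, nat_lit 0, nat_lit 0, nat_lit 0, nat_lit 0, nat_lit 46836309, nat_lit 4946110, nat_lit 15217581, nat_lit 4142969, false, false⟩,
 nat_lit 0, nat_lit 0, nat_lit 0, nat_lit 2247, nat_lit 0, nat_lit 0, nat_lit 0, nat_lit 0, nat_lit 389, nat_lit 0, nat_lit 0, nat_lit 0, nat_lit 0, nat_lit 0, nat_lit 0, nat_lit 250000, nat_lit 0, nat_lit 0, [(nat_lit 9, [(nat_lit 0, nat_lit 1000)])],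
 ⟨p048_k11, nat_lit 0, nat_lit 0, nat_lit 0, nat_lit 0, nat_lit 218582, [nat_lit 2727200000, nat_lit 2570400001, nat_lit 2996800000, nat_lit 3375200000], [], [nat_lit 14955237200, nat_lit 15673952800, nat_lit 15963130000, nat_lit 16662432000, nat_lit 16485403600, nat_lit 17163914401, nat_lit 17447660000, nat_lit 18109084000], nat_lit 1271250, nat_lit 1271250, nat_lit 134400, nat_lit 490000, nat_lit 1271250, nat_lit 1271250, [nat_lit 936250, nat_lit 1100000, nat_lit 1442500, nat_lit 1271250], [nat_lit 196, nat_lit 40, nat_lit 20, nat_lit 40]⟩, C1.Rw.none,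
 ⟨nat_lit 5477, nat_lit 5917, ⟨.ofNat (nat_lit 197129), .ofNat (nat_lit 307076), .ofNat (nat_lit 218469), .ofNat (nat_lit 328416), .ofNat (nat_lit 213007), .ofNat (nat_lit 317913), .ofNat (nat_lit 234364), .ofNat (nat_lit 339271)⟩, ⟨.ofNat (nat_lit 507691), .ofNat (nat_lit 586223), .ofNat (nat_lit 529030), .ofNat (nat_lit 607556), .ofNat (nat_lit 500365), .ofNat (nat_lit 575297), .ofNat (nat_lit 521722), .ofNat (nat_lit 596648)⟩⟩, [⟨nat_lit 0, nat_lit 100, nat_lit 97, nat_lit 59, nat_lit 16758106⟩]⟩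
noncomputable def p048_l94 : Lf2 := ⟨nat_lit 0, nat_lit 1, [nat_lit 19, nat_lit 5, nat_lit 5, nat_lit 20], false, nat_lit 280, nat_lit 320, nat_lit 0, nat_lit 80, ⟨nat_lit 1000, nat_lit 0, nat_lit 0, nat_lit 0, nat_lit 0, nat_lit 0, nat_lit 0, nat_lit 0, nat_lit 0, nat_lit 0, nat_lit 0, nat_lit 0, nat_lit 0, nat_lit 0, nat_lit 0, nat_lit 0, false, false⟩,
 nat_lit 11412, nat_lit 0, nat_lit 4281, nat_lit 7353, nat_lit 6642, nat_lit 8308, nat_lit 3177, nat_lit 0, nat_lit 0, nat_lit 0, nat_lit 0, nat_lit 0, nat_lit 0, nat_lit 0, nat_lit 0, nat_lit 0, nat_lit 0, nat_lit 0, [],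
 ⟨p048_k52, nat_lit 0, nat_lit 0, nat_lit 0, nat_lit 0, nat_lit 164710, [nat_lit 4688000000, nat_lit 6250000000], [], [nat_lit 21803911457, nat_lit 23030846883, nat_lit 20847514318, nat_lit 22064950740, nat_lit 24594254572, nat_lit 26067566021, nat_lit 23613843616, nat_lit 24678521296], nat_lit 1271250, nat_lit 1271250, nat_lit 134400, nat_lit 230001, nat_lit 1271250, nat_lit 1271250, [nat_lit 1100000, nat_lit 1442500], [nat_lit 31, nat_lit 40, nat_lit 40, nat_lit 80]⟩, ⟨p048_k53, nat_lit 0, nat_lit 0, nat_lit 0, nat_lit 0, nat_lit 184497, [nat_lit 4688000000, nat_lit 6250000000], [], [nat_lit 17828985741, nat_lit 19091699970, nat_lit 15986683072, nat_lit 17204762320, nat_lit 12801107303, nat_lit 13798235502, nat_lit 11562396032, nat_lit 12550676116], nat_lit 1271250, nat_lit 1271250, nat_lit 134400, nat_lit 230001, nat_lit 0, nat_lit 490000, [nat_lit 1100000, nat_lit 1442500], [nat_lit 31, nat_lit 40, nat_lit 40, nat_lit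 80]⟩,
 zbF0, [⟨nat_lit 0, nat_lit 100, nat_lit 96, nat_lit 57, nat_lit 1134855816⟩, ⟨nat_lit 0, nat_lit 100, nat_lit 97, nat_lit 49, nat_lit 561565316⟩, ⟨nat_lit 4, nat_lit 93, nat_lit 100, nat_lit 81, nat_lit 740208421⟩]⟩
noncomputable def p048_l95 : Lf2 := ⟨nat_lit 0, nat_lit 1, [nat_lit 19, nat_lit 5, nat_lit 5, nat_lit 20], false, nat_lit 280, nat_lit 320, nat_lit 80, nat_lit 160, ⟨nat_lit 1000, nat_lit 0, nat_lit 0, nat_lit 0, nat_lit 0, nat_lit 0, nat_lit 0, nat_lit 0, nat_lit 0, nat_lit 0, nat_lit 0, nat_lit 0, nat_lit 0, nat_lit 0, nat_lit 0, nat_lit 0, false, false⟩,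
 nat_lit 22037, nat_lit 0, nat_lit 0, nat_lit 0, nat_lit 6642, nat_lit 11666, nat_lit 3177, nat_lit 0, nat_lit 0, nat_lit 0, nat_lit 0, nat_lit 0, nat_lit 0, nat_lit 0, nat_lit 0, nat_lit 0, nat_lit 0, nat_lit 0, [],
 ⟨p048_k52, nat_lit 0, nat_lit 0, nat_lit 0, nat_lit 0, nat_lit 164710, [nat_lit 4688000000, nat_lit 6250000000], [], [nat_lit 21803911457, nat_lit 23030846883, nat_lit 20847514318, nat_lit 22064950740, nat_lit 24594254572, nat_lit 26067566021, nat_lit 23613843616, nat_lit 24678521296], nat_lit 1271250, nat_lit 1271250, nat_lit 134400, nat_lit 230001, nat_lit 1271250, nat_lit 1271250, [nat_lit 1100000, nat_lit 1442500], [nat_lit 31, nat_lit 40, nat_lit 40, nat_lit 80]⟩, ⟨p048_k53, nat_lit 0, nat_lit 0, nat_lit 0, nat_lit 0, nat_lit 184497, [nat_lit 4688000000, nat_lit 6250000000], [], [nat_lit 8572886898, nat_lit 10558727390, nat_lit 5546553464, nat_lit 7528540582, nat_lit 8620134112, nat_lit 10389216941,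 nat_lit 5845100176, nat_lit 7607942960], nat_lit 1271250, nat_lit 1271250, nat_lit 134400, nat_lit 230001, nat_lit 490000, nat_lit 1100001, [nat_lit 1100000, nat_lit 1442500], [nat_lit 31, nat_lit 40, nat_lit 40, nat_lit 80]⟩,
 zbF0, [⟨nat_lit 0, nat_lit 100, nat_lit 96, nat_lit 57, nat_lit 1993441023⟩, ⟨nat_lit 4, nat_lit 93, nat_lit 100, nat_lit 81, nat_lit 740208421⟩]⟩
noncomputable def p048_l96 : Lf2 := ⟨nat_lit 0, nat_lit 2, [nat_lit 10, nat_lit 5, nat_lit 5, nat_lit 20], false, nat_lit 280, nat_lit 320, nat_lit 0, nat_lit 160, ⟨nat_lit 1000, nat_lit 0, nat_lit 0, nat_lit 0, nat_lit 0, nat_lit 0, nat_lit 0, nat_lit 0, nat_lit 0, nat_lit 0, nat_lit 0, nat_lit 0, nat_lit 0, nat_lit 0, nat_lit 0, nat_lit 0, false, false⟩,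
 nat_lit 18434, nat_lit 0, nat_lit 0, nat_lit 13552, nat_lit 7607, nat_lit 9759, nat_lit 2028, nat_lit 0, nat_lit 0, nat_lit 0, nat_lit 0, nat_lit 0, nat_lit 0, nat_lit 0, nat_lit 0, nat_lit 0, nat_lit 0, nat_lit 0, [],
 ⟨p048_k15, nat_lit 0, nat_lit 0, nat_lit 0, nat_lit 0, nat_lit 62031, [nat_lit 4688000000, nat_lit 6250000000], [], [nat_lit 21465537202, nat_lit 22394804869, nat_lit 20339881184, nat_lit 20939470631, nat_lit 25764062166, nat_lit 26559779052, nat_lit 24021178054, nat_lit 24816311205], nat_lit 1271250, nat_lit 1271250, nat_lit 134400, nat_lit 230001, nat_lit 1271250, nat_lit 1271250, [nat_lit 1100000, nat_lit 1442500], [nat_lit 31, nat_lit 40, nat_lit 40, nat_lit 80]⟩, ⟨p048_k54, nat_lit 0, nat_lit 0, nat_lit 0, nat_lit 0, nat_lit 69526, [nat_lit 4688000000, nat_lit 7968000000], [], [nat_lit 23638589826, nat_lit 24899935932, nat_lit 21394623352, nat_lit 22652034559, nat_lit 17189170082, nat_lit 17527044840,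 nat_lit 17297908300, nat_lit 15750383280], nat_lit 1271250, nat_lit 1271250, nat_lit 134400, nat_lit 230001, nat_lit 0, nat_lit 1100001, [nat_lit 1100000, nat_lit 1785000], [nat_lit 39, nat_lit 40, nat_lit 40, nat_lit 80]⟩,
 zbF0, [⟨nat_lit 0, nat_lit 100, nat_lit 97, nat_lit 54, nat_lit 1847813123⟩, ⟨nat_lit 4, nat_lit 91, nat_lit 100, nat_lit 80, nat_lit 989186486⟩]⟩
noncomputable def p048_l97 : Lf2 := ⟨nat_lit 0, nat_lit 2, [nat_lit 10, nat_lit 5, nat_lit 5, nat_lit 20], false, nat_lit 280, nat_lit 308, nat_lit 0, nat_lit 160, ⟨nat_lit 240, nat_lit 0, nat_lit 760, nat_lit 6, nat_lit 93, nat_lit 760, nat_lit 216, nat_lit 760, nat_lit 2744, nat_lit 220, nat_lit 81667, nat_lit 285, nat_lit 48192480, nat_lit 0, nat_lit 0, nat_lit 3912786, false, false⟩,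
 nat_lit 6952, nat_lit 0, nat_lit 0, nat_lit 11628, nat_lit 4233, nat_lit 3680, nat_lit 289, nat_lit 0, nat_lit 0, nat_lit 0, nat_lit 0, nat_lit 0, nat_lit 0, nat_lit 0, nat_lit 0, nat_lit 760000, nat_lit 0, nat_lit 0, [(nat_lit 9, [(nat_lit 6, nat_lit 760)])],
 ⟨p048_k45, nat_lit 0, nat_lit 0, nat_lit 0, nat_lit 0, nat_lit 111692, [nat_lit 1681624001, nat_lit 1266232001, nat_lit 937600000], [], [nat_lit 18728963006, nat_lit 19402768478, nat_lit 18447514919, nat_lit 18941788299, nat_lit 20931596382, nat_lit 21551567855, nat_lit 20432861697, nat_lit 21050324782], nat_lit 1271250, nat_lit 1271250, nat_lit 157850, nat_lit 230001, nat_lit 1271250, nat_lit 1271250, [nat_lit 936250, nat_lit 1271250, nat_lit 1271250], [nat_lit 185, nat_lit 40, nat_lit 20, nat_lit 40]⟩, ⟨p048_k55, nat_lit 0, nat_lit 0, nat_lit 0, nat_lit 0, nat_lit 132114, [nat_lit 1125120000, nat_lit 1500000000, nat_lit 1701480000], [], [nat_lit 7579267520, nat_lit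 6631008064, nat_lit 6433536320, nat_lit 5675634720, nat_lit 1798860992, nat_lit 2174063537, nat_lit 1393059200, nat_lit 1765193920], nat_lit 1271250, nat_lit 1271250, nat_lit 157850, nat_lit 230001, nat_lit 0, nat_lit 1100001, [nat_lit 1100000, nat_lit 1442500, nat_lit 1271250], [nat_lit 176, nat_lit 40, nat_lit 20, nat_lit 40]⟩,
 ⟨nat_lit 5477, nat_lit 5701, ⟨.ofNat (nat_lit 212791), .ofNat (nat_lit 235806), .ofNat (nat_lit 223462), .ofNat (nat_lit 246477), .ofNat (nat_lit 220501), .ofNat (nat_lit 242980), .ofNat (nat_lit 231179), .ofNat (nat_lit 253659)⟩, ⟨.ofNat (nat_lit 504043), .ofNat (nat_lit 557746), .ofNat (nat_lit 525385), .ofNat (nat_lit 579088), .ofNat (nat_lit 500365), .ofNat (nat_lit 552818), .ofNat (nat_lit 521722), .ofNat (nat_lit 574176)⟩⟩, [⟨nat_lit 0, nat_lit 100, nat_lit 96, nat_lit 54, nat_lit 887297513⟩, ⟨nat_lit 16, nat_lit 100, nat_lit 96, nat_lit 82, nat_lit 557295863⟩]⟩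
noncomputable def p048_l98 : Lf2 := ⟨nat_lit 0, nat_lit 2, [nat_lit 10, nat_lit 5, nat_lit 5, nat_lit 20], false, nat_lit 280, nat_lit 320, nat_lit 0, nat_lit 160, ⟨nat_lit 481, nat_lit 519, nat_lit 0, nat_lit 6, nat_lit 112, nat_lit 519, nat_lit 221, nat_lit 0, nat_lit 0, nat_lit 0, nat_lit 0, nat_lit 0, nat_lit 46599007, nat_lit 5218753, nat_lit 15182240, nat_lit 4192460, false, false⟩,
 nat_lit 14364, nat_lit 0, nat_lit 0, nat_lit 0, nat_lit 6220, nat_lit 7604, nat_lit 1983, nat_lit 0, nat_lit 0, nat_lit 0, nat_lit 0, nat_lit 0, nat_lit 0, nat_lit 0, nat_lit 0, nat_lit 519000, nat_lit 0, nat_lit 0, [(nat_lit 9, [(nat_lit 2, nat_lit 519)])],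
 ⟨p048_k15, nat_lit 0, nat_lit 0, nat_lit 0, nat_lit 0, nat_lit 166894, [nat_lit 3637267200, nat_lit 4215104800], [], [nat_lit 19388383780, nat_lit 20566113800, nat_lit 18535807480, nat_lit 19666850360, nat_lit 22689488840, nat_lit 24112779760, nat_lit 21122162320, nat_lit 22505305360], nat_lit 1271250, nat_lit 1271250, nat_lit 230001, nat_lit 490000, nat_lit 1271250, nat_lit 1271250, [nat_lit 1100000, nat_lit 1442500], [nat_lit 31, nat_lit 40, nat_lit 40, nat_lit 80]⟩, ⟨p048_k56, nat_lit 0, nat_lit 0, nat_lit 0, nat_lit 0, nat_lit 187060, [nat_lit 2254928000, nat_lit 3006250000, nat_lit 3832608000], [], [nat_lit 12762351804, nat_lit 11622506294, nat_lit 8290238100, nat_lit 9126362016, nat_lit 4184635756, nat_lit 4901484165, nat_lit 2516473752, nat_lit 3202244061], nat_lit 1271250, nat_lit 1271250, nat_lit 230001, nat_lit 490000, nat_lit 0, nat_lit 1100001, [nat_lit 1100000, nat_lit 1442500, nat_lit 1271250], [nat_lit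 9, nat_lit 40, nat_lit 40, nat_lit 80]⟩,
 ⟨nat_lit 5477, nat_lit 5917, ⟨.ofNat (nat_lit 228543), .ofNat (nat_lit 307076), .ofNat (nat_lit 239212), .ofNat (nat_lit 317746), .ofNat (nat_lit 242980), .ofNat (nat_lit 317913), .ofNat (nat_lit 253659), .ofNat (nat_lit 328592)⟩, ⟨.ofNat (nat_lit 507691), .ofNat (nat_lit 586223), .ofNat (nat_lit 529030), .ofNat (nat_lit 607556), .ofNat (nat_lit 500365), .ofNat (nat_lit 575297), .ofNat (nat_lit 521722), .ofNat (nat_lit 596648)⟩⟩, [⟨nat_lit 16, nat_lit 100, nat_lit 93, nat_lit 81, nat_lit 656285580⟩]⟩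
noncomputable def p048_l99 : Lf2 := ⟨nat_lit 0, nat_lit 5, [nat_lit 4, nat_lit 5, nat_lit 5, nat_lit 20], false, nat_lit 280, nat_lit 320, nat_lit 0, nat_lit 160, ⟨nat_lit 1000, nat_lit 0, nat_lit 0, nat_lit 0, nat_lit 0, nat_lit 0, nat_lit 0, nat_lit 0, nat_lit 0, nat_lit 0, nat_lit 0, nat_lit 0, nat_lit 0, nat_lit 0, nat_lit 0, nat_lit 0, false, false⟩,
 nat_lit 16320, nat_lit 0, nat_lit 0, nat_lit 25047, nat_lit 7398, nat_lit 8640, nat_lit 2194, nat_lit 0, nat_lit 0, nat_lit 3662, nat_lit 0, nat_lit 0, nat_lit 0, nat_lit 0, nat_lit 0, nat_lit 0, nat_lit 0, nat_lit 0, [],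
 ⟨p048_k26, nat_lit 0, nat_lit 0, nat_lit 0, nat_lit 0, nat_lit 24166, [nat_lit 4688000000, nat_lit 6250000000, nat_lit 7968000000], [], [nat_lit 21607085207, nat_lit 22202892188, nat_lit 19325646760, nat_lit 19892259607, nat_lit 25510223724, nat_lit 26293389700, nat_lit 21920455326, nat_lit 22577987256], nat_lit 1271250, nat_lit 1271250, nat_lit 134400, nat_lit 490000, nat_lit 1271250, nat_lit 1271250, [nat_lit 1100000, nat_lit 1442500, nat_lit 1271250], [nat_lit 9, nat_lit 40, nat_lit 40, nat_lit 80]⟩, ⟨p048_k32, nat_lit 0, nat_lit 0, nat_lit 0, nat_lit 0, nat_lit 27155, [nat_lit 4688000000, nat_lit 6250000000, nat_lit 9842000000], [], [nat_lit 18124363084, nat_lit 19136404169, nat_lit 14171192640, nat_lit 15208056400, nat_lit 13156402785, nat_lit 14052528105, nat_lit 14162549440, nat_lit 11978512960], nat_lit 1271250, nat_lit 1271250, nat_lit 134400, nat_lit 490000, nat_lit 0, nat_lit 1100001, [nat_lit 1100000, nat_lit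 1442500, nat_lit 1271250], [nat_lit 11, nat_lit 40, nat_lit 40, nat_lit 80]⟩,
 zbF0, [⟨nat_lit 0, nat_lit 100, nat_lit 97, nat_lit 59, nat_lit 1030632998⟩, ⟨nat_lit 4, nat_lit 91, nat_lit 100, nat_lit 80, nat_lit 956452317⟩]⟩
noncomputable def p048_l100 : Lf2 := ⟨nat_lit 0, nat_lit 4, [nat_lit 38, nat_lit 5, nat_lit 5, nat_lit 20], false, nat_lit 280, nat_lit 308, nat_lit 0, nat_lit 160, ⟨nat_lit 261, nat_lit 0, nat_lit 739, nat_lit 6, nat_lit 109, nat_lit 739, nat_lit 216, nat_lit 739, nat_lit 2744, nat_lit 220, nat_lit 109350, nat_lit 296, nat_lit 47302713, nat_lit 0, nat_lit 0, nat_lit 4108411, false, false⟩,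
 nat_lit 7775, nat_lit 0, nat_lit 0, nat_lit 11098, nat_lit 4735, nat_lit 4116, nat_lit 149, nat_lit 0, nat_lit 0, nat_lit 0, nat_lit 0, nat_lit 0, nat_lit 0, nat_lit 0, nat_lit 0, nat_lit 739000, nat_lit 0, nat_lit 0, [(nat_lit 9, [(nat_lit 6, nat_lit 739)])],
 ⟨p048_k57, nat_lit 0, nat_lit 0, nat_lit 0, nat_lit 0, nat_lit 73903, [nat_lit 2034694400, nat_lit 1084390000, nat_lit 161666600], [], [nat_lit 19504235844, nat_lit 20211647641, nat_lit 18469664560, nat_lit 18969397530, nat_lit 21701227427, nat_lit 22351695290, nat_lit 19996314682, nat_lit 20569927775], nat_lit 1271250, nat_lit 1271250, nat_lit 157850, nat_lit 490000, nat_lit 1271250, nat_lit 1271250, [nat_lit 1100000, nat_lit 1442500, nat_lit 1271250], [nat_lit 9, nat_lit 40, nat_lit 40, nat_lit 80]⟩, ⟨p048_k58, nat_lit 0, nat_lit 0, nat_lit 0, nat_lit 0, nat_lit 87568, [nat_lit 1223568000, nat_lit 1631250000, nat_lit 2079648000], [], [nat_lit 8217012209, nat_lit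 7301352565, nat_lit 4501329252, nat_lit 4954152912, nat_lit 2868368895, nat_lit 3258526761, nat_lit 1378207416, nat_lit 1749623409], nat_lit 1271250, nat_lit 1271250, nat_lit 157850, nat_lit 490000, nat_lit 0, nat_lit 1100001, [nat_lit 1100000, nat_lit 1442500, nat_lit 1271250], [nat_lit 9, nat_lit 40, nat_lit 40, nat_lit 80]⟩,
 ⟨nat_lit 5477, nat_lit 5701, ⟨.ofNat (nat_lit 212791), .ofNat (nat_lit 312525), .ofNat (nat_lit 223462), .ofNat (nat_lit 323196), .ofNat (nat_lit 220501), .ofNat (nat_lit 317913), .ofNat (nat_lit 231179), .ofNat (nat_lit 328592)⟩, ⟨.ofNat (nat_lit 504043), .ofNat (nat_lit 557746), .ofNat (nat_lit 525385), .ofNat (nat_lit 579088), .ofNat (nat_lit 500365), .ofNat (nat_lit 552818), .ofNat (nat_lit 521722), .ofNat (nat_lit 574176)⟩⟩, [⟨nat_lit 0, nat_lit 100, nat_lit 95, nat_lit 59, nat_lit 632094775⟩, ⟨nat_lit 4, nat_lit 96, nat_lit 100, nat_lit 82, nat_lit 558595083⟩]⟩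
noncomputable def p048_l101 : Lf2 := ⟨nat_lit 0, nat_lit 5, [nat_lit 4, nat_lit 5, nat_lit 5, nat_lit 20], true, nat_lit 280, nat_lit 308, nat_lit 0, nat_lit 160, ⟨nat_lit 0, nat_lit 0, nat_lit 1000, nat_lit 6, nat_lit 109, nat_lit 1000, nat_lit 216, nat_lit 1000, nat_lit 2744, nat_lit 220, nat_lit 109350, nat_lit 296, nat_lit 47302713, nat_lit 0, nat_lit 0, nat_lit 4108411, false, false⟩,
 nat_lit 0, nat_lit 100000, nat_lit 0, nat_lit 100000, nat_lit 3942, nat_lit 0, nat_lit 0, nat_lit 0, nat_lit 0, nat_lit 0, nat_lit 0, nat_lit 0, nat_lit 0, nat_lit 0, nat_lit 55, nat_lit 400000, nat_lit 0, nat_lit 0, [(nat_lit 9, [(nat_lit 5, nat_lit 1000)])],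
 ⟨p048_k41, nat_lit 0, nat_lit 0, nat_lit 0, nat_lit 0, nat_lit 10302, [nat_lit 2406400000, nat_lit 893600000, nat_lit 116000000], [], [nat_lit 19056492303, nat_lit 19471983000, nat_lit 18333895605, nat_lit 18733058136, nat_lit 20824744447, nat_lit 21423955582, nat_lit 19614263431, nat_lit 20117674540], nat_lit 1271250, nat_lit 1271250, nat_lit 157850, nat_lit 490000, nat_lit 1271250, nat_lit 1271250, [nat_lit 1100000, nat_lit 1442500, nat_lit 1271250], [nat_lit 9, nat_lit 40, nat_lit 40, nat_lit 80]⟩, C1.Rw.none,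
 ⟨nat_lit 5477, nat_lit 5701, ⟨.ofNat (nat_lit 212791), .ofNat (nat_lit 312525), .ofNat (nat_lit 223462), .ofNat (nat_lit 323196), .ofNat (nat_lit 220501), .ofNat (nat_lit 317913), .ofNat (nat_lit 231179), .ofNat (nat_lit 328592)⟩, ⟨.ofNat (nat_lit 504043), .ofNat (nat_lit 557746), .ofNat (nat_lit 525385), .ofNat (nat_lit 579088), .ofNat (nat_lit 500365), .ofNat (nat_lit 552818), .ofNat (nat_lit 521722), .ofNat (nat_lit 574176)⟩⟩, [⟨nat_lit 0, nat_lit 100, nat_lit 95, nat_lit 64, nat_lit 183775518⟩, ⟨nat_lit 4, nat_lit 96, nat_lit 100, nat_lit 82, nat_lit 7461569314⟩]⟩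
noncomputable def p048_l102 : Lf2 := ⟨nat_lit 0, nat_lit 5, [nat_lit 4, nat_lit 5, nat_lit 5, nat_lit 20], false, nat_lit 280, nat_lit 320, nat_lit 160, nat_lit 180, ⟨nat_lit 1000, nat_lit 0, nat_lit 0, nat_lit 0, nat_lit 0, nat_lit 0, nat_lit 0, nat_lit 0, nat_lit 0, nat_lit 0, nat_lit 0, nat_lit 0, nat_lit 0, nat_lit 0, nat_lit 0, nat_lit 0, false, false⟩,
 nat_lit 35976, nat_lit 0, nat_lit 0, nat_lit 0, nat_lit 6938, nat_lit 19046, nat_lit 3451, nat_lit 0, nat_lit 0, nat_lit 2295, nat_lit 0, nat_lit 0, nat_lit 0, nat_lit 0, nat_lit 0, nat_lit 0, nat_lit 0, nat_lit 0, [],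
 ⟨p048_k30, nat_lit 0, nat_lit 0, nat_lit 0, nat_lit 0, nat_lit 152003, [nat_lit 4688000000, nat_lit 7968000000], [], [nat_lit 21619135917, nat_lit 22661005894, nat_lit 19470338286, nat_lit 20555842284, nat_lit 24951536244, nat_lit 26462620172, nat_lit 22078972532, nat_lit 23123261176], nat_lit 1271250, nat_lit 1271250, nat_lit 134400, nat_lit 490000, nat_lit 1271250, nat_lit 1271250, [nat_lit 1100000, nat_lit 1785000], [nat_lit 39, nat_lit 40, nat_lit 40, nat_lit 80]⟩, ⟨p048_k59, nat_lit 0, nat_lit 0, nat_lit 0, nat_lit 0, nat_lit 170672, [nat_lit 4688000000, nat_lit 7968000000, nat_lit 9842000000], [], [nat_lit 9637273812, nat_lit 10383663862, nat_lit 4248626128, nat_lit 1980032398, nat_lit 10965600362, nat_lit 11673257087, nat_lit 8556971260, nat_lit 6200962014], nat_lit 1271250, nat_lit 1271250, nat_lit 134400, nat_lit 490000, nat_lit 1100001, nat_lit 1271250, [nat_lit 1100000, nat_lit 1785000, nat_lit 1271250], [nat_lit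 29, nat_lit 40, nat_lit 40, nat_lit 80]⟩,
 zbF0, [⟨nat_lit 0, nat_lit 100, nat_lit 94, nat_lit 61, nat_lit 1284755769⟩, ⟨nat_lit 4, nat_lit 93, nat_lit 100, nat_lit 81, nat_lit 1378526772⟩]⟩
noncomputable def p048_l103 : Lf2 := ⟨nat_lit 0, nat_lit 5, [nat_lit 4, nat_lit 5, nat_lit 5, nat_lit 20], false, nat_lit 280, nat_lit 320, nat_lit 180, nat_lit 200, ⟨nat_lit 1000, nat_lit 0, nat_lit 0, nat_lit 0, nat_lit 0, nat_lit 0, nat_lit 0, nat_lit 0, nat_lit 0, nat_lit 0, nat_lit 0, nat_lit 0, nat_lit 0, nat_lit 0, nat_lit 0, nat_lit 0, false, false⟩,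
 nat_lit 33649, nat_lit 0, nat_lit 0, nat_lit 0, nat_lit 6938, nat_lit 17814, nat_lit 3451, nat_lit 0, nat_lit 0, nat_lit 2113, nat_lit 0, nat_lit 0, nat_lit 0, nat_lit 0, nat_lit 0, nat_lit 0, nat_lit 0, nat_lit 0, [],
 ⟨p048_k30, nat_lit 0, nat_lit 0, nat_lit 0, nat_lit 0, nat_lit 152003, [nat_lit 4688000000, nat_lit 7968000000], [], [nat_lit 21619135917, nat_lit 22661005894, nat_lit 19470338286, nat_lit 20555842284, nat_lit 24951536244, nat_lit 26462620172, nat_lit 22078972532, nat_lit 23123261176], nat_lit 1271250, nat_lit 1271250, nat_lit 134400, nat_lit 490000, nat_lit 1271250, nat_lit 1271250, [nat_lit 1100000, nat_lit 1785000], [nat_lit 39, nat_lit 40, nat_lit 40, nat_lit 80]⟩, ⟨p048_k59, nat_lit 0, nat_lit 0, nat_lit 0, nat_lit 0, nat_lit 170672, [nat_lit 4688000000, nat_lit 7968000000, nat_lit 9842000000], [], [nat_lit 12187080259, nat_lit 12858949670, nat_lit 10229029340, nat_lit 8025419726, nat_lit 13466219209,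 nat_lit 14102910560, nat_lit 5813111704, nat_lit 6515531090], nat_lit 1271250, nat_lit 1271250, nat_lit 134400, nat_lit 490000, nat_lit 1271250, nat_lit 1271250, [nat_lit 1100000, nat_lit 1785000, nat_lit 1271250], [nat_lit 29, nat_lit 40, nat_lit 40, nat_lit 80]⟩,
 zbF0, [⟨nat_lit 0, nat_lit 100, nat_lit 94, nat_lit 61, nat_lit 1414852017⟩, ⟨nat_lit 4, nat_lit 93, nat_lit 100, nat_lit 81, nat_lit 1131353707⟩]⟩
noncomputable def p048_l104 : Lf2 := ⟨nat_lit 0, nat_lit 5, [nat_lit 4, nat_lit 5, nat_lit 5, nat_lit 20], false, nat_lit 280, nat_lit 320, nat_lit 200, nat_lit 240, ⟨nat_lit 421, nat_lit 0, nat_lit 579, nat_lit 6, nat_lit 105, nat_lit 579, nat_lit 221, nat_lit 579, nat_lit 4618, nat_lit 210, nat_lit 101400, nat_lit 293, nat_lit 47024007, nat_lit 0, nat_lit 0, nat_lit 4102820, false, false⟩,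
 nat_lit 12514, nat_lit 0, nat_lit 0, nat_lit 0, nat_lit 5298, nat_lit 6625, nat_lit 806, nat_lit 0, nat_lit 0, nat_lit 817, nat_lit 0, nat_lit 0, nat_lit 0, nat_lit 0, nat_lit 0, nat_lit 579000, nat_lit 0, nat_lit 0, [(nat_lit 9, [(nat_lit 6, nat_lit 579)])],
 ⟨p048_k30, nat_lit 0, nat_lit 0, nat_lit 0, nat_lit 0, nat_lit 152003, [nat_lit 2730053600, nat_lit 1787417200], [], [nat_lit 19915301613, nat_lit 21023640153, nat_lit 18489886006, nat_lit 19409387964, nat_lit 22959693924, nat_lit 24273806636, nat_lit 20719324772, nat_lit 21853646824], nat_lit 1271250, nat_lit 1271250, nat_lit 134400, nat_lit 490000, nat_lit 1271250, nat_lit 1271250, [nat_lit 1100000, nat_lit 1785000], [nat_lit 39, nat_lit 40, nat_lit 40, nat_lit 80]⟩, ⟨p048_k59, nat_lit 0, nat_lit 0, nat_lit 0, nat_lit 0, nat_lit 170672, [nat_lit 1973648000, nat_lit 3354528000, nat_lit 4143482000], [], [nat_lit 6295541586, nat_lit 6539463204, nat_lit 3455285904,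 nat_lit 3724402178, nat_lit 7473756716, nat_lit 7725950869, nat_lit 4669542844, nat_lit 4908714602], nat_lit 1271250, nat_lit 1271250, nat_lit 134400, nat_lit 490000, nat_lit 1271250, nat_lit 1271250, [nat_lit 1100000, nat_lit 1785000, nat_lit 1271250], [nat_lit 29, nat_lit 40, nat_lit 40, nat_lit 80]⟩,
 ⟨nat_lit 5477, nat_lit 5917, ⟨.ofNat (nat_lit 197129), .ofNat (nat_lit 307076), .ofNat (nat_lit 202464), .ofNat (nat_lit 312411), .ofNat (nat_lit 213007), .ofNat (nat_lit 317913), .ofNat (nat_lit 218347), .ofNat (nat_lit 323253)⟩, ⟨.ofNat (nat_lit 507691), .ofNat (nat_lit 586223), .ofNat (nat_lit 529030), .ofNat (nat_lit 607556), .ofNat (nat_lit 500365), .ofNat (nat_lit 575297), .ofNat (nat_lit 521722), .ofNat (nat_lit 596648)⟩⟩, [⟨nat_lit 0, nat_lit 100, nat_lit 94, nat_lit 61, nat_lit 364283599⟩, ⟨nat_lit 4, nat_lit 93, nat_lit 100, nat_lit 81, nat_lit 304941581⟩, ⟨nat_lit 11, nat_lit 100, nat_lit 87, nat_lit 59, nat_lit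 464582318⟩]⟩
noncomputable def p048_l105 : Lf2 := ⟨nat_lit 0, nat_lit 5, [nat_lit 4, nat_lit 5, nat_lit 5, nat_lit 20], false, nat_lit 280, nat_lit 320, nat_lit 160, nat_lit 200, ⟨nat_lit 1000, nat_lit 0, nat_lit 0, nat_lit 0, nat_lit 0, nat_lit 0, nat_lit 0, nat_lit 0, nat_lit 0, nat_lit 0, nat_lit 0, nat_lit 0, nat_lit 0, nat_lit 0, nat_lit 0, nat_lit 0, false, false⟩,
 nat_lit 30268, nat_lit 0, nat_lit 0, nat_lit 0, nat_lit 6963, nat_lit 16418, nat_lit 3419, nat_lit 0, nat_lit 0, nat_lit 2166, nat_lit 0, nat_lit 0, nat_lit 0, nat_lit 0, nat_lit 0, nat_lit 0, nat_lit 0, nat_lit 0, [],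
 ⟨p048_k30, nat_lit 0, nat_lit 0, nat_lit 0, nat_lit 0, nat_lit 164867, [nat_lit 4688000000, nat_lit 7968000000], [], [nat_lit 21640374257, nat_lit 22683851613, nat_lit 19480549461, nat_lit 20513625234, nat_lit 24981899694, nat_lit 26495986232, nat_lit 22040005382, nat_lit 23086057476], nat_lit 1271250, nat_lit 1271250, nat_lit 134400, nat_lit 490000, nat_lit 1271250, nat_lit 1271250, [nat_lit 1100000, nat_lit 1785000], [nat_lit 39, nat_lit 40, nat_lit 40, nat_lit 80]⟩, ⟨p048_k60, nat_lit 0, nat_lit 0, nat_lit 0, nat_lit 0, nat_lit 179675, [nat_lit 4688000000, nat_lit 7968000000, nat_lit 9842000000], [], [nat_lit 11420993037, nat_lit 11820578721, nat_lit 5390125037, nat_lit 4757178281, nat_lit 14116078020, nat_lit 14532686621, nat_lit 13035556759, nat_lit 11825578070], nat_lit 1271250, nat_lit 1271250, nat_lit 134400, nat_lit 490000, nat_lit 1100001, nat_lit 1442500, [nat_lit 1100000, nat_lit 1785000, nat_lit 1271250],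 [nat_lit 29, nat_lit 40, nat_lit 40, nat_lit 80]⟩,
 zbF0, [⟨nat_lit 0, nat_lit 100, nat_lit 94, nat_lit 63, nat_lit 1105198433⟩, ⟨nat_lit 4, nat_lit 93, nat_lit 100, nat_lit 81, nat_lit 901577786⟩]⟩
noncomputable def p048_l106 : Lf2 := ⟨nat_lit 0, nat_lit 5, [nat_lit 4, nat_lit 5, nat_lit 5, nat_lit 20], false, nat_lit 280, nat_lit 320, nat_lit 160, nat_lit 200, ⟨nat_lit 1000, nat_lit 0, nat_lit 0, nat_lit 0, nat_lit 0, nat_lit 0, nat_lit 0, nat_lit 0, nat_lit 0, nat_lit 0, nat_lit 0, nat_lit 0, nat_lit 0, nat_lit 0, nat_lit 0, nat_lit 0, false, false⟩,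
 nat_lit 29026, nat_lit 0, nat_lit 0, nat_lit 0, nat_lit 7201, nat_lit 15972, nat_lit 3213, nat_lit 0, nat_lit 0, nat_lit 2040, nat_lit 0, nat_lit 0, nat_lit 0, nat_lit 0, nat_lit 0, nat_lit 0, nat_lit 0, nat_lit 0, [],
 ⟨p048_k30, nat_lit 0, nat_lit 0, nat_lit 0, nat_lit 0, nat_lit 173444, [nat_lit 4688000000, nat_lit 7968000000], [], [nat_lit 21414610439, nat_lit 22514367363, nat_lit 19415003847, nat_lit 20424710908, nat_lit 24861061934, nat_lit 26403412869, nat_lit 21737162296, nat_lit 23198664388], nat_lit 1271250, nat_lit 1271250, nat_lit 157850, nat_lit 490000, nat_lit 1271250, nat_lit 1271250, [nat_lit 1100000, nat_lit 1785000], [nat_lit 39, nat_lit 40, nat_lit 40, nat_lit 80]⟩, ⟨p048_k61, nat_lit 0, nat_lit 0, nat_lit 0, nat_lit 0, nat_lit 185721, [nat_lit 4688000000, nat_lit 7968000000, nat_lit 9842000000], [], [nat_lit 11360449187, nat_lit 11621019780, nat_lit 5226697962, nat_lit 5475196112, nat_lit 13668308899,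 nat_lit 13902287287, nat_lit 11962124439, nat_lit 11177384940], nat_lit 1271250, nat_lit 1271250, nat_lit 157850, nat_lit 490000, nat_lit 1100001, nat_lit 1442500, [nat_lit 1100000, nat_lit 1785000, nat_lit 1271250], [nat_lit 29, nat_lit 40, nat_lit 40, nat_lit 80]⟩,
 zbF0, [⟨nat_lit 0, nat_lit 100, nat_lit 97, nat_lit 59, nat_lit 1119725576⟩, ⟨nat_lit 4, nat_lit 93, nat_lit 100, nat_lit 81, nat_lit 913439832⟩]⟩
noncomputable def p048_l107 : Lf2 := ⟨nat_lit 0, nat_lit 5, [nat_lit 4, nat_lit 5, nat_lit 5, nat_lit 20], false, nat_lit 280, nat_lit 320, nat_lit 200, nat_lit 240, ⟨nat_lit 1000, nat_lit 0, nat_lit 0, nat_lit 0, nat_lit 0, nat_lit 0, nat_lit 0, nat_lit 0, nat_lit 0, nat_lit 0, nat_lit 0, nat_lit 0, nat_lit 0, nat_lit 0, nat_lit 0, nat_lit 0, false, false⟩,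
 nat_lit 18562, nat_lit 0, nat_lit 0, nat_lit 7346, nat_lit 7563, nat_lit 10068, nat_lit 2003, nat_lit 0, nat_lit 0, nat_lit 2951, nat_lit 0, nat_lit 0, nat_lit 0, nat_lit 0, nat_lit 0, nat_lit 0, nat_lit 0, nat_lit 0, [],
 ⟨p048_k26, nat_lit 0, nat_lit 0, nat_lit 0, nat_lit 0, nat_lit 173444, [nat_lit 4688000000, nat_lit 6250000000, nat_lit 7968000000], [], [nat_lit 21983170527, nat_lit 23283431493, nat_lit 19292567661, nat_lit 20337740249, nat_lit 25710622494, nat_lit 27296771672, nat_lit 21963677086, nat_lit 23454521644], nat_lit 1271250, nat_lit 1271250, nat_lit 134400, nat_lit 490000, nat_lit 1271250, nat_lit 1271250, [nat_lit 1100000, nat_lit 1442500, nat_lit 1271250], [nat_lit 9, nat_lit 40, nat_lit 40, nat_lit 80]⟩, ⟨p048_k62, nat_lit 0, nat_lit 0, nat_lit 0, nat_lit 0, nat_lit 189021, [nat_lit 4688000000, nat_lit 6250000000, nat_lit 9842000000], [], [nat_lit 14773054913, nat_lit 15200586580, nat_lit 10741503170,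 nat_lit 11149932534, nat_lit 16668673254, nat_lit 17052063463, nat_lit 12580731806, nat_lit 12947802733], nat_lit 1271250, nat_lit 1271250, nat_lit 134400, nat_lit 490000, nat_lit 1271250, nat_lit 1271250, [nat_lit 1100000, nat_lit 1442500, nat_lit 1271250], [nat_lit 11, nat_lit 40, nat_lit 40, nat_lit 80]⟩,
 zbF0, [⟨nat_lit 0, nat_lit 100, nat_lit 96, nat_lit 58, nat_lit 900892888⟩, ⟨nat_lit 4, nat_lit 93, nat_lit 100, nat_lit 81, nat_lit 553961045⟩, ⟨nat_lit 11, nat_lit 100, nat_lit 87, nat_lit 59, nat_lit 520157661⟩]⟩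
noncomputable def p048_l108 : Lf2 := ⟨nat_lit 0, nat_lit 5, [nat_lit 4, nat_lit 5, nat_lit 5, nat_lit 20], false, nat_lit 280, nat_lit 320, nat_lit 240, nat_lit 300, ⟨nat_lit 277, nat_lit 0, nat_lit 723, nat_lit 6, nat_lit 110, nat_lit 723, nat_lit 221, nat_lit 723, nat_lit 4618, nat_lit 210, nat_lit 114817, nat_lit 298, nat_lit 46690300, nat_lit 0, nat_lit 0, nat_lit 4173584, false, false⟩,
 nat_lit 8406, nat_lit 0, nat_lit 0, nat_lit 0, nat_lit 4893, nat_lit 4450, nat_lit 209, nat_lit 0, nat_lit 0, nat_lit 498, nat_lit 0, nat_lit 0, nat_lit 0, nat_lit 0, nat_lit 0, nat_lit 723000, nat_lit 0, nat_lit 0, [(nat_lit 9, [(nat_lit 6, nat_lit 723)])],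
 ⟨p048_k30, nat_lit 0, nat_lit 0, nat_lit 0, nat_lit 0, nat_lit 173444, [nat_lit 2243103200, nat_lit 269676400], [], [nat_lit 18917654769, nat_lit 19837946672, nat_lit 18160183771, nat_lit 19119403374, nat_lit 21678506719, nat_lit 22942528349, nat_lit 20376691802, nat_lit 21567397684], nat_lit 1271250, nat_lit 1271250, nat_lit 205650, nat_lit 490000, nat_lit 1271250, nat_lit 1271250, [nat_lit 1100000, nat_lit 1785000], [nat_lit 39, nat_lit 40, nat_lit 40, nat_lit 80]⟩, ⟨p048_k59, nat_lit 0, nat_lit 0, nat_lit 0, nat_lit 0, nat_lit 194747, [nat_lit 1298576000, nat_lit 2207136000, nat_lit 2726234000], [], [nat_lit 4278860475, nat_lit 4571108869, nat_lit 2977435528, nat_lit 3296949908, nat_lit 7354097578, nat_lit 7751608540, nat_lit 5708423152, nat_lit 6092672412], nat_lit 1271250, nat_lit 1271250, nat_lit 205650, nat_lit 490000, nat_lit 1271250, nat_lit 1271250, [nat_lit 1100000, nat_lit 1785000, nat_lit 1271250], [nat_lit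 29, nat_lit 40, nat_lit 40, nat_lit 80]⟩,
 ⟨nat_lit 5477, nat_lit 5917, ⟨.ofNat (nat_lit 220689), .ofNat (nat_lit 307076), .ofNat (nat_lit 231359), .ofNat (nat_lit 317746), .ofNat (nat_lit 235487), .ofNat (nat_lit 317913), .ofNat (nat_lit 246166), .ofNat (nat_lit 328592)⟩, ⟨.ofNat (nat_lit 507691), .ofNat (nat_lit 586223), .ofNat (nat_lit 529030), .ofNat (nat_lit 607556), .ofNat (nat_lit 500365), .ofNat (nat_lit 575297), .ofNat (nat_lit 521722), .ofNat (nat_lit 596648)⟩⟩, [⟨nat_lit 0, nat_lit 100, nat_lit 95, nat_lit 64, nat_lit 49676520⟩, ⟨nat_lit 4, nat_lit 93, nat_lit 100, nat_lit 81, nat_lit 216456056⟩, ⟨nat_lit 11, nat_lit 100, nat_lit 97, nat_lit 75, nat_lit 455544121⟩]⟩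
noncomputable def p048_l109 : Lf2 := ⟨nat_lit 0, nat_lit 5, [nat_lit 4, nat_lit 5, nat_lit 5, nat_lit 20], false, nat_lit 280, nat_lit 320, nat_lit 0, nat_lit 160, ⟨nat_lit 1000, nat_lit 0, nat_lit 0, nat_lit 0, nat_lit 0, nat_lit 0, nat_lit 0, nat_lit 0, nat_lit 0, nat_lit 0, nat_lit 0, nat_lit 0, nat_lit 0, nat_lit 0, nat_lit 0, nat_lit 0, false, false⟩,
 nat_lit 17575, nat_lit 0, nat_lit 0, nat_lit 6184, nat_lit 6975, nat_lit 9763, nat_lit 1989, nat_lit 0, nat_lit 0, nat_lit 1968, nat_lit 0, nat_lit 0, nat_lit 0, nat_lit 0, nat_lit 0, nat_lit 0, nat_lit 0, nat_lit 0, [],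
 ⟨p048_k9, nat_lit 0, nat_lit 0, nat_lit 0, nat_lit 0, nat_lit 218582, [nat_lit 2032000001, nat_lit 3965500000, nat_lit 5449500000, nat_lit 7968000000], [], [nat_lit 21385904510, nat_lit 22637138490, nat_lit 19318705250, nat_lit 20514231400, nat_lit 24621280211, nat_lit 25875368160, nat_lit 22476549300, nat_lit 23679020300], nat_lit 1271250, nat_lit 1271250, nat_lit 157850, nat_lit 490000, nat_lit 1271250, nat_lit 1271250, [nat_lit 490000, nat_lit 936250, nat_lit 1271250, nat_lit 1271250], [nat_lit 138, nat_lit 40, nat_lit 20, nat_lit 40]⟩, ⟨p048_k25, nat_lit 0, nat_lit 0, nat_lit 0, nat_lit 0, nat_lit 231350, [nat_lit 2032000000, nat_lit 4688000000, nat_lit 6250000000, nat_lit 7968000000], [], [nat_lit 20064205026, nat_lit 21301407798, nat_lit 17111798278, nat_lit 18030990508, nat_lit 16432666831, nat_lit 14956022179, nat_lit 18275790599, nat_lit 15911397022], nat_lit 1271250, nat_lit 1271250, nat_lit 157850, nat_lit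 490000, nat_lit 0, nat_lit 1100001, [nat_lit 490000, nat_lit 1100000, nat_lit 1442500, nat_lit 1271250], [nat_lit 98, nat_lit 40, nat_lit 20, nat_lit 40]⟩,
 zbF0, [⟨nat_lit 0, nat_lit 100, nat_lit 97, nat_lit 62, nat_lit 754118487⟩, ⟨nat_lit 4, nat_lit 93, nat_lit 100, nat_lit 81, nat_lit 812848184⟩]⟩
noncomputable def p048_l110 : Lf2 := ⟨nat_lit 0, nat_lit 5, [nat_lit 4, nat_lit 5, nat_lit 5, nat_lit 20], false, nat_lit 280, nat_lit 320, nat_lit 160, nat_lit 240, ⟨nat_lit 1000, nat_lit 0, nat_lit 0, nat_lit 0, nat_lit 0, nat_lit 0, nat_lit 0, nat_lit 0, nat_lit 0, nat_lit 0, nat_lit 0, nat_lit 0, nat_lit 0, nat_lit 0, nat_lit 0, nat_lit 0, false, false⟩,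
 nat_lit 19397, nat_lit 0, nat_lit 0, nat_lit 0, nat_lit 7838, nat_lit 10776, nat_lit 2074, nat_lit 0, nat_lit 0, nat_lit 1942, nat_lit 0, nat_lit 0, nat_lit 0, nat_lit 0, nat_lit 0, nat_lit 0, nat_lit 0, nat_lit 0, [],
 ⟨p048_k9, nat_lit 0, nat_lit 0, nat_lit 0, nat_lit 0, nat_lit 218582, [nat_lit 2032000001, nat_lit 3965500000, nat_lit 5449500000, nat_lit 7968000000], [], [nat_lit 20904321289, nat_lit 22527608434, nat_lit 18467511028, nat_lit 19846393840, nat_lit 25321142426, nat_lit 26944914090, nat_lit 22078005528, nat_lit 23648888344], nat_lit 1271250, nat_lit 1271250, nat_lit 157850, nat_lit 490000, nat_lit 1271250, nat_lit 1271250, [nat_lit 490000, nat_lit 936250, nat_lit 1271250, nat_lit 1271250], [nat_lit 138, nat_lit 40, nat_lit 20, nat_lit 40]⟩, ⟨p048_k25, nat_lit 0, nat_lit 0, nat_lit 0, nat_lit 0, nat_lit 231350, [nat_lit 2032000000, nat_lit 4688000000, nat_lit 6250000000, nat_lit 7968000000], [], [nat_lit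 12081837727, nat_lit 13215132580, nat_lit 8776997704, nat_lit 9854994096, nat_lit 16735864688, nat_lit 17656186596, nat_lit 13255385096, nat_lit 14130872432], nat_lit 1271250, nat_lit 1271250, nat_lit 157850, nat_lit 490000, nat_lit 1100001, nat_lit 1785000, [nat_lit 490000, nat_lit 1100000, nat_lit 1442500, nat_lit 1271250], [nat_lit 98, nat_lit 40, nat_lit 20, nat_lit 40]⟩,
 zbF0, [⟨nat_lit 0, nat_lit 100, nat_lit 97, nat_lit 62, nat_lit 756713363⟩, ⟨nat_lit 4, nat_lit 93, nat_lit 100, nat_lit 81, nat_lit 473939103⟩, ⟨nat_lit 23, nat_lit 89, nat_lit 100, nat_lit 70, nat_lit 602894926⟩]⟩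
noncomputable def p048_l111 : Lf2 := ⟨nat_lit 0, nat_lit 5, [nat_lit 4, nat_lit 5, nat_lit 5, nat_lit 20], false, nat_lit 280, nat_lit 320, nat_lit 240, nat_lit 300, ⟨nat_lit 1000, nat_lit 0, nat_lit 0, nat_lit 0, nat_lit 0, nat_lit 0, nat_lit 0, nat_lit 0, nat_lit 0, nat_lit 0, nat_lit 0, nat_lit 0, nat_lit 0, nat_lit 0, nat_lit 0, nat_lit 0, false, false⟩,
 nat_lit 16740, nat_lit 0, nat_lit 0, nat_lit 0, nat_lit 7665, nat_lit 9299, nat_lit 2072, nat_lit 0, nat_lit 0, nat_lit 1549, nat_lit 0, nat_lit 0, nat_lit 0, nat_lit 0, nat_lit 0, nat_lit 0, nat_lit 0, nat_lit 0, [],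
 ⟨p048_k26, nat_lit 0, nat_lit 0, nat_lit 0, nat_lit 0, nat_lit 218582, [nat_lit 4688000000, nat_lit 6250000000, nat_lit 7968000000], [], [nat_lit 20769719395, nat_lit 22075238961, nat_lit 18954086675, nat_lit 20107938920, nat_lit 24516275191, nat_lit 26113811665, nat_lit 21975804740, nat_lit 23526614020], nat_lit 1271250, nat_lit 1271250, nat_lit 205650, nat_lit 490000, nat_lit 1271250, nat_lit 1271250, [nat_lit 1100000, nat_lit 1442500, nat_lit 1271250], [nat_lit 9, nat_lit 40, nat_lit 40, nat_lit 80]⟩, ⟨p048_k29, nat_lit 0, nat_lit 0, nat_lit 0, nat_lit 0, nat_lit 231350, [nat_lit 4688000000, nat_lit 6250000000, nat_lit 7968000000], [], [nat_lit 17818983694, nat_lit 18651322968, nat_lit 15503879479, nat_lit 16301734218, nat_lit 23060868792, nat_lit 23735187077, nat_lit 20527165704, nat_lit 21175083813], nat_lit 1271250, nat_lit 1271250, nat_lit 205650, nat_lit 490000, nat_lit 1271250, nat_lit 1271250, [nat_lit 1100000,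 nat_lit 1442500, nat_lit 1271250], [nat_lit 9, nat_lit 40, nat_lit 40, nat_lit 80]⟩,
 zbF0, [⟨nat_lit 0, nat_lit 100, nat_lit 96, nat_lit 69, nat_lit 287527079⟩, ⟨nat_lit 16, nat_lit 100, nat_lit 93, nat_lit 81, nat_lit 394933327⟩, ⟨nat_lit 11, nat_lit 100, nat_lit 97, nat_lit 75, nat_lit 911073338⟩]⟩
noncomputable def p048_l112 : Lf2 := ⟨nat_lit 0, nat_lit 5, [nat_lit 4, nat_lit 5, nat_lit 5, nat_lit 20], false, nat_lit 280, nat_lit 320, nat_lit 0, nat_lit 300, ⟨nat_lit 0, nat_lit 339, nat_lit 661, nat_lit 6, nat_lit 106, nat_lit 1000, nat_lit 222, nat_lit 661, nat_lit 4629, nat_lit 210, nat_lit 106667, nat_lit 295, nat_lit 46828906, nat_lit 4852755, nat_lit 15318339, nat_lit 4133487, false, false⟩,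
 nat_lit 7001, nat_lit 0, nat_lit 0, nat_lit 0, nat_lit 4075, nat_lit 3706, nat_lit 0, nat_lit 0, nat_lit 0, nat_lit 0, nat_lit 264, nat_lit 0, nat_lit 0, nat_lit 0, nat_lit 56, nat_lit 1000000, nat_lit 0, nat_lit 0, [(nat_lit 9, [(nat_lit 2, nat_lit 339), (nat_lit 6, nat_lit 661)])],
 ⟨p048_k9, nat_lit 0, nat_lit 0, nat_lit 0, nat_lit 0, nat_lit 163013, [nat_lit 1328949001, nat_lit 2248223201, nat_lit 2125818000, nat_lit 149305800], [], [nat_lit 18170522221, nat_lit 18751388060, nat_lit 17294176100, nat_lit 17829341550, nat_lit 21265980070, nat_lit 21851451046, nat_lit 19854990700, nat_lit 20422117900], nat_lit 1271250, nat_lit 1271250, nat_lit 134400, nat_lit 490000, nat_lit 1271250, nat_lit 1271250, [nat_lit 490000, nat_lit 936250, nat_lit 1271250, nat_lit 1271250], [nat_lit 138, nat_lit 40, nat_lit 20, nat_lit 40]⟩, ⟨p048_k32, nat_lit 0, nat_lit 0, nat_lit 339, nat_lit 0, nat_lit 183035, [nat_lit 4224000000, nat_lit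 5280000000, nat_lit 7392000000], [], [nat_lit 15967947407, nat_lit 14026144235, nat_lit 11061871528, nat_lit 11270378500, nat_lit 13463320205, nat_lit 11765041628, nat_lit 13986728220, nat_lit 12319239462], nat_lit 1271250, nat_lit 1271250, nat_lit 134400, nat_lit 490000, nat_lit 0, nat_lit 2118750, [nat_lit 1100000, nat_lit 1442500, nat_lit 1271250], [nat_lit 11, nat_lit 40, nat_lit 40, nat_lit 80, nat_lit 1, nat_lit 401, nat_lit 175, nat_lit 12]⟩,
 ⟨nat_lit 5700, nat_lit 5917, ⟨.ofNat (nat_lit 197129), .ofNat (nat_lit 307076), .ofNat (nat_lit 218469), .ofNat (nat_lit 328416), .ofNat (nat_lit 205119), .ofNat (nat_lit 312525), .ofNat (nat_lit 226461), .ofNat (nat_lit 333867)⟩, ⟨.ofNat (nat_lit 507691), .ofNat (nat_lit 586223), .ofNat (nat_lit 529030), .ofNat (nat_lit 607561), .ofNat (nat_lit 504043), .ofNat (nat_lit 580761), .ofNat (nat_lit 525385), .ofNat (nat_lit 602101)⟩⟩, [⟨nat_lit 4, nat_lit 91, nat_lit 100, nat_lit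 80, nat_lit 326976442⟩, ⟨nat_lit 23, nat_lit 89, nat_lit 100, nat_lit 69, nat_lit 153628154⟩]⟩
noncomputable def p048_l113 : Lf2 := ⟨nat_lit 0, nat_lit 5, [nat_lit 4, nat_lit 5, nat_lit 5, nat_lit 20], false, nat_lit 280, nat_lit 308, nat_lit 0, nat_lit 300, ⟨nat_lit 0, nat_lit 65, nat_lit 935, nat_lit 6, nat_lit 111, nat_lit 1000, nat_lit 216, nat_lit 935, nat_lit 2744, nat_lit 220, nat_lit 114817, nat_lit 298, nat_lit 47173831, nat_lit 5164120, nat_lit 14662049, nat_lit 4135071, false, false⟩,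
 nat_lit 6001, nat_lit 0, nat_lit 0, nat_lit 0, nat_lit 3032, nat_lit 3177, nat_lit 547, nat_lit 0, nat_lit 0, nat_lit 0, nat_lit 200, nat_lit 0, nat_lit 0, nat_lit 0, nat_lit 22, nat_lit 400000, nat_lit 0, nat_lit 0, [(nat_lit 9, [(nat_lit 1, nat_lit 65), (nat_lit 5, nat_lit 935)])],
 ⟨p048_k47, nat_lit 0, nat_lit 0, nat_lit 0, nat_lit 0, nat_lit 206957, [nat_lit 1068138001, nat_lit 1196398001, nat_lit 850016000, nat_lit 16180000], [], [nat_lit 18122894836, nat_lit 18619841253, nat_lit 17779961132, nat_lit 18252986635, nat_lit 19697664039, nat_lit 20196268660, nat_lit 19286195621, nat_lit 19730594975], nat_lit 1271250, nat_lit 1271250, nat_lit 157850, nat_lit 490000, nat_lit 1271250, nat_lit 1271250, [nat_lit 490000, nat_lit 936250, nat_lit 1271250, nat_lit 1271250], [nat_lit 189, nat_lit 40, nat_lit 20, nat_lit 40]⟩, ⟨p048_k32, nat_lit 0, nat_lit 0, nat_lit 357, nat_lit 0, nat_lit 245430, [nat_lit 3200000000, nat_lit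 4000000000, nat_lit 5600000000], [], [nat_lit 12089518804, nat_lit 10427420422, nat_lit 7772615016, nat_lit 7556328250, nat_lit 10072359751, nat_lit 8618417773, nat_lit 10516531990, nat_lit 9087063079], nat_lit 1271250, nat_lit 1271250, nat_lit 157850, nat_lit 490000, nat_lit 0, nat_lit 2118750, [nat_lit 1100000, nat_lit 1442500, nat_lit 1271250], [nat_lit 11, nat_lit 40, nat_lit 40, nat_lit 80, nat_lit 1, nat_lit 401, nat_lit 175, nat_lit 12]⟩,
 ⟨nat_lit 5477, nat_lit 5701, ⟨.ofNat (nat_lit 212791), .ofNat (nat_lit 312525), .ofNat (nat_lit 234133), .ofNat (nat_lit 333867), .ofNat (nat_lit 220501), .ofNat (nat_lit 317913), .ofNat (nat_lit 241858), .ofNat (nat_lit 339271)⟩, ⟨.ofNat (nat_lit 504043), .ofNat (nat_lit 557746), .ofNat (nat_lit 525385), .ofNat (nat_lit 579088), .ofNat (nat_lit 500365), .ofNat (nat_lit 552818), .ofNat (nat_lit 521722), .ofNat (nat_lit 574176)⟩⟩, [⟨nat_lit 4, nat_lit 96, nat_lit 100, nat_lit 82,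 nat_lit 248279045⟩, ⟨nat_lit 23, nat_lit 91, nat_lit 100, nat_lit 71, nat_lit 107688082⟩]⟩
noncomputable def b_V_600_600_10_64 : St := ⟨true, nat_lit 1, nat_lit 1, nat_lit 1, nat_lit 80, nat_lit 260, nat_lit 280, nat_lit 240, nat_lit 260, nat_lit 24, nat_lit 80, nat_lit 60, nat_lit 80, nat_lit 280, nat_lit 320, nat_lit 0, nat_lit 336, nat_lit 0, nat_lit 20, nat_lit 0, nat_lit 600, nat_lit 0, nat_lit 0⟩
theorem d_V_600_600_10_64 (h : EB TB.env) : Dead b_V_600_600_10_64 := chkB_sound0 h (T :=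
(.trX (nat_lit 23) (nat_lit 100) (nat_lit 95) (nat_lit 87) (nat_lit 300) (.spl (nat_lit 7) (nat_lit 300)
(.leaf p048_l93)
(.spl (nat_lit 8) (nat_lit 800)
(.spl (nat_lit 1) (nat_lit 250)
(.spl (nat_lit 5) (nat_lit 160)
(.spl (nat_lit 6) (nat_lit 8)
(.spl (nat_lit 2) (nat_lit 40)
(.spl (nat_lit 6) (nat_lit 4)
(.spl (nat_lit 5) (nat_lit 80)
(.leaf p048_l94)
(.leaf p048_l95))
(.spl (nat_lit 0) (nat_lit 270)
(.leaf p048_l96)
(.trZ (nat_lit 0) (nat_lit 100) (nat_lit 96) (nat_lit 54) (nat_lit 28) (.trX (nat_lit 16) (nat_lit 100) (nat_lit 90) (nat_lit 85) (nat_lit 308) (.leaf p048_l97)))))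
(.leaf p048_l98))
(.spl (nat_lit 0) (nat_lit 270)
(.leaf p048_l99)
(.trZ (nat_lit 0) (nat_lit 100) (nat_lit 96) (nat_lit 54) (nat_lit 28) (.trX (nat_lit 16) (nat_lit 100) (nat_lit 90) (nat_lit 85) (nat_lit 308) (.spl (nat_lit 6) (nat_lit 16)
(.leaf p048_l100)
(.leaf p048_l101))))))
(.spl (nat_lit 5) (nat_lit 240)
(.spl (nat_lit 1) (nat_lit 245)
(.spl (nat_lit 5) (nat_lit 200)
(.spl (nat_lit 5) (nat_lit 180)
(.leaf p048_l102)
(.leaf p048_l103))
(.leaf p048_l104))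
(.spl (nat_lit 5) (nat_lit 200)
(.spl (nat_lit 1) (nat_lit 248)
(.leaf p048_l105)
(.trZ (nat_lit 0) (nat_lit 100) (nat_lit 98) (nat_lit 54) (nat_lit 28) (.leaf p048_l106)))
(.leaf p048_l107)))
(.trZ (nat_lit 11) (nat_lit 100) (nat_lit 94) (nat_lit 59) (nat_lit 36) (.leaf p048_l108))))
(.trZ (nat_lit 0) (nat_lit 100) (nat_lit 99) (nat_lit 55) (nat_lit 28) (.spl (nat_lit 5) (nat_lit 160)
(.leaf p048_l109)
(.spl (nat_lit 5) (nat_lit 240)
(.leaf p048_l110)
(.trZ (nat_lit 11) (nat_lit 100) (nat_lit 94) (nat_lit 59) (nat_lit 36) (.leaf p048_l111))))))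
(.spl (nat_lit 0) (nat_lit 270)
(.leaf p048_l112)
(.trZ (nat_lit 0) (nat_lit 100) (nat_lit 96) (nat_lit 54) (nat_lit 28) (.trX (nat_lit 16) (nat_lit 100) (nat_lit 90) (nat_lit 85) (nat_lit 308) (.leaf p048_l113)))))))) (by decide +kernel)
noncomputable def p048_l114 : Lf2 := ⟨nat_lit 0, nat_lit 5, [nat_lit 4, nat_lit 5, nat_lit 5, nat_lit 20], false, nat_lit 240, nat_lit 280, nat_lit 0, nat_lit 336, ⟨nat_lit 0, nat_lit 0, nat_lit 1000, nat_lit 6, nat_lit 144, nat_lit 1000, nat_lit 191, nat_lit 1000, nat_lit 14293, nat_lit 243, nat_lit 194400, nat_lit 323, nat_lit 47196569, nat_lit 0, nat_lit 0, nat_lit 4312409, false, false⟩,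
 nat_lit 0, nat_lit 6712, nat_lit 0, nat_lit 0, nat_lit 3906, nat_lit 0, nat_lit 0, nat_lit 0, nat_lit 0, nat_lit 0, nat_lit 0, nat_lit 0, nat_lit 0, nat_lit 0, nat_lit 117, nat_lit 1000000, nat_lit 0, nat_lit 0, [(nat_lit 9, [(nat_lit 6, nat_lit 1000)])],
 ⟨p048_k26, nat_lit 0, nat_lit 0, nat_lit 112, nat_lit 0, nat_lit 163013, [nat_lit 2969600000, nat_lit 1600000000, nat_lit 226400000], [], [nat_lit 14589127576, nat_lit 15192461928, nat_lit 14924025804, nat_lit 15498815814, nat_lit 17010405118, nat_lit 17553908241, nat_lit 17232428092, nat_lit 17751043052], nat_lit 1271250, nat_lit 1271250, nat_lit 490000, nat_lit 780000, nat_lit 1271250, nat_lit 1271250, [nat_lit 1100000, nat_lit 1442500, nat_lit 1271250], [nat_lit 9, nat_lit 40, nat_lit 40, nat_lit 80, nat_lit 2, nat_lit 238, nat_lit 30, nat_lit 7]⟩, ⟨p048_k32, nat_lit 0, nat_lit 0, nat_lit 294, nat_lit 0, nat_lit 183035, [nat_lit 0, nat_lit 0, nat_lit 0], [], [nat_lit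 0, nat_lit 0, nat_lit 0, nat_lit 0, nat_lit 0, nat_lit 0, nat_lit 0, nat_lit 0], nat_lit 1271250, nat_lit 1271250, nat_lit 490000, nat_lit 780000, nat_lit 0, nat_lit 2373000, [nat_lit 1100000, nat_lit 1442500, nat_lit 1271250], [nat_lit 11, nat_lit 40, nat_lit 40, nat_lit 80, nat_lit 1, nat_lit 428, nat_lit 200, nat_lit 13]⟩,
 ⟨nat_lit 5700, nat_lit 5917, ⟨.ofNat (nat_lit 307076), .ofNat (nat_lit 385610), .ofNat (nat_lit 328416), .ofNat (nat_lit 406949), .ofNat (nat_lit 312525), .ofNat (nat_lit 389244), .ofNat (nat_lit 333867), .ofNat (nat_lit 410586)⟩, ⟨.ofNat (nat_lit 429157), .ofNat (nat_lit 507691), .ofNat (nat_lit 450496), .ofNat (nat_lit 529030), .ofNat (nat_lit 427324), .ofNat (nat_lit 504043), .ofNat (nat_lit 448666), .ofNat (nat_lit 525385)⟩⟩, []⟩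
noncomputable def p048_l115 : Lf2 := ⟨nat_lit 0, nat_lit 2, [nat_lit 10, nat_lit 5, nat_lit 5, nat_lit 20], false, nat_lit 240, nat_lit 280, nat_lit 0, nat_lit 336, ⟨nat_lit 0, nat_lit 0, nat_lit 1000, nat_lit 6, nat_lit 145, nat_lit 1000, nat_lit 190, nat_lit 1000, nat_lit 15944, nat_lit 245, nat_lit 198017, nat_lit 324, nat_lit 47170155, nat_lit 0, nat_lit 0, nat_lit 4319971, false, false⟩,
 nat_lit 0, nat_lit 6349, nat_lit 0, nat_lit 0, nat_lit 3866, nat_lit 0, nat_lit 0, nat_lit 0, nat_lit 0, nat_lit 0, nat_lit 0, nat_lit 0, nat_lit 0, nat_lit 0, nat_lit 37, nat_lit 1000000, nat_lit 0, nat_lit 0, [(nat_lit 9, [(nat_lit 6, nat_lit 1000)])],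
 ⟨p048_k33, nat_lit 0, nat_lit 0, nat_lit 108, nat_lit 0, nat_lit 173682, [nat_lit 1689600001, nat_lit 0], [], [nat_lit 15234650409, nat_lit 15534935745, nat_lit 15547031055, nat_lit 15833144360, nat_lit 17585304302, nat_lit 17855901954, nat_lit 17789231373, nat_lit 18047470653], nat_lit 1271250, nat_lit 1271250, nat_lit 490000, nat_lit 780000, nat_lit 1271250, nat_lit 1271250, [nat_lit 1100000, nat_lit 1442500], [nat_lit 31, nat_lit 40, nat_lit 40, nat_lit 80, nat_lit 3, nat_lit 238, nat_lit 30, nat_lit 8]⟩, ⟨p048_k54, nat_lit 0, nat_lit 0, nat_lit 245, nat_lit 0, nat_lit 205438, [nat_lit 0, nat_lit 0], [], [nat_lit 0, nat_lit 0, nat_lit 0, nat_lit 0, nat_lit 0, nat_lit 0, nat_lit 0, nat_lit 0], nat_lit 1271250, nat_lit 1271250, nat_lit 490000, nat_lit 780000, nat_lit 0, nat_lit 2373000, [nat_lit 1100000, nat_lit 1785000], [nat_lit 39, nat_lit 40, nat_lit 40, nat_lit 80, nat_lit 7, nat_lit 345, nat_lit 125, nat_lit 12]⟩,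
 ⟨nat_lit 5590, nat_lit 5701, ⟨.ofNat (nat_lit 312525), .ofNat (nat_lit 389244), .ofNat (nat_lit 333867), .ofNat (nat_lit 410586), .ofNat (nat_lit 315226), .ofNat (nat_lit 391049), .ofNat (nat_lit 336574), .ofNat (nat_lit 412397)⟩, ⟨.ofNat (nat_lit 427324), .ofNat (nat_lit 504043), .ofNat (nat_lit 448666), .ofNat (nat_lit 525385), .ofNat (nat_lit 426386), .ofNat (nat_lit 502209), .ofNat (nat_lit 447734), .ofNat (nat_lit 523557)⟩⟩, []⟩
noncomputable def p048_l116 : Lf2 := ⟨nat_lit 0, nat_lit 2, [nat_lit 10, nat_lit 5, nat_lit 5, nat_lit 20], false, nat_lit 240, nat_lit 280, nat_lit 0, nat_lit 336, ⟨nat_lit 0, nat_lit 0, nat_lit 1000, nat_lit 6, nat_lit 146, nat_lit 1000, nat_lit 190, nat_lit 1000, nat_lit 16701, nat_lit 246, nat_lit 198017, nat_lit 324, nat_lit 47153050, nat_lit 0, nat_lit 0, nat_lit 4324835, false, false⟩,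
 nat_lit 0, nat_lit 6514, nat_lit 0, nat_lit 0, nat_lit 4055, nat_lit 0, nat_lit 0, nat_lit 0, nat_lit 0, nat_lit 0, nat_lit 0, nat_lit 0, nat_lit 0, nat_lit 0, nat_lit 37, nat_lit 1000000, nat_lit 0, nat_lit 0, [(nat_lit 9, [(nat_lit 6, nat_lit 1000)])],
 ⟨p048_k40, nat_lit 0, nat_lit 0, nat_lit 107, nat_lit 0, nat_lit 194148, [nat_lit 1689600001, nat_lit 0], [], [nat_lit 15994857410, nat_lit 16254233122, nat_lit 16263054462, nat_lit 16509889442, nat_lit 18008708687, nat_lit 18243512492, nat_lit 18182520842, nat_lit 18406261202], nat_lit 1271250, nat_lit 1271250, nat_lit 490000, nat_lit 780000, nat_lit 1271250, nat_lit 1271250, [nat_lit 1100000, nat_lit 1442500], [nat_lit 31, nat_lit 40, nat_lit 40, nat_lit 80, nat_lit 3, nat_lit 238, nat_lit 30, nat_lit 8]⟩, ⟨p048_k54, nat_lit 0, nat_lit 0, nat_lit 248, nat_lit 0, nat_lit 235742, [nat_lit 0, nat_lit 0], [], [nat_lit 0, nat_lit 0, nat_lit 0, nat_lit 0, nat_lit 0, nat_lit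 0, nat_lit 0, nat_lit 0], nat_lit 1271250, nat_lit 1271250, nat_lit 490000, nat_lit 780000, nat_lit 0, nat_lit 2373000, [nat_lit 1100000, nat_lit 1785000], [nat_lit 39, nat_lit 40, nat_lit 40, nat_lit 80, nat_lit 7, nat_lit 345, nat_lit 125, nat_lit 12]⟩,
 ⟨nat_lit 5477, nat_lit 5591, ⟨.ofNat (nat_lit 315226), .ofNat (nat_lit 391049), .ofNat (nat_lit 336574), .ofNat (nat_lit 412397), .ofNat (nat_lit 317913), .ofNat (nat_lit 392847), .ofNat (nat_lit 339271), .ofNat (nat_lit 414204)⟩, ⟨.ofNat (nat_lit 426386), .ofNat (nat_lit 502209), .ofNat (nat_lit 447734), .ofNat (nat_lit 523557), .ofNat (nat_lit 425432), .ofNat (nat_lit 500365), .ofNat (nat_lit 446789), .ofNat (nat_lit 521722)⟩⟩, [⟨nat_lit 4, nat_lit 97, nat_lit 100, nat_lit 82, nat_lit 246325646⟩]⟩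
noncomputable def p048_l117 : Lf2 := ⟨nat_lit 0, nat_lit 5, [nat_lit 4, nat_lit 5, nat_lit 5, nat_lit 20], false, nat_lit 240, nat_lit 280, nat_lit 0, nat_lit 336, ⟨nat_lit 0, nat_lit 0, nat_lit 1000, nat_lit 6, nat_lit 146, nat_lit 1000, nat_lit 190, nat_lit 1000, nat_lit 15944, nat_lit 245, nat_lit 198017, nat_lit 324, nat_lit 47161803, nat_lit 0, nat_lit 0, nat_lit 4322389, false, false⟩,
 nat_lit 0, nat_lit 6918, nat_lit 0, nat_lit 0, nat_lit 4213, nat_lit 0, nat_lit 0, nat_lit 0, nat_lit 0, nat_lit 0, nat_lit 0, nat_lit 0, nat_lit 0, nat_lit 0, nat_lit 55, nat_lit 400000, nat_lit 0, nat_lit 0, [(nat_lit 9, [(nat_lit 5, nat_lit 1000)])],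
 ⟨p048_k41, nat_lit 0, nat_lit 0, nat_lit 104, nat_lit 0, nat_lit 120215, [nat_lit 2406400000, nat_lit 893600000, nat_lit 116000000], [], [nat_lit 15297465344, nat_lit 15922010940, nat_lit 15557563847, nat_lit 16152027952, nat_lit 17741743481, nat_lit 18302959122, nat_lit 17886747696, nat_lit 18421759526], nat_lit 1271250, nat_lit 1271250, nat_lit 490000, nat_lit 780000, nat_lit 1271250, nat_lit 1271250, [nat_lit 1100000, nat_lit 1442500, nat_lit 1271250], [nat_lit 9, nat_lit 40, nat_lit 40, nat_lit 80, nat_lit 2, nat_lit 238, nat_lit 30, nat_lit 7]⟩, ⟨p048_k32, nat_lit 0, nat_lit 0, nat_lit 240, nat_lit 0, nat_lit 142562, [nat_lit 0, nat_lit 0, nat_lit 0], [], [nat_lit 0, nat_lit 0, nat_lit 0, nat_lit 0, nat_lit 0, nat_lit 0, nat_lit 0, nat_lit 0], nat_lit 1271250, nat_lit 1271250, nat_lit 490000, nat_lit 780000, nat_lit 0, nat_lit 2373000, [nat_lit 1100000, nat_lit 1442500, nat_lit 1271250], [nat_lit 11, nat_lit 40,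 nat_lit 40, nat_lit 80, nat_lit 1, nat_lit 428, nat_lit 200, nat_lit 13]⟩,
 ⟨nat_lit 5477, nat_lit 5701, ⟨.ofNat (nat_lit 312525), .ofNat (nat_lit 389244), .ofNat (nat_lit 333867), .ofNat (nat_lit 410586), .ofNat (nat_lit 317913), .ofNat (nat_lit 392847), .ofNat (nat_lit 339271), .ofNat (nat_lit 414204)⟩, ⟨.ofNat (nat_lit 427324), .ofNat (nat_lit 504043), .ofNat (nat_lit 448666), .ofNat (nat_lit 525385), .ofNat (nat_lit 425432), .ofNat (nat_lit 500365), .ofNat (nat_lit 446789), .ofNat (nat_lit 521722)⟩⟩, [⟨nat_lit 4, nat_lit 96, nat_lit 100, nat_lit 82, nat_lit 259048177⟩]⟩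
noncomputable def p048_l118 : Lf2 := ⟨nat_lit 0, nat_lit 5, [nat_lit 4, nat_lit 5, nat_lit 5, nat_lit 20], false, nat_lit 280, nat_lit 320, nat_lit 0, nat_lit 336, ⟨nat_lit 0, nat_lit 704, nat_lit 296, nat_lit 6, nat_lit 142, nat_lit 1000, nat_lit 221, nat_lit 296, nat_lit 4618, nat_lit 210, nat_lit 190817, nat_lit 322, nat_lit 44698502, nat_lit 7432987, nat_lit 14868511, nat_lit 4543725, false, false⟩,
 nat_lit 0, nat_lit 8807, nat_lit 0, nat_lit 0, nat_lit 5126, nat_lit 0, nat_lit 290, nat_lit 0, nat_lit 0, nat_lit 0, nat_lit 0, nat_lit 0, nat_lit 0, nat_lit 0, nat_lit 0, nat_lit 1000000, nat_lit 0, nat_lit 0, [(nat_lit 9, [(nat_lit 2, nat_lit 704), (nat_lit 6, nat_lit 296)])],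
 ⟨p048_k26, nat_lit 0, nat_lit 0, nat_lit 144, nat_lit 0, nat_lit 173444, [nat_lit 2199970134, nat_lit 1420716800, nat_lit 395193600], [], [nat_lit 17606535054, nat_lit 18653076656, nat_lit 17649686900, nat_lit 18631622108, nat_lit 20475875256, nat_lit 21732079288, nat_lit 20227147976, nat_lit 21428119872], nat_lit 1271250, nat_lit 1271250, nat_lit 490000, nat_lit 780000, nat_lit 1271250, nat_lit 1271250, [nat_lit 1100000, nat_lit 1442500, nat_lit 1271250], [nat_lit 9, nat_lit 40, nat_lit 40, nat_lit 80, nat_lit 2, nat_lit 238, nat_lit 30, nat_lit 7]⟩, ⟨p048_k32, nat_lit 0, nat_lit 0, nat_lit 295, nat_lit 0, nat_lit 194747, [nat_lit 0, nat_lit 0, nat_lit 0], [], [nat_lit 0, nat_lit 0, nat_lit 0, nat_lit 0, nat_lit 0, nat_lit 0, nat_lit 0, nat_lit 0], nat_lit 1271250, nat_lit 1271250, nat_lit 490000, nat_lit 780000, nat_lit 0, nat_lit 2373000, [nat_lit 1100000, nat_lit 1442500, nat_lit 1271250], [nat_lit 11, nat_lit 40,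 nat_lit 40, nat_lit 80, nat_lit 1, nat_lit 428, nat_lit 200, nat_lit 13]⟩,
 ⟨nat_lit 5477, nat_lit 5917, ⟨.ofNat (nat_lit 307076), .ofNat (nat_lit 385610), .ofNat (nat_lit 317746), .ofNat (nat_lit 396280), .ofNat (nat_lit 317913), .ofNat (nat_lit 392847), .ofNat (nat_lit 328592), .ofNat (nat_lit 403525)⟩, ⟨.ofNat (nat_lit 507691), .ofNat (nat_lit 586223), .ofNat (nat_lit 529030), .ofNat (nat_lit 607556), .ofNat (nat_lit 500365), .ofNat (nat_lit 575297), .ofNat (nat_lit 521722), .ofNat (nat_lit 596648)⟩⟩, [⟨nat_lit 4, nat_lit 93, nat_lit 100, nat_lit 81, nat_lit 426059410⟩]⟩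
noncomputable def p048_l119 : Lf2 := ⟨nat_lit 0, nat_lit 5, [nat_lit 4, nat_lit 5, nat_lit 5, nat_lit 20], false, nat_lit 280, nat_lit 320, nat_lit 0, nat_lit 160, ⟨nat_lit 1000, nat_lit 0, nat_lit 0, nat_lit 0, nat_lit 0, nat_lit 0, nat_lit 0, nat_lit 0, nat_lit 0, nat_lit 0, nat_lit 0, nat_lit 0, nat_lit 0, nat_lit 0, nat_lit 0, nat_lit 0, false, false⟩,
 nat_lit 27059, nat_lit 0, nat_lit 0, nat_lit 0, nat_lit 7520, nat_lit 15032, nat_lit 3014, nat_lit 0, nat_lit 0, nat_lit 581, nat_lit 0, nat_lit 0, nat_lit 0, nat_lit 0, nat_lit 0, nat_lit 0, nat_lit 0, nat_lit 0, [],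
 ⟨p048_k26, nat_lit 0, nat_lit 0, nat_lit 160, nat_lit 0, nat_lit 218582, [nat_lit 4688000000, nat_lit 6250000000, nat_lit 7968000000], [], [nat_lit 18430643650, nat_lit 19573294210, nat_lit 18039862050, nat_lit 19183186800, nat_lit 21890145120, nat_lit 23424129760, nat_lit 21121249520, nat_lit 22581721440], nat_lit 1271250, nat_lit 1271250, nat_lit 490000, nat_lit 780000, nat_lit 1271250, nat_lit 1271250, [nat_lit 1100000, nat_lit 1442500, nat_lit 1271250], [nat_lit 9, nat_lit 40, nat_lit 40, nat_lit 80, nat_lit 2, nat_lit 238, nat_lit 30, nat_lit 7]⟩, ⟨p048_k29, nat_lit 0, nat_lit 0, nat_lit 242, nat_lit 0, nat_lit 231350, [nat_lit 4688000000, nat_lit 6250000000, nat_lit 7968000000], [], [nat_lit 21561581928, nat_lit 19637652080, nat_lit 16416672064, nat_lit 17993358144, nat_lit 6422032328, nat_lit 7794084272, nat_lit 5220547368, nat_lit 6508347088], nat_lit 1271250, nat_lit 1271250, nat_lit 490000, nat_lit 780000, nat_lit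 0, nat_lit 1100001, [nat_lit 1100000, nat_lit 1442500, nat_lit 1271250], [nat_lit 9, nat_lit 40, nat_lit 40, nat_lit 80, nat_lit 2, nat_lit 289, nat_lit 75, nat_lit 10]⟩,
 zbF0, [⟨nat_lit 4, nat_lit 93, nat_lit 100, nat_lit 81, nat_lit 1352936273⟩]⟩
noncomputable def p048_l120 : Lf2 := ⟨nat_lit 0, nat_lit 5, [nat_lit 4, nat_lit 5, nat_lit 5, nat_lit 20], false, nat_lit 280, nat_lit 320, nat_lit 160, nat_lit 328, ⟨nat_lit 497, nat_lit 0, nat_lit 503, nat_lit 6, nat_lit 147, nat_lit 503, nat_lit 221, nat_lit 503, nat_lit 4618, nat_lit 210, nat_lit 201667, nat_lit 325, nat_lit 44424773, nat_lit 0, nat_lit 0, nat_lit 4588428, false, false⟩,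
 nat_lit 10405, nat_lit 0, nat_lit 0, nat_lit 0, nat_lit 6037, nat_lit 5780, nat_lit 1072, nat_lit 0, nat_lit 0, nat_lit 0, nat_lit 0, nat_lit 0, nat_lit 0, nat_lit 0, nat_lit 0, nat_lit 503000, nat_lit 0, nat_lit 0, [(nat_lit 9, [(nat_lit 6, nat_lit 503)])],
 ⟨p048_k30, nat_lit 0, nat_lit 0, nat_lit 154, nat_lit 0, nat_lit 218582, [nat_lit 2987055200, nat_lit 2588447067], [], [nat_lit 17850091806, nat_lit 19002587272, nat_lit 17616009848, nat_lit 18656786464, nat_lit 21014053972, nat_lit 22375963156, nat_lit 20567384612, nat_lit 21867105264], nat_lit 1271250, nat_lit 1271250, nat_lit 490000, nat_lit 780000, nat_lit 1271250, nat_lit 1271250, [nat_lit 1100000, nat_lit 1785000], [nat_lit 39, nat_lit 40, nat_lit 40, nat_lit 80, nat_lit 7, nat_lit 238, nat_lit 30, nat_lit 7]⟩, ⟨p048_k63, nat_lit 0, nat_lit 0, nat_lit 162, nat_lit 0, nat_lit 231350, [nat_lit 2329936000, nat_lit 3960096000], [], [nat_lit 10674861344, nat_lit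 9234814804, nat_lit 12216410144, nat_lit 10796778564, nat_lit 12439482142, nat_lit 12763803670, nat_lit 11678793694, nat_lit 11983327973], nat_lit 1271250, nat_lit 1271250, nat_lit 490000, nat_lit 780000, nat_lit 1271250, nat_lit 1271250, [nat_lit 1100000, nat_lit 1785000], [nat_lit 39, nat_lit 40, nat_lit 40, nat_lit 80, nat_lit 7, nat_lit 345, nat_lit 125, nat_lit 11]⟩,
 ⟨nat_lit 5477, nat_lit 5917, ⟨.ofNat (nat_lit 317746), .ofNat (nat_lit 396280), .ofNat (nat_lit 328416), .ofNat (nat_lit 406949), .ofNat (nat_lit 328592), .ofNat (nat_lit 403525), .ofNat (nat_lit 339271), .ofNat (nat_lit 414204)⟩, ⟨.ofNat (nat_lit 507691), .ofNat (nat_lit 586223), .ofNat (nat_lit 529030), .ofNat (nat_lit 607556), .ofNat (nat_lit 500365), .ofNat (nat_lit 575297), .ofNat (nat_lit 521722), .ofNat (nat_lit 596648)⟩⟩, [⟨nat_lit 4, nat_lit 93, nat_lit 100, nat_lit 81, nat_lit 440483956⟩, ⟨nat_lit 11, nat_lit 100, nat_lit 100, nat_lit 100,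 nat_lit 197967630⟩]⟩
noncomputable def b_V_600_600_10_65 : St := ⟨true, nat_lit 1, nat_lit 1, nat_lit 1, nat_lit 80, nat_lit 260, nat_lit 280, nat_lit 240, nat_lit 260, nat_lit 80, nat_lit 120, nat_lit 60, nat_lit 80, nat_lit 240, nat_lit 320, nat_lit 0, nat_lit 336, nat_lit 0, nat_lit 20, nat_lit 0, nat_lit 0, nat_lit 0, nat_lit 0⟩
theorem d_V_600_600_10_65 (h : EB TB.env) : Dead b_V_600_600_10_65 := chkB_sound0 h (T :=
(.spl (nat_lit 4) (nat_lit 280)
(.spl (nat_lit 0) (nat_lit 270)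
(.leaf p048_l114)
(.spl (nat_lit 6) (nat_lit 8)
(.spl (nat_lit 0) (nat_lit 275)
(.leaf p048_l115)
(.leaf p048_l116))
(.leaf p048_l117)))
(.spl (nat_lit 1) (nat_lit 250)
(.leaf p048_l118)
(.trX (nat_lit 19) (nat_lit 100) (nat_lit 81) (nat_lit 83) (nat_lit 328) (.spl (nat_lit 5) (nat_lit 160)
(.leaf p048_l119)
(.leaf p048_l120)))))) (by decide +kernel)
noncomputable def p048_l121 : Lf2 := ⟨nat_lit 0, nat_lit 5, [nat_lit 4, nat_lit 5, nat_lit 5, nat_lit 20], false, nat_lit 240, nat_lit 296, nat_lit 0, nat_lit 160, ⟨nat_lit 1000, nat_lit 0, nat_lit 0, nat_lit 0, nat_lit 0, nat_lit 0, nat_lit 0, nat_lit 0, nat_lit 0, nat_lit 0, nat_lit 0, nat_lit 0, nat_lit 0, nat_lit 0, nat_lit 0, nat_lit 0, false, false⟩,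
 nat_lit 15037, nat_lit 0, nat_lit 0, nat_lit 3261, nat_lit 8752, nat_lit 8752, nat_lit 1540, nat_lit 0, nat_lit 0, nat_lit 2117, nat_lit 0, nat_lit 0, nat_lit 0, nat_lit 18230043238063, nat_lit 0, nat_lit 0, nat_lit 0, nat_lit 0, [],
 ⟨p048_k10, nat_lit 0, nat_lit 0, nat_lit 0, nat_lit 0, nat_lit 317104, [nat_lit 2032000001, nat_lit 4688000000, nat_lit 6250000000, nat_lit 7968000000], [], [nat_lit 18380925535, nat_lit 19182908552, nat_lit 16216611264, nat_lit 16985715136, nat_lit 22950274245, nat_lit 23759345976, nat_lit 20598685520, nat_lit 21235006471], nat_lit 1271250, nat_lit 1271250, nat_lit 205650, nat_lit 490000, nat_lit 1271250, nat_lit 1271250, [nat_lit 490000, nat_lit 1100000, nat_lit 1442500, nat_lit 1271250], [nat_lit 98, nat_lit 40, nat_lit 40, nat_lit 80]⟩, ⟨p048_k10, nat_lit 0, nat_lit 0, nat_lit 0, nat_lit 0, nat_lit 317104, [nat_lit 2032000000, nat_lit 4688000000, nat_lit 6250000000, nat_lit 7968000000],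 [], [nat_lit 19100935356, nat_lit 20494221864, nat_lit 17024480607, nat_lit 17881789527, nat_lit 14414449400, nat_lit 14810845032, nat_lit 16102080638, nat_lit 13982530030], nat_lit 1271250, nat_lit 1271250, nat_lit 205650, nat_lit 490000, nat_lit 0, nat_lit 1100001, [nat_lit 490000, nat_lit 1100000, nat_lit 1442500, nat_lit 1271250], [nat_lit 98, nat_lit 40, nat_lit 40, nat_lit 80]⟩,
 zbF0, [⟨nat_lit 0, nat_lit 100, nat_lit 100, nat_lit 65, nat_lit 739497680⟩, ⟨nat_lit 16, nat_lit 100, nat_lit 98, nat_lit 70, nat_lit 591625604⟩, ⟨nat_lit 16, nat_lit 100, nat_lit 92, nat_lit 75, nat_lit 309356194⟩]⟩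
noncomputable def p048_l122 : Lf2 := ⟨nat_lit 0, nat_lit 5, [nat_lit 4, nat_lit 5, nat_lit 5, nat_lit 20], false, nat_lit 240, nat_lit 296, nat_lit 160, nat_lit 240, ⟨nat_lit 1000, nat_lit 0, nat_lit 0, nat_lit 0, nat_lit 0, nat_lit 0, nat_lit 0, nat_lit 0, nat_lit 0, nat_lit 0, nat_lit 0, nat_lit 0, nat_lit 0, nat_lit 0, nat_lit 0, nat_lit 0, false, false⟩,
 nat_lit 18785, nat_lit 0, nat_lit 0, nat_lit 0, nat_lit 7974, nat_lit 10934, nat_lit 1951, nat_lit 0, nat_lit 0, nat_lit 1635, nat_lit 0, nat_lit 0, nat_lit 0, nat_lit 17343415096912, nat_lit 0, nat_lit 0, nat_lit 0, nat_lit 0, [],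
 ⟨p048_k10, nat_lit 0, nat_lit 0, nat_lit 0, nat_lit 0, nat_lit 317104, [nat_lit 2032000001, nat_lit 4688000000, nat_lit 6250000000, nat_lit 7968000000], [], [nat_lit 17861301921, nat_lit 18619283010, nat_lit 16266229252, nat_lit 16866677254, nat_lit 22180080647, nat_lit 23080406755, nat_lit 20105101841, nat_lit 20710711085], nat_lit 1271250, nat_lit 1271250, nat_lit 205650, nat_lit 490000, nat_lit 1271250, nat_lit 1271250, [nat_lit 490000, nat_lit 1100000, nat_lit 1442500, nat_lit 1271250], [nat_lit 98, nat_lit 40, nat_lit 40, nat_lit 80]⟩, ⟨p048_k10, nat_lit 0, nat_lit 0, nat_lit 0, nat_lit 0, nat_lit 317104, [nat_lit 2032000000, nat_lit 4688000000, nat_lit 6250000000, nat_lit 7968000000], [], [nat_lit 18815498408, nat_lit 16006389798, nat_lit 9637433064, nat_lit 10726345992, nat_lit 16846108715, nat_lit 18209119051, nat_lit 13942728788, nat_lit 14826520762], nat_lit 1271250, nat_lit 1271250, nat_lit 205650, nat_lit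 490000, nat_lit 1100001, nat_lit 1785000, [nat_lit 490000, nat_lit 1100000, nat_lit 1442500, nat_lit 1271250], [nat_lit 98, nat_lit 40, nat_lit 40, nat_lit 80]⟩,
 zbF0, [⟨nat_lit 0, nat_lit 100, nat_lit 100, nat_lit 65, nat_lit 1203619683⟩, ⟨nat_lit 4, nat_lit 98, nat_lit 100, nat_lit 70, nat_lit 891219026⟩]⟩
noncomputable def p048_l123 : Lf2 := ⟨nat_lit 0, nat_lit 5, [nat_lit 4, nat_lit 5, nat_lit 5, nat_lit 20], false, nat_lit 240, nat_lit 296, nat_lit 240, nat_lit 296, ⟨nat_lit 1000, nat_lit 0, nat_lit 0, nat_lit 0, nat_lit 0, nat_lit 0, nat_lit 0, nat_lit 0, nat_lit 0, nat_lit 0, nat_lit 0, nat_lit 0, nat_lit 0, nat_lit 0, nat_lit 0, nat_lit 0, false, false⟩,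
 nat_lit 15042, nat_lit 0, nat_lit 0, nat_lit 0, nat_lit 8755, nat_lit 8755, nat_lit 1555, nat_lit 0, nat_lit 0, nat_lit 1555, nat_lit 0, nat_lit 0, nat_lit 0, nat_lit 0, nat_lit 0, nat_lit 0, nat_lit 0, nat_lit 0, [],
 ⟨p048_k13, nat_lit 0, nat_lit 0, nat_lit 0, nat_lit 0, nat_lit 267737, [nat_lit 3965500000, nat_lit 5449500000, nat_lit 7968000000], [], [nat_lit 18226432346, nat_lit 18627902140, nat_lit 16148642160, nat_lit 16533272938, nat_lit 22649554722, nat_lit 22981494995, nat_lit 20387417762, nat_lit 20706095343], nat_lit 1271250, nat_lit 1271250, nat_lit 205650, nat_lit 490000, nat_lit 1271250, nat_lit 1271250, [nat_lit 936250, nat_lit 1271250, nat_lit 1271250], [nat_lit 175, nat_lit 40, nat_lit 20, nat_lit 40]⟩, ⟨p048_k13, nat_lit 0, nat_lit 0, nat_lit 0, nat_lit 0, nat_lit 267737, [nat_lit 3965500000, nat_lit 5449500000, nat_lit 7968000000], [], [nat_lit 18226432346, nat_lit 18627902140, nat_lit 16148642160,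 nat_lit 16533272938, nat_lit 22649554722, nat_lit 22981494995, nat_lit 20387417762, nat_lit 20706095343], nat_lit 1271250, nat_lit 1271250, nat_lit 205650, nat_lit 490000, nat_lit 1271250, nat_lit 1271250, [nat_lit 936250, nat_lit 1271250, nat_lit 1271250], [nat_lit 175, nat_lit 40, nat_lit 20, nat_lit 40]⟩,
 zbF0, [⟨nat_lit 0, nat_lit 100, nat_lit 100, nat_lit 65, nat_lit 522746404⟩, ⟨nat_lit 16, nat_lit 100, nat_lit 97, nat_lit 70, nat_lit 279699890⟩, ⟨nat_lit 7, nat_lit 97, nat_lit 100, nat_lit 70, nat_lit 279699890⟩, ⟨nat_lit 11, nat_lit 100, nat_lit 100, nat_lit 68, nat_lit 633971574⟩]⟩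
noncomputable def p048_l124 : Lf2 := ⟨nat_lit 0, nat_lit 5, [nat_lit 4, nat_lit 5, nat_lit 5, nat_lit 20], false, nat_lit 240, nat_lit 292, nat_lit 240, nat_lit 296, ⟨nat_lit 793, nat_lit 0, nat_lit 207, nat_lit 6, nat_lit 118, nat_lit 207, nat_lit 187, nat_lit 207, nat_lit 14600, nat_lit 243, nat_lit 132017, nat_lit 304, nat_lit 49338280, nat_lit 0, nat_lit 0, nat_lit 3967331, false, false⟩,
 nat_lit 12302, nat_lit 0, nat_lit 0, nat_lit 0, nat_lit 7325, nat_lit 7160, nat_lit 1347, nat_lit 0, nat_lit 0, nat_lit 1132, nat_lit 0, nat_lit 0, nat_lit 0, nat_lit 0, nat_lit 0, nat_lit 51035, nat_lit 0, nat_lit 0, [(nat_lit 9, [(nat_lit 3, nat_lit 11), (nat_lit 4, nat_lit 196)])],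
 ⟨p048_k64, nat_lit 0, nat_lit 0, nat_lit 0, nat_lit 0, nat_lit 308694, [nat_lit 4123059501, nat_lit 4395174500, nat_lit 6128135600], [], [nat_lit 17842908036, nat_lit 18204640131, nat_lit 16244383189, nat_lit 16568952075, nat_lit 21458500011, nat_lit 21822811283, nat_lit 19692562522, nat_lit 19987085908], nat_lit 1271250, nat_lit 1271250, nat_lit 205650, nat_lit 490000, nat_lit 1271250, nat_lit 1271250, [nat_lit 936250, nat_lit 1271250, nat_lit 1271250], [nat_lit 175, nat_lit 40, nat_lit 20, nat_lit 40]⟩, ⟨p048_k13, nat_lit 0, nat_lit 0, nat_lit 0, nat_lit 0, nat_lit 317104, [nat_lit 3144641500, nat_lit 4321453500, nat_lit 6318624000], [], [nat_lit 14566040686, nat_lit 15214847870, nat_lit 12846714812, nat_lit 13468159942, nat_lit 18139946694, nat_lit 18786269322, nat_lit 16270846280, nat_lit 16784867412], nat_lit 1271250, nat_lit 1271250, nat_lit 205650, nat_lit 490000, nat_lit 1271250, nat_lit 1271250, [nat_lit 936250,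 nat_lit 1271250, nat_lit 1271250], [nat_lit 175, nat_lit 40, nat_lit 20, nat_lit 40]⟩,
 ⟨nat_lit 5700, nat_lit 5810, ⟨.ofNat (nat_lit 245764), .ofNat (nat_lit 331148), .ofNat (nat_lit 256433), .ofNat (nat_lit 341818), .ofNat (nat_lit 249476), .ofNat (nat_lit 333867), .ofNat (nat_lit 260147), .ofNat (nat_lit 344538)⟩, ⟨.ofNat (nat_lit 406908), .ofNat (nat_lit 507817), .ofNat (nat_lit 428247), .ofNat (nat_lit 529156), .ofNat (nat_lit 405982), .ofNat (nat_lit 505716), .ofNat (nat_lit 427324), .ofNat (nat_lit 527058)⟩⟩, [⟨nat_lit 0, nat_lit 100, nat_lit 100, nat_lit 66, nat_lit 448226951⟩, ⟨nat_lit 4, nat_lit 99, nat_lit 100, nat_lit 70, nat_lit 292588356⟩, ⟨nat_lit 7, nat_lit 98, nat_lit 100, nat_lit 70, nat_lit 256217031⟩, ⟨nat_lit 11, nat_lit 100, nat_lit 100, nat_lit 67, nat_lit 490368974⟩]⟩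
noncomputable def p048_l125 : Lf2 := ⟨nat_lit 0, nat_lit 5, [nat_lit 4, nat_lit 5, nat_lit 5, nat_lit 20], true, nat_lit 240, nat_lit 296, nat_lit 0, nat_lit 296, ⟨nat_lit 0, nat_lit 0, nat_lit 1000, nat_lit 6, nat_lit 118, nat_lit 1000, nat_lit 189, nat_lit 1000, nat_lit 11818, nat_lit 238, nat_lit 129067, nat_lit 303, nat_lit 49214355, nat_lit 0, nat_lit 0, nat_lit 3977605, false, false⟩,
 nat_lit 0, nat_lit 100000, nat_lit 0, nat_lit 0, nat_lit 58208, nat_lit 0, nat_lit 21816, nat_lit 4347, nat_lit 0, nat_lit 0, nat_lit 0, nat_lit 0, nat_lit 0, nat_lit 0, nat_lit 0, nat_lit 1000000, nat_lit 0, nat_lit 0, [(nat_lit 9, [(nat_lit 6, nat_lit 1000)])],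
 ⟨p048_k26, nat_lit 0, nat_lit 0, nat_lit 215, nat_lit 0, nat_lit 317104, [nat_lit 70649600000, nat_lit 86200000001, nat_lit 101746399999], [], [nat_lit 62707067662, nat_lit 65914653609, nat_lit 46621335625, nat_lit 49644517392, nat_lit 82708651396, nat_lit 85522198554, nat_lit 65733093633, nat_lit 68386464303], nat_lit 1271250, nat_lit 1271250, nat_lit 205650, nat_lit 490000, nat_lit 1271250, nat_lit 1271250, [nat_lit 1100000, nat_lit 1442500, nat_lit 1271250], [nat_lit 9, nat_lit 40, nat_lit 40, nat_lit 80, nat_lit 2, nat_lit 226, nat_lit 20, nat_lit 7]⟩, C1.Rw.none,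
 ⟨nat_lit 5700, nat_lit 5917, ⟨.ofNat (nat_lit 242029), .ofNat (nat_lit 328416), .ofNat (nat_lit 252698), .ofNat (nat_lit 339085), .ofNat (nat_lit 249476), .ofNat (nat_lit 333867), .ofNat (nat_lit 260147), .ofNat (nat_lit 344538)⟩, ⟨.ofNat (nat_lit 407818), .ofNat (nat_lit 517765), .ofNat (nat_lit 429157), .ofNat (nat_lit 539104), .ofNat (nat_lit 405982), .ofNat (nat_lit 513388), .ofNat (nat_lit 427324), .ofNat (nat_lit 534730)⟩⟩, [⟨nat_lit 0, nat_lit 100, nat_lit 100, nat_lit 70, nat_lit 1962584082⟩, ⟨nat_lit 16, nat_lit 100, nat_lit 98, nat_lit 70, nat_lit 5597003951⟩]⟩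
noncomputable def p048_l126 : Lf2 := ⟨nat_lit 0, nat_lit 5, [nat_lit 4, nat_lit 5, nat_lit 5, nat_lit 20], false, nat_lit 240, nat_lit 296, nat_lit 0, nat_lit 296, ⟨nat_lit 0, nat_lit 236, nat_lit 764, nat_lit 6, nat_lit 118, nat_lit 1000, nat_lit 189, nat_lit 764, nat_lit 11818, nat_lit 238, nat_lit 129067, nat_lit 303, nat_lit 49214355, nat_lit 5752748, nat_lit 12032897, nat_lit 3977605, false, false⟩,
 nat_lit 100000, nat_lit 0, nat_lit 71795, nat_lit 0, nat_lit 6643, nat_lit 100000, nat_lit 0, nat_lit 0, nat_lit 0, nat_lit 39024, nat_lit 3763, nat_lit 0, nat_lit 0, nat_lit 0, nat_lit 0, nat_lit 250000, nat_lit 0, nat_lit 0, [(nat_lit 9, [(nat_lit 0, nat_lit 236), (nat_lit 4, nat_lit 764)])],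
 ⟨p048_k26, nat_lit 0, nat_lit 0, nat_lit 215, nat_lit 0, nat_lit 317104, [nat_lit 3104576000, nat_lit 651931201, nat_lit 140423999], [], [nat_lit 15602241819, nat_lit 16579199007, nat_lit 14065329302, nat_lit 14722111707, nat_lit 21109691599, nat_lit 21918879631, nat_lit 19093841027, nat_lit 19878300693], nat_lit 1271250, nat_lit 1271250, nat_lit 205650, nat_lit 490000, nat_lit 1271250, nat_lit 1271250, [nat_lit 1100000, nat_lit 1442500, nat_lit 1271250], [nat_lit 9, nat_lit 40, nat_lit 40, nat_lit 80, nat_lit 2, nat_lit 226, nat_lit 20, nat_lit 7]⟩, ⟨p048_k26, nat_lit 0, nat_lit 0, nat_lit 314, nat_lit 0, nat_lit 317104, [nat_lit 60208000000, nat_lit 75260000000, nat_lit 90312000000], [], [nat_lit 185677760000, nat_lit 159599060001, nat_lit 71799000000, nat_lit 46146100000, nat_lit 63490304000, nat_lit 40638164000, nat_lit 77344140000, nat_lit 54817560000], nat_lit 1271250, nat_lit 1271250, nat_lit 205650, nat_lit 490000,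 nat_lit 0, nat_lit 2090500, [nat_lit 1100000, nat_lit 1442500, nat_lit 1271250], [nat_lit 9, nat_lit 40, nat_lit 40, nat_lit 80, nat_lit 2, nat_lit 317, nat_lit 100, nat_lit 11]⟩,
 ⟨nat_lit 5700, nat_lit 5917, ⟨.ofNat (nat_lit 242029), .ofNat (nat_lit 328416), .ofNat (nat_lit 252698), .ofNat (nat_lit 339085), .ofNat (nat_lit 249476), .ofNat (nat_lit 333867), .ofNat (nat_lit 260147), .ofNat (nat_lit 344538)⟩, ⟨.ofNat (nat_lit 407818), .ofNat (nat_lit 517765), .ofNat (nat_lit 429157), .ofNat (nat_lit 539104), .ofNat (nat_lit 405982), .ofNat (nat_lit 513388), .ofNat (nat_lit 427324), .ofNat (nat_lit 534730)⟩⟩, [⟨nat_lit 4, nat_lit 98, nat_lit 100, nat_lit 70, nat_lit 628692066⟩]⟩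
noncomputable def p048_l127 : Lf2 := ⟨nat_lit 0, nat_lit 5, [nat_lit 4, nat_lit 5, nat_lit 5, nat_lit 20], false, nat_lit 240, nat_lit 288, nat_lit 0, nat_lit 80, ⟨nat_lit 1000, nat_lit 0, nat_lit 0, nat_lit 0, nat_lit 0, nat_lit 0, nat_lit 0, nat_lit 0, nat_lit 0, nat_lit 0, nat_lit 0, nat_lit 0, nat_lit 0, nat_lit 0, nat_lit 0, nat_lit 0, false, false⟩,
 nat_lit 18998, nat_lit 0, nat_lit 0, nat_lit 0, nat_lit 8231, nat_lit 11058, nat_lit 2026, nat_lit 0, nat_lit 0, nat_lit 1513, nat_lit 0, nat_lit 0, nat_lit 0, nat_lit 0, nat_lit 0, nat_lit 0, nat_lit 0, nat_lit 0, [],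
 ⟨p048_k41, nat_lit 0, nat_lit 0, nat_lit 245, nat_lit 0, nat_lit 348827, [nat_lit 4688000000, nat_lit 6250000000, nat_lit 7968000000], [], [nat_lit 17117283730, nat_lit 17887529878, nat_lit 15882354869, nat_lit 16485539028, nat_lit 21957739682, nat_lit 22905145457, nat_lit 19743223387, nat_lit 20660794035], nat_lit 1271250, nat_lit 1271250, nat_lit 230001, nat_lit 490000, nat_lit 1271250, nat_lit 1271250, [nat_lit 1100000, nat_lit 1442500, nat_lit 1271250], [nat_lit 9, nat_lit 40, nat_lit 40, nat_lit 80, nat_lit 2, nat_lit 226, nat_lit 20, nat_lit 7]⟩, ⟨p048_k26, nat_lit 0, nat_lit 0, nat_lit 330, nat_lit 0, nat_lit 367912, [nat_lit 4688000000, nat_lit 6250000000, nat_lit 7968000000], [], [nat_lit 22339190375, nat_lit 22924849656, nat_lit 17616759020, nat_lit 18943330706, nat_lit 13276940642, nat_lit 13508003154, nat_lit 15029248770, nat_lit 12351233388], nat_lit 1271250, nat_lit 1271250, nat_lit 230001, nat_lit 490000,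 nat_lit 0, nat_lit 490000, [nat_lit 1100000, nat_lit 1442500, nat_lit 1271250], [nat_lit 9, nat_lit 40, nat_lit 40, nat_lit 80, nat_lit 2, nat_lit 249, nat_lit 40, nat_lit 9]⟩,
 zbF0, [⟨nat_lit 0, nat_lit 100, nat_lit 98, nat_lit 64, nat_lit 1345914046⟩, ⟨nat_lit 4, nat_lit 100, nat_lit 98, nat_lit 70, nat_lit 1079875738⟩]⟩
noncomputable def p048_l128 : Lf2 := ⟨nat_lit 0, nat_lit 5, [nat_lit 4, nat_lit 5, nat_lit 5, nat_lit 20], false, nat_lit 240, nat_lit 288, nat_lit 80, nat_lit 160, ⟨nat_lit 1000, nat_lit 0, nat_lit 0, nat_lit 0, nat_lit 0, nat_lit 0, nat_lit 0, nat_lit 0, nat_lit 0, nat_lit 0, nat_lit 0, nat_lit 0, nat_lit 0, nat_lit 0, nat_lit 0, nat_lit 0, false, false⟩,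
 nat_lit 18232, nat_lit 0, nat_lit 0, nat_lit 0, nat_lit 8941, nat_lit 10612, nat_lit 1331, nat_lit 0, nat_lit 0, nat_lit 2512, nat_lit 0, nat_lit 0, nat_lit 0, nat_lit 0, nat_lit 0, nat_lit 0, nat_lit 0, nat_lit 0, [],
 ⟨p048_k41, nat_lit 0, nat_lit 0, nat_lit 212, nat_lit 0, nat_lit 324405, [nat_lit 4688000000, nat_lit 6250000000, nat_lit 7968000000], [], [nat_lit 18641632895, nat_lit 19047282564, nat_lit 16783479988, nat_lit 17172998939, nat_lit 22482350020, nat_lit 22981692783, nat_lit 20472886640, nat_lit 20804438674], nat_lit 1271250, nat_lit 1271250, nat_lit 230001, nat_lit 490000, nat_lit 1271250, nat_lit 1271250, [nat_lit 1100000, nat_lit 1442500, nat_lit 1271250], [nat_lit 9, nat_lit 40, nat_lit 40, nat_lit 80, nat_lit 2, nat_lit 226, nat_lit 20, nat_lit 7]⟩, ⟨p048_k26, nat_lit 0, nat_lit 0, nat_lit 244, nat_lit 0, nat_lit 342154, [nat_lit 4688000000, nat_lit 6250000000, nat_lit 7968000000], [], [nat_lit 10095183784,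 nat_lit 11364260556, nat_lit 7826688856, nat_lit 9046076380, nat_lit 10050176544, nat_lit 11162745048, nat_lit 7894497952, nat_lit 8961163256], nat_lit 1271250, nat_lit 1271250, nat_lit 230001, nat_lit 490000, nat_lit 490000, nat_lit 1100001, [nat_lit 1100000, nat_lit 1442500, nat_lit 1271250], [nat_lit 9, nat_lit 40, nat_lit 40, nat_lit 80, nat_lit 2, nat_lit 272, nat_lit 60, nat_lit 9]⟩,
 zbF0, [⟨nat_lit 0, nat_lit 100, nat_lit 99, nat_lit 68, nat_lit 1186296148⟩, ⟨nat_lit 4, nat_lit 100, nat_lit 99, nat_lit 70, nat_lit 918168757⟩]⟩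
noncomputable def p048_l129 : Lf2 := ⟨nat_lit 0, nat_lit 5, [nat_lit 4, nat_lit 5, nat_lit 5, nat_lit 20], false, nat_lit 240, nat_lit 280, nat_lit 80, nat_lit 160, ⟨nat_lit 1000, nat_lit 0, nat_lit 0, nat_lit 0, nat_lit 0, nat_lit 0, nat_lit 0, nat_lit 0, nat_lit 0, nat_lit 0, nat_lit 0, nat_lit 0, nat_lit 0, nat_lit 0, nat_lit 0, nat_lit 0, false, false⟩,
 nat_lit 17711, nat_lit 0, nat_lit 0, nat_lit 0, nat_lit 9509, nat_lit 10309, nat_lit 1094, nat_lit 0, nat_lit 0, nat_lit 2629, nat_lit 0, nat_lit 0, nat_lit 0, nat_lit 0, nat_lit 0, nat_lit 0, nat_lit 0, nat_lit 0, [],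
 ⟨p048_k65, nat_lit 0, nat_lit 0, nat_lit 214, nat_lit 0, nat_lit 339899, [nat_lit 4688000000, nat_lit 6250000000, nat_lit 7968000000], [], [nat_lit 18949763677, nat_lit 19369457847, nat_lit 17113660762, nat_lit 17518107036, nat_lit 22208579794, nat_lit 22742951779, nat_lit 20255306257, nat_lit 20608792220], nat_lit 1271250, nat_lit 1271250, nat_lit 254650, nat_lit 490000, nat_lit 1271250, nat_lit 1271250, [nat_lit 1100000, nat_lit 1442500, nat_lit 1271250], [nat_lit 9, nat_lit 40, nat_lit 40, nat_lit 80, nat_lit 2, nat_lit 226, nat_lit 20, nat_lit 7]⟩, ⟨p048_k26, nat_lit 0, nat_lit 0, nat_lit 252, nat_lit 0, nat_lit 367912, [nat_lit 4688000000, nat_lit 6250000000, nat_lit 7968000000], [], [nat_lit 9794671879, nat_lit 11033012424, nat_lit 7832121442, nat_lit 9026806285, nat_lit 9818669954, nat_lit 10905561968, nat_lit 7954210564, nat_lit 8999940992], nat_lit 1271250, nat_lit 1271250, nat_lit 254650, nat_lit 490000, nat_lit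 490000, nat_lit 1100001, [nat_lit 1100000, nat_lit 1442500, nat_lit 1271250], [nat_lit 9, nat_lit 40, nat_lit 40, nat_lit 80, nat_lit 2, nat_lit 272, nat_lit 60, nat_lit 9]⟩,
 zbF0, [⟨nat_lit 0, nat_lit 100, nat_lit 97, nat_lit 70, nat_lit 1215223627⟩, ⟨nat_lit 4, nat_lit 100, nat_lit 97, nat_lit 70, nat_lit 944878088⟩]⟩
noncomputable def p048_l130 : Lf2 := ⟨nat_lit 0, nat_lit 5, [nat_lit 4, nat_lit 5, nat_lit 5, nat_lit 20], false, nat_lit 240, nat_lit 288, nat_lit 160, nat_lit 200, ⟨nat_lit 1000, nat_lit 0, nat_lit 0, nat_lit 0, nat_lit 0, nat_lit 0, nat_lit 0, nat_lit 0, nat_lit 0, nat_lit 0, nat_lit 0, nat_lit 0, nat_lit 0, nat_lit 0, nat_lit 0, nat_lit 0, false, false⟩,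
 nat_lit 21145, nat_lit 0, nat_lit 0, nat_lit 0, nat_lit 8333, nat_lit 12308, nat_lit 2136, nat_lit 0, nat_lit 0, nat_lit 2000, nat_lit 0, nat_lit 0, nat_lit 0, nat_lit 0, nat_lit 0, nat_lit 0, nat_lit 0, nat_lit 0, [],
 ⟨p048_k41, nat_lit 0, nat_lit 0, nat_lit 245, nat_lit 0, nat_lit 348827, [nat_lit 4688000000, nat_lit 6250000000, nat_lit 7968000000], [], [nat_lit 16748325282, nat_lit 17875857660, nat_lit 15601323689, nat_lit 16208893404, nat_lit 22033106238, nat_lit 22987878963, nat_lit 19781861599, nat_lit 20706518840], nat_lit 1271250, nat_lit 1271250, nat_lit 230001, nat_lit 490000, nat_lit 1271250, nat_lit 1271250, [nat_lit 1100000, nat_lit 1442500, nat_lit 1271250], [nat_lit 9, nat_lit 40, nat_lit 40, nat_lit 80, nat_lit 2, nat_lit 226, nat_lit 20, nat_lit 7]⟩, ⟨p048_k26, nat_lit 0, nat_lit 0, nat_lit 204, nat_lit 0, nat_lit 367912, [nat_lit 4688000000, nat_lit 6250000000, nat_lit 7968000000], [], [nat_lit 15887581000,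 nat_lit 12730222068, nat_lit 7217326368, nat_lit 8401171704, nat_lit 12898977132, nat_lit 14561336570, nat_lit 9582079520, nat_lit 11186043064], nat_lit 1271250, nat_lit 1271250, nat_lit 230001, nat_lit 490000, nat_lit 1100001, nat_lit 1442500, [nat_lit 1100000, nat_lit 1442500, nat_lit 1271250], [nat_lit 9, nat_lit 40, nat_lit 40, nat_lit 80, nat_lit 2, nat_lit 289, nat_lit 75, nat_lit 9]⟩,
 zbF0, [⟨nat_lit 0, nat_lit 100, nat_lit 98, nat_lit 64, nat_lit 1257373141⟩, ⟨nat_lit 4, nat_lit 100, nat_lit 98, nat_lit 70, nat_lit 1146990566⟩]⟩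
noncomputable def p048_l131 : Lf2 := ⟨nat_lit 0, nat_lit 5, [nat_lit 4, nat_lit 5, nat_lit 5, nat_lit 20], false, nat_lit 240, nat_lit 288, nat_lit 200, nat_lit 240, ⟨nat_lit 1000, nat_lit 0, nat_lit 0, nat_lit 0, nat_lit 0, nat_lit 0, nat_lit 0, nat_lit 0, nat_lit 0, nat_lit 0, nat_lit 0, nat_lit 0, nat_lit 0, nat_lit 0, nat_lit 0, nat_lit 0, false, false⟩,
 nat_lit 16823, nat_lit 0, nat_lit 0, nat_lit 0, nat_lit 8577, nat_lit 9792, nat_lit 1470, nat_lit 0, nat_lit 0, nat_lit 2050, nat_lit 0, nat_lit 0, nat_lit 0, nat_lit 0, nat_lit 0, nat_lit 0, nat_lit 0, nat_lit 0, [],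
 ⟨p048_k41, nat_lit 0, nat_lit 0, nat_lit 245, nat_lit 0, nat_lit 348827, [nat_lit 4688000000, nat_lit 6250000000, nat_lit 7968000000], [], [nat_lit 18468673374, nat_lit 19259534626, nat_lit 16946548717, nat_lit 17516823956, nat_lit 22213394861, nat_lit 23185790486, nat_lit 20314592247, nat_lit 20962646881], nat_lit 1271250, nat_lit 1271250, nat_lit 230001, nat_lit 490000, nat_lit 1271250, nat_lit 1271250, [nat_lit 1100000, nat_lit 1442500, nat_lit 1271250], [nat_lit 9, nat_lit 40, nat_lit 40, nat_lit 80, nat_lit 2, nat_lit 226, nat_lit 20, nat_lit 7]⟩, ⟨p048_k26, nat_lit 0, nat_lit 0, nat_lit 210, nat_lit 0, nat_lit 367912, [nat_lit 4688000000, nat_lit 6250000000, nat_lit 7968000000], [], [nat_lit 13970600944, nat_lit 14926311504, nat_lit 11971152888, nat_lit 12888041476, nat_lit 16088187184, nat_lit 17209309624, nat_lit 14017488544, nat_lit 14841255856], nat_lit 1271250, nat_lit 1271250, nat_lit 230001, nat_lit 490000,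 nat_lit 1271250, nat_lit 1271250, [nat_lit 1100000, nat_lit 1442500, nat_lit 1271250], [nat_lit 9, nat_lit 40, nat_lit 40, nat_lit 80, nat_lit 2, nat_lit 317, nat_lit 100, nat_lit 10]⟩,
 zbF0, [⟨nat_lit 0, nat_lit 100, nat_lit 98, nat_lit 64, nat_lit 1150362008⟩, ⟨nat_lit 16, nat_lit 100, nat_lit 97, nat_lit 76, nat_lit 535425632⟩, ⟨nat_lit 4, nat_lit 100, nat_lit 98, nat_lit 70, nat_lit 319812569⟩]⟩
noncomputable def p048_l132 : Lf2 := ⟨nat_lit 0, nat_lit 5, [nat_lit 4, nat_lit 5, nat_lit 5, nat_lit 20], false, nat_lit 240, nat_lit 288, nat_lit 240, nat_lit 296, ⟨nat_lit 838, nat_lit 0, nat_lit 162, nat_lit 6, nat_lit 122, nat_lit 162, nat_lit 184, nat_lit 162, nat_lit 22024, nat_lit 249, nat_lit 138017, nat_lit 306, nat_lit 49321752, nat_lit 0, nat_lit 0, nat_lit 3986277, false, false⟩,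
 nat_lit 12957, nat_lit 0, nat_lit 0, nat_lit 0, nat_lit 7891, nat_lit 7542, nat_lit 1383, nat_lit 0, nat_lit 0, nat_lit 1223, nat_lit 0, nat_lit 0, nat_lit 0, nat_lit 0, nat_lit 0, nat_lit 64800, nat_lit 0, nat_lit 0, [(nat_lit 9, [(nat_lit 5, nat_lit 162)])],
 ⟨p048_k41, nat_lit 0, nat_lit 0, nat_lit 245, nat_lit 0, nat_lit 348827, [nat_lit 4175820800, nat_lit 5204063200, nat_lit 6466519200], [], [nat_lit 17618646095, nat_lit 18371756533, nat_lit 16065546538, nat_lit 16789395389, nat_lit 21706517830, nat_lit 22629367105, nat_lit 19614429347, nat_lit 20508378019], nat_lit 1271250, nat_lit 1271250, nat_lit 230001, nat_lit 490000, nat_lit 1271250, nat_lit 1271250, [nat_lit 1100000, nat_lit 1442500, nat_lit 1271250], [nat_lit 9, nat_lit 40, nat_lit 40, nat_lit 80, nat_lit 2, nat_lit 226, nat_lit 20, nat_lit 7]⟩, ⟨p048_k26, nat_lit 0, nat_lit 0, nat_lit 252, nat_lit 0, nat_lit 367912, [nat_lit 3928544000, nat_lit 5237500000,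 nat_lit 6677184000], [], [nat_lit 15445721481, nat_lit 15958375523, nat_lit 14100853829, nat_lit 14591011761, nat_lit 18990842567, nat_lit 19654335351, nat_lit 17292102432, nat_lit 17833543282], nat_lit 1271250, nat_lit 1271250, nat_lit 230001, nat_lit 490000, nat_lit 1271250, nat_lit 1271250, [nat_lit 1100000, nat_lit 1442500, nat_lit 1271250], [nat_lit 9, nat_lit 40, nat_lit 40, nat_lit 80, nat_lit 2, nat_lit 226, nat_lit 20, nat_lit 7]⟩,
 ⟨nat_lit 5477, nat_lit 5701, ⟨.ofNat (nat_lit 257148), .ofNat (nat_lit 333867), .ofNat (nat_lit 267819), .ofNat (nat_lit 344538), .ofNat (nat_lit 264337), .ofNat (nat_lit 339271), .ofNat (nat_lit 275016), .ofNat (nat_lit 349949)⟩, ⟨.ofNat (nat_lit 405982), .ofNat (nat_lit 498045), .ofNat (nat_lit 427324), .ofNat (nat_lit 519387), .ofNat (nat_lit 404075), .ofNat (nat_lit 493995), .ofNat (nat_lit 425432), .ofNat (nat_lit 515352)⟩⟩, [⟨nat_lit 0, nat_lit 100, nat_lit 98, nat_lit 69, nat_lit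 439061429⟩, ⟨nat_lit 4, nat_lit 100, nat_lit 98, nat_lit 70, nat_lit 422368419⟩, ⟨nat_lit 19, nat_lit 100, nat_lit 98, nat_lit 70, nat_lit 242573387⟩, ⟨nat_lit 11, nat_lit 99, nat_lit 100, nat_lit 66, nat_lit 524451946⟩]⟩
noncomputable def p048_l133 : Lf2 := ⟨nat_lit 0, nat_lit 5, [nat_lit 4, nat_lit 5, nat_lit 5, nat_lit 20], false, nat_lit 240, nat_lit 296, nat_lit 0, nat_lit 160, ⟨nat_lit 1000, nat_lit 0, nat_lit 0, nat_lit 0, nat_lit 0, nat_lit 0, nat_lit 0, nat_lit 0, nat_lit 0, nat_lit 0, nat_lit 0, nat_lit 0, nat_lit 0, nat_lit 0, nat_lit 0, nat_lit 0, false, false⟩,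
 nat_lit 22085, nat_lit 0, nat_lit 0, nat_lit 0, nat_lit 12855, nat_lit 12855, nat_lit 756, nat_lit 0, nat_lit 0, nat_lit 3766, nat_lit 0, nat_lit 0, nat_lit 0, nat_lit 0, nat_lit 0, nat_lit 0, nat_lit 0, nat_lit 0, [],
 ⟨p048_k26, nat_lit 0, nat_lit 0, nat_lit 207, nat_lit 0, nat_lit 367912, [nat_lit 4688000000, nat_lit 6250000000, nat_lit 7968000000], [], [nat_lit 14251164610, nat_lit 16220687920, nat_lit 12967944620, nat_lit 14817388200, nat_lit 21452451702, nat_lit 23848949824, nat_lit 19721999609, nat_lit 21989259360], nat_lit 1271250, nat_lit 1271250, nat_lit 490000, nat_lit 780000, nat_lit 1271250, nat_lit 1271250, [nat_lit 1100000, nat_lit 1442500, nat_lit 1271250], [nat_lit 9, nat_lit 40, nat_lit 40, nat_lit 80, nat_lit 2, nat_lit 238, nat_lit 30, nat_lit 7]⟩, ⟨p048_k26, nat_lit 0, nat_lit 0, nat_lit 302, nat_lit 0, nat_lit 367912, [nat_lit 4688000000, nat_lit 6250000000, nat_lit 7968000000], [], [nat_lit 20074558250,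 nat_lit 20142408925, nat_lit 16173369860, nat_lit 18227660890, nat_lit 16853533670, nat_lit 13824857105, nat_lit 20891665330, nat_lit 17903507725], nat_lit 1271250, nat_lit 1271250, nat_lit 490000, nat_lit 780000, nat_lit 0, nat_lit 1100001, [nat_lit 1100000, nat_lit 1442500, nat_lit 1271250], [nat_lit 9, nat_lit 40, nat_lit 40, nat_lit 80, nat_lit 2, nat_lit 289, nat_lit 75, nat_lit 10]⟩,
 zbF0, [⟨nat_lit 4, nat_lit 100, nat_lit 100, nat_lit 71, nat_lit 1294698232⟩]⟩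
noncomputable def p048_l134 : Lf2 := ⟨nat_lit 0, nat_lit 5, [nat_lit 4, nat_lit 5, nat_lit 5, nat_lit 20], false, nat_lit 240, nat_lit 296, nat_lit 160, nat_lit 296, ⟨nat_lit 1000, nat_lit 0, nat_lit 0, nat_lit 0, nat_lit 0, nat_lit 0, nat_lit 0, nat_lit 0, nat_lit 0, nat_lit 0, nat_lit 0, nat_lit 0, nat_lit 0, nat_lit 0, nat_lit 0, nat_lit 0, false, false⟩,
 nat_lit 18755, nat_lit 0, nat_lit 0, nat_lit 0, nat_lit 8554, nat_lit 10917, nat_lit 2431, nat_lit 0, nat_lit 0, nat_lit 1358, nat_lit 0, nat_lit 0, nat_lit 0, nat_lit 0, nat_lit 0, nat_lit 0, nat_lit 0, nat_lit 0, [],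
 ⟨p048_k26, nat_lit 0, nat_lit 0, nat_lit 207, nat_lit 0, nat_lit 367912, [nat_lit 4688000000, nat_lit 6250000000, nat_lit 7968000000], [], [nat_lit 14264625537, nat_lit 15781550296, nat_lit 13870219261, nat_lit 15246927669, nat_lit 19819421355, nat_lit 21642929076, nat_lit 18965385754, nat_lit 20697101328], nat_lit 1271250, nat_lit 1271250, nat_lit 490000, nat_lit 780000, nat_lit 1271250, nat_lit 1271250, [nat_lit 1100000, nat_lit 1442500, nat_lit 1271250], [nat_lit 9, nat_lit 40, nat_lit 40, nat_lit 80, nat_lit 2, nat_lit 238, nat_lit 30, nat_lit 7]⟩, ⟨p048_k26, nat_lit 0, nat_lit 0, nat_lit 204, nat_lit 0, nat_lit 367912, [nat_lit 4688000000, nat_lit 6250000000, nat_lit 7968000000], [], [nat_lit 17495586750, nat_lit 14695059657, nat_lit 9634999678, nat_lit 10659089623, nat_lit 22118764211, nat_lit 21785776208, nat_lit 25496009094, nat_lit 22902394086], nat_lit 1271250, nat_lit 1271250, nat_lit 490000, nat_lit 780000,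 nat_lit 1100001, nat_lit 2264500, [nat_lit 1100000, nat_lit 1442500, nat_lit 1271250], [nat_lit 9, nat_lit 40, nat_lit 40, nat_lit 80, nat_lit 2, nat_lit 345, nat_lit 125, nat_lit 11]⟩,
 zbF0, [⟨nat_lit 16, nat_lit 100, nat_lit 92, nat_lit 75, nat_lit 753997276⟩, ⟨nat_lit 4, nat_lit 100, nat_lit 100, nat_lit 71, nat_lit 276061632⟩, ⟨nat_lit 19, nat_lit 100, nat_lit 92, nat_lit 75, nat_lit 518171167⟩]⟩
noncomputable def b_V_600_600_10_66 : St := ⟨true, nat_lit 1, nat_lit 1, nat_lit 1, nat_lit 80, nat_lit 260, nat_lit 280, nat_lit 260, nat_lit 270, nat_lit 36, nat_lit 120, nat_lit 40, nat_lit 60, nat_lit 240, nat_lit 320, nat_lit 0, nat_lit 320, nat_lit 0, nat_lit 20, nat_lit 0, nat_lit 0, nat_lit 0, nat_lit 0⟩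
theorem d_V_600_600_10_66 (h : EB TB.env) : Dead b_V_600_600_10_66 := chkB_sound0 h (T :=
(.trX (nat_lit 16) (nat_lit 100) (nat_lit 92) (nat_lit 75) (nat_lit 296) (.trX (nat_lit 19) (nat_lit 100) (nat_lit 92) (nat_lit 75) (nat_lit 296) (.spl (nat_lit 2) (nat_lit 80)
(.spl (nat_lit 0) (nat_lit 270)
(.spl (nat_lit 8) (nat_lit 800)
(.spl (nat_lit 7) (nat_lit 600)
(.spl (nat_lit 5) (nat_lit 160)
(.leaf p048_l121)
(.spl (nat_lit 5) (nat_lit 240)
(.leaf p048_l122)
(.spl (nat_lit 0) (nat_lit 265)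
(.ord (.leaf p048_l123))
(.trX (nat_lit 16) (nat_lit 100) (nat_lit 95) (nat_lit 76) (nat_lit 292) (.leaf p048_l124)))))
(.leaf p048_l125))
(.leaf p048_l126))
(.trZ (nat_lit 0) (nat_lit 100) (nat_lit 98) (nat_lit 64) (nat_lit 40) (.trX (nat_lit 16) (nat_lit 100) (nat_lit 97) (nat_lit 76) (nat_lit 288) (.spl (nat_lit 5) (nat_lit 160)
(.spl (nat_lit 5) (nat_lit 80)
(.leaf p048_l127)
(.spl (nat_lit 0) (nat_lit 275)
(.leaf p048_l128)
(.trZ (nat_lit 0) (nat_lit 100) (nat_lit 97) (nat_lit 67) (nat_lit 44) (.trX (nat_lit 16) (nat_lit 100) (nat_lit 99) (nat_lit 77) (nat_lit 280) (.leaf p048_l129)))))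
(.spl (nat_lit 5) (nat_lit 240)
(.spl (nat_lit 5) (nat_lit 200)
(.leaf p048_l130)
(.leaf p048_l131))
(.leaf p048_l132))))))
(.spl (nat_lit 5) (nat_lit 160)
(.leaf p048_l133)
(.leaf p048_l134)))))) (by decide +kernel)

end B2
end Pool.Agent.Lib.MP_6947cd_al
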