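import Pool.Agent.Lib.MP_6947cd_al.ZB.Pre

/-!
Problem MP_6947cd_al (Chollet).  Case B, second entry in [2/5, 17/20]: certificates of the tree, part P049 (generated).
-/

set_option autoImplicit false
set_option linter.all false

namespace Pool.Agent.Lib.MP_6947cd_al
namespace B2

open Ent Fr B1 PkA

noncomputable def p049_k0 : C1.Kn := ⟨[nat_lit 40, nat_lit 70, nat_lit 90, nat_lit 100], [nat_lit 0, nat_lit 0, nat_lit 0, nat_lit 294], [(nat_lit 0, nat_lit 0, nat_lit 0), (nat_lit 0, nat_lit 0, nat_lit 0), (nat_lit 0, nat_lit 0, nat_lit 0), (nat_lit 1000, nat_lit 954, nat_lit 287)], (nat_lit 95, nat_lit 100, nat_lit 28)⟩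
noncomputable def p049_k1 : C1.Kn := ⟨[nat_lit 80, nat_lit 100], [nat_lit 0, nat_lit 265], [(nat_lit 0, nat_lit 0, nat_lit 0), (nat_lit 1000, nat_lit 959, nat_lit 206)], (nat_lit 95, nat_lit 100, nat_lit 28)⟩
noncomputable def p049_k2 : C1.Kn := ⟨[nat_lit 40, nat_lit 70, nat_lit 90, nat_lit 120], [nat_lit 0, nat_lit 0, nat_lit 0, nat_lit 774], [(nat_lit 0, nat_lit 0, nat_lit 0), (nat_lit 0, nat_lit 0, nat_lit 0), (nat_lit 0, nat_lit 0, nat_lit 0), (nat_lit 1000, nat_lit 959, nat_lit 402)], (nat_lit 96, nat_lit 100, nat_lit 44)⟩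
noncomputable def p049_k3 : C1.Kn := ⟨[nat_lit 80, nat_lit 100, nat_lit 120], [nat_lit 0, nat_lit 265, nat_lit 768], [(nat_lit 0, nat_lit 0, nat_lit 0), (nat_lit 1000, nat_lit 959, nat_lit 206), (nat_lit 1000, nat_lit 958, nat_lit 392)], (nat_lit 96, nat_lit 100, nat_lit 44)⟩
noncomputable def p049_k4 : C1.Kn := ⟨[nat_lit 40, nat_lit 80, nat_lit 100, nat_lit 120], [nat_lit 0, nat_lit 0, nat_lit 265, nat_lit 768], [(nat_lit 0, nat_lit 0, nat_lit 0), (nat_lit 0, nat_lit 0, nat_lit 0), (nat_lit 1000, nat_lit 959, nat_lit 206), (nat_lit 1000, nat_lit 958, nat_lit 392)], (nat_lit 96, nat_lit 100, nat_lit 44)⟩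
noncomputable def p049_k5 : C1.Kn := ⟨[nat_lit 80, nat_lit 120], [nat_lit 0, nat_lit 528], [(nat_lit 0, nat_lit 0, nat_lit 0), (nat_lit 1000, nat_lit 959, nat_lit 206)], (nat_lit 96, nat_lit 100, nat_lit 44)⟩
noncomputable def p049_k6 : C1.Kn := ⟨[nat_lit 80, nat_lit 100, nat_lit 120], [nat_lit 0, nat_lit 399, nat_lit 897], [(nat_lit 0, nat_lit 0, nat_lit 0), (nat_lit 1000, nat_lit 938, nat_lit 310), (nat_lit 1000, nat_lit 938, nat_lit 389)], (nat_lit 94, nat_lit 100, nat_lit 44)⟩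
noncomputable def p049_k7 : C1.Kn := ⟨[nat_lit 40, nat_lit 70, nat_lit 90, nat_lit 110], [nat_lit 0, nat_lit 0, nat_lit 139, nat_lit 651], [(nat_lit 0, nat_lit 0, nat_lit 0), (nat_lit 0, nat_lit 0, nat_lit 0), (nat_lit 1000, nat_lit 967, nat_lit 109), (nat_lit 1000, nat_lit 938, nat_lit 398)], (nat_lit 94, nat_lit 100, nat_lit 44)⟩
noncomputable def p049_k8 : C1.Kn := ⟨[nat_lit 80, nat_lit 100, nat_lit 140], [nat_lit 0, nat_lit 265, nat_lit 1269], [(nat_lit 0, nat_lit 0, nat_lit 0), (nat_lit 1000, nat_lit 959, nat_lit 206), (nat_lit 1000, nat_lit 958, nat_lit 392)], (nat_lit 100, nat_lit 99, nat_lit 63)⟩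
noncomputable def p049_k9 : C1.Kn := ⟨[nat_lit 80, nat_lit 100, nat_lit 120], [nat_lit 0, nat_lit 265, nat_lit 768], [(nat_lit 0, nat_lit 0, nat_lit 0), (nat_lit 1000, nat_lit 959, nat_lit 206), (nat_lit 1000, nat_lit 958, nat_lit 392)], (nat_lit 97, nat_lit 100, nat_lit 48)⟩
noncomputable def p049_k10 : C1.Kn := ⟨[nat_lit 80, nat_lit 100, nat_lit 140], [nat_lit 0, nat_lit 265, nat_lit 1269], [(nat_lit 0, nat_lit 0, nat_lit 0), (nat_lit 1000, nat_lit 959, nat_lit 206), (nat_lit 1000, nat_lit 958, nat_lit 392)], (nat_lit 99, nat_lit 100, nat_lit 56)⟩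
noncomputable def p049_k11 : C1.Kn := ⟨[nat_lit 80, nat_lit 100, nat_lit 140], [nat_lit 0, nat_lit 399, nat_lit 1395], [(nat_lit 0, nat_lit 0, nat_lit 0), (nat_lit 1000, nat_lit 938, nat_lit 310), (nat_lit 1000, nat_lit 938, nat_lit 389)], (nat_lit 98, nat_lit 100, nat_lit 63)⟩
noncomputable def p049_k12 : C1.Kn := ⟨[nat_lit 80, nat_lit 120, nat_lit 140], [nat_lit 0, nat_lit 528, nat_lit 1572], [(nat_lit 0, nat_lit 0, nat_lit 0), (nat_lit 1000, nat_lit 959, nat_lit 206), (nat_lit 966, nat_lit 1000, nat_lit 679)], (nat_lit 99, nat_lit 100, nat_lit 56)⟩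
noncomputable def p049_k13 : C1.Kn := ⟨[nat_lit 80, nat_lit 120, nat_lit 140], [nat_lit 0, nat_lit 664, nat_lit 1684], [(nat_lit 0, nat_lit 0, nat_lit 0), (nat_lit 1000, nat_lit 948, nat_lit 259), (nat_lit 975, nat_lit 1000, nat_lit 704)], (nat_lit 97, nat_lit 100, nat_lit 56)⟩
noncomputable def p049_k14 : C1.Kn := ⟨[nat_lit 80, nat_lit 120, nat_lit 140], [nat_lit 0, nat_lit 796, nat_lit 1801], [(nat_lit 0, nat_lit 0, nat_lit 0), (nat_lit 1000, nat_lit 938, nat_lit 310), (nat_lit 982, nat_lit 1000, nat_lit 736)], (nat_lit 98, nat_lit 100, nat_lit 63)⟩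
noncomputable def p049_k15 : C1.Kn := ⟨[nat_lit 80, nat_lit 100, nat_lit 160], [nat_lit 0, nat_lit 0, nat_lit 1533], [(nat_lit 0, nat_lit 0, nat_lit 0), (nat_lit 0, nat_lit 0, nat_lit 0), (nat_lit 1000, nat_lit 1000, nat_lit 399)], (nat_lit 100, nat_lit 92, nat_lit 61)⟩
noncomputable def p049_k16 : C1.Kn := ⟨[nat_lit 80, nat_lit 120], [nat_lit 0, nat_lit 929], [(nat_lit 0, nat_lit 0, nat_lit 0), (nat_lit 1000, nat_lit 927, nat_lit 362)], (nat_lit 93, nat_lit 100, nat_lit 48)⟩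
noncomputable def p049_k17 : C1.Kn := ⟨[nat_lit 80, nat_lit 140], [nat_lit 0, nat_lit 395], [(nat_lit 0, nat_lit 0, nat_lit 0), (nat_lit 1000, nat_lit 979, nat_lit 103)], (nat_lit 100, nat_lit 100, nat_lit 49)⟩
noncomputable def p049_k18 : C1.Kn := ⟨[nat_lit 70, nat_lit 90, nat_lit 140], [nat_lit 0, nat_lit 0, nat_lit 1289], [(nat_lit 0, nat_lit 0, nat_lit 0), (nat_lit 0, nat_lit 0, nat_lit 0), (nat_lit 1000, nat_lit 959, nat_lit 402)], (nat_lit 100, nat_lit 99, nat_lit 63)⟩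
noncomputable def p049_k19 : C1.Kn := ⟨[nat_lit 80, nat_lit 120, nat_lit 140], [nat_lit 0, nat_lit 528, nat_lit 1572], [(nat_lit 0, nat_lit 0, nat_lit 0), (nat_lit 1000, nat_lit 959, nat_lit 206), (nat_lit 966, nat_lit 1000, nat_lit 679)], (nat_lit 100, nat_lit 99, nat_lit 63)⟩
noncomputable def p049_k20 : C1.Kn := ⟨[nat_lit 50, nat_lit 70, nat_lit 90, nat_lit 130, nat_lit 140], [nat_lit 0, nat_lit 0, nat_lit 0, nat_lit 1031, nat_lit 1572], [(nat_lit 0, nat_lit 0, nat_lit 0), (nat_lit 0, nat_lit 0, nat_lit 0), (nat_lit 0, nat_lit 0, nat_lit 0), (nat_lit 1000, nat_lit 959, nat_lit 402), (nat_lit 966, nat_lit 1000, nat_lit 679)], (nat_lit 100, nat_lit 99, nat_lit 63)⟩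
noncomputable def p049_k21 : C1.Kn := ⟨[nat_lit 40, nat_lit 70, nat_lit 90, nat_lit 120], [nat_lit 0, nat_lit 0, nat_lit 69, nat_lit 840], [(nat_lit 0, nat_lit 0, nat_lit 0), (nat_lit 0, nat_lit 0, nat_lit 0), (nat_lit 1000, nat_lit 984, nat_lit 54), (nat_lit 1000, nat_lit 949, nat_lit 400)], (nat_lit 96, nat_lit 100, nat_lit 48)⟩
noncomputable def p049_k22 : C1.Kn := ⟨[nat_lit 80, nat_lit 100, nat_lit 120], [nat_lit 0, nat_lit 332, nat_lit 833], [(nat_lit 0, nat_lit 0, nat_lit 0), (nat_lit 1000, nat_lit 948, nat_lit 259), (nat_lit 1000, nat_lit 948, nat_lit 391)], (nat_lit 96, nat_lit 100, nat_lit 48)⟩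
noncomputable def p049_k23 : C1.Kn := ⟨[nat_lit 70, nat_lit 90, nat_lit 130], [nat_lit 0, nat_lit 139, nat_lit 1161], [(nat_lit 0, nat_lit 0, nat_lit 0), (nat_lit 1000, nat_lit 967, nat_lit 109), (nat_lit 1000, nat_lit 938, nat_lit 398)], (nat_lit 98, nat_lit 100, nat_lit 63)⟩
noncomputable def p049_k24 : C1.Kn := ⟨[nat_lit 80, nat_lit 120, nat_lit 140], [nat_lit 0, nat_lit 929, nat_lit 1922], [(nat_lit 0, nat_lit 0, nat_lit 0), (nat_lit 1000, nat_lit 927, nat_lit 362), (nat_lit 993, nat_lit 1000, nat_lit 764)], (nat_lit 96, nat_lit 100, nat_lit 62)⟩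
noncomputable def p049_k25 : C1.Kn := ⟨[nat_lit 80, nat_lit 120, nat_lit 140], [nat_lit 0, nat_lit 664, nat_lit 1684], [(nat_lit 0, nat_lit 0, nat_lit 0), (nat_lit 1000, nat_lit 948, nat_lit 259), (nat_lit 975, nat_lit 1000, nat_lit 704)], (nat_lit 99, nat_lit 100, nat_lit 63)⟩
noncomputable def p049_k26 : C1.Kn := ⟨[nat_lit 80, nat_lit 100, nat_lit 120, nat_lit 140], [nat_lit 0, nat_lit 399, nat_lit 897, nat_lit 1791], [(nat_lit 0, nat_lit 0, nat_lit 0), (nat_lit 1000, nat_lit 938, nat_lit 310), (nat_lit 1000, nat_lit 938, nat_lit 389), (nat_lit 1000, nat_lit 999, nat_lit 698)], (nat_lit 98, nat_lit 100, nat_lit 63)⟩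
noncomputable def p049_k27 : C1.Kn := ⟨[nat_lit 80, nat_lit 100, nat_lit 120, nat_lit 140], [nat_lit 0, nat_lit 466, nat_lit 966, nat_lit 1918], [(nat_lit 0, nat_lit 0, nat_lit 0), (nat_lit 1000, nat_lit 927, nat_lit 359), (nat_lit 1000, nat_lit 927, nat_lit 391), (nat_lit 1000, nat_lit 997, nat_lit 741)], (nat_lit 96, nat_lit 100, nat_lit 62)⟩
noncomputable def p049_k28 : C1.Kn := ⟨[nat_lit 80, nat_lit 120, nat_lit 140], [nat_lit 0, nat_lit 745, nat_lit 1754], [(nat_lit 0, nat_lit 0, nat_lit 0), (nat_lit 1000, nat_lit 942, nat_lit 291), (nat_lit 977, nat_lit 1000, nat_lit 726)], (nat_lit 98, nat_lit 100, nat_lit 63)⟩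
noncomputable def p049_k29 : C1.Kn := ⟨[nat_lit 70, nat_lit 90, nat_lit 130], [nat_lit 0, nat_lit 139, nat_lit 1161], [(nat_lit 0, nat_lit 0, nat_lit 0), (nat_lit 1000, nat_lit 967, nat_lit 109), (nat_lit 1000, nat_lit 938, nat_lit 398)], (nat_lit 96, nat_lit 100, nat_lit 56)⟩
noncomputable def p049_k30 : C1.Kn := ⟨[nat_lit 40, nat_lit 80, nat_lit 100, nat_lit 120], [nat_lit 0, nat_lit 0, nat_lit 466, nat_lit 966], [(nat_lit 0, nat_lit 0, nat_lit 0), (nat_lit 0, nat_lit 0, nat_lit 0), (nat_lit 1000, nat_lit 927, nat_lit 359), (nat_lit 1000, nat_lit 927, nat_lit 391)], (nat_lit 94, nat_lit 100, nat_lit 55)⟩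
noncomputable def p049_k31 : C1.Kn := ⟨[nat_lit 80, nat_lit 120, nat_lit 140], [nat_lit 0, nat_lit 796, nat_lit 1801], [(nat_lit 0, nat_lit 0, nat_lit 0), (nat_lit 1000, nat_lit 938, nat_lit 310), (nat_lit 982, nat_lit 1000, nat_lit 736)], (nat_lit 96, nat_lit 100, nat_lit 56)⟩
noncomputable def p049_k32 : C1.Kn := ⟨[nat_lit 80, nat_lit 100, nat_lit 120, nat_lit 140], [nat_lit 0, nat_lit 399, nat_lit 897, nat_lit 1791], [(nat_lit 0, nat_lit 0, nat_lit 0), (nat_lit 1000, nat_lit 938, nat_lit 310), (nat_lit 1000, nat_lit 938, nat_lit 389), (nat_lit 1000, nat_lit 999, nat_lit 698)], (nat_lit 96, nat_lit 100, nat_lit 56)⟩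
noncomputable def p049_k33 : C1.Kn := ⟨[nat_lit 80, nat_lit 100, nat_lit 120], [nat_lit 0, nat_lit 466, nat_lit 966], [(nat_lit 0, nat_lit 0, nat_lit 0), (nat_lit 1000, nat_lit 927, nat_lit 359), (nat_lit 1000, nat_lit 927, nat_lit 391)], (nat_lit 94, nat_lit 100, nat_lit 55)⟩
noncomputable def p049_k34 : C1.Kn := ⟨[nat_lit 80, nat_lit 140], [nat_lit 0, nat_lit 1192], [(nat_lit 0, nat_lit 0, nat_lit 0), (nat_lit 1000, nat_lit 938, nat_lit 310)], (nat_lit 98, nat_lit 100, nat_lit 63)⟩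
noncomputable def p049_k35 : C1.Kn := ⟨[nat_lit 80, nat_lit 140], [nat_lit 0, nat_lit 792], [(nat_lit 0, nat_lit 0, nat_lit 0), (nat_lit 1000, nat_lit 959, nat_lit 206)], (nat_lit 100, nat_lit 99, nat_lit 63)⟩
noncomputable def p049_k36 : C1.Kn := ⟨[nat_lit 70, nat_lit 90, nat_lit 130], [nat_lit 0, nat_lit 208, nat_lit 1232], [(nat_lit 0, nat_lit 0, nat_lit 0), (nat_lit 1000, nat_lit 951, nat_lit 162), (nat_lit 1000, nat_lit 927, nat_lit 400)], (nat_lit 96, nat_lit 100, nat_lit 62)⟩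
noncomputable def p049_k37 : C1.Kn := ⟨[nat_lit 80, nat_lit 100, nat_lit 140], [nat_lit 0, nat_lit 0, nat_lit 1022], [(nat_lit 0, nat_lit 0, nat_lit 0), (nat_lit 0, nat_lit 0, nat_lit 0), (nat_lit 1000, nat_lit 1000, nat_lit 399)], (nat_lit 100, nat_lit 99, nat_lit 44)⟩
noncomputable def p049_k38 : C1.Kn := ⟨[nat_lit 80, nat_lit 100, nat_lit 120], [nat_lit 0, nat_lit 0, nat_lit 511], [(nat_lit 0, nat_lit 0, nat_lit 0), (nat_lit 0, nat_lit 0, nat_lit 0), (nat_lit 1000, nat_lit 997, nat_lit 383)], (nat_lit 99, nat_lit 100, nat_lit 34)⟩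
noncomputable def p049_k39 : C1.Kn := ⟨[nat_lit 80, nat_lit 100, nat_lit 120], [nat_lit 0, nat_lit 65, nat_lit 576], [(nat_lit 0, nat_lit 0, nat_lit 0), (nat_lit 1000, nat_lit 990, nat_lit 51), (nat_lit 1000, nat_lit 990, nat_lit 399)], (nat_lit 98, nat_lit 100, nat_lit 34)⟩
noncomputable def p049_k40 : C1.Kn := ⟨[nat_lit 80, nat_lit 100, nat_lit 140], [nat_lit 0, nat_lit 132, nat_lit 1148], [(nat_lit 0, nat_lit 0, nat_lit 0), (nat_lit 1000, nat_lit 979, nat_lit 103), (nat_lit 1000, nat_lit 979, nat_lit 397)], (nat_lit 100, nat_lit 100, nat_lit 49)⟩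
noncomputable def p049_k41 : C1.Kn := ⟨[nat_lit 80, nat_lit 100, nat_lit 140], [nat_lit 0, nat_lit 198, nat_lit 1210], [(nat_lit 0, nat_lit 0, nat_lit 0), (nat_lit 1000, nat_lit 969, nat_lit 154), (nat_lit 1000, nat_lit 969, nat_lit 395)], (nat_lit 98, nat_lit 100, nat_lit 49)⟩
noncomputable def p049_k42 : C1.Kn := ⟨[nat_lit 80, nat_lit 100, nat_lit 140], [nat_lit 0, nat_lit 0, nat_lit 1022], [(nat_lit 0, nat_lit 0, nat_lit 0), (nat_lit 0, nat_lit 0, nat_lit 0), (nat_lit 1000, nat_lit 1000, nat_lit 399)], (nat_lit 100, nat_lit 98, nat_lit 48)⟩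
noncomputable def p049_k43 : C1.Kn := ⟨[nat_lit 80, nat_lit 100, nat_lit 140], [nat_lit 0, nat_lit 466, nat_lit 1467], [(nat_lit 0, nat_lit 0, nat_lit 0), (nat_lit 1000, nat_lit 927, nat_lit 359), (nat_lit 1000, nat_lit 927, nat_lit 391)], (nat_lit 96, nat_lit 100, nat_lit 62)⟩
noncomputable def p049_k44 : C1.Kn := ⟨[nat_lit 80, nat_lit 100, nat_lit 120], [nat_lit 0, nat_lit 439, nat_lit 939], [(nat_lit 0, nat_lit 0, nat_lit 0), (nat_lit 1000, nat_lit 931, nat_lit 340), (nat_lit 1000, nat_lit 931, nat_lit 391)], (nat_lit 93, nat_lit 100, nat_lit 44)⟩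
noncomputable def p049_k45 : C1.Kn := ⟨[nat_lit 80, nat_lit 100, nat_lit 120], [nat_lit 0, nat_lit 466, nat_lit 966], [(nat_lit 0, nat_lit 0, nat_lit 0), (nat_lit 1000, nat_lit 927, nat_lit 359), (nat_lit 1000, nat_lit 927, nat_lit 391)], (nat_lit 93, nat_lit 100, nat_lit 44)⟩
noncomputable def p049_k46 : C1.Kn := ⟨[nat_lit 80, nat_lit 100, nat_lit 120], [nat_lit 0, nat_lit 506, nat_lit 1024], [(nat_lit 0, nat_lit 0, nat_lit 0), (nat_lit 1000, nat_lit 921, nat_lit 376), (nat_lit 1000, nat_lit 921, nat_lit 405)], (nat_lit 92, nat_lit 100, nat_lit 44)⟩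
noncomputable def p049_k47 : C1.Kn := ⟨[nat_lit 80, nat_lit 100], [nat_lit 0, nat_lit 466], [(nat_lit 0, nat_lit 0, nat_lit 0), (nat_lit 1000, nat_lit 927, nat_lit 359)], (nat_lit 93, nat_lit 100, nat_lit 28)⟩
noncomputable def p049_k48 : C1.Kn := ⟨[nat_lit 80, nat_lit 100], [nat_lit 0, nat_lit 506], [(nat_lit 0, nat_lit 0, nat_lit 0), (nat_lit 1000, nat_lit 921, nat_lit 376)], (nat_lit 93, nat_lit 100, nat_lit 28)⟩
noncomputable def p049_k49 : C1.Kn := ⟨[nat_lit 80, nat_lit 100], [nat_lit 0, nat_lit 520], [(nat_lit 0, nat_lit 0, nat_lit 0), (nat_lit 1000, nat_lit 919, nat_lit 385)], (nat_lit 93, nat_lit 100, nat_lit 28)⟩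
noncomputable def p049_k50 : C1.Kn := ⟨[nat_lit 80, nat_lit 120, nat_lit 140], [nat_lit 0, nat_lit 0, nat_lit 1164], [(nat_lit 0, nat_lit 0, nat_lit 0), (nat_lit 0, nat_lit 0, nat_lit 0), (nat_lit 941, nat_lit 1000, nat_lit 576)], (nat_lit 100, nat_lit 98, nat_lit 48)⟩
noncomputable def p049_l0 : Lf2 := ⟨nat_lit 0, nat_lit 2, [nat_lit 10, nat_lit 5, nat_lit 5, nat_lit 20], false, nat_lit 240, nat_lit 260, nat_lit 0, nat_lit 320, ⟨nat_lit 0, nat_lit 0, nat_lit 1000, nat_lit 6, nat_lit 134, nat_lit 1000, nat_lit 183, nat_lit 1000, nat_lit 51111, nat_lit 270, nat_lit 170017, nat_lit 316, nat_lit 48584793, nat_lit 0, nat_lit 0, nat_lit 4123572, false, false⟩,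
 nat_lit 4663, nat_lit 0, nat_lit 0, nat_lit 0, nat_lit 2714, nat_lit 0, nat_lit 0, nat_lit 0, nat_lit 0, nat_lit 0, nat_lit 0, nat_lit 0, nat_lit 0, nat_lit 563048774916, nat_lit 37, nat_lit 1000000, nat_lit 0, nat_lit 0, [(nat_lit 9, [(nat_lit 6, nat_lit 1000)])],
 ⟨p049_k0, nat_lit 0, nat_lit 0, nat_lit 0, nat_lit 0, nat_lit 256703, [nat_lit 976600001, nat_lit 1450400000, nat_lit 611200001, nat_lit 0], [], [nat_lit 15442722674, nat_lit 16439029846, nat_lit 16026352946, nat_lit 16943100897, nat_lit 16393217540, nat_lit 17392149695, nat_lit 16904055760, nat_lit 17832891057], nat_lit 1271250, nat_lit 1271250, nat_lit 205650, nat_lit 780000, nat_lit 1271250, nat_lit 1271250, [nat_lit 490000, nat_lit 936250, nat_lit 1271250, nat_lit 1271250], [nat_lit 179, nat_lit 40, nat_lit 20, nat_lit 40]⟩, ⟨p049_k1, nat_lit 0, nat_lit 0, nat_lit 261, nat_lit 0, nat_lit 256703, [nat_lit 0, nat_lit 0], [], [nat_lit 0, nat_lit 0, nat_lit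 0, nat_lit 0, nat_lit 0, nat_lit 0, nat_lit 0, nat_lit 0], nat_lit 1271250, nat_lit 1271250, nat_lit 205650, nat_lit 780000, nat_lit 0, nat_lit 2260000, [nat_lit 1100000, nat_lit 1442500], [nat_lit 31, nat_lit 40, nat_lit 40, nat_lit 80, nat_lit 3, nat_lit 345, nat_lit 125, nat_lit 14]⟩,
 ⟨nat_lit 5477, nat_lit 5917, ⟨.ofNat (nat_lit 242029), .ofNat (nat_lit 406949), .ofNat (nat_lit 252698), .ofNat (nat_lit 417619), .ofNat (nat_lit 256844), .ofNat (nat_lit 414204), .ofNat (nat_lit 267523), .ofNat (nat_lit 424882)⟩, ⟨.ofNat (nat_lit 429157), .ofNat (nat_lit 468424), .ofNat (nat_lit 450496), .ofNat (nat_lit 489763), .ofNat (nat_lit 425432), .ofNat (nat_lit 462899), .ofNat (nat_lit 446789), .ofNat (nat_lit 484256)⟩⟩, [⟨nat_lit 0, nat_lit 100, nat_lit 99, nat_lit 67, nat_lit 85805815⟩]⟩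
noncomputable def p049_l1 : Lf2 := ⟨nat_lit 0, nat_lit 5, [nat_lit 4, nat_lit 5, nat_lit 5, nat_lit 20], false, nat_lit 240, nat_lit 260, nat_lit 0, nat_lit 320, ⟨nat_lit 0, nat_lit 0, nat_lit 1000, nat_lit 6, nat_lit 134, nat_lit 1000, nat_lit 183, nat_lit 1000, nat_lit 51111, nat_lit 270, nat_lit 170017, nat_lit 316, nat_lit 48584793, nat_lit 0, nat_lit 0, nat_lit 4123572, false, false⟩,
 nat_lit 5337, nat_lit 0, nat_lit 0, nat_lit 0, nat_lit 3106, nat_lit 0, nat_lit 0, nat_lit 0, nat_lit 0, nat_lit 0, nat_lit 0, nat_lit 0, nat_lit 0, nat_lit 0, nat_lit 78, nat_lit 629800, nat_lit 0, nat_lit 0, [(nat_lit 9, [(nat_lit 5, nat_lit 617), (nat_lit 6, nat_lit 383)])],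
 ⟨p049_k2, nat_lit 0, nat_lit 0, nat_lit 0, nat_lit 0, nat_lit 175264, [nat_lit 1414055801, nat_lit 1934318001, nat_lit 1722615800, nat_lit 105899900], [], [nat_lit 15687633096, nat_lit 16665601062, nat_lit 15808761764, nat_lit 16751300848, nat_lit 16621957104, nat_lit 17556657875, nat_lit 16706186382, nat_lit 17674461436], nat_lit 1271250, nat_lit 1271250, nat_lit 205650, nat_lit 780000, nat_lit 1271250, nat_lit 1271250, [nat_lit 490000, nat_lit 936250, nat_lit 1271250, nat_lit 1271250], [nat_lit 138, nat_lit 40, nat_lit 20, nat_lit 40]⟩, ⟨p049_k3, nat_lit 0, nat_lit 0, nat_lit 256, nat_lit 0, nat_lit 175264, [nat_lit 0, nat_lit 0, nat_lit 0], [], [nat_lit 0, nat_lit 0, nat_lit 0, nat_lit 0, nat_lit 0, nat_lit 0, nat_lit 0, nat_lit 0], nat_lit 1271250, nat_lit 1271250, nat_lit 205650, nat_lit 780000, nat_lit 0, nat_lit 2260000, [nat_lit 1100000, nat_lit 1442500, nat_lit 1271250], [nat_lit 9, nat_lit 40, nat_lit 40,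 nat_lit 80, nat_lit 2, nat_lit 345, nat_lit 125, nat_lit 12]⟩,
 ⟨nat_lit 5477, nat_lit 5917, ⟨.ofNat (nat_lit 242029), .ofNat (nat_lit 406949), .ofNat (nat_lit 252698), .ofNat (nat_lit 417619), .ofNat (nat_lit 256844), .ofNat (nat_lit 414204), .ofNat (nat_lit 267523), .ofNat (nat_lit 424882)⟩, ⟨.ofNat (nat_lit 429157), .ofNat (nat_lit 468424), .ofNat (nat_lit 450496), .ofNat (nat_lit 489763), .ofNat (nat_lit 425432), .ofNat (nat_lit 462899), .ofNat (nat_lit 446789), .ofNat (nat_lit 484256)⟩⟩, [⟨nat_lit 0, nat_lit 100, nat_lit 98, nat_lit 74, nat_lit 106280719⟩]⟩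
noncomputable def p049_l2 : Lf2 := ⟨nat_lit 0, nat_lit 5, [nat_lit 4, nat_lit 5, nat_lit 5, nat_lit 20], false, nat_lit 260, nat_lit 280, nat_lit 0, nat_lit 160, ⟨nat_lit 1000, nat_lit 0, nat_lit 0, nat_lit 0, nat_lit 0, nat_lit 0, nat_lit 0, nat_lit 0, nat_lit 0, nat_lit 0, nat_lit 0, nat_lit 0, nat_lit 0, nat_lit 0, nat_lit 0, nat_lit 0, false, false⟩,
 nat_lit 19368, nat_lit 0, nat_lit 0, nat_lit 0, nat_lit 7809, nat_lit 11273, nat_lit 2029, nat_lit 0, nat_lit 0, nat_lit 2169, nat_lit 0, nat_lit 0, nat_lit 0, nat_lit 0, nat_lit 0, nat_lit 0, nat_lit 0, nat_lit 0, [],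
 ⟨p049_k2, nat_lit 0, nat_lit 0, nat_lit 0, nat_lit 0, nat_lit 266778, [nat_lit 2032000001, nat_lit 3965500000, nat_lit 5449500000, nat_lit 7968000000], [], [nat_lit 19066565935, nat_lit 20478093947, nat_lit 17243561321, nat_lit 18597981354, nat_lit 20478093947, nat_lit 21800855534, nat_lit 18597981354, nat_lit 19868356120], nat_lit 1271250, nat_lit 1271250, nat_lit 205650, nat_lit 490000, nat_lit 1271250, nat_lit 1271250, [nat_lit 490000, nat_lit 936250, nat_lit 1271250, nat_lit 1271250], [nat_lit 138, nat_lit 40, nat_lit 20, nat_lit 40]⟩, ⟨p049_k3, nat_lit 0, nat_lit 0, nat_lit 293, nat_lit 0, nat_lit 266778, [nat_lit 4688000000, nat_lit 6250000000, nat_lit 7968000000], [], [nat_lit 22727409948, nat_lit 24119751627, nat_lit 16799005118, nat_lit 18738486755, nat_lit 19728053410, nat_lit 17031805453, nat_lit 21905967092, nat_lit 19250014473], nat_lit 1271250, nat_lit 1271250, nat_lit 205650, nat_lit 490000, nat_lit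 0, nat_lit 1100001, [nat_lit 1100000, nat_lit 1442500, nat_lit 1271250], [nat_lit 9, nat_lit 40, nat_lit 40, nat_lit 80, nat_lit 2, nat_lit 272, nat_lit 60, nat_lit 9]⟩,
 zbF0, [⟨nat_lit 0, nat_lit 100, nat_lit 99, nat_lit 67, nat_lit 647803538⟩, ⟨nat_lit 4, nat_lit 93, nat_lit 100, nat_lit 81, nat_lit 277380008⟩]⟩
noncomputable def p049_l3 : Lf2 := ⟨nat_lit 0, nat_lit 5, [nat_lit 4, nat_lit 5, nat_lit 5, nat_lit 20], false, nat_lit 260, nat_lit 280, nat_lit 160, nat_lit 240, ⟨nat_lit 1000, nat_lit 0, nat_lit 0, nat_lit 0, nat_lit 0, nat_lit 0, nat_lit 0, nat_lit 0, nat_lit 0, nat_lit 0, nat_lit 0, nat_lit 0, nat_lit 0, nat_lit 0, nat_lit 0, nat_lit 0, false, false⟩,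
 nat_lit 18174, nat_lit 0, nat_lit 0, nat_lit 0, nat_lit 7741, nat_lit 10578, nat_lit 2111, nat_lit 0, nat_lit 0, nat_lit 1648, nat_lit 0, nat_lit 0, nat_lit 0, nat_lit 0, nat_lit 0, nat_lit 0, nat_lit 0, nat_lit 0, [],
 ⟨p049_k2, nat_lit 0, nat_lit 0, nat_lit 0, nat_lit 0, nat_lit 266778, [nat_lit 2032000001, nat_lit 3965500000, nat_lit 5449500000, nat_lit 7968000000], [], [nat_lit 18902667226, nat_lit 20307295414, nat_lit 17102458129, nat_lit 18450354446, nat_lit 20307295414, nat_lit 21749296986, nat_lit 18450354446, nat_lit 19919853880], nat_lit 1271250, nat_lit 1271250, nat_lit 205650, nat_lit 490000, nat_lit 1271250, nat_lit 1271250, [nat_lit 490000, nat_lit 936250, nat_lit 1271250, nat_lit 1271250], [nat_lit 138, nat_lit 40, nat_lit 20, nat_lit 40]⟩, ⟨p049_k3, nat_lit 0, nat_lit 0, nat_lit 182, nat_lit 0, nat_lit 266778, [nat_lit 4688000000, nat_lit 6250000000, nat_lit 7968000000], [], [nat_lit 19155345221, nat_lit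 16437698351, nat_lit 10263476484, nat_lit 11070623464, nat_lit 17028119892, nat_lit 18073893804, nat_lit 14393459060, nat_lit 15110401054], nat_lit 1271250, nat_lit 1271250, nat_lit 205650, nat_lit 490000, nat_lit 1100001, nat_lit 1785000, [nat_lit 1100000, nat_lit 1442500, nat_lit 1271250], [nat_lit 9, nat_lit 40, nat_lit 40, nat_lit 80, nat_lit 2, nat_lit 317, nat_lit 100, nat_lit 10]⟩,
 zbF0, [⟨nat_lit 0, nat_lit 100, nat_lit 99, nat_lit 67, nat_lit 1215088266⟩]⟩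
noncomputable def p049_l4 : Lf2 := ⟨nat_lit 0, nat_lit 5, [nat_lit 4, nat_lit 5, nat_lit 5, nat_lit 20], false, nat_lit 260, nat_lit 280, nat_lit 240, nat_lit 320, ⟨nat_lit 759, nat_lit 0, nat_lit 241, nat_lit 6, nat_lit 119, nat_lit 241, nat_lit 198, nat_lit 241, nat_lit 14293, nat_lit 243, nat_lit 132017, nat_lit 304, nat_lit 48272718, nat_lit 0, nat_lit 0, nat_lit 4083959, false, false⟩,
 nat_lit 11594, nat_lit 0, nat_lit 0, nat_lit 0, nat_lit 6748, nat_lit 6748, nat_lit 1622, nat_lit 0, nat_lit 0, nat_lit 803, nat_lit 0, nat_lit 0, nat_lit 0, nat_lit 0, nat_lit 0, nat_lit 55180, nat_lit 0, nat_lit 0, [(nat_lit 9, [(nat_lit 3, nat_lit 78), (nat_lit 4, nat_lit 163)])],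
 ⟨p049_k2, nat_lit 0, nat_lit 0, nat_lit 0, nat_lit 0, nat_lit 266778, [nat_lit 3604728001, nat_lit 3189378900, nat_lit 4222417501, nat_lit 5836444800], [], [nat_lit 18456788406, nat_lit 19760658870, nat_lit 17023977801, nat_lit 18242091788, nat_lit 19760658870, nat_lit 20992702020, nat_lit 18242091788, nat_lit 19444790141], nat_lit 1271250, nat_lit 1271250, nat_lit 205650, nat_lit 490000, nat_lit 1271250, nat_lit 1271250, [nat_lit 490000, nat_lit 936250, nat_lit 1271250, nat_lit 1271250], [nat_lit 138, nat_lit 40, nat_lit 20, nat_lit 40]⟩, ⟨p049_k3, nat_lit 0, nat_lit 0, nat_lit 205, nat_lit 0, nat_lit 266778, [nat_lit 3558192000, nat_lit 4743750000, nat_lit 6047712000], [], [nat_lit 14766162215, nat_lit 15380707270, nat_lit 13087804532, nat_lit 13677085470, nat_lit 19768899267, nat_lit 20229638156, nat_lit 17884952560, nat_lit 18328291666], nat_lit 1271250, nat_lit 1271250, nat_lit 205650, nat_lit 490000, nat_lit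 1271250, nat_lit 1271250, [nat_lit 1100000, nat_lit 1442500, nat_lit 1271250], [nat_lit 9, nat_lit 40, nat_lit 40, nat_lit 80, nat_lit 2, nat_lit 226, nat_lit 20, nat_lit 7]⟩,
 ⟨nat_lit 5477, nat_lit 5917, ⟨.ofNat (nat_lit 242029), .ofNat (nat_lit 328416), .ofNat (nat_lit 252698), .ofNat (nat_lit 339085), .ofNat (nat_lit 256844), .ofNat (nat_lit 339271), .ofNat (nat_lit 267523), .ofNat (nat_lit 349949)⟩, ⟨.ofNat (nat_lit 468424), .ofNat (nat_lit 507691), .ofNat (nat_lit 489763), .ofNat (nat_lit 529030), .ofNat (nat_lit 462899), .ofNat (nat_lit 500365), .ofNat (nat_lit 484256), .ofNat (nat_lit 521722)⟩⟩, [⟨nat_lit 0, nat_lit 100, nat_lit 98, nat_lit 74, nat_lit 254153783⟩, ⟨nat_lit 11, nat_lit 98, nat_lit 100, nat_lit 74, nat_lit 659575065⟩]⟩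
noncomputable def p049_l5 : Lf2 := ⟨nat_lit 0, nat_lit 5, [nat_lit 4, nat_lit 5, nat_lit 5, nat_lit 20], false, nat_lit 260, nat_lit 280, nat_lit 0, nat_lit 160, ⟨nat_lit 882, nat_lit 0, nat_lit 118, nat_lit 6, nat_lit 151, nat_lit 118, nat_lit 198, nat_lit 118, nat_lit 14293, nat_lit 243, nat_lit 212817, nat_lit 328, nat_lit 46080943, nat_lit 0, nat_lit 0, nat_lit 4454397, false, false⟩,
 nat_lit 20640, nat_lit 0, nat_lit 0, nat_lit 0, nat_lit 12014, nat_lit 5258, nat_lit 0, nat_lit 0, nat_lit 0, nat_lit 4588, nat_lit 0, nat_lit 0, nat_lit 0, nat_lit 0, nat_lit 0, nat_lit 21830, nat_lit 0, nat_lit 0, [(nat_lit 9, [(nat_lit 3, nat_lit 118)])],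
 ⟨p049_k4, nat_lit 0, nat_lit 0, nat_lit 0, nat_lit 0, nat_lit 266778, [nat_lit 4530012800, nat_lit 4199857600, nat_lit 5510800800, nat_lit 6937199200], [], [nat_lit 17742694438, nat_lit 19498475288, nat_lit 16486393987, nat_lit 18136409004, nat_lit 19662088328, nat_lit 21295699184, nat_lit 18292985358, nat_lit 19825145448], nat_lit 1271250, nat_lit 1271250, nat_lit 490000, nat_lit 780000, nat_lit 1271250, nat_lit 1271250, [nat_lit 490000, nat_lit 1100000, nat_lit 1442500, nat_lit 1271250], [nat_lit 98, nat_lit 40, nat_lit 40, nat_lit 80]⟩, ⟨p049_k5, nat_lit 0, nat_lit 0, nat_lit 256, nat_lit 0, nat_lit 266778, [nat_lit 4134816000, nat_lit 7027776000], [], [nat_lit 26464648900, nat_lit 25074596698, nat_lit 20946293772, nat_lit 19577168410, nat_lit 22186011644, nat_lit 20947211070, nat_lit 24386355780, nat_lit 23164128422], nat_lit 1271250, nat_lit 1271250, nat_lit 490000, nat_lit 780000, nat_lit 0, nat_lit 1100001,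 [nat_lit 1100000, nat_lit 1785000], [nat_lit 39, nat_lit 40, nat_lit 40, nat_lit 80, nat_lit 7, nat_lit 289, nat_lit 75, nat_lit 10]⟩,
 ⟨nat_lit 5477, nat_lit 5917, ⟨.ofNat (nat_lit 328416), .ofNat (nat_lit 406949), .ofNat (nat_lit 339085), .ofNat (nat_lit 417619), .ofNat (nat_lit 339271), .ofNat (nat_lit 414204), .ofNat (nat_lit 349949), .ofNat (nat_lit 424882)⟩, ⟨.ofNat (nat_lit 468424), .ofNat (nat_lit 507691), .ofNat (nat_lit 489763), .ofNat (nat_lit 529030), .ofNat (nat_lit 462899), .ofNat (nat_lit 500365), .ofNat (nat_lit 484256), .ofNat (nat_lit 521722)⟩⟩, [⟨nat_lit 4, nat_lit 93, nat_lit 100, nat_lit 81, nat_lit 565573636⟩]⟩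
noncomputable def p049_l6 : Lf2 := ⟨nat_lit 0, nat_lit 5, [nat_lit 4, nat_lit 5, nat_lit 5, nat_lit 20], false, nat_lit 260, nat_lit 280, nat_lit 160, nat_lit 320, ⟨nat_lit 196, nat_lit 0, nat_lit 804, nat_lit 6, nat_lit 151, nat_lit 804, nat_lit 198, nat_lit 804, nat_lit 14293, nat_lit 243, nat_lit 212817, nat_lit 328, nat_lit 46080943, nat_lit 0, nat_lit 0, nat_lit 4454397, false, false⟩,
 nat_lit 7289, nat_lit 0, nat_lit 0, nat_lit 0, nat_lit 4242, nat_lit 2429, nat_lit 188, nat_lit 0, nat_lit 0, nat_lit 589, nat_lit 0, nat_lit 0, nat_lit 0, nat_lit 0, nat_lit 29, nat_lit 804000, nat_lit 0, nat_lit 0, [(nat_lit 9, [(nat_lit 6, nat_lit 804)])],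
 ⟨p049_k4, nat_lit 0, nat_lit 0, nat_lit 0, nat_lit 0, nat_lit 266778, [nat_lit 1248065601, nat_lit 1957547200, nat_lit 1210040000, nat_lit 174477600], [], [nat_lit 16275628714, nat_lit 17287046264, nat_lit 16373572061, nat_lit 17337976212, nat_lit 17350711384, nat_lit 18316846040, nat_lit 17398871474, nat_lit 18384818752], nat_lit 1271250, nat_lit 1271250, nat_lit 490000, nat_lit 780000, nat_lit 1271250, nat_lit 1271250, [nat_lit 490000, nat_lit 1100000, nat_lit 1442500, nat_lit 1271250], [nat_lit 98, nat_lit 40, nat_lit 40, nat_lit 80]⟩, ⟨p049_k5, nat_lit 0, nat_lit 0, nat_lit 166, nat_lit 0, nat_lit 266778, [nat_lit 918848000, nat_lit 1561728000], [], [nat_lit 1364854860, nat_lit 1598037684, nat_lit 1309905182, nat_lit 1407456615, nat_lit 5638537602, nat_lit 5066257915, nat_lit 6409731270, nat_lit 5845107791], nat_lit 1271250, nat_lit 1271250, nat_lit 490000, nat_lit 780000, nat_lit 1100001, nat_lit 2470000, [nat_lit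 1100000, nat_lit 1785000], [nat_lit 39, nat_lit 40, nat_lit 40, nat_lit 80, nat_lit 7, nat_lit 345, nat_lit 125, nat_lit 11]⟩,
 ⟨nat_lit 5477, nat_lit 5917, ⟨.ofNat (nat_lit 328416), .ofNat (nat_lit 406949), .ofNat (nat_lit 339085), .ofNat (nat_lit 417619), .ofNat (nat_lit 339271), .ofNat (nat_lit 414204), .ofNat (nat_lit 349949), .ofNat (nat_lit 424882)⟩, ⟨.ofNat (nat_lit 468424), .ofNat (nat_lit 507691), .ofNat (nat_lit 489763), .ofNat (nat_lit 529030), .ofNat (nat_lit 462899), .ofNat (nat_lit 500365), .ofNat (nat_lit 484256), .ofNat (nat_lit 521722)⟩⟩, [⟨nat_lit 7, nat_lit 91, nat_lit 100, nat_lit 80, nat_lit 190243914⟩]⟩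
noncomputable def p049_l7 : Lf2 := ⟨nat_lit 0, nat_lit 5, [nat_lit 4, nat_lit 5, nat_lit 5, nat_lit 20], true, nat_lit 280, nat_lit 320, nat_lit 0, nat_lit 320, ⟨nat_lit 0, nat_lit 1000, nat_lit 0, nat_lit 6, nat_lit 134, nat_lit 1000, nat_lit 221, nat_lit 0, nat_lit 0, nat_lit 0, nat_lit 0, nat_lit 0, nat_lit 45227502, nat_lit 6811393, nat_lit 14961105, nat_lit 4453381, false, false⟩,
 nat_lit 0, nat_lit 0, nat_lit 0, nat_lit 1684, nat_lit 0, nat_lit 0, nat_lit 0, nat_lit 0, nat_lit 359, nat_lit 0, nat_lit 0, nat_lit 0, nat_lit 0, nat_lit 8654896320075, nat_lit 0, nat_lit 250000, nat_lit 0, nat_lit 0, [(nat_lit 9, [(nat_lit 0, nat_lit 1000)])],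
 ⟨p049_k2, nat_lit 0, nat_lit 0, nat_lit 0, nat_lit 0, nat_lit 493466, [nat_lit 1558400000, nat_lit 2319600001, nat_lit 2818000000, nat_lit 3370000000], [], [nat_lit 15138684400, nat_lit 15852815201, nat_lit 16881116000, nat_lit 17550796000, nat_lit 16659498400, nat_lit 17334993600, nat_lit 18312710000, nat_lit 18958044000], nat_lit 1271250, nat_lit 1271250, nat_lit 205650, nat_lit 780000, nat_lit 1271250, nat_lit 1271250, [nat_lit 490000, nat_lit 936250, nat_lit 1271250, nat_lit 1271250], [nat_lit 138, nat_lit 40, nat_lit 20, nat_lit 40]⟩, C1.Rw.none,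
 ⟨nat_lit 5477, nat_lit 5917, ⟨.ofNat (nat_lit 242029), .ofNat (nat_lit 406949), .ofNat (nat_lit 252698), .ofNat (nat_lit 417619), .ofNat (nat_lit 256844), .ofNat (nat_lit 414204), .ofNat (nat_lit 267523), .ofNat (nat_lit 424882)⟩, ⟨.ofNat (nat_lit 507691), .ofNat (nat_lit 586223), .ofNat (nat_lit 529030), .ofNat (nat_lit 607556), .ofNat (nat_lit 500365), .ofNat (nat_lit 575297), .ofNat (nat_lit 521722), .ofNat (nat_lit 596648)⟩⟩, [⟨nat_lit 0, nat_lit 100, nat_lit 99, nat_lit 67, nat_lit 3694887⟩]⟩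
noncomputable def p049_l8 : Lf2 := ⟨nat_lit 0, nat_lit 5, [nat_lit 4, nat_lit 5, nat_lit 5, nat_lit 20], false, nat_lit 280, nat_lit 320, nat_lit 0, nat_lit 80, ⟨nat_lit 1000, nat_lit 0, nat_lit 0, nat_lit 0, nat_lit 0, nat_lit 0, nat_lit 0, nat_lit 0, nat_lit 0, nat_lit 0, nat_lit 0, nat_lit 0, nat_lit 0, nat_lit 0, nat_lit 0, nat_lit 0, false, false⟩,
 nat_lit 18772, nat_lit 0, nat_lit 0, nat_lit 9349, nat_lit 10926, nat_lit 7418, nat_lit 34, nat_lit 0, nat_lit 0, nat_lit 5631, nat_lit 0, nat_lit 0, nat_lit 0, nat_lit 0, nat_lit 0, nat_lit 0, nat_lit 0, nat_lit 0, [],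
 ⟨p049_k5, nat_lit 0, nat_lit 0, nat_lit 0, nat_lit 0, nat_lit 266778, [nat_lit 4688000000, nat_lit 7968000000], [], [nat_lit 24481099336, nat_lit 26083587494, nat_lit 20249827022, nat_lit 21695561832, nat_lit 28243398695, nat_lit 29844531322, nat_lit 23644264100, nat_lit 24873395424], nat_lit 1271250, nat_lit 1271250, nat_lit 205650, nat_lit 780000, nat_lit 1271250, nat_lit 1271250, [nat_lit 1100000, nat_lit 1785000], [nat_lit 39, nat_lit 40, nat_lit 40, nat_lit 80]⟩, ⟨p049_k5, nat_lit 0, nat_lit 0, nat_lit 0, nat_lit 0, nat_lit 266778, [nat_lit 4688000000, nat_lit 7968000000], [], [nat_lit 17695026509, nat_lit 18578216859, nat_lit 19048266192, nat_lit 17428996170, nat_lit 16921678715, nat_lit 15328078779, nat_lit 21564601356, nat_lit 19840279838], nat_lit 1271250, nat_lit 1271250, nat_lit 205650, nat_lit 780000, nat_lit 0, nat_lit 490000, [nat_lit 1100000, nat_lit 1785000], [nat_lit 39, nat_lit 40, nat_lit 40, nat_lit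 80]⟩,
 zbF0, [⟨nat_lit 0, nat_lit 100, nat_lit 99, nat_lit 67, nat_lit 651981710⟩, ⟨nat_lit 4, nat_lit 93, nat_lit 100, nat_lit 81, nat_lit 893902127⟩]⟩
noncomputable def p049_l9 : Lf2 := ⟨nat_lit 0, nat_lit 5, [nat_lit 4, nat_lit 5, nat_lit 5, nat_lit 20], false, nat_lit 280, nat_lit 320, nat_lit 80, nat_lit 160, ⟨nat_lit 1000, nat_lit 0, nat_lit 0, nat_lit 0, nat_lit 0, nat_lit 0, nat_lit 0, nat_lit 0, nat_lit 0, nat_lit 0, nat_lit 0, nat_lit 0, nat_lit 0, nat_lit 0, nat_lit 0, nat_lit 0, false, false⟩,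
 nat_lit 22074, nat_lit 0, nat_lit 0, nat_lit 0, nat_lit 7565, nat_lit 12848, nat_lit 2175, nat_lit 0, nat_lit 0, nat_lit 1746, nat_lit 0, nat_lit 0, nat_lit 0, nat_lit 12582355947446, nat_lit 0, nat_lit 0, nat_lit 0, nat_lit 0, [],
 ⟨p049_k3, nat_lit 0, nat_lit 0, nat_lit 0, nat_lit 0, nat_lit 266778, [nat_lit 4688000000, nat_lit 6250000000, nat_lit 7968000000], [], [nat_lit 20561199724, nat_lit 21994528561, nat_lit 18647862475, nat_lit 19729322805, nat_lit 24413902591, nat_lit 25999407505, nat_lit 21138055940, nat_lit 22603405680], nat_lit 1271250, nat_lit 1271250, nat_lit 205650, nat_lit 780000, nat_lit 1271250, nat_lit 1271250, [nat_lit 1100000, nat_lit 1442500, nat_lit 1271250], [nat_lit 9, nat_lit 40, nat_lit 40, nat_lit 80]⟩, ⟨p049_k3, nat_lit 0, nat_lit 0, nat_lit 0, nat_lit 0, nat_lit 266778, [nat_lit 4688000000, nat_lit 6250000000, nat_lit 7968000000], [], [nat_lit 11108435055, nat_lit 12570696056, nat_lit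 6626336048, nat_lit 7946699128, nat_lit 10601030751, nat_lit 11878231336, nat_lit 6252460832, nat_lit 7400298912], nat_lit 1271250, nat_lit 1271250, nat_lit 205650, nat_lit 780000, nat_lit 490000, nat_lit 1100001, [nat_lit 1100000, nat_lit 1442500, nat_lit 1271250], [nat_lit 9, nat_lit 40, nat_lit 40, nat_lit 80]⟩,
 zbF0, [⟨nat_lit 0, nat_lit 100, nat_lit 99, nat_lit 67, nat_lit 1049927217⟩, ⟨nat_lit 4, nat_lit 93, nat_lit 100, nat_lit 81, nat_lit 931358294⟩]⟩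
noncomputable def p049_l10 : Lf2 := ⟨nat_lit 0, nat_lit 5, [nat_lit 4, nat_lit 5, nat_lit 5, nat_lit 20], false, nat_lit 280, nat_lit 320, nat_lit 160, nat_lit 240, ⟨nat_lit 1000, nat_lit 0, nat_lit 0, nat_lit 0, nat_lit 0, nat_lit 0, nat_lit 0, nat_lit 0, nat_lit 0, nat_lit 0, nat_lit 0, nat_lit 0, nat_lit 0, nat_lit 0, nat_lit 0, nat_lit 0, false, false⟩,
 nat_lit 18471, nat_lit 0, nat_lit 0, nat_lit 0, nat_lit 7465, nat_lit 10751, nat_lit 1864, nat_lit 0, nat_lit 0, nat_lit 1522, nat_lit 0, nat_lit 0, nat_lit 0, nat_lit 4931838778007, nat_lit 0, nat_lit 0, nat_lit 0, nat_lit 0, [],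
 ⟨p049_k4, nat_lit 0, nat_lit 0, nat_lit 0, nat_lit 0, nat_lit 266778, [nat_lit 2032000001, nat_lit 4688000000, nat_lit 6250000000, nat_lit 7968000000], [], [nat_lit 21343741242, nat_lit 22629428463, nat_lit 19318938545, nat_lit 20287933220, nat_lit 24311565597, nat_lit 25885003345, nat_lit 21655174750, nat_lit 22670160160], nat_lit 1271250, nat_lit 1271250, nat_lit 205650, nat_lit 780000, nat_lit 1271250, nat_lit 1271250, [nat_lit 490000, nat_lit 1100000, nat_lit 1442500, nat_lit 1271250], [nat_lit 98, nat_lit 40, nat_lit 40, nat_lit 80]⟩, ⟨p049_k4, nat_lit 0, nat_lit 0, nat_lit 0, nat_lit 0, nat_lit 266778, [nat_lit 2032000000, nat_lit 4688000000, nat_lit 6250000000, nat_lit 7968000000], [], [nat_lit 19089307084, nat_lit 16327213919, nat_lit 9621070734, nat_lit 10465582869, nat_lit 17226908843, nat_lit 18139828164, nat_lit 13451847244, nat_lit 14274529242], nat_lit 1271250, nat_lit 1271250, nat_lit 205650, nat_lit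 780000, nat_lit 1100001, nat_lit 1785000, [nat_lit 490000, nat_lit 1100000, nat_lit 1442500, nat_lit 1271250], [nat_lit 98, nat_lit 40, nat_lit 40, nat_lit 80]⟩,
 zbF0, [⟨nat_lit 0, nat_lit 100, nat_lit 99, nat_lit 67, nat_lit 840721043⟩, ⟨nat_lit 16, nat_lit 100, nat_lit 93, nat_lit 81, nat_lit 645654267⟩, ⟨nat_lit 11, nat_lit 100, nat_lit 87, nat_lit 50, nat_lit 203771024⟩]⟩
noncomputable def p049_l11 : Lf2 := ⟨nat_lit 0, nat_lit 5, [nat_lit 4, nat_lit 5, nat_lit 5, nat_lit 20], false, nat_lit 280, nat_lit 320, nat_lit 240, nat_lit 320, ⟨nat_lit 1000, nat_lit 0, nat_lit 0, nat_lit 0, nat_lit 0, nat_lit 0, nat_lit 0, nat_lit 0, nat_lit 0, nat_lit 0, nat_lit 0, nat_lit 0, nat_lit 0, nat_lit 0, nat_lit 0, nat_lit 0, false, false⟩,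
 nat_lit 16227, nat_lit 0, nat_lit 0, nat_lit 0, nat_lit 9445, nat_lit 9445, nat_lit 1406, nat_lit 0, nat_lit 0, nat_lit 2024, nat_lit 0, nat_lit 0, nat_lit 0, nat_lit 20242724090684, nat_lit 0, nat_lit 0, nat_lit 0, nat_lit 0, [],
 ⟨p049_k3, nat_lit 0, nat_lit 0, nat_lit 0, nat_lit 0, nat_lit 213443, [nat_lit 4688000000, nat_lit 6250000000, nat_lit 7968000000], [], [nat_lit 21710201669, nat_lit 22443942326, nat_lit 18268430165, nat_lit 18932475953, nat_lit 26338507471, nat_lit 27244356592, nat_lit 21840190820, nat_lit 22674757930], nat_lit 1271250, nat_lit 1271250, nat_lit 205650, nat_lit 780000, nat_lit 1271250, nat_lit 1271250, [nat_lit 1100000, nat_lit 1442500, nat_lit 1271250], [nat_lit 9, nat_lit 40, nat_lit 40, nat_lit 80]⟩, ⟨p049_k3, nat_lit 0, nat_lit 0, nat_lit 0, nat_lit 0, nat_lit 213443, [nat_lit 4688000000, nat_lit 6250000000, nat_lit 7968000000], [], [nat_lit 16804282429, nat_lit 17644724105, nat_lit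 13688552580, nat_lit 14447896190, nat_lit 26338507471, nat_lit 27244356592, nat_lit 21840190820, nat_lit 22674757930], nat_lit 1271250, nat_lit 1271250, nat_lit 205650, nat_lit 780000, nat_lit 1271250, nat_lit 1271250, [nat_lit 1100000, nat_lit 1442500, nat_lit 1271250], [nat_lit 9, nat_lit 40, nat_lit 40, nat_lit 80]⟩,
 zbF0, [⟨nat_lit 0, nat_lit 100, nat_lit 100, nat_lit 70, nat_lit 66094387⟩, ⟨nat_lit 11, nat_lit 100, nat_lit 96, nat_lit 86, nat_lit 1022365301⟩]⟩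
noncomputable def p049_l12 : Lf2 := ⟨nat_lit 0, nat_lit 5, [nat_lit 4, nat_lit 5, nat_lit 5, nat_lit 20], false, nat_lit 280, nat_lit 308, nat_lit 240, nat_lit 320, ⟨nat_lit 1000, nat_lit 0, nat_lit 0, nat_lit 0, nat_lit 0, nat_lit 0, nat_lit 0, nat_lit 0, nat_lit 0, nat_lit 0, nat_lit 0, nat_lit 0, nat_lit 0, nat_lit 0, nat_lit 0, nat_lit 0, false, false⟩,
 nat_lit 14130, nat_lit 0, nat_lit 0, nat_lit 0, nat_lit 8210, nat_lit 8224, nat_lit 1598, nat_lit 0, nat_lit 0, nat_lit 1433, nat_lit 0, nat_lit 0, nat_lit 0, nat_lit 0, nat_lit 0, nat_lit 0, nat_lit 0, nat_lit 0, [],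
 ⟨p049_k6, nat_lit 0, nat_lit 0, nat_lit 0, nat_lit 0, nat_lit 252589, [nat_lit 4688000000, nat_lit 6250000000, nat_lit 7968000000], [], [nat_lit 21368187105, nat_lit 22044661110, nat_lit 18893269295, nat_lit 19508263970, nat_lit 24123059358, nat_lit 24997411208, nat_lit 20947946130, nat_lit 21753982920], nat_lit 1271250, nat_lit 1271250, nat_lit 230001, nat_lit 780000, nat_lit 1271250, nat_lit 1271250, [nat_lit 1100000, nat_lit 1442500, nat_lit 1271250], [nat_lit 9, nat_lit 40, nat_lit 40, nat_lit 80]⟩, ⟨p049_k3, nat_lit 0, nat_lit 0, nat_lit 0, nat_lit 0, nat_lit 266778, [nat_lit 4688000000, nat_lit 6250000000, nat_lit 7968000000], [], [nat_lit 18588105648, nat_lit 19359670280, nat_lit 16580753792, nat_lit 17155757248, nat_lit 24863919632, nat_lit 25446579544, nat_lit 22157022400, nat_lit 22687996288], nat_lit 1271250, nat_lit 1271250, nat_lit 230001, nat_lit 780000, nat_lit 1271250, nat_lit 1271250, [nat_lit 1100000,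 nat_lit 1442500, nat_lit 1271250], [nat_lit 9, nat_lit 40, nat_lit 40, nat_lit 80]⟩,
 zbF0, [⟨nat_lit 0, nat_lit 100, nat_lit 98, nat_lit 74, nat_lit 210233655⟩, ⟨nat_lit 16, nat_lit 100, nat_lit 96, nat_lit 82, nat_lit 374220796⟩, ⟨nat_lit 11, nat_lit 100, nat_lit 96, nat_lit 86, nat_lit 756372247⟩]⟩
noncomputable def p049_l13 : Lf2 := ⟨nat_lit 0, nat_lit 5, [nat_lit 4, nat_lit 5, nat_lit 5, nat_lit 20], false, nat_lit 280, nat_lit 320, nat_lit 0, nat_lit 320, ⟨nat_lit 0, nat_lit 0, nat_lit 1000, nat_lit 6, nat_lit 133, nat_lit 1000, nat_lit 222, nat_lit 1000, nat_lit 4629, nat_lit 210, nat_lit 166667, nat_lit 315, nat_lit 45216267, nat_lit 0, nat_lit 0, nat_lit 4447810, false, false⟩,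
 nat_lit 13329, nat_lit 0, nat_lit 0, nat_lit 1543, nat_lit 4535, nat_lit 7758, nat_lit 0, nat_lit 0, nat_lit 0, nat_lit 2985, nat_lit 464, nat_lit 0, nat_lit 0, nat_lit 0, nat_lit 39, nat_lit 248635, nat_lit 0, nat_lit 0, [(nat_lit 9, [(nat_lit 3, nat_lit 21), (nat_lit 4, nat_lit 979)])],
 ⟨p049_k2, nat_lit 0, nat_lit 0, nat_lit 0, nat_lit 0, nat_lit 213443, [nat_lit 2317075200, nat_lit 1295680800, nat_lit 1057934401, nat_lit 62896200], [], [nat_lit 17905733081, nat_lit 18606407123, nat_lit 17137522480, nat_lit 17582802770, nat_lit 21255169444, nat_lit 21866150794, nat_lit 20006423660, nat_lit 20574878590], nat_lit 1271250, nat_lit 1271250, nat_lit 205650, nat_lit 780000, nat_lit 1271250, nat_lit 1271250, [nat_lit 490000, nat_lit 936250, nat_lit 1271250, nat_lit 1271250], [nat_lit 138, nat_lit 40, nat_lit 20, nat_lit 40]⟩, ⟨p049_k3, nat_lit 0, nat_lit 0, nat_lit 272, nat_lit 0, nat_lit 213443, [nat_lit 7424000000,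 nat_lit 9280000000, nat_lit 11136000000], [], [nat_lit 30443281088, nat_lit 28357219280, nat_lit 13193949938, nat_lit 11173852076, nat_lit 15614505418, nat_lit 13855749751, nat_lit 18858032122, nat_lit 17146050988], nat_lit 1271250, nat_lit 1271250, nat_lit 205650, nat_lit 780000, nat_lit 0, nat_lit 2260000, [nat_lit 1100000, nat_lit 1442500, nat_lit 1271250], [nat_lit 9, nat_lit 40, nat_lit 40, nat_lit 80, nat_lit 2, nat_lit 345, nat_lit 125, nat_lit 12]⟩,
 ⟨nat_lit 5700, nat_lit 5917, ⟨.ofNat (nat_lit 242029), .ofNat (nat_lit 406949), .ofNat (nat_lit 252698), .ofNat (nat_lit 417619), .ofNat (nat_lit 249476), .ofNat (nat_lit 410586), .ofNat (nat_lit 260147), .ofNat (nat_lit 421257)⟩, ⟨.ofNat (nat_lit 507691), .ofNat (nat_lit 586223), .ofNat (nat_lit 529030), .ofNat (nat_lit 607561), .ofNat (nat_lit 504043), .ofNat (nat_lit 580761), .ofNat (nat_lit 525385), .ofNat (nat_lit 602101)⟩⟩, [⟨nat_lit 16, nat_lit 100, nat_lit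 91, nat_lit 80, nat_lit 478231632⟩]⟩
noncomputable def p049_l14 : Lf2 := ⟨nat_lit 0, nat_lit 5, [nat_lit 4, nat_lit 5, nat_lit 5, nat_lit 20], false, nat_lit 280, nat_lit 308, nat_lit 0, nat_lit 320, ⟨nat_lit 0, nat_lit 34, nat_lit 966, nat_lit 6, nat_lit 137, nat_lit 1000, nat_lit 216, nat_lit 966, nat_lit 2744, nat_lit 220, nat_lit 176817, nat_lit 318, nat_lit 45537819, nat_lit 7041886, nat_lit 14420295, nat_lit 4441823, false, false⟩,
 nat_lit 10977, nat_lit 0, nat_lit 0, nat_lit 1137, nat_lit 4193, nat_lit 6389, nat_lit 0, nat_lit 0, nat_lit 0, nat_lit 2440, nat_lit 367, nat_lit 0, nat_lit 0, nat_lit 0, nat_lit 16, nat_lit 250000, nat_lit 0, nat_lit 0, [(nat_lit 9, [(nat_lit 0, nat_lit 34), (nat_lit 4, nat_lit 966)])],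
 ⟨p049_k7, nat_lit 0, nat_lit 0, nat_lit 0, nat_lit 0, nat_lit 252589, [nat_lit 1678672000, nat_lit 1027366400, nat_lit 693351200, nat_lit 10554400], [], [nat_lit 18212068572, nat_lit 18885826476, nat_lit 17665233753, nat_lit 18173456500, nat_lit 20396689629, nat_lit 21011560974, nat_lit 19564543588, nat_lit 20137010258], nat_lit 1271250, nat_lit 1271250, nat_lit 230001, nat_lit 780000, nat_lit 1271250, nat_lit 1271250, [nat_lit 490000, nat_lit 936250, nat_lit 1271250, nat_lit 1271250], [nat_lit 189, nat_lit 40, nat_lit 20, nat_lit 40]⟩, ⟨p049_k3, nat_lit 0, nat_lit 0, nat_lit 289, nat_lit 0, nat_lit 266778, [nat_lit 5872000000, nat_lit 7340000000, nat_lit 8808000000], [], [nat_lit 23805060642, nat_lit 22089812201, nat_lit 10291098954, nat_lit 8627473633, nat_lit 12082482988, nat_lit 10635987832, nat_lit 14713741526, nat_lit 13303861729], nat_lit 1271250, nat_lit 1271250, nat_lit 230001, nat_lit 780000, nat_lit 0, nat_lit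 2260000, [nat_lit 1100000, nat_lit 1442500, nat_lit 1271250], [nat_lit 9, nat_lit 40, nat_lit 40, nat_lit 80, nat_lit 2, nat_lit 345, nat_lit 125, nat_lit 12]⟩,
 ⟨nat_lit 5477, nat_lit 5701, ⟨.ofNat (nat_lit 257148), .ofNat (nat_lit 410586), .ofNat (nat_lit 267819), .ofNat (nat_lit 421257), .ofNat (nat_lit 264337), .ofNat (nat_lit 414204), .ofNat (nat_lit 275016), .ofNat (nat_lit 424882)⟩, ⟨.ofNat (nat_lit 504043), .ofNat (nat_lit 557746), .ofNat (nat_lit 525385), .ofNat (nat_lit 579088), .ofNat (nat_lit 500365), .ofNat (nat_lit 552818), .ofNat (nat_lit 521722), .ofNat (nat_lit 574176)⟩⟩, [⟨nat_lit 4, nat_lit 96, nat_lit 100, nat_lit 82, nat_lit 435607645⟩]⟩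
noncomputable def p049_l15 : Lf2 := ⟨nat_lit 0, nat_lit 5, [nat_lit 4, nat_lit 5, nat_lit 5, nat_lit 20], false, nat_lit 240, nat_lit 320, nat_lit 0, nat_lit 320, ⟨nat_lit 0, nat_lit 0, nat_lit 1000, nat_lit 6, nat_lit 134, nat_lit 1000, nat_lit 206, nat_lit 1000, nat_lit 4618, nat_lit 210, nat_lit 170017, nat_lit 316, nat_lit 46574256, nat_lit 0, nat_lit 0, nat_lit 4333753, false, false⟩,
 nat_lit 100000, nat_lit 71795, nat_lit 0, nat_lit 0, nat_lit 100000, nat_lit 0, nat_lit 39244, nat_lit 7758, nat_lit 0, nat_lit 0, nat_lit 0, nat_lit 0, nat_lit 0, nat_lit 0, nat_lit 0, nat_lit 1000000, nat_lit 0, nat_lit 0, [(nat_lit 9, [(nat_lit 6, nat_lit 1000)])],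
 ⟨p049_k3, nat_lit 0, nat_lit 0, nat_lit 208, nat_lit 0, nat_lit 266778, [nat_lit 125225600000, nat_lit 154420000001, nat_lit 183610399999], [], [nat_lit 101130239102, nat_lit 111722984000, nat_lit 59413868501, nat_lit 69710472000, nat_lit 148653900600, nat_lit 156739554400, nat_lit 102001468000, nat_lit 108970628000], nat_lit 1271250, nat_lit 1271250, nat_lit 205650, nat_lit 780000, nat_lit 1271250, nat_lit 1271250, [nat_lit 1100000, nat_lit 1442500, nat_lit 1271250], [nat_lit 9, nat_lit 40, nat_lit 40, nat_lit 80, nat_lit 2, nat_lit 238, nat_lit 30, nat_lit 7]⟩, ⟨p049_k3, nat_lit 0, nat_lit 0, nat_lit 293, nat_lit 0, nat_lit 266778, [nat_lit 0, nat_lit 0, nat_lit 0], [], [nat_lit 0, nat_lit 0, nat_lit 0, nat_lit 0, nat_lit 0, nat_lit 0, nat_lit 0, nat_lit 0], nat_lit 1271250, nat_lit 1271250, nat_lit 205650, nat_lit 780000, nat_lit 0, nat_lit 2260000, [nat_lit 1100000, nat_lit 1442500, nat_lit 1271250], [nat_lit 9,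 nat_lit 40, nat_lit 40, nat_lit 80, nat_lit 2, nat_lit 345, nat_lit 125, nat_lit 12]⟩,
 ⟨nat_lit 5477, nat_lit 5917, ⟨.ofNat (nat_lit 242029), .ofNat (nat_lit 406949), .ofNat (nat_lit 252698), .ofNat (nat_lit 417619), .ofNat (nat_lit 256844), .ofNat (nat_lit 414204), .ofNat (nat_lit 267523), .ofNat (nat_lit 424882)⟩, ⟨.ofNat (nat_lit 429157), .ofNat (nat_lit 586223), .ofNat (nat_lit 450496), .ofNat (nat_lit 607556), .ofNat (nat_lit 425432), .ofNat (nat_lit 575297), .ofNat (nat_lit 446789), .ofNat (nat_lit 596648)⟩⟩, [⟨nat_lit 0, nat_lit 100, nat_lit 98, nat_lit 74, nat_lit 2665195292⟩, ⟨nat_lit 4, nat_lit 93, nat_lit 100, nat_lit 81, nat_lit 8274366596⟩]⟩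
noncomputable def b_V_600_600_10_67 : St := ⟨true, nat_lit 1, nat_lit 1, nat_lit 1, nat_lit 80, nat_lit 260, nat_lit 280, nat_lit 260, nat_lit 270, nat_lit 36, nat_lit 120, nat_lit 60, nat_lit 80, nat_lit 240, nat_lit 320, nat_lit 0, nat_lit 320, nat_lit 0, nat_lit 20, nat_lit 0, nat_lit 0, nat_lit 0, nat_lit 0⟩
theorem d_V_600_600_10_67 (h : EB TB.env) : Dead b_V_600_600_10_67 := chkB_sound0 h (T :=
(.spl (nat_lit 7) (nat_lit 600)
(.spl (nat_lit 4) (nat_lit 280)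
(.spl (nat_lit 4) (nat_lit 260)
(.spl (nat_lit 6) (nat_lit 8)
(.leaf p049_l0)
(.leaf p049_l1))
(.spl (nat_lit 2) (nat_lit 80)
(.spl (nat_lit 5) (nat_lit 160)
(.leaf p049_l2)
(.spl (nat_lit 5) (nat_lit 240)
(.leaf p049_l3)
(.leaf p049_l4)))
(.spl (nat_lit 5) (nat_lit 160)
(.leaf p049_l5)
(.leaf p049_l6))))
(.spl (nat_lit 7) (nat_lit 300)
(.leaf p049_l7)
(.spl (nat_lit 8) (nat_lit 800)
(.spl (nat_lit 5) (nat_lit 160)
(.spl (nat_lit 5) (nat_lit 80)
(.leaf p049_l8)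
(.leaf p049_l9))
(.spl (nat_lit 5) (nat_lit 240)
(.leaf p049_l10)
(.spl (nat_lit 0) (nat_lit 270)
(.leaf p049_l11)
(.trZ (nat_lit 0) (nat_lit 100) (nat_lit 98) (nat_lit 64) (nat_lit 40) (.trX (nat_lit 16) (nat_lit 100) (nat_lit 90) (nat_lit 85) (nat_lit 308) (.leaf p049_l12))))))
(.spl (nat_lit 0) (nat_lit 270)
(.leaf p049_l13)
(.trZ (nat_lit 0) (nat_lit 100) (nat_lit 98) (nat_lit 64) (nat_lit 40) (.trX (nat_lit 16) (nat_lit 100) (nat_lit 90) (nat_lit 85) (nat_lit 308) (.leaf p049_l14)))))))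
(.leaf p049_l15))) (by decide +kernel)
noncomputable def p049_l16 : Lf2 := ⟨nat_lit 0, nat_lit 5, [nat_lit 4, nat_lit 5, nat_lit 5, nat_lit 20], false, nat_lit 240, nat_lit 308, nat_lit 0, nat_lit 160, ⟨nat_lit 1000, nat_lit 0, nat_lit 0, nat_lit 0, nat_lit 0, nat_lit 0, nat_lit 0, nat_lit 0, nat_lit 0, nat_lit 0, nat_lit 0, nat_lit 0, nat_lit 0, nat_lit 0, nat_lit 0, nat_lit 0, false, false⟩,
 nat_lit 14243, nat_lit 0, nat_lit 0, nat_lit 0, nat_lit 7369, nat_lit 8674, nat_lit 2023, nat_lit 0, nat_lit 0, nat_lit 389, nat_lit 0, nat_lit 0, nat_lit 0, nat_lit 0, nat_lit 0, nat_lit 0, nat_lit 0, nat_lit 0, [],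
 ⟨p049_k6, nat_lit 0, nat_lit 0, nat_lit 272, nat_lit 0, nat_lit 420780, [nat_lit 4688000000, nat_lit 6250000000, nat_lit 7968000000], [], [nat_lit 19037843129, nat_lit 19589373353, nat_lit 18047615333, nat_lit 18583919616, nat_lit 22961688662, nat_lit 23774185285, nat_lit 21657233313, nat_lit 22092391826], nat_lit 1271250, nat_lit 1271250, nat_lit 279600, nat_lit 780000, nat_lit 1271250, nat_lit 1271250, [nat_lit 1100000, nat_lit 1442500, nat_lit 1271250], [nat_lit 9, nat_lit 40, nat_lit 40, nat_lit 80, nat_lit 2, nat_lit 238, nat_lit 30, nat_lit 7]⟩, ⟨p049_k6, nat_lit 0, nat_lit 0, nat_lit 374, nat_lit 0, nat_lit 420780, [nat_lit 4688000000, nat_lit 6250000000, nat_lit 7968000000], [], [nat_lit 29546608414, nat_lit 27294690556, nat_lit 23118500598, nat_lit 23651543784, nat_lit 24860138922, nat_lit 22794028553, nat_lit 29569081680, nat_lit 27552801706], nat_lit 1271250, nat_lit 1271250, nat_lit 279600, nat_lit 780000,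 nat_lit 0, nat_lit 1100001, [nat_lit 1100000, nat_lit 1442500, nat_lit 1271250], [nat_lit 9, nat_lit 40, nat_lit 40, nat_lit 80, nat_lit 2, nat_lit 289, nat_lit 75, nat_lit 10]⟩,
 zbF0, [⟨nat_lit 0, nat_lit 100, nat_lit 100, nat_lit 70, nat_lit 383549785⟩, ⟨nat_lit 16, nat_lit 100, nat_lit 90, nat_lit 85, nat_lit 25916775⟩, ⟨nat_lit 4, nat_lit 99, nat_lit 100, nat_lit 77, nat_lit 659137029⟩]⟩
noncomputable def p049_l17 : Lf2 := ⟨nat_lit 0, nat_lit 5, [nat_lit 4, nat_lit 5, nat_lit 5, nat_lit 20], false, nat_lit 240, nat_lit 308, nat_lit 160, nat_lit 240, ⟨nat_lit 1000, nat_lit 0, nat_lit 0, nat_lit 0, nat_lit 0, nat_lit 0, nat_lit 0, nat_lit 0, nat_lit 0, nat_lit 0, nat_lit 0, nat_lit 0, nat_lit 0, nat_lit 0, nat_lit 0, nat_lit 0, false, false⟩,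
 nat_lit 14802, nat_lit 0, nat_lit 0, nat_lit 0, nat_lit 7450, nat_lit 9014, nat_lit 2026, nat_lit 0, nat_lit 0, nat_lit 495, nat_lit 0, nat_lit 0, nat_lit 0, nat_lit 7483001051008, nat_lit 0, nat_lit 0, nat_lit 0, nat_lit 0, [],
 ⟨p049_k6, nat_lit 0, nat_lit 0, nat_lit 272, nat_lit 0, nat_lit 420780, [nat_lit 4688000000, nat_lit 6250000000, nat_lit 7968000000], [], [nat_lit 18826258141, nat_lit 19384394040, nat_lit 17813667650, nat_lit 18352912800, nat_lit 23027279986, nat_lit 23847535444, nat_lit 21443173091, nat_lit 21880343271], nat_lit 1271250, nat_lit 1271250, nat_lit 279600, nat_lit 780000, nat_lit 1271250, nat_lit 1271250, [nat_lit 1100000, nat_lit 1442500, nat_lit 1271250], [nat_lit 9, nat_lit 40, nat_lit 40, nat_lit 80, nat_lit 2, nat_lit 238, nat_lit 30, nat_lit 7]⟩, ⟨p049_k6, nat_lit 0, nat_lit 0, nat_lit 254, nat_lit 0, nat_lit 420780, [nat_lit 4688000000, nat_lit 6250000000, nat_lit 7968000000], [], [nat_lit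 24681537026, nat_lit 22341349388, nat_lit 17017963778, nat_lit 17561679224, nat_lit 21400711954, nat_lit 22007612783, nat_lit 19396549530, nat_lit 19946802424], nat_lit 1271250, nat_lit 1271250, nat_lit 279600, nat_lit 780000, nat_lit 1100001, nat_lit 1785000, [nat_lit 1100000, nat_lit 1442500, nat_lit 1271250], [nat_lit 9, nat_lit 40, nat_lit 40, nat_lit 80, nat_lit 2, nat_lit 317, nat_lit 100, nat_lit 10]⟩,
 zbF0, [⟨nat_lit 0, nat_lit 100, nat_lit 100, nat_lit 70, nat_lit 851306899⟩, ⟨nat_lit 4, nat_lit 99, nat_lit 100, nat_lit 77, nat_lit 714382481⟩]⟩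
noncomputable def p049_l18 : Lf2 := ⟨nat_lit 0, nat_lit 5, [nat_lit 4, nat_lit 5, nat_lit 5, nat_lit 20], false, nat_lit 240, nat_lit 288, nat_lit 240, nat_lit 288, ⟨nat_lit 1000, nat_lit 0, nat_lit 0, nat_lit 0, nat_lit 0, nat_lit 0, nat_lit 0, nat_lit 0, nat_lit 0, nat_lit 0, nat_lit 0, nat_lit 0, nat_lit 0, nat_lit 0, nat_lit 0, nat_lit 0, false, false⟩,
 nat_lit 14090, nat_lit 0, nat_lit 0, nat_lit 0, nat_lit 8581, nat_lit 8581, nat_lit 1394, nat_lit 0, nat_lit 0, nat_lit 1394, nat_lit 0, nat_lit 0, nat_lit 0, nat_lit 0, nat_lit 0, nat_lit 0, nat_lit 0, nat_lit 0, [],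
 ⟨p049_k6, nat_lit 0, nat_lit 0, nat_lit 257, nat_lit 0, nat_lit 394841, [nat_lit 4688000000, nat_lit 6250000000, nat_lit 7968000000], [], [nat_lit 18465528658, nat_lit 19113456458, nat_lit 16622077995, nat_lit 17158725596, nat_lit 22045079250, nat_lit 22714766525, nat_lit 19711990439, nat_lit 20324178013], nat_lit 1271250, nat_lit 1271250, nat_lit 279600, nat_lit 780000, nat_lit 1271250, nat_lit 1271250, [nat_lit 1100000, nat_lit 1442500, nat_lit 1271250], [nat_lit 9, nat_lit 40, nat_lit 40, nat_lit 80, nat_lit 2, nat_lit 238, nat_lit 30, nat_lit 7]⟩, ⟨p049_k6, nat_lit 0, nat_lit 0, nat_lit 257, nat_lit 0, nat_lit 394841, [nat_lit 4688000000, nat_lit 6250000000, nat_lit 7968000000], [], [nat_lit 18465528658, nat_lit 19113456458, nat_lit 16622077995, nat_lit 17158725596, nat_lit 22045079250, nat_lit 22714766525, nat_lit 19711990439, nat_lit 20324178013], nat_lit 1271250, nat_lit 1271250, nat_lit 279600, nat_lit 780000,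 nat_lit 1271250, nat_lit 1271250, [nat_lit 1100000, nat_lit 1442500, nat_lit 1271250], [nat_lit 9, nat_lit 40, nat_lit 40, nat_lit 80, nat_lit 2, nat_lit 238, nat_lit 30, nat_lit 7]⟩,
 zbF0, [⟨nat_lit 0, nat_lit 100, nat_lit 100, nat_lit 75, nat_lit 430119365⟩, ⟨nat_lit 16, nat_lit 100, nat_lit 97, nat_lit 76, nat_lit 384227139⟩, ⟨nat_lit 19, nat_lit 100, nat_lit 97, nat_lit 76, nat_lit 384227139⟩, ⟨nat_lit 11, nat_lit 100, nat_lit 100, nat_lit 64, nat_lit 398988841⟩, ⟨nat_lit 11, nat_lit 100, nat_lit 100, nat_lit 92, nat_lit 67049718⟩]⟩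
noncomputable def p049_l19 : Lf2 := ⟨nat_lit 0, nat_lit 5, [nat_lit 4, nat_lit 5, nat_lit 5, nat_lit 20], false, nat_lit 240, nat_lit 308, nat_lit 240, nat_lit 308, ⟨nat_lit 1000, nat_lit 0, nat_lit 0, nat_lit 0, nat_lit 0, nat_lit 0, nat_lit 0, nat_lit 0, nat_lit 0, nat_lit 0, nat_lit 0, nat_lit 0, nat_lit 0, nat_lit 0, nat_lit 0, nat_lit 0, false, false⟩,
 nat_lit 13175, nat_lit 0, nat_lit 0, nat_lit 0, nat_lit 8023, nat_lit 8023, nat_lit 1388, nat_lit 0, nat_lit 0, nat_lit 1388, nat_lit 0, nat_lit 0, nat_lit 0, nat_lit 0, nat_lit 0, nat_lit 0, nat_lit 0, nat_lit 0, [],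
 ⟨p049_k6, nat_lit 0, nat_lit 0, nat_lit 207, nat_lit 0, nat_lit 300840, [nat_lit 4688000000, nat_lit 6250000000, nat_lit 7968000000], [], [nat_lit 18709343486, nat_lit 19463841358, nat_lit 17103817396, nat_lit 17671495608, nat_lit 23768982064, nat_lit 24367780638, nat_lit 21552881621, nat_lit 22102480758], nat_lit 1271250, nat_lit 1271250, nat_lit 279600, nat_lit 780000, nat_lit 1271250, nat_lit 1271250, [nat_lit 1100000, nat_lit 1442500, nat_lit 1271250], [nat_lit 9, nat_lit 40, nat_lit 40, nat_lit 80, nat_lit 2, nat_lit 238, nat_lit 30, nat_lit 7]⟩, ⟨p049_k6, nat_lit 0, nat_lit 0, nat_lit 207, nat_lit 0, nat_lit 300840, [nat_lit 4688000000, nat_lit 6250000000, nat_lit 7968000000], [], [nat_lit 18709343486, nat_lit 19463841358, nat_lit 17103817396, nat_lit 17671495608, nat_lit 23768982064, nat_lit 24367780638, nat_lit 21552881621, nat_lit 22102480758], nat_lit 1271250, nat_lit 1271250, nat_lit 279600, nat_lit 780000,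 nat_lit 1271250, nat_lit 1271250, [nat_lit 1100000, nat_lit 1442500, nat_lit 1271250], [nat_lit 9, nat_lit 40, nat_lit 40, nat_lit 80, nat_lit 2, nat_lit 238, nat_lit 30, nat_lit 7]⟩,
 zbF0, [⟨nat_lit 0, nat_lit 100, nat_lit 100, nat_lit 80, nat_lit 289963281⟩, ⟨nat_lit 4, nat_lit 96, nat_lit 100, nat_lit 82, nat_lit 209493004⟩, ⟨nat_lit 7, nat_lit 96, nat_lit 100, nat_lit 82, nat_lit 209493004⟩, ⟨nat_lit 11, nat_lit 100, nat_lit 100, nat_lit 74, nat_lit 580950744⟩]⟩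
noncomputable def b_V_600_600_10_68 : St := ⟨true, nat_lit 1, nat_lit 1, nat_lit 1, nat_lit 80, nat_lit 260, nat_lit 280, nat_lit 270, nat_lit 280, nat_lit 36, nat_lit 120, nat_lit 40, nat_lit 80, nat_lit 240, nat_lit 320, nat_lit 0, nat_lit 320, nat_lit 0, nat_lit 20, nat_lit 0, nat_lit 0, nat_lit 0, nat_lit 0⟩
theorem d_V_600_600_10_68 (h : EB TB.env) : Dead b_V_600_600_10_68 := chkB_sound0 h (T :=
(.ord (.trZ (nat_lit 0) (nat_lit 100) (nat_lit 100) (nat_lit 70) (nat_lit 48) (.trX (nat_lit 16) (nat_lit 100) (nat_lit 90) (nat_lit 85) (nat_lit 308) (.trX (nat_lit 19) (nat_lit 100) (nat_lit 90) (nat_lit 85) (nat_lit 308) (.spl (nat_lit 5) (nat_lit 160)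
(.leaf p049_l16)
(.spl (nat_lit 5) (nat_lit 240)
(.leaf p049_l17)
(.spl (nat_lit 3) (nat_lit 60)
(.trX (nat_lit 16) (nat_lit 100) (nat_lit 97) (nat_lit 76) (nat_lit 288) (.trX (nat_lit 19) (nat_lit 100) (nat_lit 97) (nat_lit 76) (nat_lit 288) (.leaf p049_l18)))
(.leaf p049_l19))))))))) (by decide +kernel)
noncomputable def p049_l20 : Lf2 := ⟨nat_lit 0, nat_lit 10, [nat_lit 0, nat_lit 5, nat_lit 5, nat_lit 20], true, nat_lit 240, nat_lit 260, nat_lit 0, nat_lit 288, ⟨nat_lit 0, nat_lit 0, nat_lit 1000, nat_lit 6, nat_lit 92, nat_lit 1000, nat_lit 174, nat_lit 1000, nat_lit 101400, nat_lit 293, nat_lit 79350, nat_lit 284, nat_lit 52206012, nat_lit 0, nat_lit 0, nat_lit 3484281, false, false⟩,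
 nat_lit 0, nat_lit 7769, nat_lit 0, nat_lit 0, nat_lit 4522, nat_lit 0, nat_lit 0, nat_lit 0, nat_lit 0, nat_lit 0, nat_lit 0, nat_lit 0, nat_lit 0, nat_lit 0, nat_lit 122, nat_lit 597400, nat_lit 0, nat_lit 0, [(nat_lit 9, [(nat_lit 5, nat_lit 671), (nat_lit 6, nat_lit 329)])],
 ⟨p049_k8, nat_lit 0, nat_lit 0, nat_lit 182, nat_lit 0, nat_lit 133410, [nat_lit 3337324800, nat_lit 2210844001, nat_lit 66567999], [], [nat_lit 15986740711, nat_lit 17261619724, nat_lit 15267315327, nat_lit 16324704440, nat_lit 17269121413, nat_lit 18755745826, nat_lit 16331358929, nat_lit 17813047624], nat_lit 1271250, nat_lit 1271250, nat_lit 134400, nat_lit 230001, nat_lit 1271250, nat_lit 1271250, [nat_lit 1100000, nat_lit 1442500, nat_lit 1271250], [nat_lit 11, nat_lit 40, nat_lit 40, nat_lit 80, nat_lit 1, nat_lit 373, nat_lit 150, nat_lit 10]⟩, C1.Rw.none,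
 ⟨nat_lit 5477, nat_lit 5917, ⟨.ofNat (nat_lit 197129), .ofNat (nat_lit 228543), .ofNat (nat_lit 218469), .ofNat (nat_lit 249882), .ofNat (nat_lit 213007), .ofNat (nat_lit 242980), .ofNat (nat_lit 234364), .ofNat (nat_lit 264337)⟩, ⟨.ofNat (nat_lit 407818), .ofNat (nat_lit 447085), .ofNat (nat_lit 429157), .ofNat (nat_lit 468424), .ofNat (nat_lit 404075), .ofNat (nat_lit 441542), .ofNat (nat_lit 425432), .ofNat (nat_lit 462899)⟩⟩, [⟨nat_lit 0, nat_lit 100, nat_lit 97, nat_lit 59, nat_lit 687611220⟩]⟩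
noncomputable def p049_l21 : Lf2 := ⟨nat_lit 0, nat_lit 10, [nat_lit 0, nat_lit 5, nat_lit 5, nat_lit 20], true, nat_lit 260, nat_lit 280, nat_lit 0, nat_lit 256, ⟨nat_lit 0, nat_lit 0, nat_lit 1000, nat_lit 6, nat_lit 89, nat_lit 1000, nat_lit 190, nat_lit 1000, nat_lit 28439, nat_lit 256, nat_lit 74817, nat_lit 282, nat_lit 50940356, nat_lit 0, nat_lit 0, nat_lit 3610452, false, false⟩,
 nat_lit 0, nat_lit 7628, nat_lit 0, nat_lit 100000, nat_lit 4440, nat_lit 0, nat_lit 0, nat_lit 0, nat_lit 0, nat_lit 0, nat_lit 0, nat_lit 0, nat_lit 0, nat_lit 0, nat_lit 120, nat_lit 587800, nat_lit 0, nat_lit 0, [(nat_lit 9, [(nat_lit 5, nat_lit 687), (nat_lit 6, nat_lit 313)])],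
 ⟨p049_k8, nat_lit 0, nat_lit 0, nat_lit 189, nat_lit 0, nat_lit 133410, [nat_lit 3312185601, nat_lit 2175601334, nat_lit 53362666], [], [nat_lit 17214784440, nat_lit 18687819913, nat_lit 16757240883, nat_lit 18226842696, nat_lit 18782396400, nat_lit 20168107760, nat_lit 18320523760, nat_lit 19704254960], nat_lit 1271250, nat_lit 1271250, nat_lit 134400, nat_lit 181601, nat_lit 1271250, nat_lit 1271250, [nat_lit 1100000, nat_lit 1442500, nat_lit 1271250], [nat_lit 11, nat_lit 40, nat_lit 40, nat_lit 80, nat_lit 1, nat_lit 373, nat_lit 150, nat_lit 10]⟩, C1.Rw.none,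
 ⟨nat_lit 5477, nat_lit 5917, ⟨.ofNat (nat_lit 197129), .ofNat (nat_lit 212836), .ofNat (nat_lit 218469), .ofNat (nat_lit 234175), .ofNat (nat_lit 213007), .ofNat (nat_lit 227994), .ofNat (nat_lit 234364), .ofNat (nat_lit 249351)⟩, ⟨.ofNat (nat_lit 447085), .ofNat (nat_lit 486351), .ofNat (nat_lit 468424), .ofNat (nat_lit 507691), .ofNat (nat_lit 441542), .ofNat (nat_lit 479008), .ofNat (nat_lit 462899), .ofNat (nat_lit 500365)⟩⟩, [⟨nat_lit 0, nat_lit 100, nat_lit 97, nat_lit 59, nat_lit 7857408324⟩, ⟨nat_lit 4, nat_lit 100, nat_lit 100, nat_lit 71, nat_lit 602397954⟩]⟩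
noncomputable def p049_l22 : Lf2 := ⟨nat_lit 0, nat_lit 6, [nat_lit 47, nat_lit 5, nat_lit 5, nat_lit 20], true, nat_lit 260, nat_lit 280, nat_lit 0, nat_lit 268, ⟨nat_lit 0, nat_lit 0, nat_lit 1000, nat_lit 6, nat_lit 94, nat_lit 1000, nat_lit 190, nat_lit 1000, nat_lit 28439, nat_lit 256, nat_lit 84017, nat_lit 286, nat_lit 50591588, nat_lit 0, nat_lit 0, nat_lit 3682022, false, false⟩,
 nat_lit 0, nat_lit 7878, nat_lit 0, nat_lit 5089, nat_lit 4585, nat_lit 0, nat_lit 0, nat_lit 0, nat_lit 0, nat_lit 0, nat_lit 0, nat_lit 0, nat_lit 0, nat_lit 0, nat_lit 55, nat_lit 400000, nat_lit 0, nat_lit 0, [(nat_lit 9, [(nat_lit 5, nat_lit 1000)])],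
 ⟨p049_k9, nat_lit 0, nat_lit 0, nat_lit 123, nat_lit 0, nat_lit 75002, [nat_lit 2406400000, nat_lit 893600000, nat_lit 116000000], [], [nat_lit 16834021211, nat_lit 17581318137, nat_lit 16373358390, nat_lit 17103235815, nat_lit 18424917090, nat_lit 19127693216, nat_lit 17944679330, nat_lit 18646463635], nat_lit 1271250, nat_lit 1271250, nat_lit 181601, nat_lit 230001, nat_lit 1271250, nat_lit 1271250, [nat_lit 1100000, nat_lit 1442500, nat_lit 1271250], [nat_lit 9, nat_lit 40, nat_lit 40, nat_lit 80, nat_lit 2, nat_lit 215, nat_lit 10, nat_lit 6]⟩, C1.Rw.none,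
 ⟨nat_lit 5700, nat_lit 5917, ⟨.ofNat (nat_lit 212836), .ofNat (nat_lit 228543), .ofNat (nat_lit 234175), .ofNat (nat_lit 249882), .ofNat (nat_lit 220462), .ofNat (nat_lit 235806), .ofNat (nat_lit 241804), .ofNat (nat_lit 257148)⟩, ⟨.ofNat (nat_lit 447085), .ofNat (nat_lit 486351), .ofNat (nat_lit 468424), .ofNat (nat_lit 507691), .ofNat (nat_lit 444341), .ofNat (nat_lit 482701), .ofNat (nat_lit 465683), .ofNat (nat_lit 504043)⟩⟩, [⟨nat_lit 0, nat_lit 100, nat_lit 98, nat_lit 57, nat_lit 420312131⟩, ⟨nat_lit 4, nat_lit 98, nat_lit 100, nat_lit 70, nat_lit 535042421⟩]⟩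
noncomputable def p049_l23 : Lf2 := ⟨nat_lit 0, nat_lit 8, [nat_lit 50, nat_lit 5, nat_lit 5, nat_lit 20], true, nat_lit 260, nat_lit 280, nat_lit 0, nat_lit 268, ⟨nat_lit 0, nat_lit 0, nat_lit 1000, nat_lit 6, nat_lit 94, nat_lit 1000, nat_lit 190, nat_lit 1000, nat_lit 28439, nat_lit 256, nat_lit 84017, nat_lit 286, nat_lit 50591588, nat_lit 0, nat_lit 0, nat_lit 3682022, false, false⟩,
 nat_lit 0, nat_lit 7227, nat_lit 0, nat_lit 6921, nat_lit 4206, nat_lit 0, nat_lit 0, nat_lit 0, nat_lit 0, nat_lit 0, nat_lit 0, nat_lit 0, nat_lit 0, nat_lit 0, nat_lit 126, nat_lit 624400, nat_lit 0, nat_lit 0, [(nat_lit 9, [(nat_lit 5, nat_lit 626), (nat_lit 6, nat_lit 374)])],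
 ⟨p049_k10, nat_lit 0, nat_lit 0, nat_lit 147, nat_lit 0, nat_lit 46013, [nat_lit 3382028800, nat_lit 2277464001, nat_lit 58207999], [], [nat_lit 16630776397, nat_lit 17346689774, nat_lit 16320427419, nat_lit 16916525634, nat_lit 18152054524, nat_lit 18826312794, nat_lit 17719819388, nat_lit 18393090386], nat_lit 1271250, nat_lit 1271250, nat_lit 181601, nat_lit 230001, nat_lit 1271250, nat_lit 1271250, [nat_lit 1100000, nat_lit 1442500, nat_lit 1271250], [nat_lit 11, nat_lit 40, nat_lit 40, nat_lit 80, nat_lit 1, nat_lit 373, nat_lit 150, nat_lit 10]⟩, C1.Rw.none,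
 ⟨nat_lit 5700, nat_lit 5917, ⟨.ofNat (nat_lit 212836), .ofNat (nat_lit 228543), .ofNat (nat_lit 234175), .ofNat (nat_lit 249882), .ofNat (nat_lit 220462), .ofNat (nat_lit 235806), .ofNat (nat_lit 241804), .ofNat (nat_lit 257148)⟩, ⟨.ofNat (nat_lit 447085), .ofNat (nat_lit 486351), .ofNat (nat_lit 468424), .ofNat (nat_lit 507691), .ofNat (nat_lit 444341), .ofNat (nat_lit 482701), .ofNat (nat_lit 465683), .ofNat (nat_lit 504043)⟩⟩, [⟨nat_lit 0, nat_lit 100, nat_lit 98, nat_lit 57, nat_lit 324551212⟩, ⟨nat_lit 16, nat_lit 100, nat_lit 98, nat_lit 70, nat_lit 510467259⟩]⟩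
noncomputable def p049_l24 : Lf2 := ⟨nat_lit 1, nat_lit 10, [nat_lit 0, nat_lit 5, nat_lit 5, nat_lit 20], false, nat_lit 260, nat_lit 280, nat_lit 0, nat_lit 268, zbN0,
 nat_lit 0, nat_lit 0, nat_lit 0, nat_lit 0, nat_lit 0, nat_lit 0, nat_lit 0, nat_lit 0, nat_lit 0, nat_lit 0, nat_lit 0, nat_lit 0, nat_lit 0, nat_lit 0, nat_lit 0, nat_lit 0, nat_lit 0, nat_lit 0, [],
 C1.Rw.none, C1.Rw.none,
 zbF0, []⟩
noncomputable def p049_l25 : Lf2 := ⟨nat_lit 0, nat_lit 10, [nat_lit 0, nat_lit 5, nat_lit 5, nat_lit 20], true, nat_lit 260, nat_lit 280, nat_lit 0, nat_lit 268, ⟨nat_lit 0, nat_lit 0, nat_lit 1000, nat_lit 6, nat_lit 97, nat_lit 1000, nat_lit 189, nat_lit 1000, nat_lit 34222, nat_lit 259, nat_lit 88817, nat_lit 288, nat_lit 50528627, nat_lit 0, nat_lit 0, nat_lit 3709348, false, false⟩,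
 nat_lit 0, nat_lit 7063, nat_lit 0, nat_lit 1116, nat_lit 4301, nat_lit 0, nat_lit 0, nat_lit 0, nat_lit 0, nat_lit 0, nat_lit 0, nat_lit 0, nat_lit 0, nat_lit 0, nat_lit 103, nat_lit 489400, nat_lit 0, nat_lit 0, [(nat_lit 9, [(nat_lit 5, nat_lit 851), (nat_lit 6, nat_lit 149)])],
 ⟨p049_k11, nat_lit 0, nat_lit 0, nat_lit 178, nat_lit 0, nat_lit 126315, [nat_lit 3110508801, nat_lit 1884364001, nat_lit 20570400], [], [nat_lit 17681655762, nat_lit 18168671552, nat_lit 17373328830, nat_lit 17898953613, nat_lit 18901856699, nat_lit 19583263244, nat_lit 18458401877, nat_lit 19137018964], nat_lit 1271250, nat_lit 1271250, nat_lit 181601, nat_lit 230001, nat_lit 1271250, nat_lit 1271250, [nat_lit 1100000, nat_lit 1442500, nat_lit 1271250], [nat_lit 11, nat_lit 40, nat_lit 40, nat_lit 80, nat_lit 1, nat_lit 373, nat_lit 150, nat_lit 10]⟩, C1.Rw.none,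
 ⟨nat_lit 5477, nat_lit 5701, ⟨.ofNat (nat_lit 220462), .ofNat (nat_lit 235806), .ofNat (nat_lit 241804), .ofNat (nat_lit 257148), .ofNat (nat_lit 227994), .ofNat (nat_lit 242980), .ofNat (nat_lit 249351), .ofNat (nat_lit 264337)⟩, ⟨.ofNat (nat_lit 444341), .ofNat (nat_lit 482701), .ofNat (nat_lit 465683), .ofNat (nat_lit 504043), .ofNat (nat_lit 441542), .ofNat (nat_lit 479008), .ofNat (nat_lit 462899), .ofNat (nat_lit 500365)⟩⟩, [⟨nat_lit 0, nat_lit 100, nat_lit 96, nat_lit 61, nat_lit 987431584⟩, ⟨nat_lit 4, nat_lit 100, nat_lit 98, nat_lit 70, nat_lit 375949688⟩]⟩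
noncomputable def p049_l26 : Lf2 := ⟨nat_lit 0, nat_lit 8, [nat_lit 50, nat_lit 5, nat_lit 5, nat_lit 20], true, nat_lit 240, nat_lit 280, nat_lit 0, nat_lit 312, ⟨nat_lit 0, nat_lit 0, nat_lit 1000, nat_lit 6, nat_lit 112, nat_lit 1000, nat_lit 183, nat_lit 1000, nat_lit 28439, nat_lit 256, nat_lit 117600, nat_lit 299, nat_lit 50123713, nat_lit 0, nat_lit 0, nat_lit 3846316, false, false⟩,
 nat_lit 0, nat_lit 7062, nat_lit 0, nat_lit 3116, nat_lit 4110, nat_lit 0, nat_lit 0, nat_lit 0, nat_lit 0, nat_lit 0, nat_lit 0, nat_lit 0, nat_lit 0, nat_lit 0, nat_lit 87, nat_lit 400000, nat_lit 0, nat_lit 0, [(nat_lit 9, [(nat_lit 5, nat_lit 1000)])],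
 ⟨p049_k12, nat_lit 0, nat_lit 0, nat_lit 123, nat_lit 0, nat_lit 51113, [nat_lit 2918400000, nat_lit 787600001, nat_lit 9200000], [], [nat_lit 15140591320, nat_lit 15460553880, nat_lit 14788671560, nat_lit 15097386120, nat_lit 17709561800, nat_lit 17996821365, nat_lit 17267315330, nat_lit 17544951833], nat_lit 1271250, nat_lit 1271250, nat_lit 230001, nat_lit 490000, nat_lit 1271250, nat_lit 1271250, [nat_lit 1100000, nat_lit 1785000, nat_lit 1271250], [nat_lit 29, nat_lit 40, nat_lit 40, nat_lit 80, nat_lit 17, nat_lit 401, nat_lit 175, nat_lit 11]⟩, C1.Rw.none,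
 ⟨nat_lit 5809, nat_lit 5917, ⟨.ofNat (nat_lit 228543), .ofNat (nat_lit 307076), .ofNat (nat_lit 249882), .ofNat (nat_lit 328416), .ofNat (nat_lit 232187), .ofNat (nat_lit 309809), .ofNat (nat_lit 253526), .ofNat (nat_lit 331148)⟩, ⟨.ofNat (nat_lit 407818), .ofNat (nat_lit 486351), .ofNat (nat_lit 429157), .ofNat (nat_lit 507691), .ofNat (nat_lit 406908), .ofNat (nat_lit 484530), .ofNat (nat_lit 428247), .ofNat (nat_lit 505870)⟩⟩, [⟨nat_lit 16, nat_lit 100, nat_lit 97, nat_lit 70, nat_lit 427520706⟩]⟩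
noncomputable def p049_l27 : Lf2 := ⟨nat_lit 0, nat_lit 8, [nat_lit 50, nat_lit 5, nat_lit 5, nat_lit 20], true, nat_lit 240, nat_lit 280, nat_lit 0, nat_lit 312, ⟨nat_lit 0, nat_lit 0, nat_lit 1000, nat_lit 6, nat_lit 113, nat_lit 1000, nat_lit 182, nat_lit 1000, nat_lit 33895, nat_lit 258, nat_lit 120417, nat_lit 300, nat_lit 50087679, nat_lit 0, nat_lit 0, nat_lit 3857219, false, false⟩,
 nat_lit 0, nat_lit 6926, nat_lit 0, nat_lit 0, nat_lit 4124, nat_lit 0, nat_lit 110, nat_lit 0, nat_lit 0, nat_lit 0, nat_lit 0, nat_lit 0, nat_lit 0, nat_lit 0, nat_lit 87, nat_lit 400000, nat_lit 0, nat_lit 0, [(nat_lit 9, [(nat_lit 5, nat_lit 1000)])],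
 ⟨p049_k13, nat_lit 0, nat_lit 0, nat_lit 150, nat_lit 0, nat_lit 75555, [nat_lit 2918400000, nat_lit 787600001, nat_lit 9200000], [], [nat_lit 16315582960, nat_lit 16525742952, nat_lit 15921298836, nat_lit 16124134432, nat_lit 18005991646, nat_lit 18338270844, nat_lit 17553404847, nat_lit 17811599714], nat_lit 1271250, nat_lit 1271250, nat_lit 230001, nat_lit 490000, nat_lit 1271250, nat_lit 1271250, [nat_lit 1100000, nat_lit 1785000, nat_lit 1271250], [nat_lit 29, nat_lit 40, nat_lit 40, nat_lit 80, nat_lit 17, nat_lit 401, nat_lit 175, nat_lit 11]⟩, C1.Rw.none,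
 ⟨nat_lit 5700, nat_lit 5810, ⟨.ofNat (nat_lit 232187), .ofNat (nat_lit 309809), .ofNat (nat_lit 253526), .ofNat (nat_lit 331148), .ofNat (nat_lit 235806), .ofNat (nat_lit 312525), .ofNat (nat_lit 257148), .ofNat (nat_lit 333867)⟩, ⟨.ofNat (nat_lit 406908), .ofNat (nat_lit 484530), .ofNat (nat_lit 428247), .ofNat (nat_lit 505870), .ofNat (nat_lit 405982), .ofNat (nat_lit 482701), .ofNat (nat_lit 427324), .ofNat (nat_lit 504043)⟩⟩, [⟨nat_lit 0, nat_lit 100, nat_lit 98, nat_lit 64, nat_lit 165245152⟩, ⟨nat_lit 4, nat_lit 99, nat_lit 100, nat_lit 70, nat_lit 275873580⟩]⟩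
noncomputable def p049_l28 : Lf2 := ⟨nat_lit 1, nat_lit 10, [nat_lit 0, nat_lit 5, nat_lit 5, nat_lit 20], false, nat_lit 240, nat_lit 280, nat_lit 0, nat_lit 312, zbN0,
 nat_lit 0, nat_lit 0, nat_lit 0, nat_lit 0, nat_lit 0, nat_lit 0, nat_lit 0, nat_lit 0, nat_lit 0, nat_lit 0, nat_lit 0, nat_lit 0, nat_lit 0, nat_lit 0, nat_lit 0, nat_lit 0, nat_lit 0, nat_lit 0, [],
 C1.Rw.none, C1.Rw.none,
 zbF0, []⟩
noncomputable def p049_l29 : Lf2 := ⟨nat_lit 0, nat_lit 10, [nat_lit 0, nat_lit 5, nat_lit 5, nat_lit 20], true, nat_lit 240, nat_lit 280, nat_lit 0, nat_lit 312, ⟨nat_lit 0, nat_lit 0, nat_lit 1000, nat_lit 6, nat_lit 115, nat_lit 1000, nat_lit 181, nat_lit 1000, nat_lit 34222, nat_lit 259, nat_lit 123267, nat_lit 301, nat_lit 50034556, nat_lit 0, nat_lit 0, nat_lit 3873121, false, false⟩,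
 nat_lit 0, nat_lit 7161, nat_lit 0, nat_lit 0, nat_lit 4361, nat_lit 0, nat_lit 46, nat_lit 0, nat_lit 0, nat_lit 0, nat_lit 0, nat_lit 0, nat_lit 0, nat_lit 0, nat_lit 87, nat_lit 400000, nat_lit 0, nat_lit 0, [(nat_lit 9, [(nat_lit 5, nat_lit 1000)])],
 ⟨p049_k14, nat_lit 0, nat_lit 0, nat_lit 175, nat_lit 0, nat_lit 126315, [nat_lit 2918400000, nat_lit 787600001, nat_lit 9200000], [], [nat_lit 16507477328, nat_lit 17006895810, nat_lit 16042950048, nat_lit 16533733024, nat_lit 18497679745, nat_lit 19181644804, nat_lit 18101211776, nat_lit 18584375798], nat_lit 1271250, nat_lit 1271250, nat_lit 230001, nat_lit 490000, nat_lit 1271250, nat_lit 1271250, [nat_lit 1100000, nat_lit 1785000, nat_lit 1271250], [nat_lit 29, nat_lit 40, nat_lit 40, nat_lit 80, nat_lit 17, nat_lit 401, nat_lit 175, nat_lit 11]⟩, C1.Rw.none,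
 ⟨nat_lit 5477, nat_lit 5701, ⟨.ofNat (nat_lit 235806), .ofNat (nat_lit 312525), .ofNat (nat_lit 257148), .ofNat (nat_lit 333867), .ofNat (nat_lit 242980), .ofNat (nat_lit 317913), .ofNat (nat_lit 264337), .ofNat (nat_lit 339271)⟩, ⟨.ofNat (nat_lit 405982), .ofNat (nat_lit 482701), .ofNat (nat_lit 427324), .ofNat (nat_lit 504043), .ofNat (nat_lit 404075), .ofNat (nat_lit 479008), .ofNat (nat_lit 425432), .ofNat (nat_lit 500365)⟩⟩, [⟨nat_lit 0, nat_lit 100, nat_lit 96, nat_lit 69, nat_lit 167206927⟩, ⟨nat_lit 16, nat_lit 100, nat_lit 97, nat_lit 76, nat_lit 78508671⟩, ⟨nat_lit 4, nat_lit 100, nat_lit 98, nat_lit 70, nat_lit 252949809⟩]⟩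
noncomputable def p049_l30 : Lf2 := ⟨nat_lit 0, nat_lit 10, [nat_lit 0, nat_lit 5, nat_lit 5, nat_lit 20], false, nat_lit 240, nat_lit 280, nat_lit 0, nat_lit 312, ⟨nat_lit 0, nat_lit 0, nat_lit 1000, nat_lit 6, nat_lit 145, nat_lit 1000, nat_lit 182, nat_lit 1000, nat_lit 28439, nat_lit 256, nat_lit 194400, nat_lit 323, nat_lit 47903471, nat_lit 0, nat_lit 0, nat_lit 4236615, false, false⟩,
 nat_lit 0, nat_lit 7845, nat_lit 0, nat_lit 0, nat_lit 4566, nat_lit 0, nat_lit 0, nat_lit 0, nat_lit 0, nat_lit 0, nat_lit 0, nat_lit 0, nat_lit 0, nat_lit 0, nat_lit 88, nat_lit 407200, nat_lit 0, nat_lit 0, [(nat_lit 9, [(nat_lit 5, nat_lit 988), (nat_lit 6, nat_lit 12)])],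
 ⟨p049_k8, nat_lit 0, nat_lit 0, nat_lit 144, nat_lit 0, nat_lit 133410, [nat_lit 2929254401, nat_lit 1625098667, nat_lit 2035200], [], [nat_lit 15494471761, nat_lit 16482533728, nat_lit 15512006981, nat_lit 16431094720, nat_lit 17503760134, nat_lit 18438229296, nat_lit 17405906564, nat_lit 18392783152], nat_lit 1271250, nat_lit 1271250, nat_lit 490000, nat_lit 780000, nat_lit 1271250, nat_lit 1271250, [nat_lit 1100000, nat_lit 1442500, nat_lit 1271250], [nat_lit 11, nat_lit 40, nat_lit 40, nat_lit 80, nat_lit 1, nat_lit 401, nat_lit 175, nat_lit 11]⟩, ⟨p049_k15, nat_lit 0, nat_lit 0, nat_lit 353, nat_lit 0, nat_lit 149796, [nat_lit 0, nat_lit 0, nat_lit 0], [], [nat_lit 0, nat_lit 0, nat_lit 0, nat_lit 0, nat_lit 0, nat_lit 0, nat_lit 0, nat_lit 0], nat_lit 1271250, nat_lit 1271250, nat_lit 490000, nat_lit 780000, nat_lit 0, nat_lit 2203500, [nat_lit 1100000, nat_lit 1442500, nat_lit 1271250], [nat_lit 48, nat_lit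 40, nat_lit 40, nat_lit 80, nat_lit 12, nat_lit 401, nat_lit 175, nat_lit 11]⟩,
 ⟨nat_lit 5477, nat_lit 5917, ⟨.ofNat (nat_lit 307076), .ofNat (nat_lit 385610), .ofNat (nat_lit 328416), .ofNat (nat_lit 406949), .ofNat (nat_lit 317913), .ofNat (nat_lit 392847), .ofNat (nat_lit 339271), .ofNat (nat_lit 414204)⟩, ⟨.ofNat (nat_lit 407818), .ofNat (nat_lit 486351), .ofNat (nat_lit 429157), .ofNat (nat_lit 507691), .ofNat (nat_lit 404075), .ofNat (nat_lit 479008), .ofNat (nat_lit 425432), .ofNat (nat_lit 500365)⟩⟩, [⟨nat_lit 4, nat_lit 100, nat_lit 100, nat_lit 71, nat_lit 331570172⟩]⟩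
noncomputable def p049_l31 : Lf2 := ⟨nat_lit 0, nat_lit 10, [nat_lit 0, nat_lit 5, nat_lit 5, nat_lit 20], true, nat_lit 280, nat_lit 296, nat_lit 0, nat_lit 312, ⟨nat_lit 0, nat_lit 0, nat_lit 1000, nat_lit 6, nat_lit 123, nat_lit 1000, nat_lit 203, nat_lit 1000, nat_lit 11818, nat_lit 238, nat_lit 141067, nat_lit 307, nat_lit 47512002, nat_lit 0, nat_lit 0, nat_lit 4184305, false, false⟩,
 nat_lit 0, nat_lit 7072, nat_lit 0, nat_lit 100000, nat_lit 4116, nat_lit 0, nat_lit 0, nat_lit 0, nat_lit 0, nat_lit 0, nat_lit 0, nat_lit 0, nat_lit 0, nat_lit 0, nat_lit 89, nat_lit 412000, nat_lit 0, nat_lit 0, [(nat_lit 9, [(nat_lit 5, nat_lit 980), (nat_lit 6, nat_lit 20)])],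
 ⟨p049_k8, nat_lit 0, nat_lit 0, nat_lit 231, nat_lit 0, nat_lit 242573, [nat_lit 2941824000, nat_lit 1642720001, nat_lit 6592000], [], [nat_lit 18953088766, nat_lit 19846637916, nat_lit 18234056312, nat_lit 19133971440, nat_lit 19754651978, nat_lit 20985527478, nat_lit 19034479548, nat_lit 19897030045], nat_lit 1271250, nat_lit 1271250, nat_lit 134400, nat_lit 780000, nat_lit 1271250, nat_lit 1271250, [nat_lit 1100000, nat_lit 1442500, nat_lit 1271250], [nat_lit 11, nat_lit 40, nat_lit 40, nat_lit 80, nat_lit 1, nat_lit 317, nat_lit 100, nat_lit 9]⟩, C1.Rw.none,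
 ⟨nat_lit 5477, nat_lit 5917, ⟨.ofNat (nat_lit 197129), .ofNat (nat_lit 385610), .ofNat (nat_lit 218469), .ofNat (nat_lit 406949), .ofNat (nat_lit 213007), .ofNat (nat_lit 392847), .ofNat (nat_lit 234364), .ofNat (nat_lit 414204)⟩, ⟨.ofNat (nat_lit 486351), .ofNat (nat_lit 517765), .ofNat (nat_lit 507691), .ofNat (nat_lit 539104), .ofNat (nat_lit 479008), .ofNat (nat_lit 508982), .ofNat (nat_lit 500365), .ofNat (nat_lit 530339)⟩⟩, [⟨nat_lit 0, nat_lit 100, nat_lit 96, nat_lit 69, nat_lit 149109884⟩, ⟨nat_lit 16, nat_lit 100, nat_lit 92, nat_lit 75, nat_lit 6198337861⟩]⟩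
noncomputable def p049_l32 : Lf2 := ⟨nat_lit 1, nat_lit 6, [nat_lit 47, nat_lit 5, nat_lit 5, nat_lit 20], false, nat_lit 240, nat_lit 320, nat_lit 0, nat_lit 336, zbN0,
 nat_lit 0, nat_lit 0, nat_lit 0, nat_lit 0, nat_lit 0, nat_lit 0, nat_lit 0, nat_lit 0, nat_lit 0, nat_lit 0, nat_lit 0, nat_lit 0, nat_lit 0, nat_lit 0, nat_lit 0, nat_lit 0, nat_lit 0, nat_lit 0, [],
 C1.Rw.none, C1.Rw.none,
 zbF0, []⟩
noncomputable def p049_l33 : Lf2 := ⟨nat_lit 1, nat_lit 6, [nat_lit 47, nat_lit 5, nat_lit 5, nat_lit 20], false, nat_lit 240, nat_lit 308, nat_lit 0, nat_lit 336, zbN0,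
 nat_lit 0, nat_lit 0, nat_lit 0, nat_lit 0, nat_lit 0, nat_lit 0, nat_lit 0, nat_lit 0, nat_lit 0, nat_lit 0, nat_lit 0, nat_lit 0, nat_lit 0, nat_lit 0, nat_lit 0, nat_lit 0, nat_lit 0, nat_lit 0, [],
 C1.Rw.none, C1.Rw.none,
 zbF0, []⟩
noncomputable def p049_l34 : Lf2 := ⟨nat_lit 1, nat_lit 6, [nat_lit 47, nat_lit 5, nat_lit 5, nat_lit 20], false, nat_lit 240, nat_lit 308, nat_lit 0, nat_lit 328, zbN0,
 nat_lit 0, nat_lit 0, nat_lit 0, nat_lit 0, nat_lit 0, nat_lit 0, nat_lit 0, nat_lit 0, nat_lit 0, nat_lit 0, nat_lit 0, nat_lit 0, nat_lit 0, nat_lit 0, nat_lit 0, nat_lit 0, nat_lit 0, nat_lit 0, [],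
 C1.Rw.none, C1.Rw.none,
 zbF0, []⟩
noncomputable def p049_l35 : Lf2 := ⟨nat_lit 0, nat_lit 6, [nat_lit 47, nat_lit 5, nat_lit 5, nat_lit 20], false, nat_lit 240, nat_lit 304, nat_lit 0, nat_lit 328, ⟨nat_lit 0, nat_lit 1000, nat_lit 0, nat_lit 6, nat_lit 132, nat_lit 1000, nat_lit 199, nat_lit 0, nat_lit 0, nat_lit 0, nat_lit 0, nat_lit 0, nat_lit 47375414, nat_lit 6748214, nat_lit 12876372, nat_lit 4242341, false, false⟩,
 nat_lit 0, nat_lit 8155, nat_lit 0, nat_lit 3210, nat_lit 5077, nat_lit 0, nat_lit 0, nat_lit 0, nat_lit 0, nat_lit 0, nat_lit 0, nat_lit 0, nat_lit 0, nat_lit 0, nat_lit 0, nat_lit 250000, nat_lit 0, nat_lit 0, [(nat_lit 9, [(nat_lit 0, nat_lit 1000)])],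
 ⟨p049_k16, nat_lit 0, nat_lit 0, nat_lit 115, nat_lit 0, nat_lit 17481, [nat_lit 3116800000, nat_lit 3354400000], [], [nat_lit 17184344445, nat_lit 17540031381, nat_lit 16431431436, nat_lit 16756348208, nat_lit 21574602273, nat_lit 21886400726, nat_lit 20449715570, nat_lit 20719691962], nat_lit 1271250, nat_lit 1271250, nat_lit 205650, nat_lit 780000, nat_lit 1271250, nat_lit 1271250, [nat_lit 1100000, nat_lit 1785000], [nat_lit 39, nat_lit 40, nat_lit 40, nat_lit 80, nat_lit 7, nat_lit 238, nat_lit 30, nat_lit 7]⟩, ⟨p049_k17, nat_lit 0, nat_lit 0, nat_lit 248, nat_lit 0, nat_lit 20246, [nat_lit 0, nat_lit 0], [], [nat_lit 0, nat_lit 0, nat_lit 0, nat_lit 0, nat_lit 0, nat_lit 0, nat_lit 0, nat_lit 0], nat_lit 1271250, nat_lit 1271250, nat_lit 205650, nat_lit 780000, nat_lit 0, nat_lit 2316500, [nat_lit 1100000, nat_lit 2127500], [nat_lit 70, nat_lit 40, nat_lit 40, nat_lit 80, nat_lit 13, nat_lit 428, nat_lit 200,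 nat_lit 13]⟩,
 ⟨nat_lit 5477, nat_lit 5591, ⟨.ofNat (nat_lit 242495), .ofNat (nat_lit 401723), .ofNat (nat_lit 253169), .ofNat (nat_lit 412397), .ofNat (nat_lit 246166), .ofNat (nat_lit 403525), .ofNat (nat_lit 256844), .ofNat (nat_lit 414204)⟩, ⟨.ofNat (nat_lit 426386), .ofNat (nat_lit 547702), .ofNat (nat_lit 447734), .ofNat (nat_lit 569050), .ofNat (nat_lit 425432), .ofNat (nat_lit 545325), .ofNat (nat_lit 446789), .ofNat (nat_lit 566682)⟩⟩, [⟨nat_lit 0, nat_lit 100, nat_lit 96, nat_lit 69, nat_lit 159676196⟩, ⟨nat_lit 16, nat_lit 100, nat_lit 97, nat_lit 82, nat_lit 338262744⟩]⟩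
noncomputable def p049_l36 : Lf2 := ⟨nat_lit 1, nat_lit 10, [nat_lit 0, nat_lit 5, nat_lit 5, nat_lit 20], false, nat_lit 240, nat_lit 320, nat_lit 0, nat_lit 336, zbN0,
 nat_lit 0, nat_lit 0, nat_lit 0, nat_lit 0, nat_lit 0, nat_lit 0, nat_lit 0, nat_lit 0, nat_lit 0, nat_lit 0, nat_lit 0, nat_lit 0, nat_lit 0, nat_lit 0, nat_lit 0, nat_lit 0, nat_lit 0, nat_lit 0, [],
 C1.Rw.none, C1.Rw.none,
 zbF0, []⟩
noncomputable def b_V_600_600_10_69 : St := ⟨true, nat_lit 1, nat_lit 1, nat_lit 1, nat_lit 80, nat_lit 260, nat_lit 280, nat_lit 240, nat_lit 260, nat_lit 24, nat_lit 120, nat_lit 40, nat_lit 80, nat_lit 240, nat_lit 320, nat_lit 0, nat_lit 336, nat_lit 20, nat_lit 40, nat_lit 0, nat_lit 0, nat_lit 0, nat_lit 0⟩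
theorem d_V_600_600_10_69 (h : EB TB.env) : Dead b_V_600_600_10_69 := chkB_sound0 h (T :=
(.spl (nat_lit 3) (nat_lit 60)
(.trX (nat_lit 16) (nat_lit 100) (nat_lit 92) (nat_lit 75) (nat_lit 296) (.trX (nat_lit 19) (nat_lit 100) (nat_lit 85) (nat_lit 73) (nat_lit 312) (.spl (nat_lit 4) (nat_lit 280)
(.spl (nat_lit 2) (nat_lit 80)
(.spl (nat_lit 2) (nat_lit 40)
(.trX (nat_lit 23) (nat_lit 100) (nat_lit 92) (nat_lit 61) (nat_lit 288) (.spl (nat_lit 4) (nat_lit 260)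
(.leaf p049_l20)
(.trX (nat_lit 23) (nat_lit 100) (nat_lit 99) (nat_lit 63) (nat_lit 268) (.spl (nat_lit 2) (nat_lit 32)
(.trX (nat_lit 23) (nat_lit 99) (nat_lit 100) (nat_lit 56) (nat_lit 256) (.leaf p049_l21))
(.spl (nat_lit 0) (nat_lit 270)
(.spl (nat_lit 6) (nat_lit 32)
(.spl (nat_lit 6) (nat_lit 24)
(.leaf p049_l22)
(.leaf p049_l23))
(.leaf p049_l24))
(.leaf p049_l25))))))
(.spl (nat_lit 0) (nat_lit 270)
(.spl (nat_lit 6) (nat_lit 32)
(.spl (nat_lit 0) (nat_lit 265)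
(.leaf p049_l26)
(.leaf p049_l27))
(.leaf p049_l28))
(.leaf p049_l29)))
(.leaf p049_l30))
(.leaf p049_l31))))
(.spl (nat_lit 6) (nat_lit 24)
(.spl (nat_lit 0) (nat_lit 270)
(.leaf p049_l32)
(.trZ (nat_lit 0) (nat_lit 100) (nat_lit 96) (nat_lit 54) (nat_lit 28) (.trX (nat_lit 16) (nat_lit 100) (nat_lit 90) (nat_lit 85) (nat_lit 308) (.spl (nat_lit 1) (nat_lit 250)
(.leaf p049_l33)
(.trZ (nat_lit 0) (nat_lit 100) (nat_lit 97) (nat_lit 59) (nat_lit 36) (.trX (nat_lit 19) (nat_lit 100) (nat_lit 81) (nat_lit 83) (nat_lit 328) (.spl (nat_lit 0) (nat_lit 275)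
(.leaf p049_l34)
(.trX (nat_lit 16) (nat_lit 100) (nat_lit 92) (nat_lit 86) (nat_lit 304) (.leaf p049_l35)))))))))
(.leaf p049_l36)))) (by decide +kernel)
noncomputable def p049_l37 : Lf2 := ⟨nat_lit 0, nat_lit 10, [nat_lit 0, nat_lit 5, nat_lit 5, nat_lit 20], false, nat_lit 240, nat_lit 296, nat_lit 0, nat_lit 160, ⟨nat_lit 1000, nat_lit 0, nat_lit 0, nat_lit 0, nat_lit 0, nat_lit 0, nat_lit 0, nat_lit 0, nat_lit 0, nat_lit 0, nat_lit 0, nat_lit 0, nat_lit 0, nat_lit 0, nat_lit 0, nat_lit 0, false, false⟩,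
 nat_lit 22404, nat_lit 0, nat_lit 0, nat_lit 3641, nat_lit 13041, nat_lit 9618, nat_lit 984, nat_lit 0, nat_lit 0, nat_lit 2565, nat_lit 0, nat_lit 0, nat_lit 0, nat_lit 12422774053572, nat_lit 0, nat_lit 0, nat_lit 0, nat_lit 0, [],
 ⟨p049_k18, nat_lit 0, nat_lit 0, nat_lit 0, nat_lit 0, nat_lit 128224, [nat_lit 3965500000, nat_lit 5449500000, nat_lit 9842000000], [], [nat_lit 21177182224, nat_lit 22078447347, nat_lit 17514217496, nat_lit 18376041912, nat_lit 26163333980, nat_lit 27064538557, nat_lit 22283014263, nat_lit 22978225517], nat_lit 1271250, nat_lit 1271250, nat_lit 205650, nat_lit 490000, nat_lit 1271250, nat_lit 1271250, [nat_lit 936250, nat_lit 1271250, nat_lit 1271250], [nat_lit 169, nat_lit 40, nat_lit 20, nat_lit 40]⟩, ⟨p049_k18, nat_lit 0, nat_lit 0, nat_lit 0, nat_lit 0, nat_lit 128224, [nat_lit 3965500000, nat_lit 5449500000, nat_lit 9842000000], [], [nat_lit 20518296320, nat_lit 21603454581, nat_lit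 17451623571, nat_lit 18499531753, nat_lit 16111632774, nat_lit 13762642099, nat_lit 17929475496, nat_lit 15616346496], nat_lit 1271250, nat_lit 1271250, nat_lit 205650, nat_lit 490000, nat_lit 0, nat_lit 1100001, [nat_lit 936250, nat_lit 1271250, nat_lit 1271250], [nat_lit 169, nat_lit 40, nat_lit 20, nat_lit 40]⟩,
 zbF0, [⟨nat_lit 0, nat_lit 100, nat_lit 100, nat_lit 70, nat_lit 894753918⟩, ⟨nat_lit 4, nat_lit 98, nat_lit 100, nat_lit 70, nat_lit 976216031⟩]⟩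
noncomputable def p049_l38 : Lf2 := ⟨nat_lit 0, nat_lit 10, [nat_lit 0, nat_lit 5, nat_lit 5, nat_lit 20], false, nat_lit 240, nat_lit 296, nat_lit 160, nat_lit 240, ⟨nat_lit 1000, nat_lit 0, nat_lit 0, nat_lit 0, nat_lit 0, nat_lit 0, nat_lit 0, nat_lit 0, nat_lit 0, nat_lit 0, nat_lit 0, nat_lit 0, nat_lit 0, nat_lit 0, nat_lit 0, nat_lit 0, false, false⟩,
 nat_lit 25292, nat_lit 0, nat_lit 0, nat_lit 0, nat_lit 9697, nat_lit 14722, nat_lit 1516, nat_lit 0, nat_lit 0, nat_lit 1206, nat_lit 0, nat_lit 0, nat_lit 0, nat_lit 10208039990998, nat_lit 0, nat_lit 0, nat_lit 0, nat_lit 0, [],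
 ⟨p049_k19, nat_lit 0, nat_lit 0, nat_lit 0, nat_lit 0, nat_lit 128224, [nat_lit 4688000000, nat_lit 7968000001, nat_lit 9842000000], [], [nat_lit 19140489150, nat_lit 19887503250, nat_lit 16525162255, nat_lit 17343936272, nat_lit 23882258500, nat_lit 24584021507, nat_lit 21194684721, nat_lit 21868309736], nat_lit 1271250, nat_lit 1271250, nat_lit 205650, nat_lit 490000, nat_lit 1271250, nat_lit 1271250, [nat_lit 1100000, nat_lit 1785000, nat_lit 1271250], [nat_lit 29, nat_lit 40, nat_lit 40, nat_lit 80]⟩, ⟨p049_k19, nat_lit 0, nat_lit 0, nat_lit 0, nat_lit 0, nat_lit 128224, [nat_lit 4688000000, nat_lit 7968000000, nat_lit 9842000000], [], [nat_lit 14524751213, nat_lit 15747804980, nat_lit 10295571864, nat_lit 11465730116, nat_lit 18672042074, nat_lit 19649284087, nat_lit 15762247180, nat_lit 15234561304], nat_lit 1271250, nat_lit 1271250, nat_lit 205650, nat_lit 490000, nat_lit 1100001, nat_lit 1785000, [nat_lit 1100000,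 nat_lit 1785000, nat_lit 1271250], [nat_lit 29, nat_lit 40, nat_lit 40, nat_lit 80]⟩,
 zbF0, [⟨nat_lit 0, nat_lit 100, nat_lit 100, nat_lit 70, nat_lit 1362100809⟩, ⟨nat_lit 4, nat_lit 98, nat_lit 100, nat_lit 70, nat_lit 939114782⟩]⟩
noncomputable def p049_l39 : Lf2 := ⟨nat_lit 0, nat_lit 10, [nat_lit 0, nat_lit 5, nat_lit 5, nat_lit 20], false, nat_lit 240, nat_lit 296, nat_lit 240, nat_lit 296, ⟨nat_lit 1000, nat_lit 0, nat_lit 0, nat_lit 0, nat_lit 0, nat_lit 0, nat_lit 0, nat_lit 0, nat_lit 0, nat_lit 0, nat_lit 0, nat_lit 0, nat_lit 0, nat_lit 0, nat_lit 0, nat_lit 0, false, false⟩,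
 nat_lit 15182, nat_lit 0, nat_lit 0, nat_lit 0, nat_lit 8837, nat_lit 8837, nat_lit 1978, nat_lit 0, nat_lit 0, nat_lit 0, nat_lit 0, nat_lit 4, nat_lit 0, nat_lit 334595180100, nat_lit 0, nat_lit 0, nat_lit 0, nat_lit 0, [],
 ⟨p049_k8, nat_lit 0, nat_lit 0, nat_lit 0, nat_lit 0, nat_lit 128224, [nat_lit 4688000000, nat_lit 6250000000, nat_lit 9842000000], [], [nat_lit 19084636280, nat_lit 19792248190, nat_lit 16768994022, nat_lit 17448465734, nat_lit 23148405827, nat_lit 23833523140, nat_lit 20670715820, nat_lit 21230978952], nat_lit 1271250, nat_lit 1271250, nat_lit 205650, nat_lit 490000, nat_lit 1271250, nat_lit 1271250, [nat_lit 1100000, nat_lit 1442500, nat_lit 1271250], [nat_lit 11, nat_lit 40, nat_lit 40, nat_lit 80]⟩, ⟨p049_k8, nat_lit 0, nat_lit 0, nat_lit 0, nat_lit 0, nat_lit 128224, [nat_lit 4688000000, nat_lit 6250000000, nat_lit 9842000000], [], [nat_lit 17824281165, nat_lit 18724333625, nat_lit 15719651092,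 nat_lit 16582162862, nat_lit 22925061234, nat_lit 23833523140, nat_lit 20607818893, nat_lit 21321896103], nat_lit 1271250, nat_lit 1271250, nat_lit 205650, nat_lit 490000, nat_lit 1271250, nat_lit 1271250, [nat_lit 1100000, nat_lit 1442500, nat_lit 1271250], [nat_lit 11, nat_lit 40, nat_lit 40, nat_lit 80]⟩,
 zbF0, [⟨nat_lit 0, nat_lit 100, nat_lit 100, nat_lit 70, nat_lit 473509604⟩, ⟨nat_lit 4, nat_lit 98, nat_lit 100, nat_lit 70, nat_lit 170296436⟩, ⟨nat_lit 7, nat_lit 98, nat_lit 100, nat_lit 70, nat_lit 302972204⟩, ⟨nat_lit 11, nat_lit 100, nat_lit 100, nat_lit 68, nat_lit 705487033⟩]⟩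
noncomputable def p049_l40 : Lf2 := ⟨nat_lit 0, nat_lit 10, [nat_lit 0, nat_lit 5, nat_lit 5, nat_lit 20], false, nat_lit 240, nat_lit 296, nat_lit 240, nat_lit 296, ⟨nat_lit 1000, nat_lit 0, nat_lit 0, nat_lit 0, nat_lit 0, nat_lit 0, nat_lit 0, nat_lit 0, nat_lit 0, nat_lit 0, nat_lit 0, nat_lit 0, nat_lit 0, nat_lit 0, nat_lit 0, nat_lit 0, false, false⟩,
 nat_lit 55584, nat_lit 0, nat_lit 0, nat_lit 0, nat_lit 11795, nat_lit 32354, nat_lit 1657, nat_lit 0, nat_lit 0, nat_lit 4196, nat_lit 0, nat_lit 0, nat_lit 0, nat_lit 0, nat_lit 0, nat_lit 0, nat_lit 0, nat_lit 11571450892, [],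
 ⟨p049_k20, nat_lit 0, nat_lit 0, nat_lit 0, nat_lit 0, nat_lit 128224, [nat_lit 2637500000, nat_lit 3965500000, nat_lit 5449500000, nat_lit 8885500000, nat_lit 9842000000], [], [nat_lit 17360298820, nat_lit 18229346600, nat_lit 14200156965, nat_lit 15092794645, nat_lit 24578880456, nat_lit 25781467941, nat_lit 20613435125, nat_lit 21774117540], nat_lit 1271250, nat_lit 1271250, nat_lit 205650, nat_lit 490000, nat_lit 1271250, nat_lit 1271250, [nat_lit 631250, nat_lit 936250, nat_lit 1271250, nat_lit 1271250, nat_lit 1271250], [nat_lit 245, nat_lit 10, nat_lit 4, nat_lit 20]⟩, ⟨p049_k20, nat_lit 0, nat_lit 0, nat_lit 0, nat_lit 0, nat_lit 128224, [nat_lit 2637500000, nat_lit 3965500000, nat_lit 5449500000, nat_lit 8885500000, nat_lit 9842000000], [], [nat_lit 9883842800, nat_lit 11901430176, nat_lit 0, nat_lit 1919976516, nat_lit 22886479606, nat_lit 25376615489, nat_lit 12619771105, nat_lit 14951744480], nat_lit 1271250,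 nat_lit 1271250, nat_lit 205650, nat_lit 490000, nat_lit 1271250, nat_lit 1271250, [nat_lit 631250, nat_lit 936250, nat_lit 1271250, nat_lit 1271250, nat_lit 1271250], [nat_lit 245, nat_lit 10, nat_lit 4, nat_lit 20]⟩,
 zbF0, [⟨nat_lit 0, nat_lit 100, nat_lit 100, nat_lit 70, nat_lit 2160017913⟩, ⟨nat_lit 4, nat_lit 98, nat_lit 100, nat_lit 70, nat_lit 1303946517⟩, ⟨nat_lit 7, nat_lit 98, nat_lit 100, nat_lit 70, nat_lit 2058856385⟩]⟩
noncomputable def p049_l41 : Lf2 := ⟨nat_lit 0, nat_lit 10, [nat_lit 0, nat_lit 5, nat_lit 5, nat_lit 20], false, nat_lit 240, nat_lit 296, nat_lit 0, nat_lit 296, ⟨nat_lit 0, nat_lit 0, nat_lit 1000, nat_lit 6, nat_lit 118, nat_lit 1000, nat_lit 189, nat_lit 1000, nat_lit 11818, nat_lit 238, nat_lit 129067, nat_lit 303, nat_lit 49214355, nat_lit 0, nat_lit 0, nat_lit 3977605, false, false⟩,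
 nat_lit 71795, nat_lit 0, nat_lit 100000, nat_lit 0, nat_lit 7503, nat_lit 100000, nat_lit 0, nat_lit 0, nat_lit 0, nat_lit 0, nat_lit 6339, nat_lit 0, nat_lit 0, nat_lit 0, nat_lit 61, nat_lit 248765, nat_lit 0, nat_lit 0, [(nat_lit 9, [(nat_lit 3, nat_lit 19), (nat_lit 4, nat_lit 981)])],
 ⟨p049_k19, nat_lit 0, nat_lit 0, nat_lit 0, nat_lit 0, nat_lit 128224, [nat_lit 4899545600, nat_lit 538262801, nat_lit 20026800], [], [nat_lit 15927310852, nat_lit 16905866739, nat_lit 14077849568, nat_lit 14699469071, nat_lit 21800672359, nat_lit 22669377998, nat_lit 19420371159, nat_lit 20262116543], nat_lit 1271250, nat_lit 1271250, nat_lit 205650, nat_lit 490000, nat_lit 1271250, nat_lit 1271250, [nat_lit 1100000, nat_lit 1785000, nat_lit 1271250], [nat_lit 29, nat_lit 40, nat_lit 40, nat_lit 80]⟩, ⟨p049_k19, nat_lit 0, nat_lit 0, nat_lit 315, nat_lit 0, nat_lit 128224, [nat_lit 101424000000, nat_lit 152136000000, nat_lit 177492000000],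 [], [nat_lit 470461100000, nat_lit 443571930000, nat_lit 353070200000, nat_lit 326633300000, nat_lit 272379804000, nat_lit 249527664000, nat_lit 286233640000, nat_lit 263707060000], nat_lit 1271250, nat_lit 1271250, nat_lit 205650, nat_lit 490000, nat_lit 0, nat_lit 2090500, [nat_lit 1100000, nat_lit 1785000, nat_lit 1271250], [nat_lit 29, nat_lit 40, nat_lit 40, nat_lit 80, nat_lit 17, nat_lit 401, nat_lit 175, nat_lit 12]⟩,
 ⟨nat_lit 5700, nat_lit 5917, ⟨.ofNat (nat_lit 242029), .ofNat (nat_lit 328416), .ofNat (nat_lit 252698), .ofNat (nat_lit 339085), .ofNat (nat_lit 249476), .ofNat (nat_lit 333867), .ofNat (nat_lit 260147), .ofNat (nat_lit 344538)⟩, ⟨.ofNat (nat_lit 407818), .ofNat (nat_lit 517765), .ofNat (nat_lit 429157), .ofNat (nat_lit 539104), .ofNat (nat_lit 405982), .ofNat (nat_lit 513388), .ofNat (nat_lit 427324), .ofNat (nat_lit 534730)⟩⟩, [⟨nat_lit 16, nat_lit 100, nat_lit 98, nat_lit 70, nat_lit 700517727⟩]⟩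
noncomputable def p049_l42 : Lf2 := ⟨nat_lit 0, nat_lit 10, [nat_lit 0, nat_lit 5, nat_lit 5, nat_lit 20], false, nat_lit 240, nat_lit 296, nat_lit 0, nat_lit 296, ⟨nat_lit 0, nat_lit 0, nat_lit 1000, nat_lit 6, nat_lit 150, nat_lit 1000, nat_lit 189, nat_lit 1000, nat_lit 11818, nat_lit 238, nat_lit 212817, nat_lit 328, nat_lit 46935717, nat_lit 0, nat_lit 0, nat_lit 4361398, false, false⟩,
 nat_lit 6815, nat_lit 0, nat_lit 0, nat_lit 0, nat_lit 3966, nat_lit 0, nat_lit 0, nat_lit 0, nat_lit 0, nat_lit 0, nat_lit 0, nat_lit 0, nat_lit 0, nat_lit 15303866335840, nat_lit 120, nat_lit 586000, nat_lit 0, nat_lit 0, [(nat_lit 9, [(nat_lit 5, nat_lit 690), (nat_lit 6, nat_lit 310)])],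
 ⟨p049_k18, nat_lit 0, nat_lit 0, nat_lit 0, nat_lit 0, nat_lit 128224, [nat_lit 2899288000, nat_lit 2714422667, nat_lit 55284889], [], [nat_lit 15098804185, nat_lit 15591522953, nat_lit 15391968167, nat_lit 15879885205, nat_lit 17983653390, nat_lit 18590521953, nat_lit 18081770727, nat_lit 18650656717], nat_lit 1271250, nat_lit 1271250, nat_lit 490000, nat_lit 780000, nat_lit 1271250, nat_lit 1271250, [nat_lit 936250, nat_lit 1271250, nat_lit 1271250], [nat_lit 169, nat_lit 40, nat_lit 20, nat_lit 40]⟩, ⟨p049_k8, nat_lit 0, nat_lit 0, nat_lit 229, nat_lit 0, nat_lit 128224, [nat_lit 0, nat_lit 0, nat_lit 0], [], [nat_lit 0, nat_lit 0, nat_lit 0, nat_lit 0, nat_lit 0, nat_lit 0, nat_lit 0, nat_lit 0], nat_lit 1271250, nat_lit 1271250, nat_lit 490000, nat_lit 780000, nat_lit 0, nat_lit 2090500, [nat_lit 1100000, nat_lit 1442500, nat_lit 1271250], [nat_lit 11, nat_lit 40, nat_lit 40, nat_lit 80, nat_lit 1, nat_lit 401,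 nat_lit 175, nat_lit 12]⟩,
 ⟨nat_lit 5700, nat_lit 5917, ⟨.ofNat (nat_lit 328416), .ofNat (nat_lit 406949), .ofNat (nat_lit 339085), .ofNat (nat_lit 417619), .ofNat (nat_lit 333867), .ofNat (nat_lit 410586), .ofNat (nat_lit 344538), .ofNat (nat_lit 421257)⟩, ⟨.ofNat (nat_lit 407818), .ofNat (nat_lit 517765), .ofNat (nat_lit 429157), .ofNat (nat_lit 539104), .ofNat (nat_lit 405982), .ofNat (nat_lit 513388), .ofNat (nat_lit 427324), .ofNat (nat_lit 534730)⟩⟩, [⟨nat_lit 16, nat_lit 100, nat_lit 98, nat_lit 70, nat_lit 373774270⟩]⟩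
noncomputable def p049_l43 : Lf2 := ⟨nat_lit 1, nat_lit 6, [nat_lit 47, nat_lit 5, nat_lit 5, nat_lit 20], false, nat_lit 240, nat_lit 320, nat_lit 0, nat_lit 320, zbN0,
 nat_lit 0, nat_lit 0, nat_lit 0, nat_lit 0, nat_lit 0, nat_lit 0, nat_lit 0, nat_lit 0, nat_lit 0, nat_lit 0, nat_lit 0, nat_lit 0, nat_lit 0, nat_lit 0, nat_lit 0, nat_lit 0, nat_lit 0, nat_lit 0, [],
 C1.Rw.none, C1.Rw.none,
 zbF0, []⟩
noncomputable def p049_l44 : Lf2 := ⟨nat_lit 0, nat_lit 6, [nat_lit 47, nat_lit 5, nat_lit 5, nat_lit 20], false, nat_lit 240, nat_lit 316, nat_lit 0, nat_lit 316, ⟨nat_lit 1000, nat_lit 0, nat_lit 0, nat_lit 0, nat_lit 0, nat_lit 0, nat_lit 0, nat_lit 0, nat_lit 0, nat_lit 0, nat_lit 0, nat_lit 0, nat_lit 0, nat_lit 0, nat_lit 0, nat_lit 0, false, false⟩,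
 nat_lit 12426, nat_lit 0, nat_lit 0, nat_lit 5789, nat_lit 5531, nat_lit 7399, nat_lit 0, nat_lit 0, nat_lit 0, nat_lit 1741, nat_lit 0, nat_lit 0, nat_lit 0, nat_lit 6077420950296, nat_lit 0, nat_lit 0, nat_lit 0, nat_lit 0, [],
 ⟨p049_k21, nat_lit 0, nat_lit 0, nat_lit 0, nat_lit 0, nat_lit 15123, [nat_lit 2032000001, nat_lit 3965500000, nat_lit 5449500000, nat_lit 7968000000], [], [nat_lit 16256909015, nat_lit 16641657122, nat_lit 15604055877, nat_lit 15955587286, nat_lit 22032000929, nat_lit 22335258040, nat_lit 20886640002, nat_lit 21165555783], nat_lit 1271250, nat_lit 1271250, nat_lit 230001, nat_lit 780000, nat_lit 1271250, nat_lit 1271250, [nat_lit 490000, nat_lit 936250, nat_lit 1271250, nat_lit 1271250], [nat_lit 138, nat_lit 40, nat_lit 20, nat_lit 40]⟩, ⟨p049_k22, nat_lit 0, nat_lit 0, nat_lit 238, nat_lit 0, nat_lit 15123, [nat_lit 4688000000, nat_lit 6250000000, nat_lit 7968000000], [], [nat_lit 19393885117,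 nat_lit 19887293428, nat_lit 17915459899, nat_lit 18314779356, nat_lit 23915537883, nat_lit 24196448104, nat_lit 22474301809, nat_lit 21887694866], nat_lit 1271250, nat_lit 1271250, nat_lit 230001, nat_lit 780000, nat_lit 0, nat_lit 2231750, [nat_lit 1100000, nat_lit 1442500, nat_lit 1271250], [nat_lit 9, nat_lit 40, nat_lit 40, nat_lit 80, nat_lit 2, nat_lit 345, nat_lit 125, nat_lit 12]⟩,
 zbF0, [⟨nat_lit 0, nat_lit 100, nat_lit 100, nat_lit 70, nat_lit 501039096⟩, ⟨nat_lit 4, nat_lit 92, nat_lit 100, nat_lit 81, nat_lit 450531751⟩, ⟨nat_lit 11, nat_lit 100, nat_lit 100, nat_lit 89, nat_lit 283936015⟩]⟩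
noncomputable def p049_l45 : Lf2 := ⟨nat_lit 1, nat_lit 10, [nat_lit 0, nat_lit 5, nat_lit 5, nat_lit 20], false, nat_lit 240, nat_lit 320, nat_lit 0, nat_lit 320, zbN0,
 nat_lit 0, nat_lit 0, nat_lit 0, nat_lit 0, nat_lit 0, nat_lit 0, nat_lit 0, nat_lit 0, nat_lit 0, nat_lit 0, nat_lit 0, nat_lit 0, nat_lit 0, nat_lit 0, nat_lit 0, nat_lit 0, nat_lit 0, nat_lit 0, [],
 C1.Rw.none, C1.Rw.none,
 zbF0, []⟩
noncomputable def b_V_600_600_10_70 : St := ⟨true, nat_lit 1, nat_lit 1, nat_lit 1, nat_lit 80, nat_lit 260, nat_lit 270, nat_lit 260, nat_lit 280, nat_lit 36, nat_lit 120, nat_lit 40, nat_lit 80, nat_lit 240, nat_lit 320, nat_lit 0, nat_lit 320, nat_lit 20, nat_lit 40, nat_lit 300, nat_lit 600, nat_lit 0, nat_lit 0⟩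
theorem d_V_600_600_10_70 (h : EB TB.env) : Dead b_V_600_600_10_70 := chkB_sound0 h (T :=
(.ord (.spl (nat_lit 3) (nat_lit 60)
(.trX (nat_lit 16) (nat_lit 100) (nat_lit 92) (nat_lit 75) (nat_lit 296) (.trX (nat_lit 19) (nat_lit 100) (nat_lit 92) (nat_lit 75) (nat_lit 296) (.spl (nat_lit 2) (nat_lit 80)
(.spl (nat_lit 8) (nat_lit 800)
(.spl (nat_lit 5) (nat_lit 160)
(.leaf p049_l37)
(.spl (nat_lit 5) (nat_lit 240)
(.leaf p049_l38)
(.spl (nat_lit 8) (nat_lit 400)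
(.leaf p049_l39)
(.leaf p049_l40))))
(.leaf p049_l41))
(.leaf p049_l42))))
(.spl (nat_lit 6) (nat_lit 24)
(.spl (nat_lit 1) (nat_lit 265)
(.leaf p049_l43)
(.ord (.trZ (nat_lit 0) (nat_lit 100) (nat_lit 100) (nat_lit 65) (nat_lit 40) (.trX (nat_lit 16) (nat_lit 100) (nat_lit 87) (nat_lit 85) (nat_lit 316) (.trX (nat_lit 19) (nat_lit 100) (nat_lit 87) (nat_lit 85) (nat_lit 316) (.leaf p049_l44))))))
(.leaf p049_l45))))) (by decide +kernel)
noncomputable def p049_l46 : Lf2 := ⟨nat_lit 0, nat_lit 10, [nat_lit 0, nat_lit 5, nat_lit 5, nat_lit 20], false, nat_lit 240, nat_lit 288, nat_lit 0, nat_lit 160, ⟨nat_lit 1000, nat_lit 0, nat_lit 0, nat_lit 0, nat_lit 0, nat_lit 0, nat_lit 0, nat_lit 0, nat_lit 0, nat_lit 0, nat_lit 0, nat_lit 0, nat_lit 0, nat_lit 0, nat_lit 0, nat_lit 0, false, false⟩,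
 nat_lit 19213, nat_lit 956, nat_lit 0, nat_lit 0, nat_lit 12283, nat_lit 11183, nat_lit 582, nat_lit 0, nat_lit 0, nat_lit 2174, nat_lit 0, nat_lit 0, nat_lit 0, nat_lit 0, nat_lit 0, nat_lit 0, nat_lit 0, nat_lit 0, [],
 ⟨p049_k23, nat_lit 0, nat_lit 0, nat_lit 0, nat_lit 0, nat_lit 221878, [nat_lit 3965500000, nat_lit 5449500000, nat_lit 8885500000], [], [nat_lit 20892809955, nat_lit 21824026622, nat_lit 16647904302, nat_lit 17486387958, nat_lit 25049882891, nat_lit 25830943438, nat_lit 20394363987, nat_lit 21098009492], nat_lit 1271250, nat_lit 1271250, nat_lit 230001, nat_lit 780000, nat_lit 1271250, nat_lit 1271250, [nat_lit 936250, nat_lit 1271250, nat_lit 1271250], [nat_lit 168, nat_lit 40, nat_lit 20, nat_lit 40]⟩, ⟨p049_k8, nat_lit 0, nat_lit 0, nat_lit 346, nat_lit 0, nat_lit 234342, [nat_lit 4688000000, nat_lit 6250000000, nat_lit 9842000000], [], [nat_lit 22659993158, nat_lit 25063817792, nat_lit 18233407088,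 nat_lit 20432202750, nat_lit 19975853316, nat_lit 15180315626, nat_lit 25698427218, nat_lit 20499428152], nat_lit 1271250, nat_lit 1271250, nat_lit 230001, nat_lit 780000, nat_lit 0, nat_lit 1100001, [nat_lit 1100000, nat_lit 1442500, nat_lit 1271250], [nat_lit 11, nat_lit 40, nat_lit 40, nat_lit 80, nat_lit 1, nat_lit 373, nat_lit 150, nat_lit 11]⟩,
 zbF0, [⟨nat_lit 0, nat_lit 100, nat_lit 99, nat_lit 72, nat_lit 579510626⟩, ⟨nat_lit 4, nat_lit 100, nat_lit 98, nat_lit 70, nat_lit 952750803⟩]⟩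
noncomputable def p049_l47 : Lf2 := ⟨nat_lit 0, nat_lit 10, [nat_lit 0, nat_lit 5, nat_lit 5, nat_lit 20], false, nat_lit 240, nat_lit 288, nat_lit 160, nat_lit 240, ⟨nat_lit 1000, nat_lit 0, nat_lit 0, nat_lit 0, nat_lit 0, nat_lit 0, nat_lit 0, nat_lit 0, nat_lit 0, nat_lit 0, nat_lit 0, nat_lit 0, nat_lit 0, nat_lit 0, nat_lit 0, nat_lit 0, false, false⟩,
 nat_lit 22878, nat_lit 0, nat_lit 0, nat_lit 0, nat_lit 13933, nat_lit 13317, nat_lit 804, nat_lit 0, nat_lit 0, nat_lit 1650, nat_lit 0, nat_lit 0, nat_lit 0, nat_lit 9612010129701, nat_lit 0, nat_lit 0, nat_lit 0, nat_lit 0, [],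
 ⟨p049_k11, nat_lit 0, nat_lit 0, nat_lit 0, nat_lit 0, nat_lit 221878, [nat_lit 4688000000, nat_lit 6250000000, nat_lit 9842000000], [], [nat_lit 21681654636, nat_lit 22621637180, nat_lit 18208267156, nat_lit 19108782964, nat_lit 26173317122, nat_lit 27530110643, nat_lit 22512640756, nat_lit 23260273600], nat_lit 1271250, nat_lit 1271250, nat_lit 230001, nat_lit 490000, nat_lit 1271250, nat_lit 1271250, [nat_lit 1100000, nat_lit 1442500, nat_lit 1271250], [nat_lit 11, nat_lit 40, nat_lit 40, nat_lit 80]⟩, ⟨p049_k8, nat_lit 0, nat_lit 0, nat_lit 195, nat_lit 0, nat_lit 234342, [nat_lit 4688000000, nat_lit 6250000000, nat_lit 9842000000], [], [nat_lit 14010277428, nat_lit 16281938374, nat_lit 10898958254, nat_lit 13076671298, nat_lit 17979035158, nat_lit 19904445340, nat_lit 14728785902, nat_lit 16476378286], nat_lit 1271250, nat_lit 1271250, nat_lit 230001, nat_lit 490000, nat_lit 1100001, nat_lit 1785000, [nat_lit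 1100000, nat_lit 1442500, nat_lit 1271250], [nat_lit 11, nat_lit 40, nat_lit 40, nat_lit 80, nat_lit 1, nat_lit 373, nat_lit 150, nat_lit 11]⟩,
 zbF0, [⟨nat_lit 0, nat_lit 100, nat_lit 99, nat_lit 72, nat_lit 1534053086⟩, ⟨nat_lit 16, nat_lit 98, nat_lit 100, nat_lit 70, nat_lit 1026375259⟩]⟩
noncomputable def p049_l48 : Lf2 := ⟨nat_lit 0, nat_lit 10, [nat_lit 0, nat_lit 5, nat_lit 5, nat_lit 20], false, nat_lit 240, nat_lit 260, nat_lit 240, nat_lit 296, ⟨nat_lit 292, nat_lit 0, nat_lit 708, nat_lit 6, nat_lit 122, nat_lit 708, nat_lit 174, nat_lit 708, nat_lit 112067, nat_lit 297, nat_lit 141067, nat_lit 307, nat_lit 50215347, nat_lit 0, nat_lit 0, nat_lit 3882992, false, false⟩,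
 nat_lit 5026, nat_lit 4101, nat_lit 0, nat_lit 0, nat_lit 5558, nat_lit 2925, nat_lit 577, nat_lit 0, nat_lit 0, nat_lit 434, nat_lit 0, nat_lit 0, nat_lit 0, nat_lit 0, nat_lit 0, nat_lit 283200, nat_lit 0, nat_lit 0, [(nat_lit 9, [(nat_lit 5, nat_lit 708)])],
 ⟨p049_k14, nat_lit 0, nat_lit 0, nat_lit 0, nat_lit 0, nat_lit 171565, [nat_lit 2449587200, nat_lit 1405972800, nat_lit 1155689600], [], [nat_lit 16617995611, nat_lit 16896333383, nat_lit 15735303818, nat_lit 15987300835, nat_lit 17722432366, nat_lit 17995863649, nat_lit 16733268982, nat_lit 16982042715], nat_lit 1271250, nat_lit 1271250, nat_lit 230001, nat_lit 490000, nat_lit 1271250, nat_lit 1271250, [nat_lit 1100000, nat_lit 1785000, nat_lit 1271250], [nat_lit 29, nat_lit 40, nat_lit 40, nat_lit 80]⟩, ⟨p049_k19, nat_lit 0, nat_lit 0, nat_lit 203, nat_lit 0, nat_lit 181203, [nat_lit 1368896000, nat_lit 2326656000, nat_lit 2873864000], [], [nat_lit 5459759512,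 nat_lit 5792972698, nat_lit 4797990680, nat_lit 5118020084, nat_lit 6826156537, nat_lit 7241057242, nat_lit 6143945301, nat_lit 6444528033], nat_lit 1271250, nat_lit 1271250, nat_lit 230001, nat_lit 490000, nat_lit 1271250, nat_lit 1271250, [nat_lit 1100000, nat_lit 1785000, nat_lit 1271250], [nat_lit 29, nat_lit 40, nat_lit 40, nat_lit 80, nat_lit 17, nat_lit 401, nat_lit 175, nat_lit 11]⟩,
 ⟨nat_lit 5590, nat_lit 5701, ⟨.ofNat (nat_lit 257148), .ofNat (nat_lit 333867), .ofNat (nat_lit 273155), .ofNat (nat_lit 349874), .ofNat (nat_lit 260751), .ofNat (nat_lit 336574), .ofNat (nat_lit 276762), .ofNat (nat_lit 352585)⟩, ⟨.ofNat (nat_lit 405982), .ofNat (nat_lit 444341), .ofNat (nat_lit 427324), .ofNat (nat_lit 465683), .ofNat (nat_lit 405038), .ofNat (nat_lit 442949), .ofNat (nat_lit 426386), .ofNat (nat_lit 464297)⟩⟩, [⟨nat_lit 0, nat_lit 100, nat_lit 99, nat_lit 70, nat_lit 488036697⟩, ⟨nat_lit 4, nat_lit 100, nat_lit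 99, nat_lit 70, nat_lit 10507730⟩, ⟨nat_lit 7, nat_lit 99, nat_lit 100, nat_lit 70, nat_lit 284590090⟩]⟩
noncomputable def p049_l49 : Lf2 := ⟨nat_lit 0, nat_lit 10, [nat_lit 0, nat_lit 5, nat_lit 5, nat_lit 20], false, nat_lit 240, nat_lit 260, nat_lit 240, nat_lit 296, ⟨nat_lit 329, nat_lit 0, nat_lit 671, nat_lit 6, nat_lit 126, nat_lit 671, nat_lit 174, nat_lit 671, nat_lit 121641, nat_lit 300, nat_lit 147267, nat_lit 309, nat_lit 49982542, nat_lit 0, nat_lit 0, nat_lit 3926657, false, false⟩,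
 nat_lit 5622, nat_lit 3408, nat_lit 0, nat_lit 0, nat_lit 5622, nat_lit 3272, nat_lit 591, nat_lit 0, nat_lit 0, nat_lit 456, nat_lit 0, nat_lit 0, nat_lit 0, nat_lit 0, nat_lit 0, nat_lit 268400, nat_lit 0, nat_lit 0, [(nat_lit 9, [(nat_lit 5, nat_lit 671)])],
 ⟨p049_k24, nat_lit 0, nat_lit 0, nat_lit 0, nat_lit 0, nat_lit 216057, [nat_lit 2566566400, nat_lit 1748903601, nat_lit 1609635200], [], [nat_lit 16925239549, nat_lit 17204062556, nat_lit 16050891141, nat_lit 16308544426, nat_lit 18016423552, nat_lit 18323754140, nat_lit 17098183469, nat_lit 17383522522], nat_lit 1271250, nat_lit 1271250, nat_lit 254650, nat_lit 490000, nat_lit 1271250, nat_lit 1271250, [nat_lit 1100000, nat_lit 1785000, nat_lit 1271250], [nat_lit 29, nat_lit 40, nat_lit 40, nat_lit 80]⟩, ⟨p049_k19, nat_lit 0, nat_lit 0, nat_lit 224, nat_lit 0, nat_lit 234342, [nat_lit 1542352000, nat_lit 2621472000, nat_lit 3238018000], [], [nat_lit 6250377389,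 nat_lit 6746825336, nat_lit 5585658692, nat_lit 6064383200, nat_lit 7677855207, nat_lit 8213895585, nat_lit 6991868060, nat_lit 7441562541], nat_lit 1271250, nat_lit 1271250, nat_lit 254650, nat_lit 490000, nat_lit 1271250, nat_lit 1271250, [nat_lit 1100000, nat_lit 1785000, nat_lit 1271250], [nat_lit 29, nat_lit 40, nat_lit 40, nat_lit 80, nat_lit 17, nat_lit 401, nat_lit 175, nat_lit 11]⟩,
 ⟨nat_lit 5477, nat_lit 5591, ⟨.ofNat (nat_lit 268334), .ofNat (nat_lit 336574), .ofNat (nat_lit 289681), .ofNat (nat_lit 357922), .ofNat (nat_lit 271831), .ofNat (nat_lit 339271), .ofNat (nat_lit 293188), .ofNat (nat_lit 360628)⟩, ⟨.ofNat (nat_lit 405038), .ofNat (nat_lit 442949), .ofNat (nat_lit 426386), .ofNat (nat_lit 464297), .ofNat (nat_lit 404075), .ofNat (nat_lit 441542), .ofNat (nat_lit 425432), .ofNat (nat_lit 462899)⟩⟩, [⟨nat_lit 0, nat_lit 100, nat_lit 98, nat_lit 73, nat_lit 528171014⟩, ⟨nat_lit 7, nat_lit 100, nat_lit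 100, nat_lit 71, nat_lit 289930750⟩]⟩
noncomputable def p049_l50 : Lf2 := ⟨nat_lit 0, nat_lit 10, [nat_lit 0, nat_lit 5, nat_lit 5, nat_lit 20], false, nat_lit 260, nat_lit 288, nat_lit 240, nat_lit 296, ⟨nat_lit 117, nat_lit 0, nat_lit 883, nat_lit 6, nat_lit 121, nat_lit 883, nat_lit 192, nat_lit 883, nat_lit 22024, nat_lit 249, nat_lit 135000, nat_lit 305, nat_lit 48713230, nat_lit 0, nat_lit 0, nat_lit 4047742, false, false⟩,
 nat_lit 1998, nat_lit 6252, nat_lit 0, nat_lit 0, nat_lit 5024, nat_lit 1162, nat_lit 0, nat_lit 0, nat_lit 0, nat_lit 177, nat_lit 0, nat_lit 0, nat_lit 0, nat_lit 0, nat_lit 36, nat_lit 353200, nat_lit 0, nat_lit 0, [(nat_lit 9, [(nat_lit 5, nat_lit 883)])],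
 ⟨p049_k14, nat_lit 0, nat_lit 0, nat_lit 0, nat_lit 0, nat_lit 149231, [nat_lit 2472307200, nat_lit 648002800, nat_lit 16649600], [], [nat_lit 17688527596, nat_lit 18251252448, nat_lit 16928180682, nat_lit 17470402808, nat_lit 19588126508, nat_lit 20303906708, nat_lit 18528392545, nat_lit 19223152378], nat_lit 1271250, nat_lit 1271250, nat_lit 230001, nat_lit 490000, nat_lit 1271250, nat_lit 1271250, [nat_lit 1100000, nat_lit 1785000, nat_lit 1271250], [nat_lit 29, nat_lit 40, nat_lit 40, nat_lit 80]⟩, ⟨p049_k19, nat_lit 0, nat_lit 0, nat_lit 190, nat_lit 0, nat_lit 157614, [nat_lit 548496000, nat_lit 932256000, nat_lit 1151514000], [], [nat_lit 2176878450, nat_lit 2221154033, nat_lit 1914700352, nat_lit 1957227051, nat_lit 2733314090, nat_lit 2774876591, nat_lit 2463003351, nat_lit 2502952232], nat_lit 1271250, nat_lit 1271250, nat_lit 230001, nat_lit 490000, nat_lit 1271250, nat_lit 1271250, [nat_lit 1100000, nat_lit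 1785000, nat_lit 1271250], [nat_lit 29, nat_lit 40, nat_lit 40, nat_lit 80, nat_lit 17, nat_lit 401, nat_lit 175, nat_lit 11]⟩,
 ⟨nat_lit 5477, nat_lit 5701, ⟨.ofNat (nat_lit 257148), .ofNat (nat_lit 333867), .ofNat (nat_lit 262484), .ofNat (nat_lit 339203), .ofNat (nat_lit 264337), .ofNat (nat_lit 339271), .ofNat (nat_lit 269677), .ofNat (nat_lit 344610)⟩, ⟨.ofNat (nat_lit 444341), .ofNat (nat_lit 498045), .ofNat (nat_lit 465683), .ofNat (nat_lit 519387), .ofNat (nat_lit 441542), .ofNat (nat_lit 493995), .ofNat (nat_lit 462899), .ofNat (nat_lit 515352)⟩⟩, [⟨nat_lit 0, nat_lit 100, nat_lit 98, nat_lit 68, nat_lit 203318402⟩, ⟨nat_lit 4, nat_lit 100, nat_lit 98, nat_lit 70, nat_lit 413179106⟩, ⟨nat_lit 11, nat_lit 100, nat_lit 99, nat_lit 71, nat_lit 109940023⟩]⟩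
noncomputable def p049_l51 : Lf2 := ⟨nat_lit 0, nat_lit 10, [nat_lit 0, nat_lit 5, nat_lit 5, nat_lit 20], false, nat_lit 260, nat_lit 288, nat_lit 240, nat_lit 260, ⟨nat_lit 1000, nat_lit 0, nat_lit 0, nat_lit 0, nat_lit 0, nat_lit 0, nat_lit 0, nat_lit 0, nat_lit 0, nat_lit 0, nat_lit 0, nat_lit 0, nat_lit 0, nat_lit 0, nat_lit 0, nat_lit 0, false, false⟩,
 nat_lit 17802, nat_lit 2226, nat_lit 0, nat_lit 0, nat_lit 12197, nat_lit 10601, nat_lit 124, nat_lit 0, nat_lit 0, nat_lit 1558, nat_lit 0, nat_lit 0, nat_lit 0, nat_lit 0, nat_lit 0, nat_lit 0, nat_lit 0, nat_lit 0, [],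
 ⟨p049_k14, nat_lit 0, nat_lit 0, nat_lit 0, nat_lit 0, nat_lit 163295, [nat_lit 4688000000, nat_lit 7968000001, nat_lit 9842000000], [], [nat_lit 21796799204, nat_lit 22717957241, nat_lit 19199995188, nat_lit 20086649025, nat_lit 24525199696, nat_lit 25753685143, nat_lit 21826047170, nat_lit 22623769256], nat_lit 1271250, nat_lit 1271250, nat_lit 254650, nat_lit 490000, nat_lit 1271250, nat_lit 1271250, [nat_lit 1100000, nat_lit 1785000, nat_lit 1271250], [nat_lit 29, nat_lit 40, nat_lit 40, nat_lit 80]⟩, ⟨p049_k25, nat_lit 0, nat_lit 0, nat_lit 177, nat_lit 0, nat_lit 167776, [nat_lit 4688000000, nat_lit 7968000000, nat_lit 9842000000], [], [nat_lit 17687082282, nat_lit 17922382455, nat_lit 15476526344, nat_lit 15703322437, nat_lit 19273225342, nat_lit 19525489189, nat_lit 17117110911, nat_lit 17360178527], nat_lit 1271250, nat_lit 1271250, nat_lit 254650, nat_lit 490000, nat_lit 1271250, nat_lit 1271250, [nat_lit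 1100000, nat_lit 1785000, nat_lit 1271250], [nat_lit 29, nat_lit 40, nat_lit 40, nat_lit 80, nat_lit 17, nat_lit 401, nat_lit 175, nat_lit 11]⟩,
 zbF0, [⟨nat_lit 0, nat_lit 100, nat_lit 99, nat_lit 67, nat_lit 1341736244⟩, ⟨nat_lit 16, nat_lit 98, nat_lit 100, nat_lit 70, nat_lit 1061683712⟩]⟩
noncomputable def p049_l52 : Lf2 := ⟨nat_lit 0, nat_lit 10, [nat_lit 0, nat_lit 5, nat_lit 5, nat_lit 20], false, nat_lit 260, nat_lit 288, nat_lit 260, nat_lit 292, ⟨nat_lit 1000, nat_lit 0, nat_lit 0, nat_lit 0, nat_lit 0, nat_lit 0, nat_lit 0, nat_lit 0, nat_lit 0, nat_lit 0, nat_lit 0, nat_lit 0, nat_lit 0, nat_lit 0, nat_lit 0, nat_lit 0, false, false⟩,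
 nat_lit 17802, nat_lit 1402, nat_lit 0, nat_lit 0, nat_lit 11695, nat_lit 10601, nat_lit 248, nat_lit 0, nat_lit 0, nat_lit 1558, nat_lit 0, nat_lit 0, nat_lit 0, nat_lit 0, nat_lit 0, nat_lit 0, nat_lit 0, nat_lit 0, [],
 ⟨p049_k26, nat_lit 0, nat_lit 0, nat_lit 0, nat_lit 0, nat_lit 137129, [nat_lit 4688000000, nat_lit 6250000000, nat_lit 7968000001, nat_lit 9842000000], [], [nat_lit 21668397919, nat_lit 22116366052, nat_lit 19205380129, nat_lit 19636687285, nat_lit 24320197692, nat_lit 24767891830, nat_lit 21758367968, nat_lit 22146851517], nat_lit 1271250, nat_lit 1271250, nat_lit 254650, nat_lit 490000, nat_lit 1271250, nat_lit 1271250, [nat_lit 1100000, nat_lit 1442500, nat_lit 1271250, nat_lit 1271250], [nat_lit 199, nat_lit 40, nat_lit 40, nat_lit 80]⟩, ⟨p049_k25, nat_lit 0, nat_lit 0, nat_lit 179, nat_lit 0, nat_lit 140892, [nat_lit 4688000000, nat_lit 7968000000, nat_lit 9842000000], [], [nat_lit 19273225342,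 nat_lit 19525489189, nat_lit 17117110911, nat_lit 17360178527, nat_lit 23371988911, nat_lit 23701126355, nat_lit 20610285675, nat_lit 20929836211], nat_lit 1271250, nat_lit 1271250, nat_lit 254650, nat_lit 490000, nat_lit 1271250, nat_lit 1271250, [nat_lit 1100000, nat_lit 1785000, nat_lit 1271250], [nat_lit 29, nat_lit 40, nat_lit 40, nat_lit 80, nat_lit 17, nat_lit 401, nat_lit 175, nat_lit 11]⟩,
 zbF0, [⟨nat_lit 0, nat_lit 100, nat_lit 99, nat_lit 69, nat_lit 741433050⟩, ⟨nat_lit 4, nat_lit 100, nat_lit 99, nat_lit 70, nat_lit 411612605⟩, ⟨nat_lit 7, nat_lit 98, nat_lit 100, nat_lit 70, nat_lit 664540102⟩, ⟨nat_lit 11, nat_lit 100, nat_lit 100, nat_lit 75, nat_lit 572519774⟩]⟩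
noncomputable def p049_l53 : Lf2 := ⟨nat_lit 0, nat_lit 10, [nat_lit 0, nat_lit 5, nat_lit 5, nat_lit 20], false, nat_lit 260, nat_lit 280, nat_lit 260, nat_lit 292, ⟨nat_lit 533, nat_lit 0, nat_lit 467, nat_lit 6, nat_lit 126, nat_lit 467, nat_lit 189, nat_lit 467, nat_lit 34494, nat_lit 260, nat_lit 147267, nat_lit 309, nat_lit 48649490, nat_lit 0, nat_lit 0, nat_lit 4081404, false, false⟩,
 nat_lit 8550, nat_lit 4149, nat_lit 0, nat_lit 0, nat_lit 7906, nat_lit 5091, nat_lit 267, nat_lit 0, nat_lit 0, nat_lit 793, nat_lit 0, nat_lit 0, nat_lit 0, nat_lit 0, nat_lit 0, nat_lit 115515, nat_lit 0, nat_lit 0, [(nat_lit 9, [(nat_lit 3, nat_lit 19), (nat_lit 4, nat_lit 448)])],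
 ⟨p049_k27, nat_lit 0, nat_lit 0, nat_lit 0, nat_lit 0, nat_lit 159010, [nat_lit 4769523200, nat_lit 3298541201, nat_lit 3848719201, nat_lit 4460714800], [], [nat_lit 19578022534, nat_lit 19929450631, nat_lit 18295949840, nat_lit 18616007503, nat_lit 21030852379, nat_lit 21398558615, nat_lit 19683341489, nat_lit 20002191431], nat_lit 1271250, nat_lit 1271250, nat_lit 279600, nat_lit 490000, nat_lit 1271250, nat_lit 1271250, [nat_lit 1100000, nat_lit 1442500, nat_lit 1271250, nat_lit 1271250], [nat_lit 199, nat_lit 40, nat_lit 40, nat_lit 80]⟩, ⟨p049_k25, nat_lit 0, nat_lit 0, nat_lit 188, nat_lit 0, nat_lit 167776, [nat_lit 2498704000, nat_lit 4246944000, nat_lit 5245786000], [], [nat_lit 10554352701, nat_lit 10666465994, nat_lit 9651339185, nat_lit 9772858706, nat_lit 11974055795, nat_lit 12085975233, nat_lit 11038257040, nat_lit 11146687947], nat_lit 1271250, nat_lit 1271250, nat_lit 279600, nat_lit 490000, nat_lit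 1271250, nat_lit 1271250, [nat_lit 1100000, nat_lit 1785000, nat_lit 1271250], [nat_lit 29, nat_lit 40, nat_lit 40, nat_lit 80, nat_lit 17, nat_lit 401, nat_lit 175, nat_lit 11]⟩,
 ⟨nat_lit 5477, nat_lit 5591, ⟨.ofNat (nat_lit 281253), .ofNat (nat_lit 341911), .ofNat (nat_lit 284455), .ofNat (nat_lit 345113), .ofNat (nat_lit 284663), .ofNat (nat_lit 344610), .ofNat (nat_lit 287867), .ofNat (nat_lit 347813)⟩, ⟨.ofNat (nat_lit 442949), .ofNat (nat_lit 480861), .ofNat (nat_lit 464297), .ofNat (nat_lit 502209), .ofNat (nat_lit 441542), .ofNat (nat_lit 479008), .ofNat (nat_lit 462899), .ofNat (nat_lit 500365)⟩⟩, [⟨nat_lit 0, nat_lit 100, nat_lit 98, nat_lit 71, nat_lit 535148545⟩, ⟨nat_lit 4, nat_lit 100, nat_lit 97, nat_lit 70, nat_lit 475265240⟩, ⟨nat_lit 7, nat_lit 98, nat_lit 100, nat_lit 70, nat_lit 266044685⟩, ⟨nat_lit 11, nat_lit 99, nat_lit 100, nat_lit 73, nat_lit 225415547⟩]⟩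
noncomputable def p049_l54 : Lf2 := ⟨nat_lit 0, nat_lit 10, [nat_lit 0, nat_lit 5, nat_lit 5, nat_lit 20], false, nat_lit 260, nat_lit 288, nat_lit 240, nat_lit 288, ⟨nat_lit 1000, nat_lit 0, nat_lit 0, nat_lit 0, nat_lit 0, nat_lit 0, nat_lit 0, nat_lit 0, nat_lit 0, nat_lit 0, nat_lit 0, nat_lit 0, nat_lit 0, nat_lit 0, nat_lit 0, nat_lit 0, false, false⟩,
 nat_lit 15314, nat_lit 1303, nat_lit 0, nat_lit 0, nat_lit 10120, nat_lit 9243, nat_lit 0, nat_lit 0, nat_lit 94, nat_lit 1511, nat_lit 0, nat_lit 0, nat_lit 0, nat_lit 0, nat_lit 0, nat_lit 0, nat_lit 0, nat_lit 0, [],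
 ⟨p049_k14, nat_lit 0, nat_lit 0, nat_lit 0, nat_lit 0, nat_lit 172776, [nat_lit 4688000000, nat_lit 7968000001, nat_lit 9842000000], [], [nat_lit 20918050713, nat_lit 21734854921, nat_lit 18874780541, nat_lit 19661972041, nat_lit 23329519542, nat_lit 24144363732, nat_lit 21198533273, nat_lit 21910382625], nat_lit 1271250, nat_lit 1271250, nat_lit 254650, nat_lit 490000, nat_lit 1271250, nat_lit 1271250, [nat_lit 1100000, nat_lit 1785000, nat_lit 1271250], [nat_lit 29, nat_lit 40, nat_lit 40, nat_lit 80]⟩, ⟨p049_k28, nat_lit 0, nat_lit 0, nat_lit 193, nat_lit 0, nat_lit 174647, [nat_lit 4688000000, nat_lit 7968000000, nat_lit 9842000000], [], [nat_lit 18438025639, nat_lit 18582526799, nat_lit 16585725353, nat_lit 16729355274, nat_lit 22245201487, nat_lit 22447602228, nat_lit 20358995194, nat_lit 20494113221], nat_lit 1271250, nat_lit 1271250, nat_lit 254650, nat_lit 490000, nat_lit 1271250, nat_lit 1271250, [nat_lit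 1100000, nat_lit 1785000, nat_lit 1271250], [nat_lit 29, nat_lit 40, nat_lit 40, nat_lit 80, nat_lit 17, nat_lit 401, nat_lit 175, nat_lit 11]⟩,
 zbF0, [⟨nat_lit 0, nat_lit 100, nat_lit 99, nat_lit 72, nat_lit 761240924⟩, ⟨nat_lit 4, nat_lit 100, nat_lit 98, nat_lit 70, nat_lit 451741583⟩, ⟨nat_lit 19, nat_lit 100, nat_lit 99, nat_lit 70, nat_lit 463369040⟩, ⟨nat_lit 11, nat_lit 100, nat_lit 98, nat_lit 68, nat_lit 462883085⟩]⟩
noncomputable def p049_l55 : Lf2 := ⟨nat_lit 0, nat_lit 10, [nat_lit 0, nat_lit 5, nat_lit 5, nat_lit 20], false, nat_lit 260, nat_lit 288, nat_lit 240, nat_lit 288, ⟨nat_lit 1000, nat_lit 0, nat_lit 0, nat_lit 0, nat_lit 0, nat_lit 0, nat_lit 0, nat_lit 0, nat_lit 0, nat_lit 0, nat_lit 0, nat_lit 0, nat_lit 0, nat_lit 0, nat_lit 0, nat_lit 0, false, false⟩,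
 nat_lit 16521, nat_lit 0, nat_lit 0, nat_lit 0, nat_lit 10061, nat_lit 9021, nat_lit 0, nat_lit 0, nat_lit 99, nat_lit 1503, nat_lit 0, nat_lit 0, nat_lit 0, nat_lit 383656300997, nat_lit 0, nat_lit 0, nat_lit 0, nat_lit 0, [],
 ⟨p049_k14, nat_lit 0, nat_lit 0, nat_lit 0, nat_lit 0, nat_lit 221878, [nat_lit 4688000000, nat_lit 7968000001, nat_lit 9842000000], [], [nat_lit 20603128547, nat_lit 21413693582, nat_lit 18800865176, nat_lit 19585231313, nat_lit 22995894453, nat_lit 23807815670, nat_lit 21116030688, nat_lit 21825440709], nat_lit 1271250, nat_lit 1271250, nat_lit 279600, nat_lit 490000, nat_lit 1271250, nat_lit 1271250, [nat_lit 1100000, nat_lit 1785000, nat_lit 1271250], [nat_lit 29, nat_lit 40, nat_lit 40, nat_lit 80]⟩, ⟨p049_k14, nat_lit 0, nat_lit 0, nat_lit 213, nat_lit 0, nat_lit 221878, [nat_lit 4688000000, nat_lit 7968000000, nat_lit 9842000000], [], [nat_lit 18301793806, nat_lit 19019273136, nat_lit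 16704922303, nat_lit 17488165084, nat_lit 22041664861, nat_lit 23039727082, nat_lit 20414289563, nat_lit 21080701200], nat_lit 1271250, nat_lit 1271250, nat_lit 279600, nat_lit 490000, nat_lit 1271250, nat_lit 1271250, [nat_lit 1100000, nat_lit 1785000, nat_lit 1271250], [nat_lit 29, nat_lit 40, nat_lit 40, nat_lit 80, nat_lit 17, nat_lit 401, nat_lit 175, nat_lit 11]⟩,
 zbF0, [⟨nat_lit 0, nat_lit 100, nat_lit 100, nat_lit 75, nat_lit 764319229⟩, ⟨nat_lit 16, nat_lit 98, nat_lit 100, nat_lit 70, nat_lit 467930778⟩, ⟨nat_lit 7, nat_lit 100, nat_lit 98, nat_lit 70, nat_lit 486432895⟩, ⟨nat_lit 11, nat_lit 100, nat_lit 98, nat_lit 68, nat_lit 438117303⟩]⟩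
noncomputable def p049_l56 : Lf2 := ⟨nat_lit 0, nat_lit 10, [nat_lit 0, nat_lit 5, nat_lit 5, nat_lit 20], false, nat_lit 260, nat_lit 288, nat_lit 240, nat_lit 296, ⟨nat_lit 1000, nat_lit 0, nat_lit 0, nat_lit 0, nat_lit 0, nat_lit 0, nat_lit 0, nat_lit 0, nat_lit 0, nat_lit 0, nat_lit 0, nat_lit 0, nat_lit 0, nat_lit 0, nat_lit 0, nat_lit 0, false, false⟩,
 nat_lit 20296, nat_lit 32295, nat_lit 0, nat_lit 0, nat_lit 32029, nat_lit 11814, nat_lit 3780, nat_lit 0, nat_lit 0, nat_lit 1566, nat_lit 0, nat_lit 0, nat_lit 0, nat_lit 0, nat_lit 0, nat_lit 0, nat_lit 5384990768, nat_lit 0, [],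
 ⟨p049_k14, nat_lit 0, nat_lit 0, nat_lit 0, nat_lit 0, nat_lit 221878, [nat_lit 4688000000, nat_lit 7968000001, nat_lit 9842000000], [], [nat_lit 8757954929, nat_lit 10684547052, nat_lit 0, nat_lit 1837091791, nat_lit 15237286998, nat_lit 17425877753, nat_lit 6445379526, nat_lit 8535386196], nat_lit 1271250, nat_lit 1271250, nat_lit 230001, nat_lit 490000, nat_lit 1271250, nat_lit 1271250, [nat_lit 1100000, nat_lit 1785000, nat_lit 1271250], [nat_lit 29, nat_lit 40, nat_lit 40, nat_lit 80]⟩, ⟨p049_k19, nat_lit 0, nat_lit 0, nat_lit 227, nat_lit 0, nat_lit 234342, [nat_lit 4688000000, nat_lit 7968000000, nat_lit 9842000000], [], [nat_lit 17502048136, nat_lit 19292694280, nat_lit 14699945384, nat_lit 16317816256, nat_lit 24564342867, nat_lit 26897807343, nat_lit 21057198367, nat_lit 23315011764], nat_lit 1271250, nat_lit 1271250, nat_lit 230001, nat_lit 490000, nat_lit 1271250, nat_lit 1271250, [nat_lit 1100000, nat_lit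 1785000, nat_lit 1271250], [nat_lit 29, nat_lit 40, nat_lit 40, nat_lit 80, nat_lit 17, nat_lit 401, nat_lit 175, nat_lit 11]⟩,
 zbF0, [⟨nat_lit 0, nat_lit 100, nat_lit 100, nat_lit 80, nat_lit 2123246334⟩, ⟨nat_lit 4, nat_lit 100, nat_lit 98, nat_lit 70, nat_lit 2229372468⟩, ⟨nat_lit 7, nat_lit 100, nat_lit 100, nat_lit 71, nat_lit 1291803029⟩]⟩
noncomputable def p049_l57 : Lf2 := ⟨nat_lit 0, nat_lit 10, [nat_lit 0, nat_lit 5, nat_lit 5, nat_lit 20], false, nat_lit 240, nat_lit 288, nat_lit 160, nat_lit 296, ⟨nat_lit 528, nat_lit 0, nat_lit 472, nat_lit 6, nat_lit 154, nat_lit 472, nat_lit 184, nat_lit 472, nat_lit 22024, nat_lit 249, nat_lit 224267, nat_lit 331, nat_lit 47004701, nat_lit 0, nat_lit 0, nat_lit 4364094, false, false⟩,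
 nat_lit 13239, nat_lit 0, nat_lit 0, nat_lit 0, nat_lit 6613, nat_lit 7706, nat_lit 823, nat_lit 0, nat_lit 0, nat_lit 262, nat_lit 0, nat_lit 0, nat_lit 0, nat_lit 0, nat_lit 0, nat_lit 146200, nat_lit 0, nat_lit 0, [(nat_lit 9, [(nat_lit 4, nat_lit 284), (nat_lit 5, nat_lit 188)])],
 ⟨p049_k14, nat_lit 0, nat_lit 0, nat_lit 0, nat_lit 0, nat_lit 221878, [nat_lit 3642854400, nat_lit 3698849601, nat_lit 4259241600], [], [nat_lit 16678578474, nat_lit 17224691273, nat_lit 16436194077, nat_lit 16952486249, nat_lit 19418412765, nat_lit 19935473112, nat_lit 18925860798, nat_lit 19463340337], nat_lit 1271250, nat_lit 1271250, nat_lit 490000, nat_lit 780000, nat_lit 1271250, nat_lit 1271250, [nat_lit 1100000, nat_lit 1785000, nat_lit 1271250], [nat_lit 29, nat_lit 40, nat_lit 40, nat_lit 80]⟩, ⟨p049_k19, nat_lit 0, nat_lit 0, nat_lit 195, nat_lit 0, nat_lit 234342, [nat_lit 2475264000, nat_lit 4207104000, nat_lit 5196576000],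 [], [nat_lit 7335580136, nat_lit 8563488208, nat_lit 6528780492, nat_lit 7681783536, nat_lit 14511071928, nat_lit 13063383015, nat_lit 16788900212, nat_lit 13176806725], nat_lit 1271250, nat_lit 1271250, nat_lit 490000, nat_lit 780000, nat_lit 1100001, nat_lit 2264500, [nat_lit 1100000, nat_lit 1785000, nat_lit 1271250], [nat_lit 29, nat_lit 40, nat_lit 40, nat_lit 80, nat_lit 17, nat_lit 401, nat_lit 175, nat_lit 11]⟩,
 ⟨nat_lit 5477, nat_lit 5701, ⟨.ofNat (nat_lit 333867), .ofNat (nat_lit 410586), .ofNat (nat_lit 355209), .ofNat (nat_lit 431928), .ofNat (nat_lit 339271), .ofNat (nat_lit 414204), .ofNat (nat_lit 360628), .ofNat (nat_lit 435561)⟩, ⟨.ofNat (nat_lit 405982), .ofNat (nat_lit 498045), .ofNat (nat_lit 427324), .ofNat (nat_lit 519387), .ofNat (nat_lit 404075), .ofNat (nat_lit 493995), .ofNat (nat_lit 425432), .ofNat (nat_lit 515352)⟩⟩, [⟨nat_lit 16, nat_lit 100, nat_lit 97, nat_lit 76, nat_lit 532478339⟩,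 ⟨nat_lit 19, nat_lit 100, nat_lit 92, nat_lit 75, nat_lit 374440950⟩]⟩
noncomputable def p049_l58 : Lf2 := ⟨nat_lit 0, nat_lit 10, [nat_lit 0, nat_lit 5, nat_lit 5, nat_lit 20], false, nat_lit 240, nat_lit 308, nat_lit 0, nat_lit 160, ⟨nat_lit 1000, nat_lit 0, nat_lit 0, nat_lit 0, nat_lit 0, nat_lit 0, nat_lit 0, nat_lit 0, nat_lit 0, nat_lit 0, nat_lit 0, nat_lit 0, nat_lit 0, nat_lit 0, nat_lit 0, nat_lit 0, false, false⟩,
 nat_lit 17741, nat_lit 0, nat_lit 0, nat_lit 10812, nat_lit 10804, nat_lit 10326, nat_lit 737, nat_lit 0, nat_lit 0, nat_lit 2342, nat_lit 0, nat_lit 0, nat_lit 0, nat_lit 0, nat_lit 0, nat_lit 0, nat_lit 0, nat_lit 0, [],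
 ⟨p049_k23, nat_lit 0, nat_lit 0, nat_lit 0, nat_lit 0, nat_lit 113428, [nat_lit 3965500000, nat_lit 5449500000, nat_lit 8885500000], [], [nat_lit 21077885415, nat_lit 21934192211, nat_lit 17531646051, nat_lit 18304710579, nat_lit 26753949259, nat_lit 27418658173, nat_lit 22664325614, nat_lit 23265482288], nat_lit 1271250, nat_lit 1271250, nat_lit 230001, nat_lit 780000, nat_lit 1271250, nat_lit 1271250, [nat_lit 936250, nat_lit 1271250, nat_lit 1271250], [nat_lit 168, nat_lit 40, nat_lit 20, nat_lit 40]⟩, ⟨p049_k8, nat_lit 0, nat_lit 0, nat_lit 305, nat_lit 0, nat_lit 119946, [nat_lit 4688000000, nat_lit 6250000000, nat_lit 9842000000], [], [nat_lit 21515497026, nat_lit 23789439282, nat_lit 17556224486, nat_lit 19638713250, nat_lit 21079814052, nat_lit 16147207764, nat_lit 26532438096, nat_lit 21731860044], nat_lit 1271250, nat_lit 1271250, nat_lit 230001, nat_lit 780000, nat_lit 0, nat_lit 1100001, [nat_lit 1100000,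 nat_lit 1442500, nat_lit 1271250], [nat_lit 11, nat_lit 40, nat_lit 40, nat_lit 80, nat_lit 1, nat_lit 373, nat_lit 150, nat_lit 11]⟩,
 zbF0, [⟨nat_lit 0, nat_lit 100, nat_lit 99, nat_lit 72, nat_lit 537489976⟩, ⟨nat_lit 4, nat_lit 96, nat_lit 100, nat_lit 82, nat_lit 785803998⟩]⟩
noncomputable def p049_l59 : Lf2 := ⟨nat_lit 0, nat_lit 10, [nat_lit 0, nat_lit 5, nat_lit 5, nat_lit 20], false, nat_lit 240, nat_lit 308, nat_lit 160, nat_lit 240, ⟨nat_lit 1000, nat_lit 0, nat_lit 0, nat_lit 0, nat_lit 0, nat_lit 0, nat_lit 0, nat_lit 0, nat_lit 0, nat_lit 0, nat_lit 0, nat_lit 0, nat_lit 0, nat_lit 0, nat_lit 0, nat_lit 0, false, false⟩,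
 nat_lit 25798, nat_lit 0, nat_lit 0, nat_lit 0, nat_lit 8337, nat_lit 15016, nat_lit 1434, nat_lit 0, nat_lit 0, nat_lit 1047, nat_lit 0, nat_lit 0, nat_lit 0, nat_lit 3017394466390, nat_lit 0, nat_lit 0, nat_lit 0, nat_lit 0, [],
 ⟨p049_k14, nat_lit 0, nat_lit 0, nat_lit 0, nat_lit 0, nat_lit 113428, [nat_lit 4688000000, nat_lit 7968000001, nat_lit 9842000000], [], [nat_lit 19364378454, nat_lit 20048243270, nat_lit 17572924734, nat_lit 18230708446, nat_lit 24380576432, nat_lit 25121805778, nat_lit 22495102879, nat_lit 23087751840], nat_lit 1271250, nat_lit 1271250, nat_lit 230001, nat_lit 490000, nat_lit 1271250, nat_lit 1271250, [nat_lit 1100000, nat_lit 1785000, nat_lit 1271250], [nat_lit 29, nat_lit 40, nat_lit 40, nat_lit 80]⟩, ⟨p049_k19, nat_lit 0, nat_lit 0, nat_lit 169, nat_lit 0, nat_lit 119946, [nat_lit 4688000000, nat_lit 7968000000, nat_lit 9842000000], [], [nat_lit 14425998244, nat_lit 16904492052, nat_lit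 10820912292, nat_lit 13195254004, nat_lit 18618497284, nat_lit 20597595860, nat_lit 15650979040, nat_lit 16756644628], nat_lit 1271250, nat_lit 1271250, nat_lit 230001, nat_lit 490000, nat_lit 1100001, nat_lit 1785000, [nat_lit 1100000, nat_lit 1785000, nat_lit 1271250], [nat_lit 29, nat_lit 40, nat_lit 40, nat_lit 80, nat_lit 17, nat_lit 373, nat_lit 150, nat_lit 11]⟩,
 zbF0, [⟨nat_lit 0, nat_lit 100, nat_lit 99, nat_lit 72, nat_lit 1382063890⟩, ⟨nat_lit 0, nat_lit 100, nat_lit 100, nat_lit 80, nat_lit 3571397⟩, ⟨nat_lit 4, nat_lit 96, nat_lit 100, nat_lit 82, nat_lit 735500279⟩]⟩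
noncomputable def p049_l60 : Lf2 := ⟨nat_lit 0, nat_lit 8, [nat_lit 50, nat_lit 5, nat_lit 5, nat_lit 20], false, nat_lit 240, nat_lit 280, nat_lit 240, nat_lit 320, ⟨nat_lit 1000, nat_lit 0, nat_lit 0, nat_lit 0, nat_lit 0, nat_lit 0, nat_lit 0, nat_lit 0, nat_lit 0, nat_lit 0, nat_lit 0, nat_lit 0, nat_lit 0, nat_lit 0, nat_lit 0, nat_lit 0, false, false⟩,
 nat_lit 14378, nat_lit 0, nat_lit 0, nat_lit 0, nat_lit 5848, nat_lit 8369, nat_lit 0, nat_lit 0, nat_lit 0, nat_lit 1794, nat_lit 0, nat_lit 0, nat_lit 0, nat_lit 5148604643415, nat_lit 0, nat_lit 0, nat_lit 0, nat_lit 0, [],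
 ⟨p049_k29, nat_lit 0, nat_lit 0, nat_lit 0, nat_lit 0, nat_lit 62226, [nat_lit 3965500000, nat_lit 5449500000, nat_lit 8885500000], [], [nat_lit 16399235176, nat_lit 16796091732, nat_lit 15540188952, nat_lit 15922210108, nat_lit 19308458456, nat_lit 19661043484, nat_lit 18343849856, nat_lit 18683786288], nat_lit 1271250, nat_lit 1271250, nat_lit 230001, nat_lit 490000, nat_lit 1271250, nat_lit 1271250, [nat_lit 936250, nat_lit 1271250, nat_lit 1271250], [nat_lit 168, nat_lit 40, nat_lit 20, nat_lit 40]⟩, ⟨p049_k10, nat_lit 0, nat_lit 0, nat_lit 161, nat_lit 0, nat_lit 65771, [nat_lit 4688000000, nat_lit 6250000000, nat_lit 9842000000], [], [nat_lit 19622591206, nat_lit 20650585294, nat_lit 17847677214, nat_lit 18836434830, nat_lit 25240566860, nat_lit 26014291344, nat_lit 23251220048, nat_lit 23996171974], nat_lit 1271250, nat_lit 1271250, nat_lit 230001, nat_lit 490000, nat_lit 1271250, nat_lit 1271250, [nat_lit 1100000,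 nat_lit 1442500, nat_lit 1271250], [nat_lit 11, nat_lit 40, nat_lit 40, nat_lit 80, nat_lit 1, nat_lit 401, nat_lit 175, nat_lit 11]⟩,
 zbF0, [⟨nat_lit 0, nat_lit 100, nat_lit 100, nat_lit 75, nat_lit 252789305⟩, ⟨nat_lit 11, nat_lit 100, nat_lit 100, nat_lit 77, nat_lit 752160083⟩]⟩
noncomputable def p049_l61 : Lf2 := ⟨nat_lit 0, nat_lit 8, [nat_lit 50, nat_lit 5, nat_lit 5, nat_lit 20], true, nat_lit 240, nat_lit 280, nat_lit 240, nat_lit 320, ⟨nat_lit 0, nat_lit 0, nat_lit 1000, nat_lit 6, nat_lit 124, nat_lit 1000, nat_lit 190, nat_lit 1000, nat_lit 16701, nat_lit 246, nat_lit 144150, nat_lit 308, nat_lit 48707262, nat_lit 0, nat_lit 0, nat_lit 4064760, false, false⟩,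
 nat_lit 0, nat_lit 5514, nat_lit 0, nat_lit 0, nat_lit 3433, nat_lit 0, nat_lit 0, nat_lit 0, nat_lit 0, nat_lit 0, nat_lit 0, nat_lit 0, nat_lit 0, nat_lit 0, nat_lit 39, nat_lit 250000, nat_lit 0, nat_lit 0, [(nat_lit 9, [(nat_lit 4, nat_lit 1000)])],
 ⟨p049_k30, nat_lit 0, nat_lit 0, nat_lit 0, nat_lit 0, nat_lit 61762, [nat_lit 1862400001, nat_lit 1182000001, nat_lit 707600001, nat_lit 77199999], [], [nat_lit 15996574502, nat_lit 16275381616, nat_lit 15916160150, nat_lit 16185996938, nat_lit 18153392964, nat_lit 18442643336, nat_lit 18005077932, nat_lit 18249981156], nat_lit 1271250, nat_lit 1271250, nat_lit 254650, nat_lit 490000, nat_lit 1271250, nat_lit 1271250, [nat_lit 490000, nat_lit 1100000, nat_lit 1442500, nat_lit 1271250], [nat_lit 98, nat_lit 40, nat_lit 40, nat_lit 80]⟩, C1.Rw.none,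
 ⟨nat_lit 5477, nat_lit 5591, ⟨.ofNat (nat_lit 268334), .ofNat (nat_lit 336574), .ofNat (nat_lit 279008), .ofNat (nat_lit 347248), .ofNat (nat_lit 271831), .ofNat (nat_lit 339271), .ofNat (nat_lit 282509), .ofNat (nat_lit 349949)⟩, ⟨.ofNat (nat_lit 426386), .ofNat (nat_lit 502209), .ofNat (nat_lit 447734), .ofNat (nat_lit 523557), .ofNat (nat_lit 425432), .ofNat (nat_lit 500365), .ofNat (nat_lit 446789), .ofNat (nat_lit 521722)⟩⟩, [⟨nat_lit 0, nat_lit 100, nat_lit 98, nat_lit 74, nat_lit 136709274⟩, ⟨nat_lit 4, nat_lit 97, nat_lit 100, nat_lit 82, nat_lit 114427989⟩]⟩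
noncomputable def p049_l62 : Lf2 := ⟨nat_lit 0, nat_lit 8, [nat_lit 50, nat_lit 5, nat_lit 5, nat_lit 20], false, nat_lit 240, nat_lit 280, nat_lit 240, nat_lit 308, ⟨nat_lit 1000, nat_lit 0, nat_lit 0, nat_lit 0, nat_lit 0, nat_lit 0, nat_lit 0, nat_lit 0, nat_lit 0, nat_lit 0, nat_lit 0, nat_lit 0, nat_lit 0, nat_lit 0, nat_lit 0, nat_lit 0, false, false⟩,
 nat_lit 13785, nat_lit 1872, nat_lit 0, nat_lit 0, nat_lit 9748, nat_lit 8395, nat_lit 987, nat_lit 0, nat_lit 0, nat_lit 1438, nat_lit 0, nat_lit 0, nat_lit 0, nat_lit 0, nat_lit 0, nat_lit 0, nat_lit 0, nat_lit 0, [],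
 ⟨p049_k30, nat_lit 0, nat_lit 0, nat_lit 0, nat_lit 0, nat_lit 110361, [nat_lit 2032000001, nat_lit 4688000000, nat_lit 6250000000, nat_lit 7968000000], [], [nat_lit 18708343628, nat_lit 19131169405, nat_lit 17231419428, nat_lit 17642146742, nat_lit 21991269941, nat_lit 22360172220, nat_lit 20421641554, nat_lit 20780291590], nat_lit 1271250, nat_lit 1271250, nat_lit 304850, nat_lit 490000, nat_lit 1271250, nat_lit 1271250, [nat_lit 490000, nat_lit 1100000, nat_lit 1442500, nat_lit 1271250], [nat_lit 98, nat_lit 40, nat_lit 40, nat_lit 80]⟩, ⟨p049_k31, nat_lit 0, nat_lit 0, nat_lit 171, nat_lit 0, nat_lit 113375, [nat_lit 4688000000, nat_lit 7968000000, nat_lit 9842000000], [], [nat_lit 18775895230, nat_lit 19454548639, nat_lit 17509674890, nat_lit 18170995080, nat_lit 23786719480, nat_lit 24465623003, nat_lit 22454320780, nat_lit 23049096664], nat_lit 1271250, nat_lit 1271250, nat_lit 304850, nat_lit 490000, nat_lit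 1271250, nat_lit 1271250, [nat_lit 1100000, nat_lit 1785000, nat_lit 1271250], [nat_lit 29, nat_lit 40, nat_lit 40, nat_lit 80, nat_lit 17, nat_lit 401, nat_lit 175, nat_lit 11]⟩,
 zbF0, [⟨nat_lit 0, nat_lit 100, nat_lit 99, nat_lit 76, nat_lit 559326324⟩, ⟨nat_lit 16, nat_lit 100, nat_lit 97, nat_lit 82, nat_lit 174440271⟩, ⟨nat_lit 7, nat_lit 96, nat_lit 100, nat_lit 82, nat_lit 153598620⟩, ⟨nat_lit 11, nat_lit 100, nat_lit 100, nat_lit 81, nat_lit 596917680⟩]⟩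
noncomputable def p049_l63 : Lf2 := ⟨nat_lit 0, nat_lit 8, [nat_lit 50, nat_lit 5, nat_lit 5, nat_lit 20], false, nat_lit 280, nat_lit 308, nat_lit 240, nat_lit 300, ⟨nat_lit 1000, nat_lit 0, nat_lit 0, nat_lit 0, nat_lit 0, nat_lit 0, nat_lit 0, nat_lit 0, nat_lit 0, nat_lit 0, nat_lit 0, nat_lit 0, nat_lit 0, nat_lit 0, nat_lit 0, nat_lit 0, false, false⟩,
 nat_lit 16683, nat_lit 0, nat_lit 0, nat_lit 9493, nat_lit 8475, nat_lit 9710, nat_lit 1551, nat_lit 0, nat_lit 0, nat_lit 1485, nat_lit 0, nat_lit 0, nat_lit 0, nat_lit 0, nat_lit 0, nat_lit 0, nat_lit 0, nat_lit 0, [],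
 ⟨p049_k32, nat_lit 0, nat_lit 0, nat_lit 0, nat_lit 0, nat_lit 36984, [nat_lit 4688000000, nat_lit 6250000000, nat_lit 7968000001, nat_lit 9842000000], [], [nat_lit 21442132688, nat_lit 21744724233, nat_lit 19556842476, nat_lit 19887986801, nat_lit 24365476005, nat_lit 24811225343, nat_lit 21986316207, nat_lit 22418538499], nat_lit 1271250, nat_lit 1271250, nat_lit 230001, nat_lit 490000, nat_lit 1271250, nat_lit 1271250, [nat_lit 1100000, nat_lit 1442500, nat_lit 1271250, nat_lit 1271250], [nat_lit 199, nat_lit 40, nat_lit 40, nat_lit 80]⟩, ⟨p049_k12, nat_lit 0, nat_lit 0, nat_lit 144, nat_lit 0, nat_lit 39091, [nat_lit 4688000000, nat_lit 7968000000, nat_lit 9842000000], [], [nat_lit 18841660540, nat_lit 19588364820, nat_lit 16666903260, nat_lit 17384242220, nat_lit 23828385065, nat_lit 24518716808, nat_lit 21571419770, nat_lit 22235178025], nat_lit 1271250, nat_lit 1271250, nat_lit 230001, nat_lit 490000, nat_lit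 1271250, nat_lit 1271250, [nat_lit 1100000, nat_lit 1785000, nat_lit 1271250], [nat_lit 29, nat_lit 40, nat_lit 40, nat_lit 80, nat_lit 17, nat_lit 401, nat_lit 175, nat_lit 11]⟩,
 zbF0, [⟨nat_lit 0, nat_lit 100, nat_lit 99, nat_lit 72, nat_lit 316888684⟩, ⟨nat_lit 4, nat_lit 95, nat_lit 100, nat_lit 82, nat_lit 156537790⟩, ⟨nat_lit 11, nat_lit 100, nat_lit 97, nat_lit 76, nat_lit 881803293⟩]⟩
noncomputable def p049_l64 : Lf2 := ⟨nat_lit 0, nat_lit 8, [nat_lit 50, nat_lit 5, nat_lit 5, nat_lit 20], false, nat_lit 280, nat_lit 304, nat_lit 240, nat_lit 300, ⟨nat_lit 1000, nat_lit 0, nat_lit 0, nat_lit 0, nat_lit 0, nat_lit 0, nat_lit 0, nat_lit 0, nat_lit 0, nat_lit 0, nat_lit 0, nat_lit 0, nat_lit 0, nat_lit 0, nat_lit 0, nat_lit 0, false, false⟩,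
 nat_lit 16757, nat_lit 1574, nat_lit 0, nat_lit 0, nat_lit 11413, nat_lit 9753, nat_lit 365, nat_lit 0, nat_lit 0, nat_lit 1488, nat_lit 0, nat_lit 0, nat_lit 0, nat_lit 0, nat_lit 0, nat_lit 0, nat_lit 0, nat_lit 0, [],
 ⟨p049_k33, nat_lit 0, nat_lit 0, nat_lit 0, nat_lit 0, nat_lit 61762, [nat_lit 4688000000, nat_lit 6250000000, nat_lit 7968000000], [], [nat_lit 23679837518, nat_lit 24090513872, nat_lit 21207851599, nat_lit 21602477290, nat_lit 26709013738, nat_lit 27257628090, nat_lit 23598568748, nat_lit 24131442038], nat_lit 1271250, nat_lit 1271250, nat_lit 254650, nat_lit 490000, nat_lit 1271250, nat_lit 1271250, [nat_lit 1100000, nat_lit 1442500, nat_lit 1271250], [nat_lit 9, nat_lit 40, nat_lit 40, nat_lit 80]⟩, ⟨p049_k12, nat_lit 0, nat_lit 0, nat_lit 152, nat_lit 0, nat_lit 67063, [nat_lit 4688000000, nat_lit 7968000000, nat_lit 9842000000], [], [nat_lit 18588919422, nat_lit 19334644909, nat_lit 16620098768,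 nat_lit 17340573079, nat_lit 23583244743, nat_lit 24272659051, nat_lit 21540166111, nat_lit 22205581608], nat_lit 1271250, nat_lit 1271250, nat_lit 254650, nat_lit 490000, nat_lit 1271250, nat_lit 1271250, [nat_lit 1100000, nat_lit 1785000, nat_lit 1271250], [nat_lit 29, nat_lit 40, nat_lit 40, nat_lit 80, nat_lit 17, nat_lit 401, nat_lit 175, nat_lit 11]⟩,
 zbF0, [⟨nat_lit 0, nat_lit 100, nat_lit 98, nat_lit 74, nat_lit 440315627⟩, ⟨nat_lit 4, nat_lit 97, nat_lit 100, nat_lit 82, nat_lit 574489868⟩, ⟨nat_lit 11, nat_lit 100, nat_lit 96, nat_lit 77, nat_lit 880064185⟩]⟩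
noncomputable def p049_l65 : Lf2 := ⟨nat_lit 0, nat_lit 8, [nat_lit 50, nat_lit 5, nat_lit 5, nat_lit 20], false, nat_lit 280, nat_lit 308, nat_lit 240, nat_lit 300, ⟨nat_lit 1000, nat_lit 0, nat_lit 0, nat_lit 0, nat_lit 0, nat_lit 0, nat_lit 0, nat_lit 0, nat_lit 0, nat_lit 0, nat_lit 0, nat_lit 0, nat_lit 0, nat_lit 0, nat_lit 0, nat_lit 0, false, false⟩,
 nat_lit 14110, nat_lit 0, nat_lit 0, nat_lit 10071, nat_lit 8593, nat_lit 8593, nat_lit 1544, nat_lit 0, nat_lit 0, nat_lit 1463, nat_lit 0, nat_lit 0, nat_lit 0, nat_lit 0, nat_lit 0, nat_lit 0, nat_lit 0, nat_lit 0, [],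
 ⟨p049_k32, nat_lit 0, nat_lit 0, nat_lit 0, nat_lit 0, nat_lit 62226, [nat_lit 4688000000, nat_lit 6250000000, nat_lit 7968000001, nat_lit 9842000000], [], [nat_lit 21060748040, nat_lit 21362705573, nat_lit 19496562539, nat_lit 19830256490, nat_lit 23988921079, nat_lit 24435754384, nat_lit 22050925307, nat_lit 22486824104], nat_lit 1271250, nat_lit 1271250, nat_lit 279600, nat_lit 490000, nat_lit 1271250, nat_lit 1271250, [nat_lit 1100000, nat_lit 1442500, nat_lit 1271250, nat_lit 1271250], [nat_lit 199, nat_lit 40, nat_lit 40, nat_lit 80]⟩, ⟨p049_k31, nat_lit 0, nat_lit 0, nat_lit 148, nat_lit 0, nat_lit 62226, [nat_lit 4688000000, nat_lit 7968000000, nat_lit 9842000000], [], [nat_lit 18724620566, nat_lit 19069741932, nat_lit 17229902901, nat_lit 17564346885, nat_lit 23238676284, nat_lit 23558705461, nat_lit 21686449208, nat_lit 21996803466], nat_lit 1271250, nat_lit 1271250, nat_lit 279600, nat_lit 490000, nat_lit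 1271250, nat_lit 1271250, [nat_lit 1100000, nat_lit 1785000, nat_lit 1271250], [nat_lit 29, nat_lit 40, nat_lit 40, nat_lit 80, nat_lit 17, nat_lit 401, nat_lit 175, nat_lit 11]⟩,
 zbF0, [⟨nat_lit 0, nat_lit 100, nat_lit 100, nat_lit 75, nat_lit 359681489⟩, ⟨nat_lit 4, nat_lit 95, nat_lit 100, nat_lit 82, nat_lit 227464838⟩, ⟨nat_lit 11, nat_lit 100, nat_lit 100, nat_lit 80, nat_lit 766602115⟩]⟩
noncomputable def p049_l66 : Lf2 := ⟨nat_lit 0, nat_lit 8, [nat_lit 50, nat_lit 5, nat_lit 5, nat_lit 20], false, nat_lit 280, nat_lit 304, nat_lit 240, nat_lit 300, ⟨nat_lit 1000, nat_lit 0, nat_lit 0, nat_lit 0, nat_lit 0, nat_lit 0, nat_lit 0, nat_lit 0, nat_lit 0, nat_lit 0, nat_lit 0, nat_lit 0, nat_lit 0, nat_lit 0, nat_lit 0, nat_lit 0, false, false⟩,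
 nat_lit 14033, nat_lit 1403, nat_lit 0, nat_lit 0, nat_lit 9610, nat_lit 8546, nat_lit 1035, nat_lit 0, nat_lit 0, nat_lit 1446, nat_lit 0, nat_lit 0, nat_lit 0, nat_lit 4307390355252, nat_lit 0, nat_lit 0, nat_lit 0, nat_lit 0, [],
 ⟨p049_k33, nat_lit 0, nat_lit 0, nat_lit 0, nat_lit 0, nat_lit 110361, [nat_lit 4688000000, nat_lit 6250000000, nat_lit 7968000000], [], [nat_lit 21907572745, nat_lit 22273378473, nat_lit 20367204280, nat_lit 20722872550, nat_lit 24570728994, nat_lit 25056823983, nat_lit 22614739981, nat_lit 23090146073], nat_lit 1271250, nat_lit 1271250, nat_lit 304850, nat_lit 490000, nat_lit 1271250, nat_lit 1271250, [nat_lit 1100000, nat_lit 1442500, nat_lit 1271250], [nat_lit 9, nat_lit 40, nat_lit 40, nat_lit 80]⟩, ⟨p049_k31, nat_lit 0, nat_lit 0, nat_lit 168, nat_lit 0, nat_lit 113375, [nat_lit 4688000000, nat_lit 7968000000, nat_lit 9842000000], [], [nat_lit 18656581854, nat_lit 19342037873, nat_lit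 17358592322, nat_lit 18025441618, nat_lit 23103764312, nat_lit 23739522250, nat_lit 21755675815, nat_lit 22374572928], nat_lit 1271250, nat_lit 1271250, nat_lit 304850, nat_lit 490000, nat_lit 1271250, nat_lit 1271250, [nat_lit 1100000, nat_lit 1785000, nat_lit 1271250], [nat_lit 29, nat_lit 40, nat_lit 40, nat_lit 80, nat_lit 17, nat_lit 401, nat_lit 175, nat_lit 11]⟩,
 zbF0, [⟨nat_lit 0, nat_lit 100, nat_lit 100, nat_lit 80, nat_lit 417067708⟩, ⟨nat_lit 16, nat_lit 100, nat_lit 97, nat_lit 82, nat_lit 332220686⟩, ⟨nat_lit 11, nat_lit 100, nat_lit 100, nat_lit 81, nat_lit 742667676⟩]⟩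
noncomputable def p049_l67 : Lf2 := ⟨nat_lit 0, nat_lit 10, [nat_lit 0, nat_lit 5, nat_lit 5, nat_lit 20], false, nat_lit 240, nat_lit 308, nat_lit 240, nat_lit 320, ⟨nat_lit 1000, nat_lit 0, nat_lit 0, nat_lit 0, nat_lit 0, nat_lit 0, nat_lit 0, nat_lit 0, nat_lit 0, nat_lit 0, nat_lit 0, nat_lit 0, nat_lit 0, nat_lit 0, nat_lit 0, nat_lit 0, false, false⟩,
 nat_lit 25538, nat_lit 0, nat_lit 0, nat_lit 0, nat_lit 5844, nat_lit 14865, nat_lit 0, nat_lit 0, nat_lit 0, nat_lit 0, nat_lit 0, nat_lit 0, nat_lit 0, nat_lit 0, nat_lit 0, nat_lit 0, nat_lit 0, nat_lit 0, [],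
 ⟨p049_k23, nat_lit 0, nat_lit 0, nat_lit 0, nat_lit 0, nat_lit 25149, [nat_lit 3965500000, nat_lit 5449500000, nat_lit 8885500000], [], [nat_lit 16402294128, nat_lit 17195701664, nat_lit 15544374556, nat_lit 16308126192, nat_lit 21889691735, nat_lit 22611537149, nat_lit 20563496674, nat_lit 21182644345], nat_lit 1271250, nat_lit 1271250, nat_lit 230001, nat_lit 490000, nat_lit 1271250, nat_lit 1271250, [nat_lit 936250, nat_lit 1271250, nat_lit 1271250], [nat_lit 168, nat_lit 40, nat_lit 20, nat_lit 40]⟩, ⟨p049_k8, nat_lit 0, nat_lit 0, nat_lit 149, nat_lit 0, nat_lit 26595, [nat_lit 4688000000, nat_lit 6250000000, nat_lit 9842000000], [], [nat_lit 23829468760, nat_lit 25794745400, nat_lit 20117655440, nat_lit 21999539920, nat_lit 31940388350, nat_lit 33453771420, nat_lit 27885651330, nat_lit 29227015220], nat_lit 1271250, nat_lit 1271250, nat_lit 230001, nat_lit 490000, nat_lit 1271250, nat_lit 1271250, [nat_lit 1100000,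 nat_lit 1442500, nat_lit 1271250], [nat_lit 11, nat_lit 40, nat_lit 40, nat_lit 80, nat_lit 1, nat_lit 401, nat_lit 175, nat_lit 11]⟩,
 zbF0, [⟨nat_lit 0, nat_lit 100, nat_lit 100, nat_lit 80, nat_lit 795038593⟩, ⟨nat_lit 4, nat_lit 96, nat_lit 100, nat_lit 82, nat_lit 207620316⟩, ⟨nat_lit 7, nat_lit 93, nat_lit 100, nat_lit 81, nat_lit 323590958⟩, ⟨nat_lit 11, nat_lit 99, nat_lit 100, nat_lit 77, nat_lit 563133108⟩]⟩
noncomputable def p049_l68 : Lf2 := ⟨nat_lit 0, nat_lit 10, [nat_lit 0, nat_lit 5, nat_lit 5, nat_lit 20], false, nat_lit 240, nat_lit 308, nat_lit 160, nat_lit 320, ⟨nat_lit 1000, nat_lit 0, nat_lit 0, nat_lit 0, nat_lit 0, nat_lit 0, nat_lit 0, nat_lit 0, nat_lit 0, nat_lit 0, nat_lit 0, nat_lit 0, nat_lit 0, nat_lit 0, nat_lit 0, nat_lit 0, false, false⟩,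
 nat_lit 11346, nat_lit 0, nat_lit 0, nat_lit 0, nat_lit 6752, nat_lit 6604, nat_lit 0, nat_lit 0, nat_lit 0, nat_lit 0, nat_lit 0, nat_lit 0, nat_lit 0, nat_lit 8477827697206, nat_lit 0, nat_lit 0, nat_lit 0, nat_lit 0, [],
 ⟨p049_k34, nat_lit 0, nat_lit 0, nat_lit 0, nat_lit 0, nat_lit 61035, [nat_lit 4688000000, nat_lit 9842000000], [], [nat_lit 15781151576, nat_lit 16181136668, nat_lit 15658701488, nat_lit 16037289448, nat_lit 21101007470, nat_lit 21422566744, nat_lit 20700293902, nat_lit 21005309177], nat_lit 1271250, nat_lit 1271250, nat_lit 490000, nat_lit 780000, nat_lit 1271250, nat_lit 1271250, [nat_lit 1100000, nat_lit 2127500], [nat_lit 70, nat_lit 40, nat_lit 40, nat_lit 80]⟩, ⟨p049_k35, nat_lit 0, nat_lit 0, nat_lit 144, nat_lit 0, nat_lit 64543, [nat_lit 4688000000, nat_lit 9842000000], [], [nat_lit 10786141272, nat_lit 12214984326, nat_lit 10954941920, nat_lit 12306670244, nat_lit 21507452440, nat_lit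 22420332334, nat_lit 21116444920, nat_lit 21983053330], nat_lit 1271250, nat_lit 1271250, nat_lit 490000, nat_lit 780000, nat_lit 1271250, nat_lit 1271250, [nat_lit 1100000, nat_lit 2127500], [nat_lit 70, nat_lit 40, nat_lit 40, nat_lit 80, nat_lit 13, nat_lit 428, nat_lit 200, nat_lit 12]⟩,
 zbF0, [⟨nat_lit 4, nat_lit 95, nat_lit 100, nat_lit 82, nat_lit 191185345⟩, ⟨nat_lit 7, nat_lit 92, nat_lit 100, nat_lit 81, nat_lit 90980677⟩, ⟨nat_lit 11, nat_lit 100, nat_lit 100, nat_lit 100, nat_lit 469734266⟩]⟩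
noncomputable def p049_l69 : Lf2 := ⟨nat_lit 0, nat_lit 10, [nat_lit 0, nat_lit 5, nat_lit 5, nat_lit 20], false, nat_lit 240, nat_lit 304, nat_lit 160, nat_lit 320, ⟨nat_lit 1000, nat_lit 0, nat_lit 0, nat_lit 0, nat_lit 0, nat_lit 0, nat_lit 0, nat_lit 0, nat_lit 0, nat_lit 0, nat_lit 0, nat_lit 0, nat_lit 0, nat_lit 0, nat_lit 0, nat_lit 0, false, false⟩,
 nat_lit 18730, nat_lit 0, nat_lit 0, nat_lit 0, nat_lit 5884, nat_lit 10902, nat_lit 0, nat_lit 0, nat_lit 0, nat_lit 1188, nat_lit 0, nat_lit 0, nat_lit 0, nat_lit 0, nat_lit 0, nat_lit 0, nat_lit 0, nat_lit 0, [],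
 ⟨p049_k36, nat_lit 0, nat_lit 0, nat_lit 0, nat_lit 0, nat_lit 110388, [nat_lit 3965500000, nat_lit 5449500000, nat_lit 8885500000], [], [nat_lit 15885847714, nat_lit 16269176912, nat_lit 15897230980, nat_lit 16260672256, nat_lit 20537656487, nat_lit 20852625152, nat_lit 20313399807, nat_lit 20612716289], nat_lit 1271250, nat_lit 1271250, nat_lit 490000, nat_lit 780000, nat_lit 1271250, nat_lit 1271250, [nat_lit 936250, nat_lit 1271250, nat_lit 1271250], [nat_lit 168, nat_lit 40, nat_lit 20, nat_lit 40]⟩, ⟨p049_k8, nat_lit 0, nat_lit 0, nat_lit 154, nat_lit 0, nat_lit 119946, [nat_lit 4688000000, nat_lit 6250000000, nat_lit 9842000000], [], [nat_lit 14831856524, nat_lit 16730076788, nat_lit 13910455768, nat_lit 15698575028, nat_lit 25722343388, nat_lit 25816398356, nat_lit 29183821000, nat_lit 24230992764], nat_lit 1271250, nat_lit 1271250, nat_lit 490000, nat_lit 780000, nat_lit 1100001, nat_lit 2470000, [nat_lit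 1100000, nat_lit 1442500, nat_lit 1271250], [nat_lit 11, nat_lit 40, nat_lit 40, nat_lit 80, nat_lit 1, nat_lit 428, nat_lit 200, nat_lit 12]⟩,
 zbF0, [⟨nat_lit 4, nat_lit 97, nat_lit 100, nat_lit 82, nat_lit 480674814⟩, ⟨nat_lit 19, nat_lit 100, nat_lit 93, nat_lit 81, nat_lit 380777711⟩, ⟨nat_lit 11, nat_lit 100, nat_lit 100, nat_lit 100, nat_lit 200028215⟩]⟩
noncomputable def b_V_600_600_10_71 : St := ⟨true, nat_lit 1, nat_lit 1, nat_lit 1, nat_lit 80, nat_lit 270, nat_lit 280, nat_lit 260, nat_lit 280, nat_lit 36, nat_lit 120, nat_lit 40, nat_lit 80, nat_lit 240, nat_lit 320, nat_lit 0, nat_lit 320, nat_lit 20, nat_lit 40, nat_lit 300, nat_lit 600, nat_lit 0, nat_lit 0⟩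
theorem d_V_600_600_10_71 (h : EB TB.env) : Dead b_V_600_600_10_71 := chkB_sound0 h (T :=
(.trZ (nat_lit 0) (nat_lit 100) (nat_lit 98) (nat_lit 64) (nat_lit 40) (.trX (nat_lit 16) (nat_lit 100) (nat_lit 90) (nat_lit 85) (nat_lit 308) (.spl (nat_lit 3) (nat_lit 60)
(.trX (nat_lit 16) (nat_lit 100) (nat_lit 97) (nat_lit 76) (nat_lit 288) (.trX (nat_lit 19) (nat_lit 100) (nat_lit 92) (nat_lit 75) (nat_lit 296) (.spl (nat_lit 5) (nat_lit 160)
(.leaf p049_l46)
(.spl (nat_lit 2) (nat_lit 80)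
(.spl (nat_lit 5) (nat_lit 240)
(.leaf p049_l47)
(.spl (nat_lit 4) (nat_lit 260)
(.spl (nat_lit 0) (nat_lit 275)
(.ord (.leaf p049_l48))
(.trZ (nat_lit 0) (nat_lit 100) (nat_lit 97) (nat_lit 67) (nat_lit 44) (.leaf p049_l49)))
(.spl (nat_lit 7) (nat_lit 460)
(.spl (nat_lit 1) (nat_lit 270)
(.spl (nat_lit 1) (nat_lit 265)
(.leaf p049_l50)
(.trZ (nat_lit 0) (nat_lit 100) (nat_lit 99) (nat_lit 67) (nat_lit 44) (.trX (nat_lit 19) (nat_lit 100) (nat_lit 95) (nat_lit 76) (nat_lit 292) (.spl (nat_lit 1) (nat_lit 268)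
(.spl (nat_lit 5) (nat_lit 260)
(.leaf p049_l51)
(.spl (nat_lit 0) (nat_lit 275)
(.leaf p049_l52)
(.trZ (nat_lit 0) (nat_lit 100) (nat_lit 98) (nat_lit 69) (nat_lit 48) (.trX (nat_lit 16) (nat_lit 100) (nat_lit 99) (nat_lit 77) (nat_lit 280) (.leaf p049_l53)))))
(.trX (nat_lit 19) (nat_lit 100) (nat_lit 96) (nat_lit 76) (nat_lit 288) (.leaf p049_l54))))))
(.trZ (nat_lit 0) (nat_lit 100) (nat_lit 100) (nat_lit 70) (nat_lit 48) (.trX (nat_lit 19) (nat_lit 100) (nat_lit 97) (nat_lit 76) (nat_lit 288) (.leaf p049_l55))))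
(.leaf p049_l56))))
(.leaf p049_l57)))))
(.spl (nat_lit 5) (nat_lit 160)
(.leaf p049_l58)
(.spl (nat_lit 2) (nat_lit 80)
(.spl (nat_lit 5) (nat_lit 240)
(.leaf p049_l59)
(.spl (nat_lit 6) (nat_lit 32)
(.spl (nat_lit 4) (nat_lit 280)
(.spl (nat_lit 0) (nat_lit 275)
(.ord (.leaf p049_l60))
(.trZ (nat_lit 0) (nat_lit 100) (nat_lit 97) (nat_lit 67) (nat_lit 44) (.spl (nat_lit 1) (nat_lit 270)
(.leaf p049_l61)
(.trZ (nat_lit 0) (nat_lit 100) (nat_lit 99) (nat_lit 72) (nat_lit 52) (.trX (nat_lit 19) (nat_lit 100) (nat_lit 90) (nat_lit 85) (nat_lit 308) (.leaf p049_l62))))))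
(.trX (nat_lit 23) (nat_lit 100) (nat_lit 95) (nat_lit 87) (nat_lit 300) (.spl (nat_lit 1) (nat_lit 270)
(.spl (nat_lit 0) (nat_lit 275)
(.leaf p049_l63)
(.trZ (nat_lit 0) (nat_lit 100) (nat_lit 97) (nat_lit 67) (nat_lit 44) (.trX (nat_lit 16) (nat_lit 100) (nat_lit 92) (nat_lit 86) (nat_lit 304) (.leaf p049_l64))))
(.trZ (nat_lit 0) (nat_lit 100) (nat_lit 100) (nat_lit 70) (nat_lit 48) (.spl (nat_lit 0) (nat_lit 275)
(.ord (.leaf p049_l65))
(.trZ (nat_lit 0) (nat_lit 100) (nat_lit 99) (nat_lit 72) (nat_lit 52) (.trX (nat_lit 16) (nat_lit 100) (nat_lit 92) (nat_lit 86) (nat_lit 304) (.leaf p049_l66))))))))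
(.leaf p049_l67)))
(.spl (nat_lit 0) (nat_lit 275)
(.ord (.leaf p049_l68))
(.trX (nat_lit 16) (nat_lit 100) (nat_lit 92) (nat_lit 86) (nat_lit 304) (.leaf p049_l69))))))))) (by decide +kernel)
noncomputable def p049_l70 : Lf2 := ⟨nat_lit 0, nat_lit 5, [nat_lit 4, nat_lit 5, nat_lit 5, nat_lit 20], false, nat_lit 240, nat_lit 320, nat_lit 0, nat_lit 160, ⟨nat_lit 1000, nat_lit 0, nat_lit 0, nat_lit 0, nat_lit 0, nat_lit 0, nat_lit 0, nat_lit 0, nat_lit 0, nat_lit 0, nat_lit 0, nat_lit 0, nat_lit 0, nat_lit 0, nat_lit 0, nat_lit 0, false, false⟩,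
 nat_lit 6044, nat_lit 10333, nat_lit 0, nat_lit 0, nat_lit 9532, nat_lit 3199, nat_lit 1057, nat_lit 0, nat_lit 0, nat_lit 1940, nat_lit 0, nat_lit 0, nat_lit 0, nat_lit 0, nat_lit 0, nat_lit 0, nat_lit 0, nat_lit 0, [],
 ⟨p049_k3, nat_lit 0, nat_lit 0, nat_lit 188, nat_lit 0, nat_lit 343681, [nat_lit 4688000000, nat_lit 6250000000, nat_lit 7968000000], [], [nat_lit 15913325808, nat_lit 17440451680, nat_lit 18730160664, nat_lit 19879445952, nat_lit 22141664200, nat_lit 23551247904, nat_lit 24516238424, nat_lit 25785978496], nat_lit 1271250, nat_lit 1271250, nat_lit 780000, nat_lit 1762500, nat_lit 1271250, nat_lit 1271250, [nat_lit 1100000, nat_lit 1442500, nat_lit 1271250], [nat_lit 9, nat_lit 40, nat_lit 40, nat_lit 80, nat_lit 2, nat_lit 272, nat_lit 60, nat_lit 8]⟩, ⟨p049_k37, nat_lit 0, nat_lit 0, nat_lit 353, nat_lit 0, nat_lit 385893, [nat_lit 4688000000, nat_lit 6250000000, nat_lit 9842000000], [], [nat_lit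 37686105484, nat_lit 35968440822, nat_lit 34298862500, nat_lit 35048739380, nat_lit 32590166364, nat_lit 32543876054, nat_lit 40046769556, nat_lit 38579157928], nat_lit 1271250, nat_lit 1271250, nat_lit 780000, nat_lit 1762500, nat_lit 0, nat_lit 1100001, [nat_lit 1100000, nat_lit 1442500, nat_lit 1271250], [nat_lit 11, nat_lit 40, nat_lit 40, nat_lit 80, nat_lit 1, nat_lit 401, nat_lit 175, nat_lit 12]⟩,
 zbF0, [⟨nat_lit 4, nat_lit 97, nat_lit 100, nat_lit 76, nat_lit 823780474⟩]⟩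
noncomputable def p049_l71 : Lf2 := ⟨nat_lit 0, nat_lit 5, [nat_lit 4, nat_lit 5, nat_lit 5, nat_lit 20], false, nat_lit 240, nat_lit 320, nat_lit 160, nat_lit 336, ⟨nat_lit 1000, nat_lit 0, nat_lit 0, nat_lit 0, nat_lit 0, nat_lit 0, nat_lit 0, nat_lit 0, nat_lit 0, nat_lit 0, nat_lit 0, nat_lit 0, nat_lit 0, nat_lit 0, nat_lit 0, nat_lit 0, false, false⟩,
 nat_lit 11385, nat_lit 5446, nat_lit 0, nat_lit 0, nat_lit 9797, nat_lit 6027, nat_lit 948, nat_lit 0, nat_lit 0, nat_lit 1898, nat_lit 0, nat_lit 0, nat_lit 0, nat_lit 0, nat_lit 0, nat_lit 0, nat_lit 0, nat_lit 0, [],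
 ⟨p049_k3, nat_lit 0, nat_lit 0, nat_lit 165, nat_lit 0, nat_lit 287060, [nat_lit 4688000000, nat_lit 6250000000, nat_lit 7968000000], [], [nat_lit 15882430468, nat_lit 16658845374, nat_lit 18695438194, nat_lit 19278446093, nat_lit 22217326950, nat_lit 22825299178, nat_lit 24602491154, nat_lit 25246880785], nat_lit 1271250, nat_lit 1271250, nat_lit 780000, nat_lit 1762500, nat_lit 1271250, nat_lit 1271250, [nat_lit 1100000, nat_lit 1442500, nat_lit 1271250], [nat_lit 9, nat_lit 40, nat_lit 40, nat_lit 80, nat_lit 2, nat_lit 272, nat_lit 60, nat_lit 8]⟩, ⟨p049_k37, nat_lit 0, nat_lit 0, nat_lit 210, nat_lit 0, nat_lit 322318, [nat_lit 4688000000, nat_lit 6250000000, nat_lit 9842000000], [], [nat_lit 35434195680, nat_lit 32247491754, nat_lit 35864569464, nat_lit 32985543888, nat_lit 26043104302, nat_lit 26699409133, nat_lit 27698496618, nat_lit 28331225139], nat_lit 1271250, nat_lit 1271250, nat_lit 780000, nat_lit 1762500,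 nat_lit 1271250, nat_lit 1271250, [nat_lit 1100000, nat_lit 1442500, nat_lit 1271250], [nat_lit 11, nat_lit 40, nat_lit 40, nat_lit 80, nat_lit 1, nat_lit 456, nat_lit 225, nat_lit 13]⟩,
 zbF0, [⟨nat_lit 4, nat_lit 95, nat_lit 100, nat_lit 76, nat_lit 828215943⟩]⟩
noncomputable def p049_l72 : Lf2 := ⟨nat_lit 0, nat_lit 5, [nat_lit 4, nat_lit 5, nat_lit 5, nat_lit 20], false, nat_lit 240, nat_lit 308, nat_lit 160, nat_lit 336, ⟨nat_lit 600, nat_lit 400, nat_lit 0, nat_lit 6, nat_lit 206, nat_lit 400, nat_lit 196, nat_lit 0, nat_lit 0, nat_lit 0, nat_lit 0, nat_lit 0, nat_lit 42249914, nat_lit 12856400, nat_lit 11893686, nat_lit 4928092, false, false⟩,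
 nat_lit 7153, nat_lit 5193, nat_lit 0, nat_lit 0, nat_lit 7518, nat_lit 3786, nat_lit 1127, nat_lit 0, nat_lit 0, nat_lit 1144, nat_lit 0, nat_lit 0, nat_lit 0, nat_lit 0, nat_lit 0, nat_lit 100000, nat_lit 0, nat_lit 0, [(nat_lit 9, [(nat_lit 0, nat_lit 400)])],
 ⟨p049_k6, nat_lit 0, nat_lit 0, nat_lit 177, nat_lit 0, nat_lit 325402, [nat_lit 4059520000, nat_lit 4948720000, nat_lit 6122560000], [], [nat_lit 16365477261, nat_lit 17000304445, nat_lit 19025516267, nat_lit 19536582973, nat_lit 20806896595, nat_lit 21483305736, nat_lit 23543649805, nat_lit 24133251008], nat_lit 1271250, nat_lit 1271250, nat_lit 780000, nat_lit 1762500, nat_lit 1271250, nat_lit 1271250, [nat_lit 1100000, nat_lit 1442500, nat_lit 1271250], [nat_lit 9, nat_lit 40, nat_lit 40, nat_lit 80, nat_lit 2, nat_lit 272, nat_lit 60, nat_lit 8]⟩, ⟨p049_k37, nat_lit 0, nat_lit 0, nat_lit 233, nat_lit 0, nat_lit 385893, [nat_lit 2812800000, nat_lit 3750000000,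 nat_lit 5905200000], [], [nat_lit 21519265440, nat_lit 19517463372, nat_lit 21503431152, nat_lit 19694904384, nat_lit 15339161149, nat_lit 15738962602, nat_lit 16307268557, nat_lit 16691308652], nat_lit 1271250, nat_lit 1271250, nat_lit 780000, nat_lit 1762500, nat_lit 1271250, nat_lit 1271250, [nat_lit 1100000, nat_lit 1442500, nat_lit 1271250], [nat_lit 11, nat_lit 40, nat_lit 40, nat_lit 80, nat_lit 1, nat_lit 456, nat_lit 225, nat_lit 13]⟩,
 ⟨nat_lit 5477, nat_lit 5701, ⟨.ofNat (nat_lit 389244), .ofNat (nat_lit 619394), .ofNat (nat_lit 410586), .ofNat (nat_lit 640734), .ofNat (nat_lit 392847), .ofNat (nat_lit 617638), .ofNat (nat_lit 414204), .ofNat (nat_lit 638993)⟩, ⟨.ofNat (nat_lit 405982), .ofNat (nat_lit 536404), .ofNat (nat_lit 448666), .ofNat (nat_lit 579088), .ofNat (nat_lit 404075), .ofNat (nat_lit 531461), .ofNat (nat_lit 446789), .ofNat (nat_lit 574176)⟩⟩, [⟨nat_lit 4, nat_lit 99, nat_lit 100, nat_lit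 77, nat_lit 587253662⟩]⟩
noncomputable def p049_l73 : Lf2 := ⟨nat_lit 0, nat_lit 5, [nat_lit 4, nat_lit 5, nat_lit 5, nat_lit 20], false, nat_lit 240, nat_lit 320, nat_lit 0, nat_lit 160, ⟨nat_lit 1000, nat_lit 0, nat_lit 0, nat_lit 0, nat_lit 0, nat_lit 0, nat_lit 0, nat_lit 0, nat_lit 0, nat_lit 0, nat_lit 0, nat_lit 0, nat_lit 0, nat_lit 0, nat_lit 0, nat_lit 0, false, false⟩,
 nat_lit 15962, nat_lit 0, nat_lit 0, nat_lit 0, nat_lit 9291, nat_lit 3190, nat_lit 1442, nat_lit 0, nat_lit 0, nat_lit 1831, nat_lit 0, nat_lit 0, nat_lit 0, nat_lit 0, nat_lit 0, nat_lit 0, nat_lit 0, nat_lit 0, [],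
 ⟨p049_k3, nat_lit 0, nat_lit 0, nat_lit 245, nat_lit 0, nat_lit 444417, [nat_lit 4688000000, nat_lit 6250000000, nat_lit 7968000000], [], [nat_lit 15633080684, nat_lit 16759080840, nat_lit 18075646382, nat_lit 19254226768, nat_lit 21782675516, nat_lit 23435116752, nat_lit 24437797262, nat_lit 25690222448], nat_lit 1271250, nat_lit 1271250, nat_lit 780000, nat_lit 1762500, nat_lit 1271250, nat_lit 1271250, [nat_lit 1100000, nat_lit 1442500, nat_lit 1271250], [nat_lit 9, nat_lit 40, nat_lit 40, nat_lit 80, nat_lit 2, nat_lit 272, nat_lit 60, nat_lit 8]⟩, ⟨p049_k3, nat_lit 0, nat_lit 0, nat_lit 321, nat_lit 0, nat_lit 444417, [nat_lit 4688000000, nat_lit 6250000000, nat_lit 7968000000], [], [nat_lit 35949893820, nat_lit 34237061600, nat_lit 32181028100, nat_lit 32785278890, nat_lit 31081418120, nat_lit 30315191165, nat_lit 38588441680, nat_lit 37124959000], nat_lit 1271250, nat_lit 1271250, nat_lit 780000, nat_lit 1762500,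 nat_lit 0, nat_lit 1100001, [nat_lit 1100000, nat_lit 1442500, nat_lit 1271250], [nat_lit 9, nat_lit 40, nat_lit 40, nat_lit 80, nat_lit 2, nat_lit 317, nat_lit 100, nat_lit 10]⟩,
 zbF0, [⟨nat_lit 4, nat_lit 97, nat_lit 100, nat_lit 76, nat_lit 837603794⟩]⟩
noncomputable def p049_l74 : Lf2 := ⟨nat_lit 0, nat_lit 5, [nat_lit 4, nat_lit 5, nat_lit 5, nat_lit 20], false, nat_lit 240, nat_lit 320, nat_lit 160, nat_lit 320, ⟨nat_lit 1000, nat_lit 0, nat_lit 0, nat_lit 0, nat_lit 0, nat_lit 0, nat_lit 0, nat_lit 0, nat_lit 0, nat_lit 0, nat_lit 0, nat_lit 0, nat_lit 0, nat_lit 0, nat_lit 0, nat_lit 0, false, false⟩,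
 nat_lit 14362, nat_lit 0, nat_lit 0, nat_lit 0, nat_lit 8359, nat_lit 8359, nat_lit 1494, nat_lit 0, nat_lit 0, nat_lit 1494, nat_lit 0, nat_lit 0, nat_lit 0, nat_lit 3986706388025, nat_lit 0, nat_lit 0, nat_lit 0, nat_lit 0, [],
 ⟨p049_k3, nat_lit 0, nat_lit 0, nat_lit 245, nat_lit 0, nat_lit 444417, [nat_lit 4688000000, nat_lit 6250000000, nat_lit 7968000000], [], [nat_lit 17618937148, nat_lit 18477377506, nat_lit 19235762220, nat_lit 20068236024, nat_lit 21915899650, nat_lit 22986200416, nat_lit 24134448038, nat_lit 25319912752], nat_lit 1271250, nat_lit 1271250, nat_lit 780000, nat_lit 1762500, nat_lit 1271250, nat_lit 1271250, [nat_lit 1100000, nat_lit 1442500, nat_lit 1271250], [nat_lit 9, nat_lit 40, nat_lit 40, nat_lit 80, nat_lit 2, nat_lit 272, nat_lit 60, nat_lit 8]⟩, ⟨p049_k3, nat_lit 0, nat_lit 0, nat_lit 245, nat_lit 0, nat_lit 444417, [nat_lit 4688000000, nat_lit 6250000000, nat_lit 7968000000], [],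 [nat_lit 18111128052, nat_lit 16617227494, nat_lit 30424084946, nat_lit 26431090954, nat_lit 21915899650, nat_lit 22986200416, nat_lit 24134448038, nat_lit 25319912752], nat_lit 1271250, nat_lit 1271250, nat_lit 780000, nat_lit 1762500, nat_lit 1271250, nat_lit 1271250, [nat_lit 1100000, nat_lit 1442500, nat_lit 1271250], [nat_lit 9, nat_lit 40, nat_lit 40, nat_lit 80, nat_lit 2, nat_lit 373, nat_lit 150, nat_lit 12]⟩,
 zbF0, [⟨nat_lit 16, nat_lit 100, nat_lit 85, nat_lit 84, nat_lit 626074309⟩, ⟨nat_lit 19, nat_lit 100, nat_lit 85, nat_lit 84, nat_lit 366871862⟩]⟩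
noncomputable def p049_l75 : Lf2 := ⟨nat_lit 0, nat_lit 10, [nat_lit 0, nat_lit 5, nat_lit 5, nat_lit 20], false, nat_lit 240, nat_lit 296, nat_lit 0, nat_lit 312, ⟨nat_lit 403, nat_lit 597, nat_lit 0, nat_lit 6, nat_lit 175, nat_lit 597, nat_lit 188, nat_lit 0, nat_lit 0, nat_lit 0, nat_lit 0, nat_lit 0, nat_lit 45141707, nat_lit 10321353, nat_lit 11536940, nat_lit 4608459, false, false⟩,
 nat_lit 5581, nat_lit 6270, nat_lit 0, nat_lit 508, nat_lit 6898, nat_lit 2954, nat_lit 0, nat_lit 0, nat_lit 0, nat_lit 178, nat_lit 0, nat_lit 0, nat_lit 0, nat_lit 0, nat_lit 0, nat_lit 149250, nat_lit 0, nat_lit 0, [(nat_lit 9, [(nat_lit 0, nat_lit 597)])],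
 ⟨p049_k8, nat_lit 0, nat_lit 0, nat_lit 90, nat_lit 0, nat_lit 133410, [nat_lit 3749993600, nat_lit 4335460800, nat_lit 6124361600], [], [nat_lit 13778177132, nat_lit 15340626656, nat_lit 14449400156, nat_lit 15952507528, nat_lit 18674069189, nat_lit 20199585936, nat_lit 19072130637, nat_lit 20498673712], nat_lit 1271250, nat_lit 1271250, nat_lit 780000, nat_lit 1100001, nat_lit 1271250, nat_lit 1271250, [nat_lit 1100000, nat_lit 1442500, nat_lit 1271250], [nat_lit 11, nat_lit 40, nat_lit 40, nat_lit 80, nat_lit 1, nat_lit 428, nat_lit 200, nat_lit 12]⟩, ⟨p049_k15, nat_lit 0, nat_lit 0, nat_lit 335, nat_lit 0, nat_lit 149796, [nat_lit 1889264000, nat_lit 2518750000, nat_lit 4784416000], [], [nat_lit 19512185900, nat_lit 17926071048, nat_lit 16339956196, nat_lit 14778064144, nat_lit 14645378420, nat_lit 13304936469, nat_lit 16260017048, nat_lit 14936101600], nat_lit 1271250, nat_lit 1271250, nat_lit 780000, nat_lit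 1100001, nat_lit 0, nat_lit 2203500, [nat_lit 1100000, nat_lit 1442500, nat_lit 1271250], [nat_lit 48, nat_lit 40, nat_lit 40, nat_lit 80, nat_lit 12, nat_lit 428, nat_lit 200, nat_lit 11]⟩,
 ⟨nat_lit 5477, nat_lit 5917, ⟨.ofNat (nat_lit 385610), .ofNat (nat_lit 464143), .ofNat (nat_lit 406949), .ofNat (nat_lit 485478), .ofNat (nat_lit 392847), .ofNat (nat_lit 467780), .ofNat (nat_lit 414204), .ofNat (nat_lit 489132)⟩, ⟨.ofNat (nat_lit 407818), .ofNat (nat_lit 517765), .ofNat (nat_lit 429157), .ofNat (nat_lit 539104), .ofNat (nat_lit 404075), .ofNat (nat_lit 508982), .ofNat (nat_lit 425432), .ofNat (nat_lit 530339)⟩⟩, [⟨nat_lit 4, nat_lit 100, nat_lit 100, nat_lit 71, nat_lit 701772471⟩]⟩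
noncomputable def p049_l76 : Lf2 := ⟨nat_lit 0, nat_lit 10, [nat_lit 0, nat_lit 5, nat_lit 5, nat_lit 20], false, nat_lit 240, nat_lit 296, nat_lit 0, nat_lit 296, ⟨nat_lit 560, nat_lit 0, nat_lit 440, nat_lit 6, nat_lit 184, nat_lit 440, nat_lit 188, nat_lit 440, nat_lit 11818, nat_lit 238, nat_lit 25370, nat_lit 254, nat_lit 44505872, nat_lit 0, nat_lit 0, nat_lit 4685057, false, false⟩,
 nat_lit 15938, nat_lit 0, nat_lit 0, nat_lit 0, nat_lit 9277, nat_lit 7597, nat_lit 646, nat_lit 0, nat_lit 0, nat_lit 0, nat_lit 0, nat_lit 0, nat_lit 0, nat_lit 0, nat_lit 0, nat_lit 440000, nat_lit 0, nat_lit 0, [(nat_lit 9, [(nat_lit 6, nat_lit 440)])],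
 ⟨p049_k8, nat_lit 0, nat_lit 0, nat_lit 168, nat_lit 0, nat_lit 234342, [nat_lit 3108224001, nat_lit 3311386667, nat_lit 3160741333], [], [nat_lit 14182697043, nat_lit 15500471023, nat_lit 14212209919, nat_lit 15515808772, nat_lit 19092572877, nat_lit 20914313664, nat_lit 19286482344, nat_lit 20981953288], nat_lit 1271250, nat_lit 1271250, nat_lit 780000, nat_lit 1100001, nat_lit 1271250, nat_lit 1271250, [nat_lit 1100000, nat_lit 1442500, nat_lit 1271250], [nat_lit 11, nat_lit 40, nat_lit 40, nat_lit 80, nat_lit 1, nat_lit 428, nat_lit 200, nat_lit 12]⟩, ⟨p049_k8, nat_lit 0, nat_lit 0, nat_lit 301, nat_lit 0, nat_lit 234342, [nat_lit 2625280000, nat_lit 3500000000, nat_lit 5511520000], [], [nat_lit 24885076614, nat_lit 20868254028, nat_lit 16911903562, nat_lit 16373698720, nat_lit 18293751871, nat_lit 14871063306, nat_lit 21933027328, nat_lit 18553998722], nat_lit 1271250, nat_lit 1271250, nat_lit 780000, nat_lit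 1100001, nat_lit 0, nat_lit 2090500, [nat_lit 1100000, nat_lit 1442500, nat_lit 1271250], [nat_lit 11, nat_lit 40, nat_lit 40, nat_lit 80, nat_lit 1, nat_lit 428, nat_lit 200, nat_lit 12]⟩,
 ⟨nat_lit 5477, nat_lit 5917, ⟨.ofNat (nat_lit 406949), .ofNat (nat_lit 485478), .ofNat (nat_lit 428288), .ofNat (nat_lit 506809), .ofNat (nat_lit 414204), .ofNat (nat_lit 489132), .ofNat (nat_lit 435561), .ofNat (nat_lit 510480)⟩, ⟨.ofNat (nat_lit 407818), .ofNat (nat_lit 517765), .ofNat (nat_lit 429157), .ofNat (nat_lit 539104), .ofNat (nat_lit 404075), .ofNat (nat_lit 508982), .ofNat (nat_lit 425432), .ofNat (nat_lit 530339)⟩⟩, [⟨nat_lit 4, nat_lit 100, nat_lit 100, nat_lit 71, nat_lit 874968416⟩]⟩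
noncomputable def p049_l77 : Lf2 := ⟨nat_lit 0, nat_lit 10, [nat_lit 0, nat_lit 5, nat_lit 5, nat_lit 20], false, nat_lit 240, nat_lit 296, nat_lit 0, nat_lit 312, ⟨nat_lit 1000, nat_lit 0, nat_lit 0, nat_lit 0, nat_lit 0, nat_lit 0, nat_lit 0, nat_lit 0, nat_lit 0, nat_lit 0, nat_lit 0, nat_lit 0, nat_lit 0, nat_lit 0, nat_lit 0, nat_lit 0, false, false⟩,
 nat_lit 24550, nat_lit 9689, nat_lit 0, nat_lit 0, nat_lit 19929, nat_lit 12996, nat_lit 253, nat_lit 0, nat_lit 0, nat_lit 1157, nat_lit 0, nat_lit 0, nat_lit 0, nat_lit 0, nat_lit 0, nat_lit 0, nat_lit 0, nat_lit 0, [],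
 ⟨p049_k8, nat_lit 0, nat_lit 0, nat_lit 157, nat_lit 0, nat_lit 234342, [nat_lit 4688000000, nat_lit 6250000000, nat_lit 9842000000], [], [nat_lit 11582317547, nat_lit 13560485044, nat_lit 16084351766, nat_lit 18965383792, nat_lit 20246244587, nat_lit 23145843176, nat_lit 24355497875, nat_lit 26631513536], nat_lit 1271250, nat_lit 1271250, nat_lit 1100001, nat_lit 1785000, nat_lit 1271250, nat_lit 1271250, [nat_lit 1100000, nat_lit 1442500, nat_lit 1271250], [nat_lit 11, nat_lit 40, nat_lit 40, nat_lit 80, nat_lit 1, nat_lit 456, nat_lit 225, nat_lit 12]⟩, ⟨p049_k15, nat_lit 0, nat_lit 0, nat_lit 363, nat_lit 0, nat_lit 263125, [nat_lit 4688000000, nat_lit 6250000000, nat_lit 11872000000], [], [nat_lit 49179836640, nat_lit 35436878544, nat_lit 30454340331, nat_lit 33491569563, nat_lit 37727845109, nat_lit 25610878954, nat_lit 24496059277, nat_lit 26361453281], nat_lit 1271250, nat_lit 1271250, nat_lit 1271250, nat_lit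 1271250, nat_lit 0, nat_lit 2203500, [nat_lit 1100000, nat_lit 1442500, nat_lit 1271250], [nat_lit 48, nat_lit 40, nat_lit 40, nat_lit 80, nat_lit 12, nat_lit 456, nat_lit 225, nat_lit 12]⟩,
 zbF0, [⟨nat_lit 4, nat_lit 100, nat_lit 100, nat_lit 71, nat_lit 1540865212⟩]⟩
noncomputable def p049_l78 : Lf2 := ⟨nat_lit 0, nat_lit 10, [nat_lit 0, nat_lit 5, nat_lit 5, nat_lit 20], false, nat_lit 240, nat_lit 320, nat_lit 0, nat_lit 336, ⟨nat_lit 400, nat_lit 600, nat_lit 0, nat_lit 6, nat_lit 210, nat_lit 600, nat_lit 206, nat_lit 0, nat_lit 0, nat_lit 0, nat_lit 0, nat_lit 0, nat_lit 41282702, nat_lit 13074565, nat_lit 12642733, nat_lit 5026242, false, false⟩,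
 nat_lit 5539, nat_lit 4879, nat_lit 0, nat_lit 1302, nat_lit 6064, nat_lit 2932, nat_lit 0, nat_lit 0, nat_lit 0, nat_lit 756, nat_lit 0, nat_lit 0, nat_lit 0, nat_lit 0, nat_lit 0, nat_lit 150000, nat_lit 0, nat_lit 0, [(nat_lit 9, [(nat_lit 0, nat_lit 600)])],
 ⟨p049_k8, nat_lit 0, nat_lit 0, nat_lit 89, nat_lit 0, nat_lit 119946, [nat_lit 3745280001, nat_lit 4325840000, nat_lit 6105680000], [], [nat_lit 14832198177, nat_lit 16258369057, nat_lit 18531203025, nat_lit 19644311329, nat_lit 20577468464, nat_lit 21880115808, nat_lit 23387466848, nat_lit 24408044992], nat_lit 1271250, nat_lit 1271250, nat_lit 780000, nat_lit 1762500, nat_lit 1271250, nat_lit 1271250, [nat_lit 1100000, nat_lit 1442500, nat_lit 1271250], [nat_lit 11, nat_lit 40, nat_lit 40, nat_lit 80, nat_lit 1, nat_lit 456, nat_lit 225, nat_lit 12]⟩, ⟨p049_k15, nat_lit 0, nat_lit 0, nat_lit 332, nat_lit 0, nat_lit 135039, [nat_lit 1875200000, nat_lit 2500000000,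 nat_lit 4748800000], [], [nat_lit 19366908112, nat_lit 16218303680, nat_lit 10841927916, nat_lit 11517156796, nat_lit 11989166330, nat_lit 11115984566, nat_lit 16946922650, nat_lit 14305099172], nat_lit 1271250, nat_lit 1271250, nat_lit 780000, nat_lit 1762500, nat_lit 0, nat_lit 2373000, [nat_lit 1100000, nat_lit 1442500, nat_lit 1271250], [nat_lit 48, nat_lit 40, nat_lit 40, nat_lit 80, nat_lit 12, nat_lit 456, nat_lit 225, nat_lit 12]⟩,
 ⟨nat_lit 5477, nat_lit 5917, ⟨.ofNat (nat_lit 385610), .ofNat (nat_lit 621176), .ofNat (nat_lit 428288), .ofNat (nat_lit 663838), .ofNat (nat_lit 392847), .ofNat (nat_lit 617611), .ofNat (nat_lit 435561), .ofNat (nat_lit 660309)⟩, ⟨.ofNat (nat_lit 429157), .ofNat (nat_lit 586223), .ofNat (nat_lit 450496), .ofNat (nat_lit 607556), .ofNat (nat_lit 425432), .ofNat (nat_lit 575297), .ofNat (nat_lit 446789), .ofNat (nat_lit 596648)⟩⟩, [⟨nat_lit 4, nat_lit 93, nat_lit 100, nat_lit 81,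 nat_lit 514291821⟩]⟩
noncomputable def b_V_600_600_10_72 : St := ⟨true, nat_lit 1, nat_lit 1, nat_lit 1, nat_lit 80, nat_lit 260, nat_lit 280, nat_lit 240, nat_lit 280, nat_lit 120, nat_lit 240, nat_lit 40, nat_lit 80, nat_lit 240, nat_lit 320, nat_lit 0, nat_lit 336, nat_lit 0, nat_lit 40, nat_lit 0, nat_lit 0, nat_lit 0, nat_lit 0⟩
theorem d_V_600_600_10_72 (h : EB TB.env) : Dead b_V_600_600_10_72 := chkB_sound0 h (T :=
(.spl (nat_lit 6) (nat_lit 20)
(.spl (nat_lit 1) (nat_lit 260)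
(.spl (nat_lit 5) (nat_lit 160)
(.leaf p049_l70)
(.spl (nat_lit 0) (nat_lit 270)
(.leaf p049_l71)
(.trX (nat_lit 16) (nat_lit 100) (nat_lit 90) (nat_lit 85) (nat_lit 308) (.leaf p049_l72))))
(.trX (nat_lit 19) (nat_lit 100) (nat_lit 85) (nat_lit 84) (nat_lit 320) (.spl (nat_lit 5) (nat_lit 160)
(.leaf p049_l73)
(.leaf p049_l74))))
(.spl (nat_lit 3) (nat_lit 60)
(.trX (nat_lit 16) (nat_lit 100) (nat_lit 92) (nat_lit 75) (nat_lit 296) (.trX (nat_lit 19) (nat_lit 100) (nat_lit 85) (nat_lit 73) (nat_lit 312) (.spl (nat_lit 2) (nat_lit 160)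
(.spl (nat_lit 1) (nat_lit 260)
(.leaf p049_l75)
(.trX (nat_lit 19) (nat_lit 100) (nat_lit 92) (nat_lit 75) (nat_lit 296) (.leaf p049_l76)))
(.leaf p049_l77))))
(.leaf p049_l78)))) (by decide +kernel)
noncomputable def p049_l79 : Lf2 := ⟨nat_lit 0, nat_lit 10, [nat_lit 0, nat_lit 5, nat_lit 5, nat_lit 20], false, nat_lit 0, nat_lit 336, nat_lit 0, nat_lit 336, ⟨nat_lit 1000, nat_lit 0, nat_lit 0, nat_lit 0, nat_lit 0, nat_lit 0, nat_lit 0, nat_lit 0, nat_lit 0, nat_lit 0, nat_lit 0, nat_lit 0, nat_lit 0, nat_lit 0, nat_lit 0, nat_lit 0, false, false⟩,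
 nat_lit 14701, nat_lit 0, nat_lit 0, nat_lit 4576, nat_lit 7782, nat_lit 7782, nat_lit 1551, nat_lit 0, nat_lit 0, nat_lit 1551, nat_lit 0, nat_lit 0, nat_lit 0, nat_lit 0, nat_lit 0, nat_lit 0, nat_lit 0, nat_lit 0, [],
 ⟨p049_k15, nat_lit 0, nat_lit 0, nat_lit 377, nat_lit 0, nat_lit 279237, [nat_lit 4688000000, nat_lit 6250000000, nat_lit 11872000000], [], [nat_lit 28290616089, nat_lit 29169536105, nat_lit 38791200977, nat_lit 39342583201, nat_lit 27809786709, nat_lit 28207263792, nat_lit 35341030645, nat_lit 35846244826], nat_lit 1271250, nat_lit 1271250, nat_lit 1271250, nat_lit 1271250, nat_lit 0, nat_lit 2373000, [nat_lit 1100000, nat_lit 1442500, nat_lit 1271250], [nat_lit 48, nat_lit 40, nat_lit 40, nat_lit 80, nat_lit 12, nat_lit 483, nat_lit 250, nat_lit 12]⟩, ⟨p049_k15, nat_lit 0, nat_lit 0, nat_lit 377, nat_lit 0, nat_lit 279237, [nat_lit 4688000000, nat_lit 6250000000, nat_lit 11872000000], [], [nat_lit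 28290616089, nat_lit 29169536105, nat_lit 38791200977, nat_lit 39342583201, nat_lit 27809786709, nat_lit 28207263792, nat_lit 35341030645, nat_lit 35846244826], nat_lit 1271250, nat_lit 1271250, nat_lit 1271250, nat_lit 1271250, nat_lit 0, nat_lit 2373000, [nat_lit 1100000, nat_lit 1442500, nat_lit 1271250], [nat_lit 48, nat_lit 40, nat_lit 40, nat_lit 80, nat_lit 12, nat_lit 483, nat_lit 250, nat_lit 12]⟩,
 zbF0, [⟨nat_lit 4, nat_lit 88, nat_lit 100, nat_lit 74, nat_lit 185654114⟩, ⟨nat_lit 7, nat_lit 88, nat_lit 100, nat_lit 74, nat_lit 185654114⟩]⟩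
noncomputable def p049_l80 : Lf2 := ⟨nat_lit 0, nat_lit 10, [nat_lit 0, nat_lit 5, nat_lit 5, nat_lit 20], false, nat_lit 0, nat_lit 320, nat_lit 0, nat_lit 336, ⟨nat_lit 1000, nat_lit 0, nat_lit 0, nat_lit 0, nat_lit 0, nat_lit 0, nat_lit 0, nat_lit 0, nat_lit 0, nat_lit 0, nat_lit 0, nat_lit 0, nat_lit 0, nat_lit 0, nat_lit 0, nat_lit 0, false, false⟩,
 nat_lit 14137, nat_lit 0, nat_lit 0, nat_lit 0, nat_lit 7412, nat_lit 7484, nat_lit 1298, nat_lit 0, nat_lit 0, nat_lit 1567, nat_lit 0, nat_lit 0, nat_lit 0, nat_lit 0, nat_lit 0, nat_lit 0, nat_lit 0, nat_lit 0, [],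
 ⟨p049_k8, nat_lit 0, nat_lit 0, nat_lit 424, nat_lit 0, nat_lit 472390, [nat_lit 4688000000, nat_lit 6250000000, nat_lit 9842000000], [], [nat_lit 27929442834, nat_lit 28541500266, nat_lit 38393340048, nat_lit 39413269792, nat_lit 26390663186, nat_lit 26676376682, nat_lit 34486898416, nat_lit 35035456800], nat_lit 1271250, nat_lit 1271250, nat_lit 1271250, nat_lit 1271250, nat_lit 0, nat_lit 2260000, [nat_lit 1100000, nat_lit 1442500, nat_lit 1271250], [nat_lit 11, nat_lit 40, nat_lit 40, nat_lit 80, nat_lit 1, nat_lit 483, nat_lit 250, nat_lit 14]⟩, ⟨p049_k15, nat_lit 0, nat_lit 0, nat_lit 500, nat_lit 0, nat_lit 531831, [nat_lit 4688000000, nat_lit 6250000000, nat_lit 11872000000], [], [nat_lit 30586743169, nat_lit 31655358497, nat_lit 38383432449, nat_lit 39601666144, nat_lit 29211953157, nat_lit 29773024093, nat_lit 34989323178, nat_lit 35998157597], nat_lit 1271250, nat_lit 1271250, nat_lit 1271250, nat_lit 1271250,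 nat_lit 0, nat_lit 2373000, [nat_lit 1100000, nat_lit 1442500, nat_lit 1271250], [nat_lit 48, nat_lit 40, nat_lit 40, nat_lit 80, nat_lit 12, nat_lit 538, nat_lit 300, nat_lit 13]⟩,
 zbF0, [⟨nat_lit 16, nat_lit 100, nat_lit 97, nat_lit 76, nat_lit 154056220⟩, ⟨nat_lit 7, nat_lit 92, nat_lit 100, nat_lit 75, nat_lit 181032131⟩]⟩
noncomputable def b_V_600_600_10_73 : St := ⟨true, nat_lit 1, nat_lit 1, nat_lit 1, nat_lit 80, nat_lit 240, nat_lit 280, nat_lit 240, nat_lit 280, nat_lit 240, nat_lit 400, nat_lit 40, nat_lit 80, nat_lit 0, nat_lit 336, nat_lit 0, nat_lit 336, nat_lit 0, nat_lit 40, nat_lit 0, nat_lit 0, nat_lit 0, nat_lit 0⟩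
theorem d_V_600_600_10_73 (h : EB TB.env) : Dead b_V_600_600_10_73 := chkB_sound0 h (T :=
(.spl (nat_lit 0) (nat_lit 260)
(.ord (.leaf p049_l79))
(.trX (nat_lit 16) (nat_lit 100) (nat_lit 85) (nat_lit 84) (nat_lit 320) (.leaf p049_l80)))) (by decide +kernel)
noncomputable def p049_l81 : Lf2 := ⟨nat_lit 0, nat_lit 3, [nat_lit 45, nat_lit 5, nat_lit 5, nat_lit 20], true, nat_lit 0, nat_lit 160, nat_lit 0, nat_lit 336, ⟨nat_lit 0, nat_lit 1000, nat_lit 0, nat_lit 6, nat_lit 110, nat_lit 1000, nat_lit 54, nat_lit 0, nat_lit 0, nat_lit 0, nat_lit 0, nat_lit 0, nat_lit 0, nat_lit 0, nat_lit 0, nat_lit 5000000, false, false⟩,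
 nat_lit 0, nat_lit 7713, nat_lit 0, nat_lit 0, nat_lit 4083, nat_lit 0, nat_lit 0, nat_lit 0, nat_lit 0, nat_lit 0, nat_lit 0, nat_lit 0, nat_lit 0, nat_lit 10882512357611, nat_lit 0, nat_lit 1000000, nat_lit 0, nat_lit 0, [(nat_lit 6, [(nat_lit 2, nat_lit 1000)])],
 ⟨p049_k38, nat_lit 0, nat_lit 0, nat_lit 274, nat_lit 0, nat_lit 158013, [nat_lit 2819200000, nat_lit 2800800000, nat_lit 2471200000], [], [nat_lit 32952380917, nat_lit 32415921672, nat_lit 24994907336, nat_lit 24493492480, nat_lit 27705090645, nat_lit 27213405578, nat_lit 31644872984, nat_lit 31170324268], nat_lit 1271250, nat_lit 1271250, nat_lit 88400, nat_lit 780000, nat_lit 0, nat_lit 1100001, [nat_lit 1100000, nat_lit 1442500, nat_lit 1271250], [nat_lit 9, nat_lit 40, nat_lit 40, nat_lit 80, nat_lit 2, nat_lit 289, nat_lit 75, nat_lit 10]⟩, C1.Rw.none,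
 ⟨nat_lit 6224, nat_lit 6325, ⟨.ofNat (nat_lit 164319), .ofNat (nat_lit 378206), .ofNat (nat_lit 169661), .ofNat (nat_lit 383548), .ofNat (nat_lit 168651), .ofNat (nat_lit 380076), .ofNat (nat_lit 173990), .ofNat (nat_lit 385416)⟩, ⟨.negSucc (nat_lit 82265), .ofNat (nat_lit 246791), .negSucc (nat_lit 39529), .ofNat (nat_lit 289527), .negSucc (nat_lit 77442), .ofNat (nat_lit 247827), .negSucc (nat_lit 34729), .ofNat (nat_lit 290541)⟩⟩, []⟩
noncomputable def p049_l82 : Lf2 := ⟨nat_lit 0, nat_lit 3, [nat_lit 45, nat_lit 5, nat_lit 5, nat_lit 20], true, nat_lit 0, nat_lit 160, nat_lit 0, nat_lit 336, ⟨nat_lit 0, nat_lit 1000, nat_lit 0, nat_lit 6, nat_lit 112, nat_lit 1000, nat_lit 54, nat_lit 0, nat_lit 0, nat_lit 0, nat_lit 0, nat_lit 0, nat_lit 0, nat_lit 0, nat_lit 0, nat_lit 5000000, false, false⟩,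
 nat_lit 0, nat_lit 6843, nat_lit 0, nat_lit 0, nat_lit 3711, nat_lit 0, nat_lit 1715, nat_lit 0, nat_lit 0, nat_lit 0, nat_lit 0, nat_lit 0, nat_lit 0, nat_lit 24637323195181, nat_lit 0, nat_lit 1000000, nat_lit 0, nat_lit 0, [(nat_lit 6, [(nat_lit 2, nat_lit 1000)])],
 ⟨p049_k39, nat_lit 0, nat_lit 0, nat_lit 302, nat_lit 0, nat_lit 253176, [nat_lit 2819200000, nat_lit 2800800000, nat_lit 2471200000], [], [nat_lit 32055282143, nat_lit 31567699419, nat_lit 24357308352, nat_lit 23959026347, nat_lit 26978248395, nat_lit 26531360497, nat_lit 30826699548, nat_lit 30395386717], nat_lit 1271250, nat_lit 1271250, nat_lit 88400, nat_lit 780000, nat_lit 0, nat_lit 1100001, [nat_lit 1100000, nat_lit 1442500, nat_lit 1271250], [nat_lit 9, nat_lit 40, nat_lit 40, nat_lit 80, nat_lit 2, nat_lit 289, nat_lit 75, nat_lit 10]⟩, C1.Rw.none,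
 ⟨nat_lit 6123, nat_lit 6225, ⟨.ofNat (nat_lit 168651), .ofNat (nat_lit 380076), .ofNat (nat_lit 179329), .ofNat (nat_lit 390755), .ofNat (nat_lit 172944), .ofNat (nat_lit 381933), .ofNat (nat_lit 183618), .ofNat (nat_lit 392607)⟩, ⟨.negSucc (nat_lit 77442), .ofNat (nat_lit 247827), .negSucc (nat_lit 34729), .ofNat (nat_lit 290541), .negSucc (nat_lit 72689), .ofNat (nat_lit 248833), .negSucc (nat_lit 29993), .ofNat (nat_lit 291529)⟩⟩, []⟩
noncomputable def p049_l83 : Lf2 := ⟨nat_lit 1, nat_lit 6, [nat_lit 47, nat_lit 5, nat_lit 5, nat_lit 20], false, nat_lit 0, nat_lit 160, nat_lit 0, nat_lit 336, zbN0,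
 nat_lit 0, nat_lit 0, nat_lit 0, nat_lit 0, nat_lit 0, nat_lit 0, nat_lit 0, nat_lit 0, nat_lit 0, nat_lit 0, nat_lit 0, nat_lit 0, nat_lit 0, nat_lit 0, nat_lit 0, nat_lit 0, nat_lit 0, nat_lit 0, [],
 C1.Rw.none, C1.Rw.none,
 zbF0, []⟩
noncomputable def p049_l84 : Lf2 := ⟨nat_lit 0, nat_lit 6, [nat_lit 47, nat_lit 5, nat_lit 5, nat_lit 20], true, nat_lit 0, nat_lit 160, nat_lit 0, nat_lit 336, ⟨nat_lit 0, nat_lit 1000, nat_lit 0, nat_lit 6, nat_lit 116, nat_lit 1000, nat_lit 54, nat_lit 0, nat_lit 0, nat_lit 0, nat_lit 0, nat_lit 0, nat_lit 0, nat_lit 0, nat_lit 0, nat_lit 5000000, false, false⟩,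
 nat_lit 0, nat_lit 7244, nat_lit 0, nat_lit 0, nat_lit 4024, nat_lit 0, nat_lit 1927, nat_lit 0, nat_lit 0, nat_lit 0, nat_lit 0, nat_lit 0, nat_lit 0, nat_lit 25105099436303, nat_lit 0, nat_lit 400000, nat_lit 0, nat_lit 0, [(nat_lit 6, [(nat_lit 1, nat_lit 1000)])],
 ⟨p049_k40, nat_lit 0, nat_lit 0, nat_lit 450, nat_lit 0, nat_lit 352005, [nat_lit 2692266667, nat_lit 3151066667, nat_lit 3294533333], [], [nat_lit 31025289353, nat_lit 30497382805, nat_lit 23202452696, nat_lit 23398104944, nat_lit 25856599477, nat_lit 25372690339, nat_lit 29742459329, nat_lit 29274767917], nat_lit 1271250, nat_lit 1271250, nat_lit 111251, nat_lit 780000, nat_lit 0, nat_lit 1100001, [nat_lit 1100000, nat_lit 1442500, nat_lit 1271250], [nat_lit 11, nat_lit 40, nat_lit 40, nat_lit 80, nat_lit 1, nat_lit 373, nat_lit 150, nat_lit 11]⟩, C1.Rw.none,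
 ⟨nat_lit 6020, nat_lit 6124, ⟨.ofNat (nat_lit 180982), .ofNat (nat_lit 381933), .ofNat (nat_lit 196993), .ofNat (nat_lit 397944), .ofNat (nat_lit 185145), .ofNat (nat_lit 383777), .ofNat (nat_lit 201152), .ofNat (nat_lit 399784)⟩, ⟨.negSucc (nat_lit 72689), .ofNat (nat_lit 248833), .negSucc (nat_lit 29993), .ofNat (nat_lit 291529), .negSucc (nat_lit 68003), .ofNat (nat_lit 249807), .negSucc (nat_lit 25318), .ofNat (nat_lit 292492)⟩⟩, []⟩
noncomputable def p049_l85 : Lf2 := ⟨nat_lit 0, nat_lit 6, [nat_lit 47, nat_lit 5, nat_lit 5, nat_lit 20], true, nat_lit 0, nat_lit 160, nat_lit 0, nat_lit 336, ⟨nat_lit 0, nat_lit 1000, nat_lit 0, nat_lit 6, nat_lit 119, nat_lit 1000, nat_lit 54, nat_lit 0, nat_lit 0, nat_lit 0, nat_lit 0, nat_lit 0, nat_lit 0, nat_lit 0, nat_lit 0, nat_lit 5000000, false, false⟩,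
 nat_lit 0, nat_lit 6332, nat_lit 0, nat_lit 0, nat_lit 3601, nat_lit 0, nat_lit 1981, nat_lit 0, nat_lit 0, nat_lit 0, nat_lit 0, nat_lit 0, nat_lit 0, nat_lit 23720223223305, nat_lit 0, nat_lit 400000, nat_lit 0, nat_lit 0, [(nat_lit 6, [(nat_lit 1, nat_lit 1000)])],
 ⟨p049_k41, nat_lit 0, nat_lit 0, nat_lit 483, nat_lit 0, nat_lit 441538, [nat_lit 2692266667, nat_lit 3151066667, nat_lit 3294533333], [], [nat_lit 30242934135, nat_lit 29770520745, nat_lit 23376434830, nat_lit 23565270644, nat_lit 25139796632, nat_lit 24706755676, nat_lit 28912884273, nat_lit 28494356247], nat_lit 1271250, nat_lit 1271250, nat_lit 111251, nat_lit 780000, nat_lit 0, nat_lit 1100001, [nat_lit 1100000, nat_lit 1442500, nat_lit 1271250], [nat_lit 11, nat_lit 40, nat_lit 40, nat_lit 80, nat_lit 1, nat_lit 373, nat_lit 150, nat_lit 11]⟩, C1.Rw.none,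
 ⟨nat_lit 5916, nat_lit 6021, ⟨.ofNat (nat_lit 185145), .ofNat (nat_lit 383777), .ofNat (nat_lit 206488), .ofNat (nat_lit 405120), .ofNat (nat_lit 189276), .ofNat (nat_lit 385610), .ofNat (nat_lit 210615), .ofNat (nat_lit 406949)⟩, ⟨.negSucc (nat_lit 68003), .ofNat (nat_lit 249807), .negSucc (nat_lit 25318), .ofNat (nat_lit 292492), .negSucc (nat_lit 63383), .ofNat (nat_lit 250751), .negSucc (nat_lit 20704), .ofNat (nat_lit 293429)⟩⟩, []⟩
noncomputable def p049_l86 : Lf2 := ⟨nat_lit 0, nat_lit 6, [nat_lit 47, nat_lit 5, nat_lit 5, nat_lit 20], false, nat_lit 0, nat_lit 160, nat_lit 0, nat_lit 336, ⟨nat_lit 450, nat_lit 550, nat_lit 0, nat_lit 6, nat_lit 203, nat_lit 550, nat_lit 54, nat_lit 0, nat_lit 0, nat_lit 0, nat_lit 0, nat_lit 0, nat_lit 0, nat_lit 0, nat_lit 0, nat_lit 5000000, false, false⟩,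
 nat_lit 0, nat_lit 5330, nat_lit 0, nat_lit 3534, nat_lit 2821, nat_lit 3972, nat_lit 590, nat_lit 0, nat_lit 0, nat_lit 1008, nat_lit 0, nat_lit 0, nat_lit 0, nat_lit 14763335173931, nat_lit 0, nat_lit 220000, nat_lit 0, nat_lit 0, [(nat_lit 6, [(nat_lit 1, nat_lit 550)])],
 ⟨p049_k42, nat_lit 0, nat_lit 0, nat_lit 305, nat_lit 0, nat_lit 267923, [nat_lit 3590346667, nat_lit 4545586667, nat_lit 6184477778], [], [nat_lit 34508862170, nat_lit 33751511121, nat_lit 32931595112, nat_lit 33243755435, nat_lit 30811505248, nat_lit 31134462097, nat_lit 36970311325, nat_lit 36323213419], nat_lit 1271250, nat_lit 1271250, nat_lit 780000, nat_lit 1762500, nat_lit 0, nat_lit 1100001, [nat_lit 1100000, nat_lit 1442500, nat_lit 1271250], [nat_lit 11, nat_lit 40, nat_lit 40, nat_lit 80, nat_lit 1, nat_lit 401, nat_lit 175, nat_lit 12]⟩, ⟨p049_k42, nat_lit 0, nat_lit 0, nat_lit 142, nat_lit 0, nat_lit 0, [nat_lit 2109600000, nat_lit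 2812500000, nat_lit 4428900000], [], [nat_lit 8006192784, nat_lit 8428969638, nat_lit 9879675456, nat_lit 10201381272, nat_lit 10085622788, nat_lit 10340448154, nat_lit 11170689884, nat_lit 11425782098], nat_lit 0, nat_lit 0, nat_lit 0, nat_lit 0, nat_lit 0, nat_lit 0, [], [nat_lit 11, nat_lit 40, nat_lit 40, nat_lit 80, nat_lit 1, nat_lit 456, nat_lit 225, nat_lit 13]⟩,
 ⟨nat_lit 6123, nat_lit 6325, ⟨.ofNat (nat_lit 378206), .ofNat (nat_lit 624989), .ofNat (nat_lit 388890), .ofNat (nat_lit 635673), .ofNat (nat_lit 381933), .ofNat (nat_lit 623066), .ofNat (nat_lit 392607), .ofNat (nat_lit 633740)⟩, ⟨.negSucc (nat_lit 82265), .ofNat (nat_lit 246791), .negSucc (nat_lit 39529), .ofNat (nat_lit 289527), .negSucc (nat_lit 72689), .ofNat (nat_lit 248833), .negSucc (nat_lit 29993), .ofNat (nat_lit 291529)⟩⟩, [⟨nat_lit 7, nat_lit 86, nat_lit 100, nat_lit 73, nat_lit 141706399⟩]⟩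
noncomputable def p049_l87 : Lf2 := ⟨nat_lit 0, nat_lit 6, [nat_lit 47, nat_lit 5, nat_lit 5, nat_lit 20], false, nat_lit 0, nat_lit 160, nat_lit 0, nat_lit 336, ⟨nat_lit 507, nat_lit 493, nat_lit 0, nat_lit 6, nat_lit 205, nat_lit 493, nat_lit 54, nat_lit 0, nat_lit 0, nat_lit 0, nat_lit 0, nat_lit 0, nat_lit 0, nat_lit 0, nat_lit 0, nat_lit 5000000, false, false⟩,
 nat_lit 0, nat_lit 4988, nat_lit 0, nat_lit 3555, nat_lit 2771, nat_lit 4409, nat_lit 956, nat_lit 0, nat_lit 0, nat_lit 1134, nat_lit 0, nat_lit 0, nat_lit 0, nat_lit 11940599070308, nat_lit 0, nat_lit 197200, nat_lit 0, nat_lit 0, [(nat_lit 6, [(nat_lit 1, nat_lit 493)])],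
 ⟨p049_k40, nat_lit 0, nat_lit 0, nat_lit 426, nat_lit 0, nat_lit 456658, [nat_lit 3704103467, nat_lit 4722225867, nat_lit 6555446445], [], [nat_lit 33862562371, nat_lit 33118634772, nat_lit 32067624452, nat_lit 32378701625, nat_lit 29997900014, nat_lit 30319593413, nat_lit 36704590919, nat_lit 36068962313], nat_lit 1271250, nat_lit 1271250, nat_lit 780000, nat_lit 1762500, nat_lit 0, nat_lit 1100001, [nat_lit 1100000, nat_lit 1442500, nat_lit 1271250], [nat_lit 11, nat_lit 40, nat_lit 40, nat_lit 80, nat_lit 1, nat_lit 401, nat_lit 175, nat_lit 12]⟩, ⟨p049_k42, nat_lit 0, nat_lit 0, nat_lit 146, nat_lit 0, nat_lit 0, [nat_lit 2376816000, nat_lit 3168750000, nat_lit 4989894000], [], [nat_lit 9033804036, nat_lit 9977487804, nat_lit 11138261804, nat_lit 11857055746, nat_lit 11405554287, nat_lit 11986760530, nat_lit 12559798580, nat_lit 13130410129], nat_lit 0, nat_lit 0, nat_lit 0, nat_lit 0, nat_lit 0, nat_lit 0, [],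 [nat_lit 11, nat_lit 40, nat_lit 40, nat_lit 80, nat_lit 1, nat_lit 456, nat_lit 225, nat_lit 13]⟩,
 ⟨nat_lit 5916, nat_lit 6124, ⟨.ofNat (nat_lit 381933), .ofNat (nat_lit 623067), .ofNat (nat_lit 403281), .ofNat (nat_lit 644413), .ofNat (nat_lit 385610), .ofNat (nat_lit 621203), .ofNat (nat_lit 406949), .ofNat (nat_lit 642539)⟩, ⟨.negSucc (nat_lit 72689), .ofNat (nat_lit 248833), .negSucc (nat_lit 29993), .ofNat (nat_lit 291529), .negSucc (nat_lit 63383), .ofNat (nat_lit 250751), .negSucc (nat_lit 20704), .ofNat (nat_lit 293429)⟩⟩, [⟨nat_lit 19, nat_lit 100, nat_lit 88, nat_lit 74, nat_lit 155440274⟩]⟩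
noncomputable def p049_l88 : Lf2 := ⟨nat_lit 0, nat_lit 3, [nat_lit 45, nat_lit 5, nat_lit 5, nat_lit 20], true, nat_lit 160, nat_lit 336, nat_lit 0, nat_lit 336, ⟨nat_lit 0, nat_lit 1000, nat_lit 0, nat_lit 6, nat_lit 161, nat_lit 1000, nat_lit 179, nat_lit 0, nat_lit 0, nat_lit 0, nat_lit 0, nat_lit 0, nat_lit 0, nat_lit 0, nat_lit 0, nat_lit 5000000, false, false⟩,
 nat_lit 0, nat_lit 8705, nat_lit 0, nat_lit 0, nat_lit 4608, nat_lit 0, nat_lit 203, nat_lit 0, nat_lit 0, nat_lit 0, nat_lit 0, nat_lit 0, nat_lit 0, nat_lit 8111018646678, nat_lit 0, nat_lit 1000000, nat_lit 0, nat_lit 0, [(nat_lit 6, [(nat_lit 2, nat_lit 1000)])],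
 ⟨p049_k38, nat_lit 0, nat_lit 0, nat_lit 249, nat_lit 0, nat_lit 262161, [nat_lit 2819200000, nat_lit 2800800000, nat_lit 2471200000], [], [nat_lit 30711126957, nat_lit 29500250541, nat_lit 29362245856, nat_lit 28261652704, nat_lit 26606836458, nat_lit 26902765352, nat_lit 26487409345, nat_lit 26703393255], nat_lit 1271250, nat_lit 1271250, nat_lit 88400, nat_lit 1704000, nat_lit 1271250, nat_lit 1271250, [nat_lit 1100000, nat_lit 1442500, nat_lit 1271250], [nat_lit 9, nat_lit 40, nat_lit 40, nat_lit 80, nat_lit 2, nat_lit 373, nat_lit 150, nat_lit 12]⟩, C1.Rw.none,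
 ⟨nat_lit 6123, nat_lit 6325, ⟨.ofNat (nat_lit 164319), .ofNat (nat_lit 624989), .ofNat (nat_lit 175003), .ofNat (nat_lit 635673), .ofNat (nat_lit 172944), .ofNat (nat_lit 623066), .ofNat (nat_lit 183618), .ofNat (nat_lit 633740)⟩, ⟨.ofNat (nat_lit 246791), .ofNat (nat_lit 608747), .ofNat (nat_lit 289527), .ofNat (nat_lit 651479), .ofNat (nat_lit 248833), .ofNat (nat_lit 602501), .ofNat (nat_lit 291529), .ofNat (nat_lit 645194)⟩⟩, []⟩
noncomputable def p049_l89 : Lf2 := ⟨nat_lit 1, nat_lit 6, [nat_lit 47, nat_lit 5, nat_lit 5, nat_lit 20], false, nat_lit 160, nat_lit 336, nat_lit 0, nat_lit 336, zbN0,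
 nat_lit 0, nat_lit 0, nat_lit 0, nat_lit 0, nat_lit 0, nat_lit 0, nat_lit 0, nat_lit 0, nat_lit 0, nat_lit 0, nat_lit 0, nat_lit 0, nat_lit 0, nat_lit 0, nat_lit 0, nat_lit 0, nat_lit 0, nat_lit 0, [],
 C1.Rw.none, C1.Rw.none,
 zbF0, []⟩
noncomputable def p049_l90 : Lf2 := ⟨nat_lit 0, nat_lit 6, [nat_lit 47, nat_lit 5, nat_lit 5, nat_lit 20], true, nat_lit 160, nat_lit 304, nat_lit 0, nat_lit 312, ⟨nat_lit 0, nat_lit 1000, nat_lit 0, nat_lit 6, nat_lit 164, nat_lit 1000, nat_lit 162, nat_lit 0, nat_lit 0, nat_lit 0, nat_lit 0, nat_lit 0, nat_lit 0, nat_lit 0, nat_lit 0, nat_lit 5000000, false, false⟩,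
 nat_lit 0, nat_lit 7728, nat_lit 0, nat_lit 0, nat_lit 4293, nat_lit 0, nat_lit 1971, nat_lit 0, nat_lit 0, nat_lit 0, nat_lit 0, nat_lit 0, nat_lit 0, nat_lit 25628152851564, nat_lit 0, nat_lit 400000, nat_lit 0, nat_lit 0, [(nat_lit 6, [(nat_lit 1, nat_lit 1000)])],
 ⟨p049_k40, nat_lit 0, nat_lit 0, nat_lit 311, nat_lit 0, nat_lit 339652, [nat_lit 2692266667, nat_lit 3151066667, nat_lit 3294533333], [], [nat_lit 28530125173, nat_lit 27966928650, nat_lit 27896934318, nat_lit 27384255672, nat_lit 24598107845, nat_lit 24771521412, nat_lit 25431421956, nat_lit 25559341970], nat_lit 1271250, nat_lit 1271250, nat_lit 111251, nat_lit 1706250, nat_lit 1271250, nat_lit 1271250, [nat_lit 1100000, nat_lit 1442500, nat_lit 1271250], [nat_lit 11, nat_lit 40, nat_lit 40, nat_lit 80, nat_lit 1, nat_lit 428, nat_lit 200, nat_lit 12]⟩, C1.Rw.none,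
 ⟨nat_lit 6020, nat_lit 6124, ⟨.ofNat (nat_lit 180982), .ofNat (nat_lit 623074), .ofNat (nat_lit 196993), .ofNat (nat_lit 639084), .ofNat (nat_lit 185145), .ofNat (nat_lit 622134), .ofNat (nat_lit 201152), .ofNat (nat_lit 638141)⟩, ⟨.ofNat (nat_lit 248833), .ofNat (nat_lit 538203), .ofNat (nat_lit 270181), .ofNat (nat_lit 559551), .ofNat (nat_lit 249807), .ofNat (nat_lit 535837), .ofNat (nat_lit 271150), .ofNat (nat_lit 557179)⟩⟩, []⟩
noncomputable def p049_l91 : Lf2 := ⟨nat_lit 0, nat_lit 6, [nat_lit 47, nat_lit 5, nat_lit 5, nat_lit 20], true, nat_lit 160, nat_lit 300, nat_lit 0, nat_lit 312, ⟨nat_lit 0, nat_lit 1000, nat_lit 0, nat_lit 6, nat_lit 166, nat_lit 1000, nat_lit 160, nat_lit 0, nat_lit 0, nat_lit 0, nat_lit 0, nat_lit 0, nat_lit 0, nat_lit 0, nat_lit 0, nat_lit 5000000, false, false⟩,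
 nat_lit 0, nat_lit 7659, nat_lit 0, nat_lit 0, nat_lit 4356, nat_lit 0, nat_lit 2368, nat_lit 0, nat_lit 0, nat_lit 0, nat_lit 0, nat_lit 0, nat_lit 0, nat_lit 25455839179060, nat_lit 0, nat_lit 400000, nat_lit 0, nat_lit 0, [(nat_lit 6, [(nat_lit 1, nat_lit 1000)])],
 ⟨p049_k41, nat_lit 0, nat_lit 0, nat_lit 342, nat_lit 0, nat_lit 426270, [nat_lit 2692266667, nat_lit 3151066667, nat_lit 3294533333], [], [nat_lit 28004825260, nat_lit 27433363798, nat_lit 26689666830, nat_lit 26169464598, nat_lit 23558661505, nat_lit 23761554915, nat_lit 24851154717, nat_lit 25000177853], nat_lit 1271250, nat_lit 1271250, nat_lit 111251, nat_lit 1706250, nat_lit 1271250, nat_lit 1271250, [nat_lit 1100000, nat_lit 1442500, nat_lit 1271250], [nat_lit 11, nat_lit 40, nat_lit 40, nat_lit 80, nat_lit 1, nat_lit 428, nat_lit 200, nat_lit 12]⟩, C1.Rw.none,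
 ⟨nat_lit 5916, nat_lit 6021, ⟨.ofNat (nat_lit 185145), .ofNat (nat_lit 622134), .ofNat (nat_lit 206488), .ofNat (nat_lit 643476), .ofNat (nat_lit 189276), .ofNat (nat_lit 621209), .ofNat (nat_lit 210615), .ofNat (nat_lit 642548)⟩, ⟨.ofNat (nat_lit 249807), .ofNat (nat_lit 527892), .ofNat (nat_lit 271150), .ofNat (nat_lit 549234), .ofNat (nat_lit 250751), .ofNat (nat_lit 525618), .ofNat (nat_lit 272090), .ofNat (nat_lit 546957)⟩⟩, []⟩
noncomputable def p049_l92 : Lf2 := ⟨nat_lit 0, nat_lit 6, [nat_lit 47, nat_lit 5, nat_lit 5, nat_lit 20], true, nat_lit 160, nat_lit 328, nat_lit 0, nat_lit 336, ⟨nat_lit 0, nat_lit 1000, nat_lit 0, nat_lit 6, nat_lit 166, nat_lit 1000, nat_lit 179, nat_lit 0, nat_lit 0, nat_lit 0, nat_lit 0, nat_lit 0, nat_lit 0, nat_lit 0, nat_lit 0, nat_lit 5000000, false, false⟩,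
 nat_lit 0, nat_lit 8899, nat_lit 0, nat_lit 0, nat_lit 4943, nat_lit 0, nat_lit 1650, nat_lit 0, nat_lit 0, nat_lit 0, nat_lit 0, nat_lit 0, nat_lit 0, nat_lit 27475409319525, nat_lit 0, nat_lit 400000, nat_lit 0, nat_lit 0, [(nat_lit 6, [(nat_lit 1, nat_lit 1000)])],
 ⟨p049_k40, nat_lit 0, nat_lit 0, nat_lit 232, nat_lit 0, nat_lit 215775, [nat_lit 2692266667, nat_lit 3151066667, nat_lit 3294533333], [], [nat_lit 29006395123, nat_lit 27709455726, nat_lit 27669239018, nat_lit 26488633126, nat_lit 24599678968, nat_lit 24935577969, nat_lit 24635015392, nat_lit 24877910629], nat_lit 1271250, nat_lit 1271250, nat_lit 111251, nat_lit 1706250, nat_lit 1271250, nat_lit 1271250, [nat_lit 1100000, nat_lit 1442500, nat_lit 1271250], [nat_lit 11, nat_lit 40, nat_lit 40, nat_lit 80, nat_lit 1, nat_lit 456, nat_lit 225, nat_lit 13]⟩, C1.Rw.none,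
 ⟨nat_lit 5916, nat_lit 6124, ⟨.ofNat (nat_lit 180982), .ofNat (nat_lit 623067), .ofNat (nat_lit 202330), .ofNat (nat_lit 644413), .ofNat (nat_lit 189276), .ofNat (nat_lit 621203), .ofNat (nat_lit 210615), .ofNat (nat_lit 642539)⟩, ⟨.ofNat (nat_lit 270181), .ofNat (nat_lit 607776), .ofNat (nat_lit 291529), .ofNat (nat_lit 629122), .ofNat (nat_lit 272090), .ofNat (nat_lit 601927), .ofNat (nat_lit 293429), .ofNat (nat_lit 623264)⟩⟩, []⟩
noncomputable def p049_l93 : Lf2 := ⟨nat_lit 1, nat_lit 10, [nat_lit 0, nat_lit 5, nat_lit 5, nat_lit 20], false, nat_lit 0, nat_lit 336, nat_lit 0, nat_lit 336, zbN0,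
 nat_lit 0, nat_lit 0, nat_lit 0, nat_lit 0, nat_lit 0, nat_lit 0, nat_lit 0, nat_lit 0, nat_lit 0, nat_lit 0, nat_lit 0, nat_lit 0, nat_lit 0, nat_lit 0, nat_lit 0, nat_lit 0, nat_lit 0, nat_lit 0, [],
 C1.Rw.none, C1.Rw.none,
 zbF0, []⟩
noncomputable def b_V_600_600_10_74 : St := ⟨true, nat_lit 1, nat_lit 0, nat_lit 2, nat_lit 80, nat_lit 240, nat_lit 260, nat_lit 240, nat_lit 280, nat_lit 16, nat_lit 240, nat_lit 40, nat_lit 80, nat_lit 0, nat_lit 336, nat_lit 0, nat_lit 336, nat_lit 0, nat_lit 40, nat_lit 0, nat_lit 0, nat_lit 0, nat_lit 0⟩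
theorem d_V_600_600_10_74 (h : EB TB.env) : Dead b_V_600_600_10_74 := chkB_sound0 h (T :=
(.ord (.spl (nat_lit 6) (nat_lit 24)
(.spl (nat_lit 4) (nat_lit 160)
(.spl (nat_lit 2) (nat_lit 120)
(.spl (nat_lit 0) (nat_lit 250)
(.ord (.spl (nat_lit 6) (nat_lit 12)
(.spl (nat_lit 0) (nat_lit 245)
(.ord (.leaf p049_l81))
(.leaf p049_l82))
(.leaf p049_l83)))
(.trZ (nat_lit 0) (nat_lit 100) (nat_lit 99) (nat_lit 45) (nat_lit 20) (.spl (nat_lit 0) (nat_lit 255)
(.ord (.leaf p049_l84))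
(.leaf p049_l85))))
(.spl (nat_lit 0) (nat_lit 250)
(.ord (.leaf p049_l86))
(.leaf p049_l87)))
(.spl (nat_lit 0) (nat_lit 250)
(.ord (.spl (nat_lit 6) (nat_lit 12)
(.leaf p049_l88)
(.leaf p049_l89)))
(.trZ (nat_lit 0) (nat_lit 100) (nat_lit 99) (nat_lit 45) (nat_lit 20) (.trX (nat_lit 16) (nat_lit 100) (nat_lit 81) (nat_lit 83) (nat_lit 328) (.spl (nat_lit 3) (nat_lit 60)
(.trX (nat_lit 16) (nat_lit 100) (nat_lit 88) (nat_lit 74) (nat_lit 304) (.trX (nat_lit 19) (nat_lit 100) (nat_lit 85) (nat_lit 73) (nat_lit 312) (.spl (nat_lit 0) (nat_lit 255)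
(.ord (.leaf p049_l90))
(.trX (nat_lit 16) (nat_lit 100) (nat_lit 90) (nat_lit 74) (nat_lit 300) (.leaf p049_l91)))))
(.leaf p049_l92))))))
(.leaf p049_l93)))) (by decide +kernel)
noncomputable def p049_l94 : Lf2 := ⟨nat_lit 0, nat_lit 10, [nat_lit 0, nat_lit 5, nat_lit 5, nat_lit 20], true, nat_lit 0, nat_lit 160, nat_lit 0, nat_lit 336, ⟨nat_lit 0, nat_lit 1000, nat_lit 0, nat_lit 6, nat_lit 112, nat_lit 1000, nat_lit 55, nat_lit 0, nat_lit 0, nat_lit 0, nat_lit 0, nat_lit 0, nat_lit 0, nat_lit 0, nat_lit 0, nat_lit 5000000, false, false⟩,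
 nat_lit 0, nat_lit 5949, nat_lit 0, nat_lit 0, nat_lit 3462, nat_lit 0, nat_lit 735, nat_lit 0, nat_lit 0, nat_lit 0, nat_lit 0, nat_lit 0, nat_lit 0, nat_lit 23277245216102, nat_lit 0, nat_lit 400000, nat_lit 0, nat_lit 0, [(nat_lit 9, [(nat_lit 1, nat_lit 1000)])],
 ⟨p049_k8, nat_lit 0, nat_lit 0, nat_lit 492, nat_lit 0, nat_lit 472390, [nat_lit 2702720000, nat_lit 2968400001, nat_lit 2997199999], [], [nat_lit 29373160489, nat_lit 27559204045, nat_lit 25302428420, nat_lit 25968055972, nat_lit 25889471129, nat_lit 26196596306, nat_lit 27618907600, nat_lit 25987592428], nat_lit 1271250, nat_lit 1271250, nat_lit 134400, nat_lit 490000, nat_lit 0, nat_lit 1100001, [nat_lit 1100000, nat_lit 1442500, nat_lit 1271250], [nat_lit 11, nat_lit 40, nat_lit 40, nat_lit 80, nat_lit 1, nat_lit 373, nat_lit 150, nat_lit 11]⟩, C1.Rw.none,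
 ⟨nat_lit 5477, nat_lit 5917, ⟨.ofNat (nat_lit 197129), .ofNat (nat_lit 307076), .ofNat (nat_lit 239808), .ofNat (nat_lit 349755), .ofNat (nat_lit 213007), .ofNat (nat_lit 317913), .ofNat (nat_lit 255721), .ofNat (nat_lit 360628)⟩, ⟨.negSucc (nat_lit 63383), .ofNat (nat_lit 250751), .negSucc (nat_lit 20704), .ofNat (nat_lit 293429), .negSucc (nat_lit 45522), .ofNat (nat_lit 254209), .negSucc (nat_lit 2808), .ofNat (nat_lit 296923)⟩⟩, [⟨nat_lit 0, nat_lit 100, nat_lit 98, nat_lit 64, nat_lit 13311013⟩]⟩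
noncomputable def p049_l95 : Lf2 := ⟨nat_lit 0, nat_lit 10, [nat_lit 0, nat_lit 5, nat_lit 5, nat_lit 20], true, nat_lit 0, nat_lit 160, nat_lit 0, nat_lit 336, ⟨nat_lit 0, nat_lit 1000, nat_lit 0, nat_lit 6, nat_lit 144, nat_lit 1000, nat_lit 55, nat_lit 0, nat_lit 0, nat_lit 0, nat_lit 0, nat_lit 0, nat_lit 0, nat_lit 0, nat_lit 0, nat_lit 5000000, false, false⟩,
 nat_lit 0, nat_lit 8035, nat_lit 0, nat_lit 0, nat_lit 4676, nat_lit 0, nat_lit 2084, nat_lit 0, nat_lit 0, nat_lit 0, nat_lit 0, nat_lit 0, nat_lit 0, nat_lit 25895539737107, nat_lit 0, nat_lit 400000, nat_lit 0, nat_lit 0, [(nat_lit 9, [(nat_lit 1, nat_lit 1000)])],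
 ⟨p049_k19, nat_lit 0, nat_lit 0, nat_lit 485, nat_lit 0, nat_lit 541993, [nat_lit 2742800000, nat_lit 3038800001, nat_lit 2882000000], [], [nat_lit 26996108953, nat_lit 26378014231, nat_lit 22088572137, nat_lit 21479782655, nat_lit 23435131705, nat_lit 22884291891, nat_lit 25642050697, nat_lit 25098580259], nat_lit 1271250, nat_lit 1271250, nat_lit 490000, nat_lit 780000, nat_lit 0, nat_lit 1100001, [nat_lit 1100000, nat_lit 1785000, nat_lit 1271250], [nat_lit 29, nat_lit 40, nat_lit 40, nat_lit 80, nat_lit 17, nat_lit 373, nat_lit 150, nat_lit 11]⟩, C1.Rw.none,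
 ⟨nat_lit 5809, nat_lit 5917, ⟨.ofNat (nat_lit 307076), .ofNat (nat_lit 385610), .ofNat (nat_lit 333750), .ofNat (nat_lit 412284), .ofNat (nat_lit 309809), .ofNat (nat_lit 387432), .ofNat (nat_lit 336483), .ofNat (nat_lit 414106)⟩, ⟨.negSucc (nat_lit 63383), .ofNat (nat_lit 250751), .negSucc (nat_lit 20704), .ofNat (nat_lit 293429), .negSucc (nat_lit 58826), .ofNat (nat_lit 251663), .negSucc (nat_lit 16148), .ofNat (nat_lit 294341)⟩⟩, []⟩
noncomputable def p049_l96 : Lf2 := ⟨nat_lit 0, nat_lit 10, [nat_lit 0, nat_lit 5, nat_lit 5, nat_lit 20], true, nat_lit 0, nat_lit 160, nat_lit 0, nat_lit 336, ⟨nat_lit 0, nat_lit 1000, nat_lit 0, nat_lit 6, nat_lit 146, nat_lit 1000, nat_lit 55, nat_lit 0, nat_lit 0, nat_lit 0, nat_lit 0, nat_lit 0, nat_lit 0, nat_lit 0, nat_lit 0, nat_lit 5000000, false, false⟩,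
 nat_lit 0, nat_lit 7943, nat_lit 0, nat_lit 0, nat_lit 4729, nat_lit 0, nat_lit 2346, nat_lit 0, nat_lit 0, nat_lit 0, nat_lit 0, nat_lit 0, nat_lit 0, nat_lit 25679302074708, nat_lit 0, nat_lit 400000, nat_lit 0, nat_lit 0, [(nat_lit 9, [(nat_lit 1, nat_lit 1000)])],
 ⟨p049_k25, nat_lit 0, nat_lit 0, nat_lit 522, nat_lit 0, nat_lit 626503, [nat_lit 2742800000, nat_lit 3038800001, nat_lit 2882000000], [], [nat_lit 24994398859, nat_lit 24369298358, nat_lit 20040648405, nat_lit 20082315544, nat_lit 21368045874, nat_lit 20810962580, nat_lit 23594284046, nat_lit 23044653656], nat_lit 1271250, nat_lit 1271250, nat_lit 490000, nat_lit 780000, nat_lit 0, nat_lit 1100001, [nat_lit 1100000, nat_lit 1785000, nat_lit 1271250], [nat_lit 29, nat_lit 40, nat_lit 40, nat_lit 80, nat_lit 17, nat_lit 373, nat_lit 150, nat_lit 11]⟩, C1.Rw.none,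
 ⟨nat_lit 5700, nat_lit 5810, ⟨.ofNat (nat_lit 309809), .ofNat (nat_lit 387432), .ofNat (nat_lit 341818), .ofNat (nat_lit 419441), .ofNat (nat_lit 312525), .ofNat (nat_lit 389244), .ofNat (nat_lit 344538), .ofNat (nat_lit 421257)⟩, ⟨.negSucc (nat_lit 58826), .ofNat (nat_lit 251663), .negSucc (nat_lit 16148), .ofNat (nat_lit 294341), .negSucc (nat_lit 54331), .ofNat (nat_lit 252544), .negSucc (nat_lit 11648), .ofNat (nat_lit 295228)⟩⟩, []⟩
noncomputable def p049_l97 : Lf2 := ⟨nat_lit 0, nat_lit 10, [nat_lit 0, nat_lit 5, nat_lit 5, nat_lit 20], true, nat_lit 0, nat_lit 160, nat_lit 0, nat_lit 336, ⟨nat_lit 0, nat_lit 1000, nat_lit 0, nat_lit 6, nat_lit 148, nat_lit 1000, nat_lit 55, nat_lit 0, nat_lit 0, nat_lit 0, nat_lit 0, nat_lit 0, nat_lit 0, nat_lit 0, nat_lit 0, nat_lit 5000000, false, false⟩,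
 nat_lit 0, nat_lit 9124, nat_lit 0, nat_lit 0, nat_lit 5556, nat_lit 0, nat_lit 3084, nat_lit 0, nat_lit 0, nat_lit 0, nat_lit 0, nat_lit 0, nat_lit 0, nat_lit 27502557168905, nat_lit 0, nat_lit 400000, nat_lit 0, nat_lit 0, [(nat_lit 9, [(nat_lit 1, nat_lit 1000)])],
 ⟨p049_k11, nat_lit 0, nat_lit 0, nat_lit 574, nat_lit 0, nat_lit 707403, [nat_lit 2702720000, nat_lit 2968400001, nat_lit 2997199999], [], [nat_lit 20636579876, nat_lit 19923942314, nat_lit 19216828144, nat_lit 19446372920, nat_lit 18154140544, nat_lit 18353724632, nat_lit 19071436422, nat_lit 18425687544], nat_lit 1271250, nat_lit 1271250, nat_lit 490000, nat_lit 780000, nat_lit 0, nat_lit 1100001, [nat_lit 1100000, nat_lit 1442500, nat_lit 1271250], [nat_lit 11, nat_lit 40, nat_lit 40, nat_lit 80, nat_lit 1, nat_lit 373, nat_lit 150, nat_lit 11]⟩, C1.Rw.none,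
 ⟨nat_lit 5590, nat_lit 5701, ⟨.ofNat (nat_lit 312525), .ofNat (nat_lit 389244), .ofNat (nat_lit 349874), .ofNat (nat_lit 426593), .ofNat (nat_lit 315226), .ofNat (nat_lit 391049), .ofNat (nat_lit 352585), .ofNat (nat_lit 428408)⟩, ⟨.negSucc (nat_lit 54331), .ofNat (nat_lit 252544), .negSucc (nat_lit 11648), .ofNat (nat_lit 295228), .negSucc (nat_lit 49897), .ofNat (nat_lit 253393), .negSucc (nat_lit 7202), .ofNat (nat_lit 296088)⟩⟩, []⟩
noncomputable def p049_l98 : Lf2 := ⟨nat_lit 0, nat_lit 10, [nat_lit 0, nat_lit 5, nat_lit 5, nat_lit 20], true, nat_lit 0, nat_lit 160, nat_lit 0, nat_lit 336, ⟨nat_lit 0, nat_lit 1000, nat_lit 0, nat_lit 6, nat_lit 150, nat_lit 1000, nat_lit 55, nat_lit 0, nat_lit 0, nat_lit 0, nat_lit 0, nat_lit 0, nat_lit 0, nat_lit 0, nat_lit 0, nat_lit 5000000, false, false⟩,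
 nat_lit 0, nat_lit 9408, nat_lit 0, nat_lit 0, nat_lit 5857, nat_lit 0, nat_lit 2482, nat_lit 0, nat_lit 0, nat_lit 0, nat_lit 0, nat_lit 0, nat_lit 0, nat_lit 34386755412065, nat_lit 2, nat_lit 1000000, nat_lit 0, nat_lit 0, [(nat_lit 9, [(nat_lit 2, nat_lit 1000)])],
 ⟨p049_k43, nat_lit 0, nat_lit 0, nat_lit 603, nat_lit 0, nat_lit 784805, [nat_lit 2695466667, nat_lit 2706533334, nat_lit 383866666], [], [nat_lit 19362796222, nat_lit 18611551045, nat_lit 18140641325, nat_lit 18375527647, nat_lit 16876039864, nat_lit 17079784675, nat_lit 17748995197, nat_lit 17069568539], nat_lit 1271250, nat_lit 1271250, nat_lit 490000, nat_lit 780000, nat_lit 0, nat_lit 1100001, [nat_lit 1100000, nat_lit 1442500, nat_lit 1271250], [nat_lit 11, nat_lit 40, nat_lit 40, nat_lit 80, nat_lit 1, nat_lit 373, nat_lit 150, nat_lit 11]⟩, C1.Rw.none,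
 ⟨nat_lit 5477, nat_lit 5591, ⟨.ofNat (nat_lit 315226), .ofNat (nat_lit 391049), .ofNat (nat_lit 357922), .ofNat (nat_lit 433745), .ofNat (nat_lit 317913), .ofNat (nat_lit 392847), .ofNat (nat_lit 360628), .ofNat (nat_lit 435560)⟩, ⟨.negSucc (nat_lit 49897), .ofNat (nat_lit 253393), .negSucc (nat_lit 7202), .ofNat (nat_lit 296088), .negSucc (nat_lit 45522), .ofNat (nat_lit 254209), .negSucc (nat_lit 2808), .ofNat (nat_lit 296923)⟩⟩, []⟩
noncomputable def p049_l99 : Lf2 := ⟨nat_lit 0, nat_lit 10, [nat_lit 0, nat_lit 5, nat_lit 5, nat_lit 20], false, nat_lit 0, nat_lit 160, nat_lit 0, nat_lit 160, ⟨nat_lit 1000, nat_lit 0, nat_lit 0, nat_lit 0, nat_lit 0, nat_lit 0, nat_lit 0, nat_lit 0, nat_lit 0, nat_lit 0, nat_lit 0, nat_lit 0, nat_lit 0, nat_lit 0, nat_lit 0, nat_lit 0, false, false⟩,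
 nat_lit 0, nat_lit 10987, nat_lit 0, nat_lit 0, nat_lit 6395, nat_lit 8734, nat_lit 640, nat_lit 0, nat_lit 0, nat_lit 3480, nat_lit 0, nat_lit 0, nat_lit 0, nat_lit 17599773851014, nat_lit 0, nat_lit 0, nat_lit 0, nat_lit 0, [],
 ⟨p049_k8, nat_lit 0, nat_lit 0, nat_lit 615, nat_lit 0, nat_lit 864007, [nat_lit 4688000000, nat_lit 6250000000, nat_lit 9842000000], [], [nat_lit 42554687310, nat_lit 39120968800, nat_lit 37621536180, nat_lit 38061237920, nat_lit 33972324880, nat_lit 34436335860, nat_lit 35282394440, nat_lit 34969455640], nat_lit 1271250, nat_lit 1271250, nat_lit 780000, nat_lit 1762500, nat_lit 0, nat_lit 1100001, [nat_lit 1100000, nat_lit 1442500, nat_lit 1271250], [nat_lit 11, nat_lit 40, nat_lit 40, nat_lit 80, nat_lit 1, nat_lit 401, nat_lit 175, nat_lit 12]⟩, ⟨p049_k15, nat_lit 0, nat_lit 0, nat_lit 202, nat_lit 0, nat_lit 0, [nat_lit 4688000000, nat_lit 6250000000, nat_lit 11872000000], [], [nat_lit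 15183209720, nat_lit 18368833016, nat_lit 19683393776, nat_lit 23307850328, nat_lit 10464359136, nat_lit 13681334408, nat_lit 14606608680, nat_lit 17392681120], nat_lit 0, nat_lit 0, nat_lit 0, nat_lit 0, nat_lit 0, nat_lit 0, [], [nat_lit 48, nat_lit 40, nat_lit 40, nat_lit 80, nat_lit 12, nat_lit 401, nat_lit 175, nat_lit 10]⟩,
 zbF0, []⟩
noncomputable def p049_l100 : Lf2 := ⟨nat_lit 0, nat_lit 10, [nat_lit 0, nat_lit 5, nat_lit 5, nat_lit 20], false, nat_lit 0, nat_lit 160, nat_lit 160, nat_lit 336, ⟨nat_lit 1000, nat_lit 0, nat_lit 0, nat_lit 0, nat_lit 0, nat_lit 0, nat_lit 0, nat_lit 0, nat_lit 0, nat_lit 0, nat_lit 0, nat_lit 0, nat_lit 0, nat_lit 0, nat_lit 0, nat_lit 0, false, false⟩,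
 nat_lit 0, nat_lit 10506, nat_lit 0, nat_lit 0, nat_lit 6115, nat_lit 6826, nat_lit 2170, nat_lit 0, nat_lit 0, nat_lit 0, nat_lit 0, nat_lit 0, nat_lit 0, nat_lit 0, nat_lit 0, nat_lit 0, nat_lit 0, nat_lit 0, [],
 ⟨p049_k8, nat_lit 0, nat_lit 0, nat_lit 615, nat_lit 0, nat_lit 864007, [nat_lit 4688000000, nat_lit 6250000000, nat_lit 9842000000], [], [nat_lit 35226029480, nat_lit 31992796610, nat_lit 29104925600, nat_lit 29752901560, nat_lit 28494357960, nat_lit 27415864720, nat_lit 31877286000, nat_lit 29034410270], nat_lit 1271250, nat_lit 1271250, nat_lit 780000, nat_lit 1100001, nat_lit 0, nat_lit 1100001, [nat_lit 1100000, nat_lit 1442500, nat_lit 1271250], [nat_lit 11, nat_lit 40, nat_lit 40, nat_lit 80, nat_lit 1, nat_lit 373, nat_lit 150, nat_lit 11]⟩, ⟨p049_k15, nat_lit 0, nat_lit 0, nat_lit 54, nat_lit 0, nat_lit 0, [nat_lit 4688000000, nat_lit 6250000000, nat_lit 11872000000], [], [nat_lit 8774920472, nat_lit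 12453414488, nat_lit 9883825648, nat_lit 13311390096, nat_lit 21328428453, nat_lit 23920401877, nat_lit 21583788335, nat_lit 23993524919], nat_lit 0, nat_lit 0, nat_lit 0, nat_lit 0, nat_lit 0, nat_lit 0, [], [nat_lit 48, nat_lit 40, nat_lit 40, nat_lit 80, nat_lit 12, nat_lit 428, nat_lit 200, nat_lit 11]⟩,
 zbF0, [⟨nat_lit 19, nat_lit 100, nat_lit 92, nat_lit 75, nat_lit 738938166⟩]⟩
noncomputable def p049_l101 : Lf2 := ⟨nat_lit 0, nat_lit 10, [nat_lit 0, nat_lit 5, nat_lit 5, nat_lit 20], false, nat_lit 0, nat_lit 160, nat_lit 160, nat_lit 336, ⟨nat_lit 1000, nat_lit 0, nat_lit 0, nat_lit 0, nat_lit 0, nat_lit 0, nat_lit 0, nat_lit 0, nat_lit 0, nat_lit 0, nat_lit 0, nat_lit 0, nat_lit 0, nat_lit 0, nat_lit 0, nat_lit 0, false, false⟩,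
 nat_lit 0, nat_lit 10616, nat_lit 0, nat_lit 0, nat_lit 6179, nat_lit 8464, nat_lit 2059, nat_lit 0, nat_lit 0, nat_lit 0, nat_lit 0, nat_lit 0, nat_lit 0, nat_lit 0, nat_lit 0, nat_lit 0, nat_lit 0, nat_lit 0, [],
 ⟨p049_k8, nat_lit 0, nat_lit 0, nat_lit 601, nat_lit 0, nat_lit 864007, [nat_lit 4688000000, nat_lit 6250000000, nat_lit 9842000000], [], [nat_lit 35524747258, nat_lit 32257675156, nat_lit 30548715654, nat_lit 31092040804, nat_lit 27042230334, nat_lit 27571434356, nat_lit 28058944702, nat_lit 28499561552], nat_lit 1271250, nat_lit 1271250, nat_lit 1100001, nat_lit 1785000, nat_lit 0, nat_lit 1100001, [nat_lit 1100000, nat_lit 1442500, nat_lit 1271250], [nat_lit 11, nat_lit 40, nat_lit 40, nat_lit 80, nat_lit 1, nat_lit 401, nat_lit 175, nat_lit 11]⟩, ⟨p049_k15, nat_lit 0, nat_lit 0, nat_lit 44, nat_lit 0, nat_lit 0, [nat_lit 4688000000, nat_lit 6250000000, nat_lit 11872000000], [], [nat_lit 7104218272,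 nat_lit 11027847744, nat_lit 11776779616, nat_lit 15665046304, nat_lit 22123278112, nat_lit 24840433818, nat_lit 24681994119, nat_lit 26903447911], nat_lit 0, nat_lit 0, nat_lit 0, nat_lit 0, nat_lit 0, nat_lit 0, [], [nat_lit 48, nat_lit 40, nat_lit 40, nat_lit 80, nat_lit 12, nat_lit 456, nat_lit 225, nat_lit 11]⟩,
 zbF0, [⟨nat_lit 7, nat_lit 92, nat_lit 100, nat_lit 75, nat_lit 827741950⟩]⟩
noncomputable def b_V_600_600_10_75 : St := ⟨true, nat_lit 1, nat_lit 0, nat_lit 2, nat_lit 80, nat_lit 260, nat_lit 280, nat_lit 240, nat_lit 280, nat_lit 24, nat_lit 240, nat_lit 40, nat_lit 80, nat_lit 0, nat_lit 160, nat_lit 0, nat_lit 336, nat_lit 0, nat_lit 40, nat_lit 0, nat_lit 0, nat_lit 0, nat_lit 0⟩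
theorem d_V_600_600_10_75 (h : EB TB.env) : Dead b_V_600_600_10_75 := chkB_sound0 h (T :=
(.spl (nat_lit 2) (nat_lit 120)
(.spl (nat_lit 2) (nat_lit 80)
(.leaf p049_l94)
(.spl (nat_lit 0) (nat_lit 270)
(.ord (.spl (nat_lit 0) (nat_lit 265)
(.ord (.leaf p049_l95))
(.leaf p049_l96)))
(.spl (nat_lit 0) (nat_lit 275)
(.ord (.leaf p049_l97))
(.leaf p049_l98))))
(.spl (nat_lit 5) (nat_lit 160)
(.leaf p049_l99)
(.spl (nat_lit 2) (nat_lit 160)
(.leaf p049_l100)
(.leaf p049_l101))))) (by decide +kernel)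
noncomputable def p049_l102 : Lf2 := ⟨nat_lit 0, nat_lit 10, [nat_lit 0, nat_lit 5, nat_lit 5, nat_lit 20], true, nat_lit 160, nat_lit 240, nat_lit 0, nat_lit 336, ⟨nat_lit 0, nat_lit 1000, nat_lit 0, nat_lit 6, nat_lit 122, nat_lit 1000, nat_lit 140, nat_lit 0, nat_lit 0, nat_lit 0, nat_lit 0, nat_lit 0, nat_lit 0, nat_lit 0, nat_lit 0, nat_lit 5000000, false, false⟩,
 nat_lit 0, nat_lit 5348, nat_lit 0, nat_lit 0, nat_lit 3113, nat_lit 0, nat_lit 1002, nat_lit 0, nat_lit 0, nat_lit 0, nat_lit 0, nat_lit 0, nat_lit 0, nat_lit 0, nat_lit 0, nat_lit 400000, nat_lit 0, nat_lit 0, [(nat_lit 9, [(nat_lit 1, nat_lit 1000)])],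
 ⟨p049_k8, nat_lit 0, nat_lit 0, nat_lit 423, nat_lit 0, nat_lit 540015, [nat_lit 2702720000, nat_lit 2968400001, nat_lit 2997199999], [], [nat_lit 26542918542, nat_lit 25727371689, nat_lit 22593219000, nat_lit 22978751747, nat_lit 24639643180, nat_lit 25007335133, nat_lit 24668417194, nat_lit 25005312826], nat_lit 1271250, nat_lit 1271250, nat_lit 134400, nat_lit 780000, nat_lit 1100001, nat_lit 1785000, [nat_lit 1100000, nat_lit 1442500, nat_lit 1271250], [nat_lit 11, nat_lit 40, nat_lit 40, nat_lit 80, nat_lit 1, nat_lit 401, nat_lit 175, nat_lit 11]⟩, C1.Rw.none,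
 ⟨nat_lit 5700, nat_lit 5917, ⟨.ofNat (nat_lit 197129), .ofNat (nat_lit 385610), .ofNat (nat_lit 218469), .ofNat (nat_lit 406949), .ofNat (nat_lit 205119), .ofNat (nat_lit 389244), .ofNat (nat_lit 226461), .ofNat (nat_lit 410586)⟩, ⟨.ofNat (nat_lit 250751), .ofNat (nat_lit 407818), .ofNat (nat_lit 293429), .ofNat (nat_lit 450496), .ofNat (nat_lit 252544), .ofNat (nat_lit 405982), .ofNat (nat_lit 295228), .ofNat (nat_lit 448666)⟩⟩, []⟩
noncomputable def p049_l103 : Lf2 := ⟨nat_lit 0, nat_lit 10, [nat_lit 0, nat_lit 5, nat_lit 5, nat_lit 20], true, nat_lit 160, nat_lit 240, nat_lit 0, nat_lit 320, ⟨nat_lit 0, nat_lit 1000, nat_lit 0, nat_lit 6, nat_lit 133, nat_lit 1000, nat_lit 140, nat_lit 0, nat_lit 0, nat_lit 0, nat_lit 0, nat_lit 0, nat_lit 0, nat_lit 0, nat_lit 0, nat_lit 5000000, false, false⟩,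
 nat_lit 0, nat_lit 7337, nat_lit 0, nat_lit 0, nat_lit 4270, nat_lit 0, nat_lit 1512, nat_lit 0, nat_lit 0, nat_lit 0, nat_lit 0, nat_lit 0, nat_lit 0, nat_lit 26122927400976, nat_lit 2, nat_lit 1000000, nat_lit 0, nat_lit 0, [(nat_lit 9, [(nat_lit 2, nat_lit 1000)])],
 ⟨p049_k8, nat_lit 0, nat_lit 0, nat_lit 453, nat_lit 0, nat_lit 647253, [nat_lit 2695466667, nat_lit 2706533334, nat_lit 383866666], [], [nat_lit 25542740886, nat_lit 24429180396, nat_lit 20706575308, nat_lit 21120022148, nat_lit 22918408363, nat_lit 23308684511, nat_lit 22810686888, nat_lit 23166509038], nat_lit 1271250, nat_lit 1271250, nat_lit 205650, nat_lit 780000, nat_lit 1100001, nat_lit 1785000, [nat_lit 1100000, nat_lit 1442500, nat_lit 1271250], [nat_lit 11, nat_lit 40, nat_lit 40, nat_lit 80, nat_lit 1, nat_lit 401, nat_lit 175, nat_lit 11]⟩, C1.Rw.none,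
 ⟨nat_lit 5700, nat_lit 5917, ⟨.ofNat (nat_lit 242029), .ofNat (nat_lit 406949), .ofNat (nat_lit 252698), .ofNat (nat_lit 417619), .ofNat (nat_lit 249476), .ofNat (nat_lit 410586), .ofNat (nat_lit 260147), .ofNat (nat_lit 421257)⟩, ⟨.ofNat (nat_lit 250751), .ofNat (nat_lit 407818), .ofNat (nat_lit 293429), .ofNat (nat_lit 450496), .ofNat (nat_lit 252544), .ofNat (nat_lit 405982), .ofNat (nat_lit 295228), .ofNat (nat_lit 448666)⟩⟩, [⟨nat_lit 0, nat_lit 100, nat_lit 100, nat_lit 70, nat_lit 3944623⟩]⟩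
noncomputable def p049_l104 : Lf2 := ⟨nat_lit 0, nat_lit 10, [nat_lit 0, nat_lit 5, nat_lit 5, nat_lit 20], true, nat_lit 240, nat_lit 320, nat_lit 0, nat_lit 336, ⟨nat_lit 0, nat_lit 1000, nat_lit 0, nat_lit 6, nat_lit 109, nat_lit 1000, nat_lit 202, nat_lit 0, nat_lit 0, nat_lit 0, nat_lit 0, nat_lit 0, nat_lit 0, nat_lit 0, nat_lit 0, nat_lit 5000000, false, false⟩,
 nat_lit 0, nat_lit 9834, nat_lit 0, nat_lit 0, nat_lit 5724, nat_lit 0, nat_lit 1003, nat_lit 0, nat_lit 0, nat_lit 0, nat_lit 0, nat_lit 0, nat_lit 0, nat_lit 24700108482859, nat_lit 0, nat_lit 400000, nat_lit 0, nat_lit 0, [(nat_lit 9, [(nat_lit 1, nat_lit 1000)])],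
 ⟨p049_k8, nat_lit 0, nat_lit 0, nat_lit 318, nat_lit 0, nat_lit 359704, [nat_lit 2702720000, nat_lit 2968400001, nat_lit 2997199999], [], [nat_lit 18360451537, nat_lit 18813196293, nat_lit 17079207372, nat_lit 17509257704, nat_lit 23477087112, nat_lit 24159725705, nat_lit 20829147344, nat_lit 21491942928], nat_lit 1271250, nat_lit 1271250, nat_lit 134400, nat_lit 490000, nat_lit 1271250, nat_lit 1271250, [nat_lit 1100000, nat_lit 1442500, nat_lit 1271250], [nat_lit 11, nat_lit 40, nat_lit 40, nat_lit 80, nat_lit 1, nat_lit 401, nat_lit 175, nat_lit 11]⟩, C1.Rw.none,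
 ⟨nat_lit 5700, nat_lit 5917, ⟨.ofNat (nat_lit 197129), .ofNat (nat_lit 307076), .ofNat (nat_lit 229138), .ofNat (nat_lit 339085), .ofNat (nat_lit 205119), .ofNat (nat_lit 312525), .ofNat (nat_lit 237132), .ofNat (nat_lit 344538)⟩, ⟨.ofNat (nat_lit 407818), .ofNat (nat_lit 564885), .ofNat (nat_lit 450496), .ofNat (nat_lit 607561), .ofNat (nat_lit 405982), .ofNat (nat_lit 559420), .ofNat (nat_lit 448666), .ofNat (nat_lit 602101)⟩⟩, [⟨nat_lit 0, nat_lit 100, nat_lit 100, nat_lit 70, nat_lit 112681141⟩, ⟨nat_lit 4, nat_lit 95, nat_lit 100, nat_lit 76, nat_lit 552999644⟩]⟩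
noncomputable def p049_l105 : Lf2 := ⟨nat_lit 0, nat_lit 10, [nat_lit 0, nat_lit 5, nat_lit 5, nat_lit 20], true, nat_lit 240, nat_lit 320, nat_lit 0, nat_lit 336, ⟨nat_lit 0, nat_lit 1000, nat_lit 0, nat_lit 6, nat_lit 146, nat_lit 1000, nat_lit 202, nat_lit 0, nat_lit 0, nat_lit 0, nat_lit 0, nat_lit 0, nat_lit 0, nat_lit 0, nat_lit 0, nat_lit 5000000, false, false⟩,
 nat_lit 0, nat_lit 9701, nat_lit 0, nat_lit 0, nat_lit 5646, nat_lit 0, nat_lit 885, nat_lit 0, nat_lit 0, nat_lit 0, nat_lit 0, nat_lit 0, nat_lit 0, nat_lit 55057879172519, nat_lit 2, nat_lit 1000000, nat_lit 0, nat_lit 0, [(nat_lit 9, [(nat_lit 2, nat_lit 1000)])],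
 ⟨p049_k8, nat_lit 0, nat_lit 0, nat_lit 382, nat_lit 0, nat_lit 647253, [nat_lit 2695466667, nat_lit 2706533334, nat_lit 383866666], [], [nat_lit 17820144242, nat_lit 18202600820, nat_lit 17767291002, nat_lit 18139198094, nat_lit 21113964168, nat_lit 21445378910, nat_lit 20938441916, nat_lit 21252147052], nat_lit 1271250, nat_lit 1271250, nat_lit 490000, nat_lit 780000, nat_lit 1271250, nat_lit 1271250, [nat_lit 1100000, nat_lit 1442500, nat_lit 1271250], [nat_lit 11, nat_lit 40, nat_lit 40, nat_lit 80, nat_lit 1, nat_lit 428, nat_lit 200, nat_lit 12]⟩, C1.Rw.none,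
 ⟨nat_lit 5700, nat_lit 5917, ⟨.ofNat (nat_lit 307076), .ofNat (nat_lit 385610), .ofNat (nat_lit 339085), .ofNat (nat_lit 417619), .ofNat (nat_lit 312525), .ofNat (nat_lit 389244), .ofNat (nat_lit 344538), .ofNat (nat_lit 421257)⟩, ⟨.ofNat (nat_lit 407818), .ofNat (nat_lit 564885), .ofNat (nat_lit 450496), .ofNat (nat_lit 607561), .ofNat (nat_lit 405982), .ofNat (nat_lit 559420), .ofNat (nat_lit 448666), .ofNat (nat_lit 602101)⟩⟩, [⟨nat_lit 4, nat_lit 95, nat_lit 100, nat_lit 76, nat_lit 379837696⟩]⟩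
noncomputable def p049_l106 : Lf2 := ⟨nat_lit 0, nat_lit 10, [nat_lit 0, nat_lit 5, nat_lit 5, nat_lit 20], false, nat_lit 160, nat_lit 320, nat_lit 0, nat_lit 160, ⟨nat_lit 1000, nat_lit 0, nat_lit 0, nat_lit 0, nat_lit 0, nat_lit 0, nat_lit 0, nat_lit 0, nat_lit 0, nat_lit 0, nat_lit 0, nat_lit 0, nat_lit 0, nat_lit 0, nat_lit 0, nat_lit 0, false, false⟩,
 nat_lit 0, nat_lit 15207, nat_lit 0, nat_lit 0, nat_lit 8851, nat_lit 8606, nat_lit 1804, nat_lit 0, nat_lit 0, nat_lit 3412, nat_lit 0, nat_lit 0, nat_lit 0, nat_lit 20555928453758, nat_lit 0, nat_lit 0, nat_lit 0, nat_lit 0, [],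
 ⟨p049_k8, nat_lit 0, nat_lit 0, nat_lit 364, nat_lit 0, nat_lit 647253, [nat_lit 4688000000, nat_lit 6250000000, nat_lit 9842000000], [], [nat_lit 17081614078, nat_lit 14876449385, nat_lit 29887981044, nat_lit 27773972800, nat_lit 21939214028, nat_lit 22420719574, nat_lit 24294585182, nat_lit 24904991655], nat_lit 1271250, nat_lit 1271250, nat_lit 780000, nat_lit 1762500, nat_lit 1271250, nat_lit 1271250, [nat_lit 1100000, nat_lit 1442500, nat_lit 1271250], [nat_lit 11, nat_lit 40, nat_lit 40, nat_lit 80, nat_lit 1, nat_lit 456, nat_lit 225, nat_lit 13]⟩, ⟨p049_k15, nat_lit 0, nat_lit 0, nat_lit 198, nat_lit 0, nat_lit 0, [nat_lit 4688000000, nat_lit 6250000000, nat_lit 11872000000], [], [nat_lit 15475041980, nat_lit 17842326944, nat_lit 19735583984, nat_lit 22428771710, nat_lit 10767936224, nat_lit 13158769310, nat_lit 14894478120, nat_lit 16800097630], nat_lit 0, nat_lit 0, nat_lit 0, nat_lit 0, nat_lit 0, nat_lit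 0, [], [nat_lit 48, nat_lit 40, nat_lit 40, nat_lit 80, nat_lit 12, nat_lit 401, nat_lit 175, nat_lit 10]⟩,
 zbF0, [⟨nat_lit 16, nat_lit 100, nat_lit 95, nat_lit 76, nat_lit 391427019⟩]⟩
noncomputable def p049_l107 : Lf2 := ⟨nat_lit 0, nat_lit 10, [nat_lit 0, nat_lit 5, nat_lit 5, nat_lit 20], false, nat_lit 160, nat_lit 320, nat_lit 160, nat_lit 336, ⟨nat_lit 1000, nat_lit 0, nat_lit 0, nat_lit 0, nat_lit 0, nat_lit 0, nat_lit 0, nat_lit 0, nat_lit 0, nat_lit 0, nat_lit 0, nat_lit 0, nat_lit 0, nat_lit 0, nat_lit 0, nat_lit 0, false, false⟩,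
 nat_lit 0, nat_lit 12999, nat_lit 0, nat_lit 0, nat_lit 7566, nat_lit 8129, nat_lit 2436, nat_lit 0, nat_lit 0, nat_lit 0, nat_lit 0, nat_lit 0, nat_lit 0, nat_lit 0, nat_lit 0, nat_lit 0, nat_lit 0, nat_lit 0, [],
 ⟨p049_k8, nat_lit 0, nat_lit 0, nat_lit 364, nat_lit 0, nat_lit 647253, [nat_lit 4688000000, nat_lit 6250000000, nat_lit 9842000000], [], [nat_lit 18576616848, nat_lit 16691600910, nat_lit 30094301004, nat_lit 28287207300, nat_lit 21521376164, nat_lit 21873819942, nat_lit 23876340812, nat_lit 24440586230], nat_lit 1271250, nat_lit 1271250, nat_lit 780000, nat_lit 1762500, nat_lit 1271250, nat_lit 1271250, [nat_lit 1100000, nat_lit 1442500, nat_lit 1271250], [nat_lit 11, nat_lit 40, nat_lit 40, nat_lit 80, nat_lit 1, nat_lit 456, nat_lit 225, nat_lit 13]⟩, ⟨p049_k15, nat_lit 0, nat_lit 0, nat_lit 50, nat_lit 0, nat_lit 0, [nat_lit 4688000000, nat_lit 6250000000, nat_lit 11872000000], [], [nat_lit 6557959788,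 nat_lit 9642074736, nat_lit 12196172496, nat_lit 14779229402, nat_lit 21910288365, nat_lit 24045284417, nat_lit 24551047443, nat_lit 26185247127], nat_lit 0, nat_lit 0, nat_lit 0, nat_lit 0, nat_lit 0, nat_lit 0, [], [nat_lit 48, nat_lit 40, nat_lit 40, nat_lit 80, nat_lit 12, nat_lit 456, nat_lit 225, nat_lit 11]⟩,
 zbF0, [⟨nat_lit 4, nat_lit 95, nat_lit 100, nat_lit 76, nat_lit 344926909⟩, ⟨nat_lit 19, nat_lit 100, nat_lit 90, nat_lit 74, nat_lit 861612454⟩]⟩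
noncomputable def p049_l108 : Lf2 := ⟨nat_lit 0, nat_lit 10, [nat_lit 0, nat_lit 5, nat_lit 5, nat_lit 20], true, nat_lit 160, nat_lit 308, nat_lit 0, nat_lit 336, ⟨nat_lit 0, nat_lit 1000, nat_lit 0, nat_lit 6, nat_lit 115, nat_lit 1000, nat_lit 166, nat_lit 0, nat_lit 0, nat_lit 0, nat_lit 0, nat_lit 0, nat_lit 0, nat_lit 0, nat_lit 0, nat_lit 5000000, false, false⟩,
 nat_lit 0, nat_lit 7190, nat_lit 0, nat_lit 0, nat_lit 4378, nat_lit 0, nat_lit 794, nat_lit 0, nat_lit 0, nat_lit 0, nat_lit 0, nat_lit 0, nat_lit 0, nat_lit 28148264551508, nat_lit 0, nat_lit 400000, nat_lit 0, nat_lit 0, [(nat_lit 9, [(nat_lit 1, nat_lit 1000)])],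
 ⟨p049_k11, nat_lit 0, nat_lit 0, nat_lit 343, nat_lit 0, nat_lit 446719, [nat_lit 2702720000, nat_lit 2968400001, nat_lit 2997199999], [], [nat_lit 25400451449, nat_lit 24255241075, nat_lit 19518009538, nat_lit 19531471036, nat_lit 24340684625, nat_lit 24709466007, nat_lit 24090507757, nat_lit 23929057737], nat_lit 1271250, nat_lit 1271250, nat_lit 157850, nat_lit 490000, nat_lit 1100001, nat_lit 2367250, [nat_lit 1100000, nat_lit 1442500, nat_lit 1271250], [nat_lit 11, nat_lit 40, nat_lit 40, nat_lit 80, nat_lit 1, nat_lit 401, nat_lit 175, nat_lit 11]⟩, C1.Rw.none,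
 ⟨nat_lit 5477, nat_lit 5701, ⟨.ofNat (nat_lit 212791), .ofNat (nat_lit 312525), .ofNat (nat_lit 255475), .ofNat (nat_lit 355209), .ofNat (nat_lit 220501), .ofNat (nat_lit 317913), .ofNat (nat_lit 263215), .ofNat (nat_lit 360628)⟩, ⟨.ofNat (nat_lit 252544), .ofNat (nat_lit 536404), .ofNat (nat_lit 295228), .ofNat (nat_lit 579088), .ofNat (nat_lit 254209), .ofNat (nat_lit 531461), .ofNat (nat_lit 296923), .ofNat (nat_lit 574176)⟩⟩, [⟨nat_lit 0, nat_lit 100, nat_lit 100, nat_lit 80, nat_lit 69882610⟩, ⟨nat_lit 4, nat_lit 99, nat_lit 100, nat_lit 77, nat_lit 121112710⟩]⟩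
noncomputable def p049_l109 : Lf2 := ⟨nat_lit 0, nat_lit 5, [nat_lit 4, nat_lit 5, nat_lit 5, nat_lit 20], true, nat_lit 160, nat_lit 288, nat_lit 0, nat_lit 312, ⟨nat_lit 0, nat_lit 1000, nat_lit 0, nat_lit 6, nat_lit 148, nat_lit 1000, nat_lit 154, nat_lit 0, nat_lit 0, nat_lit 0, nat_lit 0, nat_lit 0, nat_lit 0, nat_lit 0, nat_lit 0, nat_lit 5000000, false, false⟩,
 nat_lit 0, nat_lit 6416, nat_lit 0, nat_lit 0, nat_lit 3907, nat_lit 0, nat_lit 1078, nat_lit 0, nat_lit 0, nat_lit 0, nat_lit 0, nat_lit 0, nat_lit 0, nat_lit 38683401178174, nat_lit 0, nat_lit 1000000, nat_lit 0, nat_lit 0, [(nat_lit 9, [(nat_lit 2, nat_lit 1000)])],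
 ⟨p049_k6, nat_lit 0, nat_lit 0, nat_lit 325, nat_lit 0, nat_lit 623927, [nat_lit 2663466667, nat_lit 2329200000, nat_lit 1646800000], [], [nat_lit 20072893781, nat_lit 19772216141, nat_lit 19564444553, nat_lit 19707612371, nat_lit 23750934372, nat_lit 23866480494, nat_lit 24114727306, nat_lit 24031248757], nat_lit 1271250, nat_lit 1271250, nat_lit 490000, nat_lit 780000, nat_lit 1100001, nat_lit 2196000, [nat_lit 1100000, nat_lit 1442500, nat_lit 1271250], [nat_lit 9, nat_lit 40, nat_lit 40, nat_lit 80, nat_lit 2, nat_lit 345, nat_lit 125, nat_lit 11]⟩, C1.Rw.none,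
 ⟨nat_lit 5634, nat_lit 5701, ⟨.ofNat (nat_lit 312525), .ofNat (nat_lit 389244), .ofNat (nat_lit 347740), .ofNat (nat_lit 424459), .ofNat (nat_lit 314148), .ofNat (nat_lit 390328), .ofNat (nat_lit 349367), .ofNat (nat_lit 425547)⟩, ⟨.ofNat (nat_lit 252544), .ofNat (nat_lit 498045), .ofNat (nat_lit 273886), .ofNat (nat_lit 519387), .ofNat (nat_lit 253057), .ofNat (nat_lit 496834), .ofNat (nat_lit 274402), .ofNat (nat_lit 518179)⟩⟩, [⟨nat_lit 16, nat_lit 100, nat_lit 100, nat_lit 71, nat_lit 347196540⟩]⟩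
noncomputable def p049_l110 : Lf2 := ⟨nat_lit 0, nat_lit 5, [nat_lit 4, nat_lit 5, nat_lit 5, nat_lit 20], true, nat_lit 160, nat_lit 284, nat_lit 0, nat_lit 312, ⟨nat_lit 0, nat_lit 1000, nat_lit 0, nat_lit 6, nat_lit 149, nat_lit 1000, nat_lit 153, nat_lit 0, nat_lit 0, nat_lit 0, nat_lit 0, nat_lit 0, nat_lit 0, nat_lit 0, nat_lit 0, nat_lit 5000000, false, false⟩,
 nat_lit 0, nat_lit 9729, nat_lit 0, nat_lit 0, nat_lit 6004, nat_lit 0, nat_lit 2210, nat_lit 0, nat_lit 0, nat_lit 0, nat_lit 0, nat_lit 0, nat_lit 0, nat_lit 51500187159142, nat_lit 0, nat_lit 1000000, nat_lit 0, nat_lit 0, [(nat_lit 9, [(nat_lit 2, nat_lit 1000)])],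
 ⟨p049_k44, nat_lit 0, nat_lit 0, nat_lit 334, nat_lit 0, nat_lit 649473, [nat_lit 2663466667, nat_lit 2329200000, nat_lit 1646800000], [], [nat_lit 16790832184, nat_lit 16482792160, nat_lit 14840344955, nat_lit 14935342948, nat_lit 18866281293, nat_lit 18941536313, nat_lit 19047747926, nat_lit 18761868541], nat_lit 1271250, nat_lit 1271250, nat_lit 490000, nat_lit 780000, nat_lit 1100001, nat_lit 2161750, [nat_lit 1100000, nat_lit 1442500, nat_lit 1271250], [nat_lit 9, nat_lit 40, nat_lit 40, nat_lit 80, nat_lit 2, nat_lit 345, nat_lit 125, nat_lit 11]⟩, C1.Rw.none,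
 ⟨nat_lit 5590, nat_lit 5635, ⟨.ofNat (nat_lit 314148), .ofNat (nat_lit 390328), .ofNat (nat_lit 351502), .ofNat (nat_lit 427682), .ofNat (nat_lit 315226), .ofNat (nat_lit 391049), .ofNat (nat_lit 352585), .ofNat (nat_lit 428408)⟩, ⟨.ofNat (nat_lit 253057), .ofNat (nat_lit 489216), .ofNat (nat_lit 274402), .ofNat (nat_lit 510561), .ofNat (nat_lit 253393), .ofNat (nat_lit 488443), .ofNat (nat_lit 274740), .ofNat (nat_lit 509791)⟩⟩, [⟨nat_lit 4, nat_lit 100, nat_lit 99, nat_lit 70, nat_lit 255070103⟩]⟩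
noncomputable def p049_l111 : Lf2 := ⟨nat_lit 0, nat_lit 5, [nat_lit 4, nat_lit 5, nat_lit 5, nat_lit 20], true, nat_lit 160, nat_lit 240, nat_lit 0, nat_lit 312, ⟨nat_lit 0, nat_lit 1000, nat_lit 0, nat_lit 6, nat_lit 150, nat_lit 1000, nat_lit 136, nat_lit 0, nat_lit 0, nat_lit 0, nat_lit 0, nat_lit 0, nat_lit 0, nat_lit 0, nat_lit 0, nat_lit 5000000, false, false⟩,
 nat_lit 0, nat_lit 10456, nat_lit 0, nat_lit 0, nat_lit 6510, nat_lit 0, nat_lit 517, nat_lit 0, nat_lit 0, nat_lit 0, nat_lit 0, nat_lit 0, nat_lit 0, nat_lit 0, nat_lit 0, nat_lit 1000000, nat_lit 0, nat_lit 0, [(nat_lit 9, [(nat_lit 2, nat_lit 1000)])],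
 ⟨p049_k45, nat_lit 0, nat_lit 0, nat_lit 373, nat_lit 0, nat_lit 697536, [nat_lit 2663466667, nat_lit 2329200000, nat_lit 1646800000], [], [nat_lit 15737432149, nat_lit 15236431012, nat_lit 13070262368, nat_lit 13218147045, nat_lit 15341148338, nat_lit 15472575560, nat_lit 15829846382, nat_lit 15356870795], nat_lit 1271250, nat_lit 1271250, nat_lit 490000, nat_lit 780000, nat_lit 1100001, nat_lit 1785000, [nat_lit 1100000, nat_lit 1442500, nat_lit 1271250], [nat_lit 9, nat_lit 40, nat_lit 40, nat_lit 80, nat_lit 2, nat_lit 317, nat_lit 100, nat_lit 10]⟩, C1.Rw.none,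
 ⟨nat_lit 5522, nat_lit 5591, ⟨.ofNat (nat_lit 315226), .ofNat (nat_lit 391049), .ofNat (nat_lit 355787), .ofNat (nat_lit 431610), .ofNat (nat_lit 316840), .ofNat (nat_lit 392128), .ofNat (nat_lit 357411), .ofNat (nat_lit 432699)⟩, ⟨.ofNat (nat_lit 253393), .ofNat (nat_lit 405038), .ofNat (nat_lit 274740), .ofNat (nat_lit 426386), .ofNat (nat_lit 253887), .ofNat (nat_lit 404463), .ofNat (nat_lit 275240), .ofNat (nat_lit 425816)⟩⟩, []⟩
noncomputable def p049_l112 : Lf2 := ⟨nat_lit 0, nat_lit 5, [nat_lit 4, nat_lit 5, nat_lit 5, nat_lit 20], true, nat_lit 160, nat_lit 240, nat_lit 0, nat_lit 312, ⟨nat_lit 0, nat_lit 1000, nat_lit 0, nat_lit 6, nat_lit 151, nat_lit 1000, nat_lit 136, nat_lit 0, nat_lit 0, nat_lit 0, nat_lit 0, nat_lit 0, nat_lit 0, nat_lit 0, nat_lit 0, nat_lit 5000000, false, false⟩,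
 nat_lit 0, nat_lit 10276, nat_lit 0, nat_lit 0, nat_lit 6482, nat_lit 0, nat_lit 426, nat_lit 0, nat_lit 0, nat_lit 0, nat_lit 0, nat_lit 0, nat_lit 0, nat_lit 0, nat_lit 0, nat_lit 1000000, nat_lit 0, nat_lit 0, [(nat_lit 9, [(nat_lit 2, nat_lit 1000)])],
 ⟨p049_k46, nat_lit 0, nat_lit 0, nat_lit 383, nat_lit 0, nat_lit 721425, [nat_lit 2663466667, nat_lit 2329200000, nat_lit 1646800000], [], [nat_lit 15279831074, nat_lit 14947266878, nat_lit 13321054952, nat_lit 13419445980, nat_lit 15570413463, nat_lit 15657871596, nat_lit 15489808047, nat_lit 15497363300], nat_lit 1271250, nat_lit 1271250, nat_lit 490000, nat_lit 780000, nat_lit 1100001, nat_lit 1785000, [nat_lit 1100000, nat_lit 1442500, nat_lit 1271250], [nat_lit 9, nat_lit 40, nat_lit 40, nat_lit 80, nat_lit 2, nat_lit 317, nat_lit 100, nat_lit 10]⟩, C1.Rw.none,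
 ⟨nat_lit 5477, nat_lit 5523, ⟨.ofNat (nat_lit 316840), .ofNat (nat_lit 392128), .ofNat (nat_lit 359546), .ofNat (nat_lit 434834), .ofNat (nat_lit 317913), .ofNat (nat_lit 392847), .ofNat (nat_lit 360628), .ofNat (nat_lit 435561)⟩, ⟨.ofNat (nat_lit 253887), .ofNat (nat_lit 404463), .ofNat (nat_lit 275240), .ofNat (nat_lit 425816), .ofNat (nat_lit 254209), .ofNat (nat_lit 404075), .ofNat (nat_lit 275566), .ofNat (nat_lit 425432)⟩⟩, []⟩
noncomputable def p049_l113 : Lf2 := ⟨nat_lit 0, nat_lit 2, [nat_lit 10, nat_lit 5, nat_lit 5, nat_lit 20], true, nat_lit 240, nat_lit 280, nat_lit 0, nat_lit 312, ⟨nat_lit 0, nat_lit 1000, nat_lit 0, nat_lit 6, nat_lit 150, nat_lit 1000, nat_lit 181, nat_lit 0, nat_lit 0, nat_lit 0, nat_lit 0, nat_lit 0, nat_lit 0, nat_lit 0, nat_lit 0, nat_lit 5000000, false, false⟩,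
 nat_lit 0, nat_lit 9667, nat_lit 0, nat_lit 0, nat_lit 6019, nat_lit 0, nat_lit 278, nat_lit 0, nat_lit 0, nat_lit 0, nat_lit 0, nat_lit 0, nat_lit 0, nat_lit 50360409510814, nat_lit 0, nat_lit 1000000, nat_lit 0, nat_lit 0, [(nat_lit 9, [(nat_lit 2, nat_lit 1000)])],
 ⟨p049_k47, nat_lit 0, nat_lit 0, nat_lit 307, nat_lit 0, nat_lit 683246, [nat_lit 2663466667, nat_lit 2329200000], [], [nat_lit 17070826675, nat_lit 17188287630, nat_lit 16976754485, nat_lit 17096957061, nat_lit 18724491952, nat_lit 18838768758, nat_lit 18551449841, nat_lit 18659435855], nat_lit 1271250, nat_lit 1271250, nat_lit 490000, nat_lit 780000, nat_lit 1271250, nat_lit 1271250, [nat_lit 1100000, nat_lit 1442500], [nat_lit 31, nat_lit 40, nat_lit 40, nat_lit 80, nat_lit 3, nat_lit 238, nat_lit 30, nat_lit 8]⟩, C1.Rw.none,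
 ⟨nat_lit 5522, nat_lit 5591, ⟨.ofNat (nat_lit 315226), .ofNat (nat_lit 391049), .ofNat (nat_lit 355787), .ofNat (nat_lit 431610), .ofNat (nat_lit 316840), .ofNat (nat_lit 392128), .ofNat (nat_lit 357411), .ofNat (nat_lit 432699)⟩, ⟨.ofNat (nat_lit 405038), .ofNat (nat_lit 480861), .ofNat (nat_lit 426386), .ofNat (nat_lit 502209), .ofNat (nat_lit 404463), .ofNat (nat_lit 479751), .ofNat (nat_lit 425816), .ofNat (nat_lit 501104)⟩⟩, [⟨nat_lit 4, nat_lit 100, nat_lit 98, nat_lit 70, nat_lit 427405755⟩]⟩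
noncomputable def p049_l114 : Lf2 := ⟨nat_lit 0, nat_lit 2, [nat_lit 10, nat_lit 5, nat_lit 5, nat_lit 20], true, nat_lit 240, nat_lit 280, nat_lit 0, nat_lit 312, ⟨nat_lit 0, nat_lit 1000, nat_lit 0, nat_lit 6, nat_lit 150, nat_lit 1000, nat_lit 181, nat_lit 0, nat_lit 0, nat_lit 0, nat_lit 0, nat_lit 0, nat_lit 0, nat_lit 0, nat_lit 0, nat_lit 5000000, false, false⟩,
 nat_lit 0, nat_lit 9524, nat_lit 0, nat_lit 0, nat_lit 6008, nat_lit 0, nat_lit 254, nat_lit 0, nat_lit 0, nat_lit 0, nat_lit 0, nat_lit 0, nat_lit 0, nat_lit 49621345926190, nat_lit 0, nat_lit 1000000, nat_lit 0, nat_lit 0, [(nat_lit 9, [(nat_lit 2, nat_lit 1000)])],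
 ⟨p049_k48, nat_lit 0, nat_lit 0, nat_lit 310, nat_lit 0, nat_lit 688826, [nat_lit 2663466667, nat_lit 2329200000], [], [nat_lit 17230149777, nat_lit 17269276651, nat_lit 17136920645, nat_lit 17176959960, nat_lit 18875993980, nat_lit 18914061140, nat_lit 18698309284, nat_lit 18734282368], nat_lit 1271250, nat_lit 1271250, nat_lit 490000, nat_lit 780000, nat_lit 1271250, nat_lit 1271250, [nat_lit 1100000, nat_lit 1442500], [nat_lit 31, nat_lit 40, nat_lit 40, nat_lit 80, nat_lit 3, nat_lit 238, nat_lit 30, nat_lit 8]⟩, C1.Rw.none,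
 ⟨nat_lit 5500, nat_lit 5523, ⟨.ofNat (nat_lit 316840), .ofNat (nat_lit 392128), .ofNat (nat_lit 358478), .ofNat (nat_lit 433766), .ofNat (nat_lit 317377), .ofNat (nat_lit 392487), .ofNat (nat_lit 359019), .ofNat (nat_lit 434130)⟩, ⟨.ofNat (nat_lit 404463), .ofNat (nat_lit 479751), .ofNat (nat_lit 425816), .ofNat (nat_lit 501104), .ofNat (nat_lit 404269), .ofNat (nat_lit 479380), .ofNat (nat_lit 425624), .ofNat (nat_lit 500735)⟩⟩, [⟨nat_lit 16, nat_lit 97, nat_lit 100, nat_lit 70, nat_lit 431311367⟩]⟩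
noncomputable def p049_l115 : Lf2 := ⟨nat_lit 0, nat_lit 2, [nat_lit 10, nat_lit 5, nat_lit 5, nat_lit 20], true, nat_lit 240, nat_lit 276, nat_lit 0, nat_lit 312, ⟨nat_lit 0, nat_lit 1000, nat_lit 0, nat_lit 6, nat_lit 151, nat_lit 1000, nat_lit 179, nat_lit 0, nat_lit 0, nat_lit 0, nat_lit 0, nat_lit 0, nat_lit 0, nat_lit 0, nat_lit 0, nat_lit 5000000, false, false⟩,
 nat_lit 0, nat_lit 9538, nat_lit 0, nat_lit 0, nat_lit 6043, nat_lit 0, nat_lit 245, nat_lit 0, nat_lit 0, nat_lit 0, nat_lit 0, nat_lit 0, nat_lit 0, nat_lit 49592032901592, nat_lit 0, nat_lit 1000000, nat_lit 0, nat_lit 0, [(nat_lit 9, [(nat_lit 2, nat_lit 1000)])],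
 ⟨p049_k49, nat_lit 0, nat_lit 0, nat_lit 314, nat_lit 0, nat_lit 702479, [nat_lit 2663466667, nat_lit 2329200000], [], [nat_lit 17149858431, nat_lit 17189321340, nat_lit 17049892863, nat_lit 17090021936, nat_lit 18630812094, nat_lit 18669391906, nat_lit 18454587779, nat_lit 18491040188], nat_lit 1271250, nat_lit 1271250, nat_lit 490000, nat_lit 780000, nat_lit 1271250, nat_lit 1271250, [nat_lit 1100000, nat_lit 1442500], [nat_lit 31, nat_lit 40, nat_lit 40, nat_lit 80, nat_lit 3, nat_lit 238, nat_lit 30, nat_lit 8]⟩, C1.Rw.none,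
 ⟨nat_lit 5477, nat_lit 5500, ⟨.ofNat (nat_lit 317377), .ofNat (nat_lit 392487), .ofNat (nat_lit 360087), .ofNat (nat_lit 435197), .ofNat (nat_lit 317913), .ofNat (nat_lit 392847), .ofNat (nat_lit 360628), .ofNat (nat_lit 435561)⟩, ⟨.ofNat (nat_lit 404269), .ofNat (nat_lit 471869), .ofNat (nat_lit 425624), .ofNat (nat_lit 493224), .ofNat (nat_lit 404075), .ofNat (nat_lit 471515), .ofNat (nat_lit 425432), .ofNat (nat_lit 492872)⟩⟩, [⟨nat_lit 4, nat_lit 100, nat_lit 96, nat_lit 70, nat_lit 435871617⟩]⟩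
noncomputable def p049_l116 : Lf2 := ⟨nat_lit 0, nat_lit 5, [nat_lit 4, nat_lit 5, nat_lit 5, nat_lit 20], true, nat_lit 240, nat_lit 280, nat_lit 0, nat_lit 312, ⟨nat_lit 0, nat_lit 1000, nat_lit 0, nat_lit 6, nat_lit 150, nat_lit 1000, nat_lit 181, nat_lit 0, nat_lit 0, nat_lit 0, nat_lit 0, nat_lit 0, nat_lit 0, nat_lit 0, nat_lit 0, nat_lit 5000000, false, false⟩,
 nat_lit 0, nat_lit 9403, nat_lit 0, nat_lit 0, nat_lit 5854, nat_lit 0, nat_lit 811, nat_lit 0, nat_lit 0, nat_lit 0, nat_lit 0, nat_lit 0, nat_lit 0, nat_lit 50170536709998, nat_lit 0, nat_lit 400000, nat_lit 0, nat_lit 0, [(nat_lit 9, [(nat_lit 1, nat_lit 1000)])],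
 ⟨p049_k45, nat_lit 0, nat_lit 0, nat_lit 307, nat_lit 0, nat_lit 580201, [nat_lit 2702720000, nat_lit 2862800001, nat_lit 3030799999], [], [nat_lit 16812757170, nat_lit 17026891429, nat_lit 16708113067, nat_lit 16948762656, nat_lit 18705856730, nat_lit 18934076064, nat_lit 18587975225, nat_lit 18803987668], nat_lit 1271250, nat_lit 1271250, nat_lit 490000, nat_lit 780000, nat_lit 1271250, nat_lit 1271250, [nat_lit 1100000, nat_lit 1442500, nat_lit 1271250], [nat_lit 9, nat_lit 40, nat_lit 40, nat_lit 80, nat_lit 2, nat_lit 238, nat_lit 30, nat_lit 7]⟩, C1.Rw.none,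
 ⟨nat_lit 5477, nat_lit 5591, ⟨.ofNat (nat_lit 315226), .ofNat (nat_lit 391049), .ofNat (nat_lit 357922), .ofNat (nat_lit 433745), .ofNat (nat_lit 317913), .ofNat (nat_lit 392847), .ofNat (nat_lit 360628), .ofNat (nat_lit 435560)⟩, ⟨.ofNat (nat_lit 405038), .ofNat (nat_lit 480861), .ofNat (nat_lit 426386), .ofNat (nat_lit 502209), .ofNat (nat_lit 404075), .ofNat (nat_lit 479008), .ofNat (nat_lit 425432), .ofNat (nat_lit 500365)⟩⟩, [⟨nat_lit 4, nat_lit 100, nat_lit 97, nat_lit 70, nat_lit 480278437⟩]⟩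
noncomputable def p049_l117 : Lf2 := ⟨nat_lit 0, nat_lit 10, [nat_lit 0, nat_lit 5, nat_lit 5, nat_lit 20], true, nat_lit 160, nat_lit 288, nat_lit 0, nat_lit 312, ⟨nat_lit 0, nat_lit 1000, nat_lit 0, nat_lit 6, nat_lit 150, nat_lit 1000, nat_lit 154, nat_lit 0, nat_lit 0, nat_lit 0, nat_lit 0, nat_lit 0, nat_lit 0, nat_lit 0, nat_lit 0, nat_lit 5000000, false, false⟩,
 nat_lit 0, nat_lit 10298, nat_lit 0, nat_lit 0, nat_lit 6271, nat_lit 0, nat_lit 659, nat_lit 0, nat_lit 0, nat_lit 0, nat_lit 0, nat_lit 0, nat_lit 0, nat_lit 49330117555055, nat_lit 0, nat_lit 400000, nat_lit 0, nat_lit 0, [(nat_lit 9, [(nat_lit 1, nat_lit 1000)])],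
 ⟨p049_k11, nat_lit 0, nat_lit 0, nat_lit 293, nat_lit 0, nat_lit 413366, [nat_lit 2702720000, nat_lit 2968400001, nat_lit 2997199999], [], [nat_lit 16972342891, nat_lit 15363698002, nat_lit 14710942783, nat_lit 15121077682, nat_lit 20084412674, nat_lit 20575933975, nat_lit 22427741371, nat_lit 20933779720], nat_lit 1271250, nat_lit 1271250, nat_lit 490000, nat_lit 780000, nat_lit 1100001, nat_lit 2196000, [nat_lit 1100000, nat_lit 1442500, nat_lit 1271250], [nat_lit 11, nat_lit 40, nat_lit 40, nat_lit 80, nat_lit 1, nat_lit 401, nat_lit 175, nat_lit 11]⟩, C1.Rw.none,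
 ⟨nat_lit 5477, nat_lit 5701, ⟨.ofNat (nat_lit 312525), .ofNat (nat_lit 389244), .ofNat (nat_lit 355209), .ofNat (nat_lit 431928), .ofNat (nat_lit 317913), .ofNat (nat_lit 392847), .ofNat (nat_lit 360628), .ofNat (nat_lit 435561)⟩, ⟨.ofNat (nat_lit 252544), .ofNat (nat_lit 498045), .ofNat (nat_lit 273886), .ofNat (nat_lit 519387), .ofNat (nat_lit 254209), .ofNat (nat_lit 493995), .ofNat (nat_lit 275566), .ofNat (nat_lit 515352)⟩⟩, [⟨nat_lit 16, nat_lit 98, nat_lit 100, nat_lit 70, nat_lit 438052217⟩]⟩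
noncomputable def p049_l118 : Lf2 := ⟨nat_lit 0, nat_lit 10, [nat_lit 0, nat_lit 5, nat_lit 5, nat_lit 20], true, nat_lit 160, nat_lit 308, nat_lit 0, nat_lit 336, ⟨nat_lit 0, nat_lit 1000, nat_lit 0, nat_lit 6, nat_lit 150, nat_lit 1000, nat_lit 170, nat_lit 0, nat_lit 0, nat_lit 0, nat_lit 0, nat_lit 0, nat_lit 0, nat_lit 0, nat_lit 0, nat_lit 5000000, false, false⟩,
 nat_lit 0, nat_lit 6823, nat_lit 0, nat_lit 0, nat_lit 4155, nat_lit 0, nat_lit 1487, nat_lit 0, nat_lit 0, nat_lit 0, nat_lit 0, nat_lit 0, nat_lit 0, nat_lit 23536035564985, nat_lit 0, nat_lit 400000, nat_lit 0, nat_lit 0, [(nat_lit 9, [(nat_lit 1, nat_lit 1000)])],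
 ⟨p049_k11, nat_lit 0, nat_lit 0, nat_lit 356, nat_lit 0, nat_lit 579019, [nat_lit 2702720000, nat_lit 2968400001, nat_lit 2997199999], [], [nat_lit 19817895255, nat_lit 19094639500, nat_lit 18939131080, nat_lit 19428404980, nat_lit 24103866119, nat_lit 24476702118, nat_lit 25533267024, nat_lit 24550429074], nat_lit 1271250, nat_lit 1271250, nat_lit 490000, nat_lit 780000, nat_lit 1100001, nat_lit 2367250, [nat_lit 1100000, nat_lit 1442500, nat_lit 1271250], [nat_lit 11, nat_lit 40, nat_lit 40, nat_lit 80, nat_lit 1, nat_lit 428, nat_lit 200, nat_lit 12]⟩, C1.Rw.none,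
 ⟨nat_lit 5477, nat_lit 5701, ⟨.ofNat (nat_lit 312525), .ofNat (nat_lit 389244), .ofNat (nat_lit 355209), .ofNat (nat_lit 431928), .ofNat (nat_lit 317913), .ofNat (nat_lit 392847), .ofNat (nat_lit 360628), .ofNat (nat_lit 435561)⟩, ⟨.ofNat (nat_lit 273886), .ofNat (nat_lit 557746), .ofNat (nat_lit 295228), .ofNat (nat_lit 579088), .ofNat (nat_lit 275566), .ofNat (nat_lit 552818), .ofNat (nat_lit 296923), .ofNat (nat_lit 574176)⟩⟩, [⟨nat_lit 4, nat_lit 96, nat_lit 100, nat_lit 82, nat_lit 307274828⟩]⟩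
noncomputable def p049_l119 : Lf2 := ⟨nat_lit 0, nat_lit 10, [nat_lit 0, nat_lit 5, nat_lit 5, nat_lit 20], false, nat_lit 160, nat_lit 308, nat_lit 0, nat_lit 160, ⟨nat_lit 1000, nat_lit 0, nat_lit 0, nat_lit 0, nat_lit 0, nat_lit 0, nat_lit 0, nat_lit 0, nat_lit 0, nat_lit 0, nat_lit 0, nat_lit 0, nat_lit 0, nat_lit 0, nat_lit 0, nat_lit 0, false, false⟩,
 nat_lit 0, nat_lit 13122, nat_lit 0, nat_lit 0, nat_lit 7991, nat_lit 7932, nat_lit 1869, nat_lit 0, nat_lit 0, nat_lit 3019, nat_lit 0, nat_lit 0, nat_lit 0, nat_lit 17583665532241, nat_lit 0, nat_lit 0, nat_lit 0, nat_lit 0, [],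
 ⟨p049_k11, nat_lit 0, nat_lit 0, nat_lit 470, nat_lit 0, nat_lit 809865, [nat_lit 4688000000, nat_lit 6250000000, nat_lit 9842000000], [], [nat_lit 16329006936, nat_lit 16729580101, nat_lit 27631262925, nat_lit 25722660521, nat_lit 21188790381, nat_lit 21671126929, nat_lit 23683039073, nat_lit 24291070297], nat_lit 1271250, nat_lit 1271250, nat_lit 780000, nat_lit 1762500, nat_lit 1271250, nat_lit 1271250, [nat_lit 1100000, nat_lit 1442500, nat_lit 1271250], [nat_lit 11, nat_lit 40, nat_lit 40, nat_lit 80, nat_lit 1, nat_lit 456, nat_lit 225, nat_lit 13]⟩, ⟨p049_k15, nat_lit 0, nat_lit 0, nat_lit 202, nat_lit 0, nat_lit 0, [nat_lit 4688000000, nat_lit 6250000000, nat_lit 11872000000], [], [nat_lit 17179093685, nat_lit 20189355829, nat_lit 20249783877, nat_lit 23424708144, nat_lit 12366459328, nat_lit 15400491984, nat_lit 16410290640, nat_lit 18737443200], nat_lit 0, nat_lit 0, nat_lit 0, nat_lit 0, nat_lit 0, nat_lit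 0, [], [nat_lit 48, nat_lit 40, nat_lit 40, nat_lit 80, nat_lit 12, nat_lit 401, nat_lit 175, nat_lit 10]⟩,
 zbF0, [⟨nat_lit 4, nat_lit 99, nat_lit 100, nat_lit 77, nat_lit 504663728⟩]⟩
noncomputable def p049_l120 : Lf2 := ⟨nat_lit 0, nat_lit 10, [nat_lit 0, nat_lit 5, nat_lit 5, nat_lit 20], false, nat_lit 160, nat_lit 308, nat_lit 160, nat_lit 336, ⟨nat_lit 1000, nat_lit 0, nat_lit 0, nat_lit 0, nat_lit 0, nat_lit 0, nat_lit 0, nat_lit 0, nat_lit 0, nat_lit 0, nat_lit 0, nat_lit 0, nat_lit 0, nat_lit 0, nat_lit 0, nat_lit 0, false, false⟩,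
 nat_lit 0, nat_lit 12225, nat_lit 0, nat_lit 0, nat_lit 7445, nat_lit 8190, nat_lit 2529, nat_lit 0, nat_lit 0, nat_lit 0, nat_lit 0, nat_lit 0, nat_lit 0, nat_lit 0, nat_lit 0, nat_lit 0, nat_lit 0, nat_lit 0, [],
 ⟨p049_k11, nat_lit 0, nat_lit 0, nat_lit 470, nat_lit 0, nat_lit 809865, [nat_lit 4688000000, nat_lit 6250000000, nat_lit 9842000000], [], [nat_lit 17458984180, nat_lit 17985118120, nat_lit 27248783625, nat_lit 25470590045, nat_lit 22626907258, nat_lit 22981799264, nat_lit 23706496811, nat_lit 24108894120], nat_lit 1271250, nat_lit 1271250, nat_lit 780000, nat_lit 1762500, nat_lit 1271250, nat_lit 1271250, [nat_lit 1100000, nat_lit 1442500, nat_lit 1271250], [nat_lit 11, nat_lit 40, nat_lit 40, nat_lit 80, nat_lit 1, nat_lit 456, nat_lit 225, nat_lit 13]⟩, ⟨p049_k15, nat_lit 0, nat_lit 0, nat_lit 54, nat_lit 0, nat_lit 0, [nat_lit 4688000000, nat_lit 6250000000, nat_lit 11872000000], [], [nat_lit 6454172680,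 nat_lit 10586627720, nat_lit 12108858560, nat_lit 15715342840, nat_lit 21937562440, nat_lit 24796112792, nat_lit 24574891465, nat_lit 26761566985], nat_lit 0, nat_lit 0, nat_lit 0, nat_lit 0, nat_lit 0, nat_lit 0, [], [nat_lit 48, nat_lit 40, nat_lit 40, nat_lit 80, nat_lit 12, nat_lit 456, nat_lit 225, nat_lit 11]⟩,
 zbF0, [⟨nat_lit 4, nat_lit 99, nat_lit 100, nat_lit 77, nat_lit 506994600⟩, ⟨nat_lit 7, nat_lit 92, nat_lit 100, nat_lit 75, nat_lit 842843624⟩]⟩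
noncomputable def b_V_600_600_10_76 : St := ⟨true, nat_lit 1, nat_lit 0, nat_lit 2, nat_lit 80, nat_lit 260, nat_lit 280, nat_lit 240, nat_lit 280, nat_lit 24, nat_lit 240, nat_lit 40, nat_lit 80, nat_lit 160, nat_lit 320, nat_lit 0, nat_lit 336, nat_lit 0, nat_lit 40, nat_lit 0, nat_lit 0, nat_lit 0, nat_lit 0⟩
theorem d_V_600_600_10_76 (h : EB TB.env) : Dead b_V_600_600_10_76 := chkB_sound0 h (T :=
(.spl (nat_lit 0) (nat_lit 270)
(.ord (.spl (nat_lit 2) (nat_lit 120)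
(.spl (nat_lit 4) (nat_lit 240)
(.spl (nat_lit 1) (nat_lit 260)
(.leaf p049_l102)
(.trZ (nat_lit 0) (nat_lit 100) (nat_lit 100) (nat_lit 60) (nat_lit 36) (.trX (nat_lit 19) (nat_lit 100) (nat_lit 85) (nat_lit 84) (nat_lit 320) (.leaf p049_l103))))
(.spl (nat_lit 2) (nat_lit 80)
(.leaf p049_l104)
(.leaf p049_l105)))
(.spl (nat_lit 5) (nat_lit 160)
(.leaf p049_l106)
(.leaf p049_l107))))
(.trZ (nat_lit 0) (nat_lit 100) (nat_lit 96) (nat_lit 54) (nat_lit 28) (.trX (nat_lit 16) (nat_lit 100) (nat_lit 90) (nat_lit 85) (nat_lit 308) (.spl (nat_lit 2) (nat_lit 120)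
(.spl (nat_lit 2) (nat_lit 80)
(.leaf p049_l108)
(.spl (nat_lit 3) (nat_lit 60)
(.trX (nat_lit 16) (nat_lit 100) (nat_lit 97) (nat_lit 76) (nat_lit 288) (.trX (nat_lit 19) (nat_lit 100) (nat_lit 85) (nat_lit 73) (nat_lit 312) (.spl (nat_lit 6) (nat_lit 20)
(.spl (nat_lit 0) (nat_lit 275)
(.ord (.spl (nat_lit 0) (nat_lit 273)
(.ord (.leaf p049_l109))
(.trX (nat_lit 16) (nat_lit 100) (nat_lit 98) (nat_lit 77) (nat_lit 284) (.leaf p049_l110))))
(.trX (nat_lit 16) (nat_lit 100) (nat_lit 99) (nat_lit 77) (nat_lit 280) (.spl (nat_lit 4) (nat_lit 240)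
(.spl (nat_lit 0) (nat_lit 278)
(.ord (.leaf p049_l111))
(.leaf p049_l112))
(.spl (nat_lit 6) (nat_lit 8)
(.spl (nat_lit 0) (nat_lit 278)
(.ord (.leaf p049_l113))
(.spl (nat_lit 0) (nat_lit 279)
(.ord (.leaf p049_l114))
(.trX (nat_lit 16) (nat_lit 99) (nat_lit 100) (nat_lit 77) (nat_lit 276) (.leaf p049_l115))))
(.leaf p049_l116)))))
(.leaf p049_l117))))
(.leaf p049_l118)))
(.spl (nat_lit 5) (nat_lit 160)
(.leaf p049_l119)
(.leaf p049_l120))))))) (by decide +kernel)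
noncomputable def p049_l121 : Lf2 := ⟨nat_lit 0, nat_lit 6, [nat_lit 47, nat_lit 5, nat_lit 5, nat_lit 20], false, nat_lit 0, nat_lit 336, nat_lit 0, nat_lit 336, ⟨nat_lit 1000, nat_lit 0, nat_lit 0, nat_lit 0, nat_lit 0, nat_lit 0, nat_lit 0, nat_lit 0, nat_lit 0, nat_lit 0, nat_lit 0, nat_lit 0, nat_lit 0, nat_lit 0, nat_lit 0, nat_lit 0, false, false⟩,
 nat_lit 0, nat_lit 13930, nat_lit 0, nat_lit 0, nat_lit 7374, nat_lit 6900, nat_lit 1640, nat_lit 0, nat_lit 0, nat_lit 1802, nat_lit 0, nat_lit 0, nat_lit 0, nat_lit 0, nat_lit 0, nat_lit 0, nat_lit 0, nat_lit 0, [],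
 ⟨p049_k42, nat_lit 0, nat_lit 0, nat_lit 331, nat_lit 0, nat_lit 267923, [nat_lit 4688000000, nat_lit 6250000000, nat_lit 9842000000], [], [nat_lit 26633525000, nat_lit 27044316962, nat_lit 37278266208, nat_lit 37787159252, nat_lit 27347787743, nat_lit 27584683541, nat_lit 34859498274, nat_lit 35111559787], nat_lit 1271250, nat_lit 1271250, nat_lit 1271250, nat_lit 1271250, nat_lit 0, nat_lit 2373000, [nat_lit 1100000, nat_lit 1442500, nat_lit 1271250], [nat_lit 11, nat_lit 40, nat_lit 40, nat_lit 80, nat_lit 1, nat_lit 483, nat_lit 250, nat_lit 14]⟩, ⟨p049_k42, nat_lit 0, nat_lit 0, nat_lit 213, nat_lit 0, nat_lit 0, [nat_lit 4688000000, nat_lit 6250000000, nat_lit 9842000000], [], [nat_lit 23761443300, nat_lit 24287567500, nat_lit 36091468800, nat_lit 36586992200, nat_lit 26110486101, nat_lit 26422957601, nat_lit 34300070960, nat_lit 34551498641], nat_lit 0, nat_lit 0, nat_lit 0, nat_lit 0, nat_lit 0, nat_lit 0,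 [], [nat_lit 11, nat_lit 40, nat_lit 40, nat_lit 80, nat_lit 1, nat_lit 483, nat_lit 250, nat_lit 14]⟩,
 zbF0, [⟨nat_lit 16, nat_lit 100, nat_lit 86, nat_lit 73, nat_lit 204893391⟩, ⟨nat_lit 7, nat_lit 86, nat_lit 100, nat_lit 73, nat_lit 217943498⟩]⟩
noncomputable def p049_l122 : Lf2 := ⟨nat_lit 0, nat_lit 6, [nat_lit 47, nat_lit 5, nat_lit 5, nat_lit 20], false, nat_lit 0, nat_lit 328, nat_lit 0, nat_lit 336, ⟨nat_lit 1000, nat_lit 0, nat_lit 0, nat_lit 0, nat_lit 0, nat_lit 0, nat_lit 0, nat_lit 0, nat_lit 0, nat_lit 0, nat_lit 0, nat_lit 0, nat_lit 0, nat_lit 0, nat_lit 0, nat_lit 0, false, false⟩,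
 nat_lit 0, nat_lit 12916, nat_lit 0, nat_lit 0, nat_lit 7175, nat_lit 6668, nat_lit 2880, nat_lit 0, nat_lit 0, nat_lit 1717, nat_lit 0, nat_lit 0, nat_lit 0, nat_lit 0, nat_lit 0, nat_lit 0, nat_lit 0, nat_lit 0, [],
 ⟨p049_k40, nat_lit 0, nat_lit 0, nat_lit 419, nat_lit 0, nat_lit 456658, [nat_lit 4688000000, nat_lit 6250000000, nat_lit 9842000000], [], [nat_lit 26116988250, nat_lit 26496893900, nat_lit 37283291650, nat_lit 37786571700, nat_lit 26568023820, nat_lit 26751719190, nat_lit 34412402115, nat_lit 34674987220], nat_lit 1271250, nat_lit 1271250, nat_lit 1271250, nat_lit 1271250, nat_lit 0, nat_lit 2316500, [nat_lit 1100000, nat_lit 1442500, nat_lit 1271250], [nat_lit 11, nat_lit 40, nat_lit 40, nat_lit 80, nat_lit 1, nat_lit 483, nat_lit 250, nat_lit 14]⟩, ⟨p049_k42, nat_lit 0, nat_lit 0, nat_lit 214, nat_lit 0, nat_lit 0, [nat_lit 4688000000, nat_lit 6250000000, nat_lit 9842000000], [], [nat_lit 24286127986,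 nat_lit 25321900674, nat_lit 35633480258, nat_lit 36488548272, nat_lit 26654951196, nat_lit 27170681306, nat_lit 34026258436, nat_lit 34528493335], nat_lit 0, nat_lit 0, nat_lit 0, nat_lit 0, nat_lit 0, nat_lit 0, [], [nat_lit 11, nat_lit 40, nat_lit 40, nat_lit 80, nat_lit 1, nat_lit 483, nat_lit 250, nat_lit 14]⟩,
 zbF0, [⟨nat_lit 4, nat_lit 90, nat_lit 100, nat_lit 74, nat_lit 189197467⟩, ⟨nat_lit 7, nat_lit 88, nat_lit 100, nat_lit 74, nat_lit 216527525⟩]⟩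
noncomputable def p049_l123 : Lf2 := ⟨nat_lit 1, nat_lit 10, [nat_lit 0, nat_lit 5, nat_lit 5, nat_lit 20], false, nat_lit 0, nat_lit 336, nat_lit 0, nat_lit 336, zbN0,
 nat_lit 0, nat_lit 0, nat_lit 0, nat_lit 0, nat_lit 0, nat_lit 0, nat_lit 0, nat_lit 0, nat_lit 0, nat_lit 0, nat_lit 0, nat_lit 0, nat_lit 0, nat_lit 0, nat_lit 0, nat_lit 0, nat_lit 0, nat_lit 0, [],
 C1.Rw.none, C1.Rw.none,
 zbF0, []⟩
noncomputable def p049_l124 : Lf2 := ⟨nat_lit 0, nat_lit 10, [nat_lit 0, nat_lit 5, nat_lit 5, nat_lit 20], false, nat_lit 0, nat_lit 320, nat_lit 0, nat_lit 160, ⟨nat_lit 1000, nat_lit 0, nat_lit 0, nat_lit 0, nat_lit 0, nat_lit 0, nat_lit 0, nat_lit 0, nat_lit 0, nat_lit 0, nat_lit 0, nat_lit 0, nat_lit 0, nat_lit 0, nat_lit 0, nat_lit 0, false, false⟩,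
 nat_lit 0, nat_lit 11234, nat_lit 0, nat_lit 0, nat_lit 6539, nat_lit 6662, nat_lit 1980, nat_lit 0, nat_lit 0, nat_lit 2241, nat_lit 0, nat_lit 0, nat_lit 0, nat_lit 0, nat_lit 0, nat_lit 0, nat_lit 0, nat_lit 0, [],
 ⟨p049_k8, nat_lit 0, nat_lit 0, nat_lit 583, nat_lit 0, nat_lit 864007, [nat_lit 4688000000, nat_lit 6250000000, nat_lit 9842000000], [], [nat_lit 31091688144, nat_lit 31575985172, nat_lit 36158281956, nat_lit 37128964024, nat_lit 30514250950, nat_lit 30833412664, nat_lit 33902429592, nat_lit 34054570316], nat_lit 1271250, nat_lit 1271250, nat_lit 1271250, nat_lit 1271250, nat_lit 0, nat_lit 2260000, [nat_lit 1100000, nat_lit 1442500, nat_lit 1271250], [nat_lit 11, nat_lit 40, nat_lit 40, nat_lit 80, nat_lit 1, nat_lit 483, nat_lit 250, nat_lit 14]⟩, ⟨p049_k15, nat_lit 0, nat_lit 0, nat_lit 239, nat_lit 0, nat_lit 0, [nat_lit 4688000000, nat_lit 6250000000, nat_lit 11872000000], [], [nat_lit 23749396247,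 nat_lit 25781856511, nat_lit 35495566304, nat_lit 37450807792, nat_lit 19892592167, nat_lit 21398601200, nat_lit 29452398712, nat_lit 30850546368], nat_lit 0, nat_lit 0, nat_lit 0, nat_lit 0, nat_lit 0, nat_lit 0, [], [nat_lit 48, nat_lit 40, nat_lit 40, nat_lit 80, nat_lit 12, nat_lit 456, nat_lit 225, nat_lit 11]⟩,
 zbF0, [⟨nat_lit 16, nat_lit 100, nat_lit 97, nat_lit 76, nat_lit 180809428⟩]⟩
noncomputable def p049_l125 : Lf2 := ⟨nat_lit 0, nat_lit 10, [nat_lit 0, nat_lit 5, nat_lit 5, nat_lit 20], false, nat_lit 0, nat_lit 320, nat_lit 160, nat_lit 336, ⟨nat_lit 1000, nat_lit 0, nat_lit 0, nat_lit 0, nat_lit 0, nat_lit 0, nat_lit 0, nat_lit 0, nat_lit 0, nat_lit 0, nat_lit 0, nat_lit 0, nat_lit 0, nat_lit 0, nat_lit 0, nat_lit 0, false, false⟩,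
 nat_lit 0, nat_lit 10997, nat_lit 0, nat_lit 0, nat_lit 6401, nat_lit 5821, nat_lit 2085, nat_lit 0, nat_lit 0, nat_lit 0, nat_lit 0, nat_lit 0, nat_lit 0, nat_lit 0, nat_lit 0, nat_lit 0, nat_lit 0, nat_lit 0, [],
 ⟨p049_k8, nat_lit 0, nat_lit 0, nat_lit 482, nat_lit 0, nat_lit 647253, [nat_lit 4688000000, nat_lit 6250000000, nat_lit 9842000000], [], [nat_lit 29592245426, nat_lit 29865889351, nat_lit 35804973804, nat_lit 36286422410, nat_lit 29424765277, nat_lit 29609744584, nat_lit 33522925514, nat_lit 33626798315], nat_lit 1271250, nat_lit 1271250, nat_lit 1271250, nat_lit 1271250, nat_lit 0, nat_lit 2260000, [nat_lit 1100000, nat_lit 1442500, nat_lit 1271250], [nat_lit 11, nat_lit 40, nat_lit 40, nat_lit 80, nat_lit 1, nat_lit 483, nat_lit 250, nat_lit 14]⟩, ⟨p049_k15, nat_lit 0, nat_lit 0, nat_lit 83, nat_lit 0, nat_lit 0, [nat_lit 4688000000, nat_lit 6250000000, nat_lit 11872000000], [], [nat_lit 15499788304,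 nat_lit 17456208841, nat_lit 27656748100, nat_lit 28752355768, nat_lit 24483318184, nat_lit 25693546966, nat_lit 33026606675, nat_lit 33776561199], nat_lit 0, nat_lit 0, nat_lit 0, nat_lit 0, nat_lit 0, nat_lit 0, [], [nat_lit 48, nat_lit 40, nat_lit 40, nat_lit 80, nat_lit 12, nat_lit 538, nat_lit 300, nat_lit 13]⟩,
 zbF0, [⟨nat_lit 4, nat_lit 95, nat_lit 100, nat_lit 76, nat_lit 189384757⟩, ⟨nat_lit 19, nat_lit 100, nat_lit 90, nat_lit 74, nat_lit 610033360⟩]⟩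
noncomputable def p049_l126 : Lf2 := ⟨nat_lit 0, nat_lit 10, [nat_lit 0, nat_lit 5, nat_lit 5, nat_lit 20], false, nat_lit 0, nat_lit 308, nat_lit 160, nat_lit 336, ⟨nat_lit 1000, nat_lit 0, nat_lit 0, nat_lit 0, nat_lit 0, nat_lit 0, nat_lit 0, nat_lit 0, nat_lit 0, nat_lit 0, nat_lit 0, nat_lit 0, nat_lit 0, nat_lit 0, nat_lit 0, nat_lit 0, false, false⟩,
 nat_lit 0, nat_lit 10181, nat_lit 0, nat_lit 0, nat_lit 6200, nat_lit 5779, nat_lit 1461, nat_lit 0, nat_lit 0, nat_lit 0, nat_lit 0, nat_lit 0, nat_lit 0, nat_lit 0, nat_lit 0, nat_lit 0, nat_lit 0, nat_lit 0, [],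
 ⟨p049_k11, nat_lit 0, nat_lit 0, nat_lit 562, nat_lit 0, nat_lit 809865, [nat_lit 4688000000, nat_lit 6250000000, nat_lit 9842000000], [], [nat_lit 30899494000, nat_lit 31138664375, nat_lit 36061648325, nat_lit 36245243200, nat_lit 30250713686, nat_lit 30405329480, nat_lit 34317277761, nat_lit 34429241360], nat_lit 1271250, nat_lit 1271250, nat_lit 1271250, nat_lit 1271250, nat_lit 0, nat_lit 2175250, [nat_lit 1100000, nat_lit 1442500, nat_lit 1271250], [nat_lit 11, nat_lit 40, nat_lit 40, nat_lit 80, nat_lit 1, nat_lit 483, nat_lit 250, nat_lit 13]⟩, ⟨p049_k15, nat_lit 0, nat_lit 0, nat_lit 83, nat_lit 0, nat_lit 0, [nat_lit 4688000000, nat_lit 6250000000, nat_lit 11872000000], [], [nat_lit 15559906096, nat_lit 18158722980, nat_lit 27666739900, nat_lit 29124520076, nat_lit 24515219737, nat_lit 26124854640, nat_lit 32977037166, nat_lit 33976751881], nat_lit 0, nat_lit 0, nat_lit 0, nat_lit 0, nat_lit 0, nat_lit 0,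 [], [nat_lit 48, nat_lit 40, nat_lit 40, nat_lit 80, nat_lit 12, nat_lit 538, nat_lit 300, nat_lit 13]⟩,
 zbF0, [⟨nat_lit 16, nat_lit 100, nat_lit 99, nat_lit 77, nat_lit 198810915⟩, ⟨nat_lit 19, nat_lit 100, nat_lit 92, nat_lit 75, nat_lit 590966296⟩]⟩
noncomputable def b_V_600_600_10_77 : St := ⟨true, nat_lit 1, nat_lit 0, nat_lit 2, nat_lit 80, nat_lit 240, nat_lit 280, nat_lit 240, nat_lit 280, nat_lit 240, nat_lit 400, nat_lit 40, nat_lit 80, nat_lit 0, nat_lit 336, nat_lit 0, nat_lit 336, nat_lit 0, nat_lit 40, nat_lit 0, nat_lit 0, nat_lit 0, nat_lit 0⟩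
theorem d_V_600_600_10_77 (h : EB TB.env) : Dead b_V_600_600_10_77 := chkB_sound0 h (T :=
(.spl (nat_lit 0) (nat_lit 260)
(.ord (.spl (nat_lit 6) (nat_lit 24)
(.spl (nat_lit 0) (nat_lit 250)
(.ord (.leaf p049_l121))
(.trX (nat_lit 16) (nat_lit 100) (nat_lit 81) (nat_lit 83) (nat_lit 328) (.leaf p049_l122)))
(.leaf p049_l123)))
(.trX (nat_lit 16) (nat_lit 100) (nat_lit 85) (nat_lit 84) (nat_lit 320) (.spl (nat_lit 5) (nat_lit 160)
(.leaf p049_l124)
(.spl (nat_lit 0) (nat_lit 270)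
(.ord (.leaf p049_l125))
(.trX (nat_lit 16) (nat_lit 100) (nat_lit 90) (nat_lit 85) (nat_lit 308) (.leaf p049_l126))))))) (by decide +kernel)
noncomputable def p049_l127 : Lf2 := ⟨nat_lit 0, nat_lit 6, [nat_lit 47, nat_lit 5, nat_lit 5, nat_lit 20], false, nat_lit 0, nat_lit 160, nat_lit 0, nat_lit 336, ⟨nat_lit 0, nat_lit 1000, nat_lit 0, nat_lit 6, nat_lit 115, nat_lit 1000, nat_lit 54, nat_lit 0, nat_lit 0, nat_lit 0, nat_lit 0, nat_lit 0, nat_lit 0, nat_lit 0, nat_lit 0, nat_lit 5000000, false, false⟩,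
 nat_lit 0, nat_lit 9037, nat_lit 0, nat_lit 0, nat_lit 4784, nat_lit 0, nat_lit 1433, nat_lit 0, nat_lit 0, nat_lit 0, nat_lit 0, nat_lit 0, nat_lit 0, nat_lit 29177934790967, nat_lit 0, nat_lit 400000, nat_lit 0, nat_lit 0, [(nat_lit 6, [(nat_lit 1, nat_lit 1000)])],
 ⟨p049_k42, nat_lit 0, nat_lit 0, nat_lit 423, nat_lit 0, nat_lit 265448, [nat_lit 2692266667, nat_lit 3151066667, nat_lit 3294533333], [], [nat_lit 33343276488, nat_lit 30829026152, nat_lit 24598317729, nat_lit 23707255452, nat_lit 27493336232, nat_lit 25188931272, nat_lit 31634573633, nat_lit 29410482465], nat_lit 1271250, nat_lit 1271250, nat_lit 88400, nat_lit 780000, nat_lit 0, nat_lit 1100001, [nat_lit 1100000, nat_lit 1442500, nat_lit 1271250], [nat_lit 11, nat_lit 40, nat_lit 40, nat_lit 80, nat_lit 1, nat_lit 373, nat_lit 150, nat_lit 11]⟩, ⟨p049_k42, nat_lit 0, nat_lit 0, nat_lit 423, nat_lit 0, nat_lit 265448, [nat_lit 0, nat_lit 0, nat_lit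 0], [], [nat_lit 0, nat_lit 0, nat_lit 0, nat_lit 0, nat_lit 0, nat_lit 0, nat_lit 0, nat_lit 0], nat_lit 1271250, nat_lit 1271250, nat_lit 88400, nat_lit 780000, nat_lit 0, nat_lit 2373000, [nat_lit 1100000, nat_lit 1442500, nat_lit 1271250], [nat_lit 11, nat_lit 40, nat_lit 40, nat_lit 80, nat_lit 1, nat_lit 428, nat_lit 200, nat_lit 13]⟩,
 ⟨nat_lit 5916, nat_lit 6325, ⟨.ofNat (nat_lit 164319), .ofNat (nat_lit 378206), .ofNat (nat_lit 185687), .ofNat (nat_lit 399574), .ofNat (nat_lit 181423), .ofNat (nat_lit 385610), .ofNat (nat_lit 202762), .ofNat (nat_lit 406949)⟩, ⟨.negSucc (nat_lit 82265), .ofNat (nat_lit 246791), .negSucc (nat_lit 39529), .ofNat (nat_lit 289527), .negSucc (nat_lit 63383), .ofNat (nat_lit 250751), .negSucc (nat_lit 20704), .ofNat (nat_lit 293429)⟩⟩, []⟩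
noncomputable def p049_l128 : Lf2 := ⟨nat_lit 0, nat_lit 6, [nat_lit 47, nat_lit 5, nat_lit 5, nat_lit 20], false, nat_lit 0, nat_lit 160, nat_lit 0, nat_lit 336, ⟨nat_lit 0, nat_lit 1000, nat_lit 0, nat_lit 6, nat_lit 173, nat_lit 1000, nat_lit 54, nat_lit 0, nat_lit 0, nat_lit 0, nat_lit 0, nat_lit 0, nat_lit 0, nat_lit 0, nat_lit 0, nat_lit 5000000, false, false⟩,
 nat_lit 4651, nat_lit 0, nat_lit 0, nat_lit 0, nat_lit 2462, nat_lit 0, nat_lit 200, nat_lit 0, nat_lit 0, nat_lit 0, nat_lit 0, nat_lit 0, nat_lit 0, nat_lit 22779589801827, nat_lit 0, nat_lit 539200, nat_lit 0, nat_lit 0, [(nat_lit 6, [(nat_lit 1, nat_lit 768), (nat_lit 2, nat_lit 232)])],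
 ⟨p049_k50, nat_lit 0, nat_lit 0, nat_lit 313, nat_lit 0, nat_lit 265448, [nat_lit 2951587200, nat_lit 3105513600, nat_lit 2665852800], [], [nat_lit 32298763192, nat_lit 30976821836, nat_lit 29654880480, nat_lit 29038741060, nat_lit 28442548544, nat_lit 29031594404, nat_lit 29015358032, nat_lit 29578641764], nat_lit 1271250, nat_lit 1271250, nat_lit 780000, nat_lit 1100001, nat_lit 0, nat_lit 1100001, [nat_lit 1100000, nat_lit 1785000, nat_lit 1271250], [nat_lit 29, nat_lit 40, nat_lit 40, nat_lit 80, nat_lit 17, nat_lit 373, nat_lit 150, nat_lit 11]⟩, ⟨p049_k50, nat_lit 0, nat_lit 0, nat_lit 313, nat_lit 0, nat_lit 265448, [nat_lit 0, nat_lit 0, nat_lit 0], [], [nat_lit 0, nat_lit 0, nat_lit 0, nat_lit 0, nat_lit 0, nat_lit 0, nat_lit 0, nat_lit 0], nat_lit 1271250, nat_lit 1271250, nat_lit 780000, nat_lit 1100001, nat_lit 0, nat_lit 2373000, [nat_lit 1100000, nat_lit 1785000, nat_lit 1271250], [nat_lit 29, nat_lit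 40, nat_lit 40, nat_lit 80, nat_lit 17, nat_lit 428, nat_lit 200, nat_lit 12]⟩,
 ⟨nat_lit 5916, nat_lit 6325, ⟨.ofNat (nat_lit 378206), .ofNat (nat_lit 460470), .ofNat (nat_lit 399574), .ofNat (nat_lit 481838), .ofNat (nat_lit 385610), .ofNat (nat_lit 464143), .ofNat (nat_lit 406949), .ofNat (nat_lit 485483)⟩, ⟨.negSucc (nat_lit 82265), .ofNat (nat_lit 246791), .negSucc (nat_lit 39529), .ofNat (nat_lit 289527), .negSucc (nat_lit 63383), .ofNat (nat_lit 250751), .negSucc (nat_lit 20704), .ofNat (nat_lit 293429)⟩⟩, []⟩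
noncomputable def p049_l129 : Lf2 := ⟨nat_lit 1, nat_lit 10, [nat_lit 0, nat_lit 5, nat_lit 5, nat_lit 20], false, nat_lit 0, nat_lit 160, nat_lit 0, nat_lit 336, zbN0,
 nat_lit 0, nat_lit 0, nat_lit 0, nat_lit 0, nat_lit 0, nat_lit 0, nat_lit 0, nat_lit 0, nat_lit 0, nat_lit 0, nat_lit 0, nat_lit 0, nat_lit 0, nat_lit 0, nat_lit 0, nat_lit 0, nat_lit 0, nat_lit 0, [],
 C1.Rw.none, C1.Rw.none,
 zbF0, []⟩
noncomputable def p049_l130 : Lf2 := ⟨nat_lit 0, nat_lit 10, [nat_lit 0, nat_lit 5, nat_lit 5, nat_lit 20], false, nat_lit 0, nat_lit 160, nat_lit 0, nat_lit 336, ⟨nat_lit 0, nat_lit 1000, nat_lit 0, nat_lit 6, nat_lit 127, nat_lit 1000, nat_lit 55, nat_lit 0, nat_lit 0, nat_lit 0, nat_lit 0, nat_lit 0, nat_lit 0, nat_lit 0, nat_lit 0, nat_lit 5000000, false, false⟩,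
 nat_lit 0, nat_lit 7244, nat_lit 0, nat_lit 0, nat_lit 4216, nat_lit 0, nat_lit 1085, nat_lit 0, nat_lit 0, nat_lit 0, nat_lit 0, nat_lit 0, nat_lit 0, nat_lit 25615801555240, nat_lit 0, nat_lit 400000, nat_lit 0, nat_lit 0, [(nat_lit 9, [(nat_lit 1, nat_lit 1000)])],
 ⟨p049_k8, nat_lit 0, nat_lit 0, nat_lit 492, nat_lit 0, nat_lit 472390, [nat_lit 2702720000, nat_lit 2968400001, nat_lit 2997199999], [], [nat_lit 29648666359, nat_lit 27439642567, nat_lit 22171558344, nat_lit 22966543272, nat_lit 24095516695, nat_lit 22905099432, nat_lit 27995752288, nat_lit 26035725456], nat_lit 1271250, nat_lit 1271250, nat_lit 134400, nat_lit 780000, nat_lit 0, nat_lit 1100001, [nat_lit 1100000, nat_lit 1442500, nat_lit 1271250], [nat_lit 11, nat_lit 40, nat_lit 40, nat_lit 80, nat_lit 1, nat_lit 373, nat_lit 150, nat_lit 11]⟩, ⟨p049_k15, nat_lit 0, nat_lit 0, nat_lit 606, nat_lit 0, nat_lit 531831, [nat_lit 0, nat_lit 0, nat_lit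 0], [], [nat_lit 0, nat_lit 0, nat_lit 0, nat_lit 0, nat_lit 0, nat_lit 0, nat_lit 0, nat_lit 0], nat_lit 1271250, nat_lit 1271250, nat_lit 134400, nat_lit 780000, nat_lit 0, nat_lit 2373000, [nat_lit 1100000, nat_lit 1442500, nat_lit 1271250], [nat_lit 48, nat_lit 40, nat_lit 40, nat_lit 80, nat_lit 12, nat_lit 428, nat_lit 200, nat_lit 11]⟩,
 ⟨nat_lit 5477, nat_lit 5917, ⟨.ofNat (nat_lit 197129), .ofNat (nat_lit 385610), .ofNat (nat_lit 239808), .ofNat (nat_lit 428288), .ofNat (nat_lit 213007), .ofNat (nat_lit 392847), .ofNat (nat_lit 255721), .ofNat (nat_lit 435561)⟩, ⟨.negSucc (nat_lit 63383), .ofNat (nat_lit 250751), .negSucc (nat_lit 20704), .ofNat (nat_lit 293429), .negSucc (nat_lit 45522), .ofNat (nat_lit 254209), .negSucc (nat_lit 2808), .ofNat (nat_lit 296923)⟩⟩, []⟩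
noncomputable def p049_l131 : Lf2 := ⟨nat_lit 0, nat_lit 10, [nat_lit 0, nat_lit 5, nat_lit 5, nat_lit 20], false, nat_lit 0, nat_lit 160, nat_lit 0, nat_lit 336, ⟨nat_lit 0, nat_lit 1000, nat_lit 0, nat_lit 6, nat_lit 180, nat_lit 1000, nat_lit 55, nat_lit 0, nat_lit 0, nat_lit 0, nat_lit 0, nat_lit 0, nat_lit 0, nat_lit 0, nat_lit 0, nat_lit 5000000, false, false⟩,
 nat_lit 0, nat_lit 7919, nat_lit 0, nat_lit 0, nat_lit 4609, nat_lit 0, nat_lit 1235, nat_lit 0, nat_lit 0, nat_lit 0, nat_lit 0, nat_lit 0, nat_lit 0, nat_lit 26283688540450, nat_lit 0, nat_lit 400000, nat_lit 0, nat_lit 0, [(nat_lit 9, [(nat_lit 1, nat_lit 1000)])],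
 ⟨p049_k8, nat_lit 0, nat_lit 0, nat_lit 433, nat_lit 0, nat_lit 472390, [nat_lit 2702720000, nat_lit 2968400001, nat_lit 2997199999], [], [nat_lit 29234822744, nat_lit 26797869302, nat_lit 24397603500, nat_lit 21997337698, nat_lit 24624504312, nat_lit 22452715858, nat_lit 27489524976, nat_lit 25346791658], nat_lit 1271250, nat_lit 1271250, nat_lit 780000, nat_lit 1100001, nat_lit 0, nat_lit 1100001, [nat_lit 1100000, nat_lit 1442500, nat_lit 1271250], [nat_lit 11, nat_lit 40, nat_lit 40, nat_lit 80, nat_lit 1, nat_lit 373, nat_lit 150, nat_lit 11]⟩, ⟨p049_k15, nat_lit 0, nat_lit 0, nat_lit 529, nat_lit 0, nat_lit 531831, [nat_lit 0, nat_lit 0, nat_lit 0], [], [nat_lit 0, nat_lit 0, nat_lit 0, nat_lit 0, nat_lit 0, nat_lit 0, nat_lit 0, nat_lit 0], nat_lit 1271250, nat_lit 1271250, nat_lit 780000, nat_lit 1100001, nat_lit 0, nat_lit 2373000, [nat_lit 1100000, nat_lit 1442500, nat_lit 1271250], [nat_lit 48, nat_lit 40,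 nat_lit 40, nat_lit 80, nat_lit 12, nat_lit 428, nat_lit 200, nat_lit 11]⟩,
 ⟨nat_lit 5477, nat_lit 5917, ⟨.ofNat (nat_lit 385610), .ofNat (nat_lit 464143), .ofNat (nat_lit 428288), .ofNat (nat_lit 506809), .ofNat (nat_lit 392847), .ofNat (nat_lit 467780), .ofNat (nat_lit 435561), .ofNat (nat_lit 510480)⟩, ⟨.negSucc (nat_lit 63383), .ofNat (nat_lit 250751), .negSucc (nat_lit 20704), .ofNat (nat_lit 293429), .negSucc (nat_lit 45522), .ofNat (nat_lit 254209), .negSucc (nat_lit 2808), .ofNat (nat_lit 296923)⟩⟩, []⟩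
noncomputable def p049_l132 : Lf2 := ⟨nat_lit 0, nat_lit 10, [nat_lit 0, nat_lit 5, nat_lit 5, nat_lit 20], false, nat_lit 0, nat_lit 160, nat_lit 0, nat_lit 336, ⟨nat_lit 0, nat_lit 1000, nat_lit 0, nat_lit 6, nat_lit 221, nat_lit 1000, nat_lit 54, nat_lit 0, nat_lit 0, nat_lit 0, nat_lit 0, nat_lit 0, nat_lit 0, nat_lit 0, nat_lit 0, nat_lit 5000000, false, false⟩,
 nat_lit 6424, nat_lit 0, nat_lit 0, nat_lit 0, nat_lit 3400, nat_lit 0, nat_lit 581, nat_lit 0, nat_lit 0, nat_lit 0, nat_lit 0, nat_lit 0, nat_lit 0, nat_lit 23639604356129, nat_lit 0, nat_lit 400000, nat_lit 0, nat_lit 0, [(nat_lit 6, [(nat_lit 1, nat_lit 1000)])],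
 ⟨p049_k15, nat_lit 0, nat_lit 0, nat_lit 367, nat_lit 0, nat_lit 279237, [nat_lit 2692266667, nat_lit 3429200000, nat_lit 3039200000], [], [nat_lit 30565601334, nat_lit 28767892134, nat_lit 27254376742, nat_lit 27843558342, nat_lit 25182432742, nat_lit 25764569942, nat_lit 28666925067, nat_lit 27231403942], nat_lit 1271250, nat_lit 1271250, nat_lit 1100001, nat_lit 1785000, nat_lit 0, nat_lit 1100001, [nat_lit 1100000, nat_lit 1442500, nat_lit 1271250], [nat_lit 48, nat_lit 40, nat_lit 40, nat_lit 80, nat_lit 12, nat_lit 401, nat_lit 175, nat_lit 10]⟩, ⟨p049_k15, nat_lit 0, nat_lit 0, nat_lit 367, nat_lit 0, nat_lit 279237, [nat_lit 0, nat_lit 0, nat_lit 0], [], [nat_lit 0, nat_lit 0, nat_lit 0, nat_lit 0, nat_lit 0, nat_lit 0, nat_lit 0, nat_lit 0], nat_lit 1271250, nat_lit 1271250, nat_lit 1271250, nat_lit 1271250, nat_lit 0, nat_lit 2373000, [nat_lit 1100000, nat_lit 1442500, nat_lit 1271250], [nat_lit 48, nat_lit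 40, nat_lit 40, nat_lit 80, nat_lit 12, nat_lit 456, nat_lit 225, nat_lit 12]⟩,
 ⟨nat_lit 5916, nat_lit 6325, ⟨.ofNat (nat_lit 460470), .ofNat (nat_lit 624961), .ofNat (nat_lit 481838), .ofNat (nat_lit 646322), .ofNat (nat_lit 464143), .ofNat (nat_lit 621173), .ofNat (nat_lit 485483), .ofNat (nat_lit 642505)⟩, ⟨.negSucc (nat_lit 82265), .ofNat (nat_lit 246791), .negSucc (nat_lit 39529), .ofNat (nat_lit 289527), .negSucc (nat_lit 63383), .ofNat (nat_lit 250751), .negSucc (nat_lit 20704), .ofNat (nat_lit 293429)⟩⟩, []⟩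
noncomputable def p049_l133 : Lf2 := ⟨nat_lit 0, nat_lit 10, [nat_lit 0, nat_lit 5, nat_lit 5, nat_lit 20], false, nat_lit 0, nat_lit 160, nat_lit 0, nat_lit 336, ⟨nat_lit 18, nat_lit 982, nat_lit 0, nat_lit 6, nat_lit 226, nat_lit 982, nat_lit 55, nat_lit 0, nat_lit 0, nat_lit 0, nat_lit 0, nat_lit 0, nat_lit 0, nat_lit 0, nat_lit 0, nat_lit 5000000, false, false⟩,
 nat_lit 284, nat_lit 5595, nat_lit 0, nat_lit 0, nat_lit 3422, nat_lit 150, nat_lit 691, nat_lit 0, nat_lit 0, nat_lit 33, nat_lit 0, nat_lit 0, nat_lit 0, nat_lit 21232503023342, nat_lit 0, nat_lit 392800, nat_lit 0, nat_lit 0, [(nat_lit 9, [(nat_lit 1, nat_lit 982)])],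
 ⟨p049_k8, nat_lit 0, nat_lit 0, nat_lit 378, nat_lit 0, nat_lit 472390, [nat_lit 2738455040, nat_lit 3027468801, nat_lit 3117598399], [], [nat_lit 28882161124, nat_lit 27072819688, nat_lit 25475531562, nat_lit 26125891134, nat_lit 23411239974, nat_lit 24051870510, nat_lit 26089425922, nat_lit 25615952388], nat_lit 1271250, nat_lit 1271250, nat_lit 1100001, nat_lit 1785000, nat_lit 0, nat_lit 1100001, [nat_lit 1100000, nat_lit 1442500, nat_lit 1271250], [nat_lit 11, nat_lit 40, nat_lit 40, nat_lit 80, nat_lit 1, nat_lit 401, nat_lit 175, nat_lit 11]⟩, ⟨p049_k15, nat_lit 0, nat_lit 0, nat_lit 515, nat_lit 0, nat_lit 531831, [nat_lit 84384000, nat_lit 112500000, nat_lit 213696000], [], [nat_lit 757344216, nat_lit 598722816, nat_lit 493206951, nat_lit 517431495, nat_lit 711986376, nat_lit 573241416, nat_lit 472878404, nat_lit 489077501], nat_lit 1271250, nat_lit 1271250, nat_lit 1271250, nat_lit 1271250, nat_lit 0, nat_lit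 2373000, [nat_lit 1100000, nat_lit 1442500, nat_lit 1271250], [nat_lit 48, nat_lit 40, nat_lit 40, nat_lit 80, nat_lit 12, nat_lit 456, nat_lit 225, nat_lit 12]⟩,
 ⟨nat_lit 5477, nat_lit 5917, ⟨.ofNat (nat_lit 464143), .ofNat (nat_lit 621176), .ofNat (nat_lit 506809), .ofNat (nat_lit 663838), .ofNat (nat_lit 467780), .ofNat (nat_lit 617611), .ofNat (nat_lit 510480), .ofNat (nat_lit 660309)⟩, ⟨.negSucc (nat_lit 63383), .ofNat (nat_lit 250751), .negSucc (nat_lit 20704), .ofNat (nat_lit 293429), .negSucc (nat_lit 45522), .ofNat (nat_lit 254209), .negSucc (nat_lit 2808), .ofNat (nat_lit 296923)⟩⟩, [⟨nat_lit 7, nat_lit 92, nat_lit 100, nat_lit 75, nat_lit 3567568⟩]⟩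
noncomputable def p049_l134 : Lf2 := ⟨nat_lit 0, nat_lit 6, [nat_lit 47, nat_lit 5, nat_lit 5, nat_lit 20], false, nat_lit 160, nat_lit 336, nat_lit 0, nat_lit 336, ⟨nat_lit 0, nat_lit 1000, nat_lit 0, nat_lit 6, nat_lit 163, nat_lit 1000, nat_lit 179, nat_lit 0, nat_lit 0, nat_lit 0, nat_lit 0, nat_lit 0, nat_lit 0, nat_lit 0, nat_lit 0, nat_lit 5000000, false, false⟩,
 nat_lit 10161, nat_lit 0, nat_lit 0, nat_lit 0, nat_lit 5379, nat_lit 0, nat_lit 806, nat_lit 0, nat_lit 0, nat_lit 0, nat_lit 0, nat_lit 0, nat_lit 0, nat_lit 36733911605637, nat_lit 0, nat_lit 400000, nat_lit 0, nat_lit 0, [(nat_lit 6, [(nat_lit 1, nat_lit 1000)])],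
 ⟨p049_k42, nat_lit 0, nat_lit 0, nat_lit 298, nat_lit 0, nat_lit 265448, [nat_lit 2692266667, nat_lit 3151066667, nat_lit 3294533333], [], [nat_lit 31306015333, nat_lit 28479060367, nat_lit 29335645662, nat_lit 26766161910, nat_lit 25357203404, nat_lit 26006920679, nat_lit 24840100579, nat_lit 25317117604], nat_lit 1271250, nat_lit 1271250, nat_lit 88400, nat_lit 1704000, nat_lit 1271250, nat_lit 1271250, [nat_lit 1100000, nat_lit 1442500, nat_lit 1271250], [nat_lit 11, nat_lit 40, nat_lit 40, nat_lit 80, nat_lit 1, nat_lit 456, nat_lit 225, nat_lit 13]⟩, ⟨p049_k42, nat_lit 0, nat_lit 0, nat_lit 423, nat_lit 0, nat_lit 265448, [nat_lit 0, nat_lit 0, nat_lit 0], [], [nat_lit 0, nat_lit 0, nat_lit 0, nat_lit 0, nat_lit 0, nat_lit 0, nat_lit 0, nat_lit 0], nat_lit 1271250, nat_lit 1271250, nat_lit 88400, nat_lit 1704000, nat_lit 0, nat_lit 2373000, [nat_lit 1100000, nat_lit 1442500, nat_lit 1271250], [nat_lit 11, nat_lit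 40, nat_lit 40, nat_lit 80, nat_lit 1, nat_lit 456, nat_lit 225, nat_lit 14]⟩,
 ⟨nat_lit 5916, nat_lit 6325, ⟨.ofNat (nat_lit 164319), .ofNat (nat_lit 624961), .ofNat (nat_lit 185687), .ofNat (nat_lit 646322), .ofNat (nat_lit 181423), .ofNat (nat_lit 621173), .ofNat (nat_lit 202762), .ofNat (nat_lit 642505)⟩, ⟨.ofNat (nat_lit 246791), .ofNat (nat_lit 608730), .ofNat (nat_lit 289527), .ofNat (nat_lit 651452), .ofNat (nat_lit 250751), .ofNat (nat_lit 596275), .ofNat (nat_lit 293429), .ofNat (nat_lit 638940)⟩⟩, [⟨nat_lit 0, nat_lit 100, nat_lit 100, nat_lit 60, nat_lit 6721811⟩, ⟨nat_lit 4, nat_lit 88, nat_lit 100, nat_lit 74, nat_lit 7005821⟩]⟩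
noncomputable def p049_l135 : Lf2 := ⟨nat_lit 1, nat_lit 10, [nat_lit 0, nat_lit 5, nat_lit 5, nat_lit 20], false, nat_lit 160, nat_lit 336, nat_lit 0, nat_lit 336, zbN0,
 nat_lit 0, nat_lit 0, nat_lit 0, nat_lit 0, nat_lit 0, nat_lit 0, nat_lit 0, nat_lit 0, nat_lit 0, nat_lit 0, nat_lit 0, nat_lit 0, nat_lit 0, nat_lit 0, nat_lit 0, nat_lit 0, nat_lit 0, nat_lit 0, [],
 C1.Rw.none, C1.Rw.none,
 zbF0, []⟩
noncomputable def p049_l136 : Lf2 := ⟨nat_lit 0, nat_lit 10, [nat_lit 0, nat_lit 5, nat_lit 5, nat_lit 20], false, nat_lit 160, nat_lit 320, nat_lit 0, nat_lit 336, ⟨nat_lit 0, nat_lit 1000, nat_lit 0, nat_lit 6, nat_lit 171, nat_lit 1000, nat_lit 171, nat_lit 0, nat_lit 0, nat_lit 0, nat_lit 0, nat_lit 0, nat_lit 0, nat_lit 0, nat_lit 0, nat_lit 5000000, false, false⟩,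
 nat_lit 0, nat_lit 8929, nat_lit 0, nat_lit 0, nat_lit 5197, nat_lit 0, nat_lit 686, nat_lit 0, nat_lit 0, nat_lit 0, nat_lit 0, nat_lit 0, nat_lit 0, nat_lit 27470723426648, nat_lit 2, nat_lit 1000000, nat_lit 0, nat_lit 0, [(nat_lit 9, [(nat_lit 2, nat_lit 1000)])],
 ⟨p049_k8, nat_lit 0, nat_lit 0, nat_lit 318, nat_lit 0, nat_lit 359704, [nat_lit 2695466667, nat_lit 2706533334, nat_lit 383866666], [], [nat_lit 27225889637, nat_lit 25864374380, nat_lit 25942218619, nat_lit 24700946351, nat_lit 23055296198, nat_lit 23488016670, nat_lit 23293922255, nat_lit 23586498514], nat_lit 1271250, nat_lit 1271250, nat_lit 134400, nat_lit 1708500, nat_lit 1271250, nat_lit 1271250, [nat_lit 1100000, nat_lit 1442500, nat_lit 1271250], [nat_lit 11, nat_lit 40, nat_lit 40, nat_lit 80, nat_lit 1, nat_lit 456, nat_lit 225, nat_lit 13]⟩, ⟨p049_k15, nat_lit 0, nat_lit 0, nat_lit 543, nat_lit 0, nat_lit 404966, [nat_lit 0, nat_lit 0, nat_lit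 0], [], [nat_lit 0, nat_lit 0, nat_lit 0, nat_lit 0, nat_lit 0, nat_lit 0, nat_lit 0, nat_lit 0], nat_lit 1271250, nat_lit 1271250, nat_lit 134400, nat_lit 1708500, nat_lit 0, nat_lit 2373000, [nat_lit 1100000, nat_lit 1442500, nat_lit 1271250], [nat_lit 48, nat_lit 40, nat_lit 40, nat_lit 80, nat_lit 12, nat_lit 456, nat_lit 225, nat_lit 12]⟩,
 ⟨nat_lit 5700, nat_lit 5917, ⟨.ofNat (nat_lit 197129), .ofNat (nat_lit 621202), .ofNat (nat_lit 229138), .ofNat (nat_lit 653208), .ofNat (nat_lit 205119), .ofNat (nat_lit 619393), .ofNat (nat_lit 237132), .ofNat (nat_lit 651403)⟩, ⟨.ofNat (nat_lit 250751), .ofNat (nat_lit 564885), .ofNat (nat_lit 293429), .ofNat (nat_lit 607561), .ofNat (nat_lit 252544), .ofNat (nat_lit 559420), .ofNat (nat_lit 295228), .ofNat (nat_lit 602101)⟩⟩, [⟨nat_lit 4, nat_lit 95, nat_lit 100, nat_lit 76, nat_lit 27772301⟩]⟩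
noncomputable def p049_l137 : Lf2 := ⟨nat_lit 0, nat_lit 10, [nat_lit 0, nat_lit 5, nat_lit 5, nat_lit 20], false, nat_lit 160, nat_lit 308, nat_lit 0, nat_lit 336, ⟨nat_lit 0, nat_lit 1000, nat_lit 0, nat_lit 6, nat_lit 176, nat_lit 1000, nat_lit 166, nat_lit 0, nat_lit 0, nat_lit 0, nat_lit 0, nat_lit 0, nat_lit 0, nat_lit 0, nat_lit 0, nat_lit 5000000, false, false⟩,
 nat_lit 0, nat_lit 8359, nat_lit 0, nat_lit 0, nat_lit 5090, nat_lit 0, nat_lit 621, nat_lit 0, nat_lit 0, nat_lit 0, nat_lit 0, nat_lit 0, nat_lit 0, nat_lit 28370941041303, nat_lit 2, nat_lit 1000000, nat_lit 0, nat_lit 0, [(nat_lit 9, [(nat_lit 2, nat_lit 1000)])],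
 ⟨p049_k11, nat_lit 0, nat_lit 0, nat_lit 343, nat_lit 0, nat_lit 446719, [nat_lit 2695466667, nat_lit 2706533334, nat_lit 383866666], [], [nat_lit 25321131536, nat_lit 23989674066, nat_lit 24658969626, nat_lit 23443253666, nat_lit 22659073566, nat_lit 23076392278, nat_lit 23447681836, nat_lit 23749498152], nat_lit 1271250, nat_lit 1271250, nat_lit 157850, nat_lit 1710750, nat_lit 1271250, nat_lit 1271250, [nat_lit 1100000, nat_lit 1442500, nat_lit 1271250], [nat_lit 11, nat_lit 40, nat_lit 40, nat_lit 80, nat_lit 1, nat_lit 456, nat_lit 225, nat_lit 13]⟩, ⟨p049_k15, nat_lit 0, nat_lit 0, nat_lit 585, nat_lit 0, nat_lit 531831, [nat_lit 0, nat_lit 0, nat_lit 0], [], [nat_lit 0, nat_lit 0, nat_lit 0, nat_lit 0, nat_lit 0, nat_lit 0, nat_lit 0, nat_lit 0], nat_lit 1271250, nat_lit 1271250, nat_lit 157850, nat_lit 1710750, nat_lit 0, nat_lit 2373000, [nat_lit 1100000, nat_lit 1442500, nat_lit 1271250], [nat_lit 48, nat_lit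 40, nat_lit 40, nat_lit 80, nat_lit 12, nat_lit 456, nat_lit 225, nat_lit 12]⟩,
 ⟨nat_lit 5477, nat_lit 5701, ⟨.ofNat (nat_lit 212791), .ofNat (nat_lit 619394), .ofNat (nat_lit 255475), .ofNat (nat_lit 662074), .ofNat (nat_lit 220501), .ofNat (nat_lit 617638), .ofNat (nat_lit 263215), .ofNat (nat_lit 660348)⟩, ⟨.ofNat (nat_lit 252544), .ofNat (nat_lit 536404), .ofNat (nat_lit 295228), .ofNat (nat_lit 579088), .ofNat (nat_lit 254209), .ofNat (nat_lit 531461), .ofNat (nat_lit 296923), .ofNat (nat_lit 574176)⟩⟩, [⟨nat_lit 16, nat_lit 100, nat_lit 99, nat_lit 77, nat_lit 117754981⟩]⟩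
noncomputable def p049_l138 : Lf2 := ⟨nat_lit 0, nat_lit 10, [nat_lit 0, nat_lit 5, nat_lit 5, nat_lit 20], false, nat_lit 0, nat_lit 336, nat_lit 0, nat_lit 336, ⟨nat_lit 1000, nat_lit 0, nat_lit 0, nat_lit 0, nat_lit 0, nat_lit 0, nat_lit 0, nat_lit 0, nat_lit 0, nat_lit 0, nat_lit 0, nat_lit 0, nat_lit 0, nat_lit 0, nat_lit 0, nat_lit 0, false, false⟩,
 nat_lit 14701, nat_lit 0, nat_lit 0, nat_lit 4576, nat_lit 7782, nat_lit 7782, nat_lit 1551, nat_lit 0, nat_lit 0, nat_lit 1551, nat_lit 0, nat_lit 0, nat_lit 0, nat_lit 0, nat_lit 0, nat_lit 0, nat_lit 0, nat_lit 0, [],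
 ⟨p049_k15, nat_lit 0, nat_lit 0, nat_lit 377, nat_lit 0, nat_lit 279237, [nat_lit 4688000000, nat_lit 6250000000, nat_lit 11872000000], [], [nat_lit 28290616089, nat_lit 29169536105, nat_lit 38791200977, nat_lit 39342583201, nat_lit 27809786709, nat_lit 28207263792, nat_lit 35341030645, nat_lit 35846244826], nat_lit 1271250, nat_lit 1271250, nat_lit 1271250, nat_lit 1271250, nat_lit 0, nat_lit 2373000, [nat_lit 1100000, nat_lit 1442500, nat_lit 1271250], [nat_lit 48, nat_lit 40, nat_lit 40, nat_lit 80, nat_lit 12, nat_lit 483, nat_lit 250, nat_lit 12]⟩, ⟨p049_k15, nat_lit 0, nat_lit 0, nat_lit 377, nat_lit 0, nat_lit 279237, [nat_lit 4688000000, nat_lit 6250000000, nat_lit 11872000000], [], [nat_lit 28290616089, nat_lit 29169536105, nat_lit 38791200977, nat_lit 39342583201, nat_lit 27809786709, nat_lit 28207263792, nat_lit 35341030645, nat_lit 35846244826], nat_lit 1271250, nat_lit 1271250, nat_lit 1271250, nat_lit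 1271250, nat_lit 0, nat_lit 2373000, [nat_lit 1100000, nat_lit 1442500, nat_lit 1271250], [nat_lit 48, nat_lit 40, nat_lit 40, nat_lit 80, nat_lit 12, nat_lit 483, nat_lit 250, nat_lit 12]⟩,
 zbF0, [⟨nat_lit 16, nat_lit 100, nat_lit 88, nat_lit 74, nat_lit 185654114⟩, ⟨nat_lit 19, nat_lit 100, nat_lit 88, nat_lit 74, nat_lit 185654114⟩]⟩
noncomputable def p049_l139 : Lf2 := ⟨nat_lit 0, nat_lit 10, [nat_lit 0, nat_lit 5, nat_lit 5, nat_lit 20], false, nat_lit 0, nat_lit 320, nat_lit 0, nat_lit 336, ⟨nat_lit 959, nat_lit 41, nat_lit 0, nat_lit 6, nat_lit 318, nat_lit 41, nat_lit 116, nat_lit 0, nat_lit 0, nat_lit 0, nat_lit 0, nat_lit 0, nat_lit 0, nat_lit 0, nat_lit 0, nat_lit 5000000, true, true⟩,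
 nat_lit 13466, nat_lit 0, nat_lit 0, nat_lit 0, nat_lit 7364, nat_lit 7128, nat_lit 1186, nat_lit 0, nat_lit 0, nat_lit 1494, nat_lit 0, nat_lit 0, nat_lit 0, nat_lit 9275121865661, nat_lit 0, nat_lit 41000, nat_lit 0, nat_lit 0, [(nat_lit 9, [(nat_lit 2, nat_lit 41)])],
 ⟨p049_k8, nat_lit 0, nat_lit 0, nat_lit 424, nat_lit 0, nat_lit 472390, [nat_lit 4604994134, nat_lit 6103077867, nat_lit 9436526400], [], [nat_lit 27919953966, nat_lit 28530975270, nat_lit 38270450256, nat_lit 39287672224, nat_lit 26427446510, nat_lit 26750663744, nat_lit 34433197552, nat_lit 34981389600], nat_lit 1271250, nat_lit 1271250, nat_lit 1271250, nat_lit 1271250, nat_lit 0, nat_lit 2260000, [nat_lit 1100000, nat_lit 1442500, nat_lit 1271250], [nat_lit 11, nat_lit 40, nat_lit 40, nat_lit 80, nat_lit 1, nat_lit 483, nat_lit 250, nat_lit 14]⟩, ⟨p049_k15, nat_lit 0, nat_lit 0, nat_lit 500, nat_lit 0, nat_lit 531831, [nat_lit 4495792000, nat_lit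 5993750000, nat_lit 11385248000], [], [nat_lit 29517652382, nat_lit 30531927114, nat_lit 36797025058, nat_lit 37849463670, nat_lit 28201263779, nat_lit 28741535521, nat_lit 33496745719, nat_lit 34463955001], nat_lit 1271250, nat_lit 1271250, nat_lit 1271250, nat_lit 1271250, nat_lit 0, nat_lit 2373000, [nat_lit 1100000, nat_lit 1442500, nat_lit 1271250], [nat_lit 48, nat_lit 40, nat_lit 40, nat_lit 80, nat_lit 12, nat_lit 538, nat_lit 300, nat_lit 13]⟩,
 ⟨nat_lit 5477, nat_lit 5917, ⟨.ofNat (nat_lit 621176), .ofNat (nat_lit 935234), .ofNat (nat_lit 663838), .ofNat (nat_lit 977896), .ofNat (nat_lit 617611), .ofNat (nat_lit 917267), .ofNat (nat_lit 660309), .ofNat (nat_lit 959965)⟩, ⟨.negSucc (nat_lit 63383), .ofNat (nat_lit 564885), .negSucc (nat_lit 20704), .ofNat (nat_lit 607556), .negSucc (nat_lit 45522), .ofNat (nat_lit 553941), .negSucc (nat_lit 2808), .ofNat (nat_lit 596648)⟩⟩, [⟨nat_lit 16, nat_lit 100, nat_lit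 97, nat_lit 76, nat_lit 148908754⟩, ⟨nat_lit 7, nat_lit 92, nat_lit 100, nat_lit 75, nat_lit 175003655⟩]⟩
noncomputable def b_V_600_600_10_78 : St := ⟨true, nat_lit 1, nat_lit 1, nat_lit 2, nat_lit 80, nat_lit 240, nat_lit 280, nat_lit 240, nat_lit 280, nat_lit 16, nat_lit 400, nat_lit 40, nat_lit 80, nat_lit 0, nat_lit 336, nat_lit 0, nat_lit 336, nat_lit 0, nat_lit 40, nat_lit 0, nat_lit 0, nat_lit 0, nat_lit 0⟩
theorem d_V_600_600_10_78 (h : EB TB.env) : Dead b_V_600_600_10_78 := chkB_sound0 h (T :=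
(.spl (nat_lit 2) (nat_lit 240)
(.spl (nat_lit 4) (nat_lit 160)
(.spl (nat_lit 2) (nat_lit 160)
(.spl (nat_lit 0) (nat_lit 260)
(.ord (.spl (nat_lit 6) (nat_lit 24)
(.spl (nat_lit 2) (nat_lit 120)
(.leaf p049_l127)
(.leaf p049_l128))
(.leaf p049_l129)))
(.trZ (nat_lit 0) (nat_lit 100) (nat_lit 97) (nat_lit 49) (nat_lit 24) (.spl (nat_lit 2) (nat_lit 120)
(.leaf p049_l130)
(.leaf p049_l131))))
(.spl (nat_lit 0) (nat_lit 260)
(.ord (.leaf p049_l132))
(.leaf p049_l133)))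
(.spl (nat_lit 0) (nat_lit 260)
(.ord (.spl (nat_lit 6) (nat_lit 24)
(.leaf p049_l134)
(.leaf p049_l135)))
(.trZ (nat_lit 0) (nat_lit 100) (nat_lit 97) (nat_lit 49) (nat_lit 24) (.trX (nat_lit 16) (nat_lit 100) (nat_lit 85) (nat_lit 84) (nat_lit 320) (.spl (nat_lit 0) (nat_lit 270)
(.ord (.leaf p049_l136))
(.trZ (nat_lit 0) (nat_lit 100) (nat_lit 96) (nat_lit 54) (nat_lit 28) (.trX (nat_lit 16) (nat_lit 100) (nat_lit 90) (nat_lit 85) (nat_lit 308) (.leaf p049_l137))))))))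
(.spl (nat_lit 0) (nat_lit 260)
(.ord (.leaf p049_l138))
(.trX (nat_lit 16) (nat_lit 100) (nat_lit 85) (nat_lit 84) (nat_lit 320) (.leaf p049_l139))))) (by decide +kernel)

end B2
end Pool.Agent.Lib.MP_6947cd_al
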