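import Pool.Agent.Lib.MP_6947cd_al.ZB.Pre

/-!
Problem MP_6947cd_al (Chollet).  Case B, second entry in [2/5, 17/20]: certificates of the tree, part P050 (generated).
-/

set_option autoImplicit false
set_option linter.all false

namespace Pool.Agent.Lib.MP_6947cd_al
namespace B2

open Ent Fr B1 PkA

noncomputable def p050_k0 : C1.Kn := ⟨[nat_lit 80, nat_lit 120, nat_lit 160], [nat_lit 0, nat_lit 528, nat_lit 2577], [(nat_lit 0, nat_lit 0, nat_lit 0), (nat_lit 1000, nat_lit 959, nat_lit 206), (nat_lit 929, nat_lit 1000, nat_lit 742)], (nat_lit 100, nat_lit 92, nat_lit 75)⟩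
noncomputable def p050_k1 : C1.Kn := ⟨[nat_lit 80, nat_lit 120, nat_lit 160], [nat_lit 0, nat_lit 796, nat_lit 2802], [(nat_lit 0, nat_lit 0, nat_lit 0), (nat_lit 1000, nat_lit 938, nat_lit 310), (nat_lit 969, nat_lit 1000, nat_lit 759)], (nat_lit 100, nat_lit 97, nat_lit 76)⟩
noncomputable def p050_k2 : C1.Kn := ⟨[nat_lit 80, nat_lit 100, nat_lit 160], [nat_lit 0, nat_lit 265, nat_lit 1771], [(nat_lit 0, nat_lit 0, nat_lit 0), (nat_lit 1000, nat_lit 959, nat_lit 206), (nat_lit 1000, nat_lit 958, nat_lit 392)], (nat_lit 100, nat_lit 92, nat_lit 75)⟩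
noncomputable def p050_k3 : C1.Kn := ⟨[nat_lit 80, nat_lit 100, nat_lit 140], [nat_lit 0, nat_lit 265, nat_lit 1269], [(nat_lit 0, nat_lit 0, nat_lit 0), (nat_lit 1000, nat_lit 959, nat_lit 206), (nat_lit 1000, nat_lit 958, nat_lit 392)], (nat_lit 100, nat_lit 96, nat_lit 68)⟩
noncomputable def p050_k4 : C1.Kn := ⟨[nat_lit 80, nat_lit 100, nat_lit 160], [nat_lit 0, nat_lit 399, nat_lit 1893], [(nat_lit 0, nat_lit 0, nat_lit 0), (nat_lit 1000, nat_lit 938, nat_lit 310), (nat_lit 1000, nat_lit 938, nat_lit 389)], (nat_lit 100, nat_lit 97, nat_lit 76)⟩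
noncomputable def p050_k5 : C1.Kn := ⟨[nat_lit 80, nat_lit 120, nat_lit 160], [nat_lit 0, nat_lit 0, nat_lit 2132], [(nat_lit 0, nat_lit 0, nat_lit 0), (nat_lit 0, nat_lit 0, nat_lit 0), (nat_lit 858, nat_lit 1000, nat_lit 713)], (nat_lit 100, nat_lit 85, nat_lit 73)⟩
noncomputable def p050_k6 : C1.Kn := ⟨[nat_lit 80, nat_lit 100, nat_lit 140], [nat_lit 0, nat_lit 399, nat_lit 1395], [(nat_lit 0, nat_lit 0, nat_lit 0), (nat_lit 1000, nat_lit 938, nat_lit 310), (nat_lit 1000, nat_lit 938, nat_lit 389)], (nat_lit 100, nat_lit 100, nat_lit 69)⟩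
noncomputable def p050_k7 : C1.Kn := ⟨[nat_lit 80, nat_lit 120, nat_lit 140], [nat_lit 0, nat_lit 929, nat_lit 1922], [(nat_lit 0, nat_lit 0, nat_lit 0), (nat_lit 1000, nat_lit 927, nat_lit 362), (nat_lit 993, nat_lit 1000, nat_lit 764)], (nat_lit 100, nat_lit 99, nat_lit 77)⟩
noncomputable def p050_k8 : C1.Kn := ⟨[nat_lit 80, nat_lit 140], [nat_lit 0, nat_lit 1192], [(nat_lit 0, nat_lit 0, nat_lit 0), (nat_lit 1000, nat_lit 938, nat_lit 310)], (nat_lit 100, nat_lit 100, nat_lit 69)⟩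
noncomputable def p050_k9 : C1.Kn := ⟨[nat_lit 80, nat_lit 120, nat_lit 140], [nat_lit 0, nat_lit 929, nat_lit 1922], [(nat_lit 0, nat_lit 0, nat_lit 0), (nat_lit 1000, nat_lit 927, nat_lit 362), (nat_lit 993, nat_lit 1000, nat_lit 764)], (nat_lit 98, nat_lit 100, nat_lit 69)⟩
noncomputable def p050_k10 : C1.Kn := ⟨[nat_lit 80, nat_lit 120, nat_lit 140], [nat_lit 0, nat_lit 528, nat_lit 1572], [(nat_lit 0, nat_lit 0, nat_lit 0), (nat_lit 1000, nat_lit 959, nat_lit 206), (nat_lit 966, nat_lit 1000, nat_lit 679)], (nat_lit 100, nat_lit 96, nat_lit 68)⟩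
noncomputable def p050_k11 : C1.Kn := ⟨[nat_lit 80, nat_lit 120, nat_lit 140], [nat_lit 0, nat_lit 1008, nat_lit 1995], [(nat_lit 0, nat_lit 0, nat_lit 0), (nat_lit 1000, nat_lit 921, nat_lit 392), (nat_lit 1000, nat_lit 995, nat_lit 766)], (nat_lit 100, nat_lit 100, nat_lit 77)⟩
noncomputable def p050_k12 : C1.Kn := ⟨[nat_lit 80, nat_lit 100, nat_lit 140], [nat_lit 0, nat_lit 399, nat_lit 1395], [(nat_lit 0, nat_lit 0, nat_lit 0), (nat_lit 1000, nat_lit 938, nat_lit 310), (nat_lit 1000, nat_lit 938, nat_lit 389)], (nat_lit 100, nat_lit 98, nat_lit 74)⟩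
noncomputable def p050_k13 : C1.Kn := ⟨[nat_lit 80, nat_lit 100, nat_lit 160], [nat_lit 0, nat_lit 0, nat_lit 1533], [(nat_lit 0, nat_lit 0, nat_lit 0), (nat_lit 0, nat_lit 0, nat_lit 0), (nat_lit 1000, nat_lit 1000, nat_lit 399)], (nat_lit 100, nat_lit 85, nat_lit 73)⟩
noncomputable def p050_k14 : C1.Kn := ⟨[nat_lit 80, nat_lit 100, nat_lit 140], [nat_lit 0, nat_lit 466, nat_lit 1467], [(nat_lit 0, nat_lit 0, nat_lit 0), (nat_lit 1000, nat_lit 927, nat_lit 359), (nat_lit 1000, nat_lit 927, nat_lit 391)], (nat_lit 98, nat_lit 100, nat_lit 69)⟩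
noncomputable def p050_k15 : C1.Kn := ⟨[nat_lit 80, nat_lit 140], [nat_lit 0, nat_lit 0], [(nat_lit 0, nat_lit 0, nat_lit 0), (nat_lit 0, nat_lit 0, nat_lit 0)], (nat_lit 100, nat_lit 98, nat_lit 48)⟩
noncomputable def p050_k16 : C1.Kn := ⟨[nat_lit 80, nat_lit 100, nat_lit 120], [nat_lit 0, nat_lit 265, nat_lit 768], [(nat_lit 0, nat_lit 0, nat_lit 0), (nat_lit 1000, nat_lit 959, nat_lit 206), (nat_lit 1000, nat_lit 958, nat_lit 392)], (nat_lit 97, nat_lit 100, nat_lit 48)⟩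
noncomputable def p050_k17 : C1.Kn := ⟨[nat_lit 80, nat_lit 100, nat_lit 140], [nat_lit 0, nat_lit 0, nat_lit 1022], [(nat_lit 0, nat_lit 0, nat_lit 0), (nat_lit 0, nat_lit 0, nat_lit 0), (nat_lit 1000, nat_lit 1000, nat_lit 399)], (nat_lit 100, nat_lit 98, nat_lit 48)⟩
noncomputable def p050_k18 : C1.Kn := ⟨[nat_lit 80, nat_lit 100, nat_lit 120], [nat_lit 0, nat_lit 0, nat_lit 511], [(nat_lit 0, nat_lit 0, nat_lit 0), (nat_lit 0, nat_lit 0, nat_lit 0), (nat_lit 1000, nat_lit 997, nat_lit 383)], (nat_lit 99, nat_lit 100, nat_lit 34)⟩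
noncomputable def p050_k19 : C1.Kn := ⟨[nat_lit 80, nat_lit 100, nat_lit 120], [nat_lit 0, nat_lit 265, nat_lit 768], [(nat_lit 0, nat_lit 0, nat_lit 0), (nat_lit 1000, nat_lit 959, nat_lit 206), (nat_lit 1000, nat_lit 958, nat_lit 392)], (nat_lit 95, nat_lit 100, nat_lit 34)⟩
noncomputable def p050_k20 : C1.Kn := ⟨[nat_lit 80, nat_lit 100, nat_lit 120], [nat_lit 0, nat_lit 399, nat_lit 897], [(nat_lit 0, nat_lit 0, nat_lit 0), (nat_lit 1000, nat_lit 938, nat_lit 310), (nat_lit 1000, nat_lit 938, nat_lit 389)], (nat_lit 95, nat_lit 100, nat_lit 48)⟩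
noncomputable def p050_k21 : C1.Kn := ⟨[nat_lit 80, nat_lit 100], [nat_lit 0, nat_lit 132], [(nat_lit 0, nat_lit 0, nat_lit 0), (nat_lit 1000, nat_lit 979, nat_lit 103)], (nat_lit 97, nat_lit 100, nat_lit 20)⟩
noncomputable def p050_k22 : C1.Kn := ⟨[nat_lit 80, nat_lit 100], [nat_lit 0, nat_lit 399], [(nat_lit 0, nat_lit 0, nat_lit 0), (nat_lit 1000, nat_lit 938, nat_lit 310)], (nat_lit 94, nat_lit 100, nat_lit 34)⟩
noncomputable def p050_k23 : C1.Kn := ⟨[nat_lit 80, nat_lit 100, nat_lit 120], [nat_lit 0, nat_lit 132, nat_lit 640], [(nat_lit 0, nat_lit 0, nat_lit 0), (nat_lit 1000, nat_lit 979, nat_lit 103), (nat_lit 1000, nat_lit 979, nat_lit 397)], (nat_lit 97, nat_lit 100, nat_lit 34)⟩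
noncomputable def p050_k24 : C1.Kn := ⟨[nat_lit 80, nat_lit 120], [nat_lit 0, nat_lit 264], [(nat_lit 0, nat_lit 0, nat_lit 0), (nat_lit 1000, nat_lit 979, nat_lit 103)], (nat_lit 97, nat_lit 100, nat_lit 34)⟩
noncomputable def p050_k25 : C1.Kn := ⟨[nat_lit 80, nat_lit 100, nat_lit 120], [nat_lit 0, nat_lit 332, nat_lit 833], [(nat_lit 0, nat_lit 0, nat_lit 0), (nat_lit 1000, nat_lit 948, nat_lit 259), (nat_lit 1000, nat_lit 948, nat_lit 391)], (nat_lit 96, nat_lit 100, nat_lit 48)⟩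
noncomputable def p050_k26 : C1.Kn := ⟨[nat_lit 80, nat_lit 120], [nat_lit 0, nat_lit 528], [(nat_lit 0, nat_lit 0, nat_lit 0), (nat_lit 1000, nat_lit 959, nat_lit 206)], (nat_lit 97, nat_lit 100, nat_lit 48)⟩
noncomputable def p050_k27 : C1.Kn := ⟨[nat_lit 80, nat_lit 100, nat_lit 120], [nat_lit 0, nat_lit 265, nat_lit 768], [(nat_lit 0, nat_lit 0, nat_lit 0), (nat_lit 1000, nat_lit 959, nat_lit 206), (nat_lit 1000, nat_lit 958, nat_lit 392)], (nat_lit 96, nat_lit 100, nat_lit 39)⟩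
noncomputable def p050_l0 : Lf2 := ⟨nat_lit 1, nat_lit 15, [nat_lit 30, nat_lit 5, nat_lit 5, nat_lit 20], false, nat_lit 0, nat_lit 336, nat_lit 0, nat_lit 336, zbN0,
 nat_lit 0, nat_lit 0, nat_lit 0, nat_lit 0, nat_lit 0, nat_lit 0, nat_lit 0, nat_lit 0, nat_lit 0, nat_lit 0, nat_lit 0, nat_lit 0, nat_lit 0, nat_lit 0, nat_lit 0, nat_lit 0, nat_lit 0, nat_lit 0, [],
 C1.Rw.none, C1.Rw.none,
 zbF0, []⟩
noncomputable def p050_l1 : Lf2 := ⟨nat_lit 0, nat_lit 15, [nat_lit 30, nat_lit 5, nat_lit 5, nat_lit 20], false, nat_lit 0, nat_lit 160, nat_lit 0, nat_lit 160, ⟨nat_lit 1000, nat_lit 0, nat_lit 0, nat_lit 0, nat_lit 0, nat_lit 0, nat_lit 0, nat_lit 0, nat_lit 0, nat_lit 0, nat_lit 0, nat_lit 0, nat_lit 0, nat_lit 0, nat_lit 0, nat_lit 0, false, false⟩,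
 nat_lit 0, nat_lit 0, nat_lit 0, nat_lit 41656, nat_lit 7599, nat_lit 7599, nat_lit 1841, nat_lit 0, nat_lit 0, nat_lit 1841, nat_lit 0, nat_lit 0, nat_lit 0, nat_lit 0, nat_lit 0, nat_lit 0, nat_lit 0, nat_lit 0, [],
 ⟨p050_k0, nat_lit 0, nat_lit 0, nat_lit 340, nat_lit 0, nat_lit 0, [nat_lit 4688000000, nat_lit 7968000001, nat_lit 11872000000], [], [nat_lit 21494906149, nat_lit 23084501794, nat_lit 22735303947, nat_lit 24230517953, nat_lit 16920295980, nat_lit 18401973313, nat_lit 18517683035, nat_lit 19544195257], nat_lit 0, nat_lit 0, nat_lit 0, nat_lit 0, nat_lit 0, nat_lit 0, [], [nat_lit 21, nat_lit 40, nat_lit 40, nat_lit 80, nat_lit 14, nat_lit 401, nat_lit 175, nat_lit 11]⟩, ⟨p050_k0, nat_lit 0, nat_lit 0, nat_lit 340, nat_lit 0, nat_lit 0, [nat_lit 4688000000, nat_lit 7968000000, nat_lit 11872000000], [], [nat_lit 21494906149, nat_lit 23084501794, nat_lit 22735303946, nat_lit 24230517952, nat_lit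 16920295979, nat_lit 18401973312, nat_lit 18517683034, nat_lit 19544195256], nat_lit 0, nat_lit 0, nat_lit 0, nat_lit 0, nat_lit 0, nat_lit 0, [], [nat_lit 21, nat_lit 40, nat_lit 40, nat_lit 80, nat_lit 14, nat_lit 401, nat_lit 175, nat_lit 11]⟩,
 zbF0, [⟨nat_lit 0, nat_lit 100, nat_lit 100, nat_lit 80, nat_lit 521224969⟩]⟩
noncomputable def p050_l2 : Lf2 := ⟨nat_lit 1, nat_lit 15, [nat_lit 30, nat_lit 5, nat_lit 5, nat_lit 20], false, nat_lit 0, nat_lit 160, nat_lit 160, nat_lit 320, zbN0,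
 nat_lit 0, nat_lit 0, nat_lit 0, nat_lit 0, nat_lit 0, nat_lit 0, nat_lit 0, nat_lit 0, nat_lit 0, nat_lit 0, nat_lit 0, nat_lit 0, nat_lit 0, nat_lit 0, nat_lit 0, nat_lit 0, nat_lit 0, nat_lit 0, [],
 C1.Rw.none, C1.Rw.none,
 zbF0, []⟩
noncomputable def p050_l3 : Lf2 := ⟨nat_lit 0, nat_lit 15, [nat_lit 30, nat_lit 5, nat_lit 5, nat_lit 20], false, nat_lit 0, nat_lit 160, nat_lit 160, nat_lit 320, ⟨nat_lit 1000, nat_lit 0, nat_lit 0, nat_lit 0, nat_lit 0, nat_lit 0, nat_lit 0, nat_lit 0, nat_lit 0, nat_lit 0, nat_lit 0, nat_lit 0, nat_lit 0, nat_lit 0, nat_lit 0, nat_lit 0, false, false⟩,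
 nat_lit 0, nat_lit 0, nat_lit 0, nat_lit 37511, nat_lit 7747, nat_lit 9022, nat_lit 1919, nat_lit 0, nat_lit 0, nat_lit 1352, nat_lit 0, nat_lit 0, nat_lit 0, nat_lit 0, nat_lit 0, nat_lit 0, nat_lit 0, nat_lit 0, [],
 ⟨p050_k1, nat_lit 0, nat_lit 0, nat_lit 335, nat_lit 0, nat_lit 0, [nat_lit 4688000000, nat_lit 7968000001, nat_lit 11872000000], [], [nat_lit 20027911555, nat_lit 20831831441, nat_lit 21734712798, nat_lit 22490636957, nat_lit 15397453608, nat_lit 16145062145, nat_lit 16988547186, nat_lit 17506582069], nat_lit 0, nat_lit 0, nat_lit 0, nat_lit 0, nat_lit 0, nat_lit 0, [], [nat_lit 21, nat_lit 40, nat_lit 40, nat_lit 80, nat_lit 14, nat_lit 401, nat_lit 175, nat_lit 11]⟩, ⟨p050_k0, nat_lit 0, nat_lit 0, nat_lit 175, nat_lit 0, nat_lit 0, [nat_lit 4688000000, nat_lit 7968000000, nat_lit 11872000000], [], [nat_lit 18484474256, nat_lit 19980873912, nat_lit 17885813272, nat_lit 18915568512, nat_lit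 26237047220, nat_lit 27141435768, nat_lit 24350242604, nat_lit 25583341216], nat_lit 0, nat_lit 0, nat_lit 0, nat_lit 0, nat_lit 0, nat_lit 0, [], [nat_lit 21, nat_lit 40, nat_lit 40, nat_lit 80, nat_lit 14, nat_lit 456, nat_lit 225, nat_lit 11]⟩,
 zbF0, [⟨nat_lit 0, nat_lit 100, nat_lit 100, nat_lit 80, nat_lit 560546622⟩, ⟨nat_lit 7, nat_lit 97, nat_lit 100, nat_lit 76, nat_lit 589827363⟩]⟩
noncomputable def p050_l4 : Lf2 := ⟨nat_lit 0, nat_lit 15, [nat_lit 30, nat_lit 5, nat_lit 5, nat_lit 20], true, nat_lit 160, nat_lit 240, nat_lit 0, nat_lit 296, ⟨nat_lit 0, nat_lit 0, nat_lit 1000, nat_lit 6, nat_lit 136, nat_lit 1000, nat_lit 136, nat_lit 1000, nat_lit 173400, nat_lit 317, nat_lit 173400, nat_lit 317, nat_lit 52370831, nat_lit 0, nat_lit 0, nat_lit 3610643, false, false⟩,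
 nat_lit 0, nat_lit 0, nat_lit 0, nat_lit 4296, nat_lit 6781, nat_lit 0, nat_lit 0, nat_lit 0, nat_lit 0, nat_lit 0, nat_lit 0, nat_lit 0, nat_lit 0, nat_lit 3795802271682, nat_lit 57, nat_lit 250000, nat_lit 0, nat_lit 0, [(nat_lit 10, [(nat_lit 4, nat_lit 1000)])],
 ⟨p050_k2, nat_lit 0, nat_lit 0, nat_lit 44, nat_lit 0, nat_lit 0, [nat_lit 4572800000, nat_lit 1067600001, nat_lit 504400000], [], [nat_lit 10753760483, nat_lit 12845938441, nat_lit 9656043380, nat_lit 11487802028, nat_lit 15642196407, nat_lit 17621039159, nat_lit 13837511054, nat_lit 15355579824], nat_lit 0, nat_lit 0, nat_lit 0, nat_lit 0, nat_lit 0, nat_lit 0, [], [nat_lit 48, nat_lit 40, nat_lit 40, nat_lit 80, nat_lit 12, nat_lit 401, nat_lit 175, nat_lit 10]⟩, C1.Rw.none,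
 ⟨nat_lit 5477, nat_lit 5917, ⟨.ofNat (nat_lit 242029), .ofNat (nat_lit 406949), .ofNat (nat_lit 263368), .ofNat (nat_lit 428288), .ofNat (nat_lit 256844), .ofNat (nat_lit 414204), .ofNat (nat_lit 278201), .ofNat (nat_lit 435561)⟩, ⟨.ofNat (nat_lit 250751), .ofNat (nat_lit 407818), .ofNat (nat_lit 272090), .ofNat (nat_lit 429157), .ofNat (nat_lit 254209), .ofNat (nat_lit 404075), .ofNat (nat_lit 275566), .ofNat (nat_lit 425432)⟩⟩, [⟨nat_lit 0, nat_lit 100, nat_lit 100, nat_lit 80, nat_lit 247155981⟩]⟩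
noncomputable def p050_l5 : Lf2 := ⟨nat_lit 0, nat_lit 12, [nat_lit 126, nat_lit 5, nat_lit 5, nat_lit 20], true, nat_lit 240, nat_lit 296, nat_lit 0, nat_lit 296, ⟨nat_lit 0, nat_lit 1000, nat_lit 0, nat_lit 6, nat_lit 134, nat_lit 1000, nat_lit 188, nat_lit 0, nat_lit 0, nat_lit 0, nat_lit 0, nat_lit 0, nat_lit 48126317, nat_lit 6999100, nat_lit 11874583, nat_lit 4174991, false, false⟩,
 nat_lit 0, nat_lit 0, nat_lit 0, nat_lit 14719, nat_lit 6431, nat_lit 0, nat_lit 0, nat_lit 0, nat_lit 0, nat_lit 0, nat_lit 0, nat_lit 0, nat_lit 0, nat_lit 0, nat_lit 0, nat_lit 250000, nat_lit 0, nat_lit 0, [(nat_lit 10, [(nat_lit 0, nat_lit 1000)])],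
 ⟨p050_k3, nat_lit 0, nat_lit 0, nat_lit 78, nat_lit 0, nat_lit 0, [nat_lit 3808000001, nat_lit 3043466667, nat_lit 3665333333], [], [nat_lit 15732209080, nat_lit 17456480919, nat_lit 14429024155, nat_lit 15902233425, nat_lit 20939356807, nat_lit 22528389307, nat_lit 18591916510, nat_lit 20059284192], nat_lit 0, nat_lit 0, nat_lit 0, nat_lit 0, nat_lit 0, nat_lit 0, [], [nat_lit 11, nat_lit 40, nat_lit 40, nat_lit 80, nat_lit 1, nat_lit 401, nat_lit 175, nat_lit 11]⟩, C1.Rw.none,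
 ⟨nat_lit 5477, nat_lit 5917, ⟨.ofNat (nat_lit 242029), .ofNat (nat_lit 406949), .ofNat (nat_lit 252698), .ofNat (nat_lit 417619), .ofNat (nat_lit 256844), .ofNat (nat_lit 414204), .ofNat (nat_lit 267523), .ofNat (nat_lit 424882)⟩, ⟨.ofNat (nat_lit 407818), .ofNat (nat_lit 517765), .ofNat (nat_lit 429157), .ofNat (nat_lit 539104), .ofNat (nat_lit 404075), .ofNat (nat_lit 508982), .ofNat (nat_lit 425432), .ofNat (nat_lit 530339)⟩⟩, [⟨nat_lit 0, nat_lit 100, nat_lit 98, nat_lit 74, nat_lit 204502293⟩, ⟨nat_lit 4, nat_lit 100, nat_lit 100, nat_lit 71, nat_lit 557334409⟩]⟩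
noncomputable def p050_l6 : Lf2 := ⟨nat_lit 1, nat_lit 15, [nat_lit 30, nat_lit 5, nat_lit 5, nat_lit 20], false, nat_lit 240, nat_lit 296, nat_lit 0, nat_lit 296, zbN0,
 nat_lit 0, nat_lit 0, nat_lit 0, nat_lit 0, nat_lit 0, nat_lit 0, nat_lit 0, nat_lit 0, nat_lit 0, nat_lit 0, nat_lit 0, nat_lit 0, nat_lit 0, nat_lit 0, nat_lit 0, nat_lit 0, nat_lit 0, nat_lit 0, [],
 C1.Rw.none, C1.Rw.none,
 zbF0, []⟩
noncomputable def p050_l7 : Lf2 := ⟨nat_lit 0, nat_lit 15, [nat_lit 30, nat_lit 5, nat_lit 5, nat_lit 20], false, nat_lit 240, nat_lit 288, nat_lit 0, nat_lit 288, ⟨nat_lit 1000, nat_lit 0, nat_lit 0, nat_lit 0, nat_lit 0, nat_lit 0, nat_lit 0, nat_lit 0, nat_lit 0, nat_lit 0, nat_lit 0, nat_lit 0, nat_lit 0, nat_lit 0, nat_lit 0, nat_lit 0, false, false⟩,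
 nat_lit 0, nat_lit 0, nat_lit 0, nat_lit 31637, nat_lit 7281, nat_lit 7537, nat_lit 0, nat_lit 0, nat_lit 0, nat_lit 2326, nat_lit 0, nat_lit 0, nat_lit 0, nat_lit 7638479148275, nat_lit 0, nat_lit 0, nat_lit 0, nat_lit 0, [],
 ⟨p050_k4, nat_lit 0, nat_lit 0, nat_lit 64, nat_lit 0, nat_lit 0, [nat_lit 4688000000, nat_lit 6250000000, nat_lit 11872000000], [], [nat_lit 16235622925, nat_lit 17099272057, nat_lit 15021054939, nat_lit 15812131824, nat_lit 20881308555, nat_lit 21754655789, nat_lit 18787640424, nat_lit 19597350512], nat_lit 0, nat_lit 0, nat_lit 0, nat_lit 0, nat_lit 0, nat_lit 0, [], [nat_lit 48, nat_lit 40, nat_lit 40, nat_lit 80, nat_lit 12, nat_lit 401, nat_lit 175, nat_lit 10]⟩, ⟨p050_k4, nat_lit 0, nat_lit 0, nat_lit 328, nat_lit 0, nat_lit 0, [nat_lit 4688000000, nat_lit 6250000000, nat_lit 11872000000], [], [nat_lit 22441800887, nat_lit 23228132318, nat_lit 19971012188, nat_lit 20702169514,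 nat_lit 21471142774, nat_lit 21944007122, nat_lit 19189082048, nat_lit 19659759437], nat_lit 0, nat_lit 0, nat_lit 0, nat_lit 0, nat_lit 0, nat_lit 0, [], [nat_lit 48, nat_lit 40, nat_lit 40, nat_lit 80, nat_lit 12, nat_lit 401, nat_lit 175, nat_lit 11]⟩,
 zbF0, [⟨nat_lit 0, nat_lit 100, nat_lit 100, nat_lit 75, nat_lit 559773399⟩, ⟨nat_lit 0, nat_lit 100, nat_lit 100, nat_lit 80, nat_lit 310076544⟩, ⟨nat_lit 4, nat_lit 100, nat_lit 98, nat_lit 70, nat_lit 1051266763⟩, ⟨nat_lit 19, nat_lit 98, nat_lit 100, nat_lit 70, nat_lit 226527183⟩]⟩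
noncomputable def p050_l8 : Lf2 := ⟨nat_lit 1, nat_lit 15, [nat_lit 30, nat_lit 5, nat_lit 5, nat_lit 20], false, nat_lit 160, nat_lit 320, nat_lit 0, nat_lit 320, zbN0,
 nat_lit 0, nat_lit 0, nat_lit 0, nat_lit 0, nat_lit 0, nat_lit 0, nat_lit 0, nat_lit 0, nat_lit 0, nat_lit 0, nat_lit 0, nat_lit 0, nat_lit 0, nat_lit 0, nat_lit 0, nat_lit 0, nat_lit 0, nat_lit 0, [],
 C1.Rw.none, C1.Rw.none,
 zbF0, []⟩
noncomputable def p050_l9 : Lf2 := ⟨nat_lit 0, nat_lit 15, [nat_lit 30, nat_lit 5, nat_lit 5, nat_lit 20], false, nat_lit 160, nat_lit 320, nat_lit 0, nat_lit 320, ⟨nat_lit 1000, nat_lit 0, nat_lit 0, nat_lit 0, nat_lit 0, nat_lit 0, nat_lit 0, nat_lit 0, nat_lit 0, nat_lit 0, nat_lit 0, nat_lit 0, nat_lit 0, nat_lit 0, nat_lit 0, nat_lit 0, false, false⟩,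
 nat_lit 0, nat_lit 0, nat_lit 0, nat_lit 25045, nat_lit 8531, nat_lit 21578, nat_lit 0, nat_lit 0, nat_lit 0, nat_lit 0, nat_lit 0, nat_lit 0, nat_lit 0, nat_lit 33706087114954, nat_lit 0, nat_lit 0, nat_lit 0, nat_lit 0, [],
 ⟨p050_k2, nat_lit 0, nat_lit 0, nat_lit 42, nat_lit 0, nat_lit 0, [nat_lit 4688000000, nat_lit 6250000000, nat_lit 11872000000], [], [nat_lit 7996958380, nat_lit 10119931028, nat_lit 13698711840, nat_lit 15652747516, nat_lit 21498833756, nat_lit 23068894032, nat_lit 24190430942, nat_lit 25388253168], nat_lit 0, nat_lit 0, nat_lit 0, nat_lit 0, nat_lit 0, nat_lit 0, [], [nat_lit 48, nat_lit 40, nat_lit 40, nat_lit 80, nat_lit 12, nat_lit 456, nat_lit 225, nat_lit 11]⟩, ⟨p050_k2, nat_lit 0, nat_lit 0, nat_lit 202, nat_lit 0, nat_lit 0, [nat_lit 4688000000, nat_lit 6250000000, nat_lit 11872000000], [], [nat_lit 38243575128, nat_lit 41227878016, nat_lit 40308994596, nat_lit 42444191584,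 nat_lit 28100133404, nat_lit 29356356000, nat_lit 28436994596, nat_lit 30572191584], nat_lit 0, nat_lit 0, nat_lit 0, nat_lit 0, nat_lit 0, nat_lit 0, [], [nat_lit 48, nat_lit 40, nat_lit 40, nat_lit 80, nat_lit 12, nat_lit 456, nat_lit 225, nat_lit 12]⟩,
 zbF0, [⟨nat_lit 4, nat_lit 97, nat_lit 100, nat_lit 76, nat_lit 827843658⟩]⟩
noncomputable def p050_l10 : Lf2 := ⟨nat_lit 0, nat_lit 15, [nat_lit 30, nat_lit 5, nat_lit 5, nat_lit 20], false, nat_lit 0, nat_lit 336, nat_lit 0, nat_lit 336, ⟨nat_lit 1000, nat_lit 0, nat_lit 0, nat_lit 0, nat_lit 0, nat_lit 0, nat_lit 0, nat_lit 0, nat_lit 0, nat_lit 0, nat_lit 0, nat_lit 0, nat_lit 0, nat_lit 0, nat_lit 0, nat_lit 0, false, false⟩,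
 nat_lit 0, nat_lit 0, nat_lit 0, nat_lit 25144, nat_lit 7862, nat_lit 7862, nat_lit 1024, nat_lit 0, nat_lit 0, nat_lit 1024, nat_lit 0, nat_lit 0, nat_lit 0, nat_lit 0, nat_lit 0, nat_lit 0, nat_lit 0, nat_lit 0, [],
 ⟨p050_k5, nat_lit 0, nat_lit 0, nat_lit 251, nat_lit 0, nat_lit 0, [nat_lit 4688000000, nat_lit 7968000001, nat_lit 11872000000], [], [nat_lit 27872526232, nat_lit 30172040736, nat_lit 39487951232, nat_lit 40591936800, nat_lit 28200149471, nat_lit 29284880681, nat_lit 35654099133, nat_lit 36446305023], nat_lit 0, nat_lit 0, nat_lit 0, nat_lit 0, nat_lit 0, nat_lit 0, [], [nat_lit 21, nat_lit 40, nat_lit 40, nat_lit 80, nat_lit 14, nat_lit 538, nat_lit 300, nat_lit 13]⟩, ⟨p050_k5, nat_lit 0, nat_lit 0, nat_lit 251, nat_lit 0, nat_lit 0, [nat_lit 4688000000, nat_lit 7968000000, nat_lit 11872000000], [], [nat_lit 27872526232, nat_lit 30172040736, nat_lit 39487951232, nat_lit 40591936800, nat_lit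 28200149471, nat_lit 29284880680, nat_lit 35654099132, nat_lit 36446305023], nat_lit 0, nat_lit 0, nat_lit 0, nat_lit 0, nat_lit 0, nat_lit 0, [], [nat_lit 21, nat_lit 40, nat_lit 40, nat_lit 80, nat_lit 14, nat_lit 538, nat_lit 300, nat_lit 13]⟩,
 zbF0, [⟨nat_lit 4, nat_lit 92, nat_lit 100, nat_lit 75, nat_lit 170280111⟩, ⟨nat_lit 19, nat_lit 100, nat_lit 92, nat_lit 75, nat_lit 175436239⟩]⟩
noncomputable def p050_l11 : Lf2 := ⟨nat_lit 1, nat_lit 15, [nat_lit 30, nat_lit 5, nat_lit 5, nat_lit 20], false, nat_lit 0, nat_lit 336, nat_lit 0, nat_lit 336, zbN0,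
 nat_lit 0, nat_lit 0, nat_lit 0, nat_lit 0, nat_lit 0, nat_lit 0, nat_lit 0, nat_lit 0, nat_lit 0, nat_lit 0, nat_lit 0, nat_lit 0, nat_lit 0, nat_lit 0, nat_lit 0, nat_lit 0, nat_lit 0, nat_lit 0, [],
 C1.Rw.none, C1.Rw.none,
 zbF0, []⟩
noncomputable def p050_l12 : Lf2 := ⟨nat_lit 0, nat_lit 15, [nat_lit 30, nat_lit 5, nat_lit 5, nat_lit 20], true, nat_lit 0, nat_lit 80, nat_lit 0, nat_lit 320, ⟨nat_lit 0, nat_lit 0, nat_lit 1000, nat_lit 6, nat_lit 119, nat_lit 0, nat_lit 24, nat_lit 548, nat_lit 2817, nat_lit 228, nat_lit 132017, nat_lit 304, nat_lit 61569832, nat_lit 0, nat_lit 0, nat_lit 1406595, false, false⟩,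
 nat_lit 0, nat_lit 0, nat_lit 0, nat_lit 11905, nat_lit 3895, nat_lit 0, nat_lit 0, nat_lit 0, nat_lit 0, nat_lit 0, nat_lit 0, nat_lit 0, nat_lit 0, nat_lit 0, nat_lit 234, nat_lit 992800, nat_lit 0, nat_lit 0, [(nat_lit 10, [(nat_lit 5, nat_lit 12), (nat_lit 6, nat_lit 988)])],
 ⟨p050_k2, nat_lit 0, nat_lit 0, nat_lit 337, nat_lit 0, nat_lit 0, [nat_lit 4843814400, nat_lit 4276592801, nat_lit 175660000], [], [nat_lit 13344488170, nat_lit 14489958428, nat_lit 12436314620, nat_lit 13551391520, nat_lit 11189272940, nat_lit 12501042021, nat_lit 10966521191, nat_lit 12268089420], nat_lit 0, nat_lit 0, nat_lit 0, nat_lit 0, nat_lit 0, nat_lit 0, [], [nat_lit 48, nat_lit 40, nat_lit 40, nat_lit 80, nat_lit 12, nat_lit 345, nat_lit 125, nat_lit 9]⟩, C1.Rw.none,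
 ⟨nat_lit 5477, nat_lit 5917, ⟨.ofNat (nat_lit 242029), .ofNat (nat_lit 328416), .ofNat (nat_lit 252698), .ofNat (nat_lit 339085), .ofNat (nat_lit 256844), .ofNat (nat_lit 339271), .ofNat (nat_lit 267523), .ofNat (nat_lit 349949)⟩, ⟨.negSucc (nat_lit 63383), .ofNat (nat_lit 93684), .negSucc (nat_lit 20704), .ofNat (nat_lit 136362), .negSucc (nat_lit 45522), .ofNat (nat_lit 104343), .negSucc (nat_lit 2808), .ofNat (nat_lit 147057)⟩⟩, [⟨nat_lit 0, nat_lit 100, nat_lit 98, nat_lit 74, nat_lit 219741930⟩]⟩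
noncomputable def p050_l13 : Lf2 := ⟨nat_lit 0, nat_lit 12, [nat_lit 126, nat_lit 5, nat_lit 5, nat_lit 20], true, nat_lit 0, nat_lit 80, nat_lit 0, nat_lit 308, ⟨nat_lit 0, nat_lit 0, nat_lit 1000, nat_lit 6, nat_lit 127, nat_lit 0, nat_lit 24, nat_lit 0, nat_lit 3267, nat_lit 229, nat_lit 150417, nat_lit 310, nat_lit 60845054, nat_lit 0, nat_lit 0, nat_lit 1534153, false, false⟩,
 nat_lit 0, nat_lit 0, nat_lit 0, nat_lit 9002, nat_lit 4084, nat_lit 0, nat_lit 0, nat_lit 0, nat_lit 0, nat_lit 0, nat_lit 0, nat_lit 0, nat_lit 0, nat_lit 0, nat_lit 153, nat_lit 823600, nat_lit 0, nat_lit 0, [(nat_lit 10, [(nat_lit 5, nat_lit 294), (nat_lit 6, nat_lit 706)])],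
 ⟨p050_k6, nat_lit 0, nat_lit 0, nat_lit 194, nat_lit 0, nat_lit 0, [nat_lit 3675052800, nat_lit 2644725867, nat_lit 10408000], [], [nat_lit 13730701382, nat_lit 14061526055, nat_lit 13175851964, nat_lit 13498924622, nat_lit 11760020740, nat_lit 12030383031, nat_lit 11501982772, nat_lit 11814808910], nat_lit 0, nat_lit 0, nat_lit 0, nat_lit 0, nat_lit 0, nat_lit 0, [], [nat_lit 11, nat_lit 40, nat_lit 40, nat_lit 80, nat_lit 1, nat_lit 345, nat_lit 125, nat_lit 10]⟩, C1.Rw.none,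
 ⟨nat_lit 5590, nat_lit 5701, ⟨.ofNat (nat_lit 283163), .ofNat (nat_lit 344538), .ofNat (nat_lit 288499), .ofNat (nat_lit 349874), .ofNat (nat_lit 286590), .ofNat (nat_lit 347248), .ofNat (nat_lit 291927), .ofNat (nat_lit 352585)⟩, ⟨.negSucc (nat_lit 54331), .ofNat (nat_lit 99106), .negSucc (nat_lit 11648), .ofNat (nat_lit 141790), .negSucc (nat_lit 49897), .ofNat (nat_lit 101747), .negSucc (nat_lit 7202), .ofNat (nat_lit 144443)⟩⟩, [⟨nat_lit 0, nat_lit 100, nat_lit 100, nat_lit 75, nat_lit 156019948⟩]⟩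
noncomputable def p050_l14 : Lf2 := ⟨nat_lit 1, nat_lit 15, [nat_lit 30, nat_lit 5, nat_lit 5, nat_lit 20], false, nat_lit 0, nat_lit 80, nat_lit 0, nat_lit 308, zbN0,
 nat_lit 0, nat_lit 0, nat_lit 0, nat_lit 0, nat_lit 0, nat_lit 0, nat_lit 0, nat_lit 0, nat_lit 0, nat_lit 0, nat_lit 0, nat_lit 0, nat_lit 0, nat_lit 0, nat_lit 0, nat_lit 0, nat_lit 0, nat_lit 0, [],
 C1.Rw.none, C1.Rw.none,
 zbF0, []⟩
noncomputable def p050_l15 : Lf2 := ⟨nat_lit 0, nat_lit 15, [nat_lit 30, nat_lit 5, nat_lit 5, nat_lit 20], true, nat_lit 0, nat_lit 80, nat_lit 0, nat_lit 308, ⟨nat_lit 0, nat_lit 0, nat_lit 1000, nat_lit 6, nat_lit 131, nat_lit 0, nat_lit 25, nat_lit 0, nat_lit 3750, nat_lit 230, nat_lit 160067, nat_lit 313, nat_lit 60507985, nat_lit 0, nat_lit 0, nat_lit 1591038, false, false⟩,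
 nat_lit 0, nat_lit 0, nat_lit 0, nat_lit 8773, nat_lit 4387, nat_lit 0, nat_lit 293, nat_lit 0, nat_lit 0, nat_lit 0, nat_lit 0, nat_lit 0, nat_lit 0, nat_lit 18296604435969, nat_lit 79, nat_lit 400000, nat_lit 0, nat_lit 0, [(nat_lit 10, [(nat_lit 5, nat_lit 1000)])],
 ⟨p050_k7, nat_lit 0, nat_lit 0, nat_lit 209, nat_lit 0, nat_lit 0, [nat_lit 2809600000, nat_lit 596000000, nat_lit 8400000], [], [nat_lit 14472357782, nat_lit 14813522821, nat_lit 13904415384, nat_lit 14238486790, nat_lit 12224576783, nat_lit 12502417886, nat_lit 11935910891, nat_lit 12208307772], nat_lit 0, nat_lit 0, nat_lit 0, nat_lit 0, nat_lit 0, nat_lit 0, [], [nat_lit 29, nat_lit 40, nat_lit 40, nat_lit 80, nat_lit 17, nat_lit 345, nat_lit 125, nat_lit 10]⟩, C1.Rw.none,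
 ⟨nat_lit 5477, nat_lit 5591, ⟨.ofNat (nat_lit 294172), .ofNat (nat_lit 347248), .ofNat (nat_lit 304846), .ofNat (nat_lit 357922), .ofNat (nat_lit 297496), .ofNat (nat_lit 349949), .ofNat (nat_lit 308174), .ofNat (nat_lit 360628)⟩, ⟨.negSucc (nat_lit 49897), .ofNat (nat_lit 101747), .negSucc (nat_lit 7202), .ofNat (nat_lit 144443), .negSucc (nat_lit 45522), .ofNat (nat_lit 104343), .negSucc (nat_lit 2808), .ofNat (nat_lit 147057)⟩⟩, [⟨nat_lit 0, nat_lit 100, nat_lit 100, nat_lit 80, nat_lit 216120790⟩]⟩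
noncomputable def p050_l16 : Lf2 := ⟨nat_lit 0, nat_lit 15, [nat_lit 30, nat_lit 5, nat_lit 5, nat_lit 20], false, nat_lit 0, nat_lit 40, nat_lit 0, nat_lit 160, ⟨nat_lit 1000, nat_lit 0, nat_lit 0, nat_lit 0, nat_lit 0, nat_lit 0, nat_lit 0, nat_lit 0, nat_lit 0, nat_lit 0, nat_lit 0, nat_lit 0, nat_lit 0, nat_lit 0, nat_lit 0, nat_lit 0, false, false⟩,
 nat_lit 0, nat_lit 0, nat_lit 13816, nat_lit 14607, nat_lit 6559, nat_lit 8042, nat_lit 2954, nat_lit 0, nat_lit 0, nat_lit 817, nat_lit 0, nat_lit 0, nat_lit 0, nat_lit 0, nat_lit 0, nat_lit 0, nat_lit 0, nat_lit 0, [],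
 ⟨p050_k2, nat_lit 0, nat_lit 0, nat_lit 220, nat_lit 0, nat_lit 0, [nat_lit 4688000000, nat_lit 6250000000, nat_lit 11872000000], [], [nat_lit 17056171240, nat_lit 18269177522, nat_lit 16673505820, nat_lit 18252638010, nat_lit 15256948363, nat_lit 16669291702, nat_lit 15102439256, nat_lit 16698771304], nat_lit 0, nat_lit 0, nat_lit 0, nat_lit 0, nat_lit 0, nat_lit 0, [], [nat_lit 48, nat_lit 40, nat_lit 40, nat_lit 80, nat_lit 12, nat_lit 345, nat_lit 125, nat_lit 9]⟩, ⟨p050_k2, nat_lit 0, nat_lit 0, nat_lit 367, nat_lit 0, nat_lit 182418, [nat_lit 4688000000, nat_lit 6250000000, nat_lit 11872000000], [], [nat_lit 29907072200, nat_lit 31143718068, nat_lit 29190428524, nat_lit 30360571292, nat_lit 29061978418, nat_lit 25734614940, nat_lit 32022517882, nat_lit 28283775998], nat_lit 1271250, nat_lit 1271250, nat_lit 490000, nat_lit 780000, nat_lit 0, nat_lit 1100001, [nat_lit 1100000, nat_lit 1442500, nat_lit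 1271250], [nat_lit 48, nat_lit 40, nat_lit 40, nat_lit 80, nat_lit 12, nat_lit 373, nat_lit 150, nat_lit 10]⟩,
 zbF0, []⟩
noncomputable def p050_l17 : Lf2 := ⟨nat_lit 0, nat_lit 15, [nat_lit 30, nat_lit 5, nat_lit 5, nat_lit 20], false, nat_lit 0, nat_lit 40, nat_lit 160, nat_lit 320, ⟨nat_lit 58, nat_lit 0, nat_lit 942, nat_lit 6, nat_lit 153, nat_lit 0, nat_lit 9, nat_lit 0, nat_lit 67, nat_lit 217, nat_lit 220417, nat_lit 330, nat_lit 58433622, nat_lit 0, nat_lit 0, nat_lit 1911455, false, false⟩,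
 nat_lit 0, nat_lit 0, nat_lit 2159, nat_lit 7080, nat_lit 3799, nat_lit 1256, nat_lit 0, nat_lit 0, nat_lit 0, nat_lit 0, nat_lit 0, nat_lit 0, nat_lit 0, nat_lit 0, nat_lit 201, nat_lit 942000, nat_lit 0, nat_lit 0, [(nat_lit 10, [(nat_lit 6, nat_lit 942)])],
 ⟨p050_k2, nat_lit 0, nat_lit 0, nat_lit 220, nat_lit 0, nat_lit 0, [nat_lit 4518828800, nat_lit 4000236401, nat_lit 173623840], [], [nat_lit 13438604030, nat_lit 14535795452, nat_lit 13567587410, nat_lit 14612278061, nat_lit 12665557433, nat_lit 13604148873, nat_lit 12821351193, nat_lit 14003253195], nat_lit 0, nat_lit 0, nat_lit 0, nat_lit 0, nat_lit 0, nat_lit 0, [], [nat_lit 48, nat_lit 40, nat_lit 40, nat_lit 80, nat_lit 12, nat_lit 345, nat_lit 125, nat_lit 9]⟩, ⟨p050_k2, nat_lit 0, nat_lit 0, nat_lit 207, nat_lit 0, nat_lit 182418, [nat_lit 271904000, nat_lit 362500000, nat_lit 688576000], [], [nat_lit 1174028736, nat_lit 1325459872, nat_lit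 989519492, nat_lit 1131149784, nat_lit 1864358372, nat_lit 1943350240, nat_lit 1627862996, nat_lit 1704797784], nat_lit 1271250, nat_lit 1271250, nat_lit 490000, nat_lit 780000, nat_lit 1100001, nat_lit 2470000, [nat_lit 1100000, nat_lit 1442500, nat_lit 1271250], [nat_lit 48, nat_lit 40, nat_lit 40, nat_lit 80, nat_lit 12, nat_lit 428, nat_lit 200, nat_lit 11]⟩,
 ⟨nat_lit 5477, nat_lit 5917, ⟨.ofNat (nat_lit 328416), .ofNat (nat_lit 406949), .ofNat (nat_lit 349755), .ofNat (nat_lit 428288), .ofNat (nat_lit 339271), .ofNat (nat_lit 414204), .ofNat (nat_lit 360628), .ofNat (nat_lit 435561)⟩, ⟨.negSucc (nat_lit 63383), .ofNat (nat_lit 15150), .negSucc (nat_lit 20704), .ofNat (nat_lit 57829), .negSucc (nat_lit 45522), .ofNat (nat_lit 29410), .negSucc (nat_lit 2808), .ofNat (nat_lit 72124)⟩⟩, [⟨nat_lit 7, nat_lit 97, nat_lit 100, nat_lit 76, nat_lit 42429117⟩]⟩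
noncomputable def p050_l18 : Lf2 := ⟨nat_lit 0, nat_lit 15, [nat_lit 30, nat_lit 5, nat_lit 5, nat_lit 20], true, nat_lit 40, nat_lit 80, nat_lit 0, nat_lit 320, ⟨nat_lit 0, nat_lit 0, nat_lit 1000, nat_lit 6, nat_lit 153, nat_lit 1000, nat_lit 33, nat_lit 1000, nat_lit 10417, nat_lit 240, nat_lit 220417, nat_lit 330, nat_lit 57516872, nat_lit 0, nat_lit 0, nat_lit 2315966, false, false⟩,
 nat_lit 0, nat_lit 0, nat_lit 0, nat_lit 11880, nat_lit 4155, nat_lit 0, nat_lit 0, nat_lit 0, nat_lit 0, nat_lit 0, nat_lit 0, nat_lit 0, nat_lit 0, nat_lit 0, nat_lit 236, nat_lit 1000000, nat_lit 0, nat_lit 0, [(nat_lit 10, [(nat_lit 6, nat_lit 1000)])],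
 ⟨p050_k2, nat_lit 0, nat_lit 0, nat_lit 184, nat_lit 0, nat_lit 0, [nat_lit 4870400000, nat_lit 4314200001, nat_lit 184520000], [], [nat_lit 11353770980, nat_lit 12475230841, nat_lit 11572348771, nat_lit 12826658931, nat_lit 10439016111, nat_lit 11719032821, nat_lit 10879367271, nat_lit 12095763161], nat_lit 0, nat_lit 0, nat_lit 0, nat_lit 0, nat_lit 0, nat_lit 0, [], [nat_lit 48, nat_lit 40, nat_lit 40, nat_lit 80, nat_lit 12, nat_lit 345, nat_lit 125, nat_lit 9]⟩, C1.Rw.none,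
 ⟨nat_lit 5477, nat_lit 5917, ⟨.ofNat (nat_lit 328416), .ofNat (nat_lit 406949), .ofNat (nat_lit 349755), .ofNat (nat_lit 428288), .ofNat (nat_lit 339271), .ofNat (nat_lit 414204), .ofNat (nat_lit 360628), .ofNat (nat_lit 435561)⟩, ⟨.ofNat (nat_lit 15150), .ofNat (nat_lit 93684), .ofNat (nat_lit 57829), .ofNat (nat_lit 136362), .ofNat (nat_lit 29410), .ofNat (nat_lit 104343), .ofNat (nat_lit 72124), .ofNat (nat_lit 147057)⟩⟩, []⟩
noncomputable def p050_l19 : Lf2 := ⟨nat_lit 0, nat_lit 15, [nat_lit 30, nat_lit 5, nat_lit 5, nat_lit 20], true, nat_lit 80, nat_lit 160, nat_lit 0, nat_lit 320, ⟨nat_lit 0, nat_lit 0, nat_lit 1000, nat_lit 6, nat_lit 136, nat_lit 1000, nat_lit 79, nat_lit 1000, nat_lit 58017, nat_lit 274, nat_lit 173400, nat_lit 317, nat_lit 56582344, nat_lit 0, nat_lit 0, nat_lit 2786315, false, false⟩,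
 nat_lit 0, nat_lit 0, nat_lit 0, nat_lit 12115, nat_lit 4902, nat_lit 0, nat_lit 23, nat_lit 0, nat_lit 0, nat_lit 0, nat_lit 0, nat_lit 0, nat_lit 0, nat_lit 23959566532158, nat_lit 236, nat_lit 1000000, nat_lit 0, nat_lit 0, [(nat_lit 10, [(nat_lit 6, nat_lit 1000)])],
 ⟨p050_k2, nat_lit 0, nat_lit 0, nat_lit 179, nat_lit 0, nat_lit 0, [nat_lit 4870400000, nat_lit 4314200001, nat_lit 184520000], [], [nat_lit 10885691230, nat_lit 12104757836, nat_lit 9765070179, nat_lit 10891263535, nat_lit 11260764587, nat_lit 12557248880, nat_lit 10455684042, nat_lit 11627116750], nat_lit 0, nat_lit 0, nat_lit 0, nat_lit 0, nat_lit 0, nat_lit 0, [], [nat_lit 48, nat_lit 40, nat_lit 40, nat_lit 80, nat_lit 12, nat_lit 373, nat_lit 150, nat_lit 10]⟩, C1.Rw.none,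
 ⟨nat_lit 5477, nat_lit 5917, ⟨.ofNat (nat_lit 242029), .ofNat (nat_lit 406949), .ofNat (nat_lit 263368), .ofNat (nat_lit 428288), .ofNat (nat_lit 256844), .ofNat (nat_lit 414204), .ofNat (nat_lit 278201), .ofNat (nat_lit 435561)⟩, ⟨.ofNat (nat_lit 93684), .ofNat (nat_lit 250751), .ofNat (nat_lit 136362), .ofNat (nat_lit 293429), .ofNat (nat_lit 104343), .ofNat (nat_lit 254209), .ofNat (nat_lit 147057), .ofNat (nat_lit 296923)⟩⟩, [⟨nat_lit 0, nat_lit 100, nat_lit 100, nat_lit 80, nat_lit 184490148⟩]⟩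
noncomputable def p050_l20 : Lf2 := ⟨nat_lit 1, nat_lit 15, [nat_lit 30, nat_lit 5, nat_lit 5, nat_lit 20], false, nat_lit 0, nat_lit 160, nat_lit 0, nat_lit 320, zbN0,
 nat_lit 0, nat_lit 0, nat_lit 0, nat_lit 0, nat_lit 0, nat_lit 0, nat_lit 0, nat_lit 0, nat_lit 0, nat_lit 0, nat_lit 0, nat_lit 0, nat_lit 0, nat_lit 0, nat_lit 0, nat_lit 0, nat_lit 0, nat_lit 0, [],
 C1.Rw.none, C1.Rw.none,
 zbF0, []⟩
noncomputable def p050_l21 : Lf2 := ⟨nat_lit 0, nat_lit 15, [nat_lit 30, nat_lit 5, nat_lit 5, nat_lit 20], false, nat_lit 0, nat_lit 160, nat_lit 0, nat_lit 320, ⟨nat_lit 1000, nat_lit 0, nat_lit 0, nat_lit 0, nat_lit 0, nat_lit 0, nat_lit 0, nat_lit 0, nat_lit 0, nat_lit 0, nat_lit 0, nat_lit 0, nat_lit 0, nat_lit 0, nat_lit 0, nat_lit 0, false, false⟩,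
 nat_lit 0, nat_lit 0, nat_lit 11957, nat_lit 11614, nat_lit 8243, nat_lit 6959, nat_lit 1860, nat_lit 0, nat_lit 0, nat_lit 810, nat_lit 0, nat_lit 0, nat_lit 0, nat_lit 0, nat_lit 0, nat_lit 0, nat_lit 0, nat_lit 0, [],
 ⟨p050_k1, nat_lit 0, nat_lit 0, nat_lit 212, nat_lit 0, nat_lit 0, [nat_lit 4688000000, nat_lit 7968000001, nat_lit 11872000000], [], [nat_lit 17746068782, nat_lit 18516538497, nat_lit 21840134194, nat_lit 22623932065, nat_lit 13130585449, nat_lit 13829768945, nat_lit 16210636263, nat_lit 16862016137], nat_lit 0, nat_lit 0, nat_lit 0, nat_lit 0, nat_lit 0, nat_lit 0, [], [nat_lit 21, nat_lit 40, nat_lit 40, nat_lit 80, nat_lit 14, nat_lit 401, nat_lit 175, nat_lit 10]⟩, ⟨p050_k0, nat_lit 0, nat_lit 0, nat_lit 353, nat_lit 0, nat_lit 182418, [nat_lit 4688000000, nat_lit 7968000000, nat_lit 11872000000], [], [nat_lit 43716966102, nat_lit 39980414560, nat_lit 32287520054, nat_lit 32971526398,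 nat_lit 30822878178, nat_lit 31064039938, nat_lit 43068451720, nat_lit 39957778720], nat_lit 1271250, nat_lit 1271250, nat_lit 780000, nat_lit 1762500, nat_lit 0, nat_lit 2260000, [nat_lit 1100000, nat_lit 1785000, nat_lit 1271250], [nat_lit 21, nat_lit 40, nat_lit 40, nat_lit 80, nat_lit 14, nat_lit 456, nat_lit 225, nat_lit 12]⟩,
 zbF0, [⟨nat_lit 19, nat_lit 100, nat_lit 97, nat_lit 76, nat_lit 40401853⟩]⟩
noncomputable def p050_l22 : Lf2 := ⟨nat_lit 0, nat_lit 15, [nat_lit 30, nat_lit 5, nat_lit 5, nat_lit 20], true, nat_lit 160, nat_lit 240, nat_lit 0, nat_lit 296, ⟨nat_lit 0, nat_lit 0, nat_lit 1000, nat_lit 6, nat_lit 136, nat_lit 1000, nat_lit 136, nat_lit 1000, nat_lit 173400, nat_lit 317, nat_lit 173400, nat_lit 317, nat_lit 52370831, nat_lit 0, nat_lit 0, nat_lit 3610643, false, false⟩,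
 nat_lit 0, nat_lit 0, nat_lit 0, nat_lit 4296, nat_lit 6781, nat_lit 0, nat_lit 0, nat_lit 0, nat_lit 0, nat_lit 0, nat_lit 0, nat_lit 0, nat_lit 0, nat_lit 3795802271682, nat_lit 57, nat_lit 250000, nat_lit 0, nat_lit 0, [(nat_lit 10, [(nat_lit 4, nat_lit 1000)])],
 ⟨p050_k2, nat_lit 0, nat_lit 0, nat_lit 44, nat_lit 0, nat_lit 0, [nat_lit 4572800000, nat_lit 1067600001, nat_lit 504400000], [], [nat_lit 10753760483, nat_lit 12845938441, nat_lit 9656043380, nat_lit 11487802028, nat_lit 15642196407, nat_lit 17621039159, nat_lit 13837511054, nat_lit 15355579824], nat_lit 0, nat_lit 0, nat_lit 0, nat_lit 0, nat_lit 0, nat_lit 0, [], [nat_lit 48, nat_lit 40, nat_lit 40, nat_lit 80, nat_lit 12, nat_lit 401, nat_lit 175, nat_lit 10]⟩, C1.Rw.none,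
 ⟨nat_lit 5477, nat_lit 5917, ⟨.ofNat (nat_lit 242029), .ofNat (nat_lit 406949), .ofNat (nat_lit 263368), .ofNat (nat_lit 428288), .ofNat (nat_lit 256844), .ofNat (nat_lit 414204), .ofNat (nat_lit 278201), .ofNat (nat_lit 435561)⟩, ⟨.ofNat (nat_lit 250751), .ofNat (nat_lit 407818), .ofNat (nat_lit 272090), .ofNat (nat_lit 429157), .ofNat (nat_lit 254209), .ofNat (nat_lit 404075), .ofNat (nat_lit 275566), .ofNat (nat_lit 425432)⟩⟩, [⟨nat_lit 0, nat_lit 100, nat_lit 100, nat_lit 80, nat_lit 247155981⟩]⟩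
noncomputable def p050_l23 : Lf2 := ⟨nat_lit 0, nat_lit 12, [nat_lit 126, nat_lit 5, nat_lit 5, nat_lit 20], true, nat_lit 240, nat_lit 296, nat_lit 0, nat_lit 296, ⟨nat_lit 0, nat_lit 1000, nat_lit 0, nat_lit 6, nat_lit 134, nat_lit 1000, nat_lit 188, nat_lit 0, nat_lit 0, nat_lit 0, nat_lit 0, nat_lit 0, nat_lit 48126317, nat_lit 6999100, nat_lit 11874583, nat_lit 4174991, false, false⟩,
 nat_lit 0, nat_lit 0, nat_lit 0, nat_lit 14719, nat_lit 6431, nat_lit 0, nat_lit 0, nat_lit 0, nat_lit 0, nat_lit 0, nat_lit 0, nat_lit 0, nat_lit 0, nat_lit 0, nat_lit 0, nat_lit 250000, nat_lit 0, nat_lit 0, [(nat_lit 10, [(nat_lit 0, nat_lit 1000)])],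
 ⟨p050_k3, nat_lit 0, nat_lit 0, nat_lit 78, nat_lit 0, nat_lit 0, [nat_lit 3808000001, nat_lit 3043466667, nat_lit 3665333333], [], [nat_lit 15732209080, nat_lit 17456480919, nat_lit 14429024155, nat_lit 15902233425, nat_lit 20939356807, nat_lit 22528389307, nat_lit 18591916510, nat_lit 20059284192], nat_lit 0, nat_lit 0, nat_lit 0, nat_lit 0, nat_lit 0, nat_lit 0, [], [nat_lit 11, nat_lit 40, nat_lit 40, nat_lit 80, nat_lit 1, nat_lit 401, nat_lit 175, nat_lit 11]⟩, C1.Rw.none,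
 ⟨nat_lit 5477, nat_lit 5917, ⟨.ofNat (nat_lit 242029), .ofNat (nat_lit 406949), .ofNat (nat_lit 252698), .ofNat (nat_lit 417619), .ofNat (nat_lit 256844), .ofNat (nat_lit 414204), .ofNat (nat_lit 267523), .ofNat (nat_lit 424882)⟩, ⟨.ofNat (nat_lit 407818), .ofNat (nat_lit 517765), .ofNat (nat_lit 429157), .ofNat (nat_lit 539104), .ofNat (nat_lit 404075), .ofNat (nat_lit 508982), .ofNat (nat_lit 425432), .ofNat (nat_lit 530339)⟩⟩, [⟨nat_lit 0, nat_lit 100, nat_lit 98, nat_lit 74, nat_lit 204502293⟩, ⟨nat_lit 4, nat_lit 100, nat_lit 100, nat_lit 71, nat_lit 557334409⟩]⟩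
noncomputable def p050_l24 : Lf2 := ⟨nat_lit 1, nat_lit 15, [nat_lit 30, nat_lit 5, nat_lit 5, nat_lit 20], false, nat_lit 240, nat_lit 296, nat_lit 0, nat_lit 296, zbN0,
 nat_lit 0, nat_lit 0, nat_lit 0, nat_lit 0, nat_lit 0, nat_lit 0, nat_lit 0, nat_lit 0, nat_lit 0, nat_lit 0, nat_lit 0, nat_lit 0, nat_lit 0, nat_lit 0, nat_lit 0, nat_lit 0, nat_lit 0, nat_lit 0, [],
 C1.Rw.none, C1.Rw.none,
 zbF0, []⟩
noncomputable def p050_l25 : Lf2 := ⟨nat_lit 0, nat_lit 15, [nat_lit 30, nat_lit 5, nat_lit 5, nat_lit 20], false, nat_lit 240, nat_lit 288, nat_lit 0, nat_lit 160, ⟨nat_lit 1000, nat_lit 0, nat_lit 0, nat_lit 0, nat_lit 0, nat_lit 0, nat_lit 0, nat_lit 0, nat_lit 0, nat_lit 0, nat_lit 0, nat_lit 0, nat_lit 0, nat_lit 0, nat_lit 0, nat_lit 0, false, false⟩,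
 nat_lit 0, nat_lit 0, nat_lit 6933, nat_lit 18512, nat_lit 7290, nat_lit 4222, nat_lit 0, nat_lit 0, nat_lit 0, nat_lit 1109, nat_lit 0, nat_lit 0, nat_lit 0, nat_lit 0, nat_lit 0, nat_lit 0, nat_lit 0, nat_lit 0, [],
 ⟨p050_k1, nat_lit 0, nat_lit 0, nat_lit 82, nat_lit 0, nat_lit 0, [nat_lit 4688000000, nat_lit 7968000001, nat_lit 11872000000], [], [nat_lit 16228153833, nat_lit 17102078232, nat_lit 15010206510, nat_lit 15801860160, nat_lit 20887310398, nat_lit 21761302709, nat_lit 18789215489, nat_lit 19599510080], nat_lit 0, nat_lit 0, nat_lit 0, nat_lit 0, nat_lit 0, nat_lit 0, [], [nat_lit 21, nat_lit 40, nat_lit 40, nat_lit 80, nat_lit 14, nat_lit 401, nat_lit 175, nat_lit 10]⟩, ⟨p050_k1, nat_lit 0, nat_lit 0, nat_lit 392, nat_lit 0, nat_lit 165625, [nat_lit 4688000000, nat_lit 7968000000, nat_lit 11872000000], [], [nat_lit 36568108324, nat_lit 35438094246, nat_lit 31354717368, nat_lit 31703885290,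 nat_lit 31430053395, nat_lit 30751133250, nat_lit 34749430790, nat_lit 33768022668], nat_lit 1271250, nat_lit 1271250, nat_lit 279600, nat_lit 780000, nat_lit 0, nat_lit 1100001, [nat_lit 1100000, nat_lit 1785000, nat_lit 1271250], [nat_lit 21, nat_lit 40, nat_lit 40, nat_lit 80, nat_lit 14, nat_lit 373, nat_lit 150, nat_lit 10]⟩,
 zbF0, [⟨nat_lit 0, nat_lit 100, nat_lit 100, nat_lit 75, nat_lit 502513433⟩, ⟨nat_lit 4, nat_lit 100, nat_lit 98, nat_lit 70, nat_lit 1051805349⟩]⟩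
noncomputable def p050_l26 : Lf2 := ⟨nat_lit 0, nat_lit 15, [nat_lit 30, nat_lit 5, nat_lit 5, nat_lit 20], false, nat_lit 240, nat_lit 288, nat_lit 160, nat_lit 288, ⟨nat_lit 1000, nat_lit 0, nat_lit 0, nat_lit 0, nat_lit 0, nat_lit 0, nat_lit 0, nat_lit 0, nat_lit 0, nat_lit 0, nat_lit 0, nat_lit 0, nat_lit 0, nat_lit 0, nat_lit 0, nat_lit 0, false, false⟩,
 nat_lit 0, nat_lit 0, nat_lit 14508, nat_lit 10177, nat_lit 7290, nat_lit 8835, nat_lit 0, nat_lit 0, nat_lit 0, nat_lit 1459, nat_lit 0, nat_lit 0, nat_lit 0, nat_lit 0, nat_lit 0, nat_lit 0, nat_lit 0, nat_lit 0, [],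
 ⟨p050_k1, nat_lit 0, nat_lit 0, nat_lit 82, nat_lit 0, nat_lit 0, [nat_lit 4688000000, nat_lit 7968000001, nat_lit 11872000000], [], [nat_lit 16228153833, nat_lit 17102078232, nat_lit 15010206510, nat_lit 15801860160, nat_lit 20887310398, nat_lit 21761302709, nat_lit 18789215489, nat_lit 19599510080], nat_lit 0, nat_lit 0, nat_lit 0, nat_lit 0, nat_lit 0, nat_lit 0, [], [nat_lit 21, nat_lit 40, nat_lit 40, nat_lit 80, nat_lit 14, nat_lit 401, nat_lit 175, nat_lit 10]⟩, ⟨p050_k1, nat_lit 0, nat_lit 0, nat_lit 224, nat_lit 0, nat_lit 165625, [nat_lit 4688000000, nat_lit 7968000000, nat_lit 11872000000], [], [nat_lit 24774759903, nat_lit 22481043708, nat_lit 14532113025, nat_lit 15205193750, nat_lit 24019844189, nat_lit 22903434978, nat_lit 28613113691, nat_lit 26536816244], nat_lit 1271250, nat_lit 1271250, nat_lit 279600, nat_lit 780000, nat_lit 1100001, nat_lit 2196000, [nat_lit 1100000, nat_lit 1785000,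 nat_lit 1271250], [nat_lit 21, nat_lit 40, nat_lit 40, nat_lit 80, nat_lit 14, nat_lit 401, nat_lit 175, nat_lit 10]⟩,
 zbF0, [⟨nat_lit 0, nat_lit 100, nat_lit 100, nat_lit 75, nat_lit 407326454⟩, ⟨nat_lit 4, nat_lit 100, nat_lit 98, nat_lit 70, nat_lit 1051805349⟩, ⟨nat_lit 7, nat_lit 100, nat_lit 98, nat_lit 70, nat_lit 272869256⟩]⟩
noncomputable def p050_l27 : Lf2 := ⟨nat_lit 1, nat_lit 15, [nat_lit 30, nat_lit 5, nat_lit 5, nat_lit 20], false, nat_lit 160, nat_lit 320, nat_lit 0, nat_lit 320, zbN0,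
 nat_lit 0, nat_lit 0, nat_lit 0, nat_lit 0, nat_lit 0, nat_lit 0, nat_lit 0, nat_lit 0, nat_lit 0, nat_lit 0, nat_lit 0, nat_lit 0, nat_lit 0, nat_lit 0, nat_lit 0, nat_lit 0, nat_lit 0, nat_lit 0, [],
 C1.Rw.none, C1.Rw.none,
 zbF0, []⟩
noncomputable def p050_l28 : Lf2 := ⟨nat_lit 0, nat_lit 15, [nat_lit 30, nat_lit 5, nat_lit 5, nat_lit 20], false, nat_lit 160, nat_lit 320, nat_lit 0, nat_lit 320, ⟨nat_lit 1000, nat_lit 0, nat_lit 0, nat_lit 0, nat_lit 0, nat_lit 0, nat_lit 0, nat_lit 0, nat_lit 0, nat_lit 0, nat_lit 0, nat_lit 0, nat_lit 0, nat_lit 0, nat_lit 0, nat_lit 0, false, false⟩,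
 nat_lit 0, nat_lit 0, nat_lit 12175, nat_lit 11264, nat_lit 8531, nat_lit 7086, nat_lit 0, nat_lit 0, nat_lit 0, nat_lit 1275, nat_lit 0, nat_lit 0, nat_lit 0, nat_lit 0, nat_lit 0, nat_lit 0, nat_lit 0, nat_lit 0, [],
 ⟨p050_k2, nat_lit 0, nat_lit 0, nat_lit 42, nat_lit 0, nat_lit 0, [nat_lit 4688000000, nat_lit 6250000000, nat_lit 11872000000], [], [nat_lit 7996958380, nat_lit 10119931028, nat_lit 13698711840, nat_lit 15652747516, nat_lit 21498833756, nat_lit 23068894032, nat_lit 24190430942, nat_lit 25388253168], nat_lit 0, nat_lit 0, nat_lit 0, nat_lit 0, nat_lit 0, nat_lit 0, [], [nat_lit 48, nat_lit 40, nat_lit 40, nat_lit 80, nat_lit 12, nat_lit 456, nat_lit 225, nat_lit 11]⟩, ⟨p050_k2, nat_lit 0, nat_lit 0, nat_lit 348, nat_lit 0, nat_lit 182418, [nat_lit 4688000000, nat_lit 6250000000, nat_lit 11872000000], [], [nat_lit 43978684908, nat_lit 40173942240, nat_lit 29217723952, nat_lit 29933887708,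 nat_lit 27833773968, nat_lit 28306422100, nat_lit 36946720993, nat_lit 33738123505], nat_lit 1271250, nat_lit 1271250, nat_lit 780000, nat_lit 1762500, nat_lit 0, nat_lit 2260000, [nat_lit 1100000, nat_lit 1442500, nat_lit 1271250], [nat_lit 48, nat_lit 40, nat_lit 40, nat_lit 80, nat_lit 12, nat_lit 456, nat_lit 225, nat_lit 12]⟩,
 zbF0, [⟨nat_lit 4, nat_lit 97, nat_lit 100, nat_lit 76, nat_lit 827843658⟩]⟩
noncomputable def p050_l29 : Lf2 := ⟨nat_lit 1, nat_lit 15, [nat_lit 30, nat_lit 5, nat_lit 5, nat_lit 20], false, nat_lit 0, nat_lit 336, nat_lit 0, nat_lit 336, zbN0,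
 nat_lit 0, nat_lit 0, nat_lit 0, nat_lit 0, nat_lit 0, nat_lit 0, nat_lit 0, nat_lit 0, nat_lit 0, nat_lit 0, nat_lit 0, nat_lit 0, nat_lit 0, nat_lit 0, nat_lit 0, nat_lit 0, nat_lit 0, nat_lit 0, [],
 C1.Rw.none, C1.Rw.none,
 zbF0, []⟩
noncomputable def p050_l30 : Lf2 := ⟨nat_lit 0, nat_lit 15, [nat_lit 30, nat_lit 5, nat_lit 5, nat_lit 20], false, nat_lit 0, nat_lit 320, nat_lit 0, nat_lit 320, ⟨nat_lit 1000, nat_lit 0, nat_lit 0, nat_lit 0, nat_lit 0, nat_lit 0, nat_lit 0, nat_lit 0, nat_lit 0, nat_lit 0, nat_lit 0, nat_lit 0, nat_lit 0, nat_lit 0, nat_lit 0, nat_lit 0, false, false⟩,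
 nat_lit 0, nat_lit 0, nat_lit 13484, nat_lit 0, nat_lit 6906, nat_lit 7848, nat_lit 1075, nat_lit 0, nat_lit 0, nat_lit 937, nat_lit 0, nat_lit 0, nat_lit 0, nat_lit 0, nat_lit 0, nat_lit 0, nat_lit 0, nat_lit 0, [],
 ⟨p050_k0, nat_lit 0, nat_lit 0, nat_lit 250, nat_lit 0, nat_lit 0, [nat_lit 4688000000, nat_lit 7968000001, nat_lit 11872000000], [], [nat_lit 26876413317, nat_lit 27957485793, nat_lit 37135692433, nat_lit 38089262096, nat_lit 26654031053, nat_lit 27229399665, nat_lit 33920801808, nat_lit 34465498400], nat_lit 0, nat_lit 0, nat_lit 0, nat_lit 0, nat_lit 0, nat_lit 0, [], [nat_lit 21, nat_lit 40, nat_lit 40, nat_lit 80, nat_lit 14, nat_lit 483, nat_lit 250, nat_lit 12]⟩, ⟨p050_k0, nat_lit 0, nat_lit 0, nat_lit 349, nat_lit 0, nat_lit 182418, [nat_lit 4688000000, nat_lit 7968000000, nat_lit 11872000000], [], [nat_lit 30227671315, nat_lit 31016892131, nat_lit 39509588992, nat_lit 40554114368,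 nat_lit 27804865027, nat_lit 28182292224, nat_lit 34974681264, nat_lit 35526567200], nat_lit 1271250, nat_lit 1271250, nat_lit 1271250, nat_lit 1271250, nat_lit 0, nat_lit 2260000, [nat_lit 1100000, nat_lit 1785000, nat_lit 1271250], [nat_lit 21, nat_lit 40, nat_lit 40, nat_lit 80, nat_lit 14, nat_lit 483, nat_lit 250, nat_lit 12]⟩,
 zbF0, [⟨nat_lit 4, nat_lit 97, nat_lit 100, nat_lit 76, nat_lit 169547348⟩, ⟨nat_lit 7, nat_lit 97, nat_lit 100, nat_lit 76, nat_lit 140681581⟩]⟩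
noncomputable def b_V_600_600_10_79 : St := ⟨true, nat_lit 0, nat_lit 2, nat_lit 1, nat_lit 80, nat_lit 240, nat_lit 280, nat_lit 240, nat_lit 280, nat_lit 16, nat_lit 400, nat_lit 40, nat_lit 80, nat_lit 0, nat_lit 336, nat_lit 0, nat_lit 336, nat_lit 40, nat_lit 60, nat_lit 0, nat_lit 0, nat_lit 0, nat_lit 0⟩
theorem d_V_600_600_10_79 (h : EB TB.env) : Dead b_V_600_600_10_79 := chkB_sound0 h (T :=
(.st (nat_lit 1)
(.spl (nat_lit 2) (nat_lit 240)
(.spl (nat_lit 1) (nat_lit 260)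
(.leaf p050_l0)
(.ord (.trZ (nat_lit 0) (nat_lit 100) (nat_lit 100) (nat_lit 60) (nat_lit 36) (.trX (nat_lit 16) (nat_lit 100) (nat_lit 85) (nat_lit 84) (nat_lit 320) (.trX (nat_lit 19) (nat_lit 100) (nat_lit 85) (nat_lit 84) (nat_lit 320) (.spl (nat_lit 4) (nat_lit 160)
(.spl (nat_lit 5) (nat_lit 160)
(.leaf p050_l1)
(.spl (nat_lit 0) (nat_lit 270)
(.ord (.leaf p050_l2))
(.trZ (nat_lit 0) (nat_lit 100) (nat_lit 98) (nat_lit 64) (nat_lit 40) (.leaf p050_l3))))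
(.spl (nat_lit 2) (nat_lit 120)
(.spl (nat_lit 3) (nat_lit 60)
(.trX (nat_lit 16) (nat_lit 100) (nat_lit 92) (nat_lit 75) (nat_lit 296) (.trX (nat_lit 19) (nat_lit 100) (nat_lit 92) (nat_lit 75) (nat_lit 296) (.spl (nat_lit 4) (nat_lit 240)
(.leaf p050_l4)
(.spl (nat_lit 1) (nat_lit 270)
(.spl (nat_lit 6) (nat_lit 48)
(.leaf p050_l5)
(.leaf p050_l6))
(.ord (.trZ (nat_lit 0) (nat_lit 100) (nat_lit 100) (nat_lit 70) (nat_lit 48) (.trX (nat_lit 16) (nat_lit 100) (nat_lit 97) (nat_lit 76) (nat_lit 288) (.trX (nat_lit 19) (nat_lit 100) (nat_lit 97) (nat_lit 76) (nat_lit 288) (.leaf p050_l7)))))))))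
(.leaf p050_l8))
(.leaf p050_l9))))))))
(.leaf p050_l10))
(.spl (nat_lit 2) (nat_lit 240)
(.spl (nat_lit 1) (nat_lit 260)
(.leaf p050_l11)
(.ord (.trZ (nat_lit 0) (nat_lit 100) (nat_lit 100) (nat_lit 60) (nat_lit 36) (.trX (nat_lit 16) (nat_lit 100) (nat_lit 85) (nat_lit 84) (nat_lit 320) (.trX (nat_lit 19) (nat_lit 100) (nat_lit 85) (nat_lit 84) (nat_lit 320) (.spl (nat_lit 4) (nat_lit 160)
(.spl (nat_lit 2) (nat_lit 120)
(.spl (nat_lit 4) (nat_lit 80)
(.spl (nat_lit 2) (nat_lit 80)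
(.spl (nat_lit 1) (nat_lit 270)
(.leaf p050_l12)
(.ord (.trZ (nat_lit 0) (nat_lit 100) (nat_lit 100) (nat_lit 70) (nat_lit 48) (.trX (nat_lit 19) (nat_lit 100) (nat_lit 90) (nat_lit 85) (nat_lit 308) (.spl (nat_lit 0) (nat_lit 275)
(.ord (.spl (nat_lit 6) (nat_lit 48)
(.leaf p050_l13)
(.leaf p050_l14)))
(.trZ (nat_lit 0) (nat_lit 100) (nat_lit 99) (nat_lit 72) (nat_lit 52) (.leaf p050_l15)))))))
(.spl (nat_lit 4) (nat_lit 40)
(.spl (nat_lit 5) (nat_lit 160)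
(.leaf p050_l16)
(.leaf p050_l17))
(.leaf p050_l18)))
(.leaf p050_l19))
(.spl (nat_lit 0) (nat_lit 270)
(.ord (.leaf p050_l20))
(.leaf p050_l21)))
(.spl (nat_lit 2) (nat_lit 120)
(.spl (nat_lit 3) (nat_lit 60)
(.trX (nat_lit 16) (nat_lit 100) (nat_lit 92) (nat_lit 75) (nat_lit 296) (.trX (nat_lit 19) (nat_lit 100) (nat_lit 92) (nat_lit 75) (nat_lit 296) (.spl (nat_lit 4) (nat_lit 240)
(.leaf p050_l22)
(.spl (nat_lit 1) (nat_lit 270)
(.spl (nat_lit 6) (nat_lit 48)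
(.leaf p050_l23)
(.leaf p050_l24))
(.ord (.trZ (nat_lit 0) (nat_lit 100) (nat_lit 100) (nat_lit 70) (nat_lit 48) (.trX (nat_lit 16) (nat_lit 100) (nat_lit 97) (nat_lit 76) (nat_lit 288) (.trX (nat_lit 19) (nat_lit 100) (nat_lit 97) (nat_lit 76) (nat_lit 288) (.spl (nat_lit 5) (nat_lit 160)
(.leaf p050_l25)
(.leaf p050_l26))))))))))
(.leaf p050_l27))
(.leaf p050_l28))))))))
(.spl (nat_lit 1) (nat_lit 260)
(.leaf p050_l29)
(.ord (.trX (nat_lit 16) (nat_lit 100) (nat_lit 85) (nat_lit 84) (nat_lit 320) (.trX (nat_lit 19) (nat_lit 100) (nat_lit 85) (nat_lit 84) (nat_lit 320) (.leaf p050_l30)))))))) (by decide +kernel)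
noncomputable def p050_l31 : Lf2 := ⟨nat_lit 1, nat_lit 15, [nat_lit 30, nat_lit 5, nat_lit 5, nat_lit 20], false, nat_lit 0, nat_lit 336, nat_lit 0, nat_lit 336, zbN0,
 nat_lit 0, nat_lit 0, nat_lit 0, nat_lit 0, nat_lit 0, nat_lit 0, nat_lit 0, nat_lit 0, nat_lit 0, nat_lit 0, nat_lit 0, nat_lit 0, nat_lit 0, nat_lit 0, nat_lit 0, nat_lit 0, nat_lit 0, nat_lit 0, [],
 C1.Rw.none, C1.Rw.none,
 zbF0, []⟩
noncomputable def p050_l32 : Lf2 := ⟨nat_lit 0, nat_lit 15, [nat_lit 30, nat_lit 5, nat_lit 5, nat_lit 20], true, nat_lit 0, nat_lit 320, nat_lit 0, nat_lit 336, ⟨nat_lit 0, nat_lit 1000, nat_lit 0, nat_lit 6, nat_lit 173, nat_lit 1000, nat_lit 116, nat_lit 0, nat_lit 0, nat_lit 0, nat_lit 0, nat_lit 0, nat_lit 0, nat_lit 0, nat_lit 0, nat_lit 5000000, false, false⟩,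
 nat_lit 0, nat_lit 0, nat_lit 0, nat_lit 10255, nat_lit 6208, nat_lit 0, nat_lit 0, nat_lit 0, nat_lit 0, nat_lit 0, nat_lit 0, nat_lit 0, nat_lit 0, nat_lit 27615351500183, nat_lit 35, nat_lit 839200, nat_lit 0, nat_lit 0, [(nat_lit 10, [(nat_lit 1, nat_lit 268), (nat_lit 2, nat_lit 732)])],
 ⟨p050_k2, nat_lit 0, nat_lit 0, nat_lit 349, nat_lit 0, nat_lit 0, [nat_lit 3236328960, nat_lit 4593640001, nat_lit 284588800], [], [nat_lit 23359556053, nat_lit 24652920020, nat_lit 22891017921, nat_lit 23698025025, nat_lit 25197231783, nat_lit 25987347446, nat_lit 24409823234, nat_lit 25031285666], nat_lit 0, nat_lit 0, nat_lit 0, nat_lit 0, nat_lit 0, nat_lit 0, [], [nat_lit 48, nat_lit 40, nat_lit 40, nat_lit 80, nat_lit 12, nat_lit 456, nat_lit 225, nat_lit 12]⟩, C1.Rw.none,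
 ⟨nat_lit 5477, nat_lit 5917, ⟨.ofNat (nat_lit 197129), .ofNat (nat_lit 621176), .ofNat (nat_lit 239808), .ofNat (nat_lit 663838), .ofNat (nat_lit 213007), .ofNat (nat_lit 617611), .ofNat (nat_lit 255721), .ofNat (nat_lit 660309)⟩, ⟨.negSucc (nat_lit 63383), .ofNat (nat_lit 564885), .negSucc (nat_lit 20704), .ofNat (nat_lit 607556), .negSucc (nat_lit 45522), .ofNat (nat_lit 553941), .negSucc (nat_lit 2808), .ofNat (nat_lit 596648)⟩⟩, [⟨nat_lit 0, nat_lit 100, nat_lit 100, nat_lit 80, nat_lit 8880938⟩, ⟨nat_lit 4, nat_lit 97, nat_lit 100, nat_lit 76, nat_lit 109737217⟩]⟩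
noncomputable def p050_l33 : Lf2 := ⟨nat_lit 0, nat_lit 15, [nat_lit 30, nat_lit 5, nat_lit 5, nat_lit 20], false, nat_lit 0, nat_lit 336, nat_lit 0, nat_lit 336, ⟨nat_lit 1000, nat_lit 0, nat_lit 0, nat_lit 0, nat_lit 0, nat_lit 0, nat_lit 0, nat_lit 0, nat_lit 0, nat_lit 0, nat_lit 0, nat_lit 0, nat_lit 0, nat_lit 0, nat_lit 0, nat_lit 0, false, false⟩,
 nat_lit 0, nat_lit 0, nat_lit 0, nat_lit 25144, nat_lit 7862, nat_lit 7862, nat_lit 1024, nat_lit 0, nat_lit 0, nat_lit 1024, nat_lit 0, nat_lit 0, nat_lit 0, nat_lit 0, nat_lit 0, nat_lit 0, nat_lit 0, nat_lit 0, [],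
 ⟨p050_k5, nat_lit 0, nat_lit 0, nat_lit 251, nat_lit 0, nat_lit 0, [nat_lit 4688000000, nat_lit 7968000001, nat_lit 11872000000], [], [nat_lit 27872526232, nat_lit 30172040736, nat_lit 39487951232, nat_lit 40591936800, nat_lit 28200149471, nat_lit 29284880681, nat_lit 35654099133, nat_lit 36446305023], nat_lit 0, nat_lit 0, nat_lit 0, nat_lit 0, nat_lit 0, nat_lit 0, [], [nat_lit 21, nat_lit 40, nat_lit 40, nat_lit 80, nat_lit 14, nat_lit 538, nat_lit 300, nat_lit 13]⟩, ⟨p050_k5, nat_lit 0, nat_lit 0, nat_lit 251, nat_lit 0, nat_lit 0, [nat_lit 4688000000, nat_lit 7968000000, nat_lit 11872000000], [], [nat_lit 27872526232, nat_lit 30172040736, nat_lit 39487951232, nat_lit 40591936800, nat_lit 28200149471, nat_lit 29284880680, nat_lit 35654099132, nat_lit 36446305023], nat_lit 0, nat_lit 0, nat_lit 0, nat_lit 0, nat_lit 0, nat_lit 0, [], [nat_lit 21, nat_lit 40, nat_lit 40, nat_lit 80, nat_lit 14, nat_lit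 538, nat_lit 300, nat_lit 13]⟩,
 zbF0, [⟨nat_lit 4, nat_lit 92, nat_lit 100, nat_lit 75, nat_lit 170280111⟩, ⟨nat_lit 7, nat_lit 92, nat_lit 100, nat_lit 75, nat_lit 175436239⟩]⟩
noncomputable def p050_l34 : Lf2 := ⟨nat_lit 1, nat_lit 15, [nat_lit 30, nat_lit 5, nat_lit 5, nat_lit 20], false, nat_lit 0, nat_lit 336, nat_lit 0, nat_lit 336, zbN0,
 nat_lit 0, nat_lit 0, nat_lit 0, nat_lit 0, nat_lit 0, nat_lit 0, nat_lit 0, nat_lit 0, nat_lit 0, nat_lit 0, nat_lit 0, nat_lit 0, nat_lit 0, nat_lit 0, nat_lit 0, nat_lit 0, nat_lit 0, nat_lit 0, [],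
 C1.Rw.none, C1.Rw.none,
 zbF0, []⟩
noncomputable def p050_l35 : Lf2 := ⟨nat_lit 0, nat_lit 15, [nat_lit 30, nat_lit 5, nat_lit 5, nat_lit 20], true, nat_lit 0, nat_lit 320, nat_lit 0, nat_lit 336, ⟨nat_lit 0, nat_lit 1000, nat_lit 0, nat_lit 6, nat_lit 173, nat_lit 1000, nat_lit 116, nat_lit 0, nat_lit 0, nat_lit 0, nat_lit 0, nat_lit 0, nat_lit 0, nat_lit 0, nat_lit 0, nat_lit 5000000, false, false⟩,
 nat_lit 0, nat_lit 0, nat_lit 0, nat_lit 10255, nat_lit 6208, nat_lit 0, nat_lit 0, nat_lit 0, nat_lit 0, nat_lit 0, nat_lit 0, nat_lit 0, nat_lit 0, nat_lit 27615351500183, nat_lit 35, nat_lit 839200, nat_lit 0, nat_lit 0, [(nat_lit 10, [(nat_lit 1, nat_lit 268), (nat_lit 2, nat_lit 732)])],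
 ⟨p050_k2, nat_lit 0, nat_lit 0, nat_lit 349, nat_lit 0, nat_lit 0, [nat_lit 3236328960, nat_lit 4593640001, nat_lit 284588800], [], [nat_lit 23359556053, nat_lit 24652920020, nat_lit 22891017921, nat_lit 23698025025, nat_lit 25197231783, nat_lit 25987347446, nat_lit 24409823234, nat_lit 25031285666], nat_lit 0, nat_lit 0, nat_lit 0, nat_lit 0, nat_lit 0, nat_lit 0, [], [nat_lit 48, nat_lit 40, nat_lit 40, nat_lit 80, nat_lit 12, nat_lit 456, nat_lit 225, nat_lit 12]⟩, C1.Rw.none,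
 ⟨nat_lit 5477, nat_lit 5917, ⟨.ofNat (nat_lit 197129), .ofNat (nat_lit 621176), .ofNat (nat_lit 239808), .ofNat (nat_lit 663838), .ofNat (nat_lit 213007), .ofNat (nat_lit 617611), .ofNat (nat_lit 255721), .ofNat (nat_lit 660309)⟩, ⟨.negSucc (nat_lit 63383), .ofNat (nat_lit 564885), .negSucc (nat_lit 20704), .ofNat (nat_lit 607556), .negSucc (nat_lit 45522), .ofNat (nat_lit 553941), .negSucc (nat_lit 2808), .ofNat (nat_lit 596648)⟩⟩, [⟨nat_lit 0, nat_lit 100, nat_lit 100, nat_lit 80, nat_lit 8880938⟩, ⟨nat_lit 4, nat_lit 97, nat_lit 100, nat_lit 76, nat_lit 109737217⟩]⟩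
noncomputable def p050_l36 : Lf2 := ⟨nat_lit 1, nat_lit 15, [nat_lit 30, nat_lit 5, nat_lit 5, nat_lit 20], false, nat_lit 0, nat_lit 336, nat_lit 0, nat_lit 336, zbN0,
 nat_lit 0, nat_lit 0, nat_lit 0, nat_lit 0, nat_lit 0, nat_lit 0, nat_lit 0, nat_lit 0, nat_lit 0, nat_lit 0, nat_lit 0, nat_lit 0, nat_lit 0, nat_lit 0, nat_lit 0, nat_lit 0, nat_lit 0, nat_lit 0, [],
 C1.Rw.none, C1.Rw.none,
 zbF0, []⟩
noncomputable def p050_l37 : Lf2 := ⟨nat_lit 0, nat_lit 15, [nat_lit 30, nat_lit 5, nat_lit 5, nat_lit 20], false, nat_lit 0, nat_lit 320, nat_lit 0, nat_lit 320, ⟨nat_lit 1000, nat_lit 0, nat_lit 0, nat_lit 0, nat_lit 0, nat_lit 0, nat_lit 0, nat_lit 0, nat_lit 0, nat_lit 0, nat_lit 0, nat_lit 0, nat_lit 0, nat_lit 0, nat_lit 0, nat_lit 0, false, false⟩,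
 nat_lit 0, nat_lit 0, nat_lit 13484, nat_lit 0, nat_lit 6906, nat_lit 7848, nat_lit 1075, nat_lit 0, nat_lit 0, nat_lit 937, nat_lit 0, nat_lit 0, nat_lit 0, nat_lit 0, nat_lit 0, nat_lit 0, nat_lit 0, nat_lit 0, [],
 ⟨p050_k0, nat_lit 0, nat_lit 0, nat_lit 250, nat_lit 0, nat_lit 0, [nat_lit 4688000000, nat_lit 7968000001, nat_lit 11872000000], [], [nat_lit 26876413317, nat_lit 27957485793, nat_lit 37135692433, nat_lit 38089262096, nat_lit 26654031053, nat_lit 27229399665, nat_lit 33920801808, nat_lit 34465498400], nat_lit 0, nat_lit 0, nat_lit 0, nat_lit 0, nat_lit 0, nat_lit 0, [], [nat_lit 21, nat_lit 40, nat_lit 40, nat_lit 80, nat_lit 14, nat_lit 483, nat_lit 250, nat_lit 12]⟩, ⟨p050_k0, nat_lit 0, nat_lit 0, nat_lit 349, nat_lit 0, nat_lit 182418, [nat_lit 4688000000, nat_lit 7968000000, nat_lit 11872000000], [], [nat_lit 30227671315, nat_lit 31016892131, nat_lit 39509588992, nat_lit 40554114368,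 nat_lit 27804865027, nat_lit 28182292224, nat_lit 34974681264, nat_lit 35526567200], nat_lit 1271250, nat_lit 1271250, nat_lit 1271250, nat_lit 1271250, nat_lit 0, nat_lit 2260000, [nat_lit 1100000, nat_lit 1785000, nat_lit 1271250], [nat_lit 21, nat_lit 40, nat_lit 40, nat_lit 80, nat_lit 14, nat_lit 483, nat_lit 250, nat_lit 12]⟩,
 zbF0, [⟨nat_lit 16, nat_lit 100, nat_lit 97, nat_lit 76, nat_lit 169547348⟩, ⟨nat_lit 7, nat_lit 97, nat_lit 100, nat_lit 76, nat_lit 140681581⟩]⟩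
noncomputable def b_V_600_600_10_80 : St := ⟨true, nat_lit 0, nat_lit 2, nat_lit 2, nat_lit 80, nat_lit 240, nat_lit 280, nat_lit 240, nat_lit 280, nat_lit 16, nat_lit 400, nat_lit 40, nat_lit 80, nat_lit 0, nat_lit 336, nat_lit 0, nat_lit 336, nat_lit 40, nat_lit 60, nat_lit 0, nat_lit 0, nat_lit 0, nat_lit 0⟩
theorem d_V_600_600_10_80 (h : EB TB.env) : Dead b_V_600_600_10_80 := chkB_sound0 h (T :=
(.st (nat_lit 1)
(.spl (nat_lit 2) (nat_lit 240)
(.spl (nat_lit 0) (nat_lit 260)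
(.ord (.leaf p050_l31))
(.trZ (nat_lit 0) (nat_lit 100) (nat_lit 97) (nat_lit 49) (nat_lit 24) (.trX (nat_lit 16) (nat_lit 100) (nat_lit 85) (nat_lit 84) (nat_lit 320) (.leaf p050_l32))))
(.leaf p050_l33))
(.spl (nat_lit 2) (nat_lit 240)
(.spl (nat_lit 0) (nat_lit 260)
(.ord (.leaf p050_l34))
(.trZ (nat_lit 0) (nat_lit 100) (nat_lit 97) (nat_lit 49) (nat_lit 24) (.trX (nat_lit 16) (nat_lit 100) (nat_lit 85) (nat_lit 84) (nat_lit 320) (.leaf p050_l35))))
(.spl (nat_lit 1) (nat_lit 260)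
(.leaf p050_l36)
(.ord (.trX (nat_lit 16) (nat_lit 100) (nat_lit 85) (nat_lit 84) (nat_lit 320) (.trX (nat_lit 19) (nat_lit 100) (nat_lit 85) (nat_lit 84) (nat_lit 320) (.leaf p050_l37)))))))) (by decide +kernel)
noncomputable def p050_l38 : Lf2 := ⟨nat_lit 1, nat_lit 15, [nat_lit 30, nat_lit 5, nat_lit 5, nat_lit 20], false, nat_lit 0, nat_lit 160, nat_lit 0, nat_lit 336, zbN0,
 nat_lit 0, nat_lit 0, nat_lit 0, nat_lit 0, nat_lit 0, nat_lit 0, nat_lit 0, nat_lit 0, nat_lit 0, nat_lit 0, nat_lit 0, nat_lit 0, nat_lit 0, nat_lit 0, nat_lit 0, nat_lit 0, nat_lit 0, nat_lit 0, [],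
 C1.Rw.none, C1.Rw.none,
 zbF0, []⟩
noncomputable def p050_l39 : Lf2 := ⟨nat_lit 1, nat_lit 15, [nat_lit 30, nat_lit 5, nat_lit 5, nat_lit 20], false, nat_lit 0, nat_lit 40, nat_lit 0, nat_lit 320, zbN0,
 nat_lit 0, nat_lit 0, nat_lit 0, nat_lit 0, nat_lit 0, nat_lit 0, nat_lit 0, nat_lit 0, nat_lit 0, nat_lit 0, nat_lit 0, nat_lit 0, nat_lit 0, nat_lit 0, nat_lit 0, nat_lit 0, nat_lit 0, nat_lit 0, [],
 C1.Rw.none, C1.Rw.none,
 zbF0, []⟩
noncomputable def p050_l40 : Lf2 := ⟨nat_lit 0, nat_lit 12, [nat_lit 126, nat_lit 5, nat_lit 5, nat_lit 20], true, nat_lit 0, nat_lit 40, nat_lit 0, nat_lit 320, ⟨nat_lit 0, nat_lit 0, nat_lit 1000, nat_lit 6, nat_lit 122, nat_lit 0, nat_lit 9, nat_lit 0, nat_lit 67, nat_lit 217, nat_lit 141067, nat_lit 307, nat_lit 61294712, nat_lit 0, nat_lit 0, nat_lit 1455892, false, false⟩,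
 nat_lit 0, nat_lit 6712, nat_lit 0, nat_lit 1806, nat_lit 4087, nat_lit 0, nat_lit 0, nat_lit 0, nat_lit 0, nat_lit 0, nat_lit 0, nat_lit 0, nat_lit 0, nat_lit 18725822161233, nat_lit 159, nat_lit 856000, nat_lit 0, nat_lit 0, [(nat_lit 10, [(nat_lit 5, nat_lit 240), (nat_lit 6, nat_lit 760)])],
 ⟨p050_k6, nat_lit 0, nat_lit 0, nat_lit 237, nat_lit 0, nat_lit 37337, [nat_lit 3746688001, nat_lit 2748698667, nat_lit 27621333], [], [nat_lit 13720527881, nat_lit 14053403849, nat_lit 13025900260, nat_lit 13349081817, nat_lit 12530227186, nat_lit 12856136831, nat_lit 12142295238, nat_lit 12458104519], nat_lit 1271250, nat_lit 1271250, nat_lit 230001, nat_lit 490000, nat_lit 0, nat_lit 230001, [nat_lit 1100000, nat_lit 1442500, nat_lit 1271250], [nat_lit 11, nat_lit 40, nat_lit 40, nat_lit 80, nat_lit 1, nat_lit 317, nat_lit 100, nat_lit 9]⟩, C1.Rw.none,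
 ⟨nat_lit 5590, nat_lit 5701, ⟨.ofNat (nat_lit 257148), .ofNat (nat_lit 333867), .ofNat (nat_lit 273155), .ofNat (nat_lit 349874), .ofNat (nat_lit 260751), .ofNat (nat_lit 336574), .ofNat (nat_lit 276762), .ofNat (nat_lit 352585)⟩, ⟨.negSucc (nat_lit 54331), .ofNat (nat_lit 22387), .negSucc (nat_lit 11648), .ofNat (nat_lit 65071), .negSucc (nat_lit 49897), .ofNat (nat_lit 25924), .negSucc (nat_lit 7202), .ofNat (nat_lit 68620)⟩⟩, [⟨nat_lit 0, nat_lit 100, nat_lit 100, nat_lit 75, nat_lit 201070235⟩]⟩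
noncomputable def p050_l41 : Lf2 := ⟨nat_lit 1, nat_lit 15, [nat_lit 30, nat_lit 5, nat_lit 5, nat_lit 20], false, nat_lit 0, nat_lit 40, nat_lit 0, nat_lit 320, zbN0,
 nat_lit 0, nat_lit 0, nat_lit 0, nat_lit 0, nat_lit 0, nat_lit 0, nat_lit 0, nat_lit 0, nat_lit 0, nat_lit 0, nat_lit 0, nat_lit 0, nat_lit 0, nat_lit 0, nat_lit 0, nat_lit 0, nat_lit 0, nat_lit 0, [],
 C1.Rw.none, C1.Rw.none,
 zbF0, []⟩
noncomputable def p050_l42 : Lf2 := ⟨nat_lit 0, nat_lit 15, [nat_lit 30, nat_lit 5, nat_lit 5, nat_lit 20], false, nat_lit 0, nat_lit 40, nat_lit 0, nat_lit 320, ⟨nat_lit 185, nat_lit 0, nat_lit 815, nat_lit 6, nat_lit 126, nat_lit 0, nat_lit 10, nat_lit 0, nat_lit 150, nat_lit 218, nat_lit 147267, nat_lit 309, nat_lit 60963257, nat_lit 0, nat_lit 0, nat_lit 1513849, false, false⟩,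
 nat_lit 0, nat_lit 7684, nat_lit 0, nat_lit 4194, nat_lit 4784, nat_lit 1320, nat_lit 642, nat_lit 0, nat_lit 0, nat_lit 231, nat_lit 0, nat_lit 0, nat_lit 0, nat_lit 12147334133544, nat_lit 1, nat_lit 326000, nat_lit 0, nat_lit 0, [(nat_lit 10, [(nat_lit 5, nat_lit 815)])],
 ⟨p050_k7, nat_lit 0, nat_lit 0, nat_lit 295, nat_lit 0, nat_lit 94023, [nat_lit 2142944000, nat_lit 438580000, nat_lit 52836000], [], [nat_lit 15019252008, nat_lit 15383241968, nat_lit 14211390224, nat_lit 14510539670, nat_lit 13662191310, nat_lit 13961292425, nat_lit 13171990778, nat_lit 13555064464], nat_lit 1271250, nat_lit 1271250, nat_lit 254650, nat_lit 490000, nat_lit 0, nat_lit 230001, [nat_lit 1100000, nat_lit 1785000, nat_lit 1271250], [nat_lit 29, nat_lit 40, nat_lit 40, nat_lit 80, nat_lit 17, nat_lit 317, nat_lit 100, nat_lit 9]⟩, ⟨p050_k0, nat_lit 0, nat_lit 0, nat_lit 332, nat_lit 0, nat_lit 0, [nat_lit 867280000, nat_lit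 1474080000, nat_lit 2196320000], [], [nat_lit 4660903308, nat_lit 4943777030, nat_lit 4343663145, nat_lit 4619188825, nat_lit 4936510752, nat_lit 5088897715, nat_lit 4655961015, nat_lit 4805405980], nat_lit 0, nat_lit 0, nat_lit 0, nat_lit 0, nat_lit 0, nat_lit 0, [], [nat_lit 21, nat_lit 40, nat_lit 40, nat_lit 80, nat_lit 14, nat_lit 401, nat_lit 175, nat_lit 11]⟩,
 ⟨nat_lit 5477, nat_lit 5591, ⟨.ofNat (nat_lit 268334), .ofNat (nat_lit 336574), .ofNat (nat_lit 289681), .ofNat (nat_lit 357922), .ofNat (nat_lit 271831), .ofNat (nat_lit 339271), .ofNat (nat_lit 293188), .ofNat (nat_lit 360628)⟩, ⟨.negSucc (nat_lit 49897), .ofNat (nat_lit 25924), .negSucc (nat_lit 7202), .ofNat (nat_lit 68620), .negSucc (nat_lit 45522), .ofNat (nat_lit 29410), .negSucc (nat_lit 2808), .ofNat (nat_lit 72124)⟩⟩, [⟨nat_lit 0, nat_lit 100, nat_lit 100, nat_lit 80, nat_lit 370241877⟩, ⟨nat_lit 7, nat_lit 97, nat_lit 100, nat_lit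 76, nat_lit 48323403⟩]⟩
noncomputable def p050_l43 : Lf2 := ⟨nat_lit 1, nat_lit 15, [nat_lit 30, nat_lit 5, nat_lit 5, nat_lit 20], false, nat_lit 40, nat_lit 80, nat_lit 0, nat_lit 320, zbN0,
 nat_lit 0, nat_lit 0, nat_lit 0, nat_lit 0, nat_lit 0, nat_lit 0, nat_lit 0, nat_lit 0, nat_lit 0, nat_lit 0, nat_lit 0, nat_lit 0, nat_lit 0, nat_lit 0, nat_lit 0, nat_lit 0, nat_lit 0, nat_lit 0, [],
 C1.Rw.none, C1.Rw.none,
 zbF0, []⟩
noncomputable def p050_l44 : Lf2 := ⟨nat_lit 0, nat_lit 15, [nat_lit 30, nat_lit 5, nat_lit 5, nat_lit 20], false, nat_lit 40, nat_lit 80, nat_lit 0, nat_lit 320, ⟨nat_lit 770, nat_lit 0, nat_lit 230, nat_lit 6, nat_lit 124, nat_lit 230, nat_lit 34, nat_lit 230, nat_lit 11267, nat_lit 241, nat_lit 144150, nat_lit 308, nat_lit 60163712, nat_lit 0, nat_lit 0, nat_lit 1900499, false, false⟩,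
 nat_lit 0, nat_lit 12134, nat_lit 0, nat_lit 14660, nat_lit 7389, nat_lit 5478, nat_lit 1618, nat_lit 0, nat_lit 0, nat_lit 960, nat_lit 0, nat_lit 0, nat_lit 0, nat_lit 0, nat_lit 0, nat_lit 92000, nat_lit 0, nat_lit 0, [(nat_lit 10, [(nat_lit 5, nat_lit 230)])],
 ⟨p050_k1, nat_lit 0, nat_lit 0, nat_lit 335, nat_lit 0, nat_lit 96663, [nat_lit 3965248000, nat_lit 5836360000, nat_lit 8551812000], [], [nat_lit 16185504100, nat_lit 16952695482, nat_lit 14344590768, nat_lit 15091194954, nat_lit 13417295130, nat_lit 14243924852, nat_lit 12347923880, nat_lit 13140275088], nat_lit 1271250, nat_lit 1271250, nat_lit 230001, nat_lit 490000, nat_lit 230001, nat_lit 490000, [nat_lit 1100000, nat_lit 1785000, nat_lit 1271250], [nat_lit 21, nat_lit 40, nat_lit 40, nat_lit 80, nat_lit 14, nat_lit 345, nat_lit 125, nat_lit 9]⟩, ⟨p050_k0, nat_lit 0, nat_lit 0, nat_lit 335, nat_lit 0, nat_lit 0, [nat_lit 3609760000, nat_lit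 6135360000, nat_lit 9141440000], [], [nat_lit 19542486416, nat_lit 20721318224, nat_lit 18081299568, nat_lit 19226219344, nat_lit 20686208820, nat_lit 21321879856, nat_lit 19394022012, nat_lit 20012804416], nat_lit 0, nat_lit 0, nat_lit 0, nat_lit 0, nat_lit 0, nat_lit 0, [], [nat_lit 21, nat_lit 40, nat_lit 40, nat_lit 80, nat_lit 14, nat_lit 401, nat_lit 175, nat_lit 11]⟩,
 ⟨nat_lit 5477, nat_lit 5701, ⟨.ofNat (nat_lit 257148), .ofNat (nat_lit 333867), .ofNat (nat_lit 278490), .ofNat (nat_lit 355209), .ofNat (nat_lit 264337), .ofNat (nat_lit 339271), .ofNat (nat_lit 285695), .ofNat (nat_lit 360628)⟩, ⟨.ofNat (nat_lit 22387), .ofNat (nat_lit 99106), .ofNat (nat_lit 65071), .ofNat (nat_lit 141790), .ofNat (nat_lit 29410), .ofNat (nat_lit 104343), .ofNat (nat_lit 72124), .ofNat (nat_lit 147057)⟩⟩, [⟨nat_lit 0, nat_lit 100, nat_lit 100, nat_lit 80, nat_lit 919708201⟩, ⟨nat_lit 7, nat_lit 97, nat_lit 100, nat_lit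 76, nat_lit 200185035⟩]⟩
noncomputable def p050_l45 : Lf2 := ⟨nat_lit 0, nat_lit 15, [nat_lit 30, nat_lit 5, nat_lit 5, nat_lit 20], false, nat_lit 0, nat_lit 80, nat_lit 0, nat_lit 160, ⟨nat_lit 1000, nat_lit 0, nat_lit 0, nat_lit 0, nat_lit 0, nat_lit 0, nat_lit 0, nat_lit 0, nat_lit 0, nat_lit 0, nat_lit 0, nat_lit 0, nat_lit 0, nat_lit 0, nat_lit 0, nat_lit 0, false, false⟩,
 nat_lit 0, nat_lit 11275, nat_lit 0, nat_lit 6866, nat_lit 6562, nat_lit 8120, nat_lit 624, nat_lit 0, nat_lit 0, nat_lit 1874, nat_lit 0, nat_lit 0, nat_lit 0, nat_lit 24705966273212, nat_lit 0, nat_lit 0, nat_lit 0, nat_lit 0, [],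
 ⟨p050_k0, nat_lit 0, nat_lit 0, nat_lit 375, nat_lit 0, nat_lit 182418, [nat_lit 4688000000, nat_lit 7968000001, nat_lit 11872000000], [], [nat_lit 38156271325, nat_lit 34686692569, nat_lit 33477129529, nat_lit 34225737865, nat_lit 30690668645, nat_lit 31489292049, nat_lit 31793718749, nat_lit 31103913521], nat_lit 1271250, nat_lit 1271250, nat_lit 490000, nat_lit 1100001, nat_lit 0, nat_lit 490000, [nat_lit 1100000, nat_lit 1785000, nat_lit 1271250], [nat_lit 21, nat_lit 40, nat_lit 40, nat_lit 80, nat_lit 14, nat_lit 373, nat_lit 150, nat_lit 10]⟩, ⟨p050_k0, nat_lit 0, nat_lit 0, nat_lit 235, nat_lit 0, nat_lit 0, [nat_lit 4688000000, nat_lit 7968000000, nat_lit 11872000000], [], [nat_lit 19025042470, nat_lit 20631182880, nat_lit 18710800800, nat_lit 20604092320, nat_lit 14472153680, nat_lit 15943270080, nat_lit 14712813840, nat_lit 16000388480], nat_lit 0, nat_lit 0, nat_lit 0, nat_lit 0, nat_lit 0,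 nat_lit 0, [], [nat_lit 21, nat_lit 40, nat_lit 40, nat_lit 80, nat_lit 14, nat_lit 373, nat_lit 150, nat_lit 10]⟩,
 zbF0, []⟩
noncomputable def p050_l46 : Lf2 := ⟨nat_lit 0, nat_lit 15, [nat_lit 30, nat_lit 5, nat_lit 5, nat_lit 20], false, nat_lit 0, nat_lit 80, nat_lit 160, nat_lit 320, ⟨nat_lit 1000, nat_lit 0, nat_lit 0, nat_lit 0, nat_lit 0, nat_lit 0, nat_lit 0, nat_lit 0, nat_lit 0, nat_lit 0, nat_lit 0, nat_lit 0, nat_lit 0, nat_lit 0, nat_lit 0, nat_lit 0, false, false⟩,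
 nat_lit 0, nat_lit 7802, nat_lit 0, nat_lit 11787, nat_lit 4541, nat_lit 6741, nat_lit 1137, nat_lit 0, nat_lit 0, nat_lit 0, nat_lit 0, nat_lit 0, nat_lit 0, nat_lit 10384180890848, nat_lit 0, nat_lit 0, nat_lit 0, nat_lit 0, [],
 ⟨p050_k0, nat_lit 0, nat_lit 0, nat_lit 375, nat_lit 0, nat_lit 182418, [nat_lit 4688000000, nat_lit 7968000001, nat_lit 11872000000], [], [nat_lit 35298720183, nat_lit 32897720925, nat_lit 32203534208, nat_lit 33032566906, nat_lit 30157221318, nat_lit 30867321418, nat_lit 34022717415, nat_lit 31882970969], nat_lit 1271250, nat_lit 1271250, nat_lit 490000, nat_lit 1100001, nat_lit 0, nat_lit 490000, [nat_lit 1100000, nat_lit 1785000, nat_lit 1271250], [nat_lit 21, nat_lit 40, nat_lit 40, nat_lit 80, nat_lit 14, nat_lit 373, nat_lit 150, nat_lit 10]⟩, ⟨p050_k0, nat_lit 0, nat_lit 0, nat_lit 75, nat_lit 0, nat_lit 0, [nat_lit 4688000000, nat_lit 7968000000, nat_lit 11872000000],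 [], [nat_lit 10592302438, nat_lit 12521924576, nat_lit 11728977752, nat_lit 13429888936, nat_lit 21430542010, nat_lit 22873541908, nat_lit 21293677542, nat_lit 22389117116], nat_lit 0, nat_lit 0, nat_lit 0, nat_lit 0, nat_lit 0, nat_lit 0, [], [nat_lit 21, nat_lit 40, nat_lit 40, nat_lit 80, nat_lit 14, nat_lit 428, nat_lit 200, nat_lit 11]⟩,
 zbF0, [⟨nat_lit 7, nat_lit 97, nat_lit 100, nat_lit 76, nat_lit 721078209⟩]⟩
noncomputable def p050_l47 : Lf2 := ⟨nat_lit 0, nat_lit 15, [nat_lit 30, nat_lit 5, nat_lit 5, nat_lit 20], true, nat_lit 80, nat_lit 160, nat_lit 0, nat_lit 320, ⟨nat_lit 0, nat_lit 0, nat_lit 1000, nat_lit 6, nat_lit 121, nat_lit 1000, nat_lit 79, nat_lit 1000, nat_lit 58017, nat_lit 274, nat_lit 138017, nat_lit 306, nat_lit 57907490, nat_lit 0, nat_lit 0, nat_lit 2559374, false, false⟩,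
 nat_lit 0, nat_lit 7998, nat_lit 0, nat_lit 1151, nat_lit 4655, nat_lit 0, nat_lit 0, nat_lit 0, nat_lit 0, nat_lit 0, nat_lit 0, nat_lit 0, nat_lit 0, nat_lit 3992844428845, nat_lit 236, nat_lit 1000000, nat_lit 0, nat_lit 0, [(nat_lit 10, [(nat_lit 6, nat_lit 1000)])],
 ⟨p050_k2, nat_lit 0, nat_lit 0, nat_lit 216, nat_lit 0, nat_lit 102329, [nat_lit 4870400000, nat_lit 4314200001, nat_lit 184520000], [], [nat_lit 10989986798, nat_lit 12180541550, nat_lit 10030708780, nat_lit 11183487340, nat_lit 11438021830, nat_lit 12519299800, nat_lit 10717150461, nat_lit 11921808181], nat_lit 1271250, nat_lit 1271250, nat_lit 205650, nat_lit 490000, nat_lit 490000, nat_lit 1100001, [nat_lit 1100000, nat_lit 1442500, nat_lit 1271250], [nat_lit 48, nat_lit 40, nat_lit 40, nat_lit 80, nat_lit 12, nat_lit 373, nat_lit 150, nat_lit 10]⟩, C1.Rw.none,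
 ⟨nat_lit 5477, nat_lit 5917, ⟨.ofNat (nat_lit 242029), .ofNat (nat_lit 328416), .ofNat (nat_lit 263368), .ofNat (nat_lit 349755), .ofNat (nat_lit 256844), .ofNat (nat_lit 339271), .ofNat (nat_lit 278201), .ofNat (nat_lit 360628)⟩, ⟨.ofNat (nat_lit 93684), .ofNat (nat_lit 250751), .ofNat (nat_lit 136362), .ofNat (nat_lit 293429), .ofNat (nat_lit 104343), .ofNat (nat_lit 254209), .ofNat (nat_lit 147057), .ofNat (nat_lit 296923)⟩⟩, [⟨nat_lit 0, nat_lit 100, nat_lit 100, nat_lit 80, nat_lit 223483685⟩]⟩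
noncomputable def p050_l48 : Lf2 := ⟨nat_lit 0, nat_lit 15, [nat_lit 30, nat_lit 5, nat_lit 5, nat_lit 20], true, nat_lit 80, nat_lit 160, nat_lit 0, nat_lit 320, ⟨nat_lit 0, nat_lit 0, nat_lit 1000, nat_lit 6, nat_lit 168, nat_lit 1000, nat_lit 79, nat_lit 1000, nat_lit 58017, nat_lit 274, nat_lit 25370, nat_lit 254, nat_lit 53611561, nat_lit 0, nat_lit 0, nat_lit 3217087, false, false⟩,
 nat_lit 0, nat_lit 8342, nat_lit 0, nat_lit 0, nat_lit 4855, nat_lit 0, nat_lit 78, nat_lit 0, nat_lit 0, nat_lit 0, nat_lit 0, nat_lit 0, nat_lit 0, nat_lit 32573160913073, nat_lit 236, nat_lit 1000000, nat_lit 0, nat_lit 0, [(nat_lit 10, [(nat_lit 6, nat_lit 1000)])],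
 ⟨p050_k2, nat_lit 0, nat_lit 0, nat_lit 213, nat_lit 0, nat_lit 182418, [nat_lit 4870400000, nat_lit 4314200001, nat_lit 184520000], [], [nat_lit 9542202730, nat_lit 10717051690, nat_lit 10225383111, nat_lit 11454765631, nat_lit 10225383111, nat_lit 11454765631, nat_lit 13217873441, nat_lit 12620078000], nat_lit 1271250, nat_lit 1271250, nat_lit 490000, nat_lit 1100001, nat_lit 490000, nat_lit 1100001, [nat_lit 1100000, nat_lit 1442500, nat_lit 1271250], [nat_lit 48, nat_lit 40, nat_lit 40, nat_lit 80, nat_lit 12, nat_lit 373, nat_lit 150, nat_lit 10]⟩, C1.Rw.none,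
 ⟨nat_lit 5477, nat_lit 5917, ⟨.ofNat (nat_lit 328416), .ofNat (nat_lit 485478), .ofNat (nat_lit 349755), .ofNat (nat_lit 506809), .ofNat (nat_lit 339271), .ofNat (nat_lit 489132), .ofNat (nat_lit 360628), .ofNat (nat_lit 510480)⟩, ⟨.ofNat (nat_lit 93684), .ofNat (nat_lit 250751), .ofNat (nat_lit 136362), .ofNat (nat_lit 293429), .ofNat (nat_lit 104343), .ofNat (nat_lit 254209), .ofNat (nat_lit 147057), .ofNat (nat_lit 296923)⟩⟩, []⟩
noncomputable def p050_l49 : Lf2 := ⟨nat_lit 1, nat_lit 15, [nat_lit 30, nat_lit 5, nat_lit 5, nat_lit 20], false, nat_lit 0, nat_lit 160, nat_lit 0, nat_lit 336, zbN0,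
 nat_lit 0, nat_lit 0, nat_lit 0, nat_lit 0, nat_lit 0, nat_lit 0, nat_lit 0, nat_lit 0, nat_lit 0, nat_lit 0, nat_lit 0, nat_lit 0, nat_lit 0, nat_lit 0, nat_lit 0, nat_lit 0, nat_lit 0, nat_lit 0, [],
 C1.Rw.none, C1.Rw.none,
 zbF0, []⟩
noncomputable def p050_l50 : Lf2 := ⟨nat_lit 0, nat_lit 15, [nat_lit 30, nat_lit 5, nat_lit 5, nat_lit 20], false, nat_lit 0, nat_lit 160, nat_lit 0, nat_lit 336, ⟨nat_lit 1000, nat_lit 0, nat_lit 0, nat_lit 0, nat_lit 0, nat_lit 0, nat_lit 0, nat_lit 0, nat_lit 0, nat_lit 0, nat_lit 0, nat_lit 0, nat_lit 0, nat_lit 0, nat_lit 0, nat_lit 0, false, false⟩,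
 nat_lit 0, nat_lit 12215, nat_lit 0, nat_lit 3371, nat_lit 7110, nat_lit 10818, nat_lit 212, nat_lit 0, nat_lit 0, nat_lit 1201, nat_lit 0, nat_lit 0, nat_lit 0, nat_lit 10188077310858, nat_lit 0, nat_lit 0, nat_lit 0, nat_lit 0, [],
 ⟨p050_k0, nat_lit 0, nat_lit 0, nat_lit 338, nat_lit 0, nat_lit 182418, [nat_lit 4688000000, nat_lit 7968000001, nat_lit 11872000000], [], [nat_lit 36451187220, nat_lit 32691860040, nat_lit 33892658520, nat_lit 34988387580, nat_lit 27072341120, nat_lit 28002881300, nat_lit 33277401941, nat_lit 29927127281], nat_lit 1271250, nat_lit 1271250, nat_lit 1100001, nat_lit 1785000, nat_lit 0, nat_lit 1100001, [nat_lit 1100000, nat_lit 1785000, nat_lit 1271250], [nat_lit 21, nat_lit 40, nat_lit 40, nat_lit 80, nat_lit 14, nat_lit 401, nat_lit 175, nat_lit 10]⟩, ⟨p050_k5, nat_lit 0, nat_lit 0, nat_lit 200, nat_lit 0, nat_lit 0, [nat_lit 4688000000, nat_lit 7968000000, nat_lit 11872000000],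 [], [nat_lit 24386059940, nat_lit 27763362068, nat_lit 27443011748, nat_lit 30167279804, nat_lit 24568234147, nat_lit 26058660403, nat_lit 25602138821, nat_lit 28122381125], nat_lit 0, nat_lit 0, nat_lit 0, nat_lit 0, nat_lit 0, nat_lit 0, [], [nat_lit 21, nat_lit 40, nat_lit 40, nat_lit 80, nat_lit 14, nat_lit 456, nat_lit 225, nat_lit 12]⟩,
 zbF0, [⟨nat_lit 7, nat_lit 92, nat_lit 100, nat_lit 75, nat_lit 218706945⟩]⟩
noncomputable def p050_l51 : Lf2 := ⟨nat_lit 1, nat_lit 15, [nat_lit 30, nat_lit 5, nat_lit 5, nat_lit 20], false, nat_lit 160, nat_lit 336, nat_lit 0, nat_lit 336, zbN0,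
 nat_lit 0, nat_lit 0, nat_lit 0, nat_lit 0, nat_lit 0, nat_lit 0, nat_lit 0, nat_lit 0, nat_lit 0, nat_lit 0, nat_lit 0, nat_lit 0, nat_lit 0, nat_lit 0, nat_lit 0, nat_lit 0, nat_lit 0, nat_lit 0, [],
 C1.Rw.none, C1.Rw.none,
 zbF0, []⟩
noncomputable def p050_l52 : Lf2 := ⟨nat_lit 0, nat_lit 15, [nat_lit 30, nat_lit 5, nat_lit 5, nat_lit 20], true, nat_lit 160, nat_lit 240, nat_lit 0, nat_lit 296, ⟨nat_lit 0, nat_lit 0, nat_lit 1000, nat_lit 6, nat_lit 119, nat_lit 1000, nat_lit 136, nat_lit 1000, nat_lit 173400, nat_lit 317, nat_lit 132017, nat_lit 304, nat_lit 53752212, nat_lit 0, nat_lit 0, nat_lit 3374860, false, false⟩,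
 nat_lit 0, nat_lit 8940, nat_lit 0, nat_lit 533, nat_lit 5203, nat_lit 0, nat_lit 0, nat_lit 0, nat_lit 0, nat_lit 0, nat_lit 0, nat_lit 0, nat_lit 0, nat_lit 0, nat_lit 168, nat_lit 736600, nat_lit 0, nat_lit 0, [(nat_lit 10, [(nat_lit 5, nat_lit 439), (nat_lit 6, nat_lit 561)])],
 ⟨p050_k2, nat_lit 0, nat_lit 0, nat_lit 169, nat_lit 0, nat_lit 42262, [nat_lit 3980476801, nat_lit 3041736601, nat_lit 25725000], [], [nat_lit 13344369718, nat_lit 14470289602, nat_lit 12255684830, nat_lit 13343128224, nat_lit 15784307104, nat_lit 16879116580, nat_lit 14745033712, nat_lit 15578734372], nat_lit 1271250, nat_lit 1271250, nat_lit 205650, nat_lit 490000, nat_lit 1100001, nat_lit 1785000, [nat_lit 1100000, nat_lit 1442500, nat_lit 1271250], [nat_lit 48, nat_lit 40, nat_lit 40, nat_lit 80, nat_lit 12, nat_lit 373, nat_lit 150, nat_lit 9]⟩, C1.Rw.none,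
 ⟨nat_lit 5477, nat_lit 5917, ⟨.ofNat (nat_lit 242029), .ofNat (nat_lit 328416), .ofNat (nat_lit 252698), .ofNat (nat_lit 339085), .ofNat (nat_lit 256844), .ofNat (nat_lit 339271), .ofNat (nat_lit 267523), .ofNat (nat_lit 349949)⟩, ⟨.ofNat (nat_lit 250751), .ofNat (nat_lit 407818), .ofNat (nat_lit 272090), .ofNat (nat_lit 429157), .ofNat (nat_lit 254209), .ofNat (nat_lit 404075), .ofNat (nat_lit 275566), .ofNat (nat_lit 425432)⟩⟩, [⟨nat_lit 0, nat_lit 100, nat_lit 98, nat_lit 74, nat_lit 253686430⟩]⟩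
noncomputable def p050_l53 : Lf2 := ⟨nat_lit 0, nat_lit 15, [nat_lit 30, nat_lit 5, nat_lit 5, nat_lit 20], true, nat_lit 160, nat_lit 240, nat_lit 0, nat_lit 288, ⟨nat_lit 0, nat_lit 0, nat_lit 1000, nat_lit 6, nat_lit 127, nat_lit 1000, nat_lit 136, nat_lit 1000, nat_lit 173400, nat_lit 317, nat_lit 150417, nat_lit 310, nat_lit 53093218, nat_lit 0, nat_lit 0, nat_lit 3490858, false, false⟩,
 nat_lit 0, nat_lit 7331, nat_lit 0, nat_lit 0, nat_lit 4464, nat_lit 0, nat_lit 0, nat_lit 0, nat_lit 0, nat_lit 0, nat_lit 0, nat_lit 0, nat_lit 0, nat_lit 21448352928227, nat_lit 81, nat_lit 400000, nat_lit 0, nat_lit 0, [(nat_lit 10, [(nat_lit 5, nat_lit 1000)])],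
 ⟨p050_k1, nat_lit 0, nat_lit 0, nat_lit 153, nat_lit 0, nat_lit 38711, [nat_lit 2841600000, nat_lit 644000001, nat_lit 28400000], [], [nat_lit 11729881154, nat_lit 12122142081, nat_lit 11432815528, nat_lit 11813428916, nat_lit 15431048972, nat_lit 15761500976, nat_lit 15051932632, nat_lit 15372876476], nat_lit 1271250, nat_lit 1271250, nat_lit 279600, nat_lit 490000, nat_lit 1100001, nat_lit 1785000, [nat_lit 1100000, nat_lit 1785000, nat_lit 1271250], [nat_lit 21, nat_lit 40, nat_lit 40, nat_lit 80, nat_lit 14, nat_lit 373, nat_lit 150, nat_lit 9]⟩, C1.Rw.none,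
 ⟨nat_lit 5590, nat_lit 5701, ⟨.ofNat (nat_lit 283163), .ofNat (nat_lit 344538), .ofNat (nat_lit 288499), .ofNat (nat_lit 349874), .ofNat (nat_lit 286590), .ofNat (nat_lit 347248), .ofNat (nat_lit 291927), .ofNat (nat_lit 352585)⟩, ⟨.ofNat (nat_lit 252544), .ofNat (nat_lit 405982), .ofNat (nat_lit 273886), .ofNat (nat_lit 427324), .ofNat (nat_lit 253393), .ofNat (nat_lit 405038), .ofNat (nat_lit 274740), .ofNat (nat_lit 426386)⟩⟩, [⟨nat_lit 0, nat_lit 100, nat_lit 100, nat_lit 75, nat_lit 175235926⟩]⟩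
noncomputable def p050_l54 : Lf2 := ⟨nat_lit 0, nat_lit 15, [nat_lit 30, nat_lit 5, nat_lit 5, nat_lit 20], true, nat_lit 160, nat_lit 240, nat_lit 0, nat_lit 288, ⟨nat_lit 0, nat_lit 0, nat_lit 1000, nat_lit 6, nat_lit 131, nat_lit 1000, nat_lit 136, nat_lit 1000, nat_lit 173400, nat_lit 317, nat_lit 160067, nat_lit 313, nat_lit 52793372, nat_lit 0, nat_lit 0, nat_lit 3541495, false, false⟩,
 nat_lit 0, nat_lit 7127, nat_lit 0, nat_lit 0, nat_lit 4437, nat_lit 0, nat_lit 0, nat_lit 0, nat_lit 0, nat_lit 0, nat_lit 0, nat_lit 0, nat_lit 0, nat_lit 22358593815204, nat_lit 79, nat_lit 400000, nat_lit 0, nat_lit 0, [(nat_lit 10, [(nat_lit 5, nat_lit 1000)])],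
 ⟨p050_k7, nat_lit 0, nat_lit 0, nat_lit 153, nat_lit 0, nat_lit 88910, [nat_lit 2809600000, nat_lit 596000000, nat_lit 8400000], [], [nat_lit 12113018325, nat_lit 12502573461, nat_lit 11848009666, nat_lit 12227416032, nat_lit 15735122173, nat_lit 16063418895, nat_lit 15400420958, nat_lit 15720432060], nat_lit 1271250, nat_lit 1271250, nat_lit 304850, nat_lit 490000, nat_lit 1100001, nat_lit 1785000, [nat_lit 1100000, nat_lit 1785000, nat_lit 1271250], [nat_lit 29, nat_lit 40, nat_lit 40, nat_lit 80, nat_lit 17, nat_lit 373, nat_lit 150, nat_lit 10]⟩, C1.Rw.none,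
 ⟨nat_lit 5477, nat_lit 5591, ⟨.ofNat (nat_lit 294172), .ofNat (nat_lit 347248), .ofNat (nat_lit 304846), .ofNat (nat_lit 357922), .ofNat (nat_lit 297496), .ofNat (nat_lit 349949), .ofNat (nat_lit 308174), .ofNat (nat_lit 360628)⟩, ⟨.ofNat (nat_lit 253393), .ofNat (nat_lit 405038), .ofNat (nat_lit 274740), .ofNat (nat_lit 426386), .ofNat (nat_lit 254209), .ofNat (nat_lit 404075), .ofNat (nat_lit 275566), .ofNat (nat_lit 425432)⟩⟩, [⟨nat_lit 0, nat_lit 100, nat_lit 100, nat_lit 80, nat_lit 174699696⟩]⟩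
noncomputable def p050_l55 : Lf2 := ⟨nat_lit 0, nat_lit 15, [nat_lit 30, nat_lit 5, nat_lit 5, nat_lit 20], true, nat_lit 160, nat_lit 240, nat_lit 0, nat_lit 296, ⟨nat_lit 0, nat_lit 0, nat_lit 1000, nat_lit 6, nat_lit 151, nat_lit 1000, nat_lit 136, nat_lit 1000, nat_lit 173400, nat_lit 317, nat_lit 212817, nat_lit 328, nat_lit 51161356, nat_lit 0, nat_lit 0, nat_lit 3795313, false, false⟩,
 nat_lit 0, nat_lit 7931, nat_lit 0, nat_lit 0, nat_lit 4616, nat_lit 0, nat_lit 0, nat_lit 0, nat_lit 0, nat_lit 0, nat_lit 0, nat_lit 0, nat_lit 0, nat_lit 0, nat_lit 81, nat_lit 400000, nat_lit 0, nat_lit 0, [(nat_lit 10, [(nat_lit 5, nat_lit 1000)])],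
 ⟨p050_k0, nat_lit 0, nat_lit 0, nat_lit 145, nat_lit 0, nat_lit 76045, [nat_lit 2841600000, nat_lit 644000001, nat_lit 28400000], [], [nat_lit 10456526688, nat_lit 12006160576, nat_lit 10864161680, nat_lit 12335647008, nat_lit 14239226736, nat_lit 15544006080, nat_lit 14470704944, nat_lit 15711285664], nat_lit 1271250, nat_lit 1271250, nat_lit 490000, nat_lit 780000, nat_lit 1100001, nat_lit 1785000, [nat_lit 1100000, nat_lit 1785000, nat_lit 1271250], [nat_lit 21, nat_lit 40, nat_lit 40, nat_lit 80, nat_lit 14, nat_lit 401, nat_lit 175, nat_lit 10]⟩, C1.Rw.none,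
 ⟨nat_lit 5477, nat_lit 5917, ⟨.ofNat (nat_lit 328416), .ofNat (nat_lit 406949), .ofNat (nat_lit 339085), .ofNat (nat_lit 417619), .ofNat (nat_lit 339271), .ofNat (nat_lit 414204), .ofNat (nat_lit 349949), .ofNat (nat_lit 424882)⟩, ⟨.ofNat (nat_lit 250751), .ofNat (nat_lit 407818), .ofNat (nat_lit 272090), .ofNat (nat_lit 429157), .ofNat (nat_lit 254209), .ofNat (nat_lit 404075), .ofNat (nat_lit 275566), .ofNat (nat_lit 425432)⟩⟩, []⟩
noncomputable def p050_l56 : Lf2 := ⟨nat_lit 0, nat_lit 15, [nat_lit 30, nat_lit 5, nat_lit 5, nat_lit 20], false, nat_lit 160, nat_lit 240, nat_lit 0, nat_lit 288, ⟨nat_lit 1000, nat_lit 0, nat_lit 0, nat_lit 0, nat_lit 0, nat_lit 0, nat_lit 0, nat_lit 0, nat_lit 0, nat_lit 0, nat_lit 0, nat_lit 0, nat_lit 0, nat_lit 0, nat_lit 0, nat_lit 0, false, false⟩,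
 nat_lit 0, nat_lit 18284, nat_lit 0, nat_lit 0, nat_lit 11135, nat_lit 9205, nat_lit 1629, nat_lit 0, nat_lit 0, nat_lit 1452, nat_lit 0, nat_lit 0, nat_lit 0, nat_lit 0, nat_lit 0, nat_lit 0, nat_lit 0, nat_lit 0, [],
 ⟨p050_k1, nat_lit 0, nat_lit 0, nat_lit 185, nat_lit 0, nat_lit 165625, [nat_lit 4688000000, nat_lit 7968000001, nat_lit 11872000000], [], [nat_lit 12702230465, nat_lit 13520597830, nat_lit 11424270025, nat_lit 12195641250, nat_lit 15561741986, nat_lit 15937762740, nat_lit 18963095001, nat_lit 16303567061], nat_lit 1271250, nat_lit 1271250, nat_lit 490000, nat_lit 780000, nat_lit 1100001, nat_lit 1785000, [nat_lit 1100000, nat_lit 1785000, nat_lit 1271250], [nat_lit 21, nat_lit 40, nat_lit 40, nat_lit 80, nat_lit 14, nat_lit 401, nat_lit 175, nat_lit 10]⟩, ⟨p050_k1, nat_lit 0, nat_lit 0, nat_lit 235, nat_lit 0, nat_lit 0, [nat_lit 4688000000, nat_lit 7968000000, nat_lit 11872000000], [],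 [nat_lit 22908243260, nat_lit 23772992540, nat_lit 21730041170, nat_lit 22551600760, nat_lit 20597650935, nat_lit 21099450892, nat_lit 19493189345, nat_lit 20129064833], nat_lit 0, nat_lit 0, nat_lit 0, nat_lit 0, nat_lit 0, nat_lit 0, [], [nat_lit 21, nat_lit 40, nat_lit 40, nat_lit 80, nat_lit 14, nat_lit 401, nat_lit 175, nat_lit 10]⟩,
 zbF0, [⟨nat_lit 7, nat_lit 100, nat_lit 98, nat_lit 70, nat_lit 191369674⟩]⟩
noncomputable def p050_l57 : Lf2 := ⟨nat_lit 1, nat_lit 15, [nat_lit 30, nat_lit 5, nat_lit 5, nat_lit 20], false, nat_lit 240, nat_lit 296, nat_lit 0, nat_lit 296, zbN0,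
 nat_lit 0, nat_lit 0, nat_lit 0, nat_lit 0, nat_lit 0, nat_lit 0, nat_lit 0, nat_lit 0, nat_lit 0, nat_lit 0, nat_lit 0, nat_lit 0, nat_lit 0, nat_lit 0, nat_lit 0, nat_lit 0, nat_lit 0, nat_lit 0, [],
 C1.Rw.none, C1.Rw.none,
 zbF0, []⟩
noncomputable def p050_l58 : Lf2 := ⟨nat_lit 0, nat_lit 12, [nat_lit 126, nat_lit 5, nat_lit 5, nat_lit 20], true, nat_lit 240, nat_lit 288, nat_lit 0, nat_lit 296, ⟨nat_lit 0, nat_lit 1000, nat_lit 0, nat_lit 6, nat_lit 122, nat_lit 1000, nat_lit 185, nat_lit 0, nat_lit 0, nat_lit 0, nat_lit 0, nat_lit 0, nat_lit 49264821, nat_lit 6098596, nat_lit 11636583, nat_lit 3994801, false, false⟩,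
 nat_lit 0, nat_lit 10630, nat_lit 0, nat_lit 2699, nat_lit 6473, nat_lit 0, nat_lit 0, nat_lit 0, nat_lit 0, nat_lit 0, nat_lit 0, nat_lit 0, nat_lit 0, nat_lit 24678106018919, nat_lit 0, nat_lit 250000, nat_lit 0, nat_lit 0, [(nat_lit 10, [(nat_lit 0, nat_lit 1000)])],
 ⟨p050_k8, nat_lit 0, nat_lit 0, nat_lit 117, nat_lit 0, nat_lit 35218, [nat_lit 3808000001, nat_lit 3615200000], [], [nat_lit 16233872793, nat_lit 16639720951, nat_lit 15195416225, nat_lit 15585762983, nat_lit 20658774930, nat_lit 21068992042, nat_lit 19077282439, nat_lit 19474998007], nat_lit 1271250, nat_lit 1271250, nat_lit 230001, nat_lit 490000, nat_lit 1271250, nat_lit 1271250, [nat_lit 1100000, nat_lit 2127500], [nat_lit 70, nat_lit 40, nat_lit 40, nat_lit 80, nat_lit 13, nat_lit 401, nat_lit 175, nat_lit 11]⟩, C1.Rw.none,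
 ⟨nat_lit 5590, nat_lit 5701, ⟨.ofNat (nat_lit 257148), .ofNat (nat_lit 333867), .ofNat (nat_lit 273155), .ofNat (nat_lit 349874), .ofNat (nat_lit 260751), .ofNat (nat_lit 336574), .ofNat (nat_lit 276762), .ofNat (nat_lit 352585)⟩, ⟨.ofNat (nat_lit 405982), .ofNat (nat_lit 498045), .ofNat (nat_lit 427324), .ofNat (nat_lit 519387), .ofNat (nat_lit 405038), .ofNat (nat_lit 496025), .ofNat (nat_lit 426386), .ofNat (nat_lit 517373)⟩⟩, [⟨nat_lit 0, nat_lit 100, nat_lit 100, nat_lit 75, nat_lit 238591965⟩, ⟨nat_lit 4, nat_lit 100, nat_lit 99, nat_lit 70, nat_lit 578975653⟩]⟩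
noncomputable def p050_l59 : Lf2 := ⟨nat_lit 1, nat_lit 15, [nat_lit 30, nat_lit 5, nat_lit 5, nat_lit 20], false, nat_lit 240, nat_lit 288, nat_lit 0, nat_lit 296, zbN0,
 nat_lit 0, nat_lit 0, nat_lit 0, nat_lit 0, nat_lit 0, nat_lit 0, nat_lit 0, nat_lit 0, nat_lit 0, nat_lit 0, nat_lit 0, nat_lit 0, nat_lit 0, nat_lit 0, nat_lit 0, nat_lit 0, nat_lit 0, nat_lit 0, [],
 C1.Rw.none, C1.Rw.none,
 zbF0, []⟩
noncomputable def p050_l60 : Lf2 := ⟨nat_lit 0, nat_lit 12, [nat_lit 126, nat_lit 5, nat_lit 5, nat_lit 20], false, nat_lit 240, nat_lit 280, nat_lit 0, nat_lit 160, ⟨nat_lit 1000, nat_lit 0, nat_lit 0, nat_lit 0, nat_lit 0, nat_lit 0, nat_lit 0, nat_lit 0, nat_lit 0, nat_lit 0, nat_lit 0, nat_lit 0, nat_lit 0, nat_lit 0, nat_lit 0, nat_lit 0, false, false⟩,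
 nat_lit 0, nat_lit 25225, nat_lit 0, nat_lit 0, nat_lit 15706, nat_lit 8209, nat_lit 366, nat_lit 0, nat_lit 0, nat_lit 1734, nat_lit 0, nat_lit 0, nat_lit 0, nat_lit 0, nat_lit 0, nat_lit 0, nat_lit 0, nat_lit 0, [],
 ⟨p050_k9, nat_lit 0, nat_lit 0, nat_lit 154, nat_lit 0, nat_lit 83777, [nat_lit 4688000000, nat_lit 7968000001, nat_lit 9842000000], [], [nat_lit 22383650233, nat_lit 22892029449, nat_lit 18758329420, nat_lit 19247040148, nat_lit 26362312856, nat_lit 27128898360, nat_lit 22582228530, nat_lit 22999887608], nat_lit 1271250, nat_lit 1271250, nat_lit 254650, nat_lit 490000, nat_lit 1271250, nat_lit 1271250, [nat_lit 1100000, nat_lit 1785000, nat_lit 1271250], [nat_lit 29, nat_lit 40, nat_lit 40, nat_lit 80, nat_lit 17, nat_lit 401, nat_lit 175, nat_lit 11]⟩, ⟨p050_k10, nat_lit 0, nat_lit 0, nat_lit 217, nat_lit 0, nat_lit 0, [nat_lit 4688000000, nat_lit 7968000000, nat_lit 9842000000], [], [nat_lit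 20890504686, nat_lit 22838368958, nat_lit 18975626898, nat_lit 20867569516, nat_lit 15629399494, nat_lit 17170200307, nat_lit 14525519826, nat_lit 16006129856], nat_lit 0, nat_lit 0, nat_lit 0, nat_lit 0, nat_lit 0, nat_lit 0, [], [nat_lit 29, nat_lit 40, nat_lit 40, nat_lit 80, nat_lit 17, nat_lit 373, nat_lit 150, nat_lit 11]⟩,
 zbF0, [⟨nat_lit 0, nat_lit 100, nat_lit 98, nat_lit 73, nat_lit 1454945856⟩, ⟨nat_lit 4, nat_lit 100, nat_lit 97, nat_lit 70, nat_lit 1077028668⟩]⟩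
noncomputable def p050_l61 : Lf2 := ⟨nat_lit 0, nat_lit 12, [nat_lit 126, nat_lit 5, nat_lit 5, nat_lit 20], false, nat_lit 240, nat_lit 280, nat_lit 160, nat_lit 296, ⟨nat_lit 1000, nat_lit 0, nat_lit 0, nat_lit 0, nat_lit 0, nat_lit 0, nat_lit 0, nat_lit 0, nat_lit 0, nat_lit 0, nat_lit 0, nat_lit 0, nat_lit 0, nat_lit 0, nat_lit 0, nat_lit 0, false, false⟩,
 nat_lit 0, nat_lit 28622, nat_lit 0, nat_lit 11057, nat_lit 17821, nat_lit 6734, nat_lit 0, nat_lit 0, nat_lit 0, nat_lit 0, nat_lit 0, nat_lit 0, nat_lit 0, nat_lit 0, nat_lit 0, nat_lit 0, nat_lit 0, nat_lit 0, [],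
 ⟨p050_k9, nat_lit 0, nat_lit 0, nat_lit 154, nat_lit 0, nat_lit 83777, [nat_lit 4688000000, nat_lit 7968000001, nat_lit 9842000000], [], [nat_lit 23716692079, nat_lit 24273218001, nat_lit 19516978720, nat_lit 20051559568, nat_lit 28069367706, nat_lit 28625796378, nat_lit 23699488241, nat_lit 24154249178], nat_lit 1271250, nat_lit 1271250, nat_lit 254650, nat_lit 490000, nat_lit 1271250, nat_lit 1271250, [nat_lit 1100000, nat_lit 1785000, nat_lit 1271250], [nat_lit 29, nat_lit 40, nat_lit 40, nat_lit 80, nat_lit 17, nat_lit 401, nat_lit 175, nat_lit 11]⟩, ⟨p050_k10, nat_lit 0, nat_lit 0, nat_lit 91, nat_lit 0, nat_lit 0, [nat_lit 4688000000, nat_lit 7968000000, nat_lit 9842000000], [], [nat_lit 11449256286, nat_lit 13448558376, nat_lit 10602206612, nat_lit 12530577024, nat_lit 20638380403, nat_lit 22262643679, nat_lit 19504553178, nat_lit 20844236747], nat_lit 0, nat_lit 0, nat_lit 0, nat_lit 0, nat_lit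 0, nat_lit 0, [], [nat_lit 29, nat_lit 40, nat_lit 40, nat_lit 80, nat_lit 17, nat_lit 401, nat_lit 175, nat_lit 11]⟩,
 zbF0, [⟨nat_lit 0, nat_lit 100, nat_lit 98, nat_lit 73, nat_lit 1439823041⟩, ⟨nat_lit 16, nat_lit 97, nat_lit 100, nat_lit 70, nat_lit 1146298694⟩, ⟨nat_lit 7, nat_lit 100, nat_lit 100, nat_lit 71, nat_lit 744356462⟩]⟩
noncomputable def p050_l62 : Lf2 := ⟨nat_lit 0, nat_lit 15, [nat_lit 30, nat_lit 5, nat_lit 5, nat_lit 20], true, nat_lit 240, nat_lit 280, nat_lit 0, nat_lit 296, ⟨nat_lit 0, nat_lit 1000, nat_lit 0, nat_lit 6, nat_lit 126, nat_lit 1000, nat_lit 181, nat_lit 0, nat_lit 0, nat_lit 0, nat_lit 0, nat_lit 0, nat_lit 49318545, nat_lit 6398373, nat_lit 11283082, nat_lit 4005954, false, false⟩,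
 nat_lit 0, nat_lit 10888, nat_lit 0, nat_lit 2483, nat_lit 6779, nat_lit 0, nat_lit 0, nat_lit 0, nat_lit 0, nat_lit 0, nat_lit 0, nat_lit 0, nat_lit 0, nat_lit 21858699861114, nat_lit 0, nat_lit 250000, nat_lit 0, nat_lit 0, [(nat_lit 10, [(nat_lit 0, nat_lit 1000)])],
 ⟨p050_k7, nat_lit 0, nat_lit 0, nat_lit 113, nat_lit 0, nat_lit 40067, [nat_lit 3808000001, nat_lit 3378400001, nat_lit 3615200000], [], [nat_lit 16593860612, nat_lit 17086425742, nat_lit 15273592187, nat_lit 15674510021, nat_lit 20378711914, nat_lit 20810785543, nat_lit 18867328510, nat_lit 19287260024], nat_lit 1271250, nat_lit 1271250, nat_lit 254650, nat_lit 490000, nat_lit 1271250, nat_lit 1271250, [nat_lit 1100000, nat_lit 1785000, nat_lit 1271250], [nat_lit 29, nat_lit 40, nat_lit 40, nat_lit 80, nat_lit 17, nat_lit 401, nat_lit 175, nat_lit 11]⟩, C1.Rw.none,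
 ⟨nat_lit 5477, nat_lit 5591, ⟨.ofNat (nat_lit 268334), .ofNat (nat_lit 336574), .ofNat (nat_lit 289681), .ofNat (nat_lit 357922), .ofNat (nat_lit 271831), .ofNat (nat_lit 339271), .ofNat (nat_lit 293188), .ofNat (nat_lit 360628)⟩, ⟨.ofNat (nat_lit 405038), .ofNat (nat_lit 480861), .ofNat (nat_lit 426386), .ofNat (nat_lit 502209), .ofNat (nat_lit 404075), .ofNat (nat_lit 479008), .ofNat (nat_lit 425432), .ofNat (nat_lit 500365)⟩⟩, [⟨nat_lit 0, nat_lit 100, nat_lit 100, nat_lit 80, nat_lit 301841103⟩, ⟨nat_lit 4, nat_lit 100, nat_lit 97, nat_lit 70, nat_lit 603677033⟩]⟩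
noncomputable def p050_l63 : Lf2 := ⟨nat_lit 0, nat_lit 15, [nat_lit 30, nat_lit 5, nat_lit 5, nat_lit 20], false, nat_lit 240, nat_lit 296, nat_lit 0, nat_lit 160, ⟨nat_lit 1000, nat_lit 0, nat_lit 0, nat_lit 0, nat_lit 0, nat_lit 0, nat_lit 0, nat_lit 0, nat_lit 0, nat_lit 0, nat_lit 0, nat_lit 0, nat_lit 0, nat_lit 0, nat_lit 0, nat_lit 0, false, false⟩,
 nat_lit 0, nat_lit 16947, nat_lit 0, nat_lit 6889, nat_lit 9864, nat_lit 8120, nat_lit 1597, nat_lit 0, nat_lit 0, nat_lit 1874, nat_lit 0, nat_lit 0, nat_lit 0, nat_lit 32777274273502, nat_lit 0, nat_lit 0, nat_lit 0, nat_lit 0, [],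
 ⟨p050_k0, nat_lit 0, nat_lit 0, nat_lit 206, nat_lit 0, nat_lit 176698, [nat_lit 4688000000, nat_lit 7968000001, nat_lit 11872000000], [], [nat_lit 16656453983, nat_lit 17890602159, nat_lit 15488675775, nat_lit 17007957361, nat_lit 20955250242, nat_lit 22315684987, nat_lit 19901915126, nat_lit 21184108485], nat_lit 1271250, nat_lit 1271250, nat_lit 490000, nat_lit 780000, nat_lit 1271250, nat_lit 1271250, [nat_lit 1100000, nat_lit 1785000, nat_lit 1271250], [nat_lit 21, nat_lit 40, nat_lit 40, nat_lit 80, nat_lit 14, nat_lit 401, nat_lit 175, nat_lit 10]⟩, ⟨p050_k0, nat_lit 0, nat_lit 0, nat_lit 235, nat_lit 0, nat_lit 0, [nat_lit 4688000000, nat_lit 7968000000, nat_lit 11872000000], [], [nat_lit 19025042470, nat_lit 20631182880, nat_lit 18125778870, nat_lit 20066308640, nat_lit 14472153680, nat_lit 15943270080, nat_lit 14228181680, nat_lit 15614476960], nat_lit 0, nat_lit 0, nat_lit 0, nat_lit 0, nat_lit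 0, nat_lit 0, [], [nat_lit 21, nat_lit 40, nat_lit 40, nat_lit 80, nat_lit 14, nat_lit 373, nat_lit 150, nat_lit 10]⟩,
 zbF0, [⟨nat_lit 16, nat_lit 100, nat_lit 100, nat_lit 71, nat_lit 891989136⟩]⟩
noncomputable def p050_l64 : Lf2 := ⟨nat_lit 0, nat_lit 15, [nat_lit 30, nat_lit 5, nat_lit 5, nat_lit 20], false, nat_lit 240, nat_lit 296, nat_lit 160, nat_lit 296, ⟨nat_lit 1000, nat_lit 0, nat_lit 0, nat_lit 0, nat_lit 0, nat_lit 0, nat_lit 0, nat_lit 0, nat_lit 0, nat_lit 0, nat_lit 0, nat_lit 0, nat_lit 0, nat_lit 0, nat_lit 0, nat_lit 0, false, false⟩,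
 nat_lit 0, nat_lit 16947, nat_lit 0, nat_lit 5348, nat_lit 9864, nat_lit 6852, nat_lit 1597, nat_lit 0, nat_lit 0, nat_lit 0, nat_lit 0, nat_lit 0, nat_lit 0, nat_lit 0, nat_lit 0, nat_lit 0, nat_lit 0, nat_lit 0, [],
 ⟨p050_k0, nat_lit 0, nat_lit 0, nat_lit 206, nat_lit 0, nat_lit 176698, [nat_lit 4688000000, nat_lit 7968000001, nat_lit 11872000000], [], [nat_lit 16656453983, nat_lit 17890602159, nat_lit 15488675775, nat_lit 17007957361, nat_lit 20955250242, nat_lit 22315684987, nat_lit 19901915126, nat_lit 21184108485], nat_lit 1271250, nat_lit 1271250, nat_lit 490000, nat_lit 780000, nat_lit 1271250, nat_lit 1271250, [nat_lit 1100000, nat_lit 1785000, nat_lit 1271250], [nat_lit 21, nat_lit 40, nat_lit 40, nat_lit 80, nat_lit 14, nat_lit 401, nat_lit 175, nat_lit 10]⟩, ⟨p050_k0, nat_lit 0, nat_lit 0, nat_lit 58, nat_lit 0, nat_lit 0, [nat_lit 4688000000, nat_lit 7968000000, nat_lit 11872000000], [], [nat_lit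 10435250536, nat_lit 12384721472, nat_lit 10574256960, nat_lit 12417830576, nat_lit 19418399702, nat_lit 20770623580, nat_lit 19084245863, nat_lit 20366068623], nat_lit 0, nat_lit 0, nat_lit 0, nat_lit 0, nat_lit 0, nat_lit 0, [], [nat_lit 21, nat_lit 40, nat_lit 40, nat_lit 80, nat_lit 14, nat_lit 401, nat_lit 175, nat_lit 10]⟩,
 zbF0, [⟨nat_lit 16, nat_lit 100, nat_lit 100, nat_lit 71, nat_lit 891989136⟩, ⟨nat_lit 19, nat_lit 100, nat_lit 100, nat_lit 71, nat_lit 742209010⟩]⟩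
noncomputable def p050_l65 : Lf2 := ⟨nat_lit 0, nat_lit 15, [nat_lit 30, nat_lit 5, nat_lit 5, nat_lit 20], false, nat_lit 160, nat_lit 296, nat_lit 0, nat_lit 296, ⟨nat_lit 1000, nat_lit 0, nat_lit 0, nat_lit 0, nat_lit 0, nat_lit 0, nat_lit 0, nat_lit 0, nat_lit 0, nat_lit 0, nat_lit 0, nat_lit 0, nat_lit 0, nat_lit 0, nat_lit 0, nat_lit 0, false, false⟩,
 nat_lit 0, nat_lit 17626, nat_lit 0, nat_lit 302, nat_lit 10259, nat_lit 17973, nat_lit 1402, nat_lit 0, nat_lit 0, nat_lit 662, nat_lit 0, nat_lit 0, nat_lit 0, nat_lit 26300638964812, nat_lit 0, nat_lit 0, nat_lit 0, nat_lit 0, [],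
 ⟨p050_k0, nat_lit 0, nat_lit 0, nat_lit 184, nat_lit 0, nat_lit 176698, [nat_lit 4688000000, nat_lit 7968000001, nat_lit 11872000000], [], [nat_lit 25096478775, nat_lit 19753817273, nat_lit 35677203751, nat_lit 30843101397, nat_lit 20243852759, nat_lit 21209659361, nat_lit 22557133163, nat_lit 24020768257], nat_lit 1271250, nat_lit 1271250, nat_lit 780000, nat_lit 1762500, nat_lit 1271250, nat_lit 1271250, [nat_lit 1100000, nat_lit 1785000, nat_lit 1271250], [nat_lit 21, nat_lit 40, nat_lit 40, nat_lit 80, nat_lit 14, nat_lit 456, nat_lit 225, nat_lit 11]⟩, ⟨p050_k0, nat_lit 0, nat_lit 0, nat_lit 212, nat_lit 0, nat_lit 0, [nat_lit 4688000000, nat_lit 7968000000, nat_lit 11872000000], [], [nat_lit 31566025398, nat_lit 34159560706, nat_lit 33804463236, nat_lit 35680655394, nat_lit 22233290925, nat_lit 23526870336, nat_lit 23991733513, nat_lit 26103424833], nat_lit 0, nat_lit 0, nat_lit 0, nat_lit 0, nat_lit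 0, nat_lit 0, [], [nat_lit 21, nat_lit 40, nat_lit 40, nat_lit 80, nat_lit 14, nat_lit 456, nat_lit 225, nat_lit 12]⟩,
 zbF0, [⟨nat_lit 4, nat_lit 100, nat_lit 100, nat_lit 71, nat_lit 348937894⟩]⟩
noncomputable def p050_l66 : Lf2 := ⟨nat_lit 1, nat_lit 15, [nat_lit 30, nat_lit 5, nat_lit 5, nat_lit 20], false, nat_lit 160, nat_lit 320, nat_lit 0, nat_lit 320, zbN0,
 nat_lit 0, nat_lit 0, nat_lit 0, nat_lit 0, nat_lit 0, nat_lit 0, nat_lit 0, nat_lit 0, nat_lit 0, nat_lit 0, nat_lit 0, nat_lit 0, nat_lit 0, nat_lit 0, nat_lit 0, nat_lit 0, nat_lit 0, nat_lit 0, [],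
 C1.Rw.none, C1.Rw.none,
 zbF0, []⟩
noncomputable def p050_l67 : Lf2 := ⟨nat_lit 1, nat_lit 15, [nat_lit 30, nat_lit 5, nat_lit 5, nat_lit 20], false, nat_lit 0, nat_lit 336, nat_lit 0, nat_lit 336, zbN0,
 nat_lit 0, nat_lit 0, nat_lit 0, nat_lit 0, nat_lit 0, nat_lit 0, nat_lit 0, nat_lit 0, nat_lit 0, nat_lit 0, nat_lit 0, nat_lit 0, nat_lit 0, nat_lit 0, nat_lit 0, nat_lit 0, nat_lit 0, nat_lit 0, [],
 C1.Rw.none, C1.Rw.none,
 zbF0, []⟩
noncomputable def p050_l68 : Lf2 := ⟨nat_lit 0, nat_lit 15, [nat_lit 30, nat_lit 5, nat_lit 5, nat_lit 20], false, nat_lit 0, nat_lit 320, nat_lit 0, nat_lit 336, ⟨nat_lit 1000, nat_lit 0, nat_lit 0, nat_lit 0, nat_lit 0, nat_lit 0, nat_lit 0, nat_lit 0, nat_lit 0, nat_lit 0, nat_lit 0, nat_lit 0, nat_lit 0, nat_lit 0, nat_lit 0, nat_lit 0, false, false⟩,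
 nat_lit 0, nat_lit 13526, nat_lit 0, nat_lit 0, nat_lit 7873, nat_lit 7862, nat_lit 937, nat_lit 0, nat_lit 0, nat_lit 1024, nat_lit 0, nat_lit 0, nat_lit 0, nat_lit 0, nat_lit 0, nat_lit 0, nat_lit 0, nat_lit 0, [],
 ⟨p050_k0, nat_lit 0, nat_lit 0, nat_lit 349, nat_lit 0, nat_lit 182418, [nat_lit 4688000000, nat_lit 7968000001, nat_lit 11872000000], [], [nat_lit 30206459566, nat_lit 30996578932, nat_lit 39573594092, nat_lit 40619529768, nat_lit 27756580628, nat_lit 28132786926, nat_lit 35002650464, nat_lit 35554727200], nat_lit 1271250, nat_lit 1271250, nat_lit 1271250, nat_lit 1271250, nat_lit 0, nat_lit 2260000, [nat_lit 1100000, nat_lit 1785000, nat_lit 1271250], [nat_lit 21, nat_lit 40, nat_lit 40, nat_lit 80, nat_lit 14, nat_lit 483, nat_lit 250, nat_lit 12]⟩, ⟨p050_k5, nat_lit 0, nat_lit 0, nat_lit 251, nat_lit 0, nat_lit 0, [nat_lit 4688000000, nat_lit 7968000000, nat_lit 11872000000], [], [nat_lit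 27872526232, nat_lit 30172040736, nat_lit 39487951232, nat_lit 40591936800, nat_lit 28200149471, nat_lit 29284880680, nat_lit 35654099132, nat_lit 36446305023], nat_lit 0, nat_lit 0, nat_lit 0, nat_lit 0, nat_lit 0, nat_lit 0, [], [nat_lit 21, nat_lit 40, nat_lit 40, nat_lit 80, nat_lit 14, nat_lit 538, nat_lit 300, nat_lit 13]⟩,
 zbF0, [⟨nat_lit 4, nat_lit 97, nat_lit 100, nat_lit 76, nat_lit 139941999⟩, ⟨nat_lit 7, nat_lit 92, nat_lit 100, nat_lit 75, nat_lit 170280111⟩]⟩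
noncomputable def b_V_600_600_10_81 : St := ⟨true, nat_lit 1, nat_lit 0, nat_lit 1, nat_lit 80, nat_lit 240, nat_lit 280, nat_lit 240, nat_lit 280, nat_lit 16, nat_lit 400, nat_lit 40, nat_lit 80, nat_lit 0, nat_lit 336, nat_lit 0, nat_lit 336, nat_lit 40, nat_lit 60, nat_lit 0, nat_lit 0, nat_lit 0, nat_lit 0⟩
theorem d_V_600_600_10_81 (h : EB TB.env) : Dead b_V_600_600_10_81 := chkB_sound0 h (T :=
(.spl (nat_lit 2) (nat_lit 240)
(.spl (nat_lit 4) (nat_lit 160)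
(.spl (nat_lit 2) (nat_lit 160)
(.spl (nat_lit 1) (nat_lit 260)
(.leaf p050_l38)
(.ord (.trZ (nat_lit 0) (nat_lit 100) (nat_lit 100) (nat_lit 60) (nat_lit 36) (.trX (nat_lit 19) (nat_lit 100) (nat_lit 85) (nat_lit 84) (nat_lit 320) (.spl (nat_lit 4) (nat_lit 80)
(.spl (nat_lit 2) (nat_lit 80)
(.spl (nat_lit 4) (nat_lit 40)
(.spl (nat_lit 0) (nat_lit 270)
(.ord (.leaf p050_l39))
(.trZ (nat_lit 0) (nat_lit 100) (nat_lit 98) (nat_lit 64) (nat_lit 40) (.spl (nat_lit 0) (nat_lit 275)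
(.ord (.spl (nat_lit 6) (nat_lit 48)
(.leaf p050_l40)
(.leaf p050_l41)))
(.trZ (nat_lit 0) (nat_lit 100) (nat_lit 97) (nat_lit 67) (nat_lit 44) (.leaf p050_l42)))))
(.spl (nat_lit 0) (nat_lit 270)
(.ord (.leaf p050_l43))
(.trZ (nat_lit 0) (nat_lit 100) (nat_lit 98) (nat_lit 64) (nat_lit 40) (.leaf p050_l44))))
(.spl (nat_lit 5) (nat_lit 160)
(.leaf p050_l45)
(.leaf p050_l46)))
(.spl (nat_lit 2) (nat_lit 80)
(.leaf p050_l47)
(.leaf p050_l48)))))))
(.spl (nat_lit 0) (nat_lit 260)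
(.ord (.leaf p050_l49))
(.leaf p050_l50)))
(.spl (nat_lit 1) (nat_lit 260)
(.leaf p050_l51)
(.ord (.trZ (nat_lit 0) (nat_lit 100) (nat_lit 100) (nat_lit 60) (nat_lit 36) (.trX (nat_lit 16) (nat_lit 100) (nat_lit 85) (nat_lit 84) (nat_lit 320) (.trX (nat_lit 19) (nat_lit 100) (nat_lit 85) (nat_lit 84) (nat_lit 320) (.spl (nat_lit 3) (nat_lit 60)
(.trX (nat_lit 16) (nat_lit 100) (nat_lit 92) (nat_lit 75) (nat_lit 296) (.trX (nat_lit 19) (nat_lit 100) (nat_lit 92) (nat_lit 75) (nat_lit 296) (.spl (nat_lit 2) (nat_lit 120)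
(.spl (nat_lit 4) (nat_lit 240)
(.spl (nat_lit 2) (nat_lit 80)
(.spl (nat_lit 1) (nat_lit 270)
(.leaf p050_l52)
(.ord (.trZ (nat_lit 0) (nat_lit 100) (nat_lit 100) (nat_lit 70) (nat_lit 48) (.trX (nat_lit 19) (nat_lit 100) (nat_lit 97) (nat_lit 76) (nat_lit 288) (.spl (nat_lit 0) (nat_lit 275)
(.ord (.leaf p050_l53))
(.trZ (nat_lit 0) (nat_lit 100) (nat_lit 99) (nat_lit 72) (nat_lit 52) (.leaf p050_l54)))))))
(.spl (nat_lit 1) (nat_lit 270)
(.leaf p050_l55)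
(.ord (.trX (nat_lit 19) (nat_lit 100) (nat_lit 97) (nat_lit 76) (nat_lit 288) (.leaf p050_l56)))))
(.spl (nat_lit 2) (nat_lit 80)
(.spl (nat_lit 0) (nat_lit 270)
(.ord (.leaf p050_l57))
(.trZ (nat_lit 0) (nat_lit 100) (nat_lit 98) (nat_lit 64) (nat_lit 40) (.trX (nat_lit 16) (nat_lit 100) (nat_lit 97) (nat_lit 76) (nat_lit 288) (.spl (nat_lit 0) (nat_lit 275)
(.ord (.spl (nat_lit 6) (nat_lit 48)
(.leaf p050_l58)
(.leaf p050_l59)))
(.trZ (nat_lit 0) (nat_lit 100) (nat_lit 97) (nat_lit 67) (nat_lit 44) (.trX (nat_lit 16) (nat_lit 100) (nat_lit 99) (nat_lit 77) (nat_lit 280) (.spl (nat_lit 6) (nat_lit 48)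
(.spl (nat_lit 5) (nat_lit 160)
(.leaf p050_l60)
(.leaf p050_l61))
(.leaf p050_l62))))))))
(.spl (nat_lit 5) (nat_lit 160)
(.leaf p050_l63)
(.leaf p050_l64))))
(.leaf p050_l65))))
(.leaf p050_l66))))))))
(.spl (nat_lit 0) (nat_lit 260)
(.ord (.leaf p050_l67))
(.trX (nat_lit 16) (nat_lit 100) (nat_lit 85) (nat_lit 84) (nat_lit 320) (.leaf p050_l68))))) (by decide +kernel)
noncomputable def p050_l69 : Lf2 := ⟨nat_lit 1, nat_lit 15, [nat_lit 30, nat_lit 5, nat_lit 5, nat_lit 20], false, nat_lit 0, nat_lit 160, nat_lit 0, nat_lit 336, zbN0,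
 nat_lit 0, nat_lit 0, nat_lit 0, nat_lit 0, nat_lit 0, nat_lit 0, nat_lit 0, nat_lit 0, nat_lit 0, nat_lit 0, nat_lit 0, nat_lit 0, nat_lit 0, nat_lit 0, nat_lit 0, nat_lit 0, nat_lit 0, nat_lit 0, [],
 C1.Rw.none, C1.Rw.none,
 zbF0, []⟩
noncomputable def p050_l70 : Lf2 := ⟨nat_lit 1, nat_lit 15, [nat_lit 30, nat_lit 5, nat_lit 5, nat_lit 20], false, nat_lit 0, nat_lit 40, nat_lit 0, nat_lit 320, zbN0,
 nat_lit 0, nat_lit 0, nat_lit 0, nat_lit 0, nat_lit 0, nat_lit 0, nat_lit 0, nat_lit 0, nat_lit 0, nat_lit 0, nat_lit 0, nat_lit 0, nat_lit 0, nat_lit 0, nat_lit 0, nat_lit 0, nat_lit 0, nat_lit 0, [],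
 C1.Rw.none, C1.Rw.none,
 zbF0, []⟩
noncomputable def p050_l71 : Lf2 := ⟨nat_lit 0, nat_lit 12, [nat_lit 126, nat_lit 5, nat_lit 5, nat_lit 20], true, nat_lit 0, nat_lit 40, nat_lit 0, nat_lit 320, ⟨nat_lit 0, nat_lit 0, nat_lit 1000, nat_lit 6, nat_lit 122, nat_lit 0, nat_lit 9, nat_lit 0, nat_lit 67, nat_lit 217, nat_lit 141067, nat_lit 307, nat_lit 61294712, nat_lit 0, nat_lit 0, nat_lit 1455892, false, false⟩,
 nat_lit 0, nat_lit 6712, nat_lit 0, nat_lit 1806, nat_lit 4087, nat_lit 0, nat_lit 0, nat_lit 0, nat_lit 0, nat_lit 0, nat_lit 0, nat_lit 0, nat_lit 0, nat_lit 18725822161233, nat_lit 159, nat_lit 856000, nat_lit 0, nat_lit 0, [(nat_lit 10, [(nat_lit 5, nat_lit 240), (nat_lit 6, nat_lit 760)])],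
 ⟨p050_k6, nat_lit 0, nat_lit 0, nat_lit 237, nat_lit 0, nat_lit 37337, [nat_lit 3746688001, nat_lit 2748698667, nat_lit 27621333], [], [nat_lit 13720527881, nat_lit 14053403849, nat_lit 13025900260, nat_lit 13349081817, nat_lit 12530227186, nat_lit 12856136831, nat_lit 12142295238, nat_lit 12458104519], nat_lit 1271250, nat_lit 1271250, nat_lit 230001, nat_lit 490000, nat_lit 0, nat_lit 230001, [nat_lit 1100000, nat_lit 1442500, nat_lit 1271250], [nat_lit 11, nat_lit 40, nat_lit 40, nat_lit 80, nat_lit 1, nat_lit 317, nat_lit 100, nat_lit 9]⟩, C1.Rw.none,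
 ⟨nat_lit 5590, nat_lit 5701, ⟨.ofNat (nat_lit 257148), .ofNat (nat_lit 333867), .ofNat (nat_lit 273155), .ofNat (nat_lit 349874), .ofNat (nat_lit 260751), .ofNat (nat_lit 336574), .ofNat (nat_lit 276762), .ofNat (nat_lit 352585)⟩, ⟨.negSucc (nat_lit 54331), .ofNat (nat_lit 22387), .negSucc (nat_lit 11648), .ofNat (nat_lit 65071), .negSucc (nat_lit 49897), .ofNat (nat_lit 25924), .negSucc (nat_lit 7202), .ofNat (nat_lit 68620)⟩⟩, [⟨nat_lit 0, nat_lit 100, nat_lit 100, nat_lit 75, nat_lit 201070235⟩]⟩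
noncomputable def p050_l72 : Lf2 := ⟨nat_lit 1, nat_lit 15, [nat_lit 30, nat_lit 5, nat_lit 5, nat_lit 20], false, nat_lit 0, nat_lit 40, nat_lit 0, nat_lit 320, zbN0,
 nat_lit 0, nat_lit 0, nat_lit 0, nat_lit 0, nat_lit 0, nat_lit 0, nat_lit 0, nat_lit 0, nat_lit 0, nat_lit 0, nat_lit 0, nat_lit 0, nat_lit 0, nat_lit 0, nat_lit 0, nat_lit 0, nat_lit 0, nat_lit 0, [],
 C1.Rw.none, C1.Rw.none,
 zbF0, []⟩
noncomputable def p050_l73 : Lf2 := ⟨nat_lit 0, nat_lit 15, [nat_lit 30, nat_lit 5, nat_lit 5, nat_lit 20], true, nat_lit 0, nat_lit 40, nat_lit 0, nat_lit 320, ⟨nat_lit 0, nat_lit 0, nat_lit 1000, nat_lit 6, nat_lit 125, nat_lit 0, nat_lit 10, nat_lit 0, nat_lit 150, nat_lit 218, nat_lit 147267, nat_lit 309, nat_lit 61022059, nat_lit 0, nat_lit 0, nat_lit 1503678, false, false⟩,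
 nat_lit 0, nat_lit 6906, nat_lit 0, nat_lit 558, nat_lit 4299, nat_lit 0, nat_lit 313, nat_lit 0, nat_lit 0, nat_lit 0, nat_lit 0, nat_lit 0, nat_lit 0, nat_lit 16214871429025, nat_lit 79, nat_lit 400000, nat_lit 0, nat_lit 0, [(nat_lit 10, [(nat_lit 5, nat_lit 1000)])],
 ⟨p050_k7, nat_lit 0, nat_lit 0, nat_lit 285, nat_lit 0, nat_lit 72492, [nat_lit 2809600000, nat_lit 596000000, nat_lit 8400000], [], [nat_lit 14458561032, nat_lit 14662489901, nat_lit 13757464639, nat_lit 13955130010, nat_lit 13262289584, nat_lit 13433244149, nat_lit 12853048479, nat_lit 13018620495], nat_lit 1271250, nat_lit 1271250, nat_lit 254650, nat_lit 490000, nat_lit 0, nat_lit 230001, [nat_lit 1100000, nat_lit 1785000, nat_lit 1271250], [nat_lit 29, nat_lit 40, nat_lit 40, nat_lit 80, nat_lit 17, nat_lit 317, nat_lit 100, nat_lit 9]⟩, C1.Rw.none,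
 ⟨nat_lit 5522, nat_lit 5591, ⟨.ofNat (nat_lit 268334), .ofNat (nat_lit 336574), .ofNat (nat_lit 287547), .ofNat (nat_lit 355787), .ofNat (nat_lit 270434), .ofNat (nat_lit 338193), .ofNat (nat_lit 289651), .ofNat (nat_lit 357411)⟩, ⟨.negSucc (nat_lit 49897), .ofNat (nat_lit 25924), .negSucc (nat_lit 7202), .ofNat (nat_lit 68620), .negSucc (nat_lit 47265), .ofNat (nat_lit 28022), .negSucc (nat_lit 4559), .ofNat (nat_lit 70728)⟩⟩, [⟨nat_lit 0, nat_lit 100, nat_lit 100, nat_lit 78, nat_lit 210675934⟩]⟩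
noncomputable def p050_l74 : Lf2 := ⟨nat_lit 0, nat_lit 15, [nat_lit 30, nat_lit 5, nat_lit 5, nat_lit 20], true, nat_lit 0, nat_lit 40, nat_lit 0, nat_lit 320, ⟨nat_lit 0, nat_lit 0, nat_lit 1000, nat_lit 6, nat_lit 126, nat_lit 0, nat_lit 10, nat_lit 0, nat_lit 267, nat_lit 219, nat_lit 150417, nat_lit 310, nat_lit 60930721, nat_lit 0, nat_lit 0, nat_lit 1519457, false, false⟩,
 nat_lit 0, nat_lit 6792, nat_lit 0, nat_lit 0, nat_lit 4284, nat_lit 0, nat_lit 295, nat_lit 0, nat_lit 0, nat_lit 0, nat_lit 0, nat_lit 0, nat_lit 0, nat_lit 123770049784, nat_lit 79, nat_lit 400000, nat_lit 0, nat_lit 0, [(nat_lit 10, [(nat_lit 5, nat_lit 1000)])],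
 ⟨p050_k11, nat_lit 0, nat_lit 0, nat_lit 295, nat_lit 0, nat_lit 92496, [nat_lit 2809600000, nat_lit 596000000, nat_lit 8400000], [], [nat_lit 14693431569, nat_lit 14829158443, nat_lit 13990899632, nat_lit 14123032655, nat_lit 13487213874, nat_lit 13601008200, nat_lit 13076380634, nat_lit 13186594783], nat_lit 1271250, nat_lit 1271250, nat_lit 254650, nat_lit 490000, nat_lit 0, nat_lit 230001, [nat_lit 1100000, nat_lit 1785000, nat_lit 1271250], [nat_lit 29, nat_lit 40, nat_lit 40, nat_lit 80, nat_lit 17, nat_lit 317, nat_lit 100, nat_lit 9]⟩, C1.Rw.none,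
 ⟨nat_lit 5477, nat_lit 5523, ⟨.ofNat (nat_lit 270434), .ofNat (nat_lit 338193), .ofNat (nat_lit 291787), .ofNat (nat_lit 359546), .ofNat (nat_lit 271831), .ofNat (nat_lit 339271), .ofNat (nat_lit 293188), .ofNat (nat_lit 360628)⟩, ⟨.negSucc (nat_lit 47265), .ofNat (nat_lit 28022), .negSucc (nat_lit 4559), .ofNat (nat_lit 70728), .negSucc (nat_lit 45522), .ofNat (nat_lit 29410), .negSucc (nat_lit 2808), .ofNat (nat_lit 72124)⟩⟩, [⟨nat_lit 0, nat_lit 100, nat_lit 100, nat_lit 80, nat_lit 210098428⟩]⟩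
noncomputable def p050_l75 : Lf2 := ⟨nat_lit 0, nat_lit 12, [nat_lit 126, nat_lit 5, nat_lit 5, nat_lit 20], true, nat_lit 40, nat_lit 80, nat_lit 0, nat_lit 320, ⟨nat_lit 0, nat_lit 0, nat_lit 1000, nat_lit 6, nat_lit 121, nat_lit 1000, nat_lit 33, nat_lit 1000, nat_lit 10417, nat_lit 240, nat_lit 138017, nat_lit 306, nat_lit 60459430, nat_lit 0, nat_lit 0, nat_lit 1838142, false, false⟩,
 nat_lit 0, nat_lit 7214, nat_lit 0, nat_lit 0, nat_lit 4199, nat_lit 0, nat_lit 0, nat_lit 0, nat_lit 0, nat_lit 0, nat_lit 0, nat_lit 0, nat_lit 0, nat_lit 17252735649305, nat_lit 157, nat_lit 848200, nat_lit 0, nat_lit 0, [(nat_lit 10, [(nat_lit 5, nat_lit 253), (nat_lit 6, nat_lit 747)])],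
 ⟨p050_k3, nat_lit 0, nat_lit 0, nat_lit 229, nat_lit 0, nat_lit 96519, [nat_lit 3720553600, nat_lit 2712557067, nat_lit 6346933], [], [nat_lit 12119693567, nat_lit 13441197980, nat_lit 11505040284, nat_lit 12645423254, nat_lit 11128265013, nat_lit 12232499692, nat_lit 10659301747, nat_lit 11897740044], nat_lit 1271250, nat_lit 1271250, nat_lit 205650, nat_lit 490000, nat_lit 230001, nat_lit 490000, [nat_lit 1100000, nat_lit 1442500, nat_lit 1271250], [nat_lit 11, nat_lit 40, nat_lit 40, nat_lit 80, nat_lit 1, nat_lit 345, nat_lit 125, nat_lit 10]⟩, C1.Rw.none,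
 ⟨nat_lit 5477, nat_lit 5917, ⟨.ofNat (nat_lit 242029), .ofNat (nat_lit 328416), .ofNat (nat_lit 263368), .ofNat (nat_lit 349755), .ofNat (nat_lit 256844), .ofNat (nat_lit 339271), .ofNat (nat_lit 278201), .ofNat (nat_lit 360628)⟩, ⟨.ofNat (nat_lit 15150), .ofNat (nat_lit 93684), .ofNat (nat_lit 57829), .ofNat (nat_lit 136362), .ofNat (nat_lit 29410), .ofNat (nat_lit 104343), .ofNat (nat_lit 72124), .ofNat (nat_lit 147057)⟩⟩, [⟨nat_lit 0, nat_lit 100, nat_lit 100, nat_lit 80, nat_lit 206037137⟩]⟩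
noncomputable def p050_l76 : Lf2 := ⟨nat_lit 1, nat_lit 14, [nat_lit 119, nat_lit 5, nat_lit 5, nat_lit 20], false, nat_lit 40, nat_lit 80, nat_lit 0, nat_lit 320, zbN0,
 nat_lit 0, nat_lit 0, nat_lit 0, nat_lit 0, nat_lit 0, nat_lit 0, nat_lit 0, nat_lit 0, nat_lit 0, nat_lit 0, nat_lit 0, nat_lit 0, nat_lit 0, nat_lit 0, nat_lit 0, nat_lit 0, nat_lit 0, nat_lit 0, [],
 C1.Rw.none, C1.Rw.none,
 zbF0, []⟩
noncomputable def p050_l77 : Lf2 := ⟨nat_lit 0, nat_lit 14, [nat_lit 119, nat_lit 5, nat_lit 5, nat_lit 20], true, nat_lit 40, nat_lit 80, nat_lit 0, nat_lit 320, ⟨nat_lit 0, nat_lit 0, nat_lit 1000, nat_lit 6, nat_lit 124, nat_lit 1000, nat_lit 34, nat_lit 1000, nat_lit 11267, nat_lit 241, nat_lit 144150, nat_lit 308, nat_lit 60163712, nat_lit 0, nat_lit 0, nat_lit 1900499, false, false⟩,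
 nat_lit 0, nat_lit 7101, nat_lit 0, nat_lit 0, nat_lit 4324, nat_lit 0, nat_lit 0, nat_lit 0, nat_lit 0, nat_lit 0, nat_lit 0, nat_lit 0, nat_lit 0, nat_lit 15931643004890, nat_lit 127, nat_lit 674800, nat_lit 0, nat_lit 0, [(nat_lit 10, [(nat_lit 5, nat_lit 542), (nat_lit 6, nat_lit 458)])],
 ⟨p050_k12, nat_lit 0, nat_lit 0, nat_lit 218, nat_lit 0, nat_lit 41169, [nat_lit 3370950400, nat_lit 2198332267, nat_lit 9544000], [], [nat_lit 13451427830, nat_lit 14120704184, nat_lit 12878190282, nat_lit 13431490288, nat_lit 12357959352, nat_lit 12916146192, nat_lit 11972276292, nat_lit 12510408720], nat_lit 1271250, nat_lit 1271250, nat_lit 230001, nat_lit 490000, nat_lit 230001, nat_lit 490000, [nat_lit 1100000, nat_lit 1442500, nat_lit 1271250], [nat_lit 11, nat_lit 40, nat_lit 40, nat_lit 80, nat_lit 1, nat_lit 345, nat_lit 125, nat_lit 10]⟩, C1.Rw.none,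
 ⟨nat_lit 5477, nat_lit 5701, ⟨.ofNat (nat_lit 257148), .ofNat (nat_lit 333867), .ofNat (nat_lit 278490), .ofNat (nat_lit 355209), .ofNat (nat_lit 264337), .ofNat (nat_lit 339271), .ofNat (nat_lit 285695), .ofNat (nat_lit 360628)⟩, ⟨.ofNat (nat_lit 22387), .ofNat (nat_lit 99106), .ofNat (nat_lit 65071), .ofNat (nat_lit 141790), .ofNat (nat_lit 29410), .ofNat (nat_lit 104343), .ofNat (nat_lit 72124), .ofNat (nat_lit 147057)⟩⟩, [⟨nat_lit 0, nat_lit 100, nat_lit 100, nat_lit 80, nat_lit 197493667⟩]⟩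
noncomputable def p050_l78 : Lf2 := ⟨nat_lit 1, nat_lit 15, [nat_lit 30, nat_lit 5, nat_lit 5, nat_lit 20], false, nat_lit 40, nat_lit 80, nat_lit 0, nat_lit 320, zbN0,
 nat_lit 0, nat_lit 0, nat_lit 0, nat_lit 0, nat_lit 0, nat_lit 0, nat_lit 0, nat_lit 0, nat_lit 0, nat_lit 0, nat_lit 0, nat_lit 0, nat_lit 0, nat_lit 0, nat_lit 0, nat_lit 0, nat_lit 0, nat_lit 0, [],
 C1.Rw.none, C1.Rw.none,
 zbF0, []⟩
noncomputable def p050_l79 : Lf2 := ⟨nat_lit 0, nat_lit 15, [nat_lit 30, nat_lit 5, nat_lit 5, nat_lit 20], true, nat_lit 0, nat_lit 80, nat_lit 0, nat_lit 320, ⟨nat_lit 0, nat_lit 0, nat_lit 1000, nat_lit 6, nat_lit 151, nat_lit 0, nat_lit 24, nat_lit 365, nat_lit 2817, nat_lit 228, nat_lit 212817, nat_lit 328, nat_lit 58641189, nat_lit 0, nat_lit 0, nat_lit 1881496, false, false⟩,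
 nat_lit 0, nat_lit 7307, nat_lit 0, nat_lit 3288, nat_lit 4253, nat_lit 0, nat_lit 25, nat_lit 0, nat_lit 0, nat_lit 0, nat_lit 0, nat_lit 0, nat_lit 0, nat_lit 0, nat_lit 236, nat_lit 1000000, nat_lit 0, nat_lit 0, [(nat_lit 10, [(nat_lit 6, nat_lit 1000)])],
 ⟨p050_k0, nat_lit 0, nat_lit 0, nat_lit 334, nat_lit 0, nat_lit 78548, [nat_lit 5080000000, nat_lit 3014933334, nat_lit 158755556], [], [nat_lit 12365572699, nat_lit 13520480795, nat_lit 12483773940, nat_lit 13894853164, nat_lit 10587083626, nat_lit 11984216068, nat_lit 11090193072, nat_lit 12416802284], nat_lit 1271250, nat_lit 1271250, nat_lit 490000, nat_lit 780000, nat_lit 0, nat_lit 490000, [nat_lit 1100000, nat_lit 1785000, nat_lit 1271250], [nat_lit 21, nat_lit 40, nat_lit 40, nat_lit 80, nat_lit 14, nat_lit 345, nat_lit 125, nat_lit 9]⟩, C1.Rw.none,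
 ⟨nat_lit 5477, nat_lit 5917, ⟨.ofNat (nat_lit 328416), .ofNat (nat_lit 406949), .ofNat (nat_lit 339085), .ofNat (nat_lit 417619), .ofNat (nat_lit 339271), .ofNat (nat_lit 414204), .ofNat (nat_lit 349949), .ofNat (nat_lit 424882)⟩, ⟨.negSucc (nat_lit 63383), .ofNat (nat_lit 93684), .negSucc (nat_lit 20704), .ofNat (nat_lit 136362), .negSucc (nat_lit 45522), .ofNat (nat_lit 104343), .negSucc (nat_lit 2808), .ofNat (nat_lit 147057)⟩⟩, []⟩
noncomputable def p050_l80 : Lf2 := ⟨nat_lit 0, nat_lit 15, [nat_lit 30, nat_lit 5, nat_lit 5, nat_lit 20], false, nat_lit 0, nat_lit 80, nat_lit 0, nat_lit 308, ⟨nat_lit 1000, nat_lit 0, nat_lit 0, nat_lit 0, nat_lit 0, nat_lit 0, nat_lit 0, nat_lit 0, nat_lit 0, nat_lit 0, nat_lit 0, nat_lit 0, nat_lit 0, nat_lit 0, nat_lit 0, nat_lit 0, false, false⟩,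
 nat_lit 14385, nat_lit 0, nat_lit 0, nat_lit 18020, nat_lit 7620, nat_lit 8760, nat_lit 1862, nat_lit 0, nat_lit 0, nat_lit 1375, nat_lit 0, nat_lit 0, nat_lit 0, nat_lit 0, nat_lit 0, nat_lit 0, nat_lit 0, nat_lit 0, [],
 ⟨p050_k1, nat_lit 0, nat_lit 0, nat_lit 341, nat_lit 0, nat_lit 96663, [nat_lit 4688000000, nat_lit 7968000001, nat_lit 11872000000], [], [nat_lit 18289877140, nat_lit 19062671060, nat_lit 17948705781, nat_lit 18761507481, nat_lit 14188556401, nat_lit 14995662041, nat_lit 14040196881, nat_lit 14802058841], nat_lit 1271250, nat_lit 1271250, nat_lit 490000, nat_lit 780000, nat_lit 0, nat_lit 490000, [nat_lit 1100000, nat_lit 1785000, nat_lit 1271250], [nat_lit 21, nat_lit 40, nat_lit 40, nat_lit 80, nat_lit 14, nat_lit 345, nat_lit 125, nat_lit 9]⟩, ⟨p050_k1, nat_lit 0, nat_lit 0, nat_lit 341, nat_lit 0, nat_lit 96663, [nat_lit 4688000000, nat_lit 7968000000, nat_lit 11872000000], [], [nat_lit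 35636920580, nat_lit 33321048140, nat_lit 26478025220, nat_lit 24197017580, nat_lit 22571140018, nat_lit 23025164532, nat_lit 23957444886, nat_lit 22060820764], nat_lit 1271250, nat_lit 1271250, nat_lit 490000, nat_lit 780000, nat_lit 0, nat_lit 2175250, [nat_lit 1100000, nat_lit 1785000, nat_lit 1271250], [nat_lit 21, nat_lit 40, nat_lit 40, nat_lit 80, nat_lit 14, nat_lit 428, nat_lit 200, nat_lit 11]⟩,
 zbF0, [⟨nat_lit 19, nat_lit 100, nat_lit 99, nat_lit 77, nat_lit 6711457⟩]⟩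
noncomputable def p050_l81 : Lf2 := ⟨nat_lit 0, nat_lit 15, [nat_lit 30, nat_lit 5, nat_lit 5, nat_lit 20], false, nat_lit 80, nat_lit 160, nat_lit 0, nat_lit 320, ⟨nat_lit 0, nat_lit 0, nat_lit 1000, nat_lit 6, nat_lit 136, nat_lit 1000, nat_lit 79, nat_lit 1000, nat_lit 58017, nat_lit 274, nat_lit 173400, nat_lit 317, nat_lit 56582344, nat_lit 0, nat_lit 0, nat_lit 2786315, false, false⟩,
 nat_lit 8315, nat_lit 0, nat_lit 0, nat_lit 726, nat_lit 4840, nat_lit 0, nat_lit 0, nat_lit 0, nat_lit 0, nat_lit 0, nat_lit 0, nat_lit 0, nat_lit 0, nat_lit 19222077687989, nat_lit 236, nat_lit 1000000, nat_lit 0, nat_lit 0, [(nat_lit 10, [(nat_lit 6, nat_lit 1000)])],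
 ⟨p050_k2, nat_lit 0, nat_lit 0, nat_lit 216, nat_lit 0, nat_lit 102329, [nat_lit 4870400000, nat_lit 4314200001, nat_lit 184520000], [], [nat_lit 11007209817, nat_lit 12219119600, nat_lit 9921717680, nat_lit 11041551200, nat_lit 11400597440, nat_lit 12547723200, nat_lit 10625940881, nat_lit 11779066081], nat_lit 1271250, nat_lit 1271250, nat_lit 205650, nat_lit 780000, nat_lit 490000, nat_lit 1100001, [nat_lit 1100000, nat_lit 1442500, nat_lit 1271250], [nat_lit 48, nat_lit 40, nat_lit 40, nat_lit 80, nat_lit 12, nat_lit 373, nat_lit 150, nat_lit 10]⟩, ⟨p050_k2, nat_lit 0, nat_lit 0, nat_lit 370, nat_lit 0, nat_lit 102329, [nat_lit 0, nat_lit 0, nat_lit 0], [], [nat_lit 0, nat_lit 0, nat_lit 0, nat_lit 0, nat_lit 0, nat_lit 0, nat_lit 0, nat_lit 0], nat_lit 1271250, nat_lit 1271250, nat_lit 205650, nat_lit 780000, nat_lit 0, nat_lit 2260000, [nat_lit 1100000, nat_lit 1442500, nat_lit 1271250], [nat_lit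 48, nat_lit 40, nat_lit 40, nat_lit 80, nat_lit 12, nat_lit 428, nat_lit 200, nat_lit 11]⟩,
 ⟨nat_lit 5477, nat_lit 5917, ⟨.ofNat (nat_lit 242029), .ofNat (nat_lit 406949), .ofNat (nat_lit 263368), .ofNat (nat_lit 428288), .ofNat (nat_lit 256844), .ofNat (nat_lit 414204), .ofNat (nat_lit 278201), .ofNat (nat_lit 435561)⟩, ⟨.ofNat (nat_lit 93684), .ofNat (nat_lit 250751), .ofNat (nat_lit 136362), .ofNat (nat_lit 293429), .ofNat (nat_lit 104343), .ofNat (nat_lit 254209), .ofNat (nat_lit 147057), .ofNat (nat_lit 296923)⟩⟩, [⟨nat_lit 0, nat_lit 100, nat_lit 100, nat_lit 80, nat_lit 182354583⟩]⟩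
noncomputable def p050_l82 : Lf2 := ⟨nat_lit 1, nat_lit 15, [nat_lit 30, nat_lit 5, nat_lit 5, nat_lit 20], false, nat_lit 0, nat_lit 160, nat_lit 0, nat_lit 160, zbN0,
 nat_lit 0, nat_lit 0, nat_lit 0, nat_lit 0, nat_lit 0, nat_lit 0, nat_lit 0, nat_lit 0, nat_lit 0, nat_lit 0, nat_lit 0, nat_lit 0, nat_lit 0, nat_lit 0, nat_lit 0, nat_lit 0, nat_lit 0, nat_lit 0, [],
 C1.Rw.none, C1.Rw.none,
 zbF0, []⟩
noncomputable def p050_l83 : Lf2 := ⟨nat_lit 0, nat_lit 15, [nat_lit 30, nat_lit 5, nat_lit 5, nat_lit 20], false, nat_lit 0, nat_lit 160, nat_lit 0, nat_lit 160, ⟨nat_lit 1000, nat_lit 0, nat_lit 0, nat_lit 0, nat_lit 0, nat_lit 0, nat_lit 0, nat_lit 0, nat_lit 0, nat_lit 0, nat_lit 0, nat_lit 0, nat_lit 0, nat_lit 0, nat_lit 0, nat_lit 0, false, false⟩,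
 nat_lit 13233, nat_lit 0, nat_lit 0, nat_lit 11251, nat_lit 7702, nat_lit 7702, nat_lit 0, nat_lit 0, nat_lit 0, nat_lit 0, nat_lit 0, nat_lit 0, nat_lit 0, nat_lit 0, nat_lit 0, nat_lit 0, nat_lit 0, nat_lit 0, [],
 ⟨p050_k2, nat_lit 0, nat_lit 0, nat_lit 321, nat_lit 0, nat_lit 102329, [nat_lit 4688000000, nat_lit 6250000000, nat_lit 11872000000], [], [nat_lit 38602287604, nat_lit 35790825952, nat_lit 36668664280, nat_lit 37543929256, nat_lit 30327208116, nat_lit 31104066128, nat_lit 31505373612, nat_lit 32203566152], nat_lit 1271250, nat_lit 1271250, nat_lit 780000, nat_lit 1762500, nat_lit 0, nat_lit 1100001, [nat_lit 1100000, nat_lit 1442500, nat_lit 1271250], [nat_lit 48, nat_lit 40, nat_lit 40, nat_lit 80, nat_lit 12, nat_lit 401, nat_lit 175, nat_lit 10]⟩, ⟨p050_k2, nat_lit 0, nat_lit 0, nat_lit 321, nat_lit 0, nat_lit 102329, [nat_lit 4688000000, nat_lit 6250000000, nat_lit 11872000000], [], [nat_lit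 38602287604, nat_lit 35790825952, nat_lit 36668664280, nat_lit 37543929256, nat_lit 30327208116, nat_lit 31104066128, nat_lit 31505373612, nat_lit 32203566152], nat_lit 1271250, nat_lit 1271250, nat_lit 780000, nat_lit 1762500, nat_lit 0, nat_lit 1100001, [nat_lit 1100000, nat_lit 1442500, nat_lit 1271250], [nat_lit 48, nat_lit 40, nat_lit 40, nat_lit 80, nat_lit 12, nat_lit 401, nat_lit 175, nat_lit 10]⟩,
 zbF0, []⟩
noncomputable def p050_l84 : Lf2 := ⟨nat_lit 0, nat_lit 15, [nat_lit 30, nat_lit 5, nat_lit 5, nat_lit 20], false, nat_lit 0, nat_lit 160, nat_lit 160, nat_lit 336, ⟨nat_lit 1000, nat_lit 0, nat_lit 0, nat_lit 0, nat_lit 0, nat_lit 0, nat_lit 0, nat_lit 0, nat_lit 0, nat_lit 0, nat_lit 0, nat_lit 0, nat_lit 0, nat_lit 0, nat_lit 0, nat_lit 0, false, false⟩,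
 nat_lit 32610, nat_lit 0, nat_lit 0, nat_lit 0, nat_lit 8774, nat_lit 17264, nat_lit 3487, nat_lit 0, nat_lit 0, nat_lit 475, nat_lit 0, nat_lit 0, nat_lit 0, nat_lit 0, nat_lit 0, nat_lit 0, nat_lit 0, nat_lit 0, [],
 ⟨p050_k13, nat_lit 0, nat_lit 0, nat_lit 326, nat_lit 0, nat_lit 115479, [nat_lit 4688000000, nat_lit 6250000000, nat_lit 11872000000], [], [nat_lit 15905077057, nat_lit 18356157976, nat_lit 15982775769, nat_lit 19069848240, nat_lit 16373307632, nat_lit 13595590888, nat_lit 20140144000, nat_lit 14106107072], nat_lit 1271250, nat_lit 1271250, nat_lit 780000, nat_lit 1100001, nat_lit 0, nat_lit 1100001, [nat_lit 1100000, nat_lit 1442500, nat_lit 1271250], [nat_lit 48, nat_lit 40, nat_lit 40, nat_lit 80, nat_lit 12, nat_lit 373, nat_lit 150, nat_lit 10]⟩, ⟨p050_k13, nat_lit 0, nat_lit 0, nat_lit 172, nat_lit 0, nat_lit 115479, [nat_lit 4688000000, nat_lit 6250000000, nat_lit 11872000000], [],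 [nat_lit 15997741765, nat_lit 20130917925, nat_lit 20136650944, nat_lit 19254626309, nat_lit 28624333343, nat_lit 30622261817, nat_lit 26916934553, nat_lit 29390371738], nat_lit 1271250, nat_lit 1271250, nat_lit 780000, nat_lit 1100001, nat_lit 1271250, nat_lit 1271250, [nat_lit 1100000, nat_lit 1442500, nat_lit 1271250], [nat_lit 48, nat_lit 40, nat_lit 40, nat_lit 80, nat_lit 12, nat_lit 428, nat_lit 200, nat_lit 11]⟩,
 zbF0, [⟨nat_lit 19, nat_lit 100, nat_lit 92, nat_lit 75, nat_lit 701936705⟩]⟩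
noncomputable def p050_l85 : Lf2 := ⟨nat_lit 0, nat_lit 15, [nat_lit 30, nat_lit 5, nat_lit 5, nat_lit 20], false, nat_lit 0, nat_lit 160, nat_lit 160, nat_lit 336, ⟨nat_lit 1000, nat_lit 0, nat_lit 0, nat_lit 0, nat_lit 0, nat_lit 0, nat_lit 0, nat_lit 0, nat_lit 0, nat_lit 0, nat_lit 0, nat_lit 0, nat_lit 0, nat_lit 0, nat_lit 0, nat_lit 0, false, false⟩,
 nat_lit 13431, nat_lit 0, nat_lit 0, nat_lit 19041, nat_lit 7110, nat_lit 7001, nat_lit 256, nat_lit 0, nat_lit 0, nat_lit 0, nat_lit 0, nat_lit 0, nat_lit 0, nat_lit 0, nat_lit 0, nat_lit 0, nat_lit 0, nat_lit 0, [],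
 ⟨p050_k5, nat_lit 0, nat_lit 0, nat_lit 249, nat_lit 0, nat_lit 115479, [nat_lit 4688000000, nat_lit 7968000001, nat_lit 11872000000], [], [nat_lit 40210514400, nat_lit 32691860040, nat_lit 32798591960, nat_lit 34990050080, nat_lit 28436403161, nat_lit 28004543800, nat_lit 36977476601, nat_lit 30276927281], nat_lit 1271250, nat_lit 1271250, nat_lit 1100001, nat_lit 1785000, nat_lit 0, nat_lit 1100001, [nat_lit 1100000, nat_lit 1785000, nat_lit 1271250], [nat_lit 21, nat_lit 40, nat_lit 40, nat_lit 80, nat_lit 14, nat_lit 401, nat_lit 175, nat_lit 10]⟩, ⟨p050_k5, nat_lit 0, nat_lit 0, nat_lit 118, nat_lit 0, nat_lit 115479, [nat_lit 4688000000, nat_lit 7968000000, nat_lit 11872000000], [], [nat_lit 35356415840, nat_lit 27953026364, nat_lit 30755446548, nat_lit 23973465832, nat_lit 27155422600, nat_lit 28594128326, nat_lit 28496084061, nat_lit 29917422941], nat_lit 1271250, nat_lit 1271250, nat_lit 1100001,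 nat_lit 1785000, nat_lit 1271250, nat_lit 1271250, [nat_lit 1100000, nat_lit 1785000, nat_lit 1271250], [nat_lit 21, nat_lit 40, nat_lit 40, nat_lit 80, nat_lit 14, nat_lit 456, nat_lit 225, nat_lit 11]⟩,
 zbF0, [⟨nat_lit 7, nat_lit 92, nat_lit 100, nat_lit 75, nat_lit 275485426⟩]⟩
noncomputable def b_V_600_600_10_82 : St := ⟨true, nat_lit 1, nat_lit 1, nat_lit 1, nat_lit 80, nat_lit 240, nat_lit 280, nat_lit 240, nat_lit 280, nat_lit 16, nat_lit 240, nat_lit 40, nat_lit 80, nat_lit 0, nat_lit 160, nat_lit 0, nat_lit 336, nat_lit 40, nat_lit 60, nat_lit 0, nat_lit 0, nat_lit 0, nat_lit 0⟩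
theorem d_V_600_600_10_82 (h : EB TB.env) : Dead b_V_600_600_10_82 := chkB_sound0 h (T :=
(.spl (nat_lit 2) (nat_lit 120)
(.spl (nat_lit 1) (nat_lit 260)
(.leaf p050_l69)
(.ord (.trZ (nat_lit 0) (nat_lit 100) (nat_lit 100) (nat_lit 60) (nat_lit 36) (.trX (nat_lit 19) (nat_lit 100) (nat_lit 85) (nat_lit 84) (nat_lit 320) (.spl (nat_lit 4) (nat_lit 80)
(.spl (nat_lit 2) (nat_lit 80)
(.spl (nat_lit 4) (nat_lit 40)
(.spl (nat_lit 0) (nat_lit 270)
(.ord (.leaf p050_l70))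
(.trZ (nat_lit 0) (nat_lit 100) (nat_lit 98) (nat_lit 64) (nat_lit 40) (.spl (nat_lit 0) (nat_lit 275)
(.ord (.spl (nat_lit 6) (nat_lit 48)
(.leaf p050_l71)
(.leaf p050_l72)))
(.trZ (nat_lit 0) (nat_lit 100) (nat_lit 97) (nat_lit 67) (nat_lit 44) (.spl (nat_lit 0) (nat_lit 278)
(.ord (.leaf p050_l73))
(.leaf p050_l74))))))
(.spl (nat_lit 6) (nat_lit 48)
(.leaf p050_l75)
(.spl (nat_lit 6) (nat_lit 56)
(.spl (nat_lit 0) (nat_lit 270)
(.ord (.leaf p050_l76))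
(.trZ (nat_lit 0) (nat_lit 100) (nat_lit 98) (nat_lit 64) (nat_lit 40) (.leaf p050_l77)))
(.leaf p050_l78))))
(.spl (nat_lit 1) (nat_lit 270)
(.leaf p050_l79)
(.ord (.trX (nat_lit 19) (nat_lit 100) (nat_lit 90) (nat_lit 85) (nat_lit 308) (.leaf p050_l80)))))
(.leaf p050_l81))))))
(.spl (nat_lit 5) (nat_lit 160)
(.spl (nat_lit 1) (nat_lit 260)
(.leaf p050_l82)
(.ord (.leaf p050_l83)))
(.spl (nat_lit 2) (nat_lit 160)
(.leaf p050_l84)
(.leaf p050_l85))))) (by decide +kernel)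
noncomputable def p050_l86 : Lf2 := ⟨nat_lit 1, nat_lit 15, [nat_lit 30, nat_lit 5, nat_lit 5, nat_lit 20], false, nat_lit 160, nat_lit 336, nat_lit 0, nat_lit 336, zbN0,
 nat_lit 0, nat_lit 0, nat_lit 0, nat_lit 0, nat_lit 0, nat_lit 0, nat_lit 0, nat_lit 0, nat_lit 0, nat_lit 0, nat_lit 0, nat_lit 0, nat_lit 0, nat_lit 0, nat_lit 0, nat_lit 0, nat_lit 0, nat_lit 0, [],
 C1.Rw.none, C1.Rw.none,
 zbF0, []⟩
noncomputable def p050_l87 : Lf2 := ⟨nat_lit 0, nat_lit 15, [nat_lit 30, nat_lit 5, nat_lit 5, nat_lit 20], true, nat_lit 160, nat_lit 240, nat_lit 0, nat_lit 320, ⟨nat_lit 0, nat_lit 0, nat_lit 1000, nat_lit 6, nat_lit 119, nat_lit 1000, nat_lit 140, nat_lit 1000, nat_lit 183750, nat_lit 320, nat_lit 132017, nat_lit 304, nat_lit 53393822, nat_lit 0, nat_lit 0, nat_lit 3431749, false, false⟩,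
 nat_lit 0, nat_lit 8883, nat_lit 0, nat_lit 575, nat_lit 5170, nat_lit 0, nat_lit 0, nat_lit 0, nat_lit 0, nat_lit 0, nat_lit 0, nat_lit 0, nat_lit 0, nat_lit 0, nat_lit 168, nat_lit 735400, nat_lit 0, nat_lit 0, [(nat_lit 10, [(nat_lit 5, nat_lit 441), (nat_lit 6, nat_lit 559)])],
 ⟨p050_k2, nat_lit 0, nat_lit 0, nat_lit 170, nat_lit 0, nat_lit 44764, [nat_lit 3981379201, nat_lit 3042135401, nat_lit 34915000], [], [nat_lit 13360235420, nat_lit 14482940181, nat_lit 12283400700, nat_lit 13367788360, nat_lit 15798127849, nat_lit 16863601089, nat_lit 14801287502, nat_lit 15581862520], nat_lit 1271250, nat_lit 1271250, nat_lit 205650, nat_lit 490000, nat_lit 1100001, nat_lit 1785000, [nat_lit 1100000, nat_lit 1442500, nat_lit 1271250], [nat_lit 48, nat_lit 40, nat_lit 40, nat_lit 80, nat_lit 12, nat_lit 373, nat_lit 150, nat_lit 9]⟩, C1.Rw.none,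
 ⟨nat_lit 5477, nat_lit 5917, ⟨.ofNat (nat_lit 242029), .ofNat (nat_lit 328416), .ofNat (nat_lit 252698), .ofNat (nat_lit 339085), .ofNat (nat_lit 256844), .ofNat (nat_lit 339271), .ofNat (nat_lit 267523), .ofNat (nat_lit 349949)⟩, ⟨.ofNat (nat_lit 250751), .ofNat (nat_lit 407818), .ofNat (nat_lit 293429), .ofNat (nat_lit 450496), .ofNat (nat_lit 254209), .ofNat (nat_lit 404075), .ofNat (nat_lit 296923), .ofNat (nat_lit 446789)⟩⟩, [⟨nat_lit 0, nat_lit 100, nat_lit 98, nat_lit 74, nat_lit 248954260⟩]⟩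
noncomputable def p050_l88 : Lf2 := ⟨nat_lit 0, nat_lit 15, [nat_lit 30, nat_lit 5, nat_lit 5, nat_lit 20], true, nat_lit 160, nat_lit 240, nat_lit 0, nat_lit 308, ⟨nat_lit 0, nat_lit 0, nat_lit 1000, nat_lit 6, nat_lit 127, nat_lit 1000, nat_lit 140, nat_lit 1000, nat_lit 183750, nat_lit 320, nat_lit 150417, nat_lit 310, nat_lit 52740645, nat_lit 0, nat_lit 0, nat_lit 3546789, false, false⟩,
 nat_lit 0, nat_lit 7331, nat_lit 0, nat_lit 0, nat_lit 4464, nat_lit 0, nat_lit 0, nat_lit 0, nat_lit 0, nat_lit 0, nat_lit 0, nat_lit 0, nat_lit 0, nat_lit 0, nat_lit 81, nat_lit 400000, nat_lit 0, nat_lit 0, [(nat_lit 10, [(nat_lit 5, nat_lit 1000)])],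
 ⟨p050_k1, nat_lit 0, nat_lit 0, nat_lit 154, nat_lit 0, nat_lit 40959, [nat_lit 2841600000, nat_lit 644000001, nat_lit 28400000], [], [nat_lit 11729881154, nat_lit 12122142081, nat_lit 11432815528, nat_lit 11813428916, nat_lit 15431048972, nat_lit 15761500976, nat_lit 15051932632, nat_lit 15372876476], nat_lit 1271250, nat_lit 1271250, nat_lit 279600, nat_lit 490000, nat_lit 1100001, nat_lit 1785000, [nat_lit 1100000, nat_lit 1785000, nat_lit 1271250], [nat_lit 21, nat_lit 40, nat_lit 40, nat_lit 80, nat_lit 14, nat_lit 373, nat_lit 150, nat_lit 9]⟩, C1.Rw.none,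
 ⟨nat_lit 5590, nat_lit 5701, ⟨.ofNat (nat_lit 283163), .ofNat (nat_lit 344538), .ofNat (nat_lit 288499), .ofNat (nat_lit 349874), .ofNat (nat_lit 286590), .ofNat (nat_lit 347248), .ofNat (nat_lit 291927), .ofNat (nat_lit 352585)⟩, ⟨.ofNat (nat_lit 252544), .ofNat (nat_lit 405982), .ofNat (nat_lit 295228), .ofNat (nat_lit 448666), .ofNat (nat_lit 253393), .ofNat (nat_lit 405038), .ofNat (nat_lit 296088), .ofNat (nat_lit 447734)⟩⟩, [⟨nat_lit 0, nat_lit 100, nat_lit 100, nat_lit 75, nat_lit 175235926⟩]⟩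
noncomputable def p050_l89 : Lf2 := ⟨nat_lit 0, nat_lit 15, [nat_lit 30, nat_lit 5, nat_lit 5, nat_lit 20], true, nat_lit 160, nat_lit 240, nat_lit 0, nat_lit 308, ⟨nat_lit 0, nat_lit 0, nat_lit 1000, nat_lit 6, nat_lit 131, nat_lit 1000, nat_lit 140, nat_lit 1000, nat_lit 183750, nat_lit 320, nat_lit 160067, nat_lit 313, nat_lit 52443417, nat_lit 0, nat_lit 0, nat_lit 3597020, false, false⟩,
 nat_lit 0, nat_lit 7127, nat_lit 0, nat_lit 0, nat_lit 4437, nat_lit 0, nat_lit 0, nat_lit 0, nat_lit 0, nat_lit 0, nat_lit 0, nat_lit 0, nat_lit 0, nat_lit 23156599642677, nat_lit 79, nat_lit 400000, nat_lit 0, nat_lit 0, [(nat_lit 10, [(nat_lit 5, nat_lit 1000)])],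
 ⟨p050_k7, nat_lit 0, nat_lit 0, nat_lit 153, nat_lit 0, nat_lit 94023, [nat_lit 2809600000, nat_lit 596000000, nat_lit 8400000], [], [nat_lit 12113018325, nat_lit 12502573461, nat_lit 11848009666, nat_lit 12227416032, nat_lit 15735122173, nat_lit 16063418895, nat_lit 15400420958, nat_lit 15720432060], nat_lit 1271250, nat_lit 1271250, nat_lit 304850, nat_lit 490000, nat_lit 1100001, nat_lit 1785000, [nat_lit 1100000, nat_lit 1785000, nat_lit 1271250], [nat_lit 29, nat_lit 40, nat_lit 40, nat_lit 80, nat_lit 17, nat_lit 373, nat_lit 150, nat_lit 10]⟩, C1.Rw.none,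
 ⟨nat_lit 5477, nat_lit 5591, ⟨.ofNat (nat_lit 294172), .ofNat (nat_lit 347248), .ofNat (nat_lit 304846), .ofNat (nat_lit 357922), .ofNat (nat_lit 297496), .ofNat (nat_lit 349949), .ofNat (nat_lit 308174), .ofNat (nat_lit 360628)⟩, ⟨.ofNat (nat_lit 253393), .ofNat (nat_lit 405038), .ofNat (nat_lit 296088), .ofNat (nat_lit 447734), .ofNat (nat_lit 254209), .ofNat (nat_lit 404075), .ofNat (nat_lit 296923), .ofNat (nat_lit 446789)⟩⟩, [⟨nat_lit 0, nat_lit 100, nat_lit 100, nat_lit 80, nat_lit 174699696⟩]⟩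
noncomputable def p050_l90 : Lf2 := ⟨nat_lit 0, nat_lit 15, [nat_lit 30, nat_lit 5, nat_lit 5, nat_lit 20], false, nat_lit 160, nat_lit 240, nat_lit 0, nat_lit 320, ⟨nat_lit 484, nat_lit 0, nat_lit 516, nat_lit 6, nat_lit 168, nat_lit 516, nat_lit 140, nat_lit 516, nat_lit 183750, nat_lit 320, nat_lit 25370, nat_lit 254, nat_lit 49368644, nat_lit 0, nat_lit 0, nat_lit 4047208, false, false⟩,
 nat_lit 10429, nat_lit 0, nat_lit 0, nat_lit 0, nat_lit 6070, nat_lit 3702, nat_lit 0, nat_lit 0, nat_lit 0, nat_lit 295, nat_lit 0, nat_lit 0, nat_lit 0, nat_lit 0, nat_lit 0, nat_lit 206400, nat_lit 0, nat_lit 0, [(nat_lit 10, [(nat_lit 5, nat_lit 516)])],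
 ⟨p050_k2, nat_lit 0, nat_lit 0, nat_lit 147, nat_lit 0, nat_lit 102329, [nat_lit 3066521600, nat_lit 2918497600, nat_lit 4423230400], [], [nat_lit 9920209860, nat_lit 11729845120, nat_lit 11144548640, nat_lit 12743854320, nat_lit 14126137320, nat_lit 15631836200, nat_lit 14855061140, nat_lit 16188225000], nat_lit 1271250, nat_lit 1271250, nat_lit 490000, nat_lit 1100001, nat_lit 1100001, nat_lit 1785000, [nat_lit 1100000, nat_lit 1442500, nat_lit 1271250], [nat_lit 48, nat_lit 40, nat_lit 40, nat_lit 80, nat_lit 12, nat_lit 401, nat_lit 175, nat_lit 10]⟩, ⟨p050_k2, nat_lit 0, nat_lit 0, nat_lit 340, nat_lit 0, nat_lit 102329, [nat_lit 2268992000, nat_lit 3025000000, nat_lit 5746048000], [], [nat_lit 22358701089, nat_lit 20370956613, nat_lit 14961982940, nat_lit 15476161084, nat_lit 17438872309, nat_lit 15762577093, nat_lit 21032982945, nat_lit 19399120053], nat_lit 1271250, nat_lit 1271250, nat_lit 490000,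 nat_lit 1100001, nat_lit 0, nat_lit 2260000, [nat_lit 1100000, nat_lit 1442500, nat_lit 1271250], [nat_lit 48, nat_lit 40, nat_lit 40, nat_lit 80, nat_lit 12, nat_lit 428, nat_lit 200, nat_lit 11]⟩,
 ⟨nat_lit 5477, nat_lit 5917, ⟨.ofNat (nat_lit 328416), .ofNat (nat_lit 485478), .ofNat (nat_lit 349755), .ofNat (nat_lit 506809), .ofNat (nat_lit 339271), .ofNat (nat_lit 489132), .ofNat (nat_lit 360628), .ofNat (nat_lit 510480)⟩, ⟨.ofNat (nat_lit 250751), .ofNat (nat_lit 407818), .ofNat (nat_lit 293429), .ofNat (nat_lit 450496), .ofNat (nat_lit 254209), .ofNat (nat_lit 404075), .ofNat (nat_lit 296923), .ofNat (nat_lit 446789)⟩⟩, [⟨nat_lit 7, nat_lit 97, nat_lit 100, nat_lit 76, nat_lit 23310220⟩]⟩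
noncomputable def p050_l91 : Lf2 := ⟨nat_lit 0, nat_lit 15, [nat_lit 30, nat_lit 5, nat_lit 5, nat_lit 20], false, nat_lit 160, nat_lit 240, nat_lit 0, nat_lit 320, ⟨nat_lit 1000, nat_lit 0, nat_lit 0, nat_lit 0, nat_lit 0, nat_lit 0, nat_lit 0, nat_lit 0, nat_lit 0, nat_lit 0, nat_lit 0, nat_lit 0, nat_lit 0, nat_lit 0, nat_lit 0, nat_lit 0, false, false⟩,
 nat_lit 22087, nat_lit 0, nat_lit 0, nat_lit 0, nat_lit 12433, nat_lit 12856, nat_lit 0, nat_lit 0, nat_lit 0, nat_lit 99, nat_lit 0, nat_lit 0, nat_lit 0, nat_lit 31176111256096, nat_lit 0, nat_lit 0, nat_lit 0, nat_lit 0, [],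
 ⟨p050_k2, nat_lit 0, nat_lit 0, nat_lit 107, nat_lit 0, nat_lit 102329, [nat_lit 4688000000, nat_lit 6250000000, nat_lit 11872000000], [], [nat_lit 37060115166, nat_lit 30486315612, nat_lit 25991544808, nat_lit 27206926668, nat_lit 25991544808, nat_lit 27206926668, nat_lit 27461264490, nat_lit 28415279376], nat_lit 1271250, nat_lit 1271250, nat_lit 1100001, nat_lit 1785000, nat_lit 1100001, nat_lit 1785000, [nat_lit 1100000, nat_lit 1442500, nat_lit 1271250], [nat_lit 48, nat_lit 40, nat_lit 40, nat_lit 80, nat_lit 12, nat_lit 428, nat_lit 200, nat_lit 10]⟩, ⟨p050_k2, nat_lit 0, nat_lit 0, nat_lit 227, nat_lit 0, nat_lit 102329, [nat_lit 4688000000, nat_lit 6250000000, nat_lit 11872000000], [], [nat_lit 42169043312, nat_lit 35968890731, nat_lit 36922237467, nat_lit 38430793643, nat_lit 30298128059, nat_lit 31168747115, nat_lit 37245579753, nat_lit 31424280105], nat_lit 1271250, nat_lit 1271250, nat_lit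 1100001, nat_lit 1785000, nat_lit 0, nat_lit 2260000, [nat_lit 1100000, nat_lit 1442500, nat_lit 1271250], [nat_lit 48, nat_lit 40, nat_lit 40, nat_lit 80, nat_lit 12, nat_lit 456, nat_lit 225, nat_lit 12]⟩,
 zbF0, []⟩
noncomputable def p050_l92 : Lf2 := ⟨nat_lit 1, nat_lit 15, [nat_lit 30, nat_lit 5, nat_lit 5, nat_lit 20], false, nat_lit 240, nat_lit 296, nat_lit 0, nat_lit 296, zbN0,
 nat_lit 0, nat_lit 0, nat_lit 0, nat_lit 0, nat_lit 0, nat_lit 0, nat_lit 0, nat_lit 0, nat_lit 0, nat_lit 0, nat_lit 0, nat_lit 0, nat_lit 0, nat_lit 0, nat_lit 0, nat_lit 0, nat_lit 0, nat_lit 0, [],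
 C1.Rw.none, C1.Rw.none,
 zbF0, []⟩
noncomputable def p050_l93 : Lf2 := ⟨nat_lit 0, nat_lit 12, [nat_lit 126, nat_lit 5, nat_lit 5, nat_lit 20], false, nat_lit 240, nat_lit 288, nat_lit 0, nat_lit 296, ⟨nat_lit 1000, nat_lit 0, nat_lit 0, nat_lit 0, nat_lit 0, nat_lit 0, nat_lit 0, nat_lit 0, nat_lit 0, nat_lit 0, nat_lit 0, nat_lit 0, nat_lit 0, nat_lit 0, nat_lit 0, nat_lit 0, false, false⟩,
 nat_lit 28708, nat_lit 0, nat_lit 0, nat_lit 1484, nat_lit 7278, nat_lit 16710, nat_lit 0, nat_lit 0, nat_lit 0, nat_lit 0, nat_lit 0, nat_lit 0, nat_lit 0, nat_lit 7515681037855, nat_lit 0, nat_lit 0, nat_lit 0, nat_lit 0, [],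
 ⟨p050_k6, nat_lit 0, nat_lit 0, nat_lit 117, nat_lit 0, nat_lit 35218, [nat_lit 4688000000, nat_lit 6250000000, nat_lit 9842000000], [], [nat_lit 16491047512, nat_lit 16929729613, nat_lit 15024671082, nat_lit 15420113397, nat_lit 21253579609, nat_lit 21692867284, nat_lit 18787115402, nat_lit 19191873029], nat_lit 1271250, nat_lit 1271250, nat_lit 230001, nat_lit 780000, nat_lit 1271250, nat_lit 1271250, [nat_lit 1100000, nat_lit 1442500, nat_lit 1271250], [nat_lit 11, nat_lit 40, nat_lit 40, nat_lit 80, nat_lit 1, nat_lit 401, nat_lit 175, nat_lit 11]⟩, ⟨p050_k3, nat_lit 0, nat_lit 0, nat_lit 242, nat_lit 0, nat_lit 37215, [nat_lit 4688000000, nat_lit 6250000000, nat_lit 9842000000], [], [nat_lit 34365747960, nat_lit 36794460780, nat_lit 26925344060, nat_lit 29137009265, nat_lit 29176968543, nat_lit 30446364940, nat_lit 22073039357, nat_lit 23208163688], nat_lit 1271250, nat_lit 1271250, nat_lit 230001,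 nat_lit 780000, nat_lit 0, nat_lit 2090500, [nat_lit 1100000, nat_lit 1442500, nat_lit 1271250], [nat_lit 11, nat_lit 40, nat_lit 40, nat_lit 80, nat_lit 1, nat_lit 401, nat_lit 175, nat_lit 12]⟩,
 zbF0, [⟨nat_lit 0, nat_lit 100, nat_lit 100, nat_lit 75, nat_lit 1182581320⟩, ⟨nat_lit 4, nat_lit 100, nat_lit 99, nat_lit 70, nat_lit 1056830989⟩, ⟨nat_lit 19, nat_lit 100, nat_lit 99, nat_lit 70, nat_lit 103446900⟩]⟩
noncomputable def p050_l94 : Lf2 := ⟨nat_lit 1, nat_lit 15, [nat_lit 30, nat_lit 5, nat_lit 5, nat_lit 20], false, nat_lit 240, nat_lit 288, nat_lit 0, nat_lit 296, zbN0,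
 nat_lit 0, nat_lit 0, nat_lit 0, nat_lit 0, nat_lit 0, nat_lit 0, nat_lit 0, nat_lit 0, nat_lit 0, nat_lit 0, nat_lit 0, nat_lit 0, nat_lit 0, nat_lit 0, nat_lit 0, nat_lit 0, nat_lit 0, nat_lit 0, [],
 C1.Rw.none, C1.Rw.none,
 zbF0, []⟩
noncomputable def p050_l95 : Lf2 := ⟨nat_lit 0, nat_lit 12, [nat_lit 126, nat_lit 5, nat_lit 5, nat_lit 20], false, nat_lit 240, nat_lit 280, nat_lit 0, nat_lit 160, ⟨nat_lit 1000, nat_lit 0, nat_lit 0, nat_lit 0, nat_lit 0, nat_lit 0, nat_lit 0, nat_lit 0, nat_lit 0, nat_lit 0, nat_lit 0, nat_lit 0, nat_lit 0, nat_lit 0, nat_lit 0, nat_lit 0, false, false⟩,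
 nat_lit 14134, nat_lit 10861, nat_lit 0, nat_lit 0, nat_lit 15562, nat_lit 8227, nat_lit 387, nat_lit 0, nat_lit 0, nat_lit 1735, nat_lit 0, nat_lit 0, nat_lit 0, nat_lit 0, nat_lit 0, nat_lit 0, nat_lit 0, nat_lit 0, [],
 ⟨p050_k9, nat_lit 0, nat_lit 0, nat_lit 154, nat_lit 0, nat_lit 83777, [nat_lit 4688000000, nat_lit 7968000001, nat_lit 9842000000], [], [nat_lit 22316429325, nat_lit 22821530468, nat_lit 18730216090, nat_lit 19215803746, nat_lit 26267209312, nat_lit 27026981899, nat_lit 22529699172, nat_lit 22944832166], nat_lit 1271250, nat_lit 1271250, nat_lit 254650, nat_lit 490000, nat_lit 1271250, nat_lit 1271250, [nat_lit 1100000, nat_lit 1785000, nat_lit 1271250], [nat_lit 29, nat_lit 40, nat_lit 40, nat_lit 80, nat_lit 17, nat_lit 401, nat_lit 175, nat_lit 11]⟩, ⟨p050_k10, nat_lit 0, nat_lit 0, nat_lit 294, nat_lit 0, nat_lit 90936, [nat_lit 4688000000, nat_lit 7968000000, nat_lit 9842000000],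 [], [nat_lit 20895003317, nat_lit 22845576052, nat_lit 18974417394, nat_lit 20868263340, nat_lit 15595747121, nat_lit 17138572841, nat_lit 14487943878, nat_lit 15970473968], nat_lit 1271250, nat_lit 1271250, nat_lit 254650, nat_lit 490000, nat_lit 0, nat_lit 1100001, [nat_lit 1100000, nat_lit 1785000, nat_lit 1271250], [nat_lit 29, nat_lit 40, nat_lit 40, nat_lit 80, nat_lit 17, nat_lit 373, nat_lit 150, nat_lit 11]⟩,
 zbF0, [⟨nat_lit 0, nat_lit 100, nat_lit 98, nat_lit 73, nat_lit 1450212134⟩, ⟨nat_lit 4, nat_lit 100, nat_lit 97, nat_lit 70, nat_lit 1072320269⟩]⟩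
noncomputable def p050_l96 : Lf2 := ⟨nat_lit 0, nat_lit 12, [nat_lit 126, nat_lit 5, nat_lit 5, nat_lit 20], true, nat_lit 240, nat_lit 280, nat_lit 160, nat_lit 296, ⟨nat_lit 0, nat_lit 0, nat_lit 1000, nat_lit 6, nat_lit 124, nat_lit 1000, nat_lit 181, nat_lit 1000, nat_lit 34494, nat_lit 260, nat_lit 144150, nat_lit 308, nat_lit 49468368, nat_lit 0, nat_lit 0, nat_lit 3979310, false, false⟩,
 nat_lit 0, nat_lit 7074, nat_lit 0, nat_lit 5826, nat_lit 4404, nat_lit 0, nat_lit 0, nat_lit 0, nat_lit 0, nat_lit 0, nat_lit 0, nat_lit 0, nat_lit 0, nat_lit 0, nat_lit 79, nat_lit 400000, nat_lit 0, nat_lit 0, [(nat_lit 10, [(nat_lit 5, nat_lit 1000)])],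
 ⟨p050_k14, nat_lit 0, nat_lit 0, nat_lit 113, nat_lit 0, nat_lit 35465, [nat_lit 2809600000, nat_lit 1374266667, nat_lit 8400000], [], [nat_lit 15856016934, nat_lit 16202046042, nat_lit 15434086436, nat_lit 15752957520, nat_lit 18786793886, nat_lit 19129871693, nat_lit 18042051041, nat_lit 18376077024], nat_lit 1271250, nat_lit 1271250, nat_lit 254650, nat_lit 490000, nat_lit 1271250, nat_lit 1271250, [nat_lit 1100000, nat_lit 1442500, nat_lit 1271250], [nat_lit 11, nat_lit 40, nat_lit 40, nat_lit 80, nat_lit 1, nat_lit 401, nat_lit 175, nat_lit 11]⟩, C1.Rw.none,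
 ⟨nat_lit 5477, nat_lit 5591, ⟨.ofNat (nat_lit 268334), .ofNat (nat_lit 336574), .ofNat (nat_lit 279008), .ofNat (nat_lit 347248), .ofNat (nat_lit 271831), .ofNat (nat_lit 339271), .ofNat (nat_lit 282509), .ofNat (nat_lit 349949)⟩, ⟨.ofNat (nat_lit 405038), .ofNat (nat_lit 480861), .ofNat (nat_lit 426386), .ofNat (nat_lit 502209), .ofNat (nat_lit 404075), .ofNat (nat_lit 479008), .ofNat (nat_lit 425432), .ofNat (nat_lit 500365)⟩⟩, [⟨nat_lit 0, nat_lit 100, nat_lit 98, nat_lit 74, nat_lit 175481960⟩, ⟨nat_lit 4, nat_lit 100, nat_lit 97, nat_lit 70, nat_lit 524531117⟩]⟩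
noncomputable def p050_l97 : Lf2 := ⟨nat_lit 0, nat_lit 12, [nat_lit 126, nat_lit 5, nat_lit 5, nat_lit 20], false, nat_lit 240, nat_lit 280, nat_lit 160, nat_lit 288, ⟨nat_lit 1000, nat_lit 0, nat_lit 0, nat_lit 0, nat_lit 0, nat_lit 0, nat_lit 0, nat_lit 0, nat_lit 0, nat_lit 0, nat_lit 0, nat_lit 0, nat_lit 0, nat_lit 0, nat_lit 0, nat_lit 0, false, false⟩,
 nat_lit 29047, nat_lit 0, nat_lit 0, nat_lit 12747, nat_lit 18085, nat_lit 17690, nat_lit 0, nat_lit 0, nat_lit 0, nat_lit 0, nat_lit 0, nat_lit 0, nat_lit 0, nat_lit 0, nat_lit 0, nat_lit 0, nat_lit 0, nat_lit 0, [],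
 ⟨p050_k14, nat_lit 0, nat_lit 0, nat_lit 146, nat_lit 0, nat_lit 83777, [nat_lit 4688000000, nat_lit 6250000000, nat_lit 9842000000], [], [nat_lit 22659487432, nat_lit 23217083325, nat_lit 19337279200, nat_lit 19877585680, nat_lit 27020826216, nat_lit 27659805786, nat_lit 23564551439, nat_lit 24023943530], nat_lit 1271250, nat_lit 1271250, nat_lit 304850, nat_lit 490000, nat_lit 1271250, nat_lit 1271250, [nat_lit 1100000, nat_lit 1442500, nat_lit 1271250], [nat_lit 11, nat_lit 40, nat_lit 40, nat_lit 80, nat_lit 1, nat_lit 401, nat_lit 175, nat_lit 11]⟩, ⟨p050_k6, nat_lit 0, nat_lit 0, nat_lit 155, nat_lit 0, nat_lit 86055, [nat_lit 4688000000, nat_lit 6250000000, nat_lit 9842000000], [], [nat_lit 18089744496, nat_lit 19473723284, nat_lit 14980123820, nat_lit 16322028360, nat_lit 27544744089, nat_lit 28874552180, nat_lit 24161897522, nat_lit 25035112601], nat_lit 1271250, nat_lit 1271250, nat_lit 304850,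 nat_lit 490000, nat_lit 1100001, nat_lit 2196000, [nat_lit 1100000, nat_lit 1442500, nat_lit 1271250], [nat_lit 11, nat_lit 40, nat_lit 40, nat_lit 80, nat_lit 1, nat_lit 401, nat_lit 175, nat_lit 11]⟩,
 zbF0, [⟨nat_lit 0, nat_lit 100, nat_lit 99, nat_lit 76, nat_lit 1870874013⟩, ⟨nat_lit 4, nat_lit 100, nat_lit 97, nat_lit 70, nat_lit 1147923049⟩, ⟨nat_lit 7, nat_lit 100, nat_lit 98, nat_lit 70, nat_lit 838729323⟩]⟩
noncomputable def p050_l98 : Lf2 := ⟨nat_lit 0, nat_lit 15, [nat_lit 30, nat_lit 5, nat_lit 5, nat_lit 20], true, nat_lit 240, nat_lit 280, nat_lit 0, nat_lit 296, ⟨nat_lit 0, nat_lit 1000, nat_lit 0, nat_lit 6, nat_lit 126, nat_lit 1000, nat_lit 181, nat_lit 0, nat_lit 0, nat_lit 0, nat_lit 0, nat_lit 0, nat_lit 49318545, nat_lit 6398373, nat_lit 11283082, nat_lit 4005954, false, false⟩,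
 nat_lit 0, nat_lit 10888, nat_lit 0, nat_lit 2483, nat_lit 6779, nat_lit 0, nat_lit 0, nat_lit 0, nat_lit 0, nat_lit 0, nat_lit 0, nat_lit 0, nat_lit 0, nat_lit 21858699861114, nat_lit 0, nat_lit 250000, nat_lit 0, nat_lit 0, [(nat_lit 10, [(nat_lit 0, nat_lit 1000)])],
 ⟨p050_k7, nat_lit 0, nat_lit 0, nat_lit 113, nat_lit 0, nat_lit 40067, [nat_lit 3808000001, nat_lit 3378400001, nat_lit 3615200000], [], [nat_lit 16593860612, nat_lit 17086425742, nat_lit 15273592187, nat_lit 15674510021, nat_lit 20378711914, nat_lit 20810785543, nat_lit 18867328510, nat_lit 19287260024], nat_lit 1271250, nat_lit 1271250, nat_lit 254650, nat_lit 490000, nat_lit 1271250, nat_lit 1271250, [nat_lit 1100000, nat_lit 1785000, nat_lit 1271250], [nat_lit 29, nat_lit 40, nat_lit 40, nat_lit 80, nat_lit 17, nat_lit 401, nat_lit 175, nat_lit 11]⟩, C1.Rw.none,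
 ⟨nat_lit 5477, nat_lit 5591, ⟨.ofNat (nat_lit 268334), .ofNat (nat_lit 336574), .ofNat (nat_lit 289681), .ofNat (nat_lit 357922), .ofNat (nat_lit 271831), .ofNat (nat_lit 339271), .ofNat (nat_lit 293188), .ofNat (nat_lit 360628)⟩, ⟨.ofNat (nat_lit 405038), .ofNat (nat_lit 480861), .ofNat (nat_lit 426386), .ofNat (nat_lit 502209), .ofNat (nat_lit 404075), .ofNat (nat_lit 479008), .ofNat (nat_lit 425432), .ofNat (nat_lit 500365)⟩⟩, [⟨nat_lit 0, nat_lit 100, nat_lit 100, nat_lit 80, nat_lit 301841103⟩, ⟨nat_lit 4, nat_lit 100, nat_lit 97, nat_lit 70, nat_lit 603677033⟩]⟩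
noncomputable def p050_l99 : Lf2 := ⟨nat_lit 0, nat_lit 15, [nat_lit 30, nat_lit 5, nat_lit 5, nat_lit 20], false, nat_lit 240, nat_lit 280, nat_lit 0, nat_lit 296, ⟨nat_lit 1000, nat_lit 0, nat_lit 0, nat_lit 0, nat_lit 0, nat_lit 0, nat_lit 0, nat_lit 0, nat_lit 0, nat_lit 0, nat_lit 0, nat_lit 0, nat_lit 0, nat_lit 0, nat_lit 0, nat_lit 0, false, false⟩,
 nat_lit 14913, nat_lit 0, nat_lit 0, nat_lit 12363, nat_lit 7620, nat_lit 8680, nat_lit 0, nat_lit 0, nat_lit 0, nat_lit 1130, nat_lit 0, nat_lit 0, nat_lit 0, nat_lit 0, nat_lit 0, nat_lit 0, nat_lit 0, nat_lit 0, [],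
 ⟨p050_k7, nat_lit 0, nat_lit 0, nat_lit 99, nat_lit 0, nat_lit 88910, [nat_lit 4688000000, nat_lit 7968000001, nat_lit 9842000000], [], [nat_lit 15295632580, nat_lit 15725603600, nat_lit 15018831630, nat_lit 15425232480, nat_lit 19159563605, nat_lit 19609914720, nat_lit 18513018625, nat_lit 18940890640], nat_lit 1271250, nat_lit 1271250, nat_lit 490000, nat_lit 780000, nat_lit 1271250, nat_lit 1271250, [nat_lit 1100000, nat_lit 1785000, nat_lit 1271250], [nat_lit 29, nat_lit 40, nat_lit 40, nat_lit 80, nat_lit 17, nat_lit 401, nat_lit 175, nat_lit 11]⟩, ⟨p050_k0, nat_lit 0, nat_lit 0, nat_lit 341, nat_lit 0, nat_lit 96608, [nat_lit 4688000000, nat_lit 7968000000, nat_lit 11872000000], [], [nat_lit 39428997360, nat_lit 34839551520, nat_lit 30319198480, nat_lit 27273901070, nat_lit 24803963711, nat_lit 25433095183, nat_lit 26819809768, nat_lit 24500893856], nat_lit 1271250, nat_lit 1271250, nat_lit 490000,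 nat_lit 780000, nat_lit 0, nat_lit 2090500, [nat_lit 1100000, nat_lit 1785000, nat_lit 1271250], [nat_lit 21, nat_lit 40, nat_lit 40, nat_lit 80, nat_lit 14, nat_lit 401, nat_lit 175, nat_lit 10]⟩,
 zbF0, [⟨nat_lit 4, nat_lit 100, nat_lit 97, nat_lit 70, nat_lit 1060212413⟩]⟩
noncomputable def p050_l100 : Lf2 := ⟨nat_lit 1, nat_lit 15, [nat_lit 30, nat_lit 5, nat_lit 5, nat_lit 20], false, nat_lit 240, nat_lit 320, nat_lit 0, nat_lit 320, zbN0,
 nat_lit 0, nat_lit 0, nat_lit 0, nat_lit 0, nat_lit 0, nat_lit 0, nat_lit 0, nat_lit 0, nat_lit 0, nat_lit 0, nat_lit 0, nat_lit 0, nat_lit 0, nat_lit 0, nat_lit 0, nat_lit 0, nat_lit 0, nat_lit 0, [],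
 C1.Rw.none, C1.Rw.none,
 zbF0, []⟩
noncomputable def p050_l101 : Lf2 := ⟨nat_lit 1, nat_lit 15, [nat_lit 30, nat_lit 5, nat_lit 5, nat_lit 20], false, nat_lit 240, nat_lit 320, nat_lit 0, nat_lit 320, zbN0,
 nat_lit 0, nat_lit 0, nat_lit 0, nat_lit 0, nat_lit 0, nat_lit 0, nat_lit 0, nat_lit 0, nat_lit 0, nat_lit 0, nat_lit 0, nat_lit 0, nat_lit 0, nat_lit 0, nat_lit 0, nat_lit 0, nat_lit 0, nat_lit 0, [],
 C1.Rw.none, C1.Rw.none,
 zbF0, []⟩
noncomputable def p050_l102 : Lf2 := ⟨nat_lit 0, nat_lit 15, [nat_lit 30, nat_lit 5, nat_lit 5, nat_lit 20], false, nat_lit 240, nat_lit 308, nat_lit 0, nat_lit 320, ⟨nat_lit 1000, nat_lit 0, nat_lit 0, nat_lit 0, nat_lit 0, nat_lit 0, nat_lit 0, nat_lit 0, nat_lit 0, nat_lit 0, nat_lit 0, nat_lit 0, nat_lit 0, nat_lit 0, nat_lit 0, nat_lit 0, false, false⟩,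
 nat_lit 13942, nat_lit 0, nat_lit 0, nat_lit 13328, nat_lit 7790, nat_lit 8115, nat_lit 0, nat_lit 0, nat_lit 0, nat_lit 627, nat_lit 0, nat_lit 0, nat_lit 0, nat_lit 0, nat_lit 0, nat_lit 0, nat_lit 0, nat_lit 0, [],
 ⟨p050_k1, nat_lit 0, nat_lit 0, nat_lit 86, nat_lit 0, nat_lit 96663, [nat_lit 4688000000, nat_lit 7968000001, nat_lit 11872000000], [], [nat_lit 14407516010, nat_lit 15231212160, nat_lit 18536641290, nat_lit 19294981920, nat_lit 20808118071, nat_lit 21589699080, nat_lit 23623806002, nat_lit 24224005440], nat_lit 1271250, nat_lit 1271250, nat_lit 780000, nat_lit 1762500, nat_lit 1271250, nat_lit 1271250, [nat_lit 1100000, nat_lit 1785000, nat_lit 1271250], [nat_lit 21, nat_lit 40, nat_lit 40, nat_lit 80, nat_lit 14, nat_lit 456, nat_lit 225, nat_lit 11]⟩, ⟨p050_k0, nat_lit 0, nat_lit 0, nat_lit 321, nat_lit 0, nat_lit 102329, [nat_lit 4688000000, nat_lit 7968000000, nat_lit 11872000000],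 [], [nat_lit 46099225470, nat_lit 41741973600, nat_lit 33009098575, nat_lit 33807915905, nat_lit 30439226175, nat_lit 30964339025, nat_lit 43528866200, nat_lit 39901461200], nat_lit 1271250, nat_lit 1271250, nat_lit 780000, nat_lit 1762500, nat_lit 0, nat_lit 2260000, [nat_lit 1100000, nat_lit 1785000, nat_lit 1271250], [nat_lit 21, nat_lit 40, nat_lit 40, nat_lit 80, nat_lit 14, nat_lit 456, nat_lit 225, nat_lit 12]⟩,
 zbF0, [⟨nat_lit 4, nat_lit 99, nat_lit 100, nat_lit 77, nat_lit 920307866⟩]⟩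
noncomputable def b_V_600_600_10_83 : St := ⟨true, nat_lit 1, nat_lit 1, nat_lit 1, nat_lit 80, nat_lit 240, nat_lit 280, nat_lit 240, nat_lit 280, nat_lit 16, nat_lit 240, nat_lit 40, nat_lit 80, nat_lit 160, nat_lit 336, nat_lit 0, nat_lit 336, nat_lit 40, nat_lit 60, nat_lit 0, nat_lit 0, nat_lit 0, nat_lit 0⟩
theorem d_V_600_600_10_83 (h : EB TB.env) : Dead b_V_600_600_10_83 := chkB_sound0 h (T :=
(.spl (nat_lit 1) (nat_lit 260)
(.leaf p050_l86)
(.ord (.trZ (nat_lit 0) (nat_lit 100) (nat_lit 100) (nat_lit 60) (nat_lit 36) (.trX (nat_lit 16) (nat_lit 100) (nat_lit 85) (nat_lit 84) (nat_lit 320) (.trX (nat_lit 19) (nat_lit 100) (nat_lit 85) (nat_lit 84) (nat_lit 320) (.spl (nat_lit 4) (nat_lit 240)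
(.spl (nat_lit 2) (nat_lit 160)
(.spl (nat_lit 2) (nat_lit 80)
(.spl (nat_lit 1) (nat_lit 270)
(.leaf p050_l87)
(.ord (.trZ (nat_lit 0) (nat_lit 100) (nat_lit 100) (nat_lit 70) (nat_lit 48) (.trX (nat_lit 19) (nat_lit 100) (nat_lit 90) (nat_lit 85) (nat_lit 308) (.spl (nat_lit 0) (nat_lit 275)
(.ord (.leaf p050_l88))
(.trZ (nat_lit 0) (nat_lit 100) (nat_lit 99) (nat_lit 72) (nat_lit 52) (.leaf p050_l89)))))))
(.leaf p050_l90))
(.leaf p050_l91))
(.spl (nat_lit 2) (nat_lit 120)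
(.spl (nat_lit 3) (nat_lit 60)
(.trX (nat_lit 16) (nat_lit 100) (nat_lit 92) (nat_lit 75) (nat_lit 296) (.trX (nat_lit 19) (nat_lit 100) (nat_lit 92) (nat_lit 75) (nat_lit 296) (.spl (nat_lit 0) (nat_lit 270)
(.ord (.leaf p050_l92))
(.trZ (nat_lit 0) (nat_lit 100) (nat_lit 98) (nat_lit 64) (nat_lit 40) (.trX (nat_lit 16) (nat_lit 100) (nat_lit 97) (nat_lit 76) (nat_lit 288) (.spl (nat_lit 0) (nat_lit 275)
(.ord (.spl (nat_lit 6) (nat_lit 48)
(.leaf p050_l93)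
(.leaf p050_l94)))
(.trZ (nat_lit 0) (nat_lit 100) (nat_lit 97) (nat_lit 67) (nat_lit 44) (.trX (nat_lit 16) (nat_lit 100) (nat_lit 99) (nat_lit 77) (nat_lit 280) (.spl (nat_lit 2) (nat_lit 80)
(.spl (nat_lit 6) (nat_lit 48)
(.spl (nat_lit 5) (nat_lit 160)
(.leaf p050_l95)
(.spl (nat_lit 1) (nat_lit 270)
(.leaf p050_l96)
(.trZ (nat_lit 0) (nat_lit 100) (nat_lit 99) (nat_lit 72) (nat_lit 52) (.trX (nat_lit 19) (nat_lit 100) (nat_lit 97) (nat_lit 76) (nat_lit 288) (.leaf p050_l97)))))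
(.leaf p050_l98))
(.leaf p050_l99))))))))))
(.leaf p050_l100))
(.spl (nat_lit 0) (nat_lit 270)
(.ord (.leaf p050_l101))
(.trX (nat_lit 16) (nat_lit 100) (nat_lit 90) (nat_lit 85) (nat_lit 308) (.leaf p050_l102))))))))))) (by decide +kernel)
noncomputable def p050_l103 : Lf2 := ⟨nat_lit 0, nat_lit 15, [nat_lit 30, nat_lit 5, nat_lit 5, nat_lit 20], true, nat_lit 0, nat_lit 160, nat_lit 0, nat_lit 336, ⟨nat_lit 0, nat_lit 1000, nat_lit 0, nat_lit 6, nat_lit 122, nat_lit 1000, nat_lit 54, nat_lit 0, nat_lit 0, nat_lit 0, nat_lit 0, nat_lit 0, nat_lit 0, nat_lit 0, nat_lit 0, nat_lit 5000000, false, false⟩,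
 nat_lit 0, nat_lit 10472, nat_lit 0, nat_lit 0, nat_lit 5543, nat_lit 0, nat_lit 464, nat_lit 0, nat_lit 0, nat_lit 0, nat_lit 0, nat_lit 0, nat_lit 0, nat_lit 40184898272729, nat_lit 0, nat_lit 400000, nat_lit 0, nat_lit 0, [(nat_lit 7, [(nat_lit 1, nat_lit 1000)]), (nat_lit 10, [(nat_lit 1, nat_lit 1000)])],
 ⟨p050_k13, nat_lit 0, nat_lit 0, nat_lit 485, nat_lit 0, nat_lit 209472, [nat_lit 2702720000, nat_lit 3642000001, nat_lit 2934000000], [], [nat_lit 34210181333, nat_lit 28487057573, nat_lit 24699597897, nat_lit 25804413357, nat_lit 27635322423, nat_lit 25033856505, nat_lit 31994683066, nat_lit 26840779494], nat_lit 1271250, nat_lit 1271250, nat_lit 88400, nat_lit 780000, nat_lit 0, nat_lit 1100001, [nat_lit 1100000, nat_lit 1442500, nat_lit 1271250], [nat_lit 48, nat_lit 40, nat_lit 40, nat_lit 80, nat_lit 12, nat_lit 373, nat_lit 150, nat_lit 10]⟩, C1.Rw.none,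
 ⟨nat_lit 5477, nat_lit 6325, ⟨.ofNat (nat_lit 164319), .ofNat (nat_lit 378206), .ofNat (nat_lit 207055), .ofNat (nat_lit 420942), .ofNat (nat_lit 198021), .ofNat (nat_lit 392847), .ofNat (nat_lit 240735), .ofNat (nat_lit 435561)⟩, ⟨.negSucc (nat_lit 82265), .ofNat (nat_lit 246791), .negSucc (nat_lit 39529), .ofNat (nat_lit 289527), .negSucc (nat_lit 45522), .ofNat (nat_lit 254209), .negSucc (nat_lit 2808), .ofNat (nat_lit 296923)⟩⟩, []⟩
noncomputable def p050_l104 : Lf2 := ⟨nat_lit 1, nat_lit 15, [nat_lit 30, nat_lit 5, nat_lit 5, nat_lit 20], false, nat_lit 0, nat_lit 160, nat_lit 0, nat_lit 336, zbN0,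
 nat_lit 0, nat_lit 0, nat_lit 0, nat_lit 0, nat_lit 0, nat_lit 0, nat_lit 0, nat_lit 0, nat_lit 0, nat_lit 0, nat_lit 0, nat_lit 0, nat_lit 0, nat_lit 0, nat_lit 0, nat_lit 0, nat_lit 0, nat_lit 0, [],
 C1.Rw.none, C1.Rw.none,
 zbF0, []⟩
noncomputable def p050_l105 : Lf2 := ⟨nat_lit 0, nat_lit 15, [nat_lit 30, nat_lit 5, nat_lit 5, nat_lit 20], true, nat_lit 0, nat_lit 160, nat_lit 0, nat_lit 336, ⟨nat_lit 0, nat_lit 1000, nat_lit 0, nat_lit 6, nat_lit 210, nat_lit 1000, nat_lit 55, nat_lit 0, nat_lit 0, nat_lit 0, nat_lit 0, nat_lit 0, nat_lit 0, nat_lit 0, nat_lit 0, nat_lit 5000000, false, false⟩,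
 nat_lit 0, nat_lit 5521, nat_lit 0, nat_lit 308, nat_lit 3213, nat_lit 0, nat_lit 272, nat_lit 0, nat_lit 0, nat_lit 0, nat_lit 0, nat_lit 0, nat_lit 0, nat_lit 22348907068101, nat_lit 0, nat_lit 400000, nat_lit 0, nat_lit 0, [(nat_lit 10, [(nat_lit 1, nat_lit 1000)])],
 ⟨p050_k0, nat_lit 0, nat_lit 0, nat_lit 353, nat_lit 0, nat_lit 182418, [nat_lit 2740800001, nat_lit 3109333334, nat_lit 2653866666], [], [nat_lit 32102891716, nat_lit 30377709922, nat_lit 28562033129, nat_lit 29105460273, nat_lit 26248296905, nat_lit 26813825293, nat_lit 28883949437, nat_lit 28486825357], nat_lit 1271250, nat_lit 1271250, nat_lit 780000, nat_lit 1762500, nat_lit 0, nat_lit 1100001, [nat_lit 1100000, nat_lit 1785000, nat_lit 1271250], [nat_lit 21, nat_lit 40, nat_lit 40, nat_lit 80, nat_lit 14, nat_lit 401, nat_lit 175, nat_lit 10]⟩, C1.Rw.none,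
 ⟨nat_lit 5477, nat_lit 5917, ⟨.ofNat (nat_lit 385610), .ofNat (nat_lit 621176), .ofNat (nat_lit 428288), .ofNat (nat_lit 663838), .ofNat (nat_lit 392847), .ofNat (nat_lit 617611), .ofNat (nat_lit 435561), .ofNat (nat_lit 660309)⟩, ⟨.negSucc (nat_lit 63383), .ofNat (nat_lit 250751), .negSucc (nat_lit 20704), .ofNat (nat_lit 293429), .negSucc (nat_lit 45522), .ofNat (nat_lit 254209), .negSucc (nat_lit 2808), .ofNat (nat_lit 296923)⟩⟩, []⟩
noncomputable def p050_l106 : Lf2 := ⟨nat_lit 1, nat_lit 15, [nat_lit 30, nat_lit 5, nat_lit 5, nat_lit 20], false, nat_lit 160, nat_lit 336, nat_lit 0, nat_lit 336, zbN0,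
 nat_lit 0, nat_lit 0, nat_lit 0, nat_lit 0, nat_lit 0, nat_lit 0, nat_lit 0, nat_lit 0, nat_lit 0, nat_lit 0, nat_lit 0, nat_lit 0, nat_lit 0, nat_lit 0, nat_lit 0, nat_lit 0, nat_lit 0, nat_lit 0, [],
 C1.Rw.none, C1.Rw.none,
 zbF0, []⟩
noncomputable def p050_l107 : Lf2 := ⟨nat_lit 0, nat_lit 15, [nat_lit 30, nat_lit 5, nat_lit 5, nat_lit 20], true, nat_lit 160, nat_lit 320, nat_lit 0, nat_lit 336, ⟨nat_lit 0, nat_lit 1000, nat_lit 0, nat_lit 6, nat_lit 173, nat_lit 1000, nat_lit 171, nat_lit 0, nat_lit 0, nat_lit 0, nat_lit 0, nat_lit 0, nat_lit 0, nat_lit 0, nat_lit 0, nat_lit 5000000, false, false⟩,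
 nat_lit 0, nat_lit 9311, nat_lit 0, nat_lit 0, nat_lit 5419, nat_lit 0, nat_lit 0, nat_lit 0, nat_lit 0, nat_lit 0, nat_lit 0, nat_lit 0, nat_lit 0, nat_lit 27265465078730, nat_lit 0, nat_lit 400000, nat_lit 0, nat_lit 0, [(nat_lit 10, [(nat_lit 1, nat_lit 1000)])],
 ⟨p050_k2, nat_lit 0, nat_lit 0, nat_lit 247, nat_lit 0, nat_lit 182418, [nat_lit 2702720000, nat_lit 3403200000, nat_lit 2620800000], [], [nat_lit 27385513416, nat_lit 24556218764, nat_lit 27112216336, nat_lit 24523625064, nat_lit 28554769560, nat_lit 29157196155, nat_lit 27266823046, nat_lit 27697671348], nat_lit 1271250, nat_lit 1271250, nat_lit 134400, nat_lit 1708500, nat_lit 1271250, nat_lit 1271250, [nat_lit 1100000, nat_lit 1442500, nat_lit 1271250], [nat_lit 48, nat_lit 40, nat_lit 40, nat_lit 80, nat_lit 12, nat_lit 456, nat_lit 225, nat_lit 12]⟩, C1.Rw.none,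
 ⟨nat_lit 5477, nat_lit 5917, ⟨.ofNat (nat_lit 197129), .ofNat (nat_lit 621176), .ofNat (nat_lit 239808), .ofNat (nat_lit 663838), .ofNat (nat_lit 213007), .ofNat (nat_lit 617611), .ofNat (nat_lit 255721), .ofNat (nat_lit 660309)⟩, ⟨.ofNat (nat_lit 250751), .ofNat (nat_lit 564885), .ofNat (nat_lit 293429), .ofNat (nat_lit 607556), .ofNat (nat_lit 254209), .ofNat (nat_lit 553941), .ofNat (nat_lit 296923), .ofNat (nat_lit 596648)⟩⟩, [⟨nat_lit 4, nat_lit 97, nat_lit 100, nat_lit 76, nat_lit 274184112⟩]⟩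
noncomputable def p050_l108 : Lf2 := ⟨nat_lit 1, nat_lit 15, [nat_lit 30, nat_lit 5, nat_lit 5, nat_lit 20], false, nat_lit 0, nat_lit 336, nat_lit 0, nat_lit 336, zbN0,
 nat_lit 0, nat_lit 0, nat_lit 0, nat_lit 0, nat_lit 0, nat_lit 0, nat_lit 0, nat_lit 0, nat_lit 0, nat_lit 0, nat_lit 0, nat_lit 0, nat_lit 0, nat_lit 0, nat_lit 0, nat_lit 0, nat_lit 0, nat_lit 0, [],
 C1.Rw.none, C1.Rw.none,
 zbF0, []⟩
noncomputable def p050_l109 : Lf2 := ⟨nat_lit 0, nat_lit 15, [nat_lit 30, nat_lit 5, nat_lit 5, nat_lit 20], false, nat_lit 0, nat_lit 320, nat_lit 0, nat_lit 336, ⟨nat_lit 1000, nat_lit 0, nat_lit 0, nat_lit 0, nat_lit 0, nat_lit 0, nat_lit 0, nat_lit 0, nat_lit 0, nat_lit 0, nat_lit 0, nat_lit 0, nat_lit 0, nat_lit 0, nat_lit 0, nat_lit 0, false, false⟩,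
 nat_lit 0, nat_lit 13526, nat_lit 0, nat_lit 0, nat_lit 7873, nat_lit 7862, nat_lit 937, nat_lit 0, nat_lit 0, nat_lit 1024, nat_lit 0, nat_lit 0, nat_lit 0, nat_lit 0, nat_lit 0, nat_lit 0, nat_lit 0, nat_lit 0, [],
 ⟨p050_k0, nat_lit 0, nat_lit 0, nat_lit 349, nat_lit 0, nat_lit 182418, [nat_lit 4688000000, nat_lit 7968000001, nat_lit 11872000000], [], [nat_lit 30206459566, nat_lit 30996578932, nat_lit 39573594092, nat_lit 40619529768, nat_lit 27756580628, nat_lit 28132786926, nat_lit 35002650464, nat_lit 35554727200], nat_lit 1271250, nat_lit 1271250, nat_lit 1271250, nat_lit 1271250, nat_lit 0, nat_lit 2260000, [nat_lit 1100000, nat_lit 1785000, nat_lit 1271250], [nat_lit 21, nat_lit 40, nat_lit 40, nat_lit 80, nat_lit 14, nat_lit 483, nat_lit 250, nat_lit 12]⟩, ⟨p050_k5, nat_lit 0, nat_lit 0, nat_lit 251, nat_lit 0, nat_lit 0, [nat_lit 4688000000, nat_lit 7968000000, nat_lit 11872000000], [], [nat_lit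 27872526232, nat_lit 30172040736, nat_lit 39487951232, nat_lit 40591936800, nat_lit 28200149471, nat_lit 29284880680, nat_lit 35654099132, nat_lit 36446305023], nat_lit 0, nat_lit 0, nat_lit 0, nat_lit 0, nat_lit 0, nat_lit 0, [], [nat_lit 21, nat_lit 40, nat_lit 40, nat_lit 80, nat_lit 14, nat_lit 538, nat_lit 300, nat_lit 13]⟩,
 zbF0, [⟨nat_lit 16, nat_lit 100, nat_lit 97, nat_lit 76, nat_lit 139941999⟩, ⟨nat_lit 19, nat_lit 100, nat_lit 92, nat_lit 75, nat_lit 170280111⟩]⟩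
noncomputable def p050_l110 : Lf2 := ⟨nat_lit 1, nat_lit 15, [nat_lit 30, nat_lit 5, nat_lit 5, nat_lit 20], false, nat_lit 0, nat_lit 160, nat_lit 0, nat_lit 336, zbN0,
 nat_lit 0, nat_lit 0, nat_lit 0, nat_lit 0, nat_lit 0, nat_lit 0, nat_lit 0, nat_lit 0, nat_lit 0, nat_lit 0, nat_lit 0, nat_lit 0, nat_lit 0, nat_lit 0, nat_lit 0, nat_lit 0, nat_lit 0, nat_lit 0, [],
 C1.Rw.none, C1.Rw.none,
 zbF0, []⟩
noncomputable def p050_l111 : Lf2 := ⟨nat_lit 0, nat_lit 15, [nat_lit 30, nat_lit 5, nat_lit 5, nat_lit 20], false, nat_lit 0, nat_lit 160, nat_lit 0, nat_lit 320, ⟨nat_lit 0, nat_lit 1000, nat_lit 0, nat_lit 6, nat_lit 152, nat_lit 1000, nat_lit 55, nat_lit 0, nat_lit 0, nat_lit 0, nat_lit 0, nat_lit 0, nat_lit 0, nat_lit 0, nat_lit 0, nat_lit 5000000, false, false⟩,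
 nat_lit 0, nat_lit 7555, nat_lit 0, nat_lit 0, nat_lit 4397, nat_lit 0, nat_lit 0, nat_lit 0, nat_lit 0, nat_lit 0, nat_lit 0, nat_lit 0, nat_lit 0, nat_lit 30672128499643, nat_lit 0, nat_lit 250000, nat_lit 0, nat_lit 0, [(nat_lit 10, [(nat_lit 0, nat_lit 1000)])],
 ⟨p050_k2, nat_lit 0, nat_lit 0, nat_lit 370, nat_lit 0, nat_lit 102329, [nat_lit 3808000001, nat_lit 3227200000, nat_lit 3809200000], [], [nat_lit 35991553367, nat_lit 33626919758, nat_lit 28772123147, nat_lit 29495638593, nat_lit 27682591033, nat_lit 28393701828, nat_lit 34027538973, nat_lit 32010318489], nat_lit 1271250, nat_lit 1271250, nat_lit 205650, nat_lit 1100001, nat_lit 0, nat_lit 1100001, [nat_lit 1100000, nat_lit 1442500, nat_lit 1271250], [nat_lit 48, nat_lit 40, nat_lit 40, nat_lit 80, nat_lit 12, nat_lit 373, nat_lit 150, nat_lit 10]⟩, ⟨p050_k2, nat_lit 0, nat_lit 0, nat_lit 370, nat_lit 0, nat_lit 102329, [nat_lit 0, nat_lit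 0, nat_lit 0], [], [nat_lit 0, nat_lit 0, nat_lit 0, nat_lit 0, nat_lit 0, nat_lit 0, nat_lit 0, nat_lit 0], nat_lit 1271250, nat_lit 1271250, nat_lit 205650, nat_lit 1100001, nat_lit 0, nat_lit 2260000, [nat_lit 1100000, nat_lit 1442500, nat_lit 1271250], [nat_lit 48, nat_lit 40, nat_lit 40, nat_lit 80, nat_lit 12, nat_lit 428, nat_lit 200, nat_lit 11]⟩,
 ⟨nat_lit 5477, nat_lit 5917, ⟨.ofNat (nat_lit 242029), .ofNat (nat_lit 485478), .ofNat (nat_lit 263368), .ofNat (nat_lit 506809), .ofNat (nat_lit 256844), .ofNat (nat_lit 489132), .ofNat (nat_lit 278201), .ofNat (nat_lit 510480)⟩, ⟨.negSucc (nat_lit 63383), .ofNat (nat_lit 250751), .negSucc (nat_lit 20704), .ofNat (nat_lit 293429), .negSucc (nat_lit 45522), .ofNat (nat_lit 254209), .negSucc (nat_lit 2808), .ofNat (nat_lit 296923)⟩⟩, []⟩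
noncomputable def p050_l112 : Lf2 := ⟨nat_lit 0, nat_lit 15, [nat_lit 30, nat_lit 5, nat_lit 5, nat_lit 20], true, nat_lit 0, nat_lit 160, nat_lit 0, nat_lit 320, ⟨nat_lit 0, nat_lit 1000, nat_lit 0, nat_lit 6, nat_lit 230, nat_lit 720, nat_lit 55, nat_lit 0, nat_lit 0, nat_lit 0, nat_lit 0, nat_lit 0, nat_lit 0, nat_lit 0, nat_lit 0, nat_lit 5000000, false, false⟩,
 nat_lit 0, nat_lit 8861, nat_lit 0, nat_lit 0, nat_lit 5157, nat_lit 0, nat_lit 0, nat_lit 0, nat_lit 0, nat_lit 0, nat_lit 0, nat_lit 0, nat_lit 0, nat_lit 14049673620867, nat_lit 0, nat_lit 400000, nat_lit 0, nat_lit 0, [(nat_lit 10, [(nat_lit 1, nat_lit 1000)])],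
 ⟨p050_k2, nat_lit 0, nat_lit 0, nat_lit 336, nat_lit 0, nat_lit 182418, [nat_lit 2702720000, nat_lit 3403200000, nat_lit 2620800000], [], [nat_lit 30537193014, nat_lit 27810491148, nat_lit 26881866674, nat_lit 27525504732, nat_lit 23258658002, nat_lit 23897015688, nat_lit 24984108236, nat_lit 25156129132], nat_lit 1271250, nat_lit 1271250, nat_lit 1100001, nat_lit 1785000, nat_lit 0, nat_lit 1100001, [nat_lit 1100000, nat_lit 1442500, nat_lit 1271250], [nat_lit 48, nat_lit 40, nat_lit 40, nat_lit 80, nat_lit 12, nat_lit 401, nat_lit 175, nat_lit 10]⟩, C1.Rw.none,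
 ⟨nat_lit 5477, nat_lit 5917, ⟨.ofNat (nat_lit 485478), .ofNat (nat_lit 642507), .ofNat (nat_lit 506809), .ofNat (nat_lit 663838), .ofNat (nat_lit 489132), .ofNat (nat_lit 638960), .ofNat (nat_lit 510480), .ofNat (nat_lit 660309)⟩, ⟨.negSucc (nat_lit 63383), .ofNat (nat_lit 250751), .negSucc (nat_lit 20704), .ofNat (nat_lit 293429), .negSucc (nat_lit 45522), .ofNat (nat_lit 254209), .negSucc (nat_lit 2808), .ofNat (nat_lit 296923)⟩⟩, []⟩
noncomputable def p050_l113 : Lf2 := ⟨nat_lit 0, nat_lit 15, [nat_lit 30, nat_lit 5, nat_lit 5, nat_lit 20], false, nat_lit 160, nat_lit 336, nat_lit 0, nat_lit 336, ⟨nat_lit 0, nat_lit 1000, nat_lit 0, nat_lit 6, nat_lit 169, nat_lit 1000, nat_lit 178, nat_lit 0, nat_lit 0, nat_lit 0, nat_lit 0, nat_lit 0, nat_lit 0, nat_lit 0, nat_lit 0, nat_lit 5000000, false, false⟩,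
 nat_lit 10197, nat_lit 0, nat_lit 0, nat_lit 2085, nat_lit 5398, nat_lit 0, nat_lit 0, nat_lit 0, nat_lit 0, nat_lit 0, nat_lit 0, nat_lit 0, nat_lit 0, nat_lit 35191974616726, nat_lit 0, nat_lit 400000, nat_lit 0, nat_lit 0, [(nat_lit 7, [(nat_lit 1, nat_lit 1000)]), (nat_lit 10, [(nat_lit 1, nat_lit 1000)])],
 ⟨p050_k13, nat_lit 0, nat_lit 0, nat_lit 238, nat_lit 0, nat_lit 115479, [nat_lit 2702720000, nat_lit 3642000001, nat_lit 2934000000], [], [nat_lit 31347838141, nat_lit 25673957157, nat_lit 29830873137, nat_lit 25031323049, nat_lit 29753029237, nat_lit 30891105103, nat_lit 28060157086, nat_lit 28871906056], nat_lit 1271250, nat_lit 1271250, nat_lit 88400, nat_lit 1704000, nat_lit 1271250, nat_lit 1271250, [nat_lit 1100000, nat_lit 1442500, nat_lit 1271250], [nat_lit 48, nat_lit 40, nat_lit 40, nat_lit 80, nat_lit 12, nat_lit 456, nat_lit 225, nat_lit 12]⟩, ⟨p050_k13, nat_lit 0, nat_lit 0, nat_lit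 393, nat_lit 0, nat_lit 115479, [nat_lit 0, nat_lit 0, nat_lit 0], [], [nat_lit 0, nat_lit 0, nat_lit 0, nat_lit 0, nat_lit 0, nat_lit 0, nat_lit 0, nat_lit 0], nat_lit 1271250, nat_lit 1271250, nat_lit 88400, nat_lit 1704000, nat_lit 0, nat_lit 2373000, [nat_lit 1100000, nat_lit 1442500, nat_lit 1271250], [nat_lit 48, nat_lit 40, nat_lit 40, nat_lit 80, nat_lit 12, nat_lit 456, nat_lit 225, nat_lit 12]⟩,
 ⟨nat_lit 5477, nat_lit 6325, ⟨.ofNat (nat_lit 164319), .ofNat (nat_lit 624852), .ofNat (nat_lit 207055), .ofNat (nat_lit 667525), .ofNat (nat_lit 198021), .ofNat (nat_lit 617499), .ofNat (nat_lit 240735), .ofNat (nat_lit 660151)⟩, ⟨.ofNat (nat_lit 246791), .ofNat (nat_lit 608692), .ofNat (nat_lit 289527), .ofNat (nat_lit 651380), .ofNat (nat_lit 254209), .ofNat (nat_lit 583853), .ofNat (nat_lit 296923), .ofNat (nat_lit 626519)⟩⟩, [⟨nat_lit 0, nat_lit 100, nat_lit 100, nat_lit 80, nat_lit 652493⟩, ⟨nat_lit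 4, nat_lit 92, nat_lit 100, nat_lit 75, nat_lit 308078820⟩]⟩
noncomputable def p050_l114 : Lf2 := ⟨nat_lit 1, nat_lit 15, [nat_lit 30, nat_lit 5, nat_lit 5, nat_lit 20], false, nat_lit 0, nat_lit 336, nat_lit 0, nat_lit 336, zbN0,
 nat_lit 0, nat_lit 0, nat_lit 0, nat_lit 0, nat_lit 0, nat_lit 0, nat_lit 0, nat_lit 0, nat_lit 0, nat_lit 0, nat_lit 0, nat_lit 0, nat_lit 0, nat_lit 0, nat_lit 0, nat_lit 0, nat_lit 0, nat_lit 0, [],
 C1.Rw.none, C1.Rw.none,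
 zbF0, []⟩
noncomputable def p050_l115 : Lf2 := ⟨nat_lit 0, nat_lit 15, [nat_lit 30, nat_lit 5, nat_lit 5, nat_lit 20], false, nat_lit 0, nat_lit 320, nat_lit 0, nat_lit 336, ⟨nat_lit 1000, nat_lit 0, nat_lit 0, nat_lit 0, nat_lit 0, nat_lit 0, nat_lit 0, nat_lit 0, nat_lit 0, nat_lit 0, nat_lit 0, nat_lit 0, nat_lit 0, nat_lit 0, nat_lit 0, nat_lit 0, false, false⟩,
 nat_lit 16138, nat_lit 0, nat_lit 0, nat_lit 0, nat_lit 8313, nat_lit 8543, nat_lit 867, nat_lit 0, nat_lit 0, nat_lit 872, nat_lit 0, nat_lit 0, nat_lit 0, nat_lit 0, nat_lit 0, nat_lit 0, nat_lit 0, nat_lit 0, [],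
 ⟨p050_k0, nat_lit 0, nat_lit 0, nat_lit 322, nat_lit 0, nat_lit 102329, [nat_lit 4688000000, nat_lit 7968000001, nat_lit 11872000000], [], [nat_lit 30512351516, nat_lit 31318285362, nat_lit 40700083852, nat_lit 41770840808, nat_lit 27585993938, nat_lit 27959722422, nat_lit 35494908384, nat_lit 36050343200], nat_lit 1271250, nat_lit 1271250, nat_lit 1271250, nat_lit 1271250, nat_lit 0, nat_lit 2260000, [nat_lit 1100000, nat_lit 1785000, nat_lit 1271250], [nat_lit 21, nat_lit 40, nat_lit 40, nat_lit 80, nat_lit 14, nat_lit 483, nat_lit 250, nat_lit 12]⟩, ⟨p050_k5, nat_lit 0, nat_lit 0, nat_lit 329, nat_lit 0, nat_lit 115479, [nat_lit 4688000000, nat_lit 7968000000, nat_lit 11872000000], [], [nat_lit 32105912284, nat_lit 33734313296, nat_lit 41257334848, nat_lit 42372662488, nat_lit 30966592489, nat_lit 30761162887, nat_lit 36239182936, nat_lit 37253681734], nat_lit 1271250, nat_lit 1271250, nat_lit 1271250,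 nat_lit 1271250, nat_lit 0, nat_lit 2373000, [nat_lit 1100000, nat_lit 1785000, nat_lit 1271250], [nat_lit 21, nat_lit 40, nat_lit 40, nat_lit 80, nat_lit 14, nat_lit 538, nat_lit 300, nat_lit 13]⟩,
 zbF0, [⟨nat_lit 4, nat_lit 97, nat_lit 100, nat_lit 76, nat_lit 126456812⟩, ⟨nat_lit 19, nat_lit 100, nat_lit 92, nat_lit 75, nat_lit 150951970⟩]⟩
noncomputable def b_V_600_600_10_84 : St := ⟨true, nat_lit 1, nat_lit 2, nat_lit 2, nat_lit 80, nat_lit 240, nat_lit 280, nat_lit 240, nat_lit 280, nat_lit 16, nat_lit 400, nat_lit 40, nat_lit 80, nat_lit 0, nat_lit 336, nat_lit 0, nat_lit 336, nat_lit 40, nat_lit 60, nat_lit 0, nat_lit 0, nat_lit 0, nat_lit 0⟩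
theorem d_V_600_600_10_84 (h : EB TB.env) : Dead b_V_600_600_10_84 := chkB_sound0 h (T :=
(.st (nat_lit 1)
(.spl (nat_lit 2) (nat_lit 240)
(.spl (nat_lit 4) (nat_lit 160)
(.spl (nat_lit 2) (nat_lit 120)
(.leaf p050_l103)
(.spl (nat_lit 0) (nat_lit 260)
(.ord (.leaf p050_l104))
(.leaf p050_l105)))
(.spl (nat_lit 0) (nat_lit 260)
(.ord (.leaf p050_l106))
(.trZ (nat_lit 0) (nat_lit 100) (nat_lit 97) (nat_lit 49) (nat_lit 24) (.trX (nat_lit 16) (nat_lit 100) (nat_lit 85) (nat_lit 84) (nat_lit 320) (.leaf p050_l107)))))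
(.spl (nat_lit 0) (nat_lit 260)
(.ord (.leaf p050_l108))
(.trX (nat_lit 16) (nat_lit 100) (nat_lit 85) (nat_lit 84) (nat_lit 320) (.leaf p050_l109))))
(.spl (nat_lit 2) (nat_lit 240)
(.spl (nat_lit 4) (nat_lit 160)
(.spl (nat_lit 1) (nat_lit 260)
(.leaf p050_l110)
(.ord (.trZ (nat_lit 0) (nat_lit 100) (nat_lit 100) (nat_lit 60) (nat_lit 36) (.trX (nat_lit 19) (nat_lit 100) (nat_lit 85) (nat_lit 84) (nat_lit 320) (.spl (nat_lit 2) (nat_lit 160)
(.leaf p050_l111)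
(.leaf p050_l112))))))
(.leaf p050_l113))
(.spl (nat_lit 0) (nat_lit 260)
(.ord (.leaf p050_l114))
(.trX (nat_lit 16) (nat_lit 100) (nat_lit 85) (nat_lit 84) (nat_lit 320) (.leaf p050_l115)))))) (by decide +kernel)
noncomputable def p050_l116 : Lf2 := ⟨nat_lit 0, nat_lit 6, [nat_lit 47, nat_lit 5, nat_lit 5, nat_lit 20], true, nat_lit 0, nat_lit 160, nat_lit 0, nat_lit 364, ⟨nat_lit 0, nat_lit 0, nat_lit 1000, nat_lit 6, nat_lit 115, nat_lit 89, nat_lit 63, nat_lit 1000, nat_lit 33750, nat_lit 260, nat_lit 123267, nat_lit 301, nat_lit 61866208, nat_lit 0, nat_lit 0, nat_lit 1352220, false, false⟩,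
 nat_lit 0, nat_lit 0, nat_lit 0, nat_lit 10695, nat_lit 4803, nat_lit 0, nat_lit 0, nat_lit 0, nat_lit 0, nat_lit 0, nat_lit 0, nat_lit 0, nat_lit 0, nat_lit 21466905779576, nat_lit 147, nat_lit 1000000, nat_lit 0, nat_lit 0, [(nat_lit 6, [(nat_lit 6, nat_lit 1000)])],
 ⟨p050_k15, nat_lit 0, nat_lit 0, nat_lit 282, nat_lit 0, nat_lit 0, [nat_lit 4560000000, nat_lit 135000000], [], [nat_lit 14456729899, nat_lit 15514555709, nat_lit 13229011424, nat_lit 14186000562, nat_lit 13307693098, nat_lit 14198823938, nat_lit 12272987392, nat_lit 13075970140], nat_lit 0, nat_lit 0, nat_lit 0, nat_lit 0, nat_lit 0, nat_lit 0, [], [nat_lit 70, nat_lit 40, nat_lit 40, nat_lit 80, nat_lit 13, nat_lit 373, nat_lit 150, nat_lit 11]⟩, C1.Rw.none,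
 ⟨nat_lit 5916, nat_lit 6325, ⟨.ofNat (nat_lit 164319), .ofNat (nat_lit 378206), .ofNat (nat_lit 185687), .ofNat (nat_lit 399574), .ofNat (nat_lit 181423), .ofNat (nat_lit 385610), .ofNat (nat_lit 202762), .ofNat (nat_lit 406949)⟩, ⟨.negSucc (nat_lit 39529), .ofNat (nat_lit 289527), .ofNat (nat_lit 0), .ofNat (nat_lit 332263), .negSucc (nat_lit 20704), .ofNat (nat_lit 293429), .ofNat (nat_lit 0), .ofNat (nat_lit 336108)⟩⟩, [⟨nat_lit 0, nat_lit 100, nat_lit 100, nat_lit 60, nat_lit 177530036⟩]⟩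
noncomputable def p050_l117 : Lf2 := ⟨nat_lit 0, nat_lit 6, [nat_lit 47, nat_lit 5, nat_lit 5, nat_lit 20], false, nat_lit 0, nat_lit 160, nat_lit 0, nat_lit 364, ⟨nat_lit 378, nat_lit 0, nat_lit 622, nat_lit 6, nat_lit 127, nat_lit 432, nat_lit 63, nat_lit 622, nat_lit 36817, nat_lit 262, nat_lit 153600, nat_lit 311, nat_lit 60829463, nat_lit 0, nat_lit 0, nat_lit 1536817, false, false⟩,
 nat_lit 0, nat_lit 0, nat_lit 0, nat_lit 14626, nat_lit 4964, nat_lit 2590, nat_lit 693, nat_lit 0, nat_lit 0, nat_lit 741, nat_lit 0, nat_lit 0, nat_lit 0, nat_lit 3697730439143, nat_lit 0, nat_lit 622000, nat_lit 0, nat_lit 0, [(nat_lit 9, [(nat_lit 6, nat_lit 622)])],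
 ⟨p050_k16, nat_lit 0, nat_lit 0, nat_lit 180, nat_lit 0, nat_lit 0, [nat_lit 2454771200, nat_lit 1902220000, nat_lit 1391406800], [], [nat_lit 15870072765, nat_lit 17293195271, nat_lit 14666308776, nat_lit 15951492656, nat_lit 14469043148, nat_lit 15659196909, nat_lit 13573124896, nat_lit 14649677712], nat_lit 0, nat_lit 0, nat_lit 0, nat_lit 0, nat_lit 0, nat_lit 0, [], [nat_lit 9, nat_lit 40, nat_lit 40, nat_lit 80, nat_lit 2, nat_lit 289, nat_lit 75, nat_lit 10]⟩, ⟨p050_k17, nat_lit 0, nat_lit 0, nat_lit 221, nat_lit 0, nat_lit 0, [nat_lit 1772064000, nat_lit 2362500000, nat_lit 3720276000], [], [nat_lit 8481119111, nat_lit 9785090143, nat_lit 7515831834, nat_lit 8539627362, nat_lit 11390997074, nat_lit 11980659382, nat_lit 10057150483, nat_lit 10629870712], nat_lit 0, nat_lit 0, nat_lit 0, nat_lit 0, nat_lit 0, nat_lit 0, [], [nat_lit 11, nat_lit 40, nat_lit 40, nat_lit 80, nat_lit 1, nat_lit 428, nat_lit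 200, nat_lit 13]⟩,
 ⟨nat_lit 5477, nat_lit 5917, ⟨.ofNat (nat_lit 197129), .ofNat (nat_lit 385610), .ofNat (nat_lit 239808), .ofNat (nat_lit 428288), .ofNat (nat_lit 213007), .ofNat (nat_lit 392847), .ofNat (nat_lit 255721), .ofNat (nat_lit 435561)⟩, ⟨.negSucc (nat_lit 20704), .ofNat (nat_lit 293429), .ofNat (nat_lit 0), .ofNat (nat_lit 336108), .negSucc (nat_lit 2808), .ofNat (nat_lit 296923), .ofNat (nat_lit 0), .ofNat (nat_lit 339637)⟩⟩, [⟨nat_lit 0, nat_lit 100, nat_lit 100, nat_lit 80, nat_lit 447145814⟩, ⟨nat_lit 7, nat_lit 77, nat_lit 100, nat_lit 91, nat_lit 113014844⟩]⟩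
noncomputable def p050_l118 : Lf2 := ⟨nat_lit 0, nat_lit 6, [nat_lit 47, nat_lit 5, nat_lit 5, nat_lit 20], true, nat_lit 160, nat_lit 240, nat_lit 0, nat_lit 364, ⟨nat_lit 0, nat_lit 0, nat_lit 1000, nat_lit 6, nat_lit 122, nat_lit 1000, nat_lit 157, nat_lit 1000, nat_lit 40279, nat_lit 264, nat_lit 138017, nat_lit 306, nat_lit 51701435, nat_lit 0, nat_lit 0, nat_lit 3688659, false, false⟩,
 nat_lit 0, nat_lit 0, nat_lit 0, nat_lit 3459, nat_lit 4685, nat_lit 0, nat_lit 0, nat_lit 0, nat_lit 0, nat_lit 0, nat_lit 0, nat_lit 0, nat_lit 0, nat_lit 8132442046890, nat_lit 69, nat_lit 400000, nat_lit 0, nat_lit 0, [(nat_lit 6, [(nat_lit 5, nat_lit 1000)]), (nat_lit 9, [(nat_lit 5, nat_lit 1000)])],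
 ⟨p050_k15, nat_lit 0, nat_lit 0, nat_lit 54, nat_lit 0, nat_lit 0, [nat_lit 2630400000, nat_lit 7200000], [], [nat_lit 10198814892, nat_lit 13768759400, nat_lit 9256077820, nat_lit 12222012780, nat_lit 14642853217, nat_lit 17858178805, nat_lit 13114487340, nat_lit 15613336240], nat_lit 0, nat_lit 0, nat_lit 0, nat_lit 0, nat_lit 0, nat_lit 0, [], [nat_lit 70, nat_lit 40, nat_lit 40, nat_lit 80, nat_lit 13, nat_lit 401, nat_lit 175, nat_lit 11]⟩, C1.Rw.none,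
 ⟨nat_lit 5477, nat_lit 6325, ⟨.ofNat (nat_lit 164319), .ofNat (nat_lit 378206), .ofNat (nat_lit 207055), .ofNat (nat_lit 420942), .ofNat (nat_lit 198021), .ofNat (nat_lit 392847), .ofNat (nat_lit 240735), .ofNat (nat_lit 435561)⟩, ⟨.ofNat (nat_lit 289527), .ofNat (nat_lit 454055), .ofNat (nat_lit 332263), .ofNat (nat_lit 496791), .ofNat (nat_lit 296923), .ofNat (nat_lit 446789), .ofNat (nat_lit 339637), .ofNat (nat_lit 489503)⟩⟩, [⟨nat_lit 0, nat_lit 100, nat_lit 100, nat_lit 80, nat_lit 214753187⟩]⟩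
noncomputable def p050_l119 : Lf2 := ⟨nat_lit 0, nat_lit 3, [nat_lit 45, nat_lit 5, nat_lit 5, nat_lit 20], false, nat_lit 240, nat_lit 364, nat_lit 0, nat_lit 160, ⟨nat_lit 1000, nat_lit 0, nat_lit 0, nat_lit 0, nat_lit 0, nat_lit 0, nat_lit 0, nat_lit 0, nat_lit 0, nat_lit 0, nat_lit 0, nat_lit 0, nat_lit 0, nat_lit 0, nat_lit 0, nat_lit 0, false, false⟩,
 nat_lit 0, nat_lit 0, nat_lit 0, nat_lit 34656, nat_lit 6937, nat_lit 8121, nat_lit 2127, nat_lit 0, nat_lit 0, nat_lit 3172, nat_lit 0, nat_lit 0, nat_lit 0, nat_lit 0, nat_lit 0, nat_lit 0, nat_lit 0, nat_lit 0, [],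
 ⟨p050_k18, nat_lit 0, nat_lit 0, nat_lit 161, nat_lit 0, nat_lit 0, [nat_lit 4688000000, nat_lit 6250000000, nat_lit 7968000000], [], [nat_lit 20841789741, nat_lit 23202340703, nat_lit 18172721815, nat_lit 20457503000, nat_lit 30383399376, nat_lit 32361119490, nat_lit 26477419372, nat_lit 28086567299], nat_lit 0, nat_lit 0, nat_lit 0, nat_lit 0, nat_lit 0, nat_lit 0, [], [nat_lit 9, nat_lit 40, nat_lit 40, nat_lit 80, nat_lit 2, nat_lit 238, nat_lit 30, nat_lit 7]⟩, ⟨p050_k18, nat_lit 0, nat_lit 0, nat_lit 176, nat_lit 0, nat_lit 0, [nat_lit 4688000000, nat_lit 6250000000, nat_lit 7968000000], [], [nat_lit 19001308206, nat_lit 21231856458, nat_lit 14920246288, nat_lit 16799859114, nat_lit 14702639983, nat_lit 16434043211, nat_lit 11918208784, nat_lit 13456781318], nat_lit 0, nat_lit 0, nat_lit 0, nat_lit 0, nat_lit 0, nat_lit 0, [], [nat_lit 9, nat_lit 40, nat_lit 40, nat_lit 80, nat_lit 2, nat_lit 289,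 nat_lit 75, nat_lit 10]⟩,
 zbF0, [⟨nat_lit 0, nat_lit 100, nat_lit 99, nat_lit 55, nat_lit 949495695⟩, ⟨nat_lit 4, nat_lit 77, nat_lit 100, nat_lit 91, nat_lit 685771388⟩]⟩
noncomputable def p050_l120 : Lf2 := ⟨nat_lit 0, nat_lit 3, [nat_lit 45, nat_lit 5, nat_lit 5, nat_lit 20], false, nat_lit 240, nat_lit 364, nat_lit 160, nat_lit 240, ⟨nat_lit 1000, nat_lit 0, nat_lit 0, nat_lit 0, nat_lit 0, nat_lit 0, nat_lit 0, nat_lit 0, nat_lit 0, nat_lit 0, nat_lit 0, nat_lit 0, nat_lit 0, nat_lit 0, nat_lit 0, nat_lit 0, false, false⟩,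
 nat_lit 0, nat_lit 0, nat_lit 0, nat_lit 13396, nat_lit 6937, nat_lit 7110, nat_lit 2019, nat_lit 0, nat_lit 0, nat_lit 0, nat_lit 0, nat_lit 0, nat_lit 0, nat_lit 0, nat_lit 0, nat_lit 0, nat_lit 0, nat_lit 0, [],
 ⟨p050_k18, nat_lit 0, nat_lit 0, nat_lit 161, nat_lit 0, nat_lit 0, [nat_lit 4688000000, nat_lit 6250000000, nat_lit 7968000000], [], [nat_lit 21014252241, nat_lit 23374007110, nat_lit 18345184315, nat_lit 20457584427, nat_lit 30383399376, nat_lit 32361119490, nat_lit 26477419372, nat_lit 28086567299], nat_lit 0, nat_lit 0, nat_lit 0, nat_lit 0, nat_lit 0, nat_lit 0, [], [nat_lit 9, nat_lit 40, nat_lit 40, nat_lit 80, nat_lit 2, nat_lit 238, nat_lit 30, nat_lit 7]⟩, ⟨p050_k18, nat_lit 0, nat_lit 0, nat_lit 56, nat_lit 0, nat_lit 0, [nat_lit 4688000000, nat_lit 6250000000, nat_lit 7968000000], [], [nat_lit 10862818152, nat_lit 12963043508, nat_lit 8291714920, nat_lit 10178221800, nat_lit 15886944136,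 nat_lit 17717122060, nat_lit 12886820040, nat_lit 14447056740], nat_lit 0, nat_lit 0, nat_lit 0, nat_lit 0, nat_lit 0, nat_lit 0, [], [nat_lit 9, nat_lit 40, nat_lit 40, nat_lit 80, nat_lit 2, nat_lit 317, nat_lit 100, nat_lit 10]⟩,
 zbF0, [⟨nat_lit 0, nat_lit 100, nat_lit 96, nat_lit 69, nat_lit 196448772⟩, ⟨nat_lit 16, nat_lit 100, nat_lit 77, nat_lit 91, nat_lit 56047222⟩, ⟨nat_lit 11, nat_lit 100, nat_lit 86, nat_lit 51, nat_lit 358761082⟩, ⟨nat_lit 23, nat_lit 90, nat_lit 100, nat_lit 79, nat_lit 485015055⟩]⟩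
noncomputable def p050_l121 : Lf2 := ⟨nat_lit 0, nat_lit 3, [nat_lit 45, nat_lit 5, nat_lit 5, nat_lit 20], false, nat_lit 240, nat_lit 336, nat_lit 240, nat_lit 336, ⟨nat_lit 1000, nat_lit 0, nat_lit 0, nat_lit 0, nat_lit 0, nat_lit 0, nat_lit 0, nat_lit 0, nat_lit 0, nat_lit 0, nat_lit 0, nat_lit 0, nat_lit 0, nat_lit 0, nat_lit 0, nat_lit 0, false, false⟩,
 nat_lit 0, nat_lit 0, nat_lit 0, nat_lit 32450, nat_lit 9870, nat_lit 9870, nat_lit 2674, nat_lit 0, nat_lit 0, nat_lit 2674, nat_lit 0, nat_lit 0, nat_lit 0, nat_lit 0, nat_lit 0, nat_lit 0, nat_lit 0, nat_lit 0, [],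
 ⟨p050_k18, nat_lit 0, nat_lit 0, nat_lit 141, nat_lit 0, nat_lit 0, [nat_lit 4688000000, nat_lit 6250000000, nat_lit 7968000000], [], [nat_lit 17646077138, nat_lit 19386734389, nat_lit 12938576450, nat_lit 14696526920, nat_lit 30471876541, nat_lit 32195923199, nat_lit 24009238928, nat_lit 25685615064], nat_lit 0, nat_lit 0, nat_lit 0, nat_lit 0, nat_lit 0, nat_lit 0, [], [nat_lit 9, nat_lit 40, nat_lit 40, nat_lit 80, nat_lit 2, nat_lit 226, nat_lit 20, nat_lit 7]⟩, ⟨p050_k18, nat_lit 0, nat_lit 0, nat_lit 141, nat_lit 0, nat_lit 0, [nat_lit 4688000000, nat_lit 6250000000, nat_lit 7968000000], [], [nat_lit 17646077138, nat_lit 19386734389, nat_lit 12938576450, nat_lit 14696526920, nat_lit 30471876541, nat_lit 32195923199, nat_lit 24009238928, nat_lit 25685615064], nat_lit 0, nat_lit 0, nat_lit 0, nat_lit 0, nat_lit 0, nat_lit 0, [], [nat_lit 9, nat_lit 40, nat_lit 40, nat_lit 80, nat_lit 2, nat_lit 226,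 nat_lit 20, nat_lit 7]⟩,
 zbF0, [⟨nat_lit 0, nat_lit 100, nat_lit 100, nat_lit 60, nat_lit 111641817⟩, ⟨nat_lit 11, nat_lit 100, nat_lit 100, nat_lit 69, nat_lit 1326208967⟩]⟩
noncomputable def p050_l122 : Lf2 := ⟨nat_lit 0, nat_lit 3, [nat_lit 45, nat_lit 5, nat_lit 5, nat_lit 20], false, nat_lit 240, nat_lit 336, nat_lit 240, nat_lit 336, ⟨nat_lit 1000, nat_lit 0, nat_lit 0, nat_lit 0, nat_lit 0, nat_lit 0, nat_lit 0, nat_lit 0, nat_lit 0, nat_lit 0, nat_lit 0, nat_lit 0, nat_lit 0, nat_lit 0, nat_lit 0, nat_lit 0, false, false⟩,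
 nat_lit 0, nat_lit 0, nat_lit 0, nat_lit 14729, nat_lit 8158, nat_lit 11074, nat_lit 2252, nat_lit 0, nat_lit 0, nat_lit 0, nat_lit 0, nat_lit 0, nat_lit 0, nat_lit 0, nat_lit 0, nat_lit 0, nat_lit 0, nat_lit 0, [],
 ⟨p050_k19, nat_lit 0, nat_lit 0, nat_lit 138, nat_lit 0, nat_lit 0, [nat_lit 4688000000, nat_lit 6250000000, nat_lit 7968000000], [], [nat_lit 18115300423, nat_lit 19660005777, nat_lit 15199712084, nat_lit 16540678308, nat_lit 28622586755, nat_lit 30162855289, nat_lit 24362774578, nat_lit 25860498721], nat_lit 0, nat_lit 0, nat_lit 0, nat_lit 0, nat_lit 0, nat_lit 0, [], [nat_lit 9, nat_lit 40, nat_lit 40, nat_lit 80, nat_lit 2, nat_lit 226, nat_lit 20, nat_lit 7]⟩, ⟨p050_k18, nat_lit 0, nat_lit 0, nat_lit 133, nat_lit 0, nat_lit 0, [nat_lit 4688000000, nat_lit 6250000000, nat_lit 7968000000], [], [nat_lit 20350464567, nat_lit 22220184948, nat_lit 15953161240, nat_lit 17735462268, nat_lit 30867212038,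 nat_lit 32721448391, nat_lit 25629555588, nat_lit 26849684342], nat_lit 0, nat_lit 0, nat_lit 0, nat_lit 0, nat_lit 0, nat_lit 0, [], [nat_lit 9, nat_lit 40, nat_lit 40, nat_lit 80, nat_lit 2, nat_lit 226, nat_lit 20, nat_lit 7]⟩,
 zbF0, [⟨nat_lit 0, nat_lit 100, nat_lit 96, nat_lit 69, nat_lit 261564557⟩, ⟨nat_lit 11, nat_lit 100, nat_lit 100, nat_lit 72, nat_lit 1104071811⟩]⟩
noncomputable def p050_l123 : Lf2 := ⟨nat_lit 0, nat_lit 3, [nat_lit 45, nat_lit 5, nat_lit 5, nat_lit 20], false, nat_lit 240, nat_lit 364, nat_lit 240, nat_lit 364, ⟨nat_lit 1000, nat_lit 0, nat_lit 0, nat_lit 0, nat_lit 0, nat_lit 0, nat_lit 0, nat_lit 0, nat_lit 0, nat_lit 0, nat_lit 0, nat_lit 0, nat_lit 0, nat_lit 0, nat_lit 0, nat_lit 0, false, false⟩,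
 nat_lit 0, nat_lit 0, nat_lit 0, nat_lit 5262, nat_lit 7790, nat_lit 7858, nat_lit 0, nat_lit 0, nat_lit 0, nat_lit 0, nat_lit 0, nat_lit 0, nat_lit 0, nat_lit 0, nat_lit 0, nat_lit 0, nat_lit 0, nat_lit 0, [],
 ⟨p050_k18, nat_lit 0, nat_lit 0, nat_lit 90, nat_lit 0, nat_lit 0, [nat_lit 4688000000, nat_lit 6250000000, nat_lit 7968000000], [], [nat_lit 12071297480, nat_lit 15735309960, nat_lit 11936427560, nat_lit 15231212160, nat_lit 26354946355, nat_lit 28902622591, nat_lit 25304858011, nat_lit 27737394659], nat_lit 0, nat_lit 0, nat_lit 0, nat_lit 0, nat_lit 0, nat_lit 0, [], [nat_lit 9, nat_lit 40, nat_lit 40, nat_lit 80, nat_lit 2, nat_lit 238, nat_lit 30, nat_lit 7]⟩, ⟨p050_k18, nat_lit 0, nat_lit 0, nat_lit 85, nat_lit 0, nat_lit 0, [nat_lit 4688000000, nat_lit 6250000000, nat_lit 7968000000], [], [nat_lit 11985482296, nat_lit 13738254168, nat_lit 11841388312, nat_lit 13497496172, nat_lit 26423432731,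 nat_lit 27702977015, nat_lit 25356924182, nat_lit 26578516607], nat_lit 0, nat_lit 0, nat_lit 0, nat_lit 0, nat_lit 0, nat_lit 0, [], [nat_lit 9, nat_lit 40, nat_lit 40, nat_lit 80, nat_lit 2, nat_lit 238, nat_lit 30, nat_lit 7]⟩,
 zbF0, [⟨nat_lit 11, nat_lit 99, nat_lit 100, nat_lit 99, nat_lit 801627890⟩]⟩
noncomputable def p050_l124 : Lf2 := ⟨nat_lit 1, nat_lit 6, [nat_lit 47, nat_lit 5, nat_lit 5, nat_lit 20], false, nat_lit 240, nat_lit 364, nat_lit 0, nat_lit 364, zbN0,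
 nat_lit 0, nat_lit 0, nat_lit 0, nat_lit 0, nat_lit 0, nat_lit 0, nat_lit 0, nat_lit 0, nat_lit 0, nat_lit 0, nat_lit 0, nat_lit 0, nat_lit 0, nat_lit 0, nat_lit 0, nat_lit 0, nat_lit 0, nat_lit 0, [],
 C1.Rw.none, C1.Rw.none,
 zbF0, []⟩
noncomputable def p050_l125 : Lf2 := ⟨nat_lit 0, nat_lit 6, [nat_lit 47, nat_lit 5, nat_lit 5, nat_lit 20], false, nat_lit 240, nat_lit 352, nat_lit 0, nat_lit 160, ⟨nat_lit 1000, nat_lit 0, nat_lit 0, nat_lit 0, nat_lit 0, nat_lit 0, nat_lit 0, nat_lit 0, nat_lit 0, nat_lit 0, nat_lit 0, nat_lit 0, nat_lit 0, nat_lit 0, nat_lit 0, nat_lit 0, false, false⟩,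
 nat_lit 0, nat_lit 0, nat_lit 0, nat_lit 29497, nat_lit 6489, nat_lit 7767, nat_lit 1795, nat_lit 0, nat_lit 0, nat_lit 2279, nat_lit 0, nat_lit 0, nat_lit 0, nat_lit 12993322176854, nat_lit 0, nat_lit 0, nat_lit 0, nat_lit 0, [],
 ⟨p050_k16, nat_lit 0, nat_lit 0, nat_lit 134, nat_lit 0, nat_lit 0, [nat_lit 4688000000, nat_lit 6250000000, nat_lit 7968000000], [], [nat_lit 20571191121, nat_lit 21701371043, nat_lit 19224447412, nat_lit 20247993644, nat_lit 27443678197, nat_lit 28301974427, nat_lit 25571358658, nat_lit 26353201483], nat_lit 0, nat_lit 0, nat_lit 0, nat_lit 0, nat_lit 0, nat_lit 0, [], [nat_lit 9, nat_lit 40, nat_lit 40, nat_lit 80, nat_lit 2, nat_lit 238, nat_lit 30, nat_lit 7]⟩, ⟨p050_k16, nat_lit 0, nat_lit 0, nat_lit 164, nat_lit 0, nat_lit 0, [nat_lit 4688000000, nat_lit 6250000000, nat_lit 7968000000], [], [nat_lit 18426069043, nat_lit 20583349609, nat_lit 16111417578, nat_lit 17755861968,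 nat_lit 14201089701, nat_lit 15701822870, nat_lit 12602972688, nat_lit 13954623136], nat_lit 0, nat_lit 0, nat_lit 0, nat_lit 0, nat_lit 0, nat_lit 0, [], [nat_lit 9, nat_lit 40, nat_lit 40, nat_lit 80, nat_lit 2, nat_lit 289, nat_lit 75, nat_lit 10]⟩,
 zbF0, [⟨nat_lit 0, nat_lit 100, nat_lit 100, nat_lit 70, nat_lit 215698997⟩, ⟨nat_lit 0, nat_lit 100, nat_lit 100, nat_lit 80, nat_lit 626182032⟩, ⟨nat_lit 4, nat_lit 82, nat_lit 100, nat_lit 92, nat_lit 584216311⟩]⟩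
noncomputable def p050_l126 : Lf2 := ⟨nat_lit 0, nat_lit 6, [nat_lit 47, nat_lit 5, nat_lit 5, nat_lit 20], false, nat_lit 240, nat_lit 320, nat_lit 160, nat_lit 352, ⟨nat_lit 1000, nat_lit 0, nat_lit 0, nat_lit 0, nat_lit 0, nat_lit 0, nat_lit 0, nat_lit 0, nat_lit 0, nat_lit 0, nat_lit 0, nat_lit 0, nat_lit 0, nat_lit 0, nat_lit 0, nat_lit 0, false, false⟩,
 nat_lit 0, nat_lit 0, nat_lit 0, nat_lit 10564, nat_lit 6172, nat_lit 8323, nat_lit 0, nat_lit 0, nat_lit 0, nat_lit 1240, nat_lit 0, nat_lit 0, nat_lit 0, nat_lit 0, nat_lit 0, nat_lit 0, nat_lit 0, nat_lit 0, [],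
 ⟨p050_k16, nat_lit 0, nat_lit 0, nat_lit 91, nat_lit 0, nat_lit 0, [nat_lit 4688000000, nat_lit 6250000000, nat_lit 7968000000], [], [nat_lit 16818084346, nat_lit 18400291680, nat_lit 15637815848, nat_lit 17077829088, nat_lit 23186621832, nat_lit 24406949448, nat_lit 21439049560, nat_lit 22557604400], nat_lit 0, nat_lit 0, nat_lit 0, nat_lit 0, nat_lit 0, nat_lit 0, [], [nat_lit 9, nat_lit 40, nat_lit 40, nat_lit 80, nat_lit 2, nat_lit 238, nat_lit 30, nat_lit 7]⟩, ⟨p050_k16, nat_lit 0, nat_lit 0, nat_lit 134, nat_lit 0, nat_lit 0, [nat_lit 4688000000, nat_lit 6250000000, nat_lit 7968000000], [], [nat_lit 15744008208, nat_lit 17307807123, nat_lit 13911661072, nat_lit 15317879584, nat_lit 29611538340, nat_lit 31051570764, nat_lit 25457379147, nat_lit 26794337397], nat_lit 0, nat_lit 0, nat_lit 0, nat_lit 0, nat_lit 0, nat_lit 0, [], [nat_lit 9, nat_lit 40, nat_lit 40, nat_lit 80, nat_lit 2, nat_lit 345,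 nat_lit 125, nat_lit 11]⟩,
 zbF0, [⟨nat_lit 0, nat_lit 100, nat_lit 100, nat_lit 80, nat_lit 182249238⟩, ⟨nat_lit 11, nat_lit 100, nat_lit 100, nat_lit 88, nat_lit 670675332⟩]⟩
noncomputable def p050_l127 : Lf2 := ⟨nat_lit 0, nat_lit 6, [nat_lit 47, nat_lit 5, nat_lit 5, nat_lit 20], false, nat_lit 320, nat_lit 352, nat_lit 160, nat_lit 300, ⟨nat_lit 1000, nat_lit 0, nat_lit 0, nat_lit 0, nat_lit 0, nat_lit 0, nat_lit 0, nat_lit 0, nat_lit 0, nat_lit 0, nat_lit 0, nat_lit 0, nat_lit 0, nat_lit 0, nat_lit 0, nat_lit 0, false, false⟩,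
 nat_lit 0, nat_lit 0, nat_lit 0, nat_lit 13889, nat_lit 7208, nat_lit 7677, nat_lit 1801, nat_lit 0, nat_lit 0, nat_lit 0, nat_lit 0, nat_lit 0, nat_lit 0, nat_lit 0, nat_lit 0, nat_lit 0, nat_lit 0, nat_lit 0, [],
 ⟨p050_k16, nat_lit 0, nat_lit 0, nat_lit 134, nat_lit 0, nat_lit 0, [nat_lit 4688000000, nat_lit 6250000000, nat_lit 7968000000], [], [nat_lit 24498829276, nat_lit 25592490740, nat_lit 22147886544, nat_lit 22986570427, nat_lit 28045811364, nat_lit 29379173345, nat_lit 24659421815, nat_lit 25899927213], nat_lit 0, nat_lit 0, nat_lit 0, nat_lit 0, nat_lit 0, nat_lit 0, [], [nat_lit 9, nat_lit 40, nat_lit 40, nat_lit 80, nat_lit 2, nat_lit 238, nat_lit 30, nat_lit 7]⟩, ⟨p050_k16, nat_lit 0, nat_lit 0, nat_lit 81, nat_lit 0, nat_lit 0, [nat_lit 4688000000, nat_lit 6250000000, nat_lit 7968000000], [], [nat_lit 10796094128, nat_lit 12984381521, nat_lit 9307865460, nat_lit 11288725676, nat_lit 22371822852,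 nat_lit 24106232186, nat_lit 19205903873, nat_lit 20804247944], nat_lit 0, nat_lit 0, nat_lit 0, nat_lit 0, nat_lit 0, nat_lit 0, [], [nat_lit 9, nat_lit 40, nat_lit 40, nat_lit 80, nat_lit 2, nat_lit 345, nat_lit 125, nat_lit 11]⟩,
 zbF0, [⟨nat_lit 0, nat_lit 100, nat_lit 100, nat_lit 80, nat_lit 103147890⟩, ⟨nat_lit 4, nat_lit 82, nat_lit 100, nat_lit 92, nat_lit 79738251⟩, ⟨nat_lit 11, nat_lit 100, nat_lit 74, nat_lit 79, nat_lit 1055223093⟩]⟩
noncomputable def p050_l128 : Lf2 := ⟨nat_lit 0, nat_lit 6, [nat_lit 47, nat_lit 5, nat_lit 5, nat_lit 20], false, nat_lit 0, nat_lit 160, nat_lit 0, nat_lit 364, ⟨nat_lit 1000, nat_lit 0, nat_lit 0, nat_lit 0, nat_lit 0, nat_lit 0, nat_lit 0, nat_lit 0, nat_lit 0, nat_lit 0, nat_lit 0, nat_lit 0, nat_lit 0, nat_lit 0, nat_lit 0, nat_lit 0, false, false⟩,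
 nat_lit 0, nat_lit 0, nat_lit 0, nat_lit 29726, nat_lit 7686, nat_lit 6500, nat_lit 2479, nat_lit 0, nat_lit 0, nat_lit 1770, nat_lit 0, nat_lit 0, nat_lit 0, nat_lit 0, nat_lit 0, nat_lit 0, nat_lit 0, nat_lit 0, [],
 ⟨p050_k17, nat_lit 0, nat_lit 0, nat_lit 215, nat_lit 0, nat_lit 0, [nat_lit 4688000000, nat_lit 6250000000, nat_lit 9842000000], [], [nat_lit 17274600694, nat_lit 20616860750, nat_lit 38059449312, nat_lit 40130222576, nat_lit 13545589238, nat_lit 15929185150, nat_lit 29389061920, nat_lit 31240069968], nat_lit 0, nat_lit 0, nat_lit 0, nat_lit 0, nat_lit 0, nat_lit 0, [], [nat_lit 11, nat_lit 40, nat_lit 40, nat_lit 80, nat_lit 1, nat_lit 456, nat_lit 225, nat_lit 13]⟩, ⟨p050_k17, nat_lit 0, nat_lit 0, nat_lit 215, nat_lit 0, nat_lit 0, [nat_lit 4688000000, nat_lit 6250000000, nat_lit 9842000000], [], [nat_lit 20892546500, nat_lit 23525612500, nat_lit 35296252500, nat_lit 37026916000, nat_lit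 27433839000, nat_lit 28627300400, nat_lit 35408224100, nat_lit 36272451900], nat_lit 0, nat_lit 0, nat_lit 0, nat_lit 0, nat_lit 0, nat_lit 0, [], [nat_lit 11, nat_lit 40, nat_lit 40, nat_lit 80, nat_lit 1, nat_lit 538, nat_lit 300, nat_lit 16]⟩,
 zbF0, [⟨nat_lit 7, nat_lit 77, nat_lit 100, nat_lit 91, nat_lit 210668652⟩]⟩
noncomputable def p050_l129 : Lf2 := ⟨nat_lit 0, nat_lit 6, [nat_lit 47, nat_lit 5, nat_lit 5, nat_lit 20], false, nat_lit 160, nat_lit 364, nat_lit 0, nat_lit 160, ⟨nat_lit 1000, nat_lit 0, nat_lit 0, nat_lit 0, nat_lit 0, nat_lit 0, nat_lit 0, nat_lit 0, nat_lit 0, nat_lit 0, nat_lit 0, nat_lit 0, nat_lit 0, nat_lit 0, nat_lit 0, nat_lit 0, false, false⟩,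
 nat_lit 0, nat_lit 0, nat_lit 0, nat_lit 18818, nat_lit 5216, nat_lit 7675, nat_lit 0, nat_lit 0, nat_lit 0, nat_lit 2478, nat_lit 0, nat_lit 0, nat_lit 0, nat_lit 0, nat_lit 0, nat_lit 0, nat_lit 0, nat_lit 0, [],
 ⟨p050_k17, nat_lit 0, nat_lit 0, nat_lit 89, nat_lit 0, nat_lit 0, [nat_lit 4688000000, nat_lit 6250000000, nat_lit 9842000000], [], [nat_lit 11514219552, nat_lit 14656879808, nat_lit 27800677600, nat_lit 29217840704, nat_lit 24733729844, nat_lit 26493812503, nat_lit 33835689420, nat_lit 34618419540], nat_lit 0, nat_lit 0, nat_lit 0, nat_lit 0, nat_lit 0, nat_lit 0, [], [nat_lit 11, nat_lit 40, nat_lit 40, nat_lit 80, nat_lit 1, nat_lit 538, nat_lit 300, nat_lit 15]⟩, ⟨p050_k17, nat_lit 0, nat_lit 0, nat_lit 215, nat_lit 0, nat_lit 0, [nat_lit 4688000000, nat_lit 6250000000, nat_lit 9842000000], [], [nat_lit 17290348700, nat_lit 20618421000, nat_lit 38031907600, nat_lit 40101439800, nat_lit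 13571145900, nat_lit 15952950000, nat_lit 29377900000, nat_lit 31227863400], nat_lit 0, nat_lit 0, nat_lit 0, nat_lit 0, nat_lit 0, nat_lit 0, [], [nat_lit 11, nat_lit 40, nat_lit 40, nat_lit 80, nat_lit 1, nat_lit 456, nat_lit 225, nat_lit 13]⟩,
 zbF0, [⟨nat_lit 16, nat_lit 100, nat_lit 77, nat_lit 91, nat_lit 403949989⟩]⟩
noncomputable def p050_l130 : Lf2 := ⟨nat_lit 0, nat_lit 6, [nat_lit 47, nat_lit 5, nat_lit 5, nat_lit 20], false, nat_lit 160, nat_lit 364, nat_lit 160, nat_lit 364, ⟨nat_lit 1000, nat_lit 0, nat_lit 0, nat_lit 0, nat_lit 0, nat_lit 0, nat_lit 0, nat_lit 0, nat_lit 0, nat_lit 0, nat_lit 0, nat_lit 0, nat_lit 0, nat_lit 0, nat_lit 0, nat_lit 0, false, false⟩,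
 nat_lit 0, nat_lit 0, nat_lit 0, nat_lit 7296, nat_lit 5216, nat_lit 5216, nat_lit 0, nat_lit 0, nat_lit 0, nat_lit 0, nat_lit 0, nat_lit 0, nat_lit 0, nat_lit 0, nat_lit 0, nat_lit 0, nat_lit 0, nat_lit 0, [],
 ⟨p050_k17, nat_lit 0, nat_lit 0, nat_lit 89, nat_lit 0, nat_lit 0, [nat_lit 4688000000, nat_lit 6250000000, nat_lit 9842000000], [], [nat_lit 11514219552, nat_lit 14656879808, nat_lit 27800677600, nat_lit 29217840704, nat_lit 24733729844, nat_lit 26493812503, nat_lit 33835689420, nat_lit 34618419540], nat_lit 0, nat_lit 0, nat_lit 0, nat_lit 0, nat_lit 0, nat_lit 0, [], [nat_lit 11, nat_lit 40, nat_lit 40, nat_lit 80, nat_lit 1, nat_lit 538, nat_lit 300, nat_lit 15]⟩, ⟨p050_k17, nat_lit 0, nat_lit 0, nat_lit 89, nat_lit 0, nat_lit 0, [nat_lit 4688000000, nat_lit 6250000000, nat_lit 9842000000], [], [nat_lit 11514219552, nat_lit 14656879808, nat_lit 27800677600, nat_lit 29217840704, nat_lit 24733729844,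 nat_lit 26493812503, nat_lit 33835689420, nat_lit 34618419540], nat_lit 0, nat_lit 0, nat_lit 0, nat_lit 0, nat_lit 0, nat_lit 0, [], [nat_lit 11, nat_lit 40, nat_lit 40, nat_lit 80, nat_lit 1, nat_lit 538, nat_lit 300, nat_lit 15]⟩,
 zbF0, [⟨nat_lit 4, nat_lit 77, nat_lit 100, nat_lit 91, nat_lit 45111250⟩, ⟨nat_lit 19, nat_lit 100, nat_lit 77, nat_lit 91, nat_lit 45111250⟩, ⟨nat_lit 11, nat_lit 62, nat_lit 62, nat_lit 100, nat_lit 526682665⟩]⟩
noncomputable def b_V_600_600_20_0 : St := ⟨true, nat_lit 0, nat_lit 0, nat_lit 1, nat_lit 120, nat_lit 240, nat_lit 280, nat_lit 240, nat_lit 280, nat_lit 16, nat_lit 400, nat_lit 80, nat_lit 120, nat_lit 0, nat_lit 364, nat_lit 0, nat_lit 364, nat_lit 0, nat_lit 24, nat_lit 0, nat_lit 0, nat_lit 0, nat_lit 0⟩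
theorem d_V_600_600_20_0 (h : EB TB.env) : Dead b_V_600_600_20_0 := chkB_sound0 h (T :=
(.spl (nat_lit 2) (nat_lit 120)
(.spl (nat_lit 4) (nat_lit 160)
(.spl (nat_lit 0) (nat_lit 260)
(.ord (.leaf p050_l116))
(.trZ (nat_lit 0) (nat_lit 100) (nat_lit 97) (nat_lit 49) (nat_lit 24) (.leaf p050_l117)))
(.spl (nat_lit 4) (nat_lit 240)
(.leaf p050_l118)
(.spl (nat_lit 1) (nat_lit 260)
(.spl (nat_lit 6) (nat_lit 12)
(.spl (nat_lit 5) (nat_lit 160)
(.leaf p050_l119)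
(.spl (nat_lit 5) (nat_lit 240)
(.leaf p050_l120)
(.spl (nat_lit 2) (nat_lit 80)
(.trX (nat_lit 11) (nat_lit 100) (nat_lit 76) (nat_lit 82) (nat_lit 336) (.trX (nat_lit 23) (nat_lit 100) (nat_lit 76) (nat_lit 82) (nat_lit 336) (.spl (nat_lit 0) (nat_lit 260)
(.leaf p050_l121)
(.trZ (nat_lit 0) (nat_lit 100) (nat_lit 97) (nat_lit 49) (nat_lit 24) (.leaf p050_l122)))))
(.leaf p050_l123))))
(.leaf p050_l124))
(.ord (.trZ (nat_lit 0) (nat_lit 100) (nat_lit 100) (nat_lit 60) (nat_lit 36) (.trX (nat_lit 16) (nat_lit 100) (nat_lit 69) (nat_lit 96) (nat_lit 352) (.trX (nat_lit 19) (nat_lit 100) (nat_lit 69) (nat_lit 96) (nat_lit 352) (.spl (nat_lit 5) (nat_lit 160)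
(.leaf p050_l125)
(.spl (nat_lit 4) (nat_lit 320)
(.leaf p050_l126)
(.trX (nat_lit 23) (nat_lit 87) (nat_lit 95) (nat_lit 100) (nat_lit 300) (.leaf p050_l127)))))))))))
(.spl (nat_lit 4) (nat_lit 160)
(.leaf p050_l128)
(.spl (nat_lit 5) (nat_lit 160)
(.leaf p050_l129)
(.leaf p050_l130))))) (by decide +kernel)
noncomputable def p050_l131 : Lf2 := ⟨nat_lit 0, nat_lit 6, [nat_lit 47, nat_lit 5, nat_lit 5, nat_lit 20], true, nat_lit 0, nat_lit 160, nat_lit 0, nat_lit 364, ⟨nat_lit 0, nat_lit 0, nat_lit 1000, nat_lit 6, nat_lit 118, nat_lit 372, nat_lit 63, nat_lit 1000, nat_lit 35267, nat_lit 261, nat_lit 129067, nat_lit 303, nat_lit 61668548, nat_lit 0, nat_lit 0, nat_lit 1388633, false, false⟩,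
 nat_lit 0, nat_lit 0, nat_lit 0, nat_lit 8511, nat_lit 3611, nat_lit 0, nat_lit 116, nat_lit 0, nat_lit 0, nat_lit 0, nat_lit 0, nat_lit 0, nat_lit 0, nat_lit 0, nat_lit 147, nat_lit 1000000, nat_lit 0, nat_lit 0, [(nat_lit 6, [(nat_lit 6, nat_lit 1000)]), (nat_lit 9, [(nat_lit 6, nat_lit 1000)])],
 ⟨p050_k17, nat_lit 0, nat_lit 0, nat_lit 289, nat_lit 0, nat_lit 0, [nat_lit 3449600001, nat_lit 3042400001, nat_lit 177599999], [], [nat_lit 12819791461, nat_lit 15346188738, nat_lit 12348961010, nat_lit 14772270542, nat_lit 12967840641, nat_lit 15230373737, nat_lit 12876557746, nat_lit 14924935734], nat_lit 0, nat_lit 0, nat_lit 0, nat_lit 0, nat_lit 0, nat_lit 0, [], [nat_lit 11, nat_lit 40, nat_lit 40, nat_lit 80, nat_lit 1, nat_lit 373, nat_lit 150, nat_lit 11]⟩, C1.Rw.none,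
 ⟨nat_lit 5477, nat_lit 6325, ⟨.ofNat (nat_lit 164319), .ofNat (nat_lit 378206), .ofNat (nat_lit 185687), .ofNat (nat_lit 399574), .ofNat (nat_lit 198021), .ofNat (nat_lit 392847), .ofNat (nat_lit 219378), .ofNat (nat_lit 414204)⟩, ⟨.negSucc (nat_lit 39529), .ofNat (nat_lit 289527), .ofNat (nat_lit 0), .ofNat (nat_lit 332263), .negSucc (nat_lit 2808), .ofNat (nat_lit 296923), .ofNat (nat_lit 0), .ofNat (nat_lit 339637)⟩⟩, [⟨nat_lit 0, nat_lit 100, nat_lit 96, nat_lit 69, nat_lit 137298780⟩]⟩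
noncomputable def p050_l132 : Lf2 := ⟨nat_lit 0, nat_lit 6, [nat_lit 47, nat_lit 5, nat_lit 5, nat_lit 20], true, nat_lit 0, nat_lit 160, nat_lit 0, nat_lit 352, ⟨nat_lit 0, nat_lit 0, nat_lit 1000, nat_lit 6, nat_lit 133, nat_lit 395, nat_lit 63, nat_lit 1000, nat_lit 35267, nat_lit 261, nat_lit 166667, nat_lit 315, nat_lit 60326691, nat_lit 0, nat_lit 0, nat_lit 1621031, false, false⟩,
 nat_lit 0, nat_lit 0, nat_lit 0, nat_lit 7948, nat_lit 3767, nat_lit 0, nat_lit 0, nat_lit 0, nat_lit 0, nat_lit 0, nat_lit 0, nat_lit 0, nat_lit 0, nat_lit 0, nat_lit 117, nat_lit 1000000, nat_lit 0, nat_lit 0, [(nat_lit 9, [(nat_lit 6, nat_lit 1000)])],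
 ⟨p050_k16, nat_lit 0, nat_lit 0, nat_lit 157, nat_lit 0, nat_lit 0, [nat_lit 2969600000, nat_lit 1600000000, nat_lit 226400000], [], [nat_lit 12601092620, nat_lit 13327243539, nat_lit 12816993660, nat_lit 13482096128, nat_lit 12903757188, nat_lit 13517002820, nat_lit 13238592050, nat_lit 13798440355], nat_lit 0, nat_lit 0, nat_lit 0, nat_lit 0, nat_lit 0, nat_lit 0, [], [nat_lit 9, nat_lit 40, nat_lit 40, nat_lit 80, nat_lit 2, nat_lit 289, nat_lit 75, nat_lit 10]⟩, C1.Rw.none,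
 ⟨nat_lit 5700, nat_lit 5917, ⟨.ofNat (nat_lit 242029), .ofNat (nat_lit 406949), .ofNat (nat_lit 252698), .ofNat (nat_lit 417619), .ofNat (nat_lit 249476), .ofNat (nat_lit 410586), .ofNat (nat_lit 260147), .ofNat (nat_lit 421257)⟩, ⟨.negSucc (nat_lit 20704), .ofNat (nat_lit 293429), .ofNat (nat_lit 0), .ofNat (nat_lit 336108), .negSucc (nat_lit 11648), .ofNat (nat_lit 295228), .ofNat (nat_lit 0), .ofNat (nat_lit 337912)⟩⟩, [⟨nat_lit 0, nat_lit 100, nat_lit 100, nat_lit 70, nat_lit 107103714⟩]⟩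
noncomputable def p050_l133 : Lf2 := ⟨nat_lit 0, nat_lit 6, [nat_lit 47, nat_lit 5, nat_lit 5, nat_lit 20], true, nat_lit 0, nat_lit 160, nat_lit 0, nat_lit 352, ⟨nat_lit 0, nat_lit 0, nat_lit 1000, nat_lit 6, nat_lit 139, nat_lit 345, nat_lit 63, nat_lit 1000, nat_lit 36817, nat_lit 262, nat_lit 180267, nat_lit 319, nat_lit 59790565, nat_lit 0, nat_lit 0, nat_lit 1707374, false, false⟩,
 nat_lit 0, nat_lit 0, nat_lit 0, nat_lit 6398, nat_lit 3818, nat_lit 0, nat_lit 0, nat_lit 0, nat_lit 0, nat_lit 0, nat_lit 0, nat_lit 0, nat_lit 0, nat_lit 16663493178768, nat_lit 100, nat_lit 841000, nat_lit 0, nat_lit 0, [(nat_lit 9, [(nat_lit 5, nat_lit 265), (nat_lit 6, nat_lit 735)])],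
 ⟨p050_k20, nat_lit 0, nat_lit 0, nat_lit 159, nat_lit 0, nat_lit 0, [nat_lit 2811232000, nat_lit 1401404000, nat_lit 183464000], [], [nat_lit 13474731672, nat_lit 14093548208, nat_lit 13635317512, nat_lit 14304663384, nat_lit 13542395808, nat_lit 14158064128, nat_lit 13910626170, nat_lit 14473759640], nat_lit 0, nat_lit 0, nat_lit 0, nat_lit 0, nat_lit 0, nat_lit 0, [], [nat_lit 9, nat_lit 40, nat_lit 40, nat_lit 80, nat_lit 2, nat_lit 289, nat_lit 75, nat_lit 10]⟩, C1.Rw.none,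
 ⟨nat_lit 5477, nat_lit 5701, ⟨.ofNat (nat_lit 257148), .ofNat (nat_lit 410586), .ofNat (nat_lit 278490), .ofNat (nat_lit 431928), .ofNat (nat_lit 264337), .ofNat (nat_lit 414204), .ofNat (nat_lit 285695), .ofNat (nat_lit 435561)⟩, ⟨.negSucc (nat_lit 11648), .ofNat (nat_lit 295228), .ofNat (nat_lit 0), .ofNat (nat_lit 337912), .negSucc (nat_lit 2808), .ofNat (nat_lit 296923), .ofNat (nat_lit 0), .ofNat (nat_lit 339637)⟩⟩, [⟨nat_lit 0, nat_lit 100, nat_lit 100, nat_lit 80, nat_lit 100175406⟩]⟩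
noncomputable def p050_l134 : Lf2 := ⟨nat_lit 0, nat_lit 6, [nat_lit 47, nat_lit 5, nat_lit 5, nat_lit 20], false, nat_lit 0, nat_lit 160, nat_lit 0, nat_lit 364, ⟨nat_lit 525, nat_lit 0, nat_lit 475, nat_lit 6, nat_lit 210, nat_lit 462, nat_lit 63, nat_lit 475, nat_lit 35267, nat_lit 261, nat_lit 63800, nat_lit 200, nat_lit 52536334, nat_lit 0, nat_lit 0, nat_lit 2608189, false, false⟩,
 nat_lit 0, nat_lit 0, nat_lit 7213, nat_lit 3796, nat_lit 6491, nat_lit 3818, nat_lit 1769, nat_lit 0, nat_lit 0, nat_lit 761, nat_lit 0, nat_lit 0, nat_lit 0, nat_lit 0, nat_lit 0, nat_lit 475000, nat_lit 0, nat_lit 0, [(nat_lit 6, [(nat_lit 6, nat_lit 475)]), (nat_lit 9, [(nat_lit 6, nat_lit 475)])],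
 ⟨p050_k17, nat_lit 0, nat_lit 0, nat_lit 154, nat_lit 0, nat_lit 0, [nat_lit 2982560000, nat_lit 3329890001, nat_lit 3215370000], [], [nat_lit 12956284602, nat_lit 16161283741, nat_lit 17677835625, nat_lit 20714563373, nat_lit 11158523265, nat_lit 13863852293, nat_lit 15025520821, nat_lit 17131364601], nat_lit 0, nat_lit 0, nat_lit 0, nat_lit 0, nat_lit 0, nat_lit 0, [], [nat_lit 11, nat_lit 40, nat_lit 40, nat_lit 80, nat_lit 1, nat_lit 401, nat_lit 175, nat_lit 12]⟩, ⟨p050_k17, nat_lit 0, nat_lit 0, nat_lit 447, nat_lit 0, nat_lit 510099, [nat_lit 2461200000, nat_lit 3281250000, nat_lit 5167050000], [], [nat_lit 25340485988, nat_lit 21240427420, nat_lit 15962447778, nat_lit 16601943574, nat_lit 16697776930, nat_lit 16593392315, nat_lit 23266915990, nat_lit 19857412210], nat_lit 1271250, nat_lit 1271250, nat_lit 780000, nat_lit 1762500, nat_lit 0, nat_lit 2570750, [nat_lit 1100000, nat_lit 1442500, nat_lit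 1271250], [nat_lit 11, nat_lit 40, nat_lit 40, nat_lit 80, nat_lit 1, nat_lit 456, nat_lit 225, nat_lit 13]⟩,
 ⟨nat_lit 5477, nat_lit 6325, ⟨.ofNat (nat_lit 378206), .ofNat (nat_lit 624852), .ofNat (nat_lit 420942), .ofNat (nat_lit 667525), .ofNat (nat_lit 392847), .ofNat (nat_lit 617499), .ofNat (nat_lit 435561), .ofNat (nat_lit 660151)⟩, ⟨.negSucc (nat_lit 39529), .ofNat (nat_lit 289527), .ofNat (nat_lit 0), .ofNat (nat_lit 332263), .negSucc (nat_lit 2808), .ofNat (nat_lit 296923), .ofNat (nat_lit 0), .ofNat (nat_lit 339637)⟩⟩, [⟨nat_lit 10, nat_lit 58, nat_lit 100, nat_lit 76, nat_lit 33779018⟩]⟩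
noncomputable def b_V_600_600_20_1 : St := ⟨true, nat_lit 0, nat_lit 1, nat_lit 1, nat_lit 120, nat_lit 240, nat_lit 280, nat_lit 240, nat_lit 280, nat_lit 16, nat_lit 240, nat_lit 80, nat_lit 120, nat_lit 0, nat_lit 160, nat_lit 0, nat_lit 364, nat_lit 0, nat_lit 24, nat_lit 0, nat_lit 0, nat_lit 0, nat_lit 0⟩
theorem d_V_600_600_20_1 (h : EB TB.env) : Dead b_V_600_600_20_1 := chkB_sound0 h (T :=
(.spl (nat_lit 2) (nat_lit 120)
(.spl (nat_lit 1) (nat_lit 260)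
(.leaf p050_l131)
(.ord (.trZ (nat_lit 0) (nat_lit 100) (nat_lit 100) (nat_lit 60) (nat_lit 36) (.trX (nat_lit 19) (nat_lit 100) (nat_lit 69) (nat_lit 96) (nat_lit 352) (.spl (nat_lit 0) (nat_lit 270)
(.ord (.leaf p050_l132))
(.trZ (nat_lit 0) (nat_lit 100) (nat_lit 98) (nat_lit 64) (nat_lit 40) (.leaf p050_l133)))))))
(.leaf p050_l134))) (by decide +kernel)
noncomputable def p050_l135 : Lf2 := ⟨nat_lit 1, nat_lit 1, [nat_lit 19, nat_lit 5, nat_lit 5, nat_lit 20], false, nat_lit 240, nat_lit 320, nat_lit 0, nat_lit 276, zbN0,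
 nat_lit 0, nat_lit 0, nat_lit 0, nat_lit 0, nat_lit 0, nat_lit 0, nat_lit 0, nat_lit 0, nat_lit 0, nat_lit 0, nat_lit 0, nat_lit 0, nat_lit 0, nat_lit 0, nat_lit 0, nat_lit 0, nat_lit 0, nat_lit 0, [],
 C1.Rw.none, C1.Rw.none,
 zbF0, []⟩
noncomputable def p050_l136 : Lf2 := ⟨nat_lit 0, nat_lit 1, [nat_lit 19, nat_lit 5, nat_lit 5, nat_lit 20], true, nat_lit 240, nat_lit 320, nat_lit 0, nat_lit 276, ⟨nat_lit 0, nat_lit 1000, nat_lit 0, nat_lit 6, nat_lit 87, nat_lit 1000, nat_lit 221, nat_lit 0, nat_lit 0, nat_lit 0, nat_lit 0, nat_lit 0, nat_lit 48061801, nat_lit 3592305, nat_lit 15345894, nat_lit 3868621, false, false⟩,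
 nat_lit 0, nat_lit 0, nat_lit 0, nat_lit 100000, nat_lit 4660, nat_lit 0, nat_lit 0, nat_lit 0, nat_lit 0, nat_lit 0, nat_lit 0, nat_lit 0, nat_lit 0, nat_lit 9077231259489, nat_lit 0, nat_lit 400000, nat_lit 0, nat_lit 0, [(nat_lit 6, [(nat_lit 1, nat_lit 1000)])],
 ⟨p050_k21, nat_lit 0, nat_lit 0, nat_lit 78, nat_lit 0, nat_lit 0, [nat_lit 2692266667, nat_lit 3030400000], [], [nat_lit 15889709075, nat_lit 16574035979, nat_lit 15525373972, nat_lit 16207490284, nat_lit 21566075629, nat_lit 22184818680, nat_lit 21152151068, nat_lit 21689283708], nat_lit 0, nat_lit 0, nat_lit 0, nat_lit 0, nat_lit 0, nat_lit 0, [], [nat_lit 31, nat_lit 40, nat_lit 40, nat_lit 80, nat_lit 3, nat_lit 215, nat_lit 10, nat_lit 8]⟩, C1.Rw.none,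
 ⟨nat_lit 5916, nat_lit 6124, ⟨.ofNat (nat_lit 199694), .ofNat (nat_lit 215770), .ofNat (nat_lit 210368), .ofNat (nat_lit 226444), .ofNat (nat_lit 207799), .ofNat (nat_lit 223506), .ofNat (nat_lit 218469), .ofNat (nat_lit 234175)⟩, ⟨.ofNat (nat_lit 452290), .ofNat (nat_lit 613047), .ofNat (nat_lit 494987), .ofNat (nat_lit 655739), .ofNat (nat_lit 450496), .ofNat (nat_lit 607559), .ofNat (nat_lit 493175), .ofNat (nat_lit 650233)⟩⟩, [⟨nat_lit 0, nat_lit 100, nat_lit 100, nat_lit 55, nat_lit 7167876074⟩]⟩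
noncomputable def p050_l137 : Lf2 := ⟨nat_lit 1, nat_lit 3, [nat_lit 45, nat_lit 5, nat_lit 5, nat_lit 20], false, nat_lit 240, nat_lit 320, nat_lit 0, nat_lit 276, zbN0,
 nat_lit 0, nat_lit 0, nat_lit 0, nat_lit 0, nat_lit 0, nat_lit 0, nat_lit 0, nat_lit 0, nat_lit 0, nat_lit 0, nat_lit 0, nat_lit 0, nat_lit 0, nat_lit 0, nat_lit 0, nat_lit 0, nat_lit 0, nat_lit 0, [],
 C1.Rw.none, C1.Rw.none,
 zbF0, []⟩
noncomputable def p050_l138 : Lf2 := ⟨nat_lit 0, nat_lit 3, [nat_lit 45, nat_lit 5, nat_lit 5, nat_lit 20], true, nat_lit 240, nat_lit 320, nat_lit 0, nat_lit 276, ⟨nat_lit 0, nat_lit 1000, nat_lit 0, nat_lit 6, nat_lit 88, nat_lit 1000, nat_lit 219, nat_lit 0, nat_lit 0, nat_lit 0, nat_lit 0, nat_lit 0, nat_lit 48148461, nat_lit 3658624, nat_lit 15192915, nat_lit 3870051, false, false⟩,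
 nat_lit 0, nat_lit 0, nat_lit 0, nat_lit 100000, nat_lit 4918, nat_lit 0, nat_lit 1066, nat_lit 0, nat_lit 0, nat_lit 0, nat_lit 0, nat_lit 0, nat_lit 0, nat_lit 0, nat_lit 0, nat_lit 1000000, nat_lit 0, nat_lit 0, [(nat_lit 9, [(nat_lit 2, nat_lit 1000)])],
 ⟨p050_k19, nat_lit 0, nat_lit 0, nat_lit 125, nat_lit 0, nat_lit 0, [nat_lit 2663466667, nat_lit 2329200000, nat_lit 1646800000], [], [nat_lit 17690495769, nat_lit 18278051620, nat_lit 17374345039, nat_lit 17960550357, nat_lit 22498169484, nat_lit 23132406004, nat_lit 22124660289, nat_lit 22602545087], nat_lit 0, nat_lit 0, nat_lit 0, nat_lit 0, nat_lit 0, nat_lit 0, [], [nat_lit 9, nat_lit 40, nat_lit 40, nat_lit 80, nat_lit 2, nat_lit 215, nat_lit 10, nat_lit 6]⟩, C1.Rw.none,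
 ⟨nat_lit 5700, nat_lit 5917, ⟨.ofNat (nat_lit 197129), .ofNat (nat_lit 212836), .ofNat (nat_lit 218469), .ofNat (nat_lit 234175), .ofNat (nat_lit 205119), .ofNat (nat_lit 220462), .ofNat (nat_lit 226461), .ofNat (nat_lit 241804)⟩, ⟨.ofNat (nat_lit 450496), .ofNat (nat_lit 607561), .ofNat (nat_lit 493175), .ofNat (nat_lit 650236), .ofNat (nat_lit 448666), .ofNat (nat_lit 602101), .ofNat (nat_lit 491350), .ofNat (nat_lit 644781)⟩⟩, [⟨nat_lit 0, nat_lit 100, nat_lit 98, nat_lit 57, nat_lit 7233594174⟩, ⟨nat_lit 4, nat_lit 80, nat_lit 100, nat_lit 92, nat_lit 220733258⟩]⟩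
noncomputable def p050_l139 : Lf2 := ⟨nat_lit 0, nat_lit 3, [nat_lit 45, nat_lit 5, nat_lit 5, nat_lit 20], true, nat_lit 240, nat_lit 320, nat_lit 0, nat_lit 276, ⟨nat_lit 0, nat_lit 1000, nat_lit 0, nat_lit 6, nat_lit 92, nat_lit 1000, nat_lit 218, nat_lit 0, nat_lit 0, nat_lit 0, nat_lit 0, nat_lit 0, nat_lit 48031984, nat_lit 3952317, nat_lit 15015699, nat_lit 3919403, false, false⟩,
 nat_lit 0, nat_lit 0, nat_lit 0, nat_lit 100000, nat_lit 4914, nat_lit 0, nat_lit 676, nat_lit 0, nat_lit 0, nat_lit 0, nat_lit 0, nat_lit 0, nat_lit 0, nat_lit 0, nat_lit 0, nat_lit 1000000, nat_lit 0, nat_lit 0, [(nat_lit 9, [(nat_lit 2, nat_lit 1000)])],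
 ⟨p050_k22, nat_lit 0, nat_lit 0, nat_lit 81, nat_lit 0, nat_lit 0, [nat_lit 2663466667, nat_lit 2329200000], [], [nat_lit 18125826072, nat_lit 18716562328, nat_lit 17966987041, nat_lit 18556768373, nat_lit 22862631460, nat_lit 23496387044, nat_lit 22598532901, nat_lit 23231470133], nat_lit 0, nat_lit 0, nat_lit 0, nat_lit 0, nat_lit 0, nat_lit 0, [], [nat_lit 31, nat_lit 40, nat_lit 40, nat_lit 80, nat_lit 3, nat_lit 215, nat_lit 10, nat_lit 7]⟩, C1.Rw.none,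
 ⟨nat_lit 5477, nat_lit 5701, ⟨.ofNat (nat_lit 212791), .ofNat (nat_lit 220462), .ofNat (nat_lit 234133), .ofNat (nat_lit 241804), .ofNat (nat_lit 220501), .ofNat (nat_lit 227994), .ofNat (nat_lit 241858), .ofNat (nat_lit 249351)⟩, ⟨.ofNat (nat_lit 448666), .ofNat (nat_lit 602103), .ofNat (nat_lit 491350), .ofNat (nat_lit 644784), .ofNat (nat_lit 446789), .ofNat (nat_lit 596655), .ofNat (nat_lit 489503), .ofNat (nat_lit 639366)⟩⟩, [⟨nat_lit 0, nat_lit 100, nat_lit 96, nat_lit 54, nat_lit 8185006412⟩, ⟨nat_lit 4, nat_lit 85, nat_lit 100, nat_lit 93, nat_lit 220070152⟩]⟩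
noncomputable def p050_l140 : Lf2 := ⟨nat_lit 0, nat_lit 3, [nat_lit 45, nat_lit 5, nat_lit 5, nat_lit 20], true, nat_lit 240, nat_lit 280, nat_lit 0, nat_lit 288, ⟨nat_lit 0, nat_lit 1000, nat_lit 0, nat_lit 6, nat_lit 92, nat_lit 1000, nat_lit 204, nat_lit 0, nat_lit 0, nat_lit 0, nat_lit 0, nat_lit 0, nat_lit 49335624, nat_lit 3989541, nat_lit 13674835, nat_lit 3799696, false, false⟩,
 nat_lit 0, nat_lit 0, nat_lit 0, nat_lit 5030, nat_lit 4933, nat_lit 0, nat_lit 0, nat_lit 0, nat_lit 0, nat_lit 0, nat_lit 0, nat_lit 0, nat_lit 0, nat_lit 5471342087688, nat_lit 0, nat_lit 400000, nat_lit 0, nat_lit 0, [(nat_lit 6, [(nat_lit 1, nat_lit 1000)]), (nat_lit 9, [(nat_lit 1, nat_lit 1000)])],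
 ⟨p050_k18, nat_lit 0, nat_lit 0, nat_lit 74, nat_lit 0, nat_lit 0, [nat_lit 2702720000, nat_lit 3030400001, nat_lit 3280799999], [], [nat_lit 14610946070, nat_lit 17419054372, nat_lit 14220832724, nat_lit 17019835268, nat_lit 17584460109, nat_lit 20133383852, nat_lit 17183799062, nat_lit 19681644018], nat_lit 0, nat_lit 0, nat_lit 0, nat_lit 0, nat_lit 0, nat_lit 0, [], [nat_lit 9, nat_lit 40, nat_lit 40, nat_lit 80, nat_lit 2, nat_lit 215, nat_lit 10, nat_lit 7]⟩, C1.Rw.none,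
 ⟨nat_lit 5477, nat_lit 6325, ⟨.ofNat (nat_lit 197224), .ofNat (nat_lit 213677), .ofNat (nat_lit 218592), .ofNat (nat_lit 235045), .ofNat (nat_lit 227994), .ofNat (nat_lit 242980), .ofNat (nat_lit 249351), .ofNat (nat_lit 264337)⟩, ⟨.ofNat (nat_lit 454055), .ofNat (nat_lit 536314), .ofNat (nat_lit 496791), .ofNat (nat_lit 579003), .ofNat (nat_lit 446789), .ofNat (nat_lit 521717), .ofNat (nat_lit 489503), .ofNat (nat_lit 564384)⟩⟩, [⟨nat_lit 0, nat_lit 100, nat_lit 99, nat_lit 55, nat_lit 366473458⟩]⟩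
noncomputable def p050_l141 : Lf2 := ⟨nat_lit 0, nat_lit 3, [nat_lit 45, nat_lit 5, nat_lit 5, nat_lit 20], false, nat_lit 280, nat_lit 320, nat_lit 0, nat_lit 160, ⟨nat_lit 1000, nat_lit 0, nat_lit 0, nat_lit 0, nat_lit 0, nat_lit 0, nat_lit 0, nat_lit 0, nat_lit 0, nat_lit 0, nat_lit 0, nat_lit 0, nat_lit 0, nat_lit 0, nat_lit 0, nat_lit 0, false, false⟩,
 nat_lit 0, nat_lit 0, nat_lit 16900, nat_lit 22517, nat_lit 6116, nat_lit 8947, nat_lit 0, nat_lit 0, nat_lit 0, nat_lit 3389, nat_lit 0, nat_lit 0, nat_lit 0, nat_lit 0, nat_lit 0, nat_lit 0, nat_lit 0, nat_lit 0, [],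
 ⟨p050_k18, nat_lit 0, nat_lit 0, nat_lit 95, nat_lit 0, nat_lit 0, [nat_lit 4688000000, nat_lit 6250000000, nat_lit 7968000000], [], [nat_lit 18897504618, nat_lit 21690355648, nat_lit 18374119624, nat_lit 21159116536, nat_lit 22250764497, nat_lit 24683238353, nat_lit 21715392800, nat_lit 24142405536], nat_lit 0, nat_lit 0, nat_lit 0, nat_lit 0, nat_lit 0, nat_lit 0, [], [nat_lit 9, nat_lit 40, nat_lit 40, nat_lit 80, nat_lit 2, nat_lit 215, nat_lit 10, nat_lit 6]⟩, ⟨p050_k18, nat_lit 0, nat_lit 0, nat_lit 261, nat_lit 0, nat_lit 98107, [nat_lit 4688000000, nat_lit 6250000000, nat_lit 7968000000], [], [nat_lit 16965260536, nat_lit 18153324359, nat_lit 15945520441, nat_lit 17129629972, nat_lit 12351154859, nat_lit 12845508784, nat_lit 12413133752, nat_lit 12189501168], nat_lit 1271250, nat_lit 1271250, nat_lit 181601, nat_lit 230001, nat_lit 0, nat_lit 1100001, [nat_lit 1100000, nat_lit 1442500, nat_lit 1271250],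 [nat_lit 9, nat_lit 40, nat_lit 40, nat_lit 80, nat_lit 2, nat_lit 260, nat_lit 50, nat_lit 9]⟩,
 zbF0, [⟨nat_lit 0, nat_lit 100, nat_lit 98, nat_lit 52, nat_lit 800471118⟩, ⟨nat_lit 0, nat_lit 100, nat_lit 95, nat_lit 64, nat_lit 947981164⟩, ⟨nat_lit 4, nat_lit 77, nat_lit 100, nat_lit 91, nat_lit 688646386⟩]⟩
noncomputable def p050_l142 : Lf2 := ⟨nat_lit 0, nat_lit 3, [nat_lit 45, nat_lit 5, nat_lit 5, nat_lit 20], false, nat_lit 280, nat_lit 320, nat_lit 0, nat_lit 160, ⟨nat_lit 1000, nat_lit 0, nat_lit 0, nat_lit 0, nat_lit 0, nat_lit 0, nat_lit 0, nat_lit 0, nat_lit 0, nat_lit 0, nat_lit 0, nat_lit 0, nat_lit 0, nat_lit 0, nat_lit 0, nat_lit 0, false, false⟩,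
 nat_lit 0, nat_lit 0, nat_lit 14181, nat_lit 25365, nat_lit 6161, nat_lit 7878, nat_lit 0, nat_lit 0, nat_lit 0, nat_lit 6596, nat_lit 0, nat_lit 0, nat_lit 0, nat_lit 0, nat_lit 0, nat_lit 0, nat_lit 0, nat_lit 0, [],
 ⟨p050_k23, nat_lit 0, nat_lit 0, nat_lit 95, nat_lit 0, nat_lit 0, [nat_lit 4688000000, nat_lit 6250000000, nat_lit 7968000000], [], [nat_lit 19572884250, nat_lit 21675736408, nat_lit 19042860217, nat_lit 21139800106, nat_lit 22849950911, nat_lit 24737316408, nat_lit 22308487314, nat_lit 24135317856], nat_lit 0, nat_lit 0, nat_lit 0, nat_lit 0, nat_lit 0, nat_lit 0, [], [nat_lit 9, nat_lit 40, nat_lit 40, nat_lit 80, nat_lit 2, nat_lit 215, nat_lit 10, nat_lit 6]⟩, ⟨p050_k23, nat_lit 0, nat_lit 0, nat_lit 260, nat_lit 0, nat_lit 143829, [nat_lit 4688000000, nat_lit 6250000000, nat_lit 7968000000], [], [nat_lit 16815414249, nat_lit 18335647021, nat_lit 15576230744, nat_lit 17097470320, nat_lit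 12136133227, nat_lit 12977979503, nat_lit 11572930632, nat_lit 12410933120], nat_lit 1271250, nat_lit 1271250, nat_lit 181601, nat_lit 230001, nat_lit 0, nat_lit 1100001, [nat_lit 1100000, nat_lit 1442500, nat_lit 1271250], [nat_lit 9, nat_lit 40, nat_lit 40, nat_lit 80, nat_lit 2, nat_lit 260, nat_lit 50, nat_lit 9]⟩,
 zbF0, [⟨nat_lit 0, nat_lit 100, nat_lit 98, nat_lit 60, nat_lit 1882614827⟩, ⟨nat_lit 4, nat_lit 80, nat_lit 100, nat_lit 92, nat_lit 682830096⟩]⟩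
noncomputable def p050_l143 : Lf2 := ⟨nat_lit 0, nat_lit 3, [nat_lit 45, nat_lit 5, nat_lit 5, nat_lit 20], false, nat_lit 280, nat_lit 320, nat_lit 160, nat_lit 200, ⟨nat_lit 1000, nat_lit 0, nat_lit 0, nat_lit 0, nat_lit 0, nat_lit 0, nat_lit 0, nat_lit 0, nat_lit 0, nat_lit 0, nat_lit 0, nat_lit 0, nat_lit 0, nat_lit 0, nat_lit 0, nat_lit 0, false, false⟩,
 nat_lit 0, nat_lit 0, nat_lit 14802, nat_lit 0, nat_lit 6230, nat_lit 7836, nat_lit 0, nat_lit 0, nat_lit 0, nat_lit 0, nat_lit 0, nat_lit 0, nat_lit 0, nat_lit 0, nat_lit 0, nat_lit 0, nat_lit 0, nat_lit 0, [],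
 ⟨p050_k18, nat_lit 0, nat_lit 0, nat_lit 95, nat_lit 0, nat_lit 0, [nat_lit 4688000000, nat_lit 6250000000, nat_lit 7968000000], [], [nat_lit 18832724529, nat_lit 21653320241, nat_lit 18297513220, nat_lit 21110181580, nat_lit 22222578681, nat_lit 24820639097, nat_lit 21675242000, nat_lit 24124450080], nat_lit 0, nat_lit 0, nat_lit 0, nat_lit 0, nat_lit 0, nat_lit 0, [], [nat_lit 9, nat_lit 40, nat_lit 40, nat_lit 80, nat_lit 2, nat_lit 215, nat_lit 10, nat_lit 6]⟩, ⟨p050_k18, nat_lit 0, nat_lit 0, nat_lit 185, nat_lit 0, nat_lit 152907, [nat_lit 4688000000, nat_lit 6250000000, nat_lit 7968000000], [], [nat_lit 8745503287, nat_lit 10967706370, nat_lit 8060712912, nat_lit 10274942264, nat_lit 11380120045, nat_lit 13603250192, nat_lit 10693855760, nat_lit 12711745948], nat_lit 1271250, nat_lit 1271250, nat_lit 181601, nat_lit 230001, nat_lit 1100001, nat_lit 1442500, [nat_lit 1100000, nat_lit 1442500, nat_lit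 1271250], [nat_lit 9, nat_lit 40, nat_lit 40, nat_lit 80, nat_lit 2, nat_lit 272, nat_lit 60, nat_lit 9]⟩,
 zbF0, [⟨nat_lit 0, nat_lit 100, nat_lit 99, nat_lit 55, nat_lit 930434010⟩, ⟨nat_lit 4, nat_lit 77, nat_lit 100, nat_lit 91, nat_lit 50170379⟩, ⟨nat_lit 11, nat_lit 100, nat_lit 76, nat_lit 58, nat_lit 1008452168⟩]⟩
noncomputable def p050_l144 : Lf2 := ⟨nat_lit 0, nat_lit 3, [nat_lit 45, nat_lit 5, nat_lit 5, nat_lit 20], false, nat_lit 280, nat_lit 320, nat_lit 200, nat_lit 248, ⟨nat_lit 1000, nat_lit 0, nat_lit 0, nat_lit 0, nat_lit 0, nat_lit 0, nat_lit 0, nat_lit 0, nat_lit 0, nat_lit 0, nat_lit 0, nat_lit 0, nat_lit 0, nat_lit 0, nat_lit 0, nat_lit 0, false, false⟩,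
 nat_lit 0, nat_lit 0, nat_lit 20055, nat_lit 0, nat_lit 6532, nat_lit 10617, nat_lit 0, nat_lit 0, nat_lit 0, nat_lit 3109, nat_lit 0, nat_lit 0, nat_lit 0, nat_lit 0, nat_lit 0, nat_lit 0, nat_lit 0, nat_lit 0, [],
 ⟨p050_k18, nat_lit 0, nat_lit 0, nat_lit 95, nat_lit 0, nat_lit 0, [nat_lit 4688000000, nat_lit 6250000000, nat_lit 7968000000], [], [nat_lit 18661114116, nat_lit 21555208896, nat_lit 18094573448, nat_lit 20980546872, nat_lit 22262153914, nat_lit 25185326807, nat_lit 21568877600, nat_lit 24449898256], nat_lit 0, nat_lit 0, nat_lit 0, nat_lit 0, nat_lit 0, nat_lit 0, [], [nat_lit 9, nat_lit 40, nat_lit 40, nat_lit 80, nat_lit 2, nat_lit 215, nat_lit 10, nat_lit 6]⟩, ⟨p050_k18, nat_lit 0, nat_lit 0, nat_lit 165, nat_lit 0, nat_lit 152907, [nat_lit 4688000000, nat_lit 6250000000, nat_lit 7968000000], [], [nat_lit 12263370181, nat_lit 14526678592, nat_lit 11292322324, nat_lit 13552258126, nat_lit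 15923946208, nat_lit 18449436585, nat_lit 14953703270, nat_lit 17213298940], nat_lit 1271250, nat_lit 1271250, nat_lit 181601, nat_lit 230001, nat_lit 1271250, nat_lit 1271250, [nat_lit 1100000, nat_lit 1442500, nat_lit 1271250], [nat_lit 9, nat_lit 40, nat_lit 40, nat_lit 80, nat_lit 2, nat_lit 289, nat_lit 75, nat_lit 9]⟩,
 zbF0, [⟨nat_lit 0, nat_lit 100, nat_lit 96, nat_lit 69, nat_lit 1258871706⟩, ⟨nat_lit 11, nat_lit 100, nat_lit 87, nat_lit 60, nat_lit 1145787349⟩]⟩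
noncomputable def p050_l145 : Lf2 := ⟨nat_lit 0, nat_lit 3, [nat_lit 45, nat_lit 5, nat_lit 5, nat_lit 20], true, nat_lit 240, nat_lit 280, nat_lit 0, nat_lit 336, ⟨nat_lit 0, nat_lit 1000, nat_lit 0, nat_lit 6, nat_lit 111, nat_lit 1000, nat_lit 204, nat_lit 0, nat_lit 0, nat_lit 0, nat_lit 0, nat_lit 0, nat_lit 48182939, nat_lit 5256231, nat_lit 13560830, nat_lit 4046854, false, false⟩,
 nat_lit 0, nat_lit 0, nat_lit 0, nat_lit 4232, nat_lit 4996, nat_lit 0, nat_lit 0, nat_lit 0, nat_lit 0, nat_lit 0, nat_lit 0, nat_lit 0, nat_lit 0, nat_lit 0, nat_lit 0, nat_lit 400000, nat_lit 0, nat_lit 0, [(nat_lit 6, [(nat_lit 1, nat_lit 1000)]), (nat_lit 9, [(nat_lit 1, nat_lit 1000)])],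
 ⟨p050_k18, nat_lit 0, nat_lit 0, nat_lit 65, nat_lit 0, nat_lit 0, [nat_lit 2702720000, nat_lit 3030400001, nat_lit 3280799999], [], [nat_lit 14158351088, nat_lit 16975672016, nat_lit 13612011952, nat_lit 16326590480, nat_lit 17141463944, nat_lit 19654601016, nat_lit 16484311952, nat_lit 18909876824], nat_lit 0, nat_lit 0, nat_lit 0, nat_lit 0, nat_lit 0, nat_lit 0, [], [nat_lit 9, nat_lit 40, nat_lit 40, nat_lit 80, nat_lit 2, nat_lit 226, nat_lit 20, nat_lit 7]⟩, C1.Rw.none,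
 ⟨nat_lit 5477, nat_lit 6325, ⟨.ofNat (nat_lit 213677), .ofNat (nat_lit 295942), .ofNat (nat_lit 235045), .ofNat (nat_lit 317309), .ofNat (nat_lit 242980), .ofNat (nat_lit 317913), .ofNat (nat_lit 264337), .ofNat (nat_lit 339271)⟩, ⟨.ofNat (nat_lit 454055), .ofNat (nat_lit 536314), .ofNat (nat_lit 496791), .ofNat (nat_lit 579003), .ofNat (nat_lit 446789), .ofNat (nat_lit 521717), .ofNat (nat_lit 489503), .ofNat (nat_lit 564384)⟩⟩, [⟨nat_lit 0, nat_lit 100, nat_lit 96, nat_lit 69, nat_lit 4426989⟩]⟩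
noncomputable def p050_l146 : Lf2 := ⟨nat_lit 0, nat_lit 3, [nat_lit 45, nat_lit 5, nat_lit 5, nat_lit 20], false, nat_lit 280, nat_lit 320, nat_lit 0, nat_lit 160, ⟨nat_lit 1000, nat_lit 0, nat_lit 0, nat_lit 0, nat_lit 0, nat_lit 0, nat_lit 0, nat_lit 0, nat_lit 0, nat_lit 0, nat_lit 0, nat_lit 0, nat_lit 0, nat_lit 0, nat_lit 0, nat_lit 0, false, false⟩,
 nat_lit 0, nat_lit 0, nat_lit 25766, nat_lit 0, nat_lit 6230, nat_lit 13640, nat_lit 0, nat_lit 0, nat_lit 0, nat_lit 419, nat_lit 0, nat_lit 0, nat_lit 0, nat_lit 0, nat_lit 0, nat_lit 0, nat_lit 0, nat_lit 0, [],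
 ⟨p050_k18, nat_lit 0, nat_lit 0, nat_lit 87, nat_lit 0, nat_lit 0, [nat_lit 4688000000, nat_lit 6250000000, nat_lit 7968000000], [], [nat_lit 18297513220, nat_lit 21110181580, nat_lit 17287434760, nat_lit 19997784620, nat_lit 21675242000, nat_lit 24124450080, nat_lit 20534870760, nat_lit 22899953840], nat_lit 0, nat_lit 0, nat_lit 0, nat_lit 0, nat_lit 0, nat_lit 0, [], [nat_lit 9, nat_lit 40, nat_lit 40, nat_lit 80, nat_lit 2, nat_lit 226, nat_lit 20, nat_lit 7]⟩, ⟨p050_k18, nat_lit 0, nat_lit 0, nat_lit 261, nat_lit 0, nat_lit 152907, [nat_lit 4688000000, nat_lit 6250000000, nat_lit 7968000000], [], [nat_lit 27780393120, nat_lit 24119300735, nat_lit 17186901215, nat_lit 20287592975, nat_lit 10181663295, nat_lit 12847023055, nat_lit 7299577055, nat_lit 9851328815], nat_lit 1271250, nat_lit 1271250, nat_lit 230001, nat_lit 490000, nat_lit 0, nat_lit 1100001, [nat_lit 1100000, nat_lit 1442500, nat_lit 1271250],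 [nat_lit 9, nat_lit 40, nat_lit 40, nat_lit 80, nat_lit 2, nat_lit 272, nat_lit 60, nat_lit 9]⟩,
 zbF0, [⟨nat_lit 4, nat_lit 77, nat_lit 100, nat_lit 91, nat_lit 469785925⟩]⟩
noncomputable def p050_l147 : Lf2 := ⟨nat_lit 0, nat_lit 3, [nat_lit 45, nat_lit 5, nat_lit 5, nat_lit 20], false, nat_lit 280, nat_lit 320, nat_lit 160, nat_lit 240, ⟨nat_lit 1000, nat_lit 0, nat_lit 0, nat_lit 0, nat_lit 0, nat_lit 0, nat_lit 0, nat_lit 0, nat_lit 0, nat_lit 0, nat_lit 0, nat_lit 0, nat_lit 0, nat_lit 0, nat_lit 0, nat_lit 0, false, false⟩,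
 nat_lit 0, nat_lit 0, nat_lit 27657, nat_lit 0, nat_lit 6230, nat_lit 14641, nat_lit 0, nat_lit 0, nat_lit 0, nat_lit 0, nat_lit 0, nat_lit 0, nat_lit 0, nat_lit 0, nat_lit 0, nat_lit 0, nat_lit 0, nat_lit 0, [],
 ⟨p050_k18, nat_lit 0, nat_lit 0, nat_lit 87, nat_lit 0, nat_lit 0, [nat_lit 4688000000, nat_lit 6250000000, nat_lit 7968000000], [], [nat_lit 18297513220, nat_lit 21110181580, nat_lit 17287434760, nat_lit 19997784620, nat_lit 21675242000, nat_lit 24124450080, nat_lit 20534870760, nat_lit 22899953840], nat_lit 0, nat_lit 0, nat_lit 0, nat_lit 0, nat_lit 0, nat_lit 0, [], [nat_lit 9, nat_lit 40, nat_lit 40, nat_lit 80, nat_lit 2, nat_lit 226, nat_lit 20, nat_lit 7]⟩, ⟨p050_k18, nat_lit 0, nat_lit 0, nat_lit 181, nat_lit 0, nat_lit 152907, [nat_lit 4688000000, nat_lit 6250000000, nat_lit 7968000000], [], [nat_lit 22516625928, nat_lit 15004943750, nat_lit 7493261572, nat_lit 7605230298, nat_lit 13650843848,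 nat_lit 17047091834, nat_lit 9601561696, nat_lit 12875760790], nat_lit 1271250, nat_lit 1271250, nat_lit 230001, nat_lit 490000, nat_lit 1100001, nat_lit 1785000, [nat_lit 1100000, nat_lit 1442500, nat_lit 1271250], [nat_lit 9, nat_lit 40, nat_lit 40, nat_lit 80, nat_lit 2, nat_lit 317, nat_lit 100, nat_lit 10]⟩,
 zbF0, [⟨nat_lit 0, nat_lit 100, nat_lit 96, nat_lit 69, nat_lit 715456149⟩, ⟨nat_lit 16, nat_lit 100, nat_lit 77, nat_lit 91, nat_lit 530167895⟩]⟩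
noncomputable def p050_l148 : Lf2 := ⟨nat_lit 0, nat_lit 3, [nat_lit 45, nat_lit 5, nat_lit 5, nat_lit 20], false, nat_lit 280, nat_lit 320, nat_lit 240, nat_lit 300, ⟨nat_lit 1000, nat_lit 0, nat_lit 0, nat_lit 0, nat_lit 0, nat_lit 0, nat_lit 0, nat_lit 0, nat_lit 0, nat_lit 0, nat_lit 0, nat_lit 0, nat_lit 0, nat_lit 0, nat_lit 0, nat_lit 0, false, false⟩,
 nat_lit 0, nat_lit 0, nat_lit 16902, nat_lit 0, nat_lit 6689, nat_lit 8947, nat_lit 0, nat_lit 0, nat_lit 0, nat_lit 2590, nat_lit 0, nat_lit 0, nat_lit 0, nat_lit 0, nat_lit 0, nat_lit 0, nat_lit 0, nat_lit 0, [],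
 ⟨p050_k18, nat_lit 0, nat_lit 0, nat_lit 87, nat_lit 0, nat_lit 0, [nat_lit 4688000000, nat_lit 6250000000, nat_lit 7968000000], [], [nat_lit 17989071646, nat_lit 20913153994, nat_lit 16847718268, nat_lit 19663997066, nat_lit 21660034104, nat_lit 24619538012, nat_lit 20234690268, nat_lit 22836788932], nat_lit 0, nat_lit 0, nat_lit 0, nat_lit 0, nat_lit 0, nat_lit 0, [], [nat_lit 9, nat_lit 40, nat_lit 40, nat_lit 80, nat_lit 2, nat_lit 226, nat_lit 20, nat_lit 7]⟩, ⟨p050_k18, nat_lit 0, nat_lit 0, nat_lit 149, nat_lit 0, nat_lit 152907, [nat_lit 4688000000, nat_lit 6250000000, nat_lit 7968000000], [], [nat_lit 15798223302, nat_lit 17421786758, nat_lit 14081863260, nat_lit 15682183852, nat_lit 21448150195, nat_lit 22921343252, nat_lit 19543871812, nat_lit 20960858301], nat_lit 1271250, nat_lit 1271250, nat_lit 230001, nat_lit 490000, nat_lit 1271250, nat_lit 1271250, [nat_lit 1100000, nat_lit 1442500, nat_lit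 1271250], [nat_lit 9, nat_lit 40, nat_lit 40, nat_lit 80, nat_lit 2, nat_lit 226, nat_lit 20, nat_lit 7]⟩,
 zbF0, [⟨nat_lit 0, nat_lit 100, nat_lit 96, nat_lit 69, nat_lit 127960050⟩, ⟨nat_lit 11, nat_lit 100, nat_lit 97, nat_lit 76, nat_lit 946084963⟩]⟩
noncomputable def p050_l149 : Lf2 := ⟨nat_lit 1, nat_lit 3, [nat_lit 45, nat_lit 5, nat_lit 5, nat_lit 20], false, nat_lit 320, nat_lit 364, nat_lit 0, nat_lit 260, zbN0,
 nat_lit 0, nat_lit 0, nat_lit 0, nat_lit 0, nat_lit 0, nat_lit 0, nat_lit 0, nat_lit 0, nat_lit 0, nat_lit 0, nat_lit 0, nat_lit 0, nat_lit 0, nat_lit 0, nat_lit 0, nat_lit 0, nat_lit 0, nat_lit 0, [],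
 C1.Rw.none, C1.Rw.none,
 zbF0, []⟩
noncomputable def p050_l150 : Lf2 := ⟨nat_lit 0, nat_lit 3, [nat_lit 45, nat_lit 5, nat_lit 5, nat_lit 20], false, nat_lit 320, nat_lit 352, nat_lit 0, nat_lit 200, ⟨nat_lit 1000, nat_lit 0, nat_lit 0, nat_lit 0, nat_lit 0, nat_lit 0, nat_lit 0, nat_lit 0, nat_lit 0, nat_lit 0, nat_lit 0, nat_lit 0, nat_lit 0, nat_lit 0, nat_lit 0, nat_lit 0, false, false⟩,
 nat_lit 0, nat_lit 0, nat_lit 28198, nat_lit 100000, nat_lit 6689, nat_lit 14928, nat_lit 2814, nat_lit 0, nat_lit 0, nat_lit 92, nat_lit 0, nat_lit 0, nat_lit 0, nat_lit 0, nat_lit 0, nat_lit 0, nat_lit 0, nat_lit 0, [],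
 ⟨p050_k19, nat_lit 0, nat_lit 0, nat_lit 147, nat_lit 0, nat_lit 0, [nat_lit 4688000000, nat_lit 6250000000, nat_lit 7968000000], [], [nat_lit 24649116282, nat_lit 26130294214, nat_lit 23638799320, nat_lit 24621481410, nat_lit 28466271394, nat_lit 29749293955, nat_lit 26933924328, nat_lit 28217863472], nat_lit 0, nat_lit 0, nat_lit 0, nat_lit 0, nat_lit 0, nat_lit 0, [], [nat_lit 9, nat_lit 40, nat_lit 40, nat_lit 80, nat_lit 2, nat_lit 215, nat_lit 10, nat_lit 6]⟩, ⟨p050_k18, nat_lit 0, nat_lit 0, nat_lit 265, nat_lit 0, nat_lit 98107, [nat_lit 4688000000, nat_lit 6250000000, nat_lit 7968000000], [], [nat_lit 33258885012, nat_lit 29406371268, nat_lit 27039545824, nat_lit 23210080912, nat_lit 15156014492, nat_lit 16448676348, nat_lit 12331703516, nat_lit 13616400556], nat_lit 1271250, nat_lit 1271250, nat_lit 134400, nat_lit 230001, nat_lit 0, nat_lit 1412500, [nat_lit 1100000, nat_lit 1442500, nat_lit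 1271250], [nat_lit 9, nat_lit 40, nat_lit 40, nat_lit 80, nat_lit 2, nat_lit 272, nat_lit 60, nat_lit 9]⟩,
 zbF0, [⟨nat_lit 0, nat_lit 100, nat_lit 95, nat_lit 64, nat_lit 3305726089⟩, ⟨nat_lit 4, nat_lit 82, nat_lit 100, nat_lit 92, nat_lit 3415938618⟩]⟩
noncomputable def p050_l151 : Lf2 := ⟨nat_lit 0, nat_lit 3, [nat_lit 45, nat_lit 5, nat_lit 5, nat_lit 20], false, nat_lit 320, nat_lit 352, nat_lit 0, nat_lit 160, ⟨nat_lit 1000, nat_lit 0, nat_lit 0, nat_lit 0, nat_lit 0, nat_lit 0, nat_lit 0, nat_lit 0, nat_lit 0, nat_lit 0, nat_lit 0, nat_lit 0, nat_lit 0, nat_lit 0, nat_lit 0, nat_lit 0, false, false⟩,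
 nat_lit 0, nat_lit 0, nat_lit 17521, nat_lit 21133, nat_lit 6689, nat_lit 9275, nat_lit 2814, nat_lit 0, nat_lit 0, nat_lit 3442, nat_lit 0, nat_lit 0, nat_lit 0, nat_lit 0, nat_lit 0, nat_lit 0, nat_lit 0, nat_lit 0, [],
 ⟨p050_k19, nat_lit 0, nat_lit 0, nat_lit 130, nat_lit 0, nat_lit 0, [nat_lit 4688000000, nat_lit 6250000000, nat_lit 7968000000], [], [nat_lit 23638799320, nat_lit 24621481410, nat_lit 22524676918, nat_lit 23493810028, nat_lit 26933924328, nat_lit 28217863472, nat_lit 25056167278, nat_lit 26307464988], nat_lit 0, nat_lit 0, nat_lit 0, nat_lit 0, nat_lit 0, nat_lit 0, [], [nat_lit 9, nat_lit 40, nat_lit 40, nat_lit 80, nat_lit 2, nat_lit 226, nat_lit 20, nat_lit 6]⟩, ⟨p050_k18, nat_lit 0, nat_lit 0, nat_lit 257, nat_lit 0, nat_lit 98107, [nat_lit 4688000000, nat_lit 6250000000, nat_lit 7968000000], [], [nat_lit 15875950450, nat_lit 17089969750, nat_lit 13608566650, nat_lit 14880161800,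 nat_lit 11783313400, nat_lit 11543847600, nat_lit 12952046400, nat_lit 10607493350], nat_lit 1271250, nat_lit 1271250, nat_lit 230001, nat_lit 490000, nat_lit 0, nat_lit 1100001, [nat_lit 1100000, nat_lit 1442500, nat_lit 1271250], [nat_lit 9, nat_lit 40, nat_lit 40, nat_lit 80, nat_lit 2, nat_lit 272, nat_lit 60, nat_lit 9]⟩,
 zbF0, [⟨nat_lit 0, nat_lit 100, nat_lit 95, nat_lit 64, nat_lit 838058044⟩, ⟨nat_lit 4, nat_lit 82, nat_lit 100, nat_lit 92, nat_lit 925146457⟩]⟩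
noncomputable def p050_l152 : Lf2 := ⟨nat_lit 0, nat_lit 3, [nat_lit 45, nat_lit 5, nat_lit 5, nat_lit 20], false, nat_lit 320, nat_lit 352, nat_lit 160, nat_lit 260, ⟨nat_lit 1000, nat_lit 0, nat_lit 0, nat_lit 0, nat_lit 0, nat_lit 0, nat_lit 0, nat_lit 0, nat_lit 0, nat_lit 0, nat_lit 0, nat_lit 0, nat_lit 0, nat_lit 0, nat_lit 0, nat_lit 0, false, false⟩,
 nat_lit 0, nat_lit 0, nat_lit 15893, nat_lit 2541, nat_lit 6689, nat_lit 8413, nat_lit 2814, nat_lit 0, nat_lit 0, nat_lit 0, nat_lit 0, nat_lit 0, nat_lit 0, nat_lit 0, nat_lit 0, nat_lit 0, nat_lit 0, nat_lit 0, [],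
 ⟨p050_k19, nat_lit 0, nat_lit 0, nat_lit 130, nat_lit 0, nat_lit 0, [nat_lit 4688000000, nat_lit 6250000000, nat_lit 7968000000], [], [nat_lit 23638799320, nat_lit 24621481410, nat_lit 22524676918, nat_lit 23493810028, nat_lit 26933924328, nat_lit 28217863472, nat_lit 25056167278, nat_lit 26307464988], nat_lit 0, nat_lit 0, nat_lit 0, nat_lit 0, nat_lit 0, nat_lit 0, [], [nat_lit 9, nat_lit 40, nat_lit 40, nat_lit 80, nat_lit 2, nat_lit 226, nat_lit 20, nat_lit 6]⟩, ⟨p050_k18, nat_lit 0, nat_lit 0, nat_lit 177, nat_lit 0, nat_lit 98107, [nat_lit 4688000000, nat_lit 6250000000, nat_lit 7968000000], [], [nat_lit 7288162996, nat_lit 8449481629, nat_lit 5998013900, nat_lit 7112316817, nat_lit 15800537940, nat_lit 16863377929, nat_lit 13732772149, nat_lit 14760475405], nat_lit 1271250, nat_lit 1271250, nat_lit 230001, nat_lit 490000, nat_lit 1100001, nat_lit 1956250, [nat_lit 1100000, nat_lit 1442500, nat_lit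 1271250], [nat_lit 9, nat_lit 40, nat_lit 40, nat_lit 80, nat_lit 2, nat_lit 317, nat_lit 100, nat_lit 10]⟩,
 zbF0, [⟨nat_lit 0, nat_lit 100, nat_lit 95, nat_lit 64, nat_lit 103320235⟩, ⟨nat_lit 4, nat_lit 82, nat_lit 100, nat_lit 92, nat_lit 332505661⟩, ⟨nat_lit 23, nat_lit 73, nat_lit 100, nat_lit 71, nat_lit 1216739754⟩]⟩
noncomputable def p050_l153 : Lf2 := ⟨nat_lit 0, nat_lit 3, [nat_lit 45, nat_lit 5, nat_lit 5, nat_lit 20], false, nat_lit 320, nat_lit 360, nat_lit 0, nat_lit 160, ⟨nat_lit 1000, nat_lit 0, nat_lit 0, nat_lit 0, nat_lit 0, nat_lit 0, nat_lit 0, nat_lit 0, nat_lit 0, nat_lit 0, nat_lit 0, nat_lit 0, nat_lit 0, nat_lit 0, nat_lit 0, nat_lit 0, false, false⟩,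
 nat_lit 0, nat_lit 0, nat_lit 13187, nat_lit 66068, nat_lit 6653, nat_lit 7326, nat_lit 5790, nat_lit 0, nat_lit 0, nat_lit 7739, nat_lit 0, nat_lit 0, nat_lit 0, nat_lit 0, nat_lit 0, nat_lit 0, nat_lit 0, nat_lit 0, [],
 ⟨p050_k23, nat_lit 0, nat_lit 0, nat_lit 148, nat_lit 0, nat_lit 0, [nat_lit 4688000000, nat_lit 6250000000, nat_lit 7968000000], [], [nat_lit 24112993924, nat_lit 24606417705, nat_lit 22052252474, nat_lit 22523395636, nat_lit 28744497654, nat_lit 29359637149, nat_lit 25331958551, nat_lit 25932761352], nat_lit 0, nat_lit 0, nat_lit 0, nat_lit 0, nat_lit 0, nat_lit 0, [], [nat_lit 9, nat_lit 40, nat_lit 40, nat_lit 80, nat_lit 2, nat_lit 226, nat_lit 20, nat_lit 7]⟩, ⟨p050_k23, nat_lit 0, nat_lit 0, nat_lit 254, nat_lit 0, nat_lit 23726, [nat_lit 4688000000, nat_lit 6250000000, nat_lit 7968000000], [], [nat_lit 17270932185, nat_lit 18715514948, nat_lit 13842330010, nat_lit 14774456144,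 nat_lit 13218592494, nat_lit 14027746782, nat_lit 11623214464, nat_lit 12069309532], nat_lit 1271250, nat_lit 1271250, nat_lit 134400, nat_lit 490000, nat_lit 0, nat_lit 1100001, [nat_lit 1100000, nat_lit 1442500, nat_lit 1271250], [nat_lit 9, nat_lit 40, nat_lit 40, nat_lit 80, nat_lit 2, nat_lit 272, nat_lit 60, nat_lit 9]⟩,
 zbF0, [⟨nat_lit 0, nat_lit 100, nat_lit 100, nat_lit 60, nat_lit 1060720920⟩, ⟨nat_lit 4, nat_lit 75, nat_lit 100, nat_lit 90, nat_lit 1959930341⟩]⟩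
noncomputable def p050_l154 : Lf2 := ⟨nat_lit 0, nat_lit 3, [nat_lit 45, nat_lit 5, nat_lit 5, nat_lit 20], false, nat_lit 320, nat_lit 352, nat_lit 0, nat_lit 160, ⟨nat_lit 1000, nat_lit 0, nat_lit 0, nat_lit 0, nat_lit 0, nat_lit 0, nat_lit 0, nat_lit 0, nat_lit 0, nat_lit 0, nat_lit 0, nat_lit 0, nat_lit 0, nat_lit 0, nat_lit 0, nat_lit 0, false, false⟩,
 nat_lit 0, nat_lit 0, nat_lit 20379, nat_lit 45725, nat_lit 6534, nat_lit 11321, nat_lit 2789, nat_lit 0, nat_lit 0, nat_lit 8139, nat_lit 0, nat_lit 0, nat_lit 0, nat_lit 0, nat_lit 0, nat_lit 0, nat_lit 0, nat_lit 0, [],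
 ⟨p050_k19, nat_lit 0, nat_lit 0, nat_lit 143, nat_lit 0, nat_lit 0, [nat_lit 4688000000, nat_lit 6250000000, nat_lit 7968000000], [], [nat_lit 24579991348, nat_lit 25557458093, nat_lit 22789720183, nat_lit 23724782255, nat_lit 27845634492, nat_lit 29114102162, nat_lit 25250774289, nat_lit 26149879935], nat_lit 0, nat_lit 0, nat_lit 0, nat_lit 0, nat_lit 0, nat_lit 0, [], [nat_lit 9, nat_lit 40, nat_lit 40, nat_lit 80, nat_lit 2, nat_lit 226, nat_lit 20, nat_lit 6]⟩, ⟨p050_k23, nat_lit 0, nat_lit 0, nat_lit 262, nat_lit 0, nat_lit 143829, [nat_lit 4688000000, nat_lit 6250000000, nat_lit 7968000000], [], [nat_lit 26377087984, nat_lit 24018666719, nat_lit 14889384137, nat_lit 16835233886, nat_lit 9716450233, nat_lit 11443927347, nat_lit 4831243041, nat_lit 6494343490], nat_lit 1271250, nat_lit 1271250, nat_lit 157850, nat_lit 490000, nat_lit 0, nat_lit 1100001, [nat_lit 1100000, nat_lit 1442500, nat_lit 1271250],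 [nat_lit 9, nat_lit 40, nat_lit 40, nat_lit 80, nat_lit 2, nat_lit 272, nat_lit 60, nat_lit 9]⟩,
 zbF0, [⟨nat_lit 0, nat_lit 100, nat_lit 96, nat_lit 69, nat_lit 1605047958⟩, ⟨nat_lit 4, nat_lit 82, nat_lit 100, nat_lit 92, nat_lit 1729487402⟩]⟩
noncomputable def p050_l155 : Lf2 := ⟨nat_lit 0, nat_lit 3, [nat_lit 45, nat_lit 5, nat_lit 5, nat_lit 20], false, nat_lit 320, nat_lit 352, nat_lit 160, nat_lit 200, ⟨nat_lit 1000, nat_lit 0, nat_lit 0, nat_lit 0, nat_lit 0, nat_lit 0, nat_lit 0, nat_lit 0, nat_lit 0, nat_lit 0, nat_lit 0, nat_lit 0, nat_lit 0, nat_lit 0, nat_lit 0, nat_lit 0, false, false⟩,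
 nat_lit 0, nat_lit 0, nat_lit 18206, nat_lit 14426, nat_lit 7384, nat_lit 10114, nat_lit 2465, nat_lit 0, nat_lit 0, nat_lit 2921, nat_lit 0, nat_lit 0, nat_lit 0, nat_lit 0, nat_lit 0, nat_lit 0, nat_lit 0, nat_lit 0, [],
 ⟨p050_k23, nat_lit 0, nat_lit 0, nat_lit 147, nat_lit 0, nat_lit 0, [nat_lit 4688000000, nat_lit 6250000000, nat_lit 7968000000], [], [nat_lit 24857361269, nat_lit 27057870682, nat_lit 23530540900, nat_lit 25370996460, nat_lit 28901408272, nat_lit 30925226727, nat_lit 27190007485, nat_lit 29215800628], nat_lit 0, nat_lit 0, nat_lit 0, nat_lit 0, nat_lit 0, nat_lit 0, [], [nat_lit 9, nat_lit 40, nat_lit 40, nat_lit 80, nat_lit 2, nat_lit 215, nat_lit 10, nat_lit 6]⟩, ⟨p050_k23, nat_lit 0, nat_lit 0, nat_lit 184, nat_lit 0, nat_lit 143829, [nat_lit 4688000000, nat_lit 6250000000, nat_lit 7968000000], [], [nat_lit 11431734164, nat_lit 12515154245, nat_lit 9582109880, nat_lit 10658477768,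 nat_lit 13730269282, nat_lit 15171402111, nat_lit 11831354578, nat_lit 12807690848], nat_lit 1271250, nat_lit 1271250, nat_lit 134400, nat_lit 230001, nat_lit 1100001, nat_lit 1442500, [nat_lit 1100000, nat_lit 1442500, nat_lit 1271250], [nat_lit 9, nat_lit 40, nat_lit 40, nat_lit 80, nat_lit 2, nat_lit 272, nat_lit 60, nat_lit 9]⟩,
 zbF0, [⟨nat_lit 0, nat_lit 100, nat_lit 98, nat_lit 60, nat_lit 1711614338⟩, ⟨nat_lit 16, nat_lit 100, nat_lit 80, nat_lit 92, nat_lit 528997918⟩, ⟨nat_lit 23, nat_lit 80, nat_lit 100, nat_lit 60, nat_lit 642462159⟩]⟩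
noncomputable def p050_l156 : Lf2 := ⟨nat_lit 0, nat_lit 3, [nat_lit 45, nat_lit 5, nat_lit 5, nat_lit 20], false, nat_lit 320, nat_lit 360, nat_lit 160, nat_lit 260, ⟨nat_lit 1000, nat_lit 0, nat_lit 0, nat_lit 0, nat_lit 0, nat_lit 0, nat_lit 0, nat_lit 0, nat_lit 0, nat_lit 0, nat_lit 0, nat_lit 0, nat_lit 0, nat_lit 0, nat_lit 0, nat_lit 0, false, false⟩,
 nat_lit 0, nat_lit 0, nat_lit 22698, nat_lit 6151, nat_lit 7534, nat_lit 12609, nat_lit 2009, nat_lit 0, nat_lit 0, nat_lit 2576, nat_lit 0, nat_lit 0, nat_lit 0, nat_lit 0, nat_lit 0, nat_lit 0, nat_lit 0, nat_lit 0, [],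
 ⟨p050_k23, nat_lit 0, nat_lit 0, nat_lit 135, nat_lit 0, nat_lit 0, [nat_lit 4688000000, nat_lit 6250000000, nat_lit 7968000000], [], [nat_lit 23859672770, nat_lit 25533623096, nat_lit 22229302370, nat_lit 23887952436, nat_lit 28439702247, nat_lit 30405836616, nat_lit 26214867678, nat_lit 28132027212], nat_lit 0, nat_lit 0, nat_lit 0, nat_lit 0, nat_lit 0, nat_lit 0, [], [nat_lit 9, nat_lit 40, nat_lit 40, nat_lit 80, nat_lit 2, nat_lit 226, nat_lit 20, nat_lit 6]⟩, ⟨p050_k23, nat_lit 0, nat_lit 0, nat_lit 176, nat_lit 0, nat_lit 143829, [nat_lit 4688000000, nat_lit 6250000000, nat_lit 7968000000], [], [nat_lit 7979005280, nat_lit 9236739708, nat_lit 5322419336, nat_lit 6527061364, nat_lit 18236027997, nat_lit 19646099574, nat_lit 17603388195, nat_lit 16052868634], nat_lit 1271250, nat_lit 1271250, nat_lit 230001, nat_lit 490000, nat_lit 1100001, nat_lit 1956250, [nat_lit 1100000, nat_lit 1442500, nat_lit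 1271250], [nat_lit 9, nat_lit 40, nat_lit 40, nat_lit 80, nat_lit 2, nat_lit 317, nat_lit 100, nat_lit 10]⟩,
 zbF0, [⟨nat_lit 0, nat_lit 100, nat_lit 96, nat_lit 69, nat_lit 205051068⟩, ⟨nat_lit 16, nat_lit 100, nat_lit 80, nat_lit 92, nat_lit 877783296⟩, ⟨nat_lit 11, nat_lit 100, nat_lit 74, nat_lit 72, nat_lit 1370855163⟩]⟩
noncomputable def b_V_600_600_20_2 : St := ⟨true, nat_lit 0, nat_lit 1, nat_lit 1, nat_lit 120, nat_lit 240, nat_lit 280, nat_lit 240, nat_lit 260, nat_lit 16, nat_lit 80, nat_lit 80, nat_lit 120, nat_lit 240, nat_lit 364, nat_lit 0, nat_lit 364, nat_lit 0, nat_lit 12, nat_lit 0, nat_lit 0, nat_lit 0, nat_lit 0⟩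
theorem d_V_600_600_20_2 (h : EB TB.env) : Dead b_V_600_600_20_2 := chkB_sound0 h (T :=
(.trX (nat_lit 23) (nat_lit 100) (nat_lit 76) (nat_lit 82) (nat_lit 336) (.spl (nat_lit 4) (nat_lit 320)
(.spl (nat_lit 2) (nat_lit 40)
(.trX (nat_lit 23) (nat_lit 100) (nat_lit 92) (nat_lit 61) (nat_lit 288) (.spl (nat_lit 2) (nat_lit 32)
(.trX (nat_lit 23) (nat_lit 100) (nat_lit 95) (nat_lit 55) (nat_lit 276) (.spl (nat_lit 0) (nat_lit 260)
(.spl (nat_lit 6) (nat_lit 4)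
(.spl (nat_lit 1) (nat_lit 250)
(.leaf p050_l135)
(.ord (.trZ (nat_lit 0) (nat_lit 100) (nat_lit 100) (nat_lit 50) (nat_lit 24) (.leaf p050_l136))))
(.leaf p050_l137))
(.trZ (nat_lit 0) (nat_lit 100) (nat_lit 97) (nat_lit 49) (nat_lit 24) (.spl (nat_lit 0) (nat_lit 270)
(.leaf p050_l138)
(.trZ (nat_lit 0) (nat_lit 100) (nat_lit 96) (nat_lit 54) (nat_lit 28) (.leaf p050_l139))))))
(.spl (nat_lit 4) (nat_lit 280)
(.leaf p050_l140)
(.trX (nat_lit 23) (nat_lit 94) (nat_lit 100) (nat_lit 62) (nat_lit 248) (.spl (nat_lit 5) (nat_lit 160)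
(.spl (nat_lit 1) (nat_lit 250)
(.leaf p050_l141)
(.ord (.leaf p050_l142)))
(.spl (nat_lit 5) (nat_lit 200)
(.leaf p050_l143)
(.leaf p050_l144)))))))
(.spl (nat_lit 4) (nat_lit 280)
(.leaf p050_l145)
(.trX (nat_lit 23) (nat_lit 100) (nat_lit 95) (nat_lit 87) (nat_lit 300) (.spl (nat_lit 5) (nat_lit 160)
(.leaf p050_l146)
(.spl (nat_lit 5) (nat_lit 240)
(.leaf p050_l147)
(.leaf p050_l148))))))
(.trX (nat_lit 23) (nat_lit 83) (nat_lit 100) (nat_lit 83) (nat_lit 260) (.spl (nat_lit 1) (nat_lit 250)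
(.spl (nat_lit 0) (nat_lit 260)
(.leaf p050_l149)
(.trZ (nat_lit 0) (nat_lit 100) (nat_lit 97) (nat_lit 49) (nat_lit 24) (.trX (nat_lit 16) (nat_lit 100) (nat_lit 69) (nat_lit 96) (nat_lit 352) (.spl (nat_lit 2) (nat_lit 40)
(.trX (nat_lit 23) (nat_lit 80) (nat_lit 100) (nat_lit 60) (nat_lit 200) (.leaf p050_l150))
(.spl (nat_lit 5) (nat_lit 160)
(.leaf p050_l151)
(.leaf p050_l152))))))
(.ord (.trZ (nat_lit 0) (nat_lit 100) (nat_lit 100) (nat_lit 50) (nat_lit 24) (.trX (nat_lit 16) (nat_lit 100) (nat_lit 64) (nat_lit 95) (nat_lit 360) (.spl (nat_lit 5) (nat_lit 160)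
(.spl (nat_lit 0) (nat_lit 260)
(.leaf p050_l153)
(.trZ (nat_lit 0) (nat_lit 100) (nat_lit 99) (nat_lit 55) (nat_lit 28) (.trX (nat_lit 16) (nat_lit 100) (nat_lit 69) (nat_lit 96) (nat_lit 352) (.leaf p050_l154))))
(.spl (nat_lit 2) (nat_lit 40)
(.trX (nat_lit 11) (nat_lit 100) (nat_lit 68) (nat_lit 61) (nat_lit 352) (.trX (nat_lit 23) (nat_lit 80) (nat_lit 100) (nat_lit 60) (nat_lit 200) (.leaf p050_l155)))
(.leaf p050_l156))))))))))) (by decide +kernel)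
noncomputable def p050_l157 : Lf2 := ⟨nat_lit 0, nat_lit 3, [nat_lit 45, nat_lit 5, nat_lit 5, nat_lit 20], true, nat_lit 240, nat_lit 280, nat_lit 0, nat_lit 364, ⟨nat_lit 0, nat_lit 1000, nat_lit 0, nat_lit 6, nat_lit 143, nat_lit 1000, nat_lit 204, nat_lit 0, nat_lit 0, nat_lit 0, nat_lit 0, nat_lit 0, nat_lit 46122066, nat_lit 7571228, nat_lit 13306706, nat_lit 4417874, false, false⟩,
 nat_lit 0, nat_lit 0, nat_lit 0, nat_lit 3796, nat_lit 5272, nat_lit 0, nat_lit 0, nat_lit 0, nat_lit 0, nat_lit 0, nat_lit 0, nat_lit 0, nat_lit 0, nat_lit 0, nat_lit 0, nat_lit 400000, nat_lit 0, nat_lit 0, [(nat_lit 6, [(nat_lit 1, nat_lit 1000)]), (nat_lit 9, [(nat_lit 1, nat_lit 1000)])],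
 ⟨p050_k18, nat_lit 0, nat_lit 0, nat_lit 35, nat_lit 0, nat_lit 0, [nat_lit 2702720000, nat_lit 3030400001, nat_lit 3280799999], [], [nat_lit 13263703264, nat_lit 16054559360, nat_lit 13470395008, nat_lit 16119715488, nat_lit 16219907264, nat_lit 18709167968, nat_lit 16277312864, nat_lit 18643604944], nat_lit 0, nat_lit 0, nat_lit 0, nat_lit 0, nat_lit 0, nat_lit 0, [], [nat_lit 9, nat_lit 40, nat_lit 40, nat_lit 80, nat_lit 2, nat_lit 238, nat_lit 30, nat_lit 7]⟩, C1.Rw.none,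
 ⟨nat_lit 5477, nat_lit 6325, ⟨.ofNat (nat_lit 295942), .ofNat (nat_lit 378206), .ofNat (nat_lit 317309), .ofNat (nat_lit 399574), .ofNat (nat_lit 317913), .ofNat (nat_lit 392847), .ofNat (nat_lit 339271), .ofNat (nat_lit 414204)⟩, ⟨.ofNat (nat_lit 454055), .ofNat (nat_lit 536314), .ofNat (nat_lit 496791), .ofNat (nat_lit 579003), .ofNat (nat_lit 446789), .ofNat (nat_lit 521717), .ofNat (nat_lit 489503), .ofNat (nat_lit 564384)⟩⟩, []⟩
noncomputable def p050_l158 : Lf2 := ⟨nat_lit 0, nat_lit 3, [nat_lit 45, nat_lit 5, nat_lit 5, nat_lit 20], true, nat_lit 280, nat_lit 320, nat_lit 0, nat_lit 336, ⟨nat_lit 0, nat_lit 1000, nat_lit 0, nat_lit 6, nat_lit 141, nat_lit 1000, nat_lit 238, nat_lit 0, nat_lit 0, nat_lit 0, nat_lit 0, nat_lit 0, nat_lit 43380278, nat_lit 7193675, nat_lit 16426047, nat_lit 4635898, false, false⟩,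
 nat_lit 0, nat_lit 0, nat_lit 0, nat_lit 4123, nat_lit 5009, nat_lit 0, nat_lit 0, nat_lit 0, nat_lit 0, nat_lit 0, nat_lit 0, nat_lit 0, nat_lit 0, nat_lit 15982485246287, nat_lit 0, nat_lit 400000, nat_lit 0, nat_lit 0, [(nat_lit 6, [(nat_lit 1, nat_lit 1000)])],
 ⟨p050_k18, nat_lit 0, nat_lit 0, nat_lit 52, nat_lit 0, nat_lit 0, [nat_lit 2692266667, nat_lit 3030400001, nat_lit 3280799999], [], [nat_lit 16461404775, nat_lit 17675687294, nat_lit 16560088225, nat_lit 17715140605, nat_lit 19337656775, nat_lit 20407136157, nat_lit 19292656507, nat_lit 20311809737], nat_lit 0, nat_lit 0, nat_lit 0, nat_lit 0, nat_lit 0, nat_lit 0, [], [nat_lit 9, nat_lit 40, nat_lit 40, nat_lit 80, nat_lit 2, nat_lit 238, nat_lit 30, nat_lit 7]⟩, C1.Rw.none,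
 ⟨nat_lit 5916, nat_lit 6325, ⟨.ofNat (nat_lit 295942), .ofNat (nat_lit 378206), .ofNat (nat_lit 317309), .ofNat (nat_lit 399574), .ofNat (nat_lit 307076), .ofNat (nat_lit 385610), .ofNat (nat_lit 328416), .ofNat (nat_lit 406949)⟩, ⟨.ofNat (nat_lit 536315), .ofNat (nat_lit 618556), .ofNat (nat_lit 579037), .ofNat (nat_lit 661277), .ofNat (nat_lit 529025), .ofNat (nat_lit 607536), .ofNat (nat_lit 571690), .ofNat (nat_lit 650199)⟩⟩, []⟩
noncomputable def p050_l159 : Lf2 := ⟨nat_lit 0, nat_lit 3, [nat_lit 45, nat_lit 5, nat_lit 5, nat_lit 20], true, nat_lit 280, nat_lit 300, nat_lit 0, nat_lit 336, ⟨nat_lit 0, nat_lit 1000, nat_lit 0, nat_lit 6, nat_lit 145, nat_lit 1000, nat_lit 226, nat_lit 0, nat_lit 0, nat_lit 0, nat_lit 0, nat_lit 0, nat_lit 44123711, nat_lit 7554677, nat_lit 15321612, nat_lit 4601615, false, false⟩,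
 nat_lit 0, nat_lit 0, nat_lit 0, nat_lit 3848, nat_lit 5057, nat_lit 0, nat_lit 0, nat_lit 0, nat_lit 0, nat_lit 0, nat_lit 0, nat_lit 0, nat_lit 0, nat_lit 0, nat_lit 0, nat_lit 552400, nat_lit 0, nat_lit 0, [(nat_lit 9, [(nat_lit 1, nat_lit 746), (nat_lit 2, nat_lit 254)])],
 ⟨p050_k19, nat_lit 0, nat_lit 0, nat_lit 48, nat_lit 0, nat_lit 0, [nat_lit 2692749654, nat_lit 2727265600, nat_lit 2679264000], [], [nat_lit 17635725625, nat_lit 18855546912, nat_lit 17667233928, nat_lit 18827413668, nat_lit 19008199025, nat_lit 20155071711, nat_lit 18971840846, nat_lit 20063558611], nat_lit 0, nat_lit 0, nat_lit 0, nat_lit 0, nat_lit 0, nat_lit 0, [], [nat_lit 9, nat_lit 40, nat_lit 40, nat_lit 80, nat_lit 2, nat_lit 238, nat_lit 30, nat_lit 7]⟩, C1.Rw.none,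
 ⟨nat_lit 5477, nat_lit 5917, ⟨.ofNat (nat_lit 307076), .ofNat (nat_lit 385610), .ofNat (nat_lit 328416), .ofNat (nat_lit 406949), .ofNat (nat_lit 317913), .ofNat (nat_lit 392847), .ofNat (nat_lit 339271), .ofNat (nat_lit 414204)⟩, ⟨.ofNat (nat_lit 529030), .ofNat (nat_lit 568297), .ofNat (nat_lit 571704), .ofNat (nat_lit 610962), .ofNat (nat_lit 521722), .ofNat (nat_lit 559189), .ofNat (nat_lit 564432), .ofNat (nat_lit 601890)⟩⟩, []⟩
noncomputable def p050_l160 : Lf2 := ⟨nat_lit 0, nat_lit 3, [nat_lit 45, nat_lit 5, nat_lit 5, nat_lit 20], true, nat_lit 300, nat_lit 320, nat_lit 0, nat_lit 320, ⟨nat_lit 0, nat_lit 1000, nat_lit 0, nat_lit 6, nat_lit 145, nat_lit 1000, nat_lit 237, nat_lit 0, nat_lit 0, nat_lit 0, nat_lit 0, nat_lit 0, nat_lit 43180736, nat_lit 7465463, nat_lit 16353801, nat_lit 4672068, false, false⟩,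
 nat_lit 0, nat_lit 0, nat_lit 0, nat_lit 2925, nat_lit 4919, nat_lit 0, nat_lit 0, nat_lit 0, nat_lit 0, nat_lit 0, nat_lit 0, nat_lit 0, nat_lit 0, nat_lit 0, nat_lit 0, nat_lit 400000, nat_lit 0, nat_lit 0, [(nat_lit 9, [(nat_lit 1, nat_lit 1000)])],
 ⟨p050_k19, nat_lit 0, nat_lit 0, nat_lit 60, nat_lit 0, nat_lit 0, [nat_lit 2702720000, nat_lit 2862800001, nat_lit 3030799999], [], [nat_lit 19115044474, nat_lit 20247565919, nat_lit 19102898464, nat_lit 20181348219, nat_lit 20468114590, nat_lit 21585774172, nat_lit 20389472370, nat_lit 21400933300], nat_lit 0, nat_lit 0, nat_lit 0, nat_lit 0, nat_lit 0, nat_lit 0, [], [nat_lit 9, nat_lit 40, nat_lit 40, nat_lit 80, nat_lit 2, nat_lit 238, nat_lit 30, nat_lit 7]⟩, C1.Rw.none,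
 ⟨nat_lit 5477, nat_lit 5917, ⟨.ofNat (nat_lit 307076), .ofNat (nat_lit 385610), .ofNat (nat_lit 328416), .ofNat (nat_lit 406949), .ofNat (nat_lit 317913), .ofNat (nat_lit 392847), .ofNat (nat_lit 339271), .ofNat (nat_lit 414204)⟩, ⟨.ofNat (nat_lit 568297), .ofNat (nat_lit 607556), .ofNat (nat_lit 589630), .ofNat (nat_lit 628888), .ofNat (nat_lit 559189), .ofNat (nat_lit 596648), .ofNat (nat_lit 580540), .ofNat (nat_lit 617997)⟩⟩, []⟩
noncomputable def p050_l161 : Lf2 := ⟨nat_lit 0, nat_lit 3, [nat_lit 45, nat_lit 5, nat_lit 5, nat_lit 20], false, nat_lit 300, nat_lit 320, nat_lit 0, nat_lit 160, ⟨nat_lit 1000, nat_lit 0, nat_lit 0, nat_lit 0, nat_lit 0, nat_lit 0, nat_lit 0, nat_lit 0, nat_lit 0, nat_lit 0, nat_lit 0, nat_lit 0, nat_lit 0, nat_lit 0, nat_lit 0, nat_lit 0, false, false⟩,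
 nat_lit 0, nat_lit 0, nat_lit 17738, nat_lit 0, nat_lit 6559, nat_lit 9390, nat_lit 0, nat_lit 0, nat_lit 0, nat_lit 3310, nat_lit 0, nat_lit 0, nat_lit 0, nat_lit 0, nat_lit 0, nat_lit 0, nat_lit 0, nat_lit 0, [],
 ⟨p050_k19, nat_lit 0, nat_lit 0, nat_lit 60, nat_lit 0, nat_lit 0, [nat_lit 4688000000, nat_lit 6250000000, nat_lit 7968000000], [], [nat_lit 19949055134, nat_lit 21252127559, nat_lit 19649170304, nat_lit 20885297859, nat_lit 21532714990, nat_lit 22745721272, nat_lit 21150049570, nat_lit 22301681300], nat_lit 0, nat_lit 0, nat_lit 0, nat_lit 0, nat_lit 0, nat_lit 0, [], [nat_lit 9, nat_lit 40, nat_lit 40, nat_lit 80, nat_lit 2, nat_lit 238, nat_lit 30, nat_lit 7]⟩, ⟨p050_k18, nat_lit 0, nat_lit 0, nat_lit 239, nat_lit 0, nat_lit 118951, [nat_lit 4688000000, nat_lit 6250000000, nat_lit 7968000000], [], [nat_lit 13786447590, nat_lit 16151476880, nat_lit 13239364430, nat_lit 15656529640, nat_lit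 12732821440, nat_lit 10853215480, nat_lit 15290729520, nat_lit 10611823980], nat_lit 1271250, nat_lit 1271250, nat_lit 490000, nat_lit 780000, nat_lit 0, nat_lit 1100001, [nat_lit 1100000, nat_lit 1442500, nat_lit 1271250], [nat_lit 9, nat_lit 40, nat_lit 40, nat_lit 80, nat_lit 2, nat_lit 289, nat_lit 75, nat_lit 10]⟩,
 zbF0, [⟨nat_lit 4, nat_lit 78, nat_lit 100, nat_lit 95, nat_lit 48705857⟩]⟩
noncomputable def p050_l162 : Lf2 := ⟨nat_lit 0, nat_lit 3, [nat_lit 45, nat_lit 5, nat_lit 5, nat_lit 20], false, nat_lit 300, nat_lit 320, nat_lit 160, nat_lit 320, ⟨nat_lit 219, nat_lit 781, nat_lit 0, nat_lit 6, nat_lit 145, nat_lit 781, nat_lit 246, nat_lit 0, nat_lit 0, nat_lit 0, nat_lit 0, nat_lit 0, nat_lit 42457036, nat_lit 7393233, nat_lit 17149731, nat_lit 4720949, false, false⟩,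
 nat_lit 0, nat_lit 0, nat_lit 5853, nat_lit 0, nat_lit 5363, nat_lit 3098, nat_lit 0, nat_lit 0, nat_lit 0, nat_lit 661, nat_lit 0, nat_lit 0, nat_lit 0, nat_lit 0, nat_lit 0, nat_lit 312400, nat_lit 0, nat_lit 0, [(nat_lit 9, [(nat_lit 1, nat_lit 781)])],
 ⟨p050_k19, nat_lit 0, nat_lit 0, nat_lit 60, nat_lit 0, nat_lit 0, [nat_lit 3137496320, nat_lit 3604596801, nat_lit 4103505799], [], [nat_lit 19238135680, nat_lit 20416830683, nat_lit 19148089648, nat_lit 20269227783, nat_lit 20653633750, nat_lit 21899588044, nat_lit 20492682810, nat_lit 21542323536], nat_lit 0, nat_lit 0, nat_lit 0, nat_lit 0, nat_lit 0, nat_lit 0, [], [nat_lit 9, nat_lit 40, nat_lit 40, nat_lit 80, nat_lit 2, nat_lit 238, nat_lit 30, nat_lit 7]⟩, ⟨p050_k18, nat_lit 0, nat_lit 0, nat_lit 159, nat_lit 0, nat_lit 118951, [nat_lit 1026672000, nat_lit 1368750000, nat_lit 1744992000], [], [nat_lit 802900712, nat_lit 1128186452, nat_lit 1518146168,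 nat_lit 887089062, nat_lit 6715499164, nat_lit 5651199628, nat_lit 7603464316, nat_lit 6143668128], nat_lit 1271250, nat_lit 1271250, nat_lit 490000, nat_lit 780000, nat_lit 1100001, nat_lit 2470000, [nat_lit 1100000, nat_lit 1442500, nat_lit 1271250], [nat_lit 9, nat_lit 40, nat_lit 40, nat_lit 80, nat_lit 2, nat_lit 345, nat_lit 125, nat_lit 11]⟩,
 ⟨nat_lit 5477, nat_lit 5917, ⟨.ofNat (nat_lit 307076), .ofNat (nat_lit 385610), .ofNat (nat_lit 328416), .ofNat (nat_lit 406949), .ofNat (nat_lit 317913), .ofNat (nat_lit 392847), .ofNat (nat_lit 339271), .ofNat (nat_lit 414204)⟩, ⟨.ofNat (nat_lit 589630), .ofNat (nat_lit 628888), .ofNat (nat_lit 610962), .ofNat (nat_lit 650219), .ofNat (nat_lit 580540), .ofNat (nat_lit 617997), .ofNat (nat_lit 601890), .ofNat (nat_lit 639346)⟩⟩, [⟨nat_lit 23, nat_lit 93, nat_lit 100, nat_lit 97, nat_lit 211333612⟩]⟩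
noncomputable def p050_l163 : Lf2 := ⟨nat_lit 0, nat_lit 3, [nat_lit 45, nat_lit 5, nat_lit 5, nat_lit 20], true, nat_lit 320, nat_lit 340, nat_lit 0, nat_lit 300, ⟨nat_lit 0, nat_lit 1000, nat_lit 0, nat_lit 6, nat_lit 141, nat_lit 1000, nat_lit 259, nat_lit 0, nat_lit 0, nat_lit 0, nat_lit 0, nat_lit 0, nat_lit 41546740, nat_lit 6989218, nat_lit 18464042, nat_lit 4748882, false, false⟩,
 nat_lit 0, nat_lit 0, nat_lit 0, nat_lit 17009, nat_lit 4870, nat_lit 0, nat_lit 0, nat_lit 0, nat_lit 0, nat_lit 0, nat_lit 0, nat_lit 0, nat_lit 0, nat_lit 0, nat_lit 0, nat_lit 400000, nat_lit 0, nat_lit 0, [(nat_lit 6, [(nat_lit 1, nat_lit 1000)]), (nat_lit 9, [(nat_lit 1, nat_lit 1000)])],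
 ⟨p050_k18, nat_lit 0, nat_lit 0, nat_lit 74, nat_lit 0, nat_lit 0, [nat_lit 2702720000, nat_lit 3030400001, nat_lit 3280799999], [], [nat_lit 19439014440, nat_lit 21552230960, nat_lit 19418791200, nat_lit 21433337000, nat_lit 21099256340, nat_lit 23333203610, nat_lit 20999569370, nat_lit 23004581110], nat_lit 0, nat_lit 0, nat_lit 0, nat_lit 0, nat_lit 0, nat_lit 0, [], [nat_lit 9, nat_lit 40, nat_lit 40, nat_lit 80, nat_lit 2, nat_lit 238, nat_lit 30, nat_lit 7]⟩, C1.Rw.none,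
 ⟨nat_lit 5477, nat_lit 6325, ⟨.ofNat (nat_lit 295942), .ofNat (nat_lit 378206), .ofNat (nat_lit 306625), .ofNat (nat_lit 388890), .ofNat (nat_lit 317913), .ofNat (nat_lit 392847), .ofNat (nat_lit 328592), .ofNat (nat_lit 403525)⟩, ⟨.ofNat (nat_lit 618504), .ofNat (nat_lit 659599), .ofNat (nat_lit 661186), .ofNat (nat_lit 702275), .ofNat (nat_lit 596575), .ofNat (nat_lit 634005), .ofNat (nat_lit 639236), .ofNat (nat_lit 676659)⟩⟩, [⟨nat_lit 4, nat_lit 77, nat_lit 100, nat_lit 91, nat_lit 419987562⟩]⟩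
noncomputable def p050_l164 : Lf2 := ⟨nat_lit 0, nat_lit 3, [nat_lit 45, nat_lit 5, nat_lit 5, nat_lit 20], false, nat_lit 320, nat_lit 340, nat_lit 0, nat_lit 160, ⟨nat_lit 1000, nat_lit 0, nat_lit 0, nat_lit 0, nat_lit 0, nat_lit 0, nat_lit 0, nat_lit 0, nat_lit 0, nat_lit 0, nat_lit 0, nat_lit 0, nat_lit 0, nat_lit 0, nat_lit 0, nat_lit 0, false, false⟩,
 nat_lit 0, nat_lit 0, nat_lit 25172, nat_lit 0, nat_lit 6559, nat_lit 13984, nat_lit 0, nat_lit 0, nat_lit 0, nat_lit 1036, nat_lit 0, nat_lit 0, nat_lit 0, nat_lit 0, nat_lit 0, nat_lit 0, nat_lit 0, nat_lit 0, [],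
 ⟨p050_k23, nat_lit 0, nat_lit 0, nat_lit 74, nat_lit 0, nat_lit 0, [nat_lit 4688000000, nat_lit 6250000000, nat_lit 7968000000], [], [nat_lit 20926211849, nat_lit 22745721272, nat_lit 20574233705, nat_lit 22301681300, nat_lit 22924472257, nat_lit 24886413077, nat_lit 22422485259, nat_lit 24156568627], nat_lit 0, nat_lit 0, nat_lit 0, nat_lit 0, nat_lit 0, nat_lit 0, [], [nat_lit 9, nat_lit 40, nat_lit 40, nat_lit 80, nat_lit 2, nat_lit 238, nat_lit 30, nat_lit 7]⟩, ⟨p050_k23, nat_lit 0, nat_lit 0, nat_lit 252, nat_lit 0, nat_lit 261261, [nat_lit 4688000000, nat_lit 6250000000, nat_lit 7968000000], [], [nat_lit 22433225536, nat_lit 18845924000, nat_lit 15890368968, nat_lit 17382098928, nat_lit 6762187336, nat_lit 8061830864, nat_lit 5708108816, nat_lit 6928747456], nat_lit 1271250, nat_lit 1271250, nat_lit 490000, nat_lit 780000, nat_lit 0, nat_lit 1100001, [nat_lit 1100000, nat_lit 1442500, nat_lit 1271250],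 [nat_lit 9, nat_lit 40, nat_lit 40, nat_lit 80, nat_lit 2, nat_lit 289, nat_lit 75, nat_lit 10]⟩,
 zbF0, [⟨nat_lit 16, nat_lit 100, nat_lit 80, nat_lit 92, nat_lit 1145747172⟩]⟩
noncomputable def p050_l165 : Lf2 := ⟨nat_lit 0, nat_lit 3, [nat_lit 45, nat_lit 5, nat_lit 5, nat_lit 20], false, nat_lit 320, nat_lit 340, nat_lit 160, nat_lit 300, ⟨nat_lit 1000, nat_lit 0, nat_lit 0, nat_lit 0, nat_lit 0, nat_lit 0, nat_lit 0, nat_lit 0, nat_lit 0, nat_lit 0, nat_lit 0, nat_lit 0, nat_lit 0, nat_lit 0, nat_lit 0, nat_lit 0, false, false⟩,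
 nat_lit 0, nat_lit 0, nat_lit 16114, nat_lit 14655, nat_lit 6559, nat_lit 8952, nat_lit 0, nat_lit 0, nat_lit 0, nat_lit 4914, nat_lit 0, nat_lit 0, nat_lit 0, nat_lit 0, nat_lit 0, nat_lit 0, nat_lit 0, nat_lit 0, [],
 ⟨p050_k24, nat_lit 0, nat_lit 0, nat_lit 61, nat_lit 0, nat_lit 0, [nat_lit 4688000000, nat_lit 7968000000], [], [nat_lit 20926211849, nat_lit 22745721272, nat_lit 20574233705, nat_lit 22301681300, nat_lit 22924472257, nat_lit 24886413077, nat_lit 22422485259, nat_lit 24156568627], nat_lit 0, nat_lit 0, nat_lit 0, nat_lit 0, nat_lit 0, nat_lit 0, [], [nat_lit 39, nat_lit 40, nat_lit 40, nat_lit 80, nat_lit 7, nat_lit 238, nat_lit 30, nat_lit 7]⟩, ⟨p050_k24, nat_lit 0, nat_lit 0, nat_lit 165, nat_lit 0, nat_lit 261261, [nat_lit 4688000000, nat_lit 7968000000], [], [nat_lit 21930445608, nat_lit 19633998000, nat_lit 23055732712, nat_lit 20857023040, nat_lit 19796753668, nat_lit 20431465004,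 nat_lit 18933611430, nat_lit 19532591972], nat_lit 1271250, nat_lit 1271250, nat_lit 490000, nat_lit 780000, nat_lit 1271250, nat_lit 1271250, [nat_lit 1100000, nat_lit 1785000], [nat_lit 39, nat_lit 40, nat_lit 40, nat_lit 80, nat_lit 7, nat_lit 345, nat_lit 125, nat_lit 11]⟩,
 zbF0, [⟨nat_lit 4, nat_lit 80, nat_lit 100, nat_lit 92, nat_lit 1357702178⟩, ⟨nat_lit 11, nat_lit 100, nat_lit 77, nat_lit 77, nat_lit 344340764⟩]⟩
noncomputable def p050_l166 : Lf2 := ⟨nat_lit 0, nat_lit 3, [nat_lit 45, nat_lit 5, nat_lit 5, nat_lit 20], true, nat_lit 340, nat_lit 364, nat_lit 0, nat_lit 276, ⟨nat_lit 0, nat_lit 1000, nat_lit 0, nat_lit 6, nat_lit 143, nat_lit 1000, nat_lit 277, nat_lit 0, nat_lit 0, nat_lit 0, nat_lit 0, nat_lit 0, nat_lit 39985115, nat_lit 6983388, nat_lit 20031497, nat_lit 4841698, false, false⟩,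
 nat_lit 0, nat_lit 0, nat_lit 0, nat_lit 100000, nat_lit 4652, nat_lit 0, nat_lit 0, nat_lit 0, nat_lit 0, nat_lit 0, nat_lit 0, nat_lit 0, nat_lit 0, nat_lit 0, nat_lit 0, nat_lit 400000, nat_lit 0, nat_lit 0, [(nat_lit 6, [(nat_lit 1, nat_lit 1000)]), (nat_lit 9, [(nat_lit 1, nat_lit 1000)])],
 ⟨p050_k18, nat_lit 0, nat_lit 0, nat_lit 90, nat_lit 0, nat_lit 0, [nat_lit 2702720000, nat_lit 3030400001, nat_lit 3280799999], [], [nat_lit 21199082464, nat_lit 23133261252, nat_lit 21140931252, nat_lit 22987946224, nat_lit 23194501496, nat_lit 25215532212, nat_lit 22989785331, nat_lit 24843310771], nat_lit 0, nat_lit 0, nat_lit 0, nat_lit 0, nat_lit 0, nat_lit 0, [], [nat_lit 9, nat_lit 40, nat_lit 40, nat_lit 80, nat_lit 2, nat_lit 238, nat_lit 30, nat_lit 7]⟩, C1.Rw.none,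
 ⟨nat_lit 5477, nat_lit 6325, ⟨.ofNat (nat_lit 295942), .ofNat (nat_lit 378206), .ofNat (nat_lit 317309), .ofNat (nat_lit 399574), .ofNat (nat_lit 317913), .ofNat (nat_lit 392847), .ofNat (nat_lit 339271), .ofNat (nat_lit 414204)⟩, ⟨.ofNat (nat_lit 659599), .ofNat (nat_lit 708908), .ofNat (nat_lit 702275), .ofNat (nat_lit 751581), .ofNat (nat_lit 634005), .ofNat (nat_lit 678915), .ofNat (nat_lit 676659), .ofNat (nat_lit 721567)⟩⟩, [⟨nat_lit 4, nat_lit 77, nat_lit 100, nat_lit 91, nat_lit 5110764323⟩]⟩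
noncomputable def b_V_600_600_20_3 : St := ⟨true, nat_lit 0, nat_lit 1, nat_lit 1, nat_lit 120, nat_lit 240, nat_lit 280, nat_lit 240, nat_lit 260, nat_lit 80, nat_lit 120, nat_lit 80, nat_lit 120, nat_lit 240, nat_lit 364, nat_lit 0, nat_lit 364, nat_lit 0, nat_lit 12, nat_lit 0, nat_lit 0, nat_lit 0, nat_lit 0⟩
theorem d_V_600_600_20_3 (h : EB TB.env) : Dead b_V_600_600_20_3 := chkB_sound0 h (T :=
(.spl (nat_lit 4) (nat_lit 320)
(.spl (nat_lit 4) (nat_lit 280)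
(.leaf p050_l157)
(.trX (nat_lit 23) (nat_lit 100) (nat_lit 80) (nat_lit 100) (nat_lit 336) (.spl (nat_lit 0) (nat_lit 260)
(.leaf p050_l158)
(.spl (nat_lit 4) (nat_lit 300)
(.leaf p050_l159)
(.trX (nat_lit 23) (nat_lit 94) (nat_lit 88) (nat_lit 100) (nat_lit 320) (.spl (nat_lit 3) (nat_lit 100)
(.leaf p050_l160)
(.spl (nat_lit 5) (nat_lit 160)
(.leaf p050_l161)
(.leaf p050_l162))))))))
(.trX (nat_lit 23) (nat_lit 87) (nat_lit 95) (nat_lit 100) (nat_lit 300) (.spl (nat_lit 4) (nat_lit 340)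
(.spl (nat_lit 1) (nat_lit 250)
(.leaf p050_l163)
(.ord (.spl (nat_lit 5) (nat_lit 160)
(.leaf p050_l164)
(.leaf p050_l165))))
(.trX (nat_lit 23) (nat_lit 77) (nat_lit 100) (nat_lit 99) (nat_lit 276) (.leaf p050_l166)))))) (by decide +kernel)
noncomputable def p050_l167 : Lf2 := ⟨nat_lit 0, nat_lit 6, [nat_lit 47, nat_lit 5, nat_lit 5, nat_lit 20], true, nat_lit 240, nat_lit 280, nat_lit 0, nat_lit 336, ⟨nat_lit 0, nat_lit 1000, nat_lit 0, nat_lit 6, nat_lit 118, nat_lit 1000, nat_lit 203, nat_lit 0, nat_lit 0, nat_lit 0, nat_lit 0, nat_lit 0, nat_lit 47874893, nat_lit 5713082, nat_lit 13412025, nat_lit 4117167, false, false⟩,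
 nat_lit 0, nat_lit 0, nat_lit 0, nat_lit 4594, nat_lit 5115, nat_lit 0, nat_lit 0, nat_lit 0, nat_lit 0, nat_lit 0, nat_lit 0, nat_lit 0, nat_lit 0, nat_lit 1841237810416, nat_lit 0, nat_lit 564400, nat_lit 0, nat_lit 0, [(nat_lit 9, [(nat_lit 1, nat_lit 726), (nat_lit 2, nat_lit 274)])],
 ⟨p050_k16, nat_lit 0, nat_lit 0, nat_lit 69, nat_lit 0, nat_lit 0, [nat_lit 2691964587, nat_lit 2716593600, nat_lit 2651584000], [], [nat_lit 15662242590, nat_lit 17090524087, nat_lit 14824813127, nat_lit 16198546287, nat_lit 18533326883, nat_lit 20017123761, nat_lit 17586069932, nat_lit 18812583897], nat_lit 0, nat_lit 0, nat_lit 0, nat_lit 0, nat_lit 0, nat_lit 0, [], [nat_lit 9, nat_lit 40, nat_lit 40, nat_lit 80, nat_lit 2, nat_lit 226, nat_lit 20, nat_lit 7]⟩, C1.Rw.none,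
 ⟨nat_lit 5477, nat_lit 5917, ⟨.ofNat (nat_lit 242029), .ofNat (nat_lit 328416), .ofNat (nat_lit 247363), .ofNat (nat_lit 333750), .ofNat (nat_lit 256844), .ofNat (nat_lit 339271), .ofNat (nat_lit 262183), .ofNat (nat_lit 344610)⟩, ⟨.ofNat (nat_lit 450496), .ofNat (nat_lit 529030), .ofNat (nat_lit 493175), .ofNat (nat_lit 571704), .ofNat (nat_lit 446789), .ofNat (nat_lit 521722), .ofNat (nat_lit 489503), .ofNat (nat_lit 564432)⟩⟩, [⟨nat_lit 0, nat_lit 100, nat_lit 99, nat_lit 66, nat_lit 226371383⟩]⟩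
noncomputable def p050_l168 : Lf2 := ⟨nat_lit 0, nat_lit 6, [nat_lit 47, nat_lit 5, nat_lit 5, nat_lit 20], true, nat_lit 240, nat_lit 260, nat_lit 0, nat_lit 336, ⟨nat_lit 0, nat_lit 1000, nat_lit 0, nat_lit 6, nat_lit 122, nat_lit 1000, nat_lit 195, nat_lit 0, nat_lit 0, nat_lit 0, nat_lit 0, nat_lit 0, nat_lit 48308233, nat_lit 6057827, nat_lit 12633940, nat_lit 4098319, false, false⟩,
 nat_lit 0, nat_lit 0, nat_lit 0, nat_lit 4146, nat_lit 5348, nat_lit 0, nat_lit 0, nat_lit 0, nat_lit 0, nat_lit 0, nat_lit 0, nat_lit 0, nat_lit 0, nat_lit 2443498510719, nat_lit 0, nat_lit 499000, nat_lit 0, nat_lit 0, [(nat_lit 9, [(nat_lit 1, nat_lit 835), (nat_lit 2, nat_lit 165)])],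
 ⟨p050_k25, nat_lit 0, nat_lit 0, nat_lit 52, nat_lit 0, nat_lit 0, [nat_lit 2696243201, nat_lit 2774756001, nat_lit 2802439999], [], [nat_lit 15627565085, nat_lit 16722441809, nat_lit 14918727917, nat_lit 15973175441, nat_lit 17075062434, nat_lit 18288321416, nat_lit 16313050690, nat_lit 17310299477], nat_lit 0, nat_lit 0, nat_lit 0, nat_lit 0, nat_lit 0, nat_lit 0, [], [nat_lit 9, nat_lit 40, nat_lit 40, nat_lit 80, nat_lit 2, nat_lit 226, nat_lit 20, nat_lit 7]⟩, C1.Rw.none,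
 ⟨nat_lit 5477, nat_lit 5810, ⟨.ofNat (nat_lit 258861), .ofNat (nat_lit 336483), .ofNat (nat_lit 264196), .ofNat (nat_lit 341818), .ofNat (nat_lit 269677), .ofNat (nat_lit 344610), .ofNat (nat_lit 275016), .ofNat (nat_lit 349949)⟩, ⟨.ofNat (nat_lit 449586), .ofNat (nat_lit 488397), .ofNat (nat_lit 492264), .ofNat (nat_lit 531076), .ofNat (nat_lit 446789), .ofNat (nat_lit 484256), .ofNat (nat_lit 489503), .ofNat (nat_lit 526970)⟩⟩, [⟨nat_lit 0, nat_lit 100, nat_lit 99, nat_lit 70, nat_lit 213462208⟩]⟩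
noncomputable def p050_l169 : Lf2 := ⟨nat_lit 0, nat_lit 6, [nat_lit 47, nat_lit 5, nat_lit 5, nat_lit 20], true, nat_lit 260, nat_lit 280, nat_lit 0, nat_lit 320, ⟨nat_lit 0, nat_lit 1000, nat_lit 0, nat_lit 6, nat_lit 122, nat_lit 1000, nat_lit 211, nat_lit 0, nat_lit 0, nat_lit 0, nat_lit 0, nat_lit 0, nat_lit 46931535, nat_lit 5988994, nat_lit 14079471, nat_lit 4232416, false, false⟩,
 nat_lit 0, nat_lit 0, nat_lit 0, nat_lit 3890, nat_lit 5129, nat_lit 0, nat_lit 0, nat_lit 0, nat_lit 0, nat_lit 0, nat_lit 0, nat_lit 0, nat_lit 0, nat_lit 3435095135886, nat_lit 0, nat_lit 460600, nat_lit 0, nat_lit 0, [(nat_lit 9, [(nat_lit 1, nat_lit 899), (nat_lit 2, nat_lit 101)])],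
 ⟨p050_k25, nat_lit 0, nat_lit 0, nat_lit 65, nat_lit 0, nat_lit 0, [nat_lit 2698755414, nat_lit 2808906401, nat_lit 2891015999], [], [nat_lit 17223244742, nat_lit 18236009773, nat_lit 16523942197, nat_lit 17500366137, nat_lit 18639012988, nat_lit 19752855556, nat_lit 17888096761, nat_lit 18809193840], nat_lit 0, nat_lit 0, nat_lit 0, nat_lit 0, nat_lit 0, nat_lit 0, [], [nat_lit 9, nat_lit 40, nat_lit 40, nat_lit 80, nat_lit 2, nat_lit 226, nat_lit 20, nat_lit 7]⟩, C1.Rw.none,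
 ⟨nat_lit 5477, nat_lit 5810, ⟨.ofNat (nat_lit 258861), .ofNat (nat_lit 336483), .ofNat (nat_lit 264196), .ofNat (nat_lit 341818), .ofNat (nat_lit 269677), .ofNat (nat_lit 344610), .ofNat (nat_lit 275016), .ofNat (nat_lit 349949)⟩, ⟨.ofNat (nat_lit 488397), .ofNat (nat_lit 527209), .ofNat (nat_lit 531076), .ofNat (nat_lit 569885), .ofNat (nat_lit 484256), .ofNat (nat_lit 521722), .ofNat (nat_lit 526970), .ofNat (nat_lit 564435)⟩⟩, [⟨nat_lit 0, nat_lit 100, nat_lit 99, nat_lit 70, nat_lit 210714187⟩]⟩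
noncomputable def p050_l170 : Lf2 := ⟨nat_lit 0, nat_lit 6, [nat_lit 47, nat_lit 5, nat_lit 5, nat_lit 20], true, nat_lit 240, nat_lit 280, nat_lit 0, nat_lit 352, ⟨nat_lit 0, nat_lit 1000, nat_lit 0, nat_lit 6, nat_lit 151, nat_lit 1000, nat_lit 203, nat_lit 0, nat_lit 0, nat_lit 0, nat_lit 0, nat_lit 0, nat_lit 45650465, nat_lit 8221362, nat_lit 13128173, nat_lit 4497126, false, false⟩,
 nat_lit 0, nat_lit 0, nat_lit 0, nat_lit 3491, nat_lit 5313, nat_lit 0, nat_lit 0, nat_lit 0, nat_lit 0, nat_lit 0, nat_lit 0, nat_lit 0, nat_lit 0, nat_lit 0, nat_lit 0, nat_lit 400000, nat_lit 0, nat_lit 0, [(nat_lit 9, [(nat_lit 1, nat_lit 1000)])],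
 ⟨p050_k26, nat_lit 0, nat_lit 0, nat_lit 28, nat_lit 0, nat_lit 0, [nat_lit 2742800000, nat_lit 3014800000], [], [nat_lit 14653135348, nat_lit 16054228940, nat_lit 14783087142, nat_lit 16113002352, nat_lit 17470071139, nat_lit 18724820328, nat_lit 17459206066, nat_lit 18646731726], nat_lit 0, nat_lit 0, nat_lit 0, nat_lit 0, nat_lit 0, nat_lit 0, [], [nat_lit 39, nat_lit 40, nat_lit 40, nat_lit 80, nat_lit 7, nat_lit 238, nat_lit 30, nat_lit 7]⟩, C1.Rw.none,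
 ⟨nat_lit 5477, nat_lit 5917, ⟨.ofNat (nat_lit 328416), .ofNat (nat_lit 406949), .ofNat (nat_lit 339085), .ofNat (nat_lit 417619), .ofNat (nat_lit 339271), .ofNat (nat_lit 414204), .ofNat (nat_lit 349949), .ofNat (nat_lit 424882)⟩, ⟨.ofNat (nat_lit 450496), .ofNat (nat_lit 529030), .ofNat (nat_lit 493175), .ofNat (nat_lit 571704), .ofNat (nat_lit 446789), .ofNat (nat_lit 521722), .ofNat (nat_lit 489503), .ofNat (nat_lit 564432)⟩⟩, []⟩
noncomputable def p050_l171 : Lf2 := ⟨nat_lit 0, nat_lit 4, [nat_lit 38, nat_lit 5, nat_lit 5, nat_lit 20], false, nat_lit 280, nat_lit 320, nat_lit 0, nat_lit 160, ⟨nat_lit 1000, nat_lit 0, nat_lit 0, nat_lit 0, nat_lit 0, nat_lit 0, nat_lit 0, nat_lit 0, nat_lit 0, nat_lit 0, nat_lit 0, nat_lit 0, nat_lit 0, nat_lit 0, nat_lit 0, nat_lit 0, false, false⟩,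
 nat_lit 0, nat_lit 0, nat_lit 14727, nat_lit 20624, nat_lit 6172, nat_lit 8572, nat_lit 0, nat_lit 0, nat_lit 0, nat_lit 6894, nat_lit 0, nat_lit 0, nat_lit 0, nat_lit 0, nat_lit 0, nat_lit 0, nat_lit 0, nat_lit 0, [],
 ⟨p050_k27, nat_lit 0, nat_lit 0, nat_lit 91, nat_lit 0, nat_lit 0, [nat_lit 4688000000, nat_lit 6250000000, nat_lit 7968000000], [], [nat_lit 20002353089, nat_lit 21403620564, nat_lit 18691480316, nat_lit 20039962568, nat_lit 23186621832, nat_lit 24406949448, nat_lit 21749972920, nat_lit 22927143776], nat_lit 0, nat_lit 0, nat_lit 0, nat_lit 0, nat_lit 0, nat_lit 0, [], [nat_lit 9, nat_lit 40, nat_lit 40, nat_lit 80, nat_lit 2, nat_lit 226, nat_lit 20, nat_lit 7]⟩, ⟨p050_k27, nat_lit 0, nat_lit 0, nat_lit 262, nat_lit 0, nat_lit 189505, [nat_lit 4688000000, nat_lit 6250000000, nat_lit 7968000000], [], [nat_lit 18620533090, nat_lit 20235358176, nat_lit 14760382152, nat_lit 16341524820, nat_lit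 16261814188, nat_lit 14211584658, nat_lit 18190421788, nat_lit 16170832872], nat_lit 1271250, nat_lit 1271250, nat_lit 205650, nat_lit 490000, nat_lit 0, nat_lit 1100001, [nat_lit 1100000, nat_lit 1442500, nat_lit 1271250], [nat_lit 9, nat_lit 40, nat_lit 40, nat_lit 80, nat_lit 2, nat_lit 272, nat_lit 60, nat_lit 9]⟩,
 zbF0, [⟨nat_lit 0, nat_lit 100, nat_lit 98, nat_lit 74, nat_lit 630852685⟩, ⟨nat_lit 4, nat_lit 82, nat_lit 100, nat_lit 92, nat_lit 668128780⟩]⟩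
noncomputable def p050_l172 : Lf2 := ⟨nat_lit 0, nat_lit 4, [nat_lit 38, nat_lit 5, nat_lit 5, nat_lit 20], false, nat_lit 280, nat_lit 320, nat_lit 160, nat_lit 240, ⟨nat_lit 1000, nat_lit 0, nat_lit 0, nat_lit 0, nat_lit 0, nat_lit 0, nat_lit 0, nat_lit 0, nat_lit 0, nat_lit 0, nat_lit 0, nat_lit 0, nat_lit 0, nat_lit 0, nat_lit 0, nat_lit 0, false, false⟩,
 nat_lit 0, nat_lit 0, nat_lit 14518, nat_lit 0, nat_lit 6172, nat_lit 8450, nat_lit 0, nat_lit 0, nat_lit 0, nat_lit 2977, nat_lit 0, nat_lit 0, nat_lit 0, nat_lit 0, nat_lit 0, nat_lit 0, nat_lit 0, nat_lit 0, [],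
 ⟨p050_k27, nat_lit 0, nat_lit 0, nat_lit 91, nat_lit 0, nat_lit 0, [nat_lit 4688000000, nat_lit 6250000000, nat_lit 7968000000], [], [nat_lit 20002353089, nat_lit 21403620564, nat_lit 18691480316, nat_lit 20039962568, nat_lit 23186621832, nat_lit 24406949448, nat_lit 21749972920, nat_lit 22927143776], nat_lit 0, nat_lit 0, nat_lit 0, nat_lit 0, nat_lit 0, nat_lit 0, [], [nat_lit 9, nat_lit 40, nat_lit 40, nat_lit 80, nat_lit 2, nat_lit 226, nat_lit 20, nat_lit 7]⟩, ⟨p050_k27, nat_lit 0, nat_lit 0, nat_lit 176, nat_lit 0, nat_lit 189505, [nat_lit 4688000000, nat_lit 6250000000, nat_lit 7968000000], [], [nat_lit 11886413055, nat_lit 12763900105, nat_lit 10395603275, nat_lit 11232508675, nat_lit 16125415301, nat_lit 17265581090, nat_lit 16836490375, nat_lit 14761077425], nat_lit 1271250, nat_lit 1271250, nat_lit 205650, nat_lit 490000, nat_lit 1100001, nat_lit 1785000, [nat_lit 1100000, nat_lit 1442500, nat_lit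 1271250], [nat_lit 9, nat_lit 40, nat_lit 40, nat_lit 80, nat_lit 2, nat_lit 317, nat_lit 100, nat_lit 10]⟩,
 zbF0, [⟨nat_lit 0, nat_lit 100, nat_lit 98, nat_lit 74, nat_lit 265957089⟩, ⟨nat_lit 4, nat_lit 82, nat_lit 100, nat_lit 92, nat_lit 80581409⟩, ⟨nat_lit 23, nat_lit 90, nat_lit 100, nat_lit 73, nat_lit 740470660⟩]⟩
noncomputable def p050_l173 : Lf2 := ⟨nat_lit 0, nat_lit 4, [nat_lit 38, nat_lit 5, nat_lit 5, nat_lit 20], false, nat_lit 280, nat_lit 320, nat_lit 240, nat_lit 300, ⟨nat_lit 1000, nat_lit 0, nat_lit 0, nat_lit 0, nat_lit 0, nat_lit 0, nat_lit 0, nat_lit 0, nat_lit 0, nat_lit 0, nat_lit 0, nat_lit 0, nat_lit 0, nat_lit 0, nat_lit 0, nat_lit 0, false, false⟩,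
 nat_lit 0, nat_lit 0, nat_lit 13062, nat_lit 0, nat_lit 6622, nat_lit 7603, nat_lit 0, nat_lit 0, nat_lit 0, nat_lit 3028, nat_lit 0, nat_lit 0, nat_lit 0, nat_lit 0, nat_lit 0, nat_lit 0, nat_lit 0, nat_lit 0, [],
 ⟨p050_k27, nat_lit 0, nat_lit 0, nat_lit 91, nat_lit 0, nat_lit 0, [nat_lit 4688000000, nat_lit 6250000000, nat_lit 7968000000], [], [nat_lit 19777987769, nat_lit 21233942214, nat_lit 18312311666, nat_lit 19712719868, nat_lit 23448528972, nat_lit 24920576276, nat_lit 21497347420, nat_lit 22789434136], nat_lit 0, nat_lit 0, nat_lit 0, nat_lit 0, nat_lit 0, nat_lit 0, [], [nat_lit 9, nat_lit 40, nat_lit 40, nat_lit 80, nat_lit 2, nat_lit 226, nat_lit 20, nat_lit 7]⟩, ⟨p050_k27, nat_lit 0, nat_lit 0, nat_lit 170, nat_lit 0, nat_lit 189505, [nat_lit 4688000000, nat_lit 6250000000, nat_lit 7968000000], [], [nat_lit 17043387263, nat_lit 17722706926, nat_lit 15637639434, nat_lit 16286722531, nat_lit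 22309649829, nat_lit 23171844814, nat_lit 19871812794, nat_lit 20707452830], nat_lit 1271250, nat_lit 1271250, nat_lit 205650, nat_lit 490000, nat_lit 1271250, nat_lit 1271250, [nat_lit 1100000, nat_lit 1442500, nat_lit 1271250], [nat_lit 9, nat_lit 40, nat_lit 40, nat_lit 80, nat_lit 2, nat_lit 226, nat_lit 20, nat_lit 7]⟩,
 zbF0, [⟨nat_lit 0, nat_lit 100, nat_lit 98, nat_lit 74, nat_lit 71382365⟩, ⟨nat_lit 11, nat_lit 100, nat_lit 97, nat_lit 75, nat_lit 952882112⟩]⟩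
noncomputable def p050_l174 : Lf2 := ⟨nat_lit 0, nat_lit 6, [nat_lit 47, nat_lit 5, nat_lit 5, nat_lit 20], false, nat_lit 280, nat_lit 320, nat_lit 0, nat_lit 300, ⟨nat_lit 1000, nat_lit 0, nat_lit 0, nat_lit 0, nat_lit 0, nat_lit 0, nat_lit 0, nat_lit 0, nat_lit 0, nat_lit 0, nat_lit 0, nat_lit 0, nat_lit 0, nat_lit 0, nat_lit 0, nat_lit 0, false, false⟩,
 nat_lit 0, nat_lit 0, nat_lit 12930, nat_lit 13322, nat_lit 6172, nat_lit 7526, nat_lit 0, nat_lit 0, nat_lit 0, nat_lit 1994, nat_lit 0, nat_lit 0, nat_lit 0, nat_lit 0, nat_lit 0, nat_lit 0, nat_lit 0, nat_lit 0, [],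
 ⟨p050_k16, nat_lit 0, nat_lit 0, nat_lit 91, nat_lit 0, nat_lit 0, [nat_lit 4688000000, nat_lit 6250000000, nat_lit 7968000000], [], [nat_lit 20002353089, nat_lit 21403620564, nat_lit 18691480316, nat_lit 20039962568, nat_lit 23186621832, nat_lit 24406949448, nat_lit 21749972920, nat_lit 22927143776], nat_lit 0, nat_lit 0, nat_lit 0, nat_lit 0, nat_lit 0, nat_lit 0, [], [nat_lit 9, nat_lit 40, nat_lit 40, nat_lit 80, nat_lit 2, nat_lit 226, nat_lit 20, nat_lit 7]⟩, ⟨p050_k16, nat_lit 0, nat_lit 0, nat_lit 243, nat_lit 0, nat_lit 14878, [nat_lit 4688000000, nat_lit 6250000000, nat_lit 7968000000], [], [nat_lit 19040293277, nat_lit 20097003202, nat_lit 17293757096, nat_lit 18147204488, nat_lit 22499650926, nat_lit 23101938485, nat_lit 20574506891, nat_lit 21151636765], nat_lit 1271250, nat_lit 1271250, nat_lit 205650, nat_lit 490000, nat_lit 0, nat_lit 2118750, [nat_lit 1100000, nat_lit 1442500, nat_lit 1271250],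 [nat_lit 9, nat_lit 40, nat_lit 40, nat_lit 80, nat_lit 2, nat_lit 317, nat_lit 100, nat_lit 11]⟩,
 zbF0, [⟨nat_lit 0, nat_lit 100, nat_lit 98, nat_lit 74, nat_lit 746912325⟩, ⟨nat_lit 16, nat_lit 100, nat_lit 82, nat_lit 92, nat_lit 389503728⟩, ⟨nat_lit 23, nat_lit 90, nat_lit 100, nat_lit 73, nat_lit 351143901⟩]⟩
noncomputable def p050_l175 : Lf2 := ⟨nat_lit 0, nat_lit 6, [nat_lit 47, nat_lit 5, nat_lit 5, nat_lit 20], false, nat_lit 280, nat_lit 320, nat_lit 0, nat_lit 160, ⟨nat_lit 1000, nat_lit 0, nat_lit 0, nat_lit 0, nat_lit 0, nat_lit 0, nat_lit 0, nat_lit 0, nat_lit 0, nat_lit 0, nat_lit 0, nat_lit 0, nat_lit 0, nat_lit 0, nat_lit 0, nat_lit 0, false, false⟩,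
 nat_lit 0, nat_lit 0, nat_lit 20284, nat_lit 0, nat_lit 6559, nat_lit 11806, nat_lit 0, nat_lit 0, nat_lit 0, nat_lit 4456, nat_lit 0, nat_lit 0, nat_lit 0, nat_lit 0, nat_lit 0, nat_lit 0, nat_lit 0, nat_lit 0, [],
 ⟨p050_k16, nat_lit 0, nat_lit 0, nat_lit 60, nat_lit 0, nat_lit 0, [nat_lit 4688000000, nat_lit 6250000000, nat_lit 7968000000], [], [nat_lit 18365395277, nat_lit 19758533846, nat_lit 18148291038, nat_lit 19468914418, nat_lit 21532714990, nat_lit 22745721272, nat_lit 21150049570, nat_lit 22301681300], nat_lit 0, nat_lit 0, nat_lit 0, nat_lit 0, nat_lit 0, nat_lit 0, [], [nat_lit 9, nat_lit 40, nat_lit 40, nat_lit 80, nat_lit 2, nat_lit 238, nat_lit 30, nat_lit 7]⟩, ⟨p050_k16, nat_lit 0, nat_lit 0, nat_lit 292, nat_lit 0, nat_lit 343787, [nat_lit 4688000000, nat_lit 6250000000, nat_lit 7968000000], [], [nat_lit 21216132500, nat_lit 19211489610, nat_lit 15612855592, nat_lit 17534777508, nat_lit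 17307032724, nat_lit 14525503706, nat_lit 21110301676, nat_lit 18365985170], nat_lit 1271250, nat_lit 1271250, nat_lit 490000, nat_lit 780000, nat_lit 0, nat_lit 1100001, [nat_lit 1100000, nat_lit 1442500, nat_lit 1271250], [nat_lit 9, nat_lit 40, nat_lit 40, nat_lit 80, nat_lit 2, nat_lit 289, nat_lit 75, nat_lit 10]⟩,
 zbF0, [⟨nat_lit 4, nat_lit 82, nat_lit 100, nat_lit 92, nat_lit 681707408⟩]⟩
noncomputable def p050_l176 : Lf2 := ⟨nat_lit 0, nat_lit 6, [nat_lit 47, nat_lit 5, nat_lit 5, nat_lit 20], false, nat_lit 280, nat_lit 320, nat_lit 160, nat_lit 240, ⟨nat_lit 1000, nat_lit 0, nat_lit 0, nat_lit 0, nat_lit 0, nat_lit 0, nat_lit 0, nat_lit 0, nat_lit 0, nat_lit 0, nat_lit 0, nat_lit 0, nat_lit 0, nat_lit 0, nat_lit 0, nat_lit 0, false, false⟩,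
 nat_lit 0, nat_lit 0, nat_lit 15296, nat_lit 0, nat_lit 6559, nat_lit 8903, nat_lit 0, nat_lit 0, nat_lit 0, nat_lit 2452, nat_lit 0, nat_lit 0, nat_lit 0, nat_lit 0, nat_lit 0, nat_lit 0, nat_lit 0, nat_lit 0, [],
 ⟨p050_k16, nat_lit 0, nat_lit 0, nat_lit 60, nat_lit 0, nat_lit 0, [nat_lit 4688000000, nat_lit 6250000000, nat_lit 7968000000], [], [nat_lit 18365395277, nat_lit 19758533846, nat_lit 18148291038, nat_lit 19468914418, nat_lit 21532714990, nat_lit 22745721272, nat_lit 21150049570, nat_lit 22301681300], nat_lit 0, nat_lit 0, nat_lit 0, nat_lit 0, nat_lit 0, nat_lit 0, [], [nat_lit 9, nat_lit 40, nat_lit 40, nat_lit 80, nat_lit 2, nat_lit 238, nat_lit 30, nat_lit 7]⟩, ⟨p050_k16, nat_lit 0, nat_lit 0, nat_lit 172, nat_lit 0, nat_lit 343787, [nat_lit 4688000000, nat_lit 6250000000, nat_lit 7968000000], [], [nat_lit 19687322250, nat_lit 17403444563, nat_lit 10761731332, nat_lit 11419717088, nat_lit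 16516906810, nat_lit 14663271529, nat_lit 19318798070, nat_lit 17162678433], nat_lit 1271250, nat_lit 1271250, nat_lit 490000, nat_lit 780000, nat_lit 1100001, nat_lit 1785000, [nat_lit 1100000, nat_lit 1442500, nat_lit 1271250], [nat_lit 9, nat_lit 40, nat_lit 40, nat_lit 80, nat_lit 2, nat_lit 317, nat_lit 100, nat_lit 10]⟩,
 zbF0, [⟨nat_lit 16, nat_lit 100, nat_lit 82, nat_lit 92, nat_lit 681707408⟩]⟩
noncomputable def p050_l177 : Lf2 := ⟨nat_lit 0, nat_lit 6, [nat_lit 47, nat_lit 5, nat_lit 5, nat_lit 20], false, nat_lit 280, nat_lit 320, nat_lit 240, nat_lit 336, ⟨nat_lit 1000, nat_lit 0, nat_lit 0, nat_lit 0, nat_lit 0, nat_lit 0, nat_lit 0, nat_lit 0, nat_lit 0, nat_lit 0, nat_lit 0, nat_lit 0, nat_lit 0, nat_lit 0, nat_lit 0, nat_lit 0, false, false⟩,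
 nat_lit 0, nat_lit 0, nat_lit 11753, nat_lit 0, nat_lit 6559, nat_lit 6841, nat_lit 0, nat_lit 0, nat_lit 0, nat_lit 3650, nat_lit 0, nat_lit 0, nat_lit 0, nat_lit 0, nat_lit 0, nat_lit 0, nat_lit 0, nat_lit 0, [],
 ⟨p050_k16, nat_lit 0, nat_lit 0, nat_lit 60, nat_lit 0, nat_lit 0, [nat_lit 4688000000, nat_lit 6250000000, nat_lit 7968000000], [], [nat_lit 18365395277, nat_lit 19758533846, nat_lit 18148291038, nat_lit 19468914418, nat_lit 21532714990, nat_lit 22745721272, nat_lit 21150049570, nat_lit 22301681300], nat_lit 0, nat_lit 0, nat_lit 0, nat_lit 0, nat_lit 0, nat_lit 0, [], [nat_lit 9, nat_lit 40, nat_lit 40, nat_lit 80, nat_lit 2, nat_lit 238, nat_lit 30, nat_lit 7]⟩, ⟨p050_k16, nat_lit 0, nat_lit 0, nat_lit 212, nat_lit 0, nat_lit 343787, [nat_lit 4688000000, nat_lit 6250000000, nat_lit 7968000000], [], [nat_lit 16836991874, nat_lit 17504334609, nat_lit 16766004624, nat_lit 17396389176, nat_lit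 23537431118, nat_lit 24025847834, nat_lit 23109302324, nat_lit 23571614307], nat_lit 1271250, nat_lit 1271250, nat_lit 490000, nat_lit 780000, nat_lit 1271250, nat_lit 1271250, [nat_lit 1100000, nat_lit 1442500, nat_lit 1271250], [nat_lit 9, nat_lit 40, nat_lit 40, nat_lit 80, nat_lit 2, nat_lit 238, nat_lit 30, nat_lit 7]⟩,
 zbF0, [⟨nat_lit 4, nat_lit 82, nat_lit 100, nat_lit 92, nat_lit 16434460⟩, ⟨nat_lit 11, nat_lit 100, nat_lit 96, nat_lit 92, nat_lit 665272948⟩]⟩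
noncomputable def p050_l178 : Lf2 := ⟨nat_lit 0, nat_lit 6, [nat_lit 47, nat_lit 5, nat_lit 5, nat_lit 20], false, nat_lit 320, nat_lit 352, nat_lit 0, nat_lit 160, ⟨nat_lit 1000, nat_lit 0, nat_lit 0, nat_lit 0, nat_lit 0, nat_lit 0, nat_lit 0, nat_lit 0, nat_lit 0, nat_lit 0, nat_lit 0, nat_lit 0, nat_lit 0, nat_lit 0, nat_lit 0, nat_lit 0, false, false⟩,
 nat_lit 0, nat_lit 0, nat_lit 15197, nat_lit 36928, nat_lit 7123, nat_lit 8845, nat_lit 1844, nat_lit 0, nat_lit 0, nat_lit 5621, nat_lit 0, nat_lit 0, nat_lit 0, nat_lit 0, nat_lit 0, nat_lit 0, nat_lit 0, nat_lit 0, [],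
 ⟨p050_k16, nat_lit 0, nat_lit 0, nat_lit 134, nat_lit 0, nat_lit 0, [nat_lit 4688000000, nat_lit 6250000000, nat_lit 7968000000], [], [nat_lit 24407556952, nat_lit 25495135986, nat_lit 22732890808, nat_lit 23615120688, nat_lit 27926451012, nat_lit 29251681164, nat_lit 25470471664, nat_lit 26761989716], nat_lit 0, nat_lit 0, nat_lit 0, nat_lit 0, nat_lit 0, nat_lit 0, [], [nat_lit 9, nat_lit 40, nat_lit 40, nat_lit 80, nat_lit 2, nat_lit 226, nat_lit 20, nat_lit 6]⟩, ⟨p050_k16, nat_lit 0, nat_lit 0, nat_lit 264, nat_lit 0, nat_lit 193791, [nat_lit 4688000000, nat_lit 6250000000, nat_lit 7968000000], [], [nat_lit 18976131096, nat_lit 20627968103, nat_lit 14966433270, nat_lit 16583794575, nat_lit 17929585497, nat_lit 15814060510, nat_lit 19883391380, nat_lit 17799482845], nat_lit 1271250, nat_lit 1271250, nat_lit 205650, nat_lit 490000, nat_lit 0, nat_lit 1100001, [nat_lit 1100000, nat_lit 1442500, nat_lit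 1271250], [nat_lit 9, nat_lit 40, nat_lit 40, nat_lit 80, nat_lit 2, nat_lit 272, nat_lit 60, nat_lit 9]⟩,
 zbF0, [⟨nat_lit 0, nat_lit 100, nat_lit 98, nat_lit 74, nat_lit 674299819⟩, ⟨nat_lit 4, nat_lit 82, nat_lit 100, nat_lit 92, nat_lit 1542458064⟩]⟩
noncomputable def p050_l179 : Lf2 := ⟨nat_lit 0, nat_lit 6, [nat_lit 47, nat_lit 5, nat_lit 5, nat_lit 20], false, nat_lit 320, nat_lit 352, nat_lit 160, nat_lit 260, ⟨nat_lit 1000, nat_lit 0, nat_lit 0, nat_lit 0, nat_lit 0, nat_lit 0, nat_lit 0, nat_lit 0, nat_lit 0, nat_lit 0, nat_lit 0, nat_lit 0, nat_lit 0, nat_lit 0, nat_lit 0, nat_lit 0, false, false⟩,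
 nat_lit 0, nat_lit 0, nat_lit 15715, nat_lit 15524, nat_lit 7123, nat_lit 9147, nat_lit 1844, nat_lit 0, nat_lit 0, nat_lit 2642, nat_lit 0, nat_lit 0, nat_lit 0, nat_lit 0, nat_lit 0, nat_lit 0, nat_lit 0, nat_lit 0, [],
 ⟨p050_k16, nat_lit 0, nat_lit 0, nat_lit 134, nat_lit 0, nat_lit 0, [nat_lit 4688000000, nat_lit 6250000000, nat_lit 7968000000], [], [nat_lit 24407556952, nat_lit 25495135986, nat_lit 22732890808, nat_lit 23615120688, nat_lit 27926451012, nat_lit 29251681164, nat_lit 25470471664, nat_lit 26761989716], nat_lit 0, nat_lit 0, nat_lit 0, nat_lit 0, nat_lit 0, nat_lit 0, [], [nat_lit 9, nat_lit 40, nat_lit 40, nat_lit 80, nat_lit 2, nat_lit 226, nat_lit 20, nat_lit 6]⟩, ⟨p050_k16, nat_lit 0, nat_lit 0, nat_lit 176, nat_lit 0, nat_lit 193791, [nat_lit 4688000000, nat_lit 6250000000, nat_lit 7968000000], [], [nat_lit 11392500876, nat_lit 12400222028, nat_lit 9228870812, nat_lit 10194316336,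 nat_lit 18753770472, nat_lit 19878090224, nat_lit 18473075685, nat_lit 16920539856], nat_lit 1271250, nat_lit 1271250, nat_lit 205650, nat_lit 490000, nat_lit 1100001, nat_lit 1956250, [nat_lit 1100000, nat_lit 1442500, nat_lit 1271250], [nat_lit 9, nat_lit 40, nat_lit 40, nat_lit 80, nat_lit 2, nat_lit 317, nat_lit 100, nat_lit 10]⟩,
 zbF0, [⟨nat_lit 0, nat_lit 100, nat_lit 98, nat_lit 74, nat_lit 306380745⟩, ⟨nat_lit 16, nat_lit 100, nat_lit 82, nat_lit 92, nat_lit 924633347⟩, ⟨nat_lit 11, nat_lit 100, nat_lit 75, nat_lit 71, nat_lit 1096346093⟩]⟩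
noncomputable def p050_l180 : Lf2 := ⟨nat_lit 0, nat_lit 6, [nat_lit 47, nat_lit 5, nat_lit 5, nat_lit 20], false, nat_lit 320, nat_lit 352, nat_lit 0, nat_lit 160, ⟨nat_lit 1000, nat_lit 0, nat_lit 0, nat_lit 0, nat_lit 0, nat_lit 0, nat_lit 0, nat_lit 0, nat_lit 0, nat_lit 0, nat_lit 0, nat_lit 0, nat_lit 0, nat_lit 0, nat_lit 0, nat_lit 0, false, false⟩,
 nat_lit 0, nat_lit 0, nat_lit 19679, nat_lit 16205, nat_lit 6559, nat_lit 11454, nat_lit 0, nat_lit 0, nat_lit 0, nat_lit 5018, nat_lit 0, nat_lit 0, nat_lit 0, nat_lit 0, nat_lit 0, nat_lit 0, nat_lit 0, nat_lit 0, [],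
 ⟨p050_k16, nat_lit 0, nat_lit 0, nat_lit 82, nat_lit 0, nat_lit 0, [nat_lit 4688000000, nat_lit 6250000000, nat_lit 7968000000], [], [nat_lit 21532714990, nat_lit 22745721272, nat_lit 21150049570, nat_lit 22301681300, nat_lit 24932066886, nat_lit 26171317028, nat_lit 24194960552, nat_lit 25379324335], nat_lit 0, nat_lit 0, nat_lit 0, nat_lit 0, nat_lit 0, nat_lit 0, [], [nat_lit 9, nat_lit 40, nat_lit 40, nat_lit 80, nat_lit 2, nat_lit 238, nat_lit 30, nat_lit 7]⟩, ⟨p050_k16, nat_lit 0, nat_lit 0, nat_lit 292, nat_lit 0, nat_lit 343787, [nat_lit 4688000000, nat_lit 6250000000, nat_lit 7968000000], [], [nat_lit 21599196500, nat_lit 18899112490, nat_lit 15424770728, nat_lit 17302275172, nat_lit 16911874816, nat_lit 14213278054, nat_lit 20636333784, nat_lit 17973840030], nat_lit 1271250, nat_lit 1271250, nat_lit 490000, nat_lit 780000, nat_lit 0, nat_lit 1100001, [nat_lit 1100000, nat_lit 1442500, nat_lit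 1271250], [nat_lit 9, nat_lit 40, nat_lit 40, nat_lit 80, nat_lit 2, nat_lit 289, nat_lit 75, nat_lit 10]⟩,
 zbF0, [⟨nat_lit 16, nat_lit 100, nat_lit 82, nat_lit 92, nat_lit 1842825902⟩]⟩
noncomputable def p050_l181 : Lf2 := ⟨nat_lit 0, nat_lit 6, [nat_lit 47, nat_lit 5, nat_lit 5, nat_lit 20], false, nat_lit 320, nat_lit 352, nat_lit 160, nat_lit 300, ⟨nat_lit 465, nat_lit 535, nat_lit 0, nat_lit 6, nat_lit 150, nat_lit 535, nat_lit 262, nat_lit 0, nat_lit 0, nat_lit 0, nat_lit 0, nat_lit 0, nat_lit 40843132, nat_lit 7637896, nat_lit 18518972, nat_lit 4850458, false, false⟩,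
 nat_lit 0, nat_lit 0, nat_lit 8368, nat_lit 0, nat_lit 5754, nat_lit 4870, nat_lit 0, nat_lit 0, nat_lit 0, nat_lit 809, nat_lit 0, nat_lit 0, nat_lit 0, nat_lit 0, nat_lit 0, nat_lit 214000, nat_lit 0, nat_lit 0, [(nat_lit 9, [(nat_lit 1, nat_lit 535)])],
 ⟨p050_k16, nat_lit 0, nat_lit 0, nat_lit 82, nat_lit 0, nat_lit 0, [nat_lit 3625875201, nat_lit 4437848001, nat_lit 5308462999], [], [nat_lit 20922509141, nat_lit 22175942152, nat_lit 20689074621, nat_lit 21771903001, nat_lit 24163599074, nat_lit 25328246969, nat_lit 23618856828, nat_lit 24733584247], nat_lit 0, nat_lit 0, nat_lit 0, nat_lit 0, nat_lit 0, nat_lit 0, [], [nat_lit 9, nat_lit 40, nat_lit 40, nat_lit 80, nat_lit 2, nat_lit 238, nat_lit 30, nat_lit 7]⟩, ⟨p050_k16, nat_lit 0, nat_lit 0, nat_lit 177, nat_lit 0, nat_lit 295564, [nat_lit 2179920000, nat_lit 2906250000, nat_lit 3705120000], [], [nat_lit 8360068080, nat_lit 7735419965, nat_lit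 4316226980, nat_lit 4547714160, nat_lit 10625073390, nat_lit 10039368839, nat_lit 12160069405, nat_lit 11582372960], nat_lit 1271250, nat_lit 1271250, nat_lit 490000, nat_lit 780000, nat_lit 1100001, nat_lit 2298750, [nat_lit 1100000, nat_lit 1442500, nat_lit 1271250], [nat_lit 9, nat_lit 40, nat_lit 40, nat_lit 80, nat_lit 2, nat_lit 345, nat_lit 125, nat_lit 11]⟩,
 ⟨nat_lit 5477, nat_lit 5917, ⟨.ofNat (nat_lit 328416), .ofNat (nat_lit 406949), .ofNat (nat_lit 333750), .ofNat (nat_lit 412284), .ofNat (nat_lit 339271), .ofNat (nat_lit 414204), .ofNat (nat_lit 344610), .ofNat (nat_lit 419543)⟩, ⟨.ofNat (nat_lit 607556), .ofNat (nat_lit 670368), .ofNat (nat_lit 650219), .ofNat (nat_lit 713031), .ofNat (nat_lit 596648), .ofNat (nat_lit 656580), .ofNat (nat_lit 639346), .ofNat (nat_lit 699278)⟩⟩, [⟨nat_lit 4, nat_lit 82, nat_lit 100, nat_lit 92, nat_lit 409538123⟩, ⟨nat_lit 23, nat_lit 77, nat_lit 100, nat_lit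 91, nat_lit 260992850⟩]⟩
noncomputable def p050_l182 : Lf2 := ⟨nat_lit 0, nat_lit 6, [nat_lit 47, nat_lit 5, nat_lit 5, nat_lit 20], false, nat_lit 320, nat_lit 348, nat_lit 160, nat_lit 300, ⟨nat_lit 1000, nat_lit 0, nat_lit 0, nat_lit 0, nat_lit 0, nat_lit 0, nat_lit 0, nat_lit 0, nat_lit 0, nat_lit 0, nat_lit 0, nat_lit 0, nat_lit 0, nat_lit 0, nat_lit 0, nat_lit 0, false, false⟩,
 nat_lit 0, nat_lit 0, nat_lit 15794, nat_lit 0, nat_lit 6719, nat_lit 9405, nat_lit 0, nat_lit 0, nat_lit 0, nat_lit 2015, nat_lit 0, nat_lit 0, nat_lit 0, nat_lit 0, nat_lit 0, nat_lit 0, nat_lit 0, nat_lit 0, [],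
 ⟨p050_k25, nat_lit 0, nat_lit 0, nat_lit 80, nat_lit 0, nat_lit 0, [nat_lit 4688000000, nat_lit 6250000000, nat_lit 7968000000], [], [nat_lit 21777210316, nat_lit 22857992572, nat_lit 21321893103, nat_lit 22195873300, nat_lit 24945685936, nat_lit 25903772352, nat_lit 24178578046, nat_lit 25093679163], nat_lit 0, nat_lit 0, nat_lit 0, nat_lit 0, nat_lit 0, nat_lit 0, [], [nat_lit 9, nat_lit 40, nat_lit 40, nat_lit 80, nat_lit 2, nat_lit 238, nat_lit 30, nat_lit 7]⟩, ⟨p050_k25, nat_lit 0, nat_lit 0, nat_lit 192, nat_lit 0, nat_lit 332669, [nat_lit 4688000000, nat_lit 6250000000, nat_lit 7968000000], [], [nat_lit 17934693128, nat_lit 16728365505, nat_lit 10031932108, nat_lit 10495528820, nat_lit 22204587589, nat_lit 21572490767, nat_lit 25302759408, nat_lit 24187105390], nat_lit 1271250, nat_lit 1271250, nat_lit 490000, nat_lit 780000, nat_lit 1100001, nat_lit 2298750, [nat_lit 1100000, nat_lit 1442500, nat_lit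 1271250], [nat_lit 9, nat_lit 40, nat_lit 40, nat_lit 80, nat_lit 2, nat_lit 345, nat_lit 125, nat_lit 11]⟩,
 zbF0, [⟨nat_lit 4, nat_lit 84, nat_lit 100, nat_lit 93, nat_lit 930350313⟩, ⟨nat_lit 23, nat_lit 87, nat_lit 95, nat_lit 100, nat_lit 449672459⟩]⟩
noncomputable def b_V_600_600_20_4 : St := ⟨true, nat_lit 0, nat_lit 1, nat_lit 1, nat_lit 120, nat_lit 260, nat_lit 280, nat_lit 260, nat_lit 270, nat_lit 36, nat_lit 120, nat_lit 80, nat_lit 120, nat_lit 240, nat_lit 352, nat_lit 0, nat_lit 352, nat_lit 0, nat_lit 24, nat_lit 0, nat_lit 0, nat_lit 0, nat_lit 0⟩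
theorem d_V_600_600_20_4 (h : EB TB.env) : Dead b_V_600_600_20_4 := chkB_sound0 h (T :=
(.spl (nat_lit 4) (nat_lit 320)
(.spl (nat_lit 4) (nat_lit 280)
(.spl (nat_lit 2) (nat_lit 80)
(.trX (nat_lit 23) (nat_lit 100) (nat_lit 76) (nat_lit 82) (nat_lit 336) (.spl (nat_lit 1) (nat_lit 265)
(.leaf p050_l167)
(.ord (.trZ (nat_lit 0) (nat_lit 100) (nat_lit 100) (nat_lit 65) (nat_lit 40) (.spl (nat_lit 4) (nat_lit 260)
(.leaf p050_l168)
(.trX (nat_lit 23) (nat_lit 100) (nat_lit 85) (nat_lit 84) (nat_lit 320) (.leaf p050_l169)))))))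
(.leaf p050_l170))
(.trX (nat_lit 23) (nat_lit 100) (nat_lit 80) (nat_lit 100) (nat_lit 336) (.spl (nat_lit 2) (nat_lit 80)
(.trX (nat_lit 23) (nat_lit 100) (nat_lit 95) (nat_lit 87) (nat_lit 300) (.spl (nat_lit 6) (nat_lit 16)
(.spl (nat_lit 5) (nat_lit 160)
(.leaf p050_l171)
(.spl (nat_lit 5) (nat_lit 240)
(.leaf p050_l172)
(.leaf p050_l173)))
(.leaf p050_l174)))
(.spl (nat_lit 5) (nat_lit 160)
(.leaf p050_l175)
(.spl (nat_lit 5) (nat_lit 240)
(.leaf p050_l176)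
(.leaf p050_l177))))))
(.trX (nat_lit 23) (nat_lit 87) (nat_lit 95) (nat_lit 100) (nat_lit 300) (.spl (nat_lit 2) (nat_lit 80)
(.trX (nat_lit 23) (nat_lit 83) (nat_lit 100) (nat_lit 83) (nat_lit 260) (.spl (nat_lit 5) (nat_lit 160)
(.leaf p050_l178)
(.leaf p050_l179)))
(.spl (nat_lit 5) (nat_lit 160)
(.leaf p050_l180)
(.spl (nat_lit 1) (nat_lit 265)
(.leaf p050_l181)
(.ord (.trX (nat_lit 16) (nat_lit 100) (nat_lit 71) (nat_lit 97) (nat_lit 348) (.leaf p050_l182))))))))) (by decide +kernel)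

end B2
end Pool.Agent.Lib.MP_6947cd_al
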