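import Pool.Agent.Lib.MP_6947cd_al.ZB.Pre

/-!
Problem MP_6947cd_al (Chollet).  Case B, second entry in [2/5, 17/20]: certificates of the tree, part P051 (generated).
-/

set_option autoImplicit false
set_option linter.all false

namespace Pool.Agent.Lib.MP_6947cd_al
namespace B2

open Ent Fr B1 PkA

noncomputable def p051_k0 : C1.Kn := ⟨[nat_lit 80, nat_lit 100, nat_lit 120], [nat_lit 0, nat_lit 399, nat_lit 897], [(nat_lit 0, nat_lit 0, nat_lit 0), (nat_lit 1000, nat_lit 938, nat_lit 310), (nat_lit 1000, nat_lit 938, nat_lit 389)], (nat_lit 95, nat_lit 100, nat_lit 48)⟩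
noncomputable def p051_k1 : C1.Kn := ⟨[nat_lit 40, nat_lit 70, nat_lit 90, nat_lit 120], [nat_lit 0, nat_lit 0, nat_lit 139, nat_lit 906], [(nat_lit 0, nat_lit 0, nat_lit 0), (nat_lit 0, nat_lit 0, nat_lit 0), (nat_lit 1000, nat_lit 967, nat_lit 109), (nat_lit 1000, nat_lit 938, nat_lit 398)], (nat_lit 95, nat_lit 100, nat_lit 48)⟩
noncomputable def p051_k2 : C1.Kn := ⟨[nat_lit 70, nat_lit 90, nat_lit 120], [nat_lit 0, nat_lit 139, nat_lit 906], [(nat_lit 0, nat_lit 0, nat_lit 0), (nat_lit 1000, nat_lit 967, nat_lit 109), (nat_lit 1000, nat_lit 938, nat_lit 398)], (nat_lit 95, nat_lit 100, nat_lit 48)⟩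
noncomputable def p051_k3 : C1.Kn := ⟨[nat_lit 70, nat_lit 90, nat_lit 120], [nat_lit 0, nat_lit 208, nat_lit 976], [(nat_lit 0, nat_lit 0, nat_lit 0), (nat_lit 1000, nat_lit 951, nat_lit 162), (nat_lit 1000, nat_lit 927, nat_lit 400)], (nat_lit 93, nat_lit 100, nat_lit 48)⟩
noncomputable def p051_k4 : C1.Kn := ⟨[nat_lit 80, nat_lit 100, nat_lit 140], [nat_lit 0, nat_lit 0, nat_lit 1022], [(nat_lit 0, nat_lit 0, nat_lit 0), (nat_lit 0, nat_lit 0, nat_lit 0), (nat_lit 1000, nat_lit 1000, nat_lit 399)], (nat_lit 100, nat_lit 98, nat_lit 48)⟩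
noncomputable def p051_k5 : C1.Kn := ⟨[nat_lit 80, nat_lit 100, nat_lit 120], [nat_lit 0, nat_lit 265, nat_lit 768], [(nat_lit 0, nat_lit 0, nat_lit 0), (nat_lit 1000, nat_lit 959, nat_lit 206), (nat_lit 1000, nat_lit 958, nat_lit 392)], (nat_lit 97, nat_lit 100, nat_lit 48)⟩
noncomputable def p051_k6 : C1.Kn := ⟨[nat_lit 80, nat_lit 140], [nat_lit 0, nat_lit 0], [(nat_lit 0, nat_lit 0, nat_lit 0), (nat_lit 0, nat_lit 0, nat_lit 0)], (nat_lit 100, nat_lit 98, nat_lit 48)⟩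
noncomputable def p051_k7 : C1.Kn := ⟨[nat_lit 80, nat_lit 100, nat_lit 120], [nat_lit 0, nat_lit 0, nat_lit 511], [(nat_lit 0, nat_lit 0, nat_lit 0), (nat_lit 0, nat_lit 0, nat_lit 0), (nat_lit 1000, nat_lit 997, nat_lit 383)], (nat_lit 100, nat_lit 100, nat_lit 40)⟩
noncomputable def p051_k8 : C1.Kn := ⟨[nat_lit 80, nat_lit 100, nat_lit 120], [nat_lit 0, nat_lit 265, nat_lit 768], [(nat_lit 0, nat_lit 0, nat_lit 0), (nat_lit 1000, nat_lit 959, nat_lit 206), (nat_lit 1000, nat_lit 958, nat_lit 392)], (nat_lit 96, nat_lit 100, nat_lit 39)⟩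
noncomputable def p051_k9 : C1.Kn := ⟨[nat_lit 80, nat_lit 100, nat_lit 120], [nat_lit 0, nat_lit 399, nat_lit 897], [(nat_lit 0, nat_lit 0, nat_lit 0), (nat_lit 1000, nat_lit 938, nat_lit 310), (nat_lit 1000, nat_lit 938, nat_lit 389)], (nat_lit 94, nat_lit 100, nat_lit 39)⟩
noncomputable def p051_k10 : C1.Kn := ⟨[nat_lit 80, nat_lit 100], [nat_lit 0, nat_lit 265], [(nat_lit 0, nat_lit 0, nat_lit 0), (nat_lit 1000, nat_lit 959, nat_lit 206)], (nat_lit 95, nat_lit 100, nat_lit 28)⟩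
noncomputable def p051_k11 : C1.Kn := ⟨[nat_lit 80, nat_lit 120], [nat_lit 0, nat_lit 264], [(nat_lit 0, nat_lit 0, nat_lit 0), (nat_lit 1000, nat_lit 979, nat_lit 103)], (nat_lit 97, nat_lit 100, nat_lit 28)⟩
noncomputable def p051_k12 : C1.Kn := ⟨[nat_lit 80, nat_lit 100, nat_lit 120], [nat_lit 0, nat_lit 0, nat_lit 511], [(nat_lit 0, nat_lit 0, nat_lit 0), (nat_lit 0, nat_lit 0, nat_lit 0), (nat_lit 1000, nat_lit 997, nat_lit 383)], (nat_lit 99, nat_lit 100, nat_lit 34)⟩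
noncomputable def p051_k13 : C1.Kn := ⟨[nat_lit 80, nat_lit 100, nat_lit 120], [nat_lit 0, nat_lit 265, nat_lit 768], [(nat_lit 0, nat_lit 0, nat_lit 0), (nat_lit 1000, nat_lit 959, nat_lit 206), (nat_lit 1000, nat_lit 958, nat_lit 392)], (nat_lit 95, nat_lit 100, nat_lit 34)⟩
noncomputable def p051_k14 : C1.Kn := ⟨[nat_lit 80, nat_lit 120], [nat_lit 0, nat_lit 528], [(nat_lit 0, nat_lit 0, nat_lit 0), (nat_lit 1000, nat_lit 959, nat_lit 206)], (nat_lit 97, nat_lit 100, nat_lit 48)⟩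
noncomputable def p051_k15 : C1.Kn := ⟨[nat_lit 80, nat_lit 100], [nat_lit 0, nat_lit 132], [(nat_lit 0, nat_lit 0, nat_lit 0), (nat_lit 1000, nat_lit 979, nat_lit 103)], (nat_lit 97, nat_lit 100, nat_lit 20)⟩
noncomputable def p051_k16 : C1.Kn := ⟨[nat_lit 80, nat_lit 100], [nat_lit 0, nat_lit 198], [(nat_lit 0, nat_lit 0, nat_lit 0), (nat_lit 1000, nat_lit 969, nat_lit 154)], (nat_lit 96, nat_lit 100, nat_lit 20)⟩
noncomputable def p051_k17 : C1.Kn := ⟨[nat_lit 80, nat_lit 100], [nat_lit 0, nat_lit 0], [(nat_lit 0, nat_lit 0, nat_lit 0), (nat_lit 0, nat_lit 0, nat_lit 0)], (nat_lit 98, nat_lit 100, nat_lit 20)⟩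
noncomputable def p051_k18 : C1.Kn := ⟨[nat_lit 80, nat_lit 120], [nat_lit 0, nat_lit 796], [(nat_lit 0, nat_lit 0, nat_lit 0), (nat_lit 1000, nat_lit 938, nat_lit 310)], (nat_lit 95, nat_lit 100, nat_lit 48)⟩
noncomputable def p051_k19 : C1.Kn := ⟨[nat_lit 80, nat_lit 100, nat_lit 120], [nat_lit 0, nat_lit 466, nat_lit 966], [(nat_lit 0, nat_lit 0, nat_lit 0), (nat_lit 1000, nat_lit 927, nat_lit 359), (nat_lit 1000, nat_lit 927, nat_lit 391)], (nat_lit 93, nat_lit 100, nat_lit 48)⟩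
noncomputable def p051_k20 : C1.Kn := ⟨[nat_lit 80, nat_lit 120], [nat_lit 0, nat_lit 929], [(nat_lit 0, nat_lit 0, nat_lit 0), (nat_lit 1000, nat_lit 927, nat_lit 362)], (nat_lit 93, nat_lit 100, nat_lit 48)⟩
noncomputable def p051_k21 : C1.Kn := ⟨[nat_lit 80, nat_lit 100, nat_lit 120], [nat_lit 0, nat_lit 506, nat_lit 1024], [(nat_lit 0, nat_lit 0, nat_lit 0), (nat_lit 1000, nat_lit 921, nat_lit 376), (nat_lit 1000, nat_lit 921, nat_lit 405)], (nat_lit 92, nat_lit 100, nat_lit 48)⟩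
noncomputable def p051_k22 : C1.Kn := ⟨[nat_lit 80, nat_lit 100, nat_lit 120], [nat_lit 0, nat_lit 520, nat_lit 1037], [(nat_lit 0, nat_lit 0, nat_lit 0), (nat_lit 1000, nat_lit 919, nat_lit 385), (nat_lit 1000, nat_lit 919, nat_lit 404)], (nat_lit 92, nat_lit 100, nat_lit 48)⟩
noncomputable def p051_k23 : C1.Kn := ⟨[nat_lit 80, nat_lit 100, nat_lit 120], [nat_lit 0, nat_lit 132, nat_lit 640], [(nat_lit 0, nat_lit 0, nat_lit 0), (nat_lit 1000, nat_lit 979, nat_lit 103), (nat_lit 1000, nat_lit 979, nat_lit 397)], (nat_lit 97, nat_lit 100, nat_lit 34)⟩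
noncomputable def p051_k24 : C1.Kn := ⟨[nat_lit 80, nat_lit 100], [nat_lit 0, nat_lit 399], [(nat_lit 0, nat_lit 0, nat_lit 0), (nat_lit 1000, nat_lit 938, nat_lit 310)], (nat_lit 94, nat_lit 100, nat_lit 34)⟩
noncomputable def p051_k25 : C1.Kn := ⟨[nat_lit 80, nat_lit 100], [nat_lit 0, nat_lit 332], [(nat_lit 0, nat_lit 0, nat_lit 0), (nat_lit 1000, nat_lit 948, nat_lit 259)], (nat_lit 95, nat_lit 100, nat_lit 20)⟩
noncomputable def p051_k26 : C1.Kn := ⟨[nat_lit 80, nat_lit 100], [nat_lit 0, nat_lit 332], [(nat_lit 0, nat_lit 0, nat_lit 0), (nat_lit 1000, nat_lit 948, nat_lit 259)], (nat_lit 95, nat_lit 100, nat_lit 28)⟩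
noncomputable def p051_k27 : C1.Kn := ⟨[nat_lit 80, nat_lit 100], [nat_lit 0, nat_lit 399], [(nat_lit 0, nat_lit 0, nat_lit 0), (nat_lit 1000, nat_lit 938, nat_lit 310)], (nat_lit 95, nat_lit 100, nat_lit 20)⟩
noncomputable def p051_k28 : C1.Kn := ⟨[nat_lit 80, nat_lit 100], [nat_lit 0, nat_lit 466], [(nat_lit 0, nat_lit 0, nat_lit 0), (nat_lit 1000, nat_lit 927, nat_lit 359)], (nat_lit 94, nat_lit 100, nat_lit 20)⟩
noncomputable def p051_k29 : C1.Kn := ⟨[nat_lit 80, nat_lit 100], [nat_lit 0, nat_lit 506], [(nat_lit 0, nat_lit 0, nat_lit 0), (nat_lit 1000, nat_lit 921, nat_lit 376)], (nat_lit 94, nat_lit 100, nat_lit 20)⟩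
noncomputable def p051_k30 : C1.Kn := ⟨[nat_lit 80, nat_lit 100], [nat_lit 0, nat_lit 399], [(nat_lit 0, nat_lit 0, nat_lit 0), (nat_lit 1000, nat_lit 938, nat_lit 310)], (nat_lit 94, nat_lit 100, nat_lit 28)⟩
noncomputable def p051_k31 : C1.Kn := ⟨[nat_lit 80, nat_lit 100], [nat_lit 0, nat_lit 466], [(nat_lit 0, nat_lit 0, nat_lit 0), (nat_lit 1000, nat_lit 927, nat_lit 359)], (nat_lit 93, nat_lit 100, nat_lit 28)⟩
noncomputable def p051_k32 : C1.Kn := ⟨[nat_lit 40, nat_lit 80, nat_lit 100, nat_lit 120], [nat_lit 0, nat_lit 0, nat_lit 265, nat_lit 768], [(nat_lit 0, nat_lit 0, nat_lit 0), (nat_lit 0, nat_lit 0, nat_lit 0), (nat_lit 1000, nat_lit 959, nat_lit 206), (nat_lit 1000, nat_lit 958, nat_lit 392)], (nat_lit 95, nat_lit 100, nat_lit 34)⟩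
noncomputable def p051_k33 : C1.Kn := ⟨[nat_lit 80, nat_lit 100], [nat_lit 0, nat_lit 265], [(nat_lit 0, nat_lit 0, nat_lit 0), (nat_lit 1000, nat_lit 959, nat_lit 206)], (nat_lit 96, nat_lit 100, nat_lit 20)⟩
noncomputable def p051_k34 : C1.Kn := ⟨[nat_lit 80, nat_lit 100], [nat_lit 0, nat_lit 65], [(nat_lit 0, nat_lit 0, nat_lit 0), (nat_lit 1000, nat_lit 990, nat_lit 51)], (nat_lit 97, nat_lit 100, nat_lit 20)⟩
noncomputable def p051_k35 : C1.Kn := ⟨[nat_lit 80, nat_lit 100, nat_lit 120], [nat_lit 0, nat_lit 0, nat_lit 511], [(nat_lit 0, nat_lit 0, nat_lit 0), (nat_lit 0, nat_lit 0, nat_lit 0), (nat_lit 1000, nat_lit 997, nat_lit 383)], (nat_lit 98, nat_lit 100, nat_lit 28)⟩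
noncomputable def p051_k36 : C1.Kn := ⟨[nat_lit 80, nat_lit 120], [nat_lit 0, nat_lit 528], [(nat_lit 0, nat_lit 0, nat_lit 0), (nat_lit 1000, nat_lit 959, nat_lit 206)], (nat_lit 95, nat_lit 100, nat_lit 34)⟩
noncomputable def p051_k37 : C1.Kn := ⟨[nat_lit 80, nat_lit 120], [nat_lit 0, nat_lit 0], [(nat_lit 0, nat_lit 0, nat_lit 0), (nat_lit 0, nat_lit 0, nat_lit 0)], (nat_lit 99, nat_lit 100, nat_lit 34)⟩
noncomputable def p051_k38 : C1.Kn := ⟨[nat_lit 70, nat_lit 80, nat_lit 100], [nat_lit 0, nat_lit 70, nat_lit 335], [(nat_lit 0, nat_lit 0, nat_lit 0), (nat_lit 1000, nat_lit 967, nat_lit 109), (nat_lit 1000, nat_lit 948, nat_lit 207)], (nat_lit 94, nat_lit 100, nat_lit 34)⟩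
noncomputable def p051_l0 : Lf2 := ⟨nat_lit 0, nat_lit 6, [nat_lit 47, nat_lit 5, nat_lit 5, nat_lit 20], false, nat_lit 240, nat_lit 280, nat_lit 0, nat_lit 160, ⟨nat_lit 1000, nat_lit 0, nat_lit 0, nat_lit 0, nat_lit 0, nat_lit 0, nat_lit 0, nat_lit 0, nat_lit 0, nat_lit 0, nat_lit 0, nat_lit 0, nat_lit 0, nat_lit 0, nat_lit 0, nat_lit 0, false, false⟩,
 nat_lit 0, nat_lit 0, nat_lit 15359, nat_lit 0, nat_lit 6759, nat_lit 9353, nat_lit 0, nat_lit 0, nat_lit 0, nat_lit 3305, nat_lit 0, nat_lit 0, nat_lit 0, nat_lit 0, nat_lit 0, nat_lit 0, nat_lit 0, nat_lit 0, [],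
 ⟨p051_k0, nat_lit 0, nat_lit 0, nat_lit 59, nat_lit 0, nat_lit 0, [nat_lit 4688000000, nat_lit 6250000000, nat_lit 7968000000], [], [nat_lit 16668830308, nat_lit 17494910056, nat_lit 15773768592, nat_lit 16574222420, nat_lit 19899267106, nat_lit 20629103501, nat_lit 18904984262, nat_lit 19613092646], nat_lit 0, nat_lit 0, nat_lit 0, nat_lit 0, nat_lit 0, nat_lit 0, [], [nat_lit 9, nat_lit 40, nat_lit 40, nat_lit 80, nat_lit 2, nat_lit 226, nat_lit 20, nat_lit 7]⟩, ⟨p051_k0, nat_lit 0, nat_lit 0, nat_lit 275, nat_lit 0, nat_lit 236458, [nat_lit 4688000000, nat_lit 6250000000, nat_lit 7968000000], [], [nat_lit 19899765988, nat_lit 21613825640, nat_lit 17034611555, nat_lit 18719368712, nat_lit 16337356261, nat_lit 14109510943, nat_lit 17974687053, nat_lit 15771092194], nat_lit 1271250, nat_lit 1271250, nat_lit 279600, nat_lit 490000, nat_lit 0, nat_lit 1100001, [nat_lit 1100000, nat_lit 1442500, nat_lit 1271250],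 [nat_lit 9, nat_lit 40, nat_lit 40, nat_lit 80, nat_lit 2, nat_lit 272, nat_lit 60, nat_lit 9]⟩,
 zbF0, [⟨nat_lit 0, nat_lit 100, nat_lit 100, nat_lit 75, nat_lit 554549182⟩]⟩
noncomputable def p051_l1 : Lf2 := ⟨nat_lit 0, nat_lit 6, [nat_lit 47, nat_lit 5, nat_lit 5, nat_lit 20], false, nat_lit 240, nat_lit 280, nat_lit 160, nat_lit 312, ⟨nat_lit 1000, nat_lit 0, nat_lit 0, nat_lit 0, nat_lit 0, nat_lit 0, nat_lit 0, nat_lit 0, nat_lit 0, nat_lit 0, nat_lit 0, nat_lit 0, nat_lit 0, nat_lit 0, nat_lit 0, nat_lit 0, false, false⟩,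
 nat_lit 0, nat_lit 0, nat_lit 12584, nat_lit 0, nat_lit 6869, nat_lit 7663, nat_lit 0, nat_lit 0, nat_lit 0, nat_lit 2148, nat_lit 0, nat_lit 0, nat_lit 0, nat_lit 0, nat_lit 0, nat_lit 0, nat_lit 0, nat_lit 0, [],
 ⟨p051_k0, nat_lit 0, nat_lit 0, nat_lit 59, nat_lit 0, nat_lit 0, [nat_lit 4688000000, nat_lit 6250000000, nat_lit 7968000000], [], [nat_lit 16577541396, nat_lit 17411538064, nat_lit 16232619724, nat_lit 17056887872, nat_lit 19838884817, nat_lit 20701961746, nat_lit 19456294922, nat_lit 20184494130], nat_lit 0, nat_lit 0, nat_lit 0, nat_lit 0, nat_lit 0, nat_lit 0, [], [nat_lit 9, nat_lit 40, nat_lit 40, nat_lit 80, nat_lit 2, nat_lit 226, nat_lit 20, nat_lit 7]⟩, ⟨p051_k0, nat_lit 0, nat_lit 0, nat_lit 185, nat_lit 0, nat_lit 236458, [nat_lit 4688000000, nat_lit 6250000000, nat_lit 7968000000], [], [nat_lit 25385135394, nat_lit 23395690323, nat_lit 23017323567, nat_lit 21036752250, nat_lit 23620569444,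 nat_lit 24441146908, nat_lit 23147395433, nat_lit 23805257846], nat_lit 1271250, nat_lit 1271250, nat_lit 279600, nat_lit 356250, nat_lit 1100001, nat_lit 2401500, [nat_lit 1100000, nat_lit 1442500, nat_lit 1271250], [nat_lit 9, nat_lit 40, nat_lit 40, nat_lit 80, nat_lit 2, nat_lit 317, nat_lit 100, nat_lit 10]⟩,
 zbF0, [⟨nat_lit 0, nat_lit 100, nat_lit 100, nat_lit 75, nat_lit 900617553⟩, ⟨nat_lit 11, nat_lit 100, nat_lit 100, nat_lit 73, nat_lit 231512148⟩]⟩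
noncomputable def p051_l2 : Lf2 := ⟨nat_lit 0, nat_lit 6, [nat_lit 47, nat_lit 5, nat_lit 5, nat_lit 20], false, nat_lit 240, nat_lit 280, nat_lit 160, nat_lit 336, ⟨nat_lit 519, nat_lit 481, nat_lit 0, nat_lit 6, nat_lit 133, nat_lit 481, nat_lit 203, nat_lit 0, nat_lit 0, nat_lit 0, nat_lit 0, nat_lit 0, nat_lit 46890685, nat_lit 6871523, nat_lit 13237792, nat_lit 4299861, false, false⟩,
 nat_lit 0, nat_lit 0, nat_lit 6162, nat_lit 0, nat_lit 6033, nat_lit 3752, nat_lit 0, nat_lit 0, nat_lit 0, nat_lit 753, nat_lit 0, nat_lit 0, nat_lit 0, nat_lit 0, nat_lit 0, nat_lit 192400, nat_lit 0, nat_lit 0, [(nat_lit 9, [(nat_lit 1, nat_lit 481)])],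
 ⟨p051_k0, nat_lit 0, nat_lit 0, nat_lit 50, nat_lit 0, nat_lit 0, [nat_lit 3733080320, nat_lit 4620756800, nat_lit 5572965800], [], [nat_lit 16041974588, nat_lit 16806977024, nat_lit 15584569824, nat_lit 16334862860, nat_lit 19034257735, nat_lit 19713135430, nat_lit 18519903071, nat_lit 19186124522], nat_lit 0, nat_lit 0, nat_lit 0, nat_lit 0, nat_lit 0, nat_lit 0, [], [nat_lit 9, nat_lit 40, nat_lit 40, nat_lit 80, nat_lit 2, nat_lit 226, nat_lit 20, nat_lit 7]⟩, ⟨p051_k0, nat_lit 0, nat_lit 0, nat_lit 188, nat_lit 0, nat_lit 236458, [nat_lit 2433072000, nat_lit 3243750000, nat_lit 4135392000], [], [nat_lit 12132774396, nat_lit 11163036228, nat_lit 10200539420, nat_lit 9238042612, nat_lit 14104871320, nat_lit 13531489261, nat_lit 14600977760, nat_lit 13709632379], nat_lit 1271250, nat_lit 1271250, nat_lit 356250, nat_lit 490000, nat_lit 1100001, nat_lit 2607000, [nat_lit 1100000, nat_lit 1442500, nat_lit 1271250],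 [nat_lit 9, nat_lit 40, nat_lit 40, nat_lit 80, nat_lit 2, nat_lit 345, nat_lit 125, nat_lit 11]⟩,
 ⟨nat_lit 5477, nat_lit 5701, ⟨.ofNat (nat_lit 306179), .ofNat (nat_lit 344538), .ofNat (nat_lit 316850), .ofNat (nat_lit 355209), .ofNat (nat_lit 312483), .ofNat (nat_lit 349949), .ofNat (nat_lit 323161), .ofNat (nat_lit 360628)⟩, ⟨.ofNat (nat_lit 448666), .ofNat (nat_lit 525385), .ofNat (nat_lit 491350), .ofNat (nat_lit 568068), .ofNat (nat_lit 446789), .ofNat (nat_lit 521722), .ofNat (nat_lit 489503), .ofNat (nat_lit 564436)⟩⟩, [⟨nat_lit 11, nat_lit 100, nat_lit 100, nat_lit 84, nat_lit 207949900⟩]⟩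
noncomputable def p051_l3 : Lf2 := ⟨nat_lit 0, nat_lit 6, [nat_lit 47, nat_lit 5, nat_lit 5, nat_lit 20], true, nat_lit 240, nat_lit 280, nat_lit 0, nat_lit 344, ⟨nat_lit 0, nat_lit 1000, nat_lit 0, nat_lit 6, nat_lit 156, nat_lit 1000, nat_lit 203, nat_lit 0, nat_lit 0, nat_lit 0, nat_lit 0, nat_lit 0, nat_lit 45337934, nat_lit 8635160, nat_lit 13026906, nat_lit 4545990, false, false⟩,
 nat_lit 0, nat_lit 0, nat_lit 0, nat_lit 2460, nat_lit 5644, nat_lit 0, nat_lit 0, nat_lit 0, nat_lit 0, nat_lit 0, nat_lit 0, nat_lit 0, nat_lit 0, nat_lit 13912865420747, nat_lit 0, nat_lit 250000, nat_lit 0, nat_lit 0, [(nat_lit 9, [(nat_lit 0, nat_lit 1000)])],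
 ⟨p051_k0, nat_lit 0, nat_lit 0, nat_lit 35, nat_lit 0, nat_lit 0, [nat_lit 3116800000, nat_lit 2996800000, nat_lit 3375200000], [], [nat_lit 15378572472, nat_lit 16101988720, nat_lit 15423063636, nat_lit 16109233376, nat_lit 18208949434, nat_lit 18852727336, nat_lit 18110960548, nat_lit 18722402088], nat_lit 0, nat_lit 0, nat_lit 0, nat_lit 0, nat_lit 0, nat_lit 0, [], [nat_lit 9, nat_lit 40, nat_lit 40, nat_lit 80, nat_lit 2, nat_lit 238, nat_lit 30, nat_lit 7]⟩, C1.Rw.none,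
 ⟨nat_lit 5477, nat_lit 5701, ⟨.ofNat (nat_lit 344538), .ofNat (nat_lit 421257), .ofNat (nat_lit 355209), .ofNat (nat_lit 431928), .ofNat (nat_lit 349949), .ofNat (nat_lit 424882), .ofNat (nat_lit 360628), .ofNat (nat_lit 435561)⟩, ⟨.ofNat (nat_lit 448666), .ofNat (nat_lit 525385), .ofNat (nat_lit 491350), .ofNat (nat_lit 568068), .ofNat (nat_lit 446789), .ofNat (nat_lit 521722), .ofNat (nat_lit 489503), .ofNat (nat_lit 564436)⟩⟩, []⟩
noncomputable def p051_l4 : Lf2 := ⟨nat_lit 0, nat_lit 6, [nat_lit 47, nat_lit 5, nat_lit 5, nat_lit 20], true, nat_lit 280, nat_lit 344, nat_lit 0, nat_lit 336, ⟨nat_lit 0, nat_lit 1000, nat_lit 0, nat_lit 6, nat_lit 144, nat_lit 1000, nat_lit 242, nat_lit 0, nat_lit 0, nat_lit 0, nat_lit 0, nat_lit 0, nat_lit 42807029, nat_lit 7384961, nat_lit 16808010, nat_lit 4694500, false, false⟩,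
 nat_lit 0, nat_lit 0, nat_lit 0, nat_lit 2460, nat_lit 0, nat_lit 0, nat_lit 0, nat_lit 0, nat_lit 392, nat_lit 0, nat_lit 0, nat_lit 0, nat_lit 0, nat_lit 8266884517855, nat_lit 0, nat_lit 250000, nat_lit 0, nat_lit 0, [(nat_lit 9, [(nat_lit 0, nat_lit 1000)])],
 ⟨p051_k0, nat_lit 0, nat_lit 0, nat_lit 0, nat_lit 0, nat_lit 0, [nat_lit 3116800000, nat_lit 2996800000, nat_lit 3375200000], [], [nat_lit 15766284301, nat_lit 16090002800, nat_lit 17232922000, nat_lit 17573314000, nat_lit 18122876700, nat_lit 18447131600, nat_lit 19515937000, nat_lit 19827970800], nat_lit 0, nat_lit 0, nat_lit 0, nat_lit 0, nat_lit 0, nat_lit 0, [], [nat_lit 9, nat_lit 40, nat_lit 40, nat_lit 80]⟩, C1.Rw.none,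
 ⟨nat_lit 5477, nat_lit 5701, ⟨.ofNat (nat_lit 283163), .ofNat (nat_lit 421257), .ofNat (nat_lit 293834), .ofNat (nat_lit 431928), .ofNat (nat_lit 290003), .ofNat (nat_lit 424882), .ofNat (nat_lit 300681), .ofNat (nat_lit 435561)⟩, ⟨.ofNat (nat_lit 525385), .ofNat (nat_lit 648133), .ofNat (nat_lit 568068), .ofNat (nat_lit 690813), .ofNat (nat_lit 521722), .ofNat (nat_lit 641613), .ofNat (nat_lit 564436), .ofNat (nat_lit 684323)⟩⟩, [⟨nat_lit 0, nat_lit 100, nat_lit 100, nat_lit 80, nat_lit 4457429⟩]⟩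
noncomputable def p051_l5 : Lf2 := ⟨nat_lit 0, nat_lit 6, [nat_lit 47, nat_lit 5, nat_lit 5, nat_lit 20], false, nat_lit 280, nat_lit 344, nat_lit 0, nat_lit 276, ⟨nat_lit 1000, nat_lit 0, nat_lit 0, nat_lit 0, nat_lit 0, nat_lit 0, nat_lit 0, nat_lit 0, nat_lit 0, nat_lit 0, nat_lit 0, nat_lit 0, nat_lit 0, nat_lit 0, nat_lit 0, nat_lit 0, false, false⟩,
 nat_lit 0, nat_lit 0, nat_lit 12806, nat_lit 3329, nat_lit 6903, nat_lit 7798, nat_lit 0, nat_lit 0, nat_lit 0, nat_lit 2069, nat_lit 0, nat_lit 0, nat_lit 0, nat_lit 11480875801404, nat_lit 0, nat_lit 0, nat_lit 0, nat_lit 0, [],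
 ⟨p051_k1, nat_lit 0, nat_lit 0, nat_lit 0, nat_lit 0, nat_lit 0, [nat_lit 2032000001, nat_lit 3965500000, nat_lit 5449500000, nat_lit 7968000000], [], [nat_lit 20835622411, nat_lit 21546902400, nat_lit 20364787825, nat_lit 21068922372, nat_lit 26408425863, nat_lit 27059902546, nat_lit 25877796327, nat_lit 26431387446], nat_lit 0, nat_lit 0, nat_lit 0, nat_lit 0, nat_lit 0, nat_lit 0, [], [nat_lit 138, nat_lit 40, nat_lit 20, nat_lit 40]⟩, ⟨p051_k1, nat_lit 0, nat_lit 0, nat_lit 0, nat_lit 0, nat_lit 236458, [nat_lit 2032000000, nat_lit 3965500000, nat_lit 5449500000, nat_lit 7968000000], [], [nat_lit 18372944134, nat_lit 19323976861, nat_lit 17846123383, nat_lit 18701559619, nat_lit 19622856779, nat_lit 20577067040, nat_lit 19104891047, nat_lit 19846918402], nat_lit 1271250, nat_lit 1271250, nat_lit 279600, nat_lit 356250, nat_lit 0, nat_lit 1949250, [nat_lit 490000, nat_lit 936250, nat_lit 1271250, nat_lit 1271250],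 [nat_lit 138, nat_lit 40, nat_lit 20, nat_lit 40]⟩,
 zbF0, [⟨nat_lit 0, nat_lit 100, nat_lit 100, nat_lit 75, nat_lit 109467283⟩, ⟨nat_lit 0, nat_lit 100, nat_lit 100, nat_lit 70, nat_lit 715708166⟩, ⟨nat_lit 16, nat_lit 100, nat_lit 74, nat_lit 98, nat_lit 464520551⟩, ⟨nat_lit 23, nat_lit 84, nat_lit 100, nat_lit 69, nat_lit 340686809⟩]⟩
noncomputable def p051_l6 : Lf2 := ⟨nat_lit 0, nat_lit 6, [nat_lit 47, nat_lit 5, nat_lit 5, nat_lit 20], false, nat_lit 280, nat_lit 344, nat_lit 0, nat_lit 300, ⟨nat_lit 1000, nat_lit 0, nat_lit 0, nat_lit 0, nat_lit 0, nat_lit 0, nat_lit 0, nat_lit 0, nat_lit 0, nat_lit 0, nat_lit 0, nat_lit 0, nat_lit 0, nat_lit 0, nat_lit 0, nat_lit 0, false, false⟩,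
 nat_lit 0, nat_lit 0, nat_lit 12001, nat_lit 2112, nat_lit 5359, nat_lit 7308, nat_lit 0, nat_lit 0, nat_lit 0, nat_lit 2120, nat_lit 0, nat_lit 0, nat_lit 0, nat_lit 5025501595320, nat_lit 0, nat_lit 0, nat_lit 0, nat_lit 0, [],
 ⟨p051_k1, nat_lit 0, nat_lit 0, nat_lit 0, nat_lit 0, nat_lit 0, [nat_lit 2032000001, nat_lit 3965500000, nat_lit 5449500000, nat_lit 7968000000], [], [nat_lit 19022202219, nat_lit 19685375904, nat_lit 18730564748, nat_lit 19380624260, nat_lit 24110775333, nat_lit 24641147072, nat_lit 23714650424, nat_lit 24235536650], nat_lit 0, nat_lit 0, nat_lit 0, nat_lit 0, nat_lit 0, nat_lit 0, [], [nat_lit 138, nat_lit 40, nat_lit 20, nat_lit 40]⟩, ⟨p051_k1, nat_lit 0, nat_lit 0, nat_lit 0, nat_lit 0, nat_lit 236458, [nat_lit 2032000000, nat_lit 3965500000, nat_lit 5449500000, nat_lit 7968000000], [], [nat_lit 18129814968, nat_lit 18952332024, nat_lit 17642295712, nat_lit 18446856408, nat_lit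 21497016380, nat_lit 22038877440, nat_lit 22504125052, nat_lit 21525146504], nat_lit 1271250, nat_lit 1271250, nat_lit 356250, nat_lit 490000, nat_lit 0, nat_lit 2118750, [nat_lit 490000, nat_lit 936250, nat_lit 1271250, nat_lit 1271250], [nat_lit 138, nat_lit 40, nat_lit 20, nat_lit 40]⟩,
 zbF0, [⟨nat_lit 0, nat_lit 100, nat_lit 100, nat_lit 80, nat_lit 192701351⟩, ⟨nat_lit 16, nat_lit 100, nat_lit 74, nat_lit 98, nat_lit 384632489⟩, ⟨nat_lit 23, nat_lit 86, nat_lit 100, nat_lit 79, nat_lit 341578910⟩]⟩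
noncomputable def p051_l7 : Lf2 := ⟨nat_lit 0, nat_lit 6, [nat_lit 47, nat_lit 5, nat_lit 5, nat_lit 20], false, nat_lit 280, nat_lit 344, nat_lit 0, nat_lit 320, ⟨nat_lit 1000, nat_lit 0, nat_lit 0, nat_lit 0, nat_lit 0, nat_lit 0, nat_lit 0, nat_lit 0, nat_lit 0, nat_lit 0, nat_lit 0, nat_lit 0, nat_lit 0, nat_lit 0, nat_lit 0, nat_lit 0, false, false⟩,
 nat_lit 0, nat_lit 0, nat_lit 11232, nat_lit 1187, nat_lit 5480, nat_lit 6840, nat_lit 0, nat_lit 0, nat_lit 0, nat_lit 1844, nat_lit 0, nat_lit 0, nat_lit 0, nat_lit 104983723114, nat_lit 0, nat_lit 0, nat_lit 0, nat_lit 0, [],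
 ⟨p051_k1, nat_lit 0, nat_lit 0, nat_lit 0, nat_lit 0, nat_lit 0, [nat_lit 2032000001, nat_lit 3965500000, nat_lit 5449500000, nat_lit 7968000000], [], [nat_lit 18634874560, nat_lit 19292311200, nat_lit 18526094440, nat_lit 19168084160, nat_lit 23682380304, nat_lit 24208303712, nat_lit 23454366560, nat_lit 23968819361], nat_lit 0, nat_lit 0, nat_lit 0, nat_lit 0, nat_lit 0, nat_lit 0, [], [nat_lit 138, nat_lit 40, nat_lit 20, nat_lit 40]⟩, ⟨p051_k1, nat_lit 0, nat_lit 0, nat_lit 0, nat_lit 0, nat_lit 236458, [nat_lit 2032000000, nat_lit 3965500000, nat_lit 5449500000, nat_lit 7968000000], [], [nat_lit 17463976880, nat_lit 18424987160, nat_lit 17188740600, nat_lit 18127247000, nat_lit 22428437760, nat_lit 22943698420, nat_lit 22041524280, nat_lit 22588822260], nat_lit 1271250, nat_lit 1271250, nat_lit 490000, nat_lit 631250, nat_lit 0, nat_lit 2260000, [nat_lit 490000, nat_lit 936250, nat_lit 1271250, nat_lit 1271250],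 [nat_lit 138, nat_lit 40, nat_lit 20, nat_lit 40]⟩,
 zbF0, [⟨nat_lit 16, nat_lit 100, nat_lit 74, nat_lit 98, nat_lit 366471438⟩, ⟨nat_lit 23, nat_lit 90, nat_lit 100, nat_lit 90, nat_lit 316164929⟩]⟩
noncomputable def p051_l8 : Lf2 := ⟨nat_lit 0, nat_lit 6, [nat_lit 47, nat_lit 5, nat_lit 5, nat_lit 20], false, nat_lit 280, nat_lit 344, nat_lit 0, nat_lit 160, ⟨nat_lit 1000, nat_lit 0, nat_lit 0, nat_lit 0, nat_lit 0, nat_lit 0, nat_lit 0, nat_lit 0, nat_lit 0, nat_lit 0, nat_lit 0, nat_lit 0, nat_lit 0, nat_lit 0, nat_lit 0, nat_lit 0, false, false⟩,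
 nat_lit 0, nat_lit 0, nat_lit 14582, nat_lit 8925, nat_lit 6311, nat_lit 8880, nat_lit 0, nat_lit 0, nat_lit 0, nat_lit 5373, nat_lit 0, nat_lit 0, nat_lit 0, nat_lit 0, nat_lit 0, nat_lit 0, nat_lit 0, nat_lit 0, [],
 ⟨p051_k0, nat_lit 0, nat_lit 0, nat_lit 0, nat_lit 0, nat_lit 0, [nat_lit 4688000000, nat_lit 6250000000, nat_lit 7968000000], [], [nat_lit 19150995223, nat_lit 19815658628, nat_lit 19045370312, nat_lit 19692436322, nat_lit 24202135130, nat_lit 24730715037, nat_lit 23965453775, nat_lit 24480752179], nat_lit 0, nat_lit 0, nat_lit 0, nat_lit 0, nat_lit 0, nat_lit 0, [], [nat_lit 9, nat_lit 40, nat_lit 40, nat_lit 80]⟩, ⟨p051_k0, nat_lit 0, nat_lit 0, nat_lit 0, nat_lit 0, nat_lit 416158, [nat_lit 4688000000, nat_lit 6250000000, nat_lit 7968000000], [], [nat_lit 16108478320, nat_lit 17695831520, nat_lit 15602101840, nat_lit 17154803520, nat_lit 15088832360, nat_lit 13010553730, nat_lit 16824988850,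 nat_lit 14760823970], nat_lit 1271250, nat_lit 1271250, nat_lit 631250, nat_lit 780000, nat_lit 0, nat_lit 1100001, [nat_lit 1100000, nat_lit 1442500, nat_lit 1271250], [nat_lit 9, nat_lit 40, nat_lit 40, nat_lit 80]⟩,
 zbF0, [⟨nat_lit 16, nat_lit 100, nat_lit 85, nat_lit 93, nat_lit 692034978⟩]⟩
noncomputable def p051_l9 : Lf2 := ⟨nat_lit 0, nat_lit 6, [nat_lit 47, nat_lit 5, nat_lit 5, nat_lit 20], false, nat_lit 280, nat_lit 344, nat_lit 160, nat_lit 336, ⟨nat_lit 697, nat_lit 303, nat_lit 0, nat_lit 6, nat_lit 163, nat_lit 303, nat_lit 242, nat_lit 0, nat_lit 0, nat_lit 0, nat_lit 0, nat_lit 0, nat_lit 41686116, nat_lit 8782331, nat_lit 16531553, nat_lit 4873756, false, false⟩,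
 nat_lit 0, nat_lit 0, nat_lit 8232, nat_lit 0, nat_lit 5774, nat_lit 5013, nat_lit 0, nat_lit 0, nat_lit 0, nat_lit 1120, nat_lit 0, nat_lit 0, nat_lit 0, nat_lit 0, nat_lit 0, nat_lit 121200, nat_lit 0, nat_lit 0, [(nat_lit 9, [(nat_lit 1, nat_lit 303)])],
 ⟨p051_k2, nat_lit 0, nat_lit 0, nat_lit 0, nat_lit 0, nat_lit 0, [nat_lit 3480512141, nat_lit 4647549901, nat_lit 6457484400], [], [nat_lit 17780035463, nat_lit 18439361296, nat_lit 17823556309, nat_lit 18464841693, nat_lit 23514181836, nat_lit 24105620719, nat_lit 23349816523, nat_lit 23927004116], nat_lit 0, nat_lit 0, nat_lit 0, nat_lit 0, nat_lit 0, nat_lit 0, [], [nat_lit 175, nat_lit 40, nat_lit 20, nat_lit 40]⟩, ⟨p051_k2, nat_lit 0, nat_lit 0, nat_lit 0, nat_lit 0, nat_lit 368573, [nat_lit 2763953500, nat_lit 3798301500, nat_lit 5553696000], [], [nat_lit 15298954174, nat_lit 14651159275, nat_lit 12726538237, nat_lit 12083548299, nat_lit 17289568126,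 nat_lit 16770174324, nat_lit 18304972869, nat_lit 17709559809], nat_lit 1271250, nat_lit 1271250, nat_lit 631250, nat_lit 780000, nat_lit 1100001, nat_lit 2607000, [nat_lit 936250, nat_lit 1271250, nat_lit 1271250], [nat_lit 175, nat_lit 40, nat_lit 20, nat_lit 40]⟩,
 ⟨nat_lit 5477, nat_lit 5701, ⟨.ofNat (nat_lit 382898), .ofNat (nat_lit 421257), .ofNat (nat_lit 388233), .ofNat (nat_lit 426593), .ofNat (nat_lit 387416), .ofNat (nat_lit 424882), .ofNat (nat_lit 392755), .ofNat (nat_lit 430221)⟩, ⟨.ofNat (nat_lit 525385), .ofNat (nat_lit 648133), .ofNat (nat_lit 568068), .ofNat (nat_lit 690813), .ofNat (nat_lit 521722), .ofNat (nat_lit 641613), .ofNat (nat_lit 564436), .ofNat (nat_lit 684323)⟩⟩, [⟨nat_lit 4, nat_lit 85, nat_lit 100, nat_lit 93, nat_lit 403671928⟩, ⟨nat_lit 23, nat_lit 93, nat_lit 98, nat_lit 100, nat_lit 232028075⟩]⟩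
noncomputable def p051_l10 : Lf2 := ⟨nat_lit 0, nat_lit 6, [nat_lit 47, nat_lit 5, nat_lit 5, nat_lit 20], false, nat_lit 280, nat_lit 340, nat_lit 160, nat_lit 336, ⟨nat_lit 1000, nat_lit 0, nat_lit 0, nat_lit 0, nat_lit 0, nat_lit 0, nat_lit 0, nat_lit 0, nat_lit 0, nat_lit 0, nat_lit 0, nat_lit 0, nat_lit 0, nat_lit 0, nat_lit 0, nat_lit 0, false, false⟩,
 nat_lit 0, nat_lit 0, nat_lit 10604, nat_lit 0, nat_lit 6230, nat_lit 6602, nat_lit 0, nat_lit 0, nat_lit 0, nat_lit 2243, nat_lit 0, nat_lit 0, nat_lit 0, nat_lit 0, nat_lit 0, nat_lit 0, nat_lit 0, nat_lit 0, [],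
 ⟨p051_k3, nat_lit 0, nat_lit 0, nat_lit 0, nat_lit 0, nat_lit 0, [nat_lit 3965500000, nat_lit 5449500000, nat_lit 7968000000], [], [nat_lit 18203174925, nat_lit 18546253160, nat_lit 18205284700, nat_lit 18538813040, nat_lit 23773479810, nat_lit 24085443440, nat_lit 23565120070, nat_lit 23869369680], nat_lit 0, nat_lit 0, nat_lit 0, nat_lit 0, nat_lit 0, nat_lit 0, [], [nat_lit 175, nat_lit 40, nat_lit 20, nat_lit 40]⟩, ⟨p051_k3, nat_lit 0, nat_lit 0, nat_lit 0, nat_lit 0, nat_lit 403202, [nat_lit 3965500000, nat_lit 5449500000, nat_lit 7968000000], [], [nat_lit 21587460494, nat_lit 20734330248, nat_lit 18205978813, nat_lit 17359176584, nat_lit 23983249920, nat_lit 23968440530, nat_lit 25374749530, nat_lit 24590604903], nat_lit 1271250, nat_lit 1271250, nat_lit 631250, nat_lit 780000, nat_lit 1100001, nat_lit 2607000, [nat_lit 936250, nat_lit 1271250, nat_lit 1271250], [nat_lit 175, nat_lit 40, nat_lit 20, nat_lit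 40]⟩,
 zbF0, [⟨nat_lit 4, nat_lit 86, nat_lit 100, nat_lit 94, nat_lit 416737280⟩, ⟨nat_lit 23, nat_lit 94, nat_lit 97, nat_lit 100, nat_lit 338716249⟩]⟩
noncomputable def p051_l11 : Lf2 := ⟨nat_lit 0, nat_lit 6, [nat_lit 47, nat_lit 5, nat_lit 5, nat_lit 20], false, nat_lit 280, nat_lit 344, nat_lit 0, nat_lit 336, ⟨nat_lit 0, nat_lit 1000, nat_lit 0, nat_lit 6, nat_lit 144, nat_lit 1000, nat_lit 242, nat_lit 0, nat_lit 0, nat_lit 0, nat_lit 0, nat_lit 0, nat_lit 42807029, nat_lit 7384961, nat_lit 16808010, nat_lit 4694500, false, false⟩,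
 nat_lit 0, nat_lit 0, nat_lit 11952, nat_lit 0, nat_lit 5386, nat_lit 7279, nat_lit 0, nat_lit 0, nat_lit 0, nat_lit 3953, nat_lit 348, nat_lit 0, nat_lit 0, nat_lit 0, nat_lit 0, nat_lit 400000, nat_lit 0, nat_lit 0, [(nat_lit 9, [(nat_lit 1, nat_lit 1000)])],
 ⟨p051_k0, nat_lit 0, nat_lit 0, nat_lit 0, nat_lit 0, nat_lit 0, [nat_lit 2702720000, nat_lit 2862800001, nat_lit 3030799999], [], [nat_lit 18948312753, nat_lit 19705767767, nat_lit 17943195212, nat_lit 18540856972, nat_lit 24690724742, nat_lit 25287692427, nat_lit 23157413755, nat_lit 23717143232], nat_lit 0, nat_lit 0, nat_lit 0, nat_lit 0, nat_lit 0, nat_lit 0, [], [nat_lit 9, nat_lit 40, nat_lit 40, nat_lit 80]⟩, ⟨p051_k0, nat_lit 0, nat_lit 0, nat_lit 373, nat_lit 0, nat_lit 416158, [nat_lit 5568000000, nat_lit 6960000000, nat_lit 8352000000], [], [nat_lit 12913109903, nat_lit 11023357760, nat_lit 568231336, nat_lit 1173873252, nat_lit 4119162204,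 nat_lit 2730609107, nat_lit 6775439633, nat_lit 5138050014], nat_lit 1271250, nat_lit 1271250, nat_lit 279600, nat_lit 780000, nat_lit 0, nat_lit 2373000, [nat_lit 1100000, nat_lit 1442500, nat_lit 1271250], [nat_lit 9, nat_lit 40, nat_lit 40, nat_lit 80, nat_lit 2, nat_lit 345, nat_lit 125, nat_lit 12]⟩,
 ⟨nat_lit 5477, nat_lit 5701, ⟨.ofNat (nat_lit 283163), .ofNat (nat_lit 421257), .ofNat (nat_lit 293834), .ofNat (nat_lit 431928), .ofNat (nat_lit 290003), .ofNat (nat_lit 424882), .ofNat (nat_lit 300681), .ofNat (nat_lit 435561)⟩, ⟨.ofNat (nat_lit 525385), .ofNat (nat_lit 648133), .ofNat (nat_lit 568068), .ofNat (nat_lit 690813), .ofNat (nat_lit 521722), .ofNat (nat_lit 641613), .ofNat (nat_lit 564436), .ofNat (nat_lit 684323)⟩⟩, [⟨nat_lit 4, nat_lit 85, nat_lit 100, nat_lit 93, nat_lit 308540974⟩, ⟨nat_lit 11, nat_lit 100, nat_lit 100, nat_lit 92, nat_lit 50050489⟩]⟩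
noncomputable def p051_l12 : Lf2 := ⟨nat_lit 2, nat_lit 6, [nat_lit 47, nat_lit 5, nat_lit 5, nat_lit 20], true, nat_lit 280, nat_lit 344, nat_lit 0, nat_lit 336, zbN0,
 nat_lit 0, nat_lit 0, nat_lit 0, nat_lit 0, nat_lit 0, nat_lit 0, nat_lit 0, nat_lit 0, nat_lit 0, nat_lit 0, nat_lit 0, nat_lit 0, nat_lit 0, nat_lit 0, nat_lit 0, nat_lit 0, nat_lit 0, nat_lit 0, [],
 ⟨p051_k0, nat_lit 0, nat_lit 0, nat_lit 97, nat_lit 0, nat_lit 0, [], [], [], nat_lit 0, nat_lit 0, nat_lit 0, nat_lit 0, nat_lit 0, nat_lit 0, [], [nat_lit 9, nat_lit 40, nat_lit 40, nat_lit 80, nat_lit 2, nat_lit 238, nat_lit 30, nat_lit 7]⟩, C1.Rw.none,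
 zbF0, []⟩
noncomputable def b_V_600_600_20_5 : St := ⟨true, nat_lit 0, nat_lit 1, nat_lit 1, nat_lit 120, nat_lit 260, nat_lit 280, nat_lit 270, nat_lit 280, nat_lit 36, nat_lit 120, nat_lit 80, nat_lit 120, nat_lit 240, nat_lit 352, nat_lit 0, nat_lit 352, nat_lit 0, nat_lit 24, nat_lit 0, nat_lit 0, nat_lit 0, nat_lit 0⟩
theorem d_V_600_600_20_5 (h : EB TB.env) : Dead b_V_600_600_20_5 := chkB_sound0 h (T :=
(.ord (.trZ (nat_lit 0) (nat_lit 100) (nat_lit 100) (nat_lit 70) (nat_lit 48) (.trX (nat_lit 16) (nat_lit 100) (nat_lit 74) (nat_lit 98) (nat_lit 344) (.trX (nat_lit 19) (nat_lit 100) (nat_lit 74) (nat_lit 98) (nat_lit 344) (.spl (nat_lit 4) (nat_lit 280)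
(.spl (nat_lit 2) (nat_lit 80)
(.trX (nat_lit 23) (nat_lit 100) (nat_lit 76) (nat_lit 82) (nat_lit 336) (.spl (nat_lit 5) (nat_lit 160)
(.leaf p051_l0)
(.spl (nat_lit 2) (nat_lit 60)
(.trX (nat_lit 23) (nat_lit 100) (nat_lit 85) (nat_lit 73) (nat_lit 312) (.leaf p051_l1))
(.leaf p051_l2))))
(.leaf p051_l3))
(.trX (nat_lit 23) (nat_lit 100) (nat_lit 80) (nat_lit 100) (nat_lit 336) (.spl (nat_lit 7) (nat_lit 600)
(.spl (nat_lit 7) (nat_lit 300)
(.leaf p051_l4)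
(.spl (nat_lit 8) (nat_lit 800)
(.spl (nat_lit 2) (nat_lit 80)
(.trX (nat_lit 23) (nat_lit 100) (nat_lit 95) (nat_lit 87) (nat_lit 300) (.spl (nat_lit 2) (nat_lit 60)
(.trX (nat_lit 23) (nat_lit 99) (nat_lit 100) (nat_lit 77) (nat_lit 276) (.leaf p051_l5))
(.leaf p051_l6)))
(.spl (nat_lit 2) (nat_lit 100)
(.trX (nat_lit 23) (nat_lit 100) (nat_lit 88) (nat_lit 94) (nat_lit 320) (.leaf p051_l7))
(.spl (nat_lit 5) (nat_lit 160)
(.leaf p051_l8)
(.spl (nat_lit 1) (nat_lit 275)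
(.leaf p051_l9)
(.ord (.trX (nat_lit 16) (nat_lit 100) (nat_lit 77) (nat_lit 99) (nat_lit 340) (.leaf p051_l10)))))))
(.leaf p051_l11)))
(.leaf p051_l12))))))))) (by decide +kernel)
noncomputable def p051_l13 : Lf2 := ⟨nat_lit 2, nat_lit 6, [nat_lit 47, nat_lit 5, nat_lit 5, nat_lit 20], true, nat_lit 160, nat_lit 240, nat_lit 0, nat_lit 364, zbN0,
 nat_lit 0, nat_lit 0, nat_lit 0, nat_lit 0, nat_lit 0, nat_lit 0, nat_lit 0, nat_lit 0, nat_lit 0, nat_lit 0, nat_lit 0, nat_lit 0, nat_lit 0, nat_lit 0, nat_lit 0, nat_lit 0, nat_lit 0, nat_lit 0, [],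
 ⟨p051_k4, nat_lit 0, nat_lit 0, nat_lit 1, nat_lit 0, nat_lit 0, [], [], [], nat_lit 0, nat_lit 0, nat_lit 0, nat_lit 0, nat_lit 0, nat_lit 0, [], [nat_lit 11, nat_lit 40, nat_lit 40, nat_lit 80, nat_lit 1, nat_lit 428, nat_lit 200, nat_lit 12]⟩, C1.Rw.none,
 zbF0, []⟩
noncomputable def p051_l14 : Lf2 := ⟨nat_lit 0, nat_lit 6, [nat_lit 47, nat_lit 5, nat_lit 5, nat_lit 20], true, nat_lit 240, nat_lit 280, nat_lit 0, nat_lit 364, ⟨nat_lit 0, nat_lit 1000, nat_lit 0, nat_lit 6, nat_lit 210, nat_lit 1000, nat_lit 204, nat_lit 0, nat_lit 0, nat_lit 0, nat_lit 0, nat_lit 0, nat_lit 41411734, nat_lit 13062454, nat_lit 12525812, nat_lit 5013426, false, false⟩,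
 nat_lit 0, nat_lit 0, nat_lit 0, nat_lit 2460, nat_lit 5428, nat_lit 0, nat_lit 0, nat_lit 0, nat_lit 0, nat_lit 0, nat_lit 0, nat_lit 0, nat_lit 0, nat_lit 11930497337356, nat_lit 0, nat_lit 250000, nat_lit 0, nat_lit 0, [(nat_lit 6, [(nat_lit 0, nat_lit 1000)]), (nat_lit 9, [(nat_lit 0, nat_lit 1000)])],
 ⟨p051_k4, nat_lit 0, nat_lit 0, nat_lit 17, nat_lit 0, nat_lit 0, [nat_lit 3128000000, nat_lit 3146133334, nat_lit 3771466666], [], [nat_lit 13677643792, nat_lit 16366953312, nat_lit 17605685440, nat_lit 19721192256, nat_lit 16528662536, nat_lit 18928282456, nat_lit 19866253304, nat_lit 21758176472], nat_lit 0, nat_lit 0, nat_lit 0, nat_lit 0, nat_lit 0, nat_lit 0, [], [nat_lit 11, nat_lit 40, nat_lit 40, nat_lit 80, nat_lit 1, nat_lit 428, nat_lit 200, nat_lit 12]⟩, C1.Rw.none,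
 ⟨nat_lit 5477, nat_lit 6325, ⟨.ofNat (nat_lit 378206), .ofNat (nat_lit 624852), .ofNat (nat_lit 420942), .ofNat (nat_lit 667525), .ofNat (nat_lit 392847), .ofNat (nat_lit 617499), .ofNat (nat_lit 435561), .ofNat (nat_lit 660151)⟩, ⟨.ofNat (nat_lit 454055), .ofNat (nat_lit 536314), .ofNat (nat_lit 496791), .ofNat (nat_lit 579003), .ofNat (nat_lit 446789), .ofNat (nat_lit 521717), .ofNat (nat_lit 489503), .ofNat (nat_lit 564384)⟩⟩, []⟩
noncomputable def p051_l15 : Lf2 := ⟨nat_lit 0, nat_lit 6, [nat_lit 47, nat_lit 5, nat_lit 5, nat_lit 20], true, nat_lit 280, nat_lit 300, nat_lit 0, nat_lit 364, ⟨nat_lit 0, nat_lit 1000, nat_lit 0, nat_lit 6, nat_lit 178, nat_lit 1000, nat_lit 228, nat_lit 0, nat_lit 0, nat_lit 0, nat_lit 0, nat_lit 0, nat_lit 41818716, nat_lit 10168492, nat_lit 15012792, nat_lit 4929593, false, false⟩,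
 nat_lit 0, nat_lit 0, nat_lit 0, nat_lit 2460, nat_lit 5561, nat_lit 0, nat_lit 0, nat_lit 0, nat_lit 0, nat_lit 0, nat_lit 0, nat_lit 0, nat_lit 0, nat_lit 1989207772886, nat_lit 0, nat_lit 250000, nat_lit 0, nat_lit 0, [(nat_lit 6, [(nat_lit 0, nat_lit 1000)]), (nat_lit 9, [(nat_lit 0, nat_lit 1000)])],
 ⟨p051_k4, nat_lit 0, nat_lit 0, nat_lit 30, nat_lit 0, nat_lit 0, [nat_lit 3128000000, nat_lit 3146133334, nat_lit 3771466666], [], [nat_lit 16380375782, nat_lit 18808409822, nat_lit 17018529656, nat_lit 19292813668, nat_lit 17824684571, nat_lit 20105034261, nat_lit 18371821452, nat_lit 20514865726], nat_lit 0, nat_lit 0, nat_lit 0, nat_lit 0, nat_lit 0, nat_lit 0, [], [nat_lit 11, nat_lit 40, nat_lit 40, nat_lit 80, nat_lit 1, nat_lit 345, nat_lit 125, nat_lit 9]⟩, C1.Rw.none,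
 ⟨nat_lit 5477, nat_lit 6325, ⟨.ofNat (nat_lit 378206), .ofNat (nat_lit 460470), .ofNat (nat_lit 420942), .ofNat (nat_lit 503169), .ofNat (nat_lit 392847), .ofNat (nat_lit 467780), .ofNat (nat_lit 435561), .ofNat (nat_lit 510457)⟩, ⟨.ofNat (nat_lit 536314), .ofNat (nat_lit 577409), .ofNat (nat_lit 579003), .ofNat (nat_lit 620097), .ofNat (nat_lit 521717), .ofNat (nat_lit 559146), .ofNat (nat_lit 564384), .ofNat (nat_lit 601812)⟩⟩, []⟩
noncomputable def p051_l16 : Lf2 := ⟨nat_lit 0, nat_lit 6, [nat_lit 47, nat_lit 5, nat_lit 5, nat_lit 20], false, nat_lit 300, nat_lit 320, nat_lit 0, nat_lit 160, ⟨nat_lit 212, nat_lit 788, nat_lit 0, nat_lit 6, nat_lit 178, nat_lit 788, nat_lit 244, nat_lit 0, nat_lit 0, nat_lit 0, nat_lit 0, nat_lit 0, nat_lit 40606363, nat_lit 9982289, nat_lit 16411348, nat_lit 5017475, false, false⟩,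
 nat_lit 0, nat_lit 0, nat_lit 2521, nat_lit 289, nat_lit 5349, nat_lit 1334, nat_lit 0, nat_lit 0, nat_lit 0, nat_lit 386, nat_lit 0, nat_lit 0, nat_lit 0, nat_lit 1375871791851, nat_lit 0, nat_lit 315200, nat_lit 0, nat_lit 0, [(nat_lit 6, [(nat_lit 1, nat_lit 788)]), (nat_lit 9, [(nat_lit 1, nat_lit 788)])],
 ⟨p051_k4, nat_lit 0, nat_lit 0, nat_lit 42, nat_lit 0, nat_lit 0, [nat_lit 3123599360, nat_lit 3808040534, nat_lit 4649524266], [], [nat_lit 18026684799, nat_lit 20266269009, nat_lit 18589060028, nat_lit 20689744288, nat_lit 19441027600, nat_lit 21537453660, nat_lit 19915080992, nat_lit 21882973804], nat_lit 0, nat_lit 0, nat_lit 0, nat_lit 0, nat_lit 0, nat_lit 0, [], [nat_lit 11, nat_lit 40, nat_lit 40, nat_lit 80, nat_lit 1, nat_lit 345, nat_lit 125, nat_lit 9]⟩, ⟨p051_k4, nat_lit 0, nat_lit 0, nat_lit 447, nat_lit 0, nat_lit 510099, [nat_lit 993856000, nat_lit 1325000000, nat_lit 2086504000], [], [nat_lit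 8591661104, nat_lit 7180988120, nat_lit 7180988120, nat_lit 6797707004, nat_lit 6985215032, nat_lit 6201148756, nat_lit 7706923608, nat_lit 6466565072], nat_lit 1271250, nat_lit 1271250, nat_lit 780000, nat_lit 1100001, nat_lit 0, nat_lit 1100001, [nat_lit 1100000, nat_lit 1442500, nat_lit 1271250], [nat_lit 11, nat_lit 40, nat_lit 40, nat_lit 80, nat_lit 1, nat_lit 373, nat_lit 150, nat_lit 11]⟩,
 ⟨nat_lit 5477, nat_lit 6325, ⟨.ofNat (nat_lit 378206), .ofNat (nat_lit 460470), .ofNat (nat_lit 420942), .ofNat (nat_lit 503169), .ofNat (nat_lit 392847), .ofNat (nat_lit 467780), .ofNat (nat_lit 435561), .ofNat (nat_lit 510457)⟩, ⟨.ofNat (nat_lit 577409), .ofNat (nat_lit 618504), .ofNat (nat_lit 620097), .ofNat (nat_lit 661186), .ofNat (nat_lit 559146), .ofNat (nat_lit 596575), .ofNat (nat_lit 601812), .ofNat (nat_lit 639236)⟩⟩, []⟩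
noncomputable def p051_l17 : Lf2 := ⟨nat_lit 0, nat_lit 6, [nat_lit 47, nat_lit 5, nat_lit 5, nat_lit 20], true, nat_lit 300, nat_lit 320, nat_lit 160, nat_lit 352, ⟨nat_lit 0, nat_lit 1000, nat_lit 0, nat_lit 6, nat_lit 174, nat_lit 1000, nat_lit 244, nat_lit 0, nat_lit 0, nat_lit 0, nat_lit 0, nat_lit 0, nat_lit 40868116, nat_lit 9650112, nat_lit 16481772, nat_lit 4982074, false, false⟩,
 nat_lit 0, nat_lit 0, nat_lit 0, nat_lit 3662, nat_lit 5004, nat_lit 0, nat_lit 0, nat_lit 0, nat_lit 0, nat_lit 0, nat_lit 0, nat_lit 0, nat_lit 0, nat_lit 0, nat_lit 0, nat_lit 400000, nat_lit 0, nat_lit 0, [(nat_lit 6, [(nat_lit 1, nat_lit 1000)]), (nat_lit 9, [(nat_lit 1, nat_lit 1000)])],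
 ⟨p051_k4, nat_lit 0, nat_lit 0, nat_lit 42, nat_lit 0, nat_lit 0, [nat_lit 2702720000, nat_lit 3151066667, nat_lit 3294533333], [], [nat_lit 17941693644, nat_lit 20114937804, nat_lit 18528867128, nat_lit 20569956088, nat_lit 19307271040, nat_lit 21369331488, nat_lit 19810508672, nat_lit 21748379504], nat_lit 0, nat_lit 0, nat_lit 0, nat_lit 0, nat_lit 0, nat_lit 0, [], [nat_lit 11, nat_lit 40, nat_lit 40, nat_lit 80, nat_lit 1, nat_lit 345, nat_lit 125, nat_lit 9]⟩, C1.Rw.none,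
 ⟨nat_lit 5477, nat_lit 6325, ⟨.ofNat (nat_lit 378206), .ofNat (nat_lit 460470), .ofNat (nat_lit 399574), .ofNat (nat_lit 481826), .ofNat (nat_lit 392847), .ofNat (nat_lit 467780), .ofNat (nat_lit 414204), .ofNat (nat_lit 489125)⟩, ⟨.ofNat (nat_lit 577409), .ofNat (nat_lit 618504), .ofNat (nat_lit 620097), .ofNat (nat_lit 661186), .ofNat (nat_lit 559146), .ofNat (nat_lit 596575), .ofNat (nat_lit 601812), .ofNat (nat_lit 639236)⟩⟩, []⟩
noncomputable def p051_l18 : Lf2 := ⟨nat_lit 0, nat_lit 6, [nat_lit 47, nat_lit 5, nat_lit 5, nat_lit 20], false, nat_lit 300, nat_lit 320, nat_lit 160, nat_lit 352, ⟨nat_lit 304, nat_lit 696, nat_lit 0, nat_lit 6, nat_lit 184, nat_lit 696, nat_lit 242, nat_lit 0, nat_lit 0, nat_lit 0, nat_lit 0, nat_lit 0, nat_lit 40426693, nat_lit 10428406, nat_lit 16144901, nat_lit 5050347, false, false⟩,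
 nat_lit 0, nat_lit 0, nat_lit 3849, nat_lit 0, nat_lit 5517, nat_lit 2240, nat_lit 0, nat_lit 0, nat_lit 0, nat_lit 473, nat_lit 0, nat_lit 0, nat_lit 0, nat_lit 4930825629108, nat_lit 0, nat_lit 278400, nat_lit 0, nat_lit 0, [(nat_lit 9, [(nat_lit 1, nat_lit 696)])],
 ⟨p051_k5, nat_lit 0, nat_lit 0, nat_lit 42, nat_lit 0, nat_lit 0, [nat_lit 3306245120, nat_lit 3892508801, nat_lit 4519852799], [], [nat_lit 19181712072, nat_lit 20317656537, nat_lit 19660919454, nat_lit 20725771744, nat_lit 20546429030, nat_lit 21616531824, nat_lit 20940496374, nat_lit 21937612892], nat_lit 0, nat_lit 0, nat_lit 0, nat_lit 0, nat_lit 0, nat_lit 0, [], [nat_lit 9, nat_lit 40, nat_lit 40, nat_lit 80, nat_lit 2, nat_lit 249, nat_lit 40, nat_lit 7]⟩, ⟨p051_k5, nat_lit 0, nat_lit 0, nat_lit 257, nat_lit 0, nat_lit 444157, [nat_lit 1425152000, nat_lit 1900000000, nat_lit 2422272000], [], [nat_lit 5963195243, nat_lit 5852265643, nat_lit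 7003027499, nat_lit 5919137899, nat_lit 7720061206, nat_lit 7912697690, nat_lit 7670961130, nat_lit 7881928743], nat_lit 1271250, nat_lit 1271250, nat_lit 780000, nat_lit 1100001, nat_lit 1271250, nat_lit 1271250, [nat_lit 1100000, nat_lit 1442500, nat_lit 1271250], [nat_lit 9, nat_lit 40, nat_lit 40, nat_lit 80, nat_lit 2, nat_lit 373, nat_lit 150, nat_lit 12]⟩,
 ⟨nat_lit 5477, nat_lit 5917, ⟨.ofNat (nat_lit 406949), .ofNat (nat_lit 485478), .ofNat (nat_lit 428288), .ofNat (nat_lit 506809), .ofNat (nat_lit 414204), .ofNat (nat_lit 489132), .ofNat (nat_lit 435561), .ofNat (nat_lit 510480)⟩, ⟨.ofNat (nat_lit 568297), .ofNat (nat_lit 607556), .ofNat (nat_lit 610962), .ofNat (nat_lit 650219), .ofNat (nat_lit 559189), .ofNat (nat_lit 596648), .ofNat (nat_lit 601890), .ofNat (nat_lit 639346)⟩⟩, [⟨nat_lit 16, nat_lit 100, nat_lit 82, nat_lit 92, nat_lit 168080392⟩, ⟨nat_lit 11, nat_lit 85, nat_lit 85, nat_lit 100, nat_lit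 146118466⟩]⟩
noncomputable def p051_l19 : Lf2 := ⟨nat_lit 0, nat_lit 6, [nat_lit 47, nat_lit 5, nat_lit 5, nat_lit 20], true, nat_lit 280, nat_lit 320, nat_lit 4, nat_lit 364, ⟨nat_lit 0, nat_lit 1000, nat_lit 0, nat_lit 6, nat_lit 206, nat_lit 1000, nat_lit 236, nat_lit 0, nat_lit 0, nat_lit 0, nat_lit 0, nat_lit 0, nat_lit 39481720, nat_lit 12252859, nat_lit 15265421, nat_lit 5178684, false, false⟩,
 nat_lit 0, nat_lit 0, nat_lit 0, nat_lit 3411, nat_lit 5351, nat_lit 0, nat_lit 0, nat_lit 0, nat_lit 0, nat_lit 0, nat_lit 0, nat_lit 0, nat_lit 0, nat_lit 0, nat_lit 0, nat_lit 250000, nat_lit 0, nat_lit 0, [(nat_lit 6, [(nat_lit 0, nat_lit 1000)]), (nat_lit 9, [(nat_lit 0, nat_lit 1000)])],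
 ⟨p051_k6, nat_lit 0, nat_lit 0, nat_lit 27, nat_lit 0, nat_lit 0, [nat_lit 3128000000, nat_lit 3710400000], [], [nat_lit 17265091496, nat_lit 19498952188, nat_lit 18404547868, nat_lit 20469483154, nat_lit 19917647968, nat_lit 21885846756, nat_lit 20860795356, nat_lit 22772192728], nat_lit 0, nat_lit 0, nat_lit 0, nat_lit 0, nat_lit 0, nat_lit 0, [], [nat_lit 70, nat_lit 40, nat_lit 40, nat_lit 80, nat_lit 13, nat_lit 345, nat_lit 125, nat_lit 9]⟩, C1.Rw.none,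
 ⟨nat_lit 5477, nat_lit 6325, ⟨.ofNat (nat_lit 460470), .ofNat (nat_lit 542674), .ofNat (nat_lit 481826), .ofNat (nat_lit 564011), .ofNat (nat_lit 467780), .ofNat (nat_lit 542652), .ofNat (nat_lit 489125), .ofNat (nat_lit 563978)⟩, ⟨.ofNat (nat_lit 536314), .ofNat (nat_lit 618504), .ofNat (nat_lit 579003), .ofNat (nat_lit 661186), .ofNat (nat_lit 521717), .ofNat (nat_lit 596575), .ofNat (nat_lit 564384), .ofNat (nat_lit 639236)⟩⟩, []⟩
noncomputable def p051_l20 : Lf2 := ⟨nat_lit 0, nat_lit 6, [nat_lit 47, nat_lit 5, nat_lit 5, nat_lit 20], false, nat_lit 280, nat_lit 320, nat_lit 4, nat_lit 352, ⟨nat_lit 122, nat_lit 878, nat_lit 0, nat_lit 6, nat_lit 215, nat_lit 878, nat_lit 234, nat_lit 0, nat_lit 0, nat_lit 0, nat_lit 0, nat_lit 0, nat_lit 39035776, nat_lit 13007087, nat_lit 14957137, nat_lit 5226697, false, false⟩,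
 nat_lit 0, nat_lit 0, nat_lit 1753, nat_lit 0, nat_lit 5518, nat_lit 1020, nat_lit 0, nat_lit 0, nat_lit 0, nat_lit 51, nat_lit 0, nat_lit 0, nat_lit 0, nat_lit 2461090901899, nat_lit 0, nat_lit 219500, nat_lit 0, nat_lit 0, [(nat_lit 9, [(nat_lit 0, nat_lit 878)])],
 ⟨p051_k5, nat_lit 0, nat_lit 0, nat_lit 32, nat_lit 0, nat_lit 0, [nat_lit 3308486401, nat_lit 3393690400, nat_lit 3930763600], [], [nat_lit 18382505957, nat_lit 19515509385, nat_lit 19438838799, nat_lit 20485349973, nat_lit 20941897317, nat_lit 21938771209, nat_lit 21808410657, nat_lit 22829962704], nat_lit 0, nat_lit 0, nat_lit 0, nat_lit 0, nat_lit 0, nat_lit 0, [], [nat_lit 9, nat_lit 40, nat_lit 40, nat_lit 80, nat_lit 2, nat_lit 260, nat_lit 50, nat_lit 7]⟩, ⟨p051_k5, nat_lit 0, nat_lit 0, nat_lit 308, nat_lit 0, nat_lit 444157, [nat_lit 571936000, nat_lit 762500000, nat_lit 972096000], [], [nat_lit 4492626553, nat_lit 3954113472, nat_lit 3423695826,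 nat_lit 3083694998, nat_lit 3700990465, nat_lit 3412820823, nat_lit 4333115745, nat_lit 3869971281], nat_lit 1271250, nat_lit 1271250, nat_lit 1100001, nat_lit 1442500, nat_lit 21650, nat_lit 2492450, [nat_lit 1100000, nat_lit 1442500, nat_lit 1271250], [nat_lit 9, nat_lit 40, nat_lit 40, nat_lit 80, nat_lit 2, nat_lit 373, nat_lit 150, nat_lit 12]⟩,
 ⟨nat_lit 5477, nat_lit 5917, ⟨.ofNat (nat_lit 485478), .ofNat (nat_lit 563993), .ofNat (nat_lit 506809), .ofNat (nat_lit 585324), .ofNat (nat_lit 489132), .ofNat (nat_lit 564046), .ofNat (nat_lit 510480), .ofNat (nat_lit 585395)⟩, ⟨.ofNat (nat_lit 529030), .ofNat (nat_lit 607556), .ofNat (nat_lit 571704), .ofNat (nat_lit 650219), .ofNat (nat_lit 521722), .ofNat (nat_lit 596648), .ofNat (nat_lit 564432), .ofNat (nat_lit 639346)⟩⟩, [⟨nat_lit 7, nat_lit 82, nat_lit 100, nat_lit 92, nat_lit 17333372⟩]⟩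
noncomputable def p051_l21 : Lf2 := ⟨nat_lit 0, nat_lit 6, [nat_lit 47, nat_lit 5, nat_lit 5, nat_lit 20], false, nat_lit 280, nat_lit 320, nat_lit 16, nat_lit 364, ⟨nat_lit 20, nat_lit 980, nat_lit 0, nat_lit 6, nat_lit 241, nat_lit 980, nat_lit 236, nat_lit 0, nat_lit 0, nat_lit 0, nat_lit 0, nat_lit 0, nat_lit 37196454, nat_lit 15176943, nat_lit 14626603, nat_lit 5382786, true, false⟩,
 nat_lit 0, nat_lit 0, nat_lit 448, nat_lit 1728, nat_lit 5144, nat_lit 237, nat_lit 0, nat_lit 0, nat_lit 0, nat_lit 0, nat_lit 0, nat_lit 0, nat_lit 0, nat_lit 6284894435738, nat_lit 0, nat_lit 245000, nat_lit 0, nat_lit 0, [(nat_lit 6, [(nat_lit 0, nat_lit 980)]), (nat_lit 9, [(nat_lit 0, nat_lit 980)])],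
 ⟨p051_k6, nat_lit 0, nat_lit 0, nat_lit 28, nat_lit 0, nat_lit 0, [nat_lit 3159200001, nat_lit 3833032000], [], [nat_lit 18674611793, nat_lit 20704732577, nat_lit 20200703393, nat_lit 22052453057, nat_lit 21083520865, nat_lit 22877415233, nat_lit 22405113665, nat_lit 24042542625], nat_lit 0, nat_lit 0, nat_lit 0, nat_lit 0, nat_lit 0, nat_lit 0, [], [nat_lit 70, nat_lit 40, nat_lit 40, nat_lit 80, nat_lit 13, nat_lit 373, nat_lit 150, nat_lit 10]⟩, ⟨p051_k6, nat_lit 0, nat_lit 0, nat_lit 360, nat_lit 0, nat_lit 510099, [nat_lit 93760000, nat_lit 196840000], [], [nat_lit 858496204, nat_lit 666867028, nat_lit 649277948, nat_lit 687132712, nat_lit 1008244198, nat_lit 799275089, nat_lit 799275089, nat_lit 641377594], nat_lit 1271250, nat_lit 1271250, nat_lit 1271250, nat_lit 1271250, nat_lit 88400, nat_lit 2598350, [nat_lit 1100000, nat_lit 2127500], [nat_lit 70, nat_lit 40, nat_lit 40, nat_lit 80, nat_lit 13, nat_lit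 456, nat_lit 225, nat_lit 13]⟩,
 ⟨nat_lit 5477, nat_lit 6325, ⟨.ofNat (nat_lit 542674), .ofNat (nat_lit 624852), .ofNat (nat_lit 585347), .ofNat (nat_lit 667525), .ofNat (nat_lit 542652), .ofNat (nat_lit 617499), .ofNat (nat_lit 585304), .ofNat (nat_lit 660151)⟩, ⟨.ofNat (nat_lit 536314), .ofNat (nat_lit 618504), .ofNat (nat_lit 579003), .ofNat (nat_lit 661186), .ofNat (nat_lit 521717), .ofNat (nat_lit 596575), .ofNat (nat_lit 564384), .ofNat (nat_lit 639236)⟩⟩, [⟨nat_lit 19, nat_lit 100, nat_lit 77, nat_lit 91, nat_lit 3635814⟩]⟩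
noncomputable def p051_l22 : Lf2 := ⟨nat_lit 0, nat_lit 4, [nat_lit 38, nat_lit 5, nat_lit 5, nat_lit 20], true, nat_lit 320, nat_lit 364, nat_lit 4, nat_lit 364, ⟨nat_lit 0, nat_lit 1000, nat_lit 0, nat_lit 6, nat_lit 205, nat_lit 1000, nat_lit 271, nat_lit 0, nat_lit 0, nat_lit 0, nat_lit 0, nat_lit 0, nat_lit 37001282, nat_lit 11671810, nat_lit 18326908, nat_lit 5329447, false, false⟩,
 nat_lit 0, nat_lit 0, nat_lit 0, nat_lit 17327, nat_lit 5123, nat_lit 0, nat_lit 0, nat_lit 0, nat_lit 0, nat_lit 0, nat_lit 0, nat_lit 0, nat_lit 0, nat_lit 0, nat_lit 0, nat_lit 400000, nat_lit 0, nat_lit 0, [(nat_lit 6, [(nat_lit 1, nat_lit 1000)])],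
 ⟨p051_k7, nat_lit 0, nat_lit 0, nat_lit 68, nat_lit 0, nat_lit 0, [nat_lit 2692266667, nat_lit 3030400001, nat_lit 3280799999], [], [nat_lit 19197781147, nat_lit 20226677957, nat_lit 22128217228, nat_lit 23081188286, nat_lit 23262792118, nat_lit 24270246076, nat_lit 25559744506, nat_lit 26363452752], nat_lit 0, nat_lit 0, nat_lit 0, nat_lit 0, nat_lit 0, nat_lit 0, [], [nat_lit 9, nat_lit 40, nat_lit 40, nat_lit 80, nat_lit 2, nat_lit 272, nat_lit 60, nat_lit 8]⟩, C1.Rw.none,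
 ⟨nat_lit 5916, nat_lit 6325, ⟨.ofNat (nat_lit 378206), .ofNat (nat_lit 624961), .ofNat (nat_lit 399574), .ofNat (nat_lit 646322), .ofNat (nat_lit 385610), .ofNat (nat_lit 621173), .ofNat (nat_lit 406949), .ofNat (nat_lit 642505)⟩, ⟨.ofNat (nat_lit 618556), .ofNat (nat_lit 709020), .ofNat (nat_lit 661277), .ofNat (nat_lit 751741), .ofNat (nat_lit 607536), .ofNat (nat_lit 693896), .ofNat (nat_lit 650199), .ofNat (nat_lit 736560)⟩⟩, [⟨nat_lit 4, nat_lit 72, nat_lit 100, nat_lit 89, nat_lit 438928333⟩]⟩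
noncomputable def p051_l23 : Lf2 := ⟨nat_lit 0, nat_lit 4, [nat_lit 38, nat_lit 5, nat_lit 5, nat_lit 20], false, nat_lit 320, nat_lit 336, nat_lit 4, nat_lit 160, ⟨nat_lit 1000, nat_lit 0, nat_lit 0, nat_lit 0, nat_lit 0, nat_lit 0, nat_lit 0, nat_lit 0, nat_lit 0, nat_lit 0, nat_lit 0, nat_lit 0, nat_lit 0, nat_lit 0, nat_lit 0, nat_lit 0, false, false⟩,
 nat_lit 0, nat_lit 0, nat_lit 10253, nat_lit 6824, nat_lit 6905, nat_lit 5428, nat_lit 0, nat_lit 0, nat_lit 0, nat_lit 1184, nat_lit 0, nat_lit 0, nat_lit 0, nat_lit 0, nat_lit 0, nat_lit 0, nat_lit 0, nat_lit 0, [],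
 ⟨p051_k8, nat_lit 0, nat_lit 0, nat_lit 54, nat_lit 0, nat_lit 0, [nat_lit 4688000000, nat_lit 6250000000, nat_lit 7968000000], [], [nat_lit 20891667150, nat_lit 22285370160, nat_lit 21155862110, nat_lit 22449612780, nat_lit 22667069792, nat_lit 23971121205, nat_lit 22813008797, nat_lit 24034370953], nat_lit 0, nat_lit 0, nat_lit 0, nat_lit 0, nat_lit 0, nat_lit 0, [], [nat_lit 9, nat_lit 40, nat_lit 40, nat_lit 80, nat_lit 2, nat_lit 249, nat_lit 40, nat_lit 7]⟩, ⟨p051_k7, nat_lit 0, nat_lit 0, nat_lit 335, nat_lit 0, nat_lit 487356, [nat_lit 4688000000, nat_lit 6250000000, nat_lit 7968000000], [], [nat_lit 38639738236, nat_lit 32908269612, nat_lit 32908269612, nat_lit 31085900639, nat_lit 34038804880, nat_lit 28924720736, nat_lit 37151258256, nat_lit 32104282144], nat_lit 1271250, nat_lit 1271250, nat_lit 780000, nat_lit 1100001, nat_lit 21650, nat_lit 1100001, [nat_lit 1100000, nat_lit 1442500, nat_lit 1271250],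 [nat_lit 9, nat_lit 40, nat_lit 40, nat_lit 80, nat_lit 2, nat_lit 317, nat_lit 100, nat_lit 11]⟩,
 zbF0, [⟨nat_lit 4, nat_lit 86, nat_lit 100, nat_lit 89, nat_lit 923877845⟩]⟩
noncomputable def p051_l24 : Lf2 := ⟨nat_lit 0, nat_lit 4, [nat_lit 38, nat_lit 5, nat_lit 5, nat_lit 20], false, nat_lit 320, nat_lit 336, nat_lit 160, nat_lit 336, ⟨nat_lit 1000, nat_lit 0, nat_lit 0, nat_lit 0, nat_lit 0, nat_lit 0, nat_lit 0, nat_lit 0, nat_lit 0, nat_lit 0, nat_lit 0, nat_lit 0, nat_lit 0, nat_lit 0, nat_lit 0, nat_lit 0, false, false⟩,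
 nat_lit 0, nat_lit 0, nat_lit 16144, nat_lit 0, nat_lit 6811, nat_lit 8546, nat_lit 0, nat_lit 0, nat_lit 0, nat_lit 2317, nat_lit 0, nat_lit 0, nat_lit 0, nat_lit 0, nat_lit 0, nat_lit 0, nat_lit 0, nat_lit 0, [],
 ⟨p051_k8, nat_lit 0, nat_lit 0, nat_lit 50, nat_lit 0, nat_lit 0, [nat_lit 4688000000, nat_lit 6250000000, nat_lit 7968000000], [], [nat_lit 20961863530, nat_lit 21548448615, nat_lit 21234853882, nat_lit 21782744199, nat_lit 22615880551, nat_lit 23263326088, nat_lit 22772680616, nat_lit 23379224979], nat_lit 0, nat_lit 0, nat_lit 0, nat_lit 0, nat_lit 0, nat_lit 0, [], [nat_lit 9, nat_lit 40, nat_lit 40, nat_lit 80, nat_lit 2, nat_lit 249, nat_lit 40, nat_lit 7]⟩, ⟨p051_k7, nat_lit 0, nat_lit 0, nat_lit 163, nat_lit 0, nat_lit 257609, [nat_lit 4688000000, nat_lit 6250000000, nat_lit 7968000000], [], [nat_lit 23312973944, nat_lit 16925445710, nat_lit 27015187816, nat_lit 20718212998, nat_lit 22600947169,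 nat_lit 24293713569, nat_lit 22595841960, nat_lit 24199933417], nat_lit 1271250, nat_lit 1271250, nat_lit 780000, nat_lit 1100001, nat_lit 1271250, nat_lit 1271250, [nat_lit 1100000, nat_lit 1442500, nat_lit 1271250], [nat_lit 9, nat_lit 40, nat_lit 40, nat_lit 80, nat_lit 2, nat_lit 345, nat_lit 125, nat_lit 11]⟩,
 zbF0, [⟨nat_lit 4, nat_lit 84, nat_lit 100, nat_lit 88, nat_lit 1258588182⟩, ⟨nat_lit 23, nat_lit 81, nat_lit 88, nat_lit 100, nat_lit 325610033⟩]⟩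
noncomputable def p051_l25 : Lf2 := ⟨nat_lit 0, nat_lit 4, [nat_lit 38, nat_lit 5, nat_lit 5, nat_lit 20], false, nat_lit 320, nat_lit 328, nat_lit 160, nat_lit 336, ⟨nat_lit 142, nat_lit 858, nat_lit 0, nat_lit 6, nat_lit 180, nat_lit 858, nat_lit 247, nat_lit 0, nat_lit 0, nat_lit 0, nat_lit 0, nat_lit 0, nat_lit 40248224, nat_lit 10069596, nat_lit 16682180, nat_lit 5047685, false, false⟩,
 nat_lit 0, nat_lit 0, nat_lit 2352, nat_lit 0, nat_lit 5252, nat_lit 1245, nat_lit 0, nat_lit 0, nat_lit 0, nat_lit 234, nat_lit 0, nat_lit 0, nat_lit 0, nat_lit 5928176572211, nat_lit 0, nat_lit 343200, nat_lit 0, nat_lit 0, [(nat_lit 9, [(nat_lit 1, nat_lit 858)])],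
 ⟨p051_k9, nat_lit 0, nat_lit 0, nat_lit 48, nat_lit 0, nat_lit 0, [nat_lit 2984629761, nat_lit 3343782401, nat_lit 3726344399], [], [nat_lit 20942668941, nat_lit 21488835744, nat_lit 21329833829, nat_lit 21839860752, nat_lit 21609952666, nat_lit 22199351589, nat_lit 21955225533, nat_lit 22509783615], nat_lit 0, nat_lit 0, nat_lit 0, nat_lit 0, nat_lit 0, nat_lit 0, [], [nat_lit 9, nat_lit 40, nat_lit 40, nat_lit 80, nat_lit 2, nat_lit 249, nat_lit 40, nat_lit 7]⟩, ⟨p051_k7, nat_lit 0, nat_lit 0, nat_lit 267, nat_lit 0, nat_lit 487356, [nat_lit 665696000, nat_lit 887500000, nat_lit 1131456000], [], [nat_lit 3276694884, nat_lit 2573908704, nat_lit 3811328292, nat_lit 2588185512, nat_lit 3350448615, nat_lit 3573706235, nat_lit 3310593402, nat_lit 3549632162], nat_lit 1271250, nat_lit 1271250, nat_lit 780000, nat_lit 1100001, nat_lit 1271250, nat_lit 1271250, [nat_lit 1100000, nat_lit 1442500, nat_lit 1271250], [nat_lit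 9, nat_lit 40, nat_lit 40, nat_lit 80, nat_lit 2, nat_lit 345, nat_lit 125, nat_lit 11]⟩,
 ⟨nat_lit 5477, nat_lit 5701, ⟨.ofNat (nat_lit 389244), .ofNat (nat_lit 465963), .ofNat (nat_lit 431928), .ofNat (nat_lit 508644), .ofNat (nat_lit 392847), .ofNat (nat_lit 467780), .ofNat (nat_lit 435561), .ofNat (nat_lit 510490)⟩, ⟨.ofNat (nat_lit 602103), .ofNat (nat_lit 617447), .ofNat (nat_lit 623444), .ofNat (nat_lit 638787), .ofNat (nat_lit 596655), .ofNat (nat_lit 611641), .ofNat (nat_lit 618011), .ofNat (nat_lit 632996)⟩⟩, [⟨nat_lit 16, nat_lit 100, nat_lit 82, nat_lit 92, nat_lit 403089472⟩, ⟨nat_lit 23, nat_lit 82, nat_lit 87, nat_lit 100, nat_lit 74027973⟩]⟩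
noncomputable def p051_l26 : Lf2 := ⟨nat_lit 0, nat_lit 4, [nat_lit 38, nat_lit 5, nat_lit 5, nat_lit 20], false, nat_lit 320, nat_lit 336, nat_lit 16, nat_lit 352, ⟨nat_lit 22, nat_lit 978, nat_lit 0, nat_lit 6, nat_lit 226, nat_lit 978, nat_lit 251, nat_lit 0, nat_lit 0, nat_lit 0, nat_lit 0, nat_lit 0, nat_lit 37182688, nat_lit 13615843, nat_lit 16201469, nat_lit 5373946, false, false⟩,
 nat_lit 0, nat_lit 0, nat_lit 333, nat_lit 2439, nat_lit 4868, nat_lit 176, nat_lit 0, nat_lit 0, nat_lit 0, nat_lit 30, nat_lit 0, nat_lit 0, nat_lit 0, nat_lit 11373553617678, nat_lit 0, nat_lit 391200, nat_lit 0, nat_lit 0, [(nat_lit 9, [(nat_lit 1, nat_lit 978)])],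
 ⟨p051_k8, nat_lit 0, nat_lit 0, nat_lit 44, nat_lit 0, nat_lit 0, [nat_lit 2746396160, nat_lit 2937318400, nat_lit 3138560400], [], [nat_lit 20926026776, nat_lit 21873179568, nat_lit 23036136528, nat_lit 23932840704, nat_lit 22068399713, nat_lit 22981163732, nat_lit 24158879853, nat_lit 25041390205], nat_lit 0, nat_lit 0, nat_lit 0, nat_lit 0, nat_lit 0, nat_lit 0, [], [nat_lit 9, nat_lit 40, nat_lit 40, nat_lit 80, nat_lit 2, nat_lit 272, nat_lit 60, nat_lit 7]⟩, ⟨p051_k7, nat_lit 0, nat_lit 0, nat_lit 315, nat_lit 0, nat_lit 487356, [nat_lit 103136000, nat_lit 137500000, nat_lit 175296000], [], [nat_lit 840582178, nat_lit 655570274, nat_lit 543858480, nat_lit 588666795, nat_lit 914488309, nat_lit 752545640, nat_lit 599705973, nat_lit 620071989], nat_lit 1271250, nat_lit 1271250, nat_lit 1271250, nat_lit 1271250, nat_lit 88400, nat_lit 2511800, [nat_lit 1100000, nat_lit 1442500, nat_lit 1271250], [nat_lit 9,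 nat_lit 40, nat_lit 40, nat_lit 80, nat_lit 2, nat_lit 373, nat_lit 150, nat_lit 12]⟩,
 ⟨nat_lit 5477, nat_lit 5917, ⟨.ofNat (nat_lit 464143), .ofNat (nat_lit 621176), .ofNat (nat_lit 506809), .ofNat (nat_lit 663838), .ofNat (nat_lit 467780), .ofNat (nat_lit 617611), .ofNat (nat_lit 510480), .ofNat (nat_lit 660309)⟩, ⟨.ofNat (nat_lit 607556), .ofNat (nat_lit 638963), .ofNat (nat_lit 628888), .ofNat (nat_lit 660294), .ofNat (nat_lit 596648), .ofNat (nat_lit 626615), .ofNat (nat_lit 617997), .ofNat (nat_lit 647963)⟩⟩, [⟨nat_lit 16, nat_lit 100, nat_lit 86, nat_lit 89, nat_lit 343197021⟩, ⟨nat_lit 19, nat_lit 100, nat_lit 81, nat_lit 88, nat_lit 5438165⟩]⟩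
noncomputable def p051_l27 : Lf2 := ⟨nat_lit 0, nat_lit 4, [nat_lit 38, nat_lit 5, nat_lit 5, nat_lit 20], false, nat_lit 320, nat_lit 352, nat_lit 4, nat_lit 160, ⟨nat_lit 1000, nat_lit 0, nat_lit 0, nat_lit 0, nat_lit 0, nat_lit 0, nat_lit 0, nat_lit 0, nat_lit 0, nat_lit 0, nat_lit 0, nat_lit 0, nat_lit 0, nat_lit 0, nat_lit 0, nat_lit 0, false, false⟩,
 nat_lit 0, nat_lit 0, nat_lit 6621, nat_lit 22216, nat_lit 6287, nat_lit 3505, nat_lit 0, nat_lit 0, nat_lit 0, nat_lit 4344, nat_lit 0, nat_lit 0, nat_lit 0, nat_lit 0, nat_lit 0, nat_lit 0, nat_lit 0, nat_lit 0, [],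
 ⟨p051_k8, nat_lit 0, nat_lit 0, nat_lit 65, nat_lit 0, nat_lit 0, [nat_lit 4688000000, nat_lit 6250000000, nat_lit 7968000000], [], [nat_lit 21353171010, nat_lit 22481554900, nat_lit 23820369912, nat_lit 24701286452, nat_lit 24166407379, nat_lit 25162091611, nat_lit 26147154537, nat_lit 27055686271], nat_lit 0, nat_lit 0, nat_lit 0, nat_lit 0, nat_lit 0, nat_lit 0, [], [nat_lit 9, nat_lit 40, nat_lit 40, nat_lit 80, nat_lit 2, nat_lit 272, nat_lit 60, nat_lit 8]⟩, ⟨p051_k7, nat_lit 0, nat_lit 0, nat_lit 217, nat_lit 0, nat_lit 119724, [nat_lit 4688000000, nat_lit 6250000000, nat_lit 7968000000], [], [nat_lit 38107487142, nat_lit 36228351493, nat_lit 33569902285, nat_lit 34338260328, nat_lit 30827817540, nat_lit 31628062730, nat_lit 37391323300, nat_lit 35739746270], nat_lit 1271250, nat_lit 1271250, nat_lit 780000, nat_lit 1762500, nat_lit 21650, nat_lit 1100001, [nat_lit 1100000, nat_lit 1442500, nat_lit 1271250],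 [nat_lit 9, nat_lit 40, nat_lit 40, nat_lit 80, nat_lit 2, nat_lit 317, nat_lit 100, nat_lit 11]⟩,
 zbF0, [⟨nat_lit 4, nat_lit 78, nat_lit 100, nat_lit 95, nat_lit 726490514⟩]⟩
noncomputable def p051_l28 : Lf2 := ⟨nat_lit 0, nat_lit 4, [nat_lit 38, nat_lit 5, nat_lit 5, nat_lit 20], false, nat_lit 320, nat_lit 352, nat_lit 4, nat_lit 160, ⟨nat_lit 1000, nat_lit 0, nat_lit 0, nat_lit 0, nat_lit 0, nat_lit 0, nat_lit 0, nat_lit 0, nat_lit 0, nat_lit 0, nat_lit 0, nat_lit 0, nat_lit 0, nat_lit 0, nat_lit 0, nat_lit 0, false, false⟩,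
 nat_lit 0, nat_lit 0, nat_lit 5589, nat_lit 10557, nat_lit 6399, nat_lit 3253, nat_lit 0, nat_lit 0, nat_lit 0, nat_lit 2277, nat_lit 0, nat_lit 0, nat_lit 0, nat_lit 0, nat_lit 0, nat_lit 0, nat_lit 0, nat_lit 0, [],
 ⟨p051_k8, nat_lit 0, nat_lit 0, nat_lit 65, nat_lit 0, nat_lit 0, [nat_lit 4688000000, nat_lit 6250000000, nat_lit 7968000000], [], [nat_lit 21269532770, nat_lit 22407489300, nat_lit 23729020024, nat_lit 24616031604, nat_lit 24113753088, nat_lit 25250978479, nat_lit 26212474863, nat_lit 27127175781], nat_lit 0, nat_lit 0, nat_lit 0, nat_lit 0, nat_lit 0, nat_lit 0, [], [nat_lit 9, nat_lit 40, nat_lit 40, nat_lit 80, nat_lit 2, nat_lit 272, nat_lit 60, nat_lit 8]⟩, ⟨p051_k8, nat_lit 0, nat_lit 0, nat_lit 253, nat_lit 0, nat_lit 291598, [nat_lit 4688000000, nat_lit 6250000000, nat_lit 7968000000], [], [nat_lit 35735686856, nat_lit 33991655966, nat_lit 32133892480, nat_lit 31874114632, nat_lit 30945788444,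 nat_lit 29392467502, nat_lit 38523455416, nat_lit 37031070100], nat_lit 1271250, nat_lit 1271250, nat_lit 780000, nat_lit 1762500, nat_lit 21650, nat_lit 1100001, [nat_lit 1100000, nat_lit 1442500, nat_lit 1271250], [nat_lit 9, nat_lit 40, nat_lit 40, nat_lit 80, nat_lit 2, nat_lit 317, nat_lit 100, nat_lit 10]⟩,
 zbF0, [⟨nat_lit 16, nat_lit 100, nat_lit 69, nat_lit 96, nat_lit 745558389⟩]⟩
noncomputable def p051_l29 : Lf2 := ⟨nat_lit 0, nat_lit 2, [nat_lit 10, nat_lit 5, nat_lit 5, nat_lit 20], true, nat_lit 320, nat_lit 352, nat_lit 160, nat_lit 364, ⟨nat_lit 0, nat_lit 1000, nat_lit 0, nat_lit 6, nat_lit 204, nat_lit 1000, nat_lit 266, nat_lit 0, nat_lit 0, nat_lit 0, nat_lit 0, nat_lit 0, nat_lit 37466200, nat_lit 11650520, nat_lit 17883280, nat_lit 5300965, false, false⟩,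
 nat_lit 0, nat_lit 0, nat_lit 0, nat_lit 20305, nat_lit 4927, nat_lit 0, nat_lit 0, nat_lit 0, nat_lit 0, nat_lit 0, nat_lit 0, nat_lit 0, nat_lit 0, nat_lit 0, nat_lit 0, nat_lit 1000000, nat_lit 0, nat_lit 0, [(nat_lit 9, [(nat_lit 2, nat_lit 1000)])],
 ⟨p051_k10, nat_lit 0, nat_lit 0, nat_lit 54, nat_lit 0, nat_lit 0, [nat_lit 2663466667, nat_lit 2329200000], [], [nat_lit 20344244877, nat_lit 21356389567, nat_lit 23017393814, nat_lit 23956283056, nat_lit 23027008654, nat_lit 24070196604, nat_lit 25353979145, nat_lit 26187599359], nat_lit 0, nat_lit 0, nat_lit 0, nat_lit 0, nat_lit 0, nat_lit 0, [], [nat_lit 31, nat_lit 40, nat_lit 40, nat_lit 80, nat_lit 3, nat_lit 272, nat_lit 60, nat_lit 9]⟩, C1.Rw.none,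
 ⟨nat_lit 5477, nat_lit 5917, ⟨.ofNat (nat_lit 385610), .ofNat (nat_lit 621176), .ofNat (nat_lit 396280), .ofNat (nat_lit 631842), .ofNat (nat_lit 392847), .ofNat (nat_lit 617611), .ofNat (nat_lit 403525), .ofNat (nat_lit 628285)⟩, ⟨.ofNat (nat_lit 628888), .ofNat (nat_lit 691700), .ofNat (nat_lit 650219), .ofNat (nat_lit 713031), .ofNat (nat_lit 617997), .ofNat (nat_lit 677929), .ofNat (nat_lit 639346), .ofNat (nat_lit 699278)⟩⟩, [⟨nat_lit 4, nat_lit 78, nat_lit 100, nat_lit 95, nat_lit 387743397⟩]⟩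
noncomputable def p051_l30 : Lf2 := ⟨nat_lit 0, nat_lit 2, [nat_lit 10, nat_lit 5, nat_lit 5, nat_lit 20], false, nat_lit 320, nat_lit 352, nat_lit 160, nat_lit 360, ⟨nat_lit 1000, nat_lit 0, nat_lit 0, nat_lit 0, nat_lit 0, nat_lit 0, nat_lit 0, nat_lit 0, nat_lit 0, nat_lit 0, nat_lit 0, nat_lit 0, nat_lit 0, nat_lit 0, nat_lit 0, nat_lit 0, false, false⟩,
 nat_lit 0, nat_lit 0, nat_lit 12068, nat_lit 19032, nat_lit 6719, nat_lit 6704, nat_lit 0, nat_lit 0, nat_lit 0, nat_lit 5824, nat_lit 0, nat_lit 0, nat_lit 0, nat_lit 0, nat_lit 0, nat_lit 0, nat_lit 0, nat_lit 0, [],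
 ⟨p051_k10, nat_lit 0, nat_lit 0, nat_lit 54, nat_lit 0, nat_lit 0, [nat_lit 4688000000, nat_lit 6250000000], [], [nat_lit 21030566370, nat_lit 22195873300, nat_lit 23600657558, nat_lit 24668294832, nat_lit 24309465640, nat_lit 25507670191, nat_lit 26399104367, nat_lit 27331431525], nat_lit 0, nat_lit 0, nat_lit 0, nat_lit 0, nat_lit 0, nat_lit 0, [], [nat_lit 31, nat_lit 40, nat_lit 40, nat_lit 80, nat_lit 3, nat_lit 272, nat_lit 60, nat_lit 9]⟩, ⟨p051_k11, nat_lit 0, nat_lit 0, nat_lit 133, nat_lit 0, nat_lit 110148, [nat_lit 4688000000, nat_lit 7968000000], [], [nat_lit 24428486224, nat_lit 22781910080, nat_lit 35286882512, nat_lit 33707400000, nat_lit 24825462244, nat_lit 25170734792, nat_lit 26640133172, nat_lit 27089001304], nat_lit 1271250, nat_lit 1271250, nat_lit 780000, nat_lit 1762500, nat_lit 1271250, nat_lit 1271250, [nat_lit 1100000, nat_lit 1785000], [nat_lit 39, nat_lit 40, nat_lit 40, nat_lit 80,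 nat_lit 7, nat_lit 373, nat_lit 150, nat_lit 12]⟩,
 zbF0, [⟨nat_lit 4, nat_lit 78, nat_lit 100, nat_lit 95, nat_lit 621519001⟩, ⟨nat_lit 11, nat_lit 75, nat_lit 75, nat_lit 100, nat_lit 264468643⟩]⟩
noncomputable def p051_l31 : Lf2 := ⟨nat_lit 1, nat_lit 4, [nat_lit 38, nat_lit 5, nat_lit 5, nat_lit 20], false, nat_lit 320, nat_lit 352, nat_lit 160, nat_lit 364, zbN0,
 nat_lit 0, nat_lit 0, nat_lit 0, nat_lit 0, nat_lit 0, nat_lit 0, nat_lit 0, nat_lit 0, nat_lit 0, nat_lit 0, nat_lit 0, nat_lit 0, nat_lit 0, nat_lit 0, nat_lit 0, nat_lit 0, nat_lit 0, nat_lit 0, [],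
 C1.Rw.none, C1.Rw.none,
 zbF0, []⟩
noncomputable def p051_l32 : Lf2 := ⟨nat_lit 0, nat_lit 4, [nat_lit 38, nat_lit 5, nat_lit 5, nat_lit 20], false, nat_lit 320, nat_lit 352, nat_lit 160, nat_lit 352, ⟨nat_lit 1000, nat_lit 0, nat_lit 0, nat_lit 0, nat_lit 0, nat_lit 0, nat_lit 0, nat_lit 0, nat_lit 0, nat_lit 0, nat_lit 0, nat_lit 0, nat_lit 0, nat_lit 0, nat_lit 0, nat_lit 0, false, false⟩,
 nat_lit 0, nat_lit 0, nat_lit 11949, nat_lit 529, nat_lit 6719, nat_lit 6955, nat_lit 0, nat_lit 0, nat_lit 0, nat_lit 1990, nat_lit 0, nat_lit 0, nat_lit 0, nat_lit 0, nat_lit 0, nat_lit 0, nat_lit 0, nat_lit 0, [],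
 ⟨p051_k8, nat_lit 0, nat_lit 0, nat_lit 65, nat_lit 0, nat_lit 0, [nat_lit 4688000000, nat_lit 6250000000, nat_lit 7968000000], [], [nat_lit 21030566370, nat_lit 22195873300, nat_lit 23600657558, nat_lit 24668294832, nat_lit 24309465640, nat_lit 25507670191, nat_lit 26399104367, nat_lit 27331431525], nat_lit 0, nat_lit 0, nat_lit 0, nat_lit 0, nat_lit 0, nat_lit 0, [], [nat_lit 9, nat_lit 40, nat_lit 40, nat_lit 80, nat_lit 2, nat_lit 272, nat_lit 60, nat_lit 8]⟩, ⟨p051_k8, nat_lit 0, nat_lit 0, nat_lit 149, nat_lit 0, nat_lit 195338, [nat_lit 4688000000, nat_lit 6250000000, nat_lit 7968000000], [], [nat_lit 19905671740, nat_lit 18172882175, nat_lit 30810604770, nat_lit 29149444750, nat_lit 24687394966, nat_lit 25088135745, nat_lit 26536743627, nat_lit 27009406882], nat_lit 1271250, nat_lit 1271250, nat_lit 780000, nat_lit 1762500, nat_lit 1271250, nat_lit 1271250, [nat_lit 1100000, nat_lit 1442500, nat_lit 1271250],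 [nat_lit 9, nat_lit 40, nat_lit 40, nat_lit 80, nat_lit 2, nat_lit 373, nat_lit 150, nat_lit 12]⟩,
 zbF0, [⟨nat_lit 16, nat_lit 100, nat_lit 78, nat_lit 95, nat_lit 560720693⟩, ⟨nat_lit 11, nat_lit 75, nat_lit 75, nat_lit 100, nat_lit 341479834⟩]⟩
noncomputable def p051_l33 : Lf2 := ⟨nat_lit 0, nat_lit 4, [nat_lit 38, nat_lit 5, nat_lit 5, nat_lit 20], false, nat_lit 320, nat_lit 344, nat_lit 160, nat_lit 344, ⟨nat_lit 1000, nat_lit 0, nat_lit 0, nat_lit 0, nat_lit 0, nat_lit 0, nat_lit 0, nat_lit 0, nat_lit 0, nat_lit 0, nat_lit 0, nat_lit 0, nat_lit 0, nat_lit 0, nat_lit 0, nat_lit 0, false, false⟩,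
 nat_lit 0, nat_lit 0, nat_lit 11129, nat_lit 0, nat_lit 6690, nat_lit 6777, nat_lit 0, nat_lit 0, nat_lit 0, nat_lit 1939, nat_lit 0, nat_lit 0, nat_lit 0, nat_lit 0, nat_lit 0, nat_lit 0, nat_lit 0, nat_lit 0, [],
 ⟨p051_k9, nat_lit 0, nat_lit 0, nat_lit 59, nat_lit 0, nat_lit 0, [nat_lit 4688000000, nat_lit 6250000000, nat_lit 7968000000], [], [nat_lit 21633636850, nat_lit 22215051000, nat_lit 24123995450, nat_lit 24656772320, nat_lit 24039048677, nat_lit 24658747548, nat_lit 26166665832, nat_lit 26648883716], nat_lit 0, nat_lit 0, nat_lit 0, nat_lit 0, nat_lit 0, nat_lit 0, [], [nat_lit 9, nat_lit 40, nat_lit 40, nat_lit 80, nat_lit 2, nat_lit 272, nat_lit 60, nat_lit 8]⟩, ⟨p051_k9, nat_lit 0, nat_lit 0, nat_lit 174, nat_lit 0, nat_lit 273251, [nat_lit 4688000000, nat_lit 6250000000, nat_lit 7968000000], [], [nat_lit 17727096270, nat_lit 16038654159, nat_lit 28523315475, nat_lit 26904669687, nat_lit 24276390255,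 nat_lit 24722723745, nat_lit 26214378363, nat_lit 26699174623], nat_lit 1271250, nat_lit 1271250, nat_lit 780000, nat_lit 1762500, nat_lit 1271250, nat_lit 1271250, [nat_lit 1100000, nat_lit 1442500, nat_lit 1271250], [nat_lit 9, nat_lit 40, nat_lit 40, nat_lit 80, nat_lit 2, nat_lit 373, nat_lit 150, nat_lit 12]⟩,
 zbF0, [⟨nat_lit 4, nat_lit 81, nat_lit 100, nat_lit 96, nat_lit 490708562⟩, ⟨nat_lit 11, nat_lit 75, nat_lit 75, nat_lit 100, nat_lit 410060482⟩]⟩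
noncomputable def p051_l34 : Lf2 := ⟨nat_lit 0, nat_lit 6, [nat_lit 47, nat_lit 5, nat_lit 5, nat_lit 20], true, nat_lit 320, nat_lit 364, nat_lit 4, nat_lit 364, ⟨nat_lit 0, nat_lit 1000, nat_lit 0, nat_lit 6, nat_lit 210, nat_lit 1000, nat_lit 269, nat_lit 0, nat_lit 0, nat_lit 0, nat_lit 0, nat_lit 0, nat_lit 36922138, nat_lit 12071555, nat_lit 18006307, nat_lit 5349801, false, false⟩,
 nat_lit 0, nat_lit 0, nat_lit 0, nat_lit 100000, nat_lit 5335, nat_lit 0, nat_lit 0, nat_lit 0, nat_lit 0, nat_lit 0, nat_lit 0, nat_lit 0, nat_lit 0, nat_lit 0, nat_lit 0, nat_lit 250000, nat_lit 0, nat_lit 0, [(nat_lit 6, [(nat_lit 0, nat_lit 1000)]), (nat_lit 9, [(nat_lit 0, nat_lit 1000)])],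
 ⟨p051_k4, nat_lit 0, nat_lit 0, nat_lit 73, nat_lit 0, nat_lit 0, [nat_lit 3128000000, nat_lit 3146133334, nat_lit 3771466666], [], [nat_lit 19457079600, nat_lit 21551112500, nat_lit 22207735260, nat_lit 24118392880, nat_lit 23425116065, nat_lit 25473221317, nat_lit 25693531855, nat_lit 27321637639], nat_lit 0, nat_lit 0, nat_lit 0, nat_lit 0, nat_lit 0, nat_lit 0, [], [nat_lit 11, nat_lit 40, nat_lit 40, nat_lit 80, nat_lit 1, nat_lit 373, nat_lit 150, nat_lit 10]⟩, C1.Rw.none,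
 ⟨nat_lit 5477, nat_lit 6325, ⟨.ofNat (nat_lit 378206), .ofNat (nat_lit 624852), .ofNat (nat_lit 420942), .ofNat (nat_lit 667525), .ofNat (nat_lit 392847), .ofNat (nat_lit 617499), .ofNat (nat_lit 435561), .ofNat (nat_lit 660151)⟩, ⟨.ofNat (nat_lit 618504), .ofNat (nat_lit 708908), .ofNat (nat_lit 661186), .ofNat (nat_lit 751581), .ofNat (nat_lit 596575), .ofNat (nat_lit 678915), .ofNat (nat_lit 639236), .ofNat (nat_lit 721567)⟩⟩, [⟨nat_lit 4, nat_lit 77, nat_lit 100, nat_lit 91, nat_lit 3073370315⟩]⟩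
noncomputable def b_V_600_600_20_6 : St := ⟨true, nat_lit 0, nat_lit 1, nat_lit 1, nat_lit 120, nat_lit 240, nat_lit 280, nat_lit 240, nat_lit 280, nat_lit 120, nat_lit 240, nat_lit 80, nat_lit 120, nat_lit 160, nat_lit 364, nat_lit 0, nat_lit 364, nat_lit 0, nat_lit 24, nat_lit 0, nat_lit 0, nat_lit 0, nat_lit 0⟩
theorem d_V_600_600_20_6 (h : EB TB.env) : Dead b_V_600_600_20_6 := chkB_sound0 h (T :=
(.spl (nat_lit 4) (nat_lit 240)
(.leaf p051_l13)
(.spl (nat_lit 4) (nat_lit 320)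
(.spl (nat_lit 4) (nat_lit 280)
(.leaf p051_l14)
(.spl (nat_lit 2) (nat_lit 160)
(.spl (nat_lit 4) (nat_lit 300)
(.leaf p051_l15)
(.trX (nat_lit 23) (nat_lit 88) (nat_lit 68) (nat_lit 100) (nat_lit 352) (.spl (nat_lit 5) (nat_lit 160)
(.leaf p051_l16)
(.spl (nat_lit 1) (nat_lit 260)
(.leaf p051_l17)
(.ord (.leaf p051_l18))))))
(.trZ (nat_lit 9) (nat_lit 94) (nat_lit 100) (nat_lit 21) (nat_lit 4) (.spl (nat_lit 2) (nat_lit 200)
(.spl (nat_lit 1) (nat_lit 260)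
(.leaf p051_l19)
(.ord (.trX (nat_lit 19) (nat_lit 100) (nat_lit 69) (nat_lit 96) (nat_lit 352) (.leaf p051_l20))))
(.trZ (nat_lit 9) (nat_lit 92) (nat_lit 100) (nat_lit 40) (nat_lit 16) (.leaf p051_l21))))))
(.trZ (nat_lit 9) (nat_lit 87) (nat_lit 100) (nat_lit 25) (nat_lit 4) (.spl (nat_lit 6) (nat_lit 16)
(.spl (nat_lit 0) (nat_lit 260)
(.ord (.leaf p051_l22))
(.trX (nat_lit 16) (nat_lit 100) (nat_lit 69) (nat_lit 96) (nat_lit 352) (.spl (nat_lit 3) (nat_lit 100)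
(.trX (nat_lit 16) (nat_lit 100) (nat_lit 77) (nat_lit 91) (nat_lit 336) (.trX (nat_lit 19) (nat_lit 100) (nat_lit 68) (nat_lit 88) (nat_lit 352) (.spl (nat_lit 2) (nat_lit 160)
(.trX (nat_lit 23) (nat_lit 82) (nat_lit 76) (nat_lit 100) (nat_lit 336) (.spl (nat_lit 5) (nat_lit 160)
(.leaf p051_l23)
(.spl (nat_lit 0) (nat_lit 270)
(.ord (.leaf p051_l24))
(.trX (nat_lit 16) (nat_lit 100) (nat_lit 82) (nat_lit 92) (nat_lit 328) (.leaf p051_l25)))))
(.trZ (nat_lit 9) (nat_lit 82) (nat_lit 100) (nat_lit 44) (nat_lit 16) (.leaf p051_l26)))))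
(.spl (nat_lit 5) (nat_lit 160)
(.spl (nat_lit 1) (nat_lit 260)
(.leaf p051_l27)
(.leaf p051_l28))
(.spl (nat_lit 1) (nat_lit 260)
(.spl (nat_lit 6) (nat_lit 8)
(.spl (nat_lit 1) (nat_lit 250)
(.leaf p051_l29)
(.trX (nat_lit 19) (nat_lit 100) (nat_lit 64) (nat_lit 95) (nat_lit 360) (.leaf p051_l30)))
(.leaf p051_l31))
(.trX (nat_lit 19) (nat_lit 100) (nat_lit 69) (nat_lit 96) (nat_lit 352) (.spl (nat_lit 1) (nat_lit 270)
(.leaf p051_l32)
(.ord (.trX (nat_lit 16) (nat_lit 100) (nat_lit 74) (nat_lit 98) (nat_lit 344) (.trX (nat_lit 19) (nat_lit 100) (nat_lit 74) (nat_lit 98) (nat_lit 344) (.leaf p051_l33)))))))))))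
(.leaf p051_l34)))))) (by decide +kernel)
noncomputable def p051_l35 : Lf2 := ⟨nat_lit 0, nat_lit 3, [nat_lit 45, nat_lit 5, nat_lit 5, nat_lit 20], false, nat_lit 0, nat_lit 364, nat_lit 0, nat_lit 364, ⟨nat_lit 1000, nat_lit 0, nat_lit 0, nat_lit 0, nat_lit 0, nat_lit 0, nat_lit 0, nat_lit 0, nat_lit 0, nat_lit 0, nat_lit 0, nat_lit 0, nat_lit 0, nat_lit 0, nat_lit 0, nat_lit 0, false, false⟩,
 nat_lit 0, nat_lit 0, nat_lit 12743, nat_lit 12636, nat_lit 6894, nat_lit 6746, nat_lit 1626, nat_lit 0, nat_lit 0, nat_lit 1583, nat_lit 0, nat_lit 0, nat_lit 0, nat_lit 0, nat_lit 0, nat_lit 0, nat_lit 0, nat_lit 0, [],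
 ⟨p051_k12, nat_lit 0, nat_lit 0, nat_lit 192, nat_lit 0, nat_lit 0, [nat_lit 4688000000, nat_lit 6250000000, nat_lit 7968000000], [], [nat_lit 22681914370, nat_lit 23867262554, nat_lit 36076446048, nat_lit 37067154376, nat_lit 27873168934, nat_lit 28568990106, nat_lit 35920871133, nat_lit 36350620481], nat_lit 0, nat_lit 0, nat_lit 0, nat_lit 0, nat_lit 0, nat_lit 0, [], [nat_lit 9, nat_lit 40, nat_lit 40, nat_lit 80, nat_lit 2, nat_lit 317, nat_lit 100, nat_lit 10]⟩, ⟨p051_k12, nat_lit 0, nat_lit 0, nat_lit 206, nat_lit 0, nat_lit 49374, [nat_lit 4688000000, nat_lit 6250000000, nat_lit 7968000000], [], [nat_lit 22937876955, nat_lit 24110343811, nat_lit 35705884832, nat_lit 36688244184, nat_lit 28900753972, nat_lit 28658383628, nat_lit 35728303212, nat_lit 36158940768], nat_lit 1271250, nat_lit 1271250, nat_lit 1271250, nat_lit 1271250, nat_lit 0, nat_lit 2570750, [nat_lit 1100000, nat_lit 1442500, nat_lit 1271250],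 [nat_lit 9, nat_lit 40, nat_lit 40, nat_lit 80, nat_lit 2, nat_lit 317, nat_lit 100, nat_lit 10]⟩,
 zbF0, [⟨nat_lit 4, nat_lit 72, nat_lit 100, nat_lit 89, nat_lit 209402196⟩, ⟨nat_lit 19, nat_lit 100, nat_lit 72, nat_lit 89, nat_lit 212304039⟩]⟩
noncomputable def p051_l36 : Lf2 := ⟨nat_lit 0, nat_lit 3, [nat_lit 45, nat_lit 5, nat_lit 5, nat_lit 20], false, nat_lit 0, nat_lit 352, nat_lit 0, nat_lit 364, ⟨nat_lit 1000, nat_lit 0, nat_lit 0, nat_lit 0, nat_lit 0, nat_lit 0, nat_lit 0, nat_lit 0, nat_lit 0, nat_lit 0, nat_lit 0, nat_lit 0, nat_lit 0, nat_lit 0, nat_lit 0, nat_lit 0, false, false⟩,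
 nat_lit 0, nat_lit 0, nat_lit 13313, nat_lit 0, nat_lit 6463, nat_lit 7047, nat_lit 2279, nat_lit 0, nat_lit 0, nat_lit 1355, nat_lit 0, nat_lit 0, nat_lit 0, nat_lit 0, nat_lit 0, nat_lit 0, nat_lit 0, nat_lit 0, [],
 ⟨p051_k13, nat_lit 0, nat_lit 0, nat_lit 193, nat_lit 0, nat_lit 0, [nat_lit 4688000000, nat_lit 6250000000, nat_lit 7968000000], [], [nat_lit 21601439515, nat_lit 22869348965, nat_lit 35963706452, nat_lit 36930101208, nat_lit 26564413099, nat_lit 27168403870, nat_lit 35146809757, nat_lit 35608867436], nat_lit 0, nat_lit 0, nat_lit 0, nat_lit 0, nat_lit 0, nat_lit 0, [], [nat_lit 9, nat_lit 40, nat_lit 40, nat_lit 80, nat_lit 2, nat_lit 317, nat_lit 100, nat_lit 10]⟩, ⟨p051_k12, nat_lit 0, nat_lit 0, nat_lit 296, nat_lit 0, nat_lit 280329, [nat_lit 4688000000, nat_lit 6250000000, nat_lit 7968000000], [], [nat_lit 26690638511, nat_lit 27599783193, nat_lit 36459526224, nat_lit 37458865588, nat_lit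 29682315003, nat_lit 30066672603, nat_lit 36119944727, nat_lit 36548775861], nat_lit 1271250, nat_lit 1271250, nat_lit 1271250, nat_lit 1271250, nat_lit 0, nat_lit 2570750, [nat_lit 1100000, nat_lit 1442500, nat_lit 1271250], [nat_lit 9, nat_lit 40, nat_lit 40, nat_lit 80, nat_lit 2, nat_lit 317, nat_lit 100, nat_lit 10]⟩,
 zbF0, [⟨nat_lit 16, nat_lit 100, nat_lit 82, nat_lit 92, nat_lit 189705706⟩, ⟨nat_lit 7, nat_lit 72, nat_lit 100, nat_lit 89, nat_lit 206413634⟩]⟩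
noncomputable def p051_l37 : Lf2 := ⟨nat_lit 1, nat_lit 6, [nat_lit 47, nat_lit 5, nat_lit 5, nat_lit 20], false, nat_lit 0, nat_lit 364, nat_lit 0, nat_lit 364, zbN0,
 nat_lit 0, nat_lit 0, nat_lit 0, nat_lit 0, nat_lit 0, nat_lit 0, nat_lit 0, nat_lit 0, nat_lit 0, nat_lit 0, nat_lit 0, nat_lit 0, nat_lit 0, nat_lit 0, nat_lit 0, nat_lit 0, nat_lit 0, nat_lit 0, [],
 C1.Rw.none, C1.Rw.none,
 zbF0, []⟩
noncomputable def p051_l38 : Lf2 := ⟨nat_lit 0, nat_lit 6, [nat_lit 47, nat_lit 5, nat_lit 5, nat_lit 20], false, nat_lit 0, nat_lit 352, nat_lit 0, nat_lit 352, ⟨nat_lit 1000, nat_lit 0, nat_lit 0, nat_lit 0, nat_lit 0, nat_lit 0, nat_lit 0, nat_lit 0, nat_lit 0, nat_lit 0, nat_lit 0, nat_lit 0, nat_lit 0, nat_lit 0, nat_lit 0, nat_lit 0, false, false⟩,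
 nat_lit 0, nat_lit 0, nat_lit 12201, nat_lit 4224, nat_lit 5835, nat_lit 7101, nat_lit 1546, nat_lit 0, nat_lit 0, nat_lit 1386, nat_lit 0, nat_lit 0, nat_lit 0, nat_lit 0, nat_lit 0, nat_lit 0, nat_lit 0, nat_lit 0, [],
 ⟨p051_k5, nat_lit 0, nat_lit 0, nat_lit 192, nat_lit 0, nat_lit 0, [nat_lit 4688000000, nat_lit 6250000000, nat_lit 7968000000], [], [nat_lit 24001395860, nat_lit 24547984390, nat_lit 34355898340, nat_lit 34821382350, nat_lit 28289687260, nat_lit 28557389433, nat_lit 34363672657, nat_lit 34595418421], nat_lit 0, nat_lit 0, nat_lit 0, nat_lit 0, nat_lit 0, nat_lit 0, [], [nat_lit 9, nat_lit 40, nat_lit 40, nat_lit 80, nat_lit 2, nat_lit 317, nat_lit 100, nat_lit 10]⟩, ⟨p051_k5, nat_lit 0, nat_lit 0, nat_lit 282, nat_lit 0, nat_lit 235034, [nat_lit 4688000000, nat_lit 6250000000, nat_lit 7968000000], [], [nat_lit 25174849444, nat_lit 25630912347, nat_lit 37597116604, nat_lit 38098309410, nat_lit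 27086519288, nat_lit 27290245084, nat_lit 35942417194, nat_lit 36172717693], nat_lit 1271250, nat_lit 1271250, nat_lit 1271250, nat_lit 1271250, nat_lit 0, nat_lit 2486000, [nat_lit 1100000, nat_lit 1442500, nat_lit 1271250], [nat_lit 9, nat_lit 40, nat_lit 40, nat_lit 80, nat_lit 2, nat_lit 317, nat_lit 100, nat_lit 10]⟩,
 zbF0, [⟨nat_lit 16, nat_lit 100, nat_lit 80, nat_lit 92, nat_lit 206601066⟩, ⟨nat_lit 19, nat_lit 100, nat_lit 80, nat_lit 92, nat_lit 180358351⟩]⟩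
noncomputable def p051_l39 : Lf2 := ⟨nat_lit 0, nat_lit 6, [nat_lit 47, nat_lit 5, nat_lit 5, nat_lit 20], false, nat_lit 0, nat_lit 344, nat_lit 0, nat_lit 352, ⟨nat_lit 1000, nat_lit 0, nat_lit 0, nat_lit 0, nat_lit 0, nat_lit 0, nat_lit 0, nat_lit 0, nat_lit 0, nat_lit 0, nat_lit 0, nat_lit 0, nat_lit 0, nat_lit 0, nat_lit 0, nat_lit 0, false, false⟩,
 nat_lit 0, nat_lit 0, nat_lit 11815, nat_lit 0, nat_lit 5741, nat_lit 6877, nat_lit 1564, nat_lit 0, nat_lit 0, nat_lit 1903, nat_lit 0, nat_lit 0, nat_lit 0, nat_lit 0, nat_lit 0, nat_lit 0, nat_lit 0, nat_lit 0, [],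
 ⟨p051_k0, nat_lit 0, nat_lit 0, nat_lit 193, nat_lit 0, nat_lit 0, [nat_lit 4688000000, nat_lit 6250000000, nat_lit 7968000000], [], [nat_lit 23980983694, nat_lit 24523481532, nat_lit 34578071810, nat_lit 35040904456, nat_lit 27659525300, nat_lit 27934962099, nat_lit 34080063365, nat_lit 34320928835], nat_lit 0, nat_lit 0, nat_lit 0, nat_lit 0, nat_lit 0, nat_lit 0, [], [nat_lit 9, nat_lit 40, nat_lit 40, nat_lit 80, nat_lit 2, nat_lit 317, nat_lit 100, nat_lit 10]⟩, ⟨p051_k5, nat_lit 0, nat_lit 0, nat_lit 364, nat_lit 0, nat_lit 444157, [nat_lit 4688000000, nat_lit 6250000000, nat_lit 7968000000], [], [nat_lit 26241650411, nat_lit 26989852823, nat_lit 37023630908, nat_lit 38013380232, nat_lit 27600536960, nat_lit 27931347300, nat_lit 35663081668, nat_lit 36124194101], nat_lit 1271250, nat_lit 1271250, nat_lit 1271250, nat_lit 1271250, nat_lit 0, nat_lit 2486000, [nat_lit 1100000, nat_lit 1442500, nat_lit 1271250],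 [nat_lit 9, nat_lit 40, nat_lit 40, nat_lit 80, nat_lit 2, nat_lit 317, nat_lit 100, nat_lit 10]⟩,
 zbF0, [⟨nat_lit 4, nat_lit 85, nat_lit 100, nat_lit 93, nat_lit 194482820⟩, ⟨nat_lit 19, nat_lit 100, nat_lit 82, nat_lit 92, nat_lit 180928769⟩]⟩
noncomputable def b_V_600_600_20_7 : St := ⟨true, nat_lit 0, nat_lit 1, nat_lit 1, nat_lit 120, nat_lit 240, nat_lit 280, nat_lit 240, nat_lit 280, nat_lit 240, nat_lit 400, nat_lit 80, nat_lit 120, nat_lit 0, nat_lit 364, nat_lit 0, nat_lit 364, nat_lit 0, nat_lit 24, nat_lit 0, nat_lit 0, nat_lit 0, nat_lit 0⟩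
theorem d_V_600_600_20_7 (h : EB TB.env) : Dead b_V_600_600_20_7 := chkB_sound0 h (T :=
(.spl (nat_lit 1) (nat_lit 260)
(.spl (nat_lit 6) (nat_lit 12)
(.spl (nat_lit 0) (nat_lit 260)
(.leaf p051_l35)
(.trX (nat_lit 16) (nat_lit 100) (nat_lit 69) (nat_lit 96) (nat_lit 352) (.leaf p051_l36)))
(.leaf p051_l37))
(.ord (.trX (nat_lit 16) (nat_lit 100) (nat_lit 69) (nat_lit 96) (nat_lit 352) (.trX (nat_lit 19) (nat_lit 100) (nat_lit 69) (nat_lit 96) (nat_lit 352) (.spl (nat_lit 0) (nat_lit 270)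
(.ord (.leaf p051_l38))
(.trX (nat_lit 16) (nat_lit 100) (nat_lit 74) (nat_lit 98) (nat_lit 344) (.leaf p051_l39)))))))) (by decide +kernel)
noncomputable def p051_l40 : Lf2 := ⟨nat_lit 0, nat_lit 6, [nat_lit 47, nat_lit 5, nat_lit 5, nat_lit 20], true, nat_lit 0, nat_lit 364, nat_lit 0, nat_lit 364, ⟨nat_lit 0, nat_lit 1000, nat_lit 0, nat_lit 6, nat_lit 163, nat_lit 1000, nat_lit 145, nat_lit 0, nat_lit 0, nat_lit 0, nat_lit 0, nat_lit 0, nat_lit 0, nat_lit 0, nat_lit 0, nat_lit 5000000, false, false⟩,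
 nat_lit 0, nat_lit 0, nat_lit 0, nat_lit 13598, nat_lit 4753, nat_lit 0, nat_lit 1511, nat_lit 0, nat_lit 0, nat_lit 0, nat_lit 0, nat_lit 0, nat_lit 0, nat_lit 31606449341522, nat_lit 0, nat_lit 400000, nat_lit 0, nat_lit 0, [(nat_lit 6, [(nat_lit 1, nat_lit 1000)])],
 ⟨p051_k4, nat_lit 0, nat_lit 0, nat_lit 283, nat_lit 0, nat_lit 0, [nat_lit 2692266667, nat_lit 3151066667, nat_lit 3294533333], [], [nat_lit 16746113531, nat_lit 17985805004, nat_lit 19490440474, nat_lit 20583673424, nat_lit 26496146204, nat_lit 27301424347, nat_lit 26369298750, nat_lit 26914001182], nat_lit 0, nat_lit 0, nat_lit 0, nat_lit 0, nat_lit 0, nat_lit 0, [], [nat_lit 11, nat_lit 40, nat_lit 40, nat_lit 80, nat_lit 1, nat_lit 456, nat_lit 225, nat_lit 14]⟩, C1.Rw.none,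
 ⟨nat_lit 5916, nat_lit 6325, ⟨.ofNat (nat_lit 164319), .ofNat (nat_lit 624961), .ofNat (nat_lit 185687), .ofNat (nat_lit 646322), .ofNat (nat_lit 181423), .ofNat (nat_lit 621173), .ofNat (nat_lit 202762), .ofNat (nat_lit 642505)⟩, ⟨.negSucc (nat_lit 39529), .ofNat (nat_lit 709020), .ofNat (nat_lit 0), .ofNat (nat_lit 751741), .negSucc (nat_lit 20704), .ofNat (nat_lit 693896), .ofNat (nat_lit 0), .ofNat (nat_lit 736560)⟩⟩, [⟨nat_lit 4, nat_lit 72, nat_lit 100, nat_lit 89, nat_lit 156122932⟩]⟩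
noncomputable def p051_l41 : Lf2 := ⟨nat_lit 0, nat_lit 6, [nat_lit 47, nat_lit 5, nat_lit 5, nat_lit 20], true, nat_lit 0, nat_lit 352, nat_lit 0, nat_lit 364, ⟨nat_lit 0, nat_lit 1000, nat_lit 0, nat_lit 6, nat_lit 173, nat_lit 1000, nat_lit 137, nat_lit 0, nat_lit 0, nat_lit 0, nat_lit 0, nat_lit 0, nat_lit 0, nat_lit 0, nat_lit 0, nat_lit 5000000, false, false⟩,
 nat_lit 0, nat_lit 0, nat_lit 0, nat_lit 7099, nat_lit 4800, nat_lit 0, nat_lit 546, nat_lit 0, nat_lit 0, nat_lit 0, nat_lit 0, nat_lit 0, nat_lit 0, nat_lit 22210816266368, nat_lit 0, nat_lit 400000, nat_lit 0, nat_lit 0, [(nat_lit 9, [(nat_lit 1, nat_lit 1000)])],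
 ⟨p051_k5, nat_lit 0, nat_lit 0, nat_lit 180, nat_lit 0, nat_lit 0, [nat_lit 2702720000, nat_lit 2862800001, nat_lit 3030799999], [], [nat_lit 18215236559, nat_lit 19604379199, nat_lit 20698646799, nat_lit 21701741599, nat_lit 25785063311, nat_lit 26608032671, nat_lit 25587362399, nat_lit 26108653920], nat_lit 0, nat_lit 0, nat_lit 0, nat_lit 0, nat_lit 0, nat_lit 0, [], [nat_lit 9, nat_lit 40, nat_lit 40, nat_lit 80, nat_lit 2, nat_lit 373, nat_lit 150, nat_lit 13]⟩, C1.Rw.none,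
 ⟨nat_lit 5477, nat_lit 5917, ⟨.ofNat (nat_lit 197129), .ofNat (nat_lit 621176), .ofNat (nat_lit 239808), .ofNat (nat_lit 663838), .ofNat (nat_lit 213007), .ofNat (nat_lit 617611), .ofNat (nat_lit 255721), .ofNat (nat_lit 660309)⟩, ⟨.negSucc (nat_lit 20704), .ofNat (nat_lit 670368), .ofNat (nat_lit 0), .ofNat (nat_lit 713031), .negSucc (nat_lit 2808), .ofNat (nat_lit 656580), .ofNat (nat_lit 0), .ofNat (nat_lit 699278)⟩⟩, [⟨nat_lit 4, nat_lit 82, nat_lit 100, nat_lit 92, nat_lit 127605524⟩]⟩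
noncomputable def p051_l42 : Lf2 := ⟨nat_lit 0, nat_lit 6, [nat_lit 47, nat_lit 5, nat_lit 5, nat_lit 20], false, nat_lit 0, nat_lit 364, nat_lit 0, nat_lit 364, ⟨nat_lit 1000, nat_lit 0, nat_lit 0, nat_lit 0, nat_lit 0, nat_lit 0, nat_lit 0, nat_lit 0, nat_lit 0, nat_lit 0, nat_lit 0, nat_lit 0, nat_lit 0, nat_lit 0, nat_lit 0, nat_lit 0, false, false⟩,
 nat_lit 0, nat_lit 0, nat_lit 0, nat_lit 24200, nat_lit 6642, nat_lit 6906, nat_lit 1698, nat_lit 0, nat_lit 0, nat_lit 1697, nat_lit 0, nat_lit 0, nat_lit 0, nat_lit 0, nat_lit 0, nat_lit 0, nat_lit 0, nat_lit 0, [],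
 ⟨p051_k4, nat_lit 0, nat_lit 0, nat_lit 215, nat_lit 0, nat_lit 0, [nat_lit 4688000000, nat_lit 6250000000, nat_lit 9842000000], [], [nat_lit 24375186884, nat_lit 26443039428, nat_lit 35668167852, nat_lit 37398475472, nat_lit 28320117879, nat_lit 29410156263, nat_lit 35592985214, nat_lit 36455508616], nat_lit 0, nat_lit 0, nat_lit 0, nat_lit 0, nat_lit 0, nat_lit 0, [], [nat_lit 11, nat_lit 40, nat_lit 40, nat_lit 80, nat_lit 1, nat_lit 538, nat_lit 300, nat_lit 15]⟩, ⟨p051_k4, nat_lit 0, nat_lit 0, nat_lit 215, nat_lit 0, nat_lit 0, [nat_lit 4688000000, nat_lit 6250000000, nat_lit 9842000000], [], [nat_lit 24090238362, nat_lit 26245451410, nat_lit 36106491552, nat_lit 38089262096, nat_lit 28165336405, nat_lit 29259214439, nat_lit 35936484748, nat_lit 36795839411], nat_lit 0, nat_lit 0, nat_lit 0, nat_lit 0, nat_lit 0, nat_lit 0, [], [nat_lit 11, nat_lit 40, nat_lit 40, nat_lit 80, nat_lit 1, nat_lit 538, nat_lit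 300, nat_lit 15]⟩,
 zbF0, [⟨nat_lit 4, nat_lit 77, nat_lit 100, nat_lit 91, nat_lit 201386455⟩, ⟨nat_lit 7, nat_lit 77, nat_lit 100, nat_lit 91, nat_lit 196098726⟩]⟩
noncomputable def p051_l43 : Lf2 := ⟨nat_lit 0, nat_lit 6, [nat_lit 47, nat_lit 5, nat_lit 5, nat_lit 20], true, nat_lit 0, nat_lit 364, nat_lit 0, nat_lit 364, ⟨nat_lit 0, nat_lit 1000, nat_lit 0, nat_lit 6, nat_lit 163, nat_lit 1000, nat_lit 145, nat_lit 0, nat_lit 0, nat_lit 0, nat_lit 0, nat_lit 0, nat_lit 0, nat_lit 0, nat_lit 0, nat_lit 5000000, false, false⟩,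
 nat_lit 0, nat_lit 0, nat_lit 0, nat_lit 13598, nat_lit 4753, nat_lit 0, nat_lit 1511, nat_lit 0, nat_lit 0, nat_lit 0, nat_lit 0, nat_lit 0, nat_lit 0, nat_lit 31606449341522, nat_lit 0, nat_lit 400000, nat_lit 0, nat_lit 0, [(nat_lit 6, [(nat_lit 1, nat_lit 1000)])],
 ⟨p051_k4, nat_lit 0, nat_lit 0, nat_lit 283, nat_lit 0, nat_lit 0, [nat_lit 2692266667, nat_lit 3151066667, nat_lit 3294533333], [], [nat_lit 16746113531, nat_lit 17985805004, nat_lit 19490440474, nat_lit 20583673424, nat_lit 26496146204, nat_lit 27301424347, nat_lit 26369298750, nat_lit 26914001182], nat_lit 0, nat_lit 0, nat_lit 0, nat_lit 0, nat_lit 0, nat_lit 0, [], [nat_lit 11, nat_lit 40, nat_lit 40, nat_lit 80, nat_lit 1, nat_lit 456, nat_lit 225, nat_lit 14]⟩, C1.Rw.none,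
 ⟨nat_lit 5916, nat_lit 6325, ⟨.ofNat (nat_lit 164319), .ofNat (nat_lit 624961), .ofNat (nat_lit 185687), .ofNat (nat_lit 646322), .ofNat (nat_lit 181423), .ofNat (nat_lit 621173), .ofNat (nat_lit 202762), .ofNat (nat_lit 642505)⟩, ⟨.negSucc (nat_lit 39529), .ofNat (nat_lit 709020), .ofNat (nat_lit 0), .ofNat (nat_lit 751741), .negSucc (nat_lit 20704), .ofNat (nat_lit 693896), .ofNat (nat_lit 0), .ofNat (nat_lit 736560)⟩⟩, [⟨nat_lit 4, nat_lit 72, nat_lit 100, nat_lit 89, nat_lit 156122932⟩]⟩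
noncomputable def p051_l44 : Lf2 := ⟨nat_lit 0, nat_lit 6, [nat_lit 47, nat_lit 5, nat_lit 5, nat_lit 20], true, nat_lit 0, nat_lit 352, nat_lit 0, nat_lit 364, ⟨nat_lit 0, nat_lit 1000, nat_lit 0, nat_lit 6, nat_lit 173, nat_lit 1000, nat_lit 137, nat_lit 0, nat_lit 0, nat_lit 0, nat_lit 0, nat_lit 0, nat_lit 0, nat_lit 0, nat_lit 0, nat_lit 5000000, false, false⟩,
 nat_lit 0, nat_lit 0, nat_lit 0, nat_lit 6466, nat_lit 5007, nat_lit 0, nat_lit 0, nat_lit 0, nat_lit 0, nat_lit 0, nat_lit 0, nat_lit 0, nat_lit 0, nat_lit 21353225087030, nat_lit 0, nat_lit 851200, nat_lit 0, nat_lit 0, [(nat_lit 9, [(nat_lit 1, nat_lit 248), (nat_lit 2, nat_lit 752)])],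
 ⟨p051_k14, nat_lit 0, nat_lit 0, nat_lit 166, nat_lit 0, nat_lit 0, [nat_lit 3057436800, nat_lit 1948564267], [], [nat_lit 18665559630, nat_lit 20084996471, nat_lit 21037581679, nat_lit 22058692931, nat_lit 26134606342, nat_lit 26903416265, nat_lit 25806212439, nat_lit 26330314688], nat_lit 0, nat_lit 0, nat_lit 0, nat_lit 0, nat_lit 0, nat_lit 0, [], [nat_lit 39, nat_lit 40, nat_lit 40, nat_lit 80, nat_lit 7, nat_lit 373, nat_lit 150, nat_lit 13]⟩, C1.Rw.none,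
 ⟨nat_lit 5477, nat_lit 5917, ⟨.ofNat (nat_lit 197129), .ofNat (nat_lit 621176), .ofNat (nat_lit 239808), .ofNat (nat_lit 663838), .ofNat (nat_lit 213007), .ofNat (nat_lit 617611), .ofNat (nat_lit 255721), .ofNat (nat_lit 660309)⟩, ⟨.negSucc (nat_lit 20704), .ofNat (nat_lit 670368), .ofNat (nat_lit 0), .ofNat (nat_lit 713031), .negSucc (nat_lit 2808), .ofNat (nat_lit 656580), .ofNat (nat_lit 0), .ofNat (nat_lit 699278)⟩⟩, [⟨nat_lit 16, nat_lit 100, nat_lit 82, nat_lit 92, nat_lit 125523129⟩]⟩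
noncomputable def p051_l45 : Lf2 := ⟨nat_lit 0, nat_lit 6, [nat_lit 47, nat_lit 5, nat_lit 5, nat_lit 20], false, nat_lit 0, nat_lit 160, nat_lit 0, nat_lit 364, ⟨nat_lit 594, nat_lit 406, nat_lit 0, nat_lit 6, nat_lit 320, nat_lit 406, nat_lit 63, nat_lit 0, nat_lit 0, nat_lit 0, nat_lit 0, nat_lit 0, nat_lit 0, nat_lit 0, nat_lit 0, nat_lit 5000000, true, true⟩,
 nat_lit 0, nat_lit 0, nat_lit 7662, nat_lit 0, nat_lit 6294, nat_lit 4056, nat_lit 1638, nat_lit 0, nat_lit 0, nat_lit 886, nat_lit 0, nat_lit 0, nat_lit 0, nat_lit 0, nat_lit 0, nat_lit 162400, nat_lit 0, nat_lit 0, [(nat_lit 6, [(nat_lit 1, nat_lit 406)]), (nat_lit 9, [(nat_lit 1, nat_lit 406)])],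
 ⟨p051_k4, nat_lit 0, nat_lit 0, nat_lit 215, nat_lit 0, nat_lit 0, [nat_lit 3881976320, nat_lit 4991833067, nat_lit 7132843200], [], [nat_lit 21431455308, nat_lit 23628115540, nat_lit 34574170848, nat_lit 36487893104, nat_lit 18370009356, nat_lit 20105517787, nat_lit 28307474211, nat_lit 29695384272], nat_lit 0, nat_lit 0, nat_lit 0, nat_lit 0, nat_lit 0, nat_lit 0, [], [nat_lit 11, nat_lit 40, nat_lit 40, nat_lit 80, nat_lit 1, nat_lit 456, nat_lit 225, nat_lit 13]⟩, ⟨p051_k4, nat_lit 0, nat_lit 0, nat_lit 439, nat_lit 0, nat_lit 510099, [nat_lit 2784672000, nat_lit 3712500000, nat_lit 5846148000], [], [nat_lit 18773177852, nat_lit 19485333140, nat_lit 22456153652, nat_lit 22911535940, nat_lit 19383097169, nat_lit 19754281456, nat_lit 21597739679, nat_lit 21801413296], nat_lit 1271250, nat_lit 1271250, nat_lit 1271250, nat_lit 1271250, nat_lit 0, nat_lit 2570750, [nat_lit 1100000, nat_lit 1442500, nat_lit 1271250],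 [nat_lit 11, nat_lit 40, nat_lit 40, nat_lit 80, nat_lit 1, nat_lit 538, nat_lit 300, nat_lit 15]⟩,
 ⟨nat_lit 5477, nat_lit 6325, ⟨.ofNat (nat_lit 624852), .ofNat (nat_lit 953563), .ofNat (nat_lit 667525), .ofNat (nat_lit 996238), .ofNat (nat_lit 617499), .ofNat (nat_lit 916886), .ofNat (nat_lit 660151), .ofNat (nat_lit 959538)⟩, ⟨.negSucc (nat_lit 39529), .ofNat (nat_lit 289527), .ofNat (nat_lit 0), .ofNat (nat_lit 332263), .negSucc (nat_lit 2808), .ofNat (nat_lit 296923), .ofNat (nat_lit 0), .ofNat (nat_lit 339637)⟩⟩, [⟨nat_lit 19, nat_lit 100, nat_lit 77, nat_lit 91, nat_lit 12928690⟩, ⟨nat_lit 22, nat_lit 83, nat_lit 100, nat_lit 83, nat_lit 129963774⟩]⟩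
noncomputable def p051_l46 : Lf2 := ⟨nat_lit 0, nat_lit 6, [nat_lit 47, nat_lit 5, nat_lit 5, nat_lit 20], false, nat_lit 160, nat_lit 364, nat_lit 0, nat_lit 364, ⟨nat_lit 857, nat_lit 143, nat_lit 0, nat_lit 6, nat_lit 316, nat_lit 143, nat_lit 206, nat_lit 0, nat_lit 0, nat_lit 0, nat_lit 0, nat_lit 0, nat_lit 0, nat_lit 0, nat_lit 0, nat_lit 5000000, true, true⟩,
 nat_lit 0, nat_lit 0, nat_lit 11280, nat_lit 0, nat_lit 5557, nat_lit 5971, nat_lit 0, nat_lit 0, nat_lit 0, nat_lit 1300, nat_lit 0, nat_lit 0, nat_lit 0, nat_lit 0, nat_lit 0, nat_lit 57200, nat_lit 0, nat_lit 0, [(nat_lit 6, [(nat_lit 1, nat_lit 143)]), (nat_lit 9, [(nat_lit 1, nat_lit 143)])],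
 ⟨p051_k4, nat_lit 0, nat_lit 0, nat_lit 89, nat_lit 0, nat_lit 0, [nat_lit 4404104960, nat_lit 5806852534, nat_lit 8887789600], [], [nat_lit 15593776528, nat_lit 18141090300, nat_lit 27435658660, nat_lit 28877544216, nat_lit 26341146494, nat_lit 27765284340, nat_lit 34181254173, nat_lit 35056800613], nat_lit 0, nat_lit 0, nat_lit 0, nat_lit 0, nat_lit 0, nat_lit 0, [], [nat_lit 11, nat_lit 40, nat_lit 40, nat_lit 80, nat_lit 1, nat_lit 538, nat_lit 300, nat_lit 15]⟩, ⟨p051_k4, nat_lit 0, nat_lit 0, nat_lit 337, nat_lit 0, nat_lit 285790, [nat_lit 4017616000, nat_lit 5356250000, nat_lit 8434594000], [], [nat_lit 23881671604, nat_lit 24570669136, nat_lit 31396574916, nat_lit 31927439640, nat_lit 25601804054, nat_lit 25955273688, nat_lit 30865952461, nat_lit 31233870513], nat_lit 1271250, nat_lit 1271250, nat_lit 1271250, nat_lit 1271250, nat_lit 0, nat_lit 2570750, [nat_lit 1100000, nat_lit 1442500, nat_lit 1271250],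 [nat_lit 11, nat_lit 40, nat_lit 40, nat_lit 80, nat_lit 1, nat_lit 538, nat_lit 300, nat_lit 15]⟩,
 ⟨nat_lit 5477, nat_lit 6325, ⟨.ofNat (nat_lit 624852), .ofNat (nat_lit 953563), .ofNat (nat_lit 646189), .ofNat (nat_lit 974900), .ofNat (nat_lit 617499), .ofNat (nat_lit 916886), .ofNat (nat_lit 638825), .ofNat (nat_lit 938212)⟩, ⟨.ofNat (nat_lit 289527), .ofNat (nat_lit 708908), .ofNat (nat_lit 332263), .ofNat (nat_lit 751581), .ofNat (nat_lit 296923), .ofNat (nat_lit 678915), .ofNat (nat_lit 339637), .ofNat (nat_lit 721567)⟩⟩, [⟨nat_lit 4, nat_lit 77, nat_lit 100, nat_lit 91, nat_lit 400520970⟩, ⟨nat_lit 7, nat_lit 72, nat_lit 100, nat_lit 89, nat_lit 178368051⟩]⟩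
noncomputable def p051_l47 : Lf2 := ⟨nat_lit 0, nat_lit 6, [nat_lit 47, nat_lit 5, nat_lit 5, nat_lit 20], false, nat_lit 160, nat_lit 352, nat_lit 0, nat_lit 352, ⟨nat_lit 877, nat_lit 123, nat_lit 0, nat_lit 6, nat_lit 322, nat_lit 123, nat_lit 200, nat_lit 0, nat_lit 0, nat_lit 0, nat_lit 0, nat_lit 0, nat_lit 0, nat_lit 0, nat_lit 0, nat_lit 5000000, true, true⟩,
 nat_lit 0, nat_lit 0, nat_lit 9586, nat_lit 0, nat_lit 5585, nat_lit 5579, nat_lit 0, nat_lit 0, nat_lit 0, nat_lit 1824, nat_lit 0, nat_lit 0, nat_lit 0, nat_lit 3236055187472, nat_lit 0, nat_lit 103800, nat_lit 0, nat_lit 0, [(nat_lit 9, [(nat_lit 1, nat_lit 32), (nat_lit 2, nat_lit 91)])],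
 ⟨p051_k5, nat_lit 0, nat_lit 0, nat_lit 86, nat_lit 0, nat_lit 0, [nat_lit 4440238507, nat_lit 5784816800, nat_lit 7219630800], [], [nat_lit 16866736377, nat_lit 18143641207, nat_lit 28187023127, nat_lit 28908915247, nat_lit 26275592280, nat_lit 27024021247, nat_lit 34051914257, nat_lit 34515976584], nat_lit 0, nat_lit 0, nat_lit 0, nat_lit 0, nat_lit 0, nat_lit 0, [], [nat_lit 9, nat_lit 40, nat_lit 40, nat_lit 80, nat_lit 2, nat_lit 317, nat_lit 100, nat_lit 9]⟩, ⟨p051_k5, nat_lit 0, nat_lit 0, nat_lit 364, nat_lit 0, nat_lit 444157, [nat_lit 4111376000, nat_lit 5481250000, nat_lit 6987936000], [], [nat_lit 24007098014, nat_lit 24645658392, nat_lit 31312181832, nat_lit 32154686488, nat_lit 25608038800, nat_lit 25964089426, nat_lit 30712702568, nat_lit 31118130473], nat_lit 1271250, nat_lit 1271250, nat_lit 1271250, nat_lit 1271250, nat_lit 0, nat_lit 2486000, [nat_lit 1100000, nat_lit 1442500, nat_lit 1271250],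 [nat_lit 9, nat_lit 40, nat_lit 40, nat_lit 80, nat_lit 2, nat_lit 317, nat_lit 100, nat_lit 10]⟩,
 ⟨nat_lit 5477, nat_lit 5917, ⟨.ofNat (nat_lit 642507), .ofNat (nat_lit 956565), .ofNat (nat_lit 663838), .ofNat (nat_lit 977896), .ofNat (nat_lit 638960), .ofNat (nat_lit 938616), .ofNat (nat_lit 660309), .ofNat (nat_lit 959965)⟩, ⟨.ofNat (nat_lit 293429), .ofNat (nat_lit 670368), .ofNat (nat_lit 336108), .ofNat (nat_lit 713031), .ofNat (nat_lit 296923), .ofNat (nat_lit 656580), .ofNat (nat_lit 339637), .ofNat (nat_lit 699278)⟩⟩, [⟨nat_lit 4, nat_lit 82, nat_lit 100, nat_lit 92, nat_lit 390688722⟩, ⟨nat_lit 7, nat_lit 82, nat_lit 100, nat_lit 92, nat_lit 168241829⟩]⟩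
noncomputable def b_V_600_600_20_8 : St := ⟨true, nat_lit 0, nat_lit 2, nat_lit 2, nat_lit 120, nat_lit 240, nat_lit 280, nat_lit 240, nat_lit 280, nat_lit 16, nat_lit 400, nat_lit 80, nat_lit 120, nat_lit 0, nat_lit 364, nat_lit 0, nat_lit 364, nat_lit 0, nat_lit 24, nat_lit 0, nat_lit 0, nat_lit 0, nat_lit 0⟩
theorem d_V_600_600_20_8 (h : EB TB.env) : Dead b_V_600_600_20_8 := chkB_sound0 h (T :=
(.st (nat_lit 1)
(.spl (nat_lit 2) (nat_lit 240)
(.spl (nat_lit 0) (nat_lit 260)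
(.ord (.leaf p051_l40))
(.trZ (nat_lit 0) (nat_lit 100) (nat_lit 97) (nat_lit 49) (nat_lit 24) (.trX (nat_lit 16) (nat_lit 100) (nat_lit 69) (nat_lit 96) (nat_lit 352) (.leaf p051_l41))))
(.leaf p051_l42))
(.spl (nat_lit 2) (nat_lit 240)
(.spl (nat_lit 0) (nat_lit 260)
(.ord (.leaf p051_l43))
(.trZ (nat_lit 0) (nat_lit 100) (nat_lit 97) (nat_lit 49) (nat_lit 24) (.trX (nat_lit 16) (nat_lit 100) (nat_lit 69) (nat_lit 96) (nat_lit 352) (.leaf p051_l44))))
(.spl (nat_lit 4) (nat_lit 160)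
(.leaf p051_l45)
(.spl (nat_lit 1) (nat_lit 260)
(.leaf p051_l46)
(.ord (.trX (nat_lit 16) (nat_lit 100) (nat_lit 69) (nat_lit 96) (nat_lit 352) (.trX (nat_lit 19) (nat_lit 100) (nat_lit 69) (nat_lit 96) (nat_lit 352) (.leaf p051_l47))))))))) (by decide +kernel)
noncomputable def p051_l48 : Lf2 := ⟨nat_lit 0, nat_lit 6, [nat_lit 47, nat_lit 5, nat_lit 5, nat_lit 20], false, nat_lit 0, nat_lit 160, nat_lit 0, nat_lit 160, ⟨nat_lit 1000, nat_lit 0, nat_lit 0, nat_lit 0, nat_lit 0, nat_lit 0, nat_lit 0, nat_lit 0, nat_lit 0, nat_lit 0, nat_lit 0, nat_lit 0, nat_lit 0, nat_lit 0, nat_lit 0, nat_lit 0, false, false⟩,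
 nat_lit 0, nat_lit 14527, nat_lit 0, nat_lit 17320, nat_lit 7690, nat_lit 8249, nat_lit 998, nat_lit 0, nat_lit 0, nat_lit 3551, nat_lit 0, nat_lit 0, nat_lit 0, nat_lit 30409495038820, nat_lit 0, nat_lit 0, nat_lit 0, nat_lit 0, [],
 ⟨p051_k4, nat_lit 0, nat_lit 0, nat_lit 432, nat_lit 0, nat_lit 282667, [nat_lit 4688000000, nat_lit 6250000000, nat_lit 9842000000], [], [nat_lit 42529545424, nat_lit 34446524904, nat_lit 29640785520, nat_lit 31174607020, nat_lit 32431244464, nat_lit 29761272533, nat_lit 34574363400, nat_lit 27328684260], nat_lit 1271250, nat_lit 1271250, nat_lit 88400, nat_lit 490000, nat_lit 0, nat_lit 1100001, [nat_lit 1100000, nat_lit 1442500, nat_lit 1271250], [nat_lit 11, nat_lit 40, nat_lit 40, nat_lit 80, nat_lit 1, nat_lit 373, nat_lit 150, nat_lit 11]⟩, ⟨p051_k4, nat_lit 0, nat_lit 0, nat_lit 289, nat_lit 0, nat_lit 0, [nat_lit 4688000000, nat_lit 6250000000, nat_lit 9842000000], [], [nat_lit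 19160114452, nat_lit 24587885682, nat_lit 14745893824, nat_lit 18964873288, nat_lit 14475498146, nat_lit 17972370010, nat_lit 11641278492, nat_lit 14939203244], nat_lit 0, nat_lit 0, nat_lit 0, nat_lit 0, nat_lit 0, nat_lit 0, [], [nat_lit 11, nat_lit 40, nat_lit 40, nat_lit 80, nat_lit 1, nat_lit 373, nat_lit 150, nat_lit 11]⟩,
 zbF0, [⟨nat_lit 0, nat_lit 100, nat_lit 100, nat_lit 60, nat_lit 1221824965⟩]⟩
noncomputable def p051_l49 : Lf2 := ⟨nat_lit 0, nat_lit 6, [nat_lit 47, nat_lit 5, nat_lit 5, nat_lit 20], false, nat_lit 0, nat_lit 160, nat_lit 0, nat_lit 160, ⟨nat_lit 1000, nat_lit 0, nat_lit 0, nat_lit 0, nat_lit 0, nat_lit 0, nat_lit 0, nat_lit 0, nat_lit 0, nat_lit 0, nat_lit 0, nat_lit 0, nat_lit 0, nat_lit 0, nat_lit 0, nat_lit 0, false, false⟩,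
 nat_lit 0, nat_lit 9979, nat_lit 0, nat_lit 5954, nat_lit 5282, nat_lit 8884, nat_lit 1437, nat_lit 0, nat_lit 0, nat_lit 3366, nat_lit 0, nat_lit 0, nat_lit 0, nat_lit 24129574129223, nat_lit 0, nat_lit 0, nat_lit 0, nat_lit 0, [],
 ⟨p051_k4, nat_lit 0, nat_lit 0, nat_lit 466, nat_lit 0, nat_lit 510099, [nat_lit 4688000000, nat_lit 6250000000, nat_lit 9842000000], [], [nat_lit 44659147912, nat_lit 38986934880, nat_lit 34881490226, nat_lit 36219174922, nat_lit 33051583178, nat_lit 34304531978, nat_lit 37286008664, nat_lit 34317858082], nat_lit 1271250, nat_lit 1271250, nat_lit 490000, nat_lit 1100001, nat_lit 0, nat_lit 1100001, [nat_lit 1100000, nat_lit 1442500, nat_lit 1271250], [nat_lit 11, nat_lit 40, nat_lit 40, nat_lit 80, nat_lit 1, nat_lit 373, nat_lit 150, nat_lit 11]⟩, ⟨p051_k4, nat_lit 0, nat_lit 0, nat_lit 173, nat_lit 0, nat_lit 0, [nat_lit 4688000000, nat_lit 6250000000, nat_lit 9842000000], [],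 [nat_lit 14893360716, nat_lit 18871842780, nat_lit 14679786924, nat_lit 19030551840, nat_lit 10206501072, nat_lit 13661428304, nat_lit 10850050928, nat_lit 13865001152], nat_lit 0, nat_lit 0, nat_lit 0, nat_lit 0, nat_lit 0, nat_lit 0, [], [nat_lit 11, nat_lit 40, nat_lit 40, nat_lit 80, nat_lit 1, nat_lit 373, nat_lit 150, nat_lit 11]⟩,
 zbF0, []⟩
noncomputable def p051_l50 : Lf2 := ⟨nat_lit 1, nat_lit 1, [nat_lit 19, nat_lit 5, nat_lit 5, nat_lit 20], false, nat_lit 0, nat_lit 160, nat_lit 160, nat_lit 364, zbN0,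
 nat_lit 0, nat_lit 0, nat_lit 0, nat_lit 0, nat_lit 0, nat_lit 0, nat_lit 0, nat_lit 0, nat_lit 0, nat_lit 0, nat_lit 0, nat_lit 0, nat_lit 0, nat_lit 0, nat_lit 0, nat_lit 0, nat_lit 0, nat_lit 0, [],
 C1.Rw.none, C1.Rw.none,
 zbF0, []⟩
noncomputable def p051_l51 : Lf2 := ⟨nat_lit 0, nat_lit 1, [nat_lit 19, nat_lit 5, nat_lit 5, nat_lit 20], true, nat_lit 0, nat_lit 160, nat_lit 160, nat_lit 364, ⟨nat_lit 0, nat_lit 0, nat_lit 1000, nat_lit 6, nat_lit 118, nat_lit 580, nat_lit 63, nat_lit 1000, nat_lit 33750, nat_lit 260, nat_lit 132017, nat_lit 304, nat_lit 61632035, nat_lit 0, nat_lit 0, nat_lit 1395294, false, false⟩,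
 nat_lit 0, nat_lit 6387, nat_lit 0, nat_lit 4141, nat_lit 3548, nat_lit 0, nat_lit 1029, nat_lit 0, nat_lit 0, nat_lit 0, nat_lit 0, nat_lit 0, nat_lit 0, nat_lit 23121779696169, nat_lit 10, nat_lit 1000000, nat_lit 0, nat_lit 0, [(nat_lit 6, [(nat_lit 6, nat_lit 1000)])],
 ⟨p051_k15, nat_lit 0, nat_lit 0, nat_lit 258, nat_lit 0, nat_lit 45230, [nat_lit 1137066667, nat_lit 8000000], [], [nat_lit 12437267715, nat_lit 13097032838, nat_lit 12265215582, nat_lit 12912096374, nat_lit 12859551398, nat_lit 13461784246, nat_lit 14096292067, nat_lit 13505791534], nat_lit 1271250, nat_lit 1271250, nat_lit 111251, nat_lit 780000, nat_lit 0, nat_lit 1100001, [nat_lit 1100000, nat_lit 1442500], [nat_lit 31, nat_lit 40, nat_lit 40, nat_lit 80, nat_lit 3, nat_lit 289, nat_lit 75, nat_lit 12]⟩, C1.Rw.none,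
 ⟨nat_lit 5916, nat_lit 6124, ⟨.ofNat (nat_lit 180982), .ofNat (nat_lit 381933), .ofNat (nat_lit 202330), .ofNat (nat_lit 403281), .ofNat (nat_lit 189276), .ofNat (nat_lit 385610), .ofNat (nat_lit 210615), .ofNat (nat_lit 406949)⟩, ⟨.negSucc (nat_lit 29993), .ofNat (nat_lit 291529), .ofNat (nat_lit 0), .ofNat (nat_lit 334225), .negSucc (nat_lit 20704), .ofNat (nat_lit 293429), .ofNat (nat_lit 0), .ofNat (nat_lit 336108)⟩⟩, [⟨nat_lit 0, nat_lit 100, nat_lit 100, nat_lit 60, nat_lit 124481880⟩]⟩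
noncomputable def p051_l52 : Lf2 := ⟨nat_lit 1, nat_lit 6, [nat_lit 47, nat_lit 5, nat_lit 5, nat_lit 20], false, nat_lit 0, nat_lit 160, nat_lit 160, nat_lit 364, zbN0,
 nat_lit 0, nat_lit 0, nat_lit 0, nat_lit 0, nat_lit 0, nat_lit 0, nat_lit 0, nat_lit 0, nat_lit 0, nat_lit 0, nat_lit 0, nat_lit 0, nat_lit 0, nat_lit 0, nat_lit 0, nat_lit 0, nat_lit 0, nat_lit 0, [],
 C1.Rw.none, C1.Rw.none,
 zbF0, []⟩
noncomputable def p051_l53 : Lf2 := ⟨nat_lit 0, nat_lit 6, [nat_lit 47, nat_lit 5, nat_lit 5, nat_lit 20], true, nat_lit 0, nat_lit 80, nat_lit 160, nat_lit 364, ⟨nat_lit 0, nat_lit 0, nat_lit 1000, nat_lit 6, nat_lit 109, nat_lit 748, nat_lit 32, nat_lit 1000, nat_lit 8817, nat_lit 238, nat_lit 109350, nat_lit 296, nat_lit 62401349, nat_lit 0, nat_lit 0, nat_lit 1250484, false, false⟩,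
 nat_lit 0, nat_lit 6635, nat_lit 0, nat_lit 619, nat_lit 3861, nat_lit 0, nat_lit 0, nat_lit 0, nat_lit 0, nat_lit 0, nat_lit 0, nat_lit 0, nat_lit 0, nat_lit 16310283268833, nat_lit 117, nat_lit 1000000, nat_lit 0, nat_lit 0, [(nat_lit 9, [(nat_lit 6, nat_lit 1000)])],
 ⟨p051_k5, nat_lit 0, nat_lit 0, nat_lit 258, nat_lit 0, nat_lit 134584, [nat_lit 2969600000, nat_lit 1600000000, nat_lit 226400000], [], [nat_lit 13727016338, nat_lit 14306829206, nat_lit 13179629652, nat_lit 13732879784, nat_lit 13105058726, nat_lit 13183854318, nat_lit 14724434590, nat_lit 13789381471], nat_lit 1271250, nat_lit 1271250, nat_lit 134400, nat_lit 490000, nat_lit 0, nat_lit 490000, [nat_lit 1100000, nat_lit 1442500, nat_lit 1271250], [nat_lit 9, nat_lit 40, nat_lit 40, nat_lit 80, nat_lit 2, nat_lit 249, nat_lit 40, nat_lit 9]⟩, C1.Rw.none,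
 ⟨nat_lit 5700, nat_lit 5917, ⟨.ofNat (nat_lit 197129), .ofNat (nat_lit 307076), .ofNat (nat_lit 229138), .ofNat (nat_lit 339085), .ofNat (nat_lit 205119), .ofNat (nat_lit 312525), .ofNat (nat_lit 237132), .ofNat (nat_lit 344538)⟩, ⟨.negSucc (nat_lit 20704), .ofNat (nat_lit 136362), .ofNat (nat_lit 0), .ofNat (nat_lit 179041), .negSucc (nat_lit 11648), .ofNat (nat_lit 141790), .ofNat (nat_lit 0), .ofNat (nat_lit 184473)⟩⟩, [⟨nat_lit 0, nat_lit 100, nat_lit 100, nat_lit 70, nat_lit 161061016⟩]⟩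
noncomputable def p051_l54 : Lf2 := ⟨nat_lit 0, nat_lit 6, [nat_lit 47, nat_lit 5, nat_lit 5, nat_lit 20], false, nat_lit 0, nat_lit 80, nat_lit 160, nat_lit 364, ⟨nat_lit 1000, nat_lit 0, nat_lit 0, nat_lit 0, nat_lit 0, nat_lit 0, nat_lit 0, nat_lit 0, nat_lit 0, nat_lit 0, nat_lit 0, nat_lit 0, nat_lit 0, nat_lit 0, nat_lit 0, nat_lit 0, false, false⟩,
 nat_lit 0, nat_lit 11609, nat_lit 0, nat_lit 19710, nat_lit 7070, nat_lit 7112, nat_lit 2554, nat_lit 0, nat_lit 0, nat_lit 2100, nat_lit 0, nat_lit 0, nat_lit 0, nat_lit 0, nat_lit 0, nat_lit 0, nat_lit 0, nat_lit 0, [],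
 ⟨p051_k0, nat_lit 0, nat_lit 0, nat_lit 295, nat_lit 0, nat_lit 236458, [nat_lit 4688000000, nat_lit 6250000000, nat_lit 7968000000], [], [nat_lit 19725929509, nat_lit 20587368520, nat_lit 18141637960, nat_lit 18960420000, nat_lit 16628344207, nat_lit 17432312805, nat_lit 17632542270, nat_lit 16046001040], nat_lit 1271250, nat_lit 1271250, nat_lit 157850, nat_lit 490000, nat_lit 0, nat_lit 490000, [nat_lit 1100000, nat_lit 1442500, nat_lit 1271250], [nat_lit 9, nat_lit 40, nat_lit 40, nat_lit 80, nat_lit 2, nat_lit 249, nat_lit 40, nat_lit 9]⟩, ⟨p051_k4, nat_lit 0, nat_lit 0, nat_lit 174, nat_lit 0, nat_lit 0, [nat_lit 4688000000, nat_lit 6250000000, nat_lit 9842000000], [], [nat_lit 17897735669, nat_lit 20440262725, nat_lit 16106824808, nat_lit 18530868552, nat_lit 29471872011, nat_lit 31467310998, nat_lit 26889798508, nat_lit 28817100672], nat_lit 0, nat_lit 0, nat_lit 0, nat_lit 0, nat_lit 0, nat_lit 0, [],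 [nat_lit 11, nat_lit 40, nat_lit 40, nat_lit 80, nat_lit 1, nat_lit 428, nat_lit 200, nat_lit 12]⟩,
 zbF0, [⟨nat_lit 0, nat_lit 100, nat_lit 97, nat_lit 67, nat_lit 1093981253⟩, ⟨nat_lit 7, nat_lit 77, nat_lit 100, nat_lit 91, nat_lit 536072830⟩]⟩
noncomputable def p051_l55 : Lf2 := ⟨nat_lit 0, nat_lit 6, [nat_lit 47, nat_lit 5, nat_lit 5, nat_lit 20], true, nat_lit 80, nat_lit 160, nat_lit 160, nat_lit 364, ⟨nat_lit 0, nat_lit 0, nat_lit 1000, nat_lit 6, nat_lit 112, nat_lit 1000, nat_lit 96, nat_lit 1000, nat_lit 86400, nat_lit 287, nat_lit 117600, nat_lit 299, nat_lit 57442973, nat_lit 0, nat_lit 0, nat_lit 2692112, false, false⟩,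
 nat_lit 0, nat_lit 8551, nat_lit 0, nat_lit 0, nat_lit 4977, nat_lit 0, nat_lit 816, nat_lit 0, nat_lit 0, nat_lit 0, nat_lit 0, nat_lit 0, nat_lit 0, nat_lit 0, nat_lit 117, nat_lit 1000000, nat_lit 0, nat_lit 0, [(nat_lit 9, [(nat_lit 6, nat_lit 1000)])],
 ⟨p051_k5, nat_lit 0, nat_lit 0, nat_lit 227, nat_lit 0, nat_lit 250369, [nat_lit 2969600000, nat_lit 1600000000, nat_lit 226400000], [], [nat_lit 10290532743, nat_lit 12490145119, nat_lit 8654638034, nat_lit 10260642188, nat_lit 11388074797, nat_lit 13372278728, nat_lit 10078212912, nat_lit 11424130000], nat_lit 1271250, nat_lit 1271250, nat_lit 134400, nat_lit 490000, nat_lit 490000, nat_lit 1100001, [nat_lit 1100000, nat_lit 1442500, nat_lit 1271250], [nat_lit 9, nat_lit 40, nat_lit 40, nat_lit 80, nat_lit 2, nat_lit 272, nat_lit 60, nat_lit 9]⟩, C1.Rw.none,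
 ⟨nat_lit 5477, nat_lit 5917, ⟨.ofNat (nat_lit 197129), .ofNat (nat_lit 307076), .ofNat (nat_lit 239808), .ofNat (nat_lit 349755), .ofNat (nat_lit 213007), .ofNat (nat_lit 317913), .ofNat (nat_lit 255721), .ofNat (nat_lit 360628)⟩, ⟨.ofNat (nat_lit 136362), .ofNat (nat_lit 293429), .ofNat (nat_lit 179041), .ofNat (nat_lit 336108), .ofNat (nat_lit 147057), .ofNat (nat_lit 296923), .ofNat (nat_lit 189771), .ofNat (nat_lit 339637)⟩⟩, [⟨nat_lit 0, nat_lit 100, nat_lit 100, nat_lit 80, nat_lit 283483017⟩]⟩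
noncomputable def p051_l56 : Lf2 := ⟨nat_lit 0, nat_lit 6, [nat_lit 47, nat_lit 5, nat_lit 5, nat_lit 20], false, nat_lit 0, nat_lit 160, nat_lit 160, nat_lit 364, ⟨nat_lit 1000, nat_lit 0, nat_lit 0, nat_lit 0, nat_lit 0, nat_lit 0, nat_lit 0, nat_lit 0, nat_lit 0, nat_lit 0, nat_lit 0, nat_lit 0, nat_lit 0, nat_lit 0, nat_lit 0, nat_lit 0, false, false⟩,
 nat_lit 0, nat_lit 16573, nat_lit 0, nat_lit 5705, nat_lit 9646, nat_lit 5979, nat_lit 5491, nat_lit 0, nat_lit 0, nat_lit 0, nat_lit 0, nat_lit 0, nat_lit 0, nat_lit 5800686807571, nat_lit 0, nat_lit 0, nat_lit 0, nat_lit 0, [],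
 ⟨p051_k5, nat_lit 0, nat_lit 0, nat_lit 362, nat_lit 0, nat_lit 444157, [nat_lit 4688000000, nat_lit 6250000000, nat_lit 7968000000], [], [nat_lit 23566752500, nat_lit 19018259184, nat_lit 14458698472, nat_lit 17757418784, nat_lit 18879785334, nat_lit 14334532258, nat_lit 22199447566, nat_lit 17715002874], nat_lit 1271250, nat_lit 1271250, nat_lit 490000, nat_lit 780000, nat_lit 0, nat_lit 1100001, [nat_lit 1100000, nat_lit 1442500, nat_lit 1271250], [nat_lit 9, nat_lit 40, nat_lit 40, nat_lit 80, nat_lit 2, nat_lit 289, nat_lit 75, nat_lit 10]⟩, ⟨p051_k4, nat_lit 0, nat_lit 0, nat_lit 90, nat_lit 0, nat_lit 0, [nat_lit 4688000000, nat_lit 6250000000, nat_lit 9842000000], [], [nat_lit 9877079700, nat_lit 13463805344, nat_lit 10216029988, nat_lit 13612628852, nat_lit 24829925514, nat_lit 26775652486, nat_lit 24407242296, nat_lit 26261193946], nat_lit 0, nat_lit 0, nat_lit 0, nat_lit 0, nat_lit 0, nat_lit 0, [],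 [nat_lit 11, nat_lit 40, nat_lit 40, nat_lit 80, nat_lit 1, nat_lit 428, nat_lit 200, nat_lit 12]⟩,
 zbF0, [⟨nat_lit 19, nat_lit 100, nat_lit 77, nat_lit 91, nat_lit 617050827⟩]⟩
noncomputable def p051_l57 : Lf2 := ⟨nat_lit 0, nat_lit 6, [nat_lit 47, nat_lit 5, nat_lit 5, nat_lit 20], true, nat_lit 0, nat_lit 160, nat_lit 160, nat_lit 364, ⟨nat_lit 0, nat_lit 0, nat_lit 1000, nat_lit 6, nat_lit 173, nat_lit 731, nat_lit 63, nat_lit 1000, nat_lit 33750, nat_lit 260, nat_lit 58974, nat_lit 274, nat_lit 56430457, nat_lit 0, nat_lit 0, nat_lit 2179635, false, false⟩,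
 nat_lit 0, nat_lit 8890, nat_lit 0, nat_lit 1661, nat_lit 4706, nat_lit 0, nat_lit 352, nat_lit 0, nat_lit 0, nat_lit 0, nat_lit 0, nat_lit 0, nat_lit 0, nat_lit 26480518889372, nat_lit 147, nat_lit 1000000, nat_lit 0, nat_lit 0, [(nat_lit 6, [(nat_lit 6, nat_lit 1000)])],
 ⟨p051_k4, nat_lit 0, nat_lit 0, nat_lit 213, nat_lit 0, nat_lit 50485, [nat_lit 3329066667, nat_lit 3042400001, nat_lit 177599999], [], [nat_lit 10547484831, nat_lit 11868372857, nat_lit 11474339420, nat_lit 12847302477, nat_lit 13664007676, nat_lit 11319073760, nat_lit 16277842668, nat_lit 13966151936], nat_lit 1271250, nat_lit 1271250, nat_lit 780000, nat_lit 1100001, nat_lit 0, nat_lit 1100001, [nat_lit 1100000, nat_lit 1442500, nat_lit 1271250], [nat_lit 11, nat_lit 40, nat_lit 40, nat_lit 80, nat_lit 1, nat_lit 373, nat_lit 150, nat_lit 11]⟩, C1.Rw.none,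
 ⟨nat_lit 5916, nat_lit 6325, ⟨.ofNat (nat_lit 378206), .ofNat (nat_lit 460470), .ofNat (nat_lit 399574), .ofNat (nat_lit 481838), .ofNat (nat_lit 385610), .ofNat (nat_lit 464143), .ofNat (nat_lit 406949), .ofNat (nat_lit 485483)⟩, ⟨.negSucc (nat_lit 39529), .ofNat (nat_lit 289527), .ofNat (nat_lit 0), .ofNat (nat_lit 332263), .negSucc (nat_lit 20704), .ofNat (nat_lit 293429), .ofNat (nat_lit 0), .ofNat (nat_lit 336108)⟩⟩, []⟩
noncomputable def p051_l58 : Lf2 := ⟨nat_lit 0, nat_lit 6, [nat_lit 47, nat_lit 5, nat_lit 5, nat_lit 20], false, nat_lit 0, nat_lit 160, nat_lit 160, nat_lit 364, ⟨nat_lit 1000, nat_lit 0, nat_lit 0, nat_lit 0, nat_lit 0, nat_lit 0, nat_lit 0, nat_lit 0, nat_lit 0, nat_lit 0, nat_lit 0, nat_lit 0, nat_lit 0, nat_lit 0, nat_lit 0, nat_lit 0, false, false⟩,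
 nat_lit 0, nat_lit 9416, nat_lit 0, nat_lit 5889, nat_lit 5480, nat_lit 6137, nat_lit 1936, nat_lit 0, nat_lit 0, nat_lit 0, nat_lit 0, nat_lit 0, nat_lit 0, nat_lit 0, nat_lit 0, nat_lit 0, nat_lit 0, nat_lit 0, [],
 ⟨p051_k5, nat_lit 0, nat_lit 0, nat_lit 320, nat_lit 0, nat_lit 444157, [nat_lit 4688000000, nat_lit 6250000000, nat_lit 7968000000], [], [nat_lit 34787920960, nat_lit 31890436720, nat_lit 29036573280, nat_lit 26182709840, nat_lit 29787797920, nat_lit 27205589040, nat_lit 32952352000, nat_lit 30404689040], nat_lit 1271250, nat_lit 1271250, nat_lit 780000, nat_lit 1100001, nat_lit 0, nat_lit 1100001, [nat_lit 1100000, nat_lit 1442500, nat_lit 1271250], [nat_lit 9, nat_lit 40, nat_lit 40, nat_lit 80, nat_lit 2, nat_lit 317, nat_lit 100, nat_lit 10]⟩, ⟨p051_k4, nat_lit 0, nat_lit 0, nat_lit 73, nat_lit 0, nat_lit 0, [nat_lit 4688000000, nat_lit 6250000000, nat_lit 9842000000], [], [nat_lit 9947204364,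 nat_lit 13396388156, nat_lit 11053025576, nat_lit 14271927752, nat_lit 24339634128, nat_lit 26213023917, nat_lit 24510522543, nat_lit 26266308103], nat_lit 0, nat_lit 0, nat_lit 0, nat_lit 0, nat_lit 0, nat_lit 0, [], [nat_lit 11, nat_lit 40, nat_lit 40, nat_lit 80, nat_lit 1, nat_lit 456, nat_lit 225, nat_lit 13]⟩,
 zbF0, [⟨nat_lit 19, nat_lit 100, nat_lit 77, nat_lit 91, nat_lit 603693675⟩]⟩
noncomputable def p051_l59 : Lf2 := ⟨nat_lit 0, nat_lit 6, [nat_lit 47, nat_lit 5, nat_lit 5, nat_lit 20], false, nat_lit 0, nat_lit 160, nat_lit 0, nat_lit 364, ⟨nat_lit 1000, nat_lit 0, nat_lit 0, nat_lit 0, nat_lit 0, nat_lit 0, nat_lit 0, nat_lit 0, nat_lit 0, nat_lit 0, nat_lit 0, nat_lit 0, nat_lit 0, nat_lit 0, nat_lit 0, nat_lit 0, false, false⟩,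
 nat_lit 0, nat_lit 8532, nat_lit 0, nat_lit 25774, nat_lit 4516, nat_lit 8040, nat_lit 1961, nat_lit 0, nat_lit 0, nat_lit 2977, nat_lit 0, nat_lit 0, nat_lit 0, nat_lit 0, nat_lit 0, nat_lit 0, nat_lit 0, nat_lit 0, [],
 ⟨p051_k4, nat_lit 0, nat_lit 0, nat_lit 193, nat_lit 0, nat_lit 50485, [nat_lit 4688000000, nat_lit 6250000000, nat_lit 9842000000], [], [nat_lit 36257673440, nat_lit 33869892632, nat_lit 31511530250, nat_lit 32209288466, nat_lit 28497621594, nat_lit 29186605984, nat_lit 32718815376, nat_lit 31199857520], nat_lit 1271250, nat_lit 1271250, nat_lit 1100001, nat_lit 1785000, nat_lit 0, nat_lit 1100001, [nat_lit 1100000, nat_lit 1442500, nat_lit 1271250], [nat_lit 11, nat_lit 40, nat_lit 40, nat_lit 80, nat_lit 1, nat_lit 401, nat_lit 175, nat_lit 12]⟩, ⟨p051_k4, nat_lit 0, nat_lit 0, nat_lit 146, nat_lit 0, nat_lit 0, [nat_lit 4688000000, nat_lit 6250000000, nat_lit 9842000000], [], [nat_lit 16077083690,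 nat_lit 17729394970, nat_lit 20040435200, nat_lit 21687667120, nat_lit 25638261680, nat_lit 26534335397, nat_lit 27400582697, nat_lit 28346627416], nat_lit 0, nat_lit 0, nat_lit 0, nat_lit 0, nat_lit 0, nat_lit 0, [], [nat_lit 11, nat_lit 40, nat_lit 40, nat_lit 80, nat_lit 1, nat_lit 456, nat_lit 225, nat_lit 13]⟩,
 zbF0, [⟨nat_lit 7, nat_lit 72, nat_lit 100, nat_lit 89, nat_lit 356385207⟩]⟩
noncomputable def p051_l60 : Lf2 := ⟨nat_lit 0, nat_lit 6, [nat_lit 47, nat_lit 5, nat_lit 5, nat_lit 20], false, nat_lit 0, nat_lit 160, nat_lit 0, nat_lit 364, ⟨nat_lit 1000, nat_lit 0, nat_lit 0, nat_lit 0, nat_lit 0, nat_lit 0, nat_lit 0, nat_lit 0, nat_lit 0, nat_lit 0, nat_lit 0, nat_lit 0, nat_lit 0, nat_lit 0, nat_lit 0, nat_lit 0, false, false⟩,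
 nat_lit 0, nat_lit 7849, nat_lit 0, nat_lit 9375, nat_lit 4568, nat_lit 7836, nat_lit 1832, nat_lit 0, nat_lit 0, nat_lit 1978, nat_lit 0, nat_lit 0, nat_lit 0, nat_lit 9714110179684, nat_lit 0, nat_lit 0, nat_lit 0, nat_lit 0, [],
 ⟨p051_k5, nat_lit 0, nat_lit 0, nat_lit 311, nat_lit 0, nat_lit 444157, [nat_lit 4688000000, nat_lit 6250000000, nat_lit 7968000000], [], [nat_lit 33921637936, nat_lit 31506362752, nat_lit 29106853992, nat_lit 29880253808, nat_lit 26059528792, nat_lit 26820055696, nat_lit 28983983064, nat_lit 28715975824], nat_lit 1271250, nat_lit 1271250, nat_lit 1100001, nat_lit 1785000, nat_lit 0, nat_lit 1100001, [nat_lit 1100000, nat_lit 1442500, nat_lit 1271250], [nat_lit 9, nat_lit 40, nat_lit 40, nat_lit 80, nat_lit 2, nat_lit 317, nat_lit 100, nat_lit 10]⟩, ⟨p051_k4, nat_lit 0, nat_lit 0, nat_lit 154, nat_lit 0, nat_lit 0, [nat_lit 4688000000, nat_lit 6250000000, nat_lit 9842000000], [], [nat_lit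 19305086996, nat_lit 22559369700, nat_lit 22818495428, nat_lit 25494817460, nat_lit 25758855592, nat_lit 27531265121, nat_lit 27278698343, nat_lit 29144024803], nat_lit 0, nat_lit 0, nat_lit 0, nat_lit 0, nat_lit 0, nat_lit 0, [], [nat_lit 11, nat_lit 40, nat_lit 40, nat_lit 80, nat_lit 1, nat_lit 456, nat_lit 225, nat_lit 13]⟩,
 zbF0, [⟨nat_lit 19, nat_lit 100, nat_lit 77, nat_lit 91, nat_lit 290694173⟩]⟩
noncomputable def b_V_600_600_20_9 : St := ⟨true, nat_lit 1, nat_lit 0, nat_lit 1, nat_lit 120, nat_lit 240, nat_lit 280, nat_lit 240, nat_lit 280, nat_lit 16, nat_lit 240, nat_lit 80, nat_lit 120, nat_lit 0, nat_lit 160, nat_lit 0, nat_lit 364, nat_lit 0, nat_lit 24, nat_lit 0, nat_lit 0, nat_lit 0, nat_lit 0⟩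
theorem d_V_600_600_20_9 (h : EB TB.env) : Dead b_V_600_600_20_9 := chkB_sound0 h (T :=
(.spl (nat_lit 2) (nat_lit 160)
(.spl (nat_lit 5) (nat_lit 160)
(.spl (nat_lit 2) (nat_lit 80)
(.leaf p051_l48)
(.leaf p051_l49))
(.spl (nat_lit 2) (nat_lit 120)
(.spl (nat_lit 0) (nat_lit 260)
(.ord (.spl (nat_lit 6) (nat_lit 4)
(.spl (nat_lit 0) (nat_lit 250)
(.ord (.leaf p051_l50))
(.trZ (nat_lit 0) (nat_lit 100) (nat_lit 99) (nat_lit 45) (nat_lit 20) (.leaf p051_l51)))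
(.leaf p051_l52)))
(.trZ (nat_lit 0) (nat_lit 100) (nat_lit 97) (nat_lit 49) (nat_lit 24) (.spl (nat_lit 2) (nat_lit 80)
(.spl (nat_lit 4) (nat_lit 80)
(.spl (nat_lit 0) (nat_lit 270)
(.ord (.leaf p051_l53))
(.trZ (nat_lit 0) (nat_lit 100) (nat_lit 96) (nat_lit 54) (nat_lit 28) (.leaf p051_l54)))
(.leaf p051_l55))
(.leaf p051_l56))))
(.spl (nat_lit 0) (nat_lit 260)
(.ord (.leaf p051_l57))
(.leaf p051_l58))))
(.spl (nat_lit 0) (nat_lit 260)
(.ord (.leaf p051_l59))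
(.leaf p051_l60)))) (by decide +kernel)
noncomputable def p051_l61 : Lf2 := ⟨nat_lit 1, nat_lit 1, [nat_lit 19, nat_lit 5, nat_lit 5, nat_lit 20], false, nat_lit 160, nat_lit 364, nat_lit 0, nat_lit 364, zbN0,
 nat_lit 0, nat_lit 0, nat_lit 0, nat_lit 0, nat_lit 0, nat_lit 0, nat_lit 0, nat_lit 0, nat_lit 0, nat_lit 0, nat_lit 0, nat_lit 0, nat_lit 0, nat_lit 0, nat_lit 0, nat_lit 0, nat_lit 0, nat_lit 0, [],
 C1.Rw.none, C1.Rw.none,
 zbF0, []⟩
noncomputable def p051_l62 : Lf2 := ⟨nat_lit 0, nat_lit 1, [nat_lit 19, nat_lit 5, nat_lit 5, nat_lit 20], false, nat_lit 160, nat_lit 360, nat_lit 0, nat_lit 160, ⟨nat_lit 1000, nat_lit 0, nat_lit 0, nat_lit 0, nat_lit 0, nat_lit 0, nat_lit 0, nat_lit 0, nat_lit 0, nat_lit 0, nat_lit 0, nat_lit 0, nat_lit 0, nat_lit 0, nat_lit 0, nat_lit 0, false, false⟩,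
 nat_lit 0, nat_lit 10963, nat_lit 0, nat_lit 56687, nat_lit 6090, nat_lit 7306, nat_lit 5349, nat_lit 0, nat_lit 0, nat_lit 7897, nat_lit 0, nat_lit 0, nat_lit 0, nat_lit 0, nat_lit 0, nat_lit 0, nat_lit 0, nat_lit 0, [],
 ⟨p051_k15, nat_lit 0, nat_lit 0, nat_lit 176, nat_lit 0, nat_lit 45230, [nat_lit 4688000000, nat_lit 6250000000], [], [nat_lit 18803580067, nat_lit 17231915497, nat_lit 25250748150, nat_lit 23754977160, nat_lit 28001277232, nat_lit 28408543232, nat_lit 25806424835, nat_lit 26182389030], nat_lit 1271250, nat_lit 1271250, nat_lit 134400, nat_lit 1100001, nat_lit 1271250, nat_lit 1271250, [nat_lit 1100000, nat_lit 1442500], [nat_lit 31, nat_lit 40, nat_lit 40, nat_lit 80, nat_lit 3, nat_lit 373, nat_lit 150, nat_lit 14]⟩, ⟨p051_k15, nat_lit 0, nat_lit 0, nat_lit 118, nat_lit 0, nat_lit 0, [nat_lit 4688000000, nat_lit 6250000000], [], [nat_lit 17242538505, nat_lit 18684416804, nat_lit 14729947608,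 nat_lit 15548715764, nat_lit 13189314022, nat_lit 13997345191, nat_lit 12285059002, nat_lit 13018117868], nat_lit 0, nat_lit 0, nat_lit 0, nat_lit 0, nat_lit 0, nat_lit 0, [], [nat_lit 31, nat_lit 40, nat_lit 40, nat_lit 80, nat_lit 3, nat_lit 317, nat_lit 100, nat_lit 13]⟩,
 zbF0, [⟨nat_lit 0, nat_lit 100, nat_lit 100, nat_lit 60, nat_lit 452481981⟩, ⟨nat_lit 16, nat_lit 100, nat_lit 75, nat_lit 90, nat_lit 570755684⟩]⟩
noncomputable def p051_l63 : Lf2 := ⟨nat_lit 0, nat_lit 1, [nat_lit 19, nat_lit 5, nat_lit 5, nat_lit 20], true, nat_lit 160, nat_lit 240, nat_lit 160, nat_lit 360, ⟨nat_lit 0, nat_lit 0, nat_lit 1000, nat_lit 6, nat_lit 138, nat_lit 1000, nat_lit 157, nat_lit 1000, nat_lit 45416, nat_lit 266, nat_lit 58974, nat_lit 274, nat_lit 50503850, nat_lit 0, nat_lit 0, nat_lit 3891037, false, false⟩,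
 nat_lit 0, nat_lit 6951, nat_lit 0, nat_lit 0, nat_lit 3861, nat_lit 0, nat_lit 0, nat_lit 0, nat_lit 0, nat_lit 0, nat_lit 0, nat_lit 0, nat_lit 0, nat_lit 19660999198969, nat_lit 10, nat_lit 1000000, nat_lit 0, nat_lit 0, [(nat_lit 6, [(nat_lit 6, nat_lit 1000)])],
 ⟨p051_k15, nat_lit 0, nat_lit 0, nat_lit 176, nat_lit 0, nat_lit 45230, [nat_lit 1137066667, nat_lit 8000000], [], [nat_lit 10961639560, nat_lit 11700533173, nat_lit 11836760027, nat_lit 12469165059, nat_lit 14744636484, nat_lit 15370497043, nat_lit 15132814070, nat_lit 15671276209], nat_lit 1271250, nat_lit 1271250, nat_lit 134400, nat_lit 1100001, nat_lit 1100001, nat_lit 1785000, [nat_lit 1100000, nat_lit 1442500], [nat_lit 31, nat_lit 40, nat_lit 40, nat_lit 80, nat_lit 3, nat_lit 317, nat_lit 100, nat_lit 12]⟩, C1.Rw.none,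
 ⟨nat_lit 5916, nat_lit 6124, ⟨.ofNat (nat_lit 199694), .ofNat (nat_lit 472988), .ofNat (nat_lit 210368), .ofNat (nat_lit 483662), .ofNat (nat_lit 207799), .ofNat (nat_lit 474813), .ofNat (nat_lit 218469), .ofNat (nat_lit 485483)⟩, ⟨.ofNat (nat_lit 291529), .ofNat (nat_lit 452290), .ofNat (nat_lit 334225), .ofNat (nat_lit 494987), .ofNat (nat_lit 293429), .ofNat (nat_lit 450496), .ofNat (nat_lit 336108), .ofNat (nat_lit 493175)⟩⟩, [⟨nat_lit 0, nat_lit 100, nat_lit 100, nat_lit 60, nat_lit 91800530⟩]⟩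
noncomputable def p051_l64 : Lf2 := ⟨nat_lit 1, nat_lit 1, [nat_lit 19, nat_lit 5, nat_lit 5, nat_lit 20], false, nat_lit 240, nat_lit 360, nat_lit 160, nat_lit 360, zbN0,
 nat_lit 0, nat_lit 0, nat_lit 0, nat_lit 0, nat_lit 0, nat_lit 0, nat_lit 0, nat_lit 0, nat_lit 0, nat_lit 0, nat_lit 0, nat_lit 0, nat_lit 0, nat_lit 0, nat_lit 0, nat_lit 0, nat_lit 0, nat_lit 0, [],
 C1.Rw.none, C1.Rw.none,
 zbF0, []⟩
noncomputable def p051_l65 : Lf2 := ⟨nat_lit 0, nat_lit 1, [nat_lit 19, nat_lit 5, nat_lit 5, nat_lit 20], false, nat_lit 240, nat_lit 356, nat_lit 160, nat_lit 356, ⟨nat_lit 1000, nat_lit 0, nat_lit 0, nat_lit 0, nat_lit 0, nat_lit 0, nat_lit 0, nat_lit 0, nat_lit 0, nat_lit 0, nat_lit 0, nat_lit 0, nat_lit 0, nat_lit 0, nat_lit 0, nat_lit 0, false, false⟩,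
 nat_lit 0, nat_lit 13036, nat_lit 0, nat_lit 34185, nat_lit 7414, nat_lit 8799, nat_lit 4253, nat_lit 0, nat_lit 0, nat_lit 4903, nat_lit 0, nat_lit 0, nat_lit 0, nat_lit 0, nat_lit 0, nat_lit 0, nat_lit 0, nat_lit 0, [],
 ⟨p051_k16, nat_lit 0, nat_lit 0, nat_lit 131, nat_lit 0, nat_lit 43668, [nat_lit 4688000000, nat_lit 6250000000], [], [nat_lit 17433528889, nat_lit 17769872978, nat_lit 15786567825, nat_lit 16067517590, nat_lit 29373953229, nat_lit 29705318149, nat_lit 24928171829, nat_lit 25217089371], nat_lit 1271250, nat_lit 1271250, nat_lit 157850, nat_lit 1100001, nat_lit 1271250, nat_lit 1271250, [nat_lit 1100000, nat_lit 1442500], [nat_lit 31, nat_lit 40, nat_lit 40, nat_lit 80, nat_lit 3, nat_lit 249, nat_lit 40, nat_lit 9]⟩, ⟨p051_k16, nat_lit 0, nat_lit 0, nat_lit 116, nat_lit 0, nat_lit 0, [nat_lit 4688000000, nat_lit 6250000000], [], [nat_lit 10864123937, nat_lit 11316407929, nat_lit 9144159545,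 nat_lit 9518843440, nat_lit 31530698843, nat_lit 31894016281, nat_lit 25770327866, nat_lit 26085335068], nat_lit 0, nat_lit 0, nat_lit 0, nat_lit 0, nat_lit 0, nat_lit 0, [], [nat_lit 31, nat_lit 40, nat_lit 40, nat_lit 80, nat_lit 3, nat_lit 373, nat_lit 150, nat_lit 14]⟩,
 zbF0, [⟨nat_lit 11, nat_lit 100, nat_lit 91, nat_lit 75, nat_lit 23764086⟩, ⟨nat_lit 23, nat_lit 99, nat_lit 100, nat_lit 97, nat_lit 772683185⟩]⟩
noncomputable def p051_l66 : Lf2 := ⟨nat_lit 0, nat_lit 1, [nat_lit 19, nat_lit 5, nat_lit 5, nat_lit 20], false, nat_lit 160, nat_lit 364, nat_lit 0, nat_lit 364, ⟨nat_lit 1000, nat_lit 0, nat_lit 0, nat_lit 0, nat_lit 0, nat_lit 0, nat_lit 0, nat_lit 0, nat_lit 0, nat_lit 0, nat_lit 0, nat_lit 0, nat_lit 0, nat_lit 0, nat_lit 0, nat_lit 0, false, false⟩,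
 nat_lit 0, nat_lit 15188, nat_lit 0, nat_lit 12564, nat_lit 8040, nat_lit 6303, nat_lit 0, nat_lit 0, nat_lit 0, nat_lit 0, nat_lit 0, nat_lit 0, nat_lit 0, nat_lit 21984523842614, nat_lit 0, nat_lit 0, nat_lit 0, nat_lit 0, [],
 ⟨p051_k17, nat_lit 0, nat_lit 0, nat_lit 113, nat_lit 0, nat_lit 48633, [nat_lit 4688000000, nat_lit 6250000000], [], [nat_lit 36939685600, nat_lit 32688632080, nat_lit 20063468320, nat_lit 17339270400, nat_lit 25638261680, nat_lit 26534335397, nat_lit 27400582697, nat_lit 28346627416], nat_lit 1271250, nat_lit 1271250, nat_lit 1100001, nat_lit 1785000, nat_lit 1271250, nat_lit 1271250, [nat_lit 1100000, nat_lit 1442500], [nat_lit 31, nat_lit 40, nat_lit 40, nat_lit 80, nat_lit 3, nat_lit 401, nat_lit 175, nat_lit 15]⟩, ⟨p051_k17, nat_lit 0, nat_lit 0, nat_lit 58, nat_lit 0, nat_lit 0, [nat_lit 4688000000, nat_lit 6250000000], [], [nat_lit 12747789332, nat_lit 14708504866, nat_lit 17500235732,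 nat_lit 19124981920, nat_lit 24420314922, nat_lit 25307215178, nat_lit 26304409938, nat_lit 27165696874], nat_lit 0, nat_lit 0, nat_lit 0, nat_lit 0, nat_lit 0, nat_lit 0, [], [nat_lit 31, nat_lit 40, nat_lit 40, nat_lit 80, nat_lit 3, nat_lit 401, nat_lit 175, nat_lit 16]⟩,
 zbF0, [⟨nat_lit 16, nat_lit 100, nat_lit 72, nat_lit 89, nat_lit 94780610⟩, ⟨nat_lit 7, nat_lit 72, nat_lit 100, nat_lit 89, nat_lit 384058536⟩]⟩
noncomputable def p051_l67 : Lf2 := ⟨nat_lit 1, nat_lit 6, [nat_lit 47, nat_lit 5, nat_lit 5, nat_lit 20], false, nat_lit 160, nat_lit 364, nat_lit 0, nat_lit 364, zbN0,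
 nat_lit 0, nat_lit 0, nat_lit 0, nat_lit 0, nat_lit 0, nat_lit 0, nat_lit 0, nat_lit 0, nat_lit 0, nat_lit 0, nat_lit 0, nat_lit 0, nat_lit 0, nat_lit 0, nat_lit 0, nat_lit 0, nat_lit 0, nat_lit 0, [],
 C1.Rw.none, C1.Rw.none,
 zbF0, []⟩
noncomputable def b_V_600_600_20_10 : St := ⟨true, nat_lit 1, nat_lit 0, nat_lit 1, nat_lit 120, nat_lit 240, nat_lit 260, nat_lit 240, nat_lit 280, nat_lit 16, nat_lit 240, nat_lit 80, nat_lit 120, nat_lit 160, nat_lit 364, nat_lit 0, nat_lit 364, nat_lit 0, nat_lit 24, nat_lit 0, nat_lit 0, nat_lit 0, nat_lit 0⟩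
theorem d_V_600_600_20_10 (h : EB TB.env) : Dead b_V_600_600_20_10 := chkB_sound0 h (T :=
(.ord (.spl (nat_lit 6) (nat_lit 4)
(.spl (nat_lit 2) (nat_lit 160)
(.spl (nat_lit 1) (nat_lit 250)
(.leaf p051_l61)
(.ord (.trZ (nat_lit 0) (nat_lit 100) (nat_lit 100) (nat_lit 50) (nat_lit 24) (.trX (nat_lit 16) (nat_lit 100) (nat_lit 64) (nat_lit 95) (nat_lit 360) (.trX (nat_lit 19) (nat_lit 100) (nat_lit 64) (nat_lit 95) (nat_lit 360) (.spl (nat_lit 5) (nat_lit 160)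
(.leaf p051_l62)
(.spl (nat_lit 4) (nat_lit 240)
(.leaf p051_l63)
(.spl (nat_lit 1) (nat_lit 255)
(.leaf p051_l64)
(.ord (.trZ (nat_lit 0) (nat_lit 100) (nat_lit 100) (nat_lit 55) (nat_lit 28) (.trX (nat_lit 16) (nat_lit 100) (nat_lit 66) (nat_lit 95) (nat_lit 356) (.trX (nat_lit 19) (nat_lit 100) (nat_lit 66) (nat_lit 95) (nat_lit 356) (.leaf p051_l65)))))))))))))
(.leaf p051_l66))
(.leaf p051_l67)))) (by decide +kernel)
noncomputable def p051_l68 : Lf2 := ⟨nat_lit 0, nat_lit 6, [nat_lit 47, nat_lit 5, nat_lit 5, nat_lit 20], true, nat_lit 160, nat_lit 240, nat_lit 0, nat_lit 364, ⟨nat_lit 0, nat_lit 0, nat_lit 1000, nat_lit 6, nat_lit 108, nat_lit 1000, nat_lit 157, nat_lit 1000, nat_lit 45528, nat_lit 267, nat_lit 109350, nat_lit 296, nat_lit 52724316, nat_lit 0, nat_lit 0, nat_lit 3496976, false, false⟩,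
 nat_lit 0, nat_lit 7049, nat_lit 0, nat_lit 0, nat_lit 4102, nat_lit 0, nat_lit 0, nat_lit 0, nat_lit 0, nat_lit 0, nat_lit 0, nat_lit 0, nat_lit 0, nat_lit 0, nat_lit 113, nat_lit 962800, nat_lit 0, nat_lit 0, [(nat_lit 9, [(nat_lit 5, nat_lit 62), (nat_lit 6, nat_lit 938)])],
 ⟨p051_k5, nat_lit 0, nat_lit 0, nat_lit 178, nat_lit 0, nat_lit 140272, [nat_lit 2932185600, nat_lit 1553083200, nat_lit 215811200], [], [nat_lit 12661015597, nat_lit 13945469473, nat_lit 12064560112, nat_lit 13288551200, nat_lit 15894987150, nat_lit 16986627759, nat_lit 16021507340, nat_lit 16218611168], nat_lit 1271250, nat_lit 1271250, nat_lit 134400, nat_lit 490000, nat_lit 1100001, nat_lit 1785000, [nat_lit 1100000, nat_lit 1442500, nat_lit 1271250], [nat_lit 9, nat_lit 40, nat_lit 40, nat_lit 80, nat_lit 2, nat_lit 317, nat_lit 100, nat_lit 10]⟩, C1.Rw.none,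
 ⟨nat_lit 5477, nat_lit 5917, ⟨.ofNat (nat_lit 197129), .ofNat (nat_lit 307076), .ofNat (nat_lit 218469), .ofNat (nat_lit 328416), .ofNat (nat_lit 213007), .ofNat (nat_lit 317913), .ofNat (nat_lit 234364), .ofNat (nat_lit 339271)⟩, ⟨.ofNat (nat_lit 293429), .ofNat (nat_lit 450496), .ofNat (nat_lit 336108), .ofNat (nat_lit 493175), .ofNat (nat_lit 296923), .ofNat (nat_lit 446789), .ofNat (nat_lit 339637), .ofNat (nat_lit 489503)⟩⟩, [⟨nat_lit 0, nat_lit 100, nat_lit 96, nat_lit 69, nat_lit 163780690⟩]⟩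
noncomputable def p051_l69 : Lf2 := ⟨nat_lit 0, nat_lit 6, [nat_lit 47, nat_lit 5, nat_lit 5, nat_lit 20], true, nat_lit 160, nat_lit 240, nat_lit 0, nat_lit 352, ⟨nat_lit 0, nat_lit 0, nat_lit 1000, nat_lit 6, nat_lit 118, nat_lit 1000, nat_lit 157, nat_lit 1000, nat_lit 45528, nat_lit 267, nat_lit 129067, nat_lit 303, nat_lit 52020131, nat_lit 0, nat_lit 0, nat_lit 3630765, false, false⟩,
 nat_lit 0, nat_lit 6890, nat_lit 0, nat_lit 0, nat_lit 4010, nat_lit 0, nat_lit 0, nat_lit 0, nat_lit 0, nat_lit 0, nat_lit 0, nat_lit 0, nat_lit 0, nat_lit 0, nat_lit 117, nat_lit 1000000, nat_lit 0, nat_lit 0, [(nat_lit 9, [(nat_lit 6, nat_lit 1000)])],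
 ⟨p051_k5, nat_lit 0, nat_lit 0, nat_lit 172, nat_lit 0, nat_lit 134584, [nat_lit 2969600000, nat_lit 1600000000, nat_lit 226400000], [], [nat_lit 11236391588, nat_lit 11985412647, nat_lit 10865945180, nat_lit 11586580270, nat_lit 14946226149, nat_lit 15579908974, nat_lit 14472251960, nat_lit 15082771880], nat_lit 1271250, nat_lit 1271250, nat_lit 205650, nat_lit 490000, nat_lit 1100001, nat_lit 1785000, [nat_lit 1100000, nat_lit 1442500, nat_lit 1271250], [nat_lit 9, nat_lit 40, nat_lit 40, nat_lit 80, nat_lit 2, nat_lit 317, nat_lit 100, nat_lit 10]⟩, C1.Rw.none,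
 ⟨nat_lit 5700, nat_lit 5917, ⟨.ofNat (nat_lit 242029), .ofNat (nat_lit 328416), .ofNat (nat_lit 252698), .ofNat (nat_lit 339085), .ofNat (nat_lit 249476), .ofNat (nat_lit 333867), .ofNat (nat_lit 260147), .ofNat (nat_lit 344538)⟩, ⟨.ofNat (nat_lit 293429), .ofNat (nat_lit 450496), .ofNat (nat_lit 336108), .ofNat (nat_lit 493175), .ofNat (nat_lit 295228), .ofNat (nat_lit 448666), .ofNat (nat_lit 337912), .ofNat (nat_lit 491350)⟩⟩, [⟨nat_lit 0, nat_lit 100, nat_lit 100, nat_lit 70, nat_lit 170106941⟩]⟩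
noncomputable def p051_l70 : Lf2 := ⟨nat_lit 0, nat_lit 6, [nat_lit 47, nat_lit 5, nat_lit 5, nat_lit 20], false, nat_lit 160, nat_lit 240, nat_lit 0, nat_lit 352, ⟨nat_lit 270, nat_lit 0, nat_lit 730, nat_lit 6, nat_lit 124, nat_lit 730, nat_lit 157, nat_lit 730, nat_lit 50482, nat_lit 269, nat_lit 144150, nat_lit 308, nat_lit 51561683, nat_lit 0, nat_lit 0, nat_lit 3713355, false, false⟩,
 nat_lit 0, nat_lit 8848, nat_lit 0, nat_lit 0, nat_lit 5388, nat_lit 1701, nat_lit 313, nat_lit 0, nat_lit 0, nat_lit 685, nat_lit 0, nat_lit 0, nat_lit 0, nat_lit 2347990024060, nat_lit 0, nat_lit 730000, nat_lit 0, nat_lit 0, [(nat_lit 9, [(nat_lit 6, nat_lit 730)])],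
 ⟨p051_k0, nat_lit 0, nat_lit 0, nat_lit 173, nat_lit 0, nat_lit 236458, [nat_lit 2067008001, nat_lit 1147300000, nat_lit 256262000], [], [nat_lit 12964361704, nat_lit 13578519252, nat_lit 12396753088, nat_lit 12986600068, nat_lit 15895841235, nat_lit 16677183760, nat_lit 15084877214, nat_lit 15674724194], nat_lit 1271250, nat_lit 1271250, nat_lit 230001, nat_lit 490000, nat_lit 1100001, nat_lit 1785000, [nat_lit 1100000, nat_lit 1442500, nat_lit 1271250], [nat_lit 9, nat_lit 40, nat_lit 40, nat_lit 80, nat_lit 2, nat_lit 317, nat_lit 100, nat_lit 10]⟩, ⟨p051_k5, nat_lit 0, nat_lit 0, nat_lit 159, nat_lit 0, nat_lit 0, [nat_lit 1265760000, nat_lit 1687500000, nat_lit 2151360000], [], [nat_lit 4948482432, nat_lit 5380007556, nat_lit 4689428016, nat_lit 5105963467, nat_lit 7233397569, nat_lit 7468012577, nat_lit 6935405751, nat_lit 7155818955], nat_lit 0, nat_lit 0, nat_lit 0, nat_lit 0, nat_lit 0, nat_lit 0, [],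 [nat_lit 9, nat_lit 40, nat_lit 40, nat_lit 80, nat_lit 2, nat_lit 345, nat_lit 125, nat_lit 12]⟩,
 ⟨nat_lit 5477, nat_lit 5701, ⟨.ofNat (nat_lit 257148), .ofNat (nat_lit 333867), .ofNat (nat_lit 278490), .ofNat (nat_lit 355209), .ofNat (nat_lit 264337), .ofNat (nat_lit 339271), .ofNat (nat_lit 285695), .ofNat (nat_lit 360628)⟩, ⟨.ofNat (nat_lit 295228), .ofNat (nat_lit 448666), .ofNat (nat_lit 337912), .ofNat (nat_lit 491350), .ofNat (nat_lit 296923), .ofNat (nat_lit 446789), .ofNat (nat_lit 339637), .ofNat (nat_lit 489503)⟩⟩, [⟨nat_lit 0, nat_lit 100, nat_lit 100, nat_lit 80, nat_lit 419188621⟩, ⟨nat_lit 19, nat_lit 100, nat_lit 82, nat_lit 92, nat_lit 88487655⟩]⟩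
noncomputable def p051_l71 : Lf2 := ⟨nat_lit 0, nat_lit 6, [nat_lit 47, nat_lit 5, nat_lit 5, nat_lit 20], false, nat_lit 160, nat_lit 240, nat_lit 0, nat_lit 160, ⟨nat_lit 1000, nat_lit 0, nat_lit 0, nat_lit 0, nat_lit 0, nat_lit 0, nat_lit 0, nat_lit 0, nat_lit 0, nat_lit 0, nat_lit 0, nat_lit 0, nat_lit 0, nat_lit 0, nat_lit 0, nat_lit 0, false, false⟩,
 nat_lit 0, nat_lit 14897, nat_lit 0, nat_lit 0, nat_lit 8671, nat_lit 8635, nat_lit 2387, nat_lit 0, nat_lit 0, nat_lit 3327, nat_lit 0, nat_lit 0, nat_lit 0, nat_lit 16244702990760, nat_lit 0, nat_lit 0, nat_lit 0, nat_lit 0, [],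
 ⟨p051_k5, nat_lit 0, nat_lit 0, nat_lit 242, nat_lit 0, nat_lit 444157, [nat_lit 4688000000, nat_lit 6250000000, nat_lit 7968000000], [], [nat_lit 19939796250, nat_lit 15491070332, nat_lit 14055845663, nat_lit 13162139505, nat_lit 16957068295, nat_lit 15789827573, nat_lit 23753191933, nat_lit 19611159285], nat_lit 1271250, nat_lit 1271250, nat_lit 490000, nat_lit 1100001, nat_lit 1100001, nat_lit 1785000, [nat_lit 1100000, nat_lit 1442500, nat_lit 1271250], [nat_lit 9, nat_lit 40, nat_lit 40, nat_lit 80, nat_lit 2, nat_lit 317, nat_lit 100, nat_lit 10]⟩, ⟨p051_k4, nat_lit 0, nat_lit 0, nat_lit 173, nat_lit 0, nat_lit 0, [nat_lit 4688000000, nat_lit 6250000000, nat_lit 9842000000], [], [nat_lit 15002846490, nat_lit 18909019950, nat_lit 15040154920, nat_lit 19119504600, nat_lit 10769114580, nat_lit 14162477060, nat_lit 11447030420, nat_lit 14410777280], nat_lit 0, nat_lit 0, nat_lit 0, nat_lit 0, nat_lit 0, nat_lit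 0, [], [nat_lit 11, nat_lit 40, nat_lit 40, nat_lit 80, nat_lit 1, nat_lit 373, nat_lit 150, nat_lit 11]⟩,
 zbF0, []⟩
noncomputable def p051_l72 : Lf2 := ⟨nat_lit 0, nat_lit 6, [nat_lit 47, nat_lit 5, nat_lit 5, nat_lit 20], false, nat_lit 160, nat_lit 240, nat_lit 160, nat_lit 364, ⟨nat_lit 1000, nat_lit 0, nat_lit 0, nat_lit 0, nat_lit 0, nat_lit 0, nat_lit 0, nat_lit 0, nat_lit 0, nat_lit 0, nat_lit 0, nat_lit 0, nat_lit 0, nat_lit 0, nat_lit 0, nat_lit 0, false, false⟩,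
 nat_lit 0, nat_lit 14589, nat_lit 0, nat_lit 0, nat_lit 8491, nat_lit 5979, nat_lit 3462, nat_lit 0, nat_lit 0, nat_lit 0, nat_lit 0, nat_lit 0, nat_lit 0, nat_lit 0, nat_lit 0, nat_lit 0, nat_lit 0, nat_lit 0, [],
 ⟨p051_k5, nat_lit 0, nat_lit 0, nat_lit 242, nat_lit 0, nat_lit 444157, [nat_lit 4688000000, nat_lit 6250000000, nat_lit 7968000000], [], [nat_lit 20135681250, nat_lit 15779305772, nat_lit 13519351248, nat_lit 13083439312, nat_lit 16366575320, nat_lit 15780363908, nat_lit 23072270918, nat_lit 19016222110], nat_lit 1271250, nat_lit 1271250, nat_lit 490000, nat_lit 1100001, nat_lit 1100001, nat_lit 1785000, [nat_lit 1100000, nat_lit 1442500, nat_lit 1271250], [nat_lit 9, nat_lit 40, nat_lit 40, nat_lit 80, nat_lit 2, nat_lit 317, nat_lit 100, nat_lit 10]⟩, ⟨p051_k4, nat_lit 0, nat_lit 0, nat_lit 90, nat_lit 0, nat_lit 0, [nat_lit 4688000000, nat_lit 6250000000, nat_lit 9842000000], [], [nat_lit 9877079700,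 nat_lit 13463805344, nat_lit 11321143992, nat_lit 14492196184, nat_lit 24829925514, nat_lit 26775652486, nat_lit 24596382808, nat_lit 26335021608], nat_lit 0, nat_lit 0, nat_lit 0, nat_lit 0, nat_lit 0, nat_lit 0, [], [nat_lit 11, nat_lit 40, nat_lit 40, nat_lit 80, nat_lit 1, nat_lit 456, nat_lit 225, nat_lit 13]⟩,
 zbF0, [⟨nat_lit 7, nat_lit 77, nat_lit 100, nat_lit 91, nat_lit 617050827⟩]⟩
noncomputable def p051_l73 : Lf2 := ⟨nat_lit 0, nat_lit 6, [nat_lit 47, nat_lit 5, nat_lit 5, nat_lit 20], false, nat_lit 240, nat_lit 352, nat_lit 0, nat_lit 160, ⟨nat_lit 1000, nat_lit 0, nat_lit 0, nat_lit 0, nat_lit 0, nat_lit 0, nat_lit 0, nat_lit 0, nat_lit 0, nat_lit 0, nat_lit 0, nat_lit 0, nat_lit 0, nat_lit 0, nat_lit 0, nat_lit 0, false, false⟩,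
 nat_lit 0, nat_lit 12347, nat_lit 0, nat_lit 18278, nat_lit 7186, nat_lit 8382, nat_lit 1908, nat_lit 0, nat_lit 0, nat_lit 3158, nat_lit 0, nat_lit 0, nat_lit 0, nat_lit 7542389268827, nat_lit 0, nat_lit 0, nat_lit 0, nat_lit 0, [],
 ⟨p051_k5, nat_lit 0, nat_lit 0, nat_lit 247, nat_lit 0, nat_lit 250369, [nat_lit 4688000000, nat_lit 6250000000, nat_lit 7968000000], [], [nat_lit 21965968576, nat_lit 22895728373, nat_lit 20052915180, nat_lit 21000276776, nat_lit 29259857417, nat_lit 30590212786, nat_lit 25883751165, nat_lit 26827969113], nat_lit 1271250, nat_lit 1271250, nat_lit 134400, nat_lit 490000, nat_lit 1271250, nat_lit 1271250, [nat_lit 1100000, nat_lit 1442500, nat_lit 1271250], [nat_lit 9, nat_lit 40, nat_lit 40, nat_lit 80, nat_lit 2, nat_lit 226, nat_lit 20, nat_lit 7]⟩, ⟨p051_k4, nat_lit 0, nat_lit 0, nat_lit 221, nat_lit 0, nat_lit 0, [nat_lit 4688000000, nat_lit 6250000000, nat_lit 9842000000], [],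 [nat_lit 19563834840, nat_lit 23533176443, nat_lit 15527277668, nat_lit 19359980940, nat_lit 13636544500, nat_lit 17152739764, nat_lit 11340766056, nat_lit 14671574792], nat_lit 0, nat_lit 0, nat_lit 0, nat_lit 0, nat_lit 0, nat_lit 0, [], [nat_lit 11, nat_lit 40, nat_lit 40, nat_lit 80, nat_lit 1, nat_lit 373, nat_lit 150, nat_lit 11]⟩,
 zbF0, [⟨nat_lit 0, nat_lit 100, nat_lit 98, nat_lit 64, nat_lit 1390446688⟩, ⟨nat_lit 4, nat_lit 82, nat_lit 100, nat_lit 92, nat_lit 556655268⟩]⟩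
noncomputable def p051_l74 : Lf2 := ⟨nat_lit 0, nat_lit 6, [nat_lit 47, nat_lit 5, nat_lit 5, nat_lit 20], false, nat_lit 240, nat_lit 352, nat_lit 160, nat_lit 240, ⟨nat_lit 1000, nat_lit 0, nat_lit 0, nat_lit 0, nat_lit 0, nat_lit 0, nat_lit 0, nat_lit 0, nat_lit 0, nat_lit 0, nat_lit 0, nat_lit 0, nat_lit 0, nat_lit 0, nat_lit 0, nat_lit 0, false, false⟩,
 nat_lit 0, nat_lit 12179, nat_lit 0, nat_lit 0, nat_lit 7089, nat_lit 7621, nat_lit 2314, nat_lit 0, nat_lit 0, nat_lit 0, nat_lit 0, nat_lit 0, nat_lit 0, nat_lit 0, nat_lit 0, nat_lit 0, nat_lit 0, nat_lit 0, [],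
 ⟨p051_k5, nat_lit 0, nat_lit 0, nat_lit 247, nat_lit 0, nat_lit 250369, [nat_lit 4688000000, nat_lit 6250000000, nat_lit 7968000000], [], [nat_lit 21455766333, nat_lit 22450185048, nat_lit 19650901070, nat_lit 20592473124, nat_lit 29104972418, nat_lit 30426089795, nat_lit 25442476886, nat_lit 26726381788], nat_lit 1271250, nat_lit 1271250, nat_lit 134400, nat_lit 490000, nat_lit 1271250, nat_lit 1271250, [nat_lit 1100000, nat_lit 1442500, nat_lit 1271250], [nat_lit 9, nat_lit 40, nat_lit 40, nat_lit 80, nat_lit 2, nat_lit 226, nat_lit 20, nat_lit 7]⟩, ⟨p051_k4, nat_lit 0, nat_lit 0, nat_lit 60, nat_lit 0, nat_lit 0, [nat_lit 4688000000, nat_lit 6250000000, nat_lit 9842000000], [], [nat_lit 9673873009, nat_lit 14290973544, nat_lit 7260224300, nat_lit 11434188256, nat_lit 15033982367, nat_lit 19305737478, nat_lit 12284573452, nat_lit 15725081404], nat_lit 0, nat_lit 0, nat_lit 0, nat_lit 0, nat_lit 0, nat_lit 0,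 [], [nat_lit 11, nat_lit 40, nat_lit 40, nat_lit 80, nat_lit 1, nat_lit 373, nat_lit 150, nat_lit 11]⟩,
 zbF0, [⟨nat_lit 0, nat_lit 100, nat_lit 98, nat_lit 64, nat_lit 630962892⟩, ⟨nat_lit 23, nat_lit 90, nat_lit 100, nat_lit 69, nat_lit 761972066⟩]⟩
noncomputable def p051_l75 : Lf2 := ⟨nat_lit 0, nat_lit 3, [nat_lit 45, nat_lit 5, nat_lit 5, nat_lit 20], false, nat_lit 240, nat_lit 336, nat_lit 240, nat_lit 336, ⟨nat_lit 1000, nat_lit 0, nat_lit 0, nat_lit 0, nat_lit 0, nat_lit 0, nat_lit 0, nat_lit 0, nat_lit 0, nat_lit 0, nat_lit 0, nat_lit 0, nat_lit 0, nat_lit 0, nat_lit 0, nat_lit 0, false, false⟩,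
 nat_lit 0, nat_lit 14015, nat_lit 0, nat_lit 0, nat_lit 8157, nat_lit 10226, nat_lit 2252, nat_lit 0, nat_lit 0, nat_lit 984, nat_lit 0, nat_lit 0, nat_lit 0, nat_lit 0, nat_lit 0, nat_lit 0, nat_lit 0, nat_lit 0, [],
 ⟨p051_k13, nat_lit 0, nat_lit 0, nat_lit 183, nat_lit 0, nat_lit 135619, [nat_lit 4688000000, nat_lit 6250000000, nat_lit 7968000000], [], [nat_lit 18115746210, nat_lit 19660340105, nat_lit 15201582286, nat_lit 16542548132, nat_lit 28621181109, nat_lit 30161341973, nat_lit 24362001891, nat_lit 25859621681], nat_lit 1271250, nat_lit 1271250, nat_lit 134400, nat_lit 490000, nat_lit 1271250, nat_lit 1271250, [nat_lit 1100000, nat_lit 1442500, nat_lit 1271250], [nat_lit 9, nat_lit 40, nat_lit 40, nat_lit 80, nat_lit 2, nat_lit 226, nat_lit 20, nat_lit 7]⟩, ⟨p051_k12, nat_lit 0, nat_lit 0, nat_lit 133, nat_lit 0, nat_lit 0, [nat_lit 4688000000, nat_lit 6250000000, nat_lit 7968000000], [], [nat_lit 19251684514,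 nat_lit 21026887493, nat_lit 15266079760, nat_lit 16959237332, nat_lit 29766529611, nat_lit 31529461194, nat_lit 24433748053, nat_lit 25960691708], nat_lit 0, nat_lit 0, nat_lit 0, nat_lit 0, nat_lit 0, nat_lit 0, [], [nat_lit 9, nat_lit 40, nat_lit 40, nat_lit 80, nat_lit 2, nat_lit 226, nat_lit 20, nat_lit 7]⟩,
 zbF0, [⟨nat_lit 0, nat_lit 100, nat_lit 96, nat_lit 69, nat_lit 222744330⟩, ⟨nat_lit 11, nat_lit 100, nat_lit 100, nat_lit 72, nat_lit 1104071811⟩]⟩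
noncomputable def p051_l76 : Lf2 := ⟨nat_lit 1, nat_lit 6, [nat_lit 47, nat_lit 5, nat_lit 5, nat_lit 20], false, nat_lit 240, nat_lit 336, nat_lit 240, nat_lit 336, zbN0,
 nat_lit 0, nat_lit 0, nat_lit 0, nat_lit 0, nat_lit 0, nat_lit 0, nat_lit 0, nat_lit 0, nat_lit 0, nat_lit 0, nat_lit 0, nat_lit 0, nat_lit 0, nat_lit 0, nat_lit 0, nat_lit 0, nat_lit 0, nat_lit 0, [],
 C1.Rw.none, C1.Rw.none,
 zbF0, []⟩
noncomputable def p051_l77 : Lf2 := ⟨nat_lit 0, nat_lit 6, [nat_lit 47, nat_lit 5, nat_lit 5, nat_lit 20], false, nat_lit 240, nat_lit 336, nat_lit 240, nat_lit 336, ⟨nat_lit 1000, nat_lit 0, nat_lit 0, nat_lit 0, nat_lit 0, nat_lit 0, nat_lit 0, nat_lit 0, nat_lit 0, nat_lit 0, nat_lit 0, nat_lit 0, nat_lit 0, nat_lit 0, nat_lit 0, nat_lit 0, false, false⟩,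
 nat_lit 0, nat_lit 14523, nat_lit 0, nat_lit 15055, nat_lit 8453, nat_lit 8453, nat_lit 2406, nat_lit 0, nat_lit 0, nat_lit 2406, nat_lit 0, nat_lit 0, nat_lit 0, nat_lit 0, nat_lit 0, nat_lit 0, nat_lit 0, nat_lit 0, [],
 ⟨p051_k5, nat_lit 0, nat_lit 0, nat_lit 168, nat_lit 0, nat_lit 134584, [nat_lit 4688000000, nat_lit 6250000000, nat_lit 7968000000], [], [nat_lit 16481598967, nat_lit 17266988710, nat_lit 14483654484, nat_lit 15172601731, nat_lit 27558530373, nat_lit 28344733999, nat_lit 24590717302, nat_lit 25354971411], nat_lit 1271250, nat_lit 1271250, nat_lit 205650, nat_lit 490000, nat_lit 1271250, nat_lit 1271250, [nat_lit 1100000, nat_lit 1442500, nat_lit 1271250], [nat_lit 9, nat_lit 40, nat_lit 40, nat_lit 80, nat_lit 2, nat_lit 226, nat_lit 20, nat_lit 7]⟩, ⟨p051_k5, nat_lit 0, nat_lit 0, nat_lit 122, nat_lit 0, nat_lit 0, [nat_lit 4688000000, nat_lit 6250000000, nat_lit 7968000000], [], [nat_lit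 16481598967, nat_lit 17266988710, nat_lit 14483654484, nat_lit 15172601731, nat_lit 27558530373, nat_lit 28344733999, nat_lit 24590717302, nat_lit 25354971411], nat_lit 0, nat_lit 0, nat_lit 0, nat_lit 0, nat_lit 0, nat_lit 0, [], [nat_lit 9, nat_lit 40, nat_lit 40, nat_lit 80, nat_lit 2, nat_lit 226, nat_lit 20, nat_lit 7]⟩,
 zbF0, [⟨nat_lit 0, nat_lit 100, nat_lit 100, nat_lit 70, nat_lit 59984414⟩, ⟨nat_lit 11, nat_lit 100, nat_lit 100, nat_lit 76, nat_lit 1085399117⟩]⟩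
noncomputable def p051_l78 : Lf2 := ⟨nat_lit 0, nat_lit 6, [nat_lit 47, nat_lit 5, nat_lit 5, nat_lit 20], false, nat_lit 240, nat_lit 336, nat_lit 240, nat_lit 336, ⟨nat_lit 1000, nat_lit 0, nat_lit 0, nat_lit 0, nat_lit 0, nat_lit 0, nat_lit 0, nat_lit 0, nat_lit 0, nat_lit 0, nat_lit 0, nat_lit 0, nat_lit 0, nat_lit 0, nat_lit 0, nat_lit 0, false, false⟩,
 nat_lit 0, nat_lit 10778, nat_lit 0, nat_lit 0, nat_lit 6564, nat_lit 6339, nat_lit 2186, nat_lit 0, nat_lit 0, nat_lit 0, nat_lit 0, nat_lit 0, nat_lit 0, nat_lit 0, nat_lit 0, nat_lit 0, nat_lit 0, nat_lit 0, [],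
 ⟨p051_k0, nat_lit 0, nat_lit 0, nat_lit 201, nat_lit 0, nat_lit 236458, [nat_lit 4688000000, nat_lit 6250000000, nat_lit 7968000000], [], [nat_lit 18968394982, nat_lit 19586339202, nat_lit 18060091478, nat_lit 18694990176, nat_lit 25577259868, nat_lit 26261426442, nat_lit 24416178173, nat_lit 24895849556], nat_lit 1271250, nat_lit 1271250, nat_lit 230001, nat_lit 490000, nat_lit 1271250, nat_lit 1271250, [nat_lit 1100000, nat_lit 1442500, nat_lit 1271250], [nat_lit 9, nat_lit 40, nat_lit 40, nat_lit 80, nat_lit 2, nat_lit 226, nat_lit 20, nat_lit 7]⟩, ⟨p051_k5, nat_lit 0, nat_lit 0, nat_lit 97, nat_lit 0, nat_lit 0, [nat_lit 4688000000, nat_lit 6250000000, nat_lit 7968000000], [], [nat_lit 16415592468, nat_lit 18019503644, nat_lit 15445312444, nat_lit 16988182820, nat_lit 24634321873, nat_lit 25978332702, nat_lit 23143696193, nat_lit 24265191334], nat_lit 0, nat_lit 0, nat_lit 0, nat_lit 0, nat_lit 0, nat_lit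 0, [], [nat_lit 9, nat_lit 40, nat_lit 40, nat_lit 80, nat_lit 2, nat_lit 226, nat_lit 20, nat_lit 7]⟩,
 zbF0, [⟨nat_lit 0, nat_lit 100, nat_lit 100, nat_lit 80, nat_lit 187368391⟩, ⟨nat_lit 11, nat_lit 95, nat_lit 100, nat_lit 76, nat_lit 824883765⟩]⟩
noncomputable def p051_l79 : Lf2 := ⟨nat_lit 0, nat_lit 6, [nat_lit 47, nat_lit 5, nat_lit 5, nat_lit 20], false, nat_lit 240, nat_lit 352, nat_lit 0, nat_lit 160, ⟨nat_lit 1000, nat_lit 0, nat_lit 0, nat_lit 0, nat_lit 0, nat_lit 0, nat_lit 0, nat_lit 0, nat_lit 0, nat_lit 0, nat_lit 0, nat_lit 0, nat_lit 0, nat_lit 0, nat_lit 0, nat_lit 0, false, false⟩,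
 nat_lit 0, nat_lit 12485, nat_lit 0, nat_lit 6276, nat_lit 7267, nat_lit 8604, nat_lit 1562, nat_lit 0, nat_lit 0, nat_lit 3322, nat_lit 0, nat_lit 0, nat_lit 0, nat_lit 23287314579207, nat_lit 0, nat_lit 0, nat_lit 0, nat_lit 0, [],
 ⟨p051_k5, nat_lit 0, nat_lit 0, nat_lit 275, nat_lit 0, nat_lit 444157, [nat_lit 4688000000, nat_lit 6250000000, nat_lit 7968000000], [], [nat_lit 20947495034, nat_lit 21808097610, nat_lit 20676140926, nat_lit 21428557602, nat_lit 26304415317, nat_lit 26914759901, nat_lit 25495922344, nat_lit 26062576456], nat_lit 1271250, nat_lit 1271250, nat_lit 490000, nat_lit 1100001, nat_lit 1271250, nat_lit 1271250, [nat_lit 1100000, nat_lit 1442500, nat_lit 1271250], [nat_lit 9, nat_lit 40, nat_lit 40, nat_lit 80, nat_lit 2, nat_lit 249, nat_lit 40, nat_lit 7]⟩, ⟨p051_k4, nat_lit 0, nat_lit 0, nat_lit 173, nat_lit 0, nat_lit 0, [nat_lit 4688000000, nat_lit 6250000000, nat_lit 9842000000],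 [], [nat_lit 15016938996, nat_lit 18914110180, nat_lit 15089804768, nat_lit 19130579040, nat_lit 10839158832, nat_lit 14224856624, nat_lit 11521353168, nat_lit 14478725312], nat_lit 0, nat_lit 0, nat_lit 0, nat_lit 0, nat_lit 0, nat_lit 0, [], [nat_lit 11, nat_lit 40, nat_lit 40, nat_lit 80, nat_lit 1, nat_lit 373, nat_lit 150, nat_lit 11]⟩,
 zbF0, [⟨nat_lit 4, nat_lit 82, nat_lit 100, nat_lit 92, nat_lit 521512177⟩]⟩
noncomputable def p051_l80 : Lf2 := ⟨nat_lit 0, nat_lit 6, [nat_lit 47, nat_lit 5, nat_lit 5, nat_lit 20], false, nat_lit 240, nat_lit 352, nat_lit 160, nat_lit 240, ⟨nat_lit 1000, nat_lit 0, nat_lit 0, nat_lit 0, nat_lit 0, nat_lit 0, nat_lit 0, nat_lit 0, nat_lit 0, nat_lit 0, nat_lit 0, nat_lit 0, nat_lit 0, nat_lit 0, nat_lit 0, nat_lit 0, false, false⟩,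
 nat_lit 0, nat_lit 11799, nat_lit 0, nat_lit 0, nat_lit 6867, nat_lit 7620, nat_lit 2927, nat_lit 0, nat_lit 0, nat_lit 0, nat_lit 0, nat_lit 0, nat_lit 0, nat_lit 14125994803338, nat_lit 0, nat_lit 0, nat_lit 0, nat_lit 0, [],
 ⟨p051_k5, nat_lit 0, nat_lit 0, nat_lit 275, nat_lit 0, nat_lit 444157, [nat_lit 4688000000, nat_lit 6250000000, nat_lit 7968000000], [], [nat_lit 19254526960, nat_lit 20238717721, nat_lit 19394932418, nat_lit 20360008804, nat_lit 25734407822, nat_lit 26496479806, nat_lit 25287303944, nat_lit 25956561391], nat_lit 1271250, nat_lit 1271250, nat_lit 490000, nat_lit 1100001, nat_lit 1271250, nat_lit 1271250, [nat_lit 1100000, nat_lit 1442500, nat_lit 1271250], [nat_lit 9, nat_lit 40, nat_lit 40, nat_lit 80, nat_lit 2, nat_lit 249, nat_lit 40, nat_lit 7]⟩, ⟨p051_k4, nat_lit 0, nat_lit 0, nat_lit 7, nat_lit 0, nat_lit 0, [nat_lit 4688000000, nat_lit 6250000000, nat_lit 9842000000], [], [nat_lit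 7261818000, nat_lit 11435424320, nat_lit 8536445760, nat_lit 12204471520, nat_lit 12285835440, nat_lit 15725603600, nat_lit 12924742880, nat_lit 15950664400], nat_lit 0, nat_lit 0, nat_lit 0, nat_lit 0, nat_lit 0, nat_lit 0, [], [nat_lit 11, nat_lit 40, nat_lit 40, nat_lit 80, nat_lit 1, nat_lit 401, nat_lit 175, nat_lit 11]⟩,
 zbF0, [⟨nat_lit 4, nat_lit 82, nat_lit 100, nat_lit 92, nat_lit 577368867⟩]⟩
noncomputable def p051_l81 : Lf2 := ⟨nat_lit 0, nat_lit 6, [nat_lit 47, nat_lit 5, nat_lit 5, nat_lit 20], false, nat_lit 240, nat_lit 352, nat_lit 240, nat_lit 364, ⟨nat_lit 1000, nat_lit 0, nat_lit 0, nat_lit 0, nat_lit 0, nat_lit 0, nat_lit 0, nat_lit 0, nat_lit 0, nat_lit 0, nat_lit 0, nat_lit 0, nat_lit 0, nat_lit 0, nat_lit 0, nat_lit 0, false, false⟩,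
 nat_lit 0, nat_lit 11381, nat_lit 0, nat_lit 0, nat_lit 6624, nat_lit 6039, nat_lit 2682, nat_lit 0, nat_lit 0, nat_lit 0, nat_lit 0, nat_lit 0, nat_lit 0, nat_lit 0, nat_lit 0, nat_lit 0, nat_lit 0, nat_lit 0, [],
 ⟨p051_k5, nat_lit 0, nat_lit 0, nat_lit 181, nat_lit 0, nat_lit 235034, [nat_lit 4688000000, nat_lit 6250000000, nat_lit 7968000000], [], [nat_lit 17846556622, nat_lit 18449725598, nat_lit 18194060190, nat_lit 18725627670, nat_lit 25131728877, nat_lit 25616754045, nat_lit 24772582848, nat_lit 25172300221], nat_lit 1271250, nat_lit 1271250, nat_lit 490000, nat_lit 1100001, nat_lit 1271250, nat_lit 1271250, [nat_lit 1100000, nat_lit 1442500, nat_lit 1271250], [nat_lit 9, nat_lit 40, nat_lit 40, nat_lit 80, nat_lit 2, nat_lit 249, nat_lit 40, nat_lit 7]⟩, ⟨p051_k4, nat_lit 0, nat_lit 0, nat_lit 88, nat_lit 0, nat_lit 0, [nat_lit 4688000000, nat_lit 6250000000, nat_lit 9842000000], [], [nat_lit 14281038468,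 nat_lit 16533161232, nat_lit 15187748336, nat_lit 17182100219, nat_lit 24816567474, nat_lit 26281897050, nat_lit 24563777644, nat_lit 25872640315], nat_lit 0, nat_lit 0, nat_lit 0, nat_lit 0, nat_lit 0, nat_lit 0, [], [nat_lit 11, nat_lit 40, nat_lit 40, nat_lit 80, nat_lit 1, nat_lit 428, nat_lit 200, nat_lit 12]⟩,
 zbF0, [⟨nat_lit 7, nat_lit 75, nat_lit 100, nat_lit 90, nat_lit 10479486⟩, ⟨nat_lit 23, nat_lit 96, nat_lit 86, nat_lit 100, nat_lit 664990828⟩]⟩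
noncomputable def p051_l82 : Lf2 := ⟨nat_lit 0, nat_lit 6, [nat_lit 47, nat_lit 5, nat_lit 5, nat_lit 20], false, nat_lit 240, nat_lit 328, nat_lit 240, nat_lit 320, ⟨nat_lit 1000, nat_lit 0, nat_lit 0, nat_lit 0, nat_lit 0, nat_lit 0, nat_lit 0, nat_lit 0, nat_lit 0, nat_lit 0, nat_lit 0, nat_lit 0, nat_lit 0, nat_lit 0, nat_lit 0, nat_lit 0, false, false⟩,
 nat_lit 0, nat_lit 11356, nat_lit 0, nat_lit 0, nat_lit 6916, nat_lit 6604, nat_lit 2440, nat_lit 0, nat_lit 0, nat_lit 0, nat_lit 0, nat_lit 0, nat_lit 0, nat_lit 15510172355841, nat_lit 0, nat_lit 0, nat_lit 0, nat_lit 0, [],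
 ⟨p051_k18, nat_lit 0, nat_lit 0, nat_lit 184, nat_lit 0, nat_lit 307457, [nat_lit 4688000000, nat_lit 7968000000], [], [nat_lit 17416012436, nat_lit 17695117170, nat_lit 17746383288, nat_lit 18041767276, nat_lit 23277397376, nat_lit 23530435623, nat_lit 22983040719, nat_lit 23206219073], nat_lit 1271250, nat_lit 1271250, nat_lit 490000, nat_lit 1100001, nat_lit 1271250, nat_lit 1271250, [nat_lit 1100000, nat_lit 1785000], [nat_lit 39, nat_lit 40, nat_lit 40, nat_lit 80, nat_lit 7, nat_lit 249, nat_lit 40, nat_lit 7]⟩, ⟨p051_k6, nat_lit 0, nat_lit 0, nat_lit 47, nat_lit 0, nat_lit 0, [nat_lit 4688000000, nat_lit 9842000000], [], [nat_lit 13568015248, nat_lit 16332121236, nat_lit 14379020896, nat_lit 16820457782, nat_lit 20290279248, nat_lit 22420332334, nat_lit 20328857472, nat_lit 22218763630], nat_lit 0, nat_lit 0, nat_lit 0, nat_lit 0, nat_lit 0, nat_lit 0, [], [nat_lit 70, nat_lit 40, nat_lit 40, nat_lit 80,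 nat_lit 13, nat_lit 428, nat_lit 200, nat_lit 12]⟩,
 zbF0, [⟨nat_lit 7, nat_lit 80, nat_lit 100, nat_lit 87, nat_lit 54768271⟩, ⟨nat_lit 11, nat_lit 100, nat_lit 99, nat_lit 82, nat_lit 81728501⟩, ⟨nat_lit 11, nat_lit 91, nat_lit 91, nat_lit 100, nat_lit 561025262⟩]⟩
noncomputable def p051_l83 : Lf2 := ⟨nat_lit 0, nat_lit 6, [nat_lit 47, nat_lit 5, nat_lit 5, nat_lit 20], false, nat_lit 240, nat_lit 324, nat_lit 240, nat_lit 280, ⟨nat_lit 1000, nat_lit 0, nat_lit 0, nat_lit 0, nat_lit 0, nat_lit 0, nat_lit 0, nat_lit 0, nat_lit 0, nat_lit 0, nat_lit 0, nat_lit 0, nat_lit 0, nat_lit 0, nat_lit 0, nat_lit 0, false, false⟩,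
 nat_lit 0, nat_lit 11675, nat_lit 0, nat_lit 0, nat_lit 7269, nat_lit 7059, nat_lit 1828, nat_lit 0, nat_lit 0, nat_lit 0, nat_lit 0, nat_lit 0, nat_lit 0, nat_lit 0, nat_lit 0, nat_lit 0, nat_lit 0, nat_lit 0, [],
 ⟨p051_k19, nat_lit 0, nat_lit 0, nat_lit 245, nat_lit 0, nat_lit 390829, [nat_lit 4688000000, nat_lit 6250000000, nat_lit 7968000000], [], [nat_lit 18858830694, nat_lit 19094686972, nat_lit 18936506953, nat_lit 19184244028, nat_lit 23489677571, nat_lit 23706562632, nat_lit 23059712786, nat_lit 23249727695], nat_lit 1271250, nat_lit 1271250, nat_lit 490000, nat_lit 1100001, nat_lit 1271250, nat_lit 1271250, [nat_lit 1100000, nat_lit 1442500, nat_lit 1271250], [nat_lit 9, nat_lit 40, nat_lit 40, nat_lit 80, nat_lit 2, nat_lit 249, nat_lit 40, nat_lit 7]⟩, ⟨p051_k4, nat_lit 0, nat_lit 0, nat_lit 35, nat_lit 0, nat_lit 0, [nat_lit 4688000000, nat_lit 6250000000, nat_lit 9842000000], [], [nat_lit 12993810708,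 nat_lit 16278536420, nat_lit 13727744816, nat_lit 16623516580, nat_lit 16493262708, nat_lit 19394930846, nat_lit 16819721864, nat_lit 19382358892], nat_lit 0, nat_lit 0, nat_lit 0, nat_lit 0, nat_lit 0, nat_lit 0, [], [nat_lit 11, nat_lit 40, nat_lit 40, nat_lit 80, nat_lit 1, nat_lit 428, nat_lit 200, nat_lit 12]⟩,
 zbF0, [⟨nat_lit 4, nat_lit 90, nat_lit 100, nat_lit 91, nat_lit 570878549⟩]⟩
noncomputable def p051_l84 : Lf2 := ⟨nat_lit 0, nat_lit 6, [nat_lit 47, nat_lit 5, nat_lit 5, nat_lit 20], false, nat_lit 240, nat_lit 324, nat_lit 280, nat_lit 320, ⟨nat_lit 1000, nat_lit 0, nat_lit 0, nat_lit 0, nat_lit 0, nat_lit 0, nat_lit 0, nat_lit 0, nat_lit 0, nat_lit 0, nat_lit 0, nat_lit 0, nat_lit 0, nat_lit 0, nat_lit 0, nat_lit 0, false, false⟩,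
 nat_lit 0, nat_lit 11159, nat_lit 0, nat_lit 0, nat_lit 6947, nat_lit 6577, nat_lit 2080, nat_lit 0, nat_lit 0, nat_lit 0, nat_lit 0, nat_lit 0, nat_lit 0, nat_lit 0, nat_lit 0, nat_lit 0, nat_lit 0, nat_lit 0, [],
 ⟨p051_k20, nat_lit 0, nat_lit 0, nat_lit 196, nat_lit 0, nat_lit 353743, [nat_lit 4688000000, nat_lit 7968000000], [], [nat_lit 17669997328, nat_lit 17837831452, nat_lit 17976080942, nat_lit 18153720870, nat_lit 23167068029, nat_lit 23321504169, nat_lit 22867986230, nat_lit 23004162016], nat_lit 1271250, nat_lit 1271250, nat_lit 490000, nat_lit 1100001, nat_lit 1271250, nat_lit 1271250, [nat_lit 1100000, nat_lit 1785000], [nat_lit 39, nat_lit 40, nat_lit 40, nat_lit 80, nat_lit 7, nat_lit 249, nat_lit 40, nat_lit 7]⟩, ⟨p051_k6, nat_lit 0, nat_lit 0, nat_lit 48, nat_lit 0, nat_lit 0, [nat_lit 4688000000, nat_lit 9842000000], [], [nat_lit 16955012924, nat_lit 19605922578, nat_lit 17385639992, nat_lit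 19732003082, nat_lit 20307936924, nat_lit 22615815712, nat_lit 20353611936, nat_lit 22401585909], nat_lit 0, nat_lit 0, nat_lit 0, nat_lit 0, nat_lit 0, nat_lit 0, [], [nat_lit 70, nat_lit 40, nat_lit 40, nat_lit 80, nat_lit 13, nat_lit 345, nat_lit 125, nat_lit 9]⟩,
 zbF0, [⟨nat_lit 7, nat_lit 81, nat_lit 100, nat_lit 87, nat_lit 54622998⟩, ⟨nat_lit 11, nat_lit 95, nat_lit 100, nat_lit 89, nat_lit 247554455⟩, ⟨nat_lit 11, nat_lit 91, nat_lit 91, nat_lit 100, nat_lit 397976974⟩]⟩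
noncomputable def p051_l85 : Lf2 := ⟨nat_lit 0, nat_lit 6, [nat_lit 47, nat_lit 5, nat_lit 5, nat_lit 20], false, nat_lit 240, nat_lit 324, nat_lit 280, nat_lit 320, ⟨nat_lit 1000, nat_lit 0, nat_lit 0, nat_lit 0, nat_lit 0, nat_lit 0, nat_lit 0, nat_lit 0, nat_lit 0, nat_lit 0, nat_lit 0, nat_lit 0, nat_lit 0, nat_lit 0, nat_lit 0, nat_lit 0, false, false⟩,
 nat_lit 0, nat_lit 10998, nat_lit 0, nat_lit 0, nat_lit 6938, nat_lit 7071, nat_lit 1884, nat_lit 0, nat_lit 0, nat_lit 0, nat_lit 0, nat_lit 0, nat_lit 0, nat_lit 0, nat_lit 0, nat_lit 0, nat_lit 0, nat_lit 0, [],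
 ⟨p051_k21, nat_lit 0, nat_lit 0, nat_lit 215, nat_lit 0, nat_lit 365452, [nat_lit 4688000000, nat_lit 6250000000, nat_lit 7968000000], [], [nat_lit 17863716518, nat_lit 17921171769, nat_lit 18172672199, nat_lit 18231845876, nat_lit 23334710506, nat_lit 23386158309, nat_lit 23019875623, nat_lit 23065242792], nat_lit 1271250, nat_lit 1271250, nat_lit 490000, nat_lit 1100001, nat_lit 1271250, nat_lit 1271250, [nat_lit 1100000, nat_lit 1442500, nat_lit 1271250], [nat_lit 9, nat_lit 40, nat_lit 40, nat_lit 80, nat_lit 2, nat_lit 249, nat_lit 40, nat_lit 7]⟩, ⟨p051_k4, nat_lit 0, nat_lit 0, nat_lit 59, nat_lit 0, nat_lit 0, [nat_lit 4688000000, nat_lit 6250000000, nat_lit 9842000000], [], [nat_lit 16481766852, nat_lit 19313593436, nat_lit 16805632616, nat_lit 19306455875, nat_lit 20143009404, nat_lit 23032687635, nat_lit 19900696928, nat_lit 22444801671], nat_lit 0, nat_lit 0, nat_lit 0, nat_lit 0, nat_lit 0, nat_lit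 0, [], [nat_lit 11, nat_lit 40, nat_lit 40, nat_lit 80, nat_lit 1, nat_lit 345, nat_lit 125, nat_lit 9]⟩,
 zbF0, [⟨nat_lit 7, nat_lit 81, nat_lit 100, nat_lit 87, nat_lit 155658239⟩, ⟨nat_lit 11, nat_lit 95, nat_lit 100, nat_lit 89, nat_lit 292027910⟩, ⟨nat_lit 11, nat_lit 91, nat_lit 91, nat_lit 100, nat_lit 355356733⟩]⟩
noncomputable def p051_l86 : Lf2 := ⟨nat_lit 0, nat_lit 6, [nat_lit 47, nat_lit 5, nat_lit 5, nat_lit 20], false, nat_lit 240, nat_lit 320, nat_lit 280, nat_lit 320, ⟨nat_lit 1000, nat_lit 0, nat_lit 0, nat_lit 0, nat_lit 0, nat_lit 0, nat_lit 0, nat_lit 0, nat_lit 0, nat_lit 0, nat_lit 0, nat_lit 0, nat_lit 0, nat_lit 0, nat_lit 0, nat_lit 0, false, false⟩,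
 nat_lit 0, nat_lit 11568, nat_lit 0, nat_lit 0, nat_lit 7329, nat_lit 7059, nat_lit 1703, nat_lit 0, nat_lit 0, nat_lit 0, nat_lit 0, nat_lit 0, nat_lit 0, nat_lit 32973640692801, nat_lit 0, nat_lit 0, nat_lit 0, nat_lit 0, [],
 ⟨p051_k22, nat_lit 0, nat_lit 0, nat_lit 219, nat_lit 0, nat_lit 381275, [nat_lit 4688000000, nat_lit 6250000000, nat_lit 7968000000], [], [nat_lit 18885973446, nat_lit 18933080305, nat_lit 18959016259, nat_lit 19008756748, nat_lit 23247624190, nat_lit 23291795076, nat_lit 22808925292, nat_lit 22847611792], nat_lit 1271250, nat_lit 1271250, nat_lit 490000, nat_lit 1100001, nat_lit 1271250, nat_lit 1271250, [nat_lit 1100000, nat_lit 1442500, nat_lit 1271250], [nat_lit 9, nat_lit 40, nat_lit 40, nat_lit 80, nat_lit 2, nat_lit 249, nat_lit 40, nat_lit 7]⟩, ⟨p051_k4, nat_lit 0, nat_lit 0, nat_lit 60, nat_lit 0, nat_lit 0, [nat_lit 4688000000, nat_lit 6250000000, nat_lit 9842000000], [], [nat_lit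 16493262708, nat_lit 19394930846, nat_lit 16819721864, nat_lit 19382358892, nat_lit 20137312716, nat_lit 23098300492, nat_lit 19911698912, nat_lit 22506419684], nat_lit 0, nat_lit 0, nat_lit 0, nat_lit 0, nat_lit 0, nat_lit 0, [], [nat_lit 11, nat_lit 40, nat_lit 40, nat_lit 80, nat_lit 1, nat_lit 345, nat_lit 125, nat_lit 9]⟩,
 zbF0, [⟨nat_lit 7, nat_lit 81, nat_lit 100, nat_lit 88, nat_lit 190689709⟩, ⟨nat_lit 11, nat_lit 94, nat_lit 100, nat_lit 88, nat_lit 613598302⟩, ⟨nat_lit 11, nat_lit 91, nat_lit 91, nat_lit 100, nat_lit 9821577⟩]⟩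
noncomputable def p051_l87 : Lf2 := ⟨nat_lit 0, nat_lit 6, [nat_lit 47, nat_lit 5, nat_lit 5, nat_lit 20], false, nat_lit 240, nat_lit 328, nat_lit 320, nat_lit 352, ⟨nat_lit 1000, nat_lit 0, nat_lit 0, nat_lit 0, nat_lit 0, nat_lit 0, nat_lit 0, nat_lit 0, nat_lit 0, nat_lit 0, nat_lit 0, nat_lit 0, nat_lit 0, nat_lit 0, nat_lit 0, nat_lit 0, false, false⟩,
 nat_lit 0, nat_lit 12940, nat_lit 0, nat_lit 0, nat_lit 7880, nat_lit 6568, nat_lit 2084, nat_lit 0, nat_lit 0, nat_lit 0, nat_lit 0, nat_lit 0, nat_lit 0, nat_lit 0, nat_lit 0, nat_lit 0, nat_lit 0, nat_lit 0, [],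
 ⟨p051_k18, nat_lit 0, nat_lit 0, nat_lit 250, nat_lit 0, nat_lit 403322, [nat_lit 4688000000, nat_lit 7968000000], [], [nat_lit 17312398640, nat_lit 17799455600, nat_lit 16972279520, nat_lit 17397198560, nat_lit 23886509965, nat_lit 24647627520, nat_lit 22997007833, nat_lit 23673875137], nat_lit 1271250, nat_lit 1271250, nat_lit 490000, nat_lit 1100001, nat_lit 1271250, nat_lit 1271250, [nat_lit 1100000, nat_lit 1785000], [nat_lit 39, nat_lit 40, nat_lit 40, nat_lit 80, nat_lit 7, nat_lit 249, nat_lit 40, nat_lit 7]⟩, ⟨p051_k6, nat_lit 0, nat_lit 0, nat_lit 68, nat_lit 0, nat_lit 0, [nat_lit 4688000000, nat_lit 9842000000], [], [nat_lit 20313822816, nat_lit 22751267584, nat_lit 20361863424, nat_lit 22516248608, nat_lit 23700574247, nat_lit 26180742656, nat_lit 23208732775, nat_lit 25394956455], nat_lit 0, nat_lit 0, nat_lit 0, nat_lit 0, nat_lit 0, nat_lit 0, [], [nat_lit 70, nat_lit 40, nat_lit 40, nat_lit 80,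 nat_lit 13, nat_lit 345, nat_lit 125, nat_lit 9]⟩,
 zbF0, [⟨nat_lit 7, nat_lit 81, nat_lit 100, nat_lit 88, nat_lit 995755309⟩, ⟨nat_lit 23, nat_lit 99, nat_lit 82, nat_lit 100, nat_lit 774598984⟩]⟩
noncomputable def p051_l88 : Lf2 := ⟨nat_lit 0, nat_lit 6, [nat_lit 47, nat_lit 5, nat_lit 5, nat_lit 20], false, nat_lit 240, nat_lit 344, nat_lit 240, nat_lit 364, ⟨nat_lit 1000, nat_lit 0, nat_lit 0, nat_lit 0, nat_lit 0, nat_lit 0, nat_lit 0, nat_lit 0, nat_lit 0, nat_lit 0, nat_lit 0, nat_lit 0, nat_lit 0, nat_lit 0, nat_lit 0, nat_lit 0, false, false⟩,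
 nat_lit 0, nat_lit 10910, nat_lit 0, nat_lit 0, nat_lit 6644, nat_lit 5979, nat_lit 2407, nat_lit 0, nat_lit 0, nat_lit 0, nat_lit 0, nat_lit 0, nat_lit 0, nat_lit 0, nat_lit 0, nat_lit 0, nat_lit 0, nat_lit 0, [],
 ⟨p051_k18, nat_lit 0, nat_lit 0, nat_lit 182, nat_lit 0, nat_lit 276665, [nat_lit 4688000000, nat_lit 7968000000], [], [nat_lit 17995935824, nat_lit 18543852896, nat_lit 18328716792, nat_lit 18907506976, nat_lit 24930670358, nat_lit 25398078405, nat_lit 24579335200, nat_lit 24992469372], nat_lit 1271250, nat_lit 1271250, nat_lit 490000, nat_lit 1100001, nat_lit 1271250, nat_lit 1271250, [nat_lit 1100000, nat_lit 1785000], [nat_lit 39, nat_lit 40, nat_lit 40, nat_lit 80, nat_lit 7, nat_lit 249, nat_lit 40, nat_lit 7]⟩, ⟨p051_k6, nat_lit 0, nat_lit 0, nat_lit 75, nat_lit 0, nat_lit 0, [nat_lit 4688000000, nat_lit 9842000000], [], [nat_lit 14356757748, nat_lit 17343006020, nat_lit 15273630896, nat_lit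 17918846980, nat_lit 24829925514, nat_lit 26775652486, nat_lit 24596382808, nat_lit 26335021608], nat_lit 0, nat_lit 0, nat_lit 0, nat_lit 0, nat_lit 0, nat_lit 0, [], [nat_lit 70, nat_lit 40, nat_lit 40, nat_lit 80, nat_lit 13, nat_lit 456, nat_lit 225, nat_lit 13]⟩,
 zbF0, [⟨nat_lit 23, nat_lit 97, nat_lit 85, nat_lit 100, nat_lit 376789437⟩, ⟨nat_lit 11, nat_lit 91, nat_lit 91, nat_lit 100, nat_lit 284755935⟩]⟩
noncomputable def p051_l89 : Lf2 := ⟨nat_lit 0, nat_lit 6, [nat_lit 47, nat_lit 5, nat_lit 5, nat_lit 20], false, nat_lit 160, nat_lit 352, nat_lit 0, nat_lit 160, ⟨nat_lit 1000, nat_lit 0, nat_lit 0, nat_lit 0, nat_lit 0, nat_lit 0, nat_lit 0, nat_lit 0, nat_lit 0, nat_lit 0, nat_lit 0, nat_lit 0, nat_lit 0, nat_lit 0, nat_lit 0, nat_lit 0, false, false⟩,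
 nat_lit 0, nat_lit 12626, nat_lit 0, nat_lit 807, nat_lit 7349, nat_lit 9963, nat_lit 1518, nat_lit 0, nat_lit 0, nat_lit 3246, nat_lit 0, nat_lit 0, nat_lit 0, nat_lit 20990385428823, nat_lit 0, nat_lit 0, nat_lit 0, nat_lit 0, [],
 ⟨p051_k5, nat_lit 0, nat_lit 0, nat_lit 243, nat_lit 0, nat_lit 444157, [nat_lit 4688000000, nat_lit 6250000000, nat_lit 7968000000], [], [nat_lit 32001016598, nat_lit 28115321036, nat_lit 27056194310, nat_lit 23496647368, nat_lit 25348424968, nat_lit 25916418633, nat_lit 26766531203, nat_lit 27733560021], nat_lit 1271250, nat_lit 1271250, nat_lit 1100001, nat_lit 1785000, nat_lit 1271250, nat_lit 1271250, [nat_lit 1100000, nat_lit 1442500, nat_lit 1271250], [nat_lit 9, nat_lit 40, nat_lit 40, nat_lit 80, nat_lit 2, nat_lit 373, nat_lit 150, nat_lit 12]⟩, ⟨p051_k4, nat_lit 0, nat_lit 0, nat_lit 154, nat_lit 0, nat_lit 0, [nat_lit 4688000000, nat_lit 6250000000, nat_lit 9842000000],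 [], [nat_lit 14864971368, nat_lit 18645089880, nat_lit 19182286232, nat_lit 24317384092, nat_lit 8263139796, nat_lit 12214770048, nat_lit 12693656940, nat_lit 15944525840], nat_lit 0, nat_lit 0, nat_lit 0, nat_lit 0, nat_lit 0, nat_lit 0, [], [nat_lit 11, nat_lit 40, nat_lit 40, nat_lit 80, nat_lit 1, nat_lit 401, nat_lit 175, nat_lit 12]⟩,
 zbF0, [⟨nat_lit 16, nat_lit 100, nat_lit 82, nat_lit 92, nat_lit 122135983⟩, ⟨nat_lit 9, nat_lit 96, nat_lit 100, nat_lit 28, nat_lit 56731518⟩]⟩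
noncomputable def p051_l90 : Lf2 := ⟨nat_lit 0, nat_lit 6, [nat_lit 47, nat_lit 5, nat_lit 5, nat_lit 20], false, nat_lit 160, nat_lit 352, nat_lit 160, nat_lit 364, ⟨nat_lit 1000, nat_lit 0, nat_lit 0, nat_lit 0, nat_lit 0, nat_lit 0, nat_lit 0, nat_lit 0, nat_lit 0, nat_lit 0, nat_lit 0, nat_lit 0, nat_lit 0, nat_lit 0, nat_lit 0, nat_lit 0, false, false⟩,
 nat_lit 0, nat_lit 11894, nat_lit 0, nat_lit 4095, nat_lit 6923, nat_lit 6394, nat_lit 2042, nat_lit 0, nat_lit 0, nat_lit 0, nat_lit 0, nat_lit 0, nat_lit 0, nat_lit 0, nat_lit 0, nat_lit 0, nat_lit 0, nat_lit 0, [],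
 ⟨p051_k5, nat_lit 0, nat_lit 0, nat_lit 151, nat_lit 0, nat_lit 235034, [nat_lit 4688000000, nat_lit 6250000000, nat_lit 7968000000], [], [nat_lit 31577103146, nat_lit 29746876559, nat_lit 27433549370, nat_lit 25756944153, nat_lit 24689323941, nat_lit 25061876650, nat_lit 26518080676, nat_lit 26989862619], nat_lit 1271250, nat_lit 1271250, nat_lit 1100001, nat_lit 1785000, nat_lit 1271250, nat_lit 1271250, [nat_lit 1100000, nat_lit 1442500, nat_lit 1271250], [nat_lit 9, nat_lit 40, nat_lit 40, nat_lit 80, nat_lit 2, nat_lit 373, nat_lit 150, nat_lit 12]⟩, ⟨p051_k4, nat_lit 0, nat_lit 0, nat_lit 59, nat_lit 0, nat_lit 0, [nat_lit 4688000000, nat_lit 6250000000, nat_lit 9842000000], [], [nat_lit 10616908912, nat_lit 13089459496, nat_lit 14679609856, nat_lit 16735730674, nat_lit 24370863757, nat_lit 25891104393, nat_lit 26361837526, nat_lit 27660428517], nat_lit 0, nat_lit 0, nat_lit 0, nat_lit 0, nat_lit 0, nat_lit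 0, [], [nat_lit 11, nat_lit 40, nat_lit 40, nat_lit 80, nat_lit 1, nat_lit 456, nat_lit 225, nat_lit 13]⟩,
 zbF0, [⟨nat_lit 16, nat_lit 100, nat_lit 80, nat_lit 92, nat_lit 78420730⟩, ⟨nat_lit 7, nat_lit 75, nat_lit 100, nat_lit 90, nat_lit 610033863⟩]⟩
noncomputable def p051_l91 : Lf2 := ⟨nat_lit 0, nat_lit 6, [nat_lit 47, nat_lit 5, nat_lit 5, nat_lit 20], false, nat_lit 160, nat_lit 344, nat_lit 160, nat_lit 364, ⟨nat_lit 1000, nat_lit 0, nat_lit 0, nat_lit 0, nat_lit 0, nat_lit 0, nat_lit 0, nat_lit 0, nat_lit 0, nat_lit 0, nat_lit 0, nat_lit 0, nat_lit 0, nat_lit 0, nat_lit 0, nat_lit 0, false, false⟩,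
 nat_lit 0, nat_lit 11631, nat_lit 0, nat_lit 0, nat_lit 7083, nat_lit 6182, nat_lit 1550, nat_lit 0, nat_lit 0, nat_lit 0, nat_lit 0, nat_lit 0, nat_lit 0, nat_lit 0, nat_lit 0, nat_lit 0, nat_lit 0, nat_lit 0, [],
 ⟨p051_k0, nat_lit 0, nat_lit 0, nat_lit 213, nat_lit 0, nat_lit 416158, [nat_lit 4688000000, nat_lit 6250000000, nat_lit 7968000000], [], [nat_lit 29863793839, nat_lit 27991268212, nat_lit 25576465913, nat_lit 23861112056, nat_lit 24615223779, nat_lit 24934327353, nat_lit 26382194852, nat_lit 26876059882], nat_lit 1271250, nat_lit 1271250, nat_lit 1100001, nat_lit 1785000, nat_lit 1271250, nat_lit 1271250, [nat_lit 1100000, nat_lit 1442500, nat_lit 1271250], [nat_lit 9, nat_lit 40, nat_lit 40, nat_lit 80, nat_lit 2, nat_lit 373, nat_lit 150, nat_lit 11]⟩, ⟨p051_k4, nat_lit 0, nat_lit 0, nat_lit 62, nat_lit 0, nat_lit 0, [nat_lit 4688000000, nat_lit 6250000000, nat_lit 9842000000], [], [nat_lit 10976662736,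 nat_lit 14209193072, nat_lit 14983061568, nat_lit 17675372840, nat_lit 24486068670, nat_lit 26246737801, nat_lit 26271157034, nat_lit 27938815539], nat_lit 0, nat_lit 0, nat_lit 0, nat_lit 0, nat_lit 0, nat_lit 0, [], [nat_lit 11, nat_lit 40, nat_lit 40, nat_lit 80, nat_lit 1, nat_lit 456, nat_lit 225, nat_lit 13]⟩,
 zbF0, [⟨nat_lit 4, nat_lit 85, nat_lit 100, nat_lit 93, nat_lit 123330870⟩, ⟨nat_lit 7, nat_lit 77, nat_lit 100, nat_lit 91, nat_lit 582713293⟩]⟩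
noncomputable def b_V_600_600_20_11 : St := ⟨true, nat_lit 1, nat_lit 0, nat_lit 1, nat_lit 120, nat_lit 260, nat_lit 280, nat_lit 240, nat_lit 280, nat_lit 16, nat_lit 240, nat_lit 80, nat_lit 120, nat_lit 160, nat_lit 364, nat_lit 0, nat_lit 364, nat_lit 0, nat_lit 24, nat_lit 0, nat_lit 0, nat_lit 0, nat_lit 0⟩
theorem d_V_600_600_20_11 (h : EB TB.env) : Dead b_V_600_600_20_11 := chkB_sound0 h (T :=
(.trZ (nat_lit 0) (nat_lit 100) (nat_lit 97) (nat_lit 49) (nat_lit 24) (.trX (nat_lit 16) (nat_lit 100) (nat_lit 69) (nat_lit 96) (nat_lit 352) (.spl (nat_lit 2) (nat_lit 160)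
(.spl (nat_lit 4) (nat_lit 240)
(.spl (nat_lit 2) (nat_lit 80)
(.spl (nat_lit 1) (nat_lit 260)
(.leaf p051_l68)
(.trZ (nat_lit 0) (nat_lit 100) (nat_lit 100) (nat_lit 60) (nat_lit 36) (.trX (nat_lit 19) (nat_lit 100) (nat_lit 69) (nat_lit 96) (nat_lit 352) (.spl (nat_lit 0) (nat_lit 270)
(.ord (.leaf p051_l69))
(.trZ (nat_lit 0) (nat_lit 100) (nat_lit 98) (nat_lit 64) (nat_lit 40) (.leaf p051_l70))))))
(.spl (nat_lit 5) (nat_lit 160)
(.leaf p051_l71)
(.leaf p051_l72)))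
(.spl (nat_lit 2) (nat_lit 80)
(.trX (nat_lit 23) (nat_lit 100) (nat_lit 76) (nat_lit 82) (nat_lit 336) (.spl (nat_lit 5) (nat_lit 160)
(.leaf p051_l73)
(.spl (nat_lit 5) (nat_lit 240)
(.leaf p051_l74)
(.trX (nat_lit 11) (nat_lit 100) (nat_lit 76) (nat_lit 82) (nat_lit 336) (.spl (nat_lit 1) (nat_lit 260)
(.spl (nat_lit 6) (nat_lit 12)
(.leaf p051_l75)
(.leaf p051_l76))
(.trZ (nat_lit 0) (nat_lit 100) (nat_lit 100) (nat_lit 60) (nat_lit 36) (.spl (nat_lit 0) (nat_lit 270)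
(.ord (.leaf p051_l77))
(.trZ (nat_lit 0) (nat_lit 100) (nat_lit 98) (nat_lit 64) (nat_lit 40) (.leaf p051_l78)))))))))
(.spl (nat_lit 5) (nat_lit 160)
(.leaf p051_l79)
(.spl (nat_lit 5) (nat_lit 240)
(.leaf p051_l80)
(.spl (nat_lit 0) (nat_lit 270)
(.ord (.leaf p051_l81))
(.trX (nat_lit 16) (nat_lit 100) (nat_lit 74) (nat_lit 98) (nat_lit 344) (.spl (nat_lit 3) (nat_lit 100)
(.trX (nat_lit 16) (nat_lit 100) (nat_lit 82) (nat_lit 92) (nat_lit 328) (.trX (nat_lit 19) (nat_lit 100) (nat_lit 68) (nat_lit 88) (nat_lit 352) (.spl (nat_lit 5) (nat_lit 320)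
(.spl (nat_lit 0) (nat_lit 275)
(.ord (.leaf p051_l82))
(.trX (nat_lit 16) (nat_lit 100) (nat_lit 85) (nat_lit 93) (nat_lit 324) (.spl (nat_lit 5) (nat_lit 280)
(.leaf p051_l83)
(.spl (nat_lit 0) (nat_lit 278)
(.ord (.leaf p051_l84))
(.spl (nat_lit 0) (nat_lit 279)
(.ord (.leaf p051_l85))
(.trX (nat_lit 16) (nat_lit 100) (nat_lit 87) (nat_lit 94) (nat_lit 320) (.leaf p051_l86)))))))
(.leaf p051_l87))))
(.leaf p051_l88))))))))
(.spl (nat_lit 5) (nat_lit 160)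
(.leaf p051_l89)
(.spl (nat_lit 0) (nat_lit 270)
(.ord (.leaf p051_l90))
(.trX (nat_lit 16) (nat_lit 100) (nat_lit 74) (nat_lit 98) (nat_lit 344) (.leaf p051_l91)))))))) (by decide +kernel)
noncomputable def p051_l92 : Lf2 := ⟨nat_lit 0, nat_lit 3, [nat_lit 45, nat_lit 5, nat_lit 5, nat_lit 20], false, nat_lit 0, nat_lit 364, nat_lit 0, nat_lit 364, ⟨nat_lit 1000, nat_lit 0, nat_lit 0, nat_lit 0, nat_lit 0, nat_lit 0, nat_lit 0, nat_lit 0, nat_lit 0, nat_lit 0, nat_lit 0, nat_lit 0, nat_lit 0, nat_lit 0, nat_lit 0, nat_lit 0, false, false⟩,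
 nat_lit 0, nat_lit 12743, nat_lit 0, nat_lit 12636, nat_lit 6746, nat_lit 6894, nat_lit 1583, nat_lit 0, nat_lit 0, nat_lit 1626, nat_lit 0, nat_lit 0, nat_lit 0, nat_lit 22755645914490, nat_lit 0, nat_lit 0, nat_lit 0, nat_lit 0, [],
 ⟨p051_k12, nat_lit 0, nat_lit 0, nat_lit 206, nat_lit 0, nat_lit 49374, [nat_lit 4688000000, nat_lit 6250000000, nat_lit 7968000000], [], [nat_lit 22937876955, nat_lit 24110343811, nat_lit 35705884832, nat_lit 36688244184, nat_lit 28900753972, nat_lit 28658383628, nat_lit 35728303212, nat_lit 36158940768], nat_lit 1271250, nat_lit 1271250, nat_lit 1271250, nat_lit 1271250, nat_lit 0, nat_lit 2570750, [nat_lit 1100000, nat_lit 1442500, nat_lit 1271250], [nat_lit 9, nat_lit 40, nat_lit 40, nat_lit 80, nat_lit 2, nat_lit 317, nat_lit 100, nat_lit 10]⟩, ⟨p051_k12, nat_lit 0, nat_lit 0, nat_lit 192, nat_lit 0, nat_lit 0, [nat_lit 4688000000, nat_lit 6250000000, nat_lit 7968000000], [],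 [nat_lit 22681914370, nat_lit 23867262554, nat_lit 36076446048, nat_lit 37067154376, nat_lit 27873168934, nat_lit 28568990106, nat_lit 35920871133, nat_lit 36350620481], nat_lit 0, nat_lit 0, nat_lit 0, nat_lit 0, nat_lit 0, nat_lit 0, [], [nat_lit 9, nat_lit 40, nat_lit 40, nat_lit 80, nat_lit 2, nat_lit 317, nat_lit 100, nat_lit 10]⟩,
 zbF0, [⟨nat_lit 4, nat_lit 72, nat_lit 100, nat_lit 89, nat_lit 212304039⟩, ⟨nat_lit 19, nat_lit 100, nat_lit 72, nat_lit 89, nat_lit 209402196⟩]⟩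
noncomputable def p051_l93 : Lf2 := ⟨nat_lit 0, nat_lit 3, [nat_lit 45, nat_lit 5, nat_lit 5, nat_lit 20], false, nat_lit 0, nat_lit 352, nat_lit 0, nat_lit 364, ⟨nat_lit 1000, nat_lit 0, nat_lit 0, nat_lit 0, nat_lit 0, nat_lit 0, nat_lit 0, nat_lit 0, nat_lit 0, nat_lit 0, nat_lit 0, nat_lit 0, nat_lit 0, nat_lit 0, nat_lit 0, nat_lit 0, false, false⟩,
 nat_lit 0, nat_lit 11480, nat_lit 0, nat_lit 3842, nat_lit 6682, nat_lit 6437, nat_lit 2081, nat_lit 0, nat_lit 0, nat_lit 1499, nat_lit 0, nat_lit 0, nat_lit 0, nat_lit 0, nat_lit 0, nat_lit 0, nat_lit 0, nat_lit 0, [],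
 ⟨p051_k13, nat_lit 0, nat_lit 0, nat_lit 282, nat_lit 0, nat_lit 236437, [nat_lit 4688000000, nat_lit 6250000000, nat_lit 7968000000], [], [nat_lit 24032200590, nat_lit 25013767942, nat_lit 36524391128, nat_lit 37503140112, nat_lit 27081447833, nat_lit 27537855266, nat_lit 35419910116, nat_lit 35881467773], nat_lit 1271250, nat_lit 1271250, nat_lit 1271250, nat_lit 1271250, nat_lit 0, nat_lit 2486000, [nat_lit 1100000, nat_lit 1442500, nat_lit 1271250], [nat_lit 9, nat_lit 40, nat_lit 40, nat_lit 80, nat_lit 2, nat_lit 317, nat_lit 100, nat_lit 10]⟩, ⟨p051_k12, nat_lit 0, nat_lit 0, nat_lit 192, nat_lit 0, nat_lit 0, [nat_lit 4688000000, nat_lit 6250000000, nat_lit 7968000000], [], [nat_lit 23463060135, nat_lit 24608632867, nat_lit 35176649683, nat_lit 35897569715, nat_lit 28661815070, nat_lit 29177820570, nat_lit 35326252621, nat_lit 35758744609], nat_lit 0, nat_lit 0, nat_lit 0, nat_lit 0, nat_lit 0, nat_lit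 0, [], [nat_lit 9, nat_lit 40, nat_lit 40, nat_lit 80, nat_lit 2, nat_lit 317, nat_lit 100, nat_lit 10]⟩,
 zbF0, [⟨nat_lit 4, nat_lit 82, nat_lit 100, nat_lit 92, nat_lit 185065842⟩, ⟨nat_lit 7, nat_lit 72, nat_lit 100, nat_lit 89, nat_lit 218334619⟩]⟩
noncomputable def p051_l94 : Lf2 := ⟨nat_lit 1, nat_lit 6, [nat_lit 47, nat_lit 5, nat_lit 5, nat_lit 20], false, nat_lit 0, nat_lit 364, nat_lit 0, nat_lit 364, zbN0,
 nat_lit 0, nat_lit 0, nat_lit 0, nat_lit 0, nat_lit 0, nat_lit 0, nat_lit 0, nat_lit 0, nat_lit 0, nat_lit 0, nat_lit 0, nat_lit 0, nat_lit 0, nat_lit 0, nat_lit 0, nat_lit 0, nat_lit 0, nat_lit 0, [],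
 C1.Rw.none, C1.Rw.none,
 zbF0, []⟩
noncomputable def p051_l95 : Lf2 := ⟨nat_lit 0, nat_lit 6, [nat_lit 47, nat_lit 5, nat_lit 5, nat_lit 20], false, nat_lit 0, nat_lit 352, nat_lit 0, nat_lit 352, ⟨nat_lit 1000, nat_lit 0, nat_lit 0, nat_lit 0, nat_lit 0, nat_lit 0, nat_lit 0, nat_lit 0, nat_lit 0, nat_lit 0, nat_lit 0, nat_lit 0, nat_lit 0, nat_lit 0, nat_lit 0, nat_lit 0, false, false⟩,
 nat_lit 0, nat_lit 12201, nat_lit 0, nat_lit 4224, nat_lit 7101, nat_lit 5835, nat_lit 1386, nat_lit 0, nat_lit 0, nat_lit 1546, nat_lit 0, nat_lit 0, nat_lit 0, nat_lit 0, nat_lit 0, nat_lit 0, nat_lit 0, nat_lit 0, [],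
 ⟨p051_k5, nat_lit 0, nat_lit 0, nat_lit 282, nat_lit 0, nat_lit 235034, [nat_lit 4688000000, nat_lit 6250000000, nat_lit 7968000000], [], [nat_lit 25174849444, nat_lit 25630912347, nat_lit 37597116604, nat_lit 38098309410, nat_lit 27086519288, nat_lit 27290245084, nat_lit 35942417194, nat_lit 36172717693], nat_lit 1271250, nat_lit 1271250, nat_lit 1271250, nat_lit 1271250, nat_lit 0, nat_lit 2486000, [nat_lit 1100000, nat_lit 1442500, nat_lit 1271250], [nat_lit 9, nat_lit 40, nat_lit 40, nat_lit 80, nat_lit 2, nat_lit 317, nat_lit 100, nat_lit 10]⟩, ⟨p051_k5, nat_lit 0, nat_lit 0, nat_lit 192, nat_lit 0, nat_lit 0, [nat_lit 4688000000, nat_lit 6250000000, nat_lit 7968000000], [], [nat_lit 24001395860, nat_lit 24547984390, nat_lit 34355898340, nat_lit 34821382350, nat_lit 28289687260, nat_lit 28557389433, nat_lit 34363672657, nat_lit 34595418421], nat_lit 0, nat_lit 0, nat_lit 0, nat_lit 0, nat_lit 0, nat_lit 0,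 [], [nat_lit 9, nat_lit 40, nat_lit 40, nat_lit 80, nat_lit 2, nat_lit 317, nat_lit 100, nat_lit 10]⟩,
 zbF0, [⟨nat_lit 4, nat_lit 80, nat_lit 100, nat_lit 92, nat_lit 180358351⟩, ⟨nat_lit 7, nat_lit 80, nat_lit 100, nat_lit 92, nat_lit 206601066⟩]⟩
noncomputable def p051_l96 : Lf2 := ⟨nat_lit 0, nat_lit 6, [nat_lit 47, nat_lit 5, nat_lit 5, nat_lit 20], false, nat_lit 0, nat_lit 344, nat_lit 0, nat_lit 352, ⟨nat_lit 1000, nat_lit 0, nat_lit 0, nat_lit 0, nat_lit 0, nat_lit 0, nat_lit 0, nat_lit 0, nat_lit 0, nat_lit 0, nat_lit 0, nat_lit 0, nat_lit 0, nat_lit 0, nat_lit 0, nat_lit 0, false, false⟩,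
 nat_lit 0, nat_lit 10746, nat_lit 0, nat_lit 0, nat_lit 6544, nat_lit 6502, nat_lit 1379, nat_lit 0, nat_lit 0, nat_lit 1516, nat_lit 0, nat_lit 0, nat_lit 0, nat_lit 0, nat_lit 0, nat_lit 0, nat_lit 0, nat_lit 0, [],
 ⟨p051_k0, nat_lit 0, nat_lit 0, nat_lit 340, nat_lit 0, nat_lit 416158, [nat_lit 4688000000, nat_lit 6250000000, nat_lit 7968000000], [], [nat_lit 27347251448, nat_lit 27709857264, nat_lit 36656565040, nat_lit 37142047104, nat_lit 28448960355, nat_lit 28637220649, nat_lit 35055760561, nat_lit 35296704564], nat_lit 1271250, nat_lit 1271250, nat_lit 1271250, nat_lit 1271250, nat_lit 0, nat_lit 2429500, [nat_lit 1100000, nat_lit 1442500, nat_lit 1271250], [nat_lit 9, nat_lit 40, nat_lit 40, nat_lit 80, nat_lit 2, nat_lit 317, nat_lit 100, nat_lit 10]⟩, ⟨p051_k5, nat_lit 0, nat_lit 0, nat_lit 193, nat_lit 0, nat_lit 0, [nat_lit 4688000000, nat_lit 6250000000, nat_lit 7968000000], [], [nat_lit 23287347032,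 nat_lit 24438577104, nat_lit 36063554408, nat_lit 37032149232, nat_lit 27188698392, nat_lit 27733313987, nat_lit 35195444068, nat_lit 35657412701], nat_lit 0, nat_lit 0, nat_lit 0, nat_lit 0, nat_lit 0, nat_lit 0, [], [nat_lit 9, nat_lit 40, nat_lit 40, nat_lit 80, nat_lit 2, nat_lit 317, nat_lit 100, nat_lit 10]⟩,
 zbF0, [⟨nat_lit 4, nat_lit 85, nat_lit 100, nat_lit 93, nat_lit 176903568⟩, ⟨nat_lit 19, nat_lit 100, nat_lit 82, nat_lit 92, nat_lit 188876933⟩]⟩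
noncomputable def b_V_600_600_20_12 : St := ⟨true, nat_lit 1, nat_lit 0, nat_lit 1, nat_lit 120, nat_lit 240, nat_lit 280, nat_lit 240, nat_lit 280, nat_lit 240, nat_lit 400, nat_lit 80, nat_lit 120, nat_lit 0, nat_lit 364, nat_lit 0, nat_lit 364, nat_lit 0, nat_lit 24, nat_lit 0, nat_lit 0, nat_lit 0, nat_lit 0⟩
theorem d_V_600_600_20_12 (h : EB TB.env) : Dead b_V_600_600_20_12 := chkB_sound0 h (T :=
(.spl (nat_lit 1) (nat_lit 260)
(.spl (nat_lit 6) (nat_lit 12)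
(.spl (nat_lit 0) (nat_lit 260)
(.leaf p051_l92)
(.trX (nat_lit 16) (nat_lit 100) (nat_lit 69) (nat_lit 96) (nat_lit 352) (.leaf p051_l93)))
(.leaf p051_l94))
(.ord (.trX (nat_lit 16) (nat_lit 100) (nat_lit 69) (nat_lit 96) (nat_lit 352) (.trX (nat_lit 19) (nat_lit 100) (nat_lit 69) (nat_lit 96) (nat_lit 352) (.spl (nat_lit 0) (nat_lit 270)
(.ord (.leaf p051_l95))
(.trX (nat_lit 16) (nat_lit 100) (nat_lit 74) (nat_lit 98) (nat_lit 344) (.leaf p051_l96)))))))) (by decide +kernel)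
noncomputable def p051_l97 : Lf2 := ⟨nat_lit 1, nat_lit 1, [nat_lit 19, nat_lit 5, nat_lit 5, nat_lit 20], false, nat_lit 0, nat_lit 160, nat_lit 0, nat_lit 364, zbN0,
 nat_lit 0, nat_lit 0, nat_lit 0, nat_lit 0, nat_lit 0, nat_lit 0, nat_lit 0, nat_lit 0, nat_lit 0, nat_lit 0, nat_lit 0, nat_lit 0, nat_lit 0, nat_lit 0, nat_lit 0, nat_lit 0, nat_lit 0, nat_lit 0, [],
 C1.Rw.none, C1.Rw.none,
 zbF0, []⟩
noncomputable def p051_l98 : Lf2 := ⟨nat_lit 0, nat_lit 1, [nat_lit 19, nat_lit 5, nat_lit 5, nat_lit 20], true, nat_lit 0, nat_lit 160, nat_lit 0, nat_lit 364, ⟨nat_lit 0, nat_lit 0, nat_lit 1000, nat_lit 6, nat_lit 134, nat_lit 514, nat_lit 63, nat_lit 1000, nat_lit 33750, nat_lit 260, nat_lit 58974, nat_lit 274, nat_lit 60245030, nat_lit 0, nat_lit 0, nat_lit 1634407, false, false⟩,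
 nat_lit 0, nat_lit 6387, nat_lit 0, nat_lit 4141, nat_lit 3548, nat_lit 0, nat_lit 1029, nat_lit 0, nat_lit 0, nat_lit 0, nat_lit 0, nat_lit 0, nat_lit 0, nat_lit 25398518272355, nat_lit 10, nat_lit 1000000, nat_lit 0, nat_lit 0, [(nat_lit 6, [(nat_lit 6, nat_lit 1000)])],
 ⟨p051_k15, nat_lit 0, nat_lit 0, nat_lit 258, nat_lit 0, nat_lit 45230, [nat_lit 1137066667, nat_lit 8000000], [], [nat_lit 12437267715, nat_lit 13097032838, nat_lit 13321274814, nat_lit 13929981990, nat_lit 12859551398, nat_lit 13461784246, nat_lit 16394444339, nat_lit 15523016511], nat_lit 1271250, nat_lit 1271250, nat_lit 111251, nat_lit 1100001, nat_lit 0, nat_lit 1100001, [nat_lit 1100000, nat_lit 1442500], [nat_lit 31, nat_lit 40, nat_lit 40, nat_lit 80, nat_lit 3, nat_lit 317, nat_lit 100, nat_lit 13]⟩, C1.Rw.none,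
 ⟨nat_lit 5916, nat_lit 6124, ⟨.ofNat (nat_lit 180982), .ofNat (nat_lit 462314), .ofNat (nat_lit 202330), .ofNat (nat_lit 483662), .ofNat (nat_lit 189276), .ofNat (nat_lit 464143), .ofNat (nat_lit 210615), .ofNat (nat_lit 485483)⟩, ⟨.negSucc (nat_lit 29993), .ofNat (nat_lit 291529), .ofNat (nat_lit 0), .ofNat (nat_lit 334225), .negSucc (nat_lit 20704), .ofNat (nat_lit 293429), .ofNat (nat_lit 0), .ofNat (nat_lit 336108)⟩⟩, [⟨nat_lit 0, nat_lit 100, nat_lit 100, nat_lit 60, nat_lit 28450609⟩]⟩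
noncomputable def p051_l99 : Lf2 := ⟨nat_lit 1, nat_lit 6, [nat_lit 47, nat_lit 5, nat_lit 5, nat_lit 20], false, nat_lit 0, nat_lit 160, nat_lit 0, nat_lit 364, zbN0,
 nat_lit 0, nat_lit 0, nat_lit 0, nat_lit 0, nat_lit 0, nat_lit 0, nat_lit 0, nat_lit 0, nat_lit 0, nat_lit 0, nat_lit 0, nat_lit 0, nat_lit 0, nat_lit 0, nat_lit 0, nat_lit 0, nat_lit 0, nat_lit 0, [],
 C1.Rw.none, C1.Rw.none,
 zbF0, []⟩
noncomputable def p051_l100 : Lf2 := ⟨nat_lit 0, nat_lit 6, [nat_lit 47, nat_lit 5, nat_lit 5, nat_lit 20], true, nat_lit 0, nat_lit 80, nat_lit 0, nat_lit 364, ⟨nat_lit 0, nat_lit 0, nat_lit 1000, nat_lit 6, nat_lit 108, nat_lit 1000, nat_lit 33, nat_lit 1000, nat_lit 9600, nat_lit 239, nat_lit 109350, nat_lit 296, nat_lit 62464669, nat_lit 0, nat_lit 0, nat_lit 1238126, false, false⟩,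
 nat_lit 0, nat_lit 6407, nat_lit 0, nat_lit 1751, nat_lit 3729, nat_lit 0, nat_lit 134, nat_lit 0, nat_lit 0, nat_lit 0, nat_lit 0, nat_lit 0, nat_lit 0, nat_lit 0, nat_lit 117, nat_lit 1000000, nat_lit 0, nat_lit 0, [(nat_lit 9, [(nat_lit 6, nat_lit 1000)])],
 ⟨p051_k5, nat_lit 0, nat_lit 0, nat_lit 262, nat_lit 0, nat_lit 140272, [nat_lit 2969600000, nat_lit 1600000000, nat_lit 226400000], [], [nat_lit 13844227857, nat_lit 15038883575, nat_lit 13350595478, nat_lit 14440777374, nat_lit 13160562363, nat_lit 13915371215, nat_lit 14773204010, nat_lit 13508242654], nat_lit 1271250, nat_lit 1271250, nat_lit 134400, nat_lit 490000, nat_lit 0, nat_lit 490000, [nat_lit 1100000, nat_lit 1442500, nat_lit 1271250], [nat_lit 9, nat_lit 40, nat_lit 40, nat_lit 80, nat_lit 2, nat_lit 249, nat_lit 40, nat_lit 9]⟩, C1.Rw.none,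
 ⟨nat_lit 5477, nat_lit 5917, ⟨.ofNat (nat_lit 197129), .ofNat (nat_lit 307076), .ofNat (nat_lit 218469), .ofNat (nat_lit 328416), .ofNat (nat_lit 213007), .ofNat (nat_lit 317913), .ofNat (nat_lit 234364), .ofNat (nat_lit 339271)⟩, ⟨.negSucc (nat_lit 20704), .ofNat (nat_lit 136362), .ofNat (nat_lit 0), .ofNat (nat_lit 179041), .negSucc (nat_lit 2808), .ofNat (nat_lit 147057), .ofNat (nat_lit 0), .ofNat (nat_lit 189771)⟩⟩, [⟨nat_lit 0, nat_lit 100, nat_lit 96, nat_lit 69, nat_lit 164106137⟩]⟩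
noncomputable def p051_l101 : Lf2 := ⟨nat_lit 0, nat_lit 6, [nat_lit 47, nat_lit 5, nat_lit 5, nat_lit 20], true, nat_lit 0, nat_lit 80, nat_lit 0, nat_lit 352, ⟨nat_lit 0, nat_lit 0, nat_lit 1000, nat_lit 6, nat_lit 119, nat_lit 1000, nat_lit 33, nat_lit 1000, nat_lit 9600, nat_lit 239, nat_lit 132017, nat_lit 304, nat_lit 61569832, nat_lit 0, nat_lit 0, nat_lit 1406595, false, false⟩,
 nat_lit 0, nat_lit 6800, nat_lit 0, nat_lit 6, nat_lit 3957, nat_lit 0, nat_lit 0, nat_lit 0, nat_lit 0, nat_lit 0, nat_lit 0, nat_lit 0, nat_lit 0, nat_lit 0, nat_lit 117, nat_lit 1000000, nat_lit 0, nat_lit 0, [(nat_lit 9, [(nat_lit 6, nat_lit 1000)])],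
 ⟨p051_k5, nat_lit 0, nat_lit 0, nat_lit 269, nat_lit 0, nat_lit 193791, [nat_lit 2969600000, nat_lit 1600000000, nat_lit 226400000], [], [nat_lit 13223133723, nat_lit 14587528225, nat_lit 12974586324, nat_lit 14092954492, nat_lit 13141383406, nat_lit 13223604932, nat_lit 14527556830, nat_lit 13020044732], nat_lit 1271250, nat_lit 1271250, nat_lit 205650, nat_lit 490000, nat_lit 0, nat_lit 490000, [nat_lit 1100000, nat_lit 1442500, nat_lit 1271250], [nat_lit 9, nat_lit 40, nat_lit 40, nat_lit 80, nat_lit 2, nat_lit 249, nat_lit 40, nat_lit 9]⟩, C1.Rw.none,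
 ⟨nat_lit 5477, nat_lit 5917, ⟨.ofNat (nat_lit 242029), .ofNat (nat_lit 328416), .ofNat (nat_lit 252698), .ofNat (nat_lit 339085), .ofNat (nat_lit 256844), .ofNat (nat_lit 339271), .ofNat (nat_lit 267523), .ofNat (nat_lit 349949)⟩, ⟨.negSucc (nat_lit 20704), .ofNat (nat_lit 136362), .ofNat (nat_lit 0), .ofNat (nat_lit 179041), .negSucc (nat_lit 2808), .ofNat (nat_lit 147057), .ofNat (nat_lit 0), .ofNat (nat_lit 189771)⟩⟩, [⟨nat_lit 0, nat_lit 100, nat_lit 99, nat_lit 67, nat_lit 138025737⟩]⟩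
noncomputable def p051_l102 : Lf2 := ⟨nat_lit 0, nat_lit 6, [nat_lit 47, nat_lit 5, nat_lit 5, nat_lit 20], true, nat_lit 0, nat_lit 80, nat_lit 0, nat_lit 344, ⟨nat_lit 0, nat_lit 0, nat_lit 1000, nat_lit 6, nat_lit 128, nat_lit 234, nat_lit 33, nat_lit 1000, nat_lit 9600, nat_lit 239, nat_lit 153600, nat_lit 311, nat_lit 60791230, nat_lit 0, nat_lit 0, nat_lit 1543336, false, false⟩,
 nat_lit 0, nat_lit 6620, nat_lit 0, nat_lit 0, nat_lit 4031, nat_lit 0, nat_lit 0, nat_lit 0, nat_lit 0, nat_lit 0, nat_lit 0, nat_lit 0, nat_lit 0, nat_lit 0, nat_lit 117, nat_lit 1000000, nat_lit 0, nat_lit 0, [(nat_lit 9, [(nat_lit 6, nat_lit 1000)])],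
 ⟨p051_k0, nat_lit 0, nat_lit 0, nat_lit 265, nat_lit 0, nat_lit 209421, [nat_lit 2969600000, nat_lit 1600000000, nat_lit 226400000], [], [nat_lit 13520625746, nat_lit 14184952280, nat_lit 13380290264, nat_lit 13944048436, nat_lit 12377918882, nat_lit 12924161502, nat_lit 13399573341, nat_lit 12825578356], nat_lit 1271250, nat_lit 1271250, nat_lit 279600, nat_lit 490000, nat_lit 0, nat_lit 490000, [nat_lit 1100000, nat_lit 1442500, nat_lit 1271250], [nat_lit 9, nat_lit 40, nat_lit 40, nat_lit 80, nat_lit 2, nat_lit 249, nat_lit 40, nat_lit 8]⟩, C1.Rw.none,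
 ⟨nat_lit 5477, nat_lit 5701, ⟨.ofNat (nat_lit 283163), .ofNat (nat_lit 344538), .ofNat (nat_lit 288499), .ofNat (nat_lit 349874), .ofNat (nat_lit 290003), .ofNat (nat_lit 349949), .ofNat (nat_lit 295342), .ofNat (nat_lit 355288)⟩, ⟨.negSucc (nat_lit 11648), .ofNat (nat_lit 141790), .ofNat (nat_lit 0), .ofNat (nat_lit 184473), .negSucc (nat_lit 2808), .ofNat (nat_lit 147057), .ofNat (nat_lit 0), .ofNat (nat_lit 189771)⟩⟩, [⟨nat_lit 0, nat_lit 100, nat_lit 99, nat_lit 74, nat_lit 141513321⟩]⟩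
noncomputable def p051_l103 : Lf2 := ⟨nat_lit 0, nat_lit 6, [nat_lit 47, nat_lit 5, nat_lit 5, nat_lit 20], false, nat_lit 0, nat_lit 80, nat_lit 0, nat_lit 340, ⟨nat_lit 355, nat_lit 0, nat_lit 645, nat_lit 6, nat_lit 134, nat_lit 0, nat_lit 33, nat_lit 383, nat_lit 10417, nat_lit 240, nat_lit 166667, nat_lit 315, nat_lit 60276146, nat_lit 0, nat_lit 0, nat_lit 1629320, false, false⟩,
 nat_lit 8972, nat_lit 0, nat_lit 0, nat_lit 4985, nat_lit 5586, nat_lit 2671, nat_lit 488, nat_lit 0, nat_lit 0, nat_lit 1560, nat_lit 0, nat_lit 0, nat_lit 0, nat_lit 0, nat_lit 0, nat_lit 645000, nat_lit 0, nat_lit 0, [(nat_lit 9, [(nat_lit 6, nat_lit 645)])],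
 ⟨p051_k19, nat_lit 0, nat_lit 0, nat_lit 267, nat_lit 0, nat_lit 229978, [nat_lit 2372192000, nat_lit 1741450000, nat_lit 1149663000], [], [nat_lit 15664544650, nat_lit 15985818496, nat_lit 15287336769, nat_lit 15587540424, nat_lit 13440779798, nat_lit 13729087388, nat_lit 13973761499, nat_lit 13408040256], nat_lit 1271250, nat_lit 1271250, nat_lit 330400, nat_lit 490000, nat_lit 0, nat_lit 490000, [nat_lit 1100000, nat_lit 1442500, nat_lit 1271250], [nat_lit 9, nat_lit 40, nat_lit 40, nat_lit 80, nat_lit 2, nat_lit 249, nat_lit 40, nat_lit 8]⟩, ⟨p051_k19, nat_lit 0, nat_lit 0, nat_lit 267, nat_lit 0, nat_lit 229978, [nat_lit 1664240000, nat_lit 2218750000, nat_lit 2828640000], [], [nat_lit 9805771592, nat_lit 9460084094, nat_lit 8158225072, nat_lit 7815630592, nat_lit 9903841548, nat_lit 9614526310, nat_lit 10409559928, nat_lit 10112938366], nat_lit 1271250, nat_lit 1271250, nat_lit 330400, nat_lit 490000, nat_lit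 0, nat_lit 2401250, [nat_lit 1100000, nat_lit 1442500, nat_lit 1271250], [nat_lit 9, nat_lit 40, nat_lit 40, nat_lit 80, nat_lit 2, nat_lit 345, nat_lit 125, nat_lit 12]⟩,
 ⟨nat_lit 5477, nat_lit 5591, ⟨.ofNat (nat_lit 307091), .ofNat (nat_lit 352585), .ofNat (nat_lit 312428), .ofNat (nat_lit 357922), .ofNat (nat_lit 310328), .ofNat (nat_lit 355288), .ofNat (nat_lit 315668), .ofNat (nat_lit 360628)⟩, ⟨.negSucc (nat_lit 7202), .ofNat (nat_lit 144443), .ofNat (nat_lit 0), .ofNat (nat_lit 187139), .negSucc (nat_lit 2808), .ofNat (nat_lit 147057), .ofNat (nat_lit 0), .ofNat (nat_lit 189771)⟩⟩, [⟨nat_lit 0, nat_lit 100, nat_lit 100, nat_lit 80, nat_lit 276590813⟩, ⟨nat_lit 7, nat_lit 86, nat_lit 100, nat_lit 94, nat_lit 73433707⟩]⟩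
noncomputable def p051_l104 : Lf2 := ⟨nat_lit 0, nat_lit 6, [nat_lit 47, nat_lit 5, nat_lit 5, nat_lit 20], true, nat_lit 80, nat_lit 160, nat_lit 0, nat_lit 364, ⟨nat_lit 0, nat_lit 0, nat_lit 1000, nat_lit 6, nat_lit 112, nat_lit 1000, nat_lit 96, nat_lit 1000, nat_lit 86400, nat_lit 287, nat_lit 117600, nat_lit 299, nat_lit 57442973, nat_lit 0, nat_lit 0, nat_lit 2692112, false, false⟩,
 nat_lit 0, nat_lit 8551, nat_lit 0, nat_lit 0, nat_lit 4977, nat_lit 0, nat_lit 568, nat_lit 0, nat_lit 0, nat_lit 0, nat_lit 0, nat_lit 0, nat_lit 0, nat_lit 0, nat_lit 117, nat_lit 1000000, nat_lit 0, nat_lit 0, [(nat_lit 9, [(nat_lit 6, nat_lit 1000)])],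
 ⟨p051_k5, nat_lit 0, nat_lit 0, nat_lit 227, nat_lit 0, nat_lit 250369, [nat_lit 2969600000, nat_lit 1600000000, nat_lit 226400000], [], [nat_lit 10290532743, nat_lit 12490145119, nat_lit 8654638034, nat_lit 10260642188, nat_lit 11388074797, nat_lit 13372278728, nat_lit 10078212912, nat_lit 11424130000], nat_lit 1271250, nat_lit 1271250, nat_lit 134400, nat_lit 490000, nat_lit 490000, nat_lit 1100001, [nat_lit 1100000, nat_lit 1442500, nat_lit 1271250], [nat_lit 9, nat_lit 40, nat_lit 40, nat_lit 80, nat_lit 2, nat_lit 272, nat_lit 60, nat_lit 9]⟩, C1.Rw.none,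
 ⟨nat_lit 5477, nat_lit 5917, ⟨.ofNat (nat_lit 197129), .ofNat (nat_lit 307076), .ofNat (nat_lit 239808), .ofNat (nat_lit 349755), .ofNat (nat_lit 213007), .ofNat (nat_lit 317913), .ofNat (nat_lit 255721), .ofNat (nat_lit 360628)⟩, ⟨.ofNat (nat_lit 136362), .ofNat (nat_lit 293429), .ofNat (nat_lit 179041), .ofNat (nat_lit 336108), .ofNat (nat_lit 147057), .ofNat (nat_lit 296923), .ofNat (nat_lit 189771), .ofNat (nat_lit 339637)⟩⟩, [⟨nat_lit 0, nat_lit 100, nat_lit 100, nat_lit 80, nat_lit 283483017⟩]⟩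
noncomputable def p051_l105 : Lf2 := ⟨nat_lit 0, nat_lit 6, [nat_lit 47, nat_lit 5, nat_lit 5, nat_lit 20], true, nat_lit 0, nat_lit 160, nat_lit 0, nat_lit 364, ⟨nat_lit 0, nat_lit 0, nat_lit 1000, nat_lit 6, nat_lit 161, nat_lit 435, nat_lit 63, nat_lit 1000, nat_lit 35267, nat_lit 261, nat_lit 38425, nat_lit 263, nat_lit 57621651, nat_lit 0, nat_lit 0, nat_lit 2024592, false, false⟩,
 nat_lit 0, nat_lit 7193, nat_lit 0, nat_lit 0, nat_lit 4186, nat_lit 0, nat_lit 0, nat_lit 0, nat_lit 0, nat_lit 0, nat_lit 0, nat_lit 0, nat_lit 0, nat_lit 0, nat_lit 117, nat_lit 1000000, nat_lit 0, nat_lit 0, [(nat_lit 9, [(nat_lit 6, nat_lit 1000)])],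
 ⟨p051_k5, nat_lit 0, nat_lit 0, nat_lit 246, nat_lit 0, nat_lit 235034, [nat_lit 2969600000, nat_lit 1600000000, nat_lit 226400000], [], [nat_lit 11714525948, nat_lit 12450897022, nat_lit 13185001792, nat_lit 13842013224, nat_lit 11825804016, nat_lit 12443652008, nat_lit 14266200708, nat_lit 13701639054], nat_lit 1271250, nat_lit 1271250, nat_lit 490000, nat_lit 1100001, nat_lit 0, nat_lit 1100001, [nat_lit 1100000, nat_lit 1442500, nat_lit 1271250], [nat_lit 9, nat_lit 40, nat_lit 40, nat_lit 80, nat_lit 2, nat_lit 317, nat_lit 100, nat_lit 11]⟩, C1.Rw.none,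
 ⟨nat_lit 5700, nat_lit 5917, ⟨.ofNat (nat_lit 307076), .ofNat (nat_lit 464143), .ofNat (nat_lit 339085), .ofNat (nat_lit 496151), .ofNat (nat_lit 312525), .ofNat (nat_lit 465963), .ofNat (nat_lit 344538), .ofNat (nat_lit 497975)⟩, ⟨.negSucc (nat_lit 20704), .ofNat (nat_lit 293429), .ofNat (nat_lit 0), .ofNat (nat_lit 336108), .negSucc (nat_lit 11648), .ofNat (nat_lit 295228), .ofNat (nat_lit 0), .ofNat (nat_lit 337912)⟩⟩, []⟩
noncomputable def p051_l106 : Lf2 := ⟨nat_lit 0, nat_lit 6, [nat_lit 47, nat_lit 5, nat_lit 5, nat_lit 20], false, nat_lit 0, nat_lit 160, nat_lit 0, nat_lit 364, ⟨nat_lit 265, nat_lit 0, nat_lit 735, nat_lit 6, nat_lit 164, nat_lit 426, nat_lit 63, nat_lit 735, nat_lit 36817, nat_lit 262, nat_lit 34706, nat_lit 259, nat_lit 57405456, nat_lit 0, nat_lit 0, nat_lit 2053668, false, false⟩,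
 nat_lit 5248, nat_lit 3074, nat_lit 0, nat_lit 0, nat_lit 5068, nat_lit 2778, nat_lit 598, nat_lit 0, nat_lit 0, nat_lit 46, nat_lit 0, nat_lit 0, nat_lit 0, nat_lit 0, nat_lit 0, nat_lit 735000, nat_lit 0, nat_lit 0, [(nat_lit 9, [(nat_lit 6, nat_lit 735)])],
 ⟨p051_k0, nat_lit 0, nat_lit 0, nat_lit 228, nat_lit 0, nat_lit 181700, [nat_lit 2049056001, nat_lit 1112350001, nat_lit 203708999], [], [nat_lit 13445782834, nat_lit 13790087826, nat_lit 14448547514, nat_lit 14810442222, nat_lit 12459373306, nat_lit 12799022654, nat_lit 13588598054, nat_lit 13889933428], nat_lit 1271250, nat_lit 1271250, nat_lit 490000, nat_lit 1100001, nat_lit 0, nat_lit 1100001, [nat_lit 1100000, nat_lit 1442500, nat_lit 1271250], [nat_lit 9, nat_lit 40, nat_lit 40, nat_lit 80, nat_lit 2, nat_lit 317, nat_lit 100, nat_lit 11]⟩, ⟨p051_k4, nat_lit 0, nat_lit 0, nat_lit 311, nat_lit 0, nat_lit 217208, [nat_lit 1242320000, nat_lit 1656250000,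 nat_lit 2608130000], [], [nat_lit 15415028228, nat_lit 12804704141, nat_lit 9494132372, nat_lit 7420285681, nat_lit 11204179382, nat_lit 9033500672, nat_lit 13698900502, nat_lit 11582361401], nat_lit 1271250, nat_lit 1271250, nat_lit 490000, nat_lit 1100001, nat_lit 0, nat_lit 2570750, [nat_lit 1100000, nat_lit 1442500, nat_lit 1271250], [nat_lit 11, nat_lit 40, nat_lit 40, nat_lit 80, nat_lit 1, nat_lit 428, nat_lit 200, nat_lit 13]⟩,
 ⟨nat_lit 5590, nat_lit 5701, ⟨.ofNat (nat_lit 312525), .ofNat (nat_lit 465963), .ofNat (nat_lit 349874), .ofNat (nat_lit 503311), .ofNat (nat_lit 315226), .ofNat (nat_lit 466872), .ofNat (nat_lit 352585), .ofNat (nat_lit 504230)⟩, ⟨.negSucc (nat_lit 11648), .ofNat (nat_lit 295228), .ofNat (nat_lit 0), .ofNat (nat_lit 337912), .negSucc (nat_lit 7202), .ofNat (nat_lit 296088), .ofNat (nat_lit 0), .ofNat (nat_lit 338784)⟩⟩, []⟩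
noncomputable def p051_l107 : Lf2 := ⟨nat_lit 0, nat_lit 6, [nat_lit 47, nat_lit 5, nat_lit 5, nat_lit 20], false, nat_lit 0, nat_lit 160, nat_lit 0, nat_lit 364, ⟨nat_lit 270, nat_lit 0, nat_lit 730, nat_lit 6, nat_lit 165, nat_lit 429, nat_lit 64, nat_lit 730, nat_lit 36817, nat_lit 262, nat_lit 25403, nat_lit 254, nat_lit 57225003, nat_lit 0, nat_lit 0, nat_lit 2077612, false, false⟩,
 nat_lit 5407, nat_lit 2711, nat_lit 0, nat_lit 0, nat_lit 5054, nat_lit 2862, nat_lit 520, nat_lit 0, nat_lit 0, nat_lit 173, nat_lit 0, nat_lit 0, nat_lit 0, nat_lit 0, nat_lit 0, nat_lit 730000, nat_lit 0, nat_lit 0, [(nat_lit 9, [(nat_lit 6, nat_lit 730)])],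
 ⟨p051_k19, nat_lit 0, nat_lit 0, nat_lit 250, nat_lit 0, nat_lit 229978, [nat_lit 2067008001, nat_lit 1147300000, nat_lit 256262000], [], [nat_lit 13978898537, nat_lit 14333941616, nat_lit 14866393662, nat_lit 15227758386, nat_lit 12864394358, nat_lit 13203556002, nat_lit 13957428855, nat_lit 14258356402], nat_lit 1271250, nat_lit 1271250, nat_lit 490000, nat_lit 1100001, nat_lit 0, nat_lit 1100001, [nat_lit 1100000, nat_lit 1442500, nat_lit 1271250], [nat_lit 9, nat_lit 40, nat_lit 40, nat_lit 80, nat_lit 2, nat_lit 317, nat_lit 100, nat_lit 11]⟩, ⟨p051_k4, nat_lit 0, nat_lit 0, nat_lit 337, nat_lit 0, nat_lit 282667, [nat_lit 1265760000, nat_lit 1687500000, nat_lit 2657340000], [], [nat_lit 15787926432, nat_lit 12714493320, nat_lit 9687997008, nat_lit 7291330090, nat_lit 11405563647, nat_lit 8852553931, nat_lit 13968367467, nat_lit 11476323897], nat_lit 1271250, nat_lit 1271250, nat_lit 490000, nat_lit 1100001,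 nat_lit 0, nat_lit 2570750, [nat_lit 1100000, nat_lit 1442500, nat_lit 1271250], [nat_lit 11, nat_lit 40, nat_lit 40, nat_lit 80, nat_lit 1, nat_lit 456, nat_lit 225, nat_lit 13]⟩,
 ⟨nat_lit 5477, nat_lit 5591, ⟨.ofNat (nat_lit 315226), .ofNat (nat_lit 466872), .ofNat (nat_lit 357922), .ofNat (nat_lit 509567), .ofNat (nat_lit 317913), .ofNat (nat_lit 467779), .ofNat (nat_lit 360628), .ofNat (nat_lit 510493)⟩, ⟨.negSucc (nat_lit 7202), .ofNat (nat_lit 296088), .ofNat (nat_lit 0), .ofNat (nat_lit 338784), .negSucc (nat_lit 2808), .ofNat (nat_lit 296923), .ofNat (nat_lit 0), .ofNat (nat_lit 339637)⟩⟩, []⟩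
noncomputable def p051_l108 : Lf2 := ⟨nat_lit 0, nat_lit 6, [nat_lit 47, nat_lit 5, nat_lit 5, nat_lit 20], false, nat_lit 0, nat_lit 160, nat_lit 0, nat_lit 160, ⟨nat_lit 1000, nat_lit 0, nat_lit 0, nat_lit 0, nat_lit 0, nat_lit 0, nat_lit 0, nat_lit 0, nat_lit 0, nat_lit 0, nat_lit 0, nat_lit 0, nat_lit 0, nat_lit 0, nat_lit 0, nat_lit 0, false, false⟩,
 nat_lit 10288, nat_lit 0, nat_lit 0, nat_lit 15602, nat_lit 5446, nat_lit 5446, nat_lit 1958, nat_lit 0, nat_lit 0, nat_lit 1958, nat_lit 0, nat_lit 0, nat_lit 0, nat_lit 0, nat_lit 0, nat_lit 0, nat_lit 0, nat_lit 0, [],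
 ⟨p051_k4, nat_lit 0, nat_lit 0, nat_lit 308, nat_lit 0, nat_lit 282667, [nat_lit 4688000000, nat_lit 6250000000, nat_lit 9842000000], [], [nat_lit 37674844640, nat_lit 31915830344, nat_lit 29600196500, nat_lit 31076299292, nat_lit 25770755964, nat_lit 27230553712, nat_lit 32081612856, nat_lit 29141659728], nat_lit 1271250, nat_lit 1271250, nat_lit 1100001, nat_lit 1785000, nat_lit 0, nat_lit 1100001, [nat_lit 1100000, nat_lit 1442500, nat_lit 1271250], [nat_lit 11, nat_lit 40, nat_lit 40, nat_lit 80, nat_lit 1, nat_lit 401, nat_lit 175, nat_lit 12]⟩, ⟨p051_k4, nat_lit 0, nat_lit 0, nat_lit 308, nat_lit 0, nat_lit 282667, [nat_lit 4688000000, nat_lit 6250000000, nat_lit 9842000000], [], [nat_lit 37674844640, nat_lit 31915830344, nat_lit 29600196500, nat_lit 31076299292, nat_lit 25770755964, nat_lit 27230553712, nat_lit 32081612856, nat_lit 29141659728], nat_lit 1271250, nat_lit 1271250, nat_lit 1100001, nat_lit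 1785000, nat_lit 0, nat_lit 1100001, [nat_lit 1100000, nat_lit 1442500, nat_lit 1271250], [nat_lit 11, nat_lit 40, nat_lit 40, nat_lit 80, nat_lit 1, nat_lit 401, nat_lit 175, nat_lit 12]⟩,
 zbF0, []⟩
noncomputable def p051_l109 : Lf2 := ⟨nat_lit 0, nat_lit 6, [nat_lit 47, nat_lit 5, nat_lit 5, nat_lit 20], false, nat_lit 0, nat_lit 160, nat_lit 160, nat_lit 364, ⟨nat_lit 1000, nat_lit 0, nat_lit 0, nat_lit 0, nat_lit 0, nat_lit 0, nat_lit 0, nat_lit 0, nat_lit 0, nat_lit 0, nat_lit 0, nat_lit 0, nat_lit 0, nat_lit 0, nat_lit 0, nat_lit 0, false, false⟩,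
 nat_lit 12950, nat_lit 0, nat_lit 0, nat_lit 3192, nat_lit 6855, nat_lit 6855, nat_lit 492, nat_lit 0, nat_lit 0, nat_lit 1842, nat_lit 0, nat_lit 0, nat_lit 0, nat_lit 16766562263813, nat_lit 0, nat_lit 0, nat_lit 0, nat_lit 0, [],
 ⟨p051_k4, nat_lit 0, nat_lit 0, nat_lit 308, nat_lit 0, nat_lit 282667, [nat_lit 4688000000, nat_lit 6250000000, nat_lit 9842000000], [], [nat_lit 39821935200, nat_lit 32572937220, nat_lit 31371944500, nat_lit 32970139960, nat_lit 26306929320, nat_lit 27888838800, nat_lit 31116216780, nat_lit 29302025020], nat_lit 1271250, nat_lit 1271250, nat_lit 1100001, nat_lit 1785000, nat_lit 0, nat_lit 1100001, [nat_lit 1100000, nat_lit 1442500, nat_lit 1271250], [nat_lit 11, nat_lit 40, nat_lit 40, nat_lit 80, nat_lit 1, nat_lit 401, nat_lit 175, nat_lit 12]⟩, ⟨p051_k4, nat_lit 0, nat_lit 0, nat_lit 198, nat_lit 0, nat_lit 282667, [nat_lit 4688000000, nat_lit 6250000000, nat_lit 9842000000],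 [], [nat_lit 35133935200, nat_lit 27884937220, nat_lit 30814058540, nat_lit 24173510360, nat_lit 26678362085, nat_lit 28017022880, nat_lit 27897681483, nat_lit 29287288730], nat_lit 1271250, nat_lit 1271250, nat_lit 1100001, nat_lit 1785000, nat_lit 1271250, nat_lit 1271250, [nat_lit 1100000, nat_lit 1442500, nat_lit 1271250], [nat_lit 11, nat_lit 40, nat_lit 40, nat_lit 80, nat_lit 1, nat_lit 456, nat_lit 225, nat_lit 13]⟩,
 zbF0, [⟨nat_lit 7, nat_lit 77, nat_lit 100, nat_lit 91, nat_lit 30733741⟩]⟩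
noncomputable def b_V_600_600_20_13 : St := ⟨true, nat_lit 1, nat_lit 1, nat_lit 1, nat_lit 120, nat_lit 240, nat_lit 280, nat_lit 240, nat_lit 280, nat_lit 16, nat_lit 240, nat_lit 80, nat_lit 120, nat_lit 0, nat_lit 160, nat_lit 0, nat_lit 364, nat_lit 0, nat_lit 24, nat_lit 0, nat_lit 0, nat_lit 0, nat_lit 0⟩
theorem d_V_600_600_20_13 (h : EB TB.env) : Dead b_V_600_600_20_13 := chkB_sound0 h (T :=
(.spl (nat_lit 2) (nat_lit 160)
(.spl (nat_lit 0) (nat_lit 260)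
(.ord (.spl (nat_lit 6) (nat_lit 4)
(.spl (nat_lit 0) (nat_lit 250)
(.ord (.leaf p051_l97))
(.trZ (nat_lit 0) (nat_lit 100) (nat_lit 99) (nat_lit 45) (nat_lit 20) (.leaf p051_l98)))
(.leaf p051_l99)))
(.trZ (nat_lit 0) (nat_lit 100) (nat_lit 97) (nat_lit 49) (nat_lit 24) (.spl (nat_lit 2) (nat_lit 80)
(.spl (nat_lit 4) (nat_lit 80)
(.spl (nat_lit 1) (nat_lit 260)
(.leaf p051_l100)
(.trZ (nat_lit 0) (nat_lit 100) (nat_lit 100) (nat_lit 60) (nat_lit 36) (.trX (nat_lit 19) (nat_lit 100) (nat_lit 69) (nat_lit 96) (nat_lit 352) (.spl (nat_lit 1) (nat_lit 270)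
(.leaf p051_l101)
(.ord (.trZ (nat_lit 0) (nat_lit 100) (nat_lit 100) (nat_lit 70) (nat_lit 48) (.trX (nat_lit 19) (nat_lit 100) (nat_lit 74) (nat_lit 98) (nat_lit 344) (.spl (nat_lit 1) (nat_lit 275)
(.leaf p051_l102)
(.ord (.trZ (nat_lit 0) (nat_lit 100) (nat_lit 100) (nat_lit 75) (nat_lit 56) (.trX (nat_lit 19) (nat_lit 100) (nat_lit 77) (nat_lit 99) (nat_lit 340) (.leaf p051_l103))))))))))))
(.leaf p051_l104))
(.spl (nat_lit 0) (nat_lit 270)
(.ord (.leaf p051_l105))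
(.spl (nat_lit 0) (nat_lit 275)
(.ord (.leaf p051_l106))
(.leaf p051_l107))))))
(.spl (nat_lit 5) (nat_lit 160)
(.leaf p051_l108)
(.leaf p051_l109)))) (by decide +kernel)
noncomputable def p051_l110 : Lf2 := ⟨nat_lit 0, nat_lit 6, [nat_lit 47, nat_lit 5, nat_lit 5, nat_lit 20], true, nat_lit 160, nat_lit 200, nat_lit 0, nat_lit 364, ⟨nat_lit 0, nat_lit 0, nat_lit 1000, nat_lit 6, nat_lit 99, nat_lit 1000, nat_lit 141, nat_lit 1000, nat_lit 187267, nat_lit 321, nat_lit 91267, nat_lit 289, nat_lit 54761108, nat_lit 0, nat_lit 0, nat_lit 3163540, false, false⟩,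
 nat_lit 0, nat_lit 7493, nat_lit 0, nat_lit 0, nat_lit 3966, nat_lit 0, nat_lit 0, nat_lit 0, nat_lit 0, nat_lit 0, nat_lit 0, nat_lit 0, nat_lit 0, nat_lit 17609542194106, nat_lit 147, nat_lit 1000000, nat_lit 0, nat_lit 0, [(nat_lit 6, [(nat_lit 6, nat_lit 1000)])],
 ⟨p051_k4, nat_lit 0, nat_lit 0, nat_lit 183, nat_lit 0, nat_lit 26411, [nat_lit 3329066667, nat_lit 3042400001, nat_lit 177599999], [], [nat_lit 10390006119, nat_lit 11892935612, nat_lit 9374264467, nat_lit 10807666655, nat_lit 12358574634, nat_lit 13745626450, nat_lit 11280235363, nat_lit 12604416329], nat_lit 1271250, nat_lit 1271250, nat_lit 88400, nat_lit 490000, nat_lit 1100001, nat_lit 1442500, [nat_lit 1100000, nat_lit 1442500, nat_lit 1271250], [nat_lit 11, nat_lit 40, nat_lit 40, nat_lit 80, nat_lit 1, nat_lit 373, nat_lit 150, nat_lit 11]⟩, C1.Rw.none,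
 ⟨nat_lit 5916, nat_lit 6325, ⟨.ofNat (nat_lit 164319), .ofNat (nat_lit 295942), .ofNat (nat_lit 185687), .ofNat (nat_lit 317309), .ofNat (nat_lit 181423), .ofNat (nat_lit 307076), .ofNat (nat_lit 202762), .ofNat (nat_lit 328416)⟩, ⟨.ofNat (nat_lit 289527), .ofNat (nat_lit 371791), .ofNat (nat_lit 332263), .ofNat (nat_lit 414527), .ofNat (nat_lit 293429), .ofNat (nat_lit 371963), .ofNat (nat_lit 336108), .ofNat (nat_lit 414641)⟩⟩, [⟨nat_lit 0, nat_lit 100, nat_lit 100, nat_lit 60, nat_lit 199516453⟩]⟩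
noncomputable def p051_l111 : Lf2 := ⟨nat_lit 0, nat_lit 6, [nat_lit 47, nat_lit 5, nat_lit 5, nat_lit 20], true, nat_lit 160, nat_lit 200, nat_lit 0, nat_lit 364, ⟨nat_lit 0, nat_lit 0, nat_lit 1000, nat_lit 6, nat_lit 112, nat_lit 1000, nat_lit 142, nat_lit 1000, nat_lit 187267, nat_lit 321, nat_lit 117600, nat_lit 299, nat_lit 53755480, nat_lit 0, nat_lit 0, nat_lit 3360240, false, false⟩,
 nat_lit 0, nat_lit 8071, nat_lit 0, nat_lit 0, nat_lit 4697, nat_lit 0, nat_lit 0, nat_lit 0, nat_lit 0, nat_lit 0, nat_lit 0, nat_lit 0, nat_lit 0, nat_lit 19711359513397, nat_lit 117, nat_lit 1000000, nat_lit 0, nat_lit 0, [(nat_lit 9, [(nat_lit 6, nat_lit 1000)])],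
 ⟨p051_k5, nat_lit 0, nat_lit 0, nat_lit 187, nat_lit 0, nat_lit 250369, [nat_lit 2969600000, nat_lit 1600000000, nat_lit 226400000], [], [nat_lit 11532369045, nat_lit 13274988808, nat_lit 10696829232, nat_lit 12003730000, nat_lit 13563013555, nat_lit 15326019756, nat_lit 12316100345, nat_lit 13522543224], nat_lit 1271250, nat_lit 1271250, nat_lit 134400, nat_lit 490000, nat_lit 1100001, nat_lit 1442500, [nat_lit 1100000, nat_lit 1442500, nat_lit 1271250], [nat_lit 9, nat_lit 40, nat_lit 40, nat_lit 80, nat_lit 2, nat_lit 289, nat_lit 75, nat_lit 9]⟩, C1.Rw.none,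
 ⟨nat_lit 5477, nat_lit 5917, ⟨.ofNat (nat_lit 197129), .ofNat (nat_lit 307076), .ofNat (nat_lit 239808), .ofNat (nat_lit 349755), .ofNat (nat_lit 213007), .ofNat (nat_lit 317913), .ofNat (nat_lit 255721), .ofNat (nat_lit 360628)⟩, ⟨.ofNat (nat_lit 293429), .ofNat (nat_lit 371963), .ofNat (nat_lit 336108), .ofNat (nat_lit 414641), .ofNat (nat_lit 296923), .ofNat (nat_lit 371856), .ofNat (nat_lit 339637), .ofNat (nat_lit 414570)⟩⟩, [⟨nat_lit 0, nat_lit 100, nat_lit 100, nat_lit 80, nat_lit 267717558⟩]⟩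
noncomputable def p051_l112 : Lf2 := ⟨nat_lit 2, nat_lit 6, [nat_lit 47, nat_lit 5, nat_lit 5, nat_lit 20], true, nat_lit 160, nat_lit 200, nat_lit 0, nat_lit 364, zbN0,
 nat_lit 0, nat_lit 0, nat_lit 0, nat_lit 0, nat_lit 0, nat_lit 0, nat_lit 0, nat_lit 0, nat_lit 0, nat_lit 0, nat_lit 0, nat_lit 0, nat_lit 0, nat_lit 0, nat_lit 0, nat_lit 0, nat_lit 0, nat_lit 0, [],
 ⟨p051_k4, nat_lit 0, nat_lit 0, nat_lit 153, nat_lit 0, nat_lit 50485, [], [], [], nat_lit 1271250, nat_lit 1271250, nat_lit 490000, nat_lit 1100001, nat_lit 1100001, nat_lit 1442500, [nat_lit 1100000, nat_lit 1442500, nat_lit 1271250], [nat_lit 11, nat_lit 40, nat_lit 40, nat_lit 80, nat_lit 1, nat_lit 401, nat_lit 175, nat_lit 11]⟩, C1.Rw.none,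
 zbF0, []⟩
noncomputable def p051_l113 : Lf2 := ⟨nat_lit 0, nat_lit 6, [nat_lit 47, nat_lit 5, nat_lit 5, nat_lit 20], false, nat_lit 160, nat_lit 200, nat_lit 0, nat_lit 364, ⟨nat_lit 0, nat_lit 0, nat_lit 1000, nat_lit 6, nat_lit 164, nat_lit 1000, nat_lit 142, nat_lit 1000, nat_lit 187267, nat_lit 321, nat_lit 25370, nat_lit 254, nat_lit 49596058, nat_lit 0, nat_lit 0, nat_lit 4021268, false, false⟩,
 nat_lit 0, nat_lit 7589, nat_lit 0, nat_lit 0, nat_lit 4417, nat_lit 0, nat_lit 652, nat_lit 0, nat_lit 0, nat_lit 0, nat_lit 0, nat_lit 0, nat_lit 0, nat_lit 22571395824021, nat_lit 117, nat_lit 1000000, nat_lit 0, nat_lit 0, [(nat_lit 9, [(nat_lit 6, nat_lit 1000)])],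
 ⟨p051_k5, nat_lit 0, nat_lit 0, nat_lit 159, nat_lit 0, nat_lit 250369, [nat_lit 2969600000, nat_lit 1600000000, nat_lit 226400000], [], [nat_lit 10354549544, nat_lit 11804137312, nat_lit 13272296926, nat_lit 13079386632, nat_lit 12152475969, nat_lit 13548140886, nat_lit 16414318237, nat_lit 14640632586], nat_lit 1271250, nat_lit 1271250, nat_lit 490000, nat_lit 1100001, nat_lit 1100001, nat_lit 1442500, [nat_lit 1100000, nat_lit 1442500, nat_lit 1271250], [nat_lit 9, nat_lit 40, nat_lit 40, nat_lit 80, nat_lit 2, nat_lit 317, nat_lit 100, nat_lit 10]⟩, ⟨p051_k4, nat_lit 0, nat_lit 0, nat_lit 337, nat_lit 0, nat_lit 282667, [nat_lit 0, nat_lit 0, nat_lit 0], [], [nat_lit 0, nat_lit 0, nat_lit 0, nat_lit 0, nat_lit 0, nat_lit 0, nat_lit 0, nat_lit 0], nat_lit 1271250, nat_lit 1271250, nat_lit 490000, nat_lit 1100001, nat_lit 0, nat_lit 2570750, [nat_lit 1100000, nat_lit 1442500, nat_lit 1271250], [nat_lit 11, nat_lit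 40, nat_lit 40, nat_lit 80, nat_lit 1, nat_lit 456, nat_lit 225, nat_lit 13]⟩,
 ⟨nat_lit 5477, nat_lit 5917, ⟨.ofNat (nat_lit 307076), .ofNat (nat_lit 464143), .ofNat (nat_lit 349755), .ofNat (nat_lit 506809), .ofNat (nat_lit 317913), .ofNat (nat_lit 467780), .ofNat (nat_lit 360628), .ofNat (nat_lit 510480)⟩, ⟨.ofNat (nat_lit 293429), .ofNat (nat_lit 371963), .ofNat (nat_lit 336108), .ofNat (nat_lit 414641), .ofNat (nat_lit 296923), .ofNat (nat_lit 371856), .ofNat (nat_lit 339637), .ofNat (nat_lit 414570)⟩⟩, []⟩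
noncomputable def p051_l114 : Lf2 := ⟨nat_lit 0, nat_lit 6, [nat_lit 47, nat_lit 5, nat_lit 5, nat_lit 20], false, nat_lit 200, nat_lit 240, nat_lit 0, nat_lit 364, ⟨nat_lit 0, nat_lit 0, nat_lit 1000, nat_lit 6, nat_lit 133, nat_lit 1000, nat_lit 173, nat_lit 1000, nat_lit 40279, nat_lit 264, nat_lit 50417, nat_lit 270, nat_lit 49496765, nat_lit 0, nat_lit 0, nat_lit 4012327, false, false⟩,
 nat_lit 7663, nat_lit 0, nat_lit 0, nat_lit 0, nat_lit 4056, nat_lit 0, nat_lit 0, nat_lit 0, nat_lit 0, nat_lit 0, nat_lit 0, nat_lit 0, nat_lit 0, nat_lit 0, nat_lit 147, nat_lit 1000000, nat_lit 0, nat_lit 0, [(nat_lit 6, [(nat_lit 6, nat_lit 1000)]), (nat_lit 9, [(nat_lit 6, nat_lit 1000)])],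
 ⟨p051_k4, nat_lit 0, nat_lit 0, nat_lit 193, nat_lit 0, nat_lit 158368, [nat_lit 3449600001, nat_lit 3042400001, nat_lit 177599999], [], [nat_lit 13757582454, nat_lit 15962179999, nat_lit 16862863298, nat_lit 15915286386, nat_lit 15336997058, nat_lit 17365228534, nat_lit 15389337122, nat_lit 17153473826], nat_lit 1271250, nat_lit 1271250, nat_lit 88400, nat_lit 1100001, nat_lit 1271250, nat_lit 1271250, [nat_lit 1100000, nat_lit 1442500, nat_lit 1271250], [nat_lit 11, nat_lit 40, nat_lit 40, nat_lit 80, nat_lit 1, nat_lit 401, nat_lit 175, nat_lit 11]⟩, ⟨p051_k4, nat_lit 0, nat_lit 0, nat_lit 339, nat_lit 0, nat_lit 158368, [nat_lit 0, nat_lit 0, nat_lit 0], [], [nat_lit 0, nat_lit 0, nat_lit 0, nat_lit 0, nat_lit 0, nat_lit 0, nat_lit 0, nat_lit 0], nat_lit 1271250, nat_lit 1271250, nat_lit 88400, nat_lit 1100001, nat_lit 0, nat_lit 2570750, [nat_lit 1100000, nat_lit 1442500, nat_lit 1271250], [nat_lit 11, nat_lit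 40, nat_lit 40, nat_lit 80, nat_lit 1, nat_lit 428, nat_lit 200, nat_lit 13]⟩,
 ⟨nat_lit 5477, nat_lit 6325, ⟨.ofNat (nat_lit 164319), .ofNat (nat_lit 460470), .ofNat (nat_lit 185687), .ofNat (nat_lit 481826), .ofNat (nat_lit 198021), .ofNat (nat_lit 467780), .ofNat (nat_lit 219378), .ofNat (nat_lit 489125)⟩, ⟨.ofNat (nat_lit 371791), .ofNat (nat_lit 454055), .ofNat (nat_lit 414527), .ofNat (nat_lit 496791), .ofNat (nat_lit 371856), .ofNat (nat_lit 446789), .ofNat (nat_lit 414570), .ofNat (nat_lit 489503)⟩⟩, [⟨nat_lit 0, nat_lit 100, nat_lit 96, nat_lit 69, nat_lit 77203890⟩]⟩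
noncomputable def p051_l115 : Lf2 := ⟨nat_lit 0, nat_lit 6, [nat_lit 47, nat_lit 5, nat_lit 5, nat_lit 20], true, nat_lit 200, nat_lit 240, nat_lit 0, nat_lit 336, ⟨nat_lit 0, nat_lit 0, nat_lit 1000, nat_lit 6, nat_lit 118, nat_lit 1000, nat_lit 169, nat_lit 1000, nat_lit 92357, nat_lit 289, nat_lit 129067, nat_lit 303, nat_lit 51027516, nat_lit 0, nat_lit 0, nat_lit 3762882, false, false⟩,
 nat_lit 0, nat_lit 6890, nat_lit 0, nat_lit 0, nat_lit 4010, nat_lit 0, nat_lit 0, nat_lit 0, nat_lit 0, nat_lit 0, nat_lit 0, nat_lit 0, nat_lit 0, nat_lit 0, nat_lit 117, nat_lit 1000000, nat_lit 0, nat_lit 0, [(nat_lit 9, [(nat_lit 6, nat_lit 1000)])],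
 ⟨p051_k5, nat_lit 0, nat_lit 0, nat_lit 151, nat_lit 0, nat_lit 127144, [nat_lit 2969600000, nat_lit 1600000000, nat_lit 226400000], [], [nat_lit 13091308868, nat_lit 13782660810, nat_lit 12669098570, nat_lit 13334676075, nat_lit 14946226149, nat_lit 15579908974, nat_lit 14472251960, nat_lit 15082771880], nat_lit 1271250, nat_lit 1271250, nat_lit 205650, nat_lit 490000, nat_lit 1271250, nat_lit 1271250, [nat_lit 1100000, nat_lit 1442500, nat_lit 1271250], [nat_lit 9, nat_lit 40, nat_lit 40, nat_lit 80, nat_lit 2, nat_lit 317, nat_lit 100, nat_lit 10]⟩, C1.Rw.none,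
 ⟨nat_lit 5700, nat_lit 5917, ⟨.ofNat (nat_lit 242029), .ofNat (nat_lit 328416), .ofNat (nat_lit 252698), .ofNat (nat_lit 339085), .ofNat (nat_lit 249476), .ofNat (nat_lit 333867), .ofNat (nat_lit 260147), .ofNat (nat_lit 344538)⟩, ⟨.ofNat (nat_lit 371963), .ofNat (nat_lit 450496), .ofNat (nat_lit 393302), .ofNat (nat_lit 471836), .ofNat (nat_lit 371947), .ofNat (nat_lit 448666), .ofNat (nat_lit 393289), .ofNat (nat_lit 470008)⟩⟩, [⟨nat_lit 0, nat_lit 100, nat_lit 100, nat_lit 70, nat_lit 170106941⟩]⟩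
noncomputable def p051_l116 : Lf2 := ⟨nat_lit 0, nat_lit 6, [nat_lit 47, nat_lit 5, nat_lit 5, nat_lit 20], false, nat_lit 200, nat_lit 240, nat_lit 0, nat_lit 336, ⟨nat_lit 85, nat_lit 0, nat_lit 915, nat_lit 6, nat_lit 124, nat_lit 915, nat_lit 168, nat_lit 915, nat_lit 96474, nat_lit 291, nat_lit 144150, nat_lit 308, nat_lit 50613746, nat_lit 0, nat_lit 0, nat_lit 3839627, false, false⟩,
 nat_lit 1237, nat_lit 6561, nat_lit 0, nat_lit 0, nat_lit 4748, nat_lit 720, nat_lit 0, nat_lit 0, nat_lit 0, nat_lit 713, nat_lit 0, nat_lit 0, nat_lit 0, nat_lit 6821418941385, nat_lit 79, nat_lit 915000, nat_lit 0, nat_lit 0, [(nat_lit 9, [(nat_lit 6, nat_lit 915)])],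
 ⟨p051_k0, nat_lit 0, nat_lit 0, nat_lit 156, nat_lit 0, nat_lit 223622, [nat_lit 2666784001, nat_lit 1434150001, nat_lit 207800999], [], [nat_lit 13780420440, nat_lit 14411519754, nat_lit 13425593100, nat_lit 14031951218, nat_lit 15611637756, nat_lit 16416690960, nat_lit 14999661854, nat_lit 15555374434], nat_lit 1271250, nat_lit 1271250, nat_lit 230001, nat_lit 490000, nat_lit 1271250, nat_lit 1271250, [nat_lit 1100000, nat_lit 1442500, nat_lit 1271250], [nat_lit 9, nat_lit 40, nat_lit 40, nat_lit 80, nat_lit 2, nat_lit 317, nat_lit 100, nat_lit 10]⟩, ⟨p051_k5, nat_lit 0, nat_lit 0, nat_lit 281, nat_lit 0, nat_lit 236527, [nat_lit 398480000, nat_lit 531250000, nat_lit 677280000], [], [nat_lit 2856262940, nat_lit 2481302780, nat_lit 2111901020, nat_lit 1742499260, nat_lit 2382194904, nat_lit 2436124232, nat_lit 2557783108, nat_lit 2230287226], nat_lit 1271250, nat_lit 1271250, nat_lit 230001, nat_lit 490000, nat_lit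 0, nat_lit 2373000, [nat_lit 1100000, nat_lit 1442500, nat_lit 1271250], [nat_lit 9, nat_lit 40, nat_lit 40, nat_lit 80, nat_lit 2, nat_lit 345, nat_lit 125, nat_lit 12]⟩,
 ⟨nat_lit 5477, nat_lit 5701, ⟨.ofNat (nat_lit 257148), .ofNat (nat_lit 333867), .ofNat (nat_lit 278490), .ofNat (nat_lit 355209), .ofNat (nat_lit 264337), .ofNat (nat_lit 339271), .ofNat (nat_lit 285695), .ofNat (nat_lit 360628)⟩, ⟨.ofNat (nat_lit 371947), .ofNat (nat_lit 448666), .ofNat (nat_lit 393289), .ofNat (nat_lit 470008), .ofNat (nat_lit 371856), .ofNat (nat_lit 446789), .ofNat (nat_lit 393213), .ofNat (nat_lit 468146)⟩⟩, [⟨nat_lit 0, nat_lit 100, nat_lit 100, nat_lit 80, nat_lit 291573065⟩, ⟨nat_lit 19, nat_lit 100, nat_lit 86, nat_lit 89, nat_lit 17354297⟩]⟩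
noncomputable def p051_l117 : Lf2 := ⟨nat_lit 0, nat_lit 6, [nat_lit 47, nat_lit 5, nat_lit 5, nat_lit 20], true, nat_lit 200, nat_lit 240, nat_lit 0, nat_lit 352, ⟨nat_lit 0, nat_lit 0, nat_lit 1000, nat_lit 6, nat_lit 121, nat_lit 1000, nat_lit 177, nat_lit 1000, nat_lit 45528, nat_lit 267, nat_lit 138017, nat_lit 306, nat_lit 50043484, nat_lit 0, nat_lit 0, nat_lit 3899121, false, false⟩,
 nat_lit 0, nat_lit 7623, nat_lit 0, nat_lit 0, nat_lit 4437, nat_lit 0, nat_lit 0, nat_lit 0, nat_lit 0, nat_lit 0, nat_lit 0, nat_lit 0, nat_lit 0, nat_lit 22944267349143, nat_lit 117, nat_lit 1000000, nat_lit 0, nat_lit 0, [(nat_lit 9, [(nat_lit 6, nat_lit 1000)])],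
 ⟨p051_k5, nat_lit 0, nat_lit 0, nat_lit 154, nat_lit 0, nat_lit 166447, [nat_lit 2969600000, nat_lit 1600000000, nat_lit 226400000], [], [nat_lit 13254334682, nat_lit 14502387699, nat_lit 12862780245, nat_lit 14037241304, nat_lit 14963547463, nat_lit 16518969117, nat_lit 14454301818, nat_lit 15532552608], nat_lit 1271250, nat_lit 1271250, nat_lit 205650, nat_lit 490000, nat_lit 1271250, nat_lit 1271250, [nat_lit 1100000, nat_lit 1442500, nat_lit 1271250], [nat_lit 9, nat_lit 40, nat_lit 40, nat_lit 80, nat_lit 2, nat_lit 317, nat_lit 100, nat_lit 10]⟩, C1.Rw.none,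
 ⟨nat_lit 5477, nat_lit 5917, ⟨.ofNat (nat_lit 242029), .ofNat (nat_lit 328416), .ofNat (nat_lit 263368), .ofNat (nat_lit 349755), .ofNat (nat_lit 256844), .ofNat (nat_lit 339271), .ofNat (nat_lit 278201), .ofNat (nat_lit 360628)⟩, ⟨.ofNat (nat_lit 393302), .ofNat (nat_lit 471836), .ofNat (nat_lit 414641), .ofNat (nat_lit 493175), .ofNat (nat_lit 393213), .ofNat (nat_lit 468146), .ofNat (nat_lit 414570), .ofNat (nat_lit 489503)⟩⟩, [⟨nat_lit 0, nat_lit 100, nat_lit 100, nat_lit 80, nat_lit 222271087⟩]⟩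
noncomputable def p051_l118 : Lf2 := ⟨nat_lit 0, nat_lit 6, [nat_lit 47, nat_lit 5, nat_lit 5, nat_lit 20], false, nat_lit 200, nat_lit 240, nat_lit 0, nat_lit 352, ⟨nat_lit 147, nat_lit 0, nat_lit 853, nat_lit 6, nat_lit 168, nat_lit 853, nat_lit 173, nat_lit 853, nat_lit 45528, nat_lit 267, nat_lit 25370, nat_lit 254, nat_lit 46869661, nat_lit 0, nat_lit 0, nat_lit 4399777, false, false⟩,
 nat_lit 8933, nat_lit 0, nat_lit 0, nat_lit 0, nat_lit 5199, nat_lit 1210, nat_lit 0, nat_lit 0, nat_lit 0, nat_lit 1241, nat_lit 0, nat_lit 0, nat_lit 0, nat_lit 0, nat_lit 40, nat_lit 753400, nat_lit 0, nat_lit 0, [(nat_lit 9, [(nat_lit 5, nat_lit 166), (nat_lit 6, nat_lit 687)])],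
 ⟨p051_k14, nat_lit 0, nat_lit 0, nat_lit 139, nat_lit 0, nat_lit 250369, [nat_lit 2480015200, nat_lit 58826534], [], [nat_lit 13049179978, nat_lit 14118608320, nat_lit 15556063810, nat_lit 14861474948, nat_lit 14421281536, nat_lit 15578492276, nat_lit 15211235768, nat_lit 16264382764], nat_lit 1271250, nat_lit 1271250, nat_lit 490000, nat_lit 1100001, nat_lit 1271250, nat_lit 1271250, [nat_lit 1100000, nat_lit 1785000], [nat_lit 39, nat_lit 40, nat_lit 40, nat_lit 80, nat_lit 7, nat_lit 317, nat_lit 100, nat_lit 10]⟩, ⟨p051_k14, nat_lit 0, nat_lit 0, nat_lit 255, nat_lit 0, nat_lit 250369, [nat_lit 689136000, nat_lit 1171296000], [], [nat_lit 3956857184, nat_lit 3317084204, nat_lit 2283983744, nat_lit 2553619600, nat_lit 4647427252, nat_lit 4104636254, nat_lit 5826370524, nat_lit 5304129200], nat_lit 1271250, nat_lit 1271250, nat_lit 490000, nat_lit 1100001, nat_lit 0, nat_lit 2486000, [nat_lit 1100000, nat_lit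 1785000], [nat_lit 39, nat_lit 40, nat_lit 40, nat_lit 80, nat_lit 7, nat_lit 373, nat_lit 150, nat_lit 13]⟩,
 ⟨nat_lit 5477, nat_lit 5917, ⟨.ofNat (nat_lit 328416), .ofNat (nat_lit 485478), .ofNat (nat_lit 349755), .ofNat (nat_lit 506809), .ofNat (nat_lit 339271), .ofNat (nat_lit 489132), .ofNat (nat_lit 360628), .ofNat (nat_lit 510480)⟩, ⟨.ofNat (nat_lit 371963), .ofNat (nat_lit 450496), .ofNat (nat_lit 414641), .ofNat (nat_lit 493175), .ofNat (nat_lit 371856), .ofNat (nat_lit 446789), .ofNat (nat_lit 414570), .ofNat (nat_lit 489503)⟩⟩, [⟨nat_lit 7, nat_lit 82, nat_lit 100, nat_lit 92, nat_lit 43040081⟩]⟩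
noncomputable def p051_l119 : Lf2 := ⟨nat_lit 0, nat_lit 6, [nat_lit 47, nat_lit 5, nat_lit 5, nat_lit 20], false, nat_lit 160, nat_lit 240, nat_lit 0, nat_lit 160, ⟨nat_lit 1000, nat_lit 0, nat_lit 0, nat_lit 0, nat_lit 0, nat_lit 0, nat_lit 0, nat_lit 0, nat_lit 0, nat_lit 0, nat_lit 0, nat_lit 0, nat_lit 0, nat_lit 0, nat_lit 0, nat_lit 0, false, false⟩,
 nat_lit 10288, nat_lit 0, nat_lit 0, nat_lit 15782, nat_lit 5445, nat_lit 5446, nat_lit 2034, nat_lit 0, nat_lit 0, nat_lit 1958, nat_lit 0, nat_lit 0, nat_lit 0, nat_lit 0, nat_lit 0, nat_lit 0, nat_lit 0, nat_lit 0, [],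
 ⟨p051_k4, nat_lit 0, nat_lit 0, nat_lit 158, nat_lit 0, nat_lit 282667, [nat_lit 4688000000, nat_lit 6250000000, nat_lit 9842000000], [], [nat_lit 32985320800, nat_lit 27227363980, nat_lit 26965306640, nat_lit 23948703000, nat_lit 26965306640, nat_lit 23948703000, nat_lit 34147899920, nat_lit 29016466580], nat_lit 1271250, nat_lit 1271250, nat_lit 1100001, nat_lit 1785000, nat_lit 1100001, nat_lit 1785000, [nat_lit 1100000, nat_lit 1442500, nat_lit 1271250], [nat_lit 11, nat_lit 40, nat_lit 40, nat_lit 80, nat_lit 1, nat_lit 428, nat_lit 200, nat_lit 12]⟩, ⟨p051_k4, nat_lit 0, nat_lit 0, nat_lit 308, nat_lit 0, nat_lit 282667, [nat_lit 4688000000, nat_lit 6250000000, nat_lit 9842000000], [], [nat_lit 37674844640, nat_lit 31915830344, nat_lit 29600196500, nat_lit 31076299292, nat_lit 25770755964, nat_lit 27230553712, nat_lit 32081612856, nat_lit 29141659728], nat_lit 1271250, nat_lit 1271250, nat_lit 1100001, nat_lit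 1785000, nat_lit 0, nat_lit 1100001, [nat_lit 1100000, nat_lit 1442500, nat_lit 1271250], [nat_lit 11, nat_lit 40, nat_lit 40, nat_lit 80, nat_lit 1, nat_lit 401, nat_lit 175, nat_lit 12]⟩,
 zbF0, []⟩
noncomputable def p051_l120 : Lf2 := ⟨nat_lit 0, nat_lit 6, [nat_lit 47, nat_lit 5, nat_lit 5, nat_lit 20], false, nat_lit 160, nat_lit 240, nat_lit 160, nat_lit 364, ⟨nat_lit 1000, nat_lit 0, nat_lit 0, nat_lit 0, nat_lit 0, nat_lit 0, nat_lit 0, nat_lit 0, nat_lit 0, nat_lit 0, nat_lit 0, nat_lit 0, nat_lit 0, nat_lit 0, nat_lit 0, nat_lit 0, false, false⟩,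
 nat_lit 12950, nat_lit 0, nat_lit 0, nat_lit 4771, nat_lit 6272, nat_lit 6855, nat_lit 1412, nat_lit 0, nat_lit 0, nat_lit 1842, nat_lit 0, nat_lit 0, nat_lit 0, nat_lit 19494495632900, nat_lit 0, nat_lit 0, nat_lit 0, nat_lit 0, [],
 ⟨p051_k4, nat_lit 0, nat_lit 0, nat_lit 158, nat_lit 0, nat_lit 282667, [nat_lit 4688000000, nat_lit 6250000000, nat_lit 9842000000], [], [nat_lit 34245536480, nat_lit 27613047008, nat_lit 26066814144, nat_lit 24333357352, nat_lit 26066814144, nat_lit 24333357352, nat_lit 33924160032, nat_lit 28013351968], nat_lit 1271250, nat_lit 1271250, nat_lit 1100001, nat_lit 1785000, nat_lit 1100001, nat_lit 1785000, [nat_lit 1100000, nat_lit 1442500, nat_lit 1271250], [nat_lit 11, nat_lit 40, nat_lit 40, nat_lit 80, nat_lit 1, nat_lit 428, nat_lit 200, nat_lit 12]⟩, ⟨p051_k4, nat_lit 0, nat_lit 0, nat_lit 198, nat_lit 0, nat_lit 282667, [nat_lit 4688000000, nat_lit 6250000000, nat_lit 9842000000],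 [], [nat_lit 35133935200, nat_lit 27884937220, nat_lit 30814058540, nat_lit 24173510360, nat_lit 26678362085, nat_lit 28017022880, nat_lit 27897681483, nat_lit 29287288730], nat_lit 1271250, nat_lit 1271250, nat_lit 1100001, nat_lit 1785000, nat_lit 1271250, nat_lit 1271250, [nat_lit 1100000, nat_lit 1442500, nat_lit 1271250], [nat_lit 11, nat_lit 40, nat_lit 40, nat_lit 80, nat_lit 1, nat_lit 456, nat_lit 225, nat_lit 13]⟩,
 zbF0, [⟨nat_lit 7, nat_lit 77, nat_lit 100, nat_lit 91, nat_lit 30733741⟩]⟩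
noncomputable def b_V_600_600_20_14 : St := ⟨true, nat_lit 1, nat_lit 1, nat_lit 1, nat_lit 120, nat_lit 240, nat_lit 280, nat_lit 240, nat_lit 280, nat_lit 16, nat_lit 240, nat_lit 80, nat_lit 120, nat_lit 160, nat_lit 240, nat_lit 0, nat_lit 364, nat_lit 0, nat_lit 24, nat_lit 0, nat_lit 0, nat_lit 0, nat_lit 0⟩
theorem d_V_600_600_20_14 (h : EB TB.env) : Dead b_V_600_600_20_14 := chkB_sound0 h (T :=
(.spl (nat_lit 2) (nat_lit 160)
(.spl (nat_lit 4) (nat_lit 200)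
(.spl (nat_lit 2) (nat_lit 80)
(.spl (nat_lit 0) (nat_lit 260)
(.ord (.leaf p051_l110))
(.trZ (nat_lit 0) (nat_lit 100) (nat_lit 97) (nat_lit 49) (nat_lit 24) (.leaf p051_l111)))
(.spl (nat_lit 0) (nat_lit 260)
(.ord (.leaf p051_l112))
(.leaf p051_l113)))
(.spl (nat_lit 1) (nat_lit 260)
(.leaf p051_l114)
(.ord (.trZ (nat_lit 0) (nat_lit 100) (nat_lit 100) (nat_lit 60) (nat_lit 36) (.trX (nat_lit 19) (nat_lit 100) (nat_lit 69) (nat_lit 96) (nat_lit 352) (.spl (nat_lit 2) (nat_lit 80)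
(.spl (nat_lit 3) (nat_lit 100)
(.trX (nat_lit 19) (nat_lit 100) (nat_lit 77) (nat_lit 91) (nat_lit 336) (.spl (nat_lit 0) (nat_lit 270)
(.ord (.leaf p051_l115))
(.trZ (nat_lit 0) (nat_lit 100) (nat_lit 98) (nat_lit 64) (nat_lit 40) (.leaf p051_l116))))
(.leaf p051_l117))
(.leaf p051_l118)))))))
(.spl (nat_lit 5) (nat_lit 160)
(.leaf p051_l119)
(.leaf p051_l120)))) (by decide +kernel)
noncomputable def p051_l121 : Lf2 := ⟨nat_lit 1, nat_lit 1, [nat_lit 19, nat_lit 5, nat_lit 5, nat_lit 20], false, nat_lit 240, nat_lit 364, nat_lit 0, nat_lit 364, zbN0,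
 nat_lit 0, nat_lit 0, nat_lit 0, nat_lit 0, nat_lit 0, nat_lit 0, nat_lit 0, nat_lit 0, nat_lit 0, nat_lit 0, nat_lit 0, nat_lit 0, nat_lit 0, nat_lit 0, nat_lit 0, nat_lit 0, nat_lit 0, nat_lit 0, [],
 C1.Rw.none, C1.Rw.none,
 zbF0, []⟩
noncomputable def p051_l122 : Lf2 := ⟨nat_lit 1, nat_lit 1, [nat_lit 19, nat_lit 5, nat_lit 5, nat_lit 20], false, nat_lit 240, nat_lit 344, nat_lit 0, nat_lit 344, zbN0,
 nat_lit 0, nat_lit 0, nat_lit 0, nat_lit 0, nat_lit 0, nat_lit 0, nat_lit 0, nat_lit 0, nat_lit 0, nat_lit 0, nat_lit 0, nat_lit 0, nat_lit 0, nat_lit 0, nat_lit 0, nat_lit 0, nat_lit 0, nat_lit 0, [],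
 C1.Rw.none, C1.Rw.none,
 zbF0, []⟩
noncomputable def p051_l123 : Lf2 := ⟨nat_lit 0, nat_lit 1, [nat_lit 19, nat_lit 5, nat_lit 5, nat_lit 20], false, nat_lit 240, nat_lit 280, nat_lit 0, nat_lit 312, ⟨nat_lit 1000, nat_lit 0, nat_lit 0, nat_lit 0, nat_lit 0, nat_lit 0, nat_lit 0, nat_lit 0, nat_lit 0, nat_lit 0, nat_lit 0, nat_lit 0, nat_lit 0, nat_lit 0, nat_lit 0, nat_lit 0, false, false⟩,
 nat_lit 11958, nat_lit 0, nat_lit 0, nat_lit 15085, nat_lit 6704, nat_lit 6801, nat_lit 0, nat_lit 0, nat_lit 0, nat_lit 5117, nat_lit 0, nat_lit 0, nat_lit 0, nat_lit 0, nat_lit 0, nat_lit 0, nat_lit 0, nat_lit 0, [],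
 ⟨p051_k16, nat_lit 0, nat_lit 0, nat_lit 130, nat_lit 0, nat_lit 20702, [nat_lit 4688000000, nat_lit 6250000000], [], [nat_lit 16556022775, nat_lit 16972294562, nat_lit 15164606932, nat_lit 15570892416, nat_lit 19958094338, nat_lit 20325603225, nat_lit 18483819625, nat_lit 18843036116], nat_lit 1271250, nat_lit 1271250, nat_lit 157850, nat_lit 356250, nat_lit 1271250, nat_lit 1271250, [nat_lit 1100000, nat_lit 1442500], [nat_lit 31, nat_lit 40, nat_lit 40, nat_lit 80, nat_lit 3, nat_lit 226, nat_lit 20, nat_lit 8]⟩, ⟨p051_k16, nat_lit 0, nat_lit 0, nat_lit 250, nat_lit 0, nat_lit 20702, [nat_lit 4688000000, nat_lit 6250000000], [], [nat_lit 16905571970, nat_lit 17371336374, nat_lit 15538738034, nat_lit 15992969268, nat_lit 23322733270, nat_lit 23601140674, nat_lit 22029983679, nat_lit 22301480045], nat_lit 1271250, nat_lit 1271250, nat_lit 157850, nat_lit 356250, nat_lit 0, nat_lit 2203500, [nat_lit 1100000, nat_lit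 1442500], [nat_lit 31, nat_lit 40, nat_lit 40, nat_lit 80, nat_lit 3, nat_lit 317, nat_lit 100, nat_lit 13]⟩,
 zbF0, [⟨nat_lit 0, nat_lit 100, nat_lit 100, nat_lit 60, nat_lit 714796045⟩, ⟨nat_lit 11, nat_lit 100, nat_lit 100, nat_lit 66, nat_lit 429376936⟩]⟩
noncomputable def p051_l124 : Lf2 := ⟨nat_lit 0, nat_lit 1, [nat_lit 19, nat_lit 5, nat_lit 5, nat_lit 20], true, nat_lit 240, nat_lit 280, nat_lit 0, nat_lit 336, ⟨nat_lit 0, nat_lit 1000, nat_lit 0, nat_lit 6, nat_lit 122, nat_lit 1000, nat_lit 200, nat_lit 0, nat_lit 0, nat_lit 0, nat_lit 0, nat_lit 0, nat_lit 47869254, nat_lit 6023493, nat_lit 13107253, nat_lit 4141929, false, false⟩,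
 nat_lit 0, nat_lit 9340, nat_lit 0, nat_lit 0, nat_lit 5312, nat_lit 0, nat_lit 0, nat_lit 0, nat_lit 0, nat_lit 0, nat_lit 0, nat_lit 0, nat_lit 0, nat_lit 0, nat_lit 0, nat_lit 400000, nat_lit 0, nat_lit 0, [(nat_lit 6, [(nat_lit 1, nat_lit 1000)])],
 ⟨p051_k16, nat_lit 0, nat_lit 0, nat_lit 114, nat_lit 0, nat_lit 20702, [nat_lit 2692266667, nat_lit 3030400000], [], [nat_lit 14589468063, nat_lit 14946412715, nat_lit 14253486967, nat_lit 14603725819, nat_lit 17498961042, nat_lit 17816981815, nat_lit 17108068905, nat_lit 17420380403], nat_lit 1271250, nat_lit 1271250, nat_lit 356250, nat_lit 490000, nat_lit 1271250, nat_lit 1271250, [nat_lit 1100000, nat_lit 1442500], [nat_lit 31, nat_lit 40, nat_lit 40, nat_lit 80, nat_lit 3, nat_lit 226, nat_lit 20, nat_lit 8]⟩, C1.Rw.none,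
 ⟨nat_lit 5916, nat_lit 6021, ⟨.ofNat (nat_lit 280605), .ofNat (nat_lit 320331), .ofNat (nat_lit 285941), .ofNat (nat_lit 325667), .ofNat (nat_lit 283814), .ofNat (nat_lit 323081), .ofNat (nat_lit 289149), .ofNat (nat_lit 328416)⟩, ⟨.ofNat (nat_lit 451398), .ofNat (nat_lit 530850), .ofNat (nat_lit 472740), .ofNat (nat_lit 552192), .ofNat (nat_lit 450496), .ofNat (nat_lit 529030), .ofNat (nat_lit 471836), .ofNat (nat_lit 550369)⟩⟩, []⟩
noncomputable def p051_l125 : Lf2 := ⟨nat_lit 0, nat_lit 1, [nat_lit 19, nat_lit 5, nat_lit 5, nat_lit 20], false, nat_lit 280, nat_lit 340, nat_lit 0, nat_lit 276, ⟨nat_lit 1000, nat_lit 0, nat_lit 0, nat_lit 0, nat_lit 0, nat_lit 0, nat_lit 0, nat_lit 0, nat_lit 0, nat_lit 0, nat_lit 0, nat_lit 0, nat_lit 0, nat_lit 0, nat_lit 0, nat_lit 0, false, false⟩,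
 nat_lit 12837, nat_lit 0, nat_lit 0, nat_lit 31033, nat_lit 6409, nat_lit 7301, nat_lit 4218, nat_lit 0, nat_lit 0, nat_lit 4267, nat_lit 0, nat_lit 0, nat_lit 0, nat_lit 0, nat_lit 0, nat_lit 0, nat_lit 0, nat_lit 0, [],
 ⟨p051_k16, nat_lit 0, nat_lit 0, nat_lit 112, nat_lit 0, nat_lit 20702, [nat_lit 4688000000, nat_lit 6250000000], [], [nat_lit 21629236627, nat_lit 21905958751, nat_lit 20482192400, nat_lit 20751876832, nat_lit 26021214111, nat_lit 26265249036, nat_lit 24773494143, nat_lit 25011847259], nat_lit 1271250, nat_lit 1271250, nat_lit 157850, nat_lit 356250, nat_lit 1271250, nat_lit 1271250, [nat_lit 1100000, nat_lit 1442500], [nat_lit 31, nat_lit 40, nat_lit 40, nat_lit 80, nat_lit 3, nat_lit 226, nat_lit 20, nat_lit 8]⟩, ⟨p051_k16, nat_lit 0, nat_lit 0, nat_lit 250, nat_lit 0, nat_lit 20702, [nat_lit 4688000000, nat_lit 6250000000], [], [nat_lit 17385270331, nat_lit 18106089311, nat_lit 15456042284,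 nat_lit 15930715768, nat_lit 20075878471, nat_lit 20374896532, nat_lit 18703525777, nat_lit 18994691077], nat_lit 1271250, nat_lit 1271250, nat_lit 157850, nat_lit 356250, nat_lit 0, nat_lit 1949250, [nat_lit 1100000, nat_lit 1442500], [nat_lit 31, nat_lit 40, nat_lit 40, nat_lit 80, nat_lit 3, nat_lit 317, nat_lit 100, nat_lit 13]⟩,
 zbF0, [⟨nat_lit 0, nat_lit 100, nat_lit 100, nat_lit 60, nat_lit 762778617⟩, ⟨nat_lit 16, nat_lit 100, nat_lit 80, nat_lit 87, nat_lit 419471207⟩, ⟨nat_lit 23, nat_lit 84, nat_lit 100, nat_lit 63, nat_lit 407894699⟩]⟩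
noncomputable def p051_l126 : Lf2 := ⟨nat_lit 0, nat_lit 1, [nat_lit 19, nat_lit 5, nat_lit 5, nat_lit 20], false, nat_lit 280, nat_lit 340, nat_lit 0, nat_lit 300, ⟨nat_lit 1000, nat_lit 0, nat_lit 0, nat_lit 0, nat_lit 0, nat_lit 0, nat_lit 0, nat_lit 0, nat_lit 0, nat_lit 0, nat_lit 0, nat_lit 0, nat_lit 0, nat_lit 0, nat_lit 0, nat_lit 0, false, false⟩,
 nat_lit 12002, nat_lit 0, nat_lit 0, nat_lit 10008, nat_lit 6270, nat_lit 6826, nat_lit 0, nat_lit 0, nat_lit 0, nat_lit 0, nat_lit 0, nat_lit 0, nat_lit 0, nat_lit 0, nat_lit 0, nat_lit 0, nat_lit 0, nat_lit 0, [],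
 ⟨p051_k16, nat_lit 0, nat_lit 0, nat_lit 94, nat_lit 0, nat_lit 20702, [nat_lit 4688000000, nat_lit 6250000000], [], [nat_lit 18798991782, nat_lit 19145364205, nat_lit 18268958168, nat_lit 18608905810, nat_lit 23896510205, nat_lit 24175736930, nat_lit 23267042877, nat_lit 23541573455], nat_lit 1271250, nat_lit 1271250, nat_lit 356250, nat_lit 490000, nat_lit 1271250, nat_lit 1271250, [nat_lit 1100000, nat_lit 1442500], [nat_lit 31, nat_lit 40, nat_lit 40, nat_lit 80, nat_lit 3, nat_lit 226, nat_lit 20, nat_lit 8]⟩, ⟨p051_k16, nat_lit 0, nat_lit 0, nat_lit 234, nat_lit 0, nat_lit 20702, [nat_lit 4688000000, nat_lit 6250000000], [], [nat_lit 13947117532, nat_lit 14629116078, nat_lit 12767809419, nat_lit 13442560716, nat_lit 20072783862, nat_lit 20411719467, nat_lit 19428913130, nat_lit 19761622869], nat_lit 1271250, nat_lit 1271250, nat_lit 356250, nat_lit 490000, nat_lit 0, nat_lit 2118750, [nat_lit 1100000, nat_lit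 1442500], [nat_lit 31, nat_lit 40, nat_lit 40, nat_lit 80, nat_lit 3, nat_lit 317, nat_lit 100, nat_lit 13]⟩,
 zbF0, [⟨nat_lit 4, nat_lit 80, nat_lit 100, nat_lit 87, nat_lit 413157943⟩, ⟨nat_lit 23, nat_lit 87, nat_lit 100, nat_lit 79, nat_lit 403009594⟩]⟩
noncomputable def p051_l127 : Lf2 := ⟨nat_lit 0, nat_lit 1, [nat_lit 19, nat_lit 5, nat_lit 5, nat_lit 20], false, nat_lit 240, nat_lit 340, nat_lit 0, nat_lit 340, ⟨nat_lit 1000, nat_lit 0, nat_lit 0, nat_lit 0, nat_lit 0, nat_lit 0, nat_lit 0, nat_lit 0, nat_lit 0, nat_lit 0, nat_lit 0, nat_lit 0, nat_lit 0, nat_lit 0, nat_lit 0, nat_lit 0, false, false⟩,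
 nat_lit 11317, nat_lit 0, nat_lit 0, nat_lit 9314, nat_lit 6436, nat_lit 6436, nat_lit 0, nat_lit 0, nat_lit 0, nat_lit 0, nat_lit 0, nat_lit 0, nat_lit 0, nat_lit 0, nat_lit 0, nat_lit 0, nat_lit 0, nat_lit 0, [],
 ⟨p051_k16, nat_lit 0, nat_lit 0, nat_lit 104, nat_lit 0, nat_lit 20702, [nat_lit 4688000000, nat_lit 6250000000], [], [nat_lit 14947234900, nat_lit 15336303456, nat_lit 14934214294, nat_lit 15302676824, nat_lit 23201111059, nat_lit 23479002494, nat_lit 22761797560, nat_lit 23025937334], nat_lit 1271250, nat_lit 1271250, nat_lit 490000, nat_lit 780000, nat_lit 1271250, nat_lit 1271250, [nat_lit 1100000, nat_lit 1442500], [nat_lit 31, nat_lit 40, nat_lit 40, nat_lit 80, nat_lit 3, nat_lit 238, nat_lit 30, nat_lit 8]⟩, ⟨p051_k16, nat_lit 0, nat_lit 0, nat_lit 224, nat_lit 0, nat_lit 20702, [nat_lit 4688000000, nat_lit 6250000000], [], [nat_lit 12944701398, nat_lit 13504232840, nat_lit 13019673826, nat_lit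 13551275672, nat_lit 23201111059, nat_lit 23479002494, nat_lit 22761797560, nat_lit 23025937334], nat_lit 1271250, nat_lit 1271250, nat_lit 490000, nat_lit 780000, nat_lit 0, nat_lit 2401250, [nat_lit 1100000, nat_lit 1442500], [nat_lit 31, nat_lit 40, nat_lit 40, nat_lit 80, nat_lit 3, nat_lit 345, nat_lit 125, nat_lit 14]⟩,
 zbF0, [⟨nat_lit 4, nat_lit 80, nat_lit 100, nat_lit 87, nat_lit 366646841⟩, ⟨nat_lit 11, nat_lit 100, nat_lit 100, nat_lit 100, nat_lit 337064223⟩]⟩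
noncomputable def p051_l128 : Lf2 := ⟨nat_lit 1, nat_lit 1, [nat_lit 19, nat_lit 5, nat_lit 5, nat_lit 20], false, nat_lit 240, nat_lit 360, nat_lit 0, nat_lit 360, zbN0,
 nat_lit 0, nat_lit 0, nat_lit 0, nat_lit 0, nat_lit 0, nat_lit 0, nat_lit 0, nat_lit 0, nat_lit 0, nat_lit 0, nat_lit 0, nat_lit 0, nat_lit 0, nat_lit 0, nat_lit 0, nat_lit 0, nat_lit 0, nat_lit 0, [],
 C1.Rw.none, C1.Rw.none,
 zbF0, []⟩
noncomputable def p051_l129 : Lf2 := ⟨nat_lit 1, nat_lit 6, [nat_lit 47, nat_lit 5, nat_lit 5, nat_lit 20], false, nat_lit 240, nat_lit 364, nat_lit 0, nat_lit 364, zbN0,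
 nat_lit 0, nat_lit 0, nat_lit 0, nat_lit 0, nat_lit 0, nat_lit 0, nat_lit 0, nat_lit 0, nat_lit 0, nat_lit 0, nat_lit 0, nat_lit 0, nat_lit 0, nat_lit 0, nat_lit 0, nat_lit 0, nat_lit 0, nat_lit 0, [],
 C1.Rw.none, C1.Rw.none,
 zbF0, []⟩
noncomputable def b_V_600_600_20_15 : St := ⟨true, nat_lit 1, nat_lit 1, nat_lit 1, nat_lit 120, nat_lit 240, nat_lit 260, nat_lit 240, nat_lit 280, nat_lit 16, nat_lit 120, nat_lit 80, nat_lit 120, nat_lit 240, nat_lit 364, nat_lit 0, nat_lit 364, nat_lit 0, nat_lit 24, nat_lit 0, nat_lit 0, nat_lit 0, nat_lit 0⟩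
theorem d_V_600_600_20_15 (h : EB TB.env) : Dead b_V_600_600_20_15 := chkB_sound0 h (T :=
(.ord (.spl (nat_lit 6) (nat_lit 4)
(.spl (nat_lit 1) (nat_lit 250)
(.leaf p051_l121)
(.ord (.trZ (nat_lit 0) (nat_lit 100) (nat_lit 100) (nat_lit 50) (nat_lit 24) (.trX (nat_lit 16) (nat_lit 100) (nat_lit 64) (nat_lit 95) (nat_lit 360) (.trX (nat_lit 19) (nat_lit 100) (nat_lit 64) (nat_lit 95) (nat_lit 360) (.spl (nat_lit 3) (nat_lit 100)
(.trX (nat_lit 16) (nat_lit 100) (nat_lit 72) (nat_lit 89) (nat_lit 344) (.trX (nat_lit 19) (nat_lit 100) (nat_lit 72) (nat_lit 89) (nat_lit 344) (.spl (nat_lit 1) (nat_lit 255)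
(.leaf p051_l122)
(.ord (.trZ (nat_lit 0) (nat_lit 100) (nat_lit 100) (nat_lit 55) (nat_lit 28) (.trX (nat_lit 16) (nat_lit 100) (nat_lit 75) (nat_lit 90) (nat_lit 340) (.trX (nat_lit 19) (nat_lit 100) (nat_lit 75) (nat_lit 90) (nat_lit 340) (.spl (nat_lit 2) (nat_lit 80)
(.trX (nat_lit 23) (nat_lit 100) (nat_lit 76) (nat_lit 82) (nat_lit 336) (.spl (nat_lit 4) (nat_lit 280)
(.spl (nat_lit 2) (nat_lit 60)
(.trX (nat_lit 23) (nat_lit 100) (nat_lit 85) (nat_lit 73) (nat_lit 312) (.leaf p051_l123))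
(.leaf p051_l124))
(.trX (nat_lit 23) (nat_lit 100) (nat_lit 95) (nat_lit 87) (nat_lit 300) (.spl (nat_lit 2) (nat_lit 60)
(.trX (nat_lit 23) (nat_lit 99) (nat_lit 100) (nat_lit 77) (nat_lit 276) (.leaf p051_l125))
(.leaf p051_l126)))))
(.leaf p051_l127)))))))))
(.leaf p051_l128)))))))
(.leaf p051_l129)))) (by decide +kernel)
noncomputable def p051_l130 : Lf2 := ⟨nat_lit 0, nat_lit 3, [nat_lit 45, nat_lit 5, nat_lit 5, nat_lit 20], true, nat_lit 240, nat_lit 280, nat_lit 0, nat_lit 288, ⟨nat_lit 0, nat_lit 0, nat_lit 1000, nat_lit 6, nat_lit 90, nat_lit 1000, nat_lit 199, nat_lit 1000, nat_lit 5607, nat_lit 232, nat_lit 77067, nat_lit 283, nat_lit 49979318, nat_lit 0, nat_lit 0, nat_lit 3718963, false, false⟩,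
 nat_lit 0, nat_lit 6809, nat_lit 0, nat_lit 0, nat_lit 3963, nat_lit 0, nat_lit 0, nat_lit 0, nat_lit 0, nat_lit 0, nat_lit 0, nat_lit 0, nat_lit 0, nat_lit 0, nat_lit 117, nat_lit 1000000, nat_lit 0, nat_lit 0, [(nat_lit 9, [(nat_lit 6, nat_lit 1000)])],
 ⟨p051_k13, nat_lit 0, nat_lit 0, nat_lit 139, nat_lit 0, nat_lit 82039, [nat_lit 2969600000, nat_lit 1600000000, nat_lit 226400000], [], [nat_lit 16061208713, nat_lit 17136963790, nat_lit 15598520530, nat_lit 16665608276, nat_lit 18378563430, nat_lit 19692479612, nat_lit 17744476477, nat_lit 18885626732], nat_lit 1271250, nat_lit 1271250, nat_lit 134400, nat_lit 230001, nat_lit 1271250, nat_lit 1271250, [nat_lit 1100000, nat_lit 1442500, nat_lit 1271250], [nat_lit 9, nat_lit 40, nat_lit 40, nat_lit 80, nat_lit 2, nat_lit 215, nat_lit 10, nat_lit 6]⟩, C1.Rw.none,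
 ⟨nat_lit 5477, nat_lit 5917, ⟨.ofNat (nat_lit 197129), .ofNat (nat_lit 228543), .ofNat (nat_lit 207799), .ofNat (nat_lit 239212), .ofNat (nat_lit 213007), .ofNat (nat_lit 242980), .ofNat (nat_lit 223686), .ofNat (nat_lit 253659)⟩, ⟨.ofNat (nat_lit 450496), .ofNat (nat_lit 529030), .ofNat (nat_lit 471836), .ofNat (nat_lit 550369), .ofNat (nat_lit 446789), .ofNat (nat_lit 521722), .ofNat (nat_lit 468146), .ofNat (nat_lit 543079)⟩⟩, [⟨nat_lit 0, nat_lit 100, nat_lit 96, nat_lit 57, nat_lit 366797012⟩]⟩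
noncomputable def p051_l131 : Lf2 := ⟨nat_lit 0, nat_lit 3, [nat_lit 45, nat_lit 5, nat_lit 5, nat_lit 20], false, nat_lit 240, nat_lit 280, nat_lit 0, nat_lit 288, ⟨nat_lit 1000, nat_lit 0, nat_lit 0, nat_lit 0, nat_lit 0, nat_lit 0, nat_lit 0, nat_lit 0, nat_lit 0, nat_lit 0, nat_lit 0, nat_lit 0, nat_lit 0, nat_lit 0, nat_lit 0, nat_lit 0, false, false⟩,
 nat_lit 14629, nat_lit 0, nat_lit 0, nat_lit 15786, nat_lit 7655, nat_lit 8127, nat_lit 2232, nat_lit 0, nat_lit 0, nat_lit 3069, nat_lit 0, nat_lit 0, nat_lit 0, nat_lit 0, nat_lit 0, nat_lit 0, nat_lit 0, nat_lit 0, [],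
 ⟨p051_k13, nat_lit 0, nat_lit 0, nat_lit 131, nat_lit 0, nat_lit 71521, [nat_lit 4688000000, nat_lit 6250000000, nat_lit 7968000000], [], [nat_lit 18248945241, nat_lit 18866169279, nat_lit 17408426780, nat_lit 18021979140, nat_lit 21072306335, nat_lit 22004004315, nat_lit 20098377860, nat_lit 20699941115], nat_lit 1271250, nat_lit 1271250, nat_lit 157850, nat_lit 230001, nat_lit 1271250, nat_lit 1271250, [nat_lit 1100000, nat_lit 1442500, nat_lit 1271250], [nat_lit 9, nat_lit 40, nat_lit 40, nat_lit 80, nat_lit 2, nat_lit 215, nat_lit 10, nat_lit 6]⟩, ⟨p051_k23, nat_lit 0, nat_lit 0, nat_lit 256, nat_lit 0, nat_lit 75759, [nat_lit 4688000000, nat_lit 6250000000, nat_lit 7968000000], [], [nat_lit 17767533050, nat_lit 19320962181, nat_lit 16291754527, nat_lit 17401840198, nat_lit 21395689874, nat_lit 22336902015, nat_lit 20213245491, nat_lit 20941561862], nat_lit 1271250, nat_lit 1271250, nat_lit 157850, nat_lit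 230001, nat_lit 0, nat_lit 2034000, [nat_lit 1100000, nat_lit 1442500, nat_lit 1271250], [nat_lit 9, nat_lit 40, nat_lit 40, nat_lit 80, nat_lit 2, nat_lit 317, nat_lit 100, nat_lit 11]⟩,
 zbF0, [⟨nat_lit 0, nat_lit 100, nat_lit 98, nat_lit 60, nat_lit 94543587⟩, ⟨nat_lit 0, nat_lit 100, nat_lit 98, nat_lit 64, nat_lit 1579788862⟩, ⟨nat_lit 23, nat_lit 99, nat_lit 100, nat_lit 58, nat_lit 416504808⟩]⟩
noncomputable def p051_l132 : Lf2 := ⟨nat_lit 0, nat_lit 3, [nat_lit 45, nat_lit 5, nat_lit 5, nat_lit 20], true, nat_lit 240, nat_lit 280, nat_lit 0, nat_lit 288, ⟨nat_lit 0, nat_lit 0, nat_lit 1000, nat_lit 6, nat_lit 101, nat_lit 1000, nat_lit 199, nat_lit 1000, nat_lit 8092, nat_lit 234, nat_lit 93750, nat_lit 290, nat_lit 49402759, nat_lit 0, nat_lit 0, nat_lit 3853560, false, false⟩,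
 nat_lit 0, nat_lit 6504, nat_lit 0, nat_lit 0, nat_lit 3961, nat_lit 0, nat_lit 0, nat_lit 0, nat_lit 0, nat_lit 0, nat_lit 0, nat_lit 0, nat_lit 0, nat_lit 0, nat_lit 37, nat_lit 1000000, nat_lit 0, nat_lit 0, [(nat_lit 9, [(nat_lit 6, nat_lit 1000)])],
 ⟨p051_k24, nat_lit 0, nat_lit 0, nat_lit 126, nat_lit 0, nat_lit 120973, [nat_lit 1689600001, nat_lit 0], [], [nat_lit 16252126157, nat_lit 16786640019, nat_lit 16135458643, nat_lit 16668889374, nat_lit 18430394665, nat_lit 19085725744, nat_lit 18230109947, nat_lit 18884139204], nat_lit 1271250, nat_lit 1271250, nat_lit 205650, nat_lit 230001, nat_lit 1271250, nat_lit 1271250, [nat_lit 1100000, nat_lit 1442500], [nat_lit 31, nat_lit 40, nat_lit 40, nat_lit 80, nat_lit 3, nat_lit 215, nat_lit 10, nat_lit 7]⟩, C1.Rw.none,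
 ⟨nat_lit 5477, nat_lit 5701, ⟨.ofNat (nat_lit 238805), .ofNat (nat_lit 246477), .ofNat (nat_lit 249476), .ofNat (nat_lit 257148), .ofNat (nat_lit 246166), .ofNat (nat_lit 253659), .ofNat (nat_lit 256844), .ofNat (nat_lit 264337)⟩, ⟨.ofNat (nat_lit 448666), .ofNat (nat_lit 525385), .ofNat (nat_lit 470008), .ofNat (nat_lit 546727), .ofNat (nat_lit 446789), .ofNat (nat_lit 521722), .ofNat (nat_lit 468146), .ofNat (nat_lit 543079)⟩⟩, [⟨nat_lit 0, nat_lit 100, nat_lit 96, nat_lit 64, nat_lit 1031603152⟩]⟩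
noncomputable def p051_l133 : Lf2 := ⟨nat_lit 0, nat_lit 3, [nat_lit 45, nat_lit 5, nat_lit 5, nat_lit 20], true, nat_lit 240, nat_lit 280, nat_lit 0, nat_lit 288, ⟨nat_lit 0, nat_lit 1000, nat_lit 0, nat_lit 6, nat_lit 92, nat_lit 1000, nat_lit 208, nat_lit 0, nat_lit 0, nat_lit 0, nat_lit 0, nat_lit 0, nat_lit 49030458, nat_lit 3980150, nat_lit 13989392, nat_lit 3828793, false, false⟩,
 nat_lit 0, nat_lit 9146, nat_lit 0, nat_lit 100000, nat_lit 5323, nat_lit 0, nat_lit 17735, nat_lit 0, nat_lit 0, nat_lit 0, nat_lit 0, nat_lit 0, nat_lit 0, nat_lit 0, nat_lit 0, nat_lit 1000000, nat_lit 0, nat_lit 0, [(nat_lit 9, [(nat_lit 2, nat_lit 1000)])],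
 ⟨p051_k13, nat_lit 0, nat_lit 0, nat_lit 132, nat_lit 0, nat_lit 57547, [nat_lit 2663466667, nat_lit 2329200000, nat_lit 1646800000], [], [nat_lit 17046365375, nat_lit 18277547236, nat_lit 16345235464, nat_lit 17566196330, nat_lit 19529953030, nat_lit 21048568253, nat_lit 18806125251, nat_lit 19899455644], nat_lit 1271250, nat_lit 1271250, nat_lit 134400, nat_lit 230001, nat_lit 1271250, nat_lit 1271250, [nat_lit 1100000, nat_lit 1442500, nat_lit 1271250], [nat_lit 9, nat_lit 40, nat_lit 40, nat_lit 80, nat_lit 2, nat_lit 215, nat_lit 10, nat_lit 6]⟩, C1.Rw.none,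
 ⟨nat_lit 5477, nat_lit 5917, ⟨.ofNat (nat_lit 197129), .ofNat (nat_lit 228543), .ofNat (nat_lit 218469), .ofNat (nat_lit 249882), .ofNat (nat_lit 213007), .ofNat (nat_lit 242980), .ofNat (nat_lit 234364), .ofNat (nat_lit 264337)⟩, ⟨.ofNat (nat_lit 471836), .ofNat (nat_lit 550369), .ofNat (nat_lit 493175), .ofNat (nat_lit 571704), .ofNat (nat_lit 468146), .ofNat (nat_lit 543079), .ofNat (nat_lit 489503), .ofNat (nat_lit 564432)⟩⟩, [⟨nat_lit 0, nat_lit 100, nat_lit 97, nat_lit 59, nat_lit 6889793228⟩]⟩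
noncomputable def p051_l134 : Lf2 := ⟨nat_lit 0, nat_lit 2, [nat_lit 10, nat_lit 5, nat_lit 5, nat_lit 20], true, nat_lit 240, nat_lit 280, nat_lit 0, nat_lit 336, ⟨nat_lit 0, nat_lit 1000, nat_lit 0, nat_lit 6, nat_lit 112, nat_lit 1000, nat_lit 200, nat_lit 0, nat_lit 0, nat_lit 0, nat_lit 0, nat_lit 0, nat_lit 48556409, nat_lit 5322103, nat_lit 13121488, nat_lit 4014650, false, false⟩,
 nat_lit 0, nat_lit 8759, nat_lit 0, nat_lit 0, nat_lit 5098, nat_lit 0, nat_lit 0, nat_lit 0, nat_lit 0, nat_lit 0, nat_lit 0, nat_lit 0, nat_lit 0, nat_lit 0, nat_lit 0, nat_lit 1000000, nat_lit 0, nat_lit 0, [(nat_lit 9, [(nat_lit 2, nat_lit 1000)])],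
 ⟨p051_k10, nat_lit 0, nat_lit 0, nat_lit 123, nat_lit 0, nat_lit 43891, [nat_lit 2663466667, nat_lit 2329200000], [], [nat_lit 15441426643, nat_lit 15797299051, nat_lit 14815419875, nat_lit 15158265883, nat_lit 18302615907, nat_lit 18619852874, nat_lit 17571896161, nat_lit 17878034241], nat_lit 1271250, nat_lit 1271250, nat_lit 230001, nat_lit 490000, nat_lit 1271250, nat_lit 1271250, [nat_lit 1100000, nat_lit 1442500], [nat_lit 31, nat_lit 40, nat_lit 40, nat_lit 80, nat_lit 3, nat_lit 226, nat_lit 20, nat_lit 8]⟩, C1.Rw.none,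
 ⟨nat_lit 5809, nat_lit 5917, ⟨.ofNat (nat_lit 228543), .ofNat (nat_lit 307076), .ofNat (nat_lit 249882), .ofNat (nat_lit 328416), .ofNat (nat_lit 232187), .ofNat (nat_lit 309809), .ofNat (nat_lit 253526), .ofNat (nat_lit 331148)⟩, ⟨.ofNat (nat_lit 450496), .ofNat (nat_lit 529030), .ofNat (nat_lit 471836), .ofNat (nat_lit 550369), .ofNat (nat_lit 449586), .ofNat (nat_lit 527209), .ofNat (nat_lit 470925), .ofNat (nat_lit 548548)⟩⟩, []⟩
noncomputable def p051_l135 : Lf2 := ⟨nat_lit 0, nat_lit 1, [nat_lit 19, nat_lit 5, nat_lit 5, nat_lit 20], false, nat_lit 240, nat_lit 280, nat_lit 0, nat_lit 300, ⟨nat_lit 186, nat_lit 0, nat_lit 814, nat_lit 6, nat_lit 101, nat_lit 814, nat_lit 199, nat_lit 814, nat_lit 6867, nat_lit 233, nat_lit 96267, nat_lit 291, nat_lit 49305628, nat_lit 0, nat_lit 0, nat_lit 3865563, false, false⟩,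
 nat_lit 3146, nat_lit 4038, nat_lit 0, nat_lit 0, nat_lit 4278, nat_lit 1665, nat_lit 0, nat_lit 0, nat_lit 0, nat_lit 0, nat_lit 0, nat_lit 0, nat_lit 0, nat_lit 0, nat_lit 0, nat_lit 814000, nat_lit 0, nat_lit 0, [(nat_lit 9, [(nat_lit 6, nat_lit 814)])],
 ⟨p051_k25, nat_lit 0, nat_lit 0, nat_lit 122, nat_lit 0, nat_lit 67879, [nat_lit 1765414401, nat_lit 560140000], [], [nat_lit 15563481225, nat_lit 15889549913, nat_lit 15481466016, nat_lit 15805224624, nat_lit 18148428978, nat_lit 18441224618, nat_lit 18048194455, nat_lit 18338576589], nat_lit 1271250, nat_lit 1271250, nat_lit 230001, nat_lit 279600, nat_lit 1271250, nat_lit 1271250, [nat_lit 1100000, nat_lit 1442500], [nat_lit 31, nat_lit 40, nat_lit 40, nat_lit 80, nat_lit 3, nat_lit 226, nat_lit 20, nat_lit 8]⟩, ⟨p051_k17, nat_lit 0, nat_lit 0, nat_lit 255, nat_lit 0, nat_lit 78401, [nat_lit 871968000, nat_lit 1162500000], [], [nat_lit 7112402292, nat_lit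 6245306922, nat_lit 6765564144, nat_lit 5901039534, nat_lit 3988937391, nat_lit 4263822384, nat_lit 4029035022, nat_lit 4190052213], nat_lit 1271250, nat_lit 1271250, nat_lit 230001, nat_lit 279600, nat_lit 0, nat_lit 2118750, [nat_lit 1100000, nat_lit 1442500], [nat_lit 31, nat_lit 40, nat_lit 40, nat_lit 80, nat_lit 3, nat_lit 317, nat_lit 100, nat_lit 13]⟩,
 ⟨nat_lit 5700, nat_lit 5810, ⟨.ofNat (nat_lit 232187), .ofNat (nat_lit 247711), .ofNat (nat_lit 253526), .ofNat (nat_lit 269050), .ofNat (nat_lit 235806), .ofNat (nat_lit 251150), .ofNat (nat_lit 257148), .ofNat (nat_lit 272492)⟩, ⟨.ofNat (nat_lit 449586), .ofNat (nat_lit 527209), .ofNat (nat_lit 470925), .ofNat (nat_lit 548548), .ofNat (nat_lit 448666), .ofNat (nat_lit 525385), .ofNat (nat_lit 470008), .ofNat (nat_lit 546727)⟩⟩, [⟨nat_lit 0, nat_lit 100, nat_lit 98, nat_lit 64, nat_lit 332820660⟩, ⟨nat_lit 11, nat_lit 100, nat_lit 100, nat_lit 66, nat_lit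 852390⟩]⟩
noncomputable def p051_l136 : Lf2 := ⟨nat_lit 0, nat_lit 1, [nat_lit 19, nat_lit 5, nat_lit 5, nat_lit 20], true, nat_lit 240, nat_lit 280, nat_lit 0, nat_lit 312, ⟨nat_lit 0, nat_lit 0, nat_lit 1000, nat_lit 6, nat_lit 109, nat_lit 1000, nat_lit 199, nat_lit 1000, nat_lit 6867, nat_lit 233, nat_lit 109350, nat_lit 296, nat_lit 48821385, nat_lit 0, nat_lit 0, nat_lit 3966543, false, false⟩,
 nat_lit 0, nat_lit 6281, nat_lit 0, nat_lit 0, nat_lit 3740, nat_lit 0, nat_lit 0, nat_lit 0, nat_lit 0, nat_lit 0, nat_lit 0, nat_lit 0, nat_lit 0, nat_lit 0, nat_lit 37, nat_lit 1000000, nat_lit 0, nat_lit 0, [(nat_lit 9, [(nat_lit 6, nat_lit 1000)])],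
 ⟨p051_k25, nat_lit 0, nat_lit 0, nat_lit 118, nat_lit 0, nat_lit 67879, [nat_lit 1689600001, nat_lit 0], [], [nat_lit 15279497853, nat_lit 15583895994, nat_lit 15201540501, nat_lit 15502764041, nat_lit 17691867341, nat_lit 17966086476, nat_lit 17588881734, nat_lit 17860379756], nat_lit 1271250, nat_lit 1271250, nat_lit 279600, nat_lit 356250, nat_lit 1271250, nat_lit 1271250, [nat_lit 1100000, nat_lit 1442500], [nat_lit 31, nat_lit 40, nat_lit 40, nat_lit 80, nat_lit 3, nat_lit 226, nat_lit 20, nat_lit 8]⟩, C1.Rw.none,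
 ⟨nat_lit 5700, nat_lit 5810, ⟨.ofNat (nat_lit 247711), .ofNat (nat_lit 270998), .ofNat (nat_lit 269050), .ofNat (nat_lit 292337), .ofNat (nat_lit 251150), .ofNat (nat_lit 274166), .ofNat (nat_lit 272492), .ofNat (nat_lit 295508)⟩, ⟨.ofNat (nat_lit 449586), .ofNat (nat_lit 527209), .ofNat (nat_lit 470925), .ofNat (nat_lit 548548), .ofNat (nat_lit 448666), .ofNat (nat_lit 525385), .ofNat (nat_lit 470008), .ofNat (nat_lit 546727)⟩⟩, []⟩
noncomputable def p051_l137 : Lf2 := ⟨nat_lit 0, nat_lit 1, [nat_lit 19, nat_lit 5, nat_lit 5, nat_lit 20], true, nat_lit 240, nat_lit 280, nat_lit 0, nat_lit 336, ⟨nat_lit 0, nat_lit 1000, nat_lit 0, nat_lit 6, nat_lit 121, nat_lit 1000, nat_lit 199, nat_lit 0, nat_lit 0, nat_lit 0, nat_lit 0, nat_lit 0, nat_lit 48022643, nat_lit 5967594, nat_lit 13009763, nat_lit 4121890, false, false⟩,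
 nat_lit 0, nat_lit 8716, nat_lit 0, nat_lit 0, nat_lit 5190, nat_lit 0, nat_lit 0, nat_lit 0, nat_lit 0, nat_lit 0, nat_lit 0, nat_lit 0, nat_lit 0, nat_lit 0, nat_lit 0, nat_lit 1000000, nat_lit 0, nat_lit 0, [(nat_lit 9, [(nat_lit 2, nat_lit 1000)])],
 ⟨p051_k25, nat_lit 0, nat_lit 0, nat_lit 112, nat_lit 0, nat_lit 67879, [nat_lit 2663466667, nat_lit 2329200000], [], [nat_lit 15390414667, nat_lit 15743034907, nat_lit 15058054147, nat_lit 15404078387, nat_lit 18187578281, nat_lit 18501988510, nat_lit 17803169310, nat_lit 18111961382], nat_lit 1271250, nat_lit 1271250, nat_lit 356250, nat_lit 490000, nat_lit 1271250, nat_lit 1271250, [nat_lit 1100000, nat_lit 1442500], [nat_lit 31, nat_lit 40, nat_lit 40, nat_lit 80, nat_lit 3, nat_lit 226, nat_lit 20, nat_lit 8]⟩, C1.Rw.none,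
 ⟨nat_lit 5700, nat_lit 5810, ⟨.ofNat (nat_lit 270998), .ofNat (nat_lit 309809), .ofNat (nat_lit 292337), .ofNat (nat_lit 331148), .ofNat (nat_lit 274166), .ofNat (nat_lit 312525), .ofNat (nat_lit 295508), .ofNat (nat_lit 333867)⟩, ⟨.ofNat (nat_lit 449586), .ofNat (nat_lit 527209), .ofNat (nat_lit 470925), .ofNat (nat_lit 548548), .ofNat (nat_lit 448666), .ofNat (nat_lit 525385), .ofNat (nat_lit 470008), .ofNat (nat_lit 546727)⟩⟩, []⟩
noncomputable def p051_l138 : Lf2 := ⟨nat_lit 0, nat_lit 2, [nat_lit 10, nat_lit 5, nat_lit 5, nat_lit 20], true, nat_lit 240, nat_lit 280, nat_lit 0, nat_lit 336, ⟨nat_lit 0, nat_lit 1000, nat_lit 0, nat_lit 6, nat_lit 113, nat_lit 1000, nat_lit 199, nat_lit 0, nat_lit 0, nat_lit 0, nat_lit 0, nat_lit 0, nat_lit 48525122, nat_lit 5413780, nat_lit 13061098, nat_lit 4025723, false, false⟩,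
 nat_lit 0, nat_lit 8542, nat_lit 0, nat_lit 0, nat_lit 5086, nat_lit 0, nat_lit 0, nat_lit 0, nat_lit 0, nat_lit 0, nat_lit 0, nat_lit 0, nat_lit 0, nat_lit 0, nat_lit 0, nat_lit 400000, nat_lit 0, nat_lit 0, [(nat_lit 9, [(nat_lit 1, nat_lit 1000)])],
 ⟨p051_k26, nat_lit 0, nat_lit 0, nat_lit 119, nat_lit 0, nat_lit 20775, [nat_lit 2702720000, nat_lit 2862800000], [], [nat_lit 15846272888, nat_lit 16201709144, nat_lit 15210590312, nat_lit 15553021768, nat_lit 18665349549, nat_lit 18982222418, nat_lit 17927052565, nat_lit 18232844471], nat_lit 1271250, nat_lit 1271250, nat_lit 230001, nat_lit 490000, nat_lit 1271250, nat_lit 1271250, [nat_lit 1100000, nat_lit 1442500], [nat_lit 31, nat_lit 40, nat_lit 40, nat_lit 80, nat_lit 3, nat_lit 226, nat_lit 20, nat_lit 8]⟩, C1.Rw.none,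
 ⟨nat_lit 5700, nat_lit 5810, ⟨.ofNat (nat_lit 232187), .ofNat (nat_lit 309809), .ofNat (nat_lit 253526), .ofNat (nat_lit 331148), .ofNat (nat_lit 235806), .ofNat (nat_lit 312525), .ofNat (nat_lit 257148), .ofNat (nat_lit 333867)⟩, ⟨.ofNat (nat_lit 449586), .ofNat (nat_lit 527209), .ofNat (nat_lit 470925), .ofNat (nat_lit 548548), .ofNat (nat_lit 448666), .ofNat (nat_lit 525385), .ofNat (nat_lit 470008), .ofNat (nat_lit 546727)⟩⟩, [⟨nat_lit 0, nat_lit 100, nat_lit 98, nat_lit 64, nat_lit 197875759⟩]⟩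
noncomputable def p051_l139 : Lf2 := ⟨nat_lit 0, nat_lit 1, [nat_lit 19, nat_lit 5, nat_lit 5, nat_lit 20], true, nat_lit 240, nat_lit 280, nat_lit 0, nat_lit 312, ⟨nat_lit 0, nat_lit 0, nat_lit 1000, nat_lit 6, nat_lit 105, nat_lit 1000, nat_lit 199, nat_lit 1000, nat_lit 8092, nat_lit 234, nat_lit 104017, nat_lit 294, nat_lit 49100709, nat_lit 0, nat_lit 0, nat_lit 3917250, false, false⟩,
 nat_lit 0, nat_lit 5957, nat_lit 0, nat_lit 0, nat_lit 3627, nat_lit 0, nat_lit 0, nat_lit 0, nat_lit 0, nat_lit 0, nat_lit 0, nat_lit 0, nat_lit 0, nat_lit 0, nat_lit 37, nat_lit 1000000, nat_lit 0, nat_lit 0, [(nat_lit 9, [(nat_lit 6, nat_lit 1000)])],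
 ⟨p051_k27, nat_lit 0, nat_lit 0, nat_lit 120, nat_lit 0, nat_lit 75772, [nat_lit 1689600001, nat_lit 0], [], [nat_lit 15725411609, nat_lit 16330226493, nat_lit 15606069093, nat_lit 16200505377, nat_lit 18091920502, nat_lit 18637129743, nat_lit 17932408132, nat_lit 18468715791], nat_lit 1271250, nat_lit 1271250, nat_lit 230001, nat_lit 356250, nat_lit 1271250, nat_lit 1271250, [nat_lit 1100000, nat_lit 1442500], [nat_lit 31, nat_lit 40, nat_lit 40, nat_lit 80, nat_lit 3, nat_lit 226, nat_lit 20, nat_lit 8]⟩, C1.Rw.none,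
 ⟨nat_lit 5477, nat_lit 5701, ⟨.ofNat (nat_lit 235806), .ofNat (nat_lit 274166), .ofNat (nat_lit 246477), .ofNat (nat_lit 284837), .ofNat (nat_lit 242980), .ofNat (nat_lit 280447), .ofNat (nat_lit 253659), .ofNat (nat_lit 291125)⟩, ⟨.ofNat (nat_lit 448666), .ofNat (nat_lit 525385), .ofNat (nat_lit 470008), .ofNat (nat_lit 546727), .ofNat (nat_lit 446789), .ofNat (nat_lit 521722), .ofNat (nat_lit 468146), .ofNat (nat_lit 543079)⟩⟩, [⟨nat_lit 0, nat_lit 100, nat_lit 95, nat_lit 64, nat_lit 152585202⟩]⟩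
noncomputable def p051_l140 : Lf2 := ⟨nat_lit 0, nat_lit 1, [nat_lit 19, nat_lit 5, nat_lit 5, nat_lit 20], false, nat_lit 240, nat_lit 280, nat_lit 0, nat_lit 300, ⟨nat_lit 210, nat_lit 0, nat_lit 790, nat_lit 6, nat_lit 104, nat_lit 790, nat_lit 199, nat_lit 790, nat_lit 8092, nat_lit 234, nat_lit 101400, nat_lit 293, nat_lit 49136362, nat_lit 0, nat_lit 0, nat_lit 3907066, false, false⟩,
 nat_lit 3093, nat_lit 3987, nat_lit 0, nat_lit 0, nat_lit 4311, nat_lit 1718, nat_lit 0, nat_lit 0, nat_lit 0, nat_lit 527, nat_lit 0, nat_lit 0, nat_lit 0, nat_lit 0, nat_lit 0, nat_lit 790000, nat_lit 0, nat_lit 0, [(nat_lit 9, [(nat_lit 6, nat_lit 790)])],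
 ⟨p051_k27, nat_lit 0, nat_lit 0, nat_lit 121, nat_lit 0, nat_lit 91732, [nat_lit 1851584000, nat_lit 727900000], [], [nat_lit 15950187544, nat_lit 16277455650, nat_lit 15864007549, nat_lit 16188953695, nat_lit 18510787593, nat_lit 18804145800, nat_lit 18406631502, nat_lit 18698005047], nat_lit 1271250, nat_lit 1271250, nat_lit 230001, nat_lit 279600, nat_lit 1271250, nat_lit 1271250, [nat_lit 1100000, nat_lit 1442500], [nat_lit 31, nat_lit 40, nat_lit 40, nat_lit 80, nat_lit 3, nat_lit 226, nat_lit 20, nat_lit 8]⟩, ⟨p051_k15, nat_lit 0, nat_lit 0, nat_lit 252, nat_lit 0, nat_lit 102598, [nat_lit 984480000, nat_lit 1312500000], [], [nat_lit 7507307570, nat_lit 7059959268, nat_lit 7150755225, nat_lit 6704733219, nat_lit 4558439492, nat_lit 4688291270, nat_lit 4508843465, nat_lit 4595319575], nat_lit 1271250, nat_lit 1271250, nat_lit 230001, nat_lit 279600, nat_lit 0, nat_lit 2118750, [nat_lit 1100000, nat_lit 1442500],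 [nat_lit 31, nat_lit 40, nat_lit 40, nat_lit 80, nat_lit 3, nat_lit 317, nat_lit 100, nat_lit 13]⟩,
 ⟨nat_lit 5590, nat_lit 5701, ⟨.ofNat (nat_lit 246477), .ofNat (nat_lit 261821), .ofNat (nat_lit 257148), .ofNat (nat_lit 272492), .ofNat (nat_lit 250077), .ofNat (nat_lit 265242), .ofNat (nat_lit 260751), .ofNat (nat_lit 275916)⟩, ⟨.ofNat (nat_lit 448666), .ofNat (nat_lit 525385), .ofNat (nat_lit 470008), .ofNat (nat_lit 546727), .ofNat (nat_lit 447734), .ofNat (nat_lit 523557), .ofNat (nat_lit 469082), .ofNat (nat_lit 544904)⟩⟩, [⟨nat_lit 0, nat_lit 100, nat_lit 97, nat_lit 63, nat_lit 427822940⟩]⟩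
noncomputable def p051_l141 : Lf2 := ⟨nat_lit 0, nat_lit 1, [nat_lit 19, nat_lit 5, nat_lit 5, nat_lit 20], true, nat_lit 240, nat_lit 260, nat_lit 0, nat_lit 300, ⟨nat_lit 0, nat_lit 0, nat_lit 1000, nat_lit 6, nat_lit 106, nat_lit 1000, nat_lit 191, nat_lit 1000, nat_lit 31723, nat_lit 257, nat_lit 104017, nat_lit 294, nat_lit 49802351, nat_lit 0, nat_lit 0, nat_lit 3846441, false, false⟩,
 nat_lit 0, nat_lit 6152, nat_lit 0, nat_lit 0, nat_lit 3830, nat_lit 0, nat_lit 0, nat_lit 0, nat_lit 0, nat_lit 0, nat_lit 0, nat_lit 0, nat_lit 0, nat_lit 0, nat_lit 37, nat_lit 1000000, nat_lit 0, nat_lit 0, [(nat_lit 9, [(nat_lit 6, nat_lit 1000)])],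
 ⟨p051_k28, nat_lit 0, nat_lit 0, nat_lit 121, nat_lit 0, nat_lit 114984, [nat_lit 1689600001, nat_lit 0], [], [nat_lit 15878137001, nat_lit 16187922681, nat_lit 15816841945, nat_lit 16124478825, nat_lit 17074682119, nat_lit 17414876360, nat_lit 17005223856, nat_lit 17297503787], nat_lit 1271250, nat_lit 1271250, nat_lit 230001, nat_lit 279600, nat_lit 1271250, nat_lit 1271250, [nat_lit 1100000, nat_lit 1442500], [nat_lit 31, nat_lit 40, nat_lit 40, nat_lit 80, nat_lit 3, nat_lit 226, nat_lit 20, nat_lit 8]⟩, C1.Rw.none,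
 ⟨nat_lit 5477, nat_lit 5591, ⟨.ofNat (nat_lit 250077), .ofNat (nat_lit 265242), .ofNat (nat_lit 260751), .ofNat (nat_lit 275916), .ofNat (nat_lit 253659), .ofNat (nat_lit 268646), .ofNat (nat_lit 264337), .ofNat (nat_lit 279324)⟩, ⟨.ofNat (nat_lit 447734), .ofNat (nat_lit 485645), .ofNat (nat_lit 469082), .ofNat (nat_lit 506993), .ofNat (nat_lit 446789), .ofNat (nat_lit 484256), .ofNat (nat_lit 468146), .ofNat (nat_lit 505613)⟩⟩, [⟨nat_lit 0, nat_lit 100, nat_lit 96, nat_lit 69, nat_lit 334457201⟩]⟩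
noncomputable def p051_l142 : Lf2 := ⟨nat_lit 0, nat_lit 1, [nat_lit 19, nat_lit 5, nat_lit 5, nat_lit 20], false, nat_lit 260, nat_lit 280, nat_lit 0, nat_lit 280, ⟨nat_lit 144, nat_lit 0, nat_lit 856, nat_lit 6, nat_lit 106, nat_lit 856, nat_lit 206, nat_lit 856, nat_lit 9275, nat_lit 235, nat_lit 104017, nat_lit 294, nat_lit 48399825, nat_lit 0, nat_lit 0, nat_lit 3987291, false, false⟩,
 nat_lit 2925, nat_lit 3668, nat_lit 0, nat_lit 0, nat_lit 4105, nat_lit 1625, nat_lit 0, nat_lit 0, nat_lit 0, nat_lit 0, nat_lit 0, nat_lit 0, nat_lit 0, nat_lit 0, nat_lit 0, nat_lit 856000, nat_lit 0, nat_lit 0, [(nat_lit 9, [(nat_lit 6, nat_lit 856)])],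
 ⟨p051_k28, nat_lit 0, nat_lit 0, nat_lit 110, nat_lit 0, nat_lit 104695, [nat_lit 1614617600, nat_lit 266560000], [], [nat_lit 17427119712, nat_lit 17609186318, nat_lit 17341731407, nat_lit 17522546738, nat_lit 18661856073, nat_lit 18858106728, nat_lit 18567929400, nat_lit 18739040243], nat_lit 1271250, nat_lit 1271250, nat_lit 230001, nat_lit 279600, nat_lit 1271250, nat_lit 1271250, [nat_lit 1100000, nat_lit 1442500], [nat_lit 31, nat_lit 40, nat_lit 40, nat_lit 80, nat_lit 3, nat_lit 226, nat_lit 20, nat_lit 8]⟩, ⟨p051_k15, nat_lit 0, nat_lit 0, nat_lit 254, nat_lit 0, nat_lit 120267, [nat_lit 675072000, nat_lit 900000000], [], [nat_lit 5239927103, nat_lit 4816794978, nat_lit 4902675903, nat_lit 4480798278, nat_lit 2982785273, nat_lit 3156424002, nat_lit 2890760045, nat_lit 3063246464], nat_lit 1271250, nat_lit 1271250, nat_lit 230001, nat_lit 279600, nat_lit 0, nat_lit 1977500, [nat_lit 1100000, nat_lit 1442500],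 [nat_lit 31, nat_lit 40, nat_lit 40, nat_lit 80, nat_lit 3, nat_lit 317, nat_lit 100, nat_lit 13]⟩,
 ⟨nat_lit 5522, nat_lit 5591, ⟨.ofNat (nat_lit 250077), .ofNat (nat_lit 265242), .ofNat (nat_lit 260751), .ofNat (nat_lit 275916), .ofNat (nat_lit 252228), .ofNat (nat_lit 267286), .ofNat (nat_lit 262905), .ofNat (nat_lit 277962)⟩, ⟨.ofNat (nat_lit 485645), .ofNat (nat_lit 523557), .ofNat (nat_lit 506993), .ofNat (nat_lit 544904), .ofNat (nat_lit 484813), .ofNat (nat_lit 522457), .ofNat (nat_lit 506166), .ofNat (nat_lit 543810)⟩⟩, [⟨nat_lit 0, nat_lit 100, nat_lit 96, nat_lit 65, nat_lit 480009294⟩]⟩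
noncomputable def p051_l143 : Lf2 := ⟨nat_lit 0, nat_lit 1, [nat_lit 19, nat_lit 5, nat_lit 5, nat_lit 20], false, nat_lit 260, nat_lit 280, nat_lit 0, nat_lit 280, ⟨nat_lit 139, nat_lit 0, nat_lit 861, nat_lit 6, nat_lit 106, nat_lit 861, nat_lit 206, nat_lit 861, nat_lit 6704, nat_lit 235, nat_lit 106667, nat_lit 295, nat_lit 48386784, nat_lit 0, nat_lit 0, nat_lit 3993418, false, false⟩,
 nat_lit 2818, nat_lit 4143, nat_lit 0, nat_lit 0, nat_lit 4391, nat_lit 1565, nat_lit 0, nat_lit 0, nat_lit 0, nat_lit 0, nat_lit 0, nat_lit 0, nat_lit 0, nat_lit 0, nat_lit 0, nat_lit 861000, nat_lit 0, nat_lit 0, [(nat_lit 9, [(nat_lit 6, nat_lit 861)])],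
 ⟨p051_k29, nat_lit 0, nat_lit 0, nat_lit 109, nat_lit 0, nat_lit 113181, [nat_lit 1596665601, nat_lit 231610000], [], [nat_lit 17923123698, nat_lit 18029181203, nat_lit 17847259086, nat_lit 17952528391, nat_lit 19066519904, nat_lit 19203957724, nat_lit 18912440556, nat_lit 19037384079], nat_lit 1271250, nat_lit 1271250, nat_lit 230001, nat_lit 279600, nat_lit 1271250, nat_lit 1271250, [nat_lit 1100000, nat_lit 1442500], [nat_lit 31, nat_lit 40, nat_lit 40, nat_lit 80, nat_lit 3, nat_lit 226, nat_lit 20, nat_lit 8]⟩, ⟨p051_k15, nat_lit 0, nat_lit 0, nat_lit 255, nat_lit 0, nat_lit 132085, [nat_lit 651632000, nat_lit 868750000], [], [nat_lit 5057248543, nat_lit 4649739758, nat_lit 4732449695, nat_lit 4326149090, nat_lit 2877363538, nat_lit 3044704082, nat_lit 2788785003, nat_lit 2955015316], nat_lit 1271250, nat_lit 1271250, nat_lit 230001, nat_lit 279600, nat_lit 0, nat_lit 1977500, [nat_lit 1100000, nat_lit 1442500],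 [nat_lit 31, nat_lit 40, nat_lit 40, nat_lit 80, nat_lit 3, nat_lit 317, nat_lit 100, nat_lit 13]⟩,
 ⟨nat_lit 5477, nat_lit 5523, ⟨.ofNat (nat_lit 252228), .ofNat (nat_lit 267286), .ofNat (nat_lit 262905), .ofNat (nat_lit 277962), .ofNat (nat_lit 253659), .ofNat (nat_lit 268646), .ofNat (nat_lit 264337), .ofNat (nat_lit 279324)⟩, ⟨.ofNat (nat_lit 484813), .ofNat (nat_lit 522457), .ofNat (nat_lit 506166), .ofNat (nat_lit 543810), .ofNat (nat_lit 484256), .ofNat (nat_lit 521722), .ofNat (nat_lit 505613), .ofNat (nat_lit 543079)⟩⟩, [⟨nat_lit 0, nat_lit 100, nat_lit 96, nat_lit 66, nat_lit 515666857⟩]⟩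
noncomputable def p051_l144 : Lf2 := ⟨nat_lit 0, nat_lit 1, [nat_lit 19, nat_lit 5, nat_lit 5, nat_lit 20], false, nat_lit 240, nat_lit 280, nat_lit 0, nat_lit 312, ⟨nat_lit 660, nat_lit 0, nat_lit 340, nat_lit 6, nat_lit 113, nat_lit 340, nat_lit 199, nat_lit 340, nat_lit 8092, nat_lit 234, nat_lit 120417, nat_lit 300, nat_lit 48634875, nat_lit 0, nat_lit 0, nat_lit 4011409, false, false⟩,
 nat_lit 9372, nat_lit 0, nat_lit 0, nat_lit 0, nat_lit 5707, nat_lit 5206, nat_lit 0, nat_lit 0, nat_lit 0, nat_lit 2237, nat_lit 0, nat_lit 0, nat_lit 0, nat_lit 0, nat_lit 0, nat_lit 340000, nat_lit 0, nat_lit 0, [(nat_lit 9, [(nat_lit 6, nat_lit 340)])],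
 ⟨p051_k27, nat_lit 0, nat_lit 0, nat_lit 120, nat_lit 0, nat_lit 118096, [nat_lit 3467264001, nat_lit 3873400000], [], [nat_lit 16321148267, nat_lit 17071513471, nat_lit 16074188773, nat_lit 16816080417, nat_lit 19256005362, nat_lit 19922631811, nat_lit 18976240092, nat_lit 19635661391], nat_lit 1271250, nat_lit 1271250, nat_lit 279600, nat_lit 356250, nat_lit 1271250, nat_lit 1271250, [nat_lit 1100000, nat_lit 1442500], [nat_lit 31, nat_lit 40, nat_lit 40, nat_lit 80, nat_lit 3, nat_lit 226, nat_lit 20, nat_lit 8]⟩, ⟨p051_k15, nat_lit 0, nat_lit 0, nat_lit 251, nat_lit 0, nat_lit 132085, [nat_lit 3094080000, nat_lit 4125000000], [], [nat_lit 22474104695, nat_lit 21122538593, nat_lit 20853431082, nat_lit 19507893528, nat_lit 14937376429, nat_lit 15175586073, nat_lit 14711234186, nat_lit 14946020681], nat_lit 1271250, nat_lit 1271250, nat_lit 279600, nat_lit 356250, nat_lit 0, nat_lit 2203500, [nat_lit 1100000,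 nat_lit 1442500], [nat_lit 31, nat_lit 40, nat_lit 40, nat_lit 80, nat_lit 3, nat_lit 317, nat_lit 100, nat_lit 13]⟩,
 ⟨nat_lit 5477, nat_lit 5701, ⟨.ofNat (nat_lit 261821), .ofNat (nat_lit 284837), .ofNat (nat_lit 272492), .ofNat (nat_lit 295508), .ofNat (nat_lit 268646), .ofNat (nat_lit 291125), .ofNat (nat_lit 279324), .ofNat (nat_lit 301804)⟩, ⟨.ofNat (nat_lit 448666), .ofNat (nat_lit 525385), .ofNat (nat_lit 470008), .ofNat (nat_lit 546727), .ofNat (nat_lit 446789), .ofNat (nat_lit 521722), .ofNat (nat_lit 468146), .ofNat (nat_lit 543079)⟩⟩, [⟨nat_lit 11, nat_lit 100, nat_lit 100, nat_lit 73, nat_lit 16475780⟩]⟩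
noncomputable def p051_l145 : Lf2 := ⟨nat_lit 0, nat_lit 2, [nat_lit 10, nat_lit 5, nat_lit 5, nat_lit 20], true, nat_lit 240, nat_lit 280, nat_lit 0, nat_lit 312, ⟨nat_lit 0, nat_lit 1000, nat_lit 0, nat_lit 6, nat_lit 107, nat_lit 1000, nat_lit 199, nat_lit 0, nat_lit 0, nat_lit 0, nat_lit 0, nat_lit 0, nat_lit 48982405, nat_lit 4970766, nat_lit 13046829, nat_lit 3938945, false, false⟩,
 nat_lit 0, nat_lit 8278, nat_lit 0, nat_lit 0, nat_lit 5041, nat_lit 0, nat_lit 0, nat_lit 0, nat_lit 0, nat_lit 0, nat_lit 0, nat_lit 0, nat_lit 0, nat_lit 0, nat_lit 0, nat_lit 400000, nat_lit 0, nat_lit 0, [(nat_lit 9, [(nat_lit 1, nat_lit 1000)])],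
 ⟨p051_k30, nat_lit 0, nat_lit 0, nat_lit 118, nat_lit 0, nat_lit 44264, [nat_lit 2702720000, nat_lit 2862800000], [], [nat_lit 16236525464, nat_lit 16590326150, nat_lit 15918504636, nat_lit 16265843422, nat_lit 19004269583, nat_lit 19319777085, nat_lit 18636217311, nat_lit 18946217941], nat_lit 1271250, nat_lit 1271250, nat_lit 230001, nat_lit 356250, nat_lit 1271250, nat_lit 1271250, [nat_lit 1100000, nat_lit 1442500], [nat_lit 31, nat_lit 40, nat_lit 40, nat_lit 80, nat_lit 3, nat_lit 226, nat_lit 20, nat_lit 8]⟩, C1.Rw.none,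
 ⟨nat_lit 5590, nat_lit 5701, ⟨.ofNat (nat_lit 235806), .ofNat (nat_lit 274166), .ofNat (nat_lit 257148), .ofNat (nat_lit 295508), .ofNat (nat_lit 239403), .ofNat (nat_lit 277315), .ofNat (nat_lit 260751), .ofNat (nat_lit 298663)⟩, ⟨.ofNat (nat_lit 448666), .ofNat (nat_lit 525385), .ofNat (nat_lit 470008), .ofNat (nat_lit 546727), .ofNat (nat_lit 447734), .ofNat (nat_lit 523557), .ofNat (nat_lit 469082), .ofNat (nat_lit 544904)⟩⟩, [⟨nat_lit 0, nat_lit 100, nat_lit 97, nat_lit 67, nat_lit 194772351⟩]⟩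
noncomputable def p051_l146 : Lf2 := ⟨nat_lit 0, nat_lit 2, [nat_lit 10, nat_lit 5, nat_lit 5, nat_lit 20], true, nat_lit 240, nat_lit 280, nat_lit 0, nat_lit 312, ⟨nat_lit 0, nat_lit 1000, nat_lit 0, nat_lit 6, nat_lit 108, nat_lit 1000, nat_lit 198, nat_lit 0, nat_lit 0, nat_lit 0, nat_lit 0, nat_lit 0, nat_lit 48948305, nat_lit 5065787, nat_lit 12985908, nat_lit 3951195, false, false⟩,
 nat_lit 0, nat_lit 8025, nat_lit 0, nat_lit 0, nat_lit 4996, nat_lit 0, nat_lit 0, nat_lit 0, nat_lit 0, nat_lit 0, nat_lit 0, nat_lit 0, nat_lit 0, nat_lit 0, nat_lit 0, nat_lit 400000, nat_lit 0, nat_lit 0, [(nat_lit 9, [(nat_lit 1, nat_lit 1000)])],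
 ⟨p051_k31, nat_lit 0, nat_lit 0, nat_lit 117, nat_lit 0, nat_lit 69029, [nat_lit 2702720000, nat_lit 2862800000], [], [nat_lit 16623506900, nat_lit 16975672016, nat_lit 16305387532, nat_lit 16651131248, nat_lit 19340458882, nat_lit 19654601016, nat_lit 18973570049, nat_lit 19282238920], nat_lit 1271250, nat_lit 1271250, nat_lit 230001, nat_lit 356250, nat_lit 1271250, nat_lit 1271250, [nat_lit 1100000, nat_lit 1442500], [nat_lit 31, nat_lit 40, nat_lit 40, nat_lit 80, nat_lit 3, nat_lit 226, nat_lit 20, nat_lit 8]⟩, C1.Rw.none,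
 ⟨nat_lit 5477, nat_lit 5591, ⟨.ofNat (nat_lit 239403), .ofNat (nat_lit 277315), .ofNat (nat_lit 260751), .ofNat (nat_lit 298663), .ofNat (nat_lit 242980), .ofNat (nat_lit 280447), .ofNat (nat_lit 264337), .ofNat (nat_lit 301804)⟩, ⟨.ofNat (nat_lit 447734), .ofNat (nat_lit 523557), .ofNat (nat_lit 469082), .ofNat (nat_lit 544904), .ofNat (nat_lit 446789), .ofNat (nat_lit 521722), .ofNat (nat_lit 468146), .ofNat (nat_lit 543079)⟩⟩, [⟨nat_lit 0, nat_lit 100, nat_lit 96, nat_lit 69, nat_lit 194885573⟩]⟩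
noncomputable def p051_l147 : Lf2 := ⟨nat_lit 0, nat_lit 2, [nat_lit 10, nat_lit 5, nat_lit 5, nat_lit 20], true, nat_lit 240, nat_lit 280, nat_lit 0, nat_lit 336, ⟨nat_lit 0, nat_lit 0, nat_lit 1000, nat_lit 6, nat_lit 123, nat_lit 1000, nat_lit 199, nat_lit 1000, nat_lit 8092, nat_lit 234, nat_lit 141067, nat_lit 307, nat_lit 47981189, nat_lit 0, nat_lit 0, nat_lit 4135847, false, false⟩,
 nat_lit 0, nat_lit 6116, nat_lit 0, nat_lit 0, nat_lit 3724, nat_lit 0, nat_lit 0, nat_lit 0, nat_lit 0, nat_lit 0, nat_lit 0, nat_lit 0, nat_lit 0, nat_lit 0, nat_lit 37, nat_lit 1000000, nat_lit 0, nat_lit 0, [(nat_lit 9, [(nat_lit 6, nat_lit 1000)])],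
 ⟨p051_k30, nat_lit 0, nat_lit 0, nat_lit 114, nat_lit 0, nat_lit 119535, [nat_lit 1689600001, nat_lit 0], [], [nat_lit 15517391305, nat_lit 16118704113, nat_lit 15384419513, nat_lit 15975179121, nat_lit 17870578464, nat_lit 18412627481, nat_lit 17696760315, nat_lit 18229762857], nat_lit 1271250, nat_lit 1271250, nat_lit 356250, nat_lit 490000, nat_lit 1271250, nat_lit 1271250, [nat_lit 1100000, nat_lit 1442500], [nat_lit 31, nat_lit 40, nat_lit 40, nat_lit 80, nat_lit 3, nat_lit 226, nat_lit 20, nat_lit 8]⟩, C1.Rw.none,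
 ⟨nat_lit 5477, nat_lit 5701, ⟨.ofNat (nat_lit 274166), .ofNat (nat_lit 312525), .ofNat (nat_lit 295508), .ofNat (nat_lit 333867), .ofNat (nat_lit 280447), .ofNat (nat_lit 317913), .ofNat (nat_lit 301804), .ofNat (nat_lit 339271)⟩, ⟨.ofNat (nat_lit 448666), .ofNat (nat_lit 525385), .ofNat (nat_lit 470008), .ofNat (nat_lit 546727), .ofNat (nat_lit 446789), .ofNat (nat_lit 521722), .ofNat (nat_lit 468146), .ofNat (nat_lit 543079)⟩⟩, []⟩
noncomputable def p051_l148 : Lf2 := ⟨nat_lit 0, nat_lit 3, [nat_lit 45, nat_lit 5, nat_lit 5, nat_lit 20], true, nat_lit 240, nat_lit 280, nat_lit 0, nat_lit 336, ⟨nat_lit 0, nat_lit 1000, nat_lit 0, nat_lit 6, nat_lit 114, nat_lit 1000, nat_lit 199, nat_lit 0, nat_lit 0, nat_lit 0, nat_lit 0, nat_lit 0, nat_lit 48510789, nat_lit 5458728, nat_lit 13030483, nat_lit 4030982, false, false⟩,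
 nat_lit 0, nat_lit 8584, nat_lit 0, nat_lit 0, nat_lit 4996, nat_lit 0, nat_lit 0, nat_lit 0, nat_lit 0, nat_lit 0, nat_lit 0, nat_lit 0, nat_lit 0, nat_lit 0, nat_lit 0, nat_lit 400000, nat_lit 0, nat_lit 0, [(nat_lit 9, [(nat_lit 1, nat_lit 1000)])],
 ⟨p051_k13, nat_lit 0, nat_lit 0, nat_lit 122, nat_lit 0, nat_lit 32601, [nat_lit 2702720000, nat_lit 2862800001, nat_lit 3030799999], [], [nat_lit 15567011552, nat_lit 16975672016, nat_lit 14969301216, nat_lit 16326590480, nat_lit 18398032480, nat_lit 19654601016, nat_lit 17697094388, nat_lit 18909876824], nat_lit 1271250, nat_lit 1271250, nat_lit 230001, nat_lit 490000, nat_lit 1271250, nat_lit 1271250, [nat_lit 1100000, nat_lit 1442500, nat_lit 1271250], [nat_lit 9, nat_lit 40, nat_lit 40, nat_lit 80, nat_lit 2, nat_lit 226, nat_lit 20, nat_lit 7]⟩, C1.Rw.none,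
 ⟨nat_lit 5477, nat_lit 5917, ⟨.ofNat (nat_lit 228543), .ofNat (nat_lit 307076), .ofNat (nat_lit 249882), .ofNat (nat_lit 328416), .ofNat (nat_lit 242980), .ofNat (nat_lit 317913), .ofNat (nat_lit 264337), .ofNat (nat_lit 339271)⟩, ⟨.ofNat (nat_lit 450496), .ofNat (nat_lit 529030), .ofNat (nat_lit 471836), .ofNat (nat_lit 550369), .ofNat (nat_lit 446789), .ofNat (nat_lit 521722), .ofNat (nat_lit 468146), .ofNat (nat_lit 543079)⟩⟩, [⟨nat_lit 0, nat_lit 100, nat_lit 96, nat_lit 69, nat_lit 194769639⟩]⟩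
noncomputable def p051_l149 : Lf2 := ⟨nat_lit 0, nat_lit 3, [nat_lit 45, nat_lit 5, nat_lit 5, nat_lit 20], true, nat_lit 240, nat_lit 280, nat_lit 0, nat_lit 336, ⟨nat_lit 0, nat_lit 1000, nat_lit 0, nat_lit 6, nat_lit 114, nat_lit 1000, nat_lit 208, nat_lit 0, nat_lit 0, nat_lit 0, nat_lit 0, nat_lit 0, nat_lit 47725578, nat_lit 5425777, nat_lit 13848645, nat_lit 4107430, false, false⟩,
 nat_lit 0, nat_lit 8526, nat_lit 0, nat_lit 0, nat_lit 4962, nat_lit 0, nat_lit 0, nat_lit 0, nat_lit 0, nat_lit 0, nat_lit 0, nat_lit 0, nat_lit 0, nat_lit 0, nat_lit 0, nat_lit 1000000, nat_lit 0, nat_lit 0, [(nat_lit 9, [(nat_lit 2, nat_lit 1000)])],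
 ⟨p051_k13, nat_lit 0, nat_lit 0, nat_lit 124, nat_lit 0, nat_lit 57547, [nat_lit 2663466667, nat_lit 2329200000, nat_lit 1646800000], [], [nat_lit 15556535411, nat_lit 16960252819, nat_lit 14968257219, nat_lit 16320848227, nat_lit 18377500227, nat_lit 19629942319, nat_lit 17686489353, nat_lit 18895348495], nat_lit 1271250, nat_lit 1271250, nat_lit 230001, nat_lit 490000, nat_lit 1271250, nat_lit 1271250, [nat_lit 1100000, nat_lit 1442500, nat_lit 1271250], [nat_lit 9, nat_lit 40, nat_lit 40, nat_lit 80, nat_lit 2, nat_lit 226, nat_lit 20, nat_lit 7]⟩, C1.Rw.none,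
 ⟨nat_lit 5477, nat_lit 5917, ⟨.ofNat (nat_lit 228543), .ofNat (nat_lit 307076), .ofNat (nat_lit 249882), .ofNat (nat_lit 328416), .ofNat (nat_lit 242980), .ofNat (nat_lit 317913), .ofNat (nat_lit 264337), .ofNat (nat_lit 339271)⟩, ⟨.ofNat (nat_lit 471836), .ofNat (nat_lit 550369), .ofNat (nat_lit 493175), .ofNat (nat_lit 571704), .ofNat (nat_lit 468146), .ofNat (nat_lit 543079), .ofNat (nat_lit 489503), .ofNat (nat_lit 564432)⟩⟩, [⟨nat_lit 0, nat_lit 100, nat_lit 96, nat_lit 69, nat_lit 192832111⟩]⟩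
noncomputable def b_V_600_600_20_16 : St := ⟨true, nat_lit 1, nat_lit 1, nat_lit 1, nat_lit 120, nat_lit 260, nat_lit 280, nat_lit 240, nat_lit 260, nat_lit 24, nat_lit 80, nat_lit 80, nat_lit 120, nat_lit 240, nat_lit 280, nat_lit 0, nat_lit 336, nat_lit 0, nat_lit 12, nat_lit 0, nat_lit 0, nat_lit 0, nat_lit 0⟩
theorem d_V_600_600_20_16 (h : EB TB.env) : Dead b_V_600_600_20_16 := chkB_sound0 h (T :=
(.spl (nat_lit 2) (nat_lit 40)
(.trX (nat_lit 23) (nat_lit 100) (nat_lit 92) (nat_lit 61) (nat_lit 288) (.spl (nat_lit 3) (nat_lit 100)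
(.spl (nat_lit 1) (nat_lit 250)
(.leaf p051_l130)
(.trZ (nat_lit 0) (nat_lit 100) (nat_lit 99) (nat_lit 55) (nat_lit 28) (.spl (nat_lit 0) (nat_lit 270)
(.leaf p051_l131)
(.trZ (nat_lit 0) (nat_lit 100) (nat_lit 97) (nat_lit 59) (nat_lit 36) (.leaf p051_l132)))))
(.leaf p051_l133)))
(.spl (nat_lit 3) (nat_lit 100)
(.spl (nat_lit 6) (nat_lit 8)
(.spl (nat_lit 0) (nat_lit 270)
(.spl (nat_lit 0) (nat_lit 265)
(.leaf p051_l134)
(.spl (nat_lit 6) (nat_lit 4)
(.spl (nat_lit 2) (nat_lit 60)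
(.trX (nat_lit 23) (nat_lit 100) (nat_lit 85) (nat_lit 73) (nat_lit 312) (.spl (nat_lit 2) (nat_lit 48)
(.trX (nat_lit 23) (nat_lit 100) (nat_lit 89) (nat_lit 66) (nat_lit 300) (.leaf p051_l135))
(.leaf p051_l136)))
(.leaf p051_l137))
(.leaf p051_l138)))
(.spl (nat_lit 2) (nat_lit 60)
(.trX (nat_lit 23) (nat_lit 100) (nat_lit 85) (nat_lit 73) (nat_lit 312) (.spl (nat_lit 6) (nat_lit 4)
(.spl (nat_lit 1) (nat_lit 250)
(.leaf p051_l139)
(.spl (nat_lit 2) (nat_lit 48)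
(.trX (nat_lit 23) (nat_lit 100) (nat_lit 89) (nat_lit 66) (nat_lit 300) (.spl (nat_lit 0) (nat_lit 275)
(.leaf p051_l140)
(.spl (nat_lit 4) (nat_lit 260)
(.leaf p051_l141)
(.trX (nat_lit 23) (nat_lit 100) (nat_lit 96) (nat_lit 68) (nat_lit 280) (.spl (nat_lit 0) (nat_lit 278)
(.leaf p051_l142)
(.leaf p051_l143))))))
(.leaf p051_l144)))
(.spl (nat_lit 0) (nat_lit 275)
(.leaf p051_l145)
(.leaf p051_l146))))
(.leaf p051_l147)))
(.leaf p051_l148))
(.leaf p051_l149)))) (by decide +kernel)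
noncomputable def p051_l150 : Lf2 := ⟨nat_lit 0, nat_lit 3, [nat_lit 45, nat_lit 5, nat_lit 5, nat_lit 20], true, nat_lit 280, nat_lit 320, nat_lit 0, nat_lit 300, ⟨nat_lit 0, nat_lit 1000, nat_lit 0, nat_lit 6, nat_lit 108, nat_lit 1000, nat_lit 234, nat_lit 0, nat_lit 0, nat_lit 0, nat_lit 0, nat_lit 0, nat_lit 45641465, nat_lit 4888669, nat_lit 16469866, nat_lit 4237117, false, false⟩,
 nat_lit 0, nat_lit 0, nat_lit 0, nat_lit 3623, nat_lit 0, nat_lit 0, nat_lit 0, nat_lit 0, nat_lit 336, nat_lit 0, nat_lit 0, nat_lit 0, nat_lit 0, nat_lit 0, nat_lit 0, nat_lit 512200, nat_lit 0, nat_lit 0, [(nat_lit 9, [(nat_lit 1, nat_lit 813), (nat_lit 2, nat_lit 187)])],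
 ⟨p051_k32, nat_lit 0, nat_lit 0, nat_lit 0, nat_lit 0, nat_lit 135619, [nat_lit 1390989067, nat_lit 2629576534, nat_lit 2763016801, nat_lit 2771991999], [], [nat_lit 15023448000, nat_lit 15740877200, nat_lit 16019503067, nat_lit 16693271067, nat_lit 16525071600, nat_lit 17202871200, nat_lit 17447660000, nat_lit 18109084000], nat_lit 1271250, nat_lit 1271250, nat_lit 134400, nat_lit 490000, nat_lit 1271250, nat_lit 1271250, [nat_lit 490000, nat_lit 1100000, nat_lit 1442500, nat_lit 1271250], [nat_lit 98, nat_lit 40, nat_lit 40, nat_lit 80]⟩, C1.Rw.none,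
 ⟨nat_lit 5477, nat_lit 5917, ⟨.ofNat (nat_lit 197129), .ofNat (nat_lit 307076), .ofNat (nat_lit 218469), .ofNat (nat_lit 328416), .ofNat (nat_lit 213007), .ofNat (nat_lit 317913), .ofNat (nat_lit 234364), .ofNat (nat_lit 339271)⟩, ⟨.ofNat (nat_lit 529030), .ofNat (nat_lit 607556), .ofNat (nat_lit 571704), .ofNat (nat_lit 650219), .ofNat (nat_lit 521722), .ofNat (nat_lit 596648), .ofNat (nat_lit 564432), .ofNat (nat_lit 639346)⟩⟩, [⟨nat_lit 0, nat_lit 100, nat_lit 97, nat_lit 59, nat_lit 16423224⟩]⟩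
noncomputable def p051_l151 : Lf2 := ⟨nat_lit 0, nat_lit 1, [nat_lit 19, nat_lit 5, nat_lit 5, nat_lit 20], false, nat_lit 280, nat_lit 320, nat_lit 0, nat_lit 160, ⟨nat_lit 1000, nat_lit 0, nat_lit 0, nat_lit 0, nat_lit 0, nat_lit 0, nat_lit 0, nat_lit 0, nat_lit 0, nat_lit 0, nat_lit 0, nat_lit 0, nat_lit 0, nat_lit 0, nat_lit 0, nat_lit 0, false, false⟩,
 nat_lit 16562, nat_lit 0, nat_lit 0, nat_lit 14378, nat_lit 6472, nat_lit 8767, nat_lit 3173, nat_lit 0, nat_lit 0, nat_lit 0, nat_lit 0, nat_lit 0, nat_lit 0, nat_lit 0, nat_lit 0, nat_lit 0, nat_lit 0, nat_lit 0, [],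
 ⟨p051_k33, nat_lit 0, nat_lit 0, nat_lit 0, nat_lit 0, nat_lit 62515, [nat_lit 4688000000, nat_lit 6250000000], [], [nat_lit 22032568611, nat_lit 23243255559, nat_lit 20189397008, nat_lit 21342768096, nat_lit 24783033860, nat_lit 25842126055, nat_lit 22805320208, nat_lit 23816738144], nat_lit 1271250, nat_lit 1271250, nat_lit 134400, nat_lit 490000, nat_lit 1271250, nat_lit 1271250, [nat_lit 1100000, nat_lit 1442500], [nat_lit 31, nat_lit 40, nat_lit 40, nat_lit 80]⟩, ⟨p051_k17, nat_lit 0, nat_lit 0, nat_lit 0, nat_lit 0, nat_lit 70417, [nat_lit 4688000000, nat_lit 6250000000], [], [nat_lit 17842965780, nat_lit 18498235325, nat_lit 13984524992, nat_lit 14508018394, nat_lit 12920053956, nat_lit 13372319554, nat_lit 13920448832, nat_lit 12812378935], nat_lit 1271250, nat_lit 1271250, nat_lit 134400, nat_lit 490000, nat_lit 0, nat_lit 1100001, [nat_lit 1100000, nat_lit 1442500], [nat_lit 31, nat_lit 40, nat_lit 40,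 nat_lit 80]⟩,
 zbF0, [⟨nat_lit 0, nat_lit 100, nat_lit 94, nat_lit 61, nat_lit 919777386⟩, ⟨nat_lit 4, nat_lit 82, nat_lit 100, nat_lit 92, nat_lit 611969117⟩]⟩
noncomputable def p051_l152 : Lf2 := ⟨nat_lit 0, nat_lit 1, [nat_lit 19, nat_lit 5, nat_lit 5, nat_lit 20], false, nat_lit 280, nat_lit 320, nat_lit 0, nat_lit 160, ⟨nat_lit 1000, nat_lit 0, nat_lit 0, nat_lit 0, nat_lit 0, nat_lit 0, nat_lit 0, nat_lit 0, nat_lit 0, nat_lit 0, nat_lit 0, nat_lit 0, nat_lit 0, nat_lit 0, nat_lit 0, nat_lit 0, false, false⟩,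
 nat_lit 15383, nat_lit 0, nat_lit 0, nat_lit 14923, nat_lit 6472, nat_lit 8344, nat_lit 2917, nat_lit 0, nat_lit 0, nat_lit 2730, nat_lit 0, nat_lit 0, nat_lit 0, nat_lit 0, nat_lit 0, nat_lit 0, nat_lit 0, nat_lit 0, [],
 ⟨p051_k33, nat_lit 0, nat_lit 0, nat_lit 0, nat_lit 0, nat_lit 85025, [nat_lit 4688000000, nat_lit 6250000000], [], [nat_lit 22244568611, nat_lit 23358763503, nat_lit 20365937015, nat_lit 21427626431, nat_lit 24783230521, nat_lit 25842126055, nat_lit 22805320208, nat_lit 23816738144], nat_lit 1271250, nat_lit 1271250, nat_lit 134400, nat_lit 490000, nat_lit 1271250, nat_lit 1271250, [nat_lit 1100000, nat_lit 1442500], [nat_lit 31, nat_lit 40, nat_lit 40, nat_lit 80]⟩, ⟨p051_k34, nat_lit 0, nat_lit 0, nat_lit 0, nat_lit 0, nat_lit 92878, [nat_lit 4688000000, nat_lit 6250000000], [], [nat_lit 17925050506, nat_lit 18716170497, nat_lit 14558364242, nat_lit 15064999190, nat_lit 13590998633, nat_lit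 14029265469, nat_lit 13117677670, nat_lit 12063071166], nat_lit 1271250, nat_lit 1271250, nat_lit 134400, nat_lit 490000, nat_lit 0, nat_lit 1100001, [nat_lit 1100000, nat_lit 1442500], [nat_lit 31, nat_lit 40, nat_lit 40, nat_lit 80]⟩,
 zbF0, [⟨nat_lit 0, nat_lit 100, nat_lit 96, nat_lit 58, nat_lit 1008666330⟩, ⟨nat_lit 4, nat_lit 82, nat_lit 100, nat_lit 92, nat_lit 604997740⟩]⟩
noncomputable def p051_l153 : Lf2 := ⟨nat_lit 0, nat_lit 2, [nat_lit 10, nat_lit 5, nat_lit 5, nat_lit 20], false, nat_lit 280, nat_lit 320, nat_lit 0, nat_lit 160, ⟨nat_lit 1000, nat_lit 0, nat_lit 0, nat_lit 0, nat_lit 0, nat_lit 0, nat_lit 0, nat_lit 0, nat_lit 0, nat_lit 0, nat_lit 0, nat_lit 0, nat_lit 0, nat_lit 0, nat_lit 0, nat_lit 0, false, false⟩,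
 nat_lit 16320, nat_lit 0, nat_lit 0, nat_lit 17813, nat_lit 6911, nat_lit 8640, nat_lit 1545, nat_lit 0, nat_lit 0, nat_lit 3337, nat_lit 0, nat_lit 0, nat_lit 0, nat_lit 0, nat_lit 0, nat_lit 0, nat_lit 0, nat_lit 0, [],
 ⟨p051_k10, nat_lit 0, nat_lit 0, nat_lit 0, nat_lit 0, nat_lit 31427, [nat_lit 4688000000, nat_lit 6250000000], [], [nat_lit 22794687423, nat_lit 23945311589, nat_lit 20725092320, nat_lit 21820695803, nat_lit 25424443238, nat_lit 26428138303, nat_lit 23225609407, nat_lit 24183558395], nat_lit 1271250, nat_lit 1271250, nat_lit 134400, nat_lit 490000, nat_lit 1271250, nat_lit 1271250, [nat_lit 1100000, nat_lit 1442500], [nat_lit 31, nat_lit 40, nat_lit 40, nat_lit 80]⟩, ⟨p051_k35, nat_lit 0, nat_lit 0, nat_lit 0, nat_lit 0, nat_lit 35416, [nat_lit 4688000000, nat_lit 6250000000, nat_lit 7968000000], [], [nat_lit 17976626301, nat_lit 19136745653, nat_lit 14171192640, nat_lit 15208056400, nat_lit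 13156402785, nat_lit 14052528105, nat_lit 14162549440, nat_lit 11978512960], nat_lit 1271250, nat_lit 1271250, nat_lit 134400, nat_lit 490000, nat_lit 0, nat_lit 1100001, [nat_lit 1100000, nat_lit 1442500, nat_lit 1271250], [nat_lit 9, nat_lit 40, nat_lit 40, nat_lit 80]⟩,
 zbF0, [⟨nat_lit 0, nat_lit 100, nat_lit 95, nat_lit 64, nat_lit 965048407⟩, ⟨nat_lit 4, nat_lit 82, nat_lit 100, nat_lit 92, nat_lit 613170625⟩]⟩
noncomputable def p051_l154 : Lf2 := ⟨nat_lit 0, nat_lit 2, [nat_lit 10, nat_lit 5, nat_lit 5, nat_lit 20], false, nat_lit 280, nat_lit 320, nat_lit 0, nat_lit 160, ⟨nat_lit 1000, nat_lit 0, nat_lit 0, nat_lit 0, nat_lit 0, nat_lit 0, nat_lit 0, nat_lit 0, nat_lit 0, nat_lit 0, nat_lit 0, nat_lit 0, nat_lit 0, nat_lit 0, nat_lit 0, nat_lit 0, false, false⟩,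
 nat_lit 14116, nat_lit 0, nat_lit 0, nat_lit 20803, nat_lit 7598, nat_lit 7842, nat_lit 576, nat_lit 0, nat_lit 0, nat_lit 7151, nat_lit 0, nat_lit 0, nat_lit 0, nat_lit 0, nat_lit 0, nat_lit 0, nat_lit 0, nat_lit 0, [],
 ⟨p051_k10, nat_lit 0, nat_lit 0, nat_lit 0, nat_lit 0, nat_lit 134068, [nat_lit 4688000000, nat_lit 6250000000], [], [nat_lit 22398973527, nat_lit 23779145179, nat_lit 20311552010, nat_lit 21460228304, nat_lit 25658723061, nat_lit 26908165068, nat_lit 23007827300, nat_lit 24208573992], nat_lit 1271250, nat_lit 1271250, nat_lit 157850, nat_lit 490000, nat_lit 1271250, nat_lit 1271250, [nat_lit 1100000, nat_lit 1442500], [nat_lit 31, nat_lit 40, nat_lit 40, nat_lit 80]⟩, ⟨p051_k11, nat_lit 0, nat_lit 0, nat_lit 0, nat_lit 0, nat_lit 142151, [nat_lit 4688000000, nat_lit 7968000000], [], [nat_lit 17814947667, nat_lit 18901985260, nat_lit 14949379568, nat_lit 15824660032, nat_lit 13456367037, nat_lit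 14214261832, nat_lit 13732699850, nat_lit 12219534988], nat_lit 1271250, nat_lit 1271250, nat_lit 157850, nat_lit 490000, nat_lit 0, nat_lit 1100001, [nat_lit 1100000, nat_lit 1785000], [nat_lit 39, nat_lit 40, nat_lit 40, nat_lit 80]⟩,
 zbF0, [⟨nat_lit 0, nat_lit 100, nat_lit 96, nat_lit 69, nat_lit 1041538544⟩, ⟨nat_lit 4, nat_lit 82, nat_lit 100, nat_lit 92, nat_lit 649299754⟩]⟩
noncomputable def p051_l155 : Lf2 := ⟨nat_lit 0, nat_lit 3, [nat_lit 45, nat_lit 5, nat_lit 5, nat_lit 20], false, nat_lit 280, nat_lit 320, nat_lit 0, nat_lit 160, ⟨nat_lit 1000, nat_lit 0, nat_lit 0, nat_lit 0, nat_lit 0, nat_lit 0, nat_lit 0, nat_lit 0, nat_lit 0, nat_lit 0, nat_lit 0, nat_lit 0, nat_lit 0, nat_lit 0, nat_lit 0, nat_lit 0, false, false⟩,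
 nat_lit 21174, nat_lit 0, nat_lit 0, nat_lit 18523, nat_lit 6866, nat_lit 11209, nat_lit 2721, nat_lit 0, nat_lit 0, nat_lit 0, nat_lit 0, nat_lit 0, nat_lit 0, nat_lit 0, nat_lit 0, nat_lit 0, nat_lit 0, nat_lit 0, [],
 ⟨p051_k36, nat_lit 0, nat_lit 0, nat_lit 0, nat_lit 0, nat_lit 34578, [nat_lit 4688000000, nat_lit 7968000000], [], [nat_lit 22914533498, nat_lit 23951162812, nat_lit 20797494102, nat_lit 21785472728, nat_lit 25295606924, nat_lit 26367523522, nat_lit 23063825136, nat_lit 23927355752], nat_lit 1271250, nat_lit 1271250, nat_lit 134400, nat_lit 490000, nat_lit 1271250, nat_lit 1271250, [nat_lit 1100000, nat_lit 1785000], [nat_lit 39, nat_lit 40, nat_lit 40, nat_lit 80]⟩, ⟨p051_k37, nat_lit 0, nat_lit 0, nat_lit 0, nat_lit 0, nat_lit 38985, [nat_lit 4688000000, nat_lit 7968000000], [], [nat_lit 24070339506, nat_lit 26855370939, nat_lit 18551607904, nat_lit 21230924710, nat_lit 15328849550, nat_lit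 17655941649, nat_lit 16375850712, nat_lit 13252386964], nat_lit 1271250, nat_lit 1271250, nat_lit 134400, nat_lit 490000, nat_lit 0, nat_lit 1100001, [nat_lit 1100000, nat_lit 1785000], [nat_lit 39, nat_lit 40, nat_lit 40, nat_lit 80]⟩,
 zbF0, [⟨nat_lit 0, nat_lit 100, nat_lit 96, nat_lit 69, nat_lit 1432242038⟩, ⟨nat_lit 4, nat_lit 82, nat_lit 100, nat_lit 92, nat_lit 599336719⟩]⟩
noncomputable def p051_l156 : Lf2 := ⟨nat_lit 0, nat_lit 3, [nat_lit 45, nat_lit 5, nat_lit 5, nat_lit 20], false, nat_lit 280, nat_lit 320, nat_lit 160, nat_lit 200, ⟨nat_lit 1000, nat_lit 0, nat_lit 0, nat_lit 0, nat_lit 0, nat_lit 0, nat_lit 0, nat_lit 0, nat_lit 0, nat_lit 0, nat_lit 0, nat_lit 0, nat_lit 0, nat_lit 0, nat_lit 0, nat_lit 0, false, false⟩,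
 nat_lit 11120, nat_lit 0, nat_lit 19973, nat_lit 0, nat_lit 6472, nat_lit 16460, nat_lit 3557, nat_lit 0, nat_lit 0, nat_lit 0, nat_lit 0, nat_lit 0, nat_lit 0, nat_lit 0, nat_lit 0, nat_lit 0, nat_lit 0, nat_lit 0, [],
 ⟨p051_k36, nat_lit 0, nat_lit 0, nat_lit 0, nat_lit 0, nat_lit 135619, [nat_lit 4688000000, nat_lit 7968000000], [], [nat_lit 22032545260, nat_lit 23243255559, nat_lit 20189397008, nat_lit 21342768096, nat_lit 24783033860, nat_lit 25842126055, nat_lit 22805320208, nat_lit 23816738144], nat_lit 1271250, nat_lit 1271250, nat_lit 134400, nat_lit 490000, nat_lit 1271250, nat_lit 1271250, [nat_lit 1100000, nat_lit 1785000], [nat_lit 39, nat_lit 40, nat_lit 40, nat_lit 80]⟩, ⟨p051_k37, nat_lit 0, nat_lit 0, nat_lit 0, nat_lit 0, nat_lit 152907, [nat_lit 4688000000, nat_lit 7968000000], [], [nat_lit 11197753425, nat_lit 14293323072, nat_lit 8250285280, nat_lit 7351292160, nat_lit 14273444440, nat_lit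 17056249081, nat_lit 15883113760, nat_lit 10018371940], nat_lit 1271250, nat_lit 1271250, nat_lit 134400, nat_lit 490000, nat_lit 1100001, nat_lit 1442500, [nat_lit 1100000, nat_lit 1785000], [nat_lit 39, nat_lit 40, nat_lit 40, nat_lit 80]⟩,
 zbF0, [⟨nat_lit 0, nat_lit 100, nat_lit 97, nat_lit 59, nat_lit 1164736578⟩, ⟨nat_lit 16, nat_lit 100, nat_lit 82, nat_lit 92, nat_lit 628940457⟩]⟩
noncomputable def p051_l157 : Lf2 := ⟨nat_lit 0, nat_lit 3, [nat_lit 45, nat_lit 5, nat_lit 5, nat_lit 20], false, nat_lit 280, nat_lit 320, nat_lit 200, nat_lit 240, ⟨nat_lit 1000, nat_lit 0, nat_lit 0, nat_lit 0, nat_lit 0, nat_lit 0, nat_lit 0, nat_lit 0, nat_lit 0, nat_lit 0, nat_lit 0, nat_lit 0, nat_lit 0, nat_lit 0, nat_lit 0, nat_lit 0, false, false⟩,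
 nat_lit 19190, nat_lit 0, nat_lit 0, nat_lit 0, nat_lit 7551, nat_lit 10159, nat_lit 1995, nat_lit 0, nat_lit 0, nat_lit 2657, nat_lit 0, nat_lit 0, nat_lit 0, nat_lit 0, nat_lit 0, nat_lit 0, nat_lit 0, nat_lit 0, [],
 ⟨p051_k13, nat_lit 0, nat_lit 0, nat_lit 0, nat_lit 0, nat_lit 135619, [nat_lit 4688000000, nat_lit 6250000000, nat_lit 7968000000], [], [nat_lit 22004955589, nat_lit 23304117875, nat_lit 19332210297, nat_lit 20364678273, nat_lit 25696048038, nat_lit 27280755963, nat_lit 21988914022, nat_lit 23446040188], nat_lit 1271250, nat_lit 1271250, nat_lit 134400, nat_lit 490000, nat_lit 1271250, nat_lit 1271250, [nat_lit 1100000, nat_lit 1442500, nat_lit 1271250], [nat_lit 9, nat_lit 40, nat_lit 40, nat_lit 80]⟩, ⟨p051_k12, nat_lit 0, nat_lit 0, nat_lit 0, nat_lit 0, nat_lit 152907, [nat_lit 4688000000, nat_lit 6250000000, nat_lit 7968000000], [], [nat_lit 14264731351, nat_lit 16235311887, nat_lit 10391561249,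 nat_lit 12269985076, nat_lit 16617448148, nat_lit 18385183361, nat_lit 12664371465, nat_lit 14387908444], nat_lit 1271250, nat_lit 1271250, nat_lit 134400, nat_lit 490000, nat_lit 1271250, nat_lit 1271250, [nat_lit 1100000, nat_lit 1442500, nat_lit 1271250], [nat_lit 9, nat_lit 40, nat_lit 40, nat_lit 80]⟩,
 zbF0, [⟨nat_lit 0, nat_lit 100, nat_lit 96, nat_lit 69, nat_lit 658025247⟩, ⟨nat_lit 4, nat_lit 82, nat_lit 100, nat_lit 92, nat_lit 183200073⟩, ⟨nat_lit 23, nat_lit 89, nat_lit 100, nat_lit 69, nat_lit 780827545⟩]⟩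
noncomputable def p051_l158 : Lf2 := ⟨nat_lit 0, nat_lit 3, [nat_lit 45, nat_lit 5, nat_lit 5, nat_lit 20], false, nat_lit 280, nat_lit 320, nat_lit 240, nat_lit 300, ⟨nat_lit 1000, nat_lit 0, nat_lit 0, nat_lit 0, nat_lit 0, nat_lit 0, nat_lit 0, nat_lit 0, nat_lit 0, nat_lit 0, nat_lit 0, nat_lit 0, nat_lit 0, nat_lit 0, nat_lit 0, nat_lit 0, false, false⟩,
 nat_lit 19436, nat_lit 0, nat_lit 0, nat_lit 0, nat_lit 7665, nat_lit 10289, nat_lit 2072, nat_lit 0, nat_lit 0, nat_lit 2644, nat_lit 0, nat_lit 0, nat_lit 0, nat_lit 0, nat_lit 0, nat_lit 0, nat_lit 0, nat_lit 0, [],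
 ⟨p051_k13, nat_lit 0, nat_lit 0, nat_lit 0, nat_lit 0, nat_lit 135619, [nat_lit 4688000000, nat_lit 6250000000, nat_lit 7968000000], [], [nat_lit 20769719395, nat_lit 22075238961, nat_lit 18954086675, nat_lit 20107938920, nat_lit 24516275191, nat_lit 26113811665, nat_lit 21975804740, nat_lit 23526614020], nat_lit 1271250, nat_lit 1271250, nat_lit 205650, nat_lit 490000, nat_lit 1271250, nat_lit 1271250, [nat_lit 1100000, nat_lit 1442500, nat_lit 1271250], [nat_lit 9, nat_lit 40, nat_lit 40, nat_lit 80]⟩, ⟨p051_k12, nat_lit 0, nat_lit 0, nat_lit 0, nat_lit 0, nat_lit 152907, [nat_lit 4688000000, nat_lit 6250000000, nat_lit 7968000000], [], [nat_lit 15159706316, nat_lit 16934266746, nat_lit 12549574640, nat_lit 14249354898, nat_lit 22478296789, nat_lit 24566362564, nat_lit 18964718523, nat_lit 20986138841], nat_lit 1271250, nat_lit 1271250, nat_lit 205650, nat_lit 490000, nat_lit 1271250, nat_lit 1271250, [nat_lit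 1100000, nat_lit 1442500, nat_lit 1271250], [nat_lit 9, nat_lit 40, nat_lit 40, nat_lit 80]⟩,
 zbF0, [⟨nat_lit 0, nat_lit 100, nat_lit 96, nat_lit 69, nat_lit 32141611⟩, ⟨nat_lit 11, nat_lit 100, nat_lit 97, nat_lit 75, nat_lit 1203105496⟩]⟩
noncomputable def p051_l159 : Lf2 := ⟨nat_lit 0, nat_lit 3, [nat_lit 45, nat_lit 5, nat_lit 5, nat_lit 20], false, nat_lit 280, nat_lit 320, nat_lit 0, nat_lit 300, ⟨nat_lit 0, nat_lit 1000, nat_lit 0, nat_lit 6, nat_lit 106, nat_lit 1000, nat_lit 235, nat_lit 0, nat_lit 0, nat_lit 0, nat_lit 0, nat_lit 0, nat_lit 45631021, nat_lit 4796224, nat_lit 16572755, nat_lit 4227139, false, false⟩,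
 nat_lit 88889, nat_lit 0, nat_lit 100000, nat_lit 57706, nat_lit 5221, nat_lit 100000, nat_lit 783, nat_lit 0, nat_lit 0, nat_lit 0, nat_lit 2999, nat_lit 0, nat_lit 0, nat_lit 0, nat_lit 0, nat_lit 1000000, nat_lit 0, nat_lit 0, [(nat_lit 9, [(nat_lit 2, nat_lit 1000)])],
 ⟨p051_k13, nat_lit 0, nat_lit 0, nat_lit 0, nat_lit 0, nat_lit 75859, [nat_lit 2663466667, nat_lit 2329200000, nat_lit 1646800000], [], [nat_lit 19736549536, nat_lit 20241741491, nat_lit 18402098687, nat_lit 18884978870, nat_lit 22866174498, nat_lit 23518606835, nat_lit 20706169728, nat_lit 21167757177], nat_lit 1271250, nat_lit 1271250, nat_lit 134400, nat_lit 490000, nat_lit 1271250, nat_lit 1271250, [nat_lit 1100000, nat_lit 1442500, nat_lit 1271250], [nat_lit 9, nat_lit 40, nat_lit 40, nat_lit 80]⟩, ⟨p051_k12, nat_lit 0, nat_lit 0, nat_lit 264, nat_lit 0, nat_lit 85529, [nat_lit 47984000000, nat_lit 59980000000, nat_lit 71976000000], [],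 [nat_lit 232887440000, nat_lit 180491240001, nat_lit 86432800000, nat_lit 35127000000, nat_lit 132307740000, nat_lit 86482630000, nat_lit 146431000000, nat_lit 101436700000], nat_lit 1271250, nat_lit 1271250, nat_lit 134400, nat_lit 490000, nat_lit 0, nat_lit 2118750, [nat_lit 1100000, nat_lit 1442500, nat_lit 1271250], [nat_lit 9, nat_lit 40, nat_lit 40, nat_lit 80, nat_lit 2, nat_lit 317, nat_lit 100, nat_lit 11]⟩,
 ⟨nat_lit 5700, nat_lit 5917, ⟨.ofNat (nat_lit 197129), .ofNat (nat_lit 307076), .ofNat (nat_lit 218469), .ofNat (nat_lit 328416), .ofNat (nat_lit 205119), .ofNat (nat_lit 312525), .ofNat (nat_lit 226461), .ofNat (nat_lit 333867)⟩, ⟨.ofNat (nat_lit 529030), .ofNat (nat_lit 607561), .ofNat (nat_lit 571707), .ofNat (nat_lit 650236), .ofNat (nat_lit 525385), .ofNat (nat_lit 602101), .ofNat (nat_lit 568067), .ofNat (nat_lit 644781)⟩⟩, [⟨nat_lit 16, nat_lit 100, nat_lit 80, nat_lit 92, nat_lit 217609924⟩]⟩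
noncomputable def p051_l160 : Lf2 := ⟨nat_lit 0, nat_lit 3, [nat_lit 45, nat_lit 5, nat_lit 5, nat_lit 20], false, nat_lit 280, nat_lit 320, nat_lit 0, nat_lit 300, ⟨nat_lit 0, nat_lit 1000, nat_lit 0, nat_lit 6, nat_lit 111, nat_lit 1000, nat_lit 233, nat_lit 0, nat_lit 0, nat_lit 0, nat_lit 0, nat_lit 0, nat_lit 45563800, nat_lit 5084553, nat_lit 16351647, nat_lit 4265580, false, false⟩,
 nat_lit 8366, nat_lit 0, nat_lit 1505, nat_lit 0, nat_lit 5094, nat_lit 5225, nat_lit 1527, nat_lit 0, nat_lit 0, nat_lit 0, nat_lit 362, nat_lit 0, nat_lit 0, nat_lit 0, nat_lit 0, nat_lit 400000, nat_lit 0, nat_lit 0, [(nat_lit 9, [(nat_lit 1, nat_lit 1000)])],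
 ⟨p051_k38, nat_lit 0, nat_lit 0, nat_lit 0, nat_lit 0, nat_lit 128164, [nat_lit 2364880000, nat_lit 2586000000, nat_lit 2862800000], [], [nat_lit 19403834323, nat_lit 20149089477, nat_lit 17957758641, nat_lit 18452318331, nat_lit 22894407989, nat_lit 23540655005, nat_lit 21083216568, nat_lit 21709462072], nat_lit 1271250, nat_lit 1271250, nat_lit 157850, nat_lit 490000, nat_lit 1271250, nat_lit 1271250, [nat_lit 936250, nat_lit 1100000, nat_lit 1442500], [nat_lit 187, nat_lit 40, nat_lit 20, nat_lit 40]⟩, ⟨p051_k12, nat_lit 0, nat_lit 0, nat_lit 267, nat_lit 0, nat_lit 152907, [nat_lit 5792000000, nat_lit 7240000000, nat_lit 8688000000], [], [nat_lit 21470345530, nat_lit 18736803180, nat_lit 14370621800, nat_lit 12969309750, nat_lit 18417445293, nat_lit 16026243898, nat_lit 19147945750, nat_lit 16796993575], nat_lit 1271250, nat_lit 1271250, nat_lit 157850, nat_lit 490000, nat_lit 0, nat_lit 2118750, [nat_lit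 1100000, nat_lit 1442500, nat_lit 1271250], [nat_lit 9, nat_lit 40, nat_lit 40, nat_lit 80, nat_lit 2, nat_lit 317, nat_lit 100, nat_lit 11]⟩,
 ⟨nat_lit 5477, nat_lit 5701, ⟨.ofNat (nat_lit 212791), .ofNat (nat_lit 312525), .ofNat (nat_lit 234133), .ofNat (nat_lit 333867), .ofNat (nat_lit 220501), .ofNat (nat_lit 317913), .ofNat (nat_lit 241858), .ofNat (nat_lit 339271)⟩, ⟨.ofNat (nat_lit 525385), .ofNat (nat_lit 602103), .ofNat (nat_lit 568068), .ofNat (nat_lit 644784), .ofNat (nat_lit 521722), .ofNat (nat_lit 596655), .ofNat (nat_lit 564436), .ofNat (nat_lit 639366)⟩⟩, [⟨nat_lit 4, nat_lit 85, nat_lit 100, nat_lit 93, nat_lit 192575382⟩, ⟨nat_lit 23, nat_lit 89, nat_lit 100, nat_lit 70, nat_lit 218135878⟩]⟩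
noncomputable def p051_l161 : Lf2 := ⟨nat_lit 0, nat_lit 3, [nat_lit 45, nat_lit 5, nat_lit 5, nat_lit 20], true, nat_lit 280, nat_lit 320, nat_lit 0, nat_lit 300, ⟨nat_lit 0, nat_lit 0, nat_lit 1000, nat_lit 6, nat_lit 108, nat_lit 1000, nat_lit 234, nat_lit 1000, nat_lit 29188, nat_lit 200, nat_lit 109350, nat_lit 296, nat_lit 45641465, nat_lit 0, nat_lit 0, nat_lit 4237117, false, false⟩,
 nat_lit 0, nat_lit 100000, nat_lit 0, nat_lit 0, nat_lit 58208, nat_lit 0, nat_lit 16686, nat_lit 3705, nat_lit 0, nat_lit 0, nat_lit 0, nat_lit 0, nat_lit 0, nat_lit 0, nat_lit 0, nat_lit 1000000, nat_lit 0, nat_lit 0, [(nat_lit 9, [(nat_lit 6, nat_lit 1000)])],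
 ⟨p051_k13, nat_lit 0, nat_lit 0, nat_lit 174, nat_lit 0, nat_lit 135619, [nat_lit 60377600000, nat_lit 73360000000, nat_lit 86338400000], [], [nat_lit 64573720903, nat_lit 69981093242, nat_lit 40190105210, nat_lit 45356316144, nat_lit 78711144189, nat_lit 83682595482, nat_lit 53544341312, nat_lit 58205113216], nat_lit 1271250, nat_lit 1271250, nat_lit 134400, nat_lit 490000, nat_lit 1271250, nat_lit 1271250, [nat_lit 1100000, nat_lit 1442500, nat_lit 1271250], [nat_lit 9, nat_lit 40, nat_lit 40, nat_lit 80, nat_lit 2, nat_lit 226, nat_lit 20, nat_lit 7]⟩, C1.Rw.none,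
 ⟨nat_lit 5477, nat_lit 5917, ⟨.ofNat (nat_lit 197129), .ofNat (nat_lit 307076), .ofNat (nat_lit 218469), .ofNat (nat_lit 328416), .ofNat (nat_lit 213007), .ofNat (nat_lit 317913), .ofNat (nat_lit 234364), .ofNat (nat_lit 339271)⟩, ⟨.ofNat (nat_lit 529030), .ofNat (nat_lit 607556), .ofNat (nat_lit 571704), .ofNat (nat_lit 650219), .ofNat (nat_lit 521722), .ofNat (nat_lit 596648), .ofNat (nat_lit 564432), .ofNat (nat_lit 639346)⟩⟩, [⟨nat_lit 0, nat_lit 100, nat_lit 96, nat_lit 69, nat_lit 2398448560⟩, ⟨nat_lit 16, nat_lit 100, nat_lit 82, nat_lit 92, nat_lit 3889113981⟩]⟩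
noncomputable def b_V_600_600_20_17 : St := ⟨true, nat_lit 1, nat_lit 1, nat_lit 1, nat_lit 120, nat_lit 260, nat_lit 280, nat_lit 240, nat_lit 260, nat_lit 24, nat_lit 80, nat_lit 80, nat_lit 120, nat_lit 280, nat_lit 320, nat_lit 0, nat_lit 336, nat_lit 0, nat_lit 12, nat_lit 0, nat_lit 0, nat_lit 0, nat_lit 0⟩
theorem d_V_600_600_20_17 (h : EB TB.env) : Dead b_V_600_600_20_17 := chkB_sound0 h (T :=
(.trX (nat_lit 23) (nat_lit 100) (nat_lit 95) (nat_lit 87) (nat_lit 300) (.spl (nat_lit 7) (nat_lit 600)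
(.spl (nat_lit 7) (nat_lit 300)
(.leaf p051_l150)
(.spl (nat_lit 8) (nat_lit 800)
(.spl (nat_lit 5) (nat_lit 160)
(.spl (nat_lit 6) (nat_lit 8)
(.spl (nat_lit 1) (nat_lit 250)
(.spl (nat_lit 6) (nat_lit 4)
(.spl (nat_lit 1) (nat_lit 245)
(.leaf p051_l151)
(.leaf p051_l152))
(.leaf p051_l153))
(.trZ (nat_lit 0) (nat_lit 100) (nat_lit 99) (nat_lit 55) (nat_lit 28) (.leaf p051_l154)))
(.leaf p051_l155))
(.spl (nat_lit 5) (nat_lit 240)
(.spl (nat_lit 5) (nat_lit 200)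
(.leaf p051_l156)
(.leaf p051_l157))
(.trZ (nat_lit 11) (nat_lit 100) (nat_lit 94) (nat_lit 59) (nat_lit 36) (.leaf p051_l158))))
(.spl (nat_lit 0) (nat_lit 270)
(.leaf p051_l159)
(.trZ (nat_lit 0) (nat_lit 100) (nat_lit 96) (nat_lit 54) (nat_lit 28) (.leaf p051_l160)))))
(.leaf p051_l161)))) (by decide +kernel)

end B2
end Pool.Agent.Lib.MP_6947cd_al
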