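import Pool.Agent.Lib.MP_6947cd_al.ZB.Pre

/-!
Problem MP_6947cd_al (Chollet).  Case B, second entry in [2/5, 17/20]: certificates of the tree, part P052 (generated).
-/

set_option autoImplicit false
set_option linter.all false

namespace Pool.Agent.Lib.MP_6947cd_al
namespace B2

open Ent Fr B1 PkA

noncomputable def p052_k0 : C1.Kn := ⟨[nat_lit 80, nat_lit 100, nat_lit 120], [nat_lit 0, nat_lit 265, nat_lit 768], [(nat_lit 0, nat_lit 0, nat_lit 0), (nat_lit 1000, nat_lit 959, nat_lit 206), (nat_lit 1000, nat_lit 958, nat_lit 392)], (nat_lit 95, nat_lit 100, nat_lit 34)⟩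
noncomputable def p052_k1 : C1.Kn := ⟨[nat_lit 80, nat_lit 100, nat_lit 120], [nat_lit 0, nat_lit 0, nat_lit 511], [(nat_lit 0, nat_lit 0, nat_lit 0), (nat_lit 0, nat_lit 0, nat_lit 0), (nat_lit 1000, nat_lit 997, nat_lit 383)], (nat_lit 99, nat_lit 100, nat_lit 34)⟩
noncomputable def p052_k2 : C1.Kn := ⟨[nat_lit 80, nat_lit 100, nat_lit 120], [nat_lit 0, nat_lit 265, nat_lit 768], [(nat_lit 0, nat_lit 0, nat_lit 0), (nat_lit 1000, nat_lit 959, nat_lit 206), (nat_lit 1000, nat_lit 958, nat_lit 392)], (nat_lit 97, nat_lit 100, nat_lit 48)⟩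
noncomputable def p052_k3 : C1.Kn := ⟨[nat_lit 80, nat_lit 100, nat_lit 120], [nat_lit 0, nat_lit 399, nat_lit 897], [(nat_lit 0, nat_lit 0, nat_lit 0), (nat_lit 1000, nat_lit 938, nat_lit 310), (nat_lit 1000, nat_lit 938, nat_lit 389)], (nat_lit 95, nat_lit 100, nat_lit 48)⟩
noncomputable def p052_k4 : C1.Kn := ⟨[nat_lit 70, nat_lit 80, nat_lit 100], [nat_lit 0, nat_lit 0, nat_lit 265], [(nat_lit 0, nat_lit 0, nat_lit 0), (nat_lit 0, nat_lit 0, nat_lit 0), (nat_lit 1000, nat_lit 959, nat_lit 206)], (nat_lit 95, nat_lit 100, nat_lit 28)⟩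
noncomputable def p052_k5 : C1.Kn := ⟨[nat_lit 80, nat_lit 90, nat_lit 110], [nat_lit 0, nat_lit 0, nat_lit 257], [(nat_lit 0, nat_lit 0, nat_lit 0), (nat_lit 0, nat_lit 0, nat_lit 0), (nat_lit 1000, nat_lit 980, nat_lit 201)], (nat_lit 98, nat_lit 100, nat_lit 28)⟩
noncomputable def p052_k6 : C1.Kn := ⟨[nat_lit 80, nat_lit 100], [nat_lit 0, nat_lit 265], [(nat_lit 0, nat_lit 0, nat_lit 0), (nat_lit 1000, nat_lit 959, nat_lit 206)], (nat_lit 95, nat_lit 100, nat_lit 28)⟩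
noncomputable def p052_k7 : C1.Kn := ⟨[nat_lit 80, nat_lit 100, nat_lit 120], [nat_lit 0, nat_lit 132, nat_lit 640], [(nat_lit 0, nat_lit 0, nat_lit 0), (nat_lit 1000, nat_lit 979, nat_lit 103), (nat_lit 1000, nat_lit 979, nat_lit 397)], (nat_lit 97, nat_lit 100, nat_lit 28)⟩
noncomputable def p052_k8 : C1.Kn := ⟨[nat_lit 80, nat_lit 120], [nat_lit 0, nat_lit 264], [(nat_lit 0, nat_lit 0, nat_lit 0), (nat_lit 1000, nat_lit 979, nat_lit 103)], (nat_lit 97, nat_lit 100, nat_lit 28)⟩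
noncomputable def p052_k9 : C1.Kn := ⟨[nat_lit 80, nat_lit 100, nat_lit 120], [nat_lit 0, nat_lit 0, nat_lit 511], [(nat_lit 0, nat_lit 0, nat_lit 0), (nat_lit 0, nat_lit 0, nat_lit 0), (nat_lit 1000, nat_lit 997, nat_lit 383)], (nat_lit 98, nat_lit 100, nat_lit 28)⟩
noncomputable def p052_k10 : C1.Kn := ⟨[nat_lit 70, nat_lit 80, nat_lit 100, nat_lit 110], [nat_lit 0, nat_lit 0, nat_lit 265, nat_lit 517], [(nat_lit 0, nat_lit 0, nat_lit 0), (nat_lit 0, nat_lit 0, nat_lit 0), (nat_lit 1000, nat_lit 959, nat_lit 206), (nat_lit 1000, nat_lit 958, nat_lit 386)], (nat_lit 95, nat_lit 100, nat_lit 34)⟩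
noncomputable def p052_k11 : C1.Kn := ⟨[nat_lit 40, nat_lit 80, nat_lit 100], [nat_lit 0, nat_lit 0, nat_lit 265], [(nat_lit 0, nat_lit 0, nat_lit 0), (nat_lit 0, nat_lit 0, nat_lit 0), (nat_lit 1000, nat_lit 959, nat_lit 206)], (nat_lit 95, nat_lit 100, nat_lit 28)⟩
noncomputable def p052_k12 : C1.Kn := ⟨[nat_lit 80, nat_lit 120], [nat_lit 0, nat_lit 0], [(nat_lit 0, nat_lit 0, nat_lit 0), (nat_lit 0, nat_lit 0, nat_lit 0)], (nat_lit 98, nat_lit 100, nat_lit 28)⟩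
noncomputable def p052_k13 : C1.Kn := ⟨[nat_lit 80, nat_lit 120], [nat_lit 0, nat_lit 528], [(nat_lit 0, nat_lit 0, nat_lit 0), (nat_lit 1000, nat_lit 959, nat_lit 206)], (nat_lit 95, nat_lit 100, nat_lit 34)⟩
noncomputable def p052_k14 : C1.Kn := ⟨[nat_lit 70, nat_lit 80, nat_lit 100, nat_lit 120], [nat_lit 0, nat_lit 0, nat_lit 265, nat_lit 768], [(nat_lit 0, nat_lit 0, nat_lit 0), (nat_lit 0, nat_lit 0, nat_lit 0), (nat_lit 1000, nat_lit 959, nat_lit 206), (nat_lit 1000, nat_lit 958, nat_lit 392)], (nat_lit 97, nat_lit 100, nat_lit 48)⟩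
noncomputable def p052_k15 : C1.Kn := ⟨[nat_lit 70, nat_lit 80, nat_lit 100, nat_lit 120], [nat_lit 0, nat_lit 70, nat_lit 335, nat_lit 966], [(nat_lit 0, nat_lit 0, nat_lit 0), (nat_lit 1000, nat_lit 967, nat_lit 109), (nat_lit 1000, nat_lit 948, nat_lit 207), (nat_lit 1000, nat_lit 947, nat_lit 492)], (nat_lit 95, nat_lit 100, nat_lit 48)⟩
noncomputable def p052_k16 : C1.Kn := ⟨[nat_lit 40, nat_lit 70, nat_lit 90, nat_lit 120], [nat_lit 0, nat_lit 0, nat_lit 0, nat_lit 774], [(nat_lit 0, nat_lit 0, nat_lit 0), (nat_lit 0, nat_lit 0, nat_lit 0), (nat_lit 0, nat_lit 0, nat_lit 0), (nat_lit 1000, nat_lit 959, nat_lit 402)], (nat_lit 97, nat_lit 100, nat_lit 48)⟩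
noncomputable def p052_k17 : C1.Kn := ⟨[nat_lit 80, nat_lit 100, nat_lit 140], [nat_lit 0, nat_lit 0, nat_lit 1022], [(nat_lit 0, nat_lit 0, nat_lit 0), (nat_lit 0, nat_lit 0, nat_lit 0), (nat_lit 1000, nat_lit 1000, nat_lit 399)], (nat_lit 100, nat_lit 98, nat_lit 48)⟩
noncomputable def p052_k18 : C1.Kn := ⟨[nat_lit 80, nat_lit 100], [nat_lit 0, nat_lit 0], [(nat_lit 0, nat_lit 0, nat_lit 0), (nat_lit 0, nat_lit 0, nat_lit 0)], (nat_lit 98, nat_lit 100, nat_lit 20)⟩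
noncomputable def p052_k19 : C1.Kn := ⟨[nat_lit 80, nat_lit 100, nat_lit 120], [nat_lit 0, nat_lit 399, nat_lit 897], [(nat_lit 0, nat_lit 0, nat_lit 0), (nat_lit 1000, nat_lit 938, nat_lit 310), (nat_lit 1000, nat_lit 938, nat_lit 389)], (nat_lit 94, nat_lit 100, nat_lit 39)⟩
noncomputable def p052_k20 : C1.Kn := ⟨[nat_lit 80, nat_lit 100, nat_lit 120], [nat_lit 0, nat_lit 0, nat_lit 511], [(nat_lit 0, nat_lit 0, nat_lit 0), (nat_lit 0, nat_lit 0, nat_lit 0), (nat_lit 1000, nat_lit 997, nat_lit 383)], (nat_lit 100, nat_lit 100, nat_lit 40)⟩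
noncomputable def p052_k21 : C1.Kn := ⟨[nat_lit 80, nat_lit 100, nat_lit 120], [nat_lit 0, nat_lit 265, nat_lit 768], [(nat_lit 0, nat_lit 0, nat_lit 0), (nat_lit 1000, nat_lit 959, nat_lit 206), (nat_lit 1000, nat_lit 958, nat_lit 392)], (nat_lit 96, nat_lit 100, nat_lit 39)⟩
noncomputable def p052_k22 : C1.Kn := ⟨[nat_lit 80, nat_lit 120], [nat_lit 0, nat_lit 528], [(nat_lit 0, nat_lit 0, nat_lit 0), (nat_lit 1000, nat_lit 959, nat_lit 206)], (nat_lit 97, nat_lit 100, nat_lit 48)⟩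
noncomputable def p052_k23 : C1.Kn := ⟨[nat_lit 80, nat_lit 140], [nat_lit 0, nat_lit 0], [(nat_lit 0, nat_lit 0, nat_lit 0), (nat_lit 0, nat_lit 0, nat_lit 0)], (nat_lit 100, nat_lit 98, nat_lit 48)⟩
noncomputable def p052_k24 : C1.Kn := ⟨[nat_lit 60, nat_lit 140], [nat_lit 0, nat_lit 0], [(nat_lit 0, nat_lit 0, nat_lit 0), (nat_lit 0, nat_lit 0, nat_lit 0)], (nat_lit 94, nat_lit 100, nat_lit 62)⟩
noncomputable def p052_k25 : C1.Kn := ⟨[nat_lit 60, nat_lit 100, nat_lit 140], [nat_lit 0, nat_lit 0, nat_lit 2047], [(nat_lit 0, nat_lit 0, nat_lit 0), (nat_lit 0, nat_lit 0, nat_lit 0), (nat_lit 1000, nat_lit 993, nat_lit 781)], (nat_lit 94, nat_lit 100, nat_lit 62)⟩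
noncomputable def p052_k26 : C1.Kn := ⟨[nat_lit 120, nat_lit 160, nat_lit 180], [nat_lit 0, nat_lit 0, nat_lit 1613], [(nat_lit 0, nat_lit 0, nat_lit 0), (nat_lit 0, nat_lit 0, nat_lit 0), (nat_lit 620, nat_lit 1000, nat_lit 670)], (nat_lit 100, nat_lit 68, nat_lit 61)⟩
noncomputable def p052_k27 : C1.Kn := ⟨[nat_lit 60, nat_lit 100, nat_lit 120], [nat_lit 0, nat_lit 609, nat_lit 1609], [(nat_lit 0, nat_lit 0, nat_lit 0), (nat_lit 1000, nat_lit 905, nat_lit 238), (nat_lit 1000, nat_lit 882, nat_lit 668)], (nat_lit 87, nat_lit 100, nat_lit 60)⟩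
noncomputable def p052_k28 : C1.Kn := ⟨[nat_lit 60, nat_lit 120], [nat_lit 0, nat_lit 913], [(nat_lit 0, nat_lit 0, nat_lit 0), (nat_lit 1000, nat_lit 905, nat_lit 238)], (nat_lit 87, nat_lit 100, nat_lit 60)⟩
noncomputable def p052_k29 : C1.Kn := ⟨[nat_lit 60, nat_lit 100, nat_lit 120], [nat_lit 0, nat_lit 0, nat_lit 1164], [(nat_lit 0, nat_lit 0, nat_lit 0), (nat_lit 0, nat_lit 0, nat_lit 0), (nat_lit 1000, nat_lit 933, nat_lit 572)], (nat_lit 92, nat_lit 100, nat_lit 51)⟩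
noncomputable def p052_k30 : C1.Kn := ⟨[nat_lit 60, nat_lit 100, nat_lit 120], [nat_lit 0, nat_lit 302, nat_lit 1376], [(nat_lit 0, nat_lit 0, nat_lit 0), (nat_lit 1000, nat_lit 953, nat_lit 118), (nat_lit 1000, nat_lit 911, nat_lit 628)], (nat_lit 90, nat_lit 100, nat_lit 51)⟩
noncomputable def p052_k31 : C1.Kn := ⟨[nat_lit 60, nat_lit 100, nat_lit 120], [nat_lit 0, nat_lit 909, nat_lit 1866], [(nat_lit 0, nat_lit 0, nat_lit 0), (nat_lit 1000, nat_lit 858, nat_lit 354), (nat_lit 1000, nat_lit 849, nat_lit 705)], (nat_lit 84, nat_lit 100, nat_lit 60)⟩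
noncomputable def p052_k32 : C1.Kn := ⟨[nat_lit 60, nat_lit 120], [nat_lit 0, nat_lit 0], [(nat_lit 0, nat_lit 0, nat_lit 0), (nat_lit 0, nat_lit 0, nat_lit 0)], (nat_lit 92, nat_lit 100, nat_lit 51)⟩
noncomputable def p052_k33 : C1.Kn := ⟨[nat_lit 120, nat_lit 160], [nat_lit 0, nat_lit 533], [(nat_lit 0, nat_lit 0, nat_lit 0), (nat_lit 960, nat_lit 1000, nat_lit 200)], (nat_lit 100, nat_lit 81, nat_lit 51)⟩
noncomputable def p052_k34 : C1.Kn := ⟨[nat_lit 60, nat_lit 80, nat_lit 140], [nat_lit 0, nat_lit 0, nat_lit 1595], [(nat_lit 0, nat_lit 0, nat_lit 0), (nat_lit 0, nat_lit 0, nat_lit 0), (nat_lit 1000, nat_lit 917, nat_lit 415)], (nat_lit 94, nat_lit 100, nat_lit 62)⟩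
noncomputable def p052_k35 : C1.Kn := ⟨[nat_lit 120, nat_lit 160, nat_lit 180], [nat_lit 0, nat_lit 0, nat_lit 1613], [(nat_lit 0, nat_lit 0, nat_lit 0), (nat_lit 0, nat_lit 0, nat_lit 0), (nat_lit 620, nat_lit 1000, nat_lit 670)], (nat_lit 100, nat_lit 76, nat_lit 52)⟩
noncomputable def p052_k36 : C1.Kn := ⟨[nat_lit 120, nat_lit 160, nat_lit 180], [nat_lit 0, nat_lit 533, nat_lit 2066], [(nat_lit 0, nat_lit 0, nat_lit 0), (nat_lit 960, nat_lit 1000, nat_lit 200), (nat_lit 615, nat_lit 1000, nat_lit 729)], (nat_lit 100, nat_lit 74, nat_lit 60)⟩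
noncomputable def p052_k37 : C1.Kn := ⟨[nat_lit 60, nat_lit 100, nat_lit 120], [nat_lit 0, nat_lit 455, nat_lit 1489], [(nat_lit 0, nat_lit 0, nat_lit 0), (nat_lit 1000, nat_lit 929, nat_lit 178), (nat_lit 1000, nat_lit 895, nat_lit 641)], (nat_lit 88, nat_lit 100, nat_lit 51)⟩
noncomputable def p052_k38 : C1.Kn := ⟨[nat_lit 60, nat_lit 80, nat_lit 120], [nat_lit 0, nat_lit 0, nat_lit 1064], [(nat_lit 0, nat_lit 0, nat_lit 0), (nat_lit 0, nat_lit 0, nat_lit 0), (nat_lit 1000, nat_lit 917, nat_lit 415)], (nat_lit 92, nat_lit 100, nat_lit 51)⟩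
noncomputable def p052_k39 : C1.Kn := ⟨[nat_lit 120, nat_lit 140, nat_lit 180], [nat_lit 0, nat_lit 0, nat_lit 1219], [(nat_lit 0, nat_lit 0, nat_lit 0), (nat_lit 0, nat_lit 0, nat_lit 0), (nat_lit 840, nat_lit 1000, nat_lit 400)], (nat_lit 100, nat_lit 76, nat_lit 52)⟩
noncomputable def p052_k40 : C1.Kn := ⟨[nat_lit 60, nat_lit 120, nat_lit 140], [nat_lit 0, nat_lit 0, nat_lit 2047], [(nat_lit 0, nat_lit 0, nat_lit 0), (nat_lit 0, nat_lit 0, nat_lit 0), (nat_lit 1000, nat_lit 993, nat_lit 781)], (nat_lit 94, nat_lit 100, nat_lit 62)⟩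
noncomputable def p052_k41 : C1.Kn := ⟨[nat_lit 120, nat_lit 180], [nat_lit 0, nat_lit 0], [(nat_lit 0, nat_lit 0, nat_lit 0), (nat_lit 0, nat_lit 0, nat_lit 0)], (nat_lit 100, nat_lit 68, nat_lit 61)⟩
noncomputable def p052_k42 : C1.Kn := ⟨[nat_lit 120, nat_lit 180], [nat_lit 0, nat_lit 0], [(nat_lit 0, nat_lit 0, nat_lit 0), (nat_lit 0, nat_lit 0, nat_lit 0)], (nat_lit 100, nat_lit 76, nat_lit 52)⟩
noncomputable def p052_k43 : C1.Kn := ⟨[nat_lit 60, nat_lit 100], [nat_lit 0, nat_lit 609], [(nat_lit 0, nat_lit 0, nat_lit 0), (nat_lit 1000, nat_lit 905, nat_lit 238)], (nat_lit 87, nat_lit 100, nat_lit 44)⟩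
noncomputable def p052_k44 : C1.Kn := ⟨[nat_lit 120, nat_lit 160, nat_lit 180], [nat_lit 0, nat_lit 0, nat_lit 1613], [(nat_lit 0, nat_lit 0, nat_lit 0), (nat_lit 0, nat_lit 0, nat_lit 0), (nat_lit 620, nat_lit 1000, nat_lit 670)], (nat_lit 100, nat_lit 81, nat_lit 44)⟩
noncomputable def p052_k45 : C1.Kn := ⟨[nat_lit 60, nat_lit 100], [nat_lit 0, nat_lit 755], [(nat_lit 0, nat_lit 0, nat_lit 0), (nat_lit 1000, nat_lit 882, nat_lit 294)], (nat_lit 86, nat_lit 100, nat_lit 44)⟩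
noncomputable def p052_k46 : C1.Kn := ⟨[nat_lit 60, nat_lit 100], [nat_lit 0, nat_lit 909], [(nat_lit 0, nat_lit 0, nat_lit 0), (nat_lit 1000, nat_lit 858, nat_lit 354)], (nat_lit 84, nat_lit 100, nat_lit 44)⟩
noncomputable def p052_k47 : C1.Kn := ⟨[nat_lit 120, nat_lit 160], [nat_lit 0, nat_lit 533], [(nat_lit 0, nat_lit 0, nat_lit 0), (nat_lit 960, nat_lit 1000, nat_lit 200)], (nat_lit 100, nat_lit 86, nat_lit 44)⟩
noncomputable def p052_k48 : C1.Kn := ⟨[nat_lit 60, nat_lit 100, nat_lit 120], [nat_lit 0, nat_lit 0, nat_lit 1164], [(nat_lit 0, nat_lit 0, nat_lit 0), (nat_lit 0, nat_lit 0, nat_lit 0), (nat_lit 1000, nat_lit 933, nat_lit 572)], (nat_lit 92, nat_lit 100, nat_lit 44)⟩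
noncomputable def p052_l0 : Lf2 := ⟨nat_lit 0, nat_lit 3, [nat_lit 45, nat_lit 5, nat_lit 5, nat_lit 20], false, nat_lit 240, nat_lit 320, nat_lit 0, nat_lit 160, ⟨nat_lit 1000, nat_lit 0, nat_lit 0, nat_lit 0, nat_lit 0, nat_lit 0, nat_lit 0, nat_lit 0, nat_lit 0, nat_lit 0, nat_lit 0, nat_lit 0, nat_lit 0, nat_lit 0, nat_lit 0, nat_lit 0, false, false⟩,
 nat_lit 29846, nat_lit 0, nat_lit 0, nat_lit 0, nat_lit 6988, nat_lit 15800, nat_lit 2774, nat_lit 0, nat_lit 0, nat_lit 311, nat_lit 0, nat_lit 0, nat_lit 0, nat_lit 0, nat_lit 0, nat_lit 0, nat_lit 0, nat_lit 0, [],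
 ⟨p052_k0, nat_lit 0, nat_lit 0, nat_lit 130, nat_lit 0, nat_lit 135619, [nat_lit 4688000000, nat_lit 6250000000, nat_lit 7968000000], [], [nat_lit 17055610714, nat_lit 18296091138, nat_lit 16885759442, nat_lit 18057213250, nat_lit 22086461906, nat_lit 23049085410, nat_lit 21643718498, nat_lit 22604891936], nat_lit 1271250, nat_lit 1271250, nat_lit 490000, nat_lit 780000, nat_lit 1271250, nat_lit 1271250, [nat_lit 1100000, nat_lit 1442500, nat_lit 1271250], [nat_lit 9, nat_lit 40, nat_lit 40, nat_lit 80, nat_lit 2, nat_lit 238, nat_lit 30, nat_lit 7]⟩, ⟨p052_k1, nat_lit 0, nat_lit 0, nat_lit 241, nat_lit 0, nat_lit 152907, [nat_lit 4688000000, nat_lit 6250000000, nat_lit 7968000000], [], [nat_lit 24975978400, nat_lit 20216385875, nat_lit 15161917475, nat_lit 18439805475, nat_lit 4746145475, nat_lit 7596374675, nat_lit 4025590400, nat_lit 6198769075], nat_lit 1271250, nat_lit 1271250, nat_lit 490000, nat_lit 780000,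 nat_lit 0, nat_lit 1100001, [nat_lit 1100000, nat_lit 1442500, nat_lit 1271250], [nat_lit 9, nat_lit 40, nat_lit 40, nat_lit 80, nat_lit 2, nat_lit 289, nat_lit 75, nat_lit 10]⟩,
 zbF0, [⟨nat_lit 4, nat_lit 82, nat_lit 100, nat_lit 92, nat_lit 563476675⟩]⟩
noncomputable def p052_l1 : Lf2 := ⟨nat_lit 0, nat_lit 3, [nat_lit 45, nat_lit 5, nat_lit 5, nat_lit 20], false, nat_lit 240, nat_lit 320, nat_lit 160, nat_lit 240, ⟨nat_lit 1000, nat_lit 0, nat_lit 0, nat_lit 0, nat_lit 0, nat_lit 0, nat_lit 0, nat_lit 0, nat_lit 0, nat_lit 0, nat_lit 0, nat_lit 0, nat_lit 0, nat_lit 0, nat_lit 0, nat_lit 0, false, false⟩,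
 nat_lit 29612, nat_lit 0, nat_lit 0, nat_lit 0, nat_lit 6988, nat_lit 15676, nat_lit 3260, nat_lit 0, nat_lit 0, nat_lit 0, nat_lit 0, nat_lit 0, nat_lit 0, nat_lit 0, nat_lit 0, nat_lit 0, nat_lit 0, nat_lit 0, [],
 ⟨p052_k0, nat_lit 0, nat_lit 0, nat_lit 130, nat_lit 0, nat_lit 135619, [nat_lit 4688000000, nat_lit 6250000000, nat_lit 7968000000], [], [nat_lit 16653141964, nat_lit 17893962592, nat_lit 16483290692, nat_lit 17727923904, nat_lit 22001038232, nat_lit 23048853776, nat_lit 21613799200, nat_lit 22604891936], nat_lit 1271250, nat_lit 1271250, nat_lit 490000, nat_lit 780000, nat_lit 1271250, nat_lit 1271250, [nat_lit 1100000, nat_lit 1442500, nat_lit 1271250], [nat_lit 9, nat_lit 40, nat_lit 40, nat_lit 80, nat_lit 2, nat_lit 238, nat_lit 30, nat_lit 7]⟩, ⟨p052_k1, nat_lit 0, nat_lit 0, nat_lit 161, nat_lit 0, nat_lit 152907, [nat_lit 4688000000, nat_lit 6250000000, nat_lit 7968000000], [], [nat_lit 20359302208,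 nat_lit 12316605000, nat_lit 4273907792, nat_lit 3095686152, nat_lit 9305402656, nat_lit 12759002440, nat_lit 7745996912, nat_lit 11003780792], nat_lit 1271250, nat_lit 1271250, nat_lit 490000, nat_lit 780000, nat_lit 1100001, nat_lit 1785000, [nat_lit 1100000, nat_lit 1442500, nat_lit 1271250], [nat_lit 9, nat_lit 40, nat_lit 40, nat_lit 80, nat_lit 2, nat_lit 317, nat_lit 100, nat_lit 10]⟩,
 zbF0, [⟨nat_lit 4, nat_lit 82, nat_lit 100, nat_lit 92, nat_lit 615422930⟩]⟩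
noncomputable def p052_l2 : Lf2 := ⟨nat_lit 0, nat_lit 3, [nat_lit 45, nat_lit 5, nat_lit 5, nat_lit 20], false, nat_lit 240, nat_lit 320, nat_lit 240, nat_lit 364, ⟨nat_lit 1000, nat_lit 0, nat_lit 0, nat_lit 0, nat_lit 0, nat_lit 0, nat_lit 0, nat_lit 0, nat_lit 0, nat_lit 0, nat_lit 0, nat_lit 0, nat_lit 0, nat_lit 0, nat_lit 0, nat_lit 0, false, false⟩,
 nat_lit 15683, nat_lit 0, nat_lit 0, nat_lit 0, nat_lit 8027, nat_lit 8302, nat_lit 1955, nat_lit 0, nat_lit 0, nat_lit 1788, nat_lit 0, nat_lit 0, nat_lit 0, nat_lit 0, nat_lit 0, nat_lit 0, nat_lit 0, nat_lit 0, [],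
 ⟨p052_k0, nat_lit 0, nat_lit 0, nat_lit 130, nat_lit 0, nat_lit 135619, [nat_lit 4688000000, nat_lit 6250000000, nat_lit 7968000000], [], [nat_lit 16157508546, nat_lit 17362636388, nat_lit 15726778716, nat_lit 16862426692, nat_lit 22189658412, nat_lit 23782471276, nat_lit 21310601852, nat_lit 22826030544], nat_lit 1271250, nat_lit 1271250, nat_lit 490000, nat_lit 780000, nat_lit 1271250, nat_lit 1271250, [nat_lit 1100000, nat_lit 1442500, nat_lit 1271250], [nat_lit 9, nat_lit 40, nat_lit 40, nat_lit 80, nat_lit 2, nat_lit 238, nat_lit 30, nat_lit 7]⟩, ⟨p052_k1, nat_lit 0, nat_lit 0, nat_lit 158, nat_lit 0, nat_lit 152907, [nat_lit 4688000000, nat_lit 6250000000, nat_lit 7968000000], [], [nat_lit 16252905004, nat_lit 17479990496, nat_lit 15851138740, nat_lit 17006830916, nat_lit 26870608486, nat_lit 28187410674, nat_lit 25758457945, nat_lit 26953241330], nat_lit 1271250, nat_lit 1271250, nat_lit 490000, nat_lit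 780000, nat_lit 1271250, nat_lit 1271250, [nat_lit 1100000, nat_lit 1442500, nat_lit 1271250], [nat_lit 9, nat_lit 40, nat_lit 40, nat_lit 80, nat_lit 2, nat_lit 238, nat_lit 30, nat_lit 7]⟩,
 zbF0, [⟨nat_lit 11, nat_lit 94, nat_lit 100, nat_lit 89, nat_lit 771384938⟩]⟩
noncomputable def b_V_600_600_20_18 : St := ⟨true, nat_lit 1, nat_lit 1, nat_lit 1, nat_lit 120, nat_lit 260, nat_lit 280, nat_lit 240, nat_lit 260, nat_lit 80, nat_lit 120, nat_lit 80, nat_lit 120, nat_lit 240, nat_lit 320, nat_lit 0, nat_lit 364, nat_lit 0, nat_lit 12, nat_lit 0, nat_lit 0, nat_lit 0, nat_lit 0⟩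
theorem d_V_600_600_20_18 (h : EB TB.env) : Dead b_V_600_600_20_18 := chkB_sound0 h (T :=
(.spl (nat_lit 5) (nat_lit 160)
(.leaf p052_l0)
(.spl (nat_lit 5) (nat_lit 240)
(.leaf p052_l1)
(.leaf p052_l2)))) (by decide +kernel)
noncomputable def p052_l3 : Lf2 := ⟨nat_lit 0, nat_lit 6, [nat_lit 47, nat_lit 5, nat_lit 5, nat_lit 20], false, nat_lit 240, nat_lit 320, nat_lit 0, nat_lit 80, ⟨nat_lit 1000, nat_lit 0, nat_lit 0, nat_lit 0, nat_lit 0, nat_lit 0, nat_lit 0, nat_lit 0, nat_lit 0, nat_lit 0, nat_lit 0, nat_lit 0, nat_lit 0, nat_lit 0, nat_lit 0, nat_lit 0, false, false⟩,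
 nat_lit 13587, nat_lit 0, nat_lit 0, nat_lit 7983, nat_lit 7208, nat_lit 7908, nat_lit 1801, nat_lit 0, nat_lit 0, nat_lit 2351, nat_lit 0, nat_lit 0, nat_lit 0, nat_lit 0, nat_lit 0, nat_lit 0, nat_lit 0, nat_lit 0, [],
 ⟨p052_k2, nat_lit 0, nat_lit 0, nat_lit 202, nat_lit 0, nat_lit 250369, [nat_lit 4688000000, nat_lit 6250000000, nat_lit 7968000000], [], [nat_lit 19426005441, nat_lit 20617462282, nat_lit 17754437664, nat_lit 18830390368, nat_lit 24498829276, nat_lit 25592490740, nat_lit 22147886544, nat_lit 22986570427], nat_lit 1271250, nat_lit 1271250, nat_lit 205650, nat_lit 780000, nat_lit 1271250, nat_lit 1271250, [nat_lit 1100000, nat_lit 1442500, nat_lit 1271250], [nat_lit 9, nat_lit 40, nat_lit 40, nat_lit 80, nat_lit 2, nat_lit 238, nat_lit 30, nat_lit 7]⟩, ⟨p052_k2, nat_lit 0, nat_lit 0, nat_lit 291, nat_lit 0, nat_lit 250369, [nat_lit 4688000000, nat_lit 6250000000, nat_lit 7968000000], [], [nat_lit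 19419200506, nat_lit 20808315919, nat_lit 20689849410, nat_lit 19071069082, nat_lit 18466793137, nat_lit 17045749916, nat_lit 22826783002, nat_lit 19049226298], nat_lit 1271250, nat_lit 1271250, nat_lit 205650, nat_lit 780000, nat_lit 0, nat_lit 490000, [nat_lit 1100000, nat_lit 1442500, nat_lit 1271250], [nat_lit 9, nat_lit 40, nat_lit 40, nat_lit 80, nat_lit 2, nat_lit 260, nat_lit 50, nat_lit 9]⟩,
 zbF0, [⟨nat_lit 0, nat_lit 100, nat_lit 100, nat_lit 70, nat_lit 425906975⟩, ⟨nat_lit 0, nat_lit 100, nat_lit 100, nat_lit 80, nat_lit 119488087⟩, ⟨nat_lit 4, nat_lit 82, nat_lit 100, nat_lit 92, nat_lit 268153265⟩]⟩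
noncomputable def p052_l4 : Lf2 := ⟨nat_lit 0, nat_lit 6, [nat_lit 47, nat_lit 5, nat_lit 5, nat_lit 20], false, nat_lit 240, nat_lit 320, nat_lit 80, nat_lit 160, ⟨nat_lit 1000, nat_lit 0, nat_lit 0, nat_lit 0, nat_lit 0, nat_lit 0, nat_lit 0, nat_lit 0, nat_lit 0, nat_lit 0, nat_lit 0, nat_lit 0, nat_lit 0, nat_lit 0, nat_lit 0, nat_lit 0, false, false⟩,
 nat_lit 19132, nat_lit 0, nat_lit 0, nat_lit 0, nat_lit 7005, nat_lit 11136, nat_lit 1904, nat_lit 0, nat_lit 0, nat_lit 2189, nat_lit 0, nat_lit 0, nat_lit 0, nat_lit 9230455204272, nat_lit 0, nat_lit 0, nat_lit 0, nat_lit 0, [],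
 ⟨p052_k2, nat_lit 0, nat_lit 0, nat_lit 202, nat_lit 0, nat_lit 250369, [nat_lit 4688000000, nat_lit 6250000000, nat_lit 7968000000], [], [nat_lit 19498067601, nat_lit 20672223727, nat_lit 17918209540, nat_lit 18979365980, nat_lit 24280973675, nat_lit 25359250563, nat_lit 22334426980, nat_lit 23245491720], nat_lit 1271250, nat_lit 1271250, nat_lit 205650, nat_lit 780000, nat_lit 1271250, nat_lit 1271250, [nat_lit 1100000, nat_lit 1442500, nat_lit 1271250], [nat_lit 9, nat_lit 40, nat_lit 40, nat_lit 80, nat_lit 2, nat_lit 238, nat_lit 30, nat_lit 7]⟩, ⟨p052_k2, nat_lit 0, nat_lit 0, nat_lit 221, nat_lit 0, nat_lit 250369, [nat_lit 4688000000, nat_lit 6250000000, nat_lit 7968000000], [], [nat_lit 11073183541, nat_lit 14026756365, nat_lit 7428743536, nat_lit 9809382656, nat_lit 10898674213, nat_lit 13515040641, nat_lit 7362586624, nat_lit 9438835744], nat_lit 1271250, nat_lit 1271250, nat_lit 205650, nat_lit 780000,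 nat_lit 490000, nat_lit 1100001, [nat_lit 1100000, nat_lit 1442500, nat_lit 1271250], [nat_lit 9, nat_lit 40, nat_lit 40, nat_lit 80, nat_lit 2, nat_lit 289, nat_lit 75, nat_lit 10]⟩,
 zbF0, [⟨nat_lit 0, nat_lit 100, nat_lit 100, nat_lit 70, nat_lit 996402840⟩, ⟨nat_lit 4, nat_lit 82, nat_lit 100, nat_lit 92, nat_lit 167872499⟩]⟩
noncomputable def p052_l5 : Lf2 := ⟨nat_lit 0, nat_lit 6, [nat_lit 47, nat_lit 5, nat_lit 5, nat_lit 20], false, nat_lit 240, nat_lit 320, nat_lit 160, nat_lit 240, ⟨nat_lit 1000, nat_lit 0, nat_lit 0, nat_lit 0, nat_lit 0, nat_lit 0, nat_lit 0, nat_lit 0, nat_lit 0, nat_lit 0, nat_lit 0, nat_lit 0, nat_lit 0, nat_lit 0, nat_lit 0, nat_lit 0, false, false⟩,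
 nat_lit 17953, nat_lit 0, nat_lit 0, nat_lit 0, nat_lit 6945, nat_lit 10450, nat_lit 1934, nat_lit 0, nat_lit 0, nat_lit 1638, nat_lit 0, nat_lit 0, nat_lit 0, nat_lit 0, nat_lit 0, nat_lit 0, nat_lit 0, nat_lit 0, [],
 ⟨p052_k2, nat_lit 0, nat_lit 0, nat_lit 182, nat_lit 0, nat_lit 193791, [nat_lit 4688000000, nat_lit 6250000000, nat_lit 7968000000], [], [nat_lit 19520430801, nat_lit 20689473415, nat_lit 17967679060, nat_lit 19024462220, nat_lit 24290830809, nat_lit 25291764716, nat_lit 22414619470, nat_lit 23322387330], nat_lit 1271250, nat_lit 1271250, nat_lit 205650, nat_lit 780000, nat_lit 1271250, nat_lit 1271250, [nat_lit 1100000, nat_lit 1442500, nat_lit 1271250], [nat_lit 9, nat_lit 40, nat_lit 40, nat_lit 80, nat_lit 2, nat_lit 238, nat_lit 30, nat_lit 7]⟩, ⟨p052_k2, nat_lit 0, nat_lit 0, nat_lit 176, nat_lit 0, nat_lit 193791, [nat_lit 4688000000, nat_lit 6250000000, nat_lit 7968000000], [], [nat_lit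 12766365461, nat_lit 13868961430, nat_lit 9555840300, nat_lit 10550002550, nat_lit 17128780090, nat_lit 18025273490, nat_lit 17702078750, nat_lit 15171308200], nat_lit 1271250, nat_lit 1271250, nat_lit 205650, nat_lit 780000, nat_lit 1100001, nat_lit 1785000, [nat_lit 1100000, nat_lit 1442500, nat_lit 1271250], [nat_lit 9, nat_lit 40, nat_lit 40, nat_lit 80, nat_lit 2, nat_lit 317, nat_lit 100, nat_lit 10]⟩,
 zbF0, [⟨nat_lit 0, nat_lit 100, nat_lit 98, nat_lit 74, nat_lit 377756576⟩, ⟨nat_lit 4, nat_lit 82, nat_lit 100, nat_lit 92, nat_lit 177423888⟩, ⟨nat_lit 11, nat_lit 100, nat_lit 100, nat_lit 88, nat_lit 397069454⟩]⟩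
noncomputable def p052_l6 : Lf2 := ⟨nat_lit 0, nat_lit 6, [nat_lit 47, nat_lit 5, nat_lit 5, nat_lit 20], false, nat_lit 240, nat_lit 320, nat_lit 160, nat_lit 240, ⟨nat_lit 1000, nat_lit 0, nat_lit 0, nat_lit 0, nat_lit 0, nat_lit 0, nat_lit 0, nat_lit 0, nat_lit 0, nat_lit 0, nat_lit 0, nat_lit 0, nat_lit 0, nat_lit 0, nat_lit 0, nat_lit 0, false, false⟩,
 nat_lit 15815, nat_lit 0, nat_lit 0, nat_lit 0, nat_lit 6824, nat_lit 9631, nat_lit 1808, nat_lit 0, nat_lit 0, nat_lit 1605, nat_lit 0, nat_lit 0, nat_lit 0, nat_lit 4868212752592, nat_lit 0, nat_lit 0, nat_lit 0, nat_lit 0, [],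
 ⟨p052_k3, nat_lit 0, nat_lit 0, nat_lit 188, nat_lit 0, nat_lit 236458, [nat_lit 4688000000, nat_lit 6250000000, nat_lit 7968000000], [], [nat_lit 19412156111, nat_lit 19985643332, nat_lit 18310174448, nat_lit 18834156304, nat_lit 23954363717, nat_lit 24399016100, nat_lit 22469612456, nat_lit 22877677728], nat_lit 1271250, nat_lit 1271250, nat_lit 279600, nat_lit 780000, nat_lit 1271250, nat_lit 1271250, [nat_lit 1100000, nat_lit 1442500, nat_lit 1271250], [nat_lit 9, nat_lit 40, nat_lit 40, nat_lit 80, nat_lit 2, nat_lit 238, nat_lit 30, nat_lit 7]⟩, ⟨p052_k3, nat_lit 0, nat_lit 0, nat_lit 169, nat_lit 0, nat_lit 236458, [nat_lit 4688000000, nat_lit 6250000000, nat_lit 7968000000], [], [nat_lit 13066344180, nat_lit 14099127512, nat_lit 10969393964, nat_lit 11911070599, nat_lit 17051627638, nat_lit 17894318843, nat_lit 15937670566, nat_lit 15378566815], nat_lit 1271250, nat_lit 1271250, nat_lit 279600, nat_lit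 780000, nat_lit 1100001, nat_lit 1785000, [nat_lit 1100000, nat_lit 1442500, nat_lit 1271250], [nat_lit 9, nat_lit 40, nat_lit 40, nat_lit 80, nat_lit 2, nat_lit 317, nat_lit 100, nat_lit 10]⟩,
 zbF0, [⟨nat_lit 0, nat_lit 100, nat_lit 100, nat_lit 80, nat_lit 415638994⟩, ⟨nat_lit 4, nat_lit 85, nat_lit 100, nat_lit 93, nat_lit 131199767⟩, ⟨nat_lit 11, nat_lit 100, nat_lit 100, nat_lit 92, nat_lit 407245270⟩]⟩
noncomputable def p052_l7 : Lf2 := ⟨nat_lit 0, nat_lit 6, [nat_lit 47, nat_lit 5, nat_lit 5, nat_lit 20], false, nat_lit 240, nat_lit 320, nat_lit 240, nat_lit 336, ⟨nat_lit 1000, nat_lit 0, nat_lit 0, nat_lit 0, nat_lit 0, nat_lit 0, nat_lit 0, nat_lit 0, nat_lit 0, nat_lit 0, nat_lit 0, nat_lit 0, nat_lit 0, nat_lit 0, nat_lit 0, nat_lit 0, false, false⟩,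
 nat_lit 14523, nat_lit 0, nat_lit 0, nat_lit 15055, nat_lit 8453, nat_lit 8453, nat_lit 2406, nat_lit 0, nat_lit 0, nat_lit 2406, nat_lit 0, nat_lit 0, nat_lit 0, nat_lit 39051683108436, nat_lit 0, nat_lit 0, nat_lit 0, nat_lit 0, [],
 ⟨p052_k2, nat_lit 0, nat_lit 0, nat_lit 159, nat_lit 0, nat_lit 134584, [nat_lit 4688000000, nat_lit 6250000000, nat_lit 7968000000], [], [nat_lit 16481598967, nat_lit 17266988710, nat_lit 14483654484, nat_lit 15172601731, nat_lit 25322971279, nat_lit 26169143862, nat_lit 22441320468, nat_lit 23262441716], nat_lit 1271250, nat_lit 1271250, nat_lit 205650, nat_lit 490000, nat_lit 1271250, nat_lit 1271250, [nat_lit 1100000, nat_lit 1442500, nat_lit 1271250], [nat_lit 9, nat_lit 40, nat_lit 40, nat_lit 80, nat_lit 2, nat_lit 226, nat_lit 20, nat_lit 7]⟩, ⟨p052_k2, nat_lit 0, nat_lit 0, nat_lit 168, nat_lit 0, nat_lit 134584, [nat_lit 4688000000, nat_lit 6250000000, nat_lit 7968000000],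 [], [nat_lit 16481598967, nat_lit 17266988710, nat_lit 14483654484, nat_lit 15172601731, nat_lit 27558530373, nat_lit 28344733999, nat_lit 24590717302, nat_lit 25354971411], nat_lit 1271250, nat_lit 1271250, nat_lit 205650, nat_lit 490000, nat_lit 1271250, nat_lit 1271250, [nat_lit 1100000, nat_lit 1442500, nat_lit 1271250], [nat_lit 9, nat_lit 40, nat_lit 40, nat_lit 80, nat_lit 2, nat_lit 226, nat_lit 20, nat_lit 7]⟩,
 zbF0, [⟨nat_lit 0, nat_lit 100, nat_lit 100, nat_lit 70, nat_lit 75654115⟩, ⟨nat_lit 11, nat_lit 95, nat_lit 100, nat_lit 74, nat_lit 661609586⟩, ⟨nat_lit 11, nat_lit 100, nat_lit 100, nat_lit 76, nat_lit 441200310⟩]⟩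
noncomputable def p052_l8 : Lf2 := ⟨nat_lit 0, nat_lit 6, [nat_lit 47, nat_lit 5, nat_lit 5, nat_lit 20], false, nat_lit 240, nat_lit 320, nat_lit 240, nat_lit 336, ⟨nat_lit 1000, nat_lit 0, nat_lit 0, nat_lit 0, nat_lit 0, nat_lit 0, nat_lit 0, nat_lit 0, nat_lit 0, nat_lit 0, nat_lit 0, nat_lit 0, nat_lit 0, nat_lit 0, nat_lit 0, nat_lit 0, false, false⟩,
 nat_lit 13790, nat_lit 0, nat_lit 0, nat_lit 0, nat_lit 8027, nat_lit 8027, nat_lit 1550, nat_lit 0, nat_lit 0, nat_lit 1417, nat_lit 0, nat_lit 0, nat_lit 0, nat_lit 0, nat_lit 0, nat_lit 0, nat_lit 0, nat_lit 0, [],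
 ⟨p052_k3, nat_lit 0, nat_lit 0, nat_lit 193, nat_lit 0, nat_lit 236458, [nat_lit 4688000000, nat_lit 6250000000, nat_lit 7968000000], [], [nat_lit 18571148940, nat_lit 19331796226, nat_lit 17107228717, nat_lit 17709792638, nat_lit 25244843505, nat_lit 26065257716, nat_lit 22986064844, nat_lit 23782471276], nat_lit 1271250, nat_lit 1271250, nat_lit 230001, nat_lit 490000, nat_lit 1271250, nat_lit 1271250, [nat_lit 1100000, nat_lit 1442500, nat_lit 1271250], [nat_lit 9, nat_lit 40, nat_lit 40, nat_lit 80, nat_lit 2, nat_lit 226, nat_lit 20, nat_lit 7]⟩, ⟨p052_k2, nat_lit 0, nat_lit 0, nat_lit 206, nat_lit 0, nat_lit 250369, [nat_lit 4688000000, nat_lit 6250000000, nat_lit 7968000000], [], [nat_lit 18763079852, nat_lit 20275839976, nat_lit 17448708546, nat_lit 18653836388, nat_lit 26575682571, nat_lit 28102164849, nat_lit 24615311287, nat_lit 25745606480], nat_lit 1271250, nat_lit 1271250, nat_lit 230001, nat_lit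 490000, nat_lit 1271250, nat_lit 1271250, [nat_lit 1100000, nat_lit 1442500, nat_lit 1271250], [nat_lit 9, nat_lit 40, nat_lit 40, nat_lit 80, nat_lit 2, nat_lit 226, nat_lit 20, nat_lit 7]⟩,
 zbF0, [⟨nat_lit 0, nat_lit 100, nat_lit 100, nat_lit 80, nat_lit 423585363⟩, ⟨nat_lit 23, nat_lit 99, nat_lit 100, nat_lit 77, nat_lit 809841759⟩]⟩
noncomputable def p052_l9 : Lf2 := ⟨nat_lit 0, nat_lit 6, [nat_lit 47, nat_lit 5, nat_lit 5, nat_lit 20], false, nat_lit 240, nat_lit 320, nat_lit 240, nat_lit 352, ⟨nat_lit 1000, nat_lit 0, nat_lit 0, nat_lit 0, nat_lit 0, nat_lit 0, nat_lit 0, nat_lit 0, nat_lit 0, nat_lit 0, nat_lit 0, nat_lit 0, nat_lit 0, nat_lit 0, nat_lit 0, nat_lit 0, false, false⟩,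
 nat_lit 13790, nat_lit 0, nat_lit 0, nat_lit 0, nat_lit 8027, nat_lit 8027, nat_lit 1729, nat_lit 0, nat_lit 0, nat_lit 1238, nat_lit 0, nat_lit 0, nat_lit 0, nat_lit 0, nat_lit 0, nat_lit 0, nat_lit 0, nat_lit 0, [],
 ⟨p052_k2, nat_lit 0, nat_lit 0, nat_lit 172, nat_lit 0, nat_lit 250369, [nat_lit 4688000000, nat_lit 6250000000, nat_lit 7968000000], [], [nat_lit 16699908546, nat_lit 17905036388, nat_lit 16269178716, nat_lit 17404826692, nat_lit 22387848894, nat_lit 23782471276, nat_lit 21584847450, nat_lit 22826030544], nat_lit 1271250, nat_lit 1271250, nat_lit 490000, nat_lit 780000, nat_lit 1271250, nat_lit 1271250, [nat_lit 1100000, nat_lit 1442500, nat_lit 1271250], [nat_lit 9, nat_lit 40, nat_lit 40, nat_lit 80, nat_lit 2, nat_lit 238, nat_lit 30, nat_lit 7]⟩, ⟨p052_k2, nat_lit 0, nat_lit 0, nat_lit 188, nat_lit 0, nat_lit 250369, [nat_lit 4688000000, nat_lit 6250000000, nat_lit 7968000000], [], [nat_lit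 17878308546, nat_lit 19083436388, nat_lit 17447578716, nat_lit 18583226692, nat_lit 26523573680, nat_lit 27708741684, nat_lit 25571026597, nat_lit 26556897564], nat_lit 1271250, nat_lit 1271250, nat_lit 490000, nat_lit 780000, nat_lit 1271250, nat_lit 1271250, [nat_lit 1100000, nat_lit 1442500, nat_lit 1271250], [nat_lit 9, nat_lit 40, nat_lit 40, nat_lit 80, nat_lit 2, nat_lit 238, nat_lit 30, nat_lit 7]⟩,
 zbF0, [⟨nat_lit 11, nat_lit 96, nat_lit 100, nat_lit 86, nat_lit 740577445⟩]⟩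
noncomputable def b_V_600_600_20_19 : St := ⟨true, nat_lit 1, nat_lit 1, nat_lit 1, nat_lit 120, nat_lit 260, nat_lit 280, nat_lit 260, nat_lit 280, nat_lit 24, nat_lit 120, nat_lit 80, nat_lit 120, nat_lit 240, nat_lit 320, nat_lit 0, nat_lit 364, nat_lit 0, nat_lit 24, nat_lit 0, nat_lit 0, nat_lit 0, nat_lit 0⟩
theorem d_V_600_600_20_19 (h : EB TB.env) : Dead b_V_600_600_20_19 := chkB_sound0 h (T :=
(.trZ (nat_lit 0) (nat_lit 100) (nat_lit 100) (nat_lit 60) (nat_lit 36) (.trX (nat_lit 19) (nat_lit 100) (nat_lit 69) (nat_lit 96) (nat_lit 352) (.spl (nat_lit 5) (nat_lit 160)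
(.spl (nat_lit 5) (nat_lit 80)
(.leaf p052_l3)
(.leaf p052_l4))
(.spl (nat_lit 5) (nat_lit 240)
(.spl (nat_lit 1) (nat_lit 270)
(.leaf p052_l5)
(.ord (.trZ (nat_lit 0) (nat_lit 100) (nat_lit 100) (nat_lit 70) (nat_lit 48) (.leaf p052_l6))))
(.spl (nat_lit 2) (nat_lit 80)
(.trX (nat_lit 23) (nat_lit 100) (nat_lit 76) (nat_lit 82) (nat_lit 336) (.spl (nat_lit 0) (nat_lit 270)
(.ord (.leaf p052_l7))
(.trZ (nat_lit 0) (nat_lit 100) (nat_lit 98) (nat_lit 64) (nat_lit 40) (.leaf p052_l8))))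
(.leaf p052_l9))))))) (by decide +kernel)
noncomputable def p052_l10 : Lf2 := ⟨nat_lit 0, nat_lit 2, [nat_lit 10, nat_lit 5, nat_lit 5, nat_lit 20], false, nat_lit 320, nat_lit 352, nat_lit 0, nat_lit 160, ⟨nat_lit 1000, nat_lit 0, nat_lit 0, nat_lit 0, nat_lit 0, nat_lit 0, nat_lit 0, nat_lit 0, nat_lit 0, nat_lit 0, nat_lit 0, nat_lit 0, nat_lit 0, nat_lit 0, nat_lit 0, nat_lit 0, false, false⟩,
 nat_lit 10499, nat_lit 0, nat_lit 4632, nat_lit 28867, nat_lit 6111, nat_lit 8010, nat_lit 2880, nat_lit 0, nat_lit 0, nat_lit 4745, nat_lit 0, nat_lit 0, nat_lit 0, nat_lit 0, nat_lit 0, nat_lit 0, nat_lit 0, nat_lit 0, [],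
 ⟨p052_k4, nat_lit 0, nat_lit 0, nat_lit 0, nat_lit 0, nat_lit 86020, [nat_lit 3965500000, nat_lit 4688000000, nat_lit 6250000000], [], [nat_lit 24083639743, nat_lit 25072316004, nat_lit 22452154890, nat_lit 23419169124, nat_lit 27157175597, nat_lit 28388398918, nat_lit 24835102288, nat_lit 25741265400], nat_lit 1271250, nat_lit 1271250, nat_lit 134400, nat_lit 490000, nat_lit 1271250, nat_lit 1271250, [nat_lit 936250, nat_lit 1100000, nat_lit 1442500], [nat_lit 187, nat_lit 40, nat_lit 20, nat_lit 40]⟩, ⟨p052_k5, nat_lit 0, nat_lit 0, nat_lit 0, nat_lit 0, nat_lit 96939, [nat_lit 4688000000, nat_lit 5449500000, nat_lit 7089500000], [], [nat_lit 16220356513, nat_lit 17762130361, nat_lit 13516518955, nat_lit 14454114895, nat_lit 12260953347, nat_lit 13076094357, nat_lit 12486139280, nat_lit 11232795600], nat_lit 1271250, nat_lit 1271250, nat_lit 134400, nat_lit 490000, nat_lit 0, nat_lit 1100001, [nat_lit 1100000,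 nat_lit 1271250, nat_lit 1271250], [nat_lit 105, nat_lit 40, nat_lit 20, nat_lit 40]⟩,
 zbF0, [⟨nat_lit 0, nat_lit 100, nat_lit 95, nat_lit 64, nat_lit 983223094⟩, ⟨nat_lit 4, nat_lit 82, nat_lit 100, nat_lit 92, nat_lit 1053910819⟩]⟩
noncomputable def p052_l11 : Lf2 := ⟨nat_lit 0, nat_lit 2, [nat_lit 10, nat_lit 5, nat_lit 5, nat_lit 20], false, nat_lit 320, nat_lit 352, nat_lit 160, nat_lit 260, ⟨nat_lit 1000, nat_lit 0, nat_lit 0, nat_lit 0, nat_lit 0, nat_lit 0, nat_lit 0, nat_lit 0, nat_lit 0, nat_lit 0, nat_lit 0, nat_lit 0, nat_lit 0, nat_lit 0, nat_lit 0, nat_lit 0, false, false⟩,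
 nat_lit 17075, nat_lit 0, nat_lit 0, nat_lit 448, nat_lit 6122, nat_lit 9039, nat_lit 2849, nat_lit 0, nat_lit 0, nat_lit 0, nat_lit 0, nat_lit 0, nat_lit 0, nat_lit 0, nat_lit 0, nat_lit 0, nat_lit 0, nat_lit 0, [],
 ⟨p052_k4, nat_lit 0, nat_lit 0, nat_lit 0, nat_lit 0, nat_lit 86020, [nat_lit 3965500000, nat_lit 4688000000, nat_lit 6250000000], [], [nat_lit 24097021520, nat_lit 25086468362, nat_lit 22460908655, nat_lit 23403513963, nat_lit 27174129153, nat_lit 28406405307, nat_lit 24820896976, nat_lit 25727715679], nat_lit 1271250, nat_lit 1271250, nat_lit 134400, nat_lit 490000, nat_lit 1271250, nat_lit 1271250, [nat_lit 936250, nat_lit 1100000, nat_lit 1442500], [nat_lit 187, nat_lit 40, nat_lit 20, nat_lit 40]⟩, ⟨p052_k5, nat_lit 0, nat_lit 0, nat_lit 0, nat_lit 0, nat_lit 96939, [nat_lit 4688000000, nat_lit 5449500000, nat_lit 7089500000], [], [nat_lit 8441252178, nat_lit 9910400236, nat_lit 5000357700, nat_lit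 6170630651, nat_lit 17397836629, nat_lit 18521327961, nat_lit 13507722410, nat_lit 14586454597], nat_lit 1271250, nat_lit 1271250, nat_lit 134400, nat_lit 490000, nat_lit 1100001, nat_lit 1956250, [nat_lit 1100000, nat_lit 1271250, nat_lit 1271250], [nat_lit 105, nat_lit 40, nat_lit 20, nat_lit 40]⟩,
 zbF0, [⟨nat_lit 0, nat_lit 100, nat_lit 95, nat_lit 64, nat_lit 227577500⟩, ⟨nat_lit 4, nat_lit 82, nat_lit 100, nat_lit 92, nat_lit 312071495⟩, ⟨nat_lit 11, nat_lit 100, nat_lit 77, nat_lit 67, nat_lit 1241402345⟩]⟩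
noncomputable def p052_l12 : Lf2 := ⟨nat_lit 0, nat_lit 2, [nat_lit 10, nat_lit 5, nat_lit 5, nat_lit 20], false, nat_lit 320, nat_lit 352, nat_lit 0, nat_lit 232, ⟨nat_lit 1000, nat_lit 0, nat_lit 0, nat_lit 0, nat_lit 0, nat_lit 0, nat_lit 0, nat_lit 0, nat_lit 0, nat_lit 0, nat_lit 0, nat_lit 0, nat_lit 0, nat_lit 0, nat_lit 0, nat_lit 0, false, false⟩,
 nat_lit 22339, nat_lit 0, nat_lit 0, nat_lit 25295, nat_lit 6740, nat_lit 12410, nat_lit 2798, nat_lit 0, nat_lit 0, nat_lit 5496, nat_lit 0, nat_lit 0, nat_lit 0, nat_lit 0, nat_lit 0, nat_lit 0, nat_lit 0, nat_lit 0, [],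
 ⟨p052_k6, nat_lit 0, nat_lit 0, nat_lit 0, nat_lit 0, nat_lit 134068, [nat_lit 4688000000, nat_lit 6250000000], [], [nat_lit 24331060614, nat_lit 25817431712, nat_lit 23021477790, nat_lit 23988657800, nat_lit 28161346285, nat_lit 29449462416, nat_lit 26053560316, nat_lit 27325985137], nat_lit 1271250, nat_lit 1271250, nat_lit 157850, nat_lit 356250, nat_lit 1271250, nat_lit 1271250, [nat_lit 1100000, nat_lit 1442500], [nat_lit 31, nat_lit 40, nat_lit 40, nat_lit 80]⟩, ⟨p052_k7, nat_lit 0, nat_lit 0, nat_lit 0, nat_lit 0, nat_lit 142151, [nat_lit 4688000000, nat_lit 6250000000, nat_lit 7968000000], [], [nat_lit 26900596598, nat_lit 25620357465, nat_lit 18025046225, nat_lit 20138307230, nat_lit 16473422456, nat_lit 18008857017, nat_lit 12608359689, nat_lit 14113241226], nat_lit 1271250, nat_lit 1271250, nat_lit 157850, nat_lit 356250, nat_lit 0, nat_lit 1638500, [nat_lit 1100000, nat_lit 1442500, nat_lit 1271250],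 [nat_lit 9, nat_lit 40, nat_lit 40, nat_lit 80]⟩,
 zbF0, [⟨nat_lit 0, nat_lit 100, nat_lit 97, nat_lit 62, nat_lit 1628593388⟩, ⟨nat_lit 4, nat_lit 82, nat_lit 100, nat_lit 92, nat_lit 1151281810⟩]⟩
noncomputable def p052_l13 : Lf2 := ⟨nat_lit 0, nat_lit 2, [nat_lit 10, nat_lit 5, nat_lit 5, nat_lit 20], false, nat_lit 320, nat_lit 352, nat_lit 0, nat_lit 260, ⟨nat_lit 1000, nat_lit 0, nat_lit 0, nat_lit 0, nat_lit 0, nat_lit 0, nat_lit 0, nat_lit 0, nat_lit 0, nat_lit 0, nat_lit 0, nat_lit 0, nat_lit 0, nat_lit 0, nat_lit 0, nat_lit 0, false, false⟩,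
 nat_lit 29467, nat_lit 0, nat_lit 0, nat_lit 0, nat_lit 6835, nat_lit 16370, nat_lit 2897, nat_lit 0, nat_lit 0, nat_lit 0, nat_lit 0, nat_lit 0, nat_lit 0, nat_lit 0, nat_lit 0, nat_lit 0, nat_lit 0, nat_lit 0, [],
 ⟨p052_k6, nat_lit 0, nat_lit 0, nat_lit 0, nat_lit 0, nat_lit 134068, [nat_lit 4688000000, nat_lit 6250000000], [], [nat_lit 22802562410, nat_lit 23860233950, nat_lit 22239517190, nat_lit 23276540420, nat_lit 26162557939, nat_lit 27443935845, nat_lit 25195541564, nat_lit 26460369621], nat_lit 1271250, nat_lit 1271250, nat_lit 356250, nat_lit 490000, nat_lit 1271250, nat_lit 1271250, [nat_lit 1100000, nat_lit 1442500], [nat_lit 31, nat_lit 40, nat_lit 40, nat_lit 80]⟩, ⟨p052_k8, nat_lit 0, nat_lit 0, nat_lit 0, nat_lit 0, nat_lit 142151, [nat_lit 4688000000, nat_lit 7968000000], [], [nat_lit 28942280990, nat_lit 24711307160, nat_lit 20448739230, nat_lit 20648712300, nat_lit 17048087397, nat_lit 18738899488,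 nat_lit 15335738300, nat_lit 16290118155], nat_lit 1271250, nat_lit 1271250, nat_lit 356250, nat_lit 490000, nat_lit 0, nat_lit 1836250, [nat_lit 1100000, nat_lit 1785000], [nat_lit 39, nat_lit 40, nat_lit 40, nat_lit 80]⟩,
 zbF0, [⟨nat_lit 4, nat_lit 82, nat_lit 100, nat_lit 92, nat_lit 903849755⟩]⟩
noncomputable def p052_l14 : Lf2 := ⟨nat_lit 0, nat_lit 2, [nat_lit 10, nat_lit 5, nat_lit 5, nat_lit 20], false, nat_lit 320, nat_lit 352, nat_lit 0, nat_lit 260, ⟨nat_lit 0, nat_lit 1000, nat_lit 0, nat_lit 6, nat_lit 108, nat_lit 1000, nat_lit 262, nat_lit 0, nat_lit 0, nat_lit 0, nat_lit 0, nat_lit 0, nat_lit 43087637, nat_lit 4744548, nat_lit 19167815, nat_lit 4401894, false, false⟩,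
 nat_lit 100000, nat_lit 0, nat_lit 88889, nat_lit 19065, nat_lit 4853, nat_lit 100000, nat_lit 1333, nat_lit 0, nat_lit 0, nat_lit 0, nat_lit 3978, nat_lit 0, nat_lit 0, nat_lit 0, nat_lit 0, nat_lit 400000, nat_lit 0, nat_lit 0, [(nat_lit 9, [(nat_lit 1, nat_lit 1000)])],
 ⟨p052_k4, nat_lit 0, nat_lit 0, nat_lit 0, nat_lit 0, nat_lit 134068, [nat_lit 2364880000, nat_lit 2586000000, nat_lit 2862800000], [], [nat_lit 22178688903, nat_lit 23443645929, nat_lit 20680260845, nat_lit 21540795052, nat_lit 25218305238, nat_lit 26329122762, nat_lit 23221970539, nat_lit 24302072075], nat_lit 1271250, nat_lit 1271250, nat_lit 134400, nat_lit 490000, nat_lit 1271250, nat_lit 1271250, [nat_lit 936250, nat_lit 1100000, nat_lit 1442500], [nat_lit 187, nat_lit 40, nat_lit 20, nat_lit 40]⟩, ⟨p052_k9, nat_lit 0, nat_lit 0, nat_lit 269, nat_lit 0, nat_lit 151087, [nat_lit 63648000000, nat_lit 79560000000, nat_lit 95472000000], [],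 [nat_lit 279879440000, nat_lit 227483240001, nat_lit 133424800000, nat_lit 82119000000, nat_lit 166996500000, nat_lit 120559890000, nat_lit 179413000000, nat_lit 133830100000], nat_lit 1271250, nat_lit 1271250, nat_lit 134400, nat_lit 490000, nat_lit 0, nat_lit 1836250, [nat_lit 1100000, nat_lit 1442500, nat_lit 1271250], [nat_lit 9, nat_lit 40, nat_lit 40, nat_lit 80, nat_lit 2, nat_lit 317, nat_lit 100, nat_lit 11]⟩,
 ⟨nat_lit 5477, nat_lit 5917, ⟨.ofNat (nat_lit 197129), .ofNat (nat_lit 307076), .ofNat (nat_lit 218469), .ofNat (nat_lit 328416), .ofNat (nat_lit 213007), .ofNat (nat_lit 317913), .ofNat (nat_lit 234364), .ofNat (nat_lit 339271)⟩, ⟨.ofNat (nat_lit 607556), .ofNat (nat_lit 670368), .ofNat (nat_lit 650219), .ofNat (nat_lit 713031), .ofNat (nat_lit 596648), .ofNat (nat_lit 656580), .ofNat (nat_lit 639346), .ofNat (nat_lit 699278)⟩⟩, [⟨nat_lit 4, nat_lit 82, nat_lit 100, nat_lit 92, nat_lit 6097381538⟩]⟩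
noncomputable def p052_l15 : Lf2 := ⟨nat_lit 0, nat_lit 3, [nat_lit 45, nat_lit 5, nat_lit 5, nat_lit 20], true, nat_lit 320, nat_lit 352, nat_lit 0, nat_lit 260, ⟨nat_lit 0, nat_lit 1000, nat_lit 0, nat_lit 6, nat_lit 108, nat_lit 1000, nat_lit 262, nat_lit 0, nat_lit 0, nat_lit 0, nat_lit 0, nat_lit 0, nat_lit 43087637, nat_lit 4744548, nat_lit 19167815, nat_lit 4401894, false, false⟩,
 nat_lit 0, nat_lit 100000, nat_lit 0, nat_lit 100000, nat_lit 4785, nat_lit 0, nat_lit 273, nat_lit 0, nat_lit 0, nat_lit 0, nat_lit 0, nat_lit 0, nat_lit 0, nat_lit 0, nat_lit 0, nat_lit 1000000, nat_lit 0, nat_lit 0, [(nat_lit 9, [(nat_lit 2, nat_lit 1000)])],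
 ⟨p052_k10, nat_lit 0, nat_lit 0, nat_lit 0, nat_lit 0, nat_lit 34578, [nat_lit 2330533334, nat_lit 2646000001, nat_lit 2329200000, nat_lit 1988000000], [], [nat_lit 22385347903, nat_lit 23356248879, nat_lit 21110392159, nat_lit 21950783955, nat_lit 25113501434, nat_lit 26217810537, nat_lit 23212436393, nat_lit 24231891669], nat_lit 1271250, nat_lit 1271250, nat_lit 134400, nat_lit 490000, nat_lit 1271250, nat_lit 1271250, [nat_lit 936250, nat_lit 1100000, nat_lit 1442500, nat_lit 1271250], [nat_lit 273, nat_lit 40, nat_lit 20, nat_lit 40]⟩, C1.Rw.none,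
 ⟨nat_lit 5477, nat_lit 5917, ⟨.ofNat (nat_lit 197129), .ofNat (nat_lit 307076), .ofNat (nat_lit 218469), .ofNat (nat_lit 328416), .ofNat (nat_lit 213007), .ofNat (nat_lit 317913), .ofNat (nat_lit 234364), .ofNat (nat_lit 339271)⟩, ⟨.ofNat (nat_lit 607556), .ofNat (nat_lit 670368), .ofNat (nat_lit 650219), .ofNat (nat_lit 713031), .ofNat (nat_lit 596648), .ofNat (nat_lit 656580), .ofNat (nat_lit 639346), .ofNat (nat_lit 699278)⟩⟩, [⟨nat_lit 0, nat_lit 100, nat_lit 96, nat_lit 69, nat_lit 220890678⟩, ⟨nat_lit 4, nat_lit 82, nat_lit 100, nat_lit 92, nat_lit 5759991707⟩]⟩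
noncomputable def p052_l16 : Lf2 := ⟨nat_lit 0, nat_lit 2, [nat_lit 10, nat_lit 5, nat_lit 5, nat_lit 20], false, nat_lit 320, nat_lit 352, nat_lit 0, nat_lit 160, ⟨nat_lit 1000, nat_lit 0, nat_lit 0, nat_lit 0, nat_lit 0, nat_lit 0, nat_lit 0, nat_lit 0, nat_lit 0, nat_lit 0, nat_lit 0, nat_lit 0, nat_lit 0, nat_lit 0, nat_lit 0, nat_lit 0, false, false⟩,
 nat_lit 27826, nat_lit 0, nat_lit 0, nat_lit 14319, nat_lit 6988, nat_lit 14731, nat_lit 2774, nat_lit 0, nat_lit 0, nat_lit 892, nat_lit 0, nat_lit 0, nat_lit 0, nat_lit 0, nat_lit 0, nat_lit 0, nat_lit 0, nat_lit 0, [],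
 ⟨p052_k6, nat_lit 0, nat_lit 0, nat_lit 0, nat_lit 0, nat_lit 134068, [nat_lit 4688000000, nat_lit 6250000000], [], [nat_lit 22086461906, nat_lit 23049085410, nat_lit 21643718498, nat_lit 22604891936, nat_lit 25341598180, nat_lit 26620605296, nat_lit 24501977319, nat_lit 25723451661], nat_lit 1271250, nat_lit 1271250, nat_lit 490000, nat_lit 780000, nat_lit 1271250, nat_lit 1271250, [nat_lit 1100000, nat_lit 1442500], [nat_lit 31, nat_lit 40, nat_lit 40, nat_lit 80]⟩, ⟨p052_k9, nat_lit 0, nat_lit 0, nat_lit 241, nat_lit 0, nat_lit 151087, [nat_lit 4688000000, nat_lit 6250000000, nat_lit 7968000000], [], [nat_lit 25590858648, nat_lit 19409195390, nat_lit 14712177072, nat_lit 17816748102, nat_lit 5167426272, nat_lit 7869936776, nat_lit 5904285208, nat_lit 6628043854], nat_lit 1271250, nat_lit 1271250, nat_lit 490000, nat_lit 780000, nat_lit 0, nat_lit 1100001, [nat_lit 1100000, nat_lit 1442500, nat_lit 1271250],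 [nat_lit 9, nat_lit 40, nat_lit 40, nat_lit 80, nat_lit 2, nat_lit 289, nat_lit 75, nat_lit 10]⟩,
 zbF0, [⟨nat_lit 4, nat_lit 82, nat_lit 100, nat_lit 92, nat_lit 901650953⟩]⟩
noncomputable def p052_l17 : Lf2 := ⟨nat_lit 0, nat_lit 2, [nat_lit 10, nat_lit 5, nat_lit 5, nat_lit 20], false, nat_lit 320, nat_lit 352, nat_lit 160, nat_lit 300, ⟨nat_lit 1000, nat_lit 0, nat_lit 0, nat_lit 0, nat_lit 0, nat_lit 0, nat_lit 0, nat_lit 0, nat_lit 0, nat_lit 0, nat_lit 0, nat_lit 0, nat_lit 0, nat_lit 0, nat_lit 0, nat_lit 0, false, false⟩,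
 nat_lit 19331, nat_lit 0, nat_lit 0, nat_lit 3677, nat_lit 6559, nat_lit 10234, nat_lit 2952, nat_lit 0, nat_lit 0, nat_lit 0, nat_lit 0, nat_lit 0, nat_lit 0, nat_lit 0, nat_lit 0, nat_lit 0, nat_lit 0, nat_lit 0, [],
 ⟨p052_k11, nat_lit 0, nat_lit 0, nat_lit 0, nat_lit 0, nat_lit 134068, [nat_lit 2032000001, nat_lit 4688000000, nat_lit 6250000000], [], [nat_lit 21628951650, nat_lit 22745721272, nat_lit 21194490248, nat_lit 22301681300, nat_lit 24932066886, nat_lit 26171317028, nat_lit 24194960552, nat_lit 25379324335], nat_lit 1271250, nat_lit 1271250, nat_lit 490000, nat_lit 780000, nat_lit 1271250, nat_lit 1271250, [nat_lit 490000, nat_lit 1100000, nat_lit 1442500], [nat_lit 6, nat_lit 40, nat_lit 40, nat_lit 80]⟩, ⟨p052_k12, nat_lit 0, nat_lit 0, nat_lit 161, nat_lit 0, nat_lit 151087, [nat_lit 4688000000, nat_lit 7968000000], [], [nat_lit 23489497072, nat_lit 18238861500, nat_lit 12988225928, nat_lit 12815060176,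 nat_lit 19844408302, nat_lit 20963380031, nat_lit 18889952278, nat_lit 19939393427], nat_lit 1271250, nat_lit 1271250, nat_lit 490000, nat_lit 780000, nat_lit 1271250, nat_lit 1271250, [nat_lit 1100000, nat_lit 1785000], [nat_lit 39, nat_lit 40, nat_lit 40, nat_lit 80, nat_lit 7, nat_lit 345, nat_lit 125, nat_lit 11]⟩,
 zbF0, [⟨nat_lit 16, nat_lit 100, nat_lit 82, nat_lit 92, nat_lit 635546842⟩, ⟨nat_lit 11, nat_lit 100, nat_lit 74, nat_lit 79, nat_lit 281025857⟩]⟩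
noncomputable def p052_l18 : Lf2 := ⟨nat_lit 0, nat_lit 3, [nat_lit 45, nat_lit 5, nat_lit 5, nat_lit 20], true, nat_lit 320, nat_lit 352, nat_lit 0, nat_lit 300, ⟨nat_lit 0, nat_lit 1000, nat_lit 0, nat_lit 6, nat_lit 145, nat_lit 1000, nat_lit 262, nat_lit 0, nat_lit 0, nat_lit 0, nat_lit 0, nat_lit 0, nat_lit 41137900, nat_lit 7253658, nat_lit 18608442, nat_lit 4798827, false, false⟩,
 nat_lit 0, nat_lit 9733, nat_lit 0, nat_lit 100000, nat_lit 5665, nat_lit 0, nat_lit 116, nat_lit 0, nat_lit 0, nat_lit 0, nat_lit 0, nat_lit 0, nat_lit 0, nat_lit 0, nat_lit 0, nat_lit 1000000, nat_lit 0, nat_lit 0, [(nat_lit 9, [(nat_lit 2, nat_lit 1000)])],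
 ⟨p052_k13, nat_lit 0, nat_lit 0, nat_lit 0, nat_lit 0, nat_lit 60282, [nat_lit 3161200000, nat_lit 1596933334], [], [nat_lit 21310030174, nat_lit 22113659714, nat_lit 21033254804, nat_lit 21796095634, nat_lit 24078638036, nat_lit 25235037981, nat_lit 23555163373, nat_lit 24662191864], nat_lit 1271250, nat_lit 1271250, nat_lit 490000, nat_lit 780000, nat_lit 1271250, nat_lit 1271250, [nat_lit 1100000, nat_lit 1785000], [nat_lit 39, nat_lit 40, nat_lit 40, nat_lit 80]⟩, C1.Rw.none,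
 ⟨nat_lit 5477, nat_lit 5917, ⟨.ofNat (nat_lit 307076), .ofNat (nat_lit 385610), .ofNat (nat_lit 328416), .ofNat (nat_lit 406949), .ofNat (nat_lit 317913), .ofNat (nat_lit 392847), .ofNat (nat_lit 339271), .ofNat (nat_lit 414204)⟩, ⟨.ofNat (nat_lit 607556), .ofNat (nat_lit 670368), .ofNat (nat_lit 650219), .ofNat (nat_lit 713031), .ofNat (nat_lit 596648), .ofNat (nat_lit 656580), .ofNat (nat_lit 639346), .ofNat (nat_lit 699278)⟩⟩, [⟨nat_lit 4, nat_lit 82, nat_lit 100, nat_lit 92, nat_lit 3093784208⟩]⟩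
noncomputable def p052_l19 : Lf2 := ⟨nat_lit 1, nat_lit 6, [nat_lit 47, nat_lit 5, nat_lit 5, nat_lit 20], false, nat_lit 320, nat_lit 352, nat_lit 0, nat_lit 300, zbN0,
 nat_lit 0, nat_lit 0, nat_lit 0, nat_lit 0, nat_lit 0, nat_lit 0, nat_lit 0, nat_lit 0, nat_lit 0, nat_lit 0, nat_lit 0, nat_lit 0, nat_lit 0, nat_lit 0, nat_lit 0, nat_lit 0, nat_lit 0, nat_lit 0, [],
 C1.Rw.none, C1.Rw.none,
 zbF0, []⟩
noncomputable def p052_l20 : Lf2 := ⟨nat_lit 0, nat_lit 6, [nat_lit 47, nat_lit 5, nat_lit 5, nat_lit 20], false, nat_lit 320, nat_lit 352, nat_lit 0, nat_lit 160, ⟨nat_lit 1000, nat_lit 0, nat_lit 0, nat_lit 0, nat_lit 0, nat_lit 0, nat_lit 0, nat_lit 0, nat_lit 0, nat_lit 0, nat_lit 0, nat_lit 0, nat_lit 0, nat_lit 0, nat_lit 0, nat_lit 0, false, false⟩,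
 nat_lit 15956, nat_lit 0, nat_lit 0, nat_lit 31818, nat_lit 6816, nat_lit 9287, nat_lit 2006, nat_lit 0, nat_lit 0, nat_lit 4808, nat_lit 0, nat_lit 0, nat_lit 0, nat_lit 0, nat_lit 0, nat_lit 0, nat_lit 0, nat_lit 0, [],
 ⟨p052_k14, nat_lit 0, nat_lit 0, nat_lit 0, nat_lit 0, nat_lit 193791, [nat_lit 3965500000, nat_lit 4688000000, nat_lit 6250000000, nat_lit 7968000000], [], [nat_lit 23996767412, nat_lit 25064171446, nat_lit 21783366002, nat_lit 22862412066, nat_lit 27302878228, nat_lit 28598501241, nat_lit 24440407743, nat_lit 25476333639], nat_lit 1271250, nat_lit 1271250, nat_lit 205650, nat_lit 780000, nat_lit 1271250, nat_lit 1271250, [nat_lit 936250, nat_lit 1100000, nat_lit 1442500, nat_lit 1271250], [nat_lit 196, nat_lit 40, nat_lit 20, nat_lit 40]⟩, ⟨p052_k2, nat_lit 0, nat_lit 0, nat_lit 264, nat_lit 0, nat_lit 193791, [nat_lit 4688000000, nat_lit 6250000000, nat_lit 7968000000], [], [nat_lit 19551861202,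 nat_lit 21263622270, nat_lit 14266873284, nat_lit 15870932666, nat_lit 18562707797, nat_lit 16341466354, nat_lit 23796595902, nat_lit 21637823465], nat_lit 1271250, nat_lit 1271250, nat_lit 205650, nat_lit 780000, nat_lit 0, nat_lit 1100001, [nat_lit 1100000, nat_lit 1442500, nat_lit 1271250], [nat_lit 9, nat_lit 40, nat_lit 40, nat_lit 80, nat_lit 2, nat_lit 289, nat_lit 75, nat_lit 10]⟩,
 zbF0, [⟨nat_lit 0, nat_lit 100, nat_lit 98, nat_lit 74, nat_lit 477322552⟩, ⟨nat_lit 4, nat_lit 82, nat_lit 100, nat_lit 92, nat_lit 1426720571⟩]⟩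
noncomputable def p052_l21 : Lf2 := ⟨nat_lit 0, nat_lit 6, [nat_lit 47, nat_lit 5, nat_lit 5, nat_lit 20], false, nat_lit 320, nat_lit 344, nat_lit 0, nat_lit 160, ⟨nat_lit 1000, nat_lit 0, nat_lit 0, nat_lit 0, nat_lit 0, nat_lit 0, nat_lit 0, nat_lit 0, nat_lit 0, nat_lit 0, nat_lit 0, nat_lit 0, nat_lit 0, nat_lit 0, nat_lit 0, nat_lit 0, false, false⟩,
 nat_lit 14790, nat_lit 0, nat_lit 0, nat_lit 16650, nat_lit 6916, nat_lit 9007, nat_lit 1627, nat_lit 0, nat_lit 0, nat_lit 3194, nat_lit 0, nat_lit 0, nat_lit 0, nat_lit 0, nat_lit 0, nat_lit 0, nat_lit 0, nat_lit 0, [],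
 ⟨p052_k15, nat_lit 0, nat_lit 0, nat_lit 0, nat_lit 0, nat_lit 236458, [nat_lit 3965500000, nat_lit 4688000000, nat_lit 6250000000, nat_lit 7968000000], [], [nat_lit 23832731533, nat_lit 24422765166, nat_lit 22208864559, nat_lit 22752102791, nat_lit 26401593012, nat_lit 27076149643, nat_lit 24169873830, nat_lit 24738971597], nat_lit 1271250, nat_lit 1271250, nat_lit 279600, nat_lit 780000, nat_lit 1271250, nat_lit 1271250, [nat_lit 936250, nat_lit 1100000, nat_lit 1442500, nat_lit 1271250], [nat_lit 196, nat_lit 40, nat_lit 20, nat_lit 40]⟩, ⟨p052_k3, nat_lit 0, nat_lit 0, nat_lit 275, nat_lit 0, nat_lit 236458, [nat_lit 4688000000, nat_lit 6250000000, nat_lit 7968000000], [], [nat_lit 19463531749, nat_lit 21130851160, nat_lit 15685987626, nat_lit 17254714928, nat_lit 17251642114, nat_lit 15106212544, nat_lit 22064521365, nat_lit 19970835208], nat_lit 1271250, nat_lit 1271250, nat_lit 279600, nat_lit 780000, nat_lit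 0, nat_lit 1100001, [nat_lit 1100000, nat_lit 1442500, nat_lit 1271250], [nat_lit 9, nat_lit 40, nat_lit 40, nat_lit 80, nat_lit 2, nat_lit 289, nat_lit 75, nat_lit 10]⟩,
 zbF0, [⟨nat_lit 0, nat_lit 100, nat_lit 100, nat_lit 75, nat_lit 413400281⟩, ⟨nat_lit 16, nat_lit 100, nat_lit 85, nat_lit 93, nat_lit 884114986⟩]⟩
noncomputable def p052_l22 : Lf2 := ⟨nat_lit 0, nat_lit 6, [nat_lit 47, nat_lit 5, nat_lit 5, nat_lit 20], false, nat_lit 320, nat_lit 352, nat_lit 160, nat_lit 260, ⟨nat_lit 1000, nat_lit 0, nat_lit 0, nat_lit 0, nat_lit 0, nat_lit 0, nat_lit 0, nat_lit 0, nat_lit 0, nat_lit 0, nat_lit 0, nat_lit 0, nat_lit 0, nat_lit 0, nat_lit 0, nat_lit 0, false, false⟩,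
 nat_lit 15820, nat_lit 0, nat_lit 0, nat_lit 15535, nat_lit 6816, nat_lit 9208, nat_lit 2006, nat_lit 0, nat_lit 0, nat_lit 2499, nat_lit 0, nat_lit 0, nat_lit 0, nat_lit 0, nat_lit 0, nat_lit 0, nat_lit 0, nat_lit 0, [],
 ⟨p052_k14, nat_lit 0, nat_lit 0, nat_lit 0, nat_lit 0, nat_lit 193791, [nat_lit 3965500000, nat_lit 4688000000, nat_lit 6250000000, nat_lit 7968000000], [], [nat_lit 23996767412, nat_lit 25064171446, nat_lit 22332276352, nat_lit 23404247714, nat_lit 27302878228, nat_lit 28598501241, nat_lit 25066312685, nat_lit 26328015277], nat_lit 1271250, nat_lit 1271250, nat_lit 205650, nat_lit 490000, nat_lit 1271250, nat_lit 1271250, [nat_lit 936250, nat_lit 1100000, nat_lit 1442500, nat_lit 1271250], [nat_lit 196, nat_lit 40, nat_lit 20, nat_lit 40]⟩, ⟨p052_k2, nat_lit 0, nat_lit 0, nat_lit 176, nat_lit 0, nat_lit 193791, [nat_lit 4688000000, nat_lit 6250000000, nat_lit 7968000000], [], [nat_lit 11687212879,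 nat_lit 12699375600, nat_lit 9503518768, nat_lit 10473178904, nat_lit 18782628108, nat_lit 19911997415, nat_lit 18502154733, nat_lit 16929237586], nat_lit 1271250, nat_lit 1271250, nat_lit 205650, nat_lit 490000, nat_lit 1100001, nat_lit 1956250, [nat_lit 1100000, nat_lit 1442500, nat_lit 1271250], [nat_lit 9, nat_lit 40, nat_lit 40, nat_lit 80, nat_lit 2, nat_lit 317, nat_lit 100, nat_lit 10]⟩,
 zbF0, [⟨nat_lit 0, nat_lit 100, nat_lit 98, nat_lit 74, nat_lit 302208720⟩, ⟨nat_lit 4, nat_lit 82, nat_lit 100, nat_lit 92, nat_lit 930229941⟩, ⟨nat_lit 11, nat_lit 100, nat_lit 75, nat_lit 71, nat_lit 1071586655⟩]⟩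
noncomputable def p052_l23 : Lf2 := ⟨nat_lit 0, nat_lit 6, [nat_lit 47, nat_lit 5, nat_lit 5, nat_lit 20], false, nat_lit 320, nat_lit 344, nat_lit 160, nat_lit 260, ⟨nat_lit 1000, nat_lit 0, nat_lit 0, nat_lit 0, nat_lit 0, nat_lit 0, nat_lit 0, nat_lit 0, nat_lit 0, nat_lit 0, nat_lit 0, nat_lit 0, nat_lit 0, nat_lit 0, nat_lit 0, nat_lit 0, false, false⟩,
 nat_lit 14861, nat_lit 0, nat_lit 0, nat_lit 1405, nat_lit 6940, nat_lit 9050, nat_lit 1598, nat_lit 0, nat_lit 0, nat_lit 1570, nat_lit 0, nat_lit 0, nat_lit 0, nat_lit 6287120811298, nat_lit 0, nat_lit 0, nat_lit 0, nat_lit 0, [],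
 ⟨p052_k15, nat_lit 0, nat_lit 0, nat_lit 0, nat_lit 0, nat_lit 236458, [nat_lit 3965500000, nat_lit 4688000000, nat_lit 6250000000, nat_lit 7968000000], [], [nat_lit 23913891688, nat_lit 24447361485, nat_lit 22778379160, nat_lit 23332321510, nat_lit 26430371946, nat_lit 27106144282, nat_lit 24934765625, nat_lit 25595541664], nat_lit 1271250, nat_lit 1271250, nat_lit 279600, nat_lit 490000, nat_lit 1271250, nat_lit 1271250, [nat_lit 936250, nat_lit 1100000, nat_lit 1442500, nat_lit 1271250], [nat_lit 196, nat_lit 40, nat_lit 20, nat_lit 40]⟩, ⟨p052_k3, nat_lit 0, nat_lit 0, nat_lit 169, nat_lit 0, nat_lit 236458, [nat_lit 4688000000, nat_lit 6250000000, nat_lit 7968000000], [], [nat_lit 13646624991, nat_lit 14637592590, nat_lit 12236517150, nat_lit 13195260750, nat_lit 19128409406, nat_lit 19931749381, nat_lit 17565646475, nat_lit 18301598350], nat_lit 1271250, nat_lit 1271250, nat_lit 279600, nat_lit 490000, nat_lit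 1100001, nat_lit 1956250, [nat_lit 1100000, nat_lit 1442500, nat_lit 1271250], [nat_lit 9, nat_lit 40, nat_lit 40, nat_lit 80, nat_lit 2, nat_lit 317, nat_lit 100, nat_lit 10]⟩,
 zbF0, [⟨nat_lit 0, nat_lit 100, nat_lit 100, nat_lit 80, nat_lit 441408876⟩, ⟨nat_lit 16, nat_lit 100, nat_lit 85, nat_lit 93, nat_lit 227295529⟩, ⟨nat_lit 23, nat_lit 76, nat_lit 100, nat_lit 74, nat_lit 827172052⟩]⟩
noncomputable def p052_l24 : Lf2 := ⟨nat_lit 0, nat_lit 6, [nat_lit 47, nat_lit 5, nat_lit 5, nat_lit 20], false, nat_lit 320, nat_lit 352, nat_lit 160, nat_lit 300, ⟨nat_lit 1000, nat_lit 0, nat_lit 0, nat_lit 0, nat_lit 0, nat_lit 0, nat_lit 0, nat_lit 0, nat_lit 0, nat_lit 0, nat_lit 0, nat_lit 0, nat_lit 0, nat_lit 0, nat_lit 0, nat_lit 0, false, false⟩,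
 nat_lit 18949, nat_lit 0, nat_lit 0, nat_lit 0, nat_lit 7603, nat_lit 11030, nat_lit 1798, nat_lit 0, nat_lit 0, nat_lit 694, nat_lit 0, nat_lit 0, nat_lit 0, nat_lit 0, nat_lit 0, nat_lit 0, nat_lit 0, nat_lit 0, [],
 ⟨p052_k16, nat_lit 0, nat_lit 0, nat_lit 0, nat_lit 0, nat_lit 250369, [nat_lit 2032000001, nat_lit 3965500000, nat_lit 5449500000, nat_lit 7968000000], [], [nat_lit 22401841466, nat_lit 23482843068, nat_lit 21683034550, nat_lit 22706582140, nat_lit 25805740739, nat_lit 27140250275, nat_lit 24822608566, nat_lit 26096003588], nat_lit 1271250, nat_lit 1271250, nat_lit 490000, nat_lit 780000, nat_lit 1271250, nat_lit 1271250, [nat_lit 490000, nat_lit 936250, nat_lit 1271250, nat_lit 1271250], [nat_lit 138, nat_lit 40, nat_lit 20, nat_lit 40]⟩, ⟨p052_k2, nat_lit 0, nat_lit 0, nat_lit 164, nat_lit 0, nat_lit 250369, [nat_lit 4688000000, nat_lit 6250000000, nat_lit 7968000000], [], [nat_lit 11787947880,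 nat_lit 13979039400, nat_lit 11085150020, nat_lit 13147813120, nat_lit 23123445265, nat_lit 23411568660, nat_lit 26538357800, nat_lit 21912991160], nat_lit 1271250, nat_lit 1271250, nat_lit 490000, nat_lit 780000, nat_lit 1100001, nat_lit 2298750, [nat_lit 1100000, nat_lit 1442500, nat_lit 1271250], [nat_lit 9, nat_lit 40, nat_lit 40, nat_lit 80, nat_lit 2, nat_lit 345, nat_lit 125, nat_lit 11]⟩,
 zbF0, [⟨nat_lit 16, nat_lit 100, nat_lit 82, nat_lit 92, nat_lit 645404313⟩, ⟨nat_lit 23, nat_lit 77, nat_lit 100, nat_lit 91, nat_lit 794250517⟩]⟩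
noncomputable def p052_l25 : Lf2 := ⟨nat_lit 0, nat_lit 6, [nat_lit 47, nat_lit 5, nat_lit 5, nat_lit 20], false, nat_lit 320, nat_lit 352, nat_lit 0, nat_lit 300, ⟨nat_lit 0, nat_lit 1000, nat_lit 0, nat_lit 6, nat_lit 127, nat_lit 1000, nat_lit 262, nat_lit 0, nat_lit 0, nat_lit 0, nat_lit 0, nat_lit 0, nat_lit 42069717, nat_lit 6047277, nat_lit 18883006, nat_lit 4621945, false, false⟩,
 nat_lit 71795, nat_lit 100000, nat_lit 0, nat_lit 0, nat_lit 100000, nat_lit 0, nat_lit 29945, nat_lit 5641, nat_lit 0, nat_lit 0, nat_lit 0, nat_lit 0, nat_lit 0, nat_lit 123553274773057, nat_lit 0, nat_lit 1000000, nat_lit 0, nat_lit 0, [(nat_lit 9, [(nat_lit 2, nat_lit 1000)])],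
 ⟨p052_k2, nat_lit 0, nat_lit 0, nat_lit 247, nat_lit 0, nat_lit 250369, [nat_lit 92919466667, nat_lit 115149200000, nat_lit 137030800000], [], [nat_lit 108047466268, nat_lit 118435896268, nat_lit 43674122001, nat_lit 48740614667, nat_lit 140430592027, nat_lit 148807098827, nat_lit 68340806268, nat_lit 75713360268], nat_lit 1271250, nat_lit 1271250, nat_lit 134400, nat_lit 780000, nat_lit 1271250, nat_lit 1271250, [nat_lit 1100000, nat_lit 1442500, nat_lit 1271250], [nat_lit 9, nat_lit 40, nat_lit 40, nat_lit 80, nat_lit 2, nat_lit 238, nat_lit 30, nat_lit 7]⟩, ⟨p052_k17, nat_lit 0, nat_lit 0, nat_lit 424, nat_lit 0, nat_lit 282667, [nat_lit 0, nat_lit 0, nat_lit 0], [], [nat_lit 0, nat_lit 0, nat_lit 0, nat_lit 0, nat_lit 0, nat_lit 0, nat_lit 0, nat_lit 0], nat_lit 1271250, nat_lit 1271250, nat_lit 134400, nat_lit 780000, nat_lit 0, nat_lit 2118750, [nat_lit 1100000, nat_lit 1442500, nat_lit 1271250], [nat_lit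 11, nat_lit 40, nat_lit 40, nat_lit 80, nat_lit 1, nat_lit 401, nat_lit 175, nat_lit 12]⟩,
 ⟨nat_lit 5477, nat_lit 5917, ⟨.ofNat (nat_lit 197129), .ofNat (nat_lit 385610), .ofNat (nat_lit 239808), .ofNat (nat_lit 428288), .ofNat (nat_lit 213007), .ofNat (nat_lit 392847), .ofNat (nat_lit 255721), .ofNat (nat_lit 435561)⟩, ⟨.ofNat (nat_lit 607556), .ofNat (nat_lit 670368), .ofNat (nat_lit 650219), .ofNat (nat_lit 713031), .ofNat (nat_lit 596648), .ofNat (nat_lit 656580), .ofNat (nat_lit 639346), .ofNat (nat_lit 699278)⟩⟩, [⟨nat_lit 0, nat_lit 100, nat_lit 100, nat_lit 80, nat_lit 3722547827⟩, ⟨nat_lit 4, nat_lit 82, nat_lit 100, nat_lit 92, nat_lit 8820678323⟩]⟩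
noncomputable def b_V_600_600_20_20 : St := ⟨true, nat_lit 1, nat_lit 1, nat_lit 1, nat_lit 120, nat_lit 260, nat_lit 280, nat_lit 240, nat_lit 280, nat_lit 24, nat_lit 120, nat_lit 80, nat_lit 120, nat_lit 320, nat_lit 352, nat_lit 0, nat_lit 364, nat_lit 0, nat_lit 24, nat_lit 0, nat_lit 0, nat_lit 0, nat_lit 0⟩
theorem d_V_600_600_20_20 (h : EB TB.env) : Dead b_V_600_600_20_20 := chkB_sound0 h (T :=
(.trX (nat_lit 23) (nat_lit 87) (nat_lit 95) (nat_lit 100) (nat_lit 300) (.spl (nat_lit 7) (nat_lit 600)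
(.spl (nat_lit 1) (nat_lit 260)
(.spl (nat_lit 6) (nat_lit 12)
(.spl (nat_lit 2) (nat_lit 80)
(.trX (nat_lit 23) (nat_lit 83) (nat_lit 100) (nat_lit 83) (nat_lit 260) (.spl (nat_lit 6) (nat_lit 8)
(.spl (nat_lit 8) (nat_lit 800)
(.spl (nat_lit 1) (nat_lit 250)
(.spl (nat_lit 5) (nat_lit 160)
(.leaf p052_l10)
(.leaf p052_l11))
(.trZ (nat_lit 0) (nat_lit 100) (nat_lit 99) (nat_lit 55) (nat_lit 28) (.spl (nat_lit 2) (nat_lit 60)
(.trX (nat_lit 23) (nat_lit 81) (nat_lit 100) (nat_lit 72) (nat_lit 232) (.leaf p052_l12))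
(.leaf p052_l13))))
(.leaf p052_l14))
(.leaf p052_l15)))
(.spl (nat_lit 6) (nat_lit 8)
(.spl (nat_lit 5) (nat_lit 160)
(.leaf p052_l16)
(.leaf p052_l17))
(.leaf p052_l18)))
(.leaf p052_l19))
(.trZ (nat_lit 0) (nat_lit 100) (nat_lit 100) (nat_lit 60) (nat_lit 36) (.spl (nat_lit 5) (nat_lit 160)
(.spl (nat_lit 1) (nat_lit 270)
(.leaf p052_l20)
(.ord (.trZ (nat_lit 0) (nat_lit 100) (nat_lit 100) (nat_lit 70) (nat_lit 48) (.trX (nat_lit 16) (nat_lit 100) (nat_lit 74) (nat_lit 98) (nat_lit 344) (.leaf p052_l21)))))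
(.spl (nat_lit 2) (nat_lit 80)
(.trX (nat_lit 23) (nat_lit 83) (nat_lit 100) (nat_lit 83) (nat_lit 260) (.spl (nat_lit 1) (nat_lit 270)
(.leaf p052_l22)
(.ord (.trZ (nat_lit 0) (nat_lit 100) (nat_lit 100) (nat_lit 70) (nat_lit 48) (.trX (nat_lit 16) (nat_lit 100) (nat_lit 74) (nat_lit 98) (nat_lit 344) (.leaf p052_l23))))))
(.leaf p052_l24)))))
(.leaf p052_l25)))) (by decide +kernel)
noncomputable def p052_l26 : Lf2 := ⟨nat_lit 0, nat_lit 1, [nat_lit 19, nat_lit 5, nat_lit 5, nat_lit 20], false, nat_lit 240, nat_lit 320, nat_lit 0, nat_lit 364, ⟨nat_lit 0, nat_lit 1000, nat_lit 0, nat_lit 6, nat_lit 205, nat_lit 1000, nat_lit 222, nat_lit 0, nat_lit 0, nat_lit 0, nat_lit 0, nat_lit 0, nat_lit 40517673, nat_lit 12431708, nat_lit 14050619, nat_lit 5095099, false, false⟩,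
 nat_lit 9678, nat_lit 0, nat_lit 0, nat_lit 0, nat_lit 5123, nat_lit 0, nat_lit 0, nat_lit 0, nat_lit 0, nat_lit 0, nat_lit 0, nat_lit 0, nat_lit 0, nat_lit 0, nat_lit 0, nat_lit 400000, nat_lit 0, nat_lit 0, [(nat_lit 6, [(nat_lit 1, nat_lit 1000)])],
 ⟨p052_k18, nat_lit 0, nat_lit 0, nat_lit 91, nat_lit 0, nat_lit 24559, [nat_lit 2692266667, nat_lit 3030400000], [], [nat_lit 13668189439, nat_lit 14973752349, nat_lit 17555935707, nat_lit 18587143135, nat_lit 19197781147, nat_lit 20226677957, nat_lit 22128217228, nat_lit 23081188286], nat_lit 1271250, nat_lit 1271250, nat_lit 780000, nat_lit 1762500, nat_lit 1271250, nat_lit 1271250, [nat_lit 1100000, nat_lit 1442500], [nat_lit 31, nat_lit 40, nat_lit 40, nat_lit 80, nat_lit 3, nat_lit 272, nat_lit 60, nat_lit 9]⟩, ⟨p052_k18, nat_lit 0, nat_lit 0, nat_lit 211, nat_lit 0, nat_lit 24559, [nat_lit 0, nat_lit 0], [], [nat_lit 0, nat_lit 0, nat_lit 0, nat_lit 0, nat_lit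 0, nat_lit 0, nat_lit 0, nat_lit 0], nat_lit 1271250, nat_lit 1271250, nat_lit 780000, nat_lit 1762500, nat_lit 0, nat_lit 2570750, [nat_lit 1100000, nat_lit 1442500], [nat_lit 31, nat_lit 40, nat_lit 40, nat_lit 80, nat_lit 3, nat_lit 401, nat_lit 175, nat_lit 16]⟩,
 ⟨nat_lit 5916, nat_lit 6325, ⟨.ofNat (nat_lit 378206), .ofNat (nat_lit 624961), .ofNat (nat_lit 399574), .ofNat (nat_lit 646322), .ofNat (nat_lit 385610), .ofNat (nat_lit 621173), .ofNat (nat_lit 406949), .ofNat (nat_lit 642505)⟩, ⟨.ofNat (nat_lit 454055), .ofNat (nat_lit 618556), .ofNat (nat_lit 496791), .ofNat (nat_lit 661277), .ofNat (nat_lit 450496), .ofNat (nat_lit 607536), .ofNat (nat_lit 493175), .ofNat (nat_lit 650199)⟩⟩, [⟨nat_lit 4, nat_lit 72, nat_lit 100, nat_lit 89, nat_lit 153678617⟩]⟩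
noncomputable def p052_l27 : Lf2 := ⟨nat_lit 0, nat_lit 1, [nat_lit 19, nat_lit 5, nat_lit 5, nat_lit 20], false, nat_lit 320, nat_lit 364, nat_lit 4, nat_lit 364, ⟨nat_lit 0, nat_lit 1000, nat_lit 0, nat_lit 6, nat_lit 205, nat_lit 1000, nat_lit 271, nat_lit 0, nat_lit 0, nat_lit 0, nat_lit 0, nat_lit 0, nat_lit 37001282, nat_lit 11671810, nat_lit 18326908, nat_lit 5329447, false, false⟩,
 nat_lit 9678, nat_lit 0, nat_lit 0, nat_lit 7650, nat_lit 5123, nat_lit 0, nat_lit 0, nat_lit 0, nat_lit 0, nat_lit 0, nat_lit 0, nat_lit 0, nat_lit 0, nat_lit 31939494818404, nat_lit 0, nat_lit 400000, nat_lit 0, nat_lit 0, [(nat_lit 6, [(nat_lit 1, nat_lit 1000)])],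
 ⟨p052_k18, nat_lit 0, nat_lit 0, nat_lit 63, nat_lit 0, nat_lit 24559, [nat_lit 2692266667, nat_lit 3030400000], [], [nat_lit 19197781147, nat_lit 20226677957, nat_lit 22128217228, nat_lit 23081188286, nat_lit 23262792118, nat_lit 24270246076, nat_lit 25559744506, nat_lit 26363452752], nat_lit 1271250, nat_lit 1271250, nat_lit 780000, nat_lit 1762500, nat_lit 1271250, nat_lit 1271250, [nat_lit 1100000, nat_lit 1442500], [nat_lit 31, nat_lit 40, nat_lit 40, nat_lit 80, nat_lit 3, nat_lit 272, nat_lit 60, nat_lit 9]⟩, ⟨p052_k18, nat_lit 0, nat_lit 0, nat_lit 209, nat_lit 0, nat_lit 24559, [nat_lit 0, nat_lit 0], [], [nat_lit 0, nat_lit 0, nat_lit 0, nat_lit 0, nat_lit 0, nat_lit 0, nat_lit 0, nat_lit 0], nat_lit 1271250, nat_lit 1271250, nat_lit 780000, nat_lit 1762500, nat_lit 21650, nat_lit 2577650, [nat_lit 1100000, nat_lit 1442500], [nat_lit 31, nat_lit 40, nat_lit 40, nat_lit 80, nat_lit 3, nat_lit 401, nat_lit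 175, nat_lit 16]⟩,
 ⟨nat_lit 5916, nat_lit 6325, ⟨.ofNat (nat_lit 378206), .ofNat (nat_lit 624961), .ofNat (nat_lit 399574), .ofNat (nat_lit 646322), .ofNat (nat_lit 385610), .ofNat (nat_lit 621173), .ofNat (nat_lit 406949), .ofNat (nat_lit 642505)⟩, ⟨.ofNat (nat_lit 618556), .ofNat (nat_lit 709020), .ofNat (nat_lit 661277), .ofNat (nat_lit 751741), .ofNat (nat_lit 607536), .ofNat (nat_lit 693896), .ofNat (nat_lit 650199), .ofNat (nat_lit 736560)⟩⟩, [⟨nat_lit 4, nat_lit 72, nat_lit 100, nat_lit 89, nat_lit 438928332⟩]⟩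
noncomputable def p052_l28 : Lf2 := ⟨nat_lit 1, nat_lit 6, [nat_lit 47, nat_lit 5, nat_lit 5, nat_lit 20], false, nat_lit 240, nat_lit 364, nat_lit 0, nat_lit 364, zbN0,
 nat_lit 0, nat_lit 0, nat_lit 0, nat_lit 0, nat_lit 0, nat_lit 0, nat_lit 0, nat_lit 0, nat_lit 0, nat_lit 0, nat_lit 0, nat_lit 0, nat_lit 0, nat_lit 0, nat_lit 0, nat_lit 0, nat_lit 0, nat_lit 0, [],
 C1.Rw.none, C1.Rw.none,
 zbF0, []⟩
noncomputable def p052_l29 : Lf2 := ⟨nat_lit 0, nat_lit 3, [nat_lit 45, nat_lit 5, nat_lit 5, nat_lit 20], false, nat_lit 240, nat_lit 320, nat_lit 0, nat_lit 364, ⟨nat_lit 0, nat_lit 1000, nat_lit 0, nat_lit 6, nat_lit 175, nat_lit 1000, nat_lit 219, nat_lit 0, nat_lit 0, nat_lit 0, nat_lit 0, nat_lit 0, nat_lit 42731557, nat_lit 9967037, nat_lit 14301406, nat_lit 4843298, false, false⟩,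
 nat_lit 0, nat_lit 8628, nat_lit 0, nat_lit 0, nat_lit 5022, nat_lit 0, nat_lit 0, nat_lit 0, nat_lit 0, nat_lit 0, nat_lit 0, nat_lit 0, nat_lit 0, nat_lit 0, nat_lit 0, nat_lit 1000000, nat_lit 0, nat_lit 0, [(nat_lit 9, [(nat_lit 2, nat_lit 1000)])],
 ⟨p052_k0, nat_lit 0, nat_lit 0, nat_lit 85, nat_lit 0, nat_lit 75859, [nat_lit 2663466667, nat_lit 2329200000, nat_lit 1646800000], [], [nat_lit 15073168415, nat_lit 15719477285, nat_lit 15830522351, nat_lit 16436321329, nat_lit 20273301727, nat_lit 20783433897, nat_lit 20713685231, nat_lit 21195126644], nat_lit 1271250, nat_lit 1271250, nat_lit 780000, nat_lit 1100001, nat_lit 1271250, nat_lit 1271250, [nat_lit 1100000, nat_lit 1442500, nat_lit 1271250], [nat_lit 9, nat_lit 40, nat_lit 40, nat_lit 80, nat_lit 2, nat_lit 249, nat_lit 40, nat_lit 7]⟩, ⟨p052_k1, nat_lit 0, nat_lit 0, nat_lit 216, nat_lit 0, nat_lit 85529, [nat_lit 0, nat_lit 0, nat_lit 0], [], [nat_lit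 0, nat_lit 0, nat_lit 0, nat_lit 0, nat_lit 0, nat_lit 0, nat_lit 0, nat_lit 0], nat_lit 1271250, nat_lit 1271250, nat_lit 780000, nat_lit 1100001, nat_lit 0, nat_lit 2570750, [nat_lit 1100000, nat_lit 1442500, nat_lit 1271250], [nat_lit 9, nat_lit 40, nat_lit 40, nat_lit 80, nat_lit 2, nat_lit 373, nat_lit 150, nat_lit 12]⟩,
 ⟨nat_lit 5700, nat_lit 5917, ⟨.ofNat (nat_lit 385610), .ofNat (nat_lit 464143), .ofNat (nat_lit 406949), .ofNat (nat_lit 485482), .ofNat (nat_lit 389244), .ofNat (nat_lit 465963), .ofNat (nat_lit 410586), .ofNat (nat_lit 487305)⟩, ⟨.ofNat (nat_lit 450496), .ofNat (nat_lit 607561), .ofNat (nat_lit 493175), .ofNat (nat_lit 650236), .ofNat (nat_lit 448666), .ofNat (nat_lit 602101), .ofNat (nat_lit 491350), .ofNat (nat_lit 644781)⟩⟩, [⟨nat_lit 4, nat_lit 80, nat_lit 100, nat_lit 92, nat_lit 176109017⟩]⟩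
noncomputable def p052_l30 : Lf2 := ⟨nat_lit 0, nat_lit 3, [nat_lit 45, nat_lit 5, nat_lit 5, nat_lit 20], false, nat_lit 240, nat_lit 320, nat_lit 0, nat_lit 364, ⟨nat_lit 21, nat_lit 979, nat_lit 0, nat_lit 6, nat_lit 221, nat_lit 979, nat_lit 219, nat_lit 0, nat_lit 0, nat_lit 0, nat_lit 0, nat_lit 0, nat_lit 39581776, nat_lit 13804834, nat_lit 13613390, nat_lit 5185125, false, false⟩,
 nat_lit 323, nat_lit 8368, nat_lit 0, nat_lit 0, nat_lit 5058, nat_lit 170, nat_lit 0, nat_lit 0, nat_lit 0, nat_lit 30, nat_lit 0, nat_lit 0, nat_lit 0, nat_lit 0, nat_lit 0, nat_lit 979000, nat_lit 0, nat_lit 0, [(nat_lit 9, [(nat_lit 2, nat_lit 979)])],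
 ⟨p052_k0, nat_lit 0, nat_lit 0, nat_lit 65, nat_lit 0, nat_lit 75859, [nat_lit 2705981867, nat_lit 2411536800, nat_lit 1778726200], [], [nat_lit 15825683943, nat_lit 16433570885, nat_lit 18677459795, nat_lit 19190234839, nat_lit 20725948263, nat_lit 21206791589, nat_lit 23060031956, nat_lit 23534182490], nat_lit 1271250, nat_lit 1271250, nat_lit 1100001, nat_lit 1785000, nat_lit 1271250, nat_lit 1271250, [nat_lit 1100000, nat_lit 1442500, nat_lit 1271250], [nat_lit 9, nat_lit 40, nat_lit 40, nat_lit 80, nat_lit 2, nat_lit 272, nat_lit 60, nat_lit 8]⟩, ⟨p052_k1, nat_lit 0, nat_lit 0, nat_lit 196, nat_lit 0, nat_lit 85529, [nat_lit 98448000, nat_lit 131250000, nat_lit 167328000], [], [nat_lit 875949052, nat_lit 786063592, nat_lit 519113612, nat_lit 531552306, nat_lit 871391694, nat_lit 793489143, nat_lit 579158405, nat_lit 596067823], nat_lit 1271250, nat_lit 1271250, nat_lit 1271250, nat_lit 1271250, nat_lit 0,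 nat_lit 2570750, [nat_lit 1100000, nat_lit 1442500, nat_lit 1271250], [nat_lit 9, nat_lit 40, nat_lit 40, nat_lit 80, nat_lit 2, nat_lit 401, nat_lit 175, nat_lit 13]⟩,
 ⟨nat_lit 5700, nat_lit 5917, ⟨.ofNat (nat_lit 464143), .ofNat (nat_lit 621202), .ofNat (nat_lit 485482), .ofNat (nat_lit 642540), .ofNat (nat_lit 465963), .ofNat (nat_lit 619393), .ofNat (nat_lit 487305), .ofNat (nat_lit 640733)⟩, ⟨.ofNat (nat_lit 450496), .ofNat (nat_lit 607561), .ofNat (nat_lit 493175), .ofNat (nat_lit 650236), .ofNat (nat_lit 448666), .ofNat (nat_lit 602101), .ofNat (nat_lit 491350), .ofNat (nat_lit 644781)⟩⟩, [⟨nat_lit 16, nat_lit 100, nat_lit 80, nat_lit 92, nat_lit 165393998⟩, ⟨nat_lit 19, nat_lit 100, nat_lit 72, nat_lit 89, nat_lit 4894741⟩]⟩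
noncomputable def p052_l31 : Lf2 := ⟨nat_lit 0, nat_lit 3, [nat_lit 45, nat_lit 5, nat_lit 5, nat_lit 20], false, nat_lit 240, nat_lit 320, nat_lit 0, nat_lit 336, ⟨nat_lit 1000, nat_lit 0, nat_lit 0, nat_lit 0, nat_lit 0, nat_lit 0, nat_lit 0, nat_lit 0, nat_lit 0, nat_lit 0, nat_lit 0, nat_lit 0, nat_lit 0, nat_lit 0, nat_lit 0, nat_lit 0, false, false⟩,
 nat_lit 11701, nat_lit 0, nat_lit 0, nat_lit 4620, nat_lit 6811, nat_lit 5659, nat_lit 0, nat_lit 0, nat_lit 0, nat_lit 2487, nat_lit 0, nat_lit 0, nat_lit 0, nat_lit 0, nat_lit 0, nat_lit 0, nat_lit 0, nat_lit 0, [],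
 ⟨p052_k0, nat_lit 0, nat_lit 0, nat_lit 89, nat_lit 0, nat_lit 122679, [nat_lit 4688000000, nat_lit 6250000000, nat_lit 7968000000], [], [nat_lit 14826627074, nat_lit 15587584009, nat_lit 18593595476, nat_lit 19182657574, nat_lit 20961863530, nat_lit 21548448615, nat_lit 23630601902, nat_lit 24167725455], nat_lit 1271250, nat_lit 1271250, nat_lit 780000, nat_lit 1762500, nat_lit 1271250, nat_lit 1271250, [nat_lit 1100000, nat_lit 1442500, nat_lit 1271250], [nat_lit 9, nat_lit 40, nat_lit 40, nat_lit 80, nat_lit 2, nat_lit 272, nat_lit 60, nat_lit 8]⟩, ⟨p052_k0, nat_lit 0, nat_lit 0, nat_lit 209, nat_lit 0, nat_lit 122679, [nat_lit 4688000000, nat_lit 6250000000, nat_lit 7968000000], [], [nat_lit 41037954702, nat_lit 39518688631, nat_lit 25583130830, nat_lit 26039932492, nat_lit 27416693288, nat_lit 27723083713, nat_lit 37404419620, nat_lit 36129685730], nat_lit 1271250, nat_lit 1271250, nat_lit 780000, nat_lit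 1762500, nat_lit 0, nat_lit 2373000, [nat_lit 1100000, nat_lit 1442500, nat_lit 1271250], [nat_lit 9, nat_lit 40, nat_lit 40, nat_lit 80, nat_lit 2, nat_lit 373, nat_lit 150, nat_lit 12]⟩,
 zbF0, [⟨nat_lit 16, nat_lit 100, nat_lit 84, nat_lit 88, nat_lit 440053317⟩]⟩
noncomputable def p052_l32 : Lf2 := ⟨nat_lit 0, nat_lit 3, [nat_lit 45, nat_lit 5, nat_lit 5, nat_lit 20], false, nat_lit 240, nat_lit 320, nat_lit 0, nat_lit 352, ⟨nat_lit 641, nat_lit 359, nat_lit 0, nat_lit 6, nat_lit 212, nat_lit 359, nat_lit 224, nat_lit 0, nat_lit 0, nat_lit 0, nat_lit 0, nat_lit 0, nat_lit 39904473, nat_lit 12977012, nat_lit 14118515, nat_lit 5153974, false, false⟩,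
 nat_lit 10620, nat_lit 0, nat_lit 0, nat_lit 955, nat_lit 6181, nat_lit 3950, nat_lit 0, nat_lit 0, nat_lit 0, nat_lit 1581, nat_lit 0, nat_lit 0, nat_lit 0, nat_lit 0, nat_lit 0, nat_lit 143600, nat_lit 0, nat_lit 0, [(nat_lit 9, [(nat_lit 1, nat_lit 359)])],
 ⟨p052_k0, nat_lit 0, nat_lit 0, nat_lit 83, nat_lit 0, nat_lit 52208, [nat_lit 3975284480, nat_lit 5033995200, nat_lit 6178313200], [], [nat_lit 14913675134, nat_lit 15634258519, nat_lit 18623324876, nat_lit 19184970634, nat_lit 20719613110, nat_lit 21279275145, nat_lit 23425548242, nat_lit 23940040305], nat_lit 1271250, nat_lit 1271250, nat_lit 780000, nat_lit 1762500, nat_lit 1271250, nat_lit 1271250, [nat_lit 1100000, nat_lit 1442500, nat_lit 1271250], [nat_lit 9, nat_lit 40, nat_lit 40, nat_lit 80, nat_lit 2, nat_lit 272, nat_lit 60, nat_lit 8]⟩, ⟨p052_k0, nat_lit 0, nat_lit 0, nat_lit 203, nat_lit 0, nat_lit 52208, [nat_lit 3005008000, nat_lit 4006250000,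 nat_lit 5107488000], [], [nat_lit 26970096792, nat_lit 25909644242, nat_lit 15719503612, nat_lit 16023028973, nat_lit 17363691007, nat_lit 17528529331, nat_lit 24572613348, nat_lit 23687372527], nat_lit 1271250, nat_lit 1271250, nat_lit 780000, nat_lit 1762500, nat_lit 0, nat_lit 2486000, [nat_lit 1100000, nat_lit 1442500, nat_lit 1271250], [nat_lit 9, nat_lit 40, nat_lit 40, nat_lit 80, nat_lit 2, nat_lit 373, nat_lit 150, nat_lit 12]⟩,
 ⟨nat_lit 5700, nat_lit 5917, ⟨.ofNat (nat_lit 406949), .ofNat (nat_lit 642540), .ofNat (nat_lit 417619), .ofNat (nat_lit 653208), .ofNat (nat_lit 410586), .ofNat (nat_lit 640733), .ofNat (nat_lit 421257), .ofNat (nat_lit 651403)⟩, ⟨.ofNat (nat_lit 471836), .ofNat (nat_lit 628898), .ofNat (nat_lit 493175), .ofNat (nat_lit 650236), .ofNat (nat_lit 470008), .ofNat (nat_lit 623441), .ofNat (nat_lit 491350), .ofNat (nat_lit 644781)⟩⟩, []⟩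
noncomputable def p052_l33 : Lf2 := ⟨nat_lit 0, nat_lit 3, [nat_lit 45, nat_lit 5, nat_lit 5, nat_lit 20], false, nat_lit 320, nat_lit 352, nat_lit 4, nat_lit 160, ⟨nat_lit 1000, nat_lit 0, nat_lit 0, nat_lit 0, nat_lit 0, nat_lit 0, nat_lit 0, nat_lit 0, nat_lit 0, nat_lit 0, nat_lit 0, nat_lit 0, nat_lit 0, nat_lit 0, nat_lit 0, nat_lit 0, false, false⟩,
 nat_lit 7166, nat_lit 5061, nat_lit 0, nat_lit 16721, nat_lit 7117, nat_lit 3793, nat_lit 2757, nat_lit 0, nat_lit 0, nat_lit 1844, nat_lit 0, nat_lit 0, nat_lit 0, nat_lit 0, nat_lit 0, nat_lit 0, nat_lit 0, nat_lit 0, [],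
 ⟨p052_k0, nat_lit 0, nat_lit 0, nat_lit 126, nat_lit 0, nat_lit 130120, [nat_lit 4688000000, nat_lit 6250000000, nat_lit 7968000000], [], [nat_lit 21431968707, nat_lit 21890630712, nat_lit 23730199394, nat_lit 24278315385, nat_lit 24594297046, nat_lit 25210613777, nat_lit 26631224813, nat_lit 27108349710], nat_lit 1271250, nat_lit 1271250, nat_lit 780000, nat_lit 1762500, nat_lit 1271250, nat_lit 1271250, [nat_lit 1100000, nat_lit 1442500, nat_lit 1271250], [nat_lit 9, nat_lit 40, nat_lit 40, nat_lit 80, nat_lit 2, nat_lit 272, nat_lit 60, nat_lit 8]⟩, ⟨p052_k1, nat_lit 0, nat_lit 0, nat_lit 219, nat_lit 0, nat_lit 146706, [nat_lit 4688000000, nat_lit 6250000000, nat_lit 7968000000], [], [nat_lit 38824937882, nat_lit 35774626247, nat_lit 33066899317, nat_lit 34097175437, nat_lit 31595118948, nat_lit 31176962445, nat_lit 39706552492, nat_lit 37096369198], nat_lit 1271250, nat_lit 1271250, nat_lit 780000, nat_lit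 1762500, nat_lit 21650, nat_lit 1100001, [nat_lit 1100000, nat_lit 1442500, nat_lit 1271250], [nat_lit 9, nat_lit 40, nat_lit 40, nat_lit 80, nat_lit 2, nat_lit 317, nat_lit 100, nat_lit 11]⟩,
 zbF0, [⟨nat_lit 16, nat_lit 100, nat_lit 69, nat_lit 96, nat_lit 823164853⟩]⟩
noncomputable def p052_l34 : Lf2 := ⟨nat_lit 0, nat_lit 3, [nat_lit 45, nat_lit 5, nat_lit 5, nat_lit 20], false, nat_lit 320, nat_lit 352, nat_lit 160, nat_lit 336, ⟨nat_lit 1000, nat_lit 0, nat_lit 0, nat_lit 0, nat_lit 0, nat_lit 0, nat_lit 0, nat_lit 0, nat_lit 0, nat_lit 0, nat_lit 0, nat_lit 0, nat_lit 0, nat_lit 0, nat_lit 0, nat_lit 0, false, false⟩,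
 nat_lit 16144, nat_lit 0, nat_lit 0, nat_lit 7784, nat_lit 7514, nat_lit 8546, nat_lit 1981, nat_lit 0, nat_lit 0, nat_lit 1906, nat_lit 0, nat_lit 0, nat_lit 0, nat_lit 0, nat_lit 0, nat_lit 0, nat_lit 0, nat_lit 0, [],
 ⟨p052_k0, nat_lit 0, nat_lit 0, nat_lit 126, nat_lit 0, nat_lit 130120, [nat_lit 4688000000, nat_lit 6250000000, nat_lit 7968000000], [], [nat_lit 21379603919, nat_lit 21849120555, nat_lit 21452579627, nat_lit 21992073228, nat_lit 24878412796, nat_lit 25511900729, nat_lit 24838679658, nat_lit 25431458035], nat_lit 1271250, nat_lit 1271250, nat_lit 780000, nat_lit 1100001, nat_lit 1271250, nat_lit 1271250, [nat_lit 1100000, nat_lit 1442500, nat_lit 1271250], [nat_lit 9, nat_lit 40, nat_lit 40, nat_lit 80, nat_lit 2, nat_lit 249, nat_lit 40, nat_lit 7]⟩, ⟨p052_k1, nat_lit 0, nat_lit 0, nat_lit 141, nat_lit 0, nat_lit 146706, [nat_lit 4688000000, nat_lit 6250000000, nat_lit 7968000000], [], [nat_lit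 23312973944, nat_lit 16925445710, nat_lit 27015187816, nat_lit 20718212998, nat_lit 22779092428, nat_lit 24293911732, nat_lit 22649871254, nat_lit 24199933417], nat_lit 1271250, nat_lit 1271250, nat_lit 780000, nat_lit 1100001, nat_lit 1271250, nat_lit 1271250, [nat_lit 1100000, nat_lit 1442500, nat_lit 1271250], [nat_lit 9, nat_lit 40, nat_lit 40, nat_lit 80, nat_lit 2, nat_lit 345, nat_lit 125, nat_lit 11]⟩,
 zbF0, [⟨nat_lit 4, nat_lit 80, nat_lit 100, nat_lit 92, nat_lit 596768190⟩, ⟨nat_lit 11, nat_lit 85, nat_lit 85, nat_lit 100, nat_lit 346610740⟩]⟩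
noncomputable def p052_l35 : Lf2 := ⟨nat_lit 0, nat_lit 3, [nat_lit 45, nat_lit 5, nat_lit 5, nat_lit 20], false, nat_lit 320, nat_lit 352, nat_lit 160, nat_lit 364, ⟨nat_lit 1000, nat_lit 0, nat_lit 0, nat_lit 0, nat_lit 0, nat_lit 0, nat_lit 0, nat_lit 0, nat_lit 0, nat_lit 0, nat_lit 0, nat_lit 0, nat_lit 0, nat_lit 0, nat_lit 0, nat_lit 0, false, false⟩,
 nat_lit 13070, nat_lit 0, nat_lit 0, nat_lit 15047, nat_lit 6824, nat_lit 6919, nat_lit 0, nat_lit 0, nat_lit 0, nat_lit 1699, nat_lit 0, nat_lit 0, nat_lit 0, nat_lit 0, nat_lit 0, nat_lit 0, nat_lit 0, nat_lit 0, [],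
 ⟨p052_k0, nat_lit 0, nat_lit 0, nat_lit 94, nat_lit 0, nat_lit 130120, [nat_lit 4688000000, nat_lit 6250000000, nat_lit 7968000000], [], [nat_lit 21223929488, nat_lit 21772317016, nat_lit 23634833168, nat_lit 24172423720, nat_lit 24433429962, nat_lit 24999338911, nat_lit 26460342173, nat_lit 26929397557], nat_lit 1271250, nat_lit 1271250, nat_lit 1100001, nat_lit 1785000, nat_lit 1271250, nat_lit 1271250, [nat_lit 1100000, nat_lit 1442500, nat_lit 1271250], [nat_lit 9, nat_lit 40, nat_lit 40, nat_lit 80, nat_lit 2, nat_lit 272, nat_lit 60, nat_lit 7]⟩, ⟨p052_k1, nat_lit 0, nat_lit 0, nat_lit 127, nat_lit 0, nat_lit 146706, [nat_lit 4688000000, nat_lit 6250000000, nat_lit 7968000000], [], [nat_lit 35231460960, nat_lit 29743953627, nat_lit 30788365612, nat_lit 25761456109, nat_lit 26501342189, nat_lit 27562870196, nat_lit 27857299300, nat_lit 28902244163], nat_lit 1271250, nat_lit 1271250, nat_lit 1100001, nat_lit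 1785000, nat_lit 1271250, nat_lit 1271250, [nat_lit 1100000, nat_lit 1442500, nat_lit 1271250], [nat_lit 9, nat_lit 40, nat_lit 40, nat_lit 80, nat_lit 2, nat_lit 401, nat_lit 175, nat_lit 13]⟩,
 zbF0, [⟨nat_lit 16, nat_lit 100, nat_lit 80, nat_lit 92, nat_lit 702504593⟩, ⟨nat_lit 11, nat_lit 71, nat_lit 71, nat_lit 100, nat_lit 182251280⟩]⟩
noncomputable def p052_l36 : Lf2 := ⟨nat_lit 1, nat_lit 6, [nat_lit 47, nat_lit 5, nat_lit 5, nat_lit 20], false, nat_lit 240, nat_lit 352, nat_lit 0, nat_lit 364, zbN0,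
 nat_lit 0, nat_lit 0, nat_lit 0, nat_lit 0, nat_lit 0, nat_lit 0, nat_lit 0, nat_lit 0, nat_lit 0, nat_lit 0, nat_lit 0, nat_lit 0, nat_lit 0, nat_lit 0, nat_lit 0, nat_lit 0, nat_lit 0, nat_lit 0, [],
 C1.Rw.none, C1.Rw.none,
 zbF0, []⟩
noncomputable def p052_l37 : Lf2 := ⟨nat_lit 0, nat_lit 6, [nat_lit 47, nat_lit 5, nat_lit 5, nat_lit 20], false, nat_lit 240, nat_lit 280, nat_lit 0, nat_lit 364, ⟨nat_lit 0, nat_lit 1000, nat_lit 0, nat_lit 6, nat_lit 206, nat_lit 1000, nat_lit 203, nat_lit 0, nat_lit 0, nat_lit 0, nat_lit 0, nat_lit 0, nat_lit 41791624, nat_lit 12770337, nat_lit 12438039, nat_lit 4976075, false, false⟩,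
 nat_lit 0, nat_lit 8234, nat_lit 0, nat_lit 0, nat_lit 5014, nat_lit 0, nat_lit 0, nat_lit 0, nat_lit 0, nat_lit 0, nat_lit 0, nat_lit 0, nat_lit 0, nat_lit 0, nat_lit 0, nat_lit 1000000, nat_lit 0, nat_lit 0, [(nat_lit 9, [(nat_lit 2, nat_lit 1000)])],
 ⟨p052_k3, nat_lit 0, nat_lit 0, nat_lit 85, nat_lit 0, nat_lit 132479, [nat_lit 2663466667, nat_lit 2329200000, nat_lit 1646800000], [], [nat_lit 15729120333, nat_lit 16374916523, nat_lit 19197658143, nat_lit 19708518395, nat_lit 18259093255, nat_lit 18836886495, nat_lit 21218802007, nat_lit 21680603232], nat_lit 1271250, nat_lit 1271250, nat_lit 780000, nat_lit 1762500, nat_lit 1271250, nat_lit 1271250, [nat_lit 1100000, nat_lit 1442500, nat_lit 1271250], [nat_lit 9, nat_lit 40, nat_lit 40, nat_lit 80, nat_lit 2, nat_lit 272, nat_lit 60, nat_lit 8]⟩, ⟨p052_k17, nat_lit 0, nat_lit 0, nat_lit 222, nat_lit 0, nat_lit 158368, [nat_lit 0, nat_lit 0, nat_lit 0], [],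 [nat_lit 0, nat_lit 0, nat_lit 0, nat_lit 0, nat_lit 0, nat_lit 0, nat_lit 0, nat_lit 0], nat_lit 1271250, nat_lit 1271250, nat_lit 780000, nat_lit 1762500, nat_lit 0, nat_lit 2570750, [nat_lit 1100000, nat_lit 1442500, nat_lit 1271250], [nat_lit 11, nat_lit 40, nat_lit 40, nat_lit 80, nat_lit 1, nat_lit 456, nat_lit 225, nat_lit 13]⟩,
 ⟨nat_lit 5477, nat_lit 5701, ⟨.ofNat (nat_lit 389244), .ofNat (nat_lit 619394), .ofNat (nat_lit 410586), .ofNat (nat_lit 640734), .ofNat (nat_lit 392847), .ofNat (nat_lit 617638), .ofNat (nat_lit 414204), .ofNat (nat_lit 638993)⟩, ⟨.ofNat (nat_lit 448666), .ofNat (nat_lit 525385), .ofNat (nat_lit 491350), .ofNat (nat_lit 568068), .ofNat (nat_lit 446789), .ofNat (nat_lit 521722), .ofNat (nat_lit 489503), .ofNat (nat_lit 564436)⟩⟩, []⟩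
noncomputable def p052_l38 : Lf2 := ⟨nat_lit 0, nat_lit 6, [nat_lit 47, nat_lit 5, nat_lit 5, nat_lit 20], false, nat_lit 240, nat_lit 280, nat_lit 0, nat_lit 352, ⟨nat_lit 1000, nat_lit 0, nat_lit 0, nat_lit 0, nat_lit 0, nat_lit 0, nat_lit 0, nat_lit 0, nat_lit 0, nat_lit 0, nat_lit 0, nat_lit 0, nat_lit 0, nat_lit 0, nat_lit 0, nat_lit 0, false, false⟩,
 nat_lit 10670, nat_lit 1171, nat_lit 0, nat_lit 0, nat_lit 7211, nat_lit 6210, nat_lit 0, nat_lit 0, nat_lit 0, nat_lit 1987, nat_lit 0, nat_lit 0, nat_lit 0, nat_lit 0, nat_lit 0, nat_lit 0, nat_lit 0, nat_lit 0, [],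
 ⟨p052_k3, nat_lit 0, nat_lit 0, nat_lit 89, nat_lit 0, nat_lit 183024, [nat_lit 4688000000, nat_lit 6250000000, nat_lit 7968000000], [], [nat_lit 15105431609, nat_lit 15892022544, nat_lit 18728671174, nat_lit 19335140472, nat_lit 18186133112, nat_lit 18881268122, nat_lit 21448593908, nat_lit 22087241568], nat_lit 1271250, nat_lit 1271250, nat_lit 780000, nat_lit 1762500, nat_lit 1271250, nat_lit 1271250, [nat_lit 1100000, nat_lit 1442500, nat_lit 1271250], [nat_lit 9, nat_lit 40, nat_lit 40, nat_lit 80, nat_lit 2, nat_lit 272, nat_lit 60, nat_lit 8]⟩, ⟨p052_k2, nat_lit 0, nat_lit 0, nat_lit 214, nat_lit 0, nat_lit 193791, [nat_lit 4688000000, nat_lit 6250000000, nat_lit 7968000000], [], [nat_lit 42173443380, nat_lit 40506250890, nat_lit 25213723450, nat_lit 25688828230, nat_lit 27651586646, nat_lit 27946498668, nat_lit 38724967569, nat_lit 37333234533], nat_lit 1271250, nat_lit 1271250, nat_lit 780000, nat_lit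 1762500, nat_lit 0, nat_lit 2486000, [nat_lit 1100000, nat_lit 1442500, nat_lit 1271250], [nat_lit 9, nat_lit 40, nat_lit 40, nat_lit 80, nat_lit 2, nat_lit 373, nat_lit 150, nat_lit 12]⟩,
 zbF0, []⟩
noncomputable def p052_l39 : Lf2 := ⟨nat_lit 0, nat_lit 6, [nat_lit 47, nat_lit 5, nat_lit 5, nat_lit 20], false, nat_lit 240, nat_lit 280, nat_lit 0, nat_lit 344, ⟨nat_lit 1000, nat_lit 0, nat_lit 0, nat_lit 0, nat_lit 0, nat_lit 0, nat_lit 0, nat_lit 0, nat_lit 0, nat_lit 0, nat_lit 0, nat_lit 0, nat_lit 0, nat_lit 0, nat_lit 0, nat_lit 0, false, false⟩,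
 nat_lit 15075, nat_lit 0, nat_lit 0, nat_lit 0, nat_lit 9180, nat_lit 6499, nat_lit 1415, nat_lit 0, nat_lit 0, nat_lit 1500, nat_lit 0, nat_lit 0, nat_lit 0, nat_lit 0, nat_lit 0, nat_lit 0, nat_lit 0, nat_lit 0, [],
 ⟨p052_k3, nat_lit 0, nat_lit 0, nat_lit 132, nat_lit 0, nat_lit 236458, [nat_lit 4688000000, nat_lit 6250000000, nat_lit 7968000000], [], [nat_lit 15618717685, nat_lit 16365209325, nat_lit 18420786180, nat_lit 19257240640, nat_lit 18569145235, nat_lit 19222665885, nat_lit 21722340040, nat_lit 22451679840], nat_lit 1271250, nat_lit 1271250, nat_lit 780000, nat_lit 1762500, nat_lit 1271250, nat_lit 1271250, [nat_lit 1100000, nat_lit 1442500, nat_lit 1271250], [nat_lit 9, nat_lit 40, nat_lit 40, nat_lit 80, nat_lit 2, nat_lit 272, nat_lit 60, nat_lit 8]⟩, ⟨p052_k3, nat_lit 0, nat_lit 0, nat_lit 213, nat_lit 0, nat_lit 236458, [nat_lit 4688000000, nat_lit 6250000000, nat_lit 7968000000], [], [nat_lit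 41024228191, nat_lit 39279448160, nat_lit 25290141603, nat_lit 25729587500, nat_lit 26450913714, nat_lit 26728865019, nat_lit 36465536893, nat_lit 35005311028], nat_lit 1271250, nat_lit 1271250, nat_lit 780000, nat_lit 1762500, nat_lit 0, nat_lit 2429500, [nat_lit 1100000, nat_lit 1442500, nat_lit 1271250], [nat_lit 9, nat_lit 40, nat_lit 40, nat_lit 80, nat_lit 2, nat_lit 373, nat_lit 150, nat_lit 12]⟩,
 zbF0, []⟩
noncomputable def p052_l40 : Lf2 := ⟨nat_lit 0, nat_lit 4, [nat_lit 38, nat_lit 5, nat_lit 5, nat_lit 20], false, nat_lit 280, nat_lit 344, nat_lit 0, nat_lit 160, ⟨nat_lit 1000, nat_lit 0, nat_lit 0, nat_lit 0, nat_lit 0, nat_lit 0, nat_lit 0, nat_lit 0, nat_lit 0, nat_lit 0, nat_lit 0, nat_lit 0, nat_lit 0, nat_lit 0, nat_lit 0, nat_lit 0, false, false⟩,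
 nat_lit 6473, nat_lit 4656, nat_lit 0, nat_lit 16510, nat_lit 6777, nat_lit 3426, nat_lit 1956, nat_lit 0, nat_lit 0, nat_lit 2194, nat_lit 0, nat_lit 0, nat_lit 0, nat_lit 0, nat_lit 0, nat_lit 0, nat_lit 0, nat_lit 0, [],
 ⟨p052_k19, nat_lit 0, nat_lit 0, nat_lit 124, nat_lit 0, nat_lit 129602, [nat_lit 4688000000, nat_lit 6250000000, nat_lit 7968000000], [], [nat_lit 20061618559, nat_lit 20556369680, nat_lit 22427902376, nat_lit 22860471866, nat_lit 24276390255, nat_lit 24722723745, nat_lit 26214378363, nat_lit 26699174623], nat_lit 1271250, nat_lit 1271250, nat_lit 780000, nat_lit 1762500, nat_lit 1271250, nat_lit 1271250, [nat_lit 1100000, nat_lit 1442500, nat_lit 1271250], [nat_lit 9, nat_lit 40, nat_lit 40, nat_lit 80, nat_lit 2, nat_lit 272, nat_lit 60, nat_lit 8]⟩, ⟨p052_k20, nat_lit 0, nat_lit 0, nat_lit 221, nat_lit 0, nat_lit 154727, [nat_lit 4688000000, nat_lit 6250000000, nat_lit 7968000000], [],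 [nat_lit 38275787016, nat_lit 36436237428, nat_lit 33790130384, nat_lit 34555382120, nat_lit 32209904136, nat_lit 31864498196, nat_lit 39916753944, nat_lit 38345001072], nat_lit 1271250, nat_lit 1271250, nat_lit 780000, nat_lit 1762500, nat_lit 0, nat_lit 1100001, [nat_lit 1100000, nat_lit 1442500, nat_lit 1271250], [nat_lit 9, nat_lit 40, nat_lit 40, nat_lit 80, nat_lit 2, nat_lit 317, nat_lit 100, nat_lit 11]⟩,
 zbF0, [⟨nat_lit 4, nat_lit 85, nat_lit 100, nat_lit 93, nat_lit 629150700⟩]⟩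
noncomputable def p052_l41 : Lf2 := ⟨nat_lit 0, nat_lit 4, [nat_lit 38, nat_lit 5, nat_lit 5, nat_lit 20], false, nat_lit 280, nat_lit 344, nat_lit 0, nat_lit 160, ⟨nat_lit 1000, nat_lit 0, nat_lit 0, nat_lit 0, nat_lit 0, nat_lit 0, nat_lit 0, nat_lit 0, nat_lit 0, nat_lit 0, nat_lit 0, nat_lit 0, nat_lit 0, nat_lit 0, nat_lit 0, nat_lit 0, false, false⟩,
 nat_lit 5772, nat_lit 5356, nat_lit 0, nat_lit 11126, nat_lit 6777, nat_lit 3359, nat_lit 1720, nat_lit 0, nat_lit 0, nat_lit 1837, nat_lit 0, nat_lit 0, nat_lit 0, nat_lit 0, nat_lit 0, nat_lit 0, nat_lit 0, nat_lit 0, [],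
 ⟨p052_k19, nat_lit 0, nat_lit 0, nat_lit 160, nat_lit 0, nat_lit 231324, [nat_lit 4688000000, nat_lit 6250000000, nat_lit 7968000000], [], [nat_lit 20723156059, nat_lit 21187427916, nat_lit 22486561606, nat_lit 22860471866, nat_lit 24353226993, nat_lit 24723559033, nat_lit 26214378363, nat_lit 26699174623], nat_lit 1271250, nat_lit 1271250, nat_lit 780000, nat_lit 1762500, nat_lit 1271250, nat_lit 1271250, [nat_lit 1100000, nat_lit 1442500, nat_lit 1271250], [nat_lit 9, nat_lit 40, nat_lit 40, nat_lit 80, nat_lit 2, nat_lit 272, nat_lit 60, nat_lit 8]⟩, ⟨p052_k21, nat_lit 0, nat_lit 0, nat_lit 218, nat_lit 0, nat_lit 244832, [nat_lit 4688000000, nat_lit 6250000000, nat_lit 7968000000], [], [nat_lit 36298165302, nat_lit 34494590560, nat_lit 31658467330, nat_lit 32419267854, nat_lit 29079979317, nat_lit 29812400619, nat_lit 32818649936, nat_lit 32299672262], nat_lit 1271250, nat_lit 1271250, nat_lit 780000, nat_lit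 1762500, nat_lit 0, nat_lit 1100001, [nat_lit 1100000, nat_lit 1442500, nat_lit 1271250], [nat_lit 9, nat_lit 40, nat_lit 40, nat_lit 80, nat_lit 2, nat_lit 317, nat_lit 100, nat_lit 10]⟩,
 zbF0, [⟨nat_lit 16, nat_lit 100, nat_lit 74, nat_lit 98, nat_lit 132504742⟩, ⟨nat_lit 4, nat_lit 85, nat_lit 100, nat_lit 93, nat_lit 436576635⟩]⟩
noncomputable def p052_l42 : Lf2 := ⟨nat_lit 0, nat_lit 4, [nat_lit 38, nat_lit 5, nat_lit 5, nat_lit 20], false, nat_lit 280, nat_lit 344, nat_lit 160, nat_lit 240, ⟨nat_lit 1000, nat_lit 0, nat_lit 0, nat_lit 0, nat_lit 0, nat_lit 0, nat_lit 0, nat_lit 0, nat_lit 0, nat_lit 0, nat_lit 0, nat_lit 0, nat_lit 0, nat_lit 0, nat_lit 0, nat_lit 0, false, false⟩,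
 nat_lit 8666, nat_lit 2462, nat_lit 0, nat_lit 14383, nat_lit 6777, nat_lit 4587, nat_lit 1956, nat_lit 0, nat_lit 0, nat_lit 1853, nat_lit 0, nat_lit 0, nat_lit 0, nat_lit 0, nat_lit 0, nat_lit 0, nat_lit 0, nat_lit 0, [],
 ⟨p052_k19, nat_lit 0, nat_lit 0, nat_lit 160, nat_lit 0, nat_lit 231324, [nat_lit 4688000000, nat_lit 6250000000, nat_lit 7968000000], [], [nat_lit 20061618559, nat_lit 20556369680, nat_lit 22427902376, nat_lit 22860471866, nat_lit 24276390255, nat_lit 24722723745, nat_lit 26214378363, nat_lit 26699174623], nat_lit 1271250, nat_lit 1271250, nat_lit 780000, nat_lit 1762500, nat_lit 1271250, nat_lit 1271250, [nat_lit 1100000, nat_lit 1442500, nat_lit 1271250], [nat_lit 9, nat_lit 40, nat_lit 40, nat_lit 80, nat_lit 2, nat_lit 272, nat_lit 60, nat_lit 8]⟩, ⟨p052_k20, nat_lit 0, nat_lit 0, nat_lit 151, nat_lit 0, nat_lit 276169, [nat_lit 4688000000, nat_lit 6250000000, nat_lit 7968000000], [],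 [nat_lit 33239866080, nat_lit 28389223668, nat_lit 32167338732, nat_lit 27785029020, nat_lit 29962286676, nat_lit 25518786384, nat_lit 38770542828, nat_lit 34505531880], nat_lit 1271250, nat_lit 1271250, nat_lit 780000, nat_lit 1762500, nat_lit 1100001, nat_lit 1785000, [nat_lit 1100000, nat_lit 1442500, nat_lit 1271250], [nat_lit 9, nat_lit 40, nat_lit 40, nat_lit 80, nat_lit 2, nat_lit 345, nat_lit 125, nat_lit 11]⟩,
 zbF0, [⟨nat_lit 4, nat_lit 85, nat_lit 100, nat_lit 93, nat_lit 629150700⟩]⟩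
noncomputable def p052_l43 : Lf2 := ⟨nat_lit 0, nat_lit 4, [nat_lit 38, nat_lit 5, nat_lit 5, nat_lit 20], false, nat_lit 280, nat_lit 344, nat_lit 240, nat_lit 364, ⟨nat_lit 1000, nat_lit 0, nat_lit 0, nat_lit 0, nat_lit 0, nat_lit 0, nat_lit 0, nat_lit 0, nat_lit 0, nat_lit 0, nat_lit 0, nat_lit 0, nat_lit 0, nat_lit 0, nat_lit 0, nat_lit 0, false, false⟩,
 nat_lit 14778, nat_lit 0, nat_lit 0, nat_lit 0, nat_lit 7531, nat_lit 7823, nat_lit 1557, nat_lit 0, nat_lit 0, nat_lit 1728, nat_lit 0, nat_lit 0, nat_lit 0, nat_lit 0, nat_lit 0, nat_lit 0, nat_lit 0, nat_lit 0, [],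
 ⟨p052_k19, nat_lit 0, nat_lit 0, nat_lit 160, nat_lit 0, nat_lit 231324, [nat_lit 4688000000, nat_lit 6250000000, nat_lit 7968000000], [], [nat_lit 19790979151, nat_lit 20277416723, nat_lit 21696199360, nat_lit 22146469728, nat_lit 24607649113, nat_lit 25266024566, nat_lit 26627886967, nat_lit 27135029149], nat_lit 1271250, nat_lit 1271250, nat_lit 780000, nat_lit 1762500, nat_lit 1271250, nat_lit 1271250, [nat_lit 1100000, nat_lit 1442500, nat_lit 1271250], [nat_lit 9, nat_lit 40, nat_lit 40, nat_lit 80, nat_lit 2, nat_lit 272, nat_lit 60, nat_lit 8]⟩, ⟨p052_k20, nat_lit 0, nat_lit 0, nat_lit 185, nat_lit 0, nat_lit 276169, [nat_lit 4688000000, nat_lit 6250000000, nat_lit 7968000000], [], [nat_lit 16951596260, nat_lit 19193153908, nat_lit 20856232212, nat_lit 21459950328, nat_lit 26062126556, nat_lit 27769306423, nat_lit 27286900974, nat_lit 29134552179], nat_lit 1271250, nat_lit 1271250, nat_lit 780000, nat_lit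 1762500, nat_lit 1271250, nat_lit 1271250, [nat_lit 1100000, nat_lit 1442500, nat_lit 1271250], [nat_lit 9, nat_lit 40, nat_lit 40, nat_lit 80, nat_lit 2, nat_lit 272, nat_lit 60, nat_lit 8]⟩,
 zbF0, [⟨nat_lit 4, nat_lit 85, nat_lit 100, nat_lit 93, nat_lit 174820767⟩, ⟨nat_lit 19, nat_lit 100, nat_lit 77, nat_lit 91, nat_lit 125983129⟩, ⟨nat_lit 11, nat_lit 95, nat_lit 92, nat_lit 100, nat_lit 26697566⟩, ⟨nat_lit 11, nat_lit 75, nat_lit 75, nat_lit 100, nat_lit 615181335⟩]⟩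
noncomputable def p052_l44 : Lf2 := ⟨nat_lit 1, nat_lit 6, [nat_lit 47, nat_lit 5, nat_lit 5, nat_lit 20], false, nat_lit 280, nat_lit 344, nat_lit 0, nat_lit 364, zbN0,
 nat_lit 0, nat_lit 0, nat_lit 0, nat_lit 0, nat_lit 0, nat_lit 0, nat_lit 0, nat_lit 0, nat_lit 0, nat_lit 0, nat_lit 0, nat_lit 0, nat_lit 0, nat_lit 0, nat_lit 0, nat_lit 0, nat_lit 0, nat_lit 0, [],
 C1.Rw.none, C1.Rw.none,
 zbF0, []⟩
noncomputable def p052_l45 : Lf2 := ⟨nat_lit 0, nat_lit 6, [nat_lit 47, nat_lit 5, nat_lit 5, nat_lit 20], false, nat_lit 280, nat_lit 344, nat_lit 0, nat_lit 352, ⟨nat_lit 1000, nat_lit 0, nat_lit 0, nat_lit 0, nat_lit 0, nat_lit 0, nat_lit 0, nat_lit 0, nat_lit 0, nat_lit 0, nat_lit 0, nat_lit 0, nat_lit 0, nat_lit 0, nat_lit 0, nat_lit 0, false, false⟩,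
 nat_lit 12532, nat_lit 0, nat_lit 0, nat_lit 25152, nat_lit 7223, nat_lit 7294, nat_lit 0, nat_lit 0, nat_lit 0, nat_lit 1322, nat_lit 0, nat_lit 0, nat_lit 0, nat_lit 0, nat_lit 0, nat_lit 0, nat_lit 0, nat_lit 0, [],
 ⟨p052_k3, nat_lit 0, nat_lit 0, nat_lit 79, nat_lit 0, nat_lit 58954, [nat_lit 4688000000, nat_lit 6250000000, nat_lit 7968000000], [], [nat_lit 18174676616, nat_lit 18870452546, nat_lit 21450262244, nat_lit 22089462624, nat_lit 24399410190, nat_lit 25043621092, nat_lit 26458973638, nat_lit 26956987778], nat_lit 1271250, nat_lit 1271250, nat_lit 780000, nat_lit 1762500, nat_lit 1271250, nat_lit 1271250, [nat_lit 1100000, nat_lit 1442500, nat_lit 1271250], [nat_lit 9, nat_lit 40, nat_lit 40, nat_lit 80, nat_lit 2, nat_lit 272, nat_lit 60, nat_lit 8]⟩, ⟨p052_k2, nat_lit 0, nat_lit 0, nat_lit 204, nat_lit 0, nat_lit 62422, [nat_lit 4688000000, nat_lit 6250000000, nat_lit 7968000000], [], [nat_lit 44407326732,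 nat_lit 40490900960, nat_lit 24972153186, nat_lit 25894933750, nat_lit 26529082287, nat_lit 26883897848, nat_lit 39119169712, nat_lit 35849829691], nat_lit 1271250, nat_lit 1271250, nat_lit 780000, nat_lit 1762500, nat_lit 0, nat_lit 2486000, [nat_lit 1100000, nat_lit 1442500, nat_lit 1271250], [nat_lit 9, nat_lit 40, nat_lit 40, nat_lit 80, nat_lit 2, nat_lit 373, nat_lit 150, nat_lit 12]⟩,
 zbF0, [⟨nat_lit 4, nat_lit 85, nat_lit 100, nat_lit 93, nat_lit 797821627⟩]⟩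
noncomputable def b_V_600_600_20_21 : St := ⟨true, nat_lit 1, nat_lit 1, nat_lit 1, nat_lit 120, nat_lit 240, nat_lit 280, nat_lit 240, nat_lit 280, nat_lit 120, nat_lit 240, nat_lit 80, nat_lit 120, nat_lit 240, nat_lit 364, nat_lit 0, nat_lit 364, nat_lit 0, nat_lit 24, nat_lit 0, nat_lit 0, nat_lit 0, nat_lit 0⟩
theorem d_V_600_600_20_21 (h : EB TB.env) : Dead b_V_600_600_20_21 := chkB_sound0 h (T :=
(.spl (nat_lit 0) (nat_lit 260)
(.ord (.spl (nat_lit 6) (nat_lit 4)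
(.spl (nat_lit 4) (nat_lit 320)
(.leaf p052_l26)
(.trZ (nat_lit 9) (nat_lit 87) (nat_lit 100) (nat_lit 25) (nat_lit 4) (.leaf p052_l27)))
(.leaf p052_l28)))
(.trX (nat_lit 16) (nat_lit 100) (nat_lit 69) (nat_lit 96) (nat_lit 352) (.spl (nat_lit 0) (nat_lit 270)
(.ord (.spl (nat_lit 6) (nat_lit 12)
(.spl (nat_lit 4) (nat_lit 320)
(.spl (nat_lit 1) (nat_lit 260)
(.spl (nat_lit 2) (nat_lit 160)
(.leaf p052_l29)
(.leaf p052_l30))
(.trX (nat_lit 19) (nat_lit 100) (nat_lit 69) (nat_lit 96) (nat_lit 352) (.spl (nat_lit 3) (nat_lit 100)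
(.trX (nat_lit 19) (nat_lit 100) (nat_lit 77) (nat_lit 91) (nat_lit 336) (.leaf p052_l31))
(.leaf p052_l32))))
(.trZ (nat_lit 9) (nat_lit 87) (nat_lit 100) (nat_lit 25) (nat_lit 4) (.spl (nat_lit 5) (nat_lit 160)
(.leaf p052_l33)
(.spl (nat_lit 2) (nat_lit 160)
(.trX (nat_lit 23) (nat_lit 82) (nat_lit 76) (nat_lit 100) (nat_lit 336) (.leaf p052_l34))
(.leaf p052_l35)))))
(.leaf p052_l36)))
(.trX (nat_lit 16) (nat_lit 100) (nat_lit 74) (nat_lit 98) (nat_lit 344) (.spl (nat_lit 4) (nat_lit 280)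
(.spl (nat_lit 1) (nat_lit 260)
(.leaf p052_l37)
(.trX (nat_lit 19) (nat_lit 100) (nat_lit 69) (nat_lit 96) (nat_lit 352) (.spl (nat_lit 1) (nat_lit 270)
(.leaf p052_l38)
(.trX (nat_lit 19) (nat_lit 100) (nat_lit 74) (nat_lit 98) (nat_lit 344) (.leaf p052_l39)))))
(.spl (nat_lit 6) (nat_lit 16)
(.spl (nat_lit 5) (nat_lit 160)
(.spl (nat_lit 1) (nat_lit 260)
(.leaf p052_l40)
(.leaf p052_l41))
(.spl (nat_lit 5) (nat_lit 240)
(.leaf p052_l42)
(.leaf p052_l43)))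
(.spl (nat_lit 1) (nat_lit 260)
(.leaf p052_l44)
(.trX (nat_lit 19) (nat_lit 100) (nat_lit 69) (nat_lit 96) (nat_lit 352) (.leaf p052_l45)))))))))) (by decide +kernel)
noncomputable def p052_l46 : Lf2 := ⟨nat_lit 0, nat_lit 6, [nat_lit 47, nat_lit 5, nat_lit 5, nat_lit 20], false, nat_lit 0, nat_lit 364, nat_lit 0, nat_lit 364, ⟨nat_lit 1000, nat_lit 0, nat_lit 0, nat_lit 0, nat_lit 0, nat_lit 0, nat_lit 0, nat_lit 0, nat_lit 0, nat_lit 0, nat_lit 0, nat_lit 0, nat_lit 0, nat_lit 0, nat_lit 0, nat_lit 0, false, false⟩,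
 nat_lit 12883, nat_lit 0, nat_lit 0, nat_lit 12677, nat_lit 6820, nat_lit 6820, nat_lit 1744, nat_lit 0, nat_lit 0, nat_lit 1744, nat_lit 0, nat_lit 0, nat_lit 0, nat_lit 0, nat_lit 0, nat_lit 0, nat_lit 0, nat_lit 0, [],
 ⟨p052_k17, nat_lit 0, nat_lit 0, nat_lit 221, nat_lit 0, nat_lit 26411, [nat_lit 4688000000, nat_lit 6250000000, nat_lit 9842000000], [], [nat_lit 24033996640, nat_lit 25080563760, nat_lit 35891165440, nat_lit 36877699280, nat_lit 28782939104, nat_lit 28613570363, nat_lit 35824587172, nat_lit 36254780625], nat_lit 1271250, nat_lit 1271250, nat_lit 1271250, nat_lit 1271250, nat_lit 0, nat_lit 2570750, [nat_lit 1100000, nat_lit 1442500, nat_lit 1271250], [nat_lit 11, nat_lit 40, nat_lit 40, nat_lit 80, nat_lit 1, nat_lit 538, nat_lit 300, nat_lit 15]⟩, ⟨p052_k17, nat_lit 0, nat_lit 0, nat_lit 221, nat_lit 0, nat_lit 26411, [nat_lit 4688000000, nat_lit 6250000000, nat_lit 9842000000], [], [nat_lit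 24033996640, nat_lit 25080563760, nat_lit 35891165440, nat_lit 36877699280, nat_lit 28782939104, nat_lit 28613570363, nat_lit 35824587172, nat_lit 36254780625], nat_lit 1271250, nat_lit 1271250, nat_lit 1271250, nat_lit 1271250, nat_lit 0, nat_lit 2570750, [nat_lit 1100000, nat_lit 1442500, nat_lit 1271250], [nat_lit 11, nat_lit 40, nat_lit 40, nat_lit 80, nat_lit 1, nat_lit 538, nat_lit 300, nat_lit 15]⟩,
 zbF0, [⟨nat_lit 4, nat_lit 72, nat_lit 100, nat_lit 89, nat_lit 210853118⟩, ⟨nat_lit 7, nat_lit 72, nat_lit 100, nat_lit 89, nat_lit 210853118⟩]⟩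
noncomputable def p052_l47 : Lf2 := ⟨nat_lit 0, nat_lit 6, [nat_lit 47, nat_lit 5, nat_lit 5, nat_lit 20], false, nat_lit 0, nat_lit 352, nat_lit 0, nat_lit 364, ⟨nat_lit 1000, nat_lit 0, nat_lit 0, nat_lit 0, nat_lit 0, nat_lit 0, nat_lit 0, nat_lit 0, nat_lit 0, nat_lit 0, nat_lit 0, nat_lit 0, nat_lit 0, nat_lit 0, nat_lit 0, nat_lit 0, false, false⟩,
 nat_lit 12959, nat_lit 0, nat_lit 0, nat_lit 3443, nat_lit 7158, nat_lit 6860, nat_lit 1331, nat_lit 0, nat_lit 0, nat_lit 1478, nat_lit 0, nat_lit 0, nat_lit 0, nat_lit 0, nat_lit 0, nat_lit 0, nat_lit 0, nat_lit 0, [],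
 ⟨p052_k2, nat_lit 0, nat_lit 0, nat_lit 287, nat_lit 0, nat_lit 250369, [nat_lit 4688000000, nat_lit 6250000000, nat_lit 7968000000], [], [nat_lit 25231516077, nat_lit 26146788625, nat_lit 37743048232, nat_lit 38748649328, nat_lit 27110537145, nat_lit 27613050411, nat_lit 36013498109, nat_lit 36473968964], nat_lit 1271250, nat_lit 1271250, nat_lit 1271250, nat_lit 1271250, nat_lit 0, nat_lit 2486000, [nat_lit 1100000, nat_lit 1442500, nat_lit 1271250], [nat_lit 9, nat_lit 40, nat_lit 40, nat_lit 80, nat_lit 2, nat_lit 317, nat_lit 100, nat_lit 10]⟩, ⟨p052_k17, nat_lit 0, nat_lit 0, nat_lit 336, nat_lit 0, nat_lit 282667, [nat_lit 4688000000, nat_lit 6250000000, nat_lit 9842000000], [], [nat_lit 28212579500, nat_lit 29811208220, nat_lit 36800150940, nat_lit 37968897760, nat_lit 30293862637, nat_lit 31015193332, nat_lit 35876632556, nat_lit 36736539348], nat_lit 1271250, nat_lit 1271250, nat_lit 1271250, nat_lit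 1271250, nat_lit 0, nat_lit 2570750, [nat_lit 1100000, nat_lit 1442500, nat_lit 1271250], [nat_lit 11, nat_lit 40, nat_lit 40, nat_lit 80, nat_lit 1, nat_lit 538, nat_lit 300, nat_lit 15]⟩,
 zbF0, [⟨nat_lit 4, nat_lit 82, nat_lit 100, nat_lit 92, nat_lit 174976930⟩, ⟨nat_lit 19, nat_lit 100, nat_lit 77, nat_lit 91, nat_lit 197021100⟩]⟩
noncomputable def b_V_600_600_20_22 : St := ⟨true, nat_lit 1, nat_lit 1, nat_lit 1, nat_lit 120, nat_lit 240, nat_lit 280, nat_lit 240, nat_lit 280, nat_lit 240, nat_lit 400, nat_lit 80, nat_lit 120, nat_lit 0, nat_lit 364, nat_lit 0, nat_lit 364, nat_lit 0, nat_lit 24, nat_lit 0, nat_lit 0, nat_lit 0, nat_lit 0⟩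
theorem d_V_600_600_20_22 (h : EB TB.env) : Dead b_V_600_600_20_22 := chkB_sound0 h (T :=
(.spl (nat_lit 0) (nat_lit 260)
(.ord (.leaf p052_l46))
(.trX (nat_lit 16) (nat_lit 100) (nat_lit 69) (nat_lit 96) (nat_lit 352) (.leaf p052_l47)))) (by decide +kernel)
noncomputable def p052_l48 : Lf2 := ⟨nat_lit 0, nat_lit 6, [nat_lit 47, nat_lit 5, nat_lit 5, nat_lit 20], true, nat_lit 0, nat_lit 160, nat_lit 0, nat_lit 364, ⟨nat_lit 0, nat_lit 1000, nat_lit 0, nat_lit 6, nat_lit 115, nat_lit 0, nat_lit 63, nat_lit 0, nat_lit 0, nat_lit 0, nat_lit 0, nat_lit 0, nat_lit 0, nat_lit 0, nat_lit 0, nat_lit 5000000, false, false⟩,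
 nat_lit 0, nat_lit 18361, nat_lit 0, nat_lit 7723, nat_lit 9720, nat_lit 0, nat_lit 1813, nat_lit 0, nat_lit 0, nat_lit 0, nat_lit 0, nat_lit 0, nat_lit 0, nat_lit 41778257540472, nat_lit 0, nat_lit 400000, nat_lit 0, nat_lit 0, [(nat_lit 6, [(nat_lit 1, nat_lit 1000)])],
 ⟨p052_k17, nat_lit 0, nat_lit 0, nat_lit 301, nat_lit 0, nat_lit 50485, [nat_lit 2692266667, nat_lit 3151066667, nat_lit 3294533333], [], [nat_lit 29019100353, nat_lit 23987153553, nat_lit 12497988423, nat_lit 14498239040, nat_lit 11149522184, nat_lit 13077174401, nat_lit 9616110294, nat_lit 7506267063], nat_lit 1271250, nat_lit 1271250, nat_lit 88400, nat_lit 780000, nat_lit 0, nat_lit 1100001, [nat_lit 1100000, nat_lit 1442500, nat_lit 1271250], [nat_lit 11, nat_lit 40, nat_lit 40, nat_lit 80, nat_lit 1, nat_lit 373, nat_lit 150, nat_lit 11]⟩, C1.Rw.none,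
 ⟨nat_lit 5916, nat_lit 6325, ⟨.ofNat (nat_lit 164319), .ofNat (nat_lit 378206), .ofNat (nat_lit 185687), .ofNat (nat_lit 399574), .ofNat (nat_lit 181423), .ofNat (nat_lit 385610), .ofNat (nat_lit 202762), .ofNat (nat_lit 406949)⟩, ⟨.negSucc (nat_lit 39529), .ofNat (nat_lit 289527), .ofNat (nat_lit 0), .ofNat (nat_lit 332263), .negSucc (nat_lit 20704), .ofNat (nat_lit 293429), .ofNat (nat_lit 0), .ofNat (nat_lit 336108)⟩⟩, [⟨nat_lit 0, nat_lit 100, nat_lit 100, nat_lit 60, nat_lit 451624304⟩]⟩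
noncomputable def p052_l49 : Lf2 := ⟨nat_lit 0, nat_lit 6, [nat_lit 47, nat_lit 5, nat_lit 5, nat_lit 20], true, nat_lit 0, nat_lit 160, nat_lit 0, nat_lit 364, ⟨nat_lit 0, nat_lit 1000, nat_lit 0, nat_lit 6, nat_lit 127, nat_lit 1000, nat_lit 63, nat_lit 0, nat_lit 0, nat_lit 0, nat_lit 0, nat_lit 0, nat_lit 0, nat_lit 0, nat_lit 0, nat_lit 5000000, false, false⟩,
 nat_lit 0, nat_lit 6460, nat_lit 0, nat_lit 0, nat_lit 3760, nat_lit 0, nat_lit 871, nat_lit 0, nat_lit 0, nat_lit 0, nat_lit 0, nat_lit 0, nat_lit 0, nat_lit 23011275813028, nat_lit 0, nat_lit 1000000, nat_lit 0, nat_lit 0, [(nat_lit 9, [(nat_lit 2, nat_lit 1000)])],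
 ⟨p052_k2, nat_lit 0, nat_lit 0, nat_lit 406, nat_lit 0, nat_lit 444157, [nat_lit 2663466667, nat_lit 2329200000, nat_lit 1646800000], [], [nat_lit 29364287426, nat_lit 27394190306, nat_lit 22251486566, nat_lit 23138446828, nat_lit 23866658581, nat_lit 23416510316, nat_lit 27624357877, nat_lit 25876326357], nat_lit 1271250, nat_lit 1271250, nat_lit 134400, nat_lit 780000, nat_lit 0, nat_lit 1100001, [nat_lit 1100000, nat_lit 1442500, nat_lit 1271250], [nat_lit 9, nat_lit 40, nat_lit 40, nat_lit 80, nat_lit 2, nat_lit 289, nat_lit 75, nat_lit 10]⟩, C1.Rw.none,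
 ⟨nat_lit 5477, nat_lit 5917, ⟨.ofNat (nat_lit 197129), .ofNat (nat_lit 385610), .ofNat (nat_lit 239808), .ofNat (nat_lit 428288), .ofNat (nat_lit 213007), .ofNat (nat_lit 392847), .ofNat (nat_lit 255721), .ofNat (nat_lit 435561)⟩, ⟨.negSucc (nat_lit 20704), .ofNat (nat_lit 293429), .ofNat (nat_lit 0), .ofNat (nat_lit 336108), .negSucc (nat_lit 2808), .ofNat (nat_lit 296923), .ofNat (nat_lit 0), .ofNat (nat_lit 339637)⟩⟩, []⟩
noncomputable def p052_l50 : Lf2 := ⟨nat_lit 0, nat_lit 6, [nat_lit 47, nat_lit 5, nat_lit 5, nat_lit 20], false, nat_lit 0, nat_lit 160, nat_lit 0, nat_lit 364, ⟨nat_lit 339, nat_lit 661, nat_lit 0, nat_lit 6, nat_lit 206, nat_lit 661, nat_lit 63, nat_lit 0, nat_lit 0, nat_lit 0, nat_lit 0, nat_lit 0, nat_lit 0, nat_lit 0, nat_lit 0, nat_lit 5000000, false, false⟩,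
 nat_lit 0, nat_lit 5441, nat_lit 0, nat_lit 7929, nat_lit 2880, nat_lit 2599, nat_lit 861, nat_lit 0, nat_lit 0, nat_lit 670, nat_lit 0, nat_lit 0, nat_lit 0, nat_lit 0, nat_lit 0, nat_lit 264400, nat_lit 0, nat_lit 0, [(nat_lit 6, [(nat_lit 1, nat_lit 661)]), (nat_lit 9, [(nat_lit 1, nat_lit 661)])],
 ⟨p052_k17, nat_lit 0, nat_lit 0, nat_lit 317, nat_lit 0, nat_lit 276688, [nat_lit 3375729920, nat_lit 4201605067, nat_lit 5462065111], [], [nat_lit 34232893920, nat_lit 31140131040, nat_lit 30663213348, nat_lit 31916967108, nat_lit 29187733440, nat_lit 29794010308, nat_lit 36292668480, nat_lit 33650141760], nat_lit 1271250, nat_lit 1271250, nat_lit 780000, nat_lit 1762500, nat_lit 0, nat_lit 1100001, [nat_lit 1100000, nat_lit 1442500, nat_lit 1271250], [nat_lit 11, nat_lit 40, nat_lit 40, nat_lit 80, nat_lit 1, nat_lit 401, nat_lit 175, nat_lit 12]⟩, ⟨p052_k17, nat_lit 0, nat_lit 0, nat_lit 146, nat_lit 0, nat_lit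 0, [nat_lit 1589232000, nat_lit 2118750000, nat_lit 3336438000], [], [nat_lit 6407724008, nat_lit 6948681224, nat_lit 7738759596, nat_lit 8187085966, nat_lit 8863259683, nat_lit 9114805412, nat_lit 9283699032, nat_lit 9527089201], nat_lit 0, nat_lit 0, nat_lit 0, nat_lit 0, nat_lit 0, nat_lit 0, [], [nat_lit 11, nat_lit 40, nat_lit 40, nat_lit 80, nat_lit 1, nat_lit 456, nat_lit 225, nat_lit 13]⟩,
 ⟨nat_lit 5477, nat_lit 6325, ⟨.ofNat (nat_lit 378206), .ofNat (nat_lit 624852), .ofNat (nat_lit 399574), .ofNat (nat_lit 646189), .ofNat (nat_lit 392847), .ofNat (nat_lit 617499), .ofNat (nat_lit 414204), .ofNat (nat_lit 638825)⟩, ⟨.negSucc (nat_lit 39529), .ofNat (nat_lit 289527), .ofNat (nat_lit 0), .ofNat (nat_lit 332263), .negSucc (nat_lit 2808), .ofNat (nat_lit 296923), .ofNat (nat_lit 0), .ofNat (nat_lit 339637)⟩⟩, [⟨nat_lit 7, nat_lit 72, nat_lit 100, nat_lit 89, nat_lit 95363509⟩]⟩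
noncomputable def p052_l51 : Lf2 := ⟨nat_lit 0, nat_lit 6, [nat_lit 47, nat_lit 5, nat_lit 5, nat_lit 20], false, nat_lit 0, nat_lit 160, nat_lit 0, nat_lit 352, ⟨nat_lit 593, nat_lit 407, nat_lit 0, nat_lit 6, nat_lit 215, nat_lit 407, nat_lit 63, nat_lit 0, nat_lit 0, nat_lit 0, nat_lit 0, nat_lit 0, nat_lit 0, nat_lit 0, nat_lit 0, nat_lit 5000000, false, false⟩,
 nat_lit 0, nat_lit 4455, nat_lit 0, nat_lit 4715, nat_lit 2593, nat_lit 3730, nat_lit 1188, nat_lit 0, nat_lit 0, nat_lit 0, nat_lit 0, nat_lit 0, nat_lit 0, nat_lit 11427099583026, nat_lit 0, nat_lit 407000, nat_lit 0, nat_lit 0, [(nat_lit 9, [(nat_lit 2, nat_lit 407)])],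
 ⟨p052_k2, nat_lit 0, nat_lit 0, nat_lit 320, nat_lit 0, nat_lit 444157, [nat_lit 3864014934, nat_lit 4654234400, nat_lit 5372144600], [], [nat_lit 33071639222, nat_lit 31679358988, nat_lit 30700576472, nat_lit 31092576942, nat_lit 29894715566, nat_lit 29106762046, nat_lit 36732308698, nat_lit 35542712902], nat_lit 1271250, nat_lit 1271250, nat_lit 780000, nat_lit 1762500, nat_lit 0, nat_lit 1100001, [nat_lit 1100000, nat_lit 1442500, nat_lit 1271250], [nat_lit 9, nat_lit 40, nat_lit 40, nat_lit 80, nat_lit 2, nat_lit 317, nat_lit 100, nat_lit 10]⟩, ⟨p052_k2, nat_lit 0, nat_lit 0, nat_lit 88, nat_lit 0, nat_lit 0, [nat_lit 2779984000, nat_lit 3706250000, nat_lit 4725024000], [], [nat_lit 8089929562, nat_lit 9332801128, nat_lit 11343658792, nat_lit 12305998356, nat_lit 14329829115, nat_lit 14922004984, nat_lit 15506317681, nat_lit 16045176642], nat_lit 0, nat_lit 0, nat_lit 0, nat_lit 0, nat_lit 0, nat_lit 0, [],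 [nat_lit 9, nat_lit 40, nat_lit 40, nat_lit 80, nat_lit 2, nat_lit 373, nat_lit 150, nat_lit 12]⟩,
 ⟨nat_lit 5477, nat_lit 5917, ⟨.ofNat (nat_lit 406949), .ofNat (nat_lit 642507), .ofNat (nat_lit 428288), .ofNat (nat_lit 663838), .ofNat (nat_lit 414204), .ofNat (nat_lit 638960), .ofNat (nat_lit 435561), .ofNat (nat_lit 660309)⟩, ⟨.negSucc (nat_lit 20704), .ofNat (nat_lit 293429), .ofNat (nat_lit 0), .ofNat (nat_lit 336108), .negSucc (nat_lit 2808), .ofNat (nat_lit 296923), .ofNat (nat_lit 0), .ofNat (nat_lit 339637)⟩⟩, [⟨nat_lit 7, nat_lit 82, nat_lit 100, nat_lit 92, nat_lit 182423183⟩]⟩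
noncomputable def p052_l52 : Lf2 := ⟨nat_lit 0, nat_lit 3, [nat_lit 45, nat_lit 5, nat_lit 5, nat_lit 20], true, nat_lit 160, nat_lit 364, nat_lit 0, nat_lit 364, ⟨nat_lit 0, nat_lit 1000, nat_lit 0, nat_lit 6, nat_lit 163, nat_lit 1000, nat_lit 207, nat_lit 0, nat_lit 0, nat_lit 0, nat_lit 0, nat_lit 0, nat_lit 0, nat_lit 0, nat_lit 0, nat_lit 5000000, false, false⟩,
 nat_lit 0, nat_lit 9527, nat_lit 0, nat_lit 2440, nat_lit 5043, nat_lit 0, nat_lit 292, nat_lit 0, nat_lit 0, nat_lit 0, nat_lit 0, nat_lit 0, nat_lit 0, nat_lit 30853473989735, nat_lit 0, nat_lit 1000000, nat_lit 0, nat_lit 0, [(nat_lit 6, [(nat_lit 2, nat_lit 1000)])],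
 ⟨p052_k1, nat_lit 0, nat_lit 0, nat_lit 185, nat_lit 0, nat_lit 49374, [nat_lit 2819200000, nat_lit 2800800000, nat_lit 2471200000], [], [nat_lit 31189996533, nat_lit 28539627711, nat_lit 29221232776, nat_lit 26812252192, nat_lit 27049462267, nat_lit 27595671573, nat_lit 26395832409, nat_lit 26825769578], nat_lit 1271250, nat_lit 1271250, nat_lit 88400, nat_lit 1704000, nat_lit 1271250, nat_lit 1271250, [nat_lit 1100000, nat_lit 1442500, nat_lit 1271250], [nat_lit 9, nat_lit 40, nat_lit 40, nat_lit 80, nat_lit 2, nat_lit 401, nat_lit 175, nat_lit 13]⟩, C1.Rw.none,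
 ⟨nat_lit 5916, nat_lit 6325, ⟨.ofNat (nat_lit 164319), .ofNat (nat_lit 624961), .ofNat (nat_lit 185687), .ofNat (nat_lit 646322), .ofNat (nat_lit 181423), .ofNat (nat_lit 621173), .ofNat (nat_lit 202762), .ofNat (nat_lit 642505)⟩, ⟨.ofNat (nat_lit 289527), .ofNat (nat_lit 709020), .ofNat (nat_lit 332263), .ofNat (nat_lit 751741), .ofNat (nat_lit 293429), .ofNat (nat_lit 693896), .ofNat (nat_lit 336108), .ofNat (nat_lit 736560)⟩⟩, [⟨nat_lit 0, nat_lit 100, nat_lit 100, nat_lit 60, nat_lit 7898349⟩, ⟨nat_lit 4, nat_lit 72, nat_lit 100, nat_lit 89, nat_lit 54357282⟩]⟩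
noncomputable def p052_l53 : Lf2 := ⟨nat_lit 0, nat_lit 3, [nat_lit 45, nat_lit 5, nat_lit 5, nat_lit 20], true, nat_lit 160, nat_lit 352, nat_lit 0, nat_lit 364, ⟨nat_lit 0, nat_lit 1000, nat_lit 0, nat_lit 6, nat_lit 169, nat_lit 1000, nat_lit 200, nat_lit 0, nat_lit 0, nat_lit 0, nat_lit 0, nat_lit 0, nat_lit 0, nat_lit 0, nat_lit 0, nat_lit 5000000, false, false⟩,
 nat_lit 0, nat_lit 8368, nat_lit 0, nat_lit 0, nat_lit 4870, nat_lit 0, nat_lit 42, nat_lit 0, nat_lit 0, nat_lit 0, nat_lit 0, nat_lit 0, nat_lit 0, nat_lit 0, nat_lit 0, nat_lit 1000000, nat_lit 0, nat_lit 0, [(nat_lit 9, [(nat_lit 2, nat_lit 1000)])],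
 ⟨p052_k0, nat_lit 0, nat_lit 0, nat_lit 242, nat_lit 0, nat_lit 236437, [nat_lit 2663466667, nat_lit 2329200000, nat_lit 1646800000], [], [nat_lit 27106406323, nat_lit 24554711383, nat_lit 26394518697, nat_lit 24068178137, nat_lit 25914836209, nat_lit 26671564872, nat_lit 25670174913, nat_lit 26153530057], nat_lit 1271250, nat_lit 1271250, nat_lit 134400, nat_lit 1708500, nat_lit 1271250, nat_lit 1271250, [nat_lit 1100000, nat_lit 1442500, nat_lit 1271250], [nat_lit 9, nat_lit 40, nat_lit 40, nat_lit 80, nat_lit 2, nat_lit 373, nat_lit 150, nat_lit 12]⟩, C1.Rw.none,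
 ⟨nat_lit 5477, nat_lit 5917, ⟨.ofNat (nat_lit 197129), .ofNat (nat_lit 621176), .ofNat (nat_lit 218469), .ofNat (nat_lit 642507), .ofNat (nat_lit 213007), .ofNat (nat_lit 617611), .ofNat (nat_lit 234364), .ofNat (nat_lit 638960)⟩, ⟨.ofNat (nat_lit 293429), .ofNat (nat_lit 670368), .ofNat (nat_lit 336108), .ofNat (nat_lit 713031), .ofNat (nat_lit 296923), .ofNat (nat_lit 656580), .ofNat (nat_lit 339637), .ofNat (nat_lit 699278)⟩⟩, [⟨nat_lit 4, nat_lit 82, nat_lit 100, nat_lit 92, nat_lit 101439735⟩]⟩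
noncomputable def p052_l54 : Lf2 := ⟨nat_lit 1, nat_lit 6, [nat_lit 47, nat_lit 5, nat_lit 5, nat_lit 20], false, nat_lit 160, nat_lit 364, nat_lit 0, nat_lit 364, zbN0,
 nat_lit 0, nat_lit 0, nat_lit 0, nat_lit 0, nat_lit 0, nat_lit 0, nat_lit 0, nat_lit 0, nat_lit 0, nat_lit 0, nat_lit 0, nat_lit 0, nat_lit 0, nat_lit 0, nat_lit 0, nat_lit 0, nat_lit 0, nat_lit 0, [],
 C1.Rw.none, C1.Rw.none,
 zbF0, []⟩
noncomputable def p052_l55 : Lf2 := ⟨nat_lit 0, nat_lit 6, [nat_lit 47, nat_lit 5, nat_lit 5, nat_lit 20], true, nat_lit 160, nat_lit 240, nat_lit 0, nat_lit 352, ⟨nat_lit 0, nat_lit 1000, nat_lit 0, nat_lit 6, nat_lit 182, nat_lit 1000, nat_lit 157, nat_lit 0, nat_lit 0, nat_lit 0, nat_lit 0, nat_lit 0, nat_lit 0, nat_lit 0, nat_lit 0, nat_lit 5000000, false, false⟩,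
 nat_lit 0, nat_lit 8940, nat_lit 0, nat_lit 0, nat_lit 5203, nat_lit 0, nat_lit 3105, nat_lit 0, nat_lit 0, nat_lit 0, nat_lit 0, nat_lit 0, nat_lit 0, nat_lit 27288996781100, nat_lit 0, nat_lit 400000, nat_lit 0, nat_lit 0, [(nat_lit 9, [(nat_lit 1, nat_lit 1000)])],
 ⟨p052_k22, nat_lit 0, nat_lit 0, nat_lit 268, nat_lit 0, nat_lit 444157, [nat_lit 2742800000, nat_lit 3014800000], [], [nat_lit 25748559133, nat_lit 23034809611, nat_lit 25538454750, nat_lit 23086769932, nat_lit 18464486723, nat_lit 19473543110, nat_lit 20535513266, nat_lit 21263596008], nat_lit 1271250, nat_lit 1271250, nat_lit 205650, nat_lit 1715250, nat_lit 1271250, nat_lit 1271250, [nat_lit 1100000, nat_lit 1785000], [nat_lit 39, nat_lit 40, nat_lit 40, nat_lit 80, nat_lit 7, nat_lit 345, nat_lit 125, nat_lit 11]⟩, C1.Rw.none,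
 ⟨nat_lit 5477, nat_lit 5917, ⟨.ofNat (nat_lit 242029), .ofNat (nat_lit 642507), .ofNat (nat_lit 263368), .ofNat (nat_lit 663838), .ofNat (nat_lit 256844), .ofNat (nat_lit 638960), .ofNat (nat_lit 278201), .ofNat (nat_lit 660309)⟩, ⟨.ofNat (nat_lit 293429), .ofNat (nat_lit 450496), .ofNat (nat_lit 336108), .ofNat (nat_lit 493175), .ofNat (nat_lit 296923), .ofNat (nat_lit 446789), .ofNat (nat_lit 339637), .ofNat (nat_lit 489503)⟩⟩, []⟩
noncomputable def p052_l56 : Lf2 := ⟨nat_lit 0, nat_lit 6, [nat_lit 47, nat_lit 5, nat_lit 5, nat_lit 20], true, nat_lit 240, nat_lit 352, nat_lit 0, nat_lit 352, ⟨nat_lit 0, nat_lit 1000, nat_lit 0, nat_lit 6, nat_lit 152, nat_lit 1000, nat_lit 231, nat_lit 0, nat_lit 0, nat_lit 0, nat_lit 0, nat_lit 0, nat_lit 0, nat_lit 0, nat_lit 0, nat_lit 5000000, false, false⟩,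
 nat_lit 0, nat_lit 8250, nat_lit 0, nat_lit 0, nat_lit 4801, nat_lit 0, nat_lit 566, nat_lit 0, nat_lit 0, nat_lit 0, nat_lit 0, nat_lit 0, nat_lit 0, nat_lit 0, nat_lit 0, nat_lit 1000000, nat_lit 0, nat_lit 0, [(nat_lit 9, [(nat_lit 2, nat_lit 1000)])],
 ⟨p052_k2, nat_lit 0, nat_lit 0, nat_lit 304, nat_lit 0, nat_lit 444157, [nat_lit 2663466667, nat_lit 2329200000, nat_lit 1646800000], [], [nat_lit 19596866900, nat_lit 20436600927, nat_lit 19556426178, nat_lit 20329391368, nat_lit 25064198159, nat_lit 25772323102, nat_lit 24503011033, nat_lit 25112728013], nat_lit 1271250, nat_lit 1271250, nat_lit 205650, nat_lit 1100001, nat_lit 1271250, nat_lit 1271250, [nat_lit 1100000, nat_lit 1442500, nat_lit 1271250], [nat_lit 9, nat_lit 40, nat_lit 40, nat_lit 80, nat_lit 2, nat_lit 249, nat_lit 40, nat_lit 8]⟩, C1.Rw.none,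
 ⟨nat_lit 5477, nat_lit 5917, ⟨.ofNat (nat_lit 242029), .ofNat (nat_lit 485478), .ofNat (nat_lit 263368), .ofNat (nat_lit 506809), .ofNat (nat_lit 256844), .ofNat (nat_lit 489132), .ofNat (nat_lit 278201), .ofNat (nat_lit 510480)⟩, ⟨.ofNat (nat_lit 450496), .ofNat (nat_lit 670368), .ofNat (nat_lit 493175), .ofNat (nat_lit 713031), .ofNat (nat_lit 446789), .ofNat (nat_lit 656580), .ofNat (nat_lit 489503), .ofNat (nat_lit 699278)⟩⟩, [⟨nat_lit 4, nat_lit 82, nat_lit 100, nat_lit 92, nat_lit 348774542⟩]⟩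
noncomputable def p052_l57 : Lf2 := ⟨nat_lit 0, nat_lit 6, [nat_lit 47, nat_lit 5, nat_lit 5, nat_lit 20], false, nat_lit 240, nat_lit 352, nat_lit 0, nat_lit 352, ⟨nat_lit 674, nat_lit 326, nat_lit 0, nat_lit 6, nat_lit 230, nat_lit 326, nat_lit 231, nat_lit 0, nat_lit 0, nat_lit 0, nat_lit 0, nat_lit 0, nat_lit 0, nat_lit 0, nat_lit 0, nat_lit 5000000, false, false⟩,
 nat_lit 0, nat_lit 10929, nat_lit 0, nat_lit 0, nat_lit 6361, nat_lit 4265, nat_lit 2004, nat_lit 0, nat_lit 0, nat_lit 0, nat_lit 0, nat_lit 0, nat_lit 0, nat_lit 8572714983617, nat_lit 0, nat_lit 326000, nat_lit 0, nat_lit 0, [(nat_lit 9, [(nat_lit 2, nat_lit 326)])],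
 ⟨p052_k2, nat_lit 0, nat_lit 0, nat_lit 243, nat_lit 0, nat_lit 444157, [nat_lit 4028002134, nat_lit 4971819201, nat_lit 5881002799], [], [nat_lit 19096568956, nat_lit 19920068793, nat_lit 20965317944, nat_lit 21745874298, nat_lit 24602755355, nat_lit 25257430286, nat_lit 26190312610, nat_lit 27102920412], nat_lit 1271250, nat_lit 1271250, nat_lit 1100001, nat_lit 1785000, nat_lit 1271250, nat_lit 1271250, [nat_lit 1100000, nat_lit 1442500, nat_lit 1271250], [nat_lit 9, nat_lit 40, nat_lit 40, nat_lit 80, nat_lit 2, nat_lit 272, nat_lit 60, nat_lit 8]⟩, ⟨p052_k2, nat_lit 0, nat_lit 0, nat_lit 88, nat_lit 0, nat_lit 0, [nat_lit 3159712000, nat_lit 4212500000, nat_lit 5370432000], [], [nat_lit 9902918886, nat_lit 11227652096, nat_lit 12884678256, nat_lit 13982236908, nat_lit 16377145415, nat_lit 17008549875, nat_lit 17639256791, nat_lit 18253125349], nat_lit 0, nat_lit 0, nat_lit 0, nat_lit 0, nat_lit 0, nat_lit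 0, [], [nat_lit 9, nat_lit 40, nat_lit 40, nat_lit 80, nat_lit 2, nat_lit 373, nat_lit 150, nat_lit 12]⟩,
 ⟨nat_lit 5477, nat_lit 5917, ⟨.ofNat (nat_lit 485478), .ofNat (nat_lit 642507), .ofNat (nat_lit 506809), .ofNat (nat_lit 663838), .ofNat (nat_lit 489132), .ofNat (nat_lit 638960), .ofNat (nat_lit 510480), .ofNat (nat_lit 660309)⟩, ⟨.ofNat (nat_lit 450496), .ofNat (nat_lit 670368), .ofNat (nat_lit 493175), .ofNat (nat_lit 713031), .ofNat (nat_lit 446789), .ofNat (nat_lit 656580), .ofNat (nat_lit 489503), .ofNat (nat_lit 699278)⟩⟩, [⟨nat_lit 16, nat_lit 100, nat_lit 82, nat_lit 92, nat_lit 474298088⟩, ⟨nat_lit 19, nat_lit 100, nat_lit 82, nat_lit 92, nat_lit 230937319⟩]⟩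
noncomputable def p052_l58 : Lf2 := ⟨nat_lit 0, nat_lit 3, [nat_lit 45, nat_lit 5, nat_lit 5, nat_lit 20], false, nat_lit 0, nat_lit 364, nat_lit 0, nat_lit 364, ⟨nat_lit 1000, nat_lit 0, nat_lit 0, nat_lit 0, nat_lit 0, nat_lit 0, nat_lit 0, nat_lit 0, nat_lit 0, nat_lit 0, nat_lit 0, nat_lit 0, nat_lit 0, nat_lit 0, nat_lit 0, nat_lit 0, false, false⟩,
 nat_lit 0, nat_lit 12743, nat_lit 0, nat_lit 12636, nat_lit 6746, nat_lit 6894, nat_lit 1583, nat_lit 0, nat_lit 0, nat_lit 1581, nat_lit 0, nat_lit 0, nat_lit 0, nat_lit 0, nat_lit 0, nat_lit 0, nat_lit 0, nat_lit 0, [],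
 ⟨p052_k1, nat_lit 0, nat_lit 0, nat_lit 206, nat_lit 0, nat_lit 49374, [nat_lit 4688000000, nat_lit 6250000000, nat_lit 7968000000], [], [nat_lit 22937876955, nat_lit 24110343811, nat_lit 35705884832, nat_lit 36688244184, nat_lit 28900753972, nat_lit 28658383628, nat_lit 35728303212, nat_lit 36158940768], nat_lit 1271250, nat_lit 1271250, nat_lit 1271250, nat_lit 1271250, nat_lit 0, nat_lit 2570750, [nat_lit 1100000, nat_lit 1442500, nat_lit 1271250], [nat_lit 9, nat_lit 40, nat_lit 40, nat_lit 80, nat_lit 2, nat_lit 317, nat_lit 100, nat_lit 10]⟩, ⟨p052_k1, nat_lit 0, nat_lit 0, nat_lit 192, nat_lit 0, nat_lit 0, [nat_lit 4688000000, nat_lit 6250000000, nat_lit 7968000000], [], [nat_lit 22753773745, nat_lit 23939121929, nat_lit 36076446048, nat_lit 37067154376, nat_lit 27945028309, nat_lit 28569339890, nat_lit 35920871133, nat_lit 36350620481], nat_lit 0, nat_lit 0, nat_lit 0, nat_lit 0, nat_lit 0, nat_lit 0,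 [], [nat_lit 9, nat_lit 40, nat_lit 40, nat_lit 80, nat_lit 2, nat_lit 317, nat_lit 100, nat_lit 10]⟩,
 zbF0, [⟨nat_lit 16, nat_lit 100, nat_lit 72, nat_lit 89, nat_lit 212304039⟩, ⟨nat_lit 19, nat_lit 100, nat_lit 72, nat_lit 89, nat_lit 209402196⟩]⟩
noncomputable def p052_l59 : Lf2 := ⟨nat_lit 0, nat_lit 3, [nat_lit 45, nat_lit 5, nat_lit 5, nat_lit 20], false, nat_lit 0, nat_lit 352, nat_lit 0, nat_lit 364, ⟨nat_lit 1000, nat_lit 0, nat_lit 0, nat_lit 0, nat_lit 0, nat_lit 0, nat_lit 0, nat_lit 0, nat_lit 0, nat_lit 0, nat_lit 0, nat_lit 0, nat_lit 0, nat_lit 0, nat_lit 0, nat_lit 0, false, false⟩,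
 nat_lit 0, nat_lit 11480, nat_lit 0, nat_lit 3842, nat_lit 6682, nat_lit 6437, nat_lit 2081, nat_lit 0, nat_lit 0, nat_lit 1499, nat_lit 0, nat_lit 0, nat_lit 0, nat_lit 0, nat_lit 0, nat_lit 0, nat_lit 0, nat_lit 0, [],
 ⟨p052_k0, nat_lit 0, nat_lit 0, nat_lit 282, nat_lit 0, nat_lit 236437, [nat_lit 4688000000, nat_lit 6250000000, nat_lit 7968000000], [], [nat_lit 24032200590, nat_lit 25013767942, nat_lit 36524391128, nat_lit 37503140112, nat_lit 27081447833, nat_lit 27537855266, nat_lit 35419910116, nat_lit 35881467773], nat_lit 1271250, nat_lit 1271250, nat_lit 1271250, nat_lit 1271250, nat_lit 0, nat_lit 2486000, [nat_lit 1100000, nat_lit 1442500, nat_lit 1271250], [nat_lit 9, nat_lit 40, nat_lit 40, nat_lit 80, nat_lit 2, nat_lit 317, nat_lit 100, nat_lit 10]⟩, ⟨p052_k1, nat_lit 0, nat_lit 0, nat_lit 192, nat_lit 0, nat_lit 0, [nat_lit 4688000000, nat_lit 6250000000, nat_lit 7968000000], [], [nat_lit 23463060135,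 nat_lit 24608632867, nat_lit 35176649683, nat_lit 35897569715, nat_lit 28661815070, nat_lit 29177820570, nat_lit 35326252621, nat_lit 35758744609], nat_lit 0, nat_lit 0, nat_lit 0, nat_lit 0, nat_lit 0, nat_lit 0, [], [nat_lit 9, nat_lit 40, nat_lit 40, nat_lit 80, nat_lit 2, nat_lit 317, nat_lit 100, nat_lit 10]⟩,
 zbF0, [⟨nat_lit 4, nat_lit 82, nat_lit 100, nat_lit 92, nat_lit 185065842⟩, ⟨nat_lit 19, nat_lit 100, nat_lit 72, nat_lit 89, nat_lit 218334619⟩]⟩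
noncomputable def p052_l60 : Lf2 := ⟨nat_lit 1, nat_lit 6, [nat_lit 47, nat_lit 5, nat_lit 5, nat_lit 20], false, nat_lit 0, nat_lit 364, nat_lit 0, nat_lit 364, zbN0,
 nat_lit 0, nat_lit 0, nat_lit 0, nat_lit 0, nat_lit 0, nat_lit 0, nat_lit 0, nat_lit 0, nat_lit 0, nat_lit 0, nat_lit 0, nat_lit 0, nat_lit 0, nat_lit 0, nat_lit 0, nat_lit 0, nat_lit 0, nat_lit 0, [],
 C1.Rw.none, C1.Rw.none,
 zbF0, []⟩
noncomputable def p052_l61 : Lf2 := ⟨nat_lit 0, nat_lit 6, [nat_lit 47, nat_lit 5, nat_lit 5, nat_lit 20], false, nat_lit 0, nat_lit 352, nat_lit 0, nat_lit 352, ⟨nat_lit 1000, nat_lit 0, nat_lit 0, nat_lit 0, nat_lit 0, nat_lit 0, nat_lit 0, nat_lit 0, nat_lit 0, nat_lit 0, nat_lit 0, nat_lit 0, nat_lit 0, nat_lit 0, nat_lit 0, nat_lit 0, false, false⟩,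
 nat_lit 0, nat_lit 12201, nat_lit 0, nat_lit 4224, nat_lit 7101, nat_lit 5835, nat_lit 1386, nat_lit 0, nat_lit 0, nat_lit 1546, nat_lit 0, nat_lit 0, nat_lit 0, nat_lit 0, nat_lit 0, nat_lit 0, nat_lit 0, nat_lit 0, [],
 ⟨p052_k2, nat_lit 0, nat_lit 0, nat_lit 282, nat_lit 0, nat_lit 235034, [nat_lit 4688000000, nat_lit 6250000000, nat_lit 7968000000], [], [nat_lit 25174849444, nat_lit 25630912347, nat_lit 37597116604, nat_lit 38098309410, nat_lit 27086519288, nat_lit 27290245084, nat_lit 35942417194, nat_lit 36172717693], nat_lit 1271250, nat_lit 1271250, nat_lit 1271250, nat_lit 1271250, nat_lit 0, nat_lit 2486000, [nat_lit 1100000, nat_lit 1442500, nat_lit 1271250], [nat_lit 9, nat_lit 40, nat_lit 40, nat_lit 80, nat_lit 2, nat_lit 317, nat_lit 100, nat_lit 10]⟩, ⟨p052_k2, nat_lit 0, nat_lit 0, nat_lit 192, nat_lit 0, nat_lit 0, [nat_lit 4688000000, nat_lit 6250000000, nat_lit 7968000000], [], [nat_lit 24001395860,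 nat_lit 24547984390, nat_lit 34355898340, nat_lit 34821382350, nat_lit 28289687260, nat_lit 28557389433, nat_lit 34363672657, nat_lit 34595418421], nat_lit 0, nat_lit 0, nat_lit 0, nat_lit 0, nat_lit 0, nat_lit 0, [], [nat_lit 9, nat_lit 40, nat_lit 40, nat_lit 80, nat_lit 2, nat_lit 317, nat_lit 100, nat_lit 10]⟩,
 zbF0, [⟨nat_lit 16, nat_lit 100, nat_lit 80, nat_lit 92, nat_lit 180358351⟩, ⟨nat_lit 7, nat_lit 80, nat_lit 100, nat_lit 92, nat_lit 206601066⟩]⟩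
noncomputable def p052_l62 : Lf2 := ⟨nat_lit 0, nat_lit 6, [nat_lit 47, nat_lit 5, nat_lit 5, nat_lit 20], false, nat_lit 0, nat_lit 344, nat_lit 0, nat_lit 352, ⟨nat_lit 1000, nat_lit 0, nat_lit 0, nat_lit 0, nat_lit 0, nat_lit 0, nat_lit 0, nat_lit 0, nat_lit 0, nat_lit 0, nat_lit 0, nat_lit 0, nat_lit 0, nat_lit 0, nat_lit 0, nat_lit 0, false, false⟩,
 nat_lit 0, nat_lit 10746, nat_lit 0, nat_lit 0, nat_lit 6544, nat_lit 6502, nat_lit 1379, nat_lit 0, nat_lit 0, nat_lit 1516, nat_lit 0, nat_lit 0, nat_lit 0, nat_lit 1767944329811, nat_lit 0, nat_lit 0, nat_lit 0, nat_lit 0, [],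
 ⟨p052_k3, nat_lit 0, nat_lit 0, nat_lit 340, nat_lit 0, nat_lit 416158, [nat_lit 4688000000, nat_lit 6250000000, nat_lit 7968000000], [], [nat_lit 27347251448, nat_lit 27709857264, nat_lit 36656565040, nat_lit 37142047104, nat_lit 28448960355, nat_lit 28637220649, nat_lit 35055760561, nat_lit 35296704564], nat_lit 1271250, nat_lit 1271250, nat_lit 1271250, nat_lit 1271250, nat_lit 0, nat_lit 2429500, [nat_lit 1100000, nat_lit 1442500, nat_lit 1271250], [nat_lit 9, nat_lit 40, nat_lit 40, nat_lit 80, nat_lit 2, nat_lit 317, nat_lit 100, nat_lit 10]⟩, ⟨p052_k2, nat_lit 0, nat_lit 0, nat_lit 193, nat_lit 0, nat_lit 0, [nat_lit 4688000000, nat_lit 6250000000, nat_lit 7968000000], [], [nat_lit 23287347032, nat_lit 24438577104, nat_lit 36063554408, nat_lit 37032149232, nat_lit 27188698392, nat_lit 27733313987, nat_lit 35195444068, nat_lit 35657412701], nat_lit 0, nat_lit 0, nat_lit 0, nat_lit 0, nat_lit 0, nat_lit 0,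 [], [nat_lit 9, nat_lit 40, nat_lit 40, nat_lit 80, nat_lit 2, nat_lit 317, nat_lit 100, nat_lit 10]⟩,
 zbF0, [⟨nat_lit 16, nat_lit 100, nat_lit 85, nat_lit 93, nat_lit 176903568⟩, ⟨nat_lit 7, nat_lit 82, nat_lit 100, nat_lit 92, nat_lit 188876933⟩]⟩
noncomputable def p052_l63 : Lf2 := ⟨nat_lit 0, nat_lit 6, [nat_lit 47, nat_lit 5, nat_lit 5, nat_lit 20], false, nat_lit 0, nat_lit 160, nat_lit 0, nat_lit 364, ⟨nat_lit 0, nat_lit 1000, nat_lit 0, nat_lit 6, nat_lit 122, nat_lit 1000, nat_lit 63, nat_lit 0, nat_lit 0, nat_lit 0, nat_lit 0, nat_lit 0, nat_lit 0, nat_lit 0, nat_lit 0, nat_lit 5000000, false, false⟩,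
 nat_lit 9441, nat_lit 0, nat_lit 0, nat_lit 0, nat_lit 4998, nat_lit 0, nat_lit 1316, nat_lit 0, nat_lit 0, nat_lit 0, nat_lit 0, nat_lit 0, nat_lit 0, nat_lit 28864323163244, nat_lit 0, nat_lit 400000, nat_lit 0, nat_lit 0, [(nat_lit 6, [(nat_lit 1, nat_lit 1000)]), (nat_lit 9, [(nat_lit 1, nat_lit 1000)])],
 ⟨p052_k17, nat_lit 0, nat_lit 0, nat_lit 432, nat_lit 0, nat_lit 282667, [nat_lit 2702720000, nat_lit 3151066667, nat_lit 3294533333], [], [nat_lit 33610218301, nat_lit 28356780517, nat_lit 24312593350, nat_lit 23923587833, nat_lit 27264038003, nat_lit 23875880953, nat_lit 31466775238, nat_lit 26819614846], nat_lit 1271250, nat_lit 1271250, nat_lit 88400, nat_lit 780000, nat_lit 0, nat_lit 1100001, [nat_lit 1100000, nat_lit 1442500, nat_lit 1271250], [nat_lit 11, nat_lit 40, nat_lit 40, nat_lit 80, nat_lit 1, nat_lit 373, nat_lit 150, nat_lit 11]⟩, ⟨p052_k17, nat_lit 0, nat_lit 0, nat_lit 432, nat_lit 0,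 nat_lit 282667, [nat_lit 0, nat_lit 0, nat_lit 0], [], [nat_lit 0, nat_lit 0, nat_lit 0, nat_lit 0, nat_lit 0, nat_lit 0, nat_lit 0, nat_lit 0], nat_lit 1271250, nat_lit 1271250, nat_lit 88400, nat_lit 780000, nat_lit 0, nat_lit 2570750, [nat_lit 1100000, nat_lit 1442500, nat_lit 1271250], [nat_lit 11, nat_lit 40, nat_lit 40, nat_lit 80, nat_lit 1, nat_lit 428, nat_lit 200, nat_lit 13]⟩,
 ⟨nat_lit 5477, nat_lit 6325, ⟨.ofNat (nat_lit 164319), .ofNat (nat_lit 378206), .ofNat (nat_lit 207055), .ofNat (nat_lit 420942), .ofNat (nat_lit 198021), .ofNat (nat_lit 392847), .ofNat (nat_lit 240735), .ofNat (nat_lit 435561)⟩, ⟨.negSucc (nat_lit 39529), .ofNat (nat_lit 289527), .ofNat (nat_lit 0), .ofNat (nat_lit 332263), .negSucc (nat_lit 2808), .ofNat (nat_lit 296923), .ofNat (nat_lit 0), .ofNat (nat_lit 339637)⟩⟩, []⟩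
noncomputable def p052_l64 : Lf2 := ⟨nat_lit 0, nat_lit 6, [nat_lit 47, nat_lit 5, nat_lit 5, nat_lit 20], true, nat_lit 160, nat_lit 364, nat_lit 0, nat_lit 364, ⟨nat_lit 0, nat_lit 1000, nat_lit 0, nat_lit 6, nat_lit 115, nat_lit 1000, nat_lit 207, nat_lit 0, nat_lit 0, nat_lit 0, nat_lit 0, nat_lit 0, nat_lit 0, nat_lit 0, nat_lit 0, nat_lit 5000000, false, false⟩,
 nat_lit 0, nat_lit 10957, nat_lit 0, nat_lit 3519, nat_lit 5800, nat_lit 0, nat_lit 0, nat_lit 0, nat_lit 0, nat_lit 0, nat_lit 0, nat_lit 0, nat_lit 0, nat_lit 32413602975204, nat_lit 0, nat_lit 865000, nat_lit 0, nat_lit 0, [(nat_lit 6, [(nat_lit 1, nat_lit 225), (nat_lit 2, nat_lit 775)])],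
 ⟨p052_k23, nat_lit 0, nat_lit 0, nat_lit 191, nat_lit 0, nat_lit 50485, [nat_lit 4018060001, nat_lit 1722190000], [], [nat_lit 34421059682, nat_lit 31372846483, nat_lit 28213840401, nat_lit 25404564001, nat_lit 28557775650, nat_lit 29099191286, nat_lit 26096323403, nat_lit 26585499224], nat_lit 1271250, nat_lit 1271250, nat_lit 88400, nat_lit 780000, nat_lit 1271250, nat_lit 1271250, [nat_lit 1100000, nat_lit 2127500], [nat_lit 70, nat_lit 40, nat_lit 40, nat_lit 80, nat_lit 13, nat_lit 428, nat_lit 200, nat_lit 12]⟩, C1.Rw.none,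
 ⟨nat_lit 5916, nat_lit 6325, ⟨.ofNat (nat_lit 164319), .ofNat (nat_lit 378206), .ofNat (nat_lit 185687), .ofNat (nat_lit 399574), .ofNat (nat_lit 181423), .ofNat (nat_lit 385610), .ofNat (nat_lit 202762), .ofNat (nat_lit 406949)⟩, ⟨.ofNat (nat_lit 289527), .ofNat (nat_lit 709020), .ofNat (nat_lit 332263), .ofNat (nat_lit 751741), .ofNat (nat_lit 293429), .ofNat (nat_lit 693896), .ofNat (nat_lit 336108), .ofNat (nat_lit 736560)⟩⟩, [⟨nat_lit 0, nat_lit 100, nat_lit 100, nat_lit 60, nat_lit 116365329⟩, ⟨nat_lit 4, nat_lit 72, nat_lit 100, nat_lit 89, nat_lit 17757752⟩]⟩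
noncomputable def p052_l65 : Lf2 := ⟨nat_lit 0, nat_lit 6, [nat_lit 47, nat_lit 5, nat_lit 5, nat_lit 20], false, nat_lit 160, nat_lit 352, nat_lit 0, nat_lit 364, ⟨nat_lit 0, nat_lit 1000, nat_lit 0, nat_lit 6, nat_lit 127, nat_lit 1000, nat_lit 200, nat_lit 0, nat_lit 0, nat_lit 0, nat_lit 0, nat_lit 0, nat_lit 0, nat_lit 0, nat_lit 0, nat_lit 5000000, false, false⟩,
 nat_lit 0, nat_lit 8253, nat_lit 0, nat_lit 0, nat_lit 4803, nat_lit 0, nat_lit 964, nat_lit 0, nat_lit 0, nat_lit 0, nat_lit 0, nat_lit 0, nat_lit 0, nat_lit 23544878596882, nat_lit 0, nat_lit 400000, nat_lit 0, nat_lit 0, [(nat_lit 9, [(nat_lit 1, nat_lit 1000)])],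
 ⟨p052_k22, nat_lit 0, nat_lit 0, nat_lit 246, nat_lit 0, nat_lit 250369, [nat_lit 2742800000, nat_lit 3014800000], [], [nat_lit 27240591698, nat_lit 24724002212, nat_lit 21360337310, nat_lit 19436000736, nat_lit 25955616716, nat_lit 26562523592, nat_lit 24586515899, nat_lit 25139546045], nat_lit 1271250, nat_lit 1271250, nat_lit 134400, nat_lit 780000, nat_lit 1271250, nat_lit 1271250, [nat_lit 1100000, nat_lit 1785000], [nat_lit 39, nat_lit 40, nat_lit 40, nat_lit 80, nat_lit 7, nat_lit 345, nat_lit 125, nat_lit 11]⟩, ⟨p052_k23, nat_lit 0, nat_lit 0, nat_lit 424, nat_lit 0, nat_lit 282667, [nat_lit 0, nat_lit 0], [], [nat_lit 0, nat_lit 0, nat_lit 0, nat_lit 0, nat_lit 0, nat_lit 0, nat_lit 0, nat_lit 0], nat_lit 1271250, nat_lit 1271250, nat_lit 134400, nat_lit 780000, nat_lit 0, nat_lit 2570750, [nat_lit 1100000, nat_lit 2127500], [nat_lit 70, nat_lit 40, nat_lit 40, nat_lit 80, nat_lit 13, nat_lit 428, nat_lit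 200, nat_lit 13]⟩,
 ⟨nat_lit 5477, nat_lit 5917, ⟨.ofNat (nat_lit 197129), .ofNat (nat_lit 385610), .ofNat (nat_lit 239808), .ofNat (nat_lit 428288), .ofNat (nat_lit 213007), .ofNat (nat_lit 392847), .ofNat (nat_lit 255721), .ofNat (nat_lit 435561)⟩, ⟨.ofNat (nat_lit 293429), .ofNat (nat_lit 670368), .ofNat (nat_lit 336108), .ofNat (nat_lit 713031), .ofNat (nat_lit 296923), .ofNat (nat_lit 656580), .ofNat (nat_lit 339637), .ofNat (nat_lit 699278)⟩⟩, [⟨nat_lit 0, nat_lit 100, nat_lit 100, nat_lit 80, nat_lit 66597286⟩, ⟨nat_lit 16, nat_lit 100, nat_lit 82, nat_lit 92, nat_lit 112073882⟩]⟩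
noncomputable def p052_l66 : Lf2 := ⟨nat_lit 0, nat_lit 6, [nat_lit 47, nat_lit 5, nat_lit 5, nat_lit 20], true, nat_lit 0, nat_lit 160, nat_lit 0, nat_lit 364, ⟨nat_lit 0, nat_lit 1000, nat_lit 0, nat_lit 6, nat_lit 205, nat_lit 1000, nat_lit 63, nat_lit 0, nat_lit 0, nat_lit 0, nat_lit 0, nat_lit 0, nat_lit 0, nat_lit 0, nat_lit 0, nat_lit 5000000, false, false⟩,
 nat_lit 0, nat_lit 4744, nat_lit 0, nat_lit 5989, nat_lit 2511, nat_lit 0, nat_lit 698, nat_lit 0, nat_lit 0, nat_lit 0, nat_lit 0, nat_lit 0, nat_lit 0, nat_lit 24685609439216, nat_lit 0, nat_lit 400000, nat_lit 0, nat_lit 0, [(nat_lit 6, [(nat_lit 1, nat_lit 1000)])],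
 ⟨p052_k17, nat_lit 0, nat_lit 0, nat_lit 213, nat_lit 0, nat_lit 50485, [nat_lit 2692266667, nat_lit 3151066667, nat_lit 3294533333], [], [nat_lit 31907410210, nat_lit 30559158892, nat_lit 28044430667, nat_lit 28655320253, nat_lit 26170785843, nat_lit 26801032761, nat_lit 28681912530, nat_lit 29057996307], nat_lit 1271250, nat_lit 1271250, nat_lit 780000, nat_lit 1762500, nat_lit 0, nat_lit 1100001, [nat_lit 1100000, nat_lit 1442500, nat_lit 1271250], [nat_lit 11, nat_lit 40, nat_lit 40, nat_lit 80, nat_lit 1, nat_lit 401, nat_lit 175, nat_lit 12]⟩, C1.Rw.none,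
 ⟨nat_lit 5916, nat_lit 6325, ⟨.ofNat (nat_lit 378206), .ofNat (nat_lit 624961), .ofNat (nat_lit 399574), .ofNat (nat_lit 646322), .ofNat (nat_lit 385610), .ofNat (nat_lit 621173), .ofNat (nat_lit 406949), .ofNat (nat_lit 642505)⟩, ⟨.negSucc (nat_lit 39529), .ofNat (nat_lit 289527), .ofNat (nat_lit 0), .ofNat (nat_lit 332263), .negSucc (nat_lit 20704), .ofNat (nat_lit 293429), .ofNat (nat_lit 0), .ofNat (nat_lit 336108)⟩⟩, []⟩
noncomputable def p052_l67 : Lf2 := ⟨nat_lit 0, nat_lit 6, [nat_lit 47, nat_lit 5, nat_lit 5, nat_lit 20], false, nat_lit 0, nat_lit 160, nat_lit 0, nat_lit 364, ⟨nat_lit 0, nat_lit 1000, nat_lit 0, nat_lit 6, nat_lit 210, nat_lit 1000, nat_lit 63, nat_lit 0, nat_lit 0, nat_lit 0, nat_lit 0, nat_lit 0, nat_lit 0, nat_lit 0, nat_lit 0, nat_lit 5000000, false, false⟩,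
 nat_lit 0, nat_lit 4531, nat_lit 0, nat_lit 2594, nat_lit 2637, nat_lit 0, nat_lit 86, nat_lit 0, nat_lit 0, nat_lit 0, nat_lit 0, nat_lit 0, nat_lit 0, nat_lit 22195168123158, nat_lit 0, nat_lit 1000000, nat_lit 0, nat_lit 0, [(nat_lit 9, [(nat_lit 2, nat_lit 1000)])],
 ⟨p052_k2, nat_lit 0, nat_lit 0, nat_lit 219, nat_lit 0, nat_lit 250369, [nat_lit 2663466667, nat_lit 2329200000, nat_lit 1646800000], [], [nat_lit 30761216920, nat_lit 29345311414, nat_lit 26571710195, nat_lit 27237396417, nat_lit 24576488023, nat_lit 25263583609, nat_lit 28477664298, nat_lit 27604886489], nat_lit 1271250, nat_lit 1271250, nat_lit 780000, nat_lit 1762500, nat_lit 0, nat_lit 1100001, [nat_lit 1100000, nat_lit 1442500, nat_lit 1271250], [nat_lit 9, nat_lit 40, nat_lit 40, nat_lit 80, nat_lit 2, nat_lit 317, nat_lit 100, nat_lit 10]⟩, ⟨p052_k17, nat_lit 0, nat_lit 0, nat_lit 319, nat_lit 0, nat_lit 282667, [nat_lit 0, nat_lit 0, nat_lit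 0], [], [nat_lit 0, nat_lit 0, nat_lit 0, nat_lit 0, nat_lit 0, nat_lit 0, nat_lit 0, nat_lit 0], nat_lit 1271250, nat_lit 1271250, nat_lit 780000, nat_lit 1762500, nat_lit 0, nat_lit 2570750, [nat_lit 1100000, nat_lit 1442500, nat_lit 1271250], [nat_lit 11, nat_lit 40, nat_lit 40, nat_lit 80, nat_lit 1, nat_lit 456, nat_lit 225, nat_lit 13]⟩,
 ⟨nat_lit 5477, nat_lit 5917, ⟨.ofNat (nat_lit 385610), .ofNat (nat_lit 621176), .ofNat (nat_lit 428288), .ofNat (nat_lit 663838), .ofNat (nat_lit 392847), .ofNat (nat_lit 617611), .ofNat (nat_lit 435561), .ofNat (nat_lit 660309)⟩, ⟨.negSucc (nat_lit 20704), .ofNat (nat_lit 293429), .ofNat (nat_lit 0), .ofNat (nat_lit 336108), .negSucc (nat_lit 2808), .ofNat (nat_lit 296923), .ofNat (nat_lit 0), .ofNat (nat_lit 339637)⟩⟩, []⟩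
noncomputable def p052_l68 : Lf2 := ⟨nat_lit 0, nat_lit 6, [nat_lit 47, nat_lit 5, nat_lit 5, nat_lit 20], true, nat_lit 160, nat_lit 364, nat_lit 0, nat_lit 364, ⟨nat_lit 0, nat_lit 1000, nat_lit 0, nat_lit 6, nat_lit 205, nat_lit 1000, nat_lit 207, nat_lit 0, nat_lit 0, nat_lit 0, nat_lit 0, nat_lit 0, nat_lit 0, nat_lit 0, nat_lit 0, nat_lit 5000000, false, false⟩,
 nat_lit 0, nat_lit 9932, nat_lit 0, nat_lit 1985, nat_lit 5258, nat_lit 0, nat_lit 656, nat_lit 0, nat_lit 0, nat_lit 0, nat_lit 0, nat_lit 0, nat_lit 0, nat_lit 27703044973126, nat_lit 0, nat_lit 400000, nat_lit 0, nat_lit 0, [(nat_lit 6, [(nat_lit 1, nat_lit 1000)])],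
 ⟨p052_k17, nat_lit 0, nat_lit 0, nat_lit 133, nat_lit 0, nat_lit 50485, [nat_lit 2692266667, nat_lit 3151066667, nat_lit 3294533333], [], [nat_lit 31163429387, nat_lit 28383324983, nat_lit 30839241990, nat_lit 28327558486, nat_lit 24658168315, nat_lit 25326569736, nat_lit 25928711856, nat_lit 26457163774], nat_lit 1271250, nat_lit 1271250, nat_lit 780000, nat_lit 1762500, nat_lit 1271250, nat_lit 1271250, [nat_lit 1100000, nat_lit 1442500, nat_lit 1271250], [nat_lit 11, nat_lit 40, nat_lit 40, nat_lit 80, nat_lit 1, nat_lit 456, nat_lit 225, nat_lit 13]⟩, C1.Rw.none,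
 ⟨nat_lit 5916, nat_lit 6325, ⟨.ofNat (nat_lit 378206), .ofNat (nat_lit 624961), .ofNat (nat_lit 399574), .ofNat (nat_lit 646322), .ofNat (nat_lit 385610), .ofNat (nat_lit 621173), .ofNat (nat_lit 406949), .ofNat (nat_lit 642505)⟩, ⟨.ofNat (nat_lit 289527), .ofNat (nat_lit 709020), .ofNat (nat_lit 332263), .ofNat (nat_lit 751741), .ofNat (nat_lit 293429), .ofNat (nat_lit 693896), .ofNat (nat_lit 336108), .ofNat (nat_lit 736560)⟩⟩, [⟨nat_lit 4, nat_lit 72, nat_lit 100, nat_lit 89, nat_lit 28868313⟩]⟩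
noncomputable def p052_l69 : Lf2 := ⟨nat_lit 0, nat_lit 6, [nat_lit 47, nat_lit 5, nat_lit 5, nat_lit 20], false, nat_lit 160, nat_lit 352, nat_lit 0, nat_lit 364, ⟨nat_lit 0, nat_lit 1000, nat_lit 0, nat_lit 6, nat_lit 210, nat_lit 1000, nat_lit 200, nat_lit 0, nat_lit 0, nat_lit 0, nat_lit 0, nat_lit 0, nat_lit 0, nat_lit 0, nat_lit 0, nat_lit 5000000, false, false⟩,
 nat_lit 0, nat_lit 8049, nat_lit 0, nat_lit 0, nat_lit 4685, nat_lit 0, nat_lit 244, nat_lit 0, nat_lit 0, nat_lit 0, nat_lit 0, nat_lit 0, nat_lit 0, nat_lit 23124642534532, nat_lit 0, nat_lit 1000000, nat_lit 0, nat_lit 0, [(nat_lit 9, [(nat_lit 2, nat_lit 1000)])],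
 ⟨p052_k2, nat_lit 0, nat_lit 0, nat_lit 170, nat_lit 0, nat_lit 250369, [nat_lit 2663466667, nat_lit 2329200000, nat_lit 1646800000], [], [nat_lit 18971783597, nat_lit 16758571147, nat_lit 27600210807, nat_lit 25362242527, nat_lit 23707341379, nat_lit 24413157872, nat_lit 25423875431, nat_lit 26033693987], nat_lit 1271250, nat_lit 1271250, nat_lit 780000, nat_lit 1762500, nat_lit 1271250, nat_lit 1271250, [nat_lit 1100000, nat_lit 1442500, nat_lit 1271250], [nat_lit 9, nat_lit 40, nat_lit 40, nat_lit 80, nat_lit 2, nat_lit 373, nat_lit 150, nat_lit 12]⟩, ⟨p052_k17, nat_lit 0, nat_lit 0, nat_lit 319, nat_lit 0, nat_lit 282667, [nat_lit 0, nat_lit 0, nat_lit 0], [], [nat_lit 0, nat_lit 0, nat_lit 0, nat_lit 0, nat_lit 0, nat_lit 0, nat_lit 0, nat_lit 0], nat_lit 1271250, nat_lit 1271250, nat_lit 780000, nat_lit 1762500, nat_lit 0, nat_lit 2570750, [nat_lit 1100000, nat_lit 1442500, nat_lit 1271250], [nat_lit 11,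 nat_lit 40, nat_lit 40, nat_lit 80, nat_lit 1, nat_lit 456, nat_lit 225, nat_lit 13]⟩,
 ⟨nat_lit 5477, nat_lit 5917, ⟨.ofNat (nat_lit 385610), .ofNat (nat_lit 621176), .ofNat (nat_lit 428288), .ofNat (nat_lit 663838), .ofNat (nat_lit 392847), .ofNat (nat_lit 617611), .ofNat (nat_lit 435561), .ofNat (nat_lit 660309)⟩, ⟨.ofNat (nat_lit 293429), .ofNat (nat_lit 670368), .ofNat (nat_lit 336108), .ofNat (nat_lit 713031), .ofNat (nat_lit 296923), .ofNat (nat_lit 656580), .ofNat (nat_lit 339637), .ofNat (nat_lit 699278)⟩⟩, [⟨nat_lit 4, nat_lit 82, nat_lit 100, nat_lit 92, nat_lit 104542641⟩]⟩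
noncomputable def p052_l70 : Lf2 := ⟨nat_lit 0, nat_lit 6, [nat_lit 47, nat_lit 5, nat_lit 5, nat_lit 20], false, nat_lit 0, nat_lit 364, nat_lit 0, nat_lit 364, ⟨nat_lit 1000, nat_lit 0, nat_lit 0, nat_lit 0, nat_lit 0, nat_lit 0, nat_lit 0, nat_lit 0, nat_lit 0, nat_lit 0, nat_lit 0, nat_lit 0, nat_lit 0, nat_lit 0, nat_lit 0, nat_lit 0, false, false⟩,
 nat_lit 12883, nat_lit 0, nat_lit 0, nat_lit 12677, nat_lit 6820, nat_lit 6820, nat_lit 1744, nat_lit 0, nat_lit 0, nat_lit 1744, nat_lit 0, nat_lit 0, nat_lit 0, nat_lit 0, nat_lit 0, nat_lit 0, nat_lit 0, nat_lit 0, [],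
 ⟨p052_k17, nat_lit 0, nat_lit 0, nat_lit 221, nat_lit 0, nat_lit 26411, [nat_lit 4688000000, nat_lit 6250000000, nat_lit 9842000000], [], [nat_lit 24033996640, nat_lit 25080563760, nat_lit 35891165440, nat_lit 36877699280, nat_lit 28782939104, nat_lit 28613570363, nat_lit 35824587172, nat_lit 36254780625], nat_lit 1271250, nat_lit 1271250, nat_lit 1271250, nat_lit 1271250, nat_lit 0, nat_lit 2570750, [nat_lit 1100000, nat_lit 1442500, nat_lit 1271250], [nat_lit 11, nat_lit 40, nat_lit 40, nat_lit 80, nat_lit 1, nat_lit 538, nat_lit 300, nat_lit 15]⟩, ⟨p052_k17, nat_lit 0, nat_lit 0, nat_lit 221, nat_lit 0, nat_lit 26411, [nat_lit 4688000000, nat_lit 6250000000, nat_lit 9842000000], [], [nat_lit 24033996640, nat_lit 25080563760, nat_lit 35891165440, nat_lit 36877699280, nat_lit 28782939104, nat_lit 28613570363, nat_lit 35824587172, nat_lit 36254780625], nat_lit 1271250, nat_lit 1271250, nat_lit 1271250, nat_lit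 1271250, nat_lit 0, nat_lit 2570750, [nat_lit 1100000, nat_lit 1442500, nat_lit 1271250], [nat_lit 11, nat_lit 40, nat_lit 40, nat_lit 80, nat_lit 1, nat_lit 538, nat_lit 300, nat_lit 15]⟩,
 zbF0, [⟨nat_lit 16, nat_lit 100, nat_lit 72, nat_lit 89, nat_lit 210853118⟩, ⟨nat_lit 7, nat_lit 72, nat_lit 100, nat_lit 89, nat_lit 210853118⟩]⟩
noncomputable def p052_l71 : Lf2 := ⟨nat_lit 0, nat_lit 6, [nat_lit 47, nat_lit 5, nat_lit 5, nat_lit 20], false, nat_lit 0, nat_lit 352, nat_lit 0, nat_lit 364, ⟨nat_lit 1000, nat_lit 0, nat_lit 0, nat_lit 0, nat_lit 0, nat_lit 0, nat_lit 0, nat_lit 0, nat_lit 0, nat_lit 0, nat_lit 0, nat_lit 0, nat_lit 0, nat_lit 0, nat_lit 0, nat_lit 0, false, false⟩,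
 nat_lit 12959, nat_lit 0, nat_lit 0, nat_lit 3443, nat_lit 7158, nat_lit 6860, nat_lit 1331, nat_lit 0, nat_lit 0, nat_lit 1478, nat_lit 0, nat_lit 0, nat_lit 0, nat_lit 0, nat_lit 0, nat_lit 0, nat_lit 0, nat_lit 0, [],
 ⟨p052_k2, nat_lit 0, nat_lit 0, nat_lit 287, nat_lit 0, nat_lit 250369, [nat_lit 4688000000, nat_lit 6250000000, nat_lit 7968000000], [], [nat_lit 25231516077, nat_lit 26146788625, nat_lit 37743048232, nat_lit 38748649328, nat_lit 27110537145, nat_lit 27613050411, nat_lit 36013498109, nat_lit 36473968964], nat_lit 1271250, nat_lit 1271250, nat_lit 1271250, nat_lit 1271250, nat_lit 0, nat_lit 2486000, [nat_lit 1100000, nat_lit 1442500, nat_lit 1271250], [nat_lit 9, nat_lit 40, nat_lit 40, nat_lit 80, nat_lit 2, nat_lit 317, nat_lit 100, nat_lit 10]⟩, ⟨p052_k17, nat_lit 0, nat_lit 0, nat_lit 336, nat_lit 0, nat_lit 282667, [nat_lit 4688000000, nat_lit 6250000000, nat_lit 9842000000], [], [nat_lit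 28212579500, nat_lit 29811208220, nat_lit 36800150940, nat_lit 37968897760, nat_lit 30293862637, nat_lit 31015193332, nat_lit 35876632556, nat_lit 36736539348], nat_lit 1271250, nat_lit 1271250, nat_lit 1271250, nat_lit 1271250, nat_lit 0, nat_lit 2570750, [nat_lit 1100000, nat_lit 1442500, nat_lit 1271250], [nat_lit 11, nat_lit 40, nat_lit 40, nat_lit 80, nat_lit 1, nat_lit 538, nat_lit 300, nat_lit 15]⟩,
 zbF0, [⟨nat_lit 16, nat_lit 100, nat_lit 82, nat_lit 92, nat_lit 174976930⟩, ⟨nat_lit 7, nat_lit 77, nat_lit 100, nat_lit 91, nat_lit 197021100⟩]⟩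
noncomputable def b_V_600_600_20_23 : St := ⟨true, nat_lit 1, nat_lit 2, nat_lit 2, nat_lit 120, nat_lit 240, nat_lit 280, nat_lit 240, nat_lit 280, nat_lit 16, nat_lit 400, nat_lit 80, nat_lit 120, nat_lit 0, nat_lit 364, nat_lit 0, nat_lit 364, nat_lit 0, nat_lit 24, nat_lit 0, nat_lit 0, nat_lit 0, nat_lit 0⟩
theorem d_V_600_600_20_23 (h : EB TB.env) : Dead b_V_600_600_20_23 := chkB_sound0 h (T :=
(.st (nat_lit 1)
(.spl (nat_lit 2) (nat_lit 240)
(.spl (nat_lit 4) (nat_lit 160)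
(.spl (nat_lit 2) (nat_lit 120)
(.spl (nat_lit 0) (nat_lit 260)
(.ord (.leaf p052_l48))
(.trZ (nat_lit 0) (nat_lit 100) (nat_lit 97) (nat_lit 49) (nat_lit 24) (.leaf p052_l49)))
(.spl (nat_lit 1) (nat_lit 260)
(.leaf p052_l50)
(.ord (.trX (nat_lit 19) (nat_lit 100) (nat_lit 69) (nat_lit 96) (nat_lit 352) (.leaf p052_l51)))))
(.spl (nat_lit 1) (nat_lit 260)
(.spl (nat_lit 6) (nat_lit 12)
(.spl (nat_lit 0) (nat_lit 260)
(.leaf p052_l52)
(.trZ (nat_lit 0) (nat_lit 100) (nat_lit 97) (nat_lit 49) (nat_lit 24) (.trX (nat_lit 16) (nat_lit 100) (nat_lit 69) (nat_lit 96) (nat_lit 352) (.leaf p052_l53))))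
(.leaf p052_l54))
(.ord (.trZ (nat_lit 0) (nat_lit 100) (nat_lit 100) (nat_lit 60) (nat_lit 36) (.trX (nat_lit 16) (nat_lit 100) (nat_lit 69) (nat_lit 96) (nat_lit 352) (.trX (nat_lit 19) (nat_lit 100) (nat_lit 69) (nat_lit 96) (nat_lit 352) (.spl (nat_lit 4) (nat_lit 240)
(.leaf p052_l55)
(.spl (nat_lit 2) (nat_lit 160)
(.leaf p052_l56)
(.leaf p052_l57)))))))))
(.spl (nat_lit 1) (nat_lit 260)
(.spl (nat_lit 6) (nat_lit 12)
(.spl (nat_lit 0) (nat_lit 260)
(.leaf p052_l58)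
(.trX (nat_lit 16) (nat_lit 100) (nat_lit 69) (nat_lit 96) (nat_lit 352) (.leaf p052_l59)))
(.leaf p052_l60))
(.ord (.trX (nat_lit 16) (nat_lit 100) (nat_lit 69) (nat_lit 96) (nat_lit 352) (.trX (nat_lit 19) (nat_lit 100) (nat_lit 69) (nat_lit 96) (nat_lit 352) (.spl (nat_lit 0) (nat_lit 270)
(.ord (.leaf p052_l61))
(.trX (nat_lit 16) (nat_lit 100) (nat_lit 74) (nat_lit 98) (nat_lit 344) (.leaf p052_l62))))))))
(.spl (nat_lit 2) (nat_lit 120)
(.spl (nat_lit 4) (nat_lit 160)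
(.leaf p052_l63)
(.spl (nat_lit 0) (nat_lit 260)
(.ord (.leaf p052_l64))
(.trZ (nat_lit 0) (nat_lit 100) (nat_lit 97) (nat_lit 49) (nat_lit 24) (.trX (nat_lit 16) (nat_lit 100) (nat_lit 69) (nat_lit 96) (nat_lit 352) (.leaf p052_l65)))))
(.spl (nat_lit 2) (nat_lit 240)
(.spl (nat_lit 4) (nat_lit 160)
(.spl (nat_lit 0) (nat_lit 260)
(.ord (.leaf p052_l66))
(.leaf p052_l67))
(.spl (nat_lit 0) (nat_lit 260)
(.ord (.leaf p052_l68))
(.trX (nat_lit 16) (nat_lit 100) (nat_lit 69) (nat_lit 96) (nat_lit 352) (.leaf p052_l69))))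
(.spl (nat_lit 0) (nat_lit 260)
(.ord (.leaf p052_l70))
(.trX (nat_lit 16) (nat_lit 100) (nat_lit 69) (nat_lit 96) (nat_lit 352) (.leaf p052_l71))))))) (by decide +kernel)
noncomputable def p052_l72 : Lf2 := ⟨nat_lit 0, nat_lit 10, [nat_lit 0, nat_lit 5, nat_lit 5, nat_lit 20], true, nat_lit 0, nat_lit 300, nat_lit 0, nat_lit 384, ⟨nat_lit 0, nat_lit 0, nat_lit 1000, nat_lit 4, nat_lit 107, nat_lit 1000, nat_lit 106, nat_lit 1000, nat_lit 3701, nat_lit 228, nat_lit 106667, nat_lit 295, nat_lit 62518302, nat_lit 0, nat_lit 0, nat_lit 1227603, false, false⟩,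
 nat_lit 0, nat_lit 0, nat_lit 0, nat_lit 3843, nat_lit 3314, nat_lit 0, nat_lit 0, nat_lit 0, nat_lit 0, nat_lit 0, nat_lit 0, nat_lit 0, nat_lit 0, nat_lit 0, nat_lit 86, nat_lit 400000, nat_lit 0, nat_lit 0, [(nat_lit 12, [(nat_lit 5, nat_lit 1000)]), (nat_lit 15, [(nat_lit 5, nat_lit 1000)])],
 ⟨p052_k24, nat_lit 0, nat_lit 0, nat_lit 307, nat_lit 0, nat_lit 0, [nat_lit 2347200000, nat_lit 174400000], [], [nat_lit 18341076658, nat_lit 20224655020, nat_lit 17728273104, nat_lit 19222046712, nat_lit 21570652771, nat_lit 23735116123, nat_lit 21209073644, nat_lit 22890075378], nat_lit 0, nat_lit 0, nat_lit 0, nat_lit 0, nat_lit 0, nat_lit 0, [], [nat_lit 82, nat_lit 40, nat_lit 40, nat_lit 80, nat_lit 63, nat_lit 345, nat_lit 125, nat_lit 10]⟩, C1.Rw.none,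
 ⟨nat_lit 4472, nat_lit 5478, ⟨.ofNat (nat_lit 90113), .ofNat (nat_lit 382351), .ofNat (nat_lit 132827), .ofNat (nat_lit 425065), .ofNat (nat_lit 123773), .ofNat (nat_lit 388887), .ofNat (nat_lit 166906), .ofNat (nat_lit 432020)⟩, ⟨.negSucc (nat_lit 45522), .ofNat (nat_lit 516475), .negSucc (nat_lit 2834), .ofNat (nat_lit 559189), .negSucc (nat_lit 12423), .ofNat (nat_lit 497412), .ofNat (nat_lit 0), .ofNat (nat_lit 540545)⟩⟩, [⟨nat_lit 0, nat_lit 100, nat_lit 87, nat_lit 41, nat_lit 111131782⟩, ⟨nat_lit 4, nat_lit 100, nat_lit 90, nat_lit 74, nat_lit 44634312⟩]⟩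
noncomputable def p052_l73 : Lf2 := ⟨nat_lit 0, nat_lit 10, [nat_lit 0, nat_lit 5, nat_lit 5, nat_lit 20], false, nat_lit 0, nat_lit 160, nat_lit 0, nat_lit 384, ⟨nat_lit 444, nat_lit 0, nat_lit 556, nat_lit 4, nat_lit 244, nat_lit 556, nat_lit 55, nat_lit 556, nat_lit 25350, nat_lit 254, nat_lit 418016, nat_lit 200, nat_lit 48816926, nat_lit 0, nat_lit 0, nat_lit 2923177, false, true⟩,
 nat_lit 0, nat_lit 0, nat_lit 0, nat_lit 9325, nat_lit 4715, nat_lit 4207, nat_lit 484, nat_lit 0, nat_lit 0, nat_lit 420, nat_lit 0, nat_lit 0, nat_lit 0, nat_lit 0, nat_lit 0, nat_lit 222400, nat_lit 0, nat_lit 0, [(nat_lit 12, [(nat_lit 5, nat_lit 556)])],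
 ⟨p052_k25, nat_lit 0, nat_lit 0, nat_lit 211, nat_lit 0, nat_lit 0, [nat_lit 2147092800, nat_lit 2477725334, nat_lit 3003200000], [], [nat_lit 18744472500, nat_lit 20146679670, nat_lit 30843950072, nat_lit 31974837198, nat_lit 16926763800, nat_lit 17995302790, nat_lit 26644748392, nat_lit 27643414676], nat_lit 0, nat_lit 0, nat_lit 0, nat_lit 0, nat_lit 0, nat_lit 0, [], [nat_lit 8, nat_lit 40, nat_lit 40, nat_lit 80, nat_lit 1, nat_lit 373, nat_lit 150, nat_lit 11]⟩, ⟨p052_k26, nat_lit 0, nat_lit 0, nat_lit 328, nat_lit 0, nat_lit 0, [nat_lit 3537792000, nat_lit 5271168000, nat_lit 6241752000], [], [nat_lit 15384573692, nat_lit 15639743304, nat_lit 20680481632, nat_lit 20568614241, nat_lit 16272767938, nat_lit 16176302269, nat_lit 18976371606, nat_lit 18672854633], nat_lit 0, nat_lit 0, nat_lit 0, nat_lit 0, nat_lit 0, nat_lit 0, [], [nat_lit 62, nat_lit 40, nat_lit 40, nat_lit 80, nat_lit 58, nat_lit 483, nat_lit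 250, nat_lit 11]⟩,
 ⟨nat_lit 5000, nat_lit 5478, ⟨.ofNat (nat_lit 382351), .ofNat (nat_lit 801938), .ofNat (nat_lit 425065), .ofNat (nat_lit 844633), .ofNat (nat_lit 385713), .ofNat (nat_lit 785675), .ofNat (nat_lit 428570), .ofNat (nat_lit 828512)⟩, ⟨.negSucc (nat_lit 45522), .ofNat (nat_lit 254209), .negSucc (nat_lit 2832), .ofNat (nat_lit 296923), .negSucc (nat_lit 28572), .ofNat (nat_lit 257141), .ofNat (nat_lit 0), .ofNat (nat_lit 299999)⟩⟩, [⟨nat_lit 22, nat_lit 100, nat_lit 91, nat_lit 86, nat_lit 75027728⟩]⟩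
noncomputable def p052_l74 : Lf2 := ⟨nat_lit 0, nat_lit 10, [nat_lit 0, nat_lit 5, nat_lit 5, nat_lit 20], false, nat_lit 0, nat_lit 160, nat_lit 0, nat_lit 384, ⟨nat_lit 366, nat_lit 0, nat_lit 634, nat_lit 4, nat_lit 239, nat_lit 634, nat_lit 56, nat_lit 634, nat_lit 26667, nat_lit 255, nat_lit 357276, nat_lit 200, nat_lit 49395528, nat_lit 0, nat_lit 0, nat_lit 2879584, false, true⟩,
 nat_lit 0, nat_lit 0, nat_lit 0, nat_lit 5009, nat_lit 4152, nat_lit 3306, nat_lit 0, nat_lit 0, nat_lit 0, nat_lit 257, nat_lit 0, nat_lit 0, nat_lit 0, nat_lit 0, nat_lit 0, nat_lit 253600, nat_lit 0, nat_lit 0, [(nat_lit 15, [(nat_lit 5, nat_lit 634)])],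
 ⟨p052_k27, nat_lit 0, nat_lit 0, nat_lit 189, nat_lit 0, nat_lit 0, [nat_lit 2035048800, nat_lit 1676577601, nat_lit 1548043599], [], [nat_lit 19587525663, nat_lit 20913347759, nat_lit 29880926266, nat_lit 30988212045, nat_lit 18806064735, nat_lit 19911547855, nat_lit 26959598047, nat_lit 27700709903], nat_lit 0, nat_lit 0, nat_lit 0, nat_lit 0, nat_lit 0, nat_lit 0, [], [nat_lit 18, nat_lit 40, nat_lit 40, nat_lit 80, nat_lit 2, nat_lit 373, nat_lit 150, nat_lit 12]⟩, ⟨p052_k26, nat_lit 0, nat_lit 0, nat_lit 324, nat_lit 0, nat_lit 0, [nat_lit 2916288000, nat_lit 4345152000, nat_lit 5145228000], [], [nat_lit 13227688759, nat_lit 13444334335, nat_lit 16996374751, nat_lit 16942996539, nat_lit 13856036897, nat_lit 13796462043, nat_lit 15537549558, nat_lit 15279014981], nat_lit 0, nat_lit 0, nat_lit 0, nat_lit 0, nat_lit 0, nat_lit 0, [], [nat_lit 62, nat_lit 40, nat_lit 40, nat_lit 80, nat_lit 58, nat_lit 483, nat_lit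 250, nat_lit 11]⟩,
 ⟨nat_lit 4472, nat_lit 5000, ⟨.ofNat (nat_lit 385713), .ofNat (nat_lit 771425), .ofNat (nat_lit 428570), .ofNat (nat_lit 814263), .ofNat (nat_lit 388887), .ofNat (nat_lit 755968), .ofNat (nat_lit 432020), .ofNat (nat_lit 799081)⟩, ⟨.negSucc (nat_lit 28572), .ofNat (nat_lit 257141), .ofNat (nat_lit 0), .ofNat (nat_lit 299999), .negSucc (nat_lit 12423), .ofNat (nat_lit 259489), .ofNat (nat_lit 0), .ofNat (nat_lit 302621)⟩⟩, [⟨nat_lit 22, nat_lit 100, nat_lit 89, nat_lit 85, nat_lit 61263930⟩]⟩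
noncomputable def p052_l75 : Lf2 := ⟨nat_lit 0, nat_lit 10, [nat_lit 0, nat_lit 5, nat_lit 5, nat_lit 20], false, nat_lit 160, nat_lit 300, nat_lit 0, nat_lit 384, ⟨nat_lit 319, nat_lit 681, nat_lit 0, nat_lit 4, nat_lit 244, nat_lit 681, nat_lit 162, nat_lit 0, nat_lit 0, nat_lit 0, nat_lit 0, nat_lit 0, nat_lit 41572931, nat_lit 16714638, nat_lit 8712431, nat_lit 4877951, false, true⟩,
 nat_lit 0, nat_lit 0, nat_lit 0, nat_lit 6001, nat_lit 3728, nat_lit 3614, nat_lit 0, nat_lit 0, nat_lit 0, nat_lit 335, nat_lit 0, nat_lit 0, nat_lit 0, nat_lit 0, nat_lit 0, nat_lit 272400, nat_lit 0, nat_lit 0, [(nat_lit 12, [(nat_lit 1, nat_lit 681)])],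
 ⟨p052_k25, nat_lit 0, nat_lit 0, nat_lit 78, nat_lit 0, nat_lit 0, [nat_lit 2455538400, nat_lit 3846887201, nat_lit 4934986400], [], [nat_lit 14460912864, nat_lit 15910145184, nat_lit 25947226624, nat_lit 26790441293, nat_lit 20864693728, nat_lit 21942030140, nat_lit 29413185543, nat_lit 30060292807], nat_lit 0, nat_lit 0, nat_lit 0, nat_lit 0, nat_lit 0, nat_lit 0, [], [nat_lit 8, nat_lit 40, nat_lit 40, nat_lit 80, nat_lit 1, nat_lit 401, nat_lit 175, nat_lit 11]⟩, ⟨p052_k26, nat_lit 0, nat_lit 0, nat_lit 328, nat_lit 0, nat_lit 0, [nat_lit 2541792000, nat_lit 3787168000, nat_lit 4484502000], [], [nat_lit 10534773701, nat_lit 10695085245, nat_lit 15485481166, nat_lit 15335098141, nat_lit 11536248496, nat_lit 11480043261, nat_lit 13610788481, nat_lit 13304410800], nat_lit 0, nat_lit 0, nat_lit 0, nat_lit 0, nat_lit 0, nat_lit 0, [], [nat_lit 62, nat_lit 40, nat_lit 40, nat_lit 80, nat_lit 58, nat_lit 483, nat_lit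 250, nat_lit 11]⟩,
 ⟨nat_lit 5000, nat_lit 5478, ⟨.ofNat (nat_lit 382351), .ofNat (nat_lit 801938), .ofNat (nat_lit 425065), .ofNat (nat_lit 844633), .ofNat (nat_lit 385713), .ofNat (nat_lit 785675), .ofNat (nat_lit 428570), .ofNat (nat_lit 828512)⟩, ⟨.ofNat (nat_lit 254209), .ofNat (nat_lit 516475), .ofNat (nat_lit 296923), .ofNat (nat_lit 559189), .ofNat (nat_lit 257141), .ofNat (nat_lit 507141), .ofNat (nat_lit 299999), .ofNat (nat_lit 549998)⟩⟩, [⟨nat_lit 16, nat_lit 100, nat_lit 95, nat_lit 87, nat_lit 194274479⟩, ⟨nat_lit 7, nat_lit 63, nat_lit 100, nat_lit 72, nat_lit 52396209⟩]⟩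
noncomputable def p052_l76 : Lf2 := ⟨nat_lit 0, nat_lit 10, [nat_lit 0, nat_lit 5, nat_lit 5, nat_lit 20], true, nat_lit 160, nat_lit 280, nat_lit 0, nat_lit 384, ⟨nat_lit 0, nat_lit 1000, nat_lit 0, nat_lit 4, nat_lit 239, nat_lit 1000, nat_lit 154, nat_lit 0, nat_lit 0, nat_lit 0, nat_lit 0, nat_lit 0, nat_lit 42512356, nat_lit 16351673, nat_lit 8135971, nat_lit 4770617, false, true⟩,
 nat_lit 0, nat_lit 0, nat_lit 0, nat_lit 3649, nat_lit 3419, nat_lit 0, nat_lit 0, nat_lit 0, nat_lit 0, nat_lit 0, nat_lit 0, nat_lit 0, nat_lit 0, nat_lit 0, nat_lit 0, nat_lit 367600, nat_lit 0, nat_lit 0, [(nat_lit 15, [(nat_lit 0, nat_lit 216), (nat_lit 1, nat_lit 784)])],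
 ⟨p052_k27, nat_lit 0, nat_lit 0, nat_lit 79, nat_lit 0, nat_lit 0, [nat_lit 2084611200, nat_lit 2434772267, nat_lit 2491211733], [], [nat_lit 15901959882, nat_lit 17291032992, nat_lit 25965742220, nat_lit 26806503068, nat_lit 20787396241, nat_lit 21879191144, nat_lit 28735099898, nat_lit 29414681777], nat_lit 0, nat_lit 0, nat_lit 0, nat_lit 0, nat_lit 0, nat_lit 0, [], [nat_lit 18, nat_lit 40, nat_lit 40, nat_lit 80, nat_lit 2, nat_lit 401, nat_lit 175, nat_lit 12]⟩, C1.Rw.none,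
 ⟨nat_lit 4472, nat_lit 5000, ⟨.ofNat (nat_lit 385713), .ofNat (nat_lit 771425), .ofNat (nat_lit 428570), .ofNat (nat_lit 814263), .ofNat (nat_lit 388887), .ofNat (nat_lit 755968), .ofNat (nat_lit 432020), .ofNat (nat_lit 799081)⟩, ⟨.ofNat (nat_lit 257141), .ofNat (nat_lit 471427), .ofNat (nat_lit 299999), .ofNat (nat_lit 514284), .ofNat (nat_lit 259489), .ofNat (nat_lit 463423), .ofNat (nat_lit 302621), .ofNat (nat_lit 506556)⟩⟩, [⟨nat_lit 13, nat_lit 84, nat_lit 63, nat_lit 100, nat_lit 133677644⟩, ⟨nat_lit 16, nat_lit 94, nat_lit 100, nat_lit 87, nat_lit 110837346⟩]⟩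
noncomputable def p052_l77 : Lf2 := ⟨nat_lit 0, nat_lit 10, [nat_lit 0, nat_lit 5, nat_lit 5, nat_lit 20], true, nat_lit 0, nat_lit 160, nat_lit 0, nat_lit 384, ⟨nat_lit 0, nat_lit 0, nat_lit 1000, nat_lit 4, nat_lit 107, nat_lit 702, nat_lit 56, nat_lit 1000, nat_lit 25350, nat_lit 254, nat_lit 106667, nat_lit 295, nat_lit 62518302, nat_lit 0, nat_lit 0, nat_lit 1227603, false, false⟩,
 nat_lit 0, nat_lit 0, nat_lit 0, nat_lit 4834, nat_lit 3212, nat_lit 0, nat_lit 0, nat_lit 0, nat_lit 0, nat_lit 0, nat_lit 0, nat_lit 0, nat_lit 0, nat_lit 0, nat_lit 117, nat_lit 559000, nat_lit 0, nat_lit 0, [(nat_lit 12, [(nat_lit 5, nat_lit 735), (nat_lit 6, nat_lit 265)]), (nat_lit 15, [(nat_lit 5, nat_lit 735), (nat_lit 6, nat_lit 265)])],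
 ⟨p052_k24, nat_lit 0, nat_lit 0, nat_lit 307, nat_lit 0, nat_lit 0, [nat_lit 2953566000, nat_lit 241782000], [], [nat_lit 16953431751, nat_lit 19239438205, nat_lit 17096714096, nat_lit 19023306288, nat_lit 17024895096, nat_lit 18947228476, nat_lit 17283910928, nat_lit 19283505984], nat_lit 0, nat_lit 0, nat_lit 0, nat_lit 0, nat_lit 0, nat_lit 0, [], [nat_lit 82, nat_lit 40, nat_lit 40, nat_lit 80, nat_lit 63, nat_lit 317, nat_lit 100, nat_lit 10]⟩, C1.Rw.none,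
 ⟨nat_lit 4472, nat_lit 5478, ⟨.ofNat (nat_lit 90113), .ofNat (nat_lit 382351), .ofNat (nat_lit 132827), .ofNat (nat_lit 425065), .ofNat (nat_lit 123773), .ofNat (nat_lit 388887), .ofNat (nat_lit 166906), .ofNat (nat_lit 432020)⟩, ⟨.negSucc (nat_lit 45522), .ofNat (nat_lit 254209), .negSucc (nat_lit 2834), .ofNat (nat_lit 296923), .negSucc (nat_lit 12423), .ofNat (nat_lit 259489), .ofNat (nat_lit 0), .ofNat (nat_lit 302621)⟩⟩, [⟨nat_lit 0, nat_lit 100, nat_lit 87, nat_lit 41, nat_lit 83201534⟩]⟩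
noncomputable def p052_l78 : Lf2 := ⟨nat_lit 0, nat_lit 10, [nat_lit 0, nat_lit 5, nat_lit 5, nat_lit 20], true, nat_lit 0, nat_lit 160, nat_lit 0, nat_lit 384, ⟨nat_lit 0, nat_lit 0, nat_lit 1000, nat_lit 4, nat_lit 191, nat_lit 558, nat_lit 56, nat_lit 1000, nat_lit 25350, nat_lit 254, nat_lit 5017, nat_lit 222, nat_lit 54516379, nat_lit 0, nat_lit 0, nat_lit 2404232, false, true⟩,
 nat_lit 0, nat_lit 0, nat_lit 0, nat_lit 4699, nat_lit 3326, nat_lit 0, nat_lit 0, nat_lit 0, nat_lit 0, nat_lit 0, nat_lit 0, nat_lit 0, nat_lit 0, nat_lit 0, nat_lit 110, nat_lit 523600, nat_lit 0, nat_lit 0, [(nat_lit 12, [(nat_lit 5, nat_lit 794), (nat_lit 6, nat_lit 206)]), (nat_lit 15, [(nat_lit 5, nat_lit 794), (nat_lit 6, nat_lit 206)])],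
 ⟨p052_k24, nat_lit 0, nat_lit 0, nat_lit 163, nat_lit 0, nat_lit 0, [nat_lit 2817386400, nat_lit 224032800], [], [nat_lit 16232381464, nat_lit 18393083400, nat_lit 18585105920, nat_lit 20465212224, nat_lit 16111546600, nat_lit 17961418272, nat_lit 18167510464, nat_lit 20179190384], nat_lit 0, nat_lit 0, nat_lit 0, nat_lit 0, nat_lit 0, nat_lit 0, [], [nat_lit 82, nat_lit 40, nat_lit 40, nat_lit 80, nat_lit 63, nat_lit 317, nat_lit 100, nat_lit 9]⟩, C1.Rw.none,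
 ⟨nat_lit 4472, nat_lit 5478, ⟨.ofNat (nat_lit 382351), .ofNat (nat_lit 532217), .ofNat (nat_lit 425065), .ofNat (nat_lit 574895), .ofNat (nat_lit 388887), .ofNat (nat_lit 524844), .ofNat (nat_lit 432020), .ofNat (nat_lit 567940)⟩, ⟨.negSucc (nat_lit 45522), .ofNat (nat_lit 254209), .negSucc (nat_lit 2834), .ofNat (nat_lit 296923), .negSucc (nat_lit 12423), .ofNat (nat_lit 259489), .ofNat (nat_lit 0), .ofNat (nat_lit 302621)⟩⟩, []⟩
noncomputable def p052_l79 : Lf2 := ⟨nat_lit 0, nat_lit 10, [nat_lit 0, nat_lit 5, nat_lit 5, nat_lit 20], true, nat_lit 0, nat_lit 160, nat_lit 0, nat_lit 384, ⟨nat_lit 0, nat_lit 1000, nat_lit 0, nat_lit 6, nat_lit 250, nat_lit 644, nat_lit 55, nat_lit 0, nat_lit 0, nat_lit 0, nat_lit 0, nat_lit 0, nat_lit 48181930, nat_lit 18818070, nat_lit 0, nat_lit 2968849, false, true⟩,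
 nat_lit 0, nat_lit 0, nat_lit 0, nat_lit 7134, nat_lit 4943, nat_lit 0, nat_lit 0, nat_lit 0, nat_lit 0, nat_lit 0, nat_lit 0, nat_lit 0, nat_lit 0, nat_lit 0, nat_lit 0, nat_lit 895000, nat_lit 0, nat_lit 0, [(nat_lit 12, [(nat_lit 1, nat_lit 175), (nat_lit 2, nat_lit 825)])],
 ⟨p052_k24, nat_lit 0, nat_lit 0, nat_lit 174, nat_lit 0, nat_lit 0, [nat_lit 3400520001, nat_lit 239560000], [], [nat_lit 22213714961, nat_lit 23321535097, nat_lit 25974589777, nat_lit 26876512889, nat_lit 20201343553, nat_lit 21139771907, nat_lit 23396825445, nat_lit 24167465085], nat_lit 0, nat_lit 0, nat_lit 0, nat_lit 0, nat_lit 0, nat_lit 0, [], [nat_lit 82, nat_lit 40, nat_lit 40, nat_lit 80, nat_lit 63, nat_lit 345, nat_lit 125, nat_lit 9]⟩, C1.Rw.none,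
 ⟨nat_lit 5000, nat_lit 5478, ⟨.ofNat (nat_lit 532217), .ofNat (nat_lit 682065), .ofNat (nat_lit 574920), .ofNat (nat_lit 724760), .ofNat (nat_lit 528570), .ofNat (nat_lit 671409), .ofNat (nat_lit 571415), .ofNat (nat_lit 714246)⟩, ⟨.negSucc (nat_lit 45522), .ofNat (nat_lit 254209), .negSucc (nat_lit 2832), .ofNat (nat_lit 296923), .negSucc (nat_lit 28572), .ofNat (nat_lit 257141), .ofNat (nat_lit 0), .ofNat (nat_lit 299999)⟩⟩, []⟩
noncomputable def p052_l80 : Lf2 := ⟨nat_lit 0, nat_lit 10, [nat_lit 0, nat_lit 5, nat_lit 5, nat_lit 20], true, nat_lit 0, nat_lit 160, nat_lit 0, nat_lit 384, ⟨nat_lit 0, nat_lit 789, nat_lit 211, nat_lit 6, nat_lit 247, nat_lit 932, nat_lit 56, nat_lit 211, nat_lit 26667, nat_lit 255, nat_lit 157290, nat_lit 200, nat_lit 48487325, nat_lit 18512675, nat_lit 0, nat_lit 2947164, false, true⟩,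
 nat_lit 0, nat_lit 0, nat_lit 0, nat_lit 5184, nat_lit 3756, nat_lit 0, nat_lit 0, nat_lit 0, nat_lit 0, nat_lit 0, nat_lit 0, nat_lit 0, nat_lit 0, nat_lit 0, nat_lit 0, nat_lit 622000, nat_lit 0, nat_lit 0, [(nat_lit 15, [(nat_lit 1, nat_lit 630), (nat_lit 2, nat_lit 159), (nat_lit 6, nat_lit 211)])],
 ⟨p052_k28, nat_lit 0, nat_lit 0, nat_lit 154, nat_lit 0, nat_lit 0, [nat_lit 2109637201, nat_lit 510064800], [], [nat_lit 21520700649, nat_lit 22597401857, nat_lit 25058940281, nat_lit 25949489217, nat_lit 20771746937, nat_lit 21690064497, nat_lit 23812748121, nat_lit 24580422321], nat_lit 0, nat_lit 0, nat_lit 0, nat_lit 0, nat_lit 0, nat_lit 0, [], [nat_lit 74, nat_lit 40, nat_lit 40, nat_lit 80, nat_lit 43, nat_lit 249, nat_lit 40, nat_lit 8]⟩, C1.Rw.none,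
 ⟨nat_lit 4472, nat_lit 5000, ⟨.ofNat (nat_lit 528570), .ofNat (nat_lit 671427), .ofNat (nat_lit 571423), .ofNat (nat_lit 714270), .ofNat (nat_lit 524844), .ofNat (nat_lit 660800), .ofNat (nat_lit 567973), .ofNat (nat_lit 703919)⟩, ⟨.negSucc (nat_lit 28572), .ofNat (nat_lit 257141), .ofNat (nat_lit 0), .ofNat (nat_lit 299999), .negSucc (nat_lit 12423), .ofNat (nat_lit 259489), .ofNat (nat_lit 0), .ofNat (nat_lit 302621)⟩⟩, []⟩
noncomputable def p052_l81 : Lf2 := ⟨nat_lit 0, nat_lit 7, [nat_lit 80, nat_lit 5, nat_lit 5, nat_lit 20], true, nat_lit 0, nat_lit 160, nat_lit 0, nat_lit 336, ⟨nat_lit 0, nat_lit 1000, nat_lit 0, nat_lit 8, nat_lit 304, nat_lit 1000, nat_lit 55, nat_lit 0, nat_lit 0, nat_lit 0, nat_lit 0, nat_lit 0, nat_lit 42468970, nat_lit 24531030, nat_lit 0, nat_lit 3284331, true, true⟩,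
 nat_lit 0, nat_lit 0, nat_lit 0, nat_lit 5372, nat_lit 3910, nat_lit 0, nat_lit 0, nat_lit 0, nat_lit 0, nat_lit 0, nat_lit 0, nat_lit 0, nat_lit 0, nat_lit 0, nat_lit 0, nat_lit 721600, nat_lit 0, nat_lit 0, [(nat_lit 12, [(nat_lit 1, nat_lit 464), (nat_lit 2, nat_lit 536)])],
 ⟨p052_k29, nat_lit 0, nat_lit 0, nat_lit 187, nat_lit 0, nat_lit 0, [nat_lit 2211404801, nat_lit 2305907200, nat_lit 1516950400], [], [nat_lit 25428790122, nat_lit 25870799702, nat_lit 29009988937, nat_lit 29414683638, nat_lit 24588111722, nat_lit 24966207982, nat_lit 27555309154, nat_lit 27873679894], nat_lit 0, nat_lit 0, nat_lit 0, nat_lit 0, nat_lit 0, nat_lit 0, [], [nat_lit 18, nat_lit 40, nat_lit 40, nat_lit 80, nat_lit 2, nat_lit 249, nat_lit 40, nat_lit 7]⟩, C1.Rw.none,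
 ⟨nat_lit 5244, nat_lit 5478, ⟨.ofNat (nat_lit 682079), .ofNat (nat_lit 801965), .ofNat (nat_lit 724787), .ofNat (nat_lit 844675), .ofNat (nat_lit 676736), .ofNat (nat_lit 793804), .ofNat (nat_lit 719502), .ofNat (nat_lit 836570)⟩, ⟨.negSucc (nat_lit 45522), .ofNat (nat_lit 254209), .negSucc (nat_lit 2827), .ofNat (nat_lit 296923), .negSucc (nat_lit 36940), .ofNat (nat_lit 255744), .ofNat (nat_lit 0), .ofNat (nat_lit 298515)⟩⟩, [⟨nat_lit 13, nat_lit 92, nat_lit 40, nat_lit 100, nat_lit 159446896⟩]⟩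
noncomputable def p052_l82 : Lf2 := ⟨nat_lit 0, nat_lit 7, [nat_lit 80, nat_lit 5, nat_lit 5, nat_lit 20], true, nat_lit 0, nat_lit 160, nat_lit 0, nat_lit 336, ⟨nat_lit 0, nat_lit 1000, nat_lit 0, nat_lit 8, nat_lit 300, nat_lit 1000, nat_lit 56, nat_lit 0, nat_lit 0, nat_lit 0, nat_lit 0, nat_lit 0, nat_lit 42891975, nat_lit 24108025, nat_lit 0, nat_lit 3266575, true, true⟩,
 nat_lit 0, nat_lit 0, nat_lit 0, nat_lit 4992, nat_lit 3875, nat_lit 0, nat_lit 265, nat_lit 0, nat_lit 0, nat_lit 0, nat_lit 0, nat_lit 0, nat_lit 0, nat_lit 0, nat_lit 0, nat_lit 400000, nat_lit 0, nat_lit 0, [(nat_lit 12, [(nat_lit 1, nat_lit 1000)])],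
 ⟨p052_k30, nat_lit 0, nat_lit 0, nat_lit 187, nat_lit 0, nat_lit 0, [nat_lit 2068400000, nat_lit 2721200001, nat_lit 2682000000], [], [nat_lit 25804229001, nat_lit 26244767251, nat_lit 29159055125, nat_lit 29568179750, nat_lit 24932341001, nat_lit 25309335251, nat_lit 27640505751, nat_lit 27961875501], nat_lit 0, nat_lit 0, nat_lit 0, nat_lit 0, nat_lit 0, nat_lit 0, [], [nat_lit 18, nat_lit 40, nat_lit 40, nat_lit 80, nat_lit 2, nat_lit 249, nat_lit 40, nat_lit 7]⟩, C1.Rw.none,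
 ⟨nat_lit 5000, nat_lit 5245, ⟨.ofNat (nat_lit 676739), .ofNat (nat_lit 786491), .ofNat (nat_lit 719505), .ofNat (nat_lit 829257), .ofNat (nat_lit 671425), .ofNat (nat_lit 778563), .ofNat (nat_lit 714277), .ofNat (nat_lit 821416)⟩, ⟨.negSucc (nat_lit 36940), .ofNat (nat_lit 255744), .ofNat (nat_lit 0), .ofNat (nat_lit 298515), .negSucc (nat_lit 28572), .ofNat (nat_lit 257141), .ofNat (nat_lit 0), .ofNat (nat_lit 299999)⟩⟩, [⟨nat_lit 13, nat_lit 89, nat_lit 45, nat_lit 100, nat_lit 168882974⟩]⟩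
noncomputable def p052_l83 : Lf2 := ⟨nat_lit 1, nat_lit 10, [nat_lit 0, nat_lit 5, nat_lit 5, nat_lit 20], false, nat_lit 0, nat_lit 160, nat_lit 0, nat_lit 336, zbN0,
 nat_lit 0, nat_lit 0, nat_lit 0, nat_lit 0, nat_lit 0, nat_lit 0, nat_lit 0, nat_lit 0, nat_lit 0, nat_lit 0, nat_lit 0, nat_lit 0, nat_lit 0, nat_lit 0, nat_lit 0, nat_lit 0, nat_lit 0, nat_lit 0, [],
 C1.Rw.none, C1.Rw.none,
 zbF0, []⟩
noncomputable def p052_l84 : Lf2 := ⟨nat_lit 0, nat_lit 10, [nat_lit 0, nat_lit 5, nat_lit 5, nat_lit 20], true, nat_lit 0, nat_lit 160, nat_lit 0, nat_lit 336, ⟨nat_lit 0, nat_lit 1000, nat_lit 0, nat_lit 8, nat_lit 289, nat_lit 1000, nat_lit 56, nat_lit 0, nat_lit 0, nat_lit 0, nat_lit 0, nat_lit 0, nat_lit 44022746, nat_lit 22977254, nat_lit 0, nat_lit 3214844, true, true⟩,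
 nat_lit 0, nat_lit 0, nat_lit 0, nat_lit 5237, nat_lit 3685, nat_lit 0, nat_lit 244, nat_lit 0, nat_lit 0, nat_lit 0, nat_lit 0, nat_lit 0, nat_lit 0, nat_lit 0, nat_lit 0, nat_lit 403600, nat_lit 0, nat_lit 0, [(nat_lit 15, [(nat_lit 1, nat_lit 994), (nat_lit 2, nat_lit 6)])],
 ⟨p052_k27, nat_lit 0, nat_lit 0, nat_lit 183, nat_lit 0, nat_lit 0, [nat_lit 2020760400, nat_lit 2347025467, nat_lit 2309169733], [], [nat_lit 25581666183, nat_lit 26478994513, nat_lit 27744111943, nat_lit 28603662500, nat_lit 24410369083, nat_lit 25173431833, nat_lit 26161903993, nat_lit 26850294847], nat_lit 0, nat_lit 0, nat_lit 0, nat_lit 0, nat_lit 0, nat_lit 0, [], [nat_lit 18, nat_lit 40, nat_lit 40, nat_lit 80, nat_lit 2, nat_lit 249, nat_lit 40, nat_lit 7]⟩, C1.Rw.none,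
 ⟨nat_lit 4472, nat_lit 5000, ⟨.ofNat (nat_lit 671427), .ofNat (nat_lit 742856), .ofNat (nat_lit 714270), .ofNat (nat_lit 785694), .ofNat (nat_lit 660800), .ofNat (nat_lit 728778), .ofNat (nat_lit 703919), .ofNat (nat_lit 771892)⟩, ⟨.negSucc (nat_lit 28572), .ofNat (nat_lit 257141), .ofNat (nat_lit 0), .ofNat (nat_lit 299999), .negSucc (nat_lit 12423), .ofNat (nat_lit 259489), .ofNat (nat_lit 0), .ofNat (nat_lit 302621)⟩⟩, [⟨nat_lit 13, nat_lit 84, nat_lit 63, nat_lit 100, nat_lit 35112560⟩]⟩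
noncomputable def p052_l85 : Lf2 := ⟨nat_lit 0, nat_lit 10, [nat_lit 0, nat_lit 5, nat_lit 5, nat_lit 20], true, nat_lit 0, nat_lit 160, nat_lit 0, nat_lit 288, ⟨nat_lit 0, nat_lit 1000, nat_lit 0, nat_lit 9, nat_lit 310, nat_lit 1000, nat_lit 56, nat_lit 0, nat_lit 0, nat_lit 0, nat_lit 0, nat_lit 0, nat_lit 41862464, nat_lit 25137536, nat_lit 0, nat_lit 3308293, true, true⟩,
 nat_lit 0, nat_lit 0, nat_lit 0, nat_lit 4921, nat_lit 3801, nat_lit 0, nat_lit 179, nat_lit 0, nat_lit 0, nat_lit 0, nat_lit 0, nat_lit 0, nat_lit 0, nat_lit 0, nat_lit 0, nat_lit 400000, nat_lit 0, nat_lit 0, [(nat_lit 15, [(nat_lit 1, nat_lit 1000)])],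
 ⟨p052_k27, nat_lit 0, nat_lit 0, nat_lit 187, nat_lit 0, nat_lit 0, [nat_lit 2020200000, nat_lit 2354866667, nat_lit 2328333333], [], [nat_lit 28178027724, nat_lit 28612071637, nat_lit 29145111516, nat_lit 29557496463, nat_lit 26652377628, nat_lit 26990473486, nat_lit 27386434081, nat_lit 27709909523], nat_lit 0, nat_lit 0, nat_lit 0, nat_lit 0, nat_lit 0, nat_lit 0, [], [nat_lit 18, nat_lit 40, nat_lit 40, nat_lit 80, nat_lit 2, nat_lit 249, nat_lit 40, nat_lit 7]⟩, C1.Rw.none,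
 ⟨nat_lit 4743, nat_lit 5000, ⟨.ofNat (nat_lit 742855), .ofNat (nat_lit 771425), .ofNat (nat_lit 785707), .ofNat (nat_lit 814277), .ofNat (nat_lit 735820), .ofNat (nat_lit 763700), .ofNat (nat_lit 778792), .ofNat (nat_lit 806671)⟩, ⟨.negSucc (nat_lit 28572), .ofNat (nat_lit 257141), .ofNat (nat_lit 0), .ofNat (nat_lit 299999), .negSucc (nat_lit 20404), .ofNat (nat_lit 258394), .ofNat (nat_lit 0), .ofNat (nat_lit 301370)⟩⟩, [⟨nat_lit 13, nat_lit 87, nat_lit 50, nat_lit 100, nat_lit 272512593⟩]⟩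
noncomputable def p052_l86 : Lf2 := ⟨nat_lit 0, nat_lit 10, [nat_lit 0, nat_lit 5, nat_lit 5, nat_lit 20], true, nat_lit 0, nat_lit 160, nat_lit 0, nat_lit 288, ⟨nat_lit 0, nat_lit 1000, nat_lit 0, nat_lit 9, nat_lit 304, nat_lit 1000, nat_lit 56, nat_lit 0, nat_lit 0, nat_lit 0, nat_lit 0, nat_lit 0, nat_lit 42440528, nat_lit 24559472, nat_lit 0, nat_lit 3285494, true, true⟩,
 nat_lit 0, nat_lit 0, nat_lit 0, nat_lit 4948, nat_lit 3782, nat_lit 0, nat_lit 188, nat_lit 0, nat_lit 0, nat_lit 0, nat_lit 0, nat_lit 0, nat_lit 0, nat_lit 0, nat_lit 0, nat_lit 400000, nat_lit 0, nat_lit 0, [(nat_lit 15, [(nat_lit 1, nat_lit 1000)])],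
 ⟨p052_k31, nat_lit 0, nat_lit 0, nat_lit 186, nat_lit 0, nat_lit 0, [nat_lit 2020200000, nat_lit 2354866667, nat_lit 2328333333], [], [nat_lit 28400697911, nat_lit 28835579800, nat_lit 28890019684, nat_lit 29439472079, nat_lit 26839959475, nat_lit 27177590631, nat_lit 27198946024, nat_lit 27529293724], nat_lit 0, nat_lit 0, nat_lit 0, nat_lit 0, nat_lit 0, nat_lit 0, [], [nat_lit 18, nat_lit 40, nat_lit 40, nat_lit 80, nat_lit 2, nat_lit 249, nat_lit 40, nat_lit 7]⟩, C1.Rw.none,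
 ⟨nat_lit 4472, nat_lit 4744, ⟨.ofNat (nat_lit 735821), .ofNat (nat_lit 749761), .ofNat (nat_lit 778796), .ofNat (nat_lit 792736), .ofNat (nat_lit 728778), .ofNat (nat_lit 742374), .ofNat (nat_lit 771909), .ofNat (nat_lit 785505)⟩, ⟨.negSucc (nat_lit 20404), .ofNat (nat_lit 258394), .ofNat (nat_lit 0), .ofNat (nat_lit 301370), .negSucc (nat_lit 12423), .ofNat (nat_lit 259489), .ofNat (nat_lit 0), .ofNat (nat_lit 302621)⟩⟩, [⟨nat_lit 13, nat_lit 82, nat_lit 66, nat_lit 100, nat_lit 312104839⟩, ⟨nat_lit 13, nat_lit 84, nat_lit 55, nat_lit 100, nat_lit 86499254⟩]⟩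
noncomputable def p052_l87 : Lf2 := ⟨nat_lit 0, nat_lit 10, [nat_lit 0, nat_lit 5, nat_lit 5, nat_lit 20], true, nat_lit 160, nat_lit 300, nat_lit 0, nat_lit 384, ⟨nat_lit 0, nat_lit 0, nat_lit 1000, nat_lit 4, nat_lit 107, nat_lit 1000, nat_lit 161, nat_lit 1000, nat_lit 3701, nat_lit 228, nat_lit 106667, nat_lit 295, nat_lit 52411367, nat_lit 0, nat_lit 0, nat_lit 3536891, false, false⟩,
 nat_lit 0, nat_lit 0, nat_lit 0, nat_lit 5071, nat_lit 3231, nat_lit 0, nat_lit 0, nat_lit 0, nat_lit 0, nat_lit 0, nat_lit 0, nat_lit 0, nat_lit 0, nat_lit 0, nat_lit 109, nat_lit 517000, nat_lit 0, nat_lit 0, [(nat_lit 12, [(nat_lit 5, nat_lit 805), (nat_lit 6, nat_lit 195)]), (nat_lit 15, [(nat_lit 5, nat_lit 805), (nat_lit 6, nat_lit 195)])],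
 ⟨p052_k24, nat_lit 0, nat_lit 0, nat_lit 172, nat_lit 0, nat_lit 0, [nat_lit 2795658000, nat_lit 229266000], [], [nat_lit 16254009064, nat_lit 18385184172, nat_lit 16312710900, nat_lit 18142939232, nat_lit 21025000577, nat_lit 23583656818, nat_lit 20983201069, nat_lit 22826712141], nat_lit 0, nat_lit 0, nat_lit 0, nat_lit 0, nat_lit 0, nat_lit 0, [], [nat_lit 82, nat_lit 40, nat_lit 40, nat_lit 80, nat_lit 63, nat_lit 345, nat_lit 125, nat_lit 10]⟩, C1.Rw.none,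
 ⟨nat_lit 4472, nat_lit 5478, ⟨.ofNat (nat_lit 90113), .ofNat (nat_lit 382351), .ofNat (nat_lit 132827), .ofNat (nat_lit 425065), .ofNat (nat_lit 123773), .ofNat (nat_lit 388887), .ofNat (nat_lit 166906), .ofNat (nat_lit 432020)⟩, ⟨.ofNat (nat_lit 254209), .ofNat (nat_lit 516475), .ofNat (nat_lit 296923), .ofNat (nat_lit 559189), .ofNat (nat_lit 259489), .ofNat (nat_lit 497412), .ofNat (nat_lit 302621), .ofNat (nat_lit 540545)⟩⟩, [⟨nat_lit 0, nat_lit 100, nat_lit 87, nat_lit 41, nat_lit 106041060⟩, ⟨nat_lit 16, nat_lit 100, nat_lit 95, nat_lit 87, nat_lit 185720221⟩]⟩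
noncomputable def p052_l88 : Lf2 := ⟨nat_lit 0, nat_lit 10, [nat_lit 0, nat_lit 5, nat_lit 5, nat_lit 20], true, nat_lit 160, nat_lit 240, nat_lit 0, nat_lit 384, ⟨nat_lit 0, nat_lit 1000, nat_lit 0, nat_lit 4, nat_lit 244, nat_lit 1000, nat_lit 140, nat_lit 0, nat_lit 0, nat_lit 0, nat_lit 0, nat_lit 0, nat_lit 42878658, nat_lit 17041674, nat_lit 7079668, nat_lit 4664693, false, true⟩,
 nat_lit 0, nat_lit 0, nat_lit 0, nat_lit 2684, nat_lit 3777, nat_lit 0, nat_lit 0, nat_lit 0, nat_lit 0, nat_lit 0, nat_lit 0, nat_lit 0, nat_lit 0, nat_lit 0, nat_lit 0, nat_lit 250000, nat_lit 0, nat_lit 0, [(nat_lit 12, [(nat_lit 0, nat_lit 1000)])],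
 ⟨p052_k24, nat_lit 0, nat_lit 0, nat_lit 57, nat_lit 0, nat_lit 0, [nat_lit 2378800001, nat_lit 3513428572], [], [nat_lit 14317112477, nat_lit 15775884607, nat_lit 25863163118, nat_lit 26710068447, nat_lit 17502033009, nat_lit 18753271265, nat_lit 27437827729, nat_lit 28178051284], nat_lit 0, nat_lit 0, nat_lit 0, nat_lit 0, nat_lit 0, nat_lit 0, [], [nat_lit 82, nat_lit 40, nat_lit 40, nat_lit 80, nat_lit 63, nat_lit 401, nat_lit 175, nat_lit 11]⟩, C1.Rw.none,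
 ⟨nat_lit 5000, nat_lit 5478, ⟨.ofNat (nat_lit 382351), .ofNat (nat_lit 801938), .ofNat (nat_lit 425065), .ofNat (nat_lit 844633), .ofNat (nat_lit 385713), .ofNat (nat_lit 785675), .ofNat (nat_lit 428570), .ofNat (nat_lit 828512)⟩, ⟨.ofNat (nat_lit 254209), .ofNat (nat_lit 404075), .ofNat (nat_lit 296923), .ofNat (nat_lit 446789), .ofNat (nat_lit 257141), .ofNat (nat_lit 399998), .ofNat (nat_lit 299999), .ofNat (nat_lit 442856)⟩⟩, [⟨nat_lit 13, nat_lit 90, nat_lit 54, nat_lit 100, nat_lit 150034337⟩, ⟨nat_lit 4, nat_lit 100, nat_lit 94, nat_lit 75, nat_lit 221361⟩]⟩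
noncomputable def p052_l89 : Lf2 := ⟨nat_lit 0, nat_lit 10, [nat_lit 0, nat_lit 5, nat_lit 5, nat_lit 20], true, nat_lit 160, nat_lit 240, nat_lit 0, nat_lit 384, ⟨nat_lit 0, nat_lit 1000, nat_lit 0, nat_lit 4, nat_lit 239, nat_lit 1000, nat_lit 140, nat_lit 0, nat_lit 0, nat_lit 0, nat_lit 0, nat_lit 0, nat_lit 43353209, nat_lit 16545955, nat_lit 7100836, nat_lit 4630663, false, true⟩,
 nat_lit 0, nat_lit 0, nat_lit 0, nat_lit 2637, nat_lit 3704, nat_lit 0, nat_lit 0, nat_lit 0, nat_lit 0, nat_lit 0, nat_lit 0, nat_lit 0, nat_lit 0, nat_lit 0, nat_lit 0, nat_lit 250000, nat_lit 0, nat_lit 0, [(nat_lit 15, [(nat_lit 0, nat_lit 1000)])],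
 ⟨p052_k28, nat_lit 0, nat_lit 0, nat_lit 57, nat_lit 0, nat_lit 0, [nat_lit 2318400000, nat_lit 3071600000], [], [nat_lit 15801180912, nat_lit 17245740672, nat_lit 26160231914, nat_lit 27023713076, nat_lit 18764905328, nat_lit 20004863040, nat_lit 27694661056, nat_lit 28449501255], nat_lit 0, nat_lit 0, nat_lit 0, nat_lit 0, nat_lit 0, nat_lit 0, [], [nat_lit 74, nat_lit 40, nat_lit 40, nat_lit 80, nat_lit 43, nat_lit 401, nat_lit 175, nat_lit 12]⟩, C1.Rw.none,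
 ⟨nat_lit 4472, nat_lit 5000, ⟨.ofNat (nat_lit 385713), .ofNat (nat_lit 771425), .ofNat (nat_lit 428570), .ofNat (nat_lit 814263), .ofNat (nat_lit 388887), .ofNat (nat_lit 755968), .ofNat (nat_lit 432020), .ofNat (nat_lit 799081)⟩, ⟨.ofNat (nat_lit 257141), .ofNat (nat_lit 399998), .ofNat (nat_lit 299999), .ofNat (nat_lit 442856), .ofNat (nat_lit 259489), .ofNat (nat_lit 395445), .ofNat (nat_lit 302621), .ofNat (nat_lit 438578)⟩⟩, [⟨nat_lit 13, nat_lit 84, nat_lit 63, nat_lit 100, nat_lit 160067206⟩, ⟨nat_lit 4, nat_lit 100, nat_lit 85, nat_lit 73, nat_lit 7253265⟩]⟩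
noncomputable def p052_l90 : Lf2 := ⟨nat_lit 0, nat_lit 10, [nat_lit 0, nat_lit 5, nat_lit 5, nat_lit 20], true, nat_lit 240, nat_lit 300, nat_lit 0, nat_lit 384, ⟨nat_lit 0, nat_lit 1000, nat_lit 0, nat_lit 4, nat_lit 243, nat_lit 1000, nat_lit 190, nat_lit 0, nat_lit 0, nat_lit 0, nat_lit 0, nat_lit 0, nat_lit 39964433, nat_lit 16141503, nat_lit 10894064, nat_lit 5102984, false, true⟩,
 nat_lit 0, nat_lit 0, nat_lit 0, nat_lit 3291, nat_lit 3616, nat_lit 0, nat_lit 0, nat_lit 0, nat_lit 0, nat_lit 0, nat_lit 0, nat_lit 0, nat_lit 0, nat_lit 0, nat_lit 0, nat_lit 250000, nat_lit 0, nat_lit 0, [(nat_lit 12, [(nat_lit 0, nat_lit 1000)]), (nat_lit 15, [(nat_lit 0, nat_lit 1000)])],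
 ⟨p052_k24, nat_lit 0, nat_lit 0, nat_lit 58, nat_lit 0, nat_lit 0, [nat_lit 2378800001, nat_lit 3513428572], [], [nat_lit 17685781665, nat_lit 20138500161, nat_lit 27474037659, nat_lit 28936526056, nat_lit 20875460817, nat_lit 23002874745, nat_lit 29350366414, nat_lit 30635923230], nat_lit 0, nat_lit 0, nat_lit 0, nat_lit 0, nat_lit 0, nat_lit 0, [], [nat_lit 82, nat_lit 40, nat_lit 40, nat_lit 80, nat_lit 63, nat_lit 401, nat_lit 175, nat_lit 11]⟩, C1.Rw.none,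
 ⟨nat_lit 4472, nat_lit 5478, ⟨.ofNat (nat_lit 382351), .ofNat (nat_lit 801872), .ofNat (nat_lit 425065), .ofNat (nat_lit 844520), .ofNat (nat_lit 388887), .ofNat (nat_lit 769461), .ofNat (nat_lit 432020), .ofNat (nat_lit 812527)⟩, ⟨.ofNat (nat_lit 404075), .ofNat (nat_lit 516475), .ofNat (nat_lit 446789), .ofNat (nat_lit 559189), .ofNat (nat_lit 395445), .ofNat (nat_lit 497412), .ofNat (nat_lit 438578), .ofNat (nat_lit 540545)⟩⟩, [⟨nat_lit 13, nat_lit 92, nat_lit 40, nat_lit 100, nat_lit 119282733⟩, ⟨nat_lit 16, nat_lit 100, nat_lit 95, nat_lit 87, nat_lit 142424064⟩]⟩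
noncomputable def p052_l91 : Lf2 := ⟨nat_lit 0, nat_lit 10, [nat_lit 0, nat_lit 5, nat_lit 5, nat_lit 20], true, nat_lit 0, nat_lit 300, nat_lit 0, nat_lit 384, ⟨nat_lit 0, nat_lit 1000, nat_lit 0, nat_lit 4, nat_lit 187, nat_lit 1000, nat_lit 106, nat_lit 0, nat_lit 0, nat_lit 0, nat_lit 0, nat_lit 0, nat_lit 0, nat_lit 0, nat_lit 0, nat_lit 5000000, false, true⟩,
 nat_lit 0, nat_lit 0, nat_lit 0, nat_lit 4862, nat_lit 4574, nat_lit 0, nat_lit 0, nat_lit 0, nat_lit 0, nat_lit 0, nat_lit 0, nat_lit 0, nat_lit 0, nat_lit 0, nat_lit 0, nat_lit 536200, nat_lit 0, nat_lit 0, [(nat_lit 12, [(nat_lit 1, nat_lit 773), (nat_lit 2, nat_lit 227)]), (nat_lit 15, [(nat_lit 1, nat_lit 773), (nat_lit 2, nat_lit 227)])],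
 ⟨p052_k24, nat_lit 0, nat_lit 0, nat_lit 307, nat_lit 0, nat_lit 0, [nat_lit 2835051201, nat_lit 2031646400], [], [nat_lit 27330703182, nat_lit 29333377948, nat_lit 32007258811, nat_lit 33078635237, nat_lit 28802484957, nat_lit 30053133940, nat_lit 30837036991, nat_lit 31671706515], nat_lit 0, nat_lit 0, nat_lit 0, nat_lit 0, nat_lit 0, nat_lit 0, [], [nat_lit 82, nat_lit 40, nat_lit 40, nat_lit 80, nat_lit 63, nat_lit 401, nat_lit 175, nat_lit 12]⟩, C1.Rw.none,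
 ⟨nat_lit 4472, nat_lit 5478, ⟨.ofNat (nat_lit 90113), .ofNat (nat_lit 801872), .ofNat (nat_lit 132827), .ofNat (nat_lit 844520), .ofNat (nat_lit 123773), .ofNat (nat_lit 769461), .ofNat (nat_lit 166906), .ofNat (nat_lit 812527)⟩, ⟨.negSucc (nat_lit 45522), .ofNat (nat_lit 516475), .negSucc (nat_lit 2834), .ofNat (nat_lit 559189), .negSucc (nat_lit 12423), .ofNat (nat_lit 497412), .ofNat (nat_lit 0), .ofNat (nat_lit 540545)⟩⟩, [⟨nat_lit 13, nat_lit 87, nat_lit 59, nat_lit 100, nat_lit 86825608⟩, ⟨nat_lit 4, nat_lit 100, nat_lit 90, nat_lit 74, nat_lit 63430325⟩]⟩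
noncomputable def b_V_700_400_10_0 : St := ⟨true, nat_lit 0, nat_lit 2, nat_lit 0, nat_lit 80, nat_lit 280, nat_lit 320, nat_lit 160, nat_lit 200, nat_lit 4, nat_lit 384, nat_lit 40, nat_lit 80, nat_lit 0, nat_lit 300, nat_lit 0, nat_lit 384, nat_lit 0, nat_lit 40, nat_lit 0, nat_lit 0, nat_lit 0, nat_lit 0⟩
theorem d_V_700_400_10_0 (h : EB TB.env) : Dead b_V_700_400_10_0 := chkB_sound0 h (T :=
(.gv
(.st (nat_lit 1)
(.spl (nat_lit 2) (nat_lit 160)
(.leaf p052_l72)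
(.spl (nat_lit 4) (nat_lit 160)
(.spl (nat_lit 0) (nat_lit 300)
(.leaf p052_l73)
(.trX (nat_lit 13) (nat_lit 87) (nat_lit 50) (nat_lit 100) (nat_lit 376) (.leaf p052_l74)))
(.spl (nat_lit 0) (nat_lit 300)
(.leaf p052_l75)
(.trX (nat_lit 13) (nat_lit 87) (nat_lit 50) (nat_lit 100) (nat_lit 376) (.trX (nat_lit 16) (nat_lit 94) (nat_lit 100) (nat_lit 87) (nat_lit 280) (.leaf p052_l76))))))
(.spl (nat_lit 4) (nat_lit 160)
(.spl (nat_lit 2) (nat_lit 160)
(.leaf p052_l77)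
(.spl (nat_lit 2) (nat_lit 240)
(.leaf p052_l78)
(.spl (nat_lit 2) (nat_lit 320)
(.spl (nat_lit 0) (nat_lit 300)
(.leaf p052_l79)
(.leaf p052_l80))
(.trX (nat_lit 22) (nat_lit 82) (nat_lit 76) (nat_lit 100) (nat_lit 336) (.spl (nat_lit 0) (nat_lit 300)
(.spl (nat_lit 6) (nat_lit 28)
(.spl (nat_lit 0) (nat_lit 290)
(.leaf p052_l81)
(.trX (nat_lit 13) (nat_lit 89) (nat_lit 45) (nat_lit 100) (nat_lit 380) (.leaf p052_l82)))
(.leaf p052_l83))
(.trX (nat_lit 13) (nat_lit 87) (nat_lit 50) (nat_lit 100) (nat_lit 376) (.spl (nat_lit 2) (nat_lit 360)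
(.leaf p052_l84)
(.trX (nat_lit 22) (nat_lit 61) (nat_lit 92) (nat_lit 100) (nat_lit 288) (.spl (nat_lit 0) (nat_lit 310)
(.leaf p052_l85)
(.trX (nat_lit 13) (nat_lit 84) (nat_lit 55) (nat_lit 100) (nat_lit 368) (.leaf p052_l86)))))))))))
(.spl (nat_lit 2) (nat_lit 160)
(.leaf p052_l87)
(.spl (nat_lit 4) (nat_lit 240)
(.spl (nat_lit 0) (nat_lit 300)
(.leaf p052_l88)
(.trX (nat_lit 13) (nat_lit 87) (nat_lit 50) (nat_lit 100) (nat_lit 376) (.leaf p052_l89)))
(.leaf p052_l90)))))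
(.leaf p052_l91))) (by decide +kernel)
noncomputable def p052_l92 : Lf2 := ⟨nat_lit 0, nat_lit 10, [nat_lit 0, nat_lit 5, nat_lit 5, nat_lit 20], true, nat_lit 0, nat_lit 160, nat_lit 0, nat_lit 384, ⟨nat_lit 0, nat_lit 0, nat_lit 1000, nat_lit 4, nat_lit 79, nat_lit 1000, nat_lit 56, nat_lit 1000, nat_lit 25350, nat_lit 254, nat_lit 58017, nat_lit 274, nat_lit 64514347, nat_lit 0, nat_lit 0, nat_lit 793050, false, false⟩,
 nat_lit 0, nat_lit 5028, nat_lit 0, nat_lit 0, nat_lit 3199, nat_lit 0, nat_lit 0, nat_lit 0, nat_lit 0, nat_lit 0, nat_lit 0, nat_lit 0, nat_lit 0, nat_lit 0, nat_lit 141, nat_lit 680800, nat_lit 0, nat_lit 0, [(nat_lit 12, [(nat_lit 5, nat_lit 532), (nat_lit 6, nat_lit 468)]), (nat_lit 15, [(nat_lit 5, nat_lit 532), (nat_lit 6, nat_lit 468)])],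
 ⟨p052_k25, nat_lit 0, nat_lit 0, nat_lit 493, nat_lit 0, nat_lit 408077, [nat_lit 2925768001, nat_lit 2005216001, nat_lit 300478400], [], [nat_lit 17440487865, nat_lit 19201445841, nat_lit 16704057136, nat_lit 18581914309, nat_lit 19237899657, nat_lit 19579837449, nat_lit 21492084304, nat_lit 19187105913], nat_lit 1271250, nat_lit 1271250, nat_lit 21650, nat_lit 490000, nat_lit 0, nat_lit 1100001, [nat_lit 780000, nat_lit 1435000, nat_lit 1271250], [nat_lit 8, nat_lit 40, nat_lit 40, nat_lit 80, nat_lit 1, nat_lit 272, nat_lit 60, nat_lit 8]⟩, C1.Rw.none,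
 ⟨nat_lit 4472, nat_lit 5478, ⟨.ofNat (nat_lit 90113), .ofNat (nat_lit 232485), .ofNat (nat_lit 132827), .ofNat (nat_lit 275199), .ofNat (nat_lit 123773), .ofNat (nat_lit 252931), .ofNat (nat_lit 166906), .ofNat (nat_lit 296064)⟩, ⟨.negSucc (nat_lit 45522), .ofNat (nat_lit 254209), .negSucc (nat_lit 2834), .ofNat (nat_lit 296923), .negSucc (nat_lit 12423), .ofNat (nat_lit 259489), .ofNat (nat_lit 0), .ofNat (nat_lit 302621)⟩⟩, []⟩
noncomputable def p052_l93 : Lf2 := ⟨nat_lit 0, nat_lit 10, [nat_lit 0, nat_lit 5, nat_lit 5, nat_lit 20], true, nat_lit 0, nat_lit 160, nat_lit 0, nat_lit 384, ⟨nat_lit 0, nat_lit 0, nat_lit 1000, nat_lit 4, nat_lit 134, nat_lit 838, nat_lit 56, nat_lit 1000, nat_lit 25350, nat_lit 254, nat_lit 170017, nat_lit 316, nat_lit 60216908, nat_lit 0, nat_lit 0, nat_lit 1638994, false, false⟩,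
 nat_lit 0, nat_lit 5710, nat_lit 0, nat_lit 0, nat_lit 3633, nat_lit 0, nat_lit 0, nat_lit 0, nat_lit 0, nat_lit 0, nat_lit 0, nat_lit 0, nat_lit 0, nat_lit 0, nat_lit 203, nat_lit 1000000, nat_lit 0, nat_lit 0, [(nat_lit 12, [(nat_lit 6, nat_lit 1000)]), (nat_lit 15, [(nat_lit 6, nat_lit 1000)])],
 ⟨p052_k25, nat_lit 0, nat_lit 0, nat_lit 518, nat_lit 0, nat_lit 640600, [nat_lit 3577200001, nat_lit 2932400001, nat_lit 429200000], [], [nat_lit 19065139467, nat_lit 17028582392, nat_lit 16008539293, nat_lit 18157829261, nat_lit 16628901388, nat_lit 17562826449, nat_lit 21222024636, nat_lit 18546497021], nat_lit 1271250, nat_lit 1271250, nat_lit 490000, nat_lit 1100001, nat_lit 0, nat_lit 1100001, [nat_lit 780000, nat_lit 1435000, nat_lit 1271250], [nat_lit 8, nat_lit 40, nat_lit 40, nat_lit 80, nat_lit 1, nat_lit 317, nat_lit 100, nat_lit 9]⟩, C1.Rw.none,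
 ⟨nat_lit 4472, nat_lit 5478, ⟨.ofNat (nat_lit 232485), .ofNat (nat_lit 382351), .ofNat (nat_lit 275199), .ofNat (nat_lit 425065), .ofNat (nat_lit 252931), .ofNat (nat_lit 388887), .ofNat (nat_lit 296064), .ofNat (nat_lit 432020)⟩, ⟨.negSucc (nat_lit 45522), .ofNat (nat_lit 254209), .negSucc (nat_lit 2834), .ofNat (nat_lit 296923), .negSucc (nat_lit 12423), .ofNat (nat_lit 259489), .ofNat (nat_lit 0), .ofNat (nat_lit 302621)⟩⟩, []⟩
noncomputable def p052_l94 : Lf2 := ⟨nat_lit 0, nat_lit 10, [nat_lit 0, nat_lit 5, nat_lit 5, nat_lit 20], true, nat_lit 160, nat_lit 240, nat_lit 0, nat_lit 384, ⟨nat_lit 0, nat_lit 0, nat_lit 1000, nat_lit 4, nat_lit 79, nat_lit 1000, nat_lit 140, nat_lit 1000, nat_lit 183750, nat_lit 320, nat_lit 58017, nat_lit 274, nat_lit 56279743, nat_lit 0, nat_lit 0, nat_lit 2833186, false, false⟩,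
 nat_lit 0, nat_lit 6313, nat_lit 0, nat_lit 0, nat_lit 4017, nat_lit 0, nat_lit 0, nat_lit 0, nat_lit 0, nat_lit 0, nat_lit 0, nat_lit 0, nat_lit 0, nat_lit 0, nat_lit 86, nat_lit 400000, nat_lit 0, nat_lit 0, [(nat_lit 12, [(nat_lit 5, nat_lit 1000)]), (nat_lit 15, [(nat_lit 5, nat_lit 1000)])],
 ⟨p052_k24, nat_lit 0, nat_lit 0, nat_lit 340, nat_lit 0, nat_lit 408077, [nat_lit 2347200000, nat_lit 174400000], [], [nat_lit 21222874939, nat_lit 18990769646, nat_lit 15183292532, nat_lit 17015790536, nat_lit 18978375590, nat_lit 21277802096, nat_lit 21144885080, nat_lit 19191299152], nat_lit 1271250, nat_lit 1271250, nat_lit 21650, nat_lit 490000, nat_lit 1100001, nat_lit 1785000, [nat_lit 780000, nat_lit 2090000], [nat_lit 82, nat_lit 40, nat_lit 40, nat_lit 80, nat_lit 63, nat_lit 317, nat_lit 100, nat_lit 9]⟩, C1.Rw.none,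
 ⟨nat_lit 4472, nat_lit 5478, ⟨.ofNat (nat_lit 90113), .ofNat (nat_lit 232485), .ofNat (nat_lit 132827), .ofNat (nat_lit 275199), .ofNat (nat_lit 123773), .ofNat (nat_lit 252931), .ofNat (nat_lit 166906), .ofNat (nat_lit 296064)⟩, ⟨.ofNat (nat_lit 254209), .ofNat (nat_lit 404075), .ofNat (nat_lit 296923), .ofNat (nat_lit 446789), .ofNat (nat_lit 259489), .ofNat (nat_lit 395445), .ofNat (nat_lit 302621), .ofNat (nat_lit 438578)⟩⟩, [⟨nat_lit 0, nat_lit 100, nat_lit 87, nat_lit 41, nat_lit 164366208⟩]⟩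
noncomputable def p052_l95 : Lf2 := ⟨nat_lit 0, nat_lit 10, [nat_lit 0, nat_lit 5, nat_lit 5, nat_lit 20], true, nat_lit 240, nat_lit 300, nat_lit 0, nat_lit 336, ⟨nat_lit 0, nat_lit 0, nat_lit 1000, nat_lit 4, nat_lit 79, nat_lit 1000, nat_lit 190, nat_lit 1000, nat_lit 3701, nat_lit 228, nat_lit 58017, nat_lit 274, nat_lit 51560057, nat_lit 0, nat_lit 0, nat_lit 3459250, false, false⟩,
 nat_lit 0, nat_lit 5542, nat_lit 0, nat_lit 0, nat_lit 3526, nat_lit 0, nat_lit 0, nat_lit 0, nat_lit 0, nat_lit 0, nat_lit 0, nat_lit 0, nat_lit 0, nat_lit 0, nat_lit 101, nat_lit 477400, nat_lit 0, nat_lit 0, [(nat_lit 12, [(nat_lit 5, nat_lit 871), (nat_lit 6, nat_lit 129)]), (nat_lit 15, [(nat_lit 5, nat_lit 871), (nat_lit 6, nat_lit 129)])],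
 ⟨p052_k24, nat_lit 0, nat_lit 0, nat_lit 338, nat_lit 0, nat_lit 408077, [nat_lit 2641287600, nat_lit 204665200], [], [nat_lit 19388257130, nat_lit 21156721668, nat_lit 18585989824, nat_lit 20441453416, nat_lit 21804360188, nat_lit 24121976034, nat_lit 21057272192, nat_lit 22763994982], nat_lit 1271250, nat_lit 1271250, nat_lit 21650, nat_lit 490000, nat_lit 1271250, nat_lit 1271250, [nat_lit 780000, nat_lit 2090000], [nat_lit 82, nat_lit 40, nat_lit 40, nat_lit 80, nat_lit 63, nat_lit 317, nat_lit 100, nat_lit 9]⟩, C1.Rw.none,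
 ⟨nat_lit 4472, nat_lit 5478, ⟨.ofNat (nat_lit 90113), .ofNat (nat_lit 232485), .ofNat (nat_lit 132827), .ofNat (nat_lit 275199), .ofNat (nat_lit 123773), .ofNat (nat_lit 252931), .ofNat (nat_lit 166906), .ofNat (nat_lit 296064)⟩, ⟨.ofNat (nat_lit 404075), .ofNat (nat_lit 516475), .ofNat (nat_lit 446789), .ofNat (nat_lit 559189), .ofNat (nat_lit 395445), .ofNat (nat_lit 497412), .ofNat (nat_lit 438578), .ofNat (nat_lit 540545)⟩⟩, [⟨nat_lit 0, nat_lit 100, nat_lit 87, nat_lit 41, nat_lit 162793557⟩, ⟨nat_lit 4, nat_lit 100, nat_lit 90, nat_lit 74, nat_lit 315073882⟩]⟩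
noncomputable def p052_l96 : Lf2 := ⟨nat_lit 0, nat_lit 10, [nat_lit 0, nat_lit 5, nat_lit 5, nat_lit 20], true, nat_lit 160, nat_lit 300, nat_lit 0, nat_lit 384, ⟨nat_lit 0, nat_lit 0, nat_lit 1000, nat_lit 4, nat_lit 133, nat_lit 1000, nat_lit 162, nat_lit 1000, nat_lit 3701, nat_lit 228, nat_lit 166667, nat_lit 315, nat_lit 50466679, nat_lit 0, nat_lit 0, nat_lit 3886392, false, false⟩,
 nat_lit 0, nat_lit 7853, nat_lit 0, nat_lit 0, nat_lit 4997, nat_lit 0, nat_lit 0, nat_lit 0, nat_lit 0, nat_lit 0, nat_lit 0, nat_lit 0, nat_lit 0, nat_lit 0, nat_lit 208, nat_lit 1000000, nat_lit 0, nat_lit 0, [(nat_lit 12, [(nat_lit 6, nat_lit 1000)])],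
 ⟨p052_k25, nat_lit 0, nat_lit 0, nat_lit 294, nat_lit 0, nat_lit 403254, [nat_lit 3637200001, nat_lit 3032400001, nat_lit 431200000], [], [nat_lit 12011875926, nat_lit 13549705542, nat_lit 12557427600, nat_lit 14456778640, nat_lit 20122244334, nat_lit 21639905374, nat_lit 24822231381, nat_lit 22573866210], nat_lit 1271250, nat_lit 1271250, nat_lit 490000, nat_lit 1100001, nat_lit 1100001, nat_lit 2298750, [nat_lit 780000, nat_lit 1435000, nat_lit 1271250], [nat_lit 8, nat_lit 40, nat_lit 40, nat_lit 80, nat_lit 1, nat_lit 345, nat_lit 125, nat_lit 9]⟩, C1.Rw.none,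
 ⟨nat_lit 5000, nat_lit 5478, ⟨.ofNat (nat_lit 232485), .ofNat (nat_lit 382351), .ofNat (nat_lit 275199), .ofNat (nat_lit 425065), .ofNat (nat_lit 242856), .ofNat (nat_lit 385713), .ofNat (nat_lit 285713), .ofNat (nat_lit 428570)⟩, ⟨.ofNat (nat_lit 254209), .ofNat (nat_lit 516475), .ofNat (nat_lit 296923), .ofNat (nat_lit 559189), .ofNat (nat_lit 257141), .ofNat (nat_lit 507141), .ofNat (nat_lit 299999), .ofNat (nat_lit 549998)⟩⟩, [⟨nat_lit 4, nat_lit 100, nat_lit 94, nat_lit 75, nat_lit 420752345⟩]⟩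
noncomputable def p052_l97 : Lf2 := ⟨nat_lit 0, nat_lit 10, [nat_lit 0, nat_lit 5, nat_lit 5, nat_lit 20], true, nat_lit 160, nat_lit 280, nat_lit 0, nat_lit 384, ⟨nat_lit 0, nat_lit 0, nat_lit 1000, nat_lit 4, nat_lit 136, nat_lit 1000, nat_lit 154, nat_lit 1000, nat_lit 24746, nat_lit 252, nat_lit 173400, nat_lit 317, nat_lit 50958503, nat_lit 0, nat_lit 0, nat_lit 3823979, false, false⟩,
 nat_lit 0, nat_lit 5411, nat_lit 0, nat_lit 0, nat_lit 3745, nat_lit 0, nat_lit 725, nat_lit 0, nat_lit 0, nat_lit 0, nat_lit 0, nat_lit 0, nat_lit 0, nat_lit 0, nat_lit 94, nat_lit 400000, nat_lit 0, nat_lit 0, [(nat_lit 15, [(nat_lit 5, nat_lit 1000)])],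
 ⟨p052_k28, nat_lit 0, nat_lit 0, nat_lit 294, nat_lit 0, nat_lit 570946, [nat_lit 2443200000, nat_lit 153000000], [], [nat_lit 15834371360, nat_lit 16978864720, nat_lit 17004700440, nat_lit 18033175580, nat_lit 19990355025, nat_lit 20903140450, nat_lit 23003392550, nat_lit 21564342370], nat_lit 1271250, nat_lit 1271250, nat_lit 490000, nat_lit 1100001, nat_lit 1100001, nat_lit 2127500, [nat_lit 780000, nat_lit 1762500], [nat_lit 74, nat_lit 40, nat_lit 40, nat_lit 80, nat_lit 43, nat_lit 345, nat_lit 125, nat_lit 11]⟩, C1.Rw.none,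
 ⟨nat_lit 4472, nat_lit 5000, ⟨.ofNat (nat_lit 242856), .ofNat (nat_lit 385713), .ofNat (nat_lit 285713), .ofNat (nat_lit 428570), .ofNat (nat_lit 252931), .ofNat (nat_lit 388887), .ofNat (nat_lit 296064), .ofNat (nat_lit 432020)⟩, ⟨.ofNat (nat_lit 257141), .ofNat (nat_lit 471427), .ofNat (nat_lit 299999), .ofNat (nat_lit 514284), .ofNat (nat_lit 259489), .ofNat (nat_lit 463423), .ofNat (nat_lit 302621), .ofNat (nat_lit 506556)⟩⟩, [⟨nat_lit 4, nat_lit 100, nat_lit 85, nat_lit 73, nat_lit 271568717⟩]⟩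
noncomputable def p052_l98 : Lf2 := ⟨nat_lit 0, nat_lit 7, [nat_lit 80, nat_lit 5, nat_lit 5, nat_lit 20], true, nat_lit 0, nat_lit 160, nat_lit 0, nat_lit 384, ⟨nat_lit 0, nat_lit 0, nat_lit 1000, nat_lit 4, nat_lit 187, nat_lit 1000, nat_lit 55, nat_lit 1000, nat_lit 25350, nat_lit 254, nat_lit 7502, nat_lit 231, nat_lit 54965864, nat_lit 0, nat_lit 0, nat_lit 2354036, false, true⟩,
 nat_lit 0, nat_lit 6732, nat_lit 0, nat_lit 0, nat_lit 4283, nat_lit 0, nat_lit 0, nat_lit 0, nat_lit 0, nat_lit 0, nat_lit 0, nat_lit 0, nat_lit 0, nat_lit 0, nat_lit 88, nat_lit 505600, nat_lit 0, nat_lit 0, [(nat_lit 12, [(nat_lit 5, nat_lit 824), (nat_lit 6, nat_lit 176)])],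
 ⟨p052_k32, nat_lit 0, nat_lit 0, nat_lit 265, nat_lit 0, nat_lit 332164, [nat_lit 2426113601, nat_lit 363729599], [], [nat_lit 21646805467, nat_lit 19449378053, nat_lit 18418794972, nat_lit 20148089406, nat_lit 16811750517, nat_lit 15389942700, nat_lit 23374957901, nat_lit 21435581237], nat_lit 1271250, nat_lit 1271250, nat_lit 1100001, nat_lit 1785000, nat_lit 0, nat_lit 1100001, [nat_lit 780000, nat_lit 1762500], [nat_lit 74, nat_lit 40, nat_lit 40, nat_lit 80, nat_lit 43, nat_lit 317, nat_lit 100, nat_lit 10]⟩, C1.Rw.none,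
 ⟨nat_lit 5000, nat_lit 5478, ⟨.ofNat (nat_lit 382351), .ofNat (nat_lit 532217), .ofNat (nat_lit 403708), .ofNat (nat_lit 553572), .ofNat (nat_lit 385713), .ofNat (nat_lit 528570), .ofNat (nat_lit 407141), .ofNat (nat_lit 549996)⟩, ⟨.negSucc (nat_lit 45522), .ofNat (nat_lit 254209), .negSucc (nat_lit 2832), .ofNat (nat_lit 296923), .negSucc (nat_lit 28572), .ofNat (nat_lit 257141), .ofNat (nat_lit 0), .ofNat (nat_lit 299999)⟩⟩, []⟩
noncomputable def p052_l99 : Lf2 := ⟨nat_lit 0, nat_lit 7, [nat_lit 80, nat_lit 5, nat_lit 5, nat_lit 20], false, nat_lit 0, nat_lit 160, nat_lit 0, nat_lit 372, ⟨nat_lit 487, nat_lit 0, nat_lit 513, nat_lit 4, nat_lit 196, nat_lit 513, nat_lit 55, nat_lit 513, nat_lit 25350, nat_lit 254, nat_lit 5073, nat_lit 222, nat_lit 54057853, nat_lit 0, nat_lit 0, nat_lit 2453907, false, true⟩,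
 nat_lit 0, nat_lit 11588, nat_lit 0, nat_lit 0, nat_lit 7374, nat_lit 5355, nat_lit 0, nat_lit 0, nat_lit 0, nat_lit 2418, nat_lit 0, nat_lit 0, nat_lit 0, nat_lit 0, nat_lit 0, nat_lit 513000, nat_lit 0, nat_lit 0, [(nat_lit 12, [(nat_lit 6, nat_lit 513)])],
 ⟨p052_k32, nat_lit 0, nat_lit 0, nat_lit 281, nat_lit 0, nat_lit 394471, [nat_lit 2600736001, nat_lit 2089768800], [], [nat_lit 23560754195, nat_lit 20067012596, nat_lit 21628749016, nat_lit 24034966268, nat_lit 16301722250, nat_lit 15740700220, nat_lit 25624104602, nat_lit 22285098410], nat_lit 1271250, nat_lit 1271250, nat_lit 1100001, nat_lit 1785000, nat_lit 0, nat_lit 1100001, [nat_lit 780000, nat_lit 1762500], [nat_lit 74, nat_lit 40, nat_lit 40, nat_lit 80, nat_lit 43, nat_lit 317, nat_lit 100, nat_lit 10]⟩, ⟨p052_k33, nat_lit 0, nat_lit 0, nat_lit 180, nat_lit 0, nat_lit 0, [nat_lit 3880416000, nat_lit 5781664000], [], [nat_lit 11508822212, nat_lit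 11726916042, nat_lit 12657098832, nat_lit 12786352994, nat_lit 13001030031, nat_lit 12992965303, nat_lit 13982869990, nat_lit 14097325053], nat_lit 0, nat_lit 0, nat_lit 0, nat_lit 0, nat_lit 0, nat_lit 0, [], [nat_lit 143, nat_lit 40, nat_lit 40, nat_lit 80, nat_lit 14, nat_lit 456, nat_lit 225, nat_lit 12]⟩,
 ⟨nat_lit 5000, nat_lit 5478, ⟨.ofNat (nat_lit 403708), .ofNat (nat_lit 553572), .ofNat (nat_lit 425065), .ofNat (nat_lit 574920), .ofNat (nat_lit 407141), .ofNat (nat_lit 549996), .ofNat (nat_lit 428570), .ofNat (nat_lit 571415)⟩, ⟨.negSucc (nat_lit 45522), .ofNat (nat_lit 254209), .negSucc (nat_lit 2832), .ofNat (nat_lit 296923), .negSucc (nat_lit 28572), .ofNat (nat_lit 257141), .ofNat (nat_lit 0), .ofNat (nat_lit 299999)⟩⟩, [⟨nat_lit 7, nat_lit 66, nat_lit 100, nat_lit 72, nat_lit 157660476⟩]⟩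
noncomputable def p052_l100 : Lf2 := ⟨nat_lit 1, nat_lit 10, [nat_lit 0, nat_lit 5, nat_lit 5, nat_lit 20], false, nat_lit 0, nat_lit 160, nat_lit 0, nat_lit 384, zbN0,
 nat_lit 0, nat_lit 0, nat_lit 0, nat_lit 0, nat_lit 0, nat_lit 0, nat_lit 0, nat_lit 0, nat_lit 0, nat_lit 0, nat_lit 0, nat_lit 0, nat_lit 0, nat_lit 0, nat_lit 0, nat_lit 0, nat_lit 0, nat_lit 0, [],
 C1.Rw.none, C1.Rw.none,
 zbF0, []⟩
noncomputable def p052_l101 : Lf2 := ⟨nat_lit 0, nat_lit 10, [nat_lit 0, nat_lit 5, nat_lit 5, nat_lit 20], false, nat_lit 0, nat_lit 160, nat_lit 0, nat_lit 384, ⟨nat_lit 217, nat_lit 0, nat_lit 783, nat_lit 4, nat_lit 191, nat_lit 783, nat_lit 56, nat_lit 783, nat_lit 26667, nat_lit 255, nat_lit 3024, nat_lit 223, nat_lit 54517541, nat_lit 0, nat_lit 0, nat_lit 2404104, false, true⟩,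
 nat_lit 0, nat_lit 5700, nat_lit 0, nat_lit 0, nat_lit 3945, nat_lit 3424, nat_lit 180, nat_lit 0, nat_lit 0, nat_lit 403, nat_lit 0, nat_lit 0, nat_lit 0, nat_lit 0, nat_lit 100, nat_lit 783000, nat_lit 0, nat_lit 0, [(nat_lit 15, [(nat_lit 6, nat_lit 783)])],
 ⟨p052_k27, nat_lit 0, nat_lit 0, nat_lit 397, nat_lit 0, nat_lit 570946, [nat_lit 2679534000, nat_lit 1559108401, nat_lit 14547600], [], [nat_lit 20481428671, nat_lit 18426959461, nat_lit 19723060490, nat_lit 21378333600, nat_lit 16980098840, nat_lit 18032328380, nat_lit 22952240940, nat_lit 21165913380], nat_lit 1271250, nat_lit 1271250, nat_lit 1100001, nat_lit 1785000, nat_lit 0, nat_lit 1100001, [nat_lit 780000, nat_lit 1435000, nat_lit 1271250], [nat_lit 18, nat_lit 40, nat_lit 40, nat_lit 80, nat_lit 2, nat_lit 317, nat_lit 100, nat_lit 10]⟩, ⟨p052_k26, nat_lit 0, nat_lit 0, nat_lit 278, nat_lit 0, nat_lit 0, [nat_lit 1729056000, nat_lit 2576224000,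 nat_lit 3050586000], [], [nat_lit 6636081549, nat_lit 6846349109, nat_lit 7354722001, nat_lit 7450493801, nat_lit 7701728604, nat_lit 7577271804, nat_lit 7655717193, nat_lit 7470918737], nat_lit 0, nat_lit 0, nat_lit 0, nat_lit 0, nat_lit 0, nat_lit 0, [], [nat_lit 62, nat_lit 40, nat_lit 40, nat_lit 80, nat_lit 58, nat_lit 456, nat_lit 225, nat_lit 11]⟩,
 ⟨nat_lit 4472, nat_lit 5000, ⟨.ofNat (nat_lit 385713), .ofNat (nat_lit 528570), .ofNat (nat_lit 428570), .ofNat (nat_lit 571423), .ofNat (nat_lit 388887), .ofNat (nat_lit 524844), .ofNat (nat_lit 432020), .ofNat (nat_lit 567973)⟩, ⟨.negSucc (nat_lit 28572), .ofNat (nat_lit 257141), .ofNat (nat_lit 0), .ofNat (nat_lit 299999), .negSucc (nat_lit 12423), .ofNat (nat_lit 259489), .ofNat (nat_lit 0), .ofNat (nat_lit 302621)⟩⟩, [⟨nat_lit 7, nat_lit 63, nat_lit 100, nat_lit 72, nat_lit 60881620⟩]⟩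
noncomputable def p052_l102 : Lf2 := ⟨nat_lit 0, nat_lit 10, [nat_lit 0, nat_lit 5, nat_lit 5, nat_lit 20], true, nat_lit 160, nat_lit 300, nat_lit 0, nat_lit 384, ⟨nat_lit 0, nat_lit 0, nat_lit 1000, nat_lit 4, nat_lit 191, nat_lit 1000, nat_lit 162, nat_lit 1000, nat_lit 3701, nat_lit 228, nat_lit 5073, nat_lit 222, nat_lit 45851964, nat_lit 0, nat_lit 0, nat_lit 4509605, false, true⟩,
 nat_lit 0, nat_lit 4810, nat_lit 0, nat_lit 0, nat_lit 3060, nat_lit 0, nat_lit 67, nat_lit 0, nat_lit 0, nat_lit 0, nat_lit 0, nat_lit 0, nat_lit 0, nat_lit 0, nat_lit 208, nat_lit 1000000, nat_lit 0, nat_lit 0, [(nat_lit 12, [(nat_lit 6, nat_lit 1000)])],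
 ⟨p052_k34, nat_lit 0, nat_lit 0, nat_lit 211, nat_lit 0, nat_lit 403254, [nat_lit 3405600001, nat_lit 3733000000, nat_lit 431200000], [], [nat_lit 18326644796, nat_lit 17216488921, nat_lit 18528511841, nat_lit 19361031201, nat_lit 20734340861, nat_lit 21473636001, nat_lit 22499849843, nat_lit 23221445413], nat_lit 1271250, nat_lit 1271250, nat_lit 1271250, nat_lit 1271250, nat_lit 1271250, nat_lit 1271250, [nat_lit 780000, nat_lit 1100000, nat_lit 2127500], [nat_lit 42, nat_lit 40, nat_lit 40, nat_lit 80, nat_lit 13, nat_lit 373, nat_lit 150, nat_lit 10]⟩, C1.Rw.none,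
 ⟨nat_lit 5000, nat_lit 5478, ⟨.ofNat (nat_lit 382351), .ofNat (nat_lit 532217), .ofNat (nat_lit 425065), .ofNat (nat_lit 574920), .ofNat (nat_lit 385713), .ofNat (nat_lit 528570), .ofNat (nat_lit 428570), .ofNat (nat_lit 571415)⟩, ⟨.ofNat (nat_lit 254209), .ofNat (nat_lit 516475), .ofNat (nat_lit 296923), .ofNat (nat_lit 559189), .ofNat (nat_lit 257141), .ofNat (nat_lit 507141), .ofNat (nat_lit 299999), .ofNat (nat_lit 549998)⟩⟩, [⟨nat_lit 4, nat_lit 100, nat_lit 94, nat_lit 75, nat_lit 165649201⟩]⟩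
noncomputable def p052_l103 : Lf2 := ⟨nat_lit 0, nat_lit 10, [nat_lit 0, nat_lit 5, nat_lit 5, nat_lit 20], true, nat_lit 160, nat_lit 280, nat_lit 0, nat_lit 384, ⟨nat_lit 0, nat_lit 0, nat_lit 1000, nat_lit 4, nat_lit 191, nat_lit 1000, nat_lit 154, nat_lit 1000, nat_lit 24746, nat_lit 252, nat_lit 3030, nat_lit 223, nat_lit 46433407, nat_lit 0, nat_lit 0, nat_lit 4427043, false, true⟩,
 nat_lit 0, nat_lit 4579, nat_lit 0, nat_lit 0, nat_lit 3170, nat_lit 0, nat_lit 0, nat_lit 0, nat_lit 0, nat_lit 0, nat_lit 0, nat_lit 0, nat_lit 0, nat_lit 0, nat_lit 219, nat_lit 1000000, nat_lit 0, nat_lit 0, [(nat_lit 15, [(nat_lit 6, nat_lit 1000)])],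
 ⟨p052_k27, nat_lit 0, nat_lit 0, nat_lit 219, nat_lit 0, nat_lit 463643, [nat_lit 3608000000, nat_lit 2084800001, nat_lit 1200000], [], [nat_lit 16609545940, nat_lit 17146648190, nat_lit 19019443120, nat_lit 19488074060, nat_lit 20597840010, nat_lit 21030004535, nat_lit 22665224551, nat_lit 22856948465], nat_lit 1271250, nat_lit 1271250, nat_lit 1100001, nat_lit 1785000, nat_lit 1100001, nat_lit 2127500, [nat_lit 780000, nat_lit 1435000, nat_lit 1271250], [nat_lit 18, nat_lit 40, nat_lit 40, nat_lit 80, nat_lit 2, nat_lit 373, nat_lit 150, nat_lit 11]⟩, C1.Rw.none,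
 ⟨nat_lit 4743, nat_lit 5000, ⟨.ofNat (nat_lit 385713), .ofNat (nat_lit 528570), .ofNat (nat_lit 428570), .ofNat (nat_lit 571426), .ofNat (nat_lit 387322), .ofNat (nat_lit 526722), .ofNat (nat_lit 430299), .ofNat (nat_lit 569697)⟩, ⟨.ofNat (nat_lit 257141), .ofNat (nat_lit 471427), .ofNat (nat_lit 299999), .ofNat (nat_lit 514284), .ofNat (nat_lit 258394), .ofNat (nat_lit 467493), .ofNat (nat_lit 301370), .ofNat (nat_lit 510469)⟩⟩, [⟨nat_lit 4, nat_lit 100, nat_lit 88, nat_lit 74, nat_lit 215058065⟩]⟩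
noncomputable def p052_l104 : Lf2 := ⟨nat_lit 0, nat_lit 10, [nat_lit 0, nat_lit 5, nat_lit 5, nat_lit 20], true, nat_lit 160, nat_lit 268, nat_lit 0, nat_lit 384, ⟨nat_lit 0, nat_lit 0, nat_lit 1000, nat_lit 4, nat_lit 191, nat_lit 1000, nat_lit 149, nat_lit 1000, nat_lit 50560, nat_lit 270, nat_lit 4874, nat_lit 224, nat_lit 46769956, nat_lit 0, nat_lit 0, nat_lit 4377065, false, true⟩,
 nat_lit 0, nat_lit 4396, nat_lit 0, nat_lit 0, nat_lit 3168, nat_lit 0, nat_lit 0, nat_lit 0, nat_lit 0, nat_lit 0, nat_lit 0, nat_lit 0, nat_lit 0, nat_lit 0, nat_lit 219, nat_lit 1000000, nat_lit 0, nat_lit 0, [(nat_lit 15, [(nat_lit 6, nat_lit 1000)])],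
 ⟨p052_k31, nat_lit 0, nat_lit 0, nat_lit 271, nat_lit 0, nat_lit 540574, [nat_lit 3608000000, nat_lit 2084800001, nat_lit 1200000], [], [nat_lit 17151977376, nat_lit 17688938176, nat_lit 19493193624, nat_lit 19961712800, nat_lit 20572338432, nat_lit 21015342317, nat_lit 22455621270, nat_lit 22844798738], nat_lit 1271250, nat_lit 1271250, nat_lit 1100001, nat_lit 1785000, nat_lit 1100001, nat_lit 2024750, [nat_lit 780000, nat_lit 1435000, nat_lit 1271250], [nat_lit 18, nat_lit 40, nat_lit 40, nat_lit 80, nat_lit 2, nat_lit 373, nat_lit 150, nat_lit 11]⟩, C1.Rw.none,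
 ⟨nat_lit 4472, nat_lit 4744, ⟨.ofNat (nat_lit 387322), .ofNat (nat_lit 526722), .ofNat (nat_lit 430299), .ofNat (nat_lit 569698), .ofNat (nat_lit 388887), .ofNat (nat_lit 524844), .ofNat (nat_lit 432020), .ofNat (nat_lit 567976)⟩, ⟨.ofNat (nat_lit 258394), .ofNat (nat_lit 446583), .ofNat (nat_lit 301370), .ofNat (nat_lit 489559), .ofNat (nat_lit 259489), .ofNat (nat_lit 443030), .ofNat (nat_lit 302621), .ofNat (nat_lit 486162)⟩⟩, [⟨nat_lit 4, nat_lit 100, nat_lit 83, nat_lit 73, nat_lit 216340249⟩]⟩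
noncomputable def p052_l105 : Lf2 := ⟨nat_lit 0, nat_lit 7, [nat_lit 80, nat_lit 5, nat_lit 5, nat_lit 20], false, nat_lit 0, nat_lit 160, nat_lit 0, nat_lit 384, ⟨nat_lit 652, nat_lit 0, nat_lit 348, nat_lit 6, nat_lit 274, nat_lit 348, nat_lit 55, nat_lit 348, nat_lit 24067, nat_lit 253, nat_lit 418100, nat_lit 200, nat_lit 45561215, nat_lit 0, nat_lit 0, nat_lit 3134278, false, true⟩,
 nat_lit 0, nat_lit 9054, nat_lit 0, nat_lit 0, nat_lit 5761, nat_lit 7393, nat_lit 365, nat_lit 0, nat_lit 0, nat_lit 724, nat_lit 0, nat_lit 0, nat_lit 0, nat_lit 0, nat_lit 0, nat_lit 348000, nat_lit 0, nat_lit 0, [(nat_lit 12, [(nat_lit 6, nat_lit 348)])],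
 ⟨p052_k29, nat_lit 0, nat_lit 0, nat_lit 293, nat_lit 0, nat_lit 283709, [nat_lit 2537001601, nat_lit 3682595200, nat_lit 3842251200], [], [nat_lit 23327534872, nat_lit 23902693122, nat_lit 33383994549, nat_lit 34003483049, nat_lit 20636116333, nat_lit 21103853196, nat_lit 27644352516, nat_lit 28187139764], nat_lit 1271250, nat_lit 1271250, nat_lit 1271250, nat_lit 1271250, nat_lit 0, nat_lit 1100001, [nat_lit 780000, nat_lit 1435000, nat_lit 1271250], [nat_lit 18, nat_lit 40, nat_lit 40, nat_lit 80, nat_lit 2, nat_lit 249, nat_lit 40, nat_lit 8]⟩, ⟨p052_k35, nat_lit 0, nat_lit 0, nat_lit 328, nat_lit 0, nat_lit 0, [nat_lit 5195136000, nat_lit 7740544000, nat_lit 9165816000], [], [nat_lit 22885135696, nat_lit 23276444468, nat_lit 31461080291, nat_lit 31155132651, nat_lit 23797004162, nat_lit 23547839517, nat_lit 27818665586, nat_lit 27199550594], nat_lit 0, nat_lit 0, nat_lit 0, nat_lit 0, nat_lit 0, nat_lit 0,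 [], [nat_lit 62, nat_lit 40, nat_lit 40, nat_lit 80, nat_lit 58, nat_lit 483, nat_lit 250, nat_lit 11]⟩,
 ⟨nat_lit 5244, nat_lit 5478, ⟨.ofNat (nat_lit 532217), .ofNat (nat_lit 801965), .ofNat (nat_lit 574929), .ofNat (nat_lit 844675), .ofNat (nat_lit 530399), .ofNat (nat_lit 793804), .ofNat (nat_lit 573167), .ofNat (nat_lit 836570)⟩, ⟨.negSucc (nat_lit 45522), .ofNat (nat_lit 254209), .negSucc (nat_lit 2827), .ofNat (nat_lit 296923), .negSucc (nat_lit 36940), .ofNat (nat_lit 255744), .ofNat (nat_lit 0), .ofNat (nat_lit 298515)⟩⟩, [⟨nat_lit 7, nat_lit 63, nat_lit 100, nat_lit 72, nat_lit 18304564⟩, ⟨nat_lit 22, nat_lit 88, nat_lit 100, nat_lit 85, nat_lit 88863233⟩]⟩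
noncomputable def p052_l106 : Lf2 := ⟨nat_lit 0, nat_lit 7, [nat_lit 80, nat_lit 5, nat_lit 5, nat_lit 20], false, nat_lit 0, nat_lit 160, nat_lit 0, nat_lit 384, ⟨nat_lit 725, nat_lit 0, nat_lit 275, nat_lit 6, nat_lit 271, nat_lit 275, nat_lit 56, nat_lit 275, nat_lit 25350, nat_lit 254, nat_lit 387264, nat_lit 200, nat_lit 45925458, nat_lit 0, nat_lit 0, nat_lit 3113446, false, true⟩,
 nat_lit 0, nat_lit 9199, nat_lit 0, nat_lit 0, nat_lit 6108, nat_lit 7619, nat_lit 1570, nat_lit 0, nat_lit 0, nat_lit 673, nat_lit 0, nat_lit 0, nat_lit 0, nat_lit 0, nat_lit 0, nat_lit 275000, nat_lit 0, nat_lit 0, [(nat_lit 12, [(nat_lit 6, nat_lit 275)])],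
 ⟨p052_k30, nat_lit 0, nat_lit 0, nat_lit 321, nat_lit 0, nat_lit 372128, [nat_lit 2693280000, nat_lit 4221160000, nat_lit 4707710000], [], [nat_lit 21964502220, nat_lit 22466238348, nat_lit 34432168388, nat_lit 35081351400, nat_lit 19279342660, nat_lit 19649006476, nat_lit 28163907122, nat_lit 28732434132], nat_lit 1271250, nat_lit 1271250, nat_lit 1271250, nat_lit 1271250, nat_lit 0, nat_lit 1100001, [nat_lit 780000, nat_lit 1435000, nat_lit 1271250], [nat_lit 18, nat_lit 40, nat_lit 40, nat_lit 80, nat_lit 2, nat_lit 249, nat_lit 40, nat_lit 8]⟩, ⟨p052_k35, nat_lit 0, nat_lit 0, nat_lit 326, nat_lit 0, nat_lit 0, [nat_lit 5776800000, nat_lit 8607200000, nat_lit 10192050000], [], [nat_lit 26020636835, nat_lit 26223226547, nat_lit 34529504277, nat_lit 34280311929, nat_lit 26626562209, nat_lit 26413126285, nat_lit 30790297889, nat_lit 30195104366], nat_lit 0, nat_lit 0, nat_lit 0, nat_lit 0, nat_lit 0, nat_lit 0,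 [], [nat_lit 62, nat_lit 40, nat_lit 40, nat_lit 80, nat_lit 58, nat_lit 483, nat_lit 250, nat_lit 11]⟩,
 ⟨nat_lit 5000, nat_lit 5245, ⟨.ofNat (nat_lit 530399), .ofNat (nat_lit 786491), .ofNat (nat_lit 573168), .ofNat (nat_lit 829257), .ofNat (nat_lit 528570), .ofNat (nat_lit 778563), .ofNat (nat_lit 571425), .ofNat (nat_lit 821416)⟩, ⟨.negSucc (nat_lit 36940), .ofNat (nat_lit 255744), .ofNat (nat_lit 0), .ofNat (nat_lit 298515), .negSucc (nat_lit 28572), .ofNat (nat_lit 257141), .ofNat (nat_lit 0), .ofNat (nat_lit 299999)⟩⟩, [⟨nat_lit 22, nat_lit 89, nat_lit 100, nat_lit 85, nat_lit 109851999⟩, ⟨nat_lit 10, nat_lit 40, nat_lit 85, nat_lit 100, nat_lit 16470439⟩]⟩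
noncomputable def p052_l107 : Lf2 := ⟨nat_lit 1, nat_lit 10, [nat_lit 0, nat_lit 5, nat_lit 5, nat_lit 20], false, nat_lit 0, nat_lit 160, nat_lit 0, nat_lit 384, zbN0,
 nat_lit 0, nat_lit 0, nat_lit 0, nat_lit 0, nat_lit 0, nat_lit 0, nat_lit 0, nat_lit 0, nat_lit 0, nat_lit 0, nat_lit 0, nat_lit 0, nat_lit 0, nat_lit 0, nat_lit 0, nat_lit 0, nat_lit 0, nat_lit 0, [],
 C1.Rw.none, C1.Rw.none,
 zbF0, []⟩
noncomputable def p052_l108 : Lf2 := ⟨nat_lit 0, nat_lit 10, [nat_lit 0, nat_lit 5, nat_lit 5, nat_lit 20], false, nat_lit 0, nat_lit 160, nat_lit 0, nat_lit 384, ⟨nat_lit 504, nat_lit 0, nat_lit 496, nat_lit 6, nat_lit 243, nat_lit 496, nat_lit 56, nat_lit 496, nat_lit 26667, nat_lit 255, nat_lit 114452, nat_lit 200, nat_lit 48953681, nat_lit 0, nat_lit 0, nat_lit 2913045, false, true⟩,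
 nat_lit 0, nat_lit 6289, nat_lit 0, nat_lit 0, nat_lit 4353, nat_lit 6849, nat_lit 556, nat_lit 0, nat_lit 0, nat_lit 760, nat_lit 0, nat_lit 0, nat_lit 0, nat_lit 0, nat_lit 0, nat_lit 496000, nat_lit 0, nat_lit 0, [(nat_lit 15, [(nat_lit 6, nat_lit 496)])],
 ⟨p052_k27, nat_lit 0, nat_lit 0, nat_lit 374, nat_lit 0, nat_lit 518392, [nat_lit 2140208000, nat_lit 2011580801, nat_lit 1409491200], [], [nat_lit 21406121890, nat_lit 22291999753, nat_lit 25772014520, nat_lit 27155812108, nat_lit 20628769591, nat_lit 21470996472, nat_lit 23671783394, nat_lit 24466052684], nat_lit 1271250, nat_lit 1271250, nat_lit 1271250, nat_lit 1271250, nat_lit 0, nat_lit 1100001, [nat_lit 780000, nat_lit 1435000, nat_lit 1271250], [nat_lit 18, nat_lit 40, nat_lit 40, nat_lit 80, nat_lit 2, nat_lit 249, nat_lit 40, nat_lit 8]⟩, ⟨p052_k26, nat_lit 0, nat_lit 0, nat_lit 300, nat_lit 0, nat_lit 0, [nat_lit 4015872000, nat_lit 5983488000,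 nat_lit 7085232000], [], [nat_lit 17333614172, nat_lit 17464570526, nat_lit 20933633340, nat_lit 21008080746, nat_lit 18083918981, nat_lit 17927655012, nat_lit 19523568608, nat_lit 19421070340], nat_lit 0, nat_lit 0, nat_lit 0, nat_lit 0, nat_lit 0, nat_lit 0, [], [nat_lit 62, nat_lit 40, nat_lit 40, nat_lit 80, nat_lit 58, nat_lit 456, nat_lit 225, nat_lit 11]⟩,
 ⟨nat_lit 4472, nat_lit 5000, ⟨.ofNat (nat_lit 528570), .ofNat (nat_lit 671427), .ofNat (nat_lit 549999), .ofNat (nat_lit 692851), .ofNat (nat_lit 524844), .ofNat (nat_lit 660800), .ofNat (nat_lit 546410), .ofNat (nat_lit 682362)⟩, ⟨.negSucc (nat_lit 28572), .ofNat (nat_lit 257141), .ofNat (nat_lit 0), .ofNat (nat_lit 299999), .negSucc (nat_lit 12423), .ofNat (nat_lit 259489), .ofNat (nat_lit 0), .ofNat (nat_lit 302621)⟩⟩, [⟨nat_lit 19, nat_lit 100, nat_lit 59, nat_lit 72, nat_lit 82018209⟩, ⟨nat_lit 22, nat_lit 100, nat_lit 95, nat_lit 87, nat_lit 27523686⟩]⟩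
noncomputable def p052_l109 : Lf2 := ⟨nat_lit 0, nat_lit 10, [nat_lit 0, nat_lit 5, nat_lit 5, nat_lit 20], false, nat_lit 0, nat_lit 160, nat_lit 0, nat_lit 372, ⟨nat_lit 1000, nat_lit 0, nat_lit 0, nat_lit 0, nat_lit 0, nat_lit 0, nat_lit 0, nat_lit 0, nat_lit 0, nat_lit 0, nat_lit 0, nat_lit 0, nat_lit 0, nat_lit 0, nat_lit 0, nat_lit 0, false, false⟩,
 nat_lit 0, nat_lit 9540, nat_lit 0, nat_lit 0, nat_lit 6604, nat_lit 12604, nat_lit 1833, nat_lit 0, nat_lit 0, nat_lit 1042, nat_lit 0, nat_lit 0, nat_lit 0, nat_lit 0, nat_lit 0, nat_lit 0, nat_lit 0, nat_lit 0, [],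
 ⟨p052_k27, nat_lit 0, nat_lit 0, nat_lit 392, nat_lit 0, nat_lit 570946, [nat_lit 3282000000, nat_lit 6250000000, nat_lit 7968000000], [], [nat_lit 23066705128, nat_lit 25304293920, nat_lit 29983275360, nat_lit 31715968944, nat_lit 19018080438, nat_lit 19789127638, nat_lit 23825188768, nat_lit 25311796432], nat_lit 1271250, nat_lit 1271250, nat_lit 1271250, nat_lit 1271250, nat_lit 0, nat_lit 1100001, [nat_lit 780000, nat_lit 1435000, nat_lit 1271250], [nat_lit 18, nat_lit 40, nat_lit 40, nat_lit 80, nat_lit 2, nat_lit 249, nat_lit 40, nat_lit 8]⟩, ⟨p052_k36, nat_lit 0, nat_lit 0, nat_lit 293, nat_lit 0, nat_lit 0, [nat_lit 7968000000, nat_lit 11872000000, nat_lit 14058000000], [], [nat_lit 34975691796, nat_lit 35253148652, nat_lit 41464250948, nat_lit 41434062220, nat_lit 33072033405, nat_lit 32857691709, nat_lit 35919329781, nat_lit 35825077916], nat_lit 0, nat_lit 0, nat_lit 0, nat_lit 0, nat_lit 0, nat_lit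 0, [], [nat_lit 62, nat_lit 40, nat_lit 40, nat_lit 80, nat_lit 58, nat_lit 456, nat_lit 225, nat_lit 10]⟩,
 zbF0, [⟨nat_lit 19, nat_lit 100, nat_lit 66, nat_lit 72, nat_lit 119740886⟩, ⟨nat_lit 22, nat_lit 100, nat_lit 95, nat_lit 87, nat_lit 42985116⟩]⟩
noncomputable def p052_l110 : Lf2 := ⟨nat_lit 0, nat_lit 10, [nat_lit 0, nat_lit 5, nat_lit 5, nat_lit 20], false, nat_lit 0, nat_lit 160, nat_lit 0, nat_lit 336, ⟨nat_lit 1000, nat_lit 0, nat_lit 0, nat_lit 0, nat_lit 0, nat_lit 0, nat_lit 0, nat_lit 0, nat_lit 0, nat_lit 0, nat_lit 0, nat_lit 0, nat_lit 0, nat_lit 0, nat_lit 0, nat_lit 0, false, false⟩,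
 nat_lit 0, nat_lit 8749, nat_lit 0, nat_lit 0, nat_lit 6057, nat_lit 13016, nat_lit 1662, nat_lit 0, nat_lit 0, nat_lit 965, nat_lit 0, nat_lit 0, nat_lit 0, nat_lit 0, nat_lit 0, nat_lit 0, nat_lit 0, nat_lit 0, [],
 ⟨p052_k27, nat_lit 0, nat_lit 0, nat_lit 402, nat_lit 0, nat_lit 570946, [nat_lit 3282000000, nat_lit 6250000000, nat_lit 7968000000], [], [nat_lit 28959925880, nat_lit 30607836652, nat_lit 34536599200, nat_lit 35852900817, nat_lit 24361959530, nat_lit 24972250872, nat_lit 28323299022, nat_lit 29474645948], nat_lit 1271250, nat_lit 1271250, nat_lit 1271250, nat_lit 1271250, nat_lit 0, nat_lit 1100001, [nat_lit 780000, nat_lit 1435000, nat_lit 1271250], [nat_lit 18, nat_lit 40, nat_lit 40, nat_lit 80, nat_lit 2, nat_lit 249, nat_lit 40, nat_lit 7]⟩, ⟨p052_k26, nat_lit 0, nat_lit 0, nat_lit 324, nat_lit 0, nat_lit 0, [nat_lit 7968000000, nat_lit 11872000000, nat_lit 14058000000], [], [nat_lit 43738107979,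 nat_lit 43645279755, nat_lit 50238386277, nat_lit 49641227000, nat_lit 35190243821, nat_lit 34585975969, nat_lit 39107110932, nat_lit 38224734864], nat_lit 0, nat_lit 0, nat_lit 0, nat_lit 0, nat_lit 0, nat_lit 0, [], [nat_lit 62, nat_lit 40, nat_lit 40, nat_lit 80, nat_lit 58, nat_lit 483, nat_lit 250, nat_lit 11]⟩,
 zbF0, [⟨nat_lit 13, nat_lit 82, nat_lit 76, nat_lit 100, nat_lit 365717495⟩, ⟨nat_lit 22, nat_lit 68, nat_lit 100, nat_lit 80, nat_lit 43604801⟩]⟩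
noncomputable def p052_l111 : Lf2 := ⟨nat_lit 0, nat_lit 7, [nat_lit 80, nat_lit 5, nat_lit 5, nat_lit 20], false, nat_lit 160, nat_lit 276, nat_lit 0, nat_lit 368, ⟨nat_lit 684, nat_lit 316, nat_lit 0, nat_lit 6, nat_lit 274, nat_lit 316, nat_lit 149, nat_lit 0, nat_lit 0, nat_lit 0, nat_lit 0, nat_lit 0, nat_lit 39837582, nat_lit 19702897, nat_lit 7459521, nat_lit 4895045, false, true⟩,
 nat_lit 0, nat_lit 8995, nat_lit 0, nat_lit 0, nat_lit 5724, nat_lit 8199, nat_lit 500, nat_lit 0, nat_lit 0, nat_lit 808, nat_lit 0, nat_lit 0, nat_lit 0, nat_lit 0, nat_lit 0, nat_lit 316000, nat_lit 0, nat_lit 0, [(nat_lit 12, [(nat_lit 2, nat_lit 316)])],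
 ⟨p052_k29, nat_lit 0, nat_lit 0, nat_lit 181, nat_lit 0, nat_lit 273182, [nat_lit 2982811201, nat_lit 4890062400, nat_lit 5610766400], [], [nat_lit 20518192642, nat_lit 21051563958, nat_lit 28569412410, nat_lit 29005070560, nat_lit 23905647768, nat_lit 24325976398, nat_lit 30833398804, nat_lit 31172339506], nat_lit 1271250, nat_lit 1271250, nat_lit 1271250, nat_lit 1271250, nat_lit 1100001, nat_lit 2093250, [nat_lit 780000, nat_lit 1435000, nat_lit 1271250], [nat_lit 18, nat_lit 40, nat_lit 40, nat_lit 80, nat_lit 2, nat_lit 289, nat_lit 75, nat_lit 8]⟩, ⟨p052_k35, nat_lit 0, nat_lit 0, nat_lit 328, nat_lit 0, nat_lit 0, [nat_lit 5450112000, nat_lit 8120448000, nat_lit 9615672000], [], [nat_lit 24019226612, nat_lit 24413888240, nat_lit 33356426409, nat_lit 33140394973, nat_lit 23848515418, nat_lit 23616364983, nat_lit 28541545828, nat_lit 28112075602], nat_lit 0, nat_lit 0, nat_lit 0, nat_lit 0, nat_lit 0, nat_lit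 0, [], [nat_lit 62, nat_lit 40, nat_lit 40, nat_lit 80, nat_lit 58, nat_lit 483, nat_lit 250, nat_lit 11]⟩,
 ⟨nat_lit 5244, nat_lit 5478, ⟨.ofNat (nat_lit 532217), .ofNat (nat_lit 801965), .ofNat (nat_lit 574929), .ofNat (nat_lit 844675), .ofNat (nat_lit 530399), .ofNat (nat_lit 793804), .ofNat (nat_lit 573167), .ofNat (nat_lit 836570)⟩, ⟨.ofNat (nat_lit 254209), .ofNat (nat_lit 471515), .ofNat (nat_lit 275566), .ofNat (nat_lit 492872), .ofNat (nat_lit 255744), .ofNat (nat_lit 467940), .ofNat (nat_lit 277129), .ofNat (nat_lit 489326)⟩⟩, [⟨nat_lit 13, nat_lit 91, nat_lit 63, nat_lit 100, nat_lit 16499178⟩, ⟨nat_lit 4, nat_lit 100, nat_lit 94, nat_lit 69, nat_lit 352772337⟩, ⟨nat_lit 7, nat_lit 68, nat_lit 100, nat_lit 66, nat_lit 105104070⟩]⟩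
noncomputable def p052_l112 : Lf2 := ⟨nat_lit 0, nat_lit 7, [nat_lit 80, nat_lit 5, nat_lit 5, nat_lit 20], false, nat_lit 160, nat_lit 268, nat_lit 0, nat_lit 368, ⟨nat_lit 773, nat_lit 227, nat_lit 0, nat_lit 6, nat_lit 271, nat_lit 227, nat_lit 146, nat_lit 0, nat_lit 0, nat_lit 0, nat_lit 0, nat_lit 0, nat_lit 40248746, nat_lit 19491104, nat_lit 7260150, nat_lit 4853294, false, true⟩,
 nat_lit 0, nat_lit 8755, nat_lit 0, nat_lit 0, nat_lit 5814, nat_lit 9378, nat_lit 745, nat_lit 0, nat_lit 0, nat_lit 781, nat_lit 0, nat_lit 0, nat_lit 0, nat_lit 0, nat_lit 0, nat_lit 185600, nat_lit 0, nat_lit 0, [(nat_lit 12, [(nat_lit 1, nat_lit 69), (nat_lit 2, nat_lit 158)])],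
 ⟨p052_k30, nat_lit 0, nat_lit 0, nat_lit 192, nat_lit 0, nat_lit 307686, [nat_lit 3048667200, nat_lit 5326544000, nat_lit 6424649200], [], [nat_lit 20670097016, nat_lit 20938817079, nat_lit 28423526600, nat_lit 28646062071, nat_lit 23649495519, nat_lit 23864323386, nat_lit 30399594158, nat_lit 30577190493], nat_lit 1271250, nat_lit 1271250, nat_lit 1271250, nat_lit 1271250, nat_lit 1100001, nat_lit 2024750, [nat_lit 780000, nat_lit 1435000, nat_lit 1271250], [nat_lit 18, nat_lit 40, nat_lit 40, nat_lit 80, nat_lit 2, nat_lit 289, nat_lit 75, nat_lit 8]⟩, ⟨p052_k35, nat_lit 0, nat_lit 0, nat_lit 326, nat_lit 0, nat_lit 0, [nat_lit 6159264000, nat_lit 9177056000, nat_lit 10866834000], [], [nat_lit 27875170639, nat_lit 28317171855, nat_lit 38145887215, nat_lit 37734864757, nat_lit 26911494688, nat_lit 26638195033, nat_lit 32047884950, nat_lit 31582981864], nat_lit 0, nat_lit 0, nat_lit 0, nat_lit 0, nat_lit 0, nat_lit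 0, [], [nat_lit 62, nat_lit 40, nat_lit 40, nat_lit 80, nat_lit 58, nat_lit 483, nat_lit 250, nat_lit 11]⟩,
 ⟨nat_lit 5123, nat_lit 5245, ⟨.ofNat (nat_lit 530399), .ofNat (nat_lit 786496), .ofNat (nat_lit 573169), .ofNat (nat_lit 829266), .ofNat (nat_lit 529486), .ofNat (nat_lit 782527), .ofNat (nat_lit 572296), .ofNat (nat_lit 825336)⟩, ⟨.ofNat (nat_lit 255744), .ofNat (nat_lit 453306), .ofNat (nat_lit 277129), .ofNat (nat_lit 474691), .ofNat (nat_lit 256460), .ofNat (nat_lit 451664), .ofNat (nat_lit 277865), .ofNat (nat_lit 473069)⟩⟩, [⟨nat_lit 4, nat_lit 100, nat_lit 91, nat_lit 68, nat_lit 397844551⟩, ⟨nat_lit 7, nat_lit 68, nat_lit 100, nat_lit 66, nat_lit 105386647⟩]⟩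
noncomputable def p052_l113 : Lf2 := ⟨nat_lit 0, nat_lit 7, [nat_lit 80, nat_lit 5, nat_lit 5, nat_lit 20], false, nat_lit 160, nat_lit 260, nat_lit 0, nat_lit 368, ⟨nat_lit 507, nat_lit 493, nat_lit 0, nat_lit 6, nat_lit 269, nat_lit 493, nat_lit 143, nat_lit 0, nat_lit 0, nat_lit 0, nat_lit 0, nat_lit 0, nat_lit 40610900, nat_lit 19322667, nat_lit 7066433, nat_lit 4813989, false, true⟩,
 nat_lit 0, nat_lit 7507, nat_lit 0, nat_lit 0, nat_lit 5090, nat_lit 6141, nat_lit 1124, nat_lit 0, nat_lit 0, nat_lit 435, nat_lit 0, nat_lit 0, nat_lit 0, nat_lit 0, nat_lit 0, nat_lit 197200, nat_lit 0, nat_lit 0, [(nat_lit 12, [(nat_lit 1, nat_lit 493)])],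
 ⟨p052_k37, nat_lit 0, nat_lit 0, nat_lit 204, nat_lit 0, nat_lit 348525, [nat_lit 2683695201, nat_lit 4510301601, nat_lit 5362002000], [], [nat_lit 21839368423, nat_lit 22060872403, nat_lit 27242198800, nat_lit 27396947424, nat_lit 24045449361, nat_lit 24227934593, nat_lit 29340387240, nat_lit 29557592875], nat_lit 1271250, nat_lit 1271250, nat_lit 1271250, nat_lit 1271250, nat_lit 1100001, nat_lit 1956250, [nat_lit 780000, nat_lit 1435000, nat_lit 1271250], [nat_lit 18, nat_lit 40, nat_lit 40, nat_lit 80, nat_lit 2, nat_lit 289, nat_lit 75, nat_lit 8]⟩, ⟨p052_k35, nat_lit 0, nat_lit 0, nat_lit 324, nat_lit 0, nat_lit 0, [nat_lit 4039776000, nat_lit 6019104000, nat_lit 7127406000], [], [nat_lit 18666610941, nat_lit 18956867577, nat_lit 25154916828, nat_lit 24904063363, nat_lit 18039703579, nat_lit 17741927328, nat_lit 20882010582, nat_lit 20485306816], nat_lit 0, nat_lit 0, nat_lit 0, nat_lit 0, nat_lit 0, nat_lit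 0, [], [nat_lit 62, nat_lit 40, nat_lit 40, nat_lit 80, nat_lit 58, nat_lit 483, nat_lit 250, nat_lit 11]⟩,
 ⟨nat_lit 5000, nat_lit 5124, ⟨.ofNat (nat_lit 529486), .ofNat (nat_lit 775297), .ofNat (nat_lit 572296), .ofNat (nat_lit 818107), .ofNat (nat_lit 528570), .ofNat (nat_lit 771426), .ofNat (nat_lit 571427), .ofNat (nat_lit 814282)⟩, ⟨.ofNat (nat_lit 256460), .ofNat (nat_lit 437205), .ofNat (nat_lit 277865), .ofNat (nat_lit 458610), .ofNat (nat_lit 257141), .ofNat (nat_lit 435713), .ofNat (nat_lit 278570), .ofNat (nat_lit 457141)⟩⟩, [⟨nat_lit 4, nat_lit 100, nat_lit 89, nat_lit 68, nat_lit 331924609⟩, ⟨nat_lit 19, nat_lit 100, nat_lit 68, nat_lit 66, nat_lit 60477263⟩]⟩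
noncomputable def p052_l114 : Lf2 := ⟨nat_lit 0, nat_lit 7, [nat_lit 80, nat_lit 5, nat_lit 5, nat_lit 20], false, nat_lit 160, nat_lit 300, nat_lit 0, nat_lit 384, ⟨nat_lit 664, nat_lit 336, nat_lit 0, nat_lit 6, nat_lit 273, nat_lit 336, nat_lit 166, nat_lit 0, nat_lit 0, nat_lit 0, nat_lit 0, nat_lit 0, nat_lit 39003797, nat_lit 19289534, nat_lit 8706669, nat_lit 5044879, false, true⟩,
 nat_lit 0, nat_lit 7999, nat_lit 0, nat_lit 8229, nat_lit 5090, nat_lit 6239, nat_lit 1108, nat_lit 0, nat_lit 0, nat_lit 1416, nat_lit 0, nat_lit 0, nat_lit 0, nat_lit 0, nat_lit 0, nat_lit 134400, nat_lit 0, nat_lit 0, [(nat_lit 12, [(nat_lit 1, nat_lit 336)])],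
 ⟨p052_k38, nat_lit 0, nat_lit 0, nat_lit 157, nat_lit 0, nat_lit 211274, [nat_lit 2862470400, nat_lit 3977964800, nat_lit 6191904000], [], [nat_lit 20000562040, nat_lit 21044288940, nat_lit 27373211513, nat_lit 28266661956, nat_lit 24258268150, nat_lit 25043688810, nat_lit 30711141266, nat_lit 31468989045], nat_lit 1271250, nat_lit 1271250, nat_lit 1271250, nat_lit 1271250, nat_lit 1100001, nat_lit 2298750, [nat_lit 780000, nat_lit 1100000, nat_lit 1785000], [nat_lit 36, nat_lit 40, nat_lit 40, nat_lit 80, nat_lit 7, nat_lit 289, nat_lit 75, nat_lit 8]⟩, ⟨p052_k39, nat_lit 0, nat_lit 0, nat_lit 306, nat_lit 0, nat_lit 0, [nat_lit 5290752000, nat_lit 6535088000, nat_lit 9334512000], [], [nat_lit 21994665540, nat_lit 22201518608, nat_lit 28628929353, nat_lit 28467852948, nat_lit 22205142314, nat_lit 22052605763, nat_lit 26309209529, nat_lit 25935697785], nat_lit 0, nat_lit 0, nat_lit 0, nat_lit 0, nat_lit 0, nat_lit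 0, [], [nat_lit 92, nat_lit 40, nat_lit 40, nat_lit 80, nat_lit 32, nat_lit 483, nat_lit 250, nat_lit 11]⟩,
 ⟨nat_lit 5000, nat_lit 5478, ⟨.ofNat (nat_lit 532217), .ofNat (nat_lit 801938), .ofNat (nat_lit 574920), .ofNat (nat_lit 844633), .ofNat (nat_lit 528570), .ofNat (nat_lit 785675), .ofNat (nat_lit 571415), .ofNat (nat_lit 828512)⟩, ⟨.ofNat (nat_lit 275566), .ofNat (nat_lit 537832), .ofNat (nat_lit 296923), .ofNat (nat_lit 559189), .ofNat (nat_lit 278570), .ofNat (nat_lit 528570), .ofNat (nat_lit 299999), .ofNat (nat_lit 549998)⟩⟩, [⟨nat_lit 4, nat_lit 100, nat_lit 97, nat_lit 82, nat_lit 312766262⟩, ⟨nat_lit 7, nat_lit 57, nat_lit 100, nat_lit 76, nat_lit 132171040⟩]⟩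
noncomputable def p052_l115 : Lf2 := ⟨nat_lit 1, nat_lit 10, [nat_lit 0, nat_lit 5, nat_lit 5, nat_lit 20], false, nat_lit 160, nat_lit 300, nat_lit 0, nat_lit 384, zbN0,
 nat_lit 0, nat_lit 0, nat_lit 0, nat_lit 0, nat_lit 0, nat_lit 0, nat_lit 0, nat_lit 0, nat_lit 0, nat_lit 0, nat_lit 0, nat_lit 0, nat_lit 0, nat_lit 0, nat_lit 0, nat_lit 0, nat_lit 0, nat_lit 0, [],
 C1.Rw.none, C1.Rw.none,
 zbF0, []⟩
noncomputable def p052_l116 : Lf2 := ⟨nat_lit 0, nat_lit 10, [nat_lit 0, nat_lit 5, nat_lit 5, nat_lit 20], false, nat_lit 160, nat_lit 280, nat_lit 0, nat_lit 160, ⟨nat_lit 1000, nat_lit 0, nat_lit 0, nat_lit 0, nat_lit 0, nat_lit 0, nat_lit 0, nat_lit 0, nat_lit 0, nat_lit 0, nat_lit 0, nat_lit 0, nat_lit 0, nat_lit 0, nat_lit 0, nat_lit 0, false, false⟩,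
 nat_lit 0, nat_lit 8596, nat_lit 0, nat_lit 0, nat_lit 5951, nat_lit 10292, nat_lit 992, nat_lit 0, nat_lit 0, nat_lit 1145, nat_lit 0, nat_lit 0, nat_lit 0, nat_lit 0, nat_lit 0, nat_lit 0, nat_lit 0, nat_lit 0, [],
 ⟨p052_k27, nat_lit 0, nat_lit 0, nat_lit 299, nat_lit 0, nat_lit 570946, [nat_lit 3282000000, nat_lit 6250000000, nat_lit 7968000000], [], [nat_lit 23962185268, nat_lit 24801185440, nat_lit 29000610908, nat_lit 29680715852, nat_lit 26427191296, nat_lit 27078750394, nat_lit 31085766767, nat_lit 31958411131], nat_lit 1271250, nat_lit 1271250, nat_lit 1271250, nat_lit 1271250, nat_lit 1100001, nat_lit 2127500, [nat_lit 780000, nat_lit 1435000, nat_lit 1271250], [nat_lit 18, nat_lit 40, nat_lit 40, nat_lit 80, nat_lit 2, nat_lit 289, nat_lit 75, nat_lit 8]⟩, ⟨p052_k26, nat_lit 0, nat_lit 0, nat_lit 324, nat_lit 0, nat_lit 0, [nat_lit 7968000000, nat_lit 11872000000, nat_lit 14058000000], [], [nat_lit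 34930383655, nat_lit 35186423511, nat_lit 45828817488, nat_lit 45811673140, nat_lit 27124333872, nat_lit 27515354496, nat_lit 35430950544, nat_lit 35414175367], nat_lit 0, nat_lit 0, nat_lit 0, nat_lit 0, nat_lit 0, nat_lit 0, [], [nat_lit 62, nat_lit 40, nat_lit 40, nat_lit 80, nat_lit 58, nat_lit 428, nat_lit 200, nat_lit 10]⟩,
 zbF0, [⟨nat_lit 16, nat_lit 85, nat_lit 100, nat_lit 73, nat_lit 401584388⟩, ⟨nat_lit 9, nat_lit 100, nat_lit 85, nat_lit 62, nat_lit 114734238⟩]⟩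
noncomputable def p052_l117 : Lf2 := ⟨nat_lit 0, nat_lit 10, [nat_lit 0, nat_lit 5, nat_lit 5, nat_lit 20], false, nat_lit 160, nat_lit 280, nat_lit 160, nat_lit 384, ⟨nat_lit 1000, nat_lit 0, nat_lit 0, nat_lit 0, nat_lit 0, nat_lit 0, nat_lit 0, nat_lit 0, nat_lit 0, nat_lit 0, nat_lit 0, nat_lit 0, nat_lit 0, nat_lit 0, nat_lit 0, nat_lit 0, false, false⟩,
 nat_lit 0, nat_lit 8786, nat_lit 0, nat_lit 0, nat_lit 6082, nat_lit 7963, nat_lit 1516, nat_lit 0, nat_lit 0, nat_lit 0, nat_lit 0, nat_lit 0, nat_lit 0, nat_lit 0, nat_lit 0, nat_lit 0, nat_lit 0, nat_lit 0, [],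
 ⟨p052_k27, nat_lit 0, nat_lit 0, nat_lit 299, nat_lit 0, nat_lit 570946, [nat_lit 3282000000, nat_lit 6250000000, nat_lit 7968000000], [], [nat_lit 21503795776, nat_lit 22350495080, nat_lit 28347486312, nat_lit 29501105048, nat_lit 23967547872, nat_lit 24623560708, nat_lit 31210192795, nat_lit 32090075406], nat_lit 1271250, nat_lit 1271250, nat_lit 1271250, nat_lit 1271250, nat_lit 1100001, nat_lit 2127500, [nat_lit 780000, nat_lit 1435000, nat_lit 1271250], [nat_lit 18, nat_lit 40, nat_lit 40, nat_lit 80, nat_lit 2, nat_lit 289, nat_lit 75, nat_lit 8]⟩, ⟨p052_k26, nat_lit 0, nat_lit 0, nat_lit 154, nat_lit 0, nat_lit 0, [nat_lit 7968000000, nat_lit 11872000000, nat_lit 14058000000], [], [nat_lit 15713780912, nat_lit 17176896940, nat_lit 27925418754, nat_lit 28442713062, nat_lit 30261576915, nat_lit 30513735256, nat_lit 36633609492, nat_lit 36470520188], nat_lit 0, nat_lit 0, nat_lit 0, nat_lit 0, nat_lit 0, nat_lit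 0, [], [nat_lit 62, nat_lit 40, nat_lit 40, nat_lit 80, nat_lit 58, nat_lit 483, nat_lit 250, nat_lit 11]⟩,
 zbF0, [⟨nat_lit 4, nat_lit 100, nat_lit 85, nat_lit 73, nat_lit 498726548⟩, ⟨nat_lit 19, nat_lit 100, nat_lit 63, nat_lit 72, nat_lit 143742726⟩, ⟨nat_lit 19, nat_lit 100, nat_lit 44, nat_lit 82, nat_lit 403641413⟩]⟩
noncomputable def b_V_700_400_10_1 : St := ⟨true, nat_lit 1, nat_lit 0, nat_lit 1, nat_lit 80, nat_lit 280, nat_lit 320, nat_lit 160, nat_lit 200, nat_lit 4, nat_lit 384, nat_lit 40, nat_lit 80, nat_lit 0, nat_lit 300, nat_lit 0, nat_lit 384, nat_lit 0, nat_lit 40, nat_lit 0, nat_lit 0, nat_lit 0, nat_lit 0⟩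
theorem d_V_700_400_10_1 (h : EB TB.env) : Dead b_V_700_400_10_1 := chkB_sound0 h (T :=
(.spl (nat_lit 2) (nat_lit 160)
(.spl (nat_lit 4) (nat_lit 160)
(.spl (nat_lit 2) (nat_lit 80)
(.leaf p052_l92)
(.leaf p052_l93))
(.spl (nat_lit 2) (nat_lit 80)
(.spl (nat_lit 4) (nat_lit 240)
(.leaf p052_l94)
(.trX (nat_lit 23) (nat_lit 100) (nat_lit 76) (nat_lit 82) (nat_lit 336) (.leaf p052_l95)))
(.spl (nat_lit 0) (nat_lit 300)
(.leaf p052_l96)
(.trX (nat_lit 16) (nat_lit 94) (nat_lit 100) (nat_lit 87) (nat_lit 280) (.leaf p052_l97)))))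
(.spl (nat_lit 2) (nat_lit 240)
(.spl (nat_lit 4) (nat_lit 160)
(.spl (nat_lit 0) (nat_lit 300)
(.spl (nat_lit 6) (nat_lit 28)
(.spl (nat_lit 1) (nat_lit 180)
(.leaf p052_l98)
(.trX (nat_lit 19) (nat_lit 100) (nat_lit 52) (nat_lit 80) (nat_lit 372) (.leaf p052_l99)))
(.leaf p052_l100))
(.leaf p052_l101))
(.spl (nat_lit 0) (nat_lit 300)
(.leaf p052_l102)
(.trX (nat_lit 16) (nat_lit 94) (nat_lit 100) (nat_lit 87) (nat_lit 280) (.spl (nat_lit 0) (nat_lit 310)
(.leaf p052_l103)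
(.trX (nat_lit 16) (nat_lit 89) (nat_lit 100) (nat_lit 85) (nat_lit 268) (.leaf p052_l104))))))
(.spl (nat_lit 4) (nat_lit 160)
(.spl (nat_lit 0) (nat_lit 300)
(.spl (nat_lit 6) (nat_lit 28)
(.spl (nat_lit 0) (nat_lit 290)
(.leaf p052_l105)
(.trX (nat_lit 13) (nat_lit 89) (nat_lit 45) (nat_lit 100) (nat_lit 380) (.leaf p052_l106)))
(.leaf p052_l107))
(.trX (nat_lit 13) (nat_lit 87) (nat_lit 50) (nat_lit 100) (nat_lit 376) (.spl (nat_lit 2) (nat_lit 320)
(.spl (nat_lit 1) (nat_lit 180)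
(.leaf p052_l108)
(.trX (nat_lit 19) (nat_lit 100) (nat_lit 52) (nat_lit 80) (nat_lit 372) (.leaf p052_l109)))
(.trX (nat_lit 22) (nat_lit 82) (nat_lit 76) (nat_lit 100) (nat_lit 336) (.leaf p052_l110)))))
(.spl (nat_lit 0) (nat_lit 300)
(.spl (nat_lit 6) (nat_lit 28)
(.spl (nat_lit 3) (nat_lit 60)
(.trX (nat_lit 16) (nat_lit 99) (nat_lit 100) (nat_lit 77) (nat_lit 276) (.trX (nat_lit 19) (nat_lit 100) (nat_lit 55) (nat_lit 73) (nat_lit 368) (.spl (nat_lit 0) (nat_lit 290)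
(.leaf p052_l111)
(.trX (nat_lit 13) (nat_lit 89) (nat_lit 45) (nat_lit 100) (nat_lit 380) (.trX (nat_lit 16) (nat_lit 94) (nat_lit 100) (nat_lit 75) (nat_lit 268) (.spl (nat_lit 0) (nat_lit 295)
(.leaf p052_l112)
(.trX (nat_lit 13) (nat_lit 88) (nat_lit 48) (nat_lit 100) (nat_lit 376) (.trX (nat_lit 16) (nat_lit 92) (nat_lit 100) (nat_lit 75) (nat_lit 260) (.leaf p052_l113)))))))))
(.leaf p052_l114))
(.leaf p052_l115))
(.trX (nat_lit 13) (nat_lit 87) (nat_lit 50) (nat_lit 100) (nat_lit 376) (.trX (nat_lit 16) (nat_lit 94) (nat_lit 100) (nat_lit 87) (nat_lit 280) (.spl (nat_lit 5) (nat_lit 160)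
(.leaf p052_l116)
(.leaf p052_l117))))))))) (by decide +kernel)
noncomputable def p052_l118 : Lf2 := ⟨nat_lit 0, nat_lit 10, [nat_lit 0, nat_lit 5, nat_lit 5, nat_lit 20], true, nat_lit 0, nat_lit 160, nat_lit 0, nat_lit 384, ⟨nat_lit 0, nat_lit 0, nat_lit 1000, nat_lit 4, nat_lit 79, nat_lit 1000, nat_lit 56, nat_lit 1000, nat_lit 25350, nat_lit 254, nat_lit 58017, nat_lit 274, nat_lit 64514347, nat_lit 0, nat_lit 0, nat_lit 793050, false, false⟩,
 nat_lit 0, nat_lit 5028, nat_lit 0, nat_lit 0, nat_lit 3199, nat_lit 0, nat_lit 0, nat_lit 0, nat_lit 0, nat_lit 0, nat_lit 0, nat_lit 0, nat_lit 0, nat_lit 0, nat_lit 141, nat_lit 680800, nat_lit 0, nat_lit 0, [(nat_lit 12, [(nat_lit 5, nat_lit 532), (nat_lit 6, nat_lit 468)]), (nat_lit 15, [(nat_lit 5, nat_lit 532), (nat_lit 6, nat_lit 468)])],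
 ⟨p052_k25, nat_lit 0, nat_lit 0, nat_lit 493, nat_lit 0, nat_lit 408077, [nat_lit 2925768001, nat_lit 2005216001, nat_lit 300478400], [], [nat_lit 17440487865, nat_lit 19201445841, nat_lit 16704057136, nat_lit 18581914309, nat_lit 19237899657, nat_lit 19579837449, nat_lit 21492084304, nat_lit 19187105913], nat_lit 1271250, nat_lit 1271250, nat_lit 21650, nat_lit 490000, nat_lit 0, nat_lit 1100001, [nat_lit 780000, nat_lit 1435000, nat_lit 1271250], [nat_lit 8, nat_lit 40, nat_lit 40, nat_lit 80, nat_lit 1, nat_lit 272, nat_lit 60, nat_lit 8]⟩, C1.Rw.none,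
 ⟨nat_lit 4472, nat_lit 5478, ⟨.ofNat (nat_lit 90113), .ofNat (nat_lit 232485), .ofNat (nat_lit 132827), .ofNat (nat_lit 275199), .ofNat (nat_lit 123773), .ofNat (nat_lit 252931), .ofNat (nat_lit 166906), .ofNat (nat_lit 296064)⟩, ⟨.negSucc (nat_lit 45522), .ofNat (nat_lit 254209), .negSucc (nat_lit 2834), .ofNat (nat_lit 296923), .negSucc (nat_lit 12423), .ofNat (nat_lit 259489), .ofNat (nat_lit 0), .ofNat (nat_lit 302621)⟩⟩, []⟩
noncomputable def p052_l119 : Lf2 := ⟨nat_lit 0, nat_lit 10, [nat_lit 0, nat_lit 5, nat_lit 5, nat_lit 20], true, nat_lit 0, nat_lit 160, nat_lit 0, nat_lit 384, ⟨nat_lit 0, nat_lit 0, nat_lit 1000, nat_lit 4, nat_lit 134, nat_lit 838, nat_lit 56, nat_lit 1000, nat_lit 25350, nat_lit 254, nat_lit 170017, nat_lit 316, nat_lit 60216908, nat_lit 0, nat_lit 0, nat_lit 1638994, false, false⟩,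
 nat_lit 0, nat_lit 5710, nat_lit 0, nat_lit 0, nat_lit 3633, nat_lit 0, nat_lit 0, nat_lit 0, nat_lit 0, nat_lit 0, nat_lit 0, nat_lit 0, nat_lit 0, nat_lit 0, nat_lit 203, nat_lit 1000000, nat_lit 0, nat_lit 0, [(nat_lit 12, [(nat_lit 6, nat_lit 1000)]), (nat_lit 15, [(nat_lit 6, nat_lit 1000)])],
 ⟨p052_k25, nat_lit 0, nat_lit 0, nat_lit 518, nat_lit 0, nat_lit 640600, [nat_lit 3577200001, nat_lit 2932400001, nat_lit 429200000], [], [nat_lit 19065139467, nat_lit 17028582392, nat_lit 16008539293, nat_lit 18157829261, nat_lit 16628901388, nat_lit 17562826449, nat_lit 21222024636, nat_lit 18546497021], nat_lit 1271250, nat_lit 1271250, nat_lit 490000, nat_lit 1100001, nat_lit 0, nat_lit 1100001, [nat_lit 780000, nat_lit 1435000, nat_lit 1271250], [nat_lit 8, nat_lit 40, nat_lit 40, nat_lit 80, nat_lit 1, nat_lit 317, nat_lit 100, nat_lit 9]⟩, C1.Rw.none,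
 ⟨nat_lit 4472, nat_lit 5478, ⟨.ofNat (nat_lit 232485), .ofNat (nat_lit 382351), .ofNat (nat_lit 275199), .ofNat (nat_lit 425065), .ofNat (nat_lit 252931), .ofNat (nat_lit 388887), .ofNat (nat_lit 296064), .ofNat (nat_lit 432020)⟩, ⟨.negSucc (nat_lit 45522), .ofNat (nat_lit 254209), .negSucc (nat_lit 2834), .ofNat (nat_lit 296923), .negSucc (nat_lit 12423), .ofNat (nat_lit 259489), .ofNat (nat_lit 0), .ofNat (nat_lit 302621)⟩⟩, []⟩
noncomputable def p052_l120 : Lf2 := ⟨nat_lit 0, nat_lit 10, [nat_lit 0, nat_lit 5, nat_lit 5, nat_lit 20], false, nat_lit 160, nat_lit 240, nat_lit 0, nat_lit 384, ⟨nat_lit 0, nat_lit 0, nat_lit 1000, nat_lit 4, nat_lit 105, nat_lit 1000, nat_lit 140, nat_lit 1000, nat_lit 183750, nat_lit 320, nat_lit 104017, nat_lit 294, nat_lit 54429269, nat_lit 0, nat_lit 0, nat_lit 3235444, false, false⟩,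
 nat_lit 0, nat_lit 7442, nat_lit 0, nat_lit 0, nat_lit 4735, nat_lit 0, nat_lit 0, nat_lit 0, nat_lit 0, nat_lit 0, nat_lit 0, nat_lit 0, nat_lit 0, nat_lit 0, nat_lit 95, nat_lit 400000, nat_lit 0, nat_lit 0, [(nat_lit 12, [(nat_lit 5, nat_lit 1000)])],
 ⟨p052_k40, nat_lit 0, nat_lit 0, nat_lit 305, nat_lit 0, nat_lit 256882, [nat_lit 2385400001, nat_lit 853000000, nat_lit 202000000], [], [nat_lit 20526811957, nat_lit 18101030736, nat_lit 15887861222, nat_lit 15576834610, nat_lit 18830421051, nat_lit 20466353627, nat_lit 22854545502, nat_lit 20710499622], nat_lit 1271250, nat_lit 1271250, nat_lit 21650, nat_lit 1100001, nat_lit 1100001, nat_lit 1785000, [nat_lit 780000, nat_lit 1762500, nat_lit 1271250], [nat_lit 99, nat_lit 40, nat_lit 40, nat_lit 80, nat_lit 17, nat_lit 317, nat_lit 100, nat_lit 9]⟩, ⟨p052_k41, nat_lit 0, nat_lit 0, nat_lit 778, nat_lit 0, nat_lit 591707, [nat_lit 0, nat_lit 0], [], [nat_lit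 0, nat_lit 0, nat_lit 0, nat_lit 0, nat_lit 0, nat_lit 0, nat_lit 0, nat_lit 0], nat_lit 1100001, nat_lit 1442500, nat_lit 21650, nat_lit 1100001, nat_lit 0, nat_lit 2712000, [nat_lit 1695000, nat_lit 1271250], [nat_lit 121, nat_lit 40, nat_lit 40, nat_lit 80, nat_lit 28, nat_lit 428, nat_lit 200, nat_lit 11]⟩,
 ⟨nat_lit 5000, nat_lit 5478, ⟨.ofNat (nat_lit 90113), .ofNat (nat_lit 382351), .ofNat (nat_lit 132827), .ofNat (nat_lit 425065), .ofNat (nat_lit 107141), .ofNat (nat_lit 385713), .ofNat (nat_lit 149999), .ofNat (nat_lit 428570)⟩, ⟨.ofNat (nat_lit 254209), .ofNat (nat_lit 404075), .ofNat (nat_lit 296923), .ofNat (nat_lit 446789), .ofNat (nat_lit 257141), .ofNat (nat_lit 399998), .ofNat (nat_lit 299999), .ofNat (nat_lit 442856)⟩⟩, [⟨nat_lit 0, nat_lit 100, nat_lit 90, nat_lit 36, nat_lit 43429661⟩]⟩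
noncomputable def p052_l121 : Lf2 := ⟨nat_lit 0, nat_lit 10, [nat_lit 0, nat_lit 5, nat_lit 5, nat_lit 20], false, nat_lit 160, nat_lit 240, nat_lit 0, nat_lit 384, ⟨nat_lit 0, nat_lit 0, nat_lit 1000, nat_lit 4, nat_lit 111, nat_lit 1000, nat_lit 140, nat_lit 1000, nat_lit 183750, nat_lit 320, nat_lit 114817, nat_lit 298, nat_lit 54051972, nat_lit 0, nat_lit 0, nat_lit 3310104, false, false⟩,
 nat_lit 0, nat_lit 5175, nat_lit 0, nat_lit 0, nat_lit 3582, nat_lit 0, nat_lit 460, nat_lit 0, nat_lit 0, nat_lit 0, nat_lit 0, nat_lit 0, nat_lit 0, nat_lit 0, nat_lit 94, nat_lit 400000, nat_lit 0, nat_lit 0, [(nat_lit 15, [(nat_lit 5, nat_lit 1000)])],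
 ⟨p052_k28, nat_lit 0, nat_lit 0, nat_lit 275, nat_lit 0, nat_lit 368394, [nat_lit 2443200000, nat_lit 153000000], [], [nat_lit 19317759700, nat_lit 18045334988, nat_lit 17560479584, nat_lit 18569594888, nat_lit 19453371099, nat_lit 20488094061, nat_lit 20894525644, nat_lit 20662817968], nat_lit 1271250, nat_lit 1271250, nat_lit 43600, nat_lit 1100001, nat_lit 1100001, nat_lit 1785000, [nat_lit 780000, nat_lit 1762500], [nat_lit 74, nat_lit 40, nat_lit 40, nat_lit 80, nat_lit 43, nat_lit 317, nat_lit 100, nat_lit 10]⟩, ⟨p052_k41, nat_lit 0, nat_lit 0, nat_lit 936, nat_lit 0, nat_lit 939972, [nat_lit 0, nat_lit 0], [], [nat_lit 0, nat_lit 0, nat_lit 0, nat_lit 0, nat_lit 0, nat_lit 0, nat_lit 0, nat_lit 0], nat_lit 1100001, nat_lit 1442500, nat_lit 43600, nat_lit 1100001, nat_lit 0, nat_lit 2712000, [nat_lit 1695000, nat_lit 1271250], [nat_lit 121, nat_lit 40, nat_lit 40, nat_lit 80, nat_lit 28, nat_lit 428, nat_lit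 200, nat_lit 11]⟩,
 ⟨nat_lit 4472, nat_lit 5000, ⟨.ofNat (nat_lit 114284), .ofNat (nat_lit 385713), .ofNat (nat_lit 157141), .ofNat (nat_lit 428570), .ofNat (nat_lit 130570), .ofNat (nat_lit 388887), .ofNat (nat_lit 173703), .ofNat (nat_lit 432020)⟩, ⟨.ofNat (nat_lit 257141), .ofNat (nat_lit 399998), .ofNat (nat_lit 299999), .ofNat (nat_lit 442856), .ofNat (nat_lit 259489), .ofNat (nat_lit 395445), .ofNat (nat_lit 302621), .ofNat (nat_lit 438578)⟩⟩, [⟨nat_lit 0, nat_lit 100, nat_lit 80, nat_lit 60, nat_lit 81105978⟩, ⟨nat_lit 4, nat_lit 100, nat_lit 85, nat_lit 73, nat_lit 50898136⟩]⟩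
noncomputable def p052_l122 : Lf2 := ⟨nat_lit 0, nat_lit 10, [nat_lit 0, nat_lit 5, nat_lit 5, nat_lit 20], false, nat_lit 240, nat_lit 300, nat_lit 0, nat_lit 384, ⟨nat_lit 0, nat_lit 0, nat_lit 1000, nat_lit 4, nat_lit 107, nat_lit 1000, nat_lit 190, nat_lit 1000, nat_lit 3701, nat_lit 228, nat_lit 106667, nat_lit 295, nat_lit 49797669, nat_lit 0, nat_lit 0, nat_lit 3854365, false, false⟩,
 nat_lit 0, nat_lit 5511, nat_lit 0, nat_lit 0, nat_lit 3506, nat_lit 0, nat_lit 0, nat_lit 0, nat_lit 0, nat_lit 0, nat_lit 0, nat_lit 0, nat_lit 0, nat_lit 0, nat_lit 91, nat_lit 425200, nat_lit 0, nat_lit 0, [(nat_lit 12, [(nat_lit 5, nat_lit 958), (nat_lit 6, nat_lit 42)]), (nat_lit 15, [(nat_lit 5, nat_lit 958), (nat_lit 6, nat_lit 42)])],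
 ⟨p052_k24, nat_lit 0, nat_lit 0, nat_lit 338, nat_lit 0, nat_lit 408077, [nat_lit 2444344800, nat_lit 187509600], [], [nat_lit 19471851338, nat_lit 21039080661, nat_lit 19311639448, nat_lit 21057027344, nat_lit 21545152536, nat_lit 24085479816, nat_lit 21614449244, nat_lit 23158734062], nat_lit 1271250, nat_lit 1271250, nat_lit 21650, nat_lit 1100001, nat_lit 1271250, nat_lit 1271250, [nat_lit 780000, nat_lit 2090000], [nat_lit 82, nat_lit 40, nat_lit 40, nat_lit 80, nat_lit 63, nat_lit 345, nat_lit 125, nat_lit 9]⟩, ⟨p052_k41, nat_lit 0, nat_lit 0, nat_lit 939, nat_lit 0, nat_lit 939972, [nat_lit 0, nat_lit 0], [], [nat_lit 0, nat_lit 0, nat_lit 0, nat_lit 0, nat_lit 0, nat_lit 0, nat_lit 0, nat_lit 0], nat_lit 1100001, nat_lit 1442500, nat_lit 21650, nat_lit 1100001, nat_lit 0, nat_lit 2712000, [nat_lit 1695000, nat_lit 1271250], [nat_lit 121, nat_lit 40, nat_lit 40, nat_lit 80, nat_lit 28, nat_lit 428, nat_lit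 200, nat_lit 11]⟩,
 ⟨nat_lit 4472, nat_lit 5478, ⟨.ofNat (nat_lit 90113), .ofNat (nat_lit 382351), .ofNat (nat_lit 132827), .ofNat (nat_lit 425065), .ofNat (nat_lit 123773), .ofNat (nat_lit 388887), .ofNat (nat_lit 166906), .ofNat (nat_lit 432020)⟩, ⟨.ofNat (nat_lit 404075), .ofNat (nat_lit 516475), .ofNat (nat_lit 446789), .ofNat (nat_lit 559189), .ofNat (nat_lit 395445), .ofNat (nat_lit 497412), .ofNat (nat_lit 438578), .ofNat (nat_lit 540545)⟩⟩, [⟨nat_lit 0, nat_lit 100, nat_lit 87, nat_lit 41, nat_lit 110399723⟩, ⟨nat_lit 4, nat_lit 100, nat_lit 90, nat_lit 74, nat_lit 312681706⟩]⟩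
noncomputable def b_V_700_400_10_2 : St := ⟨true, nat_lit 1, nat_lit 1, nat_lit 1, nat_lit 80, nat_lit 280, nat_lit 320, nat_lit 160, nat_lit 200, nat_lit 4, nat_lit 160, nat_lit 40, nat_lit 80, nat_lit 0, nat_lit 300, nat_lit 0, nat_lit 384, nat_lit 0, nat_lit 40, nat_lit 0, nat_lit 0, nat_lit 0, nat_lit 0⟩
theorem d_V_700_400_10_2 (h : EB TB.env) : Dead b_V_700_400_10_2 := chkB_sound0 h (T :=
(.spl (nat_lit 4) (nat_lit 160)
(.spl (nat_lit 2) (nat_lit 80)
(.leaf p052_l118)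
(.leaf p052_l119))
(.spl (nat_lit 4) (nat_lit 240)
(.spl (nat_lit 0) (nat_lit 300)
(.leaf p052_l120)
(.trZ (nat_lit 0) (nat_lit 100) (nat_lit 88) (nat_lit 32) (nat_lit 8) (.leaf p052_l121)))
(.leaf p052_l122)))) (by decide +kernel)
noncomputable def p052_l123 : Lf2 := ⟨nat_lit 0, nat_lit 10, [nat_lit 0, nat_lit 5, nat_lit 5, nat_lit 20], false, nat_lit 0, nat_lit 160, nat_lit 0, nat_lit 384, ⟨nat_lit 0, nat_lit 0, nat_lit 1000, nat_lit 4, nat_lit 191, nat_lit 1000, nat_lit 55, nat_lit 1000, nat_lit 25350, nat_lit 254, nat_lit 5073, nat_lit 222, nat_lit 54513184, nat_lit 0, nat_lit 0, nat_lit 2404583, false, true⟩,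
 nat_lit 0, nat_lit 3998, nat_lit 0, nat_lit 0, nat_lit 2543, nat_lit 0, nat_lit 0, nat_lit 0, nat_lit 0, nat_lit 0, nat_lit 0, nat_lit 0, nat_lit 0, nat_lit 0, nat_lit 116, nat_lit 512200, nat_lit 0, nat_lit 0, [(nat_lit 12, [(nat_lit 5, nat_lit 813), (nat_lit 6, nat_lit 187)])],
 ⟨p052_k25, nat_lit 0, nat_lit 0, nat_lit 305, nat_lit 0, nat_lit 256882, [nat_lit 2614174800, nat_lit 1674454801, nat_lit 241192400], [], [nat_lit 21762605253, nat_lit 20438266799, nat_lit 19800295856, nat_lit 20584292068, nat_lit 19206951353, nat_lit 19196964170, nat_lit 24153711893, nat_lit 22987054697], nat_lit 1271250, nat_lit 1271250, nat_lit 1100001, nat_lit 1785000, nat_lit 0, nat_lit 1100001, [nat_lit 780000, nat_lit 1435000, nat_lit 1271250], [nat_lit 8, nat_lit 40, nat_lit 40, nat_lit 80, nat_lit 1, nat_lit 317, nat_lit 100, nat_lit 9]⟩, ⟨p052_k26, nat_lit 0, nat_lit 0, nat_lit 656, nat_lit 0, nat_lit 591707, [nat_lit 0, nat_lit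 0, nat_lit 0], [], [nat_lit 0, nat_lit 0, nat_lit 0, nat_lit 0, nat_lit 0, nat_lit 0, nat_lit 0, nat_lit 0], nat_lit 1100001, nat_lit 1442500, nat_lit 1271250, nat_lit 1271250, nat_lit 0, nat_lit 2712000, [nat_lit 1695000, nat_lit 1271250, nat_lit 1271250], [nat_lit 62, nat_lit 40, nat_lit 40, nat_lit 80, nat_lit 58, nat_lit 456, nat_lit 225, nat_lit 11]⟩,
 ⟨nat_lit 5000, nat_lit 5478, ⟨.ofNat (nat_lit 382351), .ofNat (nat_lit 532217), .ofNat (nat_lit 425065), .ofNat (nat_lit 574920), .ofNat (nat_lit 385713), .ofNat (nat_lit 528570), .ofNat (nat_lit 428570), .ofNat (nat_lit 571415)⟩, ⟨.negSucc (nat_lit 45522), .ofNat (nat_lit 254209), .negSucc (nat_lit 2832), .ofNat (nat_lit 296923), .negSucc (nat_lit 28572), .ofNat (nat_lit 257141), .ofNat (nat_lit 0), .ofNat (nat_lit 299999)⟩⟩, []⟩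
noncomputable def p052_l124 : Lf2 := ⟨nat_lit 0, nat_lit 10, [nat_lit 0, nat_lit 5, nat_lit 5, nat_lit 20], false, nat_lit 0, nat_lit 160, nat_lit 0, nat_lit 384, ⟨nat_lit 0, nat_lit 0, nat_lit 1000, nat_lit 4, nat_lit 191, nat_lit 676, nat_lit 56, nat_lit 1000, nat_lit 26667, nat_lit 255, nat_lit 3024, nat_lit 223, nat_lit 54517541, nat_lit 0, nat_lit 0, nat_lit 2404104, false, true⟩,
 nat_lit 0, nat_lit 5098, nat_lit 0, nat_lit 0, nat_lit 3529, nat_lit 0, nat_lit 445, nat_lit 0, nat_lit 0, nat_lit 0, nat_lit 0, nat_lit 0, nat_lit 0, nat_lit 0, nat_lit 94, nat_lit 400000, nat_lit 0, nat_lit 0, [(nat_lit 15, [(nat_lit 5, nat_lit 1000)])],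
 ⟨p052_k28, nat_lit 0, nat_lit 0, nat_lit 281, nat_lit 0, nat_lit 368394, [nat_lit 2443200000, nat_lit 153000000], [], [nat_lit 20105177750, nat_lit 18320288692, nat_lit 19731583884, nat_lit 20765088880, nat_lit 17741193048, nat_lit 18744013436, nat_lit 21030767243, nat_lit 20834112696], nat_lit 1271250, nat_lit 1271250, nat_lit 1100001, nat_lit 1785000, nat_lit 0, nat_lit 1100001, [nat_lit 780000, nat_lit 1762500], [nat_lit 74, nat_lit 40, nat_lit 40, nat_lit 80, nat_lit 43, nat_lit 317, nat_lit 100, nat_lit 10]⟩, ⟨p052_k41, nat_lit 0, nat_lit 0, nat_lit 809, nat_lit 0, nat_lit 939972, [nat_lit 0, nat_lit 0], [], [nat_lit 0, nat_lit 0, nat_lit 0, nat_lit 0, nat_lit 0, nat_lit 0, nat_lit 0, nat_lit 0], nat_lit 1100001, nat_lit 1442500, nat_lit 1271250, nat_lit 1271250, nat_lit 0, nat_lit 2712000, [nat_lit 1695000, nat_lit 1271250], [nat_lit 121, nat_lit 40, nat_lit 40, nat_lit 80, nat_lit 28, nat_lit 456, nat_lit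 225, nat_lit 11]⟩,
 ⟨nat_lit 4472, nat_lit 5000, ⟨.ofNat (nat_lit 385713), .ofNat (nat_lit 528570), .ofNat (nat_lit 428570), .ofNat (nat_lit 571423), .ofNat (nat_lit 388887), .ofNat (nat_lit 524844), .ofNat (nat_lit 432020), .ofNat (nat_lit 567973)⟩, ⟨.negSucc (nat_lit 28572), .ofNat (nat_lit 257141), .ofNat (nat_lit 0), .ofNat (nat_lit 299999), .negSucc (nat_lit 12423), .ofNat (nat_lit 259489), .ofNat (nat_lit 0), .ofNat (nat_lit 302621)⟩⟩, []⟩
noncomputable def p052_l125 : Lf2 := ⟨nat_lit 0, nat_lit 10, [nat_lit 0, nat_lit 5, nat_lit 5, nat_lit 20], false, nat_lit 0, nat_lit 160, nat_lit 0, nat_lit 160, ⟨nat_lit 179, nat_lit 636, nat_lit 185, nat_lit 6, nat_lit 250, nat_lit 790, nat_lit 55, nat_lit 185, nat_lit 25350, nat_lit 254, nat_lit 178270, nat_lit 200, nat_lit 48181930, nat_lit 18818070, nat_lit 0, nat_lit 2968849, false, true⟩,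
 nat_lit 7153, nat_lit 0, nat_lit 0, nat_lit 0, nat_lit 4551, nat_lit 2384, nat_lit 131, nat_lit 0, nat_lit 0, nat_lit 171, nat_lit 0, nat_lit 0, nat_lit 0, nat_lit 0, nat_lit 0, nat_lit 821000, nat_lit 0, nat_lit 0, [(nat_lit 12, [(nat_lit 2, nat_lit 636), (nat_lit 6, nat_lit 185)])],
 ⟨p052_k25, nat_lit 0, nat_lit 0, nat_lit 308, nat_lit 0, nat_lit 256882, [nat_lit 2283787201, nat_lit 2148054400, nat_lit 577066000], [], [nat_lit 22181138884, nat_lit 23029013780, nat_lit 25317942825, nat_lit 26146022855, nat_lit 20799573813, nat_lit 21646734301, nat_lit 23718150921, nat_lit 24422672423], nat_lit 1271250, nat_lit 1271250, nat_lit 1271250, nat_lit 1271250, nat_lit 0, nat_lit 1100001, [nat_lit 780000, nat_lit 1435000, nat_lit 1271250], [nat_lit 8, nat_lit 40, nat_lit 40, nat_lit 80, nat_lit 1, nat_lit 345, nat_lit 125, nat_lit 9]⟩, ⟨p052_k26, nat_lit 0, nat_lit 0, nat_lit 628, nat_lit 0, nat_lit 591707, [nat_lit 1426272000,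 nat_lit 2125088000, nat_lit 2516382000], [], [nat_lit 7980214628, nat_lit 7841142832, nat_lit 8270113624, nat_lit 8086891785, nat_lit 5923202740, nat_lit 6324674296, nat_lit 6125572164, nat_lit 5937074780], nat_lit 1100001, nat_lit 1442500, nat_lit 1271250, nat_lit 1271250, nat_lit 0, nat_lit 1100001, [nat_lit 1695000, nat_lit 1271250, nat_lit 1271250], [nat_lit 62, nat_lit 40, nat_lit 40, nat_lit 80, nat_lit 58, nat_lit 401, nat_lit 175, nat_lit 9]⟩,
 ⟨nat_lit 5000, nat_lit 5478, ⟨.ofNat (nat_lit 532217), .ofNat (nat_lit 682065), .ofNat (nat_lit 574920), .ofNat (nat_lit 724760), .ofNat (nat_lit 528570), .ofNat (nat_lit 671409), .ofNat (nat_lit 571415), .ofNat (nat_lit 714246)⟩, ⟨.negSucc (nat_lit 45522), .ofNat (nat_lit 254209), .negSucc (nat_lit 2832), .ofNat (nat_lit 296923), .negSucc (nat_lit 28572), .ofNat (nat_lit 257141), .ofNat (nat_lit 0), .ofNat (nat_lit 299999)⟩⟩, []⟩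
noncomputable def p052_l126 : Lf2 := ⟨nat_lit 0, nat_lit 10, [nat_lit 0, nat_lit 5, nat_lit 5, nat_lit 20], false, nat_lit 0, nat_lit 160, nat_lit 0, nat_lit 160, ⟨nat_lit 152, nat_lit 848, nat_lit 0, nat_lit 6, nat_lit 243, nat_lit 848, nat_lit 56, nat_lit 0, nat_lit 0, nat_lit 0, nat_lit 0, nat_lit 0, nat_lit 48953681, nat_lit 18046319, nat_lit 0, nat_lit 2913045, false, true⟩,
 nat_lit 6161, nat_lit 0, nat_lit 0, nat_lit 0, nat_lit 4265, nat_lit 2053, nat_lit 833, nat_lit 0, nat_lit 0, nat_lit 150, nat_lit 0, nat_lit 0, nat_lit 0, nat_lit 0, nat_lit 0, nat_lit 339200, nat_lit 0, nat_lit 0, [(nat_lit 15, [(nat_lit 1, nat_lit 848)])],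
 ⟨p052_k27, nat_lit 0, nat_lit 0, nat_lit 299, nat_lit 0, nat_lit 346786, [nat_lit 2211993600, nat_lit 2946926934, nat_lit 3179634666], [], [nat_lit 22146623869, nat_lit 23136972869, nat_lit 25607380600, nat_lit 26977538540, nat_lit 21553009059, nat_lit 22388019109, nat_lit 24318767459, nat_lit 25018485029], nat_lit 1271250, nat_lit 1271250, nat_lit 1271250, nat_lit 1271250, nat_lit 0, nat_lit 1100001, [nat_lit 780000, nat_lit 1435000, nat_lit 1271250], [nat_lit 18, nat_lit 40, nat_lit 40, nat_lit 80, nat_lit 2, nat_lit 249, nat_lit 40, nat_lit 8]⟩, ⟨p052_k26, nat_lit 0, nat_lit 0, nat_lit 770, nat_lit 0, nat_lit 884840, [nat_lit 1211136000, nat_lit 1804544000, nat_lit 2136816000], [], [nat_lit 6727054600, nat_lit 6666382146, nat_lit 6973083512, nat_lit 6892239652, nat_lit 4950691764, nat_lit 4886264866, nat_lit 5121572332, nat_lit 5039696454], nat_lit 1100001, nat_lit 1271250, nat_lit 1271250, nat_lit 1271250,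 nat_lit 0, nat_lit 1100001, [nat_lit 1695000, nat_lit 1271250, nat_lit 1271250], [nat_lit 62, nat_lit 40, nat_lit 40, nat_lit 80, nat_lit 58, nat_lit 401, nat_lit 175, nat_lit 9]⟩,
 ⟨nat_lit 4472, nat_lit 5000, ⟨.ofNat (nat_lit 528570), .ofNat (nat_lit 671427), .ofNat (nat_lit 549999), .ofNat (nat_lit 692851), .ofNat (nat_lit 524844), .ofNat (nat_lit 660800), .ofNat (nat_lit 546410), .ofNat (nat_lit 682362)⟩, ⟨.negSucc (nat_lit 28572), .ofNat (nat_lit 257141), .ofNat (nat_lit 0), .ofNat (nat_lit 299999), .negSucc (nat_lit 12423), .ofNat (nat_lit 259489), .ofNat (nat_lit 0), .ofNat (nat_lit 302621)⟩⟩, [⟨nat_lit 9, nat_lit 100, nat_lit 94, nat_lit 21, nat_lit 37913708⟩]⟩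
noncomputable def p052_l127 : Lf2 := ⟨nat_lit 0, nat_lit 10, [nat_lit 0, nat_lit 5, nat_lit 5, nat_lit 20], false, nat_lit 0, nat_lit 160, nat_lit 0, nat_lit 160, ⟨nat_lit 231, nat_lit 386, nat_lit 383, nat_lit 6, nat_lit 251, nat_lit 769, nat_lit 56, nat_lit 383, nat_lit 26667, nat_lit 255, nat_lit 157290, nat_lit 200, nat_lit 48021723, nat_lit 18978277, nat_lit 0, nat_lit 2980019, true, true⟩,
 nat_lit 5791, nat_lit 0, nat_lit 0, nat_lit 0, nat_lit 4009, nat_lit 2202, nat_lit 0, nat_lit 0, nat_lit 0, nat_lit 692, nat_lit 0, nat_lit 0, nat_lit 0, nat_lit 0, nat_lit 0, nat_lit 600400, nat_lit 0, nat_lit 0, [(nat_lit 15, [(nat_lit 1, nat_lit 281), (nat_lit 2, nat_lit 105), (nat_lit 6, nat_lit 383)])],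
 ⟨p052_k27, nat_lit 0, nat_lit 0, nat_lit 306, nat_lit 0, nat_lit 368394, [nat_lit 1923086201, nat_lit 1336445934, nat_lit 405609600], [], [nat_lit 22773903446, nat_lit 23567576336, nat_lit 25502900504, nat_lit 26458924524, nat_lit 22070316282, nat_lit 22795181230, nat_lit 24479941296, nat_lit 25091765690], nat_lit 1271250, nat_lit 1271250, nat_lit 1271250, nat_lit 1271250, nat_lit 0, nat_lit 1100001, [nat_lit 780000, nat_lit 1435000, nat_lit 1271250], [nat_lit 18, nat_lit 40, nat_lit 40, nat_lit 80, nat_lit 2, nat_lit 249, nat_lit 40, nat_lit 8]⟩, ⟨p052_k36, nat_lit 0, nat_lit 0, nat_lit 721, nat_lit 0, nat_lit 787003, [nat_lit 1840608000, nat_lit 2742432000, nat_lit 3247398000], [], [nat_lit 8393500192, nat_lit 8354409460, nat_lit 8668147644, nat_lit 8609917280, nat_lit 8025335004, nat_lit 6987739392, nat_lit 7198262514, nat_lit 7150799520], nat_lit 1271250, nat_lit 1271250, nat_lit 1271250, nat_lit 1271250, nat_lit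 0, nat_lit 1100001, [nat_lit 1695000, nat_lit 1271250, nat_lit 1271250], [nat_lit 62, nat_lit 40, nat_lit 40, nat_lit 80, nat_lit 58, nat_lit 401, nat_lit 175, nat_lit 9]⟩,
 ⟨nat_lit 4472, nat_lit 5000, ⟨.ofNat (nat_lit 549999), .ofNat (nat_lit 692851), .ofNat (nat_lit 571423), .ofNat (nat_lit 714270), .ofNat (nat_lit 546410), .ofNat (nat_lit 682362), .ofNat (nat_lit 567973), .ofNat (nat_lit 703919)⟩, ⟨.negSucc (nat_lit 28572), .ofNat (nat_lit 257141), .ofNat (nat_lit 0), .ofNat (nat_lit 299999), .negSucc (nat_lit 12423), .ofNat (nat_lit 259489), .ofNat (nat_lit 0), .ofNat (nat_lit 302621)⟩⟩, []⟩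
noncomputable def p052_l128 : Lf2 := ⟨nat_lit 0, nat_lit 10, [nat_lit 0, nat_lit 5, nat_lit 5, nat_lit 20], false, nat_lit 0, nat_lit 160, nat_lit 160, nat_lit 384, ⟨nat_lit 182, nat_lit 234, nat_lit 584, nat_lit 6, nat_lit 250, nat_lit 818, nat_lit 55, nat_lit 584, nat_lit 25350, nat_lit 254, nat_lit 178270, nat_lit 200, nat_lit 48181930, nat_lit 18818070, nat_lit 0, nat_lit 2968849, false, true⟩,
 nat_lit 6434, nat_lit 0, nat_lit 0, nat_lit 0, nat_lit 4094, nat_lit 2144, nat_lit 0, nat_lit 0, nat_lit 0, nat_lit 152, nat_lit 0, nat_lit 0, nat_lit 0, nat_lit 0, nat_lit 62, nat_lit 818000, nat_lit 0, nat_lit 0, [(nat_lit 12, [(nat_lit 2, nat_lit 234), (nat_lit 6, nat_lit 584)])],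
 ⟨p052_k25, nat_lit 0, nat_lit 0, nat_lit 308, nat_lit 0, nat_lit 256882, [nat_lit 2554221601, nat_lit 2174439200, nat_lit 309052800], [], [nat_lit 20182293353, nat_lit 21075378636, nat_lit 23943813336, nat_lit 25287466960, nat_lit 19215297929, nat_lit 20029514201, nat_lit 22039866481, nat_lit 22722268269], nat_lit 1271250, nat_lit 1271250, nat_lit 1271250, nat_lit 1271250, nat_lit 0, nat_lit 1100001, [nat_lit 780000, nat_lit 1435000, nat_lit 1271250], [nat_lit 8, nat_lit 40, nat_lit 40, nat_lit 80, nat_lit 1, nat_lit 345, nat_lit 125, nat_lit 9]⟩, ⟨p052_k26, nat_lit 0, nat_lit 0, nat_lit 481, nat_lit 0, nat_lit 591707, [nat_lit 1450176000, nat_lit 2160704000, nat_lit 2558556000], [], [nat_lit 6061840992, nat_lit 6004023712, nat_lit 6524605104, nat_lit 6414237304, nat_lit 7015062370, nat_lit 6857650298, nat_lit 7184089495, nat_lit 6991432554], nat_lit 1100001, nat_lit 1442500, nat_lit 1271250, nat_lit 1271250, nat_lit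 1271250, nat_lit 1271250, [nat_lit 1695000, nat_lit 1271250, nat_lit 1271250], [nat_lit 62, nat_lit 40, nat_lit 40, nat_lit 80, nat_lit 58, nat_lit 483, nat_lit 250, nat_lit 11]⟩,
 ⟨nat_lit 5000, nat_lit 5478, ⟨.ofNat (nat_lit 532217), .ofNat (nat_lit 682065), .ofNat (nat_lit 574920), .ofNat (nat_lit 724760), .ofNat (nat_lit 528570), .ofNat (nat_lit 671409), .ofNat (nat_lit 571415), .ofNat (nat_lit 714246)⟩, ⟨.negSucc (nat_lit 45522), .ofNat (nat_lit 254209), .negSucc (nat_lit 2832), .ofNat (nat_lit 296923), .negSucc (nat_lit 28572), .ofNat (nat_lit 257141), .ofNat (nat_lit 0), .ofNat (nat_lit 299999)⟩⟩, [⟨nat_lit 10, nat_lit 100, nat_lit 91, nat_lit 86, nat_lit 72111152⟩]⟩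
noncomputable def p052_l129 : Lf2 := ⟨nat_lit 0, nat_lit 10, [nat_lit 0, nat_lit 5, nat_lit 5, nat_lit 20], false, nat_lit 0, nat_lit 160, nat_lit 160, nat_lit 384, ⟨nat_lit 146, nat_lit 411, nat_lit 443, nat_lit 6, nat_lit 243, nat_lit 854, nat_lit 56, nat_lit 442, nat_lit 26667, nat_lit 255, nat_lit 114452, nat_lit 200, nat_lit 48953681, nat_lit 18046319, nat_lit 0, nat_lit 2913045, false, true⟩,
 nat_lit 5880, nat_lit 0, nat_lit 0, nat_lit 0, nat_lit 4070, nat_lit 1959, nat_lit 682, nat_lit 0, nat_lit 0, nat_lit 125, nat_lit 0, nat_lit 0, nat_lit 0, nat_lit 0, nat_lit 9, nat_lit 607400, nat_lit 0, nat_lit 0, [(nat_lit 15, [(nat_lit 1, nat_lit 411), (nat_lit 6, nat_lit 443)])],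
 ⟨p052_k27, nat_lit 0, nat_lit 0, nat_lit 299, nat_lit 0, nat_lit 346786, [nat_lit 1851614200, nat_lit 1043576601, nat_lit 3327600], [], [nat_lit 20063524520, nat_lit 21562893600, nat_lit 25242566800, nat_lit 26582500520, nat_lit 19873350360, nat_lit 20799270480, nat_lit 22954303660, nat_lit 23733347560], nat_lit 1271250, nat_lit 1271250, nat_lit 1271250, nat_lit 1271250, nat_lit 0, nat_lit 1100001, [nat_lit 780000, nat_lit 1435000, nat_lit 1271250], [nat_lit 18, nat_lit 40, nat_lit 40, nat_lit 80, nat_lit 2, nat_lit 249, nat_lit 40, nat_lit 8]⟩, ⟨p052_k26, nat_lit 0, nat_lit 0, nat_lit 640, nat_lit 0, nat_lit 884840, [nat_lit 1163328000, nat_lit 1733312000, nat_lit 2052468000], [], [nat_lit 4791102932, nat_lit 4729960258, nat_lit 4955675036, nat_lit 4877866562, nat_lit 5356390310, nat_lit 5294707759, nat_lit 5674043856, nat_lit 5598784224], nat_lit 1100001, nat_lit 1271250, nat_lit 1271250, nat_lit 1271250, nat_lit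 1271250, nat_lit 1271250, [nat_lit 1695000, nat_lit 1271250, nat_lit 1271250], [nat_lit 62, nat_lit 40, nat_lit 40, nat_lit 80, nat_lit 58, nat_lit 456, nat_lit 225, nat_lit 10]⟩,
 ⟨nat_lit 4472, nat_lit 5000, ⟨.ofNat (nat_lit 528570), .ofNat (nat_lit 671427), .ofNat (nat_lit 549999), .ofNat (nat_lit 692851), .ofNat (nat_lit 524844), .ofNat (nat_lit 660800), .ofNat (nat_lit 546410), .ofNat (nat_lit 682362)⟩, ⟨.negSucc (nat_lit 28572), .ofNat (nat_lit 257141), .ofNat (nat_lit 0), .ofNat (nat_lit 299999), .negSucc (nat_lit 12423), .ofNat (nat_lit 259489), .ofNat (nat_lit 0), .ofNat (nat_lit 302621)⟩⟩, [⟨nat_lit 10, nat_lit 100, nat_lit 91, nat_lit 86, nat_lit 64952508⟩]⟩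
noncomputable def p052_l130 : Lf2 := ⟨nat_lit 0, nat_lit 10, [nat_lit 0, nat_lit 5, nat_lit 5, nat_lit 20], false, nat_lit 0, nat_lit 160, nat_lit 160, nat_lit 372, ⟨nat_lit 241, nat_lit 294, nat_lit 465, nat_lit 6, nat_lit 251, nat_lit 759, nat_lit 56, nat_lit 465, nat_lit 26667, nat_lit 255, nat_lit 157290, nat_lit 200, nat_lit 48021723, nat_lit 18978277, nat_lit 0, nat_lit 2980019, true, true⟩,
 nat_lit 6093, nat_lit 0, nat_lit 0, nat_lit 0, nat_lit 4218, nat_lit 2317, nat_lit 0, nat_lit 0, nat_lit 0, nat_lit 785, nat_lit 0, nat_lit 0, nat_lit 0, nat_lit 0, nat_lit 0, nat_lit 582600, nat_lit 0, nat_lit 0, [(nat_lit 15, [(nat_lit 1, nat_lit 294), (nat_lit 6, nat_lit 465)])],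
 ⟨p052_k27, nat_lit 0, nat_lit 0, nat_lit 306, nat_lit 0, nat_lit 368394, [nat_lit 1840600800, nat_lit 1131312801, nat_lit 157710000], [], [nat_lit 21593771421, nat_lit 22401909201, nat_lit 25519451120, nat_lit 26882324248, nat_lit 20754940826, nat_lit 21492089122, nat_lit 23194128054, nat_lit 23825537944], nat_lit 1271250, nat_lit 1271250, nat_lit 1271250, nat_lit 1271250, nat_lit 0, nat_lit 1100001, [nat_lit 780000, nat_lit 1435000, nat_lit 1271250], [nat_lit 18, nat_lit 40, nat_lit 40, nat_lit 80, nat_lit 2, nat_lit 249, nat_lit 40, nat_lit 8]⟩, ⟨p052_k36, nat_lit 0, nat_lit 0, nat_lit 588, nat_lit 0, nat_lit 787003, [nat_lit 1920288000, nat_lit 2861152000, nat_lit 3387978000], [], [nat_lit 6687883561, nat_lit 6661742691, nat_lit 7054535186, nat_lit 7028394316, nat_lit 7416506061, nat_lit 7357859649, nat_lit 7991883890, nat_lit 7949575307], nat_lit 1271250, nat_lit 1271250, nat_lit 1271250, nat_lit 1271250, nat_lit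 1271250, nat_lit 1271250, [nat_lit 1695000, nat_lit 1271250, nat_lit 1271250], [nat_lit 62, nat_lit 40, nat_lit 40, nat_lit 80, nat_lit 58, nat_lit 456, nat_lit 225, nat_lit 10]⟩,
 ⟨nat_lit 4472, nat_lit 5000, ⟨.ofNat (nat_lit 549999), .ofNat (nat_lit 692851), .ofNat (nat_lit 571423), .ofNat (nat_lit 714270), .ofNat (nat_lit 546410), .ofNat (nat_lit 682362), .ofNat (nat_lit 567973), .ofNat (nat_lit 703919)⟩, ⟨.negSucc (nat_lit 28572), .ofNat (nat_lit 257141), .ofNat (nat_lit 0), .ofNat (nat_lit 299999), .negSucc (nat_lit 12423), .ofNat (nat_lit 259489), .ofNat (nat_lit 0), .ofNat (nat_lit 302621)⟩⟩, [⟨nat_lit 19, nat_lit 100, nat_lit 66, nat_lit 72, nat_lit 27423932⟩, ⟨nat_lit 22, nat_lit 100, nat_lit 95, nat_lit 87, nat_lit 61946047⟩]⟩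
noncomputable def p052_l131 : Lf2 := ⟨nat_lit 0, nat_lit 7, [nat_lit 80, nat_lit 5, nat_lit 5, nat_lit 20], false, nat_lit 0, nat_lit 160, nat_lit 0, nat_lit 336, ⟨nat_lit 202, nat_lit 798, nat_lit 0, nat_lit 8, nat_lit 304, nat_lit 798, nat_lit 55, nat_lit 0, nat_lit 0, nat_lit 0, nat_lit 0, nat_lit 0, nat_lit 42468970, nat_lit 24531030, nat_lit 0, nat_lit 3284331, true, true⟩,
 nat_lit 7076, nat_lit 0, nat_lit 0, nat_lit 0, nat_lit 4502, nat_lit 2358, nat_lit 0, nat_lit 0, nat_lit 0, nat_lit 159, nat_lit 0, nat_lit 0, nat_lit 0, nat_lit 0, nat_lit 0, nat_lit 798000, nat_lit 0, nat_lit 0, [(nat_lit 12, [(nat_lit 2, nat_lit 798)])],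
 ⟨p052_k29, nat_lit 0, nat_lit 0, nat_lit 259, nat_lit 0, nat_lit 178437, [nat_lit 2526453601, nat_lit 2815727200, nat_lit 2015239200], [], [nat_lit 27148127401, nat_lit 27529924387, nat_lit 30326713482, nat_lit 30881151719, nat_lit 25447247233, nat_lit 25778316743, nat_lit 28237944507, nat_lit 28530967252], nat_lit 1271250, nat_lit 1271250, nat_lit 1271250, nat_lit 1271250, nat_lit 0, nat_lit 1100001, [nat_lit 780000, nat_lit 1435000, nat_lit 1271250], [nat_lit 18, nat_lit 40, nat_lit 40, nat_lit 80, nat_lit 2, nat_lit 249, nat_lit 40, nat_lit 7]⟩, ⟨p052_k35, nat_lit 0, nat_lit 0, nat_lit 520, nat_lit 0, nat_lit 406219, [nat_lit 1609536000, nat_lit 2398144000, nat_lit 2839716000], [], [nat_lit 9908937312, nat_lit 9742415952, nat_lit 10394388900, nat_lit 10184033767, nat_lit 7698758181, nat_lit 7469702642, nat_lit 8101843394, nat_lit 7909807467], nat_lit 1100001, nat_lit 1442500, nat_lit 1271250, nat_lit 1271250,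 nat_lit 0, nat_lit 2373000, [nat_lit 1695000, nat_lit 1271250, nat_lit 1271250], [nat_lit 62, nat_lit 40, nat_lit 40, nat_lit 80, nat_lit 58, nat_lit 483, nat_lit 250, nat_lit 11]⟩,
 ⟨nat_lit 5244, nat_lit 5478, ⟨.ofNat (nat_lit 682079), .ofNat (nat_lit 801965), .ofNat (nat_lit 724787), .ofNat (nat_lit 844675), .ofNat (nat_lit 676736), .ofNat (nat_lit 793804), .ofNat (nat_lit 719502), .ofNat (nat_lit 836570)⟩, ⟨.negSucc (nat_lit 45522), .ofNat (nat_lit 254209), .negSucc (nat_lit 2827), .ofNat (nat_lit 296923), .negSucc (nat_lit 36940), .ofNat (nat_lit 255744), .ofNat (nat_lit 0), .ofNat (nat_lit 298515)⟩⟩, [⟨nat_lit 13, nat_lit 92, nat_lit 40, nat_lit 100, nat_lit 86869618⟩, ⟨nat_lit 10, nat_lit 100, nat_lit 47, nat_lit 81, nat_lit 11630519⟩]⟩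
noncomputable def p052_l132 : Lf2 := ⟨nat_lit 0, nat_lit 7, [nat_lit 80, nat_lit 5, nat_lit 5, nat_lit 20], false, nat_lit 0, nat_lit 160, nat_lit 0, nat_lit 336, ⟨nat_lit 180, nat_lit 820, nat_lit 0, nat_lit 8, nat_lit 300, nat_lit 820, nat_lit 56, nat_lit 0, nat_lit 0, nat_lit 0, nat_lit 0, nat_lit 0, nat_lit 42891975, nat_lit 24108025, nat_lit 0, nat_lit 3266575, true, true⟩,
 nat_lit 6380, nat_lit 0, nat_lit 0, nat_lit 0, nat_lit 4237, nat_lit 2126, nat_lit 516, nat_lit 0, nat_lit 0, nat_lit 143, nat_lit 0, nat_lit 0, nat_lit 0, nat_lit 0, nat_lit 0, nat_lit 820000, nat_lit 0, nat_lit 0, [(nat_lit 12, [(nat_lit 2, nat_lit 820)])],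
 ⟨p052_k30, nat_lit 0, nat_lit 0, nat_lit 277, nat_lit 0, nat_lit 235677, [nat_lit 2505624001, nat_lit 2721048000, nat_lit 1851128000], [], [nat_lit 26661261694, nat_lit 27064856499, nat_lit 29877151532, nat_lit 30426677600, nat_lit 25296661678, nat_lit 25641323315, nat_lit 27807516635, nat_lit 28100191167], nat_lit 1271250, nat_lit 1271250, nat_lit 1271250, nat_lit 1271250, nat_lit 0, nat_lit 1100001, [nat_lit 780000, nat_lit 1435000, nat_lit 1271250], [nat_lit 18, nat_lit 40, nat_lit 40, nat_lit 80, nat_lit 2, nat_lit 249, nat_lit 40, nat_lit 7]⟩, ⟨p052_k35, nat_lit 0, nat_lit 0, nat_lit 603, nat_lit 0, nat_lit 564811, [nat_lit 1434240000, nat_lit 2136960000, nat_lit 2530440000], [], [nat_lit 8786727280, nat_lit 8635102272, nat_lit 9190647816, nat_lit 9002120272, nat_lit 6782749922, nat_lit 6599769332, nat_lit 7164837268, nat_lit 6992413090], nat_lit 1100001, nat_lit 1442500, nat_lit 1271250, nat_lit 1271250,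 nat_lit 0, nat_lit 2373000, [nat_lit 1695000, nat_lit 1271250, nat_lit 1271250], [nat_lit 62, nat_lit 40, nat_lit 40, nat_lit 80, nat_lit 58, nat_lit 483, nat_lit 250, nat_lit 11]⟩,
 ⟨nat_lit 5000, nat_lit 5245, ⟨.ofNat (nat_lit 676739), .ofNat (nat_lit 786491), .ofNat (nat_lit 719505), .ofNat (nat_lit 829257), .ofNat (nat_lit 671425), .ofNat (nat_lit 778563), .ofNat (nat_lit 714277), .ofNat (nat_lit 821416)⟩, ⟨.negSucc (nat_lit 36940), .ofNat (nat_lit 255744), .ofNat (nat_lit 0), .ofNat (nat_lit 298515), .negSucc (nat_lit 28572), .ofNat (nat_lit 257141), .ofNat (nat_lit 0), .ofNat (nat_lit 299999)⟩⟩, [⟨nat_lit 13, nat_lit 88, nat_lit 56, nat_lit 100, nat_lit 87626848⟩, ⟨nat_lit 22, nat_lit 66, nat_lit 100, nat_lit 80, nat_lit 8006324⟩]⟩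
noncomputable def p052_l133 : Lf2 := ⟨nat_lit 1, nat_lit 10, [nat_lit 0, nat_lit 5, nat_lit 5, nat_lit 20], false, nat_lit 0, nat_lit 160, nat_lit 0, nat_lit 336, zbN0,
 nat_lit 0, nat_lit 0, nat_lit 0, nat_lit 0, nat_lit 0, nat_lit 0, nat_lit 0, nat_lit 0, nat_lit 0, nat_lit 0, nat_lit 0, nat_lit 0, nat_lit 0, nat_lit 0, nat_lit 0, nat_lit 0, nat_lit 0, nat_lit 0, [],
 C1.Rw.none, C1.Rw.none,
 zbF0, []⟩
noncomputable def p052_l134 : Lf2 := ⟨nat_lit 0, nat_lit 10, [nat_lit 0, nat_lit 5, nat_lit 5, nat_lit 20], false, nat_lit 0, nat_lit 80, nat_lit 0, nat_lit 260, ⟨nat_lit 153, nat_lit 847, nat_lit 0, nat_lit 8, nat_lit 296, nat_lit 623, nat_lit 28, nat_lit 0, nat_lit 0, nat_lit 0, nat_lit 0, nat_lit 0, nat_lit 43308394, nat_lit 23691606, nat_lit 0, nat_lit 3248251, true, true⟩,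
 nat_lit 5515, nat_lit 0, nat_lit 0, nat_lit 0, nat_lit 3818, nat_lit 1838, nat_lit 450, nat_lit 0, nat_lit 0, nat_lit 127, nat_lit 0, nat_lit 0, nat_lit 0, nat_lit 0, nat_lit 0, nat_lit 644800, nat_lit 0, nat_lit 0, [(nat_lit 15, [(nat_lit 1, nat_lit 337), (nat_lit 2, nat_lit 510)])],
 ⟨p052_k27, nat_lit 0, nat_lit 0, nat_lit 297, nat_lit 0, nat_lit 299158, [nat_lit 2260889400, nat_lit 2284320067, nat_lit 1644024000], [], [nat_lit 26840465702, nat_lit 27193147084, nat_lit 29257395433, nat_lit 29599975767, nat_lit 25670507830, nat_lit 26003444752, nat_lit 27968440733, nat_lit 28304928331], nat_lit 1271250, nat_lit 1271250, nat_lit 1271250, nat_lit 1271250, nat_lit 0, nat_lit 490000, [nat_lit 780000, nat_lit 1435000, nat_lit 1271250], [nat_lit 18, nat_lit 40, nat_lit 40, nat_lit 80, nat_lit 2, nat_lit 226, nat_lit 20, nat_lit 6]⟩, ⟨p052_k26, nat_lit 0, nat_lit 0, nat_lit 686, nat_lit 0, nat_lit 763314, [nat_lit 1219104000,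 nat_lit 1816416000, nat_lit 2150874000], [], [nat_lit 7441055204, nat_lit 7282227960, nat_lit 7734522612, nat_lit 7575571638, nat_lit 5599489379, nat_lit 5441316094, nat_lit 5802504885, nat_lit 5663170444], nat_lit 1100001, nat_lit 1442500, nat_lit 1271250, nat_lit 1271250, nat_lit 0, nat_lit 1836250, [nat_lit 1695000, nat_lit 1271250, nat_lit 1271250], [nat_lit 62, nat_lit 40, nat_lit 40, nat_lit 80, nat_lit 58, nat_lit 456, nat_lit 225, nat_lit 10]⟩,
 ⟨nat_lit 4743, nat_lit 5000, ⟨.ofNat (nat_lit 671427), .ofNat (nat_lit 771425), .ofNat (nat_lit 714280), .ofNat (nat_lit 814277), .ofNat (nat_lit 666121), .ofNat (nat_lit 763700), .ofNat (nat_lit 709094), .ofNat (nat_lit 806671)⟩, ⟨.negSucc (nat_lit 28572), .ofNat (nat_lit 114284), .ofNat (nat_lit 0), .ofNat (nat_lit 157141), .negSucc (nat_lit 20404), .ofNat (nat_lit 118994), .ofNat (nat_lit 0), .ofNat (nat_lit 161970)⟩⟩, [⟨nat_lit 13, nat_lit 86, nat_lit 61, nat_lit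 100, nat_lit 124362550⟩]⟩
noncomputable def p052_l135 : Lf2 := ⟨nat_lit 0, nat_lit 10, [nat_lit 0, nat_lit 5, nat_lit 5, nat_lit 20], false, nat_lit 0, nat_lit 80, nat_lit 0, nat_lit 260, ⟨nat_lit 143, nat_lit 857, nat_lit 0, nat_lit 8, nat_lit 291, nat_lit 685, nat_lit 29, nat_lit 0, nat_lit 0, nat_lit 0, nat_lit 0, nat_lit 0, nat_lit 43862571, nat_lit 23137429, nat_lit 0, nat_lit 3222552, true, true⟩,
 nat_lit 5232, nat_lit 0, nat_lit 0, nat_lit 0, nat_lit 3771, nat_lit 1743, nat_lit 769, nat_lit 0, nat_lit 0, nat_lit 121, nat_lit 0, nat_lit 0, nat_lit 0, nat_lit 0, nat_lit 0, nat_lit 342800, nat_lit 0, nat_lit 0, [(nat_lit 15, [(nat_lit 1, nat_lit 857)])],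
 ⟨p052_k31, nat_lit 0, nat_lit 0, nat_lit 312, nat_lit 0, nat_lit 350878, [nat_lit 2200637400, nat_lit 2911870734, nat_lit 3129228666], [], [nat_lit 26634552556, nat_lit 27077595496, nat_lit 29025652302, nat_lit 29414974602, nat_lit 25535644184, nat_lit 25952888184, nat_lit 27785645278, nat_lit 28153832973], nat_lit 1271250, nat_lit 1271250, nat_lit 1271250, nat_lit 1271250, nat_lit 0, nat_lit 490000, [nat_lit 780000, nat_lit 1435000, nat_lit 1271250], [nat_lit 18, nat_lit 40, nat_lit 40, nat_lit 80, nat_lit 2, nat_lit 226, nat_lit 20, nat_lit 6]⟩, ⟨p052_k26, nat_lit 0, nat_lit 0, nat_lit 774, nat_lit 0, nat_lit 939972, [nat_lit 1139424000, nat_lit 1697696000, nat_lit 2010294000], [], [nat_lit 6886922208, nat_lit 6759412440, nat_lit 7137571906, nat_lit 6988498025, nat_lit 5156926504, nat_lit 5005605234, nat_lit 5323014110, nat_lit 5194176935], nat_lit 1100001, nat_lit 1442500, nat_lit 1271250, nat_lit 1271250, nat_lit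 0, nat_lit 1836250, [nat_lit 1695000, nat_lit 1271250, nat_lit 1271250], [nat_lit 62, nat_lit 40, nat_lit 40, nat_lit 80, nat_lit 58, nat_lit 456, nat_lit 225, nat_lit 10]⟩,
 ⟨nat_lit 4472, nat_lit 4744, ⟨.ofNat (nat_lit 666122), .ofNat (nat_lit 749761), .ofNat (nat_lit 709096), .ofNat (nat_lit 792736), .ofNat (nat_lit 660800), .ofNat (nat_lit 742374), .ofNat (nat_lit 703932), .ofNat (nat_lit 785505)⟩, ⟨.negSucc (nat_lit 20404), .ofNat (nat_lit 118994), .ofNat (nat_lit 0), .ofNat (nat_lit 161970), .negSucc (nat_lit 12423), .ofNat (nat_lit 123532), .ofNat (nat_lit 0), .ofNat (nat_lit 166665)⟩⟩, [⟨nat_lit 13, nat_lit 82, nat_lit 66, nat_lit 100, nat_lit 190501592⟩]⟩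
noncomputable def p052_l136 : Lf2 := ⟨nat_lit 0, nat_lit 10, [nat_lit 0, nat_lit 5, nat_lit 5, nat_lit 20], false, nat_lit 80, nat_lit 160, nat_lit 0, nat_lit 336, ⟨nat_lit 168, nat_lit 832, nat_lit 0, nat_lit 8, nat_lit 295, nat_lit 832, nat_lit 84, nat_lit 0, nat_lit 0, nat_lit 0, nat_lit 0, nat_lit 0, nat_lit 41120020, nat_lit 22719973, nat_lit 3160007, nat_lit 4257301, true, true⟩,
 nat_lit 5892, nat_lit 0, nat_lit 0, nat_lit 0, nat_lit 4079, nat_lit 1964, nat_lit 937, nat_lit 0, nat_lit 0, nat_lit 134, nat_lit 0, nat_lit 0, nat_lit 0, nat_lit 0, nat_lit 0, nat_lit 332800, nat_lit 0, nat_lit 0, [(nat_lit 15, [(nat_lit 1, nat_lit 832)])],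
 ⟨p052_k27, nat_lit 0, nat_lit 0, nat_lit 261, nat_lit 0, nat_lit 368394, [nat_lit 2232182401, nat_lit 3009249067, nat_lit 3269245333], [], [nat_lit 23510595311, nat_lit 24356050016, nat_lit 26523271044, nat_lit 27589122969, nat_lit 23891481080, nat_lit 24701778947, nat_lit 26658737741, nat_lit 27398585361], nat_lit 1271250, nat_lit 1271250, nat_lit 1271250, nat_lit 1271250, nat_lit 490000, nat_lit 1100001, [nat_lit 780000, nat_lit 1435000, nat_lit 1271250], [nat_lit 18, nat_lit 40, nat_lit 40, nat_lit 80, nat_lit 2, nat_lit 249, nat_lit 40, nat_lit 7]⟩, ⟨p052_k26, nat_lit 0, nat_lit 0, nat_lit 774, nat_lit 0, nat_lit 939972, [nat_lit 1338624000, nat_lit 1994496000, nat_lit 2361744000], [], [nat_lit 8339860976, nat_lit 8154901936, nat_lit 8582906004, nat_lit 8412255553, nat_lit 6393893815, nat_lit 6202961108, nat_lit 6670632056, nat_lit 6492050281], nat_lit 1100001, nat_lit 1442500, nat_lit 1271250, nat_lit 1271250,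 nat_lit 0, nat_lit 2373000, [nat_lit 1695000, nat_lit 1271250, nat_lit 1271250], [nat_lit 62, nat_lit 40, nat_lit 40, nat_lit 80, nat_lit 58, nat_lit 483, nat_lit 250, nat_lit 11]⟩,
 ⟨nat_lit 4472, nat_lit 5000, ⟨.ofNat (nat_lit 671427), .ofNat (nat_lit 771425), .ofNat (nat_lit 714270), .ofNat (nat_lit 814263), .ofNat (nat_lit 660800), .ofNat (nat_lit 755968), .ofNat (nat_lit 703919), .ofNat (nat_lit 799081)⟩, ⟨.ofNat (nat_lit 114284), .ofNat (nat_lit 257141), .ofNat (nat_lit 157141), .ofNat (nat_lit 299999), .ofNat (nat_lit 123532), .ofNat (nat_lit 259489), .ofNat (nat_lit 166665), .ofNat (nat_lit 302621)⟩⟩, [⟨nat_lit 13, nat_lit 84, nat_lit 63, nat_lit 100, nat_lit 174661964⟩, ⟨nat_lit 22, nat_lit 71, nat_lit 100, nat_lit 97, nat_lit 4017107⟩]⟩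
noncomputable def b_V_700_400_10_3 : St := ⟨true, nat_lit 1, nat_lit 1, nat_lit 1, nat_lit 80, nat_lit 280, nat_lit 320, nat_lit 160, nat_lit 200, nat_lit 160, nat_lit 384, nat_lit 40, nat_lit 80, nat_lit 0, nat_lit 160, nat_lit 0, nat_lit 384, nat_lit 0, nat_lit 40, nat_lit 0, nat_lit 0, nat_lit 0, nat_lit 0⟩
theorem d_V_700_400_10_3 (h : EB TB.env) : Dead b_V_700_400_10_3 := chkB_sound0 h (T :=
(.spl (nat_lit 2) (nat_lit 240)
(.spl (nat_lit 0) (nat_lit 300)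
(.leaf p052_l123)
(.leaf p052_l124))
(.spl (nat_lit 2) (nat_lit 320)
(.spl (nat_lit 5) (nat_lit 160)
(.spl (nat_lit 0) (nat_lit 300)
(.leaf p052_l125)
(.spl (nat_lit 1) (nat_lit 180)
(.leaf p052_l126)
(.leaf p052_l127)))
(.spl (nat_lit 0) (nat_lit 300)
(.leaf p052_l128)
(.spl (nat_lit 1) (nat_lit 180)
(.leaf p052_l129)
(.trX (nat_lit 19) (nat_lit 100) (nat_lit 52) (nat_lit 80) (nat_lit 372) (.leaf p052_l130)))))
(.trX (nat_lit 22) (nat_lit 82) (nat_lit 76) (nat_lit 100) (nat_lit 336) (.spl (nat_lit 0) (nat_lit 300)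
(.spl (nat_lit 6) (nat_lit 28)
(.spl (nat_lit 0) (nat_lit 290)
(.leaf p052_l131)
(.trX (nat_lit 13) (nat_lit 89) (nat_lit 45) (nat_lit 100) (nat_lit 380) (.leaf p052_l132)))
(.leaf p052_l133))
(.trX (nat_lit 13) (nat_lit 87) (nat_lit 50) (nat_lit 100) (nat_lit 376) (.spl (nat_lit 4) (nat_lit 80)
(.trX (nat_lit 22) (nat_lit 83) (nat_lit 100) (nat_lit 83) (nat_lit 260) (.spl (nat_lit 0) (nat_lit 310)
(.leaf p052_l134)
(.trX (nat_lit 13) (nat_lit 84) (nat_lit 55) (nat_lit 100) (nat_lit 368) (.leaf p052_l135))))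
(.leaf p052_l136)))))))) (by decide +kernel)
noncomputable def p052_l137 : Lf2 := ⟨nat_lit 0, nat_lit 7, [nat_lit 80, nat_lit 5, nat_lit 5, nat_lit 20], false, nat_lit 160, nat_lit 300, nat_lit 0, nat_lit 384, ⟨nat_lit 0, nat_lit 0, nat_lit 1000, nat_lit 4, nat_lit 191, nat_lit 1000, nat_lit 162, nat_lit 1000, nat_lit 3701, nat_lit 228, nat_lit 5073, nat_lit 222, nat_lit 45851964, nat_lit 0, nat_lit 0, nat_lit 4509605, false, true⟩,
 nat_lit 0, nat_lit 6162, nat_lit 0, nat_lit 0, nat_lit 3921, nat_lit 0, nat_lit 0, nat_lit 0, nat_lit 0, nat_lit 0, nat_lit 0, nat_lit 0, nat_lit 0, nat_lit 0, nat_lit 154, nat_lit 944200, nat_lit 0, nat_lit 0, [(nat_lit 12, [(nat_lit 5, nat_lit 93), (nat_lit 6, nat_lit 907)])],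
 ⟨p052_k32, nat_lit 0, nat_lit 0, nat_lit 136, nat_lit 0, nat_lit 248100, [nat_lit 3736100201, nat_lit 613362199], [], [nat_lit 14717847042, nat_lit 16044351946, nat_lit 20618786376, nat_lit 18799923636, nat_lit 20631991781, nat_lit 21625614957, nat_lit 22700954014, nat_lit 23564098092], nat_lit 1271250, nat_lit 1271250, nat_lit 1100001, nat_lit 1785000, nat_lit 1271250, nat_lit 1271250, [nat_lit 780000, nat_lit 1762500], [nat_lit 74, nat_lit 40, nat_lit 40, nat_lit 80, nat_lit 43, nat_lit 373, nat_lit 150, nat_lit 11]⟩, ⟨p052_k42, nat_lit 0, nat_lit 0, nat_lit 625, nat_lit 0, nat_lit 564811, [nat_lit 0, nat_lit 0], [], [nat_lit 0, nat_lit 0, nat_lit 0, nat_lit 0, nat_lit 0, nat_lit 0, nat_lit 0, nat_lit 0], nat_lit 1100001, nat_lit 1442500, nat_lit 1271250, nat_lit 1271250, nat_lit 0, nat_lit 2712000, [nat_lit 1695000, nat_lit 1271250], [nat_lit 121, nat_lit 40, nat_lit 40, nat_lit 80, nat_lit 28, nat_lit 456,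 nat_lit 225, nat_lit 11]⟩,
 ⟨nat_lit 5000, nat_lit 5478, ⟨.ofNat (nat_lit 382351), .ofNat (nat_lit 532217), .ofNat (nat_lit 425065), .ofNat (nat_lit 574920), .ofNat (nat_lit 385713), .ofNat (nat_lit 528570), .ofNat (nat_lit 428570), .ofNat (nat_lit 571415)⟩, ⟨.ofNat (nat_lit 254209), .ofNat (nat_lit 516475), .ofNat (nat_lit 296923), .ofNat (nat_lit 559189), .ofNat (nat_lit 257141), .ofNat (nat_lit 507141), .ofNat (nat_lit 299999), .ofNat (nat_lit 549998)⟩⟩, [⟨nat_lit 4, nat_lit 100, nat_lit 94, nat_lit 75, nat_lit 164526994⟩]⟩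
noncomputable def p052_l138 : Lf2 := ⟨nat_lit 0, nat_lit 7, [nat_lit 80, nat_lit 5, nat_lit 5, nat_lit 20], false, nat_lit 160, nat_lit 300, nat_lit 0, nat_lit 384, ⟨nat_lit 0, nat_lit 1000, nat_lit 0, nat_lit 6, nat_lit 250, nat_lit 1000, nat_lit 162, nat_lit 0, nat_lit 0, nat_lit 0, nat_lit 0, nat_lit 0, nat_lit 41101045, nat_lit 17248009, nat_lit 8650946, nat_lit 4908022, false, true⟩,
 nat_lit 0, nat_lit 6618, nat_lit 0, nat_lit 0, nat_lit 4211, nat_lit 0, nat_lit 0, nat_lit 0, nat_lit 0, nat_lit 0, nat_lit 0, nat_lit 0, nat_lit 0, nat_lit 0, nat_lit 0, nat_lit 1000000, nat_lit 0, nat_lit 0, [(nat_lit 12, [(nat_lit 2, nat_lit 1000)])],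
 ⟨p052_k29, nat_lit 0, nat_lit 0, nat_lit 148, nat_lit 0, nat_lit 248100, [nat_lit 2335200001, nat_lit 1946400000, nat_lit 508400000], [], [nat_lit 19310349001, nat_lit 20349386765, nat_lit 22903504585, nat_lit 23763400385, nat_lit 23800536445, nat_lit 24585661457, nat_lit 26492692335, nat_lit 27146513705], nat_lit 1271250, nat_lit 1271250, nat_lit 1271250, nat_lit 1271250, nat_lit 1100001, nat_lit 2298750, [nat_lit 780000, nat_lit 1435000, nat_lit 1271250], [nat_lit 18, nat_lit 40, nat_lit 40, nat_lit 80, nat_lit 2, nat_lit 289, nat_lit 75, nat_lit 8]⟩, ⟨p052_k35, nat_lit 0, nat_lit 0, nat_lit 616, nat_lit 0, nat_lit 564811, [nat_lit 0, nat_lit 0, nat_lit 0], [], [nat_lit 0, nat_lit 0, nat_lit 0, nat_lit 0, nat_lit 0, nat_lit 0, nat_lit 0, nat_lit 0], nat_lit 1100001, nat_lit 1442500, nat_lit 1271250, nat_lit 1271250, nat_lit 0, nat_lit 2712000, [nat_lit 1695000, nat_lit 1271250, nat_lit 1271250], [nat_lit 62,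 nat_lit 40, nat_lit 40, nat_lit 80, nat_lit 58, nat_lit 483, nat_lit 250, nat_lit 11]⟩,
 ⟨nat_lit 5000, nat_lit 5478, ⟨.ofNat (nat_lit 532217), .ofNat (nat_lit 682065), .ofNat (nat_lit 574920), .ofNat (nat_lit 724760), .ofNat (nat_lit 528570), .ofNat (nat_lit 671409), .ofNat (nat_lit 571415), .ofNat (nat_lit 714246)⟩, ⟨.ofNat (nat_lit 254209), .ofNat (nat_lit 516475), .ofNat (nat_lit 296923), .ofNat (nat_lit 559189), .ofNat (nat_lit 257141), .ofNat (nat_lit 507141), .ofNat (nat_lit 299999), .ofNat (nat_lit 549998)⟩⟩, [⟨nat_lit 4, nat_lit 100, nat_lit 94, nat_lit 75, nat_lit 116282247⟩]⟩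
noncomputable def p052_l139 : Lf2 := ⟨nat_lit 0, nat_lit 7, [nat_lit 80, nat_lit 5, nat_lit 5, nat_lit 20], false, nat_lit 160, nat_lit 276, nat_lit 16, nat_lit 368, ⟨nat_lit 195, nat_lit 805, nat_lit 0, nat_lit 8, nat_lit 303, nat_lit 805, nat_lit 149, nat_lit 0, nat_lit 0, nat_lit 0, nat_lit 0, nat_lit 0, nat_lit 37574345, nat_lit 22272908, nat_lit 7152747, nat_lit 4975395, true, true⟩,
 nat_lit 6890, nat_lit 0, nat_lit 0, nat_lit 0, nat_lit 4384, nat_lit 2296, nat_lit 0, nat_lit 0, nat_lit 0, nat_lit 150, nat_lit 0, nat_lit 0, nat_lit 0, nat_lit 0, nat_lit 0, nat_lit 805000, nat_lit 0, nat_lit 0, [(nat_lit 12, [(nat_lit 2, nat_lit 805)])],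
 ⟨p052_k29, nat_lit 0, nat_lit 0, nat_lit 170, nat_lit 0, nat_lit 233463, [nat_lit 2519826001, nat_lit 2785602000, nat_lit 1963022000], [], [nat_lit 23856834881, nat_lit 24665297681, nat_lit 27100605621, nat_lit 27823392635, nat_lit 26461791179, nat_lit 27161030754, nat_lit 29306328110, nat_lit 29941494306], nat_lit 1271250, nat_lit 1271250, nat_lit 1271250, nat_lit 1271250, nat_lit 1100001, nat_lit 2093250, [nat_lit 780000, nat_lit 1435000, nat_lit 1271250], [nat_lit 18, nat_lit 40, nat_lit 40, nat_lit 80, nat_lit 2, nat_lit 289, nat_lit 75, nat_lit 8]⟩, ⟨p052_k35, nat_lit 0, nat_lit 0, nat_lit 571, nat_lit 0, nat_lit 519985, [nat_lit 1553760000, nat_lit 2315040000, nat_lit 2741310000], [], [nat_lit 9257418211, nat_lit 9095492216, nat_lit 9721470559, nat_lit 9517377099, nat_lit 7578422706, nat_lit 7517353760, nat_lit 8141023397, nat_lit 7961089068], nat_lit 1100001, nat_lit 1442500, nat_lit 1271250, nat_lit 1271250,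 nat_lit 88400, nat_lit 2627200, [nat_lit 1695000, nat_lit 1271250, nat_lit 1271250], [nat_lit 62, nat_lit 40, nat_lit 40, nat_lit 80, nat_lit 58, nat_lit 483, nat_lit 250, nat_lit 11]⟩,
 ⟨nat_lit 5000, nat_lit 5478, ⟨.ofNat (nat_lit 682065), .ofNat (nat_lit 801938), .ofNat (nat_lit 724760), .ofNat (nat_lit 844633), .ofNat (nat_lit 671409), .ofNat (nat_lit 785675), .ofNat (nat_lit 714246), .ofNat (nat_lit 828512)⟩, ⟨.ofNat (nat_lit 254209), .ofNat (nat_lit 471515), .ofNat (nat_lit 275566), .ofNat (nat_lit 492872), .ofNat (nat_lit 257141), .ofNat (nat_lit 464284), .ofNat (nat_lit 278570), .ofNat (nat_lit 485713)⟩⟩, [⟨nat_lit 13, nat_lit 90, nat_lit 54, nat_lit 100, nat_lit 125714789⟩, ⟨nat_lit 16, nat_lit 92, nat_lit 100, nat_lit 68, nat_lit 182177080⟩, ⟨nat_lit 19, nat_lit 100, nat_lit 68, nat_lit 66, nat_lit 25397679⟩]⟩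
noncomputable def p052_l140 : Lf2 := ⟨nat_lit 0, nat_lit 7, [nat_lit 80, nat_lit 5, nat_lit 5, nat_lit 20], false, nat_lit 160, nat_lit 300, nat_lit 16, nat_lit 384, ⟨nat_lit 198, nat_lit 802, nat_lit 0, nat_lit 8, nat_lit 303, nat_lit 802, nat_lit 166, nat_lit 0, nat_lit 0, nat_lit 0, nat_lit 0, nat_lit 0, nat_lit 36756382, nat_lit 21891369, nat_lit 8352249, nat_lit 5126231, true, true⟩,
 nat_lit 6747, nat_lit 0, nat_lit 0, nat_lit 0, nat_lit 4293, nat_lit 2249, nat_lit 0, nat_lit 0, nat_lit 0, nat_lit 158, nat_lit 0, nat_lit 0, nat_lit 0, nat_lit 0, nat_lit 0, nat_lit 802000, nat_lit 0, nat_lit 0, [(nat_lit 12, [(nat_lit 2, nat_lit 802)])],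
 ⟨p052_k29, nat_lit 0, nat_lit 0, nat_lit 137, nat_lit 0, nat_lit 132879, [nat_lit 2522666401, nat_lit 2798512800, nat_lit 1985400800], [], [nat_lit 24034404461, nat_lit 24836956811, nat_lit 27237089360, nat_lit 27955353529, nat_lit 27399398243, nat_lit 28056518022, nat_lit 30064081825, nat_lit 30644101617], nat_lit 1271250, nat_lit 1271250, nat_lit 1271250, nat_lit 1271250, nat_lit 1100001, nat_lit 2298750, [nat_lit 780000, nat_lit 1435000, nat_lit 1271250], [nat_lit 18, nat_lit 40, nat_lit 40, nat_lit 80, nat_lit 2, nat_lit 289, nat_lit 75, nat_lit 8]⟩, ⟨p052_k35, nat_lit 0, nat_lit 0, nat_lit 463, nat_lit 0, nat_lit 302505, [nat_lit 1577664000, nat_lit 2350656000, nat_lit 2783484000], [], [nat_lit 9075958181, nat_lit 8969214427, nat_lit 9824591122, nat_lit 9658309617, nat_lit 7952853545, nat_lit 7755498413, nat_lit 8447847629, nat_lit 8265320969], nat_lit 1100001, nat_lit 1442500, nat_lit 1271250, nat_lit 1271250,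 nat_lit 88400, nat_lit 2742600, [nat_lit 1695000, nat_lit 1271250, nat_lit 1271250], [nat_lit 62, nat_lit 40, nat_lit 40, nat_lit 80, nat_lit 58, nat_lit 483, nat_lit 250, nat_lit 11]⟩,
 ⟨nat_lit 5000, nat_lit 5478, ⟨.ofNat (nat_lit 682065), .ofNat (nat_lit 801938), .ofNat (nat_lit 724760), .ofNat (nat_lit 844633), .ofNat (nat_lit 671409), .ofNat (nat_lit 785675), .ofNat (nat_lit 714246), .ofNat (nat_lit 828512)⟩, ⟨.ofNat (nat_lit 275566), .ofNat (nat_lit 537832), .ofNat (nat_lit 296923), .ofNat (nat_lit 559189), .ofNat (nat_lit 278570), .ofNat (nat_lit 528570), .ofNat (nat_lit 299999), .ofNat (nat_lit 549998)⟩⟩, [⟨nat_lit 13, nat_lit 90, nat_lit 54, nat_lit 100, nat_lit 115148385⟩, ⟨nat_lit 4, nat_lit 100, nat_lit 97, nat_lit 82, nat_lit 146253753⟩, ⟨nat_lit 7, nat_lit 57, nat_lit 100, nat_lit 76, nat_lit 28409363⟩]⟩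
noncomputable def p052_l141 : Lf2 := ⟨nat_lit 1, nat_lit 10, [nat_lit 0, nat_lit 5, nat_lit 5, nat_lit 20], false, nat_lit 160, nat_lit 300, nat_lit 0, nat_lit 384, zbN0,
 nat_lit 0, nat_lit 0, nat_lit 0, nat_lit 0, nat_lit 0, nat_lit 0, nat_lit 0, nat_lit 0, nat_lit 0, nat_lit 0, nat_lit 0, nat_lit 0, nat_lit 0, nat_lit 0, nat_lit 0, nat_lit 0, nat_lit 0, nat_lit 0, [],
 C1.Rw.none, C1.Rw.none,
 zbF0, []⟩
noncomputable def p052_l142 : Lf2 := ⟨nat_lit 0, nat_lit 10, [nat_lit 0, nat_lit 5, nat_lit 5, nat_lit 20], false, nat_lit 160, nat_lit 280, nat_lit 0, nat_lit 384, ⟨nat_lit 0, nat_lit 17, nat_lit 983, nat_lit 4, nat_lit 191, nat_lit 1000, nat_lit 154, nat_lit 983, nat_lit 24746, nat_lit 252, nat_lit 3024, nat_lit 223, nat_lit 46454971, nat_lit 12022230, nat_lit 8522799, nat_lit 4423937, false, true⟩,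
 nat_lit 0, nat_lit 5175, nat_lit 0, nat_lit 0, nat_lit 3582, nat_lit 0, nat_lit 0, nat_lit 0, nat_lit 0, nat_lit 0, nat_lit 0, nat_lit 0, nat_lit 0, nat_lit 0, nat_lit 131, nat_lit 594400, nat_lit 0, nat_lit 0, [(nat_lit 15, [(nat_lit 1, nat_lit 17), (nat_lit 5, nat_lit 659), (nat_lit 6, nat_lit 324)])],
 ⟨p052_k27, nat_lit 0, nat_lit 0, nat_lit 188, nat_lit 0, nat_lit 368394, [nat_lit 2790580200, nat_lit 1281375534, nat_lit 58762066], [], [nat_lit 15383086848, nat_lit 16653038416, nat_lit 18086150828, nat_lit 19266933560, nat_lit 20120336400, nat_lit 21348151008, nat_lit 23380200464, nat_lit 23536419884], nat_lit 1271250, nat_lit 1271250, nat_lit 1100001, nat_lit 1785000, nat_lit 1100001, nat_lit 2127500, [nat_lit 780000, nat_lit 1435000, nat_lit 1271250], [nat_lit 18, nat_lit 40, nat_lit 40, nat_lit 80, nat_lit 2, nat_lit 373, nat_lit 150, nat_lit 11]⟩, ⟨p052_k26, nat_lit 0, nat_lit 0, nat_lit 824, nat_lit 0,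 nat_lit 939972, [nat_lit 0, nat_lit 0, nat_lit 0], [], [nat_lit 0, nat_lit 0, nat_lit 0, nat_lit 0, nat_lit 0, nat_lit 0, nat_lit 0, nat_lit 0], nat_lit 1100001, nat_lit 1442500, nat_lit 1271250, nat_lit 1271250, nat_lit 0, nat_lit 2712000, [nat_lit 1695000, nat_lit 1271250, nat_lit 1271250], [nat_lit 62, nat_lit 40, nat_lit 40, nat_lit 80, nat_lit 58, nat_lit 456, nat_lit 225, nat_lit 11]⟩,
 ⟨nat_lit 4472, nat_lit 5000, ⟨.ofNat (nat_lit 385713), .ofNat (nat_lit 528570), .ofNat (nat_lit 428570), .ofNat (nat_lit 571423), .ofNat (nat_lit 388887), .ofNat (nat_lit 524844), .ofNat (nat_lit 432020), .ofNat (nat_lit 567973)⟩, ⟨.ofNat (nat_lit 257141), .ofNat (nat_lit 471427), .ofNat (nat_lit 299999), .ofNat (nat_lit 514284), .ofNat (nat_lit 259489), .ofNat (nat_lit 463423), .ofNat (nat_lit 302621), .ofNat (nat_lit 506556)⟩⟩, [⟨nat_lit 16, nat_lit 85, nat_lit 100, nat_lit 73, nat_lit 293749151⟩]⟩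
noncomputable def p052_l143 : Lf2 := ⟨nat_lit 0, nat_lit 10, [nat_lit 0, nat_lit 5, nat_lit 5, nat_lit 20], false, nat_lit 160, nat_lit 280, nat_lit 0, nat_lit 384, ⟨nat_lit 0, nat_lit 1000, nat_lit 0, nat_lit 6, nat_lit 248, nat_lit 1000, nat_lit 154, nat_lit 0, nat_lit 0, nat_lit 0, nat_lit 0, nat_lit 0, nat_lit 41746247, nat_lit 17182706, nat_lit 8071047, nat_lit 4823019, false, true⟩,
 nat_lit 0, nat_lit 5574, nat_lit 0, nat_lit 0, nat_lit 3858, nat_lit 0, nat_lit 290, nat_lit 0, nat_lit 0, nat_lit 0, nat_lit 0, nat_lit 0, nat_lit 0, nat_lit 0, nat_lit 0, nat_lit 737200, nat_lit 0, nat_lit 0, [(nat_lit 15, [(nat_lit 1, nat_lit 438), (nat_lit 2, nat_lit 562)])],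
 ⟨p052_k27, nat_lit 0, nat_lit 0, nat_lit 169, nat_lit 0, nat_lit 299158, [nat_lit 2072690801, nat_lit 1620407601, nat_lit 622581600], [], [nat_lit 19884365344, nat_lit 20384870940, nat_lit 23194801704, nat_lit 23611370904, nat_lit 23336421500, nat_lit 23735631242, nat_lit 26184406554, nat_lit 26559554622], nat_lit 1271250, nat_lit 1271250, nat_lit 1271250, nat_lit 1271250, nat_lit 1100001, nat_lit 2127500, [nat_lit 780000, nat_lit 1435000, nat_lit 1271250], [nat_lit 18, nat_lit 40, nat_lit 40, nat_lit 80, nat_lit 2, nat_lit 289, nat_lit 75, nat_lit 8]⟩, ⟨p052_k26, nat_lit 0, nat_lit 0, nat_lit 711, nat_lit 0, nat_lit 763314, [nat_lit 0, nat_lit 0, nat_lit 0], [], [nat_lit 0, nat_lit 0, nat_lit 0, nat_lit 0, nat_lit 0, nat_lit 0, nat_lit 0, nat_lit 0], nat_lit 1100001, nat_lit 1442500, nat_lit 1271250, nat_lit 1271250, nat_lit 0, nat_lit 2712000, [nat_lit 1695000, nat_lit 1271250, nat_lit 1271250], [nat_lit 62,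 nat_lit 40, nat_lit 40, nat_lit 80, nat_lit 58, nat_lit 483, nat_lit 250, nat_lit 11]⟩,
 ⟨nat_lit 4743, nat_lit 5000, ⟨.ofNat (nat_lit 528570), .ofNat (nat_lit 671427), .ofNat (nat_lit 571426), .ofNat (nat_lit 714280), .ofNat (nat_lit 526722), .ofNat (nat_lit 666121), .ofNat (nat_lit 569697), .ofNat (nat_lit 709094)⟩, ⟨.ofNat (nat_lit 257141), .ofNat (nat_lit 471427), .ofNat (nat_lit 299999), .ofNat (nat_lit 514284), .ofNat (nat_lit 258394), .ofNat (nat_lit 467493), .ofNat (nat_lit 301370), .ofNat (nat_lit 510469)⟩⟩, [⟨nat_lit 4, nat_lit 100, nat_lit 88, nat_lit 74, nat_lit 140205018⟩]⟩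
noncomputable def p052_l144 : Lf2 := ⟨nat_lit 0, nat_lit 10, [nat_lit 0, nat_lit 5, nat_lit 5, nat_lit 20], false, nat_lit 160, nat_lit 268, nat_lit 0, nat_lit 384, ⟨nat_lit 0, nat_lit 1000, nat_lit 0, nat_lit 6, nat_lit 246, nat_lit 1000, nat_lit 149, nat_lit 0, nat_lit 0, nat_lit 0, nat_lit 0, nat_lit 0, nat_lit 42137764, nat_lit 17124292, nat_lit 7737944, nat_lit 4770615, false, true⟩,
 nat_lit 0, nat_lit 5531, nat_lit 0, nat_lit 0, nat_lit 3987, nat_lit 0, nat_lit 661, nat_lit 0, nat_lit 0, nat_lit 0, nat_lit 0, nat_lit 0, nat_lit 0, nat_lit 0, nat_lit 0, nat_lit 400000, nat_lit 0, nat_lit 0, [(nat_lit 15, [(nat_lit 1, nat_lit 1000)])],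
 ⟨p052_k31, nat_lit 0, nat_lit 0, nat_lit 190, nat_lit 0, nat_lit 350878, [nat_lit 2020200000, nat_lit 2354866667, nat_lit 2328333333], [], [nat_lit 20517332166, nat_lit 21031618700, nat_lit 23842236711, nat_lit 24270519232, nat_lit 23573476549, nat_lit 23994457384, nat_lit 26288956184, nat_lit 26641577852], nat_lit 1271250, nat_lit 1271250, nat_lit 1271250, nat_lit 1271250, nat_lit 1100001, nat_lit 2024750, [nat_lit 780000, nat_lit 1435000, nat_lit 1271250], [nat_lit 18, nat_lit 40, nat_lit 40, nat_lit 80, nat_lit 2, nat_lit 289, nat_lit 75, nat_lit 8]⟩, ⟨p052_k26, nat_lit 0, nat_lit 0, nat_lit 793, nat_lit 0, nat_lit 939972, [nat_lit 0, nat_lit 0, nat_lit 0], [], [nat_lit 0, nat_lit 0, nat_lit 0, nat_lit 0, nat_lit 0, nat_lit 0, nat_lit 0, nat_lit 0], nat_lit 1100001, nat_lit 1442500, nat_lit 1271250, nat_lit 1271250, nat_lit 0, nat_lit 2712000, [nat_lit 1695000, nat_lit 1271250, nat_lit 1271250], [nat_lit 62,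 nat_lit 40, nat_lit 40, nat_lit 80, nat_lit 58, nat_lit 483, nat_lit 250, nat_lit 11]⟩,
 ⟨nat_lit 4472, nat_lit 4744, ⟨.ofNat (nat_lit 526722), .ofNat (nat_lit 666122), .ofNat (nat_lit 569698), .ofNat (nat_lit 709096), .ofNat (nat_lit 524844), .ofNat (nat_lit 660800), .ofNat (nat_lit 567976), .ofNat (nat_lit 703932)⟩, ⟨.ofNat (nat_lit 258394), .ofNat (nat_lit 446583), .ofNat (nat_lit 301370), .ofNat (nat_lit 489559), .ofNat (nat_lit 259489), .ofNat (nat_lit 443030), .ofNat (nat_lit 302621), .ofNat (nat_lit 486162)⟩⟩, [⟨nat_lit 16, nat_lit 83, nat_lit 100, nat_lit 73, nat_lit 139851615⟩]⟩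
noncomputable def p052_l145 : Lf2 := ⟨nat_lit 0, nat_lit 5, [nat_lit 4, nat_lit 5, nat_lit 5, nat_lit 20], false, nat_lit 160, nat_lit 280, nat_lit 16, nat_lit 384, ⟨nat_lit 162, nat_lit 838, nat_lit 0, nat_lit 8, nat_lit 296, nat_lit 838, nat_lit 154, nat_lit 0, nat_lit 0, nat_lit 0, nat_lit 0, nat_lit 0, nat_lit 37815723, nat_lit 21610144, nat_lit 7574133, nat_lit 5007827, true, true⟩,
 nat_lit 5465, nat_lit 0, nat_lit 0, nat_lit 0, nat_lit 3783, nat_lit 1821, nat_lit 839, nat_lit 0, nat_lit 0, nat_lit 117, nat_lit 0, nat_lit 0, nat_lit 0, nat_lit 0, nat_lit 0, nat_lit 335200, nat_lit 0, nat_lit 0, [(nat_lit 15, [(nat_lit 1, nat_lit 838)])],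
 ⟨p052_k43, nat_lit 0, nat_lit 0, nat_lit 141, nat_lit 0, nat_lit 250663, [nat_lit 2224611600, nat_lit 2973242267], [], [nat_lit 23776230744, nat_lit 23983094094, nat_lit 26481642071, nat_lit 26671969747, nat_lit 26593252352, nat_lit 26779701536, nat_lit 29055879547, nat_lit 29215967746], nat_lit 1271250, nat_lit 1271250, nat_lit 1271250, nat_lit 1271250, nat_lit 1100001, nat_lit 2127500, [nat_lit 780000, nat_lit 1435000], [nat_lit 49, nat_lit 40, nat_lit 40, nat_lit 80, nat_lit 16, nat_lit 289, nat_lit 75, nat_lit 9]⟩, ⟨p052_k44, nat_lit 0, nat_lit 0, nat_lit 615, nat_lit 0, nat_lit 625517, [nat_lit 1290816000, nat_lit 1923264000, nat_lit 2277396000], [], [nat_lit 7852400494, nat_lit 7729089980, nat_lit 8177303344, nat_lit 8024675480, nat_lit 6538253929, nat_lit 6379580276, nat_lit 6859168855, nat_lit 6688305206], nat_lit 1100001, nat_lit 1442500, nat_lit 1271250, nat_lit 1271250, nat_lit 88400, nat_lit 2742600,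 [nat_lit 1695000, nat_lit 1271250, nat_lit 1271250], [nat_lit 62, nat_lit 40, nat_lit 40, nat_lit 80, nat_lit 58, nat_lit 483, nat_lit 250, nat_lit 11]⟩,
 ⟨nat_lit 4873, nat_lit 5000, ⟨.ofNat (nat_lit 671427), .ofNat (nat_lit 771426), .ofNat (nat_lit 714283), .ofNat (nat_lit 814283), .ofNat (nat_lit 668775), .ofNat (nat_lit 767562), .ofNat (nat_lit 711686), .ofNat (nat_lit 810473)⟩, ⟨.ofNat (nat_lit 257141), .ofNat (nat_lit 471427), .ofNat (nat_lit 299999), .ofNat (nat_lit 514284), .ofNat (nat_lit 257786), .ofNat (nat_lit 469475), .ofNat (nat_lit 300699), .ofNat (nat_lit 512387)⟩⟩, [⟨nat_lit 13, nat_lit 87, nat_lit 50, nat_lit 100, nat_lit 144620301⟩, ⟨nat_lit 4, nat_lit 100, nat_lit 89, nat_lit 74, nat_lit 179381328⟩, ⟨nat_lit 19, nat_lit 100, nat_lit 63, nat_lit 72, nat_lit 20914804⟩]⟩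
noncomputable def p052_l146 : Lf2 := ⟨nat_lit 0, nat_lit 5, [nat_lit 4, nat_lit 5, nat_lit 5, nat_lit 20], false, nat_lit 160, nat_lit 276, nat_lit 16, nat_lit 384, ⟨nat_lit 159, nat_lit 841, nat_lit 0, nat_lit 8, nat_lit 294, nat_lit 841, nat_lit 153, nat_lit 0, nat_lit 0, nat_lit 0, nat_lit 0, nat_lit 0, nat_lit 38108711, nat_lit 21402967, nat_lit 7488322, nat_lit 4986146, true, true⟩,
 nat_lit 5368, nat_lit 0, nat_lit 0, nat_lit 0, nat_lit 3792, nat_lit 1789, nat_lit 673, nat_lit 0, nat_lit 0, nat_lit 116, nat_lit 0, nat_lit 0, nat_lit 0, nat_lit 0, nat_lit 0, nat_lit 336400, nat_lit 0, nat_lit 0, [(nat_lit 15, [(nat_lit 1, nat_lit 841)])],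
 ⟨p052_k45, nat_lit 0, nat_lit 0, nat_lit 147, nat_lit 0, nat_lit 275990, [nat_lit 2220826200, nat_lit 2961790867], [], [nat_lit 23962311640, nat_lit 24169345540, nat_lit 26440315731, nat_lit 26632011495, nat_lit 26627615439, nat_lit 26815846363, nat_lit 28900820797, nat_lit 29064296205], nat_lit 1271250, nat_lit 1271250, nat_lit 1271250, nat_lit 1271250, nat_lit 1100001, nat_lit 2093250, [nat_lit 780000, nat_lit 1435000], [nat_lit 49, nat_lit 40, nat_lit 40, nat_lit 80, nat_lit 16, nat_lit 289, nat_lit 75, nat_lit 9]⟩, ⟨p052_k44, nat_lit 0, nat_lit 0, nat_lit 648, nat_lit 0, nat_lit 705487, [nat_lit 1266912000, nat_lit 1887648000, nat_lit 2235222000], [], [nat_lit 7703765752, nat_lit 7582515383, nat_lit 7996542989, nat_lit 7848632965, nat_lit 6414344874, nat_lit 6258357145, nat_lit 6693099795, nat_lit 6528340025], nat_lit 1100001, nat_lit 1442500, nat_lit 1271250, nat_lit 1271250, nat_lit 88400, nat_lit 2742600,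 [nat_lit 1695000, nat_lit 1271250, nat_lit 1271250], [nat_lit 62, nat_lit 40, nat_lit 40, nat_lit 80, nat_lit 58, nat_lit 483, nat_lit 250, nat_lit 11]⟩,
 ⟨nat_lit 4743, nat_lit 4874, ⟨.ofNat (nat_lit 668775), .ofNat (nat_lit 760506), .ofNat (nat_lit 711686), .ofNat (nat_lit 803417), .ofNat (nat_lit 666122), .ofNat (nat_lit 756731), .ofNat (nat_lit 709097), .ofNat (nat_lit 799706)⟩, ⟨.ofNat (nat_lit 257786), .ofNat (nat_lit 462418), .ofNat (nat_lit 300699), .ofNat (nat_lit 505331), .ofNat (nat_lit 258394), .ofNat (nat_lit 460523), .ofNat (nat_lit 301370), .ofNat (nat_lit 503499)⟩⟩, [⟨nat_lit 13, nat_lit 85, nat_lit 53, nat_lit 100, nat_lit 151042432⟩, ⟨nat_lit 16, nat_lit 87, nat_lit 100, nat_lit 73, nat_lit 186253076⟩, ⟨nat_lit 7, nat_lit 63, nat_lit 100, nat_lit 72, nat_lit 20306406⟩]⟩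
noncomputable def p052_l147 : Lf2 := ⟨nat_lit 0, nat_lit 5, [nat_lit 4, nat_lit 5, nat_lit 5, nat_lit 20], false, nat_lit 160, nat_lit 268, nat_lit 16, nat_lit 384, ⟨nat_lit 0, nat_lit 1000, nat_lit 0, nat_lit 8, nat_lit 282, nat_lit 1000, nat_lit 149, nat_lit 0, nat_lit 0, nat_lit 0, nat_lit 0, nat_lit 0, nat_lit 39204210, nat_lit 20403745, nat_lit 7392045, nat_lit 4923095, false, true⟩,
 nat_lit 0, nat_lit 5445, nat_lit 0, nat_lit 0, nat_lit 3925, nat_lit 0, nat_lit 482, nat_lit 0, nat_lit 0, nat_lit 0, nat_lit 0, nat_lit 0, nat_lit 0, nat_lit 0, nat_lit 0, nat_lit 400000, nat_lit 0, nat_lit 0, [(nat_lit 15, [(nat_lit 1, nat_lit 1000)])],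
 ⟨p052_k46, nat_lit 0, nat_lit 0, nat_lit 153, nat_lit 0, nat_lit 312441, [nat_lit 2020200000, nat_lit 2354866667], [], [nat_lit 23983452167, nat_lit 24408460800, nat_lit 25694052145, nat_lit 26081062111, nat_lit 26429056790, nat_lit 26780048901, nat_lit 28033253358, nat_lit 28450612632], nat_lit 1271250, nat_lit 1271250, nat_lit 1271250, nat_lit 1271250, nat_lit 1100001, nat_lit 2024750, [nat_lit 780000, nat_lit 1435000], [nat_lit 49, nat_lit 40, nat_lit 40, nat_lit 80, nat_lit 16, nat_lit 289, nat_lit 75, nat_lit 9]⟩, ⟨p052_k44, nat_lit 0, nat_lit 0, nat_lit 695, nat_lit 0, nat_lit 817807, [nat_lit 0, nat_lit 0, nat_lit 0], [], [nat_lit 0, nat_lit 0, nat_lit 0, nat_lit 0, nat_lit 0, nat_lit 0, nat_lit 0, nat_lit 0], nat_lit 1100001, nat_lit 1271250, nat_lit 1271250, nat_lit 1271250, nat_lit 88400, nat_lit 2742600, [nat_lit 1695000, nat_lit 1271250, nat_lit 1271250], [nat_lit 62, nat_lit 40, nat_lit 40, nat_lit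 80, nat_lit 58, nat_lit 483, nat_lit 250, nat_lit 11]⟩,
 ⟨nat_lit 4472, nat_lit 4744, ⟨.ofNat (nat_lit 666122), .ofNat (nat_lit 728851), .ofNat (nat_lit 687610), .ofNat (nat_lit 750339), .ofNat (nat_lit 660800), .ofNat (nat_lit 721980), .ofNat (nat_lit 682366), .ofNat (nat_lit 743547)⟩, ⟨.ofNat (nat_lit 258394), .ofNat (nat_lit 446583), .ofNat (nat_lit 301370), .ofNat (nat_lit 489559), .ofNat (nat_lit 259489), .ofNat (nat_lit 443030), .ofNat (nat_lit 302621), .ofNat (nat_lit 486162)⟩⟩, [⟨nat_lit 13, nat_lit 83, nat_lit 70, nat_lit 100, nat_lit 232281911⟩, ⟨nat_lit 4, nat_lit 100, nat_lit 83, nat_lit 73, nat_lit 148332346⟩]⟩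
noncomputable def p052_l148 : Lf2 := ⟨nat_lit 0, nat_lit 5, [nat_lit 4, nat_lit 5, nat_lit 5, nat_lit 20], false, nat_lit 160, nat_lit 268, nat_lit 16, nat_lit 372, ⟨nat_lit 263, nat_lit 737, nat_lit 0, nat_lit 8, nat_lit 295, nat_lit 737, nat_lit 149, nat_lit 0, nat_lit 0, nat_lit 0, nat_lit 0, nat_lit 0, nat_lit 38179773, nat_lit 21559917, nat_lit 7260310, nat_lit 4960164, true, true⟩,
 nat_lit 6092, nat_lit 0, nat_lit 0, nat_lit 0, nat_lit 4391, nat_lit 2316, nat_lit 447, nat_lit 0, nat_lit 0, nat_lit 773, nat_lit 0, nat_lit 0, nat_lit 0, nat_lit 0, nat_lit 0, nat_lit 294800, nat_lit 0, nat_lit 0, [(nat_lit 15, [(nat_lit 1, nat_lit 737)])],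
 ⟨p052_k46, nat_lit 0, nat_lit 0, nat_lit 163, nat_lit 0, nat_lit 331909, [nat_lit 2352053400, nat_lit 3358772734], [], [nat_lit 24622240329, nat_lit 25015481355, nat_lit 26780374888, nat_lit 27145509065, nat_lit 26742919645, nat_lit 27065004753, nat_lit 29119786915, nat_lit 29536144238], nat_lit 1271250, nat_lit 1271250, nat_lit 1271250, nat_lit 1271250, nat_lit 1100001, nat_lit 2024750, [nat_lit 780000, nat_lit 1435000], [nat_lit 49, nat_lit 40, nat_lit 40, nat_lit 80, nat_lit 16, nat_lit 289, nat_lit 75, nat_lit 9]⟩, ⟨p052_k47, nat_lit 0, nat_lit 0, nat_lit 575, nat_lit 0, nat_lit 730738, [nat_lit 2095584000, nat_lit 3122336000], [], [nat_lit 10116312851, nat_lit 10061576491, nat_lit 10458925851, nat_lit 10408653671, nat_lit 9151284195, nat_lit 9082454298, nat_lit 9514410062, nat_lit 9456010389], nat_lit 1271250, nat_lit 1271250, nat_lit 1271250, nat_lit 1271250, nat_lit 88400, nat_lit 2656050, [nat_lit 1695000,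 nat_lit 1271250], [nat_lit 143, nat_lit 40, nat_lit 40, nat_lit 80, nat_lit 14, nat_lit 373, nat_lit 150, nat_lit 9]⟩,
 ⟨nat_lit 4472, nat_lit 4744, ⟨.ofNat (nat_lit 687610), .ofNat (nat_lit 771249), .ofNat (nat_lit 709096), .ofNat (nat_lit 792736), .ofNat (nat_lit 682366), .ofNat (nat_lit 763940), .ofNat (nat_lit 703932), .ofNat (nat_lit 785505)⟩, ⟨.ofNat (nat_lit 258394), .ofNat (nat_lit 446583), .ofNat (nat_lit 301370), .ofNat (nat_lit 489559), .ofNat (nat_lit 259489), .ofNat (nat_lit 443030), .ofNat (nat_lit 302621), .ofNat (nat_lit 486162)⟩⟩, [⟨nat_lit 13, nat_lit 82, nat_lit 62, nat_lit 100, nat_lit 121477322⟩, ⟨nat_lit 16, nat_lit 83, nat_lit 100, nat_lit 73, nat_lit 252878691⟩, ⟨nat_lit 19, nat_lit 100, nat_lit 66, nat_lit 72, nat_lit 55069979⟩]⟩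
noncomputable def p052_l149 : Lf2 := ⟨nat_lit 0, nat_lit 10, [nat_lit 0, nat_lit 5, nat_lit 5, nat_lit 20], false, nat_lit 160, nat_lit 280, nat_lit 16, nat_lit 384, ⟨nat_lit 173, nat_lit 827, nat_lit 0, nat_lit 8, nat_lit 295, nat_lit 827, nat_lit 154, nat_lit 0, nat_lit 0, nat_lit 0, nat_lit 0, nat_lit 0, nat_lit 37988361, nat_lit 21444946, nat_lit 7566693, nat_lit 4999303, true, true⟩,
 nat_lit 5997, nat_lit 0, nat_lit 0, nat_lit 0, nat_lit 4151, nat_lit 1998, nat_lit 0, nat_lit 0, nat_lit 0, nat_lit 126, nat_lit 0, nat_lit 0, nat_lit 0, nat_lit 0, nat_lit 0, nat_lit 747200, nat_lit 0, nat_lit 0, [(nat_lit 15, [(nat_lit 1, nat_lit 133), (nat_lit 2, nat_lit 694)])],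
 ⟨p052_k27, nat_lit 0, nat_lit 0, nat_lit 154, nat_lit 0, nat_lit 184860, [nat_lit 2303311001, nat_lit 2121759267, nat_lit 1202635200], [], [nat_lit 24063346471, nat_lit 24859409812, nat_lit 26818504232, nat_lit 27547689652, nat_lit 26778706359, nat_lit 27460900754, nat_lit 29376096167, nat_lit 30149283691], nat_lit 1271250, nat_lit 1271250, nat_lit 1271250, nat_lit 1271250, nat_lit 1100001, nat_lit 2127500, [nat_lit 780000, nat_lit 1435000, nat_lit 1271250], [nat_lit 18, nat_lit 40, nat_lit 40, nat_lit 80, nat_lit 2, nat_lit 289, nat_lit 75, nat_lit 8]⟩, ⟨p052_k26, nat_lit 0, nat_lit 0, nat_lit 551, nat_lit 0, nat_lit 471678, [nat_lit 1378464000, nat_lit 2053856000, nat_lit 2432034000], [], [nat_lit 8285839980, nat_lit 8147236453, nat_lit 8636518841, nat_lit 8465876744, nat_lit 6894531692, nat_lit 6718550958, nat_lit 7319333829, nat_lit 7132066013], nat_lit 1100001, nat_lit 1442500, nat_lit 1271250, nat_lit 1271250,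 nat_lit 88400, nat_lit 2742600, [nat_lit 1695000, nat_lit 1271250, nat_lit 1271250], [nat_lit 62, nat_lit 40, nat_lit 40, nat_lit 80, nat_lit 58, nat_lit 483, nat_lit 250, nat_lit 11]⟩,
 ⟨nat_lit 4472, nat_lit 5000, ⟨.ofNat (nat_lit 671427), .ofNat (nat_lit 771425), .ofNat (nat_lit 714270), .ofNat (nat_lit 814263), .ofNat (nat_lit 660800), .ofNat (nat_lit 755968), .ofNat (nat_lit 703919), .ofNat (nat_lit 799081)⟩, ⟨.ofNat (nat_lit 257141), .ofNat (nat_lit 471427), .ofNat (nat_lit 299999), .ofNat (nat_lit 514284), .ofNat (nat_lit 259489), .ofNat (nat_lit 463423), .ofNat (nat_lit 302621), .ofNat (nat_lit 506556)⟩⟩, [⟨nat_lit 13, nat_lit 84, nat_lit 63, nat_lit 100, nat_lit 177461862⟩, ⟨nat_lit 4, nat_lit 100, nat_lit 85, nat_lit 73, nat_lit 227300853⟩, ⟨nat_lit 22, nat_lit 68, nat_lit 67, nat_lit 100, nat_lit 23638397⟩]⟩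
noncomputable def b_V_700_400_10_4 : St := ⟨true, nat_lit 1, nat_lit 1, nat_lit 1, nat_lit 80, nat_lit 280, nat_lit 320, nat_lit 160, nat_lit 200, nat_lit 160, nat_lit 384, nat_lit 40, nat_lit 80, nat_lit 160, nat_lit 300, nat_lit 0, nat_lit 384, nat_lit 0, nat_lit 40, nat_lit 0, nat_lit 0, nat_lit 0, nat_lit 0⟩
theorem d_V_700_400_10_4 (h : EB TB.env) : Dead b_V_700_400_10_4 := chkB_sound0 h (T :=
(.spl (nat_lit 0) (nat_lit 300)
(.spl (nat_lit 6) (nat_lit 28)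
(.spl (nat_lit 2) (nat_lit 240)
(.leaf p052_l137)
(.spl (nat_lit 2) (nat_lit 320)
(.leaf p052_l138)
(.trZ (nat_lit 9) (nat_lit 100) (nat_lit 82) (nat_lit 44) (nat_lit 16) (.spl (nat_lit 3) (nat_lit 60)
(.trX (nat_lit 16) (nat_lit 99) (nat_lit 100) (nat_lit 77) (nat_lit 276) (.trX (nat_lit 19) (nat_lit 100) (nat_lit 55) (nat_lit 73) (nat_lit 368) (.leaf p052_l139)))
(.leaf p052_l140)))))
(.leaf p052_l141))
(.trX (nat_lit 13) (nat_lit 87) (nat_lit 50) (nat_lit 100) (nat_lit 376) (.trX (nat_lit 16) (nat_lit 94) (nat_lit 100) (nat_lit 87) (nat_lit 280) (.spl (nat_lit 2) (nat_lit 240)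
(.leaf p052_l142)
(.spl (nat_lit 2) (nat_lit 320)
(.spl (nat_lit 0) (nat_lit 310)
(.leaf p052_l143)
(.trX (nat_lit 16) (nat_lit 89) (nat_lit 100) (nat_lit 85) (nat_lit 268) (.leaf p052_l144)))
(.trZ (nat_lit 9) (nat_lit 100) (nat_lit 82) (nat_lit 44) (nat_lit 16) (.spl (nat_lit 6) (nat_lit 20)
(.spl (nat_lit 0) (nat_lit 310)
(.spl (nat_lit 0) (nat_lit 305)
(.leaf p052_l145)
(.trX (nat_lit 13) (nat_lit 85) (nat_lit 53) (nat_lit 100) (nat_lit 372) (.trX (nat_lit 16) (nat_lit 91) (nat_lit 100) (nat_lit 86) (nat_lit 276) (.leaf p052_l146))))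
(.trX (nat_lit 13) (nat_lit 84) (nat_lit 55) (nat_lit 100) (nat_lit 368) (.trX (nat_lit 16) (nat_lit 89) (nat_lit 100) (nat_lit 85) (nat_lit 268) (.spl (nat_lit 1) (nat_lit 180)
(.trX (nat_lit 13) (nat_lit 84) (nat_lit 63) (nat_lit 100) (nat_lit 356) (.leaf p052_l147))
(.trX (nat_lit 19) (nat_lit 100) (nat_lit 52) (nat_lit 80) (nat_lit 372) (.leaf p052_l148))))))
(.leaf p052_l149))))))))) (by decide +kernel)
noncomputable def p052_l150 : Lf2 := ⟨nat_lit 0, nat_lit 10, [nat_lit 0, nat_lit 5, nat_lit 5, nat_lit 20], true, nat_lit 0, nat_lit 300, nat_lit 0, nat_lit 384, ⟨nat_lit 0, nat_lit 1000, nat_lit 0, nat_lit 4, nat_lit 107, nat_lit 1000, nat_lit 106, nat_lit 0, nat_lit 0, nat_lit 0, nat_lit 0, nat_lit 0, nat_lit 0, nat_lit 0, nat_lit 0, nat_lit 5000000, false, false⟩,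
 nat_lit 0, nat_lit 6193, nat_lit 0, nat_lit 0, nat_lit 3940, nat_lit 0, nat_lit 0, nat_lit 0, nat_lit 0, nat_lit 0, nat_lit 0, nat_lit 0, nat_lit 0, nat_lit 0, nat_lit 0, nat_lit 895600, nat_lit 0, nat_lit 0, [(nat_lit 12, [(nat_lit 1, nat_lit 174), (nat_lit 2, nat_lit 826)]), (nat_lit 15, [(nat_lit 1, nat_lit 174), (nat_lit 2, nat_lit 826)])],
 ⟨p052_k25, nat_lit 0, nat_lit 0, nat_lit 606, nat_lit 0, nat_lit 640600, [nat_lit 2288776801, nat_lit 2081215200, nat_lit 215889600], [], [nat_lit 32246064858, nat_lit 28449734180, nat_lit 26578543923, nat_lit 27871792483, nat_lit 29498442467, nat_lit 30575226530, nat_lit 35041611483, nat_lit 31628046703], nat_lit 1271250, nat_lit 1271250, nat_lit 21650, nat_lit 1100001, nat_lit 0, nat_lit 2118750, [nat_lit 780000, nat_lit 1435000, nat_lit 1271250], [nat_lit 8, nat_lit 40, nat_lit 40, nat_lit 80, nat_lit 1, nat_lit 345, nat_lit 125, nat_lit 10]⟩, C1.Rw.none,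
 ⟨nat_lit 4472, nat_lit 5478, ⟨.ofNat (nat_lit 90113), .ofNat (nat_lit 382351), .ofNat (nat_lit 132827), .ofNat (nat_lit 425065), .ofNat (nat_lit 123773), .ofNat (nat_lit 388887), .ofNat (nat_lit 166906), .ofNat (nat_lit 432020)⟩, ⟨.negSucc (nat_lit 45522), .ofNat (nat_lit 516475), .negSucc (nat_lit 2834), .ofNat (nat_lit 559189), .negSucc (nat_lit 12423), .ofNat (nat_lit 497412), .ofNat (nat_lit 0), .ofNat (nat_lit 540545)⟩⟩, [⟨nat_lit 4, nat_lit 100, nat_lit 90, nat_lit 74, nat_lit 177352437⟩]⟩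
noncomputable def p052_l151 : Lf2 := ⟨nat_lit 0, nat_lit 10, [nat_lit 0, nat_lit 5, nat_lit 5, nat_lit 20], true, nat_lit 0, nat_lit 276, nat_lit 0, nat_lit 368, ⟨nat_lit 0, nat_lit 1000, nat_lit 0, nat_lit 4, nat_lit 244, nat_lit 1000, nat_lit 96, nat_lit 0, nat_lit 0, nat_lit 0, nat_lit 0, nat_lit 0, nat_lit 0, nat_lit 0, nat_lit 0, nat_lit 5000000, false, true⟩,
 nat_lit 0, nat_lit 6634, nat_lit 0, nat_lit 0, nat_lit 4221, nat_lit 0, nat_lit 0, nat_lit 0, nat_lit 0, nat_lit 0, nat_lit 0, nat_lit 0, nat_lit 0, nat_lit 0, nat_lit 0, nat_lit 928600, nat_lit 0, nat_lit 0, [(nat_lit 12, [(nat_lit 1, nat_lit 119), (nat_lit 2, nat_lit 881)])],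
 ⟨p052_k25, nat_lit 0, nat_lit 0, nat_lit 364, nat_lit 0, nat_lit 388617, [nat_lit 2303450801, nat_lit 2038601200, nat_lit 54717600], [], [nat_lit 26310586445, nat_lit 24112382507, nat_lit 29644349717, nat_lit 30724188662, nat_lit 29686745580, nat_lit 27772629294, nat_lit 29358736573, nat_lit 29783420092], nat_lit 1271250, nat_lit 1271250, nat_lit 1271250, nat_lit 1271250, nat_lit 0, nat_lit 1949250, [nat_lit 780000, nat_lit 1435000, nat_lit 1271250], [nat_lit 8, nat_lit 40, nat_lit 40, nat_lit 80, nat_lit 1, nat_lit 401, nat_lit 175, nat_lit 11]⟩, C1.Rw.none,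
 ⟨nat_lit 5000, nat_lit 5478, ⟨.ofNat (nat_lit 382351), .ofNat (nat_lit 801938), .ofNat (nat_lit 425065), .ofNat (nat_lit 844633), .ofNat (nat_lit 385713), .ofNat (nat_lit 785675), .ofNat (nat_lit 428570), .ofNat (nat_lit 828512)⟩, ⟨.negSucc (nat_lit 45522), .ofNat (nat_lit 471515), .negSucc (nat_lit 24165), .ofNat (nat_lit 492872), .negSucc (nat_lit 28572), .ofNat (nat_lit 464284), .negSucc (nat_lit 7143), .ofNat (nat_lit 485713)⟩⟩, [⟨nat_lit 13, nat_lit 90, nat_lit 54, nat_lit 100, nat_lit 127781585⟩, ⟨nat_lit 4, nat_lit 100, nat_lit 92, nat_lit 68, nat_lit 75793202⟩]⟩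
noncomputable def p052_l152 : Lf2 := ⟨nat_lit 0, nat_lit 10, [nat_lit 0, nat_lit 5, nat_lit 5, nat_lit 20], true, nat_lit 0, nat_lit 256, nat_lit 0, nat_lit 368, ⟨nat_lit 0, nat_lit 1000, nat_lit 0, nat_lit 4, nat_lit 191, nat_lit 1000, nat_lit 87, nat_lit 0, nat_lit 0, nat_lit 0, nat_lit 0, nat_lit 0, nat_lit 0, nat_lit 0, nat_lit 0, nat_lit 5000000, false, true⟩,
 nat_lit 0, nat_lit 6903, nat_lit 0, nat_lit 0, nat_lit 4778, nat_lit 0, nat_lit 1290, nat_lit 0, nat_lit 0, nat_lit 0, nat_lit 0, nat_lit 0, nat_lit 0, nat_lit 0, nat_lit 0, nat_lit 400000, nat_lit 0, nat_lit 0, [(nat_lit 15, [(nat_lit 1, nat_lit 1000)])],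
 ⟨p052_k27, nat_lit 0, nat_lit 0, nat_lit 389, nat_lit 0, nat_lit 550691, [nat_lit 2020200000, nat_lit 2354866667, nat_lit 2328333333], [], [nat_lit 21660057325, nat_lit 19198883984, nat_lit 20770542996, nat_lit 22608241440, nat_lit 19277684069, nat_lit 20413544677, nat_lit 26318787367, nat_lit 24193683952], nat_lit 1271250, nat_lit 1271250, nat_lit 1100001, nat_lit 1785000, nat_lit 0, nat_lit 1808000, [nat_lit 780000, nat_lit 1435000, nat_lit 1271250], [nat_lit 18, nat_lit 40, nat_lit 40, nat_lit 80, nat_lit 2, nat_lit 345, nat_lit 125, nat_lit 11]⟩, C1.Rw.none,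
 ⟨nat_lit 4472, nat_lit 5000, ⟨.ofNat (nat_lit 385713), .ofNat (nat_lit 528570), .ofNat (nat_lit 428570), .ofNat (nat_lit 571423), .ofNat (nat_lit 388887), .ofNat (nat_lit 524844), .ofNat (nat_lit 432020), .ofNat (nat_lit 567973)⟩, ⟨.negSucc (nat_lit 28572), .ofNat (nat_lit 428570), .negSucc (nat_lit 7143), .ofNat (nat_lit 449999), .negSucc (nat_lit 12423), .ofNat (nat_lit 422636), .ofNat (nat_lit 0), .ofNat (nat_lit 444203)⟩⟩, [⟨nat_lit 16, nat_lit 84, nat_lit 100, nat_lit 67, nat_lit 175713894⟩]⟩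
noncomputable def p052_l153 : Lf2 := ⟨nat_lit 0, nat_lit 10, [nat_lit 0, nat_lit 5, nat_lit 5, nat_lit 20], true, nat_lit 0, nat_lit 256, nat_lit 0, nat_lit 368, ⟨nat_lit 0, nat_lit 1000, nat_lit 0, nat_lit 6, nat_lit 267, nat_lit 1000, nat_lit 87, nat_lit 0, nat_lit 0, nat_lit 0, nat_lit 0, nat_lit 0, nat_lit 0, nat_lit 0, nat_lit 0, nat_lit 5000000, false, true⟩,
 nat_lit 0, nat_lit 5871, nat_lit 0, nat_lit 0, nat_lit 4064, nat_lit 0, nat_lit 610, nat_lit 0, nat_lit 0, nat_lit 0, nat_lit 0, nat_lit 0, nat_lit 0, nat_lit 0, nat_lit 0, nat_lit 400000, nat_lit 0, nat_lit 0, [(nat_lit 15, [(nat_lit 1, nat_lit 1000)])],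
 ⟨p052_k27, nat_lit 0, nat_lit 0, nat_lit 395, nat_lit 0, nat_lit 550691, [nat_lit 2020200000, nat_lit 2354866667, nat_lit 2328333333], [], [nat_lit 23414150674, nat_lit 24183426690, nat_lit 29665861060, nat_lit 30763491514, nat_lit 24584295054, nat_lit 25206721568, nat_lit 28787133974, nat_lit 29300120086], nat_lit 1271250, nat_lit 1271250, nat_lit 1271250, nat_lit 1271250, nat_lit 0, nat_lit 1808000, [nat_lit 780000, nat_lit 1435000, nat_lit 1271250], [nat_lit 18, nat_lit 40, nat_lit 40, nat_lit 80, nat_lit 2, nat_lit 289, nat_lit 75, nat_lit 9]⟩, C1.Rw.none,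
 ⟨nat_lit 4472, nat_lit 5000, ⟨.ofNat (nat_lit 528570), .ofNat (nat_lit 771425), .ofNat (nat_lit 571423), .ofNat (nat_lit 814263), .ofNat (nat_lit 524844), .ofNat (nat_lit 755968), .ofNat (nat_lit 567973), .ofNat (nat_lit 799081)⟩, ⟨.negSucc (nat_lit 28572), .ofNat (nat_lit 428570), .negSucc (nat_lit 7143), .ofNat (nat_lit 449999), .negSucc (nat_lit 12423), .ofNat (nat_lit 422636), .ofNat (nat_lit 0), .ofNat (nat_lit 444203)⟩⟩, [⟨nat_lit 13, nat_lit 84, nat_lit 63, nat_lit 100, nat_lit 293570835⟩, ⟨nat_lit 4, nat_lit 100, nat_lit 84, nat_lit 67, nat_lit 69955024⟩]⟩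
noncomputable def p052_l154 : Lf2 := ⟨nat_lit 0, nat_lit 5, [nat_lit 4, nat_lit 5, nat_lit 5, nat_lit 20], true, nat_lit 0, nat_lit 300, nat_lit 0, nat_lit 384, ⟨nat_lit 0, nat_lit 1000, nat_lit 0, nat_lit 4, nat_lit 191, nat_lit 1000, nat_lit 108, nat_lit 0, nat_lit 0, nat_lit 0, nat_lit 0, nat_lit 0, nat_lit 0, nat_lit 0, nat_lit 0, nat_lit 5000000, false, true⟩,
 nat_lit 0, nat_lit 8454, nat_lit 0, nat_lit 0, nat_lit 5379, nat_lit 0, nat_lit 0, nat_lit 0, nat_lit 0, nat_lit 0, nat_lit 0, nat_lit 0, nat_lit 0, nat_lit 0, nat_lit 0, nat_lit 1000000, nat_lit 0, nat_lit 0, [(nat_lit 12, [(nat_lit 2, nat_lit 1000)]), (nat_lit 15, [(nat_lit 2, nat_lit 1000)])],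
 ⟨p052_k48, nat_lit 0, nat_lit 0, nat_lit 323, nat_lit 0, nat_lit 432623, [nat_lit 2335200001, nat_lit 1946400000, nat_lit 508400000], [], [nat_lit 26790183957, nat_lit 21187654233, nat_lit 20031198978, nat_lit 23495605920, nat_lit 25303573248, nat_lit 23305815554, nat_lit 33162693621, nat_lit 28443895944], nat_lit 1271250, nat_lit 1271250, nat_lit 1100001, nat_lit 1785000, nat_lit 0, nat_lit 2118750, [nat_lit 780000, nat_lit 1435000, nat_lit 1271250], [nat_lit 18, nat_lit 40, nat_lit 40, nat_lit 80, nat_lit 2, nat_lit 373, nat_lit 150, nat_lit 12]⟩, C1.Rw.none,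
 ⟨nat_lit 4472, nat_lit 5478, ⟨.ofNat (nat_lit 382351), .ofNat (nat_lit 532217), .ofNat (nat_lit 425065), .ofNat (nat_lit 574895), .ofNat (nat_lit 388887), .ofNat (nat_lit 524844), .ofNat (nat_lit 432020), .ofNat (nat_lit 567940)⟩, ⟨.negSucc (nat_lit 24173), .ofNat (nat_lit 537832), .negSucc (nat_lit 2834), .ofNat (nat_lit 559189), .ofNat (nat_lit 0), .ofNat (nat_lit 518979), .ofNat (nat_lit 0), .ofNat (nat_lit 540545)⟩⟩, [⟨nat_lit 4, nat_lit 100, nat_lit 92, nat_lit 81, nat_lit 204291504⟩]⟩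
noncomputable def p052_l155 : Lf2 := ⟨nat_lit 0, nat_lit 5, [nat_lit 4, nat_lit 5, nat_lit 5, nat_lit 20], true, nat_lit 0, nat_lit 300, nat_lit 0, nat_lit 384, ⟨nat_lit 0, nat_lit 1000, nat_lit 0, nat_lit 6, nat_lit 271, nat_lit 1000, nat_lit 108, nat_lit 0, nat_lit 0, nat_lit 0, nat_lit 0, nat_lit 0, nat_lit 0, nat_lit 0, nat_lit 0, nat_lit 5000000, false, true⟩,
 nat_lit 0, nat_lit 6425, nat_lit 0, nat_lit 0, nat_lit 4088, nat_lit 0, nat_lit 0, nat_lit 0, nat_lit 0, nat_lit 0, nat_lit 0, nat_lit 0, nat_lit 0, nat_lit 0, nat_lit 0, nat_lit 940600, nat_lit 0, nat_lit 0, [(nat_lit 12, [(nat_lit 1, nat_lit 99), (nat_lit 2, nat_lit 901)]), (nat_lit 15, [(nat_lit 1, nat_lit 99), (nat_lit 2, nat_lit 901)])],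
 ⟨p052_k48, nat_lit 0, nat_lit 0, nat_lit 349, nat_lit 0, nat_lit 432623, [nat_lit 2308786801, nat_lit 2023105200, nat_lit 723586400], [], [nat_lit 24667287201, nat_lit 26193468737, nat_lit 29860163131, nat_lit 31453570797, nat_lit 26707568689, nat_lit 27711677233, nat_lit 30250499537, nat_lit 31146264858], nat_lit 1271250, nat_lit 1271250, nat_lit 1271250, nat_lit 1271250, nat_lit 0, nat_lit 2118750, [nat_lit 780000, nat_lit 1435000, nat_lit 1271250], [nat_lit 18, nat_lit 40, nat_lit 40, nat_lit 80, nat_lit 2, nat_lit 289, nat_lit 75, nat_lit 9]⟩, C1.Rw.none,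
 ⟨nat_lit 4472, nat_lit 5478, ⟨.ofNat (nat_lit 532217), .ofNat (nat_lit 801872), .ofNat (nat_lit 574895), .ofNat (nat_lit 844520), .ofNat (nat_lit 524844), .ofNat (nat_lit 769461), .ofNat (nat_lit 567940), .ofNat (nat_lit 812527)⟩, ⟨.negSucc (nat_lit 24173), .ofNat (nat_lit 537832), .negSucc (nat_lit 2834), .ofNat (nat_lit 559189), .ofNat (nat_lit 0), .ofNat (nat_lit 518979), .ofNat (nat_lit 0), .ofNat (nat_lit 540545)⟩⟩, [⟨nat_lit 13, nat_lit 87, nat_lit 59, nat_lit 100, nat_lit 248382640⟩, ⟨nat_lit 4, nat_lit 100, nat_lit 92, nat_lit 81, nat_lit 86752137⟩]⟩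
noncomputable def p052_l156 : Lf2 := ⟨nat_lit 0, nat_lit 10, [nat_lit 0, nat_lit 5, nat_lit 5, nat_lit 20], true, nat_lit 0, nat_lit 300, nat_lit 0, nat_lit 384, ⟨nat_lit 0, nat_lit 1000, nat_lit 0, nat_lit 4, nat_lit 243, nat_lit 1000, nat_lit 108, nat_lit 0, nat_lit 0, nat_lit 0, nat_lit 0, nat_lit 0, nat_lit 0, nat_lit 0, nat_lit 0, nat_lit 5000000, false, true⟩,
 nat_lit 0, nat_lit 6455, nat_lit 0, nat_lit 0, nat_lit 4107, nat_lit 0, nat_lit 0, nat_lit 0, nat_lit 0, nat_lit 0, nat_lit 0, nat_lit 0, nat_lit 0, nat_lit 0, nat_lit 0, nat_lit 652600, nat_lit 0, nat_lit 0, [(nat_lit 12, [(nat_lit 1, nat_lit 579), (nat_lit 2, nat_lit 421)]), (nat_lit 15, [(nat_lit 1, nat_lit 579), (nat_lit 2, nat_lit 421)])],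
 ⟨p052_k25, nat_lit 0, nat_lit 0, nat_lit 287, nat_lit 0, nat_lit 137867, [nat_lit 2180722800, nat_lit 2395009200, nat_lit 1402701600], [], [nat_lit 26491100948, nat_lit 24776686408, nat_lit 30452522419, nat_lit 31831723880, nat_lit 31148582890, nat_lit 27452751088, nat_lit 30356363451, nat_lit 31166702701], nat_lit 1271250, nat_lit 1271250, nat_lit 1271250, nat_lit 1271250, nat_lit 0, nat_lit 2118750, [nat_lit 780000, nat_lit 1435000, nat_lit 1271250], [nat_lit 8, nat_lit 40, nat_lit 40, nat_lit 80, nat_lit 1, nat_lit 401, nat_lit 175, nat_lit 11]⟩, C1.Rw.none,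
 ⟨nat_lit 4472, nat_lit 5478, ⟨.ofNat (nat_lit 382351), .ofNat (nat_lit 801872), .ofNat (nat_lit 425065), .ofNat (nat_lit 844520), .ofNat (nat_lit 388887), .ofNat (nat_lit 769461), .ofNat (nat_lit 432020), .ofNat (nat_lit 812527)⟩, ⟨.negSucc (nat_lit 24173), .ofNat (nat_lit 537832), .negSucc (nat_lit 2834), .ofNat (nat_lit 559189), .ofNat (nat_lit 0), .ofNat (nat_lit 518979), .ofNat (nat_lit 0), .ofNat (nat_lit 540545)⟩⟩, [⟨nat_lit 13, nat_lit 87, nat_lit 59, nat_lit 100, nat_lit 94756407⟩, ⟨nat_lit 4, nat_lit 100, nat_lit 92, nat_lit 81, nat_lit 78674536⟩]⟩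
noncomputable def p052_l157 : Lf2 := ⟨nat_lit 0, nat_lit 10, [nat_lit 0, nat_lit 5, nat_lit 5, nat_lit 20], true, nat_lit 0, nat_lit 300, nat_lit 0, nat_lit 384, ⟨nat_lit 0, nat_lit 1000, nat_lit 0, nat_lit 4, nat_lit 107, nat_lit 1000, nat_lit 106, nat_lit 0, nat_lit 0, nat_lit 0, nat_lit 0, nat_lit 0, nat_lit 0, nat_lit 0, nat_lit 0, nat_lit 5000000, false, false⟩,
 nat_lit 0, nat_lit 6193, nat_lit 0, nat_lit 0, nat_lit 3940, nat_lit 0, nat_lit 0, nat_lit 0, nat_lit 0, nat_lit 0, nat_lit 0, nat_lit 0, nat_lit 0, nat_lit 0, nat_lit 0, nat_lit 895600, nat_lit 0, nat_lit 0, [(nat_lit 12, [(nat_lit 1, nat_lit 174), (nat_lit 2, nat_lit 826)]), (nat_lit 15, [(nat_lit 1, nat_lit 174), (nat_lit 2, nat_lit 826)])],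
 ⟨p052_k25, nat_lit 0, nat_lit 0, nat_lit 606, nat_lit 0, nat_lit 640600, [nat_lit 2288776801, nat_lit 2081215200, nat_lit 215889600], [], [nat_lit 32246064858, nat_lit 28449734180, nat_lit 26578543923, nat_lit 27871792483, nat_lit 29498442467, nat_lit 30575226530, nat_lit 35041611483, nat_lit 31628046703], nat_lit 1271250, nat_lit 1271250, nat_lit 21650, nat_lit 1100001, nat_lit 0, nat_lit 2118750, [nat_lit 780000, nat_lit 1435000, nat_lit 1271250], [nat_lit 8, nat_lit 40, nat_lit 40, nat_lit 80, nat_lit 1, nat_lit 345, nat_lit 125, nat_lit 10]⟩, C1.Rw.none,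
 ⟨nat_lit 4472, nat_lit 5478, ⟨.ofNat (nat_lit 90113), .ofNat (nat_lit 382351), .ofNat (nat_lit 132827), .ofNat (nat_lit 425065), .ofNat (nat_lit 123773), .ofNat (nat_lit 388887), .ofNat (nat_lit 166906), .ofNat (nat_lit 432020)⟩, ⟨.negSucc (nat_lit 45522), .ofNat (nat_lit 516475), .negSucc (nat_lit 2834), .ofNat (nat_lit 559189), .negSucc (nat_lit 12423), .ofNat (nat_lit 497412), .ofNat (nat_lit 0), .ofNat (nat_lit 540545)⟩⟩, [⟨nat_lit 4, nat_lit 100, nat_lit 90, nat_lit 74, nat_lit 177352437⟩]⟩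
noncomputable def p052_l158 : Lf2 := ⟨nat_lit 0, nat_lit 10, [nat_lit 0, nat_lit 5, nat_lit 5, nat_lit 20], false, nat_lit 0, nat_lit 300, nat_lit 0, nat_lit 384, ⟨nat_lit 0, nat_lit 1000, nat_lit 0, nat_lit 4, nat_lit 243, nat_lit 1000, nat_lit 106, nat_lit 0, nat_lit 0, nat_lit 0, nat_lit 0, nat_lit 0, nat_lit 0, nat_lit 0, nat_lit 0, nat_lit 5000000, false, true⟩,
 nat_lit 0, nat_lit 6308, nat_lit 0, nat_lit 0, nat_lit 4014, nat_lit 0, nat_lit 0, nat_lit 0, nat_lit 0, nat_lit 0, nat_lit 0, nat_lit 0, nat_lit 0, nat_lit 0, nat_lit 0, nat_lit 899800, nat_lit 0, nat_lit 0, [(nat_lit 12, [(nat_lit 1, nat_lit 167), (nat_lit 2, nat_lit 833)]), (nat_lit 15, [(nat_lit 1, nat_lit 167), (nat_lit 2, nat_lit 833)])],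
 ⟨p052_k25, nat_lit 0, nat_lit 0, nat_lit 370, nat_lit 0, nat_lit 408077, [nat_lit 2290644401, nat_lit 2075791600, nat_lit 195376800], [], [nat_lit 26238433097, nat_lit 25212377281, nat_lit 30185494390, nat_lit 31261411288, nat_lit 31146870582, nat_lit 27534728178, nat_lit 30574428804, nat_lit 31374040209], nat_lit 1271250, nat_lit 1271250, nat_lit 1271250, nat_lit 1271250, nat_lit 0, nat_lit 2118750, [nat_lit 780000, nat_lit 1435000, nat_lit 1271250], [nat_lit 8, nat_lit 40, nat_lit 40, nat_lit 80, nat_lit 1, nat_lit 401, nat_lit 175, nat_lit 11]⟩, ⟨p052_k26, nat_lit 0, nat_lit 0, nat_lit 824, nat_lit 0, nat_lit 939972, [nat_lit 0, nat_lit 0, nat_lit 0], [], [nat_lit 0, nat_lit 0, nat_lit 0, nat_lit 0, nat_lit 0, nat_lit 0, nat_lit 0, nat_lit 0], nat_lit 1100001, nat_lit 1442500, nat_lit 1271250, nat_lit 1271250, nat_lit 0, nat_lit 2712000, [nat_lit 1695000, nat_lit 1271250, nat_lit 1271250], [nat_lit 62, nat_lit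 40, nat_lit 40, nat_lit 80, nat_lit 58, nat_lit 483, nat_lit 250, nat_lit 11]⟩,
 ⟨nat_lit 4472, nat_lit 5478, ⟨.ofNat (nat_lit 382351), .ofNat (nat_lit 801872), .ofNat (nat_lit 425065), .ofNat (nat_lit 844520), .ofNat (nat_lit 388887), .ofNat (nat_lit 769461), .ofNat (nat_lit 432020), .ofNat (nat_lit 812527)⟩, ⟨.negSucc (nat_lit 45522), .ofNat (nat_lit 516475), .negSucc (nat_lit 2834), .ofNat (nat_lit 559189), .negSucc (nat_lit 12423), .ofNat (nat_lit 497412), .ofNat (nat_lit 0), .ofNat (nat_lit 540545)⟩⟩, [⟨nat_lit 13, nat_lit 87, nat_lit 59, nat_lit 100, nat_lit 113444212⟩, ⟨nat_lit 4, nat_lit 100, nat_lit 90, nat_lit 74, nat_lit 111555631⟩]⟩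
noncomputable def b_V_700_400_10_5 : St := ⟨true, nat_lit 1, nat_lit 2, nat_lit 2, nat_lit 80, nat_lit 280, nat_lit 320, nat_lit 160, nat_lit 200, nat_lit 4, nat_lit 384, nat_lit 40, nat_lit 80, nat_lit 0, nat_lit 300, nat_lit 0, nat_lit 384, nat_lit 0, nat_lit 40, nat_lit 0, nat_lit 0, nat_lit 0, nat_lit 0⟩
theorem d_V_700_400_10_5 (h : EB TB.env) : Dead b_V_700_400_10_5 := chkB_sound0 h (T :=
(.st (nat_lit 1)
(.spl (nat_lit 2) (nat_lit 160)
(.leaf p052_l150)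
(.spl (nat_lit 3) (nat_lit 60)
(.trX (nat_lit 16) (nat_lit 99) (nat_lit 100) (nat_lit 77) (nat_lit 276) (.trX (nat_lit 19) (nat_lit 100) (nat_lit 55) (nat_lit 73) (nat_lit 368) (.spl (nat_lit 0) (nat_lit 300)
(.leaf p052_l151)
(.trX (nat_lit 13) (nat_lit 87) (nat_lit 50) (nat_lit 100) (nat_lit 376) (.trX (nat_lit 16) (nat_lit 90) (nat_lit 100) (nat_lit 74) (nat_lit 256) (.spl (nat_lit 2) (nat_lit 240)
(.leaf p052_l152)
(.leaf p052_l153)))))))
(.spl (nat_lit 6) (nat_lit 20)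
(.spl (nat_lit 2) (nat_lit 240)
(.leaf p052_l154)
(.leaf p052_l155))
(.leaf p052_l156))))
(.spl (nat_lit 2) (nat_lit 160)
(.leaf p052_l157)
(.leaf p052_l158)))) (by decide +kernel)

end B2
end Pool.Agent.Lib.MP_6947cd_al
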