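import Pool.Agent.Lib.MP_6947cd_al.ZB.Pre

/-!
Problem MP_6947cd_al (Chollet).  Case B, second entry in [2/5, 17/20]: certificates of the tree, part P054 (generated).
-/

set_option autoImplicit false
set_option linter.all false

namespace Pool.Agent.Lib.MP_6947cd_al
namespace B2

open Ent Fr B1 PkA

noncomputable def p054_k0 : C1.Kn := ⟨[nat_lit 60, nat_lit 120], [nat_lit 0, nat_lit 913], [(nat_lit 0, nat_lit 0, nat_lit 0), (nat_lit 1000, nat_lit 905, nat_lit 238)], (nat_lit 87, nat_lit 100, nat_lit 60)⟩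
noncomputable def p054_k1 : C1.Kn := ⟨[nat_lit 60, nat_lit 100, nat_lit 120], [nat_lit 0, nat_lit 609, nat_lit 1609], [(nat_lit 0, nat_lit 0, nat_lit 0), (nat_lit 1000, nat_lit 905, nat_lit 238), (nat_lit 1000, nat_lit 882, nat_lit 668)], (nat_lit 87, nat_lit 100, nat_lit 60)⟩
noncomputable def p054_k2 : C1.Kn := ⟨[nat_lit 60, nat_lit 100, nat_lit 120], [nat_lit 0, nat_lit 909, nat_lit 1866], [(nat_lit 0, nat_lit 0, nat_lit 0), (nat_lit 1000, nat_lit 858, nat_lit 354), (nat_lit 1000, nat_lit 849, nat_lit 705)], (nat_lit 84, nat_lit 100, nat_lit 60)⟩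
noncomputable def p054_k3 : C1.Kn := ⟨[nat_lit 100, nat_lit 160], [nat_lit 0, nat_lit 0], [(nat_lit 0, nat_lit 0, nat_lit 0), (nat_lit 0, nat_lit 0, nat_lit 0)], (nat_lit 100, nat_lit 80, nat_lit 60)⟩
noncomputable def p054_k4 : C1.Kn := ⟨[nat_lit 100, nat_lit 140, nat_lit 160], [nat_lit 0, nat_lit 0, nat_lit 1280], [(nat_lit 0, nat_lit 0, nat_lit 0), (nat_lit 0, nat_lit 0, nat_lit 0), (nat_lit 800, nat_lit 1000, nat_lit 600)], (nat_lit 100, nat_lit 80, nat_lit 60)⟩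
noncomputable def p054_k5 : C1.Kn := ⟨[nat_lit 60, nat_lit 100, nat_lit 120], [nat_lit 0, nat_lit 755, nat_lit 1734], [(nat_lit 0, nat_lit 0, nat_lit 0), (nat_lit 1000, nat_lit 882, nat_lit 294), (nat_lit 1000, nat_lit 866, nat_lit 684)], (nat_lit 85, nat_lit 100, nat_lit 60)⟩
noncomputable def p054_k6 : C1.Kn := ⟨[nat_lit 60, nat_lit 100, nat_lit 120], [nat_lit 0, nat_lit 1063, nat_lit 2005], [(nat_lit 0, nat_lit 0, nat_lit 0), (nat_lit 1000, nat_lit 834, nat_lit 414), (nat_lit 1000, nat_lit 833, nat_lit 732)], (nat_lit 82, nat_lit 100, nat_lit 60)⟩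
noncomputable def p054_k7 : C1.Kn := ⟨[nat_lit 60, nat_lit 100, nat_lit 140], [nat_lit 0, nat_lit 0, nat_lit 2047], [(nat_lit 0, nat_lit 0, nat_lit 0), (nat_lit 0, nat_lit 0, nat_lit 0), (nat_lit 1000, nat_lit 993, nat_lit 781)], (nat_lit 94, nat_lit 100, nat_lit 62)⟩
noncomputable def p054_k8 : C1.Kn := ⟨[nat_lit 60, nat_lit 120, nat_lit 140], [nat_lit 0, nat_lit 0, nat_lit 2047], [(nat_lit 0, nat_lit 0, nat_lit 0), (nat_lit 0, nat_lit 0, nat_lit 0), (nat_lit 1000, nat_lit 993, nat_lit 781)], (nat_lit 94, nat_lit 100, nat_lit 62)⟩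
noncomputable def p054_k9 : C1.Kn := ⟨[nat_lit 60, nat_lit 100, nat_lit 120], [nat_lit 0, nat_lit 302, nat_lit 1376], [(nat_lit 0, nat_lit 0, nat_lit 0), (nat_lit 1000, nat_lit 953, nat_lit 118), (nat_lit 1000, nat_lit 911, nat_lit 628)], (nat_lit 91, nat_lit 100, nat_lit 61)⟩
noncomputable def p054_k10 : C1.Kn := ⟨[nat_lit 100, nat_lit 140, nat_lit 160], [nat_lit 0, nat_lit 508, nat_lit 1689], [(nat_lit 0, nat_lit 0, nat_lit 0), (nat_lit 1000, nat_lit 1000, nat_lit 198), (nat_lit 811, nat_lit 1000, nat_lit 671)], (nat_lit 100, nat_lit 86, nat_lit 60)⟩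
noncomputable def p054_k11 : C1.Kn := ⟨[nat_lit 60, nat_lit 120, nat_lit 160], [nat_lit 0, nat_lit 0, nat_lit 3243], [(nat_lit 0, nat_lit 0, nat_lit 0), (nat_lit 0, nat_lit 0, nat_lit 0), (nat_lit 878, nat_lit 1000, nat_lit 945)], (nat_lit 100, nat_lit 98, nat_lit 84)⟩
noncomputable def p054_k12 : C1.Kn := ⟨[nat_lit 60, nat_lit 140], [nat_lit 0, nat_lit 1218], [(nat_lit 0, nat_lit 0, nat_lit 0), (nat_lit 1000, nat_lit 905, nat_lit 238)], (nat_lit 92, nat_lit 100, nat_lit 82)⟩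
noncomputable def p054_k13 : C1.Kn := ⟨[nat_lit 60, nat_lit 160], [nat_lit 0, nat_lit 0], [(nat_lit 0, nat_lit 0, nat_lit 0), (nat_lit 0, nat_lit 0, nat_lit 0)], (nat_lit 100, nat_lit 98, nat_lit 84)⟩
noncomputable def p054_k14 : C1.Kn := ⟨[nat_lit 100, nat_lit 160, nat_lit 180], [nat_lit 0, nat_lit 0, nat_lit 2560], [(nat_lit 0, nat_lit 0, nat_lit 0), (nat_lit 0, nat_lit 0, nat_lit 0), (nat_lit 600, nat_lit 1000, nat_lit 800)], (nat_lit 100, nat_lit 64, nat_lit 77)⟩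
noncomputable def p054_k15 : C1.Kn := ⟨[nat_lit 60, nat_lit 100, nat_lit 160], [nat_lit 0, nat_lit 0, nat_lit 3069], [(nat_lit 0, nat_lit 0, nat_lit 0), (nat_lit 0, nat_lit 0, nat_lit 0), (nat_lit 1000, nat_lit 999, nat_lit 798)], (nat_lit 100, nat_lit 98, nat_lit 84)⟩
noncomputable def p054_k16 : C1.Kn := ⟨[nat_lit 100, nat_lit 140, nat_lit 180], [nat_lit 0, nat_lit 0, nat_lit 2434], [(nat_lit 0, nat_lit 0, nat_lit 0), (nat_lit 0, nat_lit 0, nat_lit 0), (nat_lit 726, nat_lit 1000, nat_lit 688)], (nat_lit 100, nat_lit 64, nat_lit 77)⟩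
noncomputable def p054_k17 : C1.Kn := ⟨[nat_lit 60, nat_lit 100, nat_lit 140], [nat_lit 0, nat_lit 609, nat_lit 2558], [(nat_lit 0, nat_lit 0, nat_lit 0), (nat_lit 1000, nat_lit 905, nat_lit 238), (nat_lit 1000, nat_lit 904, nat_lit 760)], (nat_lit 90, nat_lit 100, nat_lit 74)⟩
noncomputable def p054_k18 : C1.Kn := ⟨[nat_lit 100, nat_lit 140, nat_lit 180], [nat_lit 0, nat_lit 0, nat_lit 2434], [(nat_lit 0, nat_lit 0, nat_lit 0), (nat_lit 0, nat_lit 0, nat_lit 0), (nat_lit 726, nat_lit 1000, nat_lit 688)], (nat_lit 100, nat_lit 70, nat_lit 71)⟩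
noncomputable def p054_k19 : C1.Kn := ⟨[nat_lit 60, nat_lit 100, nat_lit 140], [nat_lit 0, nat_lit 609, nat_lit 2558], [(nat_lit 0, nat_lit 0, nat_lit 0), (nat_lit 1000, nat_lit 905, nat_lit 238), (nat_lit 1000, nat_lit 904, nat_lit 760)], (nat_lit 92, nat_lit 100, nat_lit 82)⟩
noncomputable def p054_k20 : C1.Kn := ⟨[nat_lit 100, nat_lit 140, nat_lit 180], [nat_lit 0, nat_lit 508, nat_lit 2854], [(nat_lit 0, nat_lit 0, nat_lit 0), (nat_lit 1000, nat_lit 1000, nat_lit 198), (nat_lit 777, nat_lit 1000, nat_lit 712)], (nat_lit 100, nat_lit 72, nat_lit 77)⟩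
noncomputable def p054_k21 : C1.Kn := ⟨[nat_lit 100, nat_lit 140, nat_lit 180], [nat_lit 0, nat_lit 766, nat_lit 3056], [(nat_lit 0, nat_lit 0, nat_lit 0), (nat_lit 1000, nat_lit 1000, nat_lit 299), (nat_lit 809, nat_lit 1000, nat_lit 722)], (nat_lit 100, nat_lit 76, nat_lit 78)⟩
noncomputable def p054_k22 : C1.Kn := ⟨[nat_lit 60, nat_lit 100, nat_lit 140], [nat_lit 0, nat_lit 0, nat_lit 2047], [(nat_lit 0, nat_lit 0, nat_lit 0), (nat_lit 0, nat_lit 0, nat_lit 0), (nat_lit 1000, nat_lit 993, nat_lit 781)], (nat_lit 99, nat_lit 100, nat_lit 77)⟩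
noncomputable def p054_k23 : C1.Kn := ⟨[nat_lit 60, nat_lit 100, nat_lit 140], [nat_lit 0, nat_lit 0, nat_lit 2047], [(nat_lit 0, nat_lit 0, nat_lit 0), (nat_lit 0, nat_lit 0, nat_lit 0), (nat_lit 1000, nat_lit 993, nat_lit 781)], (nat_lit 96, nat_lit 100, nat_lit 68)⟩
noncomputable def p054_k24 : C1.Kn := ⟨[nat_lit 60, nat_lit 100, nat_lit 140], [nat_lit 0, nat_lit 909, nat_lit 2819], [(nat_lit 0, nat_lit 0, nat_lit 0), (nat_lit 1000, nat_lit 858, nat_lit 354), (nat_lit 1000, nat_lit 858, nat_lit 746)], (nat_lit 87, nat_lit 100, nat_lit 80)⟩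
noncomputable def p054_k25 : C1.Kn := ⟨[nat_lit 60, nat_lit 120, nat_lit 140], [nat_lit 0, nat_lit 913, nat_lit 2600], [(nat_lit 0, nat_lit 0, nat_lit 0), (nat_lit 1000, nat_lit 905, nat_lit 238), (nat_lit 1000, nat_lit 943, nat_lit 874)], (nat_lit 92, nat_lit 100, nat_lit 82)⟩
noncomputable def p054_l0 : Lf2 := ⟨nat_lit 0, nat_lit 10, [nat_lit 0, nat_lit 5, nat_lit 5, nat_lit 20], true, nat_lit 0, nat_lit 160, nat_lit 0, nat_lit 360, ⟨nat_lit 0, nat_lit 0, nat_lit 1000, nat_lit 5, nat_lit 105, nat_lit 934, nat_lit 56, nat_lit 1000, nat_lit 26667, nat_lit 255, nat_lit 104017, nat_lit 294, nat_lit 62647317, nat_lit 0, nat_lit 0, nat_lit 1202078, false, false⟩,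
 nat_lit 0, nat_lit 4626, nat_lit 0, nat_lit 0, nat_lit 3202, nat_lit 0, nat_lit 471, nat_lit 0, nat_lit 0, nat_lit 0, nat_lit 0, nat_lit 0, nat_lit 0, nat_lit 0, nat_lit 94, nat_lit 400000, nat_lit 0, nat_lit 0, [(nat_lit 15, [(nat_lit 5, nat_lit 1000)])],
 ⟨p054_k0, nat_lit 0, nat_lit 0, nat_lit 406, nat_lit 0, nat_lit 452512, [nat_lit 2443200000, nat_lit 153000000], [], [nat_lit 17023150774, nat_lit 18070391293, nat_lit 16579175060, nat_lit 17848603832, nat_lit 17692663830, nat_lit 18815941826, nat_lit 17604047456, nat_lit 18672234112], nat_lit 1271250, nat_lit 1271250, nat_lit 134400, nat_lit 490000, nat_lit 0, nat_lit 1100001, [nat_lit 780000, nat_lit 1762500], [nat_lit 74, nat_lit 40, nat_lit 40, nat_lit 80, nat_lit 43, nat_lit 272, nat_lit 60, nat_lit 9]⟩, C1.Rw.none,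
 ⟨nat_lit 4472, nat_lit 5000, ⟨.ofNat (nat_lit 185713), .ofNat (nat_lit 285713), .ofNat (nat_lit 228562), .ofNat (nat_lit 328559), .ofNat (nat_lit 200895), .ofNat (nat_lit 296064), .ofNat (nat_lit 244020), .ofNat (nat_lit 339186)⟩, ⟨.negSucc (nat_lit 28572), .ofNat (nat_lit 257141), .ofNat (nat_lit 0), .ofNat (nat_lit 299999), .negSucc (nat_lit 12423), .ofNat (nat_lit 259489), .ofNat (nat_lit 0), .ofNat (nat_lit 302621)⟩⟩, [⟨nat_lit 0, nat_lit 100, nat_lit 82, nat_lit 76, nat_lit 122700459⟩]⟩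
noncomputable def p054_l1 : Lf2 := ⟨nat_lit 0, nat_lit 10, [nat_lit 0, nat_lit 5, nat_lit 5, nat_lit 20], true, nat_lit 160, nat_lit 280, nat_lit 0, nat_lit 360, ⟨nat_lit 0, nat_lit 0, nat_lit 1000, nat_lit 5, nat_lit 104, nat_lit 1000, nat_lit 154, nat_lit 1000, nat_lit 24746, nat_lit 252, nat_lit 101400, nat_lit 293, nat_lit 53273853, nat_lit 0, nat_lit 0, nat_lit 3404718, false, false⟩,
 nat_lit 0, nat_lit 5009, nat_lit 0, nat_lit 0, nat_lit 3467, nat_lit 0, nat_lit 0, nat_lit 0, nat_lit 0, nat_lit 0, nat_lit 0, nat_lit 0, nat_lit 0, nat_lit 0, nat_lit 169, nat_lit 759400, nat_lit 0, nat_lit 0, [(nat_lit 15, [(nat_lit 5, nat_lit 401), (nat_lit 6, nat_lit 599)])],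
 ⟨p054_k1, nat_lit 0, nat_lit 0, nat_lit 284, nat_lit 0, nat_lit 391189, [nat_lit 3142415200, nat_lit 1618771601, nat_lit 24445199], [], [nat_lit 17013959816, nat_lit 16119220725, nat_lit 14899592730, nat_lit 15520671551, nat_lit 20586464485, nat_lit 21280743674, nat_lit 19411925977, nat_lit 20024747642], nat_lit 1271250, nat_lit 1271250, nat_lit 134400, nat_lit 490000, nat_lit 1100001, nat_lit 2127500, [nat_lit 780000, nat_lit 1435000, nat_lit 1271250], [nat_lit 18, nat_lit 40, nat_lit 40, nat_lit 80, nat_lit 2, nat_lit 317, nat_lit 100, nat_lit 10]⟩, C1.Rw.none,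
 ⟨nat_lit 4743, nat_lit 5000, ⟨.ofNat (nat_lit 185713), .ofNat (nat_lit 285713), .ofNat (nat_lit 228570), .ofNat (nat_lit 328569), .ofNat (nat_lit 193320), .ofNat (nat_lit 290899), .ofNat (nat_lit 236296), .ofNat (nat_lit 333875)⟩, ⟨.ofNat (nat_lit 257141), .ofNat (nat_lit 471427), .ofNat (nat_lit 299999), .ofNat (nat_lit 514284), .ofNat (nat_lit 258394), .ofNat (nat_lit 467493), .ofNat (nat_lit 301370), .ofNat (nat_lit 510469)⟩⟩, [⟨nat_lit 0, nat_lit 100, nat_lit 85, nat_lit 72, nat_lit 232405486⟩, ⟨nat_lit 4, nat_lit 100, nat_lit 88, nat_lit 74, nat_lit 221285156⟩]⟩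
noncomputable def p054_l2 : Lf2 := ⟨nat_lit 0, nat_lit 10, [nat_lit 0, nat_lit 5, nat_lit 5, nat_lit 20], true, nat_lit 160, nat_lit 268, nat_lit 0, nat_lit 360, ⟨nat_lit 0, nat_lit 0, nat_lit 1000, nat_lit 5, nat_lit 109, nat_lit 1000, nat_lit 149, nat_lit 1000, nat_lit 50560, nat_lit 270, nat_lit 112067, nat_lit 297, nat_lit 53303461, nat_lit 0, nat_lit 0, nat_lit 3420626, false, false⟩,
 nat_lit 0, nat_lit 4865, nat_lit 0, nat_lit 0, nat_lit 3507, nat_lit 0, nat_lit 0, nat_lit 0, nat_lit 0, nat_lit 0, nat_lit 0, nat_lit 0, nat_lit 0, nat_lit 0, nat_lit 161, nat_lit 722800, nat_lit 0, nat_lit 0, [(nat_lit 15, [(nat_lit 5, nat_lit 462), (nat_lit 6, nat_lit 538)])],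
 ⟨p054_k2, nat_lit 0, nat_lit 0, nat_lit 291, nat_lit 0, nat_lit 430997, [nat_lit 3066862400, nat_lit 1539999201, nat_lit 25522399], [], [nat_lit 15645005645, nat_lit 16298376452, nat_lit 15481879271, nat_lit 16106288612, nat_lit 20256434806, nat_lit 20975230951, nat_lit 19352306260, nat_lit 20041907919], nat_lit 1271250, nat_lit 1271250, nat_lit 181601, nat_lit 490000, nat_lit 1100001, nat_lit 2024750, [nat_lit 780000, nat_lit 1435000, nat_lit 1271250], [nat_lit 18, nat_lit 40, nat_lit 40, nat_lit 80, nat_lit 2, nat_lit 317, nat_lit 100, nat_lit 10]⟩, C1.Rw.none,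
 ⟨nat_lit 4472, nat_lit 4744, ⟨.ofNat (nat_lit 207259), .ofNat (nat_lit 290899), .ofNat (nat_lit 250233), .ofNat (nat_lit 333872), .ofNat (nat_lit 214490), .ofNat (nat_lit 296064), .ofNat (nat_lit 257620), .ofNat (nat_lit 339193)⟩, ⟨.ofNat (nat_lit 258394), .ofNat (nat_lit 446583), .ofNat (nat_lit 301370), .ofNat (nat_lit 489559), .ofNat (nat_lit 259489), .ofNat (nat_lit 443030), .ofNat (nat_lit 302621), .ofNat (nat_lit 486162)⟩⟩, [⟨nat_lit 0, nat_lit 100, nat_lit 82, nat_lit 76, nat_lit 221237334⟩, ⟨nat_lit 16, nat_lit 89, nat_lit 100, nat_lit 85, nat_lit 40934433⟩, ⟨nat_lit 4, nat_lit 100, nat_lit 83, nat_lit 73, nat_lit 231726270⟩]⟩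
noncomputable def p054_l3 : Lf2 := ⟨nat_lit 0, nat_lit 10, [nat_lit 0, nat_lit 5, nat_lit 5, nat_lit 20], false, nat_lit 0, nat_lit 160, nat_lit 0, nat_lit 160, ⟨nat_lit 1000, nat_lit 0, nat_lit 0, nat_lit 0, nat_lit 0, nat_lit 0, nat_lit 0, nat_lit 0, nat_lit 0, nat_lit 0, nat_lit 0, nat_lit 0, nat_lit 0, nat_lit 0, nat_lit 0, nat_lit 0, false, false⟩,
 nat_lit 0, nat_lit 9495, nat_lit 0, nat_lit 0, nat_lit 6573, nat_lit 9282, nat_lit 2560, nat_lit 0, nat_lit 0, nat_lit 0, nat_lit 0, nat_lit 0, nat_lit 0, nat_lit 0, nat_lit 0, nat_lit 0, nat_lit 0, nat_lit 0, [],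
 ⟨p054_k0, nat_lit 0, nat_lit 0, nat_lit 508, nat_lit 0, nat_lit 751076, [nat_lit 3282000000, nat_lit 7968000000], [], [nat_lit 19279542344, nat_lit 21880828952, nat_lit 18829827960, nat_lit 21507124744, nat_lit 17541672456, nat_lit 17194398364, nat_lit 24113569424, nat_lit 21175438424], nat_lit 1271250, nat_lit 1271250, nat_lit 490000, nat_lit 1100001, nat_lit 0, nat_lit 1100001, [nat_lit 780000, nat_lit 1762500], [nat_lit 74, nat_lit 40, nat_lit 40, nat_lit 80, nat_lit 43, nat_lit 317, nat_lit 100, nat_lit 10]⟩, ⟨p054_k3, nat_lit 0, nat_lit 0, nat_lit 203, nat_lit 0, nat_lit 0, [nat_lit 6250000000, nat_lit 11872000000], [], [nat_lit 31006268000, nat_lit 33065683872, nat_lit 30435667776, nat_lit 32217661192, nat_lit 25158923144, nat_lit 26849558928, nat_lit 24602544336, nat_lit 26045196200], nat_lit 0, nat_lit 0, nat_lit 0, nat_lit 0, nat_lit 0, nat_lit 0, [], [nat_lit 107, nat_lit 40, nat_lit 40, nat_lit 80, nat_lit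 12, nat_lit 373, nat_lit 150, nat_lit 10]⟩,
 zbF0, []⟩
noncomputable def p054_l4 : Lf2 := ⟨nat_lit 0, nat_lit 10, [nat_lit 0, nat_lit 5, nat_lit 5, nat_lit 20], false, nat_lit 0, nat_lit 160, nat_lit 160, nat_lit 360, ⟨nat_lit 804, nat_lit 0, nat_lit 196, nat_lit 5, nat_lit 153, nat_lit 196, nat_lit 56, nat_lit 196, nat_lit 26667, nat_lit 255, nat_lit 82882, nat_lit 285, nat_lit 58464914, nat_lit 0, nat_lit 0, nat_lit 1906966, false, false⟩,
 nat_lit 0, nat_lit 8684, nat_lit 0, nat_lit 0, nat_lit 6011, nat_lit 6852, nat_lit 2005, nat_lit 0, nat_lit 0, nat_lit 0, nat_lit 0, nat_lit 0, nat_lit 0, nat_lit 0, nat_lit 0, nat_lit 78400, nat_lit 0, nat_lit 0, [(nat_lit 15, [(nat_lit 5, nat_lit 196)])],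
 ⟨p054_k0, nat_lit 0, nat_lit 0, nat_lit 508, nat_lit 0, nat_lit 751076, [nat_lit 2896507201, nat_lit 5968486400], [], [nat_lit 18921633212, nat_lit 20953290664, nat_lit 18278501367, nat_lit 20784433208, nat_lit 17505179943, nat_lit 17383500553, nat_lit 23723794719, nat_lit 21036877719], nat_lit 1271250, nat_lit 1271250, nat_lit 490000, nat_lit 1100001, nat_lit 0, nat_lit 1100001, [nat_lit 780000, nat_lit 1762500], [nat_lit 74, nat_lit 40, nat_lit 40, nat_lit 80, nat_lit 43, nat_lit 317, nat_lit 100, nat_lit 10]⟩, ⟨p054_k3, nat_lit 0, nat_lit 0, nat_lit 77, nat_lit 0, nat_lit 0, [nat_lit 5025000000, nat_lit 9545088000], [], [nat_lit 4994073024, nat_lit 7763473440, nat_lit 6051299472, nat_lit 8468142144, nat_lit 19710276528, nat_lit 21324838968, nat_lit 18971026560, nat_lit 20243637552], nat_lit 0, nat_lit 0, nat_lit 0, nat_lit 0, nat_lit 0, nat_lit 0, [], [nat_lit 107, nat_lit 40, nat_lit 40, nat_lit 80, nat_lit 12,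 nat_lit 428, nat_lit 200, nat_lit 11]⟩,
 ⟨nat_lit 4472, nat_lit 5000, ⟨.ofNat (nat_lit 285713), .ofNat (nat_lit 428570), .ofNat (nat_lit 328559), .ofNat (nat_lit 471408), .ofNat (nat_lit 296064), .ofNat (nat_lit 432020), .ofNat (nat_lit 339186), .ofNat (nat_lit 475134)⟩, ⟨.negSucc (nat_lit 28572), .ofNat (nat_lit 257141), .ofNat (nat_lit 0), .ofNat (nat_lit 299999), .negSucc (nat_lit 12423), .ofNat (nat_lit 259489), .ofNat (nat_lit 0), .ofNat (nat_lit 302621)⟩⟩, [⟨nat_lit 7, nat_lit 77, nat_lit 100, nat_lit 72, nat_lit 772676390⟩]⟩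
noncomputable def p054_l5 : Lf2 := ⟨nat_lit 0, nat_lit 10, [nat_lit 0, nat_lit 5, nat_lit 5, nat_lit 20], false, nat_lit 160, nat_lit 256, nat_lit 0, nat_lit 160, ⟨nat_lit 799, nat_lit 0, nat_lit 201, nat_lit 5, nat_lit 153, nat_lit 201, nat_lit 141, nat_lit 201, nat_lit 187267, nat_lit 321, nat_lit 82882, nat_lit 285, nat_lit 50610012, nat_lit 0, nat_lit 0, nat_lit 3880649, false, false⟩,
 nat_lit 0, nat_lit 9077, nat_lit 0, nat_lit 0, nat_lit 6283, nat_lit 7419, nat_lit 1414, nat_lit 0, nat_lit 0, nat_lit 1223, nat_lit 0, nat_lit 0, nat_lit 0, nat_lit 0, nat_lit 0, nat_lit 201000, nat_lit 0, nat_lit 0, [(nat_lit 15, [(nat_lit 6, nat_lit 201)])],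
 ⟨p054_k1, nat_lit 0, nat_lit 0, nat_lit 396, nat_lit 0, nat_lit 726196, [nat_lit 2819298000, nat_lit 4532414800, nat_lit 5310217200], [], [nat_lit 15033948468, nat_lit 16025662952, nat_lit 15136681440, nat_lit 16365697520, nat_lit 18998229271, nat_lit 20971211707, nat_lit 22299021466, nat_lit 20808826305], nat_lit 1271250, nat_lit 1271250, nat_lit 490000, nat_lit 1100001, nat_lit 1100001, nat_lit 1922000, [nat_lit 780000, nat_lit 1435000, nat_lit 1271250], [nat_lit 18, nat_lit 40, nat_lit 40, nat_lit 80, nat_lit 2, nat_lit 345, nat_lit 125, nat_lit 11]⟩, ⟨p054_k4, nat_lit 0, nat_lit 0, nat_lit 234, nat_lit 0, nat_lit 0, [nat_lit 4993750000, nat_lit 7863758000, nat_lit 9485728000], [], [nat_lit 19880001996, nat_lit 21527907920, nat_lit 19517189048, nat_lit 21241420192, nat_lit 15513016556, nat_lit 17139874104, nat_lit 15429083708, nat_lit 16823440044], nat_lit 0, nat_lit 0, nat_lit 0, nat_lit 0, nat_lit 0, nat_lit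 0, [], [nat_lit 46, nat_lit 40, nat_lit 40, nat_lit 80, nat_lit 41, nat_lit 373, nat_lit 150, nat_lit 10]⟩,
 ⟨nat_lit 4472, nat_lit 5000, ⟨.ofNat (nat_lit 285713), .ofNat (nat_lit 428570), .ofNat (nat_lit 328559), .ofNat (nat_lit 471408), .ofNat (nat_lit 296064), .ofNat (nat_lit 432020), .ofNat (nat_lit 339186), .ofNat (nat_lit 475134)⟩, ⟨.ofNat (nat_lit 257141), .ofNat (nat_lit 428570), .ofNat (nat_lit 278570), .ofNat (nat_lit 449999), .ofNat (nat_lit 259489), .ofNat (nat_lit 422636), .ofNat (nat_lit 281055), .ofNat (nat_lit 444203)⟩⟩, [⟨nat_lit 4, nat_lit 100, nat_lit 84, nat_lit 67, nat_lit 747234450⟩]⟩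
noncomputable def p054_l6 : Lf2 := ⟨nat_lit 0, nat_lit 10, [nat_lit 0, nat_lit 5, nat_lit 5, nat_lit 20], false, nat_lit 160, nat_lit 256, nat_lit 160, nat_lit 344, ⟨nat_lit 554, nat_lit 0, nat_lit 446, nat_lit 5, nat_lit 153, nat_lit 446, nat_lit 141, nat_lit 446, nat_lit 187267, nat_lit 321, nat_lit 82882, nat_lit 285, nat_lit 50610012, nat_lit 0, nat_lit 0, nat_lit 3880649, false, false⟩,
 nat_lit 0, nat_lit 7130, nat_lit 0, nat_lit 0, nat_lit 4936, nat_lit 4761, nat_lit 1289, nat_lit 0, nat_lit 0, nat_lit 0, nat_lit 0, nat_lit 0, nat_lit 0, nat_lit 0, nat_lit 0, nat_lit 446000, nat_lit 0, nat_lit 0, [(nat_lit 15, [(nat_lit 6, nat_lit 446)])],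
 ⟨p054_k1, nat_lit 0, nat_lit 0, nat_lit 396, nat_lit 0, nat_lit 726196, [nat_lit 2255308001, nat_lit 2438840801, nat_lit 2070631200], [], [nat_lit 15713248612, nat_lit 17025110820, nat_lit 16704194036, nat_lit 17874126628, nat_lit 19101461310, nat_lit 20189465709, nat_lit 21976768237, nat_lit 20672704337], nat_lit 1271250, nat_lit 1271250, nat_lit 490000, nat_lit 1100001, nat_lit 1100001, nat_lit 1922000, [nat_lit 780000, nat_lit 1435000, nat_lit 1271250], [nat_lit 18, nat_lit 40, nat_lit 40, nat_lit 80, nat_lit 2, nat_lit 345, nat_lit 125, nat_lit 11]⟩, ⟨p054_k4, nat_lit 0, nat_lit 0, nat_lit 104, nat_lit 0, nat_lit 0, [nat_lit 3462500000, nat_lit 5452468000, nat_lit 6577088000], [], [nat_lit 3373201388, nat_lit 5291257424, nat_lit 4098154948, nat_lit 5771594472, nat_lit 12494158597, nat_lit 13463061114, nat_lit 12094085154, nat_lit 12933143652], nat_lit 0, nat_lit 0, nat_lit 0, nat_lit 0, nat_lit 0, nat_lit 0,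 [], [nat_lit 46, nat_lit 40, nat_lit 40, nat_lit 80, nat_lit 41, nat_lit 428, nat_lit 200, nat_lit 11]⟩,
 ⟨nat_lit 4472, nat_lit 5000, ⟨.ofNat (nat_lit 285713), .ofNat (nat_lit 428570), .ofNat (nat_lit 328559), .ofNat (nat_lit 471408), .ofNat (nat_lit 296064), .ofNat (nat_lit 432020), .ofNat (nat_lit 339186), .ofNat (nat_lit 475134)⟩, ⟨.ofNat (nat_lit 257141), .ofNat (nat_lit 428570), .ofNat (nat_lit 278570), .ofNat (nat_lit 449999), .ofNat (nat_lit 259489), .ofNat (nat_lit 422636), .ofNat (nat_lit 281055), .ofNat (nat_lit 444203)⟩⟩, [⟨nat_lit 4, nat_lit 100, nat_lit 84, nat_lit 67, nat_lit 482589208⟩, ⟨nat_lit 7, nat_lit 82, nat_lit 100, nat_lit 66, nat_lit 529956901⟩]⟩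
noncomputable def p054_l7 : Lf2 := ⟨nat_lit 0, nat_lit 10, [nat_lit 0, nat_lit 5, nat_lit 5, nat_lit 20], true, nat_lit 160, nat_lit 240, nat_lit 0, nat_lit 360, ⟨nat_lit 0, nat_lit 0, nat_lit 1000, nat_lit 5, nat_lit 153, nat_lit 1000, nat_lit 144, nat_lit 1000, nat_lit 194400, nat_lit 323, nat_lit 82882, nat_lit 285, nat_lit 50372186, nat_lit 0, nat_lit 0, nat_lit 3917366, false, false⟩,
 nat_lit 0, nat_lit 4933, nat_lit 0, nat_lit 0, nat_lit 3415, nat_lit 0, nat_lit 0, nat_lit 0, nat_lit 0, nat_lit 0, nat_lit 0, nat_lit 0, nat_lit 0, nat_lit 0, nat_lit 219, nat_lit 1000000, nat_lit 0, nat_lit 0, [(nat_lit 15, [(nat_lit 6, nat_lit 1000)])],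
 ⟨p054_k1, nat_lit 0, nat_lit 0, nat_lit 311, nat_lit 0, nat_lit 567334, [nat_lit 3608000000, nat_lit 2084800001, nat_lit 1200000], [], [nat_lit 14630850850, nat_lit 15864349140, nat_lit 15939393030, nat_lit 17048252780, nat_lit 17338815580, nat_lit 18407595960, nat_lit 18968197881, nat_lit 19343249500], nat_lit 1271250, nat_lit 1271250, nat_lit 490000, nat_lit 1100001, nat_lit 1100001, nat_lit 1785000, [nat_lit 780000, nat_lit 1435000, nat_lit 1271250], [nat_lit 18, nat_lit 40, nat_lit 40, nat_lit 80, nat_lit 2, nat_lit 317, nat_lit 100, nat_lit 10]⟩, C1.Rw.none,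
 ⟨nat_lit 4472, nat_lit 5000, ⟨.ofNat (nat_lit 285713), .ofNat (nat_lit 428570), .ofNat (nat_lit 328559), .ofNat (nat_lit 471408), .ofNat (nat_lit 296064), .ofNat (nat_lit 432020), .ofNat (nat_lit 339186), .ofNat (nat_lit 475134)⟩, ⟨.ofNat (nat_lit 278570), .ofNat (nat_lit 421427), .ofNat (nat_lit 299999), .ofNat (nat_lit 442856), .ofNat (nat_lit 281055), .ofNat (nat_lit 417011), .ofNat (nat_lit 302621), .ofNat (nat_lit 438578)⟩⟩, [⟨nat_lit 4, nat_lit 100, nat_lit 87, nat_lit 79, nat_lit 185528762⟩]⟩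
noncomputable def p054_l8 : Lf2 := ⟨nat_lit 0, nat_lit 10, [nat_lit 0, nat_lit 5, nat_lit 5, nat_lit 20], true, nat_lit 240, nat_lit 280, nat_lit 0, nat_lit 360, ⟨nat_lit 0, nat_lit 0, nat_lit 1000, nat_lit 5, nat_lit 152, nat_lit 1000, nat_lit 187, nat_lit 1000, nat_lit 24746, nat_lit 252, nat_lit 87041, nat_lit 287, nat_lit 46974690, nat_lit 0, nat_lit 0, nat_lit 4362678, false, false⟩,
 nat_lit 0, nat_lit 5039, nat_lit 0, nat_lit 0, nat_lit 3488, nat_lit 0, nat_lit 0, nat_lit 0, nat_lit 0, nat_lit 0, nat_lit 0, nat_lit 0, nat_lit 0, nat_lit 0, nat_lit 219, nat_lit 1000000, nat_lit 0, nat_lit 0, [(nat_lit 15, [(nat_lit 6, nat_lit 1000)])],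
 ⟨p054_k1, nat_lit 0, nat_lit 0, nat_lit 271, nat_lit 0, nat_lit 467417, [nat_lit 3608000000, nat_lit 2084800001, nat_lit 1200000], [], [nat_lit 17162276176, nat_lit 17701497944, nat_lit 18187661968, nat_lit 18674063384, nat_lit 19367148168, nat_lit 20038398188, nat_lit 20097287600, nat_lit 20704025336], nat_lit 1271250, nat_lit 1271250, nat_lit 490000, nat_lit 1100001, nat_lit 1271250, nat_lit 1271250, [nat_lit 780000, nat_lit 1435000, nat_lit 1271250], [nat_lit 18, nat_lit 40, nat_lit 40, nat_lit 80, nat_lit 2, nat_lit 249, nat_lit 40, nat_lit 7]⟩, C1.Rw.none,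
 ⟨nat_lit 4743, nat_lit 5000, ⟨.ofNat (nat_lit 285713), .ofNat (nat_lit 428570), .ofNat (nat_lit 328569), .ofNat (nat_lit 471424), .ofNat (nat_lit 290899), .ofNat (nat_lit 430299), .ofNat (nat_lit 333875), .ofNat (nat_lit 473272)⟩, ⟨.ofNat (nat_lit 421427), .ofNat (nat_lit 492856), .ofNat (nat_lit 442856), .ofNat (nat_lit 514284), .ofNat (nat_lit 419281), .ofNat (nat_lit 488981), .ofNat (nat_lit 440769), .ofNat (nat_lit 510469)⟩⟩, [⟨nat_lit 4, nat_lit 100, nat_lit 89, nat_lit 80, nat_lit 421684511⟩]⟩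
noncomputable def p054_l9 : Lf2 := ⟨nat_lit 0, nat_lit 10, [nat_lit 0, nat_lit 5, nat_lit 5, nat_lit 20], true, nat_lit 240, nat_lit 268, nat_lit 0, nat_lit 360, ⟨nat_lit 0, nat_lit 0, nat_lit 1000, nat_lit 5, nat_lit 154, nat_lit 1000, nat_lit 181, nat_lit 1000, nat_lit 50560, nat_lit 270, nat_lit 82925, nat_lit 285, nat_lit 47313877, nat_lit 0, nat_lit 0, nat_lit 4327404, false, false⟩,
 nat_lit 0, nat_lit 4725, nat_lit 0, nat_lit 0, nat_lit 3406, nat_lit 0, nat_lit 0, nat_lit 0, nat_lit 0, nat_lit 0, nat_lit 0, nat_lit 0, nat_lit 0, nat_lit 0, nat_lit 219, nat_lit 1000000, nat_lit 0, nat_lit 0, [(nat_lit 15, [(nat_lit 6, nat_lit 1000)])],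
 ⟨p054_k2, nat_lit 0, nat_lit 0, nat_lit 298, nat_lit 0, nat_lit 536768, [nat_lit 3608000000, nat_lit 2084800001, nat_lit 1200000], [], [nat_lit 17894375228, nat_lit 18428169744, nat_lit 18883965508, nat_lit 19365784600, nat_lit 19290523033, nat_lit 19975289491, nat_lit 20047104602, nat_lit 20665671489], nat_lit 1271250, nat_lit 1271250, nat_lit 490000, nat_lit 1100001, nat_lit 1271250, nat_lit 1271250, [nat_lit 780000, nat_lit 1435000, nat_lit 1271250], [nat_lit 18, nat_lit 40, nat_lit 40, nat_lit 80, nat_lit 2, nat_lit 249, nat_lit 40, nat_lit 7]⟩, C1.Rw.none,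
 ⟨nat_lit 4472, nat_lit 4744, ⟨.ofNat (nat_lit 290899), .ofNat (nat_lit 430299), .ofNat (nat_lit 333872), .ofNat (nat_lit 473270), .ofNat (nat_lit 296064), .ofNat (nat_lit 432020), .ofNat (nat_lit 339193), .ofNat (nat_lit 475149)⟩, ⟨.ofNat (nat_lit 419281), .ofNat (nat_lit 468071), .ofNat (nat_lit 440769), .ofNat (nat_lit 489559), .ofNat (nat_lit 417011), .ofNat (nat_lit 464596), .ofNat (nat_lit 438578), .ofNat (nat_lit 486162)⟩⟩, [⟨nat_lit 4, nat_lit 100, nat_lit 84, nat_lit 78, nat_lit 432161352⟩]⟩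
noncomputable def p054_l10 : Lf2 := ⟨nat_lit 0, nat_lit 10, [nat_lit 0, nat_lit 5, nat_lit 5, nat_lit 20], false, nat_lit 0, nat_lit 280, nat_lit 0, nat_lit 160, ⟨nat_lit 1000, nat_lit 0, nat_lit 0, nat_lit 0, nat_lit 0, nat_lit 0, nat_lit 0, nat_lit 0, nat_lit 0, nat_lit 0, nat_lit 0, nat_lit 0, nat_lit 0, nat_lit 0, nat_lit 0, nat_lit 0, false, false⟩,
 nat_lit 0, nat_lit 8946, nat_lit 0, nat_lit 0, nat_lit 6193, nat_lit 8683, nat_lit 2523, nat_lit 0, nat_lit 0, nat_lit 0, nat_lit 0, nat_lit 0, nat_lit 0, nat_lit 0, nat_lit 0, nat_lit 0, nat_lit 0, nat_lit 0, [],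
 ⟨p054_k0, nat_lit 0, nat_lit 0, nat_lit 483, nat_lit 0, nat_lit 751076, [nat_lit 3282000000, nat_lit 7968000000], [], [nat_lit 23106479750, nat_lit 21018472104, nat_lit 22549880026, nat_lit 24697460640, nat_lit 24411244920, nat_lit 22626106684, nat_lit 33184250958, nat_lit 30484654135], nat_lit 1271250, nat_lit 1271250, nat_lit 1100001, nat_lit 1785000, nat_lit 0, nat_lit 1977500, [nat_lit 780000, nat_lit 1762500], [nat_lit 74, nat_lit 40, nat_lit 40, nat_lit 80, nat_lit 43, nat_lit 373, nat_lit 150, nat_lit 12]⟩, ⟨p054_k3, nat_lit 0, nat_lit 0, nat_lit 182, nat_lit 0, nat_lit 0, [nat_lit 6250000000, nat_lit 11872000000], [], [nat_lit 31035645344, nat_lit 32771882348, nat_lit 33549743924, nat_lit 34904075716, nat_lit 25769726984, nat_lit 27183236300, nat_lit 27788427408, nat_lit 28879413304], nat_lit 0, nat_lit 0, nat_lit 0, nat_lit 0, nat_lit 0, nat_lit 0, [], [nat_lit 107, nat_lit 40, nat_lit 40, nat_lit 80, nat_lit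 12, nat_lit 401, nat_lit 175, nat_lit 10]⟩,
 zbF0, [⟨nat_lit 4, nat_lit 100, nat_lit 85, nat_lit 73, nat_lit 336802539⟩, ⟨nat_lit 9, nat_lit 92, nat_lit 100, nat_lit 40, nat_lit 38261718⟩]⟩
noncomputable def p054_l11 : Lf2 := ⟨nat_lit 0, nat_lit 10, [nat_lit 0, nat_lit 5, nat_lit 5, nat_lit 20], false, nat_lit 0, nat_lit 280, nat_lit 160, nat_lit 360, ⟨nat_lit 1000, nat_lit 0, nat_lit 0, nat_lit 0, nat_lit 0, nat_lit 0, nat_lit 0, nat_lit 0, nat_lit 0, nat_lit 0, nat_lit 0, nat_lit 0, nat_lit 0, nat_lit 0, nat_lit 0, nat_lit 0, false, false⟩,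
 nat_lit 0, nat_lit 9576, nat_lit 0, nat_lit 0, nat_lit 6629, nat_lit 8697, nat_lit 1464, nat_lit 0, nat_lit 0, nat_lit 0, nat_lit 0, nat_lit 0, nat_lit 0, nat_lit 0, nat_lit 0, nat_lit 0, nat_lit 0, nat_lit 0, [],
 ⟨p054_k1, nat_lit 0, nat_lit 0, nat_lit 484, nat_lit 0, nat_lit 751076, [nat_lit 3282000000, nat_lit 6250000000, nat_lit 7968000000], [], [nat_lit 26385126594, nat_lit 23188230296, nat_lit 23726101686, nat_lit 25341205920, nat_lit 22254556362, nat_lit 22566016306, nat_lit 31302277877, nat_lit 28376098068], nat_lit 1271250, nat_lit 1271250, nat_lit 1100001, nat_lit 1785000, nat_lit 0, nat_lit 1977500, [nat_lit 780000, nat_lit 1435000, nat_lit 1271250], [nat_lit 18, nat_lit 40, nat_lit 40, nat_lit 80, nat_lit 2, nat_lit 373, nat_lit 150, nat_lit 12]⟩, ⟨p054_k4, nat_lit 0, nat_lit 0, nat_lit 75, nat_lit 0, nat_lit 0, [nat_lit 6250000000, nat_lit 9842000000, nat_lit 11872000000], [], [nat_lit 7211101508, nat_lit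 10252855224, nat_lit 12010321340, nat_lit 14444053860, nat_lit 23481085182, nat_lit 25282312050, nat_lit 25975365142, nat_lit 27380607720], nat_lit 0, nat_lit 0, nat_lit 0, nat_lit 0, nat_lit 0, nat_lit 0, [], [nat_lit 46, nat_lit 40, nat_lit 40, nat_lit 80, nat_lit 41, nat_lit 456, nat_lit 225, nat_lit 11]⟩,
 zbF0, [⟨nat_lit 4, nat_lit 100, nat_lit 85, nat_lit 73, nat_lit 233117094⟩, ⟨nat_lit 7, nat_lit 77, nat_lit 100, nat_lit 72, nat_lit 810282667⟩]⟩
noncomputable def p054_l12 : Lf2 := ⟨nat_lit 0, nat_lit 10, [nat_lit 0, nat_lit 5, nat_lit 5, nat_lit 20], false, nat_lit 0, nat_lit 280, nat_lit 0, nat_lit 360, ⟨nat_lit 1000, nat_lit 0, nat_lit 0, nat_lit 0, nat_lit 0, nat_lit 0, nat_lit 0, nat_lit 0, nat_lit 0, nat_lit 0, nat_lit 0, nat_lit 0, nat_lit 0, nat_lit 0, nat_lit 0, nat_lit 0, false, false⟩,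
 nat_lit 0, nat_lit 8887, nat_lit 0, nat_lit 0, nat_lit 6152, nat_lit 9439, nat_lit 1609, nat_lit 0, nat_lit 0, nat_lit 780, nat_lit 0, nat_lit 0, nat_lit 0, nat_lit 0, nat_lit 0, nat_lit 0, nat_lit 0, nat_lit 0, [],
 ⟨p054_k1, nat_lit 0, nat_lit 0, nat_lit 415, nat_lit 0, nat_lit 599537, [nat_lit 3282000000, nat_lit 6250000000, nat_lit 7968000000], [], [nat_lit 24609845193, nat_lit 24807413137, nat_lit 36456942804, nat_lit 36764952325, nat_lit 23939980969, nat_lit 24066021065, nat_lit 32415490497, nat_lit 32621996677], nat_lit 1271250, nat_lit 1271250, nat_lit 1271250, nat_lit 1271250, nat_lit 0, nat_lit 1977500, [nat_lit 780000, nat_lit 1435000, nat_lit 1271250], [nat_lit 18, nat_lit 40, nat_lit 40, nat_lit 80, nat_lit 2, nat_lit 289, nat_lit 75, nat_lit 9]⟩, ⟨p054_k4, nat_lit 0, nat_lit 0, nat_lit 267, nat_lit 0, nat_lit 0, [nat_lit 6250000000, nat_lit 9842000000, nat_lit 11872000000], [], [nat_lit 30105207456,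 nat_lit 31974910204, nat_lit 43550186933, nat_lit 44169590461, nat_lit 31990555480, nat_lit 32488722070, nat_lit 38281556216, nat_lit 38275203421], nat_lit 0, nat_lit 0, nat_lit 0, nat_lit 0, nat_lit 0, nat_lit 0, [], [nat_lit 46, nat_lit 40, nat_lit 40, nat_lit 80, nat_lit 41, nat_lit 483, nat_lit 250, nat_lit 12]⟩,
 zbF0, [⟨nat_lit 4, nat_lit 100, nat_lit 89, nat_lit 74, nat_lit 154491568⟩, ⟨nat_lit 7, nat_lit 77, nat_lit 100, nat_lit 72, nat_lit 157503687⟩]⟩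
noncomputable def p054_l13 : Lf2 := ⟨nat_lit 0, nat_lit 10, [nat_lit 0, nat_lit 5, nat_lit 5, nat_lit 20], false, nat_lit 0, nat_lit 276, nat_lit 0, nat_lit 360, ⟨nat_lit 1000, nat_lit 0, nat_lit 0, nat_lit 0, nat_lit 0, nat_lit 0, nat_lit 0, nat_lit 0, nat_lit 0, nat_lit 0, nat_lit 0, nat_lit 0, nat_lit 0, nat_lit 0, nat_lit 0, nat_lit 0, false, false⟩,
 nat_lit 0, nat_lit 8500, nat_lit 0, nat_lit 0, nat_lit 6005, nat_lit 9514, nat_lit 1280, nat_lit 0, nat_lit 0, nat_lit 1006, nat_lit 0, nat_lit 0, nat_lit 0, nat_lit 0, nat_lit 0, nat_lit 0, nat_lit 0, nat_lit 0, [],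
 ⟨p054_k5, nat_lit 0, nat_lit 0, nat_lit 425, nat_lit 0, nat_lit 631414, [nat_lit 3282000000, nat_lit 6250000000, nat_lit 7968000000], [], [nat_lit 24804418605, nat_lit 25028688410, nat_lit 35966540703, nat_lit 36276787835, nat_lit 24678512154, nat_lit 24824304099, nat_lit 32049500245, nat_lit 32260173229], nat_lit 1271250, nat_lit 1271250, nat_lit 1271250, nat_lit 1271250, nat_lit 0, nat_lit 1949250, [nat_lit 780000, nat_lit 1435000, nat_lit 1271250], [nat_lit 18, nat_lit 40, nat_lit 40, nat_lit 80, nat_lit 2, nat_lit 289, nat_lit 75, nat_lit 9]⟩, ⟨p054_k4, nat_lit 0, nat_lit 0, nat_lit 265, nat_lit 0, nat_lit 0, [nat_lit 6250000000, nat_lit 9842000000, nat_lit 11872000000], [], [nat_lit 29214280256, nat_lit 31089932904, nat_lit 42304684192, nat_lit 42956201300, nat_lit 31049604480, nat_lit 31727482988, nat_lit 38018583248, nat_lit 38025919944], nat_lit 0, nat_lit 0, nat_lit 0, nat_lit 0, nat_lit 0, nat_lit 0, [],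 [nat_lit 46, nat_lit 40, nat_lit 40, nat_lit 80, nat_lit 41, nat_lit 483, nat_lit 250, nat_lit 12]⟩,
 zbF0, [⟨nat_lit 4, nat_lit 100, nat_lit 87, nat_lit 73, nat_lit 160585713⟩, ⟨nat_lit 7, nat_lit 77, nat_lit 100, nat_lit 72, nat_lit 176056329⟩]⟩
noncomputable def p054_l14 : Lf2 := ⟨nat_lit 0, nat_lit 10, [nat_lit 0, nat_lit 5, nat_lit 5, nat_lit 20], false, nat_lit 0, nat_lit 268, nat_lit 0, nat_lit 360, ⟨nat_lit 1000, nat_lit 0, nat_lit 0, nat_lit 0, nat_lit 0, nat_lit 0, nat_lit 0, nat_lit 0, nat_lit 0, nat_lit 0, nat_lit 0, nat_lit 0, nat_lit 0, nat_lit 0, nat_lit 0, nat_lit 0, false, false⟩,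
 nat_lit 0, nat_lit 8202, nat_lit 0, nat_lit 0, nat_lit 5913, nat_lit 9946, nat_lit 1182, nat_lit 0, nat_lit 0, nat_lit 1094, nat_lit 0, nat_lit 0, nat_lit 0, nat_lit 0, nat_lit 0, nat_lit 0, nat_lit 0, nat_lit 0, [],
 ⟨p054_k2, nat_lit 0, nat_lit 0, nat_lit 435, nat_lit 0, nat_lit 662135, [nat_lit 3282000000, nat_lit 6250000000, nat_lit 7968000000], [], [nat_lit 25306293301, nat_lit 25531284672, nat_lit 36035230169, nat_lit 36343173969, nat_lit 25388056275, nat_lit 25538854235, nat_lit 31892744798, nat_lit 32106947888], nat_lit 1271250, nat_lit 1271250, nat_lit 1271250, nat_lit 1271250, nat_lit 0, nat_lit 1892750, [nat_lit 780000, nat_lit 1435000, nat_lit 1271250], [nat_lit 18, nat_lit 40, nat_lit 40, nat_lit 80, nat_lit 2, nat_lit 289, nat_lit 75, nat_lit 9]⟩, ⟨p054_k4, nat_lit 0, nat_lit 0, nat_lit 265, nat_lit 0, nat_lit 0, [nat_lit 6250000000, nat_lit 9842000000, nat_lit 11872000000], [], [nat_lit 28937579584,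 nat_lit 30847503656, nat_lit 42410677977, nat_lit 43048449596, nat_lit 30771665036, nat_lit 31460568332, nat_lit 38191511397, nat_lit 38549347937], nat_lit 0, nat_lit 0, nat_lit 0, nat_lit 0, nat_lit 0, nat_lit 0, [], [nat_lit 46, nat_lit 40, nat_lit 40, nat_lit 80, nat_lit 41, nat_lit 483, nat_lit 250, nat_lit 12]⟩,
 zbF0, [⟨nat_lit 4, nat_lit 100, nat_lit 84, nat_lit 73, nat_lit 152944107⟩, ⟨nat_lit 7, nat_lit 77, nat_lit 100, nat_lit 72, nat_lit 184392340⟩]⟩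
noncomputable def p054_l15 : Lf2 := ⟨nat_lit 0, nat_lit 10, [nat_lit 0, nat_lit 5, nat_lit 5, nat_lit 20], false, nat_lit 0, nat_lit 264, nat_lit 0, nat_lit 360, ⟨nat_lit 1000, nat_lit 0, nat_lit 0, nat_lit 0, nat_lit 0, nat_lit 0, nat_lit 0, nat_lit 0, nat_lit 0, nat_lit 0, nat_lit 0, nat_lit 0, nat_lit 0, nat_lit 0, nat_lit 0, nat_lit 0, false, false⟩,
 nat_lit 0, nat_lit 7751, nat_lit 0, nat_lit 0, nat_lit 5700, nat_lit 10746, nat_lit 1020, nat_lit 0, nat_lit 0, nat_lit 1132, nat_lit 0, nat_lit 0, nat_lit 0, nat_lit 0, nat_lit 0, nat_lit 0, nat_lit 0, nat_lit 0, [],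
 ⟨p054_k6, nat_lit 0, nat_lit 0, nat_lit 445, nat_lit 0, nat_lit 691668, [nat_lit 3282000000, nat_lit 6250000000, nat_lit 7968000000], [], [nat_lit 26344325350, nat_lit 26565700300, nat_lit 35393044351, nat_lit 35701212720, nat_lit 26423698480, nat_lit 26574205601, nat_lit 31478889548, nat_lit 31696072176], nat_lit 1271250, nat_lit 1271250, nat_lit 1271250, nat_lit 1271250, nat_lit 0, nat_lit 1864500, [nat_lit 780000, nat_lit 1435000, nat_lit 1271250], [nat_lit 18, nat_lit 40, nat_lit 40, nat_lit 80, nat_lit 2, nat_lit 289, nat_lit 75, nat_lit 9]⟩, ⟨p054_k4, nat_lit 0, nat_lit 0, nat_lit 263, nat_lit 0, nat_lit 0, [nat_lit 6250000000, nat_lit 9842000000, nat_lit 11872000000], [], [nat_lit 28925022784, nat_lit 30898412456, nat_lit 42645563855, nat_lit 43297600082, nat_lit 30294997836, nat_lit 30966281932, nat_lit 38802579736, nat_lit 39149291192], nat_lit 0, nat_lit 0, nat_lit 0, nat_lit 0, nat_lit 0, nat_lit 0, [],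 [nat_lit 46, nat_lit 40, nat_lit 40, nat_lit 80, nat_lit 41, nat_lit 483, nat_lit 250, nat_lit 12]⟩,
 zbF0, [⟨nat_lit 4, nat_lit 100, nat_lit 82, nat_lit 72, nat_lit 162581198⟩, ⟨nat_lit 7, nat_lit 77, nat_lit 100, nat_lit 72, nat_lit 191162881⟩]⟩
noncomputable def b_V_700_500_10_6 : St := ⟨true, nat_lit 1, nat_lit 0, nat_lit 1, nat_lit 80, nat_lit 300, nat_lit 320, nat_lit 200, nat_lit 240, nat_lit 16, nat_lit 396, nat_lit 40, nat_lit 80, nat_lit 0, nat_lit 300, nat_lit 0, nat_lit 360, nat_lit 0, nat_lit 40, nat_lit 0, nat_lit 0, nat_lit 0, nat_lit 0⟩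
theorem d_V_700_500_10_6 (h : EB TB.env) : Dead b_V_700_500_10_6 := chkB_sound0 h (T :=
(.trZ (nat_lit 0) (nat_lit 100) (nat_lit 87) (nat_lit 50) (nat_lit 24) (.trX (nat_lit 13) (nat_lit 88) (nat_lit 32) (nat_lit 100) (nat_lit 392) (.trX (nat_lit 16) (nat_lit 94) (nat_lit 100) (nat_lit 87) (nat_lit 280) (.spl (nat_lit 2) (nat_lit 240)
(.spl (nat_lit 2) (nat_lit 160)
(.spl (nat_lit 2) (nat_lit 80)
(.spl (nat_lit 4) (nat_lit 160)
(.leaf p054_l0)
(.spl (nat_lit 0) (nat_lit 310)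
(.leaf p054_l1)
(.trZ (nat_lit 0) (nat_lit 100) (nat_lit 84) (nat_lit 55) (nat_lit 32) (.trX (nat_lit 16) (nat_lit 89) (nat_lit 100) (nat_lit 85) (nat_lit 268) (.leaf p054_l2)))))
(.spl (nat_lit 4) (nat_lit 160)
(.spl (nat_lit 5) (nat_lit 160)
(.leaf p054_l3)
(.leaf p054_l4))
(.spl (nat_lit 3) (nat_lit 60)
(.trX (nat_lit 16) (nat_lit 90) (nat_lit 100) (nat_lit 74) (nat_lit 256) (.trX (nat_lit 19) (nat_lit 100) (nat_lit 70) (nat_lit 71) (nat_lit 344) (.spl (nat_lit 5) (nat_lit 160)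
(.leaf p054_l5)
(.leaf p054_l6))))
(.spl (nat_lit 4) (nat_lit 240)
(.leaf p054_l7)
(.spl (nat_lit 0) (nat_lit 310)
(.leaf p054_l8)
(.trX (nat_lit 16) (nat_lit 89) (nat_lit 100) (nat_lit 85) (nat_lit 268) (.leaf p054_l9)))))))
(.spl (nat_lit 5) (nat_lit 160)
(.leaf p054_l10)
(.leaf p054_l11)))
(.spl (nat_lit 0) (nat_lit 310)
(.spl (nat_lit 0) (nat_lit 305)
(.leaf p054_l12)
(.trX (nat_lit 13) (nat_lit 87) (nat_lit 35) (nat_lit 100) (nat_lit 388) (.trX (nat_lit 16) (nat_lit 91) (nat_lit 100) (nat_lit 86) (nat_lit 276) (.leaf p054_l13))))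
(.trX (nat_lit 13) (nat_lit 85) (nat_lit 38) (nat_lit 100) (nat_lit 388) (.trX (nat_lit 16) (nat_lit 89) (nat_lit 100) (nat_lit 85) (nat_lit 268) (.spl (nat_lit 0) (nat_lit 315)
(.leaf p054_l14)
(.trX (nat_lit 13) (nat_lit 84) (nat_lit 41) (nat_lit 100) (nat_lit 384) (.trX (nat_lit 16) (nat_lit 86) (nat_lit 100) (nat_lit 84) (nat_lit 264) (.leaf p054_l15)))))))))))) (by decide +kernel)
noncomputable def p054_l16 : Lf2 := ⟨nat_lit 0, nat_lit 10, [nat_lit 0, nat_lit 5, nat_lit 5, nat_lit 20], false, nat_lit 0, nat_lit 80, nat_lit 0, nat_lit 360, ⟨nat_lit 0, nat_lit 0, nat_lit 1000, nat_lit 5, nat_lit 112, nat_lit 704, nat_lit 26, nat_lit 1000, nat_lit 4817, nat_lit 232, nat_lit 117600, nat_lit 299, nat_lit 62132479, nat_lit 0, nat_lit 0, nat_lit 1302191, false, false⟩,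
 nat_lit 0, nat_lit 5106, nat_lit 0, nat_lit 0, nat_lit 3249, nat_lit 0, nat_lit 0, nat_lit 0, nat_lit 0, nat_lit 0, nat_lit 0, nat_lit 0, nat_lit 0, nat_lit 0, nat_lit 177, nat_lit 837400, nat_lit 0, nat_lit 0, [(nat_lit 12, [(nat_lit 5, nat_lit 271), (nat_lit 6, nat_lit 729)])],
 ⟨p054_k7, nat_lit 0, nat_lit 0, nat_lit 465, nat_lit 0, nat_lit 367523, [nat_lit 3292191601, nat_lit 2573084934, nat_lit 358530800], [], [nat_lit 16032034308, nat_lit 16635728125, nat_lit 16250807614, nat_lit 16412836484, nat_lit 14686823989, nat_lit 15648484921, nat_lit 18496017830, nat_lit 17005467602], nat_lit 1271250, nat_lit 1271250, nat_lit 88400, nat_lit 780000, nat_lit 0, nat_lit 490000, [nat_lit 780000, nat_lit 1435000, nat_lit 1271250], [nat_lit 8, nat_lit 40, nat_lit 40, nat_lit 80, nat_lit 1, nat_lit 260, nat_lit 50, nat_lit 8]⟩, ⟨p054_k4, nat_lit 0, nat_lit 0, nat_lit 682, nat_lit 0, nat_lit 605417, [nat_lit 0, nat_lit 0, nat_lit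 0], [], [nat_lit 0, nat_lit 0, nat_lit 0, nat_lit 0, nat_lit 0, nat_lit 0, nat_lit 0, nat_lit 0], nat_lit 1271250, nat_lit 1271250, nat_lit 88400, nat_lit 780000, nat_lit 0, nat_lit 2542500, [nat_lit 1412500, nat_lit 1271250, nat_lit 1271250], [nat_lit 46, nat_lit 40, nat_lit 40, nat_lit 80, nat_lit 41, nat_lit 428, nat_lit 200, nat_lit 12]⟩,
 ⟨nat_lit 5000, nat_lit 5478, ⟨.ofNat (nat_lit 155307), .ofNat (nat_lit 350132), .ofNat (nat_lit 198021), .ofNat (nat_lit 392847), .ofNat (nat_lit 171427), .ofNat (nat_lit 357141), .ofNat (nat_lit 214284), .ofNat (nat_lit 399998)⟩, ⟨.negSucc (nat_lit 45522), .ofNat (nat_lit 104343), .negSucc (nat_lit 2832), .ofNat (nat_lit 147057), .negSucc (nat_lit 28572), .ofNat (nat_lit 114284), .ofNat (nat_lit 0), .ofNat (nat_lit 157141)⟩⟩, []⟩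
noncomputable def p054_l17 : Lf2 := ⟨nat_lit 0, nat_lit 10, [nat_lit 0, nat_lit 5, nat_lit 5, nat_lit 20], false, nat_lit 0, nat_lit 80, nat_lit 0, nat_lit 360, ⟨nat_lit 0, nat_lit 0, nat_lit 1000, nat_lit 5, nat_lit 119, nat_lit 314, nat_lit 28, nat_lit 1000, nat_lit 6667, nat_lit 235, nat_lit 135000, nat_lit 305, nat_lit 61520594, nat_lit 0, nat_lit 0, nat_lit 1415499, false, false⟩,
 nat_lit 0, nat_lit 4332, nat_lit 0, nat_lit 0, nat_lit 2999, nat_lit 0, nat_lit 0, nat_lit 0, nat_lit 0, nat_lit 0, nat_lit 0, nat_lit 0, nat_lit 0, nat_lit 0, nat_lit 179, nat_lit 806800, nat_lit 0, nat_lit 0, [(nat_lit 15, [(nat_lit 5, nat_lit 322), (nat_lit 6, nat_lit 678)])],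
 ⟨p054_k1, nat_lit 0, nat_lit 0, nat_lit 423, nat_lit 0, nat_lit 452512, [nat_lit 3235934400, nat_lit 1713575201, nat_lit 14394399], [], [nat_lit 16270952226, nat_lit 17566231394, nat_lit 16760827680, nat_lit 17935264600, nat_lit 15913360790, nat_lit 17126120855, nat_lit 16496273230, nat_lit 17595253536], nat_lit 1271250, nat_lit 1271250, nat_lit 134400, nat_lit 780000, nat_lit 0, nat_lit 490000, [nat_lit 780000, nat_lit 1435000, nat_lit 1271250], [nat_lit 18, nat_lit 40, nat_lit 40, nat_lit 80, nat_lit 2, nat_lit 260, nat_lit 50, nat_lit 9]⟩, ⟨p054_k4, nat_lit 0, nat_lit 0, nat_lit 766, nat_lit 0, nat_lit 825717, [nat_lit 0, nat_lit 0, nat_lit 0], [], [nat_lit 0, nat_lit 0, nat_lit 0, nat_lit 0, nat_lit 0, nat_lit 0, nat_lit 0, nat_lit 0], nat_lit 1271250, nat_lit 1271250, nat_lit 134400, nat_lit 780000, nat_lit 0, nat_lit 2542500, [nat_lit 1412500, nat_lit 1271250, nat_lit 1271250], [nat_lit 46, nat_lit 40, nat_lit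 40, nat_lit 80, nat_lit 41, nat_lit 428, nat_lit 200, nat_lit 11]⟩,
 ⟨nat_lit 4472, nat_lit 5000, ⟨.ofNat (nat_lit 185713), .ofNat (nat_lit 357141), .ofNat (nat_lit 228562), .ofNat (nat_lit 399984), .ofNat (nat_lit 200895), .ofNat (nat_lit 364042), .ofNat (nat_lit 244020), .ofNat (nat_lit 407160)⟩, ⟨.negSucc (nat_lit 28572), .ofNat (nat_lit 114284), .ofNat (nat_lit 0), .ofNat (nat_lit 157141), .negSucc (nat_lit 12423), .ofNat (nat_lit 123532), .ofNat (nat_lit 0), .ofNat (nat_lit 166665)⟩⟩, [⟨nat_lit 0, nat_lit 100, nat_lit 82, nat_lit 76, nat_lit 76161927⟩]⟩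
noncomputable def p054_l18 : Lf2 := ⟨nat_lit 0, nat_lit 10, [nat_lit 0, nat_lit 5, nat_lit 5, nat_lit 20], false, nat_lit 80, nat_lit 160, nat_lit 0, nat_lit 360, ⟨nat_lit 0, nat_lit 0, nat_lit 1000, nat_lit 5, nat_lit 112, nat_lit 1000, nat_lit 82, nat_lit 1000, nat_lit 62017, nat_lit 276, nat_lit 117600, nat_lit 299, nat_lit 58464708, nat_lit 0, nat_lit 0, nat_lit 2464750, false, false⟩,
 nat_lit 0, nat_lit 5687, nat_lit 0, nat_lit 0, nat_lit 3618, nat_lit 0, nat_lit 0, nat_lit 0, nat_lit 0, nat_lit 0, nat_lit 0, nat_lit 0, nat_lit 0, nat_lit 0, nat_lit 198, nat_lit 948400, nat_lit 0, nat_lit 0, [(nat_lit 12, [(nat_lit 5, nat_lit 86), (nat_lit 6, nat_lit 914)])],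
 ⟨p054_k7, nat_lit 0, nat_lit 0, nat_lit 359, nat_lit 0, nat_lit 367523, [nat_lit 3525765601, nat_lit 2883392267, nat_lit 403592800], [], [nat_lit 12448260927, nat_lit 14127870864, nat_lit 12441867941, nat_lit 13699604343, nat_lit 13793725618, nat_lit 15115324912, nat_lit 16419825799, nat_lit 15076357747], nat_lit 1271250, nat_lit 1271250, nat_lit 88400, nat_lit 780000, nat_lit 490000, nat_lit 1100001, [nat_lit 780000, nat_lit 1435000, nat_lit 1271250], [nat_lit 8, nat_lit 40, nat_lit 40, nat_lit 80, nat_lit 1, nat_lit 289, nat_lit 75, nat_lit 8]⟩, ⟨p054_k4, nat_lit 0, nat_lit 0, nat_lit 682, nat_lit 0, nat_lit 605417, [nat_lit 0, nat_lit 0, nat_lit 0], [], [nat_lit 0, nat_lit 0, nat_lit 0, nat_lit 0, nat_lit 0, nat_lit 0, nat_lit 0, nat_lit 0], nat_lit 1271250, nat_lit 1271250, nat_lit 88400, nat_lit 780000, nat_lit 0, nat_lit 2542500, [nat_lit 1412500, nat_lit 1271250, nat_lit 1271250], [nat_lit 46, nat_lit 40,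 nat_lit 40, nat_lit 80, nat_lit 41, nat_lit 428, nat_lit 200, nat_lit 12]⟩,
 ⟨nat_lit 5000, nat_lit 5478, ⟨.ofNat (nat_lit 155307), .ofNat (nat_lit 350132), .ofNat (nat_lit 198021), .ofNat (nat_lit 392847), .ofNat (nat_lit 171427), .ofNat (nat_lit 357141), .ofNat (nat_lit 214284), .ofNat (nat_lit 399998)⟩, ⟨.ofNat (nat_lit 104343), .ofNat (nat_lit 254209), .ofNat (nat_lit 147057), .ofNat (nat_lit 296923), .ofNat (nat_lit 114284), .ofNat (nat_lit 257141), .ofNat (nat_lit 157141), .ofNat (nat_lit 299999)⟩⟩, [⟨nat_lit 0, nat_lit 100, nat_lit 88, nat_lit 68, nat_lit 27171258⟩]⟩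
noncomputable def p054_l19 : Lf2 := ⟨nat_lit 0, nat_lit 10, [nat_lit 0, nat_lit 5, nat_lit 5, nat_lit 20], false, nat_lit 80, nat_lit 160, nat_lit 0, nat_lit 360, ⟨nat_lit 0, nat_lit 0, nat_lit 1000, nat_lit 5, nat_lit 119, nat_lit 1000, nat_lit 84, nat_lit 1000, nat_lit 66150, nat_lit 278, nat_lit 135000, nat_lit 305, nat_lit 57686671, nat_lit 0, nat_lit 0, nat_lit 2617884, false, false⟩,
 nat_lit 0, nat_lit 4882, nat_lit 0, nat_lit 0, nat_lit 3379, nat_lit 0, nat_lit 0, nat_lit 0, nat_lit 0, nat_lit 0, nat_lit 0, nat_lit 0, nat_lit 0, nat_lit 0, nat_lit 204, nat_lit 926200, nat_lit 0, nat_lit 0, [(nat_lit 15, [(nat_lit 5, nat_lit 123), (nat_lit 6, nat_lit 877)])],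
 ⟨p054_k1, nat_lit 0, nat_lit 0, nat_lit 335, nat_lit 0, nat_lit 452512, [nat_lit 3469229600, nat_lit 1948586801, nat_lit 12807600], [], [nat_lit 14168707009, nat_lit 15481511924, nat_lit 13927621670, nat_lit 15229226564, nat_lit 15091079566, nat_lit 16381769101, nat_lit 15336286832, nat_lit 16505115292], nat_lit 1271250, nat_lit 1271250, nat_lit 134400, nat_lit 780000, nat_lit 490000, nat_lit 1100001, [nat_lit 780000, nat_lit 1435000, nat_lit 1271250], [nat_lit 18, nat_lit 40, nat_lit 40, nat_lit 80, nat_lit 2, nat_lit 289, nat_lit 75, nat_lit 9]⟩, ⟨p054_k4, nat_lit 0, nat_lit 0, nat_lit 766, nat_lit 0, nat_lit 825717, [nat_lit 0, nat_lit 0, nat_lit 0], [], [nat_lit 0, nat_lit 0, nat_lit 0, nat_lit 0, nat_lit 0, nat_lit 0, nat_lit 0, nat_lit 0], nat_lit 1271250, nat_lit 1271250, nat_lit 134400, nat_lit 780000, nat_lit 0, nat_lit 2542500, [nat_lit 1412500, nat_lit 1271250, nat_lit 1271250], [nat_lit 46, nat_lit 40,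 nat_lit 40, nat_lit 80, nat_lit 41, nat_lit 428, nat_lit 200, nat_lit 11]⟩,
 ⟨nat_lit 4472, nat_lit 5000, ⟨.ofNat (nat_lit 185713), .ofNat (nat_lit 357141), .ofNat (nat_lit 228562), .ofNat (nat_lit 399984), .ofNat (nat_lit 200895), .ofNat (nat_lit 364042), .ofNat (nat_lit 244020), .ofNat (nat_lit 407160)⟩, ⟨.ofNat (nat_lit 114284), .ofNat (nat_lit 257141), .ofNat (nat_lit 157141), .ofNat (nat_lit 299999), .ofNat (nat_lit 123532), .ofNat (nat_lit 259489), .ofNat (nat_lit 166665), .ofNat (nat_lit 302621)⟩⟩, [⟨nat_lit 0, nat_lit 100, nat_lit 82, nat_lit 76, nat_lit 91779469⟩]⟩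
noncomputable def p054_l20 : Lf2 := ⟨nat_lit 0, nat_lit 10, [nat_lit 0, nat_lit 5, nat_lit 5, nat_lit 20], true, nat_lit 160, nat_lit 240, nat_lit 0, nat_lit 360, ⟨nat_lit 0, nat_lit 0, nat_lit 1000, nat_lit 5, nat_lit 96, nat_lit 1000, nat_lit 140, nat_lit 1000, nat_lit 183750, nat_lit 320, nat_lit 86400, nat_lit 287, nat_lit 55076785, nat_lit 0, nat_lit 0, nat_lit 3102279, false, false⟩,
 nat_lit 0, nat_lit 5988, nat_lit 0, nat_lit 0, nat_lit 3810, nat_lit 0, nat_lit 0, nat_lit 0, nat_lit 0, nat_lit 0, nat_lit 0, nat_lit 0, nat_lit 0, nat_lit 0, nat_lit 131, nat_lit 593200, nat_lit 0, nat_lit 0, [(nat_lit 12, [(nat_lit 5, nat_lit 678), (nat_lit 6, nat_lit 322)])],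
 ⟨p054_k8, nat_lit 0, nat_lit 0, nat_lit 307, nat_lit 0, nat_lit 304008, [nat_lit 3045569201, nat_lit 1129221201, nat_lit 264994400], [], [nat_lit 15703520098, nat_lit 15630544358, nat_lit 14366213242, nat_lit 14851609162, nat_lit 17388881507, nat_lit 17980431470, nat_lit 19237109243, nat_lit 18351470933], nat_lit 1271250, nat_lit 1271250, nat_lit 88400, nat_lit 490000, nat_lit 1100001, nat_lit 1785000, [nat_lit 780000, nat_lit 1762500, nat_lit 1271250], [nat_lit 99, nat_lit 40, nat_lit 40, nat_lit 80, nat_lit 17, nat_lit 317, nat_lit 100, nat_lit 9]⟩, C1.Rw.none,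
 ⟨nat_lit 5244, nat_lit 5478, ⟨.ofNat (nat_lit 155307), .ofNat (nat_lit 275199), .ofNat (nat_lit 198021), .ofNat (nat_lit 317913), .ofNat (nat_lit 163411), .ofNat (nat_lit 280485), .ofNat (nat_lit 206182), .ofNat (nat_lit 323256)⟩, ⟨.ofNat (nat_lit 254209), .ofNat (nat_lit 404075), .ofNat (nat_lit 296923), .ofNat (nat_lit 446789), .ofNat (nat_lit 255744), .ofNat (nat_lit 402086), .ofNat (nat_lit 298515), .ofNat (nat_lit 444857)⟩⟩, []⟩
noncomputable def p054_l21 : Lf2 := ⟨nat_lit 0, nat_lit 10, [nat_lit 0, nat_lit 5, nat_lit 5, nat_lit 20], true, nat_lit 160, nat_lit 240, nat_lit 0, nat_lit 360, ⟨nat_lit 0, nat_lit 0, nat_lit 1000, nat_lit 5, nat_lit 100, nat_lit 1000, nat_lit 140, nat_lit 1000, nat_lit 183750, nat_lit 320, nat_lit 93750, nat_lit 290, nat_lit 54792688, nat_lit 0, nat_lit 0, nat_lit 3162047, false, false⟩,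
 nat_lit 0, nat_lit 5519, nat_lit 0, nat_lit 0, nat_lit 3665, nat_lit 0, nat_lit 0, nat_lit 0, nat_lit 0, nat_lit 0, nat_lit 0, nat_lit 0, nat_lit 0, nat_lit 0, nat_lit 160, nat_lit 983800, nat_lit 0, nat_lit 0, [(nat_lit 12, [(nat_lit 5, nat_lit 27), (nat_lit 6, nat_lit 973)])],
 ⟨p054_k9, nat_lit 0, nat_lit 0, nat_lit 260, nat_lit 0, nat_lit 348897, [nat_lit 3063889201, nat_lit 2088409201, nat_lit 11044000], [], [nat_lit 14239872178, nat_lit 14962092380, nat_lit 13838301058, nat_lit 14475865953, nat_lit 17668036515, nat_lit 18459622950, nat_lit 19364104513, nat_lit 18523404823], nat_lit 1271250, nat_lit 1271250, nat_lit 111251, nat_lit 490000, nat_lit 1100001, nat_lit 1785000, [nat_lit 780000, nat_lit 1435000, nat_lit 1271250], [nat_lit 18, nat_lit 40, nat_lit 40, nat_lit 80, nat_lit 2, nat_lit 317, nat_lit 100, nat_lit 10]⟩, C1.Rw.none,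
 ⟨nat_lit 5000, nat_lit 5245, ⟨.ofNat (nat_lit 170728), .ofNat (nat_lit 280485), .ofNat (nat_lit 213499), .ofNat (nat_lit 323256), .ofNat (nat_lit 178570), .ofNat (nat_lit 285713), .ofNat (nat_lit 221427), .ofNat (nat_lit 328570)⟩, ⟨.ofNat (nat_lit 255744), .ofNat (nat_lit 402086), .ofNat (nat_lit 298515), .ofNat (nat_lit 444857), .ofNat (nat_lit 257141), .ofNat (nat_lit 399998), .ofNat (nat_lit 299999), .ofNat (nat_lit 442856)⟩⟩, [⟨nat_lit 4, nat_lit 100, nat_lit 92, nat_lit 75, nat_lit 142516599⟩]⟩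
noncomputable def p054_l22 : Lf2 := ⟨nat_lit 0, nat_lit 10, [nat_lit 0, nat_lit 5, nat_lit 5, nat_lit 20], false, nat_lit 160, nat_lit 240, nat_lit 0, nat_lit 360, ⟨nat_lit 0, nat_lit 0, nat_lit 1000, nat_lit 5, nat_lit 135, nat_lit 1000, nat_lit 140, nat_lit 1000, nat_lit 183750, nat_lit 320, nat_lit 173400, nat_lit 317, nat_lit 52106687, nat_lit 0, nat_lit 0, nat_lit 3652402, false, false⟩,
 nat_lit 0, nat_lit 5556, nat_lit 0, nat_lit 0, nat_lit 3535, nat_lit 0, nat_lit 0, nat_lit 0, nat_lit 0, nat_lit 0, nat_lit 0, nat_lit 0, nat_lit 0, nat_lit 0, nat_lit 204, nat_lit 978400, nat_lit 0, nat_lit 0, [(nat_lit 12, [(nat_lit 5, nat_lit 36), (nat_lit 6, nat_lit 964)])],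
 ⟨p054_k7, nat_lit 0, nat_lit 0, nat_lit 227, nat_lit 0, nat_lit 367523, [nat_lit 3592785601, nat_lit 2973745600, nat_lit 424852800], [], [nat_lit 14377919421, nat_lit 14582076142, nat_lit 13907288142, nat_lit 14961029982, nat_lit 16010563342, nat_lit 16971685392, nat_lit 16324605742, nat_lit 17311651992], nat_lit 1271250, nat_lit 1271250, nat_lit 490000, nat_lit 780000, nat_lit 1100001, nat_lit 1785000, [nat_lit 780000, nat_lit 1435000, nat_lit 1271250], [nat_lit 8, nat_lit 40, nat_lit 40, nat_lit 80, nat_lit 1, nat_lit 317, nat_lit 100, nat_lit 9]⟩, ⟨p054_k4, nat_lit 0, nat_lit 0, nat_lit 607, nat_lit 0, nat_lit 605417, [nat_lit 0, nat_lit 0, nat_lit 0], [], [nat_lit 0, nat_lit 0, nat_lit 0, nat_lit 0, nat_lit 0, nat_lit 0, nat_lit 0, nat_lit 0], nat_lit 1271250, nat_lit 1271250, nat_lit 490000, nat_lit 780000, nat_lit 0, nat_lit 2542500, [nat_lit 1412500, nat_lit 1271250, nat_lit 1271250], [nat_lit 46, nat_lit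 40, nat_lit 40, nat_lit 80, nat_lit 41, nat_lit 428, nat_lit 200, nat_lit 11]⟩,
 ⟨nat_lit 5000, nat_lit 5478, ⟨.ofNat (nat_lit 275199), .ofNat (nat_lit 350132), .ofNat (nat_lit 317913), .ofNat (nat_lit 392847), .ofNat (nat_lit 285713), .ofNat (nat_lit 357141), .ofNat (nat_lit 328570), .ofNat (nat_lit 399998)⟩, ⟨.ofNat (nat_lit 254209), .ofNat (nat_lit 404075), .ofNat (nat_lit 296923), .ofNat (nat_lit 446789), .ofNat (nat_lit 257141), .ofNat (nat_lit 399998), .ofNat (nat_lit 299999), .ofNat (nat_lit 442856)⟩⟩, [⟨nat_lit 4, nat_lit 100, nat_lit 94, nat_lit 75, nat_lit 117007136⟩]⟩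
noncomputable def p054_l23 : Lf2 := ⟨nat_lit 0, nat_lit 10, [nat_lit 0, nat_lit 5, nat_lit 5, nat_lit 20], false, nat_lit 160, nat_lit 240, nat_lit 0, nat_lit 360, ⟨nat_lit 0, nat_lit 0, nat_lit 1000, nat_lit 5, nat_lit 119, nat_lit 1000, nat_lit 140, nat_lit 1000, nat_lit 183750, nat_lit 320, nat_lit 135000, nat_lit 305, nat_lit 53384268, nat_lit 0, nat_lit 0, nat_lit 3434333, false, false⟩,
 nat_lit 0, nat_lit 4662, nat_lit 0, nat_lit 0, nat_lit 3227, nat_lit 0, nat_lit 0, nat_lit 0, nat_lit 0, nat_lit 0, nat_lit 0, nat_lit 0, nat_lit 0, nat_lit 0, nat_lit 194, nat_lit 878200, nat_lit 0, nat_lit 0, [(nat_lit 15, [(nat_lit 5, nat_lit 203), (nat_lit 6, nat_lit 797)])],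
 ⟨p054_k1, nat_lit 0, nat_lit 0, nat_lit 307, nat_lit 0, nat_lit 452512, [nat_lit 3376045600, nat_lit 1855114801, nat_lit 14503600], [], [nat_lit 16845865160, nat_lit 16770796071, nat_lit 15827285616, nat_lit 16972593596, nat_lit 18286200393, nat_lit 19380700106, nat_lit 18386229892, nat_lit 19382672240], nat_lit 1271250, nat_lit 1271250, nat_lit 134400, nat_lit 780000, nat_lit 1100001, nat_lit 1785000, [nat_lit 780000, nat_lit 1435000, nat_lit 1271250], [nat_lit 18, nat_lit 40, nat_lit 40, nat_lit 80, nat_lit 2, nat_lit 317, nat_lit 100, nat_lit 10]⟩, ⟨p054_k4, nat_lit 0, nat_lit 0, nat_lit 766, nat_lit 0, nat_lit 825717, [nat_lit 0, nat_lit 0, nat_lit 0], [], [nat_lit 0, nat_lit 0, nat_lit 0, nat_lit 0, nat_lit 0, nat_lit 0, nat_lit 0, nat_lit 0], nat_lit 1271250, nat_lit 1271250, nat_lit 134400, nat_lit 780000, nat_lit 0, nat_lit 2542500, [nat_lit 1412500, nat_lit 1271250, nat_lit 1271250], [nat_lit 46, nat_lit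 40, nat_lit 40, nat_lit 80, nat_lit 41, nat_lit 428, nat_lit 200, nat_lit 11]⟩,
 ⟨nat_lit 4472, nat_lit 5000, ⟨.ofNat (nat_lit 185713), .ofNat (nat_lit 357141), .ofNat (nat_lit 228562), .ofNat (nat_lit 399984), .ofNat (nat_lit 200895), .ofNat (nat_lit 364042), .ofNat (nat_lit 244020), .ofNat (nat_lit 407160)⟩, ⟨.ofNat (nat_lit 257141), .ofNat (nat_lit 399998), .ofNat (nat_lit 299999), .ofNat (nat_lit 442856), .ofNat (nat_lit 259489), .ofNat (nat_lit 395445), .ofNat (nat_lit 302621), .ofNat (nat_lit 438578)⟩⟩, [⟨nat_lit 0, nat_lit 100, nat_lit 82, nat_lit 76, nat_lit 99486881⟩, ⟨nat_lit 4, nat_lit 100, nat_lit 85, nat_lit 73, nat_lit 112873031⟩]⟩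
noncomputable def p054_l24 : Lf2 := ⟨nat_lit 0, nat_lit 10, [nat_lit 0, nat_lit 5, nat_lit 5, nat_lit 20], false, nat_lit 240, nat_lit 300, nat_lit 0, nat_lit 360, ⟨nat_lit 0, nat_lit 0, nat_lit 1000, nat_lit 5, nat_lit 108, nat_lit 1000, nat_lit 191, nat_lit 1000, nat_lit 3701, nat_lit 228, nat_lit 109350, nat_lit 296, nat_lit 49629983, nat_lit 0, nat_lit 0, nat_lit 3876071, false, false⟩,
 nat_lit 0, nat_lit 5140, nat_lit 0, nat_lit 607, nat_lit 3270, nat_lit 0, nat_lit 0, nat_lit 0, nat_lit 0, nat_lit 0, nat_lit 0, nat_lit 0, nat_lit 0, nat_lit 0, nat_lit 140, nat_lit 638200, nat_lit 0, nat_lit 0, [(nat_lit 12, [(nat_lit 5, nat_lit 603), (nat_lit 6, nat_lit 397)])],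
 ⟨p054_k7, nat_lit 0, nat_lit 0, nat_lit 307, nat_lit 0, nat_lit 304977, [nat_lit 2881258801, nat_lit 2029938801, nat_lit 296884400], [], [nat_lit 17699427971, nat_lit 18805329279, nat_lit 17734327843, nat_lit 18736047323, nat_lit 20605095702, nat_lit 21885746369, nat_lit 20376361003, nat_lit 21258184073], nat_lit 1271250, nat_lit 1271250, nat_lit 88400, nat_lit 780000, nat_lit 1271250, nat_lit 1271250, [nat_lit 780000, nat_lit 1435000, nat_lit 1271250], [nat_lit 8, nat_lit 40, nat_lit 40, nat_lit 80, nat_lit 1, nat_lit 345, nat_lit 125, nat_lit 9]⟩, ⟨p054_k4, nat_lit 0, nat_lit 0, nat_lit 619, nat_lit 0, nat_lit 502385, [nat_lit 0, nat_lit 0, nat_lit 0], [], [nat_lit 0, nat_lit 0, nat_lit 0, nat_lit 0, nat_lit 0, nat_lit 0, nat_lit 0, nat_lit 0], nat_lit 1271250, nat_lit 1271250, nat_lit 88400, nat_lit 780000, nat_lit 0, nat_lit 2542500, [nat_lit 1412500, nat_lit 1271250, nat_lit 1271250], [nat_lit 46, nat_lit 40,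 nat_lit 40, nat_lit 80, nat_lit 41, nat_lit 401, nat_lit 175, nat_lit 11]⟩,
 ⟨nat_lit 5000, nat_lit 5478, ⟨.ofNat (nat_lit 155307), .ofNat (nat_lit 350132), .ofNat (nat_lit 176664), .ofNat (nat_lit 371489), .ofNat (nat_lit 171427), .ofNat (nat_lit 357141), .ofNat (nat_lit 192856), .ofNat (nat_lit 378570)⟩, ⟨.ofNat (nat_lit 404075), .ofNat (nat_lit 516475), .ofNat (nat_lit 446789), .ofNat (nat_lit 559189), .ofNat (nat_lit 399998), .ofNat (nat_lit 507141), .ofNat (nat_lit 442856), .ofNat (nat_lit 549998)⟩⟩, [⟨nat_lit 0, nat_lit 100, nat_lit 89, nat_lit 49, nat_lit 108145221⟩, ⟨nat_lit 16, nat_lit 100, nat_lit 95, nat_lit 87, nat_lit 282225359⟩]⟩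
noncomputable def p054_l25 : Lf2 := ⟨nat_lit 0, nat_lit 10, [nat_lit 0, nat_lit 5, nat_lit 5, nat_lit 20], true, nat_lit 240, nat_lit 300, nat_lit 0, nat_lit 336, ⟨nat_lit 0, nat_lit 38, nat_lit 962, nat_lit 5, nat_lit 101, nat_lit 1000, nat_lit 192, nat_lit 962, nat_lit 3701, nat_lit 228, nat_lit 96267, nat_lit 291, nat_lit 49990261, nat_lit 4588845, nat_lit 12420894, nat_lit 3795220, false, false⟩,
 nat_lit 0, nat_lit 5280, nat_lit 0, nat_lit 318, nat_lit 3360, nat_lit 0, nat_lit 0, nat_lit 0, nat_lit 0, nat_lit 0, nat_lit 0, nat_lit 0, nat_lit 0, nat_lit 0, nat_lit 129, nat_lit 619000, nat_lit 0, nat_lit 0, [(nat_lit 12, [(nat_lit 1, nat_lit 38), (nat_lit 5, nat_lit 597), (nat_lit 6, nat_lit 365)])],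
 ⟨p054_k7, nat_lit 0, nat_lit 0, nat_lit 286, nat_lit 0, nat_lit 268812, [nat_lit 2783894800, nat_lit 1952635600, nat_lit 276385200], [], [nat_lit 17597733552, nat_lit 18023641744, nat_lit 17178009200, nat_lit 17708759160, nat_lit 20389845937, nat_lit 21037060051, nat_lit 19971287360, nat_lit 20437019070], nat_lit 1271250, nat_lit 1271250, nat_lit 134400, nat_lit 490000, nat_lit 1271250, nat_lit 1271250, [nat_lit 780000, nat_lit 1435000, nat_lit 1271250], [nat_lit 8, nat_lit 40, nat_lit 40, nat_lit 80, nat_lit 1, nat_lit 317, nat_lit 100, nat_lit 9]⟩, C1.Rw.none,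
 ⟨nat_lit 5244, nat_lit 5478, ⟨.ofNat (nat_lit 191650), .ofNat (nat_lit 296556), .ofNat (nat_lit 202329), .ofNat (nat_lit 307235), .ofNat (nat_lit 199431), .ofNat (nat_lit 301871), .ofNat (nat_lit 210124), .ofNat (nat_lit 312563)⟩, ⟨.ofNat (nat_lit 404075), .ofNat (nat_lit 516475), .ofNat (nat_lit 446789), .ofNat (nat_lit 559189), .ofNat (nat_lit 402086), .ofNat (nat_lit 511843), .ofNat (nat_lit 444857), .ofNat (nat_lit 554614)⟩⟩, [⟨nat_lit 0, nat_lit 100, nat_lit 91, nat_lit 54, nat_lit 150099490⟩, ⟨nat_lit 16, nat_lit 100, nat_lit 95, nat_lit 87, nat_lit 268696673⟩]⟩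
noncomputable def p054_l26 : Lf2 := ⟨nat_lit 0, nat_lit 10, [nat_lit 0, nat_lit 5, nat_lit 5, nat_lit 20], true, nat_lit 240, nat_lit 300, nat_lit 0, nat_lit 336, ⟨nat_lit 0, nat_lit 24, nat_lit 976, nat_lit 5, nat_lit 107, nat_lit 1000, nat_lit 192, nat_lit 976, nat_lit 3701, nat_lit 228, nat_lit 106667, nat_lit 295, nat_lit 49621931, nat_lit 4984005, nat_lit 12394064, nat_lit 3871751, false, false⟩,
 nat_lit 0, nat_lit 5312, nat_lit 0, nat_lit 0, nat_lit 3380, nat_lit 0, nat_lit 0, nat_lit 0, nat_lit 0, nat_lit 0, nat_lit 0, nat_lit 0, nat_lit 0, nat_lit 0, nat_lit 127, nat_lit 596200, nat_lit 0, nat_lit 0, [(nat_lit 12, [(nat_lit 1, nat_lit 24), (nat_lit 5, nat_lit 649), (nat_lit 6, nat_lit 327)])],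
 ⟨p054_k7, nat_lit 0, nat_lit 0, nat_lit 294, nat_lit 0, nat_lit 304008, [nat_lit 2752093201, nat_lit 1889584934, nat_lit 260586000], [], [nat_lit 17501593595, nat_lit 17924251309, nat_lit 17114508402, nat_lit 17635663683, nat_lit 20248236229, nat_lit 20895243758, nat_lit 19903061783, nat_lit 20369841588], nat_lit 1271250, nat_lit 1271250, nat_lit 157850, nat_lit 490000, nat_lit 1271250, nat_lit 1271250, [nat_lit 780000, nat_lit 1435000, nat_lit 1271250], [nat_lit 8, nat_lit 40, nat_lit 40, nat_lit 80, nat_lit 1, nat_lit 317, nat_lit 100, nat_lit 9]⟩, C1.Rw.none,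
 ⟨nat_lit 5244, nat_lit 5478, ⟨.ofNat (nat_lit 209822), .ofNat (nat_lit 307235), .ofNat (nat_lit 220501), .ofNat (nat_lit 317913), .ofNat (nat_lit 217441), .ofNat (nat_lit 312563), .ofNat (nat_lit 228133), .ofNat (nat_lit 323256)⟩, ⟨.ofNat (nat_lit 404075), .ofNat (nat_lit 516475), .ofNat (nat_lit 446789), .ofNat (nat_lit 559189), .ofNat (nat_lit 402086), .ofNat (nat_lit 511843), .ofNat (nat_lit 444857), .ofNat (nat_lit 554614)⟩⟩, [⟨nat_lit 0, nat_lit 100, nat_lit 92, nat_lit 59, nat_lit 147264235⟩, ⟨nat_lit 16, nat_lit 100, nat_lit 95, nat_lit 87, nat_lit 265046565⟩]⟩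
noncomputable def p054_l27 : Lf2 := ⟨nat_lit 0, nat_lit 10, [nat_lit 0, nat_lit 5, nat_lit 5, nat_lit 20], true, nat_lit 240, nat_lit 292, nat_lit 0, nat_lit 336, ⟨nat_lit 0, nat_lit 0, nat_lit 1000, nat_lit 5, nat_lit 107, nat_lit 1000, nat_lit 188, nat_lit 1000, nat_lit 8501, nat_lit 237, nat_lit 106667, nat_lit 295, nat_lit 49984284, nat_lit 0, nat_lit 0, nat_lit 3835043, false, false⟩,
 nat_lit 0, nat_lit 5035, nat_lit 0, nat_lit 0, nat_lit 3343, nat_lit 0, nat_lit 0, nat_lit 0, nat_lit 0, nat_lit 0, nat_lit 0, nat_lit 0, nat_lit 0, nat_lit 0, nat_lit 106, nat_lit 623200, nat_lit 0, nat_lit 0, [(nat_lit 12, [(nat_lit 5, nat_lit 628), (nat_lit 6, nat_lit 372)])],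
 ⟨p054_k9, nat_lit 0, nat_lit 0, nat_lit 264, nat_lit 0, nat_lit 348897, [nat_lit 2475748801, nat_lit 1364762134, nat_lit 20416000], [], [nat_lit 17887946367, nat_lit 18442095287, nat_lit 17654558241, nat_lit 18184183039, nat_lit 20350744792, nat_lit 21008449457, nat_lit 20014690574, nat_lit 20488169266], nat_lit 1271250, nat_lit 1271250, nat_lit 157850, nat_lit 490000, nat_lit 1271250, nat_lit 1271250, [nat_lit 780000, nat_lit 1435000, nat_lit 1271250], [nat_lit 18, nat_lit 40, nat_lit 40, nat_lit 80, nat_lit 2, nat_lit 226, nat_lit 20, nat_lit 7]⟩, C1.Rw.none,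
 ⟨nat_lit 5000, nat_lit 5245, ⟨.ofNat (nat_lit 206748), .ofNat (nat_lit 301871), .ofNat (nat_lit 228133), .ofNat (nat_lit 323256), .ofNat (nat_lit 214284), .ofNat (nat_lit 307141), .ofNat (nat_lit 235713), .ofNat (nat_lit 328570)⟩, ⟨.ofNat (nat_lit 402086), .ofNat (nat_lit 497209), .ofNat (nat_lit 444857), .ofNat (nat_lit 539979), .ofNat (nat_lit 399998), .ofNat (nat_lit 492856), .ofNat (nat_lit 442856), .ofNat (nat_lit 535713)⟩⟩, [⟨nat_lit 0, nat_lit 100, nat_lit 89, nat_lit 61, nat_lit 145333907⟩, ⟨nat_lit 16, nat_lit 100, nat_lit 100, nat_lit 89, nat_lit 260341557⟩]⟩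
noncomputable def p054_l28 : Lf2 := ⟨nat_lit 0, nat_lit 10, [nat_lit 0, nat_lit 5, nat_lit 5, nat_lit 20], false, nat_lit 240, nat_lit 300, nat_lit 0, nat_lit 348, ⟨nat_lit 0, nat_lit 0, nat_lit 1000, nat_lit 5, nat_lit 140, nat_lit 1000, nat_lit 191, nat_lit 1000, nat_lit 3701, nat_lit 228, nat_lit 183750, nat_lit 320, nat_lit 47462559, nat_lit 0, nat_lit 0, nat_lit 4268859, false, false⟩,
 nat_lit 0, nat_lit 5458, nat_lit 0, nat_lit 0, nat_lit 3473, nat_lit 0, nat_lit 0, nat_lit 0, nat_lit 0, nat_lit 0, nat_lit 0, nat_lit 0, nat_lit 0, nat_lit 0, nat_lit 138, nat_lit 630400, nat_lit 0, nat_lit 0, [(nat_lit 12, [(nat_lit 5, nat_lit 616), (nat_lit 6, nat_lit 384)])],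
 ⟨p054_k7, nat_lit 0, nat_lit 0, nat_lit 281, nat_lit 0, nat_lit 367523, [nat_lit 2858553601, nat_lit 1997646934, nat_lit 279036800], [], [nat_lit 16789754243, nat_lit 17866212199, nat_lit 17194836459, nat_lit 18221468911, nat_lit 19618026356, nat_lit 20561333250, nat_lit 19894807443, nat_lit 20796299386], nat_lit 1271250, nat_lit 1271250, nat_lit 490000, nat_lit 780000, nat_lit 1271250, nat_lit 1271250, [nat_lit 780000, nat_lit 1435000, nat_lit 1271250], [nat_lit 8, nat_lit 40, nat_lit 40, nat_lit 80, nat_lit 1, nat_lit 345, nat_lit 125, nat_lit 9]⟩, ⟨p054_k10, nat_lit 0, nat_lit 0, nat_lit 567, nat_lit 0, nat_lit 525362, [nat_lit 0, nat_lit 0, nat_lit 0], [], [nat_lit 0, nat_lit 0, nat_lit 0, nat_lit 0, nat_lit 0, nat_lit 0, nat_lit 0, nat_lit 0], nat_lit 1271250, nat_lit 1271250, nat_lit 490000, nat_lit 780000, nat_lit 0, nat_lit 2457750, [nat_lit 1412500, nat_lit 1271250, nat_lit 1271250], [nat_lit 46, nat_lit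 40, nat_lit 40, nat_lit 80, nat_lit 41, nat_lit 428, nat_lit 200, nat_lit 11]⟩,
 ⟨nat_lit 5000, nat_lit 5478, ⟨.ofNat (nat_lit 296556), .ofNat (nat_lit 371489), .ofNat (nat_lit 317913), .ofNat (nat_lit 392847), .ofNat (nat_lit 307141), .ofNat (nat_lit 378570), .ofNat (nat_lit 328570), .ofNat (nat_lit 399998)⟩, ⟨.ofNat (nat_lit 404075), .ofNat (nat_lit 516475), .ofNat (nat_lit 446789), .ofNat (nat_lit 559189), .ofNat (nat_lit 399998), .ofNat (nat_lit 507141), .ofNat (nat_lit 442856), .ofNat (nat_lit 549998)⟩⟩, [⟨nat_lit 16, nat_lit 100, nat_lit 95, nat_lit 87, nat_lit 226190613⟩, ⟨nat_lit 4, nat_lit 100, nat_lit 94, nat_lit 75, nat_lit 59987922⟩]⟩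
noncomputable def p054_l29 : Lf2 := ⟨nat_lit 0, nat_lit 10, [nat_lit 0, nat_lit 5, nat_lit 5, nat_lit 20], false, nat_lit 240, nat_lit 280, nat_lit 0, nat_lit 360, ⟨nat_lit 0, nat_lit 0, nat_lit 1000, nat_lit 5, nat_lit 119, nat_lit 1000, nat_lit 182, nat_lit 1000, nat_lit 24746, nat_lit 252, nat_lit 135000, nat_lit 305, nat_lit 49730602, nat_lit 0, nat_lit 0, nat_lit 3928898, false, false⟩,
 nat_lit 0, nat_lit 4981, nat_lit 0, nat_lit 0, nat_lit 3448, nat_lit 0, nat_lit 0, nat_lit 0, nat_lit 0, nat_lit 0, nat_lit 0, nat_lit 0, nat_lit 0, nat_lit 0, nat_lit 152, nat_lit 679600, nat_lit 0, nat_lit 0, [(nat_lit 15, [(nat_lit 5, nat_lit 534), (nat_lit 6, nat_lit 466)])],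
 ⟨p054_k1, nat_lit 0, nat_lit 0, nat_lit 309, nat_lit 0, nat_lit 452512, [nat_lit 2982996800, nat_lit 1455874401, nat_lit 37416799], [], [nat_lit 18914276797, nat_lit 19922331994, nat_lit 18981375104, nat_lit 19897632800, nat_lit 20603053500, nat_lit 21949010631, nat_lit 20522879568, nat_lit 21367843424], nat_lit 1271250, nat_lit 1271250, nat_lit 134400, nat_lit 780000, nat_lit 1271250, nat_lit 1271250, [nat_lit 780000, nat_lit 1435000, nat_lit 1271250], [nat_lit 18, nat_lit 40, nat_lit 40, nat_lit 80, nat_lit 2, nat_lit 238, nat_lit 30, nat_lit 7]⟩, ⟨p054_k4, nat_lit 0, nat_lit 0, nat_lit 766, nat_lit 0, nat_lit 825717, [nat_lit 0, nat_lit 0, nat_lit 0], [], [nat_lit 0, nat_lit 0, nat_lit 0, nat_lit 0, nat_lit 0, nat_lit 0, nat_lit 0, nat_lit 0], nat_lit 1271250, nat_lit 1271250, nat_lit 134400, nat_lit 780000, nat_lit 0, nat_lit 2542500, [nat_lit 1412500, nat_lit 1271250, nat_lit 1271250], [nat_lit 46, nat_lit 40,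 nat_lit 40, nat_lit 80, nat_lit 41, nat_lit 428, nat_lit 200, nat_lit 11]⟩,
 ⟨nat_lit 4472, nat_lit 5000, ⟨.ofNat (nat_lit 185713), .ofNat (nat_lit 357141), .ofNat (nat_lit 228562), .ofNat (nat_lit 399984), .ofNat (nat_lit 200895), .ofNat (nat_lit 364042), .ofNat (nat_lit 244020), .ofNat (nat_lit 407160)⟩, ⟨.ofNat (nat_lit 399998), .ofNat (nat_lit 471427), .ofNat (nat_lit 442856), .ofNat (nat_lit 514284), .ofNat (nat_lit 395445), .ofNat (nat_lit 463423), .ofNat (nat_lit 438578), .ofNat (nat_lit 506556)⟩⟩, [⟨nat_lit 0, nat_lit 100, nat_lit 82, nat_lit 76, nat_lit 108720281⟩, ⟨nat_lit 16, nat_lit 94, nat_lit 100, nat_lit 87, nat_lit 264315836⟩]⟩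
noncomputable def b_V_700_500_10_7 : St := ⟨true, nat_lit 1, nat_lit 1, nat_lit 1, nat_lit 80, nat_lit 280, nat_lit 320, nat_lit 200, nat_lit 240, nat_lit 16, nat_lit 120, nat_lit 40, nat_lit 80, nat_lit 0, nat_lit 300, nat_lit 0, nat_lit 360, nat_lit 0, nat_lit 40, nat_lit 0, nat_lit 0, nat_lit 0, nat_lit 0⟩
theorem d_V_700_500_10_7 (h : EB TB.env) : Dead b_V_700_500_10_7 := chkB_sound0 h (T :=
(.spl (nat_lit 4) (nat_lit 160)
(.spl (nat_lit 4) (nat_lit 80)
(.spl (nat_lit 0) (nat_lit 300)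
(.leaf p054_l16)
(.trZ (nat_lit 0) (nat_lit 100) (nat_lit 87) (nat_lit 50) (nat_lit 24) (.leaf p054_l17)))
(.spl (nat_lit 0) (nat_lit 300)
(.leaf p054_l18)
(.trZ (nat_lit 0) (nat_lit 100) (nat_lit 87) (nat_lit 50) (nat_lit 24) (.leaf p054_l19))))
(.spl (nat_lit 4) (nat_lit 240)
(.spl (nat_lit 0) (nat_lit 300)
(.spl (nat_lit 2) (nat_lit 80)
(.spl (nat_lit 0) (nat_lit 290)
(.leaf p054_l20)
(.trZ (nat_lit 0) (nat_lit 100) (nat_lit 89) (nat_lit 45) (nat_lit 20) (.leaf p054_l21)))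
(.leaf p054_l22))
(.trZ (nat_lit 0) (nat_lit 100) (nat_lit 87) (nat_lit 50) (nat_lit 24) (.leaf p054_l23)))
(.spl (nat_lit 0) (nat_lit 300)
(.spl (nat_lit 1) (nat_lit 220)
(.leaf p054_l24)
(.trZ (nat_lit 0) (nat_lit 100) (nat_lit 92) (nat_lit 49) (nat_lit 24) (.trX (nat_lit 19) (nat_lit 100) (nat_lit 68) (nat_lit 80) (nat_lit 348) (.spl (nat_lit 2) (nat_lit 80)
(.trX (nat_lit 23) (nat_lit 100) (nat_lit 76) (nat_lit 82) (nat_lit 336) (.spl (nat_lit 0) (nat_lit 290)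
(.spl (nat_lit 1) (nat_lit 230)
(.leaf p054_l25)
(.trZ (nat_lit 0) (nat_lit 100) (nat_lit 93) (nat_lit 54) (nat_lit 28) (.leaf p054_l26)))
(.trZ (nat_lit 0) (nat_lit 100) (nat_lit 90) (nat_lit 54) (nat_lit 28) (.trX (nat_lit 16) (nat_lit 100) (nat_lit 100) (nat_lit 89) (nat_lit 292) (.leaf p054_l27)))))
(.leaf p054_l28)))))
(.trZ (nat_lit 0) (nat_lit 100) (nat_lit 87) (nat_lit 50) (nat_lit 24) (.trX (nat_lit 16) (nat_lit 94) (nat_lit 100) (nat_lit 87) (nat_lit 280) (.leaf p054_l29))))))) (by decide +kernel)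
noncomputable def p054_l30 : Lf2 := ⟨nat_lit 0, nat_lit 10, [nat_lit 0, nat_lit 5, nat_lit 5, nat_lit 20], false, nat_lit 0, nat_lit 80, nat_lit 0, nat_lit 360, ⟨nat_lit 18, nat_lit 0, nat_lit 982, nat_lit 5, nat_lit 165, nat_lit 0, nat_lit 26, nat_lit 949, nat_lit 4817, nat_lit 232, nat_lit 91267, nat_lit 289, nat_lit 57292885, nat_lit 0, nat_lit 0, nat_lit 2068639, false, false⟩,
 nat_lit 1042, nat_lit 4493, nat_lit 0, nat_lit 0, nat_lit 3522, nat_lit 446, nat_lit 0, nat_lit 0, nat_lit 0, nat_lit 0, nat_lit 0, nat_lit 0, nat_lit 0, nat_lit 0, nat_lit 191, nat_lit 945400, nat_lit 0, nat_lit 0, [(nat_lit 12, [(nat_lit 5, nat_lit 61), (nat_lit 6, nat_lit 921)])],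
 ⟨p054_k7, nat_lit 0, nat_lit 0, nat_lit 357, nat_lit 0, nat_lit 367523, [nat_lit 3477810001, nat_lit 2861365734, nat_lit 408449200], [], [nat_lit 13637685504, nat_lit 14888780004, nat_lit 14511236176, nat_lit 15746731440, nat_lit 12889497824, nat_lit 14058712328, nat_lit 14974075589, nat_lit 14971513583], nat_lit 1271250, nat_lit 1271250, nat_lit 780000, nat_lit 1100001, nat_lit 0, nat_lit 490000, [nat_lit 780000, nat_lit 1435000, nat_lit 1271250], [nat_lit 8, nat_lit 40, nat_lit 40, nat_lit 80, nat_lit 1, nat_lit 272, nat_lit 60, nat_lit 8]⟩, ⟨p054_k4, nat_lit 0, nat_lit 0, nat_lit 583, nat_lit 0, nat_lit 605417, [nat_lit 112500000, nat_lit 177156000, nat_lit 213696000], [], [nat_lit 1264632856, nat_lit 792998560, nat_lit 792998560, nat_lit 626344216, nat_lit 859883424, nat_lit 666582376, nat_lit 1039035092, nat_lit 629736432], nat_lit 1271250, nat_lit 1271250, nat_lit 780000, nat_lit 1100001, nat_lit 0, nat_lit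 2542500, [nat_lit 1412500, nat_lit 1271250, nat_lit 1271250], [nat_lit 46, nat_lit 40, nat_lit 40, nat_lit 80, nat_lit 41, nat_lit 428, nat_lit 200, nat_lit 11]⟩,
 ⟨nat_lit 5000, nat_lit 5478, ⟨.ofNat (nat_lit 350132), .ofNat (nat_lit 425065), .ofNat (nat_lit 392847), .ofNat (nat_lit 467773), .ofNat (nat_lit 357141), .ofNat (nat_lit 428570), .ofNat (nat_lit 399998), .ofNat (nat_lit 471421)⟩, ⟨.negSucc (nat_lit 45522), .ofNat (nat_lit 104343), .negSucc (nat_lit 2832), .ofNat (nat_lit 147057), .negSucc (nat_lit 28572), .ofNat (nat_lit 114284), .ofNat (nat_lit 0), .ofNat (nat_lit 157141)⟩⟩, [⟨nat_lit 19, nat_lit 100, nat_lit 77, nat_lit 72, nat_lit 5068697⟩]⟩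
noncomputable def p054_l31 : Lf2 := ⟨nat_lit 0, nat_lit 10, [nat_lit 0, nat_lit 5, nat_lit 5, nat_lit 20], false, nat_lit 0, nat_lit 80, nat_lit 0, nat_lit 360, ⟨nat_lit 171, nat_lit 0, nat_lit 829, nat_lit 5, nat_lit 209, nat_lit 829, nat_lit 26, nat_lit 829, nat_lit 4817, nat_lit 232, nat_lit 1350, nat_lit 206, nat_lit 52679751, nat_lit 0, nat_lit 0, nat_lit 2594316, false, false⟩,
 nat_lit 5060, nat_lit 1578, nat_lit 0, nat_lit 0, nat_lit 4224, nat_lit 2168, nat_lit 139, nat_lit 0, nat_lit 0, nat_lit 176, nat_lit 0, nat_lit 0, nat_lit 0, nat_lit 0, nat_lit 114, nat_lit 829000, nat_lit 0, nat_lit 0, [(nat_lit 12, [(nat_lit 6, nat_lit 829)])],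
 ⟨p054_k7, nat_lit 0, nat_lit 0, nat_lit 345, nat_lit 0, nat_lit 367523, [nat_lit 2875276801, nat_lit 2413969600, nat_lit 404350800], [], [nat_lit 15333090497, nat_lit 16459258689, nat_lit 19877290145, nat_lit 20073897968, nat_lit 15802591041, nat_lit 15119428865, nat_lit 22208089761, nat_lit 20270236833], nat_lit 1271250, nat_lit 1271250, nat_lit 1100001, nat_lit 1785000, nat_lit 0, nat_lit 490000, [nat_lit 780000, nat_lit 1435000, nat_lit 1271250], [nat_lit 8, nat_lit 40, nat_lit 40, nat_lit 80, nat_lit 1, nat_lit 317, nat_lit 100, nat_lit 9]⟩, ⟨p054_k4, nat_lit 0, nat_lit 0, nat_lit 565, nat_lit 0, nat_lit 605417, [nat_lit 1068750000, nat_lit 1682982000, nat_lit 2030112000], [], [nat_lit 6568579204, nat_lit 5868065036, nat_lit 5839491796, nat_lit 5914178916, nat_lit 10121208212, nat_lit 8131612932, nat_lit 6167899236, nat_lit 5091072920], nat_lit 1271250, nat_lit 1271250, nat_lit 1271250, nat_lit 1271250, nat_lit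 0, nat_lit 2542500, [nat_lit 1412500, nat_lit 1271250, nat_lit 1271250], [nat_lit 46, nat_lit 40, nat_lit 40, nat_lit 80, nat_lit 41, nat_lit 456, nat_lit 225, nat_lit 12]⟩,
 ⟨nat_lit 5000, nat_lit 5478, ⟨.ofNat (nat_lit 425065), .ofNat (nat_lit 574920), .ofNat (nat_lit 467773), .ofNat (nat_lit 617614), .ofNat (nat_lit 428570), .ofNat (nat_lit 571415), .ofNat (nat_lit 471421), .ofNat (nat_lit 614253)⟩, ⟨.negSucc (nat_lit 45522), .ofNat (nat_lit 104343), .negSucc (nat_lit 2832), .ofNat (nat_lit 147057), .negSucc (nat_lit 28572), .ofNat (nat_lit 114284), .ofNat (nat_lit 0), .ofNat (nat_lit 157141)⟩⟩, [⟨nat_lit 7, nat_lit 77, nat_lit 100, nat_lit 72, nat_lit 30532070⟩]⟩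
noncomputable def p054_l32 : Lf2 := ⟨nat_lit 0, nat_lit 10, [nat_lit 0, nat_lit 5, nat_lit 5, nat_lit 20], false, nat_lit 0, nat_lit 80, nat_lit 0, nat_lit 360, ⟨nat_lit 18, nat_lit 0, nat_lit 982, nat_lit 5, nat_lit 167, nat_lit 129, nat_lit 28, nat_lit 982, nat_lit 6667, nat_lit 235, nat_lit 82882, nat_lit 285, nat_lit 57077985, nat_lit 0, nat_lit 0, nat_lit 2096904, false, false⟩,
 nat_lit 1009, nat_lit 3934, nat_lit 0, nat_lit 0, nat_lit 3422, nat_lit 432, nat_lit 0, nat_lit 0, nat_lit 0, nat_lit 0, nat_lit 0, nat_lit 0, nat_lit 0, nat_lit 0, nat_lit 206, nat_lit 963400, nat_lit 0, nat_lit 0, [(nat_lit 15, [(nat_lit 5, nat_lit 31), (nat_lit 6, nat_lit 951)])],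
 ⟨p054_k1, nat_lit 0, nat_lit 0, nat_lit 362, nat_lit 0, nat_lit 452512, [nat_lit 3503827201, nat_lit 2019893201, nat_lit 20867600], [], [nat_lit 15404417044, nat_lit 16699650520, nat_lit 16283764180, nat_lit 17459246460, nat_lit 14904018944, nat_lit 16068011812, nat_lit 15753560420, nat_lit 16852663236], nat_lit 1271250, nat_lit 1271250, nat_lit 780000, nat_lit 1100001, nat_lit 0, nat_lit 490000, [nat_lit 780000, nat_lit 1435000, nat_lit 1271250], [nat_lit 18, nat_lit 40, nat_lit 40, nat_lit 80, nat_lit 2, nat_lit 272, nat_lit 60, nat_lit 9]⟩, ⟨p054_k4, nat_lit 0, nat_lit 0, nat_lit 699, nat_lit 0, nat_lit 825717, [nat_lit 112500000, nat_lit 177156000, nat_lit 213696000], [], [nat_lit 1243299096, nat_lit 786469464, nat_lit 786469464, nat_lit 631471608, nat_lit 855636552, nat_lit 656499996, nat_lit 1029887856, nat_lit 633437136], nat_lit 1271250, nat_lit 1271250, nat_lit 780000, nat_lit 1100001, nat_lit 0, nat_lit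 2542500, [nat_lit 1412500, nat_lit 1271250, nat_lit 1271250], [nat_lit 46, nat_lit 40, nat_lit 40, nat_lit 80, nat_lit 41, nat_lit 428, nat_lit 200, nat_lit 11]⟩,
 ⟨nat_lit 4472, nat_lit 5000, ⟨.ofNat (nat_lit 357141), .ofNat (nat_lit 428570), .ofNat (nat_lit 399984), .ofNat (nat_lit 471408), .ofNat (nat_lit 364042), .ofNat (nat_lit 432020), .ofNat (nat_lit 407160), .ofNat (nat_lit 475134)⟩, ⟨.negSucc (nat_lit 28572), .ofNat (nat_lit 114284), .ofNat (nat_lit 0), .ofNat (nat_lit 157141), .negSucc (nat_lit 12423), .ofNat (nat_lit 123532), .ofNat (nat_lit 0), .ofNat (nat_lit 166665)⟩⟩, [⟨nat_lit 19, nat_lit 100, nat_lit 77, nat_lit 72, nat_lit 4878622⟩]⟩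
noncomputable def p054_l33 : Lf2 := ⟨nat_lit 0, nat_lit 10, [nat_lit 0, nat_lit 5, nat_lit 5, nat_lit 20], false, nat_lit 0, nat_lit 80, nat_lit 0, nat_lit 360, ⟨nat_lit 92, nat_lit 61, nat_lit 847, nat_lit 5, nat_lit 209, nat_lit 170, nat_lit 28, nat_lit 847, nat_lit 6017, nat_lit 234, nat_lit 1067, nat_lit 207, nat_lit 52676495, nat_lit 14323505, nat_lit 0, nat_lit 2594632, false, false⟩,
 nat_lit 2529, nat_lit 2285, nat_lit 0, nat_lit 0, nat_lit 3332, nat_lit 1083, nat_lit 0, nat_lit 0, nat_lit 0, nat_lit 84, nat_lit 0, nat_lit 0, nat_lit 0, nat_lit 0, nat_lit 150, nat_lit 871400, nat_lit 0, nat_lit 0, [(nat_lit 15, [(nat_lit 1, nat_lit 61), (nat_lit 6, nat_lit 847)])],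
 ⟨p054_k1, nat_lit 0, nat_lit 0, nat_lit 303, nat_lit 0, nat_lit 391189, [nat_lit 3055236200, nat_lit 1774612467, nat_lit 23516400], [], [nat_lit 16327693544, nat_lit 16978746448, nat_lit 19149861408, nat_lit 19712737692, nat_lit 15671248080, nat_lit 16281086396, nat_lit 19067008510, nat_lit 18894143816], nat_lit 1271250, nat_lit 1271250, nat_lit 1100001, nat_lit 1785000, nat_lit 0, nat_lit 490000, [nat_lit 780000, nat_lit 1435000, nat_lit 1271250], [nat_lit 18, nat_lit 40, nat_lit 40, nat_lit 80, nat_lit 2, nat_lit 317, nat_lit 100, nat_lit 10]⟩, ⟨p054_k4, nat_lit 0, nat_lit 0, nat_lit 613, nat_lit 0, nat_lit 713819, [nat_lit 575000000, nat_lit 905464000, nat_lit 1092224000], [], [nat_lit 3495073316, nat_lit 3428252688, nat_lit 3368213872, nat_lit 3351415936, nat_lit 5333695814, nat_lit 4339815884, nat_lit 3358864808, nat_lit 2825642134], nat_lit 1271250, nat_lit 1271250, nat_lit 1271250, nat_lit 1271250, nat_lit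 0, nat_lit 2542500, [nat_lit 1412500, nat_lit 1271250, nat_lit 1271250], [nat_lit 46, nat_lit 40, nat_lit 40, nat_lit 80, nat_lit 41, nat_lit 456, nat_lit 225, nat_lit 12]⟩,
 ⟨nat_lit 4743, nat_lit 5000, ⟨.ofNat (nat_lit 428570), .ofNat (nat_lit 571426), .ofNat (nat_lit 471424), .ofNat (nat_lit 614278), .ofNat (nat_lit 430299), .ofNat (nat_lit 569697), .ofNat (nat_lit 473272), .ofNat (nat_lit 612668)⟩, ⟨.negSucc (nat_lit 28572), .ofNat (nat_lit 114284), .ofNat (nat_lit 0), .ofNat (nat_lit 157141), .negSucc (nat_lit 20404), .ofNat (nat_lit 118994), .ofNat (nat_lit 0), .ofNat (nat_lit 161970)⟩⟩, [⟨nat_lit 7, nat_lit 77, nat_lit 100, nat_lit 72, nat_lit 14810344⟩]⟩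
noncomputable def p054_l34 : Lf2 := ⟨nat_lit 0, nat_lit 10, [nat_lit 0, nat_lit 5, nat_lit 5, nat_lit 20], false, nat_lit 0, nat_lit 80, nat_lit 0, nat_lit 360, ⟨nat_lit 39, nat_lit 146, nat_lit 815, nat_lit 5, nat_lit 209, nat_lit 274, nat_lit 29, nat_lit 815, nat_lit 6667, nat_lit 235, nat_lit 3100, nat_lit 208, nat_lit 52673531, nat_lit 14326469, nat_lit 0, nat_lit 2594920, false, false⟩,
 nat_lit 1129, nat_lit 3633, nat_lit 0, nat_lit 0, nat_lit 3433, nat_lit 483, nat_lit 0, nat_lit 0, nat_lit 0, nat_lit 37, nat_lit 0, nat_lit 0, nat_lit 0, nat_lit 0, nat_lit 152, nat_lit 873400, nat_lit 0, nat_lit 0, [(nat_lit 15, [(nat_lit 1, nat_lit 146), (nat_lit 6, nat_lit 815)])],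
 ⟨p054_k2, nat_lit 0, nat_lit 0, nat_lit 322, nat_lit 0, nat_lit 430997, [nat_lit 3045647200, nat_lit 1756972534, nat_lit 14226000], [], [nat_lit 19048327293, nat_lit 18190517684, nat_lit 20113418814, nat_lit 20624280560, nat_lit 17027314936, nat_lit 17577639248, nat_lit 19412434083, nat_lit 19891648028], nat_lit 1271250, nat_lit 1271250, nat_lit 1100001, nat_lit 1785000, nat_lit 0, nat_lit 490000, [nat_lit 780000, nat_lit 1435000, nat_lit 1271250], [nat_lit 18, nat_lit 40, nat_lit 40, nat_lit 80, nat_lit 2, nat_lit 317, nat_lit 100, nat_lit 10]⟩, ⟨p054_k4, nat_lit 0, nat_lit 0, nat_lit 681, nat_lit 0, nat_lit 825717, [nat_lit 243750000, nat_lit 383838000, nat_lit 463008000], [], [nat_lit 1492754280, nat_lit 1402697904, nat_lit 1379597472, nat_lit 1374886920, nat_lit 2293013178, nat_lit 1849759248, nat_lit 1412271372, nat_lit 1179524588], nat_lit 1271250, nat_lit 1271250, nat_lit 1271250, nat_lit 1271250, nat_lit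 0, nat_lit 2542500, [nat_lit 1412500, nat_lit 1271250, nat_lit 1271250], [nat_lit 46, nat_lit 40, nat_lit 40, nat_lit 80, nat_lit 41, nat_lit 456, nat_lit 225, nat_lit 12]⟩,
 ⟨nat_lit 4472, nat_lit 4744, ⟨.ofNat (nat_lit 430299), .ofNat (nat_lit 569698), .ofNat (nat_lit 473270), .ofNat (nat_lit 612668), .ofNat (nat_lit 432020), .ofNat (nat_lit 567976), .ofNat (nat_lit 475149), .ofNat (nat_lit 611103)⟩, ⟨.negSucc (nat_lit 20404), .ofNat (nat_lit 118994), .ofNat (nat_lit 0), .ofNat (nat_lit 161970), .negSucc (nat_lit 12423), .ofNat (nat_lit 123532), .ofNat (nat_lit 0), .ofNat (nat_lit 166665)⟩⟩, [⟨nat_lit 22, nat_lit 100, nat_lit 80, nat_lit 60, nat_lit 8248801⟩]⟩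
noncomputable def p054_l35 : Lf2 := ⟨nat_lit 0, nat_lit 10, [nat_lit 0, nat_lit 5, nat_lit 5, nat_lit 20], false, nat_lit 80, nat_lit 160, nat_lit 0, nat_lit 360, ⟨nat_lit 0, nat_lit 0, nat_lit 1000, nat_lit 5, nat_lit 166, nat_lit 1000, nat_lit 83, nat_lit 1000, nat_lit 64067, nat_lit 277, nat_lit 82788, nat_lit 285, nat_lit 53634377, nat_lit 0, nat_lit 0, nat_lit 3240360, false, false⟩,
 nat_lit 0, nat_lit 2969, nat_lit 0, nat_lit 0, nat_lit 1889, nat_lit 0, nat_lit 0, nat_lit 0, nat_lit 0, nat_lit 0, nat_lit 0, nat_lit 0, nat_lit 0, nat_lit 0, nat_lit 92, nat_lit 428800, nat_lit 0, nat_lit 0, [(nat_lit 12, [(nat_lit 5, nat_lit 952), (nat_lit 6, nat_lit 48)]), (nat_lit 15, [(nat_lit 5, nat_lit 952), (nat_lit 6, nat_lit 48)])],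
 ⟨p054_k7, nat_lit 0, nat_lit 0, nat_lit 349, nat_lit 0, nat_lit 501257, [nat_lit 2410848000, nat_lit 1272176000, nat_lit 197382400], [], [nat_lit 19652498312, nat_lit 20574495532, nat_lit 19727255836, nat_lit 21269794028, nat_lit 20250219704, nat_lit 21734330356, nat_lit 21135149496, nat_lit 22381556404], nat_lit 1271250, nat_lit 1271250, nat_lit 780000, nat_lit 1100001, nat_lit 490000, nat_lit 1100001, [nat_lit 780000, nat_lit 1435000, nat_lit 1271250], [nat_lit 8, nat_lit 40, nat_lit 40, nat_lit 80, nat_lit 1, nat_lit 317, nat_lit 100, nat_lit 9]⟩, ⟨p054_k4, nat_lit 0, nat_lit 0, nat_lit 699, nat_lit 0, nat_lit 825717, [nat_lit 0, nat_lit 0, nat_lit 0], [], [nat_lit 0, nat_lit 0, nat_lit 0, nat_lit 0, nat_lit 0, nat_lit 0, nat_lit 0, nat_lit 0], nat_lit 1271250, nat_lit 1271250, nat_lit 780000, nat_lit 1100001, nat_lit 0, nat_lit 2542500, [nat_lit 1412500, nat_lit 1271250, nat_lit 1271250], [nat_lit 46, nat_lit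 40, nat_lit 40, nat_lit 80, nat_lit 41, nat_lit 428, nat_lit 200, nat_lit 11]⟩,
 ⟨nat_lit 4472, nat_lit 5478, ⟨.ofNat (nat_lit 350132), .ofNat (nat_lit 425065), .ofNat (nat_lit 392815), .ofNat (nat_lit 467727), .ofNat (nat_lit 364042), .ofNat (nat_lit 432020), .ofNat (nat_lit 407143), .ofNat (nat_lit 475101)⟩, ⟨.ofNat (nat_lit 104343), .ofNat (nat_lit 254209), .ofNat (nat_lit 147057), .ofNat (nat_lit 296923), .ofNat (nat_lit 123532), .ofNat (nat_lit 259489), .ofNat (nat_lit 166665), .ofNat (nat_lit 302621)⟩⟩, []⟩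
noncomputable def p054_l36 : Lf2 := ⟨nat_lit 0, nat_lit 10, [nat_lit 0, nat_lit 5, nat_lit 5, nat_lit 20], false, nat_lit 80, nat_lit 160, nat_lit 0, nat_lit 360, ⟨nat_lit 66, nat_lit 0, nat_lit 934, nat_lit 5, nat_lit 209, nat_lit 934, nat_lit 82, nat_lit 934, nat_lit 62017, nat_lit 276, nat_lit 1350, nat_lit 206, nat_lit 49559095, nat_lit 0, nat_lit 0, nat_lit 3688746, false, false⟩,
 nat_lit 1945, nat_lit 3981, nat_lit 0, nat_lit 0, nat_lit 3770, nat_lit 833, nat_lit 0, nat_lit 0, nat_lit 0, nat_lit 259, nat_lit 0, nat_lit 0, nat_lit 0, nat_lit 0, nat_lit 172, nat_lit 934000, nat_lit 0, nat_lit 0, [(nat_lit 12, [(nat_lit 6, nat_lit 934)])],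
 ⟨p054_k7, nat_lit 0, nat_lit 0, nat_lit 227, nat_lit 0, nat_lit 367523, [nat_lit 3346492801, nat_lit 2799321601, nat_lit 428696800], [], [nat_lit 14604895242, nat_lit 14717970683, nat_lit 16145875083, nat_lit 17132384183, nat_lit 14730768723, nat_lit 15754006823, nat_lit 17028392403, nat_lit 17918458263], nat_lit 1271250, nat_lit 1271250, nat_lit 1100001, nat_lit 1785000, nat_lit 490000, nat_lit 1100001, [nat_lit 780000, nat_lit 1435000, nat_lit 1271250], [nat_lit 8, nat_lit 40, nat_lit 40, nat_lit 80, nat_lit 1, nat_lit 317, nat_lit 100, nat_lit 9]⟩, ⟨p054_k4, nat_lit 0, nat_lit 0, nat_lit 565, nat_lit 0, nat_lit 605417, [nat_lit 412500000, nat_lit 649572000, nat_lit 783552000], [], [nat_lit 2533482004, nat_lit 2272123736, nat_lit 2261384956, nat_lit 2290331496, nat_lit 3901383002, nat_lit 3136930572, nat_lit 2382422496, nat_lit 1967306030], nat_lit 1271250, nat_lit 1271250, nat_lit 1271250, nat_lit 1271250, nat_lit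 0, nat_lit 2542500, [nat_lit 1412500, nat_lit 1271250, nat_lit 1271250], [nat_lit 46, nat_lit 40, nat_lit 40, nat_lit 80, nat_lit 41, nat_lit 456, nat_lit 225, nat_lit 12]⟩,
 ⟨nat_lit 5000, nat_lit 5478, ⟨.ofNat (nat_lit 425065), .ofNat (nat_lit 574920), .ofNat (nat_lit 467773), .ofNat (nat_lit 617614), .ofNat (nat_lit 428570), .ofNat (nat_lit 571415), .ofNat (nat_lit 471421), .ofNat (nat_lit 614253)⟩, ⟨.ofNat (nat_lit 104343), .ofNat (nat_lit 254209), .ofNat (nat_lit 147057), .ofNat (nat_lit 296923), .ofNat (nat_lit 114284), .ofNat (nat_lit 257141), .ofNat (nat_lit 157141), .ofNat (nat_lit 299999)⟩⟩, [⟨nat_lit 7, nat_lit 77, nat_lit 100, nat_lit 72, nat_lit 11733137⟩]⟩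
noncomputable def p054_l37 : Lf2 := ⟨nat_lit 0, nat_lit 10, [nat_lit 0, nat_lit 5, nat_lit 5, nat_lit 20], false, nat_lit 80, nat_lit 160, nat_lit 0, nat_lit 360, ⟨nat_lit 76, nat_lit 0, nat_lit 924, nat_lit 5, nat_lit 209, nat_lit 924, nat_lit 84, nat_lit 924, nat_lit 66150, nat_lit 278, nat_lit 1067, nat_lit 207, nat_lit 49416060, nat_lit 0, nat_lit 0, nat_lit 3723518, false, false⟩,
 nat_lit 2257, nat_lit 3017, nat_lit 0, nat_lit 0, nat_lit 3650, nat_lit 967, nat_lit 0, nat_lit 0, nat_lit 0, nat_lit 78, nat_lit 0, nat_lit 0, nat_lit 0, nat_lit 0, nat_lit 178, nat_lit 924000, nat_lit 0, nat_lit 0, [(nat_lit 15, [(nat_lit 6, nat_lit 924)])],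
 ⟨p054_k1, nat_lit 0, nat_lit 0, nat_lit 263, nat_lit 0, nat_lit 452512, [nat_lit 3290952000, nat_lit 1914235201, nat_lit 22132800], [], [nat_lit 14547853500, nat_lit 15820485400, nat_lit 17295359800, nat_lit 18518978600, nat_lit 15821449300, nat_lit 16963549800, nat_lit 19459578001, nat_lit 19279689000], nat_lit 1271250, nat_lit 1271250, nat_lit 1100001, nat_lit 1785000, nat_lit 490000, nat_lit 1100001, [nat_lit 780000, nat_lit 1435000, nat_lit 1271250], [nat_lit 18, nat_lit 40, nat_lit 40, nat_lit 80, nat_lit 2, nat_lit 317, nat_lit 100, nat_lit 10]⟩, ⟨p054_k4, nat_lit 0, nat_lit 0, nat_lit 681, nat_lit 0, nat_lit 825717, [nat_lit 475000000, nat_lit 747992000, nat_lit 902272000], [], [nat_lit 2920974900, nat_lit 2655558796, nat_lit 2607840408, nat_lit 2621523584, nat_lit 4502924702, nat_lit 3615499132, nat_lit 2739617608, nat_lit 2263551456], nat_lit 1271250, nat_lit 1271250, nat_lit 1271250, nat_lit 1271250, nat_lit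 0, nat_lit 2542500, [nat_lit 1412500, nat_lit 1271250, nat_lit 1271250], [nat_lit 46, nat_lit 40, nat_lit 40, nat_lit 80, nat_lit 41, nat_lit 456, nat_lit 225, nat_lit 12]⟩,
 ⟨nat_lit 4472, nat_lit 5000, ⟨.ofNat (nat_lit 428570), .ofNat (nat_lit 571423), .ofNat (nat_lit 471408), .ofNat (nat_lit 614256), .ofNat (nat_lit 432020), .ofNat (nat_lit 567973), .ofNat (nat_lit 475134), .ofNat (nat_lit 611081)⟩, ⟨.ofNat (nat_lit 114284), .ofNat (nat_lit 257141), .ofNat (nat_lit 157141), .ofNat (nat_lit 299999), .ofNat (nat_lit 123532), .ofNat (nat_lit 259489), .ofNat (nat_lit 166665), .ofNat (nat_lit 302621)⟩⟩, [⟨nat_lit 7, nat_lit 77, nat_lit 100, nat_lit 72, nat_lit 13616413⟩]⟩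
noncomputable def p054_l38 : Lf2 := ⟨nat_lit 0, nat_lit 10, [nat_lit 0, nat_lit 5, nat_lit 5, nat_lit 20], false, nat_lit 160, nat_lit 240, nat_lit 0, nat_lit 360, ⟨nat_lit 0, nat_lit 0, nat_lit 1000, nat_lit 5, nat_lit 165, nat_lit 1000, nat_lit 140, nat_lit 1000, nat_lit 183750, nat_lit 320, nat_lit 91267, nat_lit 289, nat_lit 49702361, nat_lit 0, nat_lit 0, nat_lit 4003699, false, false⟩,
 nat_lit 0, nat_lit 5644, nat_lit 0, nat_lit 0, nat_lit 3591, nat_lit 0, nat_lit 0, nat_lit 0, nat_lit 0, nat_lit 0, nat_lit 0, nat_lit 0, nat_lit 0, nat_lit 0, nat_lit 208, nat_lit 1000000, nat_lit 0, nat_lit 0, [(nat_lit 12, [(nat_lit 6, nat_lit 1000)])],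
 ⟨p054_k7, nat_lit 0, nat_lit 0, nat_lit 209, nat_lit 0, nat_lit 367523, [nat_lit 3637200001, nat_lit 3032400001, nat_lit 431200000], [], [nat_lit 12985337970, nat_lit 14334619074, nat_lit 13938879442, nat_lit 15210332426, nat_lit 16041637058, nat_lit 17204598856, nat_lit 16816500486, nat_lit 17914790416], nat_lit 1271250, nat_lit 1271250, nat_lit 780000, nat_lit 1100001, nat_lit 1100001, nat_lit 1785000, [nat_lit 780000, nat_lit 1435000, nat_lit 1271250], [nat_lit 8, nat_lit 40, nat_lit 40, nat_lit 80, nat_lit 1, nat_lit 317, nat_lit 100, nat_lit 9]⟩, ⟨p054_k4, nat_lit 0, nat_lit 0, nat_lit 583, nat_lit 0, nat_lit 605417, [nat_lit 0, nat_lit 0, nat_lit 0], [], [nat_lit 0, nat_lit 0, nat_lit 0, nat_lit 0, nat_lit 0, nat_lit 0, nat_lit 0, nat_lit 0], nat_lit 1271250, nat_lit 1271250, nat_lit 780000, nat_lit 1100001, nat_lit 0, nat_lit 2542500, [nat_lit 1412500, nat_lit 1271250, nat_lit 1271250], [nat_lit 46, nat_lit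 40, nat_lit 40, nat_lit 80, nat_lit 41, nat_lit 428, nat_lit 200, nat_lit 11]⟩,
 ⟨nat_lit 5000, nat_lit 5478, ⟨.ofNat (nat_lit 350132), .ofNat (nat_lit 425065), .ofNat (nat_lit 392847), .ofNat (nat_lit 467773), .ofNat (nat_lit 357141), .ofNat (nat_lit 428570), .ofNat (nat_lit 399998), .ofNat (nat_lit 471421)⟩, ⟨.ofNat (nat_lit 254209), .ofNat (nat_lit 404075), .ofNat (nat_lit 296923), .ofNat (nat_lit 446789), .ofNat (nat_lit 257141), .ofNat (nat_lit 399998), .ofNat (nat_lit 299999), .ofNat (nat_lit 442856)⟩⟩, [⟨nat_lit 4, nat_lit 100, nat_lit 94, nat_lit 75, nat_lit 190370908⟩]⟩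
noncomputable def p054_l39 : Lf2 := ⟨nat_lit 0, nat_lit 10, [nat_lit 0, nat_lit 5, nat_lit 5, nat_lit 20], false, nat_lit 160, nat_lit 240, nat_lit 0, nat_lit 360, ⟨nat_lit 0, nat_lit 0, nat_lit 1000, nat_lit 5, nat_lit 167, nat_lit 1000, nat_lit 140, nat_lit 1000, nat_lit 183750, nat_lit 320, nat_lit 82882, nat_lit 285, nat_lit 49545664, nat_lit 0, nat_lit 0, nat_lit 4023514, false, false⟩,
 nat_lit 0, nat_lit 5250, nat_lit 0, nat_lit 0, nat_lit 3634, nat_lit 0, nat_lit 0, nat_lit 0, nat_lit 0, nat_lit 0, nat_lit 0, nat_lit 0, nat_lit 0, nat_lit 0, nat_lit 192, nat_lit 866800, nat_lit 0, nat_lit 0, [(nat_lit 15, [(nat_lit 5, nat_lit 222), (nat_lit 6, nat_lit 778)])],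
 ⟨p054_k1, nat_lit 0, nat_lit 0, nat_lit 245, nat_lit 0, nat_lit 452512, [nat_lit 3358414400, nat_lit 1840415201, nat_lit 23906400], [], [nat_lit 14747088272, nat_lit 15955375432, nat_lit 15563601588, nat_lit 16703438888, nat_lit 17365856664, nat_lit 18630676720, nat_lit 18939267249, nat_lit 19275907720], nat_lit 1271250, nat_lit 1271250, nat_lit 780000, nat_lit 1100001, nat_lit 1100001, nat_lit 1785000, [nat_lit 780000, nat_lit 1435000, nat_lit 1271250], [nat_lit 18, nat_lit 40, nat_lit 40, nat_lit 80, nat_lit 2, nat_lit 317, nat_lit 100, nat_lit 10]⟩, ⟨p054_k4, nat_lit 0, nat_lit 0, nat_lit 699, nat_lit 0, nat_lit 825717, [nat_lit 0, nat_lit 0, nat_lit 0], [], [nat_lit 0, nat_lit 0, nat_lit 0, nat_lit 0, nat_lit 0, nat_lit 0, nat_lit 0, nat_lit 0], nat_lit 1271250, nat_lit 1271250, nat_lit 780000, nat_lit 1100001, nat_lit 0, nat_lit 2542500, [nat_lit 1412500, nat_lit 1271250, nat_lit 1271250], [nat_lit 46, nat_lit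 40, nat_lit 40, nat_lit 80, nat_lit 41, nat_lit 428, nat_lit 200, nat_lit 11]⟩,
 ⟨nat_lit 4472, nat_lit 5000, ⟨.ofNat (nat_lit 357141), .ofNat (nat_lit 428570), .ofNat (nat_lit 399984), .ofNat (nat_lit 471408), .ofNat (nat_lit 364042), .ofNat (nat_lit 432020), .ofNat (nat_lit 407160), .ofNat (nat_lit 475134)⟩, ⟨.ofNat (nat_lit 257141), .ofNat (nat_lit 399998), .ofNat (nat_lit 299999), .ofNat (nat_lit 442856), .ofNat (nat_lit 259489), .ofNat (nat_lit 395445), .ofNat (nat_lit 302621), .ofNat (nat_lit 438578)⟩⟩, [⟨nat_lit 4, nat_lit 100, nat_lit 85, nat_lit 73, nat_lit 221857209⟩]⟩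
noncomputable def p054_l40 : Lf2 := ⟨nat_lit 0, nat_lit 10, [nat_lit 0, nat_lit 5, nat_lit 5, nat_lit 20], false, nat_lit 160, nat_lit 240, nat_lit 0, nat_lit 360, ⟨nat_lit 0, nat_lit 0, nat_lit 1000, nat_lit 5, nat_lit 194, nat_lit 1000, nat_lit 140, nat_lit 1000, nat_lit 183750, nat_lit 320, nat_lit 9846, nat_lit 236, nat_lit 47208323, nat_lit 0, nat_lit 0, nat_lit 4297551, false, false⟩,
 nat_lit 0, nat_lit 5593, nat_lit 0, nat_lit 0, nat_lit 3558, nat_lit 0, nat_lit 0, nat_lit 0, nat_lit 0, nat_lit 0, nat_lit 0, nat_lit 0, nat_lit 0, nat_lit 0, nat_lit 195, nat_lit 930400, nat_lit 0, nat_lit 0, [(nat_lit 12, [(nat_lit 5, nat_lit 116), (nat_lit 6, nat_lit 884)])],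
 ⟨p054_k7, nat_lit 0, nat_lit 0, nat_lit 199, nat_lit 0, nat_lit 367523, [nat_lit 3492753601, nat_lit 2841180267, nat_lit 407636800], [], [nat_lit 14033469922, nat_lit 15299417714, nat_lit 15328014362, nat_lit 16510246494, nat_lit 16904837994, nat_lit 17998764334, nat_lit 19405370316, nat_lit 19070080284], nat_lit 1271250, nat_lit 1271250, nat_lit 1100001, nat_lit 1442500, nat_lit 1100001, nat_lit 1785000, [nat_lit 780000, nat_lit 1435000, nat_lit 1271250], [nat_lit 8, nat_lit 40, nat_lit 40, nat_lit 80, nat_lit 1, nat_lit 345, nat_lit 125, nat_lit 9]⟩, ⟨p054_k4, nat_lit 0, nat_lit 0, nat_lit 565, nat_lit 0, nat_lit 605417, [nat_lit 0, nat_lit 0, nat_lit 0], [], [nat_lit 0, nat_lit 0, nat_lit 0, nat_lit 0, nat_lit 0, nat_lit 0, nat_lit 0, nat_lit 0], nat_lit 1271250, nat_lit 1271250, nat_lit 1100001, nat_lit 1442500, nat_lit 0, nat_lit 2542500, [nat_lit 1412500, nat_lit 1271250, nat_lit 1271250], [nat_lit 46, nat_lit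 40, nat_lit 40, nat_lit 80, nat_lit 41, nat_lit 428, nat_lit 200, nat_lit 11]⟩,
 ⟨nat_lit 5000, nat_lit 5478, ⟨.ofNat (nat_lit 425065), .ofNat (nat_lit 499999), .ofNat (nat_lit 467773), .ofNat (nat_lit 542694), .ofNat (nat_lit 428570), .ofNat (nat_lit 499999), .ofNat (nat_lit 471421), .ofNat (nat_lit 542837)⟩, ⟨.ofNat (nat_lit 254209), .ofNat (nat_lit 404075), .ofNat (nat_lit 296923), .ofNat (nat_lit 446789), .ofNat (nat_lit 257141), .ofNat (nat_lit 399998), .ofNat (nat_lit 299999), .ofNat (nat_lit 442856)⟩⟩, []⟩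
noncomputable def p054_l41 : Lf2 := ⟨nat_lit 0, nat_lit 10, [nat_lit 0, nat_lit 5, nat_lit 5, nat_lit 20], false, nat_lit 160, nat_lit 240, nat_lit 0, nat_lit 360, ⟨nat_lit 158, nat_lit 0, nat_lit 842, nat_lit 5, nat_lit 223, nat_lit 842, nat_lit 140, nat_lit 842, nat_lit 183750, nat_lit 320, nat_lit 1350, nat_lit 206, nat_lit 44680932, nat_lit 0, nat_lit 0, nat_lit 4532242, true, false⟩,
 nat_lit 5451, nat_lit 505, nat_lit 0, nat_lit 0, nat_lit 3790, nat_lit 2336, nat_lit 0, nat_lit 0, nat_lit 0, nat_lit 212, nat_lit 0, nat_lit 0, nat_lit 0, nat_lit 0, nat_lit 121, nat_lit 842000, nat_lit 0, nat_lit 0, [(nat_lit 12, [(nat_lit 6, nat_lit 842)])],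
 ⟨p054_k7, nat_lit 0, nat_lit 0, nat_lit 198, nat_lit 0, nat_lit 367523, [nat_lit 2931446401, nat_lit 2458060800, nat_lit 402298400], [], [nat_lit 16006208401, nat_lit 17064879181, nat_lit 17397097201, nat_lit 18390783161, nat_lit 18343199761, nat_lit 19273910461, nat_lit 19559895122, nat_lit 20596855180], nat_lit 1271250, nat_lit 1271250, nat_lit 1271250, nat_lit 1271250, nat_lit 1100001, nat_lit 1785000, [nat_lit 780000, nat_lit 1435000, nat_lit 1271250], [nat_lit 8, nat_lit 40, nat_lit 40, nat_lit 80, nat_lit 1, nat_lit 345, nat_lit 125, nat_lit 9]⟩, ⟨p054_k4, nat_lit 0, nat_lit 0, nat_lit 552, nat_lit 0, nat_lit 605417, [nat_lit 987500000, nat_lit 1555036000, nat_lit 1875776000], [], [nat_lit 4640868936, nat_lit 4739230880, nat_lit 4739230880, nat_lit 4916672464, nat_lit 7653423656, nat_lit 5537540264, nat_lit 5537540264, nat_lit 4900143948], nat_lit 1271250, nat_lit 1271250, nat_lit 1271250, nat_lit 1271250,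 nat_lit 0, nat_lit 2542500, [nat_lit 1412500, nat_lit 1271250, nat_lit 1271250], [nat_lit 46, nat_lit 40, nat_lit 40, nat_lit 80, nat_lit 41, nat_lit 456, nat_lit 225, nat_lit 12]⟩,
 ⟨nat_lit 5000, nat_lit 5478, ⟨.ofNat (nat_lit 499999), .ofNat (nat_lit 574920), .ofNat (nat_lit 542694), .ofNat (nat_lit 617614), .ofNat (nat_lit 499999), .ofNat (nat_lit 571415), .ofNat (nat_lit 542837), .ofNat (nat_lit 614253)⟩, ⟨.ofNat (nat_lit 254209), .ofNat (nat_lit 404075), .ofNat (nat_lit 296923), .ofNat (nat_lit 446789), .ofNat (nat_lit 257141), .ofNat (nat_lit 399998), .ofNat (nat_lit 299999), .ofNat (nat_lit 442856)⟩⟩, [⟨nat_lit 4, nat_lit 100, nat_lit 94, nat_lit 75, nat_lit 200104245⟩, ⟨nat_lit 19, nat_lit 100, nat_lit 77, nat_lit 72, nat_lit 42581529⟩]⟩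
noncomputable def p054_l42 : Lf2 := ⟨nat_lit 0, nat_lit 10, [nat_lit 0, nat_lit 5, nat_lit 5, nat_lit 20], false, nat_lit 160, nat_lit 240, nat_lit 0, nat_lit 360, ⟨nat_lit 76, nat_lit 0, nat_lit 924, nat_lit 5, nat_lit 209, nat_lit 924, nat_lit 140, nat_lit 924, nat_lit 183750, nat_lit 320, nat_lit 1067, nat_lit 207, nat_lit 45961618, nat_lit 0, nat_lit 0, nat_lit 4419356, false, false⟩,
 nat_lit 2250, nat_lit 2936, nat_lit 0, nat_lit 0, nat_lit 3590, nat_lit 964, nat_lit 0, nat_lit 0, nat_lit 0, nat_lit 93, nat_lit 0, nat_lit 0, nat_lit 0, nat_lit 0, nat_lit 178, nat_lit 924000, nat_lit 0, nat_lit 0, [(nat_lit 15, [(nat_lit 6, nat_lit 924)])],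
 ⟨p054_k1, nat_lit 0, nat_lit 0, nat_lit 211, nat_lit 0, nat_lit 452512, [nat_lit 3290952000, nat_lit 1914235201, nat_lit 22132800], [], [nat_lit 15985568380, nat_lit 17119181880, nat_lit 18445720240, nat_lit 19429923000, nat_lit 18445720240, nat_lit 19429923000, nat_lit 20574206780, nat_lit 21739393240], nat_lit 1271250, nat_lit 1271250, nat_lit 1100001, nat_lit 1785000, nat_lit 1100001, nat_lit 1785000, [nat_lit 780000, nat_lit 1435000, nat_lit 1271250], [nat_lit 18, nat_lit 40, nat_lit 40, nat_lit 80, nat_lit 2, nat_lit 345, nat_lit 125, nat_lit 10]⟩, ⟨p054_k4, nat_lit 0, nat_lit 0, nat_lit 681, nat_lit 0, nat_lit 825717, [nat_lit 475000000, nat_lit 747992000, nat_lit 902272000], [], [nat_lit 2919575808, nat_lit 2664628192, nat_lit 2617224384, nat_lit 2627620688, nat_lit 4498909592, nat_lit 3614237152, nat_lit 2741072944, nat_lit 2262424472], nat_lit 1271250, nat_lit 1271250, nat_lit 1271250, nat_lit 1271250, nat_lit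 0, nat_lit 2542500, [nat_lit 1412500, nat_lit 1271250, nat_lit 1271250], [nat_lit 46, nat_lit 40, nat_lit 40, nat_lit 80, nat_lit 41, nat_lit 456, nat_lit 225, nat_lit 12]⟩,
 ⟨nat_lit 4472, nat_lit 5000, ⟨.ofNat (nat_lit 428570), .ofNat (nat_lit 571423), .ofNat (nat_lit 471408), .ofNat (nat_lit 614256), .ofNat (nat_lit 432020), .ofNat (nat_lit 567973), .ofNat (nat_lit 475134), .ofNat (nat_lit 611081)⟩, ⟨.ofNat (nat_lit 257141), .ofNat (nat_lit 399998), .ofNat (nat_lit 299999), .ofNat (nat_lit 442856), .ofNat (nat_lit 259489), .ofNat (nat_lit 395445), .ofNat (nat_lit 302621), .ofNat (nat_lit 438578)⟩⟩, [⟨nat_lit 4, nat_lit 100, nat_lit 85, nat_lit 73, nat_lit 223259217⟩, ⟨nat_lit 7, nat_lit 77, nat_lit 100, nat_lit 72, nat_lit 13578864⟩]⟩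
noncomputable def p054_l43 : Lf2 := ⟨nat_lit 0, nat_lit 10, [nat_lit 0, nat_lit 5, nat_lit 5, nat_lit 20], false, nat_lit 240, nat_lit 300, nat_lit 0, nat_lit 360, ⟨nat_lit 0, nat_lit 704, nat_lit 296, nat_lit 5, nat_lit 194, nat_lit 1000, nat_lit 192, nat_lit 296, nat_lit 3701, nat_lit 228, nat_lit 1350, nat_lit 206, nat_lit 43480976, nat_lit 11843555, nat_lit 11675469, nat_lit 4799704, false, false⟩,
 nat_lit 0, nat_lit 7132, nat_lit 0, nat_lit 0, nat_lit 4538, nat_lit 0, nat_lit 0, nat_lit 0, nat_lit 0, nat_lit 0, nat_lit 0, nat_lit 0, nat_lit 0, nat_lit 0, nat_lit 70, nat_lit 1000000, nat_lit 0, nat_lit 0, [(nat_lit 12, [(nat_lit 2, nat_lit 704), (nat_lit 6, nat_lit 296)])],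
 ⟨p054_k7, nat_lit 0, nat_lit 0, nat_lit 197, nat_lit 0, nat_lit 304008, [nat_lit 2821776001, nat_lit 2436496000, nat_lit 156755200], [], [nat_lit 17113538560, nat_lit 17646438848, nat_lit 19568130009, nat_lit 20032420210, nat_lit 19841699152, nat_lit 20455126083, nat_lit 22697111904, nat_lit 23253501741], nat_lit 1271250, nat_lit 1271250, nat_lit 780000, nat_lit 1762500, nat_lit 1271250, nat_lit 1271250, [nat_lit 780000, nat_lit 1435000, nat_lit 1271250], [nat_lit 8, nat_lit 40, nat_lit 40, nat_lit 80, nat_lit 1, nat_lit 373, nat_lit 150, nat_lit 10]⟩, ⟨p054_k4, nat_lit 0, nat_lit 0, nat_lit 536, nat_lit 0, nat_lit 500791, [nat_lit 0, nat_lit 0, nat_lit 0], [], [nat_lit 0, nat_lit 0, nat_lit 0, nat_lit 0, nat_lit 0, nat_lit 0, nat_lit 0, nat_lit 0], nat_lit 1271250, nat_lit 1271250, nat_lit 780000, nat_lit 1762500, nat_lit 0, nat_lit 2542500, [nat_lit 1412500, nat_lit 1271250, nat_lit 1271250], [nat_lit 46, nat_lit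 40, nat_lit 40, nat_lit 80, nat_lit 41, nat_lit 456, nat_lit 225, nat_lit 12]⟩,
 ⟨nat_lit 5244, nat_lit 5478, ⟨.ofNat (nat_lit 350132), .ofNat (nat_lit 574929), .ofNat (nat_lit 392847), .ofNat (nat_lit 617638), .ofNat (nat_lit 353656), .ofNat (nat_lit 573167), .ofNat (nat_lit 396427), .ofNat (nat_lit 615933)⟩, ⟨.ofNat (nat_lit 404075), .ofNat (nat_lit 516475), .ofNat (nat_lit 446789), .ofNat (nat_lit 559189), .ofNat (nat_lit 402086), .ofNat (nat_lit 511843), .ofNat (nat_lit 444857), .ofNat (nat_lit 554614)⟩⟩, [⟨nat_lit 4, nat_lit 100, nat_lit 97, nat_lit 76, nat_lit 370622297⟩]⟩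
noncomputable def p054_l44 : Lf2 := ⟨nat_lit 0, nat_lit 10, [nat_lit 0, nat_lit 5, nat_lit 5, nat_lit 20], false, nat_lit 240, nat_lit 292, nat_lit 0, nat_lit 360, ⟨nat_lit 0, nat_lit 470, nat_lit 530, nat_lit 5, nat_lit 194, nat_lit 1000, nat_lit 188, nat_lit 530, nat_lit 8501, nat_lit 237, nat_lit 3734, nat_lit 207, nat_lit 43764041, nat_lit 11922482, nat_lit 11313477, nat_lit 4767980, false, false⟩,
 nat_lit 0, nat_lit 6053, nat_lit 0, nat_lit 0, nat_lit 4019, nat_lit 0, nat_lit 94, nat_lit 0, nat_lit 0, nat_lit 0, nat_lit 0, nat_lit 0, nat_lit 0, nat_lit 0, nat_lit 34, nat_lit 718000, nat_lit 0, nat_lit 0, [(nat_lit 12, [(nat_lit 1, nat_lit 470), (nat_lit 6, nat_lit 530)])],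
 ⟨p054_k9, nat_lit 0, nat_lit 0, nat_lit 188, nat_lit 0, nat_lit 348897, [nat_lit 1984984001, nat_lit 1361336001, nat_lit 16112000], [], [nat_lit 17495778878, nat_lit 18035142906, nat_lit 20183248951, nat_lit 20624766396, nat_lit 19866324416, nat_lit 20402584491, nat_lit 22665555365, nat_lit 23204949489], nat_lit 1271250, nat_lit 1271250, nat_lit 780000, nat_lit 1762500, nat_lit 1271250, nat_lit 1271250, [nat_lit 780000, nat_lit 1435000, nat_lit 1271250], [nat_lit 18, nat_lit 40, nat_lit 40, nat_lit 80, nat_lit 2, nat_lit 272, nat_lit 60, nat_lit 8]⟩, ⟨p054_k4, nat_lit 0, nat_lit 0, nat_lit 583, nat_lit 0, nat_lit 605417, [nat_lit 0, nat_lit 0, nat_lit 0], [], [nat_lit 0, nat_lit 0, nat_lit 0, nat_lit 0, nat_lit 0, nat_lit 0, nat_lit 0, nat_lit 0], nat_lit 1271250, nat_lit 1271250, nat_lit 780000, nat_lit 1762500, nat_lit 0, nat_lit 2542500, [nat_lit 1412500, nat_lit 1271250, nat_lit 1271250], [nat_lit 46, nat_lit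 40, nat_lit 40, nat_lit 80, nat_lit 41, nat_lit 456, nat_lit 225, nat_lit 12]⟩,
 ⟨nat_lit 5000, nat_lit 5245, ⟨.ofNat (nat_lit 353656), .ofNat (nat_lit 573168), .ofNat (nat_lit 396427), .ofNat (nat_lit 615934), .ofNat (nat_lit 357141), .ofNat (nat_lit 571425), .ofNat (nat_lit 399998), .ofNat (nat_lit 614277)⟩, ⟨.ofNat (nat_lit 402086), .ofNat (nat_lit 497209), .ofNat (nat_lit 444857), .ofNat (nat_lit 539979), .ofNat (nat_lit 399998), .ofNat (nat_lit 492856), .ofNat (nat_lit 442856), .ofNat (nat_lit 535713)⟩⟩, [⟨nat_lit 16, nat_lit 92, nat_lit 100, nat_lit 75, nat_lit 353710767⟩]⟩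
noncomputable def p054_l45 : Lf2 := ⟨nat_lit 0, nat_lit 10, [nat_lit 0, nat_lit 5, nat_lit 5, nat_lit 20], false, nat_lit 240, nat_lit 280, nat_lit 0, nat_lit 360, ⟨nat_lit 0, nat_lit 844, nat_lit 156, nat_lit 5, nat_lit 195, nat_lit 1000, nat_lit 182, nat_lit 156, nat_lit 24746, nat_lit 252, nat_lit 1067, nat_lit 207, nat_lit 44172614, nat_lit 12037966, nat_lit 10789420, nat_lit 4719977, false, false⟩,
 nat_lit 0, nat_lit 6120, nat_lit 0, nat_lit 0, nat_lit 4236, nat_lit 0, nat_lit 432, nat_lit 0, nat_lit 0, nat_lit 0, nat_lit 0, nat_lit 0, nat_lit 0, nat_lit 0, nat_lit 0, nat_lit 493600, nat_lit 0, nat_lit 0, [(nat_lit 15, [(nat_lit 1, nat_lit 844), (nat_lit 6, nat_lit 156)])],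
 ⟨p054_k1, nat_lit 0, nat_lit 0, nat_lit 249, nat_lit 0, nat_lit 452512, [nat_lit 1857928800, nat_lit 1629456267, nat_lit 1138188533], [], [nat_lit 19009144790, nat_lit 19881628662, nat_lit 21098297907, nat_lit 21907681467, nat_lit 20448106130, nat_lit 21282075955, nat_lit 22675147900, nat_lit 23813691032], nat_lit 1271250, nat_lit 1271250, nat_lit 780000, nat_lit 1762500, nat_lit 1271250, nat_lit 1271250, [nat_lit 780000, nat_lit 1435000, nat_lit 1271250], [nat_lit 18, nat_lit 40, nat_lit 40, nat_lit 80, nat_lit 2, nat_lit 272, nat_lit 60, nat_lit 8]⟩, ⟨p054_k4, nat_lit 0, nat_lit 0, nat_lit 699, nat_lit 0, nat_lit 825717, [nat_lit 0, nat_lit 0, nat_lit 0], [], [nat_lit 0, nat_lit 0, nat_lit 0, nat_lit 0, nat_lit 0, nat_lit 0, nat_lit 0, nat_lit 0], nat_lit 1271250, nat_lit 1271250, nat_lit 780000, nat_lit 1762500, nat_lit 0, nat_lit 2542500, [nat_lit 1412500, nat_lit 1271250, nat_lit 1271250], [nat_lit 46, nat_lit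 40, nat_lit 40, nat_lit 80, nat_lit 41, nat_lit 456, nat_lit 225, nat_lit 12]⟩,
 ⟨nat_lit 4472, nat_lit 5000, ⟨.ofNat (nat_lit 357141), .ofNat (nat_lit 571423), .ofNat (nat_lit 399984), .ofNat (nat_lit 614256), .ofNat (nat_lit 364042), .ofNat (nat_lit 567973), .ofNat (nat_lit 407160), .ofNat (nat_lit 611081)⟩, ⟨.ofNat (nat_lit 399998), .ofNat (nat_lit 471427), .ofNat (nat_lit 442856), .ofNat (nat_lit 514284), .ofNat (nat_lit 395445), .ofNat (nat_lit 463423), .ofNat (nat_lit 438578), .ofNat (nat_lit 506556)⟩⟩, [⟨nat_lit 4, nat_lit 100, nat_lit 85, nat_lit 73, nat_lit 412404550⟩]⟩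
noncomputable def b_V_700_500_10_8 : St := ⟨true, nat_lit 1, nat_lit 1, nat_lit 1, nat_lit 80, nat_lit 280, nat_lit 320, nat_lit 200, nat_lit 240, nat_lit 120, nat_lit 240, nat_lit 40, nat_lit 80, nat_lit 0, nat_lit 300, nat_lit 0, nat_lit 360, nat_lit 0, nat_lit 40, nat_lit 0, nat_lit 0, nat_lit 0, nat_lit 0⟩
theorem d_V_700_500_10_8 (h : EB TB.env) : Dead b_V_700_500_10_8 := chkB_sound0 h (T :=
(.spl (nat_lit 4) (nat_lit 160)
(.spl (nat_lit 4) (nat_lit 80)
(.spl (nat_lit 0) (nat_lit 300)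
(.spl (nat_lit 2) (nat_lit 160)
(.leaf p054_l30)
(.leaf p054_l31))
(.spl (nat_lit 2) (nat_lit 160)
(.leaf p054_l32)
(.spl (nat_lit 0) (nat_lit 310)
(.leaf p054_l33)
(.leaf p054_l34))))
(.spl (nat_lit 2) (nat_lit 160)
(.leaf p054_l35)
(.spl (nat_lit 0) (nat_lit 300)
(.leaf p054_l36)
(.leaf p054_l37))))
(.spl (nat_lit 4) (nat_lit 240)
(.spl (nat_lit 2) (nat_lit 160)
(.spl (nat_lit 0) (nat_lit 300)
(.leaf p054_l38)
(.leaf p054_l39))
(.spl (nat_lit 0) (nat_lit 300)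
(.spl (nat_lit 2) (nat_lit 200)
(.leaf p054_l40)
(.leaf p054_l41))
(.leaf p054_l42)))
(.spl (nat_lit 0) (nat_lit 300)
(.spl (nat_lit 0) (nat_lit 290)
(.leaf p054_l43)
(.trX (nat_lit 16) (nat_lit 100) (nat_lit 100) (nat_lit 89) (nat_lit 292) (.leaf p054_l44)))
(.trX (nat_lit 16) (nat_lit 94) (nat_lit 100) (nat_lit 87) (nat_lit 280) (.leaf p054_l45)))))) (by decide +kernel)
noncomputable def p054_l46 : Lf2 := ⟨nat_lit 0, nat_lit 10, [nat_lit 0, nat_lit 5, nat_lit 5, nat_lit 20], false, nat_lit 0, nat_lit 160, nat_lit 0, nat_lit 360, ⟨nat_lit 271, nat_lit 251, nat_lit 478, nat_lit 6, nat_lit 263, nat_lit 729, nat_lit 55, nat_lit 478, nat_lit 25350, nat_lit 254, nat_lit 220964, nat_lit 200, nat_lit 46798032, nat_lit 20201968, nat_lit 0, nat_lit 3060740, true, true⟩,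
 nat_lit 6799, nat_lit 0, nat_lit 0, nat_lit 0, nat_lit 4326, nat_lit 2913, nat_lit 101, nat_lit 0, nat_lit 0, nat_lit 240, nat_lit 0, nat_lit 0, nat_lit 0, nat_lit 0, nat_lit 10, nat_lit 729000, nat_lit 0, nat_lit 0, [(nat_lit 12, [(nat_lit 2, nat_lit 251), (nat_lit 6, nat_lit 478)])],
 ⟨p054_k7, nat_lit 0, nat_lit 0, nat_lit 324, nat_lit 0, nat_lit 304977, [nat_lit 2141050801, nat_lit 1843303601, nat_lit 295629600], [], [nat_lit 21464757235, nat_lit 22296860531, nat_lit 24701917513, nat_lit 25721501840, nat_lit 20179495515, nat_lit 21006453803, nat_lit 23047805923, nat_lit 23741436975], nat_lit 1271250, nat_lit 1271250, nat_lit 1271250, nat_lit 1271250, nat_lit 0, nat_lit 1100001, [nat_lit 780000, nat_lit 1435000, nat_lit 1271250], [nat_lit 8, nat_lit 40, nat_lit 40, nat_lit 80, nat_lit 1, nat_lit 345, nat_lit 125, nat_lit 9]⟩, ⟨p054_k4, nat_lit 0, nat_lit 0, nat_lit 499, nat_lit 0, nat_lit 502385, [nat_lit 1693750000,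 nat_lit 2667182000, nat_lit 3217312000], [], [nat_lit 10355351156, nat_lit 10397568232, nat_lit 11006397260, nat_lit 11029131532, nat_lit 10028491996, nat_lit 8888864918, nat_lit 9164316442, nat_lit 9143742275], nat_lit 1271250, nat_lit 1271250, nat_lit 1271250, nat_lit 1271250, nat_lit 0, nat_lit 2542500, [nat_lit 1412500, nat_lit 1271250, nat_lit 1271250], [nat_lit 46, nat_lit 40, nat_lit 40, nat_lit 80, nat_lit 41, nat_lit 456, nat_lit 225, nat_lit 12]⟩,
 ⟨nat_lit 5000, nat_lit 5478, ⟨.ofNat (nat_lit 574920), .ofNat (nat_lit 724760), .ofNat (nat_lit 596267), .ofNat (nat_lit 746107), .ofNat (nat_lit 571415), .ofNat (nat_lit 714246), .ofNat (nat_lit 592834), .ofNat (nat_lit 735665)⟩, ⟨.negSucc (nat_lit 45522), .ofNat (nat_lit 254209), .negSucc (nat_lit 2832), .ofNat (nat_lit 296923), .negSucc (nat_lit 28572), .ofNat (nat_lit 257141), .ofNat (nat_lit 0), .ofNat (nat_lit 299999)⟩⟩, [⟨nat_lit 22, nat_lit 100, nat_lit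 95, nat_lit 87, nat_lit 30679863⟩]⟩
noncomputable def p054_l47 : Lf2 := ⟨nat_lit 0, nat_lit 10, [nat_lit 0, nat_lit 5, nat_lit 5, nat_lit 20], false, nat_lit 0, nat_lit 160, nat_lit 0, nat_lit 336, ⟨nat_lit 331, nat_lit 669, nat_lit 0, nat_lit 8, nat_lit 318, nat_lit 669, nat_lit 55, nat_lit 0, nat_lit 0, nat_lit 0, nat_lit 0, nat_lit 0, nat_lit 41011472, nat_lit 25988528, nat_lit 0, nat_lit 3338970, true, true⟩,
 nat_lit 7727, nat_lit 0, nat_lit 0, nat_lit 0, nat_lit 4916, nat_lit 3311, nat_lit 195, nat_lit 0, nat_lit 0, nat_lit 266, nat_lit 0, nat_lit 0, nat_lit 0, nat_lit 0, nat_lit 0, nat_lit 669000, nat_lit 0, nat_lit 0, [(nat_lit 12, [(nat_lit 2, nat_lit 669)])],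
 ⟨p054_k7, nat_lit 0, nat_lit 0, nat_lit 339, nat_lit 0, nat_lit 304977, [nat_lit 2648590801, nat_lit 3370891600, nat_lit 3061016000], [], [nat_lit 28402089025, nat_lit 29049481081, nat_lit 32107121415, nat_lit 33219325346, nat_lit 26366087585, nat_lit 26916145226, nat_lit 29229315129, nat_lit 29753878898], nat_lit 1271250, nat_lit 1271250, nat_lit 1271250, nat_lit 1271250, nat_lit 0, nat_lit 1100001, [nat_lit 780000, nat_lit 1435000, nat_lit 1271250], [nat_lit 8, nat_lit 40, nat_lit 40, nat_lit 80, nat_lit 1, nat_lit 249, nat_lit 40, nat_lit 6]⟩, ⟨p054_k4, nat_lit 0, nat_lit 0, nat_lit 502, nat_lit 0, nat_lit 502385, [nat_lit 2068750000, nat_lit 3257702000, nat_lit 3929632000], [], [nat_lit 13941246364, nat_lit 13953869880, nat_lit 15055207190, nat_lit 15039447570, nat_lit 11687560994, nat_lit 11636179125, nat_lit 12256361626, nat_lit 12231230768], nat_lit 1271250, nat_lit 1271250, nat_lit 1271250, nat_lit 1271250,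 nat_lit 0, nat_lit 2373000, [nat_lit 1412500, nat_lit 1271250, nat_lit 1271250], [nat_lit 46, nat_lit 40, nat_lit 40, nat_lit 80, nat_lit 41, nat_lit 373, nat_lit 150, nat_lit 9]⟩,
 ⟨nat_lit 5000, nat_lit 5478, ⟨.ofNat (nat_lit 724760), .ofNat (nat_lit 859617), .ofNat (nat_lit 746107), .ofNat (nat_lit 880964), .ofNat (nat_lit 714246), .ofNat (nat_lit 842795), .ofNat (nat_lit 735665), .ofNat (nat_lit 864214)⟩, ⟨.negSucc (nat_lit 45522), .ofNat (nat_lit 254209), .negSucc (nat_lit 2832), .ofNat (nat_lit 296923), .negSucc (nat_lit 28572), .ofNat (nat_lit 257141), .ofNat (nat_lit 0), .ofNat (nat_lit 299999)⟩⟩, [⟨nat_lit 22, nat_lit 63, nat_lit 100, nat_lit 80, nat_lit 41341282⟩]⟩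
noncomputable def p054_l48 : Lf2 := ⟨nat_lit 0, nat_lit 10, [nat_lit 0, nat_lit 5, nat_lit 5, nat_lit 20], false, nat_lit 0, nat_lit 160, nat_lit 0, nat_lit 348, ⟨nat_lit 1000, nat_lit 0, nat_lit 0, nat_lit 0, nat_lit 0, nat_lit 0, nat_lit 0, nat_lit 0, nat_lit 0, nat_lit 0, nat_lit 0, nat_lit 0, nat_lit 0, nat_lit 0, nat_lit 0, nat_lit 0, false, false⟩,
 nat_lit 15730, nat_lit 0, nat_lit 0, nat_lit 0, nat_lit 9634, nat_lit 7523, nat_lit 947, nat_lit 0, nat_lit 0, nat_lit 2124, nat_lit 0, nat_lit 0, nat_lit 0, nat_lit 0, nat_lit 0, nat_lit 0, nat_lit 0, nat_lit 0, [],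
 ⟨p054_k7, nat_lit 0, nat_lit 0, nat_lit 360, nat_lit 0, nat_lit 367523, [nat_lit 3282000000, nat_lit 6250000000, nat_lit 9842000000], [], [nat_lit 26038046615, nat_lit 27824355971, nat_lit 44617782525, nat_lit 46152626780, nat_lit 18731666016, nat_lit 19765861928, nat_lit 32886054989, nat_lit 34222728533], nat_lit 1271250, nat_lit 1271250, nat_lit 1271250, nat_lit 1271250, nat_lit 0, nat_lit 1100001, [nat_lit 780000, nat_lit 1435000, nat_lit 1271250], [nat_lit 8, nat_lit 40, nat_lit 40, nat_lit 80, nat_lit 1, nat_lit 373, nat_lit 150, nat_lit 10]⟩, ⟨p054_k10, nat_lit 0, nat_lit 0, nat_lit 506, nat_lit 0, nat_lit 525362, [nat_lit 6250000000, nat_lit 9842000000, nat_lit 11872000000], [], [nat_lit 36027176770, nat_lit 36218378440, nat_lit 40046758031, nat_lit 40039265622, nat_lit 34335699535, nat_lit 33054185781, nat_lit 35204245239, nat_lit 35458418874], nat_lit 1271250, nat_lit 1271250, nat_lit 1271250, nat_lit 1271250,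 nat_lit 0, nat_lit 2457750, [nat_lit 1412500, nat_lit 1271250, nat_lit 1271250], [nat_lit 46, nat_lit 40, nat_lit 40, nat_lit 80, nat_lit 41, nat_lit 483, nat_lit 250, nat_lit 12]⟩,
 zbF0, [⟨nat_lit 22, nat_lit 84, nat_lit 100, nat_lit 84, nat_lit 179314789⟩]⟩
noncomputable def p054_l49 : Lf2 := ⟨nat_lit 0, nat_lit 10, [nat_lit 0, nat_lit 5, nat_lit 5, nat_lit 20], false, nat_lit 0, nat_lit 160, nat_lit 0, nat_lit 360, ⟨nat_lit 270, nat_lit 730, nat_lit 0, nat_lit 6, nat_lit 265, nat_lit 730, nat_lit 56, nat_lit 0, nat_lit 0, nat_lit 0, nat_lit 0, nat_lit 0, nat_lit 46559725, nat_lit 20440275, nat_lit 0, nat_lit 3075530, true, true⟩,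
 nat_lit 6947, nat_lit 0, nat_lit 0, nat_lit 0, nat_lit 4809, nat_lit 2977, nat_lit 634, nat_lit 0, nat_lit 0, nat_lit 225, nat_lit 0, nat_lit 0, nat_lit 0, nat_lit 0, nat_lit 0, nat_lit 638800, nat_lit 0, nat_lit 0, [(nat_lit 15, [(nat_lit 1, nat_lit 152), (nat_lit 2, nat_lit 578)])],
 ⟨p054_k1, nat_lit 0, nat_lit 0, nat_lit 312, nat_lit 0, nat_lit 391189, [nat_lit 2414871201, nat_lit 2651183734, nat_lit 2100410400], [], [nat_lit 21699223234, nat_lit 22158428718, nat_lit 26625117560, nat_lit 27352355442, nat_lit 20437133782, nat_lit 20823576922, nat_lit 23370378486, nat_lit 23782545171], nat_lit 1271250, nat_lit 1271250, nat_lit 1271250, nat_lit 1271250, nat_lit 0, nat_lit 1100001, [nat_lit 780000, nat_lit 1435000, nat_lit 1271250], [nat_lit 18, nat_lit 40, nat_lit 40, nat_lit 80, nat_lit 2, nat_lit 249, nat_lit 40, nat_lit 8]⟩, ⟨p054_k4, nat_lit 0, nat_lit 0, nat_lit 590, nat_lit 0, nat_lit 713819, [nat_lit 1687500000,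 nat_lit 2657340000, nat_lit 3205440000], [], [nat_lit 10279019324, nat_lit 10313183844, nat_lit 10821794100, nat_lit 10862751344, nat_lit 9955224816, nat_lit 8583806750, nat_lit 9115909586, nat_lit 9141283984], nat_lit 1271250, nat_lit 1271250, nat_lit 1271250, nat_lit 1271250, nat_lit 0, nat_lit 2542500, [nat_lit 1412500, nat_lit 1271250, nat_lit 1271250], [nat_lit 46, nat_lit 40, nat_lit 40, nat_lit 80, nat_lit 41, nat_lit 483, nat_lit 250, nat_lit 12]⟩,
 ⟨nat_lit 4743, nat_lit 5000, ⟨.ofNat (nat_lit 571426), .ofNat (nat_lit 714280), .ofNat (nat_lit 614278), .ofNat (nat_lit 757131), .ofNat (nat_lit 569697), .ofNat (nat_lit 709094), .ofNat (nat_lit 612668), .ofNat (nat_lit 752064)⟩, ⟨.negSucc (nat_lit 28572), .ofNat (nat_lit 257141), .ofNat (nat_lit 0), .ofNat (nat_lit 299999), .negSucc (nat_lit 20404), .ofNat (nat_lit 258394), .ofNat (nat_lit 0), .ofNat (nat_lit 301370)⟩⟩, [⟨nat_lit 22, nat_lit 100, nat_lit 95,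 nat_lit 87, nat_lit 33019342⟩]⟩
noncomputable def p054_l50 : Lf2 := ⟨nat_lit 0, nat_lit 10, [nat_lit 0, nat_lit 5, nat_lit 5, nat_lit 20], false, nat_lit 0, nat_lit 160, nat_lit 0, nat_lit 360, ⟨nat_lit 259, nat_lit 741, nat_lit 0, nat_lit 6, nat_lit 264, nat_lit 741, nat_lit 56, nat_lit 0, nat_lit 0, nat_lit 0, nat_lit 0, nat_lit 0, nat_lit 46704721, nat_lit 20295279, nat_lit 0, nat_lit 3066567, true, true⟩,
 nat_lit 6429, nat_lit 0, nat_lit 0, nat_lit 0, nat_lit 4634, nat_lit 2755, nat_lit 765, nat_lit 0, nat_lit 0, nat_lit 223, nat_lit 0, nat_lit 0, nat_lit 0, nat_lit 0, nat_lit 0, nat_lit 296400, nat_lit 0, nat_lit 0, [(nat_lit 15, [(nat_lit 1, nat_lit 741)])],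
 ⟨p054_k2, nat_lit 0, nat_lit 0, nat_lit 328, nat_lit 0, nat_lit 430997, [nat_lit 2347006201, nat_lit 3363706200, nat_lit 3779868000], [], [nat_lit 21983054800, nat_lit 22442494334, nat_lit 27011396292, nat_lit 27725072024, nat_lit 20957452388, nat_lit 21390004020, nat_lit 24042619146, nat_lit 24449016956], nat_lit 1271250, nat_lit 1271250, nat_lit 1271250, nat_lit 1271250, nat_lit 0, nat_lit 1100001, [nat_lit 780000, nat_lit 1435000, nat_lit 1271250], [nat_lit 18, nat_lit 40, nat_lit 40, nat_lit 80, nat_lit 2, nat_lit 249, nat_lit 40, nat_lit 8]⟩, ⟨p054_k4, nat_lit 0, nat_lit 0, nat_lit 656, nat_lit 0, nat_lit 825717, [nat_lit 1618750000, nat_lit 2549078000, nat_lit 3074848000], [], [nat_lit 10577719488, nat_lit 10577639896, nat_lit 10901784996, nat_lit 10844256488, nat_lit 9598499548, nat_lit 8572178754, nat_lit 8811045230, nat_lit 8783480814], nat_lit 1271250, nat_lit 1271250, nat_lit 1271250, nat_lit 1271250,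 nat_lit 0, nat_lit 2542500, [nat_lit 1412500, nat_lit 1271250, nat_lit 1271250], [nat_lit 46, nat_lit 40, nat_lit 40, nat_lit 80, nat_lit 41, nat_lit 483, nat_lit 250, nat_lit 12]⟩,
 ⟨nat_lit 4472, nat_lit 4744, ⟨.ofNat (nat_lit 569698), .ofNat (nat_lit 709096), .ofNat (nat_lit 612668), .ofNat (nat_lit 752067), .ofNat (nat_lit 567976), .ofNat (nat_lit 703932), .ofNat (nat_lit 611103), .ofNat (nat_lit 747059)⟩, ⟨.negSucc (nat_lit 20404), .ofNat (nat_lit 258394), .ofNat (nat_lit 0), .ofNat (nat_lit 301370), .negSucc (nat_lit 12423), .ofNat (nat_lit 259489), .ofNat (nat_lit 0), .ofNat (nat_lit 302621)⟩⟩, [⟨nat_lit 22, nat_lit 100, nat_lit 95, nat_lit 87, nat_lit 25113368⟩]⟩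
noncomputable def p054_l51 : Lf2 := ⟨nat_lit 0, nat_lit 10, [nat_lit 0, nat_lit 5, nat_lit 5, nat_lit 20], false, nat_lit 0, nat_lit 160, nat_lit 0, nat_lit 336, ⟨nat_lit 263, nat_lit 737, nat_lit 0, nat_lit 8, nat_lit 310, nat_lit 737, nat_lit 56, nat_lit 0, nat_lit 0, nat_lit 0, nat_lit 0, nat_lit 0, nat_lit 41834485, nat_lit 25165515, nat_lit 0, nat_lit 3309356, true, true⟩,
 nat_lit 6093, nat_lit 0, nat_lit 0, nat_lit 0, nat_lit 4218, nat_lit 2611, nat_lit 738, nat_lit 0, nat_lit 0, nat_lit 189, nat_lit 0, nat_lit 0, nat_lit 0, nat_lit 0, nat_lit 0, nat_lit 372200, nat_lit 0, nat_lit 0, [(nat_lit 15, [(nat_lit 1, nat_lit 608), (nat_lit 2, nat_lit 129)])],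
 ⟨p054_k1, nat_lit 0, nat_lit 0, nat_lit 334, nat_lit 0, nat_lit 404166, [nat_lit 2364102000, nat_lit 3210700934, nat_lit 3413773200], [], [nat_lit 27005545624, nat_lit 27651451972, nat_lit 30716593630, nat_lit 31796122565, nat_lit 25660316516, nat_lit 26211634876, nat_lit 28014986436, nat_lit 28602536144], nat_lit 1271250, nat_lit 1271250, nat_lit 1271250, nat_lit 1271250, nat_lit 0, nat_lit 1100001, [nat_lit 780000, nat_lit 1435000, nat_lit 1271250], [nat_lit 18, nat_lit 40, nat_lit 40, nat_lit 80, nat_lit 2, nat_lit 249, nat_lit 40, nat_lit 7]⟩, ⟨p054_k4, nat_lit 0, nat_lit 0, nat_lit 593, nat_lit 0, nat_lit 737499, [nat_lit 1643750000, nat_lit 2588446000, nat_lit 3122336000], [], [nat_lit 11260788400, nat_lit 11252945712, nat_lit 11905184967, nat_lit 11882202035, nat_lit 9349055164, nat_lit 9309202931, nat_lit 9743453995, nat_lit 9681894017], nat_lit 1271250, nat_lit 1271250, nat_lit 1271250, nat_lit 1271250,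 nat_lit 0, nat_lit 2373000, [nat_lit 1412500, nat_lit 1271250, nat_lit 1271250], [nat_lit 46, nat_lit 40, nat_lit 40, nat_lit 80, nat_lit 41, nat_lit 373, nat_lit 150, nat_lit 9]⟩,
 ⟨nat_lit 4472, nat_lit 5000, ⟨.ofNat (nat_lit 714270), .ofNat (nat_lit 828548), .ofNat (nat_lit 735687), .ofNat (nat_lit 849965), .ofNat (nat_lit 703919), .ofNat (nat_lit 812676), .ofNat (nat_lit 725474), .ofNat (nat_lit 834231)⟩, ⟨.negSucc (nat_lit 28572), .ofNat (nat_lit 257141), .ofNat (nat_lit 0), .ofNat (nat_lit 299999), .negSucc (nat_lit 12423), .ofNat (nat_lit 259489), .ofNat (nat_lit 0), .ofNat (nat_lit 302621)⟩⟩, [⟨nat_lit 13, nat_lit 84, nat_lit 51, nat_lit 100, nat_lit 20530298⟩, ⟨nat_lit 10, nat_lit 100, nat_lit 47, nat_lit 81, nat_lit 44674910⟩]⟩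
noncomputable def p054_l52 : Lf2 := ⟨nat_lit 0, nat_lit 10, [nat_lit 0, nat_lit 5, nat_lit 5, nat_lit 20], false, nat_lit 0, nat_lit 160, nat_lit 0, nat_lit 336, ⟨nat_lit 1000, nat_lit 0, nat_lit 0, nat_lit 0, nat_lit 0, nat_lit 0, nat_lit 0, nat_lit 0, nat_lit 0, nat_lit 0, nat_lit 0, nat_lit 0, nat_lit 0, nat_lit 0, nat_lit 0, nat_lit 0, false, false⟩,
 nat_lit 16156, nat_lit 0, nat_lit 0, nat_lit 0, nat_lit 6532, nat_lit 7726, nat_lit 1236, nat_lit 0, nat_lit 0, nat_lit 2228, nat_lit 0, nat_lit 0, nat_lit 0, nat_lit 0, nat_lit 0, nat_lit 0, nat_lit 0, nat_lit 0, [],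
 ⟨p054_k1, nat_lit 0, nat_lit 0, nat_lit 365, nat_lit 0, nat_lit 452512, [nat_lit 3282000000, nat_lit 6250000000, nat_lit 7968000000], [], [nat_lit 29848574880, nat_lit 31570108752, nat_lit 37452326812, nat_lit 38721207114, nat_lit 24573353748, nat_lit 25267614660, nat_lit 30283573119, nat_lit 31398037488], nat_lit 1271250, nat_lit 1271250, nat_lit 1271250, nat_lit 1271250, nat_lit 0, nat_lit 1100001, [nat_lit 780000, nat_lit 1435000, nat_lit 1271250], [nat_lit 18, nat_lit 40, nat_lit 40, nat_lit 80, nat_lit 2, nat_lit 249, nat_lit 40, nat_lit 7]⟩, ⟨p054_k10, nat_lit 0, nat_lit 0, nat_lit 580, nat_lit 0, nat_lit 716532, [nat_lit 6250000000, nat_lit 9842000000, nat_lit 11872000000], [], [nat_lit 37366460744, nat_lit 37380833808, nat_lit 39086331541, nat_lit 39022018709, nat_lit 32678222736, nat_lit 32588815437, nat_lit 34332145404, nat_lit 34627400829], nat_lit 1271250, nat_lit 1271250, nat_lit 1271250, nat_lit 1271250,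 nat_lit 0, nat_lit 2373000, [nat_lit 1412500, nat_lit 1271250, nat_lit 1271250], [nat_lit 46, nat_lit 40, nat_lit 40, nat_lit 80, nat_lit 41, nat_lit 373, nat_lit 150, nat_lit 9]⟩,
 zbF0, [⟨nat_lit 7, nat_lit 81, nat_lit 100, nat_lit 72, nat_lit 9366010⟩, ⟨nat_lit 10, nat_lit 74, nat_lit 63, nat_lit 100, nat_lit 176694601⟩]⟩
noncomputable def p054_l53 : Lf2 := ⟨nat_lit 0, nat_lit 10, [nat_lit 0, nat_lit 5, nat_lit 5, nat_lit 20], false, nat_lit 160, nat_lit 300, nat_lit 0, nat_lit 160, ⟨nat_lit 341, nat_lit 659, nat_lit 0, nat_lit 6, nat_lit 295, nat_lit 659, nat_lit 162, nat_lit 0, nat_lit 0, nat_lit 0, nat_lit 0, nat_lit 0, nat_lit 37556446, nat_lit 21298675, nat_lit 8144879, nat_lit 5072852, true, true⟩,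
 nat_lit 8319, nat_lit 0, nat_lit 0, nat_lit 0, nat_lit 5293, nat_lit 3565, nat_lit 308, nat_lit 0, nat_lit 0, nat_lit 345, nat_lit 0, nat_lit 0, nat_lit 0, nat_lit 0, nat_lit 0, nat_lit 659000, nat_lit 0, nat_lit 0, [(nat_lit 12, [(nat_lit 2, nat_lit 659)])],
 ⟨p054_k7, nat_lit 0, nat_lit 0, nat_lit 237, nat_lit 0, nat_lit 367523, [nat_lit 2658058801, nat_lit 3413927600, nat_lit 3162376000], [], [nat_lit 21714970285, nat_lit 22472787337, nat_lit 28493668173, nat_lit 29235229480, nat_lit 25205992227, nat_lit 25877031368, nat_lit 31699214073, nat_lit 32429884555], nat_lit 1271250, nat_lit 1271250, nat_lit 1271250, nat_lit 1271250, nat_lit 1100001, nat_lit 2298750, [nat_lit 780000, nat_lit 1435000, nat_lit 1271250], [nat_lit 8, nat_lit 40, nat_lit 40, nat_lit 80, nat_lit 1, nat_lit 401, nat_lit 175, nat_lit 11]⟩, ⟨p054_k4, nat_lit 0, nat_lit 0, nat_lit 543, nat_lit 0, nat_lit 605417, [nat_lit 2131250000, nat_lit 3356122000,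 nat_lit 4048352000], [], [nat_lit 13161911552, nat_lit 13334960620, nat_lit 15312209453, nat_lit 15260625738, nat_lit 10546856456, nat_lit 10657535880, nat_lit 12275459807, nat_lit 12196643634], nat_lit 1271250, nat_lit 1271250, nat_lit 1271250, nat_lit 1271250, nat_lit 0, nat_lit 1100001, [nat_lit 1412500, nat_lit 1271250, nat_lit 1271250], [nat_lit 46, nat_lit 40, nat_lit 40, nat_lit 80, nat_lit 41, nat_lit 428, nat_lit 200, nat_lit 11]⟩,
 ⟨nat_lit 5000, nat_lit 5478, ⟨.ofNat (nat_lit 574920), .ofNat (nat_lit 867109), .ofNat (nat_lit 617614), .ofNat (nat_lit 909802), .ofNat (nat_lit 571415), .ofNat (nat_lit 849937), .ofNat (nat_lit 614253), .ofNat (nat_lit 892774)⟩, ⟨.ofNat (nat_lit 254209), .ofNat (nat_lit 516475), .ofNat (nat_lit 296923), .ofNat (nat_lit 559189), .ofNat (nat_lit 257141), .ofNat (nat_lit 507141), .ofNat (nat_lit 299999), .ofNat (nat_lit 549998)⟩⟩, [⟨nat_lit 4, nat_lit 100, nat_lit 94, nat_lit 75,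 nat_lit 185773285⟩, ⟨nat_lit 9, nat_lit 100, nat_lit 72, nat_lit 81, nat_lit 63713285⟩]⟩
noncomputable def p054_l54 : Lf2 := ⟨nat_lit 0, nat_lit 10, [nat_lit 0, nat_lit 5, nat_lit 5, nat_lit 20], false, nat_lit 160, nat_lit 280, nat_lit 0, nat_lit 160, ⟨nat_lit 270, nat_lit 730, nat_lit 0, nat_lit 6, nat_lit 290, nat_lit 730, nat_lit 154, nat_lit 0, nat_lit 0, nat_lit 0, nat_lit 0, nat_lit 0, nat_lit 38300553, nat_lit 21068172, nat_lit 7631275, nat_lit 4990908, true, true⟩,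
 nat_lit 6437, nat_lit 0, nat_lit 0, nat_lit 0, nat_lit 4154, nat_lit 2758, nat_lit 873, nat_lit 0, nat_lit 0, nat_lit 208, nat_lit 0, nat_lit 0, nat_lit 0, nat_lit 0, nat_lit 0, nat_lit 292000, nat_lit 0, nat_lit 0, [(nat_lit 15, [(nat_lit 1, nat_lit 730)])],
 ⟨p054_k1, nat_lit 0, nat_lit 0, nat_lit 240, nat_lit 0, nat_lit 391189, [nat_lit 2360886001, nat_lit 3406552667, nat_lit 3842040000], [], [nat_lit 22033027285, nat_lit 22442298061, nat_lit 27784123831, nat_lit 28100072103, nat_lit 24791163905, nat_lit 25119004919, nat_lit 30308653443, nat_lit 30674146771], nat_lit 1271250, nat_lit 1271250, nat_lit 1271250, nat_lit 1271250, nat_lit 1100001, nat_lit 2127500, [nat_lit 780000, nat_lit 1435000, nat_lit 1271250], [nat_lit 18, nat_lit 40, nat_lit 40, nat_lit 80, nat_lit 2, nat_lit 289, nat_lit 75, nat_lit 8]⟩, ⟨p054_k4, nat_lit 0, nat_lit 0, nat_lit 590, nat_lit 0, nat_lit 713819, [nat_lit 1687500000, nat_lit 2657340000,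 nat_lit 3205440000], [], [nat_lit 10826018376, nat_lit 10873366696, nat_lit 12180455743, nat_lit 12157370306, nat_lit 8648674160, nat_lit 8671936032, nat_lit 9854516138, nat_lit 9801921095], nat_lit 1271250, nat_lit 1271250, nat_lit 1271250, nat_lit 1271250, nat_lit 0, nat_lit 1100001, [nat_lit 1412500, nat_lit 1271250, nat_lit 1271250], [nat_lit 46, nat_lit 40, nat_lit 40, nat_lit 80, nat_lit 41, nat_lit 428, nat_lit 200, nat_lit 11]⟩,
 ⟨nat_lit 4743, nat_lit 5000, ⟨.ofNat (nat_lit 571426), .ofNat (nat_lit 842848), .ofNat (nat_lit 614278), .ofNat (nat_lit 885699), .ofNat (nat_lit 569697), .ofNat (nat_lit 834550), .ofNat (nat_lit 612668), .ofNat (nat_lit 877520)⟩, ⟨.ofNat (nat_lit 257141), .ofNat (nat_lit 471427), .ofNat (nat_lit 299999), .ofNat (nat_lit 514284), .ofNat (nat_lit 258394), .ofNat (nat_lit 467493), .ofNat (nat_lit 301370), .ofNat (nat_lit 510469)⟩⟩, [⟨nat_lit 13, nat_lit 88, nat_lit 32, nat_lit 100,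 nat_lit 8752809⟩, ⟨nat_lit 4, nat_lit 100, nat_lit 88, nat_lit 74, nat_lit 184351294⟩, ⟨nat_lit 9, nat_lit 100, nat_lit 68, nat_lit 80, nat_lit 49659236⟩]⟩
noncomputable def p054_l55 : Lf2 := ⟨nat_lit 0, nat_lit 10, [nat_lit 0, nat_lit 5, nat_lit 5, nat_lit 20], false, nat_lit 160, nat_lit 268, nat_lit 0, nat_lit 160, ⟨nat_lit 227, nat_lit 773, nat_lit 0, nat_lit 6, nat_lit 287, nat_lit 773, nat_lit 149, nat_lit 0, nat_lit 0, nat_lit 0, nat_lit 0, nat_lit 0, nat_lit 38800038, nat_lit 20859254, nat_lit 7340708, nat_lit 4938694, true, true⟩,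
 nat_lit 5671, nat_lit 0, nat_lit 0, nat_lit 0, nat_lit 4088, nat_lit 2430, nat_lit 656, nat_lit 0, nat_lit 0, nat_lit 238, nat_lit 0, nat_lit 0, nat_lit 0, nat_lit 0, nat_lit 0, nat_lit 309200, nat_lit 0, nat_lit 0, [(nat_lit 15, [(nat_lit 1, nat_lit 773)])],
 ⟨p054_k2, nat_lit 0, nat_lit 0, nat_lit 254, nat_lit 0, nat_lit 430997, [nat_lit 2306628600, nat_lit 3239061934, nat_lit 3599684666], [], [nat_lit 21832010740, nat_lit 22238902612, nat_lit 27854553109, nat_lit 28211464674, nat_lit 24262697532, nat_lit 24639629349, nat_lit 30001476384, nat_lit 30381274490], nat_lit 1271250, nat_lit 1271250, nat_lit 1271250, nat_lit 1271250, nat_lit 1100001, nat_lit 2024750, [nat_lit 780000, nat_lit 1435000, nat_lit 1271250], [nat_lit 18, nat_lit 40, nat_lit 40, nat_lit 80, nat_lit 2, nat_lit 289, nat_lit 75, nat_lit 8]⟩, ⟨p054_k4, nat_lit 0, nat_lit 0, nat_lit 656, nat_lit 0, nat_lit 825717, [nat_lit 1418750000, nat_lit 2234134000,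 nat_lit 2694944000], [], [nat_lit 9222692184, nat_lit 9221561708, nat_lit 9997063243, nat_lit 9991302232, nat_lit 7442078252, nat_lit 7413138940, nat_lit 7997563839, nat_lit 7884551829], nat_lit 1271250, nat_lit 1271250, nat_lit 1271250, nat_lit 1271250, nat_lit 0, nat_lit 1100001, [nat_lit 1412500, nat_lit 1271250, nat_lit 1271250], [nat_lit 46, nat_lit 40, nat_lit 40, nat_lit 80, nat_lit 41, nat_lit 428, nat_lit 200, nat_lit 11]⟩,
 ⟨nat_lit 4472, nat_lit 4744, ⟨.ofNat (nat_lit 569698), .ofNat (nat_lit 827585), .ofNat (nat_lit 612668), .ofNat (nat_lit 870555), .ofNat (nat_lit 567976), .ofNat (nat_lit 819494), .ofNat (nat_lit 611103), .ofNat (nat_lit 862620)⟩, ⟨.ofNat (nat_lit 258394), .ofNat (nat_lit 446583), .ofNat (nat_lit 301370), .ofNat (nat_lit 489559), .ofNat (nat_lit 259489), .ofNat (nat_lit 443030), .ofNat (nat_lit 302621), .ofNat (nat_lit 486162)⟩⟩, [⟨nat_lit 13, nat_lit 82, nat_lit 49, nat_lit 100, nat_lit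 27412580⟩, ⟨nat_lit 4, nat_lit 100, nat_lit 83, nat_lit 73, nat_lit 177503972⟩, ⟨nat_lit 9, nat_lit 100, nat_lit 66, nat_lit 80, nat_lit 49726382⟩]⟩
noncomputable def p054_l56 : Lf2 := ⟨nat_lit 0, nat_lit 10, [nat_lit 0, nat_lit 5, nat_lit 5, nat_lit 20], false, nat_lit 160, nat_lit 300, nat_lit 160, nat_lit 360, ⟨nat_lit 382, nat_lit 618, nat_lit 0, nat_lit 6, nat_lit 290, nat_lit 618, nat_lit 162, nat_lit 0, nat_lit 0, nat_lit 0, nat_lit 0, nat_lit 0, nat_lit 37905427, nat_lit 20871310, nat_lit 8223263, nat_lit 5063452, true, true⟩,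
 nat_lit 8560, nat_lit 0, nat_lit 0, nat_lit 0, nat_lit 4834, nat_lit 3668, nat_lit 320, nat_lit 0, nat_lit 0, nat_lit 307, nat_lit 0, nat_lit 0, nat_lit 0, nat_lit 0, nat_lit 0, nat_lit 618000, nat_lit 0, nat_lit 0, [(nat_lit 12, [(nat_lit 2, nat_lit 618)])],
 ⟨p054_k7, nat_lit 0, nat_lit 0, nat_lit 194, nat_lit 0, nat_lit 237124, [nat_lit 2696877601, nat_lit 3590375200, nat_lit 3577952000], [], [nat_lit 20988948577, nat_lit 21453820303, nat_lit 28121176365, nat_lit 28518870680, nat_lit 24755937871, nat_lit 25108142211, nat_lit 31027021162, nat_lit 31323361059], nat_lit 1271250, nat_lit 1271250, nat_lit 1271250, nat_lit 1271250, nat_lit 1100001, nat_lit 2298750, [nat_lit 780000, nat_lit 1435000, nat_lit 1271250], [nat_lit 8, nat_lit 40, nat_lit 40, nat_lit 80, nat_lit 1, nat_lit 401, nat_lit 175, nat_lit 11]⟩, ⟨p054_k4, nat_lit 0, nat_lit 0, nat_lit 328, nat_lit 0, nat_lit 390613, [nat_lit 2387500000, nat_lit 3759644000,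 nat_lit 4535104000], [], [nat_lit 11394114824, nat_lit 11501165196, nat_lit 13778012148, nat_lit 13792242363, nat_lit 13057350056, nat_lit 13092274540, nat_lit 14705442874, nat_lit 14648158208], nat_lit 1271250, nat_lit 1271250, nat_lit 1271250, nat_lit 1271250, nat_lit 1271250, nat_lit 1271250, [nat_lit 1412500, nat_lit 1271250, nat_lit 1271250], [nat_lit 46, nat_lit 40, nat_lit 40, nat_lit 80, nat_lit 41, nat_lit 483, nat_lit 250, nat_lit 12]⟩,
 ⟨nat_lit 5244, nat_lit 5478, ⟨.ofNat (nat_lit 574929), .ofNat (nat_lit 859660), .ofNat (nat_lit 596283), .ofNat (nat_lit 881015), .ofNat (nat_lit 573167), .ofNat (nat_lit 851203), .ofNat (nat_lit 594550), .ofNat (nat_lit 872587)⟩, ⟨.ofNat (nat_lit 254209), .ofNat (nat_lit 516475), .ofNat (nat_lit 296923), .ofNat (nat_lit 559189), .ofNat (nat_lit 255744), .ofNat (nat_lit 511843), .ofNat (nat_lit 298515), .ofNat (nat_lit 554614)⟩⟩, [⟨nat_lit 13, nat_lit 91, nat_lit 38, nat_lit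 100, nat_lit 24591491⟩, ⟨nat_lit 4, nat_lit 100, nat_lit 97, nat_lit 76, nat_lit 217242584⟩, ⟨nat_lit 7, nat_lit 74, nat_lit 100, nat_lit 72, nat_lit 153819869⟩]⟩
noncomputable def p054_l57 : Lf2 := ⟨nat_lit 0, nat_lit 10, [nat_lit 0, nat_lit 5, nat_lit 5, nat_lit 20], false, nat_lit 160, nat_lit 292, nat_lit 160, nat_lit 360, ⟨nat_lit 308, nat_lit 692, nat_lit 0, nat_lit 6, nat_lit 287, nat_lit 692, nat_lit 159, nat_lit 0, nat_lit 0, nat_lit 0, nat_lit 0, nat_lit 0, nat_lit 38353393, nat_lit 20633403, nat_lit 8013204, nat_lit 5023232, true, true⟩,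
 nat_lit 6953, nat_lit 0, nat_lit 0, nat_lit 0, nat_lit 4617, nat_lit 2979, nat_lit 405, nat_lit 0, nat_lit 0, nat_lit 250, nat_lit 0, nat_lit 0, nat_lit 0, nat_lit 0, nat_lit 0, nat_lit 409400, nat_lit 0, nat_lit 0, [(nat_lit 12, [(nat_lit 1, nat_lit 471), (nat_lit 2, nat_lit 221)])],
 ⟨p054_k9, nat_lit 0, nat_lit 0, nat_lit 190, nat_lit 0, nat_lit 289521, [nat_lit 2501151600, nat_lit 3636839601, nat_lit 3829722400], [], [nat_lit 21485574724, nat_lit 21968899677, nat_lit 28063960624, nat_lit 28392407234, nat_lit 25209959728, nat_lit 25581799067, nat_lit 30646616929, nat_lit 30950616497], nat_lit 1271250, nat_lit 1271250, nat_lit 1271250, nat_lit 1271250, nat_lit 1100001, nat_lit 2230250, [nat_lit 780000, nat_lit 1435000, nat_lit 1271250], [nat_lit 18, nat_lit 40, nat_lit 40, nat_lit 80, nat_lit 2, nat_lit 289, nat_lit 75, nat_lit 8]⟩, ⟨p054_k4, nat_lit 0, nat_lit 0, nat_lit 373, nat_lit 0, nat_lit 502385, [nat_lit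 1925000000, nat_lit 3031336000, nat_lit 3656576000], [], [nat_lit 9129308968, nat_lit 9215294284, nat_lit 10994274731, nat_lit 11008130992, nat_lit 10488333440, nat_lit 10516325125, nat_lit 11770803415, nat_lit 11725631569], nat_lit 1271250, nat_lit 1271250, nat_lit 1271250, nat_lit 1271250, nat_lit 1271250, nat_lit 1271250, [nat_lit 1412500, nat_lit 1271250, nat_lit 1271250], [nat_lit 46, nat_lit 40, nat_lit 40, nat_lit 80, nat_lit 41, nat_lit 483, nat_lit 250, nat_lit 12]⟩,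
 ⟨nat_lit 5000, nat_lit 5245, ⟨.ofNat (nat_lit 573168), .ofNat (nat_lit 843891), .ofNat (nat_lit 594550), .ofNat (nat_lit 865274), .ofNat (nat_lit 571425), .ofNat (nat_lit 835701), .ofNat (nat_lit 592851), .ofNat (nat_lit 857127)⟩, ⟨.ofNat (nat_lit 255744), .ofNat (nat_lit 497209), .ofNat (nat_lit 298515), .ofNat (nat_lit 539979), .ofNat (nat_lit 257141), .ofNat (nat_lit 492856), .ofNat (nat_lit 299999), .ofNat (nat_lit 535713)⟩⟩, [⟨nat_lit 13, nat_lit 88, nat_lit 43, nat_lit 100, nat_lit 29761624⟩, ⟨nat_lit 4, nat_lit 100, nat_lit 92, nat_lit 75, nat_lit 205167046⟩, ⟨nat_lit 7, nat_lit 74, nat_lit 100, nat_lit 72, nat_lit 124967851⟩]⟩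
noncomputable def p054_l58 : Lf2 := ⟨nat_lit 0, nat_lit 10, [nat_lit 0, nat_lit 5, nat_lit 5, nat_lit 20], false, nat_lit 160, nat_lit 300, nat_lit 160, nat_lit 348, ⟨nat_lit 1000, nat_lit 0, nat_lit 0, nat_lit 0, nat_lit 0, nat_lit 0, nat_lit 0, nat_lit 0, nat_lit 0, nat_lit 0, nat_lit 0, nat_lit 0, nat_lit 0, nat_lit 0, nat_lit 0, nat_lit 0, false, false⟩,
 nat_lit 16681, nat_lit 0, nat_lit 0, nat_lit 0, nat_lit 8237, nat_lit 7977, nat_lit 837, nat_lit 0, nat_lit 0, nat_lit 1957, nat_lit 0, nat_lit 0, nat_lit 0, nat_lit 0, nat_lit 0, nat_lit 0, nat_lit 0, nat_lit 0, [],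
 ⟨p054_k7, nat_lit 0, nat_lit 0, nat_lit 237, nat_lit 0, nat_lit 367523, [nat_lit 3282000000, nat_lit 6250000000, nat_lit 9842000000], [], [nat_lit 21764512649, nat_lit 22796129543, nat_lit 31390087039, nat_lit 32617675279, nat_lit 25093174505, nat_lit 25870151271, nat_lit 34845028511, nat_lit 35692150091], nat_lit 1271250, nat_lit 1271250, nat_lit 1271250, nat_lit 1271250, nat_lit 1100001, nat_lit 2298750, [nat_lit 780000, nat_lit 1435000, nat_lit 1271250], [nat_lit 8, nat_lit 40, nat_lit 40, nat_lit 80, nat_lit 1, nat_lit 401, nat_lit 175, nat_lit 11]⟩, ⟨p054_k10, nat_lit 0, nat_lit 0, nat_lit 380, nat_lit 0, nat_lit 525362, [nat_lit 6250000000, nat_lit 9842000000, nat_lit 11872000000], [], [nat_lit 27183624084, nat_lit 27511238232, nat_lit 32672492679, nat_lit 32821356374, nat_lit 30751531631, nat_lit 30831642570, nat_lit 35764824377, nat_lit 36006586437], nat_lit 1271250, nat_lit 1271250, nat_lit 1271250, nat_lit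 1271250, nat_lit 1100001, nat_lit 2709750, [nat_lit 1412500, nat_lit 1271250, nat_lit 1271250], [nat_lit 46, nat_lit 40, nat_lit 40, nat_lit 80, nat_lit 41, nat_lit 483, nat_lit 250, nat_lit 12]⟩,
 zbF0, [⟨nat_lit 4, nat_lit 100, nat_lit 94, nat_lit 75, nat_lit 467272512⟩, ⟨nat_lit 7, nat_lit 81, nat_lit 100, nat_lit 72, nat_lit 439066406⟩]⟩
noncomputable def p054_l59 : Lf2 := ⟨nat_lit 0, nat_lit 10, [nat_lit 0, nat_lit 5, nat_lit 5, nat_lit 20], false, nat_lit 160, nat_lit 280, nat_lit 160, nat_lit 360, ⟨nat_lit 275, nat_lit 725, nat_lit 0, nat_lit 6, nat_lit 260, nat_lit 725, nat_lit 154, nat_lit 0, nat_lit 0, nat_lit 0, nat_lit 0, nat_lit 0, nat_lit 40762340, nat_lit 18307746, nat_lit 7929914, nat_lit 4879196, true, true⟩,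
 nat_lit 6898, nat_lit 0, nat_lit 0, nat_lit 0, nat_lit 4775, nat_lit 2956, nat_lit 310, nat_lit 0, nat_lit 0, nat_lit 243, nat_lit 0, nat_lit 0, nat_lit 0, nat_lit 0, nat_lit 0, nat_lit 725000, nat_lit 0, nat_lit 0, [(nat_lit 15, [(nat_lit 2, nat_lit 725)])],
 ⟨p054_k1, nat_lit 0, nat_lit 0, nat_lit 209, nat_lit 0, nat_lit 404166, [nat_lit 2434910001, nat_lit 2478550000, nat_lit 1685730000], [], [nat_lit 20649762001, nat_lit 21513070201, nat_lit 23466473051, nat_lit 24181836601, nat_lit 23423752751, nat_lit 24106561301, nat_lit 26676451550, nat_lit 27649376300], nat_lit 1271250, nat_lit 1271250, nat_lit 1271250, nat_lit 1271250, nat_lit 1100001, nat_lit 2127500, [nat_lit 780000, nat_lit 1435000, nat_lit 1271250], [nat_lit 18, nat_lit 40, nat_lit 40, nat_lit 80, nat_lit 2, nat_lit 289, nat_lit 75, nat_lit 8]⟩, ⟨p054_k4, nat_lit 0, nat_lit 0, nat_lit 489, nat_lit 0, nat_lit 737499, [nat_lit 1718750000, nat_lit 2706550000,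 nat_lit 3264800000], [], [nat_lit 8265045260, nat_lit 8307885742, nat_lit 8822544204, nat_lit 8827078846, nat_lit 9056898624, nat_lit 9020054387, nat_lit 9299576424, nat_lit 9278698425], nat_lit 1271250, nat_lit 1271250, nat_lit 1271250, nat_lit 1271250, nat_lit 1271250, nat_lit 1271250, [nat_lit 1412500, nat_lit 1271250, nat_lit 1271250], [nat_lit 46, nat_lit 40, nat_lit 40, nat_lit 80, nat_lit 41, nat_lit 456, nat_lit 225, nat_lit 11]⟩,
 ⟨nat_lit 4472, nat_lit 5000, ⟨.ofNat (nat_lit 571423), .ofNat (nat_lit 714270), .ofNat (nat_lit 592840), .ofNat (nat_lit 735687), .ofNat (nat_lit 567973), .ofNat (nat_lit 703919), .ofNat (nat_lit 589527), .ofNat (nat_lit 725474)⟩, ⟨.ofNat (nat_lit 257141), .ofNat (nat_lit 471427), .ofNat (nat_lit 299999), .ofNat (nat_lit 514284), .ofNat (nat_lit 259489), .ofNat (nat_lit 463423), .ofNat (nat_lit 302621), .ofNat (nat_lit 506556)⟩⟩, [⟨nat_lit 16, nat_lit 85, nat_lit 100, nat_lit 73,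 nat_lit 300708477⟩, ⟨nat_lit 7, nat_lit 74, nat_lit 100, nat_lit 72, nat_lit 105187458⟩]⟩
noncomputable def p054_l60 : Lf2 := ⟨nat_lit 0, nat_lit 10, [nat_lit 0, nat_lit 5, nat_lit 5, nat_lit 20], false, nat_lit 160, nat_lit 280, nat_lit 160, nat_lit 360, ⟨nat_lit 274, nat_lit 726, nat_lit 0, nat_lit 8, nat_lit 310, nat_lit 726, nat_lit 154, nat_lit 0, nat_lit 0, nat_lit 0, nat_lit 0, nat_lit 0, nat_lit 36763531, nat_lit 22843031, nat_lit 7393438, nat_lit 5032984, true, true⟩,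
 nat_lit 6253, nat_lit 0, nat_lit 0, nat_lit 0, nat_lit 4329, nat_lit 2679, nat_lit 220, nat_lit 0, nat_lit 0, nat_lit 207, nat_lit 0, nat_lit 0, nat_lit 0, nat_lit 0, nat_lit 0, nat_lit 726000, nat_lit 0, nat_lit 0, [(nat_lit 15, [(nat_lit 2, nat_lit 726)])],
 ⟨p054_k1, nat_lit 0, nat_lit 0, nat_lit 243, nat_lit 0, nat_lit 404166, [nat_lit 2433741601, nat_lit 2473348000, nat_lit 1677064800], [], [nat_lit 24968961539, nat_lit 25662737797, nat_lit 27622217043, nat_lit 28207512897, nat_lit 27160208018, nat_lit 27715101835, nat_lit 30019174905, nat_lit 30780341661], nat_lit 1271250, nat_lit 1271250, nat_lit 1271250, nat_lit 1271250, nat_lit 1100001, nat_lit 2127500, [nat_lit 780000, nat_lit 1435000, nat_lit 1271250], [nat_lit 18, nat_lit 40, nat_lit 40, nat_lit 80, nat_lit 2, nat_lit 289, nat_lit 75, nat_lit 8]⟩, ⟨p054_k4, nat_lit 0, nat_lit 0, nat_lit 487, nat_lit 0, nat_lit 737499, [nat_lit 1712500000, nat_lit 2696708000,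 nat_lit 3252928000], [], [nat_lit 9572418780, nat_lit 9585754630, nat_lit 10245067589, nat_lit 10227597277, nat_lit 10038635300, nat_lit 9990426202, nat_lit 10409000354, nat_lit 10356357471], nat_lit 1271250, nat_lit 1271250, nat_lit 1271250, nat_lit 1271250, nat_lit 1100001, nat_lit 2812500, [nat_lit 1412500, nat_lit 1271250, nat_lit 1271250], [nat_lit 46, nat_lit 40, nat_lit 40, nat_lit 80, nat_lit 41, nat_lit 373, nat_lit 150, nat_lit 9]⟩,
 ⟨nat_lit 4472, nat_lit 5000, ⟨.ofNat (nat_lit 714270), .ofNat (nat_lit 828548), .ofNat (nat_lit 735687), .ofNat (nat_lit 849965), .ofNat (nat_lit 703919), .ofNat (nat_lit 812676), .ofNat (nat_lit 725474), .ofNat (nat_lit 834231)⟩, ⟨.ofNat (nat_lit 257141), .ofNat (nat_lit 471427), .ofNat (nat_lit 299999), .ofNat (nat_lit 514284), .ofNat (nat_lit 259489), .ofNat (nat_lit 463423), .ofNat (nat_lit 302621), .ofNat (nat_lit 506556)⟩⟩, [⟨nat_lit 13, nat_lit 84, nat_lit 51, nat_lit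 100, nat_lit 82910593⟩, ⟨nat_lit 4, nat_lit 100, nat_lit 85, nat_lit 73, nat_lit 249029983⟩, ⟨nat_lit 19, nat_lit 100, nat_lit 74, nat_lit 72, nat_lit 93240066⟩]⟩
noncomputable def p054_l61 : Lf2 := ⟨nat_lit 0, nat_lit 10, [nat_lit 0, nat_lit 5, nat_lit 5, nat_lit 20], false, nat_lit 160, nat_lit 280, nat_lit 160, nat_lit 348, ⟨nat_lit 756, nat_lit 244, nat_lit 0, nat_lit 6, nat_lit 294, nat_lit 244, nat_lit 154, nat_lit 0, nat_lit 0, nat_lit 0, nat_lit 0, nat_lit 0, nat_lit 38052798, nat_lit 21371602, nat_lit 7575600, nat_lit 4997209, true, true⟩,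
 nat_lit 12135, nat_lit 0, nat_lit 0, nat_lit 0, nat_lit 6520, nat_lit 5803, nat_lit 505, nat_lit 0, nat_lit 0, nat_lit 1686, nat_lit 0, nat_lit 0, nat_lit 0, nat_lit 0, nat_lit 0, nat_lit 244000, nat_lit 0, nat_lit 0, [(nat_lit 15, [(nat_lit 2, nat_lit 244)])],
 ⟨p054_k1, nat_lit 0, nat_lit 0, nat_lit 262, nat_lit 0, nat_lit 452512, [nat_lit 2996910400, nat_lit 4980712000, nat_lit 5853691200], [], [nat_lit 21212060830, nat_lit 22234787710, nat_lit 30270221425, nat_lit 31383718081, nat_lit 24035777910, nat_lit 24817140510, nat_lit 32803536561, nat_lit 33647065793], nat_lit 1271250, nat_lit 1271250, nat_lit 1271250, nat_lit 1271250, nat_lit 1100001, nat_lit 2127500, [nat_lit 780000, nat_lit 1435000, nat_lit 1271250], [nat_lit 18, nat_lit 40, nat_lit 40, nat_lit 80, nat_lit 2, nat_lit 289, nat_lit 75, nat_lit 8]⟩, ⟨p054_k10, nat_lit 0, nat_lit 0, nat_lit 457, nat_lit 0, nat_lit 716532, [nat_lit 4725000000, nat_lit 7440552000,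 nat_lit 8975232000], [], [nat_lit 22884372666, nat_lit 22978764432, nat_lit 25270322921, nat_lit 25238593472, nat_lit 24142736934, nat_lit 24112607400, nat_lit 26512092044, nat_lit 26711073815], nat_lit 1271250, nat_lit 1271250, nat_lit 1271250, nat_lit 1271250, nat_lit 1100001, nat_lit 2709750, [nat_lit 1412500, nat_lit 1271250, nat_lit 1271250], [nat_lit 46, nat_lit 40, nat_lit 40, nat_lit 80, nat_lit 41, nat_lit 483, nat_lit 250, nat_lit 12]⟩,
 ⟨nat_lit 4472, nat_lit 5000, ⟨.ofNat (nat_lit 592840), .ofNat (nat_lit 864250), .ofNat (nat_lit 614256), .ofNat (nat_lit 885667), .ofNat (nat_lit 589527), .ofNat (nat_lit 847826), .ofNat (nat_lit 611081), .ofNat (nat_lit 869380)⟩, ⟨.ofNat (nat_lit 257141), .ofNat (nat_lit 471427), .ofNat (nat_lit 299999), .ofNat (nat_lit 514284), .ofNat (nat_lit 259489), .ofNat (nat_lit 463423), .ofNat (nat_lit 302621), .ofNat (nat_lit 506556)⟩⟩, [⟨nat_lit 4, nat_lit 100, nat_lit 85, nat_lit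 73, nat_lit 406204424⟩, ⟨nat_lit 19, nat_lit 100, nat_lit 81, nat_lit 72, nat_lit 289259436⟩]⟩
noncomputable def b_V_700_500_10_9 : St := ⟨true, nat_lit 1, nat_lit 1, nat_lit 1, nat_lit 80, nat_lit 280, nat_lit 320, nat_lit 200, nat_lit 240, nat_lit 240, nat_lit 396, nat_lit 40, nat_lit 80, nat_lit 0, nat_lit 300, nat_lit 0, nat_lit 360, nat_lit 0, nat_lit 40, nat_lit 0, nat_lit 0, nat_lit 0, nat_lit 0⟩
theorem d_V_700_500_10_9 (h : EB TB.env) : Dead b_V_700_500_10_9 := chkB_sound0 h (T :=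
(.spl (nat_lit 4) (nat_lit 160)
(.spl (nat_lit 0) (nat_lit 300)
(.spl (nat_lit 1) (nat_lit 220)
(.trX (nat_lit 13) (nat_lit 92) (nat_lit 31) (nat_lit 100) (nat_lit 392) (.spl (nat_lit 2) (nat_lit 320)
(.leaf p054_l46)
(.trX (nat_lit 22) (nat_lit 82) (nat_lit 76) (nat_lit 100) (nat_lit 336) (.leaf p054_l47))))
(.trX (nat_lit 19) (nat_lit 100) (nat_lit 68) (nat_lit 80) (nat_lit 348) (.leaf p054_l48)))
(.trX (nat_lit 13) (nat_lit 88) (nat_lit 32) (nat_lit 100) (nat_lit 392) (.spl (nat_lit 2) (nat_lit 320)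
(.spl (nat_lit 0) (nat_lit 310)
(.leaf p054_l49)
(.leaf p054_l50))
(.trX (nat_lit 22) (nat_lit 82) (nat_lit 76) (nat_lit 100) (nat_lit 336) (.spl (nat_lit 1) (nat_lit 220)
(.trX (nat_lit 13) (nat_lit 87) (nat_lit 41) (nat_lit 100) (nat_lit 384) (.leaf p054_l51))
(.leaf p054_l52))))))
(.spl (nat_lit 5) (nat_lit 160)
(.spl (nat_lit 0) (nat_lit 300)
(.leaf p054_l53)
(.trX (nat_lit 13) (nat_lit 88) (nat_lit 32) (nat_lit 100) (nat_lit 392) (.trX (nat_lit 16) (nat_lit 94) (nat_lit 100) (nat_lit 87) (nat_lit 280) (.spl (nat_lit 0) (nat_lit 310)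
(.leaf p054_l54)
(.trX (nat_lit 13) (nat_lit 85) (nat_lit 38) (nat_lit 100) (nat_lit 388) (.trX (nat_lit 16) (nat_lit 89) (nat_lit 100) (nat_lit 85) (nat_lit 268) (.leaf p054_l55)))))))
(.spl (nat_lit 0) (nat_lit 300)
(.spl (nat_lit 1) (nat_lit 220)
(.trX (nat_lit 13) (nat_lit 92) (nat_lit 31) (nat_lit 100) (nat_lit 392) (.spl (nat_lit 0) (nat_lit 290)
(.leaf p054_l56)
(.trX (nat_lit 13) (nat_lit 90) (nat_lit 36) (nat_lit 100) (nat_lit 388) (.trX (nat_lit 16) (nat_lit 100) (nat_lit 100) (nat_lit 89) (nat_lit 292) (.leaf p054_l57)))))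
(.trX (nat_lit 19) (nat_lit 100) (nat_lit 68) (nat_lit 80) (nat_lit 348) (.leaf p054_l58)))
(.trX (nat_lit 13) (nat_lit 88) (nat_lit 32) (nat_lit 100) (nat_lit 392) (.trX (nat_lit 16) (nat_lit 94) (nat_lit 100) (nat_lit 87) (nat_lit 280) (.spl (nat_lit 1) (nat_lit 220)
(.trX (nat_lit 13) (nat_lit 87) (nat_lit 41) (nat_lit 100) (nat_lit 384) (.spl (nat_lit 2) (nat_lit 320)
(.leaf p054_l59)
(.leaf p054_l60)))
(.trX (nat_lit 19) (nat_lit 100) (nat_lit 68) (nat_lit 80) (nat_lit 348) (.leaf p054_l61))))))))) (by decide +kernel)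
noncomputable def p054_l62 : Lf2 := ⟨nat_lit 0, nat_lit 10, [nat_lit 0, nat_lit 5, nat_lit 5, nat_lit 20], true, nat_lit 0, nat_lit 160, nat_lit 0, nat_lit 360, ⟨nat_lit 0, nat_lit 1000, nat_lit 0, nat_lit 5, nat_lit 129, nat_lit 1000, nat_lit 56, nat_lit 0, nat_lit 0, nat_lit 0, nat_lit 0, nat_lit 0, nat_lit 0, nat_lit 0, nat_lit 0, nat_lit 5000000, false, false⟩,
 nat_lit 0, nat_lit 7223, nat_lit 0, nat_lit 0, nat_lit 4596, nat_lit 0, nat_lit 0, nat_lit 0, nat_lit 0, nat_lit 0, nat_lit 0, nat_lit 0, nat_lit 0, nat_lit 0, nat_lit 12, nat_lit 1000000, nat_lit 0, nat_lit 0, [(nat_lit 12, [(nat_lit 2, nat_lit 1000)]), (nat_lit 15, [(nat_lit 2, nat_lit 1000)])],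
 ⟨p054_k7, nat_lit 0, nat_lit 0, nat_lit 686, nat_lit 0, nat_lit 843997, [nat_lit 2479200001, nat_lit 2186400000, nat_lit 42000000], [], [nat_lit 31676316764, nat_lit 26845424396, nat_lit 24689964548, nat_lit 25987023652, nat_lit 24377115147, nat_lit 25659626488, nat_lit 27080408453, nat_lit 25028650724], nat_lit 1271250, nat_lit 1271250, nat_lit 88400, nat_lit 1100001, nat_lit 0, nat_lit 1100001, [nat_lit 780000, nat_lit 1435000, nat_lit 1271250], [nat_lit 8, nat_lit 40, nat_lit 40, nat_lit 80, nat_lit 1, nat_lit 317, nat_lit 100, nat_lit 9]⟩, C1.Rw.none,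
 ⟨nat_lit 4472, nat_lit 5478, ⟨.ofNat (nat_lit 155307), .ofNat (nat_lit 425065), .ofNat (nat_lit 198021), .ofNat (nat_lit 467727), .ofNat (nat_lit 187299), .ofNat (nat_lit 432020), .ofNat (nat_lit 230432), .ofNat (nat_lit 475101)⟩, ⟨.negSucc (nat_lit 45522), .ofNat (nat_lit 254209), .negSucc (nat_lit 2834), .ofNat (nat_lit 296923), .negSucc (nat_lit 12423), .ofNat (nat_lit 259489), .ofNat (nat_lit 0), .ofNat (nat_lit 302621)⟩⟩, []⟩
noncomputable def p054_l63 : Lf2 := ⟨nat_lit 0, nat_lit 10, [nat_lit 0, nat_lit 5, nat_lit 5, nat_lit 20], true, nat_lit 0, nat_lit 160, nat_lit 0, nat_lit 360, ⟨nat_lit 0, nat_lit 1000, nat_lit 0, nat_lit 5, nat_lit 209, nat_lit 1000, nat_lit 56, nat_lit 0, nat_lit 0, nat_lit 0, nat_lit 0, nat_lit 0, nat_lit 0, nat_lit 0, nat_lit 0, nat_lit 5000000, false, false⟩,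
 nat_lit 0, nat_lit 8272, nat_lit 0, nat_lit 0, nat_lit 5263, nat_lit 0, nat_lit 74, nat_lit 0, nat_lit 0, nat_lit 0, nat_lit 0, nat_lit 0, nat_lit 0, nat_lit 0, nat_lit 12, nat_lit 1000000, nat_lit 0, nat_lit 0, [(nat_lit 12, [(nat_lit 2, nat_lit 1000)]), (nat_lit 15, [(nat_lit 2, nat_lit 1000)])],
 ⟨p054_k7, nat_lit 0, nat_lit 0, nat_lit 592, nat_lit 0, nat_lit 843997, [nat_lit 2479200001, nat_lit 2186400000, nat_lit 42000000], [], [nat_lit 26736085733, nat_lit 22076465899, nat_lit 21994432059, nat_lit 23324334240, nat_lit 19315632523, nat_lit 20591894039, nat_lit 24340211174, nat_lit 21574558287], nat_lit 1271250, nat_lit 1271250, nat_lit 1100001, nat_lit 1785000, nat_lit 0, nat_lit 1100001, [nat_lit 780000, nat_lit 1435000, nat_lit 1271250], [nat_lit 8, nat_lit 40, nat_lit 40, nat_lit 80, nat_lit 1, nat_lit 317, nat_lit 100, nat_lit 9]⟩, C1.Rw.none,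
 ⟨nat_lit 4472, nat_lit 5478, ⟨.ofNat (nat_lit 425065), .ofNat (nat_lit 574895), .ofNat (nat_lit 467727), .ofNat (nat_lit 617523), .ofNat (nat_lit 432020), .ofNat (nat_lit 567940), .ofNat (nat_lit 475101), .ofNat (nat_lit 610987)⟩, ⟨.negSucc (nat_lit 45522), .ofNat (nat_lit 254209), .negSucc (nat_lit 2834), .ofNat (nat_lit 296923), .negSucc (nat_lit 12423), .ofNat (nat_lit 259489), .ofNat (nat_lit 0), .ofNat (nat_lit 302621)⟩⟩, []⟩
noncomputable def p054_l64 : Lf2 := ⟨nat_lit 0, nat_lit 10, [nat_lit 0, nat_lit 5, nat_lit 5, nat_lit 20], true, nat_lit 160, nat_lit 300, nat_lit 0, nat_lit 360, ⟨nat_lit 0, nat_lit 1000, nat_lit 0, nat_lit 5, nat_lit 127, nat_lit 1000, nat_lit 162, nat_lit 0, nat_lit 0, nat_lit 0, nat_lit 0, nat_lit 0, nat_lit 0, nat_lit 0, nat_lit 0, nat_lit 5000000, false, false⟩,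
 nat_lit 0, nat_lit 6155, nat_lit 0, nat_lit 0, nat_lit 3916, nat_lit 0, nat_lit 0, nat_lit 0, nat_lit 0, nat_lit 0, nat_lit 0, nat_lit 0, nat_lit 0, nat_lit 0, nat_lit 0, nat_lit 897400, nat_lit 0, nat_lit 0, [(nat_lit 12, [(nat_lit 1, nat_lit 171), (nat_lit 2, nat_lit 829)])],
 ⟨p054_k7, nat_lit 0, nat_lit 0, nat_lit 463, nat_lit 0, nat_lit 618820, [nat_lit 2289577201, nat_lit 2078890800, nat_lit 207098400], [], [nat_lit 24563268107, nat_lit 24399181835, nat_lit 23337383665, nat_lit 23967368209, nat_lit 26919570942, nat_lit 27576922731, nat_lit 31422827786, nat_lit 29660850998], nat_lit 1271250, nat_lit 1271250, nat_lit 88400, nat_lit 1100001, nat_lit 1100001, nat_lit 2298750, [nat_lit 780000, nat_lit 1435000, nat_lit 1271250], [nat_lit 8, nat_lit 40, nat_lit 40, nat_lit 80, nat_lit 1, nat_lit 345, nat_lit 125, nat_lit 10]⟩, C1.Rw.none,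
 ⟨nat_lit 5000, nat_lit 5478, ⟨.ofNat (nat_lit 155307), .ofNat (nat_lit 425065), .ofNat (nat_lit 198021), .ofNat (nat_lit 467773), .ofNat (nat_lit 171427), .ofNat (nat_lit 428570), .ofNat (nat_lit 214284), .ofNat (nat_lit 471421)⟩, ⟨.ofNat (nat_lit 254209), .ofNat (nat_lit 516475), .ofNat (nat_lit 296923), .ofNat (nat_lit 559189), .ofNat (nat_lit 257141), .ofNat (nat_lit 507141), .ofNat (nat_lit 299999), .ofNat (nat_lit 549998)⟩⟩, [⟨nat_lit 4, nat_lit 100, nat_lit 94, nat_lit 75, nat_lit 480550869⟩]⟩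
noncomputable def p054_l65 : Lf2 := ⟨nat_lit 0, nat_lit 10, [nat_lit 0, nat_lit 5, nat_lit 5, nat_lit 20], true, nat_lit 160, nat_lit 300, nat_lit 0, nat_lit 360, ⟨nat_lit 0, nat_lit 1000, nat_lit 0, nat_lit 5, nat_lit 209, nat_lit 1000, nat_lit 162, nat_lit 0, nat_lit 0, nat_lit 0, nat_lit 0, nat_lit 0, nat_lit 0, nat_lit 0, nat_lit 0, nat_lit 5000000, false, false⟩,
 nat_lit 0, nat_lit 7118, nat_lit 0, nat_lit 0, nat_lit 4529, nat_lit 0, nat_lit 0, nat_lit 0, nat_lit 0, nat_lit 0, nat_lit 0, nat_lit 0, nat_lit 0, nat_lit 0, nat_lit 12, nat_lit 1000000, nat_lit 0, nat_lit 0, [(nat_lit 12, [(nat_lit 2, nat_lit 1000)])],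
 ⟨p054_k7, nat_lit 0, nat_lit 0, nat_lit 347, nat_lit 0, nat_lit 618820, [nat_lit 2479200001, nat_lit 2186400000, nat_lit 42000000], [], [nat_lit 19876233310, nat_lit 20617527574, nat_lit 21517532986, nat_lit 22272959374, nat_lit 27513644740, nat_lit 25393626634, nat_lit 24711844161, nat_lit 25288291590], nat_lit 1271250, nat_lit 1271250, nat_lit 1271250, nat_lit 1271250, nat_lit 1100001, nat_lit 2298750, [nat_lit 780000, nat_lit 1435000, nat_lit 1271250], [nat_lit 8, nat_lit 40, nat_lit 40, nat_lit 80, nat_lit 1, nat_lit 373, nat_lit 150, nat_lit 10]⟩, C1.Rw.none,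
 ⟨nat_lit 5000, nat_lit 5478, ⟨.ofNat (nat_lit 425065), .ofNat (nat_lit 574920), .ofNat (nat_lit 467773), .ofNat (nat_lit 617614), .ofNat (nat_lit 428570), .ofNat (nat_lit 571415), .ofNat (nat_lit 471421), .ofNat (nat_lit 614253)⟩, ⟨.ofNat (nat_lit 254209), .ofNat (nat_lit 516475), .ofNat (nat_lit 296923), .ofNat (nat_lit 559189), .ofNat (nat_lit 257141), .ofNat (nat_lit 507141), .ofNat (nat_lit 299999), .ofNat (nat_lit 549998)⟩⟩, [⟨nat_lit 4, nat_lit 100, nat_lit 94, nat_lit 75, nat_lit 275346357⟩]⟩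
noncomputable def p054_l66 : Lf2 := ⟨nat_lit 0, nat_lit 10, [nat_lit 0, nat_lit 5, nat_lit 5, nat_lit 20], true, nat_lit 160, nat_lit 280, nat_lit 0, nat_lit 360, ⟨nat_lit 0, nat_lit 1000, nat_lit 0, nat_lit 5, nat_lit 161, nat_lit 1000, nat_lit 154, nat_lit 0, nat_lit 0, nat_lit 0, nat_lit 0, nat_lit 0, nat_lit 0, nat_lit 0, nat_lit 0, nat_lit 5000000, false, false⟩,
 nat_lit 0, nat_lit 7211, nat_lit 0, nat_lit 0, nat_lit 4992, nat_lit 0, nat_lit 1037, nat_lit 0, nat_lit 0, nat_lit 0, nat_lit 0, nat_lit 0, nat_lit 0, nat_lit 0, nat_lit 0, nat_lit 400000, nat_lit 0, nat_lit 0, [(nat_lit 15, [(nat_lit 1, nat_lit 1000)])],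
 ⟨p054_k1, nat_lit 0, nat_lit 0, nat_lit 446, nat_lit 0, nat_lit 751076, [nat_lit 2020200000, nat_lit 2354866667, nat_lit 2328333333], [], [nat_lit 19033357767, nat_lit 17822062394, nat_lit 18615103712, nat_lit 19511574720, nat_lit 22390683445, nat_lit 24062846682, nat_lit 29660716538, nat_lit 27457142906], nat_lit 1271250, nat_lit 1271250, nat_lit 134400, nat_lit 1708500, nat_lit 1100001, nat_lit 2127500, [nat_lit 780000, nat_lit 1435000, nat_lit 1271250], [nat_lit 18, nat_lit 40, nat_lit 40, nat_lit 80, nat_lit 2, nat_lit 373, nat_lit 150, nat_lit 12]⟩, C1.Rw.none,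
 ⟨nat_lit 4472, nat_lit 5000, ⟨.ofNat (nat_lit 185713), .ofNat (nat_lit 571423), .ofNat (nat_lit 228562), .ofNat (nat_lit 614256), .ofNat (nat_lit 200895), .ofNat (nat_lit 567973), .ofNat (nat_lit 244020), .ofNat (nat_lit 611081)⟩, ⟨.ofNat (nat_lit 257141), .ofNat (nat_lit 471427), .ofNat (nat_lit 299999), .ofNat (nat_lit 514284), .ofNat (nat_lit 259489), .ofNat (nat_lit 463423), .ofNat (nat_lit 302621), .ofNat (nat_lit 506556)⟩⟩, [⟨nat_lit 16, nat_lit 85, nat_lit 100, nat_lit 73, nat_lit 516860017⟩, ⟨nat_lit 16, nat_lit 94, nat_lit 100, nat_lit 87, nat_lit 213117054⟩]⟩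
noncomputable def p054_l67 : Lf2 := ⟨nat_lit 0, nat_lit 10, [nat_lit 0, nat_lit 5, nat_lit 5, nat_lit 20], false, nat_lit 0, nat_lit 160, nat_lit 0, nat_lit 360, ⟨nat_lit 775, nat_lit 225, nat_lit 0, nat_lit 6, nat_lit 296, nat_lit 225, nat_lit 55, nat_lit 0, nat_lit 0, nat_lit 0, nat_lit 0, nat_lit 0, nat_lit 0, nat_lit 0, nat_lit 0, nat_lit 5000000, true, true⟩,
 nat_lit 0, nat_lit 9846, nat_lit 0, nat_lit 0, nat_lit 6265, nat_lit 7258, nat_lit 632, nat_lit 0, nat_lit 0, nat_lit 816, nat_lit 0, nat_lit 0, nat_lit 0, nat_lit 0, nat_lit 0, nat_lit 225000, nat_lit 0, nat_lit 0, [(nat_lit 12, [(nat_lit 2, nat_lit 225)])],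
 ⟨p054_k7, nat_lit 0, nat_lit 0, nat_lit 434, nat_lit 0, nat_lit 511877, [nat_lit 3068970001, nat_lit 5281690000, nat_lit 7561400000], [], [nat_lit 29532412140, nat_lit 29953396635, nat_lit 36258485954, nat_lit 36572763232, nat_lit 26387144541, nat_lit 26698276301, nat_lit 32246239203, nat_lit 32510047263], nat_lit 1271250, nat_lit 1271250, nat_lit 1271250, nat_lit 1271250, nat_lit 0, nat_lit 1100001, [nat_lit 780000, nat_lit 1435000, nat_lit 1271250], [nat_lit 8, nat_lit 40, nat_lit 40, nat_lit 80, nat_lit 1, nat_lit 373, nat_lit 150, nat_lit 10]⟩, ⟨p054_k4, nat_lit 0, nat_lit 0, nat_lit 269, nat_lit 0, nat_lit 0, [nat_lit 4843750000, nat_lit 7627550000, nat_lit 9200800000], [], [nat_lit 22475561232, nat_lit 23920041088, nat_lit 33167490377, nat_lit 33622974203, nat_lit 24116255078, nat_lit 24660069236, nat_lit 29870087663, nat_lit 29854686080], nat_lit 0, nat_lit 0, nat_lit 0, nat_lit 0, nat_lit 0, nat_lit 0, [],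 [nat_lit 46, nat_lit 40, nat_lit 40, nat_lit 80, nat_lit 41, nat_lit 483, nat_lit 250, nat_lit 12]⟩,
 ⟨nat_lit 5244, nat_lit 5478, ⟨.ofNat (nat_lit 574929), .ofNat (nat_lit 867153), .ofNat (nat_lit 617638), .ofNat (nat_lit 909863), .ofNat (nat_lit 573167), .ofNat (nat_lit 858520), .ofNat (nat_lit 615933), .ofNat (nat_lit 901287)⟩, ⟨.negSucc (nat_lit 45522), .ofNat (nat_lit 254209), .negSucc (nat_lit 2827), .ofNat (nat_lit 296923), .negSucc (nat_lit 36940), .ofNat (nat_lit 255744), .ofNat (nat_lit 0), .ofNat (nat_lit 298515)⟩⟩, [⟨nat_lit 19, nat_lit 100, nat_lit 77, nat_lit 72, nat_lit 134464849⟩, ⟨nat_lit 22, nat_lit 84, nat_lit 100, nat_lit 84, nat_lit 3083539⟩]⟩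
noncomputable def p054_l68 : Lf2 := ⟨nat_lit 0, nat_lit 10, [nat_lit 0, nat_lit 5, nat_lit 5, nat_lit 20], false, nat_lit 160, nat_lit 300, nat_lit 0, nat_lit 360, ⟨nat_lit 718, nat_lit 282, nat_lit 0, nat_lit 6, nat_lit 296, nat_lit 282, nat_lit 162, nat_lit 0, nat_lit 0, nat_lit 0, nat_lit 0, nat_lit 0, nat_lit 0, nat_lit 0, nat_lit 0, nat_lit 5000000, true, true⟩,
 nat_lit 0, nat_lit 8461, nat_lit 0, nat_lit 0, nat_lit 5384, nat_lit 6721, nat_lit 554, nat_lit 0, nat_lit 0, nat_lit 756, nat_lit 0, nat_lit 0, nat_lit 0, nat_lit 0, nat_lit 0, nat_lit 282000, nat_lit 0, nat_lit 0, [(nat_lit 12, [(nat_lit 2, nat_lit 282)])],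
 ⟨p054_k7, nat_lit 0, nat_lit 0, nat_lit 317, nat_lit 0, nat_lit 511877, [nat_lit 3015002400, nat_lit 5036384800, nat_lit 6983648000], [], [nat_lit 25688421042, nat_lit 26069657530, nat_lit 31635735309, nat_lit 31928946751, nat_lit 28606647226, nat_lit 28891099642, nat_lit 33791810441, nat_lit 34030295440], nat_lit 1271250, nat_lit 1271250, nat_lit 1271250, nat_lit 1271250, nat_lit 1100001, nat_lit 2298750, [nat_lit 780000, nat_lit 1435000, nat_lit 1271250], [nat_lit 8, nat_lit 40, nat_lit 40, nat_lit 80, nat_lit 1, nat_lit 401, nat_lit 175, nat_lit 11]⟩, ⟨p054_k4, nat_lit 0, nat_lit 0, nat_lit 269, nat_lit 0, nat_lit 0, [nat_lit 4487500000, nat_lit 7066556000, nat_lit 8524096000], [], [nat_lit 20821902720, nat_lit 22159890676, nat_lit 30724439375, nat_lit 31146544856, nat_lit 22344441626, nat_lit 22848329294, nat_lit 27673900831, nat_lit 27659909813], nat_lit 0, nat_lit 0, nat_lit 0, nat_lit 0, nat_lit 0, nat_lit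 0, [], [nat_lit 46, nat_lit 40, nat_lit 40, nat_lit 80, nat_lit 41, nat_lit 483, nat_lit 250, nat_lit 12]⟩,
 ⟨nat_lit 5244, nat_lit 5478, ⟨.ofNat (nat_lit 574929), .ofNat (nat_lit 867153), .ofNat (nat_lit 617638), .ofNat (nat_lit 909863), .ofNat (nat_lit 573167), .ofNat (nat_lit 858520), .ofNat (nat_lit 615933), .ofNat (nat_lit 901287)⟩, ⟨.ofNat (nat_lit 254209), .ofNat (nat_lit 516475), .ofNat (nat_lit 296923), .ofNat (nat_lit 559189), .ofNat (nat_lit 255744), .ofNat (nat_lit 511843), .ofNat (nat_lit 298515), .ofNat (nat_lit 554614)⟩⟩, [⟨nat_lit 4, nat_lit 100, nat_lit 97, nat_lit 76, nat_lit 347504477⟩, ⟨nat_lit 19, nat_lit 100, nat_lit 77, nat_lit 72, nat_lit 127327685⟩]⟩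
noncomputable def p054_l69 : Lf2 := ⟨nat_lit 0, nat_lit 10, [nat_lit 0, nat_lit 5, nat_lit 5, nat_lit 20], false, nat_lit 0, nat_lit 292, nat_lit 0, nat_lit 360, ⟨nat_lit 556, nat_lit 444, nat_lit 0, nat_lit 6, nat_lit 287, nat_lit 444, nat_lit 103, nat_lit 0, nat_lit 0, nat_lit 0, nat_lit 0, nat_lit 0, nat_lit 0, nat_lit 0, nat_lit 0, nat_lit 5000000, true, true⟩,
 nat_lit 0, nat_lit 7630, nat_lit 0, nat_lit 0, nat_lit 5066, nat_lit 5356, nat_lit 1068, nat_lit 0, nat_lit 0, nat_lit 426, nat_lit 0, nat_lit 0, nat_lit 0, nat_lit 0, nat_lit 0, nat_lit 444000, nat_lit 0, nat_lit 0, [(nat_lit 12, [(nat_lit 2, nat_lit 444)])],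
 ⟨p054_k9, nat_lit 0, nat_lit 0, nat_lit 369, nat_lit 0, nat_lit 467718, [nat_lit 2861620801, nat_lit 4339201600, nat_lit 4655937600], [], [nat_lit 26709264989, nat_lit 27121732777, nat_lit 32664371712, nat_lit 33237847991, nat_lit 27570238429, nat_lit 27835901649, nat_lit 31247629624, nat_lit 31425548376], nat_lit 1271250, nat_lit 1271250, nat_lit 1271250, nat_lit 1271250, nat_lit 0, nat_lit 2062250, [nat_lit 780000, nat_lit 1435000, nat_lit 1271250], [nat_lit 18, nat_lit 40, nat_lit 40, nat_lit 80, nat_lit 2, nat_lit 289, nat_lit 75, nat_lit 9]⟩, ⟨p054_k4, nat_lit 0, nat_lit 0, nat_lit 265, nat_lit 0, nat_lit 0, [nat_lit 3475000000, nat_lit 5472152000, nat_lit 6600832000], [], [nat_lit 16788025536, nat_lit 17312083496, nat_lit 24124948680, nat_lit 24305015020, nat_lit 17764300792, nat_lit 17900622532, nat_lit 21158603782, nat_lit 21120886863], nat_lit 0, nat_lit 0, nat_lit 0, nat_lit 0, nat_lit 0, nat_lit 0, [],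 [nat_lit 46, nat_lit 40, nat_lit 40, nat_lit 80, nat_lit 41, nat_lit 483, nat_lit 250, nat_lit 12]⟩,
 ⟨nat_lit 5000, nat_lit 5245, ⟨.ofNat (nat_lit 573168), .ofNat (nat_lit 843891), .ofNat (nat_lit 594550), .ofNat (nat_lit 865274), .ofNat (nat_lit 571425), .ofNat (nat_lit 835701), .ofNat (nat_lit 592851), .ofNat (nat_lit 857127)⟩, ⟨.negSucc (nat_lit 36940), .ofNat (nat_lit 497209), .ofNat (nat_lit 0), .ofNat (nat_lit 539979), .negSucc (nat_lit 28572), .ofNat (nat_lit 492856), .ofNat (nat_lit 0), .ofNat (nat_lit 535713)⟩⟩, [⟨nat_lit 4, nat_lit 100, nat_lit 92, nat_lit 75, nat_lit 139267250⟩, ⟨nat_lit 19, nat_lit 100, nat_lit 74, nat_lit 72, nat_lit 89261492⟩]⟩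
noncomputable def p054_l70 : Lf2 := ⟨nat_lit 0, nat_lit 10, [nat_lit 0, nat_lit 5, nat_lit 5, nat_lit 20], false, nat_lit 0, nat_lit 292, nat_lit 0, nat_lit 348, ⟨nat_lit 967, nat_lit 33, nat_lit 0, nat_lit 6, nat_lit 298, nat_lit 33, nat_lit 103, nat_lit 0, nat_lit 0, nat_lit 0, nat_lit 0, nat_lit 0, nat_lit 0, nat_lit 0, nat_lit 0, nat_lit 5000000, true, true⟩,
 nat_lit 0, nat_lit 9861, nat_lit 0, nat_lit 0, nat_lit 6548, nat_lit 8135, nat_lit 1800, nat_lit 0, nat_lit 0, nat_lit 1075, nat_lit 0, nat_lit 0, nat_lit 0, nat_lit 0, nat_lit 0, nat_lit 33000, nat_lit 0, nat_lit 0, [(nat_lit 12, [(nat_lit 2, nat_lit 33)])],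
 ⟨p054_k9, nat_lit 0, nat_lit 0, nat_lit 410, nat_lit 0, nat_lit 583162, [nat_lit 3250755600, nat_lit 6107981200, nat_lit 7721833200], [], [nat_lit 26385239620, nat_lit 26790481032, nat_lit 37310907844, nat_lit 37933655823, nat_lit 25781255548, nat_lit 26028127338, nat_lit 33143557595, nat_lit 33543585078], nat_lit 1271250, nat_lit 1271250, nat_lit 1271250, nat_lit 1271250, nat_lit 0, nat_lit 2062250, [nat_lit 780000, nat_lit 1435000, nat_lit 1271250], [nat_lit 18, nat_lit 40, nat_lit 40, nat_lit 80, nat_lit 2, nat_lit 289, nat_lit 75, nat_lit 9]⟩, ⟨p054_k10, nat_lit 0, nat_lit 0, nat_lit 266, nat_lit 0, nat_lit 0, [nat_lit 6043750000, nat_lit 9517214000, nat_lit 11480224000], [], [nat_lit 27665670579, nat_lit 28315283789, nat_lit 39051631937, nat_lit 39353798117, nat_lit 28447536158, nat_lit 28832432069, nat_lit 35273681596, nat_lit 35327242008], nat_lit 0, nat_lit 0, nat_lit 0, nat_lit 0, nat_lit 0, nat_lit 0, [],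 [nat_lit 46, nat_lit 40, nat_lit 40, nat_lit 80, nat_lit 41, nat_lit 483, nat_lit 250, nat_lit 12]⟩,
 ⟨nat_lit 5000, nat_lit 5245, ⟨.ofNat (nat_lit 594550), .ofNat (nat_lit 879907), .ofNat (nat_lit 615934), .ofNat (nat_lit 901290), .ofNat (nat_lit 592851), .ofNat (nat_lit 871412), .ofNat (nat_lit 614277), .ofNat (nat_lit 892838)⟩, ⟨.negSucc (nat_lit 36940), .ofNat (nat_lit 497209), .ofNat (nat_lit 0), .ofNat (nat_lit 539979), .negSucc (nat_lit 28572), .ofNat (nat_lit 492856), .ofNat (nat_lit 0), .ofNat (nat_lit 535713)⟩⟩, [⟨nat_lit 16, nat_lit 92, nat_lit 100, nat_lit 75, nat_lit 144543179⟩, ⟨nat_lit 19, nat_lit 100, nat_lit 81, nat_lit 72, nat_lit 177922443⟩]⟩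
noncomputable def p054_l71 : Lf2 := ⟨nat_lit 0, nat_lit 10, [nat_lit 0, nat_lit 5, nat_lit 5, nat_lit 20], false, nat_lit 0, nat_lit 280, nat_lit 0, nat_lit 360, ⟨nat_lit 677, nat_lit 323, nat_lit 0, nat_lit 6, nat_lit 291, nat_lit 323, nat_lit 98, nat_lit 0, nat_lit 0, nat_lit 0, nat_lit 0, nat_lit 0, nat_lit 0, nat_lit 0, nat_lit 0, nat_lit 5000000, true, true⟩,
 nat_lit 0, nat_lit 7105, nat_lit 0, nat_lit 0, nat_lit 4918, nat_lit 6392, nat_lit 1083, nat_lit 0, nat_lit 0, nat_lit 651, nat_lit 0, nat_lit 0, nat_lit 0, nat_lit 0, nat_lit 0, nat_lit 303800, nat_lit 0, nat_lit 0, [(nat_lit 15, [(nat_lit 1, nat_lit 32), (nat_lit 2, nat_lit 291)])],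
 ⟨p054_k1, nat_lit 0, nat_lit 0, nat_lit 415, nat_lit 0, nat_lit 599537, [nat_lit 2901618001, nat_lit 4611573734, nat_lit 5265562800], [], [nat_lit 26364853891, nat_lit 26546676612, nat_lit 33224564209, nat_lit 33502663669, nat_lit 26795825025, nat_lit 26917031852, nat_lit 31188207332, nat_lit 31307778131], nat_lit 1271250, nat_lit 1271250, nat_lit 1271250, nat_lit 1271250, nat_lit 0, nat_lit 1977500, [nat_lit 780000, nat_lit 1435000, nat_lit 1271250], [nat_lit 18, nat_lit 40, nat_lit 40, nat_lit 80, nat_lit 2, nat_lit 289, nat_lit 75, nat_lit 9]⟩, ⟨p054_k4, nat_lit 0, nat_lit 0, nat_lit 267, nat_lit 0, nat_lit 0, [nat_lit 4231250000, nat_lit 6663034000, nat_lit 8037344000], [], [nat_lit 19889778672, nat_lit 21155709992, nat_lit 28993677000, nat_lit 29412950208, nat_lit 21164960714, nat_lit 21509767432, nat_lit 25916186491, nat_lit 25914087759], nat_lit 0, nat_lit 0, nat_lit 0, nat_lit 0, nat_lit 0, nat_lit 0, [],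 [nat_lit 46, nat_lit 40, nat_lit 40, nat_lit 80, nat_lit 41, nat_lit 483, nat_lit 250, nat_lit 12]⟩,
 ⟨nat_lit 4873, nat_lit 5000, ⟨.ofNat (nat_lit 571427), .ofNat (nat_lit 842854), .ofNat (nat_lit 614283), .ofNat (nat_lit 885710), .ofNat (nat_lit 570561), .ofNat (nat_lit 838698), .ofNat (nat_lit 613472), .ofNat (nat_lit 881610)⟩, ⟨.negSucc (nat_lit 28572), .ofNat (nat_lit 471427), .ofNat (nat_lit 0), .ofNat (nat_lit 514284), .negSucc (nat_lit 24464), .ofNat (nat_lit 469475), .ofNat (nat_lit 0), .ofNat (nat_lit 512387)⟩⟩, [⟨nat_lit 4, nat_lit 100, nat_lit 89, nat_lit 74, nat_lit 153564491⟩, ⟨nat_lit 19, nat_lit 100, nat_lit 77, nat_lit 72, nat_lit 116132018⟩]⟩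
noncomputable def p054_l72 : Lf2 := ⟨nat_lit 0, nat_lit 10, [nat_lit 0, nat_lit 5, nat_lit 5, nat_lit 20], false, nat_lit 0, nat_lit 276, nat_lit 0, nat_lit 360, ⟨nat_lit 722, nat_lit 278, nat_lit 0, nat_lit 6, nat_lit 289, nat_lit 278, nat_lit 97, nat_lit 0, nat_lit 0, nat_lit 0, nat_lit 0, nat_lit 0, nat_lit 0, nat_lit 0, nat_lit 0, nat_lit 5000000, true, true⟩,
 nat_lit 0, nat_lit 7028, nat_lit 0, nat_lit 0, nat_lit 4965, nat_lit 6867, nat_lit 1218, nat_lit 0, nat_lit 0, nat_lit 697, nat_lit 0, nat_lit 0, nat_lit 0, nat_lit 0, nat_lit 0, nat_lit 111200, nat_lit 0, nat_lit 0, [(nat_lit 15, [(nat_lit 1, nat_lit 278)])],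
 ⟨p054_k5, nat_lit 0, nat_lit 0, nat_lit 425, nat_lit 0, nat_lit 631414, [nat_lit 2931219600, nat_lit 5167152934, nat_lit 6396744000], [], [nat_lit 25447163933, nat_lit 25654314298, nat_lit 33261926479, nat_lit 33546135963, nat_lit 26331749947, nat_lit 26489458530, nat_lit 31051899012, nat_lit 31174309167], nat_lit 1271250, nat_lit 1271250, nat_lit 1271250, nat_lit 1271250, nat_lit 0, nat_lit 1949250, [nat_lit 780000, nat_lit 1435000, nat_lit 1271250], [nat_lit 18, nat_lit 40, nat_lit 40, nat_lit 80, nat_lit 2, nat_lit 289, nat_lit 75, nat_lit 9]⟩, ⟨p054_k4, nat_lit 0, nat_lit 0, nat_lit 265, nat_lit 0, nat_lit 0, [nat_lit 4512500000, nat_lit 7105924000, nat_lit 8571584000], [], [nat_lit 21209670912, nat_lit 22563724892, nat_lit 30659075147, nat_lit 31129537697, nat_lit 22536181004, nat_lit 22908545162, nat_lit 27449949308, nat_lit 27455422617], nat_lit 0, nat_lit 0, nat_lit 0, nat_lit 0, nat_lit 0, nat_lit 0, [],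 [nat_lit 46, nat_lit 40, nat_lit 40, nat_lit 80, nat_lit 41, nat_lit 483, nat_lit 250, nat_lit 12]⟩,
 ⟨nat_lit 4743, nat_lit 4874, ⟨.ofNat (nat_lit 570561), .ofNat (nat_lit 831642), .ofNat (nat_lit 613472), .ofNat (nat_lit 874554), .ofNat (nat_lit 569698), .ofNat (nat_lit 827586), .ofNat (nat_lit 612673), .ofNat (nat_lit 870561)⟩, ⟨.negSucc (nat_lit 24464), .ofNat (nat_lit 462418), .ofNat (nat_lit 0), .ofNat (nat_lit 505331), .negSucc (nat_lit 20404), .ofNat (nat_lit 460523), .ofNat (nat_lit 0), .ofNat (nat_lit 503499)⟩⟩, [⟨nat_lit 4, nat_lit 100, nat_lit 87, nat_lit 73, nat_lit 160152004⟩, ⟨nat_lit 19, nat_lit 100, nat_lit 77, nat_lit 72, nat_lit 124845490⟩]⟩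
noncomputable def p054_l73 : Lf2 := ⟨nat_lit 0, nat_lit 10, [nat_lit 0, nat_lit 5, nat_lit 5, nat_lit 20], false, nat_lit 0, nat_lit 268, nat_lit 0, nat_lit 360, ⟨nat_lit 1000, nat_lit 0, nat_lit 0, nat_lit 0, nat_lit 0, nat_lit 0, nat_lit 0, nat_lit 0, nat_lit 0, nat_lit 0, nat_lit 0, nat_lit 0, nat_lit 0, nat_lit 0, nat_lit 0, nat_lit 0, false, false⟩,
 nat_lit 0, nat_lit 8202, nat_lit 0, nat_lit 0, nat_lit 5913, nat_lit 9946, nat_lit 1182, nat_lit 0, nat_lit 0, nat_lit 1094, nat_lit 0, nat_lit 0, nat_lit 0, nat_lit 0, nat_lit 0, nat_lit 0, nat_lit 0, nat_lit 0, [],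
 ⟨p054_k2, nat_lit 0, nat_lit 0, nat_lit 435, nat_lit 0, nat_lit 662135, [nat_lit 3282000000, nat_lit 6250000000, nat_lit 7968000000], [], [nat_lit 25306293301, nat_lit 25531284672, nat_lit 36035230169, nat_lit 36343173969, nat_lit 25388056275, nat_lit 25538854235, nat_lit 31892744798, nat_lit 32106947888], nat_lit 1271250, nat_lit 1271250, nat_lit 1271250, nat_lit 1271250, nat_lit 0, nat_lit 1892750, [nat_lit 780000, nat_lit 1435000, nat_lit 1271250], [nat_lit 18, nat_lit 40, nat_lit 40, nat_lit 80, nat_lit 2, nat_lit 289, nat_lit 75, nat_lit 9]⟩, ⟨p054_k4, nat_lit 0, nat_lit 0, nat_lit 265, nat_lit 0, nat_lit 0, [nat_lit 6250000000, nat_lit 9842000000, nat_lit 11872000000], [], [nat_lit 28937579584, nat_lit 30847503656, nat_lit 42410677977, nat_lit 43048449596, nat_lit 30771665036, nat_lit 31460568332, nat_lit 38191511397, nat_lit 38549347937], nat_lit 0, nat_lit 0, nat_lit 0, nat_lit 0, nat_lit 0, nat_lit 0, [],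 [nat_lit 46, nat_lit 40, nat_lit 40, nat_lit 80, nat_lit 41, nat_lit 483, nat_lit 250, nat_lit 12]⟩,
 zbF0, [⟨nat_lit 4, nat_lit 100, nat_lit 84, nat_lit 73, nat_lit 152944107⟩, ⟨nat_lit 7, nat_lit 77, nat_lit 100, nat_lit 72, nat_lit 184392340⟩]⟩
noncomputable def p054_l74 : Lf2 := ⟨nat_lit 0, nat_lit 10, [nat_lit 0, nat_lit 5, nat_lit 5, nat_lit 20], false, nat_lit 0, nat_lit 264, nat_lit 0, nat_lit 360, ⟨nat_lit 929, nat_lit 71, nat_lit 0, nat_lit 6, nat_lit 285, nat_lit 71, nat_lit 92, nat_lit 0, nat_lit 0, nat_lit 0, nat_lit 0, nat_lit 0, nat_lit 0, nat_lit 0, nat_lit 0, nat_lit 5000000, true, true⟩,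
 nat_lit 0, nat_lit 7386, nat_lit 0, nat_lit 0, nat_lit 5431, nat_lit 10181, nat_lit 978, nat_lit 0, nat_lit 0, nat_lit 1058, nat_lit 0, nat_lit 0, nat_lit 0, nat_lit 0, nat_lit 0, nat_lit 28400, nat_lit 0, nat_lit 0, [(nat_lit 15, [(nat_lit 1, nat_lit 71)])],
 ⟨p054_k6, nat_lit 0, nat_lit 0, nat_lit 445, nat_lit 0, nat_lit 691668, [nat_lit 3192412201, nat_lit 5973445534, nat_lit 7566708000], [], [nat_lit 26824911960, nat_lit 27041719693, nat_lit 34691175065, nat_lit 34992394062, nat_lit 27119354248, nat_lit 27267807879, nat_lit 31308802996, nat_lit 31424005506], nat_lit 1271250, nat_lit 1271250, nat_lit 1271250, nat_lit 1271250, nat_lit 0, nat_lit 1864500, [nat_lit 780000, nat_lit 1435000, nat_lit 1271250], [nat_lit 18, nat_lit 40, nat_lit 40, nat_lit 80, nat_lit 2, nat_lit 289, nat_lit 75, nat_lit 9]⟩, ⟨p054_k4, nat_lit 0, nat_lit 0, nat_lit 263, nat_lit 0, nat_lit 0, [nat_lit 5806250000, nat_lit 9143218000, nat_lit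 11029088000], [], [nat_lit 26880364432, nat_lit 28729348476, nat_lit 39796024329, nat_lit 40396142281, nat_lit 28026098116, nat_lit 28645361038, nat_lit 36293849650, nat_lit 36605365527], nat_lit 0, nat_lit 0, nat_lit 0, nat_lit 0, nat_lit 0, nat_lit 0, [], [nat_lit 46, nat_lit 40, nat_lit 40, nat_lit 80, nat_lit 41, nat_lit 483, nat_lit 250, nat_lit 12]⟩,
 ⟨nat_lit 4472, nat_lit 4610, ⟨.ofNat (nat_lit 568837), .ofNat (nat_lit 816655), .ofNat (nat_lit 611885), .ofNat (nat_lit 859704), .ofNat (nat_lit 567977), .ofNat (nat_lit 812698), .ofNat (nat_lit 611108), .ofNat (nat_lit 855829)⟩, ⟨.negSucc (nat_lit 16391), .ofNat (nat_lit 437942), .ofNat (nat_lit 0), .ofNat (nat_lit 480991), .negSucc (nat_lit 12423), .ofNat (nat_lit 436232), .ofNat (nat_lit 0), .ofNat (nat_lit 479365)⟩⟩, [⟨nat_lit 4, nat_lit 100, nat_lit 82, nat_lit 72, nat_lit 163896418⟩, ⟨nat_lit 7, nat_lit 77, nat_lit 100, nat_lit 72, nat_lit 178781219⟩]⟩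
noncomputable def p054_l75 : Lf2 := ⟨nat_lit 0, nat_lit 10, [nat_lit 0, nat_lit 5, nat_lit 5, nat_lit 20], false, nat_lit 0, nat_lit 300, nat_lit 0, nat_lit 360, ⟨nat_lit 0, nat_lit 1000, nat_lit 0, nat_lit 5, nat_lit 114, nat_lit 1000, nat_lit 106, nat_lit 0, nat_lit 0, nat_lit 0, nat_lit 0, nat_lit 0, nat_lit 0, nat_lit 0, nat_lit 0, nat_lit 5000000, false, false⟩,
 nat_lit 0, nat_lit 8839, nat_lit 0, nat_lit 0, nat_lit 5624, nat_lit 0, nat_lit 0, nat_lit 0, nat_lit 0, nat_lit 0, nat_lit 0, nat_lit 0, nat_lit 0, nat_lit 0, nat_lit 12, nat_lit 1000000, nat_lit 0, nat_lit 0, [(nat_lit 12, [(nat_lit 2, nat_lit 1000)]), (nat_lit 15, [(nat_lit 2, nat_lit 1000)])],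
 ⟨p054_k7, nat_lit 0, nat_lit 0, nat_lit 514, nat_lit 0, nat_lit 501257, [nat_lit 2479200001, nat_lit 2186400000, nat_lit 42000000], [], [nat_lit 32807990153, nat_lit 26896558761, nat_lit 18774395745, nat_lit 21374092128, nat_lit 24153482911, nat_lit 27014747823, nat_lit 29344351067, nat_lit 24410623955], nat_lit 1271250, nat_lit 1271250, nat_lit 88400, nat_lit 780000, nat_lit 0, nat_lit 2118750, [nat_lit 780000, nat_lit 1435000, nat_lit 1271250], [nat_lit 8, nat_lit 40, nat_lit 40, nat_lit 80, nat_lit 1, nat_lit 345, nat_lit 125, nat_lit 10]⟩, ⟨p054_k4, nat_lit 0, nat_lit 0, nat_lit 774, nat_lit 0, nat_lit 825717, [nat_lit 0, nat_lit 0, nat_lit 0], [], [nat_lit 0, nat_lit 0, nat_lit 0, nat_lit 0, nat_lit 0, nat_lit 0, nat_lit 0, nat_lit 0], nat_lit 1271250, nat_lit 1271250, nat_lit 88400, nat_lit 780000, nat_lit 0, nat_lit 2542500, [nat_lit 1412500, nat_lit 1271250, nat_lit 1271250], [nat_lit 46, nat_lit 40, nat_lit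 40, nat_lit 80, nat_lit 41, nat_lit 428, nat_lit 200, nat_lit 12]⟩,
 ⟨nat_lit 4472, nat_lit 5478, ⟨.ofNat (nat_lit 155307), .ofNat (nat_lit 350132), .ofNat (nat_lit 198021), .ofNat (nat_lit 392815), .ofNat (nat_lit 187299), .ofNat (nat_lit 364042), .ofNat (nat_lit 230432), .ofNat (nat_lit 407143)⟩, ⟨.negSucc (nat_lit 45522), .ofNat (nat_lit 516475), .negSucc (nat_lit 2834), .ofNat (nat_lit 559189), .negSucc (nat_lit 12423), .ofNat (nat_lit 497412), .ofNat (nat_lit 0), .ofNat (nat_lit 540545)⟩⟩, [⟨nat_lit 4, nat_lit 100, nat_lit 90, nat_lit 74, nat_lit 11024813⟩]⟩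
noncomputable def p054_l76 : Lf2 := ⟨nat_lit 0, nat_lit 10, [nat_lit 0, nat_lit 5, nat_lit 5, nat_lit 20], false, nat_lit 0, nat_lit 160, nat_lit 0, nat_lit 360, ⟨nat_lit 0, nat_lit 1000, nat_lit 0, nat_lit 5, nat_lit 194, nat_lit 1000, nat_lit 56, nat_lit 0, nat_lit 0, nat_lit 0, nat_lit 0, nat_lit 0, nat_lit 0, nat_lit 0, nat_lit 0, nat_lit 5000000, false, false⟩,
 nat_lit 0, nat_lit 8335, nat_lit 0, nat_lit 0, nat_lit 5303, nat_lit 0, nat_lit 0, nat_lit 0, nat_lit 0, nat_lit 0, nat_lit 0, nat_lit 0, nat_lit 0, nat_lit 0, nat_lit 12, nat_lit 1000000, nat_lit 0, nat_lit 0, [(nat_lit 12, [(nat_lit 2, nat_lit 1000)]), (nat_lit 15, [(nat_lit 2, nat_lit 1000)])],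
 ⟨p054_k7, nat_lit 0, nat_lit 0, nat_lit 450, nat_lit 0, nat_lit 501257, [nat_lit 2479200001, nat_lit 2186400000, nat_lit 42000000], [], [nat_lit 32362535521, nat_lit 26754740293, nat_lit 22025027169, nat_lit 23811678384, nat_lit 19989851545, nat_lit 19035128673, nat_lit 30161673453, nat_lit 25420791453], nat_lit 1271250, nat_lit 1271250, nat_lit 780000, nat_lit 1762500, nat_lit 0, nat_lit 1100001, [nat_lit 780000, nat_lit 1435000, nat_lit 1271250], [nat_lit 8, nat_lit 40, nat_lit 40, nat_lit 80, nat_lit 1, nat_lit 317, nat_lit 100, nat_lit 9]⟩, ⟨p054_k4, nat_lit 0, nat_lit 0, nat_lit 699, nat_lit 0, nat_lit 825717, [nat_lit 0, nat_lit 0, nat_lit 0], [], [nat_lit 0, nat_lit 0, nat_lit 0, nat_lit 0, nat_lit 0, nat_lit 0, nat_lit 0, nat_lit 0], nat_lit 1271250, nat_lit 1271250, nat_lit 780000, nat_lit 1762500, nat_lit 0, nat_lit 2542500, [nat_lit 1412500, nat_lit 1271250, nat_lit 1271250], [nat_lit 46, nat_lit 40, nat_lit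 40, nat_lit 80, nat_lit 41, nat_lit 456, nat_lit 225, nat_lit 12]⟩,
 ⟨nat_lit 4472, nat_lit 5478, ⟨.ofNat (nat_lit 350132), .ofNat (nat_lit 574895), .ofNat (nat_lit 392815), .ofNat (nat_lit 617523), .ofNat (nat_lit 364042), .ofNat (nat_lit 567940), .ofNat (nat_lit 407143), .ofNat (nat_lit 610987)⟩, ⟨.negSucc (nat_lit 45522), .ofNat (nat_lit 254209), .negSucc (nat_lit 2834), .ofNat (nat_lit 296923), .negSucc (nat_lit 12423), .ofNat (nat_lit 259489), .ofNat (nat_lit 0), .ofNat (nat_lit 302621)⟩⟩, []⟩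
noncomputable def p054_l77 : Lf2 := ⟨nat_lit 0, nat_lit 10, [nat_lit 0, nat_lit 5, nat_lit 5, nat_lit 20], false, nat_lit 160, nat_lit 300, nat_lit 0, nat_lit 360, ⟨nat_lit 0, nat_lit 1000, nat_lit 0, nat_lit 5, nat_lit 194, nat_lit 1000, nat_lit 161, nat_lit 0, nat_lit 0, nat_lit 0, nat_lit 0, nat_lit 0, nat_lit 0, nat_lit 0, nat_lit 0, nat_lit 5000000, false, false⟩,
 nat_lit 0, nat_lit 7497, nat_lit 0, nat_lit 0, nat_lit 4770, nat_lit 0, nat_lit 32, nat_lit 0, nat_lit 0, nat_lit 0, nat_lit 0, nat_lit 0, nat_lit 0, nat_lit 0, nat_lit 0, nat_lit 843400, nat_lit 0, nat_lit 0, [(nat_lit 12, [(nat_lit 1, nat_lit 261), (nat_lit 2, nat_lit 739)]), (nat_lit 15, [(nat_lit 1, nat_lit 261), (nat_lit 2, nat_lit 739)])],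
 ⟨p054_k7, nat_lit 0, nat_lit 0, nat_lit 318, nat_lit 0, nat_lit 501257, [nat_lit 2265565201, nat_lit 2148622800, nat_lit 470834400], [], [nat_lit 21787476562, nat_lit 20376311641, nat_lit 22605762723, nat_lit 22050734721, nat_lit 22308285451, nat_lit 23720042580, nat_lit 23742852941, nat_lit 25044516921], nat_lit 1271250, nat_lit 1271250, nat_lit 780000, nat_lit 1762500, nat_lit 1271250, nat_lit 1271250, [nat_lit 780000, nat_lit 1435000, nat_lit 1271250], [nat_lit 8, nat_lit 40, nat_lit 40, nat_lit 80, nat_lit 1, nat_lit 373, nat_lit 150, nat_lit 10]⟩, ⟨p054_k4, nat_lit 0, nat_lit 0, nat_lit 699, nat_lit 0, nat_lit 825717, [nat_lit 0, nat_lit 0, nat_lit 0], [], [nat_lit 0, nat_lit 0, nat_lit 0, nat_lit 0, nat_lit 0, nat_lit 0, nat_lit 0, nat_lit 0], nat_lit 1271250, nat_lit 1271250, nat_lit 780000, nat_lit 1762500, nat_lit 0, nat_lit 2542500, [nat_lit 1412500, nat_lit 1271250, nat_lit 1271250], [nat_lit 46, nat_lit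 40, nat_lit 40, nat_lit 80, nat_lit 41, nat_lit 456, nat_lit 225, nat_lit 12]⟩,
 ⟨nat_lit 4472, nat_lit 5478, ⟨.ofNat (nat_lit 350132), .ofNat (nat_lit 574895), .ofNat (nat_lit 392815), .ofNat (nat_lit 617523), .ofNat (nat_lit 364042), .ofNat (nat_lit 567940), .ofNat (nat_lit 407143), .ofNat (nat_lit 610987)⟩, ⟨.ofNat (nat_lit 254209), .ofNat (nat_lit 516475), .ofNat (nat_lit 296923), .ofNat (nat_lit 559189), .ofNat (nat_lit 259489), .ofNat (nat_lit 497412), .ofNat (nat_lit 302621), .ofNat (nat_lit 540545)⟩⟩, [⟨nat_lit 16, nat_lit 90, nat_lit 100, nat_lit 74, nat_lit 280186867⟩]⟩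
noncomputable def p054_l78 : Lf2 := ⟨nat_lit 0, nat_lit 10, [nat_lit 0, nat_lit 5, nat_lit 5, nat_lit 20], false, nat_lit 0, nat_lit 300, nat_lit 0, nat_lit 360, ⟨nat_lit 348, nat_lit 652, nat_lit 0, nat_lit 6, nat_lit 296, nat_lit 652, nat_lit 107, nat_lit 0, nat_lit 0, nat_lit 0, nat_lit 0, nat_lit 0, nat_lit 0, nat_lit 0, nat_lit 0, nat_lit 5000000, true, true⟩,
 nat_lit 7710, nat_lit 0, nat_lit 0, nat_lit 0, nat_lit 4906, nat_lit 3304, nat_lit 191, nat_lit 0, nat_lit 0, nat_lit 318, nat_lit 0, nat_lit 0, nat_lit 0, nat_lit 0, nat_lit 0, nat_lit 652000, nat_lit 0, nat_lit 0, [(nat_lit 12, [(nat_lit 2, nat_lit 652)])],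
 ⟨p054_k7, nat_lit 0, nat_lit 0, nat_lit 340, nat_lit 0, nat_lit 304008, [nat_lit 2664686401, nat_lit 3444052801, nat_lit 3233328000], [], [nat_lit 26065204334, nat_lit 26456466238, nat_lit 32470267506, nat_lit 33014733068, nat_lit 27067722006, nat_lit 27318360633, nat_lit 31450517900, nat_lit 31644362066], nat_lit 1271250, nat_lit 1271250, nat_lit 1271250, nat_lit 1271250, nat_lit 0, nat_lit 2118750, [nat_lit 780000, nat_lit 1435000, nat_lit 1271250], [nat_lit 8, nat_lit 40, nat_lit 40, nat_lit 80, nat_lit 1, nat_lit 401, nat_lit 175, nat_lit 11]⟩, ⟨p054_k4, nat_lit 0, nat_lit 0, nat_lit 502, nat_lit 0, nat_lit 500791, [nat_lit 2175000000, nat_lit 3425016000, nat_lit 4131456000], [], [nat_lit 14100666448, nat_lit 14287879248, nat_lit 16208545917, nat_lit 16184571020, nat_lit 13089754128, nat_lit 12747043880, nat_lit 13631449478, nat_lit 13462307114], nat_lit 1271250, nat_lit 1271250, nat_lit 1271250, nat_lit 1271250,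 nat_lit 0, nat_lit 2542500, [nat_lit 1412500, nat_lit 1271250, nat_lit 1271250], [nat_lit 46, nat_lit 40, nat_lit 40, nat_lit 80, nat_lit 41, nat_lit 483, nat_lit 250, nat_lit 12]⟩,
 ⟨nat_lit 5244, nat_lit 5478, ⟨.ofNat (nat_lit 574929), .ofNat (nat_lit 867153), .ofNat (nat_lit 617638), .ofNat (nat_lit 909863), .ofNat (nat_lit 573167), .ofNat (nat_lit 858520), .ofNat (nat_lit 615933), .ofNat (nat_lit 901287)⟩, ⟨.negSucc (nat_lit 45522), .ofNat (nat_lit 516475), .negSucc (nat_lit 2827), .ofNat (nat_lit 559189), .negSucc (nat_lit 36940), .ofNat (nat_lit 511843), .ofNat (nat_lit 0), .ofNat (nat_lit 554614)⟩⟩, [⟨nat_lit 13, nat_lit 94, nat_lit 21, nat_lit 100, nat_lit 47058321⟩, ⟨nat_lit 4, nat_lit 100, nat_lit 97, nat_lit 76, nat_lit 110692179⟩, ⟨nat_lit 19, nat_lit 100, nat_lit 77, nat_lit 72, nat_lit 41805669⟩]⟩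
noncomputable def p054_l79 : Lf2 := ⟨nat_lit 0, nat_lit 10, [nat_lit 0, nat_lit 5, nat_lit 5, nat_lit 20], false, nat_lit 0, nat_lit 292, nat_lit 0, nat_lit 360, ⟨nat_lit 315, nat_lit 685, nat_lit 0, nat_lit 6, nat_lit 294, nat_lit 685, nat_lit 103, nat_lit 0, nat_lit 0, nat_lit 0, nat_lit 0, nat_lit 0, nat_lit 0, nat_lit 0, nat_lit 0, nat_lit 5000000, true, true⟩,
 nat_lit 6977, nat_lit 0, nat_lit 0, nat_lit 0, nat_lit 4633, nat_lit 2990, nat_lit 520, nat_lit 0, nat_lit 0, nat_lit 217, nat_lit 0, nat_lit 0, nat_lit 0, nat_lit 0, nat_lit 0, nat_lit 685000, nat_lit 0, nat_lit 0, [(nat_lit 12, [(nat_lit 2, nat_lit 685)])],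
 ⟨p054_k9, nat_lit 0, nat_lit 0, nat_lit 318, nat_lit 0, nat_lit 348897, [nat_lit 2633442001, nat_lit 3302034000, nat_lit 2858174000], [], [nat_lit 26168270495, nat_lit 26567047689, nat_lit 32300448224, nat_lit 32833419471, nat_lit 27408826565, nat_lit 27669954305, nat_lit 31270904641, nat_lit 31445372639], nat_lit 1271250, nat_lit 1271250, nat_lit 1271250, nat_lit 1271250, nat_lit 0, nat_lit 2062250, [nat_lit 780000, nat_lit 1435000, nat_lit 1271250], [nat_lit 18, nat_lit 40, nat_lit 40, nat_lit 80, nat_lit 2, nat_lit 289, nat_lit 75, nat_lit 9]⟩, ⟨p054_k4, nat_lit 0, nat_lit 0, nat_lit 543, nat_lit 0, nat_lit 605417, [nat_lit 1968750000, nat_lit 3100230000, nat_lit 3739680000], [], [nat_lit 13262951960, nat_lit 13331897200, nat_lit 14709050572, nat_lit 14652252574, nat_lit 11848818900, nat_lit 11540450650, nat_lit 12340969463, nat_lit 12184839704], nat_lit 1271250, nat_lit 1271250, nat_lit 1271250, nat_lit 1271250,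 nat_lit 0, nat_lit 2542500, [nat_lit 1412500, nat_lit 1271250, nat_lit 1271250], [nat_lit 46, nat_lit 40, nat_lit 40, nat_lit 80, nat_lit 41, nat_lit 483, nat_lit 250, nat_lit 12]⟩,
 ⟨nat_lit 5000, nat_lit 5245, ⟨.ofNat (nat_lit 573168), .ofNat (nat_lit 858525), .ofNat (nat_lit 615934), .ofNat (nat_lit 901290), .ofNat (nat_lit 571425), .ofNat (nat_lit 849986), .ofNat (nat_lit 614277), .ofNat (nat_lit 892838)⟩, ⟨.negSucc (nat_lit 36940), .ofNat (nat_lit 497209), .ofNat (nat_lit 0), .ofNat (nat_lit 539979), .negSucc (nat_lit 28572), .ofNat (nat_lit 492856), .ofNat (nat_lit 0), .ofNat (nat_lit 535713)⟩⟩, [⟨nat_lit 13, nat_lit 91, nat_lit 27, nat_lit 100, nat_lit 53015686⟩, ⟨nat_lit 4, nat_lit 100, nat_lit 92, nat_lit 75, nat_lit 109515506⟩, ⟨nat_lit 7, nat_lit 77, nat_lit 100, nat_lit 72, nat_lit 37776501⟩]⟩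
noncomputable def p054_l80 : Lf2 := ⟨nat_lit 0, nat_lit 10, [nat_lit 0, nat_lit 5, nat_lit 5, nat_lit 20], false, nat_lit 0, nat_lit 280, nat_lit 0, nat_lit 360, ⟨nat_lit 271, nat_lit 729, nat_lit 0, nat_lit 6, nat_lit 290, nat_lit 729, nat_lit 98, nat_lit 0, nat_lit 0, nat_lit 0, nat_lit 0, nat_lit 0, nat_lit 0, nat_lit 0, nat_lit 0, nat_lit 5000000, true, true⟩,
 nat_lit 6036, nat_lit 0, nat_lit 0, nat_lit 0, nat_lit 4178, nat_lit 2586, nat_lit 728, nat_lit 0, nat_lit 0, nat_lit 190, nat_lit 0, nat_lit 0, nat_lit 0, nat_lit 0, nat_lit 0, nat_lit 291600, nat_lit 0, nat_lit 0, [(nat_lit 15, [(nat_lit 1, nat_lit 729)])],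
 ⟨p054_k1, nat_lit 0, nat_lit 0, nat_lit 331, nat_lit 0, nat_lit 391189, [nat_lit 2362147800, nat_lit 3410447801, nat_lit 3847692000], [], [nat_lit 25232962011, nat_lit 25617353015, nat_lit 31286184825, nat_lit 31806511060, nat_lit 26463125169, nat_lit 26726179076, nat_lit 30446847301, nat_lit 30704021041], nat_lit 1271250, nat_lit 1271250, nat_lit 1271250, nat_lit 1271250, nat_lit 0, nat_lit 1977500, [nat_lit 780000, nat_lit 1435000, nat_lit 1271250], [nat_lit 18, nat_lit 40, nat_lit 40, nat_lit 80, nat_lit 2, nat_lit 289, nat_lit 75, nat_lit 9]⟩, ⟨p054_k4, nat_lit 0, nat_lit 0, nat_lit 590, nat_lit 0, nat_lit 713819, [nat_lit 1693750000, nat_lit 2667182000, nat_lit 3217312000], [], [nat_lit 11358241704, nat_lit 11416734720, nat_lit 12568620782, nat_lit 12529652939, nat_lit 10187123620, nat_lit 9885337210, nat_lit 10547834801, nat_lit 10412820856], nat_lit 1271250, nat_lit 1271250, nat_lit 1271250, nat_lit 1271250,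 nat_lit 0, nat_lit 2542500, [nat_lit 1412500, nat_lit 1271250, nat_lit 1271250], [nat_lit 46, nat_lit 40, nat_lit 40, nat_lit 80, nat_lit 41, nat_lit 483, nat_lit 250, nat_lit 12]⟩,
 ⟨nat_lit 4743, nat_lit 5000, ⟨.ofNat (nat_lit 571426), .ofNat (nat_lit 842848), .ofNat (nat_lit 614278), .ofNat (nat_lit 885699), .ofNat (nat_lit 569697), .ofNat (nat_lit 834550), .ofNat (nat_lit 612668), .ofNat (nat_lit 877520)⟩, ⟨.negSucc (nat_lit 28572), .ofNat (nat_lit 471427), .ofNat (nat_lit 0), .ofNat (nat_lit 514284), .negSucc (nat_lit 20404), .ofNat (nat_lit 467493), .ofNat (nat_lit 0), .ofNat (nat_lit 510469)⟩⟩, [⟨nat_lit 13, nat_lit 88, nat_lit 32, nat_lit 100, nat_lit 95283059⟩, ⟨nat_lit 4, nat_lit 100, nat_lit 88, nat_lit 74, nat_lit 118340209⟩, ⟨nat_lit 7, nat_lit 77, nat_lit 100, nat_lit 72, nat_lit 32617484⟩]⟩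
noncomputable def p054_l81 : Lf2 := ⟨nat_lit 0, nat_lit 10, [nat_lit 0, nat_lit 5, nat_lit 5, nat_lit 20], false, nat_lit 0, nat_lit 268, nat_lit 0, nat_lit 360, ⟨nat_lit 258, nat_lit 742, nat_lit 0, nat_lit 6, nat_lit 287, nat_lit 742, nat_lit 93, nat_lit 0, nat_lit 0, nat_lit 0, nat_lit 0, nat_lit 0, nat_lit 0, nat_lit 0, nat_lit 0, nat_lit 5000000, true, true⟩,
 nat_lit 5797, nat_lit 0, nat_lit 0, nat_lit 0, nat_lit 4179, nat_lit 2484, nat_lit 660, nat_lit 0, nat_lit 0, nat_lit 183, nat_lit 0, nat_lit 0, nat_lit 0, nat_lit 0, nat_lit 0, nat_lit 296800, nat_lit 0, nat_lit 0, [(nat_lit 15, [(nat_lit 1, nat_lit 742)])],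
 ⟨p054_k2, nat_lit 0, nat_lit 0, nat_lit 350, nat_lit 0, nat_lit 430997, [nat_lit 2345744400, nat_lit 3359811067, nat_lit 3774216000], [], [nat_lit 23786864922, nat_lit 24220822526, nat_lit 31482393298, nat_lit 32011455357, nat_lit 25200575824, nat_lit 25543325926, nat_lit 30209872801, nat_lit 30478556068], nat_lit 1271250, nat_lit 1271250, nat_lit 1271250, nat_lit 1271250, nat_lit 0, nat_lit 1892750, [nat_lit 780000, nat_lit 1435000, nat_lit 1271250], [nat_lit 18, nat_lit 40, nat_lit 40, nat_lit 80, nat_lit 2, nat_lit 289, nat_lit 75, nat_lit 9]⟩, ⟨p054_k4, nat_lit 0, nat_lit 0, nat_lit 656, nat_lit 0, nat_lit 825717, [nat_lit 1612500000, nat_lit 2539236000, nat_lit 3062976000], [], [nat_lit 11379966048, nat_lit 11369162184, nat_lit 12183177984, nat_lit 12098718653, nat_lit 9803968188, nat_lit 9697532568, nat_lit 10006569790, nat_lit 9846115709], nat_lit 1271250, nat_lit 1271250, nat_lit 1271250, nat_lit 1271250,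 nat_lit 0, nat_lit 2542500, [nat_lit 1412500, nat_lit 1271250, nat_lit 1271250], [nat_lit 46, nat_lit 40, nat_lit 40, nat_lit 80, nat_lit 41, nat_lit 483, nat_lit 250, nat_lit 12]⟩,
 ⟨nat_lit 4472, nat_lit 4744, ⟨.ofNat (nat_lit 569698), .ofNat (nat_lit 827585), .ofNat (nat_lit 612668), .ofNat (nat_lit 870555), .ofNat (nat_lit 567976), .ofNat (nat_lit 819494), .ofNat (nat_lit 611103), .ofNat (nat_lit 862620)⟩, ⟨.negSucc (nat_lit 20404), .ofNat (nat_lit 446583), .ofNat (nat_lit 0), .ofNat (nat_lit 489559), .negSucc (nat_lit 12423), .ofNat (nat_lit 443030), .ofNat (nat_lit 0), .ofNat (nat_lit 486162)⟩⟩, [⟨nat_lit 13, nat_lit 82, nat_lit 49, nat_lit 100, nat_lit 144881084⟩, ⟨nat_lit 4, nat_lit 100, nat_lit 83, nat_lit 73, nat_lit 110797863⟩, ⟨nat_lit 7, nat_lit 77, nat_lit 100, nat_lit 72, nat_lit 26424189⟩]⟩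
noncomputable def b_V_700_500_10_10 : St := ⟨true, nat_lit 1, nat_lit 2, nat_lit 2, nat_lit 80, nat_lit 280, nat_lit 320, nat_lit 200, nat_lit 240, nat_lit 16, nat_lit 396, nat_lit 40, nat_lit 80, nat_lit 0, nat_lit 300, nat_lit 0, nat_lit 360, nat_lit 0, nat_lit 40, nat_lit 0, nat_lit 0, nat_lit 0, nat_lit 0⟩
theorem d_V_700_500_10_10 (h : EB TB.env) : Dead b_V_700_500_10_10 := chkB_sound0 h (T :=
(.st (nat_lit 1)
(.spl (nat_lit 2) (nat_lit 240)
(.spl (nat_lit 4) (nat_lit 160)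
(.spl (nat_lit 2) (nat_lit 160)
(.leaf p054_l62)
(.leaf p054_l63))
(.spl (nat_lit 0) (nat_lit 300)
(.spl (nat_lit 2) (nat_lit 160)
(.leaf p054_l64)
(.leaf p054_l65))
(.trZ (nat_lit 0) (nat_lit 100) (nat_lit 87) (nat_lit 50) (nat_lit 24) (.trX (nat_lit 16) (nat_lit 94) (nat_lit 100) (nat_lit 87) (nat_lit 280) (.leaf p054_l66)))))
(.spl (nat_lit 0) (nat_lit 300)
(.spl (nat_lit 0) (nat_lit 290)
(.spl (nat_lit 4) (nat_lit 160)
(.leaf p054_l67)
(.leaf p054_l68))
(.trX (nat_lit 16) (nat_lit 100) (nat_lit 100) (nat_lit 89) (nat_lit 292) (.spl (nat_lit 1) (nat_lit 220)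
(.trX (nat_lit 13) (nat_lit 90) (nat_lit 36) (nat_lit 100) (nat_lit 388) (.leaf p054_l69))
(.trX (nat_lit 19) (nat_lit 100) (nat_lit 68) (nat_lit 80) (nat_lit 348) (.leaf p054_l70)))))
(.trX (nat_lit 13) (nat_lit 88) (nat_lit 32) (nat_lit 100) (nat_lit 392) (.trX (nat_lit 16) (nat_lit 94) (nat_lit 100) (nat_lit 87) (nat_lit 280) (.spl (nat_lit 0) (nat_lit 310)
(.spl (nat_lit 0) (nat_lit 305)
(.leaf p054_l71)
(.trX (nat_lit 13) (nat_lit 87) (nat_lit 35) (nat_lit 100) (nat_lit 388) (.trX (nat_lit 16) (nat_lit 91) (nat_lit 100) (nat_lit 86) (nat_lit 276) (.leaf p054_l72))))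
(.trX (nat_lit 13) (nat_lit 85) (nat_lit 38) (nat_lit 100) (nat_lit 388) (.trX (nat_lit 16) (nat_lit 89) (nat_lit 100) (nat_lit 85) (nat_lit 268) (.spl (nat_lit 0) (nat_lit 315)
(.leaf p054_l73)
(.trX (nat_lit 13) (nat_lit 84) (nat_lit 41) (nat_lit 100) (nat_lit 384) (.trX (nat_lit 16) (nat_lit 86) (nat_lit 100) (nat_lit 84) (nat_lit 264) (.leaf p054_l74)))))))))))
(.spl (nat_lit 2) (nat_lit 120)
(.leaf p054_l75)
(.spl (nat_lit 2) (nat_lit 240)
(.spl (nat_lit 4) (nat_lit 160)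
(.leaf p054_l76)
(.leaf p054_l77))
(.spl (nat_lit 0) (nat_lit 300)
(.spl (nat_lit 0) (nat_lit 290)
(.leaf p054_l78)
(.trX (nat_lit 16) (nat_lit 100) (nat_lit 100) (nat_lit 89) (nat_lit 292) (.leaf p054_l79)))
(.trX (nat_lit 13) (nat_lit 88) (nat_lit 32) (nat_lit 100) (nat_lit 392) (.trX (nat_lit 16) (nat_lit 94) (nat_lit 100) (nat_lit 87) (nat_lit 280) (.spl (nat_lit 0) (nat_lit 310)
(.leaf p054_l80)
(.trX (nat_lit 13) (nat_lit 85) (nat_lit 38) (nat_lit 100) (nat_lit 388) (.trX (nat_lit 16) (nat_lit 89) (nat_lit 100) (nat_lit 85) (nat_lit 268) (.leaf p054_l81))))))))))) (by decide +kernel)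
noncomputable def p054_l82 : Lf2 := ⟨nat_lit 0, nat_lit 18, [nat_lit 100, nat_lit 5, nat_lit 5, nat_lit 20], true, nat_lit 0, nat_lit 160, nat_lit 0, nat_lit 360, ⟨nat_lit 0, nat_lit 0, nat_lit 1000, nat_lit 5, nat_lit 156, nat_lit 512, nat_lit 55, nat_lit 1000, nat_lit 25350, nat_lit 254, nat_lit 1350, nat_lit 206, nat_lit 58168250, nat_lit 0, nat_lit 0, nat_lit 1949130, false, false⟩,
 nat_lit 0, nat_lit 0, nat_lit 0, nat_lit 10786, nat_lit 3431, nat_lit 0, nat_lit 338, nat_lit 0, nat_lit 0, nat_lit 0, nat_lit 0, nat_lit 0, nat_lit 0, nat_lit 0, nat_lit 99, nat_lit 424000, nat_lit 0, nat_lit 0, [(nat_lit 13, [(nat_lit 5, nat_lit 960), (nat_lit 6, nat_lit 40)])],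
 ⟨p054_k11, nat_lit 0, nat_lit 0, nat_lit 368, nat_lit 0, nat_lit 0, [nat_lit 2466528000, nat_lit 871232001, nat_lit 291744000], [], [nat_lit 16029099846, nat_lit 17057951619, nat_lit 18324761049, nat_lit 19261863991, nat_lit 15817544070, nat_lit 16697554656, nat_lit 18247450589, nat_lit 19048366811], nat_lit 0, nat_lit 0, nat_lit 0, nat_lit 0, nat_lit 0, nat_lit 0, [], [nat_lit 79, nat_lit 40, nat_lit 40, nat_lit 80, nat_lit 14, nat_lit 401, nat_lit 175, nat_lit 11]⟩, C1.Rw.none,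
 ⟨nat_lit 5000, nat_lit 5478, ⟨.ofNat (nat_lit 155307), .ofNat (nat_lit 574920), .ofNat (nat_lit 198021), .ofNat (nat_lit 617614), .ofNat (nat_lit 171427), .ofNat (nat_lit 571415), .ofNat (nat_lit 214284), .ofNat (nat_lit 614253)⟩, ⟨.negSucc (nat_lit 45522), .ofNat (nat_lit 254209), .negSucc (nat_lit 2832), .ofNat (nat_lit 296923), .negSucc (nat_lit 28572), .ofNat (nat_lit 257141), .ofNat (nat_lit 0), .ofNat (nat_lit 299999)⟩⟩, []⟩
noncomputable def p054_l83 : Lf2 := ⟨nat_lit 0, nat_lit 18, [nat_lit 100, nat_lit 5, nat_lit 5, nat_lit 20], true, nat_lit 0, nat_lit 160, nat_lit 0, nat_lit 360, ⟨nat_lit 0, nat_lit 0, nat_lit 1000, nat_lit 5, nat_lit 161, nat_lit 688, nat_lit 56, nat_lit 999, nat_lit 26667, nat_lit 255, nat_lit 1067, nat_lit 207, nat_lit 57639305, nat_lit 0, nat_lit 0, nat_lit 2022198, false, false⟩,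
 nat_lit 0, nat_lit 0, nat_lit 0, nat_lit 6450, nat_lit 3334, nat_lit 0, nat_lit 0, nat_lit 0, nat_lit 0, nat_lit 0, nat_lit 0, nat_lit 0, nat_lit 0, nat_lit 0, nat_lit 109, nat_lit 400000, nat_lit 0, nat_lit 0, [(nat_lit 16, [(nat_lit 5, nat_lit 1000)])],
 ⟨p054_k12, nat_lit 0, nat_lit 0, nat_lit 292, nat_lit 0, nat_lit 0, [nat_lit 2630400000, nat_lit 149600000], [], [nat_lit 17384661236, nat_lit 18750168962, nat_lit 19585325784, nat_lit 20476204320, nat_lit 17059142756, nat_lit 18023280639, nat_lit 19617674224, nat_lit 20573265400], nat_lit 0, nat_lit 0, nat_lit 0, nat_lit 0, nat_lit 0, nat_lit 0, [], [nat_lit 82, nat_lit 40, nat_lit 40, nat_lit 80, nat_lit 63, nat_lit 317, nat_lit 100, nat_lit 9]⟩, C1.Rw.none,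
 ⟨nat_lit 4472, nat_lit 5000, ⟨.ofNat (nat_lit 185713), .ofNat (nat_lit 571423), .ofNat (nat_lit 228562), .ofNat (nat_lit 614256), .ofNat (nat_lit 200895), .ofNat (nat_lit 567973), .ofNat (nat_lit 244020), .ofNat (nat_lit 611081)⟩, ⟨.negSucc (nat_lit 28572), .ofNat (nat_lit 257141), .ofNat (nat_lit 0), .ofNat (nat_lit 299999), .negSucc (nat_lit 12423), .ofNat (nat_lit 259489), .ofNat (nat_lit 0), .ofNat (nat_lit 302621)⟩⟩, []⟩
noncomputable def p054_l84 : Lf2 := ⟨nat_lit 0, nat_lit 18, [nat_lit 100, nat_lit 5, nat_lit 5, nat_lit 20], true, nat_lit 160, nat_lit 300, nat_lit 0, nat_lit 360, ⟨nat_lit 0, nat_lit 0, nat_lit 1000, nat_lit 5, nat_lit 129, nat_lit 1000, nat_lit 161, nat_lit 1000, nat_lit 3701, nat_lit 228, nat_lit 79350, nat_lit 284, nat_lit 50853835, nat_lit 0, nat_lit 0, nat_lit 3823300, false, false⟩,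
 nat_lit 0, nat_lit 0, nat_lit 0, nat_lit 9280, nat_lit 3220, nat_lit 0, nat_lit 193, nat_lit 0, nat_lit 0, nat_lit 0, nat_lit 0, nat_lit 0, nat_lit 0, nat_lit 0, nat_lit 95, nat_lit 400000, nat_lit 0, nat_lit 0, [(nat_lit 13, [(nat_lit 5, nat_lit 1000)]), (nat_lit 16, [(nat_lit 5, nat_lit 1000)])],
 ⟨p054_k11, nat_lit 0, nat_lit 0, nat_lit 209, nat_lit 0, nat_lit 0, [nat_lit 2462400000, nat_lit 809400001, nat_lit 358000000], [], [nat_lit 16131333802, nat_lit 18081295402, nat_lit 16180777465, nat_lit 17850280161, nat_lit 20546551713, nat_lit 23087206572, nat_lit 20671051780, nat_lit 22512271420], nat_lit 0, nat_lit 0, nat_lit 0, nat_lit 0, nat_lit 0, nat_lit 0, [], [nat_lit 79, nat_lit 40, nat_lit 40, nat_lit 80, nat_lit 14, nat_lit 428, nat_lit 200, nat_lit 11]⟩, C1.Rw.none,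
 ⟨nat_lit 4472, nat_lit 5478, ⟨.ofNat (nat_lit 155307), .ofNat (nat_lit 425065), .ofNat (nat_lit 198021), .ofNat (nat_lit 467727), .ofNat (nat_lit 187299), .ofNat (nat_lit 432020), .ofNat (nat_lit 230432), .ofNat (nat_lit 475101)⟩, ⟨.ofNat (nat_lit 254209), .ofNat (nat_lit 516475), .ofNat (nat_lit 296923), .ofNat (nat_lit 559189), .ofNat (nat_lit 259489), .ofNat (nat_lit 497412), .ofNat (nat_lit 302621), .ofNat (nat_lit 540545)⟩⟩, [⟨nat_lit 0, nat_lit 100, nat_lit 87, nat_lit 59, nat_lit 23338196⟩, ⟨nat_lit 0, nat_lit 100, nat_lit 82, nat_lit 76, nat_lit 87232902⟩, ⟨nat_lit 4, nat_lit 100, nat_lit 90, nat_lit 74, nat_lit 273582634⟩]⟩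
noncomputable def p054_l85 : Lf2 := ⟨nat_lit 0, nat_lit 18, [nat_lit 100, nat_lit 5, nat_lit 5, nat_lit 20], true, nat_lit 160, nat_lit 300, nat_lit 0, nat_lit 360, ⟨nat_lit 0, nat_lit 1000, nat_lit 0, nat_lit 5, nat_lit 209, nat_lit 1000, nat_lit 161, nat_lit 0, nat_lit 0, nat_lit 0, nat_lit 0, nat_lit 0, nat_lit 44509238, nat_lit 13493187, nat_lit 8997575, nat_lit 4642270, false, false⟩,
 nat_lit 0, nat_lit 0, nat_lit 0, nat_lit 6215, nat_lit 4087, nat_lit 0, nat_lit 0, nat_lit 0, nat_lit 0, nat_lit 0, nat_lit 0, nat_lit 0, nat_lit 0, nat_lit 0, nat_lit 0, nat_lit 250000, nat_lit 0, nat_lit 0, [(nat_lit 13, [(nat_lit 0, nat_lit 1000)]), (nat_lit 16, [(nat_lit 0, nat_lit 1000)])],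
 ⟨p054_k13, nat_lit 0, nat_lit 0, nat_lit 30, nat_lit 0, nat_lit 0, [nat_lit 2380933334, nat_lit 3797885714], [], [nat_lit 13894976090, nat_lit 16933228150, nat_lit 17150364582, nat_lit 19748648454, nat_lit 20509602321, nat_lit 22751649642, nat_lit 22756390920, nat_lit 24693096786], nat_lit 0, nat_lit 0, nat_lit 0, nat_lit 0, nat_lit 0, nat_lit 0, [], [nat_lit 135, nat_lit 40, nat_lit 40, nat_lit 80, nat_lit 134, nat_lit 456, nat_lit 225, nat_lit 11]⟩, C1.Rw.none,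
 ⟨nat_lit 4472, nat_lit 5478, ⟨.ofNat (nat_lit 425065), .ofNat (nat_lit 574895), .ofNat (nat_lit 467727), .ofNat (nat_lit 617523), .ofNat (nat_lit 432020), .ofNat (nat_lit 567940), .ofNat (nat_lit 475101), .ofNat (nat_lit 610987)⟩, ⟨.ofNat (nat_lit 254209), .ofNat (nat_lit 516475), .ofNat (nat_lit 296923), .ofNat (nat_lit 559189), .ofNat (nat_lit 259489), .ofNat (nat_lit 497412), .ofNat (nat_lit 302621), .ofNat (nat_lit 540545)⟩⟩, [⟨nat_lit 4, nat_lit 100, nat_lit 90, nat_lit 74, nat_lit 237976770⟩]⟩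
noncomputable def p054_l86 : Lf2 := ⟨nat_lit 0, nat_lit 18, [nat_lit 100, nat_lit 5, nat_lit 5, nat_lit 20], false, nat_lit 0, nat_lit 160, nat_lit 0, nat_lit 360, ⟨nat_lit 1000, nat_lit 0, nat_lit 0, nat_lit 0, nat_lit 0, nat_lit 0, nat_lit 0, nat_lit 0, nat_lit 0, nat_lit 0, nat_lit 0, nat_lit 0, nat_lit 0, nat_lit 0, nat_lit 0, nat_lit 0, false, false⟩,
 nat_lit 0, nat_lit 0, nat_lit 0, nat_lit 16901, nat_lit 9313, nat_lit 10744, nat_lit 511, nat_lit 0, nat_lit 0, nat_lit 564, nat_lit 0, nat_lit 0, nat_lit 0, nat_lit 0, nat_lit 0, nat_lit 0, nat_lit 0, nat_lit 0, [],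
 ⟨p054_k11, nat_lit 0, nat_lit 0, nat_lit 251, nat_lit 0, nat_lit 0, [nat_lit 3282000000, nat_lit 7968000001, nat_lit 11872000000], [], [nat_lit 33739701112, nat_lit 35847662232, nat_lit 43792957874, nat_lit 46802451436, nat_lit 26515443048, nat_lit 28250401368, nat_lit 33765781044, nat_lit 35165530582], nat_lit 0, nat_lit 0, nat_lit 0, nat_lit 0, nat_lit 0, nat_lit 0, [], [nat_lit 79, nat_lit 40, nat_lit 40, nat_lit 80, nat_lit 14, nat_lit 456, nat_lit 225, nat_lit 11]⟩, ⟨p054_k14, nat_lit 0, nat_lit 0, nat_lit 317, nat_lit 0, nat_lit 0, [nat_lit 6250000000, nat_lit 11872000000, nat_lit 14058000000], [], [nat_lit 36463997472, nat_lit 37949632704, nat_lit 49350445508, nat_lit 49600984125, nat_lit 34700377664, nat_lit 34913326720, nat_lit 41331318693, nat_lit 41047280185], nat_lit 0, nat_lit 0, nat_lit 0, nat_lit 0, nat_lit 0, nat_lit 0, [], [nat_lit 137, nat_lit 40, nat_lit 40, nat_lit 80, nat_lit 58, nat_lit 483,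 nat_lit 250, nat_lit 11]⟩,
 zbF0, [⟨nat_lit 22, nat_lit 84, nat_lit 100, nat_lit 84, nat_lit 108250260⟩]⟩
noncomputable def p054_l87 : Lf2 := ⟨nat_lit 0, nat_lit 18, [nat_lit 100, nat_lit 5, nat_lit 5, nat_lit 20], false, nat_lit 160, nat_lit 300, nat_lit 0, nat_lit 360, ⟨nat_lit 1000, nat_lit 0, nat_lit 0, nat_lit 0, nat_lit 0, nat_lit 0, nat_lit 0, nat_lit 0, nat_lit 0, nat_lit 0, nat_lit 0, nat_lit 0, nat_lit 0, nat_lit 0, nat_lit 0, nat_lit 0, false, false⟩,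
 nat_lit 0, nat_lit 0, nat_lit 0, nat_lit 17619, nat_lit 8544, nat_lit 11307, nat_lit 0, nat_lit 0, nat_lit 0, nat_lit 578, nat_lit 0, nat_lit 0, nat_lit 0, nat_lit 0, nat_lit 0, nat_lit 0, nat_lit 0, nat_lit 0, [],
 ⟨p054_k11, nat_lit 0, nat_lit 0, nat_lit 103, nat_lit 0, nat_lit 0, [nat_lit 3282000000, nat_lit 7968000001, nat_lit 11872000000], [], [nat_lit 21160240289, nat_lit 24255764065, nat_lit 32447491825, nat_lit 34223257889, nat_lit 26618062873, nat_lit 28779165465, nat_lit 35173073699, nat_lit 36891603874], nat_lit 0, nat_lit 0, nat_lit 0, nat_lit 0, nat_lit 0, nat_lit 0, [], [nat_lit 79, nat_lit 40, nat_lit 40, nat_lit 80, nat_lit 14, nat_lit 538, nat_lit 300, nat_lit 13]⟩, ⟨p054_k14, nat_lit 0, nat_lit 0, nat_lit 317, nat_lit 0, nat_lit 0, [nat_lit 6250000000, nat_lit 11872000000, nat_lit 14058000000], [], [nat_lit 36656067016, nat_lit 38163731312, nat_lit 49972456082, nat_lit 50188499915, nat_lit 34389670192,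 nat_lit 34613320910, nat_lit 41214609469, nat_lit 40969786951], nat_lit 0, nat_lit 0, nat_lit 0, nat_lit 0, nat_lit 0, nat_lit 0, [], [nat_lit 137, nat_lit 40, nat_lit 40, nat_lit 80, nat_lit 58, nat_lit 483, nat_lit 250, nat_lit 11]⟩,
 zbF0, [⟨nat_lit 4, nat_lit 100, nat_lit 90, nat_lit 74, nat_lit 472923391⟩, ⟨nat_lit 19, nat_lit 100, nat_lit 77, nat_lit 72, nat_lit 93287367⟩]⟩
noncomputable def p054_l88 : Lf2 := ⟨nat_lit 0, nat_lit 18, [nat_lit 100, nat_lit 5, nat_lit 5, nat_lit 20], true, nat_lit 0, nat_lit 160, nat_lit 0, nat_lit 360, ⟨nat_lit 0, nat_lit 0, nat_lit 1000, nat_lit 5, nat_lit 156, nat_lit 512, nat_lit 55, nat_lit 1000, nat_lit 25350, nat_lit 254, nat_lit 1350, nat_lit 206, nat_lit 58168250, nat_lit 0, nat_lit 0, nat_lit 1949130, false, false⟩,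
 nat_lit 0, nat_lit 0, nat_lit 0, nat_lit 10786, nat_lit 3431, nat_lit 0, nat_lit 338, nat_lit 0, nat_lit 0, nat_lit 0, nat_lit 0, nat_lit 0, nat_lit 0, nat_lit 0, nat_lit 99, nat_lit 424000, nat_lit 0, nat_lit 0, [(nat_lit 13, [(nat_lit 5, nat_lit 960), (nat_lit 6, nat_lit 40)])],
 ⟨p054_k11, nat_lit 0, nat_lit 0, nat_lit 368, nat_lit 0, nat_lit 0, [nat_lit 2466528000, nat_lit 871232001, nat_lit 291744000], [], [nat_lit 16029099846, nat_lit 17057951619, nat_lit 18324761049, nat_lit 19261863991, nat_lit 15817544070, nat_lit 16697554656, nat_lit 18247450589, nat_lit 19048366811], nat_lit 0, nat_lit 0, nat_lit 0, nat_lit 0, nat_lit 0, nat_lit 0, [], [nat_lit 79, nat_lit 40, nat_lit 40, nat_lit 80, nat_lit 14, nat_lit 401, nat_lit 175, nat_lit 11]⟩, C1.Rw.none,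
 ⟨nat_lit 5000, nat_lit 5478, ⟨.ofNat (nat_lit 155307), .ofNat (nat_lit 574920), .ofNat (nat_lit 198021), .ofNat (nat_lit 617614), .ofNat (nat_lit 171427), .ofNat (nat_lit 571415), .ofNat (nat_lit 214284), .ofNat (nat_lit 614253)⟩, ⟨.negSucc (nat_lit 45522), .ofNat (nat_lit 254209), .negSucc (nat_lit 2832), .ofNat (nat_lit 296923), .negSucc (nat_lit 28572), .ofNat (nat_lit 257141), .ofNat (nat_lit 0), .ofNat (nat_lit 299999)⟩⟩, []⟩
noncomputable def p054_l89 : Lf2 := ⟨nat_lit 0, nat_lit 18, [nat_lit 100, nat_lit 5, nat_lit 5, nat_lit 20], true, nat_lit 0, nat_lit 160, nat_lit 0, nat_lit 360, ⟨nat_lit 0, nat_lit 0, nat_lit 1000, nat_lit 5, nat_lit 161, nat_lit 688, nat_lit 56, nat_lit 999, nat_lit 26667, nat_lit 255, nat_lit 1067, nat_lit 207, nat_lit 57639305, nat_lit 0, nat_lit 0, nat_lit 2022198, false, false⟩,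
 nat_lit 0, nat_lit 0, nat_lit 0, nat_lit 6450, nat_lit 3334, nat_lit 0, nat_lit 0, nat_lit 0, nat_lit 0, nat_lit 0, nat_lit 0, nat_lit 0, nat_lit 0, nat_lit 0, nat_lit 109, nat_lit 400000, nat_lit 0, nat_lit 0, [(nat_lit 16, [(nat_lit 5, nat_lit 1000)])],
 ⟨p054_k12, nat_lit 0, nat_lit 0, nat_lit 292, nat_lit 0, nat_lit 0, [nat_lit 2630400000, nat_lit 149600000], [], [nat_lit 17384661236, nat_lit 18750168962, nat_lit 19585325784, nat_lit 20476204320, nat_lit 17059142756, nat_lit 18023280639, nat_lit 19617674224, nat_lit 20573265400], nat_lit 0, nat_lit 0, nat_lit 0, nat_lit 0, nat_lit 0, nat_lit 0, [], [nat_lit 82, nat_lit 40, nat_lit 40, nat_lit 80, nat_lit 63, nat_lit 317, nat_lit 100, nat_lit 9]⟩, C1.Rw.none,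
 ⟨nat_lit 4472, nat_lit 5000, ⟨.ofNat (nat_lit 185713), .ofNat (nat_lit 571423), .ofNat (nat_lit 228562), .ofNat (nat_lit 614256), .ofNat (nat_lit 200895), .ofNat (nat_lit 567973), .ofNat (nat_lit 244020), .ofNat (nat_lit 611081)⟩, ⟨.negSucc (nat_lit 28572), .ofNat (nat_lit 257141), .ofNat (nat_lit 0), .ofNat (nat_lit 299999), .negSucc (nat_lit 12423), .ofNat (nat_lit 259489), .ofNat (nat_lit 0), .ofNat (nat_lit 302621)⟩⟩, []⟩
noncomputable def p054_l90 : Lf2 := ⟨nat_lit 0, nat_lit 18, [nat_lit 100, nat_lit 5, nat_lit 5, nat_lit 20], true, nat_lit 160, nat_lit 300, nat_lit 0, nat_lit 360, ⟨nat_lit 0, nat_lit 0, nat_lit 1000, nat_lit 5, nat_lit 129, nat_lit 1000, nat_lit 161, nat_lit 1000, nat_lit 3701, nat_lit 228, nat_lit 79350, nat_lit 284, nat_lit 50853835, nat_lit 0, nat_lit 0, nat_lit 3823300, false, false⟩,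
 nat_lit 0, nat_lit 0, nat_lit 0, nat_lit 9280, nat_lit 3220, nat_lit 0, nat_lit 193, nat_lit 0, nat_lit 0, nat_lit 0, nat_lit 0, nat_lit 0, nat_lit 0, nat_lit 0, nat_lit 95, nat_lit 400000, nat_lit 0, nat_lit 0, [(nat_lit 13, [(nat_lit 5, nat_lit 1000)]), (nat_lit 16, [(nat_lit 5, nat_lit 1000)])],
 ⟨p054_k11, nat_lit 0, nat_lit 0, nat_lit 209, nat_lit 0, nat_lit 0, [nat_lit 2462400000, nat_lit 809400001, nat_lit 358000000], [], [nat_lit 16131333802, nat_lit 18081295402, nat_lit 16180777465, nat_lit 17850280161, nat_lit 20546551713, nat_lit 23087206572, nat_lit 20671051780, nat_lit 22512271420], nat_lit 0, nat_lit 0, nat_lit 0, nat_lit 0, nat_lit 0, nat_lit 0, [], [nat_lit 79, nat_lit 40, nat_lit 40, nat_lit 80, nat_lit 14, nat_lit 428, nat_lit 200, nat_lit 11]⟩, C1.Rw.none,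
 ⟨nat_lit 4472, nat_lit 5478, ⟨.ofNat (nat_lit 155307), .ofNat (nat_lit 425065), .ofNat (nat_lit 198021), .ofNat (nat_lit 467727), .ofNat (nat_lit 187299), .ofNat (nat_lit 432020), .ofNat (nat_lit 230432), .ofNat (nat_lit 475101)⟩, ⟨.ofNat (nat_lit 254209), .ofNat (nat_lit 516475), .ofNat (nat_lit 296923), .ofNat (nat_lit 559189), .ofNat (nat_lit 259489), .ofNat (nat_lit 497412), .ofNat (nat_lit 302621), .ofNat (nat_lit 540545)⟩⟩, [⟨nat_lit 0, nat_lit 100, nat_lit 87, nat_lit 59, nat_lit 23338196⟩, ⟨nat_lit 0, nat_lit 100, nat_lit 82, nat_lit 76, nat_lit 87232902⟩, ⟨nat_lit 4, nat_lit 100, nat_lit 90, nat_lit 74, nat_lit 273582634⟩]⟩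
noncomputable def p054_l91 : Lf2 := ⟨nat_lit 0, nat_lit 18, [nat_lit 100, nat_lit 5, nat_lit 5, nat_lit 20], true, nat_lit 160, nat_lit 300, nat_lit 0, nat_lit 360, ⟨nat_lit 0, nat_lit 1000, nat_lit 0, nat_lit 5, nat_lit 209, nat_lit 1000, nat_lit 161, nat_lit 0, nat_lit 0, nat_lit 0, nat_lit 0, nat_lit 0, nat_lit 44509238, nat_lit 13493187, nat_lit 8997575, nat_lit 4642270, false, false⟩,
 nat_lit 0, nat_lit 0, nat_lit 0, nat_lit 6215, nat_lit 4087, nat_lit 0, nat_lit 0, nat_lit 0, nat_lit 0, nat_lit 0, nat_lit 0, nat_lit 0, nat_lit 0, nat_lit 0, nat_lit 0, nat_lit 250000, nat_lit 0, nat_lit 0, [(nat_lit 13, [(nat_lit 0, nat_lit 1000)]), (nat_lit 16, [(nat_lit 0, nat_lit 1000)])],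
 ⟨p054_k13, nat_lit 0, nat_lit 0, nat_lit 30, nat_lit 0, nat_lit 0, [nat_lit 2380933334, nat_lit 3797885714], [], [nat_lit 13894976090, nat_lit 16933228150, nat_lit 17150364582, nat_lit 19748648454, nat_lit 20509602321, nat_lit 22751649642, nat_lit 22756390920, nat_lit 24693096786], nat_lit 0, nat_lit 0, nat_lit 0, nat_lit 0, nat_lit 0, nat_lit 0, [], [nat_lit 135, nat_lit 40, nat_lit 40, nat_lit 80, nat_lit 134, nat_lit 456, nat_lit 225, nat_lit 11]⟩, C1.Rw.none,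
 ⟨nat_lit 4472, nat_lit 5478, ⟨.ofNat (nat_lit 425065), .ofNat (nat_lit 574895), .ofNat (nat_lit 467727), .ofNat (nat_lit 617523), .ofNat (nat_lit 432020), .ofNat (nat_lit 567940), .ofNat (nat_lit 475101), .ofNat (nat_lit 610987)⟩, ⟨.ofNat (nat_lit 254209), .ofNat (nat_lit 516475), .ofNat (nat_lit 296923), .ofNat (nat_lit 559189), .ofNat (nat_lit 259489), .ofNat (nat_lit 497412), .ofNat (nat_lit 302621), .ofNat (nat_lit 540545)⟩⟩, [⟨nat_lit 4, nat_lit 100, nat_lit 90, nat_lit 74, nat_lit 237976770⟩]⟩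
noncomputable def p054_l92 : Lf2 := ⟨nat_lit 0, nat_lit 18, [nat_lit 100, nat_lit 5, nat_lit 5, nat_lit 20], false, nat_lit 0, nat_lit 160, nat_lit 0, nat_lit 360, ⟨nat_lit 1000, nat_lit 0, nat_lit 0, nat_lit 0, nat_lit 0, nat_lit 0, nat_lit 0, nat_lit 0, nat_lit 0, nat_lit 0, nat_lit 0, nat_lit 0, nat_lit 0, nat_lit 0, nat_lit 0, nat_lit 0, false, false⟩,
 nat_lit 0, nat_lit 0, nat_lit 22040, nat_lit 7484, nat_lit 8606, nat_lit 9445, nat_lit 1088, nat_lit 0, nat_lit 0, nat_lit 868, nat_lit 0, nat_lit 0, nat_lit 0, nat_lit 0, nat_lit 0, nat_lit 0, nat_lit 0, nat_lit 0, [],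
 ⟨p054_k15, nat_lit 0, nat_lit 0, nat_lit 239, nat_lit 0, nat_lit 0, [nat_lit 3282000000, nat_lit 6250000000, nat_lit 11872000000], [], [nat_lit 26855452768, nat_lit 28307015648, nat_lit 41976288004, nat_lit 43414745333, nat_lit 20093380456, nat_lit 21020200156, nat_lit 31785228180, nat_lit 33041629932], nat_lit 0, nat_lit 0, nat_lit 0, nat_lit 0, nat_lit 0, nat_lit 0, [], [nat_lit 23, nat_lit 40, nat_lit 40, nat_lit 80, nat_lit 12, nat_lit 456, nat_lit 225, nat_lit 11]⟩, ⟨p054_k16, nat_lit 0, nat_lit 0, nat_lit 379, nat_lit 0, nat_lit 95995, [nat_lit 6250000000, nat_lit 9842000000, nat_lit 14058000000], [], [nat_lit 38370422040, nat_lit 39072566820, nat_lit 45826908174, nat_lit 45896778645, nat_lit 37638129160, nat_lit 34662354780, nat_lit 38921864217, nat_lit 38624770768], nat_lit 1271250, nat_lit 1271250, nat_lit 1271250, nat_lit 1271250, nat_lit 0, nat_lit 2542500, [nat_lit 1412500, nat_lit 1271250, nat_lit 1271250],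 [nat_lit 60, nat_lit 40, nat_lit 40, nat_lit 80, nat_lit 32, nat_lit 483, nat_lit 250, nat_lit 11]⟩,
 zbF0, [⟨nat_lit 22, nat_lit 84, nat_lit 100, nat_lit 84, nat_lit 133567861⟩]⟩
noncomputable def p054_l93 : Lf2 := ⟨nat_lit 0, nat_lit 15, [nat_lit 30, nat_lit 5, nat_lit 5, nat_lit 20], false, nat_lit 0, nat_lit 80, nat_lit 0, nat_lit 336, ⟨nat_lit 398, nat_lit 602, nat_lit 0, nat_lit 6, nat_lit 282, nat_lit 602, nat_lit 28, nat_lit 0, nat_lit 0, nat_lit 0, nat_lit 0, nat_lit 0, nat_lit 44717591, nat_lit 22282409, nat_lit 0, nat_lit 3179929, true, true⟩,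
 nat_lit 0, nat_lit 0, nat_lit 7832, nat_lit 0, nat_lit 4234, nat_lit 3356, nat_lit 499, nat_lit 0, nat_lit 0, nat_lit 361, nat_lit 0, nat_lit 0, nat_lit 0, nat_lit 0, nat_lit 0, nat_lit 240800, nat_lit 0, nat_lit 0, [(nat_lit 16, [(nat_lit 1, nat_lit 602)])],
 ⟨p054_k17, nat_lit 0, nat_lit 0, nat_lit 213, nat_lit 0, nat_lit 0, [nat_lit 2522396400, nat_lit 3931738134, nat_lit 5222974400], [], [nat_lit 23965105998, nat_lit 24999365966, nat_lit 31035733914, nat_lit 31838282783, nat_lit 22101968686, nat_lit 23125816295, nat_lit 28753179830, nat_lit 29469880873], nat_lit 0, nat_lit 0, nat_lit 0, nat_lit 0, nat_lit 0, nat_lit 0, [], [nat_lit 8, nat_lit 40, nat_lit 40, nat_lit 80, nat_lit 1, nat_lit 345, nat_lit 125, nat_lit 9]⟩, ⟨p054_k18, nat_lit 0, nat_lit 0, nat_lit 480, nat_lit 0, nat_lit 380605, [nat_lit 2487500000, nat_lit 3917116000, nat_lit 5595084000], [], [nat_lit 15399689702, nat_lit 15543809606, nat_lit 17943309922,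 nat_lit 17966998362, nat_lit 14442170293, nat_lit 14052849121, nat_lit 15690911098, nat_lit 15674256294], nat_lit 1271250, nat_lit 1271250, nat_lit 1271250, nat_lit 1271250, nat_lit 0, nat_lit 2373000, [nat_lit 1412500, nat_lit 1271250, nat_lit 1271250], [nat_lit 60, nat_lit 40, nat_lit 40, nat_lit 80, nat_lit 32, nat_lit 483, nat_lit 250, nat_lit 11]⟩,
 ⟨nat_lit 4472, nat_lit 5000, ⟨.ofNat (nat_lit 571423), .ofNat (nat_lit 828548), .ofNat (nat_lit 592840), .ofNat (nat_lit 849965), .ofNat (nat_lit 567973), .ofNat (nat_lit 812676), .ofNat (nat_lit 589527), .ofNat (nat_lit 834231)⟩, ⟨.negSucc (nat_lit 28572), .ofNat (nat_lit 114284), .ofNat (nat_lit 0), .ofNat (nat_lit 157141), .negSucc (nat_lit 12423), .ofNat (nat_lit 123532), .ofNat (nat_lit 0), .ofNat (nat_lit 166665)⟩⟩, [⟨nat_lit 22, nat_lit 83, nat_lit 100, nat_lit 60, nat_lit 82941148⟩]⟩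
noncomputable def p054_l94 : Lf2 := ⟨nat_lit 0, nat_lit 15, [nat_lit 30, nat_lit 5, nat_lit 5, nat_lit 20], false, nat_lit 80, nat_lit 160, nat_lit 0, nat_lit 360, ⟨nat_lit 175, nat_lit 825, nat_lit 0, nat_lit 6, nat_lit 282, nat_lit 825, nat_lit 84, nat_lit 0, nat_lit 0, nat_lit 0, nat_lit 0, nat_lit 0, nat_lit 42262016, nat_lit 21525999, nat_lit 3211985, nat_lit 4211125, true, true⟩,
 nat_lit 0, nat_lit 0, nat_lit 3707, nat_lit 0, nat_lit 4276, nat_lit 1588, nat_lit 370, nat_lit 0, nat_lit 0, nat_lit 129, nat_lit 0, nat_lit 0, nat_lit 0, nat_lit 0, nat_lit 0, nat_lit 330000, nat_lit 0, nat_lit 0, [(nat_lit 16, [(nat_lit 1, nat_lit 825)])],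
 ⟨p054_k17, nat_lit 0, nat_lit 0, nat_lit 153, nat_lit 0, nat_lit 0, [nat_lit 2241015001, nat_lit 3072980001, nat_lit 3547779999], [], [nat_lit 21114859404, nat_lit 22097080732, nat_lit 27772963370, nat_lit 28505708250, nat_lit 21500622692, nat_lit 22385905820, nat_lit 27455348900, nat_lit 28148073140], nat_lit 0, nat_lit 0, nat_lit 0, nat_lit 0, nat_lit 0, nat_lit 0, [], [nat_lit 8, nat_lit 40, nat_lit 40, nat_lit 80, nat_lit 1, nat_lit 373, nat_lit 150, nat_lit 10]⟩, ⟨p054_k18, nat_lit 0, nat_lit 0, nat_lit 480, nat_lit 0, nat_lit 380605, [nat_lit 1093750000, nat_lit 1722350000, nat_lit 2460150000], [], [nat_lit 6928666886, nat_lit 6990811562, nat_lit 8084044865, nat_lit 8089884719, nat_lit 6618144244, nat_lit 6361592175, nat_lit 6853251823, nat_lit 6820865542], nat_lit 1271250, nat_lit 1271250, nat_lit 1271250, nat_lit 1271250, nat_lit 0, nat_lit 2542500, [nat_lit 1412500, nat_lit 1271250, nat_lit 1271250], [nat_lit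 60, nat_lit 40, nat_lit 40, nat_lit 80, nat_lit 32, nat_lit 483, nat_lit 250, nat_lit 11]⟩,
 ⟨nat_lit 4472, nat_lit 5000, ⟨.ofNat (nat_lit 571423), .ofNat (nat_lit 828548), .ofNat (nat_lit 592840), .ofNat (nat_lit 849965), .ofNat (nat_lit 567973), .ofNat (nat_lit 812676), .ofNat (nat_lit 589527), .ofNat (nat_lit 834231)⟩, ⟨.ofNat (nat_lit 114284), .ofNat (nat_lit 257141), .ofNat (nat_lit 157141), .ofNat (nat_lit 299999), .ofNat (nat_lit 123532), .ofNat (nat_lit 259489), .ofNat (nat_lit 166665), .ofNat (nat_lit 302621)⟩⟩, [⟨nat_lit 13, nat_lit 84, nat_lit 51, nat_lit 100, nat_lit 77039098⟩, ⟨nat_lit 22, nat_lit 90, nat_lit 92, nat_lit 100, nat_lit 18346624⟩]⟩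
noncomputable def p054_l95 : Lf2 := ⟨nat_lit 1, nat_lit 18, [nat_lit 100, nat_lit 5, nat_lit 5, nat_lit 20], false, nat_lit 0, nat_lit 160, nat_lit 0, nat_lit 360, zbN0,
 nat_lit 0, nat_lit 0, nat_lit 0, nat_lit 0, nat_lit 0, nat_lit 0, nat_lit 0, nat_lit 0, nat_lit 0, nat_lit 0, nat_lit 0, nat_lit 0, nat_lit 0, nat_lit 0, nat_lit 0, nat_lit 0, nat_lit 0, nat_lit 0, [],
 C1.Rw.none, C1.Rw.none,
 zbF0, []⟩
noncomputable def p054_l96 : Lf2 := ⟨nat_lit 0, nat_lit 18, [nat_lit 100, nat_lit 5, nat_lit 5, nat_lit 20], false, nat_lit 0, nat_lit 80, nat_lit 0, nat_lit 336, ⟨nat_lit 877, nat_lit 123, nat_lit 0, nat_lit 6, nat_lit 290, nat_lit 123, nat_lit 28, nat_lit 0, nat_lit 0, nat_lit 0, nat_lit 0, nat_lit 0, nat_lit 43895681, nat_lit 23104319, nat_lit 0, nat_lit 3220969, true, true⟩,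
 nat_lit 0, nat_lit 0, nat_lit 15710, nat_lit 0, nat_lit 6066, nat_lit 7513, nat_lit 1090, nat_lit 0, nat_lit 0, nat_lit 874, nat_lit 0, nat_lit 0, nat_lit 0, nat_lit 0, nat_lit 0, nat_lit 49200, nat_lit 0, nat_lit 0, [(nat_lit 16, [(nat_lit 1, nat_lit 123)])],
 ⟨p054_k19, nat_lit 0, nat_lit 0, nat_lit 215, nat_lit 0, nat_lit 0, [nat_lit 3126798601, nat_lit 5776335200, nat_lit 8898245600], [], [nat_lit 23234799304, nat_lit 24593897748, nat_lit 35813402391, nat_lit 37060499748, nat_lit 19494030636, nat_lit 20728576616, nat_lit 30495473144, nat_lit 31707972666], nat_lit 0, nat_lit 0, nat_lit 0, nat_lit 0, nat_lit 0, nat_lit 0, [], [nat_lit 8, nat_lit 40, nat_lit 40, nat_lit 80, nat_lit 1, nat_lit 345, nat_lit 125, nat_lit 9]⟩, ⟨p054_k20, nat_lit 0, nat_lit 0, nat_lit 481, nat_lit 0, nat_lit 396925, [nat_lit 5481250000, nat_lit 8631434000, nat_lit 12328866000], [], [nat_lit 31045718350, nat_lit 31203860767, nat_lit 36615190932,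 nat_lit 36635539304, nat_lit 28365314868, nat_lit 28041933145, nat_lit 31688928770, nat_lit 31664820123], nat_lit 1271250, nat_lit 1271250, nat_lit 1271250, nat_lit 1271250, nat_lit 0, nat_lit 2373000, [nat_lit 1412500, nat_lit 1271250, nat_lit 1271250], [nat_lit 60, nat_lit 40, nat_lit 40, nat_lit 80, nat_lit 32, nat_lit 483, nat_lit 250, nat_lit 11]⟩,
 ⟨nat_lit 4472, nat_lit 5000, ⟨.ofNat (nat_lit 592840), .ofNat (nat_lit 857108), .ofNat (nat_lit 603547), .ofNat (nat_lit 867816), .ofNat (nat_lit 589527), .ofNat (nat_lit 841029), .ofNat (nat_lit 600304), .ofNat (nat_lit 851806)⟩, ⟨.negSucc (nat_lit 28572), .ofNat (nat_lit 114284), .ofNat (nat_lit 0), .ofNat (nat_lit 157141), .negSucc (nat_lit 12423), .ofNat (nat_lit 123532), .ofNat (nat_lit 0), .ofNat (nat_lit 166665)⟩⟩, [⟨nat_lit 22, nat_lit 82, nat_lit 100, nat_lit 60, nat_lit 187149566⟩]⟩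
noncomputable def p054_l97 : Lf2 := ⟨nat_lit 0, nat_lit 18, [nat_lit 100, nat_lit 5, nat_lit 5, nat_lit 20], false, nat_lit 0, nat_lit 80, nat_lit 0, nat_lit 336, ⟨nat_lit 920, nat_lit 80, nat_lit 0, nat_lit 6, nat_lit 296, nat_lit 80, nat_lit 28, nat_lit 0, nat_lit 0, nat_lit 0, nat_lit 0, nat_lit 0, nat_lit 43304248, nat_lit 23695752, nat_lit 0, nat_lit 3248437, true, true⟩,
 nat_lit 0, nat_lit 0, nat_lit 14941, nat_lit 0, nat_lit 6129, nat_lit 7524, nat_lit 1118, nat_lit 0, nat_lit 0, nat_lit 1412, nat_lit 0, nat_lit 0, nat_lit 0, nat_lit 0, nat_lit 0, nat_lit 32000, nat_lit 0, nat_lit 0, [(nat_lit 16, [(nat_lit 1, nat_lit 80)])],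
 ⟨p054_k19, nat_lit 0, nat_lit 0, nat_lit 216, nat_lit 0, nat_lit 0, [nat_lit 3181056001, nat_lit 5941925334, nat_lit 9228176000], [], [nat_lit 23358393126, nat_lit 24725034812, nat_lit 36396695877, nat_lit 37626504040, nat_lit 19559280532, nat_lit 20800632402, nat_lit 30992359674, nat_lit 32189244286], nat_lit 0, nat_lit 0, nat_lit 0, nat_lit 0, nat_lit 0, nat_lit 0, [], [nat_lit 8, nat_lit 40, nat_lit 40, nat_lit 80, nat_lit 1, nat_lit 345, nat_lit 125, nat_lit 9]⟩, ⟨p054_k21, nat_lit 0, nat_lit 0, nat_lit 541, nat_lit 0, nat_lit 448083, [nat_lit 5750000000, nat_lit 9054640000, nat_lit 12933360000], [], [nat_lit 30532422300, nat_lit 30612625560, nat_lit 34993087703, nat_lit 35115117356, nat_lit 28444970526, nat_lit 26766645487, nat_lit 32195541889, nat_lit 32326718494], nat_lit 1271250, nat_lit 1271250, nat_lit 1271250, nat_lit 1271250, nat_lit 0, nat_lit 2373000, [nat_lit 1412500, nat_lit 1271250, nat_lit 1271250],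 [nat_lit 60, nat_lit 40, nat_lit 40, nat_lit 80, nat_lit 32, nat_lit 483, nat_lit 250, nat_lit 11]⟩,
 ⟨nat_lit 4472, nat_lit 5000, ⟨.ofNat (nat_lit 603547), .ofNat (nat_lit 874958), .ofNat (nat_lit 614256), .ofNat (nat_lit 885667), .ofNat (nat_lit 600304), .ofNat (nat_lit 858603), .ofNat (nat_lit 611081), .ofNat (nat_lit 869380)⟩, ⟨.negSucc (nat_lit 28572), .ofNat (nat_lit 114284), .ofNat (nat_lit 0), .ofNat (nat_lit 157141), .negSucc (nat_lit 12423), .ofNat (nat_lit 123532), .ofNat (nat_lit 0), .ofNat (nat_lit 166665)⟩⟩, [⟨nat_lit 22, nat_lit 81, nat_lit 100, nat_lit 60, nat_lit 240535312⟩]⟩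
noncomputable def p054_l98 : Lf2 := ⟨nat_lit 0, nat_lit 18, [nat_lit 100, nat_lit 5, nat_lit 5, nat_lit 20], false, nat_lit 80, nat_lit 160, nat_lit 0, nat_lit 348, ⟨nat_lit 364, nat_lit 636, nat_lit 0, nat_lit 6, nat_lit 290, nat_lit 636, nat_lit 84, nat_lit 0, nat_lit 0, nat_lit 0, nat_lit 0, nat_lit 0, nat_lit 41526047, nat_lit 22295100, nat_lit 3178853, nat_lit 4241813, true, true⟩,
 nat_lit 0, nat_lit 0, nat_lit 6311, nat_lit 0, nat_lit 4613, nat_lit 3018, nat_lit 480, nat_lit 0, nat_lit 0, nat_lit 361, nat_lit 0, nat_lit 0, nat_lit 0, nat_lit 0, nat_lit 0, nat_lit 254400, nat_lit 0, nat_lit 0, [(nat_lit 16, [(nat_lit 1, nat_lit 636)])],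
 ⟨p054_k19, nat_lit 0, nat_lit 0, nat_lit 154, nat_lit 0, nat_lit 0, [nat_lit 2479495200, nat_lit 3800806401, nat_lit 4965026667], [], [nat_lit 21395986219, nat_lit 22410434183, nat_lit 28580397829, nat_lit 29354459061, nat_lit 21685986913, nat_lit 22598121527, nat_lit 28101698180, nat_lit 28817888258], nat_lit 0, nat_lit 0, nat_lit 0, nat_lit 0, nat_lit 0, nat_lit 0, [], [nat_lit 8, nat_lit 40, nat_lit 40, nat_lit 80, nat_lit 1, nat_lit 373, nat_lit 150, nat_lit 10]⟩, ⟨p054_k20, nat_lit 0, nat_lit 0, nat_lit 481, nat_lit 0, nat_lit 396925, [nat_lit 2275000000, nat_lit 3582488000, nat_lit 5117112000], [], [nat_lit 12999177220, nat_lit 13049809422, nat_lit 15246636400, nat_lit 15257931189, nat_lit 12217737282, nat_lit 12035356366, nat_lit 13467930745, nat_lit 13457319584], nat_lit 1271250, nat_lit 1271250, nat_lit 1271250, nat_lit 1271250, nat_lit 0, nat_lit 2457750, [nat_lit 1412500, nat_lit 1271250, nat_lit 1271250],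 [nat_lit 60, nat_lit 40, nat_lit 40, nat_lit 80, nat_lit 32, nat_lit 483, nat_lit 250, nat_lit 11]⟩,
 ⟨nat_lit 4472, nat_lit 5000, ⟨.ofNat (nat_lit 592840), .ofNat (nat_lit 857108), .ofNat (nat_lit 603547), .ofNat (nat_lit 867816), .ofNat (nat_lit 589527), .ofNat (nat_lit 841029), .ofNat (nat_lit 600304), .ofNat (nat_lit 851806)⟩, ⟨.ofNat (nat_lit 114284), .ofNat (nat_lit 257141), .ofNat (nat_lit 157141), .ofNat (nat_lit 299999), .ofNat (nat_lit 123532), .ofNat (nat_lit 259489), .ofNat (nat_lit 166665), .ofNat (nat_lit 302621)⟩⟩, [⟨nat_lit 22, nat_lit 90, nat_lit 93, nat_lit 100, nat_lit 49124260⟩]⟩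
noncomputable def p054_l99 : Lf2 := ⟨nat_lit 0, nat_lit 18, [nat_lit 100, nat_lit 5, nat_lit 5, nat_lit 20], false, nat_lit 80, nat_lit 160, nat_lit 0, nat_lit 344, ⟨nat_lit 428, nat_lit 572, nat_lit 0, nat_lit 6, nat_lit 296, nat_lit 572, nat_lit 84, nat_lit 0, nat_lit 0, nat_lit 0, nat_lit 0, nat_lit 0, nat_lit 40996400, nat_lit 22849409, nat_lit 3154191, nat_lit 4261814, true, true⟩,
 nat_lit 0, nat_lit 0, nat_lit 6350, nat_lit 0, nat_lit 4703, nat_lit 3197, nat_lit 513, nat_lit 0, nat_lit 0, nat_lit 607, nat_lit 0, nat_lit 0, nat_lit 0, nat_lit 0, nat_lit 0, nat_lit 228800, nat_lit 0, nat_lit 0, [(nat_lit 16, [(nat_lit 1, nat_lit 572)])],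
 ⟨p054_k19, nat_lit 0, nat_lit 0, nat_lit 156, nat_lit 0, nat_lit 0, [nat_lit 2560250401, nat_lit 4047266134, nat_lit 5453158400], [], [nat_lit 21568806763, nat_lit 22591861247, nat_lit 29051706166, nat_lit 29824442320, nat_lit 21833232877, nat_lit 22752538511, nat_lit 28513725957, nat_lit 29218317205], nat_lit 0, nat_lit 0, nat_lit 0, nat_lit 0, nat_lit 0, nat_lit 0, [], [nat_lit 8, nat_lit 40, nat_lit 40, nat_lit 80, nat_lit 1, nat_lit 373, nat_lit 150, nat_lit 10]⟩, ⟨p054_k21, nat_lit 0, nat_lit 0, nat_lit 541, nat_lit 0, nat_lit 448083, [nat_lit 2675000000, nat_lit 4212376000, nat_lit 6016824000], [], [nat_lit 15501730249, nat_lit 15542941066, nat_lit 17121095439, nat_lit 17121183113, nat_lit 14185055851, nat_lit 14179483380, nat_lit 14924552946, nat_lit 14914929240], nat_lit 1271250, nat_lit 1271250, nat_lit 1271250, nat_lit 1271250, nat_lit 0, nat_lit 2429500, [nat_lit 1412500, nat_lit 1271250, nat_lit 1271250],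 [nat_lit 60, nat_lit 40, nat_lit 40, nat_lit 80, nat_lit 32, nat_lit 483, nat_lit 250, nat_lit 11]⟩,
 ⟨nat_lit 4472, nat_lit 5000, ⟨.ofNat (nat_lit 603547), .ofNat (nat_lit 874958), .ofNat (nat_lit 614256), .ofNat (nat_lit 885667), .ofNat (nat_lit 600304), .ofNat (nat_lit 858603), .ofNat (nat_lit 611081), .ofNat (nat_lit 869380)⟩, ⟨.ofNat (nat_lit 114284), .ofNat (nat_lit 257141), .ofNat (nat_lit 157141), .ofNat (nat_lit 299999), .ofNat (nat_lit 123532), .ofNat (nat_lit 259489), .ofNat (nat_lit 166665), .ofNat (nat_lit 302621)⟩⟩, [⟨nat_lit 19, nat_lit 100, nat_lit 83, nat_lit 73, nat_lit 68372224⟩]⟩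
noncomputable def p054_l100 : Lf2 := ⟨nat_lit 0, nat_lit 18, [nat_lit 100, nat_lit 5, nat_lit 5, nat_lit 20], true, nat_lit 160, nat_lit 300, nat_lit 0, nat_lit 360, ⟨nat_lit 0, nat_lit 1000, nat_lit 0, nat_lit 6, nat_lit 266, nat_lit 1000, nat_lit 161, nat_lit 0, nat_lit 0, nat_lit 0, nat_lit 0, nat_lit 0, nat_lit 39883060, nat_lit 18689193, nat_lit 8427747, nat_lit 4972341, true, true⟩,
 nat_lit 0, nat_lit 0, nat_lit 0, nat_lit 5396, nat_lit 3847, nat_lit 0, nat_lit 0, nat_lit 0, nat_lit 0, nat_lit 0, nat_lit 0, nat_lit 0, nat_lit 0, nat_lit 0, nat_lit 0, nat_lit 250000, nat_lit 0, nat_lit 0, [(nat_lit 13, [(nat_lit 0, nat_lit 1000)]), (nat_lit 16, [(nat_lit 0, nat_lit 1000)])],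
 ⟨p054_k15, nat_lit 0, nat_lit 0, nat_lit 57, nat_lit 0, nat_lit 0, [nat_lit 2378400000, nat_lit 3128000000, nat_lit 3715520000], [], [nat_lit 17421742288, nat_lit 19945852720, nat_lit 21785526900, nat_lit 23855670624, nat_lit 22929422866, nat_lit 24820788412, nat_lit 26183584432, nat_lit 27752634601], nat_lit 0, nat_lit 0, nat_lit 0, nat_lit 0, nat_lit 0, nat_lit 0, [], [nat_lit 23, nat_lit 40, nat_lit 40, nat_lit 80, nat_lit 12, nat_lit 483, nat_lit 250, nat_lit 11]⟩, C1.Rw.none,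
 ⟨nat_lit 4472, nat_lit 5478, ⟨.ofNat (nat_lit 574895), .ofNat (nat_lit 724687), .ofNat (nat_lit 617523), .ofNat (nat_lit 767319), .ofNat (nat_lit 567940), .ofNat (nat_lit 703822), .ofNat (nat_lit 610987), .ofNat (nat_lit 746873)⟩, ⟨.ofNat (nat_lit 254209), .ofNat (nat_lit 516475), .ofNat (nat_lit 296923), .ofNat (nat_lit 559189), .ofNat (nat_lit 259489), .ofNat (nat_lit 497412), .ofNat (nat_lit 302621), .ofNat (nat_lit 540545)⟩⟩, [⟨nat_lit 4, nat_lit 100, nat_lit 90, nat_lit 74, nat_lit 192390867⟩]⟩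
noncomputable def p054_l101 : Lf2 := ⟨nat_lit 0, nat_lit 15, [nat_lit 30, nat_lit 5, nat_lit 5, nat_lit 20], true, nat_lit 160, nat_lit 300, nat_lit 16, nat_lit 360, ⟨nat_lit 0, nat_lit 1000, nat_lit 0, nat_lit 8, nat_lit 316, nat_lit 1000, nat_lit 161, nat_lit 0, nat_lit 0, nat_lit 0, nat_lit 0, nat_lit 0, nat_lit 36005043, nat_lit 23147508, nat_lit 7847449, nat_lit 5107284, true, true⟩,
 nat_lit 0, nat_lit 0, nat_lit 0, nat_lit 4656, nat_lit 4306, nat_lit 0, nat_lit 0, nat_lit 0, nat_lit 0, nat_lit 0, nat_lit 0, nat_lit 0, nat_lit 0, nat_lit 0, nat_lit 0, nat_lit 250000, nat_lit 0, nat_lit 0, [(nat_lit 13, [(nat_lit 0, nat_lit 1000)]), (nat_lit 16, [(nat_lit 0, nat_lit 1000)])],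
 ⟨p054_k22, nat_lit 0, nat_lit 0, nat_lit 86, nat_lit 0, nat_lit 0, [nat_lit 2378400000, nat_lit 2909733334, nat_lit 3539066666], [], [nat_lit 23748950598, nat_lit 25483144198, nat_lit 27634573301, nat_lit 29135201885, nat_lit 27345287098, nat_lit 28660572492, nat_lit 30539710509, nat_lit 31811915775], nat_lit 0, nat_lit 0, nat_lit 0, nat_lit 0, nat_lit 0, nat_lit 0, [], [nat_lit 8, nat_lit 40, nat_lit 40, nat_lit 80, nat_lit 1, nat_lit 289, nat_lit 75, nat_lit 7]⟩, C1.Rw.none,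
 ⟨nat_lit 4472, nat_lit 5478, ⟨.ofNat (nat_lit 724687), .ofNat (nat_lit 859499), .ofNat (nat_lit 746006), .ofNat (nat_lit 880822), .ofNat (nat_lit 703822), .ofNat (nat_lit 826115), .ofNat (nat_lit 725351), .ofNat (nat_lit 847648)⟩, ⟨.ofNat (nat_lit 254209), .ofNat (nat_lit 516475), .ofNat (nat_lit 296923), .ofNat (nat_lit 559189), .ofNat (nat_lit 259489), .ofNat (nat_lit 497412), .ofNat (nat_lit 302621), .ofNat (nat_lit 540545)⟩⟩, [⟨nat_lit 13, nat_lit 87, nat_lit 46, nat_lit 100, nat_lit 198472877⟩, ⟨nat_lit 16, nat_lit 90, nat_lit 100, nat_lit 74, nat_lit 131950958⟩]⟩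
noncomputable def p054_l102 : Lf2 := ⟨nat_lit 1, nat_lit 18, [nat_lit 100, nat_lit 5, nat_lit 5, nat_lit 20], false, nat_lit 160, nat_lit 300, nat_lit 16, nat_lit 360, zbN0,
 nat_lit 0, nat_lit 0, nat_lit 0, nat_lit 0, nat_lit 0, nat_lit 0, nat_lit 0, nat_lit 0, nat_lit 0, nat_lit 0, nat_lit 0, nat_lit 0, nat_lit 0, nat_lit 0, nat_lit 0, nat_lit 0, nat_lit 0, nat_lit 0, [],
 C1.Rw.none, C1.Rw.none,
 zbF0, []⟩
noncomputable def p054_l103 : Lf2 := ⟨nat_lit 0, nat_lit 18, [nat_lit 100, nat_lit 5, nat_lit 5, nat_lit 20], false, nat_lit 160, nat_lit 300, nat_lit 16, nat_lit 348, ⟨nat_lit 322, nat_lit 678, nat_lit 0, nat_lit 8, nat_lit 324, nat_lit 678, nat_lit 161, nat_lit 0, nat_lit 0, nat_lit 0, nat_lit 0, nat_lit 0, nat_lit 35417877, nat_lit 23829450, nat_lit 7752673, nat_lit 5117276, true, true⟩,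
 nat_lit 0, nat_lit 0, nat_lit 5764, nat_lit 0, nat_lit 5422, nat_lit 2756, nat_lit 0, nat_lit 0, nat_lit 0, nat_lit 314, nat_lit 0, nat_lit 0, nat_lit 0, nat_lit 0, nat_lit 0, nat_lit 169500, nat_lit 0, nat_lit 0, [(nat_lit 13, [(nat_lit 0, nat_lit 678)]), (nat_lit 16, [(nat_lit 0, nat_lit 678)])],
 ⟨p054_k15, nat_lit 0, nat_lit 0, nat_lit 88, nat_lit 0, nat_lit 0, [nat_lit 2669359200, nat_lit 4133284001, nat_lit 6304232560], [], [nat_lit 23630997417, nat_lit 25747915641, nat_lit 28763526965, nat_lit 30393860192, nat_lit 27680756695, nat_lit 29233591127, nat_lit 31837057165, nat_lit 33308603422], nat_lit 0, nat_lit 0, nat_lit 0, nat_lit 0, nat_lit 0, nat_lit 0, [], [nat_lit 23, nat_lit 40, nat_lit 40, nat_lit 80, nat_lit 12, nat_lit 401, nat_lit 175, nat_lit 9]⟩, ⟨p054_k20, nat_lit 0, nat_lit 0, nat_lit 469, nat_lit 0, nat_lit 396925, [nat_lit 2012500000, nat_lit 3169124000, nat_lit 4526676000], [], [nat_lit 12045217685,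 nat_lit 12077008441, nat_lit 13299556389, nat_lit 13304114685, nat_lit 11026710558, nat_lit 11032520413, nat_lit 11874906432, nat_lit 11861265043], nat_lit 1271250, nat_lit 1271250, nat_lit 1271250, nat_lit 1271250, nat_lit 88400, nat_lit 2482950, [nat_lit 1412500, nat_lit 1271250, nat_lit 1271250], [nat_lit 60, nat_lit 40, nat_lit 40, nat_lit 80, nat_lit 32, nat_lit 483, nat_lit 250, nat_lit 11]⟩,
 ⟨nat_lit 4472, nat_lit 5478, ⟨.ofNat (nat_lit 746006), .ofNat (nat_lit 888312), .ofNat (nat_lit 756663), .ofNat (nat_lit 898969), .ofNat (nat_lit 725351), .ofNat (nat_lit 854442), .ofNat (nat_lit 736112), .ofNat (nat_lit 865204)⟩, ⟨.ofNat (nat_lit 254209), .ofNat (nat_lit 516475), .ofNat (nat_lit 296923), .ofNat (nat_lit 559189), .ofNat (nat_lit 259489), .ofNat (nat_lit 497412), .ofNat (nat_lit 302621), .ofNat (nat_lit 540545)⟩⟩, [⟨nat_lit 13, nat_lit 80, nat_lit 52, nat_lit 100, nat_lit 184249670⟩, ⟨nat_lit 4, nat_lit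 100, nat_lit 90, nat_lit 74, nat_lit 247846624⟩, ⟨nat_lit 7, nat_lit 79, nat_lit 100, nat_lit 72, nat_lit 57485190⟩]⟩
noncomputable def p054_l104 : Lf2 := ⟨nat_lit 0, nat_lit 18, [nat_lit 100, nat_lit 5, nat_lit 5, nat_lit 20], false, nat_lit 160, nat_lit 300, nat_lit 16, nat_lit 344, ⟨nat_lit 1000, nat_lit 0, nat_lit 0, nat_lit 0, nat_lit 0, nat_lit 0, nat_lit 0, nat_lit 0, nat_lit 0, nat_lit 0, nat_lit 0, nat_lit 0, nat_lit 0, nat_lit 0, nat_lit 0, nat_lit 0, false, false⟩,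
 nat_lit 0, nat_lit 0, nat_lit 14688, nat_lit 0, nat_lit 6937, nat_lit 7397, nat_lit 0, nat_lit 0, nat_lit 0, nat_lit 1448, nat_lit 0, nat_lit 0, nat_lit 0, nat_lit 0, nat_lit 0, nat_lit 0, nat_lit 0, nat_lit 0, [],
 ⟨p054_k15, nat_lit 0, nat_lit 0, nat_lit 88, nat_lit 0, nat_lit 0, [nat_lit 3282000000, nat_lit 6250000000, nat_lit 11872000000], [], [nat_lit 24546057836, nat_lit 26933845940, nat_lit 30458020948, nat_lit 32250334339, nat_lit 28766025849, nat_lit 30467263621, nat_lit 33455912081, nat_lit 35047311201], nat_lit 0, nat_lit 0, nat_lit 0, nat_lit 0, nat_lit 0, nat_lit 0, [], [nat_lit 23, nat_lit 40, nat_lit 40, nat_lit 80, nat_lit 12, nat_lit 401, nat_lit 175, nat_lit 9]⟩, ⟨p054_k21, nat_lit 0, nat_lit 0, nat_lit 485, nat_lit 0, nat_lit 448083, [nat_lit 6250000000, nat_lit 9842000000, nat_lit 14058000000], [], [nat_lit 37128319846, nat_lit 37176466075, nat_lit 39407323069, nat_lit 39406094781, nat_lit 33796730136,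 nat_lit 33756315847, nat_lit 35116891852, nat_lit 35065641264], nat_lit 1271250, nat_lit 1271250, nat_lit 1271250, nat_lit 1271250, nat_lit 88400, nat_lit 2454100, [nat_lit 1412500, nat_lit 1271250, nat_lit 1271250], [nat_lit 60, nat_lit 40, nat_lit 40, nat_lit 80, nat_lit 32, nat_lit 483, nat_lit 250, nat_lit 11]⟩,
 zbF0, [⟨nat_lit 4, nat_lit 100, nat_lit 90, nat_lit 74, nat_lit 519247208⟩, ⟨nat_lit 7, nat_lit 83, nat_lit 100, nat_lit 73, nat_lit 176837359⟩]⟩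
noncomputable def b_V_700_500_10_11 : St := ⟨true, nat_lit 0, nat_lit 2, nat_lit 1, nat_lit 80, nat_lit 280, nat_lit 320, nat_lit 200, nat_lit 240, nat_lit 16, nat_lit 396, nat_lit 40, nat_lit 80, nat_lit 0, nat_lit 300, nat_lit 0, nat_lit 360, nat_lit 40, nat_lit 72, nat_lit 0, nat_lit 0, nat_lit 0, nat_lit 0⟩
theorem d_V_700_500_10_11 (h : EB TB.env) : Dead b_V_700_500_10_11 := chkB_sound0 h (T :=
(.st (nat_lit 1)
(.spl (nat_lit 2) (nat_lit 240)
(.spl (nat_lit 4) (nat_lit 160)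
(.spl (nat_lit 0) (nat_lit 300)
(.leaf p054_l82)
(.trZ (nat_lit 0) (nat_lit 100) (nat_lit 87) (nat_lit 50) (nat_lit 24) (.leaf p054_l83)))
(.spl (nat_lit 2) (nat_lit 160)
(.leaf p054_l84)
(.leaf p054_l85)))
(.spl (nat_lit 4) (nat_lit 160)
(.leaf p054_l86)
(.leaf p054_l87)))
(.spl (nat_lit 2) (nat_lit 240)
(.spl (nat_lit 4) (nat_lit 160)
(.spl (nat_lit 0) (nat_lit 300)
(.leaf p054_l88)
(.trZ (nat_lit 0) (nat_lit 100) (nat_lit 87) (nat_lit 50) (nat_lit 24) (.leaf p054_l89)))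
(.spl (nat_lit 2) (nat_lit 160)
(.leaf p054_l90)
(.leaf p054_l91)))
(.spl (nat_lit 4) (nat_lit 160)
(.spl (nat_lit 0) (nat_lit 300)
(.leaf p054_l92)
(.trX (nat_lit 13) (nat_lit 88) (nat_lit 32) (nat_lit 100) (nat_lit 392) (.spl (nat_lit 1) (nat_lit 220)
(.trX (nat_lit 13) (nat_lit 87) (nat_lit 41) (nat_lit 100) (nat_lit 384) (.spl (nat_lit 6) (nat_lit 60)
(.spl (nat_lit 4) (nat_lit 80)
(.trX (nat_lit 22) (nat_lit 100) (nat_lit 76) (nat_lit 82) (nat_lit 336) (.leaf p054_l93))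
(.leaf p054_l94))
(.leaf p054_l95)))
(.trX (nat_lit 19) (nat_lit 100) (nat_lit 68) (nat_lit 80) (nat_lit 348) (.spl (nat_lit 4) (nat_lit 80)
(.trX (nat_lit 22) (nat_lit 100) (nat_lit 76) (nat_lit 82) (nat_lit 336) (.spl (nat_lit 1) (nat_lit 230)
(.trX (nat_lit 13) (nat_lit 88) (nat_lit 37) (nat_lit 100) (nat_lit 388) (.leaf p054_l96))
(.leaf p054_l97)))
(.spl (nat_lit 1) (nat_lit 230)
(.trX (nat_lit 13) (nat_lit 88) (nat_lit 37) (nat_lit 100) (nat_lit 388) (.leaf p054_l98))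
(.trX (nat_lit 19) (nat_lit 100) (nat_lit 72) (nat_lit 81) (nat_lit 344) (.leaf p054_l99))))))))
(.spl (nat_lit 2) (nat_lit 320)
(.leaf p054_l100)
(.trZ (nat_lit 9) (nat_lit 100) (nat_lit 82) (nat_lit 44) (nat_lit 16) (.spl (nat_lit 1) (nat_lit 220)
(.trX (nat_lit 13) (nat_lit 92) (nat_lit 31) (nat_lit 100) (nat_lit 392) (.spl (nat_lit 6) (nat_lit 60)
(.leaf p054_l101)
(.leaf p054_l102)))
(.trX (nat_lit 19) (nat_lit 100) (nat_lit 68) (nat_lit 80) (nat_lit 348) (.spl (nat_lit 1) (nat_lit 230)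
(.leaf p054_l103)
(.trX (nat_lit 19) (nat_lit 100) (nat_lit 72) (nat_lit 81) (nat_lit 344) (.leaf p054_l104))))))))))) (by decide +kernel)
noncomputable def p054_l105 : Lf2 := ⟨nat_lit 0, nat_lit 18, [nat_lit 100, nat_lit 5, nat_lit 5, nat_lit 20], true, nat_lit 0, nat_lit 160, nat_lit 0, nat_lit 360, ⟨nat_lit 0, nat_lit 1000, nat_lit 0, nat_lit 5, nat_lit 213, nat_lit 946, nat_lit 56, nat_lit 0, nat_lit 0, nat_lit 0, nat_lit 0, nat_lit 0, nat_lit 0, nat_lit 0, nat_lit 0, nat_lit 5000000, false, true⟩,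
 nat_lit 0, nat_lit 0, nat_lit 0, nat_lit 9242, nat_lit 3971, nat_lit 0, nat_lit 0, nat_lit 0, nat_lit 0, nat_lit 0, nat_lit 0, nat_lit 0, nat_lit 0, nat_lit 0, nat_lit 0, nat_lit 652000, nat_lit 0, nat_lit 0, [(nat_lit 13, [(nat_lit 1, nat_lit 580), (nat_lit 2, nat_lit 420)]), (nat_lit 16, [(nat_lit 1, nat_lit 580), (nat_lit 2, nat_lit 420)])],
 ⟨p054_k11, nat_lit 0, nat_lit 0, nat_lit 373, nat_lit 0, nat_lit 0, [nat_lit 2548100000, nat_lit 2051888000, nat_lit 367040000], [], [nat_lit 25862989887, nat_lit 27668135166, nat_lit 31676619627, nat_lit 32601016202, nat_lit 24601436411, nat_lit 26152306655, nat_lit 29729805225, nat_lit 30687281449], nat_lit 0, nat_lit 0, nat_lit 0, nat_lit 0, nat_lit 0, nat_lit 0, [], [nat_lit 79, nat_lit 40, nat_lit 40, nat_lit 80, nat_lit 14, nat_lit 456, nat_lit 225, nat_lit 12]⟩, C1.Rw.none,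
 ⟨nat_lit 4472, nat_lit 5478, ⟨.ofNat (nat_lit 155307), .ofNat (nat_lit 866988), .ofNat (nat_lit 198021), .ofNat (nat_lit 909625), .ofNat (nat_lit 187299), .ofNat (nat_lit 832909), .ofNat (nat_lit 230432), .ofNat (nat_lit 875965)⟩, ⟨.negSucc (nat_lit 45522), .ofNat (nat_lit 254209), .negSucc (nat_lit 2834), .ofNat (nat_lit 296923), .negSucc (nat_lit 12423), .ofNat (nat_lit 259489), .ofNat (nat_lit 0), .ofNat (nat_lit 302621)⟩⟩, [⟨nat_lit 13, nat_lit 87, nat_lit 41, nat_lit 100, nat_lit 122432994⟩]⟩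
noncomputable def p054_l106 : Lf2 := ⟨nat_lit 0, nat_lit 18, [nat_lit 100, nat_lit 5, nat_lit 5, nat_lit 20], true, nat_lit 160, nat_lit 300, nat_lit 0, nat_lit 360, ⟨nat_lit 0, nat_lit 1000, nat_lit 0, nat_lit 5, nat_lit 213, nat_lit 1000, nat_lit 161, nat_lit 0, nat_lit 0, nat_lit 0, nat_lit 0, nat_lit 0, nat_lit 0, nat_lit 0, nat_lit 0, nat_lit 5000000, false, true⟩,
 nat_lit 0, nat_lit 0, nat_lit 0, nat_lit 9179, nat_lit 4339, nat_lit 0, nat_lit 138, nat_lit 0, nat_lit 0, nat_lit 0, nat_lit 0, nat_lit 0, nat_lit 0, nat_lit 0, nat_lit 0, nat_lit 459400, nat_lit 0, nat_lit 0, [(nat_lit 13, [(nat_lit 1, nat_lit 901), (nat_lit 2, nat_lit 99)]), (nat_lit 16, [(nat_lit 1, nat_lit 901), (nat_lit 2, nat_lit 99)])],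
 ⟨p054_k11, nat_lit 0, nat_lit 0, nat_lit 209, nat_lit 0, nat_lit 0, [nat_lit 2321795000, nat_lit 2637263601, nat_lit 1923248000], [], [nat_lit 21348260922, nat_lit 23703620122, nat_lit 28629818976, nat_lit 29791121579, nat_lit 26155078716, nat_lit 27926816556, nat_lit 31004364838, nat_lit 32065910268], nat_lit 0, nat_lit 0, nat_lit 0, nat_lit 0, nat_lit 0, nat_lit 0, [], [nat_lit 79, nat_lit 40, nat_lit 40, nat_lit 80, nat_lit 14, nat_lit 538, nat_lit 300, nat_lit 14]⟩, C1.Rw.none,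
 ⟨nat_lit 4472, nat_lit 5478, ⟨.ofNat (nat_lit 155307), .ofNat (nat_lit 866988), .ofNat (nat_lit 198021), .ofNat (nat_lit 909625), .ofNat (nat_lit 187299), .ofNat (nat_lit 832909), .ofNat (nat_lit 230432), .ofNat (nat_lit 875965)⟩, ⟨.ofNat (nat_lit 254209), .ofNat (nat_lit 516475), .ofNat (nat_lit 296923), .ofNat (nat_lit 559189), .ofNat (nat_lit 259489), .ofNat (nat_lit 497412), .ofNat (nat_lit 302621), .ofNat (nat_lit 540545)⟩⟩, [⟨nat_lit 13, nat_lit 87, nat_lit 41, nat_lit 100, nat_lit 116428520⟩, ⟨nat_lit 4, nat_lit 100, nat_lit 90, nat_lit 74, nat_lit 261911356⟩]⟩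
noncomputable def p054_l107 : Lf2 := ⟨nat_lit 0, nat_lit 18, [nat_lit 100, nat_lit 5, nat_lit 5, nat_lit 20], true, nat_lit 0, nat_lit 160, nat_lit 0, nat_lit 360, ⟨nat_lit 0, nat_lit 1000, nat_lit 0, nat_lit 5, nat_lit 213, nat_lit 946, nat_lit 56, nat_lit 0, nat_lit 0, nat_lit 0, nat_lit 0, nat_lit 0, nat_lit 0, nat_lit 0, nat_lit 0, nat_lit 5000000, false, true⟩,
 nat_lit 0, nat_lit 0, nat_lit 0, nat_lit 9242, nat_lit 3971, nat_lit 0, nat_lit 0, nat_lit 0, nat_lit 0, nat_lit 0, nat_lit 0, nat_lit 0, nat_lit 0, nat_lit 0, nat_lit 0, nat_lit 652000, nat_lit 0, nat_lit 0, [(nat_lit 13, [(nat_lit 1, nat_lit 580), (nat_lit 2, nat_lit 420)]), (nat_lit 16, [(nat_lit 1, nat_lit 580), (nat_lit 2, nat_lit 420)])],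
 ⟨p054_k11, nat_lit 0, nat_lit 0, nat_lit 373, nat_lit 0, nat_lit 0, [nat_lit 2548100000, nat_lit 2051888000, nat_lit 367040000], [], [nat_lit 25862989887, nat_lit 27668135166, nat_lit 31676619627, nat_lit 32601016202, nat_lit 24601436411, nat_lit 26152306655, nat_lit 29729805225, nat_lit 30687281449], nat_lit 0, nat_lit 0, nat_lit 0, nat_lit 0, nat_lit 0, nat_lit 0, [], [nat_lit 79, nat_lit 40, nat_lit 40, nat_lit 80, nat_lit 14, nat_lit 456, nat_lit 225, nat_lit 12]⟩, C1.Rw.none,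
 ⟨nat_lit 4472, nat_lit 5478, ⟨.ofNat (nat_lit 155307), .ofNat (nat_lit 866988), .ofNat (nat_lit 198021), .ofNat (nat_lit 909625), .ofNat (nat_lit 187299), .ofNat (nat_lit 832909), .ofNat (nat_lit 230432), .ofNat (nat_lit 875965)⟩, ⟨.negSucc (nat_lit 45522), .ofNat (nat_lit 254209), .negSucc (nat_lit 2834), .ofNat (nat_lit 296923), .negSucc (nat_lit 12423), .ofNat (nat_lit 259489), .ofNat (nat_lit 0), .ofNat (nat_lit 302621)⟩⟩, [⟨nat_lit 13, nat_lit 87, nat_lit 41, nat_lit 100, nat_lit 122432994⟩]⟩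
noncomputable def p054_l108 : Lf2 := ⟨nat_lit 0, nat_lit 18, [nat_lit 100, nat_lit 5, nat_lit 5, nat_lit 20], true, nat_lit 160, nat_lit 300, nat_lit 0, nat_lit 360, ⟨nat_lit 0, nat_lit 1000, nat_lit 0, nat_lit 5, nat_lit 213, nat_lit 1000, nat_lit 161, nat_lit 0, nat_lit 0, nat_lit 0, nat_lit 0, nat_lit 0, nat_lit 0, nat_lit 0, nat_lit 0, nat_lit 5000000, false, true⟩,
 nat_lit 0, nat_lit 0, nat_lit 0, nat_lit 8445, nat_lit 4705, nat_lit 0, nat_lit 0, nat_lit 0, nat_lit 0, nat_lit 0, nat_lit 0, nat_lit 0, nat_lit 0, nat_lit 0, nat_lit 0, nat_lit 525400, nat_lit 0, nat_lit 0, [(nat_lit 13, [(nat_lit 1, nat_lit 791), (nat_lit 2, nat_lit 209)]), (nat_lit 16, [(nat_lit 1, nat_lit 791), (nat_lit 2, nat_lit 209)])],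
 ⟨p054_k13, nat_lit 0, nat_lit 0, nat_lit 191, nat_lit 0, nat_lit 0, [nat_lit 3109390001, nat_lit 1640990666], [], [nat_lit 22943019032, nat_lit 25186023028, nat_lit 29767326158, nat_lit 30849196925, nat_lit 27497558503, nat_lit 29242941461, nat_lit 31606051368, nat_lit 32485729840], nat_lit 0, nat_lit 0, nat_lit 0, nat_lit 0, nat_lit 0, nat_lit 0, [], [nat_lit 135, nat_lit 40, nat_lit 40, nat_lit 80, nat_lit 134, nat_lit 538, nat_lit 300, nat_lit 14]⟩, C1.Rw.none,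
 ⟨nat_lit 4472, nat_lit 5478, ⟨.ofNat (nat_lit 155307), .ofNat (nat_lit 866988), .ofNat (nat_lit 198021), .ofNat (nat_lit 909625), .ofNat (nat_lit 187299), .ofNat (nat_lit 832909), .ofNat (nat_lit 230432), .ofNat (nat_lit 875965)⟩, ⟨.ofNat (nat_lit 254209), .ofNat (nat_lit 516475), .ofNat (nat_lit 296923), .ofNat (nat_lit 559189), .ofNat (nat_lit 259489), .ofNat (nat_lit 497412), .ofNat (nat_lit 302621), .ofNat (nat_lit 540545)⟩⟩, [⟨nat_lit 13, nat_lit 87, nat_lit 41, nat_lit 100, nat_lit 102828992⟩, ⟨nat_lit 4, nat_lit 100, nat_lit 90, nat_lit 74, nat_lit 227566162⟩]⟩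
noncomputable def b_V_700_500_10_12 : St := ⟨true, nat_lit 0, nat_lit 2, nat_lit 2, nat_lit 80, nat_lit 280, nat_lit 320, nat_lit 200, nat_lit 240, nat_lit 16, nat_lit 396, nat_lit 40, nat_lit 80, nat_lit 0, nat_lit 300, nat_lit 0, nat_lit 360, nat_lit 40, nat_lit 72, nat_lit 0, nat_lit 0, nat_lit 0, nat_lit 0⟩
theorem d_V_700_500_10_12 (h : EB TB.env) : Dead b_V_700_500_10_12 := chkB_sound0 h (T :=
(.st (nat_lit 1)
(.spl (nat_lit 4) (nat_lit 160)
(.leaf p054_l105)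
(.leaf p054_l106))
(.spl (nat_lit 4) (nat_lit 160)
(.leaf p054_l107)
(.leaf p054_l108)))) (by decide +kernel)
noncomputable def p054_l109 : Lf2 := ⟨nat_lit 0, nat_lit 12, [nat_lit 126, nat_lit 5, nat_lit 5, nat_lit 20], true, nat_lit 0, nat_lit 160, nat_lit 0, nat_lit 360, ⟨nat_lit 0, nat_lit 0, nat_lit 1000, nat_lit 5, nat_lit 127, nat_lit 1000, nat_lit 55, nat_lit 1000, nat_lit 25350, nat_lit 254, nat_lit 91267, nat_lit 289, nat_lit 60900133, nat_lit 0, nat_lit 0, nat_lit 1524716, false, false⟩,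
 nat_lit 0, nat_lit 4823, nat_lit 0, nat_lit 6738, nat_lit 3069, nat_lit 0, nat_lit 0, nat_lit 0, nat_lit 0, nat_lit 0, nat_lit 0, nat_lit 0, nat_lit 0, nat_lit 0, nat_lit 145, nat_lit 638800, nat_lit 0, nat_lit 0, [(nat_lit 13, [(nat_lit 5, nat_lit 602), (nat_lit 6, nat_lit 398)])],
 ⟨p054_k23, nat_lit 0, nat_lit 0, nat_lit 314, nat_lit 0, nat_lit 48152, [nat_lit 2947150667, nat_lit 2126888801, nat_lit 4040000], [], [nat_lit 15123969986, nat_lit 16219526934, nat_lit 15692543515, nat_lit 16801399241, nat_lit 15453159626, nat_lit 16551312168, nat_lit 20631922381, nat_lit 19223951113], nat_lit 1271250, nat_lit 1271250, nat_lit 88400, nat_lit 1100001, nat_lit 0, nat_lit 1100001, [nat_lit 780000, nat_lit 1435000, nat_lit 1271250], [nat_lit 8, nat_lit 40, nat_lit 40, nat_lit 80, nat_lit 1, nat_lit 317, nat_lit 100, nat_lit 9]⟩, C1.Rw.none,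
 ⟨nat_lit 5000, nat_lit 5478, ⟨.ofNat (nat_lit 155307), .ofNat (nat_lit 425065), .ofNat (nat_lit 198021), .ofNat (nat_lit 467773), .ofNat (nat_lit 171427), .ofNat (nat_lit 428570), .ofNat (nat_lit 214284), .ofNat (nat_lit 471421)⟩, ⟨.negSucc (nat_lit 45522), .ofNat (nat_lit 254209), .negSucc (nat_lit 2832), .ofNat (nat_lit 296923), .negSucc (nat_lit 28572), .ofNat (nat_lit 257141), .ofNat (nat_lit 0), .ofNat (nat_lit 299999)⟩⟩, []⟩
noncomputable def p054_l110 : Lf2 := ⟨nat_lit 0, nat_lit 12, [nat_lit 126, nat_lit 5, nat_lit 5, nat_lit 20], true, nat_lit 0, nat_lit 160, nat_lit 0, nat_lit 360, ⟨nat_lit 0, nat_lit 0, nat_lit 1000, nat_lit 5, nat_lit 209, nat_lit 639, nat_lit 55, nat_lit 1000, nat_lit 25350, nat_lit 254, nat_lit 1350, nat_lit 206, nat_lit 52679751, nat_lit 0, nat_lit 0, nat_lit 2594316, false, false⟩,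
 nat_lit 0, nat_lit 4945, nat_lit 0, nat_lit 950, nat_lit 3146, nat_lit 0, nat_lit 0, nat_lit 0, nat_lit 0, nat_lit 0, nat_lit 0, nat_lit 0, nat_lit 0, nat_lit 0, nat_lit 126, nat_lit 554800, nat_lit 0, nat_lit 0, [(nat_lit 13, [(nat_lit 5, nat_lit 742), (nat_lit 6, nat_lit 258)])],
 ⟨p054_k23, nat_lit 0, nat_lit 0, nat_lit 180, nat_lit 0, nat_lit 48152, [nat_lit 2734364001, nat_lit 1829638134, nat_lit 6840000], [], [nat_lit 15459032745, nat_lit 16515467473, nat_lit 17797401121, nat_lit 18718778913, nat_lit 15507949401, nat_lit 16414275757, nat_lit 17858449306, nat_lit 18897896886], nat_lit 1271250, nat_lit 1271250, nat_lit 1100001, nat_lit 1785000, nat_lit 0, nat_lit 1100001, [nat_lit 780000, nat_lit 1435000, nat_lit 1271250], [nat_lit 8, nat_lit 40, nat_lit 40, nat_lit 80, nat_lit 1, nat_lit 317, nat_lit 100, nat_lit 9]⟩, C1.Rw.none,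
 ⟨nat_lit 5000, nat_lit 5478, ⟨.ofNat (nat_lit 425065), .ofNat (nat_lit 574920), .ofNat (nat_lit 467773), .ofNat (nat_lit 617614), .ofNat (nat_lit 428570), .ofNat (nat_lit 571415), .ofNat (nat_lit 471421), .ofNat (nat_lit 614253)⟩, ⟨.negSucc (nat_lit 45522), .ofNat (nat_lit 254209), .negSucc (nat_lit 2832), .ofNat (nat_lit 296923), .negSucc (nat_lit 28572), .ofNat (nat_lit 257141), .ofNat (nat_lit 0), .ofNat (nat_lit 299999)⟩⟩, []⟩
noncomputable def p054_l111 : Lf2 := ⟨nat_lit 1, nat_lit 18, [nat_lit 100, nat_lit 5, nat_lit 5, nat_lit 20], false, nat_lit 0, nat_lit 160, nat_lit 0, nat_lit 360, zbN0,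
 nat_lit 0, nat_lit 0, nat_lit 0, nat_lit 0, nat_lit 0, nat_lit 0, nat_lit 0, nat_lit 0, nat_lit 0, nat_lit 0, nat_lit 0, nat_lit 0, nat_lit 0, nat_lit 0, nat_lit 0, nat_lit 0, nat_lit 0, nat_lit 0, [],
 C1.Rw.none, C1.Rw.none,
 zbF0, []⟩
noncomputable def p054_l112 : Lf2 := ⟨nat_lit 0, nat_lit 18, [nat_lit 100, nat_lit 5, nat_lit 5, nat_lit 20], true, nat_lit 0, nat_lit 160, nat_lit 0, nat_lit 360, ⟨nat_lit 0, nat_lit 0, nat_lit 1000, nat_lit 5, nat_lit 118, nat_lit 797, nat_lit 56, nat_lit 1000, nat_lit 26667, nat_lit 255, nat_lit 132017, nat_lit 304, nat_lit 61614314, nat_lit 0, nat_lit 0, nat_lit 1398519, false, false⟩,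
 nat_lit 0, nat_lit 4549, nat_lit 0, nat_lit 732, nat_lit 3149, nat_lit 0, nat_lit 0, nat_lit 0, nat_lit 0, nat_lit 0, nat_lit 0, nat_lit 0, nat_lit 0, nat_lit 0, nat_lit 137, nat_lit 511000, nat_lit 0, nat_lit 0, [(nat_lit 16, [(nat_lit 5, nat_lit 815), (nat_lit 6, nat_lit 185)])],
 ⟨p054_k19, nat_lit 0, nat_lit 0, nat_lit 341, nat_lit 0, nat_lit 145174, [nat_lit 2904240000, nat_lit 1524308001, nat_lit 42936000], [], [nat_lit 16337776037, nat_lit 16947590791, nat_lit 16183565572, nat_lit 16688024384, nat_lit 16400000188, nat_lit 16940924250, nat_lit 16674546192, nat_lit 17241165322], nat_lit 1271250, nat_lit 1271250, nat_lit 134400, nat_lit 780000, nat_lit 0, nat_lit 1100001, [nat_lit 780000, nat_lit 1435000, nat_lit 1271250], [nat_lit 8, nat_lit 40, nat_lit 40, nat_lit 80, nat_lit 1, nat_lit 289, nat_lit 75, nat_lit 9]⟩, C1.Rw.none,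
 ⟨nat_lit 4743, nat_lit 5000, ⟨.ofNat (nat_lit 185713), .ofNat (nat_lit 357141), .ofNat (nat_lit 228570), .ofNat (nat_lit 399997), .ofNat (nat_lit 193320), .ofNat (nat_lit 360599), .ofNat (nat_lit 236296), .ofNat (nat_lit 403574)⟩, ⟨.negSucc (nat_lit 28572), .ofNat (nat_lit 257141), .ofNat (nat_lit 0), .ofNat (nat_lit 299999), .negSucc (nat_lit 20404), .ofNat (nat_lit 258394), .ofNat (nat_lit 0), .ofNat (nat_lit 301370)⟩⟩, [⟨nat_lit 0, nat_lit 100, nat_lit 85, nat_lit 72, nat_lit 117627413⟩]⟩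
noncomputable def p054_l113 : Lf2 := ⟨nat_lit 0, nat_lit 18, [nat_lit 100, nat_lit 5, nat_lit 5, nat_lit 20], true, nat_lit 0, nat_lit 160, nat_lit 0, nat_lit 360, ⟨nat_lit 0, nat_lit 0, nat_lit 1000, nat_lit 5, nat_lit 123, nat_lit 1000, nat_lit 56, nat_lit 1000, nat_lit 28017, nat_lit 256, nat_lit 141067, nat_lit 307, nat_lit 61190575, nat_lit 0, nat_lit 0, nat_lit 1474266, false, false⟩,
 nat_lit 0, nat_lit 4591, nat_lit 0, nat_lit 0, nat_lit 3309, nat_lit 0, nat_lit 0, nat_lit 0, nat_lit 0, nat_lit 0, nat_lit 0, nat_lit 0, nat_lit 0, nat_lit 0, nat_lit 129, nat_lit 481000, nat_lit 0, nat_lit 0, [(nat_lit 16, [(nat_lit 5, nat_lit 865), (nat_lit 6, nat_lit 135)])],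
 ⟨p054_k24, nat_lit 0, nat_lit 0, nat_lit 367, nat_lit 0, nat_lit 236700, [nat_lit 2825040001, nat_lit 1431468001, nat_lit 59656000], [], [nat_lit 17356479188, nat_lit 17861679955, nat_lit 17379218132, nat_lit 17842487147, nat_lit 17424351034, nat_lit 17855196833, nat_lit 20467571460, nat_lit 19728009960], nat_lit 1271250, nat_lit 1271250, nat_lit 181601, nat_lit 780000, nat_lit 0, nat_lit 1100001, [nat_lit 780000, nat_lit 1435000, nat_lit 1271250], [nat_lit 8, nat_lit 40, nat_lit 40, nat_lit 80, nat_lit 1, nat_lit 289, nat_lit 75, nat_lit 9]⟩, C1.Rw.none,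
 ⟨nat_lit 4472, nat_lit 4744, ⟨.ofNat (nat_lit 207259), .ofNat (nat_lit 360599), .ofNat (nat_lit 250233), .ofNat (nat_lit 403571), .ofNat (nat_lit 214490), .ofNat (nat_lit 364042), .ofNat (nat_lit 257620), .ofNat (nat_lit 407171)⟩, ⟨.negSucc (nat_lit 20404), .ofNat (nat_lit 258394), .ofNat (nat_lit 0), .ofNat (nat_lit 301370), .negSucc (nat_lit 12423), .ofNat (nat_lit 259489), .ofNat (nat_lit 0), .ofNat (nat_lit 302621)⟩⟩, [⟨nat_lit 0, nat_lit 100, nat_lit 82, nat_lit 76, nat_lit 21221658⟩]⟩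
noncomputable def p054_l114 : Lf2 := ⟨nat_lit 0, nat_lit 18, [nat_lit 100, nat_lit 5, nat_lit 5, nat_lit 20], true, nat_lit 0, nat_lit 160, nat_lit 0, nat_lit 360, ⟨nat_lit 0, nat_lit 0, nat_lit 1000, nat_lit 5, nat_lit 194, nat_lit 662, nat_lit 56, nat_lit 1000, nat_lit 26667, nat_lit 255, nat_lit 1067, nat_lit 207, nat_lit 54191174, nat_lit 0, nat_lit 0, nat_lit 2439620, false, false⟩,
 nat_lit 0, nat_lit 4522, nat_lit 0, nat_lit 16, nat_lit 3130, nat_lit 0, nat_lit 0, nat_lit 0, nat_lit 0, nat_lit 0, nat_lit 0, nat_lit 0, nat_lit 0, nat_lit 0, nat_lit 123, nat_lit 454600, nat_lit 0, nat_lit 0, [(nat_lit 16, [(nat_lit 5, nat_lit 909), (nat_lit 6, nat_lit 91)])],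
 ⟨p054_k19, nat_lit 0, nat_lit 0, nat_lit 226, nat_lit 0, nat_lit 145174, [nat_lit 2767824001, nat_lit 1370568801, nat_lit 103489600], [], [nat_lit 16113239321, nat_lit 16669895421, nat_lit 18980784961, nat_lit 19440643841, nat_lit 16084258681, nat_lit 16561244701, nat_lit 19066328022, nat_lit 19584993972], nat_lit 1271250, nat_lit 1271250, nat_lit 780000, nat_lit 1762500, nat_lit 0, nat_lit 1100001, [nat_lit 780000, nat_lit 1435000, nat_lit 1271250], [nat_lit 8, nat_lit 40, nat_lit 40, nat_lit 80, nat_lit 1, nat_lit 317, nat_lit 100, nat_lit 9]⟩, C1.Rw.none,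
 ⟨nat_lit 4743, nat_lit 5000, ⟨.ofNat (nat_lit 357141), .ofNat (nat_lit 571426), .ofNat (nat_lit 399997), .ofNat (nat_lit 614278), .ofNat (nat_lit 360599), .ofNat (nat_lit 569697), .ofNat (nat_lit 403574), .ofNat (nat_lit 612668)⟩, ⟨.negSucc (nat_lit 28572), .ofNat (nat_lit 257141), .ofNat (nat_lit 0), .ofNat (nat_lit 299999), .negSucc (nat_lit 20404), .ofNat (nat_lit 258394), .ofNat (nat_lit 0), .ofNat (nat_lit 301370)⟩⟩, []⟩
noncomputable def p054_l115 : Lf2 := ⟨nat_lit 0, nat_lit 18, [nat_lit 100, nat_lit 5, nat_lit 5, nat_lit 20], false, nat_lit 0, nat_lit 160, nat_lit 0, nat_lit 360, ⟨nat_lit 233, nat_lit 0, nat_lit 767, nat_lit 5, nat_lit 195, nat_lit 767, nat_lit 56, nat_lit 767, nat_lit 28017, nat_lit 256, nat_lit 3100, nat_lit 208, nat_lit 54151487, nat_lit 0, nat_lit 0, nat_lit 2443887, false, false⟩,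
 nat_lit 0, nat_lit 6540, nat_lit 0, nat_lit 0, nat_lit 4714, nat_lit 2952, nat_lit 318, nat_lit 0, nat_lit 0, nat_lit 271, nat_lit 0, nat_lit 0, nat_lit 0, nat_lit 0, nat_lit 4, nat_lit 306800, nat_lit 0, nat_lit 0, [(nat_lit 16, [(nat_lit 5, nat_lit 767)])],
 ⟨p054_k24, nat_lit 0, nat_lit 0, nat_lit 316, nat_lit 0, nat_lit 236700, [nat_lit 1826986800, nat_lit 794407600, nat_lit 179045200], [], [nat_lit 17750561656, nat_lit 18495252558, nat_lit 21601905434, nat_lit 22513746720, nat_lit 15467057874, nat_lit 16099443750, nat_lit 22760695476, nat_lit 21707116476], nat_lit 1271250, nat_lit 1271250, nat_lit 780000, nat_lit 1762500, nat_lit 0, nat_lit 1100001, [nat_lit 780000, nat_lit 1435000, nat_lit 1271250], [nat_lit 8, nat_lit 40, nat_lit 40, nat_lit 80, nat_lit 1, nat_lit 317, nat_lit 100, nat_lit 9]⟩, ⟨p054_k16, nat_lit 0, nat_lit 0, nat_lit 270, nat_lit 0, nat_lit 0, [nat_lit 1456250000, nat_lit 2293186000, nat_lit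 3275514000], [], [nat_lit 7221449398, nat_lit 7755165726, nat_lit 7728423062, nat_lit 8092130770, nat_lit 7280442392, nat_lit 7388030302, nat_lit 6916842626, nat_lit 6938934192], nat_lit 0, nat_lit 0, nat_lit 0, nat_lit 0, nat_lit 0, nat_lit 0, [], [nat_lit 60, nat_lit 40, nat_lit 40, nat_lit 80, nat_lit 32, nat_lit 456, nat_lit 225, nat_lit 11]⟩,
 ⟨nat_lit 4472, nat_lit 4744, ⟨.ofNat (nat_lit 360599), .ofNat (nat_lit 569698), .ofNat (nat_lit 403571), .ofNat (nat_lit 612668), .ofNat (nat_lit 364042), .ofNat (nat_lit 567976), .ofNat (nat_lit 407171), .ofNat (nat_lit 611103)⟩, ⟨.negSucc (nat_lit 20404), .ofNat (nat_lit 258394), .ofNat (nat_lit 0), .ofNat (nat_lit 301370), .negSucc (nat_lit 12423), .ofNat (nat_lit 259489), .ofNat (nat_lit 0), .ofNat (nat_lit 302621)⟩⟩, [⟨nat_lit 7, nat_lit 77, nat_lit 100, nat_lit 72, nat_lit 40782847⟩]⟩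
noncomputable def p054_l116 : Lf2 := ⟨nat_lit 0, nat_lit 18, [nat_lit 100, nat_lit 5, nat_lit 5, nat_lit 20], true, nat_lit 160, nat_lit 300, nat_lit 0, nat_lit 360, ⟨nat_lit 0, nat_lit 0, nat_lit 1000, nat_lit 5, nat_lit 112, nat_lit 1000, nat_lit 162, nat_lit 1000, nat_lit 3701, nat_lit 228, nat_lit 117600, nat_lit 299, nat_lit 52003814, nat_lit 0, nat_lit 0, nat_lit 3612393, false, false⟩,
 nat_lit 0, nat_lit 5040, nat_lit 0, nat_lit 5963, nat_lit 3207, nat_lit 0, nat_lit 255, nat_lit 0, nat_lit 0, nat_lit 0, nat_lit 0, nat_lit 0, nat_lit 0, nat_lit 0, nat_lit 95, nat_lit 400000, nat_lit 0, nat_lit 0, [(nat_lit 13, [(nat_lit 5, nat_lit 1000)])],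
 ⟨p054_k11, nat_lit 0, nat_lit 0, nat_lit 221, nat_lit 0, nat_lit 48665, [nat_lit 2390400000, nat_lit 848000001, nat_lit 358000000], [], [nat_lit 15441982341, nat_lit 16403888875, nat_lit 15111544069, nat_lit 16159057679, nat_lit 20521154858, nat_lit 21793561323, nat_lit 21191848638, nat_lit 20879764166], nat_lit 1271250, nat_lit 1271250, nat_lit 88400, nat_lit 780000, nat_lit 1100001, nat_lit 2298750, [nat_lit 780000, nat_lit 1762500, nat_lit 1271250], [nat_lit 79, nat_lit 40, nat_lit 40, nat_lit 80, nat_lit 14, nat_lit 428, nat_lit 200, nat_lit 11]⟩, C1.Rw.none,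
 ⟨nat_lit 5000, nat_lit 5478, ⟨.ofNat (nat_lit 155307), .ofNat (nat_lit 350132), .ofNat (nat_lit 198021), .ofNat (nat_lit 392847), .ofNat (nat_lit 171427), .ofNat (nat_lit 357141), .ofNat (nat_lit 214284), .ofNat (nat_lit 399998)⟩, ⟨.ofNat (nat_lit 254209), .ofNat (nat_lit 516475), .ofNat (nat_lit 296923), .ofNat (nat_lit 559189), .ofNat (nat_lit 257141), .ofNat (nat_lit 507141), .ofNat (nat_lit 299999), .ofNat (nat_lit 549998)⟩⟩, [⟨nat_lit 0, nat_lit 100, nat_lit 88, nat_lit 68, nat_lit 115170289⟩, ⟨nat_lit 4, nat_lit 100, nat_lit 94, nat_lit 75, nat_lit 280158141⟩]⟩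
noncomputable def p054_l117 : Lf2 := ⟨nat_lit 0, nat_lit 18, [nat_lit 100, nat_lit 5, nat_lit 5, nat_lit 20], true, nat_lit 160, nat_lit 280, nat_lit 0, nat_lit 360, ⟨nat_lit 0, nat_lit 0, nat_lit 1000, nat_lit 5, nat_lit 119, nat_lit 1000, nat_lit 154, nat_lit 1000, nat_lit 24746, nat_lit 252, nat_lit 135000, nat_lit 305, nat_lit 52193310, nat_lit 0, nat_lit 0, nat_lit 3612251, false, false⟩,
 nat_lit 0, nat_lit 5173, nat_lit 0, nat_lit 1497, nat_lit 3581, nat_lit 0, nat_lit 0, nat_lit 0, nat_lit 0, nat_lit 0, nat_lit 0, nat_lit 0, nat_lit 0, nat_lit 0, nat_lit 109, nat_lit 400000, nat_lit 0, nat_lit 0, [(nat_lit 16, [(nat_lit 5, nat_lit 1000)])],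
 ⟨p054_k19, nat_lit 0, nat_lit 0, nat_lit 285, nat_lit 0, nat_lit 250307, [nat_lit 2630400000, nat_lit 1212800000, nat_lit 149600000], [], [nat_lit 17939055437, nat_lit 17575755566, nat_lit 16302878270, nat_lit 17207253924, nat_lit 20721337247, nat_lit 22131096249, nat_lit 21056110215, nat_lit 20995018388], nat_lit 1271250, nat_lit 1271250, nat_lit 134400, nat_lit 780000, nat_lit 1100001, nat_lit 2127500, [nat_lit 780000, nat_lit 1435000, nat_lit 1271250], [nat_lit 8, nat_lit 40, nat_lit 40, nat_lit 80, nat_lit 1, nat_lit 317, nat_lit 100, nat_lit 9]⟩, C1.Rw.none,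
 ⟨nat_lit 4472, nat_lit 5000, ⟨.ofNat (nat_lit 185713), .ofNat (nat_lit 357141), .ofNat (nat_lit 228562), .ofNat (nat_lit 399984), .ofNat (nat_lit 200895), .ofNat (nat_lit 364042), .ofNat (nat_lit 244020), .ofNat (nat_lit 407160)⟩, ⟨.ofNat (nat_lit 257141), .ofNat (nat_lit 471427), .ofNat (nat_lit 299999), .ofNat (nat_lit 514284), .ofNat (nat_lit 259489), .ofNat (nat_lit 463423), .ofNat (nat_lit 302621), .ofNat (nat_lit 506556)⟩⟩, [⟨nat_lit 0, nat_lit 100, nat_lit 82, nat_lit 76, nat_lit 171848464⟩, ⟨nat_lit 4, nat_lit 100, nat_lit 85, nat_lit 73, nat_lit 262388758⟩]⟩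
noncomputable def p054_l118 : Lf2 := ⟨nat_lit 0, nat_lit 18, [nat_lit 100, nat_lit 5, nat_lit 5, nat_lit 20], true, nat_lit 160, nat_lit 300, nat_lit 0, nat_lit 360, ⟨nat_lit 0, nat_lit 1000, nat_lit 0, nat_lit 5, nat_lit 194, nat_lit 1000, nat_lit 162, nat_lit 0, nat_lit 0, nat_lit 0, nat_lit 0, nat_lit 0, nat_lit 45651278, nat_lit 12172411, nat_lit 9176311, nat_lit 4530984, false, false⟩,
 nat_lit 0, nat_lit 7280, nat_lit 0, nat_lit 296, nat_lit 4632, nat_lit 0, nat_lit 0, nat_lit 0, nat_lit 0, nat_lit 0, nat_lit 0, nat_lit 0, nat_lit 0, nat_lit 0, nat_lit 0, nat_lit 250000, nat_lit 0, nat_lit 0, [(nat_lit 13, [(nat_lit 0, nat_lit 1000)])],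
 ⟨p054_k15, nat_lit 0, nat_lit 0, nat_lit 113, nat_lit 0, nat_lit 48665, [nat_lit 2378400000, nat_lit 3128000000, nat_lit 3715520000], [], [nat_lit 12162807744, nat_lit 13894698448, nat_lit 16525824928, nat_lit 17909184624, nat_lit 19797351704, nat_lit 21189406356, nat_lit 22724485456, nat_lit 23847507228], nat_lit 1271250, nat_lit 1271250, nat_lit 780000, nat_lit 1762500, nat_lit 1271250, nat_lit 1271250, [nat_lit 780000, nat_lit 1435000, nat_lit 1271250], [nat_lit 23, nat_lit 40, nat_lit 40, nat_lit 80, nat_lit 12, nat_lit 456, nat_lit 225, nat_lit 11]⟩, C1.Rw.none,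
 ⟨nat_lit 5000, nat_lit 5478, ⟨.ofNat (nat_lit 350132), .ofNat (nat_lit 574920), .ofNat (nat_lit 392847), .ofNat (nat_lit 617614), .ofNat (nat_lit 357141), .ofNat (nat_lit 571415), .ofNat (nat_lit 399998), .ofNat (nat_lit 614253)⟩, ⟨.ofNat (nat_lit 254209), .ofNat (nat_lit 516475), .ofNat (nat_lit 296923), .ofNat (nat_lit 559189), .ofNat (nat_lit 257141), .ofNat (nat_lit 507141), .ofNat (nat_lit 299999), .ofNat (nat_lit 549998)⟩⟩, [⟨nat_lit 16, nat_lit 94, nat_lit 100, nat_lit 75, nat_lit 234996829⟩]⟩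
noncomputable def p054_l119 : Lf2 := ⟨nat_lit 0, nat_lit 18, [nat_lit 100, nat_lit 5, nat_lit 5, nat_lit 20], false, nat_lit 160, nat_lit 280, nat_lit 0, nat_lit 360, ⟨nat_lit 120, nat_lit 0, nat_lit 880, nat_lit 5, nat_lit 195, nat_lit 880, nat_lit 154, nat_lit 880, nat_lit 24746, nat_lit 252, nat_lit 1067, nat_lit 207, nat_lit 46184998, nat_lit 0, nat_lit 0, nat_lit 4452528, false, false⟩,
 nat_lit 0, nat_lit 6206, nat_lit 0, nat_lit 0, nat_lit 4296, nat_lit 1522, nat_lit 0, nat_lit 0, nat_lit 0, nat_lit 140, nat_lit 0, nat_lit 0, nat_lit 0, nat_lit 0, nat_lit 55, nat_lit 352000, nat_lit 0, nat_lit 0, [(nat_lit 16, [(nat_lit 5, nat_lit 880)])],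
 ⟨p054_k19, nat_lit 0, nat_lit 0, nat_lit 183, nat_lit 0, nat_lit 250307, [nat_lit 2217552000, nat_lit 998864000, nat_lit 166928000], [], [nat_lit 16527898272, nat_lit 17737131200, nat_lit 19173028240, nat_lit 20155771616, nat_lit 20478896024, nat_lit 21427111152, nat_lit 23647864440, nat_lit 23839128752], nat_lit 1271250, nat_lit 1271250, nat_lit 780000, nat_lit 1762500, nat_lit 1100001, nat_lit 2127500, [nat_lit 780000, nat_lit 1435000, nat_lit 1271250], [nat_lit 8, nat_lit 40, nat_lit 40, nat_lit 80, nat_lit 1, nat_lit 373, nat_lit 150, nat_lit 10]⟩, ⟨p054_k16, nat_lit 0, nat_lit 0, nat_lit 270, nat_lit 0, nat_lit 0, [nat_lit 750000000, nat_lit 1181040000, nat_lit 1686960000], [], [nat_lit 3716952496, nat_lit 3991975320, nat_lit 3977933976, nat_lit 4165316072, nat_lit 3746262160, nat_lit 3801613968, nat_lit 3558473192, nat_lit 3572314204], nat_lit 0, nat_lit 0, nat_lit 0, nat_lit 0, nat_lit 0, nat_lit 0, [], [nat_lit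 60, nat_lit 40, nat_lit 40, nat_lit 80, nat_lit 32, nat_lit 456, nat_lit 225, nat_lit 11]⟩,
 ⟨nat_lit 4472, nat_lit 5000, ⟨.ofNat (nat_lit 357141), .ofNat (nat_lit 571423), .ofNat (nat_lit 399984), .ofNat (nat_lit 614256), .ofNat (nat_lit 364042), .ofNat (nat_lit 567973), .ofNat (nat_lit 407160), .ofNat (nat_lit 611081)⟩, ⟨.ofNat (nat_lit 257141), .ofNat (nat_lit 471427), .ofNat (nat_lit 299999), .ofNat (nat_lit 514284), .ofNat (nat_lit 259489), .ofNat (nat_lit 463423), .ofNat (nat_lit 302621), .ofNat (nat_lit 506556)⟩⟩, [⟨nat_lit 16, nat_lit 85, nat_lit 100, nat_lit 73, nat_lit 296380356⟩, ⟨nat_lit 7, nat_lit 77, nat_lit 100, nat_lit 72, nat_lit 21028576⟩]⟩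
noncomputable def p054_l120 : Lf2 := ⟨nat_lit 0, nat_lit 18, [nat_lit 100, nat_lit 5, nat_lit 5, nat_lit 20], false, nat_lit 0, nat_lit 300, nat_lit 0, nat_lit 160, ⟨nat_lit 1000, nat_lit 0, nat_lit 0, nat_lit 0, nat_lit 0, nat_lit 0, nat_lit 0, nat_lit 0, nat_lit 0, nat_lit 0, nat_lit 0, nat_lit 0, nat_lit 0, nat_lit 0, nat_lit 0, nat_lit 0, false, false⟩,
 nat_lit 0, nat_lit 12180, nat_lit 0, nat_lit 0, nat_lit 7750, nat_lit 7925, nat_lit 576, nat_lit 0, nat_lit 0, nat_lit 599, nat_lit 0, nat_lit 0, nat_lit 0, nat_lit 0, nat_lit 0, nat_lit 0, nat_lit 0, nat_lit 0, [],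
 ⟨p054_k11, nat_lit 0, nat_lit 0, nat_lit 379, nat_lit 0, nat_lit 281580, [nat_lit 3282000000, nat_lit 7968000001, nat_lit 11872000000], [], [nat_lit 34350948001, nat_lit 36280352001, nat_lit 41510775001, nat_lit 42683735900, nat_lit 31102821501, nat_lit 32212350751, nat_lit 36126307477, nat_lit 36916723177], nat_lit 1271250, nat_lit 1271250, nat_lit 1271250, nat_lit 1271250, nat_lit 0, nat_lit 2118750, [nat_lit 780000, nat_lit 1762500, nat_lit 1271250], [nat_lit 79, nat_lit 40, nat_lit 40, nat_lit 80, nat_lit 14, nat_lit 538, nat_lit 300, nat_lit 13]⟩, ⟨p054_k14, nat_lit 0, nat_lit 0, nat_lit 317, nat_lit 0, nat_lit 0, [nat_lit 6250000000, nat_lit 11872000000, nat_lit 14058000000], [], [nat_lit 34993185600, nat_lit 36037597400, nat_lit 45395177640, nat_lit 46035649880, nat_lit 29419622000, nat_lit 30331371400, nat_lit 37702618860, nat_lit 38259536951], nat_lit 0, nat_lit 0, nat_lit 0, nat_lit 0, nat_lit 0, nat_lit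 0, [], [nat_lit 137, nat_lit 40, nat_lit 40, nat_lit 80, nat_lit 58, nat_lit 428, nat_lit 200, nat_lit 10]⟩,
 zbF0, [⟨nat_lit 4, nat_lit 100, nat_lit 90, nat_lit 74, nat_lit 108709576⟩, ⟨nat_lit 9, nat_lit 100, nat_lit 83, nat_lit 38, nat_lit 38346356⟩]⟩
noncomputable def p054_l121 : Lf2 := ⟨nat_lit 0, nat_lit 18, [nat_lit 100, nat_lit 5, nat_lit 5, nat_lit 20], false, nat_lit 0, nat_lit 300, nat_lit 160, nat_lit 360, ⟨nat_lit 1000, nat_lit 0, nat_lit 0, nat_lit 0, nat_lit 0, nat_lit 0, nat_lit 0, nat_lit 0, nat_lit 0, nat_lit 0, nat_lit 0, nat_lit 0, nat_lit 0, nat_lit 0, nat_lit 0, nat_lit 0, false, false⟩,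
 nat_lit 0, nat_lit 12305, nat_lit 0, nat_lit 0, nat_lit 7830, nat_lit 7783, nat_lit 576, nat_lit 0, nat_lit 0, nat_lit 0, nat_lit 0, nat_lit 0, nat_lit 0, nat_lit 0, nat_lit 0, nat_lit 0, nat_lit 0, nat_lit 0, [],
 ⟨p054_k11, nat_lit 0, nat_lit 0, nat_lit 379, nat_lit 0, nat_lit 281580, [nat_lit 3282000000, nat_lit 7968000001, nat_lit 11872000000], [], [nat_lit 34285945761, nat_lit 36224488961, nat_lit 41478707737, nat_lit 42777259260, nat_lit 30947002781, nat_lit 32058946351, nat_lit 35984136925, nat_lit 36774222257], nat_lit 1271250, nat_lit 1271250, nat_lit 1271250, nat_lit 1271250, nat_lit 0, nat_lit 2118750, [nat_lit 780000, nat_lit 1762500, nat_lit 1271250], [nat_lit 79, nat_lit 40, nat_lit 40, nat_lit 80, nat_lit 14, nat_lit 538, nat_lit 300, nat_lit 13]⟩, ⟨p054_k14, nat_lit 0, nat_lit 0, nat_lit 139, nat_lit 0, nat_lit 0, [nat_lit 6250000000, nat_lit 11872000000, nat_lit 14058000000], [], [nat_lit 13406712260,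 nat_lit 15707768540, nat_lit 27683078359, nat_lit 28997883423, nat_lit 25955261620, nat_lit 26997215208, nat_lit 36099622218, nat_lit 36527729272], nat_lit 0, nat_lit 0, nat_lit 0, nat_lit 0, nat_lit 0, nat_lit 0, [], [nat_lit 137, nat_lit 40, nat_lit 40, nat_lit 80, nat_lit 58, nat_lit 483, nat_lit 250, nat_lit 11]⟩,
 zbF0, [⟨nat_lit 4, nat_lit 100, nat_lit 90, nat_lit 74, nat_lit 121042940⟩, ⟨nat_lit 7, nat_lit 77, nat_lit 100, nat_lit 72, nat_lit 586808188⟩]⟩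
noncomputable def p054_l122 : Lf2 := ⟨nat_lit 0, nat_lit 18, [nat_lit 100, nat_lit 5, nat_lit 5, nat_lit 20], true, nat_lit 0, nat_lit 160, nat_lit 0, nat_lit 360, ⟨nat_lit 0, nat_lit 0, nat_lit 1000, nat_lit 5, nat_lit 112, nat_lit 1000, nat_lit 55, nat_lit 1000, nat_lit 25350, nat_lit 254, nat_lit 117600, nat_lit 299, nat_lit 62132479, nat_lit 0, nat_lit 0, nat_lit 1302191, false, false⟩,
 nat_lit 0, nat_lit 5102, nat_lit 0, nat_lit 11311, nat_lit 3246, nat_lit 0, nat_lit 123, nat_lit 0, nat_lit 0, nat_lit 0, nat_lit 0, nat_lit 0, nat_lit 0, nat_lit 0, nat_lit 173, nat_lit 709000, nat_lit 0, nat_lit 0, [(nat_lit 13, [(nat_lit 5, nat_lit 485), (nat_lit 6, nat_lit 515)])],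
 ⟨p054_k11, nat_lit 0, nat_lit 0, nat_lit 385, nat_lit 0, nat_lit 48665, [nat_lit 3688548001, nat_lit 1783112001, nat_lit 352954000], [], [nat_lit 15619632802, nat_lit 16633250941, nat_lit 15280737539, nat_lit 16627485763, nat_lit 16320213023, nat_lit 17295495837, nat_lit 20234414203, nat_lit 18764599435], nat_lit 1271250, nat_lit 1271250, nat_lit 88400, nat_lit 780000, nat_lit 0, nat_lit 1100001, [nat_lit 780000, nat_lit 1762500, nat_lit 1271250], [nat_lit 79, nat_lit 40, nat_lit 40, nat_lit 80, nat_lit 14, nat_lit 373, nat_lit 150, nat_lit 10]⟩, C1.Rw.none,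
 ⟨nat_lit 5000, nat_lit 5478, ⟨.ofNat (nat_lit 155307), .ofNat (nat_lit 350132), .ofNat (nat_lit 198021), .ofNat (nat_lit 392847), .ofNat (nat_lit 171427), .ofNat (nat_lit 357141), .ofNat (nat_lit 214284), .ofNat (nat_lit 399998)⟩, ⟨.negSucc (nat_lit 45522), .ofNat (nat_lit 254209), .negSucc (nat_lit 2832), .ofNat (nat_lit 296923), .negSucc (nat_lit 28572), .ofNat (nat_lit 257141), .ofNat (nat_lit 0), .ofNat (nat_lit 299999)⟩⟩, [⟨nat_lit 0, nat_lit 100, nat_lit 88, nat_lit 68, nat_lit 55522069⟩]⟩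
noncomputable def p054_l123 : Lf2 := ⟨nat_lit 0, nat_lit 18, [nat_lit 100, nat_lit 5, nat_lit 5, nat_lit 20], false, nat_lit 0, nat_lit 160, nat_lit 0, nat_lit 360, ⟨nat_lit 0, nat_lit 0, nat_lit 1000, nat_lit 5, nat_lit 119, nat_lit 683, nat_lit 56, nat_lit 1000, nat_lit 26667, nat_lit 255, nat_lit 135000, nat_lit 305, nat_lit 61520594, nat_lit 0, nat_lit 0, nat_lit 1415499, false, false⟩,
 nat_lit 0, nat_lit 4623, nat_lit 0, nat_lit 620, nat_lit 3200, nat_lit 0, nat_lit 0, nat_lit 0, nat_lit 0, nat_lit 0, nat_lit 0, nat_lit 0, nat_lit 0, nat_lit 0, nat_lit 125, nat_lit 463000, nat_lit 0, nat_lit 0, [(nat_lit 16, [(nat_lit 5, nat_lit 895), (nat_lit 6, nat_lit 105)])],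
 ⟨p054_k19, nat_lit 0, nat_lit 0, nat_lit 348, nat_lit 0, nat_lit 155815, [nat_lit 2787120000, nat_lit 1391764000, nat_lit 92088000], [], [nat_lit 16726424640, nat_lit 18065814880, nat_lit 16540807600, nat_lit 17556088800, nat_lit 16740815360, nat_lit 17689995520, nat_lit 16671812000, nat_lit 17758565600], nat_lit 1271250, nat_lit 1271250, nat_lit 134400, nat_lit 780000, nat_lit 0, nat_lit 1100001, [nat_lit 780000, nat_lit 1435000, nat_lit 1271250], [nat_lit 8, nat_lit 40, nat_lit 40, nat_lit 80, nat_lit 1, nat_lit 289, nat_lit 75, nat_lit 9]⟩, ⟨p054_k16, nat_lit 0, nat_lit 0, nat_lit 600, nat_lit 0, nat_lit 289679, [nat_lit 0, nat_lit 0, nat_lit 0], [], [nat_lit 0, nat_lit 0, nat_lit 0, nat_lit 0, nat_lit 0, nat_lit 0, nat_lit 0, nat_lit 0], nat_lit 1271250, nat_lit 1271250, nat_lit 134400, nat_lit 780000, nat_lit 0, nat_lit 2542500, [nat_lit 1412500, nat_lit 1271250, nat_lit 1271250], [nat_lit 60, nat_lit 40, nat_lit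 40, nat_lit 80, nat_lit 32, nat_lit 428, nat_lit 200, nat_lit 10]⟩,
 ⟨nat_lit 4472, nat_lit 5000, ⟨.ofNat (nat_lit 185713), .ofNat (nat_lit 357141), .ofNat (nat_lit 228562), .ofNat (nat_lit 399984), .ofNat (nat_lit 200895), .ofNat (nat_lit 364042), .ofNat (nat_lit 244020), .ofNat (nat_lit 407160)⟩, ⟨.negSucc (nat_lit 28572), .ofNat (nat_lit 257141), .ofNat (nat_lit 0), .ofNat (nat_lit 299999), .negSucc (nat_lit 12423), .ofNat (nat_lit 259489), .ofNat (nat_lit 0), .ofNat (nat_lit 302621)⟩⟩, [⟨nat_lit 0, nat_lit 100, nat_lit 82, nat_lit 76, nat_lit 124784023⟩]⟩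
noncomputable def p054_l124 : Lf2 := ⟨nat_lit 0, nat_lit 18, [nat_lit 100, nat_lit 5, nat_lit 5, nat_lit 20], true, nat_lit 160, nat_lit 300, nat_lit 0, nat_lit 360, ⟨nat_lit 0, nat_lit 0, nat_lit 1000, nat_lit 5, nat_lit 112, nat_lit 1000, nat_lit 162, nat_lit 1000, nat_lit 3701, nat_lit 228, nat_lit 117600, nat_lit 299, nat_lit 52003814, nat_lit 0, nat_lit 0, nat_lit 3612393, false, false⟩,
 nat_lit 0, nat_lit 4796, nat_lit 0, nat_lit 5938, nat_lit 3051, nat_lit 0, nat_lit 285, nat_lit 0, nat_lit 0, nat_lit 0, nat_lit 0, nat_lit 0, nat_lit 0, nat_lit 0, nat_lit 95, nat_lit 400000, nat_lit 0, nat_lit 0, [(nat_lit 13, [(nat_lit 5, nat_lit 1000)])],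
 ⟨p054_k15, nat_lit 0, nat_lit 0, nat_lit 212, nat_lit 0, nat_lit 48665, [nat_lit 2390400000, nat_lit 1362133334, nat_lit 358000000], [], [nat_lit 15424677316, nat_lit 16364676632, nat_lit 15045811699, nat_lit 15907913108, nat_lit 20427838686, nat_lit 21565293590, nat_lit 20158271307, nat_lit 21109873838], nat_lit 1271250, nat_lit 1271250, nat_lit 88400, nat_lit 780000, nat_lit 1100001, nat_lit 2298750, [nat_lit 780000, nat_lit 1435000, nat_lit 1271250], [nat_lit 23, nat_lit 40, nat_lit 40, nat_lit 80, nat_lit 12, nat_lit 428, nat_lit 200, nat_lit 11]⟩, C1.Rw.none,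
 ⟨nat_lit 5000, nat_lit 5478, ⟨.ofNat (nat_lit 155307), .ofNat (nat_lit 350132), .ofNat (nat_lit 198021), .ofNat (nat_lit 392847), .ofNat (nat_lit 171427), .ofNat (nat_lit 357141), .ofNat (nat_lit 214284), .ofNat (nat_lit 399998)⟩, ⟨.ofNat (nat_lit 254209), .ofNat (nat_lit 516475), .ofNat (nat_lit 296923), .ofNat (nat_lit 559189), .ofNat (nat_lit 257141), .ofNat (nat_lit 507141), .ofNat (nat_lit 299999), .ofNat (nat_lit 549998)⟩⟩, [⟨nat_lit 0, nat_lit 100, nat_lit 88, nat_lit 68, nat_lit 126792447⟩, ⟨nat_lit 4, nat_lit 100, nat_lit 94, nat_lit 75, nat_lit 270635122⟩]⟩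
noncomputable def p054_l125 : Lf2 := ⟨nat_lit 0, nat_lit 18, [nat_lit 100, nat_lit 5, nat_lit 5, nat_lit 20], true, nat_lit 160, nat_lit 280, nat_lit 0, nat_lit 360, ⟨nat_lit 0, nat_lit 0, nat_lit 1000, nat_lit 5, nat_lit 119, nat_lit 1000, nat_lit 154, nat_lit 1000, nat_lit 24746, nat_lit 252, nat_lit 135000, nat_lit 305, nat_lit 52193310, nat_lit 0, nat_lit 0, nat_lit 3612251, false, false⟩,
 nat_lit 0, nat_lit 5173, nat_lit 0, nat_lit 1497, nat_lit 3581, nat_lit 0, nat_lit 0, nat_lit 0, nat_lit 0, nat_lit 0, nat_lit 0, nat_lit 0, nat_lit 0, nat_lit 0, nat_lit 109, nat_lit 400000, nat_lit 0, nat_lit 0, [(nat_lit 16, [(nat_lit 5, nat_lit 1000)])],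
 ⟨p054_k19, nat_lit 0, nat_lit 0, nat_lit 285, nat_lit 0, nat_lit 250307, [nat_lit 2630400000, nat_lit 1212800000, nat_lit 149600000], [], [nat_lit 17939055437, nat_lit 17575755566, nat_lit 16302878270, nat_lit 17207253924, nat_lit 20721337247, nat_lit 22131096249, nat_lit 21056110215, nat_lit 20995018388], nat_lit 1271250, nat_lit 1271250, nat_lit 134400, nat_lit 780000, nat_lit 1100001, nat_lit 2127500, [nat_lit 780000, nat_lit 1435000, nat_lit 1271250], [nat_lit 8, nat_lit 40, nat_lit 40, nat_lit 80, nat_lit 1, nat_lit 317, nat_lit 100, nat_lit 9]⟩, C1.Rw.none,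
 ⟨nat_lit 4472, nat_lit 5000, ⟨.ofNat (nat_lit 185713), .ofNat (nat_lit 357141), .ofNat (nat_lit 228562), .ofNat (nat_lit 399984), .ofNat (nat_lit 200895), .ofNat (nat_lit 364042), .ofNat (nat_lit 244020), .ofNat (nat_lit 407160)⟩, ⟨.ofNat (nat_lit 257141), .ofNat (nat_lit 471427), .ofNat (nat_lit 299999), .ofNat (nat_lit 514284), .ofNat (nat_lit 259489), .ofNat (nat_lit 463423), .ofNat (nat_lit 302621), .ofNat (nat_lit 506556)⟩⟩, [⟨nat_lit 0, nat_lit 100, nat_lit 82, nat_lit 76, nat_lit 171848464⟩, ⟨nat_lit 4, nat_lit 100, nat_lit 85, nat_lit 73, nat_lit 262388758⟩]⟩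
noncomputable def p054_l126 : Lf2 := ⟨nat_lit 0, nat_lit 18, [nat_lit 100, nat_lit 5, nat_lit 5, nat_lit 20], false, nat_lit 0, nat_lit 160, nat_lit 0, nat_lit 360, ⟨nat_lit 135, nat_lit 0, nat_lit 865, nat_lit 5, nat_lit 194, nat_lit 422, nat_lit 55, nat_lit 865, nat_lit 25350, nat_lit 254, nat_lit 1350, nat_lit 206, nat_lit 54250075, nat_lit 0, nat_lit 0, nat_lit 2433268, false, false⟩,
 nat_lit 1368, nat_lit 4751, nat_lit 0, nat_lit 5523, nat_lit 3893, nat_lit 586, nat_lit 203, nat_lit 0, nat_lit 0, nat_lit 0, nat_lit 0, nat_lit 0, nat_lit 0, nat_lit 0, nat_lit 99, nat_lit 606400, nat_lit 0, nat_lit 0, [(nat_lit 13, [(nat_lit 5, nat_lit 431), (nat_lit 6, nat_lit 434)])],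
 ⟨p054_k11, nat_lit 0, nat_lit 0, nat_lit 236, nat_lit 0, nat_lit 29918, [nat_lit 3017854801, nat_lit 1423467201, nat_lit 343112400], [], [nat_lit 15951805971, nat_lit 17159349861, nat_lit 18663280179, nat_lit 19657671426, nat_lit 14838698308, nat_lit 15952689724, nat_lit 18925345782, nat_lit 18774876560], nat_lit 1271250, nat_lit 1271250, nat_lit 780000, nat_lit 1762500, nat_lit 0, nat_lit 1100001, [nat_lit 780000, nat_lit 1762500, nat_lit 1271250], [nat_lit 79, nat_lit 40, nat_lit 40, nat_lit 80, nat_lit 14, nat_lit 401, nat_lit 175, nat_lit 10]⟩, ⟨p054_k14, nat_lit 0, nat_lit 0, nat_lit 379, nat_lit 0, nat_lit 50065, [nat_lit 843750000, nat_lit 1602720000, nat_lit 1897830000], [], [nat_lit 5516875096, nat_lit 5676839884, nat_lit 5820867808, nat_lit 5947316420, nat_lit 6132897966, nat_lit 6209802488, nat_lit 6832190988, nat_lit 6308216744], nat_lit 1271250, nat_lit 1271250, nat_lit 780000, nat_lit 1762500, nat_lit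 0, nat_lit 2542500, [nat_lit 1412500, nat_lit 1271250, nat_lit 1271250], [nat_lit 137, nat_lit 40, nat_lit 40, nat_lit 80, nat_lit 58, nat_lit 456, nat_lit 225, nat_lit 11]⟩,
 ⟨nat_lit 5000, nat_lit 5478, ⟨.ofNat (nat_lit 350132), .ofNat (nat_lit 574920), .ofNat (nat_lit 392847), .ofNat (nat_lit 617614), .ofNat (nat_lit 357141), .ofNat (nat_lit 571415), .ofNat (nat_lit 399998), .ofNat (nat_lit 614253)⟩, ⟨.negSucc (nat_lit 45522), .ofNat (nat_lit 254209), .negSucc (nat_lit 2832), .ofNat (nat_lit 296923), .negSucc (nat_lit 28572), .ofNat (nat_lit 257141), .ofNat (nat_lit 0), .ofNat (nat_lit 299999)⟩⟩, [⟨nat_lit 7, nat_lit 77, nat_lit 100, nat_lit 72, nat_lit 43623893⟩]⟩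
noncomputable def p054_l127 : Lf2 := ⟨nat_lit 0, nat_lit 18, [nat_lit 100, nat_lit 5, nat_lit 5, nat_lit 20], false, nat_lit 0, nat_lit 160, nat_lit 0, nat_lit 360, ⟨nat_lit 0, nat_lit 0, nat_lit 1000, nat_lit 5, nat_lit 195, nat_lit 504, nat_lit 56, nat_lit 1000, nat_lit 26667, nat_lit 255, nat_lit 1067, nat_lit 207, nat_lit 54171567, nat_lit 0, nat_lit 0, nat_lit 2441730, false, false⟩,
 nat_lit 0, nat_lit 4793, nat_lit 0, nat_lit 0, nat_lit 3318, nat_lit 0, nat_lit 1, nat_lit 0, nat_lit 0, nat_lit 0, nat_lit 0, nat_lit 0, nat_lit 0, nat_lit 0, nat_lit 109, nat_lit 400000, nat_lit 0, nat_lit 0, [(nat_lit 16, [(nat_lit 5, nat_lit 1000)])],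
 ⟨p054_k25, nat_lit 0, nat_lit 0, nat_lit 289, nat_lit 0, nat_lit 155815, [nat_lit 2630400000, nat_lit 504000000, nat_lit 149600000], [], [nat_lit 19027013223, nat_lit 17949797472, nat_lit 19603573968, nat_lit 20455990280, nat_lit 16947080060, nat_lit 17826225072, nat_lit 19287597764, nat_lit 20020406184], nat_lit 1271250, nat_lit 1271250, nat_lit 780000, nat_lit 1762500, nat_lit 0, nat_lit 1100001, [nat_lit 780000, nat_lit 1762500, nat_lit 1271250], [nat_lit 99, nat_lit 40, nat_lit 40, nat_lit 80, nat_lit 17, nat_lit 317, nat_lit 100, nat_lit 9]⟩, ⟨p054_k14, nat_lit 0, nat_lit 0, nat_lit 499, nat_lit 0, nat_lit 289679, [nat_lit 0, nat_lit 0, nat_lit 0], [], [nat_lit 0, nat_lit 0, nat_lit 0, nat_lit 0, nat_lit 0, nat_lit 0, nat_lit 0, nat_lit 0], nat_lit 1271250, nat_lit 1271250, nat_lit 780000, nat_lit 1762500, nat_lit 0, nat_lit 2542500, [nat_lit 1412500, nat_lit 1271250, nat_lit 1271250], [nat_lit 137, nat_lit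 40, nat_lit 40, nat_lit 80, nat_lit 58, nat_lit 456, nat_lit 225, nat_lit 11]⟩,
 ⟨nat_lit 4472, nat_lit 5000, ⟨.ofNat (nat_lit 357141), .ofNat (nat_lit 571423), .ofNat (nat_lit 399984), .ofNat (nat_lit 614256), .ofNat (nat_lit 364042), .ofNat (nat_lit 567973), .ofNat (nat_lit 407160), .ofNat (nat_lit 611081)⟩, ⟨.negSucc (nat_lit 28572), .ofNat (nat_lit 257141), .ofNat (nat_lit 0), .ofNat (nat_lit 299999), .negSucc (nat_lit 12423), .ofNat (nat_lit 259489), .ofNat (nat_lit 0), .ofNat (nat_lit 302621)⟩⟩, []⟩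
noncomputable def p054_l128 : Lf2 := ⟨nat_lit 0, nat_lit 18, [nat_lit 100, nat_lit 5, nat_lit 5, nat_lit 20], true, nat_lit 160, nat_lit 300, nat_lit 0, nat_lit 360, ⟨nat_lit 0, nat_lit 1000, nat_lit 0, nat_lit 5, nat_lit 194, nat_lit 1000, nat_lit 162, nat_lit 0, nat_lit 0, nat_lit 0, nat_lit 0, nat_lit 0, nat_lit 45651278, nat_lit 12172411, nat_lit 9176311, nat_lit 4530984, false, false⟩,
 nat_lit 0, nat_lit 7280, nat_lit 0, nat_lit 296, nat_lit 4632, nat_lit 0, nat_lit 0, nat_lit 0, nat_lit 0, nat_lit 0, nat_lit 0, nat_lit 0, nat_lit 0, nat_lit 0, nat_lit 0, nat_lit 250000, nat_lit 0, nat_lit 0, [(nat_lit 13, [(nat_lit 0, nat_lit 1000)])],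
 ⟨p054_k15, nat_lit 0, nat_lit 0, nat_lit 113, nat_lit 0, nat_lit 48665, [nat_lit 2378400000, nat_lit 3128000000, nat_lit 3715520000], [], [nat_lit 12162807744, nat_lit 13894698448, nat_lit 16525824928, nat_lit 17909184624, nat_lit 19797351704, nat_lit 21189406356, nat_lit 22724485456, nat_lit 23847507228], nat_lit 1271250, nat_lit 1271250, nat_lit 780000, nat_lit 1762500, nat_lit 1271250, nat_lit 1271250, [nat_lit 780000, nat_lit 1435000, nat_lit 1271250], [nat_lit 23, nat_lit 40, nat_lit 40, nat_lit 80, nat_lit 12, nat_lit 456, nat_lit 225, nat_lit 11]⟩, C1.Rw.none,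
 ⟨nat_lit 5000, nat_lit 5478, ⟨.ofNat (nat_lit 350132), .ofNat (nat_lit 574920), .ofNat (nat_lit 392847), .ofNat (nat_lit 617614), .ofNat (nat_lit 357141), .ofNat (nat_lit 571415), .ofNat (nat_lit 399998), .ofNat (nat_lit 614253)⟩, ⟨.ofNat (nat_lit 254209), .ofNat (nat_lit 516475), .ofNat (nat_lit 296923), .ofNat (nat_lit 559189), .ofNat (nat_lit 257141), .ofNat (nat_lit 507141), .ofNat (nat_lit 299999), .ofNat (nat_lit 549998)⟩⟩, [⟨nat_lit 16, nat_lit 94, nat_lit 100, nat_lit 75, nat_lit 234996829⟩]⟩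
noncomputable def p054_l129 : Lf2 := ⟨nat_lit 0, nat_lit 18, [nat_lit 100, nat_lit 5, nat_lit 5, nat_lit 20], false, nat_lit 160, nat_lit 280, nat_lit 0, nat_lit 360, ⟨nat_lit 0, nat_lit 75, nat_lit 925, nat_lit 5, nat_lit 195, nat_lit 1000, nat_lit 154, nat_lit 925, nat_lit 24746, nat_lit 252, nat_lit 1067, nat_lit 207, nat_lit 46184998, nat_lit 12314857, nat_lit 8500145, nat_lit 4452528, false, false⟩,
 nat_lit 0, nat_lit 6373, nat_lit 0, nat_lit 0, nat_lit 4412, nat_lit 0, nat_lit 0, nat_lit 0, nat_lit 0, nat_lit 0, nat_lit 0, nat_lit 0, nat_lit 0, nat_lit 0, nat_lit 79, nat_lit 339250, nat_lit 0, nat_lit 0, [(nat_lit 16, [(nat_lit 0, nat_lit 75), (nat_lit 4, nat_lit 330), (nat_lit 5, nat_lit 595)])],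
 ⟨p054_k19, nat_lit 0, nat_lit 0, nat_lit 150, nat_lit 0, nat_lit 155815, [nat_lit 2705136000, nat_lit 1023798000, nat_lit 178238000], [], [nat_lit 15775084784, nat_lit 16999730400, nat_lit 18413122280, nat_lit 19410174960, nat_lit 19802587668, nat_lit 21240030872, nat_lit 23246746180, nat_lit 23888308344], nat_lit 1271250, nat_lit 1271250, nat_lit 780000, nat_lit 1762500, nat_lit 1100001, nat_lit 2127500, [nat_lit 780000, nat_lit 1435000, nat_lit 1271250], [nat_lit 8, nat_lit 40, nat_lit 40, nat_lit 80, nat_lit 1, nat_lit 373, nat_lit 150, nat_lit 10]⟩, ⟨p054_k16, nat_lit 0, nat_lit 0, nat_lit 479, nat_lit 0, nat_lit 289679, [nat_lit 0, nat_lit 0, nat_lit 0], [], [nat_lit 0, nat_lit 0, nat_lit 0, nat_lit 0, nat_lit 0, nat_lit 0, nat_lit 0, nat_lit 0], nat_lit 1271250, nat_lit 1271250, nat_lit 780000, nat_lit 1762500, nat_lit 0, nat_lit 2542500, [nat_lit 1412500, nat_lit 1271250, nat_lit 1271250], [nat_lit 60, nat_lit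 40, nat_lit 40, nat_lit 80, nat_lit 32, nat_lit 456, nat_lit 225, nat_lit 11]⟩,
 ⟨nat_lit 4472, nat_lit 5000, ⟨.ofNat (nat_lit 357141), .ofNat (nat_lit 571423), .ofNat (nat_lit 399984), .ofNat (nat_lit 614256), .ofNat (nat_lit 364042), .ofNat (nat_lit 567973), .ofNat (nat_lit 407160), .ofNat (nat_lit 611081)⟩, ⟨.ofNat (nat_lit 257141), .ofNat (nat_lit 471427), .ofNat (nat_lit 299999), .ofNat (nat_lit 514284), .ofNat (nat_lit 259489), .ofNat (nat_lit 463423), .ofNat (nat_lit 302621), .ofNat (nat_lit 506556)⟩⟩, [⟨nat_lit 4, nat_lit 100, nat_lit 85, nat_lit 73, nat_lit 304257055⟩]⟩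
noncomputable def p054_l130 : Lf2 := ⟨nat_lit 0, nat_lit 18, [nat_lit 100, nat_lit 5, nat_lit 5, nat_lit 20], false, nat_lit 0, nat_lit 160, nat_lit 0, nat_lit 160, ⟨nat_lit 1000, nat_lit 0, nat_lit 0, nat_lit 0, nat_lit 0, nat_lit 0, nat_lit 0, nat_lit 0, nat_lit 0, nat_lit 0, nat_lit 0, nat_lit 0, nat_lit 0, nat_lit 0, nat_lit 0, nat_lit 0, false, false⟩,
 nat_lit 18679, nat_lit 0, nat_lit 0, nat_lit 0, nat_lit 6394, nat_lit 8005, nat_lit 1002, nat_lit 0, nat_lit 0, nat_lit 999, nat_lit 0, nat_lit 0, nat_lit 0, nat_lit 0, nat_lit 0, nat_lit 0, nat_lit 0, nat_lit 0, [],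
 ⟨p054_k15, nat_lit 0, nat_lit 0, nat_lit 341, nat_lit 0, nat_lit 173106, [nat_lit 3282000000, nat_lit 6250000000, nat_lit 11872000000], [], [nat_lit 29000367982, nat_lit 30941413622, nat_lit 37149117301, nat_lit 38757366028, nat_lit 25018169294, nat_lit 26652422872, nat_lit 32530020720, nat_lit 33895402909], nat_lit 1271250, nat_lit 1271250, nat_lit 1271250, nat_lit 1271250, nat_lit 0, nat_lit 1100001, [nat_lit 780000, nat_lit 1435000, nat_lit 1271250], [nat_lit 23, nat_lit 40, nat_lit 40, nat_lit 80, nat_lit 12, nat_lit 456, nat_lit 225, nat_lit 11]⟩, ⟨p054_k16, nat_lit 0, nat_lit 0, nat_lit 449, nat_lit 0, nat_lit 289679, [nat_lit 6250000000, nat_lit 9842000000, nat_lit 14058000000], [], [nat_lit 38491349850, nat_lit 38988281770, nat_lit 45429112954, nat_lit 45820673664, nat_lit 32986564840, nat_lit 33641184080, nat_lit 38718774468, nat_lit 38990280485], nat_lit 1271250, nat_lit 1271250, nat_lit 1271250, nat_lit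 1271250, nat_lit 0, nat_lit 1100001, [nat_lit 1412500, nat_lit 1271250, nat_lit 1271250], [nat_lit 60, nat_lit 40, nat_lit 40, nat_lit 80, nat_lit 32, nat_lit 428, nat_lit 200, nat_lit 10]⟩,
 zbF0, []⟩
noncomputable def p054_l131 : Lf2 := ⟨nat_lit 0, nat_lit 18, [nat_lit 100, nat_lit 5, nat_lit 5, nat_lit 20], false, nat_lit 0, nat_lit 160, nat_lit 160, nat_lit 360, ⟨nat_lit 1000, nat_lit 0, nat_lit 0, nat_lit 0, nat_lit 0, nat_lit 0, nat_lit 0, nat_lit 0, nat_lit 0, nat_lit 0, nat_lit 0, nat_lit 0, nat_lit 0, nat_lit 0, nat_lit 0, nat_lit 0, false, false⟩,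
 nat_lit 18619, nat_lit 0, nat_lit 0, nat_lit 0, nat_lit 8454, nat_lit 7979, nat_lit 1047, nat_lit 0, nat_lit 0, nat_lit 1035, nat_lit 0, nat_lit 0, nat_lit 0, nat_lit 0, nat_lit 0, nat_lit 0, nat_lit 0, nat_lit 0, [],
 ⟨p054_k15, nat_lit 0, nat_lit 0, nat_lit 341, nat_lit 0, nat_lit 173106, [nat_lit 3282000000, nat_lit 6250000000, nat_lit 11872000000], [], [nat_lit 27188274537, nat_lit 30061462377, nat_lit 41585716829, nat_lit 44434127962, nat_lit 20768331729, nat_lit 22609181504, nat_lit 31622460013, nat_lit 34111525557], nat_lit 1271250, nat_lit 1271250, nat_lit 1271250, nat_lit 1271250, nat_lit 0, nat_lit 1100001, [nat_lit 780000, nat_lit 1435000, nat_lit 1271250], [nat_lit 23, nat_lit 40, nat_lit 40, nat_lit 80, nat_lit 12, nat_lit 456, nat_lit 225, nat_lit 11]⟩, ⟨p054_k16, nat_lit 0, nat_lit 0, nat_lit 294, nat_lit 0, nat_lit 289679, [nat_lit 6250000000, nat_lit 9842000000, nat_lit 14058000000], [], [nat_lit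 26245966530, nat_lit 27095086662, nat_lit 34244433746, nat_lit 34611422646, nat_lit 32315799074, nat_lit 32692299864, nat_lit 38850946324, nat_lit 38951947133], nat_lit 1271250, nat_lit 1271250, nat_lit 1271250, nat_lit 1271250, nat_lit 1271250, nat_lit 1271250, [nat_lit 1412500, nat_lit 1271250, nat_lit 1271250], [nat_lit 60, nat_lit 40, nat_lit 40, nat_lit 80, nat_lit 32, nat_lit 483, nat_lit 250, nat_lit 11]⟩,
 zbF0, [⟨nat_lit 7, nat_lit 77, nat_lit 100, nat_lit 72, nat_lit 306129251⟩, ⟨nat_lit 22, nat_lit 85, nat_lit 100, nat_lit 84, nat_lit 171262367⟩]⟩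
noncomputable def p054_l132 : Lf2 := ⟨nat_lit 0, nat_lit 18, [nat_lit 100, nat_lit 5, nat_lit 5, nat_lit 20], false, nat_lit 160, nat_lit 300, nat_lit 0, nat_lit 160, ⟨nat_lit 1000, nat_lit 0, nat_lit 0, nat_lit 0, nat_lit 0, nat_lit 0, nat_lit 0, nat_lit 0, nat_lit 0, nat_lit 0, nat_lit 0, nat_lit 0, nat_lit 0, nat_lit 0, nat_lit 0, nat_lit 0, false, false⟩,
 nat_lit 18679, nat_lit 0, nat_lit 0, nat_lit 0, nat_lit 6937, nat_lit 8005, nat_lit 968, nat_lit 0, nat_lit 0, nat_lit 1000, nat_lit 0, nat_lit 0, nat_lit 0, nat_lit 0, nat_lit 0, nat_lit 0, nat_lit 0, nat_lit 0, [],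
 ⟨p054_k15, nat_lit 0, nat_lit 0, nat_lit 201, nat_lit 0, nat_lit 173106, [nat_lit 3282000000, nat_lit 6250000000, nat_lit 11872000000], [], [nat_lit 22106778852, nat_lit 24285183056, nat_lit 30458020948, nat_lit 32250334339, nat_lit 25833319617, nat_lit 27386166423, nat_lit 33455912081, nat_lit 35047311201], nat_lit 1271250, nat_lit 1271250, nat_lit 1271250, nat_lit 1271250, nat_lit 1100001, nat_lit 2298750, [nat_lit 780000, nat_lit 1435000, nat_lit 1271250], [nat_lit 23, nat_lit 40, nat_lit 40, nat_lit 80, nat_lit 12, nat_lit 538, nat_lit 300, nat_lit 13]⟩, ⟨p054_k16, nat_lit 0, nat_lit 0, nat_lit 449, nat_lit 0, nat_lit 289679, [nat_lit 6250000000, nat_lit 9842000000, nat_lit 14058000000], [], [nat_lit 38483743600, nat_lit 38980675520, nat_lit 45429112954, nat_lit 45820673664, nat_lit 32986564840, nat_lit 33641184080, nat_lit 38718774468, nat_lit 38990280485], nat_lit 1271250, nat_lit 1271250, nat_lit 1271250,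 nat_lit 1271250, nat_lit 0, nat_lit 1100001, [nat_lit 1412500, nat_lit 1271250, nat_lit 1271250], [nat_lit 60, nat_lit 40, nat_lit 40, nat_lit 80, nat_lit 32, nat_lit 428, nat_lit 200, nat_lit 10]⟩,
 zbF0, [⟨nat_lit 4, nat_lit 100, nat_lit 90, nat_lit 74, nat_lit 474115221⟩, ⟨nat_lit 9, nat_lit 100, nat_lit 82, nat_lit 71, nat_lit 24828866⟩]⟩
noncomputable def p054_l133 : Lf2 := ⟨nat_lit 0, nat_lit 18, [nat_lit 100, nat_lit 5, nat_lit 5, nat_lit 20], false, nat_lit 160, nat_lit 300, nat_lit 160, nat_lit 360, ⟨nat_lit 1000, nat_lit 0, nat_lit 0, nat_lit 0, nat_lit 0, nat_lit 0, nat_lit 0, nat_lit 0, nat_lit 0, nat_lit 0, nat_lit 0, nat_lit 0, nat_lit 0, nat_lit 0, nat_lit 0, nat_lit 0, false, false⟩,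
 nat_lit 18650, nat_lit 0, nat_lit 0, nat_lit 3955, nat_lit 6942, nat_lit 7992, nat_lit 968, nat_lit 0, nat_lit 0, nat_lit 1037, nat_lit 0, nat_lit 0, nat_lit 0, nat_lit 0, nat_lit 0, nat_lit 0, nat_lit 0, nat_lit 0, [],
 ⟨p054_k15, nat_lit 0, nat_lit 0, nat_lit 201, nat_lit 0, nat_lit 173106, [nat_lit 3282000000, nat_lit 6250000000, nat_lit 11872000000], [], [nat_lit 22102972832, nat_lit 24282147496, nat_lit 30456627476, nat_lit 32256280388, nat_lit 25829792822, nat_lit 27382482818, nat_lit 33461254837, nat_lit 35053049510], nat_lit 1271250, nat_lit 1271250, nat_lit 1271250, nat_lit 1271250, nat_lit 1100001, nat_lit 2298750, [nat_lit 780000, nat_lit 1435000, nat_lit 1271250], [nat_lit 23, nat_lit 40, nat_lit 40, nat_lit 80, nat_lit 12, nat_lit 538, nat_lit 300, nat_lit 13]⟩, ⟨p054_k16, nat_lit 0, nat_lit 0, nat_lit 294, nat_lit 0, nat_lit 289679, [nat_lit 6250000000, nat_lit 9842000000, nat_lit 14058000000], [],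 [nat_lit 26208320190, nat_lit 27057358526, nat_lit 34228879720, nat_lit 34595069739, nat_lit 32295998302, nat_lit 32668767472, nat_lit 38848049352, nat_lit 38947916556], nat_lit 1271250, nat_lit 1271250, nat_lit 1271250, nat_lit 1271250, nat_lit 1271250, nat_lit 1271250, [nat_lit 1412500, nat_lit 1271250, nat_lit 1271250], [nat_lit 60, nat_lit 40, nat_lit 40, nat_lit 80, nat_lit 32, nat_lit 483, nat_lit 250, nat_lit 11]⟩,
 zbF0, [⟨nat_lit 16, nat_lit 90, nat_lit 100, nat_lit 74, nat_lit 495814704⟩, ⟨nat_lit 7, nat_lit 77, nat_lit 100, nat_lit 72, nat_lit 476502853⟩]⟩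
noncomputable def b_V_700_500_10_13 : St := ⟨true, nat_lit 1, nat_lit 2, nat_lit 1, nat_lit 80, nat_lit 280, nat_lit 320, nat_lit 200, nat_lit 240, nat_lit 16, nat_lit 396, nat_lit 40, nat_lit 80, nat_lit 0, nat_lit 300, nat_lit 0, nat_lit 360, nat_lit 40, nat_lit 72, nat_lit 0, nat_lit 0, nat_lit 0, nat_lit 0⟩
theorem d_V_700_500_10_13 (h : EB TB.env) : Dead b_V_700_500_10_13 := chkB_sound0 h (T :=
(.st (nat_lit 1)
(.spl (nat_lit 2) (nat_lit 240)
(.spl (nat_lit 4) (nat_lit 160)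
(.spl (nat_lit 0) (nat_lit 300)
(.spl (nat_lit 6) (nat_lit 48)
(.spl (nat_lit 2) (nat_lit 160)
(.leaf p054_l109)
(.leaf p054_l110))
(.leaf p054_l111))
(.trZ (nat_lit 0) (nat_lit 100) (nat_lit 87) (nat_lit 50) (nat_lit 24) (.spl (nat_lit 2) (nat_lit 120)
(.spl (nat_lit 0) (nat_lit 310)
(.leaf p054_l112)
(.trZ (nat_lit 0) (nat_lit 100) (nat_lit 84) (nat_lit 55) (nat_lit 32) (.leaf p054_l113)))
(.spl (nat_lit 0) (nat_lit 310)
(.leaf p054_l114)
(.leaf p054_l115)))))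
(.spl (nat_lit 2) (nat_lit 120)
(.spl (nat_lit 0) (nat_lit 300)
(.leaf p054_l116)
(.trZ (nat_lit 0) (nat_lit 100) (nat_lit 87) (nat_lit 50) (nat_lit 24) (.trX (nat_lit 16) (nat_lit 94) (nat_lit 100) (nat_lit 87) (nat_lit 280) (.leaf p054_l117))))
(.spl (nat_lit 0) (nat_lit 300)
(.leaf p054_l118)
(.trX (nat_lit 16) (nat_lit 94) (nat_lit 100) (nat_lit 87) (nat_lit 280) (.leaf p054_l119)))))
(.spl (nat_lit 5) (nat_lit 160)
(.leaf p054_l120)
(.leaf p054_l121)))
(.spl (nat_lit 2) (nat_lit 120)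
(.spl (nat_lit 4) (nat_lit 160)
(.spl (nat_lit 0) (nat_lit 300)
(.leaf p054_l122)
(.trZ (nat_lit 0) (nat_lit 100) (nat_lit 87) (nat_lit 50) (nat_lit 24) (.leaf p054_l123)))
(.spl (nat_lit 0) (nat_lit 300)
(.leaf p054_l124)
(.trZ (nat_lit 0) (nat_lit 100) (nat_lit 87) (nat_lit 50) (nat_lit 24) (.trX (nat_lit 16) (nat_lit 94) (nat_lit 100) (nat_lit 87) (nat_lit 280) (.leaf p054_l125)))))
(.spl (nat_lit 2) (nat_lit 240)
(.spl (nat_lit 4) (nat_lit 160)
(.spl (nat_lit 0) (nat_lit 300)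
(.leaf p054_l126)
(.leaf p054_l127))
(.spl (nat_lit 0) (nat_lit 300)
(.leaf p054_l128)
(.trX (nat_lit 16) (nat_lit 94) (nat_lit 100) (nat_lit 87) (nat_lit 280) (.leaf p054_l129))))
(.spl (nat_lit 4) (nat_lit 160)
(.spl (nat_lit 5) (nat_lit 160)
(.leaf p054_l130)
(.leaf p054_l131))
(.spl (nat_lit 5) (nat_lit 160)
(.leaf p054_l132)
(.leaf p054_l133))))))) (by decide +kernel)
noncomputable def p054_l134 : Lf2 := ⟨nat_lit 0, nat_lit 18, [nat_lit 100, nat_lit 5, nat_lit 5, nat_lit 20], true, nat_lit 0, nat_lit 300, nat_lit 0, nat_lit 360, ⟨nat_lit 0, nat_lit 1000, nat_lit 0, nat_lit 5, nat_lit 114, nat_lit 1000, nat_lit 106, nat_lit 0, nat_lit 0, nat_lit 0, nat_lit 0, nat_lit 0, nat_lit 0, nat_lit 0, nat_lit 0, nat_lit 5000000, false, false⟩,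
 nat_lit 0, nat_lit 7686, nat_lit 0, nat_lit 0, nat_lit 4891, nat_lit 0, nat_lit 9, nat_lit 0, nat_lit 0, nat_lit 0, nat_lit 0, nat_lit 0, nat_lit 0, nat_lit 0, nat_lit 0, nat_lit 458800, nat_lit 0, nat_lit 0, [(nat_lit 13, [(nat_lit 1, nat_lit 902), (nat_lit 2, nat_lit 98)]), (nat_lit 16, [(nat_lit 1, nat_lit 902), (nat_lit 2, nat_lit 98)])],
 ⟨p054_k15, nat_lit 0, nat_lit 0, nat_lit 510, nat_lit 0, nat_lit 281580, [nat_lit 2093343734, nat_lit 2787238801, nat_lit 1928096000], [], [nat_lit 32358193663, nat_lit 29271026505, nat_lit 25563256961, nat_lit 27264657421, nat_lit 28354405847, nat_lit 29546731658, nat_lit 30693910080, nat_lit 27557689806], nat_lit 1271250, nat_lit 1271250, nat_lit 88400, nat_lit 780000, nat_lit 0, nat_lit 2118750, [nat_lit 780000, nat_lit 1435000, nat_lit 1271250], [nat_lit 23, nat_lit 40, nat_lit 40, nat_lit 80, nat_lit 12, nat_lit 428, nat_lit 200, nat_lit 11]⟩, C1.Rw.none,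
 ⟨nat_lit 4472, nat_lit 5478, ⟨.ofNat (nat_lit 155307), .ofNat (nat_lit 350132), .ofNat (nat_lit 198021), .ofNat (nat_lit 392815), .ofNat (nat_lit 187299), .ofNat (nat_lit 364042), .ofNat (nat_lit 230432), .ofNat (nat_lit 407143)⟩, ⟨.negSucc (nat_lit 45522), .ofNat (nat_lit 516475), .negSucc (nat_lit 2834), .ofNat (nat_lit 559189), .negSucc (nat_lit 12423), .ofNat (nat_lit 497412), .ofNat (nat_lit 0), .ofNat (nat_lit 540545)⟩⟩, [⟨nat_lit 0, nat_lit 100, nat_lit 87, nat_lit 59, nat_lit 50313856⟩, ⟨nat_lit 4, nat_lit 100, nat_lit 90, nat_lit 74, nat_lit 78856976⟩]⟩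
noncomputable def p054_l135 : Lf2 := ⟨nat_lit 0, nat_lit 18, [nat_lit 100, nat_lit 5, nat_lit 5, nat_lit 20], true, nat_lit 0, nat_lit 300, nat_lit 0, nat_lit 360, ⟨nat_lit 0, nat_lit 1000, nat_lit 0, nat_lit 5, nat_lit 194, nat_lit 1000, nat_lit 106, nat_lit 0, nat_lit 0, nat_lit 0, nat_lit 0, nat_lit 0, nat_lit 0, nat_lit 0, nat_lit 0, nat_lit 5000000, false, false⟩,
 nat_lit 0, nat_lit 9959, nat_lit 0, nat_lit 1779, nat_lit 6337, nat_lit 0, nat_lit 0, nat_lit 0, nat_lit 0, nat_lit 0, nat_lit 0, nat_lit 0, nat_lit 0, nat_lit 0, nat_lit 0, nat_lit 469600, nat_lit 0, nat_lit 0, [(nat_lit 13, [(nat_lit 1, nat_lit 884), (nat_lit 2, nat_lit 116)]), (nat_lit 16, [(nat_lit 1, nat_lit 884), (nat_lit 2, nat_lit 116)])],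
 ⟨p054_k15, nat_lit 0, nat_lit 0, nat_lit 389, nat_lit 0, nat_lit 281580, [nat_lit 2098170134, nat_lit 2771229601, nat_lit 1840832000], [], [nat_lit 34525985815, nat_lit 27824760403, nat_lit 26357347536, nat_lit 28813571056, nat_lit 24500755872, nat_lit 26388344271, nat_lit 32638924810, nat_lit 27009373179], nat_lit 1271250, nat_lit 1271250, nat_lit 780000, nat_lit 1762500, nat_lit 0, nat_lit 2118750, [nat_lit 780000, nat_lit 1435000, nat_lit 1271250], [nat_lit 23, nat_lit 40, nat_lit 40, nat_lit 80, nat_lit 12, nat_lit 456, nat_lit 225, nat_lit 12]⟩, C1.Rw.none,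
 ⟨nat_lit 4472, nat_lit 5478, ⟨.ofNat (nat_lit 350132), .ofNat (nat_lit 574895), .ofNat (nat_lit 392815), .ofNat (nat_lit 617523), .ofNat (nat_lit 364042), .ofNat (nat_lit 567940), .ofNat (nat_lit 407143), .ofNat (nat_lit 610987)⟩, ⟨.negSucc (nat_lit 45522), .ofNat (nat_lit 516475), .negSucc (nat_lit 2834), .ofNat (nat_lit 559189), .negSucc (nat_lit 12423), .ofNat (nat_lit 497412), .ofNat (nat_lit 0), .ofNat (nat_lit 540545)⟩⟩, [⟨nat_lit 4, nat_lit 100, nat_lit 90, nat_lit 74, nat_lit 63582647⟩]⟩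
noncomputable def p054_l136 : Lf2 := ⟨nat_lit 0, nat_lit 18, [nat_lit 100, nat_lit 5, nat_lit 5, nat_lit 20], false, nat_lit 0, nat_lit 300, nat_lit 0, nat_lit 360, ⟨nat_lit 614, nat_lit 386, nat_lit 0, nat_lit 6, nat_lit 295, nat_lit 386, nat_lit 107, nat_lit 0, nat_lit 0, nat_lit 0, nat_lit 0, nat_lit 0, nat_lit 0, nat_lit 0, nat_lit 0, nat_lit 5000000, true, true⟩,
 nat_lit 0, nat_lit 8964, nat_lit 0, nat_lit 9954, nat_lit 5704, nat_lit 5748, nat_lit 439, nat_lit 0, nat_lit 0, nat_lit 515, nat_lit 0, nat_lit 0, nat_lit 0, nat_lit 0, nat_lit 0, nat_lit 386000, nat_lit 0, nat_lit 0, [(nat_lit 13, [(nat_lit 2, nat_lit 386)])],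
 ⟨p054_k15, nat_lit 0, nat_lit 0, nat_lit 252, nat_lit 0, nat_lit 48665, [nat_lit 2916535201, nat_lit 4603710000, nat_lit 6345715200], [], [nat_lit 27789783737, nat_lit 28713710857, nat_lit 34987284665, nat_lit 35689995729, nat_lit 27328745153, nat_lit 27900606701, nat_lit 32408251625, nat_lit 32887914456], nat_lit 1271250, nat_lit 1271250, nat_lit 1271250, nat_lit 1271250, nat_lit 0, nat_lit 2118750, [nat_lit 780000, nat_lit 1435000, nat_lit 1271250], [nat_lit 23, nat_lit 40, nat_lit 40, nat_lit 80, nat_lit 12, nat_lit 483, nat_lit 250, nat_lit 12]⟩, ⟨p054_k16, nat_lit 0, nat_lit 0, nat_lit 299, nat_lit 0, nat_lit 0, [nat_lit 3837500000, nat_lit 6042988000, nat_lit 8631612000], [], [nat_lit 20783608362, nat_lit 21662575922, nat_lit 28047679950, nat_lit 28253517279, nat_lit 20458765650, nat_lit 20637477646, nat_lit 23829584630, nat_lit 23654015242], nat_lit 0, nat_lit 0, nat_lit 0, nat_lit 0, nat_lit 0, nat_lit 0,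 [], [nat_lit 60, nat_lit 40, nat_lit 40, nat_lit 80, nat_lit 32, nat_lit 483, nat_lit 250, nat_lit 11]⟩,
 ⟨nat_lit 5000, nat_lit 5478, ⟨.ofNat (nat_lit 574920), .ofNat (nat_lit 867109), .ofNat (nat_lit 617614), .ofNat (nat_lit 909802), .ofNat (nat_lit 571415), .ofNat (nat_lit 849937), .ofNat (nat_lit 614253), .ofNat (nat_lit 892774)⟩, ⟨.negSucc (nat_lit 45522), .ofNat (nat_lit 516475), .negSucc (nat_lit 2832), .ofNat (nat_lit 559189), .negSucc (nat_lit 28572), .ofNat (nat_lit 507141), .ofNat (nat_lit 0), .ofNat (nat_lit 549998)⟩⟩, [⟨nat_lit 4, nat_lit 100, nat_lit 94, nat_lit 75, nat_lit 127515347⟩, ⟨nat_lit 7, nat_lit 77, nat_lit 100, nat_lit 72, nat_lit 77692674⟩]⟩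
noncomputable def p054_l137 : Lf2 := ⟨nat_lit 0, nat_lit 18, [nat_lit 100, nat_lit 5, nat_lit 5, nat_lit 20], false, nat_lit 0, nat_lit 280, nat_lit 0, nat_lit 360, ⟨nat_lit 564, nat_lit 436, nat_lit 0, nat_lit 6, nat_lit 289, nat_lit 436, nat_lit 98, nat_lit 0, nat_lit 0, nat_lit 0, nat_lit 0, nat_lit 0, nat_lit 0, nat_lit 0, nat_lit 0, nat_lit 5000000, true, true⟩,
 nat_lit 0, nat_lit 7112, nat_lit 0, nat_lit 1354, nat_lit 4923, nat_lit 5328, nat_lit 243, nat_lit 0, nat_lit 0, nat_lit 477, nat_lit 0, nat_lit 0, nat_lit 0, nat_lit 0, nat_lit 0, nat_lit 436000, nat_lit 0, nat_lit 0, [(nat_lit 16, [(nat_lit 2, nat_lit 436)])],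
 ⟨p054_k19, nat_lit 0, nat_lit 0, nat_lit 323, nat_lit 0, nat_lit 250307, [nat_lit 2774844801, nat_lit 3978265601, nat_lit 4419395733], [], [nat_lit 26956287002, nat_lit 27830237610, nat_lit 33457625785, nat_lit 34350543971, nat_lit 27218239871, nat_lit 27801140912, nat_lit 31382617236, nat_lit 31887108551], nat_lit 1271250, nat_lit 1271250, nat_lit 1271250, nat_lit 1271250, nat_lit 0, nat_lit 1977500, [nat_lit 780000, nat_lit 1435000, nat_lit 1271250], [nat_lit 8, nat_lit 40, nat_lit 40, nat_lit 80, nat_lit 1, nat_lit 401, nat_lit 175, nat_lit 11]⟩, ⟨p054_k16, nat_lit 0, nat_lit 0, nat_lit 297, nat_lit 0, nat_lit 0, [nat_lit 3525000000, nat_lit 5550888000, nat_lit 7928712000], [], [nat_lit 19087144302, nat_lit 19896415902, nat_lit 25587302479, nat_lit 25790435262, nat_lit 18745819230, nat_lit 18907125846, nat_lit 21742946373, nat_lit 21592289876], nat_lit 0, nat_lit 0, nat_lit 0, nat_lit 0, nat_lit 0, nat_lit 0,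 [], [nat_lit 60, nat_lit 40, nat_lit 40, nat_lit 80, nat_lit 32, nat_lit 483, nat_lit 250, nat_lit 11]⟩,
 ⟨nat_lit 4472, nat_lit 5000, ⟨.ofNat (nat_lit 571423), .ofNat (nat_lit 842833), .ofNat (nat_lit 614256), .ofNat (nat_lit 885667), .ofNat (nat_lit 567973), .ofNat (nat_lit 826271), .ofNat (nat_lit 611081), .ofNat (nat_lit 869380)⟩, ⟨.negSucc (nat_lit 28572), .ofNat (nat_lit 471427), .ofNat (nat_lit 0), .ofNat (nat_lit 514284), .negSucc (nat_lit 12423), .ofNat (nat_lit 463423), .ofNat (nat_lit 0), .ofNat (nat_lit 506556)⟩⟩, [⟨nat_lit 16, nat_lit 85, nat_lit 100, nat_lit 73, nat_lit 133439944⟩, ⟨nat_lit 7, nat_lit 77, nat_lit 100, nat_lit 72, nat_lit 72012715⟩]⟩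
noncomputable def p054_l138 : Lf2 := ⟨nat_lit 0, nat_lit 18, [nat_lit 100, nat_lit 5, nat_lit 5, nat_lit 20], true, nat_lit 0, nat_lit 300, nat_lit 0, nat_lit 360, ⟨nat_lit 0, nat_lit 1000, nat_lit 0, nat_lit 5, nat_lit 114, nat_lit 1000, nat_lit 106, nat_lit 0, nat_lit 0, nat_lit 0, nat_lit 0, nat_lit 0, nat_lit 0, nat_lit 0, nat_lit 0, nat_lit 5000000, false, false⟩,
 nat_lit 0, nat_lit 7686, nat_lit 0, nat_lit 0, nat_lit 4891, nat_lit 0, nat_lit 9, nat_lit 0, nat_lit 0, nat_lit 0, nat_lit 0, nat_lit 0, nat_lit 0, nat_lit 0, nat_lit 0, nat_lit 458800, nat_lit 0, nat_lit 0, [(nat_lit 13, [(nat_lit 1, nat_lit 902), (nat_lit 2, nat_lit 98)]), (nat_lit 16, [(nat_lit 1, nat_lit 902), (nat_lit 2, nat_lit 98)])],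
 ⟨p054_k15, nat_lit 0, nat_lit 0, nat_lit 510, nat_lit 0, nat_lit 281580, [nat_lit 2093343734, nat_lit 2787238801, nat_lit 1928096000], [], [nat_lit 32358193663, nat_lit 29271026505, nat_lit 25563256961, nat_lit 27264657421, nat_lit 28354405847, nat_lit 29546731658, nat_lit 30693910080, nat_lit 27557689806], nat_lit 1271250, nat_lit 1271250, nat_lit 88400, nat_lit 780000, nat_lit 0, nat_lit 2118750, [nat_lit 780000, nat_lit 1435000, nat_lit 1271250], [nat_lit 23, nat_lit 40, nat_lit 40, nat_lit 80, nat_lit 12, nat_lit 428, nat_lit 200, nat_lit 11]⟩, C1.Rw.none,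
 ⟨nat_lit 4472, nat_lit 5478, ⟨.ofNat (nat_lit 155307), .ofNat (nat_lit 350132), .ofNat (nat_lit 198021), .ofNat (nat_lit 392815), .ofNat (nat_lit 187299), .ofNat (nat_lit 364042), .ofNat (nat_lit 230432), .ofNat (nat_lit 407143)⟩, ⟨.negSucc (nat_lit 45522), .ofNat (nat_lit 516475), .negSucc (nat_lit 2834), .ofNat (nat_lit 559189), .negSucc (nat_lit 12423), .ofNat (nat_lit 497412), .ofNat (nat_lit 0), .ofNat (nat_lit 540545)⟩⟩, [⟨nat_lit 0, nat_lit 100, nat_lit 87, nat_lit 59, nat_lit 50313856⟩, ⟨nat_lit 4, nat_lit 100, nat_lit 90, nat_lit 74, nat_lit 78856976⟩]⟩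
noncomputable def p054_l139 : Lf2 := ⟨nat_lit 0, nat_lit 18, [nat_lit 100, nat_lit 5, nat_lit 5, nat_lit 20], true, nat_lit 0, nat_lit 300, nat_lit 0, nat_lit 360, ⟨nat_lit 0, nat_lit 1000, nat_lit 0, nat_lit 5, nat_lit 194, nat_lit 1000, nat_lit 106, nat_lit 0, nat_lit 0, nat_lit 0, nat_lit 0, nat_lit 0, nat_lit 0, nat_lit 0, nat_lit 0, nat_lit 5000000, false, false⟩,
 nat_lit 0, nat_lit 9959, nat_lit 0, nat_lit 1779, nat_lit 6337, nat_lit 0, nat_lit 0, nat_lit 0, nat_lit 0, nat_lit 0, nat_lit 0, nat_lit 0, nat_lit 0, nat_lit 0, nat_lit 0, nat_lit 469600, nat_lit 0, nat_lit 0, [(nat_lit 13, [(nat_lit 1, nat_lit 884), (nat_lit 2, nat_lit 116)]), (nat_lit 16, [(nat_lit 1, nat_lit 884), (nat_lit 2, nat_lit 116)])],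
 ⟨p054_k15, nat_lit 0, nat_lit 0, nat_lit 389, nat_lit 0, nat_lit 281580, [nat_lit 2098170134, nat_lit 2771229601, nat_lit 1840832000], [], [nat_lit 34525985815, nat_lit 27824760403, nat_lit 26357347536, nat_lit 28813571056, nat_lit 24500755872, nat_lit 26388344271, nat_lit 32638924810, nat_lit 27009373179], nat_lit 1271250, nat_lit 1271250, nat_lit 780000, nat_lit 1762500, nat_lit 0, nat_lit 2118750, [nat_lit 780000, nat_lit 1435000, nat_lit 1271250], [nat_lit 23, nat_lit 40, nat_lit 40, nat_lit 80, nat_lit 12, nat_lit 456, nat_lit 225, nat_lit 12]⟩, C1.Rw.none,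
 ⟨nat_lit 4472, nat_lit 5478, ⟨.ofNat (nat_lit 350132), .ofNat (nat_lit 574895), .ofNat (nat_lit 392815), .ofNat (nat_lit 617523), .ofNat (nat_lit 364042), .ofNat (nat_lit 567940), .ofNat (nat_lit 407143), .ofNat (nat_lit 610987)⟩, ⟨.negSucc (nat_lit 45522), .ofNat (nat_lit 516475), .negSucc (nat_lit 2834), .ofNat (nat_lit 559189), .negSucc (nat_lit 12423), .ofNat (nat_lit 497412), .ofNat (nat_lit 0), .ofNat (nat_lit 540545)⟩⟩, [⟨nat_lit 4, nat_lit 100, nat_lit 90, nat_lit 74, nat_lit 63582647⟩]⟩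
noncomputable def p054_l140 : Lf2 := ⟨nat_lit 0, nat_lit 18, [nat_lit 100, nat_lit 5, nat_lit 5, nat_lit 20], false, nat_lit 0, nat_lit 300, nat_lit 0, nat_lit 360, ⟨nat_lit 495, nat_lit 505, nat_lit 0, nat_lit 6, nat_lit 295, nat_lit 505, nat_lit 107, nat_lit 0, nat_lit 0, nat_lit 0, nat_lit 0, nat_lit 0, nat_lit 0, nat_lit 0, nat_lit 0, nat_lit 5000000, true, true⟩,
 nat_lit 10907, nat_lit 0, nat_lit 0, nat_lit 5644, nat_lit 5331, nat_lit 4674, nat_lit 241, nat_lit 0, nat_lit 0, nat_lit 407, nat_lit 0, nat_lit 0, nat_lit 0, nat_lit 0, nat_lit 0, nat_lit 505000, nat_lit 0, nat_lit 0, [(nat_lit 13, [(nat_lit 2, nat_lit 505)])],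
 ⟨p054_k15, nat_lit 0, nat_lit 0, nat_lit 247, nat_lit 0, nat_lit 29918, [nat_lit 2803866001, nat_lit 4096175001, nat_lit 4642016000], [], [nat_lit 27781552444, nat_lit 28680290874, nat_lit 34771442185, nat_lit 35461670431, nat_lit 27722923418, nat_lit 28286774978, nat_lit 32035907453, nat_lit 32474544630], nat_lit 1271250, nat_lit 1271250, nat_lit 1271250, nat_lit 1271250, nat_lit 0, nat_lit 2118750, [nat_lit 780000, nat_lit 1435000, nat_lit 1271250], [nat_lit 23, nat_lit 40, nat_lit 40, nat_lit 80, nat_lit 12, nat_lit 483, nat_lit 250, nat_lit 12]⟩, ⟨p054_k16, nat_lit 0, nat_lit 0, nat_lit 363, nat_lit 0, nat_lit 50065, [nat_lit 3093750000, nat_lit 4871790000, nat_lit 6958710000], [], [nat_lit 19166495978, nat_lit 19514085434, nat_lit 22856980681, nat_lit 22889678893, nat_lit 18631492452, nat_lit 17332526906, nat_lit 19268487956, nat_lit 19121562114], nat_lit 1271250, nat_lit 1271250, nat_lit 1271250, nat_lit 1271250,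 nat_lit 0, nat_lit 2542500, [nat_lit 1412500, nat_lit 1271250, nat_lit 1271250], [nat_lit 60, nat_lit 40, nat_lit 40, nat_lit 80, nat_lit 32, nat_lit 483, nat_lit 250, nat_lit 11]⟩,
 ⟨nat_lit 5000, nat_lit 5478, ⟨.ofNat (nat_lit 574920), .ofNat (nat_lit 867109), .ofNat (nat_lit 617614), .ofNat (nat_lit 909802), .ofNat (nat_lit 571415), .ofNat (nat_lit 849937), .ofNat (nat_lit 614253), .ofNat (nat_lit 892774)⟩, ⟨.negSucc (nat_lit 45522), .ofNat (nat_lit 516475), .negSucc (nat_lit 2832), .ofNat (nat_lit 559189), .negSucc (nat_lit 28572), .ofNat (nat_lit 507141), .ofNat (nat_lit 0), .ofNat (nat_lit 549998)⟩⟩, [⟨nat_lit 16, nat_lit 94, nat_lit 100, nat_lit 75, nat_lit 103866253⟩, ⟨nat_lit 7, nat_lit 77, nat_lit 100, nat_lit 72, nat_lit 61473980⟩]⟩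
noncomputable def p054_l141 : Lf2 := ⟨nat_lit 0, nat_lit 18, [nat_lit 100, nat_lit 5, nat_lit 5, nat_lit 20], false, nat_lit 0, nat_lit 280, nat_lit 0, nat_lit 360, ⟨nat_lit 178, nat_lit 822, nat_lit 0, nat_lit 6, nat_lit 289, nat_lit 822, nat_lit 98, nat_lit 0, nat_lit 0, nat_lit 0, nat_lit 0, nat_lit 0, nat_lit 0, nat_lit 0, nat_lit 0, nat_lit 5000000, true, true⟩,
 nat_lit 3956, nat_lit 2195, nat_lit 0, nat_lit 731, nat_lit 4258, nat_lit 1695, nat_lit 253, nat_lit 0, nat_lit 0, nat_lit 148, nat_lit 0, nat_lit 0, nat_lit 0, nat_lit 0, nat_lit 0, nat_lit 328800, nat_lit 0, nat_lit 0, [(nat_lit 16, [(nat_lit 1, nat_lit 822)])],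
 ⟨p054_k19, nat_lit 0, nat_lit 0, nat_lit 294, nat_lit 0, nat_lit 155815, [nat_lit 2244800400, nat_lit 3084532801, nat_lit 3570100799], [], [nat_lit 25780844457, nat_lit 26608181225, nat_lit 31843520225, nat_lit 32581296409, nat_lit 26702674831, nat_lit 27267310317, nat_lit 30700566312, nat_lit 31154252217], nat_lit 1271250, nat_lit 1271250, nat_lit 1271250, nat_lit 1271250, nat_lit 0, nat_lit 1977500, [nat_lit 780000, nat_lit 1435000, nat_lit 1271250], [nat_lit 8, nat_lit 40, nat_lit 40, nat_lit 80, nat_lit 1, nat_lit 401, nat_lit 175, nat_lit 11]⟩, ⟨p054_k16, nat_lit 0, nat_lit 0, nat_lit 448, nat_lit 0, nat_lit 289679, [nat_lit 1112500000, nat_lit 1751876000, nat_lit 2502324000], [], [nat_lit 6870975960, nat_lit 6995657164, nat_lit 8159716720, nat_lit 8175293450, nat_lit 6692897296, nat_lit 6194454484, nat_lit 6879214477, nat_lit 6831250245], nat_lit 1271250, nat_lit 1271250, nat_lit 1271250, nat_lit 1271250, nat_lit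 0, nat_lit 2542500, [nat_lit 1412500, nat_lit 1271250, nat_lit 1271250], [nat_lit 60, nat_lit 40, nat_lit 40, nat_lit 80, nat_lit 32, nat_lit 483, nat_lit 250, nat_lit 11]⟩,
 ⟨nat_lit 4472, nat_lit 5000, ⟨.ofNat (nat_lit 571423), .ofNat (nat_lit 842833), .ofNat (nat_lit 614256), .ofNat (nat_lit 885667), .ofNat (nat_lit 567973), .ofNat (nat_lit 826271), .ofNat (nat_lit 611081), .ofNat (nat_lit 869380)⟩, ⟨.negSucc (nat_lit 28572), .ofNat (nat_lit 471427), .ofNat (nat_lit 0), .ofNat (nat_lit 514284), .negSucc (nat_lit 12423), .ofNat (nat_lit 463423), .ofNat (nat_lit 0), .ofNat (nat_lit 506556)⟩⟩, [⟨nat_lit 13, nat_lit 84, nat_lit 47, nat_lit 100, nat_lit 165983121⟩, ⟨nat_lit 16, nat_lit 85, nat_lit 100, nat_lit 73, nat_lit 93087997⟩, ⟨nat_lit 7, nat_lit 77, nat_lit 100, nat_lit 72, nat_lit 22378578⟩]⟩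
noncomputable def b_V_700_500_10_14 : St := ⟨true, nat_lit 1, nat_lit 2, nat_lit 2, nat_lit 80, nat_lit 280, nat_lit 320, nat_lit 200, nat_lit 240, nat_lit 16, nat_lit 396, nat_lit 40, nat_lit 80, nat_lit 0, nat_lit 300, nat_lit 0, nat_lit 360, nat_lit 40, nat_lit 72, nat_lit 0, nat_lit 0, nat_lit 0, nat_lit 0⟩
theorem d_V_700_500_10_14 (h : EB TB.env) : Dead b_V_700_500_10_14 := chkB_sound0 h (T :=
(.st (nat_lit 1)
(.spl (nat_lit 2) (nat_lit 120)
(.leaf p054_l134)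
(.spl (nat_lit 2) (nat_lit 240)
(.leaf p054_l135)
(.spl (nat_lit 0) (nat_lit 300)
(.leaf p054_l136)
(.trX (nat_lit 13) (nat_lit 88) (nat_lit 32) (nat_lit 100) (nat_lit 392) (.trX (nat_lit 16) (nat_lit 94) (nat_lit 100) (nat_lit 87) (nat_lit 280) (.leaf p054_l137))))))
(.spl (nat_lit 2) (nat_lit 120)
(.leaf p054_l138)
(.spl (nat_lit 2) (nat_lit 240)
(.leaf p054_l139)
(.spl (nat_lit 0) (nat_lit 300)
(.leaf p054_l140)
(.trX (nat_lit 13) (nat_lit 88) (nat_lit 32) (nat_lit 100) (nat_lit 392) (.trX (nat_lit 16) (nat_lit 94) (nat_lit 100) (nat_lit 87) (nat_lit 280) (.leaf p054_l141)))))))) (by decide +kernel)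

end B2
end Pool.Agent.Lib.MP_6947cd_al
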