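import Pool.Agent.Lib.MP_6947cd_al.ZB.Pre

/-!
Problem MP_6947cd_al (Chollet).  Case B, second entry in [2/5, 17/20]: certificates of the tree, part P055 (generated).
-/

set_option autoImplicit false
set_option linter.all false

namespace Pool.Agent.Lib.MP_6947cd_al
namespace B2

open Ent Fr B1 PkA

noncomputable def p055_k0 : C1.Kn := ⟨[nat_lit 60, nat_lit 120, nat_lit 140], [nat_lit 0, nat_lit 0, nat_lit 2047], [(nat_lit 0, nat_lit 0, nat_lit 0), (nat_lit 0, nat_lit 0, nat_lit 0), (nat_lit 1000, nat_lit 993, nat_lit 781)], (nat_lit 94, nat_lit 100, nat_lit 62)⟩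
noncomputable def p055_k1 : C1.Kn := ⟨[nat_lit 60, nat_lit 120], [nat_lit 0, nat_lit 913], [(nat_lit 0, nat_lit 0, nat_lit 0), (nat_lit 1000, nat_lit 905, nat_lit 238)], (nat_lit 87, nat_lit 100, nat_lit 60)⟩
noncomputable def p055_k2 : C1.Kn := ⟨[nat_lit 60, nat_lit 80, nat_lit 140], [nat_lit 0, nat_lit 0, nat_lit 1595], [(nat_lit 0, nat_lit 0, nat_lit 0), (nat_lit 0, nat_lit 0, nat_lit 0), (nat_lit 1000, nat_lit 917, nat_lit 415)], (nat_lit 94, nat_lit 100, nat_lit 62)⟩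
noncomputable def p055_k3 : C1.Kn := ⟨[nat_lit 100, nat_lit 120, nat_lit 160], [nat_lit 0, nat_lit 0, nat_lit 1063], [(nat_lit 0, nat_lit 0, nat_lit 0), (nat_lit 0, nat_lit 0, nat_lit 0), (nat_lit 924, nat_lit 1000, nat_lit 383)], (nat_lit 100, nat_lit 80, nat_lit 60)⟩
noncomputable def p055_k4 : C1.Kn := ⟨[nat_lit 60, nat_lit 140], [nat_lit 0, nat_lit 0], [(nat_lit 0, nat_lit 0, nat_lit 0), (nat_lit 0, nat_lit 0, nat_lit 0)], (nat_lit 94, nat_lit 100, nat_lit 62)⟩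
noncomputable def p055_k5 : C1.Kn := ⟨[nat_lit 100, nat_lit 160], [nat_lit 0, nat_lit 0], [(nat_lit 0, nat_lit 0, nat_lit 0), (nat_lit 0, nat_lit 0, nat_lit 0)], (nat_lit 100, nat_lit 80, nat_lit 60)⟩
noncomputable def p055_k6 : C1.Kn := ⟨[nat_lit 60, nat_lit 80, nat_lit 120], [nat_lit 0, nat_lit 304, nat_lit 1346], [(nat_lit 0, nat_lit 0, nat_lit 0), (nat_lit 1000, nat_lit 905, nat_lit 238), (nat_lit 1000, nat_lit 871, nat_lit 407)], (nat_lit 87, nat_lit 100, nat_lit 60)⟩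
noncomputable def p055_k7 : C1.Kn := ⟨[nat_lit 60, nat_lit 120], [nat_lit 0, nat_lit 0], [(nat_lit 0, nat_lit 0, nat_lit 0), (nat_lit 0, nat_lit 0, nat_lit 0)], (nat_lit 92, nat_lit 100, nat_lit 51)⟩
noncomputable def p055_k8 : C1.Kn := ⟨[nat_lit 100, nat_lit 160], [nat_lit 0, nat_lit 0], [(nat_lit 0, nat_lit 0, nat_lit 0), (nat_lit 0, nat_lit 0, nat_lit 0)], (nat_lit 100, nat_lit 86, nat_lit 51)⟩
noncomputable def p055_k9 : C1.Kn := ⟨[nat_lit 60, nat_lit 80, nat_lit 120], [nat_lit 0, nat_lit 304, nat_lit 1346], [(nat_lit 0, nat_lit 0, nat_lit 0), (nat_lit 1000, nat_lit 905, nat_lit 238), (nat_lit 1000, nat_lit 871, nat_lit 407)], (nat_lit 87, nat_lit 100, nat_lit 51)⟩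
noncomputable def p055_k10 : C1.Kn := ⟨[nat_lit 100, nat_lit 120, nat_lit 160], [nat_lit 0, nat_lit 0, nat_lit 1063], [(nat_lit 0, nat_lit 0, nat_lit 0), (nat_lit 0, nat_lit 0, nat_lit 0), (nat_lit 924, nat_lit 1000, nat_lit 383)], (nat_lit 100, nat_lit 86, nat_lit 51)⟩
noncomputable def p055_k11 : C1.Kn := ⟨[nat_lit 100, nat_lit 160], [nat_lit 0, nat_lit 761], [(nat_lit 0, nat_lit 0, nat_lit 0), (nat_lit 1000, nat_lit 1000, nat_lit 198)], (nat_lit 100, nat_lit 86, nat_lit 60)⟩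
noncomputable def p055_k12 : C1.Kn := ⟨[nat_lit 100, nat_lit 120, nat_lit 160], [nat_lit 0, nat_lit 254, nat_lit 1301], [(nat_lit 0, nat_lit 0, nat_lit 0), (nat_lit 1000, nat_lit 1000, nat_lit 198), (nat_lit 960, nat_lit 1000, nat_lit 392)], (nat_lit 100, nat_lit 86, nat_lit 60)⟩
noncomputable def p055_k13 : C1.Kn := ⟨[nat_lit 60, nat_lit 80, nat_lit 120], [nat_lit 0, nat_lit 0, nat_lit 1064], [(nat_lit 0, nat_lit 0, nat_lit 0), (nat_lit 0, nat_lit 0, nat_lit 0), (nat_lit 1000, nat_lit 917, nat_lit 415)], (nat_lit 92, nat_lit 100, nat_lit 44)⟩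
noncomputable def p055_k14 : C1.Kn := ⟨[nat_lit 60, nat_lit 80, nat_lit 100], [nat_lit 0, nat_lit 0, nat_lit 534], [(nat_lit 0, nat_lit 0, nat_lit 0), (nat_lit 0, nat_lit 0, nat_lit 0), (nat_lit 1000, nat_lit 917, nat_lit 393)], (nat_lit 92, nat_lit 100, nat_lit 28)⟩
noncomputable def p055_k15 : C1.Kn := ⟨[nat_lit 60, nat_lit 80, nat_lit 100], [nat_lit 0, nat_lit 151, nat_lit 679], [(nat_lit 0, nat_lit 0, nat_lit 0), (nat_lit 1000, nat_lit 953, nat_lit 118), (nat_lit 1000, nat_lit 894, nat_lit 411)], (nat_lit 91, nat_lit 100, nat_lit 28)⟩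
noncomputable def p055_k16 : C1.Kn := ⟨[nat_lit 60, nat_lit 100], [nat_lit 0, nat_lit 0], [(nat_lit 0, nat_lit 0, nat_lit 0), (nat_lit 0, nat_lit 0, nat_lit 0)], (nat_lit 92, nat_lit 100, nat_lit 28)⟩
noncomputable def p055_k17 : C1.Kn := ⟨[nat_lit 60, nat_lit 100], [nat_lit 0, nat_lit 151], [(nat_lit 0, nat_lit 0, nat_lit 0), (nat_lit 1000, nat_lit 977, nat_lit 59)], (nat_lit 92, nat_lit 100, nat_lit 28)⟩
noncomputable def p055_k18 : C1.Kn := ⟨[nat_lit 60, nat_lit 80, nat_lit 100], [nat_lit 0, nat_lit 151, nat_lit 679], [(nat_lit 0, nat_lit 0, nat_lit 0), (nat_lit 1000, nat_lit 953, nat_lit 118), (nat_lit 1000, nat_lit 894, nat_lit 411)], (nat_lit 89, nat_lit 100, nat_lit 44)⟩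
noncomputable def p055_k19 : C1.Kn := ⟨[nat_lit 60, nat_lit 100], [nat_lit 0, nat_lit 609], [(nat_lit 0, nat_lit 0, nat_lit 0), (nat_lit 1000, nat_lit 905, nat_lit 238)], (nat_lit 87, nat_lit 100, nat_lit 44)⟩
noncomputable def p055_k20 : C1.Kn := ⟨[nat_lit 60, nat_lit 80, nat_lit 100], [nat_lit 0, nat_lit 304, nat_lit 825], [(nat_lit 0, nat_lit 0, nat_lit 0), (nat_lit 1000, nat_lit 905, nat_lit 238), (nat_lit 1000, nat_lit 871, nat_lit 407)], (nat_lit 87, nat_lit 100, nat_lit 44)⟩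
noncomputable def p055_k21 : C1.Kn := ⟨[nat_lit 100, nat_lit 120, nat_lit 160], [nat_lit 0, nat_lit 0, nat_lit 1063], [(nat_lit 0, nat_lit 0, nat_lit 0), (nat_lit 0, nat_lit 0, nat_lit 0), (nat_lit 924, nat_lit 1000, nat_lit 383)], (nat_lit 100, nat_lit 90, nat_lit 44)⟩
noncomputable def p055_k22 : C1.Kn := ⟨[nat_lit 60, nat_lit 100, nat_lit 120], [nat_lit 0, nat_lit 0, nat_lit 1164], [(nat_lit 0, nat_lit 0, nat_lit 0), (nat_lit 0, nat_lit 0, nat_lit 0), (nat_lit 1000, nat_lit 933, nat_lit 572)], (nat_lit 92, nat_lit 100, nat_lit 44)⟩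
noncomputable def p055_k23 : C1.Kn := ⟨[nat_lit 100, nat_lit 140], [nat_lit 0, nat_lit 508], [(nat_lit 0, nat_lit 0, nat_lit 0), (nat_lit 1000, nat_lit 1000, nat_lit 198)], (nat_lit 100, nat_lit 94, nat_lit 44)⟩
noncomputable def p055_k24 : C1.Kn := ⟨[nat_lit 60, nat_lit 80, nat_lit 100], [nat_lit 0, nat_lit 456, nat_lit 976], [(nat_lit 0, nat_lit 0, nat_lit 0), (nat_lit 1000, nat_lit 859, nat_lit 351), (nat_lit 1000, nat_lit 848, nat_lit 406)], (nat_lit 84, nat_lit 100, nat_lit 44)⟩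
noncomputable def p055_k25 : C1.Kn := ⟨[nat_lit 100, nat_lit 120, nat_lit 140], [nat_lit 0, nat_lit 254, nat_lit 778], [(nat_lit 0, nat_lit 0, nat_lit 0), (nat_lit 1000, nat_lit 1000, nat_lit 198), (nat_lit 960, nat_lit 1000, nat_lit 392)], (nat_lit 100, nat_lit 94, nat_lit 44)⟩
noncomputable def p055_k26 : C1.Kn := ⟨[nat_lit 100, nat_lit 140, nat_lit 160], [nat_lit 0, nat_lit 0, nat_lit 1280], [(nat_lit 0, nat_lit 0, nat_lit 0), (nat_lit 0, nat_lit 0, nat_lit 0), (nat_lit 800, nat_lit 1000, nat_lit 600)], (nat_lit 100, nat_lit 90, nat_lit 44)⟩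
noncomputable def p055_k27 : C1.Kn := ⟨[nat_lit 60, nat_lit 120], [nat_lit 0, nat_lit 0], [(nat_lit 0, nat_lit 0, nat_lit 0), (nat_lit 0, nat_lit 0, nat_lit 0)], (nat_lit 92, nat_lit 100, nat_lit 44)⟩
noncomputable def p055_k28 : C1.Kn := ⟨[nat_lit 60, nat_lit 100], [nat_lit 0, nat_lit 302], [(nat_lit 0, nat_lit 0, nat_lit 0), (nat_lit 1000, nat_lit 953, nat_lit 118)], (nat_lit 89, nat_lit 100, nat_lit 44)⟩
noncomputable def p055_k29 : C1.Kn := ⟨[nat_lit 60, nat_lit 100], [nat_lit 0, nat_lit 0], [(nat_lit 0, nat_lit 0, nat_lit 0), (nat_lit 0, nat_lit 0, nat_lit 0)], (nat_lit 92, nat_lit 100, nat_lit 34)⟩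
noncomputable def p055_k30 : C1.Kn := ⟨[nat_lit 60, nat_lit 80, nat_lit 100], [nat_lit 0, nat_lit 0, nat_lit 534], [(nat_lit 0, nat_lit 0, nat_lit 0), (nat_lit 0, nat_lit 0, nat_lit 0), (nat_lit 1000, nat_lit 917, nat_lit 393)], (nat_lit 92, nat_lit 100, nat_lit 34)⟩
noncomputable def p055_k31 : C1.Kn := ⟨[nat_lit 100, nat_lit 120, nat_lit 140], [nat_lit 0, nat_lit 254, nat_lit 778], [(nat_lit 0, nat_lit 0, nat_lit 0), (nat_lit 1000, nat_lit 1000, nat_lit 198), (nat_lit 960, nat_lit 1000, nat_lit 392)], (nat_lit 100, nat_lit 97, nat_lit 34)⟩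
noncomputable def p055_k32 : C1.Kn := ⟨[nat_lit 100, nat_lit 120, nat_lit 140], [nat_lit 0, nat_lit 0, nat_lit 533], [(nat_lit 0, nat_lit 0, nat_lit 0), (nat_lit 0, nat_lit 0, nat_lit 0), (nat_lit 924, nat_lit 1000, nat_lit 383)], (nat_lit 100, nat_lit 94, nat_lit 34)⟩
noncomputable def p055_k33 : C1.Kn := ⟨[nat_lit 100, nat_lit 160], [nat_lit 0, nat_lit 0], [(nat_lit 0, nat_lit 0, nat_lit 0), (nat_lit 0, nat_lit 0, nat_lit 0)], (nat_lit 100, nat_lit 90, nat_lit 44)⟩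
noncomputable def p055_k34 : C1.Kn := ⟨[nat_lit 60, nat_lit 100, nat_lit 120], [nat_lit 0, nat_lit 609, nat_lit 1609], [(nat_lit 0, nat_lit 0, nat_lit 0), (nat_lit 1000, nat_lit 905, nat_lit 238), (nat_lit 1000, nat_lit 882, nat_lit 668)], (nat_lit 87, nat_lit 100, nat_lit 60)⟩
noncomputable def p055_k35 : C1.Kn := ⟨[nat_lit 100, nat_lit 140, nat_lit 160], [nat_lit 0, nat_lit 0, nat_lit 1280], [(nat_lit 0, nat_lit 0, nat_lit 0), (nat_lit 0, nat_lit 0, nat_lit 0), (nat_lit 800, nat_lit 1000, nat_lit 600)], (nat_lit 100, nat_lit 80, nat_lit 60)⟩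
noncomputable def p055_k36 : C1.Kn := ⟨[nat_lit 60, nat_lit 100, nat_lit 120], [nat_lit 0, nat_lit 909, nat_lit 1866], [(nat_lit 0, nat_lit 0, nat_lit 0), (nat_lit 1000, nat_lit 858, nat_lit 354), (nat_lit 1000, nat_lit 849, nat_lit 705)], (nat_lit 84, nat_lit 100, nat_lit 60)⟩
noncomputable def p055_k37 : C1.Kn := ⟨[nat_lit 60, nat_lit 80], [nat_lit 0, nat_lit 304], [(nat_lit 0, nat_lit 0, nat_lit 0), (nat_lit 1000, nat_lit 905, nat_lit 238)], (nat_lit 89, nat_lit 100, nat_lit 29)⟩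
noncomputable def p055_k38 : C1.Kn := ⟨[nat_lit 60, nat_lit 80, nat_lit 120], [nat_lit 0, nat_lit 456, nat_lit 1495], [(nat_lit 0, nat_lit 0, nat_lit 0), (nat_lit 1000, nat_lit 859, nat_lit 351), (nat_lit 1000, nat_lit 848, nat_lit 406)], (nat_lit 84, nat_lit 100, nat_lit 60)⟩
noncomputable def p055_k39 : C1.Kn := ⟨[nat_lit 60, nat_lit 80, nat_lit 120], [nat_lit 0, nat_lit 533, nat_lit 1600], [(nat_lit 0, nat_lit 0, nat_lit 0), (nat_lit 1000, nat_lit 837, nat_lit 397), (nat_lit 1000, nat_lit 833, nat_lit 417)], (nat_lit 82, nat_lit 100, nat_lit 60)⟩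
noncomputable def p055_k40 : C1.Kn := ⟨[nat_lit 60, nat_lit 100], [nat_lit 0, nat_lit 302], [(nat_lit 0, nat_lit 0, nat_lit 0), (nat_lit 1000, nat_lit 953, nat_lit 118)], (nat_lit 91, nat_lit 100, nat_lit 28)⟩
noncomputable def p055_k41 : C1.Kn := ⟨[nat_lit 60, nat_lit 80], [nat_lit 0, nat_lit 75], [(nat_lit 0, nat_lit 0, nat_lit 0), (nat_lit 1000, nat_lit 977, nat_lit 59)], (nat_lit 93, nat_lit 100, nat_lit 20)⟩
noncomputable def p055_k42 : C1.Kn := ⟨[nat_lit 60, nat_lit 80, nat_lit 100], [nat_lit 0, nat_lit 151, nat_lit 679], [(nat_lit 0, nat_lit 0, nat_lit 0), (nat_lit 1000, nat_lit 953, nat_lit 118), (nat_lit 1000, nat_lit 894, nat_lit 411)], (nat_lit 90, nat_lit 100, nat_lit 34)⟩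
noncomputable def p055_k43 : C1.Kn := ⟨[nat_lit 60, nat_lit 80, nat_lit 100], [nat_lit 0, nat_lit 195, nat_lit 724], [(nat_lit 0, nat_lit 0, nat_lit 0), (nat_lit 1000, nat_lit 939, nat_lit 152), (nat_lit 1000, nat_lit 887, nat_lit 413)], (nat_lit 89, nat_lit 100, nat_lit 34)⟩
noncomputable def p055_k44 : C1.Kn := ⟨[nat_lit 60, nat_lit 80, nat_lit 100], [nat_lit 0, nat_lit 211, nat_lit 738], [(nat_lit 0, nat_lit 0, nat_lit 0), (nat_lit 1000, nat_lit 934, nat_lit 165), (nat_lit 1000, nat_lit 885, nat_lit 412)], (nat_lit 89, nat_lit 100, nat_lit 34)⟩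
noncomputable def p055_k45 : C1.Kn := ⟨[nat_lit 60, nat_lit 80, nat_lit 100], [nat_lit 0, nat_lit 228, nat_lit 751], [(nat_lit 0, nat_lit 0, nat_lit 0), (nat_lit 1000, nat_lit 929, nat_lit 178), (nat_lit 1000, nat_lit 883, nat_lit 407)], (nat_lit 89, nat_lit 100, nat_lit 34)⟩
noncomputable def p055_k46 : C1.Kn := ⟨[nat_lit 60, nat_lit 80, nat_lit 100], [nat_lit 0, nat_lit 272, nat_lit 797], [(nat_lit 0, nat_lit 0, nat_lit 0), (nat_lit 1000, nat_lit 915, nat_lit 212), (nat_lit 1000, nat_lit 875, nat_lit 410)], (nat_lit 88, nat_lit 100, nat_lit 35)⟩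
noncomputable def p055_k47 : C1.Kn := ⟨[nat_lit 60, nat_lit 80, nat_lit 100], [nat_lit 0, nat_lit 288, nat_lit 811], [(nat_lit 0, nat_lit 0, nat_lit 0), (nat_lit 1000, nat_lit 910, nat_lit 225), (nat_lit 1000, nat_lit 873, nat_lit 409)], (nat_lit 88, nat_lit 100, nat_lit 35)⟩
noncomputable def p055_k48 : C1.Kn := ⟨[nat_lit 60, nat_lit 100], [nat_lit 0, nat_lit 909], [(nat_lit 0, nat_lit 0, nat_lit 0), (nat_lit 1000, nat_lit 858, nat_lit 354)], (nat_lit 84, nat_lit 100, nat_lit 44)⟩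
noncomputable def p055_l0 : Lf2 := ⟨nat_lit 0, nat_lit 10, [nat_lit 0, nat_lit 5, nat_lit 5, nat_lit 20], true, nat_lit 0, nat_lit 160, nat_lit 0, nat_lit 384, ⟨nat_lit 0, nat_lit 0, nat_lit 1000, nat_lit 5, nat_lit 156, nat_lit 267, nat_lit 64, nat_lit 1000, nat_lit 38400, nat_lit 263, nat_lit 1350, nat_lit 206, nat_lit 58168250, nat_lit 0, nat_lit 0, nat_lit 1949130, false, false⟩,
 nat_lit 0, nat_lit 0, nat_lit 0, nat_lit 5997, nat_lit 3391, nat_lit 0, nat_lit 0, nat_lit 0, nat_lit 0, nat_lit 0, nat_lit 0, nat_lit 0, nat_lit 0, nat_lit 0, nat_lit 144, nat_lit 658000, nat_lit 0, nat_lit 0, [(nat_lit 12, [(nat_lit 5, nat_lit 570), (nat_lit 6, nat_lit 430)])],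
 ⟨p055_k0, nat_lit 0, nat_lit 0, nat_lit 301, nat_lit 0, nat_lit 0, [nat_lit 3278098001, nat_lit 1244078000, nat_lit 312036000], [], [nat_lit 15811909559, nat_lit 16965522158, nat_lit 18270342274, nat_lit 19168518392, nat_lit 15774812531, nat_lit 16749696138, nat_lit 18192758670, nat_lit 19101475616], nat_lit 0, nat_lit 0, nat_lit 0, nat_lit 0, nat_lit 0, nat_lit 0, [], [nat_lit 99, nat_lit 40, nat_lit 40, nat_lit 80, nat_lit 17, nat_lit 317, nat_lit 100, nat_lit 9]⟩, C1.Rw.none,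
 ⟨nat_lit 5000, nat_lit 5478, ⟨.ofNat (nat_lit 155307), .ofNat (nat_lit 574920), .ofNat (nat_lit 198021), .ofNat (nat_lit 617614), .ofNat (nat_lit 171427), .ofNat (nat_lit 571415), .ofNat (nat_lit 214284), .ofNat (nat_lit 614253)⟩, ⟨.negSucc (nat_lit 2832), .ofNat (nat_lit 296923), .ofNat (nat_lit 0), .ofNat (nat_lit 339637), .ofNat (nat_lit 0), .ofNat (nat_lit 299999), .ofNat (nat_lit 0), .ofNat (nat_lit 342856)⟩⟩, []⟩
noncomputable def p055_l1 : Lf2 := ⟨nat_lit 0, nat_lit 10, [nat_lit 0, nat_lit 5, nat_lit 5, nat_lit 20], true, nat_lit 0, nat_lit 160, nat_lit 0, nat_lit 384, ⟨nat_lit 0, nat_lit 114, nat_lit 886, nat_lit 5, nat_lit 161, nat_lit 384, nat_lit 65, nat_lit 886, nat_lit 38400, nat_lit 263, nat_lit 1067, nat_lit 207, nat_lit 57639305, nat_lit 9360695, nat_lit 0, nat_lit 2022198, false, false⟩,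
 nat_lit 0, nat_lit 0, nat_lit 0, nat_lit 3997, nat_lit 3175, nat_lit 0, nat_lit 0, nat_lit 0, nat_lit 0, nat_lit 0, nat_lit 0, nat_lit 0, nat_lit 0, nat_lit 0, nat_lit 72, nat_lit 400000, nat_lit 0, nat_lit 0, [(nat_lit 15, [(nat_lit 1, nat_lit 114), (nat_lit 5, nat_lit 886)])],
 ⟨p055_k1, nat_lit 0, nat_lit 0, nat_lit 178, nat_lit 0, nat_lit 0, [nat_lit 2270103600, nat_lit 142138200], [], [nat_lit 16292780400, nat_lit 18001126460, nat_lit 19235507950, nat_lit 20242483900, nat_lit 16270245760, nat_lit 17413611101, nat_lit 19211887150, nat_lit 20255169400], nat_lit 0, nat_lit 0, nat_lit 0, nat_lit 0, nat_lit 0, nat_lit 0, [], [nat_lit 74, nat_lit 40, nat_lit 40, nat_lit 80, nat_lit 43, nat_lit 317, nat_lit 100, nat_lit 11]⟩, C1.Rw.none,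
 ⟨nat_lit 4472, nat_lit 5000, ⟨.ofNat (nat_lit 185713), .ofNat (nat_lit 571423), .ofNat (nat_lit 228562), .ofNat (nat_lit 614256), .ofNat (nat_lit 200895), .ofNat (nat_lit 567973), .ofNat (nat_lit 244020), .ofNat (nat_lit 611081)⟩, ⟨.ofNat (nat_lit 0), .ofNat (nat_lit 299999), .ofNat (nat_lit 0), .ofNat (nat_lit 342856), .ofNat (nat_lit 0), .ofNat (nat_lit 302621), .ofNat (nat_lit 0), .ofNat (nat_lit 345754)⟩⟩, []⟩
noncomputable def p055_l2 : Lf2 := ⟨nat_lit 0, nat_lit 10, [nat_lit 0, nat_lit 5, nat_lit 5, nat_lit 20], true, nat_lit 160, nat_lit 240, nat_lit 0, nat_lit 384, ⟨nat_lit 0, nat_lit 0, nat_lit 1000, nat_lit 5, nat_lit 114, nat_lit 1000, nat_lit 157, nat_lit 1000, nat_lit 50417, nat_lit 270, nat_lit 123267, nat_lit 301, nat_lit 52278821, nat_lit 0, nat_lit 0, nat_lit 3583672, false, false⟩,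
 nat_lit 0, nat_lit 0, nat_lit 0, nat_lit 5159, nat_lit 3559, nat_lit 0, nat_lit 118, nat_lit 0, nat_lit 0, nat_lit 0, nat_lit 0, nat_lit 0, nat_lit 0, nat_lit 0, nat_lit 90, nat_lit 421000, nat_lit 0, nat_lit 0, [(nat_lit 12, [(nat_lit 5, nat_lit 965), (nat_lit 6, nat_lit 35)]), (nat_lit 15, [(nat_lit 5, nat_lit 965), (nat_lit 6, nat_lit 35)])],
 ⟨p055_k0, nat_lit 0, nat_lit 0, nat_lit 160, nat_lit 0, nat_lit 0, [nat_lit 2417558000, nat_lit 630511001, nat_lit 180658000], [], [nat_lit 15199319422, nat_lit 17577896266, nat_lit 14652392022, nat_lit 16657897566, nat_lit 17674012851, nat_lit 20097711562, nat_lit 16841744878, nat_lit 18812719148], nat_lit 0, nat_lit 0, nat_lit 0, nat_lit 0, nat_lit 0, nat_lit 0, [], [nat_lit 99, nat_lit 40, nat_lit 40, nat_lit 80, nat_lit 17, nat_lit 317, nat_lit 100, nat_lit 9]⟩, C1.Rw.none,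
 ⟨nat_lit 4472, nat_lit 5478, ⟨.ofNat (nat_lit 155307), .ofNat (nat_lit 350132), .ofNat (nat_lit 198021), .ofNat (nat_lit 392815), .ofNat (nat_lit 187299), .ofNat (nat_lit 364042), .ofNat (nat_lit 230432), .ofNat (nat_lit 407143)⟩, ⟨.ofNat (nat_lit 296923), .ofNat (nat_lit 446789), .ofNat (nat_lit 339637), .ofNat (nat_lit 489503), .ofNat (nat_lit 302621), .ofNat (nat_lit 438578), .ofNat (nat_lit 345754), .ofNat (nat_lit 481711)⟩⟩, [⟨nat_lit 0, nat_lit 100, nat_lit 87, nat_lit 59, nat_lit 163227147⟩]⟩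
noncomputable def p055_l3 : Lf2 := ⟨nat_lit 0, nat_lit 10, [nat_lit 0, nat_lit 5, nat_lit 5, nat_lit 20], true, nat_lit 240, nat_lit 280, nat_lit 0, nat_lit 336, ⟨nat_lit 0, nat_lit 0, nat_lit 1000, nat_lit 5, nat_lit 100, nat_lit 1000, nat_lit 200, nat_lit 1000, nat_lit 4376, nat_lit 226, nat_lit 93750, nat_lit 290, nat_lit 49309990, nat_lit 0, nat_lit 0, nat_lit 3858183, false, false⟩,
 nat_lit 0, nat_lit 0, nat_lit 0, nat_lit 5199, nat_lit 3468, nat_lit 0, nat_lit 97, nat_lit 0, nat_lit 0, nat_lit 0, nat_lit 0, nat_lit 0, nat_lit 0, nat_lit 0, nat_lit 96, nat_lit 447400, nat_lit 0, nat_lit 0, [(nat_lit 12, [(nat_lit 5, nat_lit 921), (nat_lit 6, nat_lit 79)]), (nat_lit 15, [(nat_lit 5, nat_lit 921), (nat_lit 6, nat_lit 79)])],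
 ⟨p055_k0, nat_lit 0, nat_lit 0, nat_lit 172, nat_lit 0, nat_lit 0, [nat_lit 2517665201, nat_lit 695953401, nat_lit 215725200], [], [nat_lit 17686805584, nat_lit 19986529364, nat_lit 16839205894, nat_lit 18724150450, nat_lit 19539623072, nat_lit 22323761266, nat_lit 18416629290, nat_lit 20694871888], nat_lit 0, nat_lit 0, nat_lit 0, nat_lit 0, nat_lit 0, nat_lit 0, [], [nat_lit 99, nat_lit 40, nat_lit 40, nat_lit 80, nat_lit 17, nat_lit 317, nat_lit 100, nat_lit 9]⟩, C1.Rw.none,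
 ⟨nat_lit 4472, nat_lit 5478, ⟨.ofNat (nat_lit 155307), .ofNat (nat_lit 275199), .ofNat (nat_lit 198021), .ofNat (nat_lit 317898), .ofNat (nat_lit 187299), .ofNat (nat_lit 296064), .ofNat (nat_lit 230432), .ofNat (nat_lit 339182)⟩, ⟨.ofNat (nat_lit 446789), .ofNat (nat_lit 521722), .ofNat (nat_lit 489503), .ofNat (nat_lit 564436), .ofNat (nat_lit 438578), .ofNat (nat_lit 506556), .ofNat (nat_lit 481711), .ofNat (nat_lit 549689)⟩⟩, [⟨nat_lit 0, nat_lit 100, nat_lit 87, nat_lit 59, nat_lit 237377653⟩]⟩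
noncomputable def p055_l4 : Lf2 := ⟨nat_lit 0, nat_lit 10, [nat_lit 0, nat_lit 5, nat_lit 5, nat_lit 20], false, nat_lit 280, nat_lit 336, nat_lit 0, nat_lit 248, ⟨nat_lit 238, nat_lit 693, nat_lit 69, nat_lit 5, nat_lit 86, nat_lit 762, nat_lit 234, nat_lit 69, nat_lit 67436, nat_lit 200, nat_lit 68267, nat_lit 279, nat_lit 46816815, nat_lit 3484678, nat_lit 16698507, nat_lit 3957868, false, false⟩,
 nat_lit 0, nat_lit 0, nat_lit 0, nat_lit 22233, nat_lit 4742, nat_lit 3963, nat_lit 668, nat_lit 0, nat_lit 0, nat_lit 1304, nat_lit 0, nat_lit 0, nat_lit 0, nat_lit 0, nat_lit 0, nat_lit 762000, nat_lit 0, nat_lit 0, [(nat_lit 12, [(nat_lit 2, nat_lit 693), (nat_lit 6, nat_lit 69)]), (nat_lit 15, [(nat_lit 2, nat_lit 693), (nat_lit 6, nat_lit 69)])],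
 ⟨p055_k2, nat_lit 0, nat_lit 0, nat_lit 177, nat_lit 0, nat_lit 0, [nat_lit 2229857280, nat_lit 2949321200, nat_lit 1776072800], [], [nat_lit 21179526052, nat_lit 24230212067, nat_lit 20010599200, nat_lit 22771608440, nat_lit 25505553626, nat_lit 28230196257, nat_lit 23968996245, nat_lit 26680589783], nat_lit 0, nat_lit 0, nat_lit 0, nat_lit 0, nat_lit 0, nat_lit 0, [], [nat_lit 42, nat_lit 40, nat_lit 40, nat_lit 80, nat_lit 13, nat_lit 215, nat_lit 10, nat_lit 6]⟩, ⟨p055_k3, nat_lit 0, nat_lit 0, nat_lit 357, nat_lit 0, nat_lit 0, [nat_lit 1487500000, nat_lit 1896384000, nat_lit 2825536000], [], [nat_lit 6171757205, nat_lit 7264840853, nat_lit 4716141960, nat_lit 5639928288, nat_lit 3865800660, nat_lit 5081475691, nat_lit 2738547112, nat_lit 3658398977], nat_lit 0, nat_lit 0, nat_lit 0, nat_lit 0, nat_lit 0, nat_lit 0, [], [nat_lit 53, nat_lit 40, nat_lit 40, nat_lit 80, nat_lit 14, nat_lit 373, nat_lit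 150, nat_lit 10]⟩,
 ⟨nat_lit 4472, nat_lit 5478, ⟨.ofNat (nat_lit 155307), .ofNat (nat_lit 200266), .ofNat (nat_lit 198021), .ofNat (nat_lit 242980), .ofNat (nat_lit 187299), .ofNat (nat_lit 228086), .ofNat (nat_lit 230432), .ofNat (nat_lit 271219)⟩, ⟨.ofNat (nat_lit 521722), .ofNat (nat_lit 626629), .ofNat (nat_lit 564436), .ofNat (nat_lit 669343), .ofNat (nat_lit 506556), .ofNat (nat_lit 601725), .ofNat (nat_lit 549689), .ofNat (nat_lit 644858)⟩⟩, [⟨nat_lit 0, nat_lit 100, nat_lit 87, nat_lit 59, nat_lit 1191967687⟩, ⟨nat_lit 4, nat_lit 100, nat_lit 100, nat_lit 100, nat_lit 381027377⟩]⟩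
noncomputable def p055_l5 : Lf2 := ⟨nat_lit 0, nat_lit 10, [nat_lit 0, nat_lit 5, nat_lit 5, nat_lit 20], false, nat_lit 280, nat_lit 336, nat_lit 0, nat_lit 160, ⟨nat_lit 412, nat_lit 0, nat_lit 588, nat_lit 5, nat_lit 109, nat_lit 588, nat_lit 234, nat_lit 588, nat_lit 67436, nat_lit 200, nat_lit 109350, nat_lit 296, nat_lit 45578534, nat_lit 0, nat_lit 0, nat_lit 4247885, false, false⟩,
 nat_lit 0, nat_lit 0, nat_lit 0, nat_lit 25274, nat_lit 4299, nat_lit 5030, nat_lit 514, nat_lit 0, nat_lit 0, nat_lit 2067, nat_lit 0, nat_lit 0, nat_lit 0, nat_lit 0, nat_lit 0, nat_lit 588000, nat_lit 0, nat_lit 0, [(nat_lit 12, [(nat_lit 6, nat_lit 588)]), (nat_lit 15, [(nat_lit 6, nat_lit 588)])],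
 ⟨p055_k2, nat_lit 0, nat_lit 0, nat_lit 157, nat_lit 0, nat_lit 0, [nat_lit 1928424000, nat_lit 2129024000, nat_lit 965081600], [], [nat_lit 20046238802, nat_lit 22207666464, nat_lit 19389577832, nat_lit 21378890340, nat_lit 23411616126, nat_lit 25997648933, nat_lit 22476001361, nat_lit 24986805851], nat_lit 0, nat_lit 0, nat_lit 0, nat_lit 0, nat_lit 0, nat_lit 0, [], [nat_lit 42, nat_lit 40, nat_lit 40, nat_lit 80, nat_lit 13, nat_lit 226, nat_lit 20, nat_lit 6]⟩, ⟨p055_k3, nat_lit 0, nat_lit 0, nat_lit 328, nat_lit 0, nat_lit 0, [nat_lit 2575000000, nat_lit 3282816000, nat_lit 4891264000], [], [nat_lit 7907584943, nat_lit 8860939584, nat_lit 6683791447, nat_lit 7525402032, nat_lit 4094047912, nat_lit 5286683616, nat_lit 3251593296, nat_lit 4388252600], nat_lit 0, nat_lit 0, nat_lit 0, nat_lit 0, nat_lit 0, nat_lit 0, [], [nat_lit 53, nat_lit 40, nat_lit 40, nat_lit 80, nat_lit 14, nat_lit 345, nat_lit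 125, nat_lit 9]⟩,
 ⟨nat_lit 4472, nat_lit 5478, ⟨.ofNat (nat_lit 200266), .ofNat (nat_lit 275199), .ofNat (nat_lit 242980), .ofNat (nat_lit 317898), .ofNat (nat_lit 228086), .ofNat (nat_lit 296064), .ofNat (nat_lit 271219), .ofNat (nat_lit 339182)⟩, ⟨.ofNat (nat_lit 521722), .ofNat (nat_lit 626629), .ofNat (nat_lit 564436), .ofNat (nat_lit 669343), .ofNat (nat_lit 506556), .ofNat (nat_lit 601725), .ofNat (nat_lit 549689), .ofNat (nat_lit 644858)⟩⟩, [⟨nat_lit 0, nat_lit 100, nat_lit 82, nat_lit 76, nat_lit 711551315⟩, ⟨nat_lit 4, nat_lit 100, nat_lit 100, nat_lit 100, nat_lit 467630712⟩]⟩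
noncomputable def p055_l6 : Lf2 := ⟨nat_lit 0, nat_lit 10, [nat_lit 0, nat_lit 5, nat_lit 5, nat_lit 20], false, nat_lit 280, nat_lit 336, nat_lit 160, nat_lit 300, ⟨nat_lit 1000, nat_lit 0, nat_lit 0, nat_lit 0, nat_lit 0, nat_lit 0, nat_lit 0, nat_lit 0, nat_lit 0, nat_lit 0, nat_lit 0, nat_lit 0, nat_lit 0, nat_lit 0, nat_lit 0, nat_lit 0, false, false⟩,
 nat_lit 0, nat_lit 0, nat_lit 0, nat_lit 16115, nat_lit 6196, nat_lit 12115, nat_lit 1856, nat_lit 0, nat_lit 0, nat_lit 0, nat_lit 0, nat_lit 0, nat_lit 0, nat_lit 0, nat_lit 0, nat_lit 0, nat_lit 0, nat_lit 0, [],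
 ⟨p055_k2, nat_lit 0, nat_lit 0, nat_lit 157, nat_lit 0, nat_lit 0, [nat_lit 3282000000, nat_lit 4688000000, nat_lit 9842000000], [], [nat_lit 21889721808, nat_lit 24321587120, nat_lit 20641139928, nat_lit 23098747360, nat_lit 25798410903, nat_lit 28922115732, nat_lit 24312455351, nat_lit 27167273802], nat_lit 0, nat_lit 0, nat_lit 0, nat_lit 0, nat_lit 0, nat_lit 0, [], [nat_lit 42, nat_lit 40, nat_lit 40, nat_lit 80, nat_lit 13, nat_lit 226, nat_lit 20, nat_lit 6]⟩, ⟨p055_k3, nat_lit 0, nat_lit 0, nat_lit 75, nat_lit 0, nat_lit 0, [nat_lit 6250000000, nat_lit 7968000000, nat_lit 11872000000], [], [nat_lit 2183486960, nat_lit 6692152160, nat_lit 43004540, nat_lit 4375554240, nat_lit 19494630970, nat_lit 23046038660, nat_lit 16014037960, nat_lit 19484228305], nat_lit 0, nat_lit 0, nat_lit 0, nat_lit 0, nat_lit 0, nat_lit 0, [], [nat_lit 53, nat_lit 40, nat_lit 40, nat_lit 80, nat_lit 14, nat_lit 401, nat_lit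 175, nat_lit 10]⟩,
 zbF0, [⟨nat_lit 0, nat_lit 100, nat_lit 82, nat_lit 76, nat_lit 313966190⟩, ⟨nat_lit 16, nat_lit 100, nat_lit 100, nat_lit 100, nat_lit 121247017⟩, ⟨nat_lit 11, nat_lit 100, nat_lit 100, nat_lit 77, nat_lit 986032383⟩]⟩
noncomputable def p055_l7 : Lf2 := ⟨nat_lit 0, nat_lit 10, [nat_lit 0, nat_lit 5, nat_lit 5, nat_lit 20], true, nat_lit 240, nat_lit 336, nat_lit 0, nat_lit 364, ⟨nat_lit 0, nat_lit 1000, nat_lit 0, nat_lit 5, nat_lit 137, nat_lit 1000, nat_lit 220, nat_lit 0, nat_lit 0, nat_lit 0, nat_lit 0, nat_lit 0, nat_lit 45149622, nat_lit 7040999, nat_lit 14809379, nat_lit 4476967, false, false⟩,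
 nat_lit 0, nat_lit 0, nat_lit 0, nat_lit 5645, nat_lit 4389, nat_lit 0, nat_lit 0, nat_lit 0, nat_lit 0, nat_lit 0, nat_lit 0, nat_lit 0, nat_lit 0, nat_lit 0, nat_lit 0, nat_lit 603400, nat_lit 0, nat_lit 0, [(nat_lit 12, [(nat_lit 1, nat_lit 661), (nat_lit 2, nat_lit 339)]), (nat_lit 15, [(nat_lit 1, nat_lit 661), (nat_lit 2, nat_lit 339)])],
 ⟨p055_k2, nat_lit 0, nat_lit 0, nat_lit 73, nat_lit 0, nat_lit 0, [nat_lit 2019690841, nat_lit 2682730400, nat_lit 1642994400], [], [nat_lit 17415448689, nat_lit 19946441437, nat_lit 17659134277, nat_lit 20066753217, nat_lit 22904431054, nat_lit 25091293680, nat_lit 22825702035, nat_lit 24914985346], nat_lit 0, nat_lit 0, nat_lit 0, nat_lit 0, nat_lit 0, nat_lit 0, [], [nat_lit 42, nat_lit 40, nat_lit 40, nat_lit 80, nat_lit 13, nat_lit 345, nat_lit 125, nat_lit 9]⟩, C1.Rw.none,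
 ⟨nat_lit 4472, nat_lit 5478, ⟨.ofNat (nat_lit 275199), .ofNat (nat_lit 350132), .ofNat (nat_lit 317898), .ofNat (nat_lit 392815), .ofNat (nat_lit 296064), .ofNat (nat_lit 364042), .ofNat (nat_lit 339182), .ofNat (nat_lit 407143)⟩, ⟨.ofNat (nat_lit 446789), .ofNat (nat_lit 626629), .ofNat (nat_lit 489503), .ofNat (nat_lit 669343), .ofNat (nat_lit 438578), .ofNat (nat_lit 601725), .ofNat (nat_lit 481711), .ofNat (nat_lit 644858)⟩⟩, [⟨nat_lit 16, nat_lit 100, nat_lit 80, nat_lit 100, nat_lit 228841492⟩]⟩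
noncomputable def p055_l8 : Lf2 := ⟨nat_lit 0, nat_lit 10, [nat_lit 0, nat_lit 5, nat_lit 5, nat_lit 20], true, nat_lit 160, nat_lit 336, nat_lit 0, nat_lit 384, ⟨nat_lit 0, nat_lit 1000, nat_lit 0, nat_lit 5, nat_lit 194, nat_lit 1000, nat_lit 191, nat_lit 0, nat_lit 0, nat_lit 0, nat_lit 0, nat_lit 0, nat_lit 43486865, nat_lit 11896594, nat_lit 11616541, nat_lit 4798963, false, false⟩,
 nat_lit 0, nat_lit 0, nat_lit 0, nat_lit 3763, nat_lit 4149, nat_lit 0, nat_lit 0, nat_lit 0, nat_lit 0, nat_lit 0, nat_lit 0, nat_lit 0, nat_lit 0, nat_lit 0, nat_lit 0, nat_lit 250000, nat_lit 0, nat_lit 0, [(nat_lit 12, [(nat_lit 0, nat_lit 1000)]), (nat_lit 15, [(nat_lit 0, nat_lit 1000)])],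
 ⟨p055_k4, nat_lit 0, nat_lit 0, nat_lit 50, nat_lit 0, nat_lit 0, [nat_lit 2378800001, nat_lit 3513428572], [], [nat_lit 12816517409, nat_lit 16075340665, nat_lit 17077470897, nat_lit 19694916241, nat_lit 22204106709, nat_lit 24567091757, nat_lit 24669082227, nat_lit 26600490183], nat_lit 0, nat_lit 0, nat_lit 0, nat_lit 0, nat_lit 0, nat_lit 0, [], [nat_lit 82, nat_lit 40, nat_lit 40, nat_lit 80, nat_lit 63, nat_lit 373, nat_lit 150, nat_lit 10]⟩, C1.Rw.none,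
 ⟨nat_lit 4472, nat_lit 5478, ⟨.ofNat (nat_lit 350132), .ofNat (nat_lit 574895), .ofNat (nat_lit 392815), .ofNat (nat_lit 617523), .ofNat (nat_lit 364042), .ofNat (nat_lit 567940), .ofNat (nat_lit 407143), .ofNat (nat_lit 610987)⟩, ⟨.ofNat (nat_lit 296923), .ofNat (nat_lit 626629), .ofNat (nat_lit 339637), .ofNat (nat_lit 669343), .ofNat (nat_lit 302621), .ofNat (nat_lit 601725), .ofNat (nat_lit 345754), .ofNat (nat_lit 644858)⟩⟩, [⟨nat_lit 16, nat_lit 100, nat_lit 80, nat_lit 100, nat_lit 160106490⟩]⟩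
noncomputable def p055_l9 : Lf2 := ⟨nat_lit 0, nat_lit 10, [nat_lit 0, nat_lit 5, nat_lit 5, nat_lit 20], false, nat_lit 0, nat_lit 160, nat_lit 0, nat_lit 384, ⟨nat_lit 868, nat_lit 0, nat_lit 132, nat_lit 6, nat_lit 293, nat_lit 132, nat_lit 64, nat_lit 132, nat_lit 38400, nat_lit 263, nat_lit 548000, nat_lit 200, nat_lit 43620466, nat_lit 0, nat_lit 0, nat_lit 3233964, true, true⟩,
 nat_lit 0, nat_lit 0, nat_lit 0, nat_lit 3533, nat_lit 8027, nat_lit 9567, nat_lit 0, nat_lit 0, nat_lit 0, nat_lit 0, nat_lit 0, nat_lit 0, nat_lit 0, nat_lit 0, nat_lit 0, nat_lit 132000, nat_lit 0, nat_lit 0, [(nat_lit 12, [(nat_lit 6, nat_lit 132)]), (nat_lit 15, [(nat_lit 6, nat_lit 132)])],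
 ⟨p055_k4, nat_lit 0, nat_lit 0, nat_lit 199, nat_lit 0, nat_lit 0, [nat_lit 3139123200, nat_lit 7849222400], [], [nat_lit 29849428620, nat_lit 33037222256, nat_lit 41460419717, nat_lit 43261277770, nat_lit 23870308168, nat_lit 26538013892, nat_lit 33650929919, nat_lit 35188659644], nat_lit 0, nat_lit 0, nat_lit 0, nat_lit 0, nat_lit 0, nat_lit 0, [], [nat_lit 82, nat_lit 40, nat_lit 40, nat_lit 80, nat_lit 63, nat_lit 373, nat_lit 150, nat_lit 10]⟩, ⟨p055_k5, nat_lit 0, nat_lit 0, nat_lit 241, nat_lit 0, nat_lit 0, [nat_lit 5425000000, nat_lit 10304896000], [], [nat_lit 29078964704, nat_lit 30810864732, nat_lit 42416375637, nat_lit 42871558509, nat_lit 31453606628, nat_lit 31686668049, nat_lit 36820144324, nat_lit 36859726759], nat_lit 0, nat_lit 0, nat_lit 0, nat_lit 0, nat_lit 0, nat_lit 0, [], [nat_lit 107, nat_lit 40, nat_lit 40, nat_lit 80, nat_lit 12, nat_lit 538, nat_lit 300, nat_lit 14]⟩,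
 ⟨nat_lit 4472, nat_lit 5478, ⟨.ofNat (nat_lit 574895), .ofNat (nat_lit 866988), .ofNat (nat_lit 617523), .ofNat (nat_lit 909625), .ofNat (nat_lit 567940), .ofNat (nat_lit 832909), .ofNat (nat_lit 610987), .ofNat (nat_lit 875965)⟩, ⟨.negSucc (nat_lit 2834), .ofNat (nat_lit 296923), .ofNat (nat_lit 0), .ofNat (nat_lit 339637), .ofNat (nat_lit 0), .ofNat (nat_lit 302621), .ofNat (nat_lit 0), .ofNat (nat_lit 345754)⟩⟩, [⟨nat_lit 22, nat_lit 84, nat_lit 100, nat_lit 84, nat_lit 84013872⟩, ⟨nat_lit 22, nat_lit 100, nat_lit 40, nat_lit 100, nat_lit 42341303⟩]⟩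
noncomputable def p055_l10 : Lf2 := ⟨nat_lit 0, nat_lit 10, [nat_lit 0, nat_lit 5, nat_lit 5, nat_lit 20], false, nat_lit 160, nat_lit 336, nat_lit 0, nat_lit 384, ⟨nat_lit 1000, nat_lit 0, nat_lit 0, nat_lit 0, nat_lit 0, nat_lit 0, nat_lit 0, nat_lit 0, nat_lit 0, nat_lit 0, nat_lit 0, nat_lit 0, nat_lit 0, nat_lit 0, nat_lit 0, nat_lit 0, false, false⟩,
 nat_lit 0, nat_lit 0, nat_lit 0, nat_lit 18278, nat_lit 5758, nat_lit 8150, nat_lit 0, nat_lit 0, nat_lit 0, nat_lit 2080, nat_lit 0, nat_lit 0, nat_lit 0, nat_lit 0, nat_lit 0, nat_lit 0, nat_lit 0, nat_lit 0, [],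
 ⟨p055_k2, nat_lit 0, nat_lit 0, nat_lit 76, nat_lit 0, nat_lit 0, [nat_lit 3282000000, nat_lit 4688000000, nat_lit 9842000000], [], [nat_lit 18822504064, nat_lit 21420709024, nat_lit 28818071238, nat_lit 30803495813, nat_lit 26138803680, nat_lit 28037109959, nat_lit 33701803168, nat_lit 35034378542], nat_lit 0, nat_lit 0, nat_lit 0, nat_lit 0, nat_lit 0, nat_lit 0, [], [nat_lit 42, nat_lit 40, nat_lit 40, nat_lit 80, nat_lit 13, nat_lit 428, nat_lit 200, nat_lit 11]⟩, ⟨p055_k3, nat_lit 0, nat_lit 0, nat_lit 254, nat_lit 0, nat_lit 0, [nat_lit 6250000000, nat_lit 7968000000, nat_lit 11872000000], [], [nat_lit 27144660200, nat_lit 28477765800, nat_lit 38735780140, nat_lit 39369942240, nat_lit 30419945201, nat_lit 31156314201, nat_lit 38271850317, nat_lit 38540076369], nat_lit 0, nat_lit 0, nat_lit 0, nat_lit 0, nat_lit 0, nat_lit 0, [], [nat_lit 53, nat_lit 40, nat_lit 40, nat_lit 80, nat_lit 14, nat_lit 538,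 nat_lit 300, nat_lit 14]⟩,
 zbF0, [⟨nat_lit 4, nat_lit 100, nat_lit 100, nat_lit 100, nat_lit 348595444⟩, ⟨nat_lit 19, nat_lit 100, nat_lit 40, nat_lit 92, nat_lit 206847852⟩]⟩
noncomputable def b_V_700_500_20_0 : St := ⟨true, nat_lit 0, nat_lit 0, nat_lit 1, nat_lit 120, nat_lit 280, nat_lit 320, nat_lit 200, nat_lit 240, nat_lit 16, nat_lit 396, nat_lit 80, nat_lit 120, nat_lit 0, nat_lit 336, nat_lit 0, nat_lit 384, nat_lit 0, nat_lit 40, nat_lit 0, nat_lit 0, nat_lit 0, nat_lit 0⟩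
theorem d_V_700_500_20_0 (h : EB TB.env) : Dead b_V_700_500_20_0 := chkB_sound0 h (T :=
(.spl (nat_lit 2) (nat_lit 240)
(.spl (nat_lit 4) (nat_lit 160)
(.spl (nat_lit 0) (nat_lit 300)
(.leaf p055_l0)
(.trZ (nat_lit 0) (nat_lit 100) (nat_lit 87) (nat_lit 50) (nat_lit 24) (.leaf p055_l1)))
(.spl (nat_lit 2) (nat_lit 120)
(.spl (nat_lit 4) (nat_lit 240)
(.leaf p055_l2)
(.trX (nat_lit 23) (nat_lit 100) (nat_lit 59) (nat_lit 94) (nat_lit 364) (.spl (nat_lit 2) (nat_lit 80)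
(.trX (nat_lit 23) (nat_lit 100) (nat_lit 76) (nat_lit 82) (nat_lit 336) (.spl (nat_lit 4) (nat_lit 280)
(.leaf p055_l3)
(.trX (nat_lit 23) (nat_lit 100) (nat_lit 95) (nat_lit 87) (nat_lit 300) (.spl (nat_lit 2) (nat_lit 40)
(.trX (nat_lit 23) (nat_lit 94) (nat_lit 100) (nat_lit 62) (nat_lit 248) (.leaf p055_l4))
(.spl (nat_lit 5) (nat_lit 160)
(.leaf p055_l5)
(.leaf p055_l6))))))
(.leaf p055_l7))))
(.leaf p055_l8)))
(.spl (nat_lit 4) (nat_lit 160)
(.leaf p055_l9)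
(.leaf p055_l10)))) (by decide +kernel)
noncomputable def p055_l11 : Lf2 := ⟨nat_lit 0, nat_lit 10, [nat_lit 0, nat_lit 5, nat_lit 5, nat_lit 20], true, nat_lit 0, nat_lit 160, nat_lit 0, nat_lit 384, ⟨nat_lit 0, nat_lit 0, nat_lit 1000, nat_lit 5, nat_lit 156, nat_lit 267, nat_lit 64, nat_lit 1000, nat_lit 38400, nat_lit 263, nat_lit 1350, nat_lit 206, nat_lit 58168250, nat_lit 0, nat_lit 0, nat_lit 1949130, false, false⟩,
 nat_lit 0, nat_lit 0, nat_lit 0, nat_lit 5997, nat_lit 3391, nat_lit 0, nat_lit 0, nat_lit 0, nat_lit 0, nat_lit 0, nat_lit 0, nat_lit 0, nat_lit 0, nat_lit 0, nat_lit 144, nat_lit 658000, nat_lit 0, nat_lit 0, [(nat_lit 12, [(nat_lit 5, nat_lit 570), (nat_lit 6, nat_lit 430)])],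
 ⟨p055_k0, nat_lit 0, nat_lit 0, nat_lit 301, nat_lit 0, nat_lit 0, [nat_lit 3278098001, nat_lit 1244078000, nat_lit 312036000], [], [nat_lit 15811909559, nat_lit 16965522158, nat_lit 18270342274, nat_lit 19168518392, nat_lit 15774812531, nat_lit 16749696138, nat_lit 18192758670, nat_lit 19101475616], nat_lit 0, nat_lit 0, nat_lit 0, nat_lit 0, nat_lit 0, nat_lit 0, [], [nat_lit 99, nat_lit 40, nat_lit 40, nat_lit 80, nat_lit 17, nat_lit 317, nat_lit 100, nat_lit 9]⟩, C1.Rw.none,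
 ⟨nat_lit 5000, nat_lit 5478, ⟨.ofNat (nat_lit 155307), .ofNat (nat_lit 574920), .ofNat (nat_lit 198021), .ofNat (nat_lit 617614), .ofNat (nat_lit 171427), .ofNat (nat_lit 571415), .ofNat (nat_lit 214284), .ofNat (nat_lit 614253)⟩, ⟨.negSucc (nat_lit 2832), .ofNat (nat_lit 296923), .ofNat (nat_lit 0), .ofNat (nat_lit 339637), .ofNat (nat_lit 0), .ofNat (nat_lit 299999), .ofNat (nat_lit 0), .ofNat (nat_lit 342856)⟩⟩, []⟩
noncomputable def p055_l12 : Lf2 := ⟨nat_lit 0, nat_lit 10, [nat_lit 0, nat_lit 5, nat_lit 5, nat_lit 20], true, nat_lit 0, nat_lit 160, nat_lit 0, nat_lit 384, ⟨nat_lit 0, nat_lit 114, nat_lit 886, nat_lit 5, nat_lit 161, nat_lit 384, nat_lit 65, nat_lit 886, nat_lit 38400, nat_lit 263, nat_lit 1067, nat_lit 207, nat_lit 57639305, nat_lit 9360695, nat_lit 0, nat_lit 2022198, false, false⟩,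
 nat_lit 0, nat_lit 0, nat_lit 0, nat_lit 3997, nat_lit 3175, nat_lit 0, nat_lit 0, nat_lit 0, nat_lit 0, nat_lit 0, nat_lit 0, nat_lit 0, nat_lit 0, nat_lit 0, nat_lit 72, nat_lit 400000, nat_lit 0, nat_lit 0, [(nat_lit 15, [(nat_lit 1, nat_lit 114), (nat_lit 5, nat_lit 886)])],
 ⟨p055_k1, nat_lit 0, nat_lit 0, nat_lit 178, nat_lit 0, nat_lit 0, [nat_lit 2270103600, nat_lit 142138200], [], [nat_lit 16292780400, nat_lit 18001126460, nat_lit 19235507950, nat_lit 20242483900, nat_lit 16270245760, nat_lit 17413611101, nat_lit 19211887150, nat_lit 20255169400], nat_lit 0, nat_lit 0, nat_lit 0, nat_lit 0, nat_lit 0, nat_lit 0, [], [nat_lit 74, nat_lit 40, nat_lit 40, nat_lit 80, nat_lit 43, nat_lit 317, nat_lit 100, nat_lit 11]⟩, C1.Rw.none,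
 ⟨nat_lit 4472, nat_lit 5000, ⟨.ofNat (nat_lit 185713), .ofNat (nat_lit 571423), .ofNat (nat_lit 228562), .ofNat (nat_lit 614256), .ofNat (nat_lit 200895), .ofNat (nat_lit 567973), .ofNat (nat_lit 244020), .ofNat (nat_lit 611081)⟩, ⟨.ofNat (nat_lit 0), .ofNat (nat_lit 299999), .ofNat (nat_lit 0), .ofNat (nat_lit 342856), .ofNat (nat_lit 0), .ofNat (nat_lit 302621), .ofNat (nat_lit 0), .ofNat (nat_lit 345754)⟩⟩, []⟩
noncomputable def p055_l13 : Lf2 := ⟨nat_lit 0, nat_lit 10, [nat_lit 0, nat_lit 5, nat_lit 5, nat_lit 20], false, nat_lit 0, nat_lit 80, nat_lit 0, nat_lit 336, ⟨nat_lit 1000, nat_lit 0, nat_lit 0, nat_lit 0, nat_lit 0, nat_lit 0, nat_lit 0, nat_lit 0, nat_lit 0, nat_lit 0, nat_lit 0, nat_lit 0, nat_lit 0, nat_lit 0, nat_lit 0, nat_lit 0, false, false⟩,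
 nat_lit 0, nat_lit 0, nat_lit 23447, nat_lit 0, nat_lit 7003, nat_lit 10048, nat_lit 2085, nat_lit 0, nat_lit 0, nat_lit 2211, nat_lit 0, nat_lit 0, nat_lit 0, nat_lit 0, nat_lit 0, nat_lit 0, nat_lit 0, nat_lit 0, [],
 ⟨p055_k2, nat_lit 0, nat_lit 0, nat_lit 180, nat_lit 0, nat_lit 0, [nat_lit 3282000000, nat_lit 4688000000, nat_lit 9842000000], [], [nat_lit 21288135705, nat_lit 23568440446, nat_lit 28935203532, nat_lit 30729740520, nat_lit 16788113149, nat_lit 18181534588, nat_lit 23058720364, nat_lit 24780582544], nat_lit 0, nat_lit 0, nat_lit 0, nat_lit 0, nat_lit 0, nat_lit 0, [], [nat_lit 42, nat_lit 40, nat_lit 40, nat_lit 80, nat_lit 13, nat_lit 317, nat_lit 100, nat_lit 9]⟩, ⟨p055_k3, nat_lit 0, nat_lit 0, nat_lit 516, nat_lit 0, nat_lit 551024, [nat_lit 6250000000, nat_lit 7968000000, nat_lit 11872000000], [], [nat_lit 29700739015, nat_lit 30357300551, nat_lit 33141404640, nat_lit 33797966176,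 nat_lit 35279825095, nat_lit 27278281287, nat_lit 29612324672, nat_lit 30715972365], nat_lit 1271250, nat_lit 1271250, nat_lit 1271250, nat_lit 1271250, nat_lit 0, nat_lit 2373000, [nat_lit 1412500, nat_lit 1271250, nat_lit 1271250], [nat_lit 53, nat_lit 40, nat_lit 40, nat_lit 80, nat_lit 14, nat_lit 456, nat_lit 225, nat_lit 12]⟩,
 zbF0, [⟨nat_lit 22, nat_lit 94, nat_lit 100, nat_lit 62, nat_lit 246351595⟩]⟩
noncomputable def p055_l14 : Lf2 := ⟨nat_lit 0, nat_lit 10, [nat_lit 0, nat_lit 5, nat_lit 5, nat_lit 20], false, nat_lit 0, nat_lit 80, nat_lit 0, nat_lit 336, ⟨nat_lit 201, nat_lit 799, nat_lit 0, nat_lit 6, nat_lit 264, nat_lit 799, nat_lit 36, nat_lit 0, nat_lit 0, nat_lit 0, nat_lit 0, nat_lit 0, nat_lit 46632560, nat_lit 20367440, nat_lit 0, nat_lit 3071042, true, true⟩,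
 nat_lit 0, nat_lit 0, nat_lit 4482, nat_lit 0, nat_lit 3727, nat_lit 1920, nat_lit 761, nat_lit 0, nat_lit 0, nat_lit 375, nat_lit 0, nat_lit 0, nat_lit 0, nat_lit 0, nat_lit 0, nat_lit 319600, nat_lit 0, nat_lit 0, [(nat_lit 15, [(nat_lit 1, nat_lit 799)])],
 ⟨p055_k6, nat_lit 0, nat_lit 0, nat_lit 160, nat_lit 0, nat_lit 0, [nat_lit 2273821800, nat_lit 2809391201, nat_lit 3458106800], [], [nat_lit 21457640116, nat_lit 22530814402, nat_lit 24986287360, nat_lit 25890310585, nat_lit 20043178374, nat_lit 21057017098, nat_lit 23395059238, nat_lit 24299056785], nat_lit 0, nat_lit 0, nat_lit 0, nat_lit 0, nat_lit 0, nat_lit 0, [], [nat_lit 36, nat_lit 40, nat_lit 40, nat_lit 80, nat_lit 7, nat_lit 226, nat_lit 20, nat_lit 7]⟩, ⟨p055_k3, nat_lit 0, nat_lit 0, nat_lit 736, nat_lit 0, nat_lit 1036429, [nat_lit 1256250000, nat_lit 1601568000, nat_lit 2386272000], [], [nat_lit 7183020756, nat_lit 7216153392, nat_lit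 7471183008, nat_lit 7468363596, nat_lit 7153348188, nat_lit 6085513368, nat_lit 6200401640, nat_lit 6120794518], nat_lit 1271250, nat_lit 1271250, nat_lit 1271250, nat_lit 1271250, nat_lit 0, nat_lit 2373000, [nat_lit 1412500, nat_lit 1271250, nat_lit 1271250], [nat_lit 53, nat_lit 40, nat_lit 40, nat_lit 80, nat_lit 14, nat_lit 456, nat_lit 225, nat_lit 12]⟩,
 ⟨nat_lit 4472, nat_lit 5000, ⟨.ofNat (nat_lit 571423), .ofNat (nat_lit 714270), .ofNat (nat_lit 614256), .ofNat (nat_lit 757103), .ofNat (nat_lit 567973), .ofNat (nat_lit 703919), .ofNat (nat_lit 611081), .ofNat (nat_lit 747027)⟩, ⟨.ofNat (nat_lit 0), .ofNat (nat_lit 157141), .ofNat (nat_lit 0), .ofNat (nat_lit 199998), .ofNat (nat_lit 0), .ofNat (nat_lit 166665), .ofNat (nat_lit 0), .ofNat (nat_lit 200000)⟩⟩, [⟨nat_lit 10, nat_lit 100, nat_lit 70, nat_lit 61, nat_lit 15897771⟩, ⟨nat_lit 22, nat_lit 93, nat_lit 100, nat_lit 25, nat_lit 48009978⟩]⟩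
noncomputable def p055_l15 : Lf2 := ⟨nat_lit 0, nat_lit 10, [nat_lit 0, nat_lit 5, nat_lit 5, nat_lit 20], true, nat_lit 80, nat_lit 160, nat_lit 0, nat_lit 384, ⟨nat_lit 0, nat_lit 1000, nat_lit 0, nat_lit 6, nat_lit 266, nat_lit 1000, nat_lit 99, nat_lit 0, nat_lit 0, nat_lit 0, nat_lit 0, nat_lit 0, nat_lit 43126769, nat_lit 19677038, nat_lit 4196193, nat_lit 4323004, true, true⟩,
 nat_lit 0, nat_lit 0, nat_lit 0, nat_lit 3997, nat_lit 3633, nat_lit 0, nat_lit 0, nat_lit 0, nat_lit 0, nat_lit 0, nat_lit 0, nat_lit 0, nat_lit 0, nat_lit 0, nat_lit 0, nat_lit 400000, nat_lit 0, nat_lit 0, [(nat_lit 12, [(nat_lit 1, nat_lit 1000)]), (nat_lit 15, [(nat_lit 1, nat_lit 1000)])],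
 ⟨p055_k2, nat_lit 0, nat_lit 0, nat_lit 66, nat_lit 0, nat_lit 0, [nat_lit 2033400000, nat_lit 2718800000, nat_lit 2663600000], [], [nat_lit 16164726068, nat_lit 18898087892, nat_lit 20890131640, nat_lit 23123310928, nat_lit 17320979632, nat_lit 19778952080, nat_lit 21582045100, nat_lit 23604789536], nat_lit 0, nat_lit 0, nat_lit 0, nat_lit 0, nat_lit 0, nat_lit 0, [], [nat_lit 42, nat_lit 40, nat_lit 40, nat_lit 80, nat_lit 13, nat_lit 345, nat_lit 125, nat_lit 9]⟩, C1.Rw.none,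
 ⟨nat_lit 4472, nat_lit 5478, ⟨.ofNat (nat_lit 574895), .ofNat (nat_lit 724687), .ofNat (nat_lit 617523), .ofNat (nat_lit 767319), .ofNat (nat_lit 567940), .ofNat (nat_lit 703822), .ofNat (nat_lit 610987), .ofNat (nat_lit 746873)⟩, ⟨.ofNat (nat_lit 147057), .ofNat (nat_lit 296923), .ofNat (nat_lit 189763), .ofNat (nat_lit 339637), .ofNat (nat_lit 166665), .ofNat (nat_lit 302621), .ofNat (nat_lit 200000), .ofNat (nat_lit 345754)⟩⟩, []⟩
noncomputable def p055_l16 : Lf2 := ⟨nat_lit 0, nat_lit 7, [nat_lit 80, nat_lit 5, nat_lit 5, nat_lit 20], false, nat_lit 0, nat_lit 160, nat_lit 0, nat_lit 336, ⟨nat_lit 375, nat_lit 625, nat_lit 0, nat_lit 8, nat_lit 318, nat_lit 625, nat_lit 64, nat_lit 0, nat_lit 0, nat_lit 0, nat_lit 0, nat_lit 0, nat_lit 41011472, nat_lit 25988528, nat_lit 0, nat_lit 3338970, true, true⟩,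
 nat_lit 0, nat_lit 0, nat_lit 6520, nat_lit 0, nat_lit 5150, nat_lit 2794, nat_lit 0, nat_lit 0, nat_lit 0, nat_lit 0, nat_lit 0, nat_lit 0, nat_lit 0, nat_lit 0, nat_lit 0, nat_lit 625000, nat_lit 0, nat_lit 0, [(nat_lit 12, [(nat_lit 2, nat_lit 625)])],
 ⟨p055_k7, nat_lit 0, nat_lit 0, nat_lit 174, nat_lit 0, nat_lit 0, [nat_lit 3078875001, nat_lit 3509937500], [], [nat_lit 27554824700, nat_lit 28666040700, nat_lit 32697381361, nat_lit 33832272341, nat_lit 25363720702, nat_lit 26133907202, nat_lit 28894687502, nat_lit 29511851083], nat_lit 0, nat_lit 0, nat_lit 0, nat_lit 0, nat_lit 0, nat_lit 0, [], [nat_lit 74, nat_lit 40, nat_lit 40, nat_lit 80, nat_lit 43, nat_lit 249, nat_lit 40, nat_lit 7]⟩, ⟨p055_k8, nat_lit 0, nat_lit 0, nat_lit 398, nat_lit 0, nat_lit 329783, [nat_lit 2343750000, nat_lit 4452000000], [], [nat_lit 18257617616, nat_lit 18315284660, nat_lit 19524522433, nat_lit 19559679279, nat_lit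 16787021631, nat_lit 16769960748, nat_lit 17536451396, nat_lit 17504626252], nat_lit 1271250, nat_lit 1271250, nat_lit 1271250, nat_lit 1271250, nat_lit 0, nat_lit 2373000, [nat_lit 1412500, nat_lit 1271250], [nat_lit 107, nat_lit 40, nat_lit 40, nat_lit 80, nat_lit 12, nat_lit 373, nat_lit 150, nat_lit 9]⟩,
 ⟨nat_lit 5000, nat_lit 5478, ⟨.ofNat (nat_lit 724760), .ofNat (nat_lit 859617), .ofNat (nat_lit 746107), .ofNat (nat_lit 880964), .ofNat (nat_lit 714246), .ofNat (nat_lit 842795), .ofNat (nat_lit 735665), .ofNat (nat_lit 864214)⟩, ⟨.negSucc (nat_lit 2832), .ofNat (nat_lit 296923), .ofNat (nat_lit 0), .ofNat (nat_lit 339637), .ofNat (nat_lit 0), .ofNat (nat_lit 299999), .ofNat (nat_lit 0), .ofNat (nat_lit 342856)⟩⟩, [⟨nat_lit 10, nat_lit 100, nat_lit 47, nat_lit 81, nat_lit 1184352⟩, ⟨nat_lit 22, nat_lit 63, nat_lit 100, nat_lit 80, nat_lit 79296943⟩]⟩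
noncomputable def p055_l17 : Lf2 := ⟨nat_lit 0, nat_lit 7, [nat_lit 80, nat_lit 5, nat_lit 5, nat_lit 20], false, nat_lit 0, nat_lit 160, nat_lit 0, nat_lit 336, ⟨nat_lit 210, nat_lit 790, nat_lit 0, nat_lit 8, nat_lit 310, nat_lit 790, nat_lit 65, nat_lit 0, nat_lit 0, nat_lit 0, nat_lit 0, nat_lit 0, nat_lit 41834485, nat_lit 25165515, nat_lit 0, nat_lit 3309356, true, true⟩,
 nat_lit 0, nat_lit 0, nat_lit 4313, nat_lit 0, nat_lit 3944, nat_lit 1848, nat_lit 795, nat_lit 0, nat_lit 0, nat_lit 327, nat_lit 0, nat_lit 0, nat_lit 0, nat_lit 0, nat_lit 0, nat_lit 316000, nat_lit 0, nat_lit 0, [(nat_lit 15, [(nat_lit 1, nat_lit 790)])],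
 ⟨p055_k9, nat_lit 0, nat_lit 0, nat_lit 183, nat_lit 0, nat_lit 0, [nat_lit 2285178000, nat_lit 2830552000, nat_lit 3508028000], [], [nat_lit 25623384000, nat_lit 26518923632, nat_lit 30022914077, nat_lit 31074128839, nat_lit 24673199440, nat_lit 25438296400, nat_lit 27552452980, nat_lit 28218599607], nat_lit 0, nat_lit 0, nat_lit 0, nat_lit 0, nat_lit 0, nat_lit 0, [], [nat_lit 36, nat_lit 40, nat_lit 40, nat_lit 80, nat_lit 7, nat_lit 249, nat_lit 40, nat_lit 7]⟩, ⟨p055_k10, nat_lit 0, nat_lit 0, nat_lit 645, nat_lit 0, nat_lit 830624, [nat_lit 1312500000, nat_lit 1673280000, nat_lit 2493120000], [], [nat_lit 8113976235, nat_lit 8123953251, nat_lit 8575263279, nat_lit 8584424856, nat_lit 7079407709, nat_lit 7062644417, nat_lit 7370797345, nat_lit 7339258262], nat_lit 1271250, nat_lit 1271250, nat_lit 1271250, nat_lit 1271250, nat_lit 0, nat_lit 2373000, [nat_lit 1412500, nat_lit 1271250, nat_lit 1271250],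 [nat_lit 53, nat_lit 40, nat_lit 40, nat_lit 80, nat_lit 14, nat_lit 373, nat_lit 150, nat_lit 9]⟩,
 ⟨nat_lit 4472, nat_lit 5000, ⟨.ofNat (nat_lit 714270), .ofNat (nat_lit 828548), .ofNat (nat_lit 735687), .ofNat (nat_lit 849965), .ofNat (nat_lit 703919), .ofNat (nat_lit 812676), .ofNat (nat_lit 725474), .ofNat (nat_lit 834231)⟩, ⟨.ofNat (nat_lit 0), .ofNat (nat_lit 299999), .ofNat (nat_lit 0), .ofNat (nat_lit 342856), .ofNat (nat_lit 0), .ofNat (nat_lit 302621), .ofNat (nat_lit 0), .ofNat (nat_lit 345754)⟩⟩, [⟨nat_lit 13, nat_lit 84, nat_lit 51, nat_lit 100, nat_lit 61851561⟩, ⟨nat_lit 10, nat_lit 100, nat_lit 47, nat_lit 81, nat_lit 55455784⟩]⟩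
noncomputable def p055_l18 : Lf2 := ⟨nat_lit 1, nat_lit 10, [nat_lit 0, nat_lit 5, nat_lit 5, nat_lit 20], false, nat_lit 0, nat_lit 160, nat_lit 0, nat_lit 336, zbN0,
 nat_lit 0, nat_lit 0, nat_lit 0, nat_lit 0, nat_lit 0, nat_lit 0, nat_lit 0, nat_lit 0, nat_lit 0, nat_lit 0, nat_lit 0, nat_lit 0, nat_lit 0, nat_lit 0, nat_lit 0, nat_lit 0, nat_lit 0, nat_lit 0, [],
 C1.Rw.none, C1.Rw.none,
 zbF0, []⟩
noncomputable def p055_l19 : Lf2 := ⟨nat_lit 0, nat_lit 10, [nat_lit 0, nat_lit 5, nat_lit 5, nat_lit 20], false, nat_lit 0, nat_lit 160, nat_lit 0, nat_lit 336, ⟨nat_lit 1000, nat_lit 0, nat_lit 0, nat_lit 0, nat_lit 0, nat_lit 0, nat_lit 0, nat_lit 0, nat_lit 0, nat_lit 0, nat_lit 0, nat_lit 0, nat_lit 0, nat_lit 0, nat_lit 0, nat_lit 0, false, false⟩,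
 nat_lit 0, nat_lit 0, nat_lit 16448, nat_lit 0, nat_lit 9570, nat_lit 7866, nat_lit 0, nat_lit 0, nat_lit 0, nat_lit 3383, nat_lit 0, nat_lit 0, nat_lit 0, nat_lit 0, nat_lit 0, nat_lit 0, nat_lit 0, nat_lit 0, [],
 ⟨p055_k4, nat_lit 0, nat_lit 0, nat_lit 197, nat_lit 0, nat_lit 0, [nat_lit 3282000000, nat_lit 9842000000], [], [nat_lit 37852420160, nat_lit 39222773440, nat_lit 45011748288, nat_lit 45983179694, nat_lit 29198029920, nat_lit 30345102860, nat_lit 35217560545, nat_lit 36039325310], nat_lit 0, nat_lit 0, nat_lit 0, nat_lit 0, nat_lit 0, nat_lit 0, [], [nat_lit 82, nat_lit 40, nat_lit 40, nat_lit 80, nat_lit 63, nat_lit 249, nat_lit 40, nat_lit 6]⟩, ⟨p055_k11, nat_lit 0, nat_lit 0, nat_lit 483, nat_lit 0, nat_lit 465970, [nat_lit 6250000000, nat_lit 11872000000], [], [nat_lit 32699742649, nat_lit 32901411637, nat_lit 37604017225, nat_lit 37926525231, nat_lit 30543017068, nat_lit 30626956615, nat_lit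 34834672604, nat_lit 35112774097], nat_lit 1271250, nat_lit 1271250, nat_lit 1271250, nat_lit 1271250, nat_lit 0, nat_lit 2373000, [nat_lit 1412500, nat_lit 1271250], [nat_lit 107, nat_lit 40, nat_lit 40, nat_lit 80, nat_lit 12, nat_lit 373, nat_lit 150, nat_lit 9]⟩,
 zbF0, [⟨nat_lit 22, nat_lit 61, nat_lit 100, nat_lit 80, nat_lit 221413210⟩, ⟨nat_lit 10, nat_lit 74, nat_lit 62, nat_lit 100, nat_lit 63663353⟩]⟩
noncomputable def p055_l20 : Lf2 := ⟨nat_lit 0, nat_lit 10, [nat_lit 0, nat_lit 5, nat_lit 5, nat_lit 20], false, nat_lit 0, nat_lit 160, nat_lit 0, nat_lit 336, ⟨nat_lit 390, nat_lit 610, nat_lit 0, nat_lit 8, nat_lit 322, nat_lit 610, nat_lit 65, nat_lit 0, nat_lit 0, nat_lit 0, nat_lit 0, nat_lit 0, nat_lit 40692397, nat_lit 26307603, nat_lit 0, nat_lit 3349594, true, true⟩,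
 nat_lit 0, nat_lit 0, nat_lit 6197, nat_lit 0, nat_lit 4267, nat_lit 2963, nat_lit 1091, nat_lit 0, nat_lit 0, nat_lit 836, nat_lit 0, nat_lit 0, nat_lit 0, nat_lit 0, nat_lit 0, nat_lit 244000, nat_lit 0, nat_lit 0, [(nat_lit 15, [(nat_lit 1, nat_lit 610)])],
 ⟨p055_k6, nat_lit 0, nat_lit 0, nat_lit 186, nat_lit 0, nat_lit 0, [nat_lit 2512302000, nat_lit 3253768000, nat_lit 4520280000], [], [nat_lit 25625007500, nat_lit 26981590212, nat_lit 31519314238, nat_lit 32568595542, nat_lit 24372901920, nat_lit 25158780700, nat_lit 27984980970, nat_lit 28698993342], nat_lit 0, nat_lit 0, nat_lit 0, nat_lit 0, nat_lit 0, nat_lit 0, [], [nat_lit 36, nat_lit 40, nat_lit 40, nat_lit 80, nat_lit 7, nat_lit 249, nat_lit 40, nat_lit 7]⟩, ⟨p055_k12, nat_lit 0, nat_lit 0, nat_lit 657, nat_lit 0, nat_lit 875842, [nat_lit 2437500000, nat_lit 3107520000, nat_lit 4630080000], [], [nat_lit 14290895528, nat_lit 14329056428, nat_lit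 15114286527, nat_lit 15117207149, nat_lit 12876840877, nat_lit 12874315740, nat_lit 13494800090, nat_lit 13474035128], nat_lit 1271250, nat_lit 1271250, nat_lit 1271250, nat_lit 1271250, nat_lit 0, nat_lit 2373000, [nat_lit 1412500, nat_lit 1271250, nat_lit 1271250], [nat_lit 53, nat_lit 40, nat_lit 40, nat_lit 80, nat_lit 14, nat_lit 373, nat_lit 150, nat_lit 9]⟩,
 ⟨nat_lit 4472, nat_lit 5000, ⟨.ofNat (nat_lit 735687), .ofNat (nat_lit 864250), .ofNat (nat_lit 757103), .ofNat (nat_lit 885667), .ofNat (nat_lit 725474), .ofNat (nat_lit 847826), .ofNat (nat_lit 747027), .ofNat (nat_lit 869380)⟩, ⟨.ofNat (nat_lit 0), .ofNat (nat_lit 299999), .ofNat (nat_lit 0), .ofNat (nat_lit 342856), .ofNat (nat_lit 0), .ofNat (nat_lit 302621), .ofNat (nat_lit 0), .ofNat (nat_lit 345754)⟩⟩, [⟨nat_lit 10, nat_lit 100, nat_lit 47, nat_lit 81, nat_lit 52576721⟩, ⟨nat_lit 22, nat_lit 63, nat_lit 100, nat_lit 80, nat_lit 6180675⟩,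 ⟨nat_lit 10, nat_lit 74, nat_lit 63, nat_lit 100, nat_lit 41640219⟩]⟩
noncomputable def b_V_700_500_20_1 : St := ⟨true, nat_lit 0, nat_lit 1, nat_lit 1, nat_lit 120, nat_lit 280, nat_lit 320, nat_lit 200, nat_lit 240, nat_lit 16, nat_lit 396, nat_lit 80, nat_lit 120, nat_lit 0, nat_lit 160, nat_lit 0, nat_lit 384, nat_lit 0, nat_lit 40, nat_lit 0, nat_lit 0, nat_lit 0, nat_lit 0⟩
theorem d_V_700_500_20_1 (h : EB TB.env) : Dead b_V_700_500_20_1 := chkB_sound0 h (T :=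
(.spl (nat_lit 2) (nat_lit 240)
(.spl (nat_lit 0) (nat_lit 300)
(.leaf p055_l11)
(.trZ (nat_lit 0) (nat_lit 100) (nat_lit 87) (nat_lit 50) (nat_lit 24) (.leaf p055_l12)))
(.spl (nat_lit 2) (nat_lit 320)
(.spl (nat_lit 4) (nat_lit 80)
(.trX (nat_lit 22) (nat_lit 100) (nat_lit 76) (nat_lit 82) (nat_lit 336) (.spl (nat_lit 0) (nat_lit 300)
(.leaf p055_l13)
(.leaf p055_l14)))
(.leaf p055_l15))
(.trX (nat_lit 22) (nat_lit 82) (nat_lit 76) (nat_lit 100) (nat_lit 336) (.spl (nat_lit 1) (nat_lit 220)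
(.trX (nat_lit 13) (nat_lit 92) (nat_lit 31) (nat_lit 100) (nat_lit 392) (.spl (nat_lit 6) (nat_lit 28)
(.spl (nat_lit 0) (nat_lit 300)
(.leaf p055_l16)
(.trX (nat_lit 13) (nat_lit 87) (nat_lit 41) (nat_lit 100) (nat_lit 384) (.leaf p055_l17)))
(.leaf p055_l18)))
(.spl (nat_lit 0) (nat_lit 300)
(.leaf p055_l19)
(.trX (nat_lit 13) (nat_lit 88) (nat_lit 32) (nat_lit 100) (nat_lit 392) (.leaf p055_l20)))))))) (by decide +kernel)
noncomputable def p055_l21 : Lf2 := ⟨nat_lit 0, nat_lit 10, [nat_lit 0, nat_lit 5, nat_lit 5, nat_lit 20], true, nat_lit 160, nat_lit 240, nat_lit 0, nat_lit 384, ⟨nat_lit 0, nat_lit 0, nat_lit 1000, nat_lit 5, nat_lit 114, nat_lit 1000, nat_lit 157, nat_lit 1000, nat_lit 50417, nat_lit 270, nat_lit 123267, nat_lit 301, nat_lit 52278821, nat_lit 0, nat_lit 0, nat_lit 3583672, false, false⟩,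
 nat_lit 0, nat_lit 0, nat_lit 0, nat_lit 5159, nat_lit 3559, nat_lit 0, nat_lit 118, nat_lit 0, nat_lit 0, nat_lit 0, nat_lit 0, nat_lit 0, nat_lit 0, nat_lit 0, nat_lit 90, nat_lit 421000, nat_lit 0, nat_lit 0, [(nat_lit 12, [(nat_lit 5, nat_lit 965), (nat_lit 6, nat_lit 35)]), (nat_lit 15, [(nat_lit 5, nat_lit 965), (nat_lit 6, nat_lit 35)])],
 ⟨p055_k0, nat_lit 0, nat_lit 0, nat_lit 160, nat_lit 0, nat_lit 0, [nat_lit 2417558000, nat_lit 630511001, nat_lit 180658000], [], [nat_lit 15199319422, nat_lit 17577896266, nat_lit 14652392022, nat_lit 16657897566, nat_lit 17674012851, nat_lit 20097711562, nat_lit 16841744878, nat_lit 18812719148], nat_lit 0, nat_lit 0, nat_lit 0, nat_lit 0, nat_lit 0, nat_lit 0, [], [nat_lit 99, nat_lit 40, nat_lit 40, nat_lit 80, nat_lit 17, nat_lit 317, nat_lit 100, nat_lit 9]⟩, C1.Rw.none,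
 ⟨nat_lit 4472, nat_lit 5478, ⟨.ofNat (nat_lit 155307), .ofNat (nat_lit 350132), .ofNat (nat_lit 198021), .ofNat (nat_lit 392815), .ofNat (nat_lit 187299), .ofNat (nat_lit 364042), .ofNat (nat_lit 230432), .ofNat (nat_lit 407143)⟩, ⟨.ofNat (nat_lit 296923), .ofNat (nat_lit 446789), .ofNat (nat_lit 339637), .ofNat (nat_lit 489503), .ofNat (nat_lit 302621), .ofNat (nat_lit 438578), .ofNat (nat_lit 345754), .ofNat (nat_lit 481711)⟩⟩, [⟨nat_lit 0, nat_lit 100, nat_lit 87, nat_lit 59, nat_lit 163227147⟩]⟩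
noncomputable def p055_l22 : Lf2 := ⟨nat_lit 0, nat_lit 10, [nat_lit 0, nat_lit 5, nat_lit 5, nat_lit 20], true, nat_lit 240, nat_lit 280, nat_lit 0, nat_lit 336, ⟨nat_lit 0, nat_lit 0, nat_lit 1000, nat_lit 5, nat_lit 100, nat_lit 1000, nat_lit 200, nat_lit 1000, nat_lit 4376, nat_lit 226, nat_lit 93750, nat_lit 290, nat_lit 49309990, nat_lit 0, nat_lit 0, nat_lit 3858183, false, false⟩,
 nat_lit 0, nat_lit 0, nat_lit 0, nat_lit 5199, nat_lit 3468, nat_lit 0, nat_lit 97, nat_lit 0, nat_lit 0, nat_lit 0, nat_lit 0, nat_lit 0, nat_lit 0, nat_lit 0, nat_lit 96, nat_lit 447400, nat_lit 0, nat_lit 0, [(nat_lit 12, [(nat_lit 5, nat_lit 921), (nat_lit 6, nat_lit 79)]), (nat_lit 15, [(nat_lit 5, nat_lit 921), (nat_lit 6, nat_lit 79)])],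
 ⟨p055_k0, nat_lit 0, nat_lit 0, nat_lit 172, nat_lit 0, nat_lit 0, [nat_lit 2517665201, nat_lit 695953401, nat_lit 215725200], [], [nat_lit 17686805584, nat_lit 19986529364, nat_lit 16839205894, nat_lit 18724150450, nat_lit 19539623072, nat_lit 22323761266, nat_lit 18416629290, nat_lit 20694871888], nat_lit 0, nat_lit 0, nat_lit 0, nat_lit 0, nat_lit 0, nat_lit 0, [], [nat_lit 99, nat_lit 40, nat_lit 40, nat_lit 80, nat_lit 17, nat_lit 317, nat_lit 100, nat_lit 9]⟩, C1.Rw.none,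
 ⟨nat_lit 4472, nat_lit 5478, ⟨.ofNat (nat_lit 155307), .ofNat (nat_lit 275199), .ofNat (nat_lit 198021), .ofNat (nat_lit 317898), .ofNat (nat_lit 187299), .ofNat (nat_lit 296064), .ofNat (nat_lit 230432), .ofNat (nat_lit 339182)⟩, ⟨.ofNat (nat_lit 446789), .ofNat (nat_lit 521722), .ofNat (nat_lit 489503), .ofNat (nat_lit 564436), .ofNat (nat_lit 438578), .ofNat (nat_lit 506556), .ofNat (nat_lit 481711), .ofNat (nat_lit 549689)⟩⟩, [⟨nat_lit 0, nat_lit 100, nat_lit 87, nat_lit 59, nat_lit 237377653⟩]⟩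
noncomputable def p055_l23 : Lf2 := ⟨nat_lit 0, nat_lit 5, [nat_lit 4, nat_lit 5, nat_lit 5, nat_lit 20], true, nat_lit 280, nat_lit 320, nat_lit 0, nat_lit 248, ⟨nat_lit 0, nat_lit 1000, nat_lit 0, nat_lit 5, nat_lit 86, nat_lit 1000, nat_lit 224, nat_lit 0, nat_lit 0, nat_lit 0, nat_lit 0, nat_lit 0, nat_lit 47794547, nat_lit 3513969, nat_lit 15691484, nat_lit 3880923, false, false⟩,
 nat_lit 0, nat_lit 0, nat_lit 0, nat_lit 10015, nat_lit 4523, nat_lit 0, nat_lit 827, nat_lit 0, nat_lit 0, nat_lit 0, nat_lit 0, nat_lit 0, nat_lit 0, nat_lit 0, nat_lit 0, nat_lit 400000, nat_lit 0, nat_lit 0, [(nat_lit 12, [(nat_lit 1, nat_lit 1000)]), (nat_lit 15, [(nat_lit 1, nat_lit 1000)])],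
 ⟨p055_k13, nat_lit 0, nat_lit 0, nat_lit 147, nat_lit 0, nat_lit 0, [nat_lit 2033400000, nat_lit 2574800000, nat_lit 2711866667], [], [nat_lit 20824787809, nat_lit 23902494072, nat_lit 19736111680, nat_lit 22457277728, nat_lit 23719609321, nat_lit 26529478349, nat_lit 22280109408, nat_lit 25073389528], nat_lit 0, nat_lit 0, nat_lit 0, nat_lit 0, nat_lit 0, nat_lit 0, [], [nat_lit 36, nat_lit 40, nat_lit 40, nat_lit 80, nat_lit 7, nat_lit 215, nat_lit 10, nat_lit 6]⟩, C1.Rw.none,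
 ⟨nat_lit 4472, nat_lit 5478, ⟨.ofNat (nat_lit 155307), .ofNat (nat_lit 200266), .ofNat (nat_lit 198021), .ofNat (nat_lit 242980), .ofNat (nat_lit 187299), .ofNat (nat_lit 228086), .ofNat (nat_lit 230432), .ofNat (nat_lit 271219)⟩, ⟨.ofNat (nat_lit 521722), .ofNat (nat_lit 596655), .ofNat (nat_lit 543079), .ofNat (nat_lit 618012), .ofNat (nat_lit 506556), .ofNat (nat_lit 574534), .ofNat (nat_lit 528122), .ofNat (nat_lit 596101)⟩⟩, [⟨nat_lit 0, nat_lit 100, nat_lit 87, nat_lit 59, nat_lit 440858695⟩, ⟨nat_lit 16, nat_lit 100, nat_lit 88, nat_lit 94, nat_lit 274605000⟩]⟩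
noncomputable def p055_l24 : Lf2 := ⟨nat_lit 0, nat_lit 5, [nat_lit 4, nat_lit 5, nat_lit 5, nat_lit 20], true, nat_lit 280, nat_lit 320, nat_lit 0, nat_lit 248, ⟨nat_lit 0, nat_lit 1000, nat_lit 0, nat_lit 5, nat_lit 86, nat_lit 1000, nat_lit 233, nat_lit 0, nat_lit 0, nat_lit 0, nat_lit 0, nat_lit 0, nat_lit 46955798, nat_lit 3489051, nat_lit 16555151, nat_lit 3947360, false, false⟩,
 nat_lit 0, nat_lit 0, nat_lit 0, nat_lit 16321, nat_lit 4497, nat_lit 0, nat_lit 885, nat_lit 0, nat_lit 0, nat_lit 0, nat_lit 0, nat_lit 0, nat_lit 0, nat_lit 0, nat_lit 0, nat_lit 299500, nat_lit 0, nat_lit 0, [(nat_lit 12, [(nat_lit 0, nat_lit 670), (nat_lit 1, nat_lit 330)]), (nat_lit 15, [(nat_lit 0, nat_lit 670), (nat_lit 1, nat_lit 330)])],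
 ⟨p055_k13, nat_lit 0, nat_lit 0, nat_lit 147, nat_lit 0, nat_lit 0, [nat_lit 2254902000, nat_lit 2542104001, nat_lit 3062946667], [], [nat_lit 20983560710, nat_lit 23863586913, nat_lit 19961505015, nat_lit 22428304992, nat_lit 23681604872, nat_lit 26483430372, nat_lit 22251870645, nat_lit 25037277192], nat_lit 0, nat_lit 0, nat_lit 0, nat_lit 0, nat_lit 0, nat_lit 0, [], [nat_lit 36, nat_lit 40, nat_lit 40, nat_lit 80, nat_lit 7, nat_lit 215, nat_lit 10, nat_lit 6]⟩, C1.Rw.none,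
 ⟨nat_lit 4472, nat_lit 5478, ⟨.ofNat (nat_lit 155307), .ofNat (nat_lit 200266), .ofNat (nat_lit 198021), .ofNat (nat_lit 242980), .ofNat (nat_lit 187299), .ofNat (nat_lit 228086), .ofNat (nat_lit 230432), .ofNat (nat_lit 271219)⟩, ⟨.ofNat (nat_lit 543079), .ofNat (nat_lit 618012), .ofNat (nat_lit 564436), .ofNat (nat_lit 639369), .ofNat (nat_lit 528122), .ofNat (nat_lit 596101), .ofNat (nat_lit 549689), .ofNat (nat_lit 617667)⟩⟩, [⟨nat_lit 0, nat_lit 100, nat_lit 87, nat_lit 59, nat_lit 1014095606⟩, ⟨nat_lit 4, nat_lit 94, nat_lit 97, nat_lit 100, nat_lit 221520946⟩]⟩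
noncomputable def p055_l25 : Lf2 := ⟨nat_lit 0, nat_lit 5, [nat_lit 4, nat_lit 5, nat_lit 5, nat_lit 20], true, nat_lit 320, nat_lit 336, nat_lit 0, nat_lit 200, ⟨nat_lit 0, nat_lit 1000, nat_lit 0, nat_lit 5, nat_lit 86, nat_lit 1000, nat_lit 253, nat_lit 0, nat_lit 0, nat_lit 0, nat_lit 0, nat_lit 0, nat_lit 45011043, nat_lit 3421972, nat_lit 18566985, nat_lit 4081896, false, false⟩,
 nat_lit 0, nat_lit 0, nat_lit 0, nat_lit 27091, nat_lit 4267, nat_lit 0, nat_lit 712, nat_lit 0, nat_lit 0, nat_lit 0, nat_lit 0, nat_lit 0, nat_lit 0, nat_lit 0, nat_lit 0, nat_lit 400000, nat_lit 0, nat_lit 0, [(nat_lit 12, [(nat_lit 1, nat_lit 1000)]), (nat_lit 15, [(nat_lit 1, nat_lit 1000)])],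
 ⟨p055_k13, nat_lit 0, nat_lit 0, nat_lit 153, nat_lit 0, nat_lit 0, [nat_lit 2033400000, nat_lit 2574800000, nat_lit 2711866667], [], [nat_lit 23358962908, nat_lit 26076082892, nat_lit 22321946215, nat_lit 24717821912, nat_lit 24726137146, nat_lit 27315924389, nat_lit 23491851262, nat_lit 25948316863], nat_lit 0, nat_lit 0, nat_lit 0, nat_lit 0, nat_lit 0, nat_lit 0, [], [nat_lit 36, nat_lit 40, nat_lit 40, nat_lit 80, nat_lit 7, nat_lit 215, nat_lit 10, nat_lit 6]⟩, C1.Rw.none,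
 ⟨nat_lit 4472, nat_lit 5478, ⟨.ofNat (nat_lit 155307), .ofNat (nat_lit 200266), .ofNat (nat_lit 198021), .ofNat (nat_lit 242980), .ofNat (nat_lit 187299), .ofNat (nat_lit 228086), .ofNat (nat_lit 230432), .ofNat (nat_lit 271219)⟩, ⟨.ofNat (nat_lit 618012), .ofNat (nat_lit 647986), .ofNat (nat_lit 639369), .ofNat (nat_lit 669343), .ofNat (nat_lit 596101), .ofNat (nat_lit 623292), .ofNat (nat_lit 617667), .ofNat (nat_lit 644858)⟩⟩, [⟨nat_lit 0, nat_lit 100, nat_lit 87, nat_lit 59, nat_lit 1486822732⟩, ⟨nat_lit 4, nat_lit 94, nat_lit 97, nat_lit 100, nat_lit 457349619⟩]⟩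
noncomputable def p055_l26 : Lf2 := ⟨nat_lit 0, nat_lit 2, [nat_lit 10, nat_lit 5, nat_lit 5, nat_lit 20], true, nat_lit 280, nat_lit 320, nat_lit 0, nat_lit 300, ⟨nat_lit 0, nat_lit 1000, nat_lit 0, nat_lit 5, nat_lit 105, nat_lit 1000, nat_lit 231, nat_lit 0, nat_lit 0, nat_lit 0, nat_lit 0, nat_lit 0, nat_lit 46059736, nat_lit 4708440, nat_lit 16231824, nat_lit 4182224, false, false⟩,
 nat_lit 0, nat_lit 0, nat_lit 0, nat_lit 6050, nat_lit 4249, nat_lit 0, nat_lit 0, nat_lit 0, nat_lit 0, nat_lit 0, nat_lit 0, nat_lit 0, nat_lit 0, nat_lit 0, nat_lit 0, nat_lit 1000000, nat_lit 0, nat_lit 0, [(nat_lit 12, [(nat_lit 2, nat_lit 1000)])],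
 ⟨p055_k14, nat_lit 0, nat_lit 0, nat_lit 74, nat_lit 0, nat_lit 0, [nat_lit 1992960000, nat_lit 2327840000, nat_lit 1636000000], [], [nat_lit 19819663840, nat_lit 20408229186, nat_lit 19442986002, nat_lit 20009859557, nat_lit 22076305504, nat_lit 22661085968, nat_lit 21594969036, nat_lit 22105933579], nat_lit 0, nat_lit 0, nat_lit 0, nat_lit 0, nat_lit 0, nat_lit 0, [], [nat_lit 59, nat_lit 40, nat_lit 40, nat_lit 80, nat_lit 3, nat_lit 226, nat_lit 20, nat_lit 8]⟩, C1.Rw.none,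
 ⟨nat_lit 5244, nat_lit 5478, ⟨.ofNat (nat_lit 200266), .ofNat (nat_lit 275199), .ofNat (nat_lit 242980), .ofNat (nat_lit 317913), .ofNat (nat_lit 207314), .ofNat (nat_lit 280485), .ofNat (nat_lit 250085), .ofNat (nat_lit 323256)⟩, ⟨.ofNat (nat_lit 521722), .ofNat (nat_lit 596655), .ofNat (nat_lit 564436), .ofNat (nat_lit 639368), .ofNat (nat_lit 518028), .ofNat (nat_lit 591199), .ofNat (nat_lit 560799), .ofNat (nat_lit 633969)⟩⟩, [⟨nat_lit 0, nat_lit 100, nat_lit 91, nat_lit 63, nat_lit 160170429⟩, ⟨nat_lit 4, nat_lit 91, nat_lit 100, nat_lit 96, nat_lit 56825643⟩]⟩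
noncomputable def p055_l27 : Lf2 := ⟨nat_lit 0, nat_lit 2, [nat_lit 10, nat_lit 5, nat_lit 5, nat_lit 20], true, nat_lit 280, nat_lit 320, nat_lit 0, nat_lit 300, ⟨nat_lit 0, nat_lit 1000, nat_lit 0, nat_lit 5, nat_lit 107, nat_lit 1000, nat_lit 229, nat_lit 0, nat_lit 0, nat_lit 0, nat_lit 0, nat_lit 0, nat_lit 46090496, nat_lit 4880419, nat_lit 16029085, nat_lit 4199594, false, false⟩,
 nat_lit 0, nat_lit 0, nat_lit 0, nat_lit 6011, nat_lit 4091, nat_lit 0, nat_lit 593, nat_lit 0, nat_lit 0, nat_lit 0, nat_lit 0, nat_lit 0, nat_lit 0, nat_lit 0, nat_lit 0, nat_lit 400000, nat_lit 0, nat_lit 0, [(nat_lit 12, [(nat_lit 1, nat_lit 1000)])],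
 ⟨p055_k15, nat_lit 0, nat_lit 0, nat_lit 78, nat_lit 0, nat_lit 0, [nat_lit 2033400000, nat_lit 2439600000, nat_lit 2628400000], [], [nat_lit 20484298699, nat_lit 21062648713, nat_lit 20127818188, nat_lit 20685022933, nat_lit 22623664267, nat_lit 23144749277, nat_lit 22190478686, nat_lit 22693352523], nat_lit 0, nat_lit 0, nat_lit 0, nat_lit 0, nat_lit 0, nat_lit 0, [], [nat_lit 59, nat_lit 40, nat_lit 40, nat_lit 80, nat_lit 3, nat_lit 226, nat_lit 20, nat_lit 7]⟩, C1.Rw.none,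
 ⟨nat_lit 5000, nat_lit 5245, ⟨.ofNat (nat_lit 207314), .ofNat (nat_lit 280485), .ofNat (nat_lit 250085), .ofNat (nat_lit 323256), .ofNat (nat_lit 214284), .ofNat (nat_lit 285713), .ofNat (nat_lit 257141), .ofNat (nat_lit 328570)⟩, ⟨.ofNat (nat_lit 518028), .ofNat (nat_lit 591199), .ofNat (nat_lit 560799), .ofNat (nat_lit 633970), .ofNat (nat_lit 514284), .ofNat (nat_lit 585713), .ofNat (nat_lit 557141), .ofNat (nat_lit 628570)⟩⟩, [⟨nat_lit 0, nat_lit 100, nat_lit 88, nat_lit 68, nat_lit 147473625⟩, ⟨nat_lit 16, nat_lit 97, nat_lit 84, nat_lit 100, nat_lit 69512119⟩]⟩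
noncomputable def p055_l28 : Lf2 := ⟨nat_lit 0, nat_lit 2, [nat_lit 10, nat_lit 5, nat_lit 5, nat_lit 20], true, nat_lit 320, nat_lit 336, nat_lit 0, nat_lit 260, ⟨nat_lit 0, nat_lit 1000, nat_lit 0, nat_lit 5, nat_lit 104, nat_lit 1000, nat_lit 253, nat_lit 0, nat_lit 0, nat_lit 0, nat_lit 0, nat_lit 0, nat_lit 44101219, nat_lit 4566854, nat_lit 18331927, nat_lit 4311536, false, false⟩,
 nat_lit 0, nat_lit 0, nat_lit 0, nat_lit 100000, nat_lit 4709, nat_lit 0, nat_lit 0, nat_lit 0, nat_lit 0, nat_lit 0, nat_lit 0, nat_lit 0, nat_lit 0, nat_lit 0, nat_lit 0, nat_lit 1000000, nat_lit 0, nat_lit 0, [(nat_lit 12, [(nat_lit 2, nat_lit 1000)])],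
 ⟨p055_k16, nat_lit 0, nat_lit 0, nat_lit 96, nat_lit 0, nat_lit 0, [nat_lit 2335200001, nat_lit 1946399999], [], [nat_lit 22551156959, nat_lit 22837083110, nat_lit 21785438635, nat_lit 22061681138, nat_lit 23927475830, nat_lit 24265255862, nat_lit 22899593887, nat_lit 23163398289], nat_lit 0, nat_lit 0, nat_lit 0, nat_lit 0, nat_lit 0, nat_lit 0, [], [nat_lit 49, nat_lit 40, nat_lit 40, nat_lit 80, nat_lit 16, nat_lit 226, nat_lit 20, nat_lit 7]⟩, C1.Rw.none,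
 ⟨nat_lit 5361, nat_lit 5478, ⟨.ofNat (nat_lit 200266), .ofNat (nat_lit 275199), .ofNat (nat_lit 242980), .ofNat (nat_lit 317913), .ofNat (nat_lit 203801), .ofNat (nat_lit 277850), .ofNat (nat_lit 246540), .ofNat (nat_lit 320589)⟩, ⟨.ofNat (nat_lit 596655), .ofNat (nat_lit 626629), .ofNat (nat_lit 639369), .ofNat (nat_lit 669342), .ofNat (nat_lit 593930), .ofNat (nat_lit 623549), .ofNat (nat_lit 636668), .ofNat (nat_lit 666288)⟩⟩, [⟨nat_lit 4, nat_lit 89, nat_lit 100, nat_lit 95, nat_lit 2533116473⟩]⟩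
noncomputable def p055_l29 : Lf2 := ⟨nat_lit 0, nat_lit 2, [nat_lit 10, nat_lit 5, nat_lit 5, nat_lit 20], true, nat_lit 320, nat_lit 332, nat_lit 0, nat_lit 260, ⟨nat_lit 0, nat_lit 1000, nat_lit 0, nat_lit 5, nat_lit 105, nat_lit 1000, nat_lit 250, nat_lit 0, nat_lit 0, nat_lit 0, nat_lit 0, nat_lit 0, nat_lit 44280799, nat_lit 4660001, nat_lit 18059200, nat_lit 4311228, false, false⟩,
 nat_lit 0, nat_lit 0, nat_lit 0, nat_lit 26630, nat_lit 3896, nat_lit 0, nat_lit 4317, nat_lit 0, nat_lit 0, nat_lit 0, nat_lit 0, nat_lit 0, nat_lit 0, nat_lit 0, nat_lit 0, nat_lit 400000, nat_lit 0, nat_lit 0, [(nat_lit 12, [(nat_lit 1, nat_lit 1000)])],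
 ⟨p055_k17, nat_lit 0, nat_lit 0, nat_lit 94, nat_lit 0, nat_lit 0, [nat_lit 2068400000, nat_lit 2721200000], [], [nat_lit 22014396389, nat_lit 22253484385, nat_lit 21623681273, nat_lit 21877129944, nat_lit 22891851243, nat_lit 23204859858, nat_lit 22377805932, nat_lit 22629834933], nat_lit 0, nat_lit 0, nat_lit 0, nat_lit 0, nat_lit 0, nat_lit 0, [], [nat_lit 49, nat_lit 40, nat_lit 40, nat_lit 80, nat_lit 16, nat_lit 226, nat_lit 20, nat_lit 7]⟩, C1.Rw.none,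
 ⟨nat_lit 5244, nat_lit 5362, ⟨.ofNat (nat_lit 203801), .ofNat (nat_lit 277850), .ofNat (nat_lit 246540), .ofNat (nat_lit 320589), .ofNat (nat_lit 207314), .ofNat (nat_lit 280485), .ofNat (nat_lit 250085), .ofNat (nat_lit 323256)⟩, ⟨.ofNat (nat_lit 593930), .ofNat (nat_lit 616144), .ofNat (nat_lit 636668), .ofNat (nat_lit 658883), .ofNat (nat_lit 591199), .ofNat (nat_lit 613151), .ofNat (nat_lit 633970), .ofNat (nat_lit 655921)⟩⟩, [⟨nat_lit 0, nat_lit 100, nat_lit 91, nat_lit 63, nat_lit 134534562⟩, ⟨nat_lit 4, nat_lit 92, nat_lit 100, nat_lit 96, nat_lit 601335155⟩]⟩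
noncomputable def p055_l30 : Lf2 := ⟨nat_lit 0, nat_lit 2, [nat_lit 10, nat_lit 5, nat_lit 5, nat_lit 20], true, nat_lit 320, nat_lit 328, nat_lit 0, nat_lit 260, ⟨nat_lit 0, nat_lit 1000, nat_lit 0, nat_lit 5, nat_lit 107, nat_lit 1000, nat_lit 247, nat_lit 0, nat_lit 0, nat_lit 0, nat_lit 0, nat_lit 0, nat_lit 44475708, nat_lit 4796212, nat_lit 17728080, nat_lit 4314604, false, false⟩,
 nat_lit 0, nat_lit 0, nat_lit 0, nat_lit 10824, nat_lit 3909, nat_lit 0, nat_lit 1463, nat_lit 0, nat_lit 0, nat_lit 0, nat_lit 0, nat_lit 0, nat_lit 0, nat_lit 0, nat_lit 0, nat_lit 400000, nat_lit 0, nat_lit 0, [(nat_lit 12, [(nat_lit 1, nat_lit 1000)])],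
 ⟨p055_k15, nat_lit 0, nat_lit 0, nat_lit 100, nat_lit 0, nat_lit 0, [nat_lit 2033400000, nat_lit 2439600000, nat_lit 2628400000], [], [nat_lit 22407042733, nat_lit 22918279723, nat_lit 22024342314, nat_lit 22517896477, nat_lit 22903366925, nat_lit 23538410808, nat_lit 22500511066, nat_lit 22983492921], nat_lit 0, nat_lit 0, nat_lit 0, nat_lit 0, nat_lit 0, nat_lit 0, [], [nat_lit 59, nat_lit 40, nat_lit 40, nat_lit 80, nat_lit 3, nat_lit 226, nat_lit 20, nat_lit 7]⟩, C1.Rw.none,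
 ⟨nat_lit 5000, nat_lit 5245, ⟨.ofNat (nat_lit 207314), .ofNat (nat_lit 280485), .ofNat (nat_lit 250085), .ofNat (nat_lit 323256), .ofNat (nat_lit 214284), .ofNat (nat_lit 285713), .ofNat (nat_lit 257141), .ofNat (nat_lit 328570)⟩, ⟨.ofNat (nat_lit 591199), .ofNat (nat_lit 605833), .ofNat (nat_lit 633970), .ofNat (nat_lit 648604), .ofNat (nat_lit 585713), .ofNat (nat_lit 599999), .ofNat (nat_lit 628570), .ofNat (nat_lit 642856)⟩⟩, [⟨nat_lit 0, nat_lit 100, nat_lit 88, nat_lit 68, nat_lit 138448436⟩, ⟨nat_lit 16, nat_lit 97, nat_lit 84, nat_lit 100, nat_lit 352225536⟩]⟩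
noncomputable def p055_l31 : Lf2 := ⟨nat_lit 0, nat_lit 5, [nat_lit 4, nat_lit 5, nat_lit 5, nat_lit 20], true, nat_lit 280, nat_lit 336, nat_lit 0, nat_lit 300, ⟨nat_lit 0, nat_lit 1000, nat_lit 0, nat_lit 5, nat_lit 105, nat_lit 1000, nat_lit 237, nat_lit 0, nat_lit 0, nat_lit 0, nat_lit 0, nat_lit 0, nat_lit 45504433, nat_lit 4681709, nat_lit 16813858, nat_lit 4223360, false, false⟩,
 nat_lit 0, nat_lit 0, nat_lit 0, nat_lit 16237, nat_lit 4629, nat_lit 0, nat_lit 802, nat_lit 0, nat_lit 0, nat_lit 0, nat_lit 0, nat_lit 0, nat_lit 0, nat_lit 0, nat_lit 0, nat_lit 400000, nat_lit 0, nat_lit 0, [(nat_lit 12, [(nat_lit 1, nat_lit 1000)])],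
 ⟨p055_k13, nat_lit 0, nat_lit 0, nat_lit 123, nat_lit 0, nat_lit 0, [nat_lit 2033400000, nat_lit 2574800000, nat_lit 2711866667], [], [nat_lit 19782407081, nat_lit 20366101021, nat_lit 19116495242, nat_lit 19706622897, nat_lit 23826820278, nat_lit 24496711686, nat_lit 22765424561, nat_lit 23415597825], nat_lit 0, nat_lit 0, nat_lit 0, nat_lit 0, nat_lit 0, nat_lit 0, [], [nat_lit 36, nat_lit 40, nat_lit 40, nat_lit 80, nat_lit 7, nat_lit 226, nat_lit 20, nat_lit 7]⟩, C1.Rw.none,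
 ⟨nat_lit 5244, nat_lit 5478, ⟨.ofNat (nat_lit 200266), .ofNat (nat_lit 275199), .ofNat (nat_lit 242980), .ofNat (nat_lit 317913), .ofNat (nat_lit 207314), .ofNat (nat_lit 280485), .ofNat (nat_lit 250085), .ofNat (nat_lit 323256)⟩, ⟨.ofNat (nat_lit 521722), .ofNat (nat_lit 626629), .ofNat (nat_lit 564436), .ofNat (nat_lit 669340), .ofNat (nat_lit 518028), .ofNat (nat_lit 620468), .ofNat (nat_lit 560799), .ofNat (nat_lit 663236)⟩⟩, [⟨nat_lit 0, nat_lit 100, nat_lit 91, nat_lit 63, nat_lit 173920488⟩, ⟨nat_lit 4, nat_lit 91, nat_lit 100, nat_lit 96, nat_lit 314148399⟩]⟩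
noncomputable def p055_l32 : Lf2 := ⟨nat_lit 0, nat_lit 5, [nat_lit 4, nat_lit 5, nat_lit 5, nat_lit 20], true, nat_lit 280, nat_lit 328, nat_lit 0, nat_lit 300, ⟨nat_lit 0, nat_lit 1000, nat_lit 0, nat_lit 5, nat_lit 107, nat_lit 1000, nat_lit 232, nat_lit 0, nat_lit 0, nat_lit 0, nat_lit 0, nat_lit 0, nat_lit 45820595, nat_lit 4867162, nat_lit 16312243, nat_lit 4220208, false, false⟩,
 nat_lit 0, nat_lit 0, nat_lit 0, nat_lit 15552, nat_lit 4326, nat_lit 0, nat_lit 683, nat_lit 0, nat_lit 0, nat_lit 0, nat_lit 0, nat_lit 0, nat_lit 0, nat_lit 0, nat_lit 0, nat_lit 400000, nat_lit 0, nat_lit 0, [(nat_lit 12, [(nat_lit 1, nat_lit 1000)])],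
 ⟨p055_k18, nat_lit 0, nat_lit 0, nat_lit 100, nat_lit 0, nat_lit 0, [nat_lit 2033400000, nat_lit 2439600000, nat_lit 2628400000], [], [nat_lit 20202895452, nat_lit 20756684193, nat_lit 19757592688, nat_lit 20291672863, nat_lit 23421837119, nat_lit 24087731747, nat_lit 22479311431, nat_lit 23125457697], nat_lit 0, nat_lit 0, nat_lit 0, nat_lit 0, nat_lit 0, nat_lit 0, [], [nat_lit 59, nat_lit 40, nat_lit 40, nat_lit 80, nat_lit 3, nat_lit 226, nat_lit 20, nat_lit 7]⟩, C1.Rw.none,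
 ⟨nat_lit 5000, nat_lit 5245, ⟨.ofNat (nat_lit 207314), .ofNat (nat_lit 280485), .ofNat (nat_lit 250085), .ofNat (nat_lit 323256), .ofNat (nat_lit 214284), .ofNat (nat_lit 285713), .ofNat (nat_lit 257141), .ofNat (nat_lit 328570)⟩, ⟨.ofNat (nat_lit 518028), .ofNat (nat_lit 605833), .ofNat (nat_lit 560799), .ofNat (nat_lit 648604), .ofNat (nat_lit 514284), .ofNat (nat_lit 599999), .ofNat (nat_lit 557141), .ofNat (nat_lit 642856)⟩⟩, [⟨nat_lit 0, nat_lit 100, nat_lit 88, nat_lit 68, nat_lit 149182897⟩, ⟨nat_lit 4, nat_lit 97, nat_lit 100, nat_lit 98, nat_lit 306040580⟩]⟩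
noncomputable def p055_l33 : Lf2 := ⟨nat_lit 0, nat_lit 5, [nat_lit 4, nat_lit 5, nat_lit 5, nat_lit 20], true, nat_lit 280, nat_lit 320, nat_lit 0, nat_lit 300, ⟨nat_lit 0, nat_lit 1000, nat_lit 0, nat_lit 5, nat_lit 111, nat_lit 1000, nat_lit 227, nat_lit 0, nat_lit 0, nat_lit 0, nat_lit 0, nat_lit 0, nat_lit 46137011, nat_lit 5140501, nat_lit 15722488, nat_lit 4224296, false, false⟩,
 nat_lit 0, nat_lit 0, nat_lit 0, nat_lit 6934, nat_lit 4030, nat_lit 0, nat_lit 0, nat_lit 0, nat_lit 0, nat_lit 0, nat_lit 0, nat_lit 0, nat_lit 0, nat_lit 0, nat_lit 0, nat_lit 967000, nat_lit 0, nat_lit 0, [(nat_lit 15, [(nat_lit 1, nat_lit 55), (nat_lit 2, nat_lit 945)])],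
 ⟨p055_k19, nat_lit 0, nat_lit 0, nat_lit 103, nat_lit 0, nat_lit 0, [nat_lit 2108463001, nat_lit 1119092999], [], [nat_lit 21135659290, nat_lit 22208987500, nat_lit 20750207630, nat_lit 21784899360, nat_lit 23067555660, nat_lit 24388644080, nat_lit 22614275120, nat_lit 23550135760], nat_lit 0, nat_lit 0, nat_lit 0, nat_lit 0, nat_lit 0, nat_lit 0, [], [nat_lit 49, nat_lit 40, nat_lit 40, nat_lit 80, nat_lit 16, nat_lit 226, nat_lit 20, nat_lit 7]⟩, C1.Rw.none,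
 ⟨nat_lit 4472, nat_lit 5000, ⟨.ofNat (nat_lit 214284), .ofNat (nat_lit 285713), .ofNat (nat_lit 257133), .ofNat (nat_lit 328559), .ofNat (nat_lit 228086), .ofNat (nat_lit 296064), .ofNat (nat_lit 271210), .ofNat (nat_lit 339186)⟩, ⟨.ofNat (nat_lit 514284), .ofNat (nat_lit 585713), .ofNat (nat_lit 557141), .ofNat (nat_lit 628570), .ofNat (nat_lit 506556), .ofNat (nat_lit 574534), .ofNat (nat_lit 549689), .ofNat (nat_lit 617667)⟩⟩, [⟨nat_lit 0, nat_lit 100, nat_lit 82, nat_lit 76, nat_lit 165958146⟩, ⟨nat_lit 16, nat_lit 94, nat_lit 88, nat_lit 100, nat_lit 201480600⟩]⟩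
noncomputable def p055_l34 : Lf2 := ⟨nat_lit 0, nat_lit 10, [nat_lit 0, nat_lit 5, nat_lit 5, nat_lit 20], true, nat_lit 280, nat_lit 336, nat_lit 0, nat_lit 300, ⟨nat_lit 0, nat_lit 155, nat_lit 845, nat_lit 5, nat_lit 100, nat_lit 1000, nat_lit 234, nat_lit 845, nat_lit 67436, nat_lit 200, nat_lit 93750, nat_lit 290, nat_lit 46055012, nat_lit 4375996, nat_lit 16568992, nat_lit 4141870, false, false⟩,
 nat_lit 0, nat_lit 0, nat_lit 0, nat_lit 17991, nat_lit 3357, nat_lit 0, nat_lit 0, nat_lit 0, nat_lit 0, nat_lit 0, nat_lit 0, nat_lit 0, nat_lit 0, nat_lit 0, nat_lit 102, nat_lit 632200, nat_lit 0, nat_lit 0, [(nat_lit 12, [(nat_lit 1, nat_lit 155), (nat_lit 5, nat_lit 458), (nat_lit 6, nat_lit 387)]), (nat_lit 15, [(nat_lit 1, nat_lit 155), (nat_lit 5, nat_lit 458), (nat_lit 6, nat_lit 387)])],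
 ⟨p055_k2, nat_lit 0, nat_lit 0, nat_lit 177, nat_lit 0, nat_lit 0, [nat_lit 2520798600, nat_lit 2338140080, nat_lit 208045600], [], [nat_lit 19907859466, nat_lit 22157657625, nat_lit 18948766214, nat_lit 20615302926, nat_lit 23232939258, nat_lit 25564371969, nat_lit 21649829680, nat_lit 23904043168], nat_lit 0, nat_lit 0, nat_lit 0, nat_lit 0, nat_lit 0, nat_lit 0, [], [nat_lit 42, nat_lit 40, nat_lit 40, nat_lit 80, nat_lit 13, nat_lit 226, nat_lit 20, nat_lit 6]⟩, C1.Rw.none,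
 ⟨nat_lit 4472, nat_lit 5478, ⟨.ofNat (nat_lit 155307), .ofNat (nat_lit 275199), .ofNat (nat_lit 198021), .ofNat (nat_lit 317898), .ofNat (nat_lit 187299), .ofNat (nat_lit 296064), .ofNat (nat_lit 230432), .ofNat (nat_lit 339182)⟩, ⟨.ofNat (nat_lit 521722), .ofNat (nat_lit 626629), .ofNat (nat_lit 564436), .ofNat (nat_lit 669343), .ofNat (nat_lit 506556), .ofNat (nat_lit 601725), .ofNat (nat_lit 549689), .ofNat (nat_lit 644858)⟩⟩, [⟨nat_lit 0, nat_lit 100, nat_lit 82, nat_lit 76, nat_lit 240188758⟩, ⟨nat_lit 16, nat_lit 100, nat_lit 100, nat_lit 100, nat_lit 331943966⟩]⟩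
noncomputable def p055_l35 : Lf2 := ⟨nat_lit 0, nat_lit 10, [nat_lit 0, nat_lit 5, nat_lit 5, nat_lit 20], true, nat_lit 240, nat_lit 336, nat_lit 0, nat_lit 364, ⟨nat_lit 0, nat_lit 1000, nat_lit 0, nat_lit 5, nat_lit 135, nat_lit 1000, nat_lit 222, nat_lit 0, nat_lit 0, nat_lit 0, nat_lit 0, nat_lit 0, nat_lit 45115775, nat_lit 6900235, nat_lit 14983990, nat_lit 4469828, false, false⟩,
 nat_lit 0, nat_lit 0, nat_lit 0, nat_lit 6379, nat_lit 3943, nat_lit 0, nat_lit 0, nat_lit 0, nat_lit 0, nat_lit 0, nat_lit 0, nat_lit 0, nat_lit 0, nat_lit 0, nat_lit 0, nat_lit 250000, nat_lit 0, nat_lit 0, [(nat_lit 12, [(nat_lit 0, nat_lit 1000)])],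
 ⟨p055_k4, nat_lit 0, nat_lit 0, nat_lit 55, nat_lit 0, nat_lit 0, [nat_lit 2378800001, nat_lit 3513428572], [], [nat_lit 16219406829, nat_lit 17642155581, nat_lit 16520544513, nat_lit 17875552623, nat_lit 22267313820, nat_lit 23371046016, nat_lit 22291225757, nat_lit 23347023286], nat_lit 0, nat_lit 0, nat_lit 0, nat_lit 0, nat_lit 0, nat_lit 0, [], [nat_lit 82, nat_lit 40, nat_lit 40, nat_lit 80, nat_lit 63, nat_lit 345, nat_lit 125, nat_lit 9]⟩, C1.Rw.none,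
 ⟨nat_lit 5000, nat_lit 5478, ⟨.ofNat (nat_lit 275199), .ofNat (nat_lit 350132), .ofNat (nat_lit 317913), .ofNat (nat_lit 392847), .ofNat (nat_lit 285713), .ofNat (nat_lit 357141), .ofNat (nat_lit 328570), .ofNat (nat_lit 399998)⟩, ⟨.ofNat (nat_lit 446789), .ofNat (nat_lit 626629), .ofNat (nat_lit 489503), .ofNat (nat_lit 669336), .ofNat (nat_lit 442856), .ofNat (nat_lit 614284), .ofNat (nat_lit 485713), .ofNat (nat_lit 657134)⟩⟩, [⟨nat_lit 16, nat_lit 100, nat_lit 80, nat_lit 100, nat_lit 251374386⟩]⟩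
noncomputable def p055_l36 : Lf2 := ⟨nat_lit 0, nat_lit 10, [nat_lit 0, nat_lit 5, nat_lit 5, nat_lit 20], true, nat_lit 240, nat_lit 320, nat_lit 0, nat_lit 364, ⟨nat_lit 0, nat_lit 1000, nat_lit 0, nat_lit 5, nat_lit 139, nat_lit 1000, nat_lit 213, nat_lit 0, nat_lit 0, nat_lit 0, nat_lit 0, nat_lit 0, nat_lit 45660393, nat_lit 7221509, nat_lit 14118098, nat_lit 4442232, false, false⟩,
 nat_lit 0, nat_lit 0, nat_lit 0, nat_lit 4053, nat_lit 3802, nat_lit 0, nat_lit 0, nat_lit 0, nat_lit 0, nat_lit 0, nat_lit 0, nat_lit 0, nat_lit 0, nat_lit 0, nat_lit 0, nat_lit 400000, nat_lit 0, nat_lit 0, [(nat_lit 15, [(nat_lit 1, nat_lit 1000)])],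
 ⟨p055_k1, nat_lit 0, nat_lit 0, nat_lit 55, nat_lit 0, nat_lit 0, [nat_lit 2112600000, nat_lit 2433300000], [], [nat_lit 17482684120, nat_lit 18879931048, nat_lit 17739361108, nat_lit 19070572648, nat_lit 22045251096, nat_lit 23292136216, nat_lit 22098027628, nat_lit 23186698488], nat_lit 0, nat_lit 0, nat_lit 0, nat_lit 0, nat_lit 0, nat_lit 0, [], [nat_lit 74, nat_lit 40, nat_lit 40, nat_lit 80, nat_lit 43, nat_lit 238, nat_lit 30, nat_lit 7]⟩, C1.Rw.none,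
 ⟨nat_lit 4472, nat_lit 5000, ⟨.ofNat (nat_lit 285713), .ofNat (nat_lit 357141), .ofNat (nat_lit 328559), .ofNat (nat_lit 399984), .ofNat (nat_lit 296064), .ofNat (nat_lit 364042), .ofNat (nat_lit 339186), .ofNat (nat_lit 407160)⟩, ⟨.ofNat (nat_lit 442856), .ofNat (nat_lit 585713), .ofNat (nat_lit 485713), .ofNat (nat_lit 628570), .ofNat (nat_lit 438578), .ofNat (nat_lit 574534), .ofNat (nat_lit 481711), .ofNat (nat_lit 617667)⟩⟩, [⟨nat_lit 16, nat_lit 94, nat_lit 88, nat_lit 100, nat_lit 257885706⟩]⟩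
noncomputable def p055_l37 : Lf2 := ⟨nat_lit 0, nat_lit 10, [nat_lit 0, nat_lit 5, nat_lit 5, nat_lit 20], true, nat_lit 160, nat_lit 336, nat_lit 0, nat_lit 384, ⟨nat_lit 0, nat_lit 1000, nat_lit 0, nat_lit 5, nat_lit 194, nat_lit 1000, nat_lit 191, nat_lit 0, nat_lit 0, nat_lit 0, nat_lit 0, nat_lit 0, nat_lit 43486865, nat_lit 11896594, nat_lit 11616541, nat_lit 4798963, false, false⟩,
 nat_lit 0, nat_lit 0, nat_lit 0, nat_lit 3763, nat_lit 4149, nat_lit 0, nat_lit 0, nat_lit 0, nat_lit 0, nat_lit 0, nat_lit 0, nat_lit 0, nat_lit 0, nat_lit 0, nat_lit 0, nat_lit 250000, nat_lit 0, nat_lit 0, [(nat_lit 12, [(nat_lit 0, nat_lit 1000)]), (nat_lit 15, [(nat_lit 0, nat_lit 1000)])],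
 ⟨p055_k4, nat_lit 0, nat_lit 0, nat_lit 50, nat_lit 0, nat_lit 0, [nat_lit 2378800001, nat_lit 3513428572], [], [nat_lit 12816517409, nat_lit 16075340665, nat_lit 17077470897, nat_lit 19694916241, nat_lit 22204106709, nat_lit 24567091757, nat_lit 24669082227, nat_lit 26600490183], nat_lit 0, nat_lit 0, nat_lit 0, nat_lit 0, nat_lit 0, nat_lit 0, [], [nat_lit 82, nat_lit 40, nat_lit 40, nat_lit 80, nat_lit 63, nat_lit 373, nat_lit 150, nat_lit 10]⟩, C1.Rw.none,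
 ⟨nat_lit 4472, nat_lit 5478, ⟨.ofNat (nat_lit 350132), .ofNat (nat_lit 574895), .ofNat (nat_lit 392815), .ofNat (nat_lit 617523), .ofNat (nat_lit 364042), .ofNat (nat_lit 567940), .ofNat (nat_lit 407143), .ofNat (nat_lit 610987)⟩, ⟨.ofNat (nat_lit 296923), .ofNat (nat_lit 626629), .ofNat (nat_lit 339637), .ofNat (nat_lit 669343), .ofNat (nat_lit 302621), .ofNat (nat_lit 601725), .ofNat (nat_lit 345754), .ofNat (nat_lit 644858)⟩⟩, [⟨nat_lit 16, nat_lit 100, nat_lit 80, nat_lit 100, nat_lit 160106490⟩]⟩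
noncomputable def b_V_700_500_20_2 : St := ⟨true, nat_lit 0, nat_lit 1, nat_lit 1, nat_lit 120, nat_lit 280, nat_lit 320, nat_lit 200, nat_lit 240, nat_lit 16, nat_lit 240, nat_lit 80, nat_lit 120, nat_lit 160, nat_lit 336, nat_lit 0, nat_lit 384, nat_lit 0, nat_lit 40, nat_lit 0, nat_lit 0, nat_lit 0, nat_lit 0⟩
theorem d_V_700_500_20_2 (h : EB TB.env) : Dead b_V_700_500_20_2 := chkB_sound0 h (T :=
(.spl (nat_lit 2) (nat_lit 120)
(.spl (nat_lit 4) (nat_lit 240)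
(.leaf p055_l21)
(.trX (nat_lit 23) (nat_lit 100) (nat_lit 59) (nat_lit 94) (nat_lit 364) (.spl (nat_lit 2) (nat_lit 80)
(.trX (nat_lit 23) (nat_lit 100) (nat_lit 76) (nat_lit 82) (nat_lit 336) (.spl (nat_lit 4) (nat_lit 280)
(.leaf p055_l22)
(.trX (nat_lit 23) (nat_lit 100) (nat_lit 95) (nat_lit 87) (nat_lit 300) (.spl (nat_lit 6) (nat_lit 20)
(.spl (nat_lit 2) (nat_lit 40)
(.trX (nat_lit 23) (nat_lit 94) (nat_lit 100) (nat_lit 62) (nat_lit 248) (.spl (nat_lit 3) (nat_lit 100)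
(.trX (nat_lit 16) (nat_lit 100) (nat_lit 88) (nat_lit 94) (nat_lit 320) (.leaf p055_l23))
(.spl (nat_lit 4) (nat_lit 320)
(.leaf p055_l24)
(.trX (nat_lit 23) (nat_lit 80) (nat_lit 100) (nat_lit 60) (nat_lit 200) (.leaf p055_l25)))))
(.spl (nat_lit 0) (nat_lit 300)
(.spl (nat_lit 6) (nat_lit 8)
(.spl (nat_lit 4) (nat_lit 320)
(.spl (nat_lit 0) (nat_lit 290)
(.leaf p055_l26)
(.leaf p055_l27))
(.trX (nat_lit 23) (nat_lit 83) (nat_lit 100) (nat_lit 83) (nat_lit 260) (.spl (nat_lit 0) (nat_lit 290)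
(.spl (nat_lit 0) (nat_lit 285)
(.leaf p055_l28)
(.trX (nat_lit 16) (nat_lit 99) (nat_lit 82) (nat_lit 100) (nat_lit 332) (.leaf p055_l29)))
(.trX (nat_lit 16) (nat_lit 97) (nat_lit 84) (nat_lit 100) (nat_lit 328) (.leaf p055_l30)))))
(.spl (nat_lit 0) (nat_lit 290)
(.leaf p055_l31)
(.trX (nat_lit 16) (nat_lit 97) (nat_lit 84) (nat_lit 100) (nat_lit 328) (.leaf p055_l32))))
(.trX (nat_lit 16) (nat_lit 94) (nat_lit 88) (nat_lit 100) (nat_lit 320) (.leaf p055_l33))))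
(.leaf p055_l34)))))
(.spl (nat_lit 0) (nat_lit 300)
(.leaf p055_l35)
(.trX (nat_lit 16) (nat_lit 94) (nat_lit 88) (nat_lit 100) (nat_lit 320) (.leaf p055_l36))))))
(.leaf p055_l37))) (by decide +kernel)
noncomputable def p055_l38 : Lf2 := ⟨nat_lit 0, nat_lit 10, [nat_lit 0, nat_lit 5, nat_lit 5, nat_lit 20], true, nat_lit 160, nat_lit 240, nat_lit 0, nat_lit 384, ⟨nat_lit 0, nat_lit 1000, nat_lit 0, nat_lit 6, nat_lit 266, nat_lit 1000, nat_lit 157, nat_lit 0, nat_lit 0, nat_lit 0, nat_lit 0, nat_lit 0, nat_lit 40118913, nat_lit 18766182, nat_lit 8114905, nat_lit 4934025, true, true⟩,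
 nat_lit 0, nat_lit 0, nat_lit 0, nat_lit 2876, nat_lit 3995, nat_lit 0, nat_lit 0, nat_lit 0, nat_lit 0, nat_lit 0, nat_lit 0, nat_lit 0, nat_lit 0, nat_lit 0, nat_lit 0, nat_lit 250000, nat_lit 0, nat_lit 0, [(nat_lit 12, [(nat_lit 0, nat_lit 1000)]), (nat_lit 15, [(nat_lit 0, nat_lit 1000)])],
 ⟨p055_k2, nat_lit 0, nat_lit 0, nat_lit 43, nat_lit 0, nat_lit 0, [nat_lit 2364000000, nat_lit 2745200001, nat_lit 3496880000], [], [nat_lit 17238430480, nat_lit 19808281200, nat_lit 21673254500, nat_lit 23776179040, nat_lit 19947681800, nat_lit 22159217620, nat_lit 23759782880, nat_lit 25581704820], nat_lit 0, nat_lit 0, nat_lit 0, nat_lit 0, nat_lit 0, nat_lit 0, [], [nat_lit 42, nat_lit 40, nat_lit 40, nat_lit 80, nat_lit 13, nat_lit 373, nat_lit 150, nat_lit 10]⟩, C1.Rw.none,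
 ⟨nat_lit 4472, nat_lit 5478, ⟨.ofNat (nat_lit 574895), .ofNat (nat_lit 724687), .ofNat (nat_lit 617523), .ofNat (nat_lit 767319), .ofNat (nat_lit 567940), .ofNat (nat_lit 703822), .ofNat (nat_lit 610987), .ofNat (nat_lit 746873)⟩, ⟨.ofNat (nat_lit 296923), .ofNat (nat_lit 446789), .ofNat (nat_lit 339637), .ofNat (nat_lit 489503), .ofNat (nat_lit 302621), .ofNat (nat_lit 438578), .ofNat (nat_lit 345754), .ofNat (nat_lit 481711)⟩⟩, []⟩
noncomputable def p055_l39 : Lf2 := ⟨nat_lit 0, nat_lit 10, [nat_lit 0, nat_lit 5, nat_lit 5, nat_lit 20], true, nat_lit 240, nat_lit 336, nat_lit 16, nat_lit 384, ⟨nat_lit 0, nat_lit 1000, nat_lit 0, nat_lit 6, nat_lit 266, nat_lit 1000, nat_lit 220, nat_lit 0, nat_lit 0, nat_lit 0, nat_lit 0, nat_lit 0, nat_lit 36558409, nat_lit 17529544, nat_lit 12912047, nat_lit 5399041, true, true⟩,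
 nat_lit 0, nat_lit 0, nat_lit 0, nat_lit 4073, nat_lit 3427, nat_lit 0, nat_lit 0, nat_lit 0, nat_lit 0, nat_lit 0, nat_lit 0, nat_lit 0, nat_lit 0, nat_lit 0, nat_lit 0, nat_lit 400000, nat_lit 0, nat_lit 0, [(nat_lit 12, [(nat_lit 1, nat_lit 1000)]), (nat_lit 15, [(nat_lit 1, nat_lit 1000)])],
 ⟨p055_k2, nat_lit 0, nat_lit 0, nat_lit 56, nat_lit 0, nat_lit 0, [nat_lit 2033400000, nat_lit 2718800000, nat_lit 2663600000], [], [nat_lit 20188921480, nat_lit 22262299252, nat_lit 23792575648, nat_lit 25517476372, nat_lit 24643705896, nat_lit 26297776637, nat_lit 27501981582, nat_lit 28889578592], nat_lit 0, nat_lit 0, nat_lit 0, nat_lit 0, nat_lit 0, nat_lit 0, [], [nat_lit 42, nat_lit 40, nat_lit 40, nat_lit 80, nat_lit 13, nat_lit 401, nat_lit 175, nat_lit 10]⟩, C1.Rw.none,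
 ⟨nat_lit 4472, nat_lit 5478, ⟨.ofNat (nat_lit 574895), .ofNat (nat_lit 724687), .ofNat (nat_lit 617523), .ofNat (nat_lit 767319), .ofNat (nat_lit 567940), .ofNat (nat_lit 703822), .ofNat (nat_lit 610987), .ofNat (nat_lit 746873)⟩, ⟨.ofNat (nat_lit 446789), .ofNat (nat_lit 626629), .ofNat (nat_lit 489503), .ofNat (nat_lit 669343), .ofNat (nat_lit 438578), .ofNat (nat_lit 601725), .ofNat (nat_lit 481711), .ofNat (nat_lit 644858)⟩⟩, [⟨nat_lit 4, nat_lit 100, nat_lit 100, nat_lit 100, nat_lit 154552054⟩]⟩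
noncomputable def p055_l40 : Lf2 := ⟨nat_lit 0, nat_lit 10, [nat_lit 0, nat_lit 5, nat_lit 5, nat_lit 20], true, nat_lit 160, nat_lit 240, nat_lit 16, nat_lit 384, ⟨nat_lit 0, nat_lit 1000, nat_lit 0, nat_lit 8, nat_lit 324, nat_lit 1000, nat_lit 157, nat_lit 0, nat_lit 0, nat_lit 0, nat_lit 0, nat_lit 0, nat_lit 35550290, nat_lit 23981685, nat_lit 7468025, nat_lit 5082954, true, true⟩,
 nat_lit 0, nat_lit 0, nat_lit 0, nat_lit 3148, nat_lit 4116, nat_lit 0, nat_lit 0, nat_lit 0, nat_lit 0, nat_lit 0, nat_lit 0, nat_lit 0, nat_lit 0, nat_lit 0, nat_lit 0, nat_lit 279850, nat_lit 0, nat_lit 0, [(nat_lit 12, [(nat_lit 0, nat_lit 801), (nat_lit 1, nat_lit 199)])],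
 ⟨p055_k2, nat_lit 0, nat_lit 0, nat_lit 72, nat_lit 0, nat_lit 0, [nat_lit 2298210600, nat_lit 2739946401, nat_lit 3322364960], [], [nat_lit 23044126953, nat_lit 23954429001, nat_lit 27326310301, nat_lit 28053139317, nat_lit 24860824121, nat_lit 25651880321, nat_lit 28615599285, nat_lit 29250228207], nat_lit 0, nat_lit 0, nat_lit 0, nat_lit 0, nat_lit 0, nat_lit 0, [], [nat_lit 42, nat_lit 40, nat_lit 40, nat_lit 80, nat_lit 13, nat_lit 272, nat_lit 60, nat_lit 7]⟩, C1.Rw.none,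
 ⟨nat_lit 5000, nat_lit 5478, ⟨.ofNat (nat_lit 724760), .ofNat (nat_lit 867109), .ofNat (nat_lit 767454), .ofNat (nat_lit 909802), .ofNat (nat_lit 714246), .ofNat (nat_lit 849937), .ofNat (nat_lit 757084), .ofNat (nat_lit 892774)⟩, ⟨.ofNat (nat_lit 296923), .ofNat (nat_lit 446789), .ofNat (nat_lit 339637), .ofNat (nat_lit 489503), .ofNat (nat_lit 299999), .ofNat (nat_lit 442856), .ofNat (nat_lit 342856), .ofNat (nat_lit 485713)⟩⟩, [⟨nat_lit 13, nat_lit 90, nat_lit 36, nat_lit 100, nat_lit 193170652⟩]⟩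
noncomputable def p055_l41 : Lf2 := ⟨nat_lit 0, nat_lit 10, [nat_lit 0, nat_lit 5, nat_lit 5, nat_lit 20], true, nat_lit 160, nat_lit 240, nat_lit 16, nat_lit 384, ⟨nat_lit 0, nat_lit 1000, nat_lit 0, nat_lit 8, nat_lit 306, nat_lit 1000, nat_lit 157, nat_lit 0, nat_lit 0, nat_lit 0, nat_lit 0, nat_lit 0, nat_lit 36927919, nat_lit 22410116, nat_lit 7661965, nat_lit 5054038, true, true⟩,
 nat_lit 0, nat_lit 0, nat_lit 0, nat_lit 2876, nat_lit 3776, nat_lit 0, nat_lit 0, nat_lit 0, nat_lit 0, nat_lit 0, nat_lit 0, nat_lit 0, nat_lit 0, nat_lit 0, nat_lit 0, nat_lit 250000, nat_lit 0, nat_lit 0, [(nat_lit 15, [(nat_lit 0, nat_lit 1000)])],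
 ⟨p055_k1, nat_lit 0, nat_lit 0, nat_lit 51, nat_lit 0, nat_lit 0, [nat_lit 2318400000, nat_lit 3071600000], [], [nat_lit 22799688096, nat_lit 23826896992, nat_lit 25151425920, nat_lit 26065428992, nat_lit 24746550880, nat_lit 25638807936, nat_lit 26800533760, nat_lit 27597564224], nat_lit 0, nat_lit 0, nat_lit 0, nat_lit 0, nat_lit 0, nat_lit 0, [], [nat_lit 74, nat_lit 40, nat_lit 40, nat_lit 80, nat_lit 43, nat_lit 272, nat_lit 60, nat_lit 7]⟩, C1.Rw.none,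
 ⟨nat_lit 4472, nat_lit 5000, ⟨.ofNat (nat_lit 714270), .ofNat (nat_lit 785694), .ofNat (nat_lit 757103), .ofNat (nat_lit 828527), .ofNat (nat_lit 703919), .ofNat (nat_lit 771892), .ofNat (nat_lit 747027), .ofNat (nat_lit 815001)⟩, ⟨.ofNat (nat_lit 299999), .ofNat (nat_lit 442856), .ofNat (nat_lit 342856), .ofNat (nat_lit 485713), .ofNat (nat_lit 302621), .ofNat (nat_lit 438578), .ofNat (nat_lit 345754), .ofNat (nat_lit 481711)⟩⟩, []⟩
noncomputable def p055_l42 : Lf2 := ⟨nat_lit 0, nat_lit 10, [nat_lit 0, nat_lit 5, nat_lit 5, nat_lit 20], true, nat_lit 160, nat_lit 240, nat_lit 48, nat_lit 352, ⟨nat_lit 0, nat_lit 1000, nat_lit 0, nat_lit 9, nat_lit 331, nat_lit 1000, nat_lit 157, nat_lit 0, nat_lit 0, nat_lit 0, nat_lit 0, nat_lit 0, nat_lit 35028581, nat_lit 24600420, nat_lit 7370999, nat_lit 5087831, true, true⟩,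
 nat_lit 0, nat_lit 0, nat_lit 0, nat_lit 2903, nat_lit 3922, nat_lit 0, nat_lit 0, nat_lit 0, nat_lit 0, nat_lit 0, nat_lit 0, nat_lit 0, nat_lit 0, nat_lit 0, nat_lit 0, nat_lit 250000, nat_lit 0, nat_lit 0, [(nat_lit 15, [(nat_lit 0, nat_lit 1000)])],
 ⟨p055_k6, nat_lit 0, nat_lit 0, nat_lit 74, nat_lit 0, nat_lit 0, [nat_lit 2318400000, nat_lit 2378000001, nat_lit 3078800000], [], [nat_lit 25965149293, nat_lit 26765406841, nat_lit 27710806810, nat_lit 28436779846, nat_lit 27416339633, nat_lit 28115346073, nat_lit 28956915752, nat_lit 29592392921], nat_lit 0, nat_lit 0, nat_lit 0, nat_lit 0, nat_lit 0, nat_lit 0, [], [nat_lit 36, nat_lit 40, nat_lit 40, nat_lit 80, nat_lit 7, nat_lit 272, nat_lit 60, nat_lit 7]⟩, C1.Rw.none,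
 ⟨nat_lit 4472, nat_lit 5000, ⟨.ofNat (nat_lit 785694), .ofNat (nat_lit 842833), .ofNat (nat_lit 828527), .ofNat (nat_lit 885667), .ofNat (nat_lit 771892), .ofNat (nat_lit 826271), .ofNat (nat_lit 815001), .ofNat (nat_lit 869380)⟩, ⟨.ofNat (nat_lit 299999), .ofNat (nat_lit 442856), .ofNat (nat_lit 342856), .ofNat (nat_lit 485713), .ofNat (nat_lit 302621), .ofNat (nat_lit 438578), .ofNat (nat_lit 345754), .ofNat (nat_lit 481711)⟩⟩, [⟨nat_lit 13, nat_lit 84, nat_lit 47, nat_lit 100, nat_lit 221949845⟩]⟩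
noncomputable def p055_l43 : Lf2 := ⟨nat_lit 0, nat_lit 10, [nat_lit 0, nat_lit 5, nat_lit 5, nat_lit 20], true, nat_lit 240, nat_lit 280, nat_lit 64, nat_lit 384, ⟨nat_lit 0, nat_lit 1000, nat_lit 0, nat_lit 8, nat_lit 309, nat_lit 1000, nat_lit 200, nat_lit 0, nat_lit 0, nat_lit 0, nat_lit 0, nat_lit 0, nat_lit 34721915, nat_lit 21601099, nat_lit 10676986, nat_lit 5386001, true, true⟩,
 nat_lit 0, nat_lit 0, nat_lit 0, nat_lit 2876, nat_lit 3747, nat_lit 0, nat_lit 0, nat_lit 0, nat_lit 0, nat_lit 0, nat_lit 0, nat_lit 0, nat_lit 0, nat_lit 0, nat_lit 0, nat_lit 250000, nat_lit 0, nat_lit 0, [(nat_lit 12, [(nat_lit 0, nat_lit 1000)]), (nat_lit 15, [(nat_lit 0, nat_lit 1000)])],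
 ⟨p055_k4, nat_lit 0, nat_lit 0, nat_lit 50, nat_lit 0, nat_lit 0, [nat_lit 2378800001, nat_lit 3513428572], [], [nat_lit 23933247329, nat_lit 25712807893, nat_lit 26075288813, nat_lit 27665471629, nat_lit 25464401665, nat_lit 27095093499, nat_lit 27436830029, nat_lit 28895893629], nat_lit 0, nat_lit 0, nat_lit 0, nat_lit 0, nat_lit 0, nat_lit 0, [], [nat_lit 82, nat_lit 40, nat_lit 40, nat_lit 80, nat_lit 63, nat_lit 289, nat_lit 75, nat_lit 7]⟩, C1.Rw.none,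
 ⟨nat_lit 4472, nat_lit 5478, ⟨.ofNat (nat_lit 724687), .ofNat (nat_lit 799582), .ofNat (nat_lit 767319), .ofNat (nat_lit 842216), .ofNat (nat_lit 703822), .ofNat (nat_lit 771763), .ofNat (nat_lit 746873), .ofNat (nat_lit 814816)⟩, ⟨.ofNat (nat_lit 446789), .ofNat (nat_lit 521722), .ofNat (nat_lit 489503), .ofNat (nat_lit 564436), .ofNat (nat_lit 438578), .ofNat (nat_lit 506556), .ofNat (nat_lit 481711), .ofNat (nat_lit 549689)⟩⟩, []⟩
noncomputable def p055_l44 : Lf2 := ⟨nat_lit 0, nat_lit 10, [nat_lit 0, nat_lit 5, nat_lit 5, nat_lit 20], false, nat_lit 280, nat_lit 336, nat_lit 100, nat_lit 384, ⟨nat_lit 175, nat_lit 825, nat_lit 0, nat_lit 8, nat_lit 311, nat_lit 825, nat_lit 236, nat_lit 0, nat_lit 0, nat_lit 0, nat_lit 0, nat_lit 0, nat_lit 32819295, nat_lit 20874424, nat_lit 13306281, nat_lit 5596657, true, true⟩,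
 nat_lit 0, nat_lit 0, nat_lit 3355, nat_lit 2128, nat_lit 3548, nat_lit 1437, nat_lit 0, nat_lit 0, nat_lit 0, nat_lit 272, nat_lit 0, nat_lit 0, nat_lit 0, nat_lit 0, nat_lit 0, nat_lit 330000, nat_lit 0, nat_lit 0, [(nat_lit 12, [(nat_lit 1, nat_lit 825)])],
 ⟨p055_k2, nat_lit 0, nat_lit 0, nat_lit 62, nat_lit 0, nat_lit 0, [nat_lit 2251905000, nat_lit 3063410001, nat_lit 3897380000], [], [nat_lit 25440964376, nat_lit 26242159204, nat_lit 27370764552, nat_lit 28089470752, nat_lit 27681635999, nat_lit 28381586434, nat_lit 29381988665, nat_lit 30011152426], nat_lit 0, nat_lit 0, nat_lit 0, nat_lit 0, nat_lit 0, nat_lit 0, [], [nat_lit 42, nat_lit 40, nat_lit 40, nat_lit 80, nat_lit 13, nat_lit 203, nat_lit 0, nat_lit 4]⟩, ⟨p055_k3, nat_lit 0, nat_lit 0, nat_lit 408, nat_lit 0, nat_lit 551024, [nat_lit 1093750000, nat_lit 1394400000, nat_lit 2077600000], [], [nat_lit 5626661734, nat_lit 5697948753, nat_lit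 5951485725, nat_lit 5994922130, nat_lit 6080857536, nat_lit 6074837652, nat_lit 6300760083, nat_lit 6306328318], nat_lit 1271250, nat_lit 1271250, nat_lit 1271250, nat_lit 1271250, nat_lit 631250, nat_lit 2903250, [nat_lit 1412500, nat_lit 1271250, nat_lit 1271250], [nat_lit 53, nat_lit 40, nat_lit 40, nat_lit 80, nat_lit 14, nat_lit 401, nat_lit 175, nat_lit 10]⟩,
 ⟨nat_lit 5000, nat_lit 5478, ⟨.ofNat (nat_lit 724760), .ofNat (nat_lit 799680), .ofNat (nat_lit 767454), .ofNat (nat_lit 842374), .ofNat (nat_lit 714246), .ofNat (nat_lit 785662), .ofNat (nat_lit 757084), .ofNat (nat_lit 828500)⟩, ⟨.ofNat (nat_lit 521722), .ofNat (nat_lit 626629), .ofNat (nat_lit 564436), .ofNat (nat_lit 669336), .ofNat (nat_lit 514284), .ofNat (nat_lit 614284), .ofNat (nat_lit 557141), .ofNat (nat_lit 657134)⟩⟩, [⟨nat_lit 4, nat_lit 94, nat_lit 100, nat_lit 97, nat_lit 207823667⟩, ⟨nat_lit 7, nat_lit 59, nat_lit 100, nat_lit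 87, nat_lit 51639546⟩]⟩
noncomputable def p055_l45 : Lf2 := ⟨nat_lit 0, nat_lit 5, [nat_lit 4, nat_lit 5, nat_lit 5, nat_lit 20], true, nat_lit 280, nat_lit 320, nat_lit 100, nat_lit 384, ⟨nat_lit 0, nat_lit 1000, nat_lit 0, nat_lit 8, nat_lit 306, nat_lit 1000, nat_lit 227, nat_lit 0, nat_lit 0, nat_lit 0, nat_lit 0, nat_lit 0, nat_lit 33579366, nat_lit 20730509, nat_lit 12690125, nat_lit 5540769, true, true⟩,
 nat_lit 0, nat_lit 0, nat_lit 0, nat_lit 3275, nat_lit 3343, nat_lit 0, nat_lit 0, nat_lit 0, nat_lit 0, nat_lit 0, nat_lit 0, nat_lit 0, nat_lit 0, nat_lit 0, nat_lit 0, nat_lit 400000, nat_lit 0, nat_lit 0, [(nat_lit 15, [(nat_lit 1, nat_lit 1000)])],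
 ⟨p055_k20, nat_lit 0, nat_lit 0, nat_lit 61, nat_lit 0, nat_lit 0, [nat_lit 2020200000, nat_lit 2216000000, nat_lit 2326400000], [], [nat_lit 26102453489, nat_lit 26889070562, nat_lit 27909277332, nat_lit 28616831532, nat_lit 27516513888, nat_lit 28234471776, nat_lit 29175175484, nat_lit 29822205532], nat_lit 0, nat_lit 0, nat_lit 0, nat_lit 0, nat_lit 0, nat_lit 0, [], [nat_lit 59, nat_lit 40, nat_lit 40, nat_lit 80, nat_lit 3, nat_lit 203, nat_lit 0, nat_lit 5]⟩, C1.Rw.none,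
 ⟨nat_lit 4472, nat_lit 5000, ⟨.ofNat (nat_lit 714270), .ofNat (nat_lit 785694), .ofNat (nat_lit 757103), .ofNat (nat_lit 828527), .ofNat (nat_lit 703919), .ofNat (nat_lit 771892), .ofNat (nat_lit 747027), .ofNat (nat_lit 815001)⟩, ⟨.ofNat (nat_lit 514284), .ofNat (nat_lit 585713), .ofNat (nat_lit 557141), .ofNat (nat_lit 628570), .ofNat (nat_lit 506556), .ofNat (nat_lit 574534), .ofNat (nat_lit 549689), .ofNat (nat_lit 617667)⟩⟩, [⟨nat_lit 16, nat_lit 93, nat_lit 100, nat_lit 97, nat_lit 31759589⟩, ⟨nat_lit 16, nat_lit 94, nat_lit 88, nat_lit 100, nat_lit 124524705⟩]⟩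
noncomputable def p055_l46 : Lf2 := ⟨nat_lit 0, nat_lit 10, [nat_lit 0, nat_lit 5, nat_lit 5, nat_lit 20], true, nat_lit 280, nat_lit 320, nat_lit 100, nat_lit 384, ⟨nat_lit 0, nat_lit 1000, nat_lit 0, nat_lit 8, nat_lit 306, nat_lit 1000, nat_lit 227, nat_lit 0, nat_lit 0, nat_lit 0, nat_lit 0, nat_lit 0, nat_lit 33579366, nat_lit 20730509, nat_lit 12690125, nat_lit 5540769, true, true⟩,
 nat_lit 0, nat_lit 0, nat_lit 0, nat_lit 9872, nat_lit 3610, nat_lit 0, nat_lit 0, nat_lit 0, nat_lit 0, nat_lit 0, nat_lit 0, nat_lit 0, nat_lit 0, nat_lit 0, nat_lit 0, nat_lit 250000, nat_lit 0, nat_lit 0, [(nat_lit 15, [(nat_lit 0, nat_lit 1000)])],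
 ⟨p055_k6, nat_lit 0, nat_lit 0, nat_lit 61, nat_lit 0, nat_lit 0, [nat_lit 2318400000, nat_lit 2378000001, nat_lit 3078800000], [], [nat_lit 26280830030, nat_lit 27086433740, nat_lit 28140386640, nat_lit 28862465640, nat_lit 27723083760, nat_lit 28456211520, nat_lit 29426166680, nat_lit 30084393640], nat_lit 0, nat_lit 0, nat_lit 0, nat_lit 0, nat_lit 0, nat_lit 0, [], [nat_lit 36, nat_lit 40, nat_lit 40, nat_lit 80, nat_lit 7, nat_lit 203, nat_lit 0, nat_lit 5]⟩, C1.Rw.none,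
 ⟨nat_lit 4472, nat_lit 5000, ⟨.ofNat (nat_lit 714270), .ofNat (nat_lit 785694), .ofNat (nat_lit 757103), .ofNat (nat_lit 828527), .ofNat (nat_lit 703919), .ofNat (nat_lit 771892), .ofNat (nat_lit 747027), .ofNat (nat_lit 815001)⟩, ⟨.ofNat (nat_lit 514284), .ofNat (nat_lit 585713), .ofNat (nat_lit 557141), .ofNat (nat_lit 628570), .ofNat (nat_lit 506556), .ofNat (nat_lit 574534), .ofNat (nat_lit 549689), .ofNat (nat_lit 617667)⟩⟩, [⟨nat_lit 4, nat_lit 100, nat_lit 93, nat_lit 97, nat_lit 163811349⟩]⟩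
noncomputable def p055_l47 : Lf2 := ⟨nat_lit 0, nat_lit 10, [nat_lit 0, nat_lit 5, nat_lit 5, nat_lit 20], true, nat_lit 240, nat_lit 280, nat_lit 112, nat_lit 376, ⟨nat_lit 0, nat_lit 1000, nat_lit 0, nat_lit 9, nat_lit 339, nat_lit 1000, nat_lit 201, nat_lit 0, nat_lit 0, nat_lit 0, nat_lit 0, nat_lit 0, nat_lit 32655739, nat_lit 24074274, nat_lit 10269987, nat_lit 5422446, true, true⟩,
 nat_lit 0, nat_lit 0, nat_lit 0, nat_lit 4053, nat_lit 3341, nat_lit 0, nat_lit 0, nat_lit 0, nat_lit 0, nat_lit 0, nat_lit 0, nat_lit 0, nat_lit 0, nat_lit 0, nat_lit 0, nat_lit 400000, nat_lit 0, nat_lit 0, [(nat_lit 12, [(nat_lit 1, nat_lit 1000)])],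
 ⟨p055_k2, nat_lit 0, nat_lit 0, nat_lit 67, nat_lit 0, nat_lit 0, [nat_lit 2033400000, nat_lit 2718800000, nat_lit 2663600000], [], [nat_lit 25889286036, nat_lit 26657230660, nat_lit 27841087359, nat_lit 28530975229, nat_lit 27215534484, nat_lit 27922979884, nat_lit 29026619410, nat_lit 29662999625], nat_lit 0, nat_lit 0, nat_lit 0, nat_lit 0, nat_lit 0, nat_lit 0, [], [nat_lit 42, nat_lit 40, nat_lit 40, nat_lit 80, nat_lit 13, nat_lit 289, nat_lit 75, nat_lit 7]⟩, C1.Rw.none,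
 ⟨nat_lit 5000, nat_lit 5478, ⟨.ofNat (nat_lit 799680), .ofNat (nat_lit 867109), .ofNat (nat_lit 842374), .ofNat (nat_lit 909802), .ofNat (nat_lit 785662), .ofNat (nat_lit 849937), .ofNat (nat_lit 828500), .ofNat (nat_lit 892774)⟩, ⟨.ofNat (nat_lit 446789), .ofNat (nat_lit 521722), .ofNat (nat_lit 489503), .ofNat (nat_lit 564436), .ofNat (nat_lit 442856), .ofNat (nat_lit 514284), .ofNat (nat_lit 485713), .ofNat (nat_lit 557141)⟩⟩, [⟨nat_lit 13, nat_lit 90, nat_lit 36, nat_lit 100, nat_lit 210568626⟩]⟩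
noncomputable def p055_l48 : Lf2 := ⟨nat_lit 0, nat_lit 10, [nat_lit 0, nat_lit 5, nat_lit 5, nat_lit 20], true, nat_lit 240, nat_lit 280, nat_lit 112, nat_lit 376, ⟨nat_lit 0, nat_lit 1000, nat_lit 0, nat_lit 9, nat_lit 331, nat_lit 1000, nat_lit 199, nat_lit 0, nat_lit 0, nat_lit 0, nat_lit 0, nat_lit 0, nat_lit 33248311, nat_lit 23520229, nat_lit 10231460, nat_lit 5403797, true, true⟩,
 nat_lit 0, nat_lit 0, nat_lit 0, nat_lit 2876, nat_lit 3567, nat_lit 0, nat_lit 0, nat_lit 0, nat_lit 0, nat_lit 0, nat_lit 0, nat_lit 0, nat_lit 0, nat_lit 0, nat_lit 0, nat_lit 250000, nat_lit 0, nat_lit 0, [(nat_lit 15, [(nat_lit 0, nat_lit 1000)])],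
 ⟨p055_k1, nat_lit 0, nat_lit 0, nat_lit 59, nat_lit 0, nat_lit 0, [nat_lit 2318400000, nat_lit 3071600000], [], [nat_lit 26868613420, nat_lit 27651669308, nat_lit 28581354757, nat_lit 29291684595, nat_lit 28151191508, nat_lit 28870931308, nat_lit 29739403132, nat_lit 30392947829], nat_lit 0, nat_lit 0, nat_lit 0, nat_lit 0, nat_lit 0, nat_lit 0, [], [nat_lit 74, nat_lit 40, nat_lit 40, nat_lit 80, nat_lit 43, nat_lit 203, nat_lit 0, nat_lit 5]⟩, C1.Rw.none,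
 ⟨nat_lit 4472, nat_lit 5000, ⟨.ofNat (nat_lit 785694), .ofNat (nat_lit 842833), .ofNat (nat_lit 828527), .ofNat (nat_lit 885667), .ofNat (nat_lit 771892), .ofNat (nat_lit 826271), .ofNat (nat_lit 815001), .ofNat (nat_lit 869380)⟩, ⟨.ofNat (nat_lit 442856), .ofNat (nat_lit 514284), .ofNat (nat_lit 485713), .ofNat (nat_lit 557141), .ofNat (nat_lit 438578), .ofNat (nat_lit 506556), .ofNat (nat_lit 481711), .ofNat (nat_lit 549689)⟩⟩, [⟨nat_lit 13, nat_lit 84, nat_lit 47, nat_lit 100, nat_lit 243033416⟩]⟩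
noncomputable def p055_l49 : Lf2 := ⟨nat_lit 0, nat_lit 5, [nat_lit 4, nat_lit 5, nat_lit 5, nat_lit 20], false, nat_lit 280, nat_lit 336, nat_lit 152, nat_lit 384, ⟨nat_lit 1000, nat_lit 0, nat_lit 0, nat_lit 0, nat_lit 0, nat_lit 0, nat_lit 0, nat_lit 0, nat_lit 0, nat_lit 0, nat_lit 0, nat_lit 0, nat_lit 0, nat_lit 0, nat_lit 0, nat_lit 0, false, false⟩,
 nat_lit 0, nat_lit 0, nat_lit 16207, nat_lit 0, nat_lit 5501, nat_lit 6945, nat_lit 0, nat_lit 0, nat_lit 0, nat_lit 2190, nat_lit 0, nat_lit 0, nat_lit 0, nat_lit 0, nat_lit 0, nat_lit 0, nat_lit 0, nat_lit 0, [],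
 ⟨p055_k13, nat_lit 0, nat_lit 0, nat_lit 71, nat_lit 0, nat_lit 0, [nat_lit 3282000000, nat_lit 4688000000, nat_lit 7968000000], [], [nat_lit 29152675534, nat_lit 29930271620, nat_lit 31078726963, nat_lit 31770018129, nat_lit 31329617714, nat_lit 31990346142, nat_lit 33158749287, nat_lit 33829054066], nat_lit 0, nat_lit 0, nat_lit 0, nat_lit 0, nat_lit 0, nat_lit 0, [], [nat_lit 36, nat_lit 40, nat_lit 40, nat_lit 80, nat_lit 7, nat_lit 203, nat_lit 0, nat_lit 4]⟩, ⟨p055_k21, nat_lit 0, nat_lit 0, nat_lit 266, nat_lit 0, nat_lit 325549, [nat_lit 6250000000, nat_lit 7968000000, nat_lit 11872000000], [], [nat_lit 29876236333, nat_lit 30310998230, nat_lit 32128434684, nat_lit 32479524427, nat_lit 36121794685, nat_lit 36225879372, nat_lit 37463503737, nat_lit 37536066734], nat_lit 1271250, nat_lit 1271250, nat_lit 1271250, nat_lit 1271250, nat_lit 1033601, nat_lit 3002700, [nat_lit 1412500, nat_lit 1271250,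 nat_lit 1271250], [nat_lit 53, nat_lit 40, nat_lit 40, nat_lit 80, nat_lit 14, nat_lit 401, nat_lit 175, nat_lit 9]⟩,
 zbF0, [⟨nat_lit 13, nat_lit 89, nat_lit 41, nat_lit 100, nat_lit 51535542⟩, ⟨nat_lit 4, nat_lit 94, nat_lit 100, nat_lit 97, nat_lit 455251228⟩, ⟨nat_lit 19, nat_lit 100, nat_lit 54, nat_lit 87, nat_lit 399018417⟩]⟩
noncomputable def p055_l50 : Lf2 := ⟨nat_lit 0, nat_lit 5, [nat_lit 4, nat_lit 5, nat_lit 5, nat_lit 20], false, nat_lit 280, nat_lit 336, nat_lit 152, nat_lit 376, ⟨nat_lit 992, nat_lit 8, nat_lit 0, nat_lit 9, nat_lit 343, nat_lit 8, nat_lit 236, nat_lit 0, nat_lit 0, nat_lit 0, nat_lit 0, nat_lit 0, nat_lit 30911388, nat_lit 23422095, nat_lit 12666517, nat_lit 5623207, true, true⟩,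
 nat_lit 0, nat_lit 0, nat_lit 14322, nat_lit 0, nat_lit 6692, nat_lit 6849, nat_lit 0, nat_lit 0, nat_lit 0, nat_lit 3008, nat_lit 0, nat_lit 0, nat_lit 0, nat_lit 0, nat_lit 0, nat_lit 8000, nat_lit 0, nat_lit 0, [(nat_lit 12, [(nat_lit 2, nat_lit 8)])],
 ⟨p055_k22, nat_lit 0, nat_lit 0, nat_lit 82, nat_lit 0, nat_lit 0, [nat_lit 3274425600, nat_lit 6215571200, nat_lit 7908323200], [], [nat_lit 30365074800, nat_lit 31137217268, nat_lit 32618329013, nat_lit 33284601094, nat_lit 32527836832, nat_lit 33172501589, nat_lit 34787887209, nat_lit 35480502862], nat_lit 0, nat_lit 0, nat_lit 0, nat_lit 0, nat_lit 0, nat_lit 0, [], [nat_lit 18, nat_lit 40, nat_lit 40, nat_lit 80, nat_lit 2, nat_lit 203, nat_lit 0, nat_lit 4]⟩, ⟨p055_k23, nat_lit 0, nat_lit 0, nat_lit 305, nat_lit 0, nat_lit 451627, [nat_lit 6200000000, nat_lit 9763264000], [], [nat_lit 30557831543, nat_lit 30811694077, nat_lit 32300308237, nat_lit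 32488640108, nat_lit 34782030121, nat_lit 34867839024, nat_lit 36042186600, nat_lit 36079579479], nat_lit 1271250, nat_lit 1271250, nat_lit 1271250, nat_lit 1271250, nat_lit 1033601, nat_lit 2934800, [nat_lit 1412500, nat_lit 1271250], [nat_lit 51, nat_lit 40, nat_lit 40, nat_lit 80, nat_lit 1, nat_lit 401, nat_lit 175, nat_lit 10]⟩,
 ⟨nat_lit 5000, nat_lit 5478, ⟨.ofNat (nat_lit 821028), .ofNat (nat_lit 888456), .ofNat (nat_lit 842374), .ofNat (nat_lit 909802), .ofNat (nat_lit 807081), .ofNat (nat_lit 871355), .ofNat (nat_lit 828500), .ofNat (nat_lit 892774)⟩, ⟨.ofNat (nat_lit 521722), .ofNat (nat_lit 626629), .ofNat (nat_lit 564436), .ofNat (nat_lit 669336), .ofNat (nat_lit 514284), .ofNat (nat_lit 614284), .ofNat (nat_lit 557141), .ofNat (nat_lit 657134)⟩⟩, [⟨nat_lit 13, nat_lit 90, nat_lit 31, nat_lit 100, nat_lit 37652280⟩, ⟨nat_lit 16, nat_lit 100, nat_lit 94, nat_lit 97, nat_lit 465506105⟩, ⟨nat_lit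 7, nat_lit 63, nat_lit 100, nat_lit 88, nat_lit 357336693⟩]⟩
noncomputable def p055_l51 : Lf2 := ⟨nat_lit 0, nat_lit 5, [nat_lit 4, nat_lit 5, nat_lit 5, nat_lit 20], true, nat_lit 280, nat_lit 320, nat_lit 152, nat_lit 384, ⟨nat_lit 0, nat_lit 1000, nat_lit 0, nat_lit 9, nat_lit 326, nat_lit 1000, nat_lit 228, nat_lit 0, nat_lit 0, nat_lit 0, nat_lit 0, nat_lit 0, nat_lit 32326629, nat_lit 22284205, nat_lit 12389166, nat_lit 5570141, true, true⟩,
 nat_lit 0, nat_lit 0, nat_lit 0, nat_lit 3955, nat_lit 3278, nat_lit 0, nat_lit 0, nat_lit 0, nat_lit 0, nat_lit 0, nat_lit 0, nat_lit 0, nat_lit 0, nat_lit 0, nat_lit 0, nat_lit 501400, nat_lit 0, nat_lit 0, [(nat_lit 15, [(nat_lit 1, nat_lit 831), (nat_lit 2, nat_lit 169)])],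
 ⟨p055_k20, nat_lit 0, nat_lit 0, nat_lit 67, nat_lit 0, nat_lit 0, [nat_lit 2013649560, nat_lit 2129742401, nat_lit 2057622400], [], [nat_lit 27919059832, nat_lit 28271068932, nat_lit 29070390824, nat_lit 29399027858, nat_lit 29180117824, nat_lit 29502269928, nat_lit 30243482940, nat_lit 30544560444], nat_lit 0, nat_lit 0, nat_lit 0, nat_lit 0, nat_lit 0, nat_lit 0, [], [nat_lit 59, nat_lit 40, nat_lit 40, nat_lit 80, nat_lit 3, nat_lit 203, nat_lit 0, nat_lit 5]⟩, C1.Rw.none,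
 ⟨nat_lit 4743, nat_lit 5000, ⟨.ofNat (nat_lit 785707), .ofNat (nat_lit 828563), .ofNat (nat_lit 807132), .ofNat (nat_lit 849988), .ofNat (nat_lit 778792), .ofNat (nat_lit 820610), .ofNat (nat_lit 800276), .ofNat (nat_lit 842095)⟩, ⟨.ofNat (nat_lit 514284), .ofNat (nat_lit 585713), .ofNat (nat_lit 557141), .ofNat (nat_lit 628570), .ofNat (nat_lit 510469), .ofNat (nat_lit 580169), .ofNat (nat_lit 553445), .ofNat (nat_lit 623145)⟩⟩, [⟨nat_lit 13, nat_lit 87, nat_lit 41, nat_lit 100, nat_lit 203110721⟩, ⟨nat_lit 16, nat_lit 94, nat_lit 88, nat_lit 100, nat_lit 141150219⟩]⟩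
noncomputable def p055_l52 : Lf2 := ⟨nat_lit 0, nat_lit 5, [nat_lit 4, nat_lit 5, nat_lit 5, nat_lit 20], false, nat_lit 280, nat_lit 320, nat_lit 152, nat_lit 376, ⟨nat_lit 376, nat_lit 624, nat_lit 0, nat_lit 9, nat_lit 337, nat_lit 624, nat_lit 228, nat_lit 0, nat_lit 0, nat_lit 0, nat_lit 0, nat_lit 0, nat_lit 31633589, nat_lit 23194826, nat_lit 12171585, nat_lit 5577434, true, true⟩,
 nat_lit 0, nat_lit 0, nat_lit 5618, nat_lit 0, nat_lit 3676, nat_lit 2686, nat_lit 0, nat_lit 0, nat_lit 0, nat_lit 1204, nat_lit 0, nat_lit 0, nat_lit 0, nat_lit 0, nat_lit 0, nat_lit 249600, nat_lit 0, nat_lit 0, [(nat_lit 15, [(nat_lit 1, nat_lit 624)])],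
 ⟨p055_k19, nat_lit 0, nat_lit 0, nat_lit 60, nat_lit 0, nat_lit 0, [nat_lit 2494636800, nat_lit 3801673600], [], [nat_lit 28300039224, nat_lit 28662873924, nat_lit 29908279554, nat_lit 30237286969, nat_lit 29590733888, nat_lit 29921231256, nat_lit 31071713140, nat_lit 31371724953], nat_lit 0, nat_lit 0, nat_lit 0, nat_lit 0, nat_lit 0, nat_lit 0, [], [nat_lit 49, nat_lit 40, nat_lit 40, nat_lit 80, nat_lit 16, nat_lit 203, nat_lit 0, nat_lit 5]⟩, ⟨p055_k23, nat_lit 0, nat_lit 0, nat_lit 370, nat_lit 0, nat_lit 644722, [nat_lit 2350000000, nat_lit 3700592000], [], [nat_lit 12117320337, nat_lit 12207021856, nat_lit 12666792036, nat_lit 12735849883, nat_lit 13362773173, nat_lit 13368715008, nat_lit 13699498814, nat_lit 13691982703], nat_lit 1271250, nat_lit 1271250, nat_lit 1271250, nat_lit 1271250, nat_lit 1033601, nat_lit 2934800, [nat_lit 1412500, nat_lit 1271250], [nat_lit 51, nat_lit 40, nat_lit 40, nat_lit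 80, nat_lit 1, nat_lit 401, nat_lit 175, nat_lit 10]⟩,
 ⟨nat_lit 4743, nat_lit 5000, ⟨.ofNat (nat_lit 807132), .ofNat (nat_lit 864274), .ofNat (nat_lit 828558), .ofNat (nat_lit 885699), .ofNat (nat_lit 800276), .ofNat (nat_lit 856035), .ofNat (nat_lit 821762), .ofNat (nat_lit 877520)⟩, ⟨.ofNat (nat_lit 514284), .ofNat (nat_lit 585713), .ofNat (nat_lit 557141), .ofNat (nat_lit 628570), .ofNat (nat_lit 510469), .ofNat (nat_lit 580169), .ofNat (nat_lit 553445), .ofNat (nat_lit 623145)⟩⟩, [⟨nat_lit 13, nat_lit 86, nat_lit 40, nat_lit 100, nat_lit 103865362⟩, ⟨nat_lit 4, nat_lit 100, nat_lit 97, nat_lit 98, nat_lit 245365195⟩, ⟨nat_lit 19, nat_lit 100, nat_lit 63, nat_lit 88, nat_lit 125194478⟩]⟩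
noncomputable def p055_l53 : Lf2 := ⟨nat_lit 0, nat_lit 5, [nat_lit 4, nat_lit 5, nat_lit 5, nat_lit 20], true, nat_lit 280, nat_lit 312, nat_lit 152, nat_lit 384, ⟨nat_lit 0, nat_lit 1000, nat_lit 0, nat_lit 9, nat_lit 321, nat_lit 1000, nat_lit 223, nat_lit 0, nat_lit 0, nat_lit 0, nat_lit 0, nat_lit 0, nat_lit 32804546, nat_lit 22059929, nat_lit 12135525, nat_lit 5541307, true, true⟩,
 nat_lit 0, nat_lit 0, nat_lit 0, nat_lit 3291, nat_lit 3312, nat_lit 0, nat_lit 0, nat_lit 0, nat_lit 0, nat_lit 0, nat_lit 0, nat_lit 0, nat_lit 0, nat_lit 0, nat_lit 0, nat_lit 400000, nat_lit 0, nat_lit 0, [(nat_lit 15, [(nat_lit 1, nat_lit 1000)])],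
 ⟨p055_k24, nat_lit 0, nat_lit 0, nat_lit 66, nat_lit 0, nat_lit 0, [nat_lit 2020200000, nat_lit 2216000000, nat_lit 2326400000], [], [nat_lit 28270000788, nat_lit 28622934688, nat_lit 29213728974, nat_lit 29547043888, nat_lit 29256817496, nat_lit 29585696289, nat_lit 30143019309, nat_lit 30476539607], nat_lit 0, nat_lit 0, nat_lit 0, nat_lit 0, nat_lit 0, nat_lit 0, [], [nat_lit 59, nat_lit 40, nat_lit 40, nat_lit 80, nat_lit 3, nat_lit 203, nat_lit 0, nat_lit 5]⟩, C1.Rw.none,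
 ⟨nat_lit 4472, nat_lit 4744, ⟨.ofNat (nat_lit 778796), .ofNat (nat_lit 813645), .ofNat (nat_lit 800281), .ofNat (nat_lit 835131), .ofNat (nat_lit 771909), .ofNat (nat_lit 805898), .ofNat (nat_lit 793473), .ofNat (nat_lit 827462)⟩, ⟨.ofNat (nat_lit 510469), .ofNat (nat_lit 566229), .ofNat (nat_lit 553445), .ofNat (nat_lit 609205), .ofNat (nat_lit 506556), .ofNat (nat_lit 560938), .ofNat (nat_lit 549689), .ofNat (nat_lit 604071)⟩⟩, [⟨nat_lit 13, nat_lit 84, nat_lit 47, nat_lit 100, nat_lit 220338294⟩, ⟨nat_lit 16, nat_lit 91, nat_lit 91, nat_lit 100, nat_lit 151247088⟩]⟩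
noncomputable def p055_l54 : Lf2 := ⟨nat_lit 0, nat_lit 5, [nat_lit 4, nat_lit 5, nat_lit 5, nat_lit 20], false, nat_lit 280, nat_lit 312, nat_lit 152, nat_lit 376, ⟨nat_lit 145, nat_lit 855, nat_lit 0, nat_lit 9, nat_lit 333, nat_lit 855, nat_lit 223, nat_lit 0, nat_lit 0, nat_lit 0, nat_lit 0, nat_lit 0, nat_lit 32100257, nat_lit 22975548, nat_lit 11924195, nat_lit 5550426, true, true⟩,
 nat_lit 0, nat_lit 0, nat_lit 2183, nat_lit 0, nat_lit 3427, nat_lit 1044, nat_lit 0, nat_lit 0, nat_lit 0, nat_lit 292, nat_lit 0, nat_lit 0, nat_lit 0, nat_lit 0, nat_lit 0, nat_lit 342000, nat_lit 0, nat_lit 0, [(nat_lit 15, [(nat_lit 1, nat_lit 855)])],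
 ⟨p055_k24, nat_lit 0, nat_lit 0, nat_lit 68, nat_lit 0, nat_lit 0, [nat_lit 2203161000, nat_lit 2574440000, nat_lit 2895322000], [], [nat_lit 28427193048, nat_lit 28783254948, nat_lit 29766228648, nat_lit 30094150303, nat_lit 29420287100, nat_lit 29751720549, nat_lit 30676824894, nat_lit 30982456542], nat_lit 0, nat_lit 0, nat_lit 0, nat_lit 0, nat_lit 0, nat_lit 0, [], [nat_lit 59, nat_lit 40, nat_lit 40, nat_lit 80, nat_lit 3, nat_lit 203, nat_lit 0, nat_lit 5]⟩, ⟨p055_k25, nat_lit 0, nat_lit 0, nat_lit 477, nat_lit 0, nat_lit 849687, [nat_lit 906250000, nat_lit 1155360000, nat_lit 1427090000], [], [nat_lit 4850762832, nat_lit 4868886649, nat_lit 4998964022, nat_lit 5011401906, nat_lit 5153691473, nat_lit 5145331144, nat_lit 5246559660, nat_lit 5250619901], nat_lit 1271250, nat_lit 1271250, nat_lit 1271250, nat_lit 1271250, nat_lit 1033601, nat_lit 2934800, [nat_lit 1412500, nat_lit 1271250, nat_lit 1271250],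 [nat_lit 25, nat_lit 40, nat_lit 40, nat_lit 80, nat_lit 17, nat_lit 401, nat_lit 175, nat_lit 10]⟩,
 ⟨nat_lit 4472, nat_lit 4744, ⟨.ofNat (nat_lit 800281), .ofNat (nat_lit 849070), .ofNat (nat_lit 821766), .ofNat (nat_lit 870555), .ofNat (nat_lit 793473), .ofNat (nat_lit 841057), .ofNat (nat_lit 815036), .ofNat (nat_lit 862620)⟩, ⟨.ofNat (nat_lit 510469), .ofNat (nat_lit 566229), .ofNat (nat_lit 553445), .ofNat (nat_lit 609205), .ofNat (nat_lit 506556), .ofNat (nat_lit 560938), .ofNat (nat_lit 549689), .ofNat (nat_lit 604071)⟩⟩, [⟨nat_lit 13, nat_lit 83, nat_lit 45, nat_lit 100, nat_lit 175190953⟩, ⟨nat_lit 16, nat_lit 91, nat_lit 91, nat_lit 100, nat_lit 192612013⟩, ⟨nat_lit 19, nat_lit 100, nat_lit 63, nat_lit 88, nat_lit 44742272⟩]⟩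
noncomputable def p055_l55 : Lf2 := ⟨nat_lit 0, nat_lit 10, [nat_lit 0, nat_lit 5, nat_lit 5, nat_lit 20], false, nat_lit 280, nat_lit 336, nat_lit 152, nat_lit 384, ⟨nat_lit 1000, nat_lit 0, nat_lit 0, nat_lit 0, nat_lit 0, nat_lit 0, nat_lit 0, nat_lit 0, nat_lit 0, nat_lit 0, nat_lit 0, nat_lit 0, nat_lit 0, nat_lit 0, nat_lit 0, nat_lit 0, false, false⟩,
 nat_lit 0, nat_lit 0, nat_lit 16105, nat_lit 8460, nat_lit 5426, nat_lit 6902, nat_lit 0, nat_lit 0, nat_lit 0, nat_lit 1577, nat_lit 0, nat_lit 0, nat_lit 0, nat_lit 0, nat_lit 0, nat_lit 0, nat_lit 0, nat_lit 0, [],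
 ⟨p055_k2, nat_lit 0, nat_lit 0, nat_lit 73, nat_lit 0, nat_lit 0, [nat_lit 3282000000, nat_lit 4688000000, nat_lit 9842000000], [], [nat_lit 29187135484, nat_lit 30735114756, nat_lit 31338601537, nat_lit 32694507622, nat_lit 31353969194, nat_lit 32670711909, nat_lit 33315743315, nat_lit 34629601592], nat_lit 0, nat_lit 0, nat_lit 0, nat_lit 0, nat_lit 0, nat_lit 0, [], [nat_lit 42, nat_lit 40, nat_lit 40, nat_lit 80, nat_lit 13, nat_lit 203, nat_lit 0, nat_lit 4]⟩, ⟨p055_k3, nat_lit 0, nat_lit 0, nat_lit 271, nat_lit 0, nat_lit 332553, [nat_lit 6250000000, nat_lit 7968000000, nat_lit 11872000000], [], [nat_lit 31580303515, nat_lit 32171652756, nat_lit 33680888775, nat_lit 34117912246, nat_lit 36261071436, nat_lit 36400111337, nat_lit 37822901222, nat_lit 37844493842], nat_lit 1271250, nat_lit 1271250, nat_lit 1271250, nat_lit 1271250, nat_lit 1033601, nat_lit 3002700, [nat_lit 1412500, nat_lit 1271250, nat_lit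 1271250], [nat_lit 53, nat_lit 40, nat_lit 40, nat_lit 80, nat_lit 14, nat_lit 401, nat_lit 175, nat_lit 9]⟩,
 zbF0, [⟨nat_lit 13, nat_lit 87, nat_lit 41, nat_lit 100, nat_lit 53219817⟩, ⟨nat_lit 4, nat_lit 100, nat_lit 100, nat_lit 100, nat_lit 753171850⟩, ⟨nat_lit 7, nat_lit 59, nat_lit 100, nat_lit 87, nat_lit 366036844⟩]⟩
noncomputable def b_V_700_500_20_3 : St := ⟨true, nat_lit 0, nat_lit 1, nat_lit 1, nat_lit 120, nat_lit 280, nat_lit 320, nat_lit 200, nat_lit 240, nat_lit 240, nat_lit 396, nat_lit 80, nat_lit 120, nat_lit 160, nat_lit 336, nat_lit 0, nat_lit 384, nat_lit 0, nat_lit 40, nat_lit 0, nat_lit 0, nat_lit 0, nat_lit 0⟩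
theorem d_V_700_500_20_3 (h : EB TB.env) : Dead b_V_700_500_20_3 := chkB_sound0 h (T :=
(.spl (nat_lit 2) (nat_lit 320)
(.spl (nat_lit 4) (nat_lit 240)
(.leaf p055_l38)
(.trZ (nat_lit 9) (nat_lit 100) (nat_lit 100) (nat_lit 40) (nat_lit 16) (.leaf p055_l39)))
(.trZ (nat_lit 9) (nat_lit 100) (nat_lit 82) (nat_lit 44) (nat_lit 16) (.spl (nat_lit 4) (nat_lit 240)
(.spl (nat_lit 0) (nat_lit 300)
(.leaf p055_l40)
(.trX (nat_lit 13) (nat_lit 88) (nat_lit 32) (nat_lit 100) (nat_lit 392) (.spl (nat_lit 2) (nat_lit 360)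
(.leaf p055_l41)
(.trZ (nat_lit 9) (nat_lit 100) (nat_lit 61) (nat_lit 68) (nat_lit 48) (.trX (nat_lit 22) (nat_lit 61) (nat_lit 68) (nat_lit 100) (nat_lit 352) (.leaf p055_l42))))))
(.trZ (nat_lit 9) (nat_lit 100) (nat_lit 82) (nat_lit 76) (nat_lit 64) (.spl (nat_lit 2) (nat_lit 360)
(.spl (nat_lit 4) (nat_lit 280)
(.leaf p055_l43)
(.trZ (nat_lit 9) (nat_lit 100) (nat_lit 87) (nat_lit 95) (nat_lit 100) (.spl (nat_lit 0) (nat_lit 300)
(.leaf p055_l44)
(.trX (nat_lit 16) (nat_lit 94) (nat_lit 88) (nat_lit 100) (nat_lit 320) (.spl (nat_lit 6) (nat_lit 20)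
(.leaf p055_l45)
(.leaf p055_l46))))))
(.trZ (nat_lit 9) (nat_lit 100) (nat_lit 61) (nat_lit 92) (nat_lit 112) (.spl (nat_lit 4) (nat_lit 280)
(.trX (nat_lit 22) (nat_lit 65) (nat_lit 54) (nat_lit 100) (nat_lit 376) (.spl (nat_lit 0) (nat_lit 300)
(.leaf p055_l47)
(.trX (nat_lit 13) (nat_lit 88) (nat_lit 32) (nat_lit 100) (nat_lit 392) (.leaf p055_l48))))
(.trZ (nat_lit 9) (nat_lit 94) (nat_lit 62) (nat_lit 100) (nat_lit 152) (.spl (nat_lit 6) (nat_lit 20)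
(.spl (nat_lit 0) (nat_lit 300)
(.spl (nat_lit 1) (nat_lit 220)
(.trX (nat_lit 13) (nat_lit 92) (nat_lit 31) (nat_lit 100) (nat_lit 392) (.leaf p055_l49))
(.trX (nat_lit 19) (nat_lit 100) (nat_lit 49) (nat_lit 92) (nat_lit 376) (.leaf p055_l50)))
(.trX (nat_lit 13) (nat_lit 88) (nat_lit 32) (nat_lit 100) (nat_lit 392) (.trX (nat_lit 16) (nat_lit 94) (nat_lit 88) (nat_lit 100) (nat_lit 320) (.spl (nat_lit 0) (nat_lit 310)
(.spl (nat_lit 1) (nat_lit 220)
(.trX (nat_lit 13) (nat_lit 87) (nat_lit 41) (nat_lit 100) (nat_lit 384) (.leaf p055_l51))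
(.trX (nat_lit 19) (nat_lit 100) (nat_lit 49) (nat_lit 92) (nat_lit 376) (.leaf p055_l52)))
(.trX (nat_lit 13) (nat_lit 85) (nat_lit 38) (nat_lit 100) (nat_lit 388) (.trX (nat_lit 16) (nat_lit 91) (nat_lit 91) (nat_lit 100) (nat_lit 312) (.spl (nat_lit 1) (nat_lit 220)
(.trX (nat_lit 13) (nat_lit 84) (nat_lit 47) (nat_lit 100) (nat_lit 380) (.leaf p055_l53))
(.trX (nat_lit 19) (nat_lit 100) (nat_lit 49) (nat_lit 92) (nat_lit 376) (.leaf p055_l54)))))))))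
(.leaf p055_l55))))))))))) (by decide +kernel)
noncomputable def p055_l56 : Lf2 := ⟨nat_lit 0, nat_lit 10, [nat_lit 0, nat_lit 5, nat_lit 5, nat_lit 20], true, nat_lit 0, nat_lit 336, nat_lit 0, nat_lit 384, ⟨nat_lit 0, nat_lit 1000, nat_lit 0, nat_lit 5, nat_lit 157, nat_lit 1000, nat_lit 127, nat_lit 0, nat_lit 0, nat_lit 0, nat_lit 0, nat_lit 0, nat_lit 0, nat_lit 0, nat_lit 0, nat_lit 5000000, false, false⟩,
 nat_lit 0, nat_lit 0, nat_lit 0, nat_lit 6445, nat_lit 5061, nat_lit 0, nat_lit 0, nat_lit 0, nat_lit 0, nat_lit 0, nat_lit 0, nat_lit 0, nat_lit 0, nat_lit 0, nat_lit 0, nat_lit 727600, nat_lit 0, nat_lit 0, [(nat_lit 12, [(nat_lit 1, nat_lit 454), (nat_lit 2, nat_lit 546)]), (nat_lit 15, [(nat_lit 1, nat_lit 454), (nat_lit 2, nat_lit 546)])],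
 ⟨p055_k4, nat_lit 0, nat_lit 0, nat_lit 298, nat_lit 0, nat_lit 0, [nat_lit 3136697601, nat_lit 1075667200], [], [nat_lit 24818584642, nat_lit 27002453220, nat_lit 24624439021, nat_lit 26110525989, nat_lit 27139339808, nat_lit 28844545878, nat_lit 26228827175, nat_lit 27483464141], nat_lit 0, nat_lit 0, nat_lit 0, nat_lit 0, nat_lit 0, nat_lit 0, [], [nat_lit 82, nat_lit 40, nat_lit 40, nat_lit 80, nat_lit 63, nat_lit 373, nat_lit 150, nat_lit 11]⟩, C1.Rw.none,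
 ⟨nat_lit 4472, nat_lit 5478, ⟨.ofNat (nat_lit 155307), .ofNat (nat_lit 574895), .ofNat (nat_lit 198021), .ofNat (nat_lit 617523), .ofNat (nat_lit 187299), .ofNat (nat_lit 567940), .ofNat (nat_lit 230432), .ofNat (nat_lit 610987)⟩, ⟨.negSucc (nat_lit 2834), .ofNat (nat_lit 626629), .ofNat (nat_lit 0), .ofNat (nat_lit 669343), .ofNat (nat_lit 0), .ofNat (nat_lit 601725), .ofNat (nat_lit 0), .ofNat (nat_lit 644858)⟩⟩, [⟨nat_lit 4, nat_lit 100, nat_lit 100, nat_lit 100, nat_lit 79753471⟩]⟩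
noncomputable def p055_l57 : Lf2 := ⟨nat_lit 0, nat_lit 10, [nat_lit 0, nat_lit 5, nat_lit 5, nat_lit 20], false, nat_lit 0, nat_lit 336, nat_lit 0, nat_lit 384, ⟨nat_lit 667, nat_lit 333, nat_lit 0, nat_lit 6, nat_lit 295, nat_lit 333, nat_lit 128, nat_lit 0, nat_lit 0, nat_lit 0, nat_lit 0, nat_lit 0, nat_lit 0, nat_lit 0, nat_lit 0, nat_lit 5000000, true, true⟩,
 nat_lit 0, nat_lit 0, nat_lit 0, nat_lit 19984, nat_lit 5041, nat_lit 5030, nat_lit 872, nat_lit 0, nat_lit 0, nat_lit 1214, nat_lit 0, nat_lit 0, nat_lit 0, nat_lit 0, nat_lit 0, nat_lit 333000, nat_lit 0, nat_lit 0, [(nat_lit 12, [(nat_lit 2, nat_lit 333)])],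
 ⟨p055_k2, nat_lit 0, nat_lit 0, nat_lit 206, nat_lit 0, nat_lit 0, [nat_lit 2852749680, nat_lit 3996825201, nat_lit 6466712000], [], [nat_lit 25351488905, nat_lit 26297725703, nat_lit 32815852236, nat_lit 33920049461, nat_lit 27892116516, nat_lit 28434828874, nat_lit 33024261732, nat_lit 33516357111], nat_lit 0, nat_lit 0, nat_lit 0, nat_lit 0, nat_lit 0, nat_lit 0, [], [nat_lit 42, nat_lit 40, nat_lit 40, nat_lit 80, nat_lit 13, nat_lit 428, nat_lit 200, nat_lit 12]⟩, ⟨p055_k3, nat_lit 0, nat_lit 0, nat_lit 254, nat_lit 0, nat_lit 0, [nat_lit 4168750000, nat_lit 5314656000, nat_lit 7918624000], [], [nat_lit 19065642954, nat_lit 19938653854, nat_lit 25957163239, nat_lit 26395667779, nat_lit 21034571122, nat_lit 21325095348, nat_lit 25057649234, nat_lit 25152328083], nat_lit 0, nat_lit 0, nat_lit 0, nat_lit 0, nat_lit 0, nat_lit 0, [], [nat_lit 53, nat_lit 40, nat_lit 40, nat_lit 80, nat_lit 14, nat_lit 538,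 nat_lit 300, nat_lit 14]⟩,
 ⟨nat_lit 5000, nat_lit 5478, ⟨.ofNat (nat_lit 574920), .ofNat (nat_lit 867109), .ofNat (nat_lit 617614), .ofNat (nat_lit 909802), .ofNat (nat_lit 571415), .ofNat (nat_lit 849937), .ofNat (nat_lit 614253), .ofNat (nat_lit 892774)⟩, ⟨.negSucc (nat_lit 2832), .ofNat (nat_lit 626629), .ofNat (nat_lit 0), .ofNat (nat_lit 669336), .ofNat (nat_lit 0), .ofNat (nat_lit 614284), .ofNat (nat_lit 0), .ofNat (nat_lit 657134)⟩⟩, [⟨nat_lit 4, nat_lit 94, nat_lit 100, nat_lit 97, nat_lit 143376705⟩, ⟨nat_lit 7, nat_lit 59, nat_lit 100, nat_lit 87, nat_lit 135527404⟩]⟩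
noncomputable def p055_l58 : Lf2 := ⟨nat_lit 0, nat_lit 10, [nat_lit 0, nat_lit 5, nat_lit 5, nat_lit 20], false, nat_lit 0, nat_lit 320, nat_lit 0, nat_lit 384, ⟨nat_lit 569, nat_lit 431, nat_lit 0, nat_lit 6, nat_lit 289, nat_lit 431, nat_lit 120, nat_lit 0, nat_lit 0, nat_lit 0, nat_lit 0, nat_lit 0, nat_lit 0, nat_lit 0, nat_lit 0, nat_lit 5000000, true, true⟩,
 nat_lit 0, nat_lit 0, nat_lit 0, nat_lit 13789, nat_lit 4707, nat_lit 4319, nat_lit 248, nat_lit 0, nat_lit 0, nat_lit 898, nat_lit 0, nat_lit 0, nat_lit 0, nat_lit 0, nat_lit 0, nat_lit 431000, nat_lit 0, nat_lit 0, [(nat_lit 15, [(nat_lit 2, nat_lit 431)])],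
 ⟨p055_k6, nat_lit 0, nat_lit 0, nat_lit 186, nat_lit 0, nat_lit 0, [nat_lit 2721458641, nat_lit 3602397201, nat_lit 4233298800], [], [nat_lit 25663877684, nat_lit 26671598754, nat_lit 32776375851, nat_lit 33763804854, nat_lit 28168759222, nat_lit 28779576034, nat_lit 32425626537, nat_lit 32877098404], nat_lit 0, nat_lit 0, nat_lit 0, nat_lit 0, nat_lit 0, nat_lit 0, [], [nat_lit 36, nat_lit 40, nat_lit 40, nat_lit 80, nat_lit 7, nat_lit 317, nat_lit 100, nat_lit 10]⟩, ⟨p055_k3, nat_lit 0, nat_lit 0, nat_lit 252, nat_lit 0, nat_lit 0, [nat_lit 3556250000, nat_lit 4533792000, nat_lit 6755168000], [], [nat_lit 16695050930, nat_lit 17440910046, nat_lit 22424835754, nat_lit 22814139533, nat_lit 18378101582, nat_lit 18635138301, nat_lit 21354900658, nat_lit 21337943210], nat_lit 0, nat_lit 0, nat_lit 0, nat_lit 0, nat_lit 0, nat_lit 0, [], [nat_lit 53, nat_lit 40, nat_lit 40, nat_lit 80, nat_lit 14, nat_lit 538,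 nat_lit 300, nat_lit 14]⟩,
 ⟨nat_lit 4472, nat_lit 5000, ⟨.ofNat (nat_lit 571423), .ofNat (nat_lit 842833), .ofNat (nat_lit 614256), .ofNat (nat_lit 885667), .ofNat (nat_lit 567973), .ofNat (nat_lit 826271), .ofNat (nat_lit 611081), .ofNat (nat_lit 869380)⟩, ⟨.ofNat (nat_lit 0), .ofNat (nat_lit 585713), .ofNat (nat_lit 0), .ofNat (nat_lit 628570), .ofNat (nat_lit 0), .ofNat (nat_lit 574534), .ofNat (nat_lit 0), .ofNat (nat_lit 617667)⟩⟩, [⟨nat_lit 4, nat_lit 100, nat_lit 93, nat_lit 97, nat_lit 129065385⟩, ⟨nat_lit 7, nat_lit 59, nat_lit 100, nat_lit 87, nat_lit 109449217⟩]⟩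
noncomputable def p055_l59 : Lf2 := ⟨nat_lit 0, nat_lit 10, [nat_lit 0, nat_lit 5, nat_lit 5, nat_lit 20], true, nat_lit 0, nat_lit 160, nat_lit 0, nat_lit 384, ⟨nat_lit 0, nat_lit 1000, nat_lit 0, nat_lit 5, nat_lit 213, nat_lit 628, nat_lit 64, nat_lit 0, nat_lit 0, nat_lit 0, nat_lit 0, nat_lit 0, nat_lit 0, nat_lit 0, nat_lit 0, nat_lit 5000000, false, true⟩,
 nat_lit 0, nat_lit 0, nat_lit 0, nat_lit 5711, nat_lit 4316, nat_lit 0, nat_lit 0, nat_lit 0, nat_lit 0, nat_lit 0, nat_lit 0, nat_lit 0, nat_lit 0, nat_lit 0, nat_lit 0, nat_lit 629200, nat_lit 0, nat_lit 0, [(nat_lit 12, [(nat_lit 1, nat_lit 618), (nat_lit 2, nat_lit 382)]), (nat_lit 15, [(nat_lit 1, nat_lit 618), (nat_lit 2, nat_lit 382)])],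
 ⟨p055_k4, nat_lit 0, nat_lit 0, nat_lit 298, nat_lit 0, nat_lit 0, [nat_lit 2981619201, nat_lit 1567142400], [], [nat_lit 26316157406, nat_lit 28204891400, nat_lit 32084819955, nat_lit 33025846846, nat_lit 24770659342, nat_lit 26384952766, nat_lit 29734582440, nat_lit 30747804530], nat_lit 0, nat_lit 0, nat_lit 0, nat_lit 0, nat_lit 0, nat_lit 0, [], [nat_lit 82, nat_lit 40, nat_lit 40, nat_lit 80, nat_lit 63, nat_lit 373, nat_lit 150, nat_lit 11]⟩, C1.Rw.none,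
 ⟨nat_lit 4472, nat_lit 5478, ⟨.ofNat (nat_lit 155307), .ofNat (nat_lit 866988), .ofNat (nat_lit 198021), .ofNat (nat_lit 909625), .ofNat (nat_lit 187299), .ofNat (nat_lit 832909), .ofNat (nat_lit 230432), .ofNat (nat_lit 875965)⟩, ⟨.negSucc (nat_lit 2834), .ofNat (nat_lit 296923), .ofNat (nat_lit 0), .ofNat (nat_lit 339637), .ofNat (nat_lit 0), .ofNat (nat_lit 302621), .ofNat (nat_lit 0), .ofNat (nat_lit 345754)⟩⟩, [⟨nat_lit 13, nat_lit 87, nat_lit 41, nat_lit 100, nat_lit 119839568⟩]⟩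
noncomputable def p055_l60 : Lf2 := ⟨nat_lit 0, nat_lit 10, [nat_lit 0, nat_lit 5, nat_lit 5, nat_lit 20], true, nat_lit 160, nat_lit 336, nat_lit 0, nat_lit 384, ⟨nat_lit 0, nat_lit 1000, nat_lit 0, nat_lit 5, nat_lit 157, nat_lit 1000, nat_lit 191, nat_lit 0, nat_lit 0, nat_lit 0, nat_lit 0, nat_lit 0, nat_lit 0, nat_lit 0, nat_lit 0, nat_lit 5000000, false, false⟩,
 nat_lit 0, nat_lit 0, nat_lit 0, nat_lit 7247, nat_lit 4973, nat_lit 0, nat_lit 0, nat_lit 0, nat_lit 0, nat_lit 0, nat_lit 0, nat_lit 0, nat_lit 0, nat_lit 0, nat_lit 0, nat_lit 814000, nat_lit 0, nat_lit 0, [(nat_lit 12, [(nat_lit 1, nat_lit 310), (nat_lit 2, nat_lit 690)]), (nat_lit 15, [(nat_lit 1, nat_lit 310), (nat_lit 2, nat_lit 690)])],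
 ⟨p055_k4, nat_lit 0, nat_lit 0, nat_lit 172, nat_lit 0, nat_lit 0, [nat_lit 3272864001, nat_lit 644128000], [], [nat_lit 19306690908, nat_lit 21883277780, nat_lit 20423249473, nat_lit 22304886861, nat_lit 26487709285, nat_lit 28674821103, nat_lit 25598322092, nat_lit 27312651502], nat_lit 0, nat_lit 0, nat_lit 0, nat_lit 0, nat_lit 0, nat_lit 0, [], [nat_lit 82, nat_lit 40, nat_lit 40, nat_lit 80, nat_lit 63, nat_lit 373, nat_lit 150, nat_lit 11]⟩, C1.Rw.none,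
 ⟨nat_lit 4472, nat_lit 5478, ⟨.ofNat (nat_lit 155307), .ofNat (nat_lit 574895), .ofNat (nat_lit 198021), .ofNat (nat_lit 617523), .ofNat (nat_lit 187299), .ofNat (nat_lit 567940), .ofNat (nat_lit 230432), .ofNat (nat_lit 610987)⟩, ⟨.ofNat (nat_lit 296923), .ofNat (nat_lit 626629), .ofNat (nat_lit 339637), .ofNat (nat_lit 669343), .ofNat (nat_lit 302621), .ofNat (nat_lit 601725), .ofNat (nat_lit 345754), .ofNat (nat_lit 644858)⟩⟩, [⟨nat_lit 4, nat_lit 100, nat_lit 100, nat_lit 100, nat_lit 227945843⟩]⟩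
noncomputable def p055_l61 : Lf2 := ⟨nat_lit 0, nat_lit 10, [nat_lit 0, nat_lit 5, nat_lit 5, nat_lit 20], true, nat_lit 160, nat_lit 336, nat_lit 0, nat_lit 384, ⟨nat_lit 0, nat_lit 1000, nat_lit 0, nat_lit 6, nat_lit 266, nat_lit 1000, nat_lit 191, nat_lit 0, nat_lit 0, nat_lit 0, nat_lit 0, nat_lit 0, nat_lit 0, nat_lit 0, nat_lit 0, nat_lit 5000000, true, true⟩,
 nat_lit 0, nat_lit 0, nat_lit 0, nat_lit 6340, nat_lit 3409, nat_lit 0, nat_lit 0, nat_lit 0, nat_lit 0, nat_lit 0, nat_lit 0, nat_lit 0, nat_lit 0, nat_lit 0, nat_lit 0, nat_lit 694600, nat_lit 0, nat_lit 0, [(nat_lit 12, [(nat_lit 1, nat_lit 509), (nat_lit 2, nat_lit 491)]), (nat_lit 15, [(nat_lit 1, nat_lit 509), (nat_lit 2, nat_lit 491)])],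
 ⟨p055_k2, nat_lit 0, nat_lit 0, nat_lit 56, nat_lit 0, nat_lit 0, [nat_lit 2013543960, nat_lit 2666557600, nat_lit 1197573600], [], [nat_lit 17556773896, nat_lit 19945517800, nat_lit 21710320260, nat_lit 23683450488, nat_lit 24633469819, nat_lit 26284732546, nat_lit 27487904968, nat_lit 28873671651], nat_lit 0, nat_lit 0, nat_lit 0, nat_lit 0, nat_lit 0, nat_lit 0, [], [nat_lit 42, nat_lit 40, nat_lit 40, nat_lit 80, nat_lit 13, nat_lit 401, nat_lit 175, nat_lit 11]⟩, C1.Rw.none,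
 ⟨nat_lit 4472, nat_lit 5478, ⟨.ofNat (nat_lit 574895), .ofNat (nat_lit 724687), .ofNat (nat_lit 617523), .ofNat (nat_lit 767319), .ofNat (nat_lit 567940), .ofNat (nat_lit 703822), .ofNat (nat_lit 610987), .ofNat (nat_lit 746873)⟩, ⟨.ofNat (nat_lit 296923), .ofNat (nat_lit 626629), .ofNat (nat_lit 339637), .ofNat (nat_lit 669343), .ofNat (nat_lit 302621), .ofNat (nat_lit 601725), .ofNat (nat_lit 345754), .ofNat (nat_lit 644858)⟩⟩, [⟨nat_lit 16, nat_lit 100, nat_lit 80, nat_lit 100, nat_lit 239477893⟩]⟩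
noncomputable def p055_l62 : Lf2 := ⟨nat_lit 0, nat_lit 10, [nat_lit 0, nat_lit 5, nat_lit 5, nat_lit 20], true, nat_lit 160, nat_lit 336, nat_lit 16, nat_lit 384, ⟨nat_lit 0, nat_lit 1000, nat_lit 0, nat_lit 8, nat_lit 321, nat_lit 1000, nat_lit 191, nat_lit 0, nat_lit 0, nat_lit 0, nat_lit 0, nat_lit 0, nat_lit 0, nat_lit 0, nat_lit 0, nat_lit 5000000, true, true⟩,
 nat_lit 0, nat_lit 0, nat_lit 0, nat_lit 6838, nat_lit 3728, nat_lit 0, nat_lit 0, nat_lit 0, nat_lit 0, nat_lit 0, nat_lit 0, nat_lit 0, nat_lit 0, nat_lit 0, nat_lit 0, nat_lit 760000, nat_lit 0, nat_lit 0, [(nat_lit 12, [(nat_lit 1, nat_lit 400), (nat_lit 2, nat_lit 600)]), (nat_lit 15, [(nat_lit 1, nat_lit 400), (nat_lit 2, nat_lit 600)])],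
 ⟨p055_k2, nat_lit 0, nat_lit 0, nat_lit 76, nat_lit 0, nat_lit 0, [nat_lit 2009136000, nat_lit 2654960001, nat_lit 878160000], [], [nat_lit 23315437217, nat_lit 25069438785, nat_lit 27407795755, nat_lit 28820887611, nat_lit 28433056968, nat_lit 29669466325, nat_lit 31475611385, nat_lit 32560557915], nat_lit 0, nat_lit 0, nat_lit 0, nat_lit 0, nat_lit 0, nat_lit 0, [], [nat_lit 42, nat_lit 40, nat_lit 40, nat_lit 80, nat_lit 13, nat_lit 317, nat_lit 100, nat_lit 8]⟩, C1.Rw.none,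
 ⟨nat_lit 4472, nat_lit 5478, ⟨.ofNat (nat_lit 724687), .ofNat (nat_lit 866988), .ofNat (nat_lit 767319), .ofNat (nat_lit 909625), .ofNat (nat_lit 703822), .ofNat (nat_lit 832909), .ofNat (nat_lit 746873), .ofNat (nat_lit 875965)⟩, ⟨.ofNat (nat_lit 296923), .ofNat (nat_lit 626629), .ofNat (nat_lit 339637), .ofNat (nat_lit 669343), .ofNat (nat_lit 302621), .ofNat (nat_lit 601725), .ofNat (nat_lit 345754), .ofNat (nat_lit 644858)⟩⟩, [⟨nat_lit 13, nat_lit 94, nat_lit 21, nat_lit 100, nat_lit 302705994⟩, ⟨nat_lit 16, nat_lit 100, nat_lit 80, nat_lit 100, nat_lit 193662287⟩]⟩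
noncomputable def b_V_700_500_20_4 : St := ⟨true, nat_lit 0, nat_lit 2, nat_lit 2, nat_lit 120, nat_lit 280, nat_lit 320, nat_lit 200, nat_lit 240, nat_lit 16, nat_lit 396, nat_lit 80, nat_lit 120, nat_lit 0, nat_lit 336, nat_lit 0, nat_lit 384, nat_lit 0, nat_lit 40, nat_lit 0, nat_lit 0, nat_lit 0, nat_lit 0⟩
theorem d_V_700_500_20_4 (h : EB TB.env) : Dead b_V_700_500_20_4 := chkB_sound0 h (T :=
(.st (nat_lit 1)
(.spl (nat_lit 2) (nat_lit 240)
(.leaf p055_l56)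
(.spl (nat_lit 0) (nat_lit 300)
(.leaf p055_l57)
(.trX (nat_lit 13) (nat_lit 88) (nat_lit 32) (nat_lit 100) (nat_lit 392) (.trX (nat_lit 16) (nat_lit 94) (nat_lit 88) (nat_lit 100) (nat_lit 320) (.leaf p055_l58)))))
(.spl (nat_lit 4) (nat_lit 160)
(.leaf p055_l59)
(.spl (nat_lit 2) (nat_lit 240)
(.leaf p055_l60)
(.spl (nat_lit 2) (nat_lit 320)
(.leaf p055_l61)
(.trZ (nat_lit 9) (nat_lit 100) (nat_lit 82) (nat_lit 44) (nat_lit 16) (.leaf p055_l62))))))) (by decide +kernel)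
noncomputable def p055_l63 : Lf2 := ⟨nat_lit 0, nat_lit 5, [nat_lit 4, nat_lit 5, nat_lit 5, nat_lit 20], true, nat_lit 0, nat_lit 160, nat_lit 0, nat_lit 384, ⟨nat_lit 0, nat_lit 0, nat_lit 1000, nat_lit 5, nat_lit 127, nat_lit 1000, nat_lit 64, nat_lit 1000, nat_lit 38400, nat_lit 263, nat_lit 91267, nat_lit 289, nat_lit 60900133, nat_lit 0, nat_lit 0, nat_lit 1524716, false, false⟩,
 nat_lit 0, nat_lit 4759, nat_lit 0, nat_lit 1835, nat_lit 3028, nat_lit 0, nat_lit 0, nat_lit 0, nat_lit 0, nat_lit 0, nat_lit 0, nat_lit 0, nat_lit 0, nat_lit 0, nat_lit 162, nat_lit 1000000, nat_lit 0, nat_lit 0, [(nat_lit 12, [(nat_lit 6, nat_lit 1000)])],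
 ⟨p055_k22, nat_lit 0, nat_lit 0, nat_lit 331, nat_lit 0, nat_lit 270509, [nat_lit 3085200001, nat_lit 2112400000, nat_lit 400000], [], [nat_lit 15901498926, nat_lit 16124438564, nat_lit 15982650082, nat_lit 16864232570, nat_lit 15787513065, nat_lit 16660540327, nat_lit 19931726945, nat_lit 18542565329], nat_lit 1271250, nat_lit 1271250, nat_lit 88400, nat_lit 1100001, nat_lit 0, nat_lit 1100001, [nat_lit 780000, nat_lit 1435000, nat_lit 1271250], [nat_lit 18, nat_lit 40, nat_lit 40, nat_lit 80, nat_lit 2, nat_lit 317, nat_lit 100, nat_lit 11]⟩, C1.Rw.none,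
 ⟨nat_lit 5000, nat_lit 5478, ⟨.ofNat (nat_lit 155307), .ofNat (nat_lit 425065), .ofNat (nat_lit 198021), .ofNat (nat_lit 467773), .ofNat (nat_lit 171427), .ofNat (nat_lit 428570), .ofNat (nat_lit 214284), .ofNat (nat_lit 471421)⟩, ⟨.negSucc (nat_lit 2832), .ofNat (nat_lit 296923), .ofNat (nat_lit 0), .ofNat (nat_lit 339637), .ofNat (nat_lit 0), .ofNat (nat_lit 299999), .ofNat (nat_lit 0), .ofNat (nat_lit 342856)⟩⟩, [⟨nat_lit 0, nat_lit 100, nat_lit 88, nat_lit 68, nat_lit 53325295⟩]⟩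
noncomputable def p055_l64 : Lf2 := ⟨nat_lit 0, nat_lit 5, [nat_lit 4, nat_lit 5, nat_lit 5, nat_lit 20], false, nat_lit 0, nat_lit 160, nat_lit 0, nat_lit 384, ⟨nat_lit 799, nat_lit 0, nat_lit 201, nat_lit 5, nat_lit 209, nat_lit 201, nat_lit 64, nat_lit 201, nat_lit 38400, nat_lit 263, nat_lit 1350, nat_lit 206, nat_lit 52679751, nat_lit 0, nat_lit 0, nat_lit 2594316, false, false⟩,
 nat_lit 0, nat_lit 9740, nat_lit 0, nat_lit 1524, nat_lit 6198, nat_lit 10183, nat_lit 566, nat_lit 0, nat_lit 0, nat_lit 919, nat_lit 0, nat_lit 0, nat_lit 0, nat_lit 0, nat_lit 0, nat_lit 201000, nat_lit 0, nat_lit 0, [(nat_lit 12, [(nat_lit 6, nat_lit 201)])],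
 ⟨p055_k22, nat_lit 0, nat_lit 0, nat_lit 251, nat_lit 0, nat_lit 270509, [nat_lit 2851699200, nat_lit 4767102400, nat_lit 5585024400], [], [nat_lit 30509337672, nat_lit 27281555628, nat_lit 24941427296, nat_lit 26134788296, nat_lit 19869463120, nat_lit 20901207432, nat_lit 27829464304, nat_lit 24948001708], nat_lit 1271250, nat_lit 1271250, nat_lit 1100001, nat_lit 1785000, nat_lit 0, nat_lit 1100001, [nat_lit 780000, nat_lit 1435000, nat_lit 1271250], [nat_lit 18, nat_lit 40, nat_lit 40, nat_lit 80, nat_lit 2, nat_lit 317, nat_lit 100, nat_lit 10]⟩, ⟨p055_k26, nat_lit 0, nat_lit 0, nat_lit 194, nat_lit 0, nat_lit 0, [nat_lit 4993750000, nat_lit 7863758000, nat_lit 9485728000], [], [nat_lit 20230316504, nat_lit 22467462988, nat_lit 23331319280, nat_lit 25034746548, nat_lit 24806297883, nat_lit 25399300174, nat_lit 25579729021, nat_lit 26556325342], nat_lit 0, nat_lit 0, nat_lit 0, nat_lit 0, nat_lit 0, nat_lit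 0, [], [nat_lit 46, nat_lit 40, nat_lit 40, nat_lit 80, nat_lit 41, nat_lit 456, nat_lit 225, nat_lit 12]⟩,
 ⟨nat_lit 5000, nat_lit 5478, ⟨.ofNat (nat_lit 425065), .ofNat (nat_lit 574920), .ofNat (nat_lit 467773), .ofNat (nat_lit 617614), .ofNat (nat_lit 428570), .ofNat (nat_lit 571415), .ofNat (nat_lit 471421), .ofNat (nat_lit 614253)⟩, ⟨.negSucc (nat_lit 2832), .ofNat (nat_lit 296923), .ofNat (nat_lit 0), .ofNat (nat_lit 339637), .ofNat (nat_lit 0), .ofNat (nat_lit 299999), .ofNat (nat_lit 0), .ofNat (nat_lit 342856)⟩⟩, [⟨nat_lit 19, nat_lit 100, nat_lit 59, nat_lit 87, nat_lit 85035049⟩, ⟨nat_lit 22, nat_lit 100, nat_lit 60, nat_lit 80, nat_lit 156105271⟩]⟩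
noncomputable def p055_l65 : Lf2 := ⟨nat_lit 0, nat_lit 5, [nat_lit 4, nat_lit 5, nat_lit 5, nat_lit 20], true, nat_lit 160, nat_lit 240, nat_lit 0, nat_lit 384, ⟨nat_lit 0, nat_lit 0, nat_lit 1000, nat_lit 5, nat_lit 111, nat_lit 1000, nat_lit 157, nat_lit 1000, nat_lit 50417, nat_lit 270, nat_lit 114817, nat_lit 298, nat_lit 52512810, nat_lit 0, nat_lit 0, nat_lit 3538340, false, false⟩,
 nat_lit 0, nat_lit 5516, nat_lit 0, nat_lit 0, nat_lit 3510, nat_lit 0, nat_lit 0, nat_lit 0, nat_lit 0, nat_lit 0, nat_lit 0, nat_lit 0, nat_lit 0, nat_lit 0, nat_lit 96, nat_lit 557200, nat_lit 0, nat_lit 0, [(nat_lit 12, [(nat_lit 5, nat_lit 738), (nat_lit 6, nat_lit 262)])],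
 ⟨p055_k27, nat_lit 0, nat_lit 0, nat_lit 174, nat_lit 0, nat_lit 164668, [nat_lit 2583053201, nat_lit 398745199], [], [nat_lit 14558111696, nat_lit 15157875473, nat_lit 14220009640, nat_lit 14763799290, nat_lit 17192287072, nat_lit 17711467859, nat_lit 16777542562, nat_lit 17353159952], nat_lit 1271250, nat_lit 1271250, nat_lit 88400, nat_lit 780000, nat_lit 1100001, nat_lit 1785000, [nat_lit 780000, nat_lit 1762500], [nat_lit 74, nat_lit 40, nat_lit 40, nat_lit 80, nat_lit 43, nat_lit 317, nat_lit 100, nat_lit 10]⟩, C1.Rw.none,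
 ⟨nat_lit 5244, nat_lit 5478, ⟨.ofNat (nat_lit 155307), .ofNat (nat_lit 350132), .ofNat (nat_lit 198021), .ofNat (nat_lit 392847), .ofNat (nat_lit 163411), .ofNat (nat_lit 353656), .ofNat (nat_lit 206182), .ofNat (nat_lit 396427)⟩, ⟨.ofNat (nat_lit 296923), .ofNat (nat_lit 446789), .ofNat (nat_lit 339637), .ofNat (nat_lit 489503), .ofNat (nat_lit 298515), .ofNat (nat_lit 444857), .ofNat (nat_lit 341286), .ofNat (nat_lit 487628)⟩⟩, [⟨nat_lit 0, nat_lit 100, nat_lit 91, nat_lit 63, nat_lit 122527583⟩]⟩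
noncomputable def p055_l66 : Lf2 := ⟨nat_lit 0, nat_lit 5, [nat_lit 4, nat_lit 5, nat_lit 5, nat_lit 20], true, nat_lit 160, nat_lit 240, nat_lit 0, nat_lit 384, ⟨nat_lit 0, nat_lit 0, nat_lit 1000, nat_lit 5, nat_lit 115, nat_lit 1000, nat_lit 157, nat_lit 1000, nat_lit 55099, nat_lit 272, nat_lit 123267, nat_lit 301, nat_lit 52246445, nat_lit 0, nat_lit 0, nat_lit 3589280, false, false⟩,
 nat_lit 0, nat_lit 4817, nat_lit 0, nat_lit 0, nat_lit 3199, nat_lit 0, nat_lit 0, nat_lit 0, nat_lit 0, nat_lit 0, nat_lit 0, nat_lit 0, nat_lit 0, nat_lit 0, nat_lit 77, nat_lit 1000000, nat_lit 0, nat_lit 0, [(nat_lit 12, [(nat_lit 6, nat_lit 1000)])],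
 ⟨p055_k28, nat_lit 0, nat_lit 0, nat_lit 174, nat_lit 0, nat_lit 254832, [nat_lit 2065200001, nat_lit 412399999], [], [nat_lit 14326918109, nat_lit 15003571990, nat_lit 14467216282, nat_lit 15106156610, nat_lit 17413670714, nat_lit 18021757349, nat_lit 17350667997, nat_lit 17903772408], nat_lit 1271250, nat_lit 1271250, nat_lit 111251, nat_lit 780000, nat_lit 1100001, nat_lit 1785000, [nat_lit 780000, nat_lit 1435000], [nat_lit 49, nat_lit 40, nat_lit 40, nat_lit 80, nat_lit 16, nat_lit 317, nat_lit 100, nat_lit 12]⟩, C1.Rw.none,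
 ⟨nat_lit 5000, nat_lit 5245, ⟨.ofNat (nat_lit 170728), .ofNat (nat_lit 353656), .ofNat (nat_lit 213499), .ofNat (nat_lit 396427), .ofNat (nat_lit 178570), .ofNat (nat_lit 357141), .ofNat (nat_lit 221427), .ofNat (nat_lit 399998)⟩, ⟨.ofNat (nat_lit 298515), .ofNat (nat_lit 444857), .ofNat (nat_lit 341286), .ofNat (nat_lit 487628), .ofNat (nat_lit 299999), .ofNat (nat_lit 442856), .ofNat (nat_lit 342856), .ofNat (nat_lit 485713)⟩⟩, [⟨nat_lit 0, nat_lit 100, nat_lit 88, nat_lit 68, nat_lit 109641747⟩]⟩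
noncomputable def p055_l67 : Lf2 := ⟨nat_lit 0, nat_lit 5, [nat_lit 4, nat_lit 5, nat_lit 5, nat_lit 20], true, nat_lit 160, nat_lit 240, nat_lit 0, nat_lit 384, ⟨nat_lit 0, nat_lit 100, nat_lit 900, nat_lit 5, nat_lit 194, nat_lit 1000, nat_lit 157, nat_lit 900, nat_lit 50417, nat_lit 270, nat_lit 1350, nat_lit 206, nat_lit 45998660, nat_lit 12217339, nat_lit 8784001, nat_lit 4482052, false, false⟩,
 nat_lit 0, nat_lit 5794, nat_lit 0, nat_lit 0, nat_lit 3686, nat_lit 0, nat_lit 0, nat_lit 0, nat_lit 0, nat_lit 0, nat_lit 0, nat_lit 0, nat_lit 0, nat_lit 0, nat_lit 127, nat_lit 883000, nat_lit 0, nat_lit 0, [(nat_lit 12, [(nat_lit 1, nat_lit 100), (nat_lit 5, nat_lit 95), (nat_lit 6, nat_lit 805)])],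
 ⟨p055_k22, nat_lit 0, nat_lit 0, nat_lit 140, nat_lit 0, nat_lit 270509, [nat_lit 2767382001, nat_lit 1853608667, nat_lit 23700000], [], [nat_lit 20366618290, nat_lit 18475486502, nat_lit 17464974395, nat_lit 18459906499, nat_lit 16747178595, nat_lit 17799951259, nat_lit 22190466852, nat_lit 20585078012], nat_lit 1271250, nat_lit 1271250, nat_lit 780000, nat_lit 1762500, nat_lit 1100001, nat_lit 1785000, [nat_lit 780000, nat_lit 1435000, nat_lit 1271250], [nat_lit 18, nat_lit 40, nat_lit 40, nat_lit 80, nat_lit 2, nat_lit 345, nat_lit 125, nat_lit 11]⟩, C1.Rw.none,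
 ⟨nat_lit 5000, nat_lit 5478, ⟨.ofNat (nat_lit 350132), .ofNat (nat_lit 574920), .ofNat (nat_lit 392847), .ofNat (nat_lit 617614), .ofNat (nat_lit 357141), .ofNat (nat_lit 571415), .ofNat (nat_lit 399998), .ofNat (nat_lit 614253)⟩, ⟨.ofNat (nat_lit 296923), .ofNat (nat_lit 446789), .ofNat (nat_lit 339637), .ofNat (nat_lit 489503), .ofNat (nat_lit 299999), .ofNat (nat_lit 442856), .ofNat (nat_lit 342856), .ofNat (nat_lit 485713)⟩⟩, []⟩
noncomputable def p055_l68 : Lf2 := ⟨nat_lit 0, nat_lit 5, [nat_lit 4, nat_lit 5, nat_lit 5, nat_lit 20], true, nat_lit 240, nat_lit 280, nat_lit 0, nat_lit 288, ⟨nat_lit 0, nat_lit 0, nat_lit 1000, nat_lit 5, nat_lit 83, nat_lit 1000, nat_lit 197, nat_lit 1000, nat_lit 10417, nat_lit 236, nat_lit 64067, nat_lit 277, nat_lit 50642621, nat_lit 0, nat_lit 0, nat_lit 3590800, false, false⟩,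
 nat_lit 0, nat_lit 5325, nat_lit 0, nat_lit 0, nat_lit 3388, nat_lit 0, nat_lit 0, nat_lit 0, nat_lit 0, nat_lit 0, nat_lit 0, nat_lit 0, nat_lit 0, nat_lit 0, nat_lit 127, nat_lit 764200, nat_lit 0, nat_lit 0, [(nat_lit 12, [(nat_lit 5, nat_lit 393), (nat_lit 6, nat_lit 607)])],
 ⟨p055_k13, nat_lit 0, nat_lit 0, nat_lit 172, nat_lit 0, nat_lit 155399, [nat_lit 2563761600, nat_lit 2787372000, nat_lit 132632267], [], [nat_lit 16988490605, nat_lit 18363827676, nat_lit 16427730384, nat_lit 17593232032, nat_lit 19449718752, nat_lit 20826882841, nat_lit 18459653680, nat_lit 19825234400], nat_lit 1271250, nat_lit 1271250, nat_lit 88400, nat_lit 230001, nat_lit 1271250, nat_lit 1271250, [nat_lit 780000, nat_lit 1100000, nat_lit 1785000], [nat_lit 36, nat_lit 40, nat_lit 40, nat_lit 80, nat_lit 7, nat_lit 215, nat_lit 10, nat_lit 6]⟩, C1.Rw.none,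
 ⟨nat_lit 5000, nat_lit 5478, ⟨.ofNat (nat_lit 155307), .ofNat (nat_lit 200266), .ofNat (nat_lit 198021), .ofNat (nat_lit 242980), .ofNat (nat_lit 171427), .ofNat (nat_lit 214284), .ofNat (nat_lit 214284), .ofNat (nat_lit 257141)⟩, ⟨.ofNat (nat_lit 446789), .ofNat (nat_lit 521722), .ofNat (nat_lit 468146), .ofNat (nat_lit 543079), .ofNat (nat_lit 442856), .ofNat (nat_lit 514284), .ofNat (nat_lit 464284), .ofNat (nat_lit 535713)⟩⟩, [⟨nat_lit 0, nat_lit 100, nat_lit 90, nat_lit 54, nat_lit 596390065⟩]⟩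
noncomputable def p055_l69 : Lf2 := ⟨nat_lit 0, nat_lit 5, [nat_lit 4, nat_lit 5, nat_lit 5, nat_lit 20], false, nat_lit 280, nat_lit 320, nat_lit 0, nat_lit 248, ⟨nat_lit 481, nat_lit 0, nat_lit 519, nat_lit 5, nat_lit 83, nat_lit 519, nat_lit 226, nat_lit 519, nat_lit 1855, nat_lit 206, nat_lit 64067, nat_lit 277, nat_lit 47769633, nat_lit 0, nat_lit 0, nat_lit 3855787, false, false⟩,
 nat_lit 0, nat_lit 6981, nat_lit 0, nat_lit 17608, nat_lit 4442, nat_lit 8018, nat_lit 580, nat_lit 0, nat_lit 0, nat_lit 2640, nat_lit 0, nat_lit 0, nat_lit 0, nat_lit 0, nat_lit 0, nat_lit 454200, nat_lit 0, nat_lit 0, [(nat_lit 12, [(nat_lit 5, nat_lit 108), (nat_lit 6, nat_lit 411)])],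
 ⟨p055_k13, nat_lit 0, nat_lit 0, nat_lit 184, nat_lit 0, nat_lit 155399, [nat_lit 2086494000, nat_lit 2665775600, nat_lit 2081200000], [], [nat_lit 21017087487, nat_lit 22274682435, nat_lit 19989842320, nat_lit 21191929456, nat_lit 23601210844, nat_lit 24993616018, nat_lit 22383842832, nat_lit 23577542656], nat_lit 1271250, nat_lit 1271250, nat_lit 88400, nat_lit 230001, nat_lit 1271250, nat_lit 1271250, [nat_lit 780000, nat_lit 1100000, nat_lit 1785000], [nat_lit 36, nat_lit 40, nat_lit 40, nat_lit 80, nat_lit 7, nat_lit 215, nat_lit 10, nat_lit 6]⟩, ⟨p055_k21, nat_lit 0, nat_lit 0, nat_lit 357, nat_lit 0, nat_lit 0, [nat_lit 3006250000, nat_lit 3832608000, nat_lit 5710432000], [], [nat_lit 12467223177, nat_lit 14695010433, nat_lit 9522042700, nat_lit 11390387488, nat_lit 7807976549, nat_lit 10274107389, nat_lit 5520155640, nat_lit 7394750738], nat_lit 0, nat_lit 0, nat_lit 0, nat_lit 0, nat_lit 0, nat_lit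 0, [], [nat_lit 53, nat_lit 40, nat_lit 40, nat_lit 80, nat_lit 14, nat_lit 373, nat_lit 150, nat_lit 10]⟩,
 ⟨nat_lit 5000, nat_lit 5478, ⟨.ofNat (nat_lit 155307), .ofNat (nat_lit 200266), .ofNat (nat_lit 198021), .ofNat (nat_lit 242980), .ofNat (nat_lit 171427), .ofNat (nat_lit 214284), .ofNat (nat_lit 214284), .ofNat (nat_lit 257141)⟩, ⟨.ofNat (nat_lit 521722), .ofNat (nat_lit 596655), .ofNat (nat_lit 543079), .ofNat (nat_lit 618012), .ofNat (nat_lit 514284), .ofNat (nat_lit 585713), .ofNat (nat_lit 535713), .ofNat (nat_lit 607141)⟩⟩, [⟨nat_lit 0, nat_lit 100, nat_lit 90, nat_lit 54, nat_lit 1517527625⟩, ⟨nat_lit 4, nat_lit 97, nat_lit 100, nat_lit 94, nat_lit 460785150⟩]⟩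
noncomputable def p055_l70 : Lf2 := ⟨nat_lit 0, nat_lit 2, [nat_lit 10, nat_lit 5, nat_lit 5, nat_lit 20], true, nat_lit 240, nat_lit 320, nat_lit 0, nat_lit 336, ⟨nat_lit 0, nat_lit 1000, nat_lit 0, nat_lit 5, nat_lit 105, nat_lit 1000, nat_lit 212, nat_lit 0, nat_lit 0, nat_lit 0, nat_lit 0, nat_lit 0, nat_lit 47853127, nat_lit 4784960, nat_lit 14361913, nat_lit 4032822, false, false⟩,
 nat_lit 0, nat_lit 6678, nat_lit 0, nat_lit 806, nat_lit 4249, nat_lit 0, nat_lit 274, nat_lit 0, nat_lit 0, nat_lit 0, nat_lit 0, nat_lit 0, nat_lit 0, nat_lit 0, nat_lit 0, nat_lit 1000000, nat_lit 0, nat_lit 0, [(nat_lit 12, [(nat_lit 2, nat_lit 1000)])],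
 ⟨p055_k14, nat_lit 0, nat_lit 0, nat_lit 119, nat_lit 0, nat_lit 91363, [nat_lit 1992960000, nat_lit 2327840000, nat_lit 1636000000], [], [nat_lit 17630709836, nat_lit 18234186581, nat_lit 17301279456, nat_lit 17913785535, nat_lit 22076305504, nat_lit 22661085968, nat_lit 21594969036, nat_lit 22105933579], nat_lit 1271250, nat_lit 1271250, nat_lit 230001, nat_lit 490000, nat_lit 1271250, nat_lit 1271250, [nat_lit 780000, nat_lit 1100000, nat_lit 1442500], [nat_lit 59, nat_lit 40, nat_lit 40, nat_lit 80, nat_lit 3, nat_lit 226, nat_lit 20, nat_lit 8]⟩, C1.Rw.none,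
 ⟨nat_lit 5244, nat_lit 5478, ⟨.ofNat (nat_lit 200266), .ofNat (nat_lit 275199), .ofNat (nat_lit 242980), .ofNat (nat_lit 317913), .ofNat (nat_lit 207314), .ofNat (nat_lit 280485), .ofNat (nat_lit 250085), .ofNat (nat_lit 323256)⟩, ⟨.ofNat (nat_lit 446789), .ofNat (nat_lit 596655), .ofNat (nat_lit 468146), .ofNat (nat_lit 618012), .ofNat (nat_lit 444857), .ofNat (nat_lit 591199), .ofNat (nat_lit 466242), .ofNat (nat_lit 612585)⟩⟩, [⟨nat_lit 0, nat_lit 100, nat_lit 91, nat_lit 63, nat_lit 107978547⟩, ⟨nat_lit 16, nat_lit 100, nat_lit 88, nat_lit 94, nat_lit 217475208⟩, ⟨nat_lit 4, nat_lit 94, nat_lit 100, nat_lit 92, nat_lit 10486281⟩]⟩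
noncomputable def p055_l71 : Lf2 := ⟨nat_lit 0, nat_lit 2, [nat_lit 10, nat_lit 5, nat_lit 5, nat_lit 20], true, nat_lit 240, nat_lit 312, nat_lit 0, nat_lit 336, ⟨nat_lit 0, nat_lit 1000, nat_lit 0, nat_lit 5, nat_lit 107, nat_lit 1000, nat_lit 208, nat_lit 0, nat_lit 0, nat_lit 0, nat_lit 0, nat_lit 0, nat_lit 48112612, nat_lit 4968389, nat_lit 13918999, nat_lit 4026567, false, false⟩,
 nat_lit 0, nat_lit 6210, nat_lit 0, nat_lit 0, nat_lit 4123, nat_lit 0, nat_lit 768, nat_lit 0, nat_lit 0, nat_lit 0, nat_lit 0, nat_lit 0, nat_lit 0, nat_lit 0, nat_lit 0, nat_lit 400000, nat_lit 0, nat_lit 0, [(nat_lit 12, [(nat_lit 1, nat_lit 1000)])],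
 ⟨p055_k15, nat_lit 0, nat_lit 0, nat_lit 135, nat_lit 0, nat_lit 142571, [nat_lit 2033400000, nat_lit 2439600000, nat_lit 2628400000], [], [nat_lit 18281878787, nat_lit 18876849902, nat_lit 17962006593, nat_lit 18539887954, nat_lit 22077687026, nat_lit 22647525075, nat_lit 21651044475, nat_lit 22166487041], nat_lit 1271250, nat_lit 1271250, nat_lit 230001, nat_lit 490000, nat_lit 1271250, nat_lit 1271250, [nat_lit 780000, nat_lit 1100000, nat_lit 1442500], [nat_lit 59, nat_lit 40, nat_lit 40, nat_lit 80, nat_lit 3, nat_lit 226, nat_lit 20, nat_lit 8]⟩, C1.Rw.none,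
 ⟨nat_lit 5000, nat_lit 5245, ⟨.ofNat (nat_lit 207314), .ofNat (nat_lit 280485), .ofNat (nat_lit 250085), .ofNat (nat_lit 323256), .ofNat (nat_lit 214284), .ofNat (nat_lit 285713), .ofNat (nat_lit 257141), .ofNat (nat_lit 328570)⟩, ⟨.ofNat (nat_lit 444857), .ofNat (nat_lit 576565), .ofNat (nat_lit 466242), .ofNat (nat_lit 597950), .ofNat (nat_lit 442856), .ofNat (nat_lit 571427), .ofNat (nat_lit 464284), .ofNat (nat_lit 592856)⟩⟩, [⟨nat_lit 0, nat_lit 100, nat_lit 88, nat_lit 68, nat_lit 153804218⟩, ⟨nat_lit 16, nat_lit 100, nat_lit 94, nat_lit 97, nat_lit 208027923⟩]⟩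
noncomputable def p055_l72 : Lf2 := ⟨nat_lit 0, nat_lit 5, [nat_lit 4, nat_lit 5, nat_lit 5, nat_lit 20], true, nat_lit 240, nat_lit 320, nat_lit 0, nat_lit 336, ⟨nat_lit 0, nat_lit 386, nat_lit 614, nat_lit 5, nat_lit 106, nat_lit 1000, nat_lit 211, nat_lit 614, nat_lit 1855, nat_lit 206, nat_lit 106667, nat_lit 295, nat_lit 47848808, nat_lit 4870791, nat_lit 14280401, nat_lit 4042164, false, false⟩,
 nat_lit 0, nat_lit 5505, nat_lit 0, nat_lit 4692, nat_lit 3503, nat_lit 0, nat_lit 0, nat_lit 0, nat_lit 0, nat_lit 0, nat_lit 0, nat_lit 0, nat_lit 0, nat_lit 0, nat_lit 43, nat_lit 673600, nat_lit 0, nat_lit 0, [(nat_lit 12, [(nat_lit 1, nat_lit 386), (nat_lit 5, nat_lit 158), (nat_lit 6, nat_lit 456)])],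
 ⟨p055_k13, nat_lit 0, nat_lit 0, nat_lit 139, nat_lit 0, nat_lit 69455, [nat_lit 1911716400, nat_lit 2161998400, nat_lit 114432534], [], [nat_lit 17546597458, nat_lit 18571497006, nat_lit 17360026634, nat_lit 18349655994, nat_lit 21437410156, nat_lit 22416857166, nat_lit 21183834692, nat_lit 22129362934], nat_lit 1271250, nat_lit 1271250, nat_lit 230001, nat_lit 490000, nat_lit 1271250, nat_lit 1271250, [nat_lit 780000, nat_lit 1100000, nat_lit 1785000], [nat_lit 36, nat_lit 40, nat_lit 40, nat_lit 80, nat_lit 7, nat_lit 226, nat_lit 20, nat_lit 7]⟩, C1.Rw.none,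
 ⟨nat_lit 5000, nat_lit 5478, ⟨.ofNat (nat_lit 200266), .ofNat (nat_lit 275199), .ofNat (nat_lit 242980), .ofNat (nat_lit 317913), .ofNat (nat_lit 214284), .ofNat (nat_lit 285713), .ofNat (nat_lit 257141), .ofNat (nat_lit 328570)⟩, ⟨.ofNat (nat_lit 446789), .ofNat (nat_lit 596655), .ofNat (nat_lit 468146), .ofNat (nat_lit 618012), .ofNat (nat_lit 442856), .ofNat (nat_lit 585713), .ofNat (nat_lit 464284), .ofNat (nat_lit 607141)⟩⟩, [⟨nat_lit 0, nat_lit 100, nat_lit 88, nat_lit 68, nat_lit 134283422⟩, ⟨nat_lit 4, nat_lit 97, nat_lit 100, nat_lit 94, nat_lit 244151815⟩]⟩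
noncomputable def p055_l73 : Lf2 := ⟨nat_lit 0, nat_lit 3, [nat_lit 45, nat_lit 5, nat_lit 5, nat_lit 20], true, nat_lit 240, nat_lit 336, nat_lit 0, nat_lit 288, ⟨nat_lit 0, nat_lit 973, nat_lit 27, nat_lit 5, nat_lit 78, nat_lit 1000, nat_lit 226, nat_lit 27, nat_lit 67422, nat_lit 200, nat_lit 58017, nat_lit 274, nat_lit 48014595, nat_lit 3076130, nat_lit 15909275, nat_lit 3796088, false, false⟩,
 nat_lit 0, nat_lit 6736, nat_lit 0, nat_lit 7588, nat_lit 4286, nat_lit 0, nat_lit 0, nat_lit 0, nat_lit 0, nat_lit 0, nat_lit 0, nat_lit 0, nat_lit 0, nat_lit 0, nat_lit 0, nat_lit 1000000, nat_lit 0, nat_lit 0, [(nat_lit 12, [(nat_lit 2, nat_lit 973), (nat_lit 6, nat_lit 27)])],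
 ⟨p055_k29, nat_lit 0, nat_lit 0, nat_lit 129, nat_lit 0, nat_lit 28973, [nat_lit 2302962001, nat_lit 1863401999], [], [nat_lit 19371839980, nat_lit 20599751009, nat_lit 18567877904, nat_lit 19779826764, nat_lit 24757313805, nat_lit 26054904535, nat_lit 23737233546, nat_lit 24687112564], nat_lit 1271250, nat_lit 1271250, nat_lit 88400, nat_lit 230001, nat_lit 1271250, nat_lit 1271250, [nat_lit 780000, nat_lit 1435000], [nat_lit 49, nat_lit 40, nat_lit 40, nat_lit 80, nat_lit 16, nat_lit 215, nat_lit 10, nat_lit 7]⟩, C1.Rw.none,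
 ⟨nat_lit 5000, nat_lit 5478, ⟨.ofNat (nat_lit 155307), .ofNat (nat_lit 200266), .ofNat (nat_lit 176664), .ofNat (nat_lit 221623), .ofNat (nat_lit 171427), .ofNat (nat_lit 214284), .ofNat (nat_lit 192856), .ofNat (nat_lit 235713)⟩, ⟨.ofNat (nat_lit 468146), .ofNat (nat_lit 647986), .ofNat (nat_lit 489503), .ofNat (nat_lit 669336), .ofNat (nat_lit 464284), .ofNat (nat_lit 635713), .ofNat (nat_lit 485713), .ofNat (nat_lit 657134)⟩⟩, [⟨nat_lit 0, nat_lit 100, nat_lit 87, nat_lit 59, nat_lit 400472295⟩, ⟨nat_lit 4, nat_lit 90, nat_lit 100, nat_lit 100, nat_lit 194825152⟩]⟩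
noncomputable def p055_l74 : Lf2 := ⟨nat_lit 0, nat_lit 3, [nat_lit 45, nat_lit 5, nat_lit 5, nat_lit 20], false, nat_lit 240, nat_lit 336, nat_lit 0, nat_lit 288, ⟨nat_lit 417, nat_lit 583, nat_lit 0, nat_lit 5, nat_lit 90, nat_lit 583, nat_lit 226, nat_lit 0, nat_lit 0, nat_lit 0, nat_lit 0, nat_lit 0, nat_lit 47406356, nat_lit 3768056, nat_lit 15825588, nat_lit 3949949, false, false⟩,
 nat_lit 0, nat_lit 7537, nat_lit 0, nat_lit 17229, nat_lit 4796, nat_lit 4369, nat_lit 843, nat_lit 0, nat_lit 0, nat_lit 2662, nat_lit 0, nat_lit 0, nat_lit 0, nat_lit 0, nat_lit 0, nat_lit 583000, nat_lit 0, nat_lit 0, [(nat_lit 12, [(nat_lit 2, nat_lit 583)])],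
 ⟨p055_k30, nat_lit 0, nat_lit 0, nat_lit 144, nat_lit 0, nat_lit 89681, [nat_lit 2530489680, nat_lit 3312026720, nat_lit 3560038000], [], [nat_lit 18919792179, nat_lit 20254357956, nat_lit 18293083974, nat_lit 19616282544, nat_lit 25075086897, nat_lit 26442894568, nat_lit 24222489181, nat_lit 25400388197], nat_lit 1271250, nat_lit 1271250, nat_lit 134400, nat_lit 230001, nat_lit 1271250, nat_lit 1271250, [nat_lit 780000, nat_lit 1100000, nat_lit 1442500], [nat_lit 59, nat_lit 40, nat_lit 40, nat_lit 80, nat_lit 3, nat_lit 215, nat_lit 10, nat_lit 7]⟩, ⟨p055_k31, nat_lit 0, nat_lit 0, nat_lit 220, nat_lit 0, nat_lit 0, [nat_lit 2606250000, nat_lit 3322656000, nat_lit 4104114000], [], [nat_lit 7250752340, nat_lit 8287443699, nat_lit 6458264382, nat_lit 7178659880, nat_lit 8767176520, nat_lit 9483461176, nat_lit 7741215128, nat_lit 8460315453], nat_lit 0, nat_lit 0, nat_lit 0, nat_lit 0, nat_lit 0, nat_lit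 0, [], [nat_lit 25, nat_lit 40, nat_lit 40, nat_lit 80, nat_lit 17, nat_lit 373, nat_lit 150, nat_lit 11]⟩,
 ⟨nat_lit 5000, nat_lit 5478, ⟨.ofNat (nat_lit 191650), .ofNat (nat_lit 221623), .ofNat (nat_lit 213007), .ofNat (nat_lit 242980), .ofNat (nat_lit 207141), .ofNat (nat_lit 235713), .ofNat (nat_lit 228570), .ofNat (nat_lit 257141)⟩, ⟨.ofNat (nat_lit 468146), .ofNat (nat_lit 647986), .ofNat (nat_lit 489503), .ofNat (nat_lit 669336), .ofNat (nat_lit 464284), .ofNat (nat_lit 635713), .ofNat (nat_lit 485713), .ofNat (nat_lit 657134)⟩⟩, [⟨nat_lit 0, nat_lit 100, nat_lit 90, nat_lit 59, nat_lit 1551090750⟩, ⟨nat_lit 16, nat_lit 100, nat_lit 90, nat_lit 100, nat_lit 261369479⟩, ⟨nat_lit 23, nat_lit 90, nat_lit 100, nat_lit 55, nat_lit 194634494⟩]⟩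
noncomputable def p055_l75 : Lf2 := ⟨nat_lit 0, nat_lit 3, [nat_lit 45, nat_lit 5, nat_lit 5, nat_lit 20], false, nat_lit 240, nat_lit 336, nat_lit 0, nat_lit 160, ⟨nat_lit 1000, nat_lit 0, nat_lit 0, nat_lit 0, nat_lit 0, nat_lit 0, nat_lit 0, nat_lit 0, nat_lit 0, nat_lit 0, nat_lit 0, nat_lit 0, nat_lit 0, nat_lit 0, nat_lit 0, nat_lit 0, false, false⟩,
 nat_lit 0, nat_lit 9203, nat_lit 0, nat_lit 28180, nat_lit 5856, nat_lit 11860, nat_lit 1617, nat_lit 0, nat_lit 0, nat_lit 4714, nat_lit 0, nat_lit 0, nat_lit 0, nat_lit 0, nat_lit 0, nat_lit 0, nat_lit 0, nat_lit 0, [],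
 ⟨p055_k30, nat_lit 0, nat_lit 0, nat_lit 131, nat_lit 0, nat_lit 89681, [nat_lit 3282000000, nat_lit 4688000000, nat_lit 6250000000], [], [nat_lit 18796407634, nat_lit 20220322194, nat_lit 18061016914, nat_lit 19462542688, nat_lit 25585259949, nat_lit 26884675633, nat_lit 24424831335, nat_lit 25679073428], nat_lit 1271250, nat_lit 1271250, nat_lit 230001, nat_lit 490000, nat_lit 1271250, nat_lit 1271250, [nat_lit 780000, nat_lit 1100000, nat_lit 1442500], [nat_lit 59, nat_lit 40, nat_lit 40, nat_lit 80, nat_lit 3, nat_lit 226, nat_lit 20, nat_lit 8]⟩, ⟨p055_k32, nat_lit 0, nat_lit 0, nat_lit 192, nat_lit 0, nat_lit 0, [nat_lit 6250000000, nat_lit 7968000000, nat_lit 9842000000], [], [nat_lit 17404501990, nat_lit 21491118080, nat_lit 15078132480, nat_lit 18444338560, nat_lit 10620355760, nat_lit 13465371200, nat_lit 8656245600, nat_lit 11368598800], nat_lit 0, nat_lit 0, nat_lit 0, nat_lit 0, nat_lit 0, nat_lit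 0, [], [nat_lit 25, nat_lit 40, nat_lit 40, nat_lit 80, nat_lit 17, nat_lit 345, nat_lit 125, nat_lit 10]⟩,
 zbF0, [⟨nat_lit 0, nat_lit 100, nat_lit 88, nat_lit 68, nat_lit 1250061130⟩, ⟨nat_lit 4, nat_lit 90, nat_lit 100, nat_lit 100, nat_lit 595054335⟩]⟩
noncomputable def p055_l76 : Lf2 := ⟨nat_lit 0, nat_lit 3, [nat_lit 45, nat_lit 5, nat_lit 5, nat_lit 20], false, nat_lit 240, nat_lit 336, nat_lit 160, nat_lit 336, ⟨nat_lit 1000, nat_lit 0, nat_lit 0, nat_lit 0, nat_lit 0, nat_lit 0, nat_lit 0, nat_lit 0, nat_lit 0, nat_lit 0, nat_lit 0, nat_lit 0, nat_lit 0, nat_lit 0, nat_lit 0, nat_lit 0, false, false⟩,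
 nat_lit 0, nat_lit 10799, nat_lit 0, nat_lit 179, nat_lit 6872, nat_lit 8783, nat_lit 1682, nat_lit 0, nat_lit 0, nat_lit 0, nat_lit 0, nat_lit 0, nat_lit 0, nat_lit 0, nat_lit 0, nat_lit 0, nat_lit 0, nat_lit 0, [],
 ⟨p055_k30, nat_lit 0, nat_lit 0, nat_lit 131, nat_lit 0, nat_lit 89681, [nat_lit 3282000000, nat_lit 4688000000, nat_lit 6250000000], [], [nat_lit 17792846596, nat_lit 19547922708, nat_lit 16575673892, nat_lit 18288928912, nat_lit 26648950317, nat_lit 28306603018, nat_lit 24732625280, nat_lit 26338456746], nat_lit 1271250, nat_lit 1271250, nat_lit 230001, nat_lit 490000, nat_lit 1271250, nat_lit 1271250, [nat_lit 780000, nat_lit 1100000, nat_lit 1442500], [nat_lit 59, nat_lit 40, nat_lit 40, nat_lit 80, nat_lit 3, nat_lit 226, nat_lit 20, nat_lit 8]⟩, ⟨p055_k32, nat_lit 0, nat_lit 0, nat_lit 107, nat_lit 0, nat_lit 0, [nat_lit 6250000000, nat_lit 7968000000, nat_lit 9842000000], [], [nat_lit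 7079181232, nat_lit 10723925472, nat_lit 5764061868, nat_lit 9273007808, nat_lit 23422160100, nat_lit 25836949269, nat_lit 21473408527, nat_lit 23315872964], nat_lit 0, nat_lit 0, nat_lit 0, nat_lit 0, nat_lit 0, nat_lit 0, [], [nat_lit 25, nat_lit 40, nat_lit 40, nat_lit 80, nat_lit 17, nat_lit 401, nat_lit 175, nat_lit 12]⟩,
 zbF0, [⟨nat_lit 0, nat_lit 100, nat_lit 88, nat_lit 68, nat_lit 20633426⟩, ⟨nat_lit 11, nat_lit 100, nat_lit 93, nat_lit 66, nat_lit 1002520892⟩, ⟨nat_lit 11, nat_lit 100, nat_lit 100, nat_lit 77, nat_lit 55121438⟩]⟩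
noncomputable def p055_l77 : Lf2 := ⟨nat_lit 1, nat_lit 5, [nat_lit 4, nat_lit 5, nat_lit 5, nat_lit 20], false, nat_lit 240, nat_lit 336, nat_lit 0, nat_lit 336, zbN0,
 nat_lit 0, nat_lit 0, nat_lit 0, nat_lit 0, nat_lit 0, nat_lit 0, nat_lit 0, nat_lit 0, nat_lit 0, nat_lit 0, nat_lit 0, nat_lit 0, nat_lit 0, nat_lit 0, nat_lit 0, nat_lit 0, nat_lit 0, nat_lit 0, [],
 C1.Rw.none, C1.Rw.none,
 zbF0, []⟩
noncomputable def p055_l78 : Lf2 := ⟨nat_lit 0, nat_lit 3, [nat_lit 45, nat_lit 5, nat_lit 5, nat_lit 20], true, nat_lit 240, nat_lit 336, nat_lit 0, nat_lit 364, ⟨nat_lit 0, nat_lit 1000, nat_lit 0, nat_lit 5, nat_lit 134, nat_lit 1000, nat_lit 222, nat_lit 0, nat_lit 0, nat_lit 0, nat_lit 0, nat_lit 0, nat_lit 45100133, nat_lit 6829925, nat_lit 15069942, nat_lit 4465977, false, false⟩,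
 nat_lit 0, nat_lit 6778, nat_lit 0, nat_lit 233, nat_lit 4313, nat_lit 0, nat_lit 256, nat_lit 0, nat_lit 0, nat_lit 0, nat_lit 0, nat_lit 0, nat_lit 0, nat_lit 0, nat_lit 0, nat_lit 1000000, nat_lit 0, nat_lit 0, [(nat_lit 12, [(nat_lit 2, nat_lit 1000)])],
 ⟨p055_k30, nat_lit 0, nat_lit 0, nat_lit 126, nat_lit 0, nat_lit 162512, [nat_lit 1992960000, nat_lit 2327840000, nat_lit 1636000000], [], [nat_lit 17215735772, nat_lit 17800775295, nat_lit 17427740412, nat_lit 18024620407, nat_lit 22574659992, nat_lit 23117210134, nat_lit 22528860232, nat_lit 23029668718], nat_lit 1271250, nat_lit 1271250, nat_lit 490000, nat_lit 780000, nat_lit 1271250, nat_lit 1271250, [nat_lit 780000, nat_lit 1100000, nat_lit 1442500], [nat_lit 59, nat_lit 40, nat_lit 40, nat_lit 80, nat_lit 3, nat_lit 238, nat_lit 30, nat_lit 8]⟩, C1.Rw.none,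
 ⟨nat_lit 5244, nat_lit 5478, ⟨.ofNat (nat_lit 275199), .ofNat (nat_lit 350132), .ofNat (nat_lit 317913), .ofNat (nat_lit 392847), .ofNat (nat_lit 280485), .ofNat (nat_lit 353656), .ofNat (nat_lit 323256), .ofNat (nat_lit 396427)⟩, ⟨.ofNat (nat_lit 446789), .ofNat (nat_lit 626629), .ofNat (nat_lit 489503), .ofNat (nat_lit 669340), .ofNat (nat_lit 444857), .ofNat (nat_lit 620468), .ofNat (nat_lit 487628), .ofNat (nat_lit 663236)⟩⟩, [⟨nat_lit 4, nat_lit 91, nat_lit 100, nat_lit 96, nat_lit 219849765⟩]⟩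
noncomputable def p055_l79 : Lf2 := ⟨nat_lit 1, nat_lit 5, [nat_lit 4, nat_lit 5, nat_lit 5, nat_lit 20], false, nat_lit 240, nat_lit 336, nat_lit 0, nat_lit 364, zbN0,
 nat_lit 0, nat_lit 0, nat_lit 0, nat_lit 0, nat_lit 0, nat_lit 0, nat_lit 0, nat_lit 0, nat_lit 0, nat_lit 0, nat_lit 0, nat_lit 0, nat_lit 0, nat_lit 0, nat_lit 0, nat_lit 0, nat_lit 0, nat_lit 0, [],
 C1.Rw.none, C1.Rw.none,
 zbF0, []⟩
noncomputable def p055_l80 : Lf2 := ⟨nat_lit 0, nat_lit 5, [nat_lit 4, nat_lit 5, nat_lit 5, nat_lit 20], true, nat_lit 240, nat_lit 312, nat_lit 0, nat_lit 364, ⟨nat_lit 0, nat_lit 247, nat_lit 753, nat_lit 5, nat_lit 136, nat_lit 1000, nat_lit 208, nat_lit 753, nat_lit 2384, nat_lit 213, nat_lit 173400, nat_lit 317, nat_lit 46260981, nat_lit 7054167, nat_lit 13684852, nat_lit 4374001, false, false⟩,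
 nat_lit 0, nat_lit 4929, nat_lit 0, nat_lit 0, nat_lit 3273, nat_lit 0, nat_lit 58, nat_lit 0, nat_lit 0, nat_lit 0, nat_lit 0, nat_lit 0, nat_lit 0, nat_lit 0, nat_lit 26, nat_lit 851800, nat_lit 0, nat_lit 0, [(nat_lit 12, [(nat_lit 1, nat_lit 247), (nat_lit 6, nat_lit 753)])],
 ⟨p055_k18, nat_lit 0, nat_lit 0, nat_lit 144, nat_lit 0, nat_lit 246578, [nat_lit 1499178601, nat_lit 1191168800, nat_lit 18932000], [], [nat_lit 17251370346, nat_lit 17804678305, nat_lit 17625782498, nat_lit 18153902893, nat_lit 20652779036, nat_lit 21122997692, nat_lit 20877805087, nat_lit 21327859061], nat_lit 1271250, nat_lit 1271250, nat_lit 490000, nat_lit 780000, nat_lit 1271250, nat_lit 1271250, [nat_lit 780000, nat_lit 1100000, nat_lit 1442500], [nat_lit 59, nat_lit 40, nat_lit 40, nat_lit 80, nat_lit 3, nat_lit 238, nat_lit 30, nat_lit 8]⟩, C1.Rw.none,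
 ⟨nat_lit 5000, nat_lit 5245, ⟨.ofNat (nat_lit 280485), .ofNat (nat_lit 353656), .ofNat (nat_lit 323256), .ofNat (nat_lit 396427), .ofNat (nat_lit 285713), .ofNat (nat_lit 357141), .ofNat (nat_lit 328570), .ofNat (nat_lit 399998)⟩, ⟨.ofNat (nat_lit 444857), .ofNat (nat_lit 576565), .ofNat (nat_lit 466242), .ofNat (nat_lit 597950), .ofNat (nat_lit 442856), .ofNat (nat_lit 571427), .ofNat (nat_lit 464284), .ofNat (nat_lit 592856)⟩⟩, [⟨nat_lit 4, nat_lit 100, nat_lit 100, nat_lit 95, nat_lit 243918150⟩]⟩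
noncomputable def p055_l81 : Lf2 := ⟨nat_lit 0, nat_lit 5, [nat_lit 4, nat_lit 5, nat_lit 5, nat_lit 20], true, nat_lit 240, nat_lit 328, nat_lit 0, nat_lit 364, ⟨nat_lit 0, nat_lit 1000, nat_lit 0, nat_lit 5, nat_lit 136, nat_lit 1000, nat_lit 222, nat_lit 0, nat_lit 0, nat_lit 0, nat_lit 0, nat_lit 0, nat_lit 45008715, nat_lit 6961873, nat_lit 15029412, nat_lit 4483760, false, false⟩,
 nat_lit 0, nat_lit 6321, nat_lit 0, nat_lit 0, nat_lit 4197, nat_lit 0, nat_lit 684, nat_lit 0, nat_lit 0, nat_lit 0, nat_lit 0, nat_lit 0, nat_lit 0, nat_lit 0, nat_lit 0, nat_lit 400000, nat_lit 0, nat_lit 0, [(nat_lit 12, [(nat_lit 1, nat_lit 1000)])],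
 ⟨p055_k18, nat_lit 0, nat_lit 0, nat_lit 119, nat_lit 0, nat_lit 142202, [nat_lit 2033400000, nat_lit 2439600000, nat_lit 2628400000], [], [nat_lit 18011328027, nat_lit 18588751886, nat_lit 18199424188, nat_lit 18749327952, nat_lit 22498053054, nat_lit 23004966356, nat_lit 22520616573, nat_lit 22995298285], nat_lit 1271250, nat_lit 1271250, nat_lit 490000, nat_lit 780000, nat_lit 1271250, nat_lit 1271250, [nat_lit 780000, nat_lit 1100000, nat_lit 1442500], [nat_lit 59, nat_lit 40, nat_lit 40, nat_lit 80, nat_lit 3, nat_lit 238, nat_lit 30, nat_lit 8]⟩, C1.Rw.none,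
 ⟨nat_lit 5000, nat_lit 5245, ⟨.ofNat (nat_lit 280485), .ofNat (nat_lit 353656), .ofNat (nat_lit 323256), .ofNat (nat_lit 396427), .ofNat (nat_lit 285713), .ofNat (nat_lit 357141), .ofNat (nat_lit 328570), .ofNat (nat_lit 399998)⟩, ⟨.ofNat (nat_lit 466242), .ofNat (nat_lit 627219), .ofNat (nat_lit 487628), .ofNat (nat_lit 648604), .ofNat (nat_lit 464284), .ofNat (nat_lit 621427), .ofNat (nat_lit 485713), .ofNat (nat_lit 642856)⟩⟩, [⟨nat_lit 16, nat_lit 99, nat_lit 92, nat_lit 100, nat_lit 196303123⟩]⟩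
noncomputable def p055_l82 : Lf2 := ⟨nat_lit 0, nat_lit 5, [nat_lit 4, nat_lit 5, nat_lit 5, nat_lit 20], false, nat_lit 240, nat_lit 336, nat_lit 0, nat_lit 160, ⟨nat_lit 1000, nat_lit 0, nat_lit 0, nat_lit 0, nat_lit 0, nat_lit 0, nat_lit 0, nat_lit 0, nat_lit 0, nat_lit 0, nat_lit 0, nat_lit 0, nat_lit 0, nat_lit 0, nat_lit 0, nat_lit 0, false, false⟩,
 nat_lit 0, nat_lit 12712, nat_lit 0, nat_lit 0, nat_lit 8089, nat_lit 9453, nat_lit 0, nat_lit 0, nat_lit 0, nat_lit 0, nat_lit 0, nat_lit 0, nat_lit 0, nat_lit 0, nat_lit 0, nat_lit 0, nat_lit 0, nat_lit 0, [],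
 ⟨p055_k27, nat_lit 0, nat_lit 0, nat_lit 160, nat_lit 0, nat_lit 270509, [nat_lit 3282000000, nat_lit 7968000000], [], [nat_lit 21430006360, nat_lit 23033678362, nat_lit 23938703304, nat_lit 25191919318, nat_lit 28086735427, nat_lit 29277408662, nat_lit 29118112860, nat_lit 30046585455], nat_lit 1271250, nat_lit 1271250, nat_lit 780000, nat_lit 1762500, nat_lit 1271250, nat_lit 1271250, [nat_lit 780000, nat_lit 1762500], [nat_lit 74, nat_lit 40, nat_lit 40, nat_lit 80, nat_lit 43, nat_lit 272, nat_lit 60, nat_lit 8]⟩, ⟨p055_k33, nat_lit 0, nat_lit 0, nat_lit 185, nat_lit 0, nat_lit 0, [nat_lit 6250000000, nat_lit 11872000000], [], [nat_lit 30090253320, nat_lit 32045579904, nat_lit 33227647712, nat_lit 35098461108, nat_lit 24172909860, nat_lit 25764120944, nat_lit 26299690928, nat_lit 27404469064], nat_lit 0, nat_lit 0, nat_lit 0, nat_lit 0, nat_lit 0, nat_lit 0, [], [nat_lit 107, nat_lit 40, nat_lit 40,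 nat_lit 80, nat_lit 12, nat_lit 401, nat_lit 175, nat_lit 11]⟩,
 zbF0, [⟨nat_lit 4, nat_lit 94, nat_lit 100, nat_lit 97, nat_lit 590830292⟩]⟩
noncomputable def p055_l83 : Lf2 := ⟨nat_lit 0, nat_lit 5, [nat_lit 4, nat_lit 5, nat_lit 5, nat_lit 20], false, nat_lit 240, nat_lit 336, nat_lit 160, nat_lit 384, ⟨nat_lit 1000, nat_lit 0, nat_lit 0, nat_lit 0, nat_lit 0, nat_lit 0, nat_lit 0, nat_lit 0, nat_lit 0, nat_lit 0, nat_lit 0, nat_lit 0, nat_lit 0, nat_lit 0, nat_lit 0, nat_lit 0, false, false⟩,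
 nat_lit 0, nat_lit 9919, nat_lit 0, nat_lit 0, nat_lit 6312, nat_lit 7795, nat_lit 1811, nat_lit 0, nat_lit 0, nat_lit 0, nat_lit 0, nat_lit 0, nat_lit 0, nat_lit 0, nat_lit 0, nat_lit 0, nat_lit 0, nat_lit 0, [],
 ⟨p055_k13, nat_lit 0, nat_lit 0, nat_lit 167, nat_lit 0, nat_lit 270509, [nat_lit 3282000000, nat_lit 4688000000, nat_lit 7968000000], [], [nat_lit 17197443880, nat_lit 18585000696, nat_lit 20316352224, nat_lit 21617027248, nat_lit 23808530996, nat_lit 25049127120, nat_lit 25789113044, nat_lit 26949318308], nat_lit 1271250, nat_lit 1271250, nat_lit 780000, nat_lit 1762500, nat_lit 1271250, nat_lit 1271250, [nat_lit 780000, nat_lit 1100000, nat_lit 1785000], [nat_lit 36, nat_lit 40, nat_lit 40, nat_lit 80, nat_lit 7, nat_lit 272, nat_lit 60, nat_lit 8]⟩, ⟨p055_k21, nat_lit 0, nat_lit 0, nat_lit 94, nat_lit 0, nat_lit 0, [nat_lit 6250000000, nat_lit 7968000000, nat_lit 11872000000], [], [nat_lit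 7666398460, nat_lit 10750283760, nat_lit 13388378900, nat_lit 15691177100, nat_lit 26604283497, nat_lit 27843466561, nat_lit 28115740785, nat_lit 29264168749], nat_lit 0, nat_lit 0, nat_lit 0, nat_lit 0, nat_lit 0, nat_lit 0, [], [nat_lit 53, nat_lit 40, nat_lit 40, nat_lit 80, nat_lit 14, nat_lit 456, nat_lit 225, nat_lit 11]⟩,
 zbF0, [⟨nat_lit 4, nat_lit 94, nat_lit 100, nat_lit 97, nat_lit 181876756⟩, ⟨nat_lit 23, nat_lit 90, nat_lit 53, nat_lit 100, nat_lit 411374799⟩, ⟨nat_lit 11, nat_lit 75, nat_lit 75, nat_lit 100, nat_lit 253593230⟩]⟩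
noncomputable def p055_l84 : Lf2 := ⟨nat_lit 0, nat_lit 5, [nat_lit 4, nat_lit 5, nat_lit 5, nat_lit 20], false, nat_lit 0, nat_lit 336, nat_lit 0, nat_lit 384, ⟨nat_lit 1000, nat_lit 0, nat_lit 0, nat_lit 0, nat_lit 0, nat_lit 0, nat_lit 0, nat_lit 0, nat_lit 0, nat_lit 0, nat_lit 0, nat_lit 0, nat_lit 0, nat_lit 0, nat_lit 0, nat_lit 0, false, false⟩,
 nat_lit 0, nat_lit 9904, nat_lit 0, nat_lit 9970, nat_lit 6302, nat_lit 7953, nat_lit 1437, nat_lit 0, nat_lit 0, nat_lit 1980, nat_lit 0, nat_lit 0, nat_lit 0, nat_lit 0, nat_lit 0, nat_lit 0, nat_lit 0, nat_lit 0, [],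
 ⟨p055_k13, nat_lit 0, nat_lit 0, nat_lit 257, nat_lit 0, nat_lit 164668, [nat_lit 3282000000, nat_lit 4688000000, nat_lit 7968000000], [], [nat_lit 24345152016, nat_lit 24167025706, nat_lit 36056051255, nat_lit 36667266556, nat_lit 27770438549, nat_lit 26929581069, nat_lit 34334383166, nat_lit 34675194255], nat_lit 1271250, nat_lit 1271250, nat_lit 1271250, nat_lit 1271250, nat_lit 0, nat_lit 2373000, [nat_lit 780000, nat_lit 1100000, nat_lit 1785000], [nat_lit 36, nat_lit 40, nat_lit 40, nat_lit 80, nat_lit 7, nat_lit 317, nat_lit 100, nat_lit 10]⟩, ⟨p055_k21, nat_lit 0, nat_lit 0, nat_lit 254, nat_lit 0, nat_lit 0, [nat_lit 6250000000, nat_lit 7968000000, nat_lit 11872000000], [], [nat_lit 27663282984, nat_lit 28988543256, nat_lit 38846984939, nat_lit 39488675985, nat_lit 30826417078, nat_lit 31260333010, nat_lit 37987667998, nat_lit 38270834041], nat_lit 0, nat_lit 0, nat_lit 0, nat_lit 0, nat_lit 0,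 nat_lit 0, [], [nat_lit 53, nat_lit 40, nat_lit 40, nat_lit 80, nat_lit 14, nat_lit 538, nat_lit 300, nat_lit 14]⟩,
 zbF0, [⟨nat_lit 16, nat_lit 100, nat_lit 91, nat_lit 96, nat_lit 166395189⟩, ⟨nat_lit 7, nat_lit 59, nat_lit 100, nat_lit 87, nat_lit 212902277⟩]⟩
noncomputable def p055_l85 : Lf2 := ⟨nat_lit 0, nat_lit 5, [nat_lit 4, nat_lit 5, nat_lit 5, nat_lit 20], false, nat_lit 0, nat_lit 328, nat_lit 0, nat_lit 384, ⟨nat_lit 1000, nat_lit 0, nat_lit 0, nat_lit 0, nat_lit 0, nat_lit 0, nat_lit 0, nat_lit 0, nat_lit 0, nat_lit 0, nat_lit 0, nat_lit 0, nat_lit 0, nat_lit 0, nat_lit 0, nat_lit 0, false, false⟩,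
 nat_lit 0, nat_lit 9246, nat_lit 0, nat_lit 7295, nat_lit 6140, nat_lit 7754, nat_lit 1164, nat_lit 0, nat_lit 0, nat_lit 1924, nat_lit 0, nat_lit 0, nat_lit 0, nat_lit 0, nat_lit 0, nat_lit 0, nat_lit 0, nat_lit 0, [],
 ⟨p055_k18, nat_lit 0, nat_lit 0, nat_lit 250, nat_lit 0, nat_lit 254832, [nat_lit 3282000000, nat_lit 4688000000, nat_lit 6250000000], [], [nat_lit 23539067660, nat_lit 24091245920, nat_lit 36243405221, nat_lit 36847025833, nat_lit 27030429250, nat_lit 26247381893, nat_lit 34087778656, nat_lit 34436368130], nat_lit 1271250, nat_lit 1271250, nat_lit 1271250, nat_lit 1271250, nat_lit 0, nat_lit 2316500, [nat_lit 780000, nat_lit 1100000, nat_lit 1442500], [nat_lit 59, nat_lit 40, nat_lit 40, nat_lit 80, nat_lit 3, nat_lit 317, nat_lit 100, nat_lit 12]⟩, ⟨p055_k21, nat_lit 0, nat_lit 0, nat_lit 254, nat_lit 0, nat_lit 0, [nat_lit 6250000000, nat_lit 7968000000, nat_lit 11872000000], [], [nat_lit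 28037636012, nat_lit 29354971308, nat_lit 38809783759, nat_lit 39459080187, nat_lit 31088106017, nat_lit 31604100893, nat_lit 37700600580, nat_lit 37998858290], nat_lit 0, nat_lit 0, nat_lit 0, nat_lit 0, nat_lit 0, nat_lit 0, [], [nat_lit 53, nat_lit 40, nat_lit 40, nat_lit 80, nat_lit 14, nat_lit 538, nat_lit 300, nat_lit 14]⟩,
 zbF0, [⟨nat_lit 16, nat_lit 100, nat_lit 97, nat_lit 98, nat_lit 153768741⟩, ⟨nat_lit 19, nat_lit 100, nat_lit 59, nat_lit 87, nat_lit 209302177⟩]⟩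
noncomputable def p055_l86 : Lf2 := ⟨nat_lit 1, nat_lit 10, [nat_lit 0, nat_lit 5, nat_lit 5, nat_lit 20], false, nat_lit 0, nat_lit 336, nat_lit 0, nat_lit 384, zbN0,
 nat_lit 0, nat_lit 0, nat_lit 0, nat_lit 0, nat_lit 0, nat_lit 0, nat_lit 0, nat_lit 0, nat_lit 0, nat_lit 0, nat_lit 0, nat_lit 0, nat_lit 0, nat_lit 0, nat_lit 0, nat_lit 0, nat_lit 0, nat_lit 0, [],
 C1.Rw.none, C1.Rw.none,
 zbF0, []⟩
noncomputable def b_V_700_500_20_5 : St := ⟨true, nat_lit 1, nat_lit 0, nat_lit 1, nat_lit 120, nat_lit 280, nat_lit 300, nat_lit 200, nat_lit 240, nat_lit 16, nat_lit 396, nat_lit 80, nat_lit 120, nat_lit 0, nat_lit 336, nat_lit 0, nat_lit 384, nat_lit 0, nat_lit 40, nat_lit 0, nat_lit 0, nat_lit 0, nat_lit 0⟩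
theorem d_V_700_500_20_5 (h : EB TB.env) : Dead b_V_700_500_20_5 := chkB_sound0 h (T :=
(.spl (nat_lit 6) (nat_lit 20)
(.spl (nat_lit 2) (nat_lit 240)
(.spl (nat_lit 4) (nat_lit 160)
(.spl (nat_lit 2) (nat_lit 160)
(.leaf p055_l63)
(.leaf p055_l64))
(.spl (nat_lit 4) (nat_lit 240)
(.spl (nat_lit 2) (nat_lit 120)
(.spl (nat_lit 0) (nat_lit 290)
(.leaf p055_l65)
(.trZ (nat_lit 0) (nat_lit 100) (nat_lit 89) (nat_lit 45) (nat_lit 20) (.leaf p055_l66)))
(.leaf p055_l67))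
(.spl (nat_lit 2) (nat_lit 120)
(.trX (nat_lit 23) (nat_lit 100) (nat_lit 59) (nat_lit 94) (nat_lit 364) (.spl (nat_lit 2) (nat_lit 80)
(.trX (nat_lit 23) (nat_lit 100) (nat_lit 76) (nat_lit 82) (nat_lit 336) (.spl (nat_lit 3) (nat_lit 100)
(.trX (nat_lit 16) (nat_lit 100) (nat_lit 88) (nat_lit 94) (nat_lit 320) (.spl (nat_lit 2) (nat_lit 40)
(.trX (nat_lit 23) (nat_lit 100) (nat_lit 92) (nat_lit 61) (nat_lit 288) (.spl (nat_lit 4) (nat_lit 280)
(.leaf p055_l68)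
(.trX (nat_lit 23) (nat_lit 94) (nat_lit 100) (nat_lit 62) (nat_lit 248) (.leaf p055_l69))))
(.spl (nat_lit 6) (nat_lit 8)
(.spl (nat_lit 0) (nat_lit 290)
(.leaf p055_l70)
(.trX (nat_lit 16) (nat_lit 100) (nat_lit 94) (nat_lit 97) (nat_lit 312) (.leaf p055_l71)))
(.leaf p055_l72))))
(.spl (nat_lit 6) (nat_lit 12)
(.spl (nat_lit 2) (nat_lit 40)
(.trX (nat_lit 23) (nat_lit 100) (nat_lit 92) (nat_lit 61) (nat_lit 288) (.spl (nat_lit 1) (nat_lit 220)
(.leaf p055_l73)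
(.trZ (nat_lit 0) (nat_lit 100) (nat_lit 92) (nat_lit 49) (nat_lit 24) (.leaf p055_l74))))
(.spl (nat_lit 5) (nat_lit 160)
(.leaf p055_l75)
(.leaf p055_l76)))
(.leaf p055_l77))))
(.spl (nat_lit 0) (nat_lit 290)
(.spl (nat_lit 6) (nat_lit 12)
(.leaf p055_l78)
(.leaf p055_l79))
(.trX (nat_lit 16) (nat_lit 97) (nat_lit 84) (nat_lit 100) (nat_lit 328) (.spl (nat_lit 3) (nat_lit 100)
(.trX (nat_lit 16) (nat_lit 100) (nat_lit 94) (nat_lit 97) (nat_lit 312) (.leaf p055_l80))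
(.leaf p055_l81))))))
(.spl (nat_lit 5) (nat_lit 160)
(.leaf p055_l82)
(.leaf p055_l83)))))
(.spl (nat_lit 0) (nat_lit 290)
(.leaf p055_l84)
(.trX (nat_lit 16) (nat_lit 97) (nat_lit 84) (nat_lit 100) (nat_lit 328) (.leaf p055_l85))))
(.leaf p055_l86))) (by decide +kernel)
noncomputable def p055_l87 : Lf2 := ⟨nat_lit 0, nat_lit 10, [nat_lit 0, nat_lit 5, nat_lit 5, nat_lit 20], true, nat_lit 0, nat_lit 160, nat_lit 0, nat_lit 384, ⟨nat_lit 0, nat_lit 0, nat_lit 1000, nat_lit 5, nat_lit 105, nat_lit 551, nat_lit 65, nat_lit 1000, nat_lit 38400, nat_lit 263, nat_lit 104017, nat_lit 294, nat_lit 62647317, nat_lit 0, nat_lit 0, nat_lit 1202078, false, false⟩,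
 nat_lit 0, nat_lit 5173, nat_lit 0, nat_lit 0, nat_lit 3581, nat_lit 0, nat_lit 230, nat_lit 0, nat_lit 0, nat_lit 0, nat_lit 0, nat_lit 0, nat_lit 0, nat_lit 0, nat_lit 94, nat_lit 400000, nat_lit 0, nat_lit 0, [(nat_lit 15, [(nat_lit 5, nat_lit 1000)])],
 ⟨p055_k1, nat_lit 0, nat_lit 0, nat_lit 353, nat_lit 0, nat_lit 283941, [nat_lit 2443200000, nat_lit 153000000], [], [nat_lit 17455036687, nat_lit 19006729672, nat_lit 15606103930, nat_lit 16944429596, nat_lit 16587437219, nat_lit 17768095057, nat_lit 16695215482, nat_lit 17490305936], nat_lit 1271250, nat_lit 1271250, nat_lit 134400, nat_lit 490000, nat_lit 0, nat_lit 1100001, [nat_lit 780000, nat_lit 1762500], [nat_lit 74, nat_lit 40, nat_lit 40, nat_lit 80, nat_lit 43, nat_lit 272, nat_lit 60, nat_lit 9]⟩, C1.Rw.none,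
 ⟨nat_lit 4472, nat_lit 5000, ⟨.ofNat (nat_lit 185713), .ofNat (nat_lit 285713), .ofNat (nat_lit 228562), .ofNat (nat_lit 328559), .ofNat (nat_lit 200895), .ofNat (nat_lit 296064), .ofNat (nat_lit 244020), .ofNat (nat_lit 339186)⟩, ⟨.ofNat (nat_lit 0), .ofNat (nat_lit 299999), .ofNat (nat_lit 0), .ofNat (nat_lit 342856), .ofNat (nat_lit 0), .ofNat (nat_lit 302621), .ofNat (nat_lit 0), .ofNat (nat_lit 345754)⟩⟩, [⟨nat_lit 0, nat_lit 100, nat_lit 82, nat_lit 76, nat_lit 323300920⟩]⟩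
noncomputable def p055_l88 : Lf2 := ⟨nat_lit 0, nat_lit 10, [nat_lit 0, nat_lit 5, nat_lit 5, nat_lit 20], true, nat_lit 0, nat_lit 160, nat_lit 0, nat_lit 384, ⟨nat_lit 0, nat_lit 0, nat_lit 1000, nat_lit 5, nat_lit 153, nat_lit 671, nat_lit 65, nat_lit 1000, nat_lit 38400, nat_lit 263, nat_lit 82882, nat_lit 285, nat_lit 58464914, nat_lit 0, nat_lit 0, nat_lit 1906966, false, false⟩,
 nat_lit 0, nat_lit 4764, nat_lit 0, nat_lit 194, nat_lit 3298, nat_lit 0, nat_lit 0, nat_lit 0, nat_lit 0, nat_lit 0, nat_lit 0, nat_lit 0, nat_lit 0, nat_lit 0, nat_lit 219, nat_lit 1000000, nat_lit 0, nat_lit 0, [(nat_lit 15, [(nat_lit 6, nat_lit 1000)])],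
 ⟨p055_k34, nat_lit 0, nat_lit 0, nat_lit 381, nat_lit 0, nat_lit 452724, [nat_lit 3608000000, nat_lit 2084800001, nat_lit 1200000], [], [nat_lit 16075763501, nat_lit 16475690352, nat_lit 16411378384, nat_lit 17567672904, nat_lit 15950376544, nat_lit 17032053888, nat_lit 18827963009, nat_lit 18163415032], nat_lit 1271250, nat_lit 1271250, nat_lit 490000, nat_lit 1100001, nat_lit 0, nat_lit 1100001, [nat_lit 780000, nat_lit 1435000, nat_lit 1271250], [nat_lit 18, nat_lit 40, nat_lit 40, nat_lit 80, nat_lit 2, nat_lit 317, nat_lit 100, nat_lit 10]⟩, C1.Rw.none,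
 ⟨nat_lit 4472, nat_lit 5000, ⟨.ofNat (nat_lit 285713), .ofNat (nat_lit 428570), .ofNat (nat_lit 328559), .ofNat (nat_lit 471408), .ofNat (nat_lit 296064), .ofNat (nat_lit 432020), .ofNat (nat_lit 339186), .ofNat (nat_lit 475134)⟩, ⟨.ofNat (nat_lit 0), .ofNat (nat_lit 299999), .ofNat (nat_lit 0), .ofNat (nat_lit 342856), .ofNat (nat_lit 0), .ofNat (nat_lit 302621), .ofNat (nat_lit 0), .ofNat (nat_lit 345754)⟩⟩, []⟩
noncomputable def p055_l89 : Lf2 := ⟨nat_lit 0, nat_lit 10, [nat_lit 0, nat_lit 5, nat_lit 5, nat_lit 20], false, nat_lit 0, nat_lit 160, nat_lit 0, nat_lit 384, ⟨nat_lit 701, nat_lit 0, nat_lit 299, nat_lit 5, nat_lit 209, nat_lit 299, nat_lit 65, nat_lit 299, nat_lit 38400, nat_lit 263, nat_lit 1067, nat_lit 207, nat_lit 52675248, nat_lit 0, nat_lit 0, nat_lit 2594754, false, false⟩,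
 nat_lit 0, nat_lit 8518, nat_lit 0, nat_lit 3444, nat_lit 5896, nat_lit 8935, nat_lit 1149, nat_lit 0, nat_lit 0, nat_lit 758, nat_lit 0, nat_lit 0, nat_lit 0, nat_lit 0, nat_lit 0, nat_lit 299000, nat_lit 0, nat_lit 0, [(nat_lit 15, [(nat_lit 6, nat_lit 299)])],
 ⟨p055_k34, nat_lit 0, nat_lit 0, nat_lit 330, nat_lit 0, nat_lit 452724, [nat_lit 2593702000, nat_lit 3694985201, nat_lit 4014382800], [], [nat_lit 23781183632, nat_lit 20710676544, nat_lit 22176407872, nat_lit 24258946080, nat_lit 15386565232, nat_lit 16363866400, nat_lit 22388779232, nat_lit 19719023264], nat_lit 1271250, nat_lit 1271250, nat_lit 1100001, nat_lit 1785000, nat_lit 0, nat_lit 1100001, [nat_lit 780000, nat_lit 1435000, nat_lit 1271250], [nat_lit 18, nat_lit 40, nat_lit 40, nat_lit 80, nat_lit 2, nat_lit 317, nat_lit 100, nat_lit 10]⟩, ⟨p055_k35, nat_lit 0, nat_lit 0, nat_lit 194, nat_lit 0, nat_lit 0, [nat_lit 4381250000, nat_lit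 6899242000, nat_lit 8322272000], [], [nat_lit 17942173496, nat_lit 19905049452, nat_lit 20662952592, nat_lit 22157526500, nat_lit 21956614385, nat_lit 22283803430, nat_lit 22443061373, nat_lit 23299889518], nat_lit 0, nat_lit 0, nat_lit 0, nat_lit 0, nat_lit 0, nat_lit 0, [], [nat_lit 46, nat_lit 40, nat_lit 40, nat_lit 80, nat_lit 41, nat_lit 456, nat_lit 225, nat_lit 12]⟩,
 ⟨nat_lit 4472, nat_lit 5000, ⟨.ofNat (nat_lit 428570), .ofNat (nat_lit 571423), .ofNat (nat_lit 471408), .ofNat (nat_lit 614256), .ofNat (nat_lit 432020), .ofNat (nat_lit 567973), .ofNat (nat_lit 475134), .ofNat (nat_lit 611081)⟩, ⟨.ofNat (nat_lit 0), .ofNat (nat_lit 299999), .ofNat (nat_lit 0), .ofNat (nat_lit 342856), .ofNat (nat_lit 0), .ofNat (nat_lit 302621), .ofNat (nat_lit 0), .ofNat (nat_lit 345754)⟩⟩, [⟨nat_lit 19, nat_lit 100, nat_lit 59, nat_lit 87, nat_lit 120070243⟩, ⟨nat_lit 22, nat_lit 100, nat_lit 60, nat_lit 80, nat_lit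 84358804⟩]⟩
noncomputable def p055_l90 : Lf2 := ⟨nat_lit 0, nat_lit 10, [nat_lit 0, nat_lit 5, nat_lit 5, nat_lit 20], true, nat_lit 160, nat_lit 240, nat_lit 0, nat_lit 384, ⟨nat_lit 0, nat_lit 0, nat_lit 1000, nat_lit 5, nat_lit 132, nat_lit 1000, nat_lit 157, nat_lit 1000, nat_lit 59604, nat_lit 274, nat_lit 87041, nat_lit 287, nat_lit 50928597, nat_lit 0, nat_lit 0, nat_lit 3822258, false, false⟩,
 nat_lit 0, nat_lit 4658, nat_lit 0, nat_lit 0, nat_lit 3224, nat_lit 0, nat_lit 0, nat_lit 0, nat_lit 0, nat_lit 0, nat_lit 0, nat_lit 0, nat_lit 0, nat_lit 0, nat_lit 219, nat_lit 1000000, nat_lit 0, nat_lit 0, [(nat_lit 15, [(nat_lit 6, nat_lit 1000)])],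
 ⟨p055_k34, nat_lit 0, nat_lit 0, nat_lit 261, nat_lit 0, nat_lit 348885, [nat_lit 3608000000, nat_lit 2084800001, nat_lit 1200000], [], [nat_lit 16509528907, nat_lit 15941247060, nat_lit 16461838768, nat_lit 17002760168, nat_lit 18088140509, nat_lit 18635177288, nat_lit 19381049729, nat_lit 19349845832], nat_lit 1271250, nat_lit 1271250, nat_lit 134400, nat_lit 1100001, nat_lit 1100001, nat_lit 1785000, [nat_lit 780000, nat_lit 1435000, nat_lit 1271250], [nat_lit 18, nat_lit 40, nat_lit 40, nat_lit 80, nat_lit 2, nat_lit 317, nat_lit 100, nat_lit 10]⟩, C1.Rw.none,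
 ⟨nat_lit 4743, nat_lit 5000, ⟨.ofNat (nat_lit 185713), .ofNat (nat_lit 428570), .ofNat (nat_lit 228570), .ofNat (nat_lit 471424), .ofNat (nat_lit 193320), .ofNat (nat_lit 430299), .ofNat (nat_lit 236296), .ofNat (nat_lit 473272)⟩, ⟨.ofNat (nat_lit 299999), .ofNat (nat_lit 442856), .ofNat (nat_lit 342856), .ofNat (nat_lit 485713), .ofNat (nat_lit 301370), .ofNat (nat_lit 440769), .ofNat (nat_lit 344346), .ofNat (nat_lit 483746)⟩⟩, [⟨nat_lit 0, nat_lit 100, nat_lit 85, nat_lit 72, nat_lit 56550681⟩]⟩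
noncomputable def p055_l91 : Lf2 := ⟨nat_lit 0, nat_lit 10, [nat_lit 0, nat_lit 5, nat_lit 5, nat_lit 20], true, nat_lit 160, nat_lit 240, nat_lit 0, nat_lit 384, ⟨nat_lit 0, nat_lit 0, nat_lit 1000, nat_lit 5, nat_lit 137, nat_lit 1000, nat_lit 157, nat_lit 1000, nat_lit 63889, nat_lit 276, nat_lit 79350, nat_lit 284, nat_lit 50584412, nat_lit 0, nat_lit 0, nat_lit 3878779, false, false⟩,
 nat_lit 0, nat_lit 4458, nat_lit 0, nat_lit 0, nat_lit 3213, nat_lit 0, nat_lit 0, nat_lit 0, nat_lit 0, nat_lit 0, nat_lit 0, nat_lit 0, nat_lit 0, nat_lit 0, nat_lit 219, nat_lit 1000000, nat_lit 0, nat_lit 0, [(nat_lit 15, [(nat_lit 6, nat_lit 1000)])],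
 ⟨p055_k36, nat_lit 0, nat_lit 0, nat_lit 289, nat_lit 0, nat_lit 428062, [nat_lit 3608000000, nat_lit 2084800001, nat_lit 1200000], [], [nat_lit 15827275364, nat_lit 16454563901, nat_lit 17032070691, nat_lit 17572214116, nat_lit 18512064116, nat_lit 19055698824, nat_lit 19378003434, nat_lit 19849037300], nat_lit 1271250, nat_lit 1271250, nat_lit 181601, nat_lit 1100001, nat_lit 1100001, nat_lit 1785000, [nat_lit 780000, nat_lit 1435000, nat_lit 1271250], [nat_lit 18, nat_lit 40, nat_lit 40, nat_lit 80, nat_lit 2, nat_lit 317, nat_lit 100, nat_lit 10]⟩, C1.Rw.none,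
 ⟨nat_lit 4472, nat_lit 4744, ⟨.ofNat (nat_lit 207259), .ofNat (nat_lit 430299), .ofNat (nat_lit 250233), .ofNat (nat_lit 473270), .ofNat (nat_lit 214490), .ofNat (nat_lit 432020), .ofNat (nat_lit 257620), .ofNat (nat_lit 475149)⟩, ⟨.ofNat (nat_lit 301370), .ofNat (nat_lit 440769), .ofNat (nat_lit 344346), .ofNat (nat_lit 483746), .ofNat (nat_lit 302621), .ofNat (nat_lit 438578), .ofNat (nat_lit 345754), .ofNat (nat_lit 481711)⟩⟩, [⟨nat_lit 0, nat_lit 100, nat_lit 82, nat_lit 76, nat_lit 49438071⟩]⟩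
noncomputable def p055_l92 : Lf2 := ⟨nat_lit 0, nat_lit 10, [nat_lit 0, nat_lit 5, nat_lit 5, nat_lit 20], false, nat_lit 160, nat_lit 240, nat_lit 0, nat_lit 384, ⟨nat_lit 415, nat_lit 0, nat_lit 585, nat_lit 5, nat_lit 209, nat_lit 585, nat_lit 157, nat_lit 585, nat_lit 59604, nat_lit 274, nat_lit 1067, nat_lit 207, nat_lit 44803345, nat_lit 0, nat_lit 0, nat_lit 4599774, false, false⟩,
 nat_lit 0, nat_lit 6538, nat_lit 0, nat_lit 0, nat_lit 4525, nat_lit 5294, nat_lit 322, nat_lit 0, nat_lit 0, nat_lit 720, nat_lit 0, nat_lit 0, nat_lit 0, nat_lit 0, nat_lit 0, nat_lit 585000, nat_lit 0, nat_lit 0, [(nat_lit 15, [(nat_lit 6, nat_lit 585)])],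
 ⟨p055_k34, nat_lit 0, nat_lit 0, nat_lit 211, nat_lit 0, nat_lit 452724, [nat_lit 1935330000, nat_lit 1251058001, nat_lit 232662000], [], [nat_lit 16452363052, nat_lit 17429369002, nat_lit 18468774201, nat_lit 19429910500, nat_lit 18468774201, nat_lit 19429910500, nat_lit 21557786301, nat_lit 21976542900], nat_lit 1271250, nat_lit 1271250, nat_lit 1100001, nat_lit 1785000, nat_lit 1100001, nat_lit 1785000, [nat_lit 780000, nat_lit 1435000, nat_lit 1271250], [nat_lit 18, nat_lit 40, nat_lit 40, nat_lit 80, nat_lit 2, nat_lit 345, nat_lit 125, nat_lit 10]⟩, ⟨p055_k35, nat_lit 0, nat_lit 0, nat_lit 194, nat_lit 0, nat_lit 0, [nat_lit 2593750000, nat_lit 4084430000, nat_lit 4926880000], [], [nat_lit 9537155840, nat_lit 10699750600, nat_lit 11148445456, nat_lit 12035883152, nat_lit 12881534616, nat_lit 13195971032, nat_lit 13289997101, nat_lit 13797314458], nat_lit 0, nat_lit 0, nat_lit 0, nat_lit 0, nat_lit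 0, nat_lit 0, [], [nat_lit 46, nat_lit 40, nat_lit 40, nat_lit 80, nat_lit 41, nat_lit 456, nat_lit 225, nat_lit 12]⟩,
 ⟨nat_lit 4472, nat_lit 5000, ⟨.ofNat (nat_lit 428570), .ofNat (nat_lit 571423), .ofNat (nat_lit 471408), .ofNat (nat_lit 614256), .ofNat (nat_lit 432020), .ofNat (nat_lit 567973), .ofNat (nat_lit 475134), .ofNat (nat_lit 611081)⟩, ⟨.ofNat (nat_lit 299999), .ofNat (nat_lit 442856), .ofNat (nat_lit 342856), .ofNat (nat_lit 485713), .ofNat (nat_lit 302621), .ofNat (nat_lit 438578), .ofNat (nat_lit 345754), .ofNat (nat_lit 481711)⟩⟩, [⟨nat_lit 7, nat_lit 59, nat_lit 100, nat_lit 87, nat_lit 130615779⟩]⟩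
noncomputable def p055_l93 : Lf2 := ⟨nat_lit 0, nat_lit 5, [nat_lit 4, nat_lit 5, nat_lit 5, nat_lit 20], true, nat_lit 240, nat_lit 320, nat_lit 0, nat_lit 288, ⟨nat_lit 0, nat_lit 1000, nat_lit 0, nat_lit 5, nat_lit 91, nat_lit 1000, nat_lit 213, nat_lit 0, nat_lit 0, nat_lit 0, nat_lit 0, nat_lit 0, nat_lit 48587469, nat_lit 3906736, nat_lit 14505795, nat_lit 3862280, false, false⟩,
 nat_lit 0, nat_lit 5844, nat_lit 0, nat_lit 1854, nat_lit 4045, nat_lit 0, nat_lit 691, nat_lit 0, nat_lit 0, nat_lit 0, nat_lit 0, nat_lit 0, nat_lit 0, nat_lit 0, nat_lit 0, nat_lit 400000, nat_lit 0, nat_lit 0, [(nat_lit 15, [(nat_lit 1, nat_lit 1000)])],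
 ⟨p055_k20, nat_lit 0, nat_lit 0, nat_lit 211, nat_lit 0, nat_lit 269876, [nat_lit 2020200000, nat_lit 2216000000, nat_lit 2326400000], [], [nat_lit 19946921391, nat_lit 21023872856, nat_lit 19533600610, nat_lit 20600130920, nat_lit 23929964215, nat_lit 25258428720, nat_lit 23088157530, nat_lit 24409478120], nat_lit 1271250, nat_lit 1271250, nat_lit 134400, nat_lit 230001, nat_lit 1271250, nat_lit 1271250, [nat_lit 780000, nat_lit 1100000, nat_lit 1442500], [nat_lit 59, nat_lit 40, nat_lit 40, nat_lit 80, nat_lit 3, nat_lit 215, nat_lit 10, nat_lit 7]⟩, C1.Rw.none,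
 ⟨nat_lit 4472, nat_lit 5000, ⟨.ofNat (nat_lit 185713), .ofNat (nat_lit 214284), .ofNat (nat_lit 228562), .ofNat (nat_lit 257133), .ofNat (nat_lit 200895), .ofNat (nat_lit 228086), .ofNat (nat_lit 244020), .ofNat (nat_lit 271210)⟩, ⟨.ofNat (nat_lit 442856), .ofNat (nat_lit 585713), .ofNat (nat_lit 485713), .ofNat (nat_lit 628570), .ofNat (nat_lit 438578), .ofNat (nat_lit 574534), .ofNat (nat_lit 481711), .ofNat (nat_lit 617667)⟩⟩, [⟨nat_lit 0, nat_lit 100, nat_lit 84, nat_lit 63, nat_lit 806735998⟩, ⟨nat_lit 4, nat_lit 100, nat_lit 93, nat_lit 97, nat_lit 181662677⟩]⟩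
noncomputable def p055_l94 : Lf2 := ⟨nat_lit 0, nat_lit 2, [nat_lit 10, nat_lit 5, nat_lit 5, nat_lit 20], true, nat_lit 240, nat_lit 320, nat_lit 0, nat_lit 336, ⟨nat_lit 0, nat_lit 1000, nat_lit 0, nat_lit 5, nat_lit 110, nat_lit 1000, nat_lit 214, nat_lit 0, nat_lit 0, nat_lit 0, nat_lit 0, nat_lit 0, nat_lit 47432934, nat_lit 5114883, nat_lit 14452183, nat_lit 4106101, false, false⟩,
 nat_lit 0, nat_lit 5435, nat_lit 0, nat_lit 0, nat_lit 3762, nat_lit 0, nat_lit 109, nat_lit 0, nat_lit 0, nat_lit 0, nat_lit 0, nat_lit 0, nat_lit 0, nat_lit 0, nat_lit 0, nat_lit 1000000, nat_lit 0, nat_lit 0, [(nat_lit 15, [(nat_lit 2, nat_lit 1000)])],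
 ⟨p055_k37, nat_lit 0, nat_lit 0, nat_lit 131, nat_lit 0, nat_lit 201473, [nat_lit 1981440001, nat_lit 1580800000], [], [nat_lit 18719075169, nat_lit 19329950045, nat_lit 18499729277, nat_lit 19087845723, nat_lit 22742988065, nat_lit 23376529698, nat_lit 22384056042, nat_lit 22897558114], nat_lit 1271250, nat_lit 1271250, nat_lit 230001, nat_lit 490000, nat_lit 1271250, nat_lit 1271250, [nat_lit 780000, nat_lit 1100000], [nat_lit 40, nat_lit 40, nat_lit 40, nat_lit 80, nat_lit 22, nat_lit 226, nat_lit 20, nat_lit 9]⟩, C1.Rw.none,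
 ⟨nat_lit 4743, nat_lit 5000, ⟨.ofNat (nat_lit 214284), .ofNat (nat_lit 285713), .ofNat (nat_lit 257141), .ofNat (nat_lit 328569), .ofNat (nat_lit 221199), .ofNat (nat_lit 290899), .ofNat (nat_lit 264176), .ofNat (nat_lit 333875)⟩, ⟨.ofNat (nat_lit 442856), .ofNat (nat_lit 585713), .ofNat (nat_lit 485713), .ofNat (nat_lit 628570), .ofNat (nat_lit 440769), .ofNat (nat_lit 580169), .ofNat (nat_lit 483746), .ofNat (nat_lit 623145)⟩⟩, [⟨nat_lit 0, nat_lit 100, nat_lit 85, nat_lit 72, nat_lit 145373913⟩, ⟨nat_lit 16, nat_lit 94, nat_lit 88, nat_lit 100, nat_lit 208964217⟩]⟩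
noncomputable def p055_l95 : Lf2 := ⟨nat_lit 0, nat_lit 5, [nat_lit 4, nat_lit 5, nat_lit 5, nat_lit 20], true, nat_lit 240, nat_lit 320, nat_lit 0, nat_lit 336, ⟨nat_lit 0, nat_lit 1000, nat_lit 0, nat_lit 5, nat_lit 110, nat_lit 1000, nat_lit 214, nat_lit 0, nat_lit 0, nat_lit 0, nat_lit 0, nat_lit 0, nat_lit 47432934, nat_lit 5114883, nat_lit 14452183, nat_lit 4106101, false, false⟩,
 nat_lit 0, nat_lit 5597, nat_lit 0, nat_lit 1731, nat_lit 3874, nat_lit 0, nat_lit 0, nat_lit 0, nat_lit 0, nat_lit 0, nat_lit 0, nat_lit 0, nat_lit 0, nat_lit 0, nat_lit 0, nat_lit 923200, nat_lit 0, nat_lit 0, [(nat_lit 15, [(nat_lit 1, nat_lit 128), (nat_lit 2, nat_lit 872)])],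
 ⟨p055_k20, nat_lit 0, nat_lit 0, nat_lit 137, nat_lit 0, nat_lit 126110, [nat_lit 1986401281, nat_lit 1770931200, nat_lit 939571200], [], [nat_lit 19123785557, nat_lit 19701947927, nat_lit 18846365493, nat_lit 19403166771, nat_lit 22928361809, nat_lit 23523454546, nat_lit 22537788853, nat_lit 23029550771], nat_lit 1271250, nat_lit 1271250, nat_lit 230001, nat_lit 490000, nat_lit 1271250, nat_lit 1271250, [nat_lit 780000, nat_lit 1100000, nat_lit 1442500], [nat_lit 59, nat_lit 40, nat_lit 40, nat_lit 80, nat_lit 3, nat_lit 226, nat_lit 20, nat_lit 8]⟩, C1.Rw.none,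
 ⟨nat_lit 4743, nat_lit 5000, ⟨.ofNat (nat_lit 214284), .ofNat (nat_lit 285713), .ofNat (nat_lit 257141), .ofNat (nat_lit 328569), .ofNat (nat_lit 221199), .ofNat (nat_lit 290899), .ofNat (nat_lit 264176), .ofNat (nat_lit 333875)⟩, ⟨.ofNat (nat_lit 442856), .ofNat (nat_lit 585713), .ofNat (nat_lit 485713), .ofNat (nat_lit 628570), .ofNat (nat_lit 440769), .ofNat (nat_lit 580169), .ofNat (nat_lit 483746), .ofNat (nat_lit 623145)⟩⟩, [⟨nat_lit 0, nat_lit 100, nat_lit 85, nat_lit 72, nat_lit 150015571⟩, ⟨nat_lit 16, nat_lit 94, nat_lit 88, nat_lit 100, nat_lit 190108423⟩]⟩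
noncomputable def p055_l96 : Lf2 := ⟨nat_lit 0, nat_lit 5, [nat_lit 4, nat_lit 5, nat_lit 5, nat_lit 20], true, nat_lit 240, nat_lit 292, nat_lit 0, nat_lit 336, ⟨nat_lit 0, nat_lit 245, nat_lit 755, nat_lit 5, nat_lit 112, nat_lit 1000, nat_lit 198, nat_lit 755, nat_lit 5873, nat_lit 231, nat_lit 117600, nat_lit 299, nat_lit 48711605, nat_lit 5342975, nat_lit 12945420, nat_lit 4000264, false, false⟩,
 nat_lit 0, nat_lit 4644, nat_lit 0, nat_lit 0, nat_lit 3347, nat_lit 0, nat_lit 0, nat_lit 0, nat_lit 0, nat_lit 0, nat_lit 0, nat_lit 0, nat_lit 0, nat_lit 0, nat_lit 69, nat_lit 853000, nat_lit 0, nat_lit 0, [(nat_lit 15, [(nat_lit 1, nat_lit 245), (nat_lit 6, nat_lit 755)])],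
 ⟨p055_k24, nat_lit 0, nat_lit 0, nat_lit 166, nat_lit 0, nat_lit 243649, [nat_lit 2062849000, nat_lit 1283010000, nat_lit 19886000], [], [nat_lit 18848335681, nat_lit 19398745280, nat_lit 18797699786, nat_lit 19327589328, nat_lit 21177702048, nat_lit 21834773252, nat_lit 21046470142, nat_lit 21520165803], nat_lit 1271250, nat_lit 1271250, nat_lit 230001, nat_lit 490000, nat_lit 1271250, nat_lit 1271250, [nat_lit 780000, nat_lit 1100000, nat_lit 1442500], [nat_lit 59, nat_lit 40, nat_lit 40, nat_lit 80, nat_lit 3, nat_lit 226, nat_lit 20, nat_lit 8]⟩, C1.Rw.none,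
 ⟨nat_lit 4472, nat_lit 4744, ⟨.ofNat (nat_lit 221199), .ofNat (nat_lit 290899), .ofNat (nat_lit 264172), .ofNat (nat_lit 333872), .ofNat (nat_lit 228086), .ofNat (nat_lit 296064), .ofNat (nat_lit 271215), .ofNat (nat_lit 339193)⟩, ⟨.ofNat (nat_lit 440769), .ofNat (nat_lit 531379), .ofNat (nat_lit 462258), .ofNat (nat_lit 552867), .ofNat (nat_lit 438578), .ofNat (nat_lit 526949), .ofNat (nat_lit 460144), .ofNat (nat_lit 548516)⟩⟩, [⟨nat_lit 0, nat_lit 100, nat_lit 82, nat_lit 76, nat_lit 123113697⟩, ⟨nat_lit 16, nat_lit 93, nat_lit 100, nat_lit 97, nat_lit 241470574⟩]⟩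
noncomputable def p055_l97 : Lf2 := ⟨nat_lit 0, nat_lit 5, [nat_lit 4, nat_lit 5, nat_lit 5, nat_lit 20], true, nat_lit 240, nat_lit 312, nat_lit 0, nat_lit 336, ⟨nat_lit 0, nat_lit 1000, nat_lit 0, nat_lit 5, nat_lit 112, nat_lit 1000, nat_lit 214, nat_lit 0, nat_lit 0, nat_lit 0, nat_lit 0, nat_lit 0, nat_lit 47280616, nat_lit 5283337, nat_lit 14436047, nat_lit 4136817, false, false⟩,
 nat_lit 0, nat_lit 5232, nat_lit 0, nat_lit 0, nat_lit 3771, nat_lit 0, nat_lit 529, nat_lit 0, nat_lit 0, nat_lit 0, nat_lit 0, nat_lit 0, nat_lit 0, nat_lit 0, nat_lit 0, nat_lit 400000, nat_lit 0, nat_lit 0, [(nat_lit 15, [(nat_lit 1, nat_lit 1000)])],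
 ⟨p055_k24, nat_lit 0, nat_lit 0, nat_lit 156, nat_lit 0, nat_lit 191240, [nat_lit 2020200000, nat_lit 2216000000, nat_lit 2326400000], [], [nat_lit 19648260009, nat_lit 20219469364, nat_lit 19376629035, nat_lit 19926854072, nat_lit 22947938096, nat_lit 23546987136, nat_lit 22564385322, nat_lit 23089404231], nat_lit 1271250, nat_lit 1271250, nat_lit 230001, nat_lit 490000, nat_lit 1271250, nat_lit 1271250, [nat_lit 780000, nat_lit 1100000, nat_lit 1442500], [nat_lit 59, nat_lit 40, nat_lit 40, nat_lit 80, nat_lit 3, nat_lit 226, nat_lit 20, nat_lit 8]⟩, C1.Rw.none,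
 ⟨nat_lit 4472, nat_lit 4744, ⟨.ofNat (nat_lit 221199), .ofNat (nat_lit 290899), .ofNat (nat_lit 264172), .ofNat (nat_lit 333872), .ofNat (nat_lit 228086), .ofNat (nat_lit 296064), .ofNat (nat_lit 271215), .ofNat (nat_lit 339193)⟩, ⟨.ofNat (nat_lit 462258), .ofNat (nat_lit 587717), .ofNat (nat_lit 483746), .ofNat (nat_lit 609205), .ofNat (nat_lit 460144), .ofNat (nat_lit 582505), .ofNat (nat_lit 481711), .ofNat (nat_lit 604071)⟩⟩, [⟨nat_lit 0, nat_lit 100, nat_lit 82, nat_lit 76, nat_lit 150356723⟩, ⟨nat_lit 16, nat_lit 91, nat_lit 91, nat_lit 100, nat_lit 195362032⟩]⟩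
noncomputable def p055_l98 : Lf2 := ⟨nat_lit 0, nat_lit 10, [nat_lit 0, nat_lit 5, nat_lit 5, nat_lit 20], true, nat_lit 240, nat_lit 320, nat_lit 0, nat_lit 336, ⟨nat_lit 0, nat_lit 148, nat_lit 852, nat_lit 5, nat_lit 105, nat_lit 1000, nat_lit 213, nat_lit 852, nat_lit 4748, nat_lit 203, nat_lit 104017, nat_lit 294, nat_lit 47768380, nat_lit 4820857, nat_lit 14410763, nat_lit 4044592, false, false⟩,
 nat_lit 0, nat_lit 4765, nat_lit 0, nat_lit 8819, nat_lit 3298, nat_lit 0, nat_lit 0, nat_lit 0, nat_lit 0, nat_lit 0, nat_lit 0, nat_lit 0, nat_lit 0, nat_lit 0, nat_lit 66, nat_lit 400000, nat_lit 0, nat_lit 0, [(nat_lit 15, [(nat_lit 1, nat_lit 148), (nat_lit 5, nat_lit 852)])],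
 ⟨p055_k6, nat_lit 0, nat_lit 0, nat_lit 165, nat_lit 0, nat_lit 91107, [nat_lit 2211540000, nat_lit 1662899201, nat_lit 83430400], [], [nat_lit 18661615765, nat_lit 19670378092, nat_lit 18117614176, nat_lit 19083765928, nat_lit 22817554822, nat_lit 24030587808, nat_lit 21813613160, nat_lit 22788411736], nat_lit 1271250, nat_lit 1271250, nat_lit 134400, nat_lit 490000, nat_lit 1271250, nat_lit 1271250, [nat_lit 780000, nat_lit 1100000, nat_lit 1785000], [nat_lit 36, nat_lit 40, nat_lit 40, nat_lit 80, nat_lit 7, nat_lit 226, nat_lit 20, nat_lit 7]⟩, C1.Rw.none,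
 ⟨nat_lit 4472, nat_lit 5000, ⟨.ofNat (nat_lit 185713), .ofNat (nat_lit 285713), .ofNat (nat_lit 228562), .ofNat (nat_lit 328559), .ofNat (nat_lit 200895), .ofNat (nat_lit 296064), .ofNat (nat_lit 244020), .ofNat (nat_lit 339186)⟩, ⟨.ofNat (nat_lit 442856), .ofNat (nat_lit 585713), .ofNat (nat_lit 485713), .ofNat (nat_lit 628570), .ofNat (nat_lit 438578), .ofNat (nat_lit 574534), .ofNat (nat_lit 481711), .ofNat (nat_lit 617667)⟩⟩, [⟨nat_lit 0, nat_lit 100, nat_lit 82, nat_lit 76, nat_lit 231271476⟩, ⟨nat_lit 4, nat_lit 100, nat_lit 93, nat_lit 97, nat_lit 280814992⟩]⟩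
noncomputable def p055_l99 : Lf2 := ⟨nat_lit 0, nat_lit 10, [nat_lit 0, nat_lit 5, nat_lit 5, nat_lit 20], true, nat_lit 240, nat_lit 320, nat_lit 0, nat_lit 352, ⟨nat_lit 0, nat_lit 1000, nat_lit 0, nat_lit 5, nat_lit 131, nat_lit 1000, nat_lit 214, nat_lit 0, nat_lit 0, nat_lit 0, nat_lit 0, nat_lit 0, nat_lit 46107182, nat_lit 6624928, nat_lit 14267890, nat_lit 4359538, false, false⟩,
 nat_lit 0, nat_lit 6084, nat_lit 0, nat_lit 250, nat_lit 4211, nat_lit 0, nat_lit 22, nat_lit 0, nat_lit 0, nat_lit 0, nat_lit 0, nat_lit 0, nat_lit 0, nat_lit 0, nat_lit 0, nat_lit 808000, nat_lit 0, nat_lit 0, [(nat_lit 15, [(nat_lit 1, nat_lit 320), (nat_lit 2, nat_lit 680)])],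
 ⟨p055_k6, nat_lit 0, nat_lit 0, nat_lit 163, nat_lit 0, nat_lit 218816, [nat_lit 1993843200, nat_lit 2222832000, nat_lit 340826667], [], [nat_lit 18979895799, nat_lit 19513922065, nat_lit 19026785178, nat_lit 19548292037, nat_lit 22560855929, nat_lit 23049973635, nat_lit 22550497100, nat_lit 23047926533], nat_lit 1271250, nat_lit 1271250, nat_lit 490000, nat_lit 631250, nat_lit 1271250, nat_lit 1271250, [nat_lit 780000, nat_lit 1100000, nat_lit 1785000], [nat_lit 36, nat_lit 40, nat_lit 40, nat_lit 80, nat_lit 7, nat_lit 232, nat_lit 25, nat_lit 7]⟩, C1.Rw.none,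
 ⟨nat_lit 4743, nat_lit 5000, ⟨.ofNat (nat_lit 285713), .ofNat (nat_lit 321427), .ofNat (nat_lit 328569), .ofNat (nat_lit 364283), .ofNat (nat_lit 290899), .ofNat (nat_lit 325749), .ofNat (nat_lit 333875), .ofNat (nat_lit 368724)⟩, ⟨.ofNat (nat_lit 442856), .ofNat (nat_lit 585713), .ofNat (nat_lit 485713), .ofNat (nat_lit 628570), .ofNat (nat_lit 440769), .ofNat (nat_lit 580169), .ofNat (nat_lit 483746), .ofNat (nat_lit 623145)⟩⟩, [⟨nat_lit 16, nat_lit 97, nat_lit 100, nat_lit 98, nat_lit 147543623⟩, ⟨nat_lit 16, nat_lit 94, nat_lit 88, nat_lit 100, nat_lit 41537094⟩]⟩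
noncomputable def p055_l100 : Lf2 := ⟨nat_lit 0, nat_lit 10, [nat_lit 0, nat_lit 5, nat_lit 5, nat_lit 20], true, nat_lit 240, nat_lit 312, nat_lit 0, nat_lit 352, ⟨nat_lit 0, nat_lit 759, nat_lit 241, nat_lit 5, nat_lit 133, nat_lit 1000, nat_lit 209, nat_lit 241, nat_lit 1989, nat_lit 209, nat_lit 166667, nat_lit 315, nat_lit 46359428, nat_lit 6792633, nat_lit 13847939, nat_lit 4347330, false, false⟩,
 nat_lit 0, nat_lit 5250, nat_lit 0, nat_lit 0, nat_lit 3784, nat_lit 0, nat_lit 191, nat_lit 0, nat_lit 0, nat_lit 0, nat_lit 0, nat_lit 0, nat_lit 0, nat_lit 0, nat_lit 0, nat_lit 544600, nat_lit 0, nat_lit 0, [(nat_lit 15, [(nat_lit 1, nat_lit 759), (nat_lit 6, nat_lit 241)])],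
 ⟨p055_k38, nat_lit 0, nat_lit 0, nat_lit 179, nat_lit 0, nat_lit 269993, [nat_lit 1769511801, nat_lit 1807853201, nat_lit 546657467], [], [nat_lit 19354953855, nat_lit 19865065559, nat_lit 19425786851, nat_lit 19924268375, nat_lit 22310004129, nat_lit 22807410335, nat_lit 22355907989, nat_lit 22842226718], nat_lit 1271250, nat_lit 1271250, nat_lit 490000, nat_lit 631250, nat_lit 1271250, nat_lit 1271250, [nat_lit 780000, nat_lit 1100000, nat_lit 1785000], [nat_lit 36, nat_lit 40, nat_lit 40, nat_lit 80, nat_lit 7, nat_lit 232, nat_lit 25, nat_lit 7]⟩, C1.Rw.none,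
 ⟨nat_lit 4472, nat_lit 4744, ⟨.ofNat (nat_lit 290899), .ofNat (nat_lit 325749), .ofNat (nat_lit 333872), .ofNat (nat_lit 368721), .ofNat (nat_lit 296064), .ofNat (nat_lit 330053), .ofNat (nat_lit 339193), .ofNat (nat_lit 373182)⟩, ⟨.ofNat (nat_lit 440769), .ofNat (nat_lit 566229), .ofNat (nat_lit 483746), .ofNat (nat_lit 609205), .ofNat (nat_lit 438578), .ofNat (nat_lit 560938), .ofNat (nat_lit 481711), .ofNat (nat_lit 604071)⟩⟩, [⟨nat_lit 16, nat_lit 91, nat_lit 91, nat_lit 100, nat_lit 201432769⟩]⟩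
noncomputable def p055_l101 : Lf2 := ⟨nat_lit 0, nat_lit 10, [nat_lit 0, nat_lit 5, nat_lit 5, nat_lit 20], false, nat_lit 240, nat_lit 320, nat_lit 0, nat_lit 160, ⟨nat_lit 1000, nat_lit 0, nat_lit 0, nat_lit 0, nat_lit 0, nat_lit 0, nat_lit 0, nat_lit 0, nat_lit 0, nat_lit 0, nat_lit 0, nat_lit 0, nat_lit 0, nat_lit 0, nat_lit 0, nat_lit 0, false, false⟩,
 nat_lit 0, nat_lit 9247, nat_lit 0, nat_lit 23622, nat_lit 6401, nat_lit 11886, nat_lit 1154, nat_lit 0, nat_lit 0, nat_lit 4664, nat_lit 0, nat_lit 0, nat_lit 0, nat_lit 0, nat_lit 0, nat_lit 0, nat_lit 0, nat_lit 0, [],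
 ⟨p055_k6, nat_lit 0, nat_lit 0, nat_lit 262, nat_lit 0, nat_lit 452724, [nat_lit 3282000000, nat_lit 4688000000, nat_lit 7968000000], [], [nat_lit 20232246673, nat_lit 21295148104, nat_lit 20099931010, nat_lit 21134176372, nat_lit 24381087186, nat_lit 25526426432, nat_lit 24086917130, nat_lit 25203364936], nat_lit 1271250, nat_lit 1271250, nat_lit 631250, nat_lit 780000, nat_lit 1271250, nat_lit 1271250, [nat_lit 780000, nat_lit 1100000, nat_lit 1785000], [nat_lit 36, nat_lit 40, nat_lit 40, nat_lit 80, nat_lit 7, nat_lit 238, nat_lit 30, nat_lit 7]⟩, ⟨p055_k3, nat_lit 0, nat_lit 0, nat_lit 203, nat_lit 0, nat_lit 0, [nat_lit 6250000000, nat_lit 7968000000, nat_lit 11872000000], [], [nat_lit 15005740568, nat_lit 18002236172, nat_lit 14426977696, nat_lit 17588899224, nat_lit 8309075420, nat_lit 10932579764, nat_lit 8018867080, nat_lit 10550053648], nat_lit 0, nat_lit 0, nat_lit 0, nat_lit 0, nat_lit 0, nat_lit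 0, [], [nat_lit 53, nat_lit 40, nat_lit 40, nat_lit 80, nat_lit 14, nat_lit 373, nat_lit 150, nat_lit 10]⟩,
 zbF0, [⟨nat_lit 4, nat_lit 100, nat_lit 93, nat_lit 97, nat_lit 563753279⟩]⟩
noncomputable def p055_l102 : Lf2 := ⟨nat_lit 0, nat_lit 10, [nat_lit 0, nat_lit 5, nat_lit 5, nat_lit 20], false, nat_lit 240, nat_lit 320, nat_lit 160, nat_lit 364, ⟨nat_lit 1000, nat_lit 0, nat_lit 0, nat_lit 0, nat_lit 0, nat_lit 0, nat_lit 0, nat_lit 0, nat_lit 0, nat_lit 0, nat_lit 0, nat_lit 0, nat_lit 0, nat_lit 0, nat_lit 0, nat_lit 0, false, false⟩,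
 nat_lit 0, nat_lit 9040, nat_lit 0, nat_lit 0, nat_lit 6258, nat_lit 8366, nat_lit 1630, nat_lit 0, nat_lit 0, nat_lit 0, nat_lit 0, nat_lit 0, nat_lit 0, nat_lit 0, nat_lit 0, nat_lit 0, nat_lit 0, nat_lit 0, [],
 ⟨p055_k6, nat_lit 0, nat_lit 0, nat_lit 194, nat_lit 0, nat_lit 348885, [nat_lit 3282000000, nat_lit 4688000000, nat_lit 7968000000], [], [nat_lit 18146100534, nat_lit 18671787172, nat_lit 18025148080, nat_lit 18601274784, nat_lit 23826480050, nat_lit 24613279505, nat_lit 23509239316, nat_lit 24277059486], nat_lit 1271250, nat_lit 1271250, nat_lit 631250, nat_lit 780000, nat_lit 1271250, nat_lit 1271250, [nat_lit 780000, nat_lit 1100000, nat_lit 1785000], [nat_lit 36, nat_lit 40, nat_lit 40, nat_lit 80, nat_lit 7, nat_lit 238, nat_lit 30, nat_lit 7]⟩, ⟨p055_k3, nat_lit 0, nat_lit 0, nat_lit 88, nat_lit 0, nat_lit 0, [nat_lit 6250000000, nat_lit 7968000000, nat_lit 11872000000], [], [nat_lit 6554297272,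 nat_lit 9864424032, nat_lit 6628542008, nat_lit 9842923648, nat_lit 24606145532, nat_lit 26340477683, nat_lit 24169339807, nat_lit 25745889115], nat_lit 0, nat_lit 0, nat_lit 0, nat_lit 0, nat_lit 0, nat_lit 0, [], [nat_lit 53, nat_lit 40, nat_lit 40, nat_lit 80, nat_lit 14, nat_lit 428, nat_lit 200, nat_lit 11]⟩,
 zbF0, [⟨nat_lit 4, nat_lit 100, nat_lit 97, nat_lit 98, nat_lit 82662838⟩, ⟨nat_lit 23, nat_lit 100, nat_lit 84, nat_lit 97, nat_lit 658838561⟩]⟩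
noncomputable def p055_l103 : Lf2 := ⟨nat_lit 0, nat_lit 10, [nat_lit 0, nat_lit 5, nat_lit 5, nat_lit 20], false, nat_lit 240, nat_lit 312, nat_lit 160, nat_lit 364, ⟨nat_lit 861, nat_lit 0, nat_lit 139, nat_lit 5, nat_lit 146, nat_lit 139, nat_lit 210, nat_lit 139, nat_lit 1989, nat_lit 209, nat_lit 201667, nat_lit 325, nat_lit 45442327, nat_lit 0, nat_lit 0, nat_lit 4497253, false, false⟩,
 nat_lit 0, nat_lit 7203, nat_lit 0, nat_lit 0, nat_lit 5192, nat_lit 7034, nat_lit 1248, nat_lit 0, nat_lit 0, nat_lit 0, nat_lit 0, nat_lit 0, nat_lit 0, nat_lit 0, nat_lit 0, nat_lit 139000, nat_lit 0, nat_lit 0, [(nat_lit 15, [(nat_lit 6, nat_lit 139)])],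
 ⟨p055_k38, nat_lit 0, nat_lit 0, nat_lit 215, nat_lit 0, nat_lit 378643, [nat_lit 2962022001, nat_lit 4056106001, nat_lit 6130030800], [], [nat_lit 19722878134, nat_lit 20001609373, nat_lit 19728338739, nat_lit 20037737491, nat_lit 23299559380, nat_lit 23565002641, nat_lit 23251858158, nat_lit 23510392679], nat_lit 1271250, nat_lit 1271250, nat_lit 631250, nat_lit 780000, nat_lit 1271250, nat_lit 1271250, [nat_lit 780000, nat_lit 1100000, nat_lit 1785000], [nat_lit 36, nat_lit 40, nat_lit 40, nat_lit 80, nat_lit 7, nat_lit 238, nat_lit 30, nat_lit 7]⟩, ⟨p055_k3, nat_lit 0, nat_lit 0, nat_lit 88, nat_lit 0, nat_lit 0, [nat_lit 5381250000, nat_lit 6860448000, nat_lit 10221792000], [], [nat_lit 5942147684, nat_lit 8751938514, nat_lit 6014580116, nat_lit 8743510652, nat_lit 21255312706, nat_lit 22529235327, nat_lit 20896228377, nat_lit 22130987815], nat_lit 0, nat_lit 0, nat_lit 0, nat_lit 0, nat_lit 0, nat_lit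 0, [], [nat_lit 53, nat_lit 40, nat_lit 40, nat_lit 80, nat_lit 14, nat_lit 428, nat_lit 200, nat_lit 11]⟩,
 ⟨nat_lit 4609, nat_lit 4744, ⟨.ofNat (nat_lit 325749), .ofNat (nat_lit 360599), .ofNat (nat_lit 368725), .ofNat (nat_lit 403574), .ofNat (nat_lit 327902), .ofNat (nat_lit 362321), .ofNat (nat_lit 370951), .ofNat (nat_lit 405370)⟩, ⟨.ofNat (nat_lit 440769), .ofNat (nat_lit 566229), .ofNat (nat_lit 483746), .ofNat (nat_lit 609205), .ofNat (nat_lit 439688), .ofNat (nat_lit 563598), .ofNat (nat_lit 482738), .ofNat (nat_lit 606647)⟩⟩, [⟨nat_lit 4, nat_lit 100, nat_lit 92, nat_lit 96, nat_lit 18649581⟩, ⟨nat_lit 23, nat_lit 100, nat_lit 82, nat_lit 97, nat_lit 557015961⟩]⟩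
noncomputable def p055_l104 : Lf2 := ⟨nat_lit 0, nat_lit 10, [nat_lit 0, nat_lit 5, nat_lit 5, nat_lit 20], false, nat_lit 240, nat_lit 304, nat_lit 160, nat_lit 364, ⟨nat_lit 1000, nat_lit 0, nat_lit 0, nat_lit 0, nat_lit 0, nat_lit 0, nat_lit 0, nat_lit 0, nat_lit 0, nat_lit 0, nat_lit 0, nat_lit 0, nat_lit 0, nat_lit 0, nat_lit 0, nat_lit 0, false, false⟩,
 nat_lit 0, nat_lit 7533, nat_lit 0, nat_lit 0, nat_lit 5539, nat_lit 8166, nat_lit 1450, nat_lit 0, nat_lit 0, nat_lit 0, nat_lit 0, nat_lit 0, nat_lit 0, nat_lit 0, nat_lit 0, nat_lit 0, nat_lit 0, nat_lit 0, [],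
 ⟨p055_k39, nat_lit 0, nat_lit 0, nat_lit 248, nat_lit 0, nat_lit 416524, [nat_lit 3282000000, nat_lit 4688000000, nat_lit 7968000000], [], [nat_lit 20198060425, nat_lit 20461936992, nat_lit 20143371021, nat_lit 20463416080, nat_lit 23392106820, nat_lit 23671724107, nat_lit 23319081752, nat_lit 23591523748], nat_lit 1271250, nat_lit 1271250, nat_lit 631250, nat_lit 780000, nat_lit 1271250, nat_lit 1271250, [nat_lit 780000, nat_lit 1100000, nat_lit 1785000], [nat_lit 36, nat_lit 40, nat_lit 40, nat_lit 80, nat_lit 7, nat_lit 238, nat_lit 30, nat_lit 7]⟩, ⟨p055_k3, nat_lit 0, nat_lit 0, nat_lit 88, nat_lit 0, nat_lit 0, [nat_lit 6250000000, nat_lit 7968000000, nat_lit 11872000000], [], [nat_lit 6907758872, nat_lit 10170313632, nat_lit 6992064408, nat_lit 10160738048, nat_lit 24688239832, nat_lit 26163432509, nat_lit 24271543847, nat_lit 25705472248], nat_lit 0, nat_lit 0, nat_lit 0, nat_lit 0, nat_lit 0, nat_lit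 0, [], [nat_lit 53, nat_lit 40, nat_lit 40, nat_lit 80, nat_lit 14, nat_lit 428, nat_lit 200, nat_lit 11]⟩,
 zbF0, [⟨nat_lit 16, nat_lit 89, nat_lit 100, nat_lit 95, nat_lit 5288144⟩, ⟨nat_lit 19, nat_lit 100, nat_lit 59, nat_lit 87, nat_lit 13090019⟩, ⟨nat_lit 23, nat_lit 100, nat_lit 79, nat_lit 96, nat_lit 641489973⟩]⟩
noncomputable def p055_l105 : Lf2 := ⟨nat_lit 0, nat_lit 10, [nat_lit 0, nat_lit 5, nat_lit 5, nat_lit 20], false, nat_lit 240, nat_lit 320, nat_lit 0, nat_lit 160, ⟨nat_lit 1000, nat_lit 0, nat_lit 0, nat_lit 0, nat_lit 0, nat_lit 0, nat_lit 0, nat_lit 0, nat_lit 0, nat_lit 0, nat_lit 0, nat_lit 0, nat_lit 0, nat_lit 0, nat_lit 0, nat_lit 0, false, false⟩,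
 nat_lit 0, nat_lit 9302, nat_lit 0, nat_lit 23325, nat_lit 6439, nat_lit 12081, nat_lit 1155, nat_lit 0, nat_lit 0, nat_lit 4640, nat_lit 0, nat_lit 0, nat_lit 0, nat_lit 0, nat_lit 0, nat_lit 0, nat_lit 0, nat_lit 0, [],
 ⟨p055_k6, nat_lit 0, nat_lit 0, nat_lit 254, nat_lit 0, nat_lit 452724, [nat_lit 3282000000, nat_lit 4688000000, nat_lit 7968000000], [], [nat_lit 19993904140, nat_lit 21039197874, nat_lit 21933768268, nat_lit 23046196382, nat_lit 24061644820, nat_lit 25182318748, nat_lit 25795199712, nat_lit 27033356432], nat_lit 1271250, nat_lit 1271250, nat_lit 780000, nat_lit 1762500, nat_lit 1271250, nat_lit 1271250, [nat_lit 780000, nat_lit 1100000, nat_lit 1785000], [nat_lit 36, nat_lit 40, nat_lit 40, nat_lit 80, nat_lit 7, nat_lit 272, nat_lit 60, nat_lit 8]⟩, ⟨p055_k3, nat_lit 0, nat_lit 0, nat_lit 191, nat_lit 0, nat_lit 0, [nat_lit 6250000000, nat_lit 7968000000, nat_lit 11872000000], [], [nat_lit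 14380649368, nat_lit 17328551604, nat_lit 20036701384, nat_lit 23148544860, nat_lit 7567789180, nat_lit 10122412408, nat_lit 11483267780, nat_lit 14026180880], nat_lit 0, nat_lit 0, nat_lit 0, nat_lit 0, nat_lit 0, nat_lit 0, [], [nat_lit 53, nat_lit 40, nat_lit 40, nat_lit 80, nat_lit 14, nat_lit 401, nat_lit 175, nat_lit 11]⟩,
 zbF0, [⟨nat_lit 4, nat_lit 100, nat_lit 93, nat_lit 97, nat_lit 557489795⟩]⟩
noncomputable def p055_l106 : Lf2 := ⟨nat_lit 0, nat_lit 10, [nat_lit 0, nat_lit 5, nat_lit 5, nat_lit 20], false, nat_lit 240, nat_lit 320, nat_lit 160, nat_lit 384, ⟨nat_lit 719, nat_lit 0, nat_lit 281, nat_lit 5, nat_lit 166, nat_lit 281, nat_lit 214, nat_lit 281, nat_lit 4748, nat_lit 203, nat_lit 87041, nat_lit 287, nat_lit 43772571, nat_lit 0, nat_lit 0, nat_lit 4725671, false, false⟩,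
 nat_lit 0, nat_lit 8022, nat_lit 0, nat_lit 0, nat_lit 5553, nat_lit 5608, nat_lit 1094, nat_lit 0, nat_lit 0, nat_lit 0, nat_lit 0, nat_lit 0, nat_lit 0, nat_lit 0, nat_lit 0, nat_lit 281000, nat_lit 0, nat_lit 0, [(nat_lit 15, [(nat_lit 6, nat_lit 281)])],
 ⟨p055_k34, nat_lit 0, nat_lit 0, nat_lit 199, nat_lit 0, nat_lit 348885, [nat_lit 2635138000, nat_lit 3848798800, nat_lit 4252393200], [], [nat_lit 17816517902, nat_lit 18375963602, nat_lit 18227052684, nat_lit 18755166832, nat_lit 23071714906, nat_lit 23790632751, nat_lit 23304006276, nat_lit 23980563200], nat_lit 1271250, nat_lit 1271250, nat_lit 780000, nat_lit 1100001, nat_lit 1271250, nat_lit 1271250, [nat_lit 780000, nat_lit 1435000, nat_lit 1271250], [nat_lit 18, nat_lit 40, nat_lit 40, nat_lit 80, nat_lit 2, nat_lit 249, nat_lit 40, nat_lit 7]⟩, ⟨p055_k35, nat_lit 0, nat_lit 0, nat_lit 115, nat_lit 0, nat_lit 0, [nat_lit 4493750000, nat_lit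 7076398000, nat_lit 8535968000], [], [nat_lit 5505969700, nat_lit 7724059124, nat_lit 6350062496, nat_lit 8405069096, nat_lit 19127378458, nat_lit 20022332743, nat_lit 19041943853, nat_lit 19862563056], nat_lit 0, nat_lit 0, nat_lit 0, nat_lit 0, nat_lit 0, nat_lit 0, [], [nat_lit 46, nat_lit 40, nat_lit 40, nat_lit 80, nat_lit 41, nat_lit 428, nat_lit 200, nat_lit 11]⟩,
 ⟨nat_lit 4743, nat_lit 5000, ⟨.ofNat (nat_lit 357141), .ofNat (nat_lit 428570), .ofNat (nat_lit 399997), .ofNat (nat_lit 471424), .ofNat (nat_lit 360599), .ofNat (nat_lit 430299), .ofNat (nat_lit 403574), .ofNat (nat_lit 473272)⟩, ⟨.ofNat (nat_lit 442856), .ofNat (nat_lit 585713), .ofNat (nat_lit 485713), .ofNat (nat_lit 628570), .ofNat (nat_lit 440769), .ofNat (nat_lit 580169), .ofNat (nat_lit 483746), .ofNat (nat_lit 623145)⟩⟩, [⟨nat_lit 4, nat_lit 100, nat_lit 97, nat_lit 98, nat_lit 210382508⟩, ⟨nat_lit 23, nat_lit 96, nat_lit 69, nat_lit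 100, nat_lit 465247121⟩]⟩
noncomputable def p055_l107 : Lf2 := ⟨nat_lit 0, nat_lit 10, [nat_lit 0, nat_lit 5, nat_lit 5, nat_lit 20], false, nat_lit 240, nat_lit 312, nat_lit 160, nat_lit 384, ⟨nat_lit 635, nat_lit 0, nat_lit 365, nat_lit 5, nat_lit 167, nat_lit 365, nat_lit 209, nat_lit 365, nat_lit 1989, nat_lit 209, nat_lit 82925, nat_lit 285, nat_lit 44043143, nat_lit 0, nat_lit 0, nat_lit 4704354, false, false⟩,
 nat_lit 0, nat_lit 6472, nat_lit 0, nat_lit 0, nat_lit 4665, nat_lit 4952, nat_lit 733, nat_lit 0, nat_lit 0, nat_lit 0, nat_lit 0, nat_lit 0, nat_lit 0, nat_lit 0, nat_lit 0, nat_lit 365000, nat_lit 0, nat_lit 0, [(nat_lit 15, [(nat_lit 6, nat_lit 365)])],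
 ⟨p055_k36, nat_lit 0, nat_lit 0, nat_lit 246, nat_lit 0, nat_lit 428062, [nat_lit 2441770000, nat_lit 3131002001, nat_lit 3141678000], [], [nat_lit 19550071236, nat_lit 20067664800, nat_lit 20046509970, nat_lit 20598684500, nat_lit 22848737654, nat_lit 23342134823, nat_lit 23218954418, nat_lit 23683962747], nat_lit 1271250, nat_lit 1271250, nat_lit 780000, nat_lit 1100001, nat_lit 1271250, nat_lit 1271250, [nat_lit 780000, nat_lit 1435000, nat_lit 1271250], [nat_lit 18, nat_lit 40, nat_lit 40, nat_lit 80, nat_lit 2, nat_lit 249, nat_lit 40, nat_lit 7]⟩, ⟨p055_k35, nat_lit 0, nat_lit 0, nat_lit 115, nat_lit 0, nat_lit 0, [nat_lit 3968750000, nat_lit 6249670000, nat_lit 7538720000], [], [nat_lit 4864209716, nat_lit 6822973956, nat_lit 5609678688, nat_lit 7424432584, nat_lit 16893014426, nat_lit 17682327264, nat_lit 16817664634, nat_lit 17542396144], nat_lit 0, nat_lit 0, nat_lit 0, nat_lit 0, nat_lit 0, nat_lit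 0, [], [nat_lit 46, nat_lit 40, nat_lit 40, nat_lit 80, nat_lit 41, nat_lit 428, nat_lit 200, nat_lit 11]⟩,
 ⟨nat_lit 4472, nat_lit 4744, ⟨.ofNat (nat_lit 360599), .ofNat (nat_lit 430299), .ofNat (nat_lit 403571), .ofNat (nat_lit 473270), .ofNat (nat_lit 364042), .ofNat (nat_lit 432020), .ofNat (nat_lit 407171), .ofNat (nat_lit 475149)⟩, ⟨.ofNat (nat_lit 440769), .ofNat (nat_lit 566229), .ofNat (nat_lit 483746), .ofNat (nat_lit 609205), .ofNat (nat_lit 438578), .ofNat (nat_lit 560938), .ofNat (nat_lit 481711), .ofNat (nat_lit 604071)⟩⟩, [⟨nat_lit 4, nat_lit 100, nat_lit 90, nat_lit 95, nat_lit 195828934⟩, ⟨nat_lit 19, nat_lit 100, nat_lit 59, nat_lit 87, nat_lit 80919630⟩, ⟨nat_lit 23, nat_lit 97, nat_lit 67, nat_lit 100, nat_lit 334584409⟩]⟩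
noncomputable def p055_l108 : Lf2 := ⟨nat_lit 0, nat_lit 10, [nat_lit 0, nat_lit 5, nat_lit 5, nat_lit 20], false, nat_lit 240, nat_lit 320, nat_lit 160, nat_lit 384, ⟨nat_lit 800, nat_lit 200, nat_lit 0, nat_lit 5, nat_lit 209, nat_lit 200, nat_lit 213, nat_lit 0, nat_lit 0, nat_lit 0, nat_lit 0, nat_lit 0, nat_lit 40916126, nat_lit 12835702, nat_lit 13248172, nat_lit 5061693, false, false⟩,
 nat_lit 0, nat_lit 8198, nat_lit 0, nat_lit 215, nat_lit 5675, nat_lit 6253, nat_lit 1336, nat_lit 0, nat_lit 0, nat_lit 0, nat_lit 0, nat_lit 0, nat_lit 0, nat_lit 0, nat_lit 0, nat_lit 80000, nat_lit 0, nat_lit 0, [(nat_lit 15, [(nat_lit 1, nat_lit 200)])],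
 ⟨p055_k6, nat_lit 0, nat_lit 0, nat_lit 243, nat_lit 0, nat_lit 452724, [nat_lit 3029640000, nat_lit 4217760001, nat_lit 6837600000], [], [nat_lit 19500081351, nat_lit 20424350802, nat_lit 21230591352, nat_lit 22268224300, nat_lit 23364505100, nat_lit 24733114900, nat_lit 25416402400, nat_lit 26579320400], nat_lit 1271250, nat_lit 1271250, nat_lit 1100001, nat_lit 1785000, nat_lit 1271250, nat_lit 1271250, [nat_lit 780000, nat_lit 1100000, nat_lit 1785000], [nat_lit 36, nat_lit 40, nat_lit 40, nat_lit 80, nat_lit 7, nat_lit 272, nat_lit 60, nat_lit 8]⟩, ⟨p055_k3, nat_lit 0, nat_lit 0, nat_lit 80, nat_lit 0, nat_lit 0, [nat_lit 5000000000, nat_lit 6374400000, nat_lit 9497600000], [], [nat_lit 7041555092, nat_lit 9330777176, nat_lit 10684730860, nat_lit 12529437140, nat_lit 21181189047, nat_lit 22094507316, nat_lit 22505983786, nat_lit 23424979784], nat_lit 0, nat_lit 0, nat_lit 0, nat_lit 0, nat_lit 0, nat_lit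 0, [], [nat_lit 53, nat_lit 40, nat_lit 40, nat_lit 80, nat_lit 14, nat_lit 456, nat_lit 225, nat_lit 11]⟩,
 ⟨nat_lit 4472, nat_lit 5000, ⟨.ofNat (nat_lit 428570), .ofNat (nat_lit 571423), .ofNat (nat_lit 471408), .ofNat (nat_lit 614256), .ofNat (nat_lit 432020), .ofNat (nat_lit 567973), .ofNat (nat_lit 475134), .ofNat (nat_lit 611081)⟩, ⟨.ofNat (nat_lit 442856), .ofNat (nat_lit 585713), .ofNat (nat_lit 485713), .ofNat (nat_lit 628570), .ofNat (nat_lit 438578), .ofNat (nat_lit 574534), .ofNat (nat_lit 481711), .ofNat (nat_lit 617667)⟩⟩, [⟨nat_lit 4, nat_lit 100, nat_lit 93, nat_lit 97, nat_lit 316392343⟩, ⟨nat_lit 19, nat_lit 100, nat_lit 59, nat_lit 87, nat_lit 76212663⟩, ⟨nat_lit 23, nat_lit 92, nat_lit 40, nat_lit 100, nat_lit 431504731⟩]⟩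
noncomputable def p055_l109 : Lf2 := ⟨nat_lit 0, nat_lit 10, [nat_lit 0, nat_lit 5, nat_lit 5, nat_lit 20], false, nat_lit 0, nat_lit 320, nat_lit 0, nat_lit 160, ⟨nat_lit 1000, nat_lit 0, nat_lit 0, nat_lit 0, nat_lit 0, nat_lit 0, nat_lit 0, nat_lit 0, nat_lit 0, nat_lit 0, nat_lit 0, nat_lit 0, nat_lit 0, nat_lit 0, nat_lit 0, nat_lit 0, false, false⟩,
 nat_lit 0, nat_lit 8221, nat_lit 0, nat_lit 0, nat_lit 5691, nat_lit 9652, nat_lit 1924, nat_lit 0, nat_lit 0, nat_lit 0, nat_lit 0, nat_lit 0, nat_lit 0, nat_lit 0, nat_lit 0, nat_lit 0, nat_lit 0, nat_lit 0, [],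
 ⟨p055_k1, nat_lit 0, nat_lit 0, nat_lit 364, nat_lit 0, nat_lit 452724, [nat_lit 3282000000, nat_lit 7968000000], [], [nat_lit 25148259136, nat_lit 25985765864, nat_lit 35249384836, nat_lit 36436727497, nat_lit 26605608336, nat_lit 27146907988, nat_lit 33292515037, nat_lit 34006899652], nat_lit 1271250, nat_lit 1271250, nat_lit 1271250, nat_lit 1271250, nat_lit 0, nat_lit 2260000, [nat_lit 780000, nat_lit 1762500], [nat_lit 74, nat_lit 40, nat_lit 40, nat_lit 80, nat_lit 43, nat_lit 317, nat_lit 100, nat_lit 10]⟩, ⟨p055_k5, nat_lit 0, nat_lit 0, nat_lit 239, nat_lit 0, nat_lit 0, [nat_lit 6250000000, nat_lit 11872000000], [], [nat_lit 33262334208, nat_lit 35148934672, nat_lit 46902560391, nat_lit 47514498695, nat_lit 25914939552, nat_lit 27195755312, nat_lit 37045581037, nat_lit 37559214864], nat_lit 0, nat_lit 0, nat_lit 0, nat_lit 0, nat_lit 0, nat_lit 0, [], [nat_lit 107, nat_lit 40, nat_lit 40, nat_lit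 80, nat_lit 12, nat_lit 428, nat_lit 200, nat_lit 11]⟩,
 zbF0, [⟨nat_lit 16, nat_lit 93, nat_lit 100, nat_lit 97, nat_lit 34767901⟩, ⟨nat_lit 21, nat_lit 85, nat_lit 100, nat_lit 84, nat_lit 162684193⟩]⟩
noncomputable def p055_l110 : Lf2 := ⟨nat_lit 0, nat_lit 10, [nat_lit 0, nat_lit 5, nat_lit 5, nat_lit 20], false, nat_lit 0, nat_lit 320, nat_lit 160, nat_lit 384, ⟨nat_lit 1000, nat_lit 0, nat_lit 0, nat_lit 0, nat_lit 0, nat_lit 0, nat_lit 0, nat_lit 0, nat_lit 0, nat_lit 0, nat_lit 0, nat_lit 0, nat_lit 0, nat_lit 0, nat_lit 0, nat_lit 0, false, false⟩,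
 nat_lit 0, nat_lit 8628, nat_lit 0, nat_lit 4076, nat_lit 5973, nat_lit 6415, nat_lit 1660, nat_lit 0, nat_lit 0, nat_lit 0, nat_lit 0, nat_lit 0, nat_lit 0, nat_lit 0, nat_lit 0, nat_lit 0, nat_lit 0, nat_lit 0, [],
 ⟨p055_k1, nat_lit 0, nat_lit 0, nat_lit 364, nat_lit 0, nat_lit 452724, [nat_lit 3282000000, nat_lit 7968000000], [], [nat_lit 25899483808, nat_lit 26812176124, nat_lit 35988064547, nat_lit 37202748011, nat_lit 26209287408, nat_lit 26756501164, nat_lit 33606379909, nat_lit 34330684157], nat_lit 1271250, nat_lit 1271250, nat_lit 1271250, nat_lit 1271250, nat_lit 0, nat_lit 2260000, [nat_lit 780000, nat_lit 1762500], [nat_lit 74, nat_lit 40, nat_lit 40, nat_lit 80, nat_lit 43, nat_lit 317, nat_lit 100, nat_lit 10]⟩, ⟨p055_k5, nat_lit 0, nat_lit 0, nat_lit 96, nat_lit 0, nat_lit 0, [nat_lit 6250000000, nat_lit 11872000000], [], [nat_lit 15496715300, nat_lit 17599192700, nat_lit 27794079728, nat_lit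 28853151036, nat_lit 28691383589, nat_lit 29578573717, nat_lit 35498788380, nat_lit 35918628682], nat_lit 0, nat_lit 0, nat_lit 0, nat_lit 0, nat_lit 0, nat_lit 0, [], [nat_lit 107, nat_lit 40, nat_lit 40, nat_lit 80, nat_lit 12, nat_lit 538, nat_lit 300, nat_lit 13]⟩,
 zbF0, [⟨nat_lit 4, nat_lit 100, nat_lit 93, nat_lit 97, nat_lit 155878712⟩, ⟨nat_lit 7, nat_lit 59, nat_lit 100, nat_lit 87, nat_lit 457297815⟩]⟩
noncomputable def b_V_700_500_20_6 : St := ⟨true, nat_lit 1, nat_lit 0, nat_lit 1, nat_lit 120, nat_lit 300, nat_lit 320, nat_lit 200, nat_lit 240, nat_lit 16, nat_lit 396, nat_lit 80, nat_lit 120, nat_lit 0, nat_lit 336, nat_lit 0, nat_lit 384, nat_lit 0, nat_lit 40, nat_lit 0, nat_lit 0, nat_lit 0, nat_lit 0⟩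
theorem d_V_700_500_20_6 (h : EB TB.env) : Dead b_V_700_500_20_6 := chkB_sound0 h (T :=
(.trZ (nat_lit 0) (nat_lit 100) (nat_lit 87) (nat_lit 50) (nat_lit 24) (.trX (nat_lit 13) (nat_lit 88) (nat_lit 32) (nat_lit 100) (nat_lit 392) (.trX (nat_lit 16) (nat_lit 94) (nat_lit 88) (nat_lit 100) (nat_lit 320) (.spl (nat_lit 2) (nat_lit 240)
(.spl (nat_lit 4) (nat_lit 160)
(.spl (nat_lit 2) (nat_lit 160)
(.spl (nat_lit 2) (nat_lit 80)
(.leaf p055_l87)
(.leaf p055_l88))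
(.leaf p055_l89))
(.spl (nat_lit 4) (nat_lit 240)
(.spl (nat_lit 2) (nat_lit 160)
(.spl (nat_lit 0) (nat_lit 310)
(.leaf p055_l90)
(.trZ (nat_lit 0) (nat_lit 100) (nat_lit 84) (nat_lit 55) (nat_lit 32) (.leaf p055_l91)))
(.leaf p055_l92))
(.spl (nat_lit 2) (nat_lit 120)
(.trX (nat_lit 23) (nat_lit 100) (nat_lit 59) (nat_lit 94) (nat_lit 364) (.spl (nat_lit 2) (nat_lit 80)
(.trX (nat_lit 23) (nat_lit 100) (nat_lit 76) (nat_lit 82) (nat_lit 336) (.spl (nat_lit 6) (nat_lit 20)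
(.spl (nat_lit 2) (nat_lit 40)
(.trX (nat_lit 23) (nat_lit 100) (nat_lit 92) (nat_lit 61) (nat_lit 288) (.leaf p055_l93))
(.spl (nat_lit 0) (nat_lit 310)
(.spl (nat_lit 6) (nat_lit 8)
(.leaf p055_l94)
(.leaf p055_l95))
(.trX (nat_lit 16) (nat_lit 91) (nat_lit 91) (nat_lit 100) (nat_lit 312) (.spl (nat_lit 3) (nat_lit 100)
(.trX (nat_lit 16) (nat_lit 93) (nat_lit 100) (nat_lit 97) (nat_lit 292) (.leaf p055_l96))
(.leaf p055_l97)))))
(.leaf p055_l98)))
(.spl (nat_lit 2) (nat_lit 100)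
(.trX (nat_lit 23) (nat_lit 100) (nat_lit 68) (nat_lit 88) (nat_lit 352) (.spl (nat_lit 0) (nat_lit 310)
(.leaf p055_l99)
(.trX (nat_lit 16) (nat_lit 91) (nat_lit 91) (nat_lit 100) (nat_lit 312) (.leaf p055_l100))))
(.spl (nat_lit 5) (nat_lit 160)
(.leaf p055_l101)
(.spl (nat_lit 0) (nat_lit 310)
(.leaf p055_l102)
(.trX (nat_lit 16) (nat_lit 91) (nat_lit 91) (nat_lit 100) (nat_lit 312) (.spl (nat_lit 0) (nat_lit 315)
(.leaf p055_l103)
(.trX (nat_lit 16) (nat_lit 89) (nat_lit 93) (nat_lit 100) (nat_lit 304) (.leaf p055_l104)))))))))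
(.spl (nat_lit 5) (nat_lit 160)
(.leaf p055_l105)
(.spl (nat_lit 2) (nat_lit 160)
(.spl (nat_lit 0) (nat_lit 310)
(.leaf p055_l106)
(.trX (nat_lit 16) (nat_lit 91) (nat_lit 91) (nat_lit 100) (nat_lit 312) (.leaf p055_l107)))
(.leaf p055_l108))))))
(.spl (nat_lit 5) (nat_lit 160)
(.leaf p055_l109)
(.leaf p055_l110))))))) (by decide +kernel)
noncomputable def p055_l111 : Lf2 := ⟨nat_lit 0, nat_lit 10, [nat_lit 0, nat_lit 5, nat_lit 5, nat_lit 20], false, nat_lit 0, nat_lit 160, nat_lit 0, nat_lit 384, ⟨nat_lit 0, nat_lit 0, nat_lit 1000, nat_lit 5, nat_lit 112, nat_lit 1000, nat_lit 64, nat_lit 1000, nat_lit 38400, nat_lit 263, nat_lit 117600, nat_lit 299, nat_lit 62132479, nat_lit 0, nat_lit 0, nat_lit 1302191, false, false⟩,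
 nat_lit 0, nat_lit 5183, nat_lit 0, nat_lit 1612, nat_lit 3297, nat_lit 0, nat_lit 0, nat_lit 0, nat_lit 0, nat_lit 0, nat_lit 0, nat_lit 0, nat_lit 0, nat_lit 0, nat_lit 165, nat_lit 772000, nat_lit 0, nat_lit 0, [(nat_lit 12, [(nat_lit 5, nat_lit 380), (nat_lit 6, nat_lit 620)])],
 ⟨p055_k0, nat_lit 0, nat_lit 0, nat_lit 370, nat_lit 0, nat_lit 173108, [nat_lit 3664732001, nat_lit 1401252001, nat_lit 342424000], [], [nat_lit 15621054388, nat_lit 16751474472, nat_lit 15370297739, nat_lit 16744769323, nat_lit 16120885360, nat_lit 17403491359, nat_lit 19855462903, nat_lit 18362554927], nat_lit 1271250, nat_lit 1271250, nat_lit 88400, nat_lit 780000, nat_lit 0, nat_lit 1100001, [nat_lit 780000, nat_lit 1762500, nat_lit 1271250], [nat_lit 99, nat_lit 40, nat_lit 40, nat_lit 80, nat_lit 17, nat_lit 289, nat_lit 75, nat_lit 9]⟩, ⟨p055_k5, nat_lit 0, nat_lit 0, nat_lit 516, nat_lit 0, nat_lit 290698, [nat_lit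 0, nat_lit 0], [], [nat_lit 0, nat_lit 0, nat_lit 0, nat_lit 0, nat_lit 0, nat_lit 0, nat_lit 0, nat_lit 0], nat_lit 1271250, nat_lit 1271250, nat_lit 88400, nat_lit 780000, nat_lit 0, nat_lit 2712000, [nat_lit 1412500, nat_lit 1271250], [nat_lit 107, nat_lit 40, nat_lit 40, nat_lit 80, nat_lit 12, nat_lit 428, nat_lit 200, nat_lit 12]⟩,
 ⟨nat_lit 5000, nat_lit 5478, ⟨.ofNat (nat_lit 155307), .ofNat (nat_lit 350132), .ofNat (nat_lit 198021), .ofNat (nat_lit 392847), .ofNat (nat_lit 171427), .ofNat (nat_lit 357141), .ofNat (nat_lit 214284), .ofNat (nat_lit 399998)⟩, ⟨.negSucc (nat_lit 2832), .ofNat (nat_lit 296923), .ofNat (nat_lit 0), .ofNat (nat_lit 339637), .ofNat (nat_lit 0), .ofNat (nat_lit 299999), .ofNat (nat_lit 0), .ofNat (nat_lit 342856)⟩⟩, [⟨nat_lit 0, nat_lit 100, nat_lit 88, nat_lit 68, nat_lit 44570833⟩]⟩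
noncomputable def p055_l112 : Lf2 := ⟨nat_lit 0, nat_lit 10, [nat_lit 0, nat_lit 5, nat_lit 5, nat_lit 20], false, nat_lit 0, nat_lit 160, nat_lit 0, nat_lit 384, ⟨nat_lit 0, nat_lit 0, nat_lit 1000, nat_lit 5, nat_lit 119, nat_lit 939, nat_lit 65, nat_lit 1000, nat_lit 38400, nat_lit 263, nat_lit 135000, nat_lit 305, nat_lit 61520594, nat_lit 0, nat_lit 0, nat_lit 1415499, false, false⟩,
 nat_lit 0, nat_lit 4913, nat_lit 0, nat_lit 0, nat_lit 3401, nat_lit 0, nat_lit 134, nat_lit 0, nat_lit 0, nat_lit 0, nat_lit 0, nat_lit 0, nat_lit 0, nat_lit 0, nat_lit 94, nat_lit 400000, nat_lit 0, nat_lit 0, [(nat_lit 15, [(nat_lit 5, nat_lit 1000)])],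
 ⟨p055_k1, nat_lit 0, nat_lit 0, nat_lit 353, nat_lit 0, nat_lit 283941, [nat_lit 2443200000, nat_lit 153000000], [], [nat_lit 17850385495, nat_lit 18560895736, nat_lit 16594105920, nat_lit 17836513000, nat_lit 17112346955, nat_lit 18265753153, nat_lit 19498066942, nat_lit 18464069832], nat_lit 1271250, nat_lit 1271250, nat_lit 134400, nat_lit 780000, nat_lit 0, nat_lit 1100001, [nat_lit 780000, nat_lit 1762500], [nat_lit 74, nat_lit 40, nat_lit 40, nat_lit 80, nat_lit 43, nat_lit 289, nat_lit 75, nat_lit 10]⟩, ⟨p055_k5, nat_lit 0, nat_lit 0, nat_lit 642, nat_lit 0, nat_lit 530082, [nat_lit 0, nat_lit 0], [], [nat_lit 0, nat_lit 0, nat_lit 0, nat_lit 0, nat_lit 0, nat_lit 0, nat_lit 0, nat_lit 0], nat_lit 1271250, nat_lit 1271250, nat_lit 134400, nat_lit 780000, nat_lit 0, nat_lit 2712000, [nat_lit 1412500, nat_lit 1271250], [nat_lit 107, nat_lit 40, nat_lit 40, nat_lit 80, nat_lit 12, nat_lit 428, nat_lit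 200, nat_lit 11]⟩,
 ⟨nat_lit 4472, nat_lit 5000, ⟨.ofNat (nat_lit 185713), .ofNat (nat_lit 357141), .ofNat (nat_lit 228562), .ofNat (nat_lit 399984), .ofNat (nat_lit 200895), .ofNat (nat_lit 364042), .ofNat (nat_lit 244020), .ofNat (nat_lit 407160)⟩, ⟨.ofNat (nat_lit 0), .ofNat (nat_lit 299999), .ofNat (nat_lit 0), .ofNat (nat_lit 342856), .ofNat (nat_lit 0), .ofNat (nat_lit 302621), .ofNat (nat_lit 0), .ofNat (nat_lit 345754)⟩⟩, [⟨nat_lit 0, nat_lit 100, nat_lit 82, nat_lit 76, nat_lit 145720838⟩]⟩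
noncomputable def b_V_700_500_20_7 : St := ⟨true, nat_lit 1, nat_lit 1, nat_lit 1, nat_lit 120, nat_lit 280, nat_lit 320, nat_lit 200, nat_lit 240, nat_lit 16, nat_lit 120, nat_lit 80, nat_lit 120, nat_lit 0, nat_lit 160, nat_lit 0, nat_lit 384, nat_lit 0, nat_lit 40, nat_lit 0, nat_lit 0, nat_lit 0, nat_lit 0⟩
theorem d_V_700_500_20_7 (h : EB TB.env) : Dead b_V_700_500_20_7 := chkB_sound0 h (T :=
(.spl (nat_lit 0) (nat_lit 300)
(.leaf p055_l111)
(.trZ (nat_lit 0) (nat_lit 100) (nat_lit 87) (nat_lit 50) (nat_lit 24) (.leaf p055_l112)))) (by decide +kernel)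
noncomputable def p055_l113 : Lf2 := ⟨nat_lit 0, nat_lit 2, [nat_lit 10, nat_lit 5, nat_lit 5, nat_lit 20], true, nat_lit 240, nat_lit 280, nat_lit 0, nat_lit 288, ⟨nat_lit 0, nat_lit 179, nat_lit 821, nat_lit 5, nat_lit 83, nat_lit 1000, nat_lit 197, nat_lit 821, nat_lit 10417, nat_lit 236, nat_lit 64067, nat_lit 277, nat_lit 50642621, nat_lit 3389348, nat_lit 12968031, nat_lit 3590800, false, false⟩,
 nat_lit 0, nat_lit 5407, nat_lit 0, nat_lit 0, nat_lit 3440, nat_lit 0, nat_lit 0, nat_lit 0, nat_lit 0, nat_lit 0, nat_lit 0, nat_lit 0, nat_lit 0, nat_lit 0, nat_lit 40, nat_lit 892600, nat_lit 0, nat_lit 0, [(nat_lit 12, [(nat_lit 1, nat_lit 179), (nat_lit 6, nat_lit 821)])],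
 ⟨p055_k16, nat_lit 0, nat_lit 0, nat_lit 139, nat_lit 0, nat_lit 150086, [nat_lit 1787168801, nat_lit 361335199], [], [nat_lit 17162335969, nat_lit 18416027376, nat_lit 16584140160, nat_lit 17681870560, nat_lit 19508156561, nat_lit 20895008904, nat_lit 18497790802, nat_lit 19873545000], nat_lit 1271250, nat_lit 1271250, nat_lit 88400, nat_lit 230001, nat_lit 1271250, nat_lit 1271250, [nat_lit 780000, nat_lit 1435000], [nat_lit 49, nat_lit 40, nat_lit 40, nat_lit 80, nat_lit 16, nat_lit 215, nat_lit 10, nat_lit 7]⟩, C1.Rw.none,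
 ⟨nat_lit 5000, nat_lit 5478, ⟨.ofNat (nat_lit 155307), .ofNat (nat_lit 200266), .ofNat (nat_lit 198021), .ofNat (nat_lit 242980), .ofNat (nat_lit 171427), .ofNat (nat_lit 214284), .ofNat (nat_lit 214284), .ofNat (nat_lit 257141)⟩, ⟨.ofNat (nat_lit 446789), .ofNat (nat_lit 521722), .ofNat (nat_lit 468146), .ofNat (nat_lit 543079), .ofNat (nat_lit 442856), .ofNat (nat_lit 514284), .ofNat (nat_lit 464284), .ofNat (nat_lit 535713)⟩⟩, [⟨nat_lit 0, nat_lit 100, nat_lit 90, nat_lit 54, nat_lit 593258201⟩]⟩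
noncomputable def p055_l114 : Lf2 := ⟨nat_lit 0, nat_lit 2, [nat_lit 10, nat_lit 5, nat_lit 5, nat_lit 20], true, nat_lit 280, nat_lit 320, nat_lit 0, nat_lit 248, ⟨nat_lit 0, nat_lit 1000, nat_lit 0, nat_lit 5, nat_lit 83, nat_lit 1000, nat_lit 226, nat_lit 0, nat_lit 0, nat_lit 0, nat_lit 0, nat_lit 0, nat_lit 47769633, nat_lit 3328252, nat_lit 15902115, nat_lit 3855787, false, false⟩,
 nat_lit 0, nat_lit 6717, nat_lit 0, nat_lit 681, nat_lit 4274, nat_lit 0, nat_lit 210, nat_lit 0, nat_lit 0, nat_lit 0, nat_lit 0, nat_lit 0, nat_lit 0, nat_lit 0, nat_lit 0, nat_lit 1000000, nat_lit 0, nat_lit 0, [(nat_lit 12, [(nat_lit 2, nat_lit 1000)])],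
 ⟨p055_k14, nat_lit 0, nat_lit 0, nat_lit 161, nat_lit 0, nat_lit 150086, [nat_lit 1992960000, nat_lit 2327840000, nat_lit 1636000000], [], [nat_lit 20666011543, nat_lit 21987646149, nat_lit 19785817840, nat_lit 20966181232, nat_lit 23355643631, nat_lit 24722062028, nat_lit 22072367904, nat_lit 23368827828], nat_lit 1271250, nat_lit 1271250, nat_lit 88400, nat_lit 230001, nat_lit 1271250, nat_lit 1271250, [nat_lit 780000, nat_lit 1100000, nat_lit 1442500], [nat_lit 59, nat_lit 40, nat_lit 40, nat_lit 80, nat_lit 3, nat_lit 215, nat_lit 10, nat_lit 7]⟩, C1.Rw.none,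
 ⟨nat_lit 5000, nat_lit 5478, ⟨.ofNat (nat_lit 155307), .ofNat (nat_lit 200266), .ofNat (nat_lit 198021), .ofNat (nat_lit 242980), .ofNat (nat_lit 171427), .ofNat (nat_lit 214284), .ofNat (nat_lit 214284), .ofNat (nat_lit 257141)⟩, ⟨.ofNat (nat_lit 521722), .ofNat (nat_lit 596655), .ofNat (nat_lit 543079), .ofNat (nat_lit 618012), .ofNat (nat_lit 514284), .ofNat (nat_lit 585713), .ofNat (nat_lit 535713), .ofNat (nat_lit 607141)⟩⟩, [⟨nat_lit 0, nat_lit 100, nat_lit 90, nat_lit 54, nat_lit 383485271⟩, ⟨nat_lit 16, nat_lit 100, nat_lit 88, nat_lit 94, nat_lit 237411750⟩]⟩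
noncomputable def p055_l115 : Lf2 := ⟨nat_lit 0, nat_lit 5, [nat_lit 4, nat_lit 5, nat_lit 5, nat_lit 20], true, nat_lit 240, nat_lit 320, nat_lit 0, nat_lit 288, ⟨nat_lit 0, nat_lit 0, nat_lit 1000, nat_lit 5, nat_lit 83, nat_lit 1000, nat_lit 211, nat_lit 1000, nat_lit 1855, nat_lit 206, nat_lit 64067, nat_lit 277, nat_lit 49208618, nat_lit 0, nat_lit 0, nat_lit 3731216, false, false⟩,
 nat_lit 0, nat_lit 4970, nat_lit 0, nat_lit 19950, nat_lit 3162, nat_lit 0, nat_lit 0, nat_lit 0, nat_lit 0, nat_lit 0, nat_lit 0, nat_lit 0, nat_lit 0, nat_lit 0, nat_lit 83, nat_lit 476200, nat_lit 0, nat_lit 0, [(nat_lit 12, [(nat_lit 5, nat_lit 873), (nat_lit 6, nat_lit 127)])],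
 ⟨p055_k13, nat_lit 0, nat_lit 0, nat_lit 160, nat_lit 0, nat_lit 69455, [nat_lit 2194737600, nat_lit 1989292001, nat_lit 81048267], [], [nat_lit 17366672914, nat_lit 18498040459, nat_lit 16851544217, nat_lit 17983056369, nat_lit 21730222556, nat_lit 22924633234, nat_lit 20809490825, nat_lit 21995816964], nat_lit 1271250, nat_lit 1271250, nat_lit 88400, nat_lit 230001, nat_lit 1271250, nat_lit 1271250, [nat_lit 780000, nat_lit 1100000, nat_lit 1785000], [nat_lit 36, nat_lit 40, nat_lit 40, nat_lit 80, nat_lit 7, nat_lit 215, nat_lit 10, nat_lit 6]⟩, C1.Rw.none,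
 ⟨nat_lit 5000, nat_lit 5478, ⟨.ofNat (nat_lit 155307), .ofNat (nat_lit 200266), .ofNat (nat_lit 198021), .ofNat (nat_lit 242980), .ofNat (nat_lit 171427), .ofNat (nat_lit 214284), .ofNat (nat_lit 214284), .ofNat (nat_lit 257141)⟩, ⟨.ofNat (nat_lit 446789), .ofNat (nat_lit 596655), .ofNat (nat_lit 468146), .ofNat (nat_lit 618012), .ofNat (nat_lit 442856), .ofNat (nat_lit 585713), .ofNat (nat_lit 464284), .ofNat (nat_lit 607141)⟩⟩, [⟨nat_lit 0, nat_lit 100, nat_lit 90, nat_lit 54, nat_lit 1738183552⟩, ⟨nat_lit 4, nat_lit 97, nat_lit 100, nat_lit 94, nat_lit 272948666⟩]⟩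
noncomputable def p055_l116 : Lf2 := ⟨nat_lit 0, nat_lit 2, [nat_lit 10, nat_lit 5, nat_lit 5, nat_lit 20], true, nat_lit 240, nat_lit 320, nat_lit 0, nat_lit 336, ⟨nat_lit 0, nat_lit 1000, nat_lit 0, nat_lit 5, nat_lit 105, nat_lit 1000, nat_lit 212, nat_lit 0, nat_lit 0, nat_lit 0, nat_lit 0, nat_lit 0, nat_lit 47853127, nat_lit 4784960, nat_lit 14361913, nat_lit 4032822, false, false⟩,
 nat_lit 0, nat_lit 6678, nat_lit 0, nat_lit 806, nat_lit 4249, nat_lit 0, nat_lit 274, nat_lit 0, nat_lit 0, nat_lit 0, nat_lit 0, nat_lit 0, nat_lit 0, nat_lit 0, nat_lit 0, nat_lit 1000000, nat_lit 0, nat_lit 0, [(nat_lit 12, [(nat_lit 2, nat_lit 1000)])],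
 ⟨p055_k14, nat_lit 0, nat_lit 0, nat_lit 119, nat_lit 0, nat_lit 91363, [nat_lit 1992960000, nat_lit 2327840000, nat_lit 1636000000], [], [nat_lit 17630709836, nat_lit 18234186581, nat_lit 17301279456, nat_lit 17913785535, nat_lit 22076305504, nat_lit 22661085968, nat_lit 21594969036, nat_lit 22105933579], nat_lit 1271250, nat_lit 1271250, nat_lit 230001, nat_lit 490000, nat_lit 1271250, nat_lit 1271250, [nat_lit 780000, nat_lit 1100000, nat_lit 1442500], [nat_lit 59, nat_lit 40, nat_lit 40, nat_lit 80, nat_lit 3, nat_lit 226, nat_lit 20, nat_lit 8]⟩, C1.Rw.none,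
 ⟨nat_lit 5244, nat_lit 5478, ⟨.ofNat (nat_lit 200266), .ofNat (nat_lit 275199), .ofNat (nat_lit 242980), .ofNat (nat_lit 317913), .ofNat (nat_lit 207314), .ofNat (nat_lit 280485), .ofNat (nat_lit 250085), .ofNat (nat_lit 323256)⟩, ⟨.ofNat (nat_lit 446789), .ofNat (nat_lit 596655), .ofNat (nat_lit 468146), .ofNat (nat_lit 618012), .ofNat (nat_lit 444857), .ofNat (nat_lit 591199), .ofNat (nat_lit 466242), .ofNat (nat_lit 612585)⟩⟩, [⟨nat_lit 0, nat_lit 100, nat_lit 91, nat_lit 63, nat_lit 107978547⟩, ⟨nat_lit 16, nat_lit 100, nat_lit 88, nat_lit 94, nat_lit 217475208⟩, ⟨nat_lit 4, nat_lit 94, nat_lit 100, nat_lit 92, nat_lit 10486281⟩]⟩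
noncomputable def p055_l117 : Lf2 := ⟨nat_lit 0, nat_lit 2, [nat_lit 10, nat_lit 5, nat_lit 5, nat_lit 20], true, nat_lit 240, nat_lit 312, nat_lit 0, nat_lit 336, ⟨nat_lit 0, nat_lit 306, nat_lit 694, nat_lit 5, nat_lit 107, nat_lit 1000, nat_lit 208, nat_lit 694, nat_lit 2384, nat_lit 213, nat_lit 109350, nat_lit 296, nat_lit 48112612, nat_lit 4968389, nat_lit 13918999, nat_lit 4026567, false, false⟩,
 nat_lit 0, nat_lit 5016, nat_lit 0, nat_lit 582, nat_lit 3331, nat_lit 0, nat_lit 133, nat_lit 0, nat_lit 0, nat_lit 0, nat_lit 0, nat_lit 0, nat_lit 0, nat_lit 0, nat_lit 13, nat_lit 816400, nat_lit 0, nat_lit 0, [(nat_lit 12, [(nat_lit 1, nat_lit 306), (nat_lit 6, nat_lit 694)])],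
 ⟨p055_k40, nat_lit 0, nat_lit 0, nat_lit 129, nat_lit 0, nat_lit 142571, [nat_lit 1580923201, nat_lit 310132799], [], [nat_lit 17775994189, nat_lit 18317501344, nat_lit 17659094171, nat_lit 18181226528, nat_lit 21097782424, nat_lit 21718043696, nat_lit 20893795471, nat_lit 21393112440], nat_lit 1271250, nat_lit 1271250, nat_lit 230001, nat_lit 490000, nat_lit 1271250, nat_lit 1271250, [nat_lit 780000, nat_lit 1435000], [nat_lit 49, nat_lit 40, nat_lit 40, nat_lit 80, nat_lit 16, nat_lit 226, nat_lit 20, nat_lit 8]⟩, C1.Rw.none,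
 ⟨nat_lit 5000, nat_lit 5245, ⟨.ofNat (nat_lit 207314), .ofNat (nat_lit 280485), .ofNat (nat_lit 250085), .ofNat (nat_lit 323256), .ofNat (nat_lit 214284), .ofNat (nat_lit 285713), .ofNat (nat_lit 257141), .ofNat (nat_lit 328570)⟩, ⟨.ofNat (nat_lit 444857), .ofNat (nat_lit 576565), .ofNat (nat_lit 466242), .ofNat (nat_lit 597950), .ofNat (nat_lit 442856), .ofNat (nat_lit 571427), .ofNat (nat_lit 464284), .ofNat (nat_lit 592856)⟩⟩, [⟨nat_lit 0, nat_lit 100, nat_lit 88, nat_lit 68, nat_lit 132515440⟩, ⟨nat_lit 16, nat_lit 100, nat_lit 94, nat_lit 97, nat_lit 222423232⟩]⟩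
noncomputable def p055_l118 : Lf2 := ⟨nat_lit 0, nat_lit 5, [nat_lit 4, nat_lit 5, nat_lit 5, nat_lit 20], true, nat_lit 240, nat_lit 320, nat_lit 0, nat_lit 336, ⟨nat_lit 0, nat_lit 386, nat_lit 614, nat_lit 5, nat_lit 106, nat_lit 1000, nat_lit 211, nat_lit 614, nat_lit 1855, nat_lit 206, nat_lit 106667, nat_lit 295, nat_lit 47848808, nat_lit 4870791, nat_lit 14280401, nat_lit 4042164, false, false⟩,
 nat_lit 0, nat_lit 5505, nat_lit 0, nat_lit 4692, nat_lit 3503, nat_lit 0, nat_lit 0, nat_lit 0, nat_lit 0, nat_lit 0, nat_lit 0, nat_lit 0, nat_lit 0, nat_lit 0, nat_lit 43, nat_lit 673600, nat_lit 0, nat_lit 0, [(nat_lit 12, [(nat_lit 1, nat_lit 386), (nat_lit 5, nat_lit 158), (nat_lit 6, nat_lit 456)])],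
 ⟨p055_k13, nat_lit 0, nat_lit 0, nat_lit 139, nat_lit 0, nat_lit 69455, [nat_lit 1911716400, nat_lit 2161998400, nat_lit 114432534], [], [nat_lit 17546597458, nat_lit 18571497006, nat_lit 17360026634, nat_lit 18349655994, nat_lit 21437410156, nat_lit 22416857166, nat_lit 21183834692, nat_lit 22129362934], nat_lit 1271250, nat_lit 1271250, nat_lit 230001, nat_lit 490000, nat_lit 1271250, nat_lit 1271250, [nat_lit 780000, nat_lit 1100000, nat_lit 1785000], [nat_lit 36, nat_lit 40, nat_lit 40, nat_lit 80, nat_lit 7, nat_lit 226, nat_lit 20, nat_lit 7]⟩, C1.Rw.none,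
 ⟨nat_lit 5000, nat_lit 5478, ⟨.ofNat (nat_lit 200266), .ofNat (nat_lit 275199), .ofNat (nat_lit 242980), .ofNat (nat_lit 317913), .ofNat (nat_lit 214284), .ofNat (nat_lit 285713), .ofNat (nat_lit 257141), .ofNat (nat_lit 328570)⟩, ⟨.ofNat (nat_lit 446789), .ofNat (nat_lit 596655), .ofNat (nat_lit 468146), .ofNat (nat_lit 618012), .ofNat (nat_lit 442856), .ofNat (nat_lit 585713), .ofNat (nat_lit 464284), .ofNat (nat_lit 607141)⟩⟩, [⟨nat_lit 0, nat_lit 100, nat_lit 88, nat_lit 68, nat_lit 134283422⟩, ⟨nat_lit 4, nat_lit 97, nat_lit 100, nat_lit 94, nat_lit 244151815⟩]⟩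
noncomputable def p055_l119 : Lf2 := ⟨nat_lit 1, nat_lit 1, [nat_lit 19, nat_lit 5, nat_lit 5, nat_lit 20], false, nat_lit 240, nat_lit 336, nat_lit 0, nat_lit 288, zbN0,
 nat_lit 0, nat_lit 0, nat_lit 0, nat_lit 0, nat_lit 0, nat_lit 0, nat_lit 0, nat_lit 0, nat_lit 0, nat_lit 0, nat_lit 0, nat_lit 0, nat_lit 0, nat_lit 0, nat_lit 0, nat_lit 0, nat_lit 0, nat_lit 0, [],
 C1.Rw.none, C1.Rw.none,
 zbF0, []⟩
noncomputable def p055_l120 : Lf2 := ⟨nat_lit 0, nat_lit 1, [nat_lit 19, nat_lit 5, nat_lit 5, nat_lit 20], true, nat_lit 240, nat_lit 332, nat_lit 0, nat_lit 288, ⟨nat_lit 0, nat_lit 1000, nat_lit 0, nat_lit 5, nat_lit 82, nat_lit 1000, nat_lit 225, nat_lit 0, nat_lit 0, nat_lit 0, nat_lit 0, nat_lit 0, nat_lit 47935858, nat_lit 3287135, nat_lit 15777007, nat_lit 3835380, false, false⟩,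
 nat_lit 0, nat_lit 5790, nat_lit 0, nat_lit 17836, nat_lit 3764, nat_lit 0, nat_lit 3595, nat_lit 0, nat_lit 0, nat_lit 0, nat_lit 0, nat_lit 0, nat_lit 0, nat_lit 0, nat_lit 0, nat_lit 1000000, nat_lit 0, nat_lit 0, [(nat_lit 12, [(nat_lit 2, nat_lit 1000)])],
 ⟨p055_k41, nat_lit 0, nat_lit 0, nat_lit 121, nat_lit 0, nat_lit 27362, [nat_lit 1992960000, nat_lit 2327840000], [], [nat_lit 18484836913, nat_lit 18794426376, nat_lit 17819193663, nat_lit 18124706299, nat_lit 23888000251, nat_lit 24197875482, nat_lit 22740918611, nat_lit 23035082355], nat_lit 1271250, nat_lit 1271250, nat_lit 88400, nat_lit 230001, nat_lit 1271250, nat_lit 1271250, [nat_lit 780000, nat_lit 1100000], [nat_lit 40, nat_lit 40, nat_lit 40, nat_lit 80, nat_lit 22, nat_lit 215, nat_lit 10, nat_lit 9]⟩, C1.Rw.none,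
 ⟨nat_lit 5244, nat_lit 5362, ⟨.ofNat (nat_lit 159371), .ofNat (nat_lit 203801), .ofNat (nat_lit 202110), .ofNat (nat_lit 246540), .ofNat (nat_lit 163411), .ofNat (nat_lit 207314), .ofNat (nat_lit 206182), .ofNat (nat_lit 250085)⟩, ⟨.ofNat (nat_lit 467200), .ofNat (nat_lit 637514), .ofNat (nat_lit 488570), .ofNat (nat_lit 658883), .ofNat (nat_lit 466242), .ofNat (nat_lit 634536), .ofNat (nat_lit 487628), .ofNat (nat_lit 655921)⟩⟩, [⟨nat_lit 0, nat_lit 100, nat_lit 91, nat_lit 63, nat_lit 1443408428⟩, ⟨nat_lit 4, nat_lit 88, nat_lit 100, nat_lit 99, nat_lit 196461134⟩]⟩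
noncomputable def p055_l121 : Lf2 := ⟨nat_lit 1, nat_lit 3, [nat_lit 45, nat_lit 5, nat_lit 5, nat_lit 20], false, nat_lit 240, nat_lit 336, nat_lit 0, nat_lit 288, zbN0,
 nat_lit 0, nat_lit 0, nat_lit 0, nat_lit 0, nat_lit 0, nat_lit 0, nat_lit 0, nat_lit 0, nat_lit 0, nat_lit 0, nat_lit 0, nat_lit 0, nat_lit 0, nat_lit 0, nat_lit 0, nat_lit 0, nat_lit 0, nat_lit 0, [],
 C1.Rw.none, C1.Rw.none,
 zbF0, []⟩
noncomputable def p055_l122 : Lf2 := ⟨nat_lit 0, nat_lit 3, [nat_lit 45, nat_lit 5, nat_lit 5, nat_lit 20], true, nat_lit 240, nat_lit 328, nat_lit 0, nat_lit 288, ⟨nat_lit 0, nat_lit 1000, nat_lit 0, nat_lit 5, nat_lit 86, nat_lit 1000, nat_lit 222, nat_lit 0, nat_lit 0, nat_lit 0, nat_lit 0, nat_lit 0, nat_lit 47995567, nat_lit 3517800, nat_lit 15486633, nat_lit 3863970, false, false⟩,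
 nat_lit 0, nat_lit 5722, nat_lit 0, nat_lit 9158, nat_lit 3800, nat_lit 0, nat_lit 1887, nat_lit 0, nat_lit 0, nat_lit 0, nat_lit 0, nat_lit 0, nat_lit 0, nat_lit 0, nat_lit 0, nat_lit 563200, nat_lit 0, nat_lit 0, [(nat_lit 12, [(nat_lit 1, nat_lit 728), (nat_lit 2, nat_lit 272)])],
 ⟨p055_k42, nat_lit 0, nat_lit 0, nat_lit 143, nat_lit 0, nat_lit 85086, [nat_lit 2022400321, nat_lit 2409201280, nat_lit 2358467200], [], [nat_lit 18699372576, nat_lit 19319936876, nat_lit 18133192276, nat_lit 18746924676, nat_lit 23746095180, nat_lit 24375946001, nat_lit 22768823296, nat_lit 23394823320], nat_lit 1271250, nat_lit 1271250, nat_lit 111251, nat_lit 230001, nat_lit 1271250, nat_lit 1271250, [nat_lit 780000, nat_lit 1100000, nat_lit 1442500], [nat_lit 59, nat_lit 40, nat_lit 40, nat_lit 80, nat_lit 3, nat_lit 215, nat_lit 10, nat_lit 7]⟩, C1.Rw.none,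
 ⟨nat_lit 5000, nat_lit 5245, ⟨.ofNat (nat_lit 170728), .ofNat (nat_lit 207314), .ofNat (nat_lit 213499), .ofNat (nat_lit 250085), .ofNat (nat_lit 178570), .ofNat (nat_lit 214284), .ofNat (nat_lit 221427), .ofNat (nat_lit 257141)⟩, ⟨.ofNat (nat_lit 466242), .ofNat (nat_lit 627219), .ofNat (nat_lit 487628), .ofNat (nat_lit 648604), .ofNat (nat_lit 464284), .ofNat (nat_lit 621427), .ofNat (nat_lit 485713), .ofNat (nat_lit 642856)⟩⟩, [⟨nat_lit 0, nat_lit 100, nat_lit 88, nat_lit 56, nat_lit 1220929068⟩, ⟨nat_lit 4, nat_lit 92, nat_lit 99, nat_lit 100, nat_lit 197668566⟩]⟩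
noncomputable def p055_l123 : Lf2 := ⟨nat_lit 0, nat_lit 3, [nat_lit 45, nat_lit 5, nat_lit 5, nat_lit 20], true, nat_lit 240, nat_lit 280, nat_lit 0, nat_lit 336, ⟨nat_lit 0, nat_lit 202, nat_lit 798, nat_lit 5, nat_lit 106, nat_lit 1000, nat_lit 205, nat_lit 798, nat_lit 4376, nat_lit 226, nat_lit 106667, nat_lit 295, nat_lit 48418272, nat_lit 4892124, nat_lit 13689604, nat_lit 3988911, false, false⟩,
 nat_lit 0, nat_lit 5118, nat_lit 0, nat_lit 0, nat_lit 3256, nat_lit 0, nat_lit 0, nat_lit 0, nat_lit 0, nat_lit 0, nat_lit 0, nat_lit 0, nat_lit 0, nat_lit 0, nat_lit 35, nat_lit 878800, nat_lit 0, nat_lit 0, [(nat_lit 12, [(nat_lit 1, nat_lit 202), (nat_lit 6, nat_lit 798)])],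
 ⟨p055_k30, nat_lit 0, nat_lit 0, nat_lit 116, nat_lit 0, nat_lit 89681, [nat_lit 1556607600, nat_lit 1235700800, nat_lit 11912000], [], [nat_lit 16654538608, nat_lit 17800187984, nat_lit 16606620592, nat_lit 17710816288, nat_lit 18655535360, nat_lit 19704263208, nat_lit 18538687888, nat_lit 19550901728], nat_lit 1271250, nat_lit 1271250, nat_lit 230001, nat_lit 490000, nat_lit 1271250, nat_lit 1271250, [nat_lit 780000, nat_lit 1100000, nat_lit 1442500], [nat_lit 59, nat_lit 40, nat_lit 40, nat_lit 80, nat_lit 3, nat_lit 226, nat_lit 20, nat_lit 8]⟩, C1.Rw.none,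
 ⟨nat_lit 5000, nat_lit 5478, ⟨.ofNat (nat_lit 200266), .ofNat (nat_lit 275199), .ofNat (nat_lit 242980), .ofNat (nat_lit 317913), .ofNat (nat_lit 214284), .ofNat (nat_lit 285713), .ofNat (nat_lit 257141), .ofNat (nat_lit 328570)⟩, ⟨.ofNat (nat_lit 468146), .ofNat (nat_lit 543079), .ofNat (nat_lit 489503), .ofNat (nat_lit 564436), .ofNat (nat_lit 464284), .ofNat (nat_lit 535713), .ofNat (nat_lit 485713), .ofNat (nat_lit 557141)⟩⟩, [⟨nat_lit 0, nat_lit 100, nat_lit 88, nat_lit 68, nat_lit 119381070⟩]⟩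
noncomputable def p055_l124 : Lf2 := ⟨nat_lit 1, nat_lit 1, [nat_lit 19, nat_lit 5, nat_lit 5, nat_lit 20], false, nat_lit 280, nat_lit 336, nat_lit 0, nat_lit 300, zbN0,
 nat_lit 0, nat_lit 0, nat_lit 0, nat_lit 0, nat_lit 0, nat_lit 0, nat_lit 0, nat_lit 0, nat_lit 0, nat_lit 0, nat_lit 0, nat_lit 0, nat_lit 0, nat_lit 0, nat_lit 0, nat_lit 0, nat_lit 0, nat_lit 0, [],
 C1.Rw.none, C1.Rw.none,
 zbF0, []⟩
noncomputable def p055_l125 : Lf2 := ⟨nat_lit 0, nat_lit 1, [nat_lit 19, nat_lit 5, nat_lit 5, nat_lit 20], true, nat_lit 280, nat_lit 332, nat_lit 0, nat_lit 300, ⟨nat_lit 0, nat_lit 1000, nat_lit 0, nat_lit 5, nat_lit 105, nat_lit 1000, nat_lit 240, nat_lit 0, nat_lit 0, nat_lit 0, nat_lit 0, nat_lit 0, nat_lit 45253943, nat_lit 4711549, nat_lit 17034508, nat_lit 4246354, false, false⟩,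
 nat_lit 0, nat_lit 6006, nat_lit 0, nat_lit 8679, nat_lit 3904, nat_lit 0, nat_lit 2478, nat_lit 0, nat_lit 0, nat_lit 0, nat_lit 0, nat_lit 0, nat_lit 0, nat_lit 0, nat_lit 0, nat_lit 400000, nat_lit 0, nat_lit 0, [(nat_lit 12, [(nat_lit 1, nat_lit 1000)])],
 ⟨p055_k41, nat_lit 0, nat_lit 0, nat_lit 89, nat_lit 0, nat_lit 27362, [nat_lit 2033400000, nat_lit 2394800000], [], [nat_lit 20096487248, nat_lit 20379617106, nat_lit 19799833582, nat_lit 20072714222, nat_lit 22970194971, nat_lit 23217335791, nat_lit 22570919519, nat_lit 22809646927], nat_lit 1271250, nat_lit 1271250, nat_lit 230001, nat_lit 490000, nat_lit 1271250, nat_lit 1271250, [nat_lit 780000, nat_lit 1100000], [nat_lit 40, nat_lit 40, nat_lit 40, nat_lit 80, nat_lit 22, nat_lit 226, nat_lit 20, nat_lit 9]⟩, C1.Rw.none,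
 ⟨nat_lit 5244, nat_lit 5362, ⟨.ofNat (nat_lit 203801), .ofNat (nat_lit 277850), .ofNat (nat_lit 246540), .ofNat (nat_lit 320589), .ofNat (nat_lit 207314), .ofNat (nat_lit 280485), .ofNat (nat_lit 250085), .ofNat (nat_lit 323256)⟩, ⟨.ofNat (nat_lit 541250), .ofNat (nat_lit 637514), .ofNat (nat_lit 562619), .ofNat (nat_lit 658883), .ofNat (nat_lit 539414), .ofNat (nat_lit 634536), .ofNat (nat_lit 560799), .ofNat (nat_lit 655921)⟩⟩, [⟨nat_lit 0, nat_lit 100, nat_lit 91, nat_lit 63, nat_lit 126093497⟩, ⟨nat_lit 4, nat_lit 88, nat_lit 100, nat_lit 99, nat_lit 208561507⟩]⟩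
noncomputable def p055_l126 : Lf2 := ⟨nat_lit 1, nat_lit 3, [nat_lit 45, nat_lit 5, nat_lit 5, nat_lit 20], false, nat_lit 280, nat_lit 336, nat_lit 0, nat_lit 300, zbN0,
 nat_lit 0, nat_lit 0, nat_lit 0, nat_lit 0, nat_lit 0, nat_lit 0, nat_lit 0, nat_lit 0, nat_lit 0, nat_lit 0, nat_lit 0, nat_lit 0, nat_lit 0, nat_lit 0, nat_lit 0, nat_lit 0, nat_lit 0, nat_lit 0, [],
 C1.Rw.none, C1.Rw.none,
 zbF0, []⟩
noncomputable def p055_l127 : Lf2 := ⟨nat_lit 0, nat_lit 3, [nat_lit 45, nat_lit 5, nat_lit 5, nat_lit 20], true, nat_lit 280, nat_lit 328, nat_lit 0, nat_lit 300, ⟨nat_lit 0, nat_lit 1000, nat_lit 0, nat_lit 5, nat_lit 106, nat_lit 1000, nat_lit 237, nat_lit 0, nat_lit 0, nat_lit 0, nat_lit 0, nat_lit 0, nat_lit 45407435, nat_lit 4787028, nat_lit 16805537, nat_lit 4243635, false, false⟩,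
 nat_lit 0, nat_lit 5782, nat_lit 0, nat_lit 7149, nat_lit 3839, nat_lit 0, nat_lit 1702, nat_lit 0, nat_lit 0, nat_lit 0, nat_lit 0, nat_lit 0, nat_lit 0, nat_lit 0, nat_lit 0, nat_lit 400000, nat_lit 0, nat_lit 0, [(nat_lit 12, [(nat_lit 1, nat_lit 1000)])],
 ⟨p055_k42, nat_lit 0, nat_lit 0, nat_lit 111, nat_lit 0, nat_lit 44417, [nat_lit 2033400000, nat_lit 2439600000, nat_lit 2628400000], [], [nat_lit 20285864196, nat_lit 20454481358, nat_lit 19996194177, nat_lit 20158729259, nat_lit 22858344529, nat_lit 23007283895, nat_lit 22477675318, nat_lit 22621536941], nat_lit 1271250, nat_lit 1271250, nat_lit 230001, nat_lit 490000, nat_lit 1271250, nat_lit 1271250, [nat_lit 780000, nat_lit 1100000, nat_lit 1442500], [nat_lit 59, nat_lit 40, nat_lit 40, nat_lit 80, nat_lit 3, nat_lit 226, nat_lit 20, nat_lit 7]⟩, C1.Rw.none,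
 ⟨nat_lit 5172, nat_lit 5245, ⟨.ofNat (nat_lit 207314), .ofNat (nat_lit 280485), .ofNat (nat_lit 250085), .ofNat (nat_lit 323256), .ofNat (nat_lit 209412), .ofNat (nat_lit 282059), .ofNat (nat_lit 252206), .ofNat (nat_lit 324852)⟩, ⟨.ofNat (nat_lit 539414), .ofNat (nat_lit 627219), .ofNat (nat_lit 560799), .ofNat (nat_lit 648604), .ofNat (nat_lit 538308), .ofNat (nat_lit 625484), .ofNat (nat_lit 559705), .ofNat (nat_lit 646880)⟩⟩, [⟨nat_lit 0, nat_lit 100, nat_lit 90, nat_lit 65, nat_lit 125618258⟩, ⟨nat_lit 4, nat_lit 91, nat_lit 100, nat_lit 100, nat_lit 202744264⟩]⟩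
noncomputable def p055_l128 : Lf2 := ⟨nat_lit 0, nat_lit 3, [nat_lit 45, nat_lit 5, nat_lit 5, nat_lit 20], true, nat_lit 280, nat_lit 328, nat_lit 0, nat_lit 300, ⟨nat_lit 0, nat_lit 1000, nat_lit 0, nat_lit 5, nat_lit 107, nat_lit 1000, nat_lit 237, nat_lit 0, nat_lit 0, nat_lit 0, nat_lit 0, nat_lit 0, nat_lit 45415341, nat_lit 4821333, nat_lit 16763326, nat_lit 4247106, false, false⟩,
 nat_lit 0, nat_lit 5637, nat_lit 0, nat_lit 5971, nat_lit 3791, nat_lit 0, nat_lit 1477, nat_lit 0, nat_lit 0, nat_lit 0, nat_lit 0, nat_lit 0, nat_lit 0, nat_lit 0, nat_lit 0, nat_lit 400000, nat_lit 0, nat_lit 0, [(nat_lit 12, [(nat_lit 1, nat_lit 1000)])],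
 ⟨p055_k43, nat_lit 0, nat_lit 0, nat_lit 112, nat_lit 0, nat_lit 49404, [nat_lit 2033400000, nat_lit 2439600000, nat_lit 2628400000], [], [nat_lit 20418515644, nat_lit 20474411025, nat_lit 20135539162, nat_lit 20189423786, nat_lit 22957833965, nat_lit 23007449875, nat_lit 22585587792, nat_lit 22635085379], nat_lit 1271250, nat_lit 1271250, nat_lit 230001, nat_lit 490000, nat_lit 1271250, nat_lit 1271250, [nat_lit 780000, nat_lit 1100000, nat_lit 1442500], [nat_lit 59, nat_lit 40, nat_lit 40, nat_lit 80, nat_lit 3, nat_lit 226, nat_lit 20, nat_lit 7]⟩, C1.Rw.none,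
 ⟨nat_lit 5147, nat_lit 5173, ⟨.ofNat (nat_lit 209412), .ofNat (nat_lit 282059), .ofNat (nat_lit 252206), .ofNat (nat_lit 324852), .ofNat (nat_lit 210110), .ofNat (nat_lit 282582), .ofNat (nat_lit 252912), .ofNat (nat_lit 325384)⟩, ⟨.ofNat (nat_lit 538308), .ofNat (nat_lit 625484), .ofNat (nat_lit 559705), .ofNat (nat_lit 646880), .ofNat (nat_lit 537938), .ofNat (nat_lit 624905), .ofNat (nat_lit 559339), .ofNat (nat_lit 646306)⟩⟩, [⟨nat_lit 0, nat_lit 100, nat_lit 90, nat_lit 65, nat_lit 132446362⟩, ⟨nat_lit 16, nat_lit 97, nat_lit 85, nat_lit 100, nat_lit 201719886⟩]⟩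
noncomputable def p055_l129 : Lf2 := ⟨nat_lit 0, nat_lit 3, [nat_lit 45, nat_lit 5, nat_lit 5, nat_lit 20], true, nat_lit 280, nat_lit 328, nat_lit 0, nat_lit 300, ⟨nat_lit 0, nat_lit 1000, nat_lit 0, nat_lit 5, nat_lit 107, nat_lit 1000, nat_lit 237, nat_lit 0, nat_lit 0, nat_lit 0, nat_lit 0, nat_lit 0, nat_lit 45419287, nat_lit 4838493, nat_lit 16742220, nat_lit 4248830, false, false⟩,
 nat_lit 0, nat_lit 5606, nat_lit 0, nat_lit 5326, nat_lit 3785, nat_lit 0, nat_lit 1361, nat_lit 0, nat_lit 0, nat_lit 0, nat_lit 0, nat_lit 0, nat_lit 0, nat_lit 0, nat_lit 0, nat_lit 400000, nat_lit 0, nat_lit 0, [(nat_lit 12, [(nat_lit 1, nat_lit 1000)])],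
 ⟨p055_k44, nat_lit 0, nat_lit 0, nat_lit 114, nat_lit 0, nat_lit 54790, [nat_lit 2033400000, nat_lit 2439600000, nat_lit 2628400000], [], [nat_lit 20484628471, nat_lit 20540485060, nat_lit 20201240260, nat_lit 20255088168, nat_lit 23015770442, nat_lit 23065136206, nat_lit 22643534364, nat_lit 22692443498], nat_lit 1271250, nat_lit 1271250, nat_lit 230001, nat_lit 490000, nat_lit 1271250, nat_lit 1271250, [nat_lit 780000, nat_lit 1100000, nat_lit 1442500], [nat_lit 59, nat_lit 40, nat_lit 40, nat_lit 80, nat_lit 3, nat_lit 226, nat_lit 20, nat_lit 7]⟩, C1.Rw.none,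
 ⟨nat_lit 5123, nat_lit 5148, ⟨.ofNat (nat_lit 210110), .ofNat (nat_lit 282582), .ofNat (nat_lit 252912), .ofNat (nat_lit 325384), .ofNat (nat_lit 210807), .ofNat (nat_lit 283105), .ofNat (nat_lit 253618), .ofNat (nat_lit 325915)⟩, ⟨.ofNat (nat_lit 537938), .ofNat (nat_lit 624905), .ofNat (nat_lit 559339), .ofNat (nat_lit 646306), .ofNat (nat_lit 537569), .ofNat (nat_lit 624326), .ofNat (nat_lit 558974), .ofNat (nat_lit 645731)⟩⟩, [⟨nat_lit 0, nat_lit 100, nat_lit 90, nat_lit 65, nat_lit 136214315⟩, ⟨nat_lit 16, nat_lit 96, nat_lit 86, nat_lit 100, nat_lit 203508739⟩]⟩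
noncomputable def p055_l130 : Lf2 := ⟨nat_lit 0, nat_lit 3, [nat_lit 45, nat_lit 5, nat_lit 5, nat_lit 20], true, nat_lit 280, nat_lit 324, nat_lit 0, nat_lit 300, ⟨nat_lit 0, nat_lit 1000, nat_lit 0, nat_lit 5, nat_lit 108, nat_lit 1000, nat_lit 235, nat_lit 0, nat_lit 0, nat_lit 0, nat_lit 0, nat_lit 0, nat_lit 45561300, nat_lit 4879749, nat_lit 16558951, nat_lit 4242472, false, false⟩,
 nat_lit 0, nat_lit 5600, nat_lit 0, nat_lit 4675, nat_lit 3797, nat_lit 0, nat_lit 1262, nat_lit 0, nat_lit 0, nat_lit 0, nat_lit 0, nat_lit 0, nat_lit 0, nat_lit 0, nat_lit 0, nat_lit 400000, nat_lit 0, nat_lit 0, [(nat_lit 12, [(nat_lit 1, nat_lit 1000)])],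
 ⟨p055_k45, nat_lit 0, nat_lit 0, nat_lit 118, nat_lit 0, nat_lit 71564, [nat_lit 2033400000, nat_lit 2439600000, nat_lit 2628400000], [], [nat_lit 20523637127, nat_lit 20691439649, nat_lit 20235038029, nat_lit 20396802053, nat_lit 22810883579, nat_lit 22960802290, nat_lit 22442080105, nat_lit 22586873883], nat_lit 1271250, nat_lit 1271250, nat_lit 230001, nat_lit 490000, nat_lit 1271250, nat_lit 1271250, [nat_lit 780000, nat_lit 1100000, nat_lit 1442500], [nat_lit 59, nat_lit 40, nat_lit 40, nat_lit 80, nat_lit 3, nat_lit 226, nat_lit 20, nat_lit 7]⟩, C1.Rw.none,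
 ⟨nat_lit 5049, nat_lit 5124, ⟨.ofNat (nat_lit 210807), .ofNat (nat_lit 283105), .ofNat (nat_lit 253618), .ofNat (nat_lit 325915), .ofNat (nat_lit 212895), .ofNat (nat_lit 284671), .ofNat (nat_lit 255733), .ofNat (nat_lit 327509)⟩, ⟨.ofNat (nat_lit 537569), .ofNat (nat_lit 617096), .ofNat (nat_lit 558974), .ofNat (nat_lit 638501), .ofNat (nat_lit 536457), .ofNat (nat_lit 615410), .ofNat (nat_lit 557875), .ofNat (nat_lit 636829)⟩⟩, [⟨nat_lit 0, nat_lit 100, nat_lit 89, nat_lit 67, nat_lit 136864407⟩, ⟨nat_lit 16, nat_lit 96, nat_lit 86, nat_lit 100, nat_lit 76838734⟩, ⟨nat_lit 4, nat_lit 92, nat_lit 98, nat_lit 100, nat_lit 118595725⟩]⟩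
noncomputable def p055_l131 : Lf2 := ⟨nat_lit 0, nat_lit 3, [nat_lit 45, nat_lit 5, nat_lit 5, nat_lit 20], true, nat_lit 280, nat_lit 324, nat_lit 0, nat_lit 300, ⟨nat_lit 0, nat_lit 1000, nat_lit 0, nat_lit 5, nat_lit 108, nat_lit 1000, nat_lit 235, nat_lit 0, nat_lit 0, nat_lit 0, nat_lit 0, nat_lit 0, nat_lit 45568332, nat_lit 4914165, nat_lit 16517503, nat_lit 4245903, false, false⟩,
 nat_lit 0, nat_lit 5523, nat_lit 0, nat_lit 3407, nat_lit 3792, nat_lit 0, nat_lit 1058, nat_lit 0, nat_lit 0, nat_lit 0, nat_lit 0, nat_lit 0, nat_lit 0, nat_lit 0, nat_lit 0, nat_lit 400000, nat_lit 0, nat_lit 0, [(nat_lit 12, [(nat_lit 1, nat_lit 1000)])],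
 ⟨p055_k46, nat_lit 0, nat_lit 0, nat_lit 120, nat_lit 0, nat_lit 76084, [nat_lit 2033400000, nat_lit 2439600000, nat_lit 2628400000], [], [nat_lit 20697501963, nat_lit 20753403810, nat_lit 20404203808, nat_lit 20458094553, nat_lit 22965639862, nat_lit 23015964784, nat_lit 22593117395, nat_lit 22643323881], nat_lit 1271250, nat_lit 1271250, nat_lit 230001, nat_lit 490000, nat_lit 1271250, nat_lit 1271250, [nat_lit 780000, nat_lit 1100000, nat_lit 1442500], [nat_lit 59, nat_lit 40, nat_lit 40, nat_lit 80, nat_lit 3, nat_lit 226, nat_lit 20, nat_lit 7]⟩, C1.Rw.none,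
 ⟨nat_lit 5024, nat_lit 5050, ⟨.ofNat (nat_lit 212895), .ofNat (nat_lit 284671), .ofNat (nat_lit 255733), .ofNat (nat_lit 327509), .ofNat (nat_lit 213590), .ofNat (nat_lit 285192), .ofNat (nat_lit 256437), .ofNat (nat_lit 328039)⟩, ⟨.ofNat (nat_lit 536457), .ofNat (nat_lit 615410), .ofNat (nat_lit 557875), .ofNat (nat_lit 636829), .ofNat (nat_lit 536085), .ofNat (nat_lit 614847), .ofNat (nat_lit 557509), .ofNat (nat_lit 636271)⟩⟩, [⟨nat_lit 0, nat_lit 100, nat_lit 89, nat_lit 67, nat_lit 136588959⟩, ⟨nat_lit 16, nat_lit 95, nat_lit 87, nat_lit 100, nat_lit 206238047⟩]⟩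
noncomputable def p055_l132 : Lf2 := ⟨nat_lit 0, nat_lit 3, [nat_lit 45, nat_lit 5, nat_lit 5, nat_lit 20], true, nat_lit 280, nat_lit 320, nat_lit 0, nat_lit 300, ⟨nat_lit 0, nat_lit 1000, nat_lit 0, nat_lit 5, nat_lit 108, nat_lit 1000, nat_lit 233, nat_lit 0, nat_lit 0, nat_lit 0, nat_lit 0, nat_lit 0, nat_lit 45704891, nat_lit 4938223, nat_lit 16356886, nat_lit 4237716, false, false⟩,
 nat_lit 0, nat_lit 5531, nat_lit 0, nat_lit 2950, nat_lit 3813, nat_lit 0, nat_lit 1006, nat_lit 0, nat_lit 0, nat_lit 0, nat_lit 0, nat_lit 0, nat_lit 0, nat_lit 0, nat_lit 0, nat_lit 400000, nat_lit 0, nat_lit 0, [(nat_lit 12, [(nat_lit 1, nat_lit 1000)])],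
 ⟨p055_k47, nat_lit 0, nat_lit 0, nat_lit 120, nat_lit 0, nat_lit 81273, [nat_lit 2033400000, nat_lit 2439600000, nat_lit 2628400000], [], [nat_lit 20721452864, nat_lit 20777490484, nat_lit 20420510691, nat_lit 20474529944, nat_lit 22749716093, nat_lit 22800320336, nat_lit 22377981485, nat_lit 22427154460], nat_lit 1271250, nat_lit 1271250, nat_lit 230001, nat_lit 490000, nat_lit 1271250, nat_lit 1271250, [nat_lit 780000, nat_lit 1100000, nat_lit 1442500], [nat_lit 59, nat_lit 40, nat_lit 40, nat_lit 80, nat_lit 3, nat_lit 226, nat_lit 20, nat_lit 7]⟩, C1.Rw.none,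
 ⟨nat_lit 5000, nat_lit 5025, ⟨.ofNat (nat_lit 213590), .ofNat (nat_lit 285192), .ofNat (nat_lit 256437), .ofNat (nat_lit 328039), .ofNat (nat_lit 214284), .ofNat (nat_lit 285713), .ofNat (nat_lit 257141), .ofNat (nat_lit 328570)⟩, ⟨.ofNat (nat_lit 536085), .ofNat (nat_lit 607687), .ofNat (nat_lit 557509), .ofNat (nat_lit 629111), .ofNat (nat_lit 535713), .ofNat (nat_lit 607141), .ofNat (nat_lit 557141), .ofNat (nat_lit 628570)⟩⟩, [⟨nat_lit 0, nat_lit 100, nat_lit 88, nat_lit 68, nat_lit 137987468⟩, ⟨nat_lit 16, nat_lit 95, nat_lit 87, nat_lit 100, nat_lit 202771824⟩]⟩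
noncomputable def p055_l133 : Lf2 := ⟨nat_lit 1, nat_lit 5, [nat_lit 4, nat_lit 5, nat_lit 5, nat_lit 20], false, nat_lit 240, nat_lit 336, nat_lit 0, nat_lit 336, zbN0,
 nat_lit 0, nat_lit 0, nat_lit 0, nat_lit 0, nat_lit 0, nat_lit 0, nat_lit 0, nat_lit 0, nat_lit 0, nat_lit 0, nat_lit 0, nat_lit 0, nat_lit 0, nat_lit 0, nat_lit 0, nat_lit 0, nat_lit 0, nat_lit 0, [],
 C1.Rw.none, C1.Rw.none,
 zbF0, []⟩
noncomputable def p055_l134 : Lf2 := ⟨nat_lit 0, nat_lit 5, [nat_lit 4, nat_lit 5, nat_lit 5, nat_lit 20], false, nat_lit 240, nat_lit 336, nat_lit 0, nat_lit 364, ⟨nat_lit 0, nat_lit 1000, nat_lit 0, nat_lit 5, nat_lit 134, nat_lit 1000, nat_lit 222, nat_lit 0, nat_lit 0, nat_lit 0, nat_lit 0, nat_lit 0, nat_lit 45100133, nat_lit 6829925, nat_lit 15069942, nat_lit 4465977, false, false⟩,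
 nat_lit 0, nat_lit 7096, nat_lit 0, nat_lit 3554, nat_lit 4515, nat_lit 0, nat_lit 816, nat_lit 0, nat_lit 0, nat_lit 0, nat_lit 0, nat_lit 0, nat_lit 0, nat_lit 0, nat_lit 0, nat_lit 400000, nat_lit 0, nat_lit 0, [(nat_lit 12, [(nat_lit 1, nat_lit 1000)])],
 ⟨p055_k13, nat_lit 0, nat_lit 0, nat_lit 129, nat_lit 0, nat_lit 99987, [nat_lit 2033400000, nat_lit 2574800000, nat_lit 2711866667], [], [nat_lit 17181299167, nat_lit 17732351257, nat_lit 17315851860, nat_lit 17926087085, nat_lit 22754855437, nat_lit 23308477077, nat_lit 22650778645, nat_lit 23179519197], nat_lit 1271250, nat_lit 1271250, nat_lit 490000, nat_lit 780000, nat_lit 1271250, nat_lit 1271250, [nat_lit 780000, nat_lit 1100000, nat_lit 1785000], [nat_lit 36, nat_lit 40, nat_lit 40, nat_lit 80, nat_lit 7, nat_lit 238, nat_lit 30, nat_lit 7]⟩, ⟨p055_k21, nat_lit 0, nat_lit 0, nat_lit 363, nat_lit 0, nat_lit 166393, [nat_lit 0, nat_lit 0, nat_lit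 0], [], [nat_lit 0, nat_lit 0, nat_lit 0, nat_lit 0, nat_lit 0, nat_lit 0, nat_lit 0, nat_lit 0], nat_lit 1271250, nat_lit 1271250, nat_lit 490000, nat_lit 780000, nat_lit 0, nat_lit 2570750, [nat_lit 1412500, nat_lit 1271250, nat_lit 1271250], [nat_lit 53, nat_lit 40, nat_lit 40, nat_lit 80, nat_lit 14, nat_lit 428, nat_lit 200, nat_lit 11]⟩,
 ⟨nat_lit 5244, nat_lit 5478, ⟨.ofNat (nat_lit 275199), .ofNat (nat_lit 350132), .ofNat (nat_lit 317913), .ofNat (nat_lit 392847), .ofNat (nat_lit 280485), .ofNat (nat_lit 353656), .ofNat (nat_lit 323256), .ofNat (nat_lit 396427)⟩, ⟨.ofNat (nat_lit 446789), .ofNat (nat_lit 626629), .ofNat (nat_lit 489503), .ofNat (nat_lit 669340), .ofNat (nat_lit 444857), .ofNat (nat_lit 620468), .ofNat (nat_lit 487628), .ofNat (nat_lit 663236)⟩⟩, [⟨nat_lit 4, nat_lit 91, nat_lit 100, nat_lit 96, nat_lit 234008928⟩]⟩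
noncomputable def p055_l135 : Lf2 := ⟨nat_lit 0, nat_lit 5, [nat_lit 4, nat_lit 5, nat_lit 5, nat_lit 20], false, nat_lit 240, nat_lit 328, nat_lit 0, nat_lit 364, ⟨nat_lit 0, nat_lit 1000, nat_lit 0, nat_lit 5, nat_lit 136, nat_lit 1000, nat_lit 218, nat_lit 0, nat_lit 0, nat_lit 0, nat_lit 0, nat_lit 0, nat_lit 45382346, nat_lit 6990490, nat_lit 14627164, nat_lit 4452482, false, false⟩,
 nat_lit 0, nat_lit 6345, nat_lit 0, nat_lit 419, nat_lit 4213, nat_lit 0, nat_lit 586, nat_lit 0, nat_lit 0, nat_lit 0, nat_lit 0, nat_lit 0, nat_lit 0, nat_lit 0, nat_lit 0, nat_lit 400000, nat_lit 0, nat_lit 0, [(nat_lit 12, [(nat_lit 1, nat_lit 1000)])],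
 ⟨p055_k18, nat_lit 0, nat_lit 0, nat_lit 123, nat_lit 0, nat_lit 155778, [nat_lit 2033400000, nat_lit 2439600000, nat_lit 2628400000], [], [nat_lit 18191398033, nat_lit 18769843444, nat_lit 18377059202, nat_lit 18927910358, nat_lit 22550462930, nat_lit 23021673341, nat_lit 22543407456, nat_lit 23018817210], nat_lit 1271250, nat_lit 1271250, nat_lit 490000, nat_lit 780000, nat_lit 1271250, nat_lit 1271250, [nat_lit 780000, nat_lit 1100000, nat_lit 1442500], [nat_lit 59, nat_lit 40, nat_lit 40, nat_lit 80, nat_lit 3, nat_lit 238, nat_lit 30, nat_lit 8]⟩, ⟨p055_k21, nat_lit 0, nat_lit 0, nat_lit 407, nat_lit 0, nat_lit 273343, [nat_lit 0, nat_lit 0, nat_lit 0], [], [nat_lit 0, nat_lit 0, nat_lit 0, nat_lit 0, nat_lit 0, nat_lit 0, nat_lit 0, nat_lit 0], nat_lit 1271250, nat_lit 1271250, nat_lit 490000, nat_lit 780000, nat_lit 0, nat_lit 2570750, [nat_lit 1412500, nat_lit 1271250, nat_lit 1271250], [nat_lit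 53, nat_lit 40, nat_lit 40, nat_lit 80, nat_lit 14, nat_lit 428, nat_lit 200, nat_lit 11]⟩,
 ⟨nat_lit 5000, nat_lit 5245, ⟨.ofNat (nat_lit 280485), .ofNat (nat_lit 353656), .ofNat (nat_lit 323256), .ofNat (nat_lit 396427), .ofNat (nat_lit 285713), .ofNat (nat_lit 357141), .ofNat (nat_lit 328570), .ofNat (nat_lit 399998)⟩, ⟨.ofNat (nat_lit 444857), .ofNat (nat_lit 605833), .ofNat (nat_lit 487628), .ofNat (nat_lit 648604), .ofNat (nat_lit 442856), .ofNat (nat_lit 599999), .ofNat (nat_lit 485713), .ofNat (nat_lit 642856)⟩⟩, [⟨nat_lit 16, nat_lit 97, nat_lit 84, nat_lit 100, nat_lit 89102705⟩, ⟨nat_lit 4, nat_lit 97, nat_lit 100, nat_lit 98, nat_lit 111480952⟩]⟩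
noncomputable def p055_l136 : Lf2 := ⟨nat_lit 1, nat_lit 10, [nat_lit 0, nat_lit 5, nat_lit 5, nat_lit 20], false, nat_lit 240, nat_lit 336, nat_lit 0, nat_lit 364, zbN0,
 nat_lit 0, nat_lit 0, nat_lit 0, nat_lit 0, nat_lit 0, nat_lit 0, nat_lit 0, nat_lit 0, nat_lit 0, nat_lit 0, nat_lit 0, nat_lit 0, nat_lit 0, nat_lit 0, nat_lit 0, nat_lit 0, nat_lit 0, nat_lit 0, [],
 C1.Rw.none, C1.Rw.none,
 zbF0, []⟩
noncomputable def b_V_700_500_20_8 : St := ⟨true, nat_lit 1, nat_lit 1, nat_lit 1, nat_lit 120, nat_lit 280, nat_lit 300, nat_lit 200, nat_lit 240, nat_lit 16, nat_lit 120, nat_lit 80, nat_lit 120, nat_lit 240, nat_lit 336, nat_lit 0, nat_lit 364, nat_lit 0, nat_lit 40, nat_lit 0, nat_lit 0, nat_lit 0, nat_lit 0⟩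
theorem d_V_700_500_20_8 (h : EB TB.env) : Dead b_V_700_500_20_8 := chkB_sound0 h (T :=
(.spl (nat_lit 6) (nat_lit 20)
(.spl (nat_lit 2) (nat_lit 80)
(.trX (nat_lit 23) (nat_lit 100) (nat_lit 76) (nat_lit 82) (nat_lit 336) (.spl (nat_lit 3) (nat_lit 100)
(.trX (nat_lit 16) (nat_lit 100) (nat_lit 88) (nat_lit 94) (nat_lit 320) (.spl (nat_lit 2) (nat_lit 40)
(.trX (nat_lit 23) (nat_lit 100) (nat_lit 92) (nat_lit 61) (nat_lit 288) (.spl (nat_lit 6) (nat_lit 8)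
(.spl (nat_lit 4) (nat_lit 280)
(.leaf p055_l113)
(.trX (nat_lit 23) (nat_lit 94) (nat_lit 100) (nat_lit 62) (nat_lit 248) (.leaf p055_l114)))
(.leaf p055_l115)))
(.spl (nat_lit 6) (nat_lit 8)
(.spl (nat_lit 0) (nat_lit 290)
(.leaf p055_l116)
(.trX (nat_lit 16) (nat_lit 100) (nat_lit 94) (nat_lit 97) (nat_lit 312) (.leaf p055_l117)))
(.leaf p055_l118))))
(.spl (nat_lit 6) (nat_lit 12)
(.spl (nat_lit 2) (nat_lit 40)
(.trX (nat_lit 23) (nat_lit 100) (nat_lit 92) (nat_lit 61) (nat_lit 288) (.spl (nat_lit 0) (nat_lit 290)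
(.spl (nat_lit 6) (nat_lit 4)
(.spl (nat_lit 0) (nat_lit 285)
(.leaf p055_l119)
(.trX (nat_lit 16) (nat_lit 99) (nat_lit 82) (nat_lit 100) (nat_lit 332) (.leaf p055_l120)))
(.leaf p055_l121))
(.trZ (nat_lit 0) (nat_lit 100) (nat_lit 89) (nat_lit 45) (nat_lit 20) (.trX (nat_lit 16) (nat_lit 97) (nat_lit 84) (nat_lit 100) (nat_lit 328) (.leaf p055_l122)))))
(.spl (nat_lit 4) (nat_lit 280)
(.leaf p055_l123)
(.trX (nat_lit 23) (nat_lit 100) (nat_lit 95) (nat_lit 87) (nat_lit 300) (.spl (nat_lit 0) (nat_lit 290)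
(.spl (nat_lit 6) (nat_lit 4)
(.spl (nat_lit 0) (nat_lit 285)
(.leaf p055_l124)
(.trX (nat_lit 16) (nat_lit 99) (nat_lit 82) (nat_lit 100) (nat_lit 332) (.leaf p055_l125)))
(.leaf p055_l126))
(.trX (nat_lit 16) (nat_lit 97) (nat_lit 84) (nat_lit 100) (nat_lit 328) (.spl (nat_lit 0) (nat_lit 295)
(.spl (nat_lit 0) (nat_lit 293)
(.leaf p055_l127)
(.spl (nat_lit 0) (nat_lit 294)
(.leaf p055_l128)
(.leaf p055_l129)))
(.trX (nat_lit 16) (nat_lit 96) (nat_lit 86) (nat_lit 100) (nat_lit 324) (.spl (nat_lit 0) (nat_lit 298)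
(.leaf p055_l130)
(.spl (nat_lit 0) (nat_lit 299)
(.leaf p055_l131)
(.trX (nat_lit 16) (nat_lit 95) (nat_lit 87) (nat_lit 100) (nat_lit 320) (.leaf p055_l132)))))))))))
(.leaf p055_l133))))
(.spl (nat_lit 0) (nat_lit 290)
(.leaf p055_l134)
(.trX (nat_lit 16) (nat_lit 97) (nat_lit 84) (nat_lit 100) (nat_lit 328) (.leaf p055_l135))))
(.leaf p055_l136))) (by decide +kernel)
noncomputable def p055_l137 : Lf2 := ⟨nat_lit 0, nat_lit 5, [nat_lit 4, nat_lit 5, nat_lit 5, nat_lit 20], true, nat_lit 240, nat_lit 320, nat_lit 0, nat_lit 288, ⟨nat_lit 0, nat_lit 905, nat_lit 95, nat_lit 5, nat_lit 91, nat_lit 1000, nat_lit 213, nat_lit 95, nat_lit 4748, nat_lit 203, nat_lit 79350, nat_lit 284, nat_lit 48587469, nat_lit 3906736, nat_lit 14505795, nat_lit 3862280, false, false⟩,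
 nat_lit 0, nat_lit 5699, nat_lit 0, nat_lit 2805, nat_lit 3945, nat_lit 0, nat_lit 760, nat_lit 0, nat_lit 0, nat_lit 0, nat_lit 0, nat_lit 0, nat_lit 0, nat_lit 0, nat_lit 0, nat_lit 457000, nat_lit 0, nat_lit 0, [(nat_lit 15, [(nat_lit 1, nat_lit 905), (nat_lit 6, nat_lit 95)])],
 ⟨p055_k19, nat_lit 0, nat_lit 0, nat_lit 209, nat_lit 0, nat_lit 269876, [nat_lit 1921381000, nat_lit 1907689000], [], [nat_lit 19700517146, nat_lit 20755424785, nat_lit 19297256830, nat_lit 20342126440, nat_lit 23781047295, nat_lit 25094059120, nat_lit 22963466350, nat_lit 24270584520], nat_lit 1271250, nat_lit 1271250, nat_lit 134400, nat_lit 230001, nat_lit 1271250, nat_lit 1271250, [nat_lit 780000, nat_lit 1435000], [nat_lit 49, nat_lit 40, nat_lit 40, nat_lit 80, nat_lit 16, nat_lit 215, nat_lit 10, nat_lit 7]⟩, C1.Rw.none,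
 ⟨nat_lit 4472, nat_lit 5000, ⟨.ofNat (nat_lit 185713), .ofNat (nat_lit 214284), .ofNat (nat_lit 228562), .ofNat (nat_lit 257133), .ofNat (nat_lit 200895), .ofNat (nat_lit 228086), .ofNat (nat_lit 244020), .ofNat (nat_lit 271210)⟩, ⟨.ofNat (nat_lit 442856), .ofNat (nat_lit 585713), .ofNat (nat_lit 485713), .ofNat (nat_lit 628570), .ofNat (nat_lit 438578), .ofNat (nat_lit 574534), .ofNat (nat_lit 481711), .ofNat (nat_lit 617667)⟩⟩, [⟨nat_lit 0, nat_lit 100, nat_lit 84, nat_lit 63, nat_lit 836879758⟩, ⟨nat_lit 4, nat_lit 100, nat_lit 93, nat_lit 97, nat_lit 197347239⟩]⟩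
noncomputable def p055_l138 : Lf2 := ⟨nat_lit 0, nat_lit 2, [nat_lit 10, nat_lit 5, nat_lit 5, nat_lit 20], true, nat_lit 240, nat_lit 320, nat_lit 0, nat_lit 336, ⟨nat_lit 0, nat_lit 1000, nat_lit 0, nat_lit 5, nat_lit 110, nat_lit 1000, nat_lit 214, nat_lit 0, nat_lit 0, nat_lit 0, nat_lit 0, nat_lit 0, nat_lit 47432934, nat_lit 5114883, nat_lit 14452183, nat_lit 4106101, false, false⟩,
 nat_lit 0, nat_lit 5435, nat_lit 0, nat_lit 0, nat_lit 3762, nat_lit 0, nat_lit 109, nat_lit 0, nat_lit 0, nat_lit 0, nat_lit 0, nat_lit 0, nat_lit 0, nat_lit 0, nat_lit 0, nat_lit 1000000, nat_lit 0, nat_lit 0, [(nat_lit 15, [(nat_lit 2, nat_lit 1000)])],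
 ⟨p055_k37, nat_lit 0, nat_lit 0, nat_lit 131, nat_lit 0, nat_lit 201473, [nat_lit 1981440001, nat_lit 1580800000], [], [nat_lit 18719075169, nat_lit 19329950045, nat_lit 18499729277, nat_lit 19087845723, nat_lit 22742988065, nat_lit 23376529698, nat_lit 22384056042, nat_lit 22897558114], nat_lit 1271250, nat_lit 1271250, nat_lit 230001, nat_lit 490000, nat_lit 1271250, nat_lit 1271250, [nat_lit 780000, nat_lit 1100000], [nat_lit 40, nat_lit 40, nat_lit 40, nat_lit 80, nat_lit 22, nat_lit 226, nat_lit 20, nat_lit 9]⟩, C1.Rw.none,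
 ⟨nat_lit 4743, nat_lit 5000, ⟨.ofNat (nat_lit 214284), .ofNat (nat_lit 285713), .ofNat (nat_lit 257141), .ofNat (nat_lit 328569), .ofNat (nat_lit 221199), .ofNat (nat_lit 290899), .ofNat (nat_lit 264176), .ofNat (nat_lit 333875)⟩, ⟨.ofNat (nat_lit 442856), .ofNat (nat_lit 585713), .ofNat (nat_lit 485713), .ofNat (nat_lit 628570), .ofNat (nat_lit 440769), .ofNat (nat_lit 580169), .ofNat (nat_lit 483746), .ofNat (nat_lit 623145)⟩⟩, [⟨nat_lit 0, nat_lit 100, nat_lit 85, nat_lit 72, nat_lit 145373913⟩, ⟨nat_lit 16, nat_lit 94, nat_lit 88, nat_lit 100, nat_lit 208964217⟩]⟩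
noncomputable def p055_l139 : Lf2 := ⟨nat_lit 0, nat_lit 5, [nat_lit 4, nat_lit 5, nat_lit 5, nat_lit 20], true, nat_lit 240, nat_lit 320, nat_lit 0, nat_lit 336, ⟨nat_lit 0, nat_lit 1000, nat_lit 0, nat_lit 5, nat_lit 110, nat_lit 1000, nat_lit 214, nat_lit 0, nat_lit 0, nat_lit 0, nat_lit 0, nat_lit 0, nat_lit 47432934, nat_lit 5114883, nat_lit 14452183, nat_lit 4106101, false, false⟩,
 nat_lit 0, nat_lit 5597, nat_lit 0, nat_lit 1731, nat_lit 3874, nat_lit 0, nat_lit 0, nat_lit 0, nat_lit 0, nat_lit 0, nat_lit 0, nat_lit 0, nat_lit 0, nat_lit 0, nat_lit 0, nat_lit 923200, nat_lit 0, nat_lit 0, [(nat_lit 15, [(nat_lit 1, nat_lit 128), (nat_lit 2, nat_lit 872)])],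
 ⟨p055_k20, nat_lit 0, nat_lit 0, nat_lit 137, nat_lit 0, nat_lit 126110, [nat_lit 1986401281, nat_lit 1770931200, nat_lit 939571200], [], [nat_lit 19123785557, nat_lit 19701947927, nat_lit 18846365493, nat_lit 19403166771, nat_lit 22928361809, nat_lit 23523454546, nat_lit 22537788853, nat_lit 23029550771], nat_lit 1271250, nat_lit 1271250, nat_lit 230001, nat_lit 490000, nat_lit 1271250, nat_lit 1271250, [nat_lit 780000, nat_lit 1100000, nat_lit 1442500], [nat_lit 59, nat_lit 40, nat_lit 40, nat_lit 80, nat_lit 3, nat_lit 226, nat_lit 20, nat_lit 8]⟩, C1.Rw.none,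
 ⟨nat_lit 4743, nat_lit 5000, ⟨.ofNat (nat_lit 214284), .ofNat (nat_lit 285713), .ofNat (nat_lit 257141), .ofNat (nat_lit 328569), .ofNat (nat_lit 221199), .ofNat (nat_lit 290899), .ofNat (nat_lit 264176), .ofNat (nat_lit 333875)⟩, ⟨.ofNat (nat_lit 442856), .ofNat (nat_lit 585713), .ofNat (nat_lit 485713), .ofNat (nat_lit 628570), .ofNat (nat_lit 440769), .ofNat (nat_lit 580169), .ofNat (nat_lit 483746), .ofNat (nat_lit 623145)⟩⟩, [⟨nat_lit 0, nat_lit 100, nat_lit 85, nat_lit 72, nat_lit 150015571⟩, ⟨nat_lit 16, nat_lit 94, nat_lit 88, nat_lit 100, nat_lit 190108423⟩]⟩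
noncomputable def p055_l140 : Lf2 := ⟨nat_lit 0, nat_lit 5, [nat_lit 4, nat_lit 5, nat_lit 5, nat_lit 20], true, nat_lit 240, nat_lit 292, nat_lit 0, nat_lit 336, ⟨nat_lit 0, nat_lit 245, nat_lit 755, nat_lit 5, nat_lit 112, nat_lit 1000, nat_lit 198, nat_lit 755, nat_lit 5873, nat_lit 231, nat_lit 117600, nat_lit 299, nat_lit 48711605, nat_lit 5342975, nat_lit 12945420, nat_lit 4000264, false, false⟩,
 nat_lit 0, nat_lit 4644, nat_lit 0, nat_lit 0, nat_lit 3347, nat_lit 0, nat_lit 0, nat_lit 0, nat_lit 0, nat_lit 0, nat_lit 0, nat_lit 0, nat_lit 0, nat_lit 0, nat_lit 69, nat_lit 853000, nat_lit 0, nat_lit 0, [(nat_lit 15, [(nat_lit 1, nat_lit 245), (nat_lit 6, nat_lit 755)])],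
 ⟨p055_k48, nat_lit 0, nat_lit 0, nat_lit 155, nat_lit 0, nat_lit 243649, [nat_lit 2062849000, nat_lit 220571000], [], [nat_lit 18848335681, nat_lit 19398745280, nat_lit 18797699786, nat_lit 19327589328, nat_lit 21177702048, nat_lit 21834773252, nat_lit 21046470142, nat_lit 21520165803], nat_lit 1271250, nat_lit 1271250, nat_lit 230001, nat_lit 490000, nat_lit 1271250, nat_lit 1271250, [nat_lit 780000, nat_lit 1435000], [nat_lit 49, nat_lit 40, nat_lit 40, nat_lit 80, nat_lit 16, nat_lit 226, nat_lit 20, nat_lit 8]⟩, C1.Rw.none,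
 ⟨nat_lit 4472, nat_lit 4744, ⟨.ofNat (nat_lit 221199), .ofNat (nat_lit 290899), .ofNat (nat_lit 264172), .ofNat (nat_lit 333872), .ofNat (nat_lit 228086), .ofNat (nat_lit 296064), .ofNat (nat_lit 271215), .ofNat (nat_lit 339193)⟩, ⟨.ofNat (nat_lit 440769), .ofNat (nat_lit 531379), .ofNat (nat_lit 462258), .ofNat (nat_lit 552867), .ofNat (nat_lit 438578), .ofNat (nat_lit 526949), .ofNat (nat_lit 460144), .ofNat (nat_lit 548516)⟩⟩, [⟨nat_lit 0, nat_lit 100, nat_lit 82, nat_lit 76, nat_lit 123113697⟩, ⟨nat_lit 16, nat_lit 93, nat_lit 100, nat_lit 97, nat_lit 241470574⟩]⟩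
noncomputable def p055_l141 : Lf2 := ⟨nat_lit 0, nat_lit 5, [nat_lit 4, nat_lit 5, nat_lit 5, nat_lit 20], true, nat_lit 240, nat_lit 312, nat_lit 0, nat_lit 336, ⟨nat_lit 0, nat_lit 1000, nat_lit 0, nat_lit 5, nat_lit 112, nat_lit 1000, nat_lit 214, nat_lit 0, nat_lit 0, nat_lit 0, nat_lit 0, nat_lit 0, nat_lit 47280616, nat_lit 5283337, nat_lit 14436047, nat_lit 4136817, false, false⟩,
 nat_lit 0, nat_lit 5362, nat_lit 0, nat_lit 0, nat_lit 3865, nat_lit 0, nat_lit 574, nat_lit 0, nat_lit 0, nat_lit 0, nat_lit 0, nat_lit 0, nat_lit 0, nat_lit 0, nat_lit 0, nat_lit 400000, nat_lit 0, nat_lit 0, [(nat_lit 15, [(nat_lit 1, nat_lit 1000)])],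
 ⟨p055_k48, nat_lit 0, nat_lit 0, nat_lit 148, nat_lit 0, nat_lit 191240, [nat_lit 2020200000, nat_lit 2354866667], [], [nat_lit 19532680752, nat_lit 20110235577, nat_lit 19236271942, nat_lit 19792498597, nat_lit 23008562058, nat_lit 23672384641, nat_lit 22453593999, nat_lit 22984103777], nat_lit 1271250, nat_lit 1271250, nat_lit 230001, nat_lit 490000, nat_lit 1271250, nat_lit 1271250, [nat_lit 780000, nat_lit 1435000], [nat_lit 49, nat_lit 40, nat_lit 40, nat_lit 80, nat_lit 16, nat_lit 226, nat_lit 20, nat_lit 8]⟩, C1.Rw.none,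
 ⟨nat_lit 4472, nat_lit 4744, ⟨.ofNat (nat_lit 221199), .ofNat (nat_lit 290899), .ofNat (nat_lit 264172), .ofNat (nat_lit 333872), .ofNat (nat_lit 228086), .ofNat (nat_lit 296064), .ofNat (nat_lit 271215), .ofNat (nat_lit 339193)⟩, ⟨.ofNat (nat_lit 462258), .ofNat (nat_lit 587717), .ofNat (nat_lit 483746), .ofNat (nat_lit 609205), .ofNat (nat_lit 460144), .ofNat (nat_lit 582505), .ofNat (nat_lit 481711), .ofNat (nat_lit 604071)⟩⟩, [⟨nat_lit 0, nat_lit 100, nat_lit 82, nat_lit 76, nat_lit 176539587⟩, ⟨nat_lit 16, nat_lit 91, nat_lit 91, nat_lit 100, nat_lit 197528735⟩]⟩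
noncomputable def p055_l142 : Lf2 := ⟨nat_lit 0, nat_lit 10, [nat_lit 0, nat_lit 5, nat_lit 5, nat_lit 20], true, nat_lit 240, nat_lit 320, nat_lit 0, nat_lit 336, ⟨nat_lit 0, nat_lit 133, nat_lit 867, nat_lit 5, nat_lit 105, nat_lit 1000, nat_lit 213, nat_lit 867, nat_lit 4748, nat_lit 203, nat_lit 104017, nat_lit 294, nat_lit 47768380, nat_lit 4820857, nat_lit 14410763, nat_lit 4044592, false, false⟩,
 nat_lit 0, nat_lit 4768, nat_lit 0, nat_lit 8890, nat_lit 3300, nat_lit 0, nat_lit 0, nat_lit 0, nat_lit 0, nat_lit 0, nat_lit 0, nat_lit 0, nat_lit 0, nat_lit 0, nat_lit 68, nat_lit 400000, nat_lit 0, nat_lit 0, [(nat_lit 15, [(nat_lit 1, nat_lit 133), (nat_lit 5, nat_lit 867)])],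
 ⟨p055_k1, nat_lit 0, nat_lit 0, nat_lit 158, nat_lit 0, nat_lit 91107, [nat_lit 2237254200, nat_lit 132327900], [], [nat_lit 18661918580, nat_lit 19670920421, nat_lit 18117025700, nat_lit 19084231200, nat_lit 22820533161, nat_lit 24033875200, nat_lit 21814656400, nat_lit 22789680000], nat_lit 1271250, nat_lit 1271250, nat_lit 134400, nat_lit 490000, nat_lit 1271250, nat_lit 1271250, [nat_lit 780000, nat_lit 1762500], [nat_lit 74, nat_lit 40, nat_lit 40, nat_lit 80, nat_lit 43, nat_lit 226, nat_lit 20, nat_lit 7]⟩, C1.Rw.none,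
 ⟨nat_lit 4472, nat_lit 5000, ⟨.ofNat (nat_lit 185713), .ofNat (nat_lit 285713), .ofNat (nat_lit 228562), .ofNat (nat_lit 328559), .ofNat (nat_lit 200895), .ofNat (nat_lit 296064), .ofNat (nat_lit 244020), .ofNat (nat_lit 339186)⟩, ⟨.ofNat (nat_lit 442856), .ofNat (nat_lit 585713), .ofNat (nat_lit 485713), .ofNat (nat_lit 628570), .ofNat (nat_lit 438578), .ofNat (nat_lit 574534), .ofNat (nat_lit 481711), .ofNat (nat_lit 617667)⟩⟩, [⟨nat_lit 0, nat_lit 100, nat_lit 82, nat_lit 76, nat_lit 231674612⟩, ⟨nat_lit 4, nat_lit 100, nat_lit 93, nat_lit 97, nat_lit 281925266⟩]⟩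
noncomputable def p055_l143 : Lf2 := ⟨nat_lit 0, nat_lit 10, [nat_lit 0, nat_lit 5, nat_lit 5, nat_lit 20], false, nat_lit 240, nat_lit 320, nat_lit 0, nat_lit 364, ⟨nat_lit 0, nat_lit 1000, nat_lit 0, nat_lit 5, nat_lit 138, nat_lit 1000, nat_lit 214, nat_lit 0, nat_lit 0, nat_lit 0, nat_lit 0, nat_lit 0, nat_lit 45650845, nat_lit 7150631, nat_lit 14198524, nat_lit 4438565, false, false⟩,
 nat_lit 0, nat_lit 6083, nat_lit 0, nat_lit 258, nat_lit 4211, nat_lit 0, nat_lit 22, nat_lit 0, nat_lit 0, nat_lit 0, nat_lit 0, nat_lit 0, nat_lit 0, nat_lit 0, nat_lit 0, nat_lit 809200, nat_lit 0, nat_lit 0, [(nat_lit 15, [(nat_lit 1, nat_lit 318), (nat_lit 2, nat_lit 682)])],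
 ⟨p055_k6, nat_lit 0, nat_lit 0, nat_lit 163, nat_lit 0, nat_lit 218816, [nat_lit 1993765681, nat_lit 2222496800, nat_lit 334937334], [], [nat_lit 18973928947, nat_lit 19507955213, nat_lit 19067707705, nat_lit 19576695156, nat_lit 22554966596, nat_lit 23049560916, nat_lit 22559626523, nat_lit 23045466712], nat_lit 1271250, nat_lit 1271250, nat_lit 490000, nat_lit 780000, nat_lit 1271250, nat_lit 1271250, [nat_lit 780000, nat_lit 1100000, nat_lit 1785000], [nat_lit 36, nat_lit 40, nat_lit 40, nat_lit 80, nat_lit 7, nat_lit 238, nat_lit 30, nat_lit 7]⟩, ⟨p055_k3, nat_lit 0, nat_lit 0, nat_lit 514, nat_lit 0, nat_lit 408501, [nat_lit 0, nat_lit 0, nat_lit 0], [], [nat_lit 0, nat_lit 0, nat_lit 0, nat_lit 0, nat_lit 0, nat_lit 0, nat_lit 0, nat_lit 0], nat_lit 1271250, nat_lit 1271250, nat_lit 490000, nat_lit 780000, nat_lit 0, nat_lit 2570750, [nat_lit 1412500, nat_lit 1271250, nat_lit 1271250], [nat_lit 53,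 nat_lit 40, nat_lit 40, nat_lit 80, nat_lit 14, nat_lit 428, nat_lit 200, nat_lit 11]⟩,
 ⟨nat_lit 4743, nat_lit 5000, ⟨.ofNat (nat_lit 285713), .ofNat (nat_lit 357141), .ofNat (nat_lit 328569), .ofNat (nat_lit 399997), .ofNat (nat_lit 290899), .ofNat (nat_lit 360599), .ofNat (nat_lit 333875), .ofNat (nat_lit 403574)⟩, ⟨.ofNat (nat_lit 442856), .ofNat (nat_lit 585713), .ofNat (nat_lit 485713), .ofNat (nat_lit 628570), .ofNat (nat_lit 440769), .ofNat (nat_lit 580169), .ofNat (nat_lit 483746), .ofNat (nat_lit 623145)⟩⟩, [⟨nat_lit 16, nat_lit 94, nat_lit 88, nat_lit 100, nat_lit 53641007⟩, ⟨nat_lit 4, nat_lit 100, nat_lit 97, nat_lit 98, nat_lit 136274862⟩]⟩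
noncomputable def p055_l144 : Lf2 := ⟨nat_lit 0, nat_lit 10, [nat_lit 0, nat_lit 5, nat_lit 5, nat_lit 20], false, nat_lit 240, nat_lit 312, nat_lit 0, nat_lit 364, ⟨nat_lit 0, nat_lit 757, nat_lit 243, nat_lit 5, nat_lit 140, nat_lit 1000, nat_lit 209, nat_lit 243, nat_lit 1989, nat_lit 209, nat_lit 183750, nat_lit 320, nat_lit 45906123, nat_lit 7310876, nat_lit 13783001, nat_lit 4424312, false, false⟩,
 nat_lit 0, nat_lit 5249, nat_lit 0, nat_lit 0, nat_lit 3784, nat_lit 0, nat_lit 188, nat_lit 0, nat_lit 0, nat_lit 0, nat_lit 0, nat_lit 0, nat_lit 0, nat_lit 0, nat_lit 0, nat_lit 545800, nat_lit 0, nat_lit 0, [(nat_lit 15, [(nat_lit 1, nat_lit 757), (nat_lit 6, nat_lit 243)])],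
 ⟨p055_k38, nat_lit 0, nat_lit 0, nat_lit 179, nat_lit 0, nat_lit 269993, [nat_lit 1767431401, nat_lit 1803463600, nat_lit 531748400], [], [nat_lit 19351980013, nat_lit 19862091717, nat_lit 19493646005, nat_lit 19980497349, nat_lit 22307809128, nat_lit 22805215334, nat_lit 22399616849, nat_lit 22874848099], nat_lit 1271250, nat_lit 1271250, nat_lit 490000, nat_lit 780000, nat_lit 1271250, nat_lit 1271250, [nat_lit 780000, nat_lit 1100000, nat_lit 1785000], [nat_lit 36, nat_lit 40, nat_lit 40, nat_lit 80, nat_lit 7, nat_lit 238, nat_lit 30, nat_lit 7]⟩, ⟨p055_k3, nat_lit 0, nat_lit 0, nat_lit 562, nat_lit 0, nat_lit 530082, [nat_lit 0, nat_lit 0, nat_lit 0], [], [nat_lit 0, nat_lit 0, nat_lit 0, nat_lit 0, nat_lit 0, nat_lit 0, nat_lit 0, nat_lit 0], nat_lit 1271250, nat_lit 1271250, nat_lit 490000, nat_lit 780000, nat_lit 0, nat_lit 2570750, [nat_lit 1412500, nat_lit 1271250, nat_lit 1271250], [nat_lit 53,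 nat_lit 40, nat_lit 40, nat_lit 80, nat_lit 14, nat_lit 428, nat_lit 200, nat_lit 11]⟩,
 ⟨nat_lit 4472, nat_lit 4744, ⟨.ofNat (nat_lit 290899), .ofNat (nat_lit 360599), .ofNat (nat_lit 333872), .ofNat (nat_lit 403571), .ofNat (nat_lit 296064), .ofNat (nat_lit 364042), .ofNat (nat_lit 339193), .ofNat (nat_lit 407171)⟩, ⟨.ofNat (nat_lit 440769), .ofNat (nat_lit 566229), .ofNat (nat_lit 483746), .ofNat (nat_lit 609205), .ofNat (nat_lit 438578), .ofNat (nat_lit 560938), .ofNat (nat_lit 481711), .ofNat (nat_lit 604071)⟩⟩, [⟨nat_lit 16, nat_lit 91, nat_lit 91, nat_lit 100, nat_lit 202057953⟩]⟩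
noncomputable def b_V_700_500_20_9 : St := ⟨true, nat_lit 1, nat_lit 1, nat_lit 1, nat_lit 120, nat_lit 300, nat_lit 320, nat_lit 200, nat_lit 240, nat_lit 16, nat_lit 120, nat_lit 80, nat_lit 120, nat_lit 240, nat_lit 336, nat_lit 0, nat_lit 364, nat_lit 0, nat_lit 40, nat_lit 0, nat_lit 0, nat_lit 0, nat_lit 0⟩
theorem d_V_700_500_20_9 (h : EB TB.env) : Dead b_V_700_500_20_9 := chkB_sound0 h (T :=
(.trZ (nat_lit 0) (nat_lit 100) (nat_lit 87) (nat_lit 50) (nat_lit 24) (.trX (nat_lit 16) (nat_lit 94) (nat_lit 88) (nat_lit 100) (nat_lit 320) (.spl (nat_lit 2) (nat_lit 80)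
(.trX (nat_lit 23) (nat_lit 100) (nat_lit 76) (nat_lit 82) (nat_lit 336) (.spl (nat_lit 6) (nat_lit 20)
(.spl (nat_lit 2) (nat_lit 40)
(.trX (nat_lit 23) (nat_lit 100) (nat_lit 92) (nat_lit 61) (nat_lit 288) (.leaf p055_l137))
(.spl (nat_lit 0) (nat_lit 310)
(.spl (nat_lit 6) (nat_lit 8)
(.leaf p055_l138)
(.leaf p055_l139))
(.trX (nat_lit 16) (nat_lit 91) (nat_lit 91) (nat_lit 100) (nat_lit 312) (.spl (nat_lit 3) (nat_lit 100)
(.trX (nat_lit 16) (nat_lit 93) (nat_lit 100) (nat_lit 97) (nat_lit 292) (.leaf p055_l140))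
(.leaf p055_l141)))))
(.leaf p055_l142)))
(.spl (nat_lit 0) (nat_lit 310)
(.leaf p055_l143)
(.trX (nat_lit 16) (nat_lit 91) (nat_lit 91) (nat_lit 100) (nat_lit 312) (.leaf p055_l144))))))) (by decide +kernel)

end B2
end Pool.Agent.Lib.MP_6947cd_al
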