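import Pool.Agent.Lib.MP_6947cd_al.ZB.Pre

/-!
Problem MP_6947cd_al (Chollet).  Case B, second entry in [2/5, 17/20]: certificates of the tree, part P056 (generated).
-/

set_option autoImplicit false
set_option linter.all false

namespace Pool.Agent.Lib.MP_6947cd_al
namespace B2

open Ent Fr B1 PkA

noncomputable def p056_k0 : C1.Kn := ⟨[nat_lit 60, nat_lit 100, nat_lit 140], [nat_lit 0, nat_lit 0, nat_lit 2047], [(nat_lit 0, nat_lit 0, nat_lit 0), (nat_lit 0, nat_lit 0, nat_lit 0), (nat_lit 1000, nat_lit 993, nat_lit 781)], (nat_lit 94, nat_lit 100, nat_lit 62)⟩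
noncomputable def p056_k1 : C1.Kn := ⟨[nat_lit 100, nat_lit 140, nat_lit 160], [nat_lit 0, nat_lit 0, nat_lit 1280], [(nat_lit 0, nat_lit 0, nat_lit 0), (nat_lit 0, nat_lit 0, nat_lit 0), (nat_lit 800, nat_lit 1000, nat_lit 600)], (nat_lit 100, nat_lit 80, nat_lit 60)⟩
noncomputable def p056_k2 : C1.Kn := ⟨[nat_lit 60, nat_lit 120], [nat_lit 0, nat_lit 913], [(nat_lit 0, nat_lit 0, nat_lit 0), (nat_lit 1000, nat_lit 905, nat_lit 238)], (nat_lit 87, nat_lit 100, nat_lit 60)⟩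
noncomputable def p056_k3 : C1.Kn := ⟨[nat_lit 100, nat_lit 160], [nat_lit 0, nat_lit 0], [(nat_lit 0, nat_lit 0, nat_lit 0), (nat_lit 0, nat_lit 0, nat_lit 0)], (nat_lit 100, nat_lit 80, nat_lit 60)⟩
noncomputable def p056_k4 : C1.Kn := ⟨[nat_lit 60, nat_lit 80, nat_lit 140], [nat_lit 0, nat_lit 0, nat_lit 1595], [(nat_lit 0, nat_lit 0, nat_lit 0), (nat_lit 0, nat_lit 0, nat_lit 0), (nat_lit 1000, nat_lit 917, nat_lit 415)], (nat_lit 94, nat_lit 100, nat_lit 62)⟩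
noncomputable def p056_k5 : C1.Kn := ⟨[nat_lit 100, nat_lit 120, nat_lit 160], [nat_lit 0, nat_lit 0, nat_lit 1063], [(nat_lit 0, nat_lit 0, nat_lit 0), (nat_lit 0, nat_lit 0, nat_lit 0), (nat_lit 924, nat_lit 1000, nat_lit 383)], (nat_lit 100, nat_lit 80, nat_lit 60)⟩
noncomputable def p056_k6 : C1.Kn := ⟨[nat_lit 60, nat_lit 80, nat_lit 120], [nat_lit 0, nat_lit 304, nat_lit 1346], [(nat_lit 0, nat_lit 0, nat_lit 0), (nat_lit 1000, nat_lit 905, nat_lit 238), (nat_lit 1000, nat_lit 871, nat_lit 407)], (nat_lit 87, nat_lit 100, nat_lit 60)⟩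
noncomputable def p056_k7 : C1.Kn := ⟨[nat_lit 60, nat_lit 80, nat_lit 120], [nat_lit 0, nat_lit 0, nat_lit 1064], [(nat_lit 0, nat_lit 0, nat_lit 0), (nat_lit 0, nat_lit 0, nat_lit 0), (nat_lit 1000, nat_lit 917, nat_lit 415)], (nat_lit 92, nat_lit 100, nat_lit 44)⟩
noncomputable def p056_k8 : C1.Kn := ⟨[nat_lit 100, nat_lit 120, nat_lit 160], [nat_lit 0, nat_lit 0, nat_lit 1063], [(nat_lit 0, nat_lit 0, nat_lit 0), (nat_lit 0, nat_lit 0, nat_lit 0), (nat_lit 924, nat_lit 1000, nat_lit 383)], (nat_lit 100, nat_lit 90, nat_lit 44)⟩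
noncomputable def p056_k9 : C1.Kn := ⟨[nat_lit 60, nat_lit 80, nat_lit 120], [nat_lit 0, nat_lit 304, nat_lit 1346], [(nat_lit 0, nat_lit 0, nat_lit 0), (nat_lit 1000, nat_lit 905, nat_lit 238), (nat_lit 1000, nat_lit 871, nat_lit 407)], (nat_lit 87, nat_lit 100, nat_lit 51)⟩
noncomputable def p056_k10 : C1.Kn := ⟨[nat_lit 100, nat_lit 120, nat_lit 160], [nat_lit 0, nat_lit 0, nat_lit 1063], [(nat_lit 0, nat_lit 0, nat_lit 0), (nat_lit 0, nat_lit 0, nat_lit 0), (nat_lit 924, nat_lit 1000, nat_lit 383)], (nat_lit 100, nat_lit 86, nat_lit 51)⟩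
noncomputable def p056_k11 : C1.Kn := ⟨[nat_lit 60, nat_lit 100, nat_lit 120], [nat_lit 0, nat_lit 609, nat_lit 1609], [(nat_lit 0, nat_lit 0, nat_lit 0), (nat_lit 1000, nat_lit 905, nat_lit 238), (nat_lit 1000, nat_lit 882, nat_lit 668)], (nat_lit 87, nat_lit 100, nat_lit 60)⟩
noncomputable def p056_k12 : C1.Kn := ⟨[nat_lit 100, nat_lit 140, nat_lit 160], [nat_lit 0, nat_lit 508, nat_lit 1689], [(nat_lit 0, nat_lit 0, nat_lit 0), (nat_lit 1000, nat_lit 1000, nat_lit 198), (nat_lit 811, nat_lit 1000, nat_lit 671)], (nat_lit 100, nat_lit 86, nat_lit 60)⟩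
noncomputable def p056_k13 : C1.Kn := ⟨[nat_lit 100, nat_lit 140, nat_lit 160], [nat_lit 0, nat_lit 766, nat_lit 1913], [(nat_lit 0, nat_lit 0, nat_lit 0), (nat_lit 1000, nat_lit 1000, nat_lit 299), (nat_lit 817, nat_lit 1000, nat_lit 711)], (nat_lit 100, nat_lit 89, nat_lit 61)⟩
noncomputable def p056_k14 : C1.Kn := ⟨[nat_lit 60, nat_lit 80, nat_lit 100], [nat_lit 0, nat_lit 456, nat_lit 976], [(nat_lit 0, nat_lit 0, nat_lit 0), (nat_lit 1000, nat_lit 859, nat_lit 351), (nat_lit 1000, nat_lit 848, nat_lit 406)], (nat_lit 84, nat_lit 100, nat_lit 51)⟩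
noncomputable def p056_k15 : C1.Kn := ⟨[nat_lit 100, nat_lit 120, nat_lit 160], [nat_lit 0, nat_lit 254, nat_lit 1301], [(nat_lit 0, nat_lit 0, nat_lit 0), (nat_lit 1000, nat_lit 1000, nat_lit 198), (nat_lit 960, nat_lit 1000, nat_lit 392)], (nat_lit 100, nat_lit 86, nat_lit 60)⟩
noncomputable def p056_k16 : C1.Kn := ⟨[nat_lit 60, nat_lit 80, nat_lit 120], [nat_lit 0, nat_lit 456, nat_lit 1495], [(nat_lit 0, nat_lit 0, nat_lit 0), (nat_lit 1000, nat_lit 859, nat_lit 351), (nat_lit 1000, nat_lit 848, nat_lit 406)], (nat_lit 84, nat_lit 100, nat_lit 60)⟩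
noncomputable def p056_k17 : C1.Kn := ⟨[nat_lit 60, nat_lit 120, nat_lit 140], [nat_lit 0, nat_lit 0, nat_lit 2047], [(nat_lit 0, nat_lit 0, nat_lit 0), (nat_lit 0, nat_lit 0, nat_lit 0), (nat_lit 1000, nat_lit 993, nat_lit 781)], (nat_lit 94, nat_lit 100, nat_lit 62)⟩
noncomputable def p056_k18 : C1.Kn := ⟨[nat_lit 60, nat_lit 140], [nat_lit 0, nat_lit 0], [(nat_lit 0, nat_lit 0, nat_lit 0), (nat_lit 0, nat_lit 0, nat_lit 0)], (nat_lit 94, nat_lit 100, nat_lit 62)⟩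
noncomputable def p056_k19 : C1.Kn := ⟨[nat_lit 60, nat_lit 120], [nat_lit 0, nat_lit 453], [(nat_lit 0, nat_lit 0, nat_lit 0), (nat_lit 1000, nat_lit 953, nat_lit 118)], (nat_lit 91, nat_lit 100, nat_lit 61)⟩
noncomputable def p056_k20 : C1.Kn := ⟨[nat_lit 80, nat_lit 120, nat_lit 140], [nat_lit 0, nat_lit 528, nat_lit 1572], [(nat_lit 0, nat_lit 0, nat_lit 0), (nat_lit 1000, nat_lit 959, nat_lit 206), (nat_lit 966, nat_lit 1000, nat_lit 679)], (nat_lit 100, nat_lit 99, nat_lit 63)⟩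
noncomputable def p056_k21 : C1.Kn := ⟨[nat_lit 80, nat_lit 160], [nat_lit 0, nat_lit 0], [(nat_lit 0, nat_lit 0, nat_lit 0), (nat_lit 0, nat_lit 0, nat_lit 0)], (nat_lit 100, nat_lit 92, nat_lit 61)⟩
noncomputable def p056_k22 : C1.Kn := ⟨[nat_lit 80, nat_lit 120, nat_lit 160], [nat_lit 0, nat_lit 0, nat_lit 2132], [(nat_lit 0, nat_lit 0, nat_lit 0), (nat_lit 0, nat_lit 0, nat_lit 0), (nat_lit 858, nat_lit 1000, nat_lit 713)], (nat_lit 100, nat_lit 92, nat_lit 61)⟩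
noncomputable def p056_k23 : C1.Kn := ⟨[nat_lit 60, nat_lit 120], [nat_lit 0, nat_lit 0], [(nat_lit 0, nat_lit 0, nat_lit 0), (nat_lit 0, nat_lit 0, nat_lit 0)], (nat_lit 92, nat_lit 100, nat_lit 44)⟩
noncomputable def p056_k24 : C1.Kn := ⟨[nat_lit 80, nat_lit 120], [nat_lit 0, nat_lit 796], [(nat_lit 0, nat_lit 0, nat_lit 0), (nat_lit 1000, nat_lit 938, nat_lit 310)], (nat_lit 94, nat_lit 100, nat_lit 44)⟩
noncomputable def p056_k25 : C1.Kn := ⟨[nat_lit 80, nat_lit 140], [nat_lit 0, nat_lit 792], [(nat_lit 0, nat_lit 0, nat_lit 0), (nat_lit 1000, nat_lit 959, nat_lit 206)], (nat_lit 100, nat_lit 99, nat_lit 63)⟩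
noncomputable def p056_k26 : C1.Kn := ⟨[nat_lit 80, nat_lit 120, nat_lit 140], [nat_lit 0, nat_lit 264, nat_lit 1360], [(nat_lit 0, nat_lit 0, nat_lit 0), (nat_lit 1000, nat_lit 979, nat_lit 103), (nat_lit 951, nat_lit 1000, nat_lit 628)], (nat_lit 100, nat_lit 95, nat_lit 62)⟩
noncomputable def p056_k27 : C1.Kn := ⟨[nat_lit 60, nat_lit 100, nat_lit 120], [nat_lit 0, nat_lit 909, nat_lit 1866], [(nat_lit 0, nat_lit 0, nat_lit 0), (nat_lit 1000, nat_lit 858, nat_lit 354), (nat_lit 1000, nat_lit 849, nat_lit 705)], (nat_lit 84, nat_lit 100, nat_lit 60)⟩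
noncomputable def p056_k28 : C1.Kn := ⟨[nat_lit 60, nat_lit 100, nat_lit 120], [nat_lit 0, nat_lit 302, nat_lit 1376], [(nat_lit 0, nat_lit 0, nat_lit 0), (nat_lit 1000, nat_lit 953, nat_lit 118), (nat_lit 1000, nat_lit 911, nat_lit 628)], (nat_lit 91, nat_lit 100, nat_lit 61)⟩
noncomputable def p056_k29 : C1.Kn := ⟨[nat_lit 80, nat_lit 120, nat_lit 140], [nat_lit 0, nat_lit 796, nat_lit 1801], [(nat_lit 0, nat_lit 0, nat_lit 0), (nat_lit 1000, nat_lit 938, nat_lit 310), (nat_lit 982, nat_lit 1000, nat_lit 736)], (nat_lit 98, nat_lit 100, nat_lit 63)⟩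
noncomputable def p056_k30 : C1.Kn := ⟨[nat_lit 60, nat_lit 100, nat_lit 120], [nat_lit 0, nat_lit 0, nat_lit 1164], [(nat_lit 0, nat_lit 0, nat_lit 0), (nat_lit 0, nat_lit 0, nat_lit 0), (nat_lit 1000, nat_lit 933, nat_lit 572)], (nat_lit 92, nat_lit 100, nat_lit 44)⟩
noncomputable def p056_k31 : C1.Kn := ⟨[nat_lit 80, nat_lit 120, nat_lit 140], [nat_lit 0, nat_lit 0, nat_lit 1164], [(nat_lit 0, nat_lit 0, nat_lit 0), (nat_lit 0, nat_lit 0, nat_lit 0), (nat_lit 941, nat_lit 1000, nat_lit 576)], (nat_lit 100, nat_lit 99, nat_lit 44)⟩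
noncomputable def p056_k32 : C1.Kn := ⟨[nat_lit 60, nat_lit 100], [nat_lit 0, nat_lit 609], [(nat_lit 0, nat_lit 0, nat_lit 0), (nat_lit 1000, nat_lit 905, nat_lit 238)], (nat_lit 87, nat_lit 100, nat_lit 44)⟩
noncomputable def p056_k33 : C1.Kn := ⟨[nat_lit 60, nat_lit 100], [nat_lit 0, nat_lit 0], [(nat_lit 0, nat_lit 0, nat_lit 0), (nat_lit 0, nat_lit 0, nat_lit 0)], (nat_lit 92, nat_lit 100, nat_lit 28)⟩
noncomputable def p056_k34 : C1.Kn := ⟨[nat_lit 80, nat_lit 120], [nat_lit 0, nat_lit 0], [(nat_lit 0, nat_lit 0, nat_lit 0), (nat_lit 0, nat_lit 0, nat_lit 0)], (nat_lit 98, nat_lit 100, nat_lit 28)⟩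
noncomputable def p056_k35 : C1.Kn := ⟨[nat_lit 60, nat_lit 100], [nat_lit 0, nat_lit 84], [(nat_lit 0, nat_lit 0, nat_lit 0), (nat_lit 1000, nat_lit 987, nat_lit 33)], (nat_lit 92, nat_lit 100, nat_lit 28)⟩
noncomputable def p056_k36 : C1.Kn := ⟨[nat_lit 60, nat_lit 100, nat_lit 140], [nat_lit 0, nat_lit 151, nat_lit 2175], [(nat_lit 0, nat_lit 0, nat_lit 0), (nat_lit 1000, nat_lit 977, nat_lit 59), (nat_lit 1000, nat_lit 974, nat_lit 785)], (nat_lit 92, nat_lit 100, nat_lit 61)⟩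
noncomputable def p056_k37 : C1.Kn := ⟨[nat_lit 60, nat_lit 80], [nat_lit 0, nat_lit 0], [(nat_lit 0, nat_lit 0, nat_lit 0), (nat_lit 0, nat_lit 0, nat_lit 0)], (nat_lit 94, nat_lit 100, nat_lit 20)⟩
noncomputable def p056_k38 : C1.Kn := ⟨[nat_lit 80, nat_lit 100], [nat_lit 0, nat_lit 0], [(nat_lit 0, nat_lit 0, nat_lit 0), (nat_lit 0, nat_lit 0, nat_lit 0)], (nat_lit 98, nat_lit 100, nat_lit 20)⟩
noncomputable def p056_k39 : C1.Kn := ⟨[nat_lit 60, nat_lit 100, nat_lit 120], [nat_lit 0, nat_lit 151, nat_lit 1267], [(nat_lit 0, nat_lit 0, nat_lit 0), (nat_lit 1000, nat_lit 977, nat_lit 59), (nat_lit 1000, nat_lit 921, nat_lit 595)], (nat_lit 91, nat_lit 100, nat_lit 44)⟩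
noncomputable def p056_l0 : Lf2 := ⟨nat_lit 0, nat_lit 10, [nat_lit 0, nat_lit 5, nat_lit 5, nat_lit 20], false, nat_lit 0, nat_lit 160, nat_lit 0, nat_lit 384, ⟨nat_lit 137, nat_lit 0, nat_lit 863, nat_lit 5, nat_lit 194, nat_lit 707, nat_lit 64, nat_lit 863, nat_lit 38400, nat_lit 263, nat_lit 1350, nat_lit 206, nat_lit 54250075, nat_lit 0, nat_lit 0, nat_lit 2433268, false, false⟩,
 nat_lit 1486, nat_lit 3959, nat_lit 0, nat_lit 2476, nat_lit 3465, nat_lit 636, nat_lit 0, nat_lit 0, nat_lit 0, nat_lit 113, nat_lit 0, nat_lit 0, nat_lit 0, nat_lit 0, nat_lit 129, nat_lit 844400, nat_lit 0, nat_lit 0, [(nat_lit 12, [(nat_lit 5, nat_lit 31), (nat_lit 6, nat_lit 832)])],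
 ⟨p056_k0, nat_lit 0, nat_lit 0, nat_lit 286, nat_lit 0, nat_lit 173108, [nat_lit 2985577201, nat_lit 2481512134, nat_lit 397346400], [], [nat_lit 14985481961, nat_lit 16147483061, nat_lit 18065395300, nat_lit 19119469130, nat_lit 14800641321, nat_lit 15792705541, nat_lit 17875504335, nat_lit 18834179995], nat_lit 1271250, nat_lit 1271250, nat_lit 780000, nat_lit 1762500, nat_lit 0, nat_lit 1100001, [nat_lit 780000, nat_lit 1435000, nat_lit 1271250], [nat_lit 8, nat_lit 40, nat_lit 40, nat_lit 80, nat_lit 1, nat_lit 317, nat_lit 100, nat_lit 9]⟩, ⟨p056_k1, nat_lit 0, nat_lit 0, nat_lit 407, nat_lit 0, nat_lit 290698, [nat_lit 856250000, nat_lit 1348354000, nat_lit 1626464000], [], [nat_lit 5979097024, nat_lit 6094654140, nat_lit 6166847628, nat_lit 6257154684, nat_lit 6493390132, nat_lit 6554922829, nat_lit 7175282680, nat_lit 6610974635], nat_lit 1271250, nat_lit 1271250, nat_lit 780000, nat_lit 1762500, nat_lit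 0, nat_lit 2712000, [nat_lit 1412500, nat_lit 1271250, nat_lit 1271250], [nat_lit 46, nat_lit 40, nat_lit 40, nat_lit 80, nat_lit 41, nat_lit 456, nat_lit 225, nat_lit 12]⟩,
 ⟨nat_lit 5000, nat_lit 5478, ⟨.ofNat (nat_lit 350132), .ofNat (nat_lit 574920), .ofNat (nat_lit 392847), .ofNat (nat_lit 617614), .ofNat (nat_lit 357141), .ofNat (nat_lit 571415), .ofNat (nat_lit 399998), .ofNat (nat_lit 614253)⟩, ⟨.negSucc (nat_lit 2832), .ofNat (nat_lit 296923), .ofNat (nat_lit 0), .ofNat (nat_lit 339637), .ofNat (nat_lit 0), .ofNat (nat_lit 299999), .ofNat (nat_lit 0), .ofNat (nat_lit 342856)⟩⟩, [⟨nat_lit 22, nat_lit 100, nat_lit 52, nat_lit 80, nat_lit 40262557⟩]⟩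
noncomputable def p056_l1 : Lf2 := ⟨nat_lit 0, nat_lit 10, [nat_lit 0, nat_lit 5, nat_lit 5, nat_lit 20], false, nat_lit 0, nat_lit 160, nat_lit 0, nat_lit 384, ⟨nat_lit 0, nat_lit 0, nat_lit 1000, nat_lit 5, nat_lit 167, nat_lit 499, nat_lit 65, nat_lit 1000, nat_lit 38400, nat_lit 263, nat_lit 82882, nat_lit 285, nat_lit 57077985, nat_lit 0, nat_lit 0, nat_lit 2096904, false, false⟩,
 nat_lit 0, nat_lit 5320, nat_lit 0, nat_lit 1388, nat_lit 3683, nat_lit 0, nat_lit 0, nat_lit 0, nat_lit 0, nat_lit 0, nat_lit 0, nat_lit 0, nat_lit 0, nat_lit 0, nat_lit 172, nat_lit 773800, nat_lit 0, nat_lit 0, [(nat_lit 15, [(nat_lit 5, nat_lit 377), (nat_lit 6, nat_lit 623)])],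
 ⟨p056_k2, nat_lit 0, nat_lit 0, nat_lit 265, nat_lit 0, nat_lit 283941, [nat_lit 3582173401, nat_lit 435041700], [], [nat_lit 17624820339, nat_lit 17060524780, nat_lit 16425664139, nat_lit 17791702491, nat_lit 16006016667, nat_lit 17221886087, nat_lit 16820848009, nat_lit 17967616359], nat_lit 1271250, nat_lit 1271250, nat_lit 780000, nat_lit 1100001, nat_lit 0, nat_lit 1100001, [nat_lit 780000, nat_lit 1762500], [nat_lit 74, nat_lit 40, nat_lit 40, nat_lit 80, nat_lit 43, nat_lit 317, nat_lit 100, nat_lit 10]⟩, ⟨p056_k3, nat_lit 0, nat_lit 0, nat_lit 534, nat_lit 0, nat_lit 530082, [nat_lit 0, nat_lit 0], [], [nat_lit 0, nat_lit 0, nat_lit 0, nat_lit 0, nat_lit 0, nat_lit 0, nat_lit 0, nat_lit 0], nat_lit 1271250, nat_lit 1271250, nat_lit 780000, nat_lit 1100001, nat_lit 0, nat_lit 2712000, [nat_lit 1412500, nat_lit 1271250], [nat_lit 107, nat_lit 40, nat_lit 40, nat_lit 80, nat_lit 12, nat_lit 428, nat_lit 200,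 nat_lit 11]⟩,
 ⟨nat_lit 4472, nat_lit 5000, ⟨.ofNat (nat_lit 357141), .ofNat (nat_lit 428570), .ofNat (nat_lit 399984), .ofNat (nat_lit 471408), .ofNat (nat_lit 364042), .ofNat (nat_lit 432020), .ofNat (nat_lit 407160), .ofNat (nat_lit 475134)⟩, ⟨.ofNat (nat_lit 0), .ofNat (nat_lit 299999), .ofNat (nat_lit 0), .ofNat (nat_lit 342856), .ofNat (nat_lit 0), .ofNat (nat_lit 302621), .ofNat (nat_lit 0), .ofNat (nat_lit 345754)⟩⟩, []⟩
noncomputable def p056_l2 : Lf2 := ⟨nat_lit 0, nat_lit 10, [nat_lit 0, nat_lit 5, nat_lit 5, nat_lit 20], false, nat_lit 0, nat_lit 160, nat_lit 0, nat_lit 384, ⟨nat_lit 113, nat_lit 0, nat_lit 887, nat_lit 5, nat_lit 209, nat_lit 887, nat_lit 65, nat_lit 887, nat_lit 38400, nat_lit 263, nat_lit 1067, nat_lit 207, nat_lit 52675248, nat_lit 0, nat_lit 0, nat_lit 2594754, false, false⟩,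
 nat_lit 3882, nat_lit 1467, nat_lit 0, nat_lit 0, nat_lit 3703, nat_lit 1663, nat_lit 365, nat_lit 0, nat_lit 0, nat_lit 0, nat_lit 0, nat_lit 0, nat_lit 0, nat_lit 0, nat_lit 46, nat_lit 359000, nat_lit 0, nat_lit 0, [(nat_lit 15, [(nat_lit 5, nat_lit 880), (nat_lit 6, nat_lit 7)])],
 ⟨p056_k2, nat_lit 0, nat_lit 0, nat_lit 258, nat_lit 0, nat_lit 283941, [nat_lit 2091729000, nat_lit 94716300], [], [nat_lit 16454596137, nat_lit 17820648008, nat_lit 19418749846, nat_lit 21021025440, nat_lit 16830808446, nat_lit 17980405796, nat_lit 22495010751, nat_lit 20818262727], nat_lit 1271250, nat_lit 1271250, nat_lit 1100001, nat_lit 1785000, nat_lit 0, nat_lit 1100001, [nat_lit 780000, nat_lit 1762500], [nat_lit 74, nat_lit 40, nat_lit 40, nat_lit 80, nat_lit 43, nat_lit 317, nat_lit 100, nat_lit 10]⟩, ⟨p056_k3, nat_lit 0, nat_lit 0, nat_lit 520, nat_lit 0, nat_lit 530082, [nat_lit 706250000, nat_lit 1341536000], [], [nat_lit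 4769388652, nat_lit 4764605956, nat_lit 4658851844, nat_lit 4650730748, nat_lit 7279056749, nat_lit 5764972412, nat_lit 4270419678, nat_lit 3944060201], nat_lit 1271250, nat_lit 1271250, nat_lit 1271250, nat_lit 1271250, nat_lit 0, nat_lit 2712000, [nat_lit 1412500, nat_lit 1271250], [nat_lit 107, nat_lit 40, nat_lit 40, nat_lit 80, nat_lit 12, nat_lit 456, nat_lit 225, nat_lit 12]⟩,
 ⟨nat_lit 4472, nat_lit 5000, ⟨.ofNat (nat_lit 428570), .ofNat (nat_lit 571423), .ofNat (nat_lit 471408), .ofNat (nat_lit 614256), .ofNat (nat_lit 432020), .ofNat (nat_lit 567973), .ofNat (nat_lit 475134), .ofNat (nat_lit 611081)⟩, ⟨.ofNat (nat_lit 0), .ofNat (nat_lit 299999), .ofNat (nat_lit 0), .ofNat (nat_lit 342856), .ofNat (nat_lit 0), .ofNat (nat_lit 302621), .ofNat (nat_lit 0), .ofNat (nat_lit 345754)⟩⟩, [⟨nat_lit 22, nat_lit 100, nat_lit 60, nat_lit 80, nat_lit 16867969⟩]⟩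
noncomputable def p056_l3 : Lf2 := ⟨nat_lit 0, nat_lit 10, [nat_lit 0, nat_lit 5, nat_lit 5, nat_lit 20], false, nat_lit 0, nat_lit 160, nat_lit 0, nat_lit 384, ⟨nat_lit 1000, nat_lit 0, nat_lit 0, nat_lit 0, nat_lit 0, nat_lit 0, nat_lit 0, nat_lit 0, nat_lit 0, nat_lit 0, nat_lit 0, nat_lit 0, nat_lit 0, nat_lit 0, nat_lit 0, nat_lit 0, false, false⟩,
 nat_lit 18209, nat_lit 0, nat_lit 0, nat_lit 7639, nat_lit 7817, nat_lit 7803, nat_lit 1903, nat_lit 0, nat_lit 0, nat_lit 1438, nat_lit 0, nat_lit 0, nat_lit 0, nat_lit 0, nat_lit 0, nat_lit 0, nat_lit 0, nat_lit 0, [],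
 ⟨p056_k4, nat_lit 0, nat_lit 0, nat_lit 298, nat_lit 0, nat_lit 173108, [nat_lit 3282000000, nat_lit 4688000000, nat_lit 9842000000], [], [nat_lit 22323789995, nat_lit 24592030794, nat_lit 39948915263, nat_lit 41313394690, nat_lit 18051182003, nat_lit 17892760868, nat_lit 30940332895, nat_lit 32135125267], nat_lit 1271250, nat_lit 1271250, nat_lit 1271250, nat_lit 1271250, nat_lit 0, nat_lit 1100001, [nat_lit 780000, nat_lit 1100000, nat_lit 2127500], [nat_lit 42, nat_lit 40, nat_lit 40, nat_lit 80, nat_lit 13, nat_lit 373, nat_lit 150, nat_lit 10]⟩, ⟨p056_k5, nat_lit 0, nat_lit 0, nat_lit 395, nat_lit 0, nat_lit 290698, [nat_lit 6250000000, nat_lit 7968000000, nat_lit 11872000000], [], [nat_lit 36249582040, nat_lit 36777913828, nat_lit 42625744709, nat_lit 42766964035, nat_lit 40190395970, nat_lit 34967049793, nat_lit 38159739543, nat_lit 38068706267], nat_lit 1271250, nat_lit 1271250, nat_lit 1271250, nat_lit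 1271250, nat_lit 0, nat_lit 2712000, [nat_lit 1412500, nat_lit 1271250, nat_lit 1271250], [nat_lit 53, nat_lit 40, nat_lit 40, nat_lit 80, nat_lit 14, nat_lit 538, nat_lit 300, nat_lit 14]⟩,
 zbF0, [⟨nat_lit 22, nat_lit 84, nat_lit 100, nat_lit 84, nat_lit 91987374⟩, ⟨nat_lit 22, nat_lit 100, nat_lit 40, nat_lit 100, nat_lit 75035004⟩]⟩
noncomputable def p056_l4 : Lf2 := ⟨nat_lit 0, nat_lit 10, [nat_lit 0, nat_lit 5, nat_lit 5, nat_lit 20], false, nat_lit 0, nat_lit 160, nat_lit 0, nat_lit 384, ⟨nat_lit 608, nat_lit 392, nat_lit 0, nat_lit 6, nat_lit 289, nat_lit 392, nat_lit 65, nat_lit 0, nat_lit 0, nat_lit 0, nat_lit 0, nat_lit 0, nat_lit 43974446, nat_lit 23025554, nat_lit 0, nat_lit 3217182, true, true⟩,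
 nat_lit 11312, nat_lit 0, nat_lit 0, nat_lit 0, nat_lit 5905, nat_lit 4848, nat_lit 1112, nat_lit 0, nat_lit 0, nat_lit 749, nat_lit 0, nat_lit 0, nat_lit 0, nat_lit 0, nat_lit 0, nat_lit 156800, nat_lit 0, nat_lit 0, [(nat_lit 15, [(nat_lit 1, nat_lit 392)])],
 ⟨p056_k6, nat_lit 0, nat_lit 0, nat_lit 291, nat_lit 0, nat_lit 283941, [nat_lit 2787374400, nat_lit 3766329600, nat_lit 5752416000], [], [nat_lit 22187725210, nat_lit 24272234400, nat_lit 35809943199, nat_lit 37018033845, nat_lit 18762046930, nat_lit 19670121880, nat_lit 29585947086, nat_lit 30649848420], nat_lit 1271250, nat_lit 1271250, nat_lit 1271250, nat_lit 1271250, nat_lit 0, nat_lit 1100001, [nat_lit 780000, nat_lit 1100000, nat_lit 1785000], [nat_lit 36, nat_lit 40, nat_lit 40, nat_lit 80, nat_lit 7, nat_lit 249, nat_lit 40, nat_lit 8]⟩, ⟨p056_k5, nat_lit 0, nat_lit 0, nat_lit 510, nat_lit 0, nat_lit 530082, [nat_lit 3800000000, nat_lit 4844544000,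 nat_lit 7218176000], [], [nat_lit 24379717970, nat_lit 24519461202, nat_lit 26928400543, nat_lit 26905758572, nat_lit 24399750810, nat_lit 22436618348, nat_lit 23587712538, nat_lit 23430997566], nat_lit 1271250, nat_lit 1271250, nat_lit 1271250, nat_lit 1271250, nat_lit 0, nat_lit 2712000, [nat_lit 1412500, nat_lit 1271250, nat_lit 1271250], [nat_lit 53, nat_lit 40, nat_lit 40, nat_lit 80, nat_lit 14, nat_lit 538, nat_lit 300, nat_lit 14]⟩,
 ⟨nat_lit 4472, nat_lit 5000, ⟨.ofNat (nat_lit 571423), .ofNat (nat_lit 842833), .ofNat (nat_lit 614256), .ofNat (nat_lit 885667), .ofNat (nat_lit 567973), .ofNat (nat_lit 826271), .ofNat (nat_lit 611081), .ofNat (nat_lit 869380)⟩, ⟨.ofNat (nat_lit 0), .ofNat (nat_lit 299999), .ofNat (nat_lit 0), .ofNat (nat_lit 342856), .ofNat (nat_lit 0), .ofNat (nat_lit 302621), .ofNat (nat_lit 0), .ofNat (nat_lit 345754)⟩⟩, [⟨nat_lit 22, nat_lit 85, nat_lit 100, nat_lit 84, nat_lit 107891331⟩]⟩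
noncomputable def p056_l5 : Lf2 := ⟨nat_lit 0, nat_lit 10, [nat_lit 0, nat_lit 5, nat_lit 5, nat_lit 20], false, nat_lit 160, nat_lit 240, nat_lit 0, nat_lit 384, ⟨nat_lit 0, nat_lit 1000, nat_lit 0, nat_lit 5, nat_lit 194, nat_lit 1000, nat_lit 157, nat_lit 0, nat_lit 0, nat_lit 0, nat_lit 0, nat_lit 0, nat_lit 45998660, nat_lit 12217339, nat_lit 8784001, nat_lit 4482052, false, false⟩,
 nat_lit 0, nat_lit 6495, nat_lit 0, nat_lit 0, nat_lit 4133, nat_lit 0, nat_lit 0, nat_lit 0, nat_lit 0, nat_lit 0, nat_lit 0, nat_lit 0, nat_lit 0, nat_lit 0, nat_lit 0, nat_lit 400000, nat_lit 0, nat_lit 0, [(nat_lit 12, [(nat_lit 1, nat_lit 1000)])],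
 ⟨p056_k0, nat_lit 0, nat_lit 0, nat_lit 123, nat_lit 0, nat_lit 173108, [nat_lit 2068400000, nat_lit 2721200001, nat_lit 2642799999], [], [nat_lit 12527759136, nat_lit 14153776012, nat_lit 16785331632, nat_lit 18091581856, nat_lit 16002889472, nat_lit 17389963882, nat_lit 19513148920, nat_lit 20635700114], nat_lit 1271250, nat_lit 1271250, nat_lit 780000, nat_lit 1762500, nat_lit 1100001, nat_lit 1785000, [nat_lit 780000, nat_lit 1435000, nat_lit 1271250], [nat_lit 8, nat_lit 40, nat_lit 40, nat_lit 80, nat_lit 1, nat_lit 345, nat_lit 125, nat_lit 9]⟩, ⟨p056_k1, nat_lit 0, nat_lit 0, nat_lit 407, nat_lit 0, nat_lit 290698, [nat_lit 0, nat_lit 0, nat_lit 0], [], [nat_lit 0, nat_lit 0, nat_lit 0, nat_lit 0, nat_lit 0, nat_lit 0, nat_lit 0, nat_lit 0], nat_lit 1271250, nat_lit 1271250, nat_lit 780000, nat_lit 1762500, nat_lit 0, nat_lit 2712000, [nat_lit 1412500, nat_lit 1271250, nat_lit 1271250], [nat_lit 46, nat_lit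 40, nat_lit 40, nat_lit 80, nat_lit 41, nat_lit 456, nat_lit 225, nat_lit 12]⟩,
 ⟨nat_lit 5000, nat_lit 5478, ⟨.ofNat (nat_lit 350132), .ofNat (nat_lit 574920), .ofNat (nat_lit 392847), .ofNat (nat_lit 617614), .ofNat (nat_lit 357141), .ofNat (nat_lit 571415), .ofNat (nat_lit 399998), .ofNat (nat_lit 614253)⟩, ⟨.ofNat (nat_lit 296923), .ofNat (nat_lit 446789), .ofNat (nat_lit 339637), .ofNat (nat_lit 489503), .ofNat (nat_lit 299999), .ofNat (nat_lit 442856), .ofNat (nat_lit 342856), .ofNat (nat_lit 485713)⟩⟩, []⟩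
noncomputable def p056_l6 : Lf2 := ⟨nat_lit 0, nat_lit 10, [nat_lit 0, nat_lit 5, nat_lit 5, nat_lit 20], false, nat_lit 160, nat_lit 240, nat_lit 0, nat_lit 384, ⟨nat_lit 0, nat_lit 667, nat_lit 333, nat_lit 5, nat_lit 195, nat_lit 1000, nat_lit 157, nat_lit 333, nat_lit 59604, nat_lit 274, nat_lit 1067, nat_lit 207, nat_lit 45952992, nat_lit 12285338, nat_lit 8761670, nat_lit 4486266, false, false⟩,
 nat_lit 0, nat_lit 6276, nat_lit 0, nat_lit 0, nat_lit 4344, nat_lit 0, nat_lit 349, nat_lit 0, nat_lit 0, nat_lit 0, nat_lit 0, nat_lit 0, nat_lit 0, nat_lit 0, nat_lit 9, nat_lit 599800, nat_lit 0, nat_lit 0, [(nat_lit 15, [(nat_lit 1, nat_lit 667), (nat_lit 6, nat_lit 333)])],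
 ⟨p056_k2, nat_lit 0, nat_lit 0, nat_lit 145, nat_lit 0, nat_lit 283941, [nat_lit 2063557201, nat_lit 288862800], [], [nat_lit 19183768402, nat_lit 17065362977, nat_lit 18875325187, nat_lit 19943798003, nat_lit 18255942227, nat_lit 19389467283, nat_lit 22816956368, nat_lit 21931821459], nat_lit 1271250, nat_lit 1271250, nat_lit 780000, nat_lit 1762500, nat_lit 1100001, nat_lit 1785000, [nat_lit 780000, nat_lit 1762500], [nat_lit 74, nat_lit 40, nat_lit 40, nat_lit 80, nat_lit 43, nat_lit 345, nat_lit 125, nat_lit 11]⟩, ⟨p056_k3, nat_lit 0, nat_lit 0, nat_lit 534, nat_lit 0, nat_lit 530082, [nat_lit 0, nat_lit 0], [], [nat_lit 0, nat_lit 0, nat_lit 0, nat_lit 0, nat_lit 0, nat_lit 0, nat_lit 0, nat_lit 0], nat_lit 1271250, nat_lit 1271250, nat_lit 780000, nat_lit 1762500, nat_lit 0, nat_lit 2712000, [nat_lit 1412500, nat_lit 1271250], [nat_lit 107, nat_lit 40, nat_lit 40, nat_lit 80, nat_lit 12, nat_lit 456, nat_lit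 225, nat_lit 12]⟩,
 ⟨nat_lit 4472, nat_lit 5000, ⟨.ofNat (nat_lit 357141), .ofNat (nat_lit 571423), .ofNat (nat_lit 399984), .ofNat (nat_lit 614256), .ofNat (nat_lit 364042), .ofNat (nat_lit 567973), .ofNat (nat_lit 407160), .ofNat (nat_lit 611081)⟩, ⟨.ofNat (nat_lit 299999), .ofNat (nat_lit 442856), .ofNat (nat_lit 342856), .ofNat (nat_lit 485713), .ofNat (nat_lit 302621), .ofNat (nat_lit 438578), .ofNat (nat_lit 345754), .ofNat (nat_lit 481711)⟩⟩, []⟩
noncomputable def p056_l7 : Lf2 := ⟨nat_lit 0, nat_lit 10, [nat_lit 0, nat_lit 5, nat_lit 5, nat_lit 20], false, nat_lit 240, nat_lit 336, nat_lit 0, nat_lit 384, ⟨nat_lit 0, nat_lit 1000, nat_lit 0, nat_lit 5, nat_lit 194, nat_lit 1000, nat_lit 222, nat_lit 0, nat_lit 0, nat_lit 0, nat_lit 0, nat_lit 0, nat_lit 41280375, nat_lit 11496347, nat_lit 14223278, nat_lit 5013251, false, false⟩,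
 nat_lit 0, nat_lit 7048, nat_lit 0, nat_lit 1297, nat_lit 4485, nat_lit 0, nat_lit 89, nat_lit 0, nat_lit 0, nat_lit 0, nat_lit 0, nat_lit 0, nat_lit 0, nat_lit 0, nat_lit 12, nat_lit 1000000, nat_lit 0, nat_lit 0, [(nat_lit 12, [(nat_lit 2, nat_lit 1000)])],
 ⟨p056_k4, nat_lit 0, nat_lit 0, nat_lit 163, nat_lit 0, nat_lit 173108, [nat_lit 2136960000, nat_lit 2804400000, nat_lit 42000000], [], [nat_lit 18245611745, nat_lit 19284381545, nat_lit 20537380165, nat_lit 21403218910, nat_lit 22731241038, nat_lit 23758753451, nat_lit 24908781200, nat_lit 25838985366], nat_lit 1271250, nat_lit 1271250, nat_lit 780000, nat_lit 1762500, nat_lit 1271250, nat_lit 1271250, [nat_lit 780000, nat_lit 1100000, nat_lit 2127500], [nat_lit 42, nat_lit 40, nat_lit 40, nat_lit 80, nat_lit 13, nat_lit 373, nat_lit 150, nat_lit 10]⟩, ⟨p056_k5, nat_lit 0, nat_lit 0, nat_lit 392, nat_lit 0, nat_lit 290698, [nat_lit 0, nat_lit 0, nat_lit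 0], [], [nat_lit 0, nat_lit 0, nat_lit 0, nat_lit 0, nat_lit 0, nat_lit 0, nat_lit 0, nat_lit 0], nat_lit 1271250, nat_lit 1271250, nat_lit 780000, nat_lit 1762500, nat_lit 0, nat_lit 2712000, [nat_lit 1412500, nat_lit 1271250, nat_lit 1271250], [nat_lit 53, nat_lit 40, nat_lit 40, nat_lit 80, nat_lit 14, nat_lit 456, nat_lit 225, nat_lit 12]⟩,
 ⟨nat_lit 5000, nat_lit 5478, ⟨.ofNat (nat_lit 350132), .ofNat (nat_lit 574920), .ofNat (nat_lit 392847), .ofNat (nat_lit 617614), .ofNat (nat_lit 357141), .ofNat (nat_lit 571415), .ofNat (nat_lit 399998), .ofNat (nat_lit 614253)⟩, ⟨.ofNat (nat_lit 446789), .ofNat (nat_lit 626629), .ofNat (nat_lit 489503), .ofNat (nat_lit 669336), .ofNat (nat_lit 442856), .ofNat (nat_lit 614284), .ofNat (nat_lit 485713), .ofNat (nat_lit 657134)⟩⟩, [⟨nat_lit 4, nat_lit 94, nat_lit 100, nat_lit 97, nat_lit 185726099⟩]⟩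
noncomputable def p056_l8 : Lf2 := ⟨nat_lit 0, nat_lit 10, [nat_lit 0, nat_lit 5, nat_lit 5, nat_lit 20], false, nat_lit 240, nat_lit 320, nat_lit 0, nat_lit 384, ⟨nat_lit 0, nat_lit 1000, nat_lit 0, nat_lit 5, nat_lit 195, nat_lit 1000, nat_lit 213, nat_lit 0, nat_lit 0, nat_lit 0, nat_lit 0, nat_lit 0, nat_lit 41883179, nat_lit 11670608, nat_lit 13446213, nat_lit 4961200, false, false⟩,
 nat_lit 0, nat_lit 5817, nat_lit 0, nat_lit 0, nat_lit 4026, nat_lit 0, nat_lit 295, nat_lit 0, nat_lit 0, nat_lit 0, nat_lit 0, nat_lit 0, nat_lit 0, nat_lit 0, nat_lit 0, nat_lit 563800, nat_lit 0, nat_lit 0, [(nat_lit 15, [(nat_lit 1, nat_lit 727), (nat_lit 2, nat_lit 273)])],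
 ⟨p056_k6, nat_lit 0, nat_lit 0, nat_lit 170, nat_lit 0, nat_lit 283941, [nat_lit 2009618520, nat_lit 2291045201, nat_lit 1539306000], [], [nat_lit 19466464310, nat_lit 20465258042, nat_lit 21792744830, nat_lit 22614608537, nat_lit 22754454106, nat_lit 23611247441, nat_lit 24778967741, nat_lit 25599339488], nat_lit 1271250, nat_lit 1271250, nat_lit 780000, nat_lit 1762500, nat_lit 1271250, nat_lit 1271250, [nat_lit 780000, nat_lit 1100000, nat_lit 1785000], [nat_lit 36, nat_lit 40, nat_lit 40, nat_lit 80, nat_lit 7, nat_lit 272, nat_lit 60, nat_lit 8]⟩, ⟨p056_k5, nat_lit 0, nat_lit 0, nat_lit 541, nat_lit 0, nat_lit 530082, [nat_lit 0, nat_lit 0, nat_lit 0], [], [nat_lit 0, nat_lit 0, nat_lit 0, nat_lit 0, nat_lit 0, nat_lit 0, nat_lit 0, nat_lit 0], nat_lit 1271250, nat_lit 1271250, nat_lit 780000, nat_lit 1762500, nat_lit 0, nat_lit 2712000, [nat_lit 1412500, nat_lit 1271250, nat_lit 1271250], [nat_lit 53, nat_lit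 40, nat_lit 40, nat_lit 80, nat_lit 14, nat_lit 456, nat_lit 225, nat_lit 12]⟩,
 ⟨nat_lit 4472, nat_lit 5000, ⟨.ofNat (nat_lit 357141), .ofNat (nat_lit 571423), .ofNat (nat_lit 399984), .ofNat (nat_lit 614256), .ofNat (nat_lit 364042), .ofNat (nat_lit 567973), .ofNat (nat_lit 407160), .ofNat (nat_lit 611081)⟩, ⟨.ofNat (nat_lit 442856), .ofNat (nat_lit 585713), .ofNat (nat_lit 485713), .ofNat (nat_lit 628570), .ofNat (nat_lit 438578), .ofNat (nat_lit 574534), .ofNat (nat_lit 481711), .ofNat (nat_lit 617667)⟩⟩, [⟨nat_lit 4, nat_lit 100, nat_lit 93, nat_lit 97, nat_lit 175169083⟩]⟩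
noncomputable def p056_l9 : Lf2 := ⟨nat_lit 0, nat_lit 5, [nat_lit 4, nat_lit 5, nat_lit 5, nat_lit 20], false, nat_lit 160, nat_lit 336, nat_lit 0, nat_lit 384, ⟨nat_lit 261, nat_lit 739, nat_lit 0, nat_lit 6, nat_lit 267, nat_lit 739, nat_lit 192, nat_lit 0, nat_lit 0, nat_lit 0, nat_lit 0, nat_lit 0, nat_lit 38038350, nat_lit 18218082, nat_lit 10743568, nat_lit 5226125, true, true⟩,
 nat_lit 5270, nat_lit 1937, nat_lit 0, nat_lit 2506, nat_lit 4586, nat_lit 2258, nat_lit 702, nat_lit 0, nat_lit 0, nat_lit 440, nat_lit 0, nat_lit 0, nat_lit 0, nat_lit 0, nat_lit 0, nat_lit 295600, nat_lit 0, nat_lit 0, [(nat_lit 12, [(nat_lit 1, nat_lit 739)])],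
 ⟨p056_k7, nat_lit 0, nat_lit 0, nat_lit 126, nat_lit 0, nat_lit 164254, [nat_lit 2359284600, nat_lit 3126345200, nat_lit 4063359467], [], [nat_lit 19702390123, nat_lit 20698735983, nat_lit 23124296587, nat_lit 23945879287, nat_lit 25452836308, nat_lit 26222584407, nat_lit 28288349165, nat_lit 29095524537], nat_lit 1271250, nat_lit 1271250, nat_lit 1271250, nat_lit 1271250, nat_lit 1100001, nat_lit 2607000, [nat_lit 780000, nat_lit 1100000, nat_lit 1785000], [nat_lit 36, nat_lit 40, nat_lit 40, nat_lit 80, nat_lit 7, nat_lit 317, nat_lit 100, nat_lit 9]⟩, ⟨p056_k8, nat_lit 0, nat_lit 0, nat_lit 371, nat_lit 0, nat_lit 273343, [nat_lit 1631250000, nat_lit 2079648000, nat_lit 3098592000], [], [nat_lit 8266961652, nat_lit 8480345172, nat_lit 9169942520, nat_lit 9366836020, nat_lit 10412862358, nat_lit 8413492237, nat_lit 8823967709, nat_lit 8856529832], nat_lit 1271250, nat_lit 1271250, nat_lit 1271250, nat_lit 1271250,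 nat_lit 0, nat_lit 2712000, [nat_lit 1412500, nat_lit 1271250, nat_lit 1271250], [nat_lit 53, nat_lit 40, nat_lit 40, nat_lit 80, nat_lit 14, nat_lit 483, nat_lit 250, nat_lit 12]⟩,
 ⟨nat_lit 5000, nat_lit 5478, ⟨.ofNat (nat_lit 574920), .ofNat (nat_lit 724760), .ofNat (nat_lit 617614), .ofNat (nat_lit 767454), .ofNat (nat_lit 571415), .ofNat (nat_lit 714246), .ofNat (nat_lit 614253), .ofNat (nat_lit 757084)⟩, ⟨.ofNat (nat_lit 296923), .ofNat (nat_lit 626629), .ofNat (nat_lit 339637), .ofNat (nat_lit 669336), .ofNat (nat_lit 299999), .ofNat (nat_lit 614284), .ofNat (nat_lit 342856), .ofNat (nat_lit 657134)⟩⟩, [⟨nat_lit 16, nat_lit 100, nat_lit 94, nat_lit 97, nat_lit 176777864⟩, ⟨nat_lit 7, nat_lit 59, nat_lit 100, nat_lit 87, nat_lit 52691321⟩]⟩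
noncomputable def p056_l10 : Lf2 := ⟨nat_lit 0, nat_lit 5, [nat_lit 4, nat_lit 5, nat_lit 5, nat_lit 20], false, nat_lit 160, nat_lit 336, nat_lit 16, nat_lit 384, ⟨nat_lit 1000, nat_lit 0, nat_lit 0, nat_lit 0, nat_lit 0, nat_lit 0, nat_lit 0, nat_lit 0, nat_lit 0, nat_lit 0, nat_lit 0, nat_lit 0, nat_lit 0, nat_lit 0, nat_lit 0, nat_lit 0, false, false⟩,
 nat_lit 18255, nat_lit 0, nat_lit 0, nat_lit 0, nat_lit 5613, nat_lit 7823, nat_lit 1311, nat_lit 0, nat_lit 0, nat_lit 1601, nat_lit 0, nat_lit 0, nat_lit 0, nat_lit 0, nat_lit 0, nat_lit 0, nat_lit 0, nat_lit 0, [],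
 ⟨p056_k7, nat_lit 0, nat_lit 0, nat_lit 148, nat_lit 0, nat_lit 164254, [nat_lit 3282000000, nat_lit 4688000000, nat_lit 7968000000], [], [nat_lit 24207344660, nat_lit 25122456146, nat_lit 28974176749, nat_lit 29733004085, nat_lit 29359957359, nat_lit 30118213597, nat_lit 33533192690, nat_lit 34195393059], nat_lit 1271250, nat_lit 1271250, nat_lit 1271250, nat_lit 1271250, nat_lit 1100001, nat_lit 2607000, [nat_lit 780000, nat_lit 1100000, nat_lit 1785000], [nat_lit 36, nat_lit 40, nat_lit 40, nat_lit 80, nat_lit 7, nat_lit 317, nat_lit 100, nat_lit 9]⟩, ⟨p056_k8, nat_lit 0, nat_lit 0, nat_lit 376, nat_lit 0, nat_lit 273343, [nat_lit 6250000000, nat_lit 7968000000, nat_lit 11872000000], [], [nat_lit 35728881417, nat_lit 36250099180, nat_lit 39880167455, nat_lit 40257507960, nat_lit 35262414450, nat_lit 35397374725, nat_lit 38084359741, nat_lit 38093161440], nat_lit 1271250, nat_lit 1271250, nat_lit 1271250, nat_lit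 1271250, nat_lit 88400, nat_lit 2742600, [nat_lit 1412500, nat_lit 1271250, nat_lit 1271250], [nat_lit 53, nat_lit 40, nat_lit 40, nat_lit 80, nat_lit 14, nat_lit 401, nat_lit 175, nat_lit 10]⟩,
 zbF0, [⟨nat_lit 4, nat_lit 94, nat_lit 100, nat_lit 97, nat_lit 366157356⟩, ⟨nat_lit 19, nat_lit 100, nat_lit 59, nat_lit 87, nat_lit 201824603⟩]⟩
noncomputable def p056_l11 : Lf2 := ⟨nat_lit 1, nat_lit 10, [nat_lit 0, nat_lit 5, nat_lit 5, nat_lit 20], false, nat_lit 160, nat_lit 336, nat_lit 0, nat_lit 384, zbN0,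
 nat_lit 0, nat_lit 0, nat_lit 0, nat_lit 0, nat_lit 0, nat_lit 0, nat_lit 0, nat_lit 0, nat_lit 0, nat_lit 0, nat_lit 0, nat_lit 0, nat_lit 0, nat_lit 0, nat_lit 0, nat_lit 0, nat_lit 0, nat_lit 0, [],
 C1.Rw.none, C1.Rw.none,
 zbF0, []⟩
noncomputable def p056_l12 : Lf2 := ⟨nat_lit 0, nat_lit 7, [nat_lit 80, nat_lit 5, nat_lit 5, nat_lit 20], false, nat_lit 160, nat_lit 320, nat_lit 0, nat_lit 384, ⟨nat_lit 165, nat_lit 835, nat_lit 0, nat_lit 6, nat_lit 260, nat_lit 835, nat_lit 185, nat_lit 0, nat_lit 0, nat_lit 0, nat_lit 0, nat_lit 0, nat_lit 38983252, nat_lit 17747396, nat_lit 10269352, nat_lit 5143596, true, true⟩,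
 nat_lit 3381, nat_lit 2545, nat_lit 0, nat_lit 618, nat_lit 4102, nat_lit 1449, nat_lit 0, nat_lit 0, nat_lit 0, nat_lit 286, nat_lit 0, nat_lit 0, nat_lit 0, nat_lit 0, nat_lit 0, nat_lit 736000, nat_lit 0, nat_lit 0, [(nat_lit 15, [(nat_lit 1, nat_lit 165), (nat_lit 2, nat_lit 670)])],
 ⟨p056_k9, nat_lit 0, nat_lit 0, nat_lit 142, nat_lit 0, nat_lit 224916, [nat_lit 2202427801, nat_lit 2612456000, nat_lit 1285495334], [], [nat_lit 20997240547, nat_lit 21948085567, nat_lit 24124175675, nat_lit 24914322575, nat_lit 25538230119, nat_lit 26241283241, nat_lit 28033324297, nat_lit 28710900432], nat_lit 1271250, nat_lit 1271250, nat_lit 1271250, nat_lit 1271250, nat_lit 1100001, nat_lit 2470000, [nat_lit 780000, nat_lit 1100000, nat_lit 1785000], [nat_lit 36, nat_lit 40, nat_lit 40, nat_lit 80, nat_lit 7, nat_lit 317, nat_lit 100, nat_lit 9]⟩, ⟨p056_k10, nat_lit 0, nat_lit 0, nat_lit 424, nat_lit 0, nat_lit 417250,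 [nat_lit 1031250000, nat_lit 1314720000, nat_lit 1958880000], [], [nat_lit 5157757930, nat_lit 5225121490, nat_lit 5756407702, nat_lit 5818448500, nat_lit 6575373617, nat_lit 5932541576, nat_lit 5545172674, nat_lit 5560549889], nat_lit 1271250, nat_lit 1271250, nat_lit 1271250, nat_lit 1271250, nat_lit 0, nat_lit 2712000, [nat_lit 1412500, nat_lit 1271250, nat_lit 1271250], [nat_lit 53, nat_lit 40, nat_lit 40, nat_lit 80, nat_lit 14, nat_lit 483, nat_lit 250, nat_lit 12]⟩,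
 ⟨nat_lit 4472, nat_lit 5000, ⟨.ofNat (nat_lit 571423), .ofNat (nat_lit 714270), .ofNat (nat_lit 592840), .ofNat (nat_lit 735687), .ofNat (nat_lit 567973), .ofNat (nat_lit 703919), .ofNat (nat_lit 589527), .ofNat (nat_lit 725474)⟩, ⟨.ofNat (nat_lit 299999), .ofNat (nat_lit 585713), .ofNat (nat_lit 342856), .ofNat (nat_lit 628570), .ofNat (nat_lit 302621), .ofNat (nat_lit 574534), .ofNat (nat_lit 345754), .ofNat (nat_lit 617667)⟩⟩, [⟨nat_lit 4, nat_lit 100, nat_lit 93, nat_lit 97, nat_lit 150261086⟩, ⟨nat_lit 7, nat_lit 54, nat_lit 100, nat_lit 87, nat_lit 34258121⟩]⟩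
noncomputable def p056_l13 : Lf2 := ⟨nat_lit 1, nat_lit 10, [nat_lit 0, nat_lit 5, nat_lit 5, nat_lit 20], false, nat_lit 160, nat_lit 320, nat_lit 0, nat_lit 384, zbN0,
 nat_lit 0, nat_lit 0, nat_lit 0, nat_lit 0, nat_lit 0, nat_lit 0, nat_lit 0, nat_lit 0, nat_lit 0, nat_lit 0, nat_lit 0, nat_lit 0, nat_lit 0, nat_lit 0, nat_lit 0, nat_lit 0, nat_lit 0, nat_lit 0, [],
 C1.Rw.none, C1.Rw.none,
 zbF0, []⟩
noncomputable def p056_l14 : Lf2 := ⟨nat_lit 0, nat_lit 10, [nat_lit 0, nat_lit 5, nat_lit 5, nat_lit 20], false, nat_lit 160, nat_lit 320, nat_lit 0, nat_lit 376, ⟨nat_lit 327, nat_lit 673, nat_lit 0, nat_lit 6, nat_lit 267, nat_lit 673, nat_lit 185, nat_lit 0, nat_lit 0, nat_lit 0, nat_lit 0, nat_lit 0, nat_lit 38502999, nat_lit 18314884, nat_lit 10182117, nat_lit 5168976, true, true⟩,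
 nat_lit 6653, nat_lit 0, nat_lit 0, nat_lit 1082, nat_lit 4605, nat_lit 3181, nat_lit 69, nat_lit 0, nat_lit 0, nat_lit 282, nat_lit 0, nat_lit 0, nat_lit 0, nat_lit 0, nat_lit 0, nat_lit 673000, nat_lit 0, nat_lit 0, [(nat_lit 15, [(nat_lit 2, nat_lit 673)])],
 ⟨p056_k11, nat_lit 0, nat_lit 0, nat_lit 157, nat_lit 0, nat_lit 256324, [nat_lit 2495666801, nat_lit 2749054000, nat_lit 2136320400], [], [nat_lit 20859994206, nat_lit 21858126256, nat_lit 24111856426, nat_lit 24934673176, nat_lit 25495406706, nat_lit 26264818736, nat_lit 28256663380, nat_lit 29117030680], nat_lit 1271250, nat_lit 1271250, nat_lit 1271250, nat_lit 1271250, nat_lit 1100001, nat_lit 2470000, [nat_lit 780000, nat_lit 1435000, nat_lit 1271250], [nat_lit 18, nat_lit 40, nat_lit 40, nat_lit 80, nat_lit 2, nat_lit 317, nat_lit 100, nat_lit 9]⟩, ⟨p056_k12, nat_lit 0, nat_lit 0, nat_lit 433, nat_lit 0, nat_lit 412888, [nat_lit 2043750000, nat_lit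 3218334000, nat_lit 3882144000], [], [nat_lit 11134057124, nat_lit 11213418093, nat_lit 12307035934, nat_lit 12352581464, nat_lit 11288643141, nat_lit 10581213234, nat_lit 11139810663, nat_lit 11146391710], nat_lit 1271250, nat_lit 1271250, nat_lit 1271250, nat_lit 1271250, nat_lit 0, nat_lit 2655500, [nat_lit 1412500, nat_lit 1271250, nat_lit 1271250], [nat_lit 46, nat_lit 40, nat_lit 40, nat_lit 80, nat_lit 41, nat_lit 483, nat_lit 250, nat_lit 12]⟩,
 ⟨nat_lit 4472, nat_lit 5000, ⟨.ofNat (nat_lit 592840), .ofNat (nat_lit 735687), .ofNat (nat_lit 603547), .ofNat (nat_lit 746395), .ofNat (nat_lit 589527), .ofNat (nat_lit 725474), .ofNat (nat_lit 600304), .ofNat (nat_lit 736251)⟩, ⟨.ofNat (nat_lit 299999), .ofNat (nat_lit 585713), .ofNat (nat_lit 342856), .ofNat (nat_lit 628570), .ofNat (nat_lit 302621), .ofNat (nat_lit 574534), .ofNat (nat_lit 345754), .ofNat (nat_lit 617667)⟩⟩, [⟨nat_lit 4, nat_lit 100, nat_lit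 93, nat_lit 97, nat_lit 211274418⟩, ⟨nat_lit 19, nat_lit 100, nat_lit 49, nat_lit 92, nat_lit 53325643⟩]⟩
noncomputable def p056_l15 : Lf2 := ⟨nat_lit 0, nat_lit 10, [nat_lit 0, nat_lit 5, nat_lit 5, nat_lit 20], false, nat_lit 160, nat_lit 320, nat_lit 0, nat_lit 372, ⟨nat_lit 456, nat_lit 544, nat_lit 0, nat_lit 6, nat_lit 271, nat_lit 544, nat_lit 185, nat_lit 0, nat_lit 0, nat_lit 0, nat_lit 0, nat_lit 0, nat_lit 38184220, nat_lit 18692460, nat_lit 10123320, nat_lit 5184636, true, true⟩,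
 nat_lit 8248, nat_lit 0, nat_lit 0, nat_lit 0, nat_lit 5174, nat_lit 4154, nat_lit 209, nat_lit 0, nat_lit 0, nat_lit 413, nat_lit 0, nat_lit 0, nat_lit 0, nat_lit 0, nat_lit 0, nat_lit 544000, nat_lit 0, nat_lit 0, [(nat_lit 15, [(nat_lit 2, nat_lit 544)])],
 ⟨p056_k11, nat_lit 0, nat_lit 0, nat_lit 167, nat_lit 0, nat_lit 283941, [nat_lit 2646390401, nat_lit 3420112001, nat_lit 3254131200], [], [nat_lit 20367620120, nat_lit 21423065419, nat_lit 24017129583, nat_lit 24970499587, nat_lit 25462234083, nat_lit 26281582112, nat_lit 28678608744, nat_lit 29576450384], nat_lit 1271250, nat_lit 1271250, nat_lit 1271250, nat_lit 1271250, nat_lit 1100001, nat_lit 2470000, [nat_lit 780000, nat_lit 1435000, nat_lit 1271250], [nat_lit 18, nat_lit 40, nat_lit 40, nat_lit 80, nat_lit 2, nat_lit 317, nat_lit 100, nat_lit 9]⟩, ⟨p056_k13, nat_lit 0, nat_lit 0, nat_lit 437, nat_lit 0, nat_lit 427066, [nat_lit 2850000000, nat_lit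 4487952000, nat_lit 5413632000], [], [nat_lit 15108596775, nat_lit 15219078953, nat_lit 16654321135, nat_lit 16720201761, nat_lit 14903595666, nat_lit 14368888313, nat_lit 15170331637, nat_lit 15187022454], nat_lit 1271250, nat_lit 1271250, nat_lit 1271250, nat_lit 1271250, nat_lit 0, nat_lit 2627250, [nat_lit 1412500, nat_lit 1271250, nat_lit 1271250], [nat_lit 46, nat_lit 40, nat_lit 40, nat_lit 80, nat_lit 41, nat_lit 483, nat_lit 250, nat_lit 12]⟩,
 ⟨nat_lit 4472, nat_lit 5000, ⟨.ofNat (nat_lit 603547), .ofNat (nat_lit 746395), .ofNat (nat_lit 614256), .ofNat (nat_lit 757103), .ofNat (nat_lit 600304), .ofNat (nat_lit 736251), .ofNat (nat_lit 611081), .ofNat (nat_lit 747027)⟩, ⟨.ofNat (nat_lit 299999), .ofNat (nat_lit 585713), .ofNat (nat_lit 342856), .ofNat (nat_lit 628570), .ofNat (nat_lit 302621), .ofNat (nat_lit 574534), .ofNat (nat_lit 345754), .ofNat (nat_lit 617667)⟩⟩, [⟨nat_lit 16, nat_lit 93, nat_lit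 100, nat_lit 97, nat_lit 261261561⟩, ⟨nat_lit 19, nat_lit 100, nat_lit 54, nat_lit 93, nat_lit 75031926⟩]⟩
noncomputable def p056_l16 : Lf2 := ⟨nat_lit 0, nat_lit 7, [nat_lit 80, nat_lit 5, nat_lit 5, nat_lit 20], false, nat_lit 160, nat_lit 320, nat_lit 16, nat_lit 384, ⟨nat_lit 1000, nat_lit 0, nat_lit 0, nat_lit 0, nat_lit 0, nat_lit 0, nat_lit 0, nat_lit 0, nat_lit 0, nat_lit 0, nat_lit 0, nat_lit 0, nat_lit 0, nat_lit 0, nat_lit 0, nat_lit 0, false, false⟩,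
 nat_lit 18719, nat_lit 0, nat_lit 0, nat_lit 331, nat_lit 5006, nat_lit 8022, nat_lit 1284, nat_lit 0, nat_lit 0, nat_lit 1615, nat_lit 0, nat_lit 0, nat_lit 0, nat_lit 0, nat_lit 0, nat_lit 0, nat_lit 0, nat_lit 0, [],
 ⟨p056_k9, nat_lit 0, nat_lit 0, nat_lit 143, nat_lit 0, nat_lit 157546, [nat_lit 3282000000, nat_lit 4688000000, nat_lit 7968000000], [], [nat_lit 25030683620, nat_lit 25455114470, nat_lit 28310052899, nat_lit 28657980442, nat_lit 28698512436, nat_lit 28998835828, nat_lit 32066472617, nat_lit 32422554405], nat_lit 1271250, nat_lit 1271250, nat_lit 1271250, nat_lit 1271250, nat_lit 1100001, nat_lit 2470000, [nat_lit 780000, nat_lit 1100000, nat_lit 1785000], [nat_lit 36, nat_lit 40, nat_lit 40, nat_lit 80, nat_lit 7, nat_lit 317, nat_lit 100, nat_lit 9]⟩, ⟨p056_k10, nat_lit 0, nat_lit 0, nat_lit 380, nat_lit 0, nat_lit 292269, [nat_lit 6250000000, nat_lit 7968000000, nat_lit 11872000000], [], [nat_lit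 35290443552, nat_lit 35547147895, nat_lit 38923695774, nat_lit 39137955431, nat_lit 34871739647, nat_lit 34957737475, nat_lit 37280948799, nat_lit 37339230413], nat_lit 1271250, nat_lit 1271250, nat_lit 1271250, nat_lit 1271250, nat_lit 88400, nat_lit 2742600, [nat_lit 1412500, nat_lit 1271250, nat_lit 1271250], [nat_lit 53, nat_lit 40, nat_lit 40, nat_lit 80, nat_lit 14, nat_lit 401, nat_lit 175, nat_lit 10]⟩,
 zbF0, [⟨nat_lit 4, nat_lit 100, nat_lit 97, nat_lit 98, nat_lit 352653471⟩, ⟨nat_lit 19, nat_lit 100, nat_lit 54, nat_lit 87, nat_lit 207571582⟩]⟩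
noncomputable def p056_l17 : Lf2 := ⟨nat_lit 0, nat_lit 7, [nat_lit 80, nat_lit 5, nat_lit 5, nat_lit 20], false, nat_lit 160, nat_lit 312, nat_lit 16, nat_lit 384, ⟨nat_lit 587, nat_lit 413, nat_lit 0, nat_lit 8, nat_lit 308, nat_lit 413, nat_lit 182, nat_lit 0, nat_lit 0, nat_lit 0, nat_lit 0, nat_lit 0, nat_lit 35661914, nat_lit 21960005, nat_lit 9378081, nat_lit 5256476, true, true⟩,
 nat_lit 11015, nat_lit 0, nat_lit 0, nat_lit 0, nat_lit 4276, nat_lit 4720, nat_lit 773, nat_lit 0, nat_lit 0, nat_lit 894, nat_lit 0, nat_lit 0, nat_lit 0, nat_lit 0, nat_lit 0, nat_lit 165200, nat_lit 0, nat_lit 0, [(nat_lit 15, [(nat_lit 1, nat_lit 413)])],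
 ⟨p056_k14, nat_lit 0, nat_lit 0, nat_lit 142, nat_lit 0, nat_lit 213966, [nat_lit 2760876600, nat_lit 3667064000, nat_lit 4629553200], [], [nat_lit 24841700944, nat_lit 25274112344, nat_lit 27838021350, nat_lit 28201327528, nat_lit 28479729384, nat_lit 28798508148, nat_lit 31157778772, nat_lit 31512176568], nat_lit 1271250, nat_lit 1271250, nat_lit 1271250, nat_lit 1271250, nat_lit 1100001, nat_lit 2401500, [nat_lit 780000, nat_lit 1100000, nat_lit 1442500], [nat_lit 59, nat_lit 40, nat_lit 40, nat_lit 80, nat_lit 3, nat_lit 317, nat_lit 100, nat_lit 10]⟩, ⟨p056_k10, nat_lit 0, nat_lit 0, nat_lit 423, nat_lit 0, nat_lit 417250, [nat_lit 3668750000, nat_lit 4677216000, nat_lit 6968864000], [], [nat_lit 20873054286, nat_lit 21023522218, nat_lit 22861977972, nat_lit 22993632539, nat_lit 20630049866, nat_lit 20624621322, nat_lit 21769484945, nat_lit 21764236083], nat_lit 1271250, nat_lit 1271250, nat_lit 1271250,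 nat_lit 1271250, nat_lit 88400, nat_lit 2742600, [nat_lit 1412500, nat_lit 1271250, nat_lit 1271250], [nat_lit 53, nat_lit 40, nat_lit 40, nat_lit 80, nat_lit 14, nat_lit 401, nat_lit 175, nat_lit 10]⟩,
 ⟨nat_lit 4472, nat_lit 4744, ⟨.ofNat (nat_lit 709096), .ofNat (nat_lit 813645), .ofNat (nat_lit 730582), .ofNat (nat_lit 835131), .ofNat (nat_lit 703932), .ofNat (nat_lit 805898), .ofNat (nat_lit 725496), .ofNat (nat_lit 827462)⟩, ⟨.ofNat (nat_lit 301370), .ofNat (nat_lit 566229), .ofNat (nat_lit 344346), .ofNat (nat_lit 609205), .ofNat (nat_lit 302621), .ofNat (nat_lit 560938), .ofNat (nat_lit 345754), .ofNat (nat_lit 604071)⟩⟩, [⟨nat_lit 13, nat_lit 82, nat_lit 53, nat_lit 100, nat_lit 39970666⟩, ⟨nat_lit 4, nat_lit 100, nat_lit 90, nat_lit 95, nat_lit 268377724⟩, ⟨nat_lit 7, nat_lit 54, nat_lit 100, nat_lit 87, nat_lit 119054013⟩]⟩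
noncomputable def p056_l18 : Lf2 := ⟨nat_lit 1, nat_lit 10, [nat_lit 0, nat_lit 5, nat_lit 5, nat_lit 20], false, nat_lit 160, nat_lit 320, nat_lit 16, nat_lit 384, zbN0,
 nat_lit 0, nat_lit 0, nat_lit 0, nat_lit 0, nat_lit 0, nat_lit 0, nat_lit 0, nat_lit 0, nat_lit 0, nat_lit 0, nat_lit 0, nat_lit 0, nat_lit 0, nat_lit 0, nat_lit 0, nat_lit 0, nat_lit 0, nat_lit 0, [],
 C1.Rw.none, C1.Rw.none,
 zbF0, []⟩
noncomputable def p056_l19 : Lf2 := ⟨nat_lit 0, nat_lit 10, [nat_lit 0, nat_lit 5, nat_lit 5, nat_lit 20], false, nat_lit 160, nat_lit 320, nat_lit 16, nat_lit 376, ⟨nat_lit 1000, nat_lit 0, nat_lit 0, nat_lit 0, nat_lit 0, nat_lit 0, nat_lit 0, nat_lit 0, nat_lit 0, nat_lit 0, nat_lit 0, nat_lit 0, nat_lit 0, nat_lit 0, nat_lit 0, nat_lit 0, false, false⟩,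
 nat_lit 15411, nat_lit 0, nat_lit 0, nat_lit 3389, nat_lit 5106, nat_lit 7370, nat_lit 1167, nat_lit 0, nat_lit 0, nat_lit 1501, nat_lit 0, nat_lit 0, nat_lit 0, nat_lit 0, nat_lit 0, nat_lit 0, nat_lit 0, nat_lit 0, [],
 ⟨p056_k6, nat_lit 0, nat_lit 0, nat_lit 164, nat_lit 0, nat_lit 218816, [nat_lit 3282000000, nat_lit 4688000000, nat_lit 7968000000], [], [nat_lit 25361891870, nat_lit 25789570220, nat_lit 29106196990, nat_lit 29446465200, nat_lit 29031234286, nat_lit 29332642624, nat_lit 32641412377, nat_lit 32988315704], nat_lit 1271250, nat_lit 1271250, nat_lit 1271250, nat_lit 1271250, nat_lit 1100001, nat_lit 2470000, [nat_lit 780000, nat_lit 1100000, nat_lit 1785000], [nat_lit 36, nat_lit 40, nat_lit 40, nat_lit 80, nat_lit 7, nat_lit 317, nat_lit 100, nat_lit 9]⟩, ⟨p056_k15, nat_lit 0, nat_lit 0, nat_lit 399, nat_lit 0, nat_lit 352469, [nat_lit 6250000000, nat_lit 7968000000, nat_lit 11872000000], [],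 [nat_lit 34914964557, nat_lit 35184461662, nat_lit 38240569179, nat_lit 38374397850, nat_lit 33976208700, nat_lit 34007089056, nat_lit 36511313133, nat_lit 36707605188], nat_lit 1271250, nat_lit 1271250, nat_lit 1271250, nat_lit 1271250, nat_lit 88400, nat_lit 2684900, [nat_lit 1412500, nat_lit 1271250, nat_lit 1271250], [nat_lit 53, nat_lit 40, nat_lit 40, nat_lit 80, nat_lit 14, nat_lit 401, nat_lit 175, nat_lit 10]⟩,
 zbF0, [⟨nat_lit 4, nat_lit 100, nat_lit 97, nat_lit 98, nat_lit 352641475⟩, ⟨nat_lit 19, nat_lit 100, nat_lit 63, nat_lit 88, nat_lit 204490568⟩]⟩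
noncomputable def p056_l20 : Lf2 := ⟨nat_lit 0, nat_lit 10, [nat_lit 0, nat_lit 5, nat_lit 5, nat_lit 20], false, nat_lit 160, nat_lit 312, nat_lit 16, nat_lit 376, ⟨nat_lit 1000, nat_lit 0, nat_lit 0, nat_lit 0, nat_lit 0, nat_lit 0, nat_lit 0, nat_lit 0, nat_lit 0, nat_lit 0, nat_lit 0, nat_lit 0, nat_lit 0, nat_lit 0, nat_lit 0, nat_lit 0, false, false⟩,
 nat_lit 15936, nat_lit 0, nat_lit 0, nat_lit 0, nat_lit 5137, nat_lit 7621, nat_lit 1082, nat_lit 0, nat_lit 0, nat_lit 1415, nat_lit 0, nat_lit 0, nat_lit 0, nat_lit 0, nat_lit 0, nat_lit 0, nat_lit 0, nat_lit 0, [],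
 ⟨p056_k16, nat_lit 0, nat_lit 0, nat_lit 178, nat_lit 0, nat_lit 269993, [nat_lit 3282000000, nat_lit 4688000000, nat_lit 7968000000], [], [nat_lit 25594415815, nat_lit 26023100890, nat_lit 29056054789, nat_lit 29435828044, nat_lit 28910415584, nat_lit 29220411213, nat_lit 32531766495, nat_lit 32893212388], nat_lit 1271250, nat_lit 1271250, nat_lit 1271250, nat_lit 1271250, nat_lit 1100001, nat_lit 2401500, [nat_lit 780000, nat_lit 1100000, nat_lit 1785000], [nat_lit 36, nat_lit 40, nat_lit 40, nat_lit 80, nat_lit 7, nat_lit 317, nat_lit 100, nat_lit 9]⟩, ⟨p056_k15, nat_lit 0, nat_lit 0, nat_lit 434, nat_lit 0, nat_lit 457373, [nat_lit 6250000000, nat_lit 7968000000, nat_lit 11872000000], [], [nat_lit 36834057518, nat_lit 36957851922, nat_lit 39102924918, nat_lit 39130090360, nat_lit 34518857869, nat_lit 34476771164, nat_lit 36553851856, nat_lit 36753434733], nat_lit 1271250, nat_lit 1271250, nat_lit 1271250,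 nat_lit 1271250, nat_lit 88400, nat_lit 2684900, [nat_lit 1412500, nat_lit 1271250, nat_lit 1271250], [nat_lit 53, nat_lit 40, nat_lit 40, nat_lit 80, nat_lit 14, nat_lit 401, nat_lit 175, nat_lit 10]⟩,
 zbF0, [⟨nat_lit 4, nat_lit 100, nat_lit 90, nat_lit 95, nat_lit 383245555⟩, ⟨nat_lit 7, nat_lit 63, nat_lit 100, nat_lit 88, nat_lit 191572379⟩]⟩
noncomputable def b_V_700_500_20_10 : St := ⟨true, nat_lit 1, nat_lit 1, nat_lit 1, nat_lit 120, nat_lit 280, nat_lit 320, nat_lit 200, nat_lit 240, nat_lit 120, nat_lit 396, nat_lit 80, nat_lit 120, nat_lit 0, nat_lit 336, nat_lit 0, nat_lit 384, nat_lit 0, nat_lit 40, nat_lit 0, nat_lit 0, nat_lit 0, nat_lit 0⟩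
theorem d_V_700_500_20_10 (h : EB TB.env) : Dead b_V_700_500_20_10 := chkB_sound0 h (T :=
(.spl (nat_lit 4) (nat_lit 160)
(.spl (nat_lit 2) (nat_lit 240)
(.spl (nat_lit 0) (nat_lit 300)
(.leaf p056_l0)
(.spl (nat_lit 2) (nat_lit 160)
(.leaf p056_l1)
(.leaf p056_l2)))
(.spl (nat_lit 0) (nat_lit 300)
(.leaf p056_l3)
(.trX (nat_lit 13) (nat_lit 88) (nat_lit 32) (nat_lit 100) (nat_lit 392) (.leaf p056_l4))))
(.spl (nat_lit 2) (nat_lit 240)
(.spl (nat_lit 4) (nat_lit 240)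
(.spl (nat_lit 0) (nat_lit 300)
(.leaf p056_l5)
(.leaf p056_l6))
(.spl (nat_lit 0) (nat_lit 300)
(.leaf p056_l7)
(.trX (nat_lit 16) (nat_lit 94) (nat_lit 88) (nat_lit 100) (nat_lit 320) (.leaf p056_l8))))
(.spl (nat_lit 0) (nat_lit 300)
(.spl (nat_lit 6) (nat_lit 20)
(.spl (nat_lit 2) (nat_lit 320)
(.leaf p056_l9)
(.trZ (nat_lit 9) (nat_lit 100) (nat_lit 82) (nat_lit 44) (nat_lit 16) (.leaf p056_l10)))
(.leaf p056_l11))
(.trX (nat_lit 13) (nat_lit 88) (nat_lit 32) (nat_lit 100) (nat_lit 392) (.trX (nat_lit 16) (nat_lit 94) (nat_lit 88) (nat_lit 100) (nat_lit 320) (.spl (nat_lit 2) (nat_lit 320)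
(.spl (nat_lit 1) (nat_lit 220)
(.spl (nat_lit 6) (nat_lit 28)
(.leaf p056_l12)
(.leaf p056_l13))
(.trX (nat_lit 19) (nat_lit 100) (nat_lit 49) (nat_lit 92) (nat_lit 376) (.spl (nat_lit 1) (nat_lit 230)
(.leaf p056_l14)
(.trX (nat_lit 19) (nat_lit 100) (nat_lit 54) (nat_lit 93) (nat_lit 372) (.leaf p056_l15)))))
(.trZ (nat_lit 9) (nat_lit 100) (nat_lit 82) (nat_lit 44) (nat_lit 16) (.spl (nat_lit 1) (nat_lit 220)
(.trX (nat_lit 13) (nat_lit 87) (nat_lit 41) (nat_lit 100) (nat_lit 384) (.spl (nat_lit 6) (nat_lit 28)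
(.spl (nat_lit 0) (nat_lit 310)
(.leaf p056_l16)
(.trX (nat_lit 13) (nat_lit 84) (nat_lit 47) (nat_lit 100) (nat_lit 380) (.trX (nat_lit 16) (nat_lit 91) (nat_lit 91) (nat_lit 100) (nat_lit 312) (.leaf p056_l17))))
(.leaf p056_l18)))
(.trX (nat_lit 19) (nat_lit 100) (nat_lit 49) (nat_lit 92) (nat_lit 376) (.spl (nat_lit 0) (nat_lit 310)
(.leaf p056_l19)
(.trX (nat_lit 13) (nat_lit 85) (nat_lit 38) (nat_lit 100) (nat_lit 388) (.trX (nat_lit 16) (nat_lit 91) (nat_lit 91) (nat_lit 100) (nat_lit 312) (.leaf p056_l20)))))))))))))) (by decide +kernel)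
noncomputable def p056_l21 : Lf2 := ⟨nat_lit 0, nat_lit 10, [nat_lit 0, nat_lit 5, nat_lit 5, nat_lit 20], true, nat_lit 0, nat_lit 336, nat_lit 0, nat_lit 384, ⟨nat_lit 0, nat_lit 1000, nat_lit 0, nat_lit 5, nat_lit 112, nat_lit 1000, nat_lit 128, nat_lit 0, nat_lit 0, nat_lit 0, nat_lit 0, nat_lit 0, nat_lit 0, nat_lit 0, nat_lit 0, nat_lit 5000000, false, false⟩,
 nat_lit 0, nat_lit 6037, nat_lit 0, nat_lit 6802, nat_lit 3841, nat_lit 0, nat_lit 891, nat_lit 0, nat_lit 0, nat_lit 0, nat_lit 0, nat_lit 0, nat_lit 0, nat_lit 0, nat_lit 12, nat_lit 1000000, nat_lit 0, nat_lit 0, [(nat_lit 12, [(nat_lit 2, nat_lit 1000)])],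
 ⟨p056_k4, nat_lit 0, nat_lit 0, nat_lit 433, nat_lit 0, nat_lit 279364, [nat_lit 2136960000, nat_lit 2804400000, nat_lit 42000000], [], [nat_lit 34926256070, nat_lit 32876475692, nat_lit 24389019528, nat_lit 22620250392, nat_lit 27963943500, nat_lit 28686352850, nat_lit 29652552208, nat_lit 27988115054], nat_lit 1271250, nat_lit 1271250, nat_lit 88400, nat_lit 780000, nat_lit 0, nat_lit 2373000, [nat_lit 780000, nat_lit 1100000, nat_lit 2127500], [nat_lit 42, nat_lit 40, nat_lit 40, nat_lit 80, nat_lit 13, nat_lit 345, nat_lit 125, nat_lit 10]⟩, C1.Rw.none,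
 ⟨nat_lit 5000, nat_lit 5478, ⟨.ofNat (nat_lit 155307), .ofNat (nat_lit 350132), .ofNat (nat_lit 198021), .ofNat (nat_lit 392847), .ofNat (nat_lit 171427), .ofNat (nat_lit 357141), .ofNat (nat_lit 214284), .ofNat (nat_lit 399998)⟩, ⟨.negSucc (nat_lit 2832), .ofNat (nat_lit 626629), .ofNat (nat_lit 0), .ofNat (nat_lit 669336), .ofNat (nat_lit 0), .ofNat (nat_lit 614284), .ofNat (nat_lit 0), .ofNat (nat_lit 657134)⟩⟩, [⟨nat_lit 0, nat_lit 100, nat_lit 88, nat_lit 68, nat_lit 18641179⟩]⟩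
noncomputable def p056_l22 : Lf2 := ⟨nat_lit 0, nat_lit 10, [nat_lit 0, nat_lit 5, nat_lit 5, nat_lit 20], true, nat_lit 0, nat_lit 320, nat_lit 0, nat_lit 384, ⟨nat_lit 0, nat_lit 1000, nat_lit 0, nat_lit 5, nat_lit 119, nat_lit 1000, nat_lit 120, nat_lit 0, nat_lit 0, nat_lit 0, nat_lit 0, nat_lit 0, nat_lit 0, nat_lit 0, nat_lit 0, nat_lit 5000000, false, false⟩,
 nat_lit 0, nat_lit 7582, nat_lit 0, nat_lit 1100, nat_lit 5249, nat_lit 0, nat_lit 1146, nat_lit 0, nat_lit 0, nat_lit 0, nat_lit 0, nat_lit 0, nat_lit 0, nat_lit 0, nat_lit 0, nat_lit 400000, nat_lit 0, nat_lit 0, [(nat_lit 15, [(nat_lit 1, nat_lit 1000)])],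
 ⟨p056_k2, nat_lit 0, nat_lit 0, nat_lit 406, nat_lit 0, nat_lit 452724, [nat_lit 2112600000, nat_lit 2433300000], [], [nat_lit 24908829816, nat_lit 23138124145, nat_lit 16762025818, nat_lit 19225770340, nat_lit 25722923931, nat_lit 27237438704, nat_lit 29075541272, nat_lit 26815972748], nat_lit 1271250, nat_lit 1271250, nat_lit 134400, nat_lit 780000, nat_lit 0, nat_lit 2260000, [nat_lit 780000, nat_lit 1762500], [nat_lit 74, nat_lit 40, nat_lit 40, nat_lit 80, nat_lit 43, nat_lit 345, nat_lit 125, nat_lit 12]⟩, C1.Rw.none,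
 ⟨nat_lit 4472, nat_lit 5000, ⟨.ofNat (nat_lit 185713), .ofNat (nat_lit 357141), .ofNat (nat_lit 228562), .ofNat (nat_lit 399984), .ofNat (nat_lit 200895), .ofNat (nat_lit 364042), .ofNat (nat_lit 244020), .ofNat (nat_lit 407160)⟩, ⟨.ofNat (nat_lit 0), .ofNat (nat_lit 585713), .ofNat (nat_lit 0), .ofNat (nat_lit 628570), .ofNat (nat_lit 0), .ofNat (nat_lit 574534), .ofNat (nat_lit 0), .ofNat (nat_lit 617667)⟩⟩, [⟨nat_lit 4, nat_lit 100, nat_lit 93, nat_lit 97, nat_lit 138625584⟩]⟩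
noncomputable def p056_l23 : Lf2 := ⟨nat_lit 0, nat_lit 10, [nat_lit 0, nat_lit 5, nat_lit 5, nat_lit 20], true, nat_lit 0, nat_lit 160, nat_lit 0, nat_lit 384, ⟨nat_lit 0, nat_lit 1000, nat_lit 0, nat_lit 5, nat_lit 194, nat_lit 1000, nat_lit 64, nat_lit 0, nat_lit 0, nat_lit 0, nat_lit 0, nat_lit 0, nat_lit 0, nat_lit 0, nat_lit 0, nat_lit 5000000, false, false⟩,
 nat_lit 0, nat_lit 7936, nat_lit 0, nat_lit 0, nat_lit 5050, nat_lit 0, nat_lit 0, nat_lit 0, nat_lit 0, nat_lit 0, nat_lit 0, nat_lit 0, nat_lit 0, nat_lit 0, nat_lit 0, nat_lit 884200, nat_lit 0, nat_lit 0, [(nat_lit 12, [(nat_lit 1, nat_lit 193), (nat_lit 2, nat_lit 807)]), (nat_lit 15, [(nat_lit 1, nat_lit 193), (nat_lit 2, nat_lit 807)])],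
 ⟨p056_k17, nat_lit 0, nat_lit 0, nat_lit 458, nat_lit 0, nat_lit 509415, [nat_lit 2820780601, nat_lit 1346000401, nat_lit 271567200], [], [nat_lit 30817492003, nat_lit 25557634203, nat_lit 23062470403, nat_lit 24523569603, nat_lit 19722573404, nat_lit 21162928403, nat_lit 27821062603, nat_lit 23247701803], nat_lit 1271250, nat_lit 1271250, nat_lit 780000, nat_lit 1762500, nat_lit 0, nat_lit 1100001, [nat_lit 780000, nat_lit 1762500, nat_lit 1271250], [nat_lit 99, nat_lit 40, nat_lit 40, nat_lit 80, nat_lit 17, nat_lit 317, nat_lit 100, nat_lit 9]⟩, C1.Rw.none,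
 ⟨nat_lit 4472, nat_lit 5478, ⟨.ofNat (nat_lit 350132), .ofNat (nat_lit 574895), .ofNat (nat_lit 392815), .ofNat (nat_lit 617523), .ofNat (nat_lit 364042), .ofNat (nat_lit 567940), .ofNat (nat_lit 407143), .ofNat (nat_lit 610987)⟩, ⟨.negSucc (nat_lit 2834), .ofNat (nat_lit 296923), .ofNat (nat_lit 0), .ofNat (nat_lit 339637), .ofNat (nat_lit 0), .ofNat (nat_lit 302621), .ofNat (nat_lit 0), .ofNat (nat_lit 345754)⟩⟩, []⟩
noncomputable def p056_l24 : Lf2 := ⟨nat_lit 0, nat_lit 10, [nat_lit 0, nat_lit 5, nat_lit 5, nat_lit 20], false, nat_lit 0, nat_lit 160, nat_lit 0, nat_lit 384, ⟨nat_lit 713, nat_lit 287, nat_lit 0, nat_lit 6, nat_lit 293, nat_lit 287, nat_lit 64, nat_lit 0, nat_lit 0, nat_lit 0, nat_lit 0, nat_lit 0, nat_lit 0, nat_lit 0, nat_lit 0, nat_lit 5000000, true, true⟩,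
 nat_lit 0, nat_lit 9571, nat_lit 0, nat_lit 0, nat_lit 6090, nat_lit 5673, nat_lit 997, nat_lit 0, nat_lit 0, nat_lit 1412, nat_lit 0, nat_lit 0, nat_lit 0, nat_lit 0, nat_lit 0, nat_lit 287000, nat_lit 0, nat_lit 0, [(nat_lit 12, [(nat_lit 2, nat_lit 287)]), (nat_lit 15, [(nat_lit 2, nat_lit 287)])],
 ⟨p056_k4, nat_lit 0, nat_lit 0, nat_lit 432, nat_lit 0, nat_lit 509415, [nat_lit 2912045520, nat_lit 4092302801, nat_lit 6932968000], [], [nat_lit 24992360767, nat_lit 26746571207, nat_lit 35511307248, nat_lit 37916413537, nat_lit 22880172006, nat_lit 23869275923, nat_lit 29090986689, nat_lit 31210864460], nat_lit 1271250, nat_lit 1271250, nat_lit 1271250, nat_lit 1271250, nat_lit 0, nat_lit 1100001, [nat_lit 780000, nat_lit 1100000, nat_lit 2127500], [nat_lit 42, nat_lit 40, nat_lit 40, nat_lit 80, nat_lit 13, nat_lit 373, nat_lit 150, nat_lit 10]⟩, ⟨p056_k5, nat_lit 0, nat_lit 0, nat_lit 254, nat_lit 0, nat_lit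 0, [nat_lit 4456250000, nat_lit 5681184000, nat_lit 8464736000], [], [nat_lit 19720680740, nat_lit 20665691312, nat_lit 27699853262, nat_lit 28157283013, nat_lit 21977416955, nat_lit 22287196371, nat_lit 27088829525, nat_lit 27290536486], nat_lit 0, nat_lit 0, nat_lit 0, nat_lit 0, nat_lit 0, nat_lit 0, [], [nat_lit 53, nat_lit 40, nat_lit 40, nat_lit 80, nat_lit 14, nat_lit 538, nat_lit 300, nat_lit 14]⟩,
 ⟨nat_lit 4472, nat_lit 5478, ⟨.ofNat (nat_lit 574895), .ofNat (nat_lit 866988), .ofNat (nat_lit 617523), .ofNat (nat_lit 909625), .ofNat (nat_lit 567940), .ofNat (nat_lit 832909), .ofNat (nat_lit 610987), .ofNat (nat_lit 875965)⟩, ⟨.negSucc (nat_lit 2834), .ofNat (nat_lit 296923), .ofNat (nat_lit 0), .ofNat (nat_lit 339637), .ofNat (nat_lit 0), .ofNat (nat_lit 302621), .ofNat (nat_lit 0), .ofNat (nat_lit 345754)⟩⟩, [⟨nat_lit 19, nat_lit 100, nat_lit 59, nat_lit 87, nat_lit 59766338⟩, ⟨nat_lit 22, nat_lit 84,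 nat_lit 100, nat_lit 84, nat_lit 113584633⟩]⟩
noncomputable def p056_l25 : Lf2 := ⟨nat_lit 0, nat_lit 10, [nat_lit 0, nat_lit 5, nat_lit 5, nat_lit 20], true, nat_lit 160, nat_lit 336, nat_lit 0, nat_lit 384, ⟨nat_lit 0, nat_lit 1000, nat_lit 0, nat_lit 5, nat_lit 194, nat_lit 1000, nat_lit 191, nat_lit 0, nat_lit 0, nat_lit 0, nat_lit 0, nat_lit 0, nat_lit 0, nat_lit 0, nat_lit 0, nat_lit 5000000, false, false⟩,
 nat_lit 0, nat_lit 8275, nat_lit 0, nat_lit 0, nat_lit 5265, nat_lit 0, nat_lit 0, nat_lit 0, nat_lit 0, nat_lit 0, nat_lit 0, nat_lit 0, nat_lit 0, nat_lit 0, nat_lit 0, nat_lit 671800, nat_lit 0, nat_lit 0, [(nat_lit 12, [(nat_lit 1, nat_lit 547), (nat_lit 2, nat_lit 453)]), (nat_lit 15, [(nat_lit 1, nat_lit 547), (nat_lit 2, nat_lit 453)])],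
 ⟨p056_k18, nat_lit 0, nat_lit 0, nat_lit 312, nat_lit 0, nat_lit 509415, [nat_lit 3048756801, nat_lit 1354369600], [], [nat_lit 23069139722, nat_lit 22369130981, nat_lit 27613700061, nat_lit 23700218283, nat_lit 25365860815, nat_lit 26651871992, nat_lit 26339690752, nat_lit 27381689859], nat_lit 1271250, nat_lit 1271250, nat_lit 780000, nat_lit 1762500, nat_lit 1271250, nat_lit 1271250, [nat_lit 780000, nat_lit 2090000], [nat_lit 82, nat_lit 40, nat_lit 40, nat_lit 80, nat_lit 63, nat_lit 373, nat_lit 150, nat_lit 10]⟩, C1.Rw.none,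
 ⟨nat_lit 4472, nat_lit 5478, ⟨.ofNat (nat_lit 350132), .ofNat (nat_lit 574895), .ofNat (nat_lit 392815), .ofNat (nat_lit 617523), .ofNat (nat_lit 364042), .ofNat (nat_lit 567940), .ofNat (nat_lit 407143), .ofNat (nat_lit 610987)⟩, ⟨.ofNat (nat_lit 296923), .ofNat (nat_lit 626629), .ofNat (nat_lit 339637), .ofNat (nat_lit 669343), .ofNat (nat_lit 302621), .ofNat (nat_lit 601725), .ofNat (nat_lit 345754), .ofNat (nat_lit 644858)⟩⟩, [⟨nat_lit 4, nat_lit 100, nat_lit 100, nat_lit 100, nat_lit 186509092⟩]⟩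
noncomputable def p056_l26 : Lf2 := ⟨nat_lit 0, nat_lit 10, [nat_lit 0, nat_lit 5, nat_lit 5, nat_lit 20], false, nat_lit 160, nat_lit 336, nat_lit 0, nat_lit 160, ⟨nat_lit 1000, nat_lit 0, nat_lit 0, nat_lit 0, nat_lit 0, nat_lit 0, nat_lit 0, nat_lit 0, nat_lit 0, nat_lit 0, nat_lit 0, nat_lit 0, nat_lit 0, nat_lit 0, nat_lit 0, nat_lit 0, false, false⟩,
 nat_lit 0, nat_lit 9951, nat_lit 0, nat_lit 4163, nat_lit 6332, nat_lit 9487, nat_lit 1387, nat_lit 0, nat_lit 0, nat_lit 1755, nat_lit 0, nat_lit 0, nat_lit 0, nat_lit 0, nat_lit 0, nat_lit 0, nat_lit 0, nat_lit 0, [],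
 ⟨p056_k4, nat_lit 0, nat_lit 0, nat_lit 313, nat_lit 0, nat_lit 509415, [nat_lit 3282000000, nat_lit 4688000000, nat_lit 9842000000], [], [nat_lit 22357710275, nat_lit 23905068883, nat_lit 29350130743, nat_lit 31507801848, nat_lit 26856099834, nat_lit 28130871095, nat_lit 34369268093, nat_lit 35734203750], nat_lit 1271250, nat_lit 1271250, nat_lit 1271250, nat_lit 1271250, nat_lit 1100001, nat_lit 2607000, [nat_lit 780000, nat_lit 1100000, nat_lit 2127500], [nat_lit 42, nat_lit 40, nat_lit 40, nat_lit 80, nat_lit 13, nat_lit 428, nat_lit 200, nat_lit 11]⟩, ⟨p056_k5, nat_lit 0, nat_lit 0, nat_lit 254, nat_lit 0, nat_lit 0, [nat_lit 6250000000, nat_lit 7968000000, nat_lit 11872000000], [], [nat_lit 27403683423, nat_lit 29277194107, nat_lit 41315155361, nat_lit 41898493234, nat_lit 20404063887, nat_lit 21509451031, nat_lit 31604412874, nat_lit 32095850050], nat_lit 0, nat_lit 0, nat_lit 0, nat_lit 0, nat_lit 0, nat_lit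 0, [], [nat_lit 53, nat_lit 40, nat_lit 40, nat_lit 80, nat_lit 14, nat_lit 428, nat_lit 200, nat_lit 11]⟩,
 zbF0, [⟨nat_lit 4, nat_lit 100, nat_lit 100, nat_lit 100, nat_lit 228122974⟩, ⟨nat_lit 21, nat_lit 84, nat_lit 100, nat_lit 84, nat_lit 170557231⟩]⟩
noncomputable def p056_l27 : Lf2 := ⟨nat_lit 0, nat_lit 10, [nat_lit 0, nat_lit 5, nat_lit 5, nat_lit 20], false, nat_lit 160, nat_lit 336, nat_lit 160, nat_lit 384, ⟨nat_lit 905, nat_lit 95, nat_lit 0, nat_lit 6, nat_lit 293, nat_lit 95, nat_lit 191, nat_lit 0, nat_lit 0, nat_lit 0, nat_lit 0, nat_lit 0, nat_lit 0, nat_lit 0, nat_lit 0, nat_lit 5000000, true, true⟩,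
 nat_lit 0, nat_lit 9328, nat_lit 0, nat_lit 155, nat_lit 5936, nat_lit 5699, nat_lit 1252, nat_lit 0, nat_lit 0, nat_lit 0, nat_lit 0, nat_lit 0, nat_lit 0, nat_lit 0, nat_lit 0, nat_lit 95000, nat_lit 0, nat_lit 0, [(nat_lit 12, [(nat_lit 2, nat_lit 95)]), (nat_lit 15, [(nat_lit 2, nat_lit 95)])],
 ⟨p056_k4, nat_lit 0, nat_lit 0, nat_lit 313, nat_lit 0, nat_lit 509415, [nat_lit 3159541201, nat_lit 4490818000, nat_lit 8879080000], [], [nat_lit 23005166102, nat_lit 24514887286, nat_lit 29172950734, nat_lit 31021904304, nat_lit 27078102575, nat_lit 28373461069, nat_lit 33908787064, nat_lit 35251397509], nat_lit 1271250, nat_lit 1271250, nat_lit 1271250, nat_lit 1271250, nat_lit 1100001, nat_lit 2607000, [nat_lit 780000, nat_lit 1100000, nat_lit 2127500], [nat_lit 42, nat_lit 40, nat_lit 40, nat_lit 80, nat_lit 13, nat_lit 428, nat_lit 200, nat_lit 11]⟩, ⟨p056_k5, nat_lit 0, nat_lit 0, nat_lit 111, nat_lit 0, nat_lit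 0, [nat_lit 5656250000, nat_lit 7211040000, nat_lit 10744160000], [], [nat_lit 14187350500, nat_lit 16074622120, nat_lit 25521671833, nat_lit 26453910851, nat_lit 26018728837, nat_lit 26822505214, nat_lit 32294964533, nat_lit 32587134231], nat_lit 0, nat_lit 0, nat_lit 0, nat_lit 0, nat_lit 0, nat_lit 0, [], [nat_lit 53, nat_lit 40, nat_lit 40, nat_lit 80, nat_lit 14, nat_lit 538, nat_lit 300, nat_lit 13]⟩,
 ⟨nat_lit 4472, nat_lit 5478, ⟨.ofNat (nat_lit 574895), .ofNat (nat_lit 866988), .ofNat (nat_lit 617523), .ofNat (nat_lit 909625), .ofNat (nat_lit 567940), .ofNat (nat_lit 832909), .ofNat (nat_lit 610987), .ofNat (nat_lit 875965)⟩, ⟨.ofNat (nat_lit 296923), .ofNat (nat_lit 626629), .ofNat (nat_lit 339637), .ofNat (nat_lit 669343), .ofNat (nat_lit 302621), .ofNat (nat_lit 601725), .ofNat (nat_lit 345754), .ofNat (nat_lit 644858)⟩⟩, [⟨nat_lit 4, nat_lit 100, nat_lit 100, nat_lit 100, nat_lit 325031629⟩, ⟨nat_lit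 7, nat_lit 59, nat_lit 100, nat_lit 87, nat_lit 407200978⟩]⟩
noncomputable def p056_l28 : Lf2 := ⟨nat_lit 0, nat_lit 10, [nat_lit 0, nat_lit 5, nat_lit 5, nat_lit 20], false, nat_lit 0, nat_lit 336, nat_lit 0, nat_lit 384, ⟨nat_lit 0, nat_lit 1000, nat_lit 0, nat_lit 5, nat_lit 114, nat_lit 1000, nat_lit 127, nat_lit 0, nat_lit 0, nat_lit 0, nat_lit 0, nat_lit 0, nat_lit 0, nat_lit 0, nat_lit 0, nat_lit 5000000, false, false⟩,
 nat_lit 0, nat_lit 8630, nat_lit 0, nat_lit 0, nat_lit 5491, nat_lit 0, nat_lit 96, nat_lit 0, nat_lit 0, nat_lit 0, nat_lit 0, nat_lit 0, nat_lit 0, nat_lit 0, nat_lit 0, nat_lit 474400, nat_lit 0, nat_lit 0, [(nat_lit 12, [(nat_lit 1, nat_lit 876), (nat_lit 2, nat_lit 124)]), (nat_lit 15, [(nat_lit 1, nat_lit 876), (nat_lit 2, nat_lit 124)])],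
 ⟨p056_k0, nat_lit 0, nat_lit 0, nat_lit 451, nat_lit 0, nat_lit 315660, [nat_lit 2101483200, nat_lit 2625124801, nat_lit 2273030400], [], [nat_lit 32872868355, nat_lit 27101234327, nat_lit 22026328982, nat_lit 24013153386, nat_lit 27714024429, nat_lit 29671858635, nat_lit 31805435054, nat_lit 27042286872], nat_lit 1271250, nat_lit 1271250, nat_lit 88400, nat_lit 780000, nat_lit 0, nat_lit 2373000, [nat_lit 780000, nat_lit 1435000, nat_lit 1271250], [nat_lit 8, nat_lit 40, nat_lit 40, nat_lit 80, nat_lit 1, nat_lit 345, nat_lit 125, nat_lit 10]⟩, ⟨p056_k1, nat_lit 0, nat_lit 0, nat_lit 651, nat_lit 0, nat_lit 530082, [nat_lit 0, nat_lit 0, nat_lit 0], [], [nat_lit 0, nat_lit 0, nat_lit 0, nat_lit 0, nat_lit 0, nat_lit 0, nat_lit 0, nat_lit 0], nat_lit 1271250, nat_lit 1271250, nat_lit 88400, nat_lit 780000, nat_lit 0, nat_lit 2712000, [nat_lit 1412500, nat_lit 1271250, nat_lit 1271250], [nat_lit 46, nat_lit 40,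 nat_lit 40, nat_lit 80, nat_lit 41, nat_lit 428, nat_lit 200, nat_lit 12]⟩,
 ⟨nat_lit 4472, nat_lit 5478, ⟨.ofNat (nat_lit 155307), .ofNat (nat_lit 350132), .ofNat (nat_lit 198021), .ofNat (nat_lit 392815), .ofNat (nat_lit 187299), .ofNat (nat_lit 364042), .ofNat (nat_lit 230432), .ofNat (nat_lit 407143)⟩, ⟨.negSucc (nat_lit 2834), .ofNat (nat_lit 626629), .ofNat (nat_lit 0), .ofNat (nat_lit 669343), .ofNat (nat_lit 0), .ofNat (nat_lit 601725), .ofNat (nat_lit 0), .ofNat (nat_lit 644858)⟩⟩, [⟨nat_lit 4, nat_lit 100, nat_lit 100, nat_lit 100, nat_lit 41835697⟩]⟩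
noncomputable def p056_l29 : Lf2 := ⟨nat_lit 0, nat_lit 10, [nat_lit 0, nat_lit 5, nat_lit 5, nat_lit 20], true, nat_lit 0, nat_lit 160, nat_lit 0, nat_lit 384, ⟨nat_lit 0, nat_lit 1000, nat_lit 0, nat_lit 5, nat_lit 194, nat_lit 1000, nat_lit 64, nat_lit 0, nat_lit 0, nat_lit 0, nat_lit 0, nat_lit 0, nat_lit 0, nat_lit 0, nat_lit 0, nat_lit 5000000, false, false⟩,
 nat_lit 0, nat_lit 7936, nat_lit 0, nat_lit 0, nat_lit 5050, nat_lit 0, nat_lit 0, nat_lit 0, nat_lit 0, nat_lit 0, nat_lit 0, nat_lit 0, nat_lit 0, nat_lit 0, nat_lit 0, nat_lit 884200, nat_lit 0, nat_lit 0, [(nat_lit 12, [(nat_lit 1, nat_lit 193), (nat_lit 2, nat_lit 807)]), (nat_lit 15, [(nat_lit 1, nat_lit 193), (nat_lit 2, nat_lit 807)])],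
 ⟨p056_k17, nat_lit 0, nat_lit 0, nat_lit 458, nat_lit 0, nat_lit 509415, [nat_lit 2820780601, nat_lit 1346000401, nat_lit 271567200], [], [nat_lit 30817492003, nat_lit 25557634203, nat_lit 23062470403, nat_lit 24523569603, nat_lit 19722573404, nat_lit 21162928403, nat_lit 27821062603, nat_lit 23247701803], nat_lit 1271250, nat_lit 1271250, nat_lit 780000, nat_lit 1762500, nat_lit 0, nat_lit 1100001, [nat_lit 780000, nat_lit 1762500, nat_lit 1271250], [nat_lit 99, nat_lit 40, nat_lit 40, nat_lit 80, nat_lit 17, nat_lit 317, nat_lit 100, nat_lit 9]⟩, C1.Rw.none,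
 ⟨nat_lit 4472, nat_lit 5478, ⟨.ofNat (nat_lit 350132), .ofNat (nat_lit 574895), .ofNat (nat_lit 392815), .ofNat (nat_lit 617523), .ofNat (nat_lit 364042), .ofNat (nat_lit 567940), .ofNat (nat_lit 407143), .ofNat (nat_lit 610987)⟩, ⟨.negSucc (nat_lit 2834), .ofNat (nat_lit 296923), .ofNat (nat_lit 0), .ofNat (nat_lit 339637), .ofNat (nat_lit 0), .ofNat (nat_lit 302621), .ofNat (nat_lit 0), .ofNat (nat_lit 345754)⟩⟩, []⟩
noncomputable def p056_l30 : Lf2 := ⟨nat_lit 0, nat_lit 10, [nat_lit 0, nat_lit 5, nat_lit 5, nat_lit 20], true, nat_lit 160, nat_lit 336, nat_lit 0, nat_lit 384, ⟨nat_lit 0, nat_lit 1000, nat_lit 0, nat_lit 5, nat_lit 194, nat_lit 1000, nat_lit 191, nat_lit 0, nat_lit 0, nat_lit 0, nat_lit 0, nat_lit 0, nat_lit 0, nat_lit 0, nat_lit 0, nat_lit 5000000, false, false⟩,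
 nat_lit 0, nat_lit 8275, nat_lit 0, nat_lit 0, nat_lit 5265, nat_lit 0, nat_lit 0, nat_lit 0, nat_lit 0, nat_lit 0, nat_lit 0, nat_lit 0, nat_lit 0, nat_lit 0, nat_lit 0, nat_lit 671800, nat_lit 0, nat_lit 0, [(nat_lit 12, [(nat_lit 1, nat_lit 547), (nat_lit 2, nat_lit 453)]), (nat_lit 15, [(nat_lit 1, nat_lit 547), (nat_lit 2, nat_lit 453)])],
 ⟨p056_k18, nat_lit 0, nat_lit 0, nat_lit 312, nat_lit 0, nat_lit 509415, [nat_lit 3048756801, nat_lit 1354369600], [], [nat_lit 23069139722, nat_lit 22369130981, nat_lit 27613700061, nat_lit 23700218283, nat_lit 25365860815, nat_lit 26651871992, nat_lit 26339690752, nat_lit 27381689859], nat_lit 1271250, nat_lit 1271250, nat_lit 780000, nat_lit 1762500, nat_lit 1271250, nat_lit 1271250, [nat_lit 780000, nat_lit 2090000], [nat_lit 82, nat_lit 40, nat_lit 40, nat_lit 80, nat_lit 63, nat_lit 373, nat_lit 150, nat_lit 10]⟩, C1.Rw.none,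
 ⟨nat_lit 4472, nat_lit 5478, ⟨.ofNat (nat_lit 350132), .ofNat (nat_lit 574895), .ofNat (nat_lit 392815), .ofNat (nat_lit 617523), .ofNat (nat_lit 364042), .ofNat (nat_lit 567940), .ofNat (nat_lit 407143), .ofNat (nat_lit 610987)⟩, ⟨.ofNat (nat_lit 296923), .ofNat (nat_lit 626629), .ofNat (nat_lit 339637), .ofNat (nat_lit 669343), .ofNat (nat_lit 302621), .ofNat (nat_lit 601725), .ofNat (nat_lit 345754), .ofNat (nat_lit 644858)⟩⟩, [⟨nat_lit 4, nat_lit 100, nat_lit 100, nat_lit 100, nat_lit 186509092⟩]⟩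
noncomputable def p056_l31 : Lf2 := ⟨nat_lit 0, nat_lit 10, [nat_lit 0, nat_lit 5, nat_lit 5, nat_lit 20], false, nat_lit 0, nat_lit 160, nat_lit 0, nat_lit 384, ⟨nat_lit 337, nat_lit 663, nat_lit 0, nat_lit 6, nat_lit 293, nat_lit 663, nat_lit 64, nat_lit 0, nat_lit 0, nat_lit 0, nat_lit 0, nat_lit 0, nat_lit 0, nat_lit 0, nat_lit 0, nat_lit 5000000, true, true⟩,
 nat_lit 6614, nat_lit 1193, nat_lit 0, nat_lit 0, nat_lit 4968, nat_lit 2834, nat_lit 250, nat_lit 0, nat_lit 0, nat_lit 541, nat_lit 0, nat_lit 0, nat_lit 0, nat_lit 0, nat_lit 0, nat_lit 663000, nat_lit 0, nat_lit 0, [(nat_lit 12, [(nat_lit 2, nat_lit 663)]), (nat_lit 15, [(nat_lit 2, nat_lit 663)])],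
 ⟨p056_k4, nat_lit 0, nat_lit 0, nat_lit 337, nat_lit 0, nat_lit 315660, [nat_lit 2427366481, nat_lit 3311877200, nat_lit 3121832000], [], [nat_lit 25690046427, nat_lit 27277630843, nat_lit 32628275290, nat_lit 34822980548, nat_lit 24248015243, nat_lit 25415467835, nat_lit 29109010503, nat_lit 30093652661], nat_lit 1271250, nat_lit 1271250, nat_lit 1271250, nat_lit 1271250, nat_lit 0, nat_lit 1100001, [nat_lit 780000, nat_lit 1100000, nat_lit 2127500], [nat_lit 42, nat_lit 40, nat_lit 40, nat_lit 80, nat_lit 13, nat_lit 373, nat_lit 150, nat_lit 10]⟩, ⟨p056_k5, nat_lit 0, nat_lit 0, nat_lit 511, nat_lit 0, nat_lit 530082, [nat_lit 2106250000, nat_lit 2685216000, nat_lit 4000864000], [], [nat_lit 12239339618, nat_lit 12349551546, nat_lit 13930303876, nat_lit 13960652942, nat_lit 13473241113, nat_lit 11513281958, nat_lit 13023764540, nat_lit 13107524729], nat_lit 1271250, nat_lit 1271250, nat_lit 1271250, nat_lit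 1271250, nat_lit 0, nat_lit 2712000, [nat_lit 1412500, nat_lit 1271250, nat_lit 1271250], [nat_lit 53, nat_lit 40, nat_lit 40, nat_lit 80, nat_lit 14, nat_lit 538, nat_lit 300, nat_lit 14]⟩,
 ⟨nat_lit 4472, nat_lit 5478, ⟨.ofNat (nat_lit 574895), .ofNat (nat_lit 866988), .ofNat (nat_lit 617523), .ofNat (nat_lit 909625), .ofNat (nat_lit 567940), .ofNat (nat_lit 832909), .ofNat (nat_lit 610987), .ofNat (nat_lit 875965)⟩, ⟨.negSucc (nat_lit 2834), .ofNat (nat_lit 296923), .ofNat (nat_lit 0), .ofNat (nat_lit 339637), .ofNat (nat_lit 0), .ofNat (nat_lit 302621), .ofNat (nat_lit 0), .ofNat (nat_lit 345754)⟩⟩, [⟨nat_lit 10, nat_lit 100, nat_lit 57, nat_lit 80, nat_lit 124198260⟩]⟩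
noncomputable def p056_l32 : Lf2 := ⟨nat_lit 0, nat_lit 10, [nat_lit 0, nat_lit 5, nat_lit 5, nat_lit 20], false, nat_lit 160, nat_lit 336, nat_lit 0, nat_lit 384, ⟨nat_lit 404, nat_lit 596, nat_lit 0, nat_lit 6, nat_lit 295, nat_lit 596, nat_lit 192, nat_lit 0, nat_lit 0, nat_lit 0, nat_lit 0, nat_lit 0, nat_lit 0, nat_lit 0, nat_lit 0, nat_lit 5000000, true, true⟩,
 nat_lit 7356, nat_lit 0, nat_lit 0, nat_lit 5661, nat_lit 4376, nat_lit 3152, nat_lit 359, nat_lit 0, nat_lit 0, nat_lit 581, nat_lit 0, nat_lit 0, nat_lit 0, nat_lit 0, nat_lit 0, nat_lit 596000, nat_lit 0, nat_lit 0, [(nat_lit 12, [(nat_lit 2, nat_lit 596)])],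
 ⟨p056_k4, nat_lit 0, nat_lit 0, nat_lit 172, nat_lit 0, nat_lit 173108, [nat_lit 2513732160, nat_lit 3450942400, nat_lit 3800944000], [], [nat_lit 22126163999, nat_lit 23019414927, nat_lit 28821596995, nat_lit 29465291703, nat_lit 27170912537, nat_lit 27786802259, nat_lit 32168349032, nat_lit 32723344742], nat_lit 1271250, nat_lit 1271250, nat_lit 1271250, nat_lit 1271250, nat_lit 1100001, nat_lit 2607000, [nat_lit 780000, nat_lit 1100000, nat_lit 2127500], [nat_lit 42, nat_lit 40, nat_lit 40, nat_lit 80, nat_lit 13, nat_lit 428, nat_lit 200, nat_lit 11]⟩, ⟨p056_k5, nat_lit 0, nat_lit 0, nat_lit 395, nat_lit 0, nat_lit 290698, [nat_lit 2525000000, nat_lit 3219072000, nat_lit 4796288000], [], [nat_lit 14645269426, nat_lit 14858731538, nat_lit 17220602716, nat_lit 17277690079, nat_lit 16237062935, nat_lit 14127115951, nat_lit 15417047817, nat_lit 15380436746], nat_lit 1271250, nat_lit 1271250, nat_lit 1271250, nat_lit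 1271250, nat_lit 0, nat_lit 2712000, [nat_lit 1412500, nat_lit 1271250, nat_lit 1271250], [nat_lit 53, nat_lit 40, nat_lit 40, nat_lit 80, nat_lit 14, nat_lit 538, nat_lit 300, nat_lit 14]⟩,
 ⟨nat_lit 5000, nat_lit 5478, ⟨.ofNat (nat_lit 574920), .ofNat (nat_lit 867109), .ofNat (nat_lit 617614), .ofNat (nat_lit 909802), .ofNat (nat_lit 571415), .ofNat (nat_lit 849937), .ofNat (nat_lit 614253), .ofNat (nat_lit 892774)⟩, ⟨.ofNat (nat_lit 296923), .ofNat (nat_lit 626629), .ofNat (nat_lit 339637), .ofNat (nat_lit 669336), .ofNat (nat_lit 299999), .ofNat (nat_lit 614284), .ofNat (nat_lit 342856), .ofNat (nat_lit 657134)⟩⟩, [⟨nat_lit 13, nat_lit 90, nat_lit 36, nat_lit 100, nat_lit 62650023⟩, ⟨nat_lit 4, nat_lit 94, nat_lit 100, nat_lit 97, nat_lit 242563400⟩, ⟨nat_lit 7, nat_lit 59, nat_lit 100, nat_lit 87, nat_lit 64978663⟩]⟩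
noncomputable def p056_l33 : Lf2 := ⟨nat_lit 0, nat_lit 10, [nat_lit 0, nat_lit 5, nat_lit 5, nat_lit 20], false, nat_lit 160, nat_lit 320, nat_lit 0, nat_lit 384, ⟨nat_lit 377, nat_lit 623, nat_lit 0, nat_lit 6, nat_lit 290, nat_lit 623, nat_lit 185, nat_lit 0, nat_lit 0, nat_lit 0, nat_lit 0, nat_lit 0, nat_lit 0, nat_lit 0, nat_lit 0, nat_lit 5000000, true, true⟩,
 nat_lit 7075, nat_lit 0, nat_lit 0, nat_lit 2357, nat_lit 4091, nat_lit 3032, nat_lit 171, nat_lit 0, nat_lit 0, nat_lit 511, nat_lit 0, nat_lit 0, nat_lit 0, nat_lit 0, nat_lit 0, nat_lit 548600, nat_lit 0, nat_lit 0, [(nat_lit 15, [(nat_lit 1, nat_lit 124), (nat_lit 2, nat_lit 499)])],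
 ⟨p056_k6, nat_lit 0, nat_lit 0, nat_lit 164, nat_lit 0, nat_lit 218816, [nat_lit 2476557360, nat_lit 3139570001, nat_lit 2964954933], [], [nat_lit 22251994489, nat_lit 22726899944, nat_lit 28769279035, nat_lit 29090233419, nat_lit 26791108715, nat_lit 27134980319, nat_lit 31578971281, nat_lit 31841509925], nat_lit 1271250, nat_lit 1271250, nat_lit 1271250, nat_lit 1271250, nat_lit 1100001, nat_lit 2470000, [nat_lit 780000, nat_lit 1100000, nat_lit 1785000], [nat_lit 36, nat_lit 40, nat_lit 40, nat_lit 80, nat_lit 7, nat_lit 317, nat_lit 100, nat_lit 9]⟩, ⟨p056_k5, nat_lit 0, nat_lit 0, nat_lit 434, nat_lit 0, nat_lit 408501, [nat_lit 2356250000, nat_lit 3003936000, nat_lit 4475744000], [], [nat_lit 14730380710, nat_lit 14815351438, nat_lit 16343743930, nat_lit 16327220725, nat_lit 15120456227, nat_lit 13521573317, nat_lit 14445150856, nat_lit 14368133292], nat_lit 1271250, nat_lit 1271250, nat_lit 1271250, nat_lit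 1271250, nat_lit 0, nat_lit 2712000, [nat_lit 1412500, nat_lit 1271250, nat_lit 1271250], [nat_lit 53, nat_lit 40, nat_lit 40, nat_lit 80, nat_lit 14, nat_lit 538, nat_lit 300, nat_lit 14]⟩,
 ⟨nat_lit 4743, nat_lit 5000, ⟨.ofNat (nat_lit 571426), .ofNat (nat_lit 842848), .ofNat (nat_lit 614278), .ofNat (nat_lit 885699), .ofNat (nat_lit 569697), .ofNat (nat_lit 834550), .ofNat (nat_lit 612668), .ofNat (nat_lit 877520)⟩, ⟨.ofNat (nat_lit 299999), .ofNat (nat_lit 585713), .ofNat (nat_lit 342856), .ofNat (nat_lit 628570), .ofNat (nat_lit 301370), .ofNat (nat_lit 580169), .ofNat (nat_lit 344346), .ofNat (nat_lit 623145)⟩⟩, [⟨nat_lit 13, nat_lit 86, nat_lit 44, nat_lit 100, nat_lit 69012167⟩, ⟨nat_lit 16, nat_lit 94, nat_lit 88, nat_lit 100, nat_lit 238038412⟩, ⟨nat_lit 7, nat_lit 59, nat_lit 100, nat_lit 87, nat_lit 57800645⟩]⟩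
noncomputable def p056_l34 : Lf2 := ⟨nat_lit 0, nat_lit 10, [nat_lit 0, nat_lit 5, nat_lit 5, nat_lit 20], false, nat_lit 160, nat_lit 312, nat_lit 0, nat_lit 384, ⟨nat_lit 294, nat_lit 706, nat_lit 0, nat_lit 6, nat_lit 287, nat_lit 706, nat_lit 182, nat_lit 0, nat_lit 0, nat_lit 0, nat_lit 0, nat_lit 0, nat_lit 0, nat_lit 0, nat_lit 0, nat_lit 5000000, true, true⟩,
 nat_lit 5540, nat_lit 0, nat_lit 0, nat_lit 2062, nat_lit 3993, nat_lit 2374, nat_lit 412, nat_lit 0, nat_lit 0, nat_lit 402, nat_lit 0, nat_lit 0, nat_lit 0, nat_lit 0, nat_lit 0, nat_lit 282400, nat_lit 0, nat_lit 0, [(nat_lit 15, [(nat_lit 1, nat_lit 706)])],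
 ⟨p056_k16, nat_lit 0, nat_lit 0, nat_lit 178, nat_lit 0, nat_lit 269993, [nat_lit 2391169200, nat_lit 3028052800, nat_lit 3977688000], [], [nat_lit 22626138823, nat_lit 23096437788, nat_lit 28743934849, nat_lit 29067048116, nat_lit 26757707569, nat_lit 27105975574, nat_lit 31367829307, nat_lit 31620454375], nat_lit 1271250, nat_lit 1271250, nat_lit 1271250, nat_lit 1271250, nat_lit 1100001, nat_lit 2401500, [nat_lit 780000, nat_lit 1100000, nat_lit 1785000], [nat_lit 36, nat_lit 40, nat_lit 40, nat_lit 80, nat_lit 7, nat_lit 317, nat_lit 100, nat_lit 9]⟩, ⟨p056_k5, nat_lit 0, nat_lit 0, nat_lit 510, nat_lit 0, nat_lit 530082, [nat_lit 1837500000, nat_lit 2342592000, nat_lit 3490368000], [], [nat_lit 11435713700, nat_lit 11501360436, nat_lit 12657568374, nat_lit 12647618088, nat_lit 11788245125, nat_lit 10491582353, nat_lit 11202535467, nat_lit 11144356431], nat_lit 1271250, nat_lit 1271250, nat_lit 1271250, nat_lit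 1271250, nat_lit 0, nat_lit 2712000, [nat_lit 1412500, nat_lit 1271250, nat_lit 1271250], [nat_lit 53, nat_lit 40, nat_lit 40, nat_lit 80, nat_lit 14, nat_lit 538, nat_lit 300, nat_lit 14]⟩,
 ⟨nat_lit 4472, nat_lit 4744, ⟨.ofNat (nat_lit 569698), .ofNat (nat_lit 827585), .ofNat (nat_lit 612668), .ofNat (nat_lit 870555), .ofNat (nat_lit 567976), .ofNat (nat_lit 819494), .ofNat (nat_lit 611103), .ofNat (nat_lit 862620)⟩, ⟨.ofNat (nat_lit 301370), .ofNat (nat_lit 566229), .ofNat (nat_lit 344346), .ofNat (nat_lit 609205), .ofNat (nat_lit 302621), .ofNat (nat_lit 560938), .ofNat (nat_lit 345754), .ofNat (nat_lit 604071)⟩⟩, [⟨nat_lit 13, nat_lit 85, nat_lit 38, nat_lit 100, nat_lit 117447312⟩, ⟨nat_lit 16, nat_lit 91, nat_lit 91, nat_lit 100, nat_lit 232593087⟩, ⟨nat_lit 19, nat_lit 100, nat_lit 59, nat_lit 87, nat_lit 45431561⟩]⟩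
noncomputable def b_V_700_500_20_11 : St := ⟨true, nat_lit 1, nat_lit 2, nat_lit 2, nat_lit 120, nat_lit 280, nat_lit 320, nat_lit 200, nat_lit 240, nat_lit 16, nat_lit 396, nat_lit 80, nat_lit 120, nat_lit 0, nat_lit 336, nat_lit 0, nat_lit 384, nat_lit 0, nat_lit 40, nat_lit 0, nat_lit 0, nat_lit 0, nat_lit 0⟩
theorem d_V_700_500_20_11 (h : EB TB.env) : Dead b_V_700_500_20_11 := chkB_sound0 h (T :=
(.st (nat_lit 1)
(.spl (nat_lit 2) (nat_lit 120)
(.spl (nat_lit 0) (nat_lit 300)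
(.leaf p056_l21)
(.trZ (nat_lit 0) (nat_lit 100) (nat_lit 87) (nat_lit 50) (nat_lit 24) (.trX (nat_lit 16) (nat_lit 94) (nat_lit 88) (nat_lit 100) (nat_lit 320) (.leaf p056_l22))))
(.spl (nat_lit 4) (nat_lit 160)
(.spl (nat_lit 2) (nat_lit 240)
(.leaf p056_l23)
(.leaf p056_l24))
(.spl (nat_lit 2) (nat_lit 240)
(.leaf p056_l25)
(.spl (nat_lit 5) (nat_lit 160)
(.leaf p056_l26)
(.leaf p056_l27)))))
(.spl (nat_lit 2) (nat_lit 120)
(.leaf p056_l28)
(.spl (nat_lit 2) (nat_lit 240)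
(.spl (nat_lit 4) (nat_lit 160)
(.leaf p056_l29)
(.leaf p056_l30))
(.spl (nat_lit 4) (nat_lit 160)
(.leaf p056_l31)
(.spl (nat_lit 0) (nat_lit 300)
(.leaf p056_l32)
(.trX (nat_lit 13) (nat_lit 88) (nat_lit 32) (nat_lit 100) (nat_lit 392) (.trX (nat_lit 16) (nat_lit 94) (nat_lit 88) (nat_lit 100) (nat_lit 320) (.spl (nat_lit 0) (nat_lit 310)
(.leaf p056_l33)
(.trX (nat_lit 13) (nat_lit 85) (nat_lit 38) (nat_lit 100) (nat_lit 388) (.trX (nat_lit 16) (nat_lit 91) (nat_lit 91) (nat_lit 100) (nat_lit 312) (.leaf p056_l34)))))))))))) (by decide +kernel)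
noncomputable def p056_l35 : Lf2 := ⟨nat_lit 0, nat_lit 10, [nat_lit 0, nat_lit 5, nat_lit 5, nat_lit 20], true, nat_lit 0, nat_lit 160, nat_lit 0, nat_lit 336, ⟨nat_lit 0, nat_lit 0, nat_lit 1000, nat_lit 6, nat_lit 139, nat_lit 576, nat_lit 56, nat_lit 1000, nat_lit 25350, nat_lit 254, nat_lit 180267, nat_lit 319, nat_lit 59822027, nat_lit 0, nat_lit 0, nat_lit 1702401, false, false⟩,
 nat_lit 0, nat_lit 0, nat_lit 0, nat_lit 3504, nat_lit 3351, nat_lit 0, nat_lit 262, nat_lit 0, nat_lit 0, nat_lit 0, nat_lit 0, nat_lit 0, nat_lit 0, nat_lit 0, nat_lit 86, nat_lit 400000, nat_lit 0, nat_lit 0, [(nat_lit 12, [(nat_lit 5, nat_lit 1000)]), (nat_lit 15, [(nat_lit 5, nat_lit 1000)])],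
 ⟨p056_k17, nat_lit 0, nat_lit 0, nat_lit 285, nat_lit 0, nat_lit 0, [nat_lit 2347200000, nat_lit 597000001, nat_lit 174400000], [], [nat_lit 14542158048, nat_lit 17714229169, nat_lit 14635707585, nat_lit 17145900125, nat_lit 14631364413, nat_lit 16956332871, nat_lit 14856702725, nat_lit 16989812185], nat_lit 0, nat_lit 0, nat_lit 0, nat_lit 0, nat_lit 0, nat_lit 0, [], [nat_lit 99, nat_lit 40, nat_lit 40, nat_lit 80, nat_lit 17, nat_lit 289, nat_lit 75, nat_lit 9]⟩, C1.Rw.none,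
 ⟨nat_lit 4472, nat_lit 5478, ⟨.ofNat (nat_lit 235487), .ofNat (nat_lit 392815), .ofNat (nat_lit 278138), .ofNat (nat_lit 435455), .ofNat (nat_lit 264421), .ofNat (nat_lit 407143), .ofNat (nat_lit 307491), .ofNat (nat_lit 450202)⟩, ⟨.negSucc (nat_lit 45522), .ofNat (nat_lit 254209), .negSucc (nat_lit 2834), .ofNat (nat_lit 296923), .negSucc (nat_lit 12423), .ofNat (nat_lit 259489), .ofNat (nat_lit 0), .ofNat (nat_lit 302621)⟩⟩, [⟨nat_lit 0, nat_lit 100, nat_lit 91, nat_lit 77, nat_lit 119212586⟩]⟩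
noncomputable def p056_l36 : Lf2 := ⟨nat_lit 0, nat_lit 10, [nat_lit 0, nat_lit 5, nat_lit 5, nat_lit 20], true, nat_lit 160, nat_lit 240, nat_lit 0, nat_lit 336, ⟨nat_lit 0, nat_lit 0, nat_lit 1000, nat_lit 6, nat_lit 124, nat_lit 1000, nat_lit 140, nat_lit 1000, nat_lit 183750, nat_lit 320, nat_lit 144150, nat_lit 308, nat_lit 52998034, nat_lit 0, nat_lit 0, nat_lit 3502739, false, false⟩,
 nat_lit 0, nat_lit 0, nat_lit 0, nat_lit 2145, nat_lit 4661, nat_lit 0, nat_lit 0, nat_lit 0, nat_lit 0, nat_lit 0, nat_lit 0, nat_lit 0, nat_lit 0, nat_lit 0, nat_lit 0, nat_lit 250000, nat_lit 0, nat_lit 0, [(nat_lit 12, [(nat_lit 0, nat_lit 1000)]), (nat_lit 15, [(nat_lit 0, nat_lit 1000)])],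
 ⟨p056_k18, nat_lit 0, nat_lit 0, nat_lit 49, nat_lit 0, nat_lit 0, [nat_lit 2378800001, nat_lit 3513428572], [], [nat_lit 12520221640, nat_lit 16765155940, nat_lit 11763036877, nat_lit 15591706584, nat_lit 16624286391, nat_lit 20204893875, nat_lit 15546063557, nat_lit 18998924564], nat_lit 0, nat_lit 0, nat_lit 0, nat_lit 0, nat_lit 0, nat_lit 0, [], [nat_lit 82, nat_lit 40, nat_lit 40, nat_lit 80, nat_lit 63, nat_lit 317, nat_lit 100, nat_lit 9]⟩, C1.Rw.none,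
 ⟨nat_lit 4472, nat_lit 5478, ⟨.ofNat (nat_lit 235487), .ofNat (nat_lit 317898), .ofNat (nat_lit 278138), .ofNat (nat_lit 360546), .ofNat (nat_lit 264421), .ofNat (nat_lit 339182), .ofNat (nat_lit 307491), .ofNat (nat_lit 382248)⟩, ⟨.ofNat (nat_lit 254209), .ofNat (nat_lit 404075), .ofNat (nat_lit 296923), .ofNat (nat_lit 446789), .ofNat (nat_lit 259489), .ofNat (nat_lit 395445), .ofNat (nat_lit 302621), .ofNat (nat_lit 438578)⟩⟩, [⟨nat_lit 0, nat_lit 100, nat_lit 91, nat_lit 77, nat_lit 257681210⟩]⟩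
noncomputable def p056_l37 : Lf2 := ⟨nat_lit 0, nat_lit 10, [nat_lit 0, nat_lit 5, nat_lit 5, nat_lit 20], true, nat_lit 240, nat_lit 300, nat_lit 0, nat_lit 312, ⟨nat_lit 0, nat_lit 0, nat_lit 1000, nat_lit 6, nat_lit 107, nat_lit 1000, nat_lit 192, nat_lit 1000, nat_lit 3701, nat_lit 228, nat_lit 106667, nat_lit 295, nat_lit 49632842, nat_lit 0, nat_lit 0, nat_lit 3869527, false, false⟩,
 nat_lit 0, nat_lit 0, nat_lit 0, nat_lit 5292, nat_lit 3076, nat_lit 0, nat_lit 0, nat_lit 0, nat_lit 0, nat_lit 0, nat_lit 0, nat_lit 0, nat_lit 0, nat_lit 0, nat_lit 129, nat_lit 580600, nat_lit 0, nat_lit 0, [(nat_lit 12, [(nat_lit 5, nat_lit 699), (nat_lit 6, nat_lit 301)])],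
 ⟨p056_k0, nat_lit 0, nat_lit 0, nat_lit 141, nat_lit 0, nat_lit 0, [nat_lit 2758820401, nat_lit 1866860400, nat_lit 270625200], [], [nat_lit 17262069669, nat_lit 17711478623, nat_lit 17113334953, nat_lit 17554481439, nat_lit 19620915851, nat_lit 20239175795, nat_lit 19471810411, nat_lit 19924252891], nat_lit 0, nat_lit 0, nat_lit 0, nat_lit 0, nat_lit 0, nat_lit 0, [], [nat_lit 8, nat_lit 40, nat_lit 40, nat_lit 80, nat_lit 1, nat_lit 317, nat_lit 100, nat_lit 9]⟩, C1.Rw.none,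
 ⟨nat_lit 5244, nat_lit 5478, ⟨.ofNat (nat_lit 235487), .ofNat (nat_lit 280447), .ofNat (nat_lit 246166), .ofNat (nat_lit 291125), .ofNat (nat_lit 242768), .ofNat (nat_lit 286670), .ofNat (nat_lit 253460), .ofNat (nat_lit 297363)⟩, ⟨.ofNat (nat_lit 404075), .ofNat (nat_lit 516475), .ofNat (nat_lit 446789), .ofNat (nat_lit 559189), .ofNat (nat_lit 402086), .ofNat (nat_lit 511843), .ofNat (nat_lit 444857), .ofNat (nat_lit 554614)⟩⟩, [⟨nat_lit 0, nat_lit 100, nat_lit 93, nat_lit 63, nat_lit 145754225⟩, ⟨nat_lit 16, nat_lit 100, nat_lit 95, nat_lit 87, nat_lit 229422302⟩]⟩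
noncomputable def p056_l38 : Lf2 := ⟨nat_lit 0, nat_lit 10, [nat_lit 0, nat_lit 5, nat_lit 5, nat_lit 20], true, nat_lit 240, nat_lit 292, nat_lit 0, nat_lit 312, ⟨nat_lit 0, nat_lit 1000, nat_lit 0, nat_lit 6, nat_lit 111, nat_lit 1000, nat_lit 188, nat_lit 0, nat_lit 0, nat_lit 0, nat_lit 0, nat_lit 0, nat_lit 49751684, nat_lit 5274629, nat_lit 11973687, nat_lit 3881468, false, false⟩,
 nat_lit 0, nat_lit 0, nat_lit 0, nat_lit 2842, nat_lit 4016, nat_lit 0, nat_lit 0, nat_lit 0, nat_lit 0, nat_lit 0, nat_lit 0, nat_lit 0, nat_lit 0, nat_lit 0, nat_lit 0, nat_lit 250000, nat_lit 0, nat_lit 0, [(nat_lit 12, [(nat_lit 0, nat_lit 1000)])],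
 ⟨p056_k19, nat_lit 0, nat_lit 0, nat_lit 55, nat_lit 0, nat_lit 0, [nat_lit 2364000000, nat_lit 3224400000], [], [nat_lit 17250443592, nat_lit 17995552976, nat_lit 17052283320, nat_lit 17783825968, nat_lit 20484169740, nat_lit 21201155326, nat_lit 20231677291, nat_lit 20873283690], nat_lit 0, nat_lit 0, nat_lit 0, nat_lit 0, nat_lit 0, nat_lit 0, [], [nat_lit 74, nat_lit 40, nat_lit 40, nat_lit 80, nat_lit 43, nat_lit 226, nat_lit 20, nat_lit 7]⟩, C1.Rw.none,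
 ⟨nat_lit 5000, nat_lit 5245, ⟨.ofNat (nat_lit 250085), .ofNat (nat_lit 286670), .ofNat (nat_lit 260778), .ofNat (nat_lit 297363), .ofNat (nat_lit 257141), .ofNat (nat_lit 292856), .ofNat (nat_lit 267856), .ofNat (nat_lit 303570)⟩, ⟨.ofNat (nat_lit 402086), .ofNat (nat_lit 497209), .ofNat (nat_lit 444857), .ofNat (nat_lit 539979), .ofNat (nat_lit 399998), .ofNat (nat_lit 492856), .ofNat (nat_lit 442856), .ofNat (nat_lit 535713)⟩⟩, [⟨nat_lit 0, nat_lit 100, nat_lit 90, nat_lit 68, nat_lit 176093115⟩, ⟨nat_lit 16, nat_lit 100, nat_lit 100, nat_lit 89, nat_lit 296603128⟩]⟩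
noncomputable def p056_l39 : Lf2 := ⟨nat_lit 0, nat_lit 10, [nat_lit 0, nat_lit 5, nat_lit 5, nat_lit 20], true, nat_lit 240, nat_lit 300, nat_lit 0, nat_lit 312, ⟨nat_lit 0, nat_lit 1000, nat_lit 0, nat_lit 6, nat_lit 114, nat_lit 1000, nat_lit 191, nat_lit 0, nat_lit 0, nat_lit 0, nat_lit 0, nat_lit 0, nat_lit 49231483, nat_lit 5473769, nat_lit 12294748, nat_lit 3955016, false, false⟩,
 nat_lit 0, nat_lit 0, nat_lit 0, nat_lit 2849, nat_lit 4042, nat_lit 0, nat_lit 0, nat_lit 0, nat_lit 0, nat_lit 0, nat_lit 0, nat_lit 0, nat_lit 0, nat_lit 0, nat_lit 0, nat_lit 250000, nat_lit 0, nat_lit 0, [(nat_lit 12, [(nat_lit 0, nat_lit 1000)])],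
 ⟨p056_k18, nat_lit 0, nat_lit 0, nat_lit 58, nat_lit 0, nat_lit 0, [nat_lit 2378800001, nat_lit 3513428572], [], [nat_lit 16503231297, nat_lit 17998391313, nat_lit 16314897765, nat_lit 17782804917, nat_lit 20352554601, nat_lit 21757602712, nat_lit 20098532340, nat_lit 21360663988], nat_lit 0, nat_lit 0, nat_lit 0, nat_lit 0, nat_lit 0, nat_lit 0, [], [nat_lit 82, nat_lit 40, nat_lit 40, nat_lit 80, nat_lit 63, nat_lit 317, nat_lit 100, nat_lit 9]⟩, C1.Rw.none,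
 ⟨nat_lit 5000, nat_lit 5478, ⟨.ofNat (nat_lit 253659), .ofNat (nat_lit 291125), .ofNat (nat_lit 264337), .ofNat (nat_lit 301804), .ofNat (nat_lit 267856), .ofNat (nat_lit 303570), .ofNat (nat_lit 278570), .ofNat (nat_lit 314284)⟩, ⟨.ofNat (nat_lit 404075), .ofNat (nat_lit 516475), .ofNat (nat_lit 446789), .ofNat (nat_lit 559189), .ofNat (nat_lit 399998), .ofNat (nat_lit 507141), .ofNat (nat_lit 442856), .ofNat (nat_lit 549998)⟩⟩, [⟨nat_lit 0, nat_lit 100, nat_lit 93, nat_lit 71, nat_lit 180397573⟩, ⟨nat_lit 16, nat_lit 100, nat_lit 95, nat_lit 87, nat_lit 306737731⟩]⟩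
noncomputable def p056_l40 : Lf2 := ⟨nat_lit 0, nat_lit 10, [nat_lit 0, nat_lit 5, nat_lit 5, nat_lit 20], false, nat_lit 240, nat_lit 300, nat_lit 0, nat_lit 312, ⟨nat_lit 1000, nat_lit 0, nat_lit 0, nat_lit 0, nat_lit 0, nat_lit 0, nat_lit 0, nat_lit 0, nat_lit 0, nat_lit 0, nat_lit 0, nat_lit 0, nat_lit 0, nat_lit 0, nat_lit 0, nat_lit 0, false, false⟩,
 nat_lit 0, nat_lit 0, nat_lit 0, nat_lit 14212, nat_lit 4904, nat_lit 9535, nat_lit 0, nat_lit 0, nat_lit 0, nat_lit 1565, nat_lit 0, nat_lit 0, nat_lit 0, nat_lit 0, nat_lit 0, nat_lit 0, nat_lit 0, nat_lit 0, [],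
 ⟨p056_k0, nat_lit 0, nat_lit 0, nat_lit 82, nat_lit 0, nat_lit 0, [nat_lit 3282000000, nat_lit 6250000000, nat_lit 9842000000], [], [nat_lit 16721103239, nat_lit 18367600164, nat_lit 16533705968, nat_lit 18161476192, nat_lit 20925294868, nat_lit 22466962249, nat_lit 20692989368, nat_lit 22132122956], nat_lit 0, nat_lit 0, nat_lit 0, nat_lit 0, nat_lit 0, nat_lit 0, [], [nat_lit 8, nat_lit 40, nat_lit 40, nat_lit 80, nat_lit 1, nat_lit 317, nat_lit 100, nat_lit 9]⟩, ⟨p056_k20, nat_lit 0, nat_lit 0, nat_lit 213, nat_lit 0, nat_lit 0, [nat_lit 4688000000, nat_lit 7968000000, nat_lit 9842000000], [], [nat_lit 22154517483, nat_lit 24294836037, nat_lit 21376058465, nat_lit 23495169410, nat_lit 24332458436, nat_lit 26198879429, nat_lit 23658982340, nat_lit 25354638114], nat_lit 0, nat_lit 0, nat_lit 0, nat_lit 0, nat_lit 0, nat_lit 0, [], [nat_lit 29, nat_lit 40, nat_lit 40, nat_lit 80, nat_lit 17, nat_lit 401, nat_lit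 175, nat_lit 12]⟩,
 zbF0, [⟨nat_lit 0, nat_lit 100, nat_lit 96, nat_lit 69, nat_lit 789205336⟩, ⟨nat_lit 16, nat_lit 100, nat_lit 95, nat_lit 87, nat_lit 427212195⟩, ⟨nat_lit 11, nat_lit 100, nat_lit 100, nat_lit 73, nat_lit 293249559⟩]⟩
noncomputable def p056_l41 : Lf2 := ⟨nat_lit 0, nat_lit 10, [nat_lit 0, nat_lit 5, nat_lit 5, nat_lit 20], true, nat_lit 240, nat_lit 280, nat_lit 0, nat_lit 312, ⟨nat_lit 0, nat_lit 1000, nat_lit 0, nat_lit 6, nat_lit 124, nat_lit 1000, nat_lit 182, nat_lit 0, nat_lit 0, nat_lit 0, nat_lit 0, nat_lit 0, nat_lit 49407607, nat_lit 6257573, nat_lit 11334820, nat_lit 3987608, false, false⟩,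
 nat_lit 0, nat_lit 0, nat_lit 0, nat_lit 2784, nat_lit 4088, nat_lit 0, nat_lit 0, nat_lit 0, nat_lit 0, nat_lit 0, nat_lit 0, nat_lit 0, nat_lit 0, nat_lit 0, nat_lit 0, nat_lit 250000, nat_lit 0, nat_lit 0, [(nat_lit 15, [(nat_lit 0, nat_lit 1000)])],
 ⟨p056_k2, nat_lit 0, nat_lit 0, nat_lit 56, nat_lit 0, nat_lit 0, [nat_lit 2318400000, nat_lit 3071600000], [], [nat_lit 17827862551, nat_lit 19326086157, nat_lit 17694413824, nat_lit 19170851952, nat_lit 20321233474, nat_lit 21808620817, nat_lit 20089965744, nat_lit 21562739688], nat_lit 0, nat_lit 0, nat_lit 0, nat_lit 0, nat_lit 0, nat_lit 0, [], [nat_lit 74, nat_lit 40, nat_lit 40, nat_lit 80, nat_lit 43, nat_lit 226, nat_lit 20, nat_lit 7]⟩, C1.Rw.none,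
 ⟨nat_lit 4472, nat_lit 5000, ⟨.ofNat (nat_lit 271418), .ofNat (nat_lit 292846), .ofNat (nat_lit 314253), .ofNat (nat_lit 335680), .ofNat (nat_lit 284805), .ofNat (nat_lit 305198), .ofNat (nat_lit 327916), .ofNat (nat_lit 348308)⟩, ⟨.ofNat (nat_lit 399998), .ofNat (nat_lit 471427), .ofNat (nat_lit 442856), .ofNat (nat_lit 514284), .ofNat (nat_lit 395445), .ofNat (nat_lit 463423), .ofNat (nat_lit 438578), .ofNat (nat_lit 506556)⟩⟩, [⟨nat_lit 0, nat_lit 100, nat_lit 88, nat_lit 68, nat_lit 595569369⟩, ⟨nat_lit 16, nat_lit 94, nat_lit 100, nat_lit 87, nat_lit 326554181⟩]⟩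
noncomputable def p056_l42 : Lf2 := ⟨nat_lit 0, nat_lit 10, [nat_lit 0, nat_lit 5, nat_lit 5, nat_lit 20], true, nat_lit 240, nat_lit 300, nat_lit 0, nat_lit 336, ⟨nat_lit 0, nat_lit 1000, nat_lit 0, nat_lit 6, nat_lit 129, nat_lit 1000, nat_lit 190, nat_lit 0, nat_lit 0, nat_lit 0, nat_lit 0, nat_lit 0, nat_lit 48357301, nat_lit 6566399, nat_lit 12076300, nat_lit 4125638, false, false⟩,
 nat_lit 0, nat_lit 0, nat_lit 0, nat_lit 2849, nat_lit 4154, nat_lit 0, nat_lit 0, nat_lit 0, nat_lit 0, nat_lit 0, nat_lit 0, nat_lit 0, nat_lit 0, nat_lit 0, nat_lit 0, nat_lit 250000, nat_lit 0, nat_lit 0, [(nat_lit 12, [(nat_lit 0, nat_lit 1000)]), (nat_lit 15, [(nat_lit 0, nat_lit 1000)])],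
 ⟨p056_k18, nat_lit 0, nat_lit 0, nat_lit 57, nat_lit 0, nat_lit 0, [nat_lit 2378800001, nat_lit 3513428572], [], [nat_lit 16225974469, nat_lit 19203330917, nat_lit 16021530185, nat_lit 18943352297, nat_lit 20058417244, nat_lit 22863454846, nat_lit 19787094287, nat_lit 22423429748], nat_lit 0, nat_lit 0, nat_lit 0, nat_lit 0, nat_lit 0, nat_lit 0, [], [nat_lit 82, nat_lit 40, nat_lit 40, nat_lit 80, nat_lit 63, nat_lit 317, nat_lit 100, nat_lit 8]⟩, C1.Rw.none,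
 ⟨nat_lit 4472, nat_lit 5478, ⟨.ofNat (nat_lit 280440), .ofNat (nat_lit 317898), .ofNat (nat_lit 301764), .ofNat (nat_lit 339222), .ofNat (nat_lit 305201), .ofNat (nat_lit 339182), .ofNat (nat_lit 326734), .ofNat (nat_lit 360715)⟩, ⟨.ofNat (nat_lit 404075), .ofNat (nat_lit 516475), .ofNat (nat_lit 446789), .ofNat (nat_lit 559189), .ofNat (nat_lit 395445), .ofNat (nat_lit 497412), .ofNat (nat_lit 438578), .ofNat (nat_lit 540545)⟩⟩, [⟨nat_lit 16, nat_lit 100, nat_lit 95, nat_lit 87, nat_lit 314614565⟩]⟩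
noncomputable def p056_l43 : Lf2 := ⟨nat_lit 0, nat_lit 10, [nat_lit 0, nat_lit 5, nat_lit 5, nat_lit 20], false, nat_lit 240, nat_lit 300, nat_lit 0, nat_lit 320, ⟨nat_lit 1000, nat_lit 0, nat_lit 0, nat_lit 0, nat_lit 0, nat_lit 0, nat_lit 0, nat_lit 0, nat_lit 0, nat_lit 0, nat_lit 0, nat_lit 0, nat_lit 0, nat_lit 0, nat_lit 0, nat_lit 0, false, false⟩,
 nat_lit 0, nat_lit 0, nat_lit 0, nat_lit 12024, nat_lit 4985, nat_lit 9342, nat_lit 0, nat_lit 0, nat_lit 0, nat_lit 1276, nat_lit 0, nat_lit 0, nat_lit 0, nat_lit 0, nat_lit 0, nat_lit 0, nat_lit 0, nat_lit 0, [],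
 ⟨p056_k0, nat_lit 0, nat_lit 0, nat_lit 84, nat_lit 0, nat_lit 0, [nat_lit 3282000000, nat_lit 6250000000, nat_lit 9842000000], [], [nat_lit 16469395370, nat_lit 19754979690, nat_lit 16145415060, nat_lit 19367833140, nat_lit 20663977558, nat_lit 23745352765, nat_lit 20264289615, nat_lit 23147116070], nat_lit 0, nat_lit 0, nat_lit 0, nat_lit 0, nat_lit 0, nat_lit 0, [], [nat_lit 8, nat_lit 40, nat_lit 40, nat_lit 80, nat_lit 1, nat_lit 317, nat_lit 100, nat_lit 8]⟩, ⟨p056_k20, nat_lit 0, nat_lit 0, nat_lit 202, nat_lit 0, nat_lit 0, [nat_lit 4688000000, nat_lit 7968000000, nat_lit 9842000000], [], [nat_lit 22722064458, nat_lit 24812586892, nat_lit 21458634924, nat_lit 23514376640, nat_lit 24876736640, nat_lit 26099011616, nat_lit 23770501324, nat_lit 24969292352], nat_lit 0, nat_lit 0, nat_lit 0, nat_lit 0, nat_lit 0, nat_lit 0, [], [nat_lit 29, nat_lit 40, nat_lit 40, nat_lit 80, nat_lit 17, nat_lit 401, nat_lit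 175, nat_lit 12]⟩,
 zbF0, [⟨nat_lit 0, nat_lit 100, nat_lit 96, nat_lit 69, nat_lit 424673928⟩, ⟨nat_lit 16, nat_lit 100, nat_lit 95, nat_lit 87, nat_lit 440357173⟩, ⟨nat_lit 11, nat_lit 100, nat_lit 100, nat_lit 84, nat_lit 244721577⟩]⟩
noncomputable def p056_l44 : Lf2 := ⟨nat_lit 0, nat_lit 10, [nat_lit 0, nat_lit 5, nat_lit 5, nat_lit 20], true, nat_lit 160, nat_lit 300, nat_lit 0, nat_lit 336, ⟨nat_lit 0, nat_lit 1000, nat_lit 0, nat_lit 6, nat_lit 150, nat_lit 1000, nat_lit 161, nat_lit 0, nat_lit 0, nat_lit 0, nat_lit 0, nat_lit 0, nat_lit 49214837, nat_lit 8387129, nat_lit 9398034, nat_lit 4083305, false, false⟩,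
 nat_lit 0, nat_lit 0, nat_lit 0, nat_lit 2849, nat_lit 4271, nat_lit 0, nat_lit 0, nat_lit 0, nat_lit 0, nat_lit 0, nat_lit 0, nat_lit 0, nat_lit 0, nat_lit 0, nat_lit 0, nat_lit 250000, nat_lit 0, nat_lit 0, [(nat_lit 12, [(nat_lit 0, nat_lit 1000)]), (nat_lit 15, [(nat_lit 0, nat_lit 1000)])],
 ⟨p056_k18, nat_lit 0, nat_lit 0, nat_lit 48, nat_lit 0, nat_lit 0, [nat_lit 2378800001, nat_lit 3513428572], [], [nat_lit 12240273637, nat_lit 15725124753, nat_lit 12651499233, nat_lit 15962092457, nat_lit 19727115290, nat_lit 22525320602, nat_lit 19799245565, nat_lit 22351948399], nat_lit 0, nat_lit 0, nat_lit 0, nat_lit 0, nat_lit 0, nat_lit 0, [], [nat_lit 82, nat_lit 40, nat_lit 40, nat_lit 80, nat_lit 63, nat_lit 345, nat_lit 125, nat_lit 9]⟩, C1.Rw.none,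
 ⟨nat_lit 4472, nat_lit 5478, ⟨.ofNat (nat_lit 317898), .ofNat (nat_lit 392815), .ofNat (nat_lit 339222), .ofNat (nat_lit 414138), .ofNat (nat_lit 339182), .ofNat (nat_lit 407143), .ofNat (nat_lit 360715), .ofNat (nat_lit 428676)⟩, ⟨.ofNat (nat_lit 254209), .ofNat (nat_lit 516475), .ofNat (nat_lit 296923), .ofNat (nat_lit 559189), .ofNat (nat_lit 259489), .ofNat (nat_lit 497412), .ofNat (nat_lit 302621), .ofNat (nat_lit 540545)⟩⟩, [⟨nat_lit 16, nat_lit 100, nat_lit 95, nat_lit 87, nat_lit 253811997⟩]⟩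
noncomputable def p056_l45 : Lf2 := ⟨nat_lit 0, nat_lit 10, [nat_lit 0, nat_lit 5, nat_lit 5, nat_lit 20], false, nat_lit 160, nat_lit 300, nat_lit 0, nat_lit 320, ⟨nat_lit 1000, nat_lit 0, nat_lit 0, nat_lit 0, nat_lit 0, nat_lit 0, nat_lit 0, nat_lit 0, nat_lit 0, nat_lit 0, nat_lit 0, nat_lit 0, nat_lit 0, nat_lit 0, nat_lit 0, nat_lit 0, false, false⟩,
 nat_lit 0, nat_lit 0, nat_lit 0, nat_lit 7630, nat_lit 5125, nat_lit 12173, nat_lit 0, nat_lit 0, nat_lit 0, nat_lit 691, nat_lit 0, nat_lit 0, nat_lit 0, nat_lit 0, nat_lit 0, nat_lit 0, nat_lit 0, nat_lit 0, [],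
 ⟨p056_k0, nat_lit 0, nat_lit 0, nat_lit 71, nat_lit 0, nat_lit 0, [nat_lit 3282000000, nat_lit 6250000000, nat_lit 9842000000], [], [nat_lit 12098447500, nat_lit 15971182000, nat_lit 12399572000, nat_lit 16072555000, nat_lit 20192519875, nat_lit 23269036750, nat_lit 20108816500, nat_lit 22894895125], nat_lit 0, nat_lit 0, nat_lit 0, nat_lit 0, nat_lit 0, nat_lit 0, [], [nat_lit 8, nat_lit 40, nat_lit 40, nat_lit 80, nat_lit 1, nat_lit 345, nat_lit 125, nat_lit 9]⟩, ⟨p056_k20, nat_lit 0, nat_lit 0, nat_lit 182, nat_lit 0, nat_lit 0, [nat_lit 4688000000, nat_lit 7968000000, nat_lit 9842000000], [], [nat_lit 24914846406, nat_lit 27381643660, nat_lit 23472796478, nat_lit 25805949000, nat_lit 25518806366, nat_lit 26715916744, nat_lit 23734458444, nat_lit 24857759636], nat_lit 0, nat_lit 0, nat_lit 0, nat_lit 0, nat_lit 0, nat_lit 0, [], [nat_lit 29, nat_lit 40, nat_lit 40, nat_lit 80, nat_lit 17, nat_lit 428, nat_lit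 200, nat_lit 13]⟩,
 zbF0, [⟨nat_lit 16, nat_lit 100, nat_lit 95, nat_lit 87, nat_lit 350805313⟩, ⟨nat_lit 11, nat_lit 100, nat_lit 100, nat_lit 100, nat_lit 175089024⟩]⟩
noncomputable def p056_l46 : Lf2 := ⟨nat_lit 0, nat_lit 10, [nat_lit 0, nat_lit 5, nat_lit 5, nat_lit 20], false, nat_lit 0, nat_lit 160, nat_lit 0, nat_lit 336, ⟨nat_lit 1000, nat_lit 0, nat_lit 0, nat_lit 0, nat_lit 0, nat_lit 0, nat_lit 0, nat_lit 0, nat_lit 0, nat_lit 0, nat_lit 0, nat_lit 0, nat_lit 0, nat_lit 0, nat_lit 0, nat_lit 0, false, false⟩,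
 nat_lit 0, nat_lit 0, nat_lit 0, nat_lit 2634, nat_lit 6719, nat_lit 15700, nat_lit 0, nat_lit 0, nat_lit 0, nat_lit 0, nat_lit 0, nat_lit 0, nat_lit 0, nat_lit 0, nat_lit 0, nat_lit 0, nat_lit 0, nat_lit 0, [],
 ⟨p056_k18, nat_lit 0, nat_lit 0, nat_lit 200, nat_lit 0, nat_lit 0, [nat_lit 3282000000, nat_lit 9842000000], [], [nat_lit 28390567500, nat_lit 32037741968, nat_lit 42447391552, nat_lit 44096861600, nat_lit 24287529116, nat_lit 27349873300, nat_lit 36273653896, nat_lit 37696329256], nat_lit 0, nat_lit 0, nat_lit 0, nat_lit 0, nat_lit 0, nat_lit 0, [], [nat_lit 82, nat_lit 40, nat_lit 40, nat_lit 80, nat_lit 63, nat_lit 373, nat_lit 150, nat_lit 11]⟩, ⟨p056_k21, nat_lit 0, nat_lit 0, nat_lit 229, nat_lit 0, nat_lit 0, [nat_lit 4688000000, nat_lit 11872000000], [], [nat_lit 33701132000, nat_lit 38395434400, nat_lit 58124838400, nat_lit 61099783200, nat_lit 31491762880, nat_lit 33399976560, nat_lit 44686063280,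 nat_lit 45738843441], nat_lit 0, nat_lit 0, nat_lit 0, nat_lit 0, nat_lit 0, nat_lit 0, [], [nat_lit 116, nat_lit 40, nat_lit 40, nat_lit 80, nat_lit 65, nat_lit 538, nat_lit 300, nat_lit 14]⟩,
 zbF0, []⟩
noncomputable def p056_l47 : Lf2 := ⟨nat_lit 0, nat_lit 10, [nat_lit 0, nat_lit 5, nat_lit 5, nat_lit 20], false, nat_lit 160, nat_lit 300, nat_lit 0, nat_lit 336, ⟨nat_lit 1000, nat_lit 0, nat_lit 0, nat_lit 0, nat_lit 0, nat_lit 0, nat_lit 0, nat_lit 0, nat_lit 0, nat_lit 0, nat_lit 0, nat_lit 0, nat_lit 0, nat_lit 0, nat_lit 0, nat_lit 0, false, false⟩,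
 nat_lit 0, nat_lit 0, nat_lit 0, nat_lit 11077, nat_lit 8395, nat_lit 8767, nat_lit 0, nat_lit 0, nat_lit 0, nat_lit 1186, nat_lit 0, nat_lit 0, nat_lit 0, nat_lit 0, nat_lit 0, nat_lit 0, nat_lit 0, nat_lit 0, [],
 ⟨p056_k0, nat_lit 0, nat_lit 0, nat_lit 90, nat_lit 0, nat_lit 0, [nat_lit 3282000000, nat_lit 6250000000, nat_lit 9842000000], [], [nat_lit 13637228300, nat_lit 17972596140, nat_lit 32026838760, nat_lit 34457137880, nat_lit 21943415945, nat_lit 24974273200, nat_lit 35357462905, nat_lit 37028731110], nat_lit 0, nat_lit 0, nat_lit 0, nat_lit 0, nat_lit 0, nat_lit 0, [], [nat_lit 8, nat_lit 40, nat_lit 40, nat_lit 80, nat_lit 1, nat_lit 401, nat_lit 175, nat_lit 11]⟩, ⟨p056_k22, nat_lit 0, nat_lit 0, nat_lit 251, nat_lit 0, nat_lit 0, [nat_lit 4688000000, nat_lit 7968000000, nat_lit 11872000000], [], [nat_lit 23961607360, nat_lit 27152890824, nat_lit 40766048464, nat_lit 42958784472, nat_lit 26213773493,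 nat_lit 27724383480, nat_lit 36503553649, nat_lit 37519250579], nat_lit 0, nat_lit 0, nat_lit 0, nat_lit 0, nat_lit 0, nat_lit 0, [], [nat_lit 21, nat_lit 40, nat_lit 40, nat_lit 80, nat_lit 14, nat_lit 538, nat_lit 300, nat_lit 14]⟩,
 zbF0, [⟨nat_lit 16, nat_lit 100, nat_lit 95, nat_lit 87, nat_lit 373517529⟩, ⟨nat_lit 4, nat_lit 100, nat_lit 90, nat_lit 74, nat_lit 217311072⟩, ⟨nat_lit 7, nat_lit 92, nat_lit 100, nat_lit 75, nat_lit 144603395⟩]⟩
noncomputable def b_V_700_600_10_0 : St := ⟨true, nat_lit 0, nat_lit 0, nat_lit 1, nat_lit 80, nat_lit 280, nat_lit 320, nat_lit 240, nat_lit 280, nat_lit 36, nat_lit 400, nat_lit 40, nat_lit 80, nat_lit 0, nat_lit 300, nat_lit 0, nat_lit 336, nat_lit 0, nat_lit 40, nat_lit 0, nat_lit 0, nat_lit 0, nat_lit 0⟩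
theorem d_V_700_600_10_0 (h : EB TB.env) : Dead b_V_700_600_10_0 := chkB_sound0 h (T :=
(.spl (nat_lit 2) (nat_lit 120)
(.spl (nat_lit 4) (nat_lit 160)
(.leaf p056_l35)
(.spl (nat_lit 2) (nat_lit 80)
(.spl (nat_lit 4) (nat_lit 240)
(.leaf p056_l36)
(.spl (nat_lit 2) (nat_lit 60)
(.trX (nat_lit 23) (nat_lit 100) (nat_lit 85) (nat_lit 73) (nat_lit 312) (.spl (nat_lit 0) (nat_lit 300)
(.spl (nat_lit 1) (nat_lit 260)
(.spl (nat_lit 1) (nat_lit 250)
(.spl (nat_lit 0) (nat_lit 290)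
(.leaf p056_l37)
(.trZ (nat_lit 0) (nat_lit 100) (nat_lit 91) (nat_lit 63) (nat_lit 40) (.trX (nat_lit 16) (nat_lit 100) (nat_lit 100) (nat_lit 89) (nat_lit 292) (.leaf p056_l38))))
(.trZ (nat_lit 0) (nat_lit 100) (nat_lit 95) (nat_lit 64) (nat_lit 40) (.leaf p056_l39)))
(.trZ (nat_lit 0) (nat_lit 100) (nat_lit 96) (nat_lit 69) (nat_lit 48) (.leaf p056_l40)))
(.trZ (nat_lit 0) (nat_lit 100) (nat_lit 88) (nat_lit 68) (nat_lit 48) (.trX (nat_lit 16) (nat_lit 94) (nat_lit 100) (nat_lit 87) (nat_lit 280) (.leaf p056_l41)))))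
(.spl (nat_lit 1) (nat_lit 260)
(.leaf p056_l42)
(.trX (nat_lit 19) (nat_lit 100) (nat_lit 85) (nat_lit 84) (nat_lit 320) (.leaf p056_l43)))))
(.spl (nat_lit 1) (nat_lit 260)
(.leaf p056_l44)
(.trX (nat_lit 19) (nat_lit 100) (nat_lit 85) (nat_lit 84) (nat_lit 320) (.leaf p056_l45)))))
(.spl (nat_lit 4) (nat_lit 160)
(.leaf p056_l46)
(.leaf p056_l47)))) (by decide +kernel)
noncomputable def p056_l48 : Lf2 := ⟨nat_lit 0, nat_lit 10, [nat_lit 0, nat_lit 5, nat_lit 5, nat_lit 20], true, nat_lit 0, nat_lit 160, nat_lit 0, nat_lit 336, ⟨nat_lit 0, nat_lit 0, nat_lit 1000, nat_lit 6, nat_lit 151, nat_lit 689, nat_lit 55, nat_lit 1000, nat_lit 25350, nat_lit 254, nat_lit 24681, nat_lit 252, nat_lit 58640762, nat_lit 0, nat_lit 0, nat_lit 1881558, false, false⟩,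
 nat_lit 0, nat_lit 0, nat_lit 0, nat_lit 3349, nat_lit 3111, nat_lit 0, nat_lit 337, nat_lit 0, nat_lit 0, nat_lit 0, nat_lit 0, nat_lit 0, nat_lit 0, nat_lit 0, nat_lit 95, nat_lit 400000, nat_lit 0, nat_lit 0, [(nat_lit 12, [(nat_lit 5, nat_lit 1000)])],
 ⟨p056_k0, nat_lit 0, nat_lit 0, nat_lit 219, nat_lit 0, nat_lit 0, [nat_lit 2380800000, nat_lit 1365333334, nat_lit 202000000], [], [nat_lit 13653012433, nat_lit 15218214234, nat_lit 14924833874, nat_lit 16166253730, nat_lit 14216637151, nat_lit 15433164492, nat_lit 15502863066, nat_lit 16557612724], nat_lit 0, nat_lit 0, nat_lit 0, nat_lit 0, nat_lit 0, nat_lit 0, [], [nat_lit 8, nat_lit 40, nat_lit 40, nat_lit 80, nat_lit 1, nat_lit 317, nat_lit 100, nat_lit 9]⟩, C1.Rw.none,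
 ⟨nat_lit 5000, nat_lit 5478, ⟨.ofNat (nat_lit 235487), .ofNat (nat_lit 467773), .ofNat (nat_lit 278201), .ofNat (nat_lit 510468), .ofNat (nat_lit 249999), .ofNat (nat_lit 471421), .ofNat (nat_lit 292856), .ofNat (nat_lit 514258)⟩, ⟨.negSucc (nat_lit 45522), .ofNat (nat_lit 254209), .negSucc (nat_lit 2832), .ofNat (nat_lit 296923), .negSucc (nat_lit 28572), .ofNat (nat_lit 257141), .ofNat (nat_lit 0), .ofNat (nat_lit 299999)⟩⟩, [⟨nat_lit 0, nat_lit 100, nat_lit 94, nat_lit 73, nat_lit 36786828⟩]⟩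
noncomputable def p056_l49 : Lf2 := ⟨nat_lit 0, nat_lit 10, [nat_lit 0, nat_lit 5, nat_lit 5, nat_lit 20], true, nat_lit 0, nat_lit 160, nat_lit 0, nat_lit 336, ⟨nat_lit 0, nat_lit 0, nat_lit 1000, nat_lit 6, nat_lit 159, nat_lit 536, nat_lit 56, nat_lit 1000, nat_lit 26667, nat_lit 255, nat_lit 19267, nat_lit 249, nat_lit 57870892, nat_lit 0, nat_lit 0, nat_lit 1990534, false, false⟩,
 nat_lit 0, nat_lit 0, nat_lit 0, nat_lit 0, nat_lit 3276, nat_lit 0, nat_lit 0, nat_lit 0, nat_lit 0, nat_lit 0, nat_lit 0, nat_lit 0, nat_lit 0, nat_lit 0, nat_lit 94, nat_lit 400000, nat_lit 0, nat_lit 0, [(nat_lit 15, [(nat_lit 5, nat_lit 1000)])],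
 ⟨p056_k2, nat_lit 0, nat_lit 0, nat_lit 162, nat_lit 0, nat_lit 0, [nat_lit 2443200000, nat_lit 153000000], [], [nat_lit 15143447181, nat_lit 17138052525, nat_lit 16081042032, nat_lit 17267420128, nat_lit 15152423061, nat_lit 16292757501, nat_lit 16188123264, nat_lit 17407026688], nat_lit 0, nat_lit 0, nat_lit 0, nat_lit 0, nat_lit 0, nat_lit 0, [], [nat_lit 74, nat_lit 40, nat_lit 40, nat_lit 80, nat_lit 43, nat_lit 317, nat_lit 100, nat_lit 11]⟩, C1.Rw.none,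
 ⟨nat_lit 4472, nat_lit 5000, ⟨.ofNat (nat_lit 271418), .ofNat (nat_lit 471408), .ofNat (nat_lit 314253), .ofNat (nat_lit 514240), .ofNat (nat_lit 284805), .ofNat (nat_lit 475134), .ofNat (nat_lit 327916), .ofNat (nat_lit 518242)⟩, ⟨.negSucc (nat_lit 28572), .ofNat (nat_lit 257141), .ofNat (nat_lit 0), .ofNat (nat_lit 299999), .negSucc (nat_lit 12423), .ofNat (nat_lit 259489), .ofNat (nat_lit 0), .ofNat (nat_lit 302621)⟩⟩, [⟨nat_lit 0, nat_lit 100, nat_lit 88, nat_lit 81, nat_lit 37180307⟩]⟩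
noncomputable def p056_l50 : Lf2 := ⟨nat_lit 0, nat_lit 10, [nat_lit 0, nat_lit 5, nat_lit 5, nat_lit 20], false, nat_lit 0, nat_lit 160, nat_lit 0, nat_lit 336, ⟨nat_lit 110, nat_lit 0, nat_lit 890, nat_lit 6, nat_lit 226, nat_lit 548, nat_lit 55, nat_lit 890, nat_lit 25350, nat_lit 254, nat_lit 49368, nat_lit 200, nat_lit 50824447, nat_lit 0, nat_lit 0, nat_lit 2763590, false, false⟩,
 nat_lit 0, nat_lit 0, nat_lit 1984, nat_lit 0, nat_lit 3615, nat_lit 1050, nat_lit 306, nat_lit 0, nat_lit 0, nat_lit 72, nat_lit 0, nat_lit 0, nat_lit 0, nat_lit 0, nat_lit 47, nat_lit 356000, nat_lit 0, nat_lit 0, [(nat_lit 12, [(nat_lit 5, nat_lit 890)])],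
 ⟨p056_k0, nat_lit 0, nat_lit 0, nat_lit 164, nat_lit 0, nat_lit 0, [nat_lit 2029332000, nat_lit 1151646667, nat_lit 211000000], [], [nat_lit 15725937110, nat_lit 16939481620, nat_lit 18241284150, nat_lit 19308091430, nat_lit 15393340047, nat_lit 16517177017, nat_lit 17910243667, nat_lit 18885077927], nat_lit 0, nat_lit 0, nat_lit 0, nat_lit 0, nat_lit 0, nat_lit 0, [], [nat_lit 8, nat_lit 40, nat_lit 40, nat_lit 80, nat_lit 1, nat_lit 317, nat_lit 100, nat_lit 9]⟩, ⟨p056_k22, nat_lit 0, nat_lit 0, nat_lit 872, nat_lit 0, nat_lit 1281647, [nat_lit 515680000, nat_lit 876480000, nat_lit 1305920000], [], [nat_lit 4831393320, nat_lit 4225984000, nat_lit 4129316560, nat_lit 4134436320, nat_lit 5169269720, nat_lit 4210792760, nat_lit 3393218640, nat_lit 3378627192], nat_lit 1271250, nat_lit 1271250, nat_lit 1271250, nat_lit 1271250, nat_lit 0, nat_lit 2373000, [nat_lit 1100000, nat_lit 1785000, nat_lit 1271250], [nat_lit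 21, nat_lit 40, nat_lit 40, nat_lit 80, nat_lit 14, nat_lit 456, nat_lit 225, nat_lit 12]⟩,
 ⟨nat_lit 5000, nat_lit 5478, ⟨.ofNat (nat_lit 467773), .ofNat (nat_lit 617614), .ofNat (nat_lit 510468), .ofNat (nat_lit 660309), .ofNat (nat_lit 471421), .ofNat (nat_lit 614253), .ofNat (nat_lit 514258), .ofNat (nat_lit 657090)⟩, ⟨.negSucc (nat_lit 45522), .ofNat (nat_lit 254209), .negSucc (nat_lit 2832), .ofNat (nat_lit 296923), .negSucc (nat_lit 28572), .ofNat (nat_lit 257141), .ofNat (nat_lit 0), .ofNat (nat_lit 299999)⟩⟩, [⟨nat_lit 7, nat_lit 92, nat_lit 100, nat_lit 75, nat_lit 12691175⟩]⟩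
noncomputable def p056_l51 : Lf2 := ⟨nat_lit 0, nat_lit 10, [nat_lit 0, nat_lit 5, nat_lit 5, nat_lit 20], false, nat_lit 0, nat_lit 160, nat_lit 0, nat_lit 336, ⟨nat_lit 78, nat_lit 278, nat_lit 644, nat_lit 6, nat_lit 226, nat_lit 922, nat_lit 56, nat_lit 644, nat_lit 26667, nat_lit 255, nat_lit 42926, nat_lit 200, nat_lit 50811114, nat_lit 16188886, nat_lit 0, nat_lit 2764729, false, false⟩,
 nat_lit 0, nat_lit 0, nat_lit 1480, nat_lit 0, nat_lit 3529, nat_lit 783, nat_lit 0, nat_lit 0, nat_lit 0, nat_lit 80, nat_lit 0, nat_lit 0, nat_lit 0, nat_lit 0, nat_lit 42, nat_lit 533200, nat_lit 0, nat_lit 0, [(nat_lit 15, [(nat_lit 1, nat_lit 278), (nat_lit 5, nat_lit 370), (nat_lit 6, nat_lit 274)])],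
 ⟨p056_k11, nat_lit 0, nat_lit 0, nat_lit 142, nat_lit 0, nat_lit 0, [nat_lit 2076755600, nat_lit 996736134, nat_lit 31147466], [], [nat_lit 17215092794, nat_lit 18428008106, nat_lit 19697828948, nat_lit 20764117920, nat_lit 17010320538, nat_lit 18040694778, nat_lit 19169621840, nat_lit 20067702726], nat_lit 0, nat_lit 0, nat_lit 0, nat_lit 0, nat_lit 0, nat_lit 0, [], [nat_lit 18, nat_lit 40, nat_lit 40, nat_lit 80, nat_lit 2, nat_lit 317, nat_lit 100, nat_lit 10]⟩, ⟨p056_k22, nat_lit 0, nat_lit 0, nat_lit 1025, nat_lit 0, nat_lit 1610722, [nat_lit 365664000, nat_lit 621504000, nat_lit 926016000], [], [nat_lit 3484495656, nat_lit 2838959508, nat_lit 2766194640, nat_lit 2759160012, nat_lit 3685848000, nat_lit 2971098039, nat_lit 2265590609, nat_lit 2179342406], nat_lit 1271250, nat_lit 1271250, nat_lit 1271250, nat_lit 1271250, nat_lit 0, nat_lit 2373000, [nat_lit 1100000, nat_lit 1785000, nat_lit 1271250], [nat_lit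 21, nat_lit 40, nat_lit 40, nat_lit 80, nat_lit 14, nat_lit 456, nat_lit 225, nat_lit 12]⟩,
 ⟨nat_lit 4472, nat_lit 5000, ⟨.ofNat (nat_lit 471408), .ofNat (nat_lit 614256), .ofNat (nat_lit 514240), .ofNat (nat_lit 657088), .ofNat (nat_lit 475134), .ofNat (nat_lit 611081), .ofNat (nat_lit 518242), .ofNat (nat_lit 654189)⟩, ⟨.negSucc (nat_lit 28572), .ofNat (nat_lit 257141), .ofNat (nat_lit 0), .ofNat (nat_lit 299999), .negSucc (nat_lit 12423), .ofNat (nat_lit 259489), .ofNat (nat_lit 0), .ofNat (nat_lit 302621)⟩⟩, [⟨nat_lit 10, nat_lit 73, nat_lit 100, nat_lit 68, nat_lit 8634867⟩]⟩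
noncomputable def p056_l52 : Lf2 := ⟨nat_lit 0, nat_lit 10, [nat_lit 0, nat_lit 5, nat_lit 5, nat_lit 20], true, nat_lit 160, nat_lit 240, nat_lit 0, nat_lit 336, ⟨nat_lit 0, nat_lit 0, nat_lit 1000, nat_lit 6, nat_lit 124, nat_lit 1000, nat_lit 140, nat_lit 1000, nat_lit 183750, nat_lit 320, nat_lit 144150, nat_lit 308, nat_lit 52998034, nat_lit 0, nat_lit 0, nat_lit 3502739, false, false⟩,
 nat_lit 0, nat_lit 0, nat_lit 0, nat_lit 2145, nat_lit 4661, nat_lit 0, nat_lit 0, nat_lit 0, nat_lit 0, nat_lit 0, nat_lit 0, nat_lit 0, nat_lit 0, nat_lit 0, nat_lit 0, nat_lit 250000, nat_lit 0, nat_lit 0, [(nat_lit 12, [(nat_lit 0, nat_lit 1000)]), (nat_lit 15, [(nat_lit 0, nat_lit 1000)])],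
 ⟨p056_k18, nat_lit 0, nat_lit 0, nat_lit 49, nat_lit 0, nat_lit 0, [nat_lit 2378800001, nat_lit 3513428572], [], [nat_lit 12520221640, nat_lit 16765155940, nat_lit 11763036877, nat_lit 15591706584, nat_lit 16624286391, nat_lit 20204893875, nat_lit 15546063557, nat_lit 18998924564], nat_lit 0, nat_lit 0, nat_lit 0, nat_lit 0, nat_lit 0, nat_lit 0, [], [nat_lit 82, nat_lit 40, nat_lit 40, nat_lit 80, nat_lit 63, nat_lit 317, nat_lit 100, nat_lit 9]⟩, C1.Rw.none,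
 ⟨nat_lit 4472, nat_lit 5478, ⟨.ofNat (nat_lit 235487), .ofNat (nat_lit 317898), .ofNat (nat_lit 278138), .ofNat (nat_lit 360546), .ofNat (nat_lit 264421), .ofNat (nat_lit 339182), .ofNat (nat_lit 307491), .ofNat (nat_lit 382248)⟩, ⟨.ofNat (nat_lit 254209), .ofNat (nat_lit 404075), .ofNat (nat_lit 296923), .ofNat (nat_lit 446789), .ofNat (nat_lit 259489), .ofNat (nat_lit 395445), .ofNat (nat_lit 302621), .ofNat (nat_lit 438578)⟩⟩, [⟨nat_lit 0, nat_lit 100, nat_lit 91, nat_lit 77, nat_lit 257681210⟩]⟩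
noncomputable def p056_l53 : Lf2 := ⟨nat_lit 0, nat_lit 10, [nat_lit 0, nat_lit 5, nat_lit 5, nat_lit 20], true, nat_lit 240, nat_lit 300, nat_lit 0, nat_lit 288, ⟨nat_lit 0, nat_lit 0, nat_lit 1000, nat_lit 6, nat_lit 107, nat_lit 1000, nat_lit 191, nat_lit 1000, nat_lit 3701, nat_lit 228, nat_lit 106667, nat_lit 295, nat_lit 49666395, nat_lit 0, nat_lit 0, nat_lit 3868690, false, false⟩,
 nat_lit 0, nat_lit 0, nat_lit 0, nat_lit 4516, nat_lit 3514, nat_lit 0, nat_lit 0, nat_lit 0, nat_lit 0, nat_lit 0, nat_lit 0, nat_lit 0, nat_lit 0, nat_lit 0, nat_lit 109, nat_lit 473800, nat_lit 0, nat_lit 0, [(nat_lit 12, [(nat_lit 5, nat_lit 877), (nat_lit 6, nat_lit 123)])],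
 ⟨p056_k18, nat_lit 0, nat_lit 0, nat_lit 143, nat_lit 0, nat_lit 0, [nat_lit 2804732400, nat_lit 233019600], [], [nat_lit 17522274781, nat_lit 18465556086, nat_lit 17417844192, nat_lit 18359316916, nat_lit 20044922620, nat_lit 21362435840, nat_lit 19872495432, nat_lit 21186366904], nat_lit 0, nat_lit 0, nat_lit 0, nat_lit 0, nat_lit 0, nat_lit 0, [], [nat_lit 82, nat_lit 40, nat_lit 40, nat_lit 80, nat_lit 63, nat_lit 317, nat_lit 100, nat_lit 9]⟩, C1.Rw.none,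
 ⟨nat_lit 5000, nat_lit 5478, ⟨.ofNat (nat_lit 235487), .ofNat (nat_lit 242980), .ofNat (nat_lit 278201), .ofNat (nat_lit 285695), .ofNat (nat_lit 249999), .ofNat (nat_lit 257141), .ofNat (nat_lit 292856), .ofNat (nat_lit 299999)⟩, ⟨.ofNat (nat_lit 404075), .ofNat (nat_lit 516475), .ofNat (nat_lit 446789), .ofNat (nat_lit 559189), .ofNat (nat_lit 399998), .ofNat (nat_lit 507141), .ofNat (nat_lit 442856), .ofNat (nat_lit 549998)⟩⟩, [⟨nat_lit 0, nat_lit 100, nat_lit 94, nat_lit 59, nat_lit 796622859⟩, ⟨nat_lit 16, nat_lit 100, nat_lit 95, nat_lit 87, nat_lit 238845506⟩]⟩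
noncomputable def p056_l54 : Lf2 := ⟨nat_lit 0, nat_lit 10, [nat_lit 0, nat_lit 5, nat_lit 5, nat_lit 20], true, nat_lit 240, nat_lit 300, nat_lit 0, nat_lit 300, ⟨nat_lit 0, nat_lit 1000, nat_lit 0, nat_lit 6, nat_lit 112, nat_lit 1000, nat_lit 191, nat_lit 0, nat_lit 0, nat_lit 0, nat_lit 0, nat_lit 0, nat_lit 49379886, nat_lit 5313465, nat_lit 12306649, nat_lit 3926004, false, false⟩,
 nat_lit 0, nat_lit 0, nat_lit 0, nat_lit 2873, nat_lit 4086, nat_lit 0, nat_lit 0, nat_lit 0, nat_lit 0, nat_lit 0, nat_lit 0, nat_lit 0, nat_lit 0, nat_lit 0, nat_lit 0, nat_lit 250000, nat_lit 0, nat_lit 0, [(nat_lit 12, [(nat_lit 0, nat_lit 1000)])],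
 ⟨p056_k18, nat_lit 0, nat_lit 0, nat_lit 58, nat_lit 0, nat_lit 0, [nat_lit 2378800001, nat_lit 3513428572], [], [nat_lit 16474626369, nat_lit 17978148497, nat_lit 16396761267, nat_lit 17889301430, nat_lit 20392042696, nat_lit 21805205696, nat_lit 20239264216, nat_lit 21643140380], nat_lit 0, nat_lit 0, nat_lit 0, nat_lit 0, nat_lit 0, nat_lit 0, [], [nat_lit 82, nat_lit 40, nat_lit 40, nat_lit 80, nat_lit 63, nat_lit 317, nat_lit 100, nat_lit 9]⟩, C1.Rw.none,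
 ⟨nat_lit 5000, nat_lit 5478, ⟨.ofNat (nat_lit 242980), .ofNat (nat_lit 257967), .ofNat (nat_lit 285695), .ofNat (nat_lit 300681), .ofNat (nat_lit 257141), .ofNat (nat_lit 271427), .ofNat (nat_lit 299999), .ofNat (nat_lit 314284)⟩, ⟨.ofNat (nat_lit 404075), .ofNat (nat_lit 516475), .ofNat (nat_lit 446789), .ofNat (nat_lit 559189), .ofNat (nat_lit 399998), .ofNat (nat_lit 507141), .ofNat (nat_lit 442856), .ofNat (nat_lit 549998)⟩⟩, [⟨nat_lit 0, nat_lit 100, nat_lit 94, nat_lit 73, nat_lit 558705156⟩, ⟨nat_lit 16, nat_lit 100, nat_lit 95, nat_lit 87, nat_lit 312219552⟩]⟩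
noncomputable def p056_l55 : Lf2 := ⟨nat_lit 0, nat_lit 10, [nat_lit 0, nat_lit 5, nat_lit 5, nat_lit 20], true, nat_lit 240, nat_lit 280, nat_lit 0, nat_lit 312, ⟨nat_lit 0, nat_lit 1000, nat_lit 0, nat_lit 6, nat_lit 119, nat_lit 1000, nat_lit 184, nat_lit 0, nat_lit 0, nat_lit 0, nat_lit 0, nat_lit 0, nat_lit 49554529, nat_lit 5864241, nat_lit 11581230, nat_lit 3946415, false, false⟩,
 nat_lit 0, nat_lit 0, nat_lit 0, nat_lit 2661, nat_lit 4273, nat_lit 0, nat_lit 0, nat_lit 0, nat_lit 0, nat_lit 0, nat_lit 0, nat_lit 0, nat_lit 0, nat_lit 0, nat_lit 0, nat_lit 250000, nat_lit 0, nat_lit 0, [(nat_lit 12, [(nat_lit 0, nat_lit 1000)])],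
 ⟨p056_k18, nat_lit 0, nat_lit 0, nat_lit 47, nat_lit 0, nat_lit 0, [nat_lit 2378800001, nat_lit 3513428572], [], [nat_lit 16264430642, nat_lit 17792166300, nat_lit 16131493467, nat_lit 17642240955, nat_lit 18958118476, nat_lit 20479498606, nat_lit 18721027792, nat_lit 20227581039], nat_lit 0, nat_lit 0, nat_lit 0, nat_lit 0, nat_lit 0, nat_lit 0, [], [nat_lit 82, nat_lit 40, nat_lit 40, nat_lit 80, nat_lit 63, nat_lit 317, nat_lit 100, nat_lit 9]⟩, C1.Rw.none,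
 ⟨nat_lit 5000, nat_lit 5478, ⟨.ofNat (nat_lit 257967), .ofNat (nat_lit 280447), .ofNat (nat_lit 300681), .ofNat (nat_lit 323161), .ofNat (nat_lit 271427), .ofNat (nat_lit 292856), .ofNat (nat_lit 314284), .ofNat (nat_lit 335713)⟩, ⟨.ofNat (nat_lit 404075), .ofNat (nat_lit 479008), .ofNat (nat_lit 446789), .ofNat (nat_lit 521722), .ofNat (nat_lit 399998), .ofNat (nat_lit 471427), .ofNat (nat_lit 442856), .ofNat (nat_lit 514284)⟩⟩, [⟨nat_lit 0, nat_lit 100, nat_lit 94, nat_lit 73, nat_lit 538145120⟩, ⟨nat_lit 4, nat_lit 100, nat_lit 94, nat_lit 75, nat_lit 38228394⟩]⟩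
noncomputable def p056_l56 : Lf2 := ⟨nat_lit 0, nat_lit 5, [nat_lit 4, nat_lit 5, nat_lit 5, nat_lit 20], true, nat_lit 280, nat_lit 300, nat_lit 0, nat_lit 276, ⟨nat_lit 0, nat_lit 1000, nat_lit 0, nat_lit 6, nat_lit 115, nat_lit 1000, nat_lit 206, nat_lit 0, nat_lit 0, nat_lit 0, nat_lit 0, nat_lit 0, nat_lit 47837787, nat_lit 5476653, nat_lit 13685560, nat_lit 4100886, false, false⟩,
 nat_lit 0, nat_lit 0, nat_lit 0, nat_lit 2283, nat_lit 4073, nat_lit 0, nat_lit 0, nat_lit 0, nat_lit 0, nat_lit 0, nat_lit 0, nat_lit 0, nat_lit 0, nat_lit 0, nat_lit 0, nat_lit 250000, nat_lit 0, nat_lit 0, [(nat_lit 12, [(nat_lit 0, nat_lit 1000)])],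
 ⟨p056_k23, nat_lit 0, nat_lit 0, nat_lit 54, nat_lit 0, nat_lit 0, [nat_lit 2364000000, nat_lit 3224400000], [], [nat_lit 18948997282, nat_lit 20308401166, nat_lit 18806914391, nat_lit 20140725362, nat_lit 20227915562, nat_lit 21630047856, nat_lit 20072629054, nat_lit 21388407872], nat_lit 0, nat_lit 0, nat_lit 0, nat_lit 0, nat_lit 0, nat_lit 0, [], [nat_lit 74, nat_lit 40, nat_lit 40, nat_lit 80, nat_lit 43, nat_lit 226, nat_lit 20, nat_lit 6]⟩, C1.Rw.none,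
 ⟨nat_lit 5000, nat_lit 5478, ⟨.ofNat (nat_lit 257967), .ofNat (nat_lit 280447), .ofNat (nat_lit 279324), .ofNat (nat_lit 301804), .ofNat (nat_lit 271427), .ofNat (nat_lit 292856), .ofNat (nat_lit 292856), .ofNat (nat_lit 314284)⟩, ⟨.ofNat (nat_lit 479008), .ofNat (nat_lit 516475), .ofNat (nat_lit 521722), .ofNat (nat_lit 559189), .ofNat (nat_lit 471427), .ofNat (nat_lit 507141), .ofNat (nat_lit 514284), .ofNat (nat_lit 549998)⟩⟩, [⟨nat_lit 0, nat_lit 100, nat_lit 92, nat_lit 68, nat_lit 179316918⟩, ⟨nat_lit 16, nat_lit 100, nat_lit 95, nat_lit 87, nat_lit 307860312⟩]⟩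
noncomputable def p056_l57 : Lf2 := ⟨nat_lit 0, nat_lit 5, [nat_lit 4, nat_lit 5, nat_lit 5, nat_lit 20], true, nat_lit 280, nat_lit 300, nat_lit 0, nat_lit 276, ⟨nat_lit 0, nat_lit 1000, nat_lit 0, nat_lit 6, nat_lit 121, nat_lit 1000, nat_lit 206, nat_lit 0, nat_lit 0, nat_lit 0, nat_lit 0, nat_lit 0, nat_lit 47428060, nat_lit 5934731, nat_lit 13637209, nat_lit 4179703, false, false⟩,
 nat_lit 0, nat_lit 0, nat_lit 0, nat_lit 2277, nat_lit 4073, nat_lit 0, nat_lit 0, nat_lit 0, nat_lit 0, nat_lit 0, nat_lit 0, nat_lit 0, nat_lit 0, nat_lit 0, nat_lit 0, nat_lit 250000, nat_lit 0, nat_lit 0, [(nat_lit 12, [(nat_lit 0, nat_lit 1000)])],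
 ⟨p056_k23, nat_lit 0, nat_lit 0, nat_lit 54, nat_lit 0, nat_lit 0, [nat_lit 2364000000, nat_lit 3224400000], [], [nat_lit 18948997282, nat_lit 20308401166, nat_lit 18806914391, nat_lit 20140725362, nat_lit 20227915562, nat_lit 21630047856, nat_lit 20072629054, nat_lit 21388407872], nat_lit 0, nat_lit 0, nat_lit 0, nat_lit 0, nat_lit 0, nat_lit 0, [], [nat_lit 74, nat_lit 40, nat_lit 40, nat_lit 80, nat_lit 43, nat_lit 226, nat_lit 20, nat_lit 6]⟩, C1.Rw.none,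
 ⟨nat_lit 5000, nat_lit 5478, ⟨.ofNat (nat_lit 279324), .ofNat (nat_lit 301804), .ofNat (nat_lit 290003), .ofNat (nat_lit 312483), .ofNat (nat_lit 292856), .ofNat (nat_lit 314284), .ofNat (nat_lit 303570), .ofNat (nat_lit 324999)⟩, ⟨.ofNat (nat_lit 479008), .ofNat (nat_lit 516475), .ofNat (nat_lit 521722), .ofNat (nat_lit 559189), .ofNat (nat_lit 471427), .ofNat (nat_lit 507141), .ofNat (nat_lit 514284), .ofNat (nat_lit 549998)⟩⟩, [⟨nat_lit 0, nat_lit 100, nat_lit 94, nat_lit 76, nat_lit 182903097⟩, ⟨nat_lit 16, nat_lit 100, nat_lit 95, nat_lit 87, nat_lit 308435585⟩]⟩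
noncomputable def p056_l58 : Lf2 := ⟨nat_lit 0, nat_lit 5, [nat_lit 4, nat_lit 5, nat_lit 5, nat_lit 20], false, nat_lit 280, nat_lit 300, nat_lit 0, nat_lit 276, ⟨nat_lit 59, nat_lit 941, nat_lit 0, nat_lit 6, nat_lit 128, nat_lit 941, nat_lit 206, nat_lit 0, nat_lit 0, nat_lit 0, nat_lit 0, nat_lit 0, nat_lit 46960140, nat_lit 6460908, nat_lit 13578952, nat_lit 4265553, false, false⟩,
 nat_lit 0, nat_lit 0, nat_lit 1578, nat_lit 0, nat_lit 4190, nat_lit 961, nat_lit 0, nat_lit 0, nat_lit 0, nat_lit 0, nat_lit 0, nat_lit 0, nat_lit 0, nat_lit 0, nat_lit 0, nat_lit 235250, nat_lit 0, nat_lit 0, [(nat_lit 12, [(nat_lit 0, nat_lit 941)])],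
 ⟨p056_k23, nat_lit 0, nat_lit 0, nat_lit 51, nat_lit 0, nat_lit 0, [nat_lit 2418162001, nat_lit 3504272400], [], [nat_lit 18853067434, nat_lit 20246653836, nat_lit 18802174731, nat_lit 20165734170, nat_lit 20165042976, nat_lit 21578039296, nat_lit 20084885106, nat_lit 21493118660], nat_lit 0, nat_lit 0, nat_lit 0, nat_lit 0, nat_lit 0, nat_lit 0, [], [nat_lit 74, nat_lit 40, nat_lit 40, nat_lit 80, nat_lit 43, nat_lit 226, nat_lit 20, nat_lit 6]⟩, ⟨p056_k24, nat_lit 0, nat_lit 0, nat_lit 404, nat_lit 0, nat_lit 526514, [nat_lit 276592000, nat_lit 470112000], [], [nat_lit 1609515494, nat_lit 1765239532, nat_lit 1569288999, nat_lit 1724673238, nat_lit 1613294584, nat_lit 1493998269, nat_lit 1631317181, nat_lit 1463956530], nat_lit 1271250, nat_lit 1271250, nat_lit 330400, nat_lit 356250, nat_lit 0, nat_lit 1949250, [nat_lit 1100000, nat_lit 1785000], [nat_lit 39, nat_lit 40, nat_lit 40, nat_lit 80, nat_lit 7, nat_lit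 317, nat_lit 100, nat_lit 11]⟩,
 ⟨nat_lit 5000, nat_lit 5478, ⟨.ofNat (nat_lit 304989), .ofNat (nat_lit 312483), .ofNat (nat_lit 315668), .ofNat (nat_lit 323161), .ofNat (nat_lit 317856), .ofNat (nat_lit 324999), .ofNat (nat_lit 328570), .ofNat (nat_lit 335713)⟩, ⟨.ofNat (nat_lit 479008), .ofNat (nat_lit 516475), .ofNat (nat_lit 521722), .ofNat (nat_lit 559189), .ofNat (nat_lit 471427), .ofNat (nat_lit 507141), .ofNat (nat_lit 514284), .ofNat (nat_lit 549998)⟩⟩, [⟨nat_lit 0, nat_lit 100, nat_lit 98, nat_lit 74, nat_lit 292411048⟩, ⟨nat_lit 16, nat_lit 100, nat_lit 95, nat_lit 87, nat_lit 327286670⟩, ⟨nat_lit 23, nat_lit 94, nat_lit 100, nat_lit 74, nat_lit 8112945⟩]⟩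
noncomputable def p056_l59 : Lf2 := ⟨nat_lit 0, nat_lit 10, [nat_lit 0, nat_lit 5, nat_lit 5, nat_lit 20], true, nat_lit 280, nat_lit 300, nat_lit 0, nat_lit 276, ⟨nat_lit 0, nat_lit 1000, nat_lit 0, nat_lit 6, nat_lit 115, nat_lit 1000, nat_lit 206, nat_lit 0, nat_lit 0, nat_lit 0, nat_lit 0, nat_lit 0, nat_lit 47837787, nat_lit 5476653, nat_lit 13685560, nat_lit 4100886, false, false⟩,
 nat_lit 0, nat_lit 0, nat_lit 0, nat_lit 9275, nat_lit 4193, nat_lit 0, nat_lit 0, nat_lit 0, nat_lit 0, nat_lit 0, nat_lit 0, nat_lit 0, nat_lit 0, nat_lit 0, nat_lit 0, nat_lit 250000, nat_lit 0, nat_lit 0, [(nat_lit 12, [(nat_lit 0, nat_lit 1000)])],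
 ⟨p056_k18, nat_lit 0, nat_lit 0, nat_lit 54, nat_lit 0, nat_lit 0, [nat_lit 2378800001, nat_lit 3513428572], [], [nat_lit 18914252211, nat_lit 20411059630, nat_lit 18761302432, nat_lit 20167969599, nat_lit 20328490168, nat_lit 21750901920, nat_lit 20086763547, nat_lit 21495803552], nat_lit 0, nat_lit 0, nat_lit 0, nat_lit 0, nat_lit 0, nat_lit 0, [], [nat_lit 82, nat_lit 40, nat_lit 40, nat_lit 80, nat_lit 63, nat_lit 226, nat_lit 20, nat_lit 6]⟩, C1.Rw.none,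
 ⟨nat_lit 5000, nat_lit 5478, ⟨.ofNat (nat_lit 257967), .ofNat (nat_lit 280447), .ofNat (nat_lit 279324), .ofNat (nat_lit 301804), .ofNat (nat_lit 271427), .ofNat (nat_lit 292856), .ofNat (nat_lit 292856), .ofNat (nat_lit 314284)⟩, ⟨.ofNat (nat_lit 479008), .ofNat (nat_lit 516475), .ofNat (nat_lit 521722), .ofNat (nat_lit 559189), .ofNat (nat_lit 471427), .ofNat (nat_lit 507141), .ofNat (nat_lit 514284), .ofNat (nat_lit 549998)⟩⟩, [⟨nat_lit 0, nat_lit 100, nat_lit 92, nat_lit 68, nat_lit 178281001⟩, ⟨nat_lit 16, nat_lit 100, nat_lit 95, nat_lit 87, nat_lit 350758111⟩]⟩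
noncomputable def p056_l60 : Lf2 := ⟨nat_lit 0, nat_lit 10, [nat_lit 0, nat_lit 5, nat_lit 5, nat_lit 20], true, nat_lit 280, nat_lit 300, nat_lit 0, nat_lit 276, ⟨nat_lit 0, nat_lit 1000, nat_lit 0, nat_lit 6, nat_lit 123, nat_lit 1000, nat_lit 206, nat_lit 0, nat_lit 0, nat_lit 0, nat_lit 0, nat_lit 0, nat_lit 47289983, nat_lit 6089667, nat_lit 13620350, nat_lit 4205486, false, false⟩,
 nat_lit 0, nat_lit 0, nat_lit 0, nat_lit 8202, nat_lit 4154, nat_lit 0, nat_lit 0, nat_lit 0, nat_lit 0, nat_lit 0, nat_lit 0, nat_lit 0, nat_lit 0, nat_lit 0, nat_lit 0, nat_lit 250000, nat_lit 0, nat_lit 0, [(nat_lit 12, [(nat_lit 0, nat_lit 1000)])],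
 ⟨p056_k18, nat_lit 0, nat_lit 0, nat_lit 54, nat_lit 0, nat_lit 0, [nat_lit 2378800001, nat_lit 3513428572], [], [nat_lit 18930354359, nat_lit 20377695629, nat_lit 18780936319, nat_lit 20138909022, nat_lit 20295778793, nat_lit 21711624349, nat_lit 20058417244, nat_lit 21460899956], nat_lit 0, nat_lit 0, nat_lit 0, nat_lit 0, nat_lit 0, nat_lit 0, [], [nat_lit 82, nat_lit 40, nat_lit 40, nat_lit 80, nat_lit 63, nat_lit 226, nat_lit 20, nat_lit 6]⟩, C1.Rw.none,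
 ⟨nat_lit 5000, nat_lit 5478, ⟨.ofNat (nat_lit 279324), .ofNat (nat_lit 301804), .ofNat (nat_lit 300681), .ofNat (nat_lit 323161), .ofNat (nat_lit 292856), .ofNat (nat_lit 314284), .ofNat (nat_lit 314284), .ofNat (nat_lit 335713)⟩, ⟨.ofNat (nat_lit 479008), .ofNat (nat_lit 516475), .ofNat (nat_lit 521722), .ofNat (nat_lit 559189), .ofNat (nat_lit 471427), .ofNat (nat_lit 507141), .ofNat (nat_lit 514284), .ofNat (nat_lit 549998)⟩⟩, [⟨nat_lit 0, nat_lit 100, nat_lit 95, nat_lit 78, nat_lit 806326815⟩, ⟨nat_lit 16, nat_lit 100, nat_lit 95, nat_lit 87, nat_lit 312017189⟩]⟩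
noncomputable def p056_l61 : Lf2 := ⟨nat_lit 0, nat_lit 10, [nat_lit 0, nat_lit 5, nat_lit 5, nat_lit 20], true, nat_lit 240, nat_lit 280, nat_lit 0, nat_lit 312, ⟨nat_lit 0, nat_lit 1000, nat_lit 0, nat_lit 6, nat_lit 124, nat_lit 1000, nat_lit 182, nat_lit 0, nat_lit 0, nat_lit 0, nat_lit 0, nat_lit 0, nat_lit 49407607, nat_lit 6257573, nat_lit 11334820, nat_lit 3987608, false, false⟩,
 nat_lit 0, nat_lit 0, nat_lit 0, nat_lit 2784, nat_lit 4088, nat_lit 0, nat_lit 0, nat_lit 0, nat_lit 0, nat_lit 0, nat_lit 0, nat_lit 0, nat_lit 0, nat_lit 0, nat_lit 0, nat_lit 250000, nat_lit 0, nat_lit 0, [(nat_lit 15, [(nat_lit 0, nat_lit 1000)])],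
 ⟨p056_k2, nat_lit 0, nat_lit 0, nat_lit 56, nat_lit 0, nat_lit 0, [nat_lit 2318400000, nat_lit 3071600000], [], [nat_lit 17827862551, nat_lit 19326086157, nat_lit 17694413824, nat_lit 19170851952, nat_lit 20321233474, nat_lit 21808620817, nat_lit 20089965744, nat_lit 21562739688], nat_lit 0, nat_lit 0, nat_lit 0, nat_lit 0, nat_lit 0, nat_lit 0, [], [nat_lit 74, nat_lit 40, nat_lit 40, nat_lit 80, nat_lit 43, nat_lit 226, nat_lit 20, nat_lit 7]⟩, C1.Rw.none,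
 ⟨nat_lit 4472, nat_lit 5000, ⟨.ofNat (nat_lit 271418), .ofNat (nat_lit 292846), .ofNat (nat_lit 314253), .ofNat (nat_lit 335680), .ofNat (nat_lit 284805), .ofNat (nat_lit 305198), .ofNat (nat_lit 327916), .ofNat (nat_lit 348308)⟩, ⟨.ofNat (nat_lit 399998), .ofNat (nat_lit 471427), .ofNat (nat_lit 442856), .ofNat (nat_lit 514284), .ofNat (nat_lit 395445), .ofNat (nat_lit 463423), .ofNat (nat_lit 438578), .ofNat (nat_lit 506556)⟩⟩, [⟨nat_lit 0, nat_lit 100, nat_lit 88, nat_lit 68, nat_lit 595569369⟩, ⟨nat_lit 16, nat_lit 94, nat_lit 100, nat_lit 87, nat_lit 326554181⟩]⟩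
noncomputable def p056_l62 : Lf2 := ⟨nat_lit 0, nat_lit 10, [nat_lit 0, nat_lit 5, nat_lit 5, nat_lit 20], true, nat_lit 240, nat_lit 280, nat_lit 0, nat_lit 336, ⟨nat_lit 0, nat_lit 1000, nat_lit 0, nat_lit 6, nat_lit 133, nat_lit 1000, nat_lit 183, nat_lit 0, nat_lit 0, nat_lit 0, nat_lit 0, nat_lit 0, nat_lit 48683973, nat_lit 6923700, nat_lit 11392327, nat_lit 4107313, false, false⟩,
 nat_lit 0, nat_lit 0, nat_lit 0, nat_lit 2661, nat_lit 4273, nat_lit 0, nat_lit 0, nat_lit 0, nat_lit 0, nat_lit 0, nat_lit 0, nat_lit 0, nat_lit 0, nat_lit 0, nat_lit 0, nat_lit 250000, nat_lit 0, nat_lit 0, [(nat_lit 12, [(nat_lit 0, nat_lit 1000)]), (nat_lit 15, [(nat_lit 0, nat_lit 1000)])],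
 ⟨p056_k18, nat_lit 0, nat_lit 0, nat_lit 51, nat_lit 0, nat_lit 0, [nat_lit 2378800001, nat_lit 3513428572], [], [nat_lit 16131493467, nat_lit 19222981790, nat_lit 15909931509, nat_lit 18874799253, nat_lit 18721027792, nat_lit 21734156248, nat_lit 18454037175, nat_lit 21289618768], nat_lit 0, nat_lit 0, nat_lit 0, nat_lit 0, nat_lit 0, nat_lit 0, [], [nat_lit 82, nat_lit 40, nat_lit 40, nat_lit 80, nat_lit 63, nat_lit 317, nat_lit 100, nat_lit 8]⟩, C1.Rw.none,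
 ⟨nat_lit 4472, nat_lit 5478, ⟨.ofNat (nat_lit 280440), .ofNat (nat_lit 317898), .ofNat (nat_lit 323087), .ofNat (nat_lit 360546), .ofNat (nat_lit 305201), .ofNat (nat_lit 339182), .ofNat (nat_lit 348267), .ofNat (nat_lit 382248)⟩, ⟨.ofNat (nat_lit 404075), .ofNat (nat_lit 479008), .ofNat (nat_lit 446789), .ofNat (nat_lit 521722), .ofNat (nat_lit 395445), .ofNat (nat_lit 463423), .ofNat (nat_lit 438578), .ofNat (nat_lit 506556)⟩⟩, [⟨nat_lit 0, nat_lit 100, nat_lit 91, nat_lit 77, nat_lit 192825005⟩, ⟨nat_lit 4, nat_lit 100, nat_lit 90, nat_lit 74, nat_lit 38358119⟩]⟩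
noncomputable def p056_l63 : Lf2 := ⟨nat_lit 0, nat_lit 10, [nat_lit 0, nat_lit 5, nat_lit 5, nat_lit 20], false, nat_lit 280, nat_lit 300, nat_lit 0, nat_lit 80, ⟨nat_lit 202, nat_lit 798, nat_lit 0, nat_lit 6, nat_lit 133, nat_lit 798, nat_lit 209, nat_lit 0, nat_lit 0, nat_lit 0, nat_lit 0, nat_lit 0, nat_lit 46428586, nat_lit 6793778, nat_lit 13777636, nat_lit 4340702, false, false⟩,
 nat_lit 0, nat_lit 0, nat_lit 5239, nat_lit 0, nat_lit 4093, nat_lit 2773, nat_lit 0, nat_lit 0, nat_lit 0, nat_lit 454, nat_lit 0, nat_lit 0, nat_lit 0, nat_lit 0, nat_lit 0, nat_lit 319200, nat_lit 0, nat_lit 0, [(nat_lit 12, [(nat_lit 1, nat_lit 798)]), (nat_lit 15, [(nat_lit 1, nat_lit 798)])],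
 ⟨p056_k0, nat_lit 0, nat_lit 0, nat_lit 84, nat_lit 0, nat_lit 0, [nat_lit 2313547200, nat_lit 3434017600, nat_lit 4091931200], [], [nat_lit 18746392931, nat_lit 21567372568, nat_lit 18506569534, nat_lit 21156631888, nat_lit 20015012844, nat_lit 22798718657, nat_lit 19753112587, nat_lit 22370307166], nat_lit 0, nat_lit 0, nat_lit 0, nat_lit 0, nat_lit 0, nat_lit 0, [], [nat_lit 8, nat_lit 40, nat_lit 40, nat_lit 80, nat_lit 1, nat_lit 226, nat_lit 20, nat_lit 6]⟩, ⟨p056_k22, nat_lit 0, nat_lit 0, nat_lit 652, nat_lit 0, nat_lit 653726, [nat_lit 946976000, nat_lit 1609536000, nat_lit 2398144000], [], [nat_lit 7108184402, nat_lit 5442685074, nat_lit 6793829028, nat_lit 5141461836, nat_lit 7022325736, nat_lit 4391042674, nat_lit 7289321912, nat_lit 4676013436], nat_lit 1271250, nat_lit 1271250, nat_lit 356250, nat_lit 490000, nat_lit 0, nat_lit 490000, [nat_lit 1100000, nat_lit 1785000, nat_lit 1271250], [nat_lit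 21, nat_lit 40, nat_lit 40, nat_lit 80, nat_lit 14, nat_lit 345, nat_lit 125, nat_lit 9]⟩,
 ⟨nat_lit 4472, nat_lit 5478, ⟨.ofNat (nat_lit 280440), .ofNat (nat_lit 317898), .ofNat (nat_lit 323087), .ofNat (nat_lit 360546), .ofNat (nat_lit 305201), .ofNat (nat_lit 339182), .ofNat (nat_lit 348267), .ofNat (nat_lit 382248)⟩, ⟨.ofNat (nat_lit 500365), .ofNat (nat_lit 537832), .ofNat (nat_lit 521722), .ofNat (nat_lit 559189), .ofNat (nat_lit 484989), .ofNat (nat_lit 518979), .ofNat (nat_lit 506556), .ofNat (nat_lit 540545)⟩⟩, [⟨nat_lit 0, nat_lit 100, nat_lit 91, nat_lit 77, nat_lit 68407319⟩, ⟨nat_lit 16, nat_lit 100, nat_lit 95, nat_lit 87, nat_lit 375812099⟩]⟩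
noncomputable def p056_l64 : Lf2 := ⟨nat_lit 0, nat_lit 10, [nat_lit 0, nat_lit 5, nat_lit 5, nat_lit 20], false, nat_lit 280, nat_lit 300, nat_lit 80, nat_lit 160, ⟨nat_lit 198, nat_lit 802, nat_lit 0, nat_lit 6, nat_lit 133, nat_lit 802, nat_lit 209, nat_lit 0, nat_lit 0, nat_lit 0, nat_lit 0, nat_lit 0, nat_lit 46428586, nat_lit 6793778, nat_lit 13777636, nat_lit 4340702, false, false⟩,
 nat_lit 0, nat_lit 0, nat_lit 5488, nat_lit 0, nat_lit 4108, nat_lit 2905, nat_lit 0, nat_lit 0, nat_lit 0, nat_lit 388, nat_lit 0, nat_lit 0, nat_lit 0, nat_lit 0, nat_lit 0, nat_lit 310600, nat_lit 0, nat_lit 0, [(nat_lit 12, [(nat_lit 0, nat_lit 68), (nat_lit 1, nat_lit 734)]), (nat_lit 15, [(nat_lit 0, nat_lit 68), (nat_lit 1, nat_lit 734)])],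
 ⟨p056_k0, nat_lit 0, nat_lit 0, nat_lit 84, nat_lit 0, nat_lit 0, [nat_lit 2328793600, nat_lit 3435732800, nat_lit 4113102400], [], [nat_lit 18754087836, nat_lit 21581271208, nat_lit 18512000504, nat_lit 21167714128, nat_lit 20024886686, nat_lit 22814637392, nat_lit 19760669372, nat_lit 22383370096], nat_lit 0, nat_lit 0, nat_lit 0, nat_lit 0, nat_lit 0, nat_lit 0, [], [nat_lit 8, nat_lit 40, nat_lit 40, nat_lit 80, nat_lit 1, nat_lit 226, nat_lit 20, nat_lit 6]⟩, ⟨p056_k22, nat_lit 0, nat_lit 0, nat_lit 553, nat_lit 0, nat_lit 653726, [nat_lit 928224000, nat_lit 1577664000, nat_lit 2350656000], [], [nat_lit 6307817706, nat_lit 3496611074, nat_lit 4794957616, nat_lit 3094053788, nat_lit 5151945108, nat_lit 2969383632, nat_lit 5424366468, nat_lit 2686659608], nat_lit 1271250, nat_lit 1271250, nat_lit 356250, nat_lit 490000, nat_lit 490000, nat_lit 1100001, [nat_lit 1100000, nat_lit 1785000, nat_lit 1271250], [nat_lit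 21, nat_lit 40, nat_lit 40, nat_lit 80, nat_lit 14, nat_lit 373, nat_lit 150, nat_lit 10]⟩,
 ⟨nat_lit 4472, nat_lit 5478, ⟨.ofNat (nat_lit 280440), .ofNat (nat_lit 317898), .ofNat (nat_lit 323087), .ofNat (nat_lit 360546), .ofNat (nat_lit 305201), .ofNat (nat_lit 339182), .ofNat (nat_lit 348267), .ofNat (nat_lit 382248)⟩, ⟨.ofNat (nat_lit 500365), .ofNat (nat_lit 537832), .ofNat (nat_lit 521722), .ofNat (nat_lit 559189), .ofNat (nat_lit 484989), .ofNat (nat_lit 518979), .ofNat (nat_lit 506556), .ofNat (nat_lit 540545)⟩⟩, [⟨nat_lit 0, nat_lit 100, nat_lit 91, nat_lit 77, nat_lit 24549671⟩, ⟨nat_lit 16, nat_lit 100, nat_lit 95, nat_lit 87, nat_lit 375259378⟩]⟩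
noncomputable def p056_l65 : Lf2 := ⟨nat_lit 0, nat_lit 10, [nat_lit 0, nat_lit 5, nat_lit 5, nat_lit 20], true, nat_lit 280, nat_lit 300, nat_lit 160, nat_lit 300, ⟨nat_lit 0, nat_lit 1000, nat_lit 0, nat_lit 6, nat_lit 129, nat_lit 1000, nat_lit 209, nat_lit 0, nat_lit 0, nat_lit 0, nat_lit 0, nat_lit 0, nat_lit 46708348, nat_lit 6475889, nat_lit 13815763, nat_lit 4291337, false, false⟩,
 nat_lit 0, nat_lit 0, nat_lit 0, nat_lit 2849, nat_lit 4154, nat_lit 0, nat_lit 0, nat_lit 0, nat_lit 0, nat_lit 0, nat_lit 0, nat_lit 0, nat_lit 0, nat_lit 0, nat_lit 0, nat_lit 250000, nat_lit 0, nat_lit 0, [(nat_lit 12, [(nat_lit 0, nat_lit 1000)]), (nat_lit 15, [(nat_lit 0, nat_lit 1000)])],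
 ⟨p056_k18, nat_lit 0, nat_lit 0, nat_lit 57, nat_lit 0, nat_lit 0, [nat_lit 2378800001, nat_lit 3513428572], [], [nat_lit 18780936319, nat_lit 21623893704, nat_lit 18531906253, nat_lit 21201699664, nat_lit 20058417244, nat_lit 22863454846, nat_lit 19787094287, nat_lit 22423429748], nat_lit 0, nat_lit 0, nat_lit 0, nat_lit 0, nat_lit 0, nat_lit 0, [], [nat_lit 82, nat_lit 40, nat_lit 40, nat_lit 80, nat_lit 63, nat_lit 226, nat_lit 20, nat_lit 6]⟩, C1.Rw.none,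
 ⟨nat_lit 4472, nat_lit 5478, ⟨.ofNat (nat_lit 280440), .ofNat (nat_lit 317898), .ofNat (nat_lit 301764), .ofNat (nat_lit 339222), .ofNat (nat_lit 305201), .ofNat (nat_lit 339182), .ofNat (nat_lit 326734), .ofNat (nat_lit 360715)⟩, ⟨.ofNat (nat_lit 500365), .ofNat (nat_lit 537832), .ofNat (nat_lit 521722), .ofNat (nat_lit 559189), .ofNat (nat_lit 484989), .ofNat (nat_lit 518979), .ofNat (nat_lit 506556), .ofNat (nat_lit 540545)⟩⟩, [⟨nat_lit 16, nat_lit 100, nat_lit 95, nat_lit 87, nat_lit 308432525⟩]⟩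
noncomputable def p056_l66 : Lf2 := ⟨nat_lit 0, nat_lit 10, [nat_lit 0, nat_lit 5, nat_lit 5, nat_lit 20], false, nat_lit 280, nat_lit 300, nat_lit 160, nat_lit 300, ⟨nat_lit 222, nat_lit 778, nat_lit 0, nat_lit 6, nat_lit 137, nat_lit 778, nat_lit 209, nat_lit 0, nat_lit 0, nat_lit 0, nat_lit 0, nat_lit 0, nat_lit 46146375, nat_lit 7115562, nat_lit 13738063, nat_lit 4389026, false, false⟩,
 nat_lit 0, nat_lit 0, nat_lit 3790, nat_lit 0, nat_lit 4328, nat_lit 2206, nat_lit 0, nat_lit 0, nat_lit 0, nat_lit 290, nat_lit 0, nat_lit 0, nat_lit 0, nat_lit 0, nat_lit 0, nat_lit 194500, nat_lit 0, nat_lit 0, [(nat_lit 12, [(nat_lit 0, nat_lit 778)]), (nat_lit 15, [(nat_lit 0, nat_lit 778)])],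
 ⟨p056_k0, nat_lit 0, nat_lit 0, nat_lit 84, nat_lit 0, nat_lit 0, [nat_lit 2567796000, nat_lit 3685712000, nat_lit 4899010400], [], [nat_lit 18882334976, nat_lit 21785117928, nat_lit 18607043264, nat_lit 21330253648, nat_lit 20185135212, nat_lit 23048112172, nat_lit 19886890752, nat_lit 22574959736], nat_lit 0, nat_lit 0, nat_lit 0, nat_lit 0, nat_lit 0, nat_lit 0, [], [nat_lit 8, nat_lit 40, nat_lit 40, nat_lit 80, nat_lit 1, nat_lit 226, nat_lit 20, nat_lit 6]⟩, ⟨p056_k20, nat_lit 0, nat_lit 0, nat_lit 386, nat_lit 0, nat_lit 580660, [nat_lit 1040736000, nat_lit 1768896000, nat_lit 2184924000], [], [nat_lit 5261116272, nat_lit 4125293856, nat_lit 4120795164, nat_lit 3908167592, nat_lit 6395336321, nat_lit 5388439449, nat_lit 6640327574, nat_lit 5593593810], nat_lit 1271250, nat_lit 1271250, nat_lit 356250, nat_lit 490000, nat_lit 1100001, nat_lit 2298750, [nat_lit 1100000, nat_lit 1785000, nat_lit 1271250],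 [nat_lit 29, nat_lit 40, nat_lit 40, nat_lit 80, nat_lit 17, nat_lit 401, nat_lit 175, nat_lit 11]⟩,
 ⟨nat_lit 4472, nat_lit 5478, ⟨.ofNat (nat_lit 301764), .ofNat (nat_lit 339222), .ofNat (nat_lit 323087), .ofNat (nat_lit 360546), .ofNat (nat_lit 326734), .ofNat (nat_lit 360715), .ofNat (nat_lit 348267), .ofNat (nat_lit 382248)⟩, ⟨.ofNat (nat_lit 500365), .ofNat (nat_lit 537832), .ofNat (nat_lit 521722), .ofNat (nat_lit 559189), .ofNat (nat_lit 484989), .ofNat (nat_lit 518979), .ofNat (nat_lit 506556), .ofNat (nat_lit 540545)⟩⟩, [⟨nat_lit 16, nat_lit 100, nat_lit 95, nat_lit 87, nat_lit 287134022⟩, ⟨nat_lit 23, nat_lit 97, nat_lit 100, nat_lit 82, nat_lit 112338083⟩]⟩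
noncomputable def p056_l67 : Lf2 := ⟨nat_lit 0, nat_lit 10, [nat_lit 0, nat_lit 5, nat_lit 5, nat_lit 20], true, nat_lit 160, nat_lit 240, nat_lit 0, nat_lit 336, ⟨nat_lit 0, nat_lit 0, nat_lit 1000, nat_lit 6, nat_lit 154, nat_lit 1000, nat_lit 140, nat_lit 1000, nat_lit 183750, nat_lit 320, nat_lit 224267, nat_lit 331, nat_lit 50582912, nat_lit 0, nat_lit 0, nat_lit 3883193, false, false⟩,
 nat_lit 0, nat_lit 0, nat_lit 0, nat_lit 1917, nat_lit 4661, nat_lit 0, nat_lit 0, nat_lit 0, nat_lit 0, nat_lit 0, nat_lit 0, nat_lit 0, nat_lit 0, nat_lit 0, nat_lit 0, nat_lit 250000, nat_lit 0, nat_lit 0, [(nat_lit 12, [(nat_lit 0, nat_lit 1000)]), (nat_lit 15, [(nat_lit 0, nat_lit 1000)])],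
 ⟨p056_k18, nat_lit 0, nat_lit 0, nat_lit 28, nat_lit 0, nat_lit 0, [nat_lit 2378800001, nat_lit 3513428572], [], [nat_lit 11763036877, nat_lit 15591706584, nat_lit 12123982113, nat_lit 15614451108, nat_lit 15546063557, nat_lit 18998924564, nat_lit 15737338625, nat_lit 18902913880], nat_lit 0, nat_lit 0, nat_lit 0, nat_lit 0, nat_lit 0, nat_lit 0, [], [nat_lit 82, nat_lit 40, nat_lit 40, nat_lit 80, nat_lit 63, nat_lit 317, nat_lit 100, nat_lit 9]⟩, C1.Rw.none,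
 ⟨nat_lit 4472, nat_lit 5478, ⟨.ofNat (nat_lit 317898), .ofNat (nat_lit 392815), .ofNat (nat_lit 360546), .ofNat (nat_lit 435455), .ofNat (nat_lit 339182), .ofNat (nat_lit 407143), .ofNat (nat_lit 382248), .ofNat (nat_lit 450202)⟩, ⟨.ofNat (nat_lit 254209), .ofNat (nat_lit 404075), .ofNat (nat_lit 296923), .ofNat (nat_lit 446789), .ofNat (nat_lit 259489), .ofNat (nat_lit 395445), .ofNat (nat_lit 302621), .ofNat (nat_lit 438578)⟩⟩, [⟨nat_lit 0, nat_lit 100, nat_lit 91, nat_lit 77, nat_lit 95893976⟩]⟩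
noncomputable def p056_l68 : Lf2 := ⟨nat_lit 0, nat_lit 10, [nat_lit 0, nat_lit 5, nat_lit 5, nat_lit 20], true, nat_lit 240, nat_lit 300, nat_lit 0, nat_lit 336, ⟨nat_lit 0, nat_lit 1000, nat_lit 0, nat_lit 6, nat_lit 154, nat_lit 1000, nat_lit 190, nat_lit 0, nat_lit 0, nat_lit 0, nat_lit 0, nat_lit 0, nat_lit 46539158, nat_lit 8575340, nat_lit 11885502, nat_lit 4416301, false, false⟩,
 nat_lit 0, nat_lit 0, nat_lit 0, nat_lit 2819, nat_lit 4271, nat_lit 0, nat_lit 0, nat_lit 0, nat_lit 0, nat_lit 0, nat_lit 0, nat_lit 0, nat_lit 0, nat_lit 0, nat_lit 0, nat_lit 250000, nat_lit 0, nat_lit 0, [(nat_lit 12, [(nat_lit 0, nat_lit 1000)]), (nat_lit 15, [(nat_lit 0, nat_lit 1000)])],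
 ⟨p056_k18, nat_lit 0, nat_lit 0, nat_lit 48, nat_lit 0, nat_lit 0, [nat_lit 2378800001, nat_lit 3513428572], [], [nat_lit 15911807117, nat_lit 18875951405, nat_lit 16162756865, nat_lit 18983486205, nat_lit 19727115290, nat_lit 22525320602, nat_lit 19799245565, nat_lit 22351948399], nat_lit 0, nat_lit 0, nat_lit 0, nat_lit 0, nat_lit 0, nat_lit 0, [], [nat_lit 82, nat_lit 40, nat_lit 40, nat_lit 80, nat_lit 63, nat_lit 345, nat_lit 125, nat_lit 9]⟩, C1.Rw.none,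
 ⟨nat_lit 4472, nat_lit 5478, ⟨.ofNat (nat_lit 317898), .ofNat (nat_lit 392815), .ofNat (nat_lit 360546), .ofNat (nat_lit 435455), .ofNat (nat_lit 339182), .ofNat (nat_lit 407143), .ofNat (nat_lit 382248), .ofNat (nat_lit 450202)⟩, ⟨.ofNat (nat_lit 404075), .ofNat (nat_lit 516475), .ofNat (nat_lit 446789), .ofNat (nat_lit 559189), .ofNat (nat_lit 395445), .ofNat (nat_lit 497412), .ofNat (nat_lit 438578), .ofNat (nat_lit 540545)⟩⟩, [⟨nat_lit 16, nat_lit 100, nat_lit 95, nat_lit 87, nat_lit 315445983⟩]⟩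
noncomputable def p056_l69 : Lf2 := ⟨nat_lit 0, nat_lit 10, [nat_lit 0, nat_lit 5, nat_lit 5, nat_lit 20], true, nat_lit 160, nat_lit 300, nat_lit 0, nat_lit 336, ⟨nat_lit 0, nat_lit 1000, nat_lit 0, nat_lit 6, nat_lit 211, nat_lit 1000, nat_lit 161, nat_lit 0, nat_lit 0, nat_lit 0, nat_lit 0, nat_lit 0, nat_lit 44276551, nat_lit 13750815, nat_lit 8972634, nat_lit 4663669, false, false⟩,
 nat_lit 0, nat_lit 0, nat_lit 0, nat_lit 2819, nat_lit 4389, nat_lit 0, nat_lit 0, nat_lit 0, nat_lit 0, nat_lit 0, nat_lit 0, nat_lit 0, nat_lit 0, nat_lit 0, nat_lit 0, nat_lit 250000, nat_lit 0, nat_lit 0, [(nat_lit 12, [(nat_lit 0, nat_lit 1000)]), (nat_lit 15, [(nat_lit 0, nat_lit 1000)])],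
 ⟨p056_k18, nat_lit 0, nat_lit 0, nat_lit 36, nat_lit 0, nat_lit 0, [nat_lit 2378800001, nat_lit 3513428572], [], [nat_lit 12491891489, nat_lit 15852557305, nat_lit 16803559857, nat_lit 19495178641, nat_lit 19717221877, nat_lit 22426969141, nat_lit 22653721912, nat_lit 24846811625], nat_lit 0, nat_lit 0, nat_lit 0, nat_lit 0, nat_lit 0, nat_lit 0, [], [nat_lit 82, nat_lit 40, nat_lit 40, nat_lit 80, nat_lit 63, nat_lit 373, nat_lit 150, nat_lit 10]⟩, C1.Rw.none,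
 ⟨nat_lit 4472, nat_lit 5478, ⟨.ofNat (nat_lit 392815), .ofNat (nat_lit 617523), .ofNat (nat_lit 435455), .ofNat (nat_lit 660148), .ofNat (nat_lit 407143), .ofNat (nat_lit 610987), .ofNat (nat_lit 450202), .ofNat (nat_lit 654031)⟩, ⟨.ofNat (nat_lit 254209), .ofNat (nat_lit 516475), .ofNat (nat_lit 296923), .ofNat (nat_lit 559189), .ofNat (nat_lit 259489), .ofNat (nat_lit 497412), .ofNat (nat_lit 302621), .ofNat (nat_lit 540545)⟩⟩, [⟨nat_lit 16, nat_lit 100, nat_lit 95, nat_lit 87, nat_lit 195696011⟩]⟩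
noncomputable def b_V_700_600_10_1 : St := ⟨true, nat_lit 0, nat_lit 1, nat_lit 1, nat_lit 80, nat_lit 280, nat_lit 320, nat_lit 240, nat_lit 280, nat_lit 36, nat_lit 240, nat_lit 40, nat_lit 80, nat_lit 0, nat_lit 300, nat_lit 0, nat_lit 336, nat_lit 0, nat_lit 40, nat_lit 0, nat_lit 0, nat_lit 0, nat_lit 0⟩
theorem d_V_700_600_10_1 (h : EB TB.env) : Dead b_V_700_600_10_1 := chkB_sound0 h (T :=
(.spl (nat_lit 4) (nat_lit 160)
(.spl (nat_lit 2) (nat_lit 160)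
(.spl (nat_lit 0) (nat_lit 300)
(.leaf p056_l48)
(.trZ (nat_lit 0) (nat_lit 100) (nat_lit 88) (nat_lit 68) (nat_lit 48) (.leaf p056_l49)))
(.spl (nat_lit 0) (nat_lit 300)
(.leaf p056_l50)
(.leaf p056_l51)))
(.spl (nat_lit 2) (nat_lit 120)
(.spl (nat_lit 2) (nat_lit 80)
(.spl (nat_lit 4) (nat_lit 240)
(.leaf p056_l52)
(.spl (nat_lit 2) (nat_lit 60)
(.trX (nat_lit 23) (nat_lit 100) (nat_lit 85) (nat_lit 73) (nat_lit 312) (.spl (nat_lit 0) (nat_lit 300)
(.spl (nat_lit 2) (nat_lit 48)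
(.trX (nat_lit 23) (nat_lit 100) (nat_lit 89) (nat_lit 66) (nat_lit 300) (.spl (nat_lit 2) (nat_lit 40)
(.trX (nat_lit 23) (nat_lit 100) (nat_lit 92) (nat_lit 61) (nat_lit 288) (.leaf p056_l53))
(.leaf p056_l54)))
(.spl (nat_lit 4) (nat_lit 280)
(.leaf p056_l55)
(.trX (nat_lit 23) (nat_lit 99) (nat_lit 100) (nat_lit 77) (nat_lit 276) (.spl (nat_lit 6) (nat_lit 20)
(.spl (nat_lit 1) (nat_lit 260)
(.leaf p056_l56)
(.spl (nat_lit 1) (nat_lit 270)
(.leaf p056_l57)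
(.trZ (nat_lit 0) (nat_lit 100) (nat_lit 98) (nat_lit 74) (nat_lit 56) (.leaf p056_l58))))
(.spl (nat_lit 1) (nat_lit 260)
(.leaf p056_l59)
(.leaf p056_l60))))))
(.trZ (nat_lit 0) (nat_lit 100) (nat_lit 88) (nat_lit 68) (nat_lit 48) (.trX (nat_lit 16) (nat_lit 94) (nat_lit 100) (nat_lit 87) (nat_lit 280) (.leaf p056_l61)))))
(.spl (nat_lit 4) (nat_lit 280)
(.leaf p056_l62)
(.trX (nat_lit 23) (nat_lit 100) (nat_lit 95) (nat_lit 87) (nat_lit 300) (.spl (nat_lit 3) (nat_lit 60)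
(.emL (nat_lit 16) (nat_lit 99) (nat_lit 100) (nat_lit 77))
(.spl (nat_lit 5) (nat_lit 160)
(.spl (nat_lit 5) (nat_lit 80)
(.leaf p056_l63)
(.leaf p056_l64))
(.spl (nat_lit 1) (nat_lit 260)
(.leaf p056_l65)
(.leaf p056_l66))))))))
(.spl (nat_lit 4) (nat_lit 240)
(.leaf p056_l67)
(.leaf p056_l68)))
(.leaf p056_l69)))) (by decide +kernel)
noncomputable def p056_l70 : Lf2 := ⟨nat_lit 0, nat_lit 10, [nat_lit 0, nat_lit 5, nat_lit 5, nat_lit 20], false, nat_lit 0, nat_lit 160, nat_lit 0, nat_lit 336, ⟨nat_lit 173, nat_lit 827, nat_lit 0, nat_lit 6, nat_lit 280, nat_lit 827, nat_lit 55, nat_lit 0, nat_lit 0, nat_lit 0, nat_lit 0, nat_lit 0, nat_lit 44975200, nat_lit 22024800, nat_lit 0, nat_lit 3166371, true, true⟩,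
 nat_lit 0, nat_lit 0, nat_lit 3084, nat_lit 0, nat_lit 4763, nat_lit 1632, nat_lit 294, nat_lit 0, nat_lit 0, nat_lit 154, nat_lit 0, nat_lit 0, nat_lit 0, nat_lit 0, nat_lit 0, nat_lit 740000, nat_lit 0, nat_lit 0, [(nat_lit 12, [(nat_lit 1, nat_lit 145), (nat_lit 2, nat_lit 682)])],
 ⟨p056_k0, nat_lit 0, nat_lit 0, nat_lit 187, nat_lit 0, nat_lit 0, [nat_lit 2460310401, nat_lit 2803268800, nat_lit 1884436000], [], [nat_lit 21488705930, nat_lit 22691790972, nat_lit 25559297694, nat_lit 26539058920, nat_lit 19355365183, nat_lit 20279451497, nat_lit 22949481673, nat_lit 23851219073], nat_lit 0, nat_lit 0, nat_lit 0, nat_lit 0, nat_lit 0, nat_lit 0, [], [nat_lit 8, nat_lit 40, nat_lit 40, nat_lit 80, nat_lit 1, nat_lit 345, nat_lit 125, nat_lit 9]⟩, ⟨p056_k22, nat_lit 0, nat_lit 0, nat_lit 739, nat_lit 0, nat_lit 1071484, [nat_lit 811024000, nat_lit 1378464000, nat_lit 2053856000], [], [nat_lit 6296924912, nat_lit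 6339952924, nat_lit 6514561532, nat_lit 6538681394, nat_lit 5346923103, nat_lit 5345721125, nat_lit 5379699232, nat_lit 5386952723], nat_lit 1271250, nat_lit 1271250, nat_lit 1271250, nat_lit 1271250, nat_lit 0, nat_lit 2373000, [nat_lit 1100000, nat_lit 1785000, nat_lit 1271250], [nat_lit 21, nat_lit 40, nat_lit 40, nat_lit 80, nat_lit 14, nat_lit 483, nat_lit 250, nat_lit 12]⟩,
 ⟨nat_lit 5000, nat_lit 5478, ⟨.ofNat (nat_lit 617614), .ofNat (nat_lit 767454), .ofNat (nat_lit 638961), .ofNat (nat_lit 788802), .ofNat (nat_lit 614253), .ofNat (nat_lit 757084), .ofNat (nat_lit 635671), .ofNat (nat_lit 778503)⟩, ⟨.negSucc (nat_lit 45522), .ofNat (nat_lit 254209), .negSucc (nat_lit 2832), .ofNat (nat_lit 296923), .negSucc (nat_lit 28572), .ofNat (nat_lit 257141), .ofNat (nat_lit 0), .ofNat (nat_lit 299999)⟩⟩, [⟨nat_lit 22, nat_lit 100, nat_lit 95, nat_lit 87, nat_lit 17725731⟩]⟩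
noncomputable def p056_l71 : Lf2 := ⟨nat_lit 0, nat_lit 10, [nat_lit 0, nat_lit 5, nat_lit 5, nat_lit 20], false, nat_lit 0, nat_lit 160, nat_lit 0, nat_lit 336, ⟨nat_lit 117, nat_lit 883, nat_lit 0, nat_lit 6, nat_lit 277, nat_lit 883, nat_lit 56, nat_lit 0, nat_lit 0, nat_lit 0, nat_lit 0, nat_lit 0, nat_lit 45258025, nat_lit 21741975, nat_lit 0, nat_lit 3151100, true, true⟩,
 nat_lit 0, nat_lit 0, nat_lit 2094, nat_lit 0, nat_lit 4277, nat_lit 1108, nat_lit 345, nat_lit 0, nat_lit 0, nat_lit 104, nat_lit 0, nat_lit 0, nat_lit 0, nat_lit 0, nat_lit 0, nat_lit 353200, nat_lit 0, nat_lit 0, [(nat_lit 15, [(nat_lit 1, nat_lit 883)])],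
 ⟨p056_k11, nat_lit 0, nat_lit 0, nat_lit 167, nat_lit 0, nat_lit 0, [nat_lit 2167830600, nat_lit 2810597267, nat_lit 2983611333], [], [nat_lit 21900912242, nat_lit 23162549380, nat_lit 25972171024, nat_lit 27001848572, nat_lit 20600977270, nat_lit 21568274040, nat_lit 23771376098, nat_lit 24572889248], nat_lit 0, nat_lit 0, nat_lit 0, nat_lit 0, nat_lit 0, nat_lit 0, [], [nat_lit 18, nat_lit 40, nat_lit 40, nat_lit 80, nat_lit 2, nat_lit 249, nat_lit 40, nat_lit 8]⟩, ⟨p056_k22, nat_lit 0, nat_lit 0, nat_lit 898, nat_lit 0, nat_lit 1417292, [nat_lit 548496000, nat_lit 932256000, nat_lit 1389024000], [], [nat_lit 4422559060, nat_lit 4433349982, nat_lit 4492412924, nat_lit 4493555182, nat_lit 3665707598, nat_lit 3653762733, nat_lit 3640258775, nat_lit 3646329258], nat_lit 1271250, nat_lit 1271250, nat_lit 1271250, nat_lit 1271250, nat_lit 0, nat_lit 2373000, [nat_lit 1100000, nat_lit 1785000, nat_lit 1271250], [nat_lit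 21, nat_lit 40, nat_lit 40, nat_lit 80, nat_lit 14, nat_lit 483, nat_lit 250, nat_lit 12]⟩,
 ⟨nat_lit 4472, nat_lit 5000, ⟨.ofNat (nat_lit 614256), .ofNat (nat_lit 757103), .ofNat (nat_lit 635672), .ofNat (nat_lit 778519), .ofNat (nat_lit 611081), .ofNat (nat_lit 747027), .ofNat (nat_lit 632635), .ofNat (nat_lit 768581)⟩, ⟨.negSucc (nat_lit 28572), .ofNat (nat_lit 257141), .ofNat (nat_lit 0), .ofNat (nat_lit 299999), .negSucc (nat_lit 12423), .ofNat (nat_lit 259489), .ofNat (nat_lit 0), .ofNat (nat_lit 302621)⟩⟩, [⟨nat_lit 22, nat_lit 100, nat_lit 95, nat_lit 87, nat_lit 10671470⟩]⟩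
noncomputable def p056_l72 : Lf2 := ⟨nat_lit 0, nat_lit 10, [nat_lit 0, nat_lit 5, nat_lit 5, nat_lit 20], false, nat_lit 0, nat_lit 160, nat_lit 0, nat_lit 320, ⟨nat_lit 368, nat_lit 632, nat_lit 0, nat_lit 6, nat_lit 288, nat_lit 632, nat_lit 55, nat_lit 0, nat_lit 0, nat_lit 0, nat_lit 0, nat_lit 0, nat_lit 44076203, nat_lit 22923797, nat_lit 0, nat_lit 3212243, true, true⟩,
 nat_lit 0, nat_lit 0, nat_lit 4589, nat_lit 0, nat_lit 5800, nat_lit 2670, nat_lit 282, nat_lit 0, nat_lit 0, nat_lit 813, nat_lit 0, nat_lit 0, nat_lit 0, nat_lit 0, nat_lit 0, nat_lit 632000, nat_lit 0, nat_lit 0, [(nat_lit 12, [(nat_lit 2, nat_lit 632)])],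
 ⟨p056_k17, nat_lit 0, nat_lit 0, nat_lit 195, nat_lit 0, nat_lit 0, [nat_lit 3076600001, nat_lit 3560558400, nat_lit 3436048000], [], [nat_lit 23280781250, nat_lit 24608030450, nat_lit 27863708800, nat_lit 29038936800, nat_lit 19881807201, nat_lit 20992281201, nat_lit 23944551200, nat_lit 24946152000], nat_lit 0, nat_lit 0, nat_lit 0, nat_lit 0, nat_lit 0, nat_lit 0, [], [nat_lit 99, nat_lit 40, nat_lit 40, nat_lit 80, nat_lit 17, nat_lit 345, nat_lit 125, nat_lit 9]⟩, ⟨p056_k25, nat_lit 0, nat_lit 0, nat_lit 702, nat_lit 0, nat_lit 1116118, [nat_lit 1725184000, nat_lit 3621856000], [], [nat_lit 11081883048, nat_lit 11217948440, nat_lit 11663246244, nat_lit 11786512976, nat_lit 10853939196, nat_lit 10369740352, nat_lit 10670397596, nat_lit 10740883808], nat_lit 1271250, nat_lit 1271250, nat_lit 1271250, nat_lit 1271250, nat_lit 0, nat_lit 2260000, [nat_lit 1100000, nat_lit 2127500], [nat_lit 70, nat_lit 40, nat_lit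 40, nat_lit 80, nat_lit 13, nat_lit 483, nat_lit 250, nat_lit 14]⟩,
 ⟨nat_lit 5000, nat_lit 5478, ⟨.ofNat (nat_lit 638961), .ofNat (nat_lit 788802), .ofNat (nat_lit 660309), .ofNat (nat_lit 810149), .ofNat (nat_lit 635671), .ofNat (nat_lit 778503), .ofNat (nat_lit 657090), .ofNat (nat_lit 799922)⟩, ⟨.negSucc (nat_lit 45522), .ofNat (nat_lit 254209), .negSucc (nat_lit 2832), .ofNat (nat_lit 296923), .negSucc (nat_lit 28572), .ofNat (nat_lit 257141), .ofNat (nat_lit 0), .ofNat (nat_lit 299999)⟩⟩, [⟨nat_lit 7, nat_lit 97, nat_lit 100, nat_lit 76, nat_lit 35438778⟩, ⟨nat_lit 22, nat_lit 100, nat_lit 95, nat_lit 87, nat_lit 28648499⟩]⟩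
noncomputable def p056_l73 : Lf2 := ⟨nat_lit 0, nat_lit 10, [nat_lit 0, nat_lit 5, nat_lit 5, nat_lit 20], false, nat_lit 0, nat_lit 160, nat_lit 0, nat_lit 320, ⟨nat_lit 202, nat_lit 798, nat_lit 0, nat_lit 6, nat_lit 286, nat_lit 798, nat_lit 56, nat_lit 0, nat_lit 0, nat_lit 0, nat_lit 0, nat_lit 0, nat_lit 44351912, nat_lit 22648088, nat_lit 0, nat_lit 3198603, true, true⟩,
 nat_lit 0, nat_lit 0, nat_lit 2677, nat_lit 0, nat_lit 4330, nat_lit 1558, nat_lit 425, nat_lit 0, nat_lit 0, nat_lit 256, nat_lit 0, nat_lit 0, nat_lit 0, nat_lit 0, nat_lit 0, nat_lit 319200, nat_lit 0, nat_lit 0, [(nat_lit 15, [(nat_lit 1, nat_lit 798)])],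
 ⟨p056_k11, nat_lit 0, nat_lit 0, nat_lit 167, nat_lit 0, nat_lit 0, [nat_lit 2275083600, nat_lit 3141683601, nat_lit 3459667999], [], [nat_lit 21990725614, nat_lit 23249798754, nat_lit 26072255514, nat_lit 27109217880, nat_lit 20683584454, nat_lit 21655863754, nat_lit 23896976596, nat_lit 24765892596], nat_lit 0, nat_lit 0, nat_lit 0, nat_lit 0, nat_lit 0, nat_lit 0, [], [nat_lit 18, nat_lit 40, nat_lit 40, nat_lit 80, nat_lit 2, nat_lit 249, nat_lit 40, nat_lit 8]⟩, ⟨p056_k20, nat_lit 0, nat_lit 0, nat_lit 823, nat_lit 0, nat_lit 1401753, [nat_lit 946976000, nat_lit 1609536000, nat_lit 1988084000], [], [nat_lit 6539864732, nat_lit 6577607880, nat_lit 6712132228, nat_lit 6735293864, nat_lit 5784786220, nat_lit 5788833448, nat_lit 5932458004, nat_lit 5976851336], nat_lit 1271250, nat_lit 1271250, nat_lit 1271250, nat_lit 1271250, nat_lit 0, nat_lit 2260000, [nat_lit 1100000, nat_lit 1785000, nat_lit 1271250], [nat_lit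 29, nat_lit 40, nat_lit 40, nat_lit 80, nat_lit 17, nat_lit 483, nat_lit 250, nat_lit 14]⟩,
 ⟨nat_lit 4472, nat_lit 5000, ⟨.ofNat (nat_lit 635672), .ofNat (nat_lit 778519), .ofNat (nat_lit 657088), .ofNat (nat_lit 799935), .ofNat (nat_lit 632635), .ofNat (nat_lit 768581), .ofNat (nat_lit 654189), .ofNat (nat_lit 790136)⟩, ⟨.negSucc (nat_lit 28572), .ofNat (nat_lit 257141), .ofNat (nat_lit 0), .ofNat (nat_lit 299999), .negSucc (nat_lit 12423), .ofNat (nat_lit 259489), .ofNat (nat_lit 0), .ofNat (nat_lit 302621)⟩⟩, [⟨nat_lit 7, nat_lit 97, nat_lit 100, nat_lit 76, nat_lit 32937034⟩]⟩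
noncomputable def p056_l74 : Lf2 := ⟨nat_lit 0, nat_lit 10, [nat_lit 0, nat_lit 5, nat_lit 5, nat_lit 20], false, nat_lit 0, nat_lit 80, nat_lit 0, nat_lit 260, ⟨nat_lit 224, nat_lit 776, nat_lit 0, nat_lit 8, nat_lit 336, nat_lit 505, nat_lit 26, nat_lit 0, nat_lit 0, nat_lit 0, nat_lit 0, nat_lit 0, nat_lit 39252086, nat_lit 27747914, nat_lit 0, nat_lit 3391663, true, true⟩,
 nat_lit 0, nat_lit 0, nat_lit 3064, nat_lit 0, nat_lit 4055, nat_lit 1622, nat_lit 140, nat_lit 0, nat_lit 0, nat_lit 164, nat_lit 0, nat_lit 0, nat_lit 0, nat_lit 0, nat_lit 0, nat_lit 776000, nat_lit 0, nat_lit 0, [(nat_lit 12, [(nat_lit 2, nat_lit 776)])],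
 ⟨p056_k0, nat_lit 0, nat_lit 0, nat_lit 217, nat_lit 0, nat_lit 0, [nat_lit 2547283201, nat_lit 2910406400, nat_lit 1976464000], [], [nat_lit 26474242662, nat_lit 27370452842, nat_lit 30920828622, nat_lit 31627811232, nat_lit 25028215122, nat_lit 25874564082, nat_lit 29214992022, nat_lit 29887930302], nat_lit 0, nat_lit 0, nat_lit 0, nat_lit 0, nat_lit 0, nat_lit 0, [], [nat_lit 8, nat_lit 40, nat_lit 40, nat_lit 80, nat_lit 1, nat_lit 226, nat_lit 20, nat_lit 6]⟩, ⟨p056_k22, nat_lit 0, nat_lit 0, nat_lit 689, nat_lit 0, nat_lit 976758, [nat_lit 1050112000, nat_lit 1784832000, nat_lit 2659328000], [], [nat_lit 9864807008, nat_lit 9885984932, nat_lit 10361719992, nat_lit 10375226626, nat_lit 8936031090, nat_lit 8943792435, nat_lit 9226779260, nat_lit 9227024957], nat_lit 1271250, nat_lit 1271250, nat_lit 1271250, nat_lit 1271250, nat_lit 0, nat_lit 1836250, [nat_lit 1100000, nat_lit 1785000, nat_lit 1271250], [nat_lit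 21, nat_lit 40, nat_lit 40, nat_lit 80, nat_lit 14, nat_lit 373, nat_lit 150, nat_lit 9]⟩,
 ⟨nat_lit 5000, nat_lit 5478, ⟨.ofNat (nat_lit 767454), .ofNat (nat_lit 917295), .ofNat (nat_lit 778128), .ofNat (nat_lit 927968), .ofNat (nat_lit 757084), .ofNat (nat_lit 899915), .ofNat (nat_lit 767793), .ofNat (nat_lit 910625)⟩, ⟨.negSucc (nat_lit 45522), .ofNat (nat_lit 104343), .negSucc (nat_lit 2832), .ofNat (nat_lit 147057), .negSucc (nat_lit 28572), .ofNat (nat_lit 114284), .ofNat (nat_lit 0), .ofNat (nat_lit 157141)⟩⟩, [⟨nat_lit 13, nat_lit 92, nat_lit 24, nat_lit 100, nat_lit 81132370⟩, ⟨nat_lit 10, nat_lit 100, nat_lit 58, nat_lit 64, nat_lit 43235442⟩]⟩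
noncomputable def p056_l75 : Lf2 := ⟨nat_lit 0, nat_lit 10, [nat_lit 0, nat_lit 5, nat_lit 5, nat_lit 20], false, nat_lit 80, nat_lit 160, nat_lit 0, nat_lit 336, ⟨nat_lit 171, nat_lit 829, nat_lit 0, nat_lit 8, nat_lit 336, nat_lit 829, nat_lit 82, nat_lit 0, nat_lit 0, nat_lit 0, nat_lit 0, nat_lit 0, nat_lit 37443360, nat_lit 26716714, nat_lit 2839926, nat_lit 4324528, true, true⟩,
 nat_lit 0, nat_lit 0, nat_lit 2750, nat_lit 0, nat_lit 4433, nat_lit 1455, nat_lit 87, nat_lit 0, nat_lit 0, nat_lit 124, nat_lit 0, nat_lit 0, nat_lit 0, nat_lit 0, nat_lit 0, nat_lit 829000, nat_lit 0, nat_lit 0, [(nat_lit 12, [(nat_lit 2, nat_lit 829)])],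
 ⟨p056_k0, nat_lit 0, nat_lit 0, nat_lit 156, nat_lit 0, nat_lit 0, [nat_lit 2497102801, nat_lit 2682315600, nat_lit 1439256000], [], [nat_lit 23857089100, nat_lit 24679678088, nat_lit 28296641291, nat_lit 29001392606, nat_lit 23955989040, nat_lit 24699353880, nat_lit 27893690747, nat_lit 28591365988], nat_lit 0, nat_lit 0, nat_lit 0, nat_lit 0, nat_lit 0, nat_lit 0, [], [nat_lit 8, nat_lit 40, nat_lit 40, nat_lit 80, nat_lit 1, nat_lit 249, nat_lit 40, nat_lit 6]⟩, ⟨p056_k22, nat_lit 0, nat_lit 0, nat_lit 689, nat_lit 0, nat_lit 976758, [nat_lit 801648000, nat_lit 1362528000, nat_lit 2030112000], [], [nat_lit 6836935040, nat_lit 6854345243, nat_lit 7263246080, nat_lit 7274162289, nat_lit 5950384347, nat_lit 5955184086, nat_lit 6224268452, nat_lit 6233354414], nat_lit 1271250, nat_lit 1271250, nat_lit 1271250, nat_lit 1271250, nat_lit 0, nat_lit 2373000, [nat_lit 1100000, nat_lit 1785000, nat_lit 1271250], [nat_lit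 21, nat_lit 40, nat_lit 40, nat_lit 80, nat_lit 14, nat_lit 373, nat_lit 150, nat_lit 9]⟩,
 ⟨nat_lit 5000, nat_lit 5478, ⟨.ofNat (nat_lit 767454), .ofNat (nat_lit 917295), .ofNat (nat_lit 778128), .ofNat (nat_lit 927968), .ofNat (nat_lit 757084), .ofNat (nat_lit 899915), .ofNat (nat_lit 767793), .ofNat (nat_lit 910625)⟩, ⟨.ofNat (nat_lit 104343), .ofNat (nat_lit 254209), .ofNat (nat_lit 147057), .ofNat (nat_lit 296923), .ofNat (nat_lit 114284), .ofNat (nat_lit 257141), .ofNat (nat_lit 157141), .ofNat (nat_lit 299999)⟩⟩, [⟨nat_lit 13, nat_lit 92, nat_lit 24, nat_lit 100, nat_lit 54457002⟩, ⟨nat_lit 10, nat_lit 100, nat_lit 25, nat_lit 93, nat_lit 72255809⟩]⟩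
noncomputable def p056_l76 : Lf2 := ⟨nat_lit 0, nat_lit 10, [nat_lit 0, nat_lit 5, nat_lit 5, nat_lit 20], false, nat_lit 0, nat_lit 160, nat_lit 0, nat_lit 328, ⟨nat_lit 1000, nat_lit 0, nat_lit 0, nat_lit 0, nat_lit 0, nat_lit 0, nat_lit 0, nat_lit 0, nat_lit 0, nat_lit 0, nat_lit 0, nat_lit 0, nat_lit 0, nat_lit 0, nat_lit 0, nat_lit 0, false, false⟩,
 nat_lit 0, nat_lit 0, nat_lit 11849, nat_lit 0, nat_lit 6046, nat_lit 6582, nat_lit 960, nat_lit 0, nat_lit 0, nat_lit 3786, nat_lit 0, nat_lit 0, nat_lit 0, nat_lit 0, nat_lit 0, nat_lit 0, nat_lit 0, nat_lit 0, [],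
 ⟨p056_k0, nat_lit 0, nat_lit 0, nat_lit 217, nat_lit 0, nat_lit 0, [nat_lit 3282000000, nat_lit 6250000000, nat_lit 9842000000], [], [nat_lit 29911755648, nat_lit 30991364832, nat_lit 36049283448, nat_lit 37014493776, nat_lit 25443990176, nat_lit 26367016304, nat_lit 31004506944, nat_lit 31839089256], nat_lit 0, nat_lit 0, nat_lit 0, nat_lit 0, nat_lit 0, nat_lit 0, [], [nat_lit 8, nat_lit 40, nat_lit 40, nat_lit 80, nat_lit 1, nat_lit 249, nat_lit 40, nat_lit 6]⟩, ⟨p056_k26, nat_lit 0, nat_lit 0, nat_lit 635, nat_lit 0, nat_lit 998458, [nat_lit 4688000000, nat_lit 7968000000, nat_lit 9842000000], [], [nat_lit 35049875844, nat_lit 35125676008, nat_lit 36790706180, nat_lit 36850462832, nat_lit 32118163845, nat_lit 32182153442, nat_lit 33765625745, nat_lit 33992542421], nat_lit 1271250, nat_lit 1271250, nat_lit 1271250, nat_lit 1271250, nat_lit 0, nat_lit 2316500, [nat_lit 1100000, nat_lit 1785000, nat_lit 1271250],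 [nat_lit 29, nat_lit 40, nat_lit 40, nat_lit 80, nat_lit 17, nat_lit 373, nat_lit 150, nat_lit 10]⟩,
 zbF0, [⟨nat_lit 7, nat_lit 90, nat_lit 100, nat_lit 74, nat_lit 176190614⟩, ⟨nat_lit 22, nat_lit 60, nat_lit 100, nat_lit 80, nat_lit 25403286⟩]⟩
noncomputable def p056_l77 : Lf2 := ⟨nat_lit 0, nat_lit 10, [nat_lit 0, nat_lit 5, nat_lit 5, nat_lit 20], false, nat_lit 0, nat_lit 80, nat_lit 0, nat_lit 260, ⟨nat_lit 121, nat_lit 879, nat_lit 0, nat_lit 8, nat_lit 317, nat_lit 322, nat_lit 28, nat_lit 0, nat_lit 0, nat_lit 0, nat_lit 0, nat_lit 0, nat_lit 41161949, nat_lit 25838051, nat_lit 0, nat_lit 3333794, true, true⟩,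
 nat_lit 0, nat_lit 0, nat_lit 2235, nat_lit 0, nat_lit 3695, nat_lit 1183, nat_lit 0, nat_lit 0, nat_lit 0, nat_lit 133, nat_lit 0, nat_lit 0, nat_lit 0, nat_lit 0, nat_lit 0, nat_lit 732000, nat_lit 0, nat_lit 0, [(nat_lit 15, [(nat_lit 1, nat_lit 245), (nat_lit 2, nat_lit 634)])],
 ⟨p056_k11, nat_lit 0, nat_lit 0, nat_lit 183, nat_lit 0, nat_lit 0, [nat_lit 2232093401, nat_lit 1997624334, nat_lit 1089523200], [], [nat_lit 25794671451, nat_lit 26680010621, nat_lit 27830135301, nat_lit 28627571500, nat_lit 24227151681, nat_lit 25068380021, nat_lit 26155604271, nat_lit 26939106395], nat_lit 0, nat_lit 0, nat_lit 0, nat_lit 0, nat_lit 0, nat_lit 0, [], [nat_lit 18, nat_lit 40, nat_lit 40, nat_lit 80, nat_lit 2, nat_lit 226, nat_lit 20, nat_lit 6]⟩, ⟨p056_k22, nat_lit 0, nat_lit 0, nat_lit 847, nat_lit 0, nat_lit 1330852, [nat_lit 567248000, nat_lit 964128000, nat_lit 1436512000], [], [nat_lit 4448731128, nat_lit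 4448707007, nat_lit 4523139988, nat_lit 4541453027, nat_lit 3527180495, nat_lit 3520235484, nat_lit 3561558218, nat_lit 3572367905], nat_lit 1271250, nat_lit 1271250, nat_lit 1271250, nat_lit 1271250, nat_lit 0, nat_lit 1836250, [nat_lit 1100000, nat_lit 1785000, nat_lit 1271250], [nat_lit 21, nat_lit 40, nat_lit 40, nat_lit 80, nat_lit 14, nat_lit 373, nat_lit 150, nat_lit 9]⟩,
 ⟨nat_lit 4472, nat_lit 5000, ⟨.ofNat (nat_lit 757103), .ofNat (nat_lit 828527), .ofNat (nat_lit 767811), .ofNat (nat_lit 839235), .ofNat (nat_lit 747027), .ofNat (nat_lit 815001), .ofNat (nat_lit 757805), .ofNat (nat_lit 825778)⟩, ⟨.negSucc (nat_lit 28572), .ofNat (nat_lit 114284), .ofNat (nat_lit 0), .ofNat (nat_lit 157141), .negSucc (nat_lit 12423), .ofNat (nat_lit 123532), .ofNat (nat_lit 0), .ofNat (nat_lit 166665)⟩⟩, [⟨nat_lit 22, nat_lit 76, nat_lit 100, nat_lit 43, nat_lit 6569565⟩]⟩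
noncomputable def p056_l78 : Lf2 := ⟨nat_lit 0, nat_lit 10, [nat_lit 0, nat_lit 5, nat_lit 5, nat_lit 20], false, nat_lit 0, nat_lit 80, nat_lit 0, nat_lit 200, ⟨nat_lit 112, nat_lit 888, nat_lit 0, nat_lit 9, nat_lit 343, nat_lit 485, nat_lit 28, nat_lit 0, nat_lit 0, nat_lit 0, nat_lit 0, nat_lit 0, nat_lit 38571771, nat_lit 28428229, nat_lit 0, nat_lit 3408212, true, true⟩,
 nat_lit 0, nat_lit 0, nat_lit 1924, nat_lit 0, nat_lit 3636, nat_lit 1018, nat_lit 263, nat_lit 0, nat_lit 0, nat_lit 101, nat_lit 0, nat_lit 0, nat_lit 0, nat_lit 0, nat_lit 0, nat_lit 355200, nat_lit 0, nat_lit 0, [(nat_lit 15, [(nat_lit 1, nat_lit 888)])],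
 ⟨p056_k11, nat_lit 0, nat_lit 0, nat_lit 197, nat_lit 0, nat_lit 0, [nat_lit 2161521600, nat_lit 2791121601, nat_lit 2955607999], [], [nat_lit 28576313702, nat_lit 29349778590, nat_lit 30460149926, nat_lit 31155264400, nat_lit 27247952030, nat_lit 27982016878, nat_lit 29026343477, nat_lit 29688539552], nat_lit 0, nat_lit 0, nat_lit 0, nat_lit 0, nat_lit 0, nat_lit 0, [], [nat_lit 18, nat_lit 40, nat_lit 40, nat_lit 80, nat_lit 2, nat_lit 226, nat_lit 20, nat_lit 6]⟩, ⟨p056_k22, nat_lit 0, nat_lit 0, nat_lit 841, nat_lit 0, nat_lit 1330852, [nat_lit 525056000, nat_lit 892416000, nat_lit 1329664000], [], [nat_lit 4596662200, nat_lit 4595523938, nat_lit 4677219537, nat_lit 4673854585, nat_lit 3860845320, nat_lit 3856090257, nat_lit 3917658926, nat_lit 3911085249], nat_lit 1271250, nat_lit 1271250, nat_lit 1271250, nat_lit 1271250, nat_lit 0, nat_lit 1412500, [nat_lit 1100000, nat_lit 1785000, nat_lit 1271250], [nat_lit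 21, nat_lit 40, nat_lit 40, nat_lit 80, nat_lit 14, nat_lit 345, nat_lit 125, nat_lit 8]⟩,
 ⟨nat_lit 4472, nat_lit 5000, ⟨.ofNat (nat_lit 828527), .ofNat (nat_lit 892808), .ofNat (nat_lit 839235), .ofNat (nat_lit 903517), .ofNat (nat_lit 815001), .ofNat (nat_lit 876177), .ofNat (nat_lit 825778), .ofNat (nat_lit 886954)⟩, ⟨.negSucc (nat_lit 28572), .ofNat (nat_lit 114284), .ofNat (nat_lit 0), .ofNat (nat_lit 157141), .negSucc (nat_lit 12423), .ofNat (nat_lit 123532), .ofNat (nat_lit 0), .ofNat (nat_lit 166665)⟩⟩, [⟨nat_lit 13, nat_lit 86, nat_lit 36, nat_lit 100, nat_lit 179904342⟩]⟩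
noncomputable def p056_l79 : Lf2 := ⟨nat_lit 0, nat_lit 10, [nat_lit 0, nat_lit 5, nat_lit 5, nat_lit 20], false, nat_lit 0, nat_lit 80, nat_lit 0, nat_lit 260, ⟨nat_lit 357, nat_lit 643, nat_lit 0, nat_lit 8, nat_lit 334, nat_lit 643, nat_lit 28, nat_lit 0, nat_lit 0, nat_lit 0, nat_lit 0, nat_lit 0, nat_lit 39499797, nat_lit 27500203, nat_lit 0, nat_lit 3385110, true, true⟩,
 nat_lit 0, nat_lit 0, nat_lit 4523, nat_lit 0, nat_lit 4050, nat_lit 2512, nat_lit 401, nat_lit 0, nat_lit 0, nat_lit 1155, nat_lit 0, nat_lit 0, nat_lit 0, nat_lit 0, nat_lit 0, nat_lit 257200, nat_lit 0, nat_lit 0, [(nat_lit 15, [(nat_lit 1, nat_lit 643)])],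
 ⟨p056_k11, nat_lit 0, nat_lit 0, nat_lit 197, nat_lit 0, nat_lit 0, [nat_lit 2470662600, nat_lit 3745429267, nat_lit 4333764000], [], [nat_lit 27296619742, nat_lit 28192409542, nat_lit 31498551975, nat_lit 32291989921, nat_lit 25804050142, nat_lit 26650015742, nat_lit 29608028862, nat_lit 30289390323], nat_lit 0, nat_lit 0, nat_lit 0, nat_lit 0, nat_lit 0, nat_lit 0, [], [nat_lit 18, nat_lit 40, nat_lit 40, nat_lit 80, nat_lit 2, nat_lit 226, nat_lit 20, nat_lit 6]⟩, ⟨p056_k26, nat_lit 0, nat_lit 0, nat_lit 776, nat_lit 0, nat_lit 1320248, [nat_lit 1673616000, nat_lit 2844576000, nat_lit 3513594000], [], [nat_lit 12729363178, nat_lit 12745391204, nat_lit 13179837522, nat_lit 13184824296, nat_lit 11321026111, nat_lit 11333675560, nat_lit 11712769472, nat_lit 11715260610], nat_lit 1271250, nat_lit 1271250, nat_lit 1271250, nat_lit 1271250, nat_lit 0, nat_lit 1836250, [nat_lit 1100000, nat_lit 1785000, nat_lit 1271250],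 [nat_lit 29, nat_lit 40, nat_lit 40, nat_lit 80, nat_lit 17, nat_lit 373, nat_lit 150, nat_lit 10]⟩,
 ⟨nat_lit 4472, nat_lit 5000, ⟨.ofNat (nat_lit 767811), .ofNat (nat_lit 903517), .ofNat (nat_lit 778519), .ofNat (nat_lit 914224), .ofNat (nat_lit 757805), .ofNat (nat_lit 886954), .ofNat (nat_lit 768581), .ofNat (nat_lit 897731)⟩, ⟨.negSucc (nat_lit 28572), .ofNat (nat_lit 114284), .ofNat (nat_lit 0), .ofNat (nat_lit 157141), .negSucc (nat_lit 12423), .ofNat (nat_lit 123532), .ofNat (nat_lit 0), .ofNat (nat_lit 166665)⟩⟩, [⟨nat_lit 13, nat_lit 83, nat_lit 39, nat_lit 100, nat_lit 13352648⟩, ⟨nat_lit 10, nat_lit 100, nat_lit 58, nat_lit 64, nat_lit 88185172⟩]⟩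
noncomputable def p056_l80 : Lf2 := ⟨nat_lit 0, nat_lit 10, [nat_lit 0, nat_lit 5, nat_lit 5, nat_lit 20], false, nat_lit 80, nat_lit 160, nat_lit 0, nat_lit 336, ⟨nat_lit 113, nat_lit 887, nat_lit 0, nat_lit 8, nat_lit 332, nat_lit 887, nat_lit 84, nat_lit 0, nat_lit 0, nat_lit 0, nat_lit 0, nat_lit 0, nat_lit 37772943, nat_lit 26236632, nat_lit 2990425, nat_lit 4346977, true, true⟩,
 nat_lit 0, nat_lit 0, nat_lit 1874, nat_lit 0, nat_lit 3984, nat_lit 991, nat_lit 174, nat_lit 0, nat_lit 0, nat_lit 71, nat_lit 0, nat_lit 0, nat_lit 0, nat_lit 0, nat_lit 0, nat_lit 476000, nat_lit 0, nat_lit 0, [(nat_lit 15, [(nat_lit 1, nat_lit 685), (nat_lit 2, nat_lit 202)])],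
 ⟨p056_k11, nat_lit 0, nat_lit 0, nat_lit 137, nat_lit 0, nat_lit 0, [nat_lit 2181650201, nat_lit 2531029667, nat_lit 2346009600], [], [nat_lit 24183972147, nat_lit 25047977155, nat_lit 28172768478, nat_lit 28928553501, nat_lit 24478907731, nat_lit 25261390531, nat_lit 28031770469, nat_lit 28708524854], nat_lit 0, nat_lit 0, nat_lit 0, nat_lit 0, nat_lit 0, nat_lit 0, [], [nat_lit 18, nat_lit 40, nat_lit 40, nat_lit 80, nat_lit 2, nat_lit 249, nat_lit 40, nat_lit 7]⟩, ⟨p056_k22, nat_lit 0, nat_lit 0, nat_lit 880, nat_lit 0, nat_lit 1417292, [nat_lit 529744000, nat_lit 900384000, nat_lit 1341536000], [], [nat_lit 4765405556, nat_lit 4763023318, nat_lit 4910802298, nat_lit 4905478917, nat_lit 4034980515, nat_lit 4021058796, nat_lit 4127263016, nat_lit 4149592897], nat_lit 1271250, nat_lit 1271250, nat_lit 1271250, nat_lit 1271250, nat_lit 0, nat_lit 2373000, [nat_lit 1100000, nat_lit 1785000, nat_lit 1271250], [nat_lit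 21, nat_lit 40, nat_lit 40, nat_lit 80, nat_lit 14, nat_lit 373, nat_lit 150, nat_lit 9]⟩,
 ⟨nat_lit 4472, nat_lit 5000, ⟨.ofNat (nat_lit 757103), .ofNat (nat_lit 892808), .ofNat (nat_lit 778519), .ofNat (nat_lit 914224), .ofNat (nat_lit 747027), .ofNat (nat_lit 876177), .ofNat (nat_lit 768581), .ofNat (nat_lit 897731)⟩, ⟨.ofNat (nat_lit 114284), .ofNat (nat_lit 257141), .ofNat (nat_lit 157141), .ofNat (nat_lit 299999), .ofNat (nat_lit 123532), .ofNat (nat_lit 259489), .ofNat (nat_lit 166665), .ofNat (nat_lit 302621)⟩⟩, [⟨nat_lit 13, nat_lit 86, nat_lit 33, nat_lit 100, nat_lit 106970468⟩, ⟨nat_lit 10, nat_lit 100, nat_lit 25, nat_lit 93, nat_lit 44003956⟩]⟩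
noncomputable def p056_l81 : Lf2 := ⟨nat_lit 0, nat_lit 10, [nat_lit 0, nat_lit 5, nat_lit 5, nat_lit 20], false, nat_lit 0, nat_lit 80, nat_lit 0, nat_lit 260, ⟨nat_lit 886, nat_lit 114, nat_lit 0, nat_lit 8, nat_lit 347, nat_lit 114, nat_lit 26, nat_lit 0, nat_lit 0, nat_lit 0, nat_lit 0, nat_lit 0, nat_lit 38229422, nat_lit 28770578, nat_lit 0, nat_lit 3415741, true, true⟩,
 nat_lit 0, nat_lit 0, nat_lit 10147, nat_lit 0, nat_lit 5743, nat_lit 5906, nat_lit 915, nat_lit 0, nat_lit 0, nat_lit 2929, nat_lit 0, nat_lit 0, nat_lit 0, nat_lit 0, nat_lit 0, nat_lit 114000, nat_lit 0, nat_lit 0, [(nat_lit 12, [(nat_lit 2, nat_lit 114)])],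
 ⟨p056_k0, nat_lit 0, nat_lit 0, nat_lit 217, nat_lit 0, nat_lit 0, [nat_lit 3174064801, nat_lit 5759389600, nat_lit 8686496000], [], [nat_lit 28889372559, nat_lit 29945223968, nat_lit 35249616684, nat_lit 36194747808, nat_lit 25335840434, nat_lit 26311611730, nat_lit 31317422192, nat_lit 32226413874], nat_lit 0, nat_lit 0, nat_lit 0, nat_lit 0, nat_lit 0, nat_lit 0, [], [nat_lit 8, nat_lit 40, nat_lit 40, nat_lit 80, nat_lit 1, nat_lit 226, nat_lit 20, nat_lit 6]⟩, ⟨p056_k20, nat_lit 0, nat_lit 0, nat_lit 679, nat_lit 0, nat_lit 1116118, [nat_lit 4153568000, nat_lit 7059648000, nat_lit 8720012000], [], [nat_lit 30083154796, nat_lit 30433524008, nat_lit 32560979100, nat_lit 33190490128, nat_lit 28159578628, nat_lit 28363417654, nat_lit 29861783514, nat_lit 29991198720], nat_lit 1271250, nat_lit 1271250, nat_lit 1271250, nat_lit 1271250, nat_lit 0, nat_lit 1836250, [nat_lit 1100000, nat_lit 1785000, nat_lit 1271250],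 [nat_lit 29, nat_lit 40, nat_lit 40, nat_lit 80, nat_lit 17, nat_lit 373, nat_lit 150, nat_lit 10]⟩,
 ⟨nat_lit 5000, nat_lit 5478, ⟨.ofNat (nat_lit 788802), .ofNat (nat_lit 938642), .ofNat (nat_lit 810149), .ofNat (nat_lit 959989), .ofNat (nat_lit 778503), .ofNat (nat_lit 921335), .ofNat (nat_lit 799922), .ofNat (nat_lit 942753)⟩, ⟨.negSucc (nat_lit 45522), .ofNat (nat_lit 104343), .negSucc (nat_lit 2832), .ofNat (nat_lit 147057), .negSucc (nat_lit 28572), .ofNat (nat_lit 114284), .ofNat (nat_lit 0), .ofNat (nat_lit 157141)⟩⟩, [⟨nat_lit 22, nat_lit 83, nat_lit 100, nat_lit 83, nat_lit 132469952⟩]⟩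
noncomputable def p056_l82 : Lf2 := ⟨nat_lit 0, nat_lit 10, [nat_lit 0, nat_lit 5, nat_lit 5, nat_lit 20], false, nat_lit 0, nat_lit 80, nat_lit 0, nat_lit 260, ⟨nat_lit 673, nat_lit 327, nat_lit 0, nat_lit 8, nat_lit 343, nat_lit 327, nat_lit 28, nat_lit 0, nat_lit 0, nat_lit 0, nat_lit 0, nat_lit 0, nat_lit 38615900, nat_lit 28384100, nat_lit 0, nat_lit 3407202, true, true⟩,
 nat_lit 0, nat_lit 0, nat_lit 7847, nat_lit 0, nat_lit 4633, nat_lit 4567, nat_lit 1671, nat_lit 0, nat_lit 0, nat_lit 1295, nat_lit 0, nat_lit 0, nat_lit 0, nat_lit 0, nat_lit 0, nat_lit 130800, nat_lit 0, nat_lit 0, [(nat_lit 15, [(nat_lit 1, nat_lit 327)])],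
 ⟨p056_k11, nat_lit 0, nat_lit 0, nat_lit 198, nat_lit 0, nat_lit 0, [nat_lit 2869391400, nat_lit 4976291400, nat_lit 6119796000], [], [nat_lit 26295849720, nat_lit 27009447954, nat_lit 33188812738, nat_lit 33712372143, nat_lit 24149414293, nat_lit 24596202293, nat_lit 29330749006, nat_lit 29841057317], nat_lit 0, nat_lit 0, nat_lit 0, nat_lit 0, nat_lit 0, nat_lit 0, [], [nat_lit 18, nat_lit 40, nat_lit 40, nat_lit 80, nat_lit 2, nat_lit 226, nat_lit 20, nat_lit 6]⟩, ⟨p056_k20, nat_lit 0, nat_lit 0, nat_lit 747, nat_lit 0, nat_lit 1254792, [nat_lit 3155024000, nat_lit 5362464000, nat_lit 6623666000], [], [nat_lit 23943454998, nat_lit 24108929856, nat_lit 25299793958, nat_lit 25422813048, nat_lit 21966701068, nat_lit 22049372354, nat_lit 23001771588, nat_lit 23065472904], nat_lit 1271250, nat_lit 1271250, nat_lit 1271250, nat_lit 1271250, nat_lit 0, nat_lit 1836250, [nat_lit 1100000, nat_lit 1785000, nat_lit 1271250],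 [nat_lit 29, nat_lit 40, nat_lit 40, nat_lit 80, nat_lit 17, nat_lit 373, nat_lit 150, nat_lit 10]⟩,
 ⟨nat_lit 4743, nat_lit 5000, ⟨.ofNat (nat_lit 778556), .ofNat (nat_lit 921410), .ofNat (nat_lit 799982), .ofNat (nat_lit 942836), .ofNat (nat_lit 773549), .ofNat (nat_lit 912945), .ofNat (nat_lit 795034), .ofNat (nat_lit 934430)⟩, ⟨.negSucc (nat_lit 28572), .ofNat (nat_lit 114284), .ofNat (nat_lit 0), .ofNat (nat_lit 157141), .negSucc (nat_lit 20404), .ofNat (nat_lit 118994), .ofNat (nat_lit 0), .ofNat (nat_lit 161970)⟩⟩, [⟨nat_lit 22, nat_lit 63, nat_lit 100, nat_lit 62, nat_lit 179299273⟩]⟩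
noncomputable def p056_l83 : Lf2 := ⟨nat_lit 0, nat_lit 10, [nat_lit 0, nat_lit 5, nat_lit 5, nat_lit 20], false, nat_lit 0, nat_lit 80, nat_lit 0, nat_lit 260, ⟨nat_lit 376, nat_lit 624, nat_lit 0, nat_lit 8, nat_lit 340, nat_lit 624, nat_lit 29, nat_lit 0, nat_lit 0, nat_lit 0, nat_lit 0, nat_lit 0, nat_lit 38870591, nat_lit 28129409, nat_lit 0, nat_lit 3401203, true, true⟩,
 nat_lit 0, nat_lit 0, nat_lit 4389, nat_lit 0, nat_lit 3808, nat_lit 2554, nat_lit 756, nat_lit 0, nat_lit 0, nat_lit 706, nat_lit 0, nat_lit 0, nat_lit 0, nat_lit 0, nat_lit 0, nat_lit 249600, nat_lit 0, nat_lit 0, [(nat_lit 15, [(nat_lit 1, nat_lit 624)])],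
 ⟨p056_k27, nat_lit 0, nat_lit 0, nat_lit 199, nat_lit 0, nat_lit 0, [nat_lit 2494636800, nat_lit 3819436800, nat_lit 4441152000], [], [nat_lit 27036117952, nat_lit 27425442072, nat_lit 31441583568, nat_lit 31927782848, nat_lit 25664560864, nat_lit 26032969176, nat_lit 29390155608, nat_lit 29760065024], nat_lit 0, nat_lit 0, nat_lit 0, nat_lit 0, nat_lit 0, nat_lit 0, [], [nat_lit 18, nat_lit 40, nat_lit 40, nat_lit 80, nat_lit 2, nat_lit 226, nat_lit 20, nat_lit 6]⟩, ⟨p056_k20, nat_lit 0, nat_lit 0, nat_lit 806, nat_lit 0, nat_lit 1401753, [nat_lit 1762688000, nat_lit 2995968000, nat_lit 3700592000], [], [nat_lit 13575735364, nat_lit 13628178032, nat_lit 14166265484, nat_lit 14209948176, nat_lit 12284293366, nat_lit 12329529828, nat_lit 12834210756, nat_lit 12869722548], nat_lit 1271250, nat_lit 1271250, nat_lit 1271250, nat_lit 1271250, nat_lit 0, nat_lit 1836250, [nat_lit 1100000, nat_lit 1785000, nat_lit 1271250],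 [nat_lit 29, nat_lit 40, nat_lit 40, nat_lit 80, nat_lit 17, nat_lit 373, nat_lit 150, nat_lit 10]⟩,
 ⟨nat_lit 4472, nat_lit 4744, ⟨.ofNat (nat_lit 773551), .ofNat (nat_lit 912950), .ofNat (nat_lit 795036), .ofNat (nat_lit 934435), .ofNat (nat_lit 768622), .ofNat (nat_lit 904577), .ofNat (nat_lit 790184), .ofNat (nat_lit 926140)⟩, ⟨.negSucc (nat_lit 20404), .ofNat (nat_lit 118994), .ofNat (nat_lit 0), .ofNat (nat_lit 161970), .negSucc (nat_lit 12423), .ofNat (nat_lit 123532), .ofNat (nat_lit 0), .ofNat (nat_lit 166665)⟩⟩, [⟨nat_lit 10, nat_lit 100, nat_lit 58, nat_lit 64, nat_lit 103776697⟩]⟩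
noncomputable def p056_l84 : Lf2 := ⟨nat_lit 0, nat_lit 10, [nat_lit 0, nat_lit 5, nat_lit 5, nat_lit 20], false, nat_lit 80, nat_lit 160, nat_lit 0, nat_lit 320, ⟨nat_lit 364, nat_lit 636, nat_lit 0, nat_lit 8, nat_lit 347, nat_lit 636, nat_lit 82, nat_lit 0, nat_lit 0, nat_lit 0, nat_lit 0, nat_lit 0, nat_lit 36519611, nat_lit 27689667, nat_lit 2790722, nat_lit 4335756, true, true⟩,
 nat_lit 0, nat_lit 0, nat_lit 4181, nat_lit 0, nat_lit 5065, nat_lit 2433, nat_lit 251, nat_lit 0, nat_lit 0, nat_lit 667, nat_lit 0, nat_lit 0, nat_lit 0, nat_lit 0, nat_lit 0, nat_lit 636000, nat_lit 0, nat_lit 0, [(nat_lit 12, [(nat_lit 2, nat_lit 636)])],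
 ⟨p056_k0, nat_lit 0, nat_lit 0, nat_lit 156, nat_lit 0, nat_lit 0, [nat_lit 2679835201, nat_lit 3512910400, nat_lit 3395504000], [], [nat_lit 24390989195, nat_lit 25344996535, nat_lit 29308304255, nat_lit 30042158830, nat_lit 24197353015, nat_lit 25056367245, nat_lit 28640692335, nat_lit 29297911135], nat_lit 0, nat_lit 0, nat_lit 0, nat_lit 0, nat_lit 0, nat_lit 0, [], [nat_lit 8, nat_lit 40, nat_lit 40, nat_lit 80, nat_lit 1, nat_lit 249, nat_lit 40, nat_lit 6]⟩, ⟨p056_k20, nat_lit 0, nat_lit 0, nat_lit 679, nat_lit 0, nat_lit 1116118, [nat_lit 1706432000, nat_lit 2900352000, nat_lit 3582488000], [], [nat_lit 12848385196, nat_lit 12941324464, nat_lit 13610143544, nat_lit 13669779264, nat_lit 11918872840, nat_lit 11950300288, nat_lit 12430757900, nat_lit 12467538124], nat_lit 1271250, nat_lit 1271250, nat_lit 1271250, nat_lit 1271250, nat_lit 0, nat_lit 2260000, [nat_lit 1100000, nat_lit 1785000, nat_lit 1271250],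 [nat_lit 29, nat_lit 40, nat_lit 40, nat_lit 80, nat_lit 17, nat_lit 373, nat_lit 150, nat_lit 10]⟩,
 ⟨nat_lit 5000, nat_lit 5478, ⟨.ofNat (nat_lit 788802), .ofNat (nat_lit 938642), .ofNat (nat_lit 810149), .ofNat (nat_lit 959989), .ofNat (nat_lit 778503), .ofNat (nat_lit 921335), .ofNat (nat_lit 799922), .ofNat (nat_lit 942753)⟩, ⟨.ofNat (nat_lit 104343), .ofNat (nat_lit 254209), .ofNat (nat_lit 147057), .ofNat (nat_lit 296923), .ofNat (nat_lit 114284), .ofNat (nat_lit 257141), .ofNat (nat_lit 157141), .ofNat (nat_lit 299999)⟩⟩, [⟨nat_lit 10, nat_lit 100, nat_lit 21, nat_lit 94, nat_lit 16825533⟩, ⟨nat_lit 22, nat_lit 62, nat_lit 100, nat_lit 94, nat_lit 77908236⟩]⟩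
noncomputable def p056_l85 : Lf2 := ⟨nat_lit 0, nat_lit 10, [nat_lit 0, nat_lit 5, nat_lit 5, nat_lit 20], false, nat_lit 80, nat_lit 160, nat_lit 0, nat_lit 320, ⟨nat_lit 190, nat_lit 810, nat_lit 0, nat_lit 8, nat_lit 342, nat_lit 810, nat_lit 84, nat_lit 0, nat_lit 0, nat_lit 0, nat_lit 0, nat_lit 0, nat_lit 36905877, nat_lit 27151459, nat_lit 2942664, nat_lit 4359428, true, true⟩,
 nat_lit 0, nat_lit 0, nat_lit 2351, nat_lit 0, nat_lit 4097, nat_lit 1368, nat_lit 0, nat_lit 0, nat_lit 0, nat_lit 184, nat_lit 0, nat_lit 0, nat_lit 0, nat_lit 0, nat_lit 0, nat_lit 675600, nat_lit 0, nat_lit 0, [(nat_lit 15, [(nat_lit 1, nat_lit 224), (nat_lit 2, nat_lit 586)])],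
 ⟨p056_k11, nat_lit 0, nat_lit 0, nat_lit 138, nat_lit 0, nat_lit 0, [nat_lit 2314674401, nat_lit 2329118134, nat_lit 1624144800], [], [nat_lit 24323661369, nat_lit 25196572133, nat_lit 28581103840, nat_lit 29421129052, nat_lit 24583117891, nat_lit 25372940041, nat_lit 28370714731, nat_lit 29040311591], nat_lit 0, nat_lit 0, nat_lit 0, nat_lit 0, nat_lit 0, nat_lit 0, [], [nat_lit 18, nat_lit 40, nat_lit 40, nat_lit 80, nat_lit 2, nat_lit 249, nat_lit 40, nat_lit 7]⟩, ⟨p056_k20, nat_lit 0, nat_lit 0, nat_lit 806, nat_lit 0, nat_lit 1401753, [nat_lit 890720000, nat_lit 1513920000, nat_lit 1869980000], [], [nat_lit 7219054824, nat_lit 7243467848, nat_lit 7500875592, nat_lit 7511333952, nat_lit 6490989568, nat_lit 6489547544, nat_lit 6635661876, nat_lit 6624683752], nat_lit 1271250, nat_lit 1271250, nat_lit 1271250, nat_lit 1271250, nat_lit 0, nat_lit 2260000, [nat_lit 1100000, nat_lit 1785000, nat_lit 1271250], [nat_lit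 29, nat_lit 40, nat_lit 40, nat_lit 80, nat_lit 17, nat_lit 373, nat_lit 150, nat_lit 10]⟩,
 ⟨nat_lit 4472, nat_lit 5000, ⟨.ofNat (nat_lit 778519), .ofNat (nat_lit 921367), .ofNat (nat_lit 799935), .ofNat (nat_lit 942783), .ofNat (nat_lit 768581), .ofNat (nat_lit 904528), .ofNat (nat_lit 790136), .ofNat (nat_lit 926083)⟩, ⟨.ofNat (nat_lit 114284), .ofNat (nat_lit 257141), .ofNat (nat_lit 157141), .ofNat (nat_lit 299999), .ofNat (nat_lit 123532), .ofNat (nat_lit 259489), .ofNat (nat_lit 166665), .ofNat (nat_lit 302621)⟩⟩, [⟨nat_lit 13, nat_lit 89, nat_lit 24, nat_lit 100, nat_lit 5169574⟩, ⟨nat_lit 10, nat_lit 100, nat_lit 21, nat_lit 94, nat_lit 108170987⟩]⟩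
noncomputable def b_V_700_600_10_2 : St := ⟨true, nat_lit 0, nat_lit 1, nat_lit 1, nat_lit 80, nat_lit 280, nat_lit 320, nat_lit 240, nat_lit 280, nat_lit 240, nat_lit 400, nat_lit 40, nat_lit 80, nat_lit 0, nat_lit 160, nat_lit 0, nat_lit 336, nat_lit 0, nat_lit 40, nat_lit 0, nat_lit 0, nat_lit 0, nat_lit 0⟩
theorem d_V_700_600_10_2 (h : EB TB.env) : Dead b_V_700_600_10_2 := chkB_sound0 h (T :=
(.spl (nat_lit 2) (nat_lit 320)
(.spl (nat_lit 1) (nat_lit 260)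
(.spl (nat_lit 0) (nat_lit 300)
(.leaf p056_l70)
(.leaf p056_l71))
(.trX (nat_lit 19) (nat_lit 100) (nat_lit 85) (nat_lit 84) (nat_lit 320) (.spl (nat_lit 0) (nat_lit 300)
(.leaf p056_l72)
(.leaf p056_l73))))
(.spl (nat_lit 1) (nat_lit 260)
(.spl (nat_lit 0) (nat_lit 300)
(.spl (nat_lit 1) (nat_lit 250)
(.spl (nat_lit 4) (nat_lit 80)
(.trX (nat_lit 22) (nat_lit 83) (nat_lit 100) (nat_lit 83) (nat_lit 260) (.leaf p056_l74))
(.leaf p056_l75))
(.trX (nat_lit 19) (nat_lit 100) (nat_lit 81) (nat_lit 83) (nat_lit 328) (.leaf p056_l76)))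
(.trX (nat_lit 13) (nat_lit 91) (nat_lit 23) (nat_lit 100) (nat_lit 396) (.spl (nat_lit 4) (nat_lit 80)
(.trX (nat_lit 22) (nat_lit 83) (nat_lit 100) (nat_lit 83) (nat_lit 260) (.spl (nat_lit 1) (nat_lit 250)
(.spl (nat_lit 2) (nat_lit 360)
(.leaf p056_l77)
(.trX (nat_lit 22) (nat_lit 60) (nat_lit 100) (nat_lit 80) (nat_lit 200) (.leaf p056_l78)))
(.leaf p056_l79)))
(.leaf p056_l80))))
(.trX (nat_lit 19) (nat_lit 100) (nat_lit 85) (nat_lit 84) (nat_lit 320) (.spl (nat_lit 4) (nat_lit 80)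
(.trX (nat_lit 22) (nat_lit 83) (nat_lit 100) (nat_lit 83) (nat_lit 260) (.spl (nat_lit 0) (nat_lit 300)
(.leaf p056_l81)
(.spl (nat_lit 0) (nat_lit 310)
(.leaf p056_l82)
(.leaf p056_l83))))
(.spl (nat_lit 0) (nat_lit 300)
(.leaf p056_l84)
(.leaf p056_l85))))))) (by decide +kernel)
noncomputable def p056_l86 : Lf2 := ⟨nat_lit 0, nat_lit 10, [nat_lit 0, nat_lit 5, nat_lit 5, nat_lit 20], false, nat_lit 160, nat_lit 300, nat_lit 0, nat_lit 336, ⟨nat_lit 119, nat_lit 881, nat_lit 0, nat_lit 6, nat_lit 285, nat_lit 881, nat_lit 162, nat_lit 0, nat_lit 0, nat_lit 0, nat_lit 0, nat_lit 0, nat_lit 38316383, nat_lit 20398531, nat_lit 8285086, nat_lit 5048473, true, true⟩,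
 nat_lit 0, nat_lit 0, nat_lit 2083, nat_lit 0, nat_lit 3789, nat_lit 1102, nat_lit 0, nat_lit 0, nat_lit 0, nat_lit 101, nat_lit 0, nat_lit 0, nat_lit 0, nat_lit 0, nat_lit 0, nat_lit 352400, nat_lit 0, nat_lit 0, [(nat_lit 12, [(nat_lit 1, nat_lit 881)])],
 ⟨p056_k0, nat_lit 0, nat_lit 0, nat_lit 50, nat_lit 0, nat_lit 0, [nat_lit 2212818400, nat_lit 3141127200, nat_lit 3493866400], [], [nat_lit 17322355856, nat_lit 17948902152, nat_lit 21658300700, nat_lit 22172624997, nat_lit 22806269542, nat_lit 23276371618, nat_lit 26044679584, nat_lit 26435087185], nat_lit 0, nat_lit 0, nat_lit 0, nat_lit 0, nat_lit 0, nat_lit 0, [], [nat_lit 8, nat_lit 40, nat_lit 40, nat_lit 80, nat_lit 1, nat_lit 401, nat_lit 175, nat_lit 11]⟩, ⟨p056_k22, nat_lit 0, nat_lit 0, nat_lit 764, nat_lit 0, nat_lit 1131632, [nat_lit 557872000, nat_lit 948192000, nat_lit 1412768000], [], [nat_lit 4417636544, nat_lit 4477379904, nat_lit 4567901948,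 nat_lit 4602031472, nat_lit 3787362111, nat_lit 3787137754, nat_lit 3812323441, nat_lit 3795960539], nat_lit 1271250, nat_lit 1271250, nat_lit 1271250, nat_lit 1271250, nat_lit 0, nat_lit 2373000, [nat_lit 1100000, nat_lit 1785000, nat_lit 1271250], [nat_lit 21, nat_lit 40, nat_lit 40, nat_lit 80, nat_lit 14, nat_lit 483, nat_lit 250, nat_lit 12]⟩,
 ⟨nat_lit 5244, nat_lit 5478, ⟨.ofNat (nat_lit 617638), .ofNat (nat_lit 767497), .ofNat (nat_lit 660348), .ofNat (nat_lit 810206), .ofNat (nat_lit 615933), .ofNat (nat_lit 762268), .ofNat (nat_lit 658700), .ofNat (nat_lit 805035)⟩, ⟨.ofNat (nat_lit 254209), .ofNat (nat_lit 516475), .ofNat (nat_lit 296923), .ofNat (nat_lit 559189), .ofNat (nat_lit 255744), .ofNat (nat_lit 511843), .ofNat (nat_lit 298515), .ofNat (nat_lit 554614)⟩⟩, [⟨nat_lit 16, nat_lit 100, nat_lit 95, nat_lit 87, nat_lit 165984713⟩, ⟨nat_lit 7, nat_lit 92, nat_lit 100, nat_lit 75, nat_lit 14038152⟩]⟩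
noncomputable def p056_l87 : Lf2 := ⟨nat_lit 0, nat_lit 10, [nat_lit 0, nat_lit 5, nat_lit 5, nat_lit 20], false, nat_lit 160, nat_lit 292, nat_lit 0, nat_lit 336, ⟨nat_lit 86, nat_lit 914, nat_lit 0, nat_lit 6, nat_lit 284, nat_lit 914, nat_lit 159, nat_lit 0, nat_lit 0, nat_lit 0, nat_lit 0, nat_lit 0, nat_lit 38603317, nat_lit 20347690, nat_lit 8048993, nat_lit 5013726, true, true⟩,
 nat_lit 0, nat_lit 0, nat_lit 1505, nat_lit 0, nat_lit 3923, nat_lit 796, nat_lit 0, nat_lit 0, nat_lit 0, nat_lit 72, nat_lit 0, nat_lit 0, nat_lit 0, nat_lit 0, nat_lit 0, nat_lit 285500, nat_lit 0, nat_lit 0, [(nat_lit 12, [(nat_lit 0, nat_lit 534), (nat_lit 1, nat_lit 380)])],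
 ⟨p056_k28, nat_lit 0, nat_lit 0, nat_lit 51, nat_lit 0, nat_lit 0, [nat_lit 2330620000, nat_lit 3106912800, nat_lit 3426237600], [], [nat_lit 17924123464, nat_lit 18561023136, nat_lit 22209232379, nat_lit 22730976658, nat_lit 22933520184, nat_lit 23419560996, nat_lit 26192785947, nat_lit 26629810797], nat_lit 0, nat_lit 0, nat_lit 0, nat_lit 0, nat_lit 0, nat_lit 0, [], [nat_lit 18, nat_lit 40, nat_lit 40, nat_lit 80, nat_lit 2, nat_lit 289, nat_lit 75, nat_lit 8]⟩, ⟨p056_k22, nat_lit 0, nat_lit 0, nat_lit 845, nat_lit 0, nat_lit 1281647, [nat_lit 403168000, nat_lit 685248000, nat_lit 1020992000], [], [nat_lit 3347202296, nat_lit 3364022032, nat_lit 3400045720, nat_lit 3402945712, nat_lit 2812638588, nat_lit 2796617800, nat_lit 2796664138, nat_lit 2771605095], nat_lit 1271250, nat_lit 1271250, nat_lit 1271250, nat_lit 1271250, nat_lit 0, nat_lit 2373000, [nat_lit 1100000, nat_lit 1785000, nat_lit 1271250], [nat_lit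 21, nat_lit 40, nat_lit 40, nat_lit 80, nat_lit 14, nat_lit 483, nat_lit 250, nat_lit 12]⟩,
 ⟨nat_lit 5000, nat_lit 5245, ⟨.ofNat (nat_lit 615934), .ofNat (nat_lit 762271), .ofNat (nat_lit 658699), .ofNat (nat_lit 805036), .ofNat (nat_lit 614277), .ofNat (nat_lit 757129), .ofNat (nat_lit 657129), .ofNat (nat_lit 799980)⟩, ⟨.ofNat (nat_lit 255744), .ofNat (nat_lit 497209), .ofNat (nat_lit 298515), .ofNat (nat_lit 539979), .ofNat (nat_lit 257141), .ofNat (nat_lit 492856), .ofNat (nat_lit 299999), .ofNat (nat_lit 535713)⟩⟩, [⟨nat_lit 16, nat_lit 100, nat_lit 100, nat_lit 89, nat_lit 164193014⟩, ⟨nat_lit 19, nat_lit 100, nat_lit 92, nat_lit 75, nat_lit 9038054⟩]⟩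
noncomputable def p056_l88 : Lf2 := ⟨nat_lit 0, nat_lit 10, [nat_lit 0, nat_lit 5, nat_lit 5, nat_lit 20], false, nat_lit 160, nat_lit 280, nat_lit 0, nat_lit 336, ⟨nat_lit 62, nat_lit 938, nat_lit 0, nat_lit 6, nat_lit 282, nat_lit 938, nat_lit 154, nat_lit 0, nat_lit 0, nat_lit 0, nat_lit 0, nat_lit 0, nat_lit 39023284, nat_lit 20269592, nat_lit 7707124, nat_lit 4961724, true, true⟩,
 nat_lit 0, nat_lit 0, nat_lit 1091, nat_lit 0, nat_lit 3970, nat_lit 577, nat_lit 0, nat_lit 0, nat_lit 0, nat_lit 51, nat_lit 0, nat_lit 0, nat_lit 0, nat_lit 0, nat_lit 0, nat_lit 234500, nat_lit 0, nat_lit 0, [(nat_lit 15, [(nat_lit 0, nat_lit 938)])],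
 ⟨p056_k11, nat_lit 0, nat_lit 0, nat_lit 54, nat_lit 0, nat_lit 0, [nat_lit 2378143200, nat_lit 2943362401, nat_lit 3382889199], [], [nat_lit 18562168240, nat_lit 19843230400, nat_lit 22752623820, nat_lit 23801317440, nat_lit 22894233880, nat_lit 23900010520, nat_lit 26179013510, nat_lit 27085190440], nat_lit 0, nat_lit 0, nat_lit 0, nat_lit 0, nat_lit 0, nat_lit 0, [], [nat_lit 18, nat_lit 40, nat_lit 40, nat_lit 80, nat_lit 2, nat_lit 289, nat_lit 75, nat_lit 8]⟩, ⟨p056_k22, nat_lit 0, nat_lit 0, nat_lit 996, nat_lit 0, nat_lit 1610722, [nat_lit 290656000, nat_lit 494016000, nat_lit 736064000], [], [nat_lit 2483917280, nat_lit 2481515828, nat_lit 2491273372, nat_lit 2481158388, nat_lit 2052684965, nat_lit 2032027040, nat_lit 2021667252, nat_lit 1995869037], nat_lit 1271250, nat_lit 1271250, nat_lit 1271250, nat_lit 1271250, nat_lit 0, nat_lit 2373000, [nat_lit 1100000, nat_lit 1785000, nat_lit 1271250], [nat_lit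 21, nat_lit 40, nat_lit 40, nat_lit 80, nat_lit 14, nat_lit 483, nat_lit 250, nat_lit 12]⟩,
 ⟨nat_lit 4472, nat_lit 5000, ⟨.ofNat (nat_lit 614256), .ofNat (nat_lit 757103), .ofNat (nat_lit 657088), .ofNat (nat_lit 799935), .ofNat (nat_lit 611081), .ofNat (nat_lit 747027), .ofNat (nat_lit 654189), .ofNat (nat_lit 790136)⟩, ⟨.ofNat (nat_lit 257141), .ofNat (nat_lit 471427), .ofNat (nat_lit 299999), .ofNat (nat_lit 514284), .ofNat (nat_lit 259489), .ofNat (nat_lit 463423), .ofNat (nat_lit 302621), .ofNat (nat_lit 506556)⟩⟩, [⟨nat_lit 16, nat_lit 94, nat_lit 100, nat_lit 87, nat_lit 169019844⟩, ⟨nat_lit 19, nat_lit 100, nat_lit 92, nat_lit 75, nat_lit 5956680⟩]⟩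
noncomputable def p056_l89 : Lf2 := ⟨nat_lit 0, nat_lit 10, [nat_lit 0, nat_lit 5, nat_lit 5, nat_lit 20], false, nat_lit 160, nat_lit 300, nat_lit 16, nat_lit 336, ⟨nat_lit 86, nat_lit 914, nat_lit 0, nat_lit 8, nat_lit 321, nat_lit 914, nat_lit 161, nat_lit 0, nat_lit 0, nat_lit 0, nat_lit 0, nat_lit 0, nat_lit 35577690, nat_lit 23643673, nat_lit 7778637, nat_lit 5114821, true, true⟩,
 nat_lit 0, nat_lit 0, nat_lit 1467, nat_lit 0, nat_lit 3763, nat_lit 776, nat_lit 0, nat_lit 0, nat_lit 0, nat_lit 65, nat_lit 0, nat_lit 0, nat_lit 0, nat_lit 0, nat_lit 0, nat_lit 228500, nat_lit 0, nat_lit 0, [(nat_lit 12, [(nat_lit 0, nat_lit 914)]), (nat_lit 15, [(nat_lit 0, nat_lit 914)])],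
 ⟨p056_k0, nat_lit 0, nat_lit 0, nat_lit 70, nat_lit 0, nat_lit 0, [nat_lit 2442948000, nat_lit 3237456000, nat_lit 4048575200], [], [nat_lit 21905624100, nat_lit 23957162496, nat_lit 24366570924, nat_lit 26192275496, nat_lit 26286767728, nat_lit 27845072029, nat_lit 28177553244, nat_lit 29572598612], nat_lit 0, nat_lit 0, nat_lit 0, nat_lit 0, nat_lit 0, nat_lit 0, [], [nat_lit 8, nat_lit 40, nat_lit 40, nat_lit 80, nat_lit 1, nat_lit 289, nat_lit 75, nat_lit 7]⟩, ⟨p056_k22, nat_lit 0, nat_lit 0, nat_lit 869, nat_lit 0, nat_lit 1417292, [nat_lit 403168000, nat_lit 685248000, nat_lit 1020992000], [], [nat_lit 3439990865, nat_lit 3441837504, nat_lit 3492444380, nat_lit 3490685561, nat_lit 2927902074, nat_lit 2916298296, nat_lit 2943523826, nat_lit 2929505322], nat_lit 1271250, nat_lit 1271250, nat_lit 1271250, nat_lit 1271250, nat_lit 88400, nat_lit 2396400, [nat_lit 1100000, nat_lit 1785000, nat_lit 1271250], [nat_lit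 21, nat_lit 40, nat_lit 40, nat_lit 80, nat_lit 14, nat_lit 373, nat_lit 150, nat_lit 9]⟩,
 ⟨nat_lit 4472, nat_lit 5478, ⟨.ofNat (nat_lit 767319), .ofNat (nat_lit 842216), .ofNat (nat_lit 788632), .ofNat (nat_lit 863529), .ofNat (nat_lit 746873), .ofNat (nat_lit 814816), .ofNat (nat_lit 768395), .ofNat (nat_lit 836338)⟩, ⟨.ofNat (nat_lit 254209), .ofNat (nat_lit 516475), .ofNat (nat_lit 296923), .ofNat (nat_lit 559189), .ofNat (nat_lit 259489), .ofNat (nat_lit 497412), .ofNat (nat_lit 302621), .ofNat (nat_lit 540545)⟩⟩, [⟨nat_lit 16, nat_lit 100, nat_lit 95, nat_lit 87, nat_lit 152132531⟩, ⟨nat_lit 19, nat_lit 100, nat_lit 76, nat_lit 82, nat_lit 9522181⟩]⟩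
noncomputable def p056_l90 : Lf2 := ⟨nat_lit 0, nat_lit 10, [nat_lit 0, nat_lit 5, nat_lit 5, nat_lit 20], false, nat_lit 160, nat_lit 300, nat_lit 16, nat_lit 320, ⟨nat_lit 188, nat_lit 812, nat_lit 0, nat_lit 8, nat_lit 330, nat_lit 812, nat_lit 161, nat_lit 0, nat_lit 0, nat_lit 0, nat_lit 0, nat_lit 0, nat_lit 34943088, nat_lit 24382100, nat_lit 7674812, nat_lit 5123408, true, true⟩,
 nat_lit 0, nat_lit 0, nat_lit 2292, nat_lit 0, nat_lit 3631, nat_lit 1334, nat_lit 0, nat_lit 0, nat_lit 0, nat_lit 326, nat_lit 0, nat_lit 0, nat_lit 0, nat_lit 0, nat_lit 0, nat_lit 324800, nat_lit 0, nat_lit 0, [(nat_lit 12, [(nat_lit 1, nat_lit 812)]), (nat_lit 15, [(nat_lit 1, nat_lit 812)])],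
 ⟨p056_k0, nat_lit 0, nat_lit 0, nat_lit 70, nat_lit 0, nat_lit 0, [nat_lit 2296556800, nat_lit 3384614400, nat_lit 3991052800], [], [nat_lit 21846524500, nat_lit 23868825952, nat_lit 24266888188, nat_lit 26069222952, nat_lit 26201089136, nat_lit 27742507073, nat_lit 28065774028, nat_lit 29448103044], nat_lit 0, nat_lit 0, nat_lit 0, nat_lit 0, nat_lit 0, nat_lit 0, [], [nat_lit 8, nat_lit 40, nat_lit 40, nat_lit 80, nat_lit 1, nat_lit 289, nat_lit 75, nat_lit 7]⟩, ⟨p056_k20, nat_lit 0, nat_lit 0, nat_lit 795, nat_lit 0, nat_lit 1401753, [nat_lit 881344000, nat_lit 1497984000, nat_lit 1850296000], [], [nat_lit 6462564685, nat_lit 6486566317, nat_lit 6587274576, nat_lit 6604632026, nat_lit 5874973060, nat_lit 5883670920, nat_lit 5966403868, nat_lit 5973834344], nat_lit 1271250, nat_lit 1271250, nat_lit 1271250, nat_lit 1271250, nat_lit 88400, nat_lit 2281000, [nat_lit 1100000, nat_lit 1785000, nat_lit 1271250],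 [nat_lit 29, nat_lit 40, nat_lit 40, nat_lit 80, nat_lit 17, nat_lit 373, nat_lit 150, nat_lit 10]⟩,
 ⟨nat_lit 4472, nat_lit 5478, ⟨.ofNat (nat_lit 788632), .ofNat (nat_lit 863529), .ofNat (nat_lit 809944), .ofNat (nat_lit 884842), .ofNat (nat_lit 768395), .ofNat (nat_lit 836338), .ofNat (nat_lit 789917), .ofNat (nat_lit 857861)⟩, ⟨.ofNat (nat_lit 254209), .ofNat (nat_lit 516475), .ofNat (nat_lit 296923), .ofNat (nat_lit 559189), .ofNat (nat_lit 259489), .ofNat (nat_lit 497412), .ofNat (nat_lit 302621), .ofNat (nat_lit 540545)⟩⟩, [⟨nat_lit 4, nat_lit 100, nat_lit 90, nat_lit 74, nat_lit 241048210⟩, ⟨nat_lit 19, nat_lit 100, nat_lit 85, nat_lit 84, nat_lit 30047643⟩]⟩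
noncomputable def p056_l91 : Lf2 := ⟨nat_lit 0, nat_lit 10, [nat_lit 0, nat_lit 5, nat_lit 5, nat_lit 20], false, nat_lit 160, nat_lit 240, nat_lit 48, nat_lit 336, ⟨nat_lit 73, nat_lit 927, nat_lit 0, nat_lit 9, nat_lit 353, nat_lit 927, nat_lit 140, nat_lit 0, nat_lit 0, nat_lit 0, nat_lit 0, nat_lit 0, nat_lit 34058095, nat_lit 26888710, nat_lit 6053195, nat_lit 4946458, true, true⟩,
 nat_lit 0, nat_lit 0, nat_lit 1182, nat_lit 0, nat_lit 4687, nat_lit 625, nat_lit 0, nat_lit 0, nat_lit 0, nat_lit 49, nat_lit 0, nat_lit 0, nat_lit 0, nat_lit 0, nat_lit 0, nat_lit 231750, nat_lit 0, nat_lit 0, [(nat_lit 12, [(nat_lit 0, nat_lit 927)])],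
 ⟨p056_k0, nat_lit 0, nat_lit 0, nat_lit 86, nat_lit 0, nat_lit 0, [nat_lit 2431014000, nat_lit 3194608000, nat_lit 3967283600], [], [nat_lit 25697911760, nat_lit 26576192040, nat_lit 28288777968, nat_lit 29053273932, nat_lit 27175953664, nat_lit 27934247994, nat_lit 29441247248, nat_lit 30102612936], nat_lit 0, nat_lit 0, nat_lit 0, nat_lit 0, nat_lit 0, nat_lit 0, [], [nat_lit 8, nat_lit 40, nat_lit 40, nat_lit 80, nat_lit 1, nat_lit 272, nat_lit 60, nat_lit 6]⟩, ⟨p056_k22, nat_lit 0, nat_lit 0, nat_lit 688, nat_lit 0, nat_lit 1071484, [nat_lit 342224000, nat_lit 581664000, nat_lit 866656000], [], [nat_lit 2920002956, nat_lit 2924441877, nat_lit 2998820259, nat_lit 3001940930, nat_lit 2646732308, nat_lit 2641270232, nat_lit 2689542987, nat_lit 2684099489], nat_lit 1271250, nat_lit 1271250, nat_lit 1271250, nat_lit 1271250, nat_lit 279600, nat_lit 2443200, [nat_lit 1100000, nat_lit 1785000, nat_lit 1271250], [nat_lit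 21, nat_lit 40, nat_lit 40, nat_lit 80, nat_lit 14, nat_lit 373, nat_lit 150, nat_lit 9]⟩,
 ⟨nat_lit 5000, nat_lit 5478, ⟨.ofNat (nat_lit 842374), .ofNat (nat_lit 917295), .ofNat (nat_lit 863722), .ofNat (nat_lit 938642), .ofNat (nat_lit 828500), .ofNat (nat_lit 899915), .ofNat (nat_lit 849919), .ofNat (nat_lit 921335)⟩, ⟨.ofNat (nat_lit 254209), .ofNat (nat_lit 404075), .ofNat (nat_lit 296923), .ofNat (nat_lit 446789), .ofNat (nat_lit 257141), .ofNat (nat_lit 399998), .ofNat (nat_lit 299999), .ofNat (nat_lit 442856)⟩⟩, [⟨nat_lit 13, nat_lit 92, nat_lit 22, nat_lit 100, nat_lit 174119696⟩, ⟨nat_lit 22, nat_lit 44, nat_lit 90, nat_lit 100, nat_lit 20773098⟩]⟩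
noncomputable def p056_l92 : Lf2 := ⟨nat_lit 0, nat_lit 10, [nat_lit 0, nat_lit 5, nat_lit 5, nat_lit 20], false, nat_lit 160, nat_lit 240, nat_lit 48, nat_lit 336, ⟨nat_lit 57, nat_lit 943, nat_lit 0, nat_lit 9, nat_lit 346, nat_lit 943, nat_lit 140, nat_lit 0, nat_lit 0, nat_lit 0, nat_lit 0, nat_lit 0, nat_lit 34635481, nat_lit 26253636, nat_lit 6110883, nat_lit 4942654, true, true⟩,
 nat_lit 0, nat_lit 0, nat_lit 928, nat_lit 0, nat_lit 4425, nat_lit 491, nat_lit 0, nat_lit 0, nat_lit 0, nat_lit 37, nat_lit 0, nat_lit 0, nat_lit 0, nat_lit 0, nat_lit 0, nat_lit 235750, nat_lit 0, nat_lit 0, [(nat_lit 15, [(nat_lit 0, nat_lit 943)])],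
 ⟨p056_k11, nat_lit 0, nat_lit 0, nat_lit 88, nat_lit 0, nat_lit 0, [nat_lit 2373325200, nat_lit 2925736400, nat_lit 3358656200], [], [nat_lit 26460170850, nat_lit 27289520400, nat_lit 28595705870, nat_lit 29357574060, nat_lit 27812027750, nat_lit 28556805500, nat_lit 29711947596, nat_lit 30373254351], nat_lit 0, nat_lit 0, nat_lit 0, nat_lit 0, nat_lit 0, nat_lit 0, [], [nat_lit 18, nat_lit 40, nat_lit 40, nat_lit 80, nat_lit 2, nat_lit 272, nat_lit 60, nat_lit 7]⟩, ⟨p056_k22, nat_lit 0, nat_lit 0, nat_lit 842, nat_lit 0, nat_lit 1417292, [nat_lit 267216000, nat_lit 454176000, nat_lit 676704000], [], [nat_lit 2357065988, nat_lit 2356478974, nat_lit 2395852426, nat_lit 2393179075, nat_lit 2105108905, nat_lit 2096955636, nat_lit 2122870587, nat_lit 2113270081], nat_lit 1271250, nat_lit 1271250, nat_lit 1271250, nat_lit 1271250, nat_lit 279600, nat_lit 2443200, [nat_lit 1100000, nat_lit 1785000, nat_lit 1271250],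 [nat_lit 21, nat_lit 40, nat_lit 40, nat_lit 80, nat_lit 14, nat_lit 373, nat_lit 150, nat_lit 9]⟩,
 ⟨nat_lit 4472, nat_lit 5000, ⟨.ofNat (nat_lit 828527), .ofNat (nat_lit 892808), .ofNat (nat_lit 849943), .ofNat (nat_lit 914224), .ofNat (nat_lit 815001), .ofNat (nat_lit 876177), .ofNat (nat_lit 836555), .ofNat (nat_lit 897731)⟩, ⟨.ofNat (nat_lit 257141), .ofNat (nat_lit 399998), .ofNat (nat_lit 299999), .ofNat (nat_lit 442856), .ofNat (nat_lit 259489), .ofNat (nat_lit 395445), .ofNat (nat_lit 302621), .ofNat (nat_lit 438578)⟩⟩, [⟨nat_lit 13, nat_lit 91, nat_lit 23, nat_lit 100, nat_lit 185592465⟩, ⟨nat_lit 22, nat_lit 46, nat_lit 89, nat_lit 100, nat_lit 14090322⟩]⟩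
noncomputable def p056_l93 : Lf2 := ⟨nat_lit 0, nat_lit 10, [nat_lit 0, nat_lit 5, nat_lit 5, nat_lit 20], false, nat_lit 240, nat_lit 300, nat_lit 112, nat_lit 336, ⟨nat_lit 165, nat_lit 835, nat_lit 0, nat_lit 9, nat_lit 355, nat_lit 835, nat_lit 192, nat_lit 0, nat_lit 0, nat_lit 0, nat_lit 0, nat_lit 0, nat_lit 31991933, nat_lit 25614863, nat_lit 9393204, nat_lit 5362366, true, true⟩,
 nat_lit 0, nat_lit 0, nat_lit 2630, nat_lit 0, nat_lit 3519, nat_lit 1392, nat_lit 0, nat_lit 0, nat_lit 0, nat_lit 114, nat_lit 0, nat_lit 0, nat_lit 0, nat_lit 0, nat_lit 0, nat_lit 334000, nat_lit 0, nat_lit 0, [(nat_lit 12, [(nat_lit 1, nat_lit 835)])],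
 ⟨p056_k0, nat_lit 0, nat_lit 0, nat_lit 78, nat_lit 0, nat_lit 0, [nat_lit 2268644000, nat_lit 3303452000, nat_lit 3825324000], [], [nat_lit 26054646524, nat_lit 26444569732, nat_lit 28273064948, nat_lit 28617978039, nat_lit 28067228972, nat_lit 28410113818, nat_lit 30042289844, nat_lit 30346224372], nat_lit 0, nat_lit 0, nat_lit 0, nat_lit 0, nat_lit 0, nat_lit 0, [], [nat_lit 8, nat_lit 40, nat_lit 40, nat_lit 80, nat_lit 1, nat_lit 289, nat_lit 75, nat_lit 7]⟩, ⟨p056_k22, nat_lit 0, nat_lit 0, nat_lit 565, nat_lit 0, nat_lit 913975, [nat_lit 773520000, nat_lit 1314720000, nat_lit 1958880000], [], [nat_lit 6037758252, nat_lit 6056330049, nat_lit 6235667700, nat_lit 6244948363, nat_lit 5909828285, nat_lit 5912171154, nat_lit 6056816350, nat_lit 6051593907], nat_lit 1271250, nat_lit 1271250, nat_lit 1271250, nat_lit 1271250, nat_lit 719601, nat_lit 2536800, [nat_lit 1100000, nat_lit 1785000, nat_lit 1271250],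 [nat_lit 21, nat_lit 40, nat_lit 40, nat_lit 80, nat_lit 14, nat_lit 373, nat_lit 150, nat_lit 9]⟩,
 ⟨nat_lit 5244, nat_lit 5478, ⟨.ofNat (nat_lit 842426), .ofNat (nat_lit 917355), .ofNat (nat_lit 863781), .ofNat (nat_lit 938710), .ofNat (nat_lit 835436), .ofNat (nat_lit 908603), .ofNat (nat_lit 856819), .ofNat (nat_lit 929986)⟩, ⟨.ofNat (nat_lit 404075), .ofNat (nat_lit 516475), .ofNat (nat_lit 446789), .ofNat (nat_lit 559189), .ofNat (nat_lit 402086), .ofNat (nat_lit 511843), .ofNat (nat_lit 444857), .ofNat (nat_lit 554614)⟩⟩, [⟨nat_lit 13, nat_lit 93, nat_lit 19, nat_lit 100, nat_lit 140605210⟩, ⟨nat_lit 16, nat_lit 100, nat_lit 95, nat_lit 87, nat_lit 76626884⟩, ⟨nat_lit 4, nat_lit 100, nat_lit 97, nat_lit 76, nat_lit 145866107⟩, ⟨nat_lit 19, nat_lit 100, nat_lit 88, nat_lit 74, nat_lit 42503926⟩]⟩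
noncomputable def p056_l94 : Lf2 := ⟨nat_lit 0, nat_lit 10, [nat_lit 0, nat_lit 5, nat_lit 5, nat_lit 20], false, nat_lit 240, nat_lit 292, nat_lit 112, nat_lit 336, ⟨nat_lit 135, nat_lit 865, nat_lit 0, nat_lit 9, nat_lit 352, nat_lit 865, nat_lit 188, nat_lit 0, nat_lit 0, nat_lit 0, nat_lit 0, nat_lit 0, nat_lit 32361622, nat_lit 25481822, nat_lit 9156556, nat_lit 5333573, true, true⟩,
 nat_lit 0, nat_lit 0, nat_lit 2161, nat_lit 0, nat_lit 3482, nat_lit 1144, nat_lit 0, nat_lit 0, nat_lit 0, nat_lit 94, nat_lit 0, nat_lit 0, nat_lit 0, nat_lit 0, nat_lit 0, nat_lit 346000, nat_lit 0, nat_lit 0, [(nat_lit 12, [(nat_lit 1, nat_lit 865)])],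
 ⟨p056_k28, nat_lit 0, nat_lit 0, nat_lit 79, nat_lit 0, nat_lit 0, [nat_lit 2232236000, nat_lit 3197588000, nat_lit 3395610000], [], [nat_lit 26421451096, nat_lit 26810137320, nat_lit 28584860042, nat_lit 28928878140, nat_lit 28121041160, nat_lit 28469260563, nat_lit 30080340753, nat_lit 30389432916], nat_lit 0, nat_lit 0, nat_lit 0, nat_lit 0, nat_lit 0, nat_lit 0, [], [nat_lit 18, nat_lit 40, nat_lit 40, nat_lit 80, nat_lit 2, nat_lit 203, nat_lit 0, nat_lit 5]⟩, ⟨p056_k22, nat_lit 0, nat_lit 0, nat_lit 649, nat_lit 0, nat_lit 1071484, [nat_lit 632880000, nat_lit 1075680000, nat_lit 1602720000], [], [nat_lit 4915598724, nat_lit 4930649387, nat_lit 5077761404, nat_lit 5088261843, nat_lit 4813521002, nat_lit 4815248022, nat_lit 4933869504, nat_lit 4949761474], nat_lit 1271250, nat_lit 1271250, nat_lit 1271250, nat_lit 1271250, nat_lit 719601, nat_lit 2536800, [nat_lit 1100000, nat_lit 1785000, nat_lit 1271250],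 [nat_lit 21, nat_lit 40, nat_lit 40, nat_lit 80, nat_lit 14, nat_lit 373, nat_lit 150, nat_lit 9]⟩,
 ⟨nat_lit 5000, nat_lit 5245, ⟨.ofNat (nat_lit 835439), .ofNat (nat_lit 908607), .ofNat (nat_lit 856822), .ofNat (nat_lit 929990), .ofNat (nat_lit 828555), .ofNat (nat_lit 899980), .ofNat (nat_lit 849981), .ofNat (nat_lit 921407)⟩, ⟨.ofNat (nat_lit 402086), .ofNat (nat_lit 497209), .ofNat (nat_lit 444857), .ofNat (nat_lit 539979), .ofNat (nat_lit 399998), .ofNat (nat_lit 492856), .ofNat (nat_lit 442856), .ofNat (nat_lit 535713)⟩⟩, [⟨nat_lit 13, nat_lit 91, nat_lit 25, nat_lit 100, nat_lit 158572210⟩, ⟨nat_lit 16, nat_lit 100, nat_lit 100, nat_lit 89, nat_lit 188871969⟩, ⟨nat_lit 19, nat_lit 100, nat_lit 76, nat_lit 82, nat_lit 31513109⟩]⟩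
noncomputable def p056_l95 : Lf2 := ⟨nat_lit 0, nat_lit 10, [nat_lit 0, nat_lit 5, nat_lit 5, nat_lit 20], false, nat_lit 240, nat_lit 280, nat_lit 112, nat_lit 336, ⟨nat_lit 107, nat_lit 893, nat_lit 0, nat_lit 9, nat_lit 346, nat_lit 893, nat_lit 182, nat_lit 0, nat_lit 0, nat_lit 0, nat_lit 0, nat_lit 0, nat_lit 33007898, nat_lit 25161840, nat_lit 8830262, nat_lit 5289358, true, true⟩,
 nat_lit 0, nat_lit 0, nat_lit 1744, nat_lit 0, nat_lit 3408, nat_lit 923, nat_lit 0, nat_lit 0, nat_lit 0, nat_lit 72, nat_lit 0, nat_lit 0, nat_lit 0, nat_lit 0, nat_lit 0, nat_lit 357200, nat_lit 0, nat_lit 0, [(nat_lit 15, [(nat_lit 1, nat_lit 893)])],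
 ⟨p056_k11, nat_lit 0, nat_lit 0, nat_lit 79, nat_lit 0, nat_lit 0, [nat_lit 2155212600, nat_lit 2771645934, nat_lit 2927604666], [], [nat_lit 26757218680, nat_lit 27529643192, nat_lit 28646702152, nat_lit 29339955205, nat_lit 28027956992, nat_lit 28739047192, nat_lit 29781826859, nat_lit 30421269175], nat_lit 0, nat_lit 0, nat_lit 0, nat_lit 0, nat_lit 0, nat_lit 0, [], [nat_lit 18, nat_lit 40, nat_lit 40, nat_lit 80, nat_lit 2, nat_lit 203, nat_lit 0, nat_lit 5]⟩, ⟨p056_k22, nat_lit 0, nat_lit 0, nat_lit 804, nat_lit 0, nat_lit 1417292, [nat_lit 501616000, nat_lit 852576000, nat_lit 1270304000], [], [nat_lit 3996904305, nat_lit 4004579908, nat_lit 4096148260, nat_lit 4099001074, nat_lit 3841759286, nat_lit 3833450182, nat_lit 3898167067, nat_lit 3906957805], nat_lit 1271250, nat_lit 1271250, nat_lit 1271250, nat_lit 1271250, nat_lit 719601, nat_lit 2536800, [nat_lit 1100000, nat_lit 1785000, nat_lit 1271250],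 [nat_lit 21, nat_lit 40, nat_lit 40, nat_lit 80, nat_lit 14, nat_lit 373, nat_lit 150, nat_lit 9]⟩,
 ⟨nat_lit 4472, nat_lit 5000, ⟨.ofNat (nat_lit 828527), .ofNat (nat_lit 892808), .ofNat (nat_lit 849943), .ofNat (nat_lit 914224), .ofNat (nat_lit 815001), .ofNat (nat_lit 876177), .ofNat (nat_lit 836555), .ofNat (nat_lit 897731)⟩, ⟨.ofNat (nat_lit 399998), .ofNat (nat_lit 471427), .ofNat (nat_lit 442856), .ofNat (nat_lit 514284), .ofNat (nat_lit 395445), .ofNat (nat_lit 463423), .ofNat (nat_lit 438578), .ofNat (nat_lit 506556)⟩⟩, [⟨nat_lit 13, nat_lit 86, nat_lit 33, nat_lit 100, nat_lit 178799251⟩, ⟨nat_lit 16, nat_lit 94, nat_lit 100, nat_lit 87, nat_lit 199417084⟩, ⟨nat_lit 19, nat_lit 100, nat_lit 76, nat_lit 82, nat_lit 22627489⟩]⟩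
noncomputable def p056_l96 : Lf2 := ⟨nat_lit 0, nat_lit 10, [nat_lit 0, nat_lit 5, nat_lit 5, nat_lit 20], false, nat_lit 160, nat_lit 240, nat_lit 48, nat_lit 320, ⟨nat_lit 112, nat_lit 888, nat_lit 0, nat_lit 9, nat_lit 356, nat_lit 888, nat_lit 140, nat_lit 0, nat_lit 0, nat_lit 0, nat_lit 0, nat_lit 0, nat_lit 33818313, nat_lit 27173757, nat_lit 6007930, nat_lit 4944475, true, true⟩,
 nat_lit 0, nat_lit 0, nat_lit 1298, nat_lit 0, nat_lit 4674, nat_lit 755, nat_lit 0, nat_lit 0, nat_lit 0, nat_lit 193, nat_lit 0, nat_lit 0, nat_lit 0, nat_lit 0, nat_lit 0, nat_lit 222000, nat_lit 0, nat_lit 0, [(nat_lit 12, [(nat_lit 0, nat_lit 888)]), (nat_lit 15, [(nat_lit 0, nat_lit 888)])],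
 ⟨p056_k0, nat_lit 0, nat_lit 0, nat_lit 90, nat_lit 0, nat_lit 0, [nat_lit 2466816000, nat_lit 3323152001, nat_lit 4211158400], [], [nat_lit 25833443521, nat_lit 27588172641, nat_lit 28420571137, nat_lit 29948222193, nat_lit 27312444929, nat_lit 28827692249, nat_lit 29574685697, nat_lit 30896490849], nat_lit 0, nat_lit 0, nat_lit 0, nat_lit 0, nat_lit 0, nat_lit 0, [], [nat_lit 8, nat_lit 40, nat_lit 40, nat_lit 80, nat_lit 1, nat_lit 272, nat_lit 60, nat_lit 6]⟩, ⟨p056_k20, nat_lit 0, nat_lit 0, nat_lit 734, nat_lit 0, nat_lit 1314718, [nat_lit 525056000, nat_lit 892416000, nat_lit 1102304000], [], [nat_lit 3949864939, nat_lit 3958011130, nat_lit 4053856076, nat_lit 4059773856, nat_lit 3727037274, nat_lit 3729685268, nat_lit 3800874680, nat_lit 3808896440], nat_lit 1271250, nat_lit 1271250, nat_lit 1271250, nat_lit 1271250, nat_lit 279600, nat_lit 2323000, [nat_lit 1100000, nat_lit 1785000, nat_lit 1271250],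 [nat_lit 29, nat_lit 40, nat_lit 40, nat_lit 80, nat_lit 17, nat_lit 373, nat_lit 150, nat_lit 10]⟩,
 ⟨nat_lit 4472, nat_lit 5478, ⟨.ofNat (nat_lit 863529), .ofNat (nat_lit 938427), .ofNat (nat_lit 874186), .ofNat (nat_lit 949084), .ofNat (nat_lit 836338), .ofNat (nat_lit 904281), .ofNat (nat_lit 847100), .ofNat (nat_lit 915043)⟩, ⟨.ofNat (nat_lit 254209), .ofNat (nat_lit 404075), .ofNat (nat_lit 296923), .ofNat (nat_lit 446789), .ofNat (nat_lit 259489), .ofNat (nat_lit 395445), .ofNat (nat_lit 302621), .ofNat (nat_lit 438578)⟩⟩, [⟨nat_lit 13, nat_lit 92, nat_lit 20, nat_lit 100, nat_lit 183303052⟩, ⟨nat_lit 4, nat_lit 100, nat_lit 90, nat_lit 74, nat_lit 16894371⟩, ⟨nat_lit 7, nat_lit 95, nat_lit 100, nat_lit 76, nat_lit 22855199⟩]⟩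
noncomputable def p056_l97 : Lf2 := ⟨nat_lit 0, nat_lit 10, [nat_lit 0, nat_lit 5, nat_lit 5, nat_lit 20], false, nat_lit 160, nat_lit 240, nat_lit 48, nat_lit 308, ⟨nat_lit 316, nat_lit 684, nat_lit 0, nat_lit 9, nat_lit 364, nat_lit 684, nat_lit 140, nat_lit 0, nat_lit 0, nat_lit 0, nat_lit 0, nat_lit 0, nat_lit 33267846, nat_lit 27786896, nat_lit 5945258, nat_lit 4944278, true, true⟩,
 nat_lit 0, nat_lit 0, nat_lit 3416, nat_lit 0, nat_lit 4766, nat_lit 2080, nat_lit 0, nat_lit 0, nat_lit 0, nat_lit 454, nat_lit 0, nat_lit 0, nat_lit 0, nat_lit 0, nat_lit 0, nat_lit 684000, nat_lit 0, nat_lit 0, [(nat_lit 12, [(nat_lit 2, nat_lit 684)])],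
 ⟨p056_k0, nat_lit 0, nat_lit 0, nat_lit 86, nat_lit 0, nat_lit 0, [nat_lit 2634388801, nat_lit 3306337600, nat_lit 2908976000], [], [nat_lit 25817029033, nat_lit 26651022320, nat_lit 28380762624, nat_lit 29149332776, nat_lit 27239388352, nat_lit 28001758292, nat_lit 29523233664, nat_lit 30187413648], nat_lit 0, nat_lit 0, nat_lit 0, nat_lit 0, nat_lit 0, nat_lit 0, [], [nat_lit 8, nat_lit 40, nat_lit 40, nat_lit 80, nat_lit 1, nat_lit 272, nat_lit 60, nat_lit 6]⟩, ⟨p056_k29, nat_lit 0, nat_lit 0, nat_lit 615, nat_lit 0, nat_lit 1045827, [nat_lit 1481408000, nat_lit 2517888000, nat_lit 3110072000], [], [nat_lit 10449400619, nat_lit 10493298760, nat_lit 10894609827, nat_lit 10937325154, nat_lit 10278326368, nat_lit 10311007450, nat_lit 10620691765, nat_lit 10646162482], nat_lit 1271250, nat_lit 1271250, nat_lit 1271250, nat_lit 1271250, nat_lit 279600, nat_lit 2232850, [nat_lit 1100000, nat_lit 1785000, nat_lit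 1271250], [nat_lit 29, nat_lit 40, nat_lit 40, nat_lit 80, nat_lit 17, nat_lit 373, nat_lit 150, nat_lit 10]⟩,
 ⟨nat_lit 5000, nat_lit 5478, ⟨.ofNat (nat_lit 874396), .ofNat (nat_lit 949316), .ofNat (nat_lit 885069), .ofNat (nat_lit 959989), .ofNat (nat_lit 860628), .ofNat (nat_lit 932044), .ofNat (nat_lit 871337), .ofNat (nat_lit 942753)⟩, ⟨.ofNat (nat_lit 254209), .ofNat (nat_lit 404075), .ofNat (nat_lit 296923), .ofNat (nat_lit 446789), .ofNat (nat_lit 257141), .ofNat (nat_lit 399998), .ofNat (nat_lit 299999), .ofNat (nat_lit 442856)⟩⟩, [⟨nat_lit 13, nat_lit 96, nat_lit 9, nat_lit 100, nat_lit 137404147⟩, ⟨nat_lit 4, nat_lit 100, nat_lit 94, nat_lit 75, nat_lit 165859555⟩, ⟨nat_lit 7, nat_lit 99, nat_lit 100, nat_lit 77, nat_lit 72396287⟩]⟩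
noncomputable def p056_l98 : Lf2 := ⟨nat_lit 0, nat_lit 10, [nat_lit 0, nat_lit 5, nat_lit 5, nat_lit 20], false, nat_lit 160, nat_lit 240, nat_lit 48, nat_lit 308, ⟨nat_lit 195, nat_lit 805, nat_lit 0, nat_lit 9, nat_lit 358, nat_lit 805, nat_lit 140, nat_lit 0, nat_lit 0, nat_lit 0, nat_lit 0, nat_lit 0, nat_lit 33726544, nat_lit 27284593, nat_lit 5988863, nat_lit 4943363, true, true⟩,
 nat_lit 0, nat_lit 0, nat_lit 2161, nat_lit 0, nat_lit 4288, nat_lit 1316, nat_lit 0, nat_lit 0, nat_lit 0, nat_lit 232, nat_lit 0, nat_lit 0, nat_lit 0, nat_lit 0, nat_lit 0, nat_lit 477400, nat_lit 0, nat_lit 0, [(nat_lit 15, [(nat_lit 1, nat_lit 546), (nat_lit 2, nat_lit 259)])],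
 ⟨p056_k11, nat_lit 0, nat_lit 0, nat_lit 90, nat_lit 0, nat_lit 0, [nat_lit 2290441600, nat_lit 2775939201, nat_lit 2637721200], [], [nat_lit 26421573841, nat_lit 27194865505, nat_lit 28713752369, nat_lit 29457671105, nat_lit 27738914657, nat_lit 28476624577, nat_lit 29819952065, nat_lit 30467151168], nat_lit 0, nat_lit 0, nat_lit 0, nat_lit 0, nat_lit 0, nat_lit 0, [], [nat_lit 18, nat_lit 40, nat_lit 40, nat_lit 80, nat_lit 2, nat_lit 272, nat_lit 60, nat_lit 7]⟩, ⟨p056_k29, nat_lit 0, nat_lit 0, nat_lit 731, nat_lit 0, nat_lit 1313058, [nat_lit 914160000, nat_lit 1553760000, nat_lit 1919190000], [], [nat_lit 6761434000, nat_lit 6780581702, nat_lit 6966333732, nat_lit 6981123992, nat_lit 6424087915, nat_lit 6432339309, nat_lit 6574595742, nat_lit 6600450208], nat_lit 1271250, nat_lit 1271250, nat_lit 1271250, nat_lit 1271250, nat_lit 279600, nat_lit 2232850, [nat_lit 1100000, nat_lit 1785000, nat_lit 1271250],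 [nat_lit 29, nat_lit 40, nat_lit 40, nat_lit 80, nat_lit 17, nat_lit 373, nat_lit 150, nat_lit 10]⟩,
 ⟨nat_lit 4472, nat_lit 5000, ⟨.ofNat (nat_lit 860651), .ofNat (nat_lit 932075), .ofNat (nat_lit 871359), .ofNat (nat_lit 942783), .ofNat (nat_lit 847332), .ofNat (nat_lit 915306), .ofNat (nat_lit 858109), .ofNat (nat_lit 926083)⟩, ⟨.ofNat (nat_lit 257141), .ofNat (nat_lit 399998), .ofNat (nat_lit 299999), .ofNat (nat_lit 442856), .ofNat (nat_lit 259489), .ofNat (nat_lit 395445), .ofNat (nat_lit 302621), .ofNat (nat_lit 438578)⟩⟩, [⟨nat_lit 13, nat_lit 90, nat_lit 21, nat_lit 100, nat_lit 160121571⟩, ⟨nat_lit 4, nat_lit 100, nat_lit 85, nat_lit 73, nat_lit 155041208⟩, ⟨nat_lit 7, nat_lit 99, nat_lit 100, nat_lit 77, nat_lit 39310859⟩]⟩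
noncomputable def p056_l99 : Lf2 := ⟨nat_lit 0, nat_lit 10, [nat_lit 0, nat_lit 5, nat_lit 5, nat_lit 20], false, nat_lit 240, nat_lit 300, nat_lit 112, nat_lit 320, ⟨nat_lit 415, nat_lit 585, nat_lit 0, nat_lit 9, nat_lit 362, nat_lit 585, nat_lit 191, nat_lit 0, nat_lit 0, nat_lit 0, nat_lit 0, nat_lit 0, nat_lit 31564779, nat_lit 26194025, nat_lit 9241196, nat_lit 5355230, true, true⟩,
 nat_lit 0, nat_lit 0, nat_lit 4663, nat_lit 0, nat_lit 5072, nat_lit 2714, nat_lit 0, nat_lit 0, nat_lit 0, nat_lit 839, nat_lit 0, nat_lit 0, nat_lit 0, nat_lit 0, nat_lit 0, nat_lit 585000, nat_lit 0, nat_lit 0, [(nat_lit 12, [(nat_lit 2, nat_lit 585)])],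
 ⟨p056_k0, nat_lit 0, nat_lit 0, nat_lit 79, nat_lit 0, nat_lit 0, [nat_lit 2728122001, nat_lit 3732394000, nat_lit 3912440000], [], [nat_lit 27478378384, nat_lit 28256534864, nat_lit 29834082288, nat_lit 30509163216, nat_lit 29420643208, nat_lit 30090807200, nat_lit 31719645208, nat_lit 32429870952], nat_lit 0, nat_lit 0, nat_lit 0, nat_lit 0, nat_lit 0, nat_lit 0, [], [nat_lit 8, nat_lit 40, nat_lit 40, nat_lit 80, nat_lit 1, nat_lit 289, nat_lit 75, nat_lit 7]⟩, ⟨p056_k20, nat_lit 0, nat_lit 0, nat_lit 606, nat_lit 0, nat_lit 1116118, [nat_lit 1945520000, nat_lit 3306720000, nat_lit 4084430000], [], [nat_lit 13411587106, nat_lit 13489952520, nat_lit 13883482909, nat_lit 13962123254, nat_lit 13622134804, nat_lit 13703673784, nat_lit 14067863202, nat_lit 14131980300], nat_lit 1271250, nat_lit 1271250, nat_lit 1271250, nat_lit 1271250, nat_lit 719601, nat_lit 2407000, [nat_lit 1100000, nat_lit 1785000, nat_lit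 1271250], [nat_lit 29, nat_lit 40, nat_lit 40, nat_lit 80, nat_lit 17, nat_lit 373, nat_lit 150, nat_lit 10]⟩,
 ⟨nat_lit 5000, nat_lit 5478, ⟨.ofNat (nat_lit 863722), .ofNat (nat_lit 938642), .ofNat (nat_lit 885069), .ofNat (nat_lit 959989), .ofNat (nat_lit 849919), .ofNat (nat_lit 921335), .ofNat (nat_lit 871337), .ofNat (nat_lit 942753)⟩, ⟨.ofNat (nat_lit 404075), .ofNat (nat_lit 516475), .ofNat (nat_lit 446789), .ofNat (nat_lit 559189), .ofNat (nat_lit 399998), .ofNat (nat_lit 507141), .ofNat (nat_lit 442856), .ofNat (nat_lit 549998)⟩⟩, [⟨nat_lit 13, nat_lit 95, nat_lit 12, nat_lit 100, nat_lit 129918871⟩, ⟨nat_lit 4, nat_lit 100, nat_lit 94, nat_lit 75, nat_lit 356817484⟩, ⟨nat_lit 7, nat_lit 97, nat_lit 100, nat_lit 76, nat_lit 121582393⟩]⟩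
noncomputable def p056_l100 : Lf2 := ⟨nat_lit 0, nat_lit 10, [nat_lit 0, nat_lit 5, nat_lit 5, nat_lit 20], false, nat_lit 240, nat_lit 280, nat_lit 112, nat_lit 320, ⟨nat_lit 315, nat_lit 685, nat_lit 0, nat_lit 9, nat_lit 353, nat_lit 685, nat_lit 182, nat_lit 0, nat_lit 0, nat_lit 0, nat_lit 0, nat_lit 0, nat_lit 32478023, nat_lit 25804009, nat_lit 8717968, nat_lit 5289074, true, true⟩,
 nat_lit 0, nat_lit 0, nat_lit 3634, nat_lit 0, nat_lit 4241, nat_lit 2115, nat_lit 0, nat_lit 0, nat_lit 0, nat_lit 563, nat_lit 0, nat_lit 0, nat_lit 0, nat_lit 0, nat_lit 0, nat_lit 673600, nat_lit 0, nat_lit 0, [(nat_lit 15, [(nat_lit 1, nat_lit 19), (nat_lit 2, nat_lit 666)])],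
 ⟨p056_k11, nat_lit 0, nat_lit 0, nat_lit 80, nat_lit 0, nat_lit 0, [nat_lit 2479871401, nat_lit 2711460467, nat_lit 2089588800], [], [nat_lit 27922366670, nat_lit 28592979176, nat_lit 29800842390, nat_lit 30416971699, nat_lit 29005439449, nat_lit 29620175078, nat_lit 30869799041, nat_lit 31583406284], nat_lit 0, nat_lit 0, nat_lit 0, nat_lit 0, nat_lit 0, nat_lit 0, [], [nat_lit 18, nat_lit 40, nat_lit 40, nat_lit 80, nat_lit 2, nat_lit 203, nat_lit 0, nat_lit 5]⟩, ⟨p056_k20, nat_lit 0, nat_lit 0, nat_lit 690, nat_lit 0, nat_lit 1314718, [nat_lit 1476720000, nat_lit 2509920000, nat_lit 3100230000], [], [nat_lit 10610931402, nat_lit 10630848897, nat_lit 10882137222, nat_lit 10896192262, nat_lit 10469592780, nat_lit 10478335260, nat_lit 10707431880, nat_lit 10716893490], nat_lit 1271250, nat_lit 1271250, nat_lit 1271250, nat_lit 1271250, nat_lit 719601, nat_lit 2407000, [nat_lit 1100000, nat_lit 1785000, nat_lit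 1271250], [nat_lit 29, nat_lit 40, nat_lit 40, nat_lit 80, nat_lit 17, nat_lit 373, nat_lit 150, nat_lit 10]⟩,
 ⟨nat_lit 4472, nat_lit 5000, ⟨.ofNat (nat_lit 849943), .ofNat (nat_lit 921367), .ofNat (nat_lit 860651), .ofNat (nat_lit 932075), .ofNat (nat_lit 836555), .ofNat (nat_lit 904528), .ofNat (nat_lit 847332), .ofNat (nat_lit 915306)⟩, ⟨.ofNat (nat_lit 399998), .ofNat (nat_lit 471427), .ofNat (nat_lit 442856), .ofNat (nat_lit 514284), .ofNat (nat_lit 395445), .ofNat (nat_lit 463423), .ofNat (nat_lit 438578), .ofNat (nat_lit 506556)⟩⟩, [⟨nat_lit 13, nat_lit 88, nat_lit 26, nat_lit 100, nat_lit 102992552⟩, ⟨nat_lit 4, nat_lit 100, nat_lit 85, nat_lit 73, nat_lit 362094468⟩, ⟨nat_lit 7, nat_lit 95, nat_lit 100, nat_lit 76, nat_lit 82547075⟩]⟩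
noncomputable def p056_l101 : Lf2 := ⟨nat_lit 0, nat_lit 10, [nat_lit 0, nat_lit 5, nat_lit 5, nat_lit 20], false, nat_lit 240, nat_lit 280, nat_lit 112, nat_lit 308, ⟨nat_lit 348, nat_lit 652, nat_lit 0, nat_lit 9, nat_lit 358, nat_lit 652, nat_lit 182, nat_lit 0, nat_lit 0, nat_lit 0, nat_lit 0, nat_lit 0, nat_lit 32190474, nat_lit 26153090, nat_lit 8656436, nat_lit 5287963, true, true⟩,
 nat_lit 0, nat_lit 0, nat_lit 3851, nat_lit 0, nat_lit 4072, nat_lit 2345, nat_lit 301, nat_lit 0, nat_lit 0, nat_lit 414, nat_lit 0, nat_lit 0, nat_lit 0, nat_lit 0, nat_lit 0, nat_lit 652000, nat_lit 0, nat_lit 0, [(nat_lit 15, [(nat_lit 2, nat_lit 652)])],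
 ⟨p056_k11, nat_lit 0, nat_lit 0, nat_lit 80, nat_lit 0, nat_lit 0, [nat_lit 2520203201, nat_lit 2858296000, nat_lit 2318289600], [], [nat_lit 27792302160, nat_lit 28455704112, nat_lit 29638850400, nat_lit 30227145792, nat_lit 28868915928, nat_lit 29478062896, nat_lit 30682749672, nat_lit 31388967728], nat_lit 0, nat_lit 0, nat_lit 0, nat_lit 0, nat_lit 0, nat_lit 0, [], [nat_lit 18, nat_lit 40, nat_lit 40, nat_lit 80, nat_lit 2, nat_lit 203, nat_lit 0, nat_lit 5]⟩, ⟨p056_k29, nat_lit 0, nat_lit 0, nat_lit 684, nat_lit 0, nat_lit 1313058, [nat_lit 1631424000, nat_lit 2772864000, nat_lit 3425016000], [], [nat_lit 11604445034, nat_lit 11634695910, nat_lit 11944089298, nat_lit 11967065257, nat_lit 11487860771, nat_lit 11501793654, nat_lit 11755568655, nat_lit 11775329445], nat_lit 1271250, nat_lit 1271250, nat_lit 1271250, nat_lit 1271250, nat_lit 719601, nat_lit 2309650, [nat_lit 1100000, nat_lit 1785000, nat_lit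 1271250], [nat_lit 29, nat_lit 40, nat_lit 40, nat_lit 80, nat_lit 17, nat_lit 373, nat_lit 150, nat_lit 10]⟩,
 ⟨nat_lit 4472, nat_lit 5000, ⟨.ofNat (nat_lit 860651), .ofNat (nat_lit 932075), .ofNat (nat_lit 871359), .ofNat (nat_lit 942783), .ofNat (nat_lit 847332), .ofNat (nat_lit 915306), .ofNat (nat_lit 858109), .ofNat (nat_lit 926083)⟩, ⟨.ofNat (nat_lit 399998), .ofNat (nat_lit 471427), .ofNat (nat_lit 442856), .ofNat (nat_lit 514284), .ofNat (nat_lit 395445), .ofNat (nat_lit 463423), .ofNat (nat_lit 438578), .ofNat (nat_lit 506556)⟩⟩, [⟨nat_lit 13, nat_lit 90, nat_lit 21, nat_lit 100, nat_lit 90285783⟩, ⟨nat_lit 4, nat_lit 100, nat_lit 85, nat_lit 73, nat_lit 373678677⟩, ⟨nat_lit 7, nat_lit 99, nat_lit 100, nat_lit 77, nat_lit 88263096⟩]⟩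
noncomputable def b_V_700_600_10_3 : St := ⟨true, nat_lit 0, nat_lit 1, nat_lit 1, nat_lit 80, nat_lit 280, nat_lit 320, nat_lit 240, nat_lit 280, nat_lit 240, nat_lit 400, nat_lit 40, nat_lit 80, nat_lit 160, nat_lit 300, nat_lit 0, nat_lit 336, nat_lit 0, nat_lit 40, nat_lit 0, nat_lit 0, nat_lit 0, nat_lit 0⟩
theorem d_V_700_600_10_3 (h : EB TB.env) : Dead b_V_700_600_10_3 := chkB_sound0 h (T :=
(.spl (nat_lit 2) (nat_lit 320)
(.spl (nat_lit 0) (nat_lit 300)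
(.spl (nat_lit 0) (nat_lit 290)
(.leaf p056_l86)
(.trX (nat_lit 16) (nat_lit 100) (nat_lit 100) (nat_lit 89) (nat_lit 292) (.leaf p056_l87)))
(.trX (nat_lit 16) (nat_lit 94) (nat_lit 100) (nat_lit 87) (nat_lit 280) (.leaf p056_l88)))
(.trZ (nat_lit 9) (nat_lit 100) (nat_lit 82) (nat_lit 44) (nat_lit 16) (.spl (nat_lit 2) (nat_lit 360)
(.spl (nat_lit 1) (nat_lit 260)
(.leaf p056_l89)
(.trX (nat_lit 19) (nat_lit 100) (nat_lit 85) (nat_lit 84) (nat_lit 320) (.leaf p056_l90)))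
(.trZ (nat_lit 9) (nat_lit 100) (nat_lit 61) (nat_lit 68) (nat_lit 48) (.spl (nat_lit 1) (nat_lit 260)
(.spl (nat_lit 4) (nat_lit 240)
(.spl (nat_lit 0) (nat_lit 300)
(.leaf p056_l91)
(.trX (nat_lit 13) (nat_lit 91) (nat_lit 23) (nat_lit 100) (nat_lit 396) (.leaf p056_l92)))
(.trZ (nat_lit 9) (nat_lit 100) (nat_lit 61) (nat_lit 92) (nat_lit 112) (.spl (nat_lit 0) (nat_lit 300)
(.spl (nat_lit 0) (nat_lit 290)
(.leaf p056_l93)
(.trX (nat_lit 16) (nat_lit 100) (nat_lit 100) (nat_lit 89) (nat_lit 292) (.leaf p056_l94)))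
(.trX (nat_lit 13) (nat_lit 91) (nat_lit 23) (nat_lit 100) (nat_lit 396) (.trX (nat_lit 16) (nat_lit 94) (nat_lit 100) (nat_lit 87) (nat_lit 280) (.leaf p056_l95))))))
(.trX (nat_lit 19) (nat_lit 100) (nat_lit 85) (nat_lit 84) (nat_lit 320) (.spl (nat_lit 4) (nat_lit 240)
(.spl (nat_lit 1) (nat_lit 270)
(.leaf p056_l96)
(.trX (nat_lit 19) (nat_lit 100) (nat_lit 90) (nat_lit 85) (nat_lit 308) (.spl (nat_lit 0) (nat_lit 300)
(.leaf p056_l97)
(.leaf p056_l98))))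
(.trZ (nat_lit 9) (nat_lit 100) (nat_lit 61) (nat_lit 92) (nat_lit 112) (.spl (nat_lit 0) (nat_lit 300)
(.leaf p056_l99)
(.trX (nat_lit 16) (nat_lit 94) (nat_lit 100) (nat_lit 87) (nat_lit 280) (.spl (nat_lit 1) (nat_lit 270)
(.leaf p056_l100)
(.trX (nat_lit 19) (nat_lit 100) (nat_lit 90) (nat_lit 85) (nat_lit 308) (.leaf p056_l101)))))))))))))) (by decide +kernel)
noncomputable def p056_l102 : Lf2 := ⟨nat_lit 0, nat_lit 10, [nat_lit 0, nat_lit 5, nat_lit 5, nat_lit 20], true, nat_lit 0, nat_lit 300, nat_lit 0, nat_lit 336, ⟨nat_lit 0, nat_lit 1000, nat_lit 0, nat_lit 6, nat_lit 181, nat_lit 1000, nat_lit 106, nat_lit 0, nat_lit 0, nat_lit 0, nat_lit 0, nat_lit 0, nat_lit 0, nat_lit 0, nat_lit 0, nat_lit 5000000, false, false⟩,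
 nat_lit 0, nat_lit 0, nat_lit 0, nat_lit 3871, nat_lit 6749, nat_lit 0, nat_lit 0, nat_lit 0, nat_lit 0, nat_lit 0, nat_lit 0, nat_lit 0, nat_lit 0, nat_lit 0, nat_lit 0, nat_lit 533800, nat_lit 0, nat_lit 0, [(nat_lit 12, [(nat_lit 1, nat_lit 777), (nat_lit 2, nat_lit 223)]), (nat_lit 15, [(nat_lit 1, nat_lit 777), (nat_lit 2, nat_lit 223)])],
 ⟨p056_k18, nat_lit 0, nat_lit 0, nat_lit 283, nat_lit 0, nat_lit 0, [nat_lit 2831268801, nat_lit 2043633600], [], [nat_lit 25393273347, nat_lit 27943097089, nat_lit 24728873844, nat_lit 26723848272, nat_lit 24719999905, nat_lit 27117938272, nat_lit 23685692975, nat_lit 26048346625], nat_lit 0, nat_lit 0, nat_lit 0, nat_lit 0, nat_lit 0, nat_lit 0, [], [nat_lit 82, nat_lit 40, nat_lit 40, nat_lit 80, nat_lit 63, nat_lit 373, nat_lit 150, nat_lit 11]⟩, C1.Rw.none,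
 ⟨nat_lit 4472, nat_lit 5478, ⟨.ofNat (nat_lit 235487), .ofNat (nat_lit 617523), .ofNat (nat_lit 278138), .ofNat (nat_lit 660148), .ofNat (nat_lit 264421), .ofNat (nat_lit 610987), .ofNat (nat_lit 307491), .ofNat (nat_lit 654031)⟩, ⟨.negSucc (nat_lit 45522), .ofNat (nat_lit 516475), .negSucc (nat_lit 2834), .ofNat (nat_lit 559189), .negSucc (nat_lit 12423), .ofNat (nat_lit 497412), .ofNat (nat_lit 0), .ofNat (nat_lit 540545)⟩⟩, [⟨nat_lit 16, nat_lit 100, nat_lit 95, nat_lit 87, nat_lit 57587558⟩]⟩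
noncomputable def p056_l103 : Lf2 := ⟨nat_lit 0, nat_lit 10, [nat_lit 0, nat_lit 5, nat_lit 5, nat_lit 20], false, nat_lit 0, nat_lit 300, nat_lit 0, nat_lit 336, ⟨nat_lit 1000, nat_lit 0, nat_lit 0, nat_lit 0, nat_lit 0, nat_lit 0, nat_lit 0, nat_lit 0, nat_lit 0, nat_lit 0, nat_lit 0, nat_lit 0, nat_lit 0, nat_lit 0, nat_lit 0, nat_lit 0, false, false⟩,
 nat_lit 0, nat_lit 0, nat_lit 0, nat_lit 9002, nat_lit 7996, nat_lit 7781, nat_lit 425, nat_lit 0, nat_lit 0, nat_lit 1056, nat_lit 0, nat_lit 0, nat_lit 0, nat_lit 0, nat_lit 0, nat_lit 0, nat_lit 0, nat_lit 0, [],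
 ⟨p056_k0, nat_lit 0, nat_lit 0, nat_lit 219, nat_lit 0, nat_lit 0, [nat_lit 3282000000, nat_lit 6250000000, nat_lit 9842000000], [], [nat_lit 30102458781, nat_lit 32555596813, nat_lit 41054511293, nat_lit 43644784976, nat_lit 28200025165, nat_lit 29621843197, nat_lit 34920662044, nat_lit 36561814128], nat_lit 0, nat_lit 0, nat_lit 0, nat_lit 0, nat_lit 0, nat_lit 0, [], [nat_lit 8, nat_lit 40, nat_lit 40, nat_lit 80, nat_lit 1, nat_lit 401, nat_lit 175, nat_lit 11]⟩, ⟨p056_k22, nat_lit 0, nat_lit 0, nat_lit 251, nat_lit 0, nat_lit 0, [nat_lit 4688000000, nat_lit 7968000000, nat_lit 11872000000], [], [nat_lit 27638781716, nat_lit 29926657168, nat_lit 39184749216, nat_lit 40378801096, nat_lit 28038151256, nat_lit 29344388141, nat_lit 35680424326, nat_lit 36351475797], nat_lit 0, nat_lit 0, nat_lit 0, nat_lit 0, nat_lit 0, nat_lit 0, [], [nat_lit 21, nat_lit 40, nat_lit 40, nat_lit 80, nat_lit 14, nat_lit 538, nat_lit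 300, nat_lit 13]⟩,
 zbF0, [⟨nat_lit 4, nat_lit 100, nat_lit 90, nat_lit 74, nat_lit 93941917⟩, ⟨nat_lit 19, nat_lit 100, nat_lit 76, nat_lit 82, nat_lit 157847557⟩]⟩
noncomputable def p056_l104 : Lf2 := ⟨nat_lit 0, nat_lit 10, [nat_lit 0, nat_lit 5, nat_lit 5, nat_lit 20], true, nat_lit 0, nat_lit 300, nat_lit 0, nat_lit 336, ⟨nat_lit 0, nat_lit 1000, nat_lit 0, nat_lit 6, nat_lit 181, nat_lit 1000, nat_lit 106, nat_lit 0, nat_lit 0, nat_lit 0, nat_lit 0, nat_lit 0, nat_lit 0, nat_lit 0, nat_lit 0, nat_lit 5000000, false, false⟩,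
 nat_lit 0, nat_lit 0, nat_lit 0, nat_lit 3871, nat_lit 6749, nat_lit 0, nat_lit 0, nat_lit 0, nat_lit 0, nat_lit 0, nat_lit 0, nat_lit 0, nat_lit 0, nat_lit 0, nat_lit 0, nat_lit 533800, nat_lit 0, nat_lit 0, [(nat_lit 12, [(nat_lit 1, nat_lit 777), (nat_lit 2, nat_lit 223)]), (nat_lit 15, [(nat_lit 1, nat_lit 777), (nat_lit 2, nat_lit 223)])],
 ⟨p056_k18, nat_lit 0, nat_lit 0, nat_lit 283, nat_lit 0, nat_lit 0, [nat_lit 2831268801, nat_lit 2043633600], [], [nat_lit 25393273347, nat_lit 27943097089, nat_lit 24728873844, nat_lit 26723848272, nat_lit 24719999905, nat_lit 27117938272, nat_lit 23685692975, nat_lit 26048346625], nat_lit 0, nat_lit 0, nat_lit 0, nat_lit 0, nat_lit 0, nat_lit 0, [], [nat_lit 82, nat_lit 40, nat_lit 40, nat_lit 80, nat_lit 63, nat_lit 373, nat_lit 150, nat_lit 11]⟩, C1.Rw.none,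
 ⟨nat_lit 4472, nat_lit 5478, ⟨.ofNat (nat_lit 235487), .ofNat (nat_lit 617523), .ofNat (nat_lit 278138), .ofNat (nat_lit 660148), .ofNat (nat_lit 264421), .ofNat (nat_lit 610987), .ofNat (nat_lit 307491), .ofNat (nat_lit 654031)⟩, ⟨.negSucc (nat_lit 45522), .ofNat (nat_lit 516475), .negSucc (nat_lit 2834), .ofNat (nat_lit 559189), .negSucc (nat_lit 12423), .ofNat (nat_lit 497412), .ofNat (nat_lit 0), .ofNat (nat_lit 540545)⟩⟩, [⟨nat_lit 16, nat_lit 100, nat_lit 95, nat_lit 87, nat_lit 57587558⟩]⟩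
noncomputable def p056_l105 : Lf2 := ⟨nat_lit 0, nat_lit 10, [nat_lit 0, nat_lit 5, nat_lit 5, nat_lit 20], true, nat_lit 0, nat_lit 160, nat_lit 0, nat_lit 336, ⟨nat_lit 0, nat_lit 1000, nat_lit 0, nat_lit 6, nat_lit 311, nat_lit 946, nat_lit 56, nat_lit 0, nat_lit 0, nat_lit 0, nat_lit 0, nat_lit 0, nat_lit 0, nat_lit 0, nat_lit 0, nat_lit 5000000, true, true⟩,
 nat_lit 0, nat_lit 0, nat_lit 0, nat_lit 4302, nat_lit 3902, nat_lit 0, nat_lit 137, nat_lit 0, nat_lit 0, nat_lit 0, nat_lit 0, nat_lit 0, nat_lit 0, nat_lit 0, nat_lit 0, nat_lit 558400, nat_lit 0, nat_lit 0, [(nat_lit 12, [(nat_lit 1, nat_lit 736), (nat_lit 2, nat_lit 264)]), (nat_lit 15, [(nat_lit 1, nat_lit 736), (nat_lit 2, nat_lit 264)])],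
 ⟨p056_k0, nat_lit 0, nat_lit 0, nat_lit 219, nat_lit 0, nat_lit 0, [nat_lit 2138835201, nat_lit 2516652800, nat_lit 1862774400], [], [nat_lit 24865412742, nat_lit 26470177926, nat_lit 31021598918, nat_lit 32191024113, nat_lit 23969052302, nat_lit 25342348158, nat_lit 29395642161, nat_lit 30480826313], nat_lit 0, nat_lit 0, nat_lit 0, nat_lit 0, nat_lit 0, nat_lit 0, [], [nat_lit 8, nat_lit 40, nat_lit 40, nat_lit 80, nat_lit 1, nat_lit 373, nat_lit 150, nat_lit 10]⟩, C1.Rw.none,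
 ⟨nat_lit 4472, nat_lit 5478, ⟨.ofNat (nat_lit 617523), .ofNat (nat_lit 917115), .ofNat (nat_lit 660148), .ofNat (nat_lit 959740), .ofNat (nat_lit 610987), .ofNat (nat_lit 882759), .ofNat (nat_lit 654031), .ofNat (nat_lit 925804)⟩, ⟨.negSucc (nat_lit 45522), .ofNat (nat_lit 254209), .negSucc (nat_lit 2834), .ofNat (nat_lit 296923), .negSucc (nat_lit 12423), .ofNat (nat_lit 259489), .ofNat (nat_lit 0), .ofNat (nat_lit 302621)⟩⟩, [⟨nat_lit 13, nat_lit 91, nat_lit 23, nat_lit 100, nat_lit 106321974⟩]⟩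
noncomputable def p056_l106 : Lf2 := ⟨nat_lit 0, nat_lit 10, [nat_lit 0, nat_lit 5, nat_lit 5, nat_lit 20], false, nat_lit 160, nat_lit 300, nat_lit 0, nat_lit 336, ⟨nat_lit 130, nat_lit 870, nat_lit 0, nat_lit 6, nat_lit 307, nat_lit 870, nat_lit 161, nat_lit 0, nat_lit 0, nat_lit 0, nat_lit 0, nat_lit 0, nat_lit 0, nat_lit 0, nat_lit 0, nat_lit 5000000, true, true⟩,
 nat_lit 0, nat_lit 0, nat_lit 2129, nat_lit 0, nat_lit 4515, nat_lit 1127, nat_lit 0, nat_lit 0, nat_lit 0, nat_lit 84, nat_lit 0, nat_lit 0, nat_lit 0, nat_lit 0, nat_lit 0, nat_lit 217500, nat_lit 0, nat_lit 0, [(nat_lit 12, [(nat_lit 0, nat_lit 870)]), (nat_lit 15, [(nat_lit 0, nat_lit 870)])],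
 ⟨p056_k0, nat_lit 0, nat_lit 0, nat_lit 90, nat_lit 0, nat_lit 0, [nat_lit 2483340000, nat_lit 3382480000, nat_lit 4323716000], [], [nat_lit 20280185000, nat_lit 22423756720, nat_lit 28519638960, nat_lit 30030890120, nat_lit 24840780060, nat_lit 26449450820, nat_lit 31329871180, nat_lit 32488285270], nat_lit 0, nat_lit 0, nat_lit 0, nat_lit 0, nat_lit 0, nat_lit 0, [], [nat_lit 8, nat_lit 40, nat_lit 40, nat_lit 80, nat_lit 1, nat_lit 401, nat_lit 175, nat_lit 11]⟩, ⟨p056_k22, nat_lit 0, nat_lit 0, nat_lit 898, nat_lit 0, nat_lit 1417292, [nat_lit 609440000, nat_lit 1035840000, nat_lit 1543360000], [], [nat_lit 5492727588, nat_lit 5497445340, nat_lit 5729502520, nat_lit 5723357866, nat_lit 4740742211, nat_lit 4731818194, nat_lit 4798481895, nat_lit 4796447606], nat_lit 1271250, nat_lit 1271250, nat_lit 1271250, nat_lit 1271250, nat_lit 0, nat_lit 2373000, [nat_lit 1100000, nat_lit 1785000, nat_lit 1271250], [nat_lit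 21, nat_lit 40, nat_lit 40, nat_lit 80, nat_lit 14, nat_lit 483, nat_lit 250, nat_lit 12]⟩,
 ⟨nat_lit 4472, nat_lit 5478, ⟨.ofNat (nat_lit 617523), .ofNat (nat_lit 917115), .ofNat (nat_lit 638835), .ofNat (nat_lit 938427), .ofNat (nat_lit 610987), .ofNat (nat_lit 882759), .ofNat (nat_lit 632509), .ofNat (nat_lit 904281)⟩, ⟨.ofNat (nat_lit 254209), .ofNat (nat_lit 516475), .ofNat (nat_lit 296923), .ofNat (nat_lit 559189), .ofNat (nat_lit 259489), .ofNat (nat_lit 497412), .ofNat (nat_lit 302621), .ofNat (nat_lit 540545)⟩⟩, [⟨nat_lit 13, nat_lit 96, nat_lit 11, nat_lit 100, nat_lit 197177004⟩, ⟨nat_lit 16, nat_lit 100, nat_lit 95, nat_lit 87, nat_lit 226926788⟩, ⟨nat_lit 19, nat_lit 100, nat_lit 76, nat_lit 82, nat_lit 12928728⟩]⟩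
noncomputable def p056_l107 : Lf2 := ⟨nat_lit 0, nat_lit 10, [nat_lit 0, nat_lit 5, nat_lit 5, nat_lit 20], false, nat_lit 160, nat_lit 300, nat_lit 0, nat_lit 320, ⟨nat_lit 216, nat_lit 784, nat_lit 0, nat_lit 6, nat_lit 316, nat_lit 784, nat_lit 161, nat_lit 0, nat_lit 0, nat_lit 0, nat_lit 0, nat_lit 0, nat_lit 0, nat_lit 0, nat_lit 0, nat_lit 5000000, true, true⟩,
 nat_lit 0, nat_lit 0, nat_lit 2535, nat_lit 0, nat_lit 4687, nat_lit 1475, nat_lit 0, nat_lit 0, nat_lit 0, nat_lit 355, nat_lit 0, nat_lit 0, nat_lit 0, nat_lit 0, nat_lit 0, nat_lit 203200, nat_lit 0, nat_lit 0, [(nat_lit 12, [(nat_lit 0, nat_lit 736), (nat_lit 1, nat_lit 48)]), (nat_lit 15, [(nat_lit 0, nat_lit 736), (nat_lit 1, nat_lit 48)])],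
 ⟨p056_k0, nat_lit 0, nat_lit 0, nat_lit 90, nat_lit 0, nat_lit 0, [nat_lit 2548099200, nat_lit 3654761600, nat_lit 4818163200], [], [nat_lit 20269613800, nat_lit 22450242576, nat_lit 28748931568, nat_lit 30277923496, nat_lit 24870044748, nat_lit 26500453556, nat_lit 31545773244, nat_lit 32690268488], nat_lit 0, nat_lit 0, nat_lit 0, nat_lit 0, nat_lit 0, nat_lit 0, [], [nat_lit 8, nat_lit 40, nat_lit 40, nat_lit 80, nat_lit 1, nat_lit 401, nat_lit 175, nat_lit 11]⟩, ⟨p056_k20, nat_lit 0, nat_lit 0, nat_lit 823, nat_lit 0, nat_lit 1401753, [nat_lit 1012608000, nat_lit 1721088000, nat_lit 2125872000], [], [nat_lit 7802655560, nat_lit 7846734864, nat_lit 8318547296, nat_lit 8333251820, nat_lit 7197489084, nat_lit 7208615708, nat_lit 7442897560, nat_lit 7440228892], nat_lit 1271250, nat_lit 1271250, nat_lit 1271250, nat_lit 1271250, nat_lit 0, nat_lit 2260000, [nat_lit 1100000, nat_lit 1785000, nat_lit 1271250], [nat_lit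 29, nat_lit 40, nat_lit 40, nat_lit 80, nat_lit 17, nat_lit 483, nat_lit 250, nat_lit 14]⟩,
 ⟨nat_lit 4472, nat_lit 5478, ⟨.ofNat (nat_lit 638835), .ofNat (nat_lit 938427), .ofNat (nat_lit 660148), .ofNat (nat_lit 959740), .ofNat (nat_lit 632509), .ofNat (nat_lit 904281), .ofNat (nat_lit 654031), .ofNat (nat_lit 925804)⟩, ⟨.ofNat (nat_lit 254209), .ofNat (nat_lit 516475), .ofNat (nat_lit 296923), .ofNat (nat_lit 559189), .ofNat (nat_lit 259489), .ofNat (nat_lit 497412), .ofNat (nat_lit 302621), .ofNat (nat_lit 540545)⟩⟩, [⟨nat_lit 13, nat_lit 92, nat_lit 18, nat_lit 100, nat_lit 159320062⟩, ⟨nat_lit 16, nat_lit 100, nat_lit 95, nat_lit 87, nat_lit 237518422⟩, ⟨nat_lit 19, nat_lit 100, nat_lit 85, nat_lit 84, nat_lit 31065346⟩]⟩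
noncomputable def b_V_700_600_10_4 : St := ⟨true, nat_lit 0, nat_lit 2, nat_lit 2, nat_lit 80, nat_lit 280, nat_lit 320, nat_lit 240, nat_lit 280, nat_lit 36, nat_lit 400, nat_lit 40, nat_lit 80, nat_lit 0, nat_lit 300, nat_lit 0, nat_lit 336, nat_lit 0, nat_lit 40, nat_lit 0, nat_lit 0, nat_lit 0, nat_lit 0⟩
theorem d_V_700_600_10_4 (h : EB TB.env) : Dead b_V_700_600_10_4 := chkB_sound0 h (T :=
(.st (nat_lit 1)
(.spl (nat_lit 2) (nat_lit 240)
(.leaf p056_l102)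
(.leaf p056_l103))
(.spl (nat_lit 2) (nat_lit 240)
(.leaf p056_l104)
(.spl (nat_lit 4) (nat_lit 160)
(.leaf p056_l105)
(.spl (nat_lit 1) (nat_lit 260)
(.leaf p056_l106)
(.trX (nat_lit 19) (nat_lit 100) (nat_lit 85) (nat_lit 84) (nat_lit 320) (.leaf p056_l107))))))) (by decide +kernel)
noncomputable def p056_l108 : Lf2 := ⟨nat_lit 0, nat_lit 10, [nat_lit 0, nat_lit 5, nat_lit 5, nat_lit 20], false, nat_lit 0, nat_lit 80, nat_lit 0, nat_lit 160, ⟨nat_lit 1000, nat_lit 0, nat_lit 0, nat_lit 0, nat_lit 0, nat_lit 0, nat_lit 0, nat_lit 0, nat_lit 0, nat_lit 0, nat_lit 0, nat_lit 0, nat_lit 0, nat_lit 0, nat_lit 0, nat_lit 0, false, false⟩,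
 nat_lit 0, nat_lit 14977, nat_lit 0, nat_lit 0, nat_lit 9530, nat_lit 8860, nat_lit 1036, nat_lit 0, nat_lit 0, nat_lit 2103, nat_lit 0, nat_lit 0, nat_lit 0, nat_lit 0, nat_lit 0, nat_lit 0, nat_lit 0, nat_lit 0, [],
 ⟨p056_k0, nat_lit 0, nat_lit 0, nat_lit 580, nat_lit 0, nat_lit 644983, [nat_lit 3282000000, nat_lit 6250000000, nat_lit 9842000000], [], [nat_lit 26911107417, nat_lit 31462286749, nat_lit 24911789760, nat_lit 28059611140, nat_lit 22359552337, nat_lit 24888814092, nat_lit 20671482000, nat_lit 23074242680], nat_lit 1271250, nat_lit 1271250, nat_lit 205650, nat_lit 490000, nat_lit 0, nat_lit 490000, [nat_lit 780000, nat_lit 1435000, nat_lit 1271250], [nat_lit 8, nat_lit 40, nat_lit 40, nat_lit 80, nat_lit 1, nat_lit 249, nat_lit 40, nat_lit 7]⟩, ⟨p056_k22, nat_lit 0, nat_lit 0, nat_lit 340, nat_lit 0, nat_lit 0, [nat_lit 4688000000, nat_lit 7968000000, nat_lit 11872000000], [], [nat_lit 21859076644,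 nat_lit 26566515105, nat_lit 19223760160, nat_lit 23768070640, nat_lit 16177104496, nat_lit 19935080800, nat_lit 14537245840, nat_lit 17783434800], nat_lit 0, nat_lit 0, nat_lit 0, nat_lit 0, nat_lit 0, nat_lit 0, [], [nat_lit 21, nat_lit 40, nat_lit 40, nat_lit 80, nat_lit 14, nat_lit 373, nat_lit 150, nat_lit 10]⟩,
 zbF0, [⟨nat_lit 0, nat_lit 100, nat_lit 91, nat_lit 77, nat_lit 1364418228⟩]⟩
noncomputable def p056_l109 : Lf2 := ⟨nat_lit 0, nat_lit 5, [nat_lit 4, nat_lit 5, nat_lit 5, nat_lit 20], false, nat_lit 0, nat_lit 80, nat_lit 160, nat_lit 336, ⟨nat_lit 402, nat_lit 0, nat_lit 598, nat_lit 6, nat_lit 122, nat_lit 598, nat_lit 26, nat_lit 598, nat_lit 4817, nat_lit 232, nat_lit 138017, nat_lit 306, nat_lit 61318821, nat_lit 0, nat_lit 0, nat_lit 1451616, false, false⟩,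
 nat_lit 0, nat_lit 8558, nat_lit 0, nat_lit 0, nat_lit 5445, nat_lit 4470, nat_lit 167, nat_lit 0, nat_lit 0, nat_lit 632, nat_lit 0, nat_lit 0, nat_lit 0, nat_lit 0, nat_lit 0, nat_lit 598000, nat_lit 0, nat_lit 0, [(nat_lit 12, [(nat_lit 6, nat_lit 598)])],
 ⟨p056_k30, nat_lit 0, nat_lit 0, nat_lit 423, nat_lit 0, nat_lit 499481, [nat_lit 2001801601, nat_lit 1838195201, nat_lit 878351200], [], [nat_lit 18348682424, nat_lit 19652397244, nat_lit 17547348383, nat_lit 18796289623, nat_lit 16360752756, nat_lit 17347592311, nat_lit 18039660184, nat_lit 16705048794], nat_lit 1271250, nat_lit 1271250, nat_lit 205650, nat_lit 490000, nat_lit 0, nat_lit 490000, [nat_lit 780000, nat_lit 1435000, nat_lit 1271250], [nat_lit 18, nat_lit 40, nat_lit 40, nat_lit 80, nat_lit 2, nat_lit 249, nat_lit 40, nat_lit 8]⟩, ⟨p056_k31, nat_lit 0, nat_lit 0, nat_lit 155, nat_lit 0, nat_lit 0, [nat_lit 1884576000, nat_lit 3203136000, nat_lit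 3956484000], [], [nat_lit 5878640609, nat_lit 7492222227, nat_lit 4708169856, nat_lit 6254567976, nat_lit 11631926226, nat_lit 13127653782, nat_lit 10294998864, nat_lit 11440022573], nat_lit 0, nat_lit 0, nat_lit 0, nat_lit 0, nat_lit 0, nat_lit 0, [], [nat_lit 29, nat_lit 40, nat_lit 40, nat_lit 80, nat_lit 17, nat_lit 401, nat_lit 175, nat_lit 11]⟩,
 ⟨nat_lit 5000, nat_lit 5478, ⟨.ofNat (nat_lit 235487), .ofNat (nat_lit 317913), .ofNat (nat_lit 278201), .ofNat (nat_lit 360625), .ofNat (nat_lit 249999), .ofNat (nat_lit 328570), .ofNat (nat_lit 292856), .ofNat (nat_lit 371424)⟩, ⟨.negSucc (nat_lit 45522), .ofNat (nat_lit 104343), .negSucc (nat_lit 2832), .ofNat (nat_lit 147057), .negSucc (nat_lit 28572), .ofNat (nat_lit 114284), .ofNat (nat_lit 0), .ofNat (nat_lit 157141)⟩⟩, [⟨nat_lit 0, nat_lit 100, nat_lit 94, nat_lit 73, nat_lit 539536753⟩, ⟨nat_lit 7, nat_lit 92, nat_lit 100, nat_lit 75, nat_lit 321484153⟩]⟩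
noncomputable def p056_l110 : Lf2 := ⟨nat_lit 0, nat_lit 5, [nat_lit 4, nat_lit 5, nat_lit 5, nat_lit 20], false, nat_lit 0, nat_lit 80, nat_lit 160, nat_lit 336, ⟨nat_lit 339, nat_lit 0, nat_lit 661, nat_lit 6, nat_lit 131, nat_lit 661, nat_lit 28, nat_lit 661, nat_lit 6667, nat_lit 235, nat_lit 160067, nat_lit 313, nat_lit 60510719, nat_lit 0, nat_lit 0, nat_lit 1590582, false, false⟩,
 nat_lit 0, nat_lit 6254, nat_lit 0, nat_lit 0, nat_lit 4329, nat_lit 3845, nat_lit 159, nat_lit 0, nat_lit 0, nat_lit 412, nat_lit 0, nat_lit 0, nat_lit 0, nat_lit 0, nat_lit 0, nat_lit 661000, nat_lit 0, nat_lit 0, [(nat_lit 15, [(nat_lit 6, nat_lit 661)])],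
 ⟨p056_k32, nat_lit 0, nat_lit 0, nat_lit 352, nat_lit 0, nat_lit 550247, [nat_lit 1760378000, nat_lit 548738800], [], [nat_lit 17430214201, nat_lit 19289125980, nat_lit 17265551108, nat_lit 18273306030, nat_lit 16371682100, nat_lit 17353112533, nat_lit 17261373897, nat_lit 17231796337], nat_lit 1271250, nat_lit 1271250, nat_lit 279600, nat_lit 490000, nat_lit 0, nat_lit 490000, [nat_lit 780000, nat_lit 1435000], [nat_lit 49, nat_lit 40, nat_lit 40, nat_lit 80, nat_lit 16, nat_lit 249, nat_lit 40, nat_lit 10]⟩, ⟨p056_k31, nat_lit 0, nat_lit 0, nat_lit 144, nat_lit 0, nat_lit 0, [nat_lit 1589232000, nat_lit 2701152000, nat_lit 3336438000], [], [nat_lit 5001739776, nat_lit 6367796707, nat_lit 4335860592, nat_lit 5657393452, nat_lit 9426508217, nat_lit 10695205383, nat_lit 8648160152, nat_lit 9713419370], nat_lit 0, nat_lit 0, nat_lit 0, nat_lit 0, nat_lit 0, nat_lit 0, [], [nat_lit 29, nat_lit 40, nat_lit 40, nat_lit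 80, nat_lit 17, nat_lit 401, nat_lit 175, nat_lit 11]⟩,
 ⟨nat_lit 4472, nat_lit 5000, ⟨.ofNat (nat_lit 271418), .ofNat (nat_lit 328559), .ofNat (nat_lit 314253), .ofNat (nat_lit 371392), .ofNat (nat_lit 284805), .ofNat (nat_lit 339186), .ofNat (nat_lit 327916), .ofNat (nat_lit 382295)⟩, ⟨.negSucc (nat_lit 28572), .ofNat (nat_lit 114284), .ofNat (nat_lit 0), .ofNat (nat_lit 157141), .negSucc (nat_lit 12423), .ofNat (nat_lit 123532), .ofNat (nat_lit 0), .ofNat (nat_lit 166665)⟩⟩, [⟨nat_lit 0, nat_lit 100, nat_lit 88, nat_lit 81, nat_lit 293975332⟩, ⟨nat_lit 0, nat_lit 100, nat_lit 88, nat_lit 68, nat_lit 205576786⟩, ⟨nat_lit 19, nat_lit 100, nat_lit 76, nat_lit 82, nat_lit 215556101⟩, ⟨nat_lit 7, nat_lit 92, nat_lit 100, nat_lit 75, nat_lit 30995457⟩]⟩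
noncomputable def p056_l111 : Lf2 := ⟨nat_lit 0, nat_lit 10, [nat_lit 0, nat_lit 5, nat_lit 5, nat_lit 20], false, nat_lit 0, nat_lit 80, nat_lit 160, nat_lit 336, ⟨nat_lit 279, nat_lit 0, nat_lit 721, nat_lit 6, nat_lit 122, nat_lit 721, nat_lit 26, nat_lit 721, nat_lit 4817, nat_lit 232, nat_lit 138017, nat_lit 306, nat_lit 61318821, nat_lit 0, nat_lit 0, nat_lit 1451616, false, false⟩,
 nat_lit 0, nat_lit 8214, nat_lit 0, nat_lit 0, nat_lit 5227, nat_lit 2848, nat_lit 207, nat_lit 0, nat_lit 0, nat_lit 384, nat_lit 0, nat_lit 0, nat_lit 0, nat_lit 0, nat_lit 51, nat_lit 703600, nat_lit 0, nat_lit 0, [(nat_lit 12, [(nat_lit 5, nat_lit 29), (nat_lit 6, nat_lit 692)])],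
 ⟨p056_k0, nat_lit 0, nat_lit 0, nat_lit 433, nat_lit 0, nat_lit 329336, [nat_lit 2353371601, nat_lit 1967945467, nat_lit 370818400], [], [nat_lit 17518557135, nat_lit 19237127956, nat_lit 16115356115, nat_lit 17768743133, nat_lit 14659417884, nat_lit 15657280682, nat_lit 16316645124, nat_lit 14502808523], nat_lit 1271250, nat_lit 1271250, nat_lit 205650, nat_lit 490000, nat_lit 0, nat_lit 490000, [nat_lit 780000, nat_lit 1435000, nat_lit 1271250], [nat_lit 8, nat_lit 40, nat_lit 40, nat_lit 80, nat_lit 1, nat_lit 249, nat_lit 40, nat_lit 7]⟩, ⟨p056_k22, nat_lit 0, nat_lit 0, nat_lit 188, nat_lit 0, nat_lit 0, [nat_lit 1307952000, nat_lit 2223072000, nat_lit 3312288000], [], [nat_lit 5237041518, nat_lit 6137394522, nat_lit 4449349440, nat_lit 5314743696, nat_lit 8133719326, nat_lit 8774787645, nat_lit 7257653431, nat_lit 7909480216], nat_lit 0, nat_lit 0, nat_lit 0, nat_lit 0, nat_lit 0, nat_lit 0, [], [nat_lit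 21, nat_lit 40, nat_lit 40, nat_lit 80, nat_lit 14, nat_lit 401, nat_lit 175, nat_lit 10]⟩,
 ⟨nat_lit 5000, nat_lit 5478, ⟨.ofNat (nat_lit 235487), .ofNat (nat_lit 317913), .ofNat (nat_lit 278201), .ofNat (nat_lit 360625), .ofNat (nat_lit 249999), .ofNat (nat_lit 328570), .ofNat (nat_lit 292856), .ofNat (nat_lit 371424)⟩, ⟨.negSucc (nat_lit 45522), .ofNat (nat_lit 104343), .negSucc (nat_lit 2832), .ofNat (nat_lit 147057), .negSucc (nat_lit 28572), .ofNat (nat_lit 114284), .ofNat (nat_lit 0), .ofNat (nat_lit 157141)⟩⟩, [⟨nat_lit 0, nat_lit 100, nat_lit 94, nat_lit 73, nat_lit 543327186⟩, ⟨nat_lit 7, nat_lit 92, nat_lit 100, nat_lit 75, nat_lit 183271988⟩]⟩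
noncomputable def p056_l112 : Lf2 := ⟨nat_lit 0, nat_lit 10, [nat_lit 0, nat_lit 5, nat_lit 5, nat_lit 20], true, nat_lit 0, nat_lit 80, nat_lit 160, nat_lit 336, ⟨nat_lit 0, nat_lit 0, nat_lit 1000, nat_lit 6, nat_lit 131, nat_lit 5, nat_lit 28, nat_lit 1000, nat_lit 6667, nat_lit 235, nat_lit 160067, nat_lit 313, nat_lit 60510719, nat_lit 0, nat_lit 0, nat_lit 1590582, false, false⟩,
 nat_lit 0, nat_lit 5399, nat_lit 0, nat_lit 0, nat_lit 3737, nat_lit 0, nat_lit 0, nat_lit 0, nat_lit 0, nat_lit 0, nat_lit 0, nat_lit 0, nat_lit 0, nat_lit 0, nat_lit 104, nat_lit 448600, nat_lit 0, nat_lit 0, [(nat_lit 15, [(nat_lit 5, nat_lit 919), (nat_lit 6, nat_lit 81)])],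
 ⟨p056_k11, nat_lit 0, nat_lit 0, nat_lit 382, nat_lit 0, nat_lit 401247, [nat_lit 2536048801, nat_lit 1008540401, nat_lit 104018799], [], [nat_lit 15927174549, nat_lit 18079785538, nat_lit 15096973814, nat_lit 17200226488, nat_lit 14373292183, nat_lit 15691508128, nat_lit 14414542624, nat_lit 15689605488], nat_lit 1271250, nat_lit 1271250, nat_lit 279600, nat_lit 490000, nat_lit 0, nat_lit 490000, [nat_lit 780000, nat_lit 1435000, nat_lit 1271250], [nat_lit 18, nat_lit 40, nat_lit 40, nat_lit 80, nat_lit 2, nat_lit 249, nat_lit 40, nat_lit 8]⟩, C1.Rw.none,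
 ⟨nat_lit 4472, nat_lit 5000, ⟨.ofNat (nat_lit 271418), .ofNat (nat_lit 328559), .ofNat (nat_lit 314253), .ofNat (nat_lit 371392), .ofNat (nat_lit 284805), .ofNat (nat_lit 339186), .ofNat (nat_lit 327916), .ofNat (nat_lit 382295)⟩, ⟨.negSucc (nat_lit 28572), .ofNat (nat_lit 114284), .ofNat (nat_lit 0), .ofNat (nat_lit 157141), .negSucc (nat_lit 12423), .ofNat (nat_lit 123532), .ofNat (nat_lit 0), .ofNat (nat_lit 166665)⟩⟩, [⟨nat_lit 0, nat_lit 100, nat_lit 88, nat_lit 81, nat_lit 758985051⟩]⟩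
noncomputable def p056_l113 : Lf2 := ⟨nat_lit 0, nat_lit 10, [nat_lit 0, nat_lit 5, nat_lit 5, nat_lit 20], false, nat_lit 80, nat_lit 160, nat_lit 0, nat_lit 312, ⟨nat_lit 402, nat_lit 0, nat_lit 598, nat_lit 6, nat_lit 124, nat_lit 598, nat_lit 78, nat_lit 598, nat_lit 58017, nat_lit 274, nat_lit 144150, nat_lit 308, nat_lit 57650263, nat_lit 0, nat_lit 0, nat_lit 2603757, false, false⟩,
 nat_lit 0, nat_lit 10389, nat_lit 0, nat_lit 0, nat_lit 6610, nat_lit 4646, nat_lit 381, nat_lit 0, nat_lit 0, nat_lit 870, nat_lit 0, nat_lit 0, nat_lit 0, nat_lit 0, nat_lit 0, nat_lit 598000, nat_lit 0, nat_lit 0, [(nat_lit 12, [(nat_lit 6, nat_lit 598)]), (nat_lit 15, [(nat_lit 6, nat_lit 598)])],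
 ⟨p056_k0, nat_lit 0, nat_lit 0, nat_lit 476, nat_lit 0, nat_lit 608232, [nat_lit 2001801601, nat_lit 1838195201, nat_lit 814113600], [], [nat_lit 15935427199, nat_lit 18332601926, nat_lit 12991914425, nat_lit 16588147305, nat_lit 14719290554, nat_lit 18124753392, nat_lit 14001738603, nat_lit 16410717105], nat_lit 1271250, nat_lit 1271250, nat_lit 205650, nat_lit 490000, nat_lit 490000, nat_lit 1100001, [nat_lit 780000, nat_lit 1435000, nat_lit 1271250], [nat_lit 8, nat_lit 40, nat_lit 40, nat_lit 80, nat_lit 1, nat_lit 272, nat_lit 60, nat_lit 8]⟩, ⟨p056_k22, nat_lit 0, nat_lit 0, nat_lit 340, nat_lit 0, nat_lit 0, [nat_lit 1884576000, nat_lit 3203136000, nat_lit 4772544000], [], [nat_lit 9603041115, nat_lit 11263968860, nat_lit 7929803576, nat_lit 9620389360, nat_lit 10441383406, nat_lit 11857659383, nat_lit 9091754657, nat_lit 10215153659], nat_lit 0, nat_lit 0, nat_lit 0, nat_lit 0, nat_lit 0, nat_lit 0, [],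 [nat_lit 21, nat_lit 40, nat_lit 40, nat_lit 80, nat_lit 14, nat_lit 401, nat_lit 175, nat_lit 11]⟩,
 ⟨nat_lit 4472, nat_lit 5478, ⟨.ofNat (nat_lit 235487), .ofNat (nat_lit 317898), .ofNat (nat_lit 278138), .ofNat (nat_lit 360546), .ofNat (nat_lit 264421), .ofNat (nat_lit 339182), .ofNat (nat_lit 307491), .ofNat (nat_lit 382248)⟩, ⟨.ofNat (nat_lit 104343), .ofNat (nat_lit 254209), .ofNat (nat_lit 125700), .ofNat (nat_lit 275566), .ofNat (nat_lit 123532), .ofNat (nat_lit 259489), .ofNat (nat_lit 145099), .ofNat (nat_lit 281055)⟩⟩, [⟨nat_lit 0, nat_lit 100, nat_lit 91, nat_lit 77, nat_lit 727811150⟩, ⟨nat_lit 7, nat_lit 96, nat_lit 100, nat_lit 69, nat_lit 120709575⟩]⟩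
noncomputable def p056_l114 : Lf2 := ⟨nat_lit 0, nat_lit 10, [nat_lit 0, nat_lit 5, nat_lit 5, nat_lit 20], false, nat_lit 80, nat_lit 160, nat_lit 0, nat_lit 336, ⟨nat_lit 331, nat_lit 0, nat_lit 669, nat_lit 6, nat_lit 124, nat_lit 669, nat_lit 87, nat_lit 669, nat_lit 70417, nat_lit 280, nat_lit 144150, nat_lit 308, nat_lit 57070829, nat_lit 0, nat_lit 0, nat_lit 2738102, false, false⟩,
 nat_lit 0, nat_lit 9897, nat_lit 0, nat_lit 0, nat_lit 6298, nat_lit 3541, nat_lit 296, nat_lit 0, nat_lit 0, nat_lit 679, nat_lit 0, nat_lit 0, nat_lit 0, nat_lit 0, nat_lit 23, nat_lit 669000, nat_lit 0, nat_lit 0, [(nat_lit 12, [(nat_lit 6, nat_lit 669)]), (nat_lit 15, [(nat_lit 6, nat_lit 669)])],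
 ⟨p056_k0, nat_lit 0, nat_lit 0, nat_lit 444, nat_lit 0, nat_lit 520313, [nat_lit 2125804801, nat_lit 1774385601, nat_lit 386240800], [], [nat_lit 15575217276, nat_lit 17885500642, nat_lit 12622078560, nat_lit 16114225744, nat_lit 14317654151, nat_lit 17907106186, nat_lit 13646884308, nat_lit 16029676112], nat_lit 1271250, nat_lit 1271250, nat_lit 205650, nat_lit 490000, nat_lit 490000, nat_lit 1100001, [nat_lit 780000, nat_lit 1435000, nat_lit 1271250], [nat_lit 8, nat_lit 40, nat_lit 40, nat_lit 80, nat_lit 1, nat_lit 272, nat_lit 60, nat_lit 8]⟩, ⟨p056_k22, nat_lit 0, nat_lit 0, nat_lit 340, nat_lit 0, nat_lit 0, [nat_lit 1551728000, nat_lit 2637408000, nat_lit 3929632000], [], [nat_lit 7898817165, nat_lit 9197952363, nat_lit 6643036300, nat_lit 7904050552, nat_lit 9587508186, nat_lit 10624642983, nat_lit 8538512229, nat_lit 9331294300], nat_lit 0, nat_lit 0, nat_lit 0, nat_lit 0, nat_lit 0, nat_lit 0, [], [nat_lit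 21, nat_lit 40, nat_lit 40, nat_lit 80, nat_lit 14, nat_lit 401, nat_lit 175, nat_lit 11]⟩,
 ⟨nat_lit 4472, nat_lit 5478, ⟨.ofNat (nat_lit 235487), .ofNat (nat_lit 317898), .ofNat (nat_lit 278138), .ofNat (nat_lit 360546), .ofNat (nat_lit 264421), .ofNat (nat_lit 339182), .ofNat (nat_lit 307491), .ofNat (nat_lit 382248)⟩, ⟨.ofNat (nat_lit 125700), .ofNat (nat_lit 275566), .ofNat (nat_lit 147057), .ofNat (nat_lit 296923), .ofNat (nat_lit 145099), .ofNat (nat_lit 281055), .ofNat (nat_lit 166665), .ofNat (nat_lit 302621)⟩⟩, [⟨nat_lit 0, nat_lit 100, nat_lit 91, nat_lit 77, nat_lit 683235066⟩, ⟨nat_lit 7, nat_lit 89, nat_lit 100, nat_lit 80, nat_lit 104873648⟩]⟩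
noncomputable def b_V_700_600_10_5 : St := ⟨true, nat_lit 1, nat_lit 0, nat_lit 1, nat_lit 80, nat_lit 280, nat_lit 320, nat_lit 240, nat_lit 280, nat_lit 36, nat_lit 80, nat_lit 40, nat_lit 80, nat_lit 0, nat_lit 160, nat_lit 0, nat_lit 336, nat_lit 0, nat_lit 40, nat_lit 0, nat_lit 0, nat_lit 0, nat_lit 0⟩
theorem d_V_700_600_10_5 (h : EB TB.env) : Dead b_V_700_600_10_5 := chkB_sound0 h (T :=
(.spl (nat_lit 4) (nat_lit 80)
(.spl (nat_lit 5) (nat_lit 160)
(.leaf p056_l108)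
(.spl (nat_lit 6) (nat_lit 20)
(.spl (nat_lit 0) (nat_lit 300)
(.leaf p056_l109)
(.trZ (nat_lit 0) (nat_lit 100) (nat_lit 88) (nat_lit 68) (nat_lit 48) (.leaf p056_l110)))
(.spl (nat_lit 0) (nat_lit 300)
(.leaf p056_l111)
(.trZ (nat_lit 0) (nat_lit 100) (nat_lit 88) (nat_lit 68) (nat_lit 48) (.leaf p056_l112)))))
(.spl (nat_lit 3) (nat_lit 60)
(.trX (nat_lit 19) (nat_lit 100) (nat_lit 85) (nat_lit 73) (nat_lit 312) (.leaf p056_l113))
(.leaf p056_l114)))) (by decide +kernel)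
noncomputable def p056_l115 : Lf2 := ⟨nat_lit 0, nat_lit 10, [nat_lit 0, nat_lit 5, nat_lit 5, nat_lit 20], false, nat_lit 0, nat_lit 160, nat_lit 0, nat_lit 160, ⟨nat_lit 1000, nat_lit 0, nat_lit 0, nat_lit 0, nat_lit 0, nat_lit 0, nat_lit 0, nat_lit 0, nat_lit 0, nat_lit 0, nat_lit 0, nat_lit 0, nat_lit 0, nat_lit 0, nat_lit 0, nat_lit 0, false, false⟩,
 nat_lit 0, nat_lit 15527, nat_lit 0, nat_lit 0, nat_lit 9880, nat_lit 16373, nat_lit 1034, nat_lit 0, nat_lit 0, nat_lit 2753, nat_lit 0, nat_lit 0, nat_lit 0, nat_lit 0, nat_lit 0, nat_lit 0, nat_lit 0, nat_lit 0, [],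
 ⟨p056_k0, nat_lit 0, nat_lit 0, nat_lit 553, nat_lit 0, nat_lit 668211, [nat_lit 3282000000, nat_lit 6250000000, nat_lit 9842000000], [], [nat_lit 27131115040, nat_lit 24597826240, nat_lit 23148280480, nat_lit 23727634440, nat_lit 18738483680, nat_lit 19273822160, nat_lit 24338230240, nat_lit 22071896560], nat_lit 1271250, nat_lit 1271250, nat_lit 490000, nat_lit 1100001, nat_lit 0, nat_lit 1100001, [nat_lit 780000, nat_lit 1435000, nat_lit 1271250], [nat_lit 8, nat_lit 40, nat_lit 40, nat_lit 80, nat_lit 1, nat_lit 317, nat_lit 100, nat_lit 9]⟩, ⟨p056_k22, nat_lit 0, nat_lit 0, nat_lit 225, nat_lit 0, nat_lit 0, [nat_lit 4688000000, nat_lit 7968000000, nat_lit 11872000000], [], [nat_lit 18089029552, nat_lit 20650245488, nat_lit 15955134812, nat_lit 19068186720, nat_lit 4519654476, nat_lit 7449063108, nat_lit 3675908752, nat_lit 6204200006], nat_lit 0, nat_lit 0, nat_lit 0, nat_lit 0, nat_lit 0, nat_lit 0, [],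 [nat_lit 21, nat_lit 40, nat_lit 40, nat_lit 80, nat_lit 14, nat_lit 373, nat_lit 150, nat_lit 10]⟩,
 zbF0, []⟩
noncomputable def p056_l116 : Lf2 := ⟨nat_lit 0, nat_lit 10, [nat_lit 0, nat_lit 5, nat_lit 5, nat_lit 20], false, nat_lit 0, nat_lit 160, nat_lit 0, nat_lit 160, ⟨nat_lit 1000, nat_lit 0, nat_lit 0, nat_lit 0, nat_lit 0, nat_lit 0, nat_lit 0, nat_lit 0, nat_lit 0, nat_lit 0, nat_lit 0, nat_lit 0, nat_lit 0, nat_lit 0, nat_lit 0, nat_lit 0, false, false⟩,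
 nat_lit 0, nat_lit 16272, nat_lit 0, nat_lit 0, nat_lit 10354, nat_lit 7901, nat_lit 1129, nat_lit 0, nat_lit 0, nat_lit 4180, nat_lit 0, nat_lit 0, nat_lit 0, nat_lit 0, nat_lit 0, nat_lit 0, nat_lit 0, nat_lit 0, [],
 ⟨p056_k0, nat_lit 0, nat_lit 0, nat_lit 629, nat_lit 0, nat_lit 854423, [nat_lit 3282000000, nat_lit 6250000000, nat_lit 9842000000], [], [nat_lit 26858474032, nat_lit 24204299696, nat_lit 22492179360, nat_lit 22945703251, nat_lit 18096054960, nat_lit 18495765382, nat_lit 23474245792, nat_lit 21099183148], nat_lit 1271250, nat_lit 1271250, nat_lit 490000, nat_lit 1100001, nat_lit 0, nat_lit 1100001, [nat_lit 780000, nat_lit 1435000, nat_lit 1271250], [nat_lit 8, nat_lit 40, nat_lit 40, nat_lit 80, nat_lit 1, nat_lit 317, nat_lit 100, nat_lit 9]⟩, ⟨p056_k20, nat_lit 0, nat_lit 0, nat_lit 182, nat_lit 0, nat_lit 0, [nat_lit 4688000000, nat_lit 7968000000, nat_lit 9842000000], [], [nat_lit 14760930596,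 nat_lit 17238177704, nat_lit 15139082422, nat_lit 17128759912, nat_lit 11104352714, nat_lit 12552250000, nat_lit 11623484278, nat_lit 13158932600], nat_lit 0, nat_lit 0, nat_lit 0, nat_lit 0, nat_lit 0, nat_lit 0, [], [nat_lit 29, nat_lit 40, nat_lit 40, nat_lit 80, nat_lit 17, nat_lit 373, nat_lit 150, nat_lit 11]⟩,
 zbF0, []⟩
noncomputable def p056_l117 : Lf2 := ⟨nat_lit 0, nat_lit 10, [nat_lit 0, nat_lit 5, nat_lit 5, nat_lit 20], false, nat_lit 0, nat_lit 160, nat_lit 0, nat_lit 160, ⟨nat_lit 1000, nat_lit 0, nat_lit 0, nat_lit 0, nat_lit 0, nat_lit 0, nat_lit 0, nat_lit 0, nat_lit 0, nat_lit 0, nat_lit 0, nat_lit 0, nat_lit 0, nat_lit 0, nat_lit 0, nat_lit 0, false, false⟩,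
 nat_lit 0, nat_lit 12137, nat_lit 0, nat_lit 0, nat_lit 8060, nat_lit 8120, nat_lit 2545, nat_lit 0, nat_lit 0, nat_lit 1801, nat_lit 0, nat_lit 0, nat_lit 0, nat_lit 0, nat_lit 0, nat_lit 0, nat_lit 0, nat_lit 0, [],
 ⟨p056_k28, nat_lit 0, nat_lit 0, nat_lit 572, nat_lit 0, nat_lit 896702, [nat_lit 3282000000, nat_lit 6250000000, nat_lit 7968000000], [], [nat_lit 23708496990, nat_lit 21640873250, nat_lit 19796529630, nat_lit 20332471200, nat_lit 16592573230, nat_lit 16952498810, nat_lit 21003100220, nat_lit 19154249060], nat_lit 1271250, nat_lit 1271250, nat_lit 490000, nat_lit 1100001, nat_lit 0, nat_lit 1100001, [nat_lit 780000, nat_lit 1435000, nat_lit 1271250], [nat_lit 18, nat_lit 40, nat_lit 40, nat_lit 80, nat_lit 2, nat_lit 317, nat_lit 100, nat_lit 11]⟩, ⟨p056_k22, nat_lit 0, nat_lit 0, nat_lit 235, nat_lit 0, nat_lit 0, [nat_lit 4688000000, nat_lit 7968000000, nat_lit 11872000000], [], [nat_lit 20513832380,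 nat_lit 23723282880, nat_lit 20177054880, nat_lit 23696192320, nat_lit 16093137280, nat_lit 19035370080, nat_lit 16517339200, nat_lit 19092488480], nat_lit 0, nat_lit 0, nat_lit 0, nat_lit 0, nat_lit 0, nat_lit 0, [], [nat_lit 21, nat_lit 40, nat_lit 40, nat_lit 80, nat_lit 14, nat_lit 373, nat_lit 150, nat_lit 10]⟩,
 zbF0, []⟩
noncomputable def p056_l118 : Lf2 := ⟨nat_lit 0, nat_lit 2, [nat_lit 10, nat_lit 5, nat_lit 5, nat_lit 20], false, nat_lit 0, nat_lit 80, nat_lit 160, nat_lit 240, ⟨nat_lit 1000, nat_lit 0, nat_lit 0, nat_lit 0, nat_lit 0, nat_lit 0, nat_lit 0, nat_lit 0, nat_lit 0, nat_lit 0, nat_lit 0, nat_lit 0, nat_lit 0, nat_lit 0, nat_lit 0, nat_lit 0, false, false⟩,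
 nat_lit 0, nat_lit 11446, nat_lit 0, nat_lit 0, nat_lit 7283, nat_lit 7620, nat_lit 0, nat_lit 0, nat_lit 0, nat_lit 0, nat_lit 0, nat_lit 0, nat_lit 0, nat_lit 0, nat_lit 0, nat_lit 0, nat_lit 0, nat_lit 0, [],
 ⟨p056_k33, nat_lit 0, nat_lit 0, nat_lit 410, nat_lit 0, nat_lit 723702, [nat_lit 3282000000, nat_lit 6250000000], [], [nat_lit 31204842056, nat_lit 31352130600, nat_lit 31014863568, nat_lit 31162985167, nat_lit 28510711536, nat_lit 28647271518, nat_lit 28288002008, nat_lit 28408495246], nat_lit 1271250, nat_lit 1271250, nat_lit 490000, nat_lit 1100001, nat_lit 0, nat_lit 490000, [nat_lit 780000, nat_lit 1435000], [nat_lit 49, nat_lit 40, nat_lit 40, nat_lit 80, nat_lit 16, nat_lit 272, nat_lit 60, nat_lit 11]⟩, ⟨p056_k34, nat_lit 0, nat_lit 0, nat_lit 5, nat_lit 0, nat_lit 0, [nat_lit 4688000000, nat_lit 7968000000], [], [nat_lit 7261818000, nat_lit 11435424320, nat_lit 8536445760, nat_lit 12204471520,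 nat_lit 12285835440, nat_lit 15725603600, nat_lit 12924742880, nat_lit 15950664400], nat_lit 0, nat_lit 0, nat_lit 0, nat_lit 0, nat_lit 0, nat_lit 0, [], [nat_lit 39, nat_lit 40, nat_lit 40, nat_lit 80, nat_lit 7, nat_lit 317, nat_lit 100, nat_lit 10]⟩,
 zbF0, []⟩
noncomputable def p056_l119 : Lf2 := ⟨nat_lit 0, nat_lit 2, [nat_lit 10, nat_lit 5, nat_lit 5, nat_lit 20], false, nat_lit 0, nat_lit 80, nat_lit 160, nat_lit 240, ⟨nat_lit 1000, nat_lit 0, nat_lit 0, nat_lit 0, nat_lit 0, nat_lit 0, nat_lit 0, nat_lit 0, nat_lit 0, nat_lit 0, nat_lit 0, nat_lit 0, nat_lit 0, nat_lit 0, nat_lit 0, nat_lit 0, false, false⟩,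
 nat_lit 0, nat_lit 11153, nat_lit 0, nat_lit 0, nat_lit 7189, nat_lit 7620, nat_lit 5022, nat_lit 0, nat_lit 0, nat_lit 0, nat_lit 0, nat_lit 0, nat_lit 0, nat_lit 0, nat_lit 0, nat_lit 0, nat_lit 0, nat_lit 0, [],
 ⟨p056_k35, nat_lit 0, nat_lit 0, nat_lit 412, nat_lit 0, nat_lit 727482, [nat_lit 3282000000, nat_lit 6250000000], [], [nat_lit 26807425618, nat_lit 26505516646, nat_lit 26196524076, nat_lit 26282706072, nat_lit 23753426005, nat_lit 23843915415, nat_lit 23536530432, nat_lit 23616418810], nat_lit 1271250, nat_lit 1271250, nat_lit 490000, nat_lit 1100001, nat_lit 0, nat_lit 490000, [nat_lit 780000, nat_lit 1435000], [nat_lit 49, nat_lit 40, nat_lit 40, nat_lit 80, nat_lit 16, nat_lit 272, nat_lit 60, nat_lit 11]⟩, ⟨p056_k34, nat_lit 0, nat_lit 0, nat_lit 5, nat_lit 0, nat_lit 0, [nat_lit 4688000000, nat_lit 7968000000], [], [nat_lit 7261818000, nat_lit 11435424320, nat_lit 8536445760, nat_lit 12204471520,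 nat_lit 12285835440, nat_lit 15725603600, nat_lit 12924742880, nat_lit 15950664400], nat_lit 0, nat_lit 0, nat_lit 0, nat_lit 0, nat_lit 0, nat_lit 0, [], [nat_lit 39, nat_lit 40, nat_lit 40, nat_lit 80, nat_lit 7, nat_lit 317, nat_lit 100, nat_lit 10]⟩,
 zbF0, []⟩
noncomputable def p056_l120 : Lf2 := ⟨nat_lit 0, nat_lit 5, [nat_lit 4, nat_lit 5, nat_lit 5, nat_lit 20], false, nat_lit 0, nat_lit 80, nat_lit 160, nat_lit 240, ⟨nat_lit 1000, nat_lit 0, nat_lit 0, nat_lit 0, nat_lit 0, nat_lit 0, nat_lit 0, nat_lit 0, nat_lit 0, nat_lit 0, nat_lit 0, nat_lit 0, nat_lit 0, nat_lit 0, nat_lit 0, nat_lit 0, false, false⟩,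
 nat_lit 0, nat_lit 11005, nat_lit 0, nat_lit 0, nat_lit 7003, nat_lit 7620, nat_lit 914, nat_lit 0, nat_lit 0, nat_lit 0, nat_lit 0, nat_lit 0, nat_lit 0, nat_lit 0, nat_lit 0, nat_lit 0, nat_lit 0, nat_lit 0, [],
 ⟨p056_k30, nat_lit 0, nat_lit 0, nat_lit 431, nat_lit 0, nat_lit 606133, [nat_lit 3282000000, nat_lit 6250000000, nat_lit 7968000000], [], [nat_lit 28785942424, nat_lit 28105401726, nat_lit 27937216252, nat_lit 28240187221, nat_lit 25072366336, nat_lit 25366336099, nat_lit 25224676828, nat_lit 25484809481], nat_lit 1271250, nat_lit 1271250, nat_lit 490000, nat_lit 1100001, nat_lit 0, nat_lit 490000, [nat_lit 780000, nat_lit 1435000, nat_lit 1271250], [nat_lit 18, nat_lit 40, nat_lit 40, nat_lit 80, nat_lit 2, nat_lit 272, nat_lit 60, nat_lit 9]⟩, ⟨p056_k31, nat_lit 0, nat_lit 0, nat_lit 9, nat_lit 0, nat_lit 0, [nat_lit 4688000000, nat_lit 7968000000, nat_lit 9842000000], [], [nat_lit 7261818000, nat_lit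 11435424320, nat_lit 8536445760, nat_lit 12204471520, nat_lit 12285835440, nat_lit 15725603600, nat_lit 12924742880, nat_lit 15950664400], nat_lit 0, nat_lit 0, nat_lit 0, nat_lit 0, nat_lit 0, nat_lit 0, [], [nat_lit 29, nat_lit 40, nat_lit 40, nat_lit 80, nat_lit 17, nat_lit 401, nat_lit 175, nat_lit 11]⟩,
 zbF0, []⟩
noncomputable def p056_l121 : Lf2 := ⟨nat_lit 0, nat_lit 10, [nat_lit 0, nat_lit 5, nat_lit 5, nat_lit 20], false, nat_lit 0, nat_lit 80, nat_lit 160, nat_lit 240, ⟨nat_lit 1000, nat_lit 0, nat_lit 0, nat_lit 0, nat_lit 0, nat_lit 0, nat_lit 0, nat_lit 0, nat_lit 0, nat_lit 0, nat_lit 0, nat_lit 0, nat_lit 0, nat_lit 0, nat_lit 0, nat_lit 0, false, false⟩,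
 nat_lit 0, nat_lit 11176, nat_lit 0, nat_lit 0, nat_lit 7112, nat_lit 7620, nat_lit 1128, nat_lit 0, nat_lit 0, nat_lit 0, nat_lit 0, nat_lit 0, nat_lit 0, nat_lit 0, nat_lit 0, nat_lit 0, nat_lit 0, nat_lit 0, [],
 ⟨p056_k0, nat_lit 0, nat_lit 0, nat_lit 438, nat_lit 0, nat_lit 433137, [nat_lit 3282000000, nat_lit 6250000000, nat_lit 9842000000], [], [nat_lit 28723246496, nat_lit 27898071308, nat_lit 27686722208, nat_lit 28006699084, nat_lit 24714640544, nat_lit 25011072344, nat_lit 24844514912, nat_lit 25106687772], nat_lit 1271250, nat_lit 1271250, nat_lit 490000, nat_lit 1100001, nat_lit 0, nat_lit 490000, [nat_lit 780000, nat_lit 1435000, nat_lit 1271250], [nat_lit 8, nat_lit 40, nat_lit 40, nat_lit 80, nat_lit 1, nat_lit 272, nat_lit 60, nat_lit 8]⟩, ⟨p056_k22, nat_lit 0, nat_lit 0, nat_lit 9, nat_lit 0, nat_lit 0, [nat_lit 4688000000, nat_lit 7968000000, nat_lit 11872000000], [], [nat_lit 7261818000, nat_lit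 11435424320, nat_lit 8536445760, nat_lit 12204471520, nat_lit 12285835440, nat_lit 15725603600, nat_lit 12924742880, nat_lit 15950664400], nat_lit 0, nat_lit 0, nat_lit 0, nat_lit 0, nat_lit 0, nat_lit 0, [], [nat_lit 21, nat_lit 40, nat_lit 40, nat_lit 80, nat_lit 14, nat_lit 401, nat_lit 175, nat_lit 10]⟩,
 zbF0, []⟩
noncomputable def p056_l122 : Lf2 := ⟨nat_lit 0, nat_lit 10, [nat_lit 0, nat_lit 5, nat_lit 5, nat_lit 20], false, nat_lit 0, nat_lit 80, nat_lit 160, nat_lit 240, ⟨nat_lit 1000, nat_lit 0, nat_lit 0, nat_lit 0, nat_lit 0, nat_lit 0, nat_lit 0, nat_lit 0, nat_lit 0, nat_lit 0, nat_lit 0, nat_lit 0, nat_lit 0, nat_lit 0, nat_lit 0, nat_lit 0, false, false⟩,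
 nat_lit 0, nat_lit 11005, nat_lit 0, nat_lit 0, nat_lit 7003, nat_lit 7620, nat_lit 1125, nat_lit 0, nat_lit 0, nat_lit 0, nat_lit 0, nat_lit 0, nat_lit 0, nat_lit 0, nat_lit 0, nat_lit 0, nat_lit 0, nat_lit 0, [],
 ⟨p056_k0, nat_lit 0, nat_lit 0, nat_lit 496, nat_lit 0, nat_lit 589333, [nat_lit 3282000000, nat_lit 6250000000, nat_lit 9842000000], [], [nat_lit 28785942424, nat_lit 28105401726, nat_lit 27937216252, nat_lit 28240187221, nat_lit 25072366336, nat_lit 25366336099, nat_lit 25224676828, nat_lit 25484809481], nat_lit 1271250, nat_lit 1271250, nat_lit 490000, nat_lit 1100001, nat_lit 0, nat_lit 490000, [nat_lit 780000, nat_lit 1435000, nat_lit 1271250], [nat_lit 8, nat_lit 40, nat_lit 40, nat_lit 80, nat_lit 1, nat_lit 272, nat_lit 60, nat_lit 8]⟩, ⟨p056_k22, nat_lit 0, nat_lit 0, nat_lit 9, nat_lit 0, nat_lit 0, [nat_lit 4688000000, nat_lit 7968000000, nat_lit 11872000000], [], [nat_lit 7261818000, nat_lit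 11435424320, nat_lit 8536445760, nat_lit 12204471520, nat_lit 12285835440, nat_lit 15725603600, nat_lit 12924742880, nat_lit 15950664400], nat_lit 0, nat_lit 0, nat_lit 0, nat_lit 0, nat_lit 0, nat_lit 0, [], [nat_lit 21, nat_lit 40, nat_lit 40, nat_lit 80, nat_lit 14, nat_lit 401, nat_lit 175, nat_lit 10]⟩,
 zbF0, []⟩
noncomputable def p056_l123 : Lf2 := ⟨nat_lit 0, nat_lit 10, [nat_lit 0, nat_lit 5, nat_lit 5, nat_lit 20], false, nat_lit 0, nat_lit 80, nat_lit 160, nat_lit 240, ⟨nat_lit 1000, nat_lit 0, nat_lit 0, nat_lit 0, nat_lit 0, nat_lit 0, nat_lit 0, nat_lit 0, nat_lit 0, nat_lit 0, nat_lit 0, nat_lit 0, nat_lit 0, nat_lit 0, nat_lit 0, nat_lit 0, false, false⟩,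
 nat_lit 0, nat_lit 10995, nat_lit 0, nat_lit 0, nat_lit 7148, nat_lit 7620, nat_lit 3923, nat_lit 0, nat_lit 0, nat_lit 0, nat_lit 0, nat_lit 0, nat_lit 0, nat_lit 0, nat_lit 0, nat_lit 0, nat_lit 0, nat_lit 0, [],
 ⟨p056_k36, nat_lit 0, nat_lit 0, nat_lit 619, nat_lit 0, nat_lit 828933, [nat_lit 3282000000, nat_lit 6250000000, nat_lit 9842000000], [], [nat_lit 25934539313, nat_lit 25061273380, nat_lit 24572985828, nat_lit 24761072940, nat_lit 22396724286, nat_lit 22593908640, nat_lit 22105159956, nat_lit 22279045580], nat_lit 1271250, nat_lit 1271250, nat_lit 490000, nat_lit 1100001, nat_lit 0, nat_lit 490000, [nat_lit 780000, nat_lit 1435000, nat_lit 1271250], [nat_lit 8, nat_lit 40, nat_lit 40, nat_lit 80, nat_lit 1, nat_lit 272, nat_lit 60, nat_lit 8]⟩, ⟨p056_k22, nat_lit 0, nat_lit 0, nat_lit 9, nat_lit 0, nat_lit 0, [nat_lit 4688000000, nat_lit 7968000000, nat_lit 11872000000], [], [nat_lit 7261818000, nat_lit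 11435424320, nat_lit 8536445760, nat_lit 12204471520, nat_lit 12285835440, nat_lit 15725603600, nat_lit 12924742880, nat_lit 15950664400], nat_lit 0, nat_lit 0, nat_lit 0, nat_lit 0, nat_lit 0, nat_lit 0, [], [nat_lit 21, nat_lit 40, nat_lit 40, nat_lit 80, nat_lit 14, nat_lit 401, nat_lit 175, nat_lit 10]⟩,
 zbF0, []⟩
noncomputable def p056_l124 : Lf2 := ⟨nat_lit 0, nat_lit 10, [nat_lit 0, nat_lit 5, nat_lit 5, nat_lit 20], false, nat_lit 0, nat_lit 80, nat_lit 160, nat_lit 240, ⟨nat_lit 1000, nat_lit 0, nat_lit 0, nat_lit 0, nat_lit 0, nat_lit 0, nat_lit 0, nat_lit 0, nat_lit 0, nat_lit 0, nat_lit 0, nat_lit 0, nat_lit 0, nat_lit 0, nat_lit 0, nat_lit 0, false, false⟩,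
 nat_lit 0, nat_lit 9867, nat_lit 0, nat_lit 0, nat_lit 6552, nat_lit 7620, nat_lit 3455, nat_lit 0, nat_lit 0, nat_lit 0, nat_lit 0, nat_lit 0, nat_lit 0, nat_lit 0, nat_lit 0, nat_lit 0, nat_lit 0, nat_lit 0, [],
 ⟨p056_k28, nat_lit 0, nat_lit 0, nat_lit 572, nat_lit 0, nat_lit 896702, [nat_lit 3282000000, nat_lit 6250000000, nat_lit 7968000000], [], [nat_lit 24103919758, nat_lit 22546695582, nat_lit 21861015902, nat_lit 22176460446, nat_lit 19961249886, nat_lit 20291813534, nat_lit 19623075334, nat_lit 19915316814], nat_lit 1271250, nat_lit 1271250, nat_lit 490000, nat_lit 1100001, nat_lit 0, nat_lit 490000, [nat_lit 780000, nat_lit 1435000, nat_lit 1271250], [nat_lit 18, nat_lit 40, nat_lit 40, nat_lit 80, nat_lit 2, nat_lit 272, nat_lit 60, nat_lit 9]⟩, ⟨p056_k22, nat_lit 0, nat_lit 0, nat_lit 9, nat_lit 0, nat_lit 0, [nat_lit 4688000000, nat_lit 7968000000, nat_lit 11872000000], [], [nat_lit 7261818000, nat_lit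 11435424320, nat_lit 8536445760, nat_lit 12204471520, nat_lit 12285835440, nat_lit 15725603600, nat_lit 12924742880, nat_lit 15950664400], nat_lit 0, nat_lit 0, nat_lit 0, nat_lit 0, nat_lit 0, nat_lit 0, [], [nat_lit 21, nat_lit 40, nat_lit 40, nat_lit 80, nat_lit 14, nat_lit 401, nat_lit 175, nat_lit 10]⟩,
 zbF0, []⟩
noncomputable def p056_l125 : Lf2 := ⟨nat_lit 0, nat_lit 5, [nat_lit 4, nat_lit 5, nat_lit 5, nat_lit 20], false, nat_lit 80, nat_lit 160, nat_lit 160, nat_lit 240, ⟨nat_lit 1000, nat_lit 0, nat_lit 0, nat_lit 0, nat_lit 0, nat_lit 0, nat_lit 0, nat_lit 0, nat_lit 0, nat_lit 0, nat_lit 0, nat_lit 0, nat_lit 0, nat_lit 0, nat_lit 0, nat_lit 0, false, false⟩,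
 nat_lit 0, nat_lit 11671, nat_lit 0, nat_lit 0, nat_lit 7426, nat_lit 7620, nat_lit 838, nat_lit 0, nat_lit 0, nat_lit 0, nat_lit 0, nat_lit 0, nat_lit 0, nat_lit 0, nat_lit 0, nat_lit 0, nat_lit 0, nat_lit 0, [],
 ⟨p056_k30, nat_lit 0, nat_lit 0, nat_lit 441, nat_lit 0, nat_lit 781602, [nat_lit 3282000000, nat_lit 6250000000, nat_lit 7968000000], [], [nat_lit 25574636208, nat_lit 24622144031, nat_lit 23749369576, nat_lit 24017419731, nat_lit 23749369576, nat_lit 24017419731, nat_lit 28811263648, nat_lit 27959553430], nat_lit 1271250, nat_lit 1271250, nat_lit 490000, nat_lit 1100001, nat_lit 490000, nat_lit 1100001, [nat_lit 780000, nat_lit 1435000, nat_lit 1271250], [nat_lit 18, nat_lit 40, nat_lit 40, nat_lit 80, nat_lit 2, nat_lit 317, nat_lit 100, nat_lit 10]⟩, ⟨p056_k31, nat_lit 0, nat_lit 0, nat_lit 9, nat_lit 0, nat_lit 0, [nat_lit 4688000000, nat_lit 7968000000, nat_lit 9842000000], [], [nat_lit 7261818000,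 nat_lit 11435424320, nat_lit 8536445760, nat_lit 12204471520, nat_lit 12285835440, nat_lit 15725603600, nat_lit 12924742880, nat_lit 15950664400], nat_lit 0, nat_lit 0, nat_lit 0, nat_lit 0, nat_lit 0, nat_lit 0, [], [nat_lit 29, nat_lit 40, nat_lit 40, nat_lit 80, nat_lit 17, nat_lit 401, nat_lit 175, nat_lit 11]⟩,
 zbF0, []⟩
noncomputable def p056_l126 : Lf2 := ⟨nat_lit 0, nat_lit 10, [nat_lit 0, nat_lit 5, nat_lit 5, nat_lit 20], false, nat_lit 80, nat_lit 160, nat_lit 160, nat_lit 240, ⟨nat_lit 1000, nat_lit 0, nat_lit 0, nat_lit 0, nat_lit 0, nat_lit 0, nat_lit 0, nat_lit 0, nat_lit 0, nat_lit 0, nat_lit 0, nat_lit 0, nat_lit 0, nat_lit 0, nat_lit 0, nat_lit 0, false, false⟩,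
 nat_lit 0, nat_lit 16588, nat_lit 0, nat_lit 0, nat_lit 10556, nat_lit 7620, nat_lit 1316, nat_lit 0, nat_lit 0, nat_lit 0, nat_lit 0, nat_lit 0, nat_lit 0, nat_lit 0, nat_lit 0, nat_lit 0, nat_lit 0, nat_lit 0, [],
 ⟨p056_k0, nat_lit 0, nat_lit 0, nat_lit 335, nat_lit 0, nat_lit 447315, [nat_lit 3282000000, nat_lit 6250000000, nat_lit 9842000000], [], [nat_lit 15596604752, nat_lit 14764389536, nat_lit 14672475760, nat_lit 13824552756, nat_lit 14672475760, nat_lit 13824552756, nat_lit 23106049888, nat_lit 21895350580], nat_lit 1271250, nat_lit 1271250, nat_lit 490000, nat_lit 1100001, nat_lit 490000, nat_lit 1100001, [nat_lit 780000, nat_lit 1435000, nat_lit 1271250], [nat_lit 8, nat_lit 40, nat_lit 40, nat_lit 80, nat_lit 1, nat_lit 317, nat_lit 100, nat_lit 9]⟩, ⟨p056_k22, nat_lit 0, nat_lit 0, nat_lit 9, nat_lit 0, nat_lit 0, [nat_lit 4688000000, nat_lit 7968000000, nat_lit 11872000000], [], [nat_lit 7261818000,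 nat_lit 11435424320, nat_lit 8536445760, nat_lit 12204471520, nat_lit 12285835440, nat_lit 15725603600, nat_lit 12924742880, nat_lit 15950664400], nat_lit 0, nat_lit 0, nat_lit 0, nat_lit 0, nat_lit 0, nat_lit 0, [], [nat_lit 21, nat_lit 40, nat_lit 40, nat_lit 80, nat_lit 14, nat_lit 401, nat_lit 175, nat_lit 10]⟩,
 zbF0, []⟩
noncomputable def p056_l127 : Lf2 := ⟨nat_lit 0, nat_lit 10, [nat_lit 0, nat_lit 5, nat_lit 5, nat_lit 20], false, nat_lit 80, nat_lit 160, nat_lit 160, nat_lit 240, ⟨nat_lit 1000, nat_lit 0, nat_lit 0, nat_lit 0, nat_lit 0, nat_lit 0, nat_lit 0, nat_lit 0, nat_lit 0, nat_lit 0, nat_lit 0, nat_lit 0, nat_lit 0, nat_lit 0, nat_lit 0, nat_lit 0, false, false⟩,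
 nat_lit 0, nat_lit 11190, nat_lit 0, nat_lit 0, nat_lit 7275, nat_lit 7620, nat_lit 3999, nat_lit 0, nat_lit 0, nat_lit 0, nat_lit 0, nat_lit 0, nat_lit 0, nat_lit 0, nat_lit 0, nat_lit 0, nat_lit 0, nat_lit 0, [],
 ⟨p056_k36, nat_lit 0, nat_lit 0, nat_lit 562, nat_lit 0, nat_lit 828933, [nat_lit 3282000000, nat_lit 6250000000, nat_lit 9842000000], [], [nat_lit 24728365963, nat_lit 23795241725, nat_lit 20974813250, nat_lit 21175541600, nat_lit 20974813250, nat_lit 21175541600, nat_lit 24478051375, nat_lit 23643659800], nat_lit 1271250, nat_lit 1271250, nat_lit 490000, nat_lit 1100001, nat_lit 490000, nat_lit 1100001, [nat_lit 780000, nat_lit 1435000, nat_lit 1271250], [nat_lit 8, nat_lit 40, nat_lit 40, nat_lit 80, nat_lit 1, nat_lit 317, nat_lit 100, nat_lit 9]⟩, ⟨p056_k22, nat_lit 0, nat_lit 0, nat_lit 9, nat_lit 0, nat_lit 0, [nat_lit 4688000000, nat_lit 7968000000, nat_lit 11872000000], [], [nat_lit 7261818000,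 nat_lit 11435424320, nat_lit 8536445760, nat_lit 12204471520, nat_lit 12285835440, nat_lit 15725603600, nat_lit 12924742880, nat_lit 15950664400], nat_lit 0, nat_lit 0, nat_lit 0, nat_lit 0, nat_lit 0, nat_lit 0, [], [nat_lit 21, nat_lit 40, nat_lit 40, nat_lit 80, nat_lit 14, nat_lit 401, nat_lit 175, nat_lit 10]⟩,
 zbF0, []⟩
noncomputable def p056_l128 : Lf2 := ⟨nat_lit 0, nat_lit 10, [nat_lit 0, nat_lit 5, nat_lit 5, nat_lit 20], false, nat_lit 80, nat_lit 160, nat_lit 160, nat_lit 240, ⟨nat_lit 1000, nat_lit 0, nat_lit 0, nat_lit 0, nat_lit 0, nat_lit 0, nat_lit 0, nat_lit 0, nat_lit 0, nat_lit 0, nat_lit 0, nat_lit 0, nat_lit 0, nat_lit 0, nat_lit 0, nat_lit 0, false, false⟩,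
 nat_lit 0, nat_lit 11222, nat_lit 0, nat_lit 0, nat_lit 7452, nat_lit 7620, nat_lit 3991, nat_lit 0, nat_lit 0, nat_lit 0, nat_lit 0, nat_lit 0, nat_lit 0, nat_lit 0, nat_lit 0, nat_lit 0, nat_lit 0, nat_lit 0, [],
 ⟨p056_k28, nat_lit 0, nat_lit 0, nat_lit 512, nat_lit 0, nat_lit 896702, [nat_lit 3282000000, nat_lit 6250000000, nat_lit 7968000000], [], [nat_lit 13221499856, nat_lit 13722773946, nat_lit 14111126594, nat_lit 13570956834, nat_lit 14111126594, nat_lit 13570956834, nat_lit 21012665350, nat_lit 19325502742], nat_lit 1271250, nat_lit 1271250, nat_lit 490000, nat_lit 1100001, nat_lit 490000, nat_lit 1100001, [nat_lit 780000, nat_lit 1435000, nat_lit 1271250], [nat_lit 18, nat_lit 40, nat_lit 40, nat_lit 80, nat_lit 2, nat_lit 317, nat_lit 100, nat_lit 10]⟩, ⟨p056_k22, nat_lit 0, nat_lit 0, nat_lit 9, nat_lit 0, nat_lit 0, [nat_lit 4688000000, nat_lit 7968000000, nat_lit 11872000000], [], [nat_lit 7261818000,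 nat_lit 11435424320, nat_lit 8536445760, nat_lit 12204471520, nat_lit 12285835440, nat_lit 15725603600, nat_lit 12924742880, nat_lit 15950664400], nat_lit 0, nat_lit 0, nat_lit 0, nat_lit 0, nat_lit 0, nat_lit 0, [], [nat_lit 21, nat_lit 40, nat_lit 40, nat_lit 80, nat_lit 14, nat_lit 401, nat_lit 175, nat_lit 10]⟩,
 zbF0, [⟨nat_lit 0, nat_lit 100, nat_lit 94, nat_lit 88, nat_lit 206256044⟩]⟩
noncomputable def p056_l129 : Lf2 := ⟨nat_lit 0, nat_lit 1, [nat_lit 19, nat_lit 5, nat_lit 5, nat_lit 20], false, nat_lit 0, nat_lit 160, nat_lit 240, nat_lit 312, ⟨nat_lit 1000, nat_lit 0, nat_lit 0, nat_lit 0, nat_lit 0, nat_lit 0, nat_lit 0, nat_lit 0, nat_lit 0, nat_lit 0, nat_lit 0, nat_lit 0, nat_lit 0, nat_lit 0, nat_lit 0, nat_lit 0, false, false⟩,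
 nat_lit 0, nat_lit 9918, nat_lit 0, nat_lit 0, nat_lit 6311, nat_lit 7620, nat_lit 0, nat_lit 0, nat_lit 0, nat_lit 0, nat_lit 0, nat_lit 0, nat_lit 0, nat_lit 0, nat_lit 0, nat_lit 0, nat_lit 0, nat_lit 0, [],
 ⟨p056_k37, nat_lit 0, nat_lit 0, nat_lit 334, nat_lit 0, nat_lit 735550, [nat_lit 3282000000, nat_lit 4688000000], [], [nat_lit 29027975288, nat_lit 28218498029, nat_lit 25426838776, nat_lit 25701178105, nat_lit 23464773108, nat_lit 23719273685, nat_lit 28427851944, nat_lit 27713434122], nat_lit 1271250, nat_lit 1271250, nat_lit 490000, nat_lit 1100001, nat_lit 0, nat_lit 1100001, [nat_lit 780000, nat_lit 1100000], [nat_lit 40, nat_lit 40, nat_lit 40, nat_lit 80, nat_lit 22, nat_lit 317, nat_lit 100, nat_lit 15]⟩, ⟨p056_k38, nat_lit 0, nat_lit 0, nat_lit 45, nat_lit 0, nat_lit 0, [nat_lit 4688000000, nat_lit 6250000000], [], [nat_lit 12285835440, nat_lit 15725603600, nat_lit 12924742880, nat_lit 15950664400,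 nat_lit 19524327464, nat_lit 22717829792, nat_lit 19185549168, nat_lit 22024020641], nat_lit 0, nat_lit 0, nat_lit 0, nat_lit 0, nat_lit 0, nat_lit 0, [], [nat_lit 31, nat_lit 40, nat_lit 40, nat_lit 80, nat_lit 3, nat_lit 249, nat_lit 40, nat_lit 9]⟩,
 zbF0, [⟨nat_lit 7, nat_lit 96, nat_lit 100, nat_lit 69, nat_lit 1054614823⟩]⟩
noncomputable def p056_l130 : Lf2 := ⟨nat_lit 0, nat_lit 2, [nat_lit 10, nat_lit 5, nat_lit 5, nat_lit 20], false, nat_lit 0, nat_lit 160, nat_lit 240, nat_lit 312, ⟨nat_lit 1000, nat_lit 0, nat_lit 0, nat_lit 0, nat_lit 0, nat_lit 0, nat_lit 0, nat_lit 0, nat_lit 0, nat_lit 0, nat_lit 0, nat_lit 0, nat_lit 0, nat_lit 0, nat_lit 0, nat_lit 0, false, false⟩,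
 nat_lit 0, nat_lit 12434, nat_lit 0, nat_lit 0, nat_lit 7912, nat_lit 7620, nat_lit 0, nat_lit 0, nat_lit 0, nat_lit 0, nat_lit 0, nat_lit 0, nat_lit 0, nat_lit 0, nat_lit 0, nat_lit 0, nat_lit 0, nat_lit 0, [],
 ⟨p056_k33, nat_lit 0, nat_lit 0, nat_lit 357, nat_lit 0, nat_lit 659606, [nat_lit 3282000000, nat_lit 6250000000], [], [nat_lit 28263092896, nat_lit 27248264172, nat_lit 25953109408, nat_lit 26293024684, nat_lit 22360094880, nat_lit 22676533280, nat_lit 27925406176, nat_lit 27017955160], nat_lit 1271250, nat_lit 1271250, nat_lit 490000, nat_lit 1100001, nat_lit 0, nat_lit 1100001, [nat_lit 780000, nat_lit 1435000], [nat_lit 49, nat_lit 40, nat_lit 40, nat_lit 80, nat_lit 16, nat_lit 317, nat_lit 100, nat_lit 12]⟩, ⟨p056_k34, nat_lit 0, nat_lit 0, nat_lit 45, nat_lit 0, nat_lit 0, [nat_lit 4688000000, nat_lit 7968000000], [], [nat_lit 12285835440, nat_lit 15725603600, nat_lit 12924742880, nat_lit 15950664400,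 nat_lit 19524327464, nat_lit 22717829792, nat_lit 19185549168, nat_lit 22024020641], nat_lit 0, nat_lit 0, nat_lit 0, nat_lit 0, nat_lit 0, nat_lit 0, [], [nat_lit 39, nat_lit 40, nat_lit 40, nat_lit 80, nat_lit 7, nat_lit 249, nat_lit 40, nat_lit 7]⟩,
 zbF0, [⟨nat_lit 7, nat_lit 96, nat_lit 100, nat_lit 69, nat_lit 1054614823⟩]⟩
noncomputable def p056_l131 : Lf2 := ⟨nat_lit 0, nat_lit 5, [nat_lit 4, nat_lit 5, nat_lit 5, nat_lit 20], false, nat_lit 0, nat_lit 160, nat_lit 240, nat_lit 312, ⟨nat_lit 1000, nat_lit 0, nat_lit 0, nat_lit 0, nat_lit 0, nat_lit 0, nat_lit 0, nat_lit 0, nat_lit 0, nat_lit 0, nat_lit 0, nat_lit 0, nat_lit 0, nat_lit 0, nat_lit 0, nat_lit 0, false, false⟩,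
 nat_lit 0, nat_lit 12459, nat_lit 0, nat_lit 0, nat_lit 7928, nat_lit 7620, nat_lit 845, nat_lit 0, nat_lit 0, nat_lit 0, nat_lit 0, nat_lit 0, nat_lit 0, nat_lit 0, nat_lit 0, nat_lit 0, nat_lit 0, nat_lit 0, [],
 ⟨p056_k30, nat_lit 0, nat_lit 0, nat_lit 431, nat_lit 0, nat_lit 606133, [nat_lit 3282000000, nat_lit 6250000000, nat_lit 7968000000], [], [nat_lit 28253889824, nat_lit 27237008868, nat_lit 26041484468, nat_lit 26351358288, nat_lit 22342401748, nat_lit 22632411320, nat_lit 27896242144, nat_lit 26986956040], nat_lit 1271250, nat_lit 1271250, nat_lit 490000, nat_lit 1100001, nat_lit 0, nat_lit 1100001, [nat_lit 780000, nat_lit 1435000, nat_lit 1271250], [nat_lit 18, nat_lit 40, nat_lit 40, nat_lit 80, nat_lit 2, nat_lit 317, nat_lit 100, nat_lit 11]⟩, ⟨p056_k31, nat_lit 0, nat_lit 0, nat_lit 69, nat_lit 0, nat_lit 0, [nat_lit 4688000000, nat_lit 7968000000, nat_lit 9842000000], [], [nat_lit 12285835440,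 nat_lit 15725603600, nat_lit 12924742880, nat_lit 15950664400, nat_lit 19524327464, nat_lit 22717829792, nat_lit 19185549168, nat_lit 22024020641], nat_lit 0, nat_lit 0, nat_lit 0, nat_lit 0, nat_lit 0, nat_lit 0, [], [nat_lit 29, nat_lit 40, nat_lit 40, nat_lit 80, nat_lit 17, nat_lit 428, nat_lit 200, nat_lit 12]⟩,
 zbF0, [⟨nat_lit 7, nat_lit 96, nat_lit 100, nat_lit 69, nat_lit 1054614823⟩]⟩
noncomputable def p056_l132 : Lf2 := ⟨nat_lit 0, nat_lit 5, [nat_lit 4, nat_lit 5, nat_lit 5, nat_lit 20], false, nat_lit 0, nat_lit 160, nat_lit 240, nat_lit 336, ⟨nat_lit 1000, nat_lit 0, nat_lit 0, nat_lit 0, nat_lit 0, nat_lit 0, nat_lit 0, nat_lit 0, nat_lit 0, nat_lit 0, nat_lit 0, nat_lit 0, nat_lit 0, nat_lit 0, nat_lit 0, nat_lit 0, false, false⟩,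
 nat_lit 0, nat_lit 12470, nat_lit 0, nat_lit 0, nat_lit 7935, nat_lit 7620, nat_lit 852, nat_lit 0, nat_lit 0, nat_lit 0, nat_lit 0, nat_lit 0, nat_lit 0, nat_lit 0, nat_lit 0, nat_lit 0, nat_lit 0, nat_lit 0, [],
 ⟨p056_k30, nat_lit 0, nat_lit 0, nat_lit 416, nat_lit 0, nat_lit 570653, [nat_lit 3282000000, nat_lit 6250000000, nat_lit 7968000000], [], [nat_lit 28249863480, nat_lit 27232084673, nat_lit 26001273360, nat_lit 26311299010, nat_lit 22297841960, nat_lit 22613107963, nat_lit 27883482880, nat_lit 26973393925], nat_lit 1271250, nat_lit 1271250, nat_lit 490000, nat_lit 1100001, nat_lit 0, nat_lit 1100001, [nat_lit 780000, nat_lit 1435000, nat_lit 1271250], [nat_lit 18, nat_lit 40, nat_lit 40, nat_lit 80, nat_lit 2, nat_lit 317, nat_lit 100, nat_lit 11]⟩, ⟨p056_k31, nat_lit 0, nat_lit 0, nat_lit 88, nat_lit 0, nat_lit 0, [nat_lit 4688000000, nat_lit 7968000000, nat_lit 9842000000], [], [nat_lit 12285835440,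 nat_lit 15725603600, nat_lit 12924742880, nat_lit 15950664400, nat_lit 22505486529, nat_lit 25388651201, nat_lit 21835467360, nat_lit 24404053409], nat_lit 0, nat_lit 0, nat_lit 0, nat_lit 0, nat_lit 0, nat_lit 0, [], [nat_lit 29, nat_lit 40, nat_lit 40, nat_lit 80, nat_lit 17, nat_lit 428, nat_lit 200, nat_lit 12]⟩,
 zbF0, [⟨nat_lit 7, nat_lit 89, nat_lit 100, nat_lit 80, nat_lit 939047208⟩]⟩
noncomputable def p056_l133 : Lf2 := ⟨nat_lit 0, nat_lit 5, [nat_lit 4, nat_lit 5, nat_lit 5, nat_lit 20], false, nat_lit 0, nat_lit 160, nat_lit 240, nat_lit 336, ⟨nat_lit 1000, nat_lit 0, nat_lit 0, nat_lit 0, nat_lit 0, nat_lit 0, nat_lit 0, nat_lit 0, nat_lit 0, nat_lit 0, nat_lit 0, nat_lit 0, nat_lit 0, nat_lit 0, nat_lit 0, nat_lit 0, false, false⟩,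
 nat_lit 0, nat_lit 11543, nat_lit 0, nat_lit 0, nat_lit 7505, nat_lit 7620, nat_lit 4095, nat_lit 0, nat_lit 0, nat_lit 0, nat_lit 0, nat_lit 0, nat_lit 0, nat_lit 0, nat_lit 0, nat_lit 0, nat_lit 0, nat_lit 0, [],
 ⟨p056_k39, nat_lit 0, nat_lit 0, nat_lit 532, nat_lit 0, nat_lit 802794, [nat_lit 3282000000, nat_lit 6250000000, nat_lit 7968000000], [], [nat_lit 25602242843, nat_lit 24639617770, nat_lit 22863618648, nat_lit 23114147315, nat_lit 19813189950, nat_lit 20016612520, nat_lit 23941839025, nat_lit 23081068060], nat_lit 1271250, nat_lit 1271250, nat_lit 490000, nat_lit 1100001, nat_lit 0, nat_lit 1100001, [nat_lit 780000, nat_lit 1435000, nat_lit 1271250], [nat_lit 18, nat_lit 40, nat_lit 40, nat_lit 80, nat_lit 2, nat_lit 317, nat_lit 100, nat_lit 11]⟩, ⟨p056_k31, nat_lit 0, nat_lit 0, nat_lit 88, nat_lit 0, nat_lit 0, [nat_lit 4688000000, nat_lit 7968000000, nat_lit 9842000000], [], [nat_lit 12285835440,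 nat_lit 15725603600, nat_lit 12924742880, nat_lit 15950664400, nat_lit 22505486529, nat_lit 25388651201, nat_lit 21835467360, nat_lit 24404053409], nat_lit 0, nat_lit 0, nat_lit 0, nat_lit 0, nat_lit 0, nat_lit 0, [], [nat_lit 29, nat_lit 40, nat_lit 40, nat_lit 80, nat_lit 17, nat_lit 428, nat_lit 200, nat_lit 12]⟩,
 zbF0, [⟨nat_lit 7, nat_lit 92, nat_lit 100, nat_lit 75, nat_lit 1001650356⟩]⟩
noncomputable def p056_l134 : Lf2 := ⟨nat_lit 0, nat_lit 10, [nat_lit 0, nat_lit 5, nat_lit 5, nat_lit 20], false, nat_lit 0, nat_lit 160, nat_lit 240, nat_lit 336, ⟨nat_lit 1000, nat_lit 0, nat_lit 0, nat_lit 0, nat_lit 0, nat_lit 0, nat_lit 0, nat_lit 0, nat_lit 0, nat_lit 0, nat_lit 0, nat_lit 0, nat_lit 0, nat_lit 0, nat_lit 0, nat_lit 0, false, false⟩,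
 nat_lit 0, nat_lit 13628, nat_lit 0, nat_lit 0, nat_lit 8672, nat_lit 7620, nat_lit 1122, nat_lit 0, nat_lit 0, nat_lit 0, nat_lit 0, nat_lit 0, nat_lit 0, nat_lit 0, nat_lit 0, nat_lit 0, nat_lit 0, nat_lit 0, [],
 ⟨p056_k0, nat_lit 0, nat_lit 0, nat_lit 462, nat_lit 0, nat_lit 494551, [nat_lit 3282000000, nat_lit 6250000000, nat_lit 9842000000], [], [nat_lit 27825946976, nat_lit 25602363994, nat_lit 24306177248, nat_lit 25023890760, nat_lit 20247097280, nat_lit 20914383080, nat_lit 26540114656, nat_lit 24550879264], nat_lit 1271250, nat_lit 1271250, nat_lit 490000, nat_lit 1100001, nat_lit 0, nat_lit 1100001, [nat_lit 780000, nat_lit 1435000, nat_lit 1271250], [nat_lit 8, nat_lit 40, nat_lit 40, nat_lit 80, nat_lit 1, nat_lit 317, nat_lit 100, nat_lit 9]⟩, ⟨p056_k22, nat_lit 0, nat_lit 0, nat_lit 88, nat_lit 0, nat_lit 0, [nat_lit 4688000000, nat_lit 7968000000, nat_lit 11872000000], [], [nat_lit 12285835440,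 nat_lit 15725603600, nat_lit 12924742880, nat_lit 15950664400, nat_lit 22505486529, nat_lit 25388651201, nat_lit 21835467360, nat_lit 24404053409], nat_lit 0, nat_lit 0, nat_lit 0, nat_lit 0, nat_lit 0, nat_lit 0, [], [nat_lit 21, nat_lit 40, nat_lit 40, nat_lit 80, nat_lit 14, nat_lit 428, nat_lit 200, nat_lit 10]⟩,
 zbF0, [⟨nat_lit 7, nat_lit 92, nat_lit 100, nat_lit 75, nat_lit 1001650356⟩]⟩
noncomputable def p056_l135 : Lf2 := ⟨nat_lit 0, nat_lit 10, [nat_lit 0, nat_lit 5, nat_lit 5, nat_lit 20], false, nat_lit 0, nat_lit 160, nat_lit 240, nat_lit 336, ⟨nat_lit 1000, nat_lit 0, nat_lit 0, nat_lit 0, nat_lit 0, nat_lit 0, nat_lit 0, nat_lit 0, nat_lit 0, nat_lit 0, nat_lit 0, nat_lit 0, nat_lit 0, nat_lit 0, nat_lit 0, nat_lit 0, false, false⟩,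
 nat_lit 0, nat_lit 11592, nat_lit 0, nat_lit 0, nat_lit 7698, nat_lit 7620, nat_lit 2861, nat_lit 0, nat_lit 0, nat_lit 0, nat_lit 0, nat_lit 0, nat_lit 0, nat_lit 0, nat_lit 0, nat_lit 0, nat_lit 0, nat_lit 0, [],
 ⟨p056_k28, nat_lit 0, nat_lit 0, nat_lit 572, nat_lit 0, nat_lit 896702, [nat_lit 3282000000, nat_lit 6250000000, nat_lit 7968000000], [], [nat_lit 23711354992, nat_lit 21736594750, nat_lit 19706372504, nat_lit 20088644438, nat_lit 16696209184, nat_lit 17049856598, nat_lit 21472294650, nat_lit 19729436658], nat_lit 1271250, nat_lit 1271250, nat_lit 490000, nat_lit 1100001, nat_lit 0, nat_lit 1100001, [nat_lit 780000, nat_lit 1435000, nat_lit 1271250], [nat_lit 18, nat_lit 40, nat_lit 40, nat_lit 80, nat_lit 2, nat_lit 317, nat_lit 100, nat_lit 11]⟩, ⟨p056_k22, nat_lit 0, nat_lit 0, nat_lit 88, nat_lit 0, nat_lit 0, [nat_lit 4688000000, nat_lit 7968000000, nat_lit 11872000000], [], [nat_lit 12285835440,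 nat_lit 15725603600, nat_lit 12924742880, nat_lit 15950664400, nat_lit 22505486529, nat_lit 25388651201, nat_lit 21835467360, nat_lit 24404053409], nat_lit 0, nat_lit 0, nat_lit 0, nat_lit 0, nat_lit 0, nat_lit 0, [], [nat_lit 21, nat_lit 40, nat_lit 40, nat_lit 80, nat_lit 14, nat_lit 428, nat_lit 200, nat_lit 10]⟩,
 zbF0, [⟨nat_lit 7, nat_lit 92, nat_lit 100, nat_lit 75, nat_lit 1001650356⟩]⟩
noncomputable def p056_l136 : Lf2 := ⟨nat_lit 0, nat_lit 10, [nat_lit 0, nat_lit 5, nat_lit 5, nat_lit 20], false, nat_lit 0, nat_lit 160, nat_lit 0, nat_lit 160, ⟨nat_lit 1000, nat_lit 0, nat_lit 0, nat_lit 0, nat_lit 0, nat_lit 0, nat_lit 0, nat_lit 0, nat_lit 0, nat_lit 0, nat_lit 0, nat_lit 0, nat_lit 0, nat_lit 0, nat_lit 0, nat_lit 0, false, false⟩,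
 nat_lit 0, nat_lit 10265, nat_lit 0, nat_lit 0, nat_lit 7106, nat_lit 8164, nat_lit 1773, nat_lit 0, nat_lit 0, nat_lit 1805, nat_lit 0, nat_lit 0, nat_lit 0, nat_lit 0, nat_lit 0, nat_lit 0, nat_lit 0, nat_lit 0, [],
 ⟨p056_k11, nat_lit 0, nat_lit 0, nat_lit 642, nat_lit 0, nat_lit 1030462, [nat_lit 3282000000, nat_lit 6250000000, nat_lit 7968000000], [], [nat_lit 21706666875, nat_lit 22760504944, nat_lit 19664660981, nat_lit 22192524368, nat_lit 17380048449, nat_lit 18078949309, nat_lit 20649582351, nat_lit 17786031222], nat_lit 1271250, nat_lit 1271250, nat_lit 490000, nat_lit 1100001, nat_lit 0, nat_lit 1100001, [nat_lit 780000, nat_lit 1435000, nat_lit 1271250], [nat_lit 18, nat_lit 40, nat_lit 40, nat_lit 80, nat_lit 2, nat_lit 317, nat_lit 100, nat_lit 10]⟩, ⟨p056_k22, nat_lit 0, nat_lit 0, nat_lit 235, nat_lit 0, nat_lit 0, [nat_lit 4688000000, nat_lit 7968000000, nat_lit 11872000000], [], [nat_lit 20508070236,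 nat_lit 23725945936, nat_lit 20114074336, nat_lit 23688115504, nat_lit 16000624816, nat_lit 18952244576, nat_lit 16417325440, nat_lit 19000225056], nat_lit 0, nat_lit 0, nat_lit 0, nat_lit 0, nat_lit 0, nat_lit 0, [], [nat_lit 21, nat_lit 40, nat_lit 40, nat_lit 80, nat_lit 14, nat_lit 373, nat_lit 150, nat_lit 10]⟩,
 zbF0, [⟨nat_lit 0, nat_lit 100, nat_lit 87, nat_lit 95, nat_lit 570966636⟩]⟩
noncomputable def p056_l137 : Lf2 := ⟨nat_lit 0, nat_lit 10, [nat_lit 0, nat_lit 5, nat_lit 5, nat_lit 20], false, nat_lit 0, nat_lit 160, nat_lit 160, nat_lit 336, ⟨nat_lit 1000, nat_lit 0, nat_lit 0, nat_lit 0, nat_lit 0, nat_lit 0, nat_lit 0, nat_lit 0, nat_lit 0, nat_lit 0, nat_lit 0, nat_lit 0, nat_lit 0, nat_lit 0, nat_lit 0, nat_lit 0, false, false⟩,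
 nat_lit 0, nat_lit 10097, nat_lit 0, nat_lit 0, nat_lit 6990, nat_lit 8311, nat_lit 2053, nat_lit 0, nat_lit 0, nat_lit 0, nat_lit 0, nat_lit 0, nat_lit 0, nat_lit 0, nat_lit 0, nat_lit 0, nat_lit 0, nat_lit 0, [],
 ⟨p056_k11, nat_lit 0, nat_lit 0, nat_lit 642, nat_lit 0, nat_lit 1030462, [nat_lit 3282000000, nat_lit 6250000000, nat_lit 7968000000], [], [nat_lit 21300028875, nat_lit 22569055760, nat_lit 19251214800, nat_lit 22043356720, nat_lit 16960805755, nat_lit 17883814175, nat_lit 20429107415, nat_lit 18032527040], nat_lit 1271250, nat_lit 1271250, nat_lit 490000, nat_lit 1100001, nat_lit 0, nat_lit 1100001, [nat_lit 780000, nat_lit 1435000, nat_lit 1271250], [nat_lit 18, nat_lit 40, nat_lit 40, nat_lit 80, nat_lit 2, nat_lit 317, nat_lit 100, nat_lit 10]⟩, ⟨p056_k22, nat_lit 0, nat_lit 0, nat_lit 88, nat_lit 0, nat_lit 0, [nat_lit 4688000000, nat_lit 7968000000, nat_lit 11872000000], [], [nat_lit 6160571300,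 nat_lit 10581304096, nat_lit 7363851928, nat_lit 11241145656, nat_lit 22967305599, nat_lit 25994685840, nat_lit 22071103888, nat_lit 24761326943], nat_lit 0, nat_lit 0, nat_lit 0, nat_lit 0, nat_lit 0, nat_lit 0, [], [nat_lit 21, nat_lit 40, nat_lit 40, nat_lit 80, nat_lit 14, nat_lit 428, nat_lit 200, nat_lit 11]⟩,
 zbF0, [⟨nat_lit 0, nat_lit 100, nat_lit 88, nat_lit 81, nat_lit 182910852⟩, ⟨nat_lit 7, nat_lit 92, nat_lit 100, nat_lit 75, nat_lit 888415707⟩]⟩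
noncomputable def b_V_700_600_10_6 : St := ⟨true, nat_lit 1, nat_lit 0, nat_lit 1, nat_lit 80, nat_lit 280, nat_lit 320, nat_lit 240, nat_lit 280, nat_lit 80, nat_lit 160, nat_lit 40, nat_lit 80, nat_lit 0, nat_lit 160, nat_lit 0, nat_lit 336, nat_lit 0, nat_lit 40, nat_lit 0, nat_lit 0, nat_lit 0, nat_lit 0⟩
theorem d_V_700_600_10_6 (h : EB TB.env) : Dead b_V_700_600_10_6 := chkB_sound0 h (T :=
(.spl (nat_lit 0) (nat_lit 300)
(.spl (nat_lit 5) (nat_lit 160)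
(.spl (nat_lit 0) (nat_lit 290)
(.spl (nat_lit 1) (nat_lit 260)
(.leaf p056_l115)
(.leaf p056_l116))
(.leaf p056_l117))
(.spl (nat_lit 5) (nat_lit 240)
(.spl (nat_lit 4) (nat_lit 80)
(.spl (nat_lit 0) (nat_lit 290)
(.spl (nat_lit 0) (nat_lit 285)
(.spl (nat_lit 3) (nat_lit 60)
(.spl (nat_lit 6) (nat_lit 20)
(.spl (nat_lit 6) (nat_lit 8)
(.spl (nat_lit 0) (nat_lit 283)
(.leaf p056_l118)
(.leaf p056_l119))
(.leaf p056_l120))
(.leaf p056_l121))
(.leaf p056_l122))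
(.leaf p056_l123))
(.leaf p056_l124))
(.spl (nat_lit 0) (nat_lit 290)
(.spl (nat_lit 0) (nat_lit 285)
(.spl (nat_lit 6) (nat_lit 20)
(.leaf p056_l125)
(.leaf p056_l126))
(.leaf p056_l127))
(.leaf p056_l128)))
(.spl (nat_lit 0) (nat_lit 290)
(.spl (nat_lit 6) (nat_lit 20)
(.spl (nat_lit 0) (nat_lit 285)
(.spl (nat_lit 3) (nat_lit 60)
(.trX (nat_lit 19) (nat_lit 100) (nat_lit 85) (nat_lit 73) (nat_lit 312) (.spl (nat_lit 6) (nat_lit 8)
(.spl (nat_lit 6) (nat_lit 4)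
(.leaf p056_l129)
(.leaf p056_l130))
(.leaf p056_l131)))
(.leaf p056_l132))
(.leaf p056_l133))
(.leaf p056_l134))
(.leaf p056_l135))))
(.spl (nat_lit 5) (nat_lit 160)
(.leaf p056_l136)
(.leaf p056_l137)))) (by decide +kernel)
noncomputable def p056_l138 : Lf2 := ⟨nat_lit 0, nat_lit 10, [nat_lit 0, nat_lit 5, nat_lit 5, nat_lit 20], false, nat_lit 0, nat_lit 160, nat_lit 0, nat_lit 160, ⟨nat_lit 1000, nat_lit 0, nat_lit 0, nat_lit 0, nat_lit 0, nat_lit 0, nat_lit 0, nat_lit 0, nat_lit 0, nat_lit 0, nat_lit 0, nat_lit 0, nat_lit 0, nat_lit 0, nat_lit 0, nat_lit 0, false, false⟩,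
 nat_lit 0, nat_lit 13950, nat_lit 0, nat_lit 0, nat_lit 8877, nat_lit 15093, nat_lit 808, nat_lit 0, nat_lit 0, nat_lit 2485, nat_lit 0, nat_lit 0, nat_lit 0, nat_lit 0, nat_lit 0, nat_lit 0, nat_lit 0, nat_lit 0, [],
 ⟨p056_k0, nat_lit 0, nat_lit 0, nat_lit 632, nat_lit 0, nat_lit 952182, [nat_lit 3282000000, nat_lit 6250000000, nat_lit 9842000000], [], [nat_lit 33671925228, nat_lit 29049845262, nat_lit 29096668248, nat_lit 29768488906, nat_lit 23664824704, nat_lit 24314418460, nat_lit 27385021096, nat_lit 24716893134], nat_lit 1271250, nat_lit 1271250, nat_lit 1100001, nat_lit 1785000, nat_lit 0, nat_lit 1100001, [nat_lit 780000, nat_lit 1435000, nat_lit 1271250], [nat_lit 8, nat_lit 40, nat_lit 40, nat_lit 80, nat_lit 1, nat_lit 317, nat_lit 100, nat_lit 9]⟩, ⟨p056_k22, nat_lit 0, nat_lit 0, nat_lit 200, nat_lit 0, nat_lit 0, [nat_lit 4688000000, nat_lit 7968000000, nat_lit 11872000000], [], [nat_lit 16569189440,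 nat_lit 22416200548, nat_lit 22639677872, nat_lit 29644807012, nat_lit 5508070032, nat_lit 10267697660, nat_lit 10214434640, nat_lit 14448200548], nat_lit 0, nat_lit 0, nat_lit 0, nat_lit 0, nat_lit 0, nat_lit 0, [], [nat_lit 21, nat_lit 40, nat_lit 40, nat_lit 80, nat_lit 14, nat_lit 401, nat_lit 175, nat_lit 10]⟩,
 zbF0, []⟩
noncomputable def p056_l139 : Lf2 := ⟨nat_lit 0, nat_lit 10, [nat_lit 0, nat_lit 5, nat_lit 5, nat_lit 20], false, nat_lit 0, nat_lit 160, nat_lit 0, nat_lit 160, ⟨nat_lit 1000, nat_lit 0, nat_lit 0, nat_lit 0, nat_lit 0, nat_lit 0, nat_lit 0, nat_lit 0, nat_lit 0, nat_lit 0, nat_lit 0, nat_lit 0, nat_lit 0, nat_lit 0, nat_lit 0, nat_lit 0, false, false⟩,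
 nat_lit 0, nat_lit 10305, nat_lit 0, nat_lit 0, nat_lit 7133, nat_lit 9725, nat_lit 1798, nat_lit 0, nat_lit 0, nat_lit 1795, nat_lit 0, nat_lit 0, nat_lit 0, nat_lit 0, nat_lit 0, nat_lit 0, nat_lit 0, nat_lit 0, [],
 ⟨p056_k11, nat_lit 0, nat_lit 0, nat_lit 609, nat_lit 0, nat_lit 1030462, [nat_lit 3282000000, nat_lit 6250000000, nat_lit 7968000000], [], [nat_lit 25722058188, nat_lit 22227244424, nat_lit 23731913106, nat_lit 26085351840, nat_lit 16831477484, nat_lit 17544897410, nat_lit 21959036636, nat_lit 19879765140], nat_lit 1271250, nat_lit 1271250, nat_lit 1100001, nat_lit 1785000, nat_lit 0, nat_lit 1100001, [nat_lit 780000, nat_lit 1435000, nat_lit 1271250], [nat_lit 18, nat_lit 40, nat_lit 40, nat_lit 80, nat_lit 2, nat_lit 317, nat_lit 100, nat_lit 10]⟩, ⟨p056_k22, nat_lit 0, nat_lit 0, nat_lit 200, nat_lit 0, nat_lit 0, [nat_lit 4688000000, nat_lit 7968000000, nat_lit 11872000000], [], [nat_lit 20239905000,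 nat_lit 23402655600, nat_lit 23742115500, nat_lit 27210442800, nat_lit 13191696400, nat_lit 16705969500, nat_lit 17007746000, nat_lit 19871240200], nat_lit 0, nat_lit 0, nat_lit 0, nat_lit 0, nat_lit 0, nat_lit 0, [], [nat_lit 21, nat_lit 40, nat_lit 40, nat_lit 80, nat_lit 14, nat_lit 401, nat_lit 175, nat_lit 10]⟩,
 zbF0, []⟩
noncomputable def p056_l140 : Lf2 := ⟨nat_lit 0, nat_lit 10, [nat_lit 0, nat_lit 5, nat_lit 5, nat_lit 20], false, nat_lit 0, nat_lit 160, nat_lit 160, nat_lit 336, ⟨nat_lit 1000, nat_lit 0, nat_lit 0, nat_lit 0, nat_lit 0, nat_lit 0, nat_lit 0, nat_lit 0, nat_lit 0, nat_lit 0, nat_lit 0, nat_lit 0, nat_lit 0, nat_lit 0, nat_lit 0, nat_lit 0, false, false⟩,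
 nat_lit 0, nat_lit 12159, nat_lit 0, nat_lit 0, nat_lit 7737, nat_lit 8464, nat_lit 851, nat_lit 0, nat_lit 0, nat_lit 0, nat_lit 0, nat_lit 0, nat_lit 0, nat_lit 0, nat_lit 0, nat_lit 0, nat_lit 0, nat_lit 0, [],
 ⟨p056_k0, nat_lit 0, nat_lit 0, nat_lit 596, nat_lit 0, nat_lit 854423, [nat_lit 3282000000, nat_lit 6250000000, nat_lit 9842000000], [], [nat_lit 33140270268, nat_lit 31125640575, nat_lit 31227347987, nat_lit 31576009281, nat_lit 26097791199, nat_lit 26440971957, nat_lit 28836186376, nat_lit 27492798178], nat_lit 1271250, nat_lit 1271250, nat_lit 1100001, nat_lit 1785000, nat_lit 0, nat_lit 1100001, [nat_lit 780000, nat_lit 1435000, nat_lit 1271250], [nat_lit 8, nat_lit 40, nat_lit 40, nat_lit 80, nat_lit 1, nat_lit 317, nat_lit 100, nat_lit 9]⟩, ⟨p056_k22, nat_lit 0, nat_lit 0, nat_lit 53, nat_lit 0, nat_lit 0, [nat_lit 4688000000, nat_lit 7968000000, nat_lit 11872000000], [], [nat_lit 7104218272,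 nat_lit 11027847744, nat_lit 11776779616, nat_lit 15665046304, nat_lit 22123278112, nat_lit 24840433818, nat_lit 24681994119, nat_lit 26903447911], nat_lit 0, nat_lit 0, nat_lit 0, nat_lit 0, nat_lit 0, nat_lit 0, [], [nat_lit 21, nat_lit 40, nat_lit 40, nat_lit 80, nat_lit 14, nat_lit 456, nat_lit 225, nat_lit 11]⟩,
 zbF0, [⟨nat_lit 7, nat_lit 92, nat_lit 100, nat_lit 75, nat_lit 827741950⟩]⟩
noncomputable def p056_l141 : Lf2 := ⟨nat_lit 0, nat_lit 10, [nat_lit 0, nat_lit 5, nat_lit 5, nat_lit 20], false, nat_lit 0, nat_lit 160, nat_lit 160, nat_lit 336, ⟨nat_lit 1000, nat_lit 0, nat_lit 0, nat_lit 0, nat_lit 0, nat_lit 0, nat_lit 0, nat_lit 0, nat_lit 0, nat_lit 0, nat_lit 0, nat_lit 0, nat_lit 0, nat_lit 0, nat_lit 0, nat_lit 0, false, false⟩,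
 nat_lit 0, nat_lit 10091, nat_lit 0, nat_lit 0, nat_lit 6701, nat_lit 8464, nat_lit 2600, nat_lit 0, nat_lit 0, nat_lit 0, nat_lit 0, nat_lit 0, nat_lit 0, nat_lit 0, nat_lit 0, nat_lit 0, nat_lit 0, nat_lit 0, [],
 ⟨p056_k28, nat_lit 0, nat_lit 0, nat_lit 540, nat_lit 0, nat_lit 896702, [nat_lit 3282000000, nat_lit 6250000000, nat_lit 7968000000], [], [nat_lit 28458500475, nat_lit 26713633786, nat_lit 25371981955, nat_lit 25683141026, nat_lit 21728768850, nat_lit 22028776752, nat_lit 24587752496, nat_lit 23070619292], nat_lit 1271250, nat_lit 1271250, nat_lit 1100001, nat_lit 1785000, nat_lit 0, nat_lit 1100001, [nat_lit 780000, nat_lit 1435000, nat_lit 1271250], [nat_lit 18, nat_lit 40, nat_lit 40, nat_lit 80, nat_lit 2, nat_lit 317, nat_lit 100, nat_lit 10]⟩, ⟨p056_k22, nat_lit 0, nat_lit 0, nat_lit 53, nat_lit 0, nat_lit 0, [nat_lit 4688000000, nat_lit 7968000000, nat_lit 11872000000], [], [nat_lit 7104218272,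 nat_lit 11027847744, nat_lit 11776779616, nat_lit 15665046304, nat_lit 22123278112, nat_lit 24840433818, nat_lit 24681994119, nat_lit 26903447911], nat_lit 0, nat_lit 0, nat_lit 0, nat_lit 0, nat_lit 0, nat_lit 0, [], [nat_lit 21, nat_lit 40, nat_lit 40, nat_lit 80, nat_lit 14, nat_lit 456, nat_lit 225, nat_lit 11]⟩,
 zbF0, [⟨nat_lit 19, nat_lit 100, nat_lit 92, nat_lit 75, nat_lit 827741950⟩]⟩
noncomputable def p056_l142 : Lf2 := ⟨nat_lit 0, nat_lit 10, [nat_lit 0, nat_lit 5, nat_lit 5, nat_lit 20], false, nat_lit 0, nat_lit 160, nat_lit 160, nat_lit 336, ⟨nat_lit 1000, nat_lit 0, nat_lit 0, nat_lit 0, nat_lit 0, nat_lit 0, nat_lit 0, nat_lit 0, nat_lit 0, nat_lit 0, nat_lit 0, nat_lit 0, nat_lit 0, nat_lit 0, nat_lit 0, nat_lit 0, false, false⟩,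
 nat_lit 0, nat_lit 10144, nat_lit 0, nat_lit 0, nat_lit 7022, nat_lit 8464, nat_lit 3265, nat_lit 0, nat_lit 0, nat_lit 0, nat_lit 0, nat_lit 0, nat_lit 0, nat_lit 0, nat_lit 0, nat_lit 0, nat_lit 0, nat_lit 0, [],
 ⟨p056_k11, nat_lit 0, nat_lit 0, nat_lit 609, nat_lit 0, nat_lit 1030462, [nat_lit 3282000000, nat_lit 6250000000, nat_lit 7968000000], [], [nat_lit 22936213767, nat_lit 22084506416, nat_lit 23592332604, nat_lit 25921462560, nat_lit 16925508308, nat_lit 17867589312, nat_lit 22244651624, nat_lit 19860608760], nat_lit 1271250, nat_lit 1271250, nat_lit 1100001, nat_lit 1785000, nat_lit 0, nat_lit 1100001, [nat_lit 780000, nat_lit 1435000, nat_lit 1271250], [nat_lit 18, nat_lit 40, nat_lit 40, nat_lit 80, nat_lit 2, nat_lit 317, nat_lit 100, nat_lit 10]⟩, ⟨p056_k22, nat_lit 0, nat_lit 0, nat_lit 53, nat_lit 0, nat_lit 0, [nat_lit 4688000000, nat_lit 7968000000, nat_lit 11872000000], [], [nat_lit 7104218272,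 nat_lit 11027847744, nat_lit 11776779616, nat_lit 15665046304, nat_lit 22123278112, nat_lit 24840433818, nat_lit 24681994119, nat_lit 26903447911], nat_lit 0, nat_lit 0, nat_lit 0, nat_lit 0, nat_lit 0, nat_lit 0, [], [nat_lit 21, nat_lit 40, nat_lit 40, nat_lit 80, nat_lit 14, nat_lit 456, nat_lit 225, nat_lit 11]⟩,
 zbF0, [⟨nat_lit 7, nat_lit 92, nat_lit 100, nat_lit 75, nat_lit 827741950⟩]⟩
noncomputable def b_V_700_600_10_7 : St := ⟨true, nat_lit 1, nat_lit 0, nat_lit 1, nat_lit 80, nat_lit 280, nat_lit 320, nat_lit 240, nat_lit 280, nat_lit 160, nat_lit 240, nat_lit 40, nat_lit 80, nat_lit 0, nat_lit 160, nat_lit 0, nat_lit 336, nat_lit 0, nat_lit 40, nat_lit 0, nat_lit 0, nat_lit 0, nat_lit 0⟩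
theorem d_V_700_600_10_7 (h : EB TB.env) : Dead b_V_700_600_10_7 := chkB_sound0 h (T :=
(.spl (nat_lit 5) (nat_lit 160)
(.spl (nat_lit 0) (nat_lit 300)
(.leaf p056_l138)
(.leaf p056_l139))
(.spl (nat_lit 0) (nat_lit 300)
(.spl (nat_lit 0) (nat_lit 290)
(.leaf p056_l140)
(.leaf p056_l141))
(.leaf p056_l142)))) (by decide +kernel)

end B2
end Pool.Agent.Lib.MP_6947cd_al
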