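import Pool.Agent.Lib.MP_6947cd_al.ZB.Pre

/-!
Problem MP_6947cd_al (Chollet).  Case B, second entry in [2/5, 17/20]: certificates of the tree, part P057 (generated).
-/

set_option autoImplicit false
set_option linter.all false

namespace Pool.Agent.Lib.MP_6947cd_al
namespace B2

open Ent Fr B1 PkA

noncomputable def p057_k0 : C1.Kn := ⟨[nat_lit 60, nat_lit 100, nat_lit 140], [nat_lit 0, nat_lit 0, nat_lit 2047], [(nat_lit 0, nat_lit 0, nat_lit 0), (nat_lit 0, nat_lit 0, nat_lit 0), (nat_lit 1000, nat_lit 993, nat_lit 781)], (nat_lit 94, nat_lit 100, nat_lit 62)⟩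
noncomputable def p057_k1 : C1.Kn := ⟨[nat_lit 60, nat_lit 100, nat_lit 120], [nat_lit 0, nat_lit 302, nat_lit 1376], [(nat_lit 0, nat_lit 0, nat_lit 0), (nat_lit 1000, nat_lit 953, nat_lit 118), (nat_lit 1000, nat_lit 911, nat_lit 628)], (nat_lit 91, nat_lit 100, nat_lit 61)⟩
noncomputable def p057_k2 : C1.Kn := ⟨[nat_lit 80, nat_lit 120, nat_lit 140], [nat_lit 0, nat_lit 528, nat_lit 1572], [(nat_lit 0, nat_lit 0, nat_lit 0), (nat_lit 1000, nat_lit 959, nat_lit 206), (nat_lit 966, nat_lit 1000, nat_lit 679)], (nat_lit 100, nat_lit 99, nat_lit 63)⟩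
noncomputable def p057_k3 : C1.Kn := ⟨[nat_lit 80, nat_lit 120, nat_lit 160], [nat_lit 0, nat_lit 0, nat_lit 2132], [(nat_lit 0, nat_lit 0, nat_lit 0), (nat_lit 0, nat_lit 0, nat_lit 0), (nat_lit 858, nat_lit 1000, nat_lit 713)], (nat_lit 100, nat_lit 92, nat_lit 61)⟩
noncomputable def p057_k4 : C1.Kn := ⟨[nat_lit 60, nat_lit 100, nat_lit 140], [nat_lit 0, nat_lit 151, nat_lit 2175], [(nat_lit 0, nat_lit 0, nat_lit 0), (nat_lit 1000, nat_lit 977, nat_lit 59), (nat_lit 1000, nat_lit 974, nat_lit 785)], (nat_lit 92, nat_lit 100, nat_lit 61)⟩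
noncomputable def p057_k5 : C1.Kn := ⟨[nat_lit 60, nat_lit 80, nat_lit 140], [nat_lit 0, nat_lit 0, nat_lit 1595], [(nat_lit 0, nat_lit 0, nat_lit 0), (nat_lit 0, nat_lit 0, nat_lit 0), (nat_lit 1000, nat_lit 917, nat_lit 415)], (nat_lit 94, nat_lit 100, nat_lit 62)⟩
noncomputable def p057_k6 : C1.Kn := ⟨[nat_lit 80, nat_lit 100, nat_lit 160], [nat_lit 0, nat_lit 0, nat_lit 1533], [(nat_lit 0, nat_lit 0, nat_lit 0), (nat_lit 0, nat_lit 0, nat_lit 0), (nat_lit 1000, nat_lit 1000, nat_lit 399)], (nat_lit 100, nat_lit 92, nat_lit 61)⟩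
noncomputable def p057_k7 : C1.Kn := ⟨[nat_lit 60, nat_lit 80, nat_lit 140], [nat_lit 0, nat_lit 75, nat_lit 1666], [(nat_lit 0, nat_lit 0, nat_lit 0), (nat_lit 1000, nat_lit 977, nat_lit 59), (nat_lit 1000, nat_lit 905, nat_lit 414)], (nat_lit 92, nat_lit 100, nat_lit 61)⟩
noncomputable def p057_k8 : C1.Kn := ⟨[nat_lit 80, nat_lit 100, nat_lit 140], [nat_lit 0, nat_lit 132, nat_lit 1148], [(nat_lit 0, nat_lit 0, nat_lit 0), (nat_lit 1000, nat_lit 979, nat_lit 103), (nat_lit 1000, nat_lit 979, nat_lit 397)], (nat_lit 100, nat_lit 95, nat_lit 62)⟩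
noncomputable def p057_k9 : C1.Kn := ⟨[nat_lit 80, nat_lit 100, nat_lit 140], [nat_lit 0, nat_lit 265, nat_lit 1269], [(nat_lit 0, nat_lit 0, nat_lit 0), (nat_lit 1000, nat_lit 959, nat_lit 206), (nat_lit 1000, nat_lit 958, nat_lit 392)], (nat_lit 100, nat_lit 99, nat_lit 63)⟩
noncomputable def p057_k10 : C1.Kn := ⟨[nat_lit 60, nat_lit 80, nat_lit 120], [nat_lit 0, nat_lit 151, nat_lit 1205], [(nat_lit 0, nat_lit 0, nat_lit 0), (nat_lit 1000, nat_lit 953, nat_lit 118), (nat_lit 1000, nat_lit 894, nat_lit 411)], (nat_lit 91, nat_lit 100, nat_lit 61)⟩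
noncomputable def p057_k11 : C1.Kn := ⟨[nat_lit 60, nat_lit 100, nat_lit 120], [nat_lit 0, nat_lit 609, nat_lit 1609], [(nat_lit 0, nat_lit 0, nat_lit 0), (nat_lit 1000, nat_lit 905, nat_lit 238), (nat_lit 1000, nat_lit 882, nat_lit 668)], (nat_lit 87, nat_lit 100, nat_lit 60)⟩
noncomputable def p057_k12 : C1.Kn := ⟨[nat_lit 60, nat_lit 100], [nat_lit 0, nat_lit 609], [(nat_lit 0, nat_lit 0, nat_lit 0), (nat_lit 1000, nat_lit 905, nat_lit 238)], (nat_lit 87, nat_lit 100, nat_lit 44)⟩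
noncomputable def p057_k13 : C1.Kn := ⟨[nat_lit 80, nat_lit 120, nat_lit 140], [nat_lit 0, nat_lit 0, nat_lit 1164], [(nat_lit 0, nat_lit 0, nat_lit 0), (nat_lit 0, nat_lit 0, nat_lit 0), (nat_lit 941, nat_lit 1000, nat_lit 576)], (nat_lit 100, nat_lit 99, nat_lit 44)⟩
noncomputable def p057_k14 : C1.Kn := ⟨[nat_lit 80, nat_lit 120], [nat_lit 0, nat_lit 528], [(nat_lit 0, nat_lit 0, nat_lit 0), (nat_lit 1000, nat_lit 959, nat_lit 206)], (nat_lit 96, nat_lit 100, nat_lit 44)⟩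
noncomputable def p057_k15 : C1.Kn := ⟨[nat_lit 60, nat_lit 100, nat_lit 120], [nat_lit 0, nat_lit 909, nat_lit 1866], [(nat_lit 0, nat_lit 0, nat_lit 0), (nat_lit 1000, nat_lit 858, nat_lit 354), (nat_lit 1000, nat_lit 849, nat_lit 705)], (nat_lit 84, nat_lit 100, nat_lit 60)⟩
noncomputable def p057_k16 : C1.Kn := ⟨[nat_lit 60, nat_lit 120], [nat_lit 0, nat_lit 453], [(nat_lit 0, nat_lit 0, nat_lit 0), (nat_lit 1000, nat_lit 953, nat_lit 118)], (nat_lit 91, nat_lit 100, nat_lit 61)⟩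
noncomputable def p057_k17 : C1.Kn := ⟨[nat_lit 80, nat_lit 160], [nat_lit 0, nat_lit 0], [(nat_lit 0, nat_lit 0, nat_lit 0), (nat_lit 0, nat_lit 0, nat_lit 0)], (nat_lit 100, nat_lit 92, nat_lit 61)⟩
noncomputable def p057_k18 : C1.Kn := ⟨[nat_lit 60, nat_lit 120], [nat_lit 0, nat_lit 913], [(nat_lit 0, nat_lit 0, nat_lit 0), (nat_lit 1000, nat_lit 905, nat_lit 238)], (nat_lit 87, nat_lit 100, nat_lit 60)⟩
noncomputable def p057_k19 : C1.Kn := ⟨[nat_lit 80, nat_lit 140, nat_lit 160], [nat_lit 0, nat_lit 0, nat_lit 2151], [(nat_lit 0, nat_lit 0, nat_lit 0), (nat_lit 0, nat_lit 0, nat_lit 0), (nat_lit 823, nat_lit 1000, nat_lit 757)], (nat_lit 100, nat_lit 92, nat_lit 61)⟩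
noncomputable def p057_k20 : C1.Kn := ⟨[nat_lit 60, nat_lit 100, nat_lit 120], [nat_lit 0, nat_lit 0, nat_lit 1164], [(nat_lit 0, nat_lit 0, nat_lit 0), (nat_lit 0, nat_lit 0, nat_lit 0), (nat_lit 1000, nat_lit 933, nat_lit 572)], (nat_lit 92, nat_lit 100, nat_lit 44)⟩
noncomputable def p057_k21 : C1.Kn := ⟨[nat_lit 60, nat_lit 100], [nat_lit 0, nat_lit 302], [(nat_lit 0, nat_lit 0, nat_lit 0), (nat_lit 1000, nat_lit 953, nat_lit 118)], (nat_lit 89, nat_lit 100, nat_lit 44)⟩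
noncomputable def p057_k22 : C1.Kn := ⟨[nat_lit 60, nat_lit 120, nat_lit 140], [nat_lit 0, nat_lit 0, nat_lit 2047], [(nat_lit 0, nat_lit 0, nat_lit 0), (nat_lit 0, nat_lit 0, nat_lit 0), (nat_lit 1000, nat_lit 993, nat_lit 781)], (nat_lit 94, nat_lit 100, nat_lit 62)⟩
noncomputable def p057_k23 : C1.Kn := ⟨[nat_lit 80, nat_lit 140], [nat_lit 0, nat_lit 792], [(nat_lit 0, nat_lit 0, nat_lit 0), (nat_lit 1000, nat_lit 959, nat_lit 206)], (nat_lit 100, nat_lit 99, nat_lit 63)⟩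
noncomputable def p057_k24 : C1.Kn := ⟨[nat_lit 80, nat_lit 120, nat_lit 140], [nat_lit 0, nat_lit 796, nat_lit 1801], [(nat_lit 0, nat_lit 0, nat_lit 0), (nat_lit 1000, nat_lit 938, nat_lit 310), (nat_lit 982, nat_lit 1000, nat_lit 736)], (nat_lit 98, nat_lit 100, nat_lit 63)⟩
noncomputable def p057_k25 : C1.Kn := ⟨[nat_lit 80, nat_lit 120], [nat_lit 0, nat_lit 796], [(nat_lit 0, nat_lit 0, nat_lit 0), (nat_lit 1000, nat_lit 938, nat_lit 310)], (nat_lit 94, nat_lit 100, nat_lit 44)⟩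
noncomputable def p057_k26 : C1.Kn := ⟨[nat_lit 80, nat_lit 120], [nat_lit 0, nat_lit 929], [(nat_lit 0, nat_lit 0, nat_lit 0), (nat_lit 1000, nat_lit 927, nat_lit 362)], (nat_lit 93, nat_lit 100, nat_lit 44)⟩
noncomputable def p057_k27 : C1.Kn := ⟨[nat_lit 60, nat_lit 100, nat_lit 120], [nat_lit 0, nat_lit 455, nat_lit 1489], [(nat_lit 0, nat_lit 0, nat_lit 0), (nat_lit 1000, nat_lit 929, nat_lit 178), (nat_lit 1000, nat_lit 895, nat_lit 641)], (nat_lit 89, nat_lit 100, nat_lit 61)⟩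
noncomputable def p057_k28 : C1.Kn := ⟨[nat_lit 60, nat_lit 120], [nat_lit 0, nat_lit 0], [(nat_lit 0, nat_lit 0, nat_lit 0), (nat_lit 0, nat_lit 0, nat_lit 0)], (nat_lit 92, nat_lit 100, nat_lit 44)⟩
noncomputable def p057_k29 : C1.Kn := ⟨[nat_lit 60, nat_lit 140], [nat_lit 0, nat_lit 0], [(nat_lit 0, nat_lit 0, nat_lit 0), (nat_lit 0, nat_lit 0, nat_lit 0)], (nat_lit 94, nat_lit 100, nat_lit 62)⟩
noncomputable def p057_k30 : C1.Kn := ⟨[nat_lit 60, nat_lit 80, nat_lit 100], [nat_lit 0, nat_lit 0, nat_lit 534], [(nat_lit 0, nat_lit 0, nat_lit 0), (nat_lit 0, nat_lit 0, nat_lit 0), (nat_lit 1000, nat_lit 917, nat_lit 393)], (nat_lit 92, nat_lit 100, nat_lit 28)⟩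
noncomputable def p057_k31 : C1.Kn := ⟨[nat_lit 60, nat_lit 100], [nat_lit 0, nat_lit 0], [(nat_lit 0, nat_lit 0, nat_lit 0), (nat_lit 0, nat_lit 0, nat_lit 0)], (nat_lit 92, nat_lit 100, nat_lit 39)⟩
noncomputable def p057_k32 : C1.Kn := ⟨[nat_lit 60, nat_lit 100, nat_lit 120], [nat_lit 0, nat_lit 0, nat_lit 1164], [(nat_lit 0, nat_lit 0, nat_lit 0), (nat_lit 0, nat_lit 0, nat_lit 0), (nat_lit 1000, nat_lit 933, nat_lit 572)], (nat_lit 92, nat_lit 100, nat_lit 48)⟩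
noncomputable def p057_l0 : Lf2 := ⟨nat_lit 0, nat_lit 10, [nat_lit 0, nat_lit 5, nat_lit 5, nat_lit 20], true, nat_lit 160, nat_lit 200, nat_lit 0, nat_lit 336, ⟨nat_lit 0, nat_lit 0, nat_lit 1000, nat_lit 6, nat_lit 116, nat_lit 1000, nat_lit 125, nat_lit 1000, nat_lit 147267, nat_lit 309, nat_lit 126150, nat_lit 302, nat_lit 54827362, nat_lit 0, nat_lit 0, nat_lit 3192058, false, false⟩,
 nat_lit 0, nat_lit 6536, nat_lit 0, nat_lit 0, nat_lit 4159, nat_lit 0, nat_lit 0, nat_lit 0, nat_lit 0, nat_lit 0, nat_lit 0, nat_lit 0, nat_lit 0, nat_lit 0, nat_lit 208, nat_lit 1000000, nat_lit 0, nat_lit 0, [(nat_lit 12, [(nat_lit 6, nat_lit 1000)])],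
 ⟨p057_k0, nat_lit 0, nat_lit 0, nat_lit 313, nat_lit 0, nat_lit 383866, [nat_lit 3637200001, nat_lit 3032400001, nat_lit 431200000], [], [nat_lit 12443094360, nat_lit 13436062562, nat_lit 13068760143, nat_lit 12586448663, nat_lit 14693100613, nat_lit 15332552584, nat_lit 16243296335, nat_lit 15276351710], nat_lit 1271250, nat_lit 1271250, nat_lit 205650, nat_lit 490000, nat_lit 1100001, nat_lit 1442500, [nat_lit 780000, nat_lit 1435000, nat_lit 1271250], [nat_lit 8, nat_lit 40, nat_lit 40, nat_lit 80, nat_lit 1, nat_lit 289, nat_lit 75, nat_lit 8]⟩, C1.Rw.none,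
 ⟨nat_lit 5244, nat_lit 5478, ⟨.ofNat (nat_lit 235487), .ofNat (nat_lit 317913), .ofNat (nat_lit 256844), .ofNat (nat_lit 339271), .ofNat (nat_lit 242768), .ofNat (nat_lit 323256), .ofNat (nat_lit 264153), .ofNat (nat_lit 344641)⟩, ⟨.ofNat (nat_lit 254209), .ofNat (nat_lit 329142), .ofNat (nat_lit 296923), .ofNat (nat_lit 371856), .ofNat (nat_lit 255744), .ofNat (nat_lit 328915), .ofNat (nat_lit 298515), .ofNat (nat_lit 371686)⟩⟩, []⟩
noncomputable def p057_l1 : Lf2 := ⟨nat_lit 0, nat_lit 10, [nat_lit 0, nat_lit 5, nat_lit 5, nat_lit 20], true, nat_lit 160, nat_lit 200, nat_lit 0, nat_lit 336, ⟨nat_lit 0, nat_lit 0, nat_lit 1000, nat_lit 6, nat_lit 120, nat_lit 1000, nat_lit 126, nat_lit 1000, nat_lit 147267, nat_lit 309, nat_lit 135000, nat_lit 305, nat_lit 54495421, nat_lit 0, nat_lit 0, nat_lit 3252240, false, false⟩,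
 nat_lit 0, nat_lit 5578, nat_lit 0, nat_lit 0, nat_lit 3704, nat_lit 0, nat_lit 74, nat_lit 0, nat_lit 0, nat_lit 0, nat_lit 0, nat_lit 0, nat_lit 0, nat_lit 0, nat_lit 162, nat_lit 1000000, nat_lit 0, nat_lit 0, [(nat_lit 12, [(nat_lit 6, nat_lit 1000)])],
 ⟨p057_k1, nat_lit 0, nat_lit 0, nat_lit 267, nat_lit 0, nat_lit 420366, [nat_lit 3085200001, nat_lit 2112400000, nat_lit 400000], [], [nat_lit 13718986163, nat_lit 14386312867, nat_lit 13726108411, nat_lit 14366920563, nat_lit 15189883511, nat_lit 15811267547, nat_lit 16132738365, nat_lit 15745216787], nat_lit 1271250, nat_lit 1271250, nat_lit 230001, nat_lit 490000, nat_lit 1100001, nat_lit 1442500, [nat_lit 780000, nat_lit 1435000, nat_lit 1271250], [nat_lit 18, nat_lit 40, nat_lit 40, nat_lit 80, nat_lit 2, nat_lit 289, nat_lit 75, nat_lit 9]⟩, C1.Rw.none,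
 ⟨nat_lit 5000, nat_lit 5245, ⟨.ofNat (nat_lit 250085), .ofNat (nat_lit 323256), .ofNat (nat_lit 271470), .ofNat (nat_lit 344641), .ofNat (nat_lit 257141), .ofNat (nat_lit 328570), .ofNat (nat_lit 278570), .ofNat (nat_lit 349999)⟩, ⟨.ofNat (nat_lit 255744), .ofNat (nat_lit 328915), .ofNat (nat_lit 298515), .ofNat (nat_lit 371686), .ofNat (nat_lit 257141), .ofNat (nat_lit 328570), .ofNat (nat_lit 299999), .ofNat (nat_lit 371427)⟩⟩, [⟨nat_lit 0, nat_lit 100, nat_lit 91, nat_lit 77, nat_lit 43935891⟩]⟩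
noncomputable def p057_l2 : Lf2 := ⟨nat_lit 0, nat_lit 10, [nat_lit 0, nat_lit 5, nat_lit 5, nat_lit 20], true, nat_lit 200, nat_lit 240, nat_lit 0, nat_lit 336, ⟨nat_lit 0, nat_lit 0, nat_lit 1000, nat_lit 6, nat_lit 117, nat_lit 1000, nat_lit 155, nat_lit 1000, nat_lit 224267, nat_lit 331, nat_lit 129067, nat_lit 303, nat_lit 52248192, nat_lit 0, nat_lit 0, nat_lit 3598736, false, false⟩,
 nat_lit 0, nat_lit 5603, nat_lit 0, nat_lit 0, nat_lit 3565, nat_lit 0, nat_lit 0, nat_lit 0, nat_lit 0, nat_lit 0, nat_lit 0, nat_lit 0, nat_lit 0, nat_lit 0, nat_lit 200, nat_lit 956800, nat_lit 0, nat_lit 0, [(nat_lit 12, [(nat_lit 5, nat_lit 72), (nat_lit 6, nat_lit 928)])],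
 ⟨p057_k0, nat_lit 0, nat_lit 0, nat_lit 335, nat_lit 0, nat_lit 442807, [nat_lit 3548371201, nat_lit 2915091200, nat_lit 418505600], [], [nat_lit 15008713114, nat_lit 16232595326, nat_lit 14941018283, nat_lit 16114574968, nat_lit 16512752869, nat_lit 17661870046, nat_lit 16392540803, nat_lit 17481176983], nat_lit 1271250, nat_lit 1271250, nat_lit 205650, nat_lit 490000, nat_lit 1271250, nat_lit 1271250, [nat_lit 780000, nat_lit 1435000, nat_lit 1271250], [nat_lit 8, nat_lit 40, nat_lit 40, nat_lit 80, nat_lit 1, nat_lit 317, nat_lit 100, nat_lit 9]⟩, C1.Rw.none,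
 ⟨nat_lit 5000, nat_lit 5478, ⟨.ofNat (nat_lit 235487), .ofNat (nat_lit 317913), .ofNat (nat_lit 256844), .ofNat (nat_lit 339271), .ofNat (nat_lit 249999), .ofNat (nat_lit 328570), .ofNat (nat_lit 271427), .ofNat (nat_lit 349999)⟩, ⟨.ofNat (nat_lit 329142), .ofNat (nat_lit 404075), .ofNat (nat_lit 371856), .ofNat (nat_lit 446789), .ofNat (nat_lit 328570), .ofNat (nat_lit 399998), .ofNat (nat_lit 371427), .ofNat (nat_lit 442856)⟩⟩, [⟨nat_lit 0, nat_lit 100, nat_lit 91, nat_lit 77, nat_lit 128864490⟩, ⟨nat_lit 4, nat_lit 100, nat_lit 94, nat_lit 75, nat_lit 193774380⟩]⟩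
noncomputable def p057_l3 : Lf2 := ⟨nat_lit 0, nat_lit 10, [nat_lit 0, nat_lit 5, nat_lit 5, nat_lit 20], false, nat_lit 160, nat_lit 240, nat_lit 0, nat_lit 160, ⟨nat_lit 1000, nat_lit 0, nat_lit 0, nat_lit 0, nat_lit 0, nat_lit 0, nat_lit 0, nat_lit 0, nat_lit 0, nat_lit 0, nat_lit 0, nat_lit 0, nat_lit 0, nat_lit 0, nat_lit 0, nat_lit 0, false, false⟩,
 nat_lit 0, nat_lit 15629, nat_lit 0, nat_lit 0, nat_lit 9945, nat_lit 8425, nat_lit 1244, nat_lit 0, nat_lit 0, nat_lit 1807, nat_lit 0, nat_lit 0, nat_lit 0, nat_lit 0, nat_lit 0, nat_lit 0, nat_lit 0, nat_lit 0, [],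
 ⟨p057_k0, nat_lit 0, nat_lit 0, nat_lit 362, nat_lit 0, nat_lit 529661, [nat_lit 3282000000, nat_lit 6250000000, nat_lit 9842000000], [], [nat_lit 21770782836, nat_lit 18114354018, nat_lit 14925806380, nat_lit 16493266140, nat_lit 19127813373, nat_lit 20907785905, nat_lit 18193166240, nat_lit 19261752900], nat_lit 1271250, nat_lit 1271250, nat_lit 279600, nat_lit 490000, nat_lit 1100001, nat_lit 1785000, [nat_lit 780000, nat_lit 1435000, nat_lit 1271250], [nat_lit 8, nat_lit 40, nat_lit 40, nat_lit 80, nat_lit 1, nat_lit 317, nat_lit 100, nat_lit 9]⟩, ⟨p057_k2, nat_lit 0, nat_lit 0, nat_lit 213, nat_lit 0, nat_lit 0, [nat_lit 4688000000, nat_lit 7968000000, nat_lit 9842000000], [], [nat_lit 20424450710, nat_lit 22471841340, nat_lit 18661450350, nat_lit 20760192700, nat_lit 14997036291, nat_lit 16555308321, nat_lit 13973958450, nat_lit 15477609200], nat_lit 0, nat_lit 0, nat_lit 0, nat_lit 0, nat_lit 0, nat_lit 0, [],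 [nat_lit 29, nat_lit 40, nat_lit 40, nat_lit 80, nat_lit 17, nat_lit 373, nat_lit 150, nat_lit 11]⟩,
 zbF0, [⟨nat_lit 0, nat_lit 100, nat_lit 95, nat_lit 78, nat_lit 1185772632⟩]⟩
noncomputable def p057_l4 : Lf2 := ⟨nat_lit 0, nat_lit 10, [nat_lit 0, nat_lit 5, nat_lit 5, nat_lit 20], false, nat_lit 160, nat_lit 240, nat_lit 160, nat_lit 320, ⟨nat_lit 496, nat_lit 0, nat_lit 504, nat_lit 6, nat_lit 130, nat_lit 504, nat_lit 140, nat_lit 504, nat_lit 183750, nat_lit 320, nat_lit 160067, nat_lit 313, nat_lit 52500004, nat_lit 0, nat_lit 0, nat_lit 3587665, false, false⟩,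
 nat_lit 0, nat_lit 8555, nat_lit 0, nat_lit 0, nat_lit 5444, nat_lit 3204, nat_lit 409, nat_lit 0, nat_lit 0, nat_lit 0, nat_lit 0, nat_lit 0, nat_lit 0, nat_lit 0, nat_lit 0, nat_lit 504000, nat_lit 0, nat_lit 0, [(nat_lit 12, [(nat_lit 6, nat_lit 504)])],
 ⟨p057_k0, nat_lit 0, nat_lit 0, nat_lit 362, nat_lit 0, nat_lit 529661, [nat_lit 2203036801, nat_lit 2531689600, nat_lit 2163660800], [], [nat_lit 20486158053, nat_lit 18321288116, nat_lit 16768843890, nat_lit 17823882354, nat_lit 19273800471, nat_lit 20331610148, nat_lit 18926616608, nat_lit 19768689994], nat_lit 1271250, nat_lit 1271250, nat_lit 279600, nat_lit 490000, nat_lit 1100001, nat_lit 1785000, [nat_lit 780000, nat_lit 1435000, nat_lit 1271250], [nat_lit 8, nat_lit 40, nat_lit 40, nat_lit 80, nat_lit 1, nat_lit 317, nat_lit 100, nat_lit 9]⟩, ⟨p057_k2, nat_lit 0, nat_lit 0, nat_lit 102, nat_lit 0, nat_lit 0, [nat_lit 2325248000, nat_lit 3952128000, nat_lit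 4881632000], [], [nat_lit 5795942732, nat_lit 6758370125, nat_lit 5451208984, nat_lit 6383350016, nat_lit 11205009308, nat_lit 11920042525, nat_lit 10707882952, nat_lit 11304972320], nat_lit 0, nat_lit 0, nat_lit 0, nat_lit 0, nat_lit 0, nat_lit 0, [], [nat_lit 29, nat_lit 40, nat_lit 40, nat_lit 80, nat_lit 17, nat_lit 401, nat_lit 175, nat_lit 11]⟩,
 ⟨nat_lit 5000, nat_lit 5478, ⟨.ofNat (nat_lit 279324), .ofNat (nat_lit 339271), .ofNat (nat_lit 300681), .ofNat (nat_lit 360625), .ofNat (nat_lit 292856), .ofNat (nat_lit 349999), .ofNat (nat_lit 314284), .ofNat (nat_lit 371424)⟩, ⟨.ofNat (nat_lit 254209), .ofNat (nat_lit 404075), .ofNat (nat_lit 296923), .ofNat (nat_lit 446789), .ofNat (nat_lit 257141), .ofNat (nat_lit 399998), .ofNat (nat_lit 299999), .ofNat (nat_lit 442856)⟩⟩, [⟨nat_lit 0, nat_lit 100, nat_lit 95, nat_lit 78, nat_lit 544721729⟩, ⟨nat_lit 16, nat_lit 94, nat_lit 100, nat_lit 75, nat_lit 3175874⟩, ⟨nat_lit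 7, nat_lit 97, nat_lit 100, nat_lit 76, nat_lit 362620576⟩]⟩
noncomputable def p057_l5 : Lf2 := ⟨nat_lit 0, nat_lit 10, [nat_lit 0, nat_lit 5, nat_lit 5, nat_lit 20], false, nat_lit 160, nat_lit 240, nat_lit 0, nat_lit 160, ⟨nat_lit 1000, nat_lit 0, nat_lit 0, nat_lit 0, nat_lit 0, nat_lit 0, nat_lit 0, nat_lit 0, nat_lit 0, nat_lit 0, nat_lit 0, nat_lit 0, nat_lit 0, nat_lit 0, nat_lit 0, nat_lit 0, false, false⟩,
 nat_lit 0, nat_lit 16799, nat_lit 0, nat_lit 0, nat_lit 10689, nat_lit 16373, nat_lit 1291, nat_lit 0, nat_lit 0, nat_lit 2753, nat_lit 0, nat_lit 0, nat_lit 0, nat_lit 0, nat_lit 0, nat_lit 0, nat_lit 0, nat_lit 0, [],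
 ⟨p057_k0, nat_lit 0, nat_lit 0, nat_lit 434, nat_lit 0, nat_lit 668211, [nat_lit 3282000000, nat_lit 6250000000, nat_lit 9842000000], [], [nat_lit 14639312860, nat_lit 15397918335, nat_lit 13877661876, nat_lit 14590772458, nat_lit 16772511896, nat_lit 17401035746, nat_lit 16274965316, nat_lit 16407988702], nat_lit 1271250, nat_lit 1271250, nat_lit 490000, nat_lit 780000, nat_lit 1100001, nat_lit 1785000, [nat_lit 780000, nat_lit 1435000, nat_lit 1271250], [nat_lit 8, nat_lit 40, nat_lit 40, nat_lit 80, nat_lit 1, nat_lit 317, nat_lit 100, nat_lit 9]⟩, ⟨p057_k3, nat_lit 0, nat_lit 0, nat_lit 225, nat_lit 0, nat_lit 0, [nat_lit 4688000000, nat_lit 7968000000, nat_lit 11872000000], [], [nat_lit 18089029552, nat_lit 20650245488, nat_lit 15537668340, nat_lit 18773095366, nat_lit 4519654476, nat_lit 7449063108, nat_lit 3220517772, nat_lit 5967993182], nat_lit 0, nat_lit 0, nat_lit 0, nat_lit 0, nat_lit 0, nat_lit 0, [], [nat_lit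 21, nat_lit 40, nat_lit 40, nat_lit 80, nat_lit 14, nat_lit 373, nat_lit 150, nat_lit 10]⟩,
 zbF0, [⟨nat_lit 4, nat_lit 100, nat_lit 97, nat_lit 76, nat_lit 447905331⟩]⟩
noncomputable def p057_l6 : Lf2 := ⟨nat_lit 0, nat_lit 10, [nat_lit 0, nat_lit 5, nat_lit 5, nat_lit 20], false, nat_lit 160, nat_lit 240, nat_lit 0, nat_lit 160, ⟨nat_lit 1000, nat_lit 0, nat_lit 0, nat_lit 0, nat_lit 0, nat_lit 0, nat_lit 0, nat_lit 0, nat_lit 0, nat_lit 0, nat_lit 0, nat_lit 0, nat_lit 0, nat_lit 0, nat_lit 0, nat_lit 0, false, false⟩,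
 nat_lit 0, nat_lit 12996, nat_lit 0, nat_lit 0, nat_lit 8269, nat_lit 8120, nat_lit 953, nat_lit 0, nat_lit 0, nat_lit 3795, nat_lit 0, nat_lit 0, nat_lit 0, nat_lit 0, nat_lit 0, nat_lit 0, nat_lit 0, nat_lit 0, [],
 ⟨p057_k0, nat_lit 0, nat_lit 0, nat_lit 488, nat_lit 0, nat_lit 807186, [nat_lit 3282000000, nat_lit 6250000000, nat_lit 9842000000], [], [nat_lit 22053361077, nat_lit 22318698407, nat_lit 21435475949, nat_lit 21685802156, nat_lit 23488471889, nat_lit 23710449306, nat_lit 22864530900, nat_lit 23121401021], nat_lit 1271250, nat_lit 1271250, nat_lit 490000, nat_lit 780000, nat_lit 1100001, nat_lit 1785000, [nat_lit 780000, nat_lit 1435000, nat_lit 1271250], [nat_lit 8, nat_lit 40, nat_lit 40, nat_lit 80, nat_lit 1, nat_lit 317, nat_lit 100, nat_lit 9]⟩, ⟨p057_k2, nat_lit 0, nat_lit 0, nat_lit 182, nat_lit 0, nat_lit 0, [nat_lit 4688000000, nat_lit 7968000000, nat_lit 9842000000], [], [nat_lit 15317644800,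 nat_lit 17461580480, nat_lit 14871146080, nat_lit 16896658640, nat_lit 11302503680, nat_lit 12773620080, nat_lit 11058531680, nat_lit 12444826960], nat_lit 0, nat_lit 0, nat_lit 0, nat_lit 0, nat_lit 0, nat_lit 0, [], [nat_lit 29, nat_lit 40, nat_lit 40, nat_lit 80, nat_lit 17, nat_lit 373, nat_lit 150, nat_lit 11]⟩,
 zbF0, []⟩
noncomputable def p057_l7 : Lf2 := ⟨nat_lit 0, nat_lit 10, [nat_lit 0, nat_lit 5, nat_lit 5, nat_lit 20], false, nat_lit 160, nat_lit 240, nat_lit 0, nat_lit 160, ⟨nat_lit 1000, nat_lit 0, nat_lit 0, nat_lit 0, nat_lit 0, nat_lit 0, nat_lit 0, nat_lit 0, nat_lit 0, nat_lit 0, nat_lit 0, nat_lit 0, nat_lit 0, nat_lit 0, nat_lit 0, nat_lit 0, false, false⟩,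
 nat_lit 0, nat_lit 15123, nat_lit 0, nat_lit 0, nat_lit 9832, nat_lit 8120, nat_lit 1745, nat_lit 0, nat_lit 0, nat_lit 3795, nat_lit 0, nat_lit 0, nat_lit 0, nat_lit 0, nat_lit 0, nat_lit 0, nat_lit 0, nat_lit 0, [],
 ⟨p057_k4, nat_lit 0, nat_lit 0, nat_lit 497, nat_lit 0, nat_lit 828933, [nat_lit 3282000000, nat_lit 6250000000, nat_lit 9842000000], [], [nat_lit 14911632455, nat_lit 15271534855, nat_lit 14251905671, nat_lit 14590619079, nat_lit 16961612423, nat_lit 17261026823, nat_lit 16124545163, nat_lit 16406124751], nat_lit 1271250, nat_lit 1271250, nat_lit 490000, nat_lit 780000, nat_lit 1100001, nat_lit 1785000, [nat_lit 780000, nat_lit 1435000, nat_lit 1271250], [nat_lit 8, nat_lit 40, nat_lit 40, nat_lit 80, nat_lit 1, nat_lit 317, nat_lit 100, nat_lit 9]⟩, ⟨p057_k2, nat_lit 0, nat_lit 0, nat_lit 182, nat_lit 0, nat_lit 0, [nat_lit 4688000000, nat_lit 7968000000, nat_lit 9842000000], [], [nat_lit 15317644800,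 nat_lit 17461580480, nat_lit 14871146080, nat_lit 16896658640, nat_lit 11302503680, nat_lit 12773620080, nat_lit 11058531680, nat_lit 12444826960], nat_lit 0, nat_lit 0, nat_lit 0, nat_lit 0, nat_lit 0, nat_lit 0, [], [nat_lit 29, nat_lit 40, nat_lit 40, nat_lit 80, nat_lit 17, nat_lit 373, nat_lit 150, nat_lit 11]⟩,
 zbF0, [⟨nat_lit 4, nat_lit 100, nat_lit 95, nat_lit 76, nat_lit 456155503⟩]⟩
noncomputable def p057_l8 : Lf2 := ⟨nat_lit 0, nat_lit 10, [nat_lit 0, nat_lit 5, nat_lit 5, nat_lit 20], false, nat_lit 160, nat_lit 240, nat_lit 0, nat_lit 160, ⟨nat_lit 1000, nat_lit 0, nat_lit 0, nat_lit 0, nat_lit 0, nat_lit 0, nat_lit 0, nat_lit 0, nat_lit 0, nat_lit 0, nat_lit 0, nat_lit 0, nat_lit 0, nat_lit 0, nat_lit 0, nat_lit 0, false, false⟩,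
 nat_lit 0, nat_lit 12056, nat_lit 0, nat_lit 0, nat_lit 8006, nat_lit 8120, nat_lit 2514, nat_lit 0, nat_lit 0, nat_lit 1801, nat_lit 0, nat_lit 0, nat_lit 0, nat_lit 0, nat_lit 0, nat_lit 0, nat_lit 0, nat_lit 0, [],
 ⟨p057_k1, nat_lit 0, nat_lit 0, nat_lit 477, nat_lit 0, nat_lit 896702, [nat_lit 3282000000, nat_lit 6250000000, nat_lit 7968000000], [], [nat_lit 16466611542, nat_lit 16946815068, nat_lit 15961612256, nat_lit 16414300192, nat_lit 17765131880, nat_lit 18168115400, nat_lit 17549456058, nat_lit 17523447516], nat_lit 1271250, nat_lit 1271250, nat_lit 490000, nat_lit 780000, nat_lit 1100001, nat_lit 1785000, [nat_lit 780000, nat_lit 1435000, nat_lit 1271250], [nat_lit 18, nat_lit 40, nat_lit 40, nat_lit 80, nat_lit 2, nat_lit 317, nat_lit 100, nat_lit 10]⟩, ⟨p057_k3, nat_lit 0, nat_lit 0, nat_lit 235, nat_lit 0, nat_lit 0, [nat_lit 4688000000, nat_lit 7968000000, nat_lit 11872000000], [], [nat_lit 20513832380,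 nat_lit 23723282880, nat_lit 19692663100, nat_lit 23158408640, nat_lit 16093137280, nat_lit 19035370080, nat_lit 15933986400, nat_lit 18706576960], nat_lit 0, nat_lit 0, nat_lit 0, nat_lit 0, nat_lit 0, nat_lit 0, [], [nat_lit 21, nat_lit 40, nat_lit 40, nat_lit 80, nat_lit 14, nat_lit 373, nat_lit 150, nat_lit 10]⟩,
 zbF0, [⟨nat_lit 0, nat_lit 100, nat_lit 94, nat_lit 88, nat_lit 740511448⟩, ⟨nat_lit 4, nat_lit 100, nat_lit 92, nat_lit 75, nat_lit 407723610⟩]⟩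
noncomputable def p057_l9 : Lf2 := ⟨nat_lit 0, nat_lit 10, [nat_lit 0, nat_lit 5, nat_lit 5, nat_lit 20], false, nat_lit 160, nat_lit 240, nat_lit 160, nat_lit 336, ⟨nat_lit 1000, nat_lit 0, nat_lit 0, nat_lit 0, nat_lit 0, nat_lit 0, nat_lit 0, nat_lit 0, nat_lit 0, nat_lit 0, nat_lit 0, nat_lit 0, nat_lit 0, nat_lit 0, nat_lit 0, nat_lit 0, false, false⟩,
 nat_lit 0, nat_lit 13188, nat_lit 0, nat_lit 0, nat_lit 8392, nat_lit 6545, nat_lit 1071, nat_lit 0, nat_lit 0, nat_lit 0, nat_lit 0, nat_lit 0, nat_lit 0, nat_lit 0, nat_lit 0, nat_lit 0, nat_lit 0, nat_lit 0, [],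
 ⟨p057_k0, nat_lit 0, nat_lit 0, nat_lit 342, nat_lit 0, nat_lit 529661, [nat_lit 3282000000, nat_lit 6250000000, nat_lit 9842000000], [], [nat_lit 18695575003, nat_lit 20108405659, nat_lit 18399625179, nat_lit 19773450099, nat_lit 21012122144, nat_lit 21997634059, nat_lit 22309844448, nat_lit 21692593544], nat_lit 1271250, nat_lit 1271250, nat_lit 490000, nat_lit 631250, nat_lit 1100001, nat_lit 1785000, [nat_lit 780000, nat_lit 1435000, nat_lit 1271250], [nat_lit 8, nat_lit 40, nat_lit 40, nat_lit 80, nat_lit 1, nat_lit 317, nat_lit 100, nat_lit 9]⟩, ⟨p057_k3, nat_lit 0, nat_lit 0, nat_lit 88, nat_lit 0, nat_lit 0, [nat_lit 4688000000, nat_lit 7968000000, nat_lit 11872000000], [], [nat_lit 8975045500, nat_lit 12764193120, nat_lit 9114033620, nat_lit 12801093790, nat_lit 21919791861, nat_lit 24445833200, nat_lit 21720381769, nat_lit 24092914178], nat_lit 0, nat_lit 0, nat_lit 0, nat_lit 0, nat_lit 0, nat_lit 0, [], [nat_lit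 21, nat_lit 40, nat_lit 40, nat_lit 80, nat_lit 14, nat_lit 428, nat_lit 200, nat_lit 11]⟩,
 zbF0, [⟨nat_lit 7, nat_lit 92, nat_lit 100, nat_lit 75, nat_lit 747055656⟩]⟩
noncomputable def p057_l10 : Lf2 := ⟨nat_lit 0, nat_lit 10, [nat_lit 0, nat_lit 5, nat_lit 5, nat_lit 20], false, nat_lit 160, nat_lit 240, nat_lit 160, nat_lit 336, ⟨nat_lit 1000, nat_lit 0, nat_lit 0, nat_lit 0, nat_lit 0, nat_lit 0, nat_lit 0, nat_lit 0, nat_lit 0, nat_lit 0, nat_lit 0, nat_lit 0, nat_lit 0, nat_lit 0, nat_lit 0, nat_lit 0, false, false⟩,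
 nat_lit 0, nat_lit 10252, nat_lit 0, nat_lit 0, nat_lit 6524, nat_lit 8419, nat_lit 1870, nat_lit 0, nat_lit 0, nat_lit 0, nat_lit 0, nat_lit 0, nat_lit 0, nat_lit 0, nat_lit 0, nat_lit 0, nat_lit 0, nat_lit 0, [],
 ⟨p057_k5, nat_lit 0, nat_lit 0, nat_lit 472, nat_lit 0, nat_lit 807186, [nat_lit 3282000000, nat_lit 4688000000, nat_lit 9842000000], [], [nat_lit 20870269000, nat_lit 20039582759, nat_lit 19464004112, nat_lit 19761897740, nat_lit 22815455000, nat_lit 22052258713, nat_lit 24218087056, nat_lit 23459831894], nat_lit 1271250, nat_lit 1271250, nat_lit 631250, nat_lit 780000, nat_lit 1100001, nat_lit 1785000, [nat_lit 780000, nat_lit 1100000, nat_lit 2127500], [nat_lit 42, nat_lit 40, nat_lit 40, nat_lit 80, nat_lit 13, nat_lit 317, nat_lit 100, nat_lit 9]⟩, ⟨p057_k6, nat_lit 0, nat_lit 0, nat_lit 63, nat_lit 0, nat_lit 0, [nat_lit 4688000000, nat_lit 6250000000, nat_lit 11872000000], [], [nat_lit 6026498684, nat_lit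 10360512378, nat_lit 6064545668, nat_lit 10273215572, nat_lit 22539718859, nat_lit 25516270400, nat_lit 22039952005, nat_lit 24943134640], nat_lit 0, nat_lit 0, nat_lit 0, nat_lit 0, nat_lit 0, nat_lit 0, [], [nat_lit 48, nat_lit 40, nat_lit 40, nat_lit 80, nat_lit 12, nat_lit 428, nat_lit 200, nat_lit 11]⟩,
 zbF0, [⟨nat_lit 7, nat_lit 92, nat_lit 100, nat_lit 75, nat_lit 878662774⟩]⟩
noncomputable def p057_l11 : Lf2 := ⟨nat_lit 0, nat_lit 10, [nat_lit 0, nat_lit 5, nat_lit 5, nat_lit 20], false, nat_lit 160, nat_lit 240, nat_lit 160, nat_lit 336, ⟨nat_lit 1000, nat_lit 0, nat_lit 0, nat_lit 0, nat_lit 0, nat_lit 0, nat_lit 0, nat_lit 0, nat_lit 0, nat_lit 0, nat_lit 0, nat_lit 0, nat_lit 0, nat_lit 0, nat_lit 0, nat_lit 0, false, false⟩,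
 nat_lit 0, nat_lit 11182, nat_lit 0, nat_lit 0, nat_lit 7270, nat_lit 8419, nat_lit 2925, nat_lit 0, nat_lit 0, nat_lit 0, nat_lit 0, nat_lit 0, nat_lit 0, nat_lit 0, nat_lit 0, nat_lit 0, nat_lit 0, nat_lit 0, [],
 ⟨p057_k7, nat_lit 0, nat_lit 0, nat_lit 479, nat_lit 0, nat_lit 828933, [nat_lit 3282000000, nat_lit 4688000000, nat_lit 9842000000], [], [nat_lit 18447214883, nat_lit 17521542140, nat_lit 15766497050, nat_lit 16042780325, nat_lit 18925057605, nat_lit 18074565485, nat_lit 20425768745, nat_lit 19580809360], nat_lit 1271250, nat_lit 1271250, nat_lit 631250, nat_lit 780000, nat_lit 1100001, nat_lit 1785000, [nat_lit 780000, nat_lit 1100000, nat_lit 2127500], [nat_lit 42, nat_lit 40, nat_lit 40, nat_lit 80, nat_lit 13, nat_lit 317, nat_lit 100, nat_lit 9]⟩, ⟨p057_k6, nat_lit 0, nat_lit 0, nat_lit 63, nat_lit 0, nat_lit 0, [nat_lit 4688000000, nat_lit 6250000000, nat_lit 11872000000], [], [nat_lit 6026498684, nat_lit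 10360512378, nat_lit 6064545668, nat_lit 10273215572, nat_lit 22539718859, nat_lit 25516270400, nat_lit 22039952005, nat_lit 24943134640], nat_lit 0, nat_lit 0, nat_lit 0, nat_lit 0, nat_lit 0, nat_lit 0, [], [nat_lit 48, nat_lit 40, nat_lit 40, nat_lit 80, nat_lit 12, nat_lit 428, nat_lit 200, nat_lit 11]⟩,
 zbF0, [⟨nat_lit 19, nat_lit 100, nat_lit 92, nat_lit 75, nat_lit 878662774⟩]⟩
noncomputable def p057_l12 : Lf2 := ⟨nat_lit 0, nat_lit 10, [nat_lit 0, nat_lit 5, nat_lit 5, nat_lit 20], false, nat_lit 160, nat_lit 240, nat_lit 160, nat_lit 336, ⟨nat_lit 1000, nat_lit 0, nat_lit 0, nat_lit 0, nat_lit 0, nat_lit 0, nat_lit 0, nat_lit 0, nat_lit 0, nat_lit 0, nat_lit 0, nat_lit 0, nat_lit 0, nat_lit 0, nat_lit 0, nat_lit 0, false, false⟩,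
 nat_lit 0, nat_lit 10661, nat_lit 0, nat_lit 0, nat_lit 7080, nat_lit 6741, nat_lit 3486, nat_lit 0, nat_lit 0, nat_lit 0, nat_lit 0, nat_lit 0, nat_lit 0, nat_lit 0, nat_lit 0, nat_lit 0, nat_lit 0, nat_lit 0, [],
 ⟨p057_k1, nat_lit 0, nat_lit 0, nat_lit 454, nat_lit 0, nat_lit 896702, [nat_lit 3282000000, nat_lit 6250000000, nat_lit 7968000000], [], [nat_lit 16208090360, nat_lit 16593908000, nat_lit 16023232400, nat_lit 16397979440, nat_lit 17299796580, nat_lit 17677578660, nat_lit 18748417940, nat_lit 17468019140], nat_lit 1271250, nat_lit 1271250, nat_lit 631250, nat_lit 780000, nat_lit 1100001, nat_lit 1785000, [nat_lit 780000, nat_lit 1435000, nat_lit 1271250], [nat_lit 18, nat_lit 40, nat_lit 40, nat_lit 80, nat_lit 2, nat_lit 317, nat_lit 100, nat_lit 10]⟩, ⟨p057_k3, nat_lit 0, nat_lit 0, nat_lit 77, nat_lit 0, nat_lit 0, [nat_lit 4688000000, nat_lit 7968000000, nat_lit 11872000000], [], [nat_lit 8791111076, nat_lit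 12545835542, nat_lit 8919541852, nat_lit 12569746508, nat_lit 21604512527, nat_lit 24241781745, nat_lit 21386671065, nat_lit 23865830449], nat_lit 0, nat_lit 0, nat_lit 0, nat_lit 0, nat_lit 0, nat_lit 0, [], [nat_lit 21, nat_lit 40, nat_lit 40, nat_lit 80, nat_lit 14, nat_lit 428, nat_lit 200, nat_lit 11]⟩,
 zbF0, [⟨nat_lit 7, nat_lit 92, nat_lit 100, nat_lit 75, nat_lit 747606230⟩]⟩
noncomputable def b_V_700_600_10_8 : St := ⟨true, nat_lit 1, nat_lit 0, nat_lit 1, nat_lit 80, nat_lit 280, nat_lit 300, nat_lit 240, nat_lit 280, nat_lit 36, nat_lit 120, nat_lit 40, nat_lit 80, nat_lit 160, nat_lit 240, nat_lit 0, nat_lit 336, nat_lit 0, nat_lit 40, nat_lit 0, nat_lit 0, nat_lit 0, nat_lit 0⟩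
theorem d_V_700_600_10_8 (h : EB TB.env) : Dead b_V_700_600_10_8 := chkB_sound0 h (T :=
(.spl (nat_lit 2) (nat_lit 80)
(.spl (nat_lit 1) (nat_lit 260)
(.spl (nat_lit 4) (nat_lit 200)
(.spl (nat_lit 0) (nat_lit 290)
(.leaf p057_l0)
(.trZ (nat_lit 0) (nat_lit 100) (nat_lit 91) (nat_lit 63) (nat_lit 40) (.leaf p057_l1)))
(.leaf p057_l2))
(.trZ (nat_lit 0) (nat_lit 100) (nat_lit 96) (nat_lit 69) (nat_lit 48) (.trX (nat_lit 19) (nat_lit 100) (nat_lit 85) (nat_lit 84) (nat_lit 320) (.spl (nat_lit 5) (nat_lit 160)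
(.leaf p057_l3)
(.leaf p057_l4)))))
(.spl (nat_lit 5) (nat_lit 160)
(.spl (nat_lit 0) (nat_lit 290)
(.spl (nat_lit 1) (nat_lit 260)
(.leaf p057_l5)
(.spl (nat_lit 0) (nat_lit 285)
(.leaf p057_l6)
(.leaf p057_l7)))
(.leaf p057_l8))
(.spl (nat_lit 2) (nat_lit 100)
(.leaf p057_l9)
(.spl (nat_lit 0) (nat_lit 290)
(.spl (nat_lit 0) (nat_lit 285)
(.leaf p057_l10)
(.leaf p057_l11))
(.leaf p057_l12)))))) (by decide +kernel)
noncomputable def p057_l13 : Lf2 := ⟨nat_lit 0, nat_lit 10, [nat_lit 0, nat_lit 5, nat_lit 5, nat_lit 20], false, nat_lit 240, nat_lit 300, nat_lit 0, nat_lit 160, ⟨nat_lit 1000, nat_lit 0, nat_lit 0, nat_lit 0, nat_lit 0, nat_lit 0, nat_lit 0, nat_lit 0, nat_lit 0, nat_lit 0, nat_lit 0, nat_lit 0, nat_lit 0, nat_lit 0, nat_lit 0, nat_lit 0, false, false⟩,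
 nat_lit 0, nat_lit 15306, nat_lit 0, nat_lit 4007, nat_lit 9740, nat_lit 7799, nat_lit 980, nat_lit 0, nat_lit 0, nat_lit 1818, nat_lit 0, nat_lit 0, nat_lit 0, nat_lit 0, nat_lit 0, nat_lit 0, nat_lit 0, nat_lit 0, [],
 ⟨p057_k0, nat_lit 0, nat_lit 0, nat_lit 367, nat_lit 0, nat_lit 529661, [nat_lit 3282000000, nat_lit 6250000000, nat_lit 9842000000], [], [nat_lit 21799829900, nat_lit 23572831789, nat_lit 19388709940, nat_lit 20807212180, nat_lit 26121925166, nat_lit 28493991663, nat_lit 23256953520, nat_lit 24998148580], nat_lit 1271250, nat_lit 1271250, nat_lit 205650, nat_lit 490000, nat_lit 1271250, nat_lit 1271250, [nat_lit 780000, nat_lit 1435000, nat_lit 1271250], [nat_lit 8, nat_lit 40, nat_lit 40, nat_lit 80, nat_lit 1, nat_lit 317, nat_lit 100, nat_lit 9]⟩, ⟨p057_k3, nat_lit 0, nat_lit 0, nat_lit 340, nat_lit 0, nat_lit 0, [nat_lit 4688000000, nat_lit 7968000000, nat_lit 11872000000], [], [nat_lit 22799370710,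 nat_lit 26067668554, nat_lit 20248183476, nat_lit 23703854676, nat_lit 18111611367, nat_lit 21120337072, nat_lit 16768057756, nat_lit 19641808416], nat_lit 0, nat_lit 0, nat_lit 0, nat_lit 0, nat_lit 0, nat_lit 0, [], [nat_lit 21, nat_lit 40, nat_lit 40, nat_lit 80, nat_lit 14, nat_lit 373, nat_lit 150, nat_lit 10]⟩,
 zbF0, [⟨nat_lit 0, nat_lit 100, nat_lit 94, nat_lit 73, nat_lit 1190525934⟩, ⟨nat_lit 4, nat_lit 100, nat_lit 94, nat_lit 75, nat_lit 850075524⟩]⟩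
noncomputable def p057_l14 : Lf2 := ⟨nat_lit 0, nat_lit 10, [nat_lit 0, nat_lit 5, nat_lit 5, nat_lit 20], true, nat_lit 240, nat_lit 280, nat_lit 160, nat_lit 336, ⟨nat_lit 0, nat_lit 0, nat_lit 1000, nat_lit 6, nat_lit 115, nat_lit 1000, nat_lit 184, nat_lit 1000, nat_lit 17404, nat_lit 247, nat_lit 126150, nat_lit 302, nat_lit 49792630, nat_lit 0, nat_lit 0, nat_lit 3901633, false, false⟩,
 nat_lit 0, nat_lit 5376, nat_lit 0, nat_lit 0, nat_lit 3421, nat_lit 0, nat_lit 0, nat_lit 0, nat_lit 0, nat_lit 0, nat_lit 0, nat_lit 0, nat_lit 0, nat_lit 0, nat_lit 143, nat_lit 652600, nat_lit 0, nat_lit 0, [(nat_lit 12, [(nat_lit 5, nat_lit 579), (nat_lit 6, nat_lit 421)])],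
 ⟨p057_k5, nat_lit 0, nat_lit 0, nat_lit 316, nat_lit 0, nat_lit 403661, [nat_lit 2817364800, nat_lit 2701453400, nat_lit 310449200], [], [nat_lit 16845314563, nat_lit 17851193435, nat_lit 16725701840, nat_lit 17708424254, nat_lit 18650222056, nat_lit 20024930324, nat_lit 18493604414, nat_lit 19475367151], nat_lit 1271250, nat_lit 1271250, nat_lit 205650, nat_lit 490000, nat_lit 1271250, nat_lit 1271250, [nat_lit 780000, nat_lit 1100000, nat_lit 2127500], [nat_lit 42, nat_lit 40, nat_lit 40, nat_lit 80, nat_lit 13, nat_lit 317, nat_lit 100, nat_lit 9]⟩, C1.Rw.none,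
 ⟨nat_lit 5000, nat_lit 5478, ⟨.ofNat (nat_lit 235487), .ofNat (nat_lit 317913), .ofNat (nat_lit 246166), .ofNat (nat_lit 328592), .ofNat (nat_lit 249999), .ofNat (nat_lit 328570), .ofNat (nat_lit 260713), .ofNat (nat_lit 339284)⟩, ⟨.ofNat (nat_lit 404075), .ofNat (nat_lit 479008), .ofNat (nat_lit 446789), .ofNat (nat_lit 521722), .ofNat (nat_lit 399998), .ofNat (nat_lit 471427), .ofNat (nat_lit 442856), .ofNat (nat_lit 514284)⟩⟩, [⟨nat_lit 0, nat_lit 100, nat_lit 92, nat_lit 66, nat_lit 135067734⟩, ⟨nat_lit 4, nat_lit 100, nat_lit 94, nat_lit 75, nat_lit 286581113⟩]⟩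
noncomputable def p057_l15 : Lf2 := ⟨nat_lit 0, nat_lit 10, [nat_lit 0, nat_lit 5, nat_lit 5, nat_lit 20], false, nat_lit 280, nat_lit 300, nat_lit 160, nat_lit 276, ⟨nat_lit 1000, nat_lit 0, nat_lit 0, nat_lit 0, nat_lit 0, nat_lit 0, nat_lit 0, nat_lit 0, nat_lit 0, nat_lit 0, nat_lit 0, nat_lit 0, nat_lit 0, nat_lit 0, nat_lit 0, nat_lit 0, false, false⟩,
 nat_lit 0, nat_lit 11129, nat_lit 0, nat_lit 3799, nat_lit 7082, nat_lit 7291, nat_lit 1874, nat_lit 0, nat_lit 0, nat_lit 0, nat_lit 0, nat_lit 0, nat_lit 0, nat_lit 0, nat_lit 0, nat_lit 0, nat_lit 0, nat_lit 0, [],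
 ⟨p057_k5, nat_lit 0, nat_lit 0, nat_lit 318, nat_lit 0, nat_lit 403661, [nat_lit 3282000000, nat_lit 4688000000, nat_lit 9842000000], [], [nat_lit 21954904160, nat_lit 23658696511, nat_lit 20876930274, nat_lit 22320687726, nat_lit 23525766370, nat_lit 25449392341, nat_lit 22200488374, nat_lit 24081354548], nat_lit 1271250, nat_lit 1271250, nat_lit 205650, nat_lit 356250, nat_lit 1271250, nat_lit 1271250, [nat_lit 780000, nat_lit 1100000, nat_lit 2127500], [nat_lit 42, nat_lit 40, nat_lit 40, nat_lit 80, nat_lit 13, nat_lit 226, nat_lit 20, nat_lit 6]⟩, ⟨p057_k6, nat_lit 0, nat_lit 0, nat_lit 50, nat_lit 0, nat_lit 0, [nat_lit 4688000000, nat_lit 6250000000, nat_lit 11872000000], [], [nat_lit 9104748076, nat_lit 10162563073, nat_lit 8288281536, nat_lit 9323232961, nat_lit 17706775373, nat_lit 18625613095, nat_lit 16563422697, nat_lit 17326700519], nat_lit 0, nat_lit 0, nat_lit 0, nat_lit 0, nat_lit 0, nat_lit 0, [], [nat_lit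 48, nat_lit 40, nat_lit 40, nat_lit 80, nat_lit 12, nat_lit 373, nat_lit 150, nat_lit 9]⟩,
 zbF0, [⟨nat_lit 0, nat_lit 100, nat_lit 92, nat_lit 66, nat_lit 410468514⟩, ⟨nat_lit 16, nat_lit 94, nat_lit 100, nat_lit 75, nat_lit 738600561⟩, ⟨nat_lit 11, nat_lit 100, nat_lit 100, nat_lit 69, nat_lit 809787967⟩]⟩
noncomputable def p057_l16 : Lf2 := ⟨nat_lit 0, nat_lit 10, [nat_lit 0, nat_lit 5, nat_lit 5, nat_lit 20], true, nat_lit 280, nat_lit 300, nat_lit 160, nat_lit 300, ⟨nat_lit 0, nat_lit 7, nat_lit 993, nat_lit 6, nat_lit 124, nat_lit 1000, nat_lit 206, nat_lit 993, nat_lit 3701, nat_lit 228, nat_lit 144150, nat_lit 308, nat_lit 47224379, nat_lit 6163379, nat_lit 13612242, nat_lit 4217602, false, false⟩,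
 nat_lit 0, nat_lit 5507, nat_lit 0, nat_lit 0, nat_lit 3504, nat_lit 0, nat_lit 0, nat_lit 0, nat_lit 0, nat_lit 0, nat_lit 0, nat_lit 0, nat_lit 0, nat_lit 0, nat_lit 145, nat_lit 671800, nat_lit 0, nat_lit 0, [(nat_lit 12, [(nat_lit 1, nat_lit 7), (nat_lit 5, nat_lit 540), (nat_lit 6, nat_lit 453)])],
 ⟨p057_k5, nat_lit 0, nat_lit 0, nat_lit 304, nat_lit 0, nat_lit 403661, [nat_lit 2836314600, nat_lit 2749080600, nat_lit 308196400], [], [nat_lit 18331486760, nat_lit 19654566072, nat_lit 18283879736, nat_lit 19376127944, nat_lit 19584703716, nat_lit 20879173356, nat_lit 19308227888, nat_lit 20582798668], nat_lit 1271250, nat_lit 1271250, nat_lit 356250, nat_lit 490000, nat_lit 1271250, nat_lit 1271250, [nat_lit 780000, nat_lit 1100000, nat_lit 2127500], [nat_lit 42, nat_lit 40, nat_lit 40, nat_lit 80, nat_lit 13, nat_lit 226, nat_lit 20, nat_lit 6]⟩, C1.Rw.none,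
 ⟨nat_lit 5000, nat_lit 5478, ⟨.ofNat (nat_lit 280447), .ofNat (nat_lit 317913), .ofNat (nat_lit 291125), .ofNat (nat_lit 328592), .ofNat (nat_lit 292856), .ofNat (nat_lit 328570), .ofNat (nat_lit 303570), .ofNat (nat_lit 339284)⟩, ⟨.ofNat (nat_lit 479008), .ofNat (nat_lit 516475), .ofNat (nat_lit 521722), .ofNat (nat_lit 559189), .ofNat (nat_lit 471427), .ofNat (nat_lit 507141), .ofNat (nat_lit 514284), .ofNat (nat_lit 549998)⟩⟩, [⟨nat_lit 16, nat_lit 100, nat_lit 95, nat_lit 87, nat_lit 373218014⟩]⟩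
noncomputable def p057_l17 : Lf2 := ⟨nat_lit 0, nat_lit 10, [nat_lit 0, nat_lit 5, nat_lit 5, nat_lit 20], false, nat_lit 240, nat_lit 300, nat_lit 160, nat_lit 328, ⟨nat_lit 1000, nat_lit 0, nat_lit 0, nat_lit 0, nat_lit 0, nat_lit 0, nat_lit 0, nat_lit 0, nat_lit 0, nat_lit 0, nat_lit 0, nat_lit 0, nat_lit 0, nat_lit 0, nat_lit 0, nat_lit 0, false, false⟩,
 nat_lit 0, nat_lit 11539, nat_lit 0, nat_lit 0, nat_lit 7343, nat_lit 6357, nat_lit 2041, nat_lit 0, nat_lit 0, nat_lit 0, nat_lit 0, nat_lit 0, nat_lit 0, nat_lit 0, nat_lit 0, nat_lit 0, nat_lit 0, nat_lit 0, [],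
 ⟨p057_k5, nat_lit 0, nat_lit 0, nat_lit 326, nat_lit 0, nat_lit 442807, [nat_lit 3282000000, nat_lit 4688000000, nat_lit 9842000000], [], [nat_lit 18301356036, nat_lit 19946620990, nat_lit 17223290912, nat_lit 18799069540, nat_lit 23362869648, nat_lit 25328908398, nat_lit 21401335146, nat_lit 23300971906], nat_lit 1271250, nat_lit 1271250, nat_lit 230001, nat_lit 490000, nat_lit 1271250, nat_lit 1271250, [nat_lit 780000, nat_lit 1100000, nat_lit 2127500], [nat_lit 42, nat_lit 40, nat_lit 40, nat_lit 80, nat_lit 13, nat_lit 317, nat_lit 100, nat_lit 9]⟩, ⟨p057_k8, nat_lit 0, nat_lit 0, nat_lit 85, nat_lit 0, nat_lit 0, [nat_lit 4688000000, nat_lit 6250000000, nat_lit 9842000000], [], [nat_lit 11009133781, nat_lit 11977309718, nat_lit 10205139113, nat_lit 11135617126, nat_lit 23042605573, nat_lit 23738024571, nat_lit 21811857520, nat_lit 22391181559], nat_lit 0, nat_lit 0, nat_lit 0, nat_lit 0, nat_lit 0, nat_lit 0, [],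 [nat_lit 11, nat_lit 40, nat_lit 40, nat_lit 80, nat_lit 1, nat_lit 401, nat_lit 175, nat_lit 11]⟩,
 zbF0, [⟨nat_lit 0, nat_lit 100, nat_lit 93, nat_lit 71, nat_lit 370138985⟩, ⟨nat_lit 4, nat_lit 100, nat_lit 94, nat_lit 75, nat_lit 295241670⟩, ⟨nat_lit 19, nat_lit 100, nat_lit 90, nat_lit 74, nat_lit 99487832⟩, ⟨nat_lit 23, nat_lit 100, nat_lit 97, nat_lit 76, nat_lit 641893414⟩]⟩
noncomputable def p057_l18 : Lf2 := ⟨nat_lit 0, nat_lit 10, [nat_lit 0, nat_lit 5, nat_lit 5, nat_lit 20], false, nat_lit 240, nat_lit 300, nat_lit 160, nat_lit 320, ⟨nat_lit 1000, nat_lit 0, nat_lit 0, nat_lit 0, nat_lit 0, nat_lit 0, nat_lit 0, nat_lit 0, nat_lit 0, nat_lit 0, nat_lit 0, nat_lit 0, nat_lit 0, nat_lit 0, nat_lit 0, nat_lit 0, false, false⟩,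
 nat_lit 0, nat_lit 12103, nat_lit 0, nat_lit 0, nat_lit 7701, nat_lit 6532, nat_lit 1830, nat_lit 0, nat_lit 0, nat_lit 0, nat_lit 0, nat_lit 0, nat_lit 0, nat_lit 0, nat_lit 0, nat_lit 0, nat_lit 0, nat_lit 0, [],
 ⟨p057_k5, nat_lit 0, nat_lit 0, nat_lit 349, nat_lit 0, nat_lit 529661, [nat_lit 3282000000, nat_lit 4688000000, nat_lit 9842000000], [], [nat_lit 18901243206, nat_lit 20417321278, nat_lit 17923011388, nat_lit 19256656032, nat_lit 23270836394, nat_lit 25283869058, nat_lit 21596524622, nat_lit 23554450942], nat_lit 1271250, nat_lit 1271250, nat_lit 279600, nat_lit 490000, nat_lit 1271250, nat_lit 1271250, [nat_lit 780000, nat_lit 1100000, nat_lit 2127500], [nat_lit 42, nat_lit 40, nat_lit 40, nat_lit 80, nat_lit 13, nat_lit 317, nat_lit 100, nat_lit 9]⟩, ⟨p057_k9, nat_lit 0, nat_lit 0, nat_lit 81, nat_lit 0, nat_lit 0, [nat_lit 4688000000, nat_lit 6250000000, nat_lit 9842000000], [], [nat_lit 11598306690, nat_lit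 13552141504, nat_lit 10888012776, nat_lit 12780261952, nat_lit 22652533162, nat_lit 24105083248, nat_lit 21547872520, nat_lit 22758378656], nat_lit 0, nat_lit 0, nat_lit 0, nat_lit 0, nat_lit 0, nat_lit 0, [], [nat_lit 11, nat_lit 40, nat_lit 40, nat_lit 80, nat_lit 1, nat_lit 401, nat_lit 175, nat_lit 11]⟩,
 zbF0, [⟨nat_lit 0, nat_lit 100, nat_lit 95, nat_lit 78, nat_lit 540542643⟩, ⟨nat_lit 4, nat_lit 100, nat_lit 94, nat_lit 75, nat_lit 340698715⟩, ⟨nat_lit 19, nat_lit 100, nat_lit 97, nat_lit 76, nat_lit 216625206⟩, ⟨nat_lit 23, nat_lit 100, nat_lit 95, nat_lit 78, nat_lit 499597283⟩]⟩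
noncomputable def p057_l19 : Lf2 := ⟨nat_lit 0, nat_lit 10, [nat_lit 0, nat_lit 5, nat_lit 5, nat_lit 20], false, nat_lit 240, nat_lit 300, nat_lit 0, nat_lit 160, ⟨nat_lit 1000, nat_lit 0, nat_lit 0, nat_lit 0, nat_lit 0, nat_lit 0, nat_lit 0, nat_lit 0, nat_lit 0, nat_lit 0, nat_lit 0, nat_lit 0, nat_lit 0, nat_lit 0, nat_lit 0, nat_lit 0, false, false⟩,
 nat_lit 0, nat_lit 12997, nat_lit 0, nat_lit 0, nat_lit 8270, nat_lit 7434, nat_lit 1852, nat_lit 0, nat_lit 0, nat_lit 2916, nat_lit 0, nat_lit 0, nat_lit 0, nat_lit 0, nat_lit 0, nat_lit 0, nat_lit 0, nat_lit 0, [],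
 ⟨p057_k5, nat_lit 0, nat_lit 0, nat_lit 552, nat_lit 0, nat_lit 952182, [nat_lit 3282000000, nat_lit 4688000000, nat_lit 9842000000], [], [nat_lit 17518574080, nat_lit 18653279000, nat_lit 17108768520, nat_lit 18178585820, nat_lit 21906755940, nat_lit 23957326840, nat_lit 21000336440, nat_lit 22947362535], nat_lit 1271250, nat_lit 1271250, nat_lit 490000, nat_lit 780000, nat_lit 1271250, nat_lit 1271250, [nat_lit 780000, nat_lit 1100000, nat_lit 2127500], [nat_lit 42, nat_lit 40, nat_lit 40, nat_lit 80, nat_lit 13, nat_lit 345, nat_lit 125, nat_lit 9]⟩, ⟨p057_k6, nat_lit 0, nat_lit 0, nat_lit 220, nat_lit 0, nat_lit 0, [nat_lit 4688000000, nat_lit 6250000000, nat_lit 11872000000], [], [nat_lit 18217871716, nat_lit 21265883492, nat_lit 17540518220, nat_lit 20442817948, nat_lit 13482764472, nat_lit 16579182104, nat_lit 13547563936, nat_lit 16467998808], nat_lit 0, nat_lit 0, nat_lit 0, nat_lit 0, nat_lit 0, nat_lit 0, [],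 [nat_lit 48, nat_lit 40, nat_lit 40, nat_lit 80, nat_lit 12, nat_lit 373, nat_lit 150, nat_lit 10]⟩,
 zbF0, [⟨nat_lit 4, nat_lit 100, nat_lit 94, nat_lit 75, nat_lit 966564314⟩]⟩
noncomputable def p057_l20 : Lf2 := ⟨nat_lit 0, nat_lit 10, [nat_lit 0, nat_lit 5, nat_lit 5, nat_lit 20], false, nat_lit 240, nat_lit 300, nat_lit 160, nat_lit 336, ⟨nat_lit 1000, nat_lit 0, nat_lit 0, nat_lit 0, nat_lit 0, nat_lit 0, nat_lit 0, nat_lit 0, nat_lit 0, nat_lit 0, nat_lit 0, nat_lit 0, nat_lit 0, nat_lit 0, nat_lit 0, nat_lit 0, false, false⟩,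
 nat_lit 0, nat_lit 10987, nat_lit 0, nat_lit 0, nat_lit 6991, nat_lit 6400, nat_lit 1831, nat_lit 0, nat_lit 0, nat_lit 0, nat_lit 0, nat_lit 0, nat_lit 0, nat_lit 0, nat_lit 0, nat_lit 0, nat_lit 0, nat_lit 0, [],
 ⟨p057_k5, nat_lit 0, nat_lit 0, nat_lit 332, nat_lit 0, nat_lit 529661, [nat_lit 3282000000, nat_lit 4688000000, nat_lit 9842000000], [], [nat_lit 18653114491, nat_lit 19815925559, nat_lit 18431452845, nat_lit 19563662828, nat_lit 21755365735, nat_lit 23053293237, nat_lit 21567874216, nat_lit 22831703667], nat_lit 1271250, nat_lit 1271250, nat_lit 490000, nat_lit 631250, nat_lit 1271250, nat_lit 1271250, [nat_lit 780000, nat_lit 1100000, nat_lit 2127500], [nat_lit 42, nat_lit 40, nat_lit 40, nat_lit 80, nat_lit 13, nat_lit 317, nat_lit 100, nat_lit 8]⟩, ⟨p057_k6, nat_lit 0, nat_lit 0, nat_lit 71, nat_lit 0, nat_lit 0, [nat_lit 4688000000, nat_lit 6250000000, nat_lit 11872000000], [], [nat_lit 9206132000, nat_lit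 12943422400, nat_lit 9352930400, nat_lit 12989932800, nat_lit 21991876001, nat_lit 24318662400, nat_lit 21806101361, nat_lit 24003386001], nat_lit 0, nat_lit 0, nat_lit 0, nat_lit 0, nat_lit 0, nat_lit 0, [], [nat_lit 48, nat_lit 40, nat_lit 40, nat_lit 80, nat_lit 12, nat_lit 428, nat_lit 200, nat_lit 11]⟩,
 zbF0, [⟨nat_lit 4, nat_lit 100, nat_lit 94, nat_lit 75, nat_lit 300100844⟩, ⟨nat_lit 19, nat_lit 100, nat_lit 92, nat_lit 75, nat_lit 274280027⟩, ⟨nat_lit 23, nat_lit 100, nat_lit 86, nat_lit 89, nat_lit 388647965⟩]⟩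
noncomputable def p057_l21 : Lf2 := ⟨nat_lit 0, nat_lit 10, [nat_lit 0, nat_lit 5, nat_lit 5, nat_lit 20], false, nat_lit 240, nat_lit 300, nat_lit 160, nat_lit 336, ⟨nat_lit 1000, nat_lit 0, nat_lit 0, nat_lit 0, nat_lit 0, nat_lit 0, nat_lit 0, nat_lit 0, nat_lit 0, nat_lit 0, nat_lit 0, nat_lit 0, nat_lit 0, nat_lit 0, nat_lit 0, nat_lit 0, false, false⟩,
 nat_lit 0, nat_lit 11377, nat_lit 0, nat_lit 0, nat_lit 7239, nat_lit 6568, nat_lit 1775, nat_lit 0, nat_lit 0, nat_lit 0, nat_lit 0, nat_lit 0, nat_lit 0, nat_lit 0, nat_lit 0, nat_lit 0, nat_lit 0, nat_lit 0, [],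
 ⟨p057_k5, nat_lit 0, nat_lit 0, nat_lit 306, nat_lit 0, nat_lit 475281, [nat_lit 3282000000, nat_lit 4688000000, nat_lit 9842000000], [], [nat_lit 18277364005, nat_lit 18853775009, nat_lit 18131465165, nat_lit 18698440279, nat_lit 21337134502, nat_lit 21920269540, nat_lit 21115677940, nat_lit 21700627083], nat_lit 1271250, nat_lit 1271250, nat_lit 631250, nat_lit 719601, nat_lit 1271250, nat_lit 1271250, [nat_lit 780000, nat_lit 1100000, nat_lit 2127500], [nat_lit 42, nat_lit 40, nat_lit 40, nat_lit 80, nat_lit 13, nat_lit 345, nat_lit 125, nat_lit 9]⟩, ⟨p057_k6, nat_lit 0, nat_lit 0, nat_lit 63, nat_lit 0, nat_lit 0, [nat_lit 4688000000, nat_lit 6250000000, nat_lit 11872000000], [], [nat_lit 9076139648, nat_lit 12771140016, nat_lit 9158789197, nat_lit 12792365837, nat_lit 21706784868, nat_lit 24110383332, nat_lit 21585841094, nat_lit 23897010258], nat_lit 0, nat_lit 0, nat_lit 0, nat_lit 0, nat_lit 0, nat_lit 0, [],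 [nat_lit 48, nat_lit 40, nat_lit 40, nat_lit 80, nat_lit 12, nat_lit 428, nat_lit 200, nat_lit 11]⟩,
 zbF0, [⟨nat_lit 16, nat_lit 100, nat_lit 95, nat_lit 87, nat_lit 239877959⟩, ⟨nat_lit 7, nat_lit 92, nat_lit 100, nat_lit 75, nat_lit 352623480⟩, ⟨nat_lit 11, nat_lit 97, nat_lit 97, nat_lit 100, nat_lit 294921095⟩]⟩
noncomputable def p057_l22 : Lf2 := ⟨nat_lit 0, nat_lit 10, [nat_lit 0, nat_lit 5, nat_lit 5, nat_lit 20], false, nat_lit 240, nat_lit 300, nat_lit 160, nat_lit 336, ⟨nat_lit 1000, nat_lit 0, nat_lit 0, nat_lit 0, nat_lit 0, nat_lit 0, nat_lit 0, nat_lit 0, nat_lit 0, nat_lit 0, nat_lit 0, nat_lit 0, nat_lit 0, nat_lit 0, nat_lit 0, nat_lit 0, false, false⟩,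
 nat_lit 0, nat_lit 11960, nat_lit 0, nat_lit 0, nat_lit 7610, nat_lit 6465, nat_lit 1771, nat_lit 0, nat_lit 0, nat_lit 0, nat_lit 0, nat_lit 0, nat_lit 0, nat_lit 0, nat_lit 0, nat_lit 0, nat_lit 0, nat_lit 0, [],
 ⟨p057_k5, nat_lit 0, nat_lit 0, nat_lit 454, nat_lit 0, nat_lit 807186, [nat_lit 3282000000, nat_lit 4688000000, nat_lit 9842000000], [], [nat_lit 18025693124, nat_lit 18267749742, nat_lit 17919460795, nat_lit 18209446580, nat_lit 21134322988, nat_lit 21403292868, nat_lit 21042084410, nat_lit 21307976683], nat_lit 1271250, nat_lit 1271250, nat_lit 719601, nat_lit 780000, nat_lit 1271250, nat_lit 1271250, [nat_lit 780000, nat_lit 1100000, nat_lit 2127500], [nat_lit 42, nat_lit 40, nat_lit 40, nat_lit 80, nat_lit 13, nat_lit 345, nat_lit 125, nat_lit 9]⟩, ⟨p057_k6, nat_lit 0, nat_lit 0, nat_lit 57, nat_lit 0, nat_lit 0, [nat_lit 4688000000, nat_lit 6250000000, nat_lit 11872000000], [], [nat_lit 9331817085, nat_lit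 12930602384, nat_lit 9389135980, nat_lit 12947483420, nat_lit 21652543086, nat_lit 23826455115, nat_lit 21575788253, nat_lit 23727182365], nat_lit 0, nat_lit 0, nat_lit 0, nat_lit 0, nat_lit 0, nat_lit 0, [], [nat_lit 48, nat_lit 40, nat_lit 40, nat_lit 80, nat_lit 12, nat_lit 428, nat_lit 200, nat_lit 11]⟩,
 zbF0, [⟨nat_lit 16, nat_lit 100, nat_lit 95, nat_lit 87, nat_lit 388215807⟩, ⟨nat_lit 4, nat_lit 100, nat_lit 98, nat_lit 77, nat_lit 215588143⟩, ⟨nat_lit 7, nat_lit 92, nat_lit 100, nat_lit 75, nat_lit 717266329⟩]⟩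
noncomputable def p057_l23 : Lf2 := ⟨nat_lit 0, nat_lit 10, [nat_lit 0, nat_lit 5, nat_lit 5, nat_lit 20], false, nat_lit 240, nat_lit 296, nat_lit 160, nat_lit 336, ⟨nat_lit 1000, nat_lit 0, nat_lit 0, nat_lit 0, nat_lit 0, nat_lit 0, nat_lit 0, nat_lit 0, nat_lit 0, nat_lit 0, nat_lit 0, nat_lit 0, nat_lit 0, nat_lit 0, nat_lit 0, nat_lit 0, false, false⟩,
 nat_lit 0, nat_lit 10902, nat_lit 0, nat_lit 0, nat_lit 7088, nat_lit 6465, nat_lit 2360, nat_lit 0, nat_lit 0, nat_lit 0, nat_lit 0, nat_lit 0, nat_lit 0, nat_lit 0, nat_lit 0, nat_lit 0, nat_lit 0, nat_lit 0, [],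
 ⟨p057_k7, nat_lit 0, nat_lit 0, nat_lit 462, nat_lit 0, nat_lit 828933, [nat_lit 3282000000, nat_lit 4688000000, nat_lit 9842000000], [], [nat_lit 18912505029, nat_lit 19146702216, nat_lit 18866279640, nat_lit 19097777704, nat_lit 21084988541, nat_lit 21287953530, nat_lit 21012800257, nat_lit 21213424474], nat_lit 1271250, nat_lit 1271250, nat_lit 719601, nat_lit 780000, nat_lit 1271250, nat_lit 1271250, [nat_lit 780000, nat_lit 1100000, nat_lit 2127500], [nat_lit 42, nat_lit 40, nat_lit 40, nat_lit 80, nat_lit 13, nat_lit 345, nat_lit 125, nat_lit 9]⟩, ⟨p057_k6, nat_lit 0, nat_lit 0, nat_lit 57, nat_lit 0, nat_lit 0, [nat_lit 4688000000, nat_lit 6250000000, nat_lit 11872000000], [], [nat_lit 9331817085, nat_lit 12930602384, nat_lit 9389135980, nat_lit 12947483420, nat_lit 21652543086, nat_lit 23826455115, nat_lit 21575788253, nat_lit 23727182365], nat_lit 0, nat_lit 0, nat_lit 0, nat_lit 0, nat_lit 0, nat_lit 0, [],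 [nat_lit 48, nat_lit 40, nat_lit 40, nat_lit 80, nat_lit 12, nat_lit 428, nat_lit 200, nat_lit 11]⟩,
 zbF0, [⟨nat_lit 16, nat_lit 100, nat_lit 98, nat_lit 88, nat_lit 487879930⟩, ⟨nat_lit 7, nat_lit 92, nat_lit 100, nat_lit 75, nat_lit 717266329⟩]⟩
noncomputable def p057_l24 : Lf2 := ⟨nat_lit 0, nat_lit 10, [nat_lit 0, nat_lit 5, nat_lit 5, nat_lit 20], false, nat_lit 240, nat_lit 292, nat_lit 160, nat_lit 336, ⟨nat_lit 1000, nat_lit 0, nat_lit 0, nat_lit 0, nat_lit 0, nat_lit 0, nat_lit 0, nat_lit 0, nat_lit 0, nat_lit 0, nat_lit 0, nat_lit 0, nat_lit 0, nat_lit 0, nat_lit 0, nat_lit 0, false, false⟩,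
 nat_lit 0, nat_lit 10112, nat_lit 0, nat_lit 0, nat_lit 6715, nat_lit 6417, nat_lit 2328, nat_lit 0, nat_lit 0, nat_lit 0, nat_lit 0, nat_lit 0, nat_lit 0, nat_lit 0, nat_lit 0, nat_lit 0, nat_lit 0, nat_lit 0, [],
 ⟨p057_k10, nat_lit 0, nat_lit 0, nat_lit 434, nat_lit 0, nat_lit 896702, [nat_lit 3282000000, nat_lit 4688000000, nat_lit 7968000000], [], [nat_lit 19642832615, nat_lit 20077785960, nat_lit 19526648105, nat_lit 19949464230, nat_lit 21492808758, nat_lit 21874791180, nat_lit 21323013969, nat_lit 21694325842], nat_lit 1271250, nat_lit 1271250, nat_lit 631250, nat_lit 780000, nat_lit 1271250, nat_lit 1271250, [nat_lit 780000, nat_lit 1100000, nat_lit 1785000], [nat_lit 36, nat_lit 40, nat_lit 40, nat_lit 80, nat_lit 7, nat_lit 238, nat_lit 30, nat_lit 7]⟩, ⟨p057_k6, nat_lit 0, nat_lit 0, nat_lit 63, nat_lit 0, nat_lit 0, [nat_lit 4688000000, nat_lit 6250000000, nat_lit 11872000000], [], [nat_lit 9324921812, nat_lit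 12967793054, nat_lit 9470804524, nat_lit 13013176796, nat_lit 21796051477, nat_lit 23996057232, nat_lit 21608678198, nat_lit 23752703504], nat_lit 0, nat_lit 0, nat_lit 0, nat_lit 0, nat_lit 0, nat_lit 0, [], [nat_lit 48, nat_lit 40, nat_lit 40, nat_lit 80, nat_lit 12, nat_lit 428, nat_lit 200, nat_lit 11]⟩,
 zbF0, [⟨nat_lit 16, nat_lit 100, nat_lit 100, nat_lit 89, nat_lit 460642452⟩, ⟨nat_lit 19, nat_lit 100, nat_lit 92, nat_lit 75, nat_lit 722280665⟩]⟩
noncomputable def b_V_700_600_10_9 : St := ⟨true, nat_lit 1, nat_lit 0, nat_lit 1, nat_lit 80, nat_lit 280, nat_lit 300, nat_lit 240, nat_lit 280, nat_lit 36, nat_lit 120, nat_lit 40, nat_lit 80, nat_lit 240, nat_lit 300, nat_lit 0, nat_lit 336, nat_lit 0, nat_lit 40, nat_lit 0, nat_lit 0, nat_lit 0, nat_lit 0⟩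
theorem d_V_700_600_10_9 (h : EB TB.env) : Dead b_V_700_600_10_9 := chkB_sound0 h (T :=
(.spl (nat_lit 2) (nat_lit 80)
(.spl (nat_lit 5) (nat_lit 160)
(.leaf p057_l13)
(.spl (nat_lit 1) (nat_lit 260)
(.spl (nat_lit 1) (nat_lit 250)
(.spl (nat_lit 4) (nat_lit 280)
(.leaf p057_l14)
(.trX (nat_lit 23) (nat_lit 100) (nat_lit 95) (nat_lit 87) (nat_lit 300) (.spl (nat_lit 2) (nat_lit 60)
(.trX (nat_lit 23) (nat_lit 99) (nat_lit 100) (nat_lit 77) (nat_lit 276) (.leaf p057_l15))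
(.leaf p057_l16))))
(.trZ (nat_lit 0) (nat_lit 100) (nat_lit 95) (nat_lit 64) (nat_lit 40) (.trX (nat_lit 19) (nat_lit 100) (nat_lit 81) (nat_lit 83) (nat_lit 328) (.leaf p057_l17))))
(.trZ (nat_lit 0) (nat_lit 100) (nat_lit 96) (nat_lit 69) (nat_lit 48) (.trX (nat_lit 19) (nat_lit 100) (nat_lit 85) (nat_lit 84) (nat_lit 320) (.leaf p057_l18)))))
(.spl (nat_lit 5) (nat_lit 160)
(.leaf p057_l19)
(.spl (nat_lit 2) (nat_lit 100)
(.leaf p057_l20)
(.spl (nat_lit 0) (nat_lit 290)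
(.spl (nat_lit 2) (nat_lit 112)
(.leaf p057_l21)
(.spl (nat_lit 0) (nat_lit 285)
(.leaf p057_l22)
(.trX (nat_lit 16) (nat_lit 100) (nat_lit 98) (nat_lit 88) (nat_lit 296) (.leaf p057_l23))))
(.trX (nat_lit 16) (nat_lit 100) (nat_lit 100) (nat_lit 89) (nat_lit 292) (.leaf p057_l24))))))) (by decide +kernel)
noncomputable def p057_l25 : Lf2 := ⟨nat_lit 0, nat_lit 10, [nat_lit 0, nat_lit 5, nat_lit 5, nat_lit 20], false, nat_lit 160, nat_lit 300, nat_lit 0, nat_lit 160, ⟨nat_lit 1000, nat_lit 0, nat_lit 0, nat_lit 0, nat_lit 0, nat_lit 0, nat_lit 0, nat_lit 0, nat_lit 0, nat_lit 0, nat_lit 0, nat_lit 0, nat_lit 0, nat_lit 0, nat_lit 0, nat_lit 0, false, false⟩,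
 nat_lit 0, nat_lit 11445, nat_lit 0, nat_lit 0, nat_lit 7283, nat_lit 17251, nat_lit 977, nat_lit 0, nat_lit 0, nat_lit 2717, nat_lit 0, nat_lit 0, nat_lit 0, nat_lit 0, nat_lit 0, nat_lit 0, nat_lit 0, nat_lit 0, [],
 ⟨p057_k0, nat_lit 0, nat_lit 0, nat_lit 456, nat_lit 0, nat_lit 770812, [nat_lit 3282000000, nat_lit 6250000000, nat_lit 9842000000], [], [nat_lit 24038712293, nat_lit 24980450889, nat_lit 25807649392, nat_lit 26709559236, nat_lit 28137148808, nat_lit 28957767209, nat_lit 28952622554, nat_lit 29595277551], nat_lit 1271250, nat_lit 1271250, nat_lit 780000, nat_lit 1762500, nat_lit 1271250, nat_lit 1271250, [nat_lit 780000, nat_lit 1435000, nat_lit 1271250], [nat_lit 8, nat_lit 40, nat_lit 40, nat_lit 80, nat_lit 1, nat_lit 373, nat_lit 150, nat_lit 10]⟩, ⟨p057_k3, nat_lit 0, nat_lit 0, nat_lit 202, nat_lit 0, nat_lit 0, [nat_lit 4688000000, nat_lit 7968000000, nat_lit 11872000000], [], [nat_lit 16010258580,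 nat_lit 18525531976, nat_lit 24097415504, nat_lit 27991635494, nat_lit 1993393364, nat_lit 4853402034, nat_lit 7566435844, nat_lit 10809252640], nat_lit 0, nat_lit 0, nat_lit 0, nat_lit 0, nat_lit 0, nat_lit 0, [], [nat_lit 21, nat_lit 40, nat_lit 40, nat_lit 80, nat_lit 14, nat_lit 401, nat_lit 175, nat_lit 10]⟩,
 zbF0, [⟨nat_lit 4, nat_lit 100, nat_lit 94, nat_lit 75, nat_lit 513079969⟩]⟩
noncomputable def p057_l26 : Lf2 := ⟨nat_lit 0, nat_lit 10, [nat_lit 0, nat_lit 5, nat_lit 5, nat_lit 20], false, nat_lit 160, nat_lit 300, nat_lit 0, nat_lit 160, ⟨nat_lit 1000, nat_lit 0, nat_lit 0, nat_lit 0, nat_lit 0, nat_lit 0, nat_lit 0, nat_lit 0, nat_lit 0, nat_lit 0, nat_lit 0, nat_lit 0, nat_lit 0, nat_lit 0, nat_lit 0, nat_lit 0, false, false⟩,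
 nat_lit 0, nat_lit 14458, nat_lit 0, nat_lit 0, nat_lit 9200, nat_lit 7927, nat_lit 872, nat_lit 0, nat_lit 0, nat_lit 4473, nat_lit 0, nat_lit 0, nat_lit 0, nat_lit 0, nat_lit 0, nat_lit 0, nat_lit 0, nat_lit 0, [],
 ⟨p057_k0, nat_lit 0, nat_lit 0, nat_lit 546, nat_lit 0, nat_lit 952182, [nat_lit 3282000000, nat_lit 6250000000, nat_lit 9842000000], [], [nat_lit 21272245600, nat_lit 21497634400, nat_lit 21434651200, nat_lit 22179906400, nat_lit 23648004200, nat_lit 24317876100, nat_lit 24054723600, nat_lit 25675467800], nat_lit 1271250, nat_lit 1271250, nat_lit 780000, nat_lit 1762500, nat_lit 1271250, nat_lit 1271250, [nat_lit 780000, nat_lit 1435000, nat_lit 1271250], [nat_lit 8, nat_lit 40, nat_lit 40, nat_lit 80, nat_lit 1, nat_lit 373, nat_lit 150, nat_lit 10]⟩, ⟨p057_k2, nat_lit 0, nat_lit 0, nat_lit 158, nat_lit 0, nat_lit 0, [nat_lit 4688000000, nat_lit 7968000000, nat_lit 9842000000], [], [nat_lit 13997453018,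 nat_lit 16405074608, nat_lit 20001023438, nat_lit 22203030668, nat_lit 10351140928, nat_lit 11718494416, nat_lit 14033882594, nat_lit 15763620172], nat_lit 0, nat_lit 0, nat_lit 0, nat_lit 0, nat_lit 0, nat_lit 0, [], [nat_lit 29, nat_lit 40, nat_lit 40, nat_lit 80, nat_lit 17, nat_lit 401, nat_lit 175, nat_lit 12]⟩,
 zbF0, [⟨nat_lit 16, nat_lit 94, nat_lit 100, nat_lit 75, nat_lit 454393898⟩]⟩
noncomputable def p057_l27 : Lf2 := ⟨nat_lit 0, nat_lit 10, [nat_lit 0, nat_lit 5, nat_lit 5, nat_lit 20], false, nat_lit 160, nat_lit 276, nat_lit 160, nat_lit 312, ⟨nat_lit 1000, nat_lit 0, nat_lit 0, nat_lit 0, nat_lit 0, nat_lit 0, nat_lit 0, nat_lit 0, nat_lit 0, nat_lit 0, nat_lit 0, nat_lit 0, nat_lit 0, nat_lit 0, nat_lit 0, nat_lit 0, false, false⟩,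
 nat_lit 0, nat_lit 11594, nat_lit 0, nat_lit 0, nat_lit 7377, nat_lit 8531, nat_lit 2388, nat_lit 0, nat_lit 0, nat_lit 0, nat_lit 0, nat_lit 0, nat_lit 0, nat_lit 0, nat_lit 0, nat_lit 0, nat_lit 0, nat_lit 0, [],
 ⟨p057_k5, nat_lit 0, nat_lit 0, nat_lit 513, nat_lit 0, nat_lit 922002, [nat_lit 3282000000, nat_lit 4688000000, nat_lit 9842000000], [], [nat_lit 22320820616, nat_lit 19896278220, nat_lit 24256593088, nat_lit 21598632330, nat_lit 21981696665, nat_lit 22787175427, nat_lit 23175375304, nat_lit 23899535654], nat_lit 1271250, nat_lit 1271250, nat_lit 780000, nat_lit 1762500, nat_lit 1271250, nat_lit 1271250, [nat_lit 780000, nat_lit 1100000, nat_lit 2127500], [nat_lit 42, nat_lit 40, nat_lit 40, nat_lit 80, nat_lit 13, nat_lit 373, nat_lit 150, nat_lit 10]⟩, ⟨p057_k6, nat_lit 0, nat_lit 0, nat_lit 37, nat_lit 0, nat_lit 0, [nat_lit 4688000000, nat_lit 6250000000, nat_lit 11872000000], [], [nat_lit 5873985732,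 nat_lit 10119931028, nat_lit 11744676164, nat_lit 15652747516, nat_lit 19030011650, nat_lit 22275993152, nat_lit 22300841031, nat_lit 24776914080], nat_lit 0, nat_lit 0, nat_lit 0, nat_lit 0, nat_lit 0, nat_lit 0, [], [nat_lit 48, nat_lit 40, nat_lit 40, nat_lit 80, nat_lit 12, nat_lit 456, nat_lit 225, nat_lit 11]⟩,
 zbF0, [⟨nat_lit 4, nat_lit 100, nat_lit 92, nat_lit 68, nat_lit 533424297⟩, ⟨nat_lit 7, nat_lit 96, nat_lit 100, nat_lit 69, nat_lit 902067626⟩]⟩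
noncomputable def p057_l28 : Lf2 := ⟨nat_lit 0, nat_lit 10, [nat_lit 0, nat_lit 5, nat_lit 5, nat_lit 20], false, nat_lit 160, nat_lit 300, nat_lit 160, nat_lit 336, ⟨nat_lit 1000, nat_lit 0, nat_lit 0, nat_lit 0, nat_lit 0, nat_lit 0, nat_lit 0, nat_lit 0, nat_lit 0, nat_lit 0, nat_lit 0, nat_lit 0, nat_lit 0, nat_lit 0, nat_lit 0, nat_lit 0, false, false⟩,
 nat_lit 0, nat_lit 10949, nat_lit 0, nat_lit 0, nat_lit 6967, nat_lit 6497, nat_lit 1599, nat_lit 0, nat_lit 0, nat_lit 0, nat_lit 0, nat_lit 0, nat_lit 0, nat_lit 0, nat_lit 0, nat_lit 0, nat_lit 0, nat_lit 0, [],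
 ⟨p057_k5, nat_lit 0, nat_lit 0, nat_lit 351, nat_lit 0, nat_lit 635779, [nat_lit 3282000000, nat_lit 4688000000, nat_lit 9842000000], [], [nat_lit 22556649336, nat_lit 20769411793, nat_lit 28405726923, nat_lit 26786240806, nat_lit 22803850372, nat_lit 23252173423, nat_lit 24319253247, nat_lit 24721981027], nat_lit 1271250, nat_lit 1271250, nat_lit 780000, nat_lit 1762500, nat_lit 1271250, nat_lit 1271250, [nat_lit 780000, nat_lit 1100000, nat_lit 2127500], [nat_lit 42, nat_lit 40, nat_lit 40, nat_lit 80, nat_lit 13, nat_lit 373, nat_lit 150, nat_lit 10]⟩, ⟨p057_k6, nat_lit 0, nat_lit 0, nat_lit 54, nat_lit 0, nat_lit 0, [nat_lit 4688000000, nat_lit 6250000000, nat_lit 11872000000], [], [nat_lit 9334690284, nat_lit 12903687836, nat_lit 14532178128, nat_lit 17297568140, nat_lit 21553861622, nat_lit 23710168272, nat_lit 23969855083, nat_lit 25884908560], nat_lit 0, nat_lit 0, nat_lit 0, nat_lit 0, nat_lit 0, nat_lit 0, [],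 [nat_lit 48, nat_lit 40, nat_lit 40, nat_lit 80, nat_lit 12, nat_lit 456, nat_lit 225, nat_lit 11]⟩,
 zbF0, [⟨nat_lit 16, nat_lit 99, nat_lit 100, nat_lit 83, nat_lit 346434210⟩, ⟨nat_lit 7, nat_lit 89, nat_lit 100, nat_lit 80, nat_lit 669277922⟩]⟩
noncomputable def p057_l29 : Lf2 := ⟨nat_lit 0, nat_lit 10, [nat_lit 0, nat_lit 5, nat_lit 5, nat_lit 20], false, nat_lit 160, nat_lit 292, nat_lit 160, nat_lit 336, ⟨nat_lit 1000, nat_lit 0, nat_lit 0, nat_lit 0, nat_lit 0, nat_lit 0, nat_lit 0, nat_lit 0, nat_lit 0, nat_lit 0, nat_lit 0, nat_lit 0, nat_lit 0, nat_lit 0, nat_lit 0, nat_lit 0, false, false⟩,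
 nat_lit 0, nat_lit 10554, nat_lit 0, nat_lit 0, nat_lit 7008, nat_lit 6826, nat_lit 2729, nat_lit 0, nat_lit 0, nat_lit 0, nat_lit 0, nat_lit 0, nat_lit 0, nat_lit 0, nat_lit 0, nat_lit 0, nat_lit 0, nat_lit 0, [],
 ⟨p057_k1, nat_lit 0, nat_lit 0, nat_lit 337, nat_lit 0, nat_lit 689049, [nat_lit 3282000000, nat_lit 6250000000, nat_lit 7968000000], [], [nat_lit 20735311232, nat_lit 18937556000, nat_lit 19352074614, nat_lit 19795292686, nat_lit 21273212468, nat_lit 21686422592, nat_lit 29214974308, nat_lit 27634249127], nat_lit 1271250, nat_lit 1271250, nat_lit 780000, nat_lit 1762500, nat_lit 1100001, nat_lit 2230250, [nat_lit 780000, nat_lit 1435000, nat_lit 1271250], [nat_lit 18, nat_lit 40, nat_lit 40, nat_lit 80, nat_lit 2, nat_lit 373, nat_lit 150, nat_lit 12]⟩, ⟨p057_k3, nat_lit 0, nat_lit 0, nat_lit 66, nat_lit 0, nat_lit 0, [nat_lit 4688000000, nat_lit 7968000000, nat_lit 11872000000], [], [nat_lit 8774920472,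 nat_lit 12453414488, nat_lit 14061255424, nat_lit 16902972120, nat_lit 21328428453, nat_lit 23920401877, nat_lit 24041723506, nat_lit 26055269234], nat_lit 0, nat_lit 0, nat_lit 0, nat_lit 0, nat_lit 0, nat_lit 0, [], [nat_lit 21, nat_lit 40, nat_lit 40, nat_lit 80, nat_lit 14, nat_lit 456, nat_lit 225, nat_lit 11]⟩,
 zbF0, [⟨nat_lit 16, nat_lit 94, nat_lit 100, nat_lit 81, nat_lit 75291301⟩, ⟨nat_lit 16, nat_lit 100, nat_lit 100, nat_lit 89, nat_lit 208342441⟩, ⟨nat_lit 7, nat_lit 89, nat_lit 100, nat_lit 80, nat_lit 692754531⟩]⟩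
noncomputable def b_V_700_600_10_10 : St := ⟨true, nat_lit 1, nat_lit 0, nat_lit 1, nat_lit 80, nat_lit 280, nat_lit 300, nat_lit 240, nat_lit 280, nat_lit 120, nat_lit 240, nat_lit 40, nat_lit 80, nat_lit 160, nat_lit 300, nat_lit 0, nat_lit 336, nat_lit 0, nat_lit 40, nat_lit 0, nat_lit 0, nat_lit 0, nat_lit 0⟩
theorem d_V_700_600_10_10 (h : EB TB.env) : Dead b_V_700_600_10_10 := chkB_sound0 h (T :=
(.spl (nat_lit 5) (nat_lit 160)
(.spl (nat_lit 1) (nat_lit 260)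
(.leaf p057_l25)
(.leaf p057_l26))
(.spl (nat_lit 3) (nat_lit 60)
(.trX (nat_lit 16) (nat_lit 99) (nat_lit 100) (nat_lit 77) (nat_lit 276) (.trX (nat_lit 19) (nat_lit 100) (nat_lit 85) (nat_lit 73) (nat_lit 312) (.leaf p057_l27)))
(.spl (nat_lit 0) (nat_lit 290)
(.leaf p057_l28)
(.trX (nat_lit 16) (nat_lit 100) (nat_lit 100) (nat_lit 89) (nat_lit 292) (.leaf p057_l29)))))) (by decide +kernel)
noncomputable def p057_l30 : Lf2 := ⟨nat_lit 0, nat_lit 10, [nat_lit 0, nat_lit 5, nat_lit 5, nat_lit 20], false, nat_lit 160, nat_lit 280, nat_lit 0, nat_lit 160, ⟨nat_lit 1000, nat_lit 0, nat_lit 0, nat_lit 0, nat_lit 0, nat_lit 0, nat_lit 0, nat_lit 0, nat_lit 0, nat_lit 0, nat_lit 0, nat_lit 0, nat_lit 0, nat_lit 0, nat_lit 0, nat_lit 0, false, false⟩,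
 nat_lit 0, nat_lit 9837, nat_lit 0, nat_lit 0, nat_lit 6810, nat_lit 8684, nat_lit 1483, nat_lit 0, nat_lit 0, nat_lit 1908, nat_lit 0, nat_lit 0, nat_lit 0, nat_lit 0, nat_lit 0, nat_lit 0, nat_lit 0, nat_lit 0, [],
 ⟨p057_k11, nat_lit 0, nat_lit 0, nat_lit 557, nat_lit 0, nat_lit 1030462, [nat_lit 3282000000, nat_lit 6250000000, nat_lit 7968000000], [], [nat_lit 20352902468, nat_lit 21170839083, nat_lit 19482896435, nat_lit 20227540155, nat_lit 22655695824, nat_lit 24637410321, nat_lit 22700724775, nat_lit 22468300860], nat_lit 1271250, nat_lit 1271250, nat_lit 279600, nat_lit 780000, nat_lit 1100001, nat_lit 2127500, [nat_lit 780000, nat_lit 1435000, nat_lit 1271250], [nat_lit 18, nat_lit 40, nat_lit 40, nat_lit 80, nat_lit 2, nat_lit 317, nat_lit 100, nat_lit 10]⟩, ⟨p057_k3, nat_lit 0, nat_lit 0, nat_lit 329, nat_lit 0, nat_lit 0, [nat_lit 4688000000, nat_lit 7968000000, nat_lit 11872000000], [], [nat_lit 22009943783,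 nat_lit 25540861028, nat_lit 19129280720, nat_lit 23089077248, nat_lit 15924594269, nat_lit 19315900196, nat_lit 14676672480, nat_lit 17559969472], nat_lit 0, nat_lit 0, nat_lit 0, nat_lit 0, nat_lit 0, nat_lit 0, [], [nat_lit 21, nat_lit 40, nat_lit 40, nat_lit 80, nat_lit 14, nat_lit 373, nat_lit 150, nat_lit 10]⟩,
 zbF0, [⟨nat_lit 0, nat_lit 100, nat_lit 88, nat_lit 81, nat_lit 934435623⟩, ⟨nat_lit 16, nat_lit 85, nat_lit 100, nat_lit 73, nat_lit 500724139⟩]⟩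
noncomputable def p057_l31 : Lf2 := ⟨nat_lit 0, nat_lit 5, [nat_lit 4, nat_lit 5, nat_lit 5, nat_lit 20], false, nat_lit 160, nat_lit 280, nat_lit 160, nat_lit 336, ⟨nat_lit 888, nat_lit 0, nat_lit 112, nat_lit 6, nat_lit 127, nat_lit 112, nat_lit 154, nat_lit 112, nat_lit 24746, nat_lit 252, nat_lit 150417, nat_lit 310, nat_lit 51643809, nat_lit 0, nat_lit 0, nat_lit 3709398, false, false⟩,
 nat_lit 0, nat_lit 8185, nat_lit 0, nat_lit 0, nat_lit 5666, nat_lit 5663, nat_lit 1526, nat_lit 0, nat_lit 0, nat_lit 0, nat_lit 0, nat_lit 0, nat_lit 0, nat_lit 0, nat_lit 0, nat_lit 112000, nat_lit 0, nat_lit 0, [(nat_lit 15, [(nat_lit 6, nat_lit 112)])],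
 ⟨p057_k12, nat_lit 0, nat_lit 0, nat_lit 244, nat_lit 0, nat_lit 484169, [nat_lit 3024176000, nat_lit 5263683200], [], [nat_lit 18063375500, nat_lit 19202161497, nat_lit 17569637862, nat_lit 18801969778, nat_lit 22091819155, nat_lit 23448528913, nat_lit 21596092470, nat_lit 22554931622], nat_lit 1271250, nat_lit 1271250, nat_lit 279600, nat_lit 490000, nat_lit 1100001, nat_lit 2127500, [nat_lit 780000, nat_lit 1435000], [nat_lit 49, nat_lit 40, nat_lit 40, nat_lit 80, nat_lit 16, nat_lit 317, nat_lit 100, nat_lit 12]⟩, ⟨p057_k13, nat_lit 0, nat_lit 0, nat_lit 108, nat_lit 0, nat_lit 0, [nat_lit 4162944000, nat_lit 7075584000, nat_lit 8739696000], [], [nat_lit 8755280907, nat_lit 10464717337, nat_lit 8207237956, nat_lit 9862982770, nat_lit 20425617950, nat_lit 21613933499, nat_lit 19538827955, nat_lit 20537545419], nat_lit 0, nat_lit 0, nat_lit 0, nat_lit 0, nat_lit 0, nat_lit 0, [], [nat_lit 29, nat_lit 40, nat_lit 40,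 nat_lit 80, nat_lit 17, nat_lit 401, nat_lit 175, nat_lit 11]⟩,
 ⟨nat_lit 4472, nat_lit 5000, ⟨.ofNat (nat_lit 271418), .ofNat (nat_lit 328559), .ofNat (nat_lit 292837), .ofNat (nat_lit 349976), .ofNat (nat_lit 284805), .ofNat (nat_lit 339186), .ofNat (nat_lit 306362), .ofNat (nat_lit 360741)⟩, ⟨.ofNat (nat_lit 257141), .ofNat (nat_lit 471427), .ofNat (nat_lit 299999), .ofNat (nat_lit 514284), .ofNat (nat_lit 259489), .ofNat (nat_lit 463423), .ofNat (nat_lit 302621), .ofNat (nat_lit 506556)⟩⟩, [⟨nat_lit 0, nat_lit 100, nat_lit 86, nat_lit 77, nat_lit 492309464⟩, ⟨nat_lit 4, nat_lit 100, nat_lit 85, nat_lit 73, nat_lit 109125766⟩, ⟨nat_lit 19, nat_lit 100, nat_lit 88, nat_lit 74, nat_lit 186345025⟩, ⟨nat_lit 23, nat_lit 100, nat_lit 75, nat_lit 74, nat_lit 522648987⟩]⟩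
noncomputable def p057_l32 : Lf2 := ⟨nat_lit 0, nat_lit 5, [nat_lit 4, nat_lit 5, nat_lit 5, nat_lit 20], false, nat_lit 160, nat_lit 280, nat_lit 160, nat_lit 320, ⟨nat_lit 1000, nat_lit 0, nat_lit 0, nat_lit 0, nat_lit 0, nat_lit 0, nat_lit 0, nat_lit 0, nat_lit 0, nat_lit 0, nat_lit 0, nat_lit 0, nat_lit 0, nat_lit 0, nat_lit 0, nat_lit 0, false, false⟩,
 nat_lit 0, nat_lit 9250, nat_lit 0, nat_lit 0, nat_lit 6403, nat_lit 6598, nat_lit 1764, nat_lit 0, nat_lit 0, nat_lit 0, nat_lit 0, nat_lit 0, nat_lit 0, nat_lit 0, nat_lit 0, nat_lit 0, nat_lit 0, nat_lit 0, [],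
 ⟨p057_k12, nat_lit 0, nat_lit 0, nat_lit 256, nat_lit 0, nat_lit 550247, [nat_lit 3282000000, nat_lit 6250000000], [], [nat_lit 17786661519, nat_lit 18952075249, nat_lit 17518893724, nat_lit 18663556492, nat_lit 21652418725, nat_lit 23538869872, nat_lit 21041709210, nat_lit 22863296848], nat_lit 1271250, nat_lit 1271250, nat_lit 382400, nat_lit 490000, nat_lit 1100001, nat_lit 2127500, [nat_lit 780000, nat_lit 1435000], [nat_lit 49, nat_lit 40, nat_lit 40, nat_lit 80, nat_lit 16, nat_lit 317, nat_lit 100, nat_lit 12]⟩, ⟨p057_k14, nat_lit 0, nat_lit 0, nat_lit 58, nat_lit 0, nat_lit 0, [nat_lit 4688000000, nat_lit 7968000000], [], [nat_lit 11156743320, nat_lit 13091826593, nat_lit 10794630564, nat_lit 12698681728, nat_lit 22028916670, nat_lit 23471967448, nat_lit 21510820780, nat_lit 22772471224], nat_lit 0, nat_lit 0, nat_lit 0, nat_lit 0, nat_lit 0, nat_lit 0, [], [nat_lit 39, nat_lit 40, nat_lit 40, nat_lit 80, nat_lit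 7, nat_lit 317, nat_lit 100, nat_lit 10]⟩,
 zbF0, [⟨nat_lit 0, nat_lit 100, nat_lit 89, nat_lit 86, nat_lit 329759477⟩, ⟨nat_lit 0, nat_lit 100, nat_lit 91, nat_lit 77, nat_lit 397810143⟩, ⟨nat_lit 16, nat_lit 94, nat_lit 100, nat_lit 87, nat_lit 97939874⟩, ⟨nat_lit 19, nat_lit 100, nat_lit 85, nat_lit 84, nat_lit 330897912⟩, ⟨nat_lit 11, nat_lit 100, nat_lit 100, nat_lit 85, nat_lit 331108086⟩]⟩
noncomputable def p057_l33 : Lf2 := ⟨nat_lit 0, nat_lit 10, [nat_lit 0, nat_lit 5, nat_lit 5, nat_lit 20], true, nat_lit 160, nat_lit 280, nat_lit 160, nat_lit 336, ⟨nat_lit 0, nat_lit 0, nat_lit 1000, nat_lit 6, nat_lit 127, nat_lit 1000, nat_lit 154, nat_lit 1000, nat_lit 24746, nat_lit 252, nat_lit 150417, nat_lit 310, nat_lit 51643809, nat_lit 0, nat_lit 0, nat_lit 3709398, false, false⟩,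
 nat_lit 0, nat_lit 5349, nat_lit 0, nat_lit 0, nat_lit 3703, nat_lit 0, nat_lit 0, nat_lit 0, nat_lit 0, nat_lit 0, nat_lit 0, nat_lit 0, nat_lit 0, nat_lit 0, nat_lit 94, nat_lit 400000, nat_lit 0, nat_lit 0, [(nat_lit 15, [(nat_lit 5, nat_lit 1000)])],
 ⟨p057_k11, nat_lit 0, nat_lit 0, nat_lit 243, nat_lit 0, nat_lit 330949, [nat_lit 2443200000, nat_lit 916400001, nat_lit 120399999], [], [nat_lit 15567430798, nat_lit 16230720273, nat_lit 14891507170, nat_lit 16172964948, nat_lit 19991870902, nat_lit 21408516497, nat_lit 19487936893, nat_lit 20868493648], nat_lit 1271250, nat_lit 1271250, nat_lit 279600, nat_lit 490000, nat_lit 1100001, nat_lit 2127500, [nat_lit 780000, nat_lit 1435000, nat_lit 1271250], [nat_lit 18, nat_lit 40, nat_lit 40, nat_lit 80, nat_lit 2, nat_lit 317, nat_lit 100, nat_lit 10]⟩, C1.Rw.none,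
 ⟨nat_lit 4472, nat_lit 5000, ⟨.ofNat (nat_lit 271418), .ofNat (nat_lit 328559), .ofNat (nat_lit 292837), .ofNat (nat_lit 349976), .ofNat (nat_lit 284805), .ofNat (nat_lit 339186), .ofNat (nat_lit 306362), .ofNat (nat_lit 360741)⟩, ⟨.ofNat (nat_lit 257141), .ofNat (nat_lit 471427), .ofNat (nat_lit 299999), .ofNat (nat_lit 514284), .ofNat (nat_lit 259489), .ofNat (nat_lit 463423), .ofNat (nat_lit 302621), .ofNat (nat_lit 506556)⟩⟩, [⟨nat_lit 0, nat_lit 100, nat_lit 86, nat_lit 77, nat_lit 208102912⟩, ⟨nat_lit 4, nat_lit 100, nat_lit 85, nat_lit 73, nat_lit 287984860⟩]⟩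
noncomputable def p057_l34 : Lf2 := ⟨nat_lit 0, nat_lit 10, [nat_lit 0, nat_lit 5, nat_lit 5, nat_lit 20], false, nat_lit 160, nat_lit 280, nat_lit 160, nat_lit 320, ⟨nat_lit 1000, nat_lit 0, nat_lit 0, nat_lit 0, nat_lit 0, nat_lit 0, nat_lit 0, nat_lit 0, nat_lit 0, nat_lit 0, nat_lit 0, nat_lit 0, nat_lit 0, nat_lit 0, nat_lit 0, nat_lit 0, false, false⟩,
 nat_lit 0, nat_lit 11093, nat_lit 0, nat_lit 0, nat_lit 7679, nat_lit 6696, nat_lit 925, nat_lit 0, nat_lit 0, nat_lit 0, nat_lit 0, nat_lit 0, nat_lit 0, nat_lit 0, nat_lit 0, nat_lit 0, nat_lit 0, nat_lit 0, [],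
 ⟨p057_k11, nat_lit 0, nat_lit 0, nat_lit 259, nat_lit 0, nat_lit 401247, [nat_lit 3282000000, nat_lit 6250000000, nat_lit 7968000000], [], [nat_lit 18173409857, nat_lit 19694085152, nat_lit 17664136410, nat_lit 19158417566, nat_lit 22561551464, nat_lit 24673264497, nat_lit 21888186186, nat_lit 23806026064], nat_lit 1271250, nat_lit 1271250, nat_lit 382400, nat_lit 490000, nat_lit 1100001, nat_lit 2127500, [nat_lit 780000, nat_lit 1435000, nat_lit 1271250], [nat_lit 18, nat_lit 40, nat_lit 40, nat_lit 80, nat_lit 2, nat_lit 317, nat_lit 100, nat_lit 10]⟩, ⟨p057_k2, nat_lit 0, nat_lit 0, nat_lit 89, nat_lit 0, nat_lit 0, [nat_lit 4688000000, nat_lit 7968000000, nat_lit 9842000000], [], [nat_lit 11028428039, nat_lit 12981390785, nat_lit 10655972128, nat_lit 12577547456, nat_lit 22100620071, nat_lit 23555882496, nat_lit 21455804560, nat_lit 22841736448], nat_lit 0, nat_lit 0, nat_lit 0, nat_lit 0, nat_lit 0, nat_lit 0, [],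 [nat_lit 29, nat_lit 40, nat_lit 40, nat_lit 80, nat_lit 17, nat_lit 401, nat_lit 175, nat_lit 11]⟩,
 zbF0, [⟨nat_lit 0, nat_lit 100, nat_lit 89, nat_lit 86, nat_lit 860624379⟩, ⟨nat_lit 16, nat_lit 94, nat_lit 100, nat_lit 87, nat_lit 187035099⟩, ⟨nat_lit 19, nat_lit 100, nat_lit 85, nat_lit 84, nat_lit 386053163⟩, ⟨nat_lit 11, nat_lit 100, nat_lit 100, nat_lit 85, nat_lit 279688494⟩]⟩
noncomputable def p057_l35 : Lf2 := ⟨nat_lit 0, nat_lit 10, [nat_lit 0, nat_lit 5, nat_lit 5, nat_lit 20], false, nat_lit 160, nat_lit 280, nat_lit 160, nat_lit 336, ⟨nat_lit 1000, nat_lit 0, nat_lit 0, nat_lit 0, nat_lit 0, nat_lit 0, nat_lit 0, nat_lit 0, nat_lit 0, nat_lit 0, nat_lit 0, nat_lit 0, nat_lit 0, nat_lit 0, nat_lit 0, nat_lit 0, false, false⟩,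
 nat_lit 0, nat_lit 9422, nat_lit 0, nat_lit 0, nat_lit 6522, nat_lit 6658, nat_lit 1436, nat_lit 0, nat_lit 0, nat_lit 0, nat_lit 0, nat_lit 0, nat_lit 0, nat_lit 0, nat_lit 0, nat_lit 0, nat_lit 0, nat_lit 0, [],
 ⟨p057_k11, nat_lit 0, nat_lit 0, nat_lit 317, nat_lit 0, nat_lit 582261, [nat_lit 3282000000, nat_lit 6250000000, nat_lit 7968000000], [], [nat_lit 18372086176, nat_lit 19527870208, nat_lit 18311095936, nat_lit 19435888820, nat_lit 21908772540, nat_lit 22953940888, nat_lit 21922096614, nat_lit 22722768788], nat_lit 1271250, nat_lit 1271250, nat_lit 490000, nat_lit 631250, nat_lit 1100001, nat_lit 2127500, [nat_lit 780000, nat_lit 1435000, nat_lit 1271250], [nat_lit 18, nat_lit 40, nat_lit 40, nat_lit 80, nat_lit 2, nat_lit 317, nat_lit 100, nat_lit 10]⟩, ⟨p057_k3, nat_lit 0, nat_lit 0, nat_lit 88, nat_lit 0, nat_lit 0, [nat_lit 4688000000, nat_lit 7968000000, nat_lit 11872000000], [], [nat_lit 8794957400, nat_lit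 12624517888, nat_lit 8927858888, nat_lit 12653929596, nat_lit 21863615945, nat_lit 24544938721, nat_lit 21653579604, nat_lit 24178740888], nat_lit 0, nat_lit 0, nat_lit 0, nat_lit 0, nat_lit 0, nat_lit 0, [], [nat_lit 21, nat_lit 40, nat_lit 40, nat_lit 80, nat_lit 14, nat_lit 428, nat_lit 200, nat_lit 11]⟩,
 zbF0, [⟨nat_lit 16, nat_lit 94, nat_lit 100, nat_lit 87, nat_lit 230224533⟩, ⟨nat_lit 19, nat_lit 100, nat_lit 76, nat_lit 82, nat_lit 485109621⟩, ⟨nat_lit 11, nat_lit 100, nat_lit 100, nat_lit 95, nat_lit 178224626⟩]⟩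
noncomputable def p057_l36 : Lf2 := ⟨nat_lit 0, nat_lit 10, [nat_lit 0, nat_lit 5, nat_lit 5, nat_lit 20], false, nat_lit 160, nat_lit 280, nat_lit 160, nat_lit 336, ⟨nat_lit 1000, nat_lit 0, nat_lit 0, nat_lit 0, nat_lit 0, nat_lit 0, nat_lit 0, nat_lit 0, nat_lit 0, nat_lit 0, nat_lit 0, nat_lit 0, nat_lit 0, nat_lit 0, nat_lit 0, nat_lit 0, false, false⟩,
 nat_lit 0, nat_lit 9415, nat_lit 0, nat_lit 0, nat_lit 6518, nat_lit 6417, nat_lit 2194, nat_lit 0, nat_lit 0, nat_lit 0, nat_lit 0, nat_lit 0, nat_lit 0, nat_lit 0, nat_lit 0, nat_lit 0, nat_lit 0, nat_lit 0, [],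
 ⟨p057_k11, nat_lit 0, nat_lit 0, nat_lit 489, nat_lit 0, nat_lit 936668, [nat_lit 3282000000, nat_lit 6250000000, nat_lit 7968000000], [], [nat_lit 17691449780, nat_lit 18188324469, nat_lit 17659037266, nat_lit 18195216556, nat_lit 21274029677, nat_lit 21716978984, nat_lit 21950724520, nat_lit 21612232167], nat_lit 1271250, nat_lit 1271250, nat_lit 631250, nat_lit 780000, nat_lit 1100001, nat_lit 2127500, [nat_lit 780000, nat_lit 1435000, nat_lit 1271250], [nat_lit 18, nat_lit 40, nat_lit 40, nat_lit 80, nat_lit 2, nat_lit 317, nat_lit 100, nat_lit 10]⟩, ⟨p057_k3, nat_lit 0, nat_lit 0, nat_lit 77, nat_lit 0, nat_lit 0, [nat_lit 4688000000, nat_lit 7968000000, nat_lit 11872000000], [], [nat_lit 9324921812, nat_lit 12967793054, nat_lit 9470804524, nat_lit 13013176796, nat_lit 21796051477, nat_lit 23996057232, nat_lit 21608678198, nat_lit 23752703504], nat_lit 0, nat_lit 0, nat_lit 0, nat_lit 0, nat_lit 0, nat_lit 0, [],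 [nat_lit 21, nat_lit 40, nat_lit 40, nat_lit 80, nat_lit 14, nat_lit 428, nat_lit 200, nat_lit 11]⟩,
 zbF0, [⟨nat_lit 16, nat_lit 94, nat_lit 100, nat_lit 87, nat_lit 442415783⟩, ⟨nat_lit 7, nat_lit 92, nat_lit 100, nat_lit 75, nat_lit 722280665⟩]⟩
noncomputable def p057_l37 : Lf2 := ⟨nat_lit 0, nat_lit 10, [nat_lit 0, nat_lit 5, nat_lit 5, nat_lit 20], false, nat_lit 160, nat_lit 268, nat_lit 160, nat_lit 336, ⟨nat_lit 1000, nat_lit 0, nat_lit 0, nat_lit 0, nat_lit 0, nat_lit 0, nat_lit 0, nat_lit 0, nat_lit 0, nat_lit 0, nat_lit 0, nat_lit 0, nat_lit 0, nat_lit 0, nat_lit 0, nat_lit 0, false, false⟩,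
 nat_lit 0, nat_lit 9036, nat_lit 0, nat_lit 0, nat_lit 6514, nat_lit 6417, nat_lit 1444, nat_lit 0, nat_lit 0, nat_lit 0, nat_lit 0, nat_lit 0, nat_lit 0, nat_lit 0, nat_lit 0, nat_lit 0, nat_lit 0, nat_lit 0, [],
 ⟨p057_k15, nat_lit 0, nat_lit 0, nat_lit 506, nat_lit 0, nat_lit 974329, [nat_lit 3282000000, nat_lit 6250000000, nat_lit 7968000000], [], [nat_lit 18280129337, nat_lit 18776853484, nat_lit 18234192746, nat_lit 18768093496, nat_lit 21276769903, nat_lit 21732920616, nat_lit 21185270339, nat_lit 21628851914], nat_lit 1271250, nat_lit 1271250, nat_lit 631250, nat_lit 780000, nat_lit 1100001, nat_lit 2024750, [nat_lit 780000, nat_lit 1435000, nat_lit 1271250], [nat_lit 18, nat_lit 40, nat_lit 40, nat_lit 80, nat_lit 2, nat_lit 317, nat_lit 100, nat_lit 10]⟩, ⟨p057_k3, nat_lit 0, nat_lit 0, nat_lit 77, nat_lit 0, nat_lit 0, [nat_lit 4688000000, nat_lit 7968000000, nat_lit 11872000000], [], [nat_lit 9324921812, nat_lit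 12967793054, nat_lit 9470804524, nat_lit 13013176796, nat_lit 21796051477, nat_lit 23996057232, nat_lit 21608678198, nat_lit 23752703504], nat_lit 0, nat_lit 0, nat_lit 0, nat_lit 0, nat_lit 0, nat_lit 0, [], [nat_lit 21, nat_lit 40, nat_lit 40, nat_lit 80, nat_lit 14, nat_lit 428, nat_lit 200, nat_lit 11]⟩,
 zbF0, [⟨nat_lit 0, nat_lit 100, nat_lit 87, nat_lit 95, nat_lit 42545812⟩, ⟨nat_lit 16, nat_lit 89, nat_lit 100, nat_lit 85, nat_lit 460954605⟩, ⟨nat_lit 7, nat_lit 92, nat_lit 100, nat_lit 75, nat_lit 722280665⟩]⟩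
noncomputable def p057_l38 : Lf2 := ⟨nat_lit 0, nat_lit 10, [nat_lit 0, nat_lit 5, nat_lit 5, nat_lit 20], false, nat_lit 160, nat_lit 280, nat_lit 0, nat_lit 160, ⟨nat_lit 1000, nat_lit 0, nat_lit 0, nat_lit 0, nat_lit 0, nat_lit 0, nat_lit 0, nat_lit 0, nat_lit 0, nat_lit 0, nat_lit 0, nat_lit 0, nat_lit 0, nat_lit 0, nat_lit 0, nat_lit 0, false, false⟩,
 nat_lit 0, nat_lit 10170, nat_lit 0, nat_lit 0, nat_lit 7040, nat_lit 8243, nat_lit 1791, nat_lit 0, nat_lit 0, nat_lit 1750, nat_lit 0, nat_lit 0, nat_lit 0, nat_lit 0, nat_lit 0, nat_lit 0, nat_lit 0, nat_lit 0, [],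
 ⟨p057_k11, nat_lit 0, nat_lit 0, nat_lit 520, nat_lit 0, nat_lit 1030462, [nat_lit 3282000000, nat_lit 6250000000, nat_lit 7968000000], [], [nat_lit 18902732000, nat_lit 17356608895, nat_lit 17895078320, nat_lit 19863715200, nat_lit 20711452560, nat_lit 22586108240, nat_lit 26193740960, nat_lit 25002480480], nat_lit 1271250, nat_lit 1271250, nat_lit 780000, nat_lit 1762500, nat_lit 1100001, nat_lit 2127500, [nat_lit 780000, nat_lit 1435000, nat_lit 1271250], [nat_lit 18, nat_lit 40, nat_lit 40, nat_lit 80, nat_lit 2, nat_lit 373, nat_lit 150, nat_lit 12]⟩, ⟨p057_k3, nat_lit 0, nat_lit 0, nat_lit 212, nat_lit 0, nat_lit 0, [nat_lit 4688000000, nat_lit 7968000000, nat_lit 11872000000], [], [nat_lit 20065055440, nat_lit 23143288496, nat_lit 24115490580, nat_lit 27250682064, nat_lit 15659784960, nat_lit 18456518944, nat_lit 19132621084, nat_lit 21488766136], nat_lit 0, nat_lit 0, nat_lit 0, nat_lit 0, nat_lit 0, nat_lit 0,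 [], [nat_lit 21, nat_lit 40, nat_lit 40, nat_lit 80, nat_lit 14, nat_lit 401, nat_lit 175, nat_lit 10]⟩,
 zbF0, [⟨nat_lit 4, nat_lit 100, nat_lit 85, nat_lit 73, nat_lit 697548674⟩]⟩
noncomputable def p057_l39 : Lf2 := ⟨nat_lit 0, nat_lit 10, [nat_lit 0, nat_lit 5, nat_lit 5, nat_lit 20], false, nat_lit 160, nat_lit 280, nat_lit 160, nat_lit 336, ⟨nat_lit 1000, nat_lit 0, nat_lit 0, nat_lit 0, nat_lit 0, nat_lit 0, nat_lit 0, nat_lit 0, nat_lit 0, nat_lit 0, nat_lit 0, nat_lit 0, nat_lit 0, nat_lit 0, nat_lit 0, nat_lit 0, false, false⟩,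
 nat_lit 0, nat_lit 9334, nat_lit 0, nat_lit 0, nat_lit 6461, nat_lit 6497, nat_lit 2331, nat_lit 0, nat_lit 0, nat_lit 0, nat_lit 0, nat_lit 0, nat_lit 0, nat_lit 0, nat_lit 0, nat_lit 0, nat_lit 0, nat_lit 0, [],
 ⟨p057_k11, nat_lit 0, nat_lit 0, nat_lit 520, nat_lit 0, nat_lit 1030462, [nat_lit 3282000000, nat_lit 6250000000, nat_lit 7968000000], [], [nat_lit 19532828750, nat_lit 19006383404, nat_lit 20197746184, nat_lit 21082835860, nat_lit 21435438727, nat_lit 22293605966, nat_lit 27159064814, nat_lit 24757006482], nat_lit 1271250, nat_lit 1271250, nat_lit 780000, nat_lit 1762500, nat_lit 1100001, nat_lit 2127500, [nat_lit 780000, nat_lit 1435000, nat_lit 1271250], [nat_lit 18, nat_lit 40, nat_lit 40, nat_lit 80, nat_lit 2, nat_lit 373, nat_lit 150, nat_lit 12]⟩, ⟨p057_k3, nat_lit 0, nat_lit 0, nat_lit 66, nat_lit 0, nat_lit 0, [nat_lit 4688000000, nat_lit 7968000000, nat_lit 11872000000], [], [nat_lit 9334690284,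 nat_lit 12903687836, nat_lit 14532178128, nat_lit 17297568140, nat_lit 21553861622, nat_lit 23710168272, nat_lit 23969855083, nat_lit 25884908560], nat_lit 0, nat_lit 0, nat_lit 0, nat_lit 0, nat_lit 0, nat_lit 0, [], [nat_lit 21, nat_lit 40, nat_lit 40, nat_lit 80, nat_lit 14, nat_lit 456, nat_lit 225, nat_lit 11]⟩,
 zbF0, [⟨nat_lit 16, nat_lit 94, nat_lit 100, nat_lit 87, nat_lit 430081965⟩, ⟨nat_lit 7, nat_lit 92, nat_lit 100, nat_lit 75, nat_lit 713896451⟩]⟩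
noncomputable def b_V_700_600_10_11 : St := ⟨true, nat_lit 1, nat_lit 0, nat_lit 1, nat_lit 80, nat_lit 300, nat_lit 320, nat_lit 240, nat_lit 280, nat_lit 36, nat_lit 240, nat_lit 40, nat_lit 80, nat_lit 160, nat_lit 300, nat_lit 0, nat_lit 336, nat_lit 0, nat_lit 40, nat_lit 0, nat_lit 0, nat_lit 0, nat_lit 0⟩
theorem d_V_700_600_10_11 (h : EB TB.env) : Dead b_V_700_600_10_11 := chkB_sound0 h (T :=
(.trZ (nat_lit 0) (nat_lit 100) (nat_lit 88) (nat_lit 68) (nat_lit 48) (.trX (nat_lit 16) (nat_lit 94) (nat_lit 100) (nat_lit 87) (nat_lit 280) (.spl (nat_lit 2) (nat_lit 120)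
(.spl (nat_lit 5) (nat_lit 160)
(.leaf p057_l30)
(.spl (nat_lit 2) (nat_lit 80)
(.spl (nat_lit 6) (nat_lit 20)
(.spl (nat_lit 1) (nat_lit 260)
(.leaf p057_l31)
(.trZ (nat_lit 0) (nat_lit 100) (nat_lit 91) (nat_lit 77) (nat_lit 64) (.trX (nat_lit 19) (nat_lit 100) (nat_lit 85) (nat_lit 84) (nat_lit 320) (.leaf p057_l32))))
(.spl (nat_lit 1) (nat_lit 260)
(.leaf p057_l33)
(.trZ (nat_lit 0) (nat_lit 100) (nat_lit 91) (nat_lit 77) (nat_lit 64) (.trX (nat_lit 19) (nat_lit 100) (nat_lit 85) (nat_lit 84) (nat_lit 320) (.leaf p057_l34)))))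
(.spl (nat_lit 2) (nat_lit 100)
(.leaf p057_l35)
(.spl (nat_lit 0) (nat_lit 310)
(.leaf p057_l36)
(.trX (nat_lit 16) (nat_lit 89) (nat_lit 100) (nat_lit 85) (nat_lit 268) (.leaf p057_l37))))))
(.spl (nat_lit 5) (nat_lit 160)
(.leaf p057_l38)
(.leaf p057_l39)))))) (by decide +kernel)
noncomputable def p057_l40 : Lf2 := ⟨nat_lit 0, nat_lit 10, [nat_lit 0, nat_lit 5, nat_lit 5, nat_lit 20], false, nat_lit 0, nat_lit 300, nat_lit 0, nat_lit 160, ⟨nat_lit 1000, nat_lit 0, nat_lit 0, nat_lit 0, nat_lit 0, nat_lit 0, nat_lit 0, nat_lit 0, nat_lit 0, nat_lit 0, nat_lit 0, nat_lit 0, nat_lit 0, nat_lit 0, nat_lit 0, nat_lit 0, false, false⟩,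
 nat_lit 0, nat_lit 11282, nat_lit 0, nat_lit 0, nat_lit 7179, nat_lit 7766, nat_lit 850, nat_lit 0, nat_lit 0, nat_lit 1308, nat_lit 0, nat_lit 0, nat_lit 0, nat_lit 0, nat_lit 0, nat_lit 0, nat_lit 0, nat_lit 0, [],
 ⟨p057_k0, nat_lit 0, nat_lit 0, nat_lit 577, nat_lit 0, nat_lit 854423, [nat_lit 3282000000, nat_lit 6250000000, nat_lit 9842000000], [], [nat_lit 32925670054, nat_lit 33265480352, nat_lit 39199370876, nat_lit 39443581422, nat_lit 31508664420, nat_lit 31748553669, nat_lit 35260098657, nat_lit 35390198425], nat_lit 1271250, nat_lit 1271250, nat_lit 1271250, nat_lit 1271250, nat_lit 0, nat_lit 2118750, [nat_lit 780000, nat_lit 1435000, nat_lit 1271250], [nat_lit 8, nat_lit 40, nat_lit 40, nat_lit 80, nat_lit 1, nat_lit 401, nat_lit 175, nat_lit 11]⟩, ⟨p057_k3, nat_lit 0, nat_lit 0, nat_lit 251, nat_lit 0, nat_lit 0, [nat_lit 4688000000, nat_lit 7968000000, nat_lit 11872000000], [], [nat_lit 25956027176, nat_lit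 28241747248, nat_lit 38819471144, nat_lit 40340881096, nat_lit 20166762808, nat_lit 22241356304, nat_lit 31699228952, nat_lit 33003185856], nat_lit 0, nat_lit 0, nat_lit 0, nat_lit 0, nat_lit 0, nat_lit 0, [], [nat_lit 21, nat_lit 40, nat_lit 40, nat_lit 80, nat_lit 14, nat_lit 456, nat_lit 225, nat_lit 11]⟩,
 zbF0, [⟨nat_lit 4, nat_lit 100, nat_lit 97, nat_lit 76, nat_lit 107019948⟩, ⟨nat_lit 21, nat_lit 83, nat_lit 100, nat_lit 83, nat_lit 49599695⟩]⟩
noncomputable def p057_l41 : Lf2 := ⟨nat_lit 0, nat_lit 10, [nat_lit 0, nat_lit 5, nat_lit 5, nat_lit 20], false, nat_lit 0, nat_lit 292, nat_lit 0, nat_lit 160, ⟨nat_lit 1000, nat_lit 0, nat_lit 0, nat_lit 0, nat_lit 0, nat_lit 0, nat_lit 0, nat_lit 0, nat_lit 0, nat_lit 0, nat_lit 0, nat_lit 0, nat_lit 0, nat_lit 0, nat_lit 0, nat_lit 0, false, false⟩,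
 nat_lit 0, nat_lit 8838, nat_lit 0, nat_lit 0, nat_lit 5869, nat_lit 6800, nat_lit 3065, nat_lit 0, nat_lit 0, nat_lit 0, nat_lit 0, nat_lit 0, nat_lit 0, nat_lit 0, nat_lit 0, nat_lit 0, nat_lit 0, nat_lit 0, [],
 ⟨p057_k16, nat_lit 0, nat_lit 0, nat_lit 523, nat_lit 0, nat_lit 896702, [nat_lit 3282000000, nat_lit 7968000000], [], [nat_lit 29535359820, nat_lit 29802440807, nat_lit 35955362969, nat_lit 36534894634, nat_lit 28296670342, nat_lit 28459499486, nat_lit 32689093323, nat_lit 33068142218], nat_lit 1271250, nat_lit 1271250, nat_lit 1271250, nat_lit 1271250, nat_lit 0, nat_lit 2062250, [nat_lit 780000, nat_lit 1762500], [nat_lit 74, nat_lit 40, nat_lit 40, nat_lit 80, nat_lit 43, nat_lit 289, nat_lit 75, nat_lit 9]⟩, ⟨p057_k17, nat_lit 0, nat_lit 0, nat_lit 229, nat_lit 0, nat_lit 0, [nat_lit 4688000000, nat_lit 11872000000], [], [nat_lit 34425564800, nat_lit 36572478400, nat_lit 45130324800, nat_lit 46218100000,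 nat_lit 30370476800, nat_lit 31885937600, nat_lit 38767413600, nat_lit 39711103200], nat_lit 0, nat_lit 0, nat_lit 0, nat_lit 0, nat_lit 0, nat_lit 0, [], [nat_lit 116, nat_lit 40, nat_lit 40, nat_lit 80, nat_lit 65, nat_lit 456, nat_lit 225, nat_lit 11]⟩,
 zbF0, [⟨nat_lit 16, nat_lit 92, nat_lit 100, nat_lit 75, nat_lit 172894677⟩]⟩
noncomputable def p057_l42 : Lf2 := ⟨nat_lit 0, nat_lit 10, [nat_lit 0, nat_lit 5, nat_lit 5, nat_lit 20], false, nat_lit 0, nat_lit 280, nat_lit 0, nat_lit 160, ⟨nat_lit 1000, nat_lit 0, nat_lit 0, nat_lit 0, nat_lit 0, nat_lit 0, nat_lit 0, nat_lit 0, nat_lit 0, nat_lit 0, nat_lit 0, nat_lit 0, nat_lit 0, nat_lit 0, nat_lit 0, nat_lit 0, false, false⟩,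
 nat_lit 0, nat_lit 7745, nat_lit 0, nat_lit 0, nat_lit 5361, nat_lit 7604, nat_lit 1879, nat_lit 0, nat_lit 0, nat_lit 732, nat_lit 0, nat_lit 0, nat_lit 0, nat_lit 0, nat_lit 0, nat_lit 0, nat_lit 0, nat_lit 0, [],
 ⟨p057_k18, nat_lit 0, nat_lit 0, nat_lit 583, nat_lit 0, nat_lit 1030462, [nat_lit 3282000000, nat_lit 7968000000], [], [nat_lit 31074849425, nat_lit 31697639805, nat_lit 35774401386, nat_lit 36280003236, nat_lit 31157230979, nat_lit 31611747132, nat_lit 34853181198, nat_lit 35181681872], nat_lit 1271250, nat_lit 1271250, nat_lit 1271250, nat_lit 1271250, nat_lit 0, nat_lit 1977500, [nat_lit 780000, nat_lit 1762500], [nat_lit 74, nat_lit 40, nat_lit 40, nat_lit 80, nat_lit 43, nat_lit 289, nat_lit 75, nat_lit 9]⟩, ⟨p057_k19, nat_lit 0, nat_lit 0, nat_lit 264, nat_lit 0, nat_lit 0, [nat_lit 4688000000, nat_lit 9842000000, nat_lit 11872000000], [], [nat_lit 29709075644, nat_lit 31971517612, nat_lit 42052920624,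 nat_lit 43366205632, nat_lit 24445650976, nat_lit 26264867664, nat_lit 34921960064, nat_lit 36049380736], nat_lit 0, nat_lit 0, nat_lit 0, nat_lit 0, nat_lit 0, nat_lit 0, [], [nat_lit 125, nat_lit 40, nat_lit 40, nat_lit 80, nat_lit 41, nat_lit 456, nat_lit 225, nat_lit 11]⟩,
 zbF0, [⟨nat_lit 4, nat_lit 100, nat_lit 85, nat_lit 73, nat_lit 209057578⟩, ⟨nat_lit 21, nat_lit 83, nat_lit 100, nat_lit 83, nat_lit 38321433⟩]⟩
noncomputable def p057_l43 : Lf2 := ⟨nat_lit 0, nat_lit 10, [nat_lit 0, nat_lit 5, nat_lit 5, nat_lit 20], false, nat_lit 0, nat_lit 276, nat_lit 160, nat_lit 312, ⟨nat_lit 1000, nat_lit 0, nat_lit 0, nat_lit 0, nat_lit 0, nat_lit 0, nat_lit 0, nat_lit 0, nat_lit 0, nat_lit 0, nat_lit 0, nat_lit 0, nat_lit 0, nat_lit 0, nat_lit 0, nat_lit 0, false, false⟩,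
 nat_lit 0, nat_lit 11282, nat_lit 0, nat_lit 0, nat_lit 7179, nat_lit 5779, nat_lit 711, nat_lit 0, nat_lit 0, nat_lit 0, nat_lit 0, nat_lit 0, nat_lit 0, nat_lit 0, nat_lit 0, nat_lit 0, nat_lit 0, nat_lit 0, [],
 ⟨p057_k0, nat_lit 0, nat_lit 0, nat_lit 567, nat_lit 0, nat_lit 827341, [nat_lit 3282000000, nat_lit 6250000000, nat_lit 9842000000], [], [nat_lit 33814835679, nat_lit 34154645977, nat_lit 39199370876, nat_lit 39443581422, nat_lit 31009097247, nat_lit 31219429813, nat_lit 34982304275, nat_lit 35125082921], nat_lit 1271250, nat_lit 1271250, nat_lit 1271250, nat_lit 1271250, nat_lit 0, nat_lit 1949250, [nat_lit 780000, nat_lit 1435000, nat_lit 1271250], [nat_lit 8, nat_lit 40, nat_lit 40, nat_lit 80, nat_lit 1, nat_lit 401, nat_lit 175, nat_lit 11]⟩, ⟨p057_k3, nat_lit 0, nat_lit 0, nat_lit 97, nat_lit 0, nat_lit 0, [nat_lit 4688000000, nat_lit 7968000000, nat_lit 11872000000], [], [nat_lit 15559906096, nat_lit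 18158722980, nat_lit 27666739900, nat_lit 29124520076, nat_lit 22915440944, nat_lit 24668989677, nat_lit 31809861614, nat_lit 32915077633], nat_lit 0, nat_lit 0, nat_lit 0, nat_lit 0, nat_lit 0, nat_lit 0, [], [nat_lit 21, nat_lit 40, nat_lit 40, nat_lit 80, nat_lit 14, nat_lit 483, nat_lit 250, nat_lit 12]⟩,
 zbF0, [⟨nat_lit 16, nat_lit 94, nat_lit 100, nat_lit 69, nat_lit 148838679⟩, ⟨nat_lit 19, nat_lit 100, nat_lit 96, nat_lit 69, nat_lit 611410851⟩]⟩
noncomputable def p057_l44 : Lf2 := ⟨nat_lit 0, nat_lit 10, [nat_lit 0, nat_lit 5, nat_lit 5, nat_lit 20], false, nat_lit 0, nat_lit 300, nat_lit 160, nat_lit 336, ⟨nat_lit 1000, nat_lit 0, nat_lit 0, nat_lit 0, nat_lit 0, nat_lit 0, nat_lit 0, nat_lit 0, nat_lit 0, nat_lit 0, nat_lit 0, nat_lit 0, nat_lit 0, nat_lit 0, nat_lit 0, nat_lit 0, false, false⟩,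
 nat_lit 0, nat_lit 11584, nat_lit 0, nat_lit 0, nat_lit 7371, nat_lit 6296, nat_lit 690, nat_lit 0, nat_lit 0, nat_lit 0, nat_lit 0, nat_lit 0, nat_lit 0, nat_lit 0, nat_lit 0, nat_lit 0, nat_lit 0, nat_lit 0, [],
 ⟨p057_k0, nat_lit 0, nat_lit 0, nat_lit 476, nat_lit 0, nat_lit 635779, [nat_lit 3282000000, nat_lit 6250000000, nat_lit 9842000000], [], [nat_lit 33367002246, nat_lit 33709858048, nat_lit 39305988536, nat_lit 39953538271, nat_lit 30794126903, nat_lit 30986476293, nat_lit 34510968993, nat_lit 34639692601], nat_lit 1271250, nat_lit 1271250, nat_lit 1271250, nat_lit 1271250, nat_lit 0, nat_lit 2118750, [nat_lit 780000, nat_lit 1435000, nat_lit 1271250], [nat_lit 8, nat_lit 40, nat_lit 40, nat_lit 80, nat_lit 1, nat_lit 401, nat_lit 175, nat_lit 11]⟩, ⟨p057_k3, nat_lit 0, nat_lit 0, nat_lit 97, nat_lit 0, nat_lit 0, [nat_lit 4688000000, nat_lit 7968000000, nat_lit 11872000000], [], [nat_lit 14819884704, nat_lit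 17538643520, nat_lit 27978601120, nat_lit 29697603648, nat_lit 24122526804, nat_lit 25781442560, nat_lit 33587214215, nat_lit 34589694260], nat_lit 0, nat_lit 0, nat_lit 0, nat_lit 0, nat_lit 0, nat_lit 0, [], [nat_lit 21, nat_lit 40, nat_lit 40, nat_lit 80, nat_lit 14, nat_lit 538, nat_lit 300, nat_lit 13]⟩,
 zbF0, [⟨nat_lit 16, nat_lit 99, nat_lit 100, nat_lit 83, nat_lit 111911133⟩, ⟨nat_lit 7, nat_lit 89, nat_lit 100, nat_lit 80, nat_lit 528728267⟩]⟩
noncomputable def p057_l45 : Lf2 := ⟨nat_lit 0, nat_lit 10, [nat_lit 0, nat_lit 5, nat_lit 5, nat_lit 20], false, nat_lit 0, nat_lit 292, nat_lit 160, nat_lit 336, ⟨nat_lit 1000, nat_lit 0, nat_lit 0, nat_lit 0, nat_lit 0, nat_lit 0, nat_lit 0, nat_lit 0, nat_lit 0, nat_lit 0, nat_lit 0, nat_lit 0, nat_lit 0, nat_lit 0, nat_lit 0, nat_lit 0, false, false⟩,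
 nat_lit 0, nat_lit 9255, nat_lit 0, nat_lit 0, nat_lit 6146, nat_lit 5779, nat_lit 3078, nat_lit 0, nat_lit 0, nat_lit 0, nat_lit 0, nat_lit 0, nat_lit 0, nat_lit 0, nat_lit 0, nat_lit 0, nat_lit 0, nat_lit 0, [],
 ⟨p057_k16, nat_lit 0, nat_lit 0, nat_lit 523, nat_lit 0, nat_lit 896702, [nat_lit 3282000000, nat_lit 7968000000], [], [nat_lit 28267487380, nat_lit 28537344738, nat_lit 36692709546, nat_lit 37284785156, nat_lit 26754019566, nat_lit 26916024594, nat_lit 32994386394, nat_lit 33378993695], nat_lit 1271250, nat_lit 1271250, nat_lit 1271250, nat_lit 1271250, nat_lit 0, nat_lit 2062250, [nat_lit 780000, nat_lit 1762500], [nat_lit 74, nat_lit 40, nat_lit 40, nat_lit 80, nat_lit 43, nat_lit 289, nat_lit 75, nat_lit 9]⟩, ⟨p057_k17, nat_lit 0, nat_lit 0, nat_lit 72, nat_lit 0, nat_lit 0, [nat_lit 4688000000, nat_lit 11872000000], [], [nat_lit 15559906096, nat_lit 18158722980, nat_lit 27666739900, nat_lit 29124520076,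 nat_lit 24515219737, nat_lit 26124854640, nat_lit 32977037166, nat_lit 33976751881], nat_lit 0, nat_lit 0, nat_lit 0, nat_lit 0, nat_lit 0, nat_lit 0, [], [nat_lit 116, nat_lit 40, nat_lit 40, nat_lit 80, nat_lit 65, nat_lit 538, nat_lit 300, nat_lit 13]⟩,
 zbF0, [⟨nat_lit 4, nat_lit 100, nat_lit 92, nat_lit 75, nat_lit 162009370⟩, ⟨nat_lit 7, nat_lit 92, nat_lit 100, nat_lit 75, nat_lit 488355080⟩]⟩
noncomputable def p057_l46 : Lf2 := ⟨nat_lit 0, nat_lit 10, [nat_lit 0, nat_lit 5, nat_lit 5, nat_lit 20], false, nat_lit 0, nat_lit 280, nat_lit 160, nat_lit 336, ⟨nat_lit 1000, nat_lit 0, nat_lit 0, nat_lit 0, nat_lit 0, nat_lit 0, nat_lit 0, nat_lit 0, nat_lit 0, nat_lit 0, nat_lit 0, nat_lit 0, nat_lit 0, nat_lit 0, nat_lit 0, nat_lit 0, false, false⟩,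
 nat_lit 0, nat_lit 7826, nat_lit 0, nat_lit 0, nat_lit 5418, nat_lit 5779, nat_lit 2258, nat_lit 0, nat_lit 0, nat_lit 0, nat_lit 0, nat_lit 0, nat_lit 0, nat_lit 0, nat_lit 0, nat_lit 0, nat_lit 0, nat_lit 0, [],
 ⟨p057_k18, nat_lit 0, nat_lit 0, nat_lit 583, nat_lit 0, nat_lit 1030462, [nat_lit 3282000000, nat_lit 7968000000], [], [nat_lit 29868008360, nat_lit 30635998664, nat_lit 35502512868, nat_lit 36432170008, nat_lit 30774064882, nat_lit 31278457416, nat_lit 34525700124, nat_lit 34853883536], nat_lit 1271250, nat_lit 1271250, nat_lit 1271250, nat_lit 1271250, nat_lit 0, nat_lit 1977500, [nat_lit 780000, nat_lit 1762500], [nat_lit 74, nat_lit 40, nat_lit 40, nat_lit 80, nat_lit 43, nat_lit 289, nat_lit 75, nat_lit 9]⟩, ⟨p057_k17, nat_lit 0, nat_lit 0, nat_lit 72, nat_lit 0, nat_lit 0, [nat_lit 4688000000, nat_lit 11872000000], [], [nat_lit 15559906096, nat_lit 18158722980, nat_lit 27666739900, nat_lit 29124520076,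 nat_lit 24515219737, nat_lit 26124854640, nat_lit 32977037166, nat_lit 33976751881], nat_lit 0, nat_lit 0, nat_lit 0, nat_lit 0, nat_lit 0, nat_lit 0, [], [nat_lit 116, nat_lit 40, nat_lit 40, nat_lit 80, nat_lit 65, nat_lit 538, nat_lit 300, nat_lit 13]⟩,
 zbF0, [⟨nat_lit 16, nat_lit 85, nat_lit 100, nat_lit 73, nat_lit 237756582⟩, ⟨nat_lit 7, nat_lit 92, nat_lit 100, nat_lit 75, nat_lit 583810261⟩]⟩
noncomputable def b_V_700_600_10_12 : St := ⟨true, nat_lit 1, nat_lit 0, nat_lit 1, nat_lit 80, nat_lit 280, nat_lit 320, nat_lit 240, nat_lit 280, nat_lit 240, nat_lit 400, nat_lit 40, nat_lit 80, nat_lit 0, nat_lit 300, nat_lit 0, nat_lit 336, nat_lit 0, nat_lit 40, nat_lit 0, nat_lit 0, nat_lit 0, nat_lit 0⟩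
theorem d_V_700_600_10_12 (h : EB TB.env) : Dead b_V_700_600_10_12 := chkB_sound0 h (T :=
(.spl (nat_lit 5) (nat_lit 160)
(.spl (nat_lit 0) (nat_lit 300)
(.spl (nat_lit 0) (nat_lit 290)
(.leaf p057_l40)
(.trX (nat_lit 16) (nat_lit 100) (nat_lit 100) (nat_lit 89) (nat_lit 292) (.leaf p057_l41)))
(.trX (nat_lit 16) (nat_lit 94) (nat_lit 100) (nat_lit 87) (nat_lit 280) (.leaf p057_l42)))
(.spl (nat_lit 0) (nat_lit 300)
(.spl (nat_lit 0) (nat_lit 290)
(.spl (nat_lit 3) (nat_lit 60)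
(.trX (nat_lit 16) (nat_lit 99) (nat_lit 100) (nat_lit 77) (nat_lit 276) (.trX (nat_lit 19) (nat_lit 100) (nat_lit 85) (nat_lit 73) (nat_lit 312) (.leaf p057_l43)))
(.leaf p057_l44))
(.trX (nat_lit 16) (nat_lit 100) (nat_lit 100) (nat_lit 89) (nat_lit 292) (.leaf p057_l45)))
(.trX (nat_lit 16) (nat_lit 94) (nat_lit 100) (nat_lit 87) (nat_lit 280) (.leaf p057_l46))))) (by decide +kernel)
noncomputable def p057_l47 : Lf2 := ⟨nat_lit 0, nat_lit 10, [nat_lit 0, nat_lit 5, nat_lit 5, nat_lit 20], true, nat_lit 0, nat_lit 80, nat_lit 0, nat_lit 336, ⟨nat_lit 0, nat_lit 0, nat_lit 1000, nat_lit 6, nat_lit 117, nat_lit 1000, nat_lit 26, nat_lit 1000, nat_lit 4817, nat_lit 232, nat_lit 129067, nat_lit 303, nat_lit 61679917, nat_lit 0, nat_lit 0, nat_lit 1386555, false, false⟩,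
 nat_lit 0, nat_lit 5210, nat_lit 0, nat_lit 0, nat_lit 3315, nat_lit 0, nat_lit 0, nat_lit 0, nat_lit 0, nat_lit 0, nat_lit 0, nat_lit 0, nat_lit 0, nat_lit 0, nat_lit 200, nat_lit 956200, nat_lit 0, nat_lit 0, [(nat_lit 12, [(nat_lit 5, nat_lit 73), (nat_lit 6, nat_lit 927)])],
 ⟨p057_k0, nat_lit 0, nat_lit 0, nat_lit 473, nat_lit 0, nat_lit 442807, [nat_lit 3548470801, nat_lit 2915684134, nat_lit 421440400], [], [nat_lit 14389579367, nat_lit 15607148708, nat_lit 14392988797, nat_lit 15622134154, nat_lit 14671694654, nat_lit 15100875043, nat_lit 16138772730, nat_lit 15178078104], nat_lit 1271250, nat_lit 1271250, nat_lit 205650, nat_lit 490000, nat_lit 0, nat_lit 490000, [nat_lit 780000, nat_lit 1435000, nat_lit 1271250], [nat_lit 8, nat_lit 40, nat_lit 40, nat_lit 80, nat_lit 1, nat_lit 249, nat_lit 40, nat_lit 7]⟩, C1.Rw.none,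
 ⟨nat_lit 5000, nat_lit 5478, ⟨.ofNat (nat_lit 235487), .ofNat (nat_lit 317913), .ofNat (nat_lit 256844), .ofNat (nat_lit 339271), .ofNat (nat_lit 249999), .ofNat (nat_lit 328570), .ofNat (nat_lit 271427), .ofNat (nat_lit 349999)⟩, ⟨.negSucc (nat_lit 45522), .ofNat (nat_lit 104343), .negSucc (nat_lit 2832), .ofNat (nat_lit 147057), .negSucc (nat_lit 28572), .ofNat (nat_lit 114284), .ofNat (nat_lit 0), .ofNat (nat_lit 157141)⟩⟩, [⟨nat_lit 0, nat_lit 100, nat_lit 91, nat_lit 77, nat_lit 44374470⟩]⟩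
noncomputable def p057_l48 : Lf2 := ⟨nat_lit 0, nat_lit 5, [nat_lit 4, nat_lit 5, nat_lit 5, nat_lit 20], false, nat_lit 0, nat_lit 80, nat_lit 0, nat_lit 160, ⟨nat_lit 302, nat_lit 0, nat_lit 698, nat_lit 6, nat_lit 130, nat_lit 698, nat_lit 26, nat_lit 698, nat_lit 4817, nat_lit 232, nat_lit 160067, nat_lit 313, nat_lit 60561478, nat_lit 0, nat_lit 0, nat_lit 1582108, false, false⟩,
 nat_lit 2946, nat_lit 4788, nat_lit 0, nat_lit 0, nat_lit 4921, nat_lit 1714, nat_lit 0, nat_lit 0, nat_lit 0, nat_lit 997, nat_lit 0, nat_lit 0, nat_lit 0, nat_lit 0, nat_lit 13, nat_lit 698000, nat_lit 0, nat_lit 0, [(nat_lit 12, [(nat_lit 6, nat_lit 698)])],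
 ⟨p057_k20, nat_lit 0, nat_lit 0, nat_lit 413, nat_lit 0, nat_lit 499481, [nat_lit 1943721601, nat_lit 1360435200, nat_lit 4791200], [], [nat_lit 16846153045, nat_lit 17973500265, nat_lit 16491730021, nat_lit 17548459655, nat_lit 16253103088, nat_lit 16257685697, nat_lit 17526129126, nat_lit 15950054703], nat_lit 1271250, nat_lit 1271250, nat_lit 279600, nat_lit 490000, nat_lit 0, nat_lit 490000, [nat_lit 780000, nat_lit 1435000, nat_lit 1271250], [nat_lit 18, nat_lit 40, nat_lit 40, nat_lit 80, nat_lit 2, nat_lit 249, nat_lit 40, nat_lit 8]⟩, ⟨p057_k14, nat_lit 0, nat_lit 0, nat_lit 419, nat_lit 0, nat_lit 556091, [nat_lit 1415776000, nat_lit 2406336000], [], [nat_lit 11383925384, nat_lit 10466424612, nat_lit 9922670452, nat_lit 9016413520, nat_lit 8279458041, nat_lit 7497631490, nat_lit 8675000188, nat_lit 7867353104], nat_lit 1271250, nat_lit 1271250, nat_lit 279600, nat_lit 490000, nat_lit 0, nat_lit 1100001, [nat_lit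 1100000, nat_lit 1785000], [nat_lit 39, nat_lit 40, nat_lit 40, nat_lit 80, nat_lit 7, nat_lit 272, nat_lit 60, nat_lit 9]⟩,
 ⟨nat_lit 5000, nat_lit 5478, ⟨.ofNat (nat_lit 279324), .ofNat (nat_lit 339271), .ofNat (nat_lit 300681), .ofNat (nat_lit 360625), .ofNat (nat_lit 292856), .ofNat (nat_lit 349999), .ofNat (nat_lit 314284), .ofNat (nat_lit 371424)⟩, ⟨.negSucc (nat_lit 45522), .ofNat (nat_lit 104343), .negSucc (nat_lit 2832), .ofNat (nat_lit 147057), .negSucc (nat_lit 28572), .ofNat (nat_lit 114284), .ofNat (nat_lit 0), .ofNat (nat_lit 157141)⟩⟩, [⟨nat_lit 0, nat_lit 100, nat_lit 95, nat_lit 78, nat_lit 363830664⟩]⟩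
noncomputable def p057_l49 : Lf2 := ⟨nat_lit 0, nat_lit 10, [nat_lit 0, nat_lit 5, nat_lit 5, nat_lit 20], true, nat_lit 0, nat_lit 80, nat_lit 0, nat_lit 160, ⟨nat_lit 0, nat_lit 0, nat_lit 1000, nat_lit 6, nat_lit 129, nat_lit 0, nat_lit 26, nat_lit 957, nat_lit 4267, nat_lit 231, nat_lit 156817, nat_lit 312, nat_lit 60669589, nat_lit 0, nat_lit 0, nat_lit 1563950, false, false⟩,
 nat_lit 0, nat_lit 5362, nat_lit 0, nat_lit 0, nat_lit 3412, nat_lit 0, nat_lit 26, nat_lit 0, nat_lit 0, nat_lit 0, nat_lit 0, nat_lit 0, nat_lit 0, nat_lit 0, nat_lit 170, nat_lit 798400, nat_lit 0, nat_lit 0, [(nat_lit 12, [(nat_lit 5, nat_lit 336), (nat_lit 6, nat_lit 664)])],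
 ⟨p057_k0, nat_lit 0, nat_lit 0, nat_lit 358, nat_lit 0, nat_lit 275099, [nat_lit 3214665601, nat_lit 2471625601, nat_lit 353292800], [], [nat_lit 13664523766, nat_lit 14346911229, nat_lit 13445659444, nat_lit 14028417375, nat_lit 12673331824, nat_lit 13265070843, nat_lit 12685176067, nat_lit 13290226283], nat_lit 1271250, nat_lit 1271250, nat_lit 279600, nat_lit 490000, nat_lit 0, nat_lit 490000, [nat_lit 780000, nat_lit 1435000, nat_lit 1271250], [nat_lit 8, nat_lit 40, nat_lit 40, nat_lit 80, nat_lit 1, nat_lit 249, nat_lit 40, nat_lit 7]⟩, C1.Rw.none,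
 ⟨nat_lit 5244, nat_lit 5478, ⟨.ofNat (nat_lit 279324), .ofNat (nat_lit 339271), .ofNat (nat_lit 300681), .ofNat (nat_lit 360628), .ofNat (nat_lit 286104), .ofNat (nat_lit 344641), .ofNat (nat_lit 307490), .ofNat (nat_lit 366027)⟩, ⟨.negSucc (nat_lit 45522), .ofNat (nat_lit 104343), .negSucc (nat_lit 2827), .ofNat (nat_lit 147057), .negSucc (nat_lit 36940), .ofNat (nat_lit 109402), .ofNat (nat_lit 0), .ofNat (nat_lit 152172)⟩⟩, [⟨nat_lit 0, nat_lit 100, nat_lit 97, nat_lit 84, nat_lit 161765378⟩]⟩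
noncomputable def p057_l50 : Lf2 := ⟨nat_lit 0, nat_lit 10, [nat_lit 0, nat_lit 5, nat_lit 5, nat_lit 20], true, nat_lit 0, nat_lit 80, nat_lit 0, nat_lit 160, ⟨nat_lit 0, nat_lit 0, nat_lit 1000, nat_lit 6, nat_lit 135, nat_lit 0, nat_lit 27, nat_lit 828, nat_lit 5400, nat_lit 233, nat_lit 170017, nat_lit 316, nat_lit 60191176, nat_lit 0, nat_lit 0, nat_lit 1643183, false, false⟩,
 nat_lit 0, nat_lit 5374, nat_lit 0, nat_lit 0, nat_lit 3568, nat_lit 0, nat_lit 0, nat_lit 0, nat_lit 0, nat_lit 0, nat_lit 0, nat_lit 0, nat_lit 0, nat_lit 0, nat_lit 96, nat_lit 558400, nat_lit 0, nat_lit 0, [(nat_lit 12, [(nat_lit 5, nat_lit 736), (nat_lit 6, nat_lit 264)])],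
 ⟨p057_k1, nat_lit 0, nat_lit 0, nat_lit 311, nat_lit 0, nat_lit 312646, [nat_lit 2366505600, nat_lit 1228798934, nat_lit 42829866], [], [nat_lit 14401693700, nat_lit 15444875751, nat_lit 14234055388, nat_lit 14869685952, nat_lit 13368264939, nat_lit 13926233379, nat_lit 13332214140, nat_lit 13877310924], nat_lit 1271250, nat_lit 1271250, nat_lit 330400, nat_lit 490000, nat_lit 0, nat_lit 490000, [nat_lit 780000, nat_lit 1435000, nat_lit 1271250], [nat_lit 18, nat_lit 40, nat_lit 40, nat_lit 80, nat_lit 2, nat_lit 249, nat_lit 40, nat_lit 8]⟩, C1.Rw.none,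
 ⟨nat_lit 5000, nat_lit 5245, ⟨.ofNat (nat_lit 300739), .ofNat (nat_lit 344641), .ofNat (nat_lit 322124), .ofNat (nat_lit 366025), .ofNat (nat_lit 307141), .ofNat (nat_lit 349999), .ofNat (nat_lit 328570), .ofNat (nat_lit 371426)⟩, ⟨.negSucc (nat_lit 36940), .ofNat (nat_lit 109402), .ofNat (nat_lit 0), .ofNat (nat_lit 152172), .negSucc (nat_lit 28572), .ofNat (nat_lit 114284), .ofNat (nat_lit 0), .ofNat (nat_lit 157141)⟩⟩, [⟨nat_lit 0, nat_lit 100, nat_lit 94, nat_lit 80, nat_lit 237791160⟩]⟩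
noncomputable def p057_l51 : Lf2 := ⟨nat_lit 0, nat_lit 10, [nat_lit 0, nat_lit 5, nat_lit 5, nat_lit 20], false, nat_lit 0, nat_lit 80, nat_lit 160, nat_lit 296, ⟨nat_lit 224, nat_lit 0, nat_lit 776, nat_lit 6, nat_lit 130, nat_lit 776, nat_lit 24, nat_lit 776, nat_lit 3267, nat_lit 229, nat_lit 160067, nat_lit 313, nat_lit 60561478, nat_lit 0, nat_lit 0, nat_lit 1582108, false, false⟩,
 nat_lit 4532, nat_lit 2466, nat_lit 0, nat_lit 0, nat_lit 4452, nat_lit 2637, nat_lit 207, nat_lit 0, nat_lit 0, nat_lit 233, nat_lit 0, nat_lit 0, nat_lit 0, nat_lit 0, nat_lit 85, nat_lit 776000, nat_lit 0, nat_lit 0, [(nat_lit 12, [(nat_lit 6, nat_lit 776)])],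
 ⟨p057_k0, nat_lit 0, nat_lit 0, nat_lit 485, nat_lit 0, nat_lit 499481, [nat_lit 2640739201, nat_lit 2224982400, nat_lit 399795200], [], [nat_lit 16106273841, nat_lit 17156504365, nat_lit 15870120241, nat_lit 16879971449, nat_lit 16053586470, nat_lit 15779044189, nat_lit 17285495090, nat_lit 15553545225], nat_lit 1271250, nat_lit 1271250, nat_lit 279600, nat_lit 490000, nat_lit 0, nat_lit 490000, [nat_lit 780000, nat_lit 1435000, nat_lit 1271250], [nat_lit 8, nat_lit 40, nat_lit 40, nat_lit 80, nat_lit 1, nat_lit 249, nat_lit 40, nat_lit 7]⟩, ⟨p057_k2, nat_lit 0, nat_lit 0, nat_lit 384, nat_lit 0, nat_lit 556091, [nat_lit 1050112000, nat_lit 1784832000, nat_lit 2204608000], [], [nat_lit 5891491864, nat_lit 4522271806, nat_lit 3710511438, nat_lit 3650247280, nat_lit 6002542791, nat_lit 5857080846, nat_lit 6391684572, nat_lit 5217774119], nat_lit 1271250, nat_lit 1271250, nat_lit 279600, nat_lit 490000, nat_lit 1100001,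 nat_lit 2264500, [nat_lit 1100000, nat_lit 1785000, nat_lit 1271250], [nat_lit 29, nat_lit 40, nat_lit 40, nat_lit 80, nat_lit 17, nat_lit 401, nat_lit 175, nat_lit 11]⟩,
 ⟨nat_lit 5000, nat_lit 5478, ⟨.ofNat (nat_lit 279324), .ofNat (nat_lit 339271), .ofNat (nat_lit 300681), .ofNat (nat_lit 360625), .ofNat (nat_lit 292856), .ofNat (nat_lit 349999), .ofNat (nat_lit 314284), .ofNat (nat_lit 371424)⟩, ⟨.negSucc (nat_lit 45522), .ofNat (nat_lit 104343), .negSucc (nat_lit 24165), .ofNat (nat_lit 125700), .negSucc (nat_lit 28572), .ofNat (nat_lit 114284), .negSucc (nat_lit 7143), .ofNat (nat_lit 135713)⟩⟩, [⟨nat_lit 0, nat_lit 100, nat_lit 95, nat_lit 78, nat_lit 192701810⟩, ⟨nat_lit 7, nat_lit 100, nat_lit 100, nat_lit 71, nat_lit 118621705⟩]⟩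
noncomputable def p057_l52 : Lf2 := ⟨nat_lit 0, nat_lit 10, [nat_lit 0, nat_lit 5, nat_lit 5, nat_lit 20], false, nat_lit 0, nat_lit 80, nat_lit 160, nat_lit 320, ⟨nat_lit 173, nat_lit 0, nat_lit 827, nat_lit 6, nat_lit 130, nat_lit 827, nat_lit 28, nat_lit 827, nat_lit 6667, nat_lit 235, nat_lit 160067, nat_lit 313, nat_lit 60561478, nat_lit 0, nat_lit 0, nat_lit 1582108, false, false⟩,
 nat_lit 3614, nat_lit 3130, nat_lit 0, nat_lit 0, nat_lit 4291, nat_lit 2103, nat_lit 108, nat_lit 0, nat_lit 0, nat_lit 150, nat_lit 0, nat_lit 0, nat_lit 0, nat_lit 0, nat_lit 113, nat_lit 827000, nat_lit 0, nat_lit 0, [(nat_lit 12, [(nat_lit 6, nat_lit 827)])],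
 ⟨p057_k0, nat_lit 0, nat_lit 0, nat_lit 452, nat_lit 0, nat_lit 407005, [nat_lit 2867558401, nat_lit 2408724801, nat_lit 406820400], [], [nat_lit 15349860974, nat_lit 16879690239, nat_lit 15068731024, nat_lit 16207028414, nat_lit 15523950522, nat_lit 15026733632, nat_lit 16741744208, nat_lit 14829429246], nat_lit 1271250, nat_lit 1271250, nat_lit 279600, nat_lit 490000, nat_lit 0, nat_lit 490000, [nat_lit 780000, nat_lit 1435000, nat_lit 1271250], [nat_lit 8, nat_lit 40, nat_lit 40, nat_lit 80, nat_lit 1, nat_lit 249, nat_lit 40, nat_lit 7]⟩, ⟨p057_k2, nat_lit 0, nat_lit 0, nat_lit 339, nat_lit 0, nat_lit 454211, [nat_lit 811024000, nat_lit 1378464000, nat_lit 1702666000], [], [nat_lit 4532786013, nat_lit 3440836911, nat_lit 2793460326, nat_lit 2905503964, nat_lit 5286212492, nat_lit 5148751567, nat_lit 5605274826, nat_lit 4619246696], nat_lit 1271250, nat_lit 1271250, nat_lit 279600, nat_lit 490000, nat_lit 1100001,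 nat_lit 2470000, [nat_lit 1100000, nat_lit 1785000, nat_lit 1271250], [nat_lit 29, nat_lit 40, nat_lit 40, nat_lit 80, nat_lit 17, nat_lit 401, nat_lit 175, nat_lit 11]⟩,
 ⟨nat_lit 5000, nat_lit 5478, ⟨.ofNat (nat_lit 279324), .ofNat (nat_lit 339271), .ofNat (nat_lit 300681), .ofNat (nat_lit 360625), .ofNat (nat_lit 292856), .ofNat (nat_lit 349999), .ofNat (nat_lit 314284), .ofNat (nat_lit 371424)⟩, ⟨.negSucc (nat_lit 24165), .ofNat (nat_lit 125700), .negSucc (nat_lit 2832), .ofNat (nat_lit 147057), .negSucc (nat_lit 7143), .ofNat (nat_lit 135713), .ofNat (nat_lit 0), .ofNat (nat_lit 157141)⟩⟩, [⟨nat_lit 0, nat_lit 100, nat_lit 95, nat_lit 78, nat_lit 208908758⟩, ⟨nat_lit 7, nat_lit 93, nat_lit 100, nat_lit 81, nat_lit 113853684⟩]⟩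
noncomputable def p057_l53 : Lf2 := ⟨nat_lit 0, nat_lit 10, [nat_lit 0, nat_lit 5, nat_lit 5, nat_lit 20], true, nat_lit 0, nat_lit 80, nat_lit 0, nat_lit 336, ⟨nat_lit 0, nat_lit 0, nat_lit 1000, nat_lit 6, nat_lit 130, nat_lit 125, nat_lit 28, nat_lit 1000, nat_lit 6017, nat_lit 234, nat_lit 156817, nat_lit 312, nat_lit 60618682, nat_lit 0, nat_lit 0, nat_lit 1572519, false, false⟩,
 nat_lit 0, nat_lit 4987, nat_lit 0, nat_lit 0, nat_lit 3452, nat_lit 0, nat_lit 0, nat_lit 0, nat_lit 0, nat_lit 0, nat_lit 0, nat_lit 0, nat_lit 0, nat_lit 0, nat_lit 208, nat_lit 945400, nat_lit 0, nat_lit 0, [(nat_lit 15, [(nat_lit 5, nat_lit 91), (nat_lit 6, nat_lit 909)])],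
 ⟨p057_k11, nat_lit 0, nat_lit 0, nat_lit 428, nat_lit 0, nat_lit 529263, [nat_lit 3506503200, nat_lit 1985975601, nat_lit 12129200], [], [nat_lit 15437161965, nat_lit 16467374068, nat_lit 14718520360, nat_lit 15722325488, nat_lit 14110681767, nat_lit 14745081836, nat_lit 14197077120, nat_lit 14811028792], nat_lit 1271250, nat_lit 1271250, nat_lit 279600, nat_lit 490000, nat_lit 0, nat_lit 490000, [nat_lit 780000, nat_lit 1435000, nat_lit 1271250], [nat_lit 18, nat_lit 40, nat_lit 40, nat_lit 80, nat_lit 2, nat_lit 249, nat_lit 40, nat_lit 8]⟩, C1.Rw.none,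
 ⟨nat_lit 4743, nat_lit 5000, ⟨.ofNat (nat_lit 271427), .ofNat (nat_lit 328569), .ofNat (nat_lit 314281), .ofNat (nat_lit 371422), .ofNat (nat_lit 278116), .ofNat (nat_lit 333875), .ofNat (nat_lit 321088), .ofNat (nat_lit 376847)⟩, ⟨.negSucc (nat_lit 28572), .ofNat (nat_lit 114284), .ofNat (nat_lit 0), .ofNat (nat_lit 157141), .negSucc (nat_lit 20404), .ofNat (nat_lit 118994), .ofNat (nat_lit 0), .ofNat (nat_lit 161970)⟩⟩, [⟨nat_lit 0, nat_lit 100, nat_lit 91, nat_lit 91, nat_lit 623572030⟩]⟩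
noncomputable def p057_l54 : Lf2 := ⟨nat_lit 0, nat_lit 10, [nat_lit 0, nat_lit 5, nat_lit 5, nat_lit 20], true, nat_lit 0, nat_lit 80, nat_lit 0, nat_lit 336, ⟨nat_lit 0, nat_lit 0, nat_lit 1000, nat_lit 6, nat_lit 135, nat_lit 138, nat_lit 29, nat_lit 1000, nat_lit 6667, nat_lit 235, nat_lit 170017, nat_lit 316, nat_lit 60152160, nat_lit 0, nat_lit 0, nat_lit 1649519, false, false⟩,
 nat_lit 0, nat_lit 4716, nat_lit 0, nat_lit 0, nat_lit 3399, nat_lit 0, nat_lit 0, nat_lit 0, nat_lit 0, nat_lit 0, nat_lit 0, nat_lit 0, nat_lit 0, nat_lit 0, nat_lit 195, nat_lit 883000, nat_lit 0, nat_lit 0, [(nat_lit 15, [(nat_lit 5, nat_lit 195), (nat_lit 6, nat_lit 805)])],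
 ⟨p057_k15, nat_lit 0, nat_lit 0, nat_lit 436, nat_lit 0, nat_lit 554578, [nat_lit 3385364000, nat_lit 1864462001, nat_lit 14334000], [], [nat_lit 16186559064, nat_lit 17202583931, nat_lit 15646659777, nat_lit 16642383176, nat_lit 15056186913, nat_lit 15680932528, nat_lit 15112101004, nat_lit 15721667668], nat_lit 1271250, nat_lit 1271250, nat_lit 330400, nat_lit 490000, nat_lit 0, nat_lit 490000, [nat_lit 780000, nat_lit 1435000, nat_lit 1271250], [nat_lit 18, nat_lit 40, nat_lit 40, nat_lit 80, nat_lit 2, nat_lit 249, nat_lit 40, nat_lit 8]⟩, C1.Rw.none,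
 ⟨nat_lit 4472, nat_lit 4744, ⟨.ofNat (nat_lit 292052), .ofNat (nat_lit 333872), .ofNat (nat_lit 335021), .ofNat (nat_lit 376841), .ofNat (nat_lit 298407), .ofNat (nat_lit 339193), .ofNat (nat_lit 341533), .ofNat (nat_lit 382319)⟩, ⟨.negSucc (nat_lit 20404), .ofNat (nat_lit 118994), .ofNat (nat_lit 0), .ofNat (nat_lit 161970), .negSucc (nat_lit 12423), .ofNat (nat_lit 123532), .ofNat (nat_lit 0), .ofNat (nat_lit 166665)⟩⟩, [⟨nat_lit 0, nat_lit 100, nat_lit 86, nat_lit 83, nat_lit 677247533⟩]⟩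
noncomputable def p057_l55 : Lf2 := ⟨nat_lit 0, nat_lit 10, [nat_lit 0, nat_lit 5, nat_lit 5, nat_lit 20], true, nat_lit 80, nat_lit 160, nat_lit 0, nat_lit 336, ⟨nat_lit 0, nat_lit 0, nat_lit 1000, nat_lit 6, nat_lit 117, nat_lit 1000, nat_lit 82, nat_lit 1000, nat_lit 62017, nat_lit 276, nat_lit 129067, nat_lit 303, nat_lit 58013418, nat_lit 0, nat_lit 0, nat_lit 2549741, false, false⟩,
 nat_lit 0, nat_lit 5956, nat_lit 0, nat_lit 0, nat_lit 3790, nat_lit 0, nat_lit 0, nat_lit 0, nat_lit 0, nat_lit 0, nat_lit 0, nat_lit 0, nat_lit 0, nat_lit 0, nat_lit 208, nat_lit 1000000, nat_lit 0, nat_lit 0, [(nat_lit 12, [(nat_lit 6, nat_lit 1000)])],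
 ⟨p057_k0, nat_lit 0, nat_lit 0, nat_lit 368, nat_lit 0, nat_lit 442807, [nat_lit 3637200001, nat_lit 3032400001, nat_lit 431200000], [], [nat_lit 11563543292, nat_lit 13238369820, nat_lit 11446754883, nat_lit 12726421463, nat_lit 12919346300, nat_lit 14272729048, nat_lit 13950869403, nat_lit 14144472103], nat_lit 1271250, nat_lit 1271250, nat_lit 205650, nat_lit 490000, nat_lit 490000, nat_lit 1100001, [nat_lit 780000, nat_lit 1435000, nat_lit 1271250], [nat_lit 8, nat_lit 40, nat_lit 40, nat_lit 80, nat_lit 1, nat_lit 272, nat_lit 60, nat_lit 8]⟩, C1.Rw.none,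
 ⟨nat_lit 5000, nat_lit 5478, ⟨.ofNat (nat_lit 235487), .ofNat (nat_lit 317913), .ofNat (nat_lit 256844), .ofNat (nat_lit 339271), .ofNat (nat_lit 249999), .ofNat (nat_lit 328570), .ofNat (nat_lit 271427), .ofNat (nat_lit 349999)⟩, ⟨.ofNat (nat_lit 104343), .ofNat (nat_lit 254209), .ofNat (nat_lit 147057), .ofNat (nat_lit 296923), .ofNat (nat_lit 114284), .ofNat (nat_lit 257141), .ofNat (nat_lit 157141), .ofNat (nat_lit 299999)⟩⟩, [⟨nat_lit 0, nat_lit 100, nat_lit 91, nat_lit 77, nat_lit 91869060⟩]⟩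
noncomputable def p057_l56 : Lf2 := ⟨nat_lit 0, nat_lit 10, [nat_lit 0, nat_lit 5, nat_lit 5, nat_lit 20], true, nat_lit 80, nat_lit 160, nat_lit 0, nat_lit 336, ⟨nat_lit 0, nat_lit 0, nat_lit 1000, nat_lit 6, nat_lit 127, nat_lit 1000, nat_lit 84, nat_lit 1000, nat_lit 66150, nat_lit 278, nat_lit 150417, nat_lit 310, nat_lit 57069730, nat_lit 0, nat_lit 0, nat_lit 2727495, false, false⟩,
 nat_lit 0, nat_lit 5258, nat_lit 0, nat_lit 0, nat_lit 3640, nat_lit 0, nat_lit 0, nat_lit 0, nat_lit 0, nat_lit 0, nat_lit 0, nat_lit 0, nat_lit 0, nat_lit 0, nat_lit 219, nat_lit 1000000, nat_lit 0, nat_lit 0, [(nat_lit 15, [(nat_lit 6, nat_lit 1000)])],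
 ⟨p057_k11, nat_lit 0, nat_lit 0, nat_lit 338, nat_lit 0, nat_lit 512338, [nat_lit 3608000000, nat_lit 2084800001, nat_lit 1200000], [], [nat_lit 12806197888, nat_lit 14840665792, nat_lit 12611885360, nat_lit 14296923840, nat_lit 14053240113, nat_lit 15756481824, nat_lit 14048863600, nat_lit 15319830240], nat_lit 1271250, nat_lit 1271250, nat_lit 279600, nat_lit 490000, nat_lit 490000, nat_lit 1100001, [nat_lit 780000, nat_lit 1435000, nat_lit 1271250], [nat_lit 18, nat_lit 40, nat_lit 40, nat_lit 80, nat_lit 2, nat_lit 272, nat_lit 60, nat_lit 9]⟩, C1.Rw.none,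
 ⟨nat_lit 4472, nat_lit 5000, ⟨.ofNat (nat_lit 271418), .ofNat (nat_lit 328559), .ofNat (nat_lit 292837), .ofNat (nat_lit 349976), .ofNat (nat_lit 284805), .ofNat (nat_lit 339186), .ofNat (nat_lit 306362), .ofNat (nat_lit 360741)⟩, ⟨.ofNat (nat_lit 114284), .ofNat (nat_lit 257141), .ofNat (nat_lit 157141), .ofNat (nat_lit 299999), .ofNat (nat_lit 123532), .ofNat (nat_lit 259489), .ofNat (nat_lit 166665), .ofNat (nat_lit 302621)⟩⟩, [⟨nat_lit 0, nat_lit 100, nat_lit 84, nat_lit 85, nat_lit 319466745⟩]⟩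
noncomputable def p057_l57 : Lf2 := ⟨nat_lit 0, nat_lit 10, [nat_lit 0, nat_lit 5, nat_lit 5, nat_lit 20], true, nat_lit 80, nat_lit 160, nat_lit 0, nat_lit 320, ⟨nat_lit 0, nat_lit 0, nat_lit 1000, nat_lit 6, nat_lit 129, nat_lit 1000, nat_lit 81, nat_lit 1000, nat_lit 62017, nat_lit 276, nat_lit 156817, nat_lit 312, nat_lit 57063522, nat_lit 0, nat_lit 0, nat_lit 2715884, false, false⟩,
 nat_lit 0, nat_lit 6234, nat_lit 0, nat_lit 0, nat_lit 3966, nat_lit 0, nat_lit 0, nat_lit 0, nat_lit 0, nat_lit 0, nat_lit 0, nat_lit 0, nat_lit 0, nat_lit 0, nat_lit 208, nat_lit 1000000, nat_lit 0, nat_lit 0, [(nat_lit 12, [(nat_lit 6, nat_lit 1000)])],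
 ⟨p057_k0, nat_lit 0, nat_lit 0, nat_lit 368, nat_lit 0, nat_lit 475281, [nat_lit 3637200001, nat_lit 3032400001, nat_lit 431200000], [], [nat_lit 11045491632, nat_lit 11920086809, nat_lit 10994060355, nat_lit 11643800643, nat_lit 12381965736, nat_lit 13065478052, nat_lit 13530134363, nat_lit 13026601685], nat_lit 1271250, nat_lit 1271250, nat_lit 279600, nat_lit 490000, nat_lit 490000, nat_lit 1100001, [nat_lit 780000, nat_lit 1435000, nat_lit 1271250], [nat_lit 8, nat_lit 40, nat_lit 40, nat_lit 80, nat_lit 1, nat_lit 272, nat_lit 60, nat_lit 8]⟩, C1.Rw.none,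
 ⟨nat_lit 5244, nat_lit 5478, ⟨.ofNat (nat_lit 279324), .ofNat (nat_lit 339271), .ofNat (nat_lit 300681), .ofNat (nat_lit 360628), .ofNat (nat_lit 286104), .ofNat (nat_lit 344641), .ofNat (nat_lit 307490), .ofNat (nat_lit 366027)⟩, ⟨.ofNat (nat_lit 104343), .ofNat (nat_lit 254209), .ofNat (nat_lit 147057), .ofNat (nat_lit 296923), .ofNat (nat_lit 109402), .ofNat (nat_lit 255744), .ofNat (nat_lit 152172), .ofNat (nat_lit 298515)⟩⟩, [⟨nat_lit 0, nat_lit 100, nat_lit 97, nat_lit 84, nat_lit 8731845⟩]⟩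
noncomputable def p057_l58 : Lf2 := ⟨nat_lit 0, nat_lit 10, [nat_lit 0, nat_lit 5, nat_lit 5, nat_lit 20], true, nat_lit 80, nat_lit 160, nat_lit 0, nat_lit 320, ⟨nat_lit 0, nat_lit 0, nat_lit 1000, nat_lit 6, nat_lit 135, nat_lit 1000, nat_lit 82, nat_lit 1000, nat_lit 64067, nat_lit 277, nat_lit 170017, nat_lit 316, nat_lit 56513360, nat_lit 0, nat_lit 0, nat_lit 2813665, false, false⟩,
 nat_lit 0, nat_lit 6057, nat_lit 0, nat_lit 0, nat_lit 4022, nat_lit 0, nat_lit 0, nat_lit 0, nat_lit 0, nat_lit 0, nat_lit 0, nat_lit 0, nat_lit 0, nat_lit 0, nat_lit 162, nat_lit 1000000, nat_lit 0, nat_lit 0, [(nat_lit 12, [(nat_lit 6, nat_lit 1000)])],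
 ⟨p057_k1, nat_lit 0, nat_lit 0, nat_lit 319, nat_lit 0, nat_lit 502818, [nat_lit 3085200001, nat_lit 2112400000, nat_lit 400000], [], [nat_lit 11797127946, nat_lit 12866381357, nat_lit 11504278882, nat_lit 12408805500, nat_lit 12954575552, nat_lit 13913977714, nat_lit 12877088797, nat_lit 13544378583], nat_lit 1271250, nat_lit 1271250, nat_lit 330400, nat_lit 490000, nat_lit 490000, nat_lit 1100001, [nat_lit 780000, nat_lit 1435000, nat_lit 1271250], [nat_lit 18, nat_lit 40, nat_lit 40, nat_lit 80, nat_lit 2, nat_lit 272, nat_lit 60, nat_lit 9]⟩, C1.Rw.none,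
 ⟨nat_lit 5000, nat_lit 5245, ⟨.ofNat (nat_lit 300739), .ofNat (nat_lit 344641), .ofNat (nat_lit 322124), .ofNat (nat_lit 366025), .ofNat (nat_lit 307141), .ofNat (nat_lit 349999), .ofNat (nat_lit 328570), .ofNat (nat_lit 371426)⟩, ⟨.ofNat (nat_lit 109402), .ofNat (nat_lit 255744), .ofNat (nat_lit 152172), .ofNat (nat_lit 298515), .ofNat (nat_lit 114284), .ofNat (nat_lit 257141), .ofNat (nat_lit 157141), .ofNat (nat_lit 299999)⟩⟩, [⟨nat_lit 0, nat_lit 100, nat_lit 94, nat_lit 88, nat_lit 307097076⟩]⟩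
noncomputable def p057_l59 : Lf2 := ⟨nat_lit 0, nat_lit 10, [nat_lit 0, nat_lit 5, nat_lit 5, nat_lit 20], true, nat_lit 80, nat_lit 160, nat_lit 0, nat_lit 320, ⟨nat_lit 0, nat_lit 0, nat_lit 1000, nat_lit 6, nat_lit 141, nat_lit 1000, nat_lit 84, nat_lit 1000, nat_lit 66150, nat_lit 278, nat_lit 187267, nat_lit 321, nat_lit 55832074, nat_lit 0, nat_lit 0, nat_lit 2931632, false, false⟩,
 nat_lit 0, nat_lit 5831, nat_lit 0, nat_lit 0, nat_lit 4036, nat_lit 0, nat_lit 0, nat_lit 0, nat_lit 0, nat_lit 0, nat_lit 0, nat_lit 0, nat_lit 0, nat_lit 0, nat_lit 219, nat_lit 1000000, nat_lit 0, nat_lit 0, [(nat_lit 15, [(nat_lit 6, nat_lit 1000)])],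
 ⟨p057_k11, nat_lit 0, nat_lit 0, nat_lit 378, nat_lit 0, nat_lit 582261, [nat_lit 3608000000, nat_lit 2084800001, nat_lit 1200000], [], [nat_lit 12719470626, nat_lit 14848154759, nat_lit 12412239000, nat_lit 14512686816, nat_lit 13792203084, nat_lit 15701224461, nat_lit 13545181408, nat_lit 15424491584], nat_lit 1271250, nat_lit 1271250, nat_lit 382400, nat_lit 490000, nat_lit 490000, nat_lit 1100001, [nat_lit 780000, nat_lit 1435000, nat_lit 1271250], [nat_lit 18, nat_lit 40, nat_lit 40, nat_lit 80, nat_lit 2, nat_lit 272, nat_lit 60, nat_lit 9]⟩, C1.Rw.none,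
 ⟨nat_lit 4472, nat_lit 5000, ⟨.ofNat (nat_lit 321407), .ofNat (nat_lit 349976), .ofNat (nat_lit 342823), .ofNat (nat_lit 371392), .ofNat (nat_lit 333552), .ofNat (nat_lit 360741), .ofNat (nat_lit 355106), .ofNat (nat_lit 382295)⟩, ⟨.ofNat (nat_lit 114284), .ofNat (nat_lit 257141), .ofNat (nat_lit 157141), .ofNat (nat_lit 299999), .ofNat (nat_lit 123532), .ofNat (nat_lit 259489), .ofNat (nat_lit 166665), .ofNat (nat_lit 302621)⟩⟩, [⟨nat_lit 0, nat_lit 100, nat_lit 89, nat_lit 86, nat_lit 766710690⟩]⟩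
noncomputable def b_V_700_600_10_13 : St := ⟨true, nat_lit 1, nat_lit 1, nat_lit 1, nat_lit 80, nat_lit 280, nat_lit 320, nat_lit 240, nat_lit 280, nat_lit 36, nat_lit 80, nat_lit 40, nat_lit 80, nat_lit 0, nat_lit 160, nat_lit 0, nat_lit 336, nat_lit 0, nat_lit 40, nat_lit 0, nat_lit 0, nat_lit 0, nat_lit 0⟩
theorem d_V_700_600_10_13 (h : EB TB.env) : Dead b_V_700_600_10_13 := chkB_sound0 h (T :=
(.spl (nat_lit 4) (nat_lit 80)
(.spl (nat_lit 0) (nat_lit 300)
(.spl (nat_lit 1) (nat_lit 260)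
(.leaf p057_l47)
(.trZ (nat_lit 0) (nat_lit 100) (nat_lit 96) (nat_lit 69) (nat_lit 48) (.trX (nat_lit 19) (nat_lit 100) (nat_lit 85) (nat_lit 84) (nat_lit 320) (.spl (nat_lit 5) (nat_lit 160)
(.spl (nat_lit 6) (nat_lit 20)
(.leaf p057_l48)
(.spl (nat_lit 0) (nat_lit 290)
(.leaf p057_l49)
(.trZ (nat_lit 0) (nat_lit 100) (nat_lit 94) (nat_lit 73) (nat_lit 56) (.leaf p057_l50))))
(.spl (nat_lit 3) (nat_lit 60)
(.trX (nat_lit 19) (nat_lit 100) (nat_lit 92) (nat_lit 75) (nat_lit 296) (.leaf p057_l51))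
(.leaf p057_l52))))))
(.trZ (nat_lit 0) (nat_lit 100) (nat_lit 88) (nat_lit 68) (nat_lit 48) (.spl (nat_lit 0) (nat_lit 310)
(.leaf p057_l53)
(.trZ (nat_lit 0) (nat_lit 100) (nat_lit 85) (nat_lit 72) (nat_lit 56) (.leaf p057_l54)))))
(.spl (nat_lit 1) (nat_lit 260)
(.spl (nat_lit 0) (nat_lit 300)
(.leaf p057_l55)
(.trZ (nat_lit 0) (nat_lit 100) (nat_lit 88) (nat_lit 68) (nat_lit 48) (.leaf p057_l56)))
(.trZ (nat_lit 0) (nat_lit 100) (nat_lit 96) (nat_lit 69) (nat_lit 48) (.trX (nat_lit 19) (nat_lit 100) (nat_lit 85) (nat_lit 84) (nat_lit 320) (.spl (nat_lit 0) (nat_lit 300)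
(.spl (nat_lit 0) (nat_lit 290)
(.leaf p057_l57)
(.trZ (nat_lit 0) (nat_lit 100) (nat_lit 94) (nat_lit 73) (nat_lit 56) (.leaf p057_l58)))
(.trZ (nat_lit 0) (nat_lit 100) (nat_lit 91) (nat_lit 77) (nat_lit 64) (.leaf p057_l59)))))))) (by decide +kernel)
noncomputable def p057_l60 : Lf2 := ⟨nat_lit 0, nat_lit 5, [nat_lit 4, nat_lit 5, nat_lit 5, nat_lit 20], false, nat_lit 0, nat_lit 80, nat_lit 0, nat_lit 160, ⟨nat_lit 178, nat_lit 0, nat_lit 822, nat_lit 6, nat_lit 162, nat_lit 0, nat_lit 26, nat_lit 461, nat_lit 4267, nat_lit 231, nat_lit 49489, nat_lit 269, nat_lit 57546022, nat_lit 0, nat_lit 0, nat_lit 2034812, false, false⟩,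
 nat_lit 2298, nat_lit 4576, nat_lit 0, nat_lit 0, nat_lit 4374, nat_lit 1216, nat_lit 0, nat_lit 0, nat_lit 0, nat_lit 149, nat_lit 0, nat_lit 0, nat_lit 0, nat_lit 0, nat_lit 75, nat_lit 822000, nat_lit 0, nat_lit 0, [(nat_lit 12, [(nat_lit 6, nat_lit 822)])],
 ⟨p057_k20, nat_lit 0, nat_lit 0, nat_lit 309, nat_lit 0, nat_lit 361993, [nat_lit 2422262401, nat_lit 1685612800, nat_lit 22696800], [], [nat_lit 14163823473, nat_lit 14802780311, nat_lit 15134548097, nat_lit 15706846543, nat_lit 12795310385, nat_lit 13393855447, nat_lit 15562282041, nat_lit 14531754519], nat_lit 1271250, nat_lit 1271250, nat_lit 490000, nat_lit 1100001, nat_lit 0, nat_lit 490000, [nat_lit 780000, nat_lit 1435000, nat_lit 1271250], [nat_lit 18, nat_lit 40, nat_lit 40, nat_lit 80, nat_lit 2, nat_lit 272, nat_lit 60, nat_lit 9]⟩, ⟨p057_k13, nat_lit 0, nat_lit 0, nat_lit 446, nat_lit 0, nat_lit 452522, [nat_lit 834464000, nat_lit 1418304000, nat_lit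 1751876000], [], [nat_lit 7665759576, nat_lit 7022814168, nat_lit 6615632268, nat_lit 6720764296, nat_lit 6342548208, nat_lit 6207000648, nat_lit 7467299128, nat_lit 6909432376], nat_lit 1271250, nat_lit 1271250, nat_lit 490000, nat_lit 1100001, nat_lit 0, nat_lit 1100001, [nat_lit 1100000, nat_lit 1785000, nat_lit 1271250], [nat_lit 29, nat_lit 40, nat_lit 40, nat_lit 80, nat_lit 17, nat_lit 373, nat_lit 150, nat_lit 11]⟩,
 ⟨nat_lit 5244, nat_lit 5478, ⟨.ofNat (nat_lit 317913), .ofNat (nat_lit 467779), .ofNat (nat_lit 339271), .ofNat (nat_lit 489134), .ofNat (nat_lit 323256), .ofNat (nat_lit 469597), .ofNat (nat_lit 344641), .ofNat (nat_lit 490981)⟩, ⟨.negSucc (nat_lit 45522), .ofNat (nat_lit 104343), .negSucc (nat_lit 2827), .ofNat (nat_lit 147057), .negSucc (nat_lit 36940), .ofNat (nat_lit 109402), .ofNat (nat_lit 0), .ofNat (nat_lit 152172)⟩⟩, []⟩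
noncomputable def p057_l61 : Lf2 := ⟨nat_lit 0, nat_lit 5, [nat_lit 4, nat_lit 5, nat_lit 5, nat_lit 20], false, nat_lit 0, nat_lit 80, nat_lit 0, nat_lit 160, ⟨nat_lit 338, nat_lit 0, nat_lit 662, nat_lit 6, nat_lit 164, nat_lit 0, nat_lit 27, nat_lit 346, nat_lit 5400, nat_lit 233, nat_lit 45067, nat_lit 267, nat_lit 57401771, nat_lit 0, nat_lit 0, nat_lit 2054160, false, false⟩,
 nat_lit 4808, nat_lit 2068, nat_lit 0, nat_lit 0, nat_lit 4566, nat_lit 2545, nat_lit 848, nat_lit 0, nat_lit 0, nat_lit 0, nat_lit 0, nat_lit 0, nat_lit 0, nat_lit 0, nat_lit 0, nat_lit 662000, nat_lit 0, nat_lit 0, [(nat_lit 12, [(nat_lit 6, nat_lit 662)])],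
 ⟨p057_k21, nat_lit 0, nat_lit 0, nat_lit 247, nat_lit 0, nat_lit 396845, [nat_lit 1864790401, nat_lit 1313300799], [], [nat_lit 15444512789, nat_lit 16202279424, nat_lit 16310422477, nat_lit 16894515291, nat_lit 13914793813, nat_lit 14526070971, nat_lit 15024839061, nat_lit 15341867075], nat_lit 1271250, nat_lit 1271250, nat_lit 490000, nat_lit 1100001, nat_lit 0, nat_lit 490000, [nat_lit 780000, nat_lit 1435000], [nat_lit 49, nat_lit 40, nat_lit 40, nat_lit 80, nat_lit 16, nat_lit 272, nat_lit 60, nat_lit 11]⟩, ⟨p057_k13, nat_lit 0, nat_lit 0, nat_lit 476, nat_lit 0, nat_lit 522005, [nat_lit 1584544000, nat_lit 2693184000, nat_lit 3326596000], [], [nat_lit 14915904856, nat_lit 13570266646, nat_lit 12894998712, nat_lit 13099456950, nat_lit 11795823108, nat_lit 11985090442, nat_lit 14065564920, nat_lit 12897990180], nat_lit 1271250, nat_lit 1271250, nat_lit 490000, nat_lit 1100001, nat_lit 0, nat_lit 1100001, [nat_lit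 1100000, nat_lit 1785000, nat_lit 1271250], [nat_lit 29, nat_lit 40, nat_lit 40, nat_lit 80, nat_lit 17, nat_lit 373, nat_lit 150, nat_lit 11]⟩,
 ⟨nat_lit 5000, nat_lit 5245, ⟨.ofNat (nat_lit 323256), .ofNat (nat_lit 469596), .ofNat (nat_lit 344641), .ofNat (nat_lit 490980), .ofNat (nat_lit 328570), .ofNat (nat_lit 471425), .ofNat (nat_lit 349999), .ofNat (nat_lit 492852)⟩, ⟨.negSucc (nat_lit 36940), .ofNat (nat_lit 109402), .ofNat (nat_lit 0), .ofNat (nat_lit 152172), .negSucc (nat_lit 28572), .ofNat (nat_lit 114284), .ofNat (nat_lit 0), .ofNat (nat_lit 157141)⟩⟩, []⟩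
noncomputable def p057_l62 : Lf2 := ⟨nat_lit 0, nat_lit 5, [nat_lit 4, nat_lit 5, nat_lit 5, nat_lit 20], false, nat_lit 80, nat_lit 160, nat_lit 0, nat_lit 160, ⟨nat_lit 190, nat_lit 0, nat_lit 810, nat_lit 6, nat_lit 163, nat_lit 810, nat_lit 82, nat_lit 810, nat_lit 62017, nat_lit 276, nat_lit 45067, nat_lit 267, nat_lit 53977813, nat_lit 0, nat_lit 0, nat_lit 3187020, false, false⟩,
 nat_lit 5519, nat_lit 2542, nat_lit 0, nat_lit 0, nat_lit 5129, nat_lit 2921, nat_lit 0, nat_lit 0, nat_lit 0, nat_lit 0, nat_lit 0, nat_lit 0, nat_lit 0, nat_lit 0, nat_lit 69, nat_lit 810000, nat_lit 0, nat_lit 0, [(nat_lit 12, [(nat_lit 6, nat_lit 810)])],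
 ⟨p057_k20, nat_lit 0, nat_lit 0, nat_lit 266, nat_lit 0, nat_lit 417576, [nat_lit 2375952001, nat_lit 1654144001, nat_lit 20964000], [], [nat_lit 12335191270, nat_lit 12700088582, nat_lit 13960176343, nat_lit 13550693694, nat_lit 13960176343, nat_lit 13550693694, nat_lit 19312364995, nat_lit 16959323407], nat_lit 1271250, nat_lit 1271250, nat_lit 490000, nat_lit 1100001, nat_lit 490000, nat_lit 1100001, [nat_lit 780000, nat_lit 1435000, nat_lit 1271250], [nat_lit 18, nat_lit 40, nat_lit 40, nat_lit 80, nat_lit 2, nat_lit 317, nat_lit 100, nat_lit 10]⟩, ⟨p057_k13, nat_lit 0, nat_lit 0, nat_lit 476, nat_lit 0, nat_lit 522005, [nat_lit 890720000, nat_lit 1513920000, nat_lit 1869980000], [], [nat_lit 10655778920, nat_lit 9111335222, nat_lit 4936724168, nat_lit 5091208258, nat_lit 5253578432, nat_lit 3838768714, nat_lit 7224158144, nat_lit 5847765418], nat_lit 1271250, nat_lit 1271250, nat_lit 490000, nat_lit 1100001, nat_lit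 0, nat_lit 1100001, [nat_lit 1100000, nat_lit 1785000, nat_lit 1271250], [nat_lit 29, nat_lit 40, nat_lit 40, nat_lit 80, nat_lit 17, nat_lit 373, nat_lit 150, nat_lit 11]⟩,
 ⟨nat_lit 5000, nat_lit 5478, ⟨.ofNat (nat_lit 317913), .ofNat (nat_lit 467773), .ofNat (nat_lit 339271), .ofNat (nat_lit 489121), .ofNat (nat_lit 328570), .ofNat (nat_lit 471421), .ofNat (nat_lit 349999), .ofNat (nat_lit 492840)⟩, ⟨.ofNat (nat_lit 104343), .ofNat (nat_lit 254209), .ofNat (nat_lit 147057), .ofNat (nat_lit 296923), .ofNat (nat_lit 114284), .ofNat (nat_lit 257141), .ofNat (nat_lit 157141), .ofNat (nat_lit 299999)⟩⟩, []⟩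
noncomputable def p057_l63 : Lf2 := ⟨nat_lit 0, nat_lit 10, [nat_lit 0, nat_lit 5, nat_lit 5, nat_lit 20], false, nat_lit 0, nat_lit 160, nat_lit 0, nat_lit 160, ⟨nat_lit 448, nat_lit 0, nat_lit 552, nat_lit 6, nat_lit 163, nat_lit 552, nat_lit 55, nat_lit 552, nat_lit 25350, nat_lit 254, nat_lit 45067, nat_lit 267, nat_lit 57474153, nat_lit 0, nat_lit 0, nat_lit 2044475, false, false⟩,
 nat_lit 6030, nat_lit 3746, nat_lit 0, nat_lit 0, nat_lit 6221, nat_lit 3192, nat_lit 578, nat_lit 0, nat_lit 0, nat_lit 0, nat_lit 0, nat_lit 0, nat_lit 0, nat_lit 0, nat_lit 0, nat_lit 552000, nat_lit 0, nat_lit 0, [(nat_lit 12, [(nat_lit 6, nat_lit 552)])],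
 ⟨p057_k0, nat_lit 0, nat_lit 0, nat_lit 329, nat_lit 0, nat_lit 242397, [nat_lit 2100278401, nat_lit 2177564801, nat_lit 1432390400], [], [nat_lit 16580501970, nat_lit 18412141344, nat_lit 16667535850, nat_lit 18474124920, nat_lit 15708874663, nat_lit 15170262454, nat_lit 21681087811, nat_lit 18827067199], nat_lit 1271250, nat_lit 1271250, nat_lit 490000, nat_lit 1100001, nat_lit 0, nat_lit 1100001, [nat_lit 780000, nat_lit 1435000, nat_lit 1271250], [nat_lit 8, nat_lit 40, nat_lit 40, nat_lit 80, nat_lit 1, nat_lit 317, nat_lit 100, nat_lit 9]⟩, ⟨p057_k3, nat_lit 0, nat_lit 0, nat_lit 420, nat_lit 0, nat_lit 304550, [nat_lit 2100224000, nat_lit 3569664000, nat_lit 5318656000], [], [nat_lit 19493990656, nat_lit 17806258960, nat_lit 16903528096, nat_lit 17248571872, nat_lit 15825115488, nat_lit 15707119456, nat_lit 18730616576, nat_lit 17266216352], nat_lit 1271250, nat_lit 1271250, nat_lit 490000, nat_lit 1100001, nat_lit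 0, nat_lit 1100001, [nat_lit 1100000, nat_lit 1785000, nat_lit 1271250], [nat_lit 21, nat_lit 40, nat_lit 40, nat_lit 80, nat_lit 14, nat_lit 373, nat_lit 150, nat_lit 10]⟩,
 ⟨nat_lit 5000, nat_lit 5478, ⟨.ofNat (nat_lit 317913), .ofNat (nat_lit 467773), .ofNat (nat_lit 339271), .ofNat (nat_lit 489121), .ofNat (nat_lit 328570), .ofNat (nat_lit 471421), .ofNat (nat_lit 349999), .ofNat (nat_lit 492840)⟩, ⟨.negSucc (nat_lit 45522), .ofNat (nat_lit 254209), .negSucc (nat_lit 2832), .ofNat (nat_lit 296923), .negSucc (nat_lit 28572), .ofNat (nat_lit 257141), .ofNat (nat_lit 0), .ofNat (nat_lit 299999)⟩⟩, []⟩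
noncomputable def p057_l64 : Lf2 := ⟨nat_lit 0, nat_lit 10, [nat_lit 0, nat_lit 5, nat_lit 5, nat_lit 20], false, nat_lit 0, nat_lit 160, nat_lit 0, nat_lit 160, ⟨nat_lit 295, nat_lit 0, nat_lit 705, nat_lit 6, nat_lit 166, nat_lit 381, nat_lit 56, nat_lit 705, nat_lit 26667, nat_lit 255, nat_lit 40017, nat_lit 264, nat_lit 57183995, nat_lit 0, nat_lit 0, nat_lit 2083013, false, false⟩,
 nat_lit 4582, nat_lit 1660, nat_lit 0, nat_lit 0, nat_lit 4321, nat_lit 2425, nat_lit 293, nat_lit 0, nat_lit 0, nat_lit 207, nat_lit 0, nat_lit 0, nat_lit 0, nat_lit 0, nat_lit 57, nat_lit 705000, nat_lit 0, nat_lit 0, [(nat_lit 15, [(nat_lit 6, nat_lit 705)])],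
 ⟨p057_k11, nat_lit 0, nat_lit 0, nat_lit 404, nat_lit 0, nat_lit 512338, [nat_lit 2343090000, nat_lit 1365634001, nat_lit 13926000], [], [nat_lit 18283882126, nat_lit 18164074104, nat_lit 16554136920, nat_lit 18611214888, nat_lit 15332705888, nat_lit 16558143376, nat_lit 20073405992, nat_lit 18116822624], nat_lit 1271250, nat_lit 1271250, nat_lit 490000, nat_lit 1100001, nat_lit 0, nat_lit 1100001, [nat_lit 780000, nat_lit 1435000, nat_lit 1271250], [nat_lit 18, nat_lit 40, nat_lit 40, nat_lit 80, nat_lit 2, nat_lit 317, nat_lit 100, nat_lit 10]⟩, ⟨p057_k3, nat_lit 0, nat_lit 0, nat_lit 662, nat_lit 0, nat_lit 713048, [nat_lit 1382960000, nat_lit 2350560000, nat_lit 3502240000], [], [nat_lit 13328835540, nat_lit 12065634400, nat_lit 11547006900, nat_lit 11670159560, nat_lit 10412860460, nat_lit 10526587120, nat_lit 12177787300, nat_lit 11065265200], nat_lit 1271250, nat_lit 1271250, nat_lit 490000, nat_lit 1100001, nat_lit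 0, nat_lit 1100001, [nat_lit 1100000, nat_lit 1785000, nat_lit 1271250], [nat_lit 21, nat_lit 40, nat_lit 40, nat_lit 80, nat_lit 14, nat_lit 373, nat_lit 150, nat_lit 10]⟩,
 ⟨nat_lit 4472, nat_lit 5000, ⟨.ofNat (nat_lit 328559), .ofNat (nat_lit 471408), .ofNat (nat_lit 349976), .ofNat (nat_lit 492824), .ofNat (nat_lit 339186), .ofNat (nat_lit 475134), .ofNat (nat_lit 360741), .ofNat (nat_lit 496688)⟩, ⟨.negSucc (nat_lit 28572), .ofNat (nat_lit 257141), .ofNat (nat_lit 0), .ofNat (nat_lit 299999), .negSucc (nat_lit 12423), .ofNat (nat_lit 259489), .ofNat (nat_lit 0), .ofNat (nat_lit 302621)⟩⟩, []⟩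
noncomputable def p057_l65 : Lf2 := ⟨nat_lit 0, nat_lit 5, [nat_lit 4, nat_lit 5, nat_lit 5, nat_lit 20], false, nat_lit 0, nat_lit 160, nat_lit 0, nat_lit 160, ⟨nat_lit 1000, nat_lit 0, nat_lit 0, nat_lit 0, nat_lit 0, nat_lit 0, nat_lit 0, nat_lit 0, nat_lit 0, nat_lit 0, nat_lit 0, nat_lit 0, nat_lit 0, nat_lit 0, nat_lit 0, nat_lit 0, false, false⟩,
 nat_lit 10130, nat_lit 5943, nat_lit 0, nat_lit 0, nat_lit 10228, nat_lit 5896, nat_lit 690, nat_lit 0, nat_lit 0, nat_lit 2886, nat_lit 0, nat_lit 0, nat_lit 0, nat_lit 0, nat_lit 0, nat_lit 0, nat_lit 0, nat_lit 0, [],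
 ⟨p057_k20, nat_lit 0, nat_lit 0, nat_lit 392, nat_lit 0, nat_lit 499481, [nat_lit 3282000000, nat_lit 6250000000, nat_lit 7968000000], [], [nat_lit 26930948224, nat_lit 24221463960, nat_lit 21759325768, nat_lit 23335694824, nat_lit 16631391048, nat_lit 17967505808, nat_lit 23703912544, nat_lit 19011592528], nat_lit 1271250, nat_lit 1271250, nat_lit 490000, nat_lit 1100001, nat_lit 0, nat_lit 1100001, [nat_lit 780000, nat_lit 1435000, nat_lit 1271250], [nat_lit 18, nat_lit 40, nat_lit 40, nat_lit 80, nat_lit 2, nat_lit 317, nat_lit 100, nat_lit 11]⟩, ⟨p057_k14, nat_lit 0, nat_lit 0, nat_lit 401, nat_lit 0, nat_lit 556091, [nat_lit 4688000000, nat_lit 7968000000], [], [nat_lit 33761233392, nat_lit 30643794144, nat_lit 26825643824, nat_lit 26804642656, nat_lit 29074901584, nat_lit 26296671008, nat_lit 34935894496, nat_lit 32230974784], nat_lit 1271250, nat_lit 1271250, nat_lit 490000, nat_lit 1100001, nat_lit 0, nat_lit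 1100001, [nat_lit 1100000, nat_lit 1785000], [nat_lit 39, nat_lit 40, nat_lit 40, nat_lit 80, nat_lit 7, nat_lit 317, nat_lit 100, nat_lit 11]⟩,
 zbF0, []⟩
noncomputable def p057_l66 : Lf2 := ⟨nat_lit 0, nat_lit 10, [nat_lit 0, nat_lit 5, nat_lit 5, nat_lit 20], false, nat_lit 0, nat_lit 160, nat_lit 0, nat_lit 160, ⟨nat_lit 1000, nat_lit 0, nat_lit 0, nat_lit 0, nat_lit 0, nat_lit 0, nat_lit 0, nat_lit 0, nat_lit 0, nat_lit 0, nat_lit 0, nat_lit 0, nat_lit 0, nat_lit 0, nat_lit 0, nat_lit 0, false, false⟩,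
 nat_lit 10317, nat_lit 4704, nat_lit 0, nat_lit 0, nat_lit 9558, nat_lit 6005, nat_lit 1472, nat_lit 0, nat_lit 0, nat_lit 478, nat_lit 0, nat_lit 0, nat_lit 0, nat_lit 0, nat_lit 0, nat_lit 0, nat_lit 0, nat_lit 0, [],
 ⟨p057_k0, nat_lit 0, nat_lit 0, nat_lit 361, nat_lit 0, nat_lit 329336, [nat_lit 3282000000, nat_lit 6250000000, nat_lit 9842000000], [], [nat_lit 20564070280, nat_lit 22870945140, nat_lit 20483358208, nat_lit 22510287776, nat_lit 17058234680, nat_lit 17175760296, nat_lit 24925156384, nat_lit 20540213608], nat_lit 1271250, nat_lit 1271250, nat_lit 490000, nat_lit 1100001, nat_lit 0, nat_lit 1100001, [nat_lit 780000, nat_lit 1435000, nat_lit 1271250], [nat_lit 8, nat_lit 40, nat_lit 40, nat_lit 80, nat_lit 1, nat_lit 317, nat_lit 100, nat_lit 9]⟩, ⟨p057_k2, nat_lit 0, nat_lit 0, nat_lit 386, nat_lit 0, nat_lit 367534, [nat_lit 4688000000, nat_lit 7968000000, nat_lit 9842000000], [], [nat_lit 37842899510,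 nat_lit 34667827820, nat_lit 33363869150, nat_lit 34190831580, nat_lit 32882231270, nat_lit 31550265480, nat_lit 38806468380, nat_lit 36051542520], nat_lit 1271250, nat_lit 1271250, nat_lit 490000, nat_lit 1100001, nat_lit 0, nat_lit 1100001, [nat_lit 1100000, nat_lit 1785000, nat_lit 1271250], [nat_lit 29, nat_lit 40, nat_lit 40, nat_lit 80, nat_lit 17, nat_lit 373, nat_lit 150, nat_lit 11]⟩,
 zbF0, []⟩
noncomputable def p057_l67 : Lf2 := ⟨nat_lit 0, nat_lit 10, [nat_lit 0, nat_lit 5, nat_lit 5, nat_lit 20], false, nat_lit 0, nat_lit 160, nat_lit 0, nat_lit 160, ⟨nat_lit 585, nat_lit 0, nat_lit 415, nat_lit 6, nat_lit 174, nat_lit 415, nat_lit 56, nat_lit 415, nat_lit 26667, nat_lit 255, nat_lit 19267, nat_lit 249, nat_lit 56306239, nat_lit 0, nat_lit 0, nat_lit 2195098, false, false⟩,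
 nat_lit 6888, nat_lit 1109, nat_lit 0, nat_lit 0, nat_lit 5536, nat_lit 4009, nat_lit 480, nat_lit 0, nat_lit 0, nat_lit 629, nat_lit 0, nat_lit 0, nat_lit 0, nat_lit 0, nat_lit 0, nat_lit 415000, nat_lit 0, nat_lit 0, [(nat_lit 15, [(nat_lit 6, nat_lit 415)])],
 ⟨p057_k11, nat_lit 0, nat_lit 0, nat_lit 432, nat_lit 0, nat_lit 582261, [nat_lit 2326670000, nat_lit 2703742000, nat_lit 2480538000], [], [nat_lit 20419042000, nat_lit 20169339264, nat_lit 18889096960, nat_lit 20173617408, nat_lit 16937260256, nat_lit 17867956576, nat_lit 20926248256, nat_lit 18419503168], nat_lit 1271250, nat_lit 1271250, nat_lit 490000, nat_lit 1100001, nat_lit 0, nat_lit 1100001, [nat_lit 780000, nat_lit 1435000, nat_lit 1271250], [nat_lit 18, nat_lit 40, nat_lit 40, nat_lit 80, nat_lit 2, nat_lit 317, nat_lit 100, nat_lit 10]⟩, ⟨p057_k2, nat_lit 0, nat_lit 0, nat_lit 581, nat_lit 0, nat_lit 719790, [nat_lit 2742480000, nat_lit 4661280000,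 nat_lit 5757570000], [], [nat_lit 22055280938, nat_lit 20346041124, nat_lit 19735732056, nat_lit 20051629392, nat_lit 18217240324, nat_lit 18509531728, nat_lit 21658256984, nat_lit 19819040036], nat_lit 1271250, nat_lit 1271250, nat_lit 490000, nat_lit 1100001, nat_lit 0, nat_lit 1100001, [nat_lit 1100000, nat_lit 1785000, nat_lit 1271250], [nat_lit 29, nat_lit 40, nat_lit 40, nat_lit 80, nat_lit 17, nat_lit 373, nat_lit 150, nat_lit 11]⟩,
 ⟨nat_lit 4472, nat_lit 5000, ⟨.ofNat (nat_lit 349976), .ofNat (nat_lit 492824), .ofNat (nat_lit 371392), .ofNat (nat_lit 514240), .ofNat (nat_lit 360741), .ofNat (nat_lit 496688), .ofNat (nat_lit 382295), .ofNat (nat_lit 518242)⟩, ⟨.negSucc (nat_lit 28572), .ofNat (nat_lit 257141), .ofNat (nat_lit 0), .ofNat (nat_lit 299999), .negSucc (nat_lit 12423), .ofNat (nat_lit 259489), .ofNat (nat_lit 0), .ofNat (nat_lit 302621)⟩⟩, [⟨nat_lit 0, nat_lit 100, nat_lit 89, nat_lit 86, nat_lit 77709825⟩]⟩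
noncomputable def p057_l68 : Lf2 := ⟨nat_lit 0, nat_lit 10, [nat_lit 0, nat_lit 5, nat_lit 5, nat_lit 20], false, nat_lit 0, nat_lit 40, nat_lit 160, nat_lit 312, ⟨nat_lit 255, nat_lit 0, nat_lit 745, nat_lit 6, nat_lit 164, nat_lit 0, nat_lit 11, nat_lit 568, nat_lit 417, nat_lit 220, nat_lit 40017, nat_lit 264, nat_lit 57330371, nat_lit 0, nat_lit 0, nat_lit 2063666, false, false⟩,
 nat_lit 6095, nat_lit 997, nat_lit 0, nat_lit 0, nat_lit 4513, nat_lit 3226, nat_lit 220, nat_lit 0, nat_lit 0, nat_lit 371, nat_lit 0, nat_lit 0, nat_lit 0, nat_lit 0, nat_lit 64, nat_lit 745000, nat_lit 0, nat_lit 0, [(nat_lit 12, [(nat_lit 6, nat_lit 745)]), (nat_lit 15, [(nat_lit 6, nat_lit 745)])],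
 ⟨p057_k0, nat_lit 0, nat_lit 0, nat_lit 481, nat_lit 0, nat_lit 535190, [nat_lit 2455104001, nat_lit 2033688000, nat_lit 386884000], [], [nat_lit 16457195461, nat_lit 18489092265, nat_lit 20360067626, nat_lit 19087400531, nat_lit 16262666248, nat_lit 17890265415, nat_lit 21263508916, nat_lit 18480599191], nat_lit 1271250, nat_lit 1271250, nat_lit 490000, nat_lit 1100001, nat_lit 0, nat_lit 230001, [nat_lit 780000, nat_lit 1435000, nat_lit 1271250], [nat_lit 8, nat_lit 40, nat_lit 40, nat_lit 80, nat_lit 1, nat_lit 260, nat_lit 50, nat_lit 8]⟩, ⟨p057_k3, nat_lit 0, nat_lit 0, nat_lit 509, nat_lit 0, nat_lit 669033, [nat_lit 1195440000, nat_lit 2031840000, nat_lit 3027360000], [], [nat_lit 5991314524, nat_lit 4464835246, nat_lit 8100662832, nat_lit 6538123924, nat_lit 5791587657, nat_lit 6060388330, nat_lit 5085910053, nat_lit 5524295233], nat_lit 1271250, nat_lit 1271250, nat_lit 490000, nat_lit 1100001, nat_lit 1271250,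 nat_lit 1271250, [nat_lit 1100000, nat_lit 1785000, nat_lit 1271250], [nat_lit 21, nat_lit 40, nat_lit 40, nat_lit 80, nat_lit 14, nat_lit 428, nat_lit 200, nat_lit 11]⟩,
 ⟨nat_lit 4472, nat_lit 5478, ⟨.ofNat (nat_lit 317898), .ofNat (nat_lit 467727), .ofNat (nat_lit 339222), .ofNat (nat_lit 489040), .ofNat (nat_lit 339182), .ofNat (nat_lit 475101), .ofNat (nat_lit 360715), .ofNat (nat_lit 496623)⟩, ⟨.negSucc (nat_lit 45522), .ofNat (nat_lit 29410), .negSucc (nat_lit 24173), .ofNat (nat_lit 50767), .negSucc (nat_lit 12423), .ofNat (nat_lit 55554), .ofNat (nat_lit 0), .ofNat (nat_lit 77121)⟩⟩, [⟨nat_lit 7, nat_lit 92, nat_lit 100, nat_lit 68, nat_lit 60752535⟩]⟩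
noncomputable def p057_l69 : Lf2 := ⟨nat_lit 0, nat_lit 10, [nat_lit 0, nat_lit 5, nat_lit 5, nat_lit 20], false, nat_lit 40, nat_lit 80, nat_lit 160, nat_lit 312, ⟨nat_lit 180, nat_lit 0, nat_lit 820, nat_lit 6, nat_lit 164, nat_lit 820, nat_lit 36, nat_lit 820, nat_lit 12150, nat_lit 242, nat_lit 40017, nat_lit 264, nat_lit 56310908, nat_lit 0, nat_lit 0, nat_lit 2509068, false, false⟩,
 nat_lit 4379, nat_lit 2442, nat_lit 0, nat_lit 0, nat_lit 4340, nat_lit 2318, nat_lit 143, nat_lit 0, nat_lit 0, nat_lit 258, nat_lit 0, nat_lit 0, nat_lit 0, nat_lit 0, nat_lit 105, nat_lit 820000, nat_lit 0, nat_lit 0, [(nat_lit 12, [(nat_lit 6, nat_lit 820)]), (nat_lit 15, [(nat_lit 6, nat_lit 820)])],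
 ⟨p057_k0, nat_lit 0, nat_lit 0, nat_lit 451, nat_lit 0, nat_lit 535190, [nat_lit 2786544001, nat_lit 2300368000, nat_lit 402624000], [], [nat_lit 16336315242, nat_lit 16440663801, nat_lit 15674625643, nat_lit 17070736240, nat_lit 13907682081, nat_lit 15778236081, nat_lit 17110004323, nat_lit 16427043762], nat_lit 1271250, nat_lit 1271250, nat_lit 490000, nat_lit 1100001, nat_lit 230001, nat_lit 490000, [nat_lit 780000, nat_lit 1435000, nat_lit 1271250], [nat_lit 8, nat_lit 40, nat_lit 40, nat_lit 80, nat_lit 1, nat_lit 272, nat_lit 60, nat_lit 8]⟩, ⟨p057_k3, nat_lit 0, nat_lit 0, nat_lit 509, nat_lit 0, nat_lit 669033, [nat_lit 843840000, nat_lit 1434240000, nat_lit 2136960000], [], [nat_lit 4193955512, nat_lit 3040841348, nat_lit 5701726416, nat_lit 4578984572, nat_lit 4102501784, nat_lit 4294300146, nat_lit 3573955235, nat_lit 3908096654], nat_lit 1271250, nat_lit 1271250, nat_lit 490000, nat_lit 1100001, nat_lit 1271250,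 nat_lit 1271250, [nat_lit 1100000, nat_lit 1785000, nat_lit 1271250], [nat_lit 21, nat_lit 40, nat_lit 40, nat_lit 80, nat_lit 14, nat_lit 428, nat_lit 200, nat_lit 11]⟩,
 ⟨nat_lit 4472, nat_lit 5478, ⟨.ofNat (nat_lit 317898), .ofNat (nat_lit 467727), .ofNat (nat_lit 339222), .ofNat (nat_lit 489040), .ofNat (nat_lit 339182), .ofNat (nat_lit 475101), .ofNat (nat_lit 360715), .ofNat (nat_lit 496623)⟩, ⟨.ofNat (nat_lit 29410), .ofNat (nat_lit 104343), .ofNat (nat_lit 50767), .ofNat (nat_lit 125700), .ofNat (nat_lit 55554), .ofNat (nat_lit 123532), .ofNat (nat_lit 77121), .ofNat (nat_lit 145099)⟩⟩, [⟨nat_lit 0, nat_lit 100, nat_lit 84, nat_lit 85, nat_lit 12243459⟩, ⟨nat_lit 7, nat_lit 92, nat_lit 100, nat_lit 68, nat_lit 119716539⟩]⟩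
noncomputable def p057_l70 : Lf2 := ⟨nat_lit 0, nat_lit 10, [nat_lit 0, nat_lit 5, nat_lit 5, nat_lit 20], false, nat_lit 80, nat_lit 160, nat_lit 160, nat_lit 312, ⟨nat_lit 234, nat_lit 0, nat_lit 766, nat_lit 6, nat_lit 164, nat_lit 766, nat_lit 78, nat_lit 766, nat_lit 58017, nat_lit 274, nat_lit 40017, nat_lit 264, nat_lit 54036284, nat_lit 0, nat_lit 0, nat_lit 3158770, false, false⟩,
 nat_lit 5462, nat_lit 2301, nat_lit 0, nat_lit 0, nat_lit 4939, nat_lit 2891, nat_lit 238, nat_lit 0, nat_lit 0, nat_lit 350, nat_lit 0, nat_lit 0, nat_lit 0, nat_lit 0, nat_lit 75, nat_lit 766000, nat_lit 0, nat_lit 0, [(nat_lit 12, [(nat_lit 6, nat_lit 766)]), (nat_lit 15, [(nat_lit 6, nat_lit 766)])],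
 ⟨p057_k0, nat_lit 0, nat_lit 0, nat_lit 380, nat_lit 0, nat_lit 535190, [nat_lit 2542147201, nat_lit 2098758400, nat_lit 377851200], [], [nat_lit 13288668588, nat_lit 15257516828, nat_lit 15157802941, nat_lit 15666083816, nat_lit 15157802941, nat_lit 15666083816, nat_lit 20402111873, nat_lit 16355698160], nat_lit 1271250, nat_lit 1271250, nat_lit 490000, nat_lit 1100001, nat_lit 490000, nat_lit 1100001, [nat_lit 780000, nat_lit 1435000, nat_lit 1271250], [nat_lit 8, nat_lit 40, nat_lit 40, nat_lit 80, nat_lit 1, nat_lit 317, nat_lit 100, nat_lit 9]⟩, ⟨p057_k3, nat_lit 0, nat_lit 0, nat_lit 509, nat_lit 0, nat_lit 669033, [nat_lit 1096992000, nat_lit 1864512000, nat_lit 2778048000], [], [nat_lit 5557704332, nat_lit 4285323338, nat_lit 7461381576, nat_lit 6061102598, nat_lit 5270591602, nat_lit 5518893303, nat_lit 4730131852, nat_lit 5054758100], nat_lit 1271250, nat_lit 1271250, nat_lit 490000, nat_lit 1100001, nat_lit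 1271250, nat_lit 1271250, [nat_lit 1100000, nat_lit 1785000, nat_lit 1271250], [nat_lit 21, nat_lit 40, nat_lit 40, nat_lit 80, nat_lit 14, nat_lit 428, nat_lit 200, nat_lit 11]⟩,
 ⟨nat_lit 4472, nat_lit 5478, ⟨.ofNat (nat_lit 317898), .ofNat (nat_lit 467727), .ofNat (nat_lit 339222), .ofNat (nat_lit 489040), .ofNat (nat_lit 339182), .ofNat (nat_lit 475101), .ofNat (nat_lit 360715), .ofNat (nat_lit 496623)⟩, ⟨.ofNat (nat_lit 104343), .ofNat (nat_lit 254209), .ofNat (nat_lit 125700), .ofNat (nat_lit 275566), .ofNat (nat_lit 123532), .ofNat (nat_lit 259489), .ofNat (nat_lit 145099), .ofNat (nat_lit 281055)⟩⟩, [⟨nat_lit 19, nat_lit 100, nat_lit 92, nat_lit 68, nat_lit 27837059⟩]⟩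
noncomputable def p057_l71 : Lf2 := ⟨nat_lit 0, nat_lit 10, [nat_lit 0, nat_lit 5, nat_lit 5, nat_lit 20], false, nat_lit 0, nat_lit 160, nat_lit 160, nat_lit 336, ⟨nat_lit 402, nat_lit 0, nat_lit 598, nat_lit 6, nat_lit 163, nat_lit 598, nat_lit 58, nat_lit 598, nat_lit 29400, nat_lit 257, nat_lit 45067, nat_lit 267, nat_lit 57474153, nat_lit 0, nat_lit 0, nat_lit 2044475, false, false⟩,
 nat_lit 8579, nat_lit 338, nat_lit 0, nat_lit 0, nat_lit 5674, nat_lit 4541, nat_lit 565, nat_lit 0, nat_lit 0, nat_lit 546, nat_lit 0, nat_lit 0, nat_lit 0, nat_lit 0, nat_lit 0, nat_lit 561400, nat_lit 0, nat_lit 0, [(nat_lit 12, [(nat_lit 5, nat_lit 61), (nat_lit 6, nat_lit 537)])],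
 ⟨p057_k0, nat_lit 0, nat_lit 0, nat_lit 358, nat_lit 0, nat_lit 321656, [nat_lit 2007877201, nat_lit 1874364134, nat_lit 910612400], [], [nat_lit 16032143108, nat_lit 17682853621, nat_lit 16741762892, nat_lit 18209023596, nat_lit 16317697509, nat_lit 15570225156, nat_lit 21979330621, nat_lit 19376258293], nat_lit 1271250, nat_lit 1271250, nat_lit 490000, nat_lit 1100001, nat_lit 0, nat_lit 1100001, [nat_lit 780000, nat_lit 1435000, nat_lit 1271250], [nat_lit 8, nat_lit 40, nat_lit 40, nat_lit 80, nat_lit 1, nat_lit 317, nat_lit 100, nat_lit 9]⟩, ⟨p057_k3, nat_lit 0, nat_lit 0, nat_lit 352, nat_lit 0, nat_lit 404132, [nat_lit 1884576000, nat_lit 3203136000, nat_lit 4772544000], [], [nat_lit 9914894948, nat_lit 7652178222, nat_lit 12989123064, nat_lit 10789653386, nat_lit 10450124864, nat_lit 10768999202, nat_lit 9587388212, nat_lit 9928136999], nat_lit 1271250, nat_lit 1271250, nat_lit 490000, nat_lit 1100001, nat_lit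 1271250, nat_lit 1271250, [nat_lit 1100000, nat_lit 1785000, nat_lit 1271250], [nat_lit 21, nat_lit 40, nat_lit 40, nat_lit 80, nat_lit 14, nat_lit 428, nat_lit 200, nat_lit 11]⟩,
 ⟨nat_lit 5000, nat_lit 5478, ⟨.ofNat (nat_lit 317913), .ofNat (nat_lit 467773), .ofNat (nat_lit 339271), .ofNat (nat_lit 489121), .ofNat (nat_lit 328570), .ofNat (nat_lit 471421), .ofNat (nat_lit 349999), .ofNat (nat_lit 492840)⟩, ⟨.negSucc (nat_lit 24165), .ofNat (nat_lit 275566), .negSucc (nat_lit 2832), .ofNat (nat_lit 296923), .negSucc (nat_lit 7143), .ofNat (nat_lit 278570), .ofNat (nat_lit 0), .ofNat (nat_lit 299999)⟩⟩, [⟨nat_lit 7, nat_lit 85, nat_lit 100, nat_lit 78, nat_lit 45871807⟩]⟩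
noncomputable def p057_l72 : Lf2 := ⟨nat_lit 0, nat_lit 10, [nat_lit 0, nat_lit 5, nat_lit 5, nat_lit 20], false, nat_lit 0, nat_lit 160, nat_lit 160, nat_lit 336, ⟨nat_lit 307, nat_lit 0, nat_lit 693, nat_lit 6, nat_lit 166, nat_lit 693, nat_lit 58, nat_lit 693, nat_lit 30817, nat_lit 258, nat_lit 40017, nat_lit 264, nat_lit 57183995, nat_lit 0, nat_lit 0, nat_lit 2083013, false, false⟩,
 nat_lit 6542, nat_lit 0, nat_lit 0, nat_lit 0, nat_lit 4529, nat_lit 3463, nat_lit 0, nat_lit 0, nat_lit 0, nat_lit 417, nat_lit 0, nat_lit 0, nat_lit 0, nat_lit 0, nat_lit 50, nat_lit 689400, nat_lit 0, nat_lit 0, [(nat_lit 15, [(nat_lit 5, nat_lit 6), (nat_lit 6, nat_lit 687)])],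
 ⟨p057_k11, nat_lit 0, nat_lit 0, nat_lit 361, nat_lit 0, nat_lit 400761, [nat_lit 2288725200, nat_lit 1336166001, nat_lit 22726800], [], [nat_lit 18784944151, nat_lit 18507362296, nat_lit 16764325080, nat_lit 18878687912, nat_lit 15443377134, nat_lit 16412903358, nat_lit 20270293585, nat_lit 18219526153], nat_lit 1271250, nat_lit 1271250, nat_lit 490000, nat_lit 1100001, nat_lit 0, nat_lit 1100001, [nat_lit 780000, nat_lit 1435000, nat_lit 1271250], [nat_lit 18, nat_lit 40, nat_lit 40, nat_lit 80, nat_lit 2, nat_lit 317, nat_lit 100, nat_lit 10]⟩, ⟨p057_k3, nat_lit 0, nat_lit 0, nat_lit 418, nat_lit 0, nat_lit 557760, [nat_lit 1439216000, nat_lit 2446176000, nat_lit 3644704000], [], [nat_lit 7576029816, nat_lit 5850465398, nat_lit 9921512488, nat_lit 8244180734, nat_lit 7987983956, nat_lit 8230895472, nat_lit 7330698869, nat_lit 7579842647], nat_lit 1271250, nat_lit 1271250, nat_lit 490000, nat_lit 1100001, nat_lit 1271250,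 nat_lit 1271250, [nat_lit 1100000, nat_lit 1785000, nat_lit 1271250], [nat_lit 21, nat_lit 40, nat_lit 40, nat_lit 80, nat_lit 14, nat_lit 428, nat_lit 200, nat_lit 11]⟩,
 ⟨nat_lit 4472, nat_lit 5000, ⟨.ofNat (nat_lit 328559), .ofNat (nat_lit 471408), .ofNat (nat_lit 349976), .ofNat (nat_lit 492824), .ofNat (nat_lit 339186), .ofNat (nat_lit 475134), .ofNat (nat_lit 360741), .ofNat (nat_lit 496688)⟩, ⟨.negSucc (nat_lit 7143), .ofNat (nat_lit 278570), .ofNat (nat_lit 0), .ofNat (nat_lit 299999), .ofNat (nat_lit 0), .ofNat (nat_lit 281055), .ofNat (nat_lit 0), .ofNat (nat_lit 302621)⟩⟩, [⟨nat_lit 7, nat_lit 85, nat_lit 100, nat_lit 78, nat_lit 124914741⟩]⟩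
noncomputable def p057_l73 : Lf2 := ⟨nat_lit 0, nat_lit 10, [nat_lit 0, nat_lit 5, nat_lit 5, nat_lit 20], false, nat_lit 0, nat_lit 160, nat_lit 160, nat_lit 320, ⟨nat_lit 1000, nat_lit 0, nat_lit 0, nat_lit 0, nat_lit 0, nat_lit 0, nat_lit 0, nat_lit 0, nat_lit 0, nat_lit 0, nat_lit 0, nat_lit 0, nat_lit 0, nat_lit 0, nat_lit 0, nat_lit 0, false, false⟩,
 nat_lit 14893, nat_lit 0, nat_lit 0, nat_lit 0, nat_lit 9477, nat_lit 8669, nat_lit 1136, nat_lit 0, nat_lit 0, nat_lit 1822, nat_lit 0, nat_lit 0, nat_lit 0, nat_lit 0, nat_lit 0, nat_lit 0, nat_lit 0, nat_lit 0, [],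
 ⟨p057_k0, nat_lit 0, nat_lit 0, nat_lit 476, nat_lit 0, nat_lit 529661, [nat_lit 3282000000, nat_lit 6250000000, nat_lit 9842000000], [], [nat_lit 27362917416, nat_lit 24972857358, nat_lit 22561729368, nat_lit 24077408452, nat_lit 18008987980, nat_lit 19416452330, nat_lit 25072799296, nat_lit 20725017052], nat_lit 1271250, nat_lit 1271250, nat_lit 490000, nat_lit 1100001, nat_lit 0, nat_lit 1100001, [nat_lit 780000, nat_lit 1435000, nat_lit 1271250], [nat_lit 8, nat_lit 40, nat_lit 40, nat_lit 80, nat_lit 1, nat_lit 317, nat_lit 100, nat_lit 9]⟩, ⟨p057_k2, nat_lit 0, nat_lit 0, nat_lit 376, nat_lit 0, nat_lit 591092, [nat_lit 4688000000, nat_lit 7968000000, nat_lit 9842000000], [], [nat_lit 19941972750, nat_lit 18172627836, nat_lit 26160663786, nat_lit 21961764284, nat_lit 23588318354, nat_lit 24361584248, nat_lit 22311331064, nat_lit 23161798524], nat_lit 1271250, nat_lit 1271250, nat_lit 490000, nat_lit 1100001, nat_lit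 1271250, nat_lit 1271250, [nat_lit 1100000, nat_lit 1785000, nat_lit 1271250], [nat_lit 29, nat_lit 40, nat_lit 40, nat_lit 80, nat_lit 17, nat_lit 428, nat_lit 200, nat_lit 12]⟩,
 zbF0, [⟨nat_lit 7, nat_lit 97, nat_lit 100, nat_lit 76, nat_lit 452503942⟩]⟩
noncomputable def p057_l74 : Lf2 := ⟨nat_lit 0, nat_lit 10, [nat_lit 0, nat_lit 5, nat_lit 5, nat_lit 20], false, nat_lit 0, nat_lit 160, nat_lit 160, nat_lit 320, ⟨nat_lit 503, nat_lit 0, nat_lit 497, nat_lit 6, nat_lit 174, nat_lit 497, nat_lit 56, nat_lit 497, nat_lit 26667, nat_lit 255, nat_lit 19267, nat_lit 249, nat_lit 56306239, nat_lit 0, nat_lit 0, nat_lit 2195098, false, false⟩,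
 nat_lit 7721, nat_lit 0, nat_lit 0, nat_lit 0, nat_lit 5345, nat_lit 4494, nat_lit 174, nat_lit 0, nat_lit 0, nat_lit 824, nat_lit 0, nat_lit 0, nat_lit 0, nat_lit 0, nat_lit 0, nat_lit 497000, nat_lit 0, nat_lit 0, [(nat_lit 15, [(nat_lit 6, nat_lit 497)])],
 ⟨p057_k11, nat_lit 0, nat_lit 0, nat_lit 432, nat_lit 0, nat_lit 582261, [nat_lit 2137906000, nat_lit 2003035601, nat_lit 1396268400], [], [nat_lit 20131019601, nat_lit 19864968192, nat_lit 18969960872, nat_lit 20092566750, nat_lit 17045300923, nat_lit 17961697073, nat_lit 20755988971, nat_lit 18335730211], nat_lit 1271250, nat_lit 1271250, nat_lit 490000, nat_lit 1100001, nat_lit 0, nat_lit 1100001, [nat_lit 780000, nat_lit 1435000, nat_lit 1271250], [nat_lit 18, nat_lit 40, nat_lit 40, nat_lit 80, nat_lit 2, nat_lit 317, nat_lit 100, nat_lit 10]⟩, ⟨p057_k2, nat_lit 0, nat_lit 0, nat_lit 457, nat_lit 0, nat_lit 719790, [nat_lit 2358064000, nat_lit 4007904000, nat_lit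 4950526000], [], [nat_lit 9885538536, nat_lit 10226715996, nat_lit 13193133884, nat_lit 11016429032, nat_lit 11960460034, nat_lit 12353754772, nat_lit 11275496428, nat_lit 11701338152], nat_lit 1271250, nat_lit 1271250, nat_lit 490000, nat_lit 1100001, nat_lit 1271250, nat_lit 1271250, [nat_lit 1100000, nat_lit 1785000, nat_lit 1271250], [nat_lit 29, nat_lit 40, nat_lit 40, nat_lit 80, nat_lit 17, nat_lit 428, nat_lit 200, nat_lit 12]⟩,
 ⟨nat_lit 4472, nat_lit 5000, ⟨.ofNat (nat_lit 349976), .ofNat (nat_lit 492824), .ofNat (nat_lit 371392), .ofNat (nat_lit 514240), .ofNat (nat_lit 360741), .ofNat (nat_lit 496688), .ofNat (nat_lit 382295), .ofNat (nat_lit 518242)⟩, ⟨.negSucc (nat_lit 28572), .ofNat (nat_lit 257141), .ofNat (nat_lit 0), .ofNat (nat_lit 299999), .negSucc (nat_lit 12423), .ofNat (nat_lit 259489), .ofNat (nat_lit 0), .ofNat (nat_lit 302621)⟩⟩, [⟨nat_lit 0, nat_lit 100, nat_lit 89, nat_lit 86, nat_lit 32679241⟩,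 ⟨nat_lit 7, nat_lit 97, nat_lit 100, nat_lit 76, nat_lit 236100912⟩]⟩
noncomputable def b_V_700_600_10_14 : St := ⟨true, nat_lit 1, nat_lit 1, nat_lit 1, nat_lit 80, nat_lit 280, nat_lit 320, nat_lit 240, nat_lit 280, nat_lit 80, nat_lit 160, nat_lit 40, nat_lit 80, nat_lit 0, nat_lit 160, nat_lit 0, nat_lit 336, nat_lit 0, nat_lit 40, nat_lit 0, nat_lit 0, nat_lit 0, nat_lit 0⟩
theorem d_V_700_600_10_14 (h : EB TB.env) : Dead b_V_700_600_10_14 := chkB_sound0 h (T :=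
(.spl (nat_lit 5) (nat_lit 160)
(.spl (nat_lit 1) (nat_lit 260)
(.spl (nat_lit 0) (nat_lit 300)
(.spl (nat_lit 6) (nat_lit 20)
(.spl (nat_lit 4) (nat_lit 80)
(.spl (nat_lit 0) (nat_lit 290)
(.leaf p057_l60)
(.leaf p057_l61))
(.leaf p057_l62))
(.leaf p057_l63))
(.leaf p057_l64))
(.spl (nat_lit 0) (nat_lit 300)
(.spl (nat_lit 6) (nat_lit 20)
(.leaf p057_l65)
(.leaf p057_l66))
(.leaf p057_l67)))
(.spl (nat_lit 1) (nat_lit 260)
(.spl (nat_lit 3) (nat_lit 60)
(.trX (nat_lit 19) (nat_lit 100) (nat_lit 85) (nat_lit 73) (nat_lit 312) (.spl (nat_lit 4) (nat_lit 80)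
(.spl (nat_lit 4) (nat_lit 40)
(.leaf p057_l68)
(.leaf p057_l69))
(.leaf p057_l70)))
(.spl (nat_lit 0) (nat_lit 300)
(.leaf p057_l71)
(.leaf p057_l72)))
(.trX (nat_lit 19) (nat_lit 100) (nat_lit 85) (nat_lit 84) (nat_lit 320) (.spl (nat_lit 0) (nat_lit 300)
(.leaf p057_l73)
(.leaf p057_l74)))))) (by decide +kernel)
noncomputable def p057_l75 : Lf2 := ⟨nat_lit 0, nat_lit 10, [nat_lit 0, nat_lit 5, nat_lit 5, nat_lit 20], false, nat_lit 0, nat_lit 80, nat_lit 0, nat_lit 160, ⟨nat_lit 444, nat_lit 0, nat_lit 556, nat_lit 6, nat_lit 226, nat_lit 0, nat_lit 27, nat_lit 264, nat_lit 5400, nat_lit 233, nat_lit 49046, nat_lit 200, nat_lit 50819944, nat_lit 0, nat_lit 0, nat_lit 2763975, false, false⟩,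
 nat_lit 7523, nat_lit 798, nat_lit 0, nat_lit 0, nat_lit 5295, nat_lit 3982, nat_lit 341, nat_lit 0, nat_lit 0, nat_lit 414, nat_lit 0, nat_lit 0, nat_lit 0, nat_lit 0, nat_lit 0, nat_lit 556000, nat_lit 0, nat_lit 0, [(nat_lit 12, [(nat_lit 6, nat_lit 556)]), (nat_lit 15, [(nat_lit 6, nat_lit 556)])],
 ⟨p057_k0, nat_lit 0, nat_lit 0, nat_lit 488, nat_lit 0, nat_lit 644983, [nat_lit 2091715201, nat_lit 2148054400, nat_lit 1448179200], [], [nat_lit 23229515963, nat_lit 21516243682, nat_lit 22765005521, nat_lit 23371581600, nat_lit 18203157442, nat_lit 19819629042, nat_lit 25189821801, nat_lit 21142628782], nat_lit 1271250, nat_lit 1271250, nat_lit 1100001, nat_lit 1785000, nat_lit 0, nat_lit 490000, [nat_lit 780000, nat_lit 1435000, nat_lit 1271250], [nat_lit 8, nat_lit 40, nat_lit 40, nat_lit 80, nat_lit 1, nat_lit 317, nat_lit 100, nat_lit 9]⟩, ⟨p057_k3, nat_lit 0, nat_lit 0, nat_lit 662, nat_lit 0, nat_lit 810363, [nat_lit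 2081472000, nat_lit 3537792000, nat_lit 5271168000], [], [nat_lit 19110880208, nat_lit 16081532304, nat_lit 15903273424, nat_lit 16308547432, nat_lit 13231243392, nat_lit 13632627552, nat_lit 16194760824, nat_lit 13738111888], nat_lit 1271250, nat_lit 1271250, nat_lit 1100001, nat_lit 1785000, nat_lit 0, nat_lit 1100001, [nat_lit 1100000, nat_lit 1785000, nat_lit 1271250], [nat_lit 21, nat_lit 40, nat_lit 40, nat_lit 80, nat_lit 14, nat_lit 401, nat_lit 175, nat_lit 10]⟩,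
 ⟨nat_lit 4472, nat_lit 5478, ⟨.ofNat (nat_lit 467727), .ofNat (nat_lit 617523), .ofNat (nat_lit 510352), .ofNat (nat_lit 660148), .ofNat (nat_lit 475101), .ofNat (nat_lit 610987), .ofNat (nat_lit 518145), .ofNat (nat_lit 654031)⟩, ⟨.negSucc (nat_lit 45522), .ofNat (nat_lit 104343), .negSucc (nat_lit 2834), .ofNat (nat_lit 147057), .negSucc (nat_lit 12423), .ofNat (nat_lit 123532), .ofNat (nat_lit 0), .ofNat (nat_lit 166665)⟩⟩, []⟩
noncomputable def p057_l76 : Lf2 := ⟨nat_lit 0, nat_lit 10, [nat_lit 0, nat_lit 5, nat_lit 5, nat_lit 20], false, nat_lit 80, nat_lit 160, nat_lit 0, nat_lit 160, ⟨nat_lit 379, nat_lit 0, nat_lit 621, nat_lit 6, nat_lit 226, nat_lit 621, nat_lit 83, nat_lit 621, nat_lit 64067, nat_lit 277, nat_lit 49046, nat_lit 200, nat_lit 47807486, nat_lit 0, nat_lit 0, nat_lit 3853228, false, false⟩,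
 nat_lit 6875, nat_lit 2370, nat_lit 0, nat_lit 0, nat_lit 5882, nat_lit 3639, nat_lit 379, nat_lit 0, nat_lit 0, nat_lit 356, nat_lit 0, nat_lit 0, nat_lit 0, nat_lit 0, nat_lit 0, nat_lit 621000, nat_lit 0, nat_lit 0, [(nat_lit 12, [(nat_lit 6, nat_lit 621)]), (nat_lit 15, [(nat_lit 6, nat_lit 621)])],
 ⟨p057_k0, nat_lit 0, nat_lit 0, nat_lit 429, nat_lit 0, nat_lit 644983, [nat_lit 1952563201, nat_lit 1668510400, nat_lit 466887200], [], [nat_lit 14259553880, nat_lit 16423428080, nat_lit 16463308994, nat_lit 19578562568, nat_lit 14549018888, nat_lit 16475236304, nat_lit 22243042010, nat_lit 19663867560], nat_lit 1271250, nat_lit 1271250, nat_lit 1100001, nat_lit 1785000, nat_lit 490000, nat_lit 1100001, [nat_lit 780000, nat_lit 1435000, nat_lit 1271250], [nat_lit 8, nat_lit 40, nat_lit 40, nat_lit 80, nat_lit 1, nat_lit 317, nat_lit 100, nat_lit 9]⟩, ⟨p057_k3, nat_lit 0, nat_lit 0, nat_lit 662, nat_lit 0, nat_lit 810363,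 [nat_lit 1776752000, nat_lit 3019872000, nat_lit 4499488000], [], [nat_lit 16678762308, nat_lit 12999405316, nat_lit 12817702304, nat_lit 13165629568, nat_lit 10352245320, nat_lit 10697102704, nat_lit 13758990004, nat_lit 10754472860], nat_lit 1271250, nat_lit 1271250, nat_lit 1100001, nat_lit 1785000, nat_lit 0, nat_lit 1100001, [nat_lit 1100000, nat_lit 1785000, nat_lit 1271250], [nat_lit 21, nat_lit 40, nat_lit 40, nat_lit 80, nat_lit 14, nat_lit 401, nat_lit 175, nat_lit 10]⟩,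
 ⟨nat_lit 4472, nat_lit 5478, ⟨.ofNat (nat_lit 467727), .ofNat (nat_lit 617523), .ofNat (nat_lit 510352), .ofNat (nat_lit 660148), .ofNat (nat_lit 475101), .ofNat (nat_lit 610987), .ofNat (nat_lit 518145), .ofNat (nat_lit 654031)⟩, ⟨.ofNat (nat_lit 104343), .ofNat (nat_lit 254209), .ofNat (nat_lit 147057), .ofNat (nat_lit 296923), .ofNat (nat_lit 123532), .ofNat (nat_lit 259489), .ofNat (nat_lit 166665), .ofNat (nat_lit 302621)⟩⟩, []⟩
noncomputable def p057_l77 : Lf2 := ⟨nat_lit 0, nat_lit 10, [nat_lit 0, nat_lit 5, nat_lit 5, nat_lit 20], false, nat_lit 0, nat_lit 80, nat_lit 160, nat_lit 336, ⟨nat_lit 803, nat_lit 0, nat_lit 197, nat_lit 6, nat_lit 226, nat_lit 0, nat_lit 26, nat_lit 0, nat_lit 4817, nat_lit 232, nat_lit 49368, nat_lit 200, nat_lit 50824447, nat_lit 0, nat_lit 0, nat_lit 2763590, false, false⟩,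
 nat_lit 13851, nat_lit 0, nat_lit 0, nat_lit 0, nat_lit 8814, nat_lit 7332, nat_lit 1075, nat_lit 0, nat_lit 0, nat_lit 773, nat_lit 0, nat_lit 0, nat_lit 0, nat_lit 0, nat_lit 0, nat_lit 197000, nat_lit 0, nat_lit 0, [(nat_lit 12, [(nat_lit 6, nat_lit 197)])],
 ⟨p057_k0, nat_lit 0, nat_lit 0, nat_lit 444, nat_lit 0, nat_lit 529661, [nat_lit 2860262401, nat_lit 4796612801, nat_lit 6840744400], [], [nat_lit 23511056915, nat_lit 21094403280, nat_lit 23163165187, nat_lit 25845740348, nat_lit 15508284443, nat_lit 16839568463, nat_lit 25896893363, nat_lit 21853276955], nat_lit 1271250, nat_lit 1271250, nat_lit 1100001, nat_lit 1785000, nat_lit 0, nat_lit 490000, [nat_lit 780000, nat_lit 1435000, nat_lit 1271250], [nat_lit 8, nat_lit 40, nat_lit 40, nat_lit 80, nat_lit 1, nat_lit 317, nat_lit 100, nat_lit 9]⟩, ⟨p057_k3, nat_lit 0, nat_lit 0, nat_lit 428, nat_lit 0, nat_lit 665471, [nat_lit 3764464000, nat_lit 6398304000, nat_lit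 9533216000], [], [nat_lit 30997268516, nat_lit 23243854484, nat_lit 24010061572, nat_lit 20573421336, nat_lit 22649702282, nat_lit 23365369229, nat_lit 22942742806, nat_lit 23733596677], nat_lit 1271250, nat_lit 1271250, nat_lit 1100001, nat_lit 1785000, nat_lit 1271250, nat_lit 1271250, [nat_lit 1100000, nat_lit 1785000, nat_lit 1271250], [nat_lit 21, nat_lit 40, nat_lit 40, nat_lit 80, nat_lit 14, nat_lit 456, nat_lit 225, nat_lit 11]⟩,
 ⟨nat_lit 5000, nat_lit 5478, ⟨.ofNat (nat_lit 467773), .ofNat (nat_lit 617614), .ofNat (nat_lit 510468), .ofNat (nat_lit 660309), .ofNat (nat_lit 471421), .ofNat (nat_lit 614253), .ofNat (nat_lit 514258), .ofNat (nat_lit 657090)⟩, ⟨.negSucc (nat_lit 45522), .ofNat (nat_lit 104343), .negSucc (nat_lit 2832), .ofNat (nat_lit 147057), .negSucc (nat_lit 28572), .ofNat (nat_lit 114284), .ofNat (nat_lit 0), .ofNat (nat_lit 157141)⟩⟩, [⟨nat_lit 19, nat_lit 100, nat_lit 92, nat_lit 75, nat_lit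 49214748⟩, ⟨nat_lit 22, nat_lit 100, nat_lit 97, nat_lit 24, nat_lit 142812908⟩]⟩
noncomputable def p057_l78 : Lf2 := ⟨nat_lit 0, nat_lit 10, [nat_lit 0, nat_lit 5, nat_lit 5, nat_lit 20], false, nat_lit 0, nat_lit 80, nat_lit 160, nat_lit 336, ⟨nat_lit 549, nat_lit 0, nat_lit 451, nat_lit 6, nat_lit 226, nat_lit 0, nat_lit 28, nat_lit 0, nat_lit 6667, nat_lit 235, nat_lit 42926, nat_lit 200, nat_lit 50811114, nat_lit 0, nat_lit 0, nat_lit 2764729, false, false⟩,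
 nat_lit 7697, nat_lit 0, nat_lit 0, nat_lit 0, nat_lit 5328, nat_lit 4074, nat_lit 422, nat_lit 0, nat_lit 0, nat_lit 451, nat_lit 0, nat_lit 0, nat_lit 0, nat_lit 0, nat_lit 0, nat_lit 451000, nat_lit 0, nat_lit 0, [(nat_lit 15, [(nat_lit 6, nat_lit 451)])],
 ⟨p057_k11, nat_lit 0, nat_lit 0, nat_lit 401, nat_lit 0, nat_lit 582261, [nat_lit 2243798000, nat_lit 2396114801, nat_lit 2004517200], [], [nat_lit 20933210000, nat_lit 19906144384, nat_lit 21462158096, nat_lit 23420305440, nat_lit 16972524041, nat_lit 17887647401, nat_lit 21737199606, nat_lit 19393968809], nat_lit 1271250, nat_lit 1271250, nat_lit 1100001, nat_lit 1785000, nat_lit 0, nat_lit 490000, [nat_lit 780000, nat_lit 1435000, nat_lit 1271250], [nat_lit 18, nat_lit 40, nat_lit 40, nat_lit 80, nat_lit 2, nat_lit 317, nat_lit 100, nat_lit 10]⟩, ⟨p057_k3, nat_lit 0, nat_lit 0, nat_lit 529, nat_lit 0, nat_lit 810363, [nat_lit 2573712000, nat_lit 4374432000, nat_lit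 6517728000], [], [nat_lit 19761842748, nat_lit 18308682584, nat_lit 18137904584, nat_lit 18497980304, nat_lit 19340039327, nat_lit 19642976055, nat_lit 19415946286, nat_lit 19747812272], nat_lit 1271250, nat_lit 1271250, nat_lit 1100001, nat_lit 1785000, nat_lit 1271250, nat_lit 1271250, [nat_lit 1100000, nat_lit 1785000, nat_lit 1271250], [nat_lit 21, nat_lit 40, nat_lit 40, nat_lit 80, nat_lit 14, nat_lit 456, nat_lit 225, nat_lit 11]⟩,
 ⟨nat_lit 4472, nat_lit 5000, ⟨.ofNat (nat_lit 471408), .ofNat (nat_lit 614256), .ofNat (nat_lit 514240), .ofNat (nat_lit 657088), .ofNat (nat_lit 475134), .ofNat (nat_lit 611081), .ofNat (nat_lit 518242), .ofNat (nat_lit 654189)⟩, ⟨.negSucc (nat_lit 28572), .ofNat (nat_lit 114284), .ofNat (nat_lit 0), .ofNat (nat_lit 157141), .negSucc (nat_lit 12423), .ofNat (nat_lit 123532), .ofNat (nat_lit 0), .ofNat (nat_lit 166665)⟩⟩, [⟨nat_lit 7, nat_lit 92, nat_lit 100, nat_lit 75, nat_lit 209746808⟩]⟩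
noncomputable def p057_l79 : Lf2 := ⟨nat_lit 0, nat_lit 10, [nat_lit 0, nat_lit 5, nat_lit 5, nat_lit 20], false, nat_lit 80, nat_lit 160, nat_lit 160, nat_lit 336, ⟨nat_lit 1000, nat_lit 0, nat_lit 0, nat_lit 0, nat_lit 0, nat_lit 0, nat_lit 0, nat_lit 0, nat_lit 0, nat_lit 0, nat_lit 0, nat_lit 0, nat_lit 0, nat_lit 0, nat_lit 0, nat_lit 0, false, false⟩,
 nat_lit 17847, nat_lit 0, nat_lit 0, nat_lit 0, nat_lit 11357, nat_lit 9448, nat_lit 1486, nat_lit 0, nat_lit 0, nat_lit 966, nat_lit 0, nat_lit 0, nat_lit 0, nat_lit 0, nat_lit 0, nat_lit 0, nat_lit 0, nat_lit 0, [],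
 ⟨p057_k0, nat_lit 0, nat_lit 0, nat_lit 342, nat_lit 0, nat_lit 529661, [nat_lit 3282000000, nat_lit 6250000000, nat_lit 9842000000], [], [nat_lit 11737704324, nat_lit 13868521532, nat_lit 15951199068, nat_lit 19064437768, nat_lit 11218502312, nat_lit 13077900624, nat_lit 20160816108, nat_lit 17871369356], nat_lit 1271250, nat_lit 1271250, nat_lit 1100001, nat_lit 1785000, nat_lit 490000, nat_lit 1100001, [nat_lit 780000, nat_lit 1435000, nat_lit 1271250], [nat_lit 8, nat_lit 40, nat_lit 40, nat_lit 80, nat_lit 1, nat_lit 317, nat_lit 100, nat_lit 9]⟩, ⟨p057_k3, nat_lit 0, nat_lit 0, nat_lit 428, nat_lit 0, nat_lit 665471, [nat_lit 4688000000, nat_lit 7968000000, nat_lit 11872000000], [], [nat_lit 39085252320, nat_lit 29094219072, nat_lit 29773093504, nat_lit 25006135112, nat_lit 27634266287, nat_lit 28526252949, nat_lit 27954424762, nat_lit 28942976020], nat_lit 1271250, nat_lit 1271250, nat_lit 1100001, nat_lit 1785000,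 nat_lit 1271250, nat_lit 1271250, [nat_lit 1100000, nat_lit 1785000, nat_lit 1271250], [nat_lit 21, nat_lit 40, nat_lit 40, nat_lit 80, nat_lit 14, nat_lit 456, nat_lit 225, nat_lit 11]⟩,
 zbF0, [⟨nat_lit 19, nat_lit 100, nat_lit 92, nat_lit 75, nat_lit 66398607⟩]⟩
noncomputable def p057_l80 : Lf2 := ⟨nat_lit 0, nat_lit 10, [nat_lit 0, nat_lit 5, nat_lit 5, nat_lit 20], false, nat_lit 80, nat_lit 160, nat_lit 160, nat_lit 336, ⟨nat_lit 466, nat_lit 0, nat_lit 534, nat_lit 6, nat_lit 226, nat_lit 534, nat_lit 84, nat_lit 534, nat_lit 66150, nat_lit 278, nat_lit 42926, nat_lit 200, nat_lit 47730757, nat_lit 0, nat_lit 0, nat_lit 3871361, false, false⟩,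
 nat_lit 7439, nat_lit 0, nat_lit 0, nat_lit 0, nat_lit 5150, nat_lit 3938, nat_lit 558, nat_lit 0, nat_lit 0, nat_lit 383, nat_lit 0, nat_lit 0, nat_lit 0, nat_lit 0, nat_lit 0, nat_lit 534000, nat_lit 0, nat_lit 0, [(nat_lit 15, [(nat_lit 6, nat_lit 534)])],
 ⟨p057_k11, nat_lit 0, nat_lit 0, nat_lit 317, nat_lit 0, nat_lit 582261, [nat_lit 2052732001, nat_lit 1686863201, nat_lit 907024800], [], [nat_lit 14686251104, nat_lit 15779986654, nat_lit 17403295600, nat_lit 19231064600, nat_lit 15313628854, nat_lit 16360453054, nat_lit 20283530253, nat_lit 19537539000], nat_lit 1271250, nat_lit 1271250, nat_lit 1100001, nat_lit 1785000, nat_lit 490000, nat_lit 1100001, [nat_lit 780000, nat_lit 1435000, nat_lit 1271250], [nat_lit 18, nat_lit 40, nat_lit 40, nat_lit 80, nat_lit 2, nat_lit 317, nat_lit 100, nat_lit 10]⟩, ⟨p057_k3, nat_lit 0, nat_lit 0, nat_lit 529, nat_lit 0, nat_lit 810363, [nat_lit 2184608000, nat_lit 3713088000,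 nat_lit 5532352000], [], [nat_lit 17505495512, nat_lit 14024816796, nat_lit 14060843616, nat_lit 14224658756, nat_lit 15019055259, nat_lit 15263082157, nat_lit 15003158800, nat_lit 15273279669], nat_lit 1271250, nat_lit 1271250, nat_lit 1100001, nat_lit 1785000, nat_lit 1271250, nat_lit 1271250, [nat_lit 1100000, nat_lit 1785000, nat_lit 1271250], [nat_lit 21, nat_lit 40, nat_lit 40, nat_lit 80, nat_lit 14, nat_lit 456, nat_lit 225, nat_lit 11]⟩,
 ⟨nat_lit 4472, nat_lit 5000, ⟨.ofNat (nat_lit 471408), .ofNat (nat_lit 614256), .ofNat (nat_lit 514240), .ofNat (nat_lit 657088), .ofNat (nat_lit 475134), .ofNat (nat_lit 611081), .ofNat (nat_lit 518242), .ofNat (nat_lit 654189)⟩, ⟨.ofNat (nat_lit 114284), .ofNat (nat_lit 257141), .ofNat (nat_lit 157141), .ofNat (nat_lit 299999), .ofNat (nat_lit 123532), .ofNat (nat_lit 259489), .ofNat (nat_lit 166665), .ofNat (nat_lit 302621)⟩⟩, [⟨nat_lit 19, nat_lit 100, nat_lit 92, nat_lit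 75, nat_lit 128172948⟩]⟩
noncomputable def b_V_700_600_10_15 : St := ⟨true, nat_lit 1, nat_lit 1, nat_lit 1, nat_lit 80, nat_lit 280, nat_lit 320, nat_lit 240, nat_lit 280, nat_lit 160, nat_lit 240, nat_lit 40, nat_lit 80, nat_lit 0, nat_lit 160, nat_lit 0, nat_lit 336, nat_lit 0, nat_lit 40, nat_lit 0, nat_lit 0, nat_lit 0, nat_lit 0⟩
theorem d_V_700_600_10_15 (h : EB TB.env) : Dead b_V_700_600_10_15 := chkB_sound0 h (T :=
(.spl (nat_lit 5) (nat_lit 160)
(.spl (nat_lit 4) (nat_lit 80)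
(.leaf p057_l75)
(.leaf p057_l76))
(.spl (nat_lit 4) (nat_lit 80)
(.spl (nat_lit 0) (nat_lit 300)
(.leaf p057_l77)
(.leaf p057_l78))
(.spl (nat_lit 0) (nat_lit 300)
(.leaf p057_l79)
(.leaf p057_l80))))) (by decide +kernel)
noncomputable def p057_l81 : Lf2 := ⟨nat_lit 0, nat_lit 10, [nat_lit 0, nat_lit 5, nat_lit 5, nat_lit 20], true, nat_lit 160, nat_lit 200, nat_lit 0, nat_lit 336, ⟨nat_lit 0, nat_lit 0, nat_lit 1000, nat_lit 6, nat_lit 116, nat_lit 1000, nat_lit 125, nat_lit 1000, nat_lit 147267, nat_lit 309, nat_lit 126150, nat_lit 302, nat_lit 54827362, nat_lit 0, nat_lit 0, nat_lit 3192058, false, false⟩,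
 nat_lit 0, nat_lit 6536, nat_lit 0, nat_lit 0, nat_lit 4159, nat_lit 0, nat_lit 0, nat_lit 0, nat_lit 0, nat_lit 0, nat_lit 0, nat_lit 0, nat_lit 0, nat_lit 0, nat_lit 208, nat_lit 1000000, nat_lit 0, nat_lit 0, [(nat_lit 12, [(nat_lit 6, nat_lit 1000)])],
 ⟨p057_k0, nat_lit 0, nat_lit 0, nat_lit 313, nat_lit 0, nat_lit 383866, [nat_lit 3637200001, nat_lit 3032400001, nat_lit 431200000], [], [nat_lit 12443094360, nat_lit 13436062562, nat_lit 13068760143, nat_lit 12586448663, nat_lit 14693100613, nat_lit 15332552584, nat_lit 16243296335, nat_lit 15276351710], nat_lit 1271250, nat_lit 1271250, nat_lit 205650, nat_lit 490000, nat_lit 1100001, nat_lit 1442500, [nat_lit 780000, nat_lit 1435000, nat_lit 1271250], [nat_lit 8, nat_lit 40, nat_lit 40, nat_lit 80, nat_lit 1, nat_lit 289, nat_lit 75, nat_lit 8]⟩, C1.Rw.none,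
 ⟨nat_lit 5244, nat_lit 5478, ⟨.ofNat (nat_lit 235487), .ofNat (nat_lit 317913), .ofNat (nat_lit 256844), .ofNat (nat_lit 339271), .ofNat (nat_lit 242768), .ofNat (nat_lit 323256), .ofNat (nat_lit 264153), .ofNat (nat_lit 344641)⟩, ⟨.ofNat (nat_lit 254209), .ofNat (nat_lit 329142), .ofNat (nat_lit 296923), .ofNat (nat_lit 371856), .ofNat (nat_lit 255744), .ofNat (nat_lit 328915), .ofNat (nat_lit 298515), .ofNat (nat_lit 371686)⟩⟩, []⟩
noncomputable def p057_l82 : Lf2 := ⟨nat_lit 0, nat_lit 10, [nat_lit 0, nat_lit 5, nat_lit 5, nat_lit 20], true, nat_lit 160, nat_lit 200, nat_lit 0, nat_lit 336, ⟨nat_lit 0, nat_lit 0, nat_lit 1000, nat_lit 6, nat_lit 120, nat_lit 1000, nat_lit 126, nat_lit 1000, nat_lit 147267, nat_lit 309, nat_lit 135000, nat_lit 305, nat_lit 54495421, nat_lit 0, nat_lit 0, nat_lit 3252240, false, false⟩,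
 nat_lit 0, nat_lit 5578, nat_lit 0, nat_lit 0, nat_lit 3704, nat_lit 0, nat_lit 74, nat_lit 0, nat_lit 0, nat_lit 0, nat_lit 0, nat_lit 0, nat_lit 0, nat_lit 0, nat_lit 162, nat_lit 1000000, nat_lit 0, nat_lit 0, [(nat_lit 12, [(nat_lit 6, nat_lit 1000)])],
 ⟨p057_k1, nat_lit 0, nat_lit 0, nat_lit 267, nat_lit 0, nat_lit 420366, [nat_lit 3085200001, nat_lit 2112400000, nat_lit 400000], [], [nat_lit 13718986163, nat_lit 14386312867, nat_lit 13726108411, nat_lit 14366920563, nat_lit 15189883511, nat_lit 15811267547, nat_lit 16132738365, nat_lit 15745216787], nat_lit 1271250, nat_lit 1271250, nat_lit 230001, nat_lit 490000, nat_lit 1100001, nat_lit 1442500, [nat_lit 780000, nat_lit 1435000, nat_lit 1271250], [nat_lit 18, nat_lit 40, nat_lit 40, nat_lit 80, nat_lit 2, nat_lit 289, nat_lit 75, nat_lit 9]⟩, C1.Rw.none,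
 ⟨nat_lit 5000, nat_lit 5245, ⟨.ofNat (nat_lit 250085), .ofNat (nat_lit 323256), .ofNat (nat_lit 271470), .ofNat (nat_lit 344641), .ofNat (nat_lit 257141), .ofNat (nat_lit 328570), .ofNat (nat_lit 278570), .ofNat (nat_lit 349999)⟩, ⟨.ofNat (nat_lit 255744), .ofNat (nat_lit 328915), .ofNat (nat_lit 298515), .ofNat (nat_lit 371686), .ofNat (nat_lit 257141), .ofNat (nat_lit 328570), .ofNat (nat_lit 299999), .ofNat (nat_lit 371427)⟩⟩, [⟨nat_lit 0, nat_lit 100, nat_lit 91, nat_lit 77, nat_lit 43935891⟩]⟩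
noncomputable def p057_l83 : Lf2 := ⟨nat_lit 0, nat_lit 10, [nat_lit 0, nat_lit 5, nat_lit 5, nat_lit 20], true, nat_lit 160, nat_lit 200, nat_lit 0, nat_lit 336, ⟨nat_lit 0, nat_lit 0, nat_lit 1000, nat_lit 6, nat_lit 127, nat_lit 1000, nat_lit 126, nat_lit 1000, nat_lit 147267, nat_lit 309, nat_lit 150417, nat_lit 310, nat_lit 53955191, nat_lit 0, nat_lit 0, nat_lit 3346971, false, false⟩,
 nat_lit 0, nat_lit 5113, nat_lit 0, nat_lit 0, nat_lit 3539, nat_lit 0, nat_lit 0, nat_lit 0, nat_lit 0, nat_lit 0, nat_lit 0, nat_lit 0, nat_lit 0, nat_lit 0, nat_lit 215, nat_lit 977800, nat_lit 0, nat_lit 0, [(nat_lit 15, [(nat_lit 5, nat_lit 37), (nat_lit 6, nat_lit 963)])],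
 ⟨p057_k11, nat_lit 0, nat_lit 0, nat_lit 309, nat_lit 0, nat_lit 512338, [nat_lit 3572402400, nat_lit 2054069201, nat_lit 16984400], [], [nat_lit 14334118822, nat_lit 15699994383, nat_lit 14347318410, nat_lit 15601465924, nat_lit 15734947547, nat_lit 17302571897, nat_lit 15711733019, nat_lit 16881404030], nat_lit 1271250, nat_lit 1271250, nat_lit 279600, nat_lit 490000, nat_lit 1100001, nat_lit 1442500, [nat_lit 780000, nat_lit 1435000, nat_lit 1271250], [nat_lit 18, nat_lit 40, nat_lit 40, nat_lit 80, nat_lit 2, nat_lit 289, nat_lit 75, nat_lit 9]⟩, C1.Rw.none,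
 ⟨nat_lit 4472, nat_lit 5000, ⟨.ofNat (nat_lit 271418), .ofNat (nat_lit 328559), .ofNat (nat_lit 292837), .ofNat (nat_lit 349976), .ofNat (nat_lit 284805), .ofNat (nat_lit 339186), .ofNat (nat_lit 306362), .ofNat (nat_lit 360741)⟩, ⟨.ofNat (nat_lit 257141), .ofNat (nat_lit 328570), .ofNat (nat_lit 299999), .ofNat (nat_lit 371427), .ofNat (nat_lit 259489), .ofNat (nat_lit 327467), .ofNat (nat_lit 302621), .ofNat (nat_lit 370600)⟩⟩, [⟨nat_lit 0, nat_lit 100, nat_lit 84, nat_lit 85, nat_lit 289766630⟩]⟩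
noncomputable def p057_l84 : Lf2 := ⟨nat_lit 0, nat_lit 10, [nat_lit 0, nat_lit 5, nat_lit 5, nat_lit 20], false, nat_lit 160, nat_lit 200, nat_lit 0, nat_lit 336, ⟨nat_lit 0, nat_lit 0, nat_lit 1000, nat_lit 6, nat_lit 163, nat_lit 1000, nat_lit 125, nat_lit 1000, nat_lit 147267, nat_lit 309, nat_lit 45067, nat_lit 267, nat_lit 50953429, nat_lit 0, nat_lit 0, nat_lit 3801052, false, false⟩,
 nat_lit 0, nat_lit 6964, nat_lit 0, nat_lit 0, nat_lit 4431, nat_lit 0, nat_lit 0, nat_lit 0, nat_lit 0, nat_lit 0, nat_lit 0, nat_lit 0, nat_lit 0, nat_lit 0, nat_lit 208, nat_lit 1000000, nat_lit 0, nat_lit 0, [(nat_lit 12, [(nat_lit 6, nat_lit 1000)])],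
 ⟨p057_k0, nat_lit 0, nat_lit 0, nat_lit 308, nat_lit 0, nat_lit 442807, [nat_lit 3637200001, nat_lit 3032400001, nat_lit 431200000], [], [nat_lit 12918216254, nat_lit 13545468466, nat_lit 13709774987, nat_lit 14579532720, nat_lit 13546387656, nat_lit 15378171205, nat_lit 17002328715, nat_lit 16244469834], nat_lit 1271250, nat_lit 1271250, nat_lit 490000, nat_lit 1100001, nat_lit 1100001, nat_lit 1442500, [nat_lit 780000, nat_lit 1435000, nat_lit 1271250], [nat_lit 8, nat_lit 40, nat_lit 40, nat_lit 80, nat_lit 1, nat_lit 317, nat_lit 100, nat_lit 9]⟩, ⟨p057_k3, nat_lit 0, nat_lit 0, nat_lit 566, nat_lit 0, nat_lit 556347, [nat_lit 0, nat_lit 0, nat_lit 0], [], [nat_lit 0, nat_lit 0, nat_lit 0, nat_lit 0, nat_lit 0, nat_lit 0, nat_lit 0, nat_lit 0], nat_lit 1271250, nat_lit 1271250, nat_lit 490000, nat_lit 1100001, nat_lit 0, nat_lit 2373000, [nat_lit 1100000, nat_lit 1785000, nat_lit 1271250], [nat_lit 21, nat_lit 40,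 nat_lit 40, nat_lit 80, nat_lit 14, nat_lit 428, nat_lit 200, nat_lit 11]⟩,
 ⟨nat_lit 5000, nat_lit 5478, ⟨.ofNat (nat_lit 317913), .ofNat (nat_lit 467773), .ofNat (nat_lit 339271), .ofNat (nat_lit 489121), .ofNat (nat_lit 328570), .ofNat (nat_lit 471421), .ofNat (nat_lit 349999), .ofNat (nat_lit 492840)⟩, ⟨.ofNat (nat_lit 254209), .ofNat (nat_lit 329142), .ofNat (nat_lit 296923), .ofNat (nat_lit 371856), .ofNat (nat_lit 257141), .ofNat (nat_lit 328570), .ofNat (nat_lit 299999), .ofNat (nat_lit 371427)⟩⟩, []⟩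
noncomputable def p057_l85 : Lf2 := ⟨nat_lit 0, nat_lit 10, [nat_lit 0, nat_lit 5, nat_lit 5, nat_lit 20], false, nat_lit 160, nat_lit 200, nat_lit 0, nat_lit 336, ⟨nat_lit 0, nat_lit 0, nat_lit 1000, nat_lit 6, nat_lit 166, nat_lit 1000, nat_lit 126, nat_lit 1000, nat_lit 147267, nat_lit 309, nat_lit 40017, nat_lit 264, nat_lit 50673681, nat_lit 0, nat_lit 0, nat_lit 3839164, false, false⟩,
 nat_lit 0, nat_lit 5113, nat_lit 0, nat_lit 0, nat_lit 3539, nat_lit 0, nat_lit 0, nat_lit 0, nat_lit 0, nat_lit 0, nat_lit 0, nat_lit 0, nat_lit 0, nat_lit 0, nat_lit 215, nat_lit 977800, nat_lit 0, nat_lit 0, [(nat_lit 15, [(nat_lit 5, nat_lit 37), (nat_lit 6, nat_lit 963)])],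
 ⟨p057_k11, nat_lit 0, nat_lit 0, nat_lit 288, nat_lit 0, nat_lit 512338, [nat_lit 3572402400, nat_lit 2054069201, nat_lit 16984400], [], [nat_lit 14347318410, nat_lit 15601465924, nat_lit 15637420798, nat_lit 16763820348, nat_lit 15711733019, nat_lit 16881404030, nat_lit 16864445551, nat_lit 17916896724], nat_lit 1271250, nat_lit 1271250, nat_lit 490000, nat_lit 1100001, nat_lit 1100001, nat_lit 1442500, [nat_lit 780000, nat_lit 1435000, nat_lit 1271250], [nat_lit 18, nat_lit 40, nat_lit 40, nat_lit 80, nat_lit 2, nat_lit 317, nat_lit 100, nat_lit 10]⟩, ⟨p057_k3, nat_lit 0, nat_lit 0, nat_lit 662, nat_lit 0, nat_lit 713048, [nat_lit 0, nat_lit 0, nat_lit 0], [], [nat_lit 0, nat_lit 0, nat_lit 0, nat_lit 0, nat_lit 0, nat_lit 0, nat_lit 0, nat_lit 0], nat_lit 1271250, nat_lit 1271250, nat_lit 490000, nat_lit 1100001, nat_lit 0, nat_lit 2373000, [nat_lit 1100000, nat_lit 1785000, nat_lit 1271250], [nat_lit 21, nat_lit 40,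 nat_lit 40, nat_lit 80, nat_lit 14, nat_lit 428, nat_lit 200, nat_lit 11]⟩,
 ⟨nat_lit 4472, nat_lit 5000, ⟨.ofNat (nat_lit 328559), .ofNat (nat_lit 471408), .ofNat (nat_lit 349976), .ofNat (nat_lit 492824), .ofNat (nat_lit 339186), .ofNat (nat_lit 475134), .ofNat (nat_lit 360741), .ofNat (nat_lit 496688)⟩, ⟨.ofNat (nat_lit 257141), .ofNat (nat_lit 328570), .ofNat (nat_lit 299999), .ofNat (nat_lit 371427), .ofNat (nat_lit 259489), .ofNat (nat_lit 327467), .ofNat (nat_lit 302621), .ofNat (nat_lit 370600)⟩⟩, [⟨nat_lit 0, nat_lit 100, nat_lit 84, nat_lit 85, nat_lit 709540⟩]⟩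
noncomputable def p057_l86 : Lf2 := ⟨nat_lit 0, nat_lit 10, [nat_lit 0, nat_lit 5, nat_lit 5, nat_lit 20], false, nat_lit 160, nat_lit 180, nat_lit 0, nat_lit 296, ⟨nat_lit 77, nat_lit 0, nat_lit 923, nat_lit 6, nat_lit 129, nat_lit 923, nat_lit 114, nat_lit 923, nat_lit 120417, nat_lit 300, nat_lit 156817, nat_lit 312, nat_lit 54707523, nat_lit 0, nat_lit 0, nat_lit 3209645, false, false⟩,
 nat_lit 1547, nat_lit 6025, nat_lit 0, nat_lit 0, nat_lit 4818, nat_lit 900, nat_lit 85, nat_lit 0, nat_lit 0, nat_lit 591, nat_lit 0, nat_lit 0, nat_lit 0, nat_lit 0, nat_lit 131, nat_lit 740000, nat_lit 0, nat_lit 0, [(nat_lit 12, [(nat_lit 5, nat_lit 305), (nat_lit 6, nat_lit 618)])],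
 ⟨p057_k22, nat_lit 0, nat_lit 0, nat_lit 337, nat_lit 0, nat_lit 448200, [nat_lit 3412133001, nat_lit 1312317801, nat_lit 343393600], [], [nat_lit 12866564181, nat_lit 13558301495, nat_lit 12319183617, nat_lit 12990774555, nat_lit 13527735425, nat_lit 14194319057, nat_lit 13136820733, nat_lit 13614213613], nat_lit 1271250, nat_lit 1271250, nat_lit 279600, nat_lit 490000, nat_lit 1100001, nat_lit 1271250, [nat_lit 780000, nat_lit 1762500, nat_lit 1271250], [nat_lit 99, nat_lit 40, nat_lit 40, nat_lit 80, nat_lit 17, nat_lit 289, nat_lit 75, nat_lit 8]⟩, ⟨p057_k23, nat_lit 0, nat_lit 0, nat_lit 473, nat_lit 0, nat_lit 498998, [nat_lit 360976000, nat_lit 757834000], [], [nat_lit 2387865844, nat_lit 1920555244, nat_lit 1643503924, nat_lit 1624825472, nat_lit 2019277569, nat_lit 2008161927, nat_lit 2196893104, nat_lit 1796586964], nat_lit 1271250, nat_lit 1271250, nat_lit 279600, nat_lit 490000, nat_lit 0, nat_lit 2090500,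 [nat_lit 1100000, nat_lit 2127500], [nat_lit 70, nat_lit 40, nat_lit 40, nat_lit 80, nat_lit 13, nat_lit 401, nat_lit 175, nat_lit 12]⟩,
 ⟨nat_lit 5244, nat_lit 5478, ⟨.ofNat (nat_lit 279324), .ofNat (nat_lit 339271), .ofNat (nat_lit 300681), .ofNat (nat_lit 360628), .ofNat (nat_lit 286104), .ofNat (nat_lit 344641), .ofNat (nat_lit 307490), .ofNat (nat_lit 366027)⟩, ⟨.ofNat (nat_lit 254209), .ofNat (nat_lit 291676), .ofNat (nat_lit 275566), .ofNat (nat_lit 313033), .ofNat (nat_lit 255744), .ofNat (nat_lit 292329), .ofNat (nat_lit 277129), .ofNat (nat_lit 313715)⟩⟩, [⟨nat_lit 0, nat_lit 100, nat_lit 97, nat_lit 84, nat_lit 280734971⟩, ⟨nat_lit 19, nat_lit 100, nat_lit 100, nat_lit 71, nat_lit 21615085⟩]⟩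
noncomputable def p057_l87 : Lf2 := ⟨nat_lit 0, nat_lit 10, [nat_lit 0, nat_lit 5, nat_lit 5, nat_lit 20], true, nat_lit 160, nat_lit 180, nat_lit 0, nat_lit 296, ⟨nat_lit 0, nat_lit 0, nat_lit 1000, nat_lit 6, nat_lit 135, nat_lit 1000, nat_lit 114, nat_lit 1000, nat_lit 123267, nat_lit 301, nat_lit 170017, nat_lit 316, nat_lit 54231692, nat_lit 0, nat_lit 0, nat_lit 3289232, false, false⟩,
 nat_lit 0, nat_lit 6129, nat_lit 0, nat_lit 0, nat_lit 4070, nat_lit 0, nat_lit 719, nat_lit 0, nat_lit 0, nat_lit 0, nat_lit 0, nat_lit 0, nat_lit 0, nat_lit 0, nat_lit 72, nat_lit 400000, nat_lit 0, nat_lit 0, [(nat_lit 12, [(nat_lit 5, nat_lit 1000)])],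
 ⟨p057_k16, nat_lit 0, nat_lit 0, nat_lit 268, nat_lit 0, nat_lit 474683, [nat_lit 2109400001, nat_lit 300999999], [], [nat_lit 13103962339, nat_lit 13924507416, nat_lit 13061534893, nat_lit 13732821303, nat_lit 13895855437, nat_lit 14824919000, nat_lit 13789465076, nat_lit 14437365388], nat_lit 1271250, nat_lit 1271250, nat_lit 330400, nat_lit 490000, nat_lit 1100001, nat_lit 1271250, [nat_lit 780000, nat_lit 1762500], [nat_lit 74, nat_lit 40, nat_lit 40, nat_lit 80, nat_lit 43, nat_lit 289, nat_lit 75, nat_lit 9]⟩, C1.Rw.none,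
 ⟨nat_lit 5000, nat_lit 5245, ⟨.ofNat (nat_lit 300739), .ofNat (nat_lit 344641), .ofNat (nat_lit 322124), .ofNat (nat_lit 366025), .ofNat (nat_lit 307141), .ofNat (nat_lit 349999), .ofNat (nat_lit 328570), .ofNat (nat_lit 371426)⟩, ⟨.ofNat (nat_lit 255744), .ofNat (nat_lit 292329), .ofNat (nat_lit 277129), .ofNat (nat_lit 313715), .ofNat (nat_lit 257141), .ofNat (nat_lit 292856), .ofNat (nat_lit 278570), .ofNat (nat_lit 314284)⟩⟩, [⟨nat_lit 0, nat_lit 100, nat_lit 94, nat_lit 88, nat_lit 285618417⟩]⟩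
noncomputable def p057_l88 : Lf2 := ⟨nat_lit 0, nat_lit 10, [nat_lit 0, nat_lit 5, nat_lit 5, nat_lit 20], true, nat_lit 180, nat_lit 200, nat_lit 0, nat_lit 296, ⟨nat_lit 0, nat_lit 0, nat_lit 1000, nat_lit 6, nat_lit 128, nat_lit 1000, nat_lit 129, nat_lit 1000, nat_lit 153600, nat_lit 311, nat_lit 153600, nat_lit 311, nat_lit 53615479, nat_lit 0, nat_lit 0, nat_lit 3405023, false, false⟩,
 nat_lit 0, nat_lit 6099, nat_lit 0, nat_lit 0, nat_lit 3880, nat_lit 0, nat_lit 0, nat_lit 0, nat_lit 0, nat_lit 0, nat_lit 0, nat_lit 0, nat_lit 0, nat_lit 0, nat_lit 208, nat_lit 1000000, nat_lit 0, nat_lit 0, [(nat_lit 12, [(nat_lit 6, nat_lit 1000)])],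
 ⟨p057_k0, nat_lit 0, nat_lit 0, nat_lit 333, nat_lit 0, nat_lit 457267, [nat_lit 3637200001, nat_lit 3032400001, nat_lit 431200000], [], [nat_lit 15015205882, nat_lit 14887123409, nat_lit 13342445843, nat_lit 14608228843, nat_lit 14128600547, nat_lit 15777591585, nat_lit 14084147363, nat_lit 15304780483], nat_lit 1271250, nat_lit 1271250, nat_lit 279600, nat_lit 490000, nat_lit 1271250, nat_lit 1271250, [nat_lit 780000, nat_lit 1435000, nat_lit 1271250], [nat_lit 8, nat_lit 40, nat_lit 40, nat_lit 80, nat_lit 1, nat_lit 289, nat_lit 75, nat_lit 8]⟩, C1.Rw.none,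
 ⟨nat_lit 5000, nat_lit 5478, ⟨.ofNat (nat_lit 279324), .ofNat (nat_lit 339271), .ofNat (nat_lit 290003), .ofNat (nat_lit 349949), .ofNat (nat_lit 292856), .ofNat (nat_lit 349999), .ofNat (nat_lit 303570), .ofNat (nat_lit 360713)⟩, ⟨.ofNat (nat_lit 291676), .ofNat (nat_lit 329142), .ofNat (nat_lit 313033), .ofNat (nat_lit 350499), .ofNat (nat_lit 292856), .ofNat (nat_lit 328570), .ofNat (nat_lit 314284), .ofNat (nat_lit 349999)⟩⟩, [⟨nat_lit 0, nat_lit 100, nat_lit 94, nat_lit 76, nat_lit 276436847⟩]⟩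
noncomputable def p057_l89 : Lf2 := ⟨nat_lit 0, nat_lit 10, [nat_lit 0, nat_lit 5, nat_lit 5, nat_lit 20], false, nat_lit 180, nat_lit 200, nat_lit 0, nat_lit 288, ⟨nat_lit 78, nat_lit 0, nat_lit 922, nat_lit 6, nat_lit 135, nat_lit 922, nat_lit 129, nat_lit 922, nat_lit 153600, nat_lit 311, nat_lit 173400, nat_lit 317, nat_lit 53030711, nat_lit 0, nat_lit 0, nat_lit 3501854, false, false⟩,
 nat_lit 1470, nat_lit 5067, nat_lit 0, nat_lit 0, nat_lit 4159, nat_lit 895, nat_lit 0, nat_lit 0, nat_lit 0, nat_lit 342, nat_lit 0, nat_lit 0, nat_lit 0, nat_lit 0, nat_lit 153, nat_lit 858400, nat_lit 0, nat_lit 0, [(nat_lit 12, [(nat_lit 5, nat_lit 106), (nat_lit 6, nat_lit 816)])],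
 ⟨p057_k0, nat_lit 0, nat_lit 0, nat_lit 344, nat_lit 0, nat_lit 499481, [nat_lit 3154740001, nat_lit 2570703734, nat_lit 390603200], [], [nat_lit 14624248530, nat_lit 14957696542, nat_lit 13423165165, nat_lit 14628827498, nat_lit 14367378701, nat_lit 15756500394, nat_lit 14058088838, nat_lit 15340756245], nat_lit 1271250, nat_lit 1271250, nat_lit 330400, nat_lit 490000, nat_lit 1271250, nat_lit 1271250, [nat_lit 780000, nat_lit 1435000, nat_lit 1271250], [nat_lit 8, nat_lit 40, nat_lit 40, nat_lit 80, nat_lit 1, nat_lit 289, nat_lit 75, nat_lit 8]⟩, ⟨p057_k24, nat_lit 0, nat_lit 0, nat_lit 497, nat_lit 0, nat_lit 526514, [nat_lit 365664000, nat_lit 621504000, nat_lit 767676000], [], [nat_lit 2920516284, nat_lit 2681704328, nat_lit 2350449971, nat_lit 2113839716, nat_lit 1794098415, nat_lit 1885058696, nat_lit 1922179752, nat_lit 1724949313], nat_lit 1271250, nat_lit 1271250, nat_lit 330400, nat_lit 490000, nat_lit 0,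 nat_lit 2034000, [nat_lit 1100000, nat_lit 1785000, nat_lit 1271250], [nat_lit 29, nat_lit 40, nat_lit 40, nat_lit 80, nat_lit 17, nat_lit 401, nat_lit 175, nat_lit 12]⟩,
 ⟨nat_lit 5000, nat_lit 5478, ⟨.ofNat (nat_lit 304989), .ofNat (nat_lit 349949), .ofNat (nat_lit 315668), .ofNat (nat_lit 360625), .ofNat (nat_lit 317856), .ofNat (nat_lit 360713), .ofNat (nat_lit 328570), .ofNat (nat_lit 371424)⟩, ⟨.ofNat (nat_lit 291676), .ofNat (nat_lit 329142), .ofNat (nat_lit 313033), .ofNat (nat_lit 350499), .ofNat (nat_lit 292856), .ofNat (nat_lit 328570), .ofNat (nat_lit 314284), .ofNat (nat_lit 349999)⟩⟩, [⟨nat_lit 0, nat_lit 100, nat_lit 96, nat_lit 81, nat_lit 342293408⟩]⟩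
noncomputable def p057_l90 : Lf2 := ⟨nat_lit 0, nat_lit 10, [nat_lit 0, nat_lit 5, nat_lit 5, nat_lit 20], true, nat_lit 160, nat_lit 200, nat_lit 0, nat_lit 320, ⟨nat_lit 0, nat_lit 0, nat_lit 1000, nat_lit 6, nat_lit 129, nat_lit 1000, nat_lit 130, nat_lit 1000, nat_lit 156817, nat_lit 312, nat_lit 156817, nat_lit 312, nat_lit 53450911, nat_lit 0, nat_lit 0, nat_lit 3432834, false, false⟩,
 nat_lit 0, nat_lit 6695, nat_lit 0, nat_lit 0, nat_lit 4260, nat_lit 0, nat_lit 32, nat_lit 0, nat_lit 0, nat_lit 0, nat_lit 0, nat_lit 0, nat_lit 0, nat_lit 0, nat_lit 156, nat_lit 722200, nat_lit 0, nat_lit 0, [(nat_lit 12, [(nat_lit 5, nat_lit 463), (nat_lit 6, nat_lit 537)])],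
 ⟨p057_k22, nat_lit 0, nat_lit 0, nat_lit 294, nat_lit 0, nat_lit 353659, [nat_lit 3497918201, nat_lit 1336760200, nat_lit 334012400], [], [nat_lit 12969123314, nat_lit 13493888123, nat_lit 12746828922, nat_lit 13303224382, nat_lit 14146491626, nat_lit 15016120915, nat_lit 13941343882, nat_lit 14460039872], nat_lit 1271250, nat_lit 1271250, nat_lit 279600, nat_lit 490000, nat_lit 1100001, nat_lit 1442500, [nat_lit 780000, nat_lit 1762500, nat_lit 1271250], [nat_lit 99, nat_lit 40, nat_lit 40, nat_lit 80, nat_lit 17, nat_lit 289, nat_lit 75, nat_lit 8]⟩, C1.Rw.none,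
 ⟨nat_lit 5244, nat_lit 5478, ⟨.ofNat (nat_lit 279324), .ofNat (nat_lit 339271), .ofNat (nat_lit 300681), .ofNat (nat_lit 360628), .ofNat (nat_lit 286104), .ofNat (nat_lit 344641), .ofNat (nat_lit 307490), .ofNat (nat_lit 366027)⟩, ⟨.ofNat (nat_lit 275566), .ofNat (nat_lit 350499), .ofNat (nat_lit 296923), .ofNat (nat_lit 371856), .ofNat (nat_lit 277129), .ofNat (nat_lit 350300), .ofNat (nat_lit 298515), .ofNat (nat_lit 371686)⟩⟩, [⟨nat_lit 0, nat_lit 100, nat_lit 97, nat_lit 84, nat_lit 200447253⟩]⟩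
noncomputable def p057_l91 : Lf2 := ⟨nat_lit 0, nat_lit 10, [nat_lit 0, nat_lit 5, nat_lit 5, nat_lit 20], true, nat_lit 160, nat_lit 200, nat_lit 0, nat_lit 320, ⟨nat_lit 0, nat_lit 0, nat_lit 1000, nat_lit 6, nat_lit 135, nat_lit 1000, nat_lit 130, nat_lit 1000, nat_lit 156817, nat_lit 312, nat_lit 170017, nat_lit 316, nat_lit 52999177, nat_lit 0, nat_lit 0, nat_lit 3507696, false, false⟩,
 nat_lit 0, nat_lit 6022, nat_lit 0, nat_lit 0, nat_lit 3999, nat_lit 0, nat_lit 731, nat_lit 0, nat_lit 0, nat_lit 0, nat_lit 0, nat_lit 0, nat_lit 0, nat_lit 0, nat_lit 72, nat_lit 400000, nat_lit 0, nat_lit 0, [(nat_lit 12, [(nat_lit 5, nat_lit 1000)])],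
 ⟨p057_k16, nat_lit 0, nat_lit 0, nat_lit 242, nat_lit 0, nat_lit 386379, [nat_lit 2109400001, nat_lit 300999999], [], [nat_lit 13284463879, nat_lit 13966608098, nat_lit 13251095876, nat_lit 13916470613, nat_lit 14816660786, nat_lit 15700464778, nat_lit 14700376707, nat_lit 15319585482], nat_lit 1271250, nat_lit 1271250, nat_lit 330400, nat_lit 490000, nat_lit 1100001, nat_lit 1442500, [nat_lit 780000, nat_lit 1762500], [nat_lit 74, nat_lit 40, nat_lit 40, nat_lit 80, nat_lit 43, nat_lit 289, nat_lit 75, nat_lit 9]⟩, C1.Rw.none,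
 ⟨nat_lit 5000, nat_lit 5245, ⟨.ofNat (nat_lit 300739), .ofNat (nat_lit 344641), .ofNat (nat_lit 322124), .ofNat (nat_lit 366025), .ofNat (nat_lit 307141), .ofNat (nat_lit 349999), .ofNat (nat_lit 328570), .ofNat (nat_lit 371426)⟩, ⟨.ofNat (nat_lit 277129), .ofNat (nat_lit 350300), .ofNat (nat_lit 298515), .ofNat (nat_lit 371686), .ofNat (nat_lit 278570), .ofNat (nat_lit 349999), .ofNat (nat_lit 299999), .ofNat (nat_lit 371427)⟩⟩, [⟨nat_lit 0, nat_lit 100, nat_lit 94, nat_lit 88, nat_lit 288542051⟩]⟩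
noncomputable def p057_l92 : Lf2 := ⟨nat_lit 0, nat_lit 10, [nat_lit 0, nat_lit 5, nat_lit 5, nat_lit 20], false, nat_lit 160, nat_lit 200, nat_lit 0, nat_lit 320, ⟨nat_lit 67, nat_lit 0, nat_lit 933, nat_lit 6, nat_lit 141, nat_lit 933, nat_lit 126, nat_lit 933, nat_lit 147267, nat_lit 309, nat_lit 187267, nat_lit 321, nat_lit 52794031, nat_lit 0, nat_lit 0, nat_lit 3536770, false, false⟩,
 nat_lit 1644, nat_lit 4231, nat_lit 0, nat_lit 0, nat_lit 4067, nat_lit 956, nat_lit 0, nat_lit 0, nat_lit 0, nat_lit 203, nat_lit 0, nat_lit 0, nat_lit 0, nat_lit 0, nat_lit 183, nat_lit 933000, nat_lit 0, nat_lit 0, [(nat_lit 15, [(nat_lit 6, nat_lit 933)])],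
 ⟨p057_k11, nat_lit 0, nat_lit 0, nat_lit 327, nat_lit 0, nat_lit 582261, [nat_lit 3330234000, nat_lit 1937328401, nat_lit 23127600], [], [nat_lit 14080529251, nat_lit 15714040258, nat_lit 14061086176, nat_lit 15432785448, nat_lit 15592220338, nat_lit 17363750944, nat_lit 15330048919, nat_lit 17074861978], nat_lit 1271250, nat_lit 1271250, nat_lit 382400, nat_lit 490000, nat_lit 1100001, nat_lit 1442500, [nat_lit 780000, nat_lit 1435000, nat_lit 1271250], [nat_lit 18, nat_lit 40, nat_lit 40, nat_lit 80, nat_lit 2, nat_lit 289, nat_lit 75, nat_lit 9]⟩, ⟨p057_k2, nat_lit 0, nat_lit 0, nat_lit 592, nat_lit 0, nat_lit 719790, [nat_lit 314096000, nat_lit 533856000, nat_lit 659414000], [], [nat_lit 3211834819, nat_lit 2703225611, nat_lit 2804320316, nat_lit 2298846788, nat_lit 2219329664, nat_lit 2012691169, nat_lit 2315542284, nat_lit 1888997956], nat_lit 1271250, nat_lit 1271250, nat_lit 382400, nat_lit 490000, nat_lit 0,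 nat_lit 2260000, [nat_lit 1100000, nat_lit 1785000, nat_lit 1271250], [nat_lit 29, nat_lit 40, nat_lit 40, nat_lit 80, nat_lit 17, nat_lit 401, nat_lit 175, nat_lit 12]⟩,
 ⟨nat_lit 4472, nat_lit 5000, ⟨.ofNat (nat_lit 321407), .ofNat (nat_lit 349976), .ofNat (nat_lit 342823), .ofNat (nat_lit 371392), .ofNat (nat_lit 333552), .ofNat (nat_lit 360741), .ofNat (nat_lit 355106), .ofNat (nat_lit 382295)⟩, ⟨.ofNat (nat_lit 257141), .ofNat (nat_lit 328570), .ofNat (nat_lit 299999), .ofNat (nat_lit 371427), .ofNat (nat_lit 259489), .ofNat (nat_lit 327467), .ofNat (nat_lit 302621), .ofNat (nat_lit 370600)⟩⟩, [⟨nat_lit 0, nat_lit 100, nat_lit 89, nat_lit 86, nat_lit 532688401⟩, ⟨nat_lit 7, nat_lit 97, nat_lit 100, nat_lit 76, nat_lit 7915591⟩]⟩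
noncomputable def p057_l93 : Lf2 := ⟨nat_lit 0, nat_lit 10, [nat_lit 0, nat_lit 5, nat_lit 5, nat_lit 20], false, nat_lit 160, nat_lit 200, nat_lit 0, nat_lit 160, ⟨nat_lit 323, nat_lit 0, nat_lit 677, nat_lit 6, nat_lit 171, nat_lit 677, nat_lit 125, nat_lit 677, nat_lit 147267, nat_lit 309, nat_lit 24681, nat_lit 252, nat_lit 50207573, nat_lit 0, nat_lit 0, nat_lit 3897256, false, false⟩,
 nat_lit 3349, nat_lit 5457, nat_lit 0, nat_lit 0, nat_lit 5603, nat_lit 1949, nat_lit 330, nat_lit 0, nat_lit 0, nat_lit 736, nat_lit 0, nat_lit 0, nat_lit 0, nat_lit 0, nat_lit 31, nat_lit 677000, nat_lit 0, nat_lit 0, [(nat_lit 12, [(nat_lit 6, nat_lit 677)])],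
 ⟨p057_k0, nat_lit 0, nat_lit 0, nat_lit 342, nat_lit 0, nat_lit 529661, [nat_lit 2204678401, nat_lit 1875364800, nat_lit 396040400], [], [nat_lit 14115926477, nat_lit 14467770828, nat_lit 14463028394, nat_lit 14943987696, nat_lit 14426483650, nat_lit 15691313087, nat_lit 18264098858, nat_lit 16114159842], nat_lit 1271250, nat_lit 1271250, nat_lit 490000, nat_lit 1100001, nat_lit 1100001, nat_lit 1442500, [nat_lit 780000, nat_lit 1435000, nat_lit 1271250], [nat_lit 8, nat_lit 40, nat_lit 40, nat_lit 80, nat_lit 1, nat_lit 317, nat_lit 100, nat_lit 9]⟩, ⟨p057_k2, nat_lit 0, nat_lit 0, nat_lit 507, nat_lit 0, nat_lit 591092, [nat_lit 1514224000, nat_lit 2573664000, nat_lit 3178966000], [], [nat_lit 11272945674, nat_lit 10242435312, nat_lit 9292613310, nat_lit 9499937156, nat_lit 9647029214, nat_lit 8730158220, nat_lit 11566003184, nat_lit 10671856556], nat_lit 1271250, nat_lit 1271250, nat_lit 490000, nat_lit 1100001, nat_lit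 0, nat_lit 1100001, [nat_lit 1100000, nat_lit 1785000, nat_lit 1271250], [nat_lit 29, nat_lit 40, nat_lit 40, nat_lit 80, nat_lit 17, nat_lit 373, nat_lit 150, nat_lit 11]⟩,
 ⟨nat_lit 5000, nat_lit 5478, ⟨.ofNat (nat_lit 339271), .ofNat (nat_lit 489121), .ofNat (nat_lit 360625), .ofNat (nat_lit 510468), .ofNat (nat_lit 349999), .ofNat (nat_lit 492840), .ofNat (nat_lit 371424), .ofNat (nat_lit 514258)⟩, ⟨.ofNat (nat_lit 254209), .ofNat (nat_lit 329142), .ofNat (nat_lit 296923), .ofNat (nat_lit 371856), .ofNat (nat_lit 257141), .ofNat (nat_lit 328570), .ofNat (nat_lit 299999), .ofNat (nat_lit 371427)⟩⟩, []⟩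
noncomputable def p057_l94 : Lf2 := ⟨nat_lit 0, nat_lit 10, [nat_lit 0, nat_lit 5, nat_lit 5, nat_lit 20], false, nat_lit 160, nat_lit 200, nat_lit 0, nat_lit 160, ⟨nat_lit 308, nat_lit 0, nat_lit 692, nat_lit 6, nat_lit 174, nat_lit 692, nat_lit 126, nat_lit 692, nat_lit 147267, nat_lit 309, nat_lit 19267, nat_lit 249, nat_lit 49922463, nat_lit 0, nat_lit 0, nat_lit 3933998, false, false⟩,
 nat_lit 3683, nat_lit 2680, nat_lit 0, nat_lit 0, nat_lit 4405, nat_lit 2143, nat_lit 27, nat_lit 0, nat_lit 0, nat_lit 492, nat_lit 0, nat_lit 0, nat_lit 0, nat_lit 0, nat_lit 50, nat_lit 692000, nat_lit 0, nat_lit 0, [(nat_lit 15, [(nat_lit 6, nat_lit 692)])],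
 ⟨p057_k11, nat_lit 0, nat_lit 0, nat_lit 317, nat_lit 0, nat_lit 582261, [nat_lit 2289016000, nat_lit 1336721601, nat_lit 17822400], [], [nat_lit 15131219282, nat_lit 16207515032, nat_lit 15839174162, nat_lit 16838278806, nat_lit 16200721432, nat_lit 17203929522, nat_lit 17518174241, nat_lit 17880346050], nat_lit 1271250, nat_lit 1271250, nat_lit 490000, nat_lit 1100001, nat_lit 1100001, nat_lit 1442500, [nat_lit 780000, nat_lit 1435000, nat_lit 1271250], [nat_lit 18, nat_lit 40, nat_lit 40, nat_lit 80, nat_lit 2, nat_lit 317, nat_lit 100, nat_lit 10]⟩, ⟨p057_k2, nat_lit 0, nat_lit 0, nat_lit 581, nat_lit 0, nat_lit 719790, [nat_lit 1443904000, nat_lit 2454144000, nat_lit 3031336000], [], [nat_lit 11378755282, nat_lit 10245669748, nat_lit 9471142722, nat_lit 9637974356, nat_lit 9112275250, nat_lit 8808523864, nat_lit 11107212228, nat_lit 10124063832], nat_lit 1271250, nat_lit 1271250, nat_lit 490000, nat_lit 1100001,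 nat_lit 0, nat_lit 1100001, [nat_lit 1100000, nat_lit 1785000, nat_lit 1271250], [nat_lit 29, nat_lit 40, nat_lit 40, nat_lit 80, nat_lit 17, nat_lit 373, nat_lit 150, nat_lit 11]⟩,
 ⟨nat_lit 4472, nat_lit 5000, ⟨.ofNat (nat_lit 349976), .ofNat (nat_lit 492824), .ofNat (nat_lit 371392), .ofNat (nat_lit 514240), .ofNat (nat_lit 360741), .ofNat (nat_lit 496688), .ofNat (nat_lit 382295), .ofNat (nat_lit 518242)⟩, ⟨.ofNat (nat_lit 257141), .ofNat (nat_lit 328570), .ofNat (nat_lit 299999), .ofNat (nat_lit 371427), .ofNat (nat_lit 259489), .ofNat (nat_lit 327467), .ofNat (nat_lit 302621), .ofNat (nat_lit 370600)⟩⟩, [⟨nat_lit 0, nat_lit 100, nat_lit 87, nat_lit 95, nat_lit 103178198⟩]⟩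
noncomputable def p057_l95 : Lf2 := ⟨nat_lit 0, nat_lit 10, [nat_lit 0, nat_lit 5, nat_lit 5, nat_lit 20], false, nat_lit 160, nat_lit 200, nat_lit 160, nat_lit 320, ⟨nat_lit 1000, nat_lit 0, nat_lit 0, nat_lit 0, nat_lit 0, nat_lit 0, nat_lit 0, nat_lit 0, nat_lit 0, nat_lit 0, nat_lit 0, nat_lit 0, nat_lit 0, nat_lit 0, nat_lit 0, nat_lit 0, false, false⟩,
 nat_lit 15051, nat_lit 0, nat_lit 0, nat_lit 0, nat_lit 9577, nat_lit 8761, nat_lit 1167, nat_lit 0, nat_lit 0, nat_lit 1834, nat_lit 0, nat_lit 0, nat_lit 0, nat_lit 0, nat_lit 0, nat_lit 0, nat_lit 0, nat_lit 0, [],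
 ⟨p057_k0, nat_lit 0, nat_lit 0, nat_lit 342, nat_lit 0, nat_lit 529661, [nat_lit 3282000000, nat_lit 6250000000, nat_lit 9842000000], [], [nat_lit 16049418043, nat_lit 17580236779, nat_lit 15245628703, nat_lit 16745355664, nat_lit 17123099489, nat_lit 18525335732, nat_lit 17666338104, nat_lit 17900369748], nat_lit 1271250, nat_lit 1271250, nat_lit 490000, nat_lit 1100001, nat_lit 1100001, nat_lit 1442500, [nat_lit 780000, nat_lit 1435000, nat_lit 1271250], [nat_lit 8, nat_lit 40, nat_lit 40, nat_lit 80, nat_lit 1, nat_lit 317, nat_lit 100, nat_lit 9]⟩, ⟨p057_k2, nat_lit 0, nat_lit 0, nat_lit 376, nat_lit 0, nat_lit 591092, [nat_lit 4688000000, nat_lit 7968000000, nat_lit 9842000000], [], [nat_lit 19841853750, nat_lit 17968315084, nat_lit 26059369634, nat_lit 21815909196, nat_lit 23404266026, nat_lit 24301527216, nat_lit 22097893016, nat_lit 23134246636], nat_lit 1271250, nat_lit 1271250, nat_lit 490000, nat_lit 1100001,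 nat_lit 1271250, nat_lit 1271250, [nat_lit 1100000, nat_lit 1785000, nat_lit 1271250], [nat_lit 29, nat_lit 40, nat_lit 40, nat_lit 80, nat_lit 17, nat_lit 428, nat_lit 200, nat_lit 12]⟩,
 zbF0, [⟨nat_lit 7, nat_lit 97, nat_lit 100, nat_lit 76, nat_lit 487032126⟩]⟩
noncomputable def p057_l96 : Lf2 := ⟨nat_lit 0, nat_lit 10, [nat_lit 0, nat_lit 5, nat_lit 5, nat_lit 20], false, nat_lit 160, nat_lit 200, nat_lit 160, nat_lit 320, ⟨nat_lit 426, nat_lit 0, nat_lit 574, nat_lit 6, nat_lit 174, nat_lit 574, nat_lit 126, nat_lit 574, nat_lit 147267, nat_lit 309, nat_lit 19267, nat_lit 249, nat_lit 49922463, nat_lit 0, nat_lit 0, nat_lit 3933998, false, false⟩,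
 nat_lit 7060, nat_lit 0, nat_lit 0, nat_lit 0, nat_lit 4887, nat_lit 4109, nat_lit 268, nat_lit 0, nat_lit 0, nat_lit 522, nat_lit 0, nat_lit 0, nat_lit 0, nat_lit 0, nat_lit 0, nat_lit 574000, nat_lit 0, nat_lit 0, [(nat_lit 15, [(nat_lit 6, nat_lit 574)])],
 ⟨p057_k11, nat_lit 0, nat_lit 0, nat_lit 317, nat_lit 0, nat_lit 582261, [nat_lit 1960652000, nat_lit 1345055201, nat_lit 378112800], [], [nat_lit 15243466484, nat_lit 16373722134, nat_lit 15848705236, nat_lit 16859666062, nat_lit 16325418694, nat_lit 17379191858, nat_lit 17357137682, nat_lit 17923730870], nat_lit 1271250, nat_lit 1271250, nat_lit 490000, nat_lit 1100001, nat_lit 1100001, nat_lit 1442500, [nat_lit 780000, nat_lit 1435000, nat_lit 1271250], [nat_lit 18, nat_lit 40, nat_lit 40, nat_lit 80, nat_lit 2, nat_lit 317, nat_lit 100, nat_lit 10]⟩, ⟨p057_k2, nat_lit 0, nat_lit 0, nat_lit 457, nat_lit 0, nat_lit 719790, [nat_lit 1997088000, nat_lit 3394368000,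 nat_lit 4192692000], [], [nat_lit 8350159742, nat_lit 8721501032, nat_lit 11195325962, nat_lit 9205098940, nat_lit 10234206054, nat_lit 10618661676, nat_lit 9557332992, nat_lit 9994186708], nat_lit 1271250, nat_lit 1271250, nat_lit 490000, nat_lit 1100001, nat_lit 1271250, nat_lit 1271250, [nat_lit 1100000, nat_lit 1785000, nat_lit 1271250], [nat_lit 29, nat_lit 40, nat_lit 40, nat_lit 80, nat_lit 17, nat_lit 428, nat_lit 200, nat_lit 12]⟩,
 ⟨nat_lit 4472, nat_lit 5000, ⟨.ofNat (nat_lit 349976), .ofNat (nat_lit 492824), .ofNat (nat_lit 371392), .ofNat (nat_lit 514240), .ofNat (nat_lit 360741), .ofNat (nat_lit 496688), .ofNat (nat_lit 382295), .ofNat (nat_lit 518242)⟩, ⟨.ofNat (nat_lit 257141), .ofNat (nat_lit 328570), .ofNat (nat_lit 299999), .ofNat (nat_lit 371427), .ofNat (nat_lit 259489), .ofNat (nat_lit 327467), .ofNat (nat_lit 302621), .ofNat (nat_lit 370600)⟩⟩, [⟨nat_lit 0, nat_lit 100, nat_lit 87, nat_lit 95, nat_lit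 125713597⟩, ⟨nat_lit 7, nat_lit 97, nat_lit 100, nat_lit 76, nat_lit 203673237⟩]⟩
noncomputable def b_V_700_600_10_16 : St := ⟨true, nat_lit 1, nat_lit 1, nat_lit 1, nat_lit 80, nat_lit 280, nat_lit 320, nat_lit 240, nat_lit 280, nat_lit 36, nat_lit 160, nat_lit 40, nat_lit 80, nat_lit 160, nat_lit 200, nat_lit 0, nat_lit 336, nat_lit 0, nat_lit 40, nat_lit 0, nat_lit 0, nat_lit 0, nat_lit 0⟩
theorem d_V_700_600_10_16 (h : EB TB.env) : Dead b_V_700_600_10_16 := chkB_sound0 h (T :=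
(.spl (nat_lit 1) (nat_lit 260)
(.spl (nat_lit 2) (nat_lit 80)
(.spl (nat_lit 0) (nat_lit 300)
(.spl (nat_lit 0) (nat_lit 290)
(.leaf p057_l81)
(.trZ (nat_lit 0) (nat_lit 100) (nat_lit 91) (nat_lit 63) (nat_lit 40) (.leaf p057_l82)))
(.trZ (nat_lit 0) (nat_lit 100) (nat_lit 88) (nat_lit 68) (nat_lit 48) (.leaf p057_l83)))
(.spl (nat_lit 0) (nat_lit 300)
(.leaf p057_l84)
(.leaf p057_l85)))
(.trZ (nat_lit 0) (nat_lit 100) (nat_lit 96) (nat_lit 69) (nat_lit 48) (.trX (nat_lit 19) (nat_lit 100) (nat_lit 85) (nat_lit 84) (nat_lit 320) (.spl (nat_lit 2) (nat_lit 80)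
(.spl (nat_lit 0) (nat_lit 300)
(.spl (nat_lit 3) (nat_lit 60)
(.trX (nat_lit 19) (nat_lit 100) (nat_lit 92) (nat_lit 75) (nat_lit 296) (.spl (nat_lit 4) (nat_lit 180)
(.spl (nat_lit 0) (nat_lit 290)
(.leaf p057_l86)
(.trZ (nat_lit 0) (nat_lit 100) (nat_lit 94) (nat_lit 73) (nat_lit 56) (.leaf p057_l87)))
(.spl (nat_lit 1) (nat_lit 270)
(.leaf p057_l88)
(.trZ (nat_lit 0) (nat_lit 100) (nat_lit 98) (nat_lit 74) (nat_lit 56) (.trX (nat_lit 19) (nat_lit 100) (nat_lit 97) (nat_lit 76) (nat_lit 288) (.leaf p057_l89))))))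
(.spl (nat_lit 0) (nat_lit 290)
(.leaf p057_l90)
(.trZ (nat_lit 0) (nat_lit 100) (nat_lit 94) (nat_lit 73) (nat_lit 56) (.leaf p057_l91))))
(.trZ (nat_lit 0) (nat_lit 100) (nat_lit 91) (nat_lit 77) (nat_lit 64) (.leaf p057_l92)))
(.spl (nat_lit 5) (nat_lit 160)
(.spl (nat_lit 0) (nat_lit 300)
(.leaf p057_l93)
(.leaf p057_l94))
(.spl (nat_lit 0) (nat_lit 300)
(.leaf p057_l95)
(.leaf p057_l96)))))))) (by decide +kernel)
noncomputable def p057_l97 : Lf2 := ⟨nat_lit 0, nat_lit 5, [nat_lit 4, nat_lit 5, nat_lit 5, nat_lit 20], false, nat_lit 200, nat_lit 240, nat_lit 0, nat_lit 336, ⟨nat_lit 0, nat_lit 0, nat_lit 1000, nat_lit 6, nat_lit 132, nat_lit 1000, nat_lit 155, nat_lit 1000, nat_lit 224267, nat_lit 331, nat_lit 163350, nat_lit 314, nat_lit 51147041, nat_lit 0, nat_lit 0, nat_lit 3791166, false, false⟩,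
 nat_lit 0, nat_lit 5582, nat_lit 0, nat_lit 0, nat_lit 3552, nat_lit 0, nat_lit 0, nat_lit 0, nat_lit 0, nat_lit 0, nat_lit 0, nat_lit 0, nat_lit 0, nat_lit 0, nat_lit 162, nat_lit 1000000, nat_lit 0, nat_lit 0, [(nat_lit 12, [(nat_lit 6, nat_lit 1000)])],
 ⟨p057_k20, nat_lit 0, nat_lit 0, nat_lit 271, nat_lit 0, nat_lit 417576, [nat_lit 3085200001, nat_lit 2112400000, nat_lit 400000], [], [nat_lit 15018355192, nat_lit 16240173462, nat_lit 15416321043, nat_lit 16532284107, nat_lit 16520974736, nat_lit 17653316733, nat_lit 16799314147, nat_lit 17835641795], nat_lit 1271250, nat_lit 1271250, nat_lit 205650, nat_lit 780000, nat_lit 1271250, nat_lit 1271250, [nat_lit 780000, nat_lit 1435000, nat_lit 1271250], [nat_lit 18, nat_lit 40, nat_lit 40, nat_lit 80, nat_lit 2, nat_lit 317, nat_lit 100, nat_lit 10]⟩, ⟨p057_k13, nat_lit 0, nat_lit 0, nat_lit 510, nat_lit 0, nat_lit 522005, [nat_lit 0, nat_lit 0, nat_lit 0], [], [nat_lit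 0, nat_lit 0, nat_lit 0, nat_lit 0, nat_lit 0, nat_lit 0, nat_lit 0, nat_lit 0], nat_lit 1271250, nat_lit 1271250, nat_lit 205650, nat_lit 780000, nat_lit 0, nat_lit 2373000, [nat_lit 1100000, nat_lit 1785000, nat_lit 1271250], [nat_lit 29, nat_lit 40, nat_lit 40, nat_lit 80, nat_lit 17, nat_lit 428, nat_lit 200, nat_lit 13]⟩,
 ⟨nat_lit 5000, nat_lit 5478, ⟨.ofNat (nat_lit 235487), .ofNat (nat_lit 392847), .ofNat (nat_lit 256844), .ofNat (nat_lit 414199), .ofNat (nat_lit 249999), .ofNat (nat_lit 399998), .ofNat (nat_lit 271427), .ofNat (nat_lit 421423)⟩, ⟨.ofNat (nat_lit 329142), .ofNat (nat_lit 404075), .ofNat (nat_lit 371856), .ofNat (nat_lit 446789), .ofNat (nat_lit 328570), .ofNat (nat_lit 399998), .ofNat (nat_lit 371427), .ofNat (nat_lit 442856)⟩⟩, [⟨nat_lit 0, nat_lit 100, nat_lit 91, nat_lit 77, nat_lit 95919911⟩, ⟨nat_lit 4, nat_lit 100, nat_lit 94, nat_lit 75, nat_lit 182552772⟩]⟩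
noncomputable def p057_l98 : Lf2 := ⟨nat_lit 0, nat_lit 5, [nat_lit 4, nat_lit 5, nat_lit 5, nat_lit 20], false, nat_lit 200, nat_lit 240, nat_lit 0, nat_lit 296, ⟨nat_lit 55, nat_lit 0, nat_lit 945, nat_lit 6, nat_lit 142, nat_lit 945, nat_lit 151, nat_lit 945, nat_lit 212817, nat_lit 328, nat_lit 187267, nat_lit 321, nat_lit 50722807, nat_lit 0, nat_lit 0, nat_lit 3865083, false, false⟩,
 nat_lit 829, nat_lit 5223, nat_lit 0, nat_lit 0, nat_lit 3851, nat_lit 482, nat_lit 0, nat_lit 0, nat_lit 0, nat_lit 475, nat_lit 0, nat_lit 0, nat_lit 0, nat_lit 0, nat_lit 109, nat_lit 769200, nat_lit 0, nat_lit 0, [(nat_lit 12, [(nat_lit 5, nat_lit 293), (nat_lit 6, nat_lit 652)])],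
 ⟨p057_k20, nat_lit 0, nat_lit 0, nat_lit 242, nat_lit 0, nat_lit 379378, [nat_lit 2596126801, nat_lit 1631897467, nat_lit 16854000], [], [nat_lit 14841073933, nat_lit 15394235693, nat_lit 15084451273, nat_lit 15608720639, nat_lit 16165945395, nat_lit 16744922548, nat_lit 16439752875, nat_lit 16976263937], nat_lit 1271250, nat_lit 1271250, nat_lit 279600, nat_lit 780000, nat_lit 1271250, nat_lit 1271250, [nat_lit 780000, nat_lit 1435000, nat_lit 1271250], [nat_lit 18, nat_lit 40, nat_lit 40, nat_lit 80, nat_lit 2, nat_lit 317, nat_lit 100, nat_lit 10]⟩, ⟨p057_k14, nat_lit 0, nat_lit 0, nat_lit 370, nat_lit 0, nat_lit 421243, [nat_lit 257840000, nat_lit 438240000], [], [nat_lit 1902894490, nat_lit 1773887672, nat_lit 986103112, nat_lit 867585392, nat_lit 1376482658, nat_lit 1263817404, nat_lit 1649327405, nat_lit 1541463428], nat_lit 1271250, nat_lit 1271250, nat_lit 279600, nat_lit 780000, nat_lit 0, nat_lit 2090500, [nat_lit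 1100000, nat_lit 1785000], [nat_lit 39, nat_lit 40, nat_lit 40, nat_lit 80, nat_lit 7, nat_lit 345, nat_lit 125, nat_lit 12]⟩,
 ⟨nat_lit 5244, nat_lit 5478, ⟨.ofNat (nat_lit 279324), .ofNat (nat_lit 414204), .ofNat (nat_lit 290003), .ofNat (nat_lit 424881), .ofNat (nat_lit 286104), .ofNat (nat_lit 417813), .ofNat (nat_lit 296797), .ofNat (nat_lit 428505)⟩, ⟨.ofNat (nat_lit 329142), .ofNat (nat_lit 404075), .ofNat (nat_lit 350499), .ofNat (nat_lit 425432), .ofNat (nat_lit 328915), .ofNat (nat_lit 402086), .ofNat (nat_lit 350300), .ofNat (nat_lit 423472)⟩⟩, [⟨nat_lit 0, nat_lit 100, nat_lit 95, nat_lit 78, nat_lit 105962121⟩, ⟨nat_lit 4, nat_lit 100, nat_lit 94, nat_lit 69, nat_lit 166842331⟩, ⟨nat_lit 7, nat_lit 98, nat_lit 100, nat_lit 70, nat_lit 1586776⟩]⟩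
noncomputable def p057_l99 : Lf2 := ⟨nat_lit 0, nat_lit 5, [nat_lit 4, nat_lit 5, nat_lit 5, nat_lit 20], false, nat_lit 200, nat_lit 240, nat_lit 0, nat_lit 296, ⟨nat_lit 57, nat_lit 0, nat_lit 943, nat_lit 6, nat_lit 147, nat_lit 943, nat_lit 150, nat_lit 943, nat_lit 212817, nat_lit 328, nat_lit 201667, nat_lit 325, nat_lit 50365396, nat_lit 0, nat_lit 0, nat_lit 3919785, false, false⟩,
 nat_lit 893, nat_lit 4891, nat_lit 0, nat_lit 0, nat_lit 3841, nat_lit 519, nat_lit 0, nat_lit 0, nat_lit 0, nat_lit 492, nat_lit 0, nat_lit 0, nat_lit 0, nat_lit 0, nat_lit 34, nat_lit 685600, nat_lit 0, nat_lit 0, [(nat_lit 12, [(nat_lit 5, nat_lit 429), (nat_lit 6, nat_lit 514)])],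
 ⟨p057_k21, nat_lit 0, nat_lit 0, nat_lit 203, nat_lit 0, nat_lit 408809, [nat_lit 1713954001, nat_lit 161988000], [], [nat_lit 15458064179, nat_lit 16006317010, nat_lit 15689170879, nat_lit 16267199185, nat_lit 16797041555, nat_lit 17415987253, nat_lit 17055899197, nat_lit 17591796639], nat_lit 1271250, nat_lit 1271250, nat_lit 330400, nat_lit 780000, nat_lit 1271250, nat_lit 1271250, [nat_lit 780000, nat_lit 1435000], [nat_lit 49, nat_lit 40, nat_lit 40, nat_lit 80, nat_lit 16, nat_lit 238, nat_lit 30, nat_lit 8]⟩, ⟨p057_k14, nat_lit 0, nat_lit 0, nat_lit 385, nat_lit 0, nat_lit 477049, [nat_lit 267216000, nat_lit 454176000], [], [nat_lit 1897902129, nat_lit 1759417878, nat_lit 1021351818, nat_lit 897800856, nat_lit 1413848370, nat_lit 1294212393, nat_lit 1700824208, nat_lit 1585402605], nat_lit 1271250, nat_lit 1271250, nat_lit 330400, nat_lit 780000, nat_lit 0, nat_lit 2090500, [nat_lit 1100000, nat_lit 1785000], [nat_lit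 39, nat_lit 40, nat_lit 40, nat_lit 80, nat_lit 7, nat_lit 345, nat_lit 125, nat_lit 12]⟩,
 ⟨nat_lit 5000, nat_lit 5245, ⟨.ofNat (nat_lit 300739), .ofNat (nat_lit 417811), .ofNat (nat_lit 311431), .ofNat (nat_lit 428503), .ofNat (nat_lit 307141), .ofNat (nat_lit 421425), .ofNat (nat_lit 317856), .ofNat (nat_lit 432139)⟩, ⟨.ofNat (nat_lit 328915), .ofNat (nat_lit 402086), .ofNat (nat_lit 350300), .ofNat (nat_lit 423472), .ofNat (nat_lit 328570), .ofNat (nat_lit 399998), .ofNat (nat_lit 349999), .ofNat (nat_lit 421427)⟩⟩, [⟨nat_lit 0, nat_lit 100, nat_lit 93, nat_lit 78, nat_lit 102537281⟩, ⟨nat_lit 4, nat_lit 100, nat_lit 90, nat_lit 68, nat_lit 222731657⟩, ⟨nat_lit 7, nat_lit 98, nat_lit 100, nat_lit 70, nat_lit 3171436⟩]⟩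
noncomputable def p057_l100 : Lf2 := ⟨nat_lit 0, nat_lit 5, [nat_lit 4, nat_lit 5, nat_lit 5, nat_lit 20], false, nat_lit 200, nat_lit 240, nat_lit 0, nat_lit 288, ⟨nat_lit 160, nat_lit 0, nat_lit 840, nat_lit 6, nat_lit 149, nat_lit 840, nat_lit 150, nat_lit 840, nat_lit 212817, nat_lit 328, nat_lit 209067, nat_lit 327, nat_lit 50171674, nat_lit 0, nat_lit 0, nat_lit 3948516, false, false⟩,
 nat_lit 3174, nat_lit 3420, nat_lit 0, nat_lit 0, nat_lit 4195, nat_lit 1933, nat_lit 0, nat_lit 0, nat_lit 0, nat_lit 507, nat_lit 0, nat_lit 0, nat_lit 0, nat_lit 0, nat_lit 83, nat_lit 840000, nat_lit 0, nat_lit 0, [(nat_lit 12, [(nat_lit 6, nat_lit 840)])],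
 ⟨p057_k20, nat_lit 0, nat_lit 0, nat_lit 268, nat_lit 0, nat_lit 449157, [nat_lit 2479728001, nat_lit 1712816001, nat_lit 1296000], [], [nat_lit 15236721101, nat_lit 16242460330, nat_lit 15290202143, nat_lit 16225952948, nat_lit 16396265675, nat_lit 17586288298, nat_lit 16369056383, nat_lit 17352419383], nat_lit 1271250, nat_lit 1271250, nat_lit 330400, nat_lit 780000, nat_lit 1271250, nat_lit 1271250, [nat_lit 780000, nat_lit 1435000, nat_lit 1271250], [nat_lit 18, nat_lit 40, nat_lit 40, nat_lit 80, nat_lit 2, nat_lit 317, nat_lit 100, nat_lit 10]⟩, ⟨p057_k25, nat_lit 0, nat_lit 0, nat_lit 384, nat_lit 0, nat_lit 472851, [nat_lit 750080000, nat_lit 1274880000], [], [nat_lit 4045350278, nat_lit 3795176586, nat_lit 2834653614, nat_lit 2991185983, nat_lit 4048856990, nat_lit 3834709663, nat_lit 5032128797, nat_lit 4816632738], nat_lit 1271250, nat_lit 1271250, nat_lit 330400, nat_lit 780000, nat_lit 0, nat_lit 2034000,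 [nat_lit 1100000, nat_lit 1785000], [nat_lit 39, nat_lit 40, nat_lit 40, nat_lit 80, nat_lit 7, nat_lit 345, nat_lit 125, nat_lit 12]⟩,
 ⟨nat_lit 5000, nat_lit 5478, ⟨.ofNat (nat_lit 304989), .ofNat (nat_lit 424874), .ofNat (nat_lit 310328), .ofNat (nat_lit 430211), .ofNat (nat_lit 317856), .ofNat (nat_lit 432134), .ofNat (nat_lit 323213), .ofNat (nat_lit 437488)⟩, ⟨.ofNat (nat_lit 329142), .ofNat (nat_lit 404075), .ofNat (nat_lit 350499), .ofNat (nat_lit 425432), .ofNat (nat_lit 328570), .ofNat (nat_lit 399998), .ofNat (nat_lit 349999), .ofNat (nat_lit 421427)⟩⟩, [⟨nat_lit 0, nat_lit 100, nat_lit 96, nat_lit 80, nat_lit 128120195⟩, ⟨nat_lit 4, nat_lit 100, nat_lit 92, nat_lit 68, nat_lit 211995143⟩, ⟨nat_lit 7, nat_lit 100, nat_lit 99, nat_lit 70, nat_lit 41983428⟩]⟩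
noncomputable def p057_l101 : Lf2 := ⟨nat_lit 0, nat_lit 5, [nat_lit 4, nat_lit 5, nat_lit 5, nat_lit 20], false, nat_lit 200, nat_lit 240, nat_lit 0, nat_lit 280, ⟨nat_lit 261, nat_lit 0, nat_lit 739, nat_lit 6, nat_lit 153, nat_lit 739, nat_lit 150, nat_lit 739, nat_lit 212817, nat_lit 328, nat_lit 216600, nat_lit 329, nat_lit 49882379, nat_lit 0, nat_lit 0, nat_lit 3990616, false, false⟩,
 nat_lit 4620, nat_lit 2931, nat_lit 0, nat_lit 0, nat_lit 4805, nat_lit 2876, nat_lit 0, nat_lit 0, nat_lit 0, nat_lit 800, nat_lit 0, nat_lit 0, nat_lit 0, nat_lit 0, nat_lit 34, nat_lit 739000, nat_lit 0, nat_lit 0, [(nat_lit 12, [(nat_lit 6, nat_lit 739)])],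
 ⟨p057_k20, nat_lit 0, nat_lit 0, nat_lit 274, nat_lit 0, nat_lit 469301, [nat_lit 2107948801, nat_lit 1477953601, nat_lit 22711600], [], [nat_lit 15350525103, nat_lit 16471282047, nat_lit 15272869863, nat_lit 16264618058, nat_lit 16586737532, nat_lit 17784948305, nat_lit 16368905923, nat_lit 17396399372], nat_lit 1271250, nat_lit 1271250, nat_lit 356250, nat_lit 780000, nat_lit 1271250, nat_lit 1271250, [nat_lit 780000, nat_lit 1435000, nat_lit 1271250], [nat_lit 18, nat_lit 40, nat_lit 40, nat_lit 80, nat_lit 2, nat_lit 317, nat_lit 100, nat_lit 10]⟩, ⟨p057_k26, nat_lit 0, nat_lit 0, nat_lit 386, nat_lit 0, nat_lit 481412, [nat_lit 1223568000, nat_lit 2079648000], [], [nat_lit 6132564174, nat_lit 5903655950, nat_lit 4678782643, nat_lit 4916636296, nat_lit 6180936046, nat_lit 5878733213, nat_lit 7617741479, nat_lit 7296293116], nat_lit 1271250, nat_lit 1271250, nat_lit 356250, nat_lit 780000, nat_lit 0, nat_lit 1977500,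 [nat_lit 1100000, nat_lit 1785000], [nat_lit 39, nat_lit 40, nat_lit 40, nat_lit 80, nat_lit 7, nat_lit 317, nat_lit 100, nat_lit 11]⟩,
 ⟨nat_lit 5000, nat_lit 5478, ⟨.ofNat (nat_lit 317822), .ofNat (nat_lit 430211), .ofNat (nat_lit 323161), .ofNat (nat_lit 435548), .ofNat (nat_lit 330356), .ofNat (nat_lit 437488), .ofNat (nat_lit 335713), .ofNat (nat_lit 442843)⟩, ⟨.ofNat (nat_lit 329142), .ofNat (nat_lit 404075), .ofNat (nat_lit 350499), .ofNat (nat_lit 425432), .ofNat (nat_lit 328570), .ofNat (nat_lit 399998), .ofNat (nat_lit 349999), .ofNat (nat_lit 421427)⟩⟩, [⟨nat_lit 0, nat_lit 100, nat_lit 97, nat_lit 83, nat_lit 153021963⟩, ⟨nat_lit 4, nat_lit 100, nat_lit 92, nat_lit 68, nat_lit 254243174⟩, ⟨nat_lit 7, nat_lit 100, nat_lit 97, nat_lit 70, nat_lit 66866824⟩]⟩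
noncomputable def p057_l102 : Lf2 := ⟨nat_lit 0, nat_lit 5, [nat_lit 4, nat_lit 5, nat_lit 5, nat_lit 20], false, nat_lit 200, nat_lit 240, nat_lit 0, nat_lit 320, ⟨nat_lit 48, nat_lit 0, nat_lit 952, nat_lit 6, nat_lit 144, nat_lit 952, nat_lit 159, nat_lit 952, nat_lit 236017, nat_lit 334, nat_lit 194400, nat_lit 323, nat_lit 49851693, nat_lit 0, nat_lit 0, nat_lit 3990147, false, false⟩,
 nat_lit 617, nat_lit 5025, nat_lit 0, nat_lit 0, nat_lit 3589, nat_lit 358, nat_lit 0, nat_lit 0, nat_lit 0, nat_lit 383, nat_lit 0, nat_lit 0, nat_lit 0, nat_lit 0, nat_lit 119, nat_lit 818800, nat_lit 0, nat_lit 0, [(nat_lit 12, [(nat_lit 5, nat_lit 222), (nat_lit 6, nat_lit 730)])],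
 ⟨p057_k20, nat_lit 0, nat_lit 0, nat_lit 200, nat_lit 0, nat_lit 333507, [nat_lit 2694069601, nat_lit 1738156001, nat_lit 19652800], [], [nat_lit 14643186076, nat_lit 15241969723, nat_lit 14916275386, nat_lit 15469947772, nat_lit 16075874463, nat_lit 16630734195, nat_lit 16295233026, nat_lit 16876569147], nat_lit 1271250, nat_lit 1271250, nat_lit 279600, nat_lit 780000, nat_lit 1271250, nat_lit 1271250, [nat_lit 780000, nat_lit 1435000, nat_lit 1271250], [nat_lit 18, nat_lit 40, nat_lit 40, nat_lit 80, nat_lit 2, nat_lit 317, nat_lit 100, nat_lit 10]⟩, ⟨p057_k14, nat_lit 0, nat_lit 0, nat_lit 313, nat_lit 0, nat_lit 371306, [nat_lit 225024000, nat_lit 382464000], [], [nat_lit 1596994699, nat_lit 1405358015, nat_lit 916058364, nat_lit 976082984, nat_lit 1381054754, nat_lit 1215058746, nat_lit 1602818480, nat_lit 1442587480], nat_lit 1271250, nat_lit 1271250, nat_lit 279600, nat_lit 780000, nat_lit 0, nat_lit 2260000, [nat_lit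 1100000, nat_lit 1785000], [nat_lit 39, nat_lit 40, nat_lit 40, nat_lit 80, nat_lit 7, nat_lit 345, nat_lit 125, nat_lit 12]⟩,
 ⟨nat_lit 5244, nat_lit 5478, ⟨.ofNat (nat_lit 279324), .ofNat (nat_lit 414204), .ofNat (nat_lit 300681), .ofNat (nat_lit 435559), .ofNat (nat_lit 286104), .ofNat (nat_lit 417813), .ofNat (nat_lit 307490), .ofNat (nat_lit 439196)⟩, ⟨.ofNat (nat_lit 350499), .ofNat (nat_lit 425432), .ofNat (nat_lit 371856), .ofNat (nat_lit 446789), .ofNat (nat_lit 350300), .ofNat (nat_lit 423472), .ofNat (nat_lit 371686), .ofNat (nat_lit 444857)⟩⟩, [⟨nat_lit 0, nat_lit 100, nat_lit 97, nat_lit 84, nat_lit 103370708⟩, ⟨nat_lit 19, nat_lit 100, nat_lit 93, nat_lit 81, nat_lit 7088530⟩]⟩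
noncomputable def p057_l103 : Lf2 := ⟨nat_lit 0, nat_lit 5, [nat_lit 4, nat_lit 5, nat_lit 5, nat_lit 20], false, nat_lit 200, nat_lit 240, nat_lit 0, nat_lit 320, ⟨nat_lit 49, nat_lit 0, nat_lit 951, nat_lit 6, nat_lit 149, nat_lit 951, nat_lit 159, nat_lit 951, nat_lit 236017, nat_lit 334, nat_lit 209067, nat_lit 327, nat_lit 49500161, nat_lit 0, nat_lit 0, nat_lit 4043572, false, false⟩,
 nat_lit 659, nat_lit 4717, nat_lit 0, nat_lit 0, nat_lit 3570, nat_lit 383, nat_lit 0, nat_lit 0, nat_lit 0, nat_lit 403, nat_lit 0, nat_lit 0, nat_lit 0, nat_lit 0, nat_lit 40, nat_lit 729000, nat_lit 0, nat_lit 0, [(nat_lit 12, [(nat_lit 5, nat_lit 370), (nat_lit 6, nat_lit 581)])],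
 ⟨p057_k21, nat_lit 0, nat_lit 0, nat_lit 156, nat_lit 0, nat_lit 364759, [nat_lit 1762951201, nat_lit 180675333], [], [nat_lit 15284851220, nat_lit 15877728326, nat_lit 15546619569, nat_lit 16099016684, nat_lit 16663773543, nat_lit 17286317659, nat_lit 16945596252, nat_lit 17525556982], nat_lit 1271250, nat_lit 1271250, nat_lit 330400, nat_lit 780000, nat_lit 1271250, nat_lit 1271250, [nat_lit 780000, nat_lit 1435000], [nat_lit 49, nat_lit 40, nat_lit 40, nat_lit 80, nat_lit 16, nat_lit 238, nat_lit 30, nat_lit 8]⟩, ⟨p057_k14, nat_lit 0, nat_lit 0, nat_lit 370, nat_lit 0, nat_lit 427315, [nat_lit 229712000, nat_lit 390432000], [], [nat_lit 1561210999, nat_lit 1356819985, nat_lit 914354026, nat_lit 944710756, nat_lit 1399066318, nat_lit 1222844095, nat_lit 1614579692, nat_lit 1441154228], nat_lit 1271250, nat_lit 1271250, nat_lit 330400, nat_lit 780000, nat_lit 0, nat_lit 2260000, [nat_lit 1100000, nat_lit 1785000], [nat_lit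 39, nat_lit 40, nat_lit 40, nat_lit 80, nat_lit 7, nat_lit 345, nat_lit 125, nat_lit 12]⟩,
 ⟨nat_lit 5000, nat_lit 5245, ⟨.ofNat (nat_lit 300739), .ofNat (nat_lit 417811), .ofNat (nat_lit 322124), .ofNat (nat_lit 439194), .ofNat (nat_lit 307141), .ofNat (nat_lit 421425), .ofNat (nat_lit 328570), .ofNat (nat_lit 442852)⟩, ⟨.ofNat (nat_lit 350300), .ofNat (nat_lit 423472), .ofNat (nat_lit 371686), .ofNat (nat_lit 444857), .ofNat (nat_lit 349999), .ofNat (nat_lit 421427), .ofNat (nat_lit 371427), .ofNat (nat_lit 442856)⟩⟩, [⟨nat_lit 0, nat_lit 100, nat_lit 94, nat_lit 88, nat_lit 99356494⟩, ⟨nat_lit 7, nat_lit 93, nat_lit 100, nat_lit 81, nat_lit 8637085⟩]⟩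
noncomputable def p057_l104 : Lf2 := ⟨nat_lit 0, nat_lit 10, [nat_lit 0, nat_lit 5, nat_lit 5, nat_lit 20], true, nat_lit 200, nat_lit 240, nat_lit 0, nat_lit 312, ⟨nat_lit 0, nat_lit 0, nat_lit 1000, nat_lit 6, nat_lit 120, nat_lit 1000, nat_lit 151, nat_lit 1000, nat_lit 212817, nat_lit 328, nat_lit 135000, nat_lit 305, nat_lit 52373129, nat_lit 0, nat_lit 0, nat_lit 3589467, false, false⟩,
 nat_lit 0, nat_lit 5711, nat_lit 0, nat_lit 0, nat_lit 3634, nat_lit 0, nat_lit 110, nat_lit 0, nat_lit 0, nat_lit 0, nat_lit 0, nat_lit 0, nat_lit 0, nat_lit 0, nat_lit 118, nat_lit 521200, nat_lit 0, nat_lit 0, [(nat_lit 12, [(nat_lit 5, nat_lit 798), (nat_lit 6, nat_lit 202)])],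
 ⟨p057_k0, nat_lit 0, nat_lit 0, nat_lit 213, nat_lit 0, nat_lit 259424, [nat_lit 2636680801, nat_lit 1705560801, nat_lit 253170400], [], [nat_lit 15063504802, nat_lit 15631227826, nat_lit 14625866503, nat_lit 15120901873, nat_lit 16332474451, nat_lit 16925341972, nat_lit 15806461498, nat_lit 16347939496], nat_lit 1271250, nat_lit 1271250, nat_lit 205650, nat_lit 490000, nat_lit 1271250, nat_lit 1271250, [nat_lit 780000, nat_lit 1435000, nat_lit 1271250], [nat_lit 8, nat_lit 40, nat_lit 40, nat_lit 80, nat_lit 1, nat_lit 317, nat_lit 100, nat_lit 9]⟩, C1.Rw.none,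
 ⟨nat_lit 5244, nat_lit 5478, ⟨.ofNat (nat_lit 235487), .ofNat (nat_lit 317913), .ofNat (nat_lit 278201), .ofNat (nat_lit 360628), .ofNat (nat_lit 242768), .ofNat (nat_lit 323256), .ofNat (nat_lit 285539), .ofNat (nat_lit 366027)⟩, ⟨.ofNat (nat_lit 329142), .ofNat (nat_lit 404075), .ofNat (nat_lit 350499), .ofNat (nat_lit 425432), .ofNat (nat_lit 328915), .ofNat (nat_lit 402086), .ofNat (nat_lit 350300), .ofNat (nat_lit 423472)⟩⟩, [⟨nat_lit 0, nat_lit 100, nat_lit 97, nat_lit 84, nat_lit 174690787⟩, ⟨nat_lit 16, nat_lit 94, nat_lit 100, nat_lit 69, nat_lit 52379313⟩]⟩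
noncomputable def p057_l105 : Lf2 := ⟨nat_lit 0, nat_lit 10, [nat_lit 0, nat_lit 5, nat_lit 5, nat_lit 20], true, nat_lit 200, nat_lit 240, nat_lit 0, nat_lit 336, ⟨nat_lit 0, nat_lit 0, nat_lit 1000, nat_lit 6, nat_lit 120, nat_lit 1000, nat_lit 159, nat_lit 1000, nat_lit 236017, nat_lit 334, nat_lit 135000, nat_lit 305, nat_lit 51633198, nat_lit 0, nat_lit 0, nat_lit 3693750, false, false⟩,
 nat_lit 0, nat_lit 5914, nat_lit 0, nat_lit 0, nat_lit 3763, nat_lit 0, nat_lit 198, nat_lit 0, nat_lit 0, nat_lit 0, nat_lit 0, nat_lit 0, nat_lit 0, nat_lit 0, nat_lit 95, nat_lit 400000, nat_lit 0, nat_lit 0, [(nat_lit 12, [(nat_lit 5, nat_lit 1000)])],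
 ⟨p057_k0, nat_lit 0, nat_lit 0, nat_lit 176, nat_lit 0, nat_lit 158477, [nat_lit 2380800000, nat_lit 1365333334, nat_lit 202000000], [], [nat_lit 15047607617, nat_lit 15623981246, nat_lit 14503832788, nat_lit 15059721808, nat_lit 16323079200, nat_lit 16999965557, nat_lit 15749087854, nat_lit 16264539710], nat_lit 1271250, nat_lit 1271250, nat_lit 205650, nat_lit 490000, nat_lit 1271250, nat_lit 1271250, [nat_lit 780000, nat_lit 1435000, nat_lit 1271250], [nat_lit 8, nat_lit 40, nat_lit 40, nat_lit 80, nat_lit 1, nat_lit 317, nat_lit 100, nat_lit 9]⟩, C1.Rw.none,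
 ⟨nat_lit 5244, nat_lit 5478, ⟨.ofNat (nat_lit 235487), .ofNat (nat_lit 317913), .ofNat (nat_lit 278201), .ofNat (nat_lit 360628), .ofNat (nat_lit 242768), .ofNat (nat_lit 323256), .ofNat (nat_lit 285539), .ofNat (nat_lit 366027)⟩, ⟨.ofNat (nat_lit 350499), .ofNat (nat_lit 425432), .ofNat (nat_lit 371856), .ofNat (nat_lit 446789), .ofNat (nat_lit 350300), .ofNat (nat_lit 423472), .ofNat (nat_lit 371686), .ofNat (nat_lit 444857)⟩⟩, [⟨nat_lit 0, nat_lit 100, nat_lit 97, nat_lit 84, nat_lit 193513704⟩]⟩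
noncomputable def p057_l106 : Lf2 := ⟨nat_lit 0, nat_lit 10, [nat_lit 0, nat_lit 5, nat_lit 5, nat_lit 20], false, nat_lit 200, nat_lit 240, nat_lit 0, nat_lit 336, ⟨nat_lit 0, nat_lit 0, nat_lit 1000, nat_lit 6, nat_lit 152, nat_lit 1000, nat_lit 155, nat_lit 1000, nat_lit 224267, nat_lit 331, nat_lit 216600, nat_lit 329, nat_lit 49605578, nat_lit 0, nat_lit 0, nat_lit 4030335, false, false⟩,
 nat_lit 0, nat_lit 5801, nat_lit 0, nat_lit 0, nat_lit 3691, nat_lit 0, nat_lit 116, nat_lit 0, nat_lit 0, nat_lit 0, nat_lit 0, nat_lit 0, nat_lit 0, nat_lit 0, nat_lit 118, nat_lit 519400, nat_lit 0, nat_lit 0, [(nat_lit 12, [(nat_lit 5, nat_lit 801), (nat_lit 6, nat_lit 199)])],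
 ⟨p057_k0, nat_lit 0, nat_lit 0, nat_lit 188, nat_lit 0, nat_lit 275099, [nat_lit 2636979600, nat_lit 1707339601, nat_lit 261974800], [], [nat_lit 14505258948, nat_lit 15046532578, nat_lit 14707528200, nat_lit 15213955672, nat_lit 15737053828, nat_lit 16250728813, nat_lit 16008357856, nat_lit 16597077655], nat_lit 1271250, nat_lit 1271250, nat_lit 490000, nat_lit 780000, nat_lit 1271250, nat_lit 1271250, [nat_lit 780000, nat_lit 1435000, nat_lit 1271250], [nat_lit 8, nat_lit 40, nat_lit 40, nat_lit 80, nat_lit 1, nat_lit 317, nat_lit 100, nat_lit 9]⟩, ⟨p057_k3, nat_lit 0, nat_lit 0, nat_lit 484, nat_lit 0, nat_lit 345637, [nat_lit 0, nat_lit 0, nat_lit 0], [], [nat_lit 0, nat_lit 0, nat_lit 0, nat_lit 0, nat_lit 0, nat_lit 0, nat_lit 0, nat_lit 0], nat_lit 1271250, nat_lit 1271250, nat_lit 490000, nat_lit 780000, nat_lit 0, nat_lit 2373000, [nat_lit 1100000, nat_lit 1785000, nat_lit 1271250], [nat_lit 21, nat_lit 40, nat_lit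 40, nat_lit 80, nat_lit 14, nat_lit 428, nat_lit 200, nat_lit 11]⟩,
 ⟨nat_lit 5244, nat_lit 5478, ⟨.ofNat (nat_lit 317913), .ofNat (nat_lit 392847), .ofNat (nat_lit 360628), .ofNat (nat_lit 435559), .ofNat (nat_lit 323256), .ofNat (nat_lit 396427), .ofNat (nat_lit 366027), .ofNat (nat_lit 439196)⟩, ⟨.ofNat (nat_lit 329142), .ofNat (nat_lit 404075), .ofNat (nat_lit 371856), .ofNat (nat_lit 446789), .ofNat (nat_lit 328915), .ofNat (nat_lit 402086), .ofNat (nat_lit 371686), .ofNat (nat_lit 444857)⟩⟩, [⟨nat_lit 4, nat_lit 100, nat_lit 97, nat_lit 76, nat_lit 149143582⟩]⟩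
noncomputable def p057_l107 : Lf2 := ⟨nat_lit 0, nat_lit 10, [nat_lit 0, nat_lit 5, nat_lit 5, nat_lit 20], false, nat_lit 200, nat_lit 240, nat_lit 0, nat_lit 336, ⟨nat_lit 0, nat_lit 0, nat_lit 1000, nat_lit 6, nat_lit 138, nat_lit 1000, nat_lit 155, nat_lit 1000, nat_lit 224267, nat_lit 331, nat_lit 180267, nat_lit 319, nat_lit 50670453, nat_lit 0, nat_lit 0, nat_lit 3868833, false, false⟩,
 nat_lit 0, nat_lit 5449, nat_lit 0, nat_lit 0, nat_lit 3618, nat_lit 0, nat_lit 52, nat_lit 0, nat_lit 0, nat_lit 0, nat_lit 0, nat_lit 0, nat_lit 0, nat_lit 0, nat_lit 72, nat_lit 400000, nat_lit 0, nat_lit 0, [(nat_lit 12, [(nat_lit 5, nat_lit 1000)])],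
 ⟨p057_k1, nat_lit 0, nat_lit 0, nat_lit 189, nat_lit 0, nat_lit 286658, [nat_lit 2104800000, nat_lit 905333334, nat_lit 113066666], [], [nat_lit 15546291254, nat_lit 15826118956, nat_lit 15618574558, nat_lit 15875868510, nat_lit 16822943054, nat_lit 17128425793, nat_lit 16803222148, nat_lit 17063923791], nat_lit 1271250, nat_lit 1271250, nat_lit 230001, nat_lit 780000, nat_lit 1271250, nat_lit 1271250, [nat_lit 780000, nat_lit 1435000, nat_lit 1271250], [nat_lit 18, nat_lit 40, nat_lit 40, nat_lit 80, nat_lit 2, nat_lit 317, nat_lit 100, nat_lit 10]⟩, ⟨p057_k3, nat_lit 0, nat_lit 0, nat_lit 525, nat_lit 0, nat_lit 379387, [nat_lit 0, nat_lit 0, nat_lit 0], [], [nat_lit 0, nat_lit 0, nat_lit 0, nat_lit 0, nat_lit 0, nat_lit 0, nat_lit 0, nat_lit 0], nat_lit 1271250, nat_lit 1271250, nat_lit 230001, nat_lit 780000, nat_lit 0, nat_lit 2373000, [nat_lit 1100000, nat_lit 1785000, nat_lit 1271250], [nat_lit 21, nat_lit 40,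 nat_lit 40, nat_lit 80, nat_lit 14, nat_lit 428, nat_lit 200, nat_lit 11]⟩,
 ⟨nat_lit 5123, nat_lit 5245, ⟨.ofNat (nat_lit 250085), .ofNat (nat_lit 396427), .ofNat (nat_lit 292856), .ofNat (nat_lit 439197), .ofNat (nat_lit 253618), .ofNat (nat_lit 398213), .ofNat (nat_lit 296428), .ofNat (nat_lit 441022)⟩, ⟨.ofNat (nat_lit 328915), .ofNat (nat_lit 402086), .ofNat (nat_lit 371686), .ofNat (nat_lit 444857), .ofNat (nat_lit 328758), .ofNat (nat_lit 401056), .ofNat (nat_lit 371568), .ofNat (nat_lit 443866)⟩⟩, [⟨nat_lit 0, nat_lit 100, nat_lit 96, nat_lit 86, nat_lit 112864027⟩, ⟨nat_lit 4, nat_lit 100, nat_lit 93, nat_lit 75, nat_lit 154537570⟩]⟩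
noncomputable def p057_l108 : Lf2 := ⟨nat_lit 0, nat_lit 10, [nat_lit 0, nat_lit 5, nat_lit 5, nat_lit 20], false, nat_lit 200, nat_lit 240, nat_lit 0, nat_lit 336, ⟨nat_lit 0, nat_lit 0, nat_lit 1000, nat_lit 6, nat_lit 141, nat_lit 1000, nat_lit 154, nat_lit 1000, nat_lit 224267, nat_lit 331, nat_lit 187267, nat_lit 321, nat_lit 50494496, nat_lit 0, nat_lit 0, nat_lit 3896898, false, false⟩,
 nat_lit 0, nat_lit 5233, nat_lit 0, nat_lit 0, nat_lit 3548, nat_lit 0, nat_lit 58, nat_lit 0, nat_lit 0, nat_lit 0, nat_lit 0, nat_lit 0, nat_lit 0, nat_lit 0, nat_lit 72, nat_lit 400000, nat_lit 0, nat_lit 0, [(nat_lit 12, [(nat_lit 5, nat_lit 1000)])],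
 ⟨p057_k27, nat_lit 0, nat_lit 0, nat_lit 196, nat_lit 0, nat_lit 304819, [nat_lit 2104800000, nat_lit 905333334, nat_lit 113066666], [], [nat_lit 15860249942, nat_lit 16136721631, nat_lit 15958041950, nat_lit 16213271672, nat_lit 17109187744, nat_lit 17425266825, nat_lit 17191309826, nat_lit 17480493912], nat_lit 1271250, nat_lit 1271250, nat_lit 254650, nat_lit 780000, nat_lit 1271250, nat_lit 1271250, [nat_lit 780000, nat_lit 1435000, nat_lit 1271250], [nat_lit 18, nat_lit 40, nat_lit 40, nat_lit 80, nat_lit 2, nat_lit 317, nat_lit 100, nat_lit 10]⟩, ⟨p057_k3, nat_lit 0, nat_lit 0, nat_lit 536, nat_lit 0, nat_lit 413781, [nat_lit 0, nat_lit 0, nat_lit 0], [], [nat_lit 0, nat_lit 0, nat_lit 0, nat_lit 0, nat_lit 0, nat_lit 0, nat_lit 0, nat_lit 0], nat_lit 1271250, nat_lit 1271250, nat_lit 254650, nat_lit 780000, nat_lit 0, nat_lit 2373000, [nat_lit 1100000, nat_lit 1785000, nat_lit 1271250], [nat_lit 21, nat_lit 40,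 nat_lit 40, nat_lit 80, nat_lit 14, nat_lit 428, nat_lit 200, nat_lit 11]⟩,
 ⟨nat_lit 5000, nat_lit 5124, ⟨.ofNat (nat_lit 260847), .ofNat (nat_lit 398213), .ofNat (nat_lit 303657), .ofNat (nat_lit 441022), .ofNat (nat_lit 264284), .ofNat (nat_lit 399998), .ofNat (nat_lit 307141), .ofNat (nat_lit 442855)⟩, ⟨.ofNat (nat_lit 328758), .ofNat (nat_lit 401056), .ofNat (nat_lit 371568), .ofNat (nat_lit 443866), .ofNat (nat_lit 328570), .ofNat (nat_lit 399998), .ofNat (nat_lit 371427), .ofNat (nat_lit 442856)⟩⟩, [⟨nat_lit 0, nat_lit 100, nat_lit 94, nat_lit 88, nat_lit 105099351⟩, ⟨nat_lit 4, nat_lit 100, nat_lit 91, nat_lit 74, nat_lit 177045796⟩]⟩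
noncomputable def p057_l109 : Lf2 := ⟨nat_lit 0, nat_lit 10, [nat_lit 0, nat_lit 5, nat_lit 5, nat_lit 20], false, nat_lit 200, nat_lit 240, nat_lit 0, nat_lit 160, ⟨nat_lit 431, nat_lit 0, nat_lit 569, nat_lit 6, nat_lit 182, nat_lit 569, nat_lit 155, nat_lit 569, nat_lit 224267, nat_lit 331, nat_lit 24681, nat_lit 252, nat_lit 47179356, nat_lit 0, nat_lit 0, nat_lit 4345564, false, false⟩,
 nat_lit 6114, nat_lit 2392, nat_lit 0, nat_lit 0, nat_lit 5412, nat_lit 3236, nat_lit 640, nat_lit 0, nat_lit 0, nat_lit 478, nat_lit 0, nat_lit 0, nat_lit 0, nat_lit 0, nat_lit 0, nat_lit 569000, nat_lit 0, nat_lit 0, [(nat_lit 12, [(nat_lit 6, nat_lit 569)])],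
 ⟨p057_k5, nat_lit 0, nat_lit 0, nat_lit 314, nat_lit 0, nat_lit 529661, [nat_lit 1932104400, nat_lit 2250973000, nat_lit 1173398800], [], [nat_lit 14900111704, nat_lit 16157108424, nat_lit 15315316480, nat_lit 16506044452, nat_lit 16159659440, nat_lit 17316139264, nat_lit 16616828848, nat_lit 17904019296], nat_lit 1271250, nat_lit 1271250, nat_lit 780000, nat_lit 1100001, nat_lit 1271250, nat_lit 1271250, [nat_lit 780000, nat_lit 1100000, nat_lit 2127500], [nat_lit 42, nat_lit 40, nat_lit 40, nat_lit 80, nat_lit 13, nat_lit 317, nat_lit 100, nat_lit 8]⟩, ⟨p057_k6, nat_lit 0, nat_lit 0, nat_lit 575, nat_lit 0, nat_lit 665471, [nat_lit 2020528000, nat_lit 2693750000, nat_lit 5116832000], [], [nat_lit 18265429412, nat_lit 14843437076, nat_lit 14843437076, nat_lit 14410002186, nat_lit 13540610456, nat_lit 12825843966, nat_lit 15184739892, nat_lit 12721001062], nat_lit 1271250, nat_lit 1271250, nat_lit 780000, nat_lit 1100001,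 nat_lit 0, nat_lit 1100001, [nat_lit 1100000, nat_lit 1442500, nat_lit 1271250], [nat_lit 48, nat_lit 40, nat_lit 40, nat_lit 80, nat_lit 12, nat_lit 373, nat_lit 150, nat_lit 10]⟩,
 ⟨nat_lit 5000, nat_lit 5478, ⟨.ofNat (nat_lit 392847), .ofNat (nat_lit 467773), .ofNat (nat_lit 435548), .ofNat (nat_lit 510468), .ofNat (nat_lit 399998), .ofNat (nat_lit 471421), .ofNat (nat_lit 442843), .ofNat (nat_lit 514258)⟩, ⟨.ofNat (nat_lit 329142), .ofNat (nat_lit 404075), .ofNat (nat_lit 371856), .ofNat (nat_lit 446789), .ofNat (nat_lit 328570), .ofNat (nat_lit 399998), .ofNat (nat_lit 371427), .ofNat (nat_lit 442856)⟩⟩, [⟨nat_lit 4, nat_lit 100, nat_lit 94, nat_lit 75, nat_lit 211508522⟩]⟩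
noncomputable def p057_l110 : Lf2 := ⟨nat_lit 0, nat_lit 10, [nat_lit 0, nat_lit 5, nat_lit 5, nat_lit 20], false, nat_lit 200, nat_lit 240, nat_lit 160, nat_lit 336, ⟨nat_lit 275, nat_lit 0, nat_lit 725, nat_lit 6, nat_lit 182, nat_lit 725, nat_lit 155, nat_lit 725, nat_lit 224267, nat_lit 331, nat_lit 24681, nat_lit 252, nat_lit 47179356, nat_lit 0, nat_lit 0, nat_lit 4345564, false, false⟩,
 nat_lit 5747, nat_lit 2066, nat_lit 0, nat_lit 0, nat_lit 4971, nat_lit 3042, nat_lit 184, nat_lit 0, nat_lit 0, nat_lit 340, nat_lit 0, nat_lit 0, nat_lit 0, nat_lit 0, nat_lit 57, nat_lit 725000, nat_lit 0, nat_lit 0, [(nat_lit 12, [(nat_lit 6, nat_lit 725)])],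
 ⟨p057_k0, nat_lit 0, nat_lit 0, nat_lit 320, nat_lit 0, nat_lit 529661, [nat_lit 2413920001, nat_lit 2041240001, nat_lit 392770000], [], [nat_lit 15040306495, nat_lit 16141825540, nat_lit 15536217358, nat_lit 16600361006, nat_lit 16239085146, nat_lit 17283089176, nat_lit 16679885378, nat_lit 17906441268], nat_lit 1271250, nat_lit 1271250, nat_lit 780000, nat_lit 1100001, nat_lit 1271250, nat_lit 1271250, [nat_lit 780000, nat_lit 1435000, nat_lit 1271250], [nat_lit 8, nat_lit 40, nat_lit 40, nat_lit 80, nat_lit 1, nat_lit 317, nat_lit 100, nat_lit 8]⟩, ⟨p057_k3, nat_lit 0, nat_lit 0, nat_lit 486, nat_lit 0, nat_lit 665471, [nat_lit 1289200000, nat_lit 2191200000, nat_lit 3264800000], [], [nat_lit 9109882588, nat_lit 5942778416, nat_lit 8911449584, nat_lit 5964615512, nat_lit 6922883556, nat_lit 7329280074, nat_lit 6694062275, nat_lit 7200491533], nat_lit 1271250, nat_lit 1271250, nat_lit 780000, nat_lit 1100001, nat_lit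 1271250, nat_lit 1271250, [nat_lit 1100000, nat_lit 1785000, nat_lit 1271250], [nat_lit 21, nat_lit 40, nat_lit 40, nat_lit 80, nat_lit 14, nat_lit 428, nat_lit 200, nat_lit 11]⟩,
 ⟨nat_lit 5000, nat_lit 5478, ⟨.ofNat (nat_lit 392847), .ofNat (nat_lit 467773), .ofNat (nat_lit 435548), .ofNat (nat_lit 510468), .ofNat (nat_lit 399998), .ofNat (nat_lit 471421), .ofNat (nat_lit 442843), .ofNat (nat_lit 514258)⟩, ⟨.ofNat (nat_lit 329142), .ofNat (nat_lit 404075), .ofNat (nat_lit 371856), .ofNat (nat_lit 446789), .ofNat (nat_lit 328570), .ofNat (nat_lit 399998), .ofNat (nat_lit 371427), .ofNat (nat_lit 442856)⟩⟩, [⟨nat_lit 4, nat_lit 100, nat_lit 94, nat_lit 75, nat_lit 250927465⟩, ⟨nat_lit 7, nat_lit 92, nat_lit 100, nat_lit 75, nat_lit 136210131⟩]⟩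
noncomputable def p057_l111 : Lf2 := ⟨nat_lit 0, nat_lit 10, [nat_lit 0, nat_lit 5, nat_lit 5, nat_lit 20], false, nat_lit 200, nat_lit 240, nat_lit 0, nat_lit 160, ⟨nat_lit 0, nat_lit 0, nat_lit 1000, nat_lit 6, nat_lit 141, nat_lit 1000, nat_lit 154, nat_lit 1000, nat_lit 220417, nat_lit 330, nat_lit 183750, nat_lit 320, nat_lit 50569727, nat_lit 0, nat_lit 0, nat_lit 3885919, false, false⟩,
 nat_lit 0, nat_lit 4892, nat_lit 0, nat_lit 0, nat_lit 3386, nat_lit 0, nat_lit 0, nat_lit 0, nat_lit 0, nat_lit 0, nat_lit 0, nat_lit 0, nat_lit 0, nat_lit 0, nat_lit 196, nat_lit 889000, nat_lit 0, nat_lit 0, [(nat_lit 15, [(nat_lit 5, nat_lit 185), (nat_lit 6, nat_lit 815)])],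
 ⟨p057_k11, nat_lit 0, nat_lit 0, nat_lit 307, nat_lit 0, nat_lit 512338, [nat_lit 3394012001, nat_lit 1871146001, nat_lit 8122000], [], [nat_lit 16239184181, nat_lit 17422502683, nat_lit 16670884775, nat_lit 17763818327, nat_lit 17626294591, nat_lit 18787839170, nat_lit 17962042459, nat_lit 18977997923], nat_lit 1271250, nat_lit 1271250, nat_lit 279600, nat_lit 780000, nat_lit 1271250, nat_lit 1271250, [nat_lit 780000, nat_lit 1435000, nat_lit 1271250], [nat_lit 18, nat_lit 40, nat_lit 40, nat_lit 80, nat_lit 2, nat_lit 317, nat_lit 100, nat_lit 10]⟩, ⟨p057_k3, nat_lit 0, nat_lit 0, nat_lit 683, nat_lit 0, nat_lit 713048, [nat_lit 0, nat_lit 0, nat_lit 0], [], [nat_lit 0, nat_lit 0, nat_lit 0, nat_lit 0, nat_lit 0, nat_lit 0, nat_lit 0, nat_lit 0], nat_lit 1271250, nat_lit 1271250, nat_lit 279600, nat_lit 780000, nat_lit 0, nat_lit 1100001, [nat_lit 1100000, nat_lit 1785000, nat_lit 1271250], [nat_lit 21, nat_lit 40,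 nat_lit 40, nat_lit 80, nat_lit 14, nat_lit 373, nat_lit 150, nat_lit 10]⟩,
 ⟨nat_lit 4472, nat_lit 5000, ⟨.ofNat (nat_lit 271418), .ofNat (nat_lit 399984), .ofNat (nat_lit 292837), .ofNat (nat_lit 421400), .ofNat (nat_lit 284805), .ofNat (nat_lit 407160), .ofNat (nat_lit 306362), .ofNat (nat_lit 428715)⟩, ⟨.ofNat (nat_lit 328570), .ofNat (nat_lit 399998), .ofNat (nat_lit 371427), .ofNat (nat_lit 442856), .ofNat (nat_lit 327467), .ofNat (nat_lit 395445), .ofNat (nat_lit 370600), .ofNat (nat_lit 438578)⟩⟩, [⟨nat_lit 0, nat_lit 100, nat_lit 84, nat_lit 85, nat_lit 91118419⟩, ⟨nat_lit 4, nat_lit 100, nat_lit 85, nat_lit 73, nat_lit 209917651⟩]⟩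
noncomputable def p057_l112 : Lf2 := ⟨nat_lit 0, nat_lit 10, [nat_lit 0, nat_lit 5, nat_lit 5, nat_lit 20], false, nat_lit 200, nat_lit 240, nat_lit 0, nat_lit 160, ⟨nat_lit 253, nat_lit 0, nat_lit 747, nat_lit 6, nat_lit 155, nat_lit 747, nat_lit 154, nat_lit 747, nat_lit 220417, nat_lit 330, nat_lit 224267, nat_lit 331, nat_lit 49447353, nat_lit 0, nat_lit 0, nat_lit 4053132, false, false⟩,
 nat_lit 2580, nat_lit 3839, nat_lit 0, nat_lit 0, nat_lit 4443, nat_lit 1501, nat_lit 0, nat_lit 0, nat_lit 0, nat_lit 609, nat_lit 0, nat_lit 0, nat_lit 0, nat_lit 0, nat_lit 51, nat_lit 608400, nat_lit 0, nat_lit 0, [(nat_lit 15, [(nat_lit 5, nat_lit 231), (nat_lit 6, nat_lit 516)])],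
 ⟨p057_k11, nat_lit 0, nat_lit 0, nat_lit 324, nat_lit 0, nat_lit 582261, [nat_lit 2251837201, nat_lit 1194335201, nat_lit 12465600], [], [nat_lit 16437850430, nat_lit 17558169565, nat_lit 16534123702, nat_lit 17533547442, nat_lit 17570629791, nat_lit 19246855659, nat_lit 17660885468, nat_lit 18845126440], nat_lit 1271250, nat_lit 1271250, nat_lit 382400, nat_lit 780000, nat_lit 1271250, nat_lit 1271250, [nat_lit 780000, nat_lit 1435000, nat_lit 1271250], [nat_lit 18, nat_lit 40, nat_lit 40, nat_lit 80, nat_lit 2, nat_lit 317, nat_lit 100, nat_lit 10]⟩, ⟨p057_k2, nat_lit 0, nat_lit 0, nat_lit 592, nat_lit 0, nat_lit 719790, [nat_lit 1186064000, nat_lit 2015904000, nat_lit 2490026000], [], [nat_lit 9390601009, nat_lit 8592041991, nat_lit 7736845238, nat_lit 7879433448, nat_lit 7356484660, nat_lit 7421687952, nat_lit 8171232194, nat_lit 7473414292], nat_lit 1271250, nat_lit 1271250, nat_lit 382400, nat_lit 780000, nat_lit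 0, nat_lit 1100001, [nat_lit 1100000, nat_lit 1785000, nat_lit 1271250], [nat_lit 29, nat_lit 40, nat_lit 40, nat_lit 80, nat_lit 17, nat_lit 373, nat_lit 150, nat_lit 11]⟩,
 ⟨nat_lit 4472, nat_lit 5000, ⟨.ofNat (nat_lit 321407), .ofNat (nat_lit 421400), .ofNat (nat_lit 342823), .ofNat (nat_lit 442816), .ofNat (nat_lit 333552), .ofNat (nat_lit 428715), .ofNat (nat_lit 355106), .ofNat (nat_lit 450269)⟩, ⟨.ofNat (nat_lit 328570), .ofNat (nat_lit 399998), .ofNat (nat_lit 371427), .ofNat (nat_lit 442856), .ofNat (nat_lit 327467), .ofNat (nat_lit 395445), .ofNat (nat_lit 370600), .ofNat (nat_lit 438578)⟩⟩, [⟨nat_lit 0, nat_lit 100, nat_lit 89, nat_lit 86, nat_lit 258952565⟩, ⟨nat_lit 16, nat_lit 85, nat_lit 100, nat_lit 73, nat_lit 274440509⟩]⟩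
noncomputable def p057_l113 : Lf2 := ⟨nat_lit 0, nat_lit 10, [nat_lit 0, nat_lit 5, nat_lit 5, nat_lit 20], false, nat_lit 200, nat_lit 240, nat_lit 160, nat_lit 312, ⟨nat_lit 267, nat_lit 0, nat_lit 733, nat_lit 6, nat_lit 145, nat_lit 733, nat_lit 149, nat_lit 733, nat_lit 209067, nat_lit 327, nat_lit 198017, nat_lit 324, nat_lit 50582736, nat_lit 0, nat_lit 0, nat_lit 3887308, false, false⟩,
 nat_lit 5869, nat_lit 375, nat_lit 0, nat_lit 0, nat_lit 4322, nat_lit 3106, nat_lit 0, nat_lit 0, nat_lit 0, nat_lit 365, nat_lit 0, nat_lit 0, nat_lit 0, nat_lit 0, nat_lit 72, nat_lit 733000, nat_lit 0, nat_lit 0, [(nat_lit 15, [(nat_lit 6, nat_lit 733)])],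
 ⟨p057_k11, nat_lit 0, nat_lit 0, nat_lit 322, nat_lit 0, nat_lit 550247, [nat_lit 2458634000, nat_lit 1426368401, nat_lit 3687600], [], [nat_lit 16578935239, nat_lit 17821706848, nat_lit 16654440752, nat_lit 17739708852, nat_lit 17802612359, nat_lit 19505501820, nat_lit 17874551056, nat_lit 18880701400], nat_lit 1271250, nat_lit 1271250, nat_lit 279600, nat_lit 780000, nat_lit 1271250, nat_lit 1271250, [nat_lit 780000, nat_lit 1435000, nat_lit 1271250], [nat_lit 18, nat_lit 40, nat_lit 40, nat_lit 80, nat_lit 2, nat_lit 317, nat_lit 100, nat_lit 10]⟩, ⟨p057_k3, nat_lit 0, nat_lit 0, nat_lit 567, nat_lit 0, nat_lit 760341, [nat_lit 1251696000, nat_lit 2127456000, nat_lit 3169824000], [], [nat_lit 8644907201, nat_lit 6135498806, nat_lit 7325006356, nat_lit 5336484912, nat_lit 6957984417, nat_lit 7521063768, nat_lit 5966561751, nat_lit 6358789010], nat_lit 1271250, nat_lit 1271250, nat_lit 279600, nat_lit 780000, nat_lit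 1271250, nat_lit 1271250, [nat_lit 1100000, nat_lit 1785000, nat_lit 1271250], [nat_lit 21, nat_lit 40, nat_lit 40, nat_lit 80, nat_lit 14, nat_lit 428, nat_lit 200, nat_lit 11]⟩,
 ⟨nat_lit 4472, nat_lit 5000, ⟨.ofNat (nat_lit 271418), .ofNat (nat_lit 399984), .ofNat (nat_lit 314253), .ofNat (nat_lit 442816), .ofNat (nat_lit 284805), .ofNat (nat_lit 407160), .ofNat (nat_lit 327916), .ofNat (nat_lit 450269)⟩, ⟨.ofNat (nat_lit 328570), .ofNat (nat_lit 399998), .ofNat (nat_lit 349999), .ofNat (nat_lit 421427), .ofNat (nat_lit 327467), .ofNat (nat_lit 395445), .ofNat (nat_lit 349033), .ofNat (nat_lit 417011)⟩⟩, [⟨nat_lit 0, nat_lit 100, nat_lit 88, nat_lit 81, nat_lit 355415523⟩, ⟨nat_lit 4, nat_lit 100, nat_lit 84, nat_lit 67, nat_lit 333056951⟩, ⟨nat_lit 7, nat_lit 96, nat_lit 100, nat_lit 69, nat_lit 46832109⟩]⟩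
noncomputable def p057_l114 : Lf2 := ⟨nat_lit 0, nat_lit 10, [nat_lit 0, nat_lit 5, nat_lit 5, nat_lit 20], false, nat_lit 200, nat_lit 240, nat_lit 160, nat_lit 336, ⟨nat_lit 152, nat_lit 0, nat_lit 848, nat_lit 6, nat_lit 145, nat_lit 848, nat_lit 158, nat_lit 848, nat_lit 236017, nat_lit 334, nat_lit 198017, nat_lit 324, nat_lit 49879512, nat_lit 0, nat_lit 0, nat_lit 3987412, false, false⟩,
 nat_lit 3141, nat_lit 2247, nat_lit 0, nat_lit 0, nat_lit 3729, nat_lit 1662, nat_lit 0, nat_lit 0, nat_lit 0, nat_lit 190, nat_lit 0, nat_lit 0, nat_lit 0, nat_lit 0, nat_lit 131, nat_lit 824000, nat_lit 0, nat_lit 0, [(nat_lit 15, [(nat_lit 5, nat_lit 40), (nat_lit 6, nat_lit 808)])],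
 ⟨p057_k11, nat_lit 0, nat_lit 0, nat_lit 290, nat_lit 0, nat_lit 469714, [nat_lit 2915312001, nat_lit 1676934401, nat_lit 19913600], [], [nat_lit 16346320220, nat_lit 17583312802, nat_lit 16673552961, nat_lit 17814071589, nat_lit 17764184764, nat_lit 19050828795, nat_lit 17989919087, nat_lit 19047968883], nat_lit 1271250, nat_lit 1271250, nat_lit 279600, nat_lit 780000, nat_lit 1271250, nat_lit 1271250, [nat_lit 780000, nat_lit 1435000, nat_lit 1271250], [nat_lit 18, nat_lit 40, nat_lit 40, nat_lit 80, nat_lit 2, nat_lit 317, nat_lit 100, nat_lit 10]⟩, ⟨p057_k3, nat_lit 0, nat_lit 0, nat_lit 524, nat_lit 0, nat_lit 653726, [nat_lit 712576000, nat_lit 1211136000, nat_lit 1804544000], [], [nat_lit 4894037578, nat_lit 3756138893, nat_lit 4244282528, nat_lit 3339863120, nat_lit 4414887707, nat_lit 4722194635, nat_lit 3880553928, nat_lit 4043511210], nat_lit 1271250, nat_lit 1271250, nat_lit 279600, nat_lit 780000, nat_lit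 1271250, nat_lit 1271250, [nat_lit 1100000, nat_lit 1785000, nat_lit 1271250], [nat_lit 21, nat_lit 40, nat_lit 40, nat_lit 80, nat_lit 14, nat_lit 428, nat_lit 200, nat_lit 11]⟩,
 ⟨nat_lit 4472, nat_lit 5000, ⟨.ofNat (nat_lit 271418), .ofNat (nat_lit 399984), .ofNat (nat_lit 314253), .ofNat (nat_lit 442816), .ofNat (nat_lit 284805), .ofNat (nat_lit 407160), .ofNat (nat_lit 327916), .ofNat (nat_lit 450269)⟩, ⟨.ofNat (nat_lit 349999), .ofNat (nat_lit 421427), .ofNat (nat_lit 371427), .ofNat (nat_lit 442856), .ofNat (nat_lit 349033), .ofNat (nat_lit 417011), .ofNat (nat_lit 370600), .ofNat (nat_lit 438578)⟩⟩, [⟨nat_lit 0, nat_lit 100, nat_lit 87, nat_lit 95, nat_lit 247366467⟩, ⟨nat_lit 4, nat_lit 100, nat_lit 87, nat_lit 79, nat_lit 16618945⟩, ⟨nat_lit 19, nat_lit 100, nat_lit 89, nat_lit 80, nat_lit 68403586⟩]⟩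
noncomputable def p057_l115 : Lf2 := ⟨nat_lit 0, nat_lit 10, [nat_lit 0, nat_lit 5, nat_lit 5, nat_lit 20], false, nat_lit 200, nat_lit 240, nat_lit 0, nat_lit 160, ⟨nat_lit 306, nat_lit 0, nat_lit 694, nat_lit 6, nat_lit 184, nat_lit 694, nat_lit 154, nat_lit 694, nat_lit 220417, nat_lit 330, nat_lit 19267, nat_lit 249, nat_lit 47070564, nat_lit 0, nat_lit 0, nat_lit 4355875, false, false⟩,
 nat_lit 4457, nat_lit 1688, nat_lit 0, nat_lit 0, nat_lit 4253, nat_lit 2359, nat_lit 121, nat_lit 0, nat_lit 0, nat_lit 249, nat_lit 0, nat_lit 0, nat_lit 0, nat_lit 0, nat_lit 51, nat_lit 694000, nat_lit 0, nat_lit 0, [(nat_lit 15, [(nat_lit 6, nat_lit 694)])],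
 ⟨p057_k11, nat_lit 0, nat_lit 0, nat_lit 296, nat_lit 0, nat_lit 582261, [nat_lit 2296412000, nat_lit 1339631201, nat_lit 15376800], [], [nat_lit 16466700724, nat_lit 17533748960, nat_lit 17053271502, nat_lit 18173022348, nat_lit 17674920988, nat_lit 18797278160, nat_lit 18299915008, nat_lit 19382734740], nat_lit 1271250, nat_lit 1271250, nat_lit 780000, nat_lit 1100001, nat_lit 1271250, nat_lit 1271250, [nat_lit 780000, nat_lit 1435000, nat_lit 1271250], [nat_lit 18, nat_lit 40, nat_lit 40, nat_lit 80, nat_lit 2, nat_lit 317, nat_lit 100, nat_lit 9]⟩, ⟨p057_k3, nat_lit 0, nat_lit 0, nat_lit 679, nat_lit 0, nat_lit 810363, [nat_lit 1434528000, nat_lit 2438208000, nat_lit 3632832000], [], [nat_lit 15117071716, nat_lit 12591579516, nat_lit 12583798232, nat_lit 12468913296, nat_lit 10991549932, nat_lit 11159026144, nat_lit 10867229964, nat_lit 11053601352], nat_lit 1271250, nat_lit 1271250, nat_lit 780000, nat_lit 1100001,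 nat_lit 0, nat_lit 1100001, [nat_lit 1100000, nat_lit 1785000, nat_lit 1271250], [nat_lit 21, nat_lit 40, nat_lit 40, nat_lit 80, nat_lit 14, nat_lit 373, nat_lit 150, nat_lit 10]⟩,
 ⟨nat_lit 4472, nat_lit 5000, ⟨.ofNat (nat_lit 399984), .ofNat (nat_lit 471408), .ofNat (nat_lit 442816), .ofNat (nat_lit 514240), .ofNat (nat_lit 407160), .ofNat (nat_lit 475134), .ofNat (nat_lit 450269), .ofNat (nat_lit 518242)⟩, ⟨.ofNat (nat_lit 328570), .ofNat (nat_lit 399998), .ofNat (nat_lit 371427), .ofNat (nat_lit 442856), .ofNat (nat_lit 327467), .ofNat (nat_lit 395445), .ofNat (nat_lit 370600), .ofNat (nat_lit 438578)⟩⟩, [⟨nat_lit 4, nat_lit 100, nat_lit 85, nat_lit 73, nat_lit 336450832⟩]⟩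
noncomputable def p057_l116 : Lf2 := ⟨nat_lit 0, nat_lit 10, [nat_lit 0, nat_lit 5, nat_lit 5, nat_lit 20], false, nat_lit 200, nat_lit 240, nat_lit 160, nat_lit 336, ⟨nat_lit 295, nat_lit 0, nat_lit 705, nat_lit 6, nat_lit 184, nat_lit 705, nat_lit 154, nat_lit 705, nat_lit 220417, nat_lit 330, nat_lit 19267, nat_lit 249, nat_lit 47070564, nat_lit 0, nat_lit 0, nat_lit 4355875, false, false⟩,
 nat_lit 6104, nat_lit 0, nat_lit 0, nat_lit 0, nat_lit 4225, nat_lit 3231, nat_lit 0, nat_lit 0, nat_lit 0, nat_lit 370, nat_lit 0, nat_lit 0, nat_lit 0, nat_lit 0, nat_lit 57, nat_lit 705000, nat_lit 0, nat_lit 0, [(nat_lit 15, [(nat_lit 6, nat_lit 705)])],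
 ⟨p057_k11, nat_lit 0, nat_lit 0, nat_lit 296, nat_lit 0, nat_lit 582261, [nat_lit 2343090000, nat_lit 1365634001, nat_lit 13926000], [], [nat_lit 16664926477, nat_lit 17690684301, nat_lit 17215246451, nat_lit 18218797101, nat_lit 17797477901, nat_lit 18789388000, nat_lit 18312003051, nat_lit 19377902500], nat_lit 1271250, nat_lit 1271250, nat_lit 780000, nat_lit 1100001, nat_lit 1271250, nat_lit 1271250, [nat_lit 780000, nat_lit 1435000, nat_lit 1271250], [nat_lit 18, nat_lit 40, nat_lit 40, nat_lit 80, nat_lit 2, nat_lit 317, nat_lit 100, nat_lit 9]⟩, ⟨p057_k3, nat_lit 0, nat_lit 0, nat_lit 546, nat_lit 0, nat_lit 810363, [nat_lit 1382960000, nat_lit 2350560000, nat_lit 3502240000], [], [nat_lit 9757385624, nat_lit 6466601128, nat_lit 9572496232, nat_lit 6442574836, nat_lit 7516258128, nat_lit 7838064865, nat_lit 7275254388, nat_lit 7707496207], nat_lit 1271250, nat_lit 1271250, nat_lit 780000, nat_lit 1100001, nat_lit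 1271250, nat_lit 1271250, [nat_lit 1100000, nat_lit 1785000, nat_lit 1271250], [nat_lit 21, nat_lit 40, nat_lit 40, nat_lit 80, nat_lit 14, nat_lit 428, nat_lit 200, nat_lit 11]⟩,
 ⟨nat_lit 4472, nat_lit 5000, ⟨.ofNat (nat_lit 399984), .ofNat (nat_lit 471408), .ofNat (nat_lit 442816), .ofNat (nat_lit 514240), .ofNat (nat_lit 407160), .ofNat (nat_lit 475134), .ofNat (nat_lit 450269), .ofNat (nat_lit 518242)⟩, ⟨.ofNat (nat_lit 328570), .ofNat (nat_lit 399998), .ofNat (nat_lit 371427), .ofNat (nat_lit 442856), .ofNat (nat_lit 327467), .ofNat (nat_lit 395445), .ofNat (nat_lit 370600), .ofNat (nat_lit 438578)⟩⟩, [⟨nat_lit 16, nat_lit 85, nat_lit 100, nat_lit 73, nat_lit 292140717⟩, ⟨nat_lit 7, nat_lit 92, nat_lit 100, nat_lit 75, nat_lit 90058543⟩]⟩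
noncomputable def b_V_700_600_10_17 : St := ⟨true, nat_lit 1, nat_lit 1, nat_lit 1, nat_lit 80, nat_lit 280, nat_lit 320, nat_lit 240, nat_lit 280, nat_lit 36, nat_lit 160, nat_lit 40, nat_lit 80, nat_lit 200, nat_lit 240, nat_lit 0, nat_lit 336, nat_lit 0, nat_lit 40, nat_lit 0, nat_lit 0, nat_lit 0, nat_lit 0⟩
theorem d_V_700_600_10_17 (h : EB TB.env) : Dead b_V_700_600_10_17 := chkB_sound0 h (T :=
(.spl (nat_lit 0) (nat_lit 300)
(.spl (nat_lit 2) (nat_lit 120)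
(.spl (nat_lit 6) (nat_lit 20)
(.spl (nat_lit 1) (nat_lit 260)
(.leaf p057_l97)
(.trZ (nat_lit 0) (nat_lit 100) (nat_lit 96) (nat_lit 69) (nat_lit 48) (.trX (nat_lit 19) (nat_lit 100) (nat_lit 85) (nat_lit 84) (nat_lit 320) (.spl (nat_lit 3) (nat_lit 60)
(.trX (nat_lit 19) (nat_lit 100) (nat_lit 92) (nat_lit 75) (nat_lit 296) (.spl (nat_lit 1) (nat_lit 270)
(.spl (nat_lit 0) (nat_lit 290)
(.leaf p057_l98)
(.trZ (nat_lit 0) (nat_lit 100) (nat_lit 94) (nat_lit 73) (nat_lit 56) (.leaf p057_l99)))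
(.trZ (nat_lit 0) (nat_lit 100) (nat_lit 98) (nat_lit 74) (nat_lit 56) (.trX (nat_lit 19) (nat_lit 100) (nat_lit 97) (nat_lit 76) (nat_lit 288) (.spl (nat_lit 1) (nat_lit 275)
(.leaf p057_l100)
(.trZ (nat_lit 0) (nat_lit 100) (nat_lit 99) (nat_lit 77) (nat_lit 60) (.trX (nat_lit 19) (nat_lit 100) (nat_lit 99) (nat_lit 77) (nat_lit 280) (.leaf p057_l101))))))))
(.spl (nat_lit 0) (nat_lit 290)
(.leaf p057_l102)
(.trZ (nat_lit 0) (nat_lit 100) (nat_lit 94) (nat_lit 73) (nat_lit 56) (.leaf p057_l103)))))))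
(.spl (nat_lit 0) (nat_lit 290)
(.spl (nat_lit 2) (nat_lit 80)
(.spl (nat_lit 3) (nat_lit 60)
(.trX (nat_lit 19) (nat_lit 100) (nat_lit 85) (nat_lit 73) (nat_lit 312) (.leaf p057_l104))
(.leaf p057_l105))
(.leaf p057_l106))
(.trZ (nat_lit 0) (nat_lit 100) (nat_lit 91) (nat_lit 63) (nat_lit 40) (.spl (nat_lit 0) (nat_lit 295)
(.leaf p057_l107)
(.trZ (nat_lit 0) (nat_lit 100) (nat_lit 90) (nat_lit 65) (nat_lit 44) (.leaf p057_l108))))))
(.spl (nat_lit 5) (nat_lit 160)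
(.leaf p057_l109)
(.leaf p057_l110)))
(.trZ (nat_lit 0) (nat_lit 100) (nat_lit 88) (nat_lit 68) (nat_lit 48) (.spl (nat_lit 2) (nat_lit 120)
(.spl (nat_lit 5) (nat_lit 160)
(.spl (nat_lit 1) (nat_lit 260)
(.leaf p057_l111)
(.trZ (nat_lit 0) (nat_lit 100) (nat_lit 91) (nat_lit 77) (nat_lit 64) (.leaf p057_l112)))
(.spl (nat_lit 3) (nat_lit 60)
(.trX (nat_lit 19) (nat_lit 100) (nat_lit 85) (nat_lit 73) (nat_lit 312) (.leaf p057_l113))
(.leaf p057_l114)))
(.spl (nat_lit 5) (nat_lit 160)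
(.leaf p057_l115)
(.leaf p057_l116)))))) (by decide +kernel)
noncomputable def p057_l117 : Lf2 := ⟨nat_lit 0, nat_lit 10, [nat_lit 0, nat_lit 5, nat_lit 5, nat_lit 20], false, nat_lit 160, nat_lit 240, nat_lit 0, nat_lit 160, ⟨nat_lit 329, nat_lit 0, nat_lit 671, nat_lit 6, nat_lit 211, nat_lit 671, nat_lit 140, nat_lit 671, nat_lit 183750, nat_lit 320, nat_lit 561, nat_lit 217, nat_lit 45710823, nat_lit 0, nat_lit 0, nat_lit 4442817, false, false⟩,
 nat_lit 6050, nat_lit 1716, nat_lit 0, nat_lit 0, nat_lit 4942, nat_lit 3202, nat_lit 196, nat_lit 0, nat_lit 0, nat_lit 309, nat_lit 0, nat_lit 0, nat_lit 0, nat_lit 0, nat_lit 24, nat_lit 671000, nat_lit 0, nat_lit 0, [(nat_lit 12, [(nat_lit 6, nat_lit 671)]), (nat_lit 15, [(nat_lit 6, nat_lit 671)])],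
 ⟨p057_k0, nat_lit 0, nat_lit 0, nat_lit 361, nat_lit 0, nat_lit 644983, [nat_lit 2133523201, nat_lit 1779630400, nat_lit 384047200], [], [nat_lit 15941030234, nat_lit 17745730490, nat_lit 16725798074, nat_lit 18410989410, nat_lit 17757797234, nat_lit 19501642360, nat_lit 20269117153, nat_lit 20569362368], nat_lit 1271250, nat_lit 1271250, nat_lit 1100001, nat_lit 1442500, nat_lit 1100001, nat_lit 1785000, [nat_lit 780000, nat_lit 1435000, nat_lit 1271250], [nat_lit 8, nat_lit 40, nat_lit 40, nat_lit 80, nat_lit 1, nat_lit 345, nat_lit 125, nat_lit 9]⟩, ⟨p057_k3, nat_lit 0, nat_lit 0, nat_lit 662, nat_lit 0, nat_lit 810363, [nat_lit 1542352000, nat_lit 2621472000, nat_lit 3905888000], [], [nat_lit 14544043628, nat_lit 11158005476, nat_lit 11158005476, nat_lit 11156396180, nat_lit 8817394632, nat_lit 9117157472, nat_lit 10153809136, nat_lit 9080101984], nat_lit 1271250, nat_lit 1271250, nat_lit 1100001, nat_lit 1442500,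 nat_lit 0, nat_lit 1100001, [nat_lit 1100000, nat_lit 1785000, nat_lit 1271250], [nat_lit 21, nat_lit 40, nat_lit 40, nat_lit 80, nat_lit 14, nat_lit 401, nat_lit 175, nat_lit 10]⟩,
 ⟨nat_lit 4472, nat_lit 5478, ⟨.ofNat (nat_lit 467727), .ofNat (nat_lit 542625), .ofNat (nat_lit 510352), .ofNat (nat_lit 585251), .ofNat (nat_lit 475101), .ofNat (nat_lit 543044), .ofNat (nat_lit 518145), .ofNat (nat_lit 586088)⟩, ⟨.ofNat (nat_lit 254209), .ofNat (nat_lit 404075), .ofNat (nat_lit 296923), .ofNat (nat_lit 446789), .ofNat (nat_lit 259489), .ofNat (nat_lit 395445), .ofNat (nat_lit 302621), .ofNat (nat_lit 438578)⟩⟩, [⟨nat_lit 4, nat_lit 100, nat_lit 90, nat_lit 74, nat_lit 242346970⟩]⟩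
noncomputable def p057_l118 : Lf2 := ⟨nat_lit 0, nat_lit 10, [nat_lit 0, nat_lit 5, nat_lit 5, nat_lit 20], false, nat_lit 160, nat_lit 240, nat_lit 160, nat_lit 336, ⟨nat_lit 336, nat_lit 0, nat_lit 664, nat_lit 6, nat_lit 211, nat_lit 664, nat_lit 140, nat_lit 664, nat_lit 183750, nat_lit 320, nat_lit 67, nat_lit 217, nat_lit 45731913, nat_lit 0, nat_lit 0, nat_lit 4441864, false, false⟩,
 nat_lit 6671, nat_lit 1656, nat_lit 0, nat_lit 0, nat_lit 5299, nat_lit 3531, nat_lit 237, nat_lit 0, nat_lit 0, nat_lit 383, nat_lit 0, nat_lit 0, nat_lit 0, nat_lit 0, nat_lit 23, nat_lit 664000, nat_lit 0, nat_lit 0, [(nat_lit 12, [(nat_lit 6, nat_lit 664)])],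
 ⟨p057_k0, nat_lit 0, nat_lit 0, nat_lit 312, nat_lit 0, nat_lit 529661, [nat_lit 2136508801, nat_lit 1811273601, nat_lit 370092800], [], [nat_lit 15235698510, nat_lit 15762157170, nat_lit 15568069418, nat_lit 16667235326, nat_lit 16888874946, nat_lit 17904639892, nat_lit 19771491746, nat_lit 19094973102], nat_lit 1271250, nat_lit 1271250, nat_lit 1100001, nat_lit 1442500, nat_lit 1100001, nat_lit 1785000, [nat_lit 780000, nat_lit 1435000, nat_lit 1271250], [nat_lit 8, nat_lit 40, nat_lit 40, nat_lit 80, nat_lit 1, nat_lit 345, nat_lit 125, nat_lit 9]⟩, ⟨p057_k3, nat_lit 0, nat_lit 0, nat_lit 428, nat_lit 0, nat_lit 665471, [nat_lit 1575168000, nat_lit 2677248000, nat_lit 3988992000], [], [nat_lit 13675851072, nat_lit 9941903316, nat_lit 9941903316, nat_lit 7097798344, nat_lit 8500560913, nat_lit 8942083440, nat_lit 8513086193, nat_lit 8909192921], nat_lit 1271250, nat_lit 1271250, nat_lit 1100001, nat_lit 1442500, nat_lit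 1271250, nat_lit 1271250, [nat_lit 1100000, nat_lit 1785000, nat_lit 1271250], [nat_lit 21, nat_lit 40, nat_lit 40, nat_lit 80, nat_lit 14, nat_lit 456, nat_lit 225, nat_lit 11]⟩,
 ⟨nat_lit 5000, nat_lit 5478, ⟨.ofNat (nat_lit 467773), .ofNat (nat_lit 542694), .ofNat (nat_lit 510468), .ofNat (nat_lit 585388), .ofNat (nat_lit 471421), .ofNat (nat_lit 542837), .ofNat (nat_lit 514258), .ofNat (nat_lit 585674)⟩, ⟨.ofNat (nat_lit 254209), .ofNat (nat_lit 404075), .ofNat (nat_lit 296923), .ofNat (nat_lit 446789), .ofNat (nat_lit 257141), .ofNat (nat_lit 399998), .ofNat (nat_lit 299999), .ofNat (nat_lit 442856)⟩⟩, [⟨nat_lit 4, nat_lit 100, nat_lit 94, nat_lit 75, nat_lit 254558511⟩, ⟨nat_lit 7, nat_lit 92, nat_lit 100, nat_lit 75, nat_lit 60940076⟩]⟩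
noncomputable def p057_l119 : Lf2 := ⟨nat_lit 0, nat_lit 10, [nat_lit 0, nat_lit 5, nat_lit 5, nat_lit 20], false, nat_lit 160, nat_lit 240, nat_lit 160, nat_lit 336, ⟨nat_lit 306, nat_lit 0, nat_lit 694, nat_lit 6, nat_lit 212, nat_lit 694, nat_lit 140, nat_lit 694, nat_lit 183750, nat_lit 320, nat_lit 839, nat_lit 217, nat_lit 45680597, nat_lit 0, nat_lit 0, nat_lit 4445047, false, false⟩,
 nat_lit 6130, nat_lit 0, nat_lit 0, nat_lit 0, nat_lit 4243, nat_lit 3245, nat_lit 14, nat_lit 0, nat_lit 0, nat_lit 355, nat_lit 0, nat_lit 0, nat_lit 0, nat_lit 0, nat_lit 51, nat_lit 694000, nat_lit 0, nat_lit 0, [(nat_lit 15, [(nat_lit 6, nat_lit 694)])],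
 ⟨p057_k11, nat_lit 0, nat_lit 0, nat_lit 288, nat_lit 0, nat_lit 582261, [nat_lit 2296412000, nat_lit 1339631201, nat_lit 15376800], [], [nat_lit 16307458728, nat_lit 17264816399, nat_lit 17154928309, nat_lit 18162197687, nat_lit 18381500905, nat_lit 19383256300, nat_lit 19259809812, nat_lit 20447523872], nat_lit 1271250, nat_lit 1271250, nat_lit 1100001, nat_lit 1442500, nat_lit 1100001, nat_lit 1785000, [nat_lit 780000, nat_lit 1435000, nat_lit 1271250], [nat_lit 18, nat_lit 40, nat_lit 40, nat_lit 80, nat_lit 2, nat_lit 345, nat_lit 125, nat_lit 10]⟩, ⟨p057_k3, nat_lit 0, nat_lit 0, nat_lit 529, nat_lit 0, nat_lit 810363, [nat_lit 1434528000, nat_lit 2438208000, nat_lit 3632832000], [], [nat_lit 12499392472, nat_lit 9067882852, nat_lit 9067882852, nat_lit 6936133200, nat_lit 7858180819, nat_lit 8089414071, nat_lit 7775247158, nat_lit 8127799497], nat_lit 1271250, nat_lit 1271250, nat_lit 1100001, nat_lit 1442500, nat_lit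 1271250, nat_lit 1271250, [nat_lit 1100000, nat_lit 1785000, nat_lit 1271250], [nat_lit 21, nat_lit 40, nat_lit 40, nat_lit 80, nat_lit 14, nat_lit 456, nat_lit 225, nat_lit 11]⟩,
 ⟨nat_lit 4472, nat_lit 5000, ⟨.ofNat (nat_lit 471408), .ofNat (nat_lit 542832), .ofNat (nat_lit 514240), .ofNat (nat_lit 585664), .ofNat (nat_lit 475134), .ofNat (nat_lit 543108), .ofNat (nat_lit 518242), .ofNat (nat_lit 586216)⟩, ⟨.ofNat (nat_lit 257141), .ofNat (nat_lit 399998), .ofNat (nat_lit 299999), .ofNat (nat_lit 442856), .ofNat (nat_lit 259489), .ofNat (nat_lit 395445), .ofNat (nat_lit 302621), .ofNat (nat_lit 438578)⟩⟩, [⟨nat_lit 4, nat_lit 100, nat_lit 85, nat_lit 73, nat_lit 288588427⟩, ⟨nat_lit 7, nat_lit 92, nat_lit 100, nat_lit 75, nat_lit 29931804⟩]⟩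
noncomputable def p057_l120 : Lf2 := ⟨nat_lit 0, nat_lit 10, [nat_lit 0, nat_lit 5, nat_lit 5, nat_lit 20], false, nat_lit 160, nat_lit 240, nat_lit 0, nat_lit 336, ⟨nat_lit 326, nat_lit 0, nat_lit 674, nat_lit 6, nat_lit 240, nat_lit 674, nat_lit 140, nat_lit 674, nat_lit 183750, nat_lit 320, nat_lit 49368, nat_lit 200, nat_lit 43207176, nat_lit 0, nat_lit 0, nat_lit 4642606, true, false⟩,
 nat_lit 7424, nat_lit 0, nat_lit 0, nat_lit 0, nat_lit 4724, nat_lit 3930, nat_lit 129, nat_lit 0, nat_lit 0, nat_lit 468, nat_lit 0, nat_lit 0, nat_lit 0, nat_lit 0, nat_lit 29, nat_lit 674000, nat_lit 0, nat_lit 0, [(nat_lit 12, [(nat_lit 6, nat_lit 674)])],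
 ⟨p057_k0, nat_lit 0, nat_lit 0, nat_lit 305, nat_lit 0, nat_lit 529661, [nat_lit 2187100801, nat_lit 1857497601, nat_lit 385744800], [], [nat_lit 16966323831, nat_lit 17892396643, nat_lit 18115397491, nat_lit 18975029203, nat_lit 18831312403, nat_lit 19645336146, nat_lit 19823082642, nat_lit 20702623208], nat_lit 1271250, nat_lit 1271250, nat_lit 1271250, nat_lit 1271250, nat_lit 1100001, nat_lit 1785000, [nat_lit 780000, nat_lit 1435000, nat_lit 1271250], [nat_lit 8, nat_lit 40, nat_lit 40, nat_lit 80, nat_lit 1, nat_lit 345, nat_lit 125, nat_lit 9]⟩, ⟨p057_k3, nat_lit 0, nat_lit 0, nat_lit 560, nat_lit 0, nat_lit 665471, [nat_lit 1528288000, nat_lit 2597568000, nat_lit 3870272000], [], [nat_lit 11409390432, nat_lit 8932008072, nat_lit 8539213320, nat_lit 9485280288, nat_lit 12165709016, nat_lit 8886374253, nat_lit 8624656400, nat_lit 9376747042], nat_lit 1271250, nat_lit 1271250, nat_lit 1271250, nat_lit 1271250, nat_lit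 0, nat_lit 2373000, [nat_lit 1100000, nat_lit 1785000, nat_lit 1271250], [nat_lit 21, nat_lit 40, nat_lit 40, nat_lit 80, nat_lit 14, nat_lit 456, nat_lit 225, nat_lit 12]⟩,
 ⟨nat_lit 5000, nat_lit 5478, ⟨.ofNat (nat_lit 542694), .ofNat (nat_lit 617614), .ofNat (nat_lit 585388), .ofNat (nat_lit 660309), .ofNat (nat_lit 542837), .ofNat (nat_lit 614253), .ofNat (nat_lit 585674), .ofNat (nat_lit 657090)⟩, ⟨.ofNat (nat_lit 254209), .ofNat (nat_lit 404075), .ofNat (nat_lit 296923), .ofNat (nat_lit 446789), .ofNat (nat_lit 257141), .ofNat (nat_lit 399998), .ofNat (nat_lit 299999), .ofNat (nat_lit 442856)⟩⟩, [⟨nat_lit 4, nat_lit 100, nat_lit 94, nat_lit 75, nat_lit 214304872⟩, ⟨nat_lit 7, nat_lit 92, nat_lit 100, nat_lit 75, nat_lit 80157656⟩]⟩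
noncomputable def p057_l121 : Lf2 := ⟨nat_lit 0, nat_lit 10, [nat_lit 0, nat_lit 5, nat_lit 5, nat_lit 20], false, nat_lit 160, nat_lit 240, nat_lit 0, nat_lit 336, ⟨nat_lit 297, nat_lit 0, nat_lit 703, nat_lit 6, nat_lit 240, nat_lit 703, nat_lit 140, nat_lit 703, nat_lit 183750, nat_lit 320, nat_lit 42926, nat_lit 200, nat_lit 43273656, nat_lit 0, nat_lit 0, nat_lit 4636180, true, false⟩,
 nat_lit 5988, nat_lit 0, nat_lit 0, nat_lit 0, nat_lit 4145, nat_lit 3170, nat_lit 0, nat_lit 0, nat_lit 0, nat_lit 301, nat_lit 0, nat_lit 0, nat_lit 0, nat_lit 0, nat_lit 56, nat_lit 703000, nat_lit 0, nat_lit 0, [(nat_lit 15, [(nat_lit 6, nat_lit 703)])],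
 ⟨p057_k11, nat_lit 0, nat_lit 0, nat_lit 282, nat_lit 0, nat_lit 582261, [nat_lit 2335694000, nat_lit 1362724401, nat_lit 16371600], [], [nat_lit 17332944271, nat_lit 18330075941, nat_lit 18553855211, nat_lit 19566484500, nat_lit 19454035180, nat_lit 20432408180, nat_lit 20642501750, nat_lit 21880161220], nat_lit 1271250, nat_lit 1271250, nat_lit 1271250, nat_lit 1271250, nat_lit 1100001, nat_lit 1785000, [nat_lit 780000, nat_lit 1435000, nat_lit 1271250], [nat_lit 18, nat_lit 40, nat_lit 40, nat_lit 80, nat_lit 2, nat_lit 345, nat_lit 125, nat_lit 10]⟩, ⟨p057_k3, nat_lit 0, nat_lit 0, nat_lit 649, nat_lit 0, nat_lit 810363, [nat_lit 1392336000, nat_lit 2366496000, nat_lit 3525984000], [], [nat_lit 10203049444, nat_lit 9202347924, nat_lit 9039690152, nat_lit 9314972228, nat_lit 11240759340, nat_lit 8384490436, nat_lit 8384490436, nat_lit 8330109172], nat_lit 1271250, nat_lit 1271250, nat_lit 1271250, nat_lit 1271250,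 nat_lit 0, nat_lit 2373000, [nat_lit 1100000, nat_lit 1785000, nat_lit 1271250], [nat_lit 21, nat_lit 40, nat_lit 40, nat_lit 80, nat_lit 14, nat_lit 456, nat_lit 225, nat_lit 12]⟩,
 ⟨nat_lit 4472, nat_lit 5000, ⟨.ofNat (nat_lit 542832), .ofNat (nat_lit 614256), .ofNat (nat_lit 585664), .ofNat (nat_lit 657088), .ofNat (nat_lit 543108), .ofNat (nat_lit 611081), .ofNat (nat_lit 586216), .ofNat (nat_lit 654189)⟩, ⟨.ofNat (nat_lit 257141), .ofNat (nat_lit 399998), .ofNat (nat_lit 299999), .ofNat (nat_lit 442856), .ofNat (nat_lit 259489), .ofNat (nat_lit 395445), .ofNat (nat_lit 302621), .ofNat (nat_lit 438578)⟩⟩, [⟨nat_lit 4, nat_lit 100, nat_lit 85, nat_lit 73, nat_lit 283560981⟩, ⟨nat_lit 7, nat_lit 92, nat_lit 100, nat_lit 75, nat_lit 59043036⟩]⟩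
noncomputable def b_V_700_600_10_18 : St := ⟨true, nat_lit 1, nat_lit 1, nat_lit 1, nat_lit 80, nat_lit 280, nat_lit 320, nat_lit 240, nat_lit 280, nat_lit 160, nat_lit 240, nat_lit 40, nat_lit 80, nat_lit 160, nat_lit 240, nat_lit 0, nat_lit 336, nat_lit 0, nat_lit 40, nat_lit 0, nat_lit 0, nat_lit 0, nat_lit 0⟩
theorem d_V_700_600_10_18 (h : EB TB.env) : Dead b_V_700_600_10_18 := chkB_sound0 h (T :=
(.spl (nat_lit 2) (nat_lit 200)
(.spl (nat_lit 5) (nat_lit 160)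
(.leaf p057_l117)
(.spl (nat_lit 0) (nat_lit 300)
(.leaf p057_l118)
(.leaf p057_l119)))
(.spl (nat_lit 0) (nat_lit 300)
(.leaf p057_l120)
(.leaf p057_l121)))) (by decide +kernel)
noncomputable def p057_l122 : Lf2 := ⟨nat_lit 0, nat_lit 10, [nat_lit 0, nat_lit 5, nat_lit 5, nat_lit 20], true, nat_lit 240, nat_lit 276, nat_lit 0, nat_lit 312, ⟨nat_lit 0, nat_lit 0, nat_lit 1000, nat_lit 6, nat_lit 115, nat_lit 1000, nat_lit 178, nat_lit 1000, nat_lit 45067, nat_lit 267, nat_lit 126150, nat_lit 302, nat_lit 50312190, nat_lit 0, nat_lit 0, nat_lit 3841251, false, false⟩,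
 nat_lit 0, nat_lit 5539, nat_lit 0, nat_lit 0, nat_lit 3524, nat_lit 0, nat_lit 0, nat_lit 0, nat_lit 0, nat_lit 0, nat_lit 0, nat_lit 0, nat_lit 0, nat_lit 0, nat_lit 166, nat_lit 775000, nat_lit 0, nat_lit 0, [(nat_lit 12, [(nat_lit 5, nat_lit 375), (nat_lit 6, nat_lit 625)])],
 ⟨p057_k0, nat_lit 0, nat_lit 0, nat_lit 312, nat_lit 0, nat_lit 380660, [nat_lit 3170550001, nat_lit 2414750001, nat_lit 355750000], [], [nat_lit 16697070357, nat_lit 17825473079, nat_lit 16587656723, nat_lit 17670865651, nat_lit 18471654073, nat_lit 19877818877, nat_lit 18294096230, nat_lit 19296571108], nat_lit 1271250, nat_lit 1271250, nat_lit 205650, nat_lit 490000, nat_lit 1271250, nat_lit 1271250, [nat_lit 780000, nat_lit 1435000, nat_lit 1271250], [nat_lit 8, nat_lit 40, nat_lit 40, nat_lit 80, nat_lit 1, nat_lit 317, nat_lit 100, nat_lit 9]⟩, C1.Rw.none,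
 ⟨nat_lit 5000, nat_lit 5478, ⟨.ofNat (nat_lit 235487), .ofNat (nat_lit 317913), .ofNat (nat_lit 246166), .ofNat (nat_lit 328592), .ofNat (nat_lit 249999), .ofNat (nat_lit 328570), .ofNat (nat_lit 260713), .ofNat (nat_lit 339284)⟩, ⟨.ofNat (nat_lit 404075), .ofNat (nat_lit 471515), .ofNat (nat_lit 425432), .ofNat (nat_lit 492872), .ofNat (nat_lit 399998), .ofNat (nat_lit 464284), .ofNat (nat_lit 421427), .ofNat (nat_lit 485713)⟩⟩, [⟨nat_lit 0, nat_lit 100, nat_lit 92, nat_lit 66, nat_lit 129267251⟩, ⟨nat_lit 16, nat_lit 99, nat_lit 100, nat_lit 77, nat_lit 257632456⟩, ⟨nat_lit 4, nat_lit 100, nat_lit 92, nat_lit 68, nat_lit 60371831⟩]⟩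
noncomputable def p057_l123 : Lf2 := ⟨nat_lit 0, nat_lit 10, [nat_lit 0, nat_lit 5, nat_lit 5, nat_lit 20], true, nat_lit 240, nat_lit 276, nat_lit 0, nat_lit 304, ⟨nat_lit 0, nat_lit 0, nat_lit 1000, nat_lit 6, nat_lit 120, nat_lit 1000, nat_lit 178, nat_lit 1000, nat_lit 45067, nat_lit 267, nat_lit 135000, nat_lit 305, nat_lit 49987680, nat_lit 0, nat_lit 0, nat_lit 3901707, false, false⟩,
 nat_lit 0, nat_lit 5581, nat_lit 0, nat_lit 0, nat_lit 3551, nat_lit 0, nat_lit 0, nat_lit 0, nat_lit 0, nat_lit 0, nat_lit 0, nat_lit 0, nat_lit 0, nat_lit 0, nat_lit 171, nat_lit 803800, nat_lit 0, nat_lit 0, [(nat_lit 12, [(nat_lit 5, nat_lit 327), (nat_lit 6, nat_lit 673)])],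
 ⟨p057_k0, nat_lit 0, nat_lit 0, nat_lit 315, nat_lit 0, nat_lit 398801, [nat_lit 3225769201, nat_lit 2486289201, nat_lit 354879600], [], [nat_lit 16539112975, nat_lit 17668539909, nat_lit 16504444883, nat_lit 17591227855, nat_lit 18315054557, nat_lit 19726724123, nat_lit 18215901222, nat_lit 19221503632], nat_lit 1271250, nat_lit 1271250, nat_lit 230001, nat_lit 490000, nat_lit 1271250, nat_lit 1271250, [nat_lit 780000, nat_lit 1435000, nat_lit 1271250], [nat_lit 8, nat_lit 40, nat_lit 40, nat_lit 80, nat_lit 1, nat_lit 317, nat_lit 100, nat_lit 9]⟩, C1.Rw.none,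
 ⟨nat_lit 5000, nat_lit 5478, ⟨.ofNat (nat_lit 253659), .ofNat (nat_lit 328592), .ofNat (nat_lit 258998), .ofNat (nat_lit 333931), .ofNat (nat_lit 267856), .ofNat (nat_lit 339284), .ofNat (nat_lit 273213), .ofNat (nat_lit 344641)⟩, ⟨.ofNat (nat_lit 404075), .ofNat (nat_lit 471515), .ofNat (nat_lit 425432), .ofNat (nat_lit 492872), .ofNat (nat_lit 399998), .ofNat (nat_lit 464284), .ofNat (nat_lit 421427), .ofNat (nat_lit 485713)⟩⟩, [⟨nat_lit 0, nat_lit 100, nat_lit 95, nat_lit 64, nat_lit 118949874⟩, ⟨nat_lit 16, nat_lit 99, nat_lit 100, nat_lit 77, nat_lit 226249668⟩, ⟨nat_lit 4, nat_lit 100, nat_lit 92, nat_lit 68, nat_lit 98877594⟩]⟩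
noncomputable def p057_l124 : Lf2 := ⟨nat_lit 0, nat_lit 5, [nat_lit 4, nat_lit 5, nat_lit 5, nat_lit 20], true, nat_lit 240, nat_lit 276, nat_lit 0, nat_lit 300, ⟨nat_lit 0, nat_lit 0, nat_lit 1000, nat_lit 6, nat_lit 114, nat_lit 1000, nat_lit 179, nat_lit 1000, nat_lit 45067, nat_lit 267, nat_lit 123267, nat_lit 301, nat_lit 50305407, nat_lit 0, nat_lit 0, nat_lit 3837046, false, false⟩,
 nat_lit 0, nat_lit 5550, nat_lit 0, nat_lit 0, nat_lit 3531, nat_lit 0, nat_lit 0, nat_lit 0, nat_lit 0, nat_lit 0, nat_lit 0, nat_lit 0, nat_lit 0, nat_lit 0, nat_lit 87, nat_lit 497200, nat_lit 0, nat_lit 0, [(nat_lit 12, [(nat_lit 5, nat_lit 838), (nat_lit 6, nat_lit 162)])],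
 ⟨p057_k28, nat_lit 0, nat_lit 0, nat_lit 178, nat_lit 0, nat_lit 314780, [nat_lit 2404193201, nat_lit 365285199], [], [nat_lit 16645873164, nat_lit 16902019322, nat_lit 16568337224, nat_lit 16820850020, nat_lit 18251011958, nat_lit 18599573243, nat_lit 18182201101, nat_lit 18466487856], nat_lit 1271250, nat_lit 1271250, nat_lit 254650, nat_lit 356250, nat_lit 1271250, nat_lit 1271250, [nat_lit 780000, nat_lit 1762500], [nat_lit 74, nat_lit 40, nat_lit 40, nat_lit 80, nat_lit 43, nat_lit 226, nat_lit 20, nat_lit 7]⟩, C1.Rw.none,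
 ⟨nat_lit 5361, nat_lit 5478, ⟨.ofNat (nat_lit 266492), .ofNat (nat_lit 296465), .ofNat (nat_lit 271831), .ofNat (nat_lit 301804), .ofNat (nat_lit 269972), .ofNat (nat_lit 299592), .ofNat (nat_lit 275314), .ofNat (nat_lit 304934)⟩, ⟨.ofNat (nat_lit 404075), .ofNat (nat_lit 471515), .ofNat (nat_lit 425432), .ofNat (nat_lit 492872), .ofNat (nat_lit 403092), .ofNat (nat_lit 469736), .ofNat (nat_lit 424461), .ofNat (nat_lit 491106)⟩⟩, [⟨nat_lit 0, nat_lit 100, nat_lit 95, nat_lit 69, nat_lit 136320143⟩, ⟨nat_lit 16, nat_lit 99, nat_lit 100, nat_lit 77, nat_lit 118477503⟩, ⟨nat_lit 4, nat_lit 100, nat_lit 95, nat_lit 69, nat_lit 182743641⟩]⟩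
noncomputable def p057_l125 : Lf2 := ⟨nat_lit 0, nat_lit 10, [nat_lit 0, nat_lit 5, nat_lit 5, nat_lit 20], true, nat_lit 240, nat_lit 276, nat_lit 0, nat_lit 300, ⟨nat_lit 0, nat_lit 0, nat_lit 1000, nat_lit 6, nat_lit 114, nat_lit 1000, nat_lit 179, nat_lit 1000, nat_lit 45067, nat_lit 267, nat_lit 123267, nat_lit 301, nat_lit 50305407, nat_lit 0, nat_lit 0, nat_lit 3837046, false, false⟩,
 nat_lit 0, nat_lit 6066, nat_lit 0, nat_lit 0, nat_lit 3860, nat_lit 0, nat_lit 0, nat_lit 0, nat_lit 0, nat_lit 0, nat_lit 0, nat_lit 0, nat_lit 0, nat_lit 0, nat_lit 117, nat_lit 518200, nat_lit 0, nat_lit 0, [(nat_lit 12, [(nat_lit 5, nat_lit 803), (nat_lit 6, nat_lit 197)])],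
 ⟨p057_k29, nat_lit 0, nat_lit 0, nat_lit 164, nat_lit 0, nat_lit 146196, [nat_lit 2971683600, nat_lit 239844400], [], [nat_lit 16789222408, nat_lit 17057234672, nat_lit 16653671720, nat_lit 16893540575, nat_lit 18470316212, nat_lit 18836820634, nat_lit 18244568667, nat_lit 18578819292], nat_lit 1271250, nat_lit 1271250, nat_lit 254650, nat_lit 356250, nat_lit 1271250, nat_lit 1271250, [nat_lit 780000, nat_lit 2090000], [nat_lit 82, nat_lit 40, nat_lit 40, nat_lit 80, nat_lit 63, nat_lit 317, nat_lit 100, nat_lit 9]⟩, C1.Rw.none,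
 ⟨nat_lit 5361, nat_lit 5478, ⟨.ofNat (nat_lit 266492), .ofNat (nat_lit 296465), .ofNat (nat_lit 271831), .ofNat (nat_lit 301804), .ofNat (nat_lit 269972), .ofNat (nat_lit 299592), .ofNat (nat_lit 275314), .ofNat (nat_lit 304934)⟩, ⟨.ofNat (nat_lit 404075), .ofNat (nat_lit 471515), .ofNat (nat_lit 425432), .ofNat (nat_lit 492872), .ofNat (nat_lit 403092), .ofNat (nat_lit 469736), .ofNat (nat_lit 424461), .ofNat (nat_lit 491106)⟩⟩, [⟨nat_lit 0, nat_lit 100, nat_lit 95, nat_lit 69, nat_lit 158247798⟩, ⟨nat_lit 4, nat_lit 100, nat_lit 95, nat_lit 69, nat_lit 336735876⟩]⟩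
noncomputable def p057_l126 : Lf2 := ⟨nat_lit 0, nat_lit 10, [nat_lit 0, nat_lit 5, nat_lit 5, nat_lit 20], true, nat_lit 240, nat_lit 272, nat_lit 0, nat_lit 300, ⟨nat_lit 0, nat_lit 0, nat_lit 1000, nat_lit 6, nat_lit 117, nat_lit 1000, nat_lit 177, nat_lit 1000, nat_lit 63765, nat_lit 276, nat_lit 129067, nat_lit 303, nat_lit 50295082, nat_lit 0, nat_lit 0, nat_lit 3851754, false, false⟩,
 nat_lit 0, nat_lit 5485, nat_lit 0, nat_lit 0, nat_lit 3566, nat_lit 0, nat_lit 0, nat_lit 0, nat_lit 0, nat_lit 0, nat_lit 0, nat_lit 0, nat_lit 0, nat_lit 0, nat_lit 177, nat_lit 836800, nat_lit 0, nat_lit 0, [(nat_lit 12, [(nat_lit 5, nat_lit 272), (nat_lit 6, nat_lit 728)])],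
 ⟨p057_k4, nat_lit 0, nat_lit 0, nat_lit 291, nat_lit 0, nat_lit 352818, [nat_lit 3292291201, nat_lit 2573677867, nat_lit 361465600], [], [nat_lit 16760910977, nat_lit 17041655494, nat_lit 16746297694, nat_lit 17023835068, nat_lit 18311778313, nat_lit 18666099759, nat_lit 18280218549, nat_lit 18539168079], nat_lit 1271250, nat_lit 1271250, nat_lit 279600, nat_lit 356250, nat_lit 1271250, nat_lit 1271250, [nat_lit 780000, nat_lit 1435000, nat_lit 1271250], [nat_lit 8, nat_lit 40, nat_lit 40, nat_lit 80, nat_lit 1, nat_lit 317, nat_lit 100, nat_lit 9]⟩, C1.Rw.none,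
 ⟨nat_lit 5244, nat_lit 5362, ⟨.ofNat (nat_lit 277377), .ofNat (nat_lit 299592), .ofNat (nat_lit 282719), .ofNat (nat_lit 304934), .ofNat (nat_lit 280758), .ofNat (nat_lit 302709), .ofNat (nat_lit 286104), .ofNat (nat_lit 308056)⟩, ⟨.ofNat (nat_lit 403092), .ofNat (nat_lit 462331), .ofNat (nat_lit 424461), .ofNat (nat_lit 483701), .ofNat (nat_lit 402086), .ofNat (nat_lit 460623), .ofNat (nat_lit 423472), .ofNat (nat_lit 482008)⟩⟩, [⟨nat_lit 0, nat_lit 100, nat_lit 94, nat_lit 71, nat_lit 127059647⟩, ⟨nat_lit 16, nat_lit 97, nat_lit 100, nat_lit 76, nat_lit 161748398⟩, ⟨nat_lit 4, nat_lit 100, nat_lit 93, nat_lit 69, nat_lit 166829921⟩]⟩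
noncomputable def p057_l127 : Lf2 := ⟨nat_lit 0, nat_lit 10, [nat_lit 0, nat_lit 5, nat_lit 5, nat_lit 20], true, nat_lit 240, nat_lit 268, nat_lit 0, nat_lit 300, ⟨nat_lit 0, nat_lit 0, nat_lit 1000, nat_lit 6, nat_lit 121, nat_lit 1000, nat_lit 175, nat_lit 1000, nat_lit 81667, nat_lit 285, nat_lit 135000, nat_lit 305, nat_lit 50259870, nat_lit 0, nat_lit 0, nat_lit 3871154, false, false⟩,
 nat_lit 0, nat_lit 5420, nat_lit 0, nat_lit 0, nat_lit 3599, nat_lit 0, nat_lit 0, nat_lit 0, nat_lit 0, nat_lit 0, nat_lit 0, nat_lit 0, nat_lit 0, nat_lit 0, nat_lit 140, nat_lit 851200, nat_lit 0, nat_lit 0, [(nat_lit 12, [(nat_lit 5, nat_lit 248), (nat_lit 6, nat_lit 752)])],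
 ⟨p057_k1, nat_lit 0, nat_lit 0, nat_lit 257, nat_lit 0, nat_lit 396845, [nat_lit 2845900801, nat_lit 1819447467, nat_lit 11056000], [], [nat_lit 16951808001, nat_lit 17513433884, nat_lit 16938426726, nat_lit 17495750474, nat_lit 18377051633, nat_lit 19096040691, nat_lit 18269041471, nat_lit 18982050490], nat_lit 1271250, nat_lit 1271250, nat_lit 304850, nat_lit 356250, nat_lit 1271250, nat_lit 1271250, [nat_lit 780000, nat_lit 1435000, nat_lit 1271250], [nat_lit 18, nat_lit 40, nat_lit 40, nat_lit 80, nat_lit 2, nat_lit 226, nat_lit 20, nat_lit 7]⟩, C1.Rw.none,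
 ⟨nat_lit 5000, nat_lit 5245, ⟨.ofNat (nat_lit 288075), .ofNat (nat_lit 302709), .ofNat (nat_lit 293422), .ofNat (nat_lit 308056), .ofNat (nat_lit 294641), .ofNat (nat_lit 308927), .ofNat (nat_lit 299999), .ofNat (nat_lit 314284)⟩, ⟨.ofNat (nat_lit 402086), .ofNat (nat_lit 453306), .ofNat (nat_lit 423472), .ofNat (nat_lit 474691), .ofNat (nat_lit 399998), .ofNat (nat_lit 449999), .ofNat (nat_lit 421427), .ofNat (nat_lit 471427)⟩⟩, [⟨nat_lit 0, nat_lit 100, nat_lit 93, nat_lit 71, nat_lit 186313084⟩, ⟨nat_lit 16, nat_lit 94, nat_lit 100, nat_lit 75, nat_lit 197610209⟩, ⟨nat_lit 4, nat_lit 100, nat_lit 90, nat_lit 68, nat_lit 137719283⟩]⟩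
noncomputable def p057_l128 : Lf2 := ⟨nat_lit 0, nat_lit 10, [nat_lit 0, nat_lit 5, nat_lit 5, nat_lit 20], true, nat_lit 240, nat_lit 276, nat_lit 0, nat_lit 300, ⟨nat_lit 0, nat_lit 0, nat_lit 1000, nat_lit 6, nat_lit 129, nat_lit 1000, nat_lit 178, nat_lit 1000, nat_lit 45067, nat_lit 267, nat_lit 156817, nat_lit 312, nat_lit 49318739, nat_lit 0, nat_lit 0, nat_lit 4020420, false, false⟩,
 nat_lit 0, nat_lit 5570, nat_lit 0, nat_lit 0, nat_lit 3544, nat_lit 0, nat_lit 0, nat_lit 0, nat_lit 0, nat_lit 0, nat_lit 0, nat_lit 0, nat_lit 0, nat_lit 0, nat_lit 175, nat_lit 825400, nat_lit 0, nat_lit 0, [(nat_lit 12, [(nat_lit 5, nat_lit 291), (nat_lit 6, nat_lit 709)])],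
 ⟨p057_k0, nat_lit 0, nat_lit 0, nat_lit 309, nat_lit 0, nat_lit 417576, [nat_lit 3270183601, nat_lit 2544943601, nat_lit 361226800], [], [nat_lit 16528094947, nat_lit 17635245779, nat_lit 16511543123, nat_lit 17597399491, nat_lit 18270453022, nat_lit 19438251768, nat_lit 18221698802, nat_lit 19226490370], nat_lit 1271250, nat_lit 1271250, nat_lit 356250, nat_lit 490000, nat_lit 1271250, nat_lit 1271250, [nat_lit 780000, nat_lit 1435000, nat_lit 1271250], [nat_lit 8, nat_lit 40, nat_lit 40, nat_lit 80, nat_lit 1, nat_lit 317, nat_lit 100, nat_lit 8]⟩, C1.Rw.none,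
 ⟨nat_lit 5000, nat_lit 5478, ⟨.ofNat (nat_lit 296465), .ofNat (nat_lit 333931), .ofNat (nat_lit 301804), .ofNat (nat_lit 339271), .ofNat (nat_lit 308927), .ofNat (nat_lit 344641), .ofNat (nat_lit 314284), .ofNat (nat_lit 349999)⟩, ⟨.ofNat (nat_lit 404075), .ofNat (nat_lit 471515), .ofNat (nat_lit 425432), .ofNat (nat_lit 492872), .ofNat (nat_lit 399998), .ofNat (nat_lit 464284), .ofNat (nat_lit 421427), .ofNat (nat_lit 485713)⟩⟩, [⟨nat_lit 16, nat_lit 92, nat_lit 100, nat_lit 68, nat_lit 250927909⟩, ⟨nat_lit 16, nat_lit 99, nat_lit 100, nat_lit 77, nat_lit 95363382⟩]⟩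
noncomputable def p057_l129 : Lf2 := ⟨nat_lit 0, nat_lit 10, [nat_lit 0, nat_lit 5, nat_lit 5, nat_lit 20], false, nat_lit 240, nat_lit 276, nat_lit 0, nat_lit 312, ⟨nat_lit 0, nat_lit 0, nat_lit 1000, nat_lit 6, nat_lit 148, nat_lit 1000, nat_lit 178, nat_lit 1000, nat_lit 45067, nat_lit 267, nat_lit 205350, nat_lit 326, nat_lit 47952254, nat_lit 0, nat_lit 0, nat_lit 4240345, false, false⟩,
 nat_lit 0, nat_lit 5665, nat_lit 0, nat_lit 0, nat_lit 3605, nat_lit 0, nat_lit 0, nat_lit 0, nat_lit 0, nat_lit 0, nat_lit 0, nat_lit 0, nat_lit 0, nat_lit 0, nat_lit 178, nat_lit 841600, nat_lit 0, nat_lit 0, [(nat_lit 12, [(nat_lit 5, nat_lit 264), (nat_lit 6, nat_lit 736)])],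
 ⟨p057_k0, nat_lit 0, nat_lit 0, nat_lit 296, nat_lit 0, nat_lit 417576, [nat_lit 3303494401, nat_lit 2588934401, nat_lit 365987200], [], [nat_lit 16347881603, nat_lit 17441812663, nat_lit 16736330763, nat_lit 17779162783, nat_lit 18069371606, nat_lit 19188513154, nat_lit 18378917668, nat_lit 19344619409], nat_lit 1271250, nat_lit 1271250, nat_lit 490000, nat_lit 780000, nat_lit 1271250, nat_lit 1271250, [nat_lit 780000, nat_lit 1435000, nat_lit 1271250], [nat_lit 8, nat_lit 40, nat_lit 40, nat_lit 80, nat_lit 1, nat_lit 317, nat_lit 100, nat_lit 8]⟩, ⟨p057_k3, nat_lit 0, nat_lit 0, nat_lit 552, nat_lit 0, nat_lit 522005, [nat_lit 0, nat_lit 0, nat_lit 0], [], [nat_lit 0, nat_lit 0, nat_lit 0, nat_lit 0, nat_lit 0, nat_lit 0, nat_lit 0, nat_lit 0], nat_lit 1271250, nat_lit 1271250, nat_lit 490000, nat_lit 780000, nat_lit 0, nat_lit 2203500, [nat_lit 1100000, nat_lit 1785000, nat_lit 1271250], [nat_lit 21, nat_lit 40, nat_lit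 40, nat_lit 80, nat_lit 14, nat_lit 401, nat_lit 175, nat_lit 11]⟩,
 ⟨nat_lit 5000, nat_lit 5478, ⟨.ofNat (nat_lit 317913), .ofNat (nat_lit 392847), .ofNat (nat_lit 339271), .ofNat (nat_lit 414199), .ofNat (nat_lit 328570), .ofNat (nat_lit 399998), .ofNat (nat_lit 349999), .ofNat (nat_lit 421423)⟩, ⟨.ofNat (nat_lit 404075), .ofNat (nat_lit 471515), .ofNat (nat_lit 425432), .ofNat (nat_lit 492872), .ofNat (nat_lit 399998), .ofNat (nat_lit 464284), .ofNat (nat_lit 421427), .ofNat (nat_lit 485713)⟩⟩, [⟨nat_lit 16, nat_lit 99, nat_lit 100, nat_lit 77, nat_lit 9983143⟩, ⟨nat_lit 4, nat_lit 100, nat_lit 92, nat_lit 68, nat_lit 350306470⟩]⟩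
noncomputable def b_V_700_600_10_19 : St := ⟨true, nat_lit 1, nat_lit 1, nat_lit 1, nat_lit 80, nat_lit 280, nat_lit 300, nat_lit 240, nat_lit 260, nat_lit 36, nat_lit 120, nat_lit 40, nat_lit 60, nat_lit 240, nat_lit 300, nat_lit 0, nat_lit 336, nat_lit 0, nat_lit 40, nat_lit 0, nat_lit 0, nat_lit 0, nat_lit 0⟩
theorem d_V_700_600_10_19 (h : EB TB.env) : Dead b_V_700_600_10_19 := chkB_sound0 h (T :=
(.trX (nat_lit 16) (nat_lit 99) (nat_lit 100) (nat_lit 77) (nat_lit 276) (.trX (nat_lit 19) (nat_lit 100) (nat_lit 85) (nat_lit 73) (nat_lit 312) (.spl (nat_lit 2) (nat_lit 80)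
(.spl (nat_lit 1) (nat_lit 250)
(.leaf p057_l122)
(.trZ (nat_lit 0) (nat_lit 100) (nat_lit 95) (nat_lit 64) (nat_lit 40) (.trX (nat_lit 19) (nat_lit 100) (nat_lit 88) (nat_lit 74) (nat_lit 304) (.spl (nat_lit 1) (nat_lit 255)
(.leaf p057_l123)
(.trZ (nat_lit 0) (nat_lit 100) (nat_lit 95) (nat_lit 66) (nat_lit 44) (.trX (nat_lit 19) (nat_lit 100) (nat_lit 90) (nat_lit 74) (nat_lit 300) (.spl (nat_lit 2) (nat_lit 60)
(.spl (nat_lit 0) (nat_lit 290)
(.spl (nat_lit 0) (nat_lit 285)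
(.spl (nat_lit 6) (nat_lit 20)
(.leaf p057_l124)
(.leaf p057_l125))
(.trZ (nat_lit 0) (nat_lit 100) (nat_lit 94) (nat_lit 68) (nat_lit 48) (.trX (nat_lit 16) (nat_lit 97) (nat_lit 100) (nat_lit 76) (nat_lit 272) (.leaf p057_l126))))
(.trZ (nat_lit 0) (nat_lit 100) (nat_lit 93) (nat_lit 71) (nat_lit 52) (.trX (nat_lit 16) (nat_lit 94) (nat_lit 100) (nat_lit 75) (nat_lit 268) (.leaf p057_l127))))
(.leaf p057_l128))))))))
(.leaf p057_l129))))) (by decide +kernel)
noncomputable def p057_l130 : Lf2 := ⟨nat_lit 0, nat_lit 2, [nat_lit 10, nat_lit 5, nat_lit 5, nat_lit 20], true, nat_lit 240, nat_lit 300, nat_lit 0, nat_lit 336, ⟨nat_lit 0, nat_lit 10, nat_lit 990, nat_lit 6, nat_lit 114, nat_lit 1000, nat_lit 196, nat_lit 990, nat_lit 3701, nat_lit 228, nat_lit 123267, nat_lit 301, nat_lit 48757646, nat_lit 5480000, nat_lit 12762354, nat_lit 4006759, false, false⟩,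
 nat_lit 0, nat_lit 4641, nat_lit 0, nat_lit 0, nat_lit 2953, nat_lit 0, nat_lit 0, nat_lit 0, nat_lit 0, nat_lit 0, nat_lit 0, nat_lit 0, nat_lit 0, nat_lit 0, nat_lit 72, nat_lit 956800, nat_lit 0, nat_lit 0, [(nat_lit 12, [(nat_lit 1, nat_lit 10), (nat_lit 5, nat_lit 62), (nat_lit 6, nat_lit 928)])],
 ⟨p057_k30, nat_lit 0, nat_lit 0, nat_lit 148, nat_lit 0, nat_lit 202559, [nat_lit 1805372401, nat_lit 1411289601, nat_lit 15216000], [], [nat_lit 16598118877, nat_lit 17149349961, nat_lit 16551575498, nat_lit 17082104897, nat_lit 19498727464, nat_lit 20108733050, nat_lit 19349020145, nat_lit 19839851941], nat_lit 1271250, nat_lit 1271250, nat_lit 205650, nat_lit 490000, nat_lit 1271250, nat_lit 1271250, [nat_lit 780000, nat_lit 1100000, nat_lit 1442500], [nat_lit 59, nat_lit 40, nat_lit 40, nat_lit 80, nat_lit 3, nat_lit 226, nat_lit 20, nat_lit 8]⟩, C1.Rw.none,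
 ⟨nat_lit 5244, nat_lit 5478, ⟨.ofNat (nat_lit 235487), .ofNat (nat_lit 317913), .ofNat (nat_lit 246166), .ofNat (nat_lit 328592), .ofNat (nat_lit 242768), .ofNat (nat_lit 323256), .ofNat (nat_lit 253460), .ofNat (nat_lit 333949)⟩, ⟨.ofNat (nat_lit 425432), .ofNat (nat_lit 537832), .ofNat (nat_lit 446789), .ofNat (nat_lit 559189), .ofNat (nat_lit 423472), .ofNat (nat_lit 533228), .ofNat (nat_lit 444857), .ofNat (nat_lit 554614)⟩⟩, [⟨nat_lit 0, nat_lit 100, nat_lit 93, nat_lit 63, nat_lit 131922949⟩, ⟨nat_lit 16, nat_lit 100, nat_lit 95, nat_lit 87, nat_lit 269099719⟩]⟩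
noncomputable def p057_l131 : Lf2 := ⟨nat_lit 0, nat_lit 4, [nat_lit 38, nat_lit 5, nat_lit 5, nat_lit 20], true, nat_lit 240, nat_lit 300, nat_lit 0, nat_lit 336, ⟨nat_lit 0, nat_lit 59, nat_lit 941, nat_lit 6, nat_lit 114, nat_lit 1000, nat_lit 196, nat_lit 941, nat_lit 3701, nat_lit 228, nat_lit 123267, nat_lit 301, nat_lit 48757646, nat_lit 5480000, nat_lit 12762354, nat_lit 4006759, false, false⟩,
 nat_lit 0, nat_lit 5161, nat_lit 0, nat_lit 2443, nat_lit 3284, nat_lit 0, nat_lit 0, nat_lit 0, nat_lit 0, nat_lit 0, nat_lit 0, nat_lit 0, nat_lit 0, nat_lit 0, nat_lit 18, nat_lit 400000, nat_lit 0, nat_lit 0, [(nat_lit 12, [(nat_lit 1, nat_lit 59), (nat_lit 5, nat_lit 941)])],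
 ⟨p057_k31, nat_lit 0, nat_lit 0, nat_lit 121, nat_lit 0, nat_lit 123920, [nat_lit 1505628400, nat_lit 15541467], [], [nat_lit 16992553968, nat_lit 17532035403, nat_lit 16817474363, nat_lit 17336605911, nat_lit 19820600459, nat_lit 20459761901, nat_lit 19572908156, nat_lit 20084419435], nat_lit 1271250, nat_lit 1271250, nat_lit 205650, nat_lit 490000, nat_lit 1271250, nat_lit 1271250, [nat_lit 780000, nat_lit 1435000], [nat_lit 49, nat_lit 40, nat_lit 40, nat_lit 80, nat_lit 16, nat_lit 226, nat_lit 20, nat_lit 8]⟩, C1.Rw.none,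
 ⟨nat_lit 5244, nat_lit 5478, ⟨.ofNat (nat_lit 235487), .ofNat (nat_lit 317913), .ofNat (nat_lit 246166), .ofNat (nat_lit 328592), .ofNat (nat_lit 242768), .ofNat (nat_lit 323256), .ofNat (nat_lit 253460), .ofNat (nat_lit 333949)⟩, ⟨.ofNat (nat_lit 425432), .ofNat (nat_lit 537832), .ofNat (nat_lit 446789), .ofNat (nat_lit 559189), .ofNat (nat_lit 423472), .ofNat (nat_lit 533228), .ofNat (nat_lit 444857), .ofNat (nat_lit 554614)⟩⟩, [⟨nat_lit 0, nat_lit 100, nat_lit 93, nat_lit 63, nat_lit 143602804⟩, ⟨nat_lit 16, nat_lit 100, nat_lit 95, nat_lit 87, nat_lit 261649191⟩]⟩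
noncomputable def p057_l132 : Lf2 := ⟨nat_lit 0, nat_lit 6, [nat_lit 47, nat_lit 5, nat_lit 5, nat_lit 20], true, nat_lit 240, nat_lit 300, nat_lit 0, nat_lit 336, ⟨nat_lit 0, nat_lit 0, nat_lit 1000, nat_lit 6, nat_lit 114, nat_lit 1000, nat_lit 196, nat_lit 1000, nat_lit 3701, nat_lit 228, nat_lit 123267, nat_lit 301, nat_lit 48757646, nat_lit 0, nat_lit 0, nat_lit 4006759, false, false⟩,
 nat_lit 0, nat_lit 5010, nat_lit 0, nat_lit 4491, nat_lit 3187, nat_lit 0, nat_lit 0, nat_lit 0, nat_lit 0, nat_lit 0, nat_lit 0, nat_lit 0, nat_lit 0, nat_lit 0, nat_lit 72, nat_lit 400000, nat_lit 0, nat_lit 0, [(nat_lit 12, [(nat_lit 5, nat_lit 1000)])],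
 ⟨p057_k32, nat_lit 0, nat_lit 0, nat_lit 131, nat_lit 0, nat_lit 59479, [nat_lit 2104800000, nat_lit 905333334, nat_lit 113066666], [], [nat_lit 17240273451, nat_lit 17735000301, nat_lit 17048767966, nat_lit 17525444088, nat_lit 19834888673, nat_lit 20356892419, nat_lit 19613674333, nat_lit 20119205587], nat_lit 1271250, nat_lit 1271250, nat_lit 205650, nat_lit 490000, nat_lit 1271250, nat_lit 1271250, [nat_lit 780000, nat_lit 1435000, nat_lit 1271250], [nat_lit 18, nat_lit 40, nat_lit 40, nat_lit 80, nat_lit 2, nat_lit 226, nat_lit 20, nat_lit 7]⟩, C1.Rw.none,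
 ⟨nat_lit 5244, nat_lit 5478, ⟨.ofNat (nat_lit 235487), .ofNat (nat_lit 317913), .ofNat (nat_lit 246166), .ofNat (nat_lit 328592), .ofNat (nat_lit 242768), .ofNat (nat_lit 323256), .ofNat (nat_lit 253460), .ofNat (nat_lit 333949)⟩, ⟨.ofNat (nat_lit 425432), .ofNat (nat_lit 537832), .ofNat (nat_lit 446789), .ofNat (nat_lit 559189), .ofNat (nat_lit 423472), .ofNat (nat_lit 533228), .ofNat (nat_lit 444857), .ofNat (nat_lit 554614)⟩⟩, [⟨nat_lit 0, nat_lit 100, nat_lit 92, nat_lit 68, nat_lit 138603659⟩, ⟨nat_lit 4, nat_lit 100, nat_lit 99, nat_lit 83, nat_lit 265046013⟩]⟩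
noncomputable def p057_l133 : Lf2 := ⟨nat_lit 1, nat_lit 10, [nat_lit 0, nat_lit 5, nat_lit 5, nat_lit 20], false, nat_lit 240, nat_lit 300, nat_lit 0, nat_lit 336, zbN0,
 nat_lit 0, nat_lit 0, nat_lit 0, nat_lit 0, nat_lit 0, nat_lit 0, nat_lit 0, nat_lit 0, nat_lit 0, nat_lit 0, nat_lit 0, nat_lit 0, nat_lit 0, nat_lit 0, nat_lit 0, nat_lit 0, nat_lit 0, nat_lit 0, [],
 C1.Rw.none, C1.Rw.none,
 zbF0, []⟩
noncomputable def p057_l134 : Lf2 := ⟨nat_lit 0, nat_lit 10, [nat_lit 0, nat_lit 5, nat_lit 5, nat_lit 20], true, nat_lit 240, nat_lit 292, nat_lit 0, nat_lit 336, ⟨nat_lit 0, nat_lit 36, nat_lit 964, nat_lit 6, nat_lit 117, nat_lit 1000, nat_lit 192, nat_lit 964, nat_lit 8501, nat_lit 237, nat_lit 129067, nat_lit 303, nat_lit 48892388, nat_lit 5734076, nat_lit 12373536, nat_lit 4011887, false, false⟩,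
 nat_lit 0, nat_lit 4888, nat_lit 0, nat_lit 0, nat_lit 3246, nat_lit 0, nat_lit 0, nat_lit 0, nat_lit 0, nat_lit 0, nat_lit 0, nat_lit 0, nat_lit 0, nat_lit 0, nat_lit 102, nat_lit 640600, nat_lit 0, nat_lit 0, [(nat_lit 12, [(nat_lit 1, nat_lit 36), (nat_lit 5, nat_lit 563), (nat_lit 6, nat_lit 401)])],
 ⟨p057_k1, nat_lit 0, nat_lit 0, nat_lit 190, nat_lit 0, nat_lit 239892, [nat_lit 2454654001, nat_lit 1384778267, nat_lit 19741600], [], [nat_lit 17128184842, nat_lit 17396069457, nat_lit 17033277980, nat_lit 17324904193, nat_lit 19765812423, nat_lit 20090494509, nat_lit 19620345168, nat_lit 19879868385], nat_lit 1271250, nat_lit 1271250, nat_lit 230001, nat_lit 490000, nat_lit 1271250, nat_lit 1271250, [nat_lit 780000, nat_lit 1435000, nat_lit 1271250], [nat_lit 18, nat_lit 40, nat_lit 40, nat_lit 80, nat_lit 2, nat_lit 226, nat_lit 20, nat_lit 7]⟩, C1.Rw.none,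
 ⟨nat_lit 5123, nat_lit 5245, ⟨.ofNat (nat_lit 250085), .ofNat (nat_lit 323256), .ofNat (nat_lit 260778), .ofNat (nat_lit 333949), .ofNat (nat_lit 253618), .ofNat (nat_lit 325915), .ofNat (nat_lit 264320), .ofNat (nat_lit 336618)⟩, ⟨.ofNat (nat_lit 423472), .ofNat (nat_lit 518594), .ofNat (nat_lit 444857), .ofNat (nat_lit 539979), .ofNat (nat_lit 422461), .ofNat (nat_lit 516448), .ofNat (nat_lit 443866), .ofNat (nat_lit 537853)⟩⟩, [⟨nat_lit 0, nat_lit 100, nat_lit 91, nat_lit 67, nat_lit 131016785⟩, ⟨nat_lit 16, nat_lit 100, nat_lit 100, nat_lit 89, nat_lit 281162717⟩]⟩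
noncomputable def p057_l135 : Lf2 := ⟨nat_lit 0, nat_lit 10, [nat_lit 0, nat_lit 5, nat_lit 5, nat_lit 20], true, nat_lit 240, nat_lit 284, nat_lit 0, nat_lit 336, ⟨nat_lit 0, nat_lit 0, nat_lit 1000, nat_lit 6, nat_lit 120, nat_lit 1000, nat_lit 189, nat_lit 1000, nat_lit 16297, nat_lit 246, nat_lit 135000, nat_lit 305, nat_lit 49029618, nat_lit 0, nat_lit 0, nat_lit 4011362, false, false⟩,
 nat_lit 0, nat_lit 4782, nat_lit 0, nat_lit 0, nat_lit 3242, nat_lit 0, nat_lit 0, nat_lit 0, nat_lit 0, nat_lit 0, nat_lit 0, nat_lit 0, nat_lit 0, nat_lit 0, nat_lit 110, nat_lit 653200, nat_lit 0, nat_lit 0, [(nat_lit 12, [(nat_lit 5, nat_lit 578), (nat_lit 6, nat_lit 422)])],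
 ⟨p057_k27, nat_lit 0, nat_lit 0, nat_lit 195, nat_lit 0, nat_lit 261967, [nat_lit 2518768801, nat_lit 1415115467, nat_lit 7816000], [], [nat_lit 17325304172, nat_lit 17626693959, nat_lit 17267838359, nat_lit 17559308910, nat_lit 19554439460, nat_lit 19883356499, nat_lit 19428729183, nat_lit 19693059393], nat_lit 1271250, nat_lit 1271250, nat_lit 254650, nat_lit 490000, nat_lit 1271250, nat_lit 1271250, [nat_lit 780000, nat_lit 1435000, nat_lit 1271250], [nat_lit 18, nat_lit 40, nat_lit 40, nat_lit 80, nat_lit 2, nat_lit 226, nat_lit 20, nat_lit 7]⟩, C1.Rw.none,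
 ⟨nat_lit 5000, nat_lit 5124, ⟨.ofNat (nat_lit 260847), .ofNat (nat_lit 325915), .ofNat (nat_lit 271550), .ofNat (nat_lit 336618), .ofNat (nat_lit 264284), .ofNat (nat_lit 328570), .ofNat (nat_lit 274998), .ofNat (nat_lit 339284)⟩, ⟨.ofNat (nat_lit 422461), .ofNat (nat_lit 501988), .ofNat (nat_lit 443866), .ofNat (nat_lit 523393), .ofNat (nat_lit 421427), .ofNat (nat_lit 499999), .ofNat (nat_lit 442856), .ofNat (nat_lit 521427)⟩⟩, [⟨nat_lit 0, nat_lit 100, nat_lit 90, nat_lit 69, nat_lit 130003892⟩, ⟨nat_lit 16, nat_lit 97, nat_lit 100, nat_lit 88, nat_lit 290000047⟩]⟩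
noncomputable def b_V_700_600_10_20 : St := ⟨true, nat_lit 1, nat_lit 1, nat_lit 1, nat_lit 80, nat_lit 280, nat_lit 300, nat_lit 240, nat_lit 250, nat_lit 36, nat_lit 80, nat_lit 60, nat_lit 80, nat_lit 240, nat_lit 300, nat_lit 0, nat_lit 336, nat_lit 0, nat_lit 40, nat_lit 0, nat_lit 0, nat_lit 0, nat_lit 0⟩
theorem d_V_700_600_10_20 (h : EB TB.env) : Dead b_V_700_600_10_20 := chkB_sound0 h (T :=
(.spl (nat_lit 0) (nat_lit 290)
(.spl (nat_lit 6) (nat_lit 24)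
(.spl (nat_lit 6) (nat_lit 16)
(.spl (nat_lit 6) (nat_lit 8)
(.leaf p057_l130)
(.leaf p057_l131))
(.leaf p057_l132))
(.leaf p057_l133))
(.trZ (nat_lit 0) (nat_lit 100) (nat_lit 91) (nat_lit 63) (nat_lit 40) (.trX (nat_lit 16) (nat_lit 100) (nat_lit 100) (nat_lit 89) (nat_lit 292) (.spl (nat_lit 0) (nat_lit 295)
(.leaf p057_l134)
(.trZ (nat_lit 0) (nat_lit 100) (nat_lit 90) (nat_lit 65) (nat_lit 44) (.trX (nat_lit 16) (nat_lit 97) (nat_lit 100) (nat_lit 88) (nat_lit 284) (.leaf p057_l135)))))))) (by decide +kernel)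

end B2
end Pool.Agent.Lib.MP_6947cd_al
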