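import Pool.Agent.Lib.MP_6947cd_al.ZB.Pre

/-!
Problem MP_6947cd_al (Chollet).  Case B, second entry in [2/5, 17/20]: certificates of the tree, part P058 (generated).
-/

set_option autoImplicit false
set_option linter.all false

namespace Pool.Agent.Lib.MP_6947cd_al
namespace B2

open Ent Fr B1 PkA

noncomputable def p058_k0 : C1.Kn := ⟨[nat_lit 60, nat_lit 80, nat_lit 100, nat_lit 120], [nat_lit 0, nat_lit 0, nat_lit 534, nat_lit 1057], [(nat_lit 0, nat_lit 0, nat_lit 0), (nat_lit 0, nat_lit 0, nat_lit 0), (nat_lit 1000, nat_lit 917, nat_lit 393), (nat_lit 1000, nat_lit 917, nat_lit 409)], (nat_lit 92, nat_lit 100, nat_lit 44)⟩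
noncomputable def p058_k1 : C1.Kn := ⟨[nat_lit 60, nat_lit 100, nat_lit 120], [nat_lit 0, nat_lit 0, nat_lit 1164], [(nat_lit 0, nat_lit 0, nat_lit 0), (nat_lit 0, nat_lit 0, nat_lit 0), (nat_lit 1000, nat_lit 933, nat_lit 572)], (nat_lit 93, nat_lit 100, nat_lit 55)⟩
noncomputable def p058_k2 : C1.Kn := ⟨[nat_lit 40, nat_lit 60, nat_lit 80, nat_lit 120], [nat_lit 0, nat_lit 0, nat_lit 151, nat_lit 1205], [(nat_lit 0, nat_lit 0, nat_lit 0), (nat_lit 0, nat_lit 0, nat_lit 0), (nat_lit 1000, nat_lit 953, nat_lit 118), (nat_lit 1000, nat_lit 894, nat_lit 411)], (nat_lit 91, nat_lit 100, nat_lit 61)⟩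
noncomputable def p058_k3 : C1.Kn := ⟨[nat_lit 40, nat_lit 60, nat_lit 80, nat_lit 140], [nat_lit 0, nat_lit 0, nat_lit 0, nat_lit 1595], [(nat_lit 0, nat_lit 0, nat_lit 0), (nat_lit 0, nat_lit 0, nat_lit 0), (nat_lit 0, nat_lit 0, nat_lit 0), (nat_lit 1000, nat_lit 917, nat_lit 415)], (nat_lit 94, nat_lit 100, nat_lit 62)⟩
noncomputable def p058_k4 : C1.Kn := ⟨[nat_lit 60, nat_lit 80], [nat_lit 0, nat_lit 0], [(nat_lit 0, nat_lit 0, nat_lit 0), (nat_lit 0, nat_lit 0, nat_lit 0)], (nat_lit 94, nat_lit 100, nat_lit 20)⟩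
noncomputable def p058_k5 : C1.Kn := ⟨[nat_lit 80, nat_lit 100], [nat_lit 0, nat_lit 171], [(nat_lit 0, nat_lit 0, nat_lit 0), (nat_lit 1000, nat_lit 973, nat_lit 133)], (nat_lit 97, nat_lit 100, nat_lit 20)⟩
noncomputable def p058_k6 : C1.Kn := ⟨[nat_lit 60, nat_lit 70, nat_lit 80], [nat_lit 0, nat_lit 0, nat_lit 140], [(nat_lit 0, nat_lit 0, nat_lit 0), (nat_lit 0, nat_lit 0, nat_lit 0), (nat_lit 1000, nat_lit 938, nat_lit 199)], (nat_lit 94, nat_lit 100, nat_lit 20)⟩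
noncomputable def p058_k7 : C1.Kn := ⟨[nat_lit 80, nat_lit 90, nat_lit 100], [nat_lit 0, nat_lit 86, nat_lit 215], [(nat_lit 0, nat_lit 0, nat_lit 0), (nat_lit 1000, nat_lit 973, nat_lit 133), (nat_lit 1000, nat_lit 966, nat_lit 201)], (nat_lit 97, nat_lit 100, nat_lit 20)⟩
noncomputable def p058_k8 : C1.Kn := ⟨[nat_lit 80, nat_lit 90, nat_lit 100], [nat_lit 0, nat_lit 99, nat_lit 229], [(nat_lit 0, nat_lit 0, nat_lit 0), (nat_lit 1000, nat_lit 969, nat_lit 151), (nat_lit 1000, nat_lit 964, nat_lit 203)], (nat_lit 96, nat_lit 100, nat_lit 20)⟩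
noncomputable def p058_k9 : C1.Kn := ⟨[nat_lit 60, nat_lit 70, nat_lit 90], [nat_lit 0, nat_lit 0, nat_lit 280], [(nat_lit 0, nat_lit 0, nat_lit 0), (nat_lit 0, nat_lit 0, nat_lit 0), (nat_lit 1000, nat_lit 934, nat_lit 219)], (nat_lit 92, nat_lit 100, nat_lit 28)⟩
noncomputable def p058_k10 : C1.Kn := ⟨[nat_lit 80, nat_lit 90, nat_lit 110], [nat_lit 0, nat_lit 66, nat_lit 324], [(nat_lit 0, nat_lit 0, nat_lit 0), (nat_lit 1000, nat_lit 979, nat_lit 103), (nat_lit 1000, nat_lit 969, nat_lit 202)], (nat_lit 97, nat_lit 100, nat_lit 28)⟩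
noncomputable def p058_k11 : C1.Kn := ⟨[nat_lit 80, nat_lit 90, nat_lit 110], [nat_lit 0, nat_lit 99, nat_lit 359], [(nat_lit 0, nat_lit 0, nat_lit 0), (nat_lit 1000, nat_lit 969, nat_lit 151), (nat_lit 1000, nat_lit 964, nat_lit 203)], (nat_lit 96, nat_lit 100, nat_lit 28)⟩
noncomputable def p058_k12 : C1.Kn := ⟨[nat_lit 60, nat_lit 80, nat_lit 100], [nat_lit 0, nat_lit 0, nat_lit 534], [(nat_lit 0, nat_lit 0, nat_lit 0), (nat_lit 0, nat_lit 0, nat_lit 0), (nat_lit 1000, nat_lit 917, nat_lit 393)], (nat_lit 92, nat_lit 100, nat_lit 39)⟩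
noncomputable def p058_k13 : C1.Kn := ⟨[nat_lit 80, nat_lit 100, nat_lit 120], [nat_lit 0, nat_lit 198, nat_lit 704], [(nat_lit 0, nat_lit 0, nat_lit 0), (nat_lit 1000, nat_lit 969, nat_lit 154), (nat_lit 1000, nat_lit 969, nat_lit 395)], (nat_lit 97, nat_lit 100, nat_lit 39)⟩
noncomputable def p058_k14 : C1.Kn := ⟨[nat_lit 60, nat_lit 80, nat_lit 110], [nat_lit 0, nat_lit 0, nat_lit 799], [(nat_lit 0, nat_lit 0, nat_lit 0), (nat_lit 0, nat_lit 0, nat_lit 0), (nat_lit 1000, nat_lit 917, nat_lit 415)], (nat_lit 92, nat_lit 100, nat_lit 44)⟩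
noncomputable def p058_k15 : C1.Kn := ⟨[nat_lit 40, nat_lit 60, nat_lit 80, nat_lit 100], [nat_lit 0, nat_lit 0, nat_lit 151, nat_lit 679], [(nat_lit 0, nat_lit 0, nat_lit 0), (nat_lit 0, nat_lit 0, nat_lit 0), (nat_lit 1000, nat_lit 953, nat_lit 118), (nat_lit 1000, nat_lit 894, nat_lit 411)], (nat_lit 89, nat_lit 100, nat_lit 44)⟩
noncomputable def p058_k16 : C1.Kn := ⟨[nat_lit 60, nat_lit 100, nat_lit 140], [nat_lit 0, nat_lit 0, nat_lit 2047], [(nat_lit 0, nat_lit 0, nat_lit 0), (nat_lit 0, nat_lit 0, nat_lit 0), (nat_lit 1000, nat_lit 993, nat_lit 781)], (nat_lit 94, nat_lit 100, nat_lit 62)⟩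
noncomputable def p058_k17 : C1.Kn := ⟨[nat_lit 80, nat_lit 120, nat_lit 140], [nat_lit 0, nat_lit 264, nat_lit 1360], [(nat_lit 0, nat_lit 0, nat_lit 0), (nat_lit 1000, nat_lit 979, nat_lit 103), (nat_lit 951, nat_lit 1000, nat_lit 628)], (nat_lit 100, nat_lit 95, nat_lit 62)⟩
noncomputable def p058_k18 : C1.Kn := ⟨[nat_lit 60, nat_lit 100], [nat_lit 0, nat_lit 0], [(nat_lit 0, nat_lit 0, nat_lit 0), (nat_lit 0, nat_lit 0, nat_lit 0)], (nat_lit 92, nat_lit 100, nat_lit 28)⟩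
noncomputable def p058_k19 : C1.Kn := ⟨[nat_lit 80, nat_lit 120], [nat_lit 0, nat_lit 0], [(nat_lit 0, nat_lit 0, nat_lit 0), (nat_lit 0, nat_lit 0, nat_lit 0)], (nat_lit 98, nat_lit 100, nat_lit 28)⟩
noncomputable def p058_k20 : C1.Kn := ⟨[nat_lit 60, nat_lit 100, nat_lit 120], [nat_lit 0, nat_lit 0, nat_lit 1164], [(nat_lit 0, nat_lit 0, nat_lit 0), (nat_lit 0, nat_lit 0, nat_lit 0), (nat_lit 1000, nat_lit 933, nat_lit 572)], (nat_lit 92, nat_lit 100, nat_lit 44)⟩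
noncomputable def p058_k21 : C1.Kn := ⟨[nat_lit 80, nat_lit 120, nat_lit 140], [nat_lit 0, nat_lit 0, nat_lit 1164], [(nat_lit 0, nat_lit 0, nat_lit 0), (nat_lit 0, nat_lit 0, nat_lit 0), (nat_lit 941, nat_lit 1000, nat_lit 576)], (nat_lit 100, nat_lit 99, nat_lit 44)⟩
noncomputable def p058_k22 : C1.Kn := ⟨[nat_lit 80, nat_lit 120, nat_lit 160], [nat_lit 0, nat_lit 0, nat_lit 2132], [(nat_lit 0, nat_lit 0, nat_lit 0), (nat_lit 0, nat_lit 0, nat_lit 0), (nat_lit 858, nat_lit 1000, nat_lit 713)], (nat_lit 100, nat_lit 92, nat_lit 61)⟩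
noncomputable def p058_k23 : C1.Kn := ⟨[nat_lit 60, nat_lit 100], [nat_lit 0, nat_lit 609], [(nat_lit 0, nat_lit 0, nat_lit 0), (nat_lit 1000, nat_lit 905, nat_lit 238)], (nat_lit 87, nat_lit 100, nat_lit 44)⟩
noncomputable def p058_k24 : C1.Kn := ⟨[nat_lit 60, nat_lit 100], [nat_lit 0, nat_lit 909], [(nat_lit 0, nat_lit 0, nat_lit 0), (nat_lit 1000, nat_lit 858, nat_lit 354)], (nat_lit 84, nat_lit 100, nat_lit 44)⟩
noncomputable def p058_k25 : C1.Kn := ⟨[nat_lit 60, nat_lit 100, nat_lit 120], [nat_lit 0, nat_lit 609, nat_lit 1609], [(nat_lit 0, nat_lit 0, nat_lit 0), (nat_lit 1000, nat_lit 905, nat_lit 238), (nat_lit 1000, nat_lit 882, nat_lit 668)], (nat_lit 87, nat_lit 100, nat_lit 60)⟩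
noncomputable def p058_k26 : C1.Kn := ⟨[nat_lit 80, nat_lit 100], [nat_lit 0, nat_lit 265], [(nat_lit 0, nat_lit 0, nat_lit 0), (nat_lit 1000, nat_lit 959, nat_lit 206)], (nat_lit 96, nat_lit 100, nat_lit 20)⟩
noncomputable def p058_k27 : C1.Kn := ⟨[nat_lit 60, nat_lit 80, nat_lit 100], [nat_lit 0, nat_lit 0, nat_lit 534], [(nat_lit 0, nat_lit 0, nat_lit 0), (nat_lit 0, nat_lit 0, nat_lit 0), (nat_lit 1000, nat_lit 917, nat_lit 393)], (nat_lit 92, nat_lit 100, nat_lit 28)⟩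
noncomputable def p058_k28 : C1.Kn := ⟨[nat_lit 80, nat_lit 100], [nat_lit 0, nat_lit 265], [(nat_lit 0, nat_lit 0, nat_lit 0), (nat_lit 1000, nat_lit 959, nat_lit 206)], (nat_lit 95, nat_lit 100, nat_lit 28)⟩
noncomputable def p058_k29 : C1.Kn := ⟨[nat_lit 60, nat_lit 80], [nat_lit 0, nat_lit 304], [(nat_lit 0, nat_lit 0, nat_lit 0), (nat_lit 1000, nat_lit 905, nat_lit 238)], (nat_lit 89, nat_lit 100, nat_lit 29)⟩
noncomputable def p058_k30 : C1.Kn := ⟨[nat_lit 60, nat_lit 80, nat_lit 120], [nat_lit 0, nat_lit 0, nat_lit 1064], [(nat_lit 0, nat_lit 0, nat_lit 0), (nat_lit 0, nat_lit 0, nat_lit 0), (nat_lit 1000, nat_lit 917, nat_lit 415)], (nat_lit 92, nat_lit 100, nat_lit 44)⟩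
noncomputable def p058_k31 : C1.Kn := ⟨[nat_lit 80, nat_lit 100, nat_lit 120], [nat_lit 0, nat_lit 265, nat_lit 768], [(nat_lit 0, nat_lit 0, nat_lit 0), (nat_lit 1000, nat_lit 959, nat_lit 206), (nat_lit 1000, nat_lit 958, nat_lit 392)], (nat_lit 96, nat_lit 100, nat_lit 44)⟩
noncomputable def p058_k32 : C1.Kn := ⟨[nat_lit 60, nat_lit 80, nat_lit 140], [nat_lit 0, nat_lit 0, nat_lit 1595], [(nat_lit 0, nat_lit 0, nat_lit 0), (nat_lit 0, nat_lit 0, nat_lit 0), (nat_lit 1000, nat_lit 917, nat_lit 415)], (nat_lit 94, nat_lit 100, nat_lit 62)⟩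
noncomputable def p058_k33 : C1.Kn := ⟨[nat_lit 80, nat_lit 100, nat_lit 140], [nat_lit 0, nat_lit 265, nat_lit 1269], [(nat_lit 0, nat_lit 0, nat_lit 0), (nat_lit 1000, nat_lit 959, nat_lit 206), (nat_lit 1000, nat_lit 958, nat_lit 392)], (nat_lit 100, nat_lit 99, nat_lit 63)⟩
noncomputable def p058_k34 : C1.Kn := ⟨[nat_lit 80, nat_lit 100, nat_lit 140], [nat_lit 0, nat_lit 399, nat_lit 1395], [(nat_lit 0, nat_lit 0, nat_lit 0), (nat_lit 1000, nat_lit 938, nat_lit 310), (nat_lit 1000, nat_lit 938, nat_lit 389)], (nat_lit 98, nat_lit 100, nat_lit 63)⟩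
noncomputable def p058_k35 : C1.Kn := ⟨[nat_lit 80, nat_lit 120], [nat_lit 0, nat_lit 528], [(nat_lit 0, nat_lit 0, nat_lit 0), (nat_lit 1000, nat_lit 959, nat_lit 206)], (nat_lit 96, nat_lit 100, nat_lit 44)⟩
noncomputable def p058_k36 : C1.Kn := ⟨[nat_lit 80, nat_lit 120, nat_lit 140], [nat_lit 0, nat_lit 528, nat_lit 1572], [(nat_lit 0, nat_lit 0, nat_lit 0), (nat_lit 1000, nat_lit 959, nat_lit 206), (nat_lit 966, nat_lit 1000, nat_lit 679)], (nat_lit 100, nat_lit 99, nat_lit 63)⟩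
noncomputable def p058_k37 : C1.Kn := ⟨[nat_lit 80, nat_lit 120, nat_lit 140], [nat_lit 0, nat_lit 796, nat_lit 1801], [(nat_lit 0, nat_lit 0, nat_lit 0), (nat_lit 1000, nat_lit 938, nat_lit 310), (nat_lit 982, nat_lit 1000, nat_lit 736)], (nat_lit 98, nat_lit 100, nat_lit 63)⟩
noncomputable def p058_k38 : C1.Kn := ⟨[nat_lit 80, nat_lit 120, nat_lit 140], [nat_lit 0, nat_lit 796, nat_lit 1801], [(nat_lit 0, nat_lit 0, nat_lit 0), (nat_lit 1000, nat_lit 938, nat_lit 310), (nat_lit 982, nat_lit 1000, nat_lit 736)], (nat_lit 96, nat_lit 100, nat_lit 56)⟩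
noncomputable def p058_k39 : C1.Kn := ⟨[nat_lit 80, nat_lit 120, nat_lit 140], [nat_lit 0, nat_lit 528, nat_lit 1572], [(nat_lit 0, nat_lit 0, nat_lit 0), (nat_lit 1000, nat_lit 959, nat_lit 206), (nat_lit 966, nat_lit 1000, nat_lit 679)], (nat_lit 99, nat_lit 100, nat_lit 56)⟩
noncomputable def p058_k40 : C1.Kn := ⟨[nat_lit 60, nat_lit 100, nat_lit 120], [nat_lit 0, nat_lit 0, nat_lit 1164], [(nat_lit 0, nat_lit 0, nat_lit 0), (nat_lit 0, nat_lit 0, nat_lit 0), (nat_lit 1000, nat_lit 933, nat_lit 572)], (nat_lit 93, nat_lit 100, nat_lit 58)⟩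
noncomputable def p058_k41 : C1.Kn := ⟨[nat_lit 80, nat_lit 120, nat_lit 140], [nat_lit 0, nat_lit 796, nat_lit 1801], [(nat_lit 0, nat_lit 0, nat_lit 0), (nat_lit 1000, nat_lit 938, nat_lit 310), (nat_lit 982, nat_lit 1000, nat_lit 736)], (nat_lit 97, nat_lit 100, nat_lit 59)⟩
noncomputable def p058_k42 : C1.Kn := ⟨[nat_lit 60, nat_lit 100, nat_lit 140], [nat_lit 0, nat_lit 151, nat_lit 2175], [(nat_lit 0, nat_lit 0, nat_lit 0), (nat_lit 1000, nat_lit 977, nat_lit 59), (nat_lit 1000, nat_lit 974, nat_lit 785)], (nat_lit 92, nat_lit 100, nat_lit 61)⟩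
noncomputable def p058_k43 : C1.Kn := ⟨[nat_lit 60, nat_lit 100, nat_lit 120], [nat_lit 0, nat_lit 302, nat_lit 1376], [(nat_lit 0, nat_lit 0, nat_lit 0), (nat_lit 1000, nat_lit 953, nat_lit 118), (nat_lit 1000, nat_lit 911, nat_lit 628)], (nat_lit 91, nat_lit 100, nat_lit 61)⟩
noncomputable def p058_k44 : C1.Kn := ⟨[nat_lit 80, nat_lit 100, nat_lit 160], [nat_lit 0, nat_lit 0, nat_lit 1533], [(nat_lit 0, nat_lit 0, nat_lit 0), (nat_lit 0, nat_lit 0, nat_lit 0), (nat_lit 1000, nat_lit 1000, nat_lit 399)], (nat_lit 100, nat_lit 92, nat_lit 61)⟩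
noncomputable def p058_k45 : C1.Kn := ⟨[nat_lit 60, nat_lit 100, nat_lit 120], [nat_lit 0, nat_lit 909, nat_lit 1866], [(nat_lit 0, nat_lit 0, nat_lit 0), (nat_lit 1000, nat_lit 858, nat_lit 354), (nat_lit 1000, nat_lit 849, nat_lit 705)], (nat_lit 84, nat_lit 100, nat_lit 60)⟩
noncomputable def p058_k46 : C1.Kn := ⟨[nat_lit 60, nat_lit 80, nat_lit 100], [nat_lit 0, nat_lit 75, nat_lit 606], [(nat_lit 0, nat_lit 0, nat_lit 0), (nat_lit 1000, nat_lit 977, nat_lit 59), (nat_lit 1000, nat_lit 905, nat_lit 411)], (nat_lit 92, nat_lit 100, nat_lit 28)⟩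
noncomputable def p058_k47 : C1.Kn := ⟨[nat_lit 60, nat_lit 100], [nat_lit 0, nat_lit 302], [(nat_lit 0, nat_lit 0, nat_lit 0), (nat_lit 1000, nat_lit 953, nat_lit 118)], (nat_lit 91, nat_lit 100, nat_lit 28)⟩
noncomputable def p058_k48 : C1.Kn := ⟨[nat_lit 60, nat_lit 100], [nat_lit 0, nat_lit 302], [(nat_lit 0, nat_lit 0, nat_lit 0), (nat_lit 1000, nat_lit 953, nat_lit 118)], (nat_lit 89, nat_lit 100, nat_lit 44)⟩
noncomputable def p058_k49 : C1.Kn := ⟨[nat_lit 60, nat_lit 80, nat_lit 100], [nat_lit 0, nat_lit 304, nat_lit 825], [(nat_lit 0, nat_lit 0, nat_lit 0), (nat_lit 1000, nat_lit 905, nat_lit 238), (nat_lit 1000, nat_lit 871, nat_lit 407)], (nat_lit 87, nat_lit 100, nat_lit 44)⟩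
noncomputable def p058_k50 : C1.Kn := ⟨[nat_lit 60, nat_lit 120], [nat_lit 0, nat_lit 453], [(nat_lit 0, nat_lit 0, nat_lit 0), (nat_lit 1000, nat_lit 953, nat_lit 118)], (nat_lit 91, nat_lit 100, nat_lit 61)⟩
noncomputable def p058_k51 : C1.Kn := ⟨[nat_lit 80, nat_lit 160], [nat_lit 0, nat_lit 0], [(nat_lit 0, nat_lit 0, nat_lit 0), (nat_lit 0, nat_lit 0, nat_lit 0)], (nat_lit 100, nat_lit 92, nat_lit 61)⟩
noncomputable def p058_k52 : C1.Kn := ⟨[nat_lit 60, nat_lit 120], [nat_lit 0, nat_lit 913], [(nat_lit 0, nat_lit 0, nat_lit 0), (nat_lit 1000, nat_lit 905, nat_lit 238)], (nat_lit 87, nat_lit 100, nat_lit 60)⟩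
noncomputable def p058_k53 : C1.Kn := ⟨[nat_lit 80, nat_lit 100, nat_lit 140], [nat_lit 0, nat_lit 0, nat_lit 1022], [(nat_lit 0, nat_lit 0, nat_lit 0), (nat_lit 0, nat_lit 0, nat_lit 0), (nat_lit 1000, nat_lit 1000, nat_lit 399)], (nat_lit 100, nat_lit 99, nat_lit 44)⟩
noncomputable def p058_k54 : C1.Kn := ⟨[nat_lit 60, nat_lit 120, nat_lit 140], [nat_lit 0, nat_lit 0, nat_lit 2047], [(nat_lit 0, nat_lit 0, nat_lit 0), (nat_lit 0, nat_lit 0, nat_lit 0), (nat_lit 1000, nat_lit 993, nat_lit 781)], (nat_lit 94, nat_lit 100, nat_lit 62)⟩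
noncomputable def p058_k55 : C1.Kn := ⟨[nat_lit 80, nat_lit 140, nat_lit 160], [nat_lit 0, nat_lit 0, nat_lit 2151], [(nat_lit 0, nat_lit 0, nat_lit 0), (nat_lit 0, nat_lit 0, nat_lit 0), (nat_lit 823, nat_lit 1000, nat_lit 757)], (nat_lit 100, nat_lit 92, nat_lit 61)⟩
noncomputable def p058_k56 : C1.Kn := ⟨[nat_lit 80, nat_lit 140], [nat_lit 0, nat_lit 792], [(nat_lit 0, nat_lit 0, nat_lit 0), (nat_lit 1000, nat_lit 959, nat_lit 206)], (nat_lit 100, nat_lit 99, nat_lit 63)⟩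
noncomputable def p058_l0 : Lf2 := ⟨nat_lit 0, nat_lit 5, [nat_lit 4, nat_lit 5, nat_lit 5, nat_lit 20], true, nat_lit 240, nat_lit 280, nat_lit 0, nat_lit 328, ⟨nat_lit 0, nat_lit 0, nat_lit 1000, nat_lit 6, nat_lit 120, nat_lit 1000, nat_lit 189, nat_lit 1000, nat_lit 17404, nat_lit 247, nat_lit 135000, nat_lit 305, nat_lit 49048300, nat_lit 0, nat_lit 0, nat_lit 4007937, false, false⟩,
 nat_lit 0, nat_lit 4918, nat_lit 0, nat_lit 0, nat_lit 3129, nat_lit 0, nat_lit 0, nat_lit 0, nat_lit 0, nat_lit 0, nat_lit 0, nat_lit 0, nat_lit 0, nat_lit 0, nat_lit 140, nat_lit 852400, nat_lit 0, nat_lit 0, [(nat_lit 12, [(nat_lit 5, nat_lit 246), (nat_lit 6, nat_lit 754)])],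
 ⟨p058_k0, nat_lit 0, nat_lit 0, nat_lit 0, nat_lit 0, nat_lit 248719, [nat_lit 2671075201, nat_lit 2500884801, nat_lit 1515448001, nat_lit 202188799], [], [nat_lit 16295882974, nat_lit 16859157516, nat_lit 16279567130, nat_lit 16822624737, nat_lit 18267124642, nat_lit 18924969003, nat_lit 18191540692, nat_lit 18717559804], nat_lit 1271250, nat_lit 1271250, nat_lit 230001, nat_lit 490000, nat_lit 1271250, nat_lit 1271250, [nat_lit 780000, nat_lit 1100000, nat_lit 1442500, nat_lit 1271250], [nat_lit 212, nat_lit 40, nat_lit 40, nat_lit 80]⟩, C1.Rw.none,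
 ⟨nat_lit 5244, nat_lit 5478, ⟨.ofNat (nat_lit 253659), .ofNat (nat_lit 328592), .ofNat (nat_lit 264337), .ofNat (nat_lit 339271), .ofNat (nat_lit 260778), .ofNat (nat_lit 333949), .ofNat (nat_lit 271470), .ofNat (nat_lit 344641)⟩, ⟨.ofNat (nat_lit 425432), .ofNat (nat_lit 500365), .ofNat (nat_lit 446789), .ofNat (nat_lit 521722), .ofNat (nat_lit 423472), .ofNat (nat_lit 496643), .ofNat (nat_lit 444857), .ofNat (nat_lit 518028)⟩⟩, [⟨nat_lit 0, nat_lit 100, nat_lit 94, nat_lit 68, nat_lit 125670446⟩, ⟨nat_lit 4, nat_lit 100, nat_lit 99, nat_lit 83, nat_lit 158417342⟩]⟩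
noncomputable def p058_l1 : Lf2 := ⟨nat_lit 0, nat_lit 8, [nat_lit 50, nat_lit 5, nat_lit 5, nat_lit 20], true, nat_lit 240, nat_lit 280, nat_lit 0, nat_lit 328, ⟨nat_lit 0, nat_lit 0, nat_lit 1000, nat_lit 6, nat_lit 120, nat_lit 1000, nat_lit 189, nat_lit 1000, nat_lit 17404, nat_lit 247, nat_lit 135000, nat_lit 305, nat_lit 49048300, nat_lit 0, nat_lit 0, nat_lit 4007937, false, false⟩,
 nat_lit 0, nat_lit 5453, nat_lit 0, nat_lit 0, nat_lit 3470, nat_lit 0, nat_lit 0, nat_lit 0, nat_lit 0, nat_lit 0, nat_lit 0, nat_lit 0, nat_lit 0, nat_lit 0, nat_lit 72, nat_lit 400000, nat_lit 0, nat_lit 0, [(nat_lit 12, [(nat_lit 5, nat_lit 1000)])],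
 ⟨p058_k1, nat_lit 0, nat_lit 0, nat_lit 0, nat_lit 0, nat_lit 69419, [nat_lit 2104800000, nat_lit 905333334, nat_lit 113066666], [], [nat_lit 16742247426, nat_lit 17252741686, nat_lit 16564243666, nat_lit 17056769486, nat_lit 18519638146, nat_lit 19210183790, nat_lit 18281791186, nat_lit 18733928006], nat_lit 1271250, nat_lit 1271250, nat_lit 230001, nat_lit 490000, nat_lit 1271250, nat_lit 1271250, [nat_lit 780000, nat_lit 1435000, nat_lit 1271250], [nat_lit 18, nat_lit 40, nat_lit 40, nat_lit 80]⟩, C1.Rw.none,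
 ⟨nat_lit 5244, nat_lit 5478, ⟨.ofNat (nat_lit 253659), .ofNat (nat_lit 328592), .ofNat (nat_lit 264337), .ofNat (nat_lit 339271), .ofNat (nat_lit 260778), .ofNat (nat_lit 333949), .ofNat (nat_lit 271470), .ofNat (nat_lit 344641)⟩, ⟨.ofNat (nat_lit 425432), .ofNat (nat_lit 500365), .ofNat (nat_lit 446789), .ofNat (nat_lit 521722), .ofNat (nat_lit 423472), .ofNat (nat_lit 496643), .ofNat (nat_lit 444857), .ofNat (nat_lit 518028)⟩⟩, [⟨nat_lit 0, nat_lit 100, nat_lit 94, nat_lit 73, nat_lit 147241656⟩, ⟨nat_lit 4, nat_lit 100, nat_lit 99, nat_lit 83, nat_lit 121312435⟩]⟩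
noncomputable def p058_l2 : Lf2 := ⟨nat_lit 1, nat_lit 10, [nat_lit 0, nat_lit 5, nat_lit 5, nat_lit 20], false, nat_lit 240, nat_lit 280, nat_lit 0, nat_lit 328, zbN0,
 nat_lit 0, nat_lit 0, nat_lit 0, nat_lit 0, nat_lit 0, nat_lit 0, nat_lit 0, nat_lit 0, nat_lit 0, nat_lit 0, nat_lit 0, nat_lit 0, nat_lit 0, nat_lit 0, nat_lit 0, nat_lit 0, nat_lit 0, nat_lit 0, [],
 C1.Rw.none, C1.Rw.none,
 zbF0, []⟩
noncomputable def p058_l3 : Lf2 := ⟨nat_lit 0, nat_lit 10, [nat_lit 0, nat_lit 5, nat_lit 5, nat_lit 20], true, nat_lit 240, nat_lit 280, nat_lit 0, nat_lit 328, ⟨nat_lit 0, nat_lit 0, nat_lit 1000, nat_lit 6, nat_lit 125, nat_lit 1000, nat_lit 188, nat_lit 1000, nat_lit 23820, nat_lit 250, nat_lit 147267, nat_lit 309, nat_lit 48782880, nat_lit 0, nat_lit 0, nat_lit 4063626, false, false⟩,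
 nat_lit 0, nat_lit 4664, nat_lit 0, nat_lit 0, nat_lit 3097, nat_lit 0, nat_lit 247, nat_lit 0, nat_lit 0, nat_lit 0, nat_lit 0, nat_lit 0, nat_lit 0, nat_lit 0, nat_lit 72, nat_lit 400000, nat_lit 0, nat_lit 0, [(nat_lit 12, [(nat_lit 5, nat_lit 1000)])],
 ⟨p058_k2, nat_lit 0, nat_lit 0, nat_lit 0, nat_lit 0, nat_lit 305355, [nat_lit 1420000001, nat_lit 1553600000, nat_lit 1788400000, nat_lit 82800000], [], [nat_lit 17020954187, nat_lit 17545328601, nat_lit 17046415442, nat_lit 17555399276, nat_lit 18822302298, nat_lit 19473445659, nat_lit 18797701219, nat_lit 19266143032], nat_lit 1271250, nat_lit 1271250, nat_lit 279600, nat_lit 490000, nat_lit 1271250, nat_lit 1271250, [nat_lit 490000, nat_lit 780000, nat_lit 1100000, nat_lit 1785000], [nat_lit 154, nat_lit 40, nat_lit 40, nat_lit 80]⟩, C1.Rw.none,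
 ⟨nat_lit 5000, nat_lit 5245, ⟨.ofNat (nat_lit 275412), .ofNat (nat_lit 333949), .ofNat (nat_lit 286104), .ofNat (nat_lit 344641), .ofNat (nat_lit 282141), .ofNat (nat_lit 339284), .ofNat (nat_lit 292856), .ofNat (nat_lit 349999)⟩, ⟨.ofNat (nat_lit 423472), .ofNat (nat_lit 496643), .ofNat (nat_lit 444857), .ofNat (nat_lit 518028), .ofNat (nat_lit 421427), .ofNat (nat_lit 492856), .ofNat (nat_lit 442856), .ofNat (nat_lit 514284)⟩⟩, [⟨nat_lit 0, nat_lit 100, nat_lit 92, nat_lit 73, nat_lit 118108625⟩, ⟨nat_lit 4, nat_lit 100, nat_lit 94, nat_lit 81, nat_lit 182536773⟩]⟩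
noncomputable def p058_l4 : Lf2 := ⟨nat_lit 0, nat_lit 10, [nat_lit 0, nat_lit 5, nat_lit 5, nat_lit 20], true, nat_lit 280, nat_lit 300, nat_lit 0, nat_lit 300, ⟨nat_lit 0, nat_lit 1000, nat_lit 0, nat_lit 6, nat_lit 121, nat_lit 1000, nat_lit 210, nat_lit 0, nat_lit 0, nat_lit 0, nat_lit 0, nat_lit 0, nat_lit 47033333, nat_lit 5922735, nat_lit 14043932, nat_lit 4217231, false, false⟩,
 nat_lit 0, nat_lit 0, nat_lit 0, nat_lit 2779, nat_lit 0, nat_lit 0, nat_lit 0, nat_lit 0, nat_lit 358, nat_lit 0, nat_lit 0, nat_lit 0, nat_lit 0, nat_lit 0, nat_lit 0, nat_lit 250000, nat_lit 0, nat_lit 0, [(nat_lit 12, [(nat_lit 0, nat_lit 1000)])],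
 ⟨p058_k3, nat_lit 0, nat_lit 0, nat_lit 0, nat_lit 0, nat_lit 321656, [nat_lit 1576000001, nat_lit 1968800001, nat_lit 2745200001, nat_lit 3496880000], [], [nat_lit 15940548001, nat_lit 16677613000, nat_lit 16702282001, nat_lit 17409557000, nat_lit 16665055000, nat_lit 17384619500, nat_lit 17397770000, nat_lit 18101819500], nat_lit 1271250, nat_lit 1271250, nat_lit 230001, nat_lit 490000, nat_lit 1271250, nat_lit 1271250, [nat_lit 490000, nat_lit 780000, nat_lit 1100000, nat_lit 2127500], [nat_lit 206, nat_lit 40, nat_lit 40, nat_lit 80]⟩, C1.Rw.none,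
 ⟨nat_lit 5000, nat_lit 5478, ⟨.ofNat (nat_lit 253659), .ofNat (nat_lit 328592), .ofNat (nat_lit 264337), .ofNat (nat_lit 339271), .ofNat (nat_lit 267856), .ofNat (nat_lit 339284), .ofNat (nat_lit 278570), .ofNat (nat_lit 349999)⟩, ⟨.ofNat (nat_lit 500365), .ofNat (nat_lit 537832), .ofNat (nat_lit 521722), .ofNat (nat_lit 559189), .ofNat (nat_lit 492856), .ofNat (nat_lit 528570), .ofNat (nat_lit 514284), .ofNat (nat_lit 549998)⟩⟩, [⟨nat_lit 0, nat_lit 100, nat_lit 93, nat_lit 71, nat_lit 10591036⟩, ⟨nat_lit 4, nat_lit 100, nat_lit 97, nat_lit 82, nat_lit 31803325⟩]⟩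
noncomputable def p058_l5 : Lf2 := ⟨nat_lit 0, nat_lit 1, [nat_lit 19, nat_lit 5, nat_lit 5, nat_lit 20], true, nat_lit 280, nat_lit 300, nat_lit 0, nat_lit 260, ⟨nat_lit 0, nat_lit 160, nat_lit 840, nat_lit 6, nat_lit 106, nat_lit 1000, nat_lit 211, nat_lit 840, nat_lit 3701, nat_lit 228, nat_lit 106667, nat_lit 295, nat_lit 47862668, nat_lit 4898564, nat_lit 14238768, nat_lit 4043691, false, false⟩,
 nat_lit 0, nat_lit 4909, nat_lit 0, nat_lit 0, nat_lit 3123, nat_lit 0, nat_lit 0, nat_lit 0, nat_lit 0, nat_lit 0, nat_lit 0, nat_lit 0, nat_lit 0, nat_lit 0, nat_lit 0, nat_lit 1000000, nat_lit 0, nat_lit 0, [(nat_lit 12, [(nat_lit 2, nat_lit 160), (nat_lit 6, nat_lit 840)])],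
 ⟨p058_k4, nat_lit 0, nat_lit 0, nat_lit 0, nat_lit 0, nat_lit 210845, [nat_lit 1082937600, nat_lit 404710400], [], [nat_lit 18416111708, nat_lit 18932276680, nat_lit 18375734113, nat_lit 18888566907, nat_lit 19448441652, nat_lit 20071978847, nat_lit 19401536180, nat_lit 19950498056], nat_lit 1271250, nat_lit 1271250, nat_lit 230001, nat_lit 279600, nat_lit 1271250, nat_lit 1271250, [nat_lit 780000, nat_lit 1100000], [nat_lit 40, nat_lit 40, nat_lit 20, nat_lit 40]⟩, C1.Rw.none,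
 ⟨nat_lit 5244, nat_lit 5478, ⟨.ofNat (nat_lit 253659), .ofNat (nat_lit 268646), .ofNat (nat_lit 256863), .ofNat (nat_lit 271849), .ofNat (nat_lit 260778), .ofNat (nat_lit 275412), .ofNat (nat_lit 263985), .ofNat (nat_lit 278620)⟩, ⟨.ofNat (nat_lit 500365), .ofNat (nat_lit 537832), .ofNat (nat_lit 521722), .ofNat (nat_lit 559189), .ofNat (nat_lit 496643), .ofNat (nat_lit 533228), .ofNat (nat_lit 518028), .ofNat (nat_lit 554614)⟩⟩, [⟨nat_lit 0, nat_lit 100, nat_lit 95, nat_lit 64, nat_lit 141190832⟩, ⟨nat_lit 16, nat_lit 100, nat_lit 95, nat_lit 87, nat_lit 290049128⟩]⟩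
noncomputable def p058_l6 : Lf2 := ⟨nat_lit 0, nat_lit 1, [nat_lit 19, nat_lit 5, nat_lit 5, nat_lit 20], false, nat_lit 280, nat_lit 300, nat_lit 0, nat_lit 160, ⟨nat_lit 1000, nat_lit 0, nat_lit 0, nat_lit 0, nat_lit 0, nat_lit 0, nat_lit 0, nat_lit 0, nat_lit 0, nat_lit 0, nat_lit 0, nat_lit 0, nat_lit 0, nat_lit 0, nat_lit 0, nat_lit 0, false, false⟩,
 nat_lit 14715, nat_lit 0, nat_lit 0, nat_lit 0, nat_lit 6511, nat_lit 8291, nat_lit 0, nat_lit 0, nat_lit 0, nat_lit 3812, nat_lit 0, nat_lit 0, nat_lit 0, nat_lit 0, nat_lit 0, nat_lit 0, nat_lit 0, nat_lit 0, [],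
 ⟨p058_k4, nat_lit 0, nat_lit 0, nat_lit 0, nat_lit 0, nat_lit 218062, [nat_lit 3282000000, nat_lit 4688000000], [], [nat_lit 20639431890, nat_lit 21460325228, nat_lit 20493708588, nat_lit 21311736198, nat_lit 22281218566, nat_lit 23190536296, nat_lit 22129763808, nat_lit 22989546591], nat_lit 1271250, nat_lit 1271250, nat_lit 254650, nat_lit 279600, nat_lit 1271250, nat_lit 1271250, [nat_lit 780000, nat_lit 1100000], [nat_lit 40, nat_lit 40, nat_lit 20, nat_lit 40]⟩, ⟨p058_k5, nat_lit 0, nat_lit 0, nat_lit 0, nat_lit 0, nat_lit 251821, [nat_lit 4688000000, nat_lit 6250000000], [], [nat_lit 16128411005, nat_lit 16443367707, nat_lit 15760232229, nat_lit 16074689560, nat_lit 11561159237, nat_lit 11733469869, nat_lit 11419031969, nat_lit 11590642766], nat_lit 1271250, nat_lit 1271250, nat_lit 254650, nat_lit 279600, nat_lit 0, nat_lit 1100001, [nat_lit 1100000, nat_lit 1442500], [nat_lit 31, nat_lit 40, nat_lit 20, nat_lit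 40]⟩,
 zbF0, [⟨nat_lit 0, nat_lit 100, nat_lit 95, nat_lit 65, nat_lit 1113566274⟩, ⟨nat_lit 16, nat_lit 100, nat_lit 95, nat_lit 87, nat_lit 756234476⟩]⟩
noncomputable def p058_l7 : Lf2 := ⟨nat_lit 0, nat_lit 1, [nat_lit 19, nat_lit 5, nat_lit 5, nat_lit 20], false, nat_lit 280, nat_lit 300, nat_lit 160, nat_lit 260, ⟨nat_lit 1000, nat_lit 0, nat_lit 0, nat_lit 0, nat_lit 0, nat_lit 0, nat_lit 0, nat_lit 0, nat_lit 0, nat_lit 0, nat_lit 0, nat_lit 0, nat_lit 0, nat_lit 0, nat_lit 0, nat_lit 0, false, false⟩,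
 nat_lit 21436, nat_lit 0, nat_lit 0, nat_lit 0, nat_lit 6362, nat_lit 12078, nat_lit 1084, nat_lit 0, nat_lit 0, nat_lit 4689, nat_lit 0, nat_lit 0, nat_lit 0, nat_lit 0, nat_lit 0, nat_lit 0, nat_lit 0, nat_lit 0, [],
 ⟨p058_k6, nat_lit 0, nat_lit 0, nat_lit 0, nat_lit 0, nat_lit 218062, [nat_lit 3282000000, nat_lit 3965500000, nat_lit 4688000000], [], [nat_lit 20238318004, nat_lit 21195226830, nat_lit 20097559143, nat_lit 21005950348, nat_lit 22152882454, nat_lit 23050714756, nat_lit 21960692068, nat_lit 22855893040], nat_lit 1271250, nat_lit 1271250, nat_lit 254650, nat_lit 279600, nat_lit 1271250, nat_lit 1271250, [nat_lit 780000, nat_lit 936250, nat_lit 1100000], [nat_lit 248, nat_lit 40, nat_lit 20, nat_lit 40]⟩, ⟨p058_k7, nat_lit 0, nat_lit 0, nat_lit 0, nat_lit 0, nat_lit 251821, [nat_lit 4688000000, nat_lit 5449500000, nat_lit 6250000000], [], [nat_lit 22892049527, nat_lit 22268673510, nat_lit 21644614604, nat_lit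 21022164728, nat_lit 17845711913, nat_lit 18118512692, nat_lit 17446352044, nat_lit 17718348553], nat_lit 1271250, nat_lit 1271250, nat_lit 254650, nat_lit 279600, nat_lit 1100001, nat_lit 1956250, [nat_lit 1100000, nat_lit 1271250, nat_lit 1271250], [nat_lit 124, nat_lit 40, nat_lit 20, nat_lit 40]⟩,
 zbF0, [⟨nat_lit 0, nat_lit 100, nat_lit 95, nat_lit 65, nat_lit 2553921475⟩, ⟨nat_lit 4, nat_lit 100, nat_lit 99, nat_lit 83, nat_lit 885633002⟩]⟩
noncomputable def p058_l8 : Lf2 := ⟨nat_lit 0, nat_lit 1, [nat_lit 19, nat_lit 5, nat_lit 5, nat_lit 20], false, nat_lit 280, nat_lit 300, nat_lit 0, nat_lit 260, ⟨nat_lit 140, nat_lit 0, nat_lit 860, nat_lit 6, nat_lit 111, nat_lit 860, nat_lit 211, nat_lit 860, nat_lit 3701, nat_lit 228, nat_lit 114817, nat_lit 298, nat_lit 47615356, nat_lit 0, nat_lit 0, nat_lit 4094832, false, false⟩,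
 nat_lit 5187, nat_lit 0, nat_lit 0, nat_lit 0, nat_lit 3300, nat_lit 2949, nat_lit 236, nat_lit 0, nat_lit 0, nat_lit 0, nat_lit 0, nat_lit 0, nat_lit 0, nat_lit 0, nat_lit 0, nat_lit 860000, nat_lit 0, nat_lit 0, [(nat_lit 12, [(nat_lit 6, nat_lit 860)])],
 ⟨p058_k6, nat_lit 0, nat_lit 0, nat_lit 0, nat_lit 0, nat_lit 236697, [nat_lit 1241736000, nat_lit 962810000, nat_lit 662168000], [], [nat_lit 18459756241, nat_lit 19000278541, nat_lit 18434407681, nat_lit 18973536581, nat_lit 19541467161, nat_lit 20177335180, nat_lit 19512946520, nat_lit 20109267710], nat_lit 1271250, nat_lit 1271250, nat_lit 254650, nat_lit 279600, nat_lit 1271250, nat_lit 1271250, [nat_lit 780000, nat_lit 936250, nat_lit 1100000], [nat_lit 248, nat_lit 40, nat_lit 20, nat_lit 40]⟩, ⟨p058_k8, nat_lit 0, nat_lit 0, nat_lit 0, nat_lit 0, nat_lit 270307, [nat_lit 656320000, nat_lit 762930000, nat_lit 875000000], [], [nat_lit 4685894838, nat_lit 4495727937,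 nat_lit 4379351302, nat_lit 4348472314, nat_lit 2928563397, nat_lit 3076020049, nat_lit 2823146435, nat_lit 2970150243], nat_lit 1271250, nat_lit 1271250, nat_lit 254650, nat_lit 279600, nat_lit 0, nat_lit 1836250, [nat_lit 1100000, nat_lit 1271250, nat_lit 1271250], [nat_lit 124, nat_lit 40, nat_lit 20, nat_lit 40]⟩,
 ⟨nat_lit 5244, nat_lit 5478, ⟨.ofNat (nat_lit 266492), .ofNat (nat_lit 273985), .ofNat (nat_lit 271831), .ofNat (nat_lit 279324), .ofNat (nat_lit 273441), .ofNat (nat_lit 280758), .ofNat (nat_lit 278787), .ofNat (nat_lit 286104)⟩, ⟨.ofNat (nat_lit 500365), .ofNat (nat_lit 537832), .ofNat (nat_lit 521722), .ofNat (nat_lit 559189), .ofNat (nat_lit 496643), .ofNat (nat_lit 533228), .ofNat (nat_lit 518028), .ofNat (nat_lit 554614)⟩⟩, [⟨nat_lit 0, nat_lit 100, nat_lit 95, nat_lit 66, nat_lit 640094836⟩, ⟨nat_lit 16, nat_lit 100, nat_lit 95, nat_lit 87, nat_lit 355754648⟩]⟩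
noncomputable def p058_l9 : Lf2 := ⟨nat_lit 0, nat_lit 2, [nat_lit 10, nat_lit 5, nat_lit 5, nat_lit 20], false, nat_lit 280, nat_lit 300, nat_lit 0, nat_lit 260, ⟨nat_lit 82, nat_lit 167, nat_lit 751, nat_lit 6, nat_lit 108, nat_lit 918, nat_lit 211, nat_lit 751, nat_lit 3701, nat_lit 228, nat_lit 109350, nat_lit 296, nat_lit 47771579, nat_lit 5000609, nat_lit 14227812, nat_lit 4062696, false, false⟩,
 nat_lit 2713, nat_lit 2719, nat_lit 0, nat_lit 0, nat_lit 3456, nat_lit 1506, nat_lit 0, nat_lit 0, nat_lit 0, nat_lit 0, nat_lit 0, nat_lit 0, nat_lit 0, nat_lit 0, nat_lit 0, nat_lit 817800, nat_lit 0, nat_lit 0, [(nat_lit 12, [(nat_lit 1, nat_lit 167), (nat_lit 6, nat_lit 751)])],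
 ⟨p058_k9, nat_lit 0, nat_lit 0, nat_lit 0, nat_lit 0, nat_lit 195762, [nat_lit 1291811400, nat_lit 1199619001, nat_lit 382487800], [], [nat_lit 18626299552, nat_lit 19147440192, nat_lit 18564523642, nat_lit 19082250269, nat_lit 19744725920, nat_lit 20398250748, nat_lit 19600215256, nat_lit 20249200288], nat_lit 1271250, nat_lit 1271250, nat_lit 230001, nat_lit 279600, nat_lit 1271250, nat_lit 1271250, [nat_lit 780000, nat_lit 936250, nat_lit 1271250], [nat_lit 211, nat_lit 40, nat_lit 20, nat_lit 40]⟩, ⟨p058_k10, nat_lit 0, nat_lit 0, nat_lit 0, nat_lit 0, nat_lit 230120, [nat_lit 384416000, nat_lit 446859000, nat_lit 581339000], [], [nat_lit 3103447334, nat_lit 2711301500, nat_lit 2789769823, nat_lit 2398794452, nat_lit 1621957195, nat_lit 1776879094, nat_lit 1516313808, nat_lit 1670295305], nat_lit 1271250, nat_lit 1271250, nat_lit 230001, nat_lit 279600, nat_lit 0, nat_lit 1836250, [nat_lit 1100000, nat_lit 1271250,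 nat_lit 1271250], [nat_lit 105, nat_lit 40, nat_lit 20, nat_lit 40]⟩,
 ⟨nat_lit 5244, nat_lit 5478, ⟨.ofNat (nat_lit 253659), .ofNat (nat_lit 268646), .ofNat (nat_lit 264337), .ofNat (nat_lit 279324), .ofNat (nat_lit 260778), .ofNat (nat_lit 275412), .ofNat (nat_lit 271470), .ofNat (nat_lit 286104)⟩, ⟨.ofNat (nat_lit 500365), .ofNat (nat_lit 537832), .ofNat (nat_lit 521722), .ofNat (nat_lit 559189), .ofNat (nat_lit 496643), .ofNat (nat_lit 533228), .ofNat (nat_lit 518028), .ofNat (nat_lit 554614)⟩⟩, [⟨nat_lit 0, nat_lit 100, nat_lit 95, nat_lit 64, nat_lit 465110264⟩, ⟨nat_lit 16, nat_lit 100, nat_lit 95, nat_lit 87, nat_lit 315305990⟩]⟩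
noncomputable def p058_l10 : Lf2 := ⟨nat_lit 0, nat_lit 2, [nat_lit 10, nat_lit 5, nat_lit 5, nat_lit 20], false, nat_lit 280, nat_lit 300, nat_lit 0, nat_lit 276, ⟨nat_lit 185, nat_lit 234, nat_lit 581, nat_lit 6, nat_lit 114, nat_lit 815, nat_lit 211, nat_lit 581, nat_lit 3701, nat_lit 228, nat_lit 123267, nat_lit 301, nat_lit 47381124, nat_lit 5439508, nat_lit 14179368, nat_lit 4141961, false, false⟩,
 nat_lit 5812, nat_lit 196, nat_lit 0, nat_lit 0, nat_lit 3823, nat_lit 3228, nat_lit 514, nat_lit 0, nat_lit 0, nat_lit 60, nat_lit 0, nat_lit 0, nat_lit 0, nat_lit 0, nat_lit 0, nat_lit 674600, nat_lit 0, nat_lit 0, [(nat_lit 12, [(nat_lit 1, nat_lit 234), (nat_lit 6, nat_lit 581)])],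
 ⟨p058_k9, nat_lit 0, nat_lit 0, nat_lit 0, nat_lit 0, nat_lit 220831, [nat_lit 1611463200, nat_lit 1646514701, nat_lit 1223928300], [], [nat_lit 18747988844, nat_lit 19322571475, nat_lit 18627225209, nat_lit 19195954658, nat_lit 19897435669, nat_lit 20578400646, nat_lit 19764684107, nat_lit 20309248068], nat_lit 1271250, nat_lit 1271250, nat_lit 279600, nat_lit 356250, nat_lit 1271250, nat_lit 1271250, [nat_lit 780000, nat_lit 936250, nat_lit 1271250], [nat_lit 211, nat_lit 40, nat_lit 20, nat_lit 40]⟩, ⟨p058_k10, nat_lit 0, nat_lit 0, nat_lit 0, nat_lit 0, nat_lit 259588, [nat_lit 867280000, nat_lit 1008157500, nat_lit 1311557500], [], [nat_lit 6294384895, nat_lit 5875371450, nat_lit 5285867956, nat_lit 4868736112, nat_lit 4134193589, nat_lit 4092072017, nat_lit 4279077144, nat_lit 3905888548], nat_lit 1271250, nat_lit 1271250, nat_lit 279600, nat_lit 356250, nat_lit 0, nat_lit 1949250, [nat_lit 1100000, nat_lit 1271250,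 nat_lit 1271250], [nat_lit 105, nat_lit 40, nat_lit 20, nat_lit 40]⟩,
 ⟨nat_lit 5244, nat_lit 5478, ⟨.ofNat (nat_lit 268646), .ofNat (nat_lit 291125), .ofNat (nat_lit 273985), .ofNat (nat_lit 296465), .ofNat (nat_lit 275412), .ofNat (nat_lit 297363), .ofNat (nat_lit 280758), .ofNat (nat_lit 302709)⟩, ⟨.ofNat (nat_lit 500365), .ofNat (nat_lit 537832), .ofNat (nat_lit 521722), .ofNat (nat_lit 559189), .ofNat (nat_lit 496643), .ofNat (nat_lit 533228), .ofNat (nat_lit 518028), .ofNat (nat_lit 554614)⟩⟩, [⟨nat_lit 16, nat_lit 100, nat_lit 95, nat_lit 87, nat_lit 372170505⟩]⟩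
noncomputable def p058_l11 : Lf2 := ⟨nat_lit 0, nat_lit 2, [nat_lit 10, nat_lit 5, nat_lit 5, nat_lit 20], false, nat_lit 280, nat_lit 300, nat_lit 0, nat_lit 276, ⟨nat_lit 225, nat_lit 0, nat_lit 775, nat_lit 6, nat_lit 116, nat_lit 775, nat_lit 211, nat_lit 775, nat_lit 3701, nat_lit 228, nat_lit 126150, nat_lit 302, nat_lit 47247834, nat_lit 0, nat_lit 0, nat_lit 4168231, false, false⟩,
 nat_lit 5700, nat_lit 0, nat_lit 0, nat_lit 0, nat_lit 3627, nat_lit 3241, nat_lit 145, nat_lit 0, nat_lit 0, nat_lit 346, nat_lit 0, nat_lit 0, nat_lit 0, nat_lit 0, nat_lit 0, nat_lit 775000, nat_lit 0, nat_lit 0, [(nat_lit 12, [(nat_lit 6, nat_lit 775)])],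
 ⟨p058_k9, nat_lit 0, nat_lit 0, nat_lit 0, nat_lit 0, nat_lit 239702, [nat_lit 1443390000, nat_lit 1405907501, nat_lit 723007500], [], [nat_lit 18683345108, nat_lit 19211473870, nat_lit 18575691792, nat_lit 19098543378, nat_lit 19739602632, nat_lit 20402587920, nat_lit 19624382195, nat_lit 20157776132], nat_lit 1271250, nat_lit 1271250, nat_lit 279600, nat_lit 356250, nat_lit 1271250, nat_lit 1271250, [nat_lit 780000, nat_lit 936250, nat_lit 1271250], [nat_lit 211, nat_lit 40, nat_lit 20, nat_lit 40]⟩, ⟨p058_k11, nat_lit 0, nat_lit 0, nat_lit 0, nat_lit 0, nat_lit 273931, [nat_lit 1054800000, nat_lit 1226137500, nat_lit 1595137500], [], [nat_lit 7236214420, nat_lit 6815513498, nat_lit 6225525099, nat_lit 5806713356, nat_lit 5243437833, nat_lit 4867242647, nat_lit 5402444103, nat_lit 5027752579], nat_lit 1271250, nat_lit 1271250, nat_lit 279600, nat_lit 356250, nat_lit 0, nat_lit 1949250, [nat_lit 1100000, nat_lit 1271250,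 nat_lit 1271250], [nat_lit 105, nat_lit 40, nat_lit 20, nat_lit 40]⟩,
 ⟨nat_lit 5244, nat_lit 5478, ⟨.ofNat (nat_lit 273985), .ofNat (nat_lit 296465), .ofNat (nat_lit 279324), .ofNat (nat_lit 301804), .ofNat (nat_lit 280758), .ofNat (nat_lit 302709), .ofNat (nat_lit 286104), .ofNat (nat_lit 308056)⟩, ⟨.ofNat (nat_lit 500365), .ofNat (nat_lit 537832), .ofNat (nat_lit 521722), .ofNat (nat_lit 559189), .ofNat (nat_lit 496643), .ofNat (nat_lit 533228), .ofNat (nat_lit 518028), .ofNat (nat_lit 554614)⟩⟩, [⟨nat_lit 0, nat_lit 100, nat_lit 95, nat_lit 66, nat_lit 14570045⟩, ⟨nat_lit 16, nat_lit 100, nat_lit 95, nat_lit 87, nat_lit 369128689⟩, ⟨nat_lit 23, nat_lit 93, nat_lit 100, nat_lit 71, nat_lit 4794453⟩]⟩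
noncomputable def p058_l12 : Lf2 := ⟨nat_lit 0, nat_lit 2, [nat_lit 10, nat_lit 5, nat_lit 5, nat_lit 20], false, nat_lit 280, nat_lit 300, nat_lit 0, nat_lit 300, ⟨nat_lit 214, nat_lit 0, nat_lit 786, nat_lit 6, nat_lit 127, nat_lit 786, nat_lit 211, nat_lit 786, nat_lit 3701, nat_lit 228, nat_lit 150417, nat_lit 310, nat_lit 46564243, nat_lit 0, nat_lit 0, nat_lit 4297045, false, false⟩,
 nat_lit 5750, nat_lit 0, nat_lit 0, nat_lit 0, nat_lit 3658, nat_lit 3194, nat_lit 106, nat_lit 0, nat_lit 0, nat_lit 318, nat_lit 0, nat_lit 0, nat_lit 0, nat_lit 0, nat_lit 0, nat_lit 786000, nat_lit 0, nat_lit 0, [(nat_lit 12, [(nat_lit 6, nat_lit 786)])],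
 ⟨p058_k9, nat_lit 0, nat_lit 0, nat_lit 0, nat_lit 0, nat_lit 239702, [nat_lit 1417293600, nat_lit 1369577801, nat_lit 655921800], [], [nat_lit 18469247968, nat_lit 18993957012, nat_lit 18424345920, nat_lit 18938937906, nat_lit 19520161772, nat_lit 20181733428, nat_lit 19464684177, nat_lit 19985437105], nat_lit 1271250, nat_lit 1271250, nat_lit 356250, nat_lit 490000, nat_lit 1271250, nat_lit 1271250, [nat_lit 780000, nat_lit 936250, nat_lit 1271250], [nat_lit 211, nat_lit 40, nat_lit 20, nat_lit 40]⟩, ⟨p058_k10, nat_lit 0, nat_lit 0, nat_lit 0, nat_lit 0, nat_lit 281772, [nat_lit 1003232000, nat_lit 1166193000, nat_lit 1517153000], [], [nat_lit 6284425396, nat_lit 5458948872, nat_lit 4633181694, nat_lit 4184895596, nat_lit 5986417346, nat_lit 5265333084, nat_lit 6344085730, nat_lit 5616189100], nat_lit 1271250, nat_lit 1271250, nat_lit 356250, nat_lit 490000, nat_lit 0, nat_lit 2118750, [nat_lit 1100000, nat_lit 1271250,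 nat_lit 1271250], [nat_lit 105, nat_lit 40, nat_lit 20, nat_lit 40]⟩,
 ⟨nat_lit 5244, nat_lit 5478, ⟨.ofNat (nat_lit 291125), .ofNat (nat_lit 328592), .ofNat (nat_lit 301804), .ofNat (nat_lit 339271), .ofNat (nat_lit 297363), .ofNat (nat_lit 333949), .ofNat (nat_lit 308056), .ofNat (nat_lit 344641)⟩, ⟨.ofNat (nat_lit 500365), .ofNat (nat_lit 537832), .ofNat (nat_lit 521722), .ofNat (nat_lit 559189), .ofNat (nat_lit 496643), .ofNat (nat_lit 533228), .ofNat (nat_lit 518028), .ofNat (nat_lit 554614)⟩⟩, [⟨nat_lit 16, nat_lit 100, nat_lit 95, nat_lit 87, nat_lit 327576708⟩, ⟨nat_lit 23, nat_lit 97, nat_lit 100, nat_lit 82, nat_lit 43085826⟩]⟩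
noncomputable def p058_l13 : Lf2 := ⟨nat_lit 0, nat_lit 4, [nat_lit 38, nat_lit 5, nat_lit 5, nat_lit 20], true, nat_lit 280, nat_lit 300, nat_lit 0, nat_lit 276, ⟨nat_lit 0, nat_lit 133, nat_lit 867, nat_lit 6, nat_lit 111, nat_lit 1000, nat_lit 211, nat_lit 867, nat_lit 3701, nat_lit 228, nat_lit 117600, nat_lit 299, nat_lit 47564551, nat_lit 5233027, nat_lit 14202422, nat_lit 4105160, false, false⟩,
 nat_lit 0, nat_lit 5195, nat_lit 0, nat_lit 0, nat_lit 3305, nat_lit 0, nat_lit 0, nat_lit 0, nat_lit 0, nat_lit 0, nat_lit 0, nat_lit 0, nat_lit 0, nat_lit 0, nat_lit 18, nat_lit 545200, nat_lit 0, nat_lit 0, [(nat_lit 12, [(nat_lit 1, nat_lit 133), (nat_lit 5, nat_lit 625), (nat_lit 6, nat_lit 242)])],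
 ⟨p058_k12, nat_lit 0, nat_lit 0, nat_lit 0, nat_lit 0, nat_lit 142722, [nat_lit 1482065400, nat_lit 891683201, nat_lit 2648000], [], [nat_lit 18623155200, nat_lit 19118292610, nat_lit 18484968640, nat_lit 18972153020, nat_lit 19613430020, nat_lit 20250301628, nat_lit 19459337400, nat_lit 19980626695], nat_lit 1271250, nat_lit 1271250, nat_lit 230001, nat_lit 356250, nat_lit 1271250, nat_lit 1271250, [nat_lit 780000, nat_lit 1100000, nat_lit 1442500], [nat_lit 59, nat_lit 40, nat_lit 20, nat_lit 40]⟩, C1.Rw.none,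
 ⟨nat_lit 5244, nat_lit 5478, ⟨.ofNat (nat_lit 253659), .ofNat (nat_lit 291125), .ofNat (nat_lit 258998), .ofNat (nat_lit 296465), .ofNat (nat_lit 260778), .ofNat (nat_lit 297363), .ofNat (nat_lit 266124), .ofNat (nat_lit 302709)⟩, ⟨.ofNat (nat_lit 500365), .ofNat (nat_lit 537832), .ofNat (nat_lit 521722), .ofNat (nat_lit 559189), .ofNat (nat_lit 496643), .ofNat (nat_lit 533228), .ofNat (nat_lit 518028), .ofNat (nat_lit 554614)⟩⟩, [⟨nat_lit 0, nat_lit 100, nat_lit 94, nat_lit 67, nat_lit 153792811⟩, ⟨nat_lit 16, nat_lit 100, nat_lit 95, nat_lit 87, nat_lit 277318972⟩]⟩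
noncomputable def p058_l14 : Lf2 := ⟨nat_lit 0, nat_lit 4, [nat_lit 38, nat_lit 5, nat_lit 5, nat_lit 20], false, nat_lit 280, nat_lit 300, nat_lit 0, nat_lit 276, ⟨nat_lit 243, nat_lit 0, nat_lit 757, nat_lit 6, nat_lit 115, nat_lit 757, nat_lit 211, nat_lit 757, nat_lit 3701, nat_lit 228, nat_lit 123267, nat_lit 301, nat_lit 47340287, nat_lit 0, nat_lit 0, nat_lit 4150051, false, false⟩,
 nat_lit 5974, nat_lit 0, nat_lit 0, nat_lit 95, nat_lit 3801, nat_lit 3397, nat_lit 0, nat_lit 0, nat_lit 0, nat_lit 0, nat_lit 0, nat_lit 0, nat_lit 0, nat_lit 0, nat_lit 0, nat_lit 719800, nat_lit 0, nat_lit 0, [(nat_lit 12, [(nat_lit 5, nat_lit 62), (nat_lit 6, nat_lit 695)])],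
 ⟨p058_k12, nat_lit 0, nat_lit 0, nat_lit 0, nat_lit 0, nat_lit 162134, [nat_lit 1506627600, nat_lit 1320674000, nat_lit 423612800], [], [nat_lit 18923359922, nat_lit 19445512435, nat_lit 18754642968, nat_lit 19269859284, nat_lit 19967664948, nat_lit 20647473380, nat_lit 19785075600, nat_lit 20292246116], nat_lit 1271250, nat_lit 1271250, nat_lit 254650, nat_lit 356250, nat_lit 1271250, nat_lit 1271250, [nat_lit 780000, nat_lit 1100000, nat_lit 1442500], [nat_lit 59, nat_lit 40, nat_lit 20, nat_lit 40]⟩, ⟨p058_k13, nat_lit 0, nat_lit 0, nat_lit 0, nat_lit 0, nat_lit 185536, [nat_lit 1139184000, nat_lit 1518750000, nat_lit 1936224000], [], [nat_lit 8181868900, nat_lit 7740258220, nat_lit 6769419399, nat_lit 6330448868, nat_lit 5149077630, nat_lit 5322980135, nat_lit 4738844744, nat_lit 4852962288], nat_lit 1271250, nat_lit 1271250, nat_lit 254650, nat_lit 356250, nat_lit 0, nat_lit 1949250, [nat_lit 1100000, nat_lit 1442500,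 nat_lit 1271250], [nat_lit 9, nat_lit 40, nat_lit 20, nat_lit 40]⟩,
 ⟨nat_lit 5244, nat_lit 5478, ⟨.ofNat (nat_lit 266492), .ofNat (nat_lit 296465), .ofNat (nat_lit 271831), .ofNat (nat_lit 301804), .ofNat (nat_lit 273441), .ofNat (nat_lit 302709), .ofNat (nat_lit 278787), .ofNat (nat_lit 308056)⟩, ⟨.ofNat (nat_lit 500365), .ofNat (nat_lit 537832), .ofNat (nat_lit 521722), .ofNat (nat_lit 559189), .ofNat (nat_lit 496643), .ofNat (nat_lit 533228), .ofNat (nat_lit 518028), .ofNat (nat_lit 554614)⟩⟩, [⟨nat_lit 0, nat_lit 100, nat_lit 95, nat_lit 66, nat_lit 676336847⟩, ⟨nat_lit 16, nat_lit 100, nat_lit 95, nat_lit 87, nat_lit 370685033⟩]⟩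
noncomputable def p058_l15 : Lf2 := ⟨nat_lit 0, nat_lit 4, [nat_lit 38, nat_lit 5, nat_lit 5, nat_lit 20], true, nat_lit 280, nat_lit 300, nat_lit 0, nat_lit 300, ⟨nat_lit 0, nat_lit 57, nat_lit 943, nat_lit 6, nat_lit 127, nat_lit 1000, nat_lit 211, nat_lit 943, nat_lit 3701, nat_lit 228, nat_lit 150417, nat_lit 310, nat_lit 46564243, nat_lit 6365252, nat_lit 14070505, nat_lit 4297045, false, false⟩,
 nat_lit 0, nat_lit 5366, nat_lit 0, nat_lit 0, nat_lit 3414, nat_lit 0, nat_lit 0, nat_lit 0, nat_lit 0, nat_lit 0, nat_lit 0, nat_lit 0, nat_lit 0, nat_lit 0, nat_lit 18, nat_lit 400000, nat_lit 0, nat_lit 0, [(nat_lit 12, [(nat_lit 1, nat_lit 57), (nat_lit 5, nat_lit 943)])],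
 ⟨p058_k12, nat_lit 0, nat_lit 0, nat_lit 0, nat_lit 0, nat_lit 162134, [nat_lit 1501978200, nat_lit 764651200, nat_lit 976000], [], [nat_lit 18337983752, nat_lit 18831328376, nat_lit 18312227736, nat_lit 18796285108, nat_lit 19353763604, nat_lit 19993166324, nat_lit 19329231768, nat_lit 19848961396], nat_lit 1271250, nat_lit 1271250, nat_lit 356250, nat_lit 490000, nat_lit 1271250, nat_lit 1271250, [nat_lit 780000, nat_lit 1100000, nat_lit 1442500], [nat_lit 59, nat_lit 40, nat_lit 20, nat_lit 40]⟩, C1.Rw.none,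
 ⟨nat_lit 5244, nat_lit 5478, ⟨.ofNat (nat_lit 291125), .ofNat (nat_lit 328592), .ofNat (nat_lit 301804), .ofNat (nat_lit 339271), .ofNat (nat_lit 297363), .ofNat (nat_lit 333949), .ofNat (nat_lit 308056), .ofNat (nat_lit 344641)⟩, ⟨.ofNat (nat_lit 500365), .ofNat (nat_lit 537832), .ofNat (nat_lit 521722), .ofNat (nat_lit 559189), .ofNat (nat_lit 496643), .ofNat (nat_lit 533228), .ofNat (nat_lit 518028), .ofNat (nat_lit 554614)⟩⟩, [⟨nat_lit 16, nat_lit 100, nat_lit 95, nat_lit 87, nat_lit 295007632⟩]⟩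
noncomputable def p058_l16 : Lf2 := ⟨nat_lit 0, nat_lit 5, [nat_lit 4, nat_lit 5, nat_lit 5, nat_lit 20], true, nat_lit 280, nat_lit 300, nat_lit 0, nat_lit 300, ⟨nat_lit 0, nat_lit 0, nat_lit 1000, nat_lit 6, nat_lit 120, nat_lit 1000, nat_lit 211, nat_lit 1000, nat_lit 3701, nat_lit 228, nat_lit 135000, nat_lit 305, nat_lit 47035805, nat_lit 0, nat_lit 0, nat_lit 4209227, false, false⟩,
 nat_lit 0, nat_lit 5419, nat_lit 0, nat_lit 6602, nat_lit 3448, nat_lit 0, nat_lit 0, nat_lit 0, nat_lit 0, nat_lit 0, nat_lit 0, nat_lit 0, nat_lit 0, nat_lit 0, nat_lit 49, nat_lit 400000, nat_lit 0, nat_lit 0, [(nat_lit 12, [(nat_lit 5, nat_lit 1000)])],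
 ⟨p058_k14, nat_lit 0, nat_lit 0, nat_lit 0, nat_lit 0, nat_lit 97079, [nat_lit 1828800000, nat_lit 1185200000, nat_lit 68000000], [], [nat_lit 18372534336, nat_lit 19047545248, nat_lit 18165503264, nat_lit 18642118872, nat_lit 19737567360, nat_lit 20390412384, nat_lit 19209246592, nat_lit 19842334420], nat_lit 1271250, nat_lit 1271250, nat_lit 230001, nat_lit 490000, nat_lit 1271250, nat_lit 1271250, [nat_lit 780000, nat_lit 1100000, nat_lit 1613750], [nat_lit 252, nat_lit 40, nat_lit 20, nat_lit 40]⟩, C1.Rw.none,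
 ⟨nat_lit 5244, nat_lit 5478, ⟨.ofNat (nat_lit 253659), .ofNat (nat_lit 328592), .ofNat (nat_lit 264337), .ofNat (nat_lit 339271), .ofNat (nat_lit 260778), .ofNat (nat_lit 333949), .ofNat (nat_lit 271470), .ofNat (nat_lit 344641)⟩, ⟨.ofNat (nat_lit 500365), .ofNat (nat_lit 537832), .ofNat (nat_lit 521722), .ofNat (nat_lit 559189), .ofNat (nat_lit 496643), .ofNat (nat_lit 533228), .ofNat (nat_lit 518028), .ofNat (nat_lit 554614)⟩⟩, [⟨nat_lit 0, nat_lit 100, nat_lit 94, nat_lit 68, nat_lit 143143963⟩, ⟨nat_lit 4, nat_lit 100, nat_lit 99, nat_lit 83, nat_lit 422625445⟩]⟩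
noncomputable def p058_l17 : Lf2 := ⟨nat_lit 0, nat_lit 5, [nat_lit 4, nat_lit 5, nat_lit 5, nat_lit 20], true, nat_lit 280, nat_lit 292, nat_lit 0, nat_lit 300, ⟨nat_lit 0, nat_lit 0, nat_lit 1000, nat_lit 6, nat_lit 125, nat_lit 1000, nat_lit 207, nat_lit 1000, nat_lit 8501, nat_lit 237, nat_lit 147267, nat_lit 309, nat_lit 47102909, nat_lit 0, nat_lit 0, nat_lit 4235450, false, false⟩,
 nat_lit 0, nat_lit 4375, nat_lit 0, nat_lit 0, nat_lit 2905, nat_lit 0, nat_lit 415, nat_lit 0, nat_lit 0, nat_lit 0, nat_lit 0, nat_lit 0, nat_lit 0, nat_lit 0, nat_lit 27, nat_lit 400000, nat_lit 0, nat_lit 0, [(nat_lit 12, [(nat_lit 5, nat_lit 1000)])],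
 ⟨p058_k15, nat_lit 0, nat_lit 0, nat_lit 0, nat_lit 0, nat_lit 288269, [nat_lit 1060000001, nat_lit 1013600000, nat_lit 791200001, nat_lit 400000], [], [nat_lit 18852502589, nat_lit 19323315185, nat_lit 18865254572, nat_lit 19322938817, nat_lit 19381212137, nat_lit 19995917827, nat_lit 19379498104, nat_lit 19825543499], nat_lit 1271250, nat_lit 1271250, nat_lit 279600, nat_lit 490000, nat_lit 1271250, nat_lit 1271250, [nat_lit 490000, nat_lit 780000, nat_lit 1100000, nat_lit 1442500], [nat_lit 127, nat_lit 40, nat_lit 40, nat_lit 80]⟩, C1.Rw.none,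
 ⟨nat_lit 5000, nat_lit 5245, ⟨.ofNat (nat_lit 275412), .ofNat (nat_lit 333949), .ofNat (nat_lit 286104), .ofNat (nat_lit 344641), .ofNat (nat_lit 282141), .ofNat (nat_lit 339284), .ofNat (nat_lit 292856), .ofNat (nat_lit 349999)⟩, ⟨.ofNat (nat_lit 496643), .ofNat (nat_lit 518594), .ofNat (nat_lit 518028), .ofNat (nat_lit 539979), .ofNat (nat_lit 492856), .ofNat (nat_lit 514284), .ofNat (nat_lit 514284), .ofNat (nat_lit 535713)⟩⟩, [⟨nat_lit 0, nat_lit 100, nat_lit 92, nat_lit 73, nat_lit 114215067⟩, ⟨nat_lit 16, nat_lit 100, nat_lit 100, nat_lit 89, nat_lit 249439515⟩]⟩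
noncomputable def p058_l18 : Lf2 := ⟨nat_lit 0, nat_lit 10, [nat_lit 0, nat_lit 5, nat_lit 5, nat_lit 20], true, nat_lit 280, nat_lit 300, nat_lit 0, nat_lit 300, ⟨nat_lit 0, nat_lit 0, nat_lit 1000, nat_lit 6, nat_lit 121, nat_lit 1000, nat_lit 210, nat_lit 1000, nat_lit 3701, nat_lit 228, nat_lit 138017, nat_lit 306, nat_lit 47033333, nat_lit 0, nat_lit 0, nat_lit 4217231, false, false⟩,
 nat_lit 0, nat_lit 5463, nat_lit 0, nat_lit 5741, nat_lit 3476, nat_lit 0, nat_lit 122, nat_lit 0, nat_lit 0, nat_lit 0, nat_lit 0, nat_lit 0, nat_lit 0, nat_lit 0, nat_lit 95, nat_lit 400000, nat_lit 0, nat_lit 0, [(nat_lit 12, [(nat_lit 5, nat_lit 1000)])],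
 ⟨p058_k16, nat_lit 0, nat_lit 0, nat_lit 0, nat_lit 0, nat_lit 126186, [nat_lit 2380800000, nat_lit 1365333334, nat_lit 202000000], [], [nat_lit 18554124498, nat_lit 19906990800, nat_lit 18154264218, nat_lit 19360413336, nat_lit 19835639736, nat_lit 21145255236, nat_lit 19292961672, nat_lit 20562973492], nat_lit 1271250, nat_lit 1271250, nat_lit 230001, nat_lit 490000, nat_lit 1271250, nat_lit 1271250, [nat_lit 780000, nat_lit 1435000, nat_lit 1271250], [nat_lit 8, nat_lit 40, nat_lit 40, nat_lit 80]⟩, C1.Rw.none,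
 ⟨nat_lit 5000, nat_lit 5478, ⟨.ofNat (nat_lit 253659), .ofNat (nat_lit 328592), .ofNat (nat_lit 264337), .ofNat (nat_lit 339271), .ofNat (nat_lit 267856), .ofNat (nat_lit 339284), .ofNat (nat_lit 278570), .ofNat (nat_lit 349999)⟩, ⟨.ofNat (nat_lit 500365), .ofNat (nat_lit 537832), .ofNat (nat_lit 521722), .ofNat (nat_lit 559189), .ofNat (nat_lit 492856), .ofNat (nat_lit 528570), .ofNat (nat_lit 514284), .ofNat (nat_lit 549998)⟩⟩, [⟨nat_lit 0, nat_lit 100, nat_lit 93, nat_lit 71, nat_lit 171413521⟩, ⟨nat_lit 16, nat_lit 97, nat_lit 100, nat_lit 82, nat_lit 411277840⟩]⟩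
noncomputable def p058_l19 : Lf2 := ⟨nat_lit 0, nat_lit 10, [nat_lit 0, nat_lit 5, nat_lit 5, nat_lit 20], false, nat_lit 280, nat_lit 300, nat_lit 0, nat_lit 300, ⟨nat_lit 0, nat_lit 0, nat_lit 1000, nat_lit 6, nat_lit 121, nat_lit 1000, nat_lit 210, nat_lit 1000, nat_lit 3701, nat_lit 228, nat_lit 138017, nat_lit 306, nat_lit 47033333, nat_lit 0, nat_lit 0, nat_lit 4217231, false, false⟩,
 nat_lit 5067, nat_lit 0, nat_lit 0, nat_lit 0, nat_lit 3224, nat_lit 2814, nat_lit 0, nat_lit 0, nat_lit 0, nat_lit 109, nat_lit 214, nat_lit 0, nat_lit 0, nat_lit 0, nat_lit 124, nat_lit 556000, nat_lit 0, nat_lit 0, [(nat_lit 12, [(nat_lit 5, nat_lit 740), (nat_lit 6, nat_lit 260)])],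
 ⟨p058_k3, nat_lit 0, nat_lit 0, nat_lit 0, nat_lit 0, nat_lit 321656, [nat_lit 1803344001, nat_lit 2181552000, nat_lit 2399804000, nat_lit 250952000], [], [nat_lit 18617246352, nat_lit 19672870200, nat_lit 18296017632, nat_lit 19238561752, nat_lit 19605781464, nat_lit 20872619964, nat_lit 19194533040, nat_lit 20384546908], nat_lit 1271250, nat_lit 1271250, nat_lit 230001, nat_lit 490000, nat_lit 1271250, nat_lit 1271250, [nat_lit 490000, nat_lit 780000, nat_lit 1100000, nat_lit 2127500], [nat_lit 206, nat_lit 40, nat_lit 40, nat_lit 80]⟩, ⟨p058_k17, nat_lit 0, nat_lit 0, nat_lit 445, nat_lit 0, nat_lit 380423, [nat_lit 3424000000, nat_lit 5136000000, nat_lit 5992000000], [], [nat_lit 15024576058, nat_lit 14269104292, nat_lit 12014226394, nat_lit 11603282628, nat_lit 10286215198, nat_lit 9644860277, nat_lit 10655629379, nat_lit 10022559578], nat_lit 1271250, nat_lit 1271250, nat_lit 230001, nat_lit 490000, nat_lit 0,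 nat_lit 2118750, [nat_lit 1100000, nat_lit 1785000, nat_lit 1271250], [nat_lit 29, nat_lit 40, nat_lit 40, nat_lit 80, nat_lit 17, nat_lit 401, nat_lit 175, nat_lit 12]⟩,
 ⟨nat_lit 5000, nat_lit 5478, ⟨.ofNat (nat_lit 253659), .ofNat (nat_lit 328592), .ofNat (nat_lit 264337), .ofNat (nat_lit 339271), .ofNat (nat_lit 267856), .ofNat (nat_lit 339284), .ofNat (nat_lit 278570), .ofNat (nat_lit 349999)⟩, ⟨.ofNat (nat_lit 500365), .ofNat (nat_lit 537832), .ofNat (nat_lit 521722), .ofNat (nat_lit 559189), .ofNat (nat_lit 492856), .ofNat (nat_lit 528570), .ofNat (nat_lit 514284), .ofNat (nat_lit 549998)⟩⟩, [⟨nat_lit 0, nat_lit 100, nat_lit 93, nat_lit 71, nat_lit 66967591⟩, ⟨nat_lit 16, nat_lit 100, nat_lit 95, nat_lit 87, nat_lit 254725496⟩, ⟨nat_lit 23, nat_lit 94, nat_lit 100, nat_lit 75, nat_lit 42617472⟩]⟩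
noncomputable def p058_l20 : Lf2 := ⟨nat_lit 0, nat_lit 10, [nat_lit 0, nat_lit 5, nat_lit 5, nat_lit 20], true, nat_lit 240, nat_lit 300, nat_lit 0, nat_lit 328, ⟨nat_lit 0, nat_lit 0, nat_lit 1000, nat_lit 6, nat_lit 121, nat_lit 1000, nat_lit 196, nat_lit 1000, nat_lit 3701, nat_lit 228, nat_lit 138017, nat_lit 306, nat_lit 48357055, nat_lit 0, nat_lit 0, nat_lit 4088112, false, false⟩,
 nat_lit 0, nat_lit 100000, nat_lit 0, nat_lit 0, nat_lit 63636, nat_lit 0, nat_lit 6105, nat_lit 3030, nat_lit 0, nat_lit 0, nat_lit 0, nat_lit 0, nat_lit 0, nat_lit 0, nat_lit 0, nat_lit 1000000, nat_lit 0, nat_lit 0, [(nat_lit 12, [(nat_lit 6, nat_lit 1000)])],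
 ⟨p058_k16, nat_lit 0, nat_lit 0, nat_lit 291, nat_lit 0, nat_lit 321656, [nat_lit 37501200001, nat_lit 59472400001, nat_lit 79447200000], [], [nat_lit 39501002386, nat_lit 47099327818, nat_lit 23956771650, nat_lit 31147037522, nat_lit 61453438293, nat_lit 69915134463, nat_lit 42747851533, nat_lit 50808752189], nat_lit 1271250, nat_lit 1271250, nat_lit 230001, nat_lit 490000, nat_lit 1271250, nat_lit 1271250, [nat_lit 780000, nat_lit 1435000, nat_lit 1271250], [nat_lit 8, nat_lit 40, nat_lit 40, nat_lit 80, nat_lit 1, nat_lit 317, nat_lit 100, nat_lit 9]⟩, C1.Rw.none,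
 ⟨nat_lit 5000, nat_lit 5478, ⟨.ofNat (nat_lit 253659), .ofNat (nat_lit 328592), .ofNat (nat_lit 264337), .ofNat (nat_lit 339271), .ofNat (nat_lit 267856), .ofNat (nat_lit 339284), .ofNat (nat_lit 278570), .ofNat (nat_lit 349999)⟩, ⟨.ofNat (nat_lit 425432), .ofNat (nat_lit 537832), .ofNat (nat_lit 446789), .ofNat (nat_lit 559189), .ofNat (nat_lit 421427), .ofNat (nat_lit 528570), .ofNat (nat_lit 442856), .ofNat (nat_lit 549998)⟩⟩, [⟨nat_lit 0, nat_lit 100, nat_lit 91, nat_lit 77, nat_lit 2299181218⟩, ⟨nat_lit 16, nat_lit 97, nat_lit 100, nat_lit 82, nat_lit 4311233038⟩]⟩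
noncomputable def b_V_700_600_10_21 : St := ⟨true, nat_lit 1, nat_lit 1, nat_lit 1, nat_lit 80, nat_lit 280, nat_lit 300, nat_lit 250, nat_lit 260, nat_lit 36, nat_lit 80, nat_lit 60, nat_lit 80, nat_lit 240, nat_lit 300, nat_lit 0, nat_lit 336, nat_lit 0, nat_lit 40, nat_lit 0, nat_lit 0, nat_lit 0, nat_lit 0⟩
theorem d_V_700_600_10_21 (h : EB TB.env) : Dead b_V_700_600_10_21 := chkB_sound0 h (T :=
(.trZ (nat_lit 0) (nat_lit 100) (nat_lit 95) (nat_lit 64) (nat_lit 40) (.trX (nat_lit 19) (nat_lit 100) (nat_lit 81) (nat_lit 83) (nat_lit 328) (.spl (nat_lit 7) (nat_lit 600)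
(.spl (nat_lit 4) (nat_lit 280)
(.spl (nat_lit 0) (nat_lit 290)
(.spl (nat_lit 6) (nat_lit 32)
(.spl (nat_lit 6) (nat_lit 20)
(.leaf p058_l0)
(.leaf p058_l1))
(.leaf p058_l2))
(.trZ (nat_lit 0) (nat_lit 100) (nat_lit 92) (nat_lit 68) (nat_lit 48) (.leaf p058_l3)))
(.trX (nat_lit 23) (nat_lit 100) (nat_lit 95) (nat_lit 87) (nat_lit 300) (.spl (nat_lit 7) (nat_lit 300)
(.leaf p058_l4)
(.spl (nat_lit 8) (nat_lit 800)
(.spl (nat_lit 6) (nat_lit 20)
(.spl (nat_lit 0) (nat_lit 290)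
(.spl (nat_lit 6) (nat_lit 8)
(.spl (nat_lit 2) (nat_lit 60)
(.trX (nat_lit 23) (nat_lit 99) (nat_lit 100) (nat_lit 77) (nat_lit 276) (.spl (nat_lit 2) (nat_lit 48)
(.trX (nat_lit 23) (nat_lit 96) (nat_lit 100) (nat_lit 68) (nat_lit 260) (.spl (nat_lit 6) (nat_lit 4)
(.spl (nat_lit 1) (nat_lit 255)
(.spl (nat_lit 1) (nat_lit 253)
(.leaf p058_l5)
(.trZ (nat_lit 0) (nat_lit 100) (nat_lit 95) (nat_lit 65) (nat_lit 44) (.spl (nat_lit 5) (nat_lit 160)
(.leaf p058_l6)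
(.leaf p058_l7))))
(.trZ (nat_lit 0) (nat_lit 100) (nat_lit 95) (nat_lit 66) (nat_lit 44) (.leaf p058_l8)))
(.leaf p058_l9)))
(.spl (nat_lit 1) (nat_lit 255)
(.leaf p058_l10)
(.leaf p058_l11))))
(.leaf p058_l12))
(.spl (nat_lit 6) (nat_lit 16)
(.spl (nat_lit 2) (nat_lit 60)
(.trX (nat_lit 23) (nat_lit 99) (nat_lit 100) (nat_lit 77) (nat_lit 276) (.spl (nat_lit 1) (nat_lit 255)
(.leaf p058_l13)
(.trZ (nat_lit 0) (nat_lit 100) (nat_lit 95) (nat_lit 66) (nat_lit 44) (.leaf p058_l14))))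
(.leaf p058_l15))
(.leaf p058_l16)))
(.trZ (nat_lit 0) (nat_lit 100) (nat_lit 92) (nat_lit 68) (nat_lit 48) (.trX (nat_lit 16) (nat_lit 100) (nat_lit 100) (nat_lit 89) (nat_lit 292) (.leaf p058_l17))))
(.leaf p058_l18))
(.leaf p058_l19)))))
(.leaf p058_l20))))) (by decide +kernel)
noncomputable def p058_l21 : Lf2 := ⟨nat_lit 0, nat_lit 2, [nat_lit 10, nat_lit 5, nat_lit 5, nat_lit 20], false, nat_lit 240, nat_lit 280, nat_lit 0, nat_lit 336, ⟨nat_lit 0, nat_lit 0, nat_lit 1000, nat_lit 6, nat_lit 148, nat_lit 1000, nat_lit 188, nat_lit 1000, nat_lit 17404, nat_lit 247, nat_lit 205350, nat_lit 326, nat_lit 47112798, nat_lit 0, nat_lit 0, nat_lit 4336305, false, false⟩,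
 nat_lit 0, nat_lit 5218, nat_lit 0, nat_lit 0, nat_lit 3320, nat_lit 0, nat_lit 0, nat_lit 0, nat_lit 0, nat_lit 0, nat_lit 0, nat_lit 0, nat_lit 0, nat_lit 0, nat_lit 77, nat_lit 1000000, nat_lit 0, nat_lit 0, [(nat_lit 12, [(nat_lit 6, nat_lit 1000)])],
 ⟨p058_k18, nat_lit 0, nat_lit 0, nat_lit 139, nat_lit 0, nat_lit 292331, [nat_lit 2065200001, nat_lit 412399999], [], [nat_lit 16138443842, nat_lit 17316467682, nat_lit 16564229122, nat_lit 17687956082, nat_lit 18195933202, nat_lit 19273582042, nat_lit 18529599202, nat_lit 19559106802], nat_lit 1271250, nat_lit 1271250, nat_lit 490000, nat_lit 780000, nat_lit 1271250, nat_lit 1271250, [nat_lit 780000, nat_lit 1435000], [nat_lit 49, nat_lit 40, nat_lit 40, nat_lit 80, nat_lit 16, nat_lit 238, nat_lit 30, nat_lit 8]⟩, ⟨p058_k19, nat_lit 0, nat_lit 0, nat_lit 285, nat_lit 0, nat_lit 364218, [nat_lit 0, nat_lit 0], [], [nat_lit 0, nat_lit 0, nat_lit 0, nat_lit 0, nat_lit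 0, nat_lit 0, nat_lit 0, nat_lit 0], nat_lit 1271250, nat_lit 1271250, nat_lit 490000, nat_lit 780000, nat_lit 0, nat_lit 2373000, [nat_lit 1100000, nat_lit 1785000], [nat_lit 39, nat_lit 40, nat_lit 40, nat_lit 80, nat_lit 7, nat_lit 345, nat_lit 125, nat_lit 12]⟩,
 ⟨nat_lit 5000, nat_lit 5478, ⟨.ofNat (nat_lit 317913), .ofNat (nat_lit 392847), .ofNat (nat_lit 339271), .ofNat (nat_lit 414199), .ofNat (nat_lit 328570), .ofNat (nat_lit 399998), .ofNat (nat_lit 349999), .ofNat (nat_lit 421423)⟩, ⟨.ofNat (nat_lit 425432), .ofNat (nat_lit 500365), .ofNat (nat_lit 446789), .ofNat (nat_lit 521722), .ofNat (nat_lit 421427), .ofNat (nat_lit 492856), .ofNat (nat_lit 442856), .ofNat (nat_lit 514284)⟩⟩, [⟨nat_lit 4, nat_lit 100, nat_lit 97, nat_lit 82, nat_lit 222237706⟩]⟩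
noncomputable def p058_l22 : Lf2 := ⟨nat_lit 0, nat_lit 2, [nat_lit 10, nat_lit 5, nat_lit 5, nat_lit 20], false, nat_lit 280, nat_lit 300, nat_lit 0, nat_lit 336, ⟨nat_lit 0, nat_lit 192, nat_lit 808, nat_lit 6, nat_lit 148, nat_lit 1000, nat_lit 210, nat_lit 808, nat_lit 3701, nat_lit 228, nat_lit 205350, nat_lit 326, nat_lit 45259959, nat_lit 7951664, nat_lit 13788377, nat_lit 4522553, false, false⟩,
 nat_lit 0, nat_lit 5465, nat_lit 0, nat_lit 0, nat_lit 3477, nat_lit 0, nat_lit 0, nat_lit 0, nat_lit 0, nat_lit 0, nat_lit 0, nat_lit 0, nat_lit 0, nat_lit 0, nat_lit 37, nat_lit 884800, nat_lit 0, nat_lit 0, [(nat_lit 12, [(nat_lit 1, nat_lit 192), (nat_lit 6, nat_lit 808)])],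
 ⟨p058_k18, nat_lit 0, nat_lit 0, nat_lit 145, nat_lit 0, nat_lit 292331, [nat_lit 1763222401, nat_lit 351369599], [], [nat_lit 18308786572, nat_lit 19407487071, nat_lit 18618353072, nat_lit 19667419732, nat_lit 19356677245, nat_lit 20563681534, nat_lit 19618770791, nat_lit 20631286679], nat_lit 1271250, nat_lit 1271250, nat_lit 490000, nat_lit 780000, nat_lit 1271250, nat_lit 1271250, [nat_lit 780000, nat_lit 1435000], [nat_lit 49, nat_lit 40, nat_lit 40, nat_lit 80, nat_lit 16, nat_lit 238, nat_lit 30, nat_lit 8]⟩, ⟨p058_k19, nat_lit 0, nat_lit 0, nat_lit 285, nat_lit 0, nat_lit 364218, [nat_lit 0, nat_lit 0], [], [nat_lit 0, nat_lit 0, nat_lit 0, nat_lit 0, nat_lit 0, nat_lit 0, nat_lit 0, nat_lit 0], nat_lit 1271250, nat_lit 1271250, nat_lit 490000, nat_lit 780000, nat_lit 0, nat_lit 2373000, [nat_lit 1100000, nat_lit 1785000], [nat_lit 39, nat_lit 40, nat_lit 40, nat_lit 80, nat_lit 7, nat_lit 345, nat_lit 125, nat_lit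 12]⟩,
 ⟨nat_lit 5000, nat_lit 5478, ⟨.ofNat (nat_lit 317913), .ofNat (nat_lit 392847), .ofNat (nat_lit 339271), .ofNat (nat_lit 414199), .ofNat (nat_lit 328570), .ofNat (nat_lit 399998), .ofNat (nat_lit 349999), .ofNat (nat_lit 421423)⟩, ⟨.ofNat (nat_lit 500365), .ofNat (nat_lit 537832), .ofNat (nat_lit 521722), .ofNat (nat_lit 559189), .ofNat (nat_lit 492856), .ofNat (nat_lit 528570), .ofNat (nat_lit 514284), .ofNat (nat_lit 549998)⟩⟩, [⟨nat_lit 16, nat_lit 100, nat_lit 95, nat_lit 87, nat_lit 295594626⟩]⟩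
noncomputable def p058_l23 : Lf2 := ⟨nat_lit 0, nat_lit 5, [nat_lit 4, nat_lit 5, nat_lit 5, nat_lit 20], false, nat_lit 240, nat_lit 300, nat_lit 0, nat_lit 336, ⟨nat_lit 0, nat_lit 0, nat_lit 1000, nat_lit 6, nat_lit 148, nat_lit 1000, nat_lit 196, nat_lit 1000, nat_lit 3701, nat_lit 228, nat_lit 205350, nat_lit 326, nat_lit 46496664, nat_lit 0, nat_lit 0, nat_lit 4402043, false, false⟩,
 nat_lit 0, nat_lit 5314, nat_lit 0, nat_lit 0, nat_lit 3381, nat_lit 0, nat_lit 0, nat_lit 0, nat_lit 0, nat_lit 0, nat_lit 0, nat_lit 0, nat_lit 0, nat_lit 0, nat_lit 89, nat_lit 512200, nat_lit 0, nat_lit 0, [(nat_lit 12, [(nat_lit 5, nat_lit 813), (nat_lit 6, nat_lit 187)])],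
 ⟨p058_k20, nat_lit 0, nat_lit 0, nat_lit 161, nat_lit 0, nat_lit 221107, [nat_lit 2290174800, nat_lit 1134454801, nat_lit 63315599], [], [nat_lit 16273756365, nat_lit 17378546494, nat_lit 16609775053, nat_lit 17741105714, nat_lit 19299577979, nat_lit 20495709502, nat_lit 19577271717, nat_lit 20584897511], nat_lit 1271250, nat_lit 1271250, nat_lit 490000, nat_lit 780000, nat_lit 1271250, nat_lit 1271250, [nat_lit 780000, nat_lit 1435000, nat_lit 1271250], [nat_lit 18, nat_lit 40, nat_lit 40, nat_lit 80, nat_lit 2, nat_lit 238, nat_lit 30, nat_lit 7]⟩, ⟨p058_k21, nat_lit 0, nat_lit 0, nat_lit 340, nat_lit 0, nat_lit 276402, [nat_lit 0, nat_lit 0, nat_lit 0], [], [nat_lit 0, nat_lit 0, nat_lit 0, nat_lit 0, nat_lit 0, nat_lit 0, nat_lit 0, nat_lit 0], nat_lit 1271250, nat_lit 1271250, nat_lit 490000, nat_lit 780000, nat_lit 0, nat_lit 2373000, [nat_lit 1100000, nat_lit 1785000, nat_lit 1271250], [nat_lit 29, nat_lit 40,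 nat_lit 40, nat_lit 80, nat_lit 17, nat_lit 428, nat_lit 200, nat_lit 13]⟩,
 ⟨nat_lit 5000, nat_lit 5478, ⟨.ofNat (nat_lit 317913), .ofNat (nat_lit 392847), .ofNat (nat_lit 339271), .ofNat (nat_lit 414199), .ofNat (nat_lit 328570), .ofNat (nat_lit 399998), .ofNat (nat_lit 349999), .ofNat (nat_lit 421423)⟩, ⟨.ofNat (nat_lit 425432), .ofNat (nat_lit 537832), .ofNat (nat_lit 446789), .ofNat (nat_lit 559189), .ofNat (nat_lit 421427), .ofNat (nat_lit 528570), .ofNat (nat_lit 442856), .ofNat (nat_lit 549998)⟩⟩, [⟨nat_lit 16, nat_lit 100, nat_lit 95, nat_lit 87, nat_lit 291605214⟩]⟩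
noncomputable def p058_l24 : Lf2 := ⟨nat_lit 0, nat_lit 10, [nat_lit 0, nat_lit 5, nat_lit 5, nat_lit 20], false, nat_lit 240, nat_lit 300, nat_lit 0, nat_lit 336, ⟨nat_lit 0, nat_lit 0, nat_lit 1000, nat_lit 6, nat_lit 148, nat_lit 1000, nat_lit 196, nat_lit 1000, nat_lit 3701, nat_lit 228, nat_lit 205350, nat_lit 326, nat_lit 46496664, nat_lit 0, nat_lit 0, nat_lit 4402043, false, false⟩,
 nat_lit 0, nat_lit 5352, nat_lit 0, nat_lit 1151, nat_lit 3405, nat_lit 0, nat_lit 82, nat_lit 0, nat_lit 0, nat_lit 0, nat_lit 0, nat_lit 0, nat_lit 0, nat_lit 0, nat_lit 95, nat_lit 400000, nat_lit 0, nat_lit 0, [(nat_lit 12, [(nat_lit 5, nat_lit 1000)])],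
 ⟨p058_k16, nat_lit 0, nat_lit 0, nat_lit 156, nat_lit 0, nat_lit 126186, [nat_lit 2380800000, nat_lit 1365333334, nat_lit 202000000], [], [nat_lit 16923184030, nat_lit 17822113370, nat_lit 17124054010, nat_lit 17984151030, nat_lit 19304253065, nat_lit 20512702510, nat_lit 19576373085, nat_lit 20596494803], nat_lit 1271250, nat_lit 1271250, nat_lit 490000, nat_lit 780000, nat_lit 1271250, nat_lit 1271250, [nat_lit 780000, nat_lit 1435000, nat_lit 1271250], [nat_lit 8, nat_lit 40, nat_lit 40, nat_lit 80, nat_lit 1, nat_lit 345, nat_lit 125, nat_lit 9]⟩, ⟨p058_k22, nat_lit 0, nat_lit 0, nat_lit 362, nat_lit 0, nat_lit 158541, [nat_lit 0, nat_lit 0, nat_lit 0], [], [nat_lit 0, nat_lit 0, nat_lit 0, nat_lit 0, nat_lit 0, nat_lit 0, nat_lit 0, nat_lit 0], nat_lit 1271250, nat_lit 1271250, nat_lit 490000, nat_lit 780000, nat_lit 0, nat_lit 2373000, [nat_lit 1100000, nat_lit 1785000, nat_lit 1271250], [nat_lit 21, nat_lit 40,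 nat_lit 40, nat_lit 80, nat_lit 14, nat_lit 428, nat_lit 200, nat_lit 11]⟩,
 ⟨nat_lit 5000, nat_lit 5478, ⟨.ofNat (nat_lit 317913), .ofNat (nat_lit 392847), .ofNat (nat_lit 339271), .ofNat (nat_lit 414199), .ofNat (nat_lit 328570), .ofNat (nat_lit 399998), .ofNat (nat_lit 349999), .ofNat (nat_lit 421423)⟩, ⟨.ofNat (nat_lit 425432), .ofNat (nat_lit 537832), .ofNat (nat_lit 446789), .ofNat (nat_lit 559189), .ofNat (nat_lit 421427), .ofNat (nat_lit 528570), .ofNat (nat_lit 442856), .ofNat (nat_lit 549998)⟩⟩, [⟨nat_lit 4, nat_lit 100, nat_lit 97, nat_lit 82, nat_lit 251510204⟩]⟩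
noncomputable def b_V_700_600_10_22 : St := ⟨true, nat_lit 1, nat_lit 1, nat_lit 1, nat_lit 80, nat_lit 280, nat_lit 300, nat_lit 240, nat_lit 260, nat_lit 80, nat_lit 120, nat_lit 60, nat_lit 80, nat_lit 240, nat_lit 300, nat_lit 0, nat_lit 336, nat_lit 0, nat_lit 40, nat_lit 0, nat_lit 0, nat_lit 0, nat_lit 0⟩
theorem d_V_700_600_10_22 (h : EB TB.env) : Dead b_V_700_600_10_22 := chkB_sound0 h (T :=
(.spl (nat_lit 6) (nat_lit 20)
(.spl (nat_lit 6) (nat_lit 8)
(.spl (nat_lit 4) (nat_lit 280)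
(.leaf p058_l21)
(.leaf p058_l22))
(.leaf p058_l23))
(.leaf p058_l24))) (by decide +kernel)
noncomputable def p058_l25 : Lf2 := ⟨nat_lit 0, nat_lit 5, [nat_lit 4, nat_lit 5, nat_lit 5, nat_lit 20], false, nat_lit 240, nat_lit 280, nat_lit 0, nat_lit 336, ⟨nat_lit 0, nat_lit 0, nat_lit 1000, nat_lit 6, nat_lit 140, nat_lit 1000, nat_lit 182, nat_lit 1000, nat_lit 24746, nat_lit 252, nat_lit 183750, nat_lit 320, nat_lit 48244946, nat_lit 0, nat_lit 0, nat_lit 4181790, false, false⟩,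
 nat_lit 0, nat_lit 4707, nat_lit 0, nat_lit 0, nat_lit 3258, nat_lit 0, nat_lit 0, nat_lit 0, nat_lit 0, nat_lit 0, nat_lit 0, nat_lit 0, nat_lit 0, nat_lit 0, nat_lit 122, nat_lit 952000, nat_lit 0, nat_lit 0, [(nat_lit 15, [(nat_lit 5, nat_lit 80), (nat_lit 6, nat_lit 920)])],
 ⟨p058_k23, nat_lit 0, nat_lit 0, nat_lit 226, nat_lit 0, nat_lit 430070, [nat_lit 2470816000, nat_lit 214688000], [], [nat_lit 17806564482, nat_lit 18346699629, nat_lit 18183366968, nat_lit 18683490364, nat_lit 19613516555, nat_lit 20278618677, nat_lit 19862714868, nat_lit 20322976126], nat_lit 1271250, nat_lit 1271250, nat_lit 279600, nat_lit 780000, nat_lit 1271250, nat_lit 1271250, [nat_lit 780000, nat_lit 1435000], [nat_lit 49, nat_lit 40, nat_lit 40, nat_lit 80, nat_lit 16, nat_lit 238, nat_lit 30, nat_lit 8]⟩, ⟨p058_k21, nat_lit 0, nat_lit 0, nat_lit 530, nat_lit 0, nat_lit 594279, [nat_lit 0, nat_lit 0, nat_lit 0], [], [nat_lit 0, nat_lit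 0, nat_lit 0, nat_lit 0, nat_lit 0, nat_lit 0, nat_lit 0, nat_lit 0], nat_lit 1271250, nat_lit 1271250, nat_lit 279600, nat_lit 780000, nat_lit 0, nat_lit 2373000, [nat_lit 1100000, nat_lit 1785000, nat_lit 1271250], [nat_lit 29, nat_lit 40, nat_lit 40, nat_lit 80, nat_lit 17, nat_lit 428, nat_lit 200, nat_lit 13]⟩,
 ⟨nat_lit 4743, nat_lit 5000, ⟨.ofNat (nat_lit 271427), .ofNat (nat_lit 399997), .ofNat (nat_lit 292854), .ofNat (nat_lit 421423), .ofNat (nat_lit 278116), .ofNat (nat_lit 403574), .ofNat (nat_lit 299602), .ofNat (nat_lit 425060)⟩, ⟨.ofNat (nat_lit 399998), .ofNat (nat_lit 471427), .ofNat (nat_lit 442856), .ofNat (nat_lit 514284), .ofNat (nat_lit 397793), .ofNat (nat_lit 467493), .ofNat (nat_lit 440769), .ofNat (nat_lit 510469)⟩⟩, [⟨nat_lit 0, nat_lit 100, nat_lit 88, nat_lit 74, nat_lit 94925627⟩, ⟨nat_lit 16, nat_lit 94, nat_lit 100, nat_lit 87, nat_lit 261714911⟩]⟩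
noncomputable def p058_l26 : Lf2 := ⟨nat_lit 0, nat_lit 5, [nat_lit 4, nat_lit 5, nat_lit 5, nat_lit 20], false, nat_lit 240, nat_lit 268, nat_lit 0, nat_lit 336, ⟨nat_lit 0, nat_lit 0, nat_lit 1000, nat_lit 6, nat_lit 144, nat_lit 1000, nat_lit 177, nat_lit 1000, nat_lit 50560, nat_lit 270, nat_lit 194400, nat_lit 323, nat_lit 48347450, nat_lit 0, nat_lit 0, nat_lit 4183858, false, false⟩,
 nat_lit 0, nat_lit 4584, nat_lit 0, nat_lit 0, nat_lit 3304, nat_lit 0, nat_lit 0, nat_lit 0, nat_lit 0, nat_lit 0, nat_lit 0, nat_lit 0, nat_lit 0, nat_lit 0, nat_lit 118, nat_lit 919000, nat_lit 0, nat_lit 0, [(nat_lit 15, [(nat_lit 5, nat_lit 135), (nat_lit 6, nat_lit 865)])],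
 ⟨p058_k24, nat_lit 0, nat_lit 0, nat_lit 232, nat_lit 0, nat_lit 461598, [nat_lit 2441252000, nat_lit 182736000], [], [nat_lit 18294362936, nat_lit 18833617095, nat_lit 18624136832, nat_lit 19127082880, nat_lit 19525690825, nat_lit 20211898484, nat_lit 19777071802, nat_lit 20251837079], nat_lit 1271250, nat_lit 1271250, nat_lit 330400, nat_lit 780000, nat_lit 1271250, nat_lit 1271250, [nat_lit 780000, nat_lit 1435000], [nat_lit 49, nat_lit 40, nat_lit 40, nat_lit 80, nat_lit 16, nat_lit 238, nat_lit 30, nat_lit 8]⟩, ⟨p058_k21, nat_lit 0, nat_lit 0, nat_lit 577, nat_lit 0, nat_lit 669033, [nat_lit 0, nat_lit 0, nat_lit 0], [], [nat_lit 0, nat_lit 0, nat_lit 0, nat_lit 0, nat_lit 0, nat_lit 0, nat_lit 0, nat_lit 0], nat_lit 1271250, nat_lit 1271250, nat_lit 330400, nat_lit 780000, nat_lit 0, nat_lit 2373000, [nat_lit 1100000, nat_lit 1785000, nat_lit 1271250], [nat_lit 29, nat_lit 40, nat_lit 40, nat_lit 80, nat_lit 17,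 nat_lit 428, nat_lit 200, nat_lit 13]⟩,
 ⟨nat_lit 4472, nat_lit 4744, ⟨.ofNat (nat_lit 292052), .ofNat (nat_lit 403571), .ofNat (nat_lit 313537), .ofNat (nat_lit 425056), .ofNat (nat_lit 298407), .ofNat (nat_lit 407171), .ofNat (nat_lit 319970), .ofNat (nat_lit 428734)⟩, ⟨.ofNat (nat_lit 397793), .ofNat (nat_lit 446583), .ofNat (nat_lit 440769), .ofNat (nat_lit 489559), .ofNat (nat_lit 395445), .ofNat (nat_lit 443030), .ofNat (nat_lit 438578), .ofNat (nat_lit 486162)⟩⟩, [⟨nat_lit 0, nat_lit 100, nat_lit 84, nat_lit 79, nat_lit 90829239⟩, ⟨nat_lit 16, nat_lit 89, nat_lit 100, nat_lit 85, nat_lit 275023189⟩]⟩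
noncomputable def p058_l27 : Lf2 := ⟨nat_lit 0, nat_lit 10, [nat_lit 0, nat_lit 5, nat_lit 5, nat_lit 20], false, nat_lit 240, nat_lit 280, nat_lit 0, nat_lit 336, ⟨nat_lit 0, nat_lit 0, nat_lit 1000, nat_lit 6, nat_lit 141, nat_lit 1000, nat_lit 182, nat_lit 1000, nat_lit 24746, nat_lit 252, nat_lit 183750, nat_lit 320, nat_lit 48223858, nat_lit 0, nat_lit 0, nat_lit 4187553, false, false⟩,
 nat_lit 0, nat_lit 5169, nat_lit 0, nat_lit 0, nat_lit 3578, nat_lit 0, nat_lit 0, nat_lit 0, nat_lit 0, nat_lit 0, nat_lit 0, nat_lit 0, nat_lit 0, nat_lit 0, nat_lit 94, nat_lit 400000, nat_lit 0, nat_lit 0, [(nat_lit 15, [(nat_lit 5, nat_lit 1000)])],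
 ⟨p058_k25, nat_lit 0, nat_lit 0, nat_lit 243, nat_lit 0, nat_lit 330949, [nat_lit 2443200000, nat_lit 916400001, nat_lit 120399999], [], [nat_lit 18017071746, nat_lit 19141713751, nat_lit 18291237688, nat_lit 19330756160, nat_lit 19887212747, nat_lit 21278612497, nat_lit 20025961588, nat_lit 20980244744], nat_lit 1271250, nat_lit 1271250, nat_lit 279600, nat_lit 780000, nat_lit 1271250, nat_lit 1271250, [nat_lit 780000, nat_lit 1435000, nat_lit 1271250], [nat_lit 18, nat_lit 40, nat_lit 40, nat_lit 80, nat_lit 2, nat_lit 238, nat_lit 30, nat_lit 7]⟩, ⟨p058_k22, nat_lit 0, nat_lit 0, nat_lit 551, nat_lit 0, nat_lit 460599, [nat_lit 0, nat_lit 0, nat_lit 0], [], [nat_lit 0, nat_lit 0, nat_lit 0, nat_lit 0, nat_lit 0, nat_lit 0, nat_lit 0, nat_lit 0], nat_lit 1271250, nat_lit 1271250, nat_lit 279600, nat_lit 780000, nat_lit 0, nat_lit 2373000, [nat_lit 1100000, nat_lit 1785000, nat_lit 1271250], [nat_lit 21, nat_lit 40,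 nat_lit 40, nat_lit 80, nat_lit 14, nat_lit 428, nat_lit 200, nat_lit 11]⟩,
 ⟨nat_lit 4472, nat_lit 5000, ⟨.ofNat (nat_lit 271418), .ofNat (nat_lit 399984), .ofNat (nat_lit 292837), .ofNat (nat_lit 421400), .ofNat (nat_lit 284805), .ofNat (nat_lit 407160), .ofNat (nat_lit 306362), .ofNat (nat_lit 428715)⟩, ⟨.ofNat (nat_lit 399998), .ofNat (nat_lit 471427), .ofNat (nat_lit 442856), .ofNat (nat_lit 514284), .ofNat (nat_lit 395445), .ofNat (nat_lit 463423), .ofNat (nat_lit 438578), .ofNat (nat_lit 506556)⟩⟩, [⟨nat_lit 0, nat_lit 100, nat_lit 86, nat_lit 77, nat_lit 106438887⟩, ⟨nat_lit 16, nat_lit 94, nat_lit 100, nat_lit 87, nat_lit 270174444⟩]⟩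
noncomputable def b_V_700_600_10_23 : St := ⟨true, nat_lit 1, nat_lit 1, nat_lit 1, nat_lit 80, nat_lit 300, nat_lit 320, nat_lit 240, nat_lit 260, nat_lit 36, nat_lit 120, nat_lit 40, nat_lit 80, nat_lit 240, nat_lit 300, nat_lit 0, nat_lit 336, nat_lit 0, nat_lit 40, nat_lit 0, nat_lit 0, nat_lit 0, nat_lit 0⟩
theorem d_V_700_600_10_23 (h : EB TB.env) : Dead b_V_700_600_10_23 := chkB_sound0 h (T :=
(.trZ (nat_lit 0) (nat_lit 100) (nat_lit 88) (nat_lit 68) (nat_lit 48) (.trX (nat_lit 16) (nat_lit 94) (nat_lit 100) (nat_lit 87) (nat_lit 280) (.spl (nat_lit 6) (nat_lit 20)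
(.spl (nat_lit 0) (nat_lit 310)
(.leaf p058_l25)
(.trZ (nat_lit 0) (nat_lit 100) (nat_lit 85) (nat_lit 72) (nat_lit 56) (.trX (nat_lit 16) (nat_lit 89) (nat_lit 100) (nat_lit 85) (nat_lit 268) (.leaf p058_l26))))
(.leaf p058_l27))))) (by decide +kernel)
noncomputable def p058_l28 : Lf2 := ⟨nat_lit 0, nat_lit 1, [nat_lit 19, nat_lit 5, nat_lit 5, nat_lit 20], false, nat_lit 240, nat_lit 300, nat_lit 0, nat_lit 160, ⟨nat_lit 280, nat_lit 0, nat_lit 720, nat_lit 6, nat_lit 128, nat_lit 720, nat_lit 191, nat_lit 720, nat_lit 3701, nat_lit 228, nat_lit 153600, nat_lit 311, nat_lit 48252243, nat_lit 0, nat_lit 0, nat_lit 4135685, false, false⟩,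
 nat_lit 6406, nat_lit 0, nat_lit 0, nat_lit 0, nat_lit 4076, nat_lit 3728, nat_lit 0, nat_lit 0, nat_lit 0, nat_lit 0, nat_lit 0, nat_lit 0, nat_lit 0, nat_lit 0, nat_lit 0, nat_lit 720000, nat_lit 0, nat_lit 0, [(nat_lit 12, [(nat_lit 6, nat_lit 720)])],
 ⟨p058_k4, nat_lit 0, nat_lit 0, nat_lit 194, nat_lit 0, nat_lit 435164, [nat_lit 1573872000, nat_lit 1329368000], [], [nat_lit 17446955361, nat_lit 18508906199, nat_lit 17293921440, nat_lit 18323081360, nat_lit 20230356044, nat_lit 21633069208, nat_lit 19978012068, nat_lit 20987798692], nat_lit 1271250, nat_lit 1271250, nat_lit 279600, nat_lit 490000, nat_lit 1271250, nat_lit 1271250, [nat_lit 780000, nat_lit 1100000], [nat_lit 40, nat_lit 40, nat_lit 40, nat_lit 80, nat_lit 22, nat_lit 226, nat_lit 20, nat_lit 9]⟩, ⟨p058_k26, nat_lit 0, nat_lit 0, nat_lit 313, nat_lit 0, nat_lit 483458, [nat_lit 1312640000, nat_lit 1750000000], [], [nat_lit 8564239847, nat_lit 7596387671,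 nat_lit 5480927360, nat_lit 5753998640, nat_lit 3375005415, nat_lit 2900233066, nat_lit 3878932224, nat_lit 2988521792], nat_lit 1271250, nat_lit 1271250, nat_lit 279600, nat_lit 490000, nat_lit 0, nat_lit 1100001, [nat_lit 1100000, nat_lit 1442500], [nat_lit 31, nat_lit 40, nat_lit 40, nat_lit 80, nat_lit 3, nat_lit 272, nat_lit 60, nat_lit 11]⟩,
 ⟨nat_lit 5000, nat_lit 5478, ⟨.ofNat (nat_lit 279324), .ofNat (nat_lit 339271), .ofNat (nat_lit 290003), .ofNat (nat_lit 349949), .ofNat (nat_lit 292856), .ofNat (nat_lit 349999), .ofNat (nat_lit 303570), .ofNat (nat_lit 360713)⟩, ⟨.ofNat (nat_lit 404075), .ofNat (nat_lit 516475), .ofNat (nat_lit 446789), .ofNat (nat_lit 559189), .ofNat (nat_lit 399998), .ofNat (nat_lit 507141), .ofNat (nat_lit 442856), .ofNat (nat_lit 549998)⟩⟩, [⟨nat_lit 0, nat_lit 100, nat_lit 96, nat_lit 69, nat_lit 817638566⟩, ⟨nat_lit 16, nat_lit 100, nat_lit 95, nat_lit 87, nat_lit 336773736⟩]⟩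
noncomputable def p058_l29 : Lf2 := ⟨nat_lit 0, nat_lit 2, [nat_lit 10, nat_lit 5, nat_lit 5, nat_lit 20], false, nat_lit 240, nat_lit 300, nat_lit 0, nat_lit 160, ⟨nat_lit 412, nat_lit 0, nat_lit 588, nat_lit 6, nat_lit 128, nat_lit 588, nat_lit 191, nat_lit 588, nat_lit 3701, nat_lit 228, nat_lit 153600, nat_lit 311, nat_lit 48252243, nat_lit 0, nat_lit 0, nat_lit 4135685, false, false⟩,
 nat_lit 8344, nat_lit 0, nat_lit 0, nat_lit 0, nat_lit 4659, nat_lit 4856, nat_lit 258, nat_lit 0, nat_lit 0, nat_lit 0, nat_lit 0, nat_lit 0, nat_lit 0, nat_lit 0, nat_lit 0, nat_lit 588000, nat_lit 0, nat_lit 0, [(nat_lit 12, [(nat_lit 6, nat_lit 588)])],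
 ⟨p058_k27, nat_lit 0, nat_lit 0, nat_lit 221, nat_lit 0, nat_lit 396072, [nat_lit 1887028801, nat_lit 2066225601, nat_lit 1676771200], [], [nat_lit 17992790008, nat_lit 19045924585, nat_lit 17705246302, nat_lit 18725250930, nat_lit 20719349159, nat_lit 22220218535, nat_lit 20366612790, nat_lit 21400587178], nat_lit 1271250, nat_lit 1271250, nat_lit 279600, nat_lit 490000, nat_lit 1271250, nat_lit 1271250, [nat_lit 780000, nat_lit 1100000, nat_lit 1442500], [nat_lit 59, nat_lit 40, nat_lit 40, nat_lit 80, nat_lit 3, nat_lit 226, nat_lit 20, nat_lit 8]⟩, ⟨p058_k28, nat_lit 0, nat_lit 0, nat_lit 274, nat_lit 0, nat_lit 440270, [nat_lit 1931456000, nat_lit 2575000000], [], [nat_lit 12766077037, nat_lit 11505376885, nat_lit 8749830944, nat_lit 7907970344, nat_lit 6234376781, nat_lit 5061594509, nat_lit 6930569280, nat_lit 5770742816], nat_lit 1271250, nat_lit 1271250, nat_lit 279600, nat_lit 490000, nat_lit 0, nat_lit 1100001,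 [nat_lit 1100000, nat_lit 1442500], [nat_lit 31, nat_lit 40, nat_lit 40, nat_lit 80, nat_lit 3, nat_lit 272, nat_lit 60, nat_lit 11]⟩,
 ⟨nat_lit 5000, nat_lit 5478, ⟨.ofNat (nat_lit 279324), .ofNat (nat_lit 339271), .ofNat (nat_lit 290003), .ofNat (nat_lit 349949), .ofNat (nat_lit 292856), .ofNat (nat_lit 349999), .ofNat (nat_lit 303570), .ofNat (nat_lit 360713)⟩, ⟨.ofNat (nat_lit 404075), .ofNat (nat_lit 516475), .ofNat (nat_lit 446789), .ofNat (nat_lit 559189), .ofNat (nat_lit 399998), .ofNat (nat_lit 507141), .ofNat (nat_lit 442856), .ofNat (nat_lit 549998)⟩⟩, [⟨nat_lit 0, nat_lit 100, nat_lit 96, nat_lit 69, nat_lit 1035161072⟩, ⟨nat_lit 16, nat_lit 100, nat_lit 95, nat_lit 87, nat_lit 376341910⟩]⟩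
noncomputable def p058_l30 : Lf2 := ⟨nat_lit 0, nat_lit 2, [nat_lit 10, nat_lit 5, nat_lit 5, nat_lit 20], false, nat_lit 240, nat_lit 280, nat_lit 0, nat_lit 160, ⟨nat_lit 1000, nat_lit 0, nat_lit 0, nat_lit 0, nat_lit 0, nat_lit 0, nat_lit 0, nat_lit 0, nat_lit 0, nat_lit 0, nat_lit 0, nat_lit 0, nat_lit 0, nat_lit 0, nat_lit 0, nat_lit 0, false, false⟩,
 nat_lit 12031, nat_lit 0, nat_lit 0, nat_lit 0, nat_lit 5716, nat_lit 7003, nat_lit 1947, nat_lit 0, nat_lit 0, nat_lit 863, nat_lit 0, nat_lit 0, nat_lit 0, nat_lit 0, nat_lit 0, nat_lit 0, nat_lit 0, nat_lit 0, [],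
 ⟨p058_k29, nat_lit 0, nat_lit 0, nat_lit 206, nat_lit 0, nat_lit 498066, [nat_lit 3282000000, nat_lit 4688000000], [], [nat_lit 19051088322, nat_lit 20361985178, nat_lit 18812570584, nat_lit 20101161856, nat_lit 21166961992, nat_lit 22928110385, nat_lit 20898805396, nat_lit 22355730256], nat_lit 1271250, nat_lit 1271250, nat_lit 382400, nat_lit 490000, nat_lit 1271250, nat_lit 1271250, [nat_lit 780000, nat_lit 1100000], [nat_lit 40, nat_lit 40, nat_lit 40, nat_lit 80, nat_lit 22, nat_lit 226, nat_lit 20, nat_lit 9]⟩, ⟨p058_k28, nat_lit 0, nat_lit 0, nat_lit 353, nat_lit 0, nat_lit 611137, [nat_lit 4688000000, nat_lit 6250000000], [], [nat_lit 29338978654, nat_lit 27531693435, nat_lit 26442997250, nat_lit 24646524663, nat_lit 24650943625, nat_lit 22968977091, nat_lit 25400551569, nat_lit 23727927037], nat_lit 1271250, nat_lit 1271250, nat_lit 382400, nat_lit 490000, nat_lit 0, nat_lit 1100001, [nat_lit 1100000, nat_lit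 1442500], [nat_lit 31, nat_lit 40, nat_lit 40, nat_lit 80, nat_lit 3, nat_lit 272, nat_lit 60, nat_lit 11]⟩,
 zbF0, [⟨nat_lit 0, nat_lit 100, nat_lit 91, nat_lit 77, nat_lit 530215378⟩, ⟨nat_lit 16, nat_lit 94, nat_lit 100, nat_lit 87, nat_lit 605332417⟩]⟩
noncomputable def p058_l31 : Lf2 := ⟨nat_lit 0, nat_lit 5, [nat_lit 4, nat_lit 5, nat_lit 5, nat_lit 20], false, nat_lit 240, nat_lit 300, nat_lit 0, nat_lit 160, ⟨nat_lit 339, nat_lit 0, nat_lit 661, nat_lit 6, nat_lit 131, nat_lit 661, nat_lit 190, nat_lit 661, nat_lit 3701, nat_lit 228, nat_lit 160067, nat_lit 313, nat_lit 48209213, nat_lit 0, nat_lit 0, nat_lit 4151336, false, false⟩,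
 nat_lit 7426, nat_lit 0, nat_lit 0, nat_lit 0, nat_lit 4725, nat_lit 4322, nat_lit 35, nat_lit 0, nat_lit 0, nat_lit 0, nat_lit 0, nat_lit 0, nat_lit 0, nat_lit 0, nat_lit 0, nat_lit 661000, nat_lit 0, nat_lit 0, [(nat_lit 12, [(nat_lit 6, nat_lit 661)]), (nat_lit 15, [(nat_lit 6, nat_lit 661)])],
 ⟨p058_k30, nat_lit 0, nat_lit 0, nat_lit 295, nat_lit 0, nat_lit 486561, [nat_lit 1760378000, nat_lit 2139448401, nat_lit 204068267], [], [nat_lit 18194513288, nat_lit 20173306723, nat_lit 17923196002, nat_lit 19879738802, nat_lit 20774706870, nat_lit 23798669671, nat_lit 20460851227, nat_lit 22920691950], nat_lit 1271250, nat_lit 1271250, nat_lit 279600, nat_lit 490000, nat_lit 1271250, nat_lit 1271250, [nat_lit 780000, nat_lit 1100000, nat_lit 1785000], [nat_lit 36, nat_lit 40, nat_lit 40, nat_lit 80, nat_lit 7, nat_lit 226, nat_lit 20, nat_lit 7]⟩, ⟨p058_k31, nat_lit 0, nat_lit 0, nat_lit 421, nat_lit 0, nat_lit 541707,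 [nat_lit 1589232000, nat_lit 2118750000, nat_lit 2701152000], [], [nat_lit 10418874922, nat_lit 9296810248, nat_lit 7138379848, nat_lit 7637777134, nat_lit 7240584507, nat_lit 6211102259, nat_lit 7882386212, nat_lit 6864110046], nat_lit 1271250, nat_lit 1271250, nat_lit 279600, nat_lit 490000, nat_lit 0, nat_lit 1100001, [nat_lit 1100000, nat_lit 1442500, nat_lit 1271250], [nat_lit 9, nat_lit 40, nat_lit 40, nat_lit 80, nat_lit 2, nat_lit 272, nat_lit 60, nat_lit 9]⟩,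
 ⟨nat_lit 4472, nat_lit 5478, ⟨.ofNat (nat_lit 279289), .ofNat (nat_lit 339222), .ofNat (nat_lit 289951), .ofNat (nat_lit 349884), .ofNat (nat_lit 306346), .ofNat (nat_lit 360715), .ofNat (nat_lit 317112), .ofNat (nat_lit 371481)⟩, ⟨.ofNat (nat_lit 404075), .ofNat (nat_lit 516475), .ofNat (nat_lit 446789), .ofNat (nat_lit 559189), .ofNat (nat_lit 395445), .ofNat (nat_lit 497412), .ofNat (nat_lit 438578), .ofNat (nat_lit 540545)⟩⟩, [⟨nat_lit 0, nat_lit 100, nat_lit 96, nat_lit 69, nat_lit 515491129⟩, ⟨nat_lit 16, nat_lit 100, nat_lit 95, nat_lit 87, nat_lit 341601101⟩]⟩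
noncomputable def p058_l32 : Lf2 := ⟨nat_lit 0, nat_lit 10, [nat_lit 0, nat_lit 5, nat_lit 5, nat_lit 20], false, nat_lit 240, nat_lit 300, nat_lit 0, nat_lit 160, ⟨nat_lit 748, nat_lit 0, nat_lit 252, nat_lit 6, nat_lit 131, nat_lit 252, nat_lit 190, nat_lit 252, nat_lit 3701, nat_lit 228, nat_lit 160067, nat_lit 313, nat_lit 48209213, nat_lit 0, nat_lit 0, nat_lit 4151336, false, false⟩,
 nat_lit 14523, nat_lit 0, nat_lit 0, nat_lit 0, nat_lit 6485, nat_lit 8453, nat_lit 1186, nat_lit 0, nat_lit 0, nat_lit 0, nat_lit 0, nat_lit 0, nat_lit 0, nat_lit 0, nat_lit 0, nat_lit 252000, nat_lit 0, nat_lit 0, [(nat_lit 12, [(nat_lit 6, nat_lit 252)]), (nat_lit 15, [(nat_lit 6, nat_lit 252)])],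
 ⟨p058_k32, nat_lit 0, nat_lit 0, nat_lit 313, nat_lit 0, nat_lit 404241, [nat_lit 2701896001, nat_lit 3591296000, nat_lit 6037606400], [], [nat_lit 18811204707, nat_lit 21564300755, nat_lit 17806961510, nat_lit 20476607810, nat_lit 22251356478, nat_lit 25867516582, nat_lit 21147433305, nat_lit 24453409070], nat_lit 1271250, nat_lit 1271250, nat_lit 279600, nat_lit 490000, nat_lit 1271250, nat_lit 1271250, [nat_lit 780000, nat_lit 1100000, nat_lit 2127500], [nat_lit 42, nat_lit 40, nat_lit 40, nat_lit 80, nat_lit 13, nat_lit 317, nat_lit 100, nat_lit 9]⟩, ⟨p058_k33, nat_lit 0, nat_lit 0, nat_lit 463, nat_lit 0, nat_lit 451127, [nat_lit 3506624000, nat_lit 4675000000, nat_lit 7361816000], [], [nat_lit 23272116293, nat_lit 23865752823, nat_lit 21041205306, nat_lit 21916423601, nat_lit 17714376216, nat_lit 16621549356, nat_lit 19041137030, nat_lit 17049584871], nat_lit 1271250, nat_lit 1271250, nat_lit 279600, nat_lit 490000,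 nat_lit 0, nat_lit 1100001, [nat_lit 1100000, nat_lit 1442500, nat_lit 1271250], [nat_lit 11, nat_lit 40, nat_lit 40, nat_lit 80, nat_lit 1, nat_lit 373, nat_lit 150, nat_lit 11]⟩,
 ⟨nat_lit 4472, nat_lit 5478, ⟨.ofNat (nat_lit 279289), .ofNat (nat_lit 339222), .ofNat (nat_lit 289951), .ofNat (nat_lit 349884), .ofNat (nat_lit 306346), .ofNat (nat_lit 360715), .ofNat (nat_lit 317112), .ofNat (nat_lit 371481)⟩, ⟨.ofNat (nat_lit 404075), .ofNat (nat_lit 516475), .ofNat (nat_lit 446789), .ofNat (nat_lit 559189), .ofNat (nat_lit 395445), .ofNat (nat_lit 497412), .ofNat (nat_lit 438578), .ofNat (nat_lit 540545)⟩⟩, [⟨nat_lit 0, nat_lit 100, nat_lit 96, nat_lit 69, nat_lit 827943416⟩, ⟨nat_lit 4, nat_lit 100, nat_lit 90, nat_lit 74, nat_lit 700380463⟩]⟩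
noncomputable def p058_l33 : Lf2 := ⟨nat_lit 0, nat_lit 10, [nat_lit 0, nat_lit 5, nat_lit 5, nat_lit 20], false, nat_lit 240, nat_lit 300, nat_lit 0, nat_lit 160, ⟨nat_lit 549, nat_lit 0, nat_lit 451, nat_lit 6, nat_lit 156, nat_lit 451, nat_lit 190, nat_lit 451, nat_lit 3701, nat_lit 228, nat_lit 228150, nat_lit 332, nat_lit 46384209, nat_lit 0, nat_lit 0, nat_lit 4438720, false, false⟩,
 nat_lit 12898, nat_lit 0, nat_lit 0, nat_lit 0, nat_lit 6069, nat_lit 7507, nat_lit 904, nat_lit 0, nat_lit 0, nat_lit 1257, nat_lit 0, nat_lit 0, nat_lit 0, nat_lit 0, nat_lit 0, nat_lit 451000, nat_lit 0, nat_lit 0, [(nat_lit 12, [(nat_lit 6, nat_lit 451)]), (nat_lit 15, [(nat_lit 6, nat_lit 451)])],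
 ⟨p058_k32, nat_lit 0, nat_lit 0, nat_lit 357, nat_lit 0, nat_lit 604936, [nat_lit 2243798000, nat_lit 2725248000, nat_lit 3033343200], [], [nat_lit 16481836892, nat_lit 19667335956, nat_lit 16418637740, nat_lit 19276146520, nat_lit 20706722318, nat_lit 24091130478, nat_lit 20272527368, nat_lit 23495061061], nat_lit 1271250, nat_lit 1271250, nat_lit 490000, nat_lit 780000, nat_lit 1271250, nat_lit 1271250, [nat_lit 780000, nat_lit 1100000, nat_lit 2127500], [nat_lit 42, nat_lit 40, nat_lit 40, nat_lit 80, nat_lit 13, nat_lit 345, nat_lit 125, nat_lit 9]⟩, ⟨p058_k33, nat_lit 0, nat_lit 0, nat_lit 562, nat_lit 0, nat_lit 675099, [nat_lit 2573712000, nat_lit 3431250000, nat_lit 5403258000], [], [nat_lit 10726580799, nat_lit 11463539891, nat_lit 9775911687, nat_lit 10472277783, nat_lit 9910852312, nat_lit 8142180591, nat_lit 12228449556, nat_lit 10483439899], nat_lit 1271250, nat_lit 1271250, nat_lit 490000, nat_lit 780000,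 nat_lit 0, nat_lit 1100001, [nat_lit 1100000, nat_lit 1442500, nat_lit 1271250], [nat_lit 11, nat_lit 40, nat_lit 40, nat_lit 80, nat_lit 1, nat_lit 373, nat_lit 150, nat_lit 11]⟩,
 ⟨nat_lit 4472, nat_lit 5478, ⟨.ofNat (nat_lit 339222), .ofNat (nat_lit 414138), .ofNat (nat_lit 349884), .ofNat (nat_lit 424798), .ofNat (nat_lit 360715), .ofNat (nat_lit 428676), .ofNat (nat_lit 371481), .ofNat (nat_lit 439441)⟩, ⟨.ofNat (nat_lit 404075), .ofNat (nat_lit 516475), .ofNat (nat_lit 446789), .ofNat (nat_lit 559189), .ofNat (nat_lit 395445), .ofNat (nat_lit 497412), .ofNat (nat_lit 438578), .ofNat (nat_lit 540545)⟩⟩, [⟨nat_lit 4, nat_lit 100, nat_lit 90, nat_lit 74, nat_lit 767867454⟩]⟩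
noncomputable def p058_l34 : Lf2 := ⟨nat_lit 0, nat_lit 10, [nat_lit 0, nat_lit 5, nat_lit 5, nat_lit 20], false, nat_lit 240, nat_lit 300, nat_lit 0, nat_lit 160, ⟨nat_lit 1000, nat_lit 0, nat_lit 0, nat_lit 0, nat_lit 0, nat_lit 0, nat_lit 0, nat_lit 0, nat_lit 0, nat_lit 0, nat_lit 0, nat_lit 0, nat_lit 0, nat_lit 0, nat_lit 0, nat_lit 0, false, false⟩,
 nat_lit 15497, nat_lit 0, nat_lit 0, nat_lit 0, nat_lit 7922, nat_lit 9438, nat_lit 1783, nat_lit 0, nat_lit 0, nat_lit 899, nat_lit 0, nat_lit 0, nat_lit 0, nat_lit 0, nat_lit 0, nat_lit 0, nat_lit 0, nat_lit 0, [],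
 ⟨p058_k32, nat_lit 0, nat_lit 0, nat_lit 428, nat_lit 0, nat_lit 644983, [nat_lit 3282000000, nat_lit 4688000000, nat_lit 9842000000], [], [nat_lit 18702866598, nat_lit 21836056967, nat_lit 17006799008, nat_lit 19838241903, nat_lit 23021405309, nat_lit 27093721741, nat_lit 20885262584, nat_lit 24673141018], nat_lit 1271250, nat_lit 1271250, nat_lit 330400, nat_lit 780000, nat_lit 1271250, nat_lit 1271250, [nat_lit 780000, nat_lit 1100000, nat_lit 2127500], [nat_lit 42, nat_lit 40, nat_lit 40, nat_lit 80, nat_lit 13, nat_lit 345, nat_lit 125, nat_lit 9]⟩, ⟨p058_k34, nat_lit 0, nat_lit 0, nat_lit 579, nat_lit 0, nat_lit 680676, [nat_lit 4688000000, nat_lit 6250000000, nat_lit 9842000000], [], [nat_lit 27204535891, nat_lit 27475822149, nat_lit 23894273509, nat_lit 24875260875, nat_lit 22516699497, nat_lit 20274725248, nat_lit 27128116160, nat_lit 24934243622], nat_lit 1271250, nat_lit 1271250, nat_lit 330400, nat_lit 780000,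 nat_lit 0, nat_lit 1100001, [nat_lit 1100000, nat_lit 1442500, nat_lit 1271250], [nat_lit 11, nat_lit 40, nat_lit 40, nat_lit 80, nat_lit 1, nat_lit 373, nat_lit 150, nat_lit 11]⟩,
 zbF0, [⟨nat_lit 0, nat_lit 100, nat_lit 93, nat_lit 85, nat_lit 430019051⟩, ⟨nat_lit 4, nat_lit 100, nat_lit 90, nat_lit 74, nat_lit 899297760⟩]⟩
noncomputable def b_V_700_600_10_24 : St := ⟨true, nat_lit 1, nat_lit 1, nat_lit 1, nat_lit 80, nat_lit 280, nat_lit 320, nat_lit 260, nat_lit 280, nat_lit 48, nat_lit 120, nat_lit 40, nat_lit 80, nat_lit 240, nat_lit 300, nat_lit 0, nat_lit 160, nat_lit 0, nat_lit 40, nat_lit 0, nat_lit 0, nat_lit 0, nat_lit 0⟩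
theorem d_V_700_600_10_24 (h : EB TB.env) : Dead b_V_700_600_10_24 := chkB_sound0 h (T :=
(.spl (nat_lit 1) (nat_lit 270)
(.spl (nat_lit 2) (nat_lit 80)
(.spl (nat_lit 6) (nat_lit 20)
(.spl (nat_lit 6) (nat_lit 8)
(.spl (nat_lit 0) (nat_lit 300)
(.spl (nat_lit 6) (nat_lit 4)
(.leaf p058_l28)
(.leaf p058_l29))
(.trZ (nat_lit 0) (nat_lit 100) (nat_lit 91) (nat_lit 77) (nat_lit 64) (.trX (nat_lit 16) (nat_lit 94) (nat_lit 100) (nat_lit 87) (nat_lit 280) (.leaf p058_l30))))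
(.leaf p058_l31))
(.leaf p058_l32))
(.leaf p058_l33))
(.trZ (nat_lit 0) (nat_lit 100) (nat_lit 98) (nat_lit 74) (nat_lit 56) (.leaf p058_l34)))) (by decide +kernel)
noncomputable def p058_l35 : Lf2 := ⟨nat_lit 0, nat_lit 5, [nat_lit 4, nat_lit 5, nat_lit 5, nat_lit 20], false, nat_lit 240, nat_lit 276, nat_lit 160, nat_lit 240, ⟨nat_lit 217, nat_lit 0, nat_lit 783, nat_lit 6, nat_lit 145, nat_lit 783, nat_lit 177, nat_lit 783, nat_lit 45067, nat_lit 267, nat_lit 198017, nat_lit 324, nat_lit 48292161, nat_lit 0, nat_lit 0, nat_lit 4191916, false, false⟩,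
 nat_lit 7033, nat_lit 0, nat_lit 0, nat_lit 0, nat_lit 4475, nat_lit 4093, nat_lit 0, nat_lit 0, nat_lit 0, nat_lit 602, nat_lit 0, nat_lit 0, nat_lit 0, nat_lit 0, nat_lit 55, nat_lit 783000, nat_lit 0, nat_lit 0, [(nat_lit 12, [(nat_lit 6, nat_lit 783)]), (nat_lit 15, [(nat_lit 6, nat_lit 783)])],
 ⟨p058_k20, nat_lit 0, nat_lit 0, nat_lit 319, nat_lit 0, nat_lit 535998, [nat_lit 2265753601, nat_lit 1573339201, nat_lit 5065200], [], [nat_lit 17056685444, nat_lit 19622812061, nat_lit 16910579704, nat_lit 18853609000, nat_lit 18799568815, nat_lit 21952004446, nat_lit 18186239405, nat_lit 21030430765], nat_lit 1271250, nat_lit 1271250, nat_lit 279600, nat_lit 780000, nat_lit 1271250, nat_lit 1271250, [nat_lit 780000, nat_lit 1435000, nat_lit 1271250], [nat_lit 18, nat_lit 40, nat_lit 40, nat_lit 80, nat_lit 2, nat_lit 238, nat_lit 30, nat_lit 7]⟩, ⟨p058_k35, nat_lit 0, nat_lit 0, nat_lit 310, nat_lit 0, nat_lit 595146,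 [nat_lit 1017296000, nat_lit 1729056000], [], [nat_lit 5305579953, nat_lit 4242967572, nat_lit 240250824, nat_lit 752730482, nat_lit 3663461130, nat_lit 4111326338, nat_lit 2779259996, nat_lit 2600267990], nat_lit 1271250, nat_lit 1271250, nat_lit 279600, nat_lit 780000, nat_lit 1100001, nat_lit 1785000, [nat_lit 1100000, nat_lit 1785000], [nat_lit 39, nat_lit 40, nat_lit 40, nat_lit 80, nat_lit 7, nat_lit 317, nat_lit 100, nat_lit 10]⟩,
 ⟨nat_lit 4472, nat_lit 5478, ⟨.ofNat (nat_lit 279289), .ofNat (nat_lit 414138), .ofNat (nat_lit 289951), .ofNat (nat_lit 424798), .ofNat (nat_lit 306346), .ofNat (nat_lit 428676), .ofNat (nat_lit 317112), .ofNat (nat_lit 439441)⟩, ⟨.ofNat (nat_lit 404075), .ofNat (nat_lit 471515), .ofNat (nat_lit 425432), .ofNat (nat_lit 492872), .ofNat (nat_lit 395445), .ofNat (nat_lit 456625), .ofNat (nat_lit 417011), .ofNat (nat_lit 478192)⟩⟩, [⟨nat_lit 0, nat_lit 100, nat_lit 96, nat_lit 69, nat_lit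 357347955⟩, ⟨nat_lit 16, nat_lit 99, nat_lit 100, nat_lit 77, nat_lit 370820810⟩]⟩
noncomputable def p058_l36 : Lf2 := ⟨nat_lit 0, nat_lit 1, [nat_lit 19, nat_lit 5, nat_lit 5, nat_lit 20], false, nat_lit 240, nat_lit 300, nat_lit 160, nat_lit 240, ⟨nat_lit 335, nat_lit 0, nat_lit 665, nat_lit 6, nat_lit 131, nat_lit 665, nat_lit 194, nat_lit 665, nat_lit 3701, nat_lit 228, nat_lit 160067, nat_lit 313, nat_lit 47831369, nat_lit 0, nat_lit 0, nat_lit 4191559, false, false⟩,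
 nat_lit 6740, nat_lit 0, nat_lit 0, nat_lit 0, nat_lit 4289, nat_lit 3923, nat_lit 0, nat_lit 0, nat_lit 0, nat_lit 208, nat_lit 0, nat_lit 0, nat_lit 0, nat_lit 0, nat_lit 0, nat_lit 665000, nat_lit 0, nat_lit 0, [(nat_lit 12, [(nat_lit 6, nat_lit 665)]), (nat_lit 15, [(nat_lit 6, nat_lit 665)])],
 ⟨p058_k4, nat_lit 0, nat_lit 0, nat_lit 200, nat_lit 0, nat_lit 431524, [nat_lit 1751170001, nat_lit 1575002000], [], [nat_lit 17589445441, nat_lit 19762489797, nat_lit 17397918161, nat_lit 19503063921, nat_lit 20412986564, nat_lit 23286159867, nat_lit 20135717378, nat_lit 22540996118], nat_lit 1271250, nat_lit 1271250, nat_lit 279600, nat_lit 490000, nat_lit 1271250, nat_lit 1271250, [nat_lit 780000, nat_lit 1100000], [nat_lit 40, nat_lit 40, nat_lit 40, nat_lit 80, nat_lit 22, nat_lit 226, nat_lit 20, nat_lit 9]⟩, ⟨p058_k26, nat_lit 0, nat_lit 0, nat_lit 220, nat_lit 0, nat_lit 479414, [nat_lit 1570480000, nat_lit 2093750000],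 [], [nat_lit 8816350173, nat_lit 7797872682, nat_lit 5571759270, nat_lit 4565396003, nat_lit 5275576528, nat_lit 5752443292, nat_lit 4475011730, nat_lit 4887473711], nat_lit 1271250, nat_lit 1271250, nat_lit 279600, nat_lit 490000, nat_lit 1100001, nat_lit 1785000, [nat_lit 1100000, nat_lit 1442500], [nat_lit 31, nat_lit 40, nat_lit 40, nat_lit 80, nat_lit 3, nat_lit 317, nat_lit 100, nat_lit 12]⟩,
 ⟨nat_lit 4472, nat_lit 5478, ⟨.ofNat (nat_lit 279289), .ofNat (nat_lit 339222), .ofNat (nat_lit 289951), .ofNat (nat_lit 349884), .ofNat (nat_lit 306346), .ofNat (nat_lit 360715), .ofNat (nat_lit 317112), .ofNat (nat_lit 371481)⟩, ⟨.ofNat (nat_lit 425432), .ofNat (nat_lit 537832), .ofNat (nat_lit 446789), .ofNat (nat_lit 559189), .ofNat (nat_lit 417011), .ofNat (nat_lit 518979), .ofNat (nat_lit 438578), .ofNat (nat_lit 540545)⟩⟩, [⟨nat_lit 0, nat_lit 100, nat_lit 96, nat_lit 69, nat_lit 883375671⟩, ⟨nat_lit 16, nat_lit 100,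 nat_lit 95, nat_lit 87, nat_lit 356004761⟩]⟩
noncomputable def p058_l37 : Lf2 := ⟨nat_lit 0, nat_lit 2, [nat_lit 10, nat_lit 5, nat_lit 5, nat_lit 20], false, nat_lit 240, nat_lit 300, nat_lit 160, nat_lit 240, ⟨nat_lit 522, nat_lit 0, nat_lit 478, nat_lit 6, nat_lit 131, nat_lit 478, nat_lit 194, nat_lit 478, nat_lit 3701, nat_lit 228, nat_lit 160067, nat_lit 313, nat_lit 47831369, nat_lit 0, nat_lit 0, nat_lit 4191559, false, false⟩,
 nat_lit 10877, nat_lit 0, nat_lit 0, nat_lit 0, nat_lit 5075, nat_lit 6331, nat_lit 503, nat_lit 0, nat_lit 0, nat_lit 0, nat_lit 0, nat_lit 0, nat_lit 0, nat_lit 0, nat_lit 0, nat_lit 478000, nat_lit 0, nat_lit 0, [(nat_lit 12, [(nat_lit 6, nat_lit 478)]), (nat_lit 15, [(nat_lit 6, nat_lit 478)])],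
 ⟨p058_k27, nat_lit 0, nat_lit 0, nat_lit 227, nat_lit 0, nat_lit 393324, [nat_lit 2181644000, nat_lit 2556693600, nat_lit 2532307200], [], [nat_lit 18201970230, nat_lit 20396396160, nat_lit 17837866550, nat_lit 19986375200, nat_lit 21074528131, nat_lit 24210088091, nat_lit 20644426675, nat_lit 23225493650], nat_lit 1271250, nat_lit 1271250, nat_lit 279600, nat_lit 490000, nat_lit 1271250, nat_lit 1271250, [nat_lit 780000, nat_lit 1100000, nat_lit 1442500], [nat_lit 59, nat_lit 40, nat_lit 40, nat_lit 80, nat_lit 3, nat_lit 226, nat_lit 20, nat_lit 8]⟩, ⟨p058_k28, nat_lit 0, nat_lit 0, nat_lit 205, nat_lit 0, nat_lit 437216, [nat_lit 2447136000, nat_lit 3262500000], [], [nat_lit 13680740087, nat_lit 12037104860, nat_lit 8444567514, nat_lit 6820482415, nat_lit 8255052340, nat_lit 9017645792, nat_lit 6878141134, nat_lit 7610002307], nat_lit 1271250, nat_lit 1271250, nat_lit 279600, nat_lit 490000, nat_lit 1100001, nat_lit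 1785000, [nat_lit 1100000, nat_lit 1442500], [nat_lit 31, nat_lit 40, nat_lit 40, nat_lit 80, nat_lit 3, nat_lit 317, nat_lit 100, nat_lit 12]⟩,
 ⟨nat_lit 4472, nat_lit 5478, ⟨.ofNat (nat_lit 279289), .ofNat (nat_lit 339222), .ofNat (nat_lit 289951), .ofNat (nat_lit 349884), .ofNat (nat_lit 306346), .ofNat (nat_lit 360715), .ofNat (nat_lit 317112), .ofNat (nat_lit 371481)⟩, ⟨.ofNat (nat_lit 425432), .ofNat (nat_lit 537832), .ofNat (nat_lit 446789), .ofNat (nat_lit 559189), .ofNat (nat_lit 417011), .ofNat (nat_lit 518979), .ofNat (nat_lit 438578), .ofNat (nat_lit 540545)⟩⟩, [⟨nat_lit 0, nat_lit 100, nat_lit 96, nat_lit 69, nat_lit 1305122493⟩, ⟨nat_lit 16, nat_lit 100, nat_lit 95, nat_lit 87, nat_lit 419876667⟩]⟩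
noncomputable def p058_l38 : Lf2 := ⟨nat_lit 0, nat_lit 5, [nat_lit 4, nat_lit 5, nat_lit 5, nat_lit 20], false, nat_lit 240, nat_lit 300, nat_lit 160, nat_lit 240, ⟨nat_lit 292, nat_lit 0, nat_lit 708, nat_lit 6, nat_lit 131, nat_lit 708, nat_lit 194, nat_lit 708, nat_lit 3701, nat_lit 228, nat_lit 160067, nat_lit 313, nat_lit 47831369, nat_lit 0, nat_lit 0, nat_lit 4191559, false, false⟩,
 nat_lit 8417, nat_lit 0, nat_lit 0, nat_lit 0, nat_lit 4535, nat_lit 4899, nat_lit 0, nat_lit 0, nat_lit 0, nat_lit 0, nat_lit 0, nat_lit 0, nat_lit 0, nat_lit 0, nat_lit 5, nat_lit 623400, nat_lit 0, nat_lit 0, [(nat_lit 12, [(nat_lit 5, nat_lit 141), (nat_lit 6, nat_lit 567)]), (nat_lit 15, [(nat_lit 5, nat_lit 141), (nat_lit 6, nat_lit 567)])],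
 ⟨p058_k20, nat_lit 0, nat_lit 0, nat_lit 262, nat_lit 0, nat_lit 371358, [nat_lit 1850847601, nat_lit 1209567200, nat_lit 487200], [], [nat_lit 18037328150, nat_lit 19983322608, nat_lit 17746276901, nat_lit 19629191321, nat_lit 20615343762, nat_lit 23575328243, nat_lit 20181663896, nat_lit 22755228170], nat_lit 1271250, nat_lit 1271250, nat_lit 279600, nat_lit 490000, nat_lit 1271250, nat_lit 1271250, [nat_lit 780000, nat_lit 1435000, nat_lit 1271250], [nat_lit 18, nat_lit 40, nat_lit 40, nat_lit 80, nat_lit 2, nat_lit 226, nat_lit 20, nat_lit 7]⟩, ⟨p058_k35, nat_lit 0, nat_lit 0, nat_lit 247, nat_lit 0, nat_lit 413447, [nat_lit 1368896000, nat_lit 2326656000], [], [nat_lit 7298268806, nat_lit 6026405123, nat_lit 3246458754, nat_lit 2545190003, nat_lit 4833094934, nat_lit 5381248232, nat_lit 4420917314, nat_lit 4221446483], nat_lit 1271250, nat_lit 1271250, nat_lit 279600, nat_lit 490000, nat_lit 1100001, nat_lit 1785000,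 [nat_lit 1100000, nat_lit 1785000], [nat_lit 39, nat_lit 40, nat_lit 40, nat_lit 80, nat_lit 7, nat_lit 317, nat_lit 100, nat_lit 10]⟩,
 ⟨nat_lit 4472, nat_lit 5478, ⟨.ofNat (nat_lit 279289), .ofNat (nat_lit 339222), .ofNat (nat_lit 289951), .ofNat (nat_lit 349884), .ofNat (nat_lit 306346), .ofNat (nat_lit 360715), .ofNat (nat_lit 317112), .ofNat (nat_lit 371481)⟩, ⟨.ofNat (nat_lit 425432), .ofNat (nat_lit 537832), .ofNat (nat_lit 446789), .ofNat (nat_lit 559189), .ofNat (nat_lit 417011), .ofNat (nat_lit 518979), .ofNat (nat_lit 438578), .ofNat (nat_lit 540545)⟩⟩, [⟨nat_lit 0, nat_lit 100, nat_lit 96, nat_lit 69, nat_lit 644961959⟩, ⟨nat_lit 16, nat_lit 100, nat_lit 95, nat_lit 87, nat_lit 328477069⟩]⟩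
noncomputable def p058_l39 : Lf2 := ⟨nat_lit 0, nat_lit 5, [nat_lit 4, nat_lit 5, nat_lit 5, nat_lit 20], false, nat_lit 240, nat_lit 300, nat_lit 160, nat_lit 240, ⟨nat_lit 807, nat_lit 0, nat_lit 193, nat_lit 6, nat_lit 156, nat_lit 193, nat_lit 194, nat_lit 193, nat_lit 3701, nat_lit 228, nat_lit 228150, nat_lit 332, nat_lit 46030728, nat_lit 0, nat_lit 0, nat_lit 4476478, false, false⟩,
 nat_lit 16829, nat_lit 0, nat_lit 0, nat_lit 0, nat_lit 8310, nat_lit 9795, nat_lit 616, nat_lit 0, nat_lit 0, nat_lit 2851, nat_lit 0, nat_lit 0, nat_lit 0, nat_lit 0, nat_lit 0, nat_lit 193000, nat_lit 0, nat_lit 0, [(nat_lit 12, [(nat_lit 6, nat_lit 193)]), (nat_lit 15, [(nat_lit 6, nat_lit 193)])],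
 ⟨p058_k20, nat_lit 0, nat_lit 0, nat_lit 272, nat_lit 0, nat_lit 453442, [nat_lit 2868825600, nat_lit 4826123200, nat_lit 5679869200], [], [nat_lit 17998903080, nat_lit 20738078720, nat_lit 17385502360, nat_lit 20062896840, nat_lit 21928564820, nat_lit 26042732220, nat_lit 21013563320, nat_lit 24919819390], nat_lit 1271250, nat_lit 1271250, nat_lit 490000, nat_lit 780000, nat_lit 1271250, nat_lit 1271250, [nat_lit 780000, nat_lit 1435000, nat_lit 1271250], [nat_lit 18, nat_lit 40, nat_lit 40, nat_lit 80, nat_lit 2, nat_lit 238, nat_lit 30, nat_lit 7]⟩, ⟨p058_k35, nat_lit 0, nat_lit 0, nat_lit 261, nat_lit 0, nat_lit 504834, [nat_lit 3783216000, nat_lit 6430176000], [], [nat_lit 13047032934, nat_lit 10534331379, nat_lit 5076991242, nat_lit 5619447630, nat_lit 12272302734, nat_lit 11764694655, nat_lit 15147382164, nat_lit 12807905184], nat_lit 1271250, nat_lit 1271250, nat_lit 490000, nat_lit 780000, nat_lit 1100001, nat_lit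 1785000, [nat_lit 1100000, nat_lit 1785000], [nat_lit 39, nat_lit 40, nat_lit 40, nat_lit 80, nat_lit 7, nat_lit 317, nat_lit 100, nat_lit 10]⟩,
 ⟨nat_lit 4472, nat_lit 5478, ⟨.ofNat (nat_lit 339222), .ofNat (nat_lit 414138), .ofNat (nat_lit 349884), .ofNat (nat_lit 424798), .ofNat (nat_lit 360715), .ofNat (nat_lit 428676), .ofNat (nat_lit 371481), .ofNat (nat_lit 439441)⟩, ⟨.ofNat (nat_lit 425432), .ofNat (nat_lit 537832), .ofNat (nat_lit 446789), .ofNat (nat_lit 559189), .ofNat (nat_lit 417011), .ofNat (nat_lit 518979), .ofNat (nat_lit 438578), .ofNat (nat_lit 540545)⟩⟩, [⟨nat_lit 0, nat_lit 100, nat_lit 85, nat_lit 90, nat_lit 252027454⟩, ⟨nat_lit 4, nat_lit 100, nat_lit 92, nat_lit 81, nat_lit 859079752⟩]⟩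
noncomputable def p058_l40 : Lf2 := ⟨nat_lit 0, nat_lit 10, [nat_lit 0, nat_lit 5, nat_lit 5, nat_lit 20], false, nat_lit 240, nat_lit 300, nat_lit 160, nat_lit 240, ⟨nat_lit 256, nat_lit 0, nat_lit 744, nat_lit 6, nat_lit 145, nat_lit 744, nat_lit 190, nat_lit 744, nat_lit 3701, nat_lit 228, nat_lit 198017, nat_lit 324, nat_lit 47205088, nat_lit 0, nat_lit 0, nat_lit 4315900, false, false⟩,
 nat_lit 9350, nat_lit 0, nat_lit 0, nat_lit 0, nat_lit 4857, nat_lit 5442, nat_lit 369, nat_lit 0, nat_lit 0, nat_lit 83, nat_lit 0, nat_lit 0, nat_lit 0, nat_lit 0, nat_lit 0, nat_lit 297600, nat_lit 0, nat_lit 0, [(nat_lit 12, [(nat_lit 5, nat_lit 744)]), (nat_lit 15, [(nat_lit 5, nat_lit 744)])],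
 ⟨p058_k16, nat_lit 0, nat_lit 0, nat_lit 318, nat_lit 0, nat_lit 404241, [nat_lit 1818700800, nat_lit 1198537600, nat_lit 857753600], [], [nat_lit 17860648073, nat_lit 20234229970, nat_lit 17143807765, nat_lit 19341602693, nat_lit 20885422293, nat_lit 23953833189, nat_lit 19944822853, nat_lit 22724509033], nat_lit 1271250, nat_lit 1271250, nat_lit 279600, nat_lit 780000, nat_lit 1271250, nat_lit 1271250, [nat_lit 780000, nat_lit 1435000, nat_lit 1271250], [nat_lit 8, nat_lit 40, nat_lit 40, nat_lit 80, nat_lit 1, nat_lit 345, nat_lit 125, nat_lit 9]⟩, ⟨p058_k36, nat_lit 0, nat_lit 0, nat_lit 333, nat_lit 0, nat_lit 451127, [nat_lit 1200128000, nat_lit 2039808000, nat_lit 2519552000], [], [nat_lit 6098910982, nat_lit 4686075268, nat_lit 1617731704, nat_lit 1988616498, nat_lit 4672482718, nat_lit 5002453113, nat_lit 3655546720, nat_lit 3036962312], nat_lit 1271250, nat_lit 1271250, nat_lit 279600, nat_lit 780000, nat_lit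 1100001, nat_lit 1785000, [nat_lit 1100000, nat_lit 1785000, nat_lit 1271250], [nat_lit 29, nat_lit 40, nat_lit 40, nat_lit 80, nat_lit 17, nat_lit 401, nat_lit 175, nat_lit 11]⟩,
 ⟨nat_lit 4472, nat_lit 5478, ⟨.ofNat (nat_lit 279289), .ofNat (nat_lit 414138), .ofNat (nat_lit 289951), .ofNat (nat_lit 424798), .ofNat (nat_lit 306346), .ofNat (nat_lit 428676), .ofNat (nat_lit 317112), .ofNat (nat_lit 439441)⟩, ⟨.ofNat (nat_lit 404075), .ofNat (nat_lit 516475), .ofNat (nat_lit 446789), .ofNat (nat_lit 559189), .ofNat (nat_lit 395445), .ofNat (nat_lit 497412), .ofNat (nat_lit 438578), .ofNat (nat_lit 540545)⟩⟩, [⟨nat_lit 0, nat_lit 100, nat_lit 92, nat_lit 80, nat_lit 56380731⟩, ⟨nat_lit 0, nat_lit 100, nat_lit 96, nat_lit 69, nat_lit 374685541⟩, ⟨nat_lit 16, nat_lit 90, nat_lit 100, nat_lit 74, nat_lit 473968330⟩]⟩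
noncomputable def p058_l41 : Lf2 := ⟨nat_lit 0, nat_lit 10, [nat_lit 0, nat_lit 5, nat_lit 5, nat_lit 20], false, nat_lit 240, nat_lit 300, nat_lit 160, nat_lit 240, ⟨nat_lit 916, nat_lit 0, nat_lit 84, nat_lit 6, nat_lit 152, nat_lit 84, nat_lit 190, nat_lit 84, nat_lit 3701, nat_lit 228, nat_lit 216600, nat_lit 329, nat_lit 46693735, nat_lit 0, nat_lit 0, nat_lit 4393586, false, false⟩,
 nat_lit 16165, nat_lit 0, nat_lit 0, nat_lit 0, nat_lit 9772, nat_lit 9844, nat_lit 1022, nat_lit 0, nat_lit 0, nat_lit 1301, nat_lit 0, nat_lit 0, nat_lit 0, nat_lit 0, nat_lit 0, nat_lit 33600, nat_lit 0, nat_lit 0, [(nat_lit 12, [(nat_lit 5, nat_lit 84)]), (nat_lit 15, [(nat_lit 5, nat_lit 84)])],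
 ⟨p058_k16, nat_lit 0, nat_lit 0, nat_lit 429, nat_lit 0, nat_lit 644983, [nat_lit 3116788800, nat_lit 5679673600, nat_lit 8827649600], [], [nat_lit 19155192093, nat_lit 23119459687, nat_lit 16776966000, nat_lit 20257737760, nat_lit 24437340549, nat_lit 29127475581, nat_lit 21497005784, nat_lit 25849313668], nat_lit 1271250, nat_lit 1271250, nat_lit 330400, nat_lit 780000, nat_lit 1271250, nat_lit 1271250, [nat_lit 780000, nat_lit 1435000, nat_lit 1271250], [nat_lit 8, nat_lit 40, nat_lit 40, nat_lit 80, nat_lit 1, nat_lit 345, nat_lit 125, nat_lit 9]⟩, ⟨p058_k37, nat_lit 0, nat_lit 0, nat_lit 457, nat_lit 0, nat_lit 680676, [nat_lit 4294208000, nat_lit 7298688000, nat_lit 9015272000], [], [nat_lit 19753872763, nat_lit 17205802583, nat_lit 10802972712, nat_lit 11504983135, nat_lit 15999695811, nat_lit 16715471987, nat_lit 18312234692, nat_lit 15961054356], nat_lit 1271250, nat_lit 1271250, nat_lit 330400, nat_lit 780000,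 nat_lit 1100001, nat_lit 1785000, [nat_lit 1100000, nat_lit 1785000, nat_lit 1271250], [nat_lit 29, nat_lit 40, nat_lit 40, nat_lit 80, nat_lit 17, nat_lit 401, nat_lit 175, nat_lit 11]⟩,
 ⟨nat_lit 4472, nat_lit 5478, ⟨.ofNat (nat_lit 304934), .ofNat (nat_lit 424798), .ofNat (nat_lit 315596), .ofNat (nat_lit 435455), .ofNat (nat_lit 330704), .ofNat (nat_lit 439441), .ofNat (nat_lit 341471), .ofNat (nat_lit 450202)⟩, ⟨.ofNat (nat_lit 404075), .ofNat (nat_lit 516475), .ofNat (nat_lit 446789), .ofNat (nat_lit 559189), .ofNat (nat_lit 395445), .ofNat (nat_lit 497412), .ofNat (nat_lit 438578), .ofNat (nat_lit 540545)⟩⟩, [⟨nat_lit 0, nat_lit 100, nat_lit 93, nat_lit 85, nat_lit 697855450⟩, ⟨nat_lit 4, nat_lit 100, nat_lit 90, nat_lit 74, nat_lit 990670575⟩]⟩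
noncomputable def b_V_700_600_10_25 : St := ⟨true, nat_lit 1, nat_lit 1, nat_lit 1, nat_lit 80, nat_lit 280, nat_lit 320, nat_lit 260, nat_lit 280, nat_lit 48, nat_lit 120, nat_lit 40, nat_lit 80, nat_lit 240, nat_lit 300, nat_lit 160, nat_lit 240, nat_lit 0, nat_lit 40, nat_lit 0, nat_lit 0, nat_lit 0, nat_lit 0⟩
theorem d_V_700_600_10_25 (h : EB TB.env) : Dead b_V_700_600_10_25 := chkB_sound0 h (T :=
(.spl (nat_lit 1) (nat_lit 270)
(.spl (nat_lit 6) (nat_lit 20)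
(.spl (nat_lit 3) (nat_lit 60)
(.trX (nat_lit 16) (nat_lit 99) (nat_lit 100) (nat_lit 77) (nat_lit 276) (.leaf p058_l35))
(.spl (nat_lit 2) (nat_lit 80)
(.spl (nat_lit 6) (nat_lit 8)
(.spl (nat_lit 6) (nat_lit 4)
(.leaf p058_l36)
(.leaf p058_l37))
(.leaf p058_l38))
(.leaf p058_l39)))
(.leaf p058_l40))
(.trZ (nat_lit 0) (nat_lit 100) (nat_lit 98) (nat_lit 74) (nat_lit 56) (.leaf p058_l41)))) (by decide +kernel)
noncomputable def p058_l42 : Lf2 := ⟨nat_lit 0, nat_lit 5, [nat_lit 4, nat_lit 5, nat_lit 5, nat_lit 20], false, nat_lit 240, nat_lit 276, nat_lit 240, nat_lit 296, ⟨nat_lit 565, nat_lit 0, nat_lit 435, nat_lit 6, nat_lit 130, nat_lit 435, nat_lit 178, nat_lit 435, nat_lit 45067, nat_lit 267, nat_lit 160067, nat_lit 313, nat_lit 49250203, nat_lit 0, nat_lit 0, nat_lit 4032152, false, false⟩,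
 nat_lit 9018, nat_lit 0, nat_lit 0, nat_lit 0, nat_lit 5738, nat_lit 5249, nat_lit 946, nat_lit 0, nat_lit 0, nat_lit 670, nat_lit 0, nat_lit 0, nat_lit 0, nat_lit 0, nat_lit 0, nat_lit 160200, nat_lit 0, nat_lit 0, [(nat_lit 12, [(nat_lit 4, nat_lit 92), (nat_lit 5, nat_lit 343)])],
 ⟨p058_k30, nat_lit 0, nat_lit 0, nat_lit 282, nat_lit 0, nat_lit 469301, [nat_lit 2501828400, nat_lit 2921322001, nat_lit 3805718800], [], [nat_lit 17698716656, nat_lit 18900286366, nat_lit 17079981969, nat_lit 18241887617, nat_lit 19605792538, nat_lit 21417965226, nat_lit 18862456471, nat_lit 20323002103], nat_lit 1271250, nat_lit 1271250, nat_lit 279600, nat_lit 490000, nat_lit 1271250, nat_lit 1271250, [nat_lit 780000, nat_lit 1100000, nat_lit 1785000], [nat_lit 36, nat_lit 40, nat_lit 40, nat_lit 80, nat_lit 7, nat_lit 226, nat_lit 20, nat_lit 7]⟩, ⟨p058_k31, nat_lit 0, nat_lit 0, nat_lit 307, nat_lit 0, nat_lit 521089, [nat_lit 2648720000,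 nat_lit 3531250000, nat_lit 4501920000], [], [nat_lit 10458229602, nat_lit 11159317285, nat_lit 9699157866, nat_lit 10371461782, nat_lit 12882005673, nat_lit 13648727566, nat_lit 11925855546, nat_lit 12668908616], nat_lit 1271250, nat_lit 1271250, nat_lit 279600, nat_lit 490000, nat_lit 1271250, nat_lit 1271250, [nat_lit 1100000, nat_lit 1442500, nat_lit 1271250], [nat_lit 9, nat_lit 40, nat_lit 40, nat_lit 80, nat_lit 2, nat_lit 226, nat_lit 20, nat_lit 7]⟩,
 ⟨nat_lit 5000, nat_lit 5478, ⟨.ofNat (nat_lit 279324), .ofNat (nat_lit 339271), .ofNat (nat_lit 300681), .ofNat (nat_lit 360625), .ofNat (nat_lit 292856), .ofNat (nat_lit 349999), .ofNat (nat_lit 314284), .ofNat (nat_lit 371424)⟩, ⟨.ofNat (nat_lit 404075), .ofNat (nat_lit 471515), .ofNat (nat_lit 425432), .ofNat (nat_lit 492872), .ofNat (nat_lit 399998), .ofNat (nat_lit 464284), .ofNat (nat_lit 421427), .ofNat (nat_lit 485713)⟩⟩, [⟨nat_lit 0, nat_lit 100, nat_lit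 95, nat_lit 78, nat_lit 475677041⟩, ⟨nat_lit 16, nat_lit 99, nat_lit 100, nat_lit 77, nat_lit 250275020⟩, ⟨nat_lit 19, nat_lit 100, nat_lit 100, nat_lit 71, nat_lit 186199300⟩, ⟨nat_lit 19, nat_lit 100, nat_lit 92, nat_lit 75, nat_lit 32274603⟩, ⟨nat_lit 11, nat_lit 100, nat_lit 100, nat_lit 80, nat_lit 227389634⟩]⟩
noncomputable def p058_l43 : Lf2 := ⟨nat_lit 0, nat_lit 5, [nat_lit 4, nat_lit 5, nat_lit 5, nat_lit 20], false, nat_lit 240, nat_lit 280, nat_lit 240, nat_lit 320, ⟨nat_lit 603, nat_lit 0, nat_lit 397, nat_lit 6, nat_lit 130, nat_lit 397, nat_lit 188, nat_lit 397, nat_lit 17404, nat_lit 247, nat_lit 160067, nat_lit 313, nat_lit 48372510, nat_lit 0, nat_lit 0, nat_lit 4132320, false, false⟩,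
 nat_lit 9086, nat_lit 0, nat_lit 0, nat_lit 0, nat_lit 5782, nat_lit 5288, nat_lit 1010, nat_lit 0, nat_lit 0, nat_lit 759, nat_lit 0, nat_lit 0, nat_lit 0, nat_lit 0, nat_lit 0, nat_lit 153100, nat_lit 0, nat_lit 0, [(nat_lit 12, [(nat_lit 4, nat_lit 38), (nat_lit 5, nat_lit 359)])],
 ⟨p058_k30, nat_lit 0, nat_lit 0, nat_lit 255, nat_lit 0, nat_lit 383814, [nat_lit 2516149200, nat_lit 3077766801, nat_lit 4144298000], [], [nat_lit 17911276723, nat_lit 19117538629, nat_lit 17281800409, nat_lit 18449814625, nat_lit 19971777757, nat_lit 21770428791, nat_lit 19287492278, nat_lit 20654623552], nat_lit 1271250, nat_lit 1271250, nat_lit 279600, nat_lit 490000, nat_lit 1271250, nat_lit 1271250, [nat_lit 780000, nat_lit 1100000, nat_lit 1785000], [nat_lit 36, nat_lit 40, nat_lit 40, nat_lit 80, nat_lit 7, nat_lit 226, nat_lit 20, nat_lit 7]⟩, ⟨p058_k31, nat_lit 0, nat_lit 0, nat_lit 277, nat_lit 0, nat_lit 427315, [nat_lit 2826864000,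 nat_lit 3768750000, nat_lit 4804704000], [], [nat_lit 11543087845, nat_lit 12264250577, nat_lit 10797450203, nat_lit 11493235741, nat_lit 14936648813, nat_lit 15892346011, nat_lit 13955244104, nat_lit 14657272596], nat_lit 1271250, nat_lit 1271250, nat_lit 279600, nat_lit 490000, nat_lit 1271250, nat_lit 1271250, [nat_lit 1100000, nat_lit 1442500, nat_lit 1271250], [nat_lit 9, nat_lit 40, nat_lit 40, nat_lit 80, nat_lit 2, nat_lit 226, nat_lit 20, nat_lit 7]⟩,
 ⟨nat_lit 5000, nat_lit 5478, ⟨.ofNat (nat_lit 279324), .ofNat (nat_lit 339271), .ofNat (nat_lit 300681), .ofNat (nat_lit 360625), .ofNat (nat_lit 292856), .ofNat (nat_lit 349999), .ofNat (nat_lit 314284), .ofNat (nat_lit 371424)⟩, ⟨.ofNat (nat_lit 425432), .ofNat (nat_lit 500365), .ofNat (nat_lit 446789), .ofNat (nat_lit 521722), .ofNat (nat_lit 421427), .ofNat (nat_lit 492856), .ofNat (nat_lit 442856), .ofNat (nat_lit 514284)⟩⟩, [⟨nat_lit 0, nat_lit 100, nat_lit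 95, nat_lit 78, nat_lit 472453171⟩, ⟨nat_lit 4, nat_lit 100, nat_lit 97, nat_lit 82, nat_lit 148842836⟩, ⟨nat_lit 7, nat_lit 93, nat_lit 100, nat_lit 81, nat_lit 95793108⟩, ⟨nat_lit 11, nat_lit 100, nat_lit 100, nat_lit 80, nat_lit 333942821⟩]⟩
noncomputable def p058_l44 : Lf2 := ⟨nat_lit 0, nat_lit 5, [nat_lit 4, nat_lit 5, nat_lit 5, nat_lit 20], false, nat_lit 280, nat_lit 300, nat_lit 240, nat_lit 300, ⟨nat_lit 661, nat_lit 0, nat_lit 339, nat_lit 6, nat_lit 130, nat_lit 339, nat_lit 206, nat_lit 339, nat_lit 3701, nat_lit 228, nat_lit 160067, nat_lit 313, nat_lit 46812370, nat_lit 0, nat_lit 0, nat_lit 4291785, false, false⟩,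
 nat_lit 9823, nat_lit 0, nat_lit 0, nat_lit 0, nat_lit 6250, nat_lit 5717, nat_lit 863, nat_lit 0, nat_lit 0, nat_lit 947, nat_lit 0, nat_lit 0, nat_lit 0, nat_lit 0, nat_lit 0, nat_lit 339000, nat_lit 0, nat_lit 0, [(nat_lit 12, [(nat_lit 6, nat_lit 339)])],
 ⟨p058_k30, nat_lit 0, nat_lit 0, nat_lit 296, nat_lit 0, nat_lit 499481, [nat_lit 2477756400, nat_lit 3380951600, nat_lit 3948951600], [], [nat_lit 20286153201, nat_lit 22170796800, nat_lit 19103558700, nat_lit 20917282000, nat_lit 22053805500, nat_lit 23822542001, nat_lit 20805407500, nat_lit 22527082000], nat_lit 1271250, nat_lit 1271250, nat_lit 279600, nat_lit 490000, nat_lit 1271250, nat_lit 1271250, [nat_lit 780000, nat_lit 1100000, nat_lit 1785000], [nat_lit 36, nat_lit 40, nat_lit 40, nat_lit 80, nat_lit 7, nat_lit 226, nat_lit 20, nat_lit 6]⟩, ⟨p058_k31, nat_lit 0, nat_lit 0, nat_lit 322, nat_lit 0, nat_lit 556091, [nat_lit 3098768000, nat_lit 4131250000,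 nat_lit 5266848000], [], [nat_lit 12414848397, nat_lit 13199565637, nat_lit 11616704845, nat_lit 12371041925, nat_lit 15056795478, nat_lit 15907618323, nat_lit 14034524162, nat_lit 14857954899], nat_lit 1271250, nat_lit 1271250, nat_lit 279600, nat_lit 490000, nat_lit 1271250, nat_lit 1271250, [nat_lit 1100000, nat_lit 1442500, nat_lit 1271250], [nat_lit 9, nat_lit 40, nat_lit 40, nat_lit 80, nat_lit 2, nat_lit 226, nat_lit 20, nat_lit 7]⟩,
 ⟨nat_lit 5000, nat_lit 5478, ⟨.ofNat (nat_lit 279324), .ofNat (nat_lit 339271), .ofNat (nat_lit 300681), .ofNat (nat_lit 360625), .ofNat (nat_lit 292856), .ofNat (nat_lit 349999), .ofNat (nat_lit 314284), .ofNat (nat_lit 371424)⟩, ⟨.ofNat (nat_lit 479008), .ofNat (nat_lit 516475), .ofNat (nat_lit 521722), .ofNat (nat_lit 559189), .ofNat (nat_lit 471427), .ofNat (nat_lit 507141), .ofNat (nat_lit 514284), .ofNat (nat_lit 549998)⟩⟩, [⟨nat_lit 0, nat_lit 100, nat_lit 95, nat_lit 78, nat_lit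 422176216⟩, ⟨nat_lit 4, nat_lit 100, nat_lit 94, nat_lit 75, nat_lit 405495086⟩, ⟨nat_lit 19, nat_lit 100, nat_lit 97, nat_lit 76, nat_lit 55372897⟩, ⟨nat_lit 11, nat_lit 100, nat_lit 100, nat_lit 80, nat_lit 404020561⟩]⟩
noncomputable def p058_l45 : Lf2 := ⟨nat_lit 0, nat_lit 5, [nat_lit 4, nat_lit 5, nat_lit 5, nat_lit 20], false, nat_lit 240, nat_lit 300, nat_lit 240, nat_lit 320, ⟨nat_lit 644, nat_lit 0, nat_lit 356, nat_lit 6, nat_lit 157, nat_lit 356, nat_lit 191, nat_lit 356, nat_lit 3701, nat_lit 228, nat_lit 232067, nat_lit 333, nat_lit 46243788, nat_lit 0, nat_lit 0, nat_lit 4454789, false, false⟩,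
 nat_lit 9299, nat_lit 0, nat_lit 0, nat_lit 0, nat_lit 5917, nat_lit 5412, nat_lit 871, nat_lit 0, nat_lit 0, nat_lit 919, nat_lit 0, nat_lit 0, nat_lit 0, nat_lit 0, nat_lit 0, nat_lit 131150, nat_lit 0, nat_lit 0, [(nat_lit 12, [(nat_lit 4, nat_lit 75), (nat_lit 5, nat_lit 281)])],
 ⟨p058_k30, nat_lit 0, nat_lit 0, nat_lit 278, nat_lit 0, nat_lit 499481, [nat_lit 2643172800, nat_lit 3242180400, nat_lit 4561468400], [], [nat_lit 18085298912, nat_lit 19265616944, nat_lit 17951541916, nat_lit 19045358102, nat_lit 21080792180, nat_lit 22291304014, nat_lit 20767253288, nat_lit 21843378629], nat_lit 1271250, nat_lit 1271250, nat_lit 490000, nat_lit 780000, nat_lit 1271250, nat_lit 1271250, [nat_lit 780000, nat_lit 1100000, nat_lit 1785000], [nat_lit 36, nat_lit 40, nat_lit 40, nat_lit 80, nat_lit 7, nat_lit 238, nat_lit 30, nat_lit 7]⟩, ⟨p058_k31, nat_lit 0, nat_lit 0, nat_lit 305, nat_lit 0, nat_lit 556091, [nat_lit 3019072000,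 nat_lit 4025000000, nat_lit 5131392000], [], [nat_lit 11762967093, nat_lit 12353305813, nat_lit 11402370565, nat_lit 11956472437, nat_lit 14762464328, nat_lit 15493557616, nat_lit 14197155448, nat_lit 14888211360], nat_lit 1271250, nat_lit 1271250, nat_lit 490000, nat_lit 780000, nat_lit 1271250, nat_lit 1271250, [nat_lit 1100000, nat_lit 1442500, nat_lit 1271250], [nat_lit 9, nat_lit 40, nat_lit 40, nat_lit 80, nat_lit 2, nat_lit 238, nat_lit 30, nat_lit 7]⟩,
 ⟨nat_lit 5000, nat_lit 5478, ⟨.ofNat (nat_lit 339271), .ofNat (nat_lit 414199), .ofNat (nat_lit 360625), .ofNat (nat_lit 435548), .ofNat (nat_lit 349999), .ofNat (nat_lit 421423), .ofNat (nat_lit 371424), .ofNat (nat_lit 442843)⟩, ⟨.ofNat (nat_lit 404075), .ofNat (nat_lit 516475), .ofNat (nat_lit 446789), .ofNat (nat_lit 559189), .ofNat (nat_lit 399998), .ofNat (nat_lit 507141), .ofNat (nat_lit 442856), .ofNat (nat_lit 549998)⟩⟩, [⟨nat_lit 0, nat_lit 100, nat_lit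 94, nat_lit 88, nat_lit 204100677⟩, ⟨nat_lit 16, nat_lit 100, nat_lit 95, nat_lit 87, nat_lit 271270419⟩, ⟨nat_lit 19, nat_lit 100, nat_lit 85, nat_lit 84, nat_lit 214121193⟩, ⟨nat_lit 11, nat_lit 100, nat_lit 100, nat_lit 100, nat_lit 173970920⟩]⟩
noncomputable def p058_l46 : Lf2 := ⟨nat_lit 0, nat_lit 5, [nat_lit 4, nat_lit 5, nat_lit 5, nat_lit 20], false, nat_lit 240, nat_lit 280, nat_lit 240, nat_lit 320, ⟨nat_lit 483, nat_lit 0, nat_lit 517, nat_lit 6, nat_lit 155, nat_lit 517, nat_lit 182, nat_lit 517, nat_lit 24746, nat_lit 252, nat_lit 224267, nat_lit 331, nat_lit 47184909, nat_lit 0, nat_lit 0, nat_lit 4345064, false, false⟩,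
 nat_lit 7268, nat_lit 0, nat_lit 0, nat_lit 0, nat_lit 5031, nat_lit 4230, nat_lit 118, nat_lit 0, nat_lit 0, nat_lit 847, nat_lit 0, nat_lit 0, nat_lit 0, nat_lit 0, nat_lit 0, nat_lit 517000, nat_lit 0, nat_lit 0, [(nat_lit 15, [(nat_lit 6, nat_lit 517)])],
 ⟨p058_k23, nat_lit 0, nat_lit 0, nat_lit 256, nat_lit 0, nat_lit 550247, [nat_lit 2091866000, nat_lit 1764954134], [], [nat_lit 19108715676, nat_lit 19999367533, nat_lit 18896458128, nat_lit 19729405292, nat_lit 20680546610, nat_lit 22319128945, nat_lit 20253794242, nat_lit 21557086386], nat_lit 1271250, nat_lit 1271250, nat_lit 382400, nat_lit 780000, nat_lit 1271250, nat_lit 1271250, [nat_lit 780000, nat_lit 1435000], [nat_lit 49, nat_lit 40, nat_lit 40, nat_lit 80, nat_lit 16, nat_lit 238, nat_lit 30, nat_lit 8]⟩, ⟨p058_k35, nat_lit 0, nat_lit 0, nat_lit 376, nat_lit 0, nat_lit 677168, [nat_lit 2264304000, nat_lit 3848544000], [], [nat_lit 9685088681, nat_lit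 10193337108, nat_lit 9026736750, nat_lit 9495926820, nat_lit 11782905983, nat_lit 12230198288, nat_lit 10967877276, nat_lit 11319659808], nat_lit 1271250, nat_lit 1271250, nat_lit 382400, nat_lit 780000, nat_lit 1271250, nat_lit 1271250, [nat_lit 1100000, nat_lit 1785000], [nat_lit 39, nat_lit 40, nat_lit 40, nat_lit 80, nat_lit 7, nat_lit 238, nat_lit 30, nat_lit 7]⟩,
 ⟨nat_lit 4472, nat_lit 5000, ⟨.ofNat (nat_lit 321407), .ofNat (nat_lit 421400), .ofNat (nat_lit 342823), .ofNat (nat_lit 442816), .ofNat (nat_lit 333552), .ofNat (nat_lit 428715), .ofNat (nat_lit 355106), .ofNat (nat_lit 450269)⟩, ⟨.ofNat (nat_lit 399998), .ofNat (nat_lit 471427), .ofNat (nat_lit 442856), .ofNat (nat_lit 514284), .ofNat (nat_lit 395445), .ofNat (nat_lit 463423), .ofNat (nat_lit 438578), .ofNat (nat_lit 506556)⟩⟩, [⟨nat_lit 0, nat_lit 100, nat_lit 89, nat_lit 86, nat_lit 381809642⟩, ⟨nat_lit 16, nat_lit 94, nat_lit 100, nat_lit 87, nat_lit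 216864426⟩, ⟨nat_lit 19, nat_lit 100, nat_lit 85, nat_lit 84, nat_lit 148547350⟩, ⟨nat_lit 11, nat_lit 100, nat_lit 100, nat_lit 96, nat_lit 111950017⟩]⟩
noncomputable def p058_l47 : Lf2 := ⟨nat_lit 0, nat_lit 10, [nat_lit 0, nat_lit 5, nat_lit 5, nat_lit 20], false, nat_lit 240, nat_lit 276, nat_lit 240, nat_lit 296, ⟨nat_lit 17, nat_lit 0, nat_lit 983, nat_lit 6, nat_lit 143, nat_lit 983, nat_lit 178, nat_lit 983, nat_lit 45067, nat_lit 267, nat_lit 190817, nat_lit 322, nat_lit 48342840, nat_lit 0, nat_lit 0, nat_lit 4180399, false, false⟩,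
 nat_lit 514, nat_lit 5083, nat_lit 0, nat_lit 0, nat_lit 3561, nat_lit 299, nat_lit 164, nat_lit 0, nat_lit 0, nat_lit 0, nat_lit 0, nat_lit 0, nat_lit 0, nat_lit 0, nat_lit 88, nat_lit 393200, nat_lit 0, nat_lit 0, [(nat_lit 12, [(nat_lit 5, nat_lit 983)])],
 ⟨p058_k16, nat_lit 0, nat_lit 0, nat_lit 220, nat_lit 0, nat_lit 268343, [nat_lit 2331500400, nat_lit 1340672667, nat_lit 215100000], [], [nat_lit 16605306846, nat_lit 17641038108, nat_lit 16572399812, nat_lit 17562176943, nat_lit 18216125835, nat_lit 19621589294, nat_lit 18185918857, nat_lit 19275558975], nat_lit 1271250, nat_lit 1271250, nat_lit 279600, nat_lit 780000, nat_lit 1271250, nat_lit 1271250, [nat_lit 780000, nat_lit 1435000, nat_lit 1271250], [nat_lit 8, nat_lit 40, nat_lit 40, nat_lit 80, nat_lit 1, nat_lit 317, nat_lit 100, nat_lit 9]⟩, ⟨p058_k36, nat_lit 0, nat_lit 0, nat_lit 246, nat_lit 0, nat_lit 298756, [nat_lit 79696000, nat_lit 135456000,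 nat_lit 167314000], [], [nat_lit 368999536, nat_lit 387659303, nat_lit 267258158, nat_lit 284092509, nat_lit 477011633, nat_lit 497686925, nat_lit 364910163, nat_lit 378206941], nat_lit 1271250, nat_lit 1271250, nat_lit 279600, nat_lit 780000, nat_lit 1271250, nat_lit 1271250, [nat_lit 1100000, nat_lit 1785000, nat_lit 1271250], [nat_lit 29, nat_lit 40, nat_lit 40, nat_lit 80, nat_lit 17, nat_lit 401, nat_lit 175, nat_lit 11]⟩,
 ⟨nat_lit 5000, nat_lit 5478, ⟨.ofNat (nat_lit 279324), .ofNat (nat_lit 414199), .ofNat (nat_lit 290003), .ofNat (nat_lit 424874), .ofNat (nat_lit 292856), .ofNat (nat_lit 421423), .ofNat (nat_lit 303570), .ofNat (nat_lit 432134)⟩, ⟨.ofNat (nat_lit 404075), .ofNat (nat_lit 471515), .ofNat (nat_lit 425432), .ofNat (nat_lit 492872), .ofNat (nat_lit 399998), .ofNat (nat_lit 464284), .ofNat (nat_lit 421427), .ofNat (nat_lit 485713)⟩⟩, [⟨nat_lit 0, nat_lit 100, nat_lit 94, nat_lit 76, nat_lit 141096231⟩,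 ⟨nat_lit 16, nat_lit 92, nat_lit 100, nat_lit 68, nat_lit 24646472⟩, ⟨nat_lit 16, nat_lit 99, nat_lit 100, nat_lit 77, nat_lit 262478579⟩, ⟨nat_lit 19, nat_lit 100, nat_lit 98, nat_lit 70, nat_lit 19270814⟩]⟩
noncomputable def p058_l48 : Lf2 := ⟨nat_lit 0, nat_lit 8, [nat_lit 50, nat_lit 5, nat_lit 5, nat_lit 20], false, nat_lit 240, nat_lit 276, nat_lit 240, nat_lit 288, ⟨nat_lit 1000, nat_lit 0, nat_lit 0, nat_lit 0, nat_lit 0, nat_lit 0, nat_lit 0, nat_lit 0, nat_lit 0, nat_lit 0, nat_lit 0, nat_lit 0, nat_lit 0, nat_lit 0, nat_lit 0, nat_lit 0, false, false⟩,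
 nat_lit 15359, nat_lit 1200, nat_lit 0, nat_lit 0, nat_lit 10537, nat_lit 9353, nat_lit 648, nat_lit 0, nat_lit 0, nat_lit 1400, nat_lit 0, nat_lit 0, nat_lit 0, nat_lit 0, nat_lit 0, nat_lit 0, nat_lit 0, nat_lit 0, [],
 ⟨p058_k1, nat_lit 0, nat_lit 0, nat_lit 200, nat_lit 0, nat_lit 305360, [nat_lit 3282000000, nat_lit 6250000000, nat_lit 7968000000], [], [nat_lit 19022906773, nat_lit 21090323729, nat_lit 16608357880, nat_lit 18509750746, nat_lit 22063463583, nat_lit 24752302686, nat_lit 19404167564, nat_lit 21496457170], nat_lit 1271250, nat_lit 1271250, nat_lit 330400, nat_lit 780000, nat_lit 1271250, nat_lit 1271250, [nat_lit 780000, nat_lit 1435000, nat_lit 1271250], [nat_lit 18, nat_lit 40, nat_lit 40, nat_lit 80, nat_lit 2, nat_lit 238, nat_lit 30, nat_lit 7]⟩, ⟨p058_k38, nat_lit 0, nat_lit 0, nat_lit 249, nat_lit 0, nat_lit 321726, [nat_lit 4688000000, nat_lit 7968000000, nat_lit 9842000000], [], [nat_lit 18308768704,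 nat_lit 19027729258, nat_lit 16137838050, nat_lit 16799755160, nat_lit 21740281225, nat_lit 22754635166, nat_lit 19500508757, nat_lit 20142002532], nat_lit 1271250, nat_lit 1271250, nat_lit 330400, nat_lit 780000, nat_lit 1271250, nat_lit 1271250, [nat_lit 1100000, nat_lit 1785000, nat_lit 1271250], [nat_lit 29, nat_lit 40, nat_lit 40, nat_lit 80, nat_lit 17, nat_lit 401, nat_lit 175, nat_lit 11]⟩,
 zbF0, [⟨nat_lit 0, nat_lit 100, nat_lit 98, nat_lit 74, nat_lit 922484694⟩, ⟨nat_lit 16, nat_lit 99, nat_lit 100, nat_lit 77, nat_lit 759112872⟩, ⟨nat_lit 19, nat_lit 100, nat_lit 97, nat_lit 76, nat_lit 679955197⟩, ⟨nat_lit 11, nat_lit 100, nat_lit 100, nat_lit 94, nat_lit 81743045⟩]⟩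
noncomputable def p058_l49 : Lf2 := ⟨nat_lit 0, nat_lit 10, [nat_lit 0, nat_lit 5, nat_lit 5, nat_lit 20], false, nat_lit 240, nat_lit 276, nat_lit 240, nat_lit 288, ⟨nat_lit 436, nat_lit 0, nat_lit 564, nat_lit 6, nat_lit 150, nat_lit 564, nat_lit 178, nat_lit 564, nat_lit 45067, nat_lit 267, nat_lit 212817, nat_lit 328, nat_lit 47810227, nat_lit 0, nat_lit 0, nat_lit 4261593, false, false⟩,
 nat_lit 7477, nat_lit 2155, nat_lit 0, nat_lit 4230, nat_lit 6129, nat_lit 4553, nat_lit 681, nat_lit 0, nat_lit 0, nat_lit 510, nat_lit 0, nat_lit 0, nat_lit 0, nat_lit 0, nat_lit 0, nat_lit 140230, nat_lit 0, nat_lit 0, [(nat_lit 12, [(nat_lit 3, nat_lit 11), (nat_lit 4, nat_lit 553)])],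
 ⟨p058_k16, nat_lit 0, nat_lit 0, nat_lit 201, nat_lit 0, nat_lit 228335, [nat_lit 3270664801, nat_lit 2562481601, nat_lit 3320520800], [], [nat_lit 17567913042, nat_lit 18893072791, nat_lit 16533009805, nat_lit 17826654566, nat_lit 19565930984, nat_lit 21438193729, nat_lit 18530750662, nat_lit 20093114389], nat_lit 1271250, nat_lit 1271250, nat_lit 330400, nat_lit 780000, nat_lit 1271250, nat_lit 1271250, [nat_lit 780000, nat_lit 1435000, nat_lit 1271250], [nat_lit 8, nat_lit 40, nat_lit 40, nat_lit 80, nat_lit 1, nat_lit 317, nat_lit 100, nat_lit 8]⟩, ⟨p058_k37, nat_lit 0, nat_lit 0, nat_lit 214, nat_lit 0, nat_lit 240694, [nat_lit 2043968000, nat_lit 3474048000, nat_lit 4291112000], [], [nat_lit 8299673678, nat_lit 8634429923, nat_lit 7179683272, nat_lit 7487221050, nat_lit 9897779612, nat_lit 10237423007, nat_lit 8650205653, nat_lit 8909170727], nat_lit 1271250, nat_lit 1271250, nat_lit 330400, nat_lit 780000, nat_lit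 1271250, nat_lit 1271250, [nat_lit 1100000, nat_lit 1785000, nat_lit 1271250], [nat_lit 29, nat_lit 40, nat_lit 40, nat_lit 80, nat_lit 17, nat_lit 401, nat_lit 175, nat_lit 11]⟩,
 ⟨nat_lit 5000, nat_lit 5478, ⟨.ofNat (nat_lit 304989), .ofNat (nat_lit 424874), .ofNat (nat_lit 315668), .ofNat (nat_lit 435548), .ofNat (nat_lit 317856), .ofNat (nat_lit 432134), .ofNat (nat_lit 328570), .ofNat (nat_lit 442843)⟩, ⟨.ofNat (nat_lit 404075), .ofNat (nat_lit 471515), .ofNat (nat_lit 425432), .ofNat (nat_lit 492872), .ofNat (nat_lit 399998), .ofNat (nat_lit 464284), .ofNat (nat_lit 421427), .ofNat (nat_lit 485713)⟩⟩, [⟨nat_lit 0, nat_lit 100, nat_lit 96, nat_lit 81, nat_lit 527449612⟩, ⟨nat_lit 16, nat_lit 99, nat_lit 100, nat_lit 77, nat_lit 487780054⟩, ⟨nat_lit 19, nat_lit 100, nat_lit 97, nat_lit 76, nat_lit 354667575⟩]⟩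
noncomputable def p058_l50 : Lf2 := ⟨nat_lit 0, nat_lit 8, [nat_lit 50, nat_lit 5, nat_lit 5, nat_lit 20], false, nat_lit 240, nat_lit 280, nat_lit 240, nat_lit 320, ⟨nat_lit 114, nat_lit 0, nat_lit 886, nat_lit 6, nat_lit 128, nat_lit 886, nat_lit 188, nat_lit 886, nat_lit 17404, nat_lit 247, nat_lit 153600, nat_lit 311, nat_lit 48521022, nat_lit 0, nat_lit 0, nat_lit 4106545, false, false⟩,
 nat_lit 1792, nat_lit 4248, nat_lit 0, nat_lit 0, nat_lit 3843, nat_lit 1043, nat_lit 0, nat_lit 0, nat_lit 0, nat_lit 165, nat_lit 0, nat_lit 0, nat_lit 0, nat_lit 0, nat_lit 41, nat_lit 455200, nat_lit 0, nat_lit 0, [(nat_lit 12, [(nat_lit 5, nat_lit 718), (nat_lit 6, nat_lit 168)])],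
 ⟨p058_k1, nat_lit 0, nat_lit 0, nat_lit 156, nat_lit 0, nat_lit 166292, [nat_lit 1948764000, nat_lit 959172534, nat_lit 45833466], [], [nat_lit 17038231202, nat_lit 18119168618, nat_lit 16818361166, nat_lit 17845193282, nat_lit 18966004505, nat_lit 20111639110, nat_lit 18598951654, nat_lit 19635626358], nat_lit 1271250, nat_lit 1271250, nat_lit 279600, nat_lit 490000, nat_lit 1271250, nat_lit 1271250, [nat_lit 780000, nat_lit 1435000, nat_lit 1271250], [nat_lit 18, nat_lit 40, nat_lit 40, nat_lit 80, nat_lit 2, nat_lit 226, nat_lit 20, nat_lit 7]⟩, ⟨p058_k39, nat_lit 0, nat_lit 0, nat_lit 206, nat_lit 0, nat_lit 185409, [nat_lit 534432000, nat_lit 908352000, nat_lit 1121988000], [], [nat_lit 2151870443, nat_lit 2233429385, nat_lit 1968784468, nat_lit 2047787648, nat_lit 2884971208, nat_lit 2954644444, nat_lit 2688664430, nat_lit 2756250851], nat_lit 1271250, nat_lit 1271250, nat_lit 279600, nat_lit 490000, nat_lit 1271250,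 nat_lit 1271250, [nat_lit 1100000, nat_lit 1785000, nat_lit 1271250], [nat_lit 29, nat_lit 40, nat_lit 40, nat_lit 80, nat_lit 17, nat_lit 401, nat_lit 175, nat_lit 11]⟩,
 ⟨nat_lit 5000, nat_lit 5478, ⟨.ofNat (nat_lit 279324), .ofNat (nat_lit 339271), .ofNat (nat_lit 290003), .ofNat (nat_lit 349949), .ofNat (nat_lit 292856), .ofNat (nat_lit 349999), .ofNat (nat_lit 303570), .ofNat (nat_lit 360713)⟩, ⟨.ofNat (nat_lit 425432), .ofNat (nat_lit 500365), .ofNat (nat_lit 446789), .ofNat (nat_lit 521722), .ofNat (nat_lit 421427), .ofNat (nat_lit 492856), .ofNat (nat_lit 442856), .ofNat (nat_lit 514284)⟩⟩, [⟨nat_lit 0, nat_lit 100, nat_lit 94, nat_lit 76, nat_lit 180049839⟩, ⟨nat_lit 16, nat_lit 97, nat_lit 100, nat_lit 82, nat_lit 136798970⟩, ⟨nat_lit 11, nat_lit 100, nat_lit 100, nat_lit 80, nat_lit 91063860⟩]⟩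
noncomputable def p058_l51 : Lf2 := ⟨nat_lit 0, nat_lit 10, [nat_lit 0, nat_lit 5, nat_lit 5, nat_lit 20], true, nat_lit 240, nat_lit 280, nat_lit 240, nat_lit 320, ⟨nat_lit 0, nat_lit 0, nat_lit 1000, nat_lit 6, nat_lit 128, nat_lit 1000, nat_lit 188, nat_lit 1000, nat_lit 17404, nat_lit 247, nat_lit 153600, nat_lit 311, nat_lit 48521022, nat_lit 0, nat_lit 0, nat_lit 4106545, false, false⟩,
 nat_lit 0, nat_lit 5426, nat_lit 0, nat_lit 3879, nat_lit 3452, nat_lit 0, nat_lit 100, nat_lit 0, nat_lit 0, nat_lit 0, nat_lit 0, nat_lit 0, nat_lit 0, nat_lit 0, nat_lit 95, nat_lit 400000, nat_lit 0, nat_lit 0, [(nat_lit 12, [(nat_lit 5, nat_lit 1000)])],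
 ⟨p058_k16, nat_lit 0, nat_lit 0, nat_lit 157, nat_lit 0, nat_lit 83450, [nat_lit 2380800000, nat_lit 1365333334, nat_lit 202000000], [], [nat_lit 16917752856, nat_lit 17874045956, nat_lit 16734470052, nat_lit 17637893908, nat_lit 18620738684, nat_lit 19777143615, nat_lit 18307650204, nat_lit 19346943672], nat_lit 1271250, nat_lit 1271250, nat_lit 279600, nat_lit 490000, nat_lit 1271250, nat_lit 1271250, [nat_lit 780000, nat_lit 1435000, nat_lit 1271250], [nat_lit 8, nat_lit 40, nat_lit 40, nat_lit 80, nat_lit 1, nat_lit 317, nat_lit 100, nat_lit 9]⟩, C1.Rw.none,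
 ⟨nat_lit 5000, nat_lit 5478, ⟨.ofNat (nat_lit 279324), .ofNat (nat_lit 339271), .ofNat (nat_lit 290003), .ofNat (nat_lit 349949), .ofNat (nat_lit 292856), .ofNat (nat_lit 349999), .ofNat (nat_lit 303570), .ofNat (nat_lit 360713)⟩, ⟨.ofNat (nat_lit 425432), .ofNat (nat_lit 500365), .ofNat (nat_lit 446789), .ofNat (nat_lit 521722), .ofNat (nat_lit 421427), .ofNat (nat_lit 492856), .ofNat (nat_lit 442856), .ofNat (nat_lit 514284)⟩⟩, [⟨nat_lit 0, nat_lit 100, nat_lit 94, nat_lit 76, nat_lit 178923204⟩, ⟨nat_lit 4, nat_lit 100, nat_lit 97, nat_lit 82, nat_lit 237794083⟩]⟩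
noncomputable def p058_l52 : Lf2 := ⟨nat_lit 0, nat_lit 8, [nat_lit 50, nat_lit 5, nat_lit 5, nat_lit 20], false, nat_lit 280, nat_lit 300, nat_lit 240, nat_lit 300, ⟨nat_lit 920, nat_lit 0, nat_lit 80, nat_lit 6, nat_lit 128, nat_lit 80, nat_lit 210, nat_lit 80, nat_lit 3701, nat_lit 228, nat_lit 153600, nat_lit 311, nat_lit 46571915, nat_lit 0, nat_lit 0, nat_lit 4302366, false, false⟩,
 nat_lit 15826, nat_lit 0, nat_lit 0, nat_lit 0, nat_lit 10071, nat_lit 9212, nat_lit 250, nat_lit 0, nat_lit 0, nat_lit 1238, nat_lit 0, nat_lit 0, nat_lit 0, nat_lit 0, nat_lit 0, nat_lit 80000, nat_lit 0, nat_lit 0, [(nat_lit 12, [(nat_lit 6, nat_lit 80)])],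
 ⟨p058_k1, nat_lit 0, nat_lit 0, nat_lit 163, nat_lit 0, nat_lit 166292, [nat_lit 3110736001, nat_lit 5659792000, nat_lit 7019552000], [], [nat_lit 23581372365, nat_lit 25439613392, nat_lit 21697218680, nat_lit 23430736724, nat_lit 25258681478, nat_lit 27670736822, nat_lit 23298361128, nat_lit 25232510482], nat_lit 1271250, nat_lit 1271250, nat_lit 279600, nat_lit 490000, nat_lit 1271250, nat_lit 1271250, [nat_lit 780000, nat_lit 1435000, nat_lit 1271250], [nat_lit 18, nat_lit 40, nat_lit 40, nat_lit 80, nat_lit 2, nat_lit 226, nat_lit 20, nat_lit 6]⟩, ⟨p058_k39, nat_lit 0, nat_lit 0, nat_lit 199, nat_lit 0, nat_lit 185409, [nat_lit 4312960000, nat_lit 7330560000, nat_lit 9054640000], [], [nat_lit 17422544821, nat_lit 18116736281, nat_lit 15755420072, nat_lit 16427465144, nat_lit 21700208959, nat_lit 22258383221, nat_lit 19896766706, nat_lit 20508093290], nat_lit 1271250, nat_lit 1271250, nat_lit 279600, nat_lit 490000,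 nat_lit 1271250, nat_lit 1271250, [nat_lit 1100000, nat_lit 1785000, nat_lit 1271250], [nat_lit 29, nat_lit 40, nat_lit 40, nat_lit 80, nat_lit 17, nat_lit 401, nat_lit 175, nat_lit 11]⟩,
 ⟨nat_lit 5000, nat_lit 5478, ⟨.ofNat (nat_lit 279324), .ofNat (nat_lit 339271), .ofNat (nat_lit 290003), .ofNat (nat_lit 349949), .ofNat (nat_lit 292856), .ofNat (nat_lit 349999), .ofNat (nat_lit 303570), .ofNat (nat_lit 360713)⟩, ⟨.ofNat (nat_lit 500365), .ofNat (nat_lit 537832), .ofNat (nat_lit 521722), .ofNat (nat_lit 559189), .ofNat (nat_lit 492856), .ofNat (nat_lit 528570), .ofNat (nat_lit 514284), .ofNat (nat_lit 549998)⟩⟩, [⟨nat_lit 0, nat_lit 100, nat_lit 94, nat_lit 76, nat_lit 506415746⟩, ⟨nat_lit 16, nat_lit 97, nat_lit 100, nat_lit 82, nat_lit 659313560⟩, ⟨nat_lit 11, nat_lit 100, nat_lit 100, nat_lit 80, nat_lit 700169304⟩]⟩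
noncomputable def p058_l53 : Lf2 := ⟨nat_lit 0, nat_lit 10, [nat_lit 0, nat_lit 5, nat_lit 5, nat_lit 20], true, nat_lit 280, nat_lit 300, nat_lit 240, nat_lit 300, ⟨nat_lit 0, nat_lit 0, nat_lit 1000, nat_lit 6, nat_lit 128, nat_lit 1000, nat_lit 210, nat_lit 1000, nat_lit 3701, nat_lit 228, nat_lit 153600, nat_lit 311, nat_lit 46571915, nat_lit 0, nat_lit 0, nat_lit 4302366, false, false⟩,
 nat_lit 0, nat_lit 5376, nat_lit 0, nat_lit 100000, nat_lit 3421, nat_lit 0, nat_lit 85, nat_lit 0, nat_lit 0, nat_lit 0, nat_lit 0, nat_lit 0, nat_lit 0, nat_lit 0, nat_lit 95, nat_lit 400000, nat_lit 0, nat_lit 0, [(nat_lit 12, [(nat_lit 5, nat_lit 1000)])],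
 ⟨p058_k16, nat_lit 0, nat_lit 0, nat_lit 163, nat_lit 0, nat_lit 83450, [nat_lit 2380800000, nat_lit 1365333334, nat_lit 202000000], [], [nat_lit 18724254507, nat_lit 19750623512, nat_lit 18447781367, nat_lit 19329876837, nat_lit 19680972698, nat_lit 20973407442, nat_lit 19279746739, nat_lit 20524031182], nat_lit 1271250, nat_lit 1271250, nat_lit 279600, nat_lit 490000, nat_lit 1271250, nat_lit 1271250, [nat_lit 780000, nat_lit 1435000, nat_lit 1271250], [nat_lit 8, nat_lit 40, nat_lit 40, nat_lit 80, nat_lit 1, nat_lit 226, nat_lit 20, nat_lit 6]⟩, C1.Rw.none,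
 ⟨nat_lit 5000, nat_lit 5478, ⟨.ofNat (nat_lit 279324), .ofNat (nat_lit 339271), .ofNat (nat_lit 290003), .ofNat (nat_lit 349949), .ofNat (nat_lit 292856), .ofNat (nat_lit 349999), .ofNat (nat_lit 303570), .ofNat (nat_lit 360713)⟩, ⟨.ofNat (nat_lit 500365), .ofNat (nat_lit 537832), .ofNat (nat_lit 521722), .ofNat (nat_lit 559189), .ofNat (nat_lit 492856), .ofNat (nat_lit 528570), .ofNat (nat_lit 514284), .ofNat (nat_lit 549998)⟩⟩, [⟨nat_lit 0, nat_lit 100, nat_lit 92, nat_lit 82, nat_lit 181228616⟩, ⟨nat_lit 4, nat_lit 100, nat_lit 97, nat_lit 82, nat_lit 5229488434⟩]⟩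
noncomputable def p058_l54 : Lf2 := ⟨nat_lit 0, nat_lit 8, [nat_lit 50, nat_lit 5, nat_lit 5, nat_lit 20], false, nat_lit 240, nat_lit 300, nat_lit 240, nat_lit 308, ⟨nat_lit 1000, nat_lit 0, nat_lit 0, nat_lit 0, nat_lit 0, nat_lit 0, nat_lit 0, nat_lit 0, nat_lit 0, nat_lit 0, nat_lit 0, nat_lit 0, nat_lit 0, nat_lit 0, nat_lit 0, nat_lit 0, false, false⟩,
 nat_lit 13964, nat_lit 0, nat_lit 0, nat_lit 0, nat_lit 8886, nat_lit 8504, nat_lit 818, nat_lit 0, nat_lit 0, nat_lit 1444, nat_lit 0, nat_lit 0, nat_lit 0, nat_lit 0, nat_lit 0, nat_lit 0, nat_lit 0, nat_lit 0, [],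
 ⟨p058_k1, nat_lit 0, nat_lit 0, nat_lit 151, nat_lit 0, nat_lit 157284, [nat_lit 3282000000, nat_lit 6250000000, nat_lit 7968000000], [], [nat_lit 19488356479, nat_lit 20410632363, nat_lit 18363789544, nat_lit 19263323550, nat_lit 24047329758, nat_lit 24857784879, nat_lit 22814248048, nat_lit 23565467073], nat_lit 1271250, nat_lit 1271250, nat_lit 330400, nat_lit 490000, nat_lit 1271250, nat_lit 1271250, [nat_lit 780000, nat_lit 1435000, nat_lit 1271250], [nat_lit 18, nat_lit 40, nat_lit 40, nat_lit 80, nat_lit 2, nat_lit 226, nat_lit 20, nat_lit 7]⟩, ⟨p058_k38, nat_lit 0, nat_lit 0, nat_lit 190, nat_lit 0, nat_lit 165914, [nat_lit 4688000000, nat_lit 7968000000, nat_lit 9842000000], [], [nat_lit 18504336372, nat_lit 19185252217, nat_lit 17399348028, nat_lit 18065328016, nat_lit 23543752463, nat_lit 24318606401, nat_lit 22381452699, nat_lit 22980225733], nat_lit 1271250, nat_lit 1271250, nat_lit 330400, nat_lit 490000,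 nat_lit 1271250, nat_lit 1271250, [nat_lit 1100000, nat_lit 1785000, nat_lit 1271250], [nat_lit 29, nat_lit 40, nat_lit 40, nat_lit 80, nat_lit 17, nat_lit 401, nat_lit 175, nat_lit 11]⟩,
 zbF0, [⟨nat_lit 0, nat_lit 100, nat_lit 98, nat_lit 79, nat_lit 580478614⟩, ⟨nat_lit 4, nat_lit 100, nat_lit 99, nat_lit 83, nat_lit 164990450⟩, ⟨nat_lit 19, nat_lit 100, nat_lit 96, nat_lit 82, nat_lit 157202258⟩, ⟨nat_lit 11, nat_lit 100, nat_lit 100, nat_lit 82, nat_lit 577523015⟩]⟩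
noncomputable def p058_l55 : Lf2 := ⟨nat_lit 0, nat_lit 9, [nat_lit 203, nat_lit 5, nat_lit 5, nat_lit 20], false, nat_lit 240, nat_lit 300, nat_lit 240, nat_lit 308, ⟨nat_lit 1000, nat_lit 0, nat_lit 0, nat_lit 0, nat_lit 0, nat_lit 0, nat_lit 0, nat_lit 0, nat_lit 0, nat_lit 0, nat_lit 0, nat_lit 0, nat_lit 0, nat_lit 0, nat_lit 0, nat_lit 0, false, false⟩,
 nat_lit 14358, nat_lit 0, nat_lit 0, nat_lit 0, nat_lit 8725, nat_lit 8744, nat_lit 0, nat_lit 0, nat_lit 0, nat_lit 1298, nat_lit 0, nat_lit 0, nat_lit 0, nat_lit 0, nat_lit 0, nat_lit 0, nat_lit 0, nat_lit 0, [],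
 ⟨p058_k40, nat_lit 0, nat_lit 0, nat_lit 107, nat_lit 0, nat_lit 71948, [nat_lit 3282000000, nat_lit 6250000000, nat_lit 7968000000], [], [nat_lit 18679881220, nat_lit 19685944650, nat_lit 17630566600, nat_lit 18611510850, nat_lit 23680570675, nat_lit 24721118515, nat_lit 22511203075, nat_lit 23330842500], nat_lit 1271250, nat_lit 1271250, nat_lit 330400, nat_lit 490000, nat_lit 1271250, nat_lit 1271250, [nat_lit 780000, nat_lit 1435000, nat_lit 1271250], [nat_lit 18, nat_lit 40, nat_lit 40, nat_lit 80, nat_lit 2, nat_lit 226, nat_lit 20, nat_lit 7]⟩, ⟨p058_k41, nat_lit 0, nat_lit 0, nat_lit 153, nat_lit 0, nat_lit 75913, [nat_lit 4688000000, nat_lit 7968000000, nat_lit 9842000000], [], [nat_lit 19200754942, nat_lit 19892425475, nat_lit 18052485958, nat_lit 18727923702, nat_lit 23875343328, nat_lit 24518197659, nat_lit 22618075516, nat_lit 23224620701], nat_lit 1271250, nat_lit 1271250, nat_lit 330400, nat_lit 490000,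 nat_lit 1271250, nat_lit 1271250, [nat_lit 1100000, nat_lit 1785000, nat_lit 1271250], [nat_lit 29, nat_lit 40, nat_lit 40, nat_lit 80, nat_lit 17, nat_lit 401, nat_lit 175, nat_lit 11]⟩,
 zbF0, [⟨nat_lit 0, nat_lit 100, nat_lit 98, nat_lit 79, nat_lit 602181838⟩, ⟨nat_lit 16, nat_lit 99, nat_lit 100, nat_lit 83, nat_lit 224399867⟩, ⟨nat_lit 7, nat_lit 96, nat_lit 100, nat_lit 82, nat_lit 134546365⟩, ⟨nat_lit 11, nat_lit 100, nat_lit 100, nat_lit 82, nat_lit 562763798⟩]⟩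
noncomputable def p058_l56 : Lf2 := ⟨nat_lit 0, nat_lit 10, [nat_lit 0, nat_lit 5, nat_lit 5, nat_lit 20], true, nat_lit 240, nat_lit 300, nat_lit 240, nat_lit 308, ⟨nat_lit 0, nat_lit 1000, nat_lit 0, nat_lit 6, nat_lit 134, nat_lit 1000, nat_lit 197, nat_lit 0, nat_lit 0, nat_lit 0, nat_lit 0, nat_lit 0, nat_lit 47416116, nat_lit 6924873, nat_lit 12659011, nat_lit 4248583, false, false⟩,
 nat_lit 0, nat_lit 6471, nat_lit 0, nat_lit 4612, nat_lit 4117, nat_lit 0, nat_lit 0, nat_lit 0, nat_lit 0, nat_lit 0, nat_lit 0, nat_lit 0, nat_lit 0, nat_lit 0, nat_lit 0, nat_lit 250000, nat_lit 0, nat_lit 0, [(nat_lit 12, [(nat_lit 0, nat_lit 1000)])],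
 ⟨p058_k16, nat_lit 0, nat_lit 0, nat_lit 103, nat_lit 0, nat_lit 21997, [nat_lit 2364000000, nat_lit 2954000000, nat_lit 3510800000], [], [nat_lit 16280375311, nat_lit 16652209262, nat_lit 16041428932, nat_lit 16404983704, nat_lit 20109991062, nat_lit 20459372669, nat_lit 19791262003, nat_lit 20103333076], nat_lit 1271250, nat_lit 1271250, nat_lit 330400, nat_lit 490000, nat_lit 1271250, nat_lit 1271250, [nat_lit 780000, nat_lit 1435000, nat_lit 1271250], [nat_lit 8, nat_lit 40, nat_lit 40, nat_lit 80, nat_lit 1, nat_lit 317, nat_lit 100, nat_lit 8]⟩, C1.Rw.none,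
 ⟨nat_lit 5361, nat_lit 5478, ⟨.ofNat (nat_lit 304989), .ofNat (nat_lit 349949), .ofNat (nat_lit 315668), .ofNat (nat_lit 360628), .ofNat (nat_lit 308214), .ofNat (nat_lit 352644), .ofNat (nat_lit 318899), .ofNat (nat_lit 363328)⟩, ⟨.ofNat (nat_lit 425432), .ofNat (nat_lit 537832), .ofNat (nat_lit 446789), .ofNat (nat_lit 559189), .ofNat (nat_lit 424461), .ofNat (nat_lit 535535), .ofNat (nat_lit 445831), .ofNat (nat_lit 556905)⟩⟩, [⟨nat_lit 0, nat_lit 100, nat_lit 99, nat_lit 82, nat_lit 162624811⟩, ⟨nat_lit 4, nat_lit 99, nat_lit 100, nat_lit 83, nat_lit 310985806⟩]⟩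
noncomputable def p058_l57 : Lf2 := ⟨nat_lit 0, nat_lit 10, [nat_lit 0, nat_lit 5, nat_lit 5, nat_lit 20], true, nat_lit 240, nat_lit 296, nat_lit 240, nat_lit 308, ⟨nat_lit 0, nat_lit 1000, nat_lit 0, nat_lit 6, nat_lit 136, nat_lit 1000, nat_lit 194, nat_lit 0, nat_lit 0, nat_lit 0, nat_lit 0, nat_lit 0, nat_lit 47419051, nat_lit 7138783, nat_lit 12442166, nat_lit 4260087, false, false⟩,
 nat_lit 0, nat_lit 6358, nat_lit 0, nat_lit 3695, nat_lit 4133, nat_lit 0, nat_lit 0, nat_lit 0, nat_lit 0, nat_lit 0, nat_lit 0, nat_lit 0, nat_lit 0, nat_lit 0, nat_lit 0, nat_lit 250000, nat_lit 0, nat_lit 0, [(nat_lit 12, [(nat_lit 0, nat_lit 1000)])],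
 ⟨p058_k42, nat_lit 0, nat_lit 0, nat_lit 100, nat_lit 0, nat_lit 45312, [nat_lit 2364000000, nat_lit 2954000000, nat_lit 3510800000], [], [nat_lit 16599043498, nat_lit 16970239410, nat_lit 16390702296, nat_lit 16754980524, nat_lit 20117956845, nat_lit 20470594153, nat_lit 19848702475, nat_lit 20164787581], nat_lit 1271250, nat_lit 1271250, nat_lit 356250, nat_lit 490000, nat_lit 1271250, nat_lit 1271250, [nat_lit 780000, nat_lit 1435000, nat_lit 1271250], [nat_lit 8, nat_lit 40, nat_lit 40, nat_lit 80, nat_lit 1, nat_lit 317, nat_lit 100, nat_lit 8]⟩, C1.Rw.none,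
 ⟨nat_lit 5244, nat_lit 5362, ⟨.ofNat (nat_lit 315619), .ofNat (nat_lit 352644), .ofNat (nat_lit 326304), .ofNat (nat_lit 363328), .ofNat (nat_lit 318749), .ofNat (nat_lit 355334), .ofNat (nat_lit 329441), .ofNat (nat_lit 366027)⟩, ⟨.ofNat (nat_lit 424461), .ofNat (nat_lit 528131), .ofNat (nat_lit 445831), .ofNat (nat_lit 549500), .ofNat (nat_lit 423472), .ofNat (nat_lit 525911), .ofNat (nat_lit 444857), .ofNat (nat_lit 547297)⟩⟩, [⟨nat_lit 0, nat_lit 100, nat_lit 97, nat_lit 84, nat_lit 182286684⟩, ⟨nat_lit 4, nat_lit 100, nat_lit 98, nat_lit 83, nat_lit 311159295⟩]⟩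
noncomputable def p058_l58 : Lf2 := ⟨nat_lit 0, nat_lit 10, [nat_lit 0, nat_lit 5, nat_lit 5, nat_lit 20], false, nat_lit 240, nat_lit 292, nat_lit 240, nat_lit 308, ⟨nat_lit 599, nat_lit 0, nat_lit 401, nat_lit 6, nat_lit 140, nat_lit 401, nat_lit 192, nat_lit 401, nat_lit 8501, nat_lit 237, nat_lit 183750, nat_lit 320, nat_lit 47405649, nat_lit 0, nat_lit 0, nat_lit 4274593, false, false⟩,
 nat_lit 8797, nat_lit 1736, nat_lit 0, nat_lit 0, nat_lit 6995, nat_lit 5357, nat_lit 351, nat_lit 0, nat_lit 0, nat_lit 782, nat_lit 0, nat_lit 0, nat_lit 0, nat_lit 0, nat_lit 0, nat_lit 98360, nat_lit 0, nat_lit 0, [(nat_lit 12, [(nat_lit 3, nat_lit 27), (nat_lit 4, nat_lit 374)])],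
 ⟨p058_k43, nat_lit 0, nat_lit 0, nat_lit 162, nat_lit 0, nat_lit 201021, [nat_lit 4109703600, nat_lit 3630410001, nat_lit 4314209399], [], [nat_lit 19066590296, nat_lit 19854961081, nat_lit 18526246774, nat_lit 19302069669, nat_lit 22380675640, nat_lit 23116932798, nat_lit 21790307334, nat_lit 22461286133], nat_lit 1271250, nat_lit 1271250, nat_lit 382400, nat_lit 490000, nat_lit 1271250, nat_lit 1271250, [nat_lit 780000, nat_lit 1435000, nat_lit 1271250], [nat_lit 18, nat_lit 40, nat_lit 40, nat_lit 80, nat_lit 2, nat_lit 226, nat_lit 20, nat_lit 7]⟩, ⟨p058_k37, nat_lit 0, nat_lit 0, nat_lit 207, nat_lit 0, nat_lit 223471, [nat_lit 2808112000, nat_lit 4772832000, nat_lit 5895358000], [], [nat_lit 11177190470, nat_lit 11593550827, nat_lit 10704300376, nat_lit 11114064250, nat_lit 13991516538, nat_lit 14476651299, nat_lit 13474329915, nat_lit 13858652944], nat_lit 1271250, nat_lit 1271250, nat_lit 382400, nat_lit 490000,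 nat_lit 1271250, nat_lit 1271250, [nat_lit 1100000, nat_lit 1785000, nat_lit 1271250], [nat_lit 29, nat_lit 40, nat_lit 40, nat_lit 80, nat_lit 17, nat_lit 401, nat_lit 175, nat_lit 11]⟩,
 ⟨nat_lit 5000, nat_lit 5245, ⟨.ofNat (nat_lit 326066), .ofNat (nat_lit 355334), .ofNat (nat_lit 336758), .ofNat (nat_lit 366025), .ofNat (nat_lit 332141), .ofNat (nat_lit 360712), .ofNat (nat_lit 342855), .ofNat (nat_lit 371426)⟩, ⟨.ofNat (nat_lit 423472), .ofNat (nat_lit 518594), .ofNat (nat_lit 444857), .ofNat (nat_lit 539979), .ofNat (nat_lit 421427), .ofNat (nat_lit 514284), .ofNat (nat_lit 442856), .ofNat (nat_lit 535713)⟩⟩, [⟨nat_lit 0, nat_lit 100, nat_lit 95, nat_lit 83, nat_lit 496389460⟩, ⟨nat_lit 4, nat_lit 100, nat_lit 94, nat_lit 81, nat_lit 283253488⟩, ⟨nat_lit 19, nat_lit 100, nat_lit 96, nat_lit 82, nat_lit 100688464⟩, ⟨nat_lit 23, nat_lit 100, nat_lit 91, nat_lit 81, nat_lit 327675160⟩]⟩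
noncomputable def p058_l59 : Lf2 := ⟨nat_lit 0, nat_lit 10, [nat_lit 0, nat_lit 5, nat_lit 5, nat_lit 20], false, nat_lit 240, nat_lit 300, nat_lit 240, nat_lit 320, ⟨nat_lit 1000, nat_lit 0, nat_lit 0, nat_lit 0, nat_lit 0, nat_lit 0, nat_lit 0, nat_lit 0, nat_lit 0, nat_lit 0, nat_lit 0, nat_lit 0, nat_lit 0, nat_lit 0, nat_lit 0, nat_lit 0, false, false⟩,
 nat_lit 16914, nat_lit 0, nat_lit 0, nat_lit 7705, nat_lit 8822, nat_lit 9845, nat_lit 1140, nat_lit 0, nat_lit 0, nat_lit 1256, nat_lit 0, nat_lit 0, nat_lit 0, nat_lit 0, nat_lit 0, nat_lit 0, nat_lit 0, nat_lit 0, [],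
 ⟨p058_k16, nat_lit 0, nat_lit 0, nat_lit 148, nat_lit 0, nat_lit 112158, [nat_lit 3282000000, nat_lit 6250000000, nat_lit 9842000000], [], [nat_lit 18689391076, nat_lit 19487701740, nat_lit 17836598340, nat_lit 18591735412, nat_lit 22610638606, nat_lit 23278245220, nat_lit 21606466402, nat_lit 22387374182], nat_lit 1271250, nat_lit 1271250, nat_lit 490000, nat_lit 780000, nat_lit 1271250, nat_lit 1271250, [nat_lit 780000, nat_lit 1435000, nat_lit 1271250], [nat_lit 8, nat_lit 40, nat_lit 40, nat_lit 80, nat_lit 1, nat_lit 345, nat_lit 125, nat_lit 9]⟩, ⟨p058_k36, nat_lit 0, nat_lit 0, nat_lit 156, nat_lit 0, nat_lit 125167, [nat_lit 4688000000, nat_lit 7968000000, nat_lit 9842000000], [], [nat_lit 17691190320, nat_lit 18414385040, nat_lit 16729102100, nat_lit 17410635250, nat_lit 23631976490, nat_lit 24168157575, nat_lit 22386447750, nat_lit 22967570515], nat_lit 1271250, nat_lit 1271250, nat_lit 490000, nat_lit 780000,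 nat_lit 1271250, nat_lit 1271250, [nat_lit 1100000, nat_lit 1785000, nat_lit 1271250], [nat_lit 29, nat_lit 40, nat_lit 40, nat_lit 80, nat_lit 17, nat_lit 428, nat_lit 200, nat_lit 12]⟩,
 zbF0, [⟨nat_lit 4, nat_lit 100, nat_lit 99, nat_lit 83, nat_lit 503804323⟩, ⟨nat_lit 19, nat_lit 100, nat_lit 91, nat_lit 80, nat_lit 578361703⟩, ⟨nat_lit 11, nat_lit 100, nat_lit 100, nat_lit 100, nat_lit 140934479⟩]⟩
noncomputable def p058_l60 : Lf2 := ⟨nat_lit 0, nat_lit 10, [nat_lit 0, nat_lit 5, nat_lit 5, nat_lit 20], false, nat_lit 240, nat_lit 300, nat_lit 240, nat_lit 308, ⟨nat_lit 1000, nat_lit 0, nat_lit 0, nat_lit 0, nat_lit 0, nat_lit 0, nat_lit 0, nat_lit 0, nat_lit 0, nat_lit 0, nat_lit 0, nat_lit 0, nat_lit 0, nat_lit 0, nat_lit 0, nat_lit 0, false, false⟩,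
 nat_lit 14726, nat_lit 0, nat_lit 0, nat_lit 7469, nat_lit 8822, nat_lit 8968, nat_lit 1140, nat_lit 0, nat_lit 0, nat_lit 1283, nat_lit 0, nat_lit 0, nat_lit 0, nat_lit 0, nat_lit 0, nat_lit 0, nat_lit 0, nat_lit 0, [],
 ⟨p058_k16, nat_lit 0, nat_lit 0, nat_lit 164, nat_lit 0, nat_lit 158477, [nat_lit 3282000000, nat_lit 6250000000, nat_lit 9842000000], [], [nat_lit 18689391076, nat_lit 19487701740, nat_lit 17836598340, nat_lit 18591735412, nat_lit 22610638606, nat_lit 23278245220, nat_lit 21606466402, nat_lit 22387374182], nat_lit 1271250, nat_lit 1271250, nat_lit 490000, nat_lit 780000, nat_lit 1271250, nat_lit 1271250, [nat_lit 780000, nat_lit 1435000, nat_lit 1271250], [nat_lit 8, nat_lit 40, nat_lit 40, nat_lit 80, nat_lit 1, nat_lit 345, nat_lit 125, nat_lit 9]⟩, ⟨p058_k37, nat_lit 0, nat_lit 0, nat_lit 171, nat_lit 0, nat_lit 167247, [nat_lit 4688000000, nat_lit 7968000000, nat_lit 9842000000], [], [nat_lit 17979577401,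 nat_lit 18664731369, nat_lit 17137881425, nat_lit 17784448585, nat_lit 22611312490, nat_lit 23151416052, nat_lit 21563823583, nat_lit 22145147456], nat_lit 1271250, nat_lit 1271250, nat_lit 490000, nat_lit 780000, nat_lit 1271250, nat_lit 1271250, [nat_lit 1100000, nat_lit 1785000, nat_lit 1271250], [nat_lit 29, nat_lit 40, nat_lit 40, nat_lit 80, nat_lit 17, nat_lit 428, nat_lit 200, nat_lit 12]⟩,
 zbF0, [⟨nat_lit 4, nat_lit 100, nat_lit 99, nat_lit 83, nat_lit 451586078⟩, ⟨nat_lit 7, nat_lit 96, nat_lit 100, nat_lit 82, nat_lit 471991081⟩, ⟨nat_lit 11, nat_lit 100, nat_lit 100, nat_lit 100, nat_lit 183842211⟩]⟩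
noncomputable def p058_l61 : Lf2 := ⟨nat_lit 0, nat_lit 10, [nat_lit 0, nat_lit 5, nat_lit 5, nat_lit 20], false, nat_lit 240, nat_lit 292, nat_lit 240, nat_lit 320, ⟨nat_lit 618, nat_lit 0, nat_lit 382, nat_lit 6, nat_lit 158, nat_lit 382, nat_lit 192, nat_lit 382, nat_lit 8501, nat_lit 237, nat_lit 232067, nat_lit 333, nat_lit 46118554, nat_lit 0, nat_lit 0, nat_lit 4470541, false, false⟩,
 nat_lit 10228, nat_lit 0, nat_lit 0, nat_lit 0, nat_lit 6792, nat_lit 5953, nat_lit 470, nat_lit 0, nat_lit 0, nat_lit 757, nat_lit 0, nat_lit 0, nat_lit 0, nat_lit 0, nat_lit 0, nat_lit 93750, nat_lit 0, nat_lit 0, [(nat_lit 12, [(nat_lit 3, nat_lit 25), (nat_lit 4, nat_lit 357)])],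
 ⟨p058_k43, nat_lit 0, nat_lit 0, nat_lit 151, nat_lit 0, nat_lit 201021, [nat_lit 4039080000, nat_lit 3754447200, nat_lit 4485310800], [], [nat_lit 18432749352, nat_lit 19111327104, nat_lit 18132265408, nat_lit 18775054480, nat_lit 21555564486, nat_lit 22235093224, nat_lit 21003882703, nat_lit 21630619562], nat_lit 1271250, nat_lit 1271250, nat_lit 490000, nat_lit 780000, nat_lit 1271250, nat_lit 1271250, [nat_lit 780000, nat_lit 1435000, nat_lit 1271250], [nat_lit 18, nat_lit 40, nat_lit 40, nat_lit 80, nat_lit 2, nat_lit 238, nat_lit 30, nat_lit 7]⟩, ⟨p058_k36, nat_lit 0, nat_lit 0, nat_lit 204, nat_lit 0, nat_lit 236312, [nat_lit 2897184000, nat_lit 4924224000, nat_lit 6082356000], [], [nat_lit 11125363988, nat_lit 12007849932, nat_lit 10554578692, nat_lit 11386490980, nat_lit 14749011238, nat_lit 15404902936, nat_lit 13975203184, nat_lit 14668730656], nat_lit 1271250, nat_lit 1271250, nat_lit 490000, nat_lit 780000,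 nat_lit 1271250, nat_lit 1271250, [nat_lit 1100000, nat_lit 1785000, nat_lit 1271250], [nat_lit 29, nat_lit 40, nat_lit 40, nat_lit 80, nat_lit 17, nat_lit 428, nat_lit 200, nat_lit 12]⟩,
 ⟨nat_lit 5000, nat_lit 5245, ⟨.ofNat (nat_lit 344641), .ofNat (nat_lit 417811), .ofNat (nat_lit 366025), .ofNat (nat_lit 439194), .ofNat (nat_lit 349999), .ofNat (nat_lit 421425), .ofNat (nat_lit 371426), .ofNat (nat_lit 442852)⟩, ⟨.ofNat (nat_lit 423472), .ofNat (nat_lit 518594), .ofNat (nat_lit 444857), .ofNat (nat_lit 539979), .ofNat (nat_lit 421427), .ofNat (nat_lit 514284), .ofNat (nat_lit 442856), .ofNat (nat_lit 535713)⟩⟩, [⟨nat_lit 16, nat_lit 100, nat_lit 100, nat_lit 89, nat_lit 383290487⟩, ⟨nat_lit 7, nat_lit 93, nat_lit 100, nat_lit 81, nat_lit 314761087⟩, ⟨nat_lit 11, nat_lit 100, nat_lit 100, nat_lit 100, nat_lit 107970688⟩]⟩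
noncomputable def p058_l62 : Lf2 := ⟨nat_lit 0, nat_lit 10, [nat_lit 0, nat_lit 5, nat_lit 5, nat_lit 20], false, nat_lit 240, nat_lit 280, nat_lit 240, nat_lit 320, ⟨nat_lit 285, nat_lit 0, nat_lit 715, nat_lit 6, nat_lit 155, nat_lit 715, nat_lit 182, nat_lit 715, nat_lit 24746, nat_lit 252, nat_lit 224267, nat_lit 331, nat_lit 47184909, nat_lit 0, nat_lit 0, nat_lit 4345064, false, false⟩,
 nat_lit 5475, nat_lit 727, nat_lit 0, nat_lit 0, nat_lit 4293, nat_lit 3186, nat_lit 0, nat_lit 0, nat_lit 0, nat_lit 245, nat_lit 0, nat_lit 0, nat_lit 0, nat_lit 0, nat_lit 20, nat_lit 513400, nat_lit 0, nat_lit 0, [(nat_lit 15, [(nat_lit 5, nat_lit 336), (nat_lit 6, nat_lit 379)])],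
 ⟨p058_k25, nat_lit 0, nat_lit 0, nat_lit 259, nat_lit 0, nat_lit 401247, [nat_lit 1988697201, nat_lit 987599601, nat_lit 13200199], [], [nat_lit 18413670443, nat_lit 19370301392, nat_lit 18305681931, nat_lit 19222100833, nat_lit 20157775749, nat_lit 21663029233, nat_lit 19816809691, nat_lit 21179078358], nat_lit 1271250, nat_lit 1271250, nat_lit 382400, nat_lit 780000, nat_lit 1271250, nat_lit 1271250, [nat_lit 780000, nat_lit 1435000, nat_lit 1271250], [nat_lit 18, nat_lit 40, nat_lit 40, nat_lit 80, nat_lit 2, nat_lit 238, nat_lit 30, nat_lit 7]⟩, ⟨p058_k36, nat_lit 0, nat_lit 0, nat_lit 345, nat_lit 0, nat_lit 496021, [nat_lit 1336080000, nat_lit 2270880000, nat_lit 2804970000], [], [nat_lit 5745347708, nat_lit 6063943913, nat_lit 5114506572, nat_lit 5389069320, nat_lit 7473529544, nat_lit 7807438981, nat_lit 6695711658, nat_lit 7002111072], nat_lit 1271250, nat_lit 1271250, nat_lit 382400, nat_lit 780000, nat_lit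 1271250, nat_lit 1271250, [nat_lit 1100000, nat_lit 1785000, nat_lit 1271250], [nat_lit 29, nat_lit 40, nat_lit 40, nat_lit 80, nat_lit 17, nat_lit 428, nat_lit 200, nat_lit 12]⟩,
 ⟨nat_lit 4472, nat_lit 5000, ⟨.ofNat (nat_lit 321407), .ofNat (nat_lit 421400), .ofNat (nat_lit 342823), .ofNat (nat_lit 442816), .ofNat (nat_lit 333552), .ofNat (nat_lit 428715), .ofNat (nat_lit 355106), .ofNat (nat_lit 450269)⟩, ⟨.ofNat (nat_lit 399998), .ofNat (nat_lit 471427), .ofNat (nat_lit 442856), .ofNat (nat_lit 514284), .ofNat (nat_lit 395445), .ofNat (nat_lit 463423), .ofNat (nat_lit 438578), .ofNat (nat_lit 506556)⟩⟩, [⟨nat_lit 0, nat_lit 100, nat_lit 89, nat_lit 86, nat_lit 327109331⟩, ⟨nat_lit 16, nat_lit 94, nat_lit 100, nat_lit 87, nat_lit 252692497⟩, ⟨nat_lit 19, nat_lit 100, nat_lit 85, nat_lit 84, nat_lit 140594918⟩, ⟨nat_lit 11, nat_lit 100, nat_lit 100, nat_lit 96, nat_lit 54534808⟩]⟩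
noncomputable def b_V_700_600_10_26 : St := ⟨true, nat_lit 1, nat_lit 1, nat_lit 1, nat_lit 80, nat_lit 280, nat_lit 320, nat_lit 260, nat_lit 280, nat_lit 48, nat_lit 120, nat_lit 40, nat_lit 80, nat_lit 240, nat_lit 300, nat_lit 240, nat_lit 320, nat_lit 0, nat_lit 40, nat_lit 0, nat_lit 0, nat_lit 0, nat_lit 0⟩
theorem d_V_700_600_10_26 (h : EB TB.env) : Dead b_V_700_600_10_26 := chkB_sound0 h (T :=
(.spl (nat_lit 6) (nat_lit 20)
(.spl (nat_lit 0) (nat_lit 300)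
(.spl (nat_lit 2) (nat_lit 80)
(.spl (nat_lit 4) (nat_lit 280)
(.spl (nat_lit 3) (nat_lit 60)
(.trX (nat_lit 16) (nat_lit 99) (nat_lit 100) (nat_lit 77) (nat_lit 276) (.trX (nat_lit 19) (nat_lit 100) (nat_lit 92) (nat_lit 75) (nat_lit 296) (.leaf p058_l42)))
(.leaf p058_l43))
(.trX (nat_lit 23) (nat_lit 100) (nat_lit 95) (nat_lit 87) (nat_lit 300) (.leaf p058_l44)))
(.leaf p058_l45))
(.trZ (nat_lit 0) (nat_lit 100) (nat_lit 91) (nat_lit 77) (nat_lit 64) (.trX (nat_lit 16) (nat_lit 94) (nat_lit 100) (nat_lit 87) (nat_lit 280) (.leaf p058_l46))))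
(.spl (nat_lit 0) (nat_lit 300)
(.spl (nat_lit 3) (nat_lit 60)
(.trX (nat_lit 16) (nat_lit 99) (nat_lit 100) (nat_lit 77) (nat_lit 276) (.trX (nat_lit 19) (nat_lit 100) (nat_lit 92) (nat_lit 75) (nat_lit 296) (.spl (nat_lit 1) (nat_lit 270)
(.leaf p058_l47)
(.trZ (nat_lit 0) (nat_lit 100) (nat_lit 98) (nat_lit 74) (nat_lit 56) (.trX (nat_lit 19) (nat_lit 100) (nat_lit 97) (nat_lit 76) (nat_lit 288) (.spl (nat_lit 6) (nat_lit 32)
(.leaf p058_l48)
(.leaf p058_l49)))))))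
(.spl (nat_lit 2) (nat_lit 80)
(.spl (nat_lit 1) (nat_lit 270)
(.spl (nat_lit 4) (nat_lit 280)
(.spl (nat_lit 6) (nat_lit 32)
(.leaf p058_l50)
(.leaf p058_l51))
(.trX (nat_lit 23) (nat_lit 100) (nat_lit 95) (nat_lit 87) (nat_lit 300) (.spl (nat_lit 6) (nat_lit 32)
(.leaf p058_l52)
(.leaf p058_l53))))
(.trZ (nat_lit 0) (nat_lit 100) (nat_lit 98) (nat_lit 74) (nat_lit 56) (.trX (nat_lit 19) (nat_lit 100) (nat_lit 90) (nat_lit 85) (nat_lit 308) (.spl (nat_lit 0) (nat_lit 290)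
(.spl (nat_lit 6) (nat_lit 32)
(.leaf p058_l54)
(.spl (nat_lit 6) (nat_lit 36)
(.leaf p058_l55)
(.spl (nat_lit 0) (nat_lit 285)
(.leaf p058_l56)
(.trZ (nat_lit 0) (nat_lit 100) (nat_lit 97) (nat_lit 76) (nat_lit 60) (.trX (nat_lit 16) (nat_lit 100) (nat_lit 98) (nat_lit 88) (nat_lit 296) (.leaf p058_l57))))))
(.trZ (nat_lit 0) (nat_lit 100) (nat_lit 95) (nat_lit 78) (nat_lit 64) (.trX (nat_lit 16) (nat_lit 100) (nat_lit 100) (nat_lit 89) (nat_lit 292) (.leaf p058_l58)))))))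
(.spl (nat_lit 0) (nat_lit 290)
(.spl (nat_lit 1) (nat_lit 270)
(.leaf p058_l59)
(.trX (nat_lit 19) (nat_lit 100) (nat_lit 90) (nat_lit 85) (nat_lit 308) (.leaf p058_l60)))
(.trX (nat_lit 16) (nat_lit 100) (nat_lit 100) (nat_lit 89) (nat_lit 292) (.leaf p058_l61)))))
(.trZ (nat_lit 0) (nat_lit 100) (nat_lit 91) (nat_lit 77) (nat_lit 64) (.trX (nat_lit 16) (nat_lit 94) (nat_lit 100) (nat_lit 87) (nat_lit 280) (.leaf p058_l62)))))) (by decide +kernel)
noncomputable def p058_l63 : Lf2 := ⟨nat_lit 0, nat_lit 10, [nat_lit 0, nat_lit 5, nat_lit 5, nat_lit 20], false, nat_lit 240, nat_lit 300, nat_lit 0, nat_lit 160, ⟨nat_lit 283, nat_lit 0, nat_lit 717, nat_lit 6, nat_lit 179, nat_lit 717, nat_lit 190, nat_lit 717, nat_lit 3701, nat_lit 228, nat_lit 40017, nat_lit 264, nat_lit 44761468, nat_lit 0, nat_lit 0, nat_lit 4653535, false, false⟩,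
 nat_lit 4269, nat_lit 2725, nat_lit 0, nat_lit 0, nat_lit 4450, nat_lit 2260, nat_lit 184, nat_lit 0, nat_lit 0, nat_lit 0, nat_lit 0, nat_lit 0, nat_lit 0, nat_lit 0, nat_lit 49, nat_lit 717000, nat_lit 0, nat_lit 0, [(nat_lit 12, [(nat_lit 6, nat_lit 717)]), (nat_lit 15, [(nat_lit 6, nat_lit 717)])],
 ⟨p058_k32, nat_lit 0, nat_lit 0, nat_lit 330, nat_lit 0, nat_lit 567528, [nat_lit 2219466000, nat_lit 2351616000, nat_lit 389594400], [], [nat_lit 17135916400, nat_lit 19205154200, nat_lit 17698138800, nat_lit 19532373200, nat_lit 19799876200, nat_lit 22465751050, nat_lit 20258484700, nat_lit 22831722700], nat_lit 1271250, nat_lit 1271250, nat_lit 780000, nat_lit 1100001, nat_lit 1271250, nat_lit 1271250, [nat_lit 780000, nat_lit 1100000, nat_lit 2127500], [nat_lit 42, nat_lit 40, nat_lit 40, nat_lit 80, nat_lit 13, nat_lit 345, nat_lit 125, nat_lit 9]⟩, ⟨p058_k44, nat_lit 0, nat_lit 0, nat_lit 641, nat_lit 0, nat_lit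 713048, [nat_lit 1326704000, nat_lit 1768750000, nat_lit 3359776000], [], [nat_lit 12199335796, nat_lit 11004387916, nat_lit 10677646296, nat_lit 10813045060, nat_lit 9562407496, nat_lit 9677933618, nat_lit 9845706180, nat_lit 9589644700], nat_lit 1271250, nat_lit 1271250, nat_lit 780000, nat_lit 1100001, nat_lit 0, nat_lit 1100001, [nat_lit 1100000, nat_lit 1442500, nat_lit 1271250], [nat_lit 48, nat_lit 40, nat_lit 40, nat_lit 80, nat_lit 12, nat_lit 373, nat_lit 150, nat_lit 10]⟩,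
 ⟨nat_lit 4472, nat_lit 5478, ⟨.ofNat (nat_lit 392815), .ofNat (nat_lit 467727), .ofNat (nat_lit 414138), .ofNat (nat_lit 489040), .ofNat (nat_lit 407143), .ofNat (nat_lit 475101), .ofNat (nat_lit 428676), .ofNat (nat_lit 496623)⟩, ⟨.ofNat (nat_lit 404075), .ofNat (nat_lit 516475), .ofNat (nat_lit 446789), .ofNat (nat_lit 559189), .ofNat (nat_lit 395445), .ofNat (nat_lit 497412), .ofNat (nat_lit 438578), .ofNat (nat_lit 540545)⟩⟩, [⟨nat_lit 16, nat_lit 100, nat_lit 95, nat_lit 87, nat_lit 133306863⟩, ⟨nat_lit 4, nat_lit 100, nat_lit 90, nat_lit 74, nat_lit 362983949⟩]⟩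
noncomputable def p058_l64 : Lf2 := ⟨nat_lit 0, nat_lit 10, [nat_lit 0, nat_lit 5, nat_lit 5, nat_lit 20], false, nat_lit 240, nat_lit 300, nat_lit 0, nat_lit 160, ⟨nat_lit 487, nat_lit 101, nat_lit 412, nat_lit 6, nat_lit 187, nat_lit 513, nat_lit 190, nat_lit 412, nat_lit 3701, nat_lit 228, nat_lit 19267, nat_lit 249, nat_lit 44125601, nat_lit 11303189, nat_lit 11571210, nat_lit 4728338, false, false⟩,
 nat_lit 11389, nat_lit 0, nat_lit 0, nat_lit 0, nat_lit 7247, nat_lit 6629, nat_lit 686, nat_lit 0, nat_lit 0, nat_lit 1348, nat_lit 0, nat_lit 0, nat_lit 0, nat_lit 0, nat_lit 0, nat_lit 142490, nat_lit 0, nat_lit 0, [(nat_lit 12, [(nat_lit 1, nat_lit 101), (nat_lit 3, nat_lit 13), (nat_lit 4, nat_lit 399)]), (nat_lit 15, [(nat_lit 1, nat_lit 101), (nat_lit 3, nat_lit 13), (nat_lit 4, nat_lit 399)])],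
 ⟨p058_k16, nat_lit 0, nat_lit 0, nat_lit 364, nat_lit 0, nat_lit 644983, [nat_lit 3367484800, nat_lit 3200444000, nat_lit 4455922800], [], [nat_lit 16691824700, nat_lit 19588410760, nat_lit 16829296798, nat_lit 19899439260, nat_lit 20662058984, nat_lit 24243996943, nat_lit 20903937202, nat_lit 24259104522], nat_lit 1271250, nat_lit 1271250, nat_lit 780000, nat_lit 1100001, nat_lit 1271250, nat_lit 1271250, [nat_lit 780000, nat_lit 1435000, nat_lit 1271250], [nat_lit 8, nat_lit 40, nat_lit 40, nat_lit 80, nat_lit 1, nat_lit 345, nat_lit 125, nat_lit 9]⟩, ⟨p058_k36, nat_lit 0, nat_lit 0, nat_lit 550, nat_lit 0, nat_lit 719790, [nat_lit 2283056000, nat_lit 3880416000, nat_lit 4793054000], [], [nat_lit 13318567438, nat_lit 10167301480, nat_lit 8432900080, nat_lit 10386209128, nat_lit 10585236626, nat_lit 7503401268, nat_lit 13570710144, nat_lit 10529510556], nat_lit 1271250, nat_lit 1271250, nat_lit 780000, nat_lit 1100001,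 nat_lit 0, nat_lit 1100001, [nat_lit 1100000, nat_lit 1785000, nat_lit 1271250], [nat_lit 29, nat_lit 40, nat_lit 40, nat_lit 80, nat_lit 17, nat_lit 373, nat_lit 150, nat_lit 11]⟩,
 ⟨nat_lit 4472, nat_lit 5478, ⟨.ofNat (nat_lit 414138), .ofNat (nat_lit 489040), .ofNat (nat_lit 435455), .ofNat (nat_lit 510352), .ofNat (nat_lit 428676), .ofNat (nat_lit 496623), .ofNat (nat_lit 450202), .ofNat (nat_lit 518145)⟩, ⟨.ofNat (nat_lit 404075), .ofNat (nat_lit 516475), .ofNat (nat_lit 446789), .ofNat (nat_lit 559189), .ofNat (nat_lit 395445), .ofNat (nat_lit 497412), .ofNat (nat_lit 438578), .ofNat (nat_lit 540545)⟩⟩, [⟨nat_lit 4, nat_lit 100, nat_lit 90, nat_lit 74, nat_lit 733393568⟩]⟩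
noncomputable def p058_l65 : Lf2 := ⟨nat_lit 0, nat_lit 10, [nat_lit 0, nat_lit 5, nat_lit 5, nat_lit 20], false, nat_lit 240, nat_lit 300, nat_lit 160, nat_lit 336, ⟨nat_lit 231, nat_lit 0, nat_lit 769, nat_lit 6, nat_lit 177, nat_lit 769, nat_lit 191, nat_lit 769, nat_lit 3701, nat_lit 228, nat_lit 45067, nat_lit 267, nat_lit 44733046, nat_lit 0, nat_lit 0, nat_lit 4655615, false, false⟩,
 nat_lit 4997, nat_lit 1935, nat_lit 0, nat_lit 0, nat_lit 4411, nat_lit 2645, nat_lit 105, nat_lit 0, nat_lit 0, nat_lit 306, nat_lit 0, nat_lit 0, nat_lit 0, nat_lit 0, nat_lit 48, nat_lit 593800, nat_lit 0, nat_lit 0, [(nat_lit 12, [(nat_lit 5, nat_lit 292), (nat_lit 6, nat_lit 477)])],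
 ⟨p058_k16, nat_lit 0, nat_lit 0, nat_lit 289, nat_lit 0, nat_lit 442807, [nat_lit 2240808001, nat_lit 1709762134, nat_lit 327400400], [], [nat_lit 17339107053, nat_lit 18388740517, nat_lit 17787320401, nat_lit 18759468115, nat_lit 20035272269, nat_lit 21082614626, nat_lit 20313107743, nat_lit 21530652406], nat_lit 1271250, nat_lit 1271250, nat_lit 780000, nat_lit 1100001, nat_lit 1271250, nat_lit 1271250, [nat_lit 780000, nat_lit 1435000, nat_lit 1271250], [nat_lit 8, nat_lit 40, nat_lit 40, nat_lit 80, nat_lit 1, nat_lit 345, nat_lit 125, nat_lit 9]⟩, ⟨p058_k22, nat_lit 0, nat_lit 0, nat_lit 396, nat_lit 0, nat_lit 556347, [nat_lit 1082928000, nat_lit 1840608000, nat_lit 2742432000], [], [nat_lit 7694143552, nat_lit 6316685742, nat_lit 7449599736, nat_lit 6168472826, nat_lit 5607388344, nat_lit 5807857891, nat_lit 5443548956, nat_lit 5720255796], nat_lit 1271250, nat_lit 1271250, nat_lit 780000, nat_lit 1100001, nat_lit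 1271250, nat_lit 1271250, [nat_lit 1100000, nat_lit 1785000, nat_lit 1271250], [nat_lit 21, nat_lit 40, nat_lit 40, nat_lit 80, nat_lit 14, nat_lit 428, nat_lit 200, nat_lit 11]⟩,
 ⟨nat_lit 5000, nat_lit 5478, ⟨.ofNat (nat_lit 392847), .ofNat (nat_lit 467773), .ofNat (nat_lit 414199), .ofNat (nat_lit 489121), .ofNat (nat_lit 399998), .ofNat (nat_lit 471421), .ofNat (nat_lit 421423), .ofNat (nat_lit 492840)⟩, ⟨.ofNat (nat_lit 404075), .ofNat (nat_lit 516475), .ofNat (nat_lit 446789), .ofNat (nat_lit 559189), .ofNat (nat_lit 399998), .ofNat (nat_lit 507141), .ofNat (nat_lit 442856), .ofNat (nat_lit 549998)⟩⟩, [⟨nat_lit 16, nat_lit 94, nat_lit 100, nat_lit 75, nat_lit 82718636⟩, ⟨nat_lit 16, nat_lit 100, nat_lit 95, nat_lit 87, nat_lit 258103931⟩, ⟨nat_lit 7, nat_lit 88, nat_lit 100, nat_lit 74, nat_lit 45154856⟩]⟩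
noncomputable def p058_l66 : Lf2 := ⟨nat_lit 0, nat_lit 10, [nat_lit 0, nat_lit 5, nat_lit 5, nat_lit 20], false, nat_lit 240, nat_lit 280, nat_lit 160, nat_lit 336, ⟨nat_lit 295, nat_lit 0, nat_lit 705, nat_lit 6, nat_lit 180, nat_lit 705, nat_lit 182, nat_lit 705, nat_lit 24746, nat_lit 252, nat_lit 40017, nat_lit 264, nat_lit 45316562, nat_lit 0, nat_lit 0, nat_lit 4590922, false, false⟩,
 nat_lit 6379, nat_lit 0, nat_lit 0, nat_lit 0, nat_lit 4416, nat_lit 3377, nat_lit 0, nat_lit 0, nat_lit 0, nat_lit 390, nat_lit 0, nat_lit 0, nat_lit 0, nat_lit 0, nat_lit 40, nat_lit 622200, nat_lit 0, nat_lit 0, [(nat_lit 15, [(nat_lit 5, nat_lit 138), (nat_lit 6, nat_lit 567)])],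
 ⟨p058_k25, nat_lit 0, nat_lit 0, nat_lit 272, nat_lit 0, nat_lit 512338, [nat_lit 2185347600, nat_lit 1209394801, nat_lit 22851600], [], [nat_lit 17574075745, nat_lit 18837969280, nat_lit 18073644449, nat_lit 19410865280, nat_lit 19803971024, nat_lit 21242079696, nat_lit 20324833200, nat_lit 21679869504], nat_lit 1271250, nat_lit 1271250, nat_lit 780000, nat_lit 1100001, nat_lit 1271250, nat_lit 1271250, [nat_lit 780000, nat_lit 1435000, nat_lit 1271250], [nat_lit 18, nat_lit 40, nat_lit 40, nat_lit 80, nat_lit 2, nat_lit 249, nat_lit 40, nat_lit 7]⟩, ⟨p058_k22, nat_lit 0, nat_lit 0, nat_lit 506, nat_lit 0, nat_lit 713048, [nat_lit 1382960000, nat_lit 2350560000, nat_lit 3502240000], [], [nat_lit 9825474768, nat_lit 8066807462, nat_lit 9513884824, nat_lit 7878207858, nat_lit 7166450037, nat_lit 7416518179, nat_lit 6953217730, nat_lit 7304739409], nat_lit 1271250, nat_lit 1271250, nat_lit 780000, nat_lit 1100001, nat_lit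 1271250, nat_lit 1271250, [nat_lit 1100000, nat_lit 1785000, nat_lit 1271250], [nat_lit 21, nat_lit 40, nat_lit 40, nat_lit 80, nat_lit 14, nat_lit 428, nat_lit 200, nat_lit 11]⟩,
 ⟨nat_lit 4472, nat_lit 5000, ⟨.ofNat (nat_lit 399984), .ofNat (nat_lit 471408), .ofNat (nat_lit 421400), .ofNat (nat_lit 492824), .ofNat (nat_lit 407160), .ofNat (nat_lit 475134), .ofNat (nat_lit 428715), .ofNat (nat_lit 496688)⟩, ⟨.ofNat (nat_lit 399998), .ofNat (nat_lit 471427), .ofNat (nat_lit 442856), .ofNat (nat_lit 514284), .ofNat (nat_lit 395445), .ofNat (nat_lit 463423), .ofNat (nat_lit 438578), .ofNat (nat_lit 506556)⟩⟩, [⟨nat_lit 16, nat_lit 94, nat_lit 100, nat_lit 87, nat_lit 465210963⟩, ⟨nat_lit 19, nat_lit 100, nat_lit 76, nat_lit 82, nat_lit 30076081⟩]⟩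
noncomputable def p058_l67 : Lf2 := ⟨nat_lit 0, nat_lit 10, [nat_lit 0, nat_lit 5, nat_lit 5, nat_lit 20], false, nat_lit 240, nat_lit 300, nat_lit 160, nat_lit 320, ⟨nat_lit 1000, nat_lit 0, nat_lit 0, nat_lit 0, nat_lit 0, nat_lit 0, nat_lit 0, nat_lit 0, nat_lit 0, nat_lit 0, nat_lit 0, nat_lit 0, nat_lit 0, nat_lit 0, nat_lit 0, nat_lit 0, false, false⟩,
 nat_lit 15309, nat_lit 0, nat_lit 0, nat_lit 0, nat_lit 9602, nat_lit 8911, nat_lit 1095, nat_lit 0, nat_lit 0, nat_lit 1660, nat_lit 0, nat_lit 0, nat_lit 0, nat_lit 0, nat_lit 0, nat_lit 0, nat_lit 0, nat_lit 0, [],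
 ⟨p058_k16, nat_lit 0, nat_lit 0, nat_lit 321, nat_lit 0, nat_lit 529661, [nat_lit 3282000000, nat_lit 6250000000, nat_lit 9842000000], [], [nat_lit 17654839691, nat_lit 19056644388, nat_lit 17620147712, nat_lit 19004879232, nat_lit 21440791544, nat_lit 23591012241, nat_lit 21447391132, nat_lit 23454156692], nat_lit 1271250, nat_lit 1271250, nat_lit 780000, nat_lit 1100001, nat_lit 1271250, nat_lit 1271250, [nat_lit 780000, nat_lit 1435000, nat_lit 1271250], [nat_lit 8, nat_lit 40, nat_lit 40, nat_lit 80, nat_lit 1, nat_lit 345, nat_lit 125, nat_lit 9]⟩, ⟨p058_k36, nat_lit 0, nat_lit 0, nat_lit 354, nat_lit 0, nat_lit 591092, [nat_lit 4688000000, nat_lit 7968000000, nat_lit 9842000000], [], [nat_lit 24744128846, nat_lit 20103476088, nat_lit 26213598734, nat_lit 21897484596, nat_lit 22746678248, nat_lit 23479644064, nat_lit 22388661416, nat_lit 23244887156], nat_lit 1271250, nat_lit 1271250, nat_lit 780000, nat_lit 1100001,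 nat_lit 1271250, nat_lit 1271250, [nat_lit 1100000, nat_lit 1785000, nat_lit 1271250], [nat_lit 29, nat_lit 40, nat_lit 40, nat_lit 80, nat_lit 17, nat_lit 428, nat_lit 200, nat_lit 12]⟩,
 zbF0, [⟨nat_lit 16, nat_lit 100, nat_lit 95, nat_lit 87, nat_lit 709342196⟩, ⟨nat_lit 19, nat_lit 100, nat_lit 85, nat_lit 84, nat_lit 215034155⟩]⟩
noncomputable def p058_l68 : Lf2 := ⟨nat_lit 0, nat_lit 10, [nat_lit 0, nat_lit 5, nat_lit 5, nat_lit 20], false, nat_lit 240, nat_lit 280, nat_lit 160, nat_lit 320, ⟨nat_lit 499, nat_lit 0, nat_lit 501, nat_lit 6, nat_lit 188, nat_lit 501, nat_lit 182, nat_lit 501, nat_lit 24746, nat_lit 252, nat_lit 19267, nat_lit 249, nat_lit 44661674, nat_lit 0, nat_lit 0, nat_lit 4666693, false, false⟩,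
 nat_lit 7834, nat_lit 0, nat_lit 0, nat_lit 0, nat_lit 5423, nat_lit 4559, nat_lit 183, nat_lit 0, nat_lit 0, nat_lit 751, nat_lit 0, nat_lit 0, nat_lit 0, nat_lit 0, nat_lit 0, nat_lit 501000, nat_lit 0, nat_lit 0, [(nat_lit 15, [(nat_lit 6, nat_lit 501)])],
 ⟨p058_k25, nat_lit 0, nat_lit 0, nat_lit 299, nat_lit 0, nat_lit 582261, [nat_lit 2128698000, nat_lit 1968854801, nat_lit 1343377200], [], [nat_lit 17850768314, nat_lit 19128135673, nat_lit 18224140767, nat_lit 19584653340, nat_lit 20152230897, nat_lit 21757871138, nat_lit 20571749600, nat_lit 22080397712], nat_lit 1271250, nat_lit 1271250, nat_lit 780000, nat_lit 1100001, nat_lit 1271250, nat_lit 1271250, [nat_lit 780000, nat_lit 1435000, nat_lit 1271250], [nat_lit 18, nat_lit 40, nat_lit 40, nat_lit 80, nat_lit 2, nat_lit 249, nat_lit 40, nat_lit 7]⟩, ⟨p058_k36, nat_lit 0, nat_lit 0, nat_lit 436, nat_lit 0, nat_lit 719790, [nat_lit 2339312000, nat_lit 3976032000,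 nat_lit 4911158000], [], [nat_lit 12468814562, nat_lit 10094587660, nat_lit 13108622430, nat_lit 10900434308, nat_lit 11407675220, nat_lit 11776444100, nat_lit 11214758516, nat_lit 11641241988], nat_lit 1271250, nat_lit 1271250, nat_lit 780000, nat_lit 1100001, nat_lit 1271250, nat_lit 1271250, [nat_lit 1100000, nat_lit 1785000, nat_lit 1271250], [nat_lit 29, nat_lit 40, nat_lit 40, nat_lit 80, nat_lit 17, nat_lit 428, nat_lit 200, nat_lit 12]⟩,
 ⟨nat_lit 4472, nat_lit 5000, ⟨.ofNat (nat_lit 421400), .ofNat (nat_lit 492824), .ofNat (nat_lit 442816), .ofNat (nat_lit 514240), .ofNat (nat_lit 428715), .ofNat (nat_lit 496688), .ofNat (nat_lit 450269), .ofNat (nat_lit 518242)⟩, ⟨.ofNat (nat_lit 399998), .ofNat (nat_lit 471427), .ofNat (nat_lit 442856), .ofNat (nat_lit 514284), .ofNat (nat_lit 395445), .ofNat (nat_lit 463423), .ofNat (nat_lit 438578), .ofNat (nat_lit 506556)⟩⟩, [⟨nat_lit 16, nat_lit 94, nat_lit 100, nat_lit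 87, nat_lit 522830360⟩, ⟨nat_lit 19, nat_lit 100, nat_lit 85, nat_lit 84, nat_lit 124081430⟩]⟩
noncomputable def p058_l69 : Lf2 := ⟨nat_lit 0, nat_lit 10, [nat_lit 0, nat_lit 5, nat_lit 5, nat_lit 20], false, nat_lit 240, nat_lit 300, nat_lit 0, nat_lit 160, ⟨nat_lit 474, nat_lit 0, nat_lit 526, nat_lit 6, nat_lit 226, nat_lit 526, nat_lit 190, nat_lit 526, nat_lit 3701, nat_lit 228, nat_lit 49046, nat_lit 200, nat_lit 41242211, nat_lit 0, nat_lit 0, nat_lit 5007927, false, false⟩,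
 nat_lit 7866, nat_lit 738, nat_lit 0, nat_lit 0, nat_lit 5475, nat_lit 4164, nat_lit 338, nat_lit 0, nat_lit 0, nat_lit 441, nat_lit 0, nat_lit 0, nat_lit 0, nat_lit 0, nat_lit 0, nat_lit 526000, nat_lit 0, nat_lit 0, [(nat_lit 12, [(nat_lit 6, nat_lit 526)]), (nat_lit 15, [(nat_lit 6, nat_lit 526)])],
 ⟨p058_k16, nat_lit 0, nat_lit 0, nat_lit 350, nat_lit 0, nat_lit 644983, [nat_lit 2155939201, nat_lit 2369382400, nat_lit 1901083200], [], [nat_lit 18600597050, nat_lit 20607616400, nat_lit 20427544300, nat_lit 22217497100, nat_lit 21169597575, nat_lit 23354806850, nat_lit 22969973800, nat_lit 25399721375], nat_lit 1271250, nat_lit 1271250, nat_lit 1100001, nat_lit 1785000, nat_lit 1271250, nat_lit 1271250, [nat_lit 780000, nat_lit 1435000, nat_lit 1271250], [nat_lit 8, nat_lit 40, nat_lit 40, nat_lit 80, nat_lit 1, nat_lit 373, nat_lit 150, nat_lit 10]⟩, ⟨p058_k22, nat_lit 0, nat_lit 0, nat_lit 662, nat_lit 0, nat_lit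 810363, [nat_lit 2222112000, nat_lit 3776832000, nat_lit 5627328000], [], [nat_lit 20269499448, nat_lit 17432972484, nat_lit 17252599824, nat_lit 17684537448, nat_lit 14467001040, nat_lit 14894695104, nat_lit 17312553024, nat_lit 15019160040], nat_lit 1271250, nat_lit 1271250, nat_lit 1100001, nat_lit 1785000, nat_lit 0, nat_lit 1100001, [nat_lit 1100000, nat_lit 1785000, nat_lit 1271250], [nat_lit 21, nat_lit 40, nat_lit 40, nat_lit 80, nat_lit 14, nat_lit 401, nat_lit 175, nat_lit 10]⟩,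
 ⟨nat_lit 4472, nat_lit 5478, ⟨.ofNat (nat_lit 467727), .ofNat (nat_lit 617523), .ofNat (nat_lit 510352), .ofNat (nat_lit 660148), .ofNat (nat_lit 475101), .ofNat (nat_lit 610987), .ofNat (nat_lit 518145), .ofNat (nat_lit 654031)⟩, ⟨.ofNat (nat_lit 404075), .ofNat (nat_lit 516475), .ofNat (nat_lit 446789), .ofNat (nat_lit 559189), .ofNat (nat_lit 395445), .ofNat (nat_lit 497412), .ofNat (nat_lit 438578), .ofNat (nat_lit 540545)⟩⟩, [⟨nat_lit 16, nat_lit 90, nat_lit 100, nat_lit 74, nat_lit 534317426⟩]⟩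
noncomputable def p058_l70 : Lf2 := ⟨nat_lit 0, nat_lit 10, [nat_lit 0, nat_lit 5, nat_lit 5, nat_lit 20], false, nat_lit 240, nat_lit 300, nat_lit 160, nat_lit 240, ⟨nat_lit 474, nat_lit 0, nat_lit 526, nat_lit 6, nat_lit 226, nat_lit 526, nat_lit 190, nat_lit 526, nat_lit 3701, nat_lit 228, nat_lit 49046, nat_lit 200, nat_lit 41242211, nat_lit 0, nat_lit 0, nat_lit 5007927, false, false⟩,
 nat_lit 7866, nat_lit 738, nat_lit 0, nat_lit 0, nat_lit 5475, nat_lit 4164, nat_lit 338, nat_lit 0, nat_lit 0, nat_lit 441, nat_lit 0, nat_lit 0, nat_lit 0, nat_lit 0, nat_lit 0, nat_lit 526000, nat_lit 0, nat_lit 0, [(nat_lit 12, [(nat_lit 6, nat_lit 526)]), (nat_lit 15, [(nat_lit 6, nat_lit 526)])],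
 ⟨p058_k16, nat_lit 0, nat_lit 0, nat_lit 350, nat_lit 0, nat_lit 644983, [nat_lit 2155939201, nat_lit 2369382400, nat_lit 1901083200], [], [nat_lit 18600597050, nat_lit 20607616400, nat_lit 20427544300, nat_lit 22217497100, nat_lit 21169597575, nat_lit 23354806850, nat_lit 22969973800, nat_lit 25399721375], nat_lit 1271250, nat_lit 1271250, nat_lit 1100001, nat_lit 1785000, nat_lit 1271250, nat_lit 1271250, [nat_lit 780000, nat_lit 1435000, nat_lit 1271250], [nat_lit 8, nat_lit 40, nat_lit 40, nat_lit 80, nat_lit 1, nat_lit 373, nat_lit 150, nat_lit 10]⟩, ⟨p058_k22, nat_lit 0, nat_lit 0, nat_lit 529, nat_lit 0, nat_lit 810363, [nat_lit 2222112000, nat_lit 3776832000, nat_lit 5627328000], [], [nat_lit 18047387448, nat_lit 13644057384, nat_lit 13260249396, nat_lit 13656140484, nat_lit 13260249396, nat_lit 13656140484, nat_lit 15757814472, nat_lit 13907705448], nat_lit 1271250, nat_lit 1271250, nat_lit 1100001, nat_lit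 1785000, nat_lit 1100001, nat_lit 1785000, [nat_lit 1100000, nat_lit 1785000, nat_lit 1271250], [nat_lit 21, nat_lit 40, nat_lit 40, nat_lit 80, nat_lit 14, nat_lit 428, nat_lit 200, nat_lit 10]⟩,
 ⟨nat_lit 4472, nat_lit 5478, ⟨.ofNat (nat_lit 467727), .ofNat (nat_lit 617523), .ofNat (nat_lit 510352), .ofNat (nat_lit 660148), .ofNat (nat_lit 475101), .ofNat (nat_lit 610987), .ofNat (nat_lit 518145), .ofNat (nat_lit 654031)⟩, ⟨.ofNat (nat_lit 404075), .ofNat (nat_lit 516475), .ofNat (nat_lit 446789), .ofNat (nat_lit 559189), .ofNat (nat_lit 395445), .ofNat (nat_lit 497412), .ofNat (nat_lit 438578), .ofNat (nat_lit 540545)⟩⟩, [⟨nat_lit 4, nat_lit 100, nat_lit 90, nat_lit 74, nat_lit 534317426⟩]⟩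
noncomputable def p058_l71 : Lf2 := ⟨nat_lit 0, nat_lit 10, [nat_lit 0, nat_lit 5, nat_lit 5, nat_lit 20], false, nat_lit 240, nat_lit 300, nat_lit 240, nat_lit 336, ⟨nat_lit 439, nat_lit 0, nat_lit 561, nat_lit 6, nat_lit 226, nat_lit 561, nat_lit 190, nat_lit 561, nat_lit 3701, nat_lit 228, nat_lit 49046, nat_lit 200, nat_lit 41242211, nat_lit 0, nat_lit 0, nat_lit 5007927, false, false⟩,
 nat_lit 8980, nat_lit 0, nat_lit 0, nat_lit 0, nat_lit 5714, nat_lit 4753, nat_lit 343, nat_lit 0, nat_lit 0, nat_lit 528, nat_lit 0, nat_lit 0, nat_lit 0, nat_lit 0, nat_lit 0, nat_lit 561000, nat_lit 0, nat_lit 0, [(nat_lit 12, [(nat_lit 6, nat_lit 561)]), (nat_lit 15, [(nat_lit 6, nat_lit 561)])],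
 ⟨p058_k16, nat_lit 0, nat_lit 0, nat_lit 350, nat_lit 0, nat_lit 644983, [nat_lit 2081011201, nat_lit 2111166400, nat_lit 1372695200], [], [nat_lit 17534278784, nat_lit 19634874120, nat_lit 19408509640, nat_lit 22278116104, nat_lit 20550172924, nat_lit 23476774764, nat_lit 23039572512, nat_lit 25521402250], nat_lit 1271250, nat_lit 1271250, nat_lit 1100001, nat_lit 1785000, nat_lit 1271250, nat_lit 1271250, [nat_lit 780000, nat_lit 1435000, nat_lit 1271250], [nat_lit 8, nat_lit 40, nat_lit 40, nat_lit 80, nat_lit 1, nat_lit 373, nat_lit 150, nat_lit 10]⟩, ⟨p058_k22, nat_lit 0, nat_lit 0, nat_lit 509, nat_lit 0, nat_lit 810363, [nat_lit 2058032000, nat_lit 3497952000, nat_lit 5211808000], [], [nat_lit 9391981180, nat_lit 9928502332, nat_lit 10449525988, nat_lit 10058528600, nat_lit 10988028284, nat_lit 11441276447, nat_lit 11240862615, nat_lit 12347743752], nat_lit 1271250, nat_lit 1271250, nat_lit 1100001, nat_lit 1785000,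 nat_lit 1271250, nat_lit 1271250, [nat_lit 1100000, nat_lit 1785000, nat_lit 1271250], [nat_lit 21, nat_lit 40, nat_lit 40, nat_lit 80, nat_lit 14, nat_lit 456, nat_lit 225, nat_lit 11]⟩,
 ⟨nat_lit 4472, nat_lit 5478, ⟨.ofNat (nat_lit 467727), .ofNat (nat_lit 617523), .ofNat (nat_lit 510352), .ofNat (nat_lit 660148), .ofNat (nat_lit 475101), .ofNat (nat_lit 610987), .ofNat (nat_lit 518145), .ofNat (nat_lit 654031)⟩, ⟨.ofNat (nat_lit 404075), .ofNat (nat_lit 516475), .ofNat (nat_lit 446789), .ofNat (nat_lit 559189), .ofNat (nat_lit 395445), .ofNat (nat_lit 497412), .ofNat (nat_lit 438578), .ofNat (nat_lit 540545)⟩⟩, [⟨nat_lit 4, nat_lit 100, nat_lit 90, nat_lit 74, nat_lit 660050801⟩, ⟨nat_lit 19, nat_lit 100, nat_lit 92, nat_lit 75, nat_lit 249466751⟩]⟩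
noncomputable def b_V_700_600_10_27 : St := ⟨true, nat_lit 1, nat_lit 1, nat_lit 1, nat_lit 80, nat_lit 280, nat_lit 320, nat_lit 240, nat_lit 280, nat_lit 120, nat_lit 240, nat_lit 40, nat_lit 80, nat_lit 240, nat_lit 300, nat_lit 0, nat_lit 336, nat_lit 0, nat_lit 40, nat_lit 0, nat_lit 0, nat_lit 0, nat_lit 0⟩
theorem d_V_700_600_10_27 (h : EB TB.env) : Dead b_V_700_600_10_27 := chkB_sound0 h (T :=
(.spl (nat_lit 2) (nat_lit 160)
(.spl (nat_lit 5) (nat_lit 160)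
(.spl (nat_lit 1) (nat_lit 260)
(.leaf p058_l63)
(.leaf p058_l64))
(.spl (nat_lit 1) (nat_lit 260)
(.spl (nat_lit 0) (nat_lit 300)
(.leaf p058_l65)
(.trX (nat_lit 16) (nat_lit 94) (nat_lit 100) (nat_lit 87) (nat_lit 280) (.leaf p058_l66)))
(.trX (nat_lit 19) (nat_lit 100) (nat_lit 85) (nat_lit 84) (nat_lit 320) (.spl (nat_lit 0) (nat_lit 300)
(.leaf p058_l67)
(.trX (nat_lit 16) (nat_lit 94) (nat_lit 100) (nat_lit 87) (nat_lit 280) (.leaf p058_l68))))))
(.spl (nat_lit 5) (nat_lit 160)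
(.leaf p058_l69)
(.spl (nat_lit 5) (nat_lit 240)
(.leaf p058_l70)
(.leaf p058_l71))))) (by decide +kernel)
noncomputable def p058_l72 : Lf2 := ⟨nat_lit 0, nat_lit 10, [nat_lit 0, nat_lit 5, nat_lit 5, nat_lit 20], false, nat_lit 0, nat_lit 160, nat_lit 0, nat_lit 336, ⟨nat_lit 1000, nat_lit 0, nat_lit 0, nat_lit 0, nat_lit 0, nat_lit 0, nat_lit 0, nat_lit 0, nat_lit 0, nat_lit 0, nat_lit 0, nat_lit 0, nat_lit 0, nat_lit 0, nat_lit 0, nat_lit 0, false, false⟩,
 nat_lit 15503, nat_lit 0, nat_lit 0, nat_lit 0, nat_lit 9150, nat_lit 8207, nat_lit 1017, nat_lit 0, nat_lit 0, nat_lit 808, nat_lit 0, nat_lit 0, nat_lit 0, nat_lit 0, nat_lit 0, nat_lit 0, nat_lit 0, nat_lit 0, [],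
 ⟨p058_k16, nat_lit 0, nat_lit 0, nat_lit 423, nat_lit 0, nat_lit 475281, [nat_lit 3282000000, nat_lit 6250000000, nat_lit 9842000000], [], [nat_lit 25513861125, nat_lit 26378040175, nat_lit 43960948400, nat_lit 44689060150, nat_lit 20188397600, nat_lit 20691878700, nat_lit 32864653200, nat_lit 33500739800], nat_lit 1271250, nat_lit 1271250, nat_lit 1271250, nat_lit 1271250, nat_lit 0, nat_lit 1100001, [nat_lit 780000, nat_lit 1435000, nat_lit 1271250], [nat_lit 8, nat_lit 40, nat_lit 40, nat_lit 80, nat_lit 1, nat_lit 373, nat_lit 150, nat_lit 10]⟩, ⟨p058_k22, nat_lit 0, nat_lit 0, nat_lit 526, nat_lit 0, nat_lit 597148, [nat_lit 4688000000, nat_lit 7968000000, nat_lit 11872000000], [], [nat_lit 36000275884, nat_lit 37052196116, nat_lit 41904847072, nat_lit 42422351500, nat_lit 32945658398, nat_lit 33531191848, nat_lit 36718524607, nat_lit 36857100964], nat_lit 1271250, nat_lit 1271250, nat_lit 1271250, nat_lit 1271250,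 nat_lit 0, nat_lit 2373000, [nat_lit 1100000, nat_lit 1785000, nat_lit 1271250], [nat_lit 21, nat_lit 40, nat_lit 40, nat_lit 80, nat_lit 14, nat_lit 538, nat_lit 300, nat_lit 13]⟩,
 zbF0, [⟨nat_lit 22, nat_lit 83, nat_lit 100, nat_lit 83, nat_lit 154703872⟩]⟩
noncomputable def p058_l73 : Lf2 := ⟨nat_lit 0, nat_lit 10, [nat_lit 0, nat_lit 5, nat_lit 5, nat_lit 20], false, nat_lit 0, nat_lit 160, nat_lit 0, nat_lit 336, ⟨nat_lit 1000, nat_lit 0, nat_lit 0, nat_lit 0, nat_lit 0, nat_lit 0, nat_lit 0, nat_lit 0, nat_lit 0, nat_lit 0, nat_lit 0, nat_lit 0, nat_lit 0, nat_lit 0, nat_lit 0, nat_lit 0, false, false⟩,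
 nat_lit 15503, nat_lit 0, nat_lit 0, nat_lit 0, nat_lit 7888, nat_lit 8207, nat_lit 2387, nat_lit 0, nat_lit 0, nat_lit 808, nat_lit 0, nat_lit 0, nat_lit 0, nat_lit 0, nat_lit 0, nat_lit 0, nat_lit 0, nat_lit 0, [],
 ⟨p058_k43, nat_lit 0, nat_lit 0, nat_lit 384, nat_lit 0, nat_lit 502818, [nat_lit 3282000000, nat_lit 6250000000, nat_lit 7968000000], [], [nat_lit 23421920904, nat_lit 24681312016, nat_lit 41329741088, nat_lit 42000703168, nat_lit 17696517154, nat_lit 18164493146, nat_lit 32052655376, nat_lit 32641083808], nat_lit 1271250, nat_lit 1271250, nat_lit 1271250, nat_lit 1271250, nat_lit 0, nat_lit 1100001, [nat_lit 780000, nat_lit 1435000, nat_lit 1271250], [nat_lit 18, nat_lit 40, nat_lit 40, nat_lit 80, nat_lit 2, nat_lit 249, nat_lit 40, nat_lit 8]⟩, ⟨p058_k22, nat_lit 0, nat_lit 0, nat_lit 552, nat_lit 0, nat_lit 665471, [nat_lit 4688000000, nat_lit 7968000000, nat_lit 11872000000], [], [nat_lit 36000275884,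 nat_lit 37052196116, nat_lit 41904847072, nat_lit 42422351500, nat_lit 32945658398, nat_lit 33531191848, nat_lit 36718524607, nat_lit 36857100964], nat_lit 1271250, nat_lit 1271250, nat_lit 1271250, nat_lit 1271250, nat_lit 0, nat_lit 2373000, [nat_lit 1100000, nat_lit 1785000, nat_lit 1271250], [nat_lit 21, nat_lit 40, nat_lit 40, nat_lit 80, nat_lit 14, nat_lit 538, nat_lit 300, nat_lit 13]⟩,
 zbF0, [⟨nat_lit 22, nat_lit 83, nat_lit 100, nat_lit 83, nat_lit 154703872⟩]⟩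
noncomputable def p058_l74 : Lf2 := ⟨nat_lit 0, nat_lit 10, [nat_lit 0, nat_lit 5, nat_lit 5, nat_lit 20], false, nat_lit 0, nat_lit 160, nat_lit 0, nat_lit 312, ⟨nat_lit 1000, nat_lit 0, nat_lit 0, nat_lit 0, nat_lit 0, nat_lit 0, nat_lit 0, nat_lit 0, nat_lit 0, nat_lit 0, nat_lit 0, nat_lit 0, nat_lit 0, nat_lit 0, nat_lit 0, nat_lit 0, false, false⟩,
 nat_lit 16118, nat_lit 0, nat_lit 0, nat_lit 0, nat_lit 6536, nat_lit 8532, nat_lit 1975, nat_lit 0, nat_lit 0, nat_lit 817, nat_lit 0, nat_lit 0, nat_lit 0, nat_lit 0, nat_lit 0, nat_lit 0, nat_lit 0, nat_lit 0, [],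
 ⟨p058_k25, nat_lit 0, nat_lit 0, nat_lit 400, nat_lit 0, nat_lit 550247, [nat_lit 3282000000, nat_lit 6250000000, nat_lit 7968000000], [], [nat_lit 22981196352, nat_lit 25203893280, nat_lit 38340587696, nat_lit 39560061216, nat_lit 18895481053, nat_lit 19778646557, nat_lit 31038671776, nat_lit 32113414784], nat_lit 1271250, nat_lit 1271250, nat_lit 1271250, nat_lit 1271250, nat_lit 0, nat_lit 1100001, [nat_lit 780000, nat_lit 1435000, nat_lit 1271250], [nat_lit 18, nat_lit 40, nat_lit 40, nat_lit 80, nat_lit 2, nat_lit 249, nat_lit 40, nat_lit 8]⟩, ⟨p058_k22, nat_lit 0, nat_lit 0, nat_lit 588, nat_lit 0, nat_lit 760341, [nat_lit 4688000000, nat_lit 7968000000, nat_lit 11872000000], [], [nat_lit 37756199340, nat_lit 38392269436, nat_lit 42384006928, nat_lit 42728210496, nat_lit 33360194028, nat_lit 33700627911, nat_lit 36011738780, nat_lit 35986448085], nat_lit 1271250, nat_lit 1271250, nat_lit 1271250, nat_lit 1271250,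 nat_lit 0, nat_lit 2203500, [nat_lit 1100000, nat_lit 1785000, nat_lit 1271250], [nat_lit 21, nat_lit 40, nat_lit 40, nat_lit 80, nat_lit 14, nat_lit 483, nat_lit 250, nat_lit 12]⟩,
 zbF0, [⟨nat_lit 19, nat_lit 100, nat_lit 96, nat_lit 69, nat_lit 44863055⟩, ⟨nat_lit 22, nat_lit 83, nat_lit 100, nat_lit 83, nat_lit 64643494⟩]⟩
noncomputable def p058_l75 : Lf2 := ⟨nat_lit 0, nat_lit 10, [nat_lit 0, nat_lit 5, nat_lit 5, nat_lit 20], false, nat_lit 0, nat_lit 160, nat_lit 0, nat_lit 336, ⟨nat_lit 1000, nat_lit 0, nat_lit 0, nat_lit 0, nat_lit 0, nat_lit 0, nat_lit 0, nat_lit 0, nat_lit 0, nat_lit 0, nat_lit 0, nat_lit 0, nat_lit 0, nat_lit 0, nat_lit 0, nat_lit 0, false, false⟩,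
 nat_lit 15503, nat_lit 0, nat_lit 0, nat_lit 0, nat_lit 6536, nat_lit 8207, nat_lit 1975, nat_lit 0, nat_lit 0, nat_lit 808, nat_lit 0, nat_lit 0, nat_lit 0, nat_lit 0, nat_lit 0, nat_lit 0, nat_lit 0, nat_lit 0, [],
 ⟨p058_k25, nat_lit 0, nat_lit 0, nat_lit 373, nat_lit 0, nat_lit 469714, [nat_lit 3282000000, nat_lit 6250000000, nat_lit 7968000000], [], [nat_lit 22981196352, nat_lit 25203893280, nat_lit 38340587696, nat_lit 39560061216, nat_lit 18895481053, nat_lit 19778646557, nat_lit 31038671776, nat_lit 32113414784], nat_lit 1271250, nat_lit 1271250, nat_lit 1271250, nat_lit 1271250, nat_lit 0, nat_lit 1100001, [nat_lit 780000, nat_lit 1435000, nat_lit 1271250], [nat_lit 18, nat_lit 40, nat_lit 40, nat_lit 80, nat_lit 2, nat_lit 249, nat_lit 40, nat_lit 8]⟩, ⟨p058_k22, nat_lit 0, nat_lit 0, nat_lit 547, nat_lit 0, nat_lit 653726, [nat_lit 4688000000, nat_lit 7968000000, nat_lit 11872000000], [], [nat_lit 36000275884,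 nat_lit 37052196116, nat_lit 41904847072, nat_lit 42422351500, nat_lit 32945658398, nat_lit 33531191848, nat_lit 36718524607, nat_lit 36857100964], nat_lit 1271250, nat_lit 1271250, nat_lit 1271250, nat_lit 1271250, nat_lit 0, nat_lit 2373000, [nat_lit 1100000, nat_lit 1785000, nat_lit 1271250], [nat_lit 21, nat_lit 40, nat_lit 40, nat_lit 80, nat_lit 14, nat_lit 538, nat_lit 300, nat_lit 13]⟩,
 zbF0, [⟨nat_lit 7, nat_lit 89, nat_lit 100, nat_lit 80, nat_lit 60691178⟩, ⟨nat_lit 22, nat_lit 83, nat_lit 100, nat_lit 83, nat_lit 84224931⟩]⟩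
noncomputable def p058_l76 : Lf2 := ⟨nat_lit 0, nat_lit 10, [nat_lit 0, nat_lit 5, nat_lit 5, nat_lit 20], false, nat_lit 160, nat_lit 300, nat_lit 0, nat_lit 336, ⟨nat_lit 677, nat_lit 323, nat_lit 0, nat_lit 6, nat_lit 309, nat_lit 323, nat_lit 162, nat_lit 0, nat_lit 0, nat_lit 0, nat_lit 0, nat_lit 0, nat_lit 36464125, nat_lit 22561306, nat_lit 7974569, nat_lit 5102851, true, true⟩,
 nat_lit 10628, nat_lit 0, nat_lit 0, nat_lit 0, nat_lit 6763, nat_lit 5626, nat_lit 536, nat_lit 0, nat_lit 0, nat_lit 554, nat_lit 0, nat_lit 0, nat_lit 0, nat_lit 0, nat_lit 0, nat_lit 323000, nat_lit 0, nat_lit 0, [(nat_lit 12, [(nat_lit 2, nat_lit 323)])],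
 ⟨p058_k16, nat_lit 0, nat_lit 0, nat_lit 295, nat_lit 0, nat_lit 442807, [nat_lit 2976183601, nat_lit 4859937200, nat_lit 6568072000], [], [nat_lit 21942803176, nat_lit 22882056282, nat_lit 30215827944, nat_lit 31307715808, nat_lit 25237433320, nat_lit 25917282389, nat_lit 33570848857, nat_lit 34344892096], nat_lit 1271250, nat_lit 1271250, nat_lit 1271250, nat_lit 1271250, nat_lit 1100001, nat_lit 2298750, [nat_lit 780000, nat_lit 1435000, nat_lit 1271250], [nat_lit 8, nat_lit 40, nat_lit 40, nat_lit 80, nat_lit 1, nat_lit 401, nat_lit 175, nat_lit 11]⟩, ⟨p058_k22, nat_lit 0, nat_lit 0, nat_lit 510, nat_lit 0, nat_lit 556347, [nat_lit 3173776000, nat_lit 5394336000, nat_lit 8037344000], [], [nat_lit 24185948684, nat_lit 24542707482, nat_lit 28202169800, nat_lit 28374363138, nat_lit 22089149012, nat_lit 22286509813, nat_lit 24647907714, nat_lit 24692411978], nat_lit 1271250, nat_lit 1271250, nat_lit 1271250, nat_lit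 1271250, nat_lit 0, nat_lit 2373000, [nat_lit 1100000, nat_lit 1785000, nat_lit 1271250], [nat_lit 21, nat_lit 40, nat_lit 40, nat_lit 80, nat_lit 14, nat_lit 483, nat_lit 250, nat_lit 12]⟩,
 ⟨nat_lit 5000, nat_lit 5478, ⟨.ofNat (nat_lit 617614), .ofNat (nat_lit 917295), .ofNat (nat_lit 638961), .ofNat (nat_lit 938642), .ofNat (nat_lit 614253), .ofNat (nat_lit 899915), .ofNat (nat_lit 635671), .ofNat (nat_lit 921335)⟩, ⟨.ofNat (nat_lit 254209), .ofNat (nat_lit 516475), .ofNat (nat_lit 296923), .ofNat (nat_lit 559189), .ofNat (nat_lit 257141), .ofNat (nat_lit 507141), .ofNat (nat_lit 299999), .ofNat (nat_lit 549998)⟩⟩, [⟨nat_lit 4, nat_lit 100, nat_lit 94, nat_lit 75, nat_lit 351465320⟩, ⟨nat_lit 19, nat_lit 100, nat_lit 88, nat_lit 74, nat_lit 99230610⟩]⟩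
noncomputable def p058_l77 : Lf2 := ⟨nat_lit 0, nat_lit 10, [nat_lit 0, nat_lit 5, nat_lit 5, nat_lit 20], false, nat_lit 160, nat_lit 300, nat_lit 0, nat_lit 320, ⟨nat_lit 1000, nat_lit 0, nat_lit 0, nat_lit 0, nat_lit 0, nat_lit 0, nat_lit 0, nat_lit 0, nat_lit 0, nat_lit 0, nat_lit 0, nat_lit 0, nat_lit 0, nat_lit 0, nat_lit 0, nat_lit 0, false, false⟩,
 nat_lit 12305, nat_lit 0, nat_lit 0, nat_lit 0, nat_lit 7830, nat_lit 7162, nat_lit 829, nat_lit 0, nat_lit 0, nat_lit 1418, nat_lit 0, nat_lit 0, nat_lit 0, nat_lit 0, nat_lit 0, nat_lit 0, nat_lit 0, nat_lit 0, [],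
 ⟨p058_k16, nat_lit 0, nat_lit 0, nat_lit 324, nat_lit 0, nat_lit 529661, [nat_lit 3282000000, nat_lit 6250000000, nat_lit 9842000000], [], [nat_lit 22621078785, nat_lit 23627192245, nat_lit 31399865040, nat_lit 32572341280, nat_lit 25940343825, nat_lit 26649197990, nat_lit 34738935370, nat_lit 35553246655], nat_lit 1271250, nat_lit 1271250, nat_lit 1271250, nat_lit 1271250, nat_lit 1100001, nat_lit 2298750, [nat_lit 780000, nat_lit 1435000, nat_lit 1271250], [nat_lit 8, nat_lit 40, nat_lit 40, nat_lit 80, nat_lit 1, nat_lit 401, nat_lit 175, nat_lit 11]⟩, ⟨p058_k36, nat_lit 0, nat_lit 0, nat_lit 468, nat_lit 0, nat_lit 591092, [nat_lit 4688000000, nat_lit 7968000000, nat_lit 9842000000], [], [nat_lit 30843341784, nat_lit 31396831128, nat_lit 37753289048, nat_lit 38759115792, nat_lit 29145227960, nat_lit 29401573760, nat_lit 34207206416, nat_lit 34753856800], nat_lit 1271250, nat_lit 1271250, nat_lit 1271250, nat_lit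 1271250, nat_lit 0, nat_lit 2260000, [nat_lit 1100000, nat_lit 1785000, nat_lit 1271250], [nat_lit 29, nat_lit 40, nat_lit 40, nat_lit 80, nat_lit 17, nat_lit 483, nat_lit 250, nat_lit 14]⟩,
 zbF0, [⟨nat_lit 4, nat_lit 100, nat_lit 94, nat_lit 75, nat_lit 462531734⟩, ⟨nat_lit 7, nat_lit 97, nat_lit 100, nat_lit 76, nat_lit 161712598⟩]⟩
noncomputable def p058_l78 : Lf2 := ⟨nat_lit 0, nat_lit 10, [nat_lit 0, nat_lit 5, nat_lit 5, nat_lit 20], false, nat_lit 160, nat_lit 280, nat_lit 0, nat_lit 160, ⟨nat_lit 995, nat_lit 5, nat_lit 0, nat_lit 6, nat_lit 309, nat_lit 5, nat_lit 154, nat_lit 0, nat_lit 0, nat_lit 0, nat_lit 0, nat_lit 0, nat_lit 36826812, nat_lit 22770618, nat_lit 7402570, nat_lit 5031526, true, true⟩,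
 nat_lit 16166, nat_lit 0, nat_lit 0, nat_lit 0, nat_lit 5818, nat_lit 8558, nat_lit 2091, nat_lit 0, nat_lit 0, nat_lit 856, nat_lit 0, nat_lit 0, nat_lit 0, nat_lit 0, nat_lit 0, nat_lit 2000, nat_lit 0, nat_lit 0, [(nat_lit 15, [(nat_lit 1, nat_lit 5)])],
 ⟨p058_k25, nat_lit 0, nat_lit 0, nat_lit 308, nat_lit 0, nat_lit 582261, [nat_lit 3275691000, nat_lit 6230524334, nat_lit 7939740000], [], [nat_lit 20326857699, nat_lit 21278083632, nat_lit 30187686688, nat_lit 31208200592, nat_lit 23639228524, nat_lit 24486851272, nat_lit 32615224218, nat_lit 33397782632], nat_lit 1271250, nat_lit 1271250, nat_lit 1271250, nat_lit 1271250, nat_lit 1100001, nat_lit 2127500, [nat_lit 780000, nat_lit 1435000, nat_lit 1271250], [nat_lit 18, nat_lit 40, nat_lit 40, nat_lit 80, nat_lit 2, nat_lit 289, nat_lit 75, nat_lit 8]⟩, ⟨p058_k22, nat_lit 0, nat_lit 0, nat_lit 632, nat_lit 0, nat_lit 810363, [nat_lit 4664560000, nat_lit 7928160000,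 nat_lit 11812640000], [], [nat_lit 37066874500, nat_lit 37698502824, nat_lit 41969224332, nat_lit 42311817168, nat_lit 31575254636, nat_lit 32268730188, nat_lit 35748285096, nat_lit 35966289096], nat_lit 1271250, nat_lit 1271250, nat_lit 1271250, nat_lit 1271250, nat_lit 0, nat_lit 1100001, [nat_lit 1100000, nat_lit 1785000, nat_lit 1271250], [nat_lit 21, nat_lit 40, nat_lit 40, nat_lit 80, nat_lit 14, nat_lit 456, nat_lit 225, nat_lit 11]⟩,
 ⟨nat_lit 4472, nat_lit 5000, ⟨.ofNat (nat_lit 614256), .ofNat (nat_lit 899951), .ofNat (nat_lit 657088), .ofNat (nat_lit 942783), .ofNat (nat_lit 611081), .ofNat (nat_lit 882974), .ofNat (nat_lit 654189), .ofNat (nat_lit 926083)⟩, ⟨.ofNat (nat_lit 257141), .ofNat (nat_lit 471427), .ofNat (nat_lit 299999), .ofNat (nat_lit 514284), .ofNat (nat_lit 259489), .ofNat (nat_lit 463423), .ofNat (nat_lit 302621), .ofNat (nat_lit 506556)⟩⟩, [⟨nat_lit 16, nat_lit 85, nat_lit 100, nat_lit 73,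 nat_lit 533573981⟩, ⟨nat_lit 9, nat_lit 100, nat_lit 80, nat_lit 68, nat_lit 29869031⟩]⟩
noncomputable def p058_l79 : Lf2 := ⟨nat_lit 0, nat_lit 10, [nat_lit 0, nat_lit 5, nat_lit 5, nat_lit 20], false, nat_lit 160, nat_lit 280, nat_lit 160, nat_lit 336, ⟨nat_lit 768, nat_lit 232, nat_lit 0, nat_lit 6, nat_lit 310, nat_lit 232, nat_lit 154, nat_lit 0, nat_lit 0, nat_lit 0, nat_lit 0, nat_lit 0, nat_lit 36736634, nat_lit 22852833, nat_lit 7410533, nat_lit 5035792, true, true⟩,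
 nat_lit 11905, nat_lit 0, nat_lit 0, nat_lit 0, nat_lit 5562, nat_lit 6302, nat_lit 1724, nat_lit 0, nat_lit 0, nat_lit 615, nat_lit 0, nat_lit 0, nat_lit 0, nat_lit 0, nat_lit 0, nat_lit 92800, nat_lit 0, nat_lit 0, [(nat_lit 15, [(nat_lit 1, nat_lit 232)])],
 ⟨p058_k25, nat_lit 0, nat_lit 0, nat_lit 290, nat_lit 0, nat_lit 529263, [nat_lit 2989262400, nat_lit 5346329067, nat_lit 6656736000], [], [nat_lit 20160771350, nat_lit 20622586797, nat_lit 29884271392, nat_lit 30384860760, nat_lit 23315115916, nat_lit 23731197882, nat_lit 32331883162, nat_lit 32717565825], nat_lit 1271250, nat_lit 1271250, nat_lit 1271250, nat_lit 1271250, nat_lit 1100001, nat_lit 2127500, [nat_lit 780000, nat_lit 1435000, nat_lit 1271250], [nat_lit 18, nat_lit 40, nat_lit 40, nat_lit 80, nat_lit 2, nat_lit 289, nat_lit 75, nat_lit 8]⟩, ⟨p058_k22, nat_lit 0, nat_lit 0, nat_lit 466, nat_lit 0, nat_lit 736603, [nat_lit 3600384000, nat_lit 6119424000,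 nat_lit 9117696000], [], [nat_lit 23468237788, nat_lit 24109460988, nat_lit 27303794296, nat_lit 27696901632, nat_lit 25305270191, nat_lit 25754983415, nat_lit 28202768177, nat_lit 28309261985], nat_lit 1271250, nat_lit 1271250, nat_lit 1271250, nat_lit 1271250, nat_lit 1100001, nat_lit 2607000, [nat_lit 1100000, nat_lit 1785000, nat_lit 1271250], [nat_lit 21, nat_lit 40, nat_lit 40, nat_lit 80, nat_lit 14, nat_lit 538, nat_lit 300, nat_lit 13]⟩,
 ⟨nat_lit 4743, nat_lit 5000, ⟨.ofNat (nat_lit 614278), .ofNat (nat_lit 899984), .ofNat (nat_lit 657129), .ofNat (nat_lit 942836), .ofNat (nat_lit 612668), .ofNat (nat_lit 891460), .ofNat (nat_lit 655639), .ofNat (nat_lit 934430)⟩, ⟨.ofNat (nat_lit 257141), .ofNat (nat_lit 471427), .ofNat (nat_lit 299999), .ofNat (nat_lit 514284), .ofNat (nat_lit 258394), .ofNat (nat_lit 467493), .ofNat (nat_lit 301370), .ofNat (nat_lit 510469)⟩⟩, [⟨nat_lit 4, nat_lit 100, nat_lit 88, nat_lit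 74, nat_lit 394724321⟩, ⟨nat_lit 19, nat_lit 100, nat_lit 92, nat_lit 75, nat_lit 257037172⟩]⟩
noncomputable def p058_l80 : Lf2 := ⟨nat_lit 0, nat_lit 10, [nat_lit 0, nat_lit 5, nat_lit 5, nat_lit 20], false, nat_lit 160, nat_lit 268, nat_lit 160, nat_lit 336, ⟨nat_lit 500, nat_lit 500, nat_lit 0, nat_lit 6, nat_lit 308, nat_lit 500, nat_lit 149, nat_lit 0, nat_lit 0, nat_lit 0, nat_lit 0, nat_lit 0, nat_lit 37102999, nat_lit 22780739, nat_lit 7116262, nat_lit 4990442, true, true⟩,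
 nat_lit 7749, nat_lit 0, nat_lit 0, nat_lit 0, nat_lit 4714, nat_lit 4102, nat_lit 852, nat_lit 0, nat_lit 0, nat_lit 384, nat_lit 0, nat_lit 0, nat_lit 0, nat_lit 0, nat_lit 0, nat_lit 200000, nat_lit 0, nat_lit 0, [(nat_lit 15, [(nat_lit 1, nat_lit 500)])],
 ⟨p058_k45, nat_lit 0, nat_lit 0, nat_lit 299, nat_lit 0, nat_lit 554578, [nat_lit 2651100000, nat_lit 4302433334, nat_lit 5142000000], [], [nat_lit 22504404224, nat_lit 22887553828, nat_lit 29347773720, nat_lit 29816339216, nat_lit 24714320380, nat_lit 25068606001, nat_lit 31393055350, nat_lit 31771471427], nat_lit 1271250, nat_lit 1271250, nat_lit 1271250, nat_lit 1271250, nat_lit 1100001, nat_lit 2024750, [nat_lit 780000, nat_lit 1435000, nat_lit 1271250], [nat_lit 18, nat_lit 40, nat_lit 40, nat_lit 80, nat_lit 2, nat_lit 289, nat_lit 75, nat_lit 8]⟩, ⟨p058_k22, nat_lit 0, nat_lit 0, nat_lit 509, nat_lit 0, nat_lit 810363, [nat_lit 2344000000, nat_lit 3984000000,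 nat_lit 5936000000], [], [nat_lit 15390569608, nat_lit 15808032200, nat_lit 17815923960, nat_lit 18034251968, nat_lit 16585621381, nat_lit 16771344231, nat_lit 18363782711, nat_lit 18433174116], nat_lit 1271250, nat_lit 1271250, nat_lit 1271250, nat_lit 1271250, nat_lit 1100001, nat_lit 2607000, [nat_lit 1100000, nat_lit 1785000, nat_lit 1271250], [nat_lit 21, nat_lit 40, nat_lit 40, nat_lit 80, nat_lit 14, nat_lit 538, nat_lit 300, nat_lit 13]⟩,
 ⟨nat_lit 4472, nat_lit 4744, ⟨.ofNat (nat_lit 612668), .ofNat (nat_lit 891465), .ofNat (nat_lit 655638), .ofNat (nat_lit 934435), .ofNat (nat_lit 611103), .ofNat (nat_lit 883014), .ofNat (nat_lit 654230), .ofNat (nat_lit 926140)⟩, ⟨.ofNat (nat_lit 258394), .ofNat (nat_lit 446583), .ofNat (nat_lit 301370), .ofNat (nat_lit 489559), .ofNat (nat_lit 259489), .ofNat (nat_lit 443030), .ofNat (nat_lit 302621), .ofNat (nat_lit 486162)⟩⟩, [⟨nat_lit 4, nat_lit 100, nat_lit 83, nat_lit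 73, nat_lit 311065632⟩, ⟨nat_lit 7, nat_lit 92, nat_lit 100, nat_lit 75, nat_lit 167314545⟩]⟩
noncomputable def b_V_700_600_10_28 : St := ⟨true, nat_lit 1, nat_lit 1, nat_lit 1, nat_lit 80, nat_lit 280, nat_lit 320, nat_lit 240, nat_lit 280, nat_lit 240, nat_lit 400, nat_lit 40, nat_lit 80, nat_lit 0, nat_lit 300, nat_lit 0, nat_lit 336, nat_lit 0, nat_lit 40, nat_lit 0, nat_lit 0, nat_lit 0, nat_lit 0⟩
theorem d_V_700_600_10_28 (h : EB TB.env) : Dead b_V_700_600_10_28 := chkB_sound0 h (T :=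
(.spl (nat_lit 4) (nat_lit 160)
(.spl (nat_lit 0) (nat_lit 300)
(.spl (nat_lit 0) (nat_lit 290)
(.leaf p058_l72)
(.leaf p058_l73))
(.spl (nat_lit 3) (nat_lit 60)
(.trX (nat_lit 19) (nat_lit 100) (nat_lit 85) (nat_lit 73) (nat_lit 312) (.leaf p058_l74))
(.leaf p058_l75)))
(.spl (nat_lit 0) (nat_lit 300)
(.spl (nat_lit 1) (nat_lit 260)
(.leaf p058_l76)
(.trX (nat_lit 19) (nat_lit 100) (nat_lit 85) (nat_lit 84) (nat_lit 320) (.leaf p058_l77)))
(.trX (nat_lit 16) (nat_lit 94) (nat_lit 100) (nat_lit 87) (nat_lit 280) (.spl (nat_lit 5) (nat_lit 160)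
(.leaf p058_l78)
(.spl (nat_lit 0) (nat_lit 310)
(.leaf p058_l79)
(.trX (nat_lit 16) (nat_lit 89) (nat_lit 100) (nat_lit 85) (nat_lit 268) (.leaf p058_l80)))))))) (by decide +kernel)
noncomputable def p058_l81 : Lf2 := ⟨nat_lit 0, nat_lit 10, [nat_lit 0, nat_lit 5, nat_lit 5, nat_lit 20], true, nat_lit 0, nat_lit 160, nat_lit 0, nat_lit 336, ⟨nat_lit 0, nat_lit 1000, nat_lit 0, nat_lit 6, nat_lit 122, nat_lit 1000, nat_lit 55, nat_lit 0, nat_lit 0, nat_lit 0, nat_lit 0, nat_lit 0, nat_lit 0, nat_lit 0, nat_lit 0, nat_lit 5000000, false, false⟩,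
 nat_lit 0, nat_lit 10738, nat_lit 0, nat_lit 0, nat_lit 6833, nat_lit 0, nat_lit 89, nat_lit 0, nat_lit 0, nat_lit 0, nat_lit 0, nat_lit 0, nat_lit 0, nat_lit 0, nat_lit 12, nat_lit 1000000, nat_lit 0, nat_lit 0, [(nat_lit 12, [(nat_lit 2, nat_lit 1000)])],
 ⟨p058_k16, nat_lit 0, nat_lit 0, nat_lit 504, nat_lit 0, nat_lit 529661, [nat_lit 2479200001, nat_lit 2186400000, nat_lit 42000000], [], [nat_lit 20276907554, nat_lit 22287777366, nat_lit 18196946485, nat_lit 20136095507, nat_lit 19725845128, nat_lit 17087479546, nat_lit 21730186102, nat_lit 18636149038], nat_lit 1271250, nat_lit 1271250, nat_lit 205650, nat_lit 490000, nat_lit 0, nat_lit 1100001, [nat_lit 780000, nat_lit 1435000, nat_lit 1271250], [nat_lit 8, nat_lit 40, nat_lit 40, nat_lit 80, nat_lit 1, nat_lit 272, nat_lit 60, nat_lit 8]⟩, C1.Rw.none,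
 ⟨nat_lit 5000, nat_lit 5478, ⟨.ofNat (nat_lit 235487), .ofNat (nat_lit 317913), .ofNat (nat_lit 278201), .ofNat (nat_lit 360625), .ofNat (nat_lit 249999), .ofNat (nat_lit 328570), .ofNat (nat_lit 292856), .ofNat (nat_lit 371424)⟩, ⟨.negSucc (nat_lit 45522), .ofNat (nat_lit 254209), .negSucc (nat_lit 2832), .ofNat (nat_lit 296923), .negSucc (nat_lit 28572), .ofNat (nat_lit 257141), .ofNat (nat_lit 0), .ofNat (nat_lit 299999)⟩⟩, []⟩
noncomputable def p058_l82 : Lf2 := ⟨nat_lit 0, nat_lit 2, [nat_lit 10, nat_lit 5, nat_lit 5, nat_lit 20], true, nat_lit 0, nat_lit 160, nat_lit 0, nat_lit 312, ⟨nat_lit 0, nat_lit 1000, nat_lit 0, nat_lit 6, nat_lit 152, nat_lit 1000, nat_lit 53, nat_lit 0, nat_lit 0, nat_lit 0, nat_lit 0, nat_lit 0, nat_lit 0, nat_lit 0, nat_lit 0, nat_lit 5000000, false, false⟩,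
 nat_lit 0, nat_lit 7092, nat_lit 0, nat_lit 0, nat_lit 4513, nat_lit 0, nat_lit 0, nat_lit 0, nat_lit 0, nat_lit 0, nat_lit 0, nat_lit 0, nat_lit 0, nat_lit 0, nat_lit 0, nat_lit 1000000, nat_lit 0, nat_lit 0, [(nat_lit 12, [(nat_lit 2, nat_lit 1000)])],
 ⟨p058_k18, nat_lit 0, nat_lit 0, nat_lit 432, nat_lit 0, nat_lit 784011, [nat_lit 2335200001, nat_lit 1946399999], [], [nat_lit 24020970505, nat_lit 23163134945, nat_lit 22834260825, nat_lit 23214932929, nat_lit 21966956485, nat_lit 22303705049, nat_lit 22990778174, nat_lit 22314480137], nat_lit 1271250, nat_lit 1271250, nat_lit 490000, nat_lit 780000, nat_lit 0, nat_lit 1100001, [nat_lit 780000, nat_lit 1435000], [nat_lit 49, nat_lit 40, nat_lit 40, nat_lit 80, nat_lit 16, nat_lit 289, nat_lit 75, nat_lit 11]⟩, C1.Rw.none,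
 ⟨nat_lit 5244, nat_lit 5478, ⟨.ofNat (nat_lit 317913), .ofNat (nat_lit 392847), .ofNat (nat_lit 360628), .ofNat (nat_lit 435559), .ofNat (nat_lit 323256), .ofNat (nat_lit 396427), .ofNat (nat_lit 366027), .ofNat (nat_lit 439196)⟩, ⟨.negSucc (nat_lit 45522), .ofNat (nat_lit 254209), .negSucc (nat_lit 24165), .ofNat (nat_lit 275566), .negSucc (nat_lit 36940), .ofNat (nat_lit 255744), .negSucc (nat_lit 15554), .ofNat (nat_lit 277129)⟩⟩, []⟩
noncomputable def p058_l83 : Lf2 := ⟨nat_lit 0, nat_lit 5, [nat_lit 4, nat_lit 5, nat_lit 5, nat_lit 20], true, nat_lit 0, nat_lit 160, nat_lit 0, nat_lit 312, ⟨nat_lit 0, nat_lit 1000, nat_lit 0, nat_lit 6, nat_lit 152, nat_lit 1000, nat_lit 53, nat_lit 0, nat_lit 0, nat_lit 0, nat_lit 0, nat_lit 0, nat_lit 0, nat_lit 0, nat_lit 0, nat_lit 5000000, false, false⟩,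
 nat_lit 0, nat_lit 7419, nat_lit 0, nat_lit 0, nat_lit 4721, nat_lit 0, nat_lit 0, nat_lit 0, nat_lit 0, nat_lit 0, nat_lit 0, nat_lit 0, nat_lit 0, nat_lit 0, nat_lit 0, nat_lit 754000, nat_lit 0, nat_lit 0, [(nat_lit 12, [(nat_lit 1, nat_lit 410), (nat_lit 2, nat_lit 590)])],
 ⟨p058_k20, nat_lit 0, nat_lit 0, nat_lit 450, nat_lit 0, nat_lit 650437, [nat_lit 2225812001, nat_lit 2264068000, nat_lit 1399576000], [], [nat_lit 24000222570, nat_lit 22789149161, nat_lit 22267462238, nat_lit 22673730000, nat_lit 21299592422, nat_lit 21658258955, nat_lit 22438908927, nat_lit 21654966814], nat_lit 1271250, nat_lit 1271250, nat_lit 490000, nat_lit 780000, nat_lit 0, nat_lit 1100001, [nat_lit 780000, nat_lit 1435000, nat_lit 1271250], [nat_lit 18, nat_lit 40, nat_lit 40, nat_lit 80, nat_lit 2, nat_lit 289, nat_lit 75, nat_lit 10]⟩, C1.Rw.none,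
 ⟨nat_lit 5244, nat_lit 5478, ⟨.ofNat (nat_lit 317913), .ofNat (nat_lit 392847), .ofNat (nat_lit 360628), .ofNat (nat_lit 435559), .ofNat (nat_lit 323256), .ofNat (nat_lit 396427), .ofNat (nat_lit 366027), .ofNat (nat_lit 439196)⟩, ⟨.negSucc (nat_lit 45522), .ofNat (nat_lit 254209), .negSucc (nat_lit 24165), .ofNat (nat_lit 275566), .negSucc (nat_lit 36940), .ofNat (nat_lit 255744), .negSucc (nat_lit 15554), .ofNat (nat_lit 277129)⟩⟩, []⟩
noncomputable def p058_l84 : Lf2 := ⟨nat_lit 0, nat_lit 5, [nat_lit 4, nat_lit 5, nat_lit 5, nat_lit 20], true, nat_lit 0, nat_lit 160, nat_lit 0, nat_lit 336, ⟨nat_lit 0, nat_lit 1000, nat_lit 0, nat_lit 6, nat_lit 152, nat_lit 1000, nat_lit 57, nat_lit 0, nat_lit 0, nat_lit 0, nat_lit 0, nat_lit 0, nat_lit 0, nat_lit 0, nat_lit 0, nat_lit 5000000, false, false⟩,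
 nat_lit 0, nat_lit 7468, nat_lit 0, nat_lit 0, nat_lit 4752, nat_lit 0, nat_lit 0, nat_lit 0, nat_lit 0, nat_lit 0, nat_lit 0, nat_lit 0, nat_lit 0, nat_lit 0, nat_lit 0, nat_lit 1000000, nat_lit 0, nat_lit 0, [(nat_lit 12, [(nat_lit 2, nat_lit 1000)])],
 ⟨p058_k20, nat_lit 0, nat_lit 0, nat_lit 436, nat_lit 0, nat_lit 615628, [nat_lit 2335200001, nat_lit 1946400000, nat_lit 508400000], [], [nat_lit 23883499618, nat_lit 22664473810, nat_lit 20162046593, nat_lit 20656461745, nat_lit 20114828099, nat_lit 19653942673, nat_lit 22368719491, nat_lit 21278677219], nat_lit 1271250, nat_lit 1271250, nat_lit 490000, nat_lit 780000, nat_lit 0, nat_lit 1100001, [nat_lit 780000, nat_lit 1435000, nat_lit 1271250], [nat_lit 18, nat_lit 40, nat_lit 40, nat_lit 80, nat_lit 2, nat_lit 289, nat_lit 75, nat_lit 10]⟩, C1.Rw.none,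
 ⟨nat_lit 5244, nat_lit 5478, ⟨.ofNat (nat_lit 317913), .ofNat (nat_lit 392847), .ofNat (nat_lit 360628), .ofNat (nat_lit 435559), .ofNat (nat_lit 323256), .ofNat (nat_lit 396427), .ofNat (nat_lit 366027), .ofNat (nat_lit 439196)⟩, ⟨.negSucc (nat_lit 24165), .ofNat (nat_lit 275566), .negSucc (nat_lit 2827), .ofNat (nat_lit 296923), .negSucc (nat_lit 15554), .ofNat (nat_lit 277129), .ofNat (nat_lit 0), .ofNat (nat_lit 298515)⟩⟩, []⟩
noncomputable def p058_l85 : Lf2 := ⟨nat_lit 0, nat_lit 10, [nat_lit 0, nat_lit 5, nat_lit 5, nat_lit 20], true, nat_lit 0, nat_lit 160, nat_lit 0, nat_lit 336, ⟨nat_lit 0, nat_lit 1000, nat_lit 0, nat_lit 6, nat_lit 152, nat_lit 1000, nat_lit 55, nat_lit 0, nat_lit 0, nat_lit 0, nat_lit 0, nat_lit 0, nat_lit 0, nat_lit 0, nat_lit 0, nat_lit 5000000, false, false⟩,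
 nat_lit 0, nat_lit 7400, nat_lit 0, nat_lit 0, nat_lit 4708, nat_lit 0, nat_lit 0, nat_lit 0, nat_lit 0, nat_lit 0, nat_lit 0, nat_lit 0, nat_lit 0, nat_lit 0, nat_lit 0, nat_lit 749200, nat_lit 0, nat_lit 0, [(nat_lit 12, [(nat_lit 1, nat_lit 418), (nat_lit 2, nat_lit 582)])],
 ⟨p058_k16, nat_lit 0, nat_lit 0, nat_lit 462, nat_lit 0, nat_lit 494551, [nat_lit 2223677601, nat_lit 2270266400, nat_lit 930907200], [], [nat_lit 24009629666, nat_lit 22953098861, nat_lit 22505523121, nat_lit 22922079097, nat_lit 21269468129, nat_lit 21638513897, nat_lit 22472539955, nat_lit 21586368817], nat_lit 1271250, nat_lit 1271250, nat_lit 490000, nat_lit 780000, nat_lit 0, nat_lit 1100001, [nat_lit 780000, nat_lit 1435000, nat_lit 1271250], [nat_lit 8, nat_lit 40, nat_lit 40, nat_lit 80, nat_lit 1, nat_lit 289, nat_lit 75, nat_lit 8]⟩, C1.Rw.none,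
 ⟨nat_lit 5244, nat_lit 5478, ⟨.ofNat (nat_lit 317913), .ofNat (nat_lit 392847), .ofNat (nat_lit 360628), .ofNat (nat_lit 435559), .ofNat (nat_lit 323256), .ofNat (nat_lit 396427), .ofNat (nat_lit 366027), .ofNat (nat_lit 439196)⟩, ⟨.negSucc (nat_lit 45522), .ofNat (nat_lit 254209), .negSucc (nat_lit 2827), .ofNat (nat_lit 296923), .negSucc (nat_lit 36940), .ofNat (nat_lit 255744), .ofNat (nat_lit 0), .ofNat (nat_lit 298515)⟩⟩, []⟩
noncomputable def p058_l86 : Lf2 := ⟨nat_lit 0, nat_lit 10, [nat_lit 0, nat_lit 5, nat_lit 5, nat_lit 20], true, nat_lit 0, nat_lit 160, nat_lit 0, nat_lit 336, ⟨nat_lit 0, nat_lit 1000, nat_lit 0, nat_lit 6, nat_lit 153, nat_lit 1000, nat_lit 56, nat_lit 0, nat_lit 0, nat_lit 0, nat_lit 0, nat_lit 0, nat_lit 0, nat_lit 0, nat_lit 0, nat_lit 5000000, false, false⟩,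
 nat_lit 0, nat_lit 7256, nat_lit 0, nat_lit 0, nat_lit 4818, nat_lit 0, nat_lit 2278, nat_lit 0, nat_lit 0, nat_lit 0, nat_lit 0, nat_lit 0, nat_lit 0, nat_lit 0, nat_lit 0, nat_lit 400000, nat_lit 0, nat_lit 0, [(nat_lit 12, [(nat_lit 1, nat_lit 1000)])],
 ⟨p058_k43, nat_lit 0, nat_lit 0, nat_lit 572, nat_lit 0, nat_lit 896702, [nat_lit 2068400000, nat_lit 2721200001, nat_lit 2682000000], [], [nat_lit 20700917723, nat_lit 19464961001, nat_lit 17912714233, nat_lit 18418934125, nat_lit 17415681354, nat_lit 17919626956, nat_lit 18916293345, nat_lit 18154379760], nat_lit 1271250, nat_lit 1271250, nat_lit 490000, nat_lit 780000, nat_lit 0, nat_lit 1100001, [nat_lit 780000, nat_lit 1435000, nat_lit 1271250], [nat_lit 18, nat_lit 40, nat_lit 40, nat_lit 80, nat_lit 2, nat_lit 289, nat_lit 75, nat_lit 10]⟩, C1.Rw.none,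
 ⟨nat_lit 5000, nat_lit 5245, ⟨.ofNat (nat_lit 323256), .ofNat (nat_lit 396427), .ofNat (nat_lit 366025), .ofNat (nat_lit 439194), .ofNat (nat_lit 328570), .ofNat (nat_lit 399998), .ofNat (nat_lit 371426), .ofNat (nat_lit 442852)⟩, ⟨.negSucc (nat_lit 36940), .ofNat (nat_lit 255744), .ofNat (nat_lit 0), .ofNat (nat_lit 298515), .negSucc (nat_lit 28572), .ofNat (nat_lit 257141), .ofNat (nat_lit 0), .ofNat (nat_lit 299999)⟩⟩, []⟩
noncomputable def p058_l87 : Lf2 := ⟨nat_lit 0, nat_lit 10, [nat_lit 0, nat_lit 5, nat_lit 5, nat_lit 20], true, nat_lit 0, nat_lit 160, nat_lit 0, nat_lit 336, ⟨nat_lit 0, nat_lit 1000, nat_lit 0, nat_lit 6, nat_lit 144, nat_lit 1000, nat_lit 56, nat_lit 0, nat_lit 0, nat_lit 0, nat_lit 0, nat_lit 0, nat_lit 0, nat_lit 0, nat_lit 0, nat_lit 5000000, false, false⟩,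
 nat_lit 0, nat_lit 7124, nat_lit 0, nat_lit 0, nat_lit 4931, nat_lit 0, nat_lit 1786, nat_lit 0, nat_lit 0, nat_lit 0, nat_lit 0, nat_lit 0, nat_lit 0, nat_lit 0, nat_lit 0, nat_lit 400000, nat_lit 0, nat_lit 0, [(nat_lit 15, [(nat_lit 1, nat_lit 1000)])],
 ⟨p058_k25, nat_lit 0, nat_lit 0, nat_lit 623, nat_lit 0, nat_lit 936668, [nat_lit 2020200000, nat_lit 2354866667, nat_lit 2328333333], [], [nat_lit 21710086234, nat_lit 20448837026, nat_lit 18777307560, nat_lit 19290983822, nat_lit 18515203071, nat_lit 18980174444, nat_lit 19260120452, nat_lit 18977292025], nat_lit 1271250, nat_lit 1271250, nat_lit 279600, nat_lit 780000, nat_lit 0, nat_lit 1100001, [nat_lit 780000, nat_lit 1435000, nat_lit 1271250], [nat_lit 18, nat_lit 40, nat_lit 40, nat_lit 80, nat_lit 2, nat_lit 289, nat_lit 75, nat_lit 10]⟩, C1.Rw.none,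
 ⟨nat_lit 4743, nat_lit 5000, ⟨.ofNat (nat_lit 271427), .ofNat (nat_lit 399997), .ofNat (nat_lit 314281), .ofNat (nat_lit 442849), .ofNat (nat_lit 278116), .ofNat (nat_lit 403574), .ofNat (nat_lit 321088), .ofNat (nat_lit 446544)⟩, ⟨.negSucc (nat_lit 28572), .ofNat (nat_lit 257141), .ofNat (nat_lit 0), .ofNat (nat_lit 299999), .negSucc (nat_lit 20404), .ofNat (nat_lit 258394), .ofNat (nat_lit 0), .ofNat (nat_lit 301370)⟩⟩, []⟩
noncomputable def p058_l88 : Lf2 := ⟨nat_lit 0, nat_lit 10, [nat_lit 0, nat_lit 5, nat_lit 5, nat_lit 20], true, nat_lit 0, nat_lit 160, nat_lit 0, nat_lit 336, ⟨nat_lit 0, nat_lit 1000, nat_lit 0, nat_lit 6, nat_lit 149, nat_lit 1000, nat_lit 56, nat_lit 0, nat_lit 0, nat_lit 0, nat_lit 0, nat_lit 0, nat_lit 0, nat_lit 0, nat_lit 0, nat_lit 5000000, false, false⟩,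
 nat_lit 0, nat_lit 7078, nat_lit 0, nat_lit 0, nat_lit 5102, nat_lit 0, nat_lit 481, nat_lit 0, nat_lit 0, nat_lit 0, nat_lit 0, nat_lit 0, nat_lit 0, nat_lit 0, nat_lit 0, nat_lit 400000, nat_lit 0, nat_lit 0, [(nat_lit 15, [(nat_lit 1, nat_lit 1000)])],
 ⟨p058_k45, nat_lit 0, nat_lit 0, nat_lit 634, nat_lit 0, nat_lit 974329, [nat_lit 2020200000, nat_lit 2354866667, nat_lit 2328333333], [], [nat_lit 21320838116, nat_lit 20514424380, nat_lit 18963013286, nat_lit 19366771868, nat_lit 18276111952, nat_lit 18688191847, nat_lit 18153875348, nat_lit 18535344434], nat_lit 1271250, nat_lit 1271250, nat_lit 330400, nat_lit 780000, nat_lit 0, nat_lit 1100001, [nat_lit 780000, nat_lit 1435000, nat_lit 1271250], [nat_lit 18, nat_lit 40, nat_lit 40, nat_lit 80, nat_lit 2, nat_lit 289, nat_lit 75, nat_lit 10]⟩, C1.Rw.none,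
 ⟨nat_lit 4472, nat_lit 4744, ⟨.ofNat (nat_lit 292052), .ofNat (nat_lit 403571), .ofNat (nat_lit 335021), .ofNat (nat_lit 446540), .ofNat (nat_lit 298407), .ofNat (nat_lit 407171), .ofNat (nat_lit 341533), .ofNat (nat_lit 450297)⟩, ⟨.negSucc (nat_lit 20404), .ofNat (nat_lit 258394), .ofNat (nat_lit 0), .ofNat (nat_lit 301370), .negSucc (nat_lit 12423), .ofNat (nat_lit 259489), .ofNat (nat_lit 0), .ofNat (nat_lit 302621)⟩⟩, []⟩
noncomputable def b_V_700_600_10_29 : St := ⟨true, nat_lit 1, nat_lit 0, nat_lit 2, nat_lit 80, nat_lit 280, nat_lit 320, nat_lit 240, nat_lit 280, nat_lit 36, nat_lit 120, nat_lit 40, nat_lit 80, nat_lit 0, nat_lit 160, nat_lit 0, nat_lit 336, nat_lit 0, nat_lit 40, nat_lit 0, nat_lit 0, nat_lit 0, nat_lit 0⟩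
theorem d_V_700_600_10_29 (h : EB TB.env) : Dead b_V_700_600_10_29 := chkB_sound0 h (T :=
(.spl (nat_lit 0) (nat_lit 300)
(.spl (nat_lit 2) (nat_lit 80)
(.leaf p058_l81)
(.spl (nat_lit 0) (nat_lit 290)
(.spl (nat_lit 6) (nat_lit 20)
(.spl (nat_lit 3) (nat_lit 60)
(.trX (nat_lit 19) (nat_lit 100) (nat_lit 85) (nat_lit 73) (nat_lit 312) (.spl (nat_lit 6) (nat_lit 8)
(.leaf p058_l82)
(.leaf p058_l83)))
(.leaf p058_l84))
(.leaf p058_l85))
(.leaf p058_l86)))
(.trZ (nat_lit 0) (nat_lit 100) (nat_lit 88) (nat_lit 68) (nat_lit 48) (.spl (nat_lit 0) (nat_lit 310)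
(.leaf p058_l87)
(.trZ (nat_lit 0) (nat_lit 100) (nat_lit 85) (nat_lit 72) (nat_lit 56) (.leaf p058_l88)))))) (by decide +kernel)
noncomputable def p058_l89 : Lf2 := ⟨nat_lit 0, nat_lit 5, [nat_lit 4, nat_lit 5, nat_lit 5, nat_lit 20], true, nat_lit 160, nat_lit 240, nat_lit 0, nat_lit 312, ⟨nat_lit 0, nat_lit 1000, nat_lit 0, nat_lit 6, nat_lit 120, nat_lit 1000, nat_lit 136, nat_lit 0, nat_lit 0, nat_lit 0, nat_lit 0, nat_lit 0, nat_lit 0, nat_lit 0, nat_lit 0, nat_lit 5000000, false, false⟩,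
 nat_lit 0, nat_lit 10078, nat_lit 0, nat_lit 0, nat_lit 6413, nat_lit 0, nat_lit 0, nat_lit 0, nat_lit 0, nat_lit 0, nat_lit 0, nat_lit 0, nat_lit 0, nat_lit 0, nat_lit 0, nat_lit 1000000, nat_lit 0, nat_lit 0, [(nat_lit 12, [(nat_lit 2, nat_lit 1000)])],
 ⟨p058_k20, nat_lit 0, nat_lit 0, nat_lit 268, nat_lit 0, nat_lit 421118, [nat_lit 2335200001, nat_lit 1946400000, nat_lit 508400000], [], [nat_lit 21260855568, nat_lit 19613259673, nat_lit 14012423797, nat_lit 13858740854, nat_lit 17448017924, nat_lit 18532930667, nat_lit 16300813330, nat_lit 16696636562], nat_lit 1271250, nat_lit 1271250, nat_lit 205650, nat_lit 490000, nat_lit 1100001, nat_lit 1785000, [nat_lit 780000, nat_lit 1435000, nat_lit 1271250], [nat_lit 18, nat_lit 40, nat_lit 40, nat_lit 80, nat_lit 2, nat_lit 317, nat_lit 100, nat_lit 10]⟩, C1.Rw.none,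
 ⟨nat_lit 5244, nat_lit 5478, ⟨.ofNat (nat_lit 235487), .ofNat (nat_lit 317913), .ofNat (nat_lit 278201), .ofNat (nat_lit 360628), .ofNat (nat_lit 242768), .ofNat (nat_lit 323256), .ofNat (nat_lit 285539), .ofNat (nat_lit 366027)⟩, ⟨.ofNat (nat_lit 254209), .ofNat (nat_lit 404075), .ofNat (nat_lit 275566), .ofNat (nat_lit 425432), .ofNat (nat_lit 255744), .ofNat (nat_lit 402086), .ofNat (nat_lit 277129), .ofNat (nat_lit 423472)⟩⟩, [⟨nat_lit 0, nat_lit 100, nat_lit 97, nat_lit 84, nat_lit 436025820⟩]⟩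
noncomputable def p058_l90 : Lf2 := ⟨nat_lit 0, nat_lit 2, [nat_lit 10, nat_lit 5, nat_lit 5, nat_lit 20], true, nat_lit 160, nat_lit 240, nat_lit 0, nat_lit 312, ⟨nat_lit 0, nat_lit 1000, nat_lit 0, nat_lit 6, nat_lit 151, nat_lit 1000, nat_lit 136, nat_lit 0, nat_lit 0, nat_lit 0, nat_lit 0, nat_lit 0, nat_lit 0, nat_lit 0, nat_lit 0, nat_lit 5000000, false, false⟩,
 nat_lit 0, nat_lit 5342, nat_lit 0, nat_lit 0, nat_lit 3399, nat_lit 0, nat_lit 148, nat_lit 0, nat_lit 0, nat_lit 0, nat_lit 0, nat_lit 0, nat_lit 0, nat_lit 0, nat_lit 0, nat_lit 1000000, nat_lit 0, nat_lit 0, [(nat_lit 12, [(nat_lit 2, nat_lit 1000)])],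
 ⟨p058_k27, nat_lit 0, nat_lit 0, nat_lit 322, nat_lit 0, nat_lit 740667, [nat_lit 1992960000, nat_lit 2327840000, nat_lit 1636000000], [], [nat_lit 22365734392, nat_lit 22252324008, nat_lit 22387069912, nat_lit 22607580865, nat_lit 24159847332, nat_lit 24362874383, nat_lit 24811714556, nat_lit 24652254606], nat_lit 1271250, nat_lit 1271250, nat_lit 490000, nat_lit 780000, nat_lit 1100001, nat_lit 1785000, [nat_lit 780000, nat_lit 1100000, nat_lit 1442500], [nat_lit 59, nat_lit 40, nat_lit 40, nat_lit 80, nat_lit 3, nat_lit 317, nat_lit 100, nat_lit 12]⟩, C1.Rw.none,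
 ⟨nat_lit 5361, nat_lit 5478, ⟨.ofNat (nat_lit 317913), .ofNat (nat_lit 392847), .ofNat (nat_lit 360628), .ofNat (nat_lit 435560), .ofNat (nat_lit 320589), .ofNat (nat_lit 394639), .ofNat (nat_lit 363328), .ofNat (nat_lit 437377)⟩, ⟨.ofNat (nat_lit 254209), .ofNat (nat_lit 404075), .ofNat (nat_lit 275566), .ofNat (nat_lit 425432), .ofNat (nat_lit 254993), .ofNat (nat_lit 403092), .ofNat (nat_lit 276363), .ofNat (nat_lit 424461)⟩⟩, []⟩
noncomputable def p058_l91 : Lf2 := ⟨nat_lit 0, nat_lit 2, [nat_lit 10, nat_lit 5, nat_lit 5, nat_lit 20], true, nat_lit 160, nat_lit 240, nat_lit 0, nat_lit 312, ⟨nat_lit 0, nat_lit 1000, nat_lit 0, nat_lit 6, nat_lit 152, nat_lit 1000, nat_lit 136, nat_lit 0, nat_lit 0, nat_lit 0, nat_lit 0, nat_lit 0, nat_lit 0, nat_lit 0, nat_lit 0, nat_lit 5000000, false, false⟩,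
 nat_lit 0, nat_lit 5507, nat_lit 0, nat_lit 0, nat_lit 3580, nat_lit 0, nat_lit 2135, nat_lit 0, nat_lit 0, nat_lit 0, nat_lit 0, nat_lit 0, nat_lit 0, nat_lit 0, nat_lit 0, nat_lit 400000, nat_lit 0, nat_lit 0, [(nat_lit 12, [(nat_lit 1, nat_lit 1000)])],
 ⟨p058_k46, nat_lit 0, nat_lit 0, nat_lit 331, nat_lit 0, nat_lit 760970, [nat_lit 2033400000, nat_lit 2439600000, nat_lit 2628400000], [], [nat_lit 21454247105, nat_lit 20995060195, nat_lit 20832544425, nat_lit 21058171685, nat_lit 22622858275, nat_lit 22829640985, nat_lit 23276360980, nat_lit 23084931365], nat_lit 1271250, nat_lit 1271250, nat_lit 490000, nat_lit 780000, nat_lit 1100001, nat_lit 1785000, [nat_lit 780000, nat_lit 1100000, nat_lit 1442500], [nat_lit 59, nat_lit 40, nat_lit 40, nat_lit 80, nat_lit 3, nat_lit 317, nat_lit 100, nat_lit 12]⟩, C1.Rw.none,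
 ⟨nat_lit 5244, nat_lit 5362, ⟨.ofNat (nat_lit 320589), .ofNat (nat_lit 394639), .ofNat (nat_lit 363328), .ofNat (nat_lit 437377), .ofNat (nat_lit 323256), .ofNat (nat_lit 396427), .ofNat (nat_lit 366027), .ofNat (nat_lit 439197)⟩, ⟨.ofNat (nat_lit 254993), .ofNat (nat_lit 403092), .ofNat (nat_lit 276363), .ofNat (nat_lit 424461), .ofNat (nat_lit 255744), .ofNat (nat_lit 402086), .ofNat (nat_lit 277129), .ofNat (nat_lit 423472)⟩⟩, []⟩
noncomputable def p058_l92 : Lf2 := ⟨nat_lit 0, nat_lit 5, [nat_lit 4, nat_lit 5, nat_lit 5, nat_lit 20], true, nat_lit 160, nat_lit 240, nat_lit 0, nat_lit 312, ⟨nat_lit 0, nat_lit 1000, nat_lit 0, nat_lit 6, nat_lit 152, nat_lit 1000, nat_lit 136, nat_lit 0, nat_lit 0, nat_lit 0, nat_lit 0, nat_lit 0, nat_lit 0, nat_lit 0, nat_lit 0, nat_lit 5000000, false, false⟩,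
 nat_lit 0, nat_lit 7328, nat_lit 0, nat_lit 0, nat_lit 4663, nat_lit 0, nat_lit 0, nat_lit 0, nat_lit 0, nat_lit 0, nat_lit 0, nat_lit 0, nat_lit 0, nat_lit 0, nat_lit 0, nat_lit 1000000, nat_lit 0, nat_lit 0, [(nat_lit 12, [(nat_lit 2, nat_lit 1000)])],
 ⟨p058_k20, nat_lit 0, nat_lit 0, nat_lit 334, nat_lit 0, nat_lit 650437, [nat_lit 2335200001, nat_lit 1946400000, nat_lit 508400000], [], [nat_lit 19528350989, nat_lit 19961018394, nat_lit 19621847309, nat_lit 20033595810, nat_lit 21289137505, nat_lit 21664134398, nat_lit 22448878174, nat_lit 21642419546], nat_lit 1271250, nat_lit 1271250, nat_lit 490000, nat_lit 780000, nat_lit 1100001, nat_lit 1785000, [nat_lit 780000, nat_lit 1435000, nat_lit 1271250], [nat_lit 18, nat_lit 40, nat_lit 40, nat_lit 80, nat_lit 2, nat_lit 317, nat_lit 100, nat_lit 10]⟩, C1.Rw.none,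
 ⟨nat_lit 5244, nat_lit 5478, ⟨.ofNat (nat_lit 317913), .ofNat (nat_lit 392847), .ofNat (nat_lit 360628), .ofNat (nat_lit 435559), .ofNat (nat_lit 323256), .ofNat (nat_lit 396427), .ofNat (nat_lit 366027), .ofNat (nat_lit 439196)⟩, ⟨.ofNat (nat_lit 254209), .ofNat (nat_lit 404075), .ofNat (nat_lit 275566), .ofNat (nat_lit 425432), .ofNat (nat_lit 255744), .ofNat (nat_lit 402086), .ofNat (nat_lit 277129), .ofNat (nat_lit 423472)⟩⟩, []⟩
noncomputable def p058_l93 : Lf2 := ⟨nat_lit 0, nat_lit 5, [nat_lit 4, nat_lit 5, nat_lit 5, nat_lit 20], true, nat_lit 160, nat_lit 240, nat_lit 0, nat_lit 336, ⟨nat_lit 0, nat_lit 1000, nat_lit 0, nat_lit 6, nat_lit 135, nat_lit 1000, nat_lit 144, nat_lit 0, nat_lit 0, nat_lit 0, nat_lit 0, nat_lit 0, nat_lit 0, nat_lit 0, nat_lit 0, nat_lit 5000000, false, false⟩,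
 nat_lit 0, nat_lit 8106, nat_lit 0, nat_lit 0, nat_lit 5158, nat_lit 0, nat_lit 0, nat_lit 0, nat_lit 0, nat_lit 0, nat_lit 0, nat_lit 0, nat_lit 0, nat_lit 0, nat_lit 0, nat_lit 1000000, nat_lit 0, nat_lit 0, [(nat_lit 12, [(nat_lit 2, nat_lit 1000)])],
 ⟨p058_k20, nat_lit 0, nat_lit 0, nat_lit 371, nat_lit 0, nat_lit 615628, [nat_lit 2335200001, nat_lit 1946400000, nat_lit 508400000], [], [nat_lit 21852006250, nat_lit 20526838680, nat_lit 17826440729, nat_lit 18255131595, nat_lit 20189691035, nat_lit 20595818311, nat_lit 21432664954, nat_lit 20233682696], nat_lit 1271250, nat_lit 1271250, nat_lit 205650, nat_lit 780000, nat_lit 1100001, nat_lit 1785000, [nat_lit 780000, nat_lit 1435000, nat_lit 1271250], [nat_lit 18, nat_lit 40, nat_lit 40, nat_lit 80, nat_lit 2, nat_lit 317, nat_lit 100, nat_lit 10]⟩, C1.Rw.none,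
 ⟨nat_lit 5244, nat_lit 5478, ⟨.ofNat (nat_lit 235487), .ofNat (nat_lit 392847), .ofNat (nat_lit 278201), .ofNat (nat_lit 435559), .ofNat (nat_lit 242768), .ofNat (nat_lit 396427), .ofNat (nat_lit 285539), .ofNat (nat_lit 439196)⟩, ⟨.ofNat (nat_lit 275566), .ofNat (nat_lit 425432), .ofNat (nat_lit 296923), .ofNat (nat_lit 446789), .ofNat (nat_lit 277129), .ofNat (nat_lit 423472), .ofNat (nat_lit 298515), .ofNat (nat_lit 444857)⟩⟩, []⟩
noncomputable def p058_l94 : Lf2 := ⟨nat_lit 0, nat_lit 10, [nat_lit 0, nat_lit 5, nat_lit 5, nat_lit 20], true, nat_lit 160, nat_lit 240, nat_lit 0, nat_lit 336, ⟨nat_lit 0, nat_lit 1000, nat_lit 0, nat_lit 6, nat_lit 135, nat_lit 1000, nat_lit 140, nat_lit 0, nat_lit 0, nat_lit 0, nat_lit 0, nat_lit 0, nat_lit 0, nat_lit 0, nat_lit 0, nat_lit 5000000, false, false⟩,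
 nat_lit 0, nat_lit 8370, nat_lit 0, nat_lit 0, nat_lit 5326, nat_lit 0, nat_lit 0, nat_lit 0, nat_lit 0, nat_lit 0, nat_lit 0, nat_lit 0, nat_lit 0, nat_lit 0, nat_lit 4, nat_lit 958000, nat_lit 0, nat_lit 0, [(nat_lit 12, [(nat_lit 1, nat_lit 70), (nat_lit 2, nat_lit 930)])],
 ⟨p058_k16, nat_lit 0, nat_lit 0, nat_lit 355, nat_lit 0, nat_lit 494551, [nat_lit 2364524001, nat_lit 2080636000, nat_lit 23128000], [], [nat_lit 21808432135, nat_lit 20440102845, nat_lit 16647510985, nat_lit 17117035817, nat_lit 19615951181, nat_lit 20109480592, nat_lit 21104652346, nat_lit 19866618320], nat_lit 1271250, nat_lit 1271250, nat_lit 205650, nat_lit 780000, nat_lit 1100001, nat_lit 1785000, [nat_lit 780000, nat_lit 1435000, nat_lit 1271250], [nat_lit 8, nat_lit 40, nat_lit 40, nat_lit 80, nat_lit 1, nat_lit 317, nat_lit 100, nat_lit 9]⟩, C1.Rw.none,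
 ⟨nat_lit 5244, nat_lit 5478, ⟨.ofNat (nat_lit 235487), .ofNat (nat_lit 392847), .ofNat (nat_lit 278201), .ofNat (nat_lit 435559), .ofNat (nat_lit 242768), .ofNat (nat_lit 396427), .ofNat (nat_lit 285539), .ofNat (nat_lit 439196)⟩, ⟨.ofNat (nat_lit 254209), .ofNat (nat_lit 404075), .ofNat (nat_lit 296923), .ofNat (nat_lit 446789), .ofNat (nat_lit 255744), .ofNat (nat_lit 402086), .ofNat (nat_lit 298515), .ofNat (nat_lit 444857)⟩⟩, []⟩
noncomputable def p058_l95 : Lf2 := ⟨nat_lit 0, nat_lit 10, [nat_lit 0, nat_lit 5, nat_lit 5, nat_lit 20], true, nat_lit 160, nat_lit 240, nat_lit 0, nat_lit 336, ⟨nat_lit 0, nat_lit 1000, nat_lit 0, nat_lit 6, nat_lit 139, nat_lit 1000, nat_lit 140, nat_lit 0, nat_lit 0, nat_lit 0, nat_lit 0, nat_lit 0, nat_lit 0, nat_lit 0, nat_lit 0, nat_lit 5000000, false, false⟩,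
 nat_lit 0, nat_lit 7590, nat_lit 0, nat_lit 0, nat_lit 5040, nat_lit 0, nat_lit 2407, nat_lit 0, nat_lit 0, nat_lit 0, nat_lit 0, nat_lit 0, nat_lit 0, nat_lit 0, nat_lit 0, nat_lit 400000, nat_lit 0, nat_lit 0, [(nat_lit 12, [(nat_lit 1, nat_lit 1000)])],
 ⟨p058_k43, nat_lit 0, nat_lit 0, nat_lit 505, nat_lit 0, nat_lit 896702, [nat_lit 2068400000, nat_lit 2721200001, nat_lit 2682000000], [], [nat_lit 18326131911, nat_lit 17033225751, nat_lit 15428058200, nat_lit 15982488560, nat_lit 17877906360, nat_lit 18405425120, nat_lit 18472954471, nat_lit 18210076720], nat_lit 1271250, nat_lit 1271250, nat_lit 230001, nat_lit 780000, nat_lit 1100001, nat_lit 1785000, [nat_lit 780000, nat_lit 1435000, nat_lit 1271250], [nat_lit 18, nat_lit 40, nat_lit 40, nat_lit 80, nat_lit 2, nat_lit 317, nat_lit 100, nat_lit 10]⟩, C1.Rw.none,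
 ⟨nat_lit 5000, nat_lit 5245, ⟨.ofNat (nat_lit 250085), .ofNat (nat_lit 396427), .ofNat (nat_lit 292856), .ofNat (nat_lit 439194), .ofNat (nat_lit 257141), .ofNat (nat_lit 399998), .ofNat (nat_lit 299999), .ofNat (nat_lit 442852)⟩, ⟨.ofNat (nat_lit 255744), .ofNat (nat_lit 402086), .ofNat (nat_lit 298515), .ofNat (nat_lit 444857), .ofNat (nat_lit 257141), .ofNat (nat_lit 399998), .ofNat (nat_lit 299999), .ofNat (nat_lit 442856)⟩⟩, [⟨nat_lit 4, nat_lit 100, nat_lit 92, nat_lit 75, nat_lit 183840543⟩]⟩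
noncomputable def p058_l96 : Lf2 := ⟨nat_lit 0, nat_lit 5, [nat_lit 4, nat_lit 5, nat_lit 5, nat_lit 20], true, nat_lit 240, nat_lit 276, nat_lit 0, nat_lit 312, ⟨nat_lit 0, nat_lit 1000, nat_lit 0, nat_lit 6, nat_lit 122, nat_lit 1000, nat_lit 178, nat_lit 0, nat_lit 0, nat_lit 0, nat_lit 0, nat_lit 0, nat_lit 0, nat_lit 0, nat_lit 0, nat_lit 5000000, false, false⟩,
 nat_lit 0, nat_lit 8803, nat_lit 0, nat_lit 0, nat_lit 5601, nat_lit 0, nat_lit 0, nat_lit 0, nat_lit 0, nat_lit 0, nat_lit 0, nat_lit 0, nat_lit 0, nat_lit 0, nat_lit 0, nat_lit 1000000, nat_lit 0, nat_lit 0, [(nat_lit 12, [(nat_lit 2, nat_lit 1000)])],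
 ⟨p058_k20, nat_lit 0, nat_lit 0, nat_lit 298, nat_lit 0, nat_lit 469301, [nat_lit 2335200001, nat_lit 1946400000, nat_lit 508400000], [], [nat_lit 18049883357, nat_lit 19263407515, nat_lit 17142528941, nat_lit 18305118820, nat_lit 20075062955, nat_lit 21875859292, nat_lit 18919694555, nat_lit 20250135255], nat_lit 1271250, nat_lit 1271250, nat_lit 205650, nat_lit 490000, nat_lit 1271250, nat_lit 1271250, [nat_lit 780000, nat_lit 1435000, nat_lit 1271250], [nat_lit 18, nat_lit 40, nat_lit 40, nat_lit 80, nat_lit 2, nat_lit 226, nat_lit 20, nat_lit 7]⟩, C1.Rw.none,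
 ⟨nat_lit 5000, nat_lit 5478, ⟨.ofNat (nat_lit 235487), .ofNat (nat_lit 317913), .ofNat (nat_lit 278201), .ofNat (nat_lit 360625), .ofNat (nat_lit 249999), .ofNat (nat_lit 328570), .ofNat (nat_lit 292856), .ofNat (nat_lit 371424)⟩, ⟨.ofNat (nat_lit 404075), .ofNat (nat_lit 471515), .ofNat (nat_lit 425432), .ofNat (nat_lit 492872), .ofNat (nat_lit 399998), .ofNat (nat_lit 464284), .ofNat (nat_lit 421427), .ofNat (nat_lit 485713)⟩⟩, [⟨nat_lit 0, nat_lit 100, nat_lit 94, nat_lit 73, nat_lit 169371237⟩, ⟨nat_lit 16, nat_lit 99, nat_lit 100, nat_lit 77, nat_lit 141581945⟩, ⟨nat_lit 4, nat_lit 100, nat_lit 92, nat_lit 68, nat_lit 362374162⟩]⟩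
noncomputable def p058_l97 : Lf2 := ⟨nat_lit 0, nat_lit 2, [nat_lit 10, nat_lit 5, nat_lit 5, nat_lit 20], true, nat_lit 240, nat_lit 276, nat_lit 0, nat_lit 312, ⟨nat_lit 0, nat_lit 1000, nat_lit 0, nat_lit 6, nat_lit 152, nat_lit 1000, nat_lit 179, nat_lit 0, nat_lit 0, nat_lit 0, nat_lit 0, nat_lit 0, nat_lit 0, nat_lit 0, nat_lit 0, nat_lit 5000000, false, false⟩,
 nat_lit 0, nat_lit 9004, nat_lit 0, nat_lit 0, nat_lit 5729, nat_lit 0, nat_lit 0, nat_lit 0, nat_lit 0, nat_lit 0, nat_lit 0, nat_lit 0, nat_lit 0, nat_lit 0, nat_lit 0, nat_lit 1000000, nat_lit 0, nat_lit 0, [(nat_lit 12, [(nat_lit 2, nat_lit 1000)])],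
 ⟨p058_k18, nat_lit 0, nat_lit 0, nat_lit 340, nat_lit 0, nat_lit 784011, [nat_lit 2335200001, nat_lit 1946399999], [], [nat_lit 17572430430, nat_lit 17977500249, nat_lit 17405783382, nat_lit 17790124733, nat_lit 18911047233, nat_lit 19437625666, nat_lit 18668632340, nat_lit 19127780219], nat_lit 1271250, nat_lit 1271250, nat_lit 490000, nat_lit 780000, nat_lit 1271250, nat_lit 1271250, [nat_lit 780000, nat_lit 1435000], [nat_lit 49, nat_lit 40, nat_lit 40, nat_lit 80, nat_lit 16, nat_lit 238, nat_lit 30, nat_lit 8]⟩, C1.Rw.none,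
 ⟨nat_lit 5244, nat_lit 5478, ⟨.ofNat (nat_lit 317913), .ofNat (nat_lit 392847), .ofNat (nat_lit 360628), .ofNat (nat_lit 435559), .ofNat (nat_lit 323256), .ofNat (nat_lit 396427), .ofNat (nat_lit 366027), .ofNat (nat_lit 439196)⟩, ⟨.ofNat (nat_lit 404075), .ofNat (nat_lit 471515), .ofNat (nat_lit 425432), .ofNat (nat_lit 492872), .ofNat (nat_lit 402086), .ofNat (nat_lit 467940), .ofNat (nat_lit 423472), .ofNat (nat_lit 489326)⟩⟩, [⟨nat_lit 4, nat_lit 100, nat_lit 94, nat_lit 69, nat_lit 1076609081⟩]⟩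
noncomputable def p058_l98 : Lf2 := ⟨nat_lit 0, nat_lit 2, [nat_lit 10, nat_lit 5, nat_lit 5, nat_lit 20], true, nat_lit 240, nat_lit 268, nat_lit 0, nat_lit 312, ⟨nat_lit 0, nat_lit 1000, nat_lit 0, nat_lit 6, nat_lit 153, nat_lit 1000, nat_lit 175, nat_lit 0, nat_lit 0, nat_lit 0, nat_lit 0, nat_lit 0, nat_lit 0, nat_lit 0, nat_lit 0, nat_lit 5000000, false, false⟩,
 nat_lit 0, nat_lit 7933, nat_lit 0, nat_lit 0, nat_lit 5268, nat_lit 0, nat_lit 1929, nat_lit 0, nat_lit 0, nat_lit 0, nat_lit 0, nat_lit 0, nat_lit 0, nat_lit 0, nat_lit 0, nat_lit 400000, nat_lit 0, nat_lit 0, [(nat_lit 12, [(nat_lit 1, nat_lit 1000)])],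
 ⟨p058_k47, nat_lit 0, nat_lit 0, nat_lit 353, nat_lit 0, nat_lit 823552, [nat_lit 2068400000, nat_lit 2721200000], [], [nat_lit 16862625662, nat_lit 17434875232, nat_lit 16887978934, nat_lit 17316263824, nat_lit 18628427970, nat_lit 19486766344, nat_lit 18442600572, nat_lit 19259760607], nat_lit 1271250, nat_lit 1271250, nat_lit 490000, nat_lit 780000, nat_lit 1271250, nat_lit 1271250, [nat_lit 780000, nat_lit 1435000], [nat_lit 49, nat_lit 40, nat_lit 40, nat_lit 80, nat_lit 16, nat_lit 238, nat_lit 30, nat_lit 8]⟩, C1.Rw.none,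
 ⟨nat_lit 5000, nat_lit 5245, ⟨.ofNat (nat_lit 323256), .ofNat (nat_lit 396427), .ofNat (nat_lit 366025), .ofNat (nat_lit 439194), .ofNat (nat_lit 328570), .ofNat (nat_lit 399998), .ofNat (nat_lit 371426), .ofNat (nat_lit 442852)⟩, ⟨.ofNat (nat_lit 402086), .ofNat (nat_lit 453306), .ofNat (nat_lit 423472), .ofNat (nat_lit 474691), .ofNat (nat_lit 399998), .ofNat (nat_lit 449999), .ofNat (nat_lit 421427), .ofNat (nat_lit 471427)⟩⟩, [⟨nat_lit 4, nat_lit 100, nat_lit 90, nat_lit 68, nat_lit 965390558⟩]⟩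
noncomputable def p058_l99 : Lf2 := ⟨nat_lit 0, nat_lit 5, [nat_lit 4, nat_lit 5, nat_lit 5, nat_lit 20], true, nat_lit 240, nat_lit 276, nat_lit 0, nat_lit 312, ⟨nat_lit 0, nat_lit 1000, nat_lit 0, nat_lit 6, nat_lit 152, nat_lit 1000, nat_lit 178, nat_lit 0, nat_lit 0, nat_lit 0, nat_lit 0, nat_lit 0, nat_lit 0, nat_lit 0, nat_lit 0, nat_lit 5000000, false, false⟩,
 nat_lit 0, nat_lit 9430, nat_lit 0, nat_lit 0, nat_lit 6000, nat_lit 0, nat_lit 0, nat_lit 0, nat_lit 0, nat_lit 0, nat_lit 0, nat_lit 0, nat_lit 0, nat_lit 0, nat_lit 0, nat_lit 1000000, nat_lit 0, nat_lit 0, [(nat_lit 12, [(nat_lit 2, nat_lit 1000)])],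
 ⟨p058_k20, nat_lit 0, nat_lit 0, nat_lit 392, nat_lit 0, nat_lit 742101, [nat_lit 2335200001, nat_lit 1946400000, nat_lit 508400000], [], [nat_lit 16773980000, nat_lit 17706080000, nat_lit 16560832000, nat_lit 17444830000, nat_lit 18652250001, nat_lit 20462353300, nat_lit 18330233000, nat_lit 20052045600], nat_lit 1271250, nat_lit 1271250, nat_lit 490000, nat_lit 780000, nat_lit 1271250, nat_lit 1271250, [nat_lit 780000, nat_lit 1435000, nat_lit 1271250], [nat_lit 18, nat_lit 40, nat_lit 40, nat_lit 80, nat_lit 2, nat_lit 238, nat_lit 30, nat_lit 7]⟩, C1.Rw.none,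
 ⟨nat_lit 5000, nat_lit 5478, ⟨.ofNat (nat_lit 317913), .ofNat (nat_lit 392847), .ofNat (nat_lit 360625), .ofNat (nat_lit 435548), .ofNat (nat_lit 328570), .ofNat (nat_lit 399998), .ofNat (nat_lit 371424), .ofNat (nat_lit 442843)⟩, ⟨.ofNat (nat_lit 404075), .ofNat (nat_lit 471515), .ofNat (nat_lit 425432), .ofNat (nat_lit 492872), .ofNat (nat_lit 399998), .ofNat (nat_lit 464284), .ofNat (nat_lit 421427), .ofNat (nat_lit 485713)⟩⟩, [⟨nat_lit 0, nat_lit 100, nat_lit 94, nat_lit 88, nat_lit 18486950⟩, ⟨nat_lit 4, nat_lit 100, nat_lit 92, nat_lit 68, nat_lit 1178377425⟩]⟩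
noncomputable def p058_l100 : Lf2 := ⟨nat_lit 0, nat_lit 5, [nat_lit 4, nat_lit 5, nat_lit 5, nat_lit 20], true, nat_lit 240, nat_lit 300, nat_lit 0, nat_lit 336, ⟨nat_lit 0, nat_lit 1000, nat_lit 0, nat_lit 6, nat_lit 135, nat_lit 1000, nat_lit 196, nat_lit 0, nat_lit 0, nat_lit 0, nat_lit 0, nat_lit 0, nat_lit 0, nat_lit 0, nat_lit 0, nat_lit 5000000, false, false⟩,
 nat_lit 0, nat_lit 8171, nat_lit 0, nat_lit 0, nat_lit 5199, nat_lit 0, nat_lit 0, nat_lit 0, nat_lit 0, nat_lit 0, nat_lit 0, nat_lit 0, nat_lit 0, nat_lit 0, nat_lit 0, nat_lit 1000000, nat_lit 0, nat_lit 0, [(nat_lit 12, [(nat_lit 2, nat_lit 1000)])],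
 ⟨p058_k20, nat_lit 0, nat_lit 0, nat_lit 372, nat_lit 0, nat_lit 615628, [nat_lit 2335200001, nat_lit 1946400000, nat_lit 508400000], [], [nat_lit 20057302822, nat_lit 20464681344, nat_lit 19334614505, nat_lit 19705430786, nat_lit 22140789832, nat_lit 22494783253, nat_lit 21229318823, nat_lit 21552052252], nat_lit 1271250, nat_lit 1271250, nat_lit 205650, nat_lit 780000, nat_lit 1271250, nat_lit 1271250, [nat_lit 780000, nat_lit 1435000, nat_lit 1271250], [nat_lit 18, nat_lit 40, nat_lit 40, nat_lit 80, nat_lit 2, nat_lit 238, nat_lit 30, nat_lit 7]⟩, C1.Rw.none,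
 ⟨nat_lit 5244, nat_lit 5478, ⟨.ofNat (nat_lit 235487), .ofNat (nat_lit 392847), .ofNat (nat_lit 278201), .ofNat (nat_lit 435559), .ofNat (nat_lit 242768), .ofNat (nat_lit 396427), .ofNat (nat_lit 285539), .ofNat (nat_lit 439196)⟩, ⟨.ofNat (nat_lit 425432), .ofNat (nat_lit 537832), .ofNat (nat_lit 446789), .ofNat (nat_lit 559189), .ofNat (nat_lit 423472), .ofNat (nat_lit 533228), .ofNat (nat_lit 444857), .ofNat (nat_lit 554614)⟩⟩, [⟨nat_lit 0, nat_lit 100, nat_lit 97, nat_lit 84, nat_lit 36372150⟩, ⟨nat_lit 4, nat_lit 100, nat_lit 99, nat_lit 83, nat_lit 316097095⟩]⟩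
noncomputable def p058_l101 : Lf2 := ⟨nat_lit 0, nat_lit 5, [nat_lit 4, nat_lit 5, nat_lit 5, nat_lit 20], true, nat_lit 240, nat_lit 292, nat_lit 0, nat_lit 336, ⟨nat_lit 0, nat_lit 1000, nat_lit 0, nat_lit 6, nat_lit 139, nat_lit 1000, nat_lit 192, nat_lit 0, nat_lit 0, nat_lit 0, nat_lit 0, nat_lit 0, nat_lit 0, nat_lit 0, nat_lit 0, nat_lit 5000000, false, false⟩,
 nat_lit 0, nat_lit 6746, nat_lit 0, nat_lit 0, nat_lit 4479, nat_lit 0, nat_lit 2168, nat_lit 0, nat_lit 0, nat_lit 0, nat_lit 0, nat_lit 0, nat_lit 0, nat_lit 0, nat_lit 0, nat_lit 400000, nat_lit 0, nat_lit 0, [(nat_lit 12, [(nat_lit 1, nat_lit 1000)])],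
 ⟨p058_k48, nat_lit 0, nat_lit 0, nat_lit 327, nat_lit 0, nat_lit 667430, [nat_lit 2068400000, nat_lit 2721200000], [], [nat_lit 18924656195, nat_lit 19417587574, nat_lit 18807103530, nat_lit 19257883408, nat_lit 21180347804, nat_lit 21677286763, nat_lit 20998359996, nat_lit 21453313499], nat_lit 1271250, nat_lit 1271250, nat_lit 230001, nat_lit 780000, nat_lit 1271250, nat_lit 1271250, [nat_lit 780000, nat_lit 1435000], [nat_lit 49, nat_lit 40, nat_lit 40, nat_lit 80, nat_lit 16, nat_lit 238, nat_lit 30, nat_lit 8]⟩, C1.Rw.none,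
 ⟨nat_lit 5000, nat_lit 5245, ⟨.ofNat (nat_lit 250085), .ofNat (nat_lit 396427), .ofNat (nat_lit 292856), .ofNat (nat_lit 439194), .ofNat (nat_lit 257141), .ofNat (nat_lit 399998), .ofNat (nat_lit 299999), .ofNat (nat_lit 442852)⟩, ⟨.ofNat (nat_lit 423472), .ofNat (nat_lit 518594), .ofNat (nat_lit 444857), .ofNat (nat_lit 539979), .ofNat (nat_lit 421427), .ofNat (nat_lit 514284), .ofNat (nat_lit 442856), .ofNat (nat_lit 535713)⟩⟩, [⟨nat_lit 4, nat_lit 100, nat_lit 94, nat_lit 81, nat_lit 403573983⟩]⟩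
noncomputable def p058_l102 : Lf2 := ⟨nat_lit 0, nat_lit 10, [nat_lit 0, nat_lit 5, nat_lit 5, nat_lit 20], true, nat_lit 240, nat_lit 300, nat_lit 0, nat_lit 336, ⟨nat_lit 0, nat_lit 1000, nat_lit 0, nat_lit 6, nat_lit 136, nat_lit 1000, nat_lit 191, nat_lit 0, nat_lit 0, nat_lit 0, nat_lit 0, nat_lit 0, nat_lit 0, nat_lit 0, nat_lit 0, nat_lit 5000000, false, false⟩,
 nat_lit 0, nat_lit 9092, nat_lit 0, nat_lit 0, nat_lit 5785, nat_lit 0, nat_lit 195, nat_lit 0, nat_lit 0, nat_lit 0, nat_lit 0, nat_lit 0, nat_lit 0, nat_lit 0, nat_lit 12, nat_lit 1000000, nat_lit 0, nat_lit 0, [(nat_lit 12, [(nat_lit 2, nat_lit 1000)])],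
 ⟨p058_k16, nat_lit 0, nat_lit 0, nat_lit 422, nat_lit 0, nat_lit 592054, [nat_lit 2479200001, nat_lit 2186400000, nat_lit 42000000], [], [nat_lit 18240592774, nat_lit 19198715684, nat_lit 17201982361, nat_lit 18057292760, nat_lit 22260448449, nat_lit 23963746999, nat_lit 20178616520, nat_lit 21746559593], nat_lit 1271250, nat_lit 1271250, nat_lit 205650, nat_lit 780000, nat_lit 1271250, nat_lit 1271250, [nat_lit 780000, nat_lit 1435000, nat_lit 1271250], [nat_lit 8, nat_lit 40, nat_lit 40, nat_lit 80, nat_lit 1, nat_lit 345, nat_lit 125, nat_lit 9]⟩, C1.Rw.none,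
 ⟨nat_lit 5000, nat_lit 5478, ⟨.ofNat (nat_lit 235487), .ofNat (nat_lit 392847), .ofNat (nat_lit 278201), .ofNat (nat_lit 435548), .ofNat (nat_lit 249999), .ofNat (nat_lit 399998), .ofNat (nat_lit 292856), .ofNat (nat_lit 442843)⟩, ⟨.ofNat (nat_lit 404075), .ofNat (nat_lit 516475), .ofNat (nat_lit 446789), .ofNat (nat_lit 559189), .ofNat (nat_lit 399998), .ofNat (nat_lit 507141), .ofNat (nat_lit 442856), .ofNat (nat_lit 549998)⟩⟩, [⟨nat_lit 0, nat_lit 100, nat_lit 94, nat_lit 88, nat_lit 58874111⟩, ⟨nat_lit 16, nat_lit 94, nat_lit 100, nat_lit 75, nat_lit 951752670⟩]⟩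
noncomputable def p058_l103 : Lf2 := ⟨nat_lit 0, nat_lit 5, [nat_lit 4, nat_lit 5, nat_lit 5, nat_lit 20], true, nat_lit 160, nat_lit 280, nat_lit 0, nat_lit 336, ⟨nat_lit 0, nat_lit 1000, nat_lit 0, nat_lit 6, nat_lit 144, nat_lit 1000, nat_lit 154, nat_lit 0, nat_lit 0, nat_lit 0, nat_lit 0, nat_lit 0, nat_lit 0, nat_lit 0, nat_lit 0, nat_lit 5000000, false, false⟩,
 nat_lit 0, nat_lit 6905, nat_lit 0, nat_lit 0, nat_lit 4780, nat_lit 0, nat_lit 744, nat_lit 0, nat_lit 0, nat_lit 0, nat_lit 0, nat_lit 0, nat_lit 0, nat_lit 0, nat_lit 0, nat_lit 1000000, nat_lit 0, nat_lit 0, [(nat_lit 15, [(nat_lit 2, nat_lit 1000)])],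
 ⟨p058_k49, nat_lit 0, nat_lit 0, nat_lit 430, nat_lit 0, nat_lit 907568, [nat_lit 1981440001, nat_lit 1705600000, nat_lit 736000000], [], [nat_lit 17687766607, nat_lit 18207479930, nat_lit 17806875606, nat_lit 18283867766, nat_lit 21310309518, nat_lit 21722776434, nat_lit 21913786721, nat_lit 21501509576], nat_lit 1271250, nat_lit 1271250, nat_lit 279600, nat_lit 780000, nat_lit 1100001, nat_lit 2127500, [nat_lit 780000, nat_lit 1100000, nat_lit 1442500], [nat_lit 59, nat_lit 40, nat_lit 40, nat_lit 80, nat_lit 3, nat_lit 317, nat_lit 100, nat_lit 12]⟩, C1.Rw.none,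
 ⟨nat_lit 4743, nat_lit 5000, ⟨.ofNat (nat_lit 271427), .ofNat (nat_lit 399997), .ofNat (nat_lit 314281), .ofNat (nat_lit 442849), .ofNat (nat_lit 278116), .ofNat (nat_lit 403574), .ofNat (nat_lit 321088), .ofNat (nat_lit 446544)⟩, ⟨.ofNat (nat_lit 257141), .ofNat (nat_lit 471427), .ofNat (nat_lit 299999), .ofNat (nat_lit 514284), .ofNat (nat_lit 258394), .ofNat (nat_lit 467493), .ofNat (nat_lit 301370), .ofNat (nat_lit 510469)⟩⟩, [⟨nat_lit 0, nat_lit 100, nat_lit 91, nat_lit 91, nat_lit 250689⟩, ⟨nat_lit 4, nat_lit 100, nat_lit 88, nat_lit 74, nat_lit 340243225⟩]⟩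
noncomputable def p058_l104 : Lf2 := ⟨nat_lit 0, nat_lit 5, [nat_lit 4, nat_lit 5, nat_lit 5, nat_lit 20], true, nat_lit 160, nat_lit 268, nat_lit 0, nat_lit 336, ⟨nat_lit 0, nat_lit 1000, nat_lit 0, nat_lit 6, nat_lit 149, nat_lit 1000, nat_lit 149, nat_lit 0, nat_lit 0, nat_lit 0, nat_lit 0, nat_lit 0, nat_lit 0, nat_lit 0, nat_lit 0, nat_lit 5000000, false, false⟩,
 nat_lit 0, nat_lit 6745, nat_lit 0, nat_lit 0, nat_lit 4862, nat_lit 0, nat_lit 568, nat_lit 0, nat_lit 0, nat_lit 0, nat_lit 0, nat_lit 0, nat_lit 0, nat_lit 0, nat_lit 0, nat_lit 400000, nat_lit 0, nat_lit 0, [(nat_lit 15, [(nat_lit 1, nat_lit 1000)])],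
 ⟨p058_k24, nat_lit 0, nat_lit 0, nat_lit 437, nat_lit 0, nat_lit 944347, [nat_lit 2020200000, nat_lit 2354866667], [], [nat_lit 18178692856, nat_lit 18635839277, nat_lit 18144077404, nat_lit 18624744968, nat_lit 21116336669, nat_lit 21587626444, nat_lit 20968960323, nat_lit 21361377062], nat_lit 1271250, nat_lit 1271250, nat_lit 330400, nat_lit 780000, nat_lit 1100001, nat_lit 2024750, [nat_lit 780000, nat_lit 1435000], [nat_lit 49, nat_lit 40, nat_lit 40, nat_lit 80, nat_lit 16, nat_lit 317, nat_lit 100, nat_lit 12]⟩, C1.Rw.none,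
 ⟨nat_lit 4472, nat_lit 4744, ⟨.ofNat (nat_lit 292052), .ofNat (nat_lit 403571), .ofNat (nat_lit 335021), .ofNat (nat_lit 446540), .ofNat (nat_lit 298407), .ofNat (nat_lit 407171), .ofNat (nat_lit 341533), .ofNat (nat_lit 450297)⟩, ⟨.ofNat (nat_lit 258394), .ofNat (nat_lit 446583), .ofNat (nat_lit 301370), .ofNat (nat_lit 489559), .ofNat (nat_lit 259489), .ofNat (nat_lit 443030), .ofNat (nat_lit 302621), .ofNat (nat_lit 486162)⟩⟩, [⟨nat_lit 4, nat_lit 100, nat_lit 83, nat_lit 73, nat_lit 356609855⟩]⟩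
noncomputable def p058_l105 : Lf2 := ⟨nat_lit 0, nat_lit 10, [nat_lit 0, nat_lit 5, nat_lit 5, nat_lit 20], true, nat_lit 160, nat_lit 280, nat_lit 0, nat_lit 336, ⟨nat_lit 0, nat_lit 1000, nat_lit 0, nat_lit 6, nat_lit 145, nat_lit 1000, nat_lit 154, nat_lit 0, nat_lit 0, nat_lit 0, nat_lit 0, nat_lit 0, nat_lit 0, nat_lit 0, nat_lit 0, nat_lit 5000000, false, false⟩,
 nat_lit 0, nat_lit 6636, nat_lit 0, nat_lit 0, nat_lit 4594, nat_lit 0, nat_lit 792, nat_lit 0, nat_lit 0, nat_lit 0, nat_lit 0, nat_lit 0, nat_lit 0, nat_lit 0, nat_lit 0, nat_lit 400000, nat_lit 0, nat_lit 0, [(nat_lit 15, [(nat_lit 1, nat_lit 1000)])],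
 ⟨p058_k25, nat_lit 0, nat_lit 0, nat_lit 410, nat_lit 0, nat_lit 710111, [nat_lit 2020200000, nat_lit 2354866667, nat_lit 2328333333], [], [nat_lit 18080641368, nat_lit 18976108387, nat_lit 17997437046, nat_lit 18822333659, nat_lit 21367962093, nat_lit 22334472209, nat_lit 22174165577, nat_lit 22078066872], nat_lit 1271250, nat_lit 1271250, nat_lit 279600, nat_lit 780000, nat_lit 1100001, nat_lit 2127500, [nat_lit 780000, nat_lit 1435000, nat_lit 1271250], [nat_lit 18, nat_lit 40, nat_lit 40, nat_lit 80, nat_lit 2, nat_lit 317, nat_lit 100, nat_lit 10]⟩, C1.Rw.none,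
 ⟨nat_lit 4472, nat_lit 5000, ⟨.ofNat (nat_lit 271418), .ofNat (nat_lit 399984), .ofNat (nat_lit 314253), .ofNat (nat_lit 442816), .ofNat (nat_lit 284805), .ofNat (nat_lit 407160), .ofNat (nat_lit 327916), .ofNat (nat_lit 450269)⟩, ⟨.ofNat (nat_lit 257141), .ofNat (nat_lit 471427), .ofNat (nat_lit 299999), .ofNat (nat_lit 514284), .ofNat (nat_lit 259489), .ofNat (nat_lit 463423), .ofNat (nat_lit 302621), .ofNat (nat_lit 506556)⟩⟩, [⟨nat_lit 4, nat_lit 100, nat_lit 85, nat_lit 73, nat_lit 364673640⟩]⟩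
noncomputable def b_V_700_600_10_30 : St := ⟨true, nat_lit 1, nat_lit 0, nat_lit 2, nat_lit 80, nat_lit 280, nat_lit 320, nat_lit 240, nat_lit 280, nat_lit 36, nat_lit 120, nat_lit 40, nat_lit 80, nat_lit 160, nat_lit 300, nat_lit 0, nat_lit 336, nat_lit 0, nat_lit 40, nat_lit 0, nat_lit 0, nat_lit 0, nat_lit 0⟩
theorem d_V_700_600_10_30 (h : EB TB.env) : Dead b_V_700_600_10_30 := chkB_sound0 h (T :=
(.spl (nat_lit 0) (nat_lit 300)
(.spl (nat_lit 4) (nat_lit 240)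
(.spl (nat_lit 0) (nat_lit 290)
(.spl (nat_lit 6) (nat_lit 20)
(.spl (nat_lit 3) (nat_lit 60)
(.trX (nat_lit 19) (nat_lit 100) (nat_lit 85) (nat_lit 73) (nat_lit 312) (.spl (nat_lit 2) (nat_lit 80)
(.leaf p058_l89)
(.spl (nat_lit 6) (nat_lit 8)
(.spl (nat_lit 0) (nat_lit 285)
(.leaf p058_l90)
(.leaf p058_l91))
(.leaf p058_l92))))
(.leaf p058_l93))
(.leaf p058_l94))
(.trZ (nat_lit 0) (nat_lit 100) (nat_lit 91) (nat_lit 63) (nat_lit 40) (.leaf p058_l95)))
(.spl (nat_lit 6) (nat_lit 20)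
(.spl (nat_lit 3) (nat_lit 60)
(.trX (nat_lit 16) (nat_lit 99) (nat_lit 100) (nat_lit 77) (nat_lit 276) (.trX (nat_lit 19) (nat_lit 100) (nat_lit 85) (nat_lit 73) (nat_lit 312) (.spl (nat_lit 2) (nat_lit 80)
(.leaf p058_l96)
(.spl (nat_lit 6) (nat_lit 8)
(.spl (nat_lit 0) (nat_lit 290)
(.leaf p058_l97)
(.trX (nat_lit 16) (nat_lit 94) (nat_lit 100) (nat_lit 75) (nat_lit 268) (.leaf p058_l98)))
(.leaf p058_l99)))))
(.spl (nat_lit 0) (nat_lit 290)
(.leaf p058_l100)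
(.trZ (nat_lit 0) (nat_lit 100) (nat_lit 91) (nat_lit 63) (nat_lit 40) (.trX (nat_lit 16) (nat_lit 100) (nat_lit 100) (nat_lit 89) (nat_lit 292) (.leaf p058_l101)))))
(.leaf p058_l102)))
(.trZ (nat_lit 0) (nat_lit 100) (nat_lit 88) (nat_lit 68) (nat_lit 48) (.trX (nat_lit 16) (nat_lit 94) (nat_lit 100) (nat_lit 87) (nat_lit 280) (.spl (nat_lit 6) (nat_lit 20)
(.spl (nat_lit 0) (nat_lit 310)
(.leaf p058_l103)
(.trZ (nat_lit 0) (nat_lit 100) (nat_lit 85) (nat_lit 72) (nat_lit 56) (.trX (nat_lit 16) (nat_lit 89) (nat_lit 100) (nat_lit 85) (nat_lit 268) (.leaf p058_l104))))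
(.leaf p058_l105)))))) (by decide +kernel)
noncomputable def p058_l106 : Lf2 := ⟨nat_lit 0, nat_lit 10, [nat_lit 0, nat_lit 5, nat_lit 5, nat_lit 20], false, nat_lit 0, nat_lit 160, nat_lit 0, nat_lit 160, ⟨nat_lit 1000, nat_lit 0, nat_lit 0, nat_lit 0, nat_lit 0, nat_lit 0, nat_lit 0, nat_lit 0, nat_lit 0, nat_lit 0, nat_lit 0, nat_lit 0, nat_lit 0, nat_lit 0, nat_lit 0, nat_lit 0, false, false⟩,
 nat_lit 0, nat_lit 9001, nat_lit 0, nat_lit 0, nat_lit 5727, nat_lit 8598, nat_lit 819, nat_lit 0, nat_lit 0, nat_lit 1862, nat_lit 0, nat_lit 0, nat_lit 0, nat_lit 0, nat_lit 0, nat_lit 0, nat_lit 0, nat_lit 0, [],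
 ⟨p058_k16, nat_lit 0, nat_lit 0, nat_lit 579, nat_lit 0, nat_lit 770812, [nat_lit 3282000000, nat_lit 6250000000, nat_lit 9842000000], [], [nat_lit 38259043680, nat_lit 37770685607, nat_lit 43364846668, nat_lit 43788543564, nat_lit 34900059391, nat_lit 35482516397, nat_lit 45152707068, nat_lit 42625118526], nat_lit 1271250, nat_lit 1271250, nat_lit 780000, nat_lit 3072500, nat_lit 0, nat_lit 1100001, [nat_lit 780000, nat_lit 1435000, nat_lit 1271250], [nat_lit 8, nat_lit 40, nat_lit 40, nat_lit 80, nat_lit 1, nat_lit 373, nat_lit 150, nat_lit 11]⟩, ⟨p058_k22, nat_lit 0, nat_lit 0, nat_lit 251, nat_lit 0, nat_lit 0, [nat_lit 4688000000, nat_lit 7968000000, nat_lit 11872000000], [], [nat_lit 19412958840, nat_lit 20990281648, nat_lit 40342907616, nat_lit 41429741992, nat_lit 14868390560, nat_lit 16301598672, nat_lit 31434962456, nat_lit 32104098412], nat_lit 0, nat_lit 0, nat_lit 0, nat_lit 0, nat_lit 0, nat_lit 0, [],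 [nat_lit 21, nat_lit 40, nat_lit 40, nat_lit 80, nat_lit 14, nat_lit 456, nat_lit 225, nat_lit 12]⟩,
 zbF0, []⟩
noncomputable def p058_l107 : Lf2 := ⟨nat_lit 0, nat_lit 10, [nat_lit 0, nat_lit 5, nat_lit 5, nat_lit 20], false, nat_lit 0, nat_lit 160, nat_lit 0, nat_lit 160, ⟨nat_lit 1000, nat_lit 0, nat_lit 0, nat_lit 0, nat_lit 0, nat_lit 0, nat_lit 0, nat_lit 0, nat_lit 0, nat_lit 0, nat_lit 0, nat_lit 0, nat_lit 0, nat_lit 0, nat_lit 0, nat_lit 0, false, false⟩,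
 nat_lit 0, nat_lit 8339, nat_lit 0, nat_lit 0, nat_lit 5306, nat_lit 8243, nat_lit 794, nat_lit 0, nat_lit 0, nat_lit 2125, nat_lit 0, nat_lit 0, nat_lit 0, nat_lit 0, nat_lit 0, nat_lit 0, nat_lit 0, nat_lit 0, [],
 ⟨p058_k16, nat_lit 0, nat_lit 0, nat_lit 610, nat_lit 0, nat_lit 854423, [nat_lit 3282000000, nat_lit 6250000000, nat_lit 9842000000], [], [nat_lit 40079251426, nat_lit 40382579678, nat_lit 45650976112, nat_lit 45839154692, nat_lit 38340446810, nat_lit 38593436254, nat_lit 45055841704, nat_lit 43884950766], nat_lit 1271250, nat_lit 1271250, nat_lit 780000, nat_lit 3072500, nat_lit 0, nat_lit 1100001, [nat_lit 780000, nat_lit 1435000, nat_lit 1271250], [nat_lit 8, nat_lit 40, nat_lit 40, nat_lit 80, nat_lit 1, nat_lit 373, nat_lit 150, nat_lit 11]⟩, ⟨p058_k36, nat_lit 0, nat_lit 0, nat_lit 226, nat_lit 0, nat_lit 0, [nat_lit 4688000000, nat_lit 7968000000, nat_lit 9842000000], [], [nat_lit 17584366906, nat_lit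 19637038496, nat_lit 40520869572, nat_lit 41587677688, nat_lit 13551901952, nat_lit 14950268944, nat_lit 30906213572, nat_lit 31858166184], nat_lit 0, nat_lit 0, nat_lit 0, nat_lit 0, nat_lit 0, nat_lit 0, [], [nat_lit 29, nat_lit 40, nat_lit 40, nat_lit 80, nat_lit 17, nat_lit 456, nat_lit 225, nat_lit 13]⟩,
 zbF0, []⟩
noncomputable def p058_l108 : Lf2 := ⟨nat_lit 0, nat_lit 10, [nat_lit 0, nat_lit 5, nat_lit 5, nat_lit 20], false, nat_lit 0, nat_lit 160, nat_lit 0, nat_lit 160, ⟨nat_lit 1000, nat_lit 0, nat_lit 0, nat_lit 0, nat_lit 0, nat_lit 0, nat_lit 0, nat_lit 0, nat_lit 0, nat_lit 0, nat_lit 0, nat_lit 0, nat_lit 0, nat_lit 0, nat_lit 0, nat_lit 0, false, false⟩,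
 nat_lit 0, nat_lit 9165, nat_lit 0, nat_lit 0, nat_lit 6086, nat_lit 7460, nat_lit 1898, nat_lit 0, nat_lit 0, nat_lit 1294, nat_lit 0, nat_lit 0, nat_lit 0, nat_lit 0, nat_lit 0, nat_lit 0, nat_lit 0, nat_lit 0, [],
 ⟨p058_k43, nat_lit 0, nat_lit 0, nat_lit 553, nat_lit 0, nat_lit 896702, [nat_lit 3282000000, nat_lit 6250000000, nat_lit 7968000000], [], [nat_lit 35405915006, nat_lit 33796965272, nat_lit 36532995486, nat_lit 37122353996, nat_lit 29031630472, nat_lit 29302475604, nat_lit 40602739006, nat_lit 39276471800], nat_lit 1271250, nat_lit 1271250, nat_lit 780000, nat_lit 3072500, nat_lit 0, nat_lit 1100001, [nat_lit 780000, nat_lit 1435000, nat_lit 1271250], [nat_lit 18, nat_lit 40, nat_lit 40, nat_lit 80, nat_lit 2, nat_lit 373, nat_lit 150, nat_lit 12]⟩, ⟨p058_k36, nat_lit 0, nat_lit 0, nat_lit 226, nat_lit 0, nat_lit 0, [nat_lit 4688000000, nat_lit 7968000000, nat_lit 9842000000], [], [nat_lit 20512442640,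 nat_lit 22143831000, nat_lit 38516229840, nat_lit 39538867360, nat_lit 16738967840, nat_lit 17913251680, nat_lit 30306991240, nat_lit 30989280480], nat_lit 0, nat_lit 0, nat_lit 0, nat_lit 0, nat_lit 0, nat_lit 0, [], [nat_lit 29, nat_lit 40, nat_lit 40, nat_lit 80, nat_lit 17, nat_lit 456, nat_lit 225, nat_lit 13]⟩,
 zbF0, []⟩
noncomputable def p058_l109 : Lf2 := ⟨nat_lit 0, nat_lit 10, [nat_lit 0, nat_lit 5, nat_lit 5, nat_lit 20], false, nat_lit 0, nat_lit 160, nat_lit 0, nat_lit 160, ⟨nat_lit 1000, nat_lit 0, nat_lit 0, nat_lit 0, nat_lit 0, nat_lit 0, nat_lit 0, nat_lit 0, nat_lit 0, nat_lit 0, nat_lit 0, nat_lit 0, nat_lit 0, nat_lit 0, nat_lit 0, nat_lit 0, false, false⟩,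
 nat_lit 0, nat_lit 8743, nat_lit 0, nat_lit 0, nat_lit 6052, nat_lit 7634, nat_lit 1474, nat_lit 0, nat_lit 0, nat_lit 1520, nat_lit 0, nat_lit 0, nat_lit 0, nat_lit 0, nat_lit 0, nat_lit 0, nat_lit 0, nat_lit 0, [],
 ⟨p058_k25, nat_lit 0, nat_lit 0, nat_lit 624, nat_lit 0, nat_lit 1030462, [nat_lit 3282000000, nat_lit 6250000000, nat_lit 7968000000], [], [nat_lit 32749163054, nat_lit 29549240678, nat_lit 37030309672, nat_lit 38205947312, nat_lit 24534372922, nat_lit 25195970886, nat_lit 38282510350, nat_lit 35644794566], nat_lit 1271250, nat_lit 1271250, nat_lit 780000, nat_lit 3072500, nat_lit 0, nat_lit 1100001, [nat_lit 780000, nat_lit 1435000, nat_lit 1271250], [nat_lit 18, nat_lit 40, nat_lit 40, nat_lit 80, nat_lit 2, nat_lit 373, nat_lit 150, nat_lit 12]⟩, ⟨p058_k22, nat_lit 0, nat_lit 0, nat_lit 251, nat_lit 0, nat_lit 0, [nat_lit 4688000000, nat_lit 7968000000, nat_lit 11872000000], [], [nat_lit 21435996720,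 nat_lit 24381654848, nat_lit 38695406456, nat_lit 40208913304, nat_lit 17017416480, nat_lit 19694611072, nat_lit 31741155848, nat_lit 33039668544], nat_lit 0, nat_lit 0, nat_lit 0, nat_lit 0, nat_lit 0, nat_lit 0, [], [nat_lit 21, nat_lit 40, nat_lit 40, nat_lit 80, nat_lit 14, nat_lit 456, nat_lit 225, nat_lit 12]⟩,
 zbF0, []⟩
noncomputable def p058_l110 : Lf2 := ⟨nat_lit 0, nat_lit 10, [nat_lit 0, nat_lit 5, nat_lit 5, nat_lit 20], false, nat_lit 160, nat_lit 300, nat_lit 0, nat_lit 160, ⟨nat_lit 1000, nat_lit 0, nat_lit 0, nat_lit 0, nat_lit 0, nat_lit 0, nat_lit 0, nat_lit 0, nat_lit 0, nat_lit 0, nat_lit 0, nat_lit 0, nat_lit 0, nat_lit 0, nat_lit 0, nat_lit 0, false, false⟩,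
 nat_lit 0, nat_lit 12856, nat_lit 0, nat_lit 0, nat_lit 8180, nat_lit 8734, nat_lit 1232, nat_lit 0, nat_lit 0, nat_lit 3480, nat_lit 0, nat_lit 0, nat_lit 0, nat_lit 0, nat_lit 0, nat_lit 0, nat_lit 0, nat_lit 0, [],
 ⟨p058_k32, nat_lit 0, nat_lit 0, nat_lit 550, nat_lit 0, nat_lit 952182, [nat_lit 3282000000, nat_lit 4688000000, nat_lit 9842000000], [], [nat_lit 21858941440, nat_lit 19023517040, nat_lit 29594581920, nat_lit 25791683560, nat_lit 23092174720, nat_lit 24302835900, nat_lit 24184020500, nat_lit 25267297970], nat_lit 1271250, nat_lit 1271250, nat_lit 780000, nat_lit 1762500, nat_lit 1271250, nat_lit 1271250, [nat_lit 780000, nat_lit 1100000, nat_lit 2127500], [nat_lit 42, nat_lit 40, nat_lit 40, nat_lit 80, nat_lit 13, nat_lit 373, nat_lit 150, nat_lit 10]⟩, ⟨p058_k44, nat_lit 0, nat_lit 0, nat_lit 202, nat_lit 0, nat_lit 0, [nat_lit 4688000000, nat_lit 6250000000, nat_lit 11872000000], [], [nat_lit 15183209720,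 nat_lit 18368833016, nat_lit 19683393776, nat_lit 23307850328, nat_lit 10464359136, nat_lit 13681334408, nat_lit 14606608680, nat_lit 17392681120], nat_lit 0, nat_lit 0, nat_lit 0, nat_lit 0, nat_lit 0, nat_lit 0, [], [nat_lit 48, nat_lit 40, nat_lit 40, nat_lit 80, nat_lit 12, nat_lit 401, nat_lit 175, nat_lit 10]⟩,
 zbF0, [⟨nat_lit 4, nat_lit 100, nat_lit 94, nat_lit 75, nat_lit 579110573⟩]⟩
noncomputable def p058_l111 : Lf2 := ⟨nat_lit 0, nat_lit 10, [nat_lit 0, nat_lit 5, nat_lit 5, nat_lit 20], false, nat_lit 160, nat_lit 280, nat_lit 0, nat_lit 160, ⟨nat_lit 1000, nat_lit 0, nat_lit 0, nat_lit 0, nat_lit 0, nat_lit 0, nat_lit 0, nat_lit 0, nat_lit 0, nat_lit 0, nat_lit 0, nat_lit 0, nat_lit 0, nat_lit 0, nat_lit 0, nat_lit 0, false, false⟩,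
 nat_lit 0, nat_lit 10170, nat_lit 0, nat_lit 0, nat_lit 7040, nat_lit 8243, nat_lit 1791, nat_lit 0, nat_lit 0, nat_lit 1750, nat_lit 0, nat_lit 0, nat_lit 0, nat_lit 0, nat_lit 0, nat_lit 0, nat_lit 0, nat_lit 0, [],
 ⟨p058_k25, nat_lit 0, nat_lit 0, nat_lit 520, nat_lit 0, nat_lit 1030462, [nat_lit 3282000000, nat_lit 6250000000, nat_lit 7968000000], [], [nat_lit 18902732000, nat_lit 17356608895, nat_lit 17895078320, nat_lit 19863715200, nat_lit 20711452560, nat_lit 22586108240, nat_lit 26193740960, nat_lit 25002480480], nat_lit 1271250, nat_lit 1271250, nat_lit 780000, nat_lit 1762500, nat_lit 1100001, nat_lit 2127500, [nat_lit 780000, nat_lit 1435000, nat_lit 1271250], [nat_lit 18, nat_lit 40, nat_lit 40, nat_lit 80, nat_lit 2, nat_lit 373, nat_lit 150, nat_lit 12]⟩, ⟨p058_k22, nat_lit 0, nat_lit 0, nat_lit 212, nat_lit 0, nat_lit 0, [nat_lit 4688000000, nat_lit 7968000000, nat_lit 11872000000], [], [nat_lit 20065055440,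 nat_lit 23143288496, nat_lit 24115490580, nat_lit 27250682064, nat_lit 15659784960, nat_lit 18456518944, nat_lit 19132621084, nat_lit 21488766136], nat_lit 0, nat_lit 0, nat_lit 0, nat_lit 0, nat_lit 0, nat_lit 0, [], [nat_lit 21, nat_lit 40, nat_lit 40, nat_lit 80, nat_lit 14, nat_lit 401, nat_lit 175, nat_lit 10]⟩,
 zbF0, [⟨nat_lit 4, nat_lit 100, nat_lit 85, nat_lit 73, nat_lit 697548674⟩]⟩
noncomputable def p058_l112 : Lf2 := ⟨nat_lit 0, nat_lit 10, [nat_lit 0, nat_lit 5, nat_lit 5, nat_lit 20], false, nat_lit 160, nat_lit 300, nat_lit 0, nat_lit 160, ⟨nat_lit 1000, nat_lit 0, nat_lit 0, nat_lit 0, nat_lit 0, nat_lit 0, nat_lit 0, nat_lit 0, nat_lit 0, nat_lit 0, nat_lit 0, nat_lit 0, nat_lit 0, nat_lit 0, nat_lit 0, nat_lit 0, false, false⟩,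
 nat_lit 0, nat_lit 10440, nat_lit 0, nat_lit 0, nat_lit 6643, nat_lit 7766, nat_lit 766, nat_lit 0, nat_lit 0, nat_lit 1566, nat_lit 0, nat_lit 0, nat_lit 0, nat_lit 0, nat_lit 0, nat_lit 0, nat_lit 0, nat_lit 0, [],
 ⟨p058_k16, nat_lit 0, nat_lit 0, nat_lit 496, nat_lit 0, nat_lit 952182, [nat_lit 3282000000, nat_lit 6250000000, nat_lit 9842000000], [], [nat_lit 31808801604, nat_lit 32388883036, nat_lit 36521396212, nat_lit 36918789026, nat_lit 33702803332, nat_lit 34117308342, nat_lit 37351418969, nat_lit 37619302064], nat_lit 1271250, nat_lit 1271250, nat_lit 1271250, nat_lit 1271250, nat_lit 1100001, nat_lit 2298750, [nat_lit 780000, nat_lit 1435000, nat_lit 1271250], [nat_lit 8, nat_lit 40, nat_lit 40, nat_lit 80, nat_lit 1, nat_lit 401, nat_lit 175, nat_lit 11]⟩, ⟨p058_k22, nat_lit 0, nat_lit 0, nat_lit 251, nat_lit 0, nat_lit 0, [nat_lit 4688000000, nat_lit 7968000000, nat_lit 11872000000], [], [nat_lit 24237102176,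 nat_lit 27263633568, nat_lit 38819471144, nat_lit 40340881096, nat_lit 20166762808, nat_lit 22241356304, nat_lit 31699228952, nat_lit 33003185856], nat_lit 0, nat_lit 0, nat_lit 0, nat_lit 0, nat_lit 0, nat_lit 0, [], [nat_lit 21, nat_lit 40, nat_lit 40, nat_lit 80, nat_lit 14, nat_lit 456, nat_lit 225, nat_lit 11]⟩,
 zbF0, [⟨nat_lit 16, nat_lit 94, nat_lit 100, nat_lit 75, nat_lit 302109880⟩, ⟨nat_lit 9, nat_lit 100, nat_lit 72, nat_lit 81, nat_lit 54265665⟩]⟩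
noncomputable def p058_l113 : Lf2 := ⟨nat_lit 0, nat_lit 10, [nat_lit 0, nat_lit 5, nat_lit 5, nat_lit 20], false, nat_lit 160, nat_lit 280, nat_lit 0, nat_lit 160, ⟨nat_lit 1000, nat_lit 0, nat_lit 0, nat_lit 0, nat_lit 0, nat_lit 0, nat_lit 0, nat_lit 0, nat_lit 0, nat_lit 0, nat_lit 0, nat_lit 0, nat_lit 0, nat_lit 0, nat_lit 0, nat_lit 0, false, false⟩,
 nat_lit 0, nat_lit 7851, nat_lit 0, nat_lit 0, nat_lit 5435, nat_lit 6800, nat_lit 1619, nat_lit 0, nat_lit 0, nat_lit 1032, nat_lit 0, nat_lit 0, nat_lit 0, nat_lit 0, nat_lit 0, nat_lit 0, nat_lit 0, nat_lit 0, [],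
 ⟨p058_k25, nat_lit 0, nat_lit 0, nat_lit 492, nat_lit 0, nat_lit 1030462, [nat_lit 3282000000, nat_lit 6250000000, nat_lit 7968000000], [], [nat_lit 26660752705, nat_lit 27216581455, nat_lit 31012537085, nat_lit 31484128340, nat_lit 28236943175, nat_lit 28672895735, nat_lit 32353092420, nat_lit 32957131940], nat_lit 1271250, nat_lit 1271250, nat_lit 1271250, nat_lit 1271250, nat_lit 1100001, nat_lit 2127500, [nat_lit 780000, nat_lit 1435000, nat_lit 1271250], [nat_lit 18, nat_lit 40, nat_lit 40, nat_lit 80, nat_lit 2, nat_lit 289, nat_lit 75, nat_lit 8]⟩, ⟨p058_k22, nat_lit 0, nat_lit 0, nat_lit 251, nat_lit 0, nat_lit 0, [nat_lit 4688000000, nat_lit 7968000000, nat_lit 11872000000], [], [nat_lit 27549864800, nat_lit 29696778400, nat_lit 38254624800, nat_lit 39375116800, nat_lit 23494776800, nat_lit 25010237600, nat_lit 32006057600, nat_lit 33270172800], nat_lit 0, nat_lit 0, nat_lit 0, nat_lit 0, nat_lit 0, nat_lit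 0, [], [nat_lit 21, nat_lit 40, nat_lit 40, nat_lit 80, nat_lit 14, nat_lit 456, nat_lit 225, nat_lit 11]⟩,
 zbF0, [⟨nat_lit 16, nat_lit 85, nat_lit 100, nat_lit 73, nat_lit 445009185⟩]⟩
noncomputable def p058_l114 : Lf2 := ⟨nat_lit 0, nat_lit 10, [nat_lit 0, nat_lit 5, nat_lit 5, nat_lit 20], false, nat_lit 0, nat_lit 80, nat_lit 160, nat_lit 240, ⟨nat_lit 1000, nat_lit 0, nat_lit 0, nat_lit 0, nat_lit 0, nat_lit 0, nat_lit 0, nat_lit 0, nat_lit 0, nat_lit 0, nat_lit 0, nat_lit 0, nat_lit 0, nat_lit 0, nat_lit 0, nat_lit 0, false, false⟩,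
 nat_lit 0, nat_lit 9553, nat_lit 0, nat_lit 0, nat_lit 6079, nat_lit 7790, nat_lit 833, nat_lit 0, nat_lit 0, nat_lit 0, nat_lit 0, nat_lit 0, nat_lit 0, nat_lit 0, nat_lit 0, nat_lit 0, nat_lit 0, nat_lit 0, [],
 ⟨p058_k16, nat_lit 0, nat_lit 0, nat_lit 610, nat_lit 0, nat_lit 854423, [nat_lit 3282000000, nat_lit 6250000000, nat_lit 9842000000], [], [nat_lit 36512749909, nat_lit 36828401327, nat_lit 43381874186, nat_lit 42016156320, nat_lit 34474489077, nat_lit 34798651647, nat_lit 46400461520, nat_lit 45069027997], nat_lit 1271250, nat_lit 1271250, nat_lit 780000, nat_lit 2941500, nat_lit 0, nat_lit 490000, [nat_lit 780000, nat_lit 1435000, nat_lit 1271250], [nat_lit 8, nat_lit 40, nat_lit 40, nat_lit 80, nat_lit 1, nat_lit 345, nat_lit 125, nat_lit 10]⟩, ⟨p058_k22, nat_lit 0, nat_lit 0, nat_lit 86, nat_lit 0, nat_lit 0, [nat_lit 4688000000, nat_lit 7968000000, nat_lit 11872000000], [], [nat_lit 7134743880, nat_lit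 11134072520, nat_lit 27534938641, nat_lit 29579247952, nat_lit 11936427560, nat_lit 15231212160, nat_lit 29201468472, nat_lit 30877289385], nat_lit 0, nat_lit 0, nat_lit 0, nat_lit 0, nat_lit 0, nat_lit 0, [], [nat_lit 21, nat_lit 40, nat_lit 40, nat_lit 80, nat_lit 14, nat_lit 483, nat_lit 250, nat_lit 12]⟩,
 zbF0, []⟩
noncomputable def p058_l115 : Lf2 := ⟨nat_lit 0, nat_lit 10, [nat_lit 0, nat_lit 5, nat_lit 5, nat_lit 20], false, nat_lit 0, nat_lit 80, nat_lit 240, nat_lit 336, ⟨nat_lit 1000, nat_lit 0, nat_lit 0, nat_lit 0, nat_lit 0, nat_lit 0, nat_lit 0, nat_lit 0, nat_lit 0, nat_lit 0, nat_lit 0, nat_lit 0, nat_lit 0, nat_lit 0, nat_lit 0, nat_lit 0, false, false⟩,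
 nat_lit 0, nat_lit 11512, nat_lit 0, nat_lit 0, nat_lit 7325, nat_lit 8630, nat_lit 938, nat_lit 0, nat_lit 0, nat_lit 0, nat_lit 0, nat_lit 0, nat_lit 0, nat_lit 0, nat_lit 0, nat_lit 0, nat_lit 0, nat_lit 0, [],
 ⟨p058_k16, nat_lit 0, nat_lit 0, nat_lit 610, nat_lit 0, nat_lit 854423, [nat_lit 3282000000, nat_lit 6250000000, nat_lit 9842000000], [], [nat_lit 33262128300, nat_lit 31359155350, nat_lit 37911941081, nat_lit 36240425890, nat_lit 28432938700, nat_lit 28808871725, nat_lit 40943278000, nat_lit 39314423610], nat_lit 1271250, nat_lit 1271250, nat_lit 780000, nat_lit 2548500, nat_lit 0, nat_lit 490000, [nat_lit 780000, nat_lit 1435000, nat_lit 1271250], [nat_lit 8, nat_lit 40, nat_lit 40, nat_lit 80, nat_lit 1, nat_lit 345, nat_lit 125, nat_lit 10]⟩, ⟨p058_k22, nat_lit 0, nat_lit 0, nat_lit 72, nat_lit 0, nat_lit 0, [nat_lit 4688000000, nat_lit 7968000000, nat_lit 11872000000], [], [nat_lit 10896883560, nat_lit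 15127715360, nat_lit 24682299240, nat_lit 26924513264, nat_lit 22134293480, nat_lit 25078600184, nat_lit 30984006964, nat_lit 32505793655], nat_lit 0, nat_lit 0, nat_lit 0, nat_lit 0, nat_lit 0, nat_lit 0, [], [nat_lit 21, nat_lit 40, nat_lit 40, nat_lit 80, nat_lit 14, nat_lit 483, nat_lit 250, nat_lit 12]⟩,
 zbF0, [⟨nat_lit 7, nat_lit 92, nat_lit 100, nat_lit 75, nat_lit 1021602226⟩]⟩
noncomputable def p058_l116 : Lf2 := ⟨nat_lit 0, nat_lit 10, [nat_lit 0, nat_lit 5, nat_lit 5, nat_lit 20], false, nat_lit 0, nat_lit 80, nat_lit 160, nat_lit 336, ⟨nat_lit 1000, nat_lit 0, nat_lit 0, nat_lit 0, nat_lit 0, nat_lit 0, nat_lit 0, nat_lit 0, nat_lit 0, nat_lit 0, nat_lit 0, nat_lit 0, nat_lit 0, nat_lit 0, nat_lit 0, nat_lit 0, false, false⟩,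
 nat_lit 0, nat_lit 9536, nat_lit 0, nat_lit 0, nat_lit 6333, nat_lit 6826, nat_lit 2446, nat_lit 0, nat_lit 0, nat_lit 0, nat_lit 0, nat_lit 0, nat_lit 0, nat_lit 0, nat_lit 0, nat_lit 0, nat_lit 0, nat_lit 0, [],
 ⟨p058_k50, nat_lit 0, nat_lit 0, nat_lit 536, nat_lit 0, nat_lit 896702, [nat_lit 3282000000, nat_lit 7968000000], [], [nat_lit 31150451675, nat_lit 29599082304, nat_lit 35422048197, nat_lit 36071090908, nat_lit 27079001498, nat_lit 27396084198, nat_lit 36259205225, nat_lit 34854521760], nat_lit 1271250, nat_lit 1271250, nat_lit 780000, nat_lit 2941500, nat_lit 0, nat_lit 490000, [nat_lit 780000, nat_lit 1762500], [nat_lit 74, nat_lit 40, nat_lit 40, nat_lit 80, nat_lit 43, nat_lit 345, nat_lit 125, nat_lit 11]⟩, ⟨p058_k51, nat_lit 0, nat_lit 0, nat_lit 67, nat_lit 0, nat_lit 0, [nat_lit 4688000000, nat_lit 11872000000], [], [nat_lit 8774920472, nat_lit 12453414488, nat_lit 26725972977, nat_lit 28659294269,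 nat_lit 21328428453, nat_lit 23920401877, nat_lit 33010925562, nat_lit 34120678842], nat_lit 0, nat_lit 0, nat_lit 0, nat_lit 0, nat_lit 0, nat_lit 0, [], [nat_lit 116, nat_lit 40, nat_lit 40, nat_lit 80, nat_lit 65, nat_lit 483, nat_lit 250, nat_lit 12]⟩,
 zbF0, [⟨nat_lit 7, nat_lit 92, nat_lit 100, nat_lit 75, nat_lit 738938166⟩]⟩
noncomputable def p058_l117 : Lf2 := ⟨nat_lit 0, nat_lit 10, [nat_lit 0, nat_lit 5, nat_lit 5, nat_lit 20], false, nat_lit 80, nat_lit 160, nat_lit 160, nat_lit 336, ⟨nat_lit 1000, nat_lit 0, nat_lit 0, nat_lit 0, nat_lit 0, nat_lit 0, nat_lit 0, nat_lit 0, nat_lit 0, nat_lit 0, nat_lit 0, nat_lit 0, nat_lit 0, nat_lit 0, nat_lit 0, nat_lit 0, false, false⟩,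
 nat_lit 0, nat_lit 8841, nat_lit 0, nat_lit 0, nat_lit 5625, nat_lit 6497, nat_lit 1692, nat_lit 0, nat_lit 0, nat_lit 0, nat_lit 0, nat_lit 0, nat_lit 0, nat_lit 0, nat_lit 0, nat_lit 0, nat_lit 0, nat_lit 0, [],
 ⟨p058_k32, nat_lit 0, nat_lit 0, nat_lit 531, nat_lit 0, nat_lit 854423, [nat_lit 3282000000, nat_lit 4688000000, nat_lit 9842000000], [], [nat_lit 30593309500, nat_lit 29128621375, nat_lit 34575887000, nat_lit 34842603000, nat_lit 26392134000, nat_lit 26848932750, nat_lit 38316238500, nat_lit 37074952875], nat_lit 1271250, nat_lit 1271250, nat_lit 780000, nat_lit 3072500, nat_lit 490000, nat_lit 1100001, [nat_lit 780000, nat_lit 1100000, nat_lit 2127500], [nat_lit 42, nat_lit 40, nat_lit 40, nat_lit 80, nat_lit 13, nat_lit 373, nat_lit 150, nat_lit 10]⟩, ⟨p058_k44, nat_lit 0, nat_lit 0, nat_lit 83, nat_lit 0, nat_lit 0, [nat_lit 4688000000, nat_lit 6250000000, nat_lit 11872000000], [], [nat_lit 9334690284,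 nat_lit 12903687836, nat_lit 28182559840, nat_lit 29920650936, nat_lit 21553861622, nat_lit 23710168272, nat_lit 33824439721, nat_lit 34827994875], nat_lit 0, nat_lit 0, nat_lit 0, nat_lit 0, nat_lit 0, nat_lit 0, [], [nat_lit 48, nat_lit 40, nat_lit 40, nat_lit 80, nat_lit 12, nat_lit 538, nat_lit 300, nat_lit 13]⟩,
 zbF0, [⟨nat_lit 19, nat_lit 100, nat_lit 92, nat_lit 75, nat_lit 713896451⟩]⟩
noncomputable def p058_l118 : Lf2 := ⟨nat_lit 0, nat_lit 10, [nat_lit 0, nat_lit 5, nat_lit 5, nat_lit 20], false, nat_lit 80, nat_lit 160, nat_lit 160, nat_lit 336, ⟨nat_lit 1000, nat_lit 0, nat_lit 0, nat_lit 0, nat_lit 0, nat_lit 0, nat_lit 0, nat_lit 0, nat_lit 0, nat_lit 0, nat_lit 0, nat_lit 0, nat_lit 0, nat_lit 0, nat_lit 0, nat_lit 0, false, false⟩,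
 nat_lit 0, nat_lit 8958, nat_lit 0, nat_lit 0, nat_lit 5949, nat_lit 5430, nat_lit 3079, nat_lit 0, nat_lit 0, nat_lit 0, nat_lit 0, nat_lit 0, nat_lit 0, nat_lit 0, nat_lit 0, nat_lit 0, nat_lit 0, nat_lit 0, [],
 ⟨p058_k50, nat_lit 0, nat_lit 0, nat_lit 490, nat_lit 0, nat_lit 896702, [nat_lit 3282000000, nat_lit 7968000000], [], [nat_lit 25148794233, nat_lit 25501437659, nat_lit 37186394868, nat_lit 35873611191, nat_lit 24948731474, nat_lit 25262484157, nat_lit 43737532655, nat_lit 42457081793], nat_lit 1271250, nat_lit 1271250, nat_lit 780000, nat_lit 3072500, nat_lit 490000, nat_lit 1100001, [nat_lit 780000, nat_lit 1762500], [nat_lit 74, nat_lit 40, nat_lit 40, nat_lit 80, nat_lit 43, nat_lit 373, nat_lit 150, nat_lit 12]⟩, ⟨p058_k51, nat_lit 0, nat_lit 0, nat_lit 72, nat_lit 0, nat_lit 0, [nat_lit 4688000000, nat_lit 11872000000], [], [nat_lit 11150113960, nat_lit 14363996840, nat_lit 27749767000, nat_lit 29182368920,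 nat_lit 22284977705, nat_lit 24277481929, nat_lit 32566186344, nat_lit 33562986137], nat_lit 0, nat_lit 0, nat_lit 0, nat_lit 0, nat_lit 0, nat_lit 0, [], [nat_lit 116, nat_lit 40, nat_lit 40, nat_lit 80, nat_lit 65, nat_lit 538, nat_lit 300, nat_lit 13]⟩,
 zbF0, [⟨nat_lit 19, nat_lit 100, nat_lit 92, nat_lit 75, nat_lit 486976535⟩]⟩
noncomputable def p058_l119 : Lf2 := ⟨nat_lit 0, nat_lit 10, [nat_lit 0, nat_lit 5, nat_lit 5, nat_lit 20], false, nat_lit 0, nat_lit 160, nat_lit 160, nat_lit 336, ⟨nat_lit 1000, nat_lit 0, nat_lit 0, nat_lit 0, nat_lit 0, nat_lit 0, nat_lit 0, nat_lit 0, nat_lit 0, nat_lit 0, nat_lit 0, nat_lit 0, nat_lit 0, nat_lit 0, nat_lit 0, nat_lit 0, false, false⟩,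
 nat_lit 0, nat_lit 8860, nat_lit 0, nat_lit 0, nat_lit 6133, nat_lit 5948, nat_lit 2950, nat_lit 0, nat_lit 0, nat_lit 0, nat_lit 0, nat_lit 0, nat_lit 0, nat_lit 0, nat_lit 0, nat_lit 0, nat_lit 0, nat_lit 0, [],
 ⟨p058_k52, nat_lit 0, nat_lit 0, nat_lit 619, nat_lit 0, nat_lit 1030462, [nat_lit 3282000000, nat_lit 7968000000], [], [nat_lit 29512290938, nat_lit 26318359464, nat_lit 37249591738, nat_lit 38432565548, nat_lit 22989073708, nat_lit 23812463784, nat_lit 38372435106, nat_lit 35732325798], nat_lit 1271250, nat_lit 1271250, nat_lit 780000, nat_lit 3072500, nat_lit 0, nat_lit 1100001, [nat_lit 780000, nat_lit 1762500], [nat_lit 74, nat_lit 40, nat_lit 40, nat_lit 80, nat_lit 43, nat_lit 373, nat_lit 150, nat_lit 12]⟩, ⟨p058_k51, nat_lit 0, nat_lit 0, nat_lit 72, nat_lit 0, nat_lit 0, [nat_lit 4688000000, nat_lit 11872000000], [], [nat_lit 10268774256, nat_lit 13655055824, nat_lit 27626534800, nat_lit 29311432224,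 nat_lit 21930040375, nat_lit 24002066301, nat_lit 33176495428, nat_lit 34177114090], nat_lit 0, nat_lit 0, nat_lit 0, nat_lit 0, nat_lit 0, nat_lit 0, [], [nat_lit 116, nat_lit 40, nat_lit 40, nat_lit 80, nat_lit 65, nat_lit 538, nat_lit 300, nat_lit 13]⟩,
 zbF0, [⟨nat_lit 19, nat_lit 100, nat_lit 92, nat_lit 75, nat_lit 647143441⟩]⟩
noncomputable def p058_l120 : Lf2 := ⟨nat_lit 0, nat_lit 5, [nat_lit 4, nat_lit 5, nat_lit 5, nat_lit 20], false, nat_lit 160, nat_lit 276, nat_lit 160, nat_lit 312, ⟨nat_lit 1000, nat_lit 0, nat_lit 0, nat_lit 0, nat_lit 0, nat_lit 0, nat_lit 0, nat_lit 0, nat_lit 0, nat_lit 0, nat_lit 0, nat_lit 0, nat_lit 0, nat_lit 0, nat_lit 0, nat_lit 0, false, false⟩,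
 nat_lit 0, nat_lit 10805, nat_lit 0, nat_lit 0, nat_lit 6875, nat_lit 6815, nat_lit 3706, nat_lit 0, nat_lit 0, nat_lit 0, nat_lit 0, nat_lit 0, nat_lit 0, nat_lit 0, nat_lit 0, nat_lit 0, nat_lit 0, nat_lit 0, [],
 ⟨p058_k30, nat_lit 0, nat_lit 0, nat_lit 432, nat_lit 0, nat_lit 891822, [nat_lit 3282000000, nat_lit 4688000000, nat_lit 7968000000], [], [nat_lit 22609567000, nat_lit 22019306500, nat_lit 33777487000, nat_lit 31440460000, nat_lit 24101569875, nat_lit 24883325250, nat_lit 32808915176, nat_lit 33647789513], nat_lit 1271250, nat_lit 1271250, nat_lit 780000, nat_lit 3072500, nat_lit 1271250, nat_lit 1271250, [nat_lit 780000, nat_lit 1100000, nat_lit 1785000], [nat_lit 36, nat_lit 40, nat_lit 40, nat_lit 80, nat_lit 7, nat_lit 401, nat_lit 175, nat_lit 13]⟩, ⟨p058_k53, nat_lit 0, nat_lit 0, nat_lit 82, nat_lit 0, nat_lit 0, [nat_lit 4688000000, nat_lit 6250000000, nat_lit 9842000000], [], [nat_lit 8793636180,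 nat_lit 12468469220, nat_lit 28505240800, nat_lit 30273531720, nat_lit 19136740226, nat_lit 21553547226, nat_lit 32943256802, nat_lit 34068907715], nat_lit 0, nat_lit 0, nat_lit 0, nat_lit 0, nat_lit 0, nat_lit 0, [], [nat_lit 11, nat_lit 40, nat_lit 40, nat_lit 80, nat_lit 1, nat_lit 483, nat_lit 250, nat_lit 13]⟩,
 zbF0, [⟨nat_lit 4, nat_lit 100, nat_lit 92, nat_lit 68, nat_lit 517432178⟩, ⟨nat_lit 7, nat_lit 96, nat_lit 100, nat_lit 69, nat_lit 755672409⟩]⟩
noncomputable def p058_l121 : Lf2 := ⟨nat_lit 0, nat_lit 5, [nat_lit 4, nat_lit 5, nat_lit 5, nat_lit 20], false, nat_lit 160, nat_lit 300, nat_lit 160, nat_lit 336, ⟨nat_lit 1000, nat_lit 0, nat_lit 0, nat_lit 0, nat_lit 0, nat_lit 0, nat_lit 0, nat_lit 0, nat_lit 0, nat_lit 0, nat_lit 0, nat_lit 0, nat_lit 0, nat_lit 0, nat_lit 0, nat_lit 0, false, false⟩,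
 nat_lit 0, nat_lit 10886, nat_lit 0, nat_lit 0, nat_lit 6927, nat_lit 6497, nat_lit 3566, nat_lit 0, nat_lit 0, nat_lit 0, nat_lit 0, nat_lit 0, nat_lit 0, nat_lit 0, nat_lit 0, nat_lit 0, nat_lit 0, nat_lit 0, [],
 ⟨p058_k30, nat_lit 0, nat_lit 0, nat_lit 310, nat_lit 0, nat_lit 615628, [nat_lit 3282000000, nat_lit 4688000000, nat_lit 7968000000], [], [nat_lit 22579657016, nat_lit 20802680633, nat_lit 34273619160, nat_lit 32725434660, nat_lit 22938900207, nat_lit 23386382723, nat_lit 33750386053, nat_lit 34140502312], nat_lit 1271250, nat_lit 1271250, nat_lit 780000, nat_lit 3072500, nat_lit 1271250, nat_lit 1271250, [nat_lit 780000, nat_lit 1100000, nat_lit 1785000], [nat_lit 36, nat_lit 40, nat_lit 40, nat_lit 80, nat_lit 7, nat_lit 401, nat_lit 175, nat_lit 13]⟩, ⟨p058_k53, nat_lit 0, nat_lit 0, nat_lit 83, nat_lit 0, nat_lit 0, [nat_lit 4688000000, nat_lit 6250000000, nat_lit 9842000000], [], [nat_lit 9334690284,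 nat_lit 12903687836, nat_lit 28182559840, nat_lit 29920650936, nat_lit 21553861622, nat_lit 23710168272, nat_lit 33824439721, nat_lit 34827994875], nat_lit 0, nat_lit 0, nat_lit 0, nat_lit 0, nat_lit 0, nat_lit 0, [], [nat_lit 11, nat_lit 40, nat_lit 40, nat_lit 80, nat_lit 1, nat_lit 538, nat_lit 300, nat_lit 15]⟩,
 zbF0, [⟨nat_lit 16, nat_lit 99, nat_lit 100, nat_lit 83, nat_lit 322273352⟩, ⟨nat_lit 7, nat_lit 89, nat_lit 100, nat_lit 80, nat_lit 650617085⟩]⟩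
noncomputable def p058_l122 : Lf2 := ⟨nat_lit 0, nat_lit 5, [nat_lit 4, nat_lit 5, nat_lit 5, nat_lit 20], false, nat_lit 160, nat_lit 292, nat_lit 160, nat_lit 336, ⟨nat_lit 1000, nat_lit 0, nat_lit 0, nat_lit 0, nat_lit 0, nat_lit 0, nat_lit 0, nat_lit 0, nat_lit 0, nat_lit 0, nat_lit 0, nat_lit 0, nat_lit 0, nat_lit 0, nat_lit 0, nat_lit 0, false, false⟩,
 nat_lit 0, nat_lit 9488, nat_lit 0, nat_lit 0, nat_lit 6300, nat_lit 6497, nat_lit 3623, nat_lit 0, nat_lit 0, nat_lit 0, nat_lit 0, nat_lit 0, nat_lit 0, nat_lit 0, nat_lit 0, nat_lit 0, nat_lit 0, nat_lit 0, [],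
 ⟨p058_k48, nat_lit 0, nat_lit 0, nat_lit 307, nat_lit 0, nat_lit 667430, [nat_lit 3282000000, nat_lit 6250000000], [], [nat_lit 21324169700, nat_lit 19708037000, nat_lit 34683045350, nat_lit 33256700150, nat_lit 21016672321, nat_lit 21383038861, nat_lit 33164116115, nat_lit 33551813650], nat_lit 1271250, nat_lit 1271250, nat_lit 780000, nat_lit 3072500, nat_lit 1271250, nat_lit 1271250, [nat_lit 780000, nat_lit 1435000], [nat_lit 49, nat_lit 40, nat_lit 40, nat_lit 80, nat_lit 16, nat_lit 401, nat_lit 175, nat_lit 15]⟩, ⟨p058_k21, nat_lit 0, nat_lit 0, nat_lit 97, nat_lit 0, nat_lit 0, [nat_lit 4688000000, nat_lit 7968000000, nat_lit 9842000000], [], [nat_lit 9334690284, nat_lit 12903687836, nat_lit 28182559840, nat_lit 29920650936, nat_lit 21553861622, nat_lit 23710168272, nat_lit 33824439721, nat_lit 34827994875], nat_lit 0, nat_lit 0, nat_lit 0, nat_lit 0, nat_lit 0, nat_lit 0, [], [nat_lit 29, nat_lit 40, nat_lit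 40, nat_lit 80, nat_lit 17, nat_lit 538, nat_lit 300, nat_lit 15]⟩,
 zbF0, [⟨nat_lit 16, nat_lit 100, nat_lit 100, nat_lit 89, nat_lit 249104485⟩, ⟨nat_lit 7, nat_lit 89, nat_lit 100, nat_lit 80, nat_lit 588515190⟩]⟩
noncomputable def p058_l123 : Lf2 := ⟨nat_lit 0, nat_lit 10, [nat_lit 0, nat_lit 5, nat_lit 5, nat_lit 20], false, nat_lit 160, nat_lit 300, nat_lit 160, nat_lit 336, ⟨nat_lit 1000, nat_lit 0, nat_lit 0, nat_lit 0, nat_lit 0, nat_lit 0, nat_lit 0, nat_lit 0, nat_lit 0, nat_lit 0, nat_lit 0, nat_lit 0, nat_lit 0, nat_lit 0, nat_lit 0, nat_lit 0, false, false⟩,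
 nat_lit 0, nat_lit 12026, nat_lit 0, nat_lit 0, nat_lit 7652, nat_lit 5948, nat_lit 829, nat_lit 0, nat_lit 0, nat_lit 0, nat_lit 0, nat_lit 0, nat_lit 0, nat_lit 0, nat_lit 0, nat_lit 0, nat_lit 0, nat_lit 0, [],
 ⟨p058_k16, nat_lit 0, nat_lit 0, nat_lit 348, nat_lit 0, nat_lit 592054, [nat_lit 3282000000, nat_lit 6250000000, nat_lit 9842000000], [], [nat_lit 23953761217, nat_lit 24917791841, nat_lit 39656625792, nat_lit 36191738976, nat_lit 27264287173, nat_lit 27948902574, nat_lit 34544071828, nat_lit 35351665482], nat_lit 1271250, nat_lit 1271250, nat_lit 780000, nat_lit 3072500, nat_lit 1271250, nat_lit 1271250, [nat_lit 780000, nat_lit 1435000, nat_lit 1271250], [nat_lit 8, nat_lit 40, nat_lit 40, nat_lit 80, nat_lit 1, nat_lit 401, nat_lit 175, nat_lit 11]⟩, ⟨p058_k22, nat_lit 0, nat_lit 0, nat_lit 97, nat_lit 0, nat_lit 0, [nat_lit 4688000000, nat_lit 7968000000, nat_lit 11872000000], [], [nat_lit 10268774256,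 nat_lit 13655055824, nat_lit 27626534800, nat_lit 29311432224, nat_lit 21930040375, nat_lit 24002066301, nat_lit 33176495428, nat_lit 34177114090], nat_lit 0, nat_lit 0, nat_lit 0, nat_lit 0, nat_lit 0, nat_lit 0, [], [nat_lit 21, nat_lit 40, nat_lit 40, nat_lit 80, nat_lit 14, nat_lit 538, nat_lit 300, nat_lit 13]⟩,
 zbF0, [⟨nat_lit 4, nat_lit 100, nat_lit 94, nat_lit 75, nat_lit 464979254⟩, ⟨nat_lit 19, nat_lit 100, nat_lit 92, nat_lit 75, nat_lit 695906217⟩]⟩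
noncomputable def p058_l124 : Lf2 := ⟨nat_lit 0, nat_lit 10, [nat_lit 0, nat_lit 5, nat_lit 5, nat_lit 20], false, nat_lit 160, nat_lit 280, nat_lit 160, nat_lit 336, ⟨nat_lit 1000, nat_lit 0, nat_lit 0, nat_lit 0, nat_lit 0, nat_lit 0, nat_lit 0, nat_lit 0, nat_lit 0, nat_lit 0, nat_lit 0, nat_lit 0, nat_lit 0, nat_lit 0, nat_lit 0, nat_lit 0, false, false⟩,
 nat_lit 0, nat_lit 9334, nat_lit 0, nat_lit 0, nat_lit 6461, nat_lit 6497, nat_lit 1854, nat_lit 0, nat_lit 0, nat_lit 0, nat_lit 0, nat_lit 0, nat_lit 0, nat_lit 0, nat_lit 0, nat_lit 0, nat_lit 0, nat_lit 0, [],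
 ⟨p058_k25, nat_lit 0, nat_lit 0, nat_lit 520, nat_lit 0, nat_lit 1030462, [nat_lit 3282000000, nat_lit 6250000000, nat_lit 7968000000], [], [nat_lit 19532828750, nat_lit 19797374518, nat_lit 33089856618, nat_lit 32018858984, nat_lit 21547005285, nat_lit 22294145520, nat_lit 33326897261, nat_lit 34137569564], nat_lit 1271250, nat_lit 1271250, nat_lit 780000, nat_lit 3072500, nat_lit 1271250, nat_lit 1271250, [nat_lit 780000, nat_lit 1435000, nat_lit 1271250], [nat_lit 18, nat_lit 40, nat_lit 40, nat_lit 80, nat_lit 2, nat_lit 401, nat_lit 175, nat_lit 12]⟩, ⟨p058_k22, nat_lit 0, nat_lit 0, nat_lit 97, nat_lit 0, nat_lit 0, [nat_lit 4688000000, nat_lit 7968000000, nat_lit 11872000000], [], [nat_lit 9334690284, nat_lit 12903687836, nat_lit 28182559840, nat_lit 29920650936, nat_lit 21553861622, nat_lit 23710168272, nat_lit 33824439721, nat_lit 34827994875], nat_lit 0, nat_lit 0, nat_lit 0, nat_lit 0, nat_lit 0, nat_lit 0,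 [], [nat_lit 21, nat_lit 40, nat_lit 40, nat_lit 80, nat_lit 14, nat_lit 538, nat_lit 300, nat_lit 13]⟩,
 zbF0, [⟨nat_lit 16, nat_lit 94, nat_lit 100, nat_lit 87, nat_lit 313701500⟩, ⟨nat_lit 4, nat_lit 100, nat_lit 85, nat_lit 73, nat_lit 74908490⟩, ⟨nat_lit 19, nat_lit 100, nat_lit 92, nat_lit 75, nat_lit 615893226⟩]⟩
noncomputable def b_V_700_600_10_31 : St := ⟨true, nat_lit 1, nat_lit 0, nat_lit 2, nat_lit 80, nat_lit 280, nat_lit 320, nat_lit 240, nat_lit 280, nat_lit 120, nat_lit 400, nat_lit 40, nat_lit 80, nat_lit 0, nat_lit 300, nat_lit 0, nat_lit 336, nat_lit 0, nat_lit 40, nat_lit 0, nat_lit 0, nat_lit 0, nat_lit 0⟩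
theorem d_V_700_600_10_31 (h : EB TB.env) : Dead b_V_700_600_10_31 := chkB_sound0 h (T :=
(.spl (nat_lit 5) (nat_lit 160)
(.spl (nat_lit 4) (nat_lit 160)
(.spl (nat_lit 0) (nat_lit 300)
(.spl (nat_lit 1) (nat_lit 260)
(.leaf p058_l106)
(.spl (nat_lit 0) (nat_lit 290)
(.leaf p058_l107)
(.leaf p058_l108)))
(.leaf p058_l109))
(.spl (nat_lit 2) (nat_lit 240)
(.spl (nat_lit 0) (nat_lit 300)
(.leaf p058_l110)
(.trX (nat_lit 16) (nat_lit 94) (nat_lit 100) (nat_lit 87) (nat_lit 280) (.leaf p058_l111)))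
(.spl (nat_lit 0) (nat_lit 300)
(.leaf p058_l112)
(.trX (nat_lit 16) (nat_lit 94) (nat_lit 100) (nat_lit 87) (nat_lit 280) (.leaf p058_l113)))))
(.spl (nat_lit 4) (nat_lit 160)
(.spl (nat_lit 0) (nat_lit 300)
(.spl (nat_lit 4) (nat_lit 80)
(.trX (nat_lit 10) (nat_lit 100) (nat_lit 44) (nat_lit 82) (nat_lit 384) (.spl (nat_lit 0) (nat_lit 290)
(.spl (nat_lit 5) (nat_lit 240)
(.leaf p058_l114)
(.trX (nat_lit 10) (nat_lit 100) (nat_lit 76) (nat_lit 82) (nat_lit 336) (.leaf p058_l115)))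
(.leaf p058_l116)))
(.spl (nat_lit 0) (nat_lit 290)
(.leaf p058_l117)
(.leaf p058_l118)))
(.leaf p058_l119))
(.spl (nat_lit 0) (nat_lit 300)
(.spl (nat_lit 6) (nat_lit 20)
(.spl (nat_lit 3) (nat_lit 60)
(.trX (nat_lit 16) (nat_lit 99) (nat_lit 100) (nat_lit 77) (nat_lit 276) (.trX (nat_lit 19) (nat_lit 100) (nat_lit 85) (nat_lit 73) (nat_lit 312) (.leaf p058_l120)))
(.spl (nat_lit 0) (nat_lit 290)
(.leaf p058_l121)
(.trX (nat_lit 16) (nat_lit 100) (nat_lit 100) (nat_lit 89) (nat_lit 292) (.leaf p058_l122))))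
(.leaf p058_l123))
(.trX (nat_lit 16) (nat_lit 94) (nat_lit 100) (nat_lit 87) (nat_lit 280) (.leaf p058_l124)))))) (by decide +kernel)
noncomputable def p058_l125 : Lf2 := ⟨nat_lit 0, nat_lit 10, [nat_lit 0, nat_lit 5, nat_lit 5, nat_lit 20], false, nat_lit 0, nat_lit 160, nat_lit 0, nat_lit 336, ⟨nat_lit 0, nat_lit 1000, nat_lit 0, nat_lit 6, nat_lit 139, nat_lit 1000, nat_lit 56, nat_lit 0, nat_lit 0, nat_lit 0, nat_lit 0, nat_lit 0, nat_lit 0, nat_lit 0, nat_lit 0, nat_lit 5000000, false, false⟩,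
 nat_lit 0, nat_lit 5637, nat_lit 0, nat_lit 0, nat_lit 3587, nat_lit 0, nat_lit 0, nat_lit 0, nat_lit 0, nat_lit 0, nat_lit 0, nat_lit 0, nat_lit 0, nat_lit 0, nat_lit 12, nat_lit 1000000, nat_lit 0, nat_lit 0, [(nat_lit 12, [(nat_lit 2, nat_lit 1000)]), (nat_lit 15, [(nat_lit 2, nat_lit 1000)])],
 ⟨p058_k16, nat_lit 0, nat_lit 0, nat_lit 580, nat_lit 0, nat_lit 644983, [nat_lit 2479200001, nat_lit 2186400000, nat_lit 42000000], [], [nat_lit 28668976312, nat_lit 27732704811, nat_lit 26218090773, nat_lit 27629629557, nat_lit 26100084265, nat_lit 27410490668, nat_lit 27127199905, nat_lit 27292465729], nat_lit 1271250, nat_lit 1271250, nat_lit 205650, nat_lit 780000, nat_lit 0, nat_lit 1100001, [nat_lit 780000, nat_lit 1435000, nat_lit 1271250], [nat_lit 8, nat_lit 40, nat_lit 40, nat_lit 80, nat_lit 1, nat_lit 289, nat_lit 75, nat_lit 9]⟩, ⟨p058_k22, nat_lit 0, nat_lit 0, nat_lit 728, nat_lit 0, nat_lit 810363, [nat_lit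 0, nat_lit 0, nat_lit 0], [], [nat_lit 0, nat_lit 0, nat_lit 0, nat_lit 0, nat_lit 0, nat_lit 0, nat_lit 0, nat_lit 0], nat_lit 1271250, nat_lit 1271250, nat_lit 205650, nat_lit 780000, nat_lit 0, nat_lit 2373000, [nat_lit 1100000, nat_lit 1785000, nat_lit 1271250], [nat_lit 21, nat_lit 40, nat_lit 40, nat_lit 80, nat_lit 14, nat_lit 428, nat_lit 200, nat_lit 11]⟩,
 ⟨nat_lit 4472, nat_lit 5478, ⟨.ofNat (nat_lit 235487), .ofNat (nat_lit 392815), .ofNat (nat_lit 278138), .ofNat (nat_lit 435455), .ofNat (nat_lit 264421), .ofNat (nat_lit 407143), .ofNat (nat_lit 307491), .ofNat (nat_lit 450202)⟩, ⟨.negSucc (nat_lit 45522), .ofNat (nat_lit 254209), .negSucc (nat_lit 2834), .ofNat (nat_lit 296923), .negSucc (nat_lit 12423), .ofNat (nat_lit 259489), .ofNat (nat_lit 0), .ofNat (nat_lit 302621)⟩⟩, []⟩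
noncomputable def p058_l126 : Lf2 := ⟨nat_lit 0, nat_lit 10, [nat_lit 0, nat_lit 5, nat_lit 5, nat_lit 20], false, nat_lit 160, nat_lit 300, nat_lit 0, nat_lit 336, ⟨nat_lit 0, nat_lit 1000, nat_lit 0, nat_lit 6, nat_lit 139, nat_lit 1000, nat_lit 161, nat_lit 0, nat_lit 0, nat_lit 0, nat_lit 0, nat_lit 0, nat_lit 0, nat_lit 0, nat_lit 0, nat_lit 5000000, false, false⟩,
 nat_lit 0, nat_lit 7669, nat_lit 0, nat_lit 0, nat_lit 4880, nat_lit 0, nat_lit 0, nat_lit 0, nat_lit 0, nat_lit 0, nat_lit 0, nat_lit 0, nat_lit 0, nat_lit 0, nat_lit 12, nat_lit 1000000, nat_lit 0, nat_lit 0, [(nat_lit 12, [(nat_lit 2, nat_lit 1000)]), (nat_lit 15, [(nat_lit 2, nat_lit 1000)])],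
 ⟨p058_k16, nat_lit 0, nat_lit 0, nat_lit 457, nat_lit 0, nat_lit 644983, [nat_lit 2479200001, nat_lit 2186400000, nat_lit 42000000], [], [nat_lit 21982954369, nat_lit 21089081121, nat_lit 18865637601, nat_lit 20511473121, nat_lit 23356482227, nat_lit 24520647492, nat_lit 27325493042, nat_lit 23756321244], nat_lit 1271250, nat_lit 1271250, nat_lit 205650, nat_lit 780000, nat_lit 1100001, nat_lit 2298750, [nat_lit 780000, nat_lit 1435000, nat_lit 1271250], [nat_lit 8, nat_lit 40, nat_lit 40, nat_lit 80, nat_lit 1, nat_lit 345, nat_lit 125, nat_lit 10]⟩, ⟨p058_k22, nat_lit 0, nat_lit 0, nat_lit 728, nat_lit 0, nat_lit 810363, [nat_lit 0, nat_lit 0, nat_lit 0], [], [nat_lit 0, nat_lit 0, nat_lit 0, nat_lit 0, nat_lit 0, nat_lit 0, nat_lit 0, nat_lit 0], nat_lit 1271250, nat_lit 1271250, nat_lit 205650, nat_lit 780000, nat_lit 0, nat_lit 2373000, [nat_lit 1100000, nat_lit 1785000, nat_lit 1271250], [nat_lit 21, nat_lit 40,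 nat_lit 40, nat_lit 80, nat_lit 14, nat_lit 428, nat_lit 200, nat_lit 11]⟩,
 ⟨nat_lit 4472, nat_lit 5478, ⟨.ofNat (nat_lit 235487), .ofNat (nat_lit 392815), .ofNat (nat_lit 278138), .ofNat (nat_lit 435455), .ofNat (nat_lit 264421), .ofNat (nat_lit 407143), .ofNat (nat_lit 307491), .ofNat (nat_lit 450202)⟩, ⟨.ofNat (nat_lit 254209), .ofNat (nat_lit 516475), .ofNat (nat_lit 296923), .ofNat (nat_lit 559189), .ofNat (nat_lit 259489), .ofNat (nat_lit 497412), .ofNat (nat_lit 302621), .ofNat (nat_lit 540545)⟩⟩, [⟨nat_lit 16, nat_lit 90, nat_lit 100, nat_lit 74, nat_lit 411906034⟩]⟩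
noncomputable def p058_l127 : Lf2 := ⟨nat_lit 0, nat_lit 10, [nat_lit 0, nat_lit 5, nat_lit 5, nat_lit 20], false, nat_lit 0, nat_lit 160, nat_lit 0, nat_lit 336, ⟨nat_lit 0, nat_lit 1000, nat_lit 0, nat_lit 6, nat_lit 207, nat_lit 1000, nat_lit 56, nat_lit 0, nat_lit 0, nat_lit 0, nat_lit 0, nat_lit 0, nat_lit 0, nat_lit 0, nat_lit 0, nat_lit 5000000, false, false⟩,
 nat_lit 0, nat_lit 6955, nat_lit 0, nat_lit 0, nat_lit 4425, nat_lit 0, nat_lit 0, nat_lit 0, nat_lit 0, nat_lit 0, nat_lit 0, nat_lit 0, nat_lit 0, nat_lit 0, nat_lit 0, nat_lit 902800, nat_lit 0, nat_lit 0, [(nat_lit 12, [(nat_lit 1, nat_lit 162), (nat_lit 2, nat_lit 838)]), (nat_lit 15, [(nat_lit 1, nat_lit 162), (nat_lit 2, nat_lit 838)])],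
 ⟨p058_k54, nat_lit 0, nat_lit 0, nat_lit 481, nat_lit 0, nat_lit 567528, [nat_lit 2842660401, nat_lit 1289493601, nat_lit 180724800], [], [nat_lit 30591653903, nat_lit 25982768603, nat_lit 24650228104, nat_lit 26044421204, nat_lit 21817387804, nat_lit 23110349804, nat_lit 28685080104, nat_lit 24677729304], nat_lit 1271250, nat_lit 1271250, nat_lit 780000, nat_lit 1762500, nat_lit 0, nat_lit 1100001, [nat_lit 780000, nat_lit 1762500, nat_lit 1271250], [nat_lit 99, nat_lit 40, nat_lit 40, nat_lit 80, nat_lit 17, nat_lit 317, nat_lit 100, nat_lit 9]⟩, ⟨p058_k55, nat_lit 0, nat_lit 0, nat_lit 641, nat_lit 0, nat_lit 713048, [nat_lit 0, nat_lit 0, nat_lit 0], [], [nat_lit 0, nat_lit 0, nat_lit 0, nat_lit 0, nat_lit 0, nat_lit 0, nat_lit 0, nat_lit 0], nat_lit 1271250, nat_lit 1271250, nat_lit 780000, nat_lit 1762500, nat_lit 0, nat_lit 2373000, [nat_lit 1100000, nat_lit 2127500, nat_lit 1271250], [nat_lit 125, nat_lit 40,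 nat_lit 40, nat_lit 80, nat_lit 41, nat_lit 456, nat_lit 225, nat_lit 12]⟩,
 ⟨nat_lit 4472, nat_lit 5478, ⟨.ofNat (nat_lit 392815), .ofNat (nat_lit 617523), .ofNat (nat_lit 414138), .ofNat (nat_lit 638835), .ofNat (nat_lit 407143), .ofNat (nat_lit 610987), .ofNat (nat_lit 428676), .ofNat (nat_lit 632509)⟩, ⟨.negSucc (nat_lit 45522), .ofNat (nat_lit 254209), .negSucc (nat_lit 2834), .ofNat (nat_lit 296923), .negSucc (nat_lit 12423), .ofNat (nat_lit 259489), .ofNat (nat_lit 0), .ofNat (nat_lit 302621)⟩⟩, []⟩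
noncomputable def p058_l128 : Lf2 := ⟨nat_lit 0, nat_lit 10, [nat_lit 0, nat_lit 5, nat_lit 5, nat_lit 20], false, nat_lit 0, nat_lit 160, nat_lit 0, nat_lit 296, ⟨nat_lit 70, nat_lit 930, nat_lit 0, nat_lit 6, nat_lit 216, nat_lit 930, nat_lit 54, nat_lit 0, nat_lit 0, nat_lit 0, nat_lit 0, nat_lit 0, nat_lit 0, nat_lit 0, nat_lit 0, nat_lit 5000000, false, false⟩,
 nat_lit 1129, nat_lit 5729, nat_lit 0, nat_lit 0, nat_lit 4363, nat_lit 656, nat_lit 0, nat_lit 0, nat_lit 0, nat_lit 634, nat_lit 0, nat_lit 0, nat_lit 0, nat_lit 0, nat_lit 0, nat_lit 635400, nat_lit 0, nat_lit 0, [(nat_lit 12, [(nat_lit 1, nat_lit 491), (nat_lit 2, nat_lit 439)]), (nat_lit 15, [(nat_lit 1, nat_lit 491), (nat_lit 2, nat_lit 439)])],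
 ⟨p058_k54, nat_lit 0, nat_lit 0, nat_lit 498, nat_lit 0, nat_lit 608232, [nat_lit 2633202200, nat_lit 2377360800, nat_lit 1854346400], [], [nat_lit 29934364732, nat_lit 29261957344, nat_lit 29320720096, nat_lit 30355184512, nat_lit 26844478904, nat_lit 27908703056, nat_lit 29439272300, nat_lit 28785618880], nat_lit 1271250, nat_lit 1271250, nat_lit 780000, nat_lit 1762500, nat_lit 0, nat_lit 1100001, [nat_lit 780000, nat_lit 1762500, nat_lit 1271250], [nat_lit 99, nat_lit 40, nat_lit 40, nat_lit 80, nat_lit 17, nat_lit 317, nat_lit 100, nat_lit 9]⟩, ⟨p058_k56, nat_lit 0, nat_lit 0, nat_lit 498, nat_lit 0, nat_lit 677168, [nat_lit 328160000, nat_lit 688940000], [], [nat_lit 3408191208, nat_lit 3055959880, nat_lit 1486722304, nat_lit 1659213264, nat_lit 1337642905, nat_lit 1465987812, nat_lit 1974702946, nat_lit 1673292354], nat_lit 1271250, nat_lit 1271250, nat_lit 780000, nat_lit 1762500, nat_lit 0, nat_lit 2090500,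 [nat_lit 1100000, nat_lit 2127500], [nat_lit 70, nat_lit 40, nat_lit 40, nat_lit 80, nat_lit 13, nat_lit 456, nat_lit 225, nat_lit 13]⟩,
 ⟨nat_lit 4472, nat_lit 5478, ⟨.ofNat (nat_lit 414138), .ofNat (nat_lit 638835), .ofNat (nat_lit 435455), .ofNat (nat_lit 660148), .ofNat (nat_lit 428676), .ofNat (nat_lit 632509), .ofNat (nat_lit 450202), .ofNat (nat_lit 654031)⟩, ⟨.negSucc (nat_lit 45522), .ofNat (nat_lit 254209), .negSucc (nat_lit 24173), .ofNat (nat_lit 275566), .negSucc (nat_lit 12423), .ofNat (nat_lit 259489), .ofNat (nat_lit 0), .ofNat (nat_lit 281055)⟩⟩, []⟩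
noncomputable def p058_l129 : Lf2 := ⟨nat_lit 0, nat_lit 10, [nat_lit 0, nat_lit 5, nat_lit 5, nat_lit 20], false, nat_lit 0, nat_lit 160, nat_lit 0, nat_lit 320, ⟨nat_lit 89, nat_lit 911, nat_lit 0, nat_lit 6, nat_lit 216, nat_lit 911, nat_lit 58, nat_lit 0, nat_lit 0, nat_lit 0, nat_lit 0, nat_lit 0, nat_lit 0, nat_lit 0, nat_lit 0, nat_lit 5000000, false, false⟩,
 nat_lit 1433, nat_lit 6102, nat_lit 0, nat_lit 0, nat_lit 4794, nat_lit 833, nat_lit 122, nat_lit 0, nat_lit 0, nat_lit 814, nat_lit 0, nat_lit 0, nat_lit 0, nat_lit 0, nat_lit 0, nat_lit 425000, nat_lit 0, nat_lit 0, [(nat_lit 12, [(nat_lit 1, nat_lit 810), (nat_lit 2, nat_lit 101)]), (nat_lit 15, [(nat_lit 1, nat_lit 810), (nat_lit 2, nat_lit 101)])],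
 ⟨p058_k54, nat_lit 0, nat_lit 0, nat_lit 462, nat_lit 0, nat_lit 520313, [nat_lit 2414227000, nat_lit 3091336201, nat_lit 2981728000], [], [nat_lit 29478442016, nat_lit 28722531436, nat_lit 28659485820, nat_lit 29834484867, nat_lit 25624457332, nat_lit 26838959532, nat_lit 29111768001, nat_lit 27864939563], nat_lit 1271250, nat_lit 1271250, nat_lit 780000, nat_lit 1762500, nat_lit 0, nat_lit 1100001, [nat_lit 780000, nat_lit 1762500, nat_lit 1271250], [nat_lit 99, nat_lit 40, nat_lit 40, nat_lit 80, nat_lit 17, nat_lit 317, nat_lit 100, nat_lit 9]⟩, ⟨p058_k56, nat_lit 0, nat_lit 0, nat_lit 467, nat_lit 0, nat_lit 580660, [nat_lit 417232000, nat_lit 875938000], [], [nat_lit 4331093142, nat_lit 3883823788, nat_lit 1889355250, nat_lit 2108473324, nat_lit 1940936698, nat_lit 2088665292, nat_lit 2672013912, nat_lit 2289856836], nat_lit 1271250, nat_lit 1271250, nat_lit 780000, nat_lit 1762500, nat_lit 0, nat_lit 2260000,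 [nat_lit 1100000, nat_lit 2127500], [nat_lit 70, nat_lit 40, nat_lit 40, nat_lit 80, nat_lit 13, nat_lit 456, nat_lit 225, nat_lit 13]⟩,
 ⟨nat_lit 4472, nat_lit 5478, ⟨.ofNat (nat_lit 414138), .ofNat (nat_lit 638835), .ofNat (nat_lit 435455), .ofNat (nat_lit 660148), .ofNat (nat_lit 428676), .ofNat (nat_lit 632509), .ofNat (nat_lit 450202), .ofNat (nat_lit 654031)⟩, ⟨.negSucc (nat_lit 24173), .ofNat (nat_lit 275566), .negSucc (nat_lit 2834), .ofNat (nat_lit 296923), .ofNat (nat_lit 0), .ofNat (nat_lit 281055), .ofNat (nat_lit 0), .ofNat (nat_lit 302621)⟩⟩, []⟩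
noncomputable def p058_l130 : Lf2 := ⟨nat_lit 0, nat_lit 10, [nat_lit 0, nat_lit 5, nat_lit 5, nat_lit 20], false, nat_lit 160, nat_lit 300, nat_lit 0, nat_lit 336, ⟨nat_lit 0, nat_lit 1000, nat_lit 0, nat_lit 6, nat_lit 211, nat_lit 1000, nat_lit 161, nat_lit 0, nat_lit 0, nat_lit 0, nat_lit 0, nat_lit 0, nat_lit 0, nat_lit 0, nat_lit 0, nat_lit 5000000, false, false⟩,
 nat_lit 0, nat_lit 7509, nat_lit 0, nat_lit 0, nat_lit 4778, nat_lit 0, nat_lit 0, nat_lit 0, nat_lit 0, nat_lit 0, nat_lit 0, nat_lit 0, nat_lit 0, nat_lit 0, nat_lit 6, nat_lit 968800, nat_lit 0, nat_lit 0, [(nat_lit 12, [(nat_lit 1, nat_lit 52), (nat_lit 2, nat_lit 948)]), (nat_lit 15, [(nat_lit 1, nat_lit 52), (nat_lit 2, nat_lit 948)])],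
 ⟨p058_k16, nat_lit 0, nat_lit 0, nat_lit 373, nat_lit 0, nat_lit 644983, [nat_lit 2393326401, nat_lit 2106689600, nat_lit 26380800], [], [nat_lit 21894397426, nat_lit 20974466273, nat_lit 22758201971, nat_lit 22610701729, nat_lit 22825905485, nat_lit 24085901593, nat_lit 24015789429, nat_lit 25046678943], nat_lit 1271250, nat_lit 1271250, nat_lit 780000, nat_lit 1762500, nat_lit 1271250, nat_lit 1271250, [nat_lit 780000, nat_lit 1435000, nat_lit 1271250], [nat_lit 8, nat_lit 40, nat_lit 40, nat_lit 80, nat_lit 1, nat_lit 373, nat_lit 150, nat_lit 10]⟩, ⟨p058_k22, nat_lit 0, nat_lit 0, nat_lit 679, nat_lit 0, nat_lit 810363, [nat_lit 0, nat_lit 0, nat_lit 0], [], [nat_lit 0, nat_lit 0, nat_lit 0, nat_lit 0, nat_lit 0, nat_lit 0, nat_lit 0, nat_lit 0], nat_lit 1271250, nat_lit 1271250, nat_lit 780000, nat_lit 1762500, nat_lit 0, nat_lit 2373000, [nat_lit 1100000, nat_lit 1785000, nat_lit 1271250], [nat_lit 21, nat_lit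 40, nat_lit 40, nat_lit 80, nat_lit 14, nat_lit 456, nat_lit 225, nat_lit 12]⟩,
 ⟨nat_lit 4472, nat_lit 5478, ⟨.ofNat (nat_lit 392815), .ofNat (nat_lit 617523), .ofNat (nat_lit 435455), .ofNat (nat_lit 660148), .ofNat (nat_lit 407143), .ofNat (nat_lit 610987), .ofNat (nat_lit 450202), .ofNat (nat_lit 654031)⟩, ⟨.ofNat (nat_lit 254209), .ofNat (nat_lit 516475), .ofNat (nat_lit 296923), .ofNat (nat_lit 559189), .ofNat (nat_lit 259489), .ofNat (nat_lit 497412), .ofNat (nat_lit 302621), .ofNat (nat_lit 540545)⟩⟩, [⟨nat_lit 4, nat_lit 100, nat_lit 90, nat_lit 74, nat_lit 246858848⟩]⟩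
noncomputable def p058_l131 : Lf2 := ⟨nat_lit 0, nat_lit 10, [nat_lit 0, nat_lit 5, nat_lit 5, nat_lit 20], false, nat_lit 0, nat_lit 160, nat_lit 0, nat_lit 336, ⟨nat_lit 551, nat_lit 449, nat_lit 0, nat_lit 6, nat_lit 313, nat_lit 449, nat_lit 55, nat_lit 0, nat_lit 0, nat_lit 0, nat_lit 0, nat_lit 0, nat_lit 0, nat_lit 0, nat_lit 0, nat_lit 5000000, true, true⟩,
 nat_lit 8590, nat_lit 0, nat_lit 0, nat_lit 0, nat_lit 5466, nat_lit 4547, nat_lit 417, nat_lit 0, nat_lit 0, nat_lit 456, nat_lit 0, nat_lit 0, nat_lit 0, nat_lit 0, nat_lit 0, nat_lit 449000, nat_lit 0, nat_lit 0, [(nat_lit 12, [(nat_lit 2, nat_lit 449)])],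
 ⟨p058_k16, nat_lit 0, nat_lit 0, nat_lit 441, nat_lit 0, nat_lit 529661, [nat_lit 2856886801, nat_lit 4317683600, nat_lit 5290936000], [], [nat_lit 28586473046, nat_lit 29300470214, nat_lit 34840213792, nat_lit 35443898676, nat_lit 26321926702, nat_lit 26920079070, nat_lit 31680877849, nat_lit 32135870813], nat_lit 1271250, nat_lit 1271250, nat_lit 1271250, nat_lit 1271250, nat_lit 0, nat_lit 1100001, [nat_lit 780000, nat_lit 1435000, nat_lit 1271250], [nat_lit 8, nat_lit 40, nat_lit 40, nat_lit 80, nat_lit 1, nat_lit 373, nat_lit 150, nat_lit 10]⟩, ⟨p058_k22, nat_lit 0, nat_lit 0, nat_lit 552, nat_lit 0, nat_lit 665471, [nat_lit 2583088000, nat_lit 4390368000, nat_lit 6541472000], [], [nat_lit 19714369600, nat_lit 20294465932, nat_lit 22974510064, nat_lit 23331227556, nat_lit 18076272668, nat_lit 18398300153, nat_lit 20156738714, nat_lit 20336857788], nat_lit 1271250, nat_lit 1271250, nat_lit 1271250, nat_lit 1271250,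 nat_lit 0, nat_lit 2373000, [nat_lit 1100000, nat_lit 1785000, nat_lit 1271250], [nat_lit 21, nat_lit 40, nat_lit 40, nat_lit 80, nat_lit 14, nat_lit 538, nat_lit 300, nat_lit 13]⟩,
 ⟨nat_lit 5000, nat_lit 5478, ⟨.ofNat (nat_lit 617614), .ofNat (nat_lit 917295), .ofNat (nat_lit 660309), .ofNat (nat_lit 959989), .ofNat (nat_lit 614253), .ofNat (nat_lit 899915), .ofNat (nat_lit 657090), .ofNat (nat_lit 942753)⟩, ⟨.negSucc (nat_lit 45522), .ofNat (nat_lit 254209), .negSucc (nat_lit 2832), .ofNat (nat_lit 296923), .negSucc (nat_lit 28572), .ofNat (nat_lit 257141), .ofNat (nat_lit 0), .ofNat (nat_lit 299999)⟩⟩, [⟨nat_lit 19, nat_lit 100, nat_lit 92, nat_lit 75, nat_lit 79756749⟩]⟩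
noncomputable def p058_l132 : Lf2 := ⟨nat_lit 0, nat_lit 10, [nat_lit 0, nat_lit 5, nat_lit 5, nat_lit 20], false, nat_lit 160, nat_lit 300, nat_lit 0, nat_lit 336, ⟨nat_lit 566, nat_lit 434, nat_lit 0, nat_lit 6, nat_lit 313, nat_lit 434, nat_lit 162, nat_lit 0, nat_lit 0, nat_lit 0, nat_lit 0, nat_lit 0, nat_lit 0, nat_lit 0, nat_lit 0, nat_lit 5000000, true, true⟩,
 nat_lit 8782, nat_lit 0, nat_lit 0, nat_lit 0, nat_lit 5588, nat_lit 4649, nat_lit 394, nat_lit 0, nat_lit 0, nat_lit 458, nat_lit 0, nat_lit 0, nat_lit 0, nat_lit 0, nat_lit 0, nat_lit 434000, nat_lit 0, nat_lit 0, [(nat_lit 12, [(nat_lit 2, nat_lit 434)])],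
 ⟨p058_k16, nat_lit 0, nat_lit 0, nat_lit 324, nat_lit 0, nat_lit 529661, [nat_lit 2871088800, nat_lit 4382237600, nat_lit 5442976000], [], [nat_lit 24308090498, nat_lit 24995647418, nat_lit 30218830464, nat_lit 30865405840, nat_lit 26886814748, nat_lit 27494609636, nat_lit 32328035988, nat_lit 33014229858], nat_lit 1271250, nat_lit 1271250, nat_lit 1271250, nat_lit 1271250, nat_lit 1100001, nat_lit 2298750, [nat_lit 780000, nat_lit 1435000, nat_lit 1271250], [nat_lit 8, nat_lit 40, nat_lit 40, nat_lit 80, nat_lit 1, nat_lit 401, nat_lit 175, nat_lit 11]⟩, ⟨p058_k22, nat_lit 0, nat_lit 0, nat_lit 552, nat_lit 0, nat_lit 665471, [nat_lit 2653408000, nat_lit 4509888000, nat_lit 6719552000], [], [nat_lit 20364003764, nat_lit 20959465748, nat_lit 23707025336, nat_lit 24009364880, nat_lit 18635427665, nat_lit 18966747053, nat_lit 20771118713, nat_lit 20864666150], nat_lit 1271250, nat_lit 1271250, nat_lit 1271250, nat_lit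 1271250, nat_lit 0, nat_lit 2373000, [nat_lit 1100000, nat_lit 1785000, nat_lit 1271250], [nat_lit 21, nat_lit 40, nat_lit 40, nat_lit 80, nat_lit 14, nat_lit 538, nat_lit 300, nat_lit 13]⟩,
 ⟨nat_lit 5000, nat_lit 5478, ⟨.ofNat (nat_lit 617614), .ofNat (nat_lit 917295), .ofNat (nat_lit 660309), .ofNat (nat_lit 959989), .ofNat (nat_lit 614253), .ofNat (nat_lit 899915), .ofNat (nat_lit 657090), .ofNat (nat_lit 942753)⟩, ⟨.ofNat (nat_lit 254209), .ofNat (nat_lit 516475), .ofNat (nat_lit 296923), .ofNat (nat_lit 559189), .ofNat (nat_lit 257141), .ofNat (nat_lit 507141), .ofNat (nat_lit 299999), .ofNat (nat_lit 549998)⟩⟩, [⟨nat_lit 4, nat_lit 100, nat_lit 94, nat_lit 75, nat_lit 338350849⟩, ⟨nat_lit 7, nat_lit 92, nat_lit 100, nat_lit 75, nat_lit 80498124⟩]⟩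
noncomputable def p058_l133 : Lf2 := ⟨nat_lit 0, nat_lit 10, [nat_lit 0, nat_lit 5, nat_lit 5, nat_lit 20], false, nat_lit 0, nat_lit 280, nat_lit 0, nat_lit 336, ⟨nat_lit 415, nat_lit 585, nat_lit 0, nat_lit 6, nat_lit 310, nat_lit 585, nat_lit 98, nat_lit 0, nat_lit 0, nat_lit 0, nat_lit 0, nat_lit 0, nat_lit 0, nat_lit 0, nat_lit 0, nat_lit 5000000, true, true⟩,
 nat_lit 6546, nat_lit 0, nat_lit 0, nat_lit 0, nat_lit 4531, nat_lit 3465, nat_lit 525, nat_lit 0, nat_lit 0, nat_lit 292, nat_lit 0, nat_lit 0, nat_lit 0, nat_lit 0, nat_lit 0, nat_lit 464400, nat_lit 0, nat_lit 0, [(nat_lit 15, [(nat_lit 1, nat_lit 201), (nat_lit 2, nat_lit 384)])],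
 ⟨p058_k25, nat_lit 0, nat_lit 0, nat_lit 393, nat_lit 0, nat_lit 529263, [nat_lit 2579712601, nat_lit 3469510201, nat_lit 3504511200], [], [nat_lit 26035552315, nat_lit 26435564897, nat_lit 32912679766, nat_lit 33431620101, nat_lit 27307447323, nat_lit 27577564927, nat_lit 31350896972, nat_lit 31555563739], nat_lit 1271250, nat_lit 1271250, nat_lit 1271250, nat_lit 1271250, nat_lit 0, nat_lit 1977500, [nat_lit 780000, nat_lit 1435000, nat_lit 1271250], [nat_lit 18, nat_lit 40, nat_lit 40, nat_lit 80, nat_lit 2, nat_lit 289, nat_lit 75, nat_lit 9]⟩, ⟨p058_k22, nat_lit 0, nat_lit 0, nat_lit 579, nat_lit 0, nat_lit 736603, [nat_lit 1945520000, nat_lit 3306720000, nat_lit 4926880000], [], [nat_lit 16217955480, nat_lit 16483316800, nat_lit 17886491240, nat_lit 17959674060, nat_lit 14398622580, nat_lit 14512285156, nat_lit 15387701561, nat_lit 15365022881], nat_lit 1271250, nat_lit 1271250, nat_lit 1271250, nat_lit 1271250,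 nat_lit 0, nat_lit 2373000, [nat_lit 1100000, nat_lit 1785000, nat_lit 1271250], [nat_lit 21, nat_lit 40, nat_lit 40, nat_lit 80, nat_lit 14, nat_lit 538, nat_lit 300, nat_lit 13]⟩,
 ⟨nat_lit 4743, nat_lit 5000, ⟨.ofNat (nat_lit 614278), .ofNat (nat_lit 899984), .ofNat (nat_lit 657129), .ofNat (nat_lit 942836), .ofNat (nat_lit 612668), .ofNat (nat_lit 891460), .ofNat (nat_lit 655639), .ofNat (nat_lit 934430)⟩, ⟨.negSucc (nat_lit 28572), .ofNat (nat_lit 471427), .ofNat (nat_lit 0), .ofNat (nat_lit 514284), .negSucc (nat_lit 20404), .ofNat (nat_lit 467493), .ofNat (nat_lit 0), .ofNat (nat_lit 510469)⟩⟩, [⟨nat_lit 4, nat_lit 100, nat_lit 88, nat_lit 74, nat_lit 121150709⟩, ⟨nat_lit 7, nat_lit 92, nat_lit 100, nat_lit 75, nat_lit 53319724⟩]⟩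
noncomputable def p058_l134 : Lf2 := ⟨nat_lit 0, nat_lit 10, [nat_lit 0, nat_lit 5, nat_lit 5, nat_lit 20], false, nat_lit 0, nat_lit 268, nat_lit 0, nat_lit 336, ⟨nat_lit 391, nat_lit 609, nat_lit 0, nat_lit 6, nat_lit 308, nat_lit 609, nat_lit 93, nat_lit 0, nat_lit 0, nat_lit 0, nat_lit 0, nat_lit 0, nat_lit 0, nat_lit 0, nat_lit 0, nat_lit 5000000, true, true⟩,
 nat_lit 6172, nat_lit 0, nat_lit 0, nat_lit 0, nat_lit 4449, nat_lit 3267, nat_lit 687, nat_lit 0, nat_lit 0, nat_lit 275, nat_lit 0, nat_lit 0, nat_lit 0, nat_lit 0, nat_lit 0, nat_lit 243600, nat_lit 0, nat_lit 0, [(nat_lit 15, [(nat_lit 1, nat_lit 609)])],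
 ⟨p058_k45, nat_lit 0, nat_lit 0, nat_lit 401, nat_lit 0, nat_lit 554578, [nat_lit 2513563800, nat_lit 3877863801, nat_lit 4525932000], [], [nat_lit 25429078670, nat_lit 25826391648, nat_lit 33205917479, nat_lit 33721144444, nat_lit 26360067532, nat_lit 26653155261, nat_lit 31232804588, nat_lit 31469713913], nat_lit 1271250, nat_lit 1271250, nat_lit 1271250, nat_lit 1271250, nat_lit 0, nat_lit 1892750, [nat_lit 780000, nat_lit 1435000, nat_lit 1271250], [nat_lit 18, nat_lit 40, nat_lit 40, nat_lit 80, nat_lit 2, nat_lit 289, nat_lit 75, nat_lit 9]⟩, ⟨p058_k22, nat_lit 0, nat_lit 0, nat_lit 632, nat_lit 0, nat_lit 810363, [nat_lit 1833008000, nat_lit 3115488000, nat_lit 4641952000], [], [nat_lit 15273386612, nat_lit 15523357908, nat_lit 16845640612, nat_lit 16924166080, nat_lit 13556481330, nat_lit 13662876768, nat_lit 14487638493, nat_lit 14479271484], nat_lit 1271250, nat_lit 1271250, nat_lit 1271250, nat_lit 1271250,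 nat_lit 0, nat_lit 2373000, [nat_lit 1100000, nat_lit 1785000, nat_lit 1271250], [nat_lit 21, nat_lit 40, nat_lit 40, nat_lit 80, nat_lit 14, nat_lit 538, nat_lit 300, nat_lit 13]⟩,
 ⟨nat_lit 4472, nat_lit 4744, ⟨.ofNat (nat_lit 612668), .ofNat (nat_lit 891465), .ofNat (nat_lit 655638), .ofNat (nat_lit 934435), .ofNat (nat_lit 611103), .ofNat (nat_lit 883014), .ofNat (nat_lit 654230), .ofNat (nat_lit 926140)⟩, ⟨.negSucc (nat_lit 20404), .ofNat (nat_lit 446583), .ofNat (nat_lit 0), .ofNat (nat_lit 489559), .negSucc (nat_lit 12423), .ofNat (nat_lit 443030), .ofNat (nat_lit 0), .ofNat (nat_lit 486162)⟩⟩, [⟨nat_lit 4, nat_lit 100, nat_lit 83, nat_lit 73, nat_lit 124455641⟩, ⟨nat_lit 7, nat_lit 92, nat_lit 100, nat_lit 75, nat_lit 40242653⟩, ⟨nat_lit 10, nat_lit 100, nat_lit 18, nat_lit 96, nat_lit 43532172⟩]⟩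
noncomputable def b_V_700_600_10_32 : St := ⟨true, nat_lit 1, nat_lit 1, nat_lit 2, nat_lit 80, nat_lit 280, nat_lit 320, nat_lit 240, nat_lit 280, nat_lit 36, nat_lit 400, nat_lit 40, nat_lit 80, nat_lit 0, nat_lit 300, nat_lit 0, nat_lit 336, nat_lit 0, nat_lit 40, nat_lit 0, nat_lit 0, nat_lit 0, nat_lit 0⟩
theorem d_V_700_600_10_32 (h : EB TB.env) : Dead b_V_700_600_10_32 := chkB_sound0 h (T :=
(.spl (nat_lit 2) (nat_lit 120)
(.spl (nat_lit 4) (nat_lit 160)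
(.leaf p058_l125)
(.leaf p058_l126))
(.spl (nat_lit 2) (nat_lit 240)
(.spl (nat_lit 4) (nat_lit 160)
(.spl (nat_lit 1) (nat_lit 260)
(.leaf p058_l127)
(.trX (nat_lit 19) (nat_lit 100) (nat_lit 85) (nat_lit 84) (nat_lit 320) (.spl (nat_lit 3) (nat_lit 60)
(.trX (nat_lit 19) (nat_lit 100) (nat_lit 92) (nat_lit 75) (nat_lit 296) (.leaf p058_l128))
(.leaf p058_l129))))
(.leaf p058_l130))
(.spl (nat_lit 0) (nat_lit 300)
(.spl (nat_lit 4) (nat_lit 160)
(.leaf p058_l131)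
(.leaf p058_l132))
(.trX (nat_lit 16) (nat_lit 94) (nat_lit 100) (nat_lit 87) (nat_lit 280) (.spl (nat_lit 0) (nat_lit 310)
(.leaf p058_l133)
(.trX (nat_lit 16) (nat_lit 89) (nat_lit 100) (nat_lit 85) (nat_lit 268) (.leaf p058_l134)))))))) (by decide +kernel)

end B2
end Pool.Agent.Lib.MP_6947cd_al
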