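import Pool.Agent.Lib.MP_6947cd_al.ZB.Pre

/-!
Problem MP_6947cd_al (Chollet).  Case B, second entry in [2/5, 17/20]: certificates of the tree, part P059 (generated).
-/

set_option autoImplicit false
set_option linter.all false

namespace Pool.Agent.Lib.MP_6947cd_al
namespace B2

open Ent Fr B1 PkA

noncomputable def p059_k0 : C1.Kn := ⟨[nat_lit 60, nat_lit 100, nat_lit 140], [nat_lit 0, nat_lit 0, nat_lit 2047], [(nat_lit 0, nat_lit 0, nat_lit 0), (nat_lit 0, nat_lit 0, nat_lit 0), (nat_lit 1000, nat_lit 993, nat_lit 781)], (nat_lit 99, nat_lit 100, nat_lit 77)⟩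
noncomputable def p059_k1 : C1.Kn := ⟨[nat_lit 80, nat_lit 120, nat_lit 160], [nat_lit 0, nat_lit 528, nat_lit 2577], [(nat_lit 0, nat_lit 0, nat_lit 0), (nat_lit 1000, nat_lit 959, nat_lit 206), (nat_lit 929, nat_lit 1000, nat_lit 742)], (nat_lit 100, nat_lit 92, nat_lit 75)⟩
noncomputable def p059_k2 : C1.Kn := ⟨[nat_lit 60, nat_lit 100, nat_lit 140], [nat_lit 0, nat_lit 0, nat_lit 2047], [(nat_lit 0, nat_lit 0, nat_lit 0), (nat_lit 0, nat_lit 0, nat_lit 0), (nat_lit 1000, nat_lit 993, nat_lit 781)], (nat_lit 98, nat_lit 100, nat_lit 74)⟩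
noncomputable def p059_k3 : C1.Kn := ⟨[nat_lit 60, nat_lit 140], [nat_lit 0, nat_lit 1218], [(nat_lit 0, nat_lit 0, nat_lit 0), (nat_lit 1000, nat_lit 905, nat_lit 238)], (nat_lit 94, nat_lit 100, nat_lit 87)⟩
noncomputable def p059_k4 : C1.Kn := ⟨[nat_lit 60, nat_lit 100, nat_lit 140], [nat_lit 0, nat_lit 909, nat_lit 2819], [(nat_lit 0, nat_lit 0, nat_lit 0), (nat_lit 1000, nat_lit 858, nat_lit 354), (nat_lit 1000, nat_lit 858, nat_lit 746)], (nat_lit 89, nat_lit 100, nat_lit 85)⟩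
noncomputable def p059_k5 : C1.Kn := ⟨[nat_lit 60, nat_lit 120, nat_lit 160], [nat_lit 0, nat_lit 0, nat_lit 3243], [(nat_lit 0, nat_lit 0, nat_lit 0), (nat_lit 0, nat_lit 0, nat_lit 0), (nat_lit 878, nat_lit 1000, nat_lit 945)], (nat_lit 100, nat_lit 95, nat_lit 87)⟩
noncomputable def p059_k6 : C1.Kn := ⟨[nat_lit 80, nat_lit 140, nat_lit 180], [nat_lit 0, nat_lit 0, nat_lit 3656], [(nat_lit 0, nat_lit 0, nat_lit 0), (nat_lit 0, nat_lit 0, nat_lit 0), (nat_lit 637, nat_lit 1000, nat_lit 908)], (nat_lit 100, nat_lit 76, nat_lit 82)⟩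
noncomputable def p059_k7 : C1.Kn := ⟨[nat_lit 60, nat_lit 160], [nat_lit 0, nat_lit 0], [(nat_lit 0, nat_lit 0, nat_lit 0), (nat_lit 0, nat_lit 0, nat_lit 0)], (nat_lit 100, nat_lit 95, nat_lit 87)⟩
noncomputable def p059_k8 : C1.Kn := ⟨[nat_lit 60, nat_lit 100, nat_lit 140], [nat_lit 0, nat_lit 609, nat_lit 2558], [(nat_lit 0, nat_lit 0, nat_lit 0), (nat_lit 1000, nat_lit 905, nat_lit 238), (nat_lit 1000, nat_lit 904, nat_lit 760)], (nat_lit 90, nat_lit 100, nat_lit 74)⟩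
noncomputable def p059_k9 : C1.Kn := ⟨[nat_lit 80, nat_lit 180], [nat_lit 0, nat_lit 0], [(nat_lit 0, nat_lit 0, nat_lit 0), (nat_lit 0, nat_lit 0, nat_lit 0)], (nat_lit 100, nat_lit 76, nat_lit 82)⟩
noncomputable def p059_k10 : C1.Kn := ⟨[nat_lit 60, nat_lit 120, nat_lit 140], [nat_lit 0, nat_lit 1362, nat_lit 2909], [(nat_lit 0, nat_lit 0, nat_lit 0), (nat_lit 1000, nat_lit 858, nat_lit 354), (nat_lit 1000, nat_lit 909, nat_lit 910)], (nat_lit 89, nat_lit 100, nat_lit 85)⟩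
noncomputable def p059_k11 : C1.Kn := ⟨[nat_lit 80, nat_lit 120, nat_lit 160], [nat_lit 0, nat_lit 0, nat_lit 2132], [(nat_lit 0, nat_lit 0, nat_lit 0), (nat_lit 0, nat_lit 0, nat_lit 0), (nat_lit 858, nat_lit 1000, nat_lit 713)], (nat_lit 100, nat_lit 85, nat_lit 73)⟩
noncomputable def p059_k12 : C1.Kn := ⟨[nat_lit 60, nat_lit 100, nat_lit 140], [nat_lit 0, nat_lit 302, nat_lit 2304], [(nat_lit 0, nat_lit 0, nat_lit 0), (nat_lit 1000, nat_lit 953, nat_lit 118), (nat_lit 1000, nat_lit 952, nat_lit 781)], (nat_lit 94, nat_lit 100, nat_lit 75)⟩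
noncomputable def p059_k13 : C1.Kn := ⟨[nat_lit 80, nat_lit 120, nat_lit 160], [nat_lit 0, nat_lit 0, nat_lit 2132], [(nat_lit 0, nat_lit 0, nat_lit 0), (nat_lit 0, nat_lit 0, nat_lit 0), (nat_lit 858, nat_lit 1000, nat_lit 713)], (nat_lit 100, nat_lit 86, nat_lit 71)⟩
noncomputable def p059_k14 : C1.Kn := ⟨[nat_lit 60, nat_lit 100, nat_lit 140], [nat_lit 0, nat_lit 609, nat_lit 2558], [(nat_lit 0, nat_lit 0, nat_lit 0), (nat_lit 1000, nat_lit 905, nat_lit 238), (nat_lit 1000, nat_lit 904, nat_lit 760)], (nat_lit 94, nat_lit 100, nat_lit 87)⟩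
noncomputable def p059_k15 : C1.Kn := ⟨[nat_lit 80, nat_lit 120, nat_lit 180], [nat_lit 0, nat_lit 0, nat_lit 3196], [(nat_lit 0, nat_lit 0, nat_lit 0), (nat_lit 0, nat_lit 0, nat_lit 0), (nat_lit 858, nat_lit 1000, nat_lit 713)], (nat_lit 100, nat_lit 76, nat_lit 82)⟩
noncomputable def p059_k16 : C1.Kn := ⟨[nat_lit 80, nat_lit 120, nat_lit 160], [nat_lit 0, nat_lit 528, nat_lit 2577], [(nat_lit 0, nat_lit 0, nat_lit 0), (nat_lit 1000, nat_lit 959, nat_lit 206), (nat_lit 929, nat_lit 1000, nat_lit 742)], (nat_lit 100, nat_lit 85, nat_lit 84)⟩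
noncomputable def p059_k17 : C1.Kn := ⟨[nat_lit 60, nat_lit 100, nat_lit 160], [nat_lit 0, nat_lit 0, nat_lit 3069], [(nat_lit 0, nat_lit 0, nat_lit 0), (nat_lit 0, nat_lit 0, nat_lit 0), (nat_lit 1000, nat_lit 999, nat_lit 798)], (nat_lit 100, nat_lit 95, nat_lit 87)⟩
noncomputable def p059_k18 : C1.Kn := ⟨[nat_lit 60, nat_lit 80, nat_lit 140], [nat_lit 0, nat_lit 304, nat_lit 1867], [(nat_lit 0, nat_lit 0, nat_lit 0), (nat_lit 1000, nat_lit 905, nat_lit 238), (nat_lit 1000, nat_lit 871, nat_lit 407)], (nat_lit 94, nat_lit 100, nat_lit 87)⟩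
noncomputable def p059_k19 : C1.Kn := ⟨[nat_lit 80, nat_lit 100, nat_lit 160], [nat_lit 0, nat_lit 265, nat_lit 1771], [(nat_lit 0, nat_lit 0, nat_lit 0), (nat_lit 1000, nat_lit 959, nat_lit 206), (nat_lit 1000, nat_lit 958, nat_lit 392)], (nat_lit 100, nat_lit 85, nat_lit 84)⟩
noncomputable def p059_k20 : C1.Kn := ⟨[nat_lit 80, nat_lit 120, nat_lit 180], [nat_lit 0, nat_lit 264, nat_lit 3394], [(nat_lit 0, nat_lit 0, nat_lit 0), (nat_lit 1000, nat_lit 979, nat_lit 103), (nat_lit 893, nat_lit 1000, nat_lit 726)], (nat_lit 100, nat_lit 81, nat_lit 83)⟩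
noncomputable def p059_k21 : C1.Kn := ⟨[nat_lit 80, nat_lit 120, nat_lit 180], [nat_lit 0, nat_lit 395, nat_lit 3498], [(nat_lit 0, nat_lit 0, nat_lit 0), (nat_lit 1000, nat_lit 969, nat_lit 154), (nat_lit 910, nat_lit 1000, nat_lit 734)], (nat_lit 100, nat_lit 83, nat_lit 83)⟩
noncomputable def p059_k22 : C1.Kn := ⟨[nat_lit 60, nat_lit 80, nat_lit 160], [nat_lit 0, nat_lit 0, nat_lit 2127], [(nat_lit 0, nat_lit 0, nat_lit 0), (nat_lit 0, nat_lit 0, nat_lit 0), (nat_lit 1000, nat_lit 917, nat_lit 415)], (nat_lit 100, nat_lit 95, nat_lit 87)⟩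
noncomputable def p059_k23 : C1.Kn := ⟨[nat_lit 60, nat_lit 100, nat_lit 140], [nat_lit 0, nat_lit 302, nat_lit 2304], [(nat_lit 0, nat_lit 0, nat_lit 0), (nat_lit 1000, nat_lit 953, nat_lit 118), (nat_lit 1000, nat_lit 952, nat_lit 781)], (nat_lit 93, nat_lit 100, nat_lit 73)⟩
noncomputable def p059_k24 : C1.Kn := ⟨[nat_lit 60, nat_lit 120, nat_lit 140], [nat_lit 0, nat_lit 0, nat_lit 2047], [(nat_lit 0, nat_lit 0, nat_lit 0), (nat_lit 0, nat_lit 0, nat_lit 0), (nat_lit 1000, nat_lit 993, nat_lit 781)], (nat_lit 99, nat_lit 100, nat_lit 77)⟩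
noncomputable def p059_k25 : C1.Kn := ⟨[nat_lit 80, nat_lit 140], [nat_lit 0, nat_lit 1393], [(nat_lit 0, nat_lit 0, nat_lit 0), (nat_lit 1000, nat_lit 927, nat_lit 362)], (nat_lit 100, nat_lit 99, nat_lit 77)⟩
noncomputable def p059_k26 : C1.Kn := ⟨[nat_lit 60, nat_lit 120, nat_lit 140], [nat_lit 0, nat_lit 683, nat_lit 2454], [(nat_lit 0, nat_lit 0, nat_lit 0), (nat_lit 1000, nat_lit 929, nat_lit 178), (nat_lit 1000, nat_lit 958, nat_lit 854)], (nat_lit 91, nat_lit 100, nat_lit 72)⟩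
noncomputable def p059_k27 : C1.Kn := ⟨[nat_lit 60, nat_lit 80, nat_lit 140], [nat_lit 0, nat_lit 0, nat_lit 1595], [(nat_lit 0, nat_lit 0, nat_lit 0), (nat_lit 0, nat_lit 0, nat_lit 0), (nat_lit 1000, nat_lit 917, nat_lit 415)], (nat_lit 98, nat_lit 100, nat_lit 74)⟩
noncomputable def p059_k28 : C1.Kn := ⟨[nat_lit 80, nat_lit 100, nat_lit 160], [nat_lit 0, nat_lit 0, nat_lit 1533], [(nat_lit 0, nat_lit 0, nat_lit 0), (nat_lit 0, nat_lit 0, nat_lit 0), (nat_lit 1000, nat_lit 1000, nat_lit 399)], (nat_lit 100, nat_lit 86, nat_lit 71)⟩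
noncomputable def p059_l0 : Lf2 := ⟨nat_lit 0, nat_lit 15, [nat_lit 30, nat_lit 5, nat_lit 5, nat_lit 20], true, nat_lit 0, nat_lit 160, nat_lit 0, nat_lit 312, ⟨nat_lit 0, nat_lit 0, nat_lit 1000, nat_lit 6, nat_lit 149, nat_lit 530, nat_lit 54, nat_lit 1000, nat_lit 22817, nat_lit 252, nat_lit 40017, nat_lit 264, nat_lit 58878574, nat_lit 0, nat_lit 0, nat_lit 1846695, false, false⟩,
 nat_lit 0, nat_lit 0, nat_lit 0, nat_lit 5293, nat_lit 3295, nat_lit 0, nat_lit 0, nat_lit 0, nat_lit 0, nat_lit 0, nat_lit 0, nat_lit 0, nat_lit 0, nat_lit 0, nat_lit 126, nat_lit 551800, nat_lit 0, nat_lit 0, [(nat_lit 13, [(nat_lit 5, nat_lit 747), (nat_lit 6, nat_lit 253)]), (nat_lit 16, [(nat_lit 5, nat_lit 747), (nat_lit 6, nat_lit 253)])],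
 ⟨p059_k0, nat_lit 0, nat_lit 0, nat_lit 284, nat_lit 0, nat_lit 0, [nat_lit 2788691334, nat_lit 1831298667, nat_lit 25940000], [], [nat_lit 14907190653, nat_lit 17612289873, nat_lit 15528775801, nat_lit 17615910420, nat_lit 14848435129, nat_lit 16672352991, nat_lit 15445204641, nat_lit 17295191628], nat_lit 0, nat_lit 0, nat_lit 0, nat_lit 0, nat_lit 0, nat_lit 0, [], [nat_lit 8, nat_lit 40, nat_lit 40, nat_lit 80, nat_lit 1, nat_lit 317, nat_lit 100, nat_lit 9]⟩, C1.Rw.none,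
 ⟨nat_lit 4472, nat_lit 5478, ⟨.ofNat (nat_lit 235487), .ofNat (nat_lit 467727), .ofNat (nat_lit 256814), .ofNat (nat_lit 489040), .ofNat (nat_lit 264421), .ofNat (nat_lit 475101), .ofNat (nat_lit 285957), .ofNat (nat_lit 496623)⟩, ⟨.negSucc (nat_lit 45522), .ofNat (nat_lit 254209), .negSucc (nat_lit 24173), .ofNat (nat_lit 275566), .negSucc (nat_lit 12423), .ofNat (nat_lit 259489), .ofNat (nat_lit 0), .ofNat (nat_lit 281055)⟩⟩, [⟨nat_lit 0, nat_lit 100, nat_lit 89, nat_lit 72, nat_lit 72507889⟩]⟩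
noncomputable def p059_l1 : Lf2 := ⟨nat_lit 0, nat_lit 15, [nat_lit 30, nat_lit 5, nat_lit 5, nat_lit 20], false, nat_lit 0, nat_lit 160, nat_lit 0, nat_lit 296, ⟨nat_lit 483, nat_lit 0, nat_lit 517, nat_lit 6, nat_lit 161, nat_lit 517, nat_lit 54, nat_lit 517, nat_lit 22817, nat_lit 252, nat_lit 19267, nat_lit 249, nat_lit 57617502, nat_lit 0, nat_lit 0, nat_lit 2025154, false, false⟩,
 nat_lit 0, nat_lit 0, nat_lit 0, nat_lit 10713, nat_lit 4332, nat_lit 4834, nat_lit 43, nat_lit 0, nat_lit 0, nat_lit 685, nat_lit 0, nat_lit 0, nat_lit 0, nat_lit 0, nat_lit 0, nat_lit 517000, nat_lit 0, nat_lit 0, [(nat_lit 13, [(nat_lit 6, nat_lit 517)]), (nat_lit 16, [(nat_lit 6, nat_lit 517)])],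
 ⟨p059_k0, nat_lit 0, nat_lit 0, nat_lit 221, nat_lit 0, nat_lit 0, [nat_lit 2175482134, nat_lit 2435091467, nat_lit 1467840800], [], [nat_lit 20016815323, nat_lit 23085177623, nat_lit 20026621357, nat_lit 22693270007, nat_lit 18551382279, nat_lit 20911622170, nat_lit 18957064109, nat_lit 21014948413], nat_lit 0, nat_lit 0, nat_lit 0, nat_lit 0, nat_lit 0, nat_lit 0, [], [nat_lit 8, nat_lit 40, nat_lit 40, nat_lit 80, nat_lit 1, nat_lit 317, nat_lit 100, nat_lit 9]⟩, ⟨p059_k1, nat_lit 0, nat_lit 0, nat_lit 329, nat_lit 0, nat_lit 0, [nat_lit 2264304000, nat_lit 3848544000, nat_lit 5734176000], [], [nat_lit 12647009623, nat_lit 13549262594, nat_lit 10836617681, nat_lit 11613851051, nat_lit 11443430255, nat_lit 11946489058, nat_lit 9629703981, nat_lit 10207043984], nat_lit 0, nat_lit 0, nat_lit 0, nat_lit 0, nat_lit 0, nat_lit 0, [], [nat_lit 21, nat_lit 40, nat_lit 40, nat_lit 80, nat_lit 14, nat_lit 428, nat_lit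 200, nat_lit 11]⟩,
 ⟨nat_lit 4472, nat_lit 5478, ⟨.ofNat (nat_lit 279289), .ofNat (nat_lit 489040), .ofNat (nat_lit 300612), .ofNat (nat_lit 510352), .ofNat (nat_lit 306346), .ofNat (nat_lit 496623), .ofNat (nat_lit 327879), .ofNat (nat_lit 518145)⟩, ⟨.negSucc (nat_lit 45522), .ofNat (nat_lit 254209), .negSucc (nat_lit 24173), .ofNat (nat_lit 275566), .negSucc (nat_lit 12423), .ofNat (nat_lit 259489), .ofNat (nat_lit 0), .ofNat (nat_lit 281055)⟩⟩, [⟨nat_lit 0, nat_lit 100, nat_lit 92, nat_lit 82, nat_lit 430069902⟩, ⟨nat_lit 7, nat_lit 100, nat_lit 100, nat_lit 71, nat_lit 84081652⟩]⟩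
noncomputable def p059_l2 : Lf2 := ⟨nat_lit 0, nat_lit 14, [nat_lit 119, nat_lit 5, nat_lit 5, nat_lit 20], true, nat_lit 0, nat_lit 160, nat_lit 0, nat_lit 336, ⟨nat_lit 0, nat_lit 0, nat_lit 1000, nat_lit 6, nat_lit 151, nat_lit 739, nat_lit 58, nat_lit 1000, nat_lit 29400, nat_lit 257, nat_lit 24681, nat_lit 252, nat_lit 58640762, nat_lit 0, nat_lit 0, nat_lit 1881558, false, false⟩,
 nat_lit 0, nat_lit 0, nat_lit 0, nat_lit 8112, nat_lit 2968, nat_lit 0, nat_lit 0, nat_lit 0, nat_lit 0, nat_lit 0, nat_lit 0, nat_lit 0, nat_lit 0, nat_lit 0, nat_lit 148, nat_lit 648400, nat_lit 0, nat_lit 0, [(nat_lit 13, [(nat_lit 5, nat_lit 586), (nat_lit 6, nat_lit 414)])],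
 ⟨p059_k2, nat_lit 0, nat_lit 0, nat_lit 219, nat_lit 0, nat_lit 0, [nat_lit 2981412001, nat_lit 2177431734, nat_lit 26920000], [], [nat_lit 14151228555, nat_lit 15331311586, nat_lit 15011173153, nat_lit 16043957377, nat_lit 14308548712, nat_lit 15367552382, nat_lit 15526106551, nat_lit 16584342754], nat_lit 0, nat_lit 0, nat_lit 0, nat_lit 0, nat_lit 0, nat_lit 0, [], [nat_lit 8, nat_lit 40, nat_lit 40, nat_lit 80, nat_lit 1, nat_lit 317, nat_lit 100, nat_lit 9]⟩, C1.Rw.none,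
 ⟨nat_lit 5000, nat_lit 5478, ⟨.ofNat (nat_lit 235487), .ofNat (nat_lit 467773), .ofNat (nat_lit 278201), .ofNat (nat_lit 510468), .ofNat (nat_lit 249999), .ofNat (nat_lit 471421), .ofNat (nat_lit 292856), .ofNat (nat_lit 514258)⟩, ⟨.negSucc (nat_lit 24165), .ofNat (nat_lit 275566), .negSucc (nat_lit 2832), .ofNat (nat_lit 296923), .negSucc (nat_lit 7143), .ofNat (nat_lit 278570), .ofNat (nat_lit 0), .ofNat (nat_lit 299999)⟩⟩, [⟨nat_lit 0, nat_lit 100, nat_lit 94, nat_lit 88, nat_lit 49327341⟩]⟩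
noncomputable def p059_l3 : Lf2 := ⟨nat_lit 1, nat_lit 20, [nat_lit 5, nat_lit 5, nat_lit 5, nat_lit 20], false, nat_lit 0, nat_lit 160, nat_lit 0, nat_lit 336, zbN0,
 nat_lit 0, nat_lit 0, nat_lit 0, nat_lit 0, nat_lit 0, nat_lit 0, nat_lit 0, nat_lit 0, nat_lit 0, nat_lit 0, nat_lit 0, nat_lit 0, nat_lit 0, nat_lit 0, nat_lit 0, nat_lit 0, nat_lit 0, nat_lit 0, [],
 C1.Rw.none, C1.Rw.none,
 zbF0, []⟩
noncomputable def p059_l4 : Lf2 := ⟨nat_lit 0, nat_lit 20, [nat_lit 5, nat_lit 5, nat_lit 5, nat_lit 20], true, nat_lit 0, nat_lit 160, nat_lit 0, nat_lit 336, ⟨nat_lit 0, nat_lit 0, nat_lit 1000, nat_lit 6, nat_lit 158, nat_lit 520, nat_lit 58, nat_lit 1000, nat_lit 30817, nat_lit 258, nat_lit 20417, nat_lit 250, nat_lit 57956605, nat_lit 0, nat_lit 0, nat_lit 1978686, false, false⟩,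
 nat_lit 0, nat_lit 0, nat_lit 0, nat_lit 7711, nat_lit 3188, nat_lit 0, nat_lit 0, nat_lit 0, nat_lit 0, nat_lit 0, nat_lit 0, nat_lit 0, nat_lit 0, nat_lit 0, nat_lit 122, nat_lit 453400, nat_lit 0, nat_lit 0, [(nat_lit 16, [(nat_lit 5, nat_lit 911), (nat_lit 6, nat_lit 89)])],
 ⟨p059_k3, nat_lit 0, nat_lit 0, nat_lit 190, nat_lit 0, nat_lit 0, [nat_lit 2900106401, nat_lit 85118400], [], [nat_lit 16146654213, nat_lit 16749616032, nat_lit 16886133217, nat_lit 17417140809, nat_lit 15958628558, nat_lit 16475391994, nat_lit 16744094569, nat_lit 17207989090], nat_lit 0, nat_lit 0, nat_lit 0, nat_lit 0, nat_lit 0, nat_lit 0, [], [nat_lit 82, nat_lit 40, nat_lit 40, nat_lit 80, nat_lit 63, nat_lit 317, nat_lit 100, nat_lit 9]⟩, C1.Rw.none,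
 ⟨nat_lit 4743, nat_lit 5000, ⟨.ofNat (nat_lit 271427), .ofNat (nat_lit 471424), .ofNat (nat_lit 314281), .ofNat (nat_lit 514275), .ofNat (nat_lit 278116), .ofNat (nat_lit 473272), .ofNat (nat_lit 321088), .ofNat (nat_lit 516242)⟩, ⟨.negSucc (nat_lit 7143), .ofNat (nat_lit 278570), .ofNat (nat_lit 0), .ofNat (nat_lit 299999), .ofNat (nat_lit 0), .ofNat (nat_lit 279882), .ofNat (nat_lit 0), .ofNat (nat_lit 301370)⟩⟩, [⟨nat_lit 0, nat_lit 100, nat_lit 91, nat_lit 91, nat_lit 43343151⟩]⟩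
noncomputable def p059_l5 : Lf2 := ⟨nat_lit 0, nat_lit 20, [nat_lit 5, nat_lit 5, nat_lit 5, nat_lit 20], true, nat_lit 0, nat_lit 160, nat_lit 0, nat_lit 336, ⟨nat_lit 0, nat_lit 0, nat_lit 1000, nat_lit 6, nat_lit 162, nat_lit 732, nat_lit 58, nat_lit 1000, nat_lit 32267, nat_lit 259, nat_lit 19267, nat_lit 249, nat_lit 57509077, nat_lit 0, nat_lit 0, nat_lit 2039785, false, false⟩,
 nat_lit 0, nat_lit 0, nat_lit 0, nat_lit 8300, nat_lit 3067, nat_lit 0, nat_lit 113, nat_lit 0, nat_lit 0, nat_lit 0, nat_lit 0, nat_lit 0, nat_lit 0, nat_lit 0, nat_lit 109, nat_lit 400000, nat_lit 0, nat_lit 0, [(nat_lit 16, [(nat_lit 5, nat_lit 1000)])],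
 ⟨p059_k4, nat_lit 0, nat_lit 0, nat_lit 216, nat_lit 0, nat_lit 0, [nat_lit 2630400000, nat_lit 1212800000, nat_lit 149600000], [], [nat_lit 16048255678, nat_lit 16637441150, nat_lit 16824512447, nat_lit 17347481525, nat_lit 15921315785, nat_lit 16515666743, nat_lit 17212403092, nat_lit 17804421696], nat_lit 0, nat_lit 0, nat_lit 0, nat_lit 0, nat_lit 0, nat_lit 0, [], [nat_lit 8, nat_lit 40, nat_lit 40, nat_lit 80, nat_lit 1, nat_lit 317, nat_lit 100, nat_lit 9]⟩, C1.Rw.none,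
 ⟨nat_lit 4472, nat_lit 4744, ⟨.ofNat (nat_lit 292052), .ofNat (nat_lit 473270), .ofNat (nat_lit 335021), .ofNat (nat_lit 516239), .ofNat (nat_lit 298407), .ofNat (nat_lit 475149), .ofNat (nat_lit 341533), .ofNat (nat_lit 518274)⟩, ⟨.ofNat (nat_lit 0), .ofNat (nat_lit 279882), .ofNat (nat_lit 0), .ofNat (nat_lit 301370), .ofNat (nat_lit 0), .ofNat (nat_lit 281055), .ofNat (nat_lit 0), .ofNat (nat_lit 302621)⟩⟩, [⟨nat_lit 0, nat_lit 100, nat_lit 87, nat_lit 95, nat_lit 33651686⟩]⟩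
noncomputable def p059_l6 : Lf2 := ⟨nat_lit 0, nat_lit 20, [nat_lit 5, nat_lit 5, nat_lit 5, nat_lit 20], false, nat_lit 0, nat_lit 160, nat_lit 0, nat_lit 336, ⟨nat_lit 1000, nat_lit 0, nat_lit 0, nat_lit 0, nat_lit 0, nat_lit 0, nat_lit 0, nat_lit 0, nat_lit 0, nat_lit 0, nat_lit 0, nat_lit 0, nat_lit 0, nat_lit 0, nat_lit 0, nat_lit 0, false, false⟩,
 nat_lit 0, nat_lit 0, nat_lit 0, nat_lit 8389, nat_lit 6343, nat_lit 14126, nat_lit 837, nat_lit 0, nat_lit 0, nat_lit 926, nat_lit 0, nat_lit 0, nat_lit 0, nat_lit 0, nat_lit 0, nat_lit 0, nat_lit 0, nat_lit 0, [],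
 ⟨p059_k5, nat_lit 0, nat_lit 0, nat_lit 221, nat_lit 0, nat_lit 0, [nat_lit 3282000000, nat_lit 7968000001, nat_lit 11872000000], [], [nat_lit 25631832593, nat_lit 28538745569, nat_lit 27908427629, nat_lit 30405653149, nat_lit 21389641633, nat_lit 23851435785, nat_lit 23562517337, nat_lit 26170730909], nat_lit 0, nat_lit 0, nat_lit 0, nat_lit 0, nat_lit 0, nat_lit 0, [], [nat_lit 79, nat_lit 40, nat_lit 40, nat_lit 80, nat_lit 14, nat_lit 428, nat_lit 200, nat_lit 11]⟩, ⟨p059_k6, nat_lit 0, nat_lit 0, nat_lit 264, nat_lit 0, nat_lit 0, [nat_lit 4688000000, nat_lit 9842000000, nat_lit 14058000000], [], [nat_lit 31722556360, nat_lit 34963130240, nat_lit 33840991216, nat_lit 36390796440, nat_lit 26075498312, nat_lit 27768960842, nat_lit 26895188386, nat_lit 29835308514], nat_lit 0, nat_lit 0, nat_lit 0, nat_lit 0, nat_lit 0, nat_lit 0, [], [nat_lit 56, nat_lit 40, nat_lit 40, nat_lit 80, nat_lit 32, nat_lit 456,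 nat_lit 225, nat_lit 11]⟩,
 zbF0, [⟨nat_lit 7, nat_lit 92, nat_lit 100, nat_lit 75, nat_lit 109720208⟩]⟩
noncomputable def p059_l7 : Lf2 := ⟨nat_lit 0, nat_lit 20, [nat_lit 5, nat_lit 5, nat_lit 5, nat_lit 20], true, nat_lit 160, nat_lit 240, nat_lit 0, nat_lit 336, ⟨nat_lit 0, nat_lit 0, nat_lit 1000, nat_lit 6, nat_lit 124, nat_lit 1000, nat_lit 140, nat_lit 1000, nat_lit 183750, nat_lit 320, nat_lit 144150, nat_lit 308, nat_lit 52998034, nat_lit 0, nat_lit 0, nat_lit 3502739, false, false⟩,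
 nat_lit 0, nat_lit 0, nat_lit 0, nat_lit 5238, nat_lit 11765, nat_lit 0, nat_lit 0, nat_lit 0, nat_lit 0, nat_lit 0, nat_lit 0, nat_lit 0, nat_lit 0, nat_lit 0, nat_lit 65, nat_lit 241750, nat_lit 0, nat_lit 0, [(nat_lit 13, [(nat_lit 3, nat_lit 165), (nat_lit 4, nat_lit 835)]), (nat_lit 16, [(nat_lit 3, nat_lit 165), (nat_lit 4, nat_lit 835)])],
 ⟨p059_k7, nat_lit 0, nat_lit 0, nat_lit 169, nat_lit 0, nat_lit 0, [nat_lit 9758904000, nat_lit 679192000], [], [nat_lit 17731625911, nat_lit 21957337103, nat_lit 14374690460, nat_lit 18266856620, nat_lit 20232708787, nat_lit 26622721356, nat_lit 16672912680, nat_lit 22371363860], nat_lit 0, nat_lit 0, nat_lit 0, nat_lit 0, nat_lit 0, nat_lit 0, [], [nat_lit 135, nat_lit 40, nat_lit 40, nat_lit 80, nat_lit 134, nat_lit 401, nat_lit 175, nat_lit 10]⟩, C1.Rw.none,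
 ⟨nat_lit 4472, nat_lit 5478, ⟨.ofNat (nat_lit 235487), .ofNat (nat_lit 317898), .ofNat (nat_lit 278138), .ofNat (nat_lit 360546), .ofNat (nat_lit 264421), .ofNat (nat_lit 339182), .ofNat (nat_lit 307491), .ofNat (nat_lit 382248)⟩, ⟨.ofNat (nat_lit 254209), .ofNat (nat_lit 404075), .ofNat (nat_lit 296923), .ofNat (nat_lit 446789), .ofNat (nat_lit 259489), .ofNat (nat_lit 395445), .ofNat (nat_lit 302621), .ofNat (nat_lit 438578)⟩⟩, [⟨nat_lit 0, nat_lit 100, nat_lit 91, nat_lit 77, nat_lit 598420937⟩, ⟨nat_lit 4, nat_lit 100, nat_lit 90, nat_lit 74, nat_lit 127499363⟩]⟩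
noncomputable def p059_l8 : Lf2 := ⟨nat_lit 0, nat_lit 20, [nat_lit 5, nat_lit 5, nat_lit 5, nat_lit 20], true, nat_lit 160, nat_lit 240, nat_lit 0, nat_lit 336, ⟨nat_lit 0, nat_lit 0, nat_lit 1000, nat_lit 6, nat_lit 154, nat_lit 1000, nat_lit 140, nat_lit 1000, nat_lit 183750, nat_lit 320, nat_lit 224267, nat_lit 331, nat_lit 50582912, nat_lit 0, nat_lit 0, nat_lit 3883193, false, false⟩,
 nat_lit 0, nat_lit 0, nat_lit 0, nat_lit 4993, nat_lit 4663, nat_lit 0, nat_lit 0, nat_lit 0, nat_lit 0, nat_lit 0, nat_lit 0, nat_lit 0, nat_lit 0, nat_lit 0, nat_lit 0, nat_lit 250000, nat_lit 0, nat_lit 0, [(nat_lit 13, [(nat_lit 0, nat_lit 1000)]), (nat_lit 16, [(nat_lit 0, nat_lit 1000)])],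
 ⟨p059_k7, nat_lit 0, nat_lit 0, nat_lit 28, nat_lit 0, nat_lit 0, [nat_lit 2380933334, nat_lit 3797885714], [], [nat_lit 11762722842, nat_lit 15592241672, nat_lit 12123410230, nat_lit 15614596364, nat_lit 15546321282, nat_lit 18999874012, nat_lit 15737290326, nat_lit 18903444040], nat_lit 0, nat_lit 0, nat_lit 0, nat_lit 0, nat_lit 0, nat_lit 0, [], [nat_lit 135, nat_lit 40, nat_lit 40, nat_lit 80, nat_lit 134, nat_lit 401, nat_lit 175, nat_lit 10]⟩, C1.Rw.none,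
 ⟨nat_lit 4472, nat_lit 5478, ⟨.ofNat (nat_lit 317898), .ofNat (nat_lit 392815), .ofNat (nat_lit 360546), .ofNat (nat_lit 435455), .ofNat (nat_lit 339182), .ofNat (nat_lit 407143), .ofNat (nat_lit 382248), .ofNat (nat_lit 450202)⟩, ⟨.ofNat (nat_lit 254209), .ofNat (nat_lit 404075), .ofNat (nat_lit 296923), .ofNat (nat_lit 446789), .ofNat (nat_lit 259489), .ofNat (nat_lit 395445), .ofNat (nat_lit 302621), .ofNat (nat_lit 438578)⟩⟩, [⟨nat_lit 0, nat_lit 100, nat_lit 87, nat_lit 95, nat_lit 105601772⟩, ⟨nat_lit 4, nat_lit 100, nat_lit 90, nat_lit 74, nat_lit 130971103⟩]⟩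
noncomputable def p059_l9 : Lf2 := ⟨nat_lit 0, nat_lit 15, [nat_lit 30, nat_lit 5, nat_lit 5, nat_lit 20], true, nat_lit 240, nat_lit 276, nat_lit 0, nat_lit 312, ⟨nat_lit 0, nat_lit 1000, nat_lit 0, nat_lit 6, nat_lit 122, nat_lit 1000, nat_lit 178, nat_lit 0, nat_lit 0, nat_lit 0, nat_lit 0, nat_lit 0, nat_lit 49865431, nat_lit 6098808, nat_lit 11035761, nat_lit 3923985, false, false⟩,
 nat_lit 0, nat_lit 0, nat_lit 0, nat_lit 8937, nat_lit 4421, nat_lit 0, nat_lit 0, nat_lit 0, nat_lit 0, nat_lit 0, nat_lit 0, nat_lit 0, nat_lit 0, nat_lit 0, nat_lit 0, nat_lit 250000, nat_lit 0, nat_lit 0, [(nat_lit 13, [(nat_lit 0, nat_lit 1000)])],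
 ⟨p059_k0, nat_lit 0, nat_lit 0, nat_lit 80, nat_lit 0, nat_lit 0, [nat_lit 2378400000, nat_lit 2909733334, nat_lit 3539066666], [], [nat_lit 16511446455, nat_lit 18249760917, nat_lit 15770736516, nat_lit 17279938260, nat_lit 19162438872, nat_lit 20740718373, nat_lit 18098186090, nat_lit 19622522991], nat_lit 0, nat_lit 0, nat_lit 0, nat_lit 0, nat_lit 0, nat_lit 0, [], [nat_lit 8, nat_lit 40, nat_lit 40, nat_lit 80, nat_lit 1, nat_lit 317, nat_lit 100, nat_lit 9]⟩, C1.Rw.none,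
 ⟨nat_lit 5000, nat_lit 5478, ⟨.ofNat (nat_lit 235487), .ofNat (nat_lit 317913), .ofNat (nat_lit 278201), .ofNat (nat_lit 360625), .ofNat (nat_lit 249999), .ofNat (nat_lit 328570), .ofNat (nat_lit 292856), .ofNat (nat_lit 371424)⟩, ⟨.ofNat (nat_lit 404075), .ofNat (nat_lit 471515), .ofNat (nat_lit 425432), .ofNat (nat_lit 492872), .ofNat (nat_lit 399998), .ofNat (nat_lit 464284), .ofNat (nat_lit 421427), .ofNat (nat_lit 485713)⟩⟩, [⟨nat_lit 0, nat_lit 100, nat_lit 94, nat_lit 73, nat_lit 238601103⟩, ⟨nat_lit 16, nat_lit 99, nat_lit 100, nat_lit 77, nat_lit 353847181⟩]⟩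
noncomputable def p059_l10 : Lf2 := ⟨nat_lit 0, nat_lit 15, [nat_lit 30, nat_lit 5, nat_lit 5, nat_lit 20], true, nat_lit 240, nat_lit 256, nat_lit 0, nat_lit 312, ⟨nat_lit 0, nat_lit 0, nat_lit 1000, nat_lit 6, nat_lit 131, nat_lit 1000, nat_lit 169, nat_lit 1000, nat_lit 268817, nat_lit 342, nat_lit 160067, nat_lit 313, nat_lit 50016146, nat_lit 0, nat_lit 0, nat_lit 3939969, false, false⟩,
 nat_lit 0, nat_lit 0, nat_lit 0, nat_lit 4341, nat_lit 4355, nat_lit 0, nat_lit 0, nat_lit 0, nat_lit 0, nat_lit 0, nat_lit 0, nat_lit 0, nat_lit 0, nat_lit 0, nat_lit 0, nat_lit 250000, nat_lit 0, nat_lit 0, [(nat_lit 16, [(nat_lit 0, nat_lit 1000)])],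
 ⟨p059_k8, nat_lit 0, nat_lit 0, nat_lit 73, nat_lit 0, nat_lit 0, [nat_lit 2335200000, nat_lit 2745733334, nat_lit 3400666666], [], [nat_lit 17820835856, nat_lit 19530804028, nat_lit 17286696300, nat_lit 18853659020, nat_lit 18912360937, nat_lit 20552920721, nat_lit 18256311148, nat_lit 19852276084], nat_lit 0, nat_lit 0, nat_lit 0, nat_lit 0, nat_lit 0, nat_lit 0, [], [nat_lit 8, nat_lit 40, nat_lit 40, nat_lit 80, nat_lit 1, nat_lit 317, nat_lit 100, nat_lit 8]⟩, C1.Rw.none,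
 ⟨nat_lit 4472, nat_lit 5000, ⟨.ofNat (nat_lit 271418), .ofNat (nat_lit 328559), .ofNat (nat_lit 314253), .ofNat (nat_lit 371392), .ofNat (nat_lit 284805), .ofNat (nat_lit 339186), .ofNat (nat_lit 327916), .ofNat (nat_lit 382295)⟩, ⟨.ofNat (nat_lit 399998), .ofNat (nat_lit 428570), .ofNat (nat_lit 421427), .ofNat (nat_lit 449999), .ofNat (nat_lit 395445), .ofNat (nat_lit 422636), .ofNat (nat_lit 417011), .ofNat (nat_lit 444203)⟩⟩, [⟨nat_lit 0, nat_lit 100, nat_lit 88, nat_lit 81, nat_lit 565603339⟩, ⟨nat_lit 16, nat_lit 90, nat_lit 100, nat_lit 74, nat_lit 410867959⟩]⟩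
noncomputable def p059_l11 : Lf2 := ⟨nat_lit 0, nat_lit 15, [nat_lit 30, nat_lit 5, nat_lit 5, nat_lit 20], true, nat_lit 240, nat_lit 280, nat_lit 0, nat_lit 336, ⟨nat_lit 0, nat_lit 1000, nat_lit 0, nat_lit 6, nat_lit 122, nat_lit 1000, nat_lit 188, nat_lit 0, nat_lit 0, nat_lit 0, nat_lit 0, nat_lit 0, nat_lit 48969923, nat_lit 6065213, nat_lit 11964864, nat_lit 4026259, false, false⟩,
 nat_lit 0, nat_lit 0, nat_lit 0, nat_lit 11126, nat_lit 4373, nat_lit 0, nat_lit 0, nat_lit 0, nat_lit 0, nat_lit 0, nat_lit 0, nat_lit 0, nat_lit 0, nat_lit 0, nat_lit 0, nat_lit 250000, nat_lit 0, nat_lit 0, [(nat_lit 13, [(nat_lit 0, nat_lit 1000)])],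
 ⟨p059_k0, nat_lit 0, nat_lit 0, nat_lit 82, nat_lit 0, nat_lit 0, [nat_lit 2378400000, nat_lit 2909733334, nat_lit 3539066666], [], [nat_lit 16488878468, nat_lit 18216795074, nat_lit 15815751108, nat_lit 17316271380, nat_lit 19418252593, nat_lit 20969848491, nat_lit 18388200974, nat_lit 19863842028], nat_lit 0, nat_lit 0, nat_lit 0, nat_lit 0, nat_lit 0, nat_lit 0, [], [nat_lit 8, nat_lit 40, nat_lit 40, nat_lit 80, nat_lit 1, nat_lit 317, nat_lit 100, nat_lit 9]⟩, C1.Rw.none,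
 ⟨nat_lit 5000, nat_lit 5478, ⟨.ofNat (nat_lit 235487), .ofNat (nat_lit 317913), .ofNat (nat_lit 278201), .ofNat (nat_lit 360625), .ofNat (nat_lit 249999), .ofNat (nat_lit 328570), .ofNat (nat_lit 292856), .ofNat (nat_lit 371424)⟩, ⟨.ofNat (nat_lit 425432), .ofNat (nat_lit 500365), .ofNat (nat_lit 446789), .ofNat (nat_lit 521722), .ofNat (nat_lit 421427), .ofNat (nat_lit 492856), .ofNat (nat_lit 442856), .ofNat (nat_lit 514284)⟩⟩, [⟨nat_lit 0, nat_lit 100, nat_lit 94, nat_lit 73, nat_lit 233740322⟩, ⟨nat_lit 4, nat_lit 100, nat_lit 97, nat_lit 82, nat_lit 329047252⟩]⟩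
noncomputable def p059_l12 : Lf2 := ⟨nat_lit 0, nat_lit 15, [nat_lit 30, nat_lit 5, nat_lit 5, nat_lit 20], true, nat_lit 240, nat_lit 280, nat_lit 0, nat_lit 336, ⟨nat_lit 0, nat_lit 1000, nat_lit 0, nat_lit 6, nat_lit 131, nat_lit 1000, nat_lit 186, nat_lit 0, nat_lit 0, nat_lit 0, nat_lit 0, nat_lit 0, nat_lit 48539842, nat_lit 6768212, nat_lit 11691946, nat_lit 4116209, false, false⟩,
 nat_lit 0, nat_lit 0, nat_lit 0, nat_lit 10060, nat_lit 4220, nat_lit 0, nat_lit 0, nat_lit 0, nat_lit 0, nat_lit 0, nat_lit 0, nat_lit 0, nat_lit 0, nat_lit 0, nat_lit 0, nat_lit 250000, nat_lit 0, nat_lit 0, [(nat_lit 16, [(nat_lit 0, nat_lit 1000)])],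
 ⟨p059_k8, nat_lit 0, nat_lit 0, nat_lit 84, nat_lit 0, nat_lit 0, [nat_lit 2335200000, nat_lit 2745733334, nat_lit 3400666666], [], [nat_lit 17776096576, nat_lit 19427294992, nat_lit 17388883200, nat_lit 18861731280, nat_lit 20434157784, nat_lit 21945799441, nat_lit 19778070880, nat_lit 21250461520], nat_lit 0, nat_lit 0, nat_lit 0, nat_lit 0, nat_lit 0, nat_lit 0, [], [nat_lit 8, nat_lit 40, nat_lit 40, nat_lit 80, nat_lit 1, nat_lit 317, nat_lit 100, nat_lit 8]⟩, C1.Rw.none,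
 ⟨nat_lit 4472, nat_lit 5000, ⟨.ofNat (nat_lit 271418), .ofNat (nat_lit 328559), .ofNat (nat_lit 314253), .ofNat (nat_lit 371392), .ofNat (nat_lit 284805), .ofNat (nat_lit 339186), .ofNat (nat_lit 327916), .ofNat (nat_lit 382295)⟩, ⟨.ofNat (nat_lit 421427), .ofNat (nat_lit 492856), .ofNat (nat_lit 442856), .ofNat (nat_lit 514284), .ofNat (nat_lit 417011), .ofNat (nat_lit 484989), .ofNat (nat_lit 438578), .ofNat (nat_lit 506556)⟩⟩, [⟨nat_lit 0, nat_lit 100, nat_lit 88, nat_lit 81, nat_lit 830242702⟩, ⟨nat_lit 16, nat_lit 94, nat_lit 100, nat_lit 87, nat_lit 311487016⟩]⟩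
noncomputable def p059_l13 : Lf2 := ⟨nat_lit 0, nat_lit 20, [nat_lit 5, nat_lit 5, nat_lit 5, nat_lit 20], true, nat_lit 240, nat_lit 280, nat_lit 0, nat_lit 336, ⟨nat_lit 0, nat_lit 0, nat_lit 1000, nat_lit 6, nat_lit 124, nat_lit 1000, nat_lit 187, nat_lit 1000, nat_lit 17404, nat_lit 247, nat_lit 144150, nat_lit 308, nat_lit 48906020, nat_lit 0, nat_lit 0, nat_lit 4045539, false, false⟩,
 nat_lit 0, nat_lit 0, nat_lit 0, nat_lit 100000, nat_lit 8439, nat_lit 0, nat_lit 0, nat_lit 0, nat_lit 0, nat_lit 0, nat_lit 0, nat_lit 0, nat_lit 0, nat_lit 0, nat_lit 66, nat_lit 245550, nat_lit 0, nat_lit 0, [(nat_lit 13, [(nat_lit 3, nat_lit 89), (nat_lit 4, nat_lit 911)]), (nat_lit 16, [(nat_lit 3, nat_lit 89), (nat_lit 4, nat_lit 911)])],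
 ⟨p059_k7, nat_lit 0, nat_lit 0, nat_lit 174, nat_lit 0, nat_lit 0, [nat_lit 6766046400, nat_lit 680427200], [], [nat_lit 20430665024, nat_lit 23617978366, nat_lit 18088201748, nat_lit 20792854292, nat_lit 22728568920, nat_lit 27311266390, nat_lit 20280531842, nat_lit 24367526224], nat_lit 0, nat_lit 0, nat_lit 0, nat_lit 0, nat_lit 0, nat_lit 0, [], [nat_lit 135, nat_lit 40, nat_lit 40, nat_lit 80, nat_lit 134, nat_lit 401, nat_lit 175, nat_lit 10]⟩, C1.Rw.none,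
 ⟨nat_lit 4472, nat_lit 5478, ⟨.ofNat (nat_lit 235487), .ofNat (nat_lit 317898), .ofNat (nat_lit 278138), .ofNat (nat_lit 360546), .ofNat (nat_lit 264421), .ofNat (nat_lit 339182), .ofNat (nat_lit 307491), .ofNat (nat_lit 382248)⟩, ⟨.ofNat (nat_lit 425432), .ofNat (nat_lit 500365), .ofNat (nat_lit 446789), .ofNat (nat_lit 521722), .ofNat (nat_lit 417011), .ofNat (nat_lit 484989), .ofNat (nat_lit 438578), .ofNat (nat_lit 506556)⟩⟩, [⟨nat_lit 0, nat_lit 100, nat_lit 91, nat_lit 77, nat_lit 4499210450⟩, ⟨nat_lit 4, nat_lit 100, nat_lit 92, nat_lit 81, nat_lit 1017181722⟩]⟩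
noncomputable def p059_l14 : Lf2 := ⟨nat_lit 0, nat_lit 20, [nat_lit 5, nat_lit 5, nat_lit 5, nat_lit 20], true, nat_lit 240, nat_lit 280, nat_lit 0, nat_lit 336, ⟨nat_lit 0, nat_lit 1000, nat_lit 0, nat_lit 6, nat_lit 154, nat_lit 1000, nat_lit 183, nat_lit 0, nat_lit 0, nat_lit 0, nat_lit 0, nat_lit 0, nat_lit 47129314, nat_lit 8622516, nat_lit 11248170, nat_lit 4350348, false, false⟩,
 nat_lit 0, nat_lit 0, nat_lit 0, nat_lit 8551, nat_lit 4317, nat_lit 0, nat_lit 0, nat_lit 0, nat_lit 0, nat_lit 0, nat_lit 0, nat_lit 0, nat_lit 0, nat_lit 0, nat_lit 0, nat_lit 250000, nat_lit 0, nat_lit 0, [(nat_lit 13, [(nat_lit 0, nat_lit 1000)]), (nat_lit 16, [(nat_lit 0, nat_lit 1000)])],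
 ⟨p059_k7, nat_lit 0, nat_lit 0, nat_lit 41, nat_lit 0, nat_lit 0, [nat_lit 2380933334, nat_lit 3797885714], [], [nat_lit 15870801466, nat_lit 18851585242, nat_lit 16114712662, nat_lit 18950968842, nat_lit 18427378580, nat_lit 21322126672, nat_lit 18551173262, nat_lit 21191371302], nat_lit 0, nat_lit 0, nat_lit 0, nat_lit 0, nat_lit 0, nat_lit 0, [], [nat_lit 135, nat_lit 40, nat_lit 40, nat_lit 80, nat_lit 134, nat_lit 428, nat_lit 200, nat_lit 10]⟩, C1.Rw.none,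
 ⟨nat_lit 4472, nat_lit 5478, ⟨.ofNat (nat_lit 317898), .ofNat (nat_lit 392815), .ofNat (nat_lit 360546), .ofNat (nat_lit 435455), .ofNat (nat_lit 339182), .ofNat (nat_lit 407143), .ofNat (nat_lit 382248), .ofNat (nat_lit 450202)⟩, ⟨.ofNat (nat_lit 404075), .ofNat (nat_lit 479008), .ofNat (nat_lit 446789), .ofNat (nat_lit 521722), .ofNat (nat_lit 395445), .ofNat (nat_lit 463423), .ofNat (nat_lit 438578), .ofNat (nat_lit 506556)⟩⟩, [⟨nat_lit 0, nat_lit 100, nat_lit 91, nat_lit 77, nat_lit 74125223⟩, ⟨nat_lit 16, nat_lit 100, nat_lit 95, nat_lit 87, nat_lit 317575816⟩]⟩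
noncomputable def p059_l15 : Lf2 := ⟨nat_lit 0, nat_lit 20, [nat_lit 5, nat_lit 5, nat_lit 5, nat_lit 20], true, nat_lit 280, nat_lit 300, nat_lit 0, nat_lit 336, ⟨nat_lit 0, nat_lit 0, nat_lit 1000, nat_lit 6, nat_lit 139, nat_lit 1000, nat_lit 204, nat_lit 1000, nat_lit 3701, nat_lit 228, nat_lit 180267, nat_lit 319, nat_lit 46424093, nat_lit 0, nat_lit 0, nat_lit 4369706, false, false⟩,
 nat_lit 0, nat_lit 0, nat_lit 0, nat_lit 100000, nat_lit 3735, nat_lit 0, nat_lit 0, nat_lit 0, nat_lit 0, nat_lit 0, nat_lit 0, nat_lit 0, nat_lit 0, nat_lit 0, nat_lit 128, nat_lit 541600, nat_lit 0, nat_lit 0, [(nat_lit 13, [(nat_lit 5, nat_lit 764), (nat_lit 6, nat_lit 236)]), (nat_lit 16, [(nat_lit 5, nat_lit 764), (nat_lit 6, nat_lit 236)])],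
 ⟨p059_k7, nat_lit 0, nat_lit 0, nat_lit 177, nat_lit 0, nat_lit 0, [nat_lit 3131499201, nat_lit 267889600], [], [nat_lit 20004179454, nat_lit 21769868777, nat_lit 19263729920, nat_lit 20894080852, nat_lit 20827464074, nat_lit 22970635244, nat_lit 20028587760, nat_lit 22011176215], nat_lit 0, nat_lit 0, nat_lit 0, nat_lit 0, nat_lit 0, nat_lit 0, [], [nat_lit 135, nat_lit 40, nat_lit 40, nat_lit 80, nat_lit 134, nat_lit 428, nat_lit 200, nat_lit 10]⟩, C1.Rw.none,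
 ⟨nat_lit 4472, nat_lit 5478, ⟨.ofNat (nat_lit 235487), .ofNat (nat_lit 392815), .ofNat (nat_lit 278138), .ofNat (nat_lit 435455), .ofNat (nat_lit 264421), .ofNat (nat_lit 407143), .ofNat (nat_lit 307491), .ofNat (nat_lit 450202)⟩, ⟨.ofNat (nat_lit 479008), .ofNat (nat_lit 516475), .ofNat (nat_lit 521722), .ofNat (nat_lit 559189), .ofNat (nat_lit 463423), .ofNat (nat_lit 497412), .ofNat (nat_lit 506556), .ofNat (nat_lit 540545)⟩⟩, [⟨nat_lit 0, nat_lit 100, nat_lit 91, nat_lit 77, nat_lit 173750122⟩, ⟨nat_lit 16, nat_lit 100, nat_lit 95, nat_lit 87, nat_lit 4897300494⟩]⟩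
noncomputable def p059_l16 : Lf2 := ⟨nat_lit 0, nat_lit 20, [nat_lit 5, nat_lit 5, nat_lit 5, nat_lit 20], true, nat_lit 160, nat_lit 300, nat_lit 0, nat_lit 336, ⟨nat_lit 0, nat_lit 1000, nat_lit 0, nat_lit 6, nat_lit 211, nat_lit 1000, nat_lit 161, nat_lit 0, nat_lit 0, nat_lit 0, nat_lit 0, nat_lit 0, nat_lit 44276551, nat_lit 13750815, nat_lit 8972634, nat_lit 4663669, false, false⟩,
 nat_lit 0, nat_lit 0, nat_lit 0, nat_lit 5673, nat_lit 4294, nat_lit 0, nat_lit 0, nat_lit 0, nat_lit 0, nat_lit 0, nat_lit 0, nat_lit 0, nat_lit 0, nat_lit 0, nat_lit 0, nat_lit 250000, nat_lit 0, nat_lit 0, [(nat_lit 13, [(nat_lit 0, nat_lit 1000)]), (nat_lit 16, [(nat_lit 0, nat_lit 1000)])],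
 ⟨p059_k7, nat_lit 0, nat_lit 0, nat_lit 36, nat_lit 0, nat_lit 0, [nat_lit 2380933334, nat_lit 3797885714], [], [nat_lit 12622522582, nat_lit 15942875718, nat_lit 16914116310, nat_lit 19576374774, nat_lit 19785391230, nat_lit 22366571086, nat_lit 22626057152, nat_lit 24798444750], nat_lit 0, nat_lit 0, nat_lit 0, nat_lit 0, nat_lit 0, nat_lit 0, [], [nat_lit 135, nat_lit 40, nat_lit 40, nat_lit 80, nat_lit 134, nat_lit 456, nat_lit 225, nat_lit 11]⟩, C1.Rw.none,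
 ⟨nat_lit 4472, nat_lit 5478, ⟨.ofNat (nat_lit 392815), .ofNat (nat_lit 617523), .ofNat (nat_lit 435455), .ofNat (nat_lit 660148), .ofNat (nat_lit 407143), .ofNat (nat_lit 610987), .ofNat (nat_lit 450202), .ofNat (nat_lit 654031)⟩, ⟨.ofNat (nat_lit 254209), .ofNat (nat_lit 516475), .ofNat (nat_lit 296923), .ofNat (nat_lit 559189), .ofNat (nat_lit 259489), .ofNat (nat_lit 497412), .ofNat (nat_lit 302621), .ofNat (nat_lit 540545)⟩⟩, [⟨nat_lit 16, nat_lit 90, nat_lit 100, nat_lit 74, nat_lit 242304515⟩, ⟨nat_lit 16, nat_lit 100, nat_lit 95, nat_lit 87, nat_lit 8476632⟩]⟩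
noncomputable def p059_l17 : Lf2 := ⟨nat_lit 0, nat_lit 20, [nat_lit 5, nat_lit 5, nat_lit 5, nat_lit 20], false, nat_lit 0, nat_lit 300, nat_lit 0, nat_lit 336, ⟨nat_lit 1000, nat_lit 0, nat_lit 0, nat_lit 0, nat_lit 0, nat_lit 0, nat_lit 0, nat_lit 0, nat_lit 0, nat_lit 0, nat_lit 0, nat_lit 0, nat_lit 0, nat_lit 0, nat_lit 0, nat_lit 0, false, false⟩,
 nat_lit 0, nat_lit 0, nat_lit 0, nat_lit 18316, nat_lit 9442, nat_lit 9621, nat_lit 375, nat_lit 0, nat_lit 0, nat_lit 712, nat_lit 0, nat_lit 0, nat_lit 0, nat_lit 0, nat_lit 0, nat_lit 0, nat_lit 0, nat_lit 0, [],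
 ⟨p059_k5, nat_lit 0, nat_lit 0, nat_lit 251, nat_lit 0, nat_lit 0, [nat_lit 3282000000, nat_lit 7968000001, nat_lit 11872000000], [], [nat_lit 35013160000, nat_lit 36074509040, nat_lit 45393658175, nat_lit 46207670212, nat_lit 29844264948, nat_lit 30424561007, nat_lit 36503654638, nat_lit 37378801997], nat_lit 0, nat_lit 0, nat_lit 0, nat_lit 0, nat_lit 0, nat_lit 0, [], [nat_lit 79, nat_lit 40, nat_lit 40, nat_lit 80, nat_lit 14, nat_lit 483, nat_lit 250, nat_lit 12]⟩, ⟨p059_k6, nat_lit 0, nat_lit 0, nat_lit 293, nat_lit 0, nat_lit 0, [nat_lit 4688000000, nat_lit 9842000000, nat_lit 14058000000], [], [nat_lit 33676573136, nat_lit 35768111740, nat_lit 44927726768, nat_lit 45785941860, nat_lit 30344533196, nat_lit 31221849596, nat_lit 37581689237, nat_lit 38531731800], nat_lit 0, nat_lit 0, nat_lit 0, nat_lit 0, nat_lit 0, nat_lit 0, [], [nat_lit 56, nat_lit 40, nat_lit 40, nat_lit 80, nat_lit 32, nat_lit 538,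 nat_lit 300, nat_lit 12]⟩,
 zbF0, [⟨nat_lit 4, nat_lit 100, nat_lit 94, nat_lit 75, nat_lit 47481278⟩, ⟨nat_lit 7, nat_lit 92, nat_lit 100, nat_lit 75, nat_lit 108540978⟩]⟩
noncomputable def p059_l18 : Lf2 := ⟨nat_lit 0, nat_lit 20, [nat_lit 5, nat_lit 5, nat_lit 5, nat_lit 20], false, nat_lit 0, nat_lit 280, nat_lit 0, nat_lit 336, ⟨nat_lit 1000, nat_lit 0, nat_lit 0, nat_lit 0, nat_lit 0, nat_lit 0, nat_lit 0, nat_lit 0, nat_lit 0, nat_lit 0, nat_lit 0, nat_lit 0, nat_lit 0, nat_lit 0, nat_lit 0, nat_lit 0, false, false⟩,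
 nat_lit 0, nat_lit 0, nat_lit 0, nat_lit 5662, nat_lit 9389, nat_lit 12630, nat_lit 0, nat_lit 0, nat_lit 0, nat_lit 0, nat_lit 0, nat_lit 0, nat_lit 0, nat_lit 0, nat_lit 0, nat_lit 0, nat_lit 0, nat_lit 0, [],
 ⟨p059_k3, nat_lit 0, nat_lit 0, nat_lit 200, nat_lit 0, nat_lit 0, [nat_lit 3282000000, nat_lit 9842000000], [], [nat_lit 33814186066, nat_lit 35571160592, nat_lit 46161878256, nat_lit 47542059084, nat_lit 29449302242, nat_lit 30524541102, nat_lit 37141233915, nat_lit 37702097248], nat_lit 0, nat_lit 0, nat_lit 0, nat_lit 0, nat_lit 0, nat_lit 0, [], [nat_lit 82, nat_lit 40, nat_lit 40, nat_lit 80, nat_lit 63, nat_lit 401, nat_lit 175, nat_lit 11]⟩, ⟨p059_k9, nat_lit 0, nat_lit 0, nat_lit 256, nat_lit 0, nat_lit 0, [nat_lit 4688000000, nat_lit 14058000000], [], [nat_lit 43554034080, nat_lit 45951660200, nat_lit 56871143040, nat_lit 57701831800, nat_lit 36993443056, nat_lit 37860159368, nat_lit 43310899369,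 nat_lit 43289752696], nat_lit 0, nat_lit 0, nat_lit 0, nat_lit 0, nat_lit 0, nat_lit 0, [], [nat_lit 145, nat_lit 40, nat_lit 40, nat_lit 80, nat_lit 144, nat_lit 538, nat_lit 300, nat_lit 12]⟩,
 zbF0, []⟩
noncomputable def b_V_700_600_10_33 : St := ⟨true, nat_lit 0, nat_lit 0, nat_lit 1, nat_lit 80, nat_lit 280, nat_lit 320, nat_lit 240, nat_lit 280, nat_lit 36, nat_lit 400, nat_lit 40, nat_lit 80, nat_lit 0, nat_lit 300, nat_lit 0, nat_lit 336, nat_lit 40, nat_lit 80, nat_lit 0, nat_lit 0, nat_lit 0, nat_lit 0⟩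
theorem d_V_700_600_10_33 (h : EB TB.env) : Dead b_V_700_600_10_33 := chkB_sound0 h (T :=
(.spl (nat_lit 2) (nat_lit 240)
(.spl (nat_lit 4) (nat_lit 160)
(.spl (nat_lit 2) (nat_lit 160)
(.spl (nat_lit 3) (nat_lit 60)
(.trX (nat_lit 19) (nat_lit 100) (nat_lit 85) (nat_lit 73) (nat_lit 312) (.spl (nat_lit 1) (nat_lit 260)
(.leaf p059_l0)
(.trZ (nat_lit 0) (nat_lit 100) (nat_lit 96) (nat_lit 69) (nat_lit 48) (.trX (nat_lit 19) (nat_lit 100) (nat_lit 92) (nat_lit 75) (nat_lit 296) (.leaf p059_l1)))))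
(.spl (nat_lit 0) (nat_lit 300)
(.spl (nat_lit 6) (nat_lit 56)
(.leaf p059_l2)
(.leaf p059_l3))
(.trZ (nat_lit 0) (nat_lit 100) (nat_lit 88) (nat_lit 68) (nat_lit 48) (.spl (nat_lit 0) (nat_lit 310)
(.leaf p059_l4)
(.trZ (nat_lit 0) (nat_lit 100) (nat_lit 85) (nat_lit 72) (nat_lit 56) (.leaf p059_l5))))))
(.leaf p059_l6))
(.spl (nat_lit 2) (nat_lit 120)
(.spl (nat_lit 4) (nat_lit 240)
(.spl (nat_lit 2) (nat_lit 80)
(.leaf p059_l7)
(.leaf p059_l8))
(.spl (nat_lit 4) (nat_lit 280)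
(.spl (nat_lit 2) (nat_lit 80)
(.spl (nat_lit 3) (nat_lit 60)
(.trX (nat_lit 16) (nat_lit 99) (nat_lit 100) (nat_lit 77) (nat_lit 276) (.trX (nat_lit 19) (nat_lit 100) (nat_lit 85) (nat_lit 73) (nat_lit 312) (.spl (nat_lit 0) (nat_lit 300)
(.leaf p059_l9)
(.trZ (nat_lit 0) (nat_lit 100) (nat_lit 88) (nat_lit 68) (nat_lit 48) (.trX (nat_lit 16) (nat_lit 90) (nat_lit 100) (nat_lit 74) (nat_lit 256) (.leaf p059_l10))))))
(.spl (nat_lit 6) (nat_lit 60)
(.spl (nat_lit 0) (nat_lit 300)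
(.leaf p059_l11)
(.trZ (nat_lit 0) (nat_lit 100) (nat_lit 88) (nat_lit 68) (nat_lit 48) (.leaf p059_l12)))
(.leaf p059_l13)))
(.leaf p059_l14))
(.leaf p059_l15)))
(.leaf p059_l16)))
(.spl (nat_lit 0) (nat_lit 300)
(.leaf p059_l17)
(.trX (nat_lit 16) (nat_lit 94) (nat_lit 100) (nat_lit 87) (nat_lit 280) (.leaf p059_l18))))) (by decide +kernel)
noncomputable def p059_l19 : Lf2 := ⟨nat_lit 0, nat_lit 15, [nat_lit 30, nat_lit 5, nat_lit 5, nat_lit 20], true, nat_lit 0, nat_lit 160, nat_lit 0, nat_lit 312, ⟨nat_lit 0, nat_lit 0, nat_lit 1000, nat_lit 6, nat_lit 124, nat_lit 478, nat_lit 54, nat_lit 1000, nat_lit 22817, nat_lit 252, nat_lit 144150, nat_lit 308, nat_lit 61102407, nat_lit 0, nat_lit 0, nat_lit 1489704, false, false⟩,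
 nat_lit 0, nat_lit 0, nat_lit 0, nat_lit 7244, nat_lit 3457, nat_lit 0, nat_lit 0, nat_lit 0, nat_lit 0, nat_lit 0, nat_lit 0, nat_lit 0, nat_lit 0, nat_lit 0, nat_lit 130, nat_lit 572800, nat_lit 0, nat_lit 0, [(nat_lit 13, [(nat_lit 5, nat_lit 712), (nat_lit 6, nat_lit 288)]), (nat_lit 16, [(nat_lit 5, nat_lit 712), (nat_lit 6, nat_lit 288)])],
 ⟨p059_k0, nat_lit 0, nat_lit 0, nat_lit 284, nat_lit 0, nat_lit 0, [nat_lit 2830368001, nat_lit 1890672001, nat_lit 4240000], [], [nat_lit 14897134664, nat_lit 17950067382, nat_lit 14240352770, nat_lit 16916690116, nat_lit 14325643591, nat_lit 16367900639, nat_lit 14106317718, nat_lit 16012853549], nat_lit 0, nat_lit 0, nat_lit 0, nat_lit 0, nat_lit 0, nat_lit 0, [], [nat_lit 8, nat_lit 40, nat_lit 40, nat_lit 80, nat_lit 1, nat_lit 272, nat_lit 60, nat_lit 8]⟩, C1.Rw.none,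
 ⟨nat_lit 4472, nat_lit 5478, ⟨.ofNat (nat_lit 235487), .ofNat (nat_lit 317898), .ofNat (nat_lit 278138), .ofNat (nat_lit 360546), .ofNat (nat_lit 264421), .ofNat (nat_lit 339182), .ofNat (nat_lit 307491), .ofNat (nat_lit 382248)⟩, ⟨.negSucc (nat_lit 45522), .ofNat (nat_lit 254209), .negSucc (nat_lit 24173), .ofNat (nat_lit 275566), .negSucc (nat_lit 12423), .ofNat (nat_lit 259489), .ofNat (nat_lit 0), .ofNat (nat_lit 281055)⟩⟩, [⟨nat_lit 0, nat_lit 100, nat_lit 91, nat_lit 77, nat_lit 205103414⟩]⟩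
noncomputable def p059_l20 : Lf2 := ⟨nat_lit 0, nat_lit 15, [nat_lit 30, nat_lit 5, nat_lit 5, nat_lit 20], true, nat_lit 0, nat_lit 160, nat_lit 0, nat_lit 312, ⟨nat_lit 0, nat_lit 0, nat_lit 1000, nat_lit 6, nat_lit 169, nat_lit 484, nat_lit 54, nat_lit 1000, nat_lit 22817, nat_lit 252, nat_lit 19267, nat_lit 249, nat_lit 56896450, nat_lit 0, nat_lit 0, nat_lit 2120463, false, false⟩,
 nat_lit 0, nat_lit 0, nat_lit 0, nat_lit 4274, nat_lit 3379, nat_lit 0, nat_lit 0, nat_lit 0, nat_lit 0, nat_lit 0, nat_lit 0, nat_lit 0, nat_lit 0, nat_lit 0, nat_lit 106, nat_lit 460600, nat_lit 0, nat_lit 0, [(nat_lit 13, [(nat_lit 5, nat_lit 899), (nat_lit 6, nat_lit 101)]), (nat_lit 16, [(nat_lit 5, nat_lit 899), (nat_lit 6, nat_lit 101)])],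
 ⟨p059_k0, nat_lit 0, nat_lit 0, nat_lit 200, nat_lit 0, nat_lit 0, [nat_lit 2576152667, nat_lit 1520877334, nat_lit 46580000], [], [nat_lit 14927345331, nat_lit 17575900652, nat_lit 15924562023, nat_lit 18227536004, nat_lit 14813608287, nat_lit 16869713023, nat_lit 15753744767, nat_lit 17614575355], nat_lit 0, nat_lit 0, nat_lit 0, nat_lit 0, nat_lit 0, nat_lit 0, [], [nat_lit 8, nat_lit 40, nat_lit 40, nat_lit 80, nat_lit 1, nat_lit 317, nat_lit 100, nat_lit 9]⟩, C1.Rw.none,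
 ⟨nat_lit 4472, nat_lit 5478, ⟨.ofNat (nat_lit 317898), .ofNat (nat_lit 467727), .ofNat (nat_lit 360546), .ofNat (nat_lit 510352), .ofNat (nat_lit 339182), .ofNat (nat_lit 475101), .ofNat (nat_lit 382248), .ofNat (nat_lit 518145)⟩, ⟨.negSucc (nat_lit 45522), .ofNat (nat_lit 254209), .negSucc (nat_lit 24173), .ofNat (nat_lit 275566), .negSucc (nat_lit 12423), .ofNat (nat_lit 259489), .ofNat (nat_lit 0), .ofNat (nat_lit 281055)⟩⟩, []⟩
noncomputable def p059_l21 : Lf2 := ⟨nat_lit 0, nat_lit 14, [nat_lit 119, nat_lit 5, nat_lit 5, nat_lit 20], true, nat_lit 0, nat_lit 160, nat_lit 0, nat_lit 336, ⟨nat_lit 0, nat_lit 0, nat_lit 1000, nat_lit 6, nat_lit 151, nat_lit 739, nat_lit 58, nat_lit 1000, nat_lit 29400, nat_lit 257, nat_lit 24681, nat_lit 252, nat_lit 58640762, nat_lit 0, nat_lit 0, nat_lit 1881558, false, false⟩,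
 nat_lit 0, nat_lit 0, nat_lit 0, nat_lit 8112, nat_lit 2968, nat_lit 0, nat_lit 0, nat_lit 0, nat_lit 0, nat_lit 0, nat_lit 0, nat_lit 0, nat_lit 0, nat_lit 0, nat_lit 148, nat_lit 648400, nat_lit 0, nat_lit 0, [(nat_lit 13, [(nat_lit 5, nat_lit 586), (nat_lit 6, nat_lit 414)])],
 ⟨p059_k2, nat_lit 0, nat_lit 0, nat_lit 219, nat_lit 0, nat_lit 0, [nat_lit 2981412001, nat_lit 2177431734, nat_lit 26920000], [], [nat_lit 14151228555, nat_lit 15331311586, nat_lit 15011173153, nat_lit 16043957377, nat_lit 14308548712, nat_lit 15367552382, nat_lit 15526106551, nat_lit 16584342754], nat_lit 0, nat_lit 0, nat_lit 0, nat_lit 0, nat_lit 0, nat_lit 0, [], [nat_lit 8, nat_lit 40, nat_lit 40, nat_lit 80, nat_lit 1, nat_lit 317, nat_lit 100, nat_lit 9]⟩, C1.Rw.none,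
 ⟨nat_lit 5000, nat_lit 5478, ⟨.ofNat (nat_lit 235487), .ofNat (nat_lit 467773), .ofNat (nat_lit 278201), .ofNat (nat_lit 510468), .ofNat (nat_lit 249999), .ofNat (nat_lit 471421), .ofNat (nat_lit 292856), .ofNat (nat_lit 514258)⟩, ⟨.negSucc (nat_lit 24165), .ofNat (nat_lit 275566), .negSucc (nat_lit 2832), .ofNat (nat_lit 296923), .negSucc (nat_lit 7143), .ofNat (nat_lit 278570), .ofNat (nat_lit 0), .ofNat (nat_lit 299999)⟩⟩, [⟨nat_lit 0, nat_lit 100, nat_lit 94, nat_lit 88, nat_lit 49327341⟩]⟩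
noncomputable def p059_l22 : Lf2 := ⟨nat_lit 1, nat_lit 20, [nat_lit 5, nat_lit 5, nat_lit 5, nat_lit 20], false, nat_lit 0, nat_lit 160, nat_lit 0, nat_lit 336, zbN0,
 nat_lit 0, nat_lit 0, nat_lit 0, nat_lit 0, nat_lit 0, nat_lit 0, nat_lit 0, nat_lit 0, nat_lit 0, nat_lit 0, nat_lit 0, nat_lit 0, nat_lit 0, nat_lit 0, nat_lit 0, nat_lit 0, nat_lit 0, nat_lit 0, [],
 C1.Rw.none, C1.Rw.none,
 zbF0, []⟩
noncomputable def p059_l23 : Lf2 := ⟨nat_lit 0, nat_lit 20, [nat_lit 5, nat_lit 5, nat_lit 5, nat_lit 20], true, nat_lit 0, nat_lit 160, nat_lit 0, nat_lit 336, ⟨nat_lit 0, nat_lit 0, nat_lit 1000, nat_lit 6, nat_lit 158, nat_lit 520, nat_lit 58, nat_lit 1000, nat_lit 30817, nat_lit 258, nat_lit 20417, nat_lit 250, nat_lit 57956605, nat_lit 0, nat_lit 0, nat_lit 1978686, false, false⟩,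
 nat_lit 0, nat_lit 0, nat_lit 0, nat_lit 7711, nat_lit 3188, nat_lit 0, nat_lit 0, nat_lit 0, nat_lit 0, nat_lit 0, nat_lit 0, nat_lit 0, nat_lit 0, nat_lit 0, nat_lit 122, nat_lit 453400, nat_lit 0, nat_lit 0, [(nat_lit 16, [(nat_lit 5, nat_lit 911), (nat_lit 6, nat_lit 89)])],
 ⟨p059_k3, nat_lit 0, nat_lit 0, nat_lit 190, nat_lit 0, nat_lit 0, [nat_lit 2900106401, nat_lit 85118400], [], [nat_lit 16146654213, nat_lit 16749616032, nat_lit 16886133217, nat_lit 17417140809, nat_lit 15958628558, nat_lit 16475391994, nat_lit 16744094569, nat_lit 17207989090], nat_lit 0, nat_lit 0, nat_lit 0, nat_lit 0, nat_lit 0, nat_lit 0, [], [nat_lit 82, nat_lit 40, nat_lit 40, nat_lit 80, nat_lit 63, nat_lit 317, nat_lit 100, nat_lit 9]⟩, C1.Rw.none,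
 ⟨nat_lit 4743, nat_lit 5000, ⟨.ofNat (nat_lit 271427), .ofNat (nat_lit 471424), .ofNat (nat_lit 314281), .ofNat (nat_lit 514275), .ofNat (nat_lit 278116), .ofNat (nat_lit 473272), .ofNat (nat_lit 321088), .ofNat (nat_lit 516242)⟩, ⟨.negSucc (nat_lit 7143), .ofNat (nat_lit 278570), .ofNat (nat_lit 0), .ofNat (nat_lit 299999), .ofNat (nat_lit 0), .ofNat (nat_lit 279882), .ofNat (nat_lit 0), .ofNat (nat_lit 301370)⟩⟩, [⟨nat_lit 0, nat_lit 100, nat_lit 91, nat_lit 91, nat_lit 43343151⟩]⟩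
noncomputable def p059_l24 : Lf2 := ⟨nat_lit 0, nat_lit 20, [nat_lit 5, nat_lit 5, nat_lit 5, nat_lit 20], true, nat_lit 0, nat_lit 160, nat_lit 0, nat_lit 336, ⟨nat_lit 0, nat_lit 0, nat_lit 1000, nat_lit 6, nat_lit 162, nat_lit 732, nat_lit 58, nat_lit 1000, nat_lit 32267, nat_lit 259, nat_lit 19267, nat_lit 249, nat_lit 57509077, nat_lit 0, nat_lit 0, nat_lit 2039785, false, false⟩,
 nat_lit 0, nat_lit 0, nat_lit 0, nat_lit 8258, nat_lit 3067, nat_lit 0, nat_lit 110, nat_lit 0, nat_lit 0, nat_lit 0, nat_lit 0, nat_lit 0, nat_lit 0, nat_lit 0, nat_lit 109, nat_lit 400000, nat_lit 0, nat_lit 0, [(nat_lit 16, [(nat_lit 5, nat_lit 1000)])],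
 ⟨p059_k10, nat_lit 0, nat_lit 0, nat_lit 235, nat_lit 0, nat_lit 0, [nat_lit 2630400000, nat_lit 504000000, nat_lit 149600000], [], [nat_lit 16043746303, nat_lit 16632931775, nat_lit 16820003072, nat_lit 17345722312, nat_lit 15916806410, nat_lit 16515666743, nat_lit 17212403092, nat_lit 17804421696], nat_lit 0, nat_lit 0, nat_lit 0, nat_lit 0, nat_lit 0, nat_lit 0, [], [nat_lit 99, nat_lit 40, nat_lit 40, nat_lit 80, nat_lit 17, nat_lit 317, nat_lit 100, nat_lit 9]⟩, C1.Rw.none,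
 ⟨nat_lit 4472, nat_lit 4744, ⟨.ofNat (nat_lit 292052), .ofNat (nat_lit 473270), .ofNat (nat_lit 335021), .ofNat (nat_lit 516239), .ofNat (nat_lit 298407), .ofNat (nat_lit 475149), .ofNat (nat_lit 341533), .ofNat (nat_lit 518274)⟩, ⟨.ofNat (nat_lit 0), .ofNat (nat_lit 279882), .ofNat (nat_lit 0), .ofNat (nat_lit 301370), .ofNat (nat_lit 0), .ofNat (nat_lit 281055), .ofNat (nat_lit 0), .ofNat (nat_lit 302621)⟩⟩, [⟨nat_lit 0, nat_lit 100, nat_lit 87, nat_lit 95, nat_lit 33651686⟩]⟩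
noncomputable def p059_l25 : Lf2 := ⟨nat_lit 0, nat_lit 15, [nat_lit 30, nat_lit 5, nat_lit 5, nat_lit 20], false, nat_lit 0, nat_lit 160, nat_lit 0, nat_lit 312, ⟨nat_lit 220, nat_lit 0, nat_lit 780, nat_lit 6, nat_lit 226, nat_lit 278, nat_lit 53, nat_lit 780, nat_lit 20417, nat_lit 250, nat_lit 49446, nat_lit 200, nat_lit 50826279, nat_lit 0, nat_lit 0, nat_lit 2763433, false, false⟩,
 nat_lit 0, nat_lit 0, nat_lit 4308, nat_lit 44, nat_lit 4214, nat_lit 2280, nat_lit 0, nat_lit 0, nat_lit 0, nat_lit 39, nat_lit 0, nat_lit 0, nat_lit 0, nat_lit 0, nat_lit 100, nat_lit 780000, nat_lit 0, nat_lit 0, [(nat_lit 13, [(nat_lit 6, nat_lit 780)])],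
 ⟨p059_k0, nat_lit 0, nat_lit 0, nat_lit 159, nat_lit 0, nat_lit 0, [nat_lit 2812592001, nat_lit 2494432001, nat_lit 7872000], [], [nat_lit 16013568800, nat_lit 16676386466, nat_lit 18606158040, nat_lit 19204231362, nat_lit 14629942601, nat_lit 15142349516, nat_lit 17129710002, nat_lit 17649390470], nat_lit 0, nat_lit 0, nat_lit 0, nat_lit 0, nat_lit 0, nat_lit 0, [], [nat_lit 8, nat_lit 40, nat_lit 40, nat_lit 80, nat_lit 1, nat_lit 317, nat_lit 100, nat_lit 9]⟩, ⟨p059_k11, nat_lit 0, nat_lit 0, nat_lit 398, nat_lit 0, nat_lit 334524, [nat_lit 1031360000, nat_lit 1752960000, nat_lit 2611840000], [], [nat_lit 9937077840, nat_lit 9371107960, nat_lit 9203594840, nat_lit 9477084520, nat_lit 9997095088, nat_lit 7899424864, nat_lit 7667496808, nat_lit 7766124000], nat_lit 1271250, nat_lit 1271250, nat_lit 1271250, nat_lit 1271250, nat_lit 0, nat_lit 2203500, [nat_lit 1100000, nat_lit 1785000, nat_lit 1271250], [nat_lit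 21, nat_lit 40, nat_lit 40, nat_lit 80, nat_lit 14, nat_lit 456, nat_lit 225, nat_lit 12]⟩,
 ⟨nat_lit 5244, nat_lit 5478, ⟨.ofNat (nat_lit 467779), .ofNat (nat_lit 617638), .ofNat (nat_lit 510489), .ofNat (nat_lit 660348), .ofNat (nat_lit 469597), .ofNat (nat_lit 615933), .ofNat (nat_lit 512365), .ofNat (nat_lit 658700)⟩, ⟨.negSucc (nat_lit 45522), .ofNat (nat_lit 254209), .negSucc (nat_lit 24165), .ofNat (nat_lit 275566), .negSucc (nat_lit 36940), .ofNat (nat_lit 255744), .negSucc (nat_lit 15554), .ofNat (nat_lit 277129)⟩⟩, [⟨nat_lit 7, nat_lit 96, nat_lit 100, nat_lit 69, nat_lit 20290952⟩]⟩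
noncomputable def p059_l26 : Lf2 := ⟨nat_lit 0, nat_lit 15, [nat_lit 30, nat_lit 5, nat_lit 5, nat_lit 20], false, nat_lit 0, nat_lit 160, nat_lit 0, nat_lit 312, ⟨nat_lit 196, nat_lit 0, nat_lit 804, nat_lit 6, nat_lit 226, nat_lit 584, nat_lit 53, nat_lit 804, nat_lit 22817, nat_lit 252, nat_lit 46148, nat_lit 200, nat_lit 50821652, nat_lit 0, nat_lit 0, nat_lit 2763829, false, false⟩,
 nat_lit 0, nat_lit 0, nat_lit 3350, nat_lit 0, nat_lit 3795, nat_lit 1773, nat_lit 386, nat_lit 0, nat_lit 0, nat_lit 69, nat_lit 0, nat_lit 0, nat_lit 0, nat_lit 0, nat_lit 9, nat_lit 321600, nat_lit 0, nat_lit 0, [(nat_lit 13, [(nat_lit 5, nat_lit 804)])],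
 ⟨p059_k12, nat_lit 0, nat_lit 0, nat_lit 164, nat_lit 0, nat_lit 0, [nat_lit 1756593600, nat_lit 972555201, nat_lit 142409600], [], [nat_lit 16521223705, nat_lit 17152021810, nat_lit 18986943565, nat_lit 19534438190, nat_lit 15981632346, nat_lit 16555887851, nat_lit 18443458591, nat_lit 18940570881], nat_lit 0, nat_lit 0, nat_lit 0, nat_lit 0, nat_lit 0, nat_lit 0, [], [nat_lit 8, nat_lit 40, nat_lit 40, nat_lit 80, nat_lit 1, nat_lit 317, nat_lit 100, nat_lit 9]⟩, ⟨p059_k11, nat_lit 0, nat_lit 0, nat_lit 496, nat_lit 0, nat_lit 471873, [nat_lit 918848000, nat_lit 1561728000, nat_lit 2326912000], [], [nat_lit 8459466672, nat_lit 8243553244, nat_lit 8113311124, nat_lit 8258223324, nat_lit 8802299769, nat_lit 7171085161, nat_lit 6923301720, nat_lit 6966021752], nat_lit 1271250, nat_lit 1271250, nat_lit 1271250, nat_lit 1271250, nat_lit 0, nat_lit 2203500, [nat_lit 1100000, nat_lit 1785000, nat_lit 1271250], [nat_lit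 21, nat_lit 40, nat_lit 40, nat_lit 80, nat_lit 14, nat_lit 456, nat_lit 225, nat_lit 12]⟩,
 ⟨nat_lit 5000, nat_lit 5245, ⟨.ofNat (nat_lit 469596), .ofNat (nat_lit 615934), .ofNat (nat_lit 512362), .ofNat (nat_lit 658699), .ofNat (nat_lit 471425), .ofNat (nat_lit 614277), .ofNat (nat_lit 514278), .ofNat (nat_lit 657129)⟩, ⟨.negSucc (nat_lit 36940), .ofNat (nat_lit 255744), .negSucc (nat_lit 15554), .ofNat (nat_lit 277129), .negSucc (nat_lit 28572), .ofNat (nat_lit 257141), .negSucc (nat_lit 7143), .ofNat (nat_lit 278570)⟩⟩, [⟨nat_lit 19, nat_lit 100, nat_lit 96, nat_lit 69, nat_lit 22163141⟩]⟩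
noncomputable def p059_l27 : Lf2 := ⟨nat_lit 1, nat_lit 15, [nat_lit 30, nat_lit 5, nat_lit 5, nat_lit 20], false, nat_lit 0, nat_lit 160, nat_lit 0, nat_lit 312, zbN0,
 nat_lit 0, nat_lit 0, nat_lit 0, nat_lit 0, nat_lit 0, nat_lit 0, nat_lit 0, nat_lit 0, nat_lit 0, nat_lit 0, nat_lit 0, nat_lit 0, nat_lit 0, nat_lit 0, nat_lit 0, nat_lit 0, nat_lit 0, nat_lit 0, [],
 C1.Rw.none, C1.Rw.none,
 zbF0, []⟩
noncomputable def p059_l28 : Lf2 := ⟨nat_lit 0, nat_lit 14, [nat_lit 119, nat_lit 5, nat_lit 5, nat_lit 20], false, nat_lit 0, nat_lit 160, nat_lit 0, nat_lit 336, ⟨nat_lit 364, nat_lit 0, nat_lit 636, nat_lit 6, nat_lit 226, nat_lit 475, nat_lit 58, nat_lit 636, nat_lit 29400, nat_lit 257, nat_lit 49368, nat_lit 200, nat_lit 50824447, nat_lit 0, nat_lit 0, nat_lit 2763590, false, false⟩,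
 nat_lit 0, nat_lit 0, nat_lit 4788, nat_lit 3792, nat_lit 4678, nat_lit 2534, nat_lit 350, nat_lit 0, nat_lit 0, nat_lit 0, nat_lit 0, nat_lit 0, nat_lit 0, nat_lit 0, nat_lit 17, nat_lit 636000, nat_lit 0, nat_lit 0, [(nat_lit 13, [(nat_lit 6, nat_lit 636)])],
 ⟨p059_k2, nat_lit 0, nat_lit 0, nat_lit 164, nat_lit 0, nat_lit 0, [nat_lit 2124790401, nat_lit 1896998400, nat_lit 16326400], [], [nat_lit 16136441750, nat_lit 17533131040, nat_lit 19205840376, nat_lit 20644794796, nat_lit 14915516137, nat_lit 16185067021, nat_lit 17562730801, nat_lit 18695714204], nat_lit 0, nat_lit 0, nat_lit 0, nat_lit 0, nat_lit 0, nat_lit 0, [], [nat_lit 8, nat_lit 40, nat_lit 40, nat_lit 80, nat_lit 1, nat_lit 317, nat_lit 100, nat_lit 9]⟩, ⟨p059_k13, nat_lit 0, nat_lit 0, nat_lit 342, nat_lit 0, nat_lit 193235, [nat_lit 1706432000, nat_lit 2900352000, nat_lit 4321408000], [], [nat_lit 14554278928, nat_lit 14401450280, nat_lit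 14382743312, nat_lit 14861754208, nat_lit 16607463040, nat_lit 14294338644, nat_lit 14151263661, nat_lit 14408086023], nat_lit 1271250, nat_lit 1271250, nat_lit 1271250, nat_lit 1271250, nat_lit 0, nat_lit 2373000, [nat_lit 1100000, nat_lit 1785000, nat_lit 1271250], [nat_lit 21, nat_lit 40, nat_lit 40, nat_lit 80, nat_lit 14, nat_lit 456, nat_lit 225, nat_lit 12]⟩,
 ⟨nat_lit 5000, nat_lit 5478, ⟨.ofNat (nat_lit 467773), .ofNat (nat_lit 617614), .ofNat (nat_lit 510468), .ofNat (nat_lit 660309), .ofNat (nat_lit 471421), .ofNat (nat_lit 614253), .ofNat (nat_lit 514258), .ofNat (nat_lit 657090)⟩, ⟨.negSucc (nat_lit 24165), .ofNat (nat_lit 275566), .negSucc (nat_lit 2832), .ofNat (nat_lit 296923), .negSucc (nat_lit 7143), .ofNat (nat_lit 278570), .ofNat (nat_lit 0), .ofNat (nat_lit 299999)⟩⟩, [⟨nat_lit 7, nat_lit 89, nat_lit 100, nat_lit 80, nat_lit 81864650⟩]⟩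
noncomputable def p059_l29 : Lf2 := ⟨nat_lit 1, nat_lit 20, [nat_lit 5, nat_lit 5, nat_lit 5, nat_lit 20], false, nat_lit 0, nat_lit 160, nat_lit 0, nat_lit 336, zbN0,
 nat_lit 0, nat_lit 0, nat_lit 0, nat_lit 0, nat_lit 0, nat_lit 0, nat_lit 0, nat_lit 0, nat_lit 0, nat_lit 0, nat_lit 0, nat_lit 0, nat_lit 0, nat_lit 0, nat_lit 0, nat_lit 0, nat_lit 0, nat_lit 0, [],
 C1.Rw.none, C1.Rw.none,
 zbF0, []⟩
noncomputable def p059_l30 : Lf2 := ⟨nat_lit 0, nat_lit 20, [nat_lit 5, nat_lit 5, nat_lit 5, nat_lit 20], false, nat_lit 0, nat_lit 160, nat_lit 0, nat_lit 336, ⟨nat_lit 103, nat_lit 0, nat_lit 897, nat_lit 6, nat_lit 221, nat_lit 809, nat_lit 56, nat_lit 897, nat_lit 26667, nat_lit 255, nat_lit 6451, nat_lit 201, nat_lit 51278234, nat_lit 0, nat_lit 0, nat_lit 2724189, false, false⟩,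
 nat_lit 0, nat_lit 0, nat_lit 1745, nat_lit 3282, nat_lit 3262, nat_lit 923, nat_lit 0, nat_lit 0, nat_lit 0, nat_lit 29, nat_lit 0, nat_lit 0, nat_lit 0, nat_lit 0, nat_lit 105, nat_lit 524400, nat_lit 0, nat_lit 0, [(nat_lit 16, [(nat_lit 5, nat_lit 621), (nat_lit 6, nat_lit 276)])],
 ⟨p059_k14, nat_lit 0, nat_lit 0, nat_lit 173, nat_lit 0, nat_lit 0, [nat_lit 2691502800, nat_lit 1505448401, nat_lit 21498800], [], [nat_lit 17235141584, nat_lit 18306989000, nat_lit 19444327264, nat_lit 20377740288, nat_lit 17021134532, nat_lit 17939453664, nat_lit 19102218748, nat_lit 20157005008], nat_lit 0, nat_lit 0, nat_lit 0, nat_lit 0, nat_lit 0, nat_lit 0, [], [nat_lit 8, nat_lit 40, nat_lit 40, nat_lit 80, nat_lit 1, nat_lit 317, nat_lit 100, nat_lit 9]⟩, ⟨p059_k15, nat_lit 0, nat_lit 0, nat_lit 610, nat_lit 0, nat_lit 585964, [nat_lit 482864000, nat_lit 820704000, nat_lit 1447974000], [], [nat_lit 4432233556, nat_lit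 4264054310, nat_lit 4260581200, nat_lit 4304813524, nat_lit 4808443420, nat_lit 4387169976, nat_lit 3750336866, nat_lit 3761343943], nat_lit 1271250, nat_lit 1271250, nat_lit 1271250, nat_lit 1271250, nat_lit 0, nat_lit 2373000, [nat_lit 1100000, nat_lit 1785000, nat_lit 1271250], [nat_lit 37, nat_lit 40, nat_lit 40, nat_lit 80, nat_lit 28, nat_lit 456, nat_lit 225, nat_lit 11]⟩,
 ⟨nat_lit 4472, nat_lit 5000, ⟨.ofNat (nat_lit 471408), .ofNat (nat_lit 614256), .ofNat (nat_lit 492824), .ofNat (nat_lit 635672), .ofNat (nat_lit 475134), .ofNat (nat_lit 611081), .ofNat (nat_lit 496688), .ofNat (nat_lit 632635)⟩, ⟨.negSucc (nat_lit 28572), .ofNat (nat_lit 257141), .ofNat (nat_lit 0), .ofNat (nat_lit 299999), .negSucc (nat_lit 12423), .ofNat (nat_lit 259489), .ofNat (nat_lit 0), .ofNat (nat_lit 302621)⟩⟩, [⟨nat_lit 10, nat_lit 73, nat_lit 100, nat_lit 68, nat_lit 16654655⟩]⟩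
noncomputable def p059_l31 : Lf2 := ⟨nat_lit 0, nat_lit 20, [nat_lit 5, nat_lit 5, nat_lit 5, nat_lit 20], false, nat_lit 0, nat_lit 160, nat_lit 0, nat_lit 320, ⟨nat_lit 206, nat_lit 0, nat_lit 794, nat_lit 6, nat_lit 216, nat_lit 762, nat_lit 56, nat_lit 794, nat_lit 26667, nat_lit 255, nat_lit 839, nat_lit 217, nat_lit 51858550, nat_lit 0, nat_lit 0, nat_lit 2671937, false, false⟩,
 nat_lit 0, nat_lit 0, nat_lit 3352, nat_lit 0, nat_lit 3461, nat_lit 1951, nat_lit 0, nat_lit 0, nat_lit 0, nat_lit 0, nat_lit 0, nat_lit 0, nat_lit 0, nat_lit 0, nat_lit 118, nat_lit 691400, nat_lit 0, nat_lit 0, [(nat_lit 16, [(nat_lit 5, nat_lit 171), (nat_lit 6, nat_lit 623)])],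
 ⟨p059_k14, nat_lit 0, nat_lit 0, nat_lit 172, nat_lit 0, nat_lit 0, [nat_lit 2932749600, nat_lit 2042729601, nat_lit 27575200], [], [nat_lit 16804425352, nat_lit 17902779036, nat_lit 17775549456, nat_lit 18847662936, nat_lit 16396881646, nat_lit 17471111168, nat_lit 17427769314, nat_lit 18595446208], nat_lit 0, nat_lit 0, nat_lit 0, nat_lit 0, nat_lit 0, nat_lit 0, [], [nat_lit 8, nat_lit 40, nat_lit 40, nat_lit 80, nat_lit 1, nat_lit 317, nat_lit 100, nat_lit 9]⟩, ⟨p059_k16, nat_lit 0, nat_lit 0, nat_lit 578, nat_lit 0, nat_lit 686983, [nat_lit 965728000, nat_lit 1641408000, nat_lit 2445632000], [], [nat_lit 7992902474, nat_lit 8109687000, nat_lit 7993579730, nat_lit 8120488708, nat_lit 7085471058, nat_lit 7141979368, nat_lit 8212916960, nat_lit 7329488552], nat_lit 1271250, nat_lit 1271250, nat_lit 1100001, nat_lit 1442500, nat_lit 0, nat_lit 2260000, [nat_lit 1100000, nat_lit 1785000, nat_lit 1271250], [nat_lit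 21, nat_lit 40, nat_lit 40, nat_lit 80, nat_lit 14, nat_lit 428, nat_lit 200, nat_lit 11]⟩,
 ⟨nat_lit 4472, nat_lit 5000, ⟨.ofNat (nat_lit 492824), .ofNat (nat_lit 564248), .ofNat (nat_lit 514240), .ofNat (nat_lit 585664), .ofNat (nat_lit 496688), .ofNat (nat_lit 564662), .ofNat (nat_lit 518242), .ofNat (nat_lit 586216)⟩, ⟨.negSucc (nat_lit 28572), .ofNat (nat_lit 257141), .ofNat (nat_lit 0), .ofNat (nat_lit 299999), .negSucc (nat_lit 12423), .ofNat (nat_lit 259489), .ofNat (nat_lit 0), .ofNat (nat_lit 302621)⟩⟩, [⟨nat_lit 7, nat_lit 97, nat_lit 100, nat_lit 76, nat_lit 30474183⟩]⟩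
noncomputable def p059_l32 : Lf2 := ⟨nat_lit 0, nat_lit 20, [nat_lit 5, nat_lit 5, nat_lit 5, nat_lit 20], false, nat_lit 0, nat_lit 160, nat_lit 0, nat_lit 320, ⟨nat_lit 323, nat_lit 0, nat_lit 677, nat_lit 6, nat_lit 244, nat_lit 677, nat_lit 56, nat_lit 677, nat_lit 26667, nat_lit 255, nat_lit 42926, nat_lit 200, nat_lit 48828230, nat_lit 0, nat_lit 0, nat_lit 2922343, true, false⟩,
 nat_lit 0, nat_lit 0, nat_lit 4566, nat_lit 0, nat_lit 3683, nat_lit 2657, nat_lit 53, nat_lit 0, nat_lit 0, nat_lit 265, nat_lit 0, nat_lit 0, nat_lit 0, nat_lit 0, nat_lit 74, nat_lit 677000, nat_lit 0, nat_lit 0, [(nat_lit 16, [(nat_lit 6, nat_lit 677)])],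
 ⟨p059_k14, nat_lit 0, nat_lit 0, nat_lit 173, nat_lit 0, nat_lit 0, [nat_lit 2615878800, nat_lit 1934609201, nat_lit 26692400], [], [nat_lit 18616193218, nat_lit 19726208474, nat_lit 19919258352, nat_lit 20993030674, nat_lit 17874296186, nat_lit 18901544836, nat_lit 19159618868, nat_lit 20141778360], nat_lit 0, nat_lit 0, nat_lit 0, nat_lit 0, nat_lit 0, nat_lit 0, [], [nat_lit 8, nat_lit 40, nat_lit 40, nat_lit 80, nat_lit 1, nat_lit 317, nat_lit 100, nat_lit 9]⟩, ⟨p059_k16, nat_lit 0, nat_lit 0, nat_lit 566, nat_lit 0, nat_lit 686983, [nat_lit 1514224000, nat_lit 2573664000, nat_lit 3834656000], [], [nat_lit 10314204349, nat_lit 10506483387, nat_lit 10515985393, nat_lit 10685930599, nat_lit 10496738292, nat_lit 9295718803, nat_lit 9244774681, nat_lit 9321605312], nat_lit 1271250, nat_lit 1271250, nat_lit 1271250, nat_lit 1271250, nat_lit 0, nat_lit 2260000, [nat_lit 1100000, nat_lit 1785000, nat_lit 1271250],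 [nat_lit 21, nat_lit 40, nat_lit 40, nat_lit 80, nat_lit 14, nat_lit 456, nat_lit 225, nat_lit 11]⟩,
 ⟨nat_lit 4472, nat_lit 5000, ⟨.ofNat (nat_lit 564248), .ofNat (nat_lit 635672), .ofNat (nat_lit 585664), .ofNat (nat_lit 657088), .ofNat (nat_lit 564662), .ofNat (nat_lit 632635), .ofNat (nat_lit 586216), .ofNat (nat_lit 654189)⟩, ⟨.negSucc (nat_lit 28572), .ofNat (nat_lit 257141), .ofNat (nat_lit 0), .ofNat (nat_lit 299999), .negSucc (nat_lit 12423), .ofNat (nat_lit 259489), .ofNat (nat_lit 0), .ofNat (nat_lit 302621)⟩⟩, [⟨nat_lit 7, nat_lit 97, nat_lit 100, nat_lit 76, nat_lit 53937710⟩]⟩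
noncomputable def p059_l33 : Lf2 := ⟨nat_lit 0, nat_lit 20, [nat_lit 5, nat_lit 5, nat_lit 5, nat_lit 20], true, nat_lit 160, nat_lit 240, nat_lit 0, nat_lit 336, ⟨nat_lit 0, nat_lit 0, nat_lit 1000, nat_lit 6, nat_lit 124, nat_lit 1000, nat_lit 140, nat_lit 1000, nat_lit 183750, nat_lit 320, nat_lit 144150, nat_lit 308, nat_lit 52998034, nat_lit 0, nat_lit 0, nat_lit 3502739, false, false⟩,
 nat_lit 0, nat_lit 0, nat_lit 0, nat_lit 5238, nat_lit 11765, nat_lit 0, nat_lit 0, nat_lit 0, nat_lit 0, nat_lit 0, nat_lit 0, nat_lit 0, nat_lit 0, nat_lit 0, nat_lit 65, nat_lit 241750, nat_lit 0, nat_lit 0, [(nat_lit 13, [(nat_lit 3, nat_lit 165), (nat_lit 4, nat_lit 835)]), (nat_lit 16, [(nat_lit 3, nat_lit 165), (nat_lit 4, nat_lit 835)])],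
 ⟨p059_k7, nat_lit 0, nat_lit 0, nat_lit 169, nat_lit 0, nat_lit 0, [nat_lit 9758904000, nat_lit 679192000], [], [nat_lit 17731625911, nat_lit 21957337103, nat_lit 14374690460, nat_lit 18266856620, nat_lit 20232708787, nat_lit 26622721356, nat_lit 16672912680, nat_lit 22371363860], nat_lit 0, nat_lit 0, nat_lit 0, nat_lit 0, nat_lit 0, nat_lit 0, [], [nat_lit 135, nat_lit 40, nat_lit 40, nat_lit 80, nat_lit 134, nat_lit 401, nat_lit 175, nat_lit 10]⟩, C1.Rw.none,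
 ⟨nat_lit 4472, nat_lit 5478, ⟨.ofNat (nat_lit 235487), .ofNat (nat_lit 317898), .ofNat (nat_lit 278138), .ofNat (nat_lit 360546), .ofNat (nat_lit 264421), .ofNat (nat_lit 339182), .ofNat (nat_lit 307491), .ofNat (nat_lit 382248)⟩, ⟨.ofNat (nat_lit 254209), .ofNat (nat_lit 404075), .ofNat (nat_lit 296923), .ofNat (nat_lit 446789), .ofNat (nat_lit 259489), .ofNat (nat_lit 395445), .ofNat (nat_lit 302621), .ofNat (nat_lit 438578)⟩⟩, [⟨nat_lit 0, nat_lit 100, nat_lit 91, nat_lit 77, nat_lit 598420937⟩, ⟨nat_lit 4, nat_lit 100, nat_lit 90, nat_lit 74, nat_lit 127499363⟩]⟩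
noncomputable def p059_l34 : Lf2 := ⟨nat_lit 0, nat_lit 20, [nat_lit 5, nat_lit 5, nat_lit 5, nat_lit 20], true, nat_lit 160, nat_lit 240, nat_lit 0, nat_lit 336, ⟨nat_lit 0, nat_lit 0, nat_lit 1000, nat_lit 6, nat_lit 154, nat_lit 1000, nat_lit 140, nat_lit 1000, nat_lit 183750, nat_lit 320, nat_lit 224267, nat_lit 331, nat_lit 50582912, nat_lit 0, nat_lit 0, nat_lit 3883193, false, false⟩,
 nat_lit 0, nat_lit 0, nat_lit 0, nat_lit 4993, nat_lit 4663, nat_lit 0, nat_lit 0, nat_lit 0, nat_lit 0, nat_lit 0, nat_lit 0, nat_lit 0, nat_lit 0, nat_lit 0, nat_lit 0, nat_lit 250000, nat_lit 0, nat_lit 0, [(nat_lit 13, [(nat_lit 0, nat_lit 1000)]), (nat_lit 16, [(nat_lit 0, nat_lit 1000)])],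
 ⟨p059_k7, nat_lit 0, nat_lit 0, nat_lit 28, nat_lit 0, nat_lit 0, [nat_lit 2380933334, nat_lit 3797885714], [], [nat_lit 11762722842, nat_lit 15592241672, nat_lit 12123410230, nat_lit 15614596364, nat_lit 15546321282, nat_lit 18999874012, nat_lit 15737290326, nat_lit 18903444040], nat_lit 0, nat_lit 0, nat_lit 0, nat_lit 0, nat_lit 0, nat_lit 0, [], [nat_lit 135, nat_lit 40, nat_lit 40, nat_lit 80, nat_lit 134, nat_lit 401, nat_lit 175, nat_lit 10]⟩, C1.Rw.none,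
 ⟨nat_lit 4472, nat_lit 5478, ⟨.ofNat (nat_lit 317898), .ofNat (nat_lit 392815), .ofNat (nat_lit 360546), .ofNat (nat_lit 435455), .ofNat (nat_lit 339182), .ofNat (nat_lit 407143), .ofNat (nat_lit 382248), .ofNat (nat_lit 450202)⟩, ⟨.ofNat (nat_lit 254209), .ofNat (nat_lit 404075), .ofNat (nat_lit 296923), .ofNat (nat_lit 446789), .ofNat (nat_lit 259489), .ofNat (nat_lit 395445), .ofNat (nat_lit 302621), .ofNat (nat_lit 438578)⟩⟩, [⟨nat_lit 0, nat_lit 100, nat_lit 87, nat_lit 95, nat_lit 105601772⟩, ⟨nat_lit 4, nat_lit 100, nat_lit 90, nat_lit 74, nat_lit 130971103⟩]⟩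
noncomputable def p059_l35 : Lf2 := ⟨nat_lit 0, nat_lit 15, [nat_lit 30, nat_lit 5, nat_lit 5, nat_lit 20], true, nat_lit 240, nat_lit 276, nat_lit 0, nat_lit 312, ⟨nat_lit 0, nat_lit 1000, nat_lit 0, nat_lit 6, nat_lit 122, nat_lit 1000, nat_lit 178, nat_lit 0, nat_lit 0, nat_lit 0, nat_lit 0, nat_lit 0, nat_lit 49865431, nat_lit 6098808, nat_lit 11035761, nat_lit 3923985, false, false⟩,
 nat_lit 0, nat_lit 0, nat_lit 0, nat_lit 8937, nat_lit 4421, nat_lit 0, nat_lit 0, nat_lit 0, nat_lit 0, nat_lit 0, nat_lit 0, nat_lit 0, nat_lit 0, nat_lit 0, nat_lit 0, nat_lit 250000, nat_lit 0, nat_lit 0, [(nat_lit 13, [(nat_lit 0, nat_lit 1000)])],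
 ⟨p059_k0, nat_lit 0, nat_lit 0, nat_lit 80, nat_lit 0, nat_lit 0, [nat_lit 2378400000, nat_lit 2909733334, nat_lit 3539066666], [], [nat_lit 16511446455, nat_lit 18249760917, nat_lit 15770736516, nat_lit 17279938260, nat_lit 19162438872, nat_lit 20740718373, nat_lit 18098186090, nat_lit 19622522991], nat_lit 0, nat_lit 0, nat_lit 0, nat_lit 0, nat_lit 0, nat_lit 0, [], [nat_lit 8, nat_lit 40, nat_lit 40, nat_lit 80, nat_lit 1, nat_lit 317, nat_lit 100, nat_lit 9]⟩, C1.Rw.none,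
 ⟨nat_lit 5000, nat_lit 5478, ⟨.ofNat (nat_lit 235487), .ofNat (nat_lit 317913), .ofNat (nat_lit 278201), .ofNat (nat_lit 360625), .ofNat (nat_lit 249999), .ofNat (nat_lit 328570), .ofNat (nat_lit 292856), .ofNat (nat_lit 371424)⟩, ⟨.ofNat (nat_lit 404075), .ofNat (nat_lit 471515), .ofNat (nat_lit 425432), .ofNat (nat_lit 492872), .ofNat (nat_lit 399998), .ofNat (nat_lit 464284), .ofNat (nat_lit 421427), .ofNat (nat_lit 485713)⟩⟩, [⟨nat_lit 0, nat_lit 100, nat_lit 94, nat_lit 73, nat_lit 238601103⟩, ⟨nat_lit 16, nat_lit 99, nat_lit 100, nat_lit 77, nat_lit 353847181⟩]⟩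
noncomputable def p059_l36 : Lf2 := ⟨nat_lit 0, nat_lit 15, [nat_lit 30, nat_lit 5, nat_lit 5, nat_lit 20], true, nat_lit 240, nat_lit 256, nat_lit 0, nat_lit 312, ⟨nat_lit 0, nat_lit 0, nat_lit 1000, nat_lit 6, nat_lit 131, nat_lit 1000, nat_lit 169, nat_lit 1000, nat_lit 268817, nat_lit 342, nat_lit 160067, nat_lit 313, nat_lit 50016146, nat_lit 0, nat_lit 0, nat_lit 3939969, false, false⟩,
 nat_lit 0, nat_lit 0, nat_lit 0, nat_lit 4341, nat_lit 4355, nat_lit 0, nat_lit 0, nat_lit 0, nat_lit 0, nat_lit 0, nat_lit 0, nat_lit 0, nat_lit 0, nat_lit 0, nat_lit 0, nat_lit 250000, nat_lit 0, nat_lit 0, [(nat_lit 16, [(nat_lit 0, nat_lit 1000)])],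
 ⟨p059_k8, nat_lit 0, nat_lit 0, nat_lit 73, nat_lit 0, nat_lit 0, [nat_lit 2335200000, nat_lit 2745733334, nat_lit 3400666666], [], [nat_lit 17820835856, nat_lit 19530804028, nat_lit 17286696300, nat_lit 18853659020, nat_lit 18912360937, nat_lit 20552920721, nat_lit 18256311148, nat_lit 19852276084], nat_lit 0, nat_lit 0, nat_lit 0, nat_lit 0, nat_lit 0, nat_lit 0, [], [nat_lit 8, nat_lit 40, nat_lit 40, nat_lit 80, nat_lit 1, nat_lit 317, nat_lit 100, nat_lit 8]⟩, C1.Rw.none,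
 ⟨nat_lit 4472, nat_lit 5000, ⟨.ofNat (nat_lit 271418), .ofNat (nat_lit 328559), .ofNat (nat_lit 314253), .ofNat (nat_lit 371392), .ofNat (nat_lit 284805), .ofNat (nat_lit 339186), .ofNat (nat_lit 327916), .ofNat (nat_lit 382295)⟩, ⟨.ofNat (nat_lit 399998), .ofNat (nat_lit 428570), .ofNat (nat_lit 421427), .ofNat (nat_lit 449999), .ofNat (nat_lit 395445), .ofNat (nat_lit 422636), .ofNat (nat_lit 417011), .ofNat (nat_lit 444203)⟩⟩, [⟨nat_lit 0, nat_lit 100, nat_lit 88, nat_lit 81, nat_lit 565603339⟩, ⟨nat_lit 16, nat_lit 90, nat_lit 100, nat_lit 74, nat_lit 410867959⟩]⟩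
noncomputable def p059_l37 : Lf2 := ⟨nat_lit 0, nat_lit 15, [nat_lit 30, nat_lit 5, nat_lit 5, nat_lit 20], true, nat_lit 240, nat_lit 280, nat_lit 0, nat_lit 336, ⟨nat_lit 0, nat_lit 1000, nat_lit 0, nat_lit 6, nat_lit 122, nat_lit 1000, nat_lit 188, nat_lit 0, nat_lit 0, nat_lit 0, nat_lit 0, nat_lit 0, nat_lit 48969923, nat_lit 6065213, nat_lit 11964864, nat_lit 4026259, false, false⟩,
 nat_lit 0, nat_lit 0, nat_lit 0, nat_lit 11126, nat_lit 4373, nat_lit 0, nat_lit 0, nat_lit 0, nat_lit 0, nat_lit 0, nat_lit 0, nat_lit 0, nat_lit 0, nat_lit 0, nat_lit 0, nat_lit 250000, nat_lit 0, nat_lit 0, [(nat_lit 13, [(nat_lit 0, nat_lit 1000)])],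
 ⟨p059_k0, nat_lit 0, nat_lit 0, nat_lit 82, nat_lit 0, nat_lit 0, [nat_lit 2378400000, nat_lit 2909733334, nat_lit 3539066666], [], [nat_lit 16488878468, nat_lit 18216795074, nat_lit 15815751108, nat_lit 17316271380, nat_lit 19418252593, nat_lit 20969848491, nat_lit 18388200974, nat_lit 19863842028], nat_lit 0, nat_lit 0, nat_lit 0, nat_lit 0, nat_lit 0, nat_lit 0, [], [nat_lit 8, nat_lit 40, nat_lit 40, nat_lit 80, nat_lit 1, nat_lit 317, nat_lit 100, nat_lit 9]⟩, C1.Rw.none,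
 ⟨nat_lit 5000, nat_lit 5478, ⟨.ofNat (nat_lit 235487), .ofNat (nat_lit 317913), .ofNat (nat_lit 278201), .ofNat (nat_lit 360625), .ofNat (nat_lit 249999), .ofNat (nat_lit 328570), .ofNat (nat_lit 292856), .ofNat (nat_lit 371424)⟩, ⟨.ofNat (nat_lit 425432), .ofNat (nat_lit 500365), .ofNat (nat_lit 446789), .ofNat (nat_lit 521722), .ofNat (nat_lit 421427), .ofNat (nat_lit 492856), .ofNat (nat_lit 442856), .ofNat (nat_lit 514284)⟩⟩, [⟨nat_lit 0, nat_lit 100, nat_lit 94, nat_lit 73, nat_lit 233740322⟩, ⟨nat_lit 4, nat_lit 100, nat_lit 97, nat_lit 82, nat_lit 329047252⟩]⟩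
noncomputable def p059_l38 : Lf2 := ⟨nat_lit 0, nat_lit 15, [nat_lit 30, nat_lit 5, nat_lit 5, nat_lit 20], true, nat_lit 240, nat_lit 280, nat_lit 0, nat_lit 336, ⟨nat_lit 0, nat_lit 1000, nat_lit 0, nat_lit 6, nat_lit 131, nat_lit 1000, nat_lit 186, nat_lit 0, nat_lit 0, nat_lit 0, nat_lit 0, nat_lit 0, nat_lit 48539842, nat_lit 6768212, nat_lit 11691946, nat_lit 4116209, false, false⟩,
 nat_lit 0, nat_lit 0, nat_lit 0, nat_lit 10060, nat_lit 4220, nat_lit 0, nat_lit 0, nat_lit 0, nat_lit 0, nat_lit 0, nat_lit 0, nat_lit 0, nat_lit 0, nat_lit 0, nat_lit 0, nat_lit 250000, nat_lit 0, nat_lit 0, [(nat_lit 16, [(nat_lit 0, nat_lit 1000)])],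
 ⟨p059_k8, nat_lit 0, nat_lit 0, nat_lit 84, nat_lit 0, nat_lit 0, [nat_lit 2335200000, nat_lit 2745733334, nat_lit 3400666666], [], [nat_lit 17776096576, nat_lit 19427294992, nat_lit 17388883200, nat_lit 18861731280, nat_lit 20434157784, nat_lit 21945799441, nat_lit 19778070880, nat_lit 21250461520], nat_lit 0, nat_lit 0, nat_lit 0, nat_lit 0, nat_lit 0, nat_lit 0, [], [nat_lit 8, nat_lit 40, nat_lit 40, nat_lit 80, nat_lit 1, nat_lit 317, nat_lit 100, nat_lit 8]⟩, C1.Rw.none,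
 ⟨nat_lit 4472, nat_lit 5000, ⟨.ofNat (nat_lit 271418), .ofNat (nat_lit 328559), .ofNat (nat_lit 314253), .ofNat (nat_lit 371392), .ofNat (nat_lit 284805), .ofNat (nat_lit 339186), .ofNat (nat_lit 327916), .ofNat (nat_lit 382295)⟩, ⟨.ofNat (nat_lit 421427), .ofNat (nat_lit 492856), .ofNat (nat_lit 442856), .ofNat (nat_lit 514284), .ofNat (nat_lit 417011), .ofNat (nat_lit 484989), .ofNat (nat_lit 438578), .ofNat (nat_lit 506556)⟩⟩, [⟨nat_lit 0, nat_lit 100, nat_lit 88, nat_lit 81, nat_lit 830242702⟩, ⟨nat_lit 16, nat_lit 94, nat_lit 100, nat_lit 87, nat_lit 311487016⟩]⟩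
noncomputable def p059_l39 : Lf2 := ⟨nat_lit 0, nat_lit 20, [nat_lit 5, nat_lit 5, nat_lit 5, nat_lit 20], true, nat_lit 240, nat_lit 280, nat_lit 0, nat_lit 336, ⟨nat_lit 0, nat_lit 0, nat_lit 1000, nat_lit 6, nat_lit 124, nat_lit 1000, nat_lit 187, nat_lit 1000, nat_lit 17404, nat_lit 247, nat_lit 144150, nat_lit 308, nat_lit 48906020, nat_lit 0, nat_lit 0, nat_lit 4045539, false, false⟩,
 nat_lit 0, nat_lit 0, nat_lit 0, nat_lit 100000, nat_lit 8439, nat_lit 0, nat_lit 0, nat_lit 0, nat_lit 0, nat_lit 0, nat_lit 0, nat_lit 0, nat_lit 0, nat_lit 0, nat_lit 66, nat_lit 245550, nat_lit 0, nat_lit 0, [(nat_lit 13, [(nat_lit 3, nat_lit 89), (nat_lit 4, nat_lit 911)]), (nat_lit 16, [(nat_lit 3, nat_lit 89), (nat_lit 4, nat_lit 911)])],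
 ⟨p059_k7, nat_lit 0, nat_lit 0, nat_lit 174, nat_lit 0, nat_lit 0, [nat_lit 6766046400, nat_lit 680427200], [], [nat_lit 20430665024, nat_lit 23617978366, nat_lit 18088201748, nat_lit 20792854292, nat_lit 22728568920, nat_lit 27311266390, nat_lit 20280531842, nat_lit 24367526224], nat_lit 0, nat_lit 0, nat_lit 0, nat_lit 0, nat_lit 0, nat_lit 0, [], [nat_lit 135, nat_lit 40, nat_lit 40, nat_lit 80, nat_lit 134, nat_lit 401, nat_lit 175, nat_lit 10]⟩, C1.Rw.none,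
 ⟨nat_lit 4472, nat_lit 5478, ⟨.ofNat (nat_lit 235487), .ofNat (nat_lit 317898), .ofNat (nat_lit 278138), .ofNat (nat_lit 360546), .ofNat (nat_lit 264421), .ofNat (nat_lit 339182), .ofNat (nat_lit 307491), .ofNat (nat_lit 382248)⟩, ⟨.ofNat (nat_lit 425432), .ofNat (nat_lit 500365), .ofNat (nat_lit 446789), .ofNat (nat_lit 521722), .ofNat (nat_lit 417011), .ofNat (nat_lit 484989), .ofNat (nat_lit 438578), .ofNat (nat_lit 506556)⟩⟩, [⟨nat_lit 0, nat_lit 100, nat_lit 91, nat_lit 77, nat_lit 4499210450⟩, ⟨nat_lit 4, nat_lit 100, nat_lit 92, nat_lit 81, nat_lit 1017181722⟩]⟩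
noncomputable def p059_l40 : Lf2 := ⟨nat_lit 0, nat_lit 20, [nat_lit 5, nat_lit 5, nat_lit 5, nat_lit 20], true, nat_lit 240, nat_lit 280, nat_lit 0, nat_lit 336, ⟨nat_lit 0, nat_lit 1000, nat_lit 0, nat_lit 6, nat_lit 154, nat_lit 1000, nat_lit 183, nat_lit 0, nat_lit 0, nat_lit 0, nat_lit 0, nat_lit 0, nat_lit 47129314, nat_lit 8622516, nat_lit 11248170, nat_lit 4350348, false, false⟩,
 nat_lit 0, nat_lit 0, nat_lit 0, nat_lit 8551, nat_lit 4317, nat_lit 0, nat_lit 0, nat_lit 0, nat_lit 0, nat_lit 0, nat_lit 0, nat_lit 0, nat_lit 0, nat_lit 0, nat_lit 0, nat_lit 250000, nat_lit 0, nat_lit 0, [(nat_lit 13, [(nat_lit 0, nat_lit 1000)]), (nat_lit 16, [(nat_lit 0, nat_lit 1000)])],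
 ⟨p059_k7, nat_lit 0, nat_lit 0, nat_lit 41, nat_lit 0, nat_lit 0, [nat_lit 2380933334, nat_lit 3797885714], [], [nat_lit 15870801466, nat_lit 18851585242, nat_lit 16114712662, nat_lit 18950968842, nat_lit 18427378580, nat_lit 21322126672, nat_lit 18551173262, nat_lit 21191371302], nat_lit 0, nat_lit 0, nat_lit 0, nat_lit 0, nat_lit 0, nat_lit 0, [], [nat_lit 135, nat_lit 40, nat_lit 40, nat_lit 80, nat_lit 134, nat_lit 428, nat_lit 200, nat_lit 10]⟩, C1.Rw.none,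
 ⟨nat_lit 4472, nat_lit 5478, ⟨.ofNat (nat_lit 317898), .ofNat (nat_lit 392815), .ofNat (nat_lit 360546), .ofNat (nat_lit 435455), .ofNat (nat_lit 339182), .ofNat (nat_lit 407143), .ofNat (nat_lit 382248), .ofNat (nat_lit 450202)⟩, ⟨.ofNat (nat_lit 404075), .ofNat (nat_lit 479008), .ofNat (nat_lit 446789), .ofNat (nat_lit 521722), .ofNat (nat_lit 395445), .ofNat (nat_lit 463423), .ofNat (nat_lit 438578), .ofNat (nat_lit 506556)⟩⟩, [⟨nat_lit 0, nat_lit 100, nat_lit 91, nat_lit 77, nat_lit 74125223⟩, ⟨nat_lit 16, nat_lit 100, nat_lit 95, nat_lit 87, nat_lit 317575816⟩]⟩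
noncomputable def p059_l41 : Lf2 := ⟨nat_lit 0, nat_lit 20, [nat_lit 5, nat_lit 5, nat_lit 5, nat_lit 20], true, nat_lit 280, nat_lit 300, nat_lit 0, nat_lit 336, ⟨nat_lit 0, nat_lit 0, nat_lit 1000, nat_lit 6, nat_lit 139, nat_lit 1000, nat_lit 204, nat_lit 1000, nat_lit 3701, nat_lit 228, nat_lit 180267, nat_lit 319, nat_lit 46424093, nat_lit 0, nat_lit 0, nat_lit 4369706, false, false⟩,
 nat_lit 0, nat_lit 0, nat_lit 0, nat_lit 100000, nat_lit 3735, nat_lit 0, nat_lit 0, nat_lit 0, nat_lit 0, nat_lit 0, nat_lit 0, nat_lit 0, nat_lit 0, nat_lit 0, nat_lit 128, nat_lit 541600, nat_lit 0, nat_lit 0, [(nat_lit 13, [(nat_lit 5, nat_lit 764), (nat_lit 6, nat_lit 236)]), (nat_lit 16, [(nat_lit 5, nat_lit 764), (nat_lit 6, nat_lit 236)])],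
 ⟨p059_k7, nat_lit 0, nat_lit 0, nat_lit 177, nat_lit 0, nat_lit 0, [nat_lit 3131499201, nat_lit 267889600], [], [nat_lit 20004179454, nat_lit 21769868777, nat_lit 19263729920, nat_lit 20894080852, nat_lit 20827464074, nat_lit 22970635244, nat_lit 20028587760, nat_lit 22011176215], nat_lit 0, nat_lit 0, nat_lit 0, nat_lit 0, nat_lit 0, nat_lit 0, [], [nat_lit 135, nat_lit 40, nat_lit 40, nat_lit 80, nat_lit 134, nat_lit 428, nat_lit 200, nat_lit 10]⟩, C1.Rw.none,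
 ⟨nat_lit 4472, nat_lit 5478, ⟨.ofNat (nat_lit 235487), .ofNat (nat_lit 392815), .ofNat (nat_lit 278138), .ofNat (nat_lit 435455), .ofNat (nat_lit 264421), .ofNat (nat_lit 407143), .ofNat (nat_lit 307491), .ofNat (nat_lit 450202)⟩, ⟨.ofNat (nat_lit 479008), .ofNat (nat_lit 516475), .ofNat (nat_lit 521722), .ofNat (nat_lit 559189), .ofNat (nat_lit 463423), .ofNat (nat_lit 497412), .ofNat (nat_lit 506556), .ofNat (nat_lit 540545)⟩⟩, [⟨nat_lit 0, nat_lit 100, nat_lit 91, nat_lit 77, nat_lit 173750122⟩, ⟨nat_lit 16, nat_lit 100, nat_lit 95, nat_lit 87, nat_lit 4897300494⟩]⟩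
noncomputable def p059_l42 : Lf2 := ⟨nat_lit 0, nat_lit 20, [nat_lit 5, nat_lit 5, nat_lit 5, nat_lit 20], true, nat_lit 160, nat_lit 300, nat_lit 0, nat_lit 336, ⟨nat_lit 0, nat_lit 1000, nat_lit 0, nat_lit 6, nat_lit 211, nat_lit 1000, nat_lit 161, nat_lit 0, nat_lit 0, nat_lit 0, nat_lit 0, nat_lit 0, nat_lit 44276551, nat_lit 13750815, nat_lit 8972634, nat_lit 4663669, false, false⟩,
 nat_lit 0, nat_lit 0, nat_lit 0, nat_lit 5673, nat_lit 4294, nat_lit 0, nat_lit 0, nat_lit 0, nat_lit 0, nat_lit 0, nat_lit 0, nat_lit 0, nat_lit 0, nat_lit 0, nat_lit 0, nat_lit 250000, nat_lit 0, nat_lit 0, [(nat_lit 13, [(nat_lit 0, nat_lit 1000)]), (nat_lit 16, [(nat_lit 0, nat_lit 1000)])],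
 ⟨p059_k7, nat_lit 0, nat_lit 0, nat_lit 36, nat_lit 0, nat_lit 0, [nat_lit 2380933334, nat_lit 3797885714], [], [nat_lit 12622522582, nat_lit 15942875718, nat_lit 16914116310, nat_lit 19576374774, nat_lit 19785391230, nat_lit 22366571086, nat_lit 22626057152, nat_lit 24798444750], nat_lit 0, nat_lit 0, nat_lit 0, nat_lit 0, nat_lit 0, nat_lit 0, [], [nat_lit 135, nat_lit 40, nat_lit 40, nat_lit 80, nat_lit 134, nat_lit 456, nat_lit 225, nat_lit 11]⟩, C1.Rw.none,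
 ⟨nat_lit 4472, nat_lit 5478, ⟨.ofNat (nat_lit 392815), .ofNat (nat_lit 617523), .ofNat (nat_lit 435455), .ofNat (nat_lit 660148), .ofNat (nat_lit 407143), .ofNat (nat_lit 610987), .ofNat (nat_lit 450202), .ofNat (nat_lit 654031)⟩, ⟨.ofNat (nat_lit 254209), .ofNat (nat_lit 516475), .ofNat (nat_lit 296923), .ofNat (nat_lit 559189), .ofNat (nat_lit 259489), .ofNat (nat_lit 497412), .ofNat (nat_lit 302621), .ofNat (nat_lit 540545)⟩⟩, [⟨nat_lit 16, nat_lit 90, nat_lit 100, nat_lit 74, nat_lit 242304515⟩, ⟨nat_lit 16, nat_lit 100, nat_lit 95, nat_lit 87, nat_lit 8476632⟩]⟩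
noncomputable def b_V_700_600_10_34 : St := ⟨true, nat_lit 0, nat_lit 1, nat_lit 1, nat_lit 80, nat_lit 280, nat_lit 320, nat_lit 240, nat_lit 280, nat_lit 36, nat_lit 240, nat_lit 40, nat_lit 80, nat_lit 0, nat_lit 300, nat_lit 0, nat_lit 336, nat_lit 40, nat_lit 80, nat_lit 0, nat_lit 0, nat_lit 0, nat_lit 0⟩
theorem d_V_700_600_10_34 (h : EB TB.env) : Dead b_V_700_600_10_34 := chkB_sound0 h (T :=
(.spl (nat_lit 4) (nat_lit 160)
(.spl (nat_lit 2) (nat_lit 160)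
(.spl (nat_lit 3) (nat_lit 60)
(.trX (nat_lit 19) (nat_lit 100) (nat_lit 85) (nat_lit 73) (nat_lit 312) (.spl (nat_lit 2) (nat_lit 80)
(.leaf p059_l19)
(.leaf p059_l20)))
(.spl (nat_lit 0) (nat_lit 300)
(.spl (nat_lit 6) (nat_lit 56)
(.leaf p059_l21)
(.leaf p059_l22))
(.trZ (nat_lit 0) (nat_lit 100) (nat_lit 88) (nat_lit 68) (nat_lit 48) (.spl (nat_lit 0) (nat_lit 310)
(.leaf p059_l23)
(.trZ (nat_lit 0) (nat_lit 100) (nat_lit 85) (nat_lit 72) (nat_lit 56) (.leaf p059_l24))))))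
(.spl (nat_lit 0) (nat_lit 300)
(.spl (nat_lit 3) (nat_lit 60)
(.trX (nat_lit 19) (nat_lit 100) (nat_lit 85) (nat_lit 73) (nat_lit 312) (.spl (nat_lit 6) (nat_lit 72)
(.spl (nat_lit 0) (nat_lit 290)
(.leaf p059_l25)
(.leaf p059_l26))
(.leaf p059_l27)))
(.spl (nat_lit 6) (nat_lit 56)
(.leaf p059_l28)
(.leaf p059_l29)))
(.spl (nat_lit 1) (nat_lit 260)
(.leaf p059_l30)
(.trX (nat_lit 19) (nat_lit 100) (nat_lit 85) (nat_lit 84) (nat_lit 320) (.spl (nat_lit 2) (nat_lit 200)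
(.leaf p059_l31)
(.leaf p059_l32))))))
(.spl (nat_lit 2) (nat_lit 120)
(.spl (nat_lit 4) (nat_lit 240)
(.spl (nat_lit 2) (nat_lit 80)
(.leaf p059_l33)
(.leaf p059_l34))
(.spl (nat_lit 4) (nat_lit 280)
(.spl (nat_lit 2) (nat_lit 80)
(.spl (nat_lit 3) (nat_lit 60)
(.trX (nat_lit 16) (nat_lit 99) (nat_lit 100) (nat_lit 77) (nat_lit 276) (.trX (nat_lit 19) (nat_lit 100) (nat_lit 85) (nat_lit 73) (nat_lit 312) (.spl (nat_lit 0) (nat_lit 300)
(.leaf p059_l35)
(.trZ (nat_lit 0) (nat_lit 100) (nat_lit 88) (nat_lit 68) (nat_lit 48) (.trX (nat_lit 16) (nat_lit 90) (nat_lit 100) (nat_lit 74) (nat_lit 256) (.leaf p059_l36))))))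
(.spl (nat_lit 6) (nat_lit 60)
(.spl (nat_lit 0) (nat_lit 300)
(.leaf p059_l37)
(.trZ (nat_lit 0) (nat_lit 100) (nat_lit 88) (nat_lit 68) (nat_lit 48) (.leaf p059_l38)))
(.leaf p059_l39)))
(.leaf p059_l40))
(.leaf p059_l41)))
(.leaf p059_l42)))) (by decide +kernel)
noncomputable def p059_l43 : Lf2 := ⟨nat_lit 0, nat_lit 20, [nat_lit 5, nat_lit 5, nat_lit 5, nat_lit 20], false, nat_lit 0, nat_lit 160, nat_lit 0, nat_lit 336, ⟨nat_lit 1000, nat_lit 0, nat_lit 0, nat_lit 0, nat_lit 0, nat_lit 0, nat_lit 0, nat_lit 0, nat_lit 0, nat_lit 0, nat_lit 0, nat_lit 0, nat_lit 0, nat_lit 0, nat_lit 0, nat_lit 0, false, false⟩,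
 nat_lit 0, nat_lit 0, nat_lit 15874, nat_lit 0, nat_lit 6638, nat_lit 8403, nat_lit 1044, nat_lit 0, nat_lit 0, nat_lit 924, nat_lit 0, nat_lit 0, nat_lit 0, nat_lit 0, nat_lit 0, nat_lit 0, nat_lit 0, nat_lit 0, [],
 ⟨p059_k17, nat_lit 0, nat_lit 0, nat_lit 240, nat_lit 0, nat_lit 0, [nat_lit 3282000000, nat_lit 6250000000, nat_lit 11872000000], [], [nat_lit 28398659764, nat_lit 29385659904, nat_lit 37388009008, nat_lit 38616720668, nat_lit 24163103188, nat_lit 24992704608, nat_lit 32416239664, nat_lit 33095524640], nat_lit 0, nat_lit 0, nat_lit 0, nat_lit 0, nat_lit 0, nat_lit 0, [], [nat_lit 23, nat_lit 40, nat_lit 40, nat_lit 80, nat_lit 12, nat_lit 456, nat_lit 225, nat_lit 11]⟩, ⟨p059_k15, nat_lit 0, nat_lit 0, nat_lit 420, nat_lit 0, nat_lit 253157, [nat_lit 4688000000, nat_lit 7968000000, nat_lit 14058000000], [], [nat_lit 33893260140, nat_lit 34562658584, nat_lit 42292122624, nat_lit 42726801302, nat_lit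 31146388665, nat_lit 30939416866, nat_lit 36073951240, nat_lit 36580826223], nat_lit 1271250, nat_lit 1271250, nat_lit 1271250, nat_lit 1271250, nat_lit 0, nat_lit 2373000, [nat_lit 1100000, nat_lit 1785000, nat_lit 1271250], [nat_lit 37, nat_lit 40, nat_lit 40, nat_lit 80, nat_lit 28, nat_lit 483, nat_lit 250, nat_lit 11]⟩,
 zbF0, [⟨nat_lit 7, nat_lit 88, nat_lit 100, nat_lit 74, nat_lit 132435825⟩]⟩
noncomputable def p059_l44 : Lf2 := ⟨nat_lit 0, nat_lit 20, [nat_lit 5, nat_lit 5, nat_lit 5, nat_lit 20], false, nat_lit 0, nat_lit 160, nat_lit 0, nat_lit 160, ⟨nat_lit 1000, nat_lit 0, nat_lit 0, nat_lit 0, nat_lit 0, nat_lit 0, nat_lit 0, nat_lit 0, nat_lit 0, nat_lit 0, nat_lit 0, nat_lit 0, nat_lit 0, nat_lit 0, nat_lit 0, nat_lit 0, false, false⟩,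
 nat_lit 0, nat_lit 0, nat_lit 13517, nat_lit 0, nat_lit 5655, nat_lit 7156, nat_lit 916, nat_lit 0, nat_lit 0, nat_lit 924, nat_lit 0, nat_lit 0, nat_lit 0, nat_lit 0, nat_lit 0, nat_lit 0, nat_lit 0, nat_lit 0, [],
 ⟨p059_k14, nat_lit 0, nat_lit 0, nat_lit 217, nat_lit 0, nat_lit 0, [nat_lit 3282000000, nat_lit 6250000000, nat_lit 9842000000], [], [nat_lit 25455375070, nat_lit 26765262840, nat_lit 35555321065, nat_lit 36717087913, nat_lit 22052670010, nat_lit 23047829100, nat_lit 29899667182, nat_lit 30727289696], nat_lit 0, nat_lit 0, nat_lit 0, nat_lit 0, nat_lit 0, nat_lit 0, [], [nat_lit 8, nat_lit 40, nat_lit 40, nat_lit 80, nat_lit 1, nat_lit 373, nat_lit 150, nat_lit 10]⟩, ⟨p059_k15, nat_lit 0, nat_lit 0, nat_lit 587, nat_lit 0, nat_lit 585964, [nat_lit 4688000000, nat_lit 7968000000, nat_lit 14058000000], [], [nat_lit 38332977856, nat_lit 38762605632, nat_lit 43360351845, nat_lit 43711356593, nat_lit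 33804633184, nat_lit 34079013280, nat_lit 38277037740, nat_lit 38553336671], nat_lit 1271250, nat_lit 1271250, nat_lit 1271250, nat_lit 1271250, nat_lit 0, nat_lit 1100001, [nat_lit 1100000, nat_lit 1785000, nat_lit 1271250], [nat_lit 37, nat_lit 40, nat_lit 40, nat_lit 80, nat_lit 28, nat_lit 456, nat_lit 225, nat_lit 10]⟩,
 zbF0, []⟩
noncomputable def p059_l45 : Lf2 := ⟨nat_lit 0, nat_lit 20, [nat_lit 5, nat_lit 5, nat_lit 5, nat_lit 20], false, nat_lit 0, nat_lit 160, nat_lit 160, nat_lit 336, ⟨nat_lit 1000, nat_lit 0, nat_lit 0, nat_lit 0, nat_lit 0, nat_lit 0, nat_lit 0, nat_lit 0, nat_lit 0, nat_lit 0, nat_lit 0, nat_lit 0, nat_lit 0, nat_lit 0, nat_lit 0, nat_lit 0, false, false⟩,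
 nat_lit 0, nat_lit 0, nat_lit 13135, nat_lit 0, nat_lit 5691, nat_lit 6953, nat_lit 922, nat_lit 0, nat_lit 0, nat_lit 935, nat_lit 0, nat_lit 0, nat_lit 0, nat_lit 0, nat_lit 0, nat_lit 0, nat_lit 0, nat_lit 0, [],
 ⟨p059_k14, nat_lit 0, nat_lit 0, nat_lit 217, nat_lit 0, nat_lit 0, [nat_lit 3282000000, nat_lit 6250000000, nat_lit 9842000000], [], [nat_lit 25417405954, nat_lit 26731604148, nat_lit 35651200181, nat_lit 36816342447, nat_lit 21941568622, nat_lit 22941243986, nat_lit 29880139951, nat_lit 30721285874], nat_lit 0, nat_lit 0, nat_lit 0, nat_lit 0, nat_lit 0, nat_lit 0, [], [nat_lit 8, nat_lit 40, nat_lit 40, nat_lit 80, nat_lit 1, nat_lit 373, nat_lit 150, nat_lit 10]⟩, ⟨p059_k15, nat_lit 0, nat_lit 0, nat_lit 433, nat_lit 0, nat_lit 585964, [nat_lit 4688000000, nat_lit 7968000000, nat_lit 14058000000], [], [nat_lit 30177682772, nat_lit 30611893676, nat_lit 35453958080, nat_lit 35709311594, nat_lit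 33193669001, nat_lit 33479001326, nat_lit 37927887381, nat_lit 38150986824], nat_lit 1271250, nat_lit 1271250, nat_lit 1271250, nat_lit 1271250, nat_lit 1100001, nat_lit 2607000, [nat_lit 1100000, nat_lit 1785000, nat_lit 1271250], [nat_lit 37, nat_lit 40, nat_lit 40, nat_lit 80, nat_lit 28, nat_lit 483, nat_lit 250, nat_lit 10]⟩,
 zbF0, [⟨nat_lit 19, nat_lit 100, nat_lit 88, nat_lit 74, nat_lit 405013490⟩]⟩
noncomputable def p059_l46 : Lf2 := ⟨nat_lit 0, nat_lit 20, [nat_lit 5, nat_lit 5, nat_lit 5, nat_lit 20], false, nat_lit 0, nat_lit 160, nat_lit 0, nat_lit 160, ⟨nat_lit 1000, nat_lit 0, nat_lit 0, nat_lit 0, nat_lit 0, nat_lit 0, nat_lit 0, nat_lit 0, nat_lit 0, nat_lit 0, nat_lit 0, nat_lit 0, nat_lit 0, nat_lit 0, nat_lit 0, nat_lit 0, false, false⟩,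
 nat_lit 0, nat_lit 0, nat_lit 12421, nat_lit 0, nat_lit 6764, nat_lit 7230, nat_lit 1015, nat_lit 0, nat_lit 0, nat_lit 1048, nat_lit 0, nat_lit 0, nat_lit 0, nat_lit 0, nat_lit 0, nat_lit 0, nat_lit 0, nat_lit 0, [],
 ⟨p059_k17, nat_lit 0, nat_lit 0, nat_lit 242, nat_lit 0, nat_lit 0, [nat_lit 3282000000, nat_lit 6250000000, nat_lit 11872000000], [], [nat_lit 28574076217, nat_lit 30565094057, nat_lit 37717702624, nat_lit 40197949584, nat_lit 24207687289, nat_lit 25877310889, nat_lit 32231665792, nat_lit 33598086048], nat_lit 0, nat_lit 0, nat_lit 0, nat_lit 0, nat_lit 0, nat_lit 0, [], [nat_lit 23, nat_lit 40, nat_lit 40, nat_lit 80, nat_lit 12, nat_lit 456, nat_lit 225, nat_lit 11]⟩, ⟨p059_k16, nat_lit 0, nat_lit 0, nat_lit 558, nat_lit 0, nat_lit 686983, [nat_lit 4688000000, nat_lit 7968000000, nat_lit 11872000000], [], [nat_lit 33289250400, nat_lit 33733165280, nat_lit 38596635020, nat_lit 38938151000,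 nat_lit 29587970240, nat_lit 29936549440, nat_lit 33329703660, nat_lit 33601496320], nat_lit 1271250, nat_lit 1271250, nat_lit 1271250, nat_lit 1271250, nat_lit 0, nat_lit 1100001, [nat_lit 1100000, nat_lit 1785000, nat_lit 1271250], [nat_lit 21, nat_lit 40, nat_lit 40, nat_lit 80, nat_lit 14, nat_lit 456, nat_lit 225, nat_lit 11]⟩,
 zbF0, []⟩
noncomputable def p059_l47 : Lf2 := ⟨nat_lit 0, nat_lit 20, [nat_lit 5, nat_lit 5, nat_lit 5, nat_lit 20], false, nat_lit 0, nat_lit 160, nat_lit 160, nat_lit 320, ⟨nat_lit 1000, nat_lit 0, nat_lit 0, nat_lit 0, nat_lit 0, nat_lit 0, nat_lit 0, nat_lit 0, nat_lit 0, nat_lit 0, nat_lit 0, nat_lit 0, nat_lit 0, nat_lit 0, nat_lit 0, nat_lit 0, false, false⟩,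
 nat_lit 0, nat_lit 0, nat_lit 12836, nat_lit 0, nat_lit 6484, nat_lit 7471, nat_lit 1028, nat_lit 0, nat_lit 0, nat_lit 934, nat_lit 0, nat_lit 0, nat_lit 0, nat_lit 0, nat_lit 0, nat_lit 0, nat_lit 0, nat_lit 0, [],
 ⟨p059_k17, nat_lit 0, nat_lit 0, nat_lit 240, nat_lit 0, nat_lit 0, [nat_lit 3282000000, nat_lit 6250000000, nat_lit 11872000000], [], [nat_lit 28677646252, nat_lit 29654246772, nat_lit 37406402976, nat_lit 38200975176, nat_lit 24601995884, nat_lit 25422821684, nat_lit 32641829952, nat_lit 33316317520], nat_lit 0, nat_lit 0, nat_lit 0, nat_lit 0, nat_lit 0, nat_lit 0, [], [nat_lit 23, nat_lit 40, nat_lit 40, nat_lit 80, nat_lit 12, nat_lit 456, nat_lit 225, nat_lit 11]⟩, ⟨p059_k16, nat_lit 0, nat_lit 0, nat_lit 327, nat_lit 0, nat_lit 413113, [nat_lit 4688000000, nat_lit 7968000000, nat_lit 11872000000], [], [nat_lit 25487617594, nat_lit 26069770274, nat_lit 32043920626, nat_lit 32476492820, nat_lit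 28562103154, nat_lit 28940489582, nat_lit 34552905728, nat_lit 35101914400], nat_lit 1271250, nat_lit 1271250, nat_lit 1271250, nat_lit 1271250, nat_lit 1100001, nat_lit 2470000, [nat_lit 1100000, nat_lit 1785000, nat_lit 1271250], [nat_lit 21, nat_lit 40, nat_lit 40, nat_lit 80, nat_lit 14, nat_lit 483, nat_lit 250, nat_lit 12]⟩,
 zbF0, [⟨nat_lit 19, nat_lit 100, nat_lit 97, nat_lit 76, nat_lit 403436680⟩]⟩
noncomputable def p059_l48 : Lf2 := ⟨nat_lit 0, nat_lit 20, [nat_lit 5, nat_lit 5, nat_lit 5, nat_lit 20], false, nat_lit 0, nat_lit 160, nat_lit 160, nat_lit 320, ⟨nat_lit 1000, nat_lit 0, nat_lit 0, nat_lit 0, nat_lit 0, nat_lit 0, nat_lit 0, nat_lit 0, nat_lit 0, nat_lit 0, nat_lit 0, nat_lit 0, nat_lit 0, nat_lit 0, nat_lit 0, nat_lit 0, false, false⟩,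
 nat_lit 0, nat_lit 0, nat_lit 11012, nat_lit 0, nat_lit 6204, nat_lit 6409, nat_lit 942, nat_lit 0, nat_lit 0, nat_lit 1610, nat_lit 0, nat_lit 0, nat_lit 0, nat_lit 0, nat_lit 0, nat_lit 0, nat_lit 0, nat_lit 0, [],
 ⟨p059_k18, nat_lit 0, nat_lit 0, nat_lit 209, nat_lit 0, nat_lit 0, [nat_lit 3282000000, nat_lit 4688000000, nat_lit 9842000000], [], [nat_lit 27434067926, nat_lit 28809689662, nat_lit 37441801944, nat_lit 38631206224, nat_lit 23666641662, nat_lit 24533427086, nat_lit 31602668766, nat_lit 32297155646], nat_lit 0, nat_lit 0, nat_lit 0, nat_lit 0, nat_lit 0, nat_lit 0, [], [nat_lit 42, nat_lit 40, nat_lit 40, nat_lit 80, nat_lit 13, nat_lit 373, nat_lit 150, nat_lit 10]⟩, ⟨p059_k19, nat_lit 0, nat_lit 0, nat_lit 416, nat_lit 0, nat_lit 686983, [nat_lit 4688000000, nat_lit 6250000000, nat_lit 11872000000], [], [nat_lit 27003928528, nat_lit 27286140694, nat_lit 31487470214, nat_lit 31817882898, nat_lit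 28992815460, nat_lit 29375165234, nat_lit 33364774112, nat_lit 33905677600], nat_lit 1271250, nat_lit 1271250, nat_lit 1271250, nat_lit 1271250, nat_lit 1100001, nat_lit 2470000, [nat_lit 1100000, nat_lit 1442500, nat_lit 1271250], [nat_lit 48, nat_lit 40, nat_lit 40, nat_lit 80, nat_lit 12, nat_lit 483, nat_lit 250, nat_lit 12]⟩,
 zbF0, [⟨nat_lit 19, nat_lit 100, nat_lit 97, nat_lit 76, nat_lit 381402097⟩]⟩
noncomputable def p059_l49 : Lf2 := ⟨nat_lit 0, nat_lit 15, [nat_lit 30, nat_lit 5, nat_lit 5, nat_lit 20], false, nat_lit 160, nat_lit 276, nat_lit 0, nat_lit 312, ⟨nat_lit 894, nat_lit 106, nat_lit 0, nat_lit 6, nat_lit 305, nat_lit 106, nat_lit 148, nat_lit 0, nat_lit 0, nat_lit 0, nat_lit 0, nat_lit 0, nat_lit 37415149, nat_lit 22491674, nat_lit 7093177, nat_lit 4975580, true, true⟩,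
 nat_lit 0, nat_lit 0, nat_lit 14487, nat_lit 0, nat_lit 6630, nat_lit 7669, nat_lit 0, nat_lit 0, nat_lit 0, nat_lit 690, nat_lit 0, nat_lit 0, nat_lit 0, nat_lit 0, nat_lit 0, nat_lit 26500, nat_lit 0, nat_lit 0, [(nat_lit 13, [(nat_lit 0, nat_lit 106)]), (nat_lit 16, [(nat_lit 0, nat_lit 106)])],
 ⟨p059_k0, nat_lit 0, nat_lit 0, nat_lit 90, nat_lit 0, nat_lit 0, [nat_lit 3186218401, nat_lit 5895931734, nat_lit 9170214400], [], [nat_lit 19517798134, nat_lit 22445340014, nat_lit 30504476054, nat_lit 32233876774, nat_lit 23923304891, nat_lit 26170623101, nat_lit 32550012455, nat_lit 34205750477], nat_lit 0, nat_lit 0, nat_lit 0, nat_lit 0, nat_lit 0, nat_lit 0, [], [nat_lit 8, nat_lit 40, nat_lit 40, nat_lit 80, nat_lit 1, nat_lit 401, nat_lit 175, nat_lit 11]⟩, ⟨p059_k11, nat_lit 0, nat_lit 0, nat_lit 490, nat_lit 0, nat_lit 497499, [nat_lit 4191072000, nat_lit 7123392000, nat_lit 10613568000], [], [nat_lit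 32811188268, nat_lit 32977588866, nat_lit 37515869384, nat_lit 37765053818, nat_lit 28011110534, nat_lit 28106660023, nat_lit 31406110792, nat_lit 31444830561], nat_lit 1271250, nat_lit 1271250, nat_lit 1271250, nat_lit 1271250, nat_lit 0, nat_lit 2203500, [nat_lit 1100000, nat_lit 1785000, nat_lit 1271250], [nat_lit 21, nat_lit 40, nat_lit 40, nat_lit 80, nat_lit 14, nat_lit 483, nat_lit 250, nat_lit 12]⟩,
 ⟨nat_lit 4472, nat_lit 5478, ⟨.ofNat (nat_lit 617523), .ofNat (nat_lit 917115), .ofNat (nat_lit 628179), .ofNat (nat_lit 927771), .ofNat (nat_lit 610987), .ofNat (nat_lit 882759), .ofNat (nat_lit 621748), .ofNat (nat_lit 893520)⟩, ⟨.ofNat (nat_lit 254209), .ofNat (nat_lit 471515), .ofNat (nat_lit 275566), .ofNat (nat_lit 492872), .ofNat (nat_lit 259489), .ofNat (nat_lit 456625), .ofNat (nat_lit 281055), .ofNat (nat_lit 478192)⟩⟩, [⟨nat_lit 4, nat_lit 100, nat_lit 88, nat_lit 67, nat_lit 594347052⟩, ⟨nat_lit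 7, nat_lit 90, nat_lit 100, nat_lit 68, nat_lit 92144203⟩]⟩
noncomputable def p059_l50 : Lf2 := ⟨nat_lit 0, nat_lit 20, [nat_lit 5, nat_lit 5, nat_lit 5, nat_lit 20], false, nat_lit 160, nat_lit 300, nat_lit 0, nat_lit 336, ⟨nat_lit 1000, nat_lit 0, nat_lit 0, nat_lit 0, nat_lit 0, nat_lit 0, nat_lit 0, nat_lit 0, nat_lit 0, nat_lit 0, nat_lit 0, nat_lit 0, nat_lit 0, nat_lit 0, nat_lit 0, nat_lit 0, false, false⟩,
 nat_lit 0, nat_lit 0, nat_lit 15468, nat_lit 0, nat_lit 6882, nat_lit 8188, nat_lit 0, nat_lit 0, nat_lit 0, nat_lit 979, nat_lit 0, nat_lit 0, nat_lit 0, nat_lit 0, nat_lit 0, nat_lit 0, nat_lit 0, nat_lit 0, [],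
 ⟨p059_k17, nat_lit 0, nat_lit 0, nat_lit 90, nat_lit 0, nat_lit 0, [nat_lit 3282000000, nat_lit 6250000000, nat_lit 11872000000], [], [nat_lit 19574929760, nat_lit 22566246792, nat_lit 30795560448, nat_lit 32550953456, nat_lit 25291102388, nat_lit 27426686078, nat_lit 33701122798, nat_lit 35258191276], nat_lit 0, nat_lit 0, nat_lit 0, nat_lit 0, nat_lit 0, nat_lit 0, [], [nat_lit 23, nat_lit 40, nat_lit 40, nat_lit 80, nat_lit 12, nat_lit 538, nat_lit 300, nat_lit 13]⟩, ⟨p059_k15, nat_lit 0, nat_lit 0, nat_lit 400, nat_lit 0, nat_lit 193153, [nat_lit 4688000000, nat_lit 7968000000, nat_lit 14058000000], [], [nat_lit 33489420940, nat_lit 33821782252, nat_lit 41470661404, nat_lit 41688492448, nat_lit 31422504221, nat_lit 30650602449, nat_lit 35983523066, nat_lit 36076313509], nat_lit 1271250, nat_lit 1271250, nat_lit 1271250, nat_lit 1271250, nat_lit 0, nat_lit 2373000, [nat_lit 1100000, nat_lit 1785000, nat_lit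 1271250], [nat_lit 37, nat_lit 40, nat_lit 40, nat_lit 80, nat_lit 28, nat_lit 483, nat_lit 250, nat_lit 11]⟩,
 zbF0, [⟨nat_lit 4, nat_lit 100, nat_lit 92, nat_lit 81, nat_lit 480073309⟩, ⟨nat_lit 7, nat_lit 83, nat_lit 100, nat_lit 78, nat_lit 135745807⟩]⟩
noncomputable def p059_l51 : Lf2 := ⟨nat_lit 0, nat_lit 20, [nat_lit 5, nat_lit 5, nat_lit 5, nat_lit 20], false, nat_lit 160, nat_lit 300, nat_lit 0, nat_lit 328, ⟨nat_lit 901, nat_lit 99, nat_lit 0, nat_lit 6, nat_lit 308, nat_lit 99, nat_lit 161, nat_lit 0, nat_lit 0, nat_lit 0, nat_lit 0, nat_lit 0, nat_lit 36572166, nat_lit 22490475, nat_lit 7937359, nat_lit 5095081, true, true⟩,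
 nat_lit 0, nat_lit 0, nat_lit 12801, nat_lit 0, nat_lit 6662, nat_lit 7111, nat_lit 0, nat_lit 0, nat_lit 0, nat_lit 787, nat_lit 0, nat_lit 0, nat_lit 0, nat_lit 0, nat_lit 0, nat_lit 24750, nat_lit 0, nat_lit 0, [(nat_lit 13, [(nat_lit 0, nat_lit 99)]), (nat_lit 16, [(nat_lit 0, nat_lit 99)])],
 ⟨p059_k17, nat_lit 0, nat_lit 0, nat_lit 90, nat_lit 0, nat_lit 0, [nat_lit 3192543600, nat_lit 5940922000, nat_lit 11054814400], [], [nat_lit 19525082160, nat_lit 22460722472, nat_lit 30541468368, nat_lit 32274169696, nat_lit 25177222908, nat_lit 27279686698, nat_lit 33460280218, nat_lit 35000743316], nat_lit 0, nat_lit 0, nat_lit 0, nat_lit 0, nat_lit 0, nat_lit 0, [], [nat_lit 23, nat_lit 40, nat_lit 40, nat_lit 80, nat_lit 12, nat_lit 538, nat_lit 300, nat_lit 13]⟩, ⟨p059_k20, nat_lit 0, nat_lit 0, nat_lit 556, nat_lit 0, nat_lit 501872, [nat_lit 4223888000, nat_lit 7179168000, nat_lit 12666258000], [], [nat_lit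 32156783484, nat_lit 32253539891, nat_lit 37687390126, nat_lit 37785827626, nat_lit 28521261717, nat_lit 28554587381, nat_lit 31863531192, nat_lit 31883758333], nat_lit 1271250, nat_lit 1271250, nat_lit 1271250, nat_lit 1271250, nat_lit 0, nat_lit 2316500, [nat_lit 1100000, nat_lit 1785000, nat_lit 1271250], [nat_lit 37, nat_lit 40, nat_lit 40, nat_lit 80, nat_lit 28, nat_lit 483, nat_lit 250, nat_lit 11]⟩,
 ⟨nat_lit 4472, nat_lit 5478, ⟨.ofNat (nat_lit 628179), .ofNat (nat_lit 927771), .ofNat (nat_lit 633507), .ofNat (nat_lit 933099), .ofNat (nat_lit 621748), .ofNat (nat_lit 893520), .ofNat (nat_lit 627128), .ofNat (nat_lit 898901)⟩, ⟨.ofNat (nat_lit 254209), .ofNat (nat_lit 516475), .ofNat (nat_lit 296923), .ofNat (nat_lit 559189), .ofNat (nat_lit 259489), .ofNat (nat_lit 497412), .ofNat (nat_lit 302621), .ofNat (nat_lit 540545)⟩⟩, [⟨nat_lit 4, nat_lit 100, nat_lit 90, nat_lit 74, nat_lit 552891435⟩, ⟨nat_lit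 7, nat_lit 89, nat_lit 100, nat_lit 74, nat_lit 106369333⟩]⟩
noncomputable def p059_l52 : Lf2 := ⟨nat_lit 0, nat_lit 20, [nat_lit 5, nat_lit 5, nat_lit 5, nat_lit 20], false, nat_lit 160, nat_lit 300, nat_lit 0, nat_lit 324, ⟨nat_lit 1000, nat_lit 0, nat_lit 0, nat_lit 0, nat_lit 0, nat_lit 0, nat_lit 0, nat_lit 0, nat_lit 0, nat_lit 0, nat_lit 0, nat_lit 0, nat_lit 0, nat_lit 0, nat_lit 0, nat_lit 0, false, false⟩,
 nat_lit 0, nat_lit 0, nat_lit 13193, nat_lit 0, nat_lit 7156, nat_lit 7503, nat_lit 0, nat_lit 0, nat_lit 0, nat_lit 1039, nat_lit 0, nat_lit 0, nat_lit 0, nat_lit 0, nat_lit 0, nat_lit 0, nat_lit 0, nat_lit 0, [],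
 ⟨p059_k17, nat_lit 0, nat_lit 0, nat_lit 90, nat_lit 0, nat_lit 0, [nat_lit 3282000000, nat_lit 6250000000, nat_lit 11872000000], [], [nat_lit 19252070080, nat_lit 22312729936, nat_lit 30727077984, nat_lit 32895076064, nat_lit 25047991504, nat_lit 27224824524, nat_lit 34001081284, nat_lit 35578831008], nat_lit 0, nat_lit 0, nat_lit 0, nat_lit 0, nat_lit 0, nat_lit 0, [], [nat_lit 23, nat_lit 40, nat_lit 40, nat_lit 80, nat_lit 12, nat_lit 538, nat_lit 300, nat_lit 13]⟩, ⟨p059_k21, nat_lit 0, nat_lit 0, nat_lit 564, nat_lit 0, nat_lit 526916, [nat_lit 4688000000, nat_lit 7968000000, nat_lit 14058000000], [], [nat_lit 33310422994, nat_lit 33417820916, nat_lit 39378805528, nat_lit 39463490147, nat_lit 31066627495, nat_lit 31146859792, nat_lit 34797376805, nat_lit 34824240756], nat_lit 1271250, nat_lit 1271250, nat_lit 1271250, nat_lit 1271250, nat_lit 0, nat_lit 2288250, [nat_lit 1100000, nat_lit 1785000, nat_lit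 1271250], [nat_lit 37, nat_lit 40, nat_lit 40, nat_lit 80, nat_lit 28, nat_lit 483, nat_lit 250, nat_lit 11]⟩,
 zbF0, [⟨nat_lit 4, nat_lit 100, nat_lit 90, nat_lit 74, nat_lit 593179011⟩, ⟨nat_lit 7, nat_lit 91, nat_lit 100, nat_lit 75, nat_lit 153155954⟩]⟩
noncomputable def p059_l53 : Lf2 := ⟨nat_lit 0, nat_lit 20, [nat_lit 5, nat_lit 5, nat_lit 5, nat_lit 20], false, nat_lit 160, nat_lit 300, nat_lit 0, nat_lit 320, ⟨nat_lit 1000, nat_lit 0, nat_lit 0, nat_lit 0, nat_lit 0, nat_lit 0, nat_lit 0, nat_lit 0, nat_lit 0, nat_lit 0, nat_lit 0, nat_lit 0, nat_lit 0, nat_lit 0, nat_lit 0, nat_lit 0, false, false⟩,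
 nat_lit 0, nat_lit 0, nat_lit 11148, nat_lit 0, nat_lit 6246, nat_lit 6489, nat_lit 0, nat_lit 0, nat_lit 0, nat_lit 1452, nat_lit 0, nat_lit 0, nat_lit 0, nat_lit 0, nat_lit 0, nat_lit 0, nat_lit 0, nat_lit 0, [],
 ⟨p059_k22, nat_lit 0, nat_lit 0, nat_lit 78, nat_lit 0, nat_lit 0, [nat_lit 3282000000, nat_lit 4688000000, nat_lit 11872000000], [], [nat_lit 17830403968, nat_lit 20657083328, nat_lit 29642119248, nat_lit 31747799024, nat_lit 23646468810, nat_lit 25847098130, nat_lit 33004868794, nat_lit 34513932628], nat_lit 0, nat_lit 0, nat_lit 0, nat_lit 0, nat_lit 0, nat_lit 0, [], [nat_lit 158, nat_lit 40, nat_lit 40, nat_lit 80, nat_lit 65, nat_lit 538, nat_lit 300, nat_lit 13]⟩, ⟨p059_k19, nat_lit 0, nat_lit 0, nat_lit 550, nat_lit 0, nat_lit 686983, [nat_lit 4688000000, nat_lit 6250000000, nat_lit 11872000000], [], [nat_lit 33589376944, nat_lit 33840921012, nat_lit 37290363052, nat_lit 37831877100, nat_lit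 30974811702, nat_lit 31143730576, nat_lit 33883026934, nat_lit 33997823772], nat_lit 1271250, nat_lit 1271250, nat_lit 1271250, nat_lit 1271250, nat_lit 0, nat_lit 2260000, [nat_lit 1100000, nat_lit 1442500, nat_lit 1271250], [nat_lit 48, nat_lit 40, nat_lit 40, nat_lit 80, nat_lit 12, nat_lit 483, nat_lit 250, nat_lit 12]⟩,
 zbF0, [⟨nat_lit 16, nat_lit 90, nat_lit 100, nat_lit 74, nat_lit 608094280⟩, ⟨nat_lit 7, nat_lit 97, nat_lit 100, nat_lit 76, nat_lit 165246154⟩]⟩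
noncomputable def b_V_700_600_10_35 : St := ⟨true, nat_lit 0, nat_lit 1, nat_lit 1, nat_lit 80, nat_lit 280, nat_lit 320, nat_lit 240, nat_lit 280, nat_lit 240, nat_lit 400, nat_lit 40, nat_lit 80, nat_lit 0, nat_lit 300, nat_lit 0, nat_lit 336, nat_lit 40, nat_lit 80, nat_lit 0, nat_lit 0, nat_lit 0, nat_lit 0⟩
theorem d_V_700_600_10_35 (h : EB TB.env) : Dead b_V_700_600_10_35 := chkB_sound0 h (T :=
(.spl (nat_lit 4) (nat_lit 160)
(.spl (nat_lit 1) (nat_lit 260)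
(.spl (nat_lit 0) (nat_lit 300)
(.leaf p059_l43)
(.trX (nat_lit 13) (nat_lit 91) (nat_lit 23) (nat_lit 100) (nat_lit 396) (.spl (nat_lit 5) (nat_lit 160)
(.leaf p059_l44)
(.leaf p059_l45))))
(.trX (nat_lit 19) (nat_lit 100) (nat_lit 85) (nat_lit 84) (nat_lit 320) (.spl (nat_lit 5) (nat_lit 160)
(.leaf p059_l46)
(.spl (nat_lit 0) (nat_lit 300)
(.leaf p059_l47)
(.leaf p059_l48)))))
(.spl (nat_lit 1) (nat_lit 260)
(.spl (nat_lit 1) (nat_lit 250)
(.spl (nat_lit 3) (nat_lit 60)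
(.trX (nat_lit 16) (nat_lit 99) (nat_lit 100) (nat_lit 77) (nat_lit 276) (.trX (nat_lit 19) (nat_lit 100) (nat_lit 85) (nat_lit 73) (nat_lit 312) (.leaf p059_l49)))
(.leaf p059_l50))
(.trX (nat_lit 19) (nat_lit 100) (nat_lit 81) (nat_lit 83) (nat_lit 328) (.spl (nat_lit 1) (nat_lit 255)
(.leaf p059_l51)
(.trX (nat_lit 19) (nat_lit 100) (nat_lit 83) (nat_lit 83) (nat_lit 324) (.leaf p059_l52)))))
(.trX (nat_lit 19) (nat_lit 100) (nat_lit 85) (nat_lit 84) (nat_lit 320) (.leaf p059_l53))))) (by decide +kernel)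
noncomputable def p059_l54 : Lf2 := ⟨nat_lit 0, nat_lit 20, [nat_lit 5, nat_lit 5, nat_lit 5, nat_lit 20], true, nat_lit 0, nat_lit 300, nat_lit 0, nat_lit 336, ⟨nat_lit 0, nat_lit 1000, nat_lit 0, nat_lit 6, nat_lit 181, nat_lit 1000, nat_lit 106, nat_lit 0, nat_lit 0, nat_lit 0, nat_lit 0, nat_lit 0, nat_lit 0, nat_lit 0, nat_lit 0, nat_lit 5000000, false, false⟩,
 nat_lit 0, nat_lit 0, nat_lit 0, nat_lit 5822, nat_lit 5853, nat_lit 0, nat_lit 0, nat_lit 0, nat_lit 0, nat_lit 0, nat_lit 0, nat_lit 0, nat_lit 0, nat_lit 0, nat_lit 7, nat_lit 721600, nat_lit 0, nat_lit 0, [(nat_lit 13, [(nat_lit 1, nat_lit 464), (nat_lit 2, nat_lit 536)]), (nat_lit 16, [(nat_lit 1, nat_lit 464), (nat_lit 2, nat_lit 536)])],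
 ⟨p059_k7, nat_lit 0, nat_lit 0, nat_lit 340, nat_lit 0, nat_lit 0, [nat_lit 3708960001, nat_lit 336229333], [], [nat_lit 26144201488, nat_lit 28012156642, nat_lit 24940759158, nat_lit 26797332997, nat_lit 25062054159, nat_lit 27045966307, nat_lit 24269378273, nat_lit 25594510602], nat_lit 0, nat_lit 0, nat_lit 0, nat_lit 0, nat_lit 0, nat_lit 0, [], [nat_lit 135, nat_lit 40, nat_lit 40, nat_lit 80, nat_lit 134, nat_lit 456, nat_lit 225, nat_lit 12]⟩, C1.Rw.none,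
 ⟨nat_lit 4472, nat_lit 5478, ⟨.ofNat (nat_lit 235487), .ofNat (nat_lit 617523), .ofNat (nat_lit 278138), .ofNat (nat_lit 660148), .ofNat (nat_lit 264421), .ofNat (nat_lit 610987), .ofNat (nat_lit 307491), .ofNat (nat_lit 654031)⟩, ⟨.negSucc (nat_lit 45522), .ofNat (nat_lit 516475), .negSucc (nat_lit 2834), .ofNat (nat_lit 559189), .negSucc (nat_lit 12423), .ofNat (nat_lit 497412), .ofNat (nat_lit 0), .ofNat (nat_lit 540545)⟩⟩, [⟨nat_lit 0, nat_lit 100, nat_lit 87, nat_lit 95, nat_lit 11058574⟩, ⟨nat_lit 16, nat_lit 90, nat_lit 100, nat_lit 74, nat_lit 68859930⟩]⟩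
noncomputable def p059_l55 : Lf2 := ⟨nat_lit 0, nat_lit 20, [nat_lit 5, nat_lit 5, nat_lit 5, nat_lit 20], false, nat_lit 0, nat_lit 300, nat_lit 0, nat_lit 336, ⟨nat_lit 1000, nat_lit 0, nat_lit 0, nat_lit 0, nat_lit 0, nat_lit 0, nat_lit 0, nat_lit 0, nat_lit 0, nat_lit 0, nat_lit 0, nat_lit 0, nat_lit 0, nat_lit 0, nat_lit 0, nat_lit 0, false, false⟩,
 nat_lit 0, nat_lit 0, nat_lit 0, nat_lit 18316, nat_lit 9442, nat_lit 9621, nat_lit 375, nat_lit 0, nat_lit 0, nat_lit 712, nat_lit 0, nat_lit 0, nat_lit 0, nat_lit 0, nat_lit 0, nat_lit 0, nat_lit 0, nat_lit 0, [],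
 ⟨p059_k5, nat_lit 0, nat_lit 0, nat_lit 251, nat_lit 0, nat_lit 0, [nat_lit 3282000000, nat_lit 7968000001, nat_lit 11872000000], [], [nat_lit 35013160000, nat_lit 36074509040, nat_lit 45393658175, nat_lit 46207670212, nat_lit 29844264948, nat_lit 30424561007, nat_lit 36503654638, nat_lit 37378801997], nat_lit 0, nat_lit 0, nat_lit 0, nat_lit 0, nat_lit 0, nat_lit 0, [], [nat_lit 79, nat_lit 40, nat_lit 40, nat_lit 80, nat_lit 14, nat_lit 483, nat_lit 250, nat_lit 12]⟩, ⟨p059_k6, nat_lit 0, nat_lit 0, nat_lit 293, nat_lit 0, nat_lit 0, [nat_lit 4688000000, nat_lit 9842000000, nat_lit 14058000000], [], [nat_lit 33676573136, nat_lit 35768111740, nat_lit 44927726768, nat_lit 45785941860, nat_lit 30344533196, nat_lit 31221849596, nat_lit 37581689237, nat_lit 38531731800], nat_lit 0, nat_lit 0, nat_lit 0, nat_lit 0, nat_lit 0, nat_lit 0, [], [nat_lit 56, nat_lit 40, nat_lit 40, nat_lit 80, nat_lit 32, nat_lit 538,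 nat_lit 300, nat_lit 12]⟩,
 zbF0, [⟨nat_lit 4, nat_lit 100, nat_lit 94, nat_lit 75, nat_lit 47481278⟩, ⟨nat_lit 19, nat_lit 100, nat_lit 92, nat_lit 75, nat_lit 108540978⟩]⟩
noncomputable def p059_l56 : Lf2 := ⟨nat_lit 0, nat_lit 20, [nat_lit 5, nat_lit 5, nat_lit 5, nat_lit 20], false, nat_lit 0, nat_lit 280, nat_lit 0, nat_lit 336, ⟨nat_lit 870, nat_lit 130, nat_lit 0, nat_lit 6, nat_lit 309, nat_lit 130, nat_lit 98, nat_lit 0, nat_lit 0, nat_lit 0, nat_lit 0, nat_lit 0, nat_lit 0, nat_lit 0, nat_lit 0, nat_lit 5000000, true, true⟩,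
 nat_lit 0, nat_lit 0, nat_lit 0, nat_lit 5297, nat_lit 8871, nat_lit 10247, nat_lit 0, nat_lit 0, nat_lit 0, nat_lit 0, nat_lit 0, nat_lit 0, nat_lit 0, nat_lit 0, nat_lit 0, nat_lit 32500, nat_lit 0, nat_lit 0, [(nat_lit 16, [(nat_lit 0, nat_lit 130)])],
 ⟨p059_k3, nat_lit 0, nat_lit 0, nat_lit 200, nat_lit 0, nat_lit 0, [nat_lit 3158916000, nat_lit 9002408000], [], [nat_lit 32830800374, nat_lit 34525752688, nat_lit 44761652784, nat_lit 46092821476, nat_lit 29024018038, nat_lit 30068829578, nat_lit 36513123185, nat_lit 37068031072], nat_lit 0, nat_lit 0, nat_lit 0, nat_lit 0, nat_lit 0, nat_lit 0, [], [nat_lit 82, nat_lit 40, nat_lit 40, nat_lit 80, nat_lit 63, nat_lit 401, nat_lit 175, nat_lit 11]⟩, ⟨p059_k9, nat_lit 0, nat_lit 0, nat_lit 256, nat_lit 0, nat_lit 0, [nat_lit 4078560000, nat_lit 12230460000], [], [nat_lit 37462752672, nat_lit 39473299740, nat_lit 48539804136, nat_lit 49269282940, nat_lit 32550212695,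 nat_lit 33306121680, nat_lit 37895183864, nat_lit 37924523771], nat_lit 0, nat_lit 0, nat_lit 0, nat_lit 0, nat_lit 0, nat_lit 0, [], [nat_lit 145, nat_lit 40, nat_lit 40, nat_lit 80, nat_lit 144, nat_lit 538, nat_lit 300, nat_lit 12]⟩,
 ⟨nat_lit 4472, nat_lit 5000, ⟨.ofNat (nat_lit 614256), .ofNat (nat_lit 899951), .ofNat (nat_lit 657088), .ofNat (nat_lit 942783), .ofNat (nat_lit 611081), .ofNat (nat_lit 882974), .ofNat (nat_lit 654189), .ofNat (nat_lit 926083)⟩, ⟨.negSucc (nat_lit 28572), .ofNat (nat_lit 471427), .ofNat (nat_lit 0), .ofNat (nat_lit 514284), .negSucc (nat_lit 12423), .ofNat (nat_lit 463423), .ofNat (nat_lit 0), .ofNat (nat_lit 506556)⟩⟩, []⟩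
noncomputable def p059_l57 : Lf2 := ⟨nat_lit 0, nat_lit 20, [nat_lit 5, nat_lit 5, nat_lit 5, nat_lit 20], true, nat_lit 0, nat_lit 300, nat_lit 0, nat_lit 336, ⟨nat_lit 0, nat_lit 1000, nat_lit 0, nat_lit 6, nat_lit 181, nat_lit 1000, nat_lit 106, nat_lit 0, nat_lit 0, nat_lit 0, nat_lit 0, nat_lit 0, nat_lit 0, nat_lit 0, nat_lit 0, nat_lit 5000000, false, false⟩,
 nat_lit 0, nat_lit 0, nat_lit 0, nat_lit 5822, nat_lit 5853, nat_lit 0, nat_lit 0, nat_lit 0, nat_lit 0, nat_lit 0, nat_lit 0, nat_lit 0, nat_lit 0, nat_lit 0, nat_lit 7, nat_lit 721600, nat_lit 0, nat_lit 0, [(nat_lit 13, [(nat_lit 1, nat_lit 464), (nat_lit 2, nat_lit 536)]), (nat_lit 16, [(nat_lit 1, nat_lit 464), (nat_lit 2, nat_lit 536)])],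
 ⟨p059_k7, nat_lit 0, nat_lit 0, nat_lit 340, nat_lit 0, nat_lit 0, [nat_lit 3708960001, nat_lit 336229333], [], [nat_lit 26144201488, nat_lit 28012156642, nat_lit 24940759158, nat_lit 26797332997, nat_lit 25062054159, nat_lit 27045966307, nat_lit 24269378273, nat_lit 25594510602], nat_lit 0, nat_lit 0, nat_lit 0, nat_lit 0, nat_lit 0, nat_lit 0, [], [nat_lit 135, nat_lit 40, nat_lit 40, nat_lit 80, nat_lit 134, nat_lit 456, nat_lit 225, nat_lit 12]⟩, C1.Rw.none,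
 ⟨nat_lit 4472, nat_lit 5478, ⟨.ofNat (nat_lit 235487), .ofNat (nat_lit 617523), .ofNat (nat_lit 278138), .ofNat (nat_lit 660148), .ofNat (nat_lit 264421), .ofNat (nat_lit 610987), .ofNat (nat_lit 307491), .ofNat (nat_lit 654031)⟩, ⟨.negSucc (nat_lit 45522), .ofNat (nat_lit 516475), .negSucc (nat_lit 2834), .ofNat (nat_lit 559189), .negSucc (nat_lit 12423), .ofNat (nat_lit 497412), .ofNat (nat_lit 0), .ofNat (nat_lit 540545)⟩⟩, [⟨nat_lit 0, nat_lit 100, nat_lit 87, nat_lit 95, nat_lit 11058574⟩, ⟨nat_lit 16, nat_lit 90, nat_lit 100, nat_lit 74, nat_lit 68859930⟩]⟩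
noncomputable def p059_l58 : Lf2 := ⟨nat_lit 0, nat_lit 20, [nat_lit 5, nat_lit 5, nat_lit 5, nat_lit 20], false, nat_lit 0, nat_lit 160, nat_lit 0, nat_lit 336, ⟨nat_lit 379, nat_lit 621, nat_lit 0, nat_lit 6, nat_lit 313, nat_lit 621, nat_lit 55, nat_lit 0, nat_lit 0, nat_lit 0, nat_lit 0, nat_lit 0, nat_lit 0, nat_lit 0, nat_lit 0, nat_lit 5000000, true, true⟩,
 nat_lit 0, nat_lit 0, nat_lit 5879, nat_lit 0, nat_lit 5063, nat_lit 3112, nat_lit 245, nat_lit 0, nat_lit 0, nat_lit 314, nat_lit 0, nat_lit 0, nat_lit 0, nat_lit 0, nat_lit 0, nat_lit 539400, nat_lit 0, nat_lit 0, [(nat_lit 13, [(nat_lit 1, nat_lit 136), (nat_lit 2, nat_lit 485)])],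
 ⟨p059_k17, nat_lit 0, nat_lit 0, nat_lit 240, nat_lit 0, nat_lit 0, [nat_lit 2657571067, nat_lit 3722393401, nat_lit 3640595200], [], [nat_lit 26586453640, nat_lit 27467094030, nat_lit 33680435275, nat_lit 34352902718, nat_lit 24254744351, nat_lit 24928528541, nat_lit 29764476820, nat_lit 30298420442], nat_lit 0, nat_lit 0, nat_lit 0, nat_lit 0, nat_lit 0, nat_lit 0, [], [nat_lit 23, nat_lit 40, nat_lit 40, nat_lit 80, nat_lit 12, nat_lit 456, nat_lit 225, nat_lit 11]⟩, ⟨p059_k15, nat_lit 0, nat_lit 0, nat_lit 548, nat_lit 0, nat_lit 474997, [nat_lit 1776752000, nat_lit 3019872000, nat_lit 5327982000], [], [nat_lit 14139969048, nat_lit 14465543728, nat_lit 16298150948, nat_lit 16628302784, nat_lit 12601356907, nat_lit 12703522088, nat_lit 13911658780, nat_lit 13970003574], nat_lit 1271250, nat_lit 1271250, nat_lit 1271250, nat_lit 1271250, nat_lit 0, nat_lit 2373000, [nat_lit 1100000, nat_lit 1785000, nat_lit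 1271250], [nat_lit 37, nat_lit 40, nat_lit 40, nat_lit 80, nat_lit 28, nat_lit 538, nat_lit 300, nat_lit 12]⟩,
 ⟨nat_lit 5000, nat_lit 5478, ⟨.ofNat (nat_lit 617614), .ofNat (nat_lit 917295), .ofNat (nat_lit 660309), .ofNat (nat_lit 959989), .ofNat (nat_lit 614253), .ofNat (nat_lit 899915), .ofNat (nat_lit 657090), .ofNat (nat_lit 942753)⟩, ⟨.negSucc (nat_lit 45522), .ofNat (nat_lit 254209), .negSucc (nat_lit 2832), .ofNat (nat_lit 296923), .negSucc (nat_lit 28572), .ofNat (nat_lit 257141), .ofNat (nat_lit 0), .ofNat (nat_lit 299999)⟩⟩, [⟨nat_lit 10, nat_lit 100, nat_lit 47, nat_lit 81, nat_lit 84505696⟩]⟩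
noncomputable def p059_l59 : Lf2 := ⟨nat_lit 0, nat_lit 20, [nat_lit 5, nat_lit 5, nat_lit 5, nat_lit 20], false, nat_lit 0, nat_lit 160, nat_lit 0, nat_lit 336, ⟨nat_lit 214, nat_lit 786, nat_lit 0, nat_lit 6, nat_lit 309, nat_lit 786, nat_lit 56, nat_lit 0, nat_lit 0, nat_lit 0, nat_lit 0, nat_lit 0, nat_lit 0, nat_lit 0, nat_lit 0, nat_lit 5000000, true, true⟩,
 nat_lit 0, nat_lit 0, nat_lit 3235, nat_lit 0, nat_lit 4379, nat_lit 1712, nat_lit 245, nat_lit 0, nat_lit 0, nat_lit 138, nat_lit 0, nat_lit 0, nat_lit 0, nat_lit 0, nat_lit 0, nat_lit 314400, nat_lit 0, nat_lit 0, [(nat_lit 16, [(nat_lit 1, nat_lit 786)])],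
 ⟨p059_k14, nat_lit 0, nat_lit 0, nat_lit 219, nat_lit 0, nat_lit 0, [nat_lit 2290225200, nat_lit 3223166401, nat_lit 3837950399], [], [nat_lit 26094200541, nat_lit 26930018925, nat_lit 32777016865, nat_lit 33525301524, nat_lit 24635560933, nat_lit 25346614089, nat_lit 29881226445, nat_lit 30399423177], nat_lit 0, nat_lit 0, nat_lit 0, nat_lit 0, nat_lit 0, nat_lit 0, [], [nat_lit 8, nat_lit 40, nat_lit 40, nat_lit 80, nat_lit 1, nat_lit 373, nat_lit 150, nat_lit 10]⟩, ⟨p059_k15, nat_lit 0, nat_lit 0, nat_lit 660, nat_lit 0, nat_lit 790362, [nat_lit 1003232000, nat_lit 1705152000, nat_lit 3008412000], [], [nat_lit 8988174328, nat_lit 9097112312, nat_lit 9719878848, nat_lit 9740395456, nat_lit 7989599996, nat_lit 8002642868, nat_lit 8285018607, nat_lit 8247937497], nat_lit 1271250, nat_lit 1271250, nat_lit 1271250, nat_lit 1271250, nat_lit 0, nat_lit 2373000, [nat_lit 1100000, nat_lit 1785000, nat_lit 1271250],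 [nat_lit 37, nat_lit 40, nat_lit 40, nat_lit 80, nat_lit 28, nat_lit 538, nat_lit 300, nat_lit 12]⟩,
 ⟨nat_lit 4472, nat_lit 5000, ⟨.ofNat (nat_lit 614256), .ofNat (nat_lit 899951), .ofNat (nat_lit 657088), .ofNat (nat_lit 942783), .ofNat (nat_lit 611081), .ofNat (nat_lit 882974), .ofNat (nat_lit 654189), .ofNat (nat_lit 926083)⟩, ⟨.negSucc (nat_lit 28572), .ofNat (nat_lit 257141), .ofNat (nat_lit 0), .ofNat (nat_lit 299999), .negSucc (nat_lit 12423), .ofNat (nat_lit 259489), .ofNat (nat_lit 0), .ofNat (nat_lit 302621)⟩⟩, [⟨nat_lit 13, nat_lit 88, nat_lit 29, nat_lit 100, nat_lit 92222997⟩, ⟨nat_lit 10, nat_lit 100, nat_lit 47, nat_lit 81, nat_lit 47982018⟩]⟩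
noncomputable def p059_l60 : Lf2 := ⟨nat_lit 0, nat_lit 20, [nat_lit 5, nat_lit 5, nat_lit 5, nat_lit 20], false, nat_lit 160, nat_lit 300, nat_lit 0, nat_lit 336, ⟨nat_lit 417, nat_lit 583, nat_lit 0, nat_lit 6, nat_lit 313, nat_lit 583, nat_lit 162, nat_lit 0, nat_lit 0, nat_lit 0, nat_lit 0, nat_lit 0, nat_lit 0, nat_lit 0, nat_lit 0, nat_lit 5000000, true, true⟩,
 nat_lit 0, nat_lit 0, nat_lit 6182, nat_lit 0, nat_lit 5312, nat_lit 3272, nat_lit 0, nat_lit 0, nat_lit 0, nat_lit 293, nat_lit 0, nat_lit 0, nat_lit 0, nat_lit 0, nat_lit 0, nat_lit 145750, nat_lit 0, nat_lit 0, [(nat_lit 13, [(nat_lit 0, nat_lit 583)])],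
 ⟨p059_k17, nat_lit 0, nat_lit 0, nat_lit 86, nat_lit 0, nat_lit 0, [nat_lit 2755201200, nat_lit 4429874000, nat_lit 7067983160], [], [nat_lit 19988703200, nat_lit 21146345088, nat_lit 29367833968, nat_lit 30164562432, nat_lit 24863984008, nat_lit 25813598028, nat_lit 32116018144, nat_lit 32701707016], nat_lit 0, nat_lit 0, nat_lit 0, nat_lit 0, nat_lit 0, nat_lit 0, [], [nat_lit 23, nat_lit 40, nat_lit 40, nat_lit 80, nat_lit 12, nat_lit 483, nat_lit 250, nat_lit 11]⟩, ⟨p059_k15, nat_lit 0, nat_lit 0, nat_lit 548, nat_lit 0, nat_lit 474997, [nat_lit 1954896000, nat_lit 3322656000, nat_lit 5862186000], [], [nat_lit 16366897300, nat_lit 16725146972, nat_lit 18468082744, nat_lit 18628654092, nat_lit 14855240639, nat_lit 14970822280, nat_lit 15857145396, nat_lit 15832757755], nat_lit 1271250, nat_lit 1271250, nat_lit 1271250, nat_lit 1271250, nat_lit 0, nat_lit 2373000, [nat_lit 1100000, nat_lit 1785000, nat_lit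 1271250], [nat_lit 37, nat_lit 40, nat_lit 40, nat_lit 80, nat_lit 28, nat_lit 538, nat_lit 300, nat_lit 12]⟩,
 ⟨nat_lit 5000, nat_lit 5478, ⟨.ofNat (nat_lit 617614), .ofNat (nat_lit 917295), .ofNat (nat_lit 660309), .ofNat (nat_lit 959989), .ofNat (nat_lit 614253), .ofNat (nat_lit 899915), .ofNat (nat_lit 657090), .ofNat (nat_lit 942753)⟩, ⟨.ofNat (nat_lit 254209), .ofNat (nat_lit 516475), .ofNat (nat_lit 296923), .ofNat (nat_lit 559189), .ofNat (nat_lit 257141), .ofNat (nat_lit 507141), .ofNat (nat_lit 299999), .ofNat (nat_lit 549998)⟩⟩, [⟨nat_lit 13, nat_lit 94, nat_lit 17, nat_lit 100, nat_lit 90152292⟩, ⟨nat_lit 4, nat_lit 100, nat_lit 94, nat_lit 75, nat_lit 329918369⟩, ⟨nat_lit 7, nat_lit 92, nat_lit 100, nat_lit 75, nat_lit 49819128⟩]⟩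
noncomputable def p059_l61 : Lf2 := ⟨nat_lit 0, nat_lit 20, [nat_lit 5, nat_lit 5, nat_lit 5, nat_lit 20], false, nat_lit 160, nat_lit 280, nat_lit 0, nat_lit 336, ⟨nat_lit 256, nat_lit 744, nat_lit 0, nat_lit 6, nat_lit 309, nat_lit 744, nat_lit 154, nat_lit 0, nat_lit 0, nat_lit 0, nat_lit 0, nat_lit 0, nat_lit 0, nat_lit 0, nat_lit 0, nat_lit 5000000, true, true⟩,
 nat_lit 0, nat_lit 0, nat_lit 4031, nat_lit 0, nat_lit 4786, nat_lit 2133, nat_lit 0, nat_lit 0, nat_lit 0, nat_lit 199, nat_lit 0, nat_lit 0, nat_lit 0, nat_lit 0, nat_lit 0, nat_lit 186000, nat_lit 0, nat_lit 0, [(nat_lit 16, [(nat_lit 0, nat_lit 744)])],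
 ⟨p059_k14, nat_lit 0, nat_lit 0, nat_lit 90, nat_lit 0, nat_lit 0, [nat_lit 2577580800, nat_lit 3642825601, nat_lit 5036950400], [], [nat_lit 21188059465, nat_lit 22289038529, nat_lit 29481853497, nat_lit 30251455089, nat_lit 24764172517, nat_lit 25627457345, nat_lit 31556203369, nat_lit 32210441864], nat_lit 0, nat_lit 0, nat_lit 0, nat_lit 0, nat_lit 0, nat_lit 0, [], [nat_lit 8, nat_lit 40, nat_lit 40, nat_lit 80, nat_lit 1, nat_lit 401, nat_lit 175, nat_lit 10]⟩, ⟨p059_k15, nat_lit 0, nat_lit 0, nat_lit 660, nat_lit 0, nat_lit 790362, [nat_lit 1200128000, nat_lit 2039808000, nat_lit 3598848000], [], [nat_lit 10154753332, nat_lit 10282305428, nat_lit 11178756892, nat_lit 11401478576, nat_lit 8897609334, nat_lit 8971060804, nat_lit 9511129238, nat_lit 9497154561], nat_lit 1271250, nat_lit 1271250, nat_lit 1271250, nat_lit 1271250, nat_lit 0, nat_lit 2373000, [nat_lit 1100000, nat_lit 1785000, nat_lit 1271250],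 [nat_lit 37, nat_lit 40, nat_lit 40, nat_lit 80, nat_lit 28, nat_lit 538, nat_lit 300, nat_lit 12]⟩,
 ⟨nat_lit 4472, nat_lit 5000, ⟨.ofNat (nat_lit 614256), .ofNat (nat_lit 899951), .ofNat (nat_lit 657088), .ofNat (nat_lit 942783), .ofNat (nat_lit 611081), .ofNat (nat_lit 882974), .ofNat (nat_lit 654189), .ofNat (nat_lit 926083)⟩, ⟨.ofNat (nat_lit 257141), .ofNat (nat_lit 471427), .ofNat (nat_lit 299999), .ofNat (nat_lit 514284), .ofNat (nat_lit 259489), .ofNat (nat_lit 463423), .ofNat (nat_lit 302621), .ofNat (nat_lit 506556)⟩⟩, [⟨nat_lit 13, nat_lit 94, nat_lit 12, nat_lit 100, nat_lit 161377434⟩, ⟨nat_lit 4, nat_lit 100, nat_lit 85, nat_lit 73, nat_lit 328922319⟩, ⟨nat_lit 7, nat_lit 92, nat_lit 100, nat_lit 75, nat_lit 26425569⟩]⟩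
noncomputable def b_V_700_600_10_36 : St := ⟨true, nat_lit 0, nat_lit 2, nat_lit 2, nat_lit 80, nat_lit 280, nat_lit 320, nat_lit 240, nat_lit 280, nat_lit 36, nat_lit 400, nat_lit 40, nat_lit 80, nat_lit 0, nat_lit 300, nat_lit 0, nat_lit 336, nat_lit 40, nat_lit 80, nat_lit 0, nat_lit 0, nat_lit 0, nat_lit 0⟩
theorem d_V_700_600_10_36 (h : EB TB.env) : Dead b_V_700_600_10_36 := chkB_sound0 h (T :=
(.st (nat_lit 1)
(.spl (nat_lit 2) (nat_lit 240)
(.leaf p059_l54)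
(.spl (nat_lit 0) (nat_lit 300)
(.leaf p059_l55)
(.trX (nat_lit 16) (nat_lit 94) (nat_lit 100) (nat_lit 87) (nat_lit 280) (.leaf p059_l56))))
(.spl (nat_lit 2) (nat_lit 240)
(.leaf p059_l57)
(.spl (nat_lit 4) (nat_lit 160)
(.spl (nat_lit 0) (nat_lit 300)
(.leaf p059_l58)
(.leaf p059_l59))
(.spl (nat_lit 0) (nat_lit 300)
(.leaf p059_l60)
(.trX (nat_lit 16) (nat_lit 94) (nat_lit 100) (nat_lit 87) (nat_lit 280) (.leaf p059_l61))))))) (by decide +kernel)
noncomputable def p059_l62 : Lf2 := ⟨nat_lit 0, nat_lit 15, [nat_lit 30, nat_lit 5, nat_lit 5, nat_lit 20], true, nat_lit 0, nat_lit 80, nat_lit 0, nat_lit 312, ⟨nat_lit 0, nat_lit 0, nat_lit 1000, nat_lit 6, nat_lit 122, nat_lit 0, nat_lit 24, nat_lit 783, nat_lit 3267, nat_lit 229, nat_lit 138017, nat_lit 306, nat_lit 61318821, nat_lit 0, nat_lit 0, nat_lit 1451616, false, false⟩,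
 nat_lit 0, nat_lit 5510, nat_lit 0, nat_lit 0, nat_lit 3506, nat_lit 0, nat_lit 0, nat_lit 0, nat_lit 0, nat_lit 0, nat_lit 0, nat_lit 0, nat_lit 0, nat_lit 0, nat_lit 144, nat_lit 632200, nat_lit 0, nat_lit 0, [(nat_lit 13, [(nat_lit 5, nat_lit 613), (nat_lit 6, nat_lit 387)])],
 ⟨p059_k0, nat_lit 0, nat_lit 0, nat_lit 345, nat_lit 0, nat_lit 202231, [nat_lit 2936346000, nat_lit 2113390534, nat_lit 18060000], [], [nat_lit 14556798089, nat_lit 15968436786, nat_lit 13924179896, nat_lit 15225980124, nat_lit 13146603815, nat_lit 14227626828, nat_lit 12966797912, nat_lit 14006069812], nat_lit 1271250, nat_lit 1271250, nat_lit 205650, nat_lit 490000, nat_lit 0, nat_lit 490000, [nat_lit 780000, nat_lit 1435000, nat_lit 1271250], [nat_lit 8, nat_lit 40, nat_lit 40, nat_lit 80, nat_lit 1, nat_lit 249, nat_lit 40, nat_lit 7]⟩, C1.Rw.none,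
 ⟨nat_lit 5000, nat_lit 5478, ⟨.ofNat (nat_lit 235487), .ofNat (nat_lit 317913), .ofNat (nat_lit 278201), .ofNat (nat_lit 360625), .ofNat (nat_lit 249999), .ofNat (nat_lit 328570), .ofNat (nat_lit 292856), .ofNat (nat_lit 371424)⟩, ⟨.negSucc (nat_lit 45522), .ofNat (nat_lit 104343), .negSucc (nat_lit 24165), .ofNat (nat_lit 125700), .negSucc (nat_lit 28572), .ofNat (nat_lit 114284), .negSucc (nat_lit 7143), .ofNat (nat_lit 135713)⟩⟩, [⟨nat_lit 0, nat_lit 100, nat_lit 94, nat_lit 88, nat_lit 195305641⟩]⟩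
noncomputable def p059_l63 : Lf2 := ⟨nat_lit 0, nat_lit 14, [nat_lit 119, nat_lit 5, nat_lit 5, nat_lit 20], true, nat_lit 0, nat_lit 80, nat_lit 0, nat_lit 336, ⟨nat_lit 0, nat_lit 0, nat_lit 1000, nat_lit 6, nat_lit 122, nat_lit 0, nat_lit 28, nat_lit 848, nat_lit 6667, nat_lit 235, nat_lit 138017, nat_lit 306, nat_lit 61318821, nat_lit 0, nat_lit 0, nat_lit 1451616, false, false⟩,
 nat_lit 0, nat_lit 5526, nat_lit 0, nat_lit 2471, nat_lit 3516, nat_lit 0, nat_lit 0, nat_lit 0, nat_lit 0, nat_lit 0, nat_lit 0, nat_lit 0, nat_lit 0, nat_lit 0, nat_lit 159, nat_lit 700000, nat_lit 0, nat_lit 0, [(nat_lit 13, [(nat_lit 5, nat_lit 500), (nat_lit 6, nat_lit 500)])],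
 ⟨p059_k2, nat_lit 0, nat_lit 0, nat_lit 304, nat_lit 0, nat_lit 81411, [nat_lit 3104066667, nat_lit 2346600000, nat_lit 6400000], [], [nat_lit 14132861237, nat_lit 15987429762, nat_lit 13452224390, nat_lit 14800252224, nat_lit 12724457586, nat_lit 13881433071, nat_lit 12616744523, nat_lit 13782330662], nat_lit 1271250, nat_lit 1271250, nat_lit 205650, nat_lit 490000, nat_lit 0, nat_lit 490000, [nat_lit 780000, nat_lit 1435000, nat_lit 1271250], [nat_lit 8, nat_lit 40, nat_lit 40, nat_lit 80, nat_lit 1, nat_lit 249, nat_lit 40, nat_lit 7]⟩, C1.Rw.none,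
 ⟨nat_lit 5000, nat_lit 5478, ⟨.ofNat (nat_lit 235487), .ofNat (nat_lit 317913), .ofNat (nat_lit 278201), .ofNat (nat_lit 360625), .ofNat (nat_lit 249999), .ofNat (nat_lit 328570), .ofNat (nat_lit 292856), .ofNat (nat_lit 371424)⟩, ⟨.negSucc (nat_lit 24165), .ofNat (nat_lit 125700), .negSucc (nat_lit 2832), .ofNat (nat_lit 147057), .negSucc (nat_lit 7143), .ofNat (nat_lit 135713), .ofNat (nat_lit 0), .ofNat (nat_lit 157141)⟩⟩, [⟨nat_lit 0, nat_lit 100, nat_lit 94, nat_lit 88, nat_lit 249206944⟩]⟩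
noncomputable def p059_l64 : Lf2 := ⟨nat_lit 1, nat_lit 20, [nat_lit 5, nat_lit 5, nat_lit 5, nat_lit 20], false, nat_lit 0, nat_lit 80, nat_lit 0, nat_lit 336, zbN0,
 nat_lit 0, nat_lit 0, nat_lit 0, nat_lit 0, nat_lit 0, nat_lit 0, nat_lit 0, nat_lit 0, nat_lit 0, nat_lit 0, nat_lit 0, nat_lit 0, nat_lit 0, nat_lit 0, nat_lit 0, nat_lit 0, nat_lit 0, nat_lit 0, [],
 C1.Rw.none, C1.Rw.none,
 zbF0, []⟩
noncomputable def p059_l65 : Lf2 := ⟨nat_lit 0, nat_lit 20, [nat_lit 5, nat_lit 5, nat_lit 5, nat_lit 20], true, nat_lit 0, nat_lit 80, nat_lit 0, nat_lit 336, ⟨nat_lit 0, nat_lit 0, nat_lit 1000, nat_lit 6, nat_lit 131, nat_lit 0, nat_lit 28, nat_lit 704, nat_lit 6667, nat_lit 235, nat_lit 160067, nat_lit 313, nat_lit 60510719, nat_lit 0, nat_lit 0, nat_lit 1590582, false, false⟩,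
 nat_lit 0, nat_lit 5713, nat_lit 0, nat_lit 0, nat_lit 3955, nat_lit 0, nat_lit 0, nat_lit 0, nat_lit 0, nat_lit 0, nat_lit 0, nat_lit 0, nat_lit 0, nat_lit 0, nat_lit 134, nat_lit 499000, nat_lit 0, nat_lit 0, [(nat_lit 16, [(nat_lit 5, nat_lit 835), (nat_lit 6, nat_lit 165)])],
 ⟨p059_k3, nat_lit 0, nat_lit 0, nat_lit 404, nat_lit 0, nat_lit 298582, [nat_lit 3141204000, nat_lit 55224000], [], [nat_lit 16351691994, nat_lit 18525116984, nat_lit 15782123280, nat_lit 17560018920, nat_lit 14840214945, nat_lit 16061609461, nat_lit 14712313300, nat_lit 16023449060], nat_lit 1271250, nat_lit 1271250, nat_lit 279600, nat_lit 490000, nat_lit 0, nat_lit 490000, [nat_lit 780000, nat_lit 2090000], [nat_lit 82, nat_lit 40, nat_lit 40, nat_lit 80, nat_lit 63, nat_lit 249, nat_lit 40, nat_lit 7]⟩, C1.Rw.none,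
 ⟨nat_lit 4472, nat_lit 5000, ⟨.ofNat (nat_lit 271418), .ofNat (nat_lit 328559), .ofNat (nat_lit 314253), .ofNat (nat_lit 371392), .ofNat (nat_lit 284805), .ofNat (nat_lit 339186), .ofNat (nat_lit 327916), .ofNat (nat_lit 382295)⟩, ⟨.negSucc (nat_lit 28572), .ofNat (nat_lit 114284), .ofNat (nat_lit 0), .ofNat (nat_lit 157141), .negSucc (nat_lit 12423), .ofNat (nat_lit 123532), .ofNat (nat_lit 0), .ofNat (nat_lit 166665)⟩⟩, [⟨nat_lit 0, nat_lit 100, nat_lit 88, nat_lit 81, nat_lit 661030928⟩]⟩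
noncomputable def p059_l66 : Lf2 := ⟨nat_lit 0, nat_lit 20, [nat_lit 5, nat_lit 5, nat_lit 5, nat_lit 20], true, nat_lit 80, nat_lit 160, nat_lit 0, nat_lit 336, ⟨nat_lit 0, nat_lit 0, nat_lit 1000, nat_lit 6, nat_lit 122, nat_lit 1000, nat_lit 82, nat_lit 1000, nat_lit 62017, nat_lit 276, nat_lit 138017, nat_lit 306, nat_lit 57656550, nat_lit 0, nat_lit 0, nat_lit 2614717, false, false⟩,
 nat_lit 0, nat_lit 8286, nat_lit 0, nat_lit 0, nat_lit 5272, nat_lit 0, nat_lit 486, nat_lit 0, nat_lit 0, nat_lit 0, nat_lit 0, nat_lit 0, nat_lit 0, nat_lit 0, nat_lit 84, nat_lit 345100, nat_lit 0, nat_lit 0, [(nat_lit 13, [(nat_lit 4, nat_lit 366), (nat_lit 5, nat_lit 634)])],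
 ⟨p059_k17, nat_lit 0, nat_lit 0, nat_lit 345, nat_lit 0, nat_lit 205498, [nat_lit 2699356800, nat_lit 1232120534, nat_lit 450470400], [], [nat_lit 12778111211, nat_lit 14282850817, nat_lit 11545176666, nat_lit 12940760682, nat_lit 12914755499, nat_lit 14902738700, nat_lit 12317686988, nat_lit 13551764192], nat_lit 1271250, nat_lit 1271250, nat_lit 205650, nat_lit 490000, nat_lit 490000, nat_lit 1100001, [nat_lit 780000, nat_lit 1435000, nat_lit 1271250], [nat_lit 23, nat_lit 40, nat_lit 40, nat_lit 80, nat_lit 12, nat_lit 373, nat_lit 150, nat_lit 10]⟩, C1.Rw.none,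
 ⟨nat_lit 5000, nat_lit 5478, ⟨.ofNat (nat_lit 235487), .ofNat (nat_lit 317913), .ofNat (nat_lit 278201), .ofNat (nat_lit 360625), .ofNat (nat_lit 249999), .ofNat (nat_lit 328570), .ofNat (nat_lit 292856), .ofNat (nat_lit 371424)⟩, ⟨.ofNat (nat_lit 104343), .ofNat (nat_lit 254209), .ofNat (nat_lit 147057), .ofNat (nat_lit 296923), .ofNat (nat_lit 114284), .ofNat (nat_lit 257141), .ofNat (nat_lit 157141), .ofNat (nat_lit 299999)⟩⟩, [⟨nat_lit 0, nat_lit 100, nat_lit 94, nat_lit 88, nat_lit 268991034⟩]⟩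
noncomputable def p059_l67 : Lf2 := ⟨nat_lit 0, nat_lit 20, [nat_lit 5, nat_lit 5, nat_lit 5, nat_lit 20], true, nat_lit 80, nat_lit 160, nat_lit 0, nat_lit 336, ⟨nat_lit 0, nat_lit 0, nat_lit 1000, nat_lit 6, nat_lit 131, nat_lit 1000, nat_lit 84, nat_lit 1000, nat_lit 66150, nat_lit 278, nat_lit 160067, nat_lit 313, nat_lit 56700131, nat_lit 0, nat_lit 0, nat_lit 2790579, false, false⟩,
 nat_lit 0, nat_lit 6687, nat_lit 0, nat_lit 0, nat_lit 4629, nat_lit 0, nat_lit 0, nat_lit 0, nat_lit 0, nat_lit 0, nat_lit 0, nat_lit 0, nat_lit 0, nat_lit 0, nat_lit 150, nat_lit 561400, nat_lit 0, nat_lit 0, [(nat_lit 16, [(nat_lit 5, nat_lit 731), (nat_lit 6, nat_lit 269)])],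
 ⟨p059_k3, nat_lit 0, nat_lit 0, nat_lit 303, nat_lit 0, nat_lit 298582, [nat_lit 3466074400, nat_lit 2526400], [], [nat_lit 13473683649, nat_lit 15697192012, nat_lit 12890334096, nat_lit 14835786424, nat_lit 14213862536, nat_lit 16309611327, nat_lit 13548929510, nat_lit 15583145176], nat_lit 1271250, nat_lit 1271250, nat_lit 279600, nat_lit 490000, nat_lit 490000, nat_lit 1100001, [nat_lit 780000, nat_lit 2090000], [nat_lit 82, nat_lit 40, nat_lit 40, nat_lit 80, nat_lit 63, nat_lit 272, nat_lit 60, nat_lit 8]⟩, C1.Rw.none,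
 ⟨nat_lit 4472, nat_lit 5000, ⟨.ofNat (nat_lit 271418), .ofNat (nat_lit 328559), .ofNat (nat_lit 314253), .ofNat (nat_lit 371392), .ofNat (nat_lit 284805), .ofNat (nat_lit 339186), .ofNat (nat_lit 327916), .ofNat (nat_lit 382295)⟩, ⟨.ofNat (nat_lit 114284), .ofNat (nat_lit 257141), .ofNat (nat_lit 157141), .ofNat (nat_lit 299999), .ofNat (nat_lit 123532), .ofNat (nat_lit 259489), .ofNat (nat_lit 166665), .ofNat (nat_lit 302621)⟩⟩, [⟨nat_lit 0, nat_lit 100, nat_lit 88, nat_lit 81, nat_lit 749356738⟩]⟩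
noncomputable def p059_l68 : Lf2 := ⟨nat_lit 0, nat_lit 15, [nat_lit 30, nat_lit 5, nat_lit 5, nat_lit 20], false, nat_lit 0, nat_lit 160, nat_lit 0, nat_lit 160, ⟨nat_lit 1000, nat_lit 0, nat_lit 0, nat_lit 0, nat_lit 0, nat_lit 0, nat_lit 0, nat_lit 0, nat_lit 0, nat_lit 0, nat_lit 0, nat_lit 0, nat_lit 0, nat_lit 0, nat_lit 0, nat_lit 0, false, false⟩,
 nat_lit 0, nat_lit 14806, nat_lit 0, nat_lit 0, nat_lit 9422, nat_lit 8120, nat_lit 1441, nat_lit 0, nat_lit 0, nat_lit 1801, nat_lit 0, nat_lit 0, nat_lit 0, nat_lit 0, nat_lit 0, nat_lit 0, nat_lit 0, nat_lit 0, [],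
 ⟨p059_k0, nat_lit 0, nat_lit 0, nat_lit 368, nat_lit 0, nat_lit 350498, [nat_lit 3282000000, nat_lit 6250000000, nat_lit 9842000000], [], [nat_lit 21600386077, nat_lit 22995680260, nat_lit 20665832413, nat_lit 22666106784, nat_lit 17383348120, nat_lit 17425971464, nat_lit 25173050656, nat_lit 20850500872], nat_lit 1271250, nat_lit 1271250, nat_lit 490000, nat_lit 1100001, nat_lit 0, nat_lit 1100001, [nat_lit 780000, nat_lit 1435000, nat_lit 1271250], [nat_lit 8, nat_lit 40, nat_lit 40, nat_lit 80, nat_lit 1, nat_lit 317, nat_lit 100, nat_lit 9]⟩, ⟨p059_k11, nat_lit 0, nat_lit 0, nat_lit 235, nat_lit 0, nat_lit 0, [nat_lit 4688000000, nat_lit 7968000000, nat_lit 11872000000], [], [nat_lit 20513832380, nat_lit 23723282880, nat_lit 20177054880, nat_lit 23696192320, nat_lit 16093137280, nat_lit 19035370080, nat_lit 16517339200, nat_lit 19092488480], nat_lit 0, nat_lit 0, nat_lit 0, nat_lit 0, nat_lit 0, nat_lit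 0, [], [nat_lit 21, nat_lit 40, nat_lit 40, nat_lit 80, nat_lit 14, nat_lit 373, nat_lit 150, nat_lit 10]⟩,
 zbF0, [⟨nat_lit 0, nat_lit 100, nat_lit 94, nat_lit 88, nat_lit 242326279⟩]⟩
noncomputable def p059_l69 : Lf2 := ⟨nat_lit 0, nat_lit 15, [nat_lit 30, nat_lit 5, nat_lit 5, nat_lit 20], false, nat_lit 0, nat_lit 160, nat_lit 160, nat_lit 312, ⟨nat_lit 1000, nat_lit 0, nat_lit 0, nat_lit 0, nat_lit 0, nat_lit 0, nat_lit 0, nat_lit 0, nat_lit 0, nat_lit 0, nat_lit 0, nat_lit 0, nat_lit 0, nat_lit 0, nat_lit 0, nat_lit 0, false, false⟩,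
 nat_lit 0, nat_lit 13854, nat_lit 0, nat_lit 0, nat_lit 8816, nat_lit 8311, nat_lit 1509, nat_lit 0, nat_lit 0, nat_lit 0, nat_lit 0, nat_lit 0, nat_lit 0, nat_lit 0, nat_lit 0, nat_lit 0, nat_lit 0, nat_lit 0, [],
 ⟨p059_k0, nat_lit 0, nat_lit 0, nat_lit 368, nat_lit 0, nat_lit 350498, [nat_lit 3282000000, nat_lit 6250000000, nat_lit 9842000000], [], [nat_lit 22214314281, nat_lit 23553470633, nat_lit 21442963689, nat_lit 23360417952, nat_lit 18832015360, nat_lit 18540882992, nat_lit 26277638368, nat_lit 22233104416], nat_lit 1271250, nat_lit 1271250, nat_lit 490000, nat_lit 1100001, nat_lit 0, nat_lit 1100001, [nat_lit 780000, nat_lit 1435000, nat_lit 1271250], [nat_lit 8, nat_lit 40, nat_lit 40, nat_lit 80, nat_lit 1, nat_lit 317, nat_lit 100, nat_lit 9]⟩, ⟨p059_k11, nat_lit 0, nat_lit 0, nat_lit 69, nat_lit 0, nat_lit 0, [nat_lit 4688000000, nat_lit 7968000000, nat_lit 11872000000], [], [nat_lit 6160571300,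 nat_lit 10581304096, nat_lit 7363851928, nat_lit 11241145656, nat_lit 19799785770, nat_lit 23161563458, nat_lit 19259766991, nat_lit 22240740352], nat_lit 0, nat_lit 0, nat_lit 0, nat_lit 0, nat_lit 0, nat_lit 0, [], [nat_lit 21, nat_lit 40, nat_lit 40, nat_lit 80, nat_lit 14, nat_lit 428, nat_lit 200, nat_lit 11]⟩,
 zbF0, [⟨nat_lit 0, nat_lit 100, nat_lit 94, nat_lit 88, nat_lit 225567417⟩, ⟨nat_lit 7, nat_lit 96, nat_lit 100, nat_lit 69, nat_lit 922328784⟩]⟩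
noncomputable def p059_l70 : Lf2 := ⟨nat_lit 1, nat_lit 15, [nat_lit 30, nat_lit 5, nat_lit 5, nat_lit 20], false, nat_lit 0, nat_lit 160, nat_lit 0, nat_lit 312, zbN0,
 nat_lit 0, nat_lit 0, nat_lit 0, nat_lit 0, nat_lit 0, nat_lit 0, nat_lit 0, nat_lit 0, nat_lit 0, nat_lit 0, nat_lit 0, nat_lit 0, nat_lit 0, nat_lit 0, nat_lit 0, nat_lit 0, nat_lit 0, nat_lit 0, [],
 C1.Rw.none, C1.Rw.none,
 zbF0, []⟩
noncomputable def p059_l71 : Lf2 := ⟨nat_lit 0, nat_lit 14, [nat_lit 119, nat_lit 5, nat_lit 5, nat_lit 20], true, nat_lit 0, nat_lit 160, nat_lit 0, nat_lit 336, ⟨nat_lit 0, nat_lit 0, nat_lit 1000, nat_lit 6, nat_lit 166, nat_lit 639, nat_lit 57, nat_lit 1000, nat_lit 28017, nat_lit 256, nat_lit 25034, nat_lit 253, nat_lit 57115499, nat_lit 0, nat_lit 0, nat_lit 2092000, false, false⟩,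
 nat_lit 0, nat_lit 5261, nat_lit 0, nat_lit 4026, nat_lit 3347, nat_lit 0, nat_lit 0, nat_lit 0, nat_lit 0, nat_lit 0, nat_lit 0, nat_lit 0, nat_lit 0, nat_lit 0, nat_lit 176, nat_lit 773200, nat_lit 0, nat_lit 0, [(nat_lit 13, [(nat_lit 5, nat_lit 378), (nat_lit 6, nat_lit 622)])],
 ⟨p059_k2, nat_lit 0, nat_lit 0, nat_lit 213, nat_lit 0, nat_lit 46865, [nat_lit 3294809334, nat_lit 2614489867, nat_lit 16360000], [], [nat_lit 12925321240, nat_lit 13584756789, nat_lit 14190884781, nat_lit 14832279637, nat_lit 13282304985, nat_lit 13885846415, nat_lit 14568142165, nat_lit 15166015112], nat_lit 1271250, nat_lit 1271250, nat_lit 490000, nat_lit 1100001, nat_lit 0, nat_lit 1100001, [nat_lit 780000, nat_lit 1435000, nat_lit 1271250], [nat_lit 8, nat_lit 40, nat_lit 40, nat_lit 80, nat_lit 1, nat_lit 317, nat_lit 100, nat_lit 9]⟩, C1.Rw.none,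
 ⟨nat_lit 5244, nat_lit 5478, ⟨.ofNat (nat_lit 317913), .ofNat (nat_lit 467779), .ofNat (nat_lit 360628), .ofNat (nat_lit 510489), .ofNat (nat_lit 323256), .ofNat (nat_lit 469597), .ofNat (nat_lit 366027), .ofNat (nat_lit 512365)⟩, ⟨.negSucc (nat_lit 24165), .ofNat (nat_lit 275566), .negSucc (nat_lit 2827), .ofNat (nat_lit 296923), .negSucc (nat_lit 15554), .ofNat (nat_lit 277129), .ofNat (nat_lit 0), .ofNat (nat_lit 298515)⟩⟩, []⟩
noncomputable def p059_l72 : Lf2 := ⟨nat_lit 0, nat_lit 14, [nat_lit 119, nat_lit 5, nat_lit 5, nat_lit 20], false, nat_lit 0, nat_lit 160, nat_lit 0, nat_lit 336, ⟨nat_lit 332, nat_lit 0, nat_lit 668, nat_lit 6, nat_lit 168, nat_lit 668, nat_lit 58, nat_lit 668, nat_lit 29400, nat_lit 257, nat_lit 24731, nat_lit 252, nat_lit 56968980, nat_lit 0, nat_lit 0, nat_lit 2111085, false, false⟩,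
 nat_lit 0, nat_lit 7484, nat_lit 0, nat_lit 1290, nat_lit 4970, nat_lit 3582, nat_lit 673, nat_lit 0, nat_lit 0, nat_lit 429, nat_lit 0, nat_lit 0, nat_lit 0, nat_lit 0, nat_lit 0, nat_lit 267200, nat_lit 0, nat_lit 0, [(nat_lit 13, [(nat_lit 5, nat_lit 668)])],
 ⟨p059_k23, nat_lit 0, nat_lit 0, nat_lit 291, nat_lit 0, nat_lit 135126, [nat_lit 1924891201, nat_lit 1715705067, nat_lit 1573763200], [], [nat_lit 15974682284, nat_lit 16742325580, nat_lit 16745101914, nat_lit 17428010474, nat_lit 15159099125, nat_lit 15482037255, nat_lit 20451907975, nat_lit 19311859555], nat_lit 1271250, nat_lit 1271250, nat_lit 490000, nat_lit 1100001, nat_lit 0, nat_lit 1100001, [nat_lit 780000, nat_lit 1435000, nat_lit 1271250], [nat_lit 8, nat_lit 40, nat_lit 40, nat_lit 80, nat_lit 1, nat_lit 317, nat_lit 100, nat_lit 9]⟩, ⟨p059_k13, nat_lit 0, nat_lit 0, nat_lit 235, nat_lit 0, nat_lit 0, [nat_lit 1556416000, nat_lit 2645376000,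 nat_lit 3941504000], [], [nat_lit 8356783220, nat_lit 9627222004, nat_lit 7892858724, nat_lit 9012243300, nat_lit 8772783374, nat_lit 9351818605, nat_lit 7964580786, nat_lit 8657533524], nat_lit 0, nat_lit 0, nat_lit 0, nat_lit 0, nat_lit 0, nat_lit 0, [], [nat_lit 21, nat_lit 40, nat_lit 40, nat_lit 80, nat_lit 14, nat_lit 428, nat_lit 200, nat_lit 11]⟩,
 ⟨nat_lit 5000, nat_lit 5245, ⟨.ofNat (nat_lit 323256), .ofNat (nat_lit 469596), .ofNat (nat_lit 366025), .ofNat (nat_lit 512362), .ofNat (nat_lit 328570), .ofNat (nat_lit 471425), .ofNat (nat_lit 371426), .ofNat (nat_lit 514278)⟩, ⟨.negSucc (nat_lit 15554), .ofNat (nat_lit 277129), .ofNat (nat_lit 0), .ofNat (nat_lit 298515), .negSucc (nat_lit 7143), .ofNat (nat_lit 278570), .ofNat (nat_lit 0), .ofNat (nat_lit 299999)⟩⟩, [⟨nat_lit 7, nat_lit 89, nat_lit 100, nat_lit 80, nat_lit 73483792⟩]⟩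
noncomputable def p059_l73 : Lf2 := ⟨nat_lit 1, nat_lit 20, [nat_lit 5, nat_lit 5, nat_lit 5, nat_lit 20], false, nat_lit 0, nat_lit 160, nat_lit 0, nat_lit 336, zbN0,
 nat_lit 0, nat_lit 0, nat_lit 0, nat_lit 0, nat_lit 0, nat_lit 0, nat_lit 0, nat_lit 0, nat_lit 0, nat_lit 0, nat_lit 0, nat_lit 0, nat_lit 0, nat_lit 0, nat_lit 0, nat_lit 0, nat_lit 0, nat_lit 0, [],
 C1.Rw.none, C1.Rw.none,
 zbF0, []⟩
noncomputable def p059_l74 : Lf2 := ⟨nat_lit 0, nat_lit 20, [nat_lit 5, nat_lit 5, nat_lit 5, nat_lit 20], true, nat_lit 0, nat_lit 160, nat_lit 0, nat_lit 336, ⟨nat_lit 0, nat_lit 0, nat_lit 1000, nat_lit 6, nat_lit 165, nat_lit 783, nat_lit 56, nat_lit 1000, nat_lit 26667, nat_lit 255, nat_lit 44804, nat_lit 266, nat_lit 57256791, nat_lit 0, nat_lit 0, nat_lit 2073415, false, false⟩,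
 nat_lit 0, nat_lit 4910, nat_lit 0, nat_lit 0, nat_lit 3398, nat_lit 0, nat_lit 0, nat_lit 0, nat_lit 0, nat_lit 0, nat_lit 0, nat_lit 0, nat_lit 0, nat_lit 0, nat_lit 151, nat_lit 562000, nat_lit 0, nat_lit 0, [(nat_lit 16, [(nat_lit 5, nat_lit 730), (nat_lit 6, nat_lit 270)])],
 ⟨p059_k14, nat_lit 0, nat_lit 0, nat_lit 340, nat_lit 0, nat_lit 261274, [nat_lit 3043680001, nat_lit 1690136001, nat_lit 25712000], [], [nat_lit 15041377578, nat_lit 15644488758, nat_lit 16127123219, nat_lit 16784186875, nat_lit 15429863223, nat_lit 16045196897, nat_lit 17384353451, nat_lit 17294160989], nat_lit 1271250, nat_lit 1271250, nat_lit 490000, nat_lit 1100001, nat_lit 0, nat_lit 1100001, [nat_lit 780000, nat_lit 1435000, nat_lit 1271250], [nat_lit 8, nat_lit 40, nat_lit 40, nat_lit 80, nat_lit 1, nat_lit 317, nat_lit 100, nat_lit 9]⟩, C1.Rw.none,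
 ⟨nat_lit 4743, nat_lit 5000, ⟨.ofNat (nat_lit 328569), .ofNat (nat_lit 471424), .ofNat (nat_lit 349996), .ofNat (nat_lit 492849), .ofNat (nat_lit 333875), .ofNat (nat_lit 473272), .ofNat (nat_lit 355361), .ofNat (nat_lit 494757)⟩, ⟨.negSucc (nat_lit 28572), .ofNat (nat_lit 257141), .ofNat (nat_lit 0), .ofNat (nat_lit 299999), .negSucc (nat_lit 20404), .ofNat (nat_lit 258394), .ofNat (nat_lit 0), .ofNat (nat_lit 301370)⟩⟩, []⟩
noncomputable def p059_l75 : Lf2 := ⟨nat_lit 0, nat_lit 20, [nat_lit 5, nat_lit 5, nat_lit 5, nat_lit 20], true, nat_lit 0, nat_lit 160, nat_lit 0, nat_lit 336, ⟨nat_lit 0, nat_lit 0, nat_lit 1000, nat_lit 6, nat_lit 153, nat_lit 805, nat_lit 56, nat_lit 1000, nat_lit 28017, nat_lit 256, nat_lit 220417, nat_lit 330, nat_lit 58479262, nat_lit 0, nat_lit 0, nat_lit 1904904, false, false⟩,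
 nat_lit 0, nat_lit 4630, nat_lit 0, nat_lit 0, nat_lit 3337, nat_lit 0, nat_lit 0, nat_lit 0, nat_lit 0, nat_lit 0, nat_lit 0, nat_lit 0, nat_lit 0, nat_lit 0, nat_lit 156, nat_lit 581800, nat_lit 0, nat_lit 0, [(nat_lit 16, [(nat_lit 5, nat_lit 697), (nat_lit 6, nat_lit 303)])],
 ⟨p059_k4, nat_lit 0, nat_lit 0, nat_lit 372, nat_lit 0, nat_lit 343992, [nat_lit 3092592001, nat_lit 1745810401, nat_lit 6836800], [], [nat_lit 16579478880, nat_lit 16544478159, nat_lit 16385330367, nat_lit 16929316860, nat_lit 16518730369, nat_lit 17000832100, nat_lit 17090822386, nat_lit 17342405152], nat_lit 1271250, nat_lit 1271250, nat_lit 490000, nat_lit 780000, nat_lit 0, nat_lit 1100001, [nat_lit 780000, nat_lit 1435000, nat_lit 1271250], [nat_lit 8, nat_lit 40, nat_lit 40, nat_lit 80, nat_lit 1, nat_lit 289, nat_lit 75, nat_lit 8]⟩, C1.Rw.none,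
 ⟨nat_lit 4472, nat_lit 4744, ⟨.ofNat (nat_lit 333872), .ofNat (nat_lit 403571), .ofNat (nat_lit 355356), .ofNat (nat_lit 425056), .ofNat (nat_lit 339193), .ofNat (nat_lit 407171), .ofNat (nat_lit 360756), .ofNat (nat_lit 428734)⟩, ⟨.negSucc (nat_lit 20404), .ofNat (nat_lit 258394), .ofNat (nat_lit 0), .ofNat (nat_lit 301370), .negSucc (nat_lit 12423), .ofNat (nat_lit 259489), .ofNat (nat_lit 0), .ofNat (nat_lit 302621)⟩⟩, [⟨nat_lit 0, nat_lit 100, nat_lit 84, nat_lit 85, nat_lit 50851066⟩]⟩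
noncomputable def p059_l76 : Lf2 := ⟨nat_lit 0, nat_lit 20, [nat_lit 5, nat_lit 5, nat_lit 5, nat_lit 20], true, nat_lit 0, nat_lit 160, nat_lit 0, nat_lit 336, ⟨nat_lit 0, nat_lit 0, nat_lit 1000, nat_lit 6, nat_lit 180, nat_lit 781, nat_lit 56, nat_lit 1000, nat_lit 28017, nat_lit 256, nat_lit 40068, nat_lit 264, nat_lit 55694232, nat_lit 0, nat_lit 0, nat_lit 2269434, false, false⟩,
 nat_lit 0, nat_lit 4749, nat_lit 0, nat_lit 0, nat_lit 3423, nat_lit 0, nat_lit 0, nat_lit 0, nat_lit 0, nat_lit 0, nat_lit 0, nat_lit 0, nat_lit 0, nat_lit 0, nat_lit 133, nat_lit 494200, nat_lit 0, nat_lit 0, [(nat_lit 16, [(nat_lit 5, nat_lit 843), (nat_lit 6, nat_lit 157)])],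
 ⟨p059_k4, nat_lit 0, nat_lit 0, nat_lit 354, nat_lit 0, nat_lit 343992, [nat_lit 2865648000, nat_lit 1481917601, nat_lit 65739200], [], [nat_lit 16419961968, nat_lit 16949231056, nat_lit 17015066910, nat_lit 17510502928, nat_lit 16550516894, nat_lit 17138335404, nat_lit 17341450161, nat_lit 17896445836], nat_lit 1271250, nat_lit 1271250, nat_lit 780000, nat_lit 1100001, nat_lit 0, nat_lit 1100001, [nat_lit 780000, nat_lit 1435000, nat_lit 1271250], [nat_lit 8, nat_lit 40, nat_lit 40, nat_lit 80, nat_lit 1, nat_lit 317, nat_lit 100, nat_lit 9]⟩, C1.Rw.none,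
 ⟨nat_lit 4472, nat_lit 4744, ⟨.ofNat (nat_lit 403571), .ofNat (nat_lit 473270), .ofNat (nat_lit 425056), .ofNat (nat_lit 494754), .ofNat (nat_lit 407171), .ofNat (nat_lit 475149), .ofNat (nat_lit 428734), .ofNat (nat_lit 496711)⟩, ⟨.negSucc (nat_lit 20404), .ofNat (nat_lit 258394), .ofNat (nat_lit 0), .ofNat (nat_lit 301370), .negSucc (nat_lit 12423), .ofNat (nat_lit 259489), .ofNat (nat_lit 0), .ofNat (nat_lit 302621)⟩⟩, []⟩
noncomputable def p059_l77 : Lf2 := ⟨nat_lit 0, nat_lit 20, [nat_lit 5, nat_lit 5, nat_lit 5, nat_lit 20], false, nat_lit 0, nat_lit 160, nat_lit 0, nat_lit 160, ⟨nat_lit 1000, nat_lit 0, nat_lit 0, nat_lit 0, nat_lit 0, nat_lit 0, nat_lit 0, nat_lit 0, nat_lit 0, nat_lit 0, nat_lit 0, nat_lit 0, nat_lit 0, nat_lit 0, nat_lit 0, nat_lit 0, false, false⟩,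
 nat_lit 0, nat_lit 10717, nat_lit 0, nat_lit 0, nat_lit 7419, nat_lit 6988, nat_lit 1022, nat_lit 0, nat_lit 0, nat_lit 1362, nat_lit 0, nat_lit 0, nat_lit 0, nat_lit 0, nat_lit 0, nat_lit 0, nat_lit 0, nat_lit 0, [],
 ⟨p059_k14, nat_lit 0, nat_lit 0, nat_lit 470, nat_lit 0, nat_lit 505647, [nat_lit 3282000000, nat_lit 6250000000, nat_lit 9842000000], [], [nat_lit 23441274422, nat_lit 25025131672, nat_lit 22905968788, nat_lit 24311602544, nat_lit 19332867472, nat_lit 20338006710, nat_lit 21530405944, nat_lit 19999466118], nat_lit 1271250, nat_lit 1271250, nat_lit 490000, nat_lit 1100001, nat_lit 0, nat_lit 1100001, [nat_lit 780000, nat_lit 1435000, nat_lit 1271250], [nat_lit 8, nat_lit 40, nat_lit 40, nat_lit 80, nat_lit 1, nat_lit 317, nat_lit 100, nat_lit 9]⟩, ⟨p059_k16, nat_lit 0, nat_lit 0, nat_lit 235, nat_lit 0, nat_lit 0, [nat_lit 4688000000, nat_lit 7968000000, nat_lit 11872000000], [], [nat_lit 22479506678,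 nat_lit 23951762294, nat_lit 22071129014, nat_lit 23383873238, nat_lit 18216681982, nat_lit 19264497526, nat_lit 18033392046, nat_lit 19218874752], nat_lit 0, nat_lit 0, nat_lit 0, nat_lit 0, nat_lit 0, nat_lit 0, [], [nat_lit 21, nat_lit 40, nat_lit 40, nat_lit 80, nat_lit 14, nat_lit 373, nat_lit 150, nat_lit 10]⟩,
 zbF0, [⟨nat_lit 0, nat_lit 100, nat_lit 87, nat_lit 95, nat_lit 552801306⟩]⟩
noncomputable def p059_l78 : Lf2 := ⟨nat_lit 0, nat_lit 20, [nat_lit 5, nat_lit 5, nat_lit 5, nat_lit 20], false, nat_lit 0, nat_lit 160, nat_lit 160, nat_lit 320, ⟨nat_lit 1000, nat_lit 0, nat_lit 0, nat_lit 0, nat_lit 0, nat_lit 0, nat_lit 0, nat_lit 0, nat_lit 0, nat_lit 0, nat_lit 0, nat_lit 0, nat_lit 0, nat_lit 0, nat_lit 0, nat_lit 0, false, false⟩,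
 nat_lit 0, nat_lit 10918, nat_lit 0, nat_lit 209, nat_lit 7558, nat_lit 6741, nat_lit 1224, nat_lit 0, nat_lit 0, nat_lit 0, nat_lit 0, nat_lit 0, nat_lit 0, nat_lit 0, nat_lit 0, nat_lit 0, nat_lit 0, nat_lit 0, [],
 ⟨p059_k14, nat_lit 0, nat_lit 0, nat_lit 470, nat_lit 0, nat_lit 505647, [nat_lit 3282000000, nat_lit 6250000000, nat_lit 9842000000], [], [nat_lit 22259593500, nat_lit 23508637704, nat_lit 21056328208, nat_lit 22773763824, nat_lit 17589730820, nat_lit 18823429720, nat_lit 20477114968, nat_lit 18449587576], nat_lit 1271250, nat_lit 1271250, nat_lit 490000, nat_lit 1100001, nat_lit 0, nat_lit 1100001, [nat_lit 780000, nat_lit 1435000, nat_lit 1271250], [nat_lit 8, nat_lit 40, nat_lit 40, nat_lit 80, nat_lit 1, nat_lit 317, nat_lit 100, nat_lit 9]⟩, ⟨p059_k16, nat_lit 0, nat_lit 0, nat_lit 75, nat_lit 0, nat_lit 0, [nat_lit 4688000000, nat_lit 7968000000, nat_lit 11872000000], [], [nat_lit 10592302438,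 nat_lit 12521924576, nat_lit 11728977752, nat_lit 13429888936, nat_lit 21430542010, nat_lit 22873541908, nat_lit 21293677542, nat_lit 22389117116], nat_lit 0, nat_lit 0, nat_lit 0, nat_lit 0, nat_lit 0, nat_lit 0, [], [nat_lit 21, nat_lit 40, nat_lit 40, nat_lit 80, nat_lit 14, nat_lit 428, nat_lit 200, nat_lit 11]⟩,
 zbF0, [⟨nat_lit 0, nat_lit 100, nat_lit 89, nat_lit 86, nat_lit 421658915⟩, ⟨nat_lit 7, nat_lit 97, nat_lit 100, nat_lit 76, nat_lit 721078209⟩]⟩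
noncomputable def p059_l79 : Lf2 := ⟨nat_lit 0, nat_lit 20, [nat_lit 5, nat_lit 5, nat_lit 5, nat_lit 20], false, nat_lit 0, nat_lit 160, nat_lit 0, nat_lit 160, ⟨nat_lit 1000, nat_lit 0, nat_lit 0, nat_lit 0, nat_lit 0, nat_lit 0, nat_lit 0, nat_lit 0, nat_lit 0, nat_lit 0, nat_lit 0, nat_lit 0, nat_lit 0, nat_lit 0, nat_lit 0, nat_lit 0, false, false⟩,
 nat_lit 0, nat_lit 12830, nat_lit 0, nat_lit 0, nat_lit 8164, nat_lit 8164, nat_lit 1011, nat_lit 0, nat_lit 0, nat_lit 1758, nat_lit 0, nat_lit 0, nat_lit 0, nat_lit 0, nat_lit 0, nat_lit 0, nat_lit 0, nat_lit 0, [],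
 ⟨p059_k17, nat_lit 0, nat_lit 0, nat_lit 526, nat_lit 0, nat_lit 569638, [nat_lit 3282000000, nat_lit 6250000000, nat_lit 11872000000], [], [nat_lit 33339407696, nat_lit 28987416749, nat_lit 28158511437, nat_lit 30234381357, nat_lit 21955419677, nat_lit 23708867008, nat_lit 28292635872, nat_lit 25059000640], nat_lit 1271250, nat_lit 1271250, nat_lit 1100001, nat_lit 1785000, nat_lit 0, nat_lit 1100001, [nat_lit 780000, nat_lit 1435000, nat_lit 1271250], [nat_lit 23, nat_lit 40, nat_lit 40, nat_lit 80, nat_lit 12, nat_lit 428, nat_lit 200, nat_lit 11]⟩, ⟨p059_k15, nat_lit 0, nat_lit 0, nat_lit 249, nat_lit 0, nat_lit 0, [nat_lit 4688000000, nat_lit 7968000000, nat_lit 14058000000], [], [nat_lit 21310804040, nat_lit 23688115504, nat_lit 24135393840, nat_lit 27252827072, nat_lit 16417325440, nat_lit 19000225056, nat_lit 19303894032, nat_lit 21574990528], nat_lit 0, nat_lit 0, nat_lit 0, nat_lit 0, nat_lit 0, nat_lit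 0, [], [nat_lit 37, nat_lit 40, nat_lit 40, nat_lit 80, nat_lit 28, nat_lit 401, nat_lit 175, nat_lit 9]⟩,
 zbF0, []⟩
noncomputable def p059_l80 : Lf2 := ⟨nat_lit 0, nat_lit 20, [nat_lit 5, nat_lit 5, nat_lit 5, nat_lit 20], false, nat_lit 0, nat_lit 160, nat_lit 160, nat_lit 336, ⟨nat_lit 1000, nat_lit 0, nat_lit 0, nat_lit 0, nat_lit 0, nat_lit 0, nat_lit 0, nat_lit 0, nat_lit 0, nat_lit 0, nat_lit 0, nat_lit 0, nat_lit 0, nat_lit 0, nat_lit 0, nat_lit 0, false, false⟩,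
 nat_lit 0, nat_lit 13181, nat_lit 0, nat_lit 0, nat_lit 8387, nat_lit 8464, nat_lit 1099, nat_lit 0, nat_lit 0, nat_lit 0, nat_lit 0, nat_lit 0, nat_lit 0, nat_lit 0, nat_lit 0, nat_lit 0, nat_lit 0, nat_lit 0, [],
 ⟨p059_k17, nat_lit 0, nat_lit 0, nat_lit 526, nat_lit 0, nat_lit 569638, [nat_lit 3282000000, nat_lit 6250000000, nat_lit 11872000000], [], [nat_lit 33443406868, nat_lit 27756540317, nat_lit 27138993788, nat_lit 29522932581, nat_lit 20770682108, nat_lit 23072619464, nat_lit 28008767576, nat_lit 24412916120], nat_lit 1271250, nat_lit 1271250, nat_lit 1100001, nat_lit 1785000, nat_lit 0, nat_lit 1100001, [nat_lit 780000, nat_lit 1435000, nat_lit 1271250], [nat_lit 23, nat_lit 40, nat_lit 40, nat_lit 80, nat_lit 12, nat_lit 428, nat_lit 200, nat_lit 11]⟩, ⟨p059_k15, nat_lit 0, nat_lit 0, nat_lit 53, nat_lit 0, nat_lit 0, [nat_lit 4688000000, nat_lit 7968000000, nat_lit 14058000000], [], [nat_lit 7104218272,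 nat_lit 11027847744, nat_lit 11776779616, nat_lit 15665046304, nat_lit 22123278112, nat_lit 24840433818, nat_lit 24681994119, nat_lit 26903447911], nat_lit 0, nat_lit 0, nat_lit 0, nat_lit 0, nat_lit 0, nat_lit 0, [], [nat_lit 37, nat_lit 40, nat_lit 40, nat_lit 80, nat_lit 28, nat_lit 456, nat_lit 225, nat_lit 10]⟩,
 zbF0, [⟨nat_lit 7, nat_lit 92, nat_lit 100, nat_lit 75, nat_lit 827741950⟩]⟩
noncomputable def b_V_700_600_10_37 : St := ⟨true, nat_lit 1, nat_lit 0, nat_lit 1, nat_lit 80, nat_lit 280, nat_lit 320, nat_lit 240, nat_lit 280, nat_lit 36, nat_lit 240, nat_lit 40, nat_lit 80, nat_lit 0, nat_lit 160, nat_lit 0, nat_lit 336, nat_lit 40, nat_lit 80, nat_lit 0, nat_lit 0, nat_lit 0, nat_lit 0⟩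
theorem d_V_700_600_10_37 (h : EB TB.env) : Dead b_V_700_600_10_37 := chkB_sound0 h (T :=
(.spl (nat_lit 2) (nat_lit 160)
(.spl (nat_lit 2) (nat_lit 80)
(.spl (nat_lit 4) (nat_lit 80)
(.spl (nat_lit 0) (nat_lit 300)
(.spl (nat_lit 3) (nat_lit 60)
(.trX (nat_lit 19) (nat_lit 100) (nat_lit 85) (nat_lit 73) (nat_lit 312) (.leaf p059_l62))
(.spl (nat_lit 6) (nat_lit 56)
(.leaf p059_l63)
(.leaf p059_l64)))
(.trZ (nat_lit 0) (nat_lit 100) (nat_lit 88) (nat_lit 68) (nat_lit 48) (.leaf p059_l65)))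
(.spl (nat_lit 0) (nat_lit 300)
(.leaf p059_l66)
(.trZ (nat_lit 0) (nat_lit 100) (nat_lit 88) (nat_lit 68) (nat_lit 48) (.leaf p059_l67))))
(.spl (nat_lit 0) (nat_lit 300)
(.spl (nat_lit 3) (nat_lit 60)
(.trX (nat_lit 19) (nat_lit 100) (nat_lit 85) (nat_lit 73) (nat_lit 312) (.spl (nat_lit 6) (nat_lit 72)
(.spl (nat_lit 5) (nat_lit 160)
(.leaf p059_l68)
(.leaf p059_l69))
(.leaf p059_l70)))
(.spl (nat_lit 6) (nat_lit 56)
(.spl (nat_lit 0) (nat_lit 290)
(.leaf p059_l71)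
(.leaf p059_l72))
(.leaf p059_l73)))
(.spl (nat_lit 1) (nat_lit 260)
(.spl (nat_lit 0) (nat_lit 310)
(.leaf p059_l74)
(.spl (nat_lit 2) (nat_lit 120)
(.leaf p059_l75)
(.leaf p059_l76)))
(.trX (nat_lit 19) (nat_lit 100) (nat_lit 85) (nat_lit 84) (nat_lit 320) (.spl (nat_lit 5) (nat_lit 160)
(.leaf p059_l77)
(.leaf p059_l78))))))
(.spl (nat_lit 5) (nat_lit 160)
(.leaf p059_l79)
(.leaf p059_l80)))) (by decide +kernel)
noncomputable def p059_l81 : Lf2 := ⟨nat_lit 0, nat_lit 15, [nat_lit 30, nat_lit 5, nat_lit 5, nat_lit 20], true, nat_lit 160, nat_lit 240, nat_lit 0, nat_lit 312, ⟨nat_lit 0, nat_lit 0, nat_lit 1000, nat_lit 6, nat_lit 122, nat_lit 1000, nat_lit 136, nat_lit 1000, nat_lit 173400, nat_lit 317, nat_lit 138017, nat_lit 306, nat_lit 53533821, nat_lit 0, nat_lit 0, nat_lit 3414231, false, false⟩,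
 nat_lit 0, nat_lit 5656, nat_lit 0, nat_lit 0, nat_lit 3599, nat_lit 0, nat_lit 0, nat_lit 0, nat_lit 0, nat_lit 0, nat_lit 0, nat_lit 0, nat_lit 0, nat_lit 0, nat_lit 128, nat_lit 564400, nat_lit 0, nat_lit 0, [(nat_lit 13, [(nat_lit 5, nat_lit 726), (nat_lit 6, nat_lit 274)])],
 ⟨p059_k0, nat_lit 0, nat_lit 0, nat_lit 197, nat_lit 0, nat_lit 202231, [nat_lit 2756625334, nat_lit 1860181067, nat_lit 1720000], [], [nat_lit 14017156862, nat_lit 15193710801, nat_lit 13708592554, nat_lit 14763615162, nat_lit 16515343051, nat_lit 17685220852, nat_lit 15999600258, nat_lit 17018532294], nat_lit 1271250, nat_lit 1271250, nat_lit 205650, nat_lit 490000, nat_lit 1100001, nat_lit 1785000, [nat_lit 780000, nat_lit 1435000, nat_lit 1271250], [nat_lit 8, nat_lit 40, nat_lit 40, nat_lit 80, nat_lit 1, nat_lit 317, nat_lit 100, nat_lit 9]⟩, C1.Rw.none,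
 ⟨nat_lit 5000, nat_lit 5478, ⟨.ofNat (nat_lit 235487), .ofNat (nat_lit 317913), .ofNat (nat_lit 278201), .ofNat (nat_lit 360625), .ofNat (nat_lit 249999), .ofNat (nat_lit 328570), .ofNat (nat_lit 292856), .ofNat (nat_lit 371424)⟩, ⟨.ofNat (nat_lit 254209), .ofNat (nat_lit 404075), .ofNat (nat_lit 275566), .ofNat (nat_lit 425432), .ofNat (nat_lit 257141), .ofNat (nat_lit 399998), .ofNat (nat_lit 278570), .ofNat (nat_lit 421427)⟩⟩, [⟨nat_lit 0, nat_lit 100, nat_lit 94, nat_lit 88, nat_lit 186268559⟩, ⟨nat_lit 4, nat_lit 100, nat_lit 92, nat_lit 68, nat_lit 71255718⟩]⟩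
noncomputable def p059_l82 : Lf2 := ⟨nat_lit 0, nat_lit 20, [nat_lit 5, nat_lit 5, nat_lit 5, nat_lit 20], true, nat_lit 160, nat_lit 240, nat_lit 0, nat_lit 336, ⟨nat_lit 0, nat_lit 0, nat_lit 1000, nat_lit 6, nat_lit 122, nat_lit 1000, nat_lit 144, nat_lit 1000, nat_lit 194400, nat_lit 323, nat_lit 138017, nat_lit 306, nat_lit 52816273, nat_lit 0, nat_lit 0, nat_lit 3526522, false, false⟩,
 nat_lit 0, nat_lit 6744, nat_lit 0, nat_lit 2978, nat_lit 4291, nat_lit 0, nat_lit 0, nat_lit 0, nat_lit 0, nat_lit 0, nat_lit 0, nat_lit 0, nat_lit 0, nat_lit 0, nat_lit 171, nat_lit 700000, nat_lit 0, nat_lit 0, [(nat_lit 13, [(nat_lit 5, nat_lit 500), (nat_lit 6, nat_lit 500)])],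
 ⟨p059_k7, nat_lit 0, nat_lit 0, nat_lit 181, nat_lit 0, nat_lit 79416, [nat_lit 3917000001, nat_lit 361800000], [], [nat_lit 14806002394, nat_lit 15982616917, nat_lit 14010741528, nat_lit 15146199078, nat_lit 17037285829, nat_lit 18160478425, nat_lit 16195414896, nat_lit 17174922122], nat_lit 1271250, nat_lit 1271250, nat_lit 205650, nat_lit 490000, nat_lit 1100001, nat_lit 1785000, [nat_lit 780000, nat_lit 2417500], [nat_lit 135, nat_lit 40, nat_lit 40, nat_lit 80, nat_lit 134, nat_lit 401, nat_lit 175, nat_lit 10]⟩, C1.Rw.none,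
 ⟨nat_lit 5000, nat_lit 5478, ⟨.ofNat (nat_lit 235487), .ofNat (nat_lit 317913), .ofNat (nat_lit 278201), .ofNat (nat_lit 360625), .ofNat (nat_lit 249999), .ofNat (nat_lit 328570), .ofNat (nat_lit 292856), .ofNat (nat_lit 371424)⟩, ⟨.ofNat (nat_lit 275566), .ofNat (nat_lit 425432), .ofNat (nat_lit 296923), .ofNat (nat_lit 446789), .ofNat (nat_lit 278570), .ofNat (nat_lit 421427), .ofNat (nat_lit 299999), .ofNat (nat_lit 442856)⟩⟩, [⟨nat_lit 0, nat_lit 100, nat_lit 94, nat_lit 88, nat_lit 224996847⟩]⟩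
noncomputable def p059_l83 : Lf2 := ⟨nat_lit 0, nat_lit 15, [nat_lit 30, nat_lit 5, nat_lit 5, nat_lit 20], false, nat_lit 160, nat_lit 240, nat_lit 0, nat_lit 160, ⟨nat_lit 1000, nat_lit 0, nat_lit 0, nat_lit 0, nat_lit 0, nat_lit 0, nat_lit 0, nat_lit 0, nat_lit 0, nat_lit 0, nat_lit 0, nat_lit 0, nat_lit 0, nat_lit 0, nat_lit 0, nat_lit 0, false, false⟩,
 nat_lit 0, nat_lit 10858, nat_lit 0, nat_lit 0, nat_lit 6909, nat_lit 6988, nat_lit 1186, nat_lit 0, nat_lit 0, nat_lit 1360, nat_lit 0, nat_lit 0, nat_lit 0, nat_lit 0, nat_lit 0, nat_lit 0, nat_lit 0, nat_lit 0, [],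
 ⟨p059_k0, nat_lit 0, nat_lit 0, nat_lit 221, nat_lit 0, nat_lit 350498, [nat_lit 3282000000, nat_lit 6250000000, nat_lit 9842000000], [], [nat_lit 16865890446, nat_lit 18507420384, nat_lit 16908895914, nat_lit 18365989984, nat_lit 19655786522, nat_lit 21038870044, nat_lit 19543115120, nat_lit 21042190162], nat_lit 1271250, nat_lit 1271250, nat_lit 490000, nat_lit 1100001, nat_lit 1100001, nat_lit 1785000, [nat_lit 780000, nat_lit 1435000, nat_lit 1271250], [nat_lit 8, nat_lit 40, nat_lit 40, nat_lit 80, nat_lit 1, nat_lit 317, nat_lit 100, nat_lit 9]⟩, ⟨p059_k11, nat_lit 0, nat_lit 0, nat_lit 235, nat_lit 0, nat_lit 0, [nat_lit 4688000000, nat_lit 7968000000, nat_lit 11872000000], [], [nat_lit 22914607312, nat_lit 25859118544, nat_lit 22787793984, nat_lit 25291229488, nat_lit 19076222688, nat_lit 21173962592, nat_lit 19090420480, nat_lit 21466174752], nat_lit 0, nat_lit 0, nat_lit 0, nat_lit 0, nat_lit 0, nat_lit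 0, [], [nat_lit 21, nat_lit 40, nat_lit 40, nat_lit 80, nat_lit 14, nat_lit 373, nat_lit 150, nat_lit 10]⟩,
 zbF0, [⟨nat_lit 0, nat_lit 100, nat_lit 94, nat_lit 88, nat_lit 188217660⟩, ⟨nat_lit 4, nat_lit 100, nat_lit 92, nat_lit 68, nat_lit 289278609⟩]⟩
noncomputable def p059_l84 : Lf2 := ⟨nat_lit 0, nat_lit 15, [nat_lit 30, nat_lit 5, nat_lit 5, nat_lit 20], false, nat_lit 160, nat_lit 240, nat_lit 160, nat_lit 312, ⟨nat_lit 1000, nat_lit 0, nat_lit 0, nat_lit 0, nat_lit 0, nat_lit 0, nat_lit 0, nat_lit 0, nat_lit 0, nat_lit 0, nat_lit 0, nat_lit 0, nat_lit 0, nat_lit 0, nat_lit 0, nat_lit 0, false, false⟩,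
 nat_lit 0, nat_lit 12547, nat_lit 0, nat_lit 0, nat_lit 7984, nat_lit 7051, nat_lit 1228, nat_lit 0, nat_lit 0, nat_lit 0, nat_lit 0, nat_lit 0, nat_lit 0, nat_lit 0, nat_lit 0, nat_lit 0, nat_lit 0, nat_lit 0, [],
 ⟨p059_k0, nat_lit 0, nat_lit 0, nat_lit 221, nat_lit 0, nat_lit 350498, [nat_lit 3282000000, nat_lit 6250000000, nat_lit 9842000000], [], [nat_lit 15786503996, nat_lit 17581417084, nat_lit 15558450364, nat_lit 17145866684, nat_lit 18678701372, nat_lit 20182649744, nat_lit 18276421120, nat_lit 19911524512], nat_lit 1271250, nat_lit 1271250, nat_lit 490000, nat_lit 1100001, nat_lit 1100001, nat_lit 1785000, [nat_lit 780000, nat_lit 1435000, nat_lit 1271250], [nat_lit 8, nat_lit 40, nat_lit 40, nat_lit 80, nat_lit 1, nat_lit 317, nat_lit 100, nat_lit 9]⟩, ⟨p059_k11, nat_lit 0, nat_lit 0, nat_lit 69, nat_lit 0, nat_lit 0, [nat_lit 4688000000, nat_lit 7968000000, nat_lit 11872000000], [], [nat_lit 8168633300,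 nat_lit 12138744736, nat_lit 9502011448, nat_lit 12997716696, nat_lit 19298542612, nat_lit 22352439842, nat_lit 19301049794, nat_lit 21845564033], nat_lit 0, nat_lit 0, nat_lit 0, nat_lit 0, nat_lit 0, nat_lit 0, [], [nat_lit 21, nat_lit 40, nat_lit 40, nat_lit 80, nat_lit 14, nat_lit 428, nat_lit 200, nat_lit 11]⟩,
 zbF0, [⟨nat_lit 16, nat_lit 92, nat_lit 100, nat_lit 68, nat_lit 587458264⟩, ⟨nat_lit 7, nat_lit 96, nat_lit 100, nat_lit 69, nat_lit 809542762⟩]⟩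
noncomputable def p059_l85 : Lf2 := ⟨nat_lit 1, nat_lit 15, [nat_lit 30, nat_lit 5, nat_lit 5, nat_lit 20], false, nat_lit 160, nat_lit 240, nat_lit 0, nat_lit 312, zbN0,
 nat_lit 0, nat_lit 0, nat_lit 0, nat_lit 0, nat_lit 0, nat_lit 0, nat_lit 0, nat_lit 0, nat_lit 0, nat_lit 0, nat_lit 0, nat_lit 0, nat_lit 0, nat_lit 0, nat_lit 0, nat_lit 0, nat_lit 0, nat_lit 0, [],
 C1.Rw.none, C1.Rw.none,
 zbF0, []⟩
noncomputable def p059_l86 : Lf2 := ⟨nat_lit 0, nat_lit 14, [nat_lit 119, nat_lit 5, nat_lit 5, nat_lit 20], true, nat_lit 160, nat_lit 240, nat_lit 0, nat_lit 336, ⟨nat_lit 0, nat_lit 0, nat_lit 1000, nat_lit 6, nat_lit 167, nat_lit 1000, nat_lit 144, nat_lit 1000, nat_lit 194400, nat_lit 323, nat_lit 24681, nat_lit 252, nat_lit 49170024, nat_lit 0, nat_lit 0, nat_lit 4081329, false, false⟩,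
 nat_lit 0, nat_lit 5577, nat_lit 0, nat_lit 0, nat_lit 3548, nat_lit 0, nat_lit 0, nat_lit 0, nat_lit 0, nat_lit 0, nat_lit 0, nat_lit 0, nat_lit 0, nat_lit 0, nat_lit 131, nat_lit 574600, nat_lit 0, nat_lit 0, [(nat_lit 13, [(nat_lit 5, nat_lit 709), (nat_lit 6, nat_lit 291)])],
 ⟨p059_k2, nat_lit 0, nat_lit 0, nat_lit 143, nat_lit 0, nat_lit 143522, [nat_lit 2790778001, nat_lit 1910132934, nat_lit 20780000], [], [nat_lit 13725405441, nat_lit 14774175857, nat_lit 14626523201, nat_lit 15574410729, nat_lit 16012644449, nat_lit 16976417359, nat_lit 16995085063, nat_lit 17914256384], nat_lit 1271250, nat_lit 1271250, nat_lit 490000, nat_lit 1100001, nat_lit 1100001, nat_lit 1785000, [nat_lit 780000, nat_lit 1435000, nat_lit 1271250], [nat_lit 8, nat_lit 40, nat_lit 40, nat_lit 80, nat_lit 1, nat_lit 317, nat_lit 100, nat_lit 9]⟩, C1.Rw.none,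
 ⟨nat_lit 5000, nat_lit 5478, ⟨.ofNat (nat_lit 317913), .ofNat (nat_lit 467773), .ofNat (nat_lit 360625), .ofNat (nat_lit 510468), .ofNat (nat_lit 328570), .ofNat (nat_lit 471421), .ofNat (nat_lit 371424), .ofNat (nat_lit 514258)⟩, ⟨.ofNat (nat_lit 275566), .ofNat (nat_lit 425432), .ofNat (nat_lit 296923), .ofNat (nat_lit 446789), .ofNat (nat_lit 278570), .ofNat (nat_lit 421427), .ofNat (nat_lit 299999), .ofNat (nat_lit 442856)⟩⟩, [⟨nat_lit 0, nat_lit 100, nat_lit 94, nat_lit 88, nat_lit 14560675⟩]⟩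
noncomputable def p059_l87 : Lf2 := ⟨nat_lit 1, nat_lit 20, [nat_lit 5, nat_lit 5, nat_lit 5, nat_lit 20], false, nat_lit 160, nat_lit 240, nat_lit 0, nat_lit 336, zbN0,
 nat_lit 0, nat_lit 0, nat_lit 0, nat_lit 0, nat_lit 0, nat_lit 0, nat_lit 0, nat_lit 0, nat_lit 0, nat_lit 0, nat_lit 0, nat_lit 0, nat_lit 0, nat_lit 0, nat_lit 0, nat_lit 0, nat_lit 0, nat_lit 0, [],
 C1.Rw.none, C1.Rw.none,
 zbF0, []⟩
noncomputable def p059_l88 : Lf2 := ⟨nat_lit 0, nat_lit 20, [nat_lit 5, nat_lit 5, nat_lit 5, nat_lit 20], true, nat_lit 160, nat_lit 240, nat_lit 0, nat_lit 336, ⟨nat_lit 0, nat_lit 0, nat_lit 1000, nat_lit 6, nat_lit 131, nat_lit 1000, nat_lit 140, nat_lit 1000, nat_lit 183750, nat_lit 320, nat_lit 160067, nat_lit 313, nat_lit 52479256, nat_lit 0, nat_lit 0, nat_lit 3591385, false, false⟩,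
 nat_lit 0, nat_lit 6796, nat_lit 0, nat_lit 0, nat_lit 4704, nat_lit 0, nat_lit 0, nat_lit 0, nat_lit 0, nat_lit 0, nat_lit 0, nat_lit 0, nat_lit 0, nat_lit 0, nat_lit 109, nat_lit 400000, nat_lit 0, nat_lit 0, [(nat_lit 16, [(nat_lit 5, nat_lit 1000)])],
 ⟨p059_k3, nat_lit 0, nat_lit 0, nat_lit 281, nat_lit 0, nat_lit 298582, [nat_lit 2630400000, nat_lit 149600000], [], [nat_lit 15257966650, nat_lit 16624507034, nat_lit 14698014304, nat_lit 16024930432, nat_lit 18013563149, nat_lit 19798394055, nat_lit 17286285472, nat_lit 19019337696], nat_lit 1271250, nat_lit 1271250, nat_lit 279600, nat_lit 490000, nat_lit 1100001, nat_lit 1785000, [nat_lit 780000, nat_lit 2090000], [nat_lit 82, nat_lit 40, nat_lit 40, nat_lit 80, nat_lit 63, nat_lit 317, nat_lit 100, nat_lit 9]⟩, C1.Rw.none,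
 ⟨nat_lit 4472, nat_lit 5000, ⟨.ofNat (nat_lit 271418), .ofNat (nat_lit 328559), .ofNat (nat_lit 314253), .ofNat (nat_lit 371392), .ofNat (nat_lit 284805), .ofNat (nat_lit 339186), .ofNat (nat_lit 327916), .ofNat (nat_lit 382295)⟩, ⟨.ofNat (nat_lit 257141), .ofNat (nat_lit 399998), .ofNat (nat_lit 299999), .ofNat (nat_lit 442856), .ofNat (nat_lit 259489), .ofNat (nat_lit 395445), .ofNat (nat_lit 302621), .ofNat (nat_lit 438578)⟩⟩, [⟨nat_lit 0, nat_lit 100, nat_lit 88, nat_lit 81, nat_lit 873497100⟩, ⟨nat_lit 4, nat_lit 100, nat_lit 85, nat_lit 73, nat_lit 204442039⟩]⟩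
noncomputable def p059_l89 : Lf2 := ⟨nat_lit 0, nat_lit 20, [nat_lit 5, nat_lit 5, nat_lit 5, nat_lit 20], true, nat_lit 160, nat_lit 240, nat_lit 0, nat_lit 336, ⟨nat_lit 0, nat_lit 0, nat_lit 1000, nat_lit 6, nat_lit 166, nat_lit 1000, nat_lit 140, nat_lit 1000, nat_lit 183750, nat_lit 320, nat_lit 40017, nat_lit 264, nat_lit 49633881, nat_lit 0, nat_lit 0, nat_lit 4012057, false, false⟩,
 nat_lit 0, nat_lit 5033, nat_lit 0, nat_lit 0, nat_lit 3484, nat_lit 0, nat_lit 0, nat_lit 0, nat_lit 0, nat_lit 0, nat_lit 0, nat_lit 0, nat_lit 0, nat_lit 0, nat_lit 148, nat_lit 554200, nat_lit 0, nat_lit 0, [(nat_lit 16, [(nat_lit 5, nat_lit 743), (nat_lit 6, nat_lit 257)])],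
 ⟨p059_k14, nat_lit 0, nat_lit 0, nat_lit 285, nat_lit 0, nat_lit 363914, [nat_lit 3012048001, nat_lit 1647597601, nat_lit 4299200], [], [nat_lit 14883938594, nat_lit 15820870770, nat_lit 15778265307, nat_lit 16867560194, nat_lit 17237658618, nat_lit 18441211026, nat_lit 18301842138, nat_lit 19385983458], nat_lit 1271250, nat_lit 1271250, nat_lit 490000, nat_lit 1100001, nat_lit 1100001, nat_lit 1785000, [nat_lit 780000, nat_lit 1435000, nat_lit 1271250], [nat_lit 8, nat_lit 40, nat_lit 40, nat_lit 80, nat_lit 1, nat_lit 317, nat_lit 100, nat_lit 9]⟩, C1.Rw.none,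
 ⟨nat_lit 4472, nat_lit 5000, ⟨.ofNat (nat_lit 328559), .ofNat (nat_lit 471408), .ofNat (nat_lit 349976), .ofNat (nat_lit 492824), .ofNat (nat_lit 339186), .ofNat (nat_lit 475134), .ofNat (nat_lit 360741), .ofNat (nat_lit 496688)⟩, ⟨.ofNat (nat_lit 257141), .ofNat (nat_lit 399998), .ofNat (nat_lit 299999), .ofNat (nat_lit 442856), .ofNat (nat_lit 259489), .ofNat (nat_lit 395445), .ofNat (nat_lit 302621), .ofNat (nat_lit 438578)⟩⟩, [⟨nat_lit 4, nat_lit 100, nat_lit 85, nat_lit 73, nat_lit 226327192⟩]⟩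
noncomputable def p059_l90 : Lf2 := ⟨nat_lit 0, nat_lit 20, [nat_lit 5, nat_lit 5, nat_lit 5, nat_lit 20], false, nat_lit 160, nat_lit 240, nat_lit 0, nat_lit 160, ⟨nat_lit 1000, nat_lit 0, nat_lit 0, nat_lit 0, nat_lit 0, nat_lit 0, nat_lit 0, nat_lit 0, nat_lit 0, nat_lit 0, nat_lit 0, nat_lit 0, nat_lit 0, nat_lit 0, nat_lit 0, nat_lit 0, false, false⟩,
 nat_lit 0, nat_lit 11568, nat_lit 0, nat_lit 2801, nat_lit 8008, nat_lit 7185, nat_lit 1119, nat_lit 0, nat_lit 0, nat_lit 1476, nat_lit 0, nat_lit 0, nat_lit 0, nat_lit 0, nat_lit 0, nat_lit 0, nat_lit 0, nat_lit 0, [],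
 ⟨p059_k14, nat_lit 0, nat_lit 0, nat_lit 338, nat_lit 0, nat_lit 505647, [nat_lit 3282000000, nat_lit 6250000000, nat_lit 9842000000], [], [nat_lit 16505110891, nat_lit 18275435414, nat_lit 16034981158, nat_lit 17625306998, nat_lit 19078838406, nat_lit 20587825792, nat_lit 20059902901, nat_lit 20030772640], nat_lit 1271250, nat_lit 1271250, nat_lit 490000, nat_lit 1100001, nat_lit 1100001, nat_lit 1785000, [nat_lit 780000, nat_lit 1435000, nat_lit 1271250], [nat_lit 8, nat_lit 40, nat_lit 40, nat_lit 80, nat_lit 1, nat_lit 317, nat_lit 100, nat_lit 9]⟩, ⟨p059_k16, nat_lit 0, nat_lit 0, nat_lit 235, nat_lit 0, nat_lit 0, [nat_lit 4688000000, nat_lit 7968000000, nat_lit 11872000000], [], [nat_lit 21677829360, nat_lit 23172943280, nat_lit 21206406180, nat_lit 22538485560, nat_lit 16995007090, nat_lit 18366387040, nat_lit 17412458920, nat_lit 18617686240], nat_lit 0, nat_lit 0, nat_lit 0, nat_lit 0, nat_lit 0,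 nat_lit 0, [], [nat_lit 21, nat_lit 40, nat_lit 40, nat_lit 80, nat_lit 14, nat_lit 373, nat_lit 150, nat_lit 10]⟩,
 zbF0, [⟨nat_lit 0, nat_lit 100, nat_lit 89, nat_lit 86, nat_lit 563783225⟩, ⟨nat_lit 4, nat_lit 100, nat_lit 85, nat_lit 73, nat_lit 562955281⟩]⟩
noncomputable def p059_l91 : Lf2 := ⟨nat_lit 0, nat_lit 20, [nat_lit 5, nat_lit 5, nat_lit 5, nat_lit 20], false, nat_lit 160, nat_lit 240, nat_lit 160, nat_lit 320, ⟨nat_lit 1000, nat_lit 0, nat_lit 0, nat_lit 0, nat_lit 0, nat_lit 0, nat_lit 0, nat_lit 0, nat_lit 0, nat_lit 0, nat_lit 0, nat_lit 0, nat_lit 0, nat_lit 0, nat_lit 0, nat_lit 0, false, false⟩,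
 nat_lit 0, nat_lit 10998, nat_lit 0, nat_lit 682, nat_lit 7613, nat_lit 6741, nat_lit 1163, nat_lit 0, nat_lit 0, nat_lit 0, nat_lit 0, nat_lit 0, nat_lit 0, nat_lit 0, nat_lit 0, nat_lit 0, nat_lit 0, nat_lit 0, [],
 ⟨p059_k14, nat_lit 0, nat_lit 0, nat_lit 338, nat_lit 0, nat_lit 505647, [nat_lit 3282000000, nat_lit 6250000000, nat_lit 9842000000], [], [nat_lit 16707671351, nat_lit 18108883254, nat_lit 16365249666, nat_lit 17806008874, nat_lit 18943244766, nat_lit 20404670878, nat_lit 20829968961, nat_lit 19962603540], nat_lit 1271250, nat_lit 1271250, nat_lit 490000, nat_lit 1100001, nat_lit 1100001, nat_lit 1785000, [nat_lit 780000, nat_lit 1435000, nat_lit 1271250], [nat_lit 8, nat_lit 40, nat_lit 40, nat_lit 80, nat_lit 1, nat_lit 317, nat_lit 100, nat_lit 9]⟩, ⟨p059_k16, nat_lit 0, nat_lit 0, nat_lit 75, nat_lit 0, nat_lit 0, [nat_lit 4688000000, nat_lit 7968000000, nat_lit 11872000000], [], [nat_lit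 10592302438, nat_lit 12521924576, nat_lit 11728977752, nat_lit 13429888936, nat_lit 21430542010, nat_lit 22873541908, nat_lit 21293677542, nat_lit 22389117116], nat_lit 0, nat_lit 0, nat_lit 0, nat_lit 0, nat_lit 0, nat_lit 0, [], [nat_lit 21, nat_lit 40, nat_lit 40, nat_lit 80, nat_lit 14, nat_lit 428, nat_lit 200, nat_lit 11]⟩,
 zbF0, [⟨nat_lit 0, nat_lit 100, nat_lit 89, nat_lit 86, nat_lit 483404425⟩, ⟨nat_lit 4, nat_lit 100, nat_lit 85, nat_lit 73, nat_lit 81825944⟩, ⟨nat_lit 19, nat_lit 100, nat_lit 97, nat_lit 76, nat_lit 721078209⟩]⟩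
noncomputable def p059_l92 : Lf2 := ⟨nat_lit 0, nat_lit 20, [nat_lit 5, nat_lit 5, nat_lit 5, nat_lit 20], false, nat_lit 160, nat_lit 240, nat_lit 0, nat_lit 160, ⟨nat_lit 1000, nat_lit 0, nat_lit 0, nat_lit 0, nat_lit 0, nat_lit 0, nat_lit 0, nat_lit 0, nat_lit 0, nat_lit 0, nat_lit 0, nat_lit 0, nat_lit 0, nat_lit 0, nat_lit 0, nat_lit 0, false, false⟩,
 nat_lit 0, nat_lit 12957, nat_lit 0, nat_lit 0, nat_lit 8245, nat_lit 8164, nat_lit 1043, nat_lit 0, nat_lit 0, nat_lit 1758, nat_lit 0, nat_lit 0, nat_lit 0, nat_lit 0, nat_lit 0, nat_lit 0, nat_lit 0, nat_lit 0, [],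
 ⟨p059_k17, nat_lit 0, nat_lit 0, nat_lit 383, nat_lit 0, nat_lit 569638, [nat_lit 3282000000, nat_lit 6250000000, nat_lit 11872000000], [], [nat_lit 21507553960, nat_lit 22003819025, nat_lit 21194080745, nat_lit 23013267120, nat_lit 21194080745, nat_lit 23013267120, nat_lit 26330889780, nat_lit 24485339000], nat_lit 1271250, nat_lit 1271250, nat_lit 1100001, nat_lit 1785000, nat_lit 1100001, nat_lit 1785000, [nat_lit 780000, nat_lit 1435000, nat_lit 1271250], [nat_lit 23, nat_lit 40, nat_lit 40, nat_lit 80, nat_lit 12, nat_lit 428, nat_lit 200, nat_lit 10]⟩, ⟨p059_k15, nat_lit 0, nat_lit 0, nat_lit 249, nat_lit 0, nat_lit 0, [nat_lit 4688000000, nat_lit 7968000000, nat_lit 14058000000], [], [nat_lit 21310804040, nat_lit 23688115504, nat_lit 24135393840, nat_lit 27252827072, nat_lit 16417325440, nat_lit 19000225056, nat_lit 19303894032, nat_lit 21574990528], nat_lit 0, nat_lit 0, nat_lit 0, nat_lit 0, nat_lit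 0, nat_lit 0, [], [nat_lit 37, nat_lit 40, nat_lit 40, nat_lit 80, nat_lit 28, nat_lit 401, nat_lit 175, nat_lit 9]⟩,
 zbF0, [⟨nat_lit 4, nat_lit 100, nat_lit 90, nat_lit 74, nat_lit 402383057⟩]⟩
noncomputable def p059_l93 : Lf2 := ⟨nat_lit 0, nat_lit 20, [nat_lit 5, nat_lit 5, nat_lit 5, nat_lit 20], false, nat_lit 160, nat_lit 240, nat_lit 160, nat_lit 336, ⟨nat_lit 1000, nat_lit 0, nat_lit 0, nat_lit 0, nat_lit 0, nat_lit 0, nat_lit 0, nat_lit 0, nat_lit 0, nat_lit 0, nat_lit 0, nat_lit 0, nat_lit 0, nat_lit 0, nat_lit 0, nat_lit 0, false, false⟩,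
 nat_lit 0, nat_lit 12271, nat_lit 0, nat_lit 0, nat_lit 7808, nat_lit 8464, nat_lit 1035, nat_lit 0, nat_lit 0, nat_lit 0, nat_lit 0, nat_lit 0, nat_lit 0, nat_lit 0, nat_lit 0, nat_lit 0, nat_lit 0, nat_lit 0, [],
 ⟨p059_k17, nat_lit 0, nat_lit 0, nat_lit 383, nat_lit 0, nat_lit 569638, [nat_lit 3282000000, nat_lit 6250000000, nat_lit 11872000000], [], [nat_lit 21758912864, nat_lit 22809451285, nat_lit 22080795733, nat_lit 23858173408, nat_lit 22080795733, nat_lit 23858173408, nat_lit 26834731552, nat_lit 25346840800], nat_lit 1271250, nat_lit 1271250, nat_lit 1100001, nat_lit 1785000, nat_lit 1100001, nat_lit 1785000, [nat_lit 780000, nat_lit 1435000, nat_lit 1271250], [nat_lit 23, nat_lit 40, nat_lit 40, nat_lit 80, nat_lit 12, nat_lit 428, nat_lit 200, nat_lit 10]⟩, ⟨p059_k15, nat_lit 0, nat_lit 0, nat_lit 53, nat_lit 0, nat_lit 0, [nat_lit 4688000000, nat_lit 7968000000, nat_lit 14058000000], [], [nat_lit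 7104218272, nat_lit 11027847744, nat_lit 11776779616, nat_lit 15665046304, nat_lit 22123278112, nat_lit 24840433818, nat_lit 24681994119, nat_lit 26903447911], nat_lit 0, nat_lit 0, nat_lit 0, nat_lit 0, nat_lit 0, nat_lit 0, [], [nat_lit 37, nat_lit 40, nat_lit 40, nat_lit 80, nat_lit 28, nat_lit 456, nat_lit 225, nat_lit 10]⟩,
 zbF0, [⟨nat_lit 4, nat_lit 100, nat_lit 90, nat_lit 74, nat_lit 405892784⟩, ⟨nat_lit 19, nat_lit 100, nat_lit 92, nat_lit 75, nat_lit 827741950⟩]⟩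
noncomputable def b_V_700_600_10_38 : St := ⟨true, nat_lit 1, nat_lit 0, nat_lit 1, nat_lit 80, nat_lit 280, nat_lit 320, nat_lit 240, nat_lit 280, nat_lit 36, nat_lit 240, nat_lit 40, nat_lit 80, nat_lit 160, nat_lit 240, nat_lit 0, nat_lit 336, nat_lit 40, nat_lit 80, nat_lit 0, nat_lit 0, nat_lit 0, nat_lit 0⟩
theorem d_V_700_600_10_38 (h : EB TB.env) : Dead b_V_700_600_10_38 := chkB_sound0 h (T :=
(.spl (nat_lit 2) (nat_lit 160)
(.spl (nat_lit 0) (nat_lit 300)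
(.spl (nat_lit 2) (nat_lit 80)
(.spl (nat_lit 3) (nat_lit 60)
(.trX (nat_lit 19) (nat_lit 100) (nat_lit 85) (nat_lit 73) (nat_lit 312) (.leaf p059_l81))
(.leaf p059_l82))
(.spl (nat_lit 3) (nat_lit 60)
(.trX (nat_lit 19) (nat_lit 100) (nat_lit 85) (nat_lit 73) (nat_lit 312) (.spl (nat_lit 6) (nat_lit 72)
(.spl (nat_lit 5) (nat_lit 160)
(.leaf p059_l83)
(.leaf p059_l84))
(.leaf p059_l85)))
(.spl (nat_lit 6) (nat_lit 56)
(.leaf p059_l86)
(.leaf p059_l87))))
(.trZ (nat_lit 0) (nat_lit 100) (nat_lit 88) (nat_lit 68) (nat_lit 48) (.spl (nat_lit 2) (nat_lit 80)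
(.leaf p059_l88)
(.spl (nat_lit 1) (nat_lit 260)
(.leaf p059_l89)
(.trX (nat_lit 19) (nat_lit 100) (nat_lit 85) (nat_lit 84) (nat_lit 320) (.spl (nat_lit 5) (nat_lit 160)
(.leaf p059_l90)
(.leaf p059_l91)))))))
(.spl (nat_lit 5) (nat_lit 160)
(.leaf p059_l92)
(.leaf p059_l93)))) (by decide +kernel)
noncomputable def p059_l94 : Lf2 := ⟨nat_lit 0, nat_lit 15, [nat_lit 30, nat_lit 5, nat_lit 5, nat_lit 20], true, nat_lit 240, nat_lit 276, nat_lit 0, nat_lit 312, ⟨nat_lit 0, nat_lit 0, nat_lit 1000, nat_lit 6, nat_lit 117, nat_lit 1000, nat_lit 178, nat_lit 1000, nat_lit 45067, nat_lit 267, nat_lit 129067, nat_lit 303, nat_lit 50164133, nat_lit 0, nat_lit 0, nat_lit 3869075, false, false⟩,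
 nat_lit 0, nat_lit 5707, nat_lit 0, nat_lit 6073, nat_lit 3631, nat_lit 0, nat_lit 150, nat_lit 0, nat_lit 0, nat_lit 0, nat_lit 0, nat_lit 0, nat_lit 0, nat_lit 0, nat_lit 95, nat_lit 400000, nat_lit 0, nat_lit 0, [(nat_lit 13, [(nat_lit 5, nat_lit 1000)])],
 ⟨p059_k0, nat_lit 0, nat_lit 0, nat_lit 174, nat_lit 0, nat_lit 108920, [nat_lit 2390400000, nat_lit 1362133334, nat_lit 124400000], [], [nat_lit 16592743000, nat_lit 17707198081, nat_lit 16066433306, nat_lit 17081667742, nat_lit 18551444782, nat_lit 19980751147, nat_lit 17819918907, nat_lit 19202341899], nat_lit 1271250, nat_lit 1271250, nat_lit 205650, nat_lit 490000, nat_lit 1271250, nat_lit 1271250, [nat_lit 780000, nat_lit 1435000, nat_lit 1271250], [nat_lit 8, nat_lit 40, nat_lit 40, nat_lit 80, nat_lit 1, nat_lit 317, nat_lit 100, nat_lit 9]⟩, C1.Rw.none,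
 ⟨nat_lit 5000, nat_lit 5478, ⟨.ofNat (nat_lit 235487), .ofNat (nat_lit 317913), .ofNat (nat_lit 256844), .ofNat (nat_lit 339271), .ofNat (nat_lit 249999), .ofNat (nat_lit 328570), .ofNat (nat_lit 271427), .ofNat (nat_lit 349999)⟩, ⟨.ofNat (nat_lit 404075), .ofNat (nat_lit 471515), .ofNat (nat_lit 425432), .ofNat (nat_lit 492872), .ofNat (nat_lit 399998), .ofNat (nat_lit 464284), .ofNat (nat_lit 421427), .ofNat (nat_lit 485713)⟩⟩, [⟨nat_lit 0, nat_lit 100, nat_lit 91, nat_lit 77, nat_lit 184087817⟩, ⟨nat_lit 16, nat_lit 92, nat_lit 100, nat_lit 68, nat_lit 503450339⟩]⟩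
noncomputable def p059_l95 : Lf2 := ⟨nat_lit 0, nat_lit 15, [nat_lit 30, nat_lit 5, nat_lit 5, nat_lit 20], true, nat_lit 240, nat_lit 276, nat_lit 0, nat_lit 296, ⟨nat_lit 0, nat_lit 0, nat_lit 1000, nat_lit 6, nat_lit 128, nat_lit 1000, nat_lit 178, nat_lit 1000, nat_lit 45067, nat_lit 267, nat_lit 153600, nat_lit 311, nat_lit 49403165, nat_lit 0, nat_lit 0, nat_lit 4005860, false, false⟩,
 nat_lit 0, nat_lit 5707, nat_lit 0, nat_lit 1768, nat_lit 3631, nat_lit 0, nat_lit 109, nat_lit 0, nat_lit 0, nat_lit 0, nat_lit 0, nat_lit 0, nat_lit 0, nat_lit 0, nat_lit 95, nat_lit 400000, nat_lit 0, nat_lit 0, [(nat_lit 13, [(nat_lit 5, nat_lit 1000)])],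
 ⟨p059_k0, nat_lit 0, nat_lit 0, nat_lit 178, nat_lit 0, nat_lit 147049, [nat_lit 2390400000, nat_lit 1362133334, nat_lit 124400000], [], [nat_lit 16641270843, nat_lit 17685161193, nat_lit 16328705181, nat_lit 17343939617, nat_lit 18261835579, nat_lit 19679350578, nat_lit 17907766212, nat_lit 19202341899], nat_lit 1271250, nat_lit 1271250, nat_lit 279600, nat_lit 490000, nat_lit 1271250, nat_lit 1271250, [nat_lit 780000, nat_lit 1435000, nat_lit 1271250], [nat_lit 8, nat_lit 40, nat_lit 40, nat_lit 80, nat_lit 1, nat_lit 317, nat_lit 100, nat_lit 9]⟩, C1.Rw.none,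
 ⟨nat_lit 5000, nat_lit 5478, ⟨.ofNat (nat_lit 279324), .ofNat (nat_lit 339271), .ofNat (nat_lit 290003), .ofNat (nat_lit 349949), .ofNat (nat_lit 292856), .ofNat (nat_lit 349999), .ofNat (nat_lit 303570), .ofNat (nat_lit 360713)⟩, ⟨.ofNat (nat_lit 404075), .ofNat (nat_lit 471515), .ofNat (nat_lit 425432), .ofNat (nat_lit 492872), .ofNat (nat_lit 399998), .ofNat (nat_lit 464284), .ofNat (nat_lit 421427), .ofNat (nat_lit 485713)⟩⟩, [⟨nat_lit 0, nat_lit 100, nat_lit 94, nat_lit 76, nat_lit 171647504⟩, ⟨nat_lit 4, nat_lit 100, nat_lit 92, nat_lit 68, nat_lit 340093252⟩]⟩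
noncomputable def p059_l96 : Lf2 := ⟨nat_lit 0, nat_lit 15, [nat_lit 30, nat_lit 5, nat_lit 5, nat_lit 20], true, nat_lit 240, nat_lit 276, nat_lit 0, nat_lit 288, ⟨nat_lit 0, nat_lit 0, nat_lit 1000, nat_lit 6, nat_lit 134, nat_lit 1000, nat_lit 178, nat_lit 1000, nat_lit 45067, nat_lit 267, nat_lit 170017, nat_lit 316, nat_lit 48962434, nat_lit 0, nat_lit 0, nat_lit 4080576, false, false⟩,
 nat_lit 0, nat_lit 5707, nat_lit 0, nat_lit 1523, nat_lit 3631, nat_lit 0, nat_lit 112, nat_lit 0, nat_lit 0, nat_lit 0, nat_lit 0, nat_lit 0, nat_lit 0, nat_lit 0, nat_lit 95, nat_lit 400000, nat_lit 0, nat_lit 0, [(nat_lit 13, [(nat_lit 5, nat_lit 1000)])],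
 ⟨p059_k0, nat_lit 0, nat_lit 0, nat_lit 180, nat_lit 0, nat_lit 168854, [nat_lit 2390400000, nat_lit 1362133334, nat_lit 124400000], [], [nat_lit 16543711676, nat_lit 17580665174, nat_lit 16309514556, nat_lit 17324748992, nat_lit 18154127612, nat_lit 19560098408, nat_lit 17888575587, nat_lit 19202341899], nat_lit 1271250, nat_lit 1271250, nat_lit 330400, nat_lit 490000, nat_lit 1271250, nat_lit 1271250, [nat_lit 780000, nat_lit 1435000, nat_lit 1271250], [nat_lit 8, nat_lit 40, nat_lit 40, nat_lit 80, nat_lit 1, nat_lit 317, nat_lit 100, nat_lit 8]⟩, C1.Rw.none,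
 ⟨nat_lit 5000, nat_lit 5478, ⟨.ofNat (nat_lit 304989), .ofNat (nat_lit 349949), .ofNat (nat_lit 310328), .ofNat (nat_lit 355288), .ofNat (nat_lit 317856), .ofNat (nat_lit 360713), .ofNat (nat_lit 323213), .ofNat (nat_lit 366069)⟩, ⟨.ofNat (nat_lit 404075), .ofNat (nat_lit 471515), .ofNat (nat_lit 425432), .ofNat (nat_lit 492872), .ofNat (nat_lit 399998), .ofNat (nat_lit 464284), .ofNat (nat_lit 421427), .ofNat (nat_lit 485713)⟩⟩, [⟨nat_lit 0, nat_lit 100, nat_lit 96, nat_lit 80, nat_lit 170746353⟩, ⟨nat_lit 16, nat_lit 92, nat_lit 100, nat_lit 68, nat_lit 316341990⟩, ⟨nat_lit 16, nat_lit 99, nat_lit 100, nat_lit 77, nat_lit 17642669⟩]⟩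
noncomputable def p059_l97 : Lf2 := ⟨nat_lit 0, nat_lit 15, [nat_lit 30, nat_lit 5, nat_lit 5, nat_lit 20], false, nat_lit 240, nat_lit 276, nat_lit 0, nat_lit 280, ⟨nat_lit 1000, nat_lit 0, nat_lit 0, nat_lit 0, nat_lit 0, nat_lit 0, nat_lit 0, nat_lit 0, nat_lit 0, nat_lit 0, nat_lit 0, nat_lit 0, nat_lit 0, nat_lit 0, nat_lit 0, nat_lit 0, false, false⟩,
 nat_lit 0, nat_lit 22265, nat_lit 0, nat_lit 0, nat_lit 14168, nat_lit 18091, nat_lit 591, nat_lit 0, nat_lit 0, nat_lit 0, nat_lit 0, nat_lit 0, nat_lit 0, nat_lit 0, nat_lit 0, nat_lit 0, nat_lit 0, nat_lit 0, [],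
 ⟨p059_k24, nat_lit 0, nat_lit 0, nat_lit 194, nat_lit 0, nat_lit 191330, [nat_lit 3282000000, nat_lit 7968000001, nat_lit 9842000000], [], [nat_lit 20470328187, nat_lit 22713281731, nat_lit 18678304219, nat_lit 20872736651, nat_lit 23687632222, nat_lit 27036311339, nat_lit 21826906412, nat_lit 24806706667], nat_lit 1271250, nat_lit 1271250, nat_lit 356250, nat_lit 490000, nat_lit 1271250, nat_lit 1271250, [nat_lit 780000, nat_lit 1762500, nat_lit 1271250], [nat_lit 99, nat_lit 40, nat_lit 40, nat_lit 80, nat_lit 17, nat_lit 317, nat_lit 100, nat_lit 8]⟩, ⟨p059_k25, nat_lit 0, nat_lit 0, nat_lit 178, nat_lit 0, nat_lit 0, [nat_lit 4688000000, nat_lit 9842000000], [], [nat_lit 34871512977, nat_lit 35718134366, nat_lit 32021405966, nat_lit 32852925720, nat_lit 26031185502, nat_lit 26510350610, nat_lit 23561484694, nat_lit 24020982038], nat_lit 0, nat_lit 0, nat_lit 0, nat_lit 0, nat_lit 0, nat_lit 0, [], [nat_lit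 70, nat_lit 40, nat_lit 40, nat_lit 80, nat_lit 13, nat_lit 401, nat_lit 175, nat_lit 12]⟩,
 zbF0, [⟨nat_lit 0, nat_lit 100, nat_lit 99, nat_lit 77, nat_lit 1722765624⟩, ⟨nat_lit 16, nat_lit 92, nat_lit 100, nat_lit 68, nat_lit 1087110929⟩, ⟨nat_lit 7, nat_lit 100, nat_lit 97, nat_lit 70, nat_lit 16680011⟩]⟩
noncomputable def p059_l98 : Lf2 := ⟨nat_lit 0, nat_lit 15, [nat_lit 30, nat_lit 5, nat_lit 5, nat_lit 20], true, nat_lit 240, nat_lit 276, nat_lit 0, nat_lit 296, ⟨nat_lit 0, nat_lit 0, nat_lit 1000, nat_lit 6, nat_lit 130, nat_lit 1000, nat_lit 178, nat_lit 1000, nat_lit 45067, nat_lit 267, nat_lit 160067, nat_lit 313, nat_lit 49250203, nat_lit 0, nat_lit 0, nat_lit 4032152, false, false⟩,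
 nat_lit 0, nat_lit 10051, nat_lit 0, nat_lit 5423, nat_lit 6396, nat_lit 0, nat_lit 0, nat_lit 0, nat_lit 0, nat_lit 0, nat_lit 0, nat_lit 0, nat_lit 0, nat_lit 0, nat_lit 66, nat_lit 248000, nat_lit 0, nat_lit 0, [(nat_lit 13, [(nat_lit 3, nat_lit 40), (nat_lit 4, nat_lit 960)])],
 ⟨p059_k0, nat_lit 0, nat_lit 0, nat_lit 152, nat_lit 0, nat_lit 73729, [nat_lit 4553280000, nat_lit 1031392001, nat_lit 280336000], [], [nat_lit 17154483162, nat_lit 18947931572, nat_lit 16176659696, nat_lit 17736755104, nat_lit 20025820416, nat_lit 21960921296, nat_lit 18791381749, nat_lit 20672975721], nat_lit 1271250, nat_lit 1271250, nat_lit 279600, nat_lit 490000, nat_lit 1271250, nat_lit 1271250, [nat_lit 780000, nat_lit 1435000, nat_lit 1271250], [nat_lit 8, nat_lit 40, nat_lit 40, nat_lit 80, nat_lit 1, nat_lit 317, nat_lit 100, nat_lit 9]⟩, C1.Rw.none,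
 ⟨nat_lit 5000, nat_lit 5478, ⟨.ofNat (nat_lit 279324), .ofNat (nat_lit 339271), .ofNat (nat_lit 300681), .ofNat (nat_lit 360625), .ofNat (nat_lit 292856), .ofNat (nat_lit 349999), .ofNat (nat_lit 314284), .ofNat (nat_lit 371424)⟩, ⟨.ofNat (nat_lit 404075), .ofNat (nat_lit 471515), .ofNat (nat_lit 425432), .ofNat (nat_lit 492872), .ofNat (nat_lit 399998), .ofNat (nat_lit 464284), .ofNat (nat_lit 421427), .ofNat (nat_lit 485713)⟩⟩, [⟨nat_lit 0, nat_lit 100, nat_lit 94, nat_lit 88, nat_lit 310196291⟩, ⟨nat_lit 4, nat_lit 100, nat_lit 92, nat_lit 68, nat_lit 667565197⟩]⟩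
noncomputable def p059_l99 : Lf2 := ⟨nat_lit 0, nat_lit 15, [nat_lit 30, nat_lit 5, nat_lit 5, nat_lit 20], false, nat_lit 240, nat_lit 276, nat_lit 0, nat_lit 160, ⟨nat_lit 1000, nat_lit 0, nat_lit 0, nat_lit 0, nat_lit 0, nat_lit 0, nat_lit 0, nat_lit 0, nat_lit 0, nat_lit 0, nat_lit 0, nat_lit 0, nat_lit 0, nat_lit 0, nat_lit 0, nat_lit 0, false, false⟩,
 nat_lit 0, nat_lit 16159, nat_lit 0, nat_lit 0, nat_lit 10283, nat_lit 6988, nat_lit 1251, nat_lit 0, nat_lit 0, nat_lit 1360, nat_lit 0, nat_lit 0, nat_lit 0, nat_lit 0, nat_lit 0, nat_lit 0, nat_lit 0, nat_lit 0, [],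
 ⟨p059_k0, nat_lit 0, nat_lit 0, nat_lit 229, nat_lit 0, nat_lit 350498, [nat_lit 3282000000, nat_lit 6250000000, nat_lit 9842000000], [], [nat_lit 17017023944, nat_lit 18777009592, nat_lit 16185318848, nat_lit 17877267764, nat_lit 20157051213, nat_lit 22740373069, nat_lit 19095183022, nat_lit 21374806217], nat_lit 1271250, nat_lit 1271250, nat_lit 490000, nat_lit 1100001, nat_lit 1271250, nat_lit 1271250, [nat_lit 780000, nat_lit 1435000, nat_lit 1271250], [nat_lit 8, nat_lit 40, nat_lit 40, nat_lit 80, nat_lit 1, nat_lit 345, nat_lit 125, nat_lit 9]⟩, ⟨p059_k11, nat_lit 0, nat_lit 0, nat_lit 235, nat_lit 0, nat_lit 0, [nat_lit 4688000000, nat_lit 7968000000, nat_lit 11872000000], [], [nat_lit 22914607312, nat_lit 25859118544, nat_lit 22787793984, nat_lit 25291229488, nat_lit 19076222688, nat_lit 21173962592, nat_lit 19090420480, nat_lit 21466174752], nat_lit 0, nat_lit 0, nat_lit 0, nat_lit 0, nat_lit 0, nat_lit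 0, [], [nat_lit 21, nat_lit 40, nat_lit 40, nat_lit 80, nat_lit 14, nat_lit 373, nat_lit 150, nat_lit 10]⟩,
 zbF0, [⟨nat_lit 4, nat_lit 100, nat_lit 92, nat_lit 68, nat_lit 1426948932⟩]⟩
noncomputable def p059_l100 : Lf2 := ⟨nat_lit 0, nat_lit 15, [nat_lit 30, nat_lit 5, nat_lit 5, nat_lit 20], false, nat_lit 240, nat_lit 276, nat_lit 160, nat_lit 312, ⟨nat_lit 1000, nat_lit 0, nat_lit 0, nat_lit 0, nat_lit 0, nat_lit 0, nat_lit 0, nat_lit 0, nat_lit 0, nat_lit 0, nat_lit 0, nat_lit 0, nat_lit 0, nat_lit 0, nat_lit 0, nat_lit 0, false, false⟩,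
 nat_lit 0, nat_lit 16073, nat_lit 0, nat_lit 0, nat_lit 10228, nat_lit 6655, nat_lit 1258, nat_lit 0, nat_lit 0, nat_lit 0, nat_lit 0, nat_lit 0, nat_lit 0, nat_lit 0, nat_lit 0, nat_lit 0, nat_lit 0, nat_lit 0, [],
 ⟨p059_k0, nat_lit 0, nat_lit 0, nat_lit 229, nat_lit 0, nat_lit 350498, [nat_lit 3282000000, nat_lit 6250000000, nat_lit 9842000000], [], [nat_lit 17119600704, nat_lit 18763338960, nat_lit 16301200768, nat_lit 17877569824, nat_lit 20137727359, nat_lit 22711119955, nat_lit 19091606152, nat_lit 21362699023], nat_lit 1271250, nat_lit 1271250, nat_lit 490000, nat_lit 1100001, nat_lit 1271250, nat_lit 1271250, [nat_lit 780000, nat_lit 1435000, nat_lit 1271250], [nat_lit 8, nat_lit 40, nat_lit 40, nat_lit 80, nat_lit 1, nat_lit 345, nat_lit 125, nat_lit 9]⟩, ⟨p059_k11, nat_lit 0, nat_lit 0, nat_lit 69, nat_lit 0, nat_lit 0, [nat_lit 4688000000, nat_lit 7968000000, nat_lit 11872000000], [], [nat_lit 8799738500,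 nat_lit 12628226080, nat_lit 10174004440, nat_lit 13549781880, nat_lit 19581598661, nat_lit 22098318206, nat_lit 19684491208, nat_lit 21915621372], nat_lit 0, nat_lit 0, nat_lit 0, nat_lit 0, nat_lit 0, nat_lit 0, [], [nat_lit 21, nat_lit 40, nat_lit 40, nat_lit 80, nat_lit 14, nat_lit 428, nat_lit 200, nat_lit 11]⟩,
 zbF0, [⟨nat_lit 0, nat_lit 100, nat_lit 94, nat_lit 88, nat_lit 77013528⟩, ⟨nat_lit 16, nat_lit 92, nat_lit 100, nat_lit 68, nat_lit 1262541595⟩, ⟨nat_lit 7, nat_lit 96, nat_lit 100, nat_lit 69, nat_lit 774014084⟩]⟩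
noncomputable def p059_l101 : Lf2 := ⟨nat_lit 1, nat_lit 15, [nat_lit 30, nat_lit 5, nat_lit 5, nat_lit 20], false, nat_lit 240, nat_lit 276, nat_lit 0, nat_lit 312, zbN0,
 nat_lit 0, nat_lit 0, nat_lit 0, nat_lit 0, nat_lit 0, nat_lit 0, nat_lit 0, nat_lit 0, nat_lit 0, nat_lit 0, nat_lit 0, nat_lit 0, nat_lit 0, nat_lit 0, nat_lit 0, nat_lit 0, nat_lit 0, nat_lit 0, [],
 C1.Rw.none, C1.Rw.none,
 zbF0, []⟩
noncomputable def p059_l102 : Lf2 := ⟨nat_lit 1, nat_lit 14, [nat_lit 119, nat_lit 5, nat_lit 5, nat_lit 20], false, nat_lit 240, nat_lit 280, nat_lit 0, nat_lit 336, zbN0,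
 nat_lit 0, nat_lit 0, nat_lit 0, nat_lit 0, nat_lit 0, nat_lit 0, nat_lit 0, nat_lit 0, nat_lit 0, nat_lit 0, nat_lit 0, nat_lit 0, nat_lit 0, nat_lit 0, nat_lit 0, nat_lit 0, nat_lit 0, nat_lit 0, [],
 C1.Rw.none, C1.Rw.none,
 zbF0, []⟩
noncomputable def p059_l103 : Lf2 := ⟨nat_lit 0, nat_lit 14, [nat_lit 119, nat_lit 5, nat_lit 5, nat_lit 20], true, nat_lit 240, nat_lit 280, nat_lit 0, nat_lit 320, ⟨nat_lit 0, nat_lit 1000, nat_lit 0, nat_lit 6, nat_lit 129, nat_lit 1000, nat_lit 189, nat_lit 0, nat_lit 0, nat_lit 0, nat_lit 0, nat_lit 0, nat_lit 48405912, nat_lit 6620102, nat_lit 11973986, nat_lit 4123299, false, false⟩,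
 nat_lit 0, nat_lit 6864, nat_lit 0, nat_lit 4861, nat_lit 4368, nat_lit 0, nat_lit 0, nat_lit 0, nat_lit 0, nat_lit 0, nat_lit 0, nat_lit 0, nat_lit 0, nat_lit 0, nat_lit 0, nat_lit 250000, nat_lit 0, nat_lit 0, [(nat_lit 13, [(nat_lit 0, nat_lit 1000)])],
 ⟨p059_k2, nat_lit 0, nat_lit 0, nat_lit 107, nat_lit 0, nat_lit 26584, [nat_lit 2378400000, nat_lit 2909733334, nat_lit 3539066666], [], [nat_lit 16196803853, nat_lit 16971636433, nat_lit 15820440128, nat_lit 16570248104, nat_lit 19021934004, nat_lit 19791351947, nat_lit 18391472784, nat_lit 19111650628], nat_lit 1271250, nat_lit 1271250, nat_lit 279600, nat_lit 490000, nat_lit 1271250, nat_lit 1271250, [nat_lit 780000, nat_lit 1435000, nat_lit 1271250], [nat_lit 8, nat_lit 40, nat_lit 40, nat_lit 80, nat_lit 1, nat_lit 317, nat_lit 100, nat_lit 9]⟩, C1.Rw.none,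
 ⟨nat_lit 5244, nat_lit 5478, ⟨.ofNat (nat_lit 279324), .ofNat (nat_lit 339271), .ofNat (nat_lit 300681), .ofNat (nat_lit 360628), .ofNat (nat_lit 286104), .ofNat (nat_lit 344641), .ofNat (nat_lit 307490), .ofNat (nat_lit 366027)⟩, ⟨.ofNat (nat_lit 425432), .ofNat (nat_lit 500365), .ofNat (nat_lit 446789), .ofNat (nat_lit 521722), .ofNat (nat_lit 423472), .ofNat (nat_lit 496643), .ofNat (nat_lit 444857), .ofNat (nat_lit 518028)⟩⟩, [⟨nat_lit 0, nat_lit 100, nat_lit 97, nat_lit 84, nat_lit 213407717⟩, ⟨nat_lit 4, nat_lit 100, nat_lit 99, nat_lit 83, nat_lit 317725675⟩]⟩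
noncomputable def p059_l104 : Lf2 := ⟨nat_lit 0, nat_lit 14, [nat_lit 119, nat_lit 5, nat_lit 5, nat_lit 20], true, nat_lit 240, nat_lit 280, nat_lit 0, nat_lit 320, ⟨nat_lit 0, nat_lit 1000, nat_lit 0, nat_lit 6, nat_lit 134, nat_lit 1000, nat_lit 188, nat_lit 0, nat_lit 0, nat_lit 0, nat_lit 0, nat_lit 0, nat_lit 48150491, nat_lit 6984762, nat_lit 11864747, nat_lit 4171544, false, false⟩,
 nat_lit 0, nat_lit 6501, nat_lit 0, nat_lit 3625, nat_lit 4317, nat_lit 0, nat_lit 0, nat_lit 0, nat_lit 0, nat_lit 0, nat_lit 0, nat_lit 0, nat_lit 0, nat_lit 0, nat_lit 0, nat_lit 250000, nat_lit 0, nat_lit 0, [(nat_lit 13, [(nat_lit 0, nat_lit 1000)])],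
 ⟨p059_k23, nat_lit 0, nat_lit 0, nat_lit 100, nat_lit 0, nat_lit 50978, [nat_lit 2378400000, nat_lit 2909733334, nat_lit 3539066666], [], [nat_lit 16904042893, nat_lit 17285195565, nat_lit 16613464076, nat_lit 16986062048, nat_lit 19586194665, nat_lit 19966076450, nat_lit 19098866457, nat_lit 19459984347], nat_lit 1271250, nat_lit 1271250, nat_lit 330400, nat_lit 490000, nat_lit 1271250, nat_lit 1271250, [nat_lit 780000, nat_lit 1435000, nat_lit 1271250], [nat_lit 8, nat_lit 40, nat_lit 40, nat_lit 80, nat_lit 1, nat_lit 317, nat_lit 100, nat_lit 8]⟩, C1.Rw.none,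
 ⟨nat_lit 5123, nat_lit 5245, ⟨.ofNat (nat_lit 300739), .ofNat (nat_lit 344641), .ofNat (nat_lit 322124), .ofNat (nat_lit 366027), .ofNat (nat_lit 303942), .ofNat (nat_lit 347320), .ofNat (nat_lit 325347), .ofNat (nat_lit 368725)⟩, ⟨.ofNat (nat_lit 423472), .ofNat (nat_lit 496643), .ofNat (nat_lit 444857), .ofNat (nat_lit 518028), .ofNat (nat_lit 422461), .ofNat (nat_lit 494759), .ofNat (nat_lit 443866), .ofNat (nat_lit 516164)⟩⟩, [⟨nat_lit 0, nat_lit 100, nat_lit 96, nat_lit 86, nat_lit 214730499⟩, ⟨nat_lit 4, nat_lit 100, nat_lit 96, nat_lit 82, nat_lit 329942874⟩]⟩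
noncomputable def p059_l105 : Lf2 := ⟨nat_lit 0, nat_lit 14, [nat_lit 119, nat_lit 5, nat_lit 5, nat_lit 20], true, nat_lit 240, nat_lit 280, nat_lit 0, nat_lit 320, ⟨nat_lit 0, nat_lit 1000, nat_lit 0, nat_lit 6, nat_lit 134, nat_lit 1000, nat_lit 187, nat_lit 0, nat_lit 0, nat_lit 0, nat_lit 0, nat_lit 0, nat_lit 48167458, nat_lit 7024055, nat_lit 11808487, nat_lit 4171597, false, false⟩,
 nat_lit 0, nat_lit 6320, nat_lit 0, nat_lit 4317, nat_lit 4285, nat_lit 0, nat_lit 0, nat_lit 0, nat_lit 0, nat_lit 0, nat_lit 0, nat_lit 0, nat_lit 0, nat_lit 0, nat_lit 0, nat_lit 250000, nat_lit 0, nat_lit 0, [(nat_lit 13, [(nat_lit 0, nat_lit 1000)])],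
 ⟨p059_k26, nat_lit 0, nat_lit 0, nat_lit 95, nat_lit 0, nat_lit 33286, [nat_lit 2378400000, nat_lit 3241200000, nat_lit 3504400000], [], [nat_lit 17256295690, nat_lit 17634538930, nat_lit 17011731040, nat_lit 17382882100, nat_lit 19859334654, nat_lit 20236522755, nat_lit 19453083063, nat_lit 19814453260], nat_lit 1271250, nat_lit 1271250, nat_lit 356250, nat_lit 490000, nat_lit 1271250, nat_lit 1271250, [nat_lit 780000, nat_lit 1762500, nat_lit 1271250], [nat_lit 99, nat_lit 40, nat_lit 40, nat_lit 80, nat_lit 17, nat_lit 317, nat_lit 100, nat_lit 8]⟩, C1.Rw.none,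
 ⟨nat_lit 5000, nat_lit 5124, ⟨.ofNat (nat_lit 311172), .ofNat (nat_lit 347320), .ofNat (nat_lit 321874), .ofNat (nat_lit 358023), .ofNat (nat_lit 314284), .ofNat (nat_lit 349998), .ofNat (nat_lit 324998), .ofNat (nat_lit 360712)⟩, ⟨.ofNat (nat_lit 422461), .ofNat (nat_lit 494759), .ofNat (nat_lit 443866), .ofNat (nat_lit 516164), .ofNat (nat_lit 421427), .ofNat (nat_lit 492856), .ofNat (nat_lit 442856), .ofNat (nat_lit 514284)⟩⟩, [⟨nat_lit 0, nat_lit 100, nat_lit 92, nat_lit 82, nat_lit 222332531⟩, ⟨nat_lit 4, nat_lit 100, nat_lit 93, nat_lit 81, nat_lit 343057333⟩]⟩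
noncomputable def p059_l106 : Lf2 := ⟨nat_lit 0, nat_lit 14, [nat_lit 119, nat_lit 5, nat_lit 5, nat_lit 20], true, nat_lit 240, nat_lit 280, nat_lit 0, nat_lit 308, ⟨nat_lit 0, nat_lit 1000, nat_lit 0, nat_lit 6, nat_lit 142, nat_lit 1000, nat_lit 187, nat_lit 0, nat_lit 0, nat_lit 0, nat_lit 0, nat_lit 0, nat_lit 47660299, nat_lit 7580278, nat_lit 11759423, nat_lit 4254399, false, false⟩,
 nat_lit 0, nat_lit 6332, nat_lit 0, nat_lit 3005, nat_lit 4294, nat_lit 0, nat_lit 0, nat_lit 0, nat_lit 0, nat_lit 0, nat_lit 0, nat_lit 0, nat_lit 0, nat_lit 0, nat_lit 0, nat_lit 250000, nat_lit 0, nat_lit 0, [(nat_lit 13, [(nat_lit 0, nat_lit 1000)])],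
 ⟨p059_k26, nat_lit 0, nat_lit 0, nat_lit 107, nat_lit 0, nat_lit 75262, [nat_lit 2378400000, nat_lit 3241200000, nat_lit 3504400000], [], [nat_lit 17152045792, nat_lit 17527865304, nat_lit 17004511636, nat_lit 17376069640, nat_lit 19698618432, nat_lit 20073739179, nat_lit 19448243875, nat_lit 19819504384], nat_lit 1271250, nat_lit 1271250, nat_lit 408851, nat_lit 490000, nat_lit 1271250, nat_lit 1271250, [nat_lit 780000, nat_lit 1762500, nat_lit 1271250], [nat_lit 99, nat_lit 40, nat_lit 40, nat_lit 80, nat_lit 17, nat_lit 317, nat_lit 100, nat_lit 8]⟩, C1.Rw.none,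
 ⟨nat_lit 5000, nat_lit 5124, ⟨.ofNat (nat_lit 336333), .ofNat (nat_lit 358023), .ofNat (nat_lit 347036), .ofNat (nat_lit 368725), .ofNat (nat_lit 339284), .ofNat (nat_lit 360712), .ofNat (nat_lit 349998), .ofNat (nat_lit 371427)⟩, ⟨.ofNat (nat_lit 422461), .ofNat (nat_lit 494759), .ofNat (nat_lit 443866), .ofNat (nat_lit 516164), .ofNat (nat_lit 421427), .ofNat (nat_lit 492856), .ofNat (nat_lit 442856), .ofNat (nat_lit 514284)⟩⟩, [⟨nat_lit 0, nat_lit 100, nat_lit 94, nat_lit 84, nat_lit 224701158⟩, ⟨nat_lit 4, nat_lit 100, nat_lit 93, nat_lit 81, nat_lit 345676742⟩]⟩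
noncomputable def p059_l107 : Lf2 := ⟨nat_lit 0, nat_lit 14, [nat_lit 119, nat_lit 5, nat_lit 5, nat_lit 20], false, nat_lit 240, nat_lit 280, nat_lit 0, nat_lit 160, ⟨nat_lit 1000, nat_lit 0, nat_lit 0, nat_lit 0, nat_lit 0, nat_lit 0, nat_lit 0, nat_lit 0, nat_lit 0, nat_lit 0, nat_lit 0, nat_lit 0, nat_lit 0, nat_lit 0, nat_lit 0, nat_lit 0, false, false⟩,
 nat_lit 0, nat_lit 21283, nat_lit 0, nat_lit 0, nat_lit 13543, nat_lit 6988, nat_lit 626, nat_lit 0, nat_lit 0, nat_lit 2663, nat_lit 0, nat_lit 0, nat_lit 0, nat_lit 0, nat_lit 0, nat_lit 0, nat_lit 0, nat_lit 0, [],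
 ⟨p059_k27, nat_lit 0, nat_lit 0, nat_lit 154, nat_lit 0, nat_lit 143522, [nat_lit 3282000000, nat_lit 4688000000, nat_lit 9842000000], [], [nat_lit 19750508594, nat_lit 21875051026, nat_lit 18008808210, nat_lit 20008895546, nat_lit 23145574224, nat_lit 25013100314, nat_lit 21198647218, nat_lit 22960443577], nat_lit 1271250, nat_lit 1271250, nat_lit 490000, nat_lit 780000, nat_lit 1271250, nat_lit 1271250, [nat_lit 780000, nat_lit 1100000, nat_lit 2127500], [nat_lit 42, nat_lit 40, nat_lit 40, nat_lit 80, nat_lit 13, nat_lit 317, nat_lit 100, nat_lit 8]⟩, ⟨p059_k28, nat_lit 0, nat_lit 0, nat_lit 220, nat_lit 0, nat_lit 0, [nat_lit 4688000000, nat_lit 6250000000, nat_lit 11872000000], [], [nat_lit 19218172937, nat_lit 22162684169, nat_lit 18755952505, nat_lit 21439931161, nat_lit 15379788313, nat_lit 17476642928, nat_lit 15049272089, nat_lit 17424039056], nat_lit 0, nat_lit 0, nat_lit 0, nat_lit 0, nat_lit 0,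 nat_lit 0, [], [nat_lit 48, nat_lit 40, nat_lit 40, nat_lit 80, nat_lit 12, nat_lit 373, nat_lit 150, nat_lit 10]⟩,
 zbF0, [⟨nat_lit 0, nat_lit 100, nat_lit 94, nat_lit 88, nat_lit 296173856⟩, ⟨nat_lit 4, nat_lit 100, nat_lit 97, nat_lit 82, nat_lit 787673252⟩]⟩
noncomputable def p059_l108 : Lf2 := ⟨nat_lit 0, nat_lit 14, [nat_lit 119, nat_lit 5, nat_lit 5, nat_lit 20], false, nat_lit 240, nat_lit 280, nat_lit 160, nat_lit 336, ⟨nat_lit 1000, nat_lit 0, nat_lit 0, nat_lit 0, nat_lit 0, nat_lit 0, nat_lit 0, nat_lit 0, nat_lit 0, nat_lit 0, nat_lit 0, nat_lit 0, nat_lit 0, nat_lit 0, nat_lit 0, nat_lit 0, false, false⟩,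
 nat_lit 0, nat_lit 20614, nat_lit 0, nat_lit 0, nat_lit 13117, nat_lit 6339, nat_lit 708, nat_lit 0, nat_lit 0, nat_lit 0, nat_lit 0, nat_lit 0, nat_lit 0, nat_lit 0, nat_lit 0, nat_lit 0, nat_lit 0, nat_lit 0, [],
 ⟨p059_k27, nat_lit 0, nat_lit 0, nat_lit 154, nat_lit 0, nat_lit 143522, [nat_lit 3282000000, nat_lit 4688000000, nat_lit 9842000000], [], [nat_lit 19622520436, nat_lit 21699425844, nat_lit 17961030740, nat_lit 19916919724, nat_lit 22947121406, nat_lit 24774335116, nat_lit 21086008692, nat_lit 22813116163], nat_lit 1271250, nat_lit 1271250, nat_lit 490000, nat_lit 780000, nat_lit 1271250, nat_lit 1271250, [nat_lit 780000, nat_lit 1100000, nat_lit 2127500], [nat_lit 42, nat_lit 40, nat_lit 40, nat_lit 80, nat_lit 13, nat_lit 317, nat_lit 100, nat_lit 8]⟩, ⟨p059_k28, nat_lit 0, nat_lit 0, nat_lit 71, nat_lit 0, nat_lit 0, [nat_lit 4688000000, nat_lit 6250000000, nat_lit 11872000000], [], [nat_lit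 9303347700, nat_lit 13018822304, nat_lit 9603515908, nat_lit 13119928532, nat_lit 22022201052, nat_lit 24265191334, nat_lit 21662124360, nat_lit 23794175355], nat_lit 0, nat_lit 0, nat_lit 0, nat_lit 0, nat_lit 0, nat_lit 0, [], [nat_lit 48, nat_lit 40, nat_lit 40, nat_lit 80, nat_lit 12, nat_lit 428, nat_lit 200, nat_lit 11]⟩,
 zbF0, [⟨nat_lit 0, nat_lit 100, nat_lit 94, nat_lit 88, nat_lit 1891998⟩, ⟨nat_lit 4, nat_lit 100, nat_lit 97, nat_lit 82, nat_lit 777755629⟩, ⟨nat_lit 19, nat_lit 100, nat_lit 89, nat_lit 80, nat_lit 684874655⟩]⟩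
noncomputable def p059_l109 : Lf2 := ⟨nat_lit 0, nat_lit 14, [nat_lit 119, nat_lit 5, nat_lit 5, nat_lit 20], true, nat_lit 240, nat_lit 280, nat_lit 0, nat_lit 336, ⟨nat_lit 0, nat_lit 1000, nat_lit 0, nat_lit 6, nat_lit 182, nat_lit 1000, nat_lit 188, nat_lit 0, nat_lit 0, nat_lit 0, nat_lit 0, nat_lit 0, nat_lit 44649973, nat_lit 10863742, nat_lit 11486285, nat_lit 4668066, false, false⟩,
 nat_lit 0, nat_lit 6881, nat_lit 0, nat_lit 0, nat_lit 4378, nat_lit 0, nat_lit 0, nat_lit 0, nat_lit 0, nat_lit 0, nat_lit 0, nat_lit 0, nat_lit 0, nat_lit 0, nat_lit 0, nat_lit 250000, nat_lit 0, nat_lit 0, [(nat_lit 13, [(nat_lit 0, nat_lit 1000)])],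
 ⟨p059_k27, nat_lit 0, nat_lit 0, nat_lit 80, nat_lit 0, nat_lit 143522, [nat_lit 2378400000, nat_lit 2612400001, nat_lit 3530400000], [], [nat_lit 16045639552, nat_lit 17474062612, nat_lit 16815714112, nat_lit 18159823696, nat_lit 18498191952, nat_lit 19791710752, nat_lit 19125045356, nat_lit 20344039142], nat_lit 1271250, nat_lit 1271250, nat_lit 780000, nat_lit 1100001, nat_lit 1271250, nat_lit 1271250, [nat_lit 780000, nat_lit 1100000, nat_lit 2127500], [nat_lit 42, nat_lit 40, nat_lit 40, nat_lit 80, nat_lit 13, nat_lit 345, nat_lit 125, nat_lit 9]⟩, C1.Rw.none,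
 ⟨nat_lit 5000, nat_lit 5478, ⟨.ofNat (nat_lit 392847), .ofNat (nat_lit 467773), .ofNat (nat_lit 435548), .ofNat (nat_lit 510468), .ofNat (nat_lit 399998), .ofNat (nat_lit 471421), .ofNat (nat_lit 442843), .ofNat (nat_lit 514258)⟩, ⟨.ofNat (nat_lit 425432), .ofNat (nat_lit 500365), .ofNat (nat_lit 446789), .ofNat (nat_lit 521722), .ofNat (nat_lit 421427), .ofNat (nat_lit 492856), .ofNat (nat_lit 442856), .ofNat (nat_lit 514284)⟩⟩, [⟨nat_lit 4, nat_lit 100, nat_lit 97, nat_lit 82, nat_lit 311190584⟩]⟩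
noncomputable def p059_l110 : Lf2 := ⟨nat_lit 0, nat_lit 14, [nat_lit 119, nat_lit 5, nat_lit 5, nat_lit 20], true, nat_lit 280, nat_lit 300, nat_lit 0, nat_lit 336, ⟨nat_lit 0, nat_lit 0, nat_lit 1000, nat_lit 6, nat_lit 151, nat_lit 1000, nat_lit 210, nat_lit 1000, nat_lit 3701, nat_lit 228, nat_lit 24681, nat_lit 252, nat_lit 45071214, nat_lit 0, nat_lit 0, nat_lit 4551765, false, false⟩,
 nat_lit 0, nat_lit 5494, nat_lit 0, nat_lit 100000, nat_lit 3496, nat_lit 0, nat_lit 0, nat_lit 0, nat_lit 0, nat_lit 0, nat_lit 0, nat_lit 0, nat_lit 0, nat_lit 0, nat_lit 101, nat_lit 436600, nat_lit 0, nat_lit 0, [(nat_lit 13, [(nat_lit 5, nat_lit 939), (nat_lit 6, nat_lit 61)])],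
 ⟨p059_k2, nat_lit 0, nat_lit 0, nat_lit 193, nat_lit 0, nat_lit 143522, [nat_lit 2455771334, nat_lit 1446078267, nat_lit 59380000], [], [nat_lit 19151073178, nat_lit 20099372406, nat_lit 19127933520, nat_lit 20099927716, nat_lit 20046418767, nat_lit 21341817786, nat_lit 20052956972, nat_lit 21191602816], nat_lit 1271250, nat_lit 1271250, nat_lit 205650, nat_lit 1100001, nat_lit 1271250, nat_lit 1271250, [nat_lit 780000, nat_lit 1435000, nat_lit 1271250], [nat_lit 8, nat_lit 40, nat_lit 40, nat_lit 80, nat_lit 1, nat_lit 249, nat_lit 40, nat_lit 6]⟩, C1.Rw.none,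
 ⟨nat_lit 5000, nat_lit 5478, ⟨.ofNat (nat_lit 235487), .ofNat (nat_lit 467773), .ofNat (nat_lit 278201), .ofNat (nat_lit 510468), .ofNat (nat_lit 249999), .ofNat (nat_lit 471421), .ofNat (nat_lit 292856), .ofNat (nat_lit 514258)⟩, ⟨.ofNat (nat_lit 500365), .ofNat (nat_lit 537832), .ofNat (nat_lit 521722), .ofNat (nat_lit 559189), .ofNat (nat_lit 492856), .ofNat (nat_lit 528570), .ofNat (nat_lit 514284), .ofNat (nat_lit 549998)⟩⟩, [⟨nat_lit 0, nat_lit 100, nat_lit 94, nat_lit 88, nat_lit 79900108⟩, ⟨nat_lit 16, nat_lit 97, nat_lit 100, nat_lit 82, nat_lit 5057991756⟩]⟩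
noncomputable def p059_l111 : Lf2 := ⟨nat_lit 1, nat_lit 20, [nat_lit 5, nat_lit 5, nat_lit 5, nat_lit 20], false, nat_lit 240, nat_lit 300, nat_lit 0, nat_lit 336, zbN0,
 nat_lit 0, nat_lit 0, nat_lit 0, nat_lit 0, nat_lit 0, nat_lit 0, nat_lit 0, nat_lit 0, nat_lit 0, nat_lit 0, nat_lit 0, nat_lit 0, nat_lit 0, nat_lit 0, nat_lit 0, nat_lit 0, nat_lit 0, nat_lit 0, [],
 C1.Rw.none, C1.Rw.none,
 zbF0, []⟩
noncomputable def p059_l112 : Lf2 := ⟨nat_lit 0, nat_lit 20, [nat_lit 5, nat_lit 5, nat_lit 5, nat_lit 20], false, nat_lit 240, nat_lit 300, nat_lit 0, nat_lit 336, ⟨nat_lit 1000, nat_lit 0, nat_lit 0, nat_lit 0, nat_lit 0, nat_lit 0, nat_lit 0, nat_lit 0, nat_lit 0, nat_lit 0, nat_lit 0, nat_lit 0, nat_lit 0, nat_lit 0, nat_lit 0, nat_lit 0, false, false⟩,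
 nat_lit 0, nat_lit 15583, nat_lit 0, nat_lit 15026, nat_lit 9916, nat_lit 11274, nat_lit 1310, nat_lit 0, nat_lit 0, nat_lit 1356, nat_lit 0, nat_lit 0, nat_lit 0, nat_lit 0, nat_lit 0, nat_lit 0, nat_lit 0, nat_lit 0, [],
 ⟨p059_k17, nat_lit 0, nat_lit 0, nat_lit 176, nat_lit 0, nat_lit 182351, [nat_lit 3282000000, nat_lit 6250000000, nat_lit 11872000000], [], [nat_lit 16559158386, nat_lit 17879481688, nat_lit 19237256768, nat_lit 21290575672, nat_lit 21519851656, nat_lit 23570508136, nat_lit 24263228528, nat_lit 25961987014], nat_lit 1271250, nat_lit 1271250, nat_lit 1100001, nat_lit 1785000, nat_lit 1271250, nat_lit 1271250, [nat_lit 780000, nat_lit 1435000, nat_lit 1271250], [nat_lit 23, nat_lit 40, nat_lit 40, nat_lit 80, nat_lit 12, nat_lit 456, nat_lit 225, nat_lit 11]⟩, ⟨p059_k15, nat_lit 0, nat_lit 0, nat_lit 244, nat_lit 0, nat_lit 0, [nat_lit 4688000000, nat_lit 7968000000, nat_lit 14058000000],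 [], [nat_lit 27116703640, nat_lit 28529678700, nat_lit 29225567184, nat_lit 30355411372, nat_lit 24098185688, nat_lit 24690169408, nat_lit 25780382655, nat_lit 27069443391], nat_lit 0, nat_lit 0, nat_lit 0, nat_lit 0, nat_lit 0, nat_lit 0, [], [nat_lit 37, nat_lit 40, nat_lit 40, nat_lit 80, nat_lit 28, nat_lit 456, nat_lit 225, nat_lit 11]⟩,
 zbF0, [⟨nat_lit 4, nat_lit 100, nat_lit 94, nat_lit 75, nat_lit 1011914432⟩, ⟨nat_lit 7, nat_lit 88, nat_lit 100, nat_lit 74, nat_lit 178723021⟩]⟩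
noncomputable def p059_l113 : Lf2 := ⟨nat_lit 0, nat_lit 20, [nat_lit 5, nat_lit 5, nat_lit 5, nat_lit 20], false, nat_lit 240, nat_lit 300, nat_lit 0, nat_lit 320, ⟨nat_lit 1000, nat_lit 0, nat_lit 0, nat_lit 0, nat_lit 0, nat_lit 0, nat_lit 0, nat_lit 0, nat_lit 0, nat_lit 0, nat_lit 0, nat_lit 0, nat_lit 0, nat_lit 0, nat_lit 0, nat_lit 0, false, false⟩,
 nat_lit 0, nat_lit 13103, nat_lit 0, nat_lit 0, nat_lit 8338, nat_lit 20556, nat_lit 1249, nat_lit 0, nat_lit 0, nat_lit 0, nat_lit 0, nat_lit 0, nat_lit 0, nat_lit 0, nat_lit 0, nat_lit 0, nat_lit 0, nat_lit 0, [],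
 ⟨p059_k17, nat_lit 0, nat_lit 0, nat_lit 234, nat_lit 0, nat_lit 352657, [nat_lit 3282000000, nat_lit 6250000000, nat_lit 11872000000], [], [nat_lit 18345366423, nat_lit 19542509971, nat_lit 20536532776, nat_lit 21940683776, nat_lit 22040941858, nat_lit 23450269705, nat_lit 23999243092, nat_lit 25330524277], nat_lit 1271250, nat_lit 1271250, nat_lit 1100001, nat_lit 1785000, nat_lit 1271250, nat_lit 1271250, [nat_lit 780000, nat_lit 1435000, nat_lit 1271250], [nat_lit 23, nat_lit 40, nat_lit 40, nat_lit 80, nat_lit 12, nat_lit 456, nat_lit 225, nat_lit 11]⟩, ⟨p059_k16, nat_lit 0, nat_lit 0, nat_lit 200, nat_lit 0, nat_lit 0, [nat_lit 4688000000, nat_lit 7968000000, nat_lit 11872000000], [], [nat_lit 36712722768, nat_lit 39357139056, nat_lit 39976351992, nat_lit 42038122368, nat_lit 26393228984, nat_lit 27485808240, nat_lit 28104351992, nat_lit 30166122368], nat_lit 0, nat_lit 0, nat_lit 0, nat_lit 0, nat_lit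 0, nat_lit 0, [], [nat_lit 21, nat_lit 40, nat_lit 40, nat_lit 80, nat_lit 14, nat_lit 456, nat_lit 225, nat_lit 12]⟩,
 zbF0, [⟨nat_lit 16, nat_lit 94, nat_lit 100, nat_lit 75, nat_lit 801500679⟩]⟩
noncomputable def b_V_700_600_10_39 : St := ⟨true, nat_lit 1, nat_lit 0, nat_lit 1, nat_lit 80, nat_lit 280, nat_lit 300, nat_lit 240, nat_lit 280, nat_lit 36, nat_lit 240, nat_lit 40, nat_lit 80, nat_lit 240, nat_lit 300, nat_lit 0, nat_lit 336, nat_lit 40, nat_lit 80, nat_lit 0, nat_lit 0, nat_lit 0, nat_lit 0⟩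
theorem d_V_700_600_10_39 (h : EB TB.env) : Dead b_V_700_600_10_39 := chkB_sound0 h (T :=
(.spl (nat_lit 2) (nat_lit 160)
(.spl (nat_lit 3) (nat_lit 60)
(.trX (nat_lit 16) (nat_lit 99) (nat_lit 100) (nat_lit 77) (nat_lit 276) (.trX (nat_lit 19) (nat_lit 100) (nat_lit 85) (nat_lit 73) (nat_lit 312) (.spl (nat_lit 6) (nat_lit 72)
(.spl (nat_lit 2) (nat_lit 80)
(.spl (nat_lit 1) (nat_lit 260)
(.leaf p059_l94)
(.trZ (nat_lit 0) (nat_lit 100) (nat_lit 96) (nat_lit 69) (nat_lit 48) (.trX (nat_lit 19) (nat_lit 100) (nat_lit 92) (nat_lit 75) (nat_lit 296) (.spl (nat_lit 6) (nat_lit 60)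
(.spl (nat_lit 1) (nat_lit 270)
(.leaf p059_l95)
(.trZ (nat_lit 0) (nat_lit 100) (nat_lit 98) (nat_lit 74) (nat_lit 56) (.trX (nat_lit 19) (nat_lit 100) (nat_lit 97) (nat_lit 76) (nat_lit 288) (.spl (nat_lit 1) (nat_lit 275)
(.leaf p059_l96)
(.trZ (nat_lit 0) (nat_lit 100) (nat_lit 99) (nat_lit 77) (nat_lit 60) (.trX (nat_lit 19) (nat_lit 100) (nat_lit 99) (nat_lit 77) (nat_lit 280) (.leaf p059_l97)))))))
(.leaf p059_l98)))))
(.spl (nat_lit 5) (nat_lit 160)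
(.leaf p059_l99)
(.leaf p059_l100)))
(.leaf p059_l101))))
(.spl (nat_lit 6) (nat_lit 56)
(.spl (nat_lit 4) (nat_lit 280)
(.spl (nat_lit 2) (nat_lit 120)
(.spl (nat_lit 2) (nat_lit 80)
(.spl (nat_lit 1) (nat_lit 260)
(.leaf p059_l102)
(.trZ (nat_lit 0) (nat_lit 100) (nat_lit 96) (nat_lit 69) (nat_lit 48) (.trX (nat_lit 19) (nat_lit 100) (nat_lit 85) (nat_lit 84) (nat_lit 320) (.spl (nat_lit 0) (nat_lit 290)
(.leaf p059_l103)
(.trZ (nat_lit 0) (nat_lit 100) (nat_lit 94) (nat_lit 73) (nat_lit 56) (.spl (nat_lit 0) (nat_lit 295)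
(.leaf p059_l104)
(.trZ (nat_lit 0) (nat_lit 100) (nat_lit 92) (nat_lit 75) (nat_lit 60) (.spl (nat_lit 1) (nat_lit 270)
(.leaf p059_l105)
(.trZ (nat_lit 0) (nat_lit 100) (nat_lit 94) (nat_lit 80) (nat_lit 68) (.trX (nat_lit 19) (nat_lit 100) (nat_lit 90) (nat_lit 85) (nat_lit 308) (.leaf p059_l106)))))))))))
(.spl (nat_lit 5) (nat_lit 160)
(.leaf p059_l107)
(.leaf p059_l108)))
(.leaf p059_l109))
(.leaf p059_l110))
(.leaf p059_l111)))
(.spl (nat_lit 1) (nat_lit 260)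
(.leaf p059_l112)
(.trX (nat_lit 19) (nat_lit 100) (nat_lit 85) (nat_lit 84) (nat_lit 320) (.leaf p059_l113))))) (by decide +kernel)
noncomputable def p059_l114 : Lf2 := ⟨nat_lit 0, nat_lit 15, [nat_lit 30, nat_lit 5, nat_lit 5, nat_lit 20], true, nat_lit 240, nat_lit 256, nat_lit 0, nat_lit 312, ⟨nat_lit 0, nat_lit 0, nat_lit 1000, nat_lit 6, nat_lit 131, nat_lit 1000, nat_lit 169, nat_lit 1000, nat_lit 268817, nat_lit 342, nat_lit 160067, nat_lit 313, nat_lit 50016146, nat_lit 0, nat_lit 0, nat_lit 3939969, false, false⟩,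
 nat_lit 0, nat_lit 5398, nat_lit 0, nat_lit 0, nat_lit 3737, nat_lit 0, nat_lit 0, nat_lit 0, nat_lit 0, nat_lit 0, nat_lit 0, nat_lit 0, nat_lit 0, nat_lit 0, nat_lit 124, nat_lit 461200, nat_lit 0, nat_lit 0, [(nat_lit 16, [(nat_lit 5, nat_lit 898), (nat_lit 6, nat_lit 102)])],
 ⟨p059_k8, nat_lit 0, nat_lit 0, nat_lit 230, nat_lit 0, nat_lit 290168, [nat_lit 2776128000, nat_lit 1375793600, nat_lit 78531200], [], [nat_lit 17492744136, nat_lit 19056962664, nat_lit 17125723548, nat_lit 18560279588, nat_lit 18496118655, nat_lit 20011717752, nat_lit 18017844106, nat_lit 19493613110], nat_lit 1271250, nat_lit 1271250, nat_lit 279600, nat_lit 490000, nat_lit 1271250, nat_lit 1271250, [nat_lit 780000, nat_lit 1435000, nat_lit 1271250], [nat_lit 8, nat_lit 40, nat_lit 40, nat_lit 80, nat_lit 1, nat_lit 317, nat_lit 100, nat_lit 8]⟩, C1.Rw.none,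
 ⟨nat_lit 4472, nat_lit 5000, ⟨.ofNat (nat_lit 271418), .ofNat (nat_lit 328559), .ofNat (nat_lit 314253), .ofNat (nat_lit 371392), .ofNat (nat_lit 284805), .ofNat (nat_lit 339186), .ofNat (nat_lit 327916), .ofNat (nat_lit 382295)⟩, ⟨.ofNat (nat_lit 399998), .ofNat (nat_lit 428570), .ofNat (nat_lit 421427), .ofNat (nat_lit 449999), .ofNat (nat_lit 395445), .ofNat (nat_lit 422636), .ofNat (nat_lit 417011), .ofNat (nat_lit 444203)⟩⟩, [⟨nat_lit 0, nat_lit 100, nat_lit 88, nat_lit 81, nat_lit 625031909⟩, ⟨nat_lit 16, nat_lit 90, nat_lit 100, nat_lit 74, nat_lit 375611368⟩]⟩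
noncomputable def p059_l115 : Lf2 := ⟨nat_lit 0, nat_lit 20, [nat_lit 5, nat_lit 5, nat_lit 5, nat_lit 20], true, nat_lit 240, nat_lit 280, nat_lit 0, nat_lit 336, ⟨nat_lit 0, nat_lit 0, nat_lit 1000, nat_lit 6, nat_lit 131, nat_lit 1000, nat_lit 186, nat_lit 1000, nat_lit 24746, nat_lit 252, nat_lit 160067, nat_lit 313, nat_lit 48539842, nat_lit 0, nat_lit 0, nat_lit 4116209, false, false⟩,
 nat_lit 0, nat_lit 5088, nat_lit 0, nat_lit 2280, nat_lit 3522, nat_lit 0, nat_lit 0, nat_lit 0, nat_lit 0, nat_lit 0, nat_lit 0, nat_lit 0, nat_lit 0, nat_lit 0, nat_lit 109, nat_lit 400000, nat_lit 0, nat_lit 0, [(nat_lit 16, [(nat_lit 5, nat_lit 1000)])],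
 ⟨p059_k3, nat_lit 0, nat_lit 0, nat_lit 182, nat_lit 0, nat_lit 183030, [nat_lit 2630400000, nat_lit 149600000], [], [nat_lit 18048328416, nat_lit 19079513901, nat_lit 17811902688, nat_lit 18737994432, nat_lit 19837027719, nat_lit 21220415505, nat_lit 19386817056, nat_lit 20734767952], nat_lit 1271250, nat_lit 1271250, nat_lit 279600, nat_lit 490000, nat_lit 1271250, nat_lit 1271250, [nat_lit 780000, nat_lit 2090000], [nat_lit 82, nat_lit 40, nat_lit 40, nat_lit 80, nat_lit 63, nat_lit 317, nat_lit 100, nat_lit 8]⟩, C1.Rw.none,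
 ⟨nat_lit 4472, nat_lit 5000, ⟨.ofNat (nat_lit 271418), .ofNat (nat_lit 328559), .ofNat (nat_lit 314253), .ofNat (nat_lit 371392), .ofNat (nat_lit 284805), .ofNat (nat_lit 339186), .ofNat (nat_lit 327916), .ofNat (nat_lit 382295)⟩, ⟨.ofNat (nat_lit 421427), .ofNat (nat_lit 492856), .ofNat (nat_lit 442856), .ofNat (nat_lit 514284), .ofNat (nat_lit 417011), .ofNat (nat_lit 484989), .ofNat (nat_lit 438578), .ofNat (nat_lit 506556)⟩⟩, [⟨nat_lit 0, nat_lit 100, nat_lit 88, nat_lit 81, nat_lit 681816242⟩, ⟨nat_lit 16, nat_lit 94, nat_lit 100, nat_lit 87, nat_lit 149049058⟩, ⟨nat_lit 4, nat_lit 100, nat_lit 87, nat_lit 79, nat_lit 113122100⟩]⟩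
noncomputable def p059_l116 : Lf2 := ⟨nat_lit 0, nat_lit 15, [nat_lit 30, nat_lit 5, nat_lit 5, nat_lit 20], false, nat_lit 240, nat_lit 256, nat_lit 0, nat_lit 160, ⟨nat_lit 1000, nat_lit 0, nat_lit 0, nat_lit 0, nat_lit 0, nat_lit 0, nat_lit 0, nat_lit 0, nat_lit 0, nat_lit 0, nat_lit 0, nat_lit 0, nat_lit 0, nat_lit 0, nat_lit 0, nat_lit 0, false, false⟩,
 nat_lit 0, nat_lit 10998, nat_lit 0, nat_lit 10158, nat_lit 7613, nat_lit 6988, nat_lit 1163, nat_lit 0, nat_lit 0, nat_lit 1360, nat_lit 0, nat_lit 0, nat_lit 0, nat_lit 0, nat_lit 0, nat_lit 0, nat_lit 0, nat_lit 0, [],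
 ⟨p059_k8, nat_lit 0, nat_lit 0, nat_lit 329, nat_lit 0, nat_lit 501886, [nat_lit 3282000000, nat_lit 6250000000, nat_lit 9842000000], [], [nat_lit 18943244766, nat_lit 20404670878, nat_lit 18596356458, nat_lit 19962603540, nat_lit 19846896130, nat_lit 21743091571, nat_lit 19352442688, nat_lit 21158144953], nat_lit 1271250, nat_lit 1271250, nat_lit 490000, nat_lit 1100001, nat_lit 1271250, nat_lit 1271250, [nat_lit 780000, nat_lit 1435000, nat_lit 1271250], [nat_lit 8, nat_lit 40, nat_lit 40, nat_lit 80, nat_lit 1, nat_lit 345, nat_lit 125, nat_lit 9]⟩, ⟨p059_k11, nat_lit 0, nat_lit 0, nat_lit 235, nat_lit 0, nat_lit 0, [nat_lit 4688000000, nat_lit 7968000000, nat_lit 11872000000], [], [nat_lit 22914607312, nat_lit 25859118544, nat_lit 22787793984, nat_lit 25291229488, nat_lit 19076222688, nat_lit 21173962592, nat_lit 19090420480, nat_lit 21466174752], nat_lit 0, nat_lit 0, nat_lit 0, nat_lit 0, nat_lit 0, nat_lit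 0, [], [nat_lit 21, nat_lit 40, nat_lit 40, nat_lit 80, nat_lit 14, nat_lit 373, nat_lit 150, nat_lit 10]⟩,
 zbF0, [⟨nat_lit 0, nat_lit 100, nat_lit 88, nat_lit 81, nat_lit 642317340⟩, ⟨nat_lit 4, nat_lit 100, nat_lit 84, nat_lit 67, nat_lit 1985225275⟩]⟩
noncomputable def p059_l117 : Lf2 := ⟨nat_lit 0, nat_lit 15, [nat_lit 30, nat_lit 5, nat_lit 5, nat_lit 20], false, nat_lit 240, nat_lit 256, nat_lit 160, nat_lit 312, ⟨nat_lit 1000, nat_lit 0, nat_lit 0, nat_lit 0, nat_lit 0, nat_lit 0, nat_lit 0, nat_lit 0, nat_lit 0, nat_lit 0, nat_lit 0, nat_lit 0, nat_lit 0, nat_lit 0, nat_lit 0, nat_lit 0, false, false⟩,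
 nat_lit 0, nat_lit 10998, nat_lit 0, nat_lit 251, nat_lit 7613, nat_lit 7051, nat_lit 1163, nat_lit 0, nat_lit 0, nat_lit 0, nat_lit 0, nat_lit 0, nat_lit 0, nat_lit 0, nat_lit 0, nat_lit 0, nat_lit 0, nat_lit 0, [],
 ⟨p059_k8, nat_lit 0, nat_lit 0, nat_lit 329, nat_lit 0, nat_lit 501886, [nat_lit 3282000000, nat_lit 6250000000, nat_lit 9842000000], [], [nat_lit 18943244766, nat_lit 20404670878, nat_lit 18596356458, nat_lit 19962603540, nat_lit 19846896130, nat_lit 21743091571, nat_lit 19352442688, nat_lit 21158144953], nat_lit 1271250, nat_lit 1271250, nat_lit 490000, nat_lit 1100001, nat_lit 1271250, nat_lit 1271250, [nat_lit 780000, nat_lit 1435000, nat_lit 1271250], [nat_lit 8, nat_lit 40, nat_lit 40, nat_lit 80, nat_lit 1, nat_lit 345, nat_lit 125, nat_lit 9]⟩, ⟨p059_k11, nat_lit 0, nat_lit 0, nat_lit 69, nat_lit 0, nat_lit 0, [nat_lit 4688000000, nat_lit 7968000000, nat_lit 11872000000], [], [nat_lit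 8168633300, nat_lit 12138744736, nat_lit 9502011448, nat_lit 12997716696, nat_lit 19298542612, nat_lit 22352439842, nat_lit 19301049794, nat_lit 21845564033], nat_lit 0, nat_lit 0, nat_lit 0, nat_lit 0, nat_lit 0, nat_lit 0, [], [nat_lit 21, nat_lit 40, nat_lit 40, nat_lit 80, nat_lit 14, nat_lit 428, nat_lit 200, nat_lit 11]⟩,
 zbF0, [⟨nat_lit 16, nat_lit 90, nat_lit 100, nat_lit 74, nat_lit 1408461135⟩, ⟨nat_lit 7, nat_lit 96, nat_lit 100, nat_lit 69, nat_lit 809542762⟩]⟩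
noncomputable def p059_l118 : Lf2 := ⟨nat_lit 0, nat_lit 20, [nat_lit 5, nat_lit 5, nat_lit 5, nat_lit 20], true, nat_lit 240, nat_lit 280, nat_lit 0, nat_lit 336, ⟨nat_lit 0, nat_lit 0, nat_lit 1000, nat_lit 6, nat_lit 166, nat_lit 1000, nat_lit 186, nat_lit 1000, nat_lit 24746, nat_lit 252, nat_lit 40017, nat_lit 264, nat_lit 46026600, nat_lit 0, nat_lit 0, nat_lit 4497275, false, false⟩,
 nat_lit 0, nat_lit 5177, nat_lit 0, nat_lit 2741, nat_lit 3584, nat_lit 0, nat_lit 0, nat_lit 0, nat_lit 0, nat_lit 0, nat_lit 0, nat_lit 0, nat_lit 0, nat_lit 0, nat_lit 116, nat_lit 427600, nat_lit 0, nat_lit 0, [(nat_lit 16, [(nat_lit 5, nat_lit 954), (nat_lit 6, nat_lit 46)])],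
 ⟨p059_k14, nat_lit 0, nat_lit 0, nat_lit 175, nat_lit 0, nat_lit 175966, [nat_lit 2698944000, nat_lit 1291012800, nat_lit 124137600], [], [nat_lit 17483863136, nat_lit 18489540704, nat_lit 18259189536, nat_lit 19356553856, nat_lit 19421026824, nat_lit 20780574544, nat_lit 20120826800, nat_lit 21348946496], nat_lit 1271250, nat_lit 1271250, nat_lit 490000, nat_lit 1100001, nat_lit 1271250, nat_lit 1271250, [nat_lit 780000, nat_lit 1435000, nat_lit 1271250], [nat_lit 8, nat_lit 40, nat_lit 40, nat_lit 80, nat_lit 1, nat_lit 345, nat_lit 125, nat_lit 9]⟩, C1.Rw.none,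
 ⟨nat_lit 4472, nat_lit 5000, ⟨.ofNat (nat_lit 328559), .ofNat (nat_lit 471408), .ofNat (nat_lit 349976), .ofNat (nat_lit 492824), .ofNat (nat_lit 339186), .ofNat (nat_lit 475134), .ofNat (nat_lit 360741), .ofNat (nat_lit 496688)⟩, ⟨.ofNat (nat_lit 421427), .ofNat (nat_lit 492856), .ofNat (nat_lit 442856), .ofNat (nat_lit 514284), .ofNat (nat_lit 417011), .ofNat (nat_lit 484989), .ofNat (nat_lit 438578), .ofNat (nat_lit 506556)⟩⟩, [⟨nat_lit 4, nat_lit 100, nat_lit 87, nat_lit 79, nat_lit 437218581⟩]⟩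
noncomputable def p059_l119 : Lf2 := ⟨nat_lit 0, nat_lit 20, [nat_lit 5, nat_lit 5, nat_lit 5, nat_lit 20], false, nat_lit 240, nat_lit 280, nat_lit 0, nat_lit 160, ⟨nat_lit 1000, nat_lit 0, nat_lit 0, nat_lit 0, nat_lit 0, nat_lit 0, nat_lit 0, nat_lit 0, nat_lit 0, nat_lit 0, nat_lit 0, nat_lit 0, nat_lit 0, nat_lit 0, nat_lit 0, nat_lit 0, false, false⟩,
 nat_lit 0, nat_lit 10372, nat_lit 0, nat_lit 17019, nat_lit 7180, nat_lit 8120, nat_lit 1140, nat_lit 0, nat_lit 0, nat_lit 1874, nat_lit 0, nat_lit 0, nat_lit 0, nat_lit 0, nat_lit 0, nat_lit 0, nat_lit 0, nat_lit 0, [],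
 ⟨p059_k14, nat_lit 0, nat_lit 0, nat_lit 222, nat_lit 0, nat_lit 309961, [nat_lit 3282000000, nat_lit 6250000000, nat_lit 9842000000], [], [nat_lit 19364024760, nat_lit 20777031080, nat_lit 18808511200, nat_lit 20120961580, nat_lit 21558975640, nat_lit 23437356880, nat_lit 21002566000, nat_lit 22779233920], nat_lit 1271250, nat_lit 1271250, nat_lit 490000, nat_lit 1100001, nat_lit 1271250, nat_lit 1271250, [nat_lit 780000, nat_lit 1435000, nat_lit 1271250], [nat_lit 8, nat_lit 40, nat_lit 40, nat_lit 80, nat_lit 1, nat_lit 345, nat_lit 125, nat_lit 9]⟩, ⟨p059_k16, nat_lit 0, nat_lit 0, nat_lit 235, nat_lit 0, nat_lit 0, [nat_lit 4688000000, nat_lit 7968000000, nat_lit 11872000000], [], [nat_lit 19025042470, nat_lit 20631182880, nat_lit 18710800800, nat_lit 20604092320, nat_lit 14472153680, nat_lit 15943270080, nat_lit 14712813840, nat_lit 16000388480], nat_lit 0, nat_lit 0, nat_lit 0, nat_lit 0, nat_lit 0,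 nat_lit 0, [], [nat_lit 21, nat_lit 40, nat_lit 40, nat_lit 80, nat_lit 14, nat_lit 373, nat_lit 150, nat_lit 10]⟩,
 zbF0, [⟨nat_lit 0, nat_lit 100, nat_lit 89, nat_lit 86, nat_lit 667079261⟩, ⟨nat_lit 16, nat_lit 87, nat_lit 100, nat_lit 79, nat_lit 824277788⟩]⟩
noncomputable def p059_l120 : Lf2 := ⟨nat_lit 0, nat_lit 20, [nat_lit 5, nat_lit 5, nat_lit 5, nat_lit 20], false, nat_lit 240, nat_lit 280, nat_lit 160, nat_lit 320, ⟨nat_lit 1000, nat_lit 0, nat_lit 0, nat_lit 0, nat_lit 0, nat_lit 0, nat_lit 0, nat_lit 0, nat_lit 0, nat_lit 0, nat_lit 0, nat_lit 0, nat_lit 0, nat_lit 0, nat_lit 0, nat_lit 0, false, false⟩,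
 nat_lit 0, nat_lit 8277, nat_lit 0, nat_lit 16500, nat_lit 5730, nat_lit 6741, nat_lit 1724, nat_lit 0, nat_lit 0, nat_lit 0, nat_lit 0, nat_lit 0, nat_lit 0, nat_lit 0, nat_lit 0, nat_lit 0, nat_lit 0, nat_lit 0, [],
 ⟨p059_k18, nat_lit 0, nat_lit 0, nat_lit 209, nat_lit 0, nat_lit 309961, [nat_lit 3282000000, nat_lit 4688000000, nat_lit 9842000000], [], [nat_lit 19212351420, nat_lit 20462692380, nat_lit 19184943160, nat_lit 20220814580, nat_lit 21191868540, nat_lit 22366073680, nat_lit 20872613620, nat_lit 22202505120], nat_lit 1271250, nat_lit 1271250, nat_lit 490000, nat_lit 1100001, nat_lit 1271250, nat_lit 1271250, [nat_lit 780000, nat_lit 1100000, nat_lit 2127500], [nat_lit 42, nat_lit 40, nat_lit 40, nat_lit 80, nat_lit 13, nat_lit 345, nat_lit 125, nat_lit 9]⟩, ⟨p059_k19, nat_lit 0, nat_lit 0, nat_lit 60, nat_lit 0, nat_lit 0, [nat_lit 4688000000, nat_lit 6250000000, nat_lit 11872000000], [], [nat_lit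 10592302438, nat_lit 12521924576, nat_lit 11728977752, nat_lit 13429888936, nat_lit 21430542010, nat_lit 22873541908, nat_lit 21293677542, nat_lit 22389117116], nat_lit 0, nat_lit 0, nat_lit 0, nat_lit 0, nat_lit 0, nat_lit 0, [], [nat_lit 48, nat_lit 40, nat_lit 40, nat_lit 80, nat_lit 12, nat_lit 428, nat_lit 200, nat_lit 11]⟩,
 zbF0, [⟨nat_lit 0, nat_lit 100, nat_lit 89, nat_lit 86, nat_lit 578106028⟩, ⟨nat_lit 4, nat_lit 100, nat_lit 87, nat_lit 79, nat_lit 700953243⟩, ⟨nat_lit 7, nat_lit 93, nat_lit 100, nat_lit 81, nat_lit 676567208⟩]⟩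
noncomputable def p059_l121 : Lf2 := ⟨nat_lit 0, nat_lit 20, [nat_lit 5, nat_lit 5, nat_lit 5, nat_lit 20], false, nat_lit 240, nat_lit 280, nat_lit 0, nat_lit 336, ⟨nat_lit 1000, nat_lit 0, nat_lit 0, nat_lit 0, nat_lit 0, nat_lit 0, nat_lit 0, nat_lit 0, nat_lit 0, nat_lit 0, nat_lit 0, nat_lit 0, nat_lit 0, nat_lit 0, nat_lit 0, nat_lit 0, false, false⟩,
 nat_lit 0, nat_lit 12526, nat_lit 0, nat_lit 23434, nat_lit 8671, nat_lit 11274, nat_lit 988, nat_lit 0, nat_lit 0, nat_lit 1356, nat_lit 0, nat_lit 0, nat_lit 0, nat_lit 0, nat_lit 0, nat_lit 0, nat_lit 0, nat_lit 0, [],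
 ⟨p059_k14, nat_lit 0, nat_lit 0, nat_lit 211, nat_lit 0, nat_lit 363914, [nat_lit 3282000000, nat_lit 6250000000, nat_lit 9842000000], [], [nat_lit 18748293990, nat_lit 20145193180, nat_lit 21149589382, nat_lit 23028117756, nat_lit 21368159200, nat_lit 23372270224, nat_lit 24025716275, nat_lit 25693962502], nat_lit 1271250, nat_lit 1271250, nat_lit 1100001, nat_lit 1785000, nat_lit 1271250, nat_lit 1271250, [nat_lit 780000, nat_lit 1435000, nat_lit 1271250], [nat_lit 8, nat_lit 40, nat_lit 40, nat_lit 80, nat_lit 1, nat_lit 373, nat_lit 150, nat_lit 10]⟩, ⟨p059_k15, nat_lit 0, nat_lit 0, nat_lit 244, nat_lit 0, nat_lit 0, [nat_lit 4688000000, nat_lit 7968000000, nat_lit 14058000000], [], [nat_lit 27116703640, nat_lit 28529678700, nat_lit 29225567184, nat_lit 30355411372, nat_lit 24098185688, nat_lit 24690169408, nat_lit 25780382655, nat_lit 27069443391], nat_lit 0, nat_lit 0, nat_lit 0, nat_lit 0, nat_lit 0,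 nat_lit 0, [], [nat_lit 37, nat_lit 40, nat_lit 40, nat_lit 80, nat_lit 28, nat_lit 456, nat_lit 225, nat_lit 11]⟩,
 zbF0, [⟨nat_lit 16, nat_lit 85, nat_lit 100, nat_lit 73, nat_lit 2394623212⟩, ⟨nat_lit 19, nat_lit 100, nat_lit 88, nat_lit 74, nat_lit 178723021⟩]⟩
noncomputable def p059_l122 : Lf2 := ⟨nat_lit 0, nat_lit 20, [nat_lit 5, nat_lit 5, nat_lit 5, nat_lit 20], false, nat_lit 240, nat_lit 280, nat_lit 0, nat_lit 320, ⟨nat_lit 1000, nat_lit 0, nat_lit 0, nat_lit 0, nat_lit 0, nat_lit 0, nat_lit 0, nat_lit 0, nat_lit 0, nat_lit 0, nat_lit 0, nat_lit 0, nat_lit 0, nat_lit 0, nat_lit 0, nat_lit 0, false, false⟩,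
 nat_lit 0, nat_lit 11106, nat_lit 0, nat_lit 0, nat_lit 7688, nat_lit 20556, nat_lit 1102, nat_lit 0, nat_lit 0, nat_lit 0, nat_lit 0, nat_lit 0, nat_lit 0, nat_lit 0, nat_lit 0, nat_lit 0, nat_lit 0, nat_lit 0, [],
 ⟨p059_k14, nat_lit 0, nat_lit 0, nat_lit 300, nat_lit 0, nat_lit 505647, [nat_lit 3282000000, nat_lit 6250000000, nat_lit 9842000000], [], [nat_lit 18677776220, nat_lit 19979727148, nat_lit 21038272496, nat_lit 22778793568, nat_lit 21127127600, nat_lit 22981287872, nat_lit 23726368200, nat_lit 25277207856], nat_lit 1271250, nat_lit 1271250, nat_lit 1100001, nat_lit 1785000, nat_lit 1271250, nat_lit 1271250, [nat_lit 780000, nat_lit 1435000, nat_lit 1271250], [nat_lit 8, nat_lit 40, nat_lit 40, nat_lit 80, nat_lit 1, nat_lit 373, nat_lit 150, nat_lit 10]⟩, ⟨p059_k16, nat_lit 0, nat_lit 0, nat_lit 200, nat_lit 0, nat_lit 0, [nat_lit 4688000000, nat_lit 7968000000, nat_lit 11872000000], [], [nat_lit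 36712722768, nat_lit 39357139056, nat_lit 39976351992, nat_lit 42038122368, nat_lit 26393228984, nat_lit 27485808240, nat_lit 28104351992, nat_lit 30166122368], nat_lit 0, nat_lit 0, nat_lit 0, nat_lit 0, nat_lit 0, nat_lit 0, [], [nat_lit 21, nat_lit 40, nat_lit 40, nat_lit 80, nat_lit 14, nat_lit 456, nat_lit 225, nat_lit 12]⟩,
 zbF0, [⟨nat_lit 4, nat_lit 100, nat_lit 85, nat_lit 73, nat_lit 1071727031⟩]⟩
noncomputable def b_V_700_600_10_40 : St := ⟨true, nat_lit 1, nat_lit 0, nat_lit 1, nat_lit 80, nat_lit 300, nat_lit 320, nat_lit 240, nat_lit 280, nat_lit 36, nat_lit 240, nat_lit 40, nat_lit 80, nat_lit 240, nat_lit 300, nat_lit 0, nat_lit 336, nat_lit 40, nat_lit 80, nat_lit 0, nat_lit 0, nat_lit 0, nat_lit 0⟩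
theorem d_V_700_600_10_40 (h : EB TB.env) : Dead b_V_700_600_10_40 := chkB_sound0 h (T :=
(.trZ (nat_lit 0) (nat_lit 100) (nat_lit 88) (nat_lit 68) (nat_lit 48) (.trX (nat_lit 16) (nat_lit 94) (nat_lit 100) (nat_lit 87) (nat_lit 280) (.spl (nat_lit 2) (nat_lit 160)
(.spl (nat_lit 2) (nat_lit 80)
(.spl (nat_lit 3) (nat_lit 60)
(.trX (nat_lit 16) (nat_lit 90) (nat_lit 100) (nat_lit 74) (nat_lit 256) (.trX (nat_lit 19) (nat_lit 100) (nat_lit 85) (nat_lit 73) (nat_lit 312) (.leaf p059_l114)))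
(.leaf p059_l115))
(.spl (nat_lit 3) (nat_lit 60)
(.trX (nat_lit 16) (nat_lit 90) (nat_lit 100) (nat_lit 74) (nat_lit 256) (.trX (nat_lit 19) (nat_lit 100) (nat_lit 85) (nat_lit 73) (nat_lit 312) (.spl (nat_lit 5) (nat_lit 160)
(.leaf p059_l116)
(.leaf p059_l117))))
(.spl (nat_lit 1) (nat_lit 260)
(.leaf p059_l118)
(.trX (nat_lit 19) (nat_lit 100) (nat_lit 85) (nat_lit 84) (nat_lit 320) (.spl (nat_lit 5) (nat_lit 160)
(.leaf p059_l119)
(.leaf p059_l120))))))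
(.spl (nat_lit 1) (nat_lit 260)
(.leaf p059_l121)
(.trX (nat_lit 19) (nat_lit 100) (nat_lit 85) (nat_lit 84) (nat_lit 320) (.leaf p059_l122))))))) (by decide +kernel)
noncomputable def p059_l123 : Lf2 := ⟨nat_lit 0, nat_lit 20, [nat_lit 5, nat_lit 5, nat_lit 5, nat_lit 20], false, nat_lit 0, nat_lit 300, nat_lit 0, nat_lit 160, ⟨nat_lit 1000, nat_lit 0, nat_lit 0, nat_lit 0, nat_lit 0, nat_lit 0, nat_lit 0, nat_lit 0, nat_lit 0, nat_lit 0, nat_lit 0, nat_lit 0, nat_lit 0, nat_lit 0, nat_lit 0, nat_lit 0, false, false⟩,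
 nat_lit 0, nat_lit 10510, nat_lit 0, nat_lit 0, nat_lit 6688, nat_lit 6392, nat_lit 797, nat_lit 0, nat_lit 0, nat_lit 1199, nat_lit 0, nat_lit 0, nat_lit 0, nat_lit 0, nat_lit 0, nat_lit 0, nat_lit 0, nat_lit 0, [],
 ⟨p059_k17, nat_lit 0, nat_lit 0, nat_lit 508, nat_lit 0, nat_lit 569638, [nat_lit 3282000000, nat_lit 6250000000, nat_lit 11872000000], [], [nat_lit 33049241379, nat_lit 34586735715, nat_lit 38973411011, nat_lit 39986497344, nat_lit 31084545259, nat_lit 31988803171, nat_lit 35589638808, nat_lit 36317436400], nat_lit 1271250, nat_lit 1271250, nat_lit 1271250, nat_lit 1271250, nat_lit 0, nat_lit 2118750, [nat_lit 780000, nat_lit 1435000, nat_lit 1271250], [nat_lit 23, nat_lit 40, nat_lit 40, nat_lit 80, nat_lit 12, nat_lit 538, nat_lit 300, nat_lit 13]⟩, ⟨p059_k15, nat_lit 0, nat_lit 0, nat_lit 279, nat_lit 0, nat_lit 0, [nat_lit 4688000000, nat_lit 7968000000, nat_lit 14058000000], [], [nat_lit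 27965872172, nat_lit 29728943980, nat_lit 37528070528, nat_lit 38967216352, nat_lit 23772112524, nat_lit 25043011596, nat_lit 32285550112, nat_lit 33382937472], nat_lit 0, nat_lit 0, nat_lit 0, nat_lit 0, nat_lit 0, nat_lit 0, [], [nat_lit 37, nat_lit 40, nat_lit 40, nat_lit 80, nat_lit 28, nat_lit 456, nat_lit 225, nat_lit 10]⟩,
 zbF0, [⟨nat_lit 16, nat_lit 90, nat_lit 100, nat_lit 74, nat_lit 188832447⟩]⟩
noncomputable def p059_l124 : Lf2 := ⟨nat_lit 0, nat_lit 20, [nat_lit 5, nat_lit 5, nat_lit 5, nat_lit 20], false, nat_lit 0, nat_lit 300, nat_lit 160, nat_lit 336, ⟨nat_lit 1000, nat_lit 0, nat_lit 0, nat_lit 0, nat_lit 0, nat_lit 0, nat_lit 0, nat_lit 0, nat_lit 0, nat_lit 0, nat_lit 0, nat_lit 0, nat_lit 0, nat_lit 0, nat_lit 0, nat_lit 0, false, false⟩,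
 nat_lit 0, nat_lit 10510, nat_lit 0, nat_lit 0, nat_lit 6688, nat_lit 5779, nat_lit 797, nat_lit 0, nat_lit 0, nat_lit 0, nat_lit 0, nat_lit 0, nat_lit 0, nat_lit 0, nat_lit 0, nat_lit 0, nat_lit 0, nat_lit 0, [],
 ⟨p059_k17, nat_lit 0, nat_lit 0, nat_lit 508, nat_lit 0, nat_lit 569638, [nat_lit 3282000000, nat_lit 6250000000, nat_lit 11872000000], [], [nat_lit 33049241379, nat_lit 34586735715, nat_lit 38973411011, nat_lit 39986497344, nat_lit 31084545259, nat_lit 31988803171, nat_lit 35589638808, nat_lit 36317436400], nat_lit 1271250, nat_lit 1271250, nat_lit 1271250, nat_lit 1271250, nat_lit 0, nat_lit 2118750, [nat_lit 780000, nat_lit 1435000, nat_lit 1271250], [nat_lit 23, nat_lit 40, nat_lit 40, nat_lit 80, nat_lit 12, nat_lit 538, nat_lit 300, nat_lit 13]⟩, ⟨p059_k15, nat_lit 0, nat_lit 0, nat_lit 97, nat_lit 0, nat_lit 0, [nat_lit 4688000000, nat_lit 7968000000, nat_lit 14058000000], [], [nat_lit 15559906096,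 nat_lit 18158722980, nat_lit 27666739900, nat_lit 29124520076, nat_lit 24515219737, nat_lit 26124854640, nat_lit 32977037166, nat_lit 33976751881], nat_lit 0, nat_lit 0, nat_lit 0, nat_lit 0, nat_lit 0, nat_lit 0, [], [nat_lit 37, nat_lit 40, nat_lit 40, nat_lit 80, nat_lit 28, nat_lit 538, nat_lit 300, nat_lit 12]⟩,
 zbF0, [⟨nat_lit 4, nat_lit 100, nat_lit 90, nat_lit 74, nat_lit 179381583⟩, ⟨nat_lit 7, nat_lit 92, nat_lit 100, nat_lit 75, nat_lit 555175567⟩]⟩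
noncomputable def b_V_700_600_10_41 : St := ⟨true, nat_lit 1, nat_lit 0, nat_lit 1, nat_lit 80, nat_lit 280, nat_lit 320, nat_lit 240, nat_lit 280, nat_lit 240, nat_lit 400, nat_lit 40, nat_lit 80, nat_lit 0, nat_lit 300, nat_lit 0, nat_lit 336, nat_lit 40, nat_lit 80, nat_lit 0, nat_lit 0, nat_lit 0, nat_lit 0⟩
theorem d_V_700_600_10_41 (h : EB TB.env) : Dead b_V_700_600_10_41 := chkB_sound0 h (T :=
(.spl (nat_lit 5) (nat_lit 160)
(.leaf p059_l123)
(.leaf p059_l124))) (by decide +kernel)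
noncomputable def p059_l125 : Lf2 := ⟨nat_lit 0, nat_lit 15, [nat_lit 30, nat_lit 5, nat_lit 5, nat_lit 20], true, nat_lit 0, nat_lit 80, nat_lit 0, nat_lit 312, ⟨nat_lit 0, nat_lit 0, nat_lit 1000, nat_lit 6, nat_lit 122, nat_lit 0, nat_lit 24, nat_lit 772, nat_lit 3267, nat_lit 229, nat_lit 138017, nat_lit 306, nat_lit 61318821, nat_lit 0, nat_lit 0, nat_lit 1451616, false, false⟩,
 nat_lit 0, nat_lit 5546, nat_lit 0, nat_lit 0, nat_lit 3529, nat_lit 0, nat_lit 0, nat_lit 0, nat_lit 0, nat_lit 0, nat_lit 0, nat_lit 0, nat_lit 0, nat_lit 0, nat_lit 144, nat_lit 634000, nat_lit 0, nat_lit 0, [(nat_lit 13, [(nat_lit 5, nat_lit 610), (nat_lit 6, nat_lit 390)])],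
 ⟨p059_k0, nat_lit 0, nat_lit 0, nat_lit 344, nat_lit 0, nat_lit 197871, [nat_lit 2936020001, nat_lit 2111617334, nat_lit 6600000], [], [nat_lit 14563101330, nat_lit 16012120631, nat_lit 13875873166, nat_lit 15226683766, nat_lit 13089749972, nat_lit 14173779904, nat_lit 12903502910, nat_lit 13945607260], nat_lit 1271250, nat_lit 1271250, nat_lit 205650, nat_lit 490000, nat_lit 0, nat_lit 490000, [nat_lit 780000, nat_lit 1435000, nat_lit 1271250], [nat_lit 8, nat_lit 40, nat_lit 40, nat_lit 80, nat_lit 1, nat_lit 249, nat_lit 40, nat_lit 7]⟩, C1.Rw.none,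
 ⟨nat_lit 5000, nat_lit 5478, ⟨.ofNat (nat_lit 235487), .ofNat (nat_lit 317913), .ofNat (nat_lit 278201), .ofNat (nat_lit 360625), .ofNat (nat_lit 249999), .ofNat (nat_lit 328570), .ofNat (nat_lit 292856), .ofNat (nat_lit 371424)⟩, ⟨.negSucc (nat_lit 45522), .ofNat (nat_lit 104343), .negSucc (nat_lit 24165), .ofNat (nat_lit 125700), .negSucc (nat_lit 28572), .ofNat (nat_lit 114284), .negSucc (nat_lit 7143), .ofNat (nat_lit 135713)⟩⟩, [⟨nat_lit 0, nat_lit 100, nat_lit 94, nat_lit 73, nat_lit 10357674⟩, ⟨nat_lit 0, nat_lit 100, nat_lit 94, nat_lit 88, nat_lit 190349563⟩]⟩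
noncomputable def p059_l126 : Lf2 := ⟨nat_lit 0, nat_lit 15, [nat_lit 30, nat_lit 5, nat_lit 5, nat_lit 20], false, nat_lit 0, nat_lit 80, nat_lit 0, nat_lit 312, ⟨nat_lit 20, nat_lit 0, nat_lit 980, nat_lit 6, nat_lit 166, nat_lit 0, nat_lit 24, nat_lit 97, nat_lit 2817, nat_lit 228, nat_lit 25034, nat_lit 253, nat_lit 57115499, nat_lit 0, nat_lit 0, nat_lit 2092000, false, false⟩,
 nat_lit 778, nat_lit 5034, nat_lit 0, nat_lit 359, nat_lit 3698, nat_lit 411, nat_lit 0, nat_lit 0, nat_lit 0, nat_lit 6, nat_lit 0, nat_lit 0, nat_lit 0, nat_lit 0, nat_lit 161, nat_lit 740600, nat_lit 0, nat_lit 0, [(nat_lit 13, [(nat_lit 5, nat_lit 399), (nat_lit 6, nat_lit 581)])],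
 ⟨p059_k0, nat_lit 0, nat_lit 0, nat_lit 290, nat_lit 0, nat_lit 142517, [nat_lit 3159896667, nat_lit 2474480934, nat_lit 532000], [], [nat_lit 13452666160, nat_lit 14143329126, nat_lit 14265617600, nat_lit 14981833568, nat_lit 11770099401, nat_lit 12241617271, nat_lit 12793271057, nat_lit 13425134677], nat_lit 1271250, nat_lit 1271250, nat_lit 490000, nat_lit 1100001, nat_lit 0, nat_lit 490000, [nat_lit 780000, nat_lit 1435000, nat_lit 1271250], [nat_lit 8, nat_lit 40, nat_lit 40, nat_lit 80, nat_lit 1, nat_lit 272, nat_lit 60, nat_lit 8]⟩, ⟨p059_k11, nat_lit 0, nat_lit 0, nat_lit 373, nat_lit 0, nat_lit 179553, [nat_lit 93760000, nat_lit 159360000, nat_lit 237440000], [], [nat_lit 1279418480, nat_lit 850136548, nat_lit 663575848, nat_lit 747123516, nat_lit 882972996, nat_lit 620419586, nat_lit 1202484474, nat_lit 843305162], nat_lit 1271250, nat_lit 1271250, nat_lit 490000, nat_lit 1100001, nat_lit 0, nat_lit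 2203500, [nat_lit 1100000, nat_lit 1785000, nat_lit 1271250], [nat_lit 21, nat_lit 40, nat_lit 40, nat_lit 80, nat_lit 14, nat_lit 428, nat_lit 200, nat_lit 11]⟩,
 ⟨nat_lit 5244, nat_lit 5478, ⟨.ofNat (nat_lit 317913), .ofNat (nat_lit 467779), .ofNat (nat_lit 360628), .ofNat (nat_lit 510489), .ofNat (nat_lit 323256), .ofNat (nat_lit 469597), .ofNat (nat_lit 366027), .ofNat (nat_lit 512365)⟩, ⟨.negSucc (nat_lit 45522), .ofNat (nat_lit 104343), .negSucc (nat_lit 24165), .ofNat (nat_lit 125700), .negSucc (nat_lit 36940), .ofNat (nat_lit 109402), .negSucc (nat_lit 15554), .ofNat (nat_lit 130787)⟩⟩, []⟩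
noncomputable def p059_l127 : Lf2 := ⟨nat_lit 0, nat_lit 15, [nat_lit 30, nat_lit 5, nat_lit 5, nat_lit 20], false, nat_lit 0, nat_lit 80, nat_lit 0, nat_lit 312, ⟨nat_lit 0, nat_lit 0, nat_lit 1000, nat_lit 6, nat_lit 168, nat_lit 0, nat_lit 25, nat_lit 915, nat_lit 3750, nat_lit 230, nat_lit 24731, nat_lit 252, nat_lit 56968980, nat_lit 0, nat_lit 0, nat_lit 2111085, false, false⟩,
 nat_lit 0, nat_lit 5271, nat_lit 0, nat_lit 0, nat_lit 3500, nat_lit 0, nat_lit 253, nat_lit 0, nat_lit 0, nat_lit 0, nat_lit 0, nat_lit 0, nat_lit 0, nat_lit 0, nat_lit 95, nat_lit 400000, nat_lit 0, nat_lit 0, [(nat_lit 13, [(nat_lit 5, nat_lit 1000)])],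
 ⟨p059_k12, nat_lit 0, nat_lit 0, nat_lit 310, nat_lit 0, nat_lit 187731, [nat_lit 2390400000, nat_lit 1362133334, nat_lit 124400000], [], [nat_lit 14225779000, nat_lit 14879547000, nat_lit 15455467084, nat_lit 16042231584, nat_lit 13374185584, nat_lit 13986334584, nat_lit 14662588584, nat_lit 15213044584], nat_lit 1271250, nat_lit 1271250, nat_lit 490000, nat_lit 1100001, nat_lit 0, nat_lit 490000, [nat_lit 780000, nat_lit 1435000, nat_lit 1271250], [nat_lit 8, nat_lit 40, nat_lit 40, nat_lit 80, nat_lit 1, nat_lit 272, nat_lit 60, nat_lit 8]⟩, ⟨p059_k11, nat_lit 0, nat_lit 0, nat_lit 401, nat_lit 0, nat_lit 249291, [nat_lit 0, nat_lit 0, nat_lit 0], [], [nat_lit 0, nat_lit 0, nat_lit 0, nat_lit 0, nat_lit 0, nat_lit 0, nat_lit 0, nat_lit 0], nat_lit 1271250, nat_lit 1271250, nat_lit 490000, nat_lit 1100001, nat_lit 0, nat_lit 2203500, [nat_lit 1100000, nat_lit 1785000, nat_lit 1271250], [nat_lit 21, nat_lit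 40, nat_lit 40, nat_lit 80, nat_lit 14, nat_lit 428, nat_lit 200, nat_lit 11]⟩,
 ⟨nat_lit 5000, nat_lit 5245, ⟨.ofNat (nat_lit 323256), .ofNat (nat_lit 469596), .ofNat (nat_lit 366025), .ofNat (nat_lit 512362), .ofNat (nat_lit 328570), .ofNat (nat_lit 471425), .ofNat (nat_lit 371426), .ofNat (nat_lit 514278)⟩, ⟨.negSucc (nat_lit 36940), .ofNat (nat_lit 109402), .negSucc (nat_lit 15554), .ofNat (nat_lit 130787), .negSucc (nat_lit 28572), .ofNat (nat_lit 114284), .negSucc (nat_lit 7143), .ofNat (nat_lit 135713)⟩⟩, []⟩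
noncomputable def p059_l128 : Lf2 := ⟨nat_lit 0, nat_lit 15, [nat_lit 30, nat_lit 5, nat_lit 5, nat_lit 20], false, nat_lit 80, nat_lit 160, nat_lit 0, nat_lit 312, ⟨nat_lit 0, nat_lit 0, nat_lit 1000, nat_lit 6, nat_lit 151, nat_lit 1000, nat_lit 77, nat_lit 1000, nat_lit 56067, nat_lit 273, nat_lit 24681, nat_lit 252, nat_lit 55348150, nat_lit 0, nat_lit 0, nat_lit 2968062, false, false⟩,
 nat_lit 0, nat_lit 6139, nat_lit 0, nat_lit 0, nat_lit 3906, nat_lit 0, nat_lit 0, nat_lit 0, nat_lit 0, nat_lit 0, nat_lit 0, nat_lit 0, nat_lit 0, nat_lit 0, nat_lit 157, nat_lit 689200, nat_lit 0, nat_lit 0, [(nat_lit 13, [(nat_lit 5, nat_lit 518), (nat_lit 6, nat_lit 482)])],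
 ⟨p059_k0, nat_lit 0, nat_lit 0, nat_lit 218, nat_lit 0, nat_lit 197871, [nat_lit 3082022667, nat_lit 2317239201, nat_lit 19160000], [], [nat_lit 12220471313, nat_lit 13617731946, nat_lit 12498474664, nat_lit 13711530556, nat_lit 13061897189, nat_lit 14321350522, nat_lit 13467839140, nat_lit 14694186918], nat_lit 1271250, nat_lit 1271250, nat_lit 205650, nat_lit 1100001, nat_lit 490000, nat_lit 1100001, [nat_lit 780000, nat_lit 1435000, nat_lit 1271250], [nat_lit 8, nat_lit 40, nat_lit 40, nat_lit 80, nat_lit 1, nat_lit 317, nat_lit 100, nat_lit 9]⟩, ⟨p059_k11, nat_lit 0, nat_lit 0, nat_lit 434, nat_lit 0, nat_lit 249291, [nat_lit 0, nat_lit 0, nat_lit 0], [], [nat_lit 0, nat_lit 0, nat_lit 0, nat_lit 0, nat_lit 0, nat_lit 0, nat_lit 0, nat_lit 0], nat_lit 1271250, nat_lit 1271250, nat_lit 205650, nat_lit 1100001, nat_lit 0, nat_lit 2203500, [nat_lit 1100000, nat_lit 1785000, nat_lit 1271250], [nat_lit 21, nat_lit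 40, nat_lit 40, nat_lit 80, nat_lit 14, nat_lit 428, nat_lit 200, nat_lit 11]⟩,
 ⟨nat_lit 5000, nat_lit 5478, ⟨.ofNat (nat_lit 235487), .ofNat (nat_lit 467773), .ofNat (nat_lit 278201), .ofNat (nat_lit 510468), .ofNat (nat_lit 249999), .ofNat (nat_lit 471421), .ofNat (nat_lit 292856), .ofNat (nat_lit 514258)⟩, ⟨.ofNat (nat_lit 104343), .ofNat (nat_lit 254209), .ofNat (nat_lit 125700), .ofNat (nat_lit 275566), .ofNat (nat_lit 114284), .ofNat (nat_lit 257141), .ofNat (nat_lit 135713), .ofNat (nat_lit 278570)⟩⟩, [⟨nat_lit 0, nat_lit 100, nat_lit 94, nat_lit 88, nat_lit 63936369⟩]⟩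
noncomputable def p059_l129 : Lf2 := ⟨nat_lit 1, nat_lit 15, [nat_lit 30, nat_lit 5, nat_lit 5, nat_lit 20], false, nat_lit 0, nat_lit 160, nat_lit 0, nat_lit 312, zbN0,
 nat_lit 0, nat_lit 0, nat_lit 0, nat_lit 0, nat_lit 0, nat_lit 0, nat_lit 0, nat_lit 0, nat_lit 0, nat_lit 0, nat_lit 0, nat_lit 0, nat_lit 0, nat_lit 0, nat_lit 0, nat_lit 0, nat_lit 0, nat_lit 0, [],
 C1.Rw.none, C1.Rw.none,
 zbF0, []⟩
noncomputable def p059_l130 : Lf2 := ⟨nat_lit 0, nat_lit 14, [nat_lit 119, nat_lit 5, nat_lit 5, nat_lit 20], true, nat_lit 0, nat_lit 160, nat_lit 0, nat_lit 336, ⟨nat_lit 0, nat_lit 0, nat_lit 1000, nat_lit 6, nat_lit 122, nat_lit 1000, nat_lit 58, nat_lit 1000, nat_lit 29400, nat_lit 257, nat_lit 138017, nat_lit 306, nat_lit 61318821, nat_lit 0, nat_lit 0, nat_lit 1451616, false, false⟩,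
 nat_lit 0, nat_lit 5536, nat_lit 0, nat_lit 2742, nat_lit 3522, nat_lit 0, nat_lit 0, nat_lit 0, nat_lit 0, nat_lit 0, nat_lit 0, nat_lit 0, nat_lit 0, nat_lit 0, nat_lit 152, nat_lit 668800, nat_lit 0, nat_lit 0, [(nat_lit 13, [(nat_lit 5, nat_lit 552), (nat_lit 6, nat_lit 448)])],
 ⟨p059_k2, nat_lit 0, nat_lit 0, nat_lit 304, nat_lit 0, nat_lit 81411, [nat_lit 3025717334, nat_lit 2237335467, nat_lit 9040000], [], [nat_lit 14336135126, nat_lit 15998825548, nat_lit 13652723620, nat_lit 15001421788, nat_lit 14000590055, nat_lit 15151364811, nat_lit 15301922388, nat_lit 15033002863], nat_lit 1271250, nat_lit 1271250, nat_lit 205650, nat_lit 490000, nat_lit 0, nat_lit 1100001, [nat_lit 780000, nat_lit 1435000, nat_lit 1271250], [nat_lit 8, nat_lit 40, nat_lit 40, nat_lit 80, nat_lit 1, nat_lit 272, nat_lit 60, nat_lit 8]⟩, C1.Rw.none,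
 ⟨nat_lit 5000, nat_lit 5478, ⟨.ofNat (nat_lit 235487), .ofNat (nat_lit 317913), .ofNat (nat_lit 278201), .ofNat (nat_lit 360625), .ofNat (nat_lit 249999), .ofNat (nat_lit 328570), .ofNat (nat_lit 292856), .ofNat (nat_lit 371424)⟩, ⟨.negSucc (nat_lit 24165), .ofNat (nat_lit 275566), .negSucc (nat_lit 2832), .ofNat (nat_lit 296923), .negSucc (nat_lit 7143), .ofNat (nat_lit 278570), .ofNat (nat_lit 0), .ofNat (nat_lit 299999)⟩⟩, [⟨nat_lit 0, nat_lit 100, nat_lit 94, nat_lit 88, nat_lit 226365801⟩]⟩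
noncomputable def p059_l131 : Lf2 := ⟨nat_lit 0, nat_lit 14, [nat_lit 119, nat_lit 5, nat_lit 5, nat_lit 20], false, nat_lit 0, nat_lit 160, nat_lit 0, nat_lit 336, ⟨nat_lit 0, nat_lit 0, nat_lit 1000, nat_lit 6, nat_lit 167, nat_lit 697, nat_lit 58, nat_lit 1000, nat_lit 29400, nat_lit 257, nat_lit 24681, nat_lit 252, nat_lit 57042527, nat_lit 0, nat_lit 0, nat_lit 2101529, false, false⟩,
 nat_lit 0, nat_lit 4969, nat_lit 0, nat_lit 2022, nat_lit 3161, nat_lit 0, nat_lit 0, nat_lit 0, nat_lit 0, nat_lit 0, nat_lit 0, nat_lit 0, nat_lit 0, nat_lit 0, nat_lit 160, nat_lit 701200, nat_lit 0, nat_lit 0, [(nat_lit 13, [(nat_lit 5, nat_lit 498), (nat_lit 6, nat_lit 502)])],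
 ⟨p059_k2, nat_lit 0, nat_lit 0, nat_lit 216, nat_lit 0, nat_lit 81411, [nat_lit 3115849334, nat_lit 2365417867, nat_lit 26760000], [], [nat_lit 13436025310, nat_lit 14605220262, nat_lit 14515324741, nat_lit 15765509397, nat_lit 13734093193, nat_lit 14911159373, nat_lit 15050817533, nat_lit 16179345572], nat_lit 1271250, nat_lit 1271250, nat_lit 490000, nat_lit 1100001, nat_lit 0, nat_lit 1100001, [nat_lit 780000, nat_lit 1435000, nat_lit 1271250], [nat_lit 8, nat_lit 40, nat_lit 40, nat_lit 80, nat_lit 1, nat_lit 317, nat_lit 100, nat_lit 9]⟩, ⟨p059_k13, nat_lit 0, nat_lit 0, nat_lit 344, nat_lit 0, nat_lit 102656, [nat_lit 0, nat_lit 0, nat_lit 0], [], [nat_lit 0, nat_lit 0, nat_lit 0, nat_lit 0, nat_lit 0, nat_lit 0, nat_lit 0, nat_lit 0], nat_lit 1271250, nat_lit 1271250, nat_lit 490000, nat_lit 1100001, nat_lit 0, nat_lit 2373000, [nat_lit 1100000, nat_lit 1785000, nat_lit 1271250], [nat_lit 21, nat_lit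 40, nat_lit 40, nat_lit 80, nat_lit 14, nat_lit 428, nat_lit 200, nat_lit 11]⟩,
 ⟨nat_lit 5000, nat_lit 5478, ⟨.ofNat (nat_lit 317913), .ofNat (nat_lit 467773), .ofNat (nat_lit 360625), .ofNat (nat_lit 510468), .ofNat (nat_lit 328570), .ofNat (nat_lit 471421), .ofNat (nat_lit 371424), .ofNat (nat_lit 514258)⟩, ⟨.negSucc (nat_lit 24165), .ofNat (nat_lit 275566), .negSucc (nat_lit 2832), .ofNat (nat_lit 296923), .negSucc (nat_lit 7143), .ofNat (nat_lit 278570), .ofNat (nat_lit 0), .ofNat (nat_lit 299999)⟩⟩, []⟩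
noncomputable def p059_l132 : Lf2 := ⟨nat_lit 1, nat_lit 20, [nat_lit 5, nat_lit 5, nat_lit 5, nat_lit 20], false, nat_lit 0, nat_lit 160, nat_lit 0, nat_lit 336, zbN0,
 nat_lit 0, nat_lit 0, nat_lit 0, nat_lit 0, nat_lit 0, nat_lit 0, nat_lit 0, nat_lit 0, nat_lit 0, nat_lit 0, nat_lit 0, nat_lit 0, nat_lit 0, nat_lit 0, nat_lit 0, nat_lit 0, nat_lit 0, nat_lit 0, [],
 C1.Rw.none, C1.Rw.none,
 zbF0, []⟩
noncomputable def p059_l133 : Lf2 := ⟨nat_lit 0, nat_lit 20, [nat_lit 5, nat_lit 5, nat_lit 5, nat_lit 20], true, nat_lit 0, nat_lit 80, nat_lit 0, nat_lit 336, ⟨nat_lit 0, nat_lit 0, nat_lit 1000, nat_lit 6, nat_lit 131, nat_lit 0, nat_lit 28, nat_lit 704, nat_lit 6667, nat_lit 235, nat_lit 160067, nat_lit 313, nat_lit 60510719, nat_lit 0, nat_lit 0, nat_lit 1590582, false, false⟩,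
 nat_lit 0, nat_lit 5713, nat_lit 0, nat_lit 0, nat_lit 3955, nat_lit 0, nat_lit 0, nat_lit 0, nat_lit 0, nat_lit 0, nat_lit 0, nat_lit 0, nat_lit 0, nat_lit 0, nat_lit 134, nat_lit 499000, nat_lit 0, nat_lit 0, [(nat_lit 16, [(nat_lit 5, nat_lit 835), (nat_lit 6, nat_lit 165)])],
 ⟨p059_k3, nat_lit 0, nat_lit 0, nat_lit 404, nat_lit 0, nat_lit 298582, [nat_lit 3141204000, nat_lit 55224000], [], [nat_lit 16351691994, nat_lit 18525116984, nat_lit 15782123280, nat_lit 17560018920, nat_lit 14840214945, nat_lit 16061609461, nat_lit 14712313300, nat_lit 16023449060], nat_lit 1271250, nat_lit 1271250, nat_lit 279600, nat_lit 490000, nat_lit 0, nat_lit 490000, [nat_lit 780000, nat_lit 2090000], [nat_lit 82, nat_lit 40, nat_lit 40, nat_lit 80, nat_lit 63, nat_lit 249, nat_lit 40, nat_lit 7]⟩, C1.Rw.none,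
 ⟨nat_lit 4472, nat_lit 5000, ⟨.ofNat (nat_lit 271418), .ofNat (nat_lit 328559), .ofNat (nat_lit 314253), .ofNat (nat_lit 371392), .ofNat (nat_lit 284805), .ofNat (nat_lit 339186), .ofNat (nat_lit 327916), .ofNat (nat_lit 382295)⟩, ⟨.negSucc (nat_lit 28572), .ofNat (nat_lit 114284), .ofNat (nat_lit 0), .ofNat (nat_lit 157141), .negSucc (nat_lit 12423), .ofNat (nat_lit 123532), .ofNat (nat_lit 0), .ofNat (nat_lit 166665)⟩⟩, [⟨nat_lit 0, nat_lit 100, nat_lit 88, nat_lit 81, nat_lit 661030928⟩]⟩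
noncomputable def p059_l134 : Lf2 := ⟨nat_lit 0, nat_lit 20, [nat_lit 5, nat_lit 5, nat_lit 5, nat_lit 20], false, nat_lit 0, nat_lit 80, nat_lit 0, nat_lit 336, ⟨nat_lit 0, nat_lit 0, nat_lit 1000, nat_lit 6, nat_lit 156, nat_lit 0, nat_lit 28, nat_lit 926, nat_lit 6667, nat_lit 235, nat_lit 228150, nat_lit 332, nat_lit 58146498, nat_lit 0, nat_lit 0, nat_lit 1952188, false, false⟩,
 nat_lit 0, nat_lit 4905, nat_lit 0, nat_lit 0, nat_lit 3395, nat_lit 0, nat_lit 0, nat_lit 0, nat_lit 0, nat_lit 0, nat_lit 0, nat_lit 0, nat_lit 0, nat_lit 0, nat_lit 139, nat_lit 520600, nat_lit 0, nat_lit 0, [(nat_lit 16, [(nat_lit 5, nat_lit 799), (nat_lit 6, nat_lit 201)])],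
 ⟨p059_k14, nat_lit 0, nat_lit 0, nat_lit 356, nat_lit 0, nat_lit 298582, [nat_lit 2922864001, nat_lit 1542816801, nat_lit 21905600], [], [nat_lit 15424257342, nat_lit 16638534860, nat_lit 15701845662, nat_lit 16741458182, nat_lit 14476295392, nat_lit 15501897642, nat_lit 14780031922, nat_lit 15891958823], nat_lit 1271250, nat_lit 1271250, nat_lit 490000, nat_lit 780000, nat_lit 0, nat_lit 490000, [nat_lit 780000, nat_lit 1435000, nat_lit 1271250], [nat_lit 8, nat_lit 40, nat_lit 40, nat_lit 80, nat_lit 1, nat_lit 260, nat_lit 50, nat_lit 8]⟩, ⟨p059_k15, nat_lit 0, nat_lit 0, nat_lit 589, nat_lit 0, nat_lit 420602, [nat_lit 0, nat_lit 0, nat_lit 0], [], [nat_lit 0, nat_lit 0, nat_lit 0, nat_lit 0, nat_lit 0, nat_lit 0, nat_lit 0, nat_lit 0], nat_lit 1271250, nat_lit 1271250, nat_lit 490000, nat_lit 780000, nat_lit 0, nat_lit 2373000, [nat_lit 1100000, nat_lit 1785000, nat_lit 1271250], [nat_lit 37, nat_lit 40,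 nat_lit 40, nat_lit 80, nat_lit 28, nat_lit 428, nat_lit 200, nat_lit 10]⟩,
 ⟨nat_lit 4472, nat_lit 5000, ⟨.ofNat (nat_lit 328559), .ofNat (nat_lit 399984), .ofNat (nat_lit 371392), .ofNat (nat_lit 442816), .ofNat (nat_lit 339186), .ofNat (nat_lit 407160), .ofNat (nat_lit 382295), .ofNat (nat_lit 450269)⟩, ⟨.negSucc (nat_lit 28572), .ofNat (nat_lit 114284), .ofNat (nat_lit 0), .ofNat (nat_lit 157141), .negSucc (nat_lit 12423), .ofNat (nat_lit 123532), .ofNat (nat_lit 0), .ofNat (nat_lit 166665)⟩⟩, [⟨nat_lit 0, nat_lit 100, nat_lit 87, nat_lit 95, nat_lit 91900719⟩]⟩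
noncomputable def p059_l135 : Lf2 := ⟨nat_lit 0, nat_lit 20, [nat_lit 5, nat_lit 5, nat_lit 5, nat_lit 20], false, nat_lit 0, nat_lit 80, nat_lit 0, nat_lit 336, ⟨nat_lit 15, nat_lit 0, nat_lit 985, nat_lit 6, nat_lit 183, nat_lit 0, nat_lit 28, nat_lit 785, nat_lit 6017, nat_lit 234, nat_lit 24518, nat_lit 251, nat_lit 55360804, nat_lit 0, nat_lit 0, nat_lit 2308673, false, false⟩,
 nat_lit 258, nat_lit 4761, nat_lit 0, nat_lit 45, nat_lit 3474, nat_lit 136, nat_lit 0, nat_lit 0, nat_lit 0, nat_lit 1, nat_lit 0, nat_lit 0, nat_lit 0, nat_lit 0, nat_lit 142, nat_lit 550600, nat_lit 0, nat_lit 0, [(nat_lit 16, [(nat_lit 5, nat_lit 724), (nat_lit 6, nat_lit 261)])],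
 ⟨p059_k14, nat_lit 0, nat_lit 0, nat_lit 314, nat_lit 0, nat_lit 240709, [nat_lit 2968098000, nat_lit 1630482801, nat_lit 8207600], [], [nat_lit 15496107272, nat_lit 16022929346, nat_lit 16115055784, nat_lit 16611599580, nat_lit 14522895184, nat_lit 15017141948, nat_lit 15135219112, nat_lit 15603165880], nat_lit 1271250, nat_lit 1271250, nat_lit 780000, nat_lit 1100001, nat_lit 0, nat_lit 490000, [nat_lit 780000, nat_lit 1435000, nat_lit 1271250], [nat_lit 8, nat_lit 40, nat_lit 40, nat_lit 80, nat_lit 1, nat_lit 272, nat_lit 60, nat_lit 8]⟩, ⟨p059_k15, nat_lit 0, nat_lit 0, nat_lit 476, nat_lit 0, nat_lit 339079, [nat_lit 70320000, nat_lit 119520000, nat_lit 210870000], [], [nat_lit 793929556, nat_lit 647882420, nat_lit 647882420, nat_lit 637413656, nat_lit 584006851, nat_lit 595643964, nat_lit 622756642, nat_lit 583140914], nat_lit 1271250, nat_lit 1271250, nat_lit 780000, nat_lit 1100001, nat_lit 0, nat_lit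 2373000, [nat_lit 1100000, nat_lit 1785000, nat_lit 1271250], [nat_lit 37, nat_lit 40, nat_lit 40, nat_lit 80, nat_lit 28, nat_lit 428, nat_lit 200, nat_lit 10]⟩,
 ⟨nat_lit 4743, nat_lit 5000, ⟨.ofNat (nat_lit 399997), .ofNat (nat_lit 471424), .ofNat (nat_lit 442849), .ofNat (nat_lit 514275), .ofNat (nat_lit 403574), .ofNat (nat_lit 473272), .ofNat (nat_lit 446544), .ofNat (nat_lit 516242)⟩, ⟨.negSucc (nat_lit 28572), .ofNat (nat_lit 114284), .ofNat (nat_lit 0), .ofNat (nat_lit 157141), .negSucc (nat_lit 20404), .ofNat (nat_lit 118994), .ofNat (nat_lit 0), .ofNat (nat_lit 161970)⟩⟩, [⟨nat_lit 19, nat_lit 100, nat_lit 92, nat_lit 75, nat_lit 2720996⟩]⟩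
noncomputable def p059_l136 : Lf2 := ⟨nat_lit 0, nat_lit 20, [nat_lit 5, nat_lit 5, nat_lit 5, nat_lit 20], false, nat_lit 0, nat_lit 80, nat_lit 0, nat_lit 336, ⟨nat_lit 18, nat_lit 0, nat_lit 982, nat_lit 6, nat_lit 185, nat_lit 0, nat_lit 29, nat_lit 923, nat_lit 6667, nat_lit 235, nat_lit 19267, nat_lit 249, nat_lit 55243585, nat_lit 0, nat_lit 0, nat_lit 2322262, false, false⟩,
 nat_lit 314, nat_lit 4555, nat_lit 0, nat_lit 0, nat_lit 3510, nat_lit 166, nat_lit 104, nat_lit 0, nat_lit 0, nat_lit 11, nat_lit 0, nat_lit 0, nat_lit 0, nat_lit 0, nat_lit 101, nat_lit 392800, nat_lit 0, nat_lit 0, [(nat_lit 16, [(nat_lit 5, nat_lit 982)])],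
 ⟨p059_k4, nat_lit 0, nat_lit 0, nat_lit 333, nat_lit 0, nat_lit 283914, [nat_lit 2569672800, nat_lit 1182709600, nat_lit 154999200], [], [nat_lit 16531204960, nat_lit 17060238920, nat_lit 17118893500, nat_lit 17619189760, nat_lit 15503891820, nat_lit 16000193680, nat_lit 16142800430, nat_lit 16767459560], nat_lit 1271250, nat_lit 1271250, nat_lit 780000, nat_lit 1100001, nat_lit 0, nat_lit 490000, [nat_lit 780000, nat_lit 1435000, nat_lit 1271250], [nat_lit 8, nat_lit 40, nat_lit 40, nat_lit 80, nat_lit 1, nat_lit 272, nat_lit 60, nat_lit 8]⟩, ⟨p059_k15, nat_lit 0, nat_lit 0, nat_lit 568, nat_lit 0, nat_lit 420602, [nat_lit 84384000, nat_lit 143424000, nat_lit 253044000], [], [nat_lit 959989072, nat_lit 781725656, nat_lit 781725656, nat_lit 687781132, nat_lit 660492501, nat_lit 615862289, nat_lit 746442058, nat_lit 600982475], nat_lit 1271250, nat_lit 1271250, nat_lit 780000, nat_lit 1100001, nat_lit 0, nat_lit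 2373000, [nat_lit 1100000, nat_lit 1785000, nat_lit 1271250], [nat_lit 37, nat_lit 40, nat_lit 40, nat_lit 80, nat_lit 28, nat_lit 428, nat_lit 200, nat_lit 10]⟩,
 ⟨nat_lit 4472, nat_lit 4744, ⟨.ofNat (nat_lit 403571), .ofNat (nat_lit 473270), .ofNat (nat_lit 446540), .ofNat (nat_lit 516239), .ofNat (nat_lit 407171), .ofNat (nat_lit 475149), .ofNat (nat_lit 450297), .ofNat (nat_lit 518274)⟩, ⟨.negSucc (nat_lit 20404), .ofNat (nat_lit 118994), .ofNat (nat_lit 0), .ofNat (nat_lit 161970), .negSucc (nat_lit 12423), .ofNat (nat_lit 123532), .ofNat (nat_lit 0), .ofNat (nat_lit 166665)⟩⟩, [⟨nat_lit 19, nat_lit 100, nat_lit 92, nat_lit 75, nat_lit 1240661⟩]⟩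
noncomputable def p059_l137 : Lf2 := ⟨nat_lit 0, nat_lit 20, [nat_lit 5, nat_lit 5, nat_lit 5, nat_lit 20], false, nat_lit 80, nat_lit 160, nat_lit 0, nat_lit 336, ⟨nat_lit 0, nat_lit 0, nat_lit 1000, nat_lit 6, nat_lit 158, nat_lit 1000, nat_lit 83, nat_lit 1000, nat_lit 66150, nat_lit 278, nat_lit 20417, nat_lit 250, nat_lit 54308529, nat_lit 0, nat_lit 0, nat_lit 3153690, false, false⟩,
 nat_lit 0, nat_lit 5337, nat_lit 0, nat_lit 0, nat_lit 3694, nat_lit 0, nat_lit 0, nat_lit 0, nat_lit 0, nat_lit 0, nat_lit 0, nat_lit 0, nat_lit 0, nat_lit 0, nat_lit 153, nat_lit 571000, nat_lit 0, nat_lit 0, [(nat_lit 16, [(nat_lit 5, nat_lit 715), (nat_lit 6, nat_lit 285)])],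
 ⟨p059_k14, nat_lit 0, nat_lit 0, nat_lit 287, nat_lit 0, nat_lit 240709, [nat_lit 3062640000, nat_lit 1709988001, nat_lit 9496000], [], [nat_lit 13476584529, nat_lit 14150893525, nat_lit 13943499044, nat_lit 14572018950, nat_lit 14257853326, nat_lit 14866107788, nat_lit 15175280816, nat_lit 15819598744], nat_lit 1271250, nat_lit 1271250, nat_lit 279600, nat_lit 1100001, nat_lit 490000, nat_lit 1100001, [nat_lit 780000, nat_lit 1435000, nat_lit 1271250], [nat_lit 8, nat_lit 40, nat_lit 40, nat_lit 80, nat_lit 1, nat_lit 317, nat_lit 100, nat_lit 9]⟩, ⟨p059_k15, nat_lit 0, nat_lit 0, nat_lit 582, nat_lit 0, nat_lit 339079, [nat_lit 0, nat_lit 0, nat_lit 0], [], [nat_lit 0, nat_lit 0, nat_lit 0, nat_lit 0, nat_lit 0, nat_lit 0, nat_lit 0, nat_lit 0], nat_lit 1271250, nat_lit 1271250, nat_lit 279600, nat_lit 1100001, nat_lit 0, nat_lit 2373000, [nat_lit 1100000, nat_lit 1785000, nat_lit 1271250], [nat_lit 37, nat_lit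 40, nat_lit 40, nat_lit 80, nat_lit 28, nat_lit 428, nat_lit 200, nat_lit 10]⟩,
 ⟨nat_lit 4743, nat_lit 5000, ⟨.ofNat (nat_lit 271427), .ofNat (nat_lit 471424), .ofNat (nat_lit 314281), .ofNat (nat_lit 514275), .ofNat (nat_lit 278116), .ofNat (nat_lit 473272), .ofNat (nat_lit 321088), .ofNat (nat_lit 516242)⟩, ⟨.ofNat (nat_lit 114284), .ofNat (nat_lit 257141), .ofNat (nat_lit 157141), .ofNat (nat_lit 299999), .ofNat (nat_lit 118994), .ofNat (nat_lit 258394), .ofNat (nat_lit 161970), .ofNat (nat_lit 301370)⟩⟩, [⟨nat_lit 0, nat_lit 100, nat_lit 91, nat_lit 91, nat_lit 29303271⟩]⟩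
noncomputable def p059_l138 : Lf2 := ⟨nat_lit 0, nat_lit 20, [nat_lit 5, nat_lit 5, nat_lit 5, nat_lit 20], false, nat_lit 80, nat_lit 160, nat_lit 0, nat_lit 336, ⟨nat_lit 0, nat_lit 0, nat_lit 1000, nat_lit 6, nat_lit 162, nat_lit 1000, nat_lit 85, nat_lit 1000, nat_lit 66150, nat_lit 278, nat_lit 19267, nat_lit 249, nat_lit 53814164, nat_lit 0, nat_lit 0, nat_lit 3228562, false, false⟩,
 nat_lit 0, nat_lit 5114, nat_lit 0, nat_lit 0, nat_lit 3686, nat_lit 0, nat_lit 0, nat_lit 0, nat_lit 0, nat_lit 0, nat_lit 0, nat_lit 0, nat_lit 0, nat_lit 0, nat_lit 143, nat_lit 536200, nat_lit 0, nat_lit 0, [(nat_lit 16, [(nat_lit 5, nat_lit 773), (nat_lit 6, nat_lit 227)])],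
 ⟨p059_k4, nat_lit 0, nat_lit 0, nat_lit 301, nat_lit 0, nat_lit 283914, [nat_lit 2962128000, nat_lit 1587893601, nat_lit 8731200], [], [nat_lit 14370960744, nat_lit 15008822512, nat_lit 15057390120, nat_lit 15536346472, nat_lit 15179801888, nat_lit 15669660597, nat_lit 16011720942, nat_lit 16517552768], nat_lit 1271250, nat_lit 1271250, nat_lit 330400, nat_lit 1100001, nat_lit 490000, nat_lit 1100001, [nat_lit 780000, nat_lit 1435000, nat_lit 1271250], [nat_lit 8, nat_lit 40, nat_lit 40, nat_lit 80, nat_lit 1, nat_lit 317, nat_lit 100, nat_lit 9]⟩, ⟨p059_k15, nat_lit 0, nat_lit 0, nat_lit 605, nat_lit 0, nat_lit 420602, [nat_lit 0, nat_lit 0, nat_lit 0], [], [nat_lit 0, nat_lit 0, nat_lit 0, nat_lit 0, nat_lit 0, nat_lit 0, nat_lit 0, nat_lit 0], nat_lit 1271250, nat_lit 1271250, nat_lit 330400, nat_lit 1100001, nat_lit 0, nat_lit 2373000, [nat_lit 1100000, nat_lit 1785000, nat_lit 1271250], [nat_lit 37, nat_lit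 40, nat_lit 40, nat_lit 80, nat_lit 28, nat_lit 428, nat_lit 200, nat_lit 10]⟩,
 ⟨nat_lit 4472, nat_lit 4744, ⟨.ofNat (nat_lit 292052), .ofNat (nat_lit 473270), .ofNat (nat_lit 335021), .ofNat (nat_lit 516239), .ofNat (nat_lit 298407), .ofNat (nat_lit 475149), .ofNat (nat_lit 341533), .ofNat (nat_lit 518274)⟩, ⟨.ofNat (nat_lit 118994), .ofNat (nat_lit 258394), .ofNat (nat_lit 161970), .ofNat (nat_lit 301370), .ofNat (nat_lit 123532), .ofNat (nat_lit 259489), .ofNat (nat_lit 166665), .ofNat (nat_lit 302621)⟩⟩, [⟨nat_lit 0, nat_lit 100, nat_lit 87, nat_lit 95, nat_lit 26054371⟩]⟩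
noncomputable def p059_l139 : Lf2 := ⟨nat_lit 0, nat_lit 20, [nat_lit 5, nat_lit 5, nat_lit 5, nat_lit 20], false, nat_lit 0, nat_lit 80, nat_lit 0, nat_lit 160, ⟨nat_lit 592, nat_lit 0, nat_lit 408, nat_lit 6, nat_lit 226, nat_lit 0, nat_lit 27, nat_lit 0, nat_lit 5400, nat_lit 233, nat_lit 49046, nat_lit 200, nat_lit 50819944, nat_lit 0, nat_lit 0, nat_lit 2763975, false, false⟩,
 nat_lit 10456, nat_lit 0, nat_lit 0, nat_lit 0, nat_lit 5839, nat_lit 5535, nat_lit 839, nat_lit 0, nat_lit 0, nat_lit 268, nat_lit 0, nat_lit 0, nat_lit 0, nat_lit 0, nat_lit 0, nat_lit 163200, nat_lit 0, nat_lit 0, [(nat_lit 13, [(nat_lit 5, nat_lit 408)]), (nat_lit 16, [(nat_lit 5, nat_lit 408)])],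
 ⟨p059_k17, nat_lit 0, nat_lit 0, nat_lit 392, nat_lit 0, nat_lit 331936, [nat_lit 2482483200, nat_lit 3479843200, nat_lit 5933968000], [], [nat_lit 20534237517, nat_lit 22725712005, nat_lit 24943215184, nat_lit 25078912292, nat_lit 19608822540, nat_lit 19874870988, nat_lit 27415785960, nat_lit 22140776208], nat_lit 1271250, nat_lit 1271250, nat_lit 1100001, nat_lit 1785000, nat_lit 0, nat_lit 490000, [nat_lit 780000, nat_lit 1435000, nat_lit 1271250], [nat_lit 23, nat_lit 40, nat_lit 40, nat_lit 80, nat_lit 12, nat_lit 401, nat_lit 175, nat_lit 10]⟩, ⟨p059_k15, nat_lit 0, nat_lit 0, nat_lit 551, nat_lit 0, nat_lit 420602, [nat_lit 2775296000, nat_lit 4717056000, nat_lit 8322336000], [], [nat_lit 25825053504, nat_lit 23426564608, nat_lit 23044848988, nat_lit 23553258156, nat_lit 18775008200, nat_lit 19294130872, nat_lit 21531962572, nat_lit 19297510900], nat_lit 1271250, nat_lit 1271250, nat_lit 1100001, nat_lit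 1785000, nat_lit 0, nat_lit 1100001, [nat_lit 1100000, nat_lit 1785000, nat_lit 1271250], [nat_lit 37, nat_lit 40, nat_lit 40, nat_lit 80, nat_lit 28, nat_lit 401, nat_lit 175, nat_lit 9]⟩,
 ⟨nat_lit 4472, nat_lit 5478, ⟨.ofNat (nat_lit 467727), .ofNat (nat_lit 617523), .ofNat (nat_lit 510352), .ofNat (nat_lit 660148), .ofNat (nat_lit 475101), .ofNat (nat_lit 610987), .ofNat (nat_lit 518145), .ofNat (nat_lit 654031)⟩, ⟨.negSucc (nat_lit 45522), .ofNat (nat_lit 104343), .negSucc (nat_lit 2834), .ofNat (nat_lit 147057), .negSucc (nat_lit 12423), .ofNat (nat_lit 123532), .ofNat (nat_lit 0), .ofNat (nat_lit 166665)⟩⟩, []⟩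
noncomputable def p059_l140 : Lf2 := ⟨nat_lit 0, nat_lit 20, [nat_lit 5, nat_lit 5, nat_lit 5, nat_lit 20], false, nat_lit 0, nat_lit 80, nat_lit 160, nat_lit 336, ⟨nat_lit 1000, nat_lit 0, nat_lit 0, nat_lit 0, nat_lit 0, nat_lit 0, nat_lit 0, nat_lit 0, nat_lit 0, nat_lit 0, nat_lit 0, nat_lit 0, nat_lit 0, nat_lit 0, nat_lit 0, nat_lit 0, false, false⟩,
 nat_lit 11767, nat_lit 1426, nat_lit 0, nat_lit 3198, nat_lit 8395, nat_lit 6229, nat_lit 1329, nat_lit 0, nat_lit 0, nat_lit 282, nat_lit 0, nat_lit 0, nat_lit 0, nat_lit 0, nat_lit 0, nat_lit 0, nat_lit 0, nat_lit 0, [],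
 ⟨p059_k17, nat_lit 0, nat_lit 0, nat_lit 347, nat_lit 0, nat_lit 205498, [nat_lit 3282000000, nat_lit 6250000000, nat_lit 11872000000], [], [nat_lit 22515672435, nat_lit 23842769440, nat_lit 27166495120, nat_lit 26647141420, nat_lit 19838432700, nat_lit 19315433740, nat_lit 29863441800, nat_lit 26012050860], nat_lit 1271250, nat_lit 1271250, nat_lit 1100001, nat_lit 1785000, nat_lit 0, nat_lit 490000, [nat_lit 780000, nat_lit 1435000, nat_lit 1271250], [nat_lit 23, nat_lit 40, nat_lit 40, nat_lit 80, nat_lit 12, nat_lit 401, nat_lit 175, nat_lit 10]⟩, ⟨p059_k15, nat_lit 0, nat_lit 0, nat_lit 246, nat_lit 0, nat_lit 260390, [nat_lit 4688000000, nat_lit 7968000000, nat_lit 14058000000], [], [nat_lit 34180011360, nat_lit 33175557376, nat_lit 33201968088, nat_lit 34464812352, nat_lit 36735893260, nat_lit 37647519576, nat_lit 37362171804, nat_lit 38220285595], nat_lit 1271250, nat_lit 1271250, nat_lit 1100001, nat_lit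 1785000, nat_lit 1271250, nat_lit 1271250, [nat_lit 1100000, nat_lit 1785000, nat_lit 1271250], [nat_lit 37, nat_lit 40, nat_lit 40, nat_lit 80, nat_lit 28, nat_lit 456, nat_lit 225, nat_lit 10]⟩,
 zbF0, [⟨nat_lit 19, nat_lit 100, nat_lit 92, nat_lit 75, nat_lit 372092775⟩, ⟨nat_lit 22, nat_lit 100, nat_lit 97, nat_lit 24, nat_lit 90929866⟩]⟩
noncomputable def p059_l141 : Lf2 := ⟨nat_lit 0, nat_lit 20, [nat_lit 5, nat_lit 5, nat_lit 5, nat_lit 20], false, nat_lit 0, nat_lit 80, nat_lit 160, nat_lit 336, ⟨nat_lit 464, nat_lit 0, nat_lit 536, nat_lit 6, nat_lit 226, nat_lit 0, nat_lit 28, nat_lit 435, nat_lit 6667, nat_lit 235, nat_lit 42926, nat_lit 200, nat_lit 50811114, nat_lit 0, nat_lit 0, nat_lit 2764729, false, false⟩,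
 nat_lit 7935, nat_lit 0, nat_lit 0, nat_lit 0, nat_lit 4618, nat_lit 4200, nat_lit 380, nat_lit 0, nat_lit 0, nat_lit 0, nat_lit 0, nat_lit 0, nat_lit 0, nat_lit 0, nat_lit 0, nat_lit 536000, nat_lit 0, nat_lit 0, [(nat_lit 16, [(nat_lit 6, nat_lit 536)])],
 ⟨p059_k14, nat_lit 0, nat_lit 0, nat_lit 326, nat_lit 0, nat_lit 298582, [nat_lit 2051558400, nat_lit 1661625601, nat_lit 430483200], [], [nat_lit 17828717518, nat_lit 19003291762, nat_lit 20569345876, nat_lit 22372004640, nat_lit 16243710950, nat_lit 17343852050, nat_lit 21642731826, nat_lit 19524122730], nat_lit 1271250, nat_lit 1271250, nat_lit 1100001, nat_lit 1785000, nat_lit 0, nat_lit 490000, [nat_lit 780000, nat_lit 1435000, nat_lit 1271250], [nat_lit 8, nat_lit 40, nat_lit 40, nat_lit 80, nat_lit 1, nat_lit 317, nat_lit 100, nat_lit 9]⟩, ⟨p059_k15, nat_lit 0, nat_lit 0, nat_lit 387, nat_lit 0, nat_lit 420602, [nat_lit 2175232000, nat_lit 3697152000,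 nat_lit 6522912000], [], [nat_lit 17855365568, nat_lit 16705054080, nat_lit 16485864576, nat_lit 17001063936, nat_lit 18032523738, nat_lit 18356270900, nat_lit 17984738586, nat_lit 18391074976], nat_lit 1271250, nat_lit 1271250, nat_lit 1100001, nat_lit 1785000, nat_lit 1271250, nat_lit 1271250, [nat_lit 1100000, nat_lit 1785000, nat_lit 1271250], [nat_lit 37, nat_lit 40, nat_lit 40, nat_lit 80, nat_lit 28, nat_lit 456, nat_lit 225, nat_lit 10]⟩,
 ⟨nat_lit 4472, nat_lit 5000, ⟨.ofNat (nat_lit 471408), .ofNat (nat_lit 614256), .ofNat (nat_lit 514240), .ofNat (nat_lit 657088), .ofNat (nat_lit 475134), .ofNat (nat_lit 611081), .ofNat (nat_lit 518242), .ofNat (nat_lit 654189)⟩, ⟨.negSucc (nat_lit 28572), .ofNat (nat_lit 114284), .ofNat (nat_lit 0), .ofNat (nat_lit 157141), .negSucc (nat_lit 12423), .ofNat (nat_lit 123532), .ofNat (nat_lit 0), .ofNat (nat_lit 166665)⟩⟩, [⟨nat_lit 19, nat_lit 100, nat_lit 92, nat_lit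 75, nat_lit 180191281⟩, ⟨nat_lit 22, nat_lit 100, nat_lit 97, nat_lit 24, nat_lit 11848335⟩]⟩
noncomputable def p059_l142 : Lf2 := ⟨nat_lit 0, nat_lit 20, [nat_lit 5, nat_lit 5, nat_lit 5, nat_lit 20], false, nat_lit 80, nat_lit 160, nat_lit 0, nat_lit 336, ⟨nat_lit 456, nat_lit 0, nat_lit 544, nat_lit 6, nat_lit 226, nat_lit 544, nat_lit 82, nat_lit 544, nat_lit 62017, nat_lit 276, nat_lit 49368, nat_lit 200, nat_lit 47873913, nat_lit 0, nat_lit 0, nat_lit 3836894, false, false⟩,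
 nat_lit 8143, nat_lit 4697, nat_lit 0, nat_lit 0, nat_lit 8170, nat_lit 4310, nat_lit 927, nat_lit 0, nat_lit 0, nat_lit 47, nat_lit 0, nat_lit 0, nat_lit 0, nat_lit 0, nat_lit 0, nat_lit 132700, nat_lit 0, nat_lit 0, [(nat_lit 13, [(nat_lit 3, nat_lit 66), (nat_lit 4, nat_lit 478)])],
 ⟨p059_k17, nat_lit 0, nat_lit 0, nat_lit 204, nat_lit 0, nat_lit 205498, [nat_lit 4987252801, nat_lit 2696748800, nat_lit 4641974400], [], [nat_lit 13053962385, nat_lit 14651214885, nat_lit 15758309080, nat_lit 18211520080, nat_lit 12356035545, nat_lit 13770969985, nat_lit 15719014120, nat_lit 17888872360], nat_lit 1271250, nat_lit 1271250, nat_lit 1100001, nat_lit 1785000, nat_lit 490000, nat_lit 1100001, [nat_lit 780000, nat_lit 1435000, nat_lit 1271250], [nat_lit 23, nat_lit 40, nat_lit 40, nat_lit 80, nat_lit 12, nat_lit 401, nat_lit 175, nat_lit 10]⟩, ⟨p059_k15, nat_lit 0, nat_lit 0, nat_lit 432, nat_lit 0, nat_lit 260390,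 [nat_lit 2137728000, nat_lit 3633408000, nat_lit 6410448000], [], [nat_lit 19963211872, nat_lit 19117709692, nat_lit 18870505988, nat_lit 19501798548, nat_lit 21406343952, nat_lit 17504676342, nat_lit 17115177795, nat_lit 17514049140], nat_lit 1271250, nat_lit 1271250, nat_lit 1271250, nat_lit 1271250, nat_lit 0, nat_lit 2373000, [nat_lit 1100000, nat_lit 1785000, nat_lit 1271250], [nat_lit 37, nat_lit 40, nat_lit 40, nat_lit 80, nat_lit 28, nat_lit 456, nat_lit 225, nat_lit 11]⟩,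
 ⟨nat_lit 5000, nat_lit 5478, ⟨.ofNat (nat_lit 467773), .ofNat (nat_lit 617614), .ofNat (nat_lit 510468), .ofNat (nat_lit 660309), .ofNat (nat_lit 471421), .ofNat (nat_lit 614253), .ofNat (nat_lit 514258), .ofNat (nat_lit 657090)⟩, ⟨.ofNat (nat_lit 104343), .ofNat (nat_lit 254209), .ofNat (nat_lit 147057), .ofNat (nat_lit 296923), .ofNat (nat_lit 114284), .ofNat (nat_lit 257141), .ofNat (nat_lit 157141), .ofNat (nat_lit 299999)⟩⟩, [⟨nat_lit 7, nat_lit 92, nat_lit 100, nat_lit 75, nat_lit 75682770⟩]⟩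
noncomputable def p059_l143 : Lf2 := ⟨nat_lit 0, nat_lit 20, [nat_lit 5, nat_lit 5, nat_lit 5, nat_lit 20], false, nat_lit 80, nat_lit 160, nat_lit 0, nat_lit 336, ⟨nat_lit 260, nat_lit 0, nat_lit 740, nat_lit 6, nat_lit 226, nat_lit 740, nat_lit 84, nat_lit 740, nat_lit 66150, nat_lit 278, nat_lit 42926, nat_lit 200, nat_lit 47730757, nat_lit 0, nat_lit 0, nat_lit 3871361, false, false⟩,
 nat_lit 4988, nat_lit 1058, nat_lit 0, nat_lit 0, nat_lit 4185, nat_lit 2640, nat_lit 0, nat_lit 0, nat_lit 0, nat_lit 30, nat_lit 0, nat_lit 0, nat_lit 0, nat_lit 0, nat_lit 84, nat_lit 638600, nat_lit 0, nat_lit 0, [(nat_lit 16, [(nat_lit 5, nat_lit 169), (nat_lit 6, nat_lit 571)])],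
 ⟨p059_k14, nat_lit 0, nat_lit 0, nat_lit 210, nat_lit 0, nat_lit 298582, [nat_lit 2648040000, nat_lit 1822304801, nat_lit 14121600], [], [nat_lit 15579890910, nat_lit 16832755080, nat_lit 17935789520, nat_lit 19013882960, nat_lit 16183746910, nat_lit 17310610460, nat_lit 18303161250, nat_lit 19370999300], nat_lit 1271250, nat_lit 1271250, nat_lit 1100001, nat_lit 1785000, nat_lit 490000, nat_lit 1100001, [nat_lit 780000, nat_lit 1435000, nat_lit 1271250], [nat_lit 8, nat_lit 40, nat_lit 40, nat_lit 80, nat_lit 1, nat_lit 317, nat_lit 100, nat_lit 9]⟩, ⟨p059_k15, nat_lit 0, nat_lit 0, nat_lit 551, nat_lit 0, nat_lit 420602, [nat_lit 1218880000, nat_lit 2071680000, nat_lit 3655080000], [], [nat_lit 11660700720, nat_lit 10803237240, nat_lit 10651524600, nat_lit 11209417480, nat_lit 12302048240, nat_lit 9892163312, nat_lit 9636545672, nat_lit 9863512744], nat_lit 1271250, nat_lit 1271250, nat_lit 1271250, nat_lit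 1271250, nat_lit 0, nat_lit 2373000, [nat_lit 1100000, nat_lit 1785000, nat_lit 1271250], [nat_lit 37, nat_lit 40, nat_lit 40, nat_lit 80, nat_lit 28, nat_lit 456, nat_lit 225, nat_lit 11]⟩,
 ⟨nat_lit 4472, nat_lit 5000, ⟨.ofNat (nat_lit 471408), .ofNat (nat_lit 614256), .ofNat (nat_lit 514240), .ofNat (nat_lit 657088), .ofNat (nat_lit 475134), .ofNat (nat_lit 611081), .ofNat (nat_lit 518242), .ofNat (nat_lit 654189)⟩, ⟨.ofNat (nat_lit 114284), .ofNat (nat_lit 257141), .ofNat (nat_lit 157141), .ofNat (nat_lit 299999), .ofNat (nat_lit 123532), .ofNat (nat_lit 259489), .ofNat (nat_lit 166665), .ofNat (nat_lit 302621)⟩⟩, [⟨nat_lit 19, nat_lit 100, nat_lit 92, nat_lit 75, nat_lit 47568975⟩]⟩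
noncomputable def b_V_700_600_10_42 : St := ⟨true, nat_lit 1, nat_lit 1, nat_lit 1, nat_lit 80, nat_lit 280, nat_lit 320, nat_lit 240, nat_lit 280, nat_lit 36, nat_lit 240, nat_lit 40, nat_lit 80, nat_lit 0, nat_lit 160, nat_lit 0, nat_lit 336, nat_lit 40, nat_lit 80, nat_lit 0, nat_lit 0, nat_lit 0, nat_lit 0⟩
theorem d_V_700_600_10_42 (h : EB TB.env) : Dead b_V_700_600_10_42 := chkB_sound0 h (T :=
(.spl (nat_lit 2) (nat_lit 160)
(.spl (nat_lit 0) (nat_lit 300)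
(.spl (nat_lit 3) (nat_lit 60)
(.trX (nat_lit 19) (nat_lit 100) (nat_lit 85) (nat_lit 73) (nat_lit 312) (.spl (nat_lit 6) (nat_lit 72)
(.spl (nat_lit 4) (nat_lit 80)
(.spl (nat_lit 2) (nat_lit 80)
(.leaf p059_l125)
(.spl (nat_lit 0) (nat_lit 290)
(.leaf p059_l126)
(.leaf p059_l127)))
(.leaf p059_l128))
(.leaf p059_l129)))
(.spl (nat_lit 6) (nat_lit 56)
(.spl (nat_lit 2) (nat_lit 80)
(.leaf p059_l130)
(.leaf p059_l131))
(.leaf p059_l132)))
(.trZ (nat_lit 0) (nat_lit 100) (nat_lit 88) (nat_lit 68) (nat_lit 48) (.spl (nat_lit 4) (nat_lit 80)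
(.spl (nat_lit 2) (nat_lit 80)
(.leaf p059_l133)
(.spl (nat_lit 2) (nat_lit 120)
(.leaf p059_l134)
(.spl (nat_lit 0) (nat_lit 310)
(.leaf p059_l135)
(.leaf p059_l136))))
(.spl (nat_lit 0) (nat_lit 310)
(.leaf p059_l137)
(.trZ (nat_lit 0) (nat_lit 100) (nat_lit 85) (nat_lit 72) (nat_lit 56) (.leaf p059_l138))))))
(.spl (nat_lit 4) (nat_lit 80)
(.spl (nat_lit 5) (nat_lit 160)
(.leaf p059_l139)
(.spl (nat_lit 0) (nat_lit 300)
(.leaf p059_l140)
(.leaf p059_l141)))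
(.spl (nat_lit 0) (nat_lit 300)
(.leaf p059_l142)
(.leaf p059_l143))))) (by decide +kernel)
noncomputable def p059_l144 : Lf2 := ⟨nat_lit 0, nat_lit 15, [nat_lit 30, nat_lit 5, nat_lit 5, nat_lit 20], true, nat_lit 160, nat_lit 240, nat_lit 0, nat_lit 312, ⟨nat_lit 0, nat_lit 0, nat_lit 1000, nat_lit 6, nat_lit 122, nat_lit 1000, nat_lit 136, nat_lit 1000, nat_lit 173400, nat_lit 317, nat_lit 138017, nat_lit 306, nat_lit 53533821, nat_lit 0, nat_lit 0, nat_lit 3414231, false, false⟩,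
 nat_lit 0, nat_lit 5698, nat_lit 0, nat_lit 0, nat_lit 3626, nat_lit 0, nat_lit 131, nat_lit 0, nat_lit 0, nat_lit 0, nat_lit 0, nat_lit 0, nat_lit 0, nat_lit 0, nat_lit 100, nat_lit 428800, nat_lit 0, nat_lit 0, [(nat_lit 13, [(nat_lit 5, nat_lit 952), (nat_lit 6, nat_lit 48)])],
 ⟨p059_k0, nat_lit 0, nat_lit 0, nat_lit 195, nat_lit 0, nat_lit 197871, [nat_lit 2445184000, nat_lit 1433762134, nat_lit 81040000], [], [nat_lit 14031041828, nat_lit 15212150840, nat_lit 13714221655, nat_lit 14772554247, nat_lit 16532446875, nat_lit 17703764139, nat_lit 16007224551, nat_lit 17023444524], nat_lit 1271250, nat_lit 1271250, nat_lit 205650, nat_lit 490000, nat_lit 1100001, nat_lit 1785000, [nat_lit 780000, nat_lit 1435000, nat_lit 1271250], [nat_lit 8, nat_lit 40, nat_lit 40, nat_lit 80, nat_lit 1, nat_lit 317, nat_lit 100, nat_lit 9]⟩, C1.Rw.none,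
 ⟨nat_lit 5000, nat_lit 5478, ⟨.ofNat (nat_lit 235487), .ofNat (nat_lit 317913), .ofNat (nat_lit 278201), .ofNat (nat_lit 360625), .ofNat (nat_lit 249999), .ofNat (nat_lit 328570), .ofNat (nat_lit 292856), .ofNat (nat_lit 371424)⟩, ⟨.ofNat (nat_lit 254209), .ofNat (nat_lit 404075), .ofNat (nat_lit 275566), .ofNat (nat_lit 425432), .ofNat (nat_lit 257141), .ofNat (nat_lit 399998), .ofNat (nat_lit 278570), .ofNat (nat_lit 421427)⟩⟩, [⟨nat_lit 0, nat_lit 100, nat_lit 94, nat_lit 88, nat_lit 187947608⟩, ⟨nat_lit 4, nat_lit 100, nat_lit 92, nat_lit 68, nat_lit 59365272⟩]⟩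
noncomputable def p059_l145 : Lf2 := ⟨nat_lit 0, nat_lit 15, [nat_lit 30, nat_lit 5, nat_lit 5, nat_lit 20], false, nat_lit 160, nat_lit 240, nat_lit 0, nat_lit 312, ⟨nat_lit 0, nat_lit 0, nat_lit 1000, nat_lit 6, nat_lit 167, nat_lit 1000, nat_lit 136, nat_lit 1000, nat_lit 173400, nat_lit 317, nat_lit 24681, nat_lit 252, nat_lit 49815499, nat_lit 0, nat_lit 0, nat_lit 3979207, false, false⟩,
 nat_lit 0, nat_lit 5680, nat_lit 0, nat_lit 0, nat_lit 3614, nat_lit 0, nat_lit 0, nat_lit 0, nat_lit 0, nat_lit 0, nat_lit 0, nat_lit 0, nat_lit 0, nat_lit 0, nat_lit 129, nat_lit 566200, nat_lit 0, nat_lit 0, [(nat_lit 13, [(nat_lit 5, nat_lit 723), (nat_lit 6, nat_lit 277)])],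
 ⟨p059_k0, nat_lit 0, nat_lit 0, nat_lit 163, nat_lit 0, nat_lit 197871, [nat_lit 2768299334, nat_lit 1878407867, nat_lit 18260000], [], [nat_lit 13672218254, nat_lit 14729079742, nat_lit 14558097934, nat_lit 15512808938, nat_lit 15978118912, nat_lit 16993321904, nat_lit 16929235604, nat_lit 18030566824], nat_lit 1271250, nat_lit 1271250, nat_lit 490000, nat_lit 1100001, nat_lit 1100001, nat_lit 1785000, [nat_lit 780000, nat_lit 1435000, nat_lit 1271250], [nat_lit 8, nat_lit 40, nat_lit 40, nat_lit 80, nat_lit 1, nat_lit 317, nat_lit 100, nat_lit 9]⟩, ⟨p059_k11, nat_lit 0, nat_lit 0, nat_lit 401, nat_lit 0, nat_lit 249291, [nat_lit 0, nat_lit 0, nat_lit 0], [], [nat_lit 0, nat_lit 0, nat_lit 0, nat_lit 0, nat_lit 0, nat_lit 0, nat_lit 0, nat_lit 0], nat_lit 1271250, nat_lit 1271250, nat_lit 490000, nat_lit 1100001, nat_lit 0, nat_lit 2203500, [nat_lit 1100000, nat_lit 1785000, nat_lit 1271250], [nat_lit 21,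 nat_lit 40, nat_lit 40, nat_lit 80, nat_lit 14, nat_lit 428, nat_lit 200, nat_lit 11]⟩,
 ⟨nat_lit 5000, nat_lit 5478, ⟨.ofNat (nat_lit 317913), .ofNat (nat_lit 467773), .ofNat (nat_lit 360625), .ofNat (nat_lit 510468), .ofNat (nat_lit 328570), .ofNat (nat_lit 471421), .ofNat (nat_lit 371424), .ofNat (nat_lit 514258)⟩, ⟨.ofNat (nat_lit 254209), .ofNat (nat_lit 404075), .ofNat (nat_lit 275566), .ofNat (nat_lit 425432), .ofNat (nat_lit 257141), .ofNat (nat_lit 399998), .ofNat (nat_lit 278570), .ofNat (nat_lit 421427)⟩⟩, [⟨nat_lit 0, nat_lit 100, nat_lit 94, nat_lit 88, nat_lit 8064726⟩, ⟨nat_lit 16, nat_lit 92, nat_lit 100, nat_lit 68, nat_lit 174445431⟩]⟩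
noncomputable def p059_l146 : Lf2 := ⟨nat_lit 1, nat_lit 15, [nat_lit 30, nat_lit 5, nat_lit 5, nat_lit 20], false, nat_lit 160, nat_lit 240, nat_lit 0, nat_lit 312, zbN0,
 nat_lit 0, nat_lit 0, nat_lit 0, nat_lit 0, nat_lit 0, nat_lit 0, nat_lit 0, nat_lit 0, nat_lit 0, nat_lit 0, nat_lit 0, nat_lit 0, nat_lit 0, nat_lit 0, nat_lit 0, nat_lit 0, nat_lit 0, nat_lit 0, [],
 C1.Rw.none, C1.Rw.none,
 zbF0, []⟩
noncomputable def p059_l147 : Lf2 := ⟨nat_lit 0, nat_lit 14, [nat_lit 119, nat_lit 5, nat_lit 5, nat_lit 20], false, nat_lit 160, nat_lit 240, nat_lit 0, nat_lit 336, ⟨nat_lit 0, nat_lit 0, nat_lit 1000, nat_lit 6, nat_lit 151, nat_lit 1000, nat_lit 144, nat_lit 1000, nat_lit 194400, nat_lit 323, nat_lit 24681, nat_lit 252, nat_lit 50498469, nat_lit 0, nat_lit 0, nat_lit 3899338, false, false⟩,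
 nat_lit 0, nat_lit 5667, nat_lit 0, nat_lit 0, nat_lit 3605, nat_lit 0, nat_lit 87, nat_lit 0, nat_lit 0, nat_lit 0, nat_lit 0, nat_lit 0, nat_lit 0, nat_lit 0, nat_lit 98, nat_lit 420400, nat_lit 0, nat_lit 0, [(nat_lit 13, [(nat_lit 5, nat_lit 966), (nat_lit 6, nat_lit 34)])],
 ⟨p059_k2, nat_lit 0, nat_lit 0, nat_lit 158, nat_lit 0, nat_lit 81411, [nat_lit 2422705334, nat_lit 1402037067, nat_lit 78520000], [], [nat_lit 14395508053, nat_lit 15552451712, nat_lit 14973066709, nat_lit 15926847239, nat_lit 16873787025, nat_lit 17923219652, nat_lit 17061192181, nat_lit 17915974421], nat_lit 1271250, nat_lit 1271250, nat_lit 205650, nat_lit 1100001, nat_lit 1100001, nat_lit 1785000, [nat_lit 780000, nat_lit 1435000, nat_lit 1271250], [nat_lit 8, nat_lit 40, nat_lit 40, nat_lit 80, nat_lit 1, nat_lit 317, nat_lit 100, nat_lit 9]⟩, ⟨p059_k13, nat_lit 0, nat_lit 0, nat_lit 379, nat_lit 0, nat_lit 102656, [nat_lit 0,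 nat_lit 0, nat_lit 0], [], [nat_lit 0, nat_lit 0, nat_lit 0, nat_lit 0, nat_lit 0, nat_lit 0, nat_lit 0, nat_lit 0], nat_lit 1271250, nat_lit 1271250, nat_lit 205650, nat_lit 1100001, nat_lit 0, nat_lit 2373000, [nat_lit 1100000, nat_lit 1785000, nat_lit 1271250], [nat_lit 21, nat_lit 40, nat_lit 40, nat_lit 80, nat_lit 14, nat_lit 428, nat_lit 200, nat_lit 11]⟩,
 ⟨nat_lit 5000, nat_lit 5478, ⟨.ofNat (nat_lit 235487), .ofNat (nat_lit 467773), .ofNat (nat_lit 278201), .ofNat (nat_lit 510468), .ofNat (nat_lit 249999), .ofNat (nat_lit 471421), .ofNat (nat_lit 292856), .ofNat (nat_lit 514258)⟩, ⟨.ofNat (nat_lit 275566), .ofNat (nat_lit 425432), .ofNat (nat_lit 296923), .ofNat (nat_lit 446789), .ofNat (nat_lit 278570), .ofNat (nat_lit 421427), .ofNat (nat_lit 299999), .ofNat (nat_lit 442856)⟩⟩, [⟨nat_lit 0, nat_lit 100, nat_lit 94, nat_lit 88, nat_lit 80258443⟩]⟩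
noncomputable def p059_l148 : Lf2 := ⟨nat_lit 1, nat_lit 20, [nat_lit 5, nat_lit 5, nat_lit 5, nat_lit 20], false, nat_lit 160, nat_lit 240, nat_lit 0, nat_lit 336, zbN0,
 nat_lit 0, nat_lit 0, nat_lit 0, nat_lit 0, nat_lit 0, nat_lit 0, nat_lit 0, nat_lit 0, nat_lit 0, nat_lit 0, nat_lit 0, nat_lit 0, nat_lit 0, nat_lit 0, nat_lit 0, nat_lit 0, nat_lit 0, nat_lit 0, [],
 C1.Rw.none, C1.Rw.none,
 zbF0, []⟩
noncomputable def p059_l149 : Lf2 := ⟨nat_lit 0, nat_lit 20, [nat_lit 5, nat_lit 5, nat_lit 5, nat_lit 20], false, nat_lit 160, nat_lit 240, nat_lit 0, nat_lit 336, ⟨nat_lit 0, nat_lit 0, nat_lit 1000, nat_lit 6, nat_lit 145, nat_lit 1000, nat_lit 140, nat_lit 1000, nat_lit 183750, nat_lit 320, nat_lit 198017, nat_lit 324, nat_lit 51358942, nat_lit 0, nat_lit 0, nat_lit 3769438, false, false⟩,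
 nat_lit 0, nat_lit 5284, nat_lit 0, nat_lit 0, nat_lit 3658, nat_lit 0, nat_lit 0, nat_lit 0, nat_lit 0, nat_lit 0, nat_lit 0, nat_lit 0, nat_lit 0, nat_lit 0, nat_lit 115, nat_lit 422200, nat_lit 0, nat_lit 0, [(nat_lit 16, [(nat_lit 5, nat_lit 963), (nat_lit 6, nat_lit 37)])],
 ⟨p059_k14, nat_lit 0, nat_lit 0, nat_lit 282, nat_lit 0, nat_lit 298582, [nat_lit 2689968000, nat_lit 1283101601, nat_lit 139467200], [], [nat_lit 15829266623, nat_lit 16813201356, nat_lit 15908896060, nat_lit 16820658632, nat_lit 17857818549, nat_lit 18996390709, nat_lit 17798099016, nat_lit 18637038640], nat_lit 1271250, nat_lit 1271250, nat_lit 279600, nat_lit 780000, nat_lit 1100001, nat_lit 1785000, [nat_lit 780000, nat_lit 1435000, nat_lit 1271250], [nat_lit 8, nat_lit 40, nat_lit 40, nat_lit 80, nat_lit 1, nat_lit 317, nat_lit 100, nat_lit 9]⟩, ⟨p059_k15, nat_lit 0, nat_lit 0, nat_lit 610, nat_lit 0, nat_lit 420602, [nat_lit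 0, nat_lit 0, nat_lit 0], [], [nat_lit 0, nat_lit 0, nat_lit 0, nat_lit 0, nat_lit 0, nat_lit 0, nat_lit 0, nat_lit 0], nat_lit 1271250, nat_lit 1271250, nat_lit 279600, nat_lit 780000, nat_lit 0, nat_lit 2373000, [nat_lit 1100000, nat_lit 1785000, nat_lit 1271250], [nat_lit 37, nat_lit 40, nat_lit 40, nat_lit 80, nat_lit 28, nat_lit 428, nat_lit 200, nat_lit 10]⟩,
 ⟨nat_lit 4472, nat_lit 5000, ⟨.ofNat (nat_lit 271418), .ofNat (nat_lit 399984), .ofNat (nat_lit 314253), .ofNat (nat_lit 442816), .ofNat (nat_lit 284805), .ofNat (nat_lit 407160), .ofNat (nat_lit 327916), .ofNat (nat_lit 450269)⟩, ⟨.ofNat (nat_lit 257141), .ofNat (nat_lit 399998), .ofNat (nat_lit 299999), .ofNat (nat_lit 442856), .ofNat (nat_lit 259489), .ofNat (nat_lit 395445), .ofNat (nat_lit 302621), .ofNat (nat_lit 438578)⟩⟩, [⟨nat_lit 0, nat_lit 100, nat_lit 87, nat_lit 95, nat_lit 134714704⟩, ⟨nat_lit 4, nat_lit 100, nat_lit 85, nat_lit 73,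 nat_lit 134172707⟩]⟩
noncomputable def p059_l150 : Lf2 := ⟨nat_lit 0, nat_lit 20, [nat_lit 5, nat_lit 5, nat_lit 5, nat_lit 20], false, nat_lit 160, nat_lit 240, nat_lit 0, nat_lit 336, ⟨nat_lit 8, nat_lit 0, nat_lit 992, nat_lit 6, nat_lit 184, nat_lit 992, nat_lit 140, nat_lit 992, nat_lit 183750, nat_lit 320, nat_lit 19267, nat_lit 249, nat_lit 48084019, nat_lit 0, nat_lit 0, nat_lit 4200863, false, false⟩,
 nat_lit 168, nat_lit 5081, nat_lit 0, nat_lit 0, nat_lit 3633, nat_lit 88, nat_lit 0, nat_lit 0, nat_lit 0, nat_lit 6, nat_lit 0, nat_lit 0, nat_lit 0, nat_lit 0, nat_lit 119, nat_lit 449600, nat_lit 0, nat_lit 0, [(nat_lit 16, [(nat_lit 5, nat_lit 904), (nat_lit 6, nat_lit 88)])],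
 ⟨p059_k14, nat_lit 0, nat_lit 0, nat_lit 192, nat_lit 0, nat_lit 298582, [nat_lit 2736508801, nat_lit 1352336000, nat_lit 107888000], [], [nat_lit 15371756629, nat_lit 16382923793, nat_lit 15937078839, nat_lit 16893754177, nat_lit 17464305004, nat_lit 18633347478, nat_lit 18171941284, nat_lit 19275784874], nat_lit 1271250, nat_lit 1271250, nat_lit 780000, nat_lit 1100001, nat_lit 1100001, nat_lit 1785000, [nat_lit 780000, nat_lit 1435000, nat_lit 1271250], [nat_lit 8, nat_lit 40, nat_lit 40, nat_lit 80, nat_lit 1, nat_lit 317, nat_lit 100, nat_lit 8]⟩, ⟨p059_k15, nat_lit 0, nat_lit 0, nat_lit 568, nat_lit 0, nat_lit 420602, [nat_lit 37504000, nat_lit 63744000, nat_lit 112464000], [], [nat_lit 463607104, nat_lit 369106016, nat_lit 369106016, nat_lit 286379672, nat_lit 283764103, nat_lit 260438629, nat_lit 327353741, nat_lit 251388338], nat_lit 1271250, nat_lit 1271250, nat_lit 780000, nat_lit 1100001, nat_lit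 0, nat_lit 2373000, [nat_lit 1100000, nat_lit 1785000, nat_lit 1271250], [nat_lit 37, nat_lit 40, nat_lit 40, nat_lit 80, nat_lit 28, nat_lit 428, nat_lit 200, nat_lit 10]⟩,
 ⟨nat_lit 4472, nat_lit 5000, ⟨.ofNat (nat_lit 399984), .ofNat (nat_lit 471408), .ofNat (nat_lit 442816), .ofNat (nat_lit 514240), .ofNat (nat_lit 407160), .ofNat (nat_lit 475134), .ofNat (nat_lit 450269), .ofNat (nat_lit 518242)⟩, ⟨.ofNat (nat_lit 257141), .ofNat (nat_lit 399998), .ofNat (nat_lit 299999), .ofNat (nat_lit 442856), .ofNat (nat_lit 259489), .ofNat (nat_lit 395445), .ofNat (nat_lit 302621), .ofNat (nat_lit 438578)⟩⟩, [⟨nat_lit 16, nat_lit 85, nat_lit 100, nat_lit 73, nat_lit 205271683⟩]⟩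
noncomputable def b_V_700_600_10_43 : St := ⟨true, nat_lit 1, nat_lit 1, nat_lit 1, nat_lit 80, nat_lit 280, nat_lit 320, nat_lit 240, nat_lit 280, nat_lit 36, nat_lit 160, nat_lit 40, nat_lit 80, nat_lit 160, nat_lit 240, nat_lit 0, nat_lit 336, nat_lit 40, nat_lit 80, nat_lit 0, nat_lit 0, nat_lit 0, nat_lit 0⟩
theorem d_V_700_600_10_43 (h : EB TB.env) : Dead b_V_700_600_10_43 := chkB_sound0 h (T :=
(.spl (nat_lit 0) (nat_lit 300)
(.spl (nat_lit 3) (nat_lit 60)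
(.trX (nat_lit 19) (nat_lit 100) (nat_lit 85) (nat_lit 73) (nat_lit 312) (.spl (nat_lit 6) (nat_lit 72)
(.spl (nat_lit 2) (nat_lit 80)
(.leaf p059_l144)
(.leaf p059_l145))
(.leaf p059_l146)))
(.spl (nat_lit 6) (nat_lit 56)
(.leaf p059_l147)
(.leaf p059_l148)))
(.trZ (nat_lit 0) (nat_lit 100) (nat_lit 88) (nat_lit 68) (nat_lit 48) (.spl (nat_lit 2) (nat_lit 120)
(.leaf p059_l149)
(.leaf p059_l150))))) (by decide +kernel)

end B2
end Pool.Agent.Lib.MP_6947cd_al
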