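import Pool.Agent.Lib.MP_6947cd_al.ZB.Pre

/-!
Problem MP_6947cd_al (Chollet).  Case B, second entry in [2/5, 17/20]: certificates of the tree, part P060 (generated).
-/

set_option autoImplicit false
set_option linter.all false

namespace Pool.Agent.Lib.MP_6947cd_al
namespace B2

open Ent Fr B1 PkA

noncomputable def p060_k0 : C1.Kn := ⟨[nat_lit 60, nat_lit 100, nat_lit 140], [nat_lit 0, nat_lit 0, nat_lit 2047], [(nat_lit 0, nat_lit 0, nat_lit 0), (nat_lit 0, nat_lit 0, nat_lit 0), (nat_lit 1000, nat_lit 993, nat_lit 781)], (nat_lit 99, nat_lit 100, nat_lit 77)⟩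
noncomputable def p060_k1 : C1.Kn := ⟨[nat_lit 80, nat_lit 120, nat_lit 160], [nat_lit 0, nat_lit 0, nat_lit 2132], [(nat_lit 0, nat_lit 0, nat_lit 0), (nat_lit 0, nat_lit 0, nat_lit 0), (nat_lit 858, nat_lit 1000, nat_lit 713)], (nat_lit 100, nat_lit 85, nat_lit 73)⟩
noncomputable def p060_k2 : C1.Kn := ⟨[nat_lit 60, nat_lit 100, nat_lit 140], [nat_lit 0, nat_lit 0, nat_lit 2047], [(nat_lit 0, nat_lit 0, nat_lit 0), (nat_lit 0, nat_lit 0, nat_lit 0), (nat_lit 1000, nat_lit 993, nat_lit 781)], (nat_lit 96, nat_lit 100, nat_lit 68)⟩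
noncomputable def p060_k3 : C1.Kn := ⟨[nat_lit 60, nat_lit 140], [nat_lit 0, nat_lit 0], [(nat_lit 0, nat_lit 0, nat_lit 0), (nat_lit 0, nat_lit 0, nat_lit 0)], (nat_lit 96, nat_lit 100, nat_lit 68)⟩
noncomputable def p060_k4 : C1.Kn := ⟨[nat_lit 80, nat_lit 140], [nat_lit 0, nat_lit 1393], [(nat_lit 0, nat_lit 0, nat_lit 0), (nat_lit 1000, nat_lit 927, nat_lit 362)], (nat_lit 98, nat_lit 100, nat_lit 69)⟩
noncomputable def p060_k5 : C1.Kn := ⟨[nat_lit 60, nat_lit 100, nat_lit 140], [nat_lit 0, nat_lit 151, nat_lit 2175], [(nat_lit 0, nat_lit 0, nat_lit 0), (nat_lit 1000, nat_lit 977, nat_lit 59), (nat_lit 1000, nat_lit 974, nat_lit 785)], (nat_lit 97, nat_lit 100, nat_lit 76)⟩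
noncomputable def p060_k6 : C1.Kn := ⟨[nat_lit 60, nat_lit 100, nat_lit 140], [nat_lit 0, nat_lit 302, nat_lit 2304], [(nat_lit 0, nat_lit 0, nat_lit 0), (nat_lit 1000, nat_lit 953, nat_lit 118), (nat_lit 1000, nat_lit 952, nat_lit 781)], (nat_lit 94, nat_lit 100, nat_lit 75)⟩
noncomputable def p060_k7 : C1.Kn := ⟨[nat_lit 80, nat_lit 120, nat_lit 160], [nat_lit 0, nat_lit 528, nat_lit 2577], [(nat_lit 0, nat_lit 0, nat_lit 0), (nat_lit 1000, nat_lit 959, nat_lit 206), (nat_lit 929, nat_lit 1000, nat_lit 742)], (nat_lit 100, nat_lit 92, nat_lit 75)⟩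
noncomputable def p060_k8 : C1.Kn := ⟨[nat_lit 60, nat_lit 100, nat_lit 140], [nat_lit 0, nat_lit 609, nat_lit 2558], [(nat_lit 0, nat_lit 0, nat_lit 0), (nat_lit 1000, nat_lit 905, nat_lit 238), (nat_lit 1000, nat_lit 904, nat_lit 760)], (nat_lit 90, nat_lit 100, nat_lit 74)⟩
noncomputable def p060_k9 : C1.Kn := ⟨[nat_lit 60, nat_lit 100, nat_lit 140], [nat_lit 0, nat_lit 0, nat_lit 2047], [(nat_lit 0, nat_lit 0, nat_lit 0), (nat_lit 0, nat_lit 0, nat_lit 0), (nat_lit 1000, nat_lit 993, nat_lit 781)], (nat_lit 98, nat_lit 100, nat_lit 74)⟩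
noncomputable def p060_k10 : C1.Kn := ⟨[nat_lit 60, nat_lit 100, nat_lit 140], [nat_lit 0, nat_lit 302, nat_lit 2304], [(nat_lit 0, nat_lit 0, nat_lit 0), (nat_lit 1000, nat_lit 953, nat_lit 118), (nat_lit 1000, nat_lit 952, nat_lit 781)], (nat_lit 93, nat_lit 100, nat_lit 73)⟩
noncomputable def p060_k11 : C1.Kn := ⟨[nat_lit 60, nat_lit 100, nat_lit 140], [nat_lit 0, nat_lit 455, nat_lit 2431], [(nat_lit 0, nat_lit 0, nat_lit 0), (nat_lit 1000, nat_lit 929, nat_lit 178), (nat_lit 1000, nat_lit 928, nat_lit 770)], (nat_lit 91, nat_lit 100, nat_lit 72)⟩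
noncomputable def p060_k12 : C1.Kn := ⟨[nat_lit 60, nat_lit 120, nat_lit 140], [nat_lit 0, nat_lit 683, nat_lit 2454], [(nat_lit 0, nat_lit 0, nat_lit 0), (nat_lit 1000, nat_lit 929, nat_lit 178), (nat_lit 1000, nat_lit 958, nat_lit 854)], (nat_lit 91, nat_lit 100, nat_lit 72)⟩
noncomputable def p060_k13 : C1.Kn := ⟨[nat_lit 80, nat_lit 120, nat_lit 160], [nat_lit 0, nat_lit 0, nat_lit 2132], [(nat_lit 0, nat_lit 0, nat_lit 0), (nat_lit 0, nat_lit 0, nat_lit 0), (nat_lit 858, nat_lit 1000, nat_lit 713)], (nat_lit 100, nat_lit 86, nat_lit 71)⟩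
noncomputable def p060_k14 : C1.Kn := ⟨[nat_lit 60, nat_lit 100, nat_lit 140], [nat_lit 0, nat_lit 609, nat_lit 2558], [(nat_lit 0, nat_lit 0, nat_lit 0), (nat_lit 1000, nat_lit 905, nat_lit 238), (nat_lit 1000, nat_lit 904, nat_lit 760)], (nat_lit 94, nat_lit 100, nat_lit 87)⟩
noncomputable def p060_k15 : C1.Kn := ⟨[nat_lit 80, nat_lit 120, nat_lit 180], [nat_lit 0, nat_lit 0, nat_lit 3196], [(nat_lit 0, nat_lit 0, nat_lit 0), (nat_lit 0, nat_lit 0, nat_lit 0), (nat_lit 858, nat_lit 1000, nat_lit 713)], (nat_lit 100, nat_lit 76, nat_lit 82)⟩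
noncomputable def p060_k16 : C1.Kn := ⟨[nat_lit 60, nat_lit 100, nat_lit 140], [nat_lit 0, nat_lit 909, nat_lit 2819], [(nat_lit 0, nat_lit 0, nat_lit 0), (nat_lit 1000, nat_lit 858, nat_lit 354), (nat_lit 1000, nat_lit 858, nat_lit 746)], (nat_lit 89, nat_lit 100, nat_lit 85)⟩
noncomputable def p060_k17 : C1.Kn := ⟨[nat_lit 60, nat_lit 100, nat_lit 160], [nat_lit 0, nat_lit 0, nat_lit 3069], [(nat_lit 0, nat_lit 0, nat_lit 0), (nat_lit 0, nat_lit 0, nat_lit 0), (nat_lit 1000, nat_lit 999, nat_lit 798)], (nat_lit 100, nat_lit 95, nat_lit 87)⟩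
noncomputable def p060_k18 : C1.Kn := ⟨[nat_lit 60, nat_lit 120, nat_lit 140], [nat_lit 0, nat_lit 913, nat_lit 2600], [(nat_lit 0, nat_lit 0, nat_lit 0), (nat_lit 1000, nat_lit 905, nat_lit 238), (nat_lit 1000, nat_lit 943, nat_lit 874)], (nat_lit 94, nat_lit 100, nat_lit 87)⟩
noncomputable def p060_k19 : C1.Kn := ⟨[nat_lit 60, nat_lit 140], [nat_lit 0, nat_lit 1218], [(nat_lit 0, nat_lit 0, nat_lit 0), (nat_lit 1000, nat_lit 905, nat_lit 238)], (nat_lit 94, nat_lit 100, nat_lit 87)⟩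
noncomputable def p060_k20 : C1.Kn := ⟨[nat_lit 80, nat_lit 180], [nat_lit 0, nat_lit 0], [(nat_lit 0, nat_lit 0, nat_lit 0), (nat_lit 0, nat_lit 0, nat_lit 0)], (nat_lit 100, nat_lit 76, nat_lit 82)⟩
noncomputable def p060_k21 : C1.Kn := ⟨[nat_lit 60, nat_lit 100, nat_lit 140], [nat_lit 0, nat_lit 0, nat_lit 2047], [(nat_lit 0, nat_lit 0, nat_lit 0), (nat_lit 0, nat_lit 0, nat_lit 0), (nat_lit 1000, nat_lit 993, nat_lit 781)], (nat_lit 94, nat_lit 100, nat_lit 62)⟩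
noncomputable def p060_k22 : C1.Kn := ⟨[nat_lit 60, nat_lit 120], [nat_lit 0, nat_lit 913], [(nat_lit 0, nat_lit 0, nat_lit 0), (nat_lit 1000, nat_lit 905, nat_lit 238)], (nat_lit 87, nat_lit 100, nat_lit 60)⟩
noncomputable def p060_k23 : C1.Kn := ⟨[nat_lit 80, nat_lit 120, nat_lit 160], [nat_lit 0, nat_lit 0, nat_lit 2132], [(nat_lit 0, nat_lit 0, nat_lit 0), (nat_lit 0, nat_lit 0, nat_lit 0), (nat_lit 858, nat_lit 1000, nat_lit 713)], (nat_lit 100, nat_lit 92, nat_lit 61)⟩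
noncomputable def p060_k24 : C1.Kn := ⟨[nat_lit 60, nat_lit 140], [nat_lit 0, nat_lit 0], [(nat_lit 0, nat_lit 0, nat_lit 0), (nat_lit 0, nat_lit 0, nat_lit 0)], (nat_lit 94, nat_lit 100, nat_lit 62)⟩
noncomputable def p060_k25 : C1.Kn := ⟨[nat_lit 80, nat_lit 120, nat_lit 140], [nat_lit 0, nat_lit 528, nat_lit 1572], [(nat_lit 0, nat_lit 0, nat_lit 0), (nat_lit 1000, nat_lit 959, nat_lit 206), (nat_lit 966, nat_lit 1000, nat_lit 679)], (nat_lit 100, nat_lit 99, nat_lit 63)⟩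
noncomputable def p060_k26 : C1.Kn := ⟨[nat_lit 60, nat_lit 80, nat_lit 140], [nat_lit 0, nat_lit 0, nat_lit 1595], [(nat_lit 0, nat_lit 0, nat_lit 0), (nat_lit 0, nat_lit 0, nat_lit 0), (nat_lit 1000, nat_lit 917, nat_lit 415)], (nat_lit 94, nat_lit 100, nat_lit 62)⟩
noncomputable def p060_k27 : C1.Kn := ⟨[nat_lit 80, nat_lit 100, nat_lit 160], [nat_lit 0, nat_lit 0, nat_lit 1533], [(nat_lit 0, nat_lit 0, nat_lit 0), (nat_lit 0, nat_lit 0, nat_lit 0), (nat_lit 1000, nat_lit 1000, nat_lit 399)], (nat_lit 100, nat_lit 92, nat_lit 61)⟩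
noncomputable def p060_k28 : C1.Kn := ⟨[nat_lit 60, nat_lit 100, nat_lit 120], [nat_lit 0, nat_lit 609, nat_lit 1609], [(nat_lit 0, nat_lit 0, nat_lit 0), (nat_lit 1000, nat_lit 905, nat_lit 238), (nat_lit 1000, nat_lit 882, nat_lit 668)], (nat_lit 87, nat_lit 100, nat_lit 60)⟩
noncomputable def p060_k29 : C1.Kn := ⟨[nat_lit 80, nat_lit 100, nat_lit 140], [nat_lit 0, nat_lit 265, nat_lit 1269], [(nat_lit 0, nat_lit 0, nat_lit 0), (nat_lit 1000, nat_lit 959, nat_lit 206), (nat_lit 1000, nat_lit 958, nat_lit 392)], (nat_lit 100, nat_lit 99, nat_lit 63)⟩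
noncomputable def p060_k30 : C1.Kn := ⟨[nat_lit 60, nat_lit 80, nat_lit 130], [nat_lit 0, nat_lit 0, nat_lit 1330], [(nat_lit 0, nat_lit 0, nat_lit 0), (nat_lit 0, nat_lit 0, nat_lit 0), (nat_lit 1000, nat_lit 917, nat_lit 415)], (nat_lit 94, nat_lit 100, nat_lit 62)⟩
noncomputable def p060_k31 : C1.Kn := ⟨[nat_lit 30, nat_lit 60, nat_lit 80, nat_lit 130], [nat_lit 0, nat_lit 0, nat_lit 0, nat_lit 1330], [(nat_lit 0, nat_lit 0, nat_lit 0), (nat_lit 0, nat_lit 0, nat_lit 0), (nat_lit 0, nat_lit 0, nat_lit 0), (nat_lit 1000, nat_lit 917, nat_lit 415)], (nat_lit 94, nat_lit 100, nat_lit 62)⟩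
noncomputable def p060_k32 : C1.Kn := ⟨[nat_lit 80, nat_lit 100, nat_lit 140], [nat_lit 0, nat_lit 399, nat_lit 1395], [(nat_lit 0, nat_lit 0, nat_lit 0), (nat_lit 1000, nat_lit 938, nat_lit 310), (nat_lit 1000, nat_lit 938, nat_lit 389)], (nat_lit 98, nat_lit 100, nat_lit 63)⟩
noncomputable def p060_k33 : C1.Kn := ⟨[nat_lit 60, nat_lit 120], [nat_lit 0, nat_lit 0], [(nat_lit 0, nat_lit 0, nat_lit 0), (nat_lit 0, nat_lit 0, nat_lit 0)], (nat_lit 92, nat_lit 100, nat_lit 44)⟩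
noncomputable def p060_k34 : C1.Kn := ⟨[nat_lit 60, nat_lit 70, nat_lit 90, nat_lit 110], [nat_lit 0, nat_lit 0, nat_lit 280, nat_lit 787], [(nat_lit 0, nat_lit 0, nat_lit 0), (nat_lit 0, nat_lit 0, nat_lit 0), (nat_lit 1000, nat_lit 934, nat_lit 219), (nat_lit 1000, nat_lit 917, nat_lit 396)], (nat_lit 92, nat_lit 100, nat_lit 44)⟩
noncomputable def p060_k35 : C1.Kn := ⟨[nat_lit 80, nat_lit 100, nat_lit 120], [nat_lit 0, nat_lit 132, nat_lit 640], [(nat_lit 0, nat_lit 0, nat_lit 0), (nat_lit 1000, nat_lit 979, nat_lit 103), (nat_lit 1000, nat_lit 979, nat_lit 397)], (nat_lit 99, nat_lit 100, nat_lit 44)⟩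
noncomputable def p060_k36 : C1.Kn := ⟨[nat_lit 60, nat_lit 70, nat_lit 90, nat_lit 100], [nat_lit 0, nat_lit 75, nat_lit 359, nat_lit 684], [(nat_lit 0, nat_lit 0, nat_lit 0), (nat_lit 1000, nat_lit 953, nat_lit 118), (nat_lit 1000, nat_lit 922, nat_lit 222), (nat_lit 1000, nat_lit 893, nat_lit 437)], (nat_lit 89, nat_lit 100, nat_lit 44)⟩
noncomputable def p060_k37 : C1.Kn := ⟨[nat_lit 30, nat_lit 60, nat_lit 80, nat_lit 110], [nat_lit 0, nat_lit 0, nat_lit 0, nat_lit 799], [(nat_lit 0, nat_lit 0, nat_lit 0), (nat_lit 0, nat_lit 0, nat_lit 0), (nat_lit 0, nat_lit 0, nat_lit 0), (nat_lit 1000, nat_lit 917, nat_lit 415)], (nat_lit 92, nat_lit 100, nat_lit 44)⟩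
noncomputable def p060_k38 : C1.Kn := ⟨[nat_lit 60, nat_lit 80, nat_lit 100], [nat_lit 0, nat_lit 304, nat_lit 825], [(nat_lit 0, nat_lit 0, nat_lit 0), (nat_lit 1000, nat_lit 905, nat_lit 238), (nat_lit 1000, nat_lit 871, nat_lit 407)], (nat_lit 87, nat_lit 100, nat_lit 44)⟩
noncomputable def p060_k39 : C1.Kn := ⟨[nat_lit 40, nat_lit 60, nat_lit 80, nat_lit 100, nat_lit 110], [nat_lit 0, nat_lit 0, nat_lit 0, nat_lit 534, nat_lit 795], [(nat_lit 0, nat_lit 0, nat_lit 0), (nat_lit 0, nat_lit 0, nat_lit 0), (nat_lit 0, nat_lit 0, nat_lit 0), (nat_lit 1000, nat_lit 917, nat_lit 393), (nat_lit 1000, nat_lit 917, nat_lit 409)], (nat_lit 92, nat_lit 100, nat_lit 44)⟩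
noncomputable def p060_k40 : C1.Kn := ⟨[nat_lit 60, nat_lit 80, nat_lit 100], [nat_lit 0, nat_lit 151, nat_lit 679], [(nat_lit 0, nat_lit 0, nat_lit 0), (nat_lit 1000, nat_lit 953, nat_lit 118), (nat_lit 1000, nat_lit 894, nat_lit 411)], (nat_lit 89, nat_lit 100, nat_lit 44)⟩
noncomputable def p060_k41 : C1.Kn := ⟨[nat_lit 60, nat_lit 80, nat_lit 100], [nat_lit 0, nat_lit 0, nat_lit 534], [(nat_lit 0, nat_lit 0, nat_lit 0), (nat_lit 0, nat_lit 0, nat_lit 0), (nat_lit 1000, nat_lit 917, nat_lit 393)], (nat_lit 92, nat_lit 100, nat_lit 28)⟩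
noncomputable def p060_k42 : C1.Kn := ⟨[nat_lit 80, nat_lit 100, nat_lit 120], [nat_lit 0, nat_lit 132, nat_lit 640], [(nat_lit 0, nat_lit 0, nat_lit 0), (nat_lit 1000, nat_lit 979, nat_lit 103), (nat_lit 1000, nat_lit 979, nat_lit 397)], (nat_lit 97, nat_lit 100, nat_lit 28)⟩
noncomputable def p060_k43 : C1.Kn := ⟨[nat_lit 60, nat_lit 80, nat_lit 120], [nat_lit 0, nat_lit 0, nat_lit 1064], [(nat_lit 0, nat_lit 0, nat_lit 0), (nat_lit 0, nat_lit 0, nat_lit 0), (nat_lit 1000, nat_lit 917, nat_lit 415)], (nat_lit 92, nat_lit 100, nat_lit 44)⟩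
noncomputable def p060_k44 : C1.Kn := ⟨[nat_lit 60, nat_lit 80, nat_lit 120], [nat_lit 0, nat_lit 75, nat_lit 1136], [(nat_lit 0, nat_lit 0, nat_lit 0), (nat_lit 1000, nat_lit 977, nat_lit 59), (nat_lit 1000, nat_lit 905, nat_lit 414)], (nat_lit 91, nat_lit 100, nat_lit 44)⟩
noncomputable def p060_k45 : C1.Kn := ⟨[nat_lit 60, nat_lit 100], [nat_lit 0, nat_lit 0], [(nat_lit 0, nat_lit 0, nat_lit 0), (nat_lit 0, nat_lit 0, nat_lit 0)], (nat_lit 92, nat_lit 100, nat_lit 34)⟩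
noncomputable def p060_k46 : C1.Kn := ⟨[nat_lit 80, nat_lit 120], [nat_lit 0, nat_lit 0], [(nat_lit 0, nat_lit 0, nat_lit 0), (nat_lit 0, nat_lit 0, nat_lit 0)], (nat_lit 99, nat_lit 100, nat_lit 34)⟩
noncomputable def p060_k47 : C1.Kn := ⟨[nat_lit 80, nat_lit 120], [nat_lit 0, nat_lit 264], [(nat_lit 0, nat_lit 0, nat_lit 0), (nat_lit 1000, nat_lit 979, nat_lit 103)], (nat_lit 97, nat_lit 100, nat_lit 34)⟩
noncomputable def p060_k48 : C1.Kn := ⟨[nat_lit 80, nat_lit 120], [nat_lit 0, nat_lit 395], [(nat_lit 0, nat_lit 0, nat_lit 0), (nat_lit 1000, nat_lit 969, nat_lit 154)], (nat_lit 96, nat_lit 100, nat_lit 34)⟩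
noncomputable def p060_k49 : C1.Kn := ⟨[nat_lit 60, nat_lit 80, nat_lit 100], [nat_lit 0, nat_lit 151, nat_lit 679], [(nat_lit 0, nat_lit 0, nat_lit 0), (nat_lit 1000, nat_lit 953, nat_lit 118), (nat_lit 1000, nat_lit 894, nat_lit 411)], (nat_lit 91, nat_lit 100, nat_lit 28)⟩
noncomputable def p060_k50 : C1.Kn := ⟨[nat_lit 80, nat_lit 100, nat_lit 120], [nat_lit 0, nat_lit 0, nat_lit 511], [(nat_lit 0, nat_lit 0, nat_lit 0), (nat_lit 0, nat_lit 0, nat_lit 0), (nat_lit 1000, nat_lit 997, nat_lit 383)], (nat_lit 98, nat_lit 100, nat_lit 28)⟩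
noncomputable def p060_k51 : C1.Kn := ⟨[nat_lit 80, nat_lit 100, nat_lit 140], [nat_lit 0, nat_lit 0, nat_lit 1022], [(nat_lit 0, nat_lit 0, nat_lit 0), (nat_lit 0, nat_lit 0, nat_lit 0), (nat_lit 1000, nat_lit 1000, nat_lit 399)], (nat_lit 100, nat_lit 99, nat_lit 44)⟩
noncomputable def p060_k52 : C1.Kn := ⟨[nat_lit 30, nat_lit 50, nat_lit 70, nat_lit 100], [nat_lit 0, nat_lit 0, nat_lit 0, nat_lit 842], [(nat_lit 0, nat_lit 0, nat_lit 0), (nat_lit 0, nat_lit 0, nat_lit 0), (nat_lit 0, nat_lit 0, nat_lit 0), (nat_lit 1000, nat_lit 868, nat_lit 437)], (nat_lit 87, nat_lit 100, nat_lit 44)⟩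
noncomputable def p060_l0 : Lf2 := ⟨nat_lit 0, nat_lit 15, [nat_lit 30, nat_lit 5, nat_lit 5, nat_lit 20], false, nat_lit 240, nat_lit 276, nat_lit 0, nat_lit 312, ⟨nat_lit 0, nat_lit 0, nat_lit 1000, nat_lit 6, nat_lit 134, nat_lit 1000, nat_lit 177, nat_lit 1000, nat_lit 45067, nat_lit 267, nat_lit 170017, nat_lit 316, nat_lit 49077430, nat_lit 0, nat_lit 0, nat_lit 4066373, false, false⟩,
 nat_lit 0, nat_lit 6088, nat_lit 0, nat_lit 2834, nat_lit 3874, nat_lit 0, nat_lit 0, nat_lit 0, nat_lit 0, nat_lit 0, nat_lit 0, nat_lit 0, nat_lit 0, nat_lit 0, nat_lit 121, nat_lit 529600, nat_lit 0, nat_lit 0, [(nat_lit 13, [(nat_lit 5, nat_lit 784), (nat_lit 6, nat_lit 216)]), (nat_lit 16, [(nat_lit 5, nat_lit 784), (nat_lit 6, nat_lit 216)])],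
 ⟨p060_k0, nat_lit 0, nat_lit 0, nat_lit 226, nat_lit 0, nat_lit 240726, [nat_lit 2735376001, nat_lit 1753104000, nat_lit 27280000], [], [nat_lit 16653124300, nat_lit 19493909890, nat_lit 16120449418, nat_lit 18694295920, nat_lit 18739383470, nat_lit 21689642966, nat_lit 18012965768, nat_lit 20737447232], nat_lit 1271250, nat_lit 1271250, nat_lit 205650, nat_lit 780000, nat_lit 1271250, nat_lit 1271250, [nat_lit 780000, nat_lit 1435000, nat_lit 1271250], [nat_lit 8, nat_lit 40, nat_lit 40, nat_lit 80, nat_lit 1, nat_lit 317, nat_lit 100, nat_lit 9]⟩, ⟨p060_k1, nat_lit 0, nat_lit 0, nat_lit 501, nat_lit 0, nat_lit 303809, [nat_lit 0, nat_lit 0, nat_lit 0], [], [nat_lit 0, nat_lit 0, nat_lit 0, nat_lit 0, nat_lit 0, nat_lit 0, nat_lit 0, nat_lit 0], nat_lit 1271250, nat_lit 1271250, nat_lit 205650, nat_lit 780000, nat_lit 0, nat_lit 2203500, [nat_lit 1100000, nat_lit 1785000, nat_lit 1271250], [nat_lit 21, nat_lit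 40, nat_lit 40, nat_lit 80, nat_lit 14, nat_lit 401, nat_lit 175, nat_lit 11]⟩,
 ⟨nat_lit 4472, nat_lit 5478, ⟨.ofNat (nat_lit 235487), .ofNat (nat_lit 392815), .ofNat (nat_lit 256814), .ofNat (nat_lit 414138), .ofNat (nat_lit 264421), .ofNat (nat_lit 407143), .ofNat (nat_lit 285957), .ofNat (nat_lit 428676)⟩, ⟨.ofNat (nat_lit 404075), .ofNat (nat_lit 471515), .ofNat (nat_lit 425432), .ofNat (nat_lit 492872), .ofNat (nat_lit 395445), .ofNat (nat_lit 456625), .ofNat (nat_lit 417011), .ofNat (nat_lit 478192)⟩⟩, [⟨nat_lit 0, nat_lit 100, nat_lit 89, nat_lit 72, nat_lit 160576786⟩, ⟨nat_lit 4, nat_lit 100, nat_lit 88, nat_lit 67, nat_lit 506967218⟩]⟩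
noncomputable def p060_l1 : Lf2 := ⟨nat_lit 0, nat_lit 15, [nat_lit 30, nat_lit 5, nat_lit 5, nat_lit 20], true, nat_lit 240, nat_lit 276, nat_lit 0, nat_lit 296, ⟨nat_lit 0, nat_lit 0, nat_lit 1000, nat_lit 6, nat_lit 128, nat_lit 1000, nat_lit 178, nat_lit 1000, nat_lit 45067, nat_lit 267, nat_lit 153600, nat_lit 311, nat_lit 49403165, nat_lit 0, nat_lit 0, nat_lit 4005860, false, false⟩,
 nat_lit 0, nat_lit 5707, nat_lit 0, nat_lit 1768, nat_lit 3631, nat_lit 0, nat_lit 109, nat_lit 0, nat_lit 0, nat_lit 0, nat_lit 0, nat_lit 0, nat_lit 0, nat_lit 0, nat_lit 95, nat_lit 400000, nat_lit 0, nat_lit 0, [(nat_lit 13, [(nat_lit 5, nat_lit 1000)])],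
 ⟨p060_k0, nat_lit 0, nat_lit 0, nat_lit 178, nat_lit 0, nat_lit 147049, [nat_lit 2390400000, nat_lit 1362133334, nat_lit 124400000], [], [nat_lit 16641270843, nat_lit 17685161193, nat_lit 16328705181, nat_lit 17343939617, nat_lit 18261835579, nat_lit 19679350578, nat_lit 17907766212, nat_lit 19202341899], nat_lit 1271250, nat_lit 1271250, nat_lit 279600, nat_lit 490000, nat_lit 1271250, nat_lit 1271250, [nat_lit 780000, nat_lit 1435000, nat_lit 1271250], [nat_lit 8, nat_lit 40, nat_lit 40, nat_lit 80, nat_lit 1, nat_lit 317, nat_lit 100, nat_lit 9]⟩, C1.Rw.none,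
 ⟨nat_lit 5000, nat_lit 5478, ⟨.ofNat (nat_lit 279324), .ofNat (nat_lit 339271), .ofNat (nat_lit 290003), .ofNat (nat_lit 349949), .ofNat (nat_lit 292856), .ofNat (nat_lit 349999), .ofNat (nat_lit 303570), .ofNat (nat_lit 360713)⟩, ⟨.ofNat (nat_lit 404075), .ofNat (nat_lit 471515), .ofNat (nat_lit 425432), .ofNat (nat_lit 492872), .ofNat (nat_lit 399998), .ofNat (nat_lit 464284), .ofNat (nat_lit 421427), .ofNat (nat_lit 485713)⟩⟩, [⟨nat_lit 0, nat_lit 100, nat_lit 94, nat_lit 76, nat_lit 171647504⟩, ⟨nat_lit 4, nat_lit 100, nat_lit 92, nat_lit 68, nat_lit 340093252⟩]⟩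
noncomputable def p060_l2 : Lf2 := ⟨nat_lit 0, nat_lit 12, [nat_lit 126, nat_lit 5, nat_lit 5, nat_lit 20], true, nat_lit 240, nat_lit 276, nat_lit 0, nat_lit 288, ⟨nat_lit 0, nat_lit 0, nat_lit 1000, nat_lit 6, nat_lit 133, nat_lit 1000, nat_lit 179, nat_lit 1000, nat_lit 45067, nat_lit 267, nat_lit 166667, nat_lit 315, nat_lit 48998329, nat_lit 0, nat_lit 0, nat_lit 4072209, false, false⟩,
 nat_lit 0, nat_lit 7615, nat_lit 0, nat_lit 0, nat_lit 4845, nat_lit 0, nat_lit 80, nat_lit 0, nat_lit 0, nat_lit 0, nat_lit 0, nat_lit 0, nat_lit 0, nat_lit 0, nat_lit 69, nat_lit 263050, nat_lit 0, nat_lit 0, [(nat_lit 13, [(nat_lit 4, nat_lit 913), (nat_lit 5, nat_lit 87)])],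
 ⟨p060_k2, nat_lit 0, nat_lit 0, nat_lit 155, nat_lit 0, nat_lit 108342, [nat_lit 3178382401, nat_lit 1066609601, nat_lit 268497600], [], [nat_lit 17041163224, nat_lit 17629672478, nat_lit 16585991221, nat_lit 17161336000, nat_lit 18838428294, nat_lit 19655629988, nat_lit 18346083866, nat_lit 19047243487], nat_lit 1271250, nat_lit 1271250, nat_lit 330400, nat_lit 490000, nat_lit 1271250, nat_lit 1271250, [nat_lit 780000, nat_lit 1435000, nat_lit 1271250], [nat_lit 8, nat_lit 40, nat_lit 40, nat_lit 80, nat_lit 1, nat_lit 317, nat_lit 100, nat_lit 8]⟩, C1.Rw.none,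
 ⟨nat_lit 5244, nat_lit 5478, ⟨.ofNat (nat_lit 304989), .ofNat (nat_lit 349949), .ofNat (nat_lit 310328), .ofNat (nat_lit 355288), .ofNat (nat_lit 311431), .ofNat (nat_lit 355334), .ofNat (nat_lit 316778), .ofNat (nat_lit 360680)⟩, ⟨.ofNat (nat_lit 404075), .ofNat (nat_lit 471515), .ofNat (nat_lit 425432), .ofNat (nat_lit 492872), .ofNat (nat_lit 402086), .ofNat (nat_lit 467940), .ofNat (nat_lit 423472), .ofNat (nat_lit 489326)⟩⟩, [⟨nat_lit 0, nat_lit 100, nat_lit 97, nat_lit 78, nat_lit 215613662⟩, ⟨nat_lit 4, nat_lit 100, nat_lit 94, nat_lit 69, nat_lit 365267314⟩]⟩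
noncomputable def p060_l3 : Lf2 := ⟨nat_lit 0, nat_lit 12, [nat_lit 126, nat_lit 5, nat_lit 5, nat_lit 20], false, nat_lit 240, nat_lit 276, nat_lit 0, nat_lit 280, ⟨nat_lit 728, nat_lit 0, nat_lit 272, nat_lit 6, nat_lit 137, nat_lit 272, nat_lit 179, nat_lit 272, nat_lit 45067, nat_lit 267, nat_lit 176817, nat_lit 318, nat_lit 48736833, nat_lit 0, nat_lit 0, nat_lit 4115437, false, false⟩,
 nat_lit 21126, nat_lit 1085, nat_lit 0, nat_lit 0, nat_lit 14134, nat_lit 13153, nat_lit 0, nat_lit 0, nat_lit 0, nat_lit 0, nat_lit 0, nat_lit 0, nat_lit 0, nat_lit 0, nat_lit 0, nat_lit 272000, nat_lit 0, nat_lit 0, [(nat_lit 13, [(nat_lit 6, nat_lit 272)])],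
 ⟨p060_k3, nat_lit 0, nat_lit 0, nat_lit 154, nat_lit 0, nat_lit 131108, [nat_lit 3287004800, nat_lit 5436252800], [], [nat_lit 19862389656, nat_lit 20981915117, nat_lit 18075515872, nat_lit 19170831080, nat_lit 23669587871, nat_lit 25340791565, nat_lit 21510072336, nat_lit 23149347630], nat_lit 1271250, nat_lit 1271250, nat_lit 356250, nat_lit 490000, nat_lit 1271250, nat_lit 1271250, [nat_lit 780000, nat_lit 2090000], [nat_lit 82, nat_lit 40, nat_lit 40, nat_lit 80, nat_lit 63, nat_lit 317, nat_lit 100, nat_lit 8]⟩, ⟨p060_k4, nat_lit 0, nat_lit 0, nat_lit 294, nat_lit 0, nat_lit 134609, [nat_lit 3412864000, nat_lit 7164976000], [], [nat_lit 26147676888, nat_lit 26122648328, nat_lit 23991925265, nat_lit 24327293704, nat_lit 18956836534, nat_lit 19298602337, nat_lit 17161576728, nat_lit 17495788226], nat_lit 1271250, nat_lit 1271250, nat_lit 356250, nat_lit 490000, nat_lit 0, nat_lit 1977500, [nat_lit 1100000,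 nat_lit 2127500], [nat_lit 70, nat_lit 40, nat_lit 40, nat_lit 80, nat_lit 13, nat_lit 401, nat_lit 175, nat_lit 12]⟩,
 ⟨nat_lit 5244, nat_lit 5478, ⟨.ofNat (nat_lit 317822), .ofNat (nat_lit 355288), .ofNat (nat_lit 323161), .ofNat (nat_lit 360628), .ofNat (nat_lit 324095), .ofNat (nat_lit 360680), .ofNat (nat_lit 329441), .ofNat (nat_lit 366027)⟩, ⟨.ofNat (nat_lit 404075), .ofNat (nat_lit 471515), .ofNat (nat_lit 425432), .ofNat (nat_lit 492872), .ofNat (nat_lit 402086), .ofNat (nat_lit 467940), .ofNat (nat_lit 423472), .ofNat (nat_lit 489326)⟩⟩, [⟨nat_lit 0, nat_lit 100, nat_lit 99, nat_lit 77, nat_lit 1405126555⟩, ⟨nat_lit 4, nat_lit 100, nat_lit 94, nat_lit 69, nat_lit 1060303042⟩, ⟨nat_lit 7, nat_lit 100, nat_lit 97, nat_lit 70, nat_lit 8452161⟩]⟩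
noncomputable def p060_l4 : Lf2 := ⟨nat_lit 0, nat_lit 15, [nat_lit 30, nat_lit 5, nat_lit 5, nat_lit 20], true, nat_lit 240, nat_lit 276, nat_lit 0, nat_lit 288, ⟨nat_lit 0, nat_lit 1000, nat_lit 0, nat_lit 6, nat_lit 134, nat_lit 1000, nat_lit 179, nat_lit 0, nat_lit 0, nat_lit 0, nat_lit 0, nat_lit 0, nat_lit 48939834, nat_lit 7006510, nat_lit 11053656, nat_lit 4080799, false, false⟩,
 nat_lit 0, nat_lit 7256, nat_lit 0, nat_lit 3297, nat_lit 4617, nat_lit 0, nat_lit 0, nat_lit 0, nat_lit 0, nat_lit 0, nat_lit 0, nat_lit 0, nat_lit 0, nat_lit 0, nat_lit 0, nat_lit 250000, nat_lit 0, nat_lit 0, [(nat_lit 13, [(nat_lit 0, nat_lit 1000)])],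
 ⟨p060_k0, nat_lit 0, nat_lit 0, nat_lit 106, nat_lit 0, nat_lit 64184, [nat_lit 2378400000, nat_lit 2909733334, nat_lit 3539066666], [], [nat_lit 16035329728, nat_lit 16473822931, nat_lit 15586926932, nat_lit 15973089704, nat_lit 18709245573, nat_lit 19107287244, nat_lit 18166342908, nat_lit 18556449794], nat_lit 1271250, nat_lit 1271250, nat_lit 330400, nat_lit 490000, nat_lit 1271250, nat_lit 1271250, [nat_lit 780000, nat_lit 1435000, nat_lit 1271250], [nat_lit 8, nat_lit 40, nat_lit 40, nat_lit 80, nat_lit 1, nat_lit 317, nat_lit 100, nat_lit 8]⟩, C1.Rw.none,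
 ⟨nat_lit 5361, nat_lit 5478, ⟨.ofNat (nat_lit 304989), .ofNat (nat_lit 349949), .ofNat (nat_lit 315668), .ofNat (nat_lit 360628), .ofNat (nat_lit 308214), .ofNat (nat_lit 352644), .ofNat (nat_lit 318899), .ofNat (nat_lit 363328)⟩, ⟨.ofNat (nat_lit 404075), .ofNat (nat_lit 471515), .ofNat (nat_lit 425432), .ofNat (nat_lit 492872), .ofNat (nat_lit 403092), .ofNat (nat_lit 469736), .ofNat (nat_lit 424461), .ofNat (nat_lit 491106)⟩⟩, [⟨nat_lit 0, nat_lit 100, nat_lit 99, nat_lit 82, nat_lit 215231101⟩, ⟨nat_lit 4, nat_lit 100, nat_lit 95, nat_lit 69, nat_lit 479931701⟩]⟩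
noncomputable def p060_l5 : Lf2 := ⟨nat_lit 0, nat_lit 15, [nat_lit 30, nat_lit 5, nat_lit 5, nat_lit 20], true, nat_lit 240, nat_lit 272, nat_lit 0, nat_lit 288, ⟨nat_lit 0, nat_lit 0, nat_lit 1000, nat_lit 6, nat_lit 136, nat_lit 1000, nat_lit 177, nat_lit 1000, nat_lit 63765, nat_lit 276, nat_lit 173400, nat_lit 317, nat_lit 48922204, nat_lit 0, nat_lit 0, nat_lit 4091828, false, false⟩,
 nat_lit 0, nat_lit 8580, nat_lit 0, nat_lit 0, nat_lit 5578, nat_lit 0, nat_lit 0, nat_lit 0, nat_lit 0, nat_lit 0, nat_lit 0, nat_lit 0, nat_lit 0, nat_lit 0, nat_lit 66, nat_lit 249100, nat_lit 0, nat_lit 0, [(nat_lit 13, [(nat_lit 3, nat_lit 18), (nat_lit 4, nat_lit 982)])],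
 ⟨p060_k5, nat_lit 0, nat_lit 0, nat_lit 143, nat_lit 0, nat_lit 87562, [nat_lit 3834936000, nat_lit 1029526401, nat_lit 273331200], [], [nat_lit 17508016846, nat_lit 17822258739, nat_lit 17011395892, nat_lit 17319861960, nat_lit 19247149121, nat_lit 19693385494, nat_lit 18649442650, nat_lit 19058575185], nat_lit 1271250, nat_lit 1271250, nat_lit 356250, nat_lit 490000, nat_lit 1271250, nat_lit 1271250, [nat_lit 780000, nat_lit 1435000, nat_lit 1271250], [nat_lit 8, nat_lit 40, nat_lit 40, nat_lit 80, nat_lit 1, nat_lit 317, nat_lit 100, nat_lit 8]⟩, C1.Rw.none,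
 ⟨nat_lit 5244, nat_lit 5362, ⟨.ofNat (nat_lit 315619), .ofNat (nat_lit 352644), .ofNat (nat_lit 326304), .ofNat (nat_lit 363328), .ofNat (nat_lit 318749), .ofNat (nat_lit 355334), .ofNat (nat_lit 329441), .ofNat (nat_lit 366027)⟩, ⟨.ofNat (nat_lit 403092), .ofNat (nat_lit 462331), .ofNat (nat_lit 424461), .ofNat (nat_lit 483701), .ofNat (nat_lit 402086), .ofNat (nat_lit 460623), .ofNat (nat_lit 423472), .ofNat (nat_lit 482008)⟩⟩, [⟨nat_lit 0, nat_lit 100, nat_lit 97, nat_lit 84, nat_lit 243793170⟩, ⟨nat_lit 4, nat_lit 100, nat_lit 93, nat_lit 69, nat_lit 419805562⟩]⟩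
noncomputable def p060_l6 : Lf2 := ⟨nat_lit 0, nat_lit 15, [nat_lit 30, nat_lit 5, nat_lit 5, nat_lit 20], true, nat_lit 240, nat_lit 268, nat_lit 0, nat_lit 288, ⟨nat_lit 0, nat_lit 0, nat_lit 1000, nat_lit 6, nat_lit 140, nat_lit 1000, nat_lit 175, nat_lit 1000, nat_lit 81667, nat_lit 285, nat_lit 183750, nat_lit 320, nat_lit 48882050, nat_lit 0, nat_lit 0, nat_lit 4106237, false, false⟩,
 nat_lit 0, nat_lit 6353, nat_lit 0, nat_lit 0, nat_lit 4219, nat_lit 0, nat_lit 116, nat_lit 0, nat_lit 0, nat_lit 0, nat_lit 0, nat_lit 0, nat_lit 0, nat_lit 0, nat_lit 81, nat_lit 327250, nat_lit 0, nat_lit 0, [(nat_lit 13, [(nat_lit 4, nat_lit 485), (nat_lit 5, nat_lit 515)])],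
 ⟨p060_k6, nat_lit 0, nat_lit 0, nat_lit 177, nat_lit 0, nat_lit 181633, [nat_lit 2806728000, nat_lit 1201378667, nat_lit 195672000], [], [nat_lit 17042212684, nat_lit 17590793220, nat_lit 16806588480, nat_lit 17347536208, nat_lit 18537889358, nat_lit 19308730486, nat_lit 18229876784, nat_lit 18990429476], nat_lit 1271250, nat_lit 1271250, nat_lit 382400, nat_lit 490000, nat_lit 1271250, nat_lit 1271250, [nat_lit 780000, nat_lit 1435000, nat_lit 1271250], [nat_lit 8, nat_lit 40, nat_lit 40, nat_lit 80, nat_lit 1, nat_lit 317, nat_lit 100, nat_lit 8]⟩, C1.Rw.none,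
 ⟨nat_lit 5000, nat_lit 5245, ⟨.ofNat (nat_lit 326066), .ofNat (nat_lit 355334), .ofNat (nat_lit 336758), .ofNat (nat_lit 366025), .ofNat (nat_lit 332141), .ofNat (nat_lit 360712), .ofNat (nat_lit 342855), .ofNat (nat_lit 371426)⟩, ⟨.ofNat (nat_lit 402086), .ofNat (nat_lit 453306), .ofNat (nat_lit 423472), .ofNat (nat_lit 474691), .ofNat (nat_lit 399998), .ofNat (nat_lit 449999), .ofNat (nat_lit 421427), .ofNat (nat_lit 471427)⟩⟩, [⟨nat_lit 0, nat_lit 100, nat_lit 95, nat_lit 83, nat_lit 194524516⟩, ⟨nat_lit 4, nat_lit 100, nat_lit 90, nat_lit 68, nat_lit 413417628⟩]⟩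
noncomputable def p060_l7 : Lf2 := ⟨nat_lit 0, nat_lit 15, [nat_lit 30, nat_lit 5, nat_lit 5, nat_lit 20], true, nat_lit 240, nat_lit 276, nat_lit 0, nat_lit 296, ⟨nat_lit 0, nat_lit 0, nat_lit 1000, nat_lit 6, nat_lit 130, nat_lit 1000, nat_lit 178, nat_lit 1000, nat_lit 45067, nat_lit 267, nat_lit 160067, nat_lit 313, nat_lit 49250203, nat_lit 0, nat_lit 0, nat_lit 4032152, false, false⟩,
 nat_lit 0, nat_lit 10051, nat_lit 0, nat_lit 5423, nat_lit 6396, nat_lit 0, nat_lit 0, nat_lit 0, nat_lit 0, nat_lit 0, nat_lit 0, nat_lit 0, nat_lit 0, nat_lit 0, nat_lit 66, nat_lit 248000, nat_lit 0, nat_lit 0, [(nat_lit 13, [(nat_lit 3, nat_lit 40), (nat_lit 4, nat_lit 960)])],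
 ⟨p060_k0, nat_lit 0, nat_lit 0, nat_lit 152, nat_lit 0, nat_lit 73729, [nat_lit 4553280000, nat_lit 1031392001, nat_lit 280336000], [], [nat_lit 17154483162, nat_lit 18947931572, nat_lit 16176659696, nat_lit 17736755104, nat_lit 20025820416, nat_lit 21960921296, nat_lit 18791381749, nat_lit 20672975721], nat_lit 1271250, nat_lit 1271250, nat_lit 279600, nat_lit 490000, nat_lit 1271250, nat_lit 1271250, [nat_lit 780000, nat_lit 1435000, nat_lit 1271250], [nat_lit 8, nat_lit 40, nat_lit 40, nat_lit 80, nat_lit 1, nat_lit 317, nat_lit 100, nat_lit 9]⟩, C1.Rw.none,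
 ⟨nat_lit 5000, nat_lit 5478, ⟨.ofNat (nat_lit 279324), .ofNat (nat_lit 339271), .ofNat (nat_lit 300681), .ofNat (nat_lit 360625), .ofNat (nat_lit 292856), .ofNat (nat_lit 349999), .ofNat (nat_lit 314284), .ofNat (nat_lit 371424)⟩, ⟨.ofNat (nat_lit 404075), .ofNat (nat_lit 471515), .ofNat (nat_lit 425432), .ofNat (nat_lit 492872), .ofNat (nat_lit 399998), .ofNat (nat_lit 464284), .ofNat (nat_lit 421427), .ofNat (nat_lit 485713)⟩⟩, [⟨nat_lit 0, nat_lit 100, nat_lit 94, nat_lit 88, nat_lit 310196291⟩, ⟨nat_lit 4, nat_lit 100, nat_lit 92, nat_lit 68, nat_lit 667565197⟩]⟩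
noncomputable def p060_l8 : Lf2 := ⟨nat_lit 0, nat_lit 15, [nat_lit 30, nat_lit 5, nat_lit 5, nat_lit 20], false, nat_lit 240, nat_lit 276, nat_lit 0, nat_lit 296, ⟨nat_lit 0, nat_lit 0, nat_lit 1000, nat_lit 6, nat_lit 156, nat_lit 1000, nat_lit 179, nat_lit 1000, nat_lit 45067, nat_lit 267, nat_lit 228150, nat_lit 332, nat_lit 47334830, nat_lit 0, nat_lit 0, nat_lit 4329545, false, false⟩,
 nat_lit 0, nat_lit 6348, nat_lit 0, nat_lit 0, nat_lit 4039, nat_lit 0, nat_lit 78, nat_lit 0, nat_lit 0, nat_lit 0, nat_lit 0, nat_lit 0, nat_lit 0, nat_lit 0, nat_lit 86, nat_lit 353950, nat_lit 0, nat_lit 0, [(nat_lit 13, [(nat_lit 4, nat_lit 307), (nat_lit 5, nat_lit 693)])],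
 ⟨p060_k0, nat_lit 0, nat_lit 0, nat_lit 150, nat_lit 0, nat_lit 142517, [nat_lit 2652273600, nat_lit 1257614401, nat_lit 165646400], [], [nat_lit 16551476114, nat_lit 17081361030, nat_lit 16643752038, nat_lit 17105280394, nat_lit 18191185553, nat_lit 18691306794, nat_lit 18166784416, nat_lit 18732662697], nat_lit 1271250, nat_lit 1271250, nat_lit 490000, nat_lit 780000, nat_lit 1271250, nat_lit 1271250, [nat_lit 780000, nat_lit 1435000, nat_lit 1271250], [nat_lit 8, nat_lit 40, nat_lit 40, nat_lit 80, nat_lit 1, nat_lit 317, nat_lit 100, nat_lit 8]⟩, ⟨p060_k7, nat_lit 0, nat_lit 0, nat_lit 366, nat_lit 0, nat_lit 159253, [nat_lit 0, nat_lit 0, nat_lit 0], [], [nat_lit 0, nat_lit 0, nat_lit 0, nat_lit 0, nat_lit 0, nat_lit 0, nat_lit 0, nat_lit 0], nat_lit 1271250, nat_lit 1271250, nat_lit 490000, nat_lit 780000, nat_lit 0, nat_lit 2090500, [nat_lit 1100000, nat_lit 1785000, nat_lit 1271250], [nat_lit 21,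 nat_lit 40, nat_lit 40, nat_lit 80, nat_lit 14, nat_lit 401, nat_lit 175, nat_lit 10]⟩,
 ⟨nat_lit 5244, nat_lit 5478, ⟨.ofNat (nat_lit 339271), .ofNat (nat_lit 414204), .ofNat (nat_lit 360628), .ofNat (nat_lit 435559), .ofNat (nat_lit 344641), .ofNat (nat_lit 417813), .ofNat (nat_lit 366027), .ofNat (nat_lit 439196)⟩, ⟨.ofNat (nat_lit 404075), .ofNat (nat_lit 471515), .ofNat (nat_lit 425432), .ofNat (nat_lit 492872), .ofNat (nat_lit 402086), .ofNat (nat_lit 467940), .ofNat (nat_lit 423472), .ofNat (nat_lit 489326)⟩⟩, [⟨nat_lit 4, nat_lit 100, nat_lit 94, nat_lit 69, nat_lit 334061216⟩]⟩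
noncomputable def p060_l9 : Lf2 := ⟨nat_lit 0, nat_lit 15, [nat_lit 30, nat_lit 5, nat_lit 5, nat_lit 20], false, nat_lit 240, nat_lit 268, nat_lit 0, nat_lit 296, ⟨nat_lit 0, nat_lit 0, nat_lit 1000, nat_lit 6, nat_lit 158, nat_lit 1000, nat_lit 175, nat_lit 1000, nat_lit 81667, nat_lit 285, nat_lit 232067, nat_lit 333, nat_lit 47526266, nat_lit 0, nat_lit 0, nat_lit 4309340, false, false⟩,
 nat_lit 0, nat_lit 6285, nat_lit 0, nat_lit 0, nat_lit 4173, nat_lit 0, nat_lit 105, nat_lit 0, nat_lit 0, nat_lit 0, nat_lit 0, nat_lit 0, nat_lit 0, nat_lit 0, nat_lit 82, nat_lit 332350, nat_lit 0, nat_lit 0, [(nat_lit 13, [(nat_lit 4, nat_lit 451), (nat_lit 5, nat_lit 549)])],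
 ⟨p060_k6, nat_lit 0, nat_lit 0, nat_lit 168, nat_lit 0, nat_lit 187731, [nat_lit 2777764800, nat_lit 1213019201, nat_lit 191195200], [], [nat_lit 16881904770, nat_lit 17419429136, nat_lit 16928992382, nat_lit 17471669762, nat_lit 18212399802, nat_lit 18968664466, nat_lit 18319691940, nat_lit 18971326548], nat_lit 1271250, nat_lit 1271250, nat_lit 490000, nat_lit 780000, nat_lit 1271250, nat_lit 1271250, [nat_lit 780000, nat_lit 1435000, nat_lit 1271250], [nat_lit 8, nat_lit 40, nat_lit 40, nat_lit 80, nat_lit 1, nat_lit 317, nat_lit 100, nat_lit 8]⟩, ⟨p060_k7, nat_lit 0, nat_lit 0, nat_lit 390, nat_lit 0, nat_lit 221107, [nat_lit 0, nat_lit 0, nat_lit 0], [], [nat_lit 0, nat_lit 0, nat_lit 0, nat_lit 0, nat_lit 0, nat_lit 0, nat_lit 0, nat_lit 0], nat_lit 1271250, nat_lit 1271250, nat_lit 490000, nat_lit 780000, nat_lit 0, nat_lit 2090500, [nat_lit 1100000, nat_lit 1785000, nat_lit 1271250], [nat_lit 21,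 nat_lit 40, nat_lit 40, nat_lit 80, nat_lit 14, nat_lit 401, nat_lit 175, nat_lit 10]⟩,
 ⟨nat_lit 5000, nat_lit 5245, ⟨.ofNat (nat_lit 344641), .ofNat (nat_lit 417811), .ofNat (nat_lit 366025), .ofNat (nat_lit 439194), .ofNat (nat_lit 349999), .ofNat (nat_lit 421425), .ofNat (nat_lit 371426), .ofNat (nat_lit 442852)⟩, ⟨.ofNat (nat_lit 402086), .ofNat (nat_lit 453306), .ofNat (nat_lit 423472), .ofNat (nat_lit 474691), .ofNat (nat_lit 399998), .ofNat (nat_lit 449999), .ofNat (nat_lit 421427), .ofNat (nat_lit 471427)⟩⟩, [⟨nat_lit 4, nat_lit 100, nat_lit 90, nat_lit 68, nat_lit 424646761⟩]⟩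
noncomputable def p060_l10 : Lf2 := ⟨nat_lit 1, nat_lit 15, [nat_lit 30, nat_lit 5, nat_lit 5, nat_lit 20], false, nat_lit 240, nat_lit 276, nat_lit 0, nat_lit 296, zbN0,
 nat_lit 0, nat_lit 0, nat_lit 0, nat_lit 0, nat_lit 0, nat_lit 0, nat_lit 0, nat_lit 0, nat_lit 0, nat_lit 0, nat_lit 0, nat_lit 0, nat_lit 0, nat_lit 0, nat_lit 0, nat_lit 0, nat_lit 0, nat_lit 0, [],
 C1.Rw.none, C1.Rw.none,
 zbF0, []⟩
noncomputable def p060_l11 : Lf2 := ⟨nat_lit 0, nat_lit 15, [nat_lit 30, nat_lit 5, nat_lit 5, nat_lit 20], false, nat_lit 240, nat_lit 256, nat_lit 0, nat_lit 296, ⟨nat_lit 0, nat_lit 0, nat_lit 1000, nat_lit 6, nat_lit 155, nat_lit 1000, nat_lit 169, nat_lit 1000, nat_lit 268817, nat_lit 342, nat_lit 224267, nat_lit 331, nat_lit 48220876, nat_lit 0, nat_lit 0, nat_lit 4218879, false, false⟩,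
 nat_lit 0, nat_lit 5394, nat_lit 0, nat_lit 0, nat_lit 3734, nat_lit 0, nat_lit 0, nat_lit 0, nat_lit 0, nat_lit 0, nat_lit 0, nat_lit 0, nat_lit 0, nat_lit 0, nat_lit 123, nat_lit 454600, nat_lit 0, nat_lit 0, [(nat_lit 16, [(nat_lit 5, nat_lit 909), (nat_lit 6, nat_lit 91)])],
 ⟨p060_k8, nat_lit 0, nat_lit 0, nat_lit 220, nat_lit 0, nat_lit 290168, [nat_lit 2767824001, nat_lit 1370568801, nat_lit 103489600], [], [nat_lit 17363266520, nat_lit 18806758940, nat_lit 17250791198, nat_lit 18657184720, nat_lit 18255393480, nat_lit 19750481290, nat_lit 18143270201, nat_lit 19551412914], nat_lit 1271250, nat_lit 1271250, nat_lit 382400, nat_lit 780000, nat_lit 1271250, nat_lit 1271250, [nat_lit 780000, nat_lit 1435000, nat_lit 1271250], [nat_lit 8, nat_lit 40, nat_lit 40, nat_lit 80, nat_lit 1, nat_lit 317, nat_lit 100, nat_lit 8]⟩, ⟨p060_k7, nat_lit 0, nat_lit 0, nat_lit 501, nat_lit 0, nat_lit 360144, [nat_lit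 0, nat_lit 0, nat_lit 0], [], [nat_lit 0, nat_lit 0, nat_lit 0, nat_lit 0, nat_lit 0, nat_lit 0, nat_lit 0, nat_lit 0], nat_lit 1271250, nat_lit 1271250, nat_lit 382400, nat_lit 780000, nat_lit 0, nat_lit 2090500, [nat_lit 1100000, nat_lit 1785000, nat_lit 1271250], [nat_lit 21, nat_lit 40, nat_lit 40, nat_lit 80, nat_lit 14, nat_lit 401, nat_lit 175, nat_lit 11]⟩,
 ⟨nat_lit 4472, nat_lit 5000, ⟨.ofNat (nat_lit 321407), .ofNat (nat_lit 421400), .ofNat (nat_lit 342823), .ofNat (nat_lit 442816), .ofNat (nat_lit 333552), .ofNat (nat_lit 428715), .ofNat (nat_lit 355106), .ofNat (nat_lit 450269)⟩, ⟨.ofNat (nat_lit 399998), .ofNat (nat_lit 428570), .ofNat (nat_lit 421427), .ofNat (nat_lit 449999), .ofNat (nat_lit 395445), .ofNat (nat_lit 422636), .ofNat (nat_lit 417011), .ofNat (nat_lit 444203)⟩⟩, [⟨nat_lit 0, nat_lit 100, nat_lit 89, nat_lit 86, nat_lit 131445829⟩, ⟨nat_lit 16, nat_lit 90, nat_lit 100, nat_lit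 74, nat_lit 375320216⟩]⟩
noncomputable def p060_l12 : Lf2 := ⟨nat_lit 0, nat_lit 15, [nat_lit 30, nat_lit 5, nat_lit 5, nat_lit 20], false, nat_lit 240, nat_lit 276, nat_lit 0, nat_lit 312, ⟨nat_lit 0, nat_lit 0, nat_lit 1000, nat_lit 6, nat_lit 182, nat_lit 1000, nat_lit 178, nat_lit 1000, nat_lit 45067, nat_lit 267, nat_lit 24681, nat_lit 252, nat_lit 45412943, nat_lit 0, nat_lit 0, nat_lit 4579298, false, false⟩,
 nat_lit 0, nat_lit 8176, nat_lit 0, nat_lit 0, nat_lit 5202, nat_lit 0, nat_lit 88, nat_lit 0, nat_lit 0, nat_lit 0, nat_lit 0, nat_lit 0, nat_lit 0, nat_lit 0, nat_lit 66, nat_lit 249750, nat_lit 0, nat_lit 0, [(nat_lit 13, [(nat_lit 3, nat_lit 5), (nat_lit 4, nat_lit 995)])],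
 ⟨p060_k0, nat_lit 0, nat_lit 0, nat_lit 158, nat_lit 0, nat_lit 202231, [nat_lit 3410460000, nat_lit 1028424001, nat_lit 269192000], [], [nat_lit 16221840184, nat_lit 17347148344, nat_lit 16586595448, nat_lit 17905172616, nat_lit 18211145864, nat_lit 19797992166, nat_lit 18764745268, nat_lit 20256321622], nat_lit 1271250, nat_lit 1271250, nat_lit 780000, nat_lit 1100001, nat_lit 1271250, nat_lit 1271250, [nat_lit 780000, nat_lit 1435000, nat_lit 1271250], [nat_lit 8, nat_lit 40, nat_lit 40, nat_lit 80, nat_lit 1, nat_lit 345, nat_lit 125, nat_lit 9]⟩, ⟨p060_k1, nat_lit 0, nat_lit 0, nat_lit 382, nat_lit 0, nat_lit 255227, [nat_lit 0, nat_lit 0, nat_lit 0], [], [nat_lit 0, nat_lit 0, nat_lit 0, nat_lit 0, nat_lit 0, nat_lit 0, nat_lit 0, nat_lit 0], nat_lit 1271250, nat_lit 1271250, nat_lit 780000, nat_lit 1100001, nat_lit 0, nat_lit 2203500, [nat_lit 1100000, nat_lit 1785000, nat_lit 1271250], [nat_lit 21,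 nat_lit 40, nat_lit 40, nat_lit 80, nat_lit 14, nat_lit 428, nat_lit 200, nat_lit 11]⟩,
 ⟨nat_lit 5000, nat_lit 5478, ⟨.ofNat (nat_lit 392847), .ofNat (nat_lit 467773), .ofNat (nat_lit 435548), .ofNat (nat_lit 510468), .ofNat (nat_lit 399998), .ofNat (nat_lit 471421), .ofNat (nat_lit 442843), .ofNat (nat_lit 514258)⟩, ⟨.ofNat (nat_lit 404075), .ofNat (nat_lit 471515), .ofNat (nat_lit 425432), .ofNat (nat_lit 492872), .ofNat (nat_lit 399998), .ofNat (nat_lit 464284), .ofNat (nat_lit 421427), .ofNat (nat_lit 485713)⟩⟩, [⟨nat_lit 16, nat_lit 92, nat_lit 100, nat_lit 68, nat_lit 543472814⟩]⟩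
noncomputable def p060_l13 : Lf2 := ⟨nat_lit 0, nat_lit 15, [nat_lit 30, nat_lit 5, nat_lit 5, nat_lit 20], false, nat_lit 240, nat_lit 256, nat_lit 0, nat_lit 312, ⟨nat_lit 27, nat_lit 0, nat_lit 973, nat_lit 6, nat_lit 184, nat_lit 973, nat_lit 169, nat_lit 973, nat_lit 268817, nat_lit 342, nat_lit 19267, nat_lit 249, nat_lit 45941836, nat_lit 0, nat_lit 0, nat_lit 4511289, false, false⟩,
 nat_lit 478, nat_lit 4820, nat_lit 0, nat_lit 0, nat_lit 3667, nat_lit 253, nat_lit 0, nat_lit 0, nat_lit 0, nat_lit 18, nat_lit 0, nat_lit 0, nat_lit 0, nat_lit 0, nat_lit 114, nat_lit 457600, nat_lit 0, nat_lit 0, [(nat_lit 16, [(nat_lit 5, nat_lit 859), (nat_lit 6, nat_lit 114)])],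
 ⟨p060_k8, nat_lit 0, nat_lit 0, nat_lit 192, nat_lit 0, nat_lit 290168, [nat_lit 2705005200, nat_lit 1354539601, nat_lit 84857200], [], [nat_lit 17523896292, nat_lit 18639424360, nat_lit 18166222918, nat_lit 19281602860, nat_lit 18237666091, nat_lit 19527029577, nat_lit 18900849710, nat_lit 20121745416], nat_lit 1271250, nat_lit 1271250, nat_lit 780000, nat_lit 1100001, nat_lit 1271250, nat_lit 1271250, [nat_lit 780000, nat_lit 1435000, nat_lit 1271250], [nat_lit 8, nat_lit 40, nat_lit 40, nat_lit 80, nat_lit 1, nat_lit 345, nat_lit 125, nat_lit 9]⟩, ⟨p060_k1, nat_lit 0, nat_lit 0, nat_lit 486, nat_lit 0, nat_lit 406424, [nat_lit 126576000, nat_lit 215136000, nat_lit 320544000], [], [nat_lit 1450374472, nat_lit 1178683844, nat_lit 1178683844, nat_lit 1006856436, nat_lit 935944317, nat_lit 863594759, nat_lit 1064612632, nat_lit 839847519], nat_lit 1271250, nat_lit 1271250, nat_lit 780000, nat_lit 1100001,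 nat_lit 0, nat_lit 2203500, [nat_lit 1100000, nat_lit 1785000, nat_lit 1271250], [nat_lit 21, nat_lit 40, nat_lit 40, nat_lit 80, nat_lit 14, nat_lit 428, nat_lit 200, nat_lit 11]⟩,
 ⟨nat_lit 4472, nat_lit 5000, ⟨.ofNat (nat_lit 399984), .ofNat (nat_lit 471408), .ofNat (nat_lit 442816), .ofNat (nat_lit 514240), .ofNat (nat_lit 407160), .ofNat (nat_lit 475134), .ofNat (nat_lit 450269), .ofNat (nat_lit 518242)⟩, ⟨.ofNat (nat_lit 399998), .ofNat (nat_lit 428570), .ofNat (nat_lit 421427), .ofNat (nat_lit 449999), .ofNat (nat_lit 395445), .ofNat (nat_lit 422636), .ofNat (nat_lit 417011), .ofNat (nat_lit 444203)⟩⟩, [⟨nat_lit 16, nat_lit 90, nat_lit 100, nat_lit 74, nat_lit 382076732⟩]⟩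
noncomputable def b_V_700_600_10_44 : St := ⟨true, nat_lit 1, nat_lit 1, nat_lit 1, nat_lit 80, nat_lit 280, nat_lit 320, nat_lit 240, nat_lit 280, nat_lit 36, nat_lit 160, nat_lit 40, nat_lit 60, nat_lit 240, nat_lit 300, nat_lit 0, nat_lit 336, nat_lit 40, nat_lit 80, nat_lit 0, nat_lit 0, nat_lit 0, nat_lit 0⟩
theorem d_V_700_600_10_44 (h : EB TB.env) : Dead b_V_700_600_10_44 := chkB_sound0 h (T :=
(.trX (nat_lit 16) (nat_lit 99) (nat_lit 100) (nat_lit 77) (nat_lit 276) (.trX (nat_lit 19) (nat_lit 100) (nat_lit 85) (nat_lit 73) (nat_lit 312) (.spl (nat_lit 2) (nat_lit 120)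
(.spl (nat_lit 1) (nat_lit 260)
(.leaf p060_l0)
(.trZ (nat_lit 0) (nat_lit 100) (nat_lit 96) (nat_lit 69) (nat_lit 48) (.trX (nat_lit 19) (nat_lit 100) (nat_lit 92) (nat_lit 75) (nat_lit 296) (.spl (nat_lit 0) (nat_lit 300)
(.spl (nat_lit 6) (nat_lit 72)
(.spl (nat_lit 2) (nat_lit 80)
(.spl (nat_lit 6) (nat_lit 60)
(.spl (nat_lit 1) (nat_lit 270)
(.leaf p060_l1)
(.trZ (nat_lit 0) (nat_lit 100) (nat_lit 98) (nat_lit 74) (nat_lit 56) (.trX (nat_lit 19) (nat_lit 100) (nat_lit 97) (nat_lit 76) (nat_lit 288) (.spl (nat_lit 0) (nat_lit 290)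
(.spl (nat_lit 6) (nat_lit 48)
(.spl (nat_lit 1) (nat_lit 275)
(.leaf p060_l2)
(.trZ (nat_lit 0) (nat_lit 100) (nat_lit 99) (nat_lit 77) (nat_lit 60) (.trX (nat_lit 19) (nat_lit 100) (nat_lit 99) (nat_lit 77) (nat_lit 280) (.leaf p060_l3))))
(.spl (nat_lit 0) (nat_lit 285)
(.leaf p060_l4)
(.trZ (nat_lit 0) (nat_lit 100) (nat_lit 97) (nat_lit 76) (nat_lit 60) (.trX (nat_lit 16) (nat_lit 97) (nat_lit 100) (nat_lit 76) (nat_lit 272) (.leaf p060_l5)))))
(.trZ (nat_lit 0) (nat_lit 100) (nat_lit 95) (nat_lit 78) (nat_lit 64) (.trX (nat_lit 16) (nat_lit 94) (nat_lit 100) (nat_lit 75) (nat_lit 268) (.leaf p060_l6)))))))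
(.leaf p060_l7))
(.spl (nat_lit 0) (nat_lit 290)
(.leaf p060_l8)
(.trX (nat_lit 16) (nat_lit 94) (nat_lit 100) (nat_lit 75) (nat_lit 268) (.leaf p060_l9))))
(.leaf p060_l10))
(.trZ (nat_lit 0) (nat_lit 100) (nat_lit 91) (nat_lit 77) (nat_lit 64) (.trX (nat_lit 16) (nat_lit 90) (nat_lit 100) (nat_lit 74) (nat_lit 256) (.leaf p060_l11)))))))
(.spl (nat_lit 0) (nat_lit 300)
(.leaf p060_l12)
(.trX (nat_lit 16) (nat_lit 90) (nat_lit 100) (nat_lit 74) (nat_lit 256) (.leaf p060_l13))))))) (by decide +kernel)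
noncomputable def p060_l14 : Lf2 := ⟨nat_lit 1, nat_lit 14, [nat_lit 119, nat_lit 5, nat_lit 5, nat_lit 20], false, nat_lit 240, nat_lit 280, nat_lit 0, nat_lit 336, zbN0,
 nat_lit 0, nat_lit 0, nat_lit 0, nat_lit 0, nat_lit 0, nat_lit 0, nat_lit 0, nat_lit 0, nat_lit 0, nat_lit 0, nat_lit 0, nat_lit 0, nat_lit 0, nat_lit 0, nat_lit 0, nat_lit 0, nat_lit 0, nat_lit 0, [],
 C1.Rw.none, C1.Rw.none,
 zbF0, []⟩
noncomputable def p060_l15 : Lf2 := ⟨nat_lit 0, nat_lit 14, [nat_lit 119, nat_lit 5, nat_lit 5, nat_lit 20], true, nat_lit 240, nat_lit 280, nat_lit 0, nat_lit 320, ⟨nat_lit 0, nat_lit 1000, nat_lit 0, nat_lit 6, nat_lit 129, nat_lit 1000, nat_lit 189, nat_lit 0, nat_lit 0, nat_lit 0, nat_lit 0, nat_lit 0, nat_lit 48405912, nat_lit 6620102, nat_lit 11973986, nat_lit 4123299, false, false⟩,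
 nat_lit 0, nat_lit 6864, nat_lit 0, nat_lit 4861, nat_lit 4368, nat_lit 0, nat_lit 0, nat_lit 0, nat_lit 0, nat_lit 0, nat_lit 0, nat_lit 0, nat_lit 0, nat_lit 0, nat_lit 0, nat_lit 250000, nat_lit 0, nat_lit 0, [(nat_lit 13, [(nat_lit 0, nat_lit 1000)])],
 ⟨p060_k9, nat_lit 0, nat_lit 0, nat_lit 107, nat_lit 0, nat_lit 26584, [nat_lit 2378400000, nat_lit 2909733334, nat_lit 3539066666], [], [nat_lit 16196803853, nat_lit 16971636433, nat_lit 15820440128, nat_lit 16570248104, nat_lit 19021934004, nat_lit 19791351947, nat_lit 18391472784, nat_lit 19111650628], nat_lit 1271250, nat_lit 1271250, nat_lit 279600, nat_lit 490000, nat_lit 1271250, nat_lit 1271250, [nat_lit 780000, nat_lit 1435000, nat_lit 1271250], [nat_lit 8, nat_lit 40, nat_lit 40, nat_lit 80, nat_lit 1, nat_lit 317, nat_lit 100, nat_lit 9]⟩, C1.Rw.none,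
 ⟨nat_lit 5244, nat_lit 5478, ⟨.ofNat (nat_lit 279324), .ofNat (nat_lit 339271), .ofNat (nat_lit 300681), .ofNat (nat_lit 360628), .ofNat (nat_lit 286104), .ofNat (nat_lit 344641), .ofNat (nat_lit 307490), .ofNat (nat_lit 366027)⟩, ⟨.ofNat (nat_lit 425432), .ofNat (nat_lit 500365), .ofNat (nat_lit 446789), .ofNat (nat_lit 521722), .ofNat (nat_lit 423472), .ofNat (nat_lit 496643), .ofNat (nat_lit 444857), .ofNat (nat_lit 518028)⟩⟩, [⟨nat_lit 0, nat_lit 100, nat_lit 97, nat_lit 84, nat_lit 213407717⟩, ⟨nat_lit 4, nat_lit 100, nat_lit 99, nat_lit 83, nat_lit 317725675⟩]⟩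
noncomputable def p060_l16 : Lf2 := ⟨nat_lit 0, nat_lit 14, [nat_lit 119, nat_lit 5, nat_lit 5, nat_lit 20], true, nat_lit 240, nat_lit 280, nat_lit 0, nat_lit 320, ⟨nat_lit 0, nat_lit 1000, nat_lit 0, nat_lit 6, nat_lit 134, nat_lit 1000, nat_lit 188, nat_lit 0, nat_lit 0, nat_lit 0, nat_lit 0, nat_lit 0, nat_lit 48150491, nat_lit 6984762, nat_lit 11864747, nat_lit 4171544, false, false⟩,
 nat_lit 0, nat_lit 6501, nat_lit 0, nat_lit 3625, nat_lit 4317, nat_lit 0, nat_lit 0, nat_lit 0, nat_lit 0, nat_lit 0, nat_lit 0, nat_lit 0, nat_lit 0, nat_lit 0, nat_lit 0, nat_lit 250000, nat_lit 0, nat_lit 0, [(nat_lit 13, [(nat_lit 0, nat_lit 1000)])],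
 ⟨p060_k10, nat_lit 0, nat_lit 0, nat_lit 100, nat_lit 0, nat_lit 50978, [nat_lit 2378400000, nat_lit 2909733334, nat_lit 3539066666], [], [nat_lit 16904042893, nat_lit 17285195565, nat_lit 16613464076, nat_lit 16986062048, nat_lit 19586194665, nat_lit 19966076450, nat_lit 19098866457, nat_lit 19459984347], nat_lit 1271250, nat_lit 1271250, nat_lit 330400, nat_lit 490000, nat_lit 1271250, nat_lit 1271250, [nat_lit 780000, nat_lit 1435000, nat_lit 1271250], [nat_lit 8, nat_lit 40, nat_lit 40, nat_lit 80, nat_lit 1, nat_lit 317, nat_lit 100, nat_lit 8]⟩, C1.Rw.none,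
 ⟨nat_lit 5123, nat_lit 5245, ⟨.ofNat (nat_lit 300739), .ofNat (nat_lit 344641), .ofNat (nat_lit 322124), .ofNat (nat_lit 366027), .ofNat (nat_lit 303942), .ofNat (nat_lit 347320), .ofNat (nat_lit 325347), .ofNat (nat_lit 368725)⟩, ⟨.ofNat (nat_lit 423472), .ofNat (nat_lit 496643), .ofNat (nat_lit 444857), .ofNat (nat_lit 518028), .ofNat (nat_lit 422461), .ofNat (nat_lit 494759), .ofNat (nat_lit 443866), .ofNat (nat_lit 516164)⟩⟩, [⟨nat_lit 0, nat_lit 100, nat_lit 96, nat_lit 86, nat_lit 214730499⟩, ⟨nat_lit 4, nat_lit 100, nat_lit 96, nat_lit 82, nat_lit 329942874⟩]⟩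
noncomputable def p060_l17 : Lf2 := ⟨nat_lit 0, nat_lit 14, [nat_lit 119, nat_lit 5, nat_lit 5, nat_lit 20], true, nat_lit 240, nat_lit 280, nat_lit 0, nat_lit 320, ⟨nat_lit 0, nat_lit 1000, nat_lit 0, nat_lit 6, nat_lit 134, nat_lit 1000, nat_lit 187, nat_lit 0, nat_lit 0, nat_lit 0, nat_lit 0, nat_lit 0, nat_lit 48167458, nat_lit 7024055, nat_lit 11808487, nat_lit 4171597, false, false⟩,
 nat_lit 0, nat_lit 6320, nat_lit 0, nat_lit 4317, nat_lit 4285, nat_lit 0, nat_lit 0, nat_lit 0, nat_lit 0, nat_lit 0, nat_lit 0, nat_lit 0, nat_lit 0, nat_lit 0, nat_lit 0, nat_lit 250000, nat_lit 0, nat_lit 0, [(nat_lit 13, [(nat_lit 0, nat_lit 1000)])],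
 ⟨p060_k11, nat_lit 0, nat_lit 0, nat_lit 94, nat_lit 0, nat_lit 33286, [nat_lit 2378400000, nat_lit 2909733334, nat_lit 3539066666], [], [nat_lit 17256295690, nat_lit 17634538930, nat_lit 17011731040, nat_lit 17382882100, nat_lit 19859334654, nat_lit 20236522755, nat_lit 19453083063, nat_lit 19814453260], nat_lit 1271250, nat_lit 1271250, nat_lit 356250, nat_lit 490000, nat_lit 1271250, nat_lit 1271250, [nat_lit 780000, nat_lit 1435000, nat_lit 1271250], [nat_lit 8, nat_lit 40, nat_lit 40, nat_lit 80, nat_lit 1, nat_lit 317, nat_lit 100, nat_lit 8]⟩, C1.Rw.none,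
 ⟨nat_lit 5000, nat_lit 5124, ⟨.ofNat (nat_lit 311172), .ofNat (nat_lit 347320), .ofNat (nat_lit 321874), .ofNat (nat_lit 358023), .ofNat (nat_lit 314284), .ofNat (nat_lit 349998), .ofNat (nat_lit 324998), .ofNat (nat_lit 360712)⟩, ⟨.ofNat (nat_lit 422461), .ofNat (nat_lit 494759), .ofNat (nat_lit 443866), .ofNat (nat_lit 516164), .ofNat (nat_lit 421427), .ofNat (nat_lit 492856), .ofNat (nat_lit 442856), .ofNat (nat_lit 514284)⟩⟩, [⟨nat_lit 0, nat_lit 100, nat_lit 92, nat_lit 82, nat_lit 222332531⟩, ⟨nat_lit 4, nat_lit 100, nat_lit 93, nat_lit 81, nat_lit 343057333⟩]⟩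
noncomputable def p060_l18 : Lf2 := ⟨nat_lit 0, nat_lit 14, [nat_lit 119, nat_lit 5, nat_lit 5, nat_lit 20], true, nat_lit 240, nat_lit 280, nat_lit 0, nat_lit 308, ⟨nat_lit 0, nat_lit 1000, nat_lit 0, nat_lit 6, nat_lit 142, nat_lit 1000, nat_lit 187, nat_lit 0, nat_lit 0, nat_lit 0, nat_lit 0, nat_lit 0, nat_lit 47660299, nat_lit 7580278, nat_lit 11759423, nat_lit 4254399, false, false⟩,
 nat_lit 0, nat_lit 6332, nat_lit 0, nat_lit 3005, nat_lit 4294, nat_lit 0, nat_lit 0, nat_lit 0, nat_lit 0, nat_lit 0, nat_lit 0, nat_lit 0, nat_lit 0, nat_lit 0, nat_lit 0, nat_lit 250000, nat_lit 0, nat_lit 0, [(nat_lit 13, [(nat_lit 0, nat_lit 1000)])],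
 ⟨p060_k12, nat_lit 0, nat_lit 0, nat_lit 107, nat_lit 0, nat_lit 75262, [nat_lit 2378400000, nat_lit 3241200000, nat_lit 3504400000], [], [nat_lit 17152045792, nat_lit 17527865304, nat_lit 17004511636, nat_lit 17376069640, nat_lit 19698618432, nat_lit 20073739179, nat_lit 19448243875, nat_lit 19819504384], nat_lit 1271250, nat_lit 1271250, nat_lit 408851, nat_lit 490000, nat_lit 1271250, nat_lit 1271250, [nat_lit 780000, nat_lit 1762500, nat_lit 1271250], [nat_lit 99, nat_lit 40, nat_lit 40, nat_lit 80, nat_lit 17, nat_lit 317, nat_lit 100, nat_lit 8]⟩, C1.Rw.none,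
 ⟨nat_lit 5000, nat_lit 5124, ⟨.ofNat (nat_lit 336333), .ofNat (nat_lit 358023), .ofNat (nat_lit 347036), .ofNat (nat_lit 368725), .ofNat (nat_lit 339284), .ofNat (nat_lit 360712), .ofNat (nat_lit 349998), .ofNat (nat_lit 371427)⟩, ⟨.ofNat (nat_lit 422461), .ofNat (nat_lit 494759), .ofNat (nat_lit 443866), .ofNat (nat_lit 516164), .ofNat (nat_lit 421427), .ofNat (nat_lit 492856), .ofNat (nat_lit 442856), .ofNat (nat_lit 514284)⟩⟩, [⟨nat_lit 0, nat_lit 100, nat_lit 94, nat_lit 84, nat_lit 224701158⟩, ⟨nat_lit 4, nat_lit 100, nat_lit 93, nat_lit 81, nat_lit 345676742⟩]⟩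
noncomputable def p060_l19 : Lf2 := ⟨nat_lit 0, nat_lit 14, [nat_lit 119, nat_lit 5, nat_lit 5, nat_lit 20], false, nat_lit 240, nat_lit 280, nat_lit 0, nat_lit 336, ⟨nat_lit 0, nat_lit 1000, nat_lit 0, nat_lit 6, nat_lit 152, nat_lit 1000, nat_lit 188, nat_lit 0, nat_lit 0, nat_lit 0, nat_lit 0, nat_lit 0, nat_lit 46804160, nat_lit 8442469, nat_lit 11753371, nat_lit 4382517, false, false⟩,
 nat_lit 0, nat_lit 6751, nat_lit 0, nat_lit 1534, nat_lit 4296, nat_lit 0, nat_lit 0, nat_lit 0, nat_lit 0, nat_lit 0, nat_lit 0, nat_lit 0, nat_lit 0, nat_lit 0, nat_lit 0, nat_lit 250000, nat_lit 0, nat_lit 0, [(nat_lit 13, [(nat_lit 0, nat_lit 1000)])],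
 ⟨p060_k9, nat_lit 0, nat_lit 0, nat_lit 96, nat_lit 0, nat_lit 81411, [nat_lit 2378400000, nat_lit 2909733334, nat_lit 3539066666], [], [nat_lit 15887962016, nat_lit 17374555760, nat_lit 16135086464, nat_lit 17549670384, nat_lit 18438586848, nat_lit 19820626856, nat_lit 18566007264, nat_lit 19847627864], nat_lit 1271250, nat_lit 1271250, nat_lit 490000, nat_lit 780000, nat_lit 1271250, nat_lit 1271250, [nat_lit 780000, nat_lit 1435000, nat_lit 1271250], [nat_lit 8, nat_lit 40, nat_lit 40, nat_lit 80, nat_lit 1, nat_lit 317, nat_lit 100, nat_lit 8]⟩, ⟨p060_k13, nat_lit 0, nat_lit 0, nat_lit 344, nat_lit 0, nat_lit 102656, [nat_lit 0, nat_lit 0, nat_lit 0], [], [nat_lit 0, nat_lit 0, nat_lit 0, nat_lit 0, nat_lit 0, nat_lit 0, nat_lit 0, nat_lit 0], nat_lit 1271250, nat_lit 1271250, nat_lit 490000, nat_lit 780000, nat_lit 0, nat_lit 2373000, [nat_lit 1100000, nat_lit 1785000, nat_lit 1271250], [nat_lit 21,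 nat_lit 40, nat_lit 40, nat_lit 80, nat_lit 14, nat_lit 428, nat_lit 200, nat_lit 11]⟩,
 ⟨nat_lit 5000, nat_lit 5478, ⟨.ofNat (nat_lit 317913), .ofNat (nat_lit 392847), .ofNat (nat_lit 360625), .ofNat (nat_lit 435548), .ofNat (nat_lit 328570), .ofNat (nat_lit 399998), .ofNat (nat_lit 371424), .ofNat (nat_lit 442843)⟩, ⟨.ofNat (nat_lit 425432), .ofNat (nat_lit 500365), .ofNat (nat_lit 446789), .ofNat (nat_lit 521722), .ofNat (nat_lit 421427), .ofNat (nat_lit 492856), .ofNat (nat_lit 442856), .ofNat (nat_lit 514284)⟩⟩, [⟨nat_lit 4, nat_lit 100, nat_lit 97, nat_lit 82, nat_lit 327467585⟩]⟩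
noncomputable def p060_l20 : Lf2 := ⟨nat_lit 0, nat_lit 14, [nat_lit 119, nat_lit 5, nat_lit 5, nat_lit 20], true, nat_lit 280, nat_lit 300, nat_lit 0, nat_lit 336, ⟨nat_lit 0, nat_lit 0, nat_lit 1000, nat_lit 6, nat_lit 136, nat_lit 1000, nat_lit 210, nat_lit 1000, nat_lit 3701, nat_lit 228, nat_lit 173400, nat_lit 317, nat_lit 46044168, nat_lit 0, nat_lit 0, nat_lit 4394673, false, false⟩,
 nat_lit 0, nat_lit 5426, nat_lit 0, nat_lit 100000, nat_lit 3452, nat_lit 0, nat_lit 0, nat_lit 0, nat_lit 0, nat_lit 0, nat_lit 0, nat_lit 0, nat_lit 0, nat_lit 0, nat_lit 103, nat_lit 443200, nat_lit 0, nat_lit 0, [(nat_lit 13, [(nat_lit 5, nat_lit 928), (nat_lit 6, nat_lit 72)])],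
 ⟨p060_k9, nat_lit 0, nat_lit 0, nat_lit 193, nat_lit 0, nat_lit 143522, [nat_lit 2478576000, nat_lit 1479576534, nat_lit 73360000], [], [nat_lit 19114771832, nat_lit 20058348802, nat_lit 18722335400, nat_lit 19554020888, nat_lit 20006274447, nat_lit 21291418098, nat_lit 19506425008, nat_lit 20619206166], nat_lit 1271250, nat_lit 1271250, nat_lit 205650, nat_lit 780000, nat_lit 1271250, nat_lit 1271250, [nat_lit 780000, nat_lit 1435000, nat_lit 1271250], [nat_lit 8, nat_lit 40, nat_lit 40, nat_lit 80, nat_lit 1, nat_lit 238, nat_lit 30, nat_lit 6]⟩, C1.Rw.none,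
 ⟨nat_lit 5000, nat_lit 5478, ⟨.ofNat (nat_lit 235487), .ofNat (nat_lit 392847), .ofNat (nat_lit 278201), .ofNat (nat_lit 435548), .ofNat (nat_lit 249999), .ofNat (nat_lit 399998), .ofNat (nat_lit 292856), .ofNat (nat_lit 442843)⟩, ⟨.ofNat (nat_lit 500365), .ofNat (nat_lit 537832), .ofNat (nat_lit 521722), .ofNat (nat_lit 559189), .ofNat (nat_lit 492856), .ofNat (nat_lit 528570), .ofNat (nat_lit 514284), .ofNat (nat_lit 549998)⟩⟩, [⟨nat_lit 0, nat_lit 100, nat_lit 94, nat_lit 88, nat_lit 138981422⟩, ⟨nat_lit 4, nat_lit 100, nat_lit 97, nat_lit 82, nat_lit 4980783405⟩]⟩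
noncomputable def p060_l21 : Lf2 := ⟨nat_lit 0, nat_lit 14, [nat_lit 119, nat_lit 5, nat_lit 5, nat_lit 20], false, nat_lit 240, nat_lit 300, nat_lit 0, nat_lit 336, ⟨nat_lit 338, nat_lit 662, nat_lit 0, nat_lit 6, nat_lit 182, nat_lit 662, nat_lit 196, nat_lit 0, nat_lit 0, nat_lit 0, nat_lit 0, nat_lit 0, nat_lit 44090284, nat_lit 10790589, nat_lit 12119127, nat_lit 4728810, false, false⟩,
 nat_lit 6201, nat_lit 1534, nat_lit 0, nat_lit 5466, nat_lit 4922, nat_lit 3282, nat_lit 0, nat_lit 0, nat_lit 0, nat_lit 196, nat_lit 0, nat_lit 0, nat_lit 0, nat_lit 0, nat_lit 0, nat_lit 165500, nat_lit 0, nat_lit 0, [(nat_lit 13, [(nat_lit 0, nat_lit 662)])],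
 ⟨p060_k9, nat_lit 0, nat_lit 0, nat_lit 76, nat_lit 0, nat_lit 81411, [nat_lit 2683816800, nat_lit 4038743467, nat_lit 5646508800], [], [nat_lit 15757652448, nat_lit 17277886388, nat_lit 16500265888, nat_lit 17928438704, nat_lit 19893246584, nat_lit 21329540301, nat_lit 20367406252, nat_lit 21720001412], nat_lit 1271250, nat_lit 1271250, nat_lit 780000, nat_lit 1100001, nat_lit 1271250, nat_lit 1271250, [nat_lit 780000, nat_lit 1435000, nat_lit 1271250], [nat_lit 8, nat_lit 40, nat_lit 40, nat_lit 80, nat_lit 1, nat_lit 345, nat_lit 125, nat_lit 9]⟩, ⟨p060_k13, nat_lit 0, nat_lit 0, nat_lit 322, nat_lit 0, nat_lit 102656, [nat_lit 1584544000, nat_lit 2693184000, nat_lit 4012736000], [], [nat_lit 18454795968, nat_lit 14930334936, nat_lit 14930334936, nat_lit 11459698704, nat_lit 12289100386, nat_lit 10634553282, nat_lit 13965530468, nat_lit 11046070690], nat_lit 1271250, nat_lit 1271250, nat_lit 780000, nat_lit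 1100001, nat_lit 0, nat_lit 2373000, [nat_lit 1100000, nat_lit 1785000, nat_lit 1271250], [nat_lit 21, nat_lit 40, nat_lit 40, nat_lit 80, nat_lit 14, nat_lit 428, nat_lit 200, nat_lit 11]⟩,
 ⟨nat_lit 5000, nat_lit 5478, ⟨.ofNat (nat_lit 392847), .ofNat (nat_lit 467773), .ofNat (nat_lit 435548), .ofNat (nat_lit 510468), .ofNat (nat_lit 399998), .ofNat (nat_lit 471421), .ofNat (nat_lit 442843), .ofNat (nat_lit 514258)⟩, ⟨.ofNat (nat_lit 425432), .ofNat (nat_lit 537832), .ofNat (nat_lit 446789), .ofNat (nat_lit 559189), .ofNat (nat_lit 421427), .ofNat (nat_lit 528570), .ofNat (nat_lit 442856), .ofNat (nat_lit 549998)⟩⟩, [⟨nat_lit 4, nat_lit 100, nat_lit 97, nat_lit 82, nat_lit 495689341⟩]⟩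
noncomputable def p060_l22 : Lf2 := ⟨nat_lit 1, nat_lit 20, [nat_lit 5, nat_lit 5, nat_lit 5, nat_lit 20], false, nat_lit 240, nat_lit 300, nat_lit 0, nat_lit 336, zbN0,
 nat_lit 0, nat_lit 0, nat_lit 0, nat_lit 0, nat_lit 0, nat_lit 0, nat_lit 0, nat_lit 0, nat_lit 0, nat_lit 0, nat_lit 0, nat_lit 0, nat_lit 0, nat_lit 0, nat_lit 0, nat_lit 0, nat_lit 0, nat_lit 0, [],
 C1.Rw.none, C1.Rw.none,
 zbF0, []⟩
noncomputable def p060_l23 : Lf2 := ⟨nat_lit 0, nat_lit 20, [nat_lit 5, nat_lit 5, nat_lit 5, nat_lit 20], true, nat_lit 240, nat_lit 280, nat_lit 0, nat_lit 336, ⟨nat_lit 0, nat_lit 0, nat_lit 1000, nat_lit 6, nat_lit 131, nat_lit 1000, nat_lit 186, nat_lit 1000, nat_lit 24746, nat_lit 252, nat_lit 160067, nat_lit 313, nat_lit 48539842, nat_lit 0, nat_lit 0, nat_lit 4116209, false, false⟩,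
 nat_lit 0, nat_lit 5088, nat_lit 0, nat_lit 2280, nat_lit 3522, nat_lit 0, nat_lit 0, nat_lit 0, nat_lit 0, nat_lit 0, nat_lit 0, nat_lit 0, nat_lit 0, nat_lit 0, nat_lit 109, nat_lit 400000, nat_lit 0, nat_lit 0, [(nat_lit 16, [(nat_lit 5, nat_lit 1000)])],
 ⟨p060_k14, nat_lit 0, nat_lit 0, nat_lit 199, nat_lit 0, nat_lit 183030, [nat_lit 2630400000, nat_lit 1212800000, nat_lit 149600000], [], [nat_lit 18048328416, nat_lit 19079513901, nat_lit 17811902688, nat_lit 18737994432, nat_lit 19837027719, nat_lit 21220415505, nat_lit 19386817056, nat_lit 20734767952], nat_lit 1271250, nat_lit 1271250, nat_lit 279600, nat_lit 490000, nat_lit 1271250, nat_lit 1271250, [nat_lit 780000, nat_lit 1435000, nat_lit 1271250], [nat_lit 8, nat_lit 40, nat_lit 40, nat_lit 80, nat_lit 1, nat_lit 317, nat_lit 100, nat_lit 8]⟩, C1.Rw.none,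
 ⟨nat_lit 4472, nat_lit 5000, ⟨.ofNat (nat_lit 271418), .ofNat (nat_lit 328559), .ofNat (nat_lit 314253), .ofNat (nat_lit 371392), .ofNat (nat_lit 284805), .ofNat (nat_lit 339186), .ofNat (nat_lit 327916), .ofNat (nat_lit 382295)⟩, ⟨.ofNat (nat_lit 421427), .ofNat (nat_lit 492856), .ofNat (nat_lit 442856), .ofNat (nat_lit 514284), .ofNat (nat_lit 417011), .ofNat (nat_lit 484989), .ofNat (nat_lit 438578), .ofNat (nat_lit 506556)⟩⟩, [⟨nat_lit 0, nat_lit 100, nat_lit 88, nat_lit 81, nat_lit 681816242⟩, ⟨nat_lit 16, nat_lit 94, nat_lit 100, nat_lit 87, nat_lit 149049058⟩, ⟨nat_lit 4, nat_lit 100, nat_lit 87, nat_lit 79, nat_lit 113122100⟩]⟩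
noncomputable def p060_l24 : Lf2 := ⟨nat_lit 0, nat_lit 20, [nat_lit 5, nat_lit 5, nat_lit 5, nat_lit 20], false, nat_lit 240, nat_lit 280, nat_lit 0, nat_lit 336, ⟨nat_lit 0, nat_lit 0, nat_lit 1000, nat_lit 6, nat_lit 155, nat_lit 1000, nat_lit 187, nat_lit 1000, nat_lit 24746, nat_lit 252, nat_lit 224267, nat_lit 331, nat_lit 46752175, nat_lit 0, nat_lit 0, nat_lit 4395156, false, false⟩,
 nat_lit 0, nat_lit 5395, nat_lit 0, nat_lit 1768, nat_lit 3735, nat_lit 0, nat_lit 0, nat_lit 0, nat_lit 0, nat_lit 0, nat_lit 0, nat_lit 0, nat_lit 0, nat_lit 0, nat_lit 105, nat_lit 383650, nat_lit 0, nat_lit 0, [(nat_lit 16, [(nat_lit 4, nat_lit 109), (nat_lit 5, nat_lit 891)])],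
 ⟨p060_k14, nat_lit 0, nat_lit 0, nat_lit 154, nat_lit 0, nat_lit 126251, [nat_lit 2700904800, nat_lit 1176574400, nat_lit 168792400], [], [nat_lit 17748685920, nat_lit 18262572240, nat_lit 17851645060, nat_lit 18299673180, nat_lit 19505773460, nat_lit 20198954610, nat_lit 19568454665, nat_lit 20230861038], nat_lit 1271250, nat_lit 1271250, nat_lit 490000, nat_lit 780000, nat_lit 1271250, nat_lit 1271250, [nat_lit 780000, nat_lit 1435000, nat_lit 1271250], [nat_lit 8, nat_lit 40, nat_lit 40, nat_lit 80, nat_lit 1, nat_lit 317, nat_lit 100, nat_lit 8]⟩, ⟨p060_k15, nat_lit 0, nat_lit 0, nat_lit 438, nat_lit 0, nat_lit 177846, [nat_lit 0, nat_lit 0, nat_lit 0], [], [nat_lit 0, nat_lit 0, nat_lit 0, nat_lit 0, nat_lit 0, nat_lit 0, nat_lit 0, nat_lit 0], nat_lit 1271250, nat_lit 1271250, nat_lit 490000, nat_lit 780000, nat_lit 0, nat_lit 2373000, [nat_lit 1100000, nat_lit 1785000, nat_lit 1271250], [nat_lit 37,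 nat_lit 40, nat_lit 40, nat_lit 80, nat_lit 28, nat_lit 428, nat_lit 200, nat_lit 10]⟩,
 ⟨nat_lit 4743, nat_lit 5000, ⟨.ofNat (nat_lit 328569), .ofNat (nat_lit 399997), .ofNat (nat_lit 371422), .ofNat (nat_lit 442849), .ofNat (nat_lit 333875), .ofNat (nat_lit 403574), .ofNat (nat_lit 376847), .ofNat (nat_lit 446544)⟩, ⟨.ofNat (nat_lit 421427), .ofNat (nat_lit 492856), .ofNat (nat_lit 442856), .ofNat (nat_lit 514284), .ofNat (nat_lit 419281), .ofNat (nat_lit 488981), .ofNat (nat_lit 440769), .ofNat (nat_lit 510469)⟩⟩, [⟨nat_lit 0, nat_lit 100, nat_lit 91, nat_lit 91, nat_lit 100091177⟩, ⟨nat_lit 4, nat_lit 100, nat_lit 89, nat_lit 80, nat_lit 311753654⟩]⟩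
noncomputable def p060_l25 : Lf2 := ⟨nat_lit 0, nat_lit 20, [nat_lit 5, nat_lit 5, nat_lit 5, nat_lit 20], false, nat_lit 240, nat_lit 268, nat_lit 0, nat_lit 336, ⟨nat_lit 0, nat_lit 0, nat_lit 1000, nat_lit 6, nat_lit 157, nat_lit 1000, nat_lit 181, nat_lit 1000, nat_lit 50560, nat_lit 270, nat_lit 232067, nat_lit 333, nat_lit 47057590, nat_lit 0, nat_lit 0, nat_lit 4364195, false, false⟩,
 nat_lit 0, nat_lit 5917, nat_lit 0, nat_lit 0, nat_lit 4265, nat_lit 0, nat_lit 0, nat_lit 0, nat_lit 0, nat_lit 0, nat_lit 0, nat_lit 0, nat_lit 0, nat_lit 0, nat_lit 87, nat_lit 312250, nat_lit 0, nat_lit 0, [(nat_lit 16, [(nat_lit 4, nat_lit 585), (nat_lit 5, nat_lit 415)])],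
 ⟨p060_k16, nat_lit 0, nat_lit 0, nat_lit 171, nat_lit 0, nat_lit 174039, [nat_lit 3002412000, nat_lit 1007736001, nat_lit 237706000], [], [nat_lit 18575120160, nat_lit 19118639840, nat_lit 18536464770, nat_lit 19024749360, nat_lit 19777035206, nat_lit 20541875926, nat_lit 19725129275, nat_lit 20454698273], nat_lit 1271250, nat_lit 1271250, nat_lit 490000, nat_lit 780000, nat_lit 1271250, nat_lit 1271250, [nat_lit 780000, nat_lit 1435000, nat_lit 1271250], [nat_lit 8, nat_lit 40, nat_lit 40, nat_lit 80, nat_lit 1, nat_lit 317, nat_lit 100, nat_lit 8]⟩, ⟨p060_k15, nat_lit 0, nat_lit 0, nat_lit 467, nat_lit 0, nat_lit 257829, [nat_lit 0, nat_lit 0, nat_lit 0], [], [nat_lit 0, nat_lit 0, nat_lit 0, nat_lit 0, nat_lit 0, nat_lit 0, nat_lit 0, nat_lit 0], nat_lit 1271250, nat_lit 1271250, nat_lit 490000, nat_lit 780000, nat_lit 0, nat_lit 2373000, [nat_lit 1100000, nat_lit 1785000, nat_lit 1271250], [nat_lit 37,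 nat_lit 40, nat_lit 40, nat_lit 80, nat_lit 28, nat_lit 428, nat_lit 200, nat_lit 10]⟩,
 ⟨nat_lit 4472, nat_lit 4744, ⟨.ofNat (nat_lit 333872), .ofNat (nat_lit 403571), .ofNat (nat_lit 376841), .ofNat (nat_lit 446540), .ofNat (nat_lit 339193), .ofNat (nat_lit 407171), .ofNat (nat_lit 382319), .ofNat (nat_lit 450297)⟩, ⟨.ofNat (nat_lit 419281), .ofNat (nat_lit 468071), .ofNat (nat_lit 440769), .ofNat (nat_lit 489559), .ofNat (nat_lit 417011), .ofNat (nat_lit 464596), .ofNat (nat_lit 438578), .ofNat (nat_lit 486162)⟩⟩, [⟨nat_lit 0, nat_lit 100, nat_lit 87, nat_lit 95, nat_lit 119780721⟩, ⟨nat_lit 16, nat_lit 89, nat_lit 100, nat_lit 85, nat_lit 247053992⟩, ⟨nat_lit 4, nat_lit 100, nat_lit 84, nat_lit 78, nat_lit 67241508⟩]⟩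
noncomputable def p060_l26 : Lf2 := ⟨nat_lit 0, nat_lit 20, [nat_lit 5, nat_lit 5, nat_lit 5, nat_lit 20], false, nat_lit 240, nat_lit 280, nat_lit 0, nat_lit 336, ⟨nat_lit 272, nat_lit 728, nat_lit 0, nat_lit 6, nat_lit 183, nat_lit 728, nat_lit 187, nat_lit 0, nat_lit 0, nat_lit 0, nat_lit 0, nat_lit 0, nat_lit 44658985, nat_lit 11020939, nat_lit 11320076, nat_lit 4667659, false, false⟩,
 nat_lit 4541, nat_lit 2036, nat_lit 0, nat_lit 2370, nat_lit 4553, nat_lit 2404, nat_lit 0, nat_lit 0, nat_lit 0, nat_lit 289, nat_lit 0, nat_lit 0, nat_lit 0, nat_lit 0, nat_lit 0, nat_lit 182000, nat_lit 0, nat_lit 0, [(nat_lit 16, [(nat_lit 0, nat_lit 728)])],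
 ⟨p060_k14, nat_lit 0, nat_lit 0, nat_lit 82, nat_lit 0, nat_lit 126251, [nat_lit 2592729600, nat_lit 3698893867, nat_lit 5140284800], [], [nat_lit 17527034162, nat_lit 18256013067, nat_lit 18201468896, nat_lit 18887044888, nat_lit 19886705052, nat_lit 20581801443, nat_lit 20423853067, nat_lit 21046393016], nat_lit 1271250, nat_lit 1271250, nat_lit 780000, nat_lit 1100001, nat_lit 1271250, nat_lit 1271250, [nat_lit 780000, nat_lit 1435000, nat_lit 1271250], [nat_lit 8, nat_lit 40, nat_lit 40, nat_lit 80, nat_lit 1, nat_lit 345, nat_lit 125, nat_lit 9]⟩, ⟨p060_k15, nat_lit 0, nat_lit 0, nat_lit 417, nat_lit 0, nat_lit 177846, [nat_lit 1275136000, nat_lit 2167296000, nat_lit 3823776000], [], [nat_lit 14235184528, nat_lit 11653586624, nat_lit 11653586624, nat_lit 9111414320, nat_lit 10052657076, nat_lit 8187400027, nat_lit 11311868775, nat_lit 9173422308], nat_lit 1271250, nat_lit 1271250, nat_lit 780000, nat_lit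 1100001, nat_lit 0, nat_lit 2373000, [nat_lit 1100000, nat_lit 1785000, nat_lit 1271250], [nat_lit 37, nat_lit 40, nat_lit 40, nat_lit 80, nat_lit 28, nat_lit 428, nat_lit 200, nat_lit 10]⟩,
 ⟨nat_lit 4743, nat_lit 5000, ⟨.ofNat (nat_lit 399997), .ofNat (nat_lit 471424), .ofNat (nat_lit 442849), .ofNat (nat_lit 514275), .ofNat (nat_lit 403574), .ofNat (nat_lit 473272), .ofNat (nat_lit 446544), .ofNat (nat_lit 516242)⟩, ⟨.ofNat (nat_lit 421427), .ofNat (nat_lit 492856), .ofNat (nat_lit 442856), .ofNat (nat_lit 514284), .ofNat (nat_lit 419281), .ofNat (nat_lit 488981), .ofNat (nat_lit 440769), .ofNat (nat_lit 510469)⟩⟩, [⟨nat_lit 16, nat_lit 89, nat_lit 100, nat_lit 80, nat_lit 306595421⟩, ⟨nat_lit 16, nat_lit 94, nat_lit 100, nat_lit 87, nat_lit 141511966⟩]⟩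
noncomputable def p060_l27 : Lf2 := ⟨nat_lit 0, nat_lit 20, [nat_lit 5, nat_lit 5, nat_lit 5, nat_lit 20], false, nat_lit 240, nat_lit 268, nat_lit 0, nat_lit 336, ⟨nat_lit 4, nat_lit 0, nat_lit 996, nat_lit 6, nat_lit 185, nat_lit 996, nat_lit 181, nat_lit 996, nat_lit 50560, nat_lit 270, nat_lit 19267, nat_lit 249, nat_lit 44978833, nat_lit 0, nat_lit 0, nat_lit 4630544, false, false⟩,
 nat_lit 70, nat_lit 5848, nat_lit 0, nat_lit 0, nat_lit 4266, nat_lit 37, nat_lit 0, nat_lit 0, nat_lit 0, nat_lit 3, nat_lit 0, nat_lit 0, nat_lit 0, nat_lit 0, nat_lit 85, nat_lit 308700, nat_lit 0, nat_lit 0, [(nat_lit 16, [(nat_lit 4, nat_lit 598), (nat_lit 5, nat_lit 398)])],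
 ⟨p060_k16, nat_lit 0, nat_lit 0, nat_lit 153, nat_lit 0, nat_lit 174039, [nat_lit 3000384000, nat_lit 1001825600, nat_lit 248330400], [], [nat_lit 18623456988, nat_lit 19091511760, nat_lit 18978011346, nat_lit 19535702544, nat_lit 19725480014, nat_lit 20455136342, nat_lit 20268625056, nat_lit 20949639017], nat_lit 1271250, nat_lit 1271250, nat_lit 780000, nat_lit 1100001, nat_lit 1271250, nat_lit 1271250, [nat_lit 780000, nat_lit 1435000, nat_lit 1271250], [nat_lit 8, nat_lit 40, nat_lit 40, nat_lit 80, nat_lit 1, nat_lit 345, nat_lit 125, nat_lit 9]⟩, ⟨p060_k15, nat_lit 0, nat_lit 0, nat_lit 446, nat_lit 0, nat_lit 257829, [nat_lit 18752000, nat_lit 31872000, nat_lit 56232000], [], [nat_lit 213619540, nat_lit 173886128, nat_lit 173886128, nat_lit 142285780, nat_lit 146699642, nat_lit 131292639, nat_lit 165841652, nat_lit 132928790], nat_lit 1271250, nat_lit 1271250, nat_lit 780000, nat_lit 1100001, nat_lit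 0, nat_lit 2373000, [nat_lit 1100000, nat_lit 1785000, nat_lit 1271250], [nat_lit 37, nat_lit 40, nat_lit 40, nat_lit 80, nat_lit 28, nat_lit 428, nat_lit 200, nat_lit 10]⟩,
 ⟨nat_lit 4472, nat_lit 4744, ⟨.ofNat (nat_lit 403571), .ofNat (nat_lit 473270), .ofNat (nat_lit 446540), .ofNat (nat_lit 516239), .ofNat (nat_lit 407171), .ofNat (nat_lit 475149), .ofNat (nat_lit 450297), .ofNat (nat_lit 518274)⟩, ⟨.ofNat (nat_lit 419281), .ofNat (nat_lit 468071), .ofNat (nat_lit 440769), .ofNat (nat_lit 489559), .ofNat (nat_lit 417011), .ofNat (nat_lit 464596), .ofNat (nat_lit 438578), .ofNat (nat_lit 486162)⟩⟩, [⟨nat_lit 16, nat_lit 89, nat_lit 100, nat_lit 85, nat_lit 334327209⟩]⟩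
noncomputable def b_V_700_600_10_45 : St := ⟨true, nat_lit 1, nat_lit 1, nat_lit 1, nat_lit 80, nat_lit 280, nat_lit 320, nat_lit 240, nat_lit 280, nat_lit 36, nat_lit 160, nat_lit 60, nat_lit 80, nat_lit 240, nat_lit 300, nat_lit 0, nat_lit 336, nat_lit 40, nat_lit 80, nat_lit 0, nat_lit 0, nat_lit 0, nat_lit 0⟩
theorem d_V_700_600_10_45 (h : EB TB.env) : Dead b_V_700_600_10_45 := chkB_sound0 h (T :=
(.spl (nat_lit 0) (nat_lit 300)
(.spl (nat_lit 6) (nat_lit 56)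
(.spl (nat_lit 2) (nat_lit 120)
(.spl (nat_lit 4) (nat_lit 280)
(.spl (nat_lit 2) (nat_lit 80)
(.spl (nat_lit 1) (nat_lit 260)
(.leaf p060_l14)
(.trZ (nat_lit 0) (nat_lit 100) (nat_lit 96) (nat_lit 69) (nat_lit 48) (.trX (nat_lit 19) (nat_lit 100) (nat_lit 85) (nat_lit 84) (nat_lit 320) (.spl (nat_lit 0) (nat_lit 290)
(.leaf p060_l15)
(.trZ (nat_lit 0) (nat_lit 100) (nat_lit 94) (nat_lit 73) (nat_lit 56) (.spl (nat_lit 0) (nat_lit 295)
(.leaf p060_l16)
(.trZ (nat_lit 0) (nat_lit 100) (nat_lit 92) (nat_lit 75) (nat_lit 60) (.spl (nat_lit 1) (nat_lit 270)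
(.leaf p060_l17)
(.trZ (nat_lit 0) (nat_lit 100) (nat_lit 94) (nat_lit 80) (nat_lit 68) (.trX (nat_lit 19) (nat_lit 100) (nat_lit 90) (nat_lit 85) (nat_lit 308) (.leaf p060_l18)))))))))))
(.leaf p060_l19))
(.leaf p060_l20))
(.leaf p060_l21))
(.leaf p060_l22))
(.trZ (nat_lit 0) (nat_lit 100) (nat_lit 88) (nat_lit 68) (nat_lit 48) (.trX (nat_lit 16) (nat_lit 94) (nat_lit 100) (nat_lit 87) (nat_lit 280) (.spl (nat_lit 2) (nat_lit 120)
(.spl (nat_lit 2) (nat_lit 80)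
(.leaf p060_l23)
(.spl (nat_lit 0) (nat_lit 310)
(.leaf p060_l24)
(.trX (nat_lit 16) (nat_lit 89) (nat_lit 100) (nat_lit 85) (nat_lit 268) (.leaf p060_l25))))
(.spl (nat_lit 0) (nat_lit 310)
(.leaf p060_l26)
(.trX (nat_lit 16) (nat_lit 89) (nat_lit 100) (nat_lit 85) (nat_lit 268) (.leaf p060_l27)))))))) (by decide +kernel)
noncomputable def p060_l28 : Lf2 := ⟨nat_lit 0, nat_lit 20, [nat_lit 5, nat_lit 5, nat_lit 5, nat_lit 20], false, nat_lit 160, nat_lit 300, nat_lit 0, nat_lit 160, ⟨nat_lit 1000, nat_lit 0, nat_lit 0, nat_lit 0, nat_lit 0, nat_lit 0, nat_lit 0, nat_lit 0, nat_lit 0, nat_lit 0, nat_lit 0, nat_lit 0, nat_lit 0, nat_lit 0, nat_lit 0, nat_lit 0, false, false⟩,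
 nat_lit 13248, nat_lit 6620, nat_lit 0, nat_lit 0, nat_lit 12643, nat_lit 7013, nat_lit 761, nat_lit 0, nat_lit 0, nat_lit 864, nat_lit 0, nat_lit 0, nat_lit 0, nat_lit 0, nat_lit 0, nat_lit 0, nat_lit 0, nat_lit 0, [],
 ⟨p060_k17, nat_lit 0, nat_lit 0, nat_lit 184, nat_lit 0, nat_lit 205498, [nat_lit 3282000000, nat_lit 6250000000, nat_lit 11872000000], [], [nat_lit 18977859544, nat_lit 19626939359, nat_lit 18343752779, nat_lit 20047740407, nat_lit 23338566747, nat_lit 24584357176, nat_lit 24767739042, nat_lit 25316640980], nat_lit 1271250, nat_lit 1271250, nat_lit 1100001, nat_lit 1442500, nat_lit 1100001, nat_lit 2298750, [nat_lit 780000, nat_lit 1435000, nat_lit 1271250], [nat_lit 23, nat_lit 40, nat_lit 40, nat_lit 80, nat_lit 12, nat_lit 428, nat_lit 200, nat_lit 10]⟩, ⟨p060_k15, nat_lit 0, nat_lit 0, nat_lit 432, nat_lit 0, nat_lit 260390, [nat_lit 4688000000, nat_lit 7968000000, nat_lit 14058000000],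 [], [nat_lit 40062701920, nat_lit 35628734408, nat_lit 34530889304, nat_lit 35956196736, nat_lit 29872193692, nat_lit 30942317044, nat_lit 32725960868, nat_lit 31109207988], nat_lit 1271250, nat_lit 1271250, nat_lit 1100001, nat_lit 1442500, nat_lit 0, nat_lit 1100001, [nat_lit 1100000, nat_lit 1785000, nat_lit 1271250], [nat_lit 37, nat_lit 40, nat_lit 40, nat_lit 80, nat_lit 28, nat_lit 401, nat_lit 175, nat_lit 9]⟩,
 zbF0, [⟨nat_lit 4, nat_lit 100, nat_lit 94, nat_lit 75, nat_lit 562663368⟩]⟩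
noncomputable def p060_l29 : Lf2 := ⟨nat_lit 0, nat_lit 20, [nat_lit 5, nat_lit 5, nat_lit 5, nat_lit 20], false, nat_lit 160, nat_lit 280, nat_lit 0, nat_lit 160, ⟨nat_lit 1000, nat_lit 0, nat_lit 0, nat_lit 0, nat_lit 0, nat_lit 0, nat_lit 0, nat_lit 0, nat_lit 0, nat_lit 0, nat_lit 0, nat_lit 0, nat_lit 0, nat_lit 0, nat_lit 0, nat_lit 0, false, false⟩,
 nat_lit 15828, nat_lit 0, nat_lit 0, nat_lit 0, nat_lit 10957, nat_lit 8379, nat_lit 530, nat_lit 0, nat_lit 0, nat_lit 743, nat_lit 0, nat_lit 0, nat_lit 0, nat_lit 0, nat_lit 0, nat_lit 0, nat_lit 0, nat_lit 0, [],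
 ⟨p060_k14, nat_lit 0, nat_lit 0, nat_lit 188, nat_lit 0, nat_lit 298582, [nat_lit 3282000000, nat_lit 6250000000, nat_lit 9842000000], [], [nat_lit 18133216682, nat_lit 20081049792, nat_lit 18927921238, nat_lit 20712818896, nat_lit 22855909808, nat_lit 24281513008, nat_lit 23080643705, nat_lit 25034188748], nat_lit 1271250, nat_lit 1271250, nat_lit 1100001, nat_lit 1442500, nat_lit 1100001, nat_lit 2127500, [nat_lit 780000, nat_lit 1435000, nat_lit 1271250], [nat_lit 8, nat_lit 40, nat_lit 40, nat_lit 80, nat_lit 1, nat_lit 345, nat_lit 125, nat_lit 9]⟩, ⟨p060_k15, nat_lit 0, nat_lit 0, nat_lit 551, nat_lit 0, nat_lit 420602, [nat_lit 4688000000, nat_lit 7968000000, nat_lit 14058000000], [], [nat_lit 42144267360, nat_lit 38350247900, nat_lit 37345006680, nat_lit 38328150716, nat_lit 31472069796, nat_lit 32345533940, nat_lit 31790026844, nat_lit 32251162056], nat_lit 1271250, nat_lit 1271250, nat_lit 1100001,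 nat_lit 1442500, nat_lit 0, nat_lit 1100001, [nat_lit 1100000, nat_lit 1785000, nat_lit 1271250], [nat_lit 37, nat_lit 40, nat_lit 40, nat_lit 80, nat_lit 28, nat_lit 401, nat_lit 175, nat_lit 9]⟩,
 zbF0, [⟨nat_lit 4, nat_lit 100, nat_lit 85, nat_lit 73, nat_lit 627962930⟩]⟩
noncomputable def p060_l30 : Lf2 := ⟨nat_lit 0, nat_lit 20, [nat_lit 5, nat_lit 5, nat_lit 5, nat_lit 20], false, nat_lit 160, nat_lit 300, nat_lit 160, nat_lit 240, ⟨nat_lit 1000, nat_lit 0, nat_lit 0, nat_lit 0, nat_lit 0, nat_lit 0, nat_lit 0, nat_lit 0, nat_lit 0, nat_lit 0, nat_lit 0, nat_lit 0, nat_lit 0, nat_lit 0, nat_lit 0, nat_lit 0, false, false⟩,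
 nat_lit 12766, nat_lit 7102, nat_lit 0, nat_lit 0, nat_lit 12643, nat_lit 6758, nat_lit 761, nat_lit 0, nat_lit 0, nat_lit 901, nat_lit 0, nat_lit 0, nat_lit 0, nat_lit 0, nat_lit 0, nat_lit 0, nat_lit 0, nat_lit 0, [],
 ⟨p060_k17, nat_lit 0, nat_lit 0, nat_lit 184, nat_lit 0, nat_lit 205498, [nat_lit 3282000000, nat_lit 6250000000, nat_lit 11872000000], [], [nat_lit 18977859544, nat_lit 19626939359, nat_lit 18343752779, nat_lit 20047740407, nat_lit 23338566747, nat_lit 24584357176, nat_lit 24767739042, nat_lit 25316640980], nat_lit 1271250, nat_lit 1271250, nat_lit 1100001, nat_lit 1442500, nat_lit 1100001, nat_lit 2298750, [nat_lit 780000, nat_lit 1435000, nat_lit 1271250], [nat_lit 23, nat_lit 40, nat_lit 40, nat_lit 80, nat_lit 12, nat_lit 428, nat_lit 200, nat_lit 10]⟩, ⟨p060_k15, nat_lit 0, nat_lit 0, nat_lit 240, nat_lit 0, nat_lit 260390, [nat_lit 4688000000, nat_lit 7968000000, nat_lit 14058000000],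 [], [nat_lit 34986122720, nat_lit 27839699912, nat_lit 27839699912, nat_lit 26614084004, nat_lit 26139170276, nat_lit 27428155604, nat_lit 29620646656, nat_lit 27774547876], nat_lit 1271250, nat_lit 1271250, nat_lit 1100001, nat_lit 1442500, nat_lit 1100001, nat_lit 1785000, [nat_lit 1100000, nat_lit 1785000, nat_lit 1271250], [nat_lit 37, nat_lit 40, nat_lit 40, nat_lit 80, nat_lit 28, nat_lit 428, nat_lit 200, nat_lit 9]⟩,
 zbF0, [⟨nat_lit 4, nat_lit 100, nat_lit 94, nat_lit 75, nat_lit 562663368⟩]⟩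
noncomputable def p060_l31 : Lf2 := ⟨nat_lit 0, nat_lit 20, [nat_lit 5, nat_lit 5, nat_lit 5, nat_lit 20], false, nat_lit 160, nat_lit 280, nat_lit 160, nat_lit 240, ⟨nat_lit 1000, nat_lit 0, nat_lit 0, nat_lit 0, nat_lit 0, nat_lit 0, nat_lit 0, nat_lit 0, nat_lit 0, nat_lit 0, nat_lit 0, nat_lit 0, nat_lit 0, nat_lit 0, nat_lit 0, nat_lit 0, false, false⟩,
 nat_lit 15828, nat_lit 0, nat_lit 0, nat_lit 0, nat_lit 10957, nat_lit 8379, nat_lit 530, nat_lit 0, nat_lit 0, nat_lit 743, nat_lit 0, nat_lit 0, nat_lit 0, nat_lit 0, nat_lit 0, nat_lit 0, nat_lit 0, nat_lit 0, [],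
 ⟨p060_k14, nat_lit 0, nat_lit 0, nat_lit 188, nat_lit 0, nat_lit 298582, [nat_lit 3282000000, nat_lit 6250000000, nat_lit 9842000000], [], [nat_lit 18133216682, nat_lit 20081049792, nat_lit 18927921238, nat_lit 20712818896, nat_lit 22855909808, nat_lit 24281513008, nat_lit 23080643705, nat_lit 25034188748], nat_lit 1271250, nat_lit 1271250, nat_lit 1100001, nat_lit 1442500, nat_lit 1100001, nat_lit 2127500, [nat_lit 780000, nat_lit 1435000, nat_lit 1271250], [nat_lit 8, nat_lit 40, nat_lit 40, nat_lit 80, nat_lit 1, nat_lit 345, nat_lit 125, nat_lit 9]⟩, ⟨p060_k15, nat_lit 0, nat_lit 0, nat_lit 387, nat_lit 0, nat_lit 420602, [nat_lit 4688000000, nat_lit 7968000000, nat_lit 14058000000], [], [nat_lit 37456267360, nat_lit 29668084052, nat_lit 28595675956, nat_lit 29811013732, nat_lit 29287140308, nat_lit 30382247900, nat_lit 29377006680, nat_lit 30360150716], nat_lit 1271250, nat_lit 1271250, nat_lit 1100001,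 nat_lit 1442500, nat_lit 1100001, nat_lit 1785000, [nat_lit 1100000, nat_lit 1785000, nat_lit 1271250], [nat_lit 37, nat_lit 40, nat_lit 40, nat_lit 80, nat_lit 28, nat_lit 428, nat_lit 200, nat_lit 9]⟩,
 zbF0, [⟨nat_lit 4, nat_lit 100, nat_lit 85, nat_lit 73, nat_lit 627962930⟩]⟩
noncomputable def p060_l32 : Lf2 := ⟨nat_lit 0, nat_lit 20, [nat_lit 5, nat_lit 5, nat_lit 5, nat_lit 20], false, nat_lit 160, nat_lit 300, nat_lit 240, nat_lit 336, ⟨nat_lit 899, nat_lit 0, nat_lit 101, nat_lit 6, nat_lit 211, nat_lit 101, nat_lit 161, nat_lit 101, nat_lit 3701, nat_lit 228, nat_lit 561, nat_lit 217, nat_lit 44276433, nat_lit 0, nat_lit 0, nat_lit 4663680, false, false⟩,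
 nat_lit 18752, nat_lit 0, nat_lit 0, nat_lit 0, nat_lit 11933, nat_lit 9927, nat_lit 575, nat_lit 0, nat_lit 0, nat_lit 1207, nat_lit 0, nat_lit 0, nat_lit 0, nat_lit 0, nat_lit 0, nat_lit 20200, nat_lit 0, nat_lit 0, [(nat_lit 13, [(nat_lit 3, nat_lit 101)]), (nat_lit 16, [(nat_lit 3, nat_lit 101)])],
 ⟨p060_k17, nat_lit 0, nat_lit 0, nat_lit 230, nat_lit 0, nat_lit 331936, [nat_lit 7191790800, nat_lit 5597822800, nat_lit 10565585200], [], [nat_lit 18781201373, nat_lit 22369179285, nat_lit 19384346349, nat_lit 22665379285, nat_lit 24243709357, nat_lit 26654345955, nat_lit 28685443902, nat_lit 27204220002], nat_lit 1271250, nat_lit 1271250, nat_lit 1100001, nat_lit 1442500, nat_lit 1100001, nat_lit 2298750, [nat_lit 780000, nat_lit 1435000, nat_lit 1271250], [nat_lit 23, nat_lit 40, nat_lit 40, nat_lit 80, nat_lit 12, nat_lit 456, nat_lit 225, nat_lit 11]⟩, ⟨p060_k15, nat_lit 0, nat_lit 0, nat_lit 370, nat_lit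 0, nat_lit 420602, [nat_lit 4214512000, nat_lit 7163232000, nat_lit 12638142000], [], [nat_lit 16961652160, nat_lit 18633307960, nat_lit 17230145460, nat_lit 18848752652, nat_lit 21860723343, nat_lit 23529974697, nat_lit 21858729974, nat_lit 24067896108], nat_lit 1271250, nat_lit 1271250, nat_lit 1100001, nat_lit 1442500, nat_lit 1271250, nat_lit 1271250, [nat_lit 1100000, nat_lit 1785000, nat_lit 1271250], [nat_lit 37, nat_lit 40, nat_lit 40, nat_lit 80, nat_lit 28, nat_lit 456, nat_lit 225, nat_lit 10]⟩,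
 ⟨nat_lit 4472, nat_lit 5478, ⟨.ofNat (nat_lit 467727), .ofNat (nat_lit 542625), .ofNat (nat_lit 510352), .ofNat (nat_lit 585251), .ofNat (nat_lit 475101), .ofNat (nat_lit 543044), .ofNat (nat_lit 518145), .ofNat (nat_lit 586088)⟩, ⟨.ofNat (nat_lit 254209), .ofNat (nat_lit 516475), .ofNat (nat_lit 296923), .ofNat (nat_lit 559189), .ofNat (nat_lit 259489), .ofNat (nat_lit 497412), .ofNat (nat_lit 302621), .ofNat (nat_lit 540545)⟩⟩, [⟨nat_lit 4, nat_lit 100, nat_lit 90, nat_lit 74, nat_lit 528626013⟩, ⟨nat_lit 7, nat_lit 92, nat_lit 100, nat_lit 75, nat_lit 637074087⟩]⟩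
noncomputable def p060_l33 : Lf2 := ⟨nat_lit 0, nat_lit 20, [nat_lit 5, nat_lit 5, nat_lit 5, nat_lit 20], false, nat_lit 160, nat_lit 300, nat_lit 0, nat_lit 160, ⟨nat_lit 1000, nat_lit 0, nat_lit 0, nat_lit 0, nat_lit 0, nat_lit 0, nat_lit 0, nat_lit 0, nat_lit 0, nat_lit 0, nat_lit 0, nat_lit 0, nat_lit 0, nat_lit 0, nat_lit 0, nat_lit 0, false, false⟩,
 nat_lit 16069, nat_lit 0, nat_lit 0, nat_lit 0, nat_lit 10225, nat_lit 8507, nat_lit 811, nat_lit 0, nat_lit 0, nat_lit 1214, nat_lit 0, nat_lit 0, nat_lit 0, nat_lit 0, nat_lit 0, nat_lit 0, nat_lit 0, nat_lit 0, [],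
 ⟨p060_k17, nat_lit 0, nat_lit 0, nat_lit 224, nat_lit 0, nat_lit 331936, [nat_lit 3282000000, nat_lit 6250000000, nat_lit 11872000000], [], [nat_lit 19782111425, nat_lit 22757767625, nat_lit 21109668225, nat_lit 23794726925, nat_lit 24371482950, nat_lit 26396004650, nat_lit 25019827350, nat_lit 27818065125], nat_lit 1271250, nat_lit 1271250, nat_lit 1271250, nat_lit 1271250, nat_lit 1100001, nat_lit 2298750, [nat_lit 780000, nat_lit 1435000, nat_lit 1271250], [nat_lit 23, nat_lit 40, nat_lit 40, nat_lit 80, nat_lit 12, nat_lit 456, nat_lit 225, nat_lit 11]⟩, ⟨p060_k15, nat_lit 0, nat_lit 0, nat_lit 479, nat_lit 0, nat_lit 420602, [nat_lit 4688000000, nat_lit 7968000000, nat_lit 14058000000], [], [nat_lit 33343370548, nat_lit 31547247704, nat_lit 30926516660, nat_lit 32269837132, nat_lit 26235168336, nat_lit 24889916656, nat_lit 24358893664, nat_lit 25837947308], nat_lit 1271250, nat_lit 1271250, nat_lit 1271250,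 nat_lit 1271250, nat_lit 0, nat_lit 1100001, [nat_lit 1100000, nat_lit 1785000, nat_lit 1271250], [nat_lit 37, nat_lit 40, nat_lit 40, nat_lit 80, nat_lit 28, nat_lit 401, nat_lit 175, nat_lit 9]⟩,
 zbF0, [⟨nat_lit 4, nat_lit 100, nat_lit 90, nat_lit 74, nat_lit 524804684⟩]⟩
noncomputable def p060_l34 : Lf2 := ⟨nat_lit 0, nat_lit 20, [nat_lit 5, nat_lit 5, nat_lit 5, nat_lit 20], false, nat_lit 160, nat_lit 300, nat_lit 160, nat_lit 336, ⟨nat_lit 1000, nat_lit 0, nat_lit 0, nat_lit 0, nat_lit 0, nat_lit 0, nat_lit 0, nat_lit 0, nat_lit 0, nat_lit 0, nat_lit 0, nat_lit 0, nat_lit 0, nat_lit 0, nat_lit 0, nat_lit 0, false, false⟩,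
 nat_lit 16890, nat_lit 0, nat_lit 0, nat_lit 0, nat_lit 10748, nat_lit 8941, nat_lit 834, nat_lit 0, nat_lit 0, nat_lit 994, nat_lit 0, nat_lit 0, nat_lit 0, nat_lit 0, nat_lit 0, nat_lit 0, nat_lit 0, nat_lit 0, [],
 ⟨p060_k17, nat_lit 0, nat_lit 0, nat_lit 224, nat_lit 0, nat_lit 331936, [nat_lit 3282000000, nat_lit 6250000000, nat_lit 11872000000], [], [nat_lit 19146698094, nat_lit 22215862510, nat_lit 20490974158, nat_lit 23256622974, nat_lit 23794828146, nat_lit 26643485112, nat_lit 24505513584, nat_lit 28084337500], nat_lit 1271250, nat_lit 1271250, nat_lit 1271250, nat_lit 1271250, nat_lit 1100001, nat_lit 2298750, [nat_lit 780000, nat_lit 1435000, nat_lit 1271250], [nat_lit 23, nat_lit 40, nat_lit 40, nat_lit 80, nat_lit 12, nat_lit 456, nat_lit 225, nat_lit 11]⟩, ⟨p060_k15, nat_lit 0, nat_lit 0, nat_lit 377, nat_lit 0, nat_lit 420602, [nat_lit 4688000000, nat_lit 7968000000, nat_lit 14058000000],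 [], [nat_lit 28857772524, nat_lit 26351453328, nat_lit 25796188832, nat_lit 26904024600, nat_lit 28855885676, nat_lit 29465334102, nat_lit 29005132501, nat_lit 29922940907], nat_lit 1271250, nat_lit 1271250, nat_lit 1271250, nat_lit 1271250, nat_lit 1271250, nat_lit 1271250, [nat_lit 1100000, nat_lit 1785000, nat_lit 1271250], [nat_lit 37, nat_lit 40, nat_lit 40, nat_lit 80, nat_lit 28, nat_lit 456, nat_lit 225, nat_lit 10]⟩,
 zbF0, [⟨nat_lit 4, nat_lit 100, nat_lit 90, nat_lit 74, nat_lit 567019433⟩, ⟨nat_lit 7, nat_lit 92, nat_lit 100, nat_lit 75, nat_lit 304439350⟩]⟩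
noncomputable def b_V_700_600_10_46 : St := ⟨true, nat_lit 1, nat_lit 1, nat_lit 1, nat_lit 80, nat_lit 280, nat_lit 320, nat_lit 240, nat_lit 280, nat_lit 160, nat_lit 240, nat_lit 40, nat_lit 80, nat_lit 160, nat_lit 300, nat_lit 0, nat_lit 336, nat_lit 40, nat_lit 80, nat_lit 0, nat_lit 0, nat_lit 0, nat_lit 0⟩
theorem d_V_700_600_10_46 (h : EB TB.env) : Dead b_V_700_600_10_46 := chkB_sound0 h (T :=
(.spl (nat_lit 2) (nat_lit 200)
(.spl (nat_lit 5) (nat_lit 160)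
(.spl (nat_lit 0) (nat_lit 300)
(.leaf p060_l28)
(.trX (nat_lit 16) (nat_lit 94) (nat_lit 100) (nat_lit 87) (nat_lit 280) (.leaf p060_l29)))
(.spl (nat_lit 5) (nat_lit 240)
(.spl (nat_lit 0) (nat_lit 300)
(.leaf p060_l30)
(.trX (nat_lit 16) (nat_lit 94) (nat_lit 100) (nat_lit 87) (nat_lit 280) (.leaf p060_l31)))
(.leaf p060_l32)))
(.spl (nat_lit 5) (nat_lit 160)
(.leaf p060_l33)
(.leaf p060_l34)))) (by decide +kernel)
noncomputable def p060_l35 : Lf2 := ⟨nat_lit 0, nat_lit 20, [nat_lit 5, nat_lit 5, nat_lit 5, nat_lit 20], false, nat_lit 0, nat_lit 300, nat_lit 0, nat_lit 160, ⟨nat_lit 1000, nat_lit 0, nat_lit 0, nat_lit 0, nat_lit 0, nat_lit 0, nat_lit 0, nat_lit 0, nat_lit 0, nat_lit 0, nat_lit 0, nat_lit 0, nat_lit 0, nat_lit 0, nat_lit 0, nat_lit 0, false, false⟩,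
 nat_lit 15410, nat_lit 0, nat_lit 0, nat_lit 884, nat_lit 7834, nat_lit 8158, nat_lit 655, nat_lit 0, nat_lit 0, nat_lit 1073, nat_lit 0, nat_lit 0, nat_lit 0, nat_lit 0, nat_lit 0, nat_lit 0, nat_lit 0, nat_lit 0, [],
 ⟨p060_k17, nat_lit 0, nat_lit 0, nat_lit 351, nat_lit 0, nat_lit 205498, [nat_lit 3282000000, nat_lit 6250000000, nat_lit 11872000000], [], [nat_lit 31154467177, nat_lit 32222233197, nat_lit 41100938225, nat_lit 41859158729, nat_lit 28395486613, nat_lit 29013088846, nat_lit 34743314326, nat_lit 35557776569], nat_lit 1271250, nat_lit 1271250, nat_lit 1271250, nat_lit 1271250, nat_lit 0, nat_lit 2118750, [nat_lit 780000, nat_lit 1435000, nat_lit 1271250], [nat_lit 23, nat_lit 40, nat_lit 40, nat_lit 80, nat_lit 12, nat_lit 483, nat_lit 250, nat_lit 12]⟩, ⟨p060_k15, nat_lit 0, nat_lit 0, nat_lit 422, nat_lit 0, nat_lit 260390, [nat_lit 4688000000, nat_lit 7968000000, nat_lit 14058000000], [],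 [nat_lit 32570894540, nat_lit 33899034908, nat_lit 40493862164, nat_lit 41365760296, nat_lit 26378246916, nat_lit 27468349300, nat_lit 33620586336, nat_lit 34485200360], nat_lit 1271250, nat_lit 1271250, nat_lit 1271250, nat_lit 1271250, nat_lit 0, nat_lit 1100001, [nat_lit 1100000, nat_lit 1785000, nat_lit 1271250], [nat_lit 37, nat_lit 40, nat_lit 40, nat_lit 80, nat_lit 28, nat_lit 456, nat_lit 225, nat_lit 10]⟩,
 zbF0, [⟨nat_lit 4, nat_lit 100, nat_lit 94, nat_lit 75, nat_lit 102315966⟩, ⟨nat_lit 9, nat_lit 100, nat_lit 83, nat_lit 39, nat_lit 65619877⟩]⟩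
noncomputable def p060_l36 : Lf2 := ⟨nat_lit 0, nat_lit 20, [nat_lit 5, nat_lit 5, nat_lit 5, nat_lit 20], false, nat_lit 0, nat_lit 280, nat_lit 0, nat_lit 160, ⟨nat_lit 1000, nat_lit 0, nat_lit 0, nat_lit 0, nat_lit 0, nat_lit 0, nat_lit 0, nat_lit 0, nat_lit 0, nat_lit 0, nat_lit 0, nat_lit 0, nat_lit 0, nat_lit 0, nat_lit 0, nat_lit 0, false, false⟩,
 nat_lit 9625, nat_lit 0, nat_lit 6280, nat_lit 0, nat_lit 6663, nat_lit 8420, nat_lit 869, nat_lit 0, nat_lit 0, nat_lit 1037, nat_lit 0, nat_lit 0, nat_lit 0, nat_lit 0, nat_lit 0, nat_lit 0, nat_lit 0, nat_lit 0, [],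
 ⟨p060_k14, nat_lit 0, nat_lit 0, nat_lit 340, nat_lit 0, nat_lit 298582, [nat_lit 3282000000, nat_lit 6250000000, nat_lit 9842000000], [], [nat_lit 26644906491, nat_lit 27760508589, nat_lit 38684400318, nat_lit 39915376228, nat_lit 24989479105, nat_lit 25699051161, nat_lit 33550471063, nat_lit 34369975412], nat_lit 1271250, nat_lit 1271250, nat_lit 1271250, nat_lit 1271250, nat_lit 0, nat_lit 1977500, [nat_lit 780000, nat_lit 1435000, nat_lit 1271250], [nat_lit 8, nat_lit 40, nat_lit 40, nat_lit 80, nat_lit 1, nat_lit 401, nat_lit 175, nat_lit 11]⟩, ⟨p060_k15, nat_lit 0, nat_lit 0, nat_lit 474, nat_lit 0, nat_lit 420602, [nat_lit 4688000000, nat_lit 7968000000, nat_lit 14058000000], [], [nat_lit 34834486420, nat_lit 35693479060, nat_lit 41392168160, nat_lit 42054255700, nat_lit 28779148580, nat_lit 29913730480, nat_lit 34960278000, nat_lit 35465169280], nat_lit 1271250, nat_lit 1271250, nat_lit 1271250, nat_lit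 1271250, nat_lit 0, nat_lit 1100001, [nat_lit 1100000, nat_lit 1785000, nat_lit 1271250], [nat_lit 37, nat_lit 40, nat_lit 40, nat_lit 80, nat_lit 28, nat_lit 456, nat_lit 225, nat_lit 10]⟩,
 zbF0, [⟨nat_lit 16, nat_lit 85, nat_lit 100, nat_lit 73, nat_lit 78139636⟩, ⟨nat_lit 21, nat_lit 83, nat_lit 100, nat_lit 83, nat_lit 40979222⟩]⟩
noncomputable def p060_l37 : Lf2 := ⟨nat_lit 0, nat_lit 20, [nat_lit 5, nat_lit 5, nat_lit 5, nat_lit 20], false, nat_lit 0, nat_lit 300, nat_lit 160, nat_lit 336, ⟨nat_lit 1000, nat_lit 0, nat_lit 0, nat_lit 0, nat_lit 0, nat_lit 0, nat_lit 0, nat_lit 0, nat_lit 0, nat_lit 0, nat_lit 0, nat_lit 0, nat_lit 0, nat_lit 0, nat_lit 0, nat_lit 0, false, false⟩,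
 nat_lit 15633, nat_lit 0, nat_lit 0, nat_lit 1909, nat_lit 7834, nat_lit 8276, nat_lit 655, nat_lit 0, nat_lit 0, nat_lit 1081, nat_lit 0, nat_lit 0, nat_lit 0, nat_lit 0, nat_lit 0, nat_lit 0, nat_lit 0, nat_lit 0, [],
 ⟨p060_k17, nat_lit 0, nat_lit 0, nat_lit 351, nat_lit 0, nat_lit 205498, [nat_lit 3282000000, nat_lit 6250000000, nat_lit 11872000000], [], [nat_lit 31154467177, nat_lit 32222233197, nat_lit 41100938225, nat_lit 41859158729, nat_lit 28395486613, nat_lit 29013088846, nat_lit 34743314326, nat_lit 35557776569], nat_lit 1271250, nat_lit 1271250, nat_lit 1271250, nat_lit 1271250, nat_lit 0, nat_lit 2118750, [nat_lit 780000, nat_lit 1435000, nat_lit 1271250], [nat_lit 23, nat_lit 40, nat_lit 40, nat_lit 80, nat_lit 12, nat_lit 483, nat_lit 250, nat_lit 12]⟩, ⟨p060_k15, nat_lit 0, nat_lit 0, nat_lit 264, nat_lit 0, nat_lit 260390, [nat_lit 4688000000, nat_lit 7968000000, nat_lit 14058000000], [],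 [nat_lit 23166486340, nat_lit 24818267316, nat_lit 31928379972, nat_lit 32862230016, nat_lit 28346737832, nat_lit 29224415774, nat_lit 35924062487, nat_lit 36937133156], nat_lit 1271250, nat_lit 1271250, nat_lit 1271250, nat_lit 1271250, nat_lit 1100001, nat_lit 2607000, [nat_lit 1100000, nat_lit 1785000, nat_lit 1271250], [nat_lit 37, nat_lit 40, nat_lit 40, nat_lit 80, nat_lit 28, nat_lit 538, nat_lit 300, nat_lit 12]⟩,
 zbF0, [⟨nat_lit 4, nat_lit 100, nat_lit 94, nat_lit 75, nat_lit 107333629⟩, ⟨nat_lit 7, nat_lit 92, nat_lit 100, nat_lit 75, nat_lit 458902837⟩]⟩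
noncomputable def p060_l38 : Lf2 := ⟨nat_lit 0, nat_lit 20, [nat_lit 5, nat_lit 5, nat_lit 5, nat_lit 20], false, nat_lit 0, nat_lit 280, nat_lit 160, nat_lit 336, ⟨nat_lit 1000, nat_lit 0, nat_lit 0, nat_lit 0, nat_lit 0, nat_lit 0, nat_lit 0, nat_lit 0, nat_lit 0, nat_lit 0, nat_lit 0, nat_lit 0, nat_lit 0, nat_lit 0, nat_lit 0, nat_lit 0, false, false⟩,
 nat_lit 15663, nat_lit 0, nat_lit 0, nat_lit 0, nat_lit 6497, nat_lit 8292, nat_lit 870, nat_lit 0, nat_lit 0, nat_lit 947, nat_lit 0, nat_lit 0, nat_lit 0, nat_lit 0, nat_lit 0, nat_lit 0, nat_lit 0, nat_lit 0, [],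
 ⟨p060_k14, nat_lit 0, nat_lit 0, nat_lit 340, nat_lit 0, nat_lit 298582, [nat_lit 3282000000, nat_lit 6250000000, nat_lit 9842000000], [], [nat_lit 26784147004, nat_lit 27885930266, nat_lit 38235007442, nat_lit 39450948732, nat_lit 25302790870, nat_lit 26008979330, nat_lit 33366742097, nat_lit 34178988428], nat_lit 1271250, nat_lit 1271250, nat_lit 1271250, nat_lit 1271250, nat_lit 0, nat_lit 1977500, [nat_lit 780000, nat_lit 1435000, nat_lit 1271250], [nat_lit 8, nat_lit 40, nat_lit 40, nat_lit 80, nat_lit 1, nat_lit 401, nat_lit 175, nat_lit 11]⟩, ⟨p060_k15, nat_lit 0, nat_lit 0, nat_lit 377, nat_lit 0, nat_lit 420602, [nat_lit 4688000000, nat_lit 7968000000, nat_lit 14058000000], [], [nat_lit 27402031484, nat_lit 28495168700, nat_lit 33555176220, nat_lit 34275814640, nat_lit 30649559501, nat_lit 31177373277, nat_lit 35942946109, nat_lit 36956102359], nat_lit 1271250, nat_lit 1271250, nat_lit 1271250, nat_lit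 1271250, nat_lit 1100001, nat_lit 2607000, [nat_lit 1100000, nat_lit 1785000, nat_lit 1271250], [nat_lit 37, nat_lit 40, nat_lit 40, nat_lit 80, nat_lit 28, nat_lit 538, nat_lit 300, nat_lit 12]⟩,
 zbF0, [⟨nat_lit 16, nat_lit 85, nat_lit 100, nat_lit 73, nat_lit 131502601⟩, ⟨nat_lit 19, nat_lit 100, nat_lit 92, nat_lit 75, nat_lit 406060557⟩]⟩
noncomputable def b_V_700_600_10_47 : St := ⟨true, nat_lit 1, nat_lit 1, nat_lit 1, nat_lit 80, nat_lit 280, nat_lit 320, nat_lit 240, nat_lit 280, nat_lit 240, nat_lit 400, nat_lit 40, nat_lit 80, nat_lit 0, nat_lit 300, nat_lit 0, nat_lit 336, nat_lit 40, nat_lit 80, nat_lit 0, nat_lit 0, nat_lit 0, nat_lit 0⟩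
theorem d_V_700_600_10_47 (h : EB TB.env) : Dead b_V_700_600_10_47 := chkB_sound0 h (T :=
(.spl (nat_lit 5) (nat_lit 160)
(.spl (nat_lit 0) (nat_lit 300)
(.leaf p060_l35)
(.trX (nat_lit 16) (nat_lit 94) (nat_lit 100) (nat_lit 87) (nat_lit 280) (.leaf p060_l36)))
(.spl (nat_lit 0) (nat_lit 300)
(.leaf p060_l37)
(.trX (nat_lit 16) (nat_lit 94) (nat_lit 100) (nat_lit 87) (nat_lit 280) (.leaf p060_l38))))) (by decide +kernel)
noncomputable def p060_l39 : Lf2 := ⟨nat_lit 0, nat_lit 20, [nat_lit 5, nat_lit 5, nat_lit 5, nat_lit 20], true, nat_lit 0, nat_lit 160, nat_lit 0, nat_lit 336, ⟨nat_lit 0, nat_lit 1000, nat_lit 0, nat_lit 6, nat_lit 139, nat_lit 1000, nat_lit 56, nat_lit 0, nat_lit 0, nat_lit 0, nat_lit 0, nat_lit 0, nat_lit 0, nat_lit 0, nat_lit 0, nat_lit 5000000, false, false⟩,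
 nat_lit 0, nat_lit 8130, nat_lit 0, nat_lit 0, nat_lit 5173, nat_lit 0, nat_lit 0, nat_lit 0, nat_lit 0, nat_lit 0, nat_lit 0, nat_lit 0, nat_lit 0, nat_lit 0, nat_lit 25, nat_lit 790000, nat_lit 0, nat_lit 0, [(nat_lit 13, [(nat_lit 1, nat_lit 350), (nat_lit 2, nat_lit 650)]), (nat_lit 16, [(nat_lit 1, nat_lit 350), (nat_lit 2, nat_lit 650)])],
 ⟨p060_k17, nat_lit 0, nat_lit 0, nat_lit 603, nat_lit 0, nat_lit 569638, [nat_lit 2541353334, nat_lit 2796290001, nat_lit 52000000], [], [nat_lit 29738541976, nat_lit 25512277899, nat_lit 22159827993, nat_lit 23474531123, nat_lit 21148207597, nat_lit 22479619344, nat_lit 21867770770, nat_lit 21720877050], nat_lit 1271250, nat_lit 1271250, nat_lit 205650, nat_lit 780000, nat_lit 0, nat_lit 1100001, [nat_lit 780000, nat_lit 1435000, nat_lit 1271250], [nat_lit 23, nat_lit 40, nat_lit 40, nat_lit 80, nat_lit 12, nat_lit 373, nat_lit 150, nat_lit 10]⟩, C1.Rw.none,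
 ⟨nat_lit 4472, nat_lit 5478, ⟨.ofNat (nat_lit 235487), .ofNat (nat_lit 392815), .ofNat (nat_lit 278138), .ofNat (nat_lit 435455), .ofNat (nat_lit 264421), .ofNat (nat_lit 407143), .ofNat (nat_lit 307491), .ofNat (nat_lit 450202)⟩, ⟨.negSucc (nat_lit 45522), .ofNat (nat_lit 254209), .negSucc (nat_lit 2834), .ofNat (nat_lit 296923), .negSucc (nat_lit 12423), .ofNat (nat_lit 259489), .ofNat (nat_lit 0), .ofNat (nat_lit 302621)⟩⟩, [⟨nat_lit 0, nat_lit 100, nat_lit 91, nat_lit 77, nat_lit 132716906⟩]⟩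
noncomputable def p060_l40 : Lf2 := ⟨nat_lit 0, nat_lit 20, [nat_lit 5, nat_lit 5, nat_lit 5, nat_lit 20], true, nat_lit 160, nat_lit 300, nat_lit 0, nat_lit 336, ⟨nat_lit 0, nat_lit 1000, nat_lit 0, nat_lit 6, nat_lit 139, nat_lit 1000, nat_lit 161, nat_lit 0, nat_lit 0, nat_lit 0, nat_lit 0, nat_lit 0, nat_lit 0, nat_lit 0, nat_lit 0, nat_lit 5000000, false, false⟩,
 nat_lit 0, nat_lit 8326, nat_lit 0, nat_lit 0, nat_lit 5298, nat_lit 0, nat_lit 0, nat_lit 0, nat_lit 0, nat_lit 0, nat_lit 0, nat_lit 0, nat_lit 0, nat_lit 0, nat_lit 26, nat_lit 791200, nat_lit 0, nat_lit 0, [(nat_lit 13, [(nat_lit 1, nat_lit 348), (nat_lit 2, nat_lit 652)]), (nat_lit 16, [(nat_lit 1, nat_lit 348), (nat_lit 2, nat_lit 652)])],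
 ⟨p060_k17, nat_lit 0, nat_lit 0, nat_lit 496, nat_lit 0, nat_lit 569638, [nat_lit 2553889601, nat_lit 2814511201, nat_lit 74304000], [], [nat_lit 22040861955, nat_lit 21660335250, nat_lit 18990490707, nat_lit 20452652154, nat_lit 24115023564, nat_lit 26017395445, nat_lit 26908694237, nat_lit 24134781934], nat_lit 1271250, nat_lit 1271250, nat_lit 205650, nat_lit 780000, nat_lit 1100001, nat_lit 2298750, [nat_lit 780000, nat_lit 1435000, nat_lit 1271250], [nat_lit 23, nat_lit 40, nat_lit 40, nat_lit 80, nat_lit 12, nat_lit 428, nat_lit 200, nat_lit 11]⟩, C1.Rw.none,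
 ⟨nat_lit 4472, nat_lit 5478, ⟨.ofNat (nat_lit 235487), .ofNat (nat_lit 392815), .ofNat (nat_lit 278138), .ofNat (nat_lit 435455), .ofNat (nat_lit 264421), .ofNat (nat_lit 407143), .ofNat (nat_lit 307491), .ofNat (nat_lit 450202)⟩, ⟨.ofNat (nat_lit 254209), .ofNat (nat_lit 516475), .ofNat (nat_lit 296923), .ofNat (nat_lit 559189), .ofNat (nat_lit 259489), .ofNat (nat_lit 497412), .ofNat (nat_lit 302621), .ofNat (nat_lit 540545)⟩⟩, [⟨nat_lit 0, nat_lit 100, nat_lit 87, nat_lit 95, nat_lit 62364842⟩, ⟨nat_lit 4, nat_lit 100, nat_lit 90, nat_lit 74, nat_lit 373686255⟩]⟩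
noncomputable def p060_l41 : Lf2 := ⟨nat_lit 0, nat_lit 20, [nat_lit 5, nat_lit 5, nat_lit 5, nat_lit 20], true, nat_lit 0, nat_lit 160, nat_lit 0, nat_lit 336, ⟨nat_lit 0, nat_lit 1000, nat_lit 0, nat_lit 6, nat_lit 211, nat_lit 1000, nat_lit 55, nat_lit 0, nat_lit 0, nat_lit 0, nat_lit 0, nat_lit 0, nat_lit 0, nat_lit 0, nat_lit 0, nat_lit 5000000, false, false⟩,
 nat_lit 0, nat_lit 6011, nat_lit 0, nat_lit 0, nat_lit 3825, nat_lit 0, nat_lit 0, nat_lit 0, nat_lit 0, nat_lit 0, nat_lit 0, nat_lit 0, nat_lit 0, nat_lit 0, nat_lit 0, nat_lit 572800, nat_lit 0, nat_lit 0, [(nat_lit 13, [(nat_lit 1, nat_lit 712), (nat_lit 2, nat_lit 288)])],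
 ⟨p060_k17, nat_lit 0, nat_lit 0, nat_lit 409, nat_lit 0, nat_lit 352657, [nat_lit 2144289067, nat_lit 2618252801, nat_lit 1006976000], [], [nat_lit 30591241868, nat_lit 28568819018, nat_lit 27530671335, nat_lit 28188357185, nat_lit 24975833335, nat_lit 25653050185, nat_lit 26644722135, nat_lit 27209457835], nat_lit 1271250, nat_lit 1271250, nat_lit 780000, nat_lit 1762500, nat_lit 0, nat_lit 1100001, [nat_lit 780000, nat_lit 1435000, nat_lit 1271250], [nat_lit 23, nat_lit 40, nat_lit 40, nat_lit 80, nat_lit 12, nat_lit 401, nat_lit 175, nat_lit 10]⟩, C1.Rw.none,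
 ⟨nat_lit 5000, nat_lit 5478, ⟨.ofNat (nat_lit 392847), .ofNat (nat_lit 617614), .ofNat (nat_lit 435548), .ofNat (nat_lit 660309), .ofNat (nat_lit 399998), .ofNat (nat_lit 614253), .ofNat (nat_lit 442843), .ofNat (nat_lit 657090)⟩, ⟨.negSucc (nat_lit 45522), .ofNat (nat_lit 254209), .negSucc (nat_lit 2832), .ofNat (nat_lit 296923), .negSucc (nat_lit 28572), .ofNat (nat_lit 257141), .ofNat (nat_lit 0), .ofNat (nat_lit 299999)⟩⟩, []⟩
noncomputable def p060_l42 : Lf2 := ⟨nat_lit 0, nat_lit 20, [nat_lit 5, nat_lit 5, nat_lit 5, nat_lit 20], true, nat_lit 0, nat_lit 160, nat_lit 0, nat_lit 336, ⟨nat_lit 0, nat_lit 1000, nat_lit 0, nat_lit 6, nat_lit 212, nat_lit 1000, nat_lit 56, nat_lit 0, nat_lit 0, nat_lit 0, nat_lit 0, nat_lit 0, nat_lit 0, nat_lit 0, nat_lit 0, nat_lit 5000000, false, false⟩,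
 nat_lit 0, nat_lit 7213, nat_lit 0, nat_lit 0, nat_lit 4993, nat_lit 0, nat_lit 29, nat_lit 0, nat_lit 0, nat_lit 0, nat_lit 0, nat_lit 0, nat_lit 0, nat_lit 0, nat_lit 0, nat_lit 613600, nat_lit 0, nat_lit 0, [(nat_lit 16, [(nat_lit 1, nat_lit 644), (nat_lit 2, nat_lit 356)])],
 ⟨p060_k18, nat_lit 0, nat_lit 0, nat_lit 456, nat_lit 0, nat_lit 505647, [nat_lit 2322501601, nat_lit 1478434801, nat_lit 440891200], [], [nat_lit 26695827701, nat_lit 24095583147, nat_lit 23468398364, nat_lit 24189977044, nat_lit 20248065585, nat_lit 20918243545, nat_lit 24693145134, nat_lit 22432274790], nat_lit 1271250, nat_lit 1271250, nat_lit 780000, nat_lit 1762500, nat_lit 0, nat_lit 1100001, [nat_lit 780000, nat_lit 1762500, nat_lit 1271250], [nat_lit 99, nat_lit 40, nat_lit 40, nat_lit 80, nat_lit 17, nat_lit 317, nat_lit 100, nat_lit 9]⟩, C1.Rw.none,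
 ⟨nat_lit 4472, nat_lit 5000, ⟨.ofNat (nat_lit 399984), .ofNat (nat_lit 614256), .ofNat (nat_lit 442816), .ofNat (nat_lit 657088), .ofNat (nat_lit 407160), .ofNat (nat_lit 611081), .ofNat (nat_lit 450269), .ofNat (nat_lit 654189)⟩, ⟨.negSucc (nat_lit 28572), .ofNat (nat_lit 257141), .ofNat (nat_lit 0), .ofNat (nat_lit 299999), .negSucc (nat_lit 12423), .ofNat (nat_lit 259489), .ofNat (nat_lit 0), .ofNat (nat_lit 302621)⟩⟩, []⟩
noncomputable def p060_l43 : Lf2 := ⟨nat_lit 0, nat_lit 20, [nat_lit 5, nat_lit 5, nat_lit 5, nat_lit 20], true, nat_lit 160, nat_lit 300, nat_lit 0, nat_lit 336, ⟨nat_lit 0, nat_lit 1000, nat_lit 0, nat_lit 6, nat_lit 211, nat_lit 1000, nat_lit 162, nat_lit 0, nat_lit 0, nat_lit 0, nat_lit 0, nat_lit 0, nat_lit 0, nat_lit 0, nat_lit 0, nat_lit 5000000, false, false⟩,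
 nat_lit 0, nat_lit 8048, nat_lit 0, nat_lit 0, nat_lit 5121, nat_lit 0, nat_lit 75, nat_lit 0, nat_lit 0, nat_lit 0, nat_lit 0, nat_lit 0, nat_lit 0, nat_lit 0, nat_lit 16, nat_lit 755200, nat_lit 0, nat_lit 0, [(nat_lit 13, [(nat_lit 1, nat_lit 408), (nat_lit 2, nat_lit 592)])],
 ⟨p060_k17, nat_lit 0, nat_lit 0, nat_lit 246, nat_lit 0, nat_lit 352657, [nat_lit 2417801601, nat_lit 2667875201, nat_lit 45184000], [], [nat_lit 21506056970, nat_lit 19169493750, nat_lit 21563428474, nat_lit 20780017872, nat_lit 22033102901, nat_lit 22899117485, nat_lit 23339863686, nat_lit 24045136665], nat_lit 1271250, nat_lit 1271250, nat_lit 780000, nat_lit 1762500, nat_lit 1271250, nat_lit 1271250, [nat_lit 780000, nat_lit 1435000, nat_lit 1271250], [nat_lit 23, nat_lit 40, nat_lit 40, nat_lit 80, nat_lit 12, nat_lit 456, nat_lit 225, nat_lit 11]⟩, C1.Rw.none,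
 ⟨nat_lit 5000, nat_lit 5478, ⟨.ofNat (nat_lit 392847), .ofNat (nat_lit 617614), .ofNat (nat_lit 435548), .ofNat (nat_lit 660309), .ofNat (nat_lit 399998), .ofNat (nat_lit 614253), .ofNat (nat_lit 442843), .ofNat (nat_lit 657090)⟩, ⟨.ofNat (nat_lit 254209), .ofNat (nat_lit 516475), .ofNat (nat_lit 296923), .ofNat (nat_lit 559189), .ofNat (nat_lit 257141), .ofNat (nat_lit 507141), .ofNat (nat_lit 299999), .ofNat (nat_lit 549998)⟩⟩, [⟨nat_lit 4, nat_lit 100, nat_lit 94, nat_lit 75, nat_lit 287850526⟩]⟩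
noncomputable def p060_l44 : Lf2 := ⟨nat_lit 0, nat_lit 20, [nat_lit 5, nat_lit 5, nat_lit 5, nat_lit 20], true, nat_lit 160, nat_lit 280, nat_lit 0, nat_lit 336, ⟨nat_lit 0, nat_lit 1000, nat_lit 0, nat_lit 6, nat_lit 212, nat_lit 1000, nat_lit 154, nat_lit 0, nat_lit 0, nat_lit 0, nat_lit 0, nat_lit 0, nat_lit 0, nat_lit 0, nat_lit 0, nat_lit 5000000, false, false⟩,
 nat_lit 0, nat_lit 7010, nat_lit 0, nat_lit 0, nat_lit 4852, nat_lit 0, nat_lit 345, nat_lit 0, nat_lit 0, nat_lit 0, nat_lit 0, nat_lit 0, nat_lit 0, nat_lit 0, nat_lit 0, nat_lit 400000, nat_lit 0, nat_lit 0, [(nat_lit 16, [(nat_lit 1, nat_lit 1000)])],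
 ⟨p060_k14, nat_lit 0, nat_lit 0, nat_lit 320, nat_lit 0, nat_lit 505647, [nat_lit 2020200000, nat_lit 2399066667, nat_lit 2245733333], [], [nat_lit 18760223000, nat_lit 18765367213, nat_lit 19774981653, nat_lit 20595455660, nat_lit 21002112071, nat_lit 21999015007, nat_lit 26056231448, nat_lit 24074851624], nat_lit 1271250, nat_lit 1271250, nat_lit 780000, nat_lit 1762500, nat_lit 1100001, nat_lit 2127500, [nat_lit 780000, nat_lit 1435000, nat_lit 1271250], [nat_lit 8, nat_lit 40, nat_lit 40, nat_lit 80, nat_lit 1, nat_lit 373, nat_lit 150, nat_lit 10]⟩, C1.Rw.none,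
 ⟨nat_lit 4472, nat_lit 5000, ⟨.ofNat (nat_lit 399984), .ofNat (nat_lit 614256), .ofNat (nat_lit 442816), .ofNat (nat_lit 657088), .ofNat (nat_lit 407160), .ofNat (nat_lit 611081), .ofNat (nat_lit 450269), .ofNat (nat_lit 654189)⟩, ⟨.ofNat (nat_lit 257141), .ofNat (nat_lit 471427), .ofNat (nat_lit 299999), .ofNat (nat_lit 514284), .ofNat (nat_lit 259489), .ofNat (nat_lit 463423), .ofNat (nat_lit 302621), .ofNat (nat_lit 506556)⟩⟩, [⟨nat_lit 4, nat_lit 100, nat_lit 85, nat_lit 73, nat_lit 438739169⟩]⟩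
noncomputable def p060_l45 : Lf2 := ⟨nat_lit 0, nat_lit 20, [nat_lit 5, nat_lit 5, nat_lit 5, nat_lit 20], false, nat_lit 0, nat_lit 300, nat_lit 0, nat_lit 160, ⟨nat_lit 1000, nat_lit 0, nat_lit 0, nat_lit 0, nat_lit 0, nat_lit 0, nat_lit 0, nat_lit 0, nat_lit 0, nat_lit 0, nat_lit 0, nat_lit 0, nat_lit 0, nat_lit 0, nat_lit 0, nat_lit 0, false, false⟩,
 nat_lit 0, nat_lit 10510, nat_lit 0, nat_lit 0, nat_lit 6688, nat_lit 6392, nat_lit 797, nat_lit 0, nat_lit 0, nat_lit 1199, nat_lit 0, nat_lit 0, nat_lit 0, nat_lit 0, nat_lit 0, nat_lit 0, nat_lit 0, nat_lit 0, [],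
 ⟨p060_k17, nat_lit 0, nat_lit 0, nat_lit 508, nat_lit 0, nat_lit 569638, [nat_lit 3282000000, nat_lit 6250000000, nat_lit 11872000000], [], [nat_lit 33049241379, nat_lit 34586735715, nat_lit 38973411011, nat_lit 39986497344, nat_lit 31084545259, nat_lit 31988803171, nat_lit 35589638808, nat_lit 36317436400], nat_lit 1271250, nat_lit 1271250, nat_lit 1271250, nat_lit 1271250, nat_lit 0, nat_lit 2118750, [nat_lit 780000, nat_lit 1435000, nat_lit 1271250], [nat_lit 23, nat_lit 40, nat_lit 40, nat_lit 80, nat_lit 12, nat_lit 538, nat_lit 300, nat_lit 13]⟩, ⟨p060_k15, nat_lit 0, nat_lit 0, nat_lit 279, nat_lit 0, nat_lit 0, [nat_lit 4688000000, nat_lit 7968000000, nat_lit 14058000000], [], [nat_lit 27965872172, nat_lit 29728943980, nat_lit 37528070528, nat_lit 38967216352, nat_lit 23772112524, nat_lit 25043011596, nat_lit 32285550112, nat_lit 33382937472], nat_lit 0, nat_lit 0, nat_lit 0, nat_lit 0, nat_lit 0,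 nat_lit 0, [], [nat_lit 37, nat_lit 40, nat_lit 40, nat_lit 80, nat_lit 28, nat_lit 456, nat_lit 225, nat_lit 10]⟩,
 zbF0, [⟨nat_lit 16, nat_lit 90, nat_lit 100, nat_lit 74, nat_lit 188832447⟩]⟩
noncomputable def p060_l46 : Lf2 := ⟨nat_lit 0, nat_lit 20, [nat_lit 5, nat_lit 5, nat_lit 5, nat_lit 20], false, nat_lit 0, nat_lit 300, nat_lit 160, nat_lit 336, ⟨nat_lit 1000, nat_lit 0, nat_lit 0, nat_lit 0, nat_lit 0, nat_lit 0, nat_lit 0, nat_lit 0, nat_lit 0, nat_lit 0, nat_lit 0, nat_lit 0, nat_lit 0, nat_lit 0, nat_lit 0, nat_lit 0, false, false⟩,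
 nat_lit 0, nat_lit 10510, nat_lit 0, nat_lit 0, nat_lit 6688, nat_lit 5779, nat_lit 797, nat_lit 0, nat_lit 0, nat_lit 0, nat_lit 0, nat_lit 0, nat_lit 0, nat_lit 0, nat_lit 0, nat_lit 0, nat_lit 0, nat_lit 0, [],
 ⟨p060_k17, nat_lit 0, nat_lit 0, nat_lit 508, nat_lit 0, nat_lit 569638, [nat_lit 3282000000, nat_lit 6250000000, nat_lit 11872000000], [], [nat_lit 33049241379, nat_lit 34586735715, nat_lit 38973411011, nat_lit 39986497344, nat_lit 31084545259, nat_lit 31988803171, nat_lit 35589638808, nat_lit 36317436400], nat_lit 1271250, nat_lit 1271250, nat_lit 1271250, nat_lit 1271250, nat_lit 0, nat_lit 2118750, [nat_lit 780000, nat_lit 1435000, nat_lit 1271250], [nat_lit 23, nat_lit 40, nat_lit 40, nat_lit 80, nat_lit 12, nat_lit 538, nat_lit 300, nat_lit 13]⟩, ⟨p060_k15, nat_lit 0, nat_lit 0, nat_lit 97, nat_lit 0, nat_lit 0, [nat_lit 4688000000, nat_lit 7968000000, nat_lit 14058000000], [], [nat_lit 15559906096,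 nat_lit 18158722980, nat_lit 27666739900, nat_lit 29124520076, nat_lit 24515219737, nat_lit 26124854640, nat_lit 32977037166, nat_lit 33976751881], nat_lit 0, nat_lit 0, nat_lit 0, nat_lit 0, nat_lit 0, nat_lit 0, [], [nat_lit 37, nat_lit 40, nat_lit 40, nat_lit 80, nat_lit 28, nat_lit 538, nat_lit 300, nat_lit 12]⟩,
 zbF0, [⟨nat_lit 16, nat_lit 90, nat_lit 100, nat_lit 74, nat_lit 179381583⟩, ⟨nat_lit 7, nat_lit 92, nat_lit 100, nat_lit 75, nat_lit 555175567⟩]⟩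
noncomputable def p060_l47 : Lf2 := ⟨nat_lit 0, nat_lit 20, [nat_lit 5, nat_lit 5, nat_lit 5, nat_lit 20], true, nat_lit 0, nat_lit 300, nat_lit 0, nat_lit 336, ⟨nat_lit 0, nat_lit 1000, nat_lit 0, nat_lit 6, nat_lit 124, nat_lit 1000, nat_lit 106, nat_lit 0, nat_lit 0, nat_lit 0, nat_lit 0, nat_lit 0, nat_lit 0, nat_lit 0, nat_lit 0, nat_lit 5000000, false, false⟩,
 nat_lit 0, nat_lit 11432, nat_lit 0, nat_lit 0, nat_lit 7274, nat_lit 0, nat_lit 0, nat_lit 0, nat_lit 0, nat_lit 0, nat_lit 0, nat_lit 0, nat_lit 0, nat_lit 0, nat_lit 3, nat_lit 706000, nat_lit 0, nat_lit 0, [(nat_lit 13, [(nat_lit 1, nat_lit 490), (nat_lit 2, nat_lit 510)]), (nat_lit 16, [(nat_lit 1, nat_lit 490), (nat_lit 2, nat_lit 510)])],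
 ⟨p060_k17, nat_lit 0, nat_lit 0, nat_lit 509, nat_lit 0, nat_lit 331936, [nat_lit 2239814667, nat_lit 2480806001, nat_lit 26720000], [], [nat_lit 30989987114, nat_lit 29242965125, nat_lit 23180979912, nat_lit 26704952792, nat_lit 25077962082, nat_lit 27625560156, nat_lit 23933423049, nat_lit 25140699256], nat_lit 1271250, nat_lit 1271250, nat_lit 205650, nat_lit 490000, nat_lit 0, nat_lit 2118750, [nat_lit 780000, nat_lit 1435000, nat_lit 1271250], [nat_lit 23, nat_lit 40, nat_lit 40, nat_lit 80, nat_lit 12, nat_lit 401, nat_lit 175, nat_lit 11]⟩, C1.Rw.none,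
 ⟨nat_lit 4472, nat_lit 5478, ⟨.ofNat (nat_lit 235487), .ofNat (nat_lit 317898), .ofNat (nat_lit 278138), .ofNat (nat_lit 360546), .ofNat (nat_lit 264421), .ofNat (nat_lit 339182), .ofNat (nat_lit 307491), .ofNat (nat_lit 382248)⟩, ⟨.negSucc (nat_lit 45522), .ofNat (nat_lit 516475), .negSucc (nat_lit 2834), .ofNat (nat_lit 559189), .negSucc (nat_lit 12423), .ofNat (nat_lit 497412), .ofNat (nat_lit 0), .ofNat (nat_lit 540545)⟩⟩, [⟨nat_lit 0, nat_lit 100, nat_lit 91, nat_lit 77, nat_lit 765146614⟩, ⟨nat_lit 4, nat_lit 100, nat_lit 90, nat_lit 74, nat_lit 69563993⟩]⟩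
noncomputable def p060_l48 : Lf2 := ⟨nat_lit 0, nat_lit 20, [nat_lit 5, nat_lit 5, nat_lit 5, nat_lit 20], false, nat_lit 0, nat_lit 300, nat_lit 0, nat_lit 336, ⟨nat_lit 0, nat_lit 1000, nat_lit 0, nat_lit 6, nat_lit 154, nat_lit 1000, nat_lit 106, nat_lit 0, nat_lit 0, nat_lit 0, nat_lit 0, nat_lit 0, nat_lit 0, nat_lit 0, nat_lit 0, nat_lit 5000000, false, false⟩,
 nat_lit 0, nat_lit 10610, nat_lit 0, nat_lit 0, nat_lit 6751, nat_lit 0, nat_lit 0, nat_lit 0, nat_lit 0, nat_lit 0, nat_lit 0, nat_lit 0, nat_lit 0, nat_lit 0, nat_lit 20, nat_lit 769000, nat_lit 0, nat_lit 0, [(nat_lit 13, [(nat_lit 1, nat_lit 385), (nat_lit 2, nat_lit 615)]), (nat_lit 16, [(nat_lit 1, nat_lit 385), (nat_lit 2, nat_lit 615)])],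
 ⟨p060_k17, nat_lit 0, nat_lit 0, nat_lit 481, nat_lit 0, nat_lit 331936, [nat_lit 2471968667, nat_lit 2727419001, nat_lit 61680000], [], [nat_lit 27803273366, nat_lit 25671391908, nat_lit 21632841872, nat_lit 24840910332, nat_lit 24588136039, nat_lit 24685058362, nat_lit 27504165653, nat_lit 23928655519], nat_lit 1271250, nat_lit 1271250, nat_lit 490000, nat_lit 780000, nat_lit 0, nat_lit 2118750, [nat_lit 780000, nat_lit 1435000, nat_lit 1271250], [nat_lit 23, nat_lit 40, nat_lit 40, nat_lit 80, nat_lit 12, nat_lit 428, nat_lit 200, nat_lit 11]⟩, ⟨p060_k15, nat_lit 0, nat_lit 0, nat_lit 589, nat_lit 0, nat_lit 420602, [nat_lit 0, nat_lit 0, nat_lit 0], [], [nat_lit 0, nat_lit 0, nat_lit 0, nat_lit 0, nat_lit 0, nat_lit 0, nat_lit 0, nat_lit 0], nat_lit 1271250, nat_lit 1271250, nat_lit 490000, nat_lit 780000, nat_lit 0, nat_lit 2373000, [nat_lit 1100000, nat_lit 1785000, nat_lit 1271250], [nat_lit 37, nat_lit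 40, nat_lit 40, nat_lit 80, nat_lit 28, nat_lit 428, nat_lit 200, nat_lit 10]⟩,
 ⟨nat_lit 4472, nat_lit 5478, ⟨.ofNat (nat_lit 317898), .ofNat (nat_lit 392815), .ofNat (nat_lit 360546), .ofNat (nat_lit 435455), .ofNat (nat_lit 339182), .ofNat (nat_lit 407143), .ofNat (nat_lit 382248), .ofNat (nat_lit 450202)⟩, ⟨.negSucc (nat_lit 45522), .ofNat (nat_lit 516475), .negSucc (nat_lit 2834), .ofNat (nat_lit 559189), .negSucc (nat_lit 12423), .ofNat (nat_lit 497412), .ofNat (nat_lit 0), .ofNat (nat_lit 540545)⟩⟩, [⟨nat_lit 16, nat_lit 90, nat_lit 100, nat_lit 74, nat_lit 84000447⟩]⟩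
noncomputable def p060_l49 : Lf2 := ⟨nat_lit 0, nat_lit 20, [nat_lit 5, nat_lit 5, nat_lit 5, nat_lit 20], false, nat_lit 0, nat_lit 160, nat_lit 0, nat_lit 336, ⟨nat_lit 0, nat_lit 1000, nat_lit 0, nat_lit 6, nat_lit 211, nat_lit 1000, nat_lit 56, nat_lit 0, nat_lit 0, nat_lit 0, nat_lit 0, nat_lit 0, nat_lit 0, nat_lit 0, nat_lit 0, nat_lit 5000000, false, false⟩,
 nat_lit 0, nat_lit 6320, nat_lit 0, nat_lit 0, nat_lit 4021, nat_lit 0, nat_lit 0, nat_lit 0, nat_lit 0, nat_lit 0, nat_lit 0, nat_lit 0, nat_lit 0, nat_lit 0, nat_lit 0, nat_lit 433000, nat_lit 0, nat_lit 0, [(nat_lit 13, [(nat_lit 1, nat_lit 945), (nat_lit 2, nat_lit 55)]), (nat_lit 16, [(nat_lit 1, nat_lit 945), (nat_lit 2, nat_lit 55)])],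
 ⟨p060_k17, nat_lit 0, nat_lit 0, nat_lit 405, nat_lit 0, nat_lit 331936, [nat_lit 2081814001, nat_lit 2825483001, nat_lit 2136560000], [], [nat_lit 31034669642, nat_lit 27920013875, nat_lit 28240013355, nat_lit 29573408431, nat_lit 25545983995, nat_lit 26920463791, nat_lit 27179009499, nat_lit 28320631331], nat_lit 1271250, nat_lit 1271250, nat_lit 780000, nat_lit 1762500, nat_lit 0, nat_lit 1100001, [nat_lit 780000, nat_lit 1435000, nat_lit 1271250], [nat_lit 23, nat_lit 40, nat_lit 40, nat_lit 80, nat_lit 12, nat_lit 428, nat_lit 200, nat_lit 11]⟩, ⟨p060_k15, nat_lit 0, nat_lit 0, nat_lit 568, nat_lit 0, nat_lit 420602, [nat_lit 0, nat_lit 0, nat_lit 0], [], [nat_lit 0, nat_lit 0, nat_lit 0, nat_lit 0, nat_lit 0, nat_lit 0, nat_lit 0, nat_lit 0], nat_lit 1271250, nat_lit 1271250, nat_lit 780000, nat_lit 1762500, nat_lit 0, nat_lit 2373000, [nat_lit 1100000, nat_lit 1785000, nat_lit 1271250], [nat_lit 37,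 nat_lit 40, nat_lit 40, nat_lit 80, nat_lit 28, nat_lit 456, nat_lit 225, nat_lit 11]⟩,
 ⟨nat_lit 4472, nat_lit 5478, ⟨.ofNat (nat_lit 392815), .ofNat (nat_lit 617523), .ofNat (nat_lit 435455), .ofNat (nat_lit 660148), .ofNat (nat_lit 407143), .ofNat (nat_lit 610987), .ofNat (nat_lit 450202), .ofNat (nat_lit 654031)⟩, ⟨.negSucc (nat_lit 45522), .ofNat (nat_lit 254209), .negSucc (nat_lit 2834), .ofNat (nat_lit 296923), .negSucc (nat_lit 12423), .ofNat (nat_lit 259489), .ofNat (nat_lit 0), .ofNat (nat_lit 302621)⟩⟩, []⟩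
noncomputable def p060_l50 : Lf2 := ⟨nat_lit 0, nat_lit 20, [nat_lit 5, nat_lit 5, nat_lit 5, nat_lit 20], false, nat_lit 160, nat_lit 300, nat_lit 0, nat_lit 336, ⟨nat_lit 0, nat_lit 1000, nat_lit 0, nat_lit 6, nat_lit 211, nat_lit 1000, nat_lit 161, nat_lit 0, nat_lit 0, nat_lit 0, nat_lit 0, nat_lit 0, nat_lit 0, nat_lit 0, nat_lit 0, nat_lit 5000000, false, false⟩,
 nat_lit 0, nat_lit 8371, nat_lit 0, nat_lit 0, nat_lit 5326, nat_lit 0, nat_lit 264, nat_lit 0, nat_lit 0, nat_lit 0, nat_lit 0, nat_lit 0, nat_lit 0, nat_lit 0, nat_lit 0, nat_lit 443200, nat_lit 0, nat_lit 0, [(nat_lit 13, [(nat_lit 1, nat_lit 928), (nat_lit 2, nat_lit 72)]), (nat_lit 16, [(nat_lit 1, nat_lit 928), (nat_lit 2, nat_lit 72)])],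
 ⟨p060_k17, nat_lit 0, nat_lit 0, nat_lit 243, nat_lit 0, nat_lit 331936, [nat_lit 2086372267, nat_lit 2810363201, nat_lit 2054144000], [], [nat_lit 21109283942, nat_lit 20952655945, nat_lit 21599452700, nat_lit 22344088777, nat_lit 22736921845, nat_lit 24405400458, nat_lit 23903596966, nat_lit 25326871312], nat_lit 1271250, nat_lit 1271250, nat_lit 780000, nat_lit 1762500, nat_lit 1271250, nat_lit 1271250, [nat_lit 780000, nat_lit 1435000, nat_lit 1271250], [nat_lit 23, nat_lit 40, nat_lit 40, nat_lit 80, nat_lit 12, nat_lit 456, nat_lit 225, nat_lit 11]⟩, ⟨p060_k15, nat_lit 0, nat_lit 0, nat_lit 568, nat_lit 0, nat_lit 420602, [nat_lit 0, nat_lit 0, nat_lit 0], [], [nat_lit 0, nat_lit 0, nat_lit 0, nat_lit 0, nat_lit 0, nat_lit 0, nat_lit 0, nat_lit 0], nat_lit 1271250, nat_lit 1271250, nat_lit 780000, nat_lit 1762500, nat_lit 0, nat_lit 2373000, [nat_lit 1100000, nat_lit 1785000, nat_lit 1271250], [nat_lit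 37, nat_lit 40, nat_lit 40, nat_lit 80, nat_lit 28, nat_lit 456, nat_lit 225, nat_lit 11]⟩,
 ⟨nat_lit 4472, nat_lit 5478, ⟨.ofNat (nat_lit 392815), .ofNat (nat_lit 617523), .ofNat (nat_lit 435455), .ofNat (nat_lit 660148), .ofNat (nat_lit 407143), .ofNat (nat_lit 610987), .ofNat (nat_lit 450202), .ofNat (nat_lit 654031)⟩, ⟨.ofNat (nat_lit 254209), .ofNat (nat_lit 516475), .ofNat (nat_lit 296923), .ofNat (nat_lit 559189), .ofNat (nat_lit 259489), .ofNat (nat_lit 497412), .ofNat (nat_lit 302621), .ofNat (nat_lit 540545)⟩⟩, [⟨nat_lit 4, nat_lit 100, nat_lit 90, nat_lit 74, nat_lit 299741012⟩]⟩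
noncomputable def p060_l51 : Lf2 := ⟨nat_lit 0, nat_lit 20, [nat_lit 5, nat_lit 5, nat_lit 5, nat_lit 20], false, nat_lit 0, nat_lit 160, nat_lit 0, nat_lit 336, ⟨nat_lit 550, nat_lit 450, nat_lit 0, nat_lit 6, nat_lit 311, nat_lit 450, nat_lit 56, nat_lit 0, nat_lit 0, nat_lit 0, nat_lit 0, nat_lit 0, nat_lit 0, nat_lit 0, nat_lit 0, nat_lit 5000000, true, true⟩,
 nat_lit 9205, nat_lit 0, nat_lit 0, nat_lit 0, nat_lit 5857, nat_lit 4873, nat_lit 254, nat_lit 0, nat_lit 0, nat_lit 384, nat_lit 0, nat_lit 0, nat_lit 0, nat_lit 0, nat_lit 0, nat_lit 450000, nat_lit 0, nat_lit 0, [(nat_lit 13, [(nat_lit 2, nat_lit 450)]), (nat_lit 16, [(nat_lit 2, nat_lit 450)])],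
 ⟨p060_k17, nat_lit 0, nat_lit 0, nat_lit 389, nat_lit 0, nat_lit 331936, [nat_lit 2855940001, nat_lit 4330750001, nat_lit 5429440000], [], [nat_lit 29573897108, nat_lit 31040613512, nat_lit 36277326050, nat_lit 37668203834, nat_lit 26482703977, nat_lit 27672653288, nat_lit 31217115312, nat_lit 32221800006], nat_lit 1271250, nat_lit 1271250, nat_lit 1271250, nat_lit 1271250, nat_lit 0, nat_lit 1100001, [nat_lit 780000, nat_lit 1435000, nat_lit 1271250], [nat_lit 23, nat_lit 40, nat_lit 40, nat_lit 80, nat_lit 12, nat_lit 456, nat_lit 225, nat_lit 11]⟩, ⟨p060_k15, nat_lit 0, nat_lit 0, nat_lit 474, nat_lit 0, nat_lit 420602, [nat_lit 2578400000, nat_lit 4382400000, nat_lit 7731900000], [], [nat_lit 20566406548, nat_lit 21038802164, nat_lit 24819275784, nat_lit 25295122980, nat_lit 17908129626, nat_lit 18028847964, nat_lit 20586500873, nat_lit 20708433462], nat_lit 1271250, nat_lit 1271250, nat_lit 1271250,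 nat_lit 1271250, nat_lit 0, nat_lit 2373000, [nat_lit 1100000, nat_lit 1785000, nat_lit 1271250], [nat_lit 37, nat_lit 40, nat_lit 40, nat_lit 80, nat_lit 28, nat_lit 538, nat_lit 300, nat_lit 12]⟩,
 ⟨nat_lit 4472, nat_lit 5478, ⟨.ofNat (nat_lit 617523), .ofNat (nat_lit 917115), .ofNat (nat_lit 660148), .ofNat (nat_lit 959740), .ofNat (nat_lit 610987), .ofNat (nat_lit 882759), .ofNat (nat_lit 654031), .ofNat (nat_lit 925804)⟩, ⟨.negSucc (nat_lit 45522), .ofNat (nat_lit 254209), .negSucc (nat_lit 2834), .ofNat (nat_lit 296923), .negSucc (nat_lit 12423), .ofNat (nat_lit 259489), .ofNat (nat_lit 0), .ofNat (nat_lit 302621)⟩⟩, [⟨nat_lit 7, nat_lit 92, nat_lit 100, nat_lit 75, nat_lit 3993992⟩, ⟨nat_lit 22, nat_lit 83, nat_lit 100, nat_lit 83, nat_lit 47583276⟩]⟩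
noncomputable def p060_l52 : Lf2 := ⟨nat_lit 0, nat_lit 20, [nat_lit 5, nat_lit 5, nat_lit 5, nat_lit 20], false, nat_lit 160, nat_lit 300, nat_lit 0, nat_lit 336, ⟨nat_lit 1000, nat_lit 0, nat_lit 0, nat_lit 0, nat_lit 0, nat_lit 0, nat_lit 0, nat_lit 0, nat_lit 0, nat_lit 0, nat_lit 0, nat_lit 0, nat_lit 0, nat_lit 0, nat_lit 0, nat_lit 0, false, false⟩,
 nat_lit 16257, nat_lit 0, nat_lit 0, nat_lit 2275, nat_lit 7044, nat_lit 8606, nat_lit 903, nat_lit 0, nat_lit 0, nat_lit 950, nat_lit 0, nat_lit 0, nat_lit 0, nat_lit 0, nat_lit 0, nat_lit 0, nat_lit 0, nat_lit 0, [],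
 ⟨p060_k17, nat_lit 0, nat_lit 0, nat_lit 211, nat_lit 0, nat_lit 205498, [nat_lit 3282000000, nat_lit 6250000000, nat_lit 11872000000], [], [nat_lit 22648720649, nat_lit 23746166673, nat_lit 31004902681, nat_lit 31641121984, nat_lit 26381236829, nat_lit 27159737301, nat_lit 33878470516, nat_lit 34663118554], nat_lit 1271250, nat_lit 1271250, nat_lit 1271250, nat_lit 1271250, nat_lit 1100001, nat_lit 2298750, [nat_lit 780000, nat_lit 1435000, nat_lit 1271250], [nat_lit 23, nat_lit 40, nat_lit 40, nat_lit 80, nat_lit 12, nat_lit 483, nat_lit 250, nat_lit 11]⟩, ⟨p060_k15, nat_lit 0, nat_lit 0, nat_lit 422, nat_lit 0, nat_lit 260390, [nat_lit 4688000000, nat_lit 7968000000, nat_lit 14058000000], [], [nat_lit 33496231280, nat_lit 34843857856, nat_lit 42289406648, nat_lit 43156906960, nat_lit 30885684210, nat_lit 30570452223, nat_lit 36313537199, nat_lit 37328372972], nat_lit 1271250, nat_lit 1271250, nat_lit 1271250,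 nat_lit 1271250, nat_lit 0, nat_lit 2373000, [nat_lit 1100000, nat_lit 1785000, nat_lit 1271250], [nat_lit 37, nat_lit 40, nat_lit 40, nat_lit 80, nat_lit 28, nat_lit 538, nat_lit 300, nat_lit 12]⟩,
 zbF0, [⟨nat_lit 4, nat_lit 100, nat_lit 94, nat_lit 75, nat_lit 464632387⟩, ⟨nat_lit 7, nat_lit 92, nat_lit 100, nat_lit 75, nat_lit 136810368⟩]⟩
noncomputable def p060_l53 : Lf2 := ⟨nat_lit 0, nat_lit 20, [nat_lit 5, nat_lit 5, nat_lit 5, nat_lit 20], false, nat_lit 160, nat_lit 280, nat_lit 0, nat_lit 336, ⟨nat_lit 693, nat_lit 307, nat_lit 0, nat_lit 6, nat_lit 309, nat_lit 307, nat_lit 154, nat_lit 0, nat_lit 0, nat_lit 0, nat_lit 0, nat_lit 0, nat_lit 0, nat_lit 0, nat_lit 0, nat_lit 5000000, true, true⟩,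
 nat_lit 10738, nat_lit 0, nat_lit 0, nat_lit 0, nat_lit 6302, nat_lit 5684, nat_lit 497, nat_lit 0, nat_lit 0, nat_lit 555, nat_lit 0, nat_lit 0, nat_lit 0, nat_lit 0, nat_lit 0, nat_lit 76750, nat_lit 0, nat_lit 0, [(nat_lit 16, [(nat_lit 0, nat_lit 307)])],
 ⟨p060_k14, nat_lit 0, nat_lit 0, nat_lit 218, nat_lit 0, nat_lit 298582, [nat_lit 2991332400, nat_lit 5174190134, nat_lit 7859271200], [], [nat_lit 23880848287, nat_lit 24791214211, nat_lit 31121399258, nat_lit 31819092698, nat_lit 26315459379, nat_lit 27012139403, nat_lit 33150915902, nat_lit 33954636248], nat_lit 1271250, nat_lit 1271250, nat_lit 1271250, nat_lit 1271250, nat_lit 1100001, nat_lit 2127500, [nat_lit 780000, nat_lit 1435000, nat_lit 1271250], [nat_lit 8, nat_lit 40, nat_lit 40, nat_lit 80, nat_lit 1, nat_lit 401, nat_lit 175, nat_lit 10]⟩, ⟨p060_k15, nat_lit 0, nat_lit 0, nat_lit 474, nat_lit 0, nat_lit 420602, [nat_lit 3248784000, nat_lit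 5521824000, nat_lit 9742194000], [], [nat_lit 26057889596, nat_lit 26653202916, nat_lit 29984393856, nat_lit 30588132628, nat_lit 23252029325, nat_lit 23430088448, nat_lit 25456337503, nat_lit 25552608408], nat_lit 1271250, nat_lit 1271250, nat_lit 1271250, nat_lit 1271250, nat_lit 0, nat_lit 2373000, [nat_lit 1100000, nat_lit 1785000, nat_lit 1271250], [nat_lit 37, nat_lit 40, nat_lit 40, nat_lit 80, nat_lit 28, nat_lit 538, nat_lit 300, nat_lit 12]⟩,
 ⟨nat_lit 4472, nat_lit 5000, ⟨.ofNat (nat_lit 614256), .ofNat (nat_lit 899951), .ofNat (nat_lit 657088), .ofNat (nat_lit 942783), .ofNat (nat_lit 611081), .ofNat (nat_lit 882974), .ofNat (nat_lit 654189), .ofNat (nat_lit 926083)⟩, ⟨.ofNat (nat_lit 257141), .ofNat (nat_lit 471427), .ofNat (nat_lit 299999), .ofNat (nat_lit 514284), .ofNat (nat_lit 259489), .ofNat (nat_lit 463423), .ofNat (nat_lit 302621), .ofNat (nat_lit 506556)⟩⟩, [⟨nat_lit 4, nat_lit 100, nat_lit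 85, nat_lit 73, nat_lit 428066166⟩, ⟨nat_lit 7, nat_lit 92, nat_lit 100, nat_lit 75, nat_lit 74756168⟩]⟩
noncomputable def b_V_700_600_10_48 : St := ⟨true, nat_lit 1, nat_lit 2, nat_lit 2, nat_lit 80, nat_lit 280, nat_lit 320, nat_lit 240, nat_lit 280, nat_lit 36, nat_lit 400, nat_lit 40, nat_lit 80, nat_lit 0, nat_lit 300, nat_lit 0, nat_lit 336, nat_lit 40, nat_lit 80, nat_lit 0, nat_lit 0, nat_lit 0, nat_lit 0⟩
theorem d_V_700_600_10_48 (h : EB TB.env) : Dead b_V_700_600_10_48 := chkB_sound0 h (T :=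
(.st (nat_lit 1)
(.spl (nat_lit 2) (nat_lit 120)
(.spl (nat_lit 4) (nat_lit 160)
(.leaf p060_l39)
(.leaf p060_l40))
(.spl (nat_lit 2) (nat_lit 240)
(.spl (nat_lit 4) (nat_lit 160)
(.spl (nat_lit 0) (nat_lit 300)
(.leaf p060_l41)
(.leaf p060_l42))
(.spl (nat_lit 0) (nat_lit 300)
(.leaf p060_l43)
(.trX (nat_lit 16) (nat_lit 94) (nat_lit 100) (nat_lit 87) (nat_lit 280) (.leaf p060_l44))))
(.spl (nat_lit 5) (nat_lit 160)
(.leaf p060_l45)
(.leaf p060_l46))))
(.spl (nat_lit 2) (nat_lit 120)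
(.spl (nat_lit 2) (nat_lit 80)
(.leaf p060_l47)
(.leaf p060_l48))
(.spl (nat_lit 2) (nat_lit 240)
(.spl (nat_lit 4) (nat_lit 160)
(.leaf p060_l49)
(.leaf p060_l50))
(.spl (nat_lit 4) (nat_lit 160)
(.leaf p060_l51)
(.spl (nat_lit 0) (nat_lit 300)
(.leaf p060_l52)
(.trX (nat_lit 16) (nat_lit 94) (nat_lit 100) (nat_lit 87) (nat_lit 280) (.leaf p060_l53)))))))) (by decide +kernel)
noncomputable def p060_l54 : Lf2 := ⟨nat_lit 1, nat_lit 15, [nat_lit 30, nat_lit 5, nat_lit 5, nat_lit 20], false, nat_lit 0, nat_lit 276, nat_lit 0, nat_lit 312, zbN0,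
 nat_lit 0, nat_lit 0, nat_lit 0, nat_lit 0, nat_lit 0, nat_lit 0, nat_lit 0, nat_lit 0, nat_lit 0, nat_lit 0, nat_lit 0, nat_lit 0, nat_lit 0, nat_lit 0, nat_lit 0, nat_lit 0, nat_lit 0, nat_lit 0, [],
 C1.Rw.none, C1.Rw.none,
 zbF0, []⟩
noncomputable def p060_l55 : Lf2 := ⟨nat_lit 0, nat_lit 15, [nat_lit 30, nat_lit 5, nat_lit 5, nat_lit 20], true, nat_lit 0, nat_lit 256, nat_lit 0, nat_lit 312, ⟨nat_lit 0, nat_lit 0, nat_lit 1000, nat_lit 6, nat_lit 145, nat_lit 1000, nat_lit 87, nat_lit 1000, nat_lit 68267, nat_lit 279, nat_lit 198017, nat_lit 324, nat_lit 59224880, nat_lit 0, nat_lit 0, nat_lit 1794864, false, false⟩,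
 nat_lit 0, nat_lit 0, nat_lit 0, nat_lit 7667, nat_lit 3859, nat_lit 0, nat_lit 0, nat_lit 0, nat_lit 0, nat_lit 0, nat_lit 0, nat_lit 0, nat_lit 0, nat_lit 0, nat_lit 100, nat_lit 361600, nat_lit 0, nat_lit 0, [(nat_lit 16, [(nat_lit 4, nat_lit 256), (nat_lit 5, nat_lit 744)])],
 ⟨p060_k8, nat_lit 0, nat_lit 0, nat_lit 221, nat_lit 0, nat_lit 0, [nat_lit 2800723200, nat_lit 1135609600, nat_lit 205721600], [], [nat_lit 17375313422, nat_lit 18822397676, nat_lit 16876444374, nat_lit 18223309648, nat_lit 18953720284, nat_lit 20118557173, nat_lit 18577575875, nat_lit 19598167061], nat_lit 0, nat_lit 0, nat_lit 0, nat_lit 0, nat_lit 0, nat_lit 0, [], [nat_lit 8, nat_lit 40, nat_lit 40, nat_lit 80, nat_lit 1, nat_lit 317, nat_lit 100, nat_lit 9]⟩, C1.Rw.none,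
 ⟨nat_lit 4472, nat_lit 5000, ⟨.ofNat (nat_lit 271418), .ofNat (nat_lit 399984), .ofNat (nat_lit 314253), .ofNat (nat_lit 442816), .ofNat (nat_lit 284805), .ofNat (nat_lit 407160), .ofNat (nat_lit 327916), .ofNat (nat_lit 450269)⟩, ⟨.negSucc (nat_lit 28572), .ofNat (nat_lit 428570), .negSucc (nat_lit 7143), .ofNat (nat_lit 449999), .negSucc (nat_lit 12423), .ofNat (nat_lit 422636), .ofNat (nat_lit 0), .ofNat (nat_lit 444203)⟩⟩, [⟨nat_lit 0, nat_lit 100, nat_lit 87, nat_lit 95, nat_lit 153849483⟩]⟩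
noncomputable def p060_l56 : Lf2 := ⟨nat_lit 0, nat_lit 15, [nat_lit 30, nat_lit 5, nat_lit 5, nat_lit 20], false, nat_lit 0, nat_lit 276, nat_lit 0, nat_lit 312, ⟨nat_lit 1000, nat_lit 0, nat_lit 0, nat_lit 0, nat_lit 0, nat_lit 0, nat_lit 0, nat_lit 0, nat_lit 0, nat_lit 0, nat_lit 0, nat_lit 0, nat_lit 0, nat_lit 0, nat_lit 0, nat_lit 0, false, false⟩,
 nat_lit 0, nat_lit 0, nat_lit 0, nat_lit 4862, nat_lit 15403, nat_lit 20306, nat_lit 0, nat_lit 0, nat_lit 0, nat_lit 0, nat_lit 0, nat_lit 0, nat_lit 0, nat_lit 0, nat_lit 0, nat_lit 0, nat_lit 0, nat_lit 0, [],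
 ⟨p060_k0, nat_lit 0, nat_lit 0, nat_lit 182, nat_lit 0, nat_lit 0, [nat_lit 3282000000, nat_lit 6250000000, nat_lit 9842000000], [], [nat_lit 29680141500, nat_lit 36222318416, nat_lit 33006581580, nat_lit 38295841440, nat_lit 22678817812, nat_lit 26574930250, nat_lit 23151961593, nat_lit 28166826749], nat_lit 0, nat_lit 0, nat_lit 0, nat_lit 0, nat_lit 0, nat_lit 0, [], [nat_lit 8, nat_lit 40, nat_lit 40, nat_lit 80, nat_lit 1, nat_lit 373, nat_lit 150, nat_lit 11]⟩, ⟨p060_k1, nat_lit 0, nat_lit 0, nat_lit 212, nat_lit 0, nat_lit 0, [nat_lit 4688000000, nat_lit 7968000000, nat_lit 11872000000], [], [nat_lit 34922090480, nat_lit 40614936832, nat_lit 37851172616, nat_lit 41938790368, nat_lit 26617727480, nat_lit 29161880055, nat_lit 24798270478, nat_lit 28955626081], nat_lit 0, nat_lit 0, nat_lit 0, nat_lit 0, nat_lit 0, nat_lit 0, [], [nat_lit 21, nat_lit 40, nat_lit 40, nat_lit 80, nat_lit 14, nat_lit 456,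 nat_lit 225, nat_lit 12]⟩,
 zbF0, []⟩
noncomputable def p060_l57 : Lf2 := ⟨nat_lit 1, nat_lit 15, [nat_lit 30, nat_lit 5, nat_lit 5, nat_lit 20], false, nat_lit 0, nat_lit 276, nat_lit 0, nat_lit 312, zbN0,
 nat_lit 0, nat_lit 0, nat_lit 0, nat_lit 0, nat_lit 0, nat_lit 0, nat_lit 0, nat_lit 0, nat_lit 0, nat_lit 0, nat_lit 0, nat_lit 0, nat_lit 0, nat_lit 0, nat_lit 0, nat_lit 0, nat_lit 0, nat_lit 0, [],
 C1.Rw.none, C1.Rw.none,
 zbF0, []⟩
noncomputable def p060_l58 : Lf2 := ⟨nat_lit 1, nat_lit 20, [nat_lit 5, nat_lit 5, nat_lit 5, nat_lit 20], false, nat_lit 0, nat_lit 300, nat_lit 0, nat_lit 336, zbN0,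
 nat_lit 0, nat_lit 0, nat_lit 0, nat_lit 0, nat_lit 0, nat_lit 0, nat_lit 0, nat_lit 0, nat_lit 0, nat_lit 0, nat_lit 0, nat_lit 0, nat_lit 0, nat_lit 0, nat_lit 0, nat_lit 0, nat_lit 0, nat_lit 0, [],
 C1.Rw.none, C1.Rw.none,
 zbF0, []⟩
noncomputable def p060_l59 : Lf2 := ⟨nat_lit 1, nat_lit 20, [nat_lit 5, nat_lit 5, nat_lit 5, nat_lit 20], false, nat_lit 0, nat_lit 300, nat_lit 0, nat_lit 336, zbN0,
 nat_lit 0, nat_lit 0, nat_lit 0, nat_lit 0, nat_lit 0, nat_lit 0, nat_lit 0, nat_lit 0, nat_lit 0, nat_lit 0, nat_lit 0, nat_lit 0, nat_lit 0, nat_lit 0, nat_lit 0, nat_lit 0, nat_lit 0, nat_lit 0, [],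
 C1.Rw.none, C1.Rw.none,
 zbF0, []⟩
noncomputable def p060_l60 : Lf2 := ⟨nat_lit 0, nat_lit 20, [nat_lit 5, nat_lit 5, nat_lit 5, nat_lit 20], false, nat_lit 0, nat_lit 280, nat_lit 0, nat_lit 336, ⟨nat_lit 1000, nat_lit 0, nat_lit 0, nat_lit 0, nat_lit 0, nat_lit 0, nat_lit 0, nat_lit 0, nat_lit 0, nat_lit 0, nat_lit 0, nat_lit 0, nat_lit 0, nat_lit 0, nat_lit 0, nat_lit 0, false, false⟩,
 nat_lit 0, nat_lit 0, nat_lit 0, nat_lit 7504, nat_lit 9127, nat_lit 12485, nat_lit 0, nat_lit 0, nat_lit 0, nat_lit 0, nat_lit 0, nat_lit 0, nat_lit 0, nat_lit 0, nat_lit 0, nat_lit 0, nat_lit 0, nat_lit 0, [],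
 ⟨p060_k19, nat_lit 0, nat_lit 0, nat_lit 200, nat_lit 0, nat_lit 0, [nat_lit 3282000000, nat_lit 9842000000], [], [nat_lit 33741456438, nat_lit 35467060656, nat_lit 45878314608, nat_lit 46809232800, nat_lit 29658855606, nat_lit 30718704586, nat_lit 37248199345, nat_lit 37806050464], nat_lit 0, nat_lit 0, nat_lit 0, nat_lit 0, nat_lit 0, nat_lit 0, [], [nat_lit 82, nat_lit 40, nat_lit 40, nat_lit 80, nat_lit 63, nat_lit 401, nat_lit 175, nat_lit 11]⟩, ⟨p060_k20, nat_lit 0, nat_lit 0, nat_lit 256, nat_lit 0, nat_lit 0, [nat_lit 4688000000, nat_lit 14058000000], [], [nat_lit 43470047760, nat_lit 45852923900, nat_lit 56687600880, nat_lit 57519616100, nat_lit 37065036632, nat_lit 37932117996, nat_lit 43352906797, nat_lit 43341100212], nat_lit 0, nat_lit 0, nat_lit 0, nat_lit 0, nat_lit 0, nat_lit 0, [], [nat_lit 145, nat_lit 40, nat_lit 40, nat_lit 80, nat_lit 144, nat_lit 538, nat_lit 300, nat_lit 12]⟩,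
 zbF0, [⟨nat_lit 4, nat_lit 100, nat_lit 85, nat_lit 73, nat_lit 24135155⟩]⟩
noncomputable def p060_l61 : Lf2 := ⟨nat_lit 1, nat_lit 15, [nat_lit 30, nat_lit 5, nat_lit 5, nat_lit 20], false, nat_lit 0, nat_lit 160, nat_lit 0, nat_lit 312, zbN0,
 nat_lit 0, nat_lit 0, nat_lit 0, nat_lit 0, nat_lit 0, nat_lit 0, nat_lit 0, nat_lit 0, nat_lit 0, nat_lit 0, nat_lit 0, nat_lit 0, nat_lit 0, nat_lit 0, nat_lit 0, nat_lit 0, nat_lit 0, nat_lit 0, [],
 C1.Rw.none, C1.Rw.none,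
 zbF0, []⟩
noncomputable def p060_l62 : Lf2 := ⟨nat_lit 0, nat_lit 15, [nat_lit 30, nat_lit 5, nat_lit 5, nat_lit 20], true, nat_lit 0, nat_lit 160, nat_lit 0, nat_lit 312, ⟨nat_lit 0, nat_lit 0, nat_lit 1000, nat_lit 6, nat_lit 159, nat_lit 592, nat_lit 54, nat_lit 1000, nat_lit 25350, nat_lit 254, nat_lit 19267, nat_lit 249, nat_lit 57870892, nat_lit 0, nat_lit 0, nat_lit 1990534, false, false⟩,
 nat_lit 0, nat_lit 0, nat_lit 0, nat_lit 5528, nat_lit 3097, nat_lit 0, nat_lit 0, nat_lit 0, nat_lit 0, nat_lit 0, nat_lit 0, nat_lit 0, nat_lit 0, nat_lit 0, nat_lit 122, nat_lit 449800, nat_lit 0, nat_lit 0, [(nat_lit 16, [(nat_lit 5, nat_lit 917), (nat_lit 6, nat_lit 83)])],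
 ⟨p060_k8, nat_lit 0, nat_lit 0, nat_lit 221, nat_lit 0, nat_lit 0, [nat_lit 2758512000, nat_lit 1361314401, nat_lit 114004800], [], [nat_lit 16059442373, nat_lit 17348288708, nat_lit 16845694504, nat_lit 17895618700, nat_lit 15964455920, nat_lit 16986321977, nat_lit 16792157542, nat_lit 17693670336], nat_lit 0, nat_lit 0, nat_lit 0, nat_lit 0, nat_lit 0, nat_lit 0, [], [nat_lit 8, nat_lit 40, nat_lit 40, nat_lit 80, nat_lit 1, nat_lit 317, nat_lit 100, nat_lit 9]⟩, C1.Rw.none,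
 ⟨nat_lit 4472, nat_lit 5000, ⟨.ofNat (nat_lit 271418), .ofNat (nat_lit 471408), .ofNat (nat_lit 314253), .ofNat (nat_lit 514240), .ofNat (nat_lit 284805), .ofNat (nat_lit 475134), .ofNat (nat_lit 327916), .ofNat (nat_lit 518242)⟩, ⟨.negSucc (nat_lit 28572), .ofNat (nat_lit 257141), .negSucc (nat_lit 7143), .ofNat (nat_lit 278570), .negSucc (nat_lit 12423), .ofNat (nat_lit 259489), .ofNat (nat_lit 0), .ofNat (nat_lit 281055)⟩⟩, [⟨nat_lit 0, nat_lit 100, nat_lit 87, nat_lit 95, nat_lit 45369659⟩]⟩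
noncomputable def p060_l63 : Lf2 := ⟨nat_lit 0, nat_lit 15, [nat_lit 30, nat_lit 5, nat_lit 5, nat_lit 20], true, nat_lit 160, nat_lit 276, nat_lit 0, nat_lit 312, ⟨nat_lit 0, nat_lit 0, nat_lit 1000, nat_lit 6, nat_lit 153, nat_lit 1000, nat_lit 148, nat_lit 1000, nat_lit 45067, nat_lit 267, nat_lit 19267, nat_lit 249, nat_lit 50025164, nat_lit 0, nat_lit 0, nat_lit 3969562, false, false⟩,
 nat_lit 0, nat_lit 0, nat_lit 0, nat_lit 10958, nat_lit 5107, nat_lit 0, nat_lit 0, nat_lit 0, nat_lit 0, nat_lit 0, nat_lit 0, nat_lit 0, nat_lit 0, nat_lit 0, nat_lit 66, nat_lit 250000, nat_lit 0, nat_lit 0, [(nat_lit 13, [(nat_lit 4, nat_lit 1000)]), (nat_lit 16, [(nat_lit 4, nat_lit 1000)])],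
 ⟨p060_k0, nat_lit 0, nat_lit 0, nat_lit 145, nat_lit 0, nat_lit 0, [nat_lit 3247200000, nat_lit 1028000001, nat_lit 267600000], [], [nat_lit 15371385494, nat_lit 18250231739, nat_lit 15014279300, nat_lit 17363824692, nat_lit 19922702312, nat_lit 23108280264, nat_lit 18826516555, nat_lit 21712251354], nat_lit 0, nat_lit 0, nat_lit 0, nat_lit 0, nat_lit 0, nat_lit 0, [], [nat_lit 8, nat_lit 40, nat_lit 40, nat_lit 80, nat_lit 1, nat_lit 345, nat_lit 125, nat_lit 10]⟩, C1.Rw.none,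
 ⟨nat_lit 4472, nat_lit 5478, ⟨.ofNat (nat_lit 235487), .ofNat (nat_lit 467727), .ofNat (nat_lit 278138), .ofNat (nat_lit 510352), .ofNat (nat_lit 264421), .ofNat (nat_lit 475101), .ofNat (nat_lit 307491), .ofNat (nat_lit 518145)⟩, ⟨.ofNat (nat_lit 254209), .ofNat (nat_lit 471515), .ofNat (nat_lit 275566), .ofNat (nat_lit 492872), .ofNat (nat_lit 259489), .ofNat (nat_lit 456625), .ofNat (nat_lit 281055), .ofNat (nat_lit 478192)⟩⟩, [⟨nat_lit 0, nat_lit 100, nat_lit 87, nat_lit 95, nat_lit 114762961⟩, ⟨nat_lit 4, nat_lit 100, nat_lit 88, nat_lit 67, nat_lit 356740587⟩]⟩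
noncomputable def p060_l64 : Lf2 := ⟨nat_lit 0, nat_lit 15, [nat_lit 30, nat_lit 5, nat_lit 5, nat_lit 20], false, nat_lit 0, nat_lit 276, nat_lit 0, nat_lit 312, ⟨nat_lit 1000, nat_lit 0, nat_lit 0, nat_lit 0, nat_lit 0, nat_lit 0, nat_lit 0, nat_lit 0, nat_lit 0, nat_lit 0, nat_lit 0, nat_lit 0, nat_lit 0, nat_lit 0, nat_lit 0, nat_lit 0, false, false⟩,
 nat_lit 0, nat_lit 0, nat_lit 44668, nat_lit 73742, nat_lit 14972, nat_lit 23647, nat_lit 0, nat_lit 0, nat_lit 0, nat_lit 0, nat_lit 0, nat_lit 0, nat_lit 0, nat_lit 0, nat_lit 0, nat_lit 0, nat_lit 0, nat_lit 0, [],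
 ⟨p060_k0, nat_lit 0, nat_lit 0, nat_lit 173, nat_lit 0, nat_lit 0, [nat_lit 3282000000, nat_lit 6250000000, nat_lit 9842000000], [], [nat_lit 29327602400, nat_lit 35267335472, nat_lit 32938543920, nat_lit 37789442816, nat_lit 22090723341, nat_lit 25620123138, nat_lit 23332373784, nat_lit 27991440177], nat_lit 0, nat_lit 0, nat_lit 0, nat_lit 0, nat_lit 0, nat_lit 0, [], [nat_lit 8, nat_lit 40, nat_lit 40, nat_lit 80, nat_lit 1, nat_lit 373, nat_lit 150, nat_lit 11]⟩, ⟨p060_k1, nat_lit 0, nat_lit 0, nat_lit 223, nat_lit 0, nat_lit 55009, [nat_lit 4688000000, nat_lit 7968000000, nat_lit 11872000000], [], [nat_lit 65410256480, nat_lit 40497334772, nat_lit 38698570492, nat_lit 43266263216, nat_lit 50800668456, nat_lit 29044700128, nat_lit 25370574125, nat_lit 30141280160], nat_lit 1271250, nat_lit 1271250, nat_lit 1271250, nat_lit 1271250, nat_lit 0, nat_lit 2203500, [nat_lit 1100000, nat_lit 1785000, nat_lit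 1271250], [nat_lit 21, nat_lit 40, nat_lit 40, nat_lit 80, nat_lit 14, nat_lit 456, nat_lit 225, nat_lit 12]⟩,
 zbF0, []⟩
noncomputable def p060_l65 : Lf2 := ⟨nat_lit 1, nat_lit 15, [nat_lit 30, nat_lit 5, nat_lit 5, nat_lit 20], false, nat_lit 0, nat_lit 276, nat_lit 0, nat_lit 312, zbN0,
 nat_lit 0, nat_lit 0, nat_lit 0, nat_lit 0, nat_lit 0, nat_lit 0, nat_lit 0, nat_lit 0, nat_lit 0, nat_lit 0, nat_lit 0, nat_lit 0, nat_lit 0, nat_lit 0, nat_lit 0, nat_lit 0, nat_lit 0, nat_lit 0, [],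
 C1.Rw.none, C1.Rw.none,
 zbF0, []⟩
noncomputable def p060_l66 : Lf2 := ⟨nat_lit 1, nat_lit 20, [nat_lit 5, nat_lit 5, nat_lit 5, nat_lit 20], false, nat_lit 0, nat_lit 300, nat_lit 0, nat_lit 336, zbN0,
 nat_lit 0, nat_lit 0, nat_lit 0, nat_lit 0, nat_lit 0, nat_lit 0, nat_lit 0, nat_lit 0, nat_lit 0, nat_lit 0, nat_lit 0, nat_lit 0, nat_lit 0, nat_lit 0, nat_lit 0, nat_lit 0, nat_lit 0, nat_lit 0, [],
 C1.Rw.none, C1.Rw.none,
 zbF0, []⟩
noncomputable def p060_l67 : Lf2 := ⟨nat_lit 0, nat_lit 15, [nat_lit 30, nat_lit 5, nat_lit 5, nat_lit 20], false, nat_lit 0, nat_lit 276, nat_lit 0, nat_lit 312, ⟨nat_lit 1000, nat_lit 0, nat_lit 0, nat_lit 0, nat_lit 0, nat_lit 0, nat_lit 0, nat_lit 0, nat_lit 0, nat_lit 0, nat_lit 0, nat_lit 0, nat_lit 0, nat_lit 0, nat_lit 0, nat_lit 0, false, false⟩,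
 nat_lit 0, nat_lit 0, nat_lit 19926, nat_lit 0, nat_lit 9127, nat_lit 10549, nat_lit 0, nat_lit 0, nat_lit 0, nat_lit 0, nat_lit 0, nat_lit 0, nat_lit 0, nat_lit 0, nat_lit 0, nat_lit 0, nat_lit 0, nat_lit 0, [],
 ⟨p060_k0, nat_lit 0, nat_lit 0, nat_lit 219, nat_lit 0, nat_lit 0, [nat_lit 3282000000, nat_lit 6250000000, nat_lit 9842000000], [], [nat_lit 32015852220, nat_lit 35467060656, nat_lit 44947396416, nat_lit 46809232800, nat_lit 28407291527, nat_lit 30553983822, nat_lit 36597229905, nat_lit 37730131645], nat_lit 0, nat_lit 0, nat_lit 0, nat_lit 0, nat_lit 0, nat_lit 0, [], [nat_lit 8, nat_lit 40, nat_lit 40, nat_lit 80, nat_lit 1, nat_lit 401, nat_lit 175, nat_lit 11]⟩, ⟨p060_k1, nat_lit 0, nat_lit 0, nat_lit 269, nat_lit 0, nat_lit 55750, [nat_lit 4688000000, nat_lit 7968000000, nat_lit 11872000000], [], [nat_lit 36141481812, nat_lit 38062061072, nat_lit 49295973664, nat_lit 50440973600, nat_lit 31793067681,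 nat_lit 33093929066, nat_lit 39472718488, nat_lit 39865941610], nat_lit 1271250, nat_lit 1271250, nat_lit 1271250, nat_lit 1271250, nat_lit 0, nat_lit 2203500, [nat_lit 1100000, nat_lit 1785000, nat_lit 1271250], [nat_lit 21, nat_lit 40, nat_lit 40, nat_lit 80, nat_lit 14, nat_lit 483, nat_lit 250, nat_lit 12]⟩,
 zbF0, [⟨nat_lit 16, nat_lit 88, nat_lit 100, nat_lit 67, nat_lit 17461780⟩, ⟨nat_lit 19, nat_lit 100, nat_lit 96, nat_lit 69, nat_lit 20394233⟩]⟩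
noncomputable def p060_l68 : Lf2 := ⟨nat_lit 1, nat_lit 20, [nat_lit 5, nat_lit 5, nat_lit 5, nat_lit 20], false, nat_lit 0, nat_lit 300, nat_lit 0, nat_lit 336, zbN0,
 nat_lit 0, nat_lit 0, nat_lit 0, nat_lit 0, nat_lit 0, nat_lit 0, nat_lit 0, nat_lit 0, nat_lit 0, nat_lit 0, nat_lit 0, nat_lit 0, nat_lit 0, nat_lit 0, nat_lit 0, nat_lit 0, nat_lit 0, nat_lit 0, [],
 C1.Rw.none, C1.Rw.none,
 zbF0, []⟩
noncomputable def p060_l69 : Lf2 := ⟨nat_lit 0, nat_lit 20, [nat_lit 5, nat_lit 5, nat_lit 5, nat_lit 20], true, nat_lit 0, nat_lit 300, nat_lit 0, nat_lit 336, ⟨nat_lit 0, nat_lit 1000, nat_lit 0, nat_lit 6, nat_lit 181, nat_lit 1000, nat_lit 106, nat_lit 0, nat_lit 0, nat_lit 0, nat_lit 0, nat_lit 0, nat_lit 0, nat_lit 0, nat_lit 0, nat_lit 5000000, false, false⟩,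
 nat_lit 0, nat_lit 0, nat_lit 0, nat_lit 5961, nat_lit 5423, nat_lit 0, nat_lit 383, nat_lit 0, nat_lit 0, nat_lit 0, nat_lit 0, nat_lit 0, nat_lit 0, nat_lit 0, nat_lit 0, nat_lit 250000, nat_lit 0, nat_lit 0, [(nat_lit 13, [(nat_lit 0, nat_lit 1000)]), (nat_lit 16, [(nat_lit 0, nat_lit 1000)])],
 ⟨p060_k17, nat_lit 0, nat_lit 0, nat_lit 347, nat_lit 0, nat_lit 0, [nat_lit 2378400000, nat_lit 3128000000, nat_lit 3715520000], [], [nat_lit 23882129588, nat_lit 26665745024, nat_lit 24450016869, nat_lit 26471870449, nat_lit 24967769031, nat_lit 26853133045, nat_lit 24355268768, nat_lit 25782223366], nat_lit 0, nat_lit 0, nat_lit 0, nat_lit 0, nat_lit 0, nat_lit 0, [], [nat_lit 23, nat_lit 40, nat_lit 40, nat_lit 80, nat_lit 12, nat_lit 456, nat_lit 225, nat_lit 12]⟩, C1.Rw.none,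
 ⟨nat_lit 4472, nat_lit 5478, ⟨.ofNat (nat_lit 235487), .ofNat (nat_lit 617523), .ofNat (nat_lit 278138), .ofNat (nat_lit 660148), .ofNat (nat_lit 264421), .ofNat (nat_lit 610987), .ofNat (nat_lit 307491), .ofNat (nat_lit 654031)⟩, ⟨.negSucc (nat_lit 45522), .ofNat (nat_lit 516475), .negSucc (nat_lit 2834), .ofNat (nat_lit 559189), .negSucc (nat_lit 12423), .ofNat (nat_lit 497412), .ofNat (nat_lit 0), .ofNat (nat_lit 540545)⟩⟩, [⟨nat_lit 4, nat_lit 100, nat_lit 90, nat_lit 74, nat_lit 82688705⟩]⟩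
noncomputable def p060_l70 : Lf2 := ⟨nat_lit 1, nat_lit 20, [nat_lit 5, nat_lit 5, nat_lit 5, nat_lit 20], false, nat_lit 0, nat_lit 300, nat_lit 0, nat_lit 336, zbN0,
 nat_lit 0, nat_lit 0, nat_lit 0, nat_lit 0, nat_lit 0, nat_lit 0, nat_lit 0, nat_lit 0, nat_lit 0, nat_lit 0, nat_lit 0, nat_lit 0, nat_lit 0, nat_lit 0, nat_lit 0, nat_lit 0, nat_lit 0, nat_lit 0, [],
 C1.Rw.none, C1.Rw.none,
 zbF0, []⟩
noncomputable def p060_l71 : Lf2 := ⟨nat_lit 0, nat_lit 20, [nat_lit 5, nat_lit 5, nat_lit 5, nat_lit 20], false, nat_lit 0, nat_lit 280, nat_lit 0, nat_lit 336, ⟨nat_lit 830, nat_lit 170, nat_lit 0, nat_lit 6, nat_lit 309, nat_lit 170, nat_lit 98, nat_lit 0, nat_lit 0, nat_lit 0, nat_lit 0, nat_lit 0, nat_lit 0, nat_lit 0, nat_lit 0, nat_lit 5000000, true, true⟩,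
 nat_lit 0, nat_lit 0, nat_lit 0, nat_lit 5742, nat_lit 8480, nat_lit 9613, nat_lit 0, nat_lit 0, nat_lit 0, nat_lit 0, nat_lit 0, nat_lit 0, nat_lit 0, nat_lit 0, nat_lit 0, nat_lit 42500, nat_lit 0, nat_lit 0, [(nat_lit 16, [(nat_lit 0, nat_lit 170)])],
 ⟨p060_k19, nat_lit 0, nat_lit 0, nat_lit 200, nat_lit 0, nat_lit 0, [nat_lit 3121044001, nat_lit 8744072000], [], [nat_lit 32463925120, nat_lit 34112061440, nat_lit 44080135920, nat_lit 44998898880, nat_lit 29078412440, nat_lit 30100256640, nat_lit 36414418800, nat_lit 36964831360], nat_lit 0, nat_lit 0, nat_lit 0, nat_lit 0, nat_lit 0, nat_lit 0, [], [nat_lit 82, nat_lit 40, nat_lit 40, nat_lit 80, nat_lit 63, nat_lit 401, nat_lit 175, nat_lit 11]⟩, ⟨p060_k20, nat_lit 0, nat_lit 0, nat_lit 256, nat_lit 0, nat_lit 0, [nat_lit 3891040000, nat_lit 11668140000], [], [nat_lit 35645988288, nat_lit 37547528260, nat_lit 46101922344, nat_lit 46799351860, nat_lit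 31134069818, nat_lit 31855634417, nat_lit 36200062073, nat_lit 36238544422], nat_lit 0, nat_lit 0, nat_lit 0, nat_lit 0, nat_lit 0, nat_lit 0, [], [nat_lit 145, nat_lit 40, nat_lit 40, nat_lit 80, nat_lit 144, nat_lit 538, nat_lit 300, nat_lit 12]⟩,
 ⟨nat_lit 4472, nat_lit 5000, ⟨.ofNat (nat_lit 614256), .ofNat (nat_lit 899951), .ofNat (nat_lit 657088), .ofNat (nat_lit 942783), .ofNat (nat_lit 611081), .ofNat (nat_lit 882974), .ofNat (nat_lit 654189), .ofNat (nat_lit 926083)⟩, ⟨.negSucc (nat_lit 28572), .ofNat (nat_lit 471427), .ofNat (nat_lit 0), .ofNat (nat_lit 514284), .negSucc (nat_lit 12423), .ofNat (nat_lit 463423), .ofNat (nat_lit 0), .ofNat (nat_lit 506556)⟩⟩, [⟨nat_lit 4, nat_lit 100, nat_lit 85, nat_lit 73, nat_lit 21152847⟩]⟩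
noncomputable def p060_l72 : Lf2 := ⟨nat_lit 0, nat_lit 20, [nat_lit 5, nat_lit 5, nat_lit 5, nat_lit 20], true, nat_lit 0, nat_lit 300, nat_lit 0, nat_lit 336, ⟨nat_lit 0, nat_lit 1000, nat_lit 0, nat_lit 6, nat_lit 181, nat_lit 1000, nat_lit 106, nat_lit 0, nat_lit 0, nat_lit 0, nat_lit 0, nat_lit 0, nat_lit 0, nat_lit 0, nat_lit 0, nat_lit 5000000, false, false⟩,
 nat_lit 0, nat_lit 0, nat_lit 0, nat_lit 5961, nat_lit 5423, nat_lit 0, nat_lit 383, nat_lit 0, nat_lit 0, nat_lit 0, nat_lit 0, nat_lit 0, nat_lit 0, nat_lit 0, nat_lit 0, nat_lit 250000, nat_lit 0, nat_lit 0, [(nat_lit 13, [(nat_lit 0, nat_lit 1000)]), (nat_lit 16, [(nat_lit 0, nat_lit 1000)])],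
 ⟨p060_k17, nat_lit 0, nat_lit 0, nat_lit 347, nat_lit 0, nat_lit 0, [nat_lit 2378400000, nat_lit 3128000000, nat_lit 3715520000], [], [nat_lit 23882129588, nat_lit 26665745024, nat_lit 24450016869, nat_lit 26471870449, nat_lit 24967769031, nat_lit 26853133045, nat_lit 24355268768, nat_lit 25782223366], nat_lit 0, nat_lit 0, nat_lit 0, nat_lit 0, nat_lit 0, nat_lit 0, [], [nat_lit 23, nat_lit 40, nat_lit 40, nat_lit 80, nat_lit 12, nat_lit 456, nat_lit 225, nat_lit 12]⟩, C1.Rw.none,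
 ⟨nat_lit 4472, nat_lit 5478, ⟨.ofNat (nat_lit 235487), .ofNat (nat_lit 617523), .ofNat (nat_lit 278138), .ofNat (nat_lit 660148), .ofNat (nat_lit 264421), .ofNat (nat_lit 610987), .ofNat (nat_lit 307491), .ofNat (nat_lit 654031)⟩, ⟨.negSucc (nat_lit 45522), .ofNat (nat_lit 516475), .negSucc (nat_lit 2834), .ofNat (nat_lit 559189), .negSucc (nat_lit 12423), .ofNat (nat_lit 497412), .ofNat (nat_lit 0), .ofNat (nat_lit 540545)⟩⟩, [⟨nat_lit 4, nat_lit 100, nat_lit 90, nat_lit 74, nat_lit 82688705⟩]⟩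
noncomputable def p060_l73 : Lf2 := ⟨nat_lit 0, nat_lit 15, [nat_lit 30, nat_lit 5, nat_lit 5, nat_lit 20], false, nat_lit 0, nat_lit 276, nat_lit 0, nat_lit 312, ⟨nat_lit 1000, nat_lit 0, nat_lit 0, nat_lit 0, nat_lit 0, nat_lit 0, nat_lit 0, nat_lit 0, nat_lit 0, nat_lit 0, nat_lit 0, nat_lit 0, nat_lit 0, nat_lit 0, nat_lit 0, nat_lit 0, false, false⟩,
 nat_lit 0, nat_lit 0, nat_lit 19926, nat_lit 0, nat_lit 9127, nat_lit 10549, nat_lit 0, nat_lit 0, nat_lit 0, nat_lit 0, nat_lit 0, nat_lit 0, nat_lit 0, nat_lit 0, nat_lit 0, nat_lit 0, nat_lit 0, nat_lit 0, [],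
 ⟨p060_k0, nat_lit 0, nat_lit 0, nat_lit 219, nat_lit 0, nat_lit 0, [nat_lit 3282000000, nat_lit 6250000000, nat_lit 9842000000], [], [nat_lit 32015852220, nat_lit 35467060656, nat_lit 44947396416, nat_lit 46809232800, nat_lit 28407291527, nat_lit 30553983822, nat_lit 36597229905, nat_lit 37730131645], nat_lit 0, nat_lit 0, nat_lit 0, nat_lit 0, nat_lit 0, nat_lit 0, [], [nat_lit 8, nat_lit 40, nat_lit 40, nat_lit 80, nat_lit 1, nat_lit 401, nat_lit 175, nat_lit 11]⟩, ⟨p060_k1, nat_lit 0, nat_lit 0, nat_lit 269, nat_lit 0, nat_lit 55750, [nat_lit 4688000000, nat_lit 7968000000, nat_lit 11872000000], [], [nat_lit 36141481812, nat_lit 38062061072, nat_lit 49295973664, nat_lit 50440973600, nat_lit 31793067681, nat_lit 33093929066, nat_lit 39472718488, nat_lit 39865941610], nat_lit 1271250, nat_lit 1271250, nat_lit 1271250, nat_lit 1271250, nat_lit 0, nat_lit 2203500, [nat_lit 1100000, nat_lit 1785000, nat_lit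 1271250], [nat_lit 21, nat_lit 40, nat_lit 40, nat_lit 80, nat_lit 14, nat_lit 483, nat_lit 250, nat_lit 12]⟩,
 zbF0, [⟨nat_lit 4, nat_lit 100, nat_lit 88, nat_lit 67, nat_lit 17461780⟩, ⟨nat_lit 19, nat_lit 100, nat_lit 96, nat_lit 69, nat_lit 20394233⟩]⟩
noncomputable def p060_l74 : Lf2 := ⟨nat_lit 1, nat_lit 20, [nat_lit 5, nat_lit 5, nat_lit 5, nat_lit 20], false, nat_lit 0, nat_lit 300, nat_lit 0, nat_lit 336, zbN0,
 nat_lit 0, nat_lit 0, nat_lit 0, nat_lit 0, nat_lit 0, nat_lit 0, nat_lit 0, nat_lit 0, nat_lit 0, nat_lit 0, nat_lit 0, nat_lit 0, nat_lit 0, nat_lit 0, nat_lit 0, nat_lit 0, nat_lit 0, nat_lit 0, [],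
 C1.Rw.none, C1.Rw.none,
 zbF0, []⟩
noncomputable def b_V_700_600_10_49 : St := ⟨true, nat_lit 0, nat_lit 2, nat_lit 0, nat_lit 80, nat_lit 280, nat_lit 320, nat_lit 240, nat_lit 280, nat_lit 36, nat_lit 400, nat_lit 40, nat_lit 80, nat_lit 0, nat_lit 300, nat_lit 0, nat_lit 336, nat_lit 80, nat_lit 92, nat_lit 0, nat_lit 0, nat_lit 0, nat_lit 0⟩
theorem d_V_700_600_10_49 (h : EB TB.env) : Dead b_V_700_600_10_49 := chkB_sound0 h (T :=
(.gv
(.st (nat_lit 1)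
(.spl (nat_lit 2) (nat_lit 240)
(.spl (nat_lit 3) (nat_lit 60)
(.trX (nat_lit 16) (nat_lit 99) (nat_lit 100) (nat_lit 77) (nat_lit 276) (.trX (nat_lit 19) (nat_lit 100) (nat_lit 85) (nat_lit 73) (nat_lit 312) (.spl (nat_lit 6) (nat_lit 84)
(.spl (nat_lit 2) (nat_lit 120)
(.spl (nat_lit 0) (nat_lit 300)
(.leaf p060_l54)
(.trZ (nat_lit 0) (nat_lit 100) (nat_lit 88) (nat_lit 68) (nat_lit 48) (.trX (nat_lit 16) (nat_lit 90) (nat_lit 100) (nat_lit 74) (nat_lit 256) (.leaf p060_l55))))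
(.leaf p060_l56))
(.leaf p060_l57))))
(.leaf p060_l58))
(.spl (nat_lit 0) (nat_lit 300)
(.leaf p060_l59)
(.trX (nat_lit 16) (nat_lit 94) (nat_lit 100) (nat_lit 87) (nat_lit 280) (.leaf p060_l60))))
(.spl (nat_lit 2) (nat_lit 240)
(.spl (nat_lit 3) (nat_lit 60)
(.trX (nat_lit 16) (nat_lit 99) (nat_lit 100) (nat_lit 77) (nat_lit 276) (.trX (nat_lit 19) (nat_lit 100) (nat_lit 85) (nat_lit 73) (nat_lit 312) (.spl (nat_lit 6) (nat_lit 84)
(.spl (nat_lit 2) (nat_lit 160)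
(.spl (nat_lit 4) (nat_lit 160)
(.spl (nat_lit 0) (nat_lit 300)
(.leaf p060_l61)
(.trZ (nat_lit 0) (nat_lit 100) (nat_lit 88) (nat_lit 68) (nat_lit 48) (.leaf p060_l62)))
(.leaf p060_l63))
(.leaf p060_l64))
(.leaf p060_l65))))
(.leaf p060_l66))
(.spl (nat_lit 3) (nat_lit 60)
(.trX (nat_lit 16) (nat_lit 99) (nat_lit 100) (nat_lit 77) (nat_lit 276) (.trX (nat_lit 19) (nat_lit 100) (nat_lit 85) (nat_lit 73) (nat_lit 312) (.leaf p060_l67)))
(.leaf p060_l68))))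
(.st (nat_lit 1)
(.spl (nat_lit 2) (nat_lit 240)
(.leaf p060_l69)
(.spl (nat_lit 0) (nat_lit 300)
(.leaf p060_l70)
(.trX (nat_lit 16) (nat_lit 94) (nat_lit 100) (nat_lit 87) (nat_lit 280) (.leaf p060_l71))))
(.spl (nat_lit 2) (nat_lit 240)
(.leaf p060_l72)
(.spl (nat_lit 3) (nat_lit 60)
(.trX (nat_lit 16) (nat_lit 99) (nat_lit 100) (nat_lit 77) (nat_lit 276) (.trX (nat_lit 19) (nat_lit 100) (nat_lit 85) (nat_lit 73) (nat_lit 312) (.leaf p060_l73)))
(.leaf p060_l74)))))) (by decide +kernel)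
noncomputable def p060_l75 : Lf2 := ⟨nat_lit 0, nat_lit 15, [nat_lit 30, nat_lit 5, nat_lit 5, nat_lit 20], true, nat_lit 0, nat_lit 160, nat_lit 0, nat_lit 312, ⟨nat_lit 0, nat_lit 0, nat_lit 1000, nat_lit 6, nat_lit 139, nat_lit 578, nat_lit 54, nat_lit 1000, nat_lit 22817, nat_lit 252, nat_lit 180267, nat_lit 319, nat_lit 59822027, nat_lit 0, nat_lit 0, nat_lit 1702401, false, false⟩,
 nat_lit 0, nat_lit 5457, nat_lit 0, nat_lit 8374, nat_lit 3472, nat_lit 0, nat_lit 0, nat_lit 0, nat_lit 0, nat_lit 0, nat_lit 0, nat_lit 0, nat_lit 0, nat_lit 0, nat_lit 95, nat_lit 400000, nat_lit 0, nat_lit 0, [(nat_lit 13, [(nat_lit 5, nat_lit 1000)]), (nat_lit 16, [(nat_lit 5, nat_lit 1000)])],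
 ⟨p060_k0, nat_lit 0, nat_lit 0, nat_lit 297, nat_lit 0, nat_lit 38865, [nat_lit 2462400000, nat_lit 1360400001, nat_lit 124400000], [], [nat_lit 16744531700, nat_lit 18781245236, nat_lit 16422383872, nat_lit 18097326688, nat_lit 16075729626, nat_lit 17880032317, nat_lit 17983726658, nat_lit 17833953088], nat_lit 1271250, nat_lit 1271250, nat_lit 205650, nat_lit 780000, nat_lit 0, nat_lit 1100001, [nat_lit 780000, nat_lit 1435000, nat_lit 1271250], [nat_lit 8, nat_lit 40, nat_lit 40, nat_lit 80, nat_lit 1, nat_lit 289, nat_lit 75, nat_lit 9]⟩, C1.Rw.none,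
 ⟨nat_lit 4472, nat_lit 5478, ⟨.ofNat (nat_lit 235487), .ofNat (nat_lit 392815), .ofNat (nat_lit 278138), .ofNat (nat_lit 435455), .ofNat (nat_lit 264421), .ofNat (nat_lit 407143), .ofNat (nat_lit 307491), .ofNat (nat_lit 450202)⟩, ⟨.negSucc (nat_lit 45522), .ofNat (nat_lit 254209), .negSucc (nat_lit 24173), .ofNat (nat_lit 275566), .negSucc (nat_lit 12423), .ofNat (nat_lit 259489), .ofNat (nat_lit 0), .ofNat (nat_lit 281055)⟩⟩, [⟨nat_lit 0, nat_lit 100, nat_lit 87, nat_lit 95, nat_lit 151265828⟩]⟩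
noncomputable def p060_l76 : Lf2 := ⟨nat_lit 0, nat_lit 15, [nat_lit 30, nat_lit 5, nat_lit 5, nat_lit 20], true, nat_lit 160, nat_lit 276, nat_lit 0, nat_lit 312, ⟨nat_lit 0, nat_lit 0, nat_lit 1000, nat_lit 6, nat_lit 139, nat_lit 1000, nat_lit 148, nat_lit 1000, nat_lit 45067, nat_lit 267, nat_lit 180267, nat_lit 319, nat_lit 51167576, nat_lit 0, nat_lit 0, nat_lit 3797221, false, false⟩,
 nat_lit 0, nat_lit 8290, nat_lit 0, nat_lit 4490, nat_lit 5275, nat_lit 0, nat_lit 0, nat_lit 0, nat_lit 0, nat_lit 0, nat_lit 0, nat_lit 0, nat_lit 0, nat_lit 0, nat_lit 66, nat_lit 250000, nat_lit 0, nat_lit 0, [(nat_lit 13, [(nat_lit 4, nat_lit 1000)]), (nat_lit 16, [(nat_lit 4, nat_lit 1000)])],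
 ⟨p060_k0, nat_lit 0, nat_lit 0, nat_lit 158, nat_lit 0, nat_lit 38865, [nat_lit 3247200000, nat_lit 1028000001, nat_lit 267600000], [], [nat_lit 15303269021, nat_lit 18232614251, nat_lit 14203944200, nat_lit 16882390500, nat_lit 19897932819, nat_lit 23301573911, nat_lit 18449825761, nat_lit 21420425485], nat_lit 1271250, nat_lit 1271250, nat_lit 205650, nat_lit 780000, nat_lit 1100001, nat_lit 2093250, [nat_lit 780000, nat_lit 1435000, nat_lit 1271250], [nat_lit 8, nat_lit 40, nat_lit 40, nat_lit 80, nat_lit 1, nat_lit 317, nat_lit 100, nat_lit 9]⟩, C1.Rw.none,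
 ⟨nat_lit 4472, nat_lit 5478, ⟨.ofNat (nat_lit 235487), .ofNat (nat_lit 392815), .ofNat (nat_lit 278138), .ofNat (nat_lit 435455), .ofNat (nat_lit 264421), .ofNat (nat_lit 407143), .ofNat (nat_lit 307491), .ofNat (nat_lit 450202)⟩, ⟨.ofNat (nat_lit 254209), .ofNat (nat_lit 471515), .ofNat (nat_lit 275566), .ofNat (nat_lit 492872), .ofNat (nat_lit 259489), .ofNat (nat_lit 456625), .ofNat (nat_lit 281055), .ofNat (nat_lit 478192)⟩⟩, [⟨nat_lit 0, nat_lit 100, nat_lit 87, nat_lit 95, nat_lit 233020355⟩, ⟨nat_lit 4, nat_lit 100, nat_lit 88, nat_lit 67, nat_lit 333305728⟩]⟩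
noncomputable def p060_l77 : Lf2 := ⟨nat_lit 0, nat_lit 15, [nat_lit 30, nat_lit 5, nat_lit 5, nat_lit 20], false, nat_lit 0, nat_lit 276, nat_lit 0, nat_lit 312, ⟨nat_lit 1000, nat_lit 0, nat_lit 0, nat_lit 0, nat_lit 0, nat_lit 0, nat_lit 0, nat_lit 0, nat_lit 0, nat_lit 0, nat_lit 0, nat_lit 0, nat_lit 0, nat_lit 0, nat_lit 0, nat_lit 0, false, false⟩,
 nat_lit 0, nat_lit 23429, nat_lit 0, nat_lit 29695, nat_lit 14909, nat_lit 20306, nat_lit 0, nat_lit 0, nat_lit 0, nat_lit 0, nat_lit 0, nat_lit 0, nat_lit 0, nat_lit 0, nat_lit 0, nat_lit 0, nat_lit 0, nat_lit 0, [],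
 ⟨p060_k0, nat_lit 0, nat_lit 0, nat_lit 195, nat_lit 0, nat_lit 38865, [nat_lit 3282000000, nat_lit 6250000000, nat_lit 9842000000], [], [nat_lit 52250942560, nat_lit 36485032876, nat_lit 32928598740, nat_lit 37764411152, nat_lit 23029681114, nat_lit 26837677389, nat_lit 23387073496, nat_lit 27965803625], nat_lit 1271250, nat_lit 1271250, nat_lit 780000, nat_lit 1762500, nat_lit 0, nat_lit 1949250, [nat_lit 780000, nat_lit 1435000, nat_lit 1271250], [nat_lit 8, nat_lit 40, nat_lit 40, nat_lit 80, nat_lit 1, nat_lit 373, nat_lit 150, nat_lit 11]⟩, ⟨p060_k1, nat_lit 0, nat_lit 0, nat_lit 212, nat_lit 0, nat_lit 0, [nat_lit 4688000000, nat_lit 7968000000, nat_lit 11872000000], [], [nat_lit 34922090480, nat_lit 40614936832, nat_lit 37851172616, nat_lit 41938790368, nat_lit 26617727480, nat_lit 29161880055, nat_lit 24798270478, nat_lit 28955626081], nat_lit 0, nat_lit 0, nat_lit 0, nat_lit 0, nat_lit 0, nat_lit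 0, [], [nat_lit 21, nat_lit 40, nat_lit 40, nat_lit 80, nat_lit 14, nat_lit 456, nat_lit 225, nat_lit 12]⟩,
 zbF0, []⟩
noncomputable def p060_l78 : Lf2 := ⟨nat_lit 1, nat_lit 15, [nat_lit 30, nat_lit 5, nat_lit 5, nat_lit 20], false, nat_lit 0, nat_lit 276, nat_lit 0, nat_lit 312, zbN0,
 nat_lit 0, nat_lit 0, nat_lit 0, nat_lit 0, nat_lit 0, nat_lit 0, nat_lit 0, nat_lit 0, nat_lit 0, nat_lit 0, nat_lit 0, nat_lit 0, nat_lit 0, nat_lit 0, nat_lit 0, nat_lit 0, nat_lit 0, nat_lit 0, [],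
 C1.Rw.none, C1.Rw.none,
 zbF0, []⟩
noncomputable def p060_l79 : Lf2 := ⟨nat_lit 1, nat_lit 20, [nat_lit 5, nat_lit 5, nat_lit 5, nat_lit 20], false, nat_lit 0, nat_lit 300, nat_lit 0, nat_lit 336, zbN0,
 nat_lit 0, nat_lit 0, nat_lit 0, nat_lit 0, nat_lit 0, nat_lit 0, nat_lit 0, nat_lit 0, nat_lit 0, nat_lit 0, nat_lit 0, nat_lit 0, nat_lit 0, nat_lit 0, nat_lit 0, nat_lit 0, nat_lit 0, nat_lit 0, [],
 C1.Rw.none, C1.Rw.none,
 zbF0, []⟩
noncomputable def p060_l80 : Lf2 := ⟨nat_lit 0, nat_lit 15, [nat_lit 30, nat_lit 5, nat_lit 5, nat_lit 20], false, nat_lit 0, nat_lit 276, nat_lit 0, nat_lit 312, ⟨nat_lit 1000, nat_lit 0, nat_lit 0, nat_lit 0, nat_lit 0, nat_lit 0, nat_lit 0, nat_lit 0, nat_lit 0, nat_lit 0, nat_lit 0, nat_lit 0, nat_lit 0, nat_lit 0, nat_lit 0, nat_lit 0, false, false⟩,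
 nat_lit 0, nat_lit 13633, nat_lit 0, nat_lit 0, nat_lit 8675, nat_lit 11122, nat_lit 0, nat_lit 0, nat_lit 0, nat_lit 0, nat_lit 0, nat_lit 0, nat_lit 0, nat_lit 0, nat_lit 0, nat_lit 0, nat_lit 0, nat_lit 0, [],
 ⟨p060_k0, nat_lit 0, nat_lit 0, nat_lit 230, nat_lit 0, nat_lit 39409, [nat_lit 3282000000, nat_lit 6250000000, nat_lit 9842000000], [], [nat_lit 32154580800, nat_lit 35287468400, nat_lit 44478126400, nat_lit 46300100000, nat_lit 28799740256, nat_lit 30892182245, nat_lit 36787153525, nat_lit 37908944111], nat_lit 1271250, nat_lit 1271250, nat_lit 1271250, nat_lit 1271250, nat_lit 0, nat_lit 1949250, [nat_lit 780000, nat_lit 1435000, nat_lit 1271250], [nat_lit 8, nat_lit 40, nat_lit 40, nat_lit 80, nat_lit 1, nat_lit 401, nat_lit 175, nat_lit 11]⟩, ⟨p060_k1, nat_lit 0, nat_lit 0, nat_lit 251, nat_lit 0, nat_lit 0, [nat_lit 4688000000, nat_lit 7968000000, nat_lit 11872000000], [], [nat_lit 35521779592,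 nat_lit 38289730016, nat_lit 49932654592, nat_lit 51086400800, nat_lit 31382283752, nat_lit 32702039926, nat_lit 39263878553, nat_lit 39633252269], nat_lit 0, nat_lit 0, nat_lit 0, nat_lit 0, nat_lit 0, nat_lit 0, [], [nat_lit 21, nat_lit 40, nat_lit 40, nat_lit 80, nat_lit 14, nat_lit 483, nat_lit 250, nat_lit 12]⟩,
 zbF0, [⟨nat_lit 16, nat_lit 88, nat_lit 100, nat_lit 67, nat_lit 38574233⟩]⟩
noncomputable def p060_l81 : Lf2 := ⟨nat_lit 1, nat_lit 20, [nat_lit 5, nat_lit 5, nat_lit 5, nat_lit 20], false, nat_lit 0, nat_lit 300, nat_lit 0, nat_lit 336, zbN0,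
 nat_lit 0, nat_lit 0, nat_lit 0, nat_lit 0, nat_lit 0, nat_lit 0, nat_lit 0, nat_lit 0, nat_lit 0, nat_lit 0, nat_lit 0, nat_lit 0, nat_lit 0, nat_lit 0, nat_lit 0, nat_lit 0, nat_lit 0, nat_lit 0, [],
 C1.Rw.none, C1.Rw.none,
 zbF0, []⟩
noncomputable def p060_l82 : Lf2 := ⟨nat_lit 1, nat_lit 15, [nat_lit 30, nat_lit 5, nat_lit 5, nat_lit 20], false, nat_lit 0, nat_lit 276, nat_lit 0, nat_lit 312, zbN0,
 nat_lit 0, nat_lit 0, nat_lit 0, nat_lit 0, nat_lit 0, nat_lit 0, nat_lit 0, nat_lit 0, nat_lit 0, nat_lit 0, nat_lit 0, nat_lit 0, nat_lit 0, nat_lit 0, nat_lit 0, nat_lit 0, nat_lit 0, nat_lit 0, [],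
 C1.Rw.none, C1.Rw.none,
 zbF0, []⟩
noncomputable def p060_l83 : Lf2 := ⟨nat_lit 0, nat_lit 15, [nat_lit 30, nat_lit 5, nat_lit 5, nat_lit 20], false, nat_lit 0, nat_lit 256, nat_lit 0, nat_lit 312, ⟨nat_lit 0, nat_lit 0, nat_lit 1000, nat_lit 6, nat_lit 145, nat_lit 1000, nat_lit 87, nat_lit 1000, nat_lit 68267, nat_lit 279, nat_lit 198017, nat_lit 324, nat_lit 59224880, nat_lit 0, nat_lit 0, nat_lit 1794864, false, false⟩,
 nat_lit 0, nat_lit 5574, nat_lit 0, nat_lit 2093, nat_lit 3858, nat_lit 0, nat_lit 0, nat_lit 0, nat_lit 0, nat_lit 0, nat_lit 0, nat_lit 0, nat_lit 0, nat_lit 0, nat_lit 100, nat_lit 361600, nat_lit 0, nat_lit 0, [(nat_lit 16, [(nat_lit 4, nat_lit 256), (nat_lit 5, nat_lit 744)])],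
 ⟨p060_k8, nat_lit 0, nat_lit 0, nat_lit 227, nat_lit 0, nat_lit 17745, [nat_lit 2800723200, nat_lit 1135609600, nat_lit 205721600], [], [nat_lit 17374491795, nat_lit 18821391913, nat_lit 16876129188, nat_lit 18222827776, nat_lit 18953958439, nat_lit 20117681440, nat_lit 18579178589, nat_lit 19599731690], nat_lit 1271250, nat_lit 1271250, nat_lit 279600, nat_lit 780000, nat_lit 0, nat_lit 1808000, [nat_lit 780000, nat_lit 1435000, nat_lit 1271250], [nat_lit 8, nat_lit 40, nat_lit 40, nat_lit 80, nat_lit 1, nat_lit 317, nat_lit 100, nat_lit 9]⟩, ⟨p060_k1, nat_lit 0, nat_lit 0, nat_lit 339, nat_lit 0, nat_lit 25379, [nat_lit 0, nat_lit 0, nat_lit 0], [], [nat_lit 0, nat_lit 0, nat_lit 0, nat_lit 0, nat_lit 0, nat_lit 0, nat_lit 0, nat_lit 0], nat_lit 1271250, nat_lit 1271250, nat_lit 279600, nat_lit 780000, nat_lit 0, nat_lit 2203500, [nat_lit 1100000, nat_lit 1785000, nat_lit 1271250], [nat_lit 21, nat_lit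 40, nat_lit 40, nat_lit 80, nat_lit 14, nat_lit 428, nat_lit 200, nat_lit 11]⟩,
 ⟨nat_lit 4472, nat_lit 5000, ⟨.ofNat (nat_lit 271418), .ofNat (nat_lit 399984), .ofNat (nat_lit 314253), .ofNat (nat_lit 442816), .ofNat (nat_lit 284805), .ofNat (nat_lit 407160), .ofNat (nat_lit 327916), .ofNat (nat_lit 450269)⟩, ⟨.negSucc (nat_lit 28572), .ofNat (nat_lit 428570), .negSucc (nat_lit 7143), .ofNat (nat_lit 449999), .negSucc (nat_lit 12423), .ofNat (nat_lit 422636), .ofNat (nat_lit 0), .ofNat (nat_lit 444203)⟩⟩, [⟨nat_lit 0, nat_lit 100, nat_lit 87, nat_lit 95, nat_lit 153849485⟩]⟩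
noncomputable def p060_l84 : Lf2 := ⟨nat_lit 0, nat_lit 15, [nat_lit 30, nat_lit 5, nat_lit 5, nat_lit 20], false, nat_lit 0, nat_lit 160, nat_lit 0, nat_lit 312, ⟨nat_lit 1000, nat_lit 0, nat_lit 0, nat_lit 0, nat_lit 0, nat_lit 0, nat_lit 0, nat_lit 0, nat_lit 0, nat_lit 0, nat_lit 0, nat_lit 0, nat_lit 0, nat_lit 0, nat_lit 0, nat_lit 0, false, false⟩,
 nat_lit 19137, nat_lit 0, nat_lit 0, nat_lit 40882, nat_lit 6719, nat_lit 10131, nat_lit 0, nat_lit 0, nat_lit 0, nat_lit 0, nat_lit 0, nat_lit 0, nat_lit 0, nat_lit 0, nat_lit 0, nat_lit 0, nat_lit 0, nat_lit 0, [],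
 ⟨p060_k0, nat_lit 0, nat_lit 0, nat_lit 191, nat_lit 0, nat_lit 19817, [nat_lit 3282000000, nat_lit 6250000000, nat_lit 9842000000], [], [nat_lit 28390567500, nat_lit 32037741968, nat_lit 31635725340, nat_lit 34510294832, nat_lit 24287529116, nat_lit 27349873300, nat_lit 27104921896, nat_lit 29526446324], nat_lit 1271250, nat_lit 1271250, nat_lit 780000, nat_lit 1762500, nat_lit 0, nat_lit 1100001, [nat_lit 780000, nat_lit 1435000, nat_lit 1271250], [nat_lit 8, nat_lit 40, nat_lit 40, nat_lit 80, nat_lit 1, nat_lit 317, nat_lit 100, nat_lit 9]⟩, ⟨p060_k1, nat_lit 0, nat_lit 0, nat_lit 223, nat_lit 0, nat_lit 25379, [nat_lit 4688000000, nat_lit 7968000000, nat_lit 11872000000], [], [nat_lit 55693472796, nat_lit 44814035040, nat_lit 36511166028, nat_lit 38253718832, nat_lit 32920817787, nat_lit 33475974837, nat_lit 48699763876, nat_lit 39618797450], nat_lit 1271250, nat_lit 1271250, nat_lit 780000, nat_lit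 1762500, nat_lit 0, nat_lit 2203500, [nat_lit 1100000, nat_lit 1785000, nat_lit 1271250], [nat_lit 21, nat_lit 40, nat_lit 40, nat_lit 80, nat_lit 14, nat_lit 456, nat_lit 225, nat_lit 12]⟩,
 zbF0, [⟨nat_lit 7, nat_lit 96, nat_lit 100, nat_lit 69, nat_lit 2674178⟩]⟩
noncomputable def p060_l85 : Lf2 := ⟨nat_lit 0, nat_lit 15, [nat_lit 30, nat_lit 5, nat_lit 5, nat_lit 20], true, nat_lit 160, nat_lit 276, nat_lit 0, nat_lit 312, ⟨nat_lit 0, nat_lit 1000, nat_lit 0, nat_lit 6, nat_lit 211, nat_lit 1000, nat_lit 148, nat_lit 0, nat_lit 0, nat_lit 0, nat_lit 0, nat_lit 0, nat_lit 45142911, nat_lit 13893616, nat_lit 7963473, nat_lit 4534361, false, false⟩,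
 nat_lit 0, nat_lit 7036, nat_lit 0, nat_lit 224, nat_lit 4477, nat_lit 0, nat_lit 0, nat_lit 0, nat_lit 0, nat_lit 0, nat_lit 0, nat_lit 0, nat_lit 0, nat_lit 0, nat_lit 0, nat_lit 250000, nat_lit 0, nat_lit 0, [(nat_lit 13, [(nat_lit 0, nat_lit 1000)]), (nat_lit 16, [(nat_lit 0, nat_lit 1000)])],
 ⟨p060_k0, nat_lit 0, nat_lit 0, nat_lit 112, nat_lit 0, nat_lit 38865, [nat_lit 2378400000, nat_lit 2909733334, nat_lit 3539066666], [], [nat_lit 12372461984, nat_lit 15770470072, nat_lit 16702725808, nat_lit 19421541520, nat_lit 18168450509, nat_lit 21031405752, nat_lit 21361583529, nat_lit 23720716124], nat_lit 1271250, nat_lit 1271250, nat_lit 780000, nat_lit 1762500, nat_lit 1100001, nat_lit 2093250, [nat_lit 780000, nat_lit 1435000, nat_lit 1271250], [nat_lit 8, nat_lit 40, nat_lit 40, nat_lit 80, nat_lit 1, nat_lit 373, nat_lit 150, nat_lit 10]⟩, C1.Rw.none,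
 ⟨nat_lit 4472, nat_lit 5478, ⟨.ofNat (nat_lit 392815), .ofNat (nat_lit 617523), .ofNat (nat_lit 435455), .ofNat (nat_lit 660148), .ofNat (nat_lit 407143), .ofNat (nat_lit 610987), .ofNat (nat_lit 450202), .ofNat (nat_lit 654031)⟩, ⟨.ofNat (nat_lit 254209), .ofNat (nat_lit 471515), .ofNat (nat_lit 275566), .ofNat (nat_lit 492872), .ofNat (nat_lit 259489), .ofNat (nat_lit 456625), .ofNat (nat_lit 281055), .ofNat (nat_lit 478192)⟩⟩, [⟨nat_lit 4, nat_lit 100, nat_lit 88, nat_lit 67, nat_lit 273330305⟩]⟩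
noncomputable def p060_l86 : Lf2 := ⟨nat_lit 1, nat_lit 15, [nat_lit 30, nat_lit 5, nat_lit 5, nat_lit 20], false, nat_lit 0, nat_lit 276, nat_lit 0, nat_lit 312, zbN0,
 nat_lit 0, nat_lit 0, nat_lit 0, nat_lit 0, nat_lit 0, nat_lit 0, nat_lit 0, nat_lit 0, nat_lit 0, nat_lit 0, nat_lit 0, nat_lit 0, nat_lit 0, nat_lit 0, nat_lit 0, nat_lit 0, nat_lit 0, nat_lit 0, [],
 C1.Rw.none, C1.Rw.none,
 zbF0, []⟩
noncomputable def p060_l87 : Lf2 := ⟨nat_lit 1, nat_lit 20, [nat_lit 5, nat_lit 5, nat_lit 5, nat_lit 20], false, nat_lit 0, nat_lit 300, nat_lit 0, nat_lit 336, zbN0,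
 nat_lit 0, nat_lit 0, nat_lit 0, nat_lit 0, nat_lit 0, nat_lit 0, nat_lit 0, nat_lit 0, nat_lit 0, nat_lit 0, nat_lit 0, nat_lit 0, nat_lit 0, nat_lit 0, nat_lit 0, nat_lit 0, nat_lit 0, nat_lit 0, [],
 C1.Rw.none, C1.Rw.none,
 zbF0, []⟩
noncomputable def p060_l88 : Lf2 := ⟨nat_lit 0, nat_lit 15, [nat_lit 30, nat_lit 5, nat_lit 5, nat_lit 20], false, nat_lit 0, nat_lit 276, nat_lit 0, nat_lit 312, ⟨nat_lit 1000, nat_lit 0, nat_lit 0, nat_lit 0, nat_lit 0, nat_lit 0, nat_lit 0, nat_lit 0, nat_lit 0, nat_lit 0, nat_lit 0, nat_lit 0, nat_lit 0, nat_lit 0, nat_lit 0, nat_lit 0, false, false⟩,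
 nat_lit 19926, nat_lit 0, nat_lit 0, nat_lit 0, nat_lit 9127, nat_lit 10549, nat_lit 0, nat_lit 0, nat_lit 0, nat_lit 0, nat_lit 0, nat_lit 0, nat_lit 0, nat_lit 0, nat_lit 0, nat_lit 0, nat_lit 0, nat_lit 0, [],
 ⟨p060_k0, nat_lit 0, nat_lit 0, nat_lit 224, nat_lit 0, nat_lit 20362, [nat_lit 3282000000, nat_lit 6250000000, nat_lit 9842000000], [], [nat_lit 32015852220, nat_lit 35467060656, nat_lit 44947396416, nat_lit 46809232800, nat_lit 28407291527, nat_lit 30553983822, nat_lit 36597229905, nat_lit 37730131645], nat_lit 1271250, nat_lit 1271250, nat_lit 1271250, nat_lit 1271250, nat_lit 0, nat_lit 1949250, [nat_lit 780000, nat_lit 1435000, nat_lit 1271250], [nat_lit 8, nat_lit 40, nat_lit 40, nat_lit 80, nat_lit 1, nat_lit 401, nat_lit 175, nat_lit 11]⟩, ⟨p060_k1, nat_lit 0, nat_lit 0, nat_lit 259, nat_lit 0, nat_lit 26120, [nat_lit 4688000000, nat_lit 7968000000, nat_lit 11872000000], [], [nat_lit 35376446164,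 nat_lit 38062061072, nat_lit 49295973664, nat_lit 50440973600, nat_lit 31793067681, nat_lit 33093929066, nat_lit 39472718488, nat_lit 39865941610], nat_lit 1271250, nat_lit 1271250, nat_lit 1271250, nat_lit 1271250, nat_lit 0, nat_lit 2203500, [nat_lit 1100000, nat_lit 1785000, nat_lit 1271250], [nat_lit 21, nat_lit 40, nat_lit 40, nat_lit 80, nat_lit 14, nat_lit 483, nat_lit 250, nat_lit 12]⟩,
 zbF0, [⟨nat_lit 16, nat_lit 88, nat_lit 100, nat_lit 67, nat_lit 17461780⟩, ⟨nat_lit 19, nat_lit 100, nat_lit 96, nat_lit 69, nat_lit 20394233⟩]⟩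
noncomputable def p060_l89 : Lf2 := ⟨nat_lit 1, nat_lit 20, [nat_lit 5, nat_lit 5, nat_lit 5, nat_lit 20], false, nat_lit 0, nat_lit 300, nat_lit 0, nat_lit 336, zbN0,
 nat_lit 0, nat_lit 0, nat_lit 0, nat_lit 0, nat_lit 0, nat_lit 0, nat_lit 0, nat_lit 0, nat_lit 0, nat_lit 0, nat_lit 0, nat_lit 0, nat_lit 0, nat_lit 0, nat_lit 0, nat_lit 0, nat_lit 0, nat_lit 0, [],
 C1.Rw.none, C1.Rw.none,
 zbF0, []⟩
noncomputable def p060_l90 : Lf2 := ⟨nat_lit 0, nat_lit 20, [nat_lit 5, nat_lit 5, nat_lit 5, nat_lit 20], true, nat_lit 0, nat_lit 300, nat_lit 0, nat_lit 336, ⟨nat_lit 0, nat_lit 1000, nat_lit 0, nat_lit 6, nat_lit 139, nat_lit 1000, nat_lit 106, nat_lit 0, nat_lit 0, nat_lit 0, nat_lit 0, nat_lit 0, nat_lit 0, nat_lit 0, nat_lit 0, nat_lit 5000000, false, false⟩,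
 nat_lit 0, nat_lit 8448, nat_lit 0, nat_lit 5935, nat_lit 5376, nat_lit 0, nat_lit 0, nat_lit 0, nat_lit 0, nat_lit 0, nat_lit 0, nat_lit 0, nat_lit 0, nat_lit 0, nat_lit 0, nat_lit 250000, nat_lit 0, nat_lit 0, [(nat_lit 13, [(nat_lit 0, nat_lit 1000)]), (nat_lit 16, [(nat_lit 0, nat_lit 1000)])],
 ⟨p060_k17, nat_lit 0, nat_lit 0, nat_lit 402, nat_lit 0, nat_lit 177887, [nat_lit 2378400000, nat_lit 3128000000, nat_lit 3715520000], [], [nat_lit 27561096989, nat_lit 30270680977, nat_lit 26100129376, nat_lit 28340226624, nat_lit 28691861372, nat_lit 30512907573, nat_lit 31032405984, nat_lit 28582100608], nat_lit 1271250, nat_lit 1271250, nat_lit 205650, nat_lit 780000, nat_lit 0, nat_lit 2118750, [nat_lit 780000, nat_lit 1435000, nat_lit 1271250], [nat_lit 23, nat_lit 40, nat_lit 40, nat_lit 80, nat_lit 12, nat_lit 428, nat_lit 200, nat_lit 11]⟩, C1.Rw.none,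
 ⟨nat_lit 4472, nat_lit 5478, ⟨.ofNat (nat_lit 235487), .ofNat (nat_lit 392815), .ofNat (nat_lit 278138), .ofNat (nat_lit 435455), .ofNat (nat_lit 264421), .ofNat (nat_lit 407143), .ofNat (nat_lit 307491), .ofNat (nat_lit 450202)⟩, ⟨.negSucc (nat_lit 45522), .ofNat (nat_lit 516475), .negSucc (nat_lit 2834), .ofNat (nat_lit 559189), .negSucc (nat_lit 12423), .ofNat (nat_lit 497412), .ofNat (nat_lit 0), .ofNat (nat_lit 540545)⟩⟩, [⟨nat_lit 0, nat_lit 100, nat_lit 91, nat_lit 77, nat_lit 106915420⟩, ⟨nat_lit 4, nat_lit 100, nat_lit 90, nat_lit 74, nat_lit 114793878⟩]⟩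
noncomputable def p060_l91 : Lf2 := ⟨nat_lit 0, nat_lit 15, [nat_lit 30, nat_lit 5, nat_lit 5, nat_lit 20], true, nat_lit 0, nat_lit 276, nat_lit 0, nat_lit 312, ⟨nat_lit 0, nat_lit 1000, nat_lit 0, nat_lit 6, nat_lit 211, nat_lit 1000, nat_lit 95, nat_lit 0, nat_lit 0, nat_lit 0, nat_lit 0, nat_lit 0, nat_lit 0, nat_lit 0, nat_lit 0, nat_lit 5000000, false, false⟩,
 nat_lit 0, nat_lit 12490, nat_lit 0, nat_lit 20617, nat_lit 7948, nat_lit 0, nat_lit 0, nat_lit 0, nat_lit 0, nat_lit 0, nat_lit 0, nat_lit 0, nat_lit 0, nat_lit 0, nat_lit 0, nat_lit 250000, nat_lit 0, nat_lit 0, [(nat_lit 13, [(nat_lit 0, nat_lit 1000)]), (nat_lit 16, [(nat_lit 0, nat_lit 1000)])],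
 ⟨p060_k0, nat_lit 0, nat_lit 0, nat_lit 195, nat_lit 0, nat_lit 38865, [nat_lit 2378400000, nat_lit 2909733334, nat_lit 3539066666], [], [nat_lit 37399625654, nat_lit 28994806406, nat_lit 25526801946, nat_lit 28695677610, nat_lit 21670795246, nat_lit 24237138460, nat_lit 23128024235, nat_lit 25133209650], nat_lit 1271250, nat_lit 1271250, nat_lit 780000, nat_lit 1762500, nat_lit 0, nat_lit 1949250, [nat_lit 780000, nat_lit 1435000, nat_lit 1271250], [nat_lit 8, nat_lit 40, nat_lit 40, nat_lit 80, nat_lit 1, nat_lit 373, nat_lit 150, nat_lit 11]⟩, C1.Rw.none,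
 ⟨nat_lit 4472, nat_lit 5478, ⟨.ofNat (nat_lit 392815), .ofNat (nat_lit 617523), .ofNat (nat_lit 435455), .ofNat (nat_lit 660148), .ofNat (nat_lit 407143), .ofNat (nat_lit 610987), .ofNat (nat_lit 450202), .ofNat (nat_lit 654031)⟩, ⟨.negSucc (nat_lit 45522), .ofNat (nat_lit 471515), .negSucc (nat_lit 24173), .ofNat (nat_lit 492872), .negSucc (nat_lit 12423), .ofNat (nat_lit 456625), .ofNat (nat_lit 0), .ofNat (nat_lit 478192)⟩⟩, [⟨nat_lit 4, nat_lit 100, nat_lit 88, nat_lit 67, nat_lit 9630174⟩]⟩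
noncomputable def p060_l92 : Lf2 := ⟨nat_lit 0, nat_lit 15, [nat_lit 30, nat_lit 5, nat_lit 5, nat_lit 20], false, nat_lit 0, nat_lit 276, nat_lit 0, nat_lit 312, ⟨nat_lit 1000, nat_lit 0, nat_lit 0, nat_lit 0, nat_lit 0, nat_lit 0, nat_lit 0, nat_lit 0, nat_lit 0, nat_lit 0, nat_lit 0, nat_lit 0, nat_lit 0, nat_lit 0, nat_lit 0, nat_lit 0, false, false⟩,
 nat_lit 0, nat_lit 13633, nat_lit 0, nat_lit 0, nat_lit 8675, nat_lit 11122, nat_lit 0, nat_lit 0, nat_lit 0, nat_lit 0, nat_lit 0, nat_lit 0, nat_lit 0, nat_lit 0, nat_lit 0, nat_lit 0, nat_lit 0, nat_lit 0, [],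
 ⟨p060_k0, nat_lit 0, nat_lit 0, nat_lit 230, nat_lit 0, nat_lit 38865, [nat_lit 3282000000, nat_lit 6250000000, nat_lit 9842000000], [], [nat_lit 32154580800, nat_lit 35287468400, nat_lit 44478126400, nat_lit 46300100000, nat_lit 28799740256, nat_lit 30892182245, nat_lit 36787153525, nat_lit 37908944111], nat_lit 1271250, nat_lit 1271250, nat_lit 1271250, nat_lit 1271250, nat_lit 0, nat_lit 1949250, [nat_lit 780000, nat_lit 1435000, nat_lit 1271250], [nat_lit 8, nat_lit 40, nat_lit 40, nat_lit 80, nat_lit 1, nat_lit 401, nat_lit 175, nat_lit 11]⟩, ⟨p060_k1, nat_lit 0, nat_lit 0, nat_lit 251, nat_lit 0, nat_lit 0, [nat_lit 4688000000, nat_lit 7968000000, nat_lit 11872000000], [], [nat_lit 35521779592, nat_lit 38289730016, nat_lit 49932654592, nat_lit 51086400800, nat_lit 31382283752, nat_lit 32702039926, nat_lit 39263878553, nat_lit 39633252269], nat_lit 0, nat_lit 0, nat_lit 0, nat_lit 0, nat_lit 0, nat_lit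 0, [], [nat_lit 21, nat_lit 40, nat_lit 40, nat_lit 80, nat_lit 14, nat_lit 483, nat_lit 250, nat_lit 12]⟩,
 zbF0, [⟨nat_lit 16, nat_lit 88, nat_lit 100, nat_lit 67, nat_lit 38574233⟩]⟩
noncomputable def p060_l93 : Lf2 := ⟨nat_lit 1, nat_lit 15, [nat_lit 30, nat_lit 5, nat_lit 5, nat_lit 20], false, nat_lit 0, nat_lit 276, nat_lit 0, nat_lit 312, zbN0,
 nat_lit 0, nat_lit 0, nat_lit 0, nat_lit 0, nat_lit 0, nat_lit 0, nat_lit 0, nat_lit 0, nat_lit 0, nat_lit 0, nat_lit 0, nat_lit 0, nat_lit 0, nat_lit 0, nat_lit 0, nat_lit 0, nat_lit 0, nat_lit 0, [],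
 C1.Rw.none, C1.Rw.none,
 zbF0, []⟩
noncomputable def p060_l94 : Lf2 := ⟨nat_lit 1, nat_lit 20, [nat_lit 5, nat_lit 5, nat_lit 5, nat_lit 20], false, nat_lit 0, nat_lit 300, nat_lit 0, nat_lit 336, zbN0,
 nat_lit 0, nat_lit 0, nat_lit 0, nat_lit 0, nat_lit 0, nat_lit 0, nat_lit 0, nat_lit 0, nat_lit 0, nat_lit 0, nat_lit 0, nat_lit 0, nat_lit 0, nat_lit 0, nat_lit 0, nat_lit 0, nat_lit 0, nat_lit 0, [],
 C1.Rw.none, C1.Rw.none,
 zbF0, []⟩
noncomputable def p060_l95 : Lf2 := ⟨nat_lit 0, nat_lit 15, [nat_lit 30, nat_lit 5, nat_lit 5, nat_lit 20], true, nat_lit 0, nat_lit 276, nat_lit 0, nat_lit 312, ⟨nat_lit 0, nat_lit 1000, nat_lit 0, nat_lit 6, nat_lit 181, nat_lit 1000, nat_lit 95, nat_lit 0, nat_lit 0, nat_lit 0, nat_lit 0, nat_lit 0, nat_lit 0, nat_lit 0, nat_lit 0, nat_lit 5000000, false, false⟩,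
 nat_lit 0, nat_lit 16170, nat_lit 0, nat_lit 21650, nat_lit 10290, nat_lit 0, nat_lit 0, nat_lit 0, nat_lit 0, nat_lit 0, nat_lit 0, nat_lit 0, nat_lit 0, nat_lit 0, nat_lit 0, nat_lit 250000, nat_lit 0, nat_lit 0, [(nat_lit 13, [(nat_lit 0, nat_lit 1000)]), (nat_lit 16, [(nat_lit 0, nat_lit 1000)])],
 ⟨p060_k0, nat_lit 0, nat_lit 0, nat_lit 297, nat_lit 0, nat_lit 39409, [nat_lit 2378400000, nat_lit 2909733334, nat_lit 3539066666], [], [nat_lit 42604810673, nat_lit 33152732553, nat_lit 25896510066, nat_lit 30746599200, nat_lit 24278000623, nat_lit 29071619372, nat_lit 37078050190, nat_lit 28206532864], nat_lit 1271250, nat_lit 1271250, nat_lit 205650, nat_lit 1715250, nat_lit 0, nat_lit 1949250, [nat_lit 780000, nat_lit 1435000, nat_lit 1271250], [nat_lit 8, nat_lit 40, nat_lit 40, nat_lit 80, nat_lit 1, nat_lit 373, nat_lit 150, nat_lit 11]⟩, C1.Rw.none,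
 ⟨nat_lit 4472, nat_lit 5478, ⟨.ofNat (nat_lit 235487), .ofNat (nat_lit 617523), .ofNat (nat_lit 278138), .ofNat (nat_lit 660148), .ofNat (nat_lit 264421), .ofNat (nat_lit 610987), .ofNat (nat_lit 307491), .ofNat (nat_lit 654031)⟩, ⟨.negSucc (nat_lit 45522), .ofNat (nat_lit 471515), .negSucc (nat_lit 24173), .ofNat (nat_lit 492872), .negSucc (nat_lit 12423), .ofNat (nat_lit 456625), .ofNat (nat_lit 0), .ofNat (nat_lit 478192)⟩⟩, []⟩
noncomputable def p060_l96 : Lf2 := ⟨nat_lit 1, nat_lit 20, [nat_lit 5, nat_lit 5, nat_lit 5, nat_lit 20], false, nat_lit 0, nat_lit 300, nat_lit 0, nat_lit 336, zbN0,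
 nat_lit 0, nat_lit 0, nat_lit 0, nat_lit 0, nat_lit 0, nat_lit 0, nat_lit 0, nat_lit 0, nat_lit 0, nat_lit 0, nat_lit 0, nat_lit 0, nat_lit 0, nat_lit 0, nat_lit 0, nat_lit 0, nat_lit 0, nat_lit 0, [],
 C1.Rw.none, C1.Rw.none,
 zbF0, []⟩
noncomputable def p060_l97 : Lf2 := ⟨nat_lit 0, nat_lit 15, [nat_lit 30, nat_lit 5, nat_lit 5, nat_lit 20], false, nat_lit 0, nat_lit 276, nat_lit 0, nat_lit 312, ⟨nat_lit 1000, nat_lit 0, nat_lit 0, nat_lit 0, nat_lit 0, nat_lit 0, nat_lit 0, nat_lit 0, nat_lit 0, nat_lit 0, nat_lit 0, nat_lit 0, nat_lit 0, nat_lit 0, nat_lit 0, nat_lit 0, false, false⟩,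
 nat_lit 19926, nat_lit 0, nat_lit 0, nat_lit 0, nat_lit 9127, nat_lit 10549, nat_lit 0, nat_lit 0, nat_lit 0, nat_lit 0, nat_lit 0, nat_lit 0, nat_lit 0, nat_lit 0, nat_lit 0, nat_lit 0, nat_lit 0, nat_lit 0, [],
 ⟨p060_k0, nat_lit 0, nat_lit 0, nat_lit 224, nat_lit 0, nat_lit 20362, [nat_lit 3282000000, nat_lit 6250000000, nat_lit 9842000000], [], [nat_lit 32015852220, nat_lit 35467060656, nat_lit 44947396416, nat_lit 46809232800, nat_lit 28407291527, nat_lit 30553983822, nat_lit 36597229905, nat_lit 37730131645], nat_lit 1271250, nat_lit 1271250, nat_lit 1271250, nat_lit 1271250, nat_lit 0, nat_lit 1949250, [nat_lit 780000, nat_lit 1435000, nat_lit 1271250], [nat_lit 8, nat_lit 40, nat_lit 40, nat_lit 80, nat_lit 1, nat_lit 401, nat_lit 175, nat_lit 11]⟩, ⟨p060_k1, nat_lit 0, nat_lit 0, nat_lit 259, nat_lit 0, nat_lit 26120, [nat_lit 4688000000, nat_lit 7968000000, nat_lit 11872000000], [], [nat_lit 35376446164,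 nat_lit 38062061072, nat_lit 49295973664, nat_lit 50440973600, nat_lit 31793067681, nat_lit 33093929066, nat_lit 39472718488, nat_lit 39865941610], nat_lit 1271250, nat_lit 1271250, nat_lit 1271250, nat_lit 1271250, nat_lit 0, nat_lit 2203500, [nat_lit 1100000, nat_lit 1785000, nat_lit 1271250], [nat_lit 21, nat_lit 40, nat_lit 40, nat_lit 80, nat_lit 14, nat_lit 483, nat_lit 250, nat_lit 12]⟩,
 zbF0, [⟨nat_lit 4, nat_lit 100, nat_lit 88, nat_lit 67, nat_lit 17461780⟩, ⟨nat_lit 7, nat_lit 96, nat_lit 100, nat_lit 69, nat_lit 20394233⟩]⟩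
noncomputable def p060_l98 : Lf2 := ⟨nat_lit 1, nat_lit 20, [nat_lit 5, nat_lit 5, nat_lit 5, nat_lit 20], false, nat_lit 0, nat_lit 300, nat_lit 0, nat_lit 336, zbN0,
 nat_lit 0, nat_lit 0, nat_lit 0, nat_lit 0, nat_lit 0, nat_lit 0, nat_lit 0, nat_lit 0, nat_lit 0, nat_lit 0, nat_lit 0, nat_lit 0, nat_lit 0, nat_lit 0, nat_lit 0, nat_lit 0, nat_lit 0, nat_lit 0, [],
 C1.Rw.none, C1.Rw.none,
 zbF0, []⟩
noncomputable def b_V_700_600_10_50 : St := ⟨true, nat_lit 1, nat_lit 2, nat_lit 0, nat_lit 80, nat_lit 280, nat_lit 320, nat_lit 240, nat_lit 280, nat_lit 36, nat_lit 400, nat_lit 40, nat_lit 80, nat_lit 0, nat_lit 300, nat_lit 0, nat_lit 336, nat_lit 80, nat_lit 92, nat_lit 0, nat_lit 0, nat_lit 0, nat_lit 0⟩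
theorem d_V_700_600_10_50 (h : EB TB.env) : Dead b_V_700_600_10_50 := chkB_sound0 h (T :=
(.gv
(.st (nat_lit 1)
(.spl (nat_lit 2) (nat_lit 240)
(.spl (nat_lit 3) (nat_lit 60)
(.trX (nat_lit 16) (nat_lit 99) (nat_lit 100) (nat_lit 77) (nat_lit 276) (.trX (nat_lit 19) (nat_lit 100) (nat_lit 85) (nat_lit 73) (nat_lit 312) (.spl (nat_lit 6) (nat_lit 84)
(.spl (nat_lit 2) (nat_lit 120)
(.spl (nat_lit 4) (nat_lit 160)
(.leaf p060_l75)
(.leaf p060_l76))
(.leaf p060_l77))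
(.leaf p060_l78))))
(.leaf p060_l79))
(.spl (nat_lit 3) (nat_lit 60)
(.trX (nat_lit 16) (nat_lit 99) (nat_lit 100) (nat_lit 77) (nat_lit 276) (.trX (nat_lit 19) (nat_lit 100) (nat_lit 85) (nat_lit 73) (nat_lit 312) (.leaf p060_l80)))
(.leaf p060_l81)))
(.spl (nat_lit 2) (nat_lit 240)
(.spl (nat_lit 3) (nat_lit 60)
(.trX (nat_lit 16) (nat_lit 99) (nat_lit 100) (nat_lit 77) (nat_lit 276) (.trX (nat_lit 19) (nat_lit 100) (nat_lit 85) (nat_lit 73) (nat_lit 312) (.spl (nat_lit 6) (nat_lit 84)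
(.spl (nat_lit 2) (nat_lit 120)
(.spl (nat_lit 0) (nat_lit 300)
(.leaf p060_l82)
(.trZ (nat_lit 0) (nat_lit 100) (nat_lit 88) (nat_lit 68) (nat_lit 48) (.trX (nat_lit 16) (nat_lit 90) (nat_lit 100) (nat_lit 74) (nat_lit 256) (.leaf p060_l83))))
(.spl (nat_lit 4) (nat_lit 160)
(.leaf p060_l84)
(.leaf p060_l85)))
(.leaf p060_l86))))
(.leaf p060_l87))
(.spl (nat_lit 3) (nat_lit 60)
(.trX (nat_lit 16) (nat_lit 99) (nat_lit 100) (nat_lit 77) (nat_lit 276) (.trX (nat_lit 19) (nat_lit 100) (nat_lit 85) (nat_lit 73) (nat_lit 312) (.leaf p060_l88)))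
(.leaf p060_l89))))
(.st (nat_lit 1)
(.spl (nat_lit 2) (nat_lit 120)
(.leaf p060_l90)
(.spl (nat_lit 3) (nat_lit 60)
(.trX (nat_lit 16) (nat_lit 99) (nat_lit 100) (nat_lit 77) (nat_lit 276) (.trX (nat_lit 19) (nat_lit 100) (nat_lit 85) (nat_lit 73) (nat_lit 312) (.spl (nat_lit 6) (nat_lit 84)
(.spl (nat_lit 2) (nat_lit 240)
(.leaf p060_l91)
(.leaf p060_l92))
(.leaf p060_l93))))
(.leaf p060_l94)))
(.spl (nat_lit 2) (nat_lit 240)
(.spl (nat_lit 3) (nat_lit 60)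
(.trX (nat_lit 16) (nat_lit 99) (nat_lit 100) (nat_lit 77) (nat_lit 276) (.trX (nat_lit 19) (nat_lit 100) (nat_lit 85) (nat_lit 73) (nat_lit 312) (.leaf p060_l95)))
(.leaf p060_l96))
(.spl (nat_lit 3) (nat_lit 60)
(.trX (nat_lit 16) (nat_lit 99) (nat_lit 100) (nat_lit 77) (nat_lit 276) (.trX (nat_lit 19) (nat_lit 100) (nat_lit 85) (nat_lit 73) (nat_lit 312) (.leaf p060_l97)))
(.leaf p060_l98)))))) (by decide +kernel)
noncomputable def p060_l99 : Lf2 := ⟨nat_lit 0, nat_lit 10, [nat_lit 0, nat_lit 5, nat_lit 5, nat_lit 20], true, nat_lit 0, nat_lit 160, nat_lit 0, nat_lit 364, ⟨nat_lit 0, nat_lit 0, nat_lit 1000, nat_lit 6, nat_lit 136, nat_lit 446, nat_lit 64, nat_lit 1000, nat_lit 38400, nat_lit 263, nat_lit 173400, nat_lit 317, nat_lit 60021743, nat_lit 0, nat_lit 0, nat_lit 1670565, false, false⟩,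
 nat_lit 0, nat_lit 0, nat_lit 0, nat_lit 7052, nat_lit 3024, nat_lit 0, nat_lit 18, nat_lit 0, nat_lit 0, nat_lit 0, nat_lit 0, nat_lit 0, nat_lit 0, nat_lit 0, nat_lit 168, nat_lit 789400, nat_lit 0, nat_lit 0, [(nat_lit 12, [(nat_lit 5, nat_lit 351), (nat_lit 6, nat_lit 649)])],
 ⟨p060_k21, nat_lit 0, nat_lit 0, nat_lit 219, nat_lit 0, nat_lit 0, [nat_lit 3192159601, nat_lit 2440519601, nat_lit 341314800], [], [nat_lit 13742797336, nat_lit 15052975343, nat_lit 13837457147, nat_lit 14953712098, nat_lit 13914487174, nat_lit 15116143518, nat_lit 14402711682, nat_lit 15520512210], nat_lit 0, nat_lit 0, nat_lit 0, nat_lit 0, nat_lit 0, nat_lit 0, [], [nat_lit 8, nat_lit 40, nat_lit 40, nat_lit 80, nat_lit 1, nat_lit 289, nat_lit 75, nat_lit 9]⟩, C1.Rw.none,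
 ⟨nat_lit 5000, nat_lit 5478, ⟨.ofNat (nat_lit 235487), .ofNat (nat_lit 392847), .ofNat (nat_lit 278201), .ofNat (nat_lit 435548), .ofNat (nat_lit 249999), .ofNat (nat_lit 399998), .ofNat (nat_lit 292856), .ofNat (nat_lit 442843)⟩, ⟨.negSucc (nat_lit 2832), .ofNat (nat_lit 296923), .ofNat (nat_lit 0), .ofNat (nat_lit 339637), .ofNat (nat_lit 0), .ofNat (nat_lit 299999), .ofNat (nat_lit 0), .ofNat (nat_lit 342856)⟩⟩, [⟨nat_lit 0, nat_lit 100, nat_lit 94, nat_lit 88, nat_lit 113425315⟩]⟩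
noncomputable def p060_l100 : Lf2 := ⟨nat_lit 0, nat_lit 10, [nat_lit 0, nat_lit 5, nat_lit 5, nat_lit 20], true, nat_lit 0, nat_lit 160, nat_lit 0, nat_lit 364, ⟨nat_lit 0, nat_lit 0, nat_lit 1000, nat_lit 6, nat_lit 145, nat_lit 352, nat_lit 65, nat_lit 1000, nat_lit 38400, nat_lit 263, nat_lit 198017, nat_lit 324, nat_lit 59224880, nat_lit 0, nat_lit 0, nat_lit 1794864, false, false⟩,
 nat_lit 0, nat_lit 0, nat_lit 0, nat_lit 3997, nat_lit 3099, nat_lit 0, nat_lit 0, nat_lit 0, nat_lit 0, nat_lit 0, nat_lit 0, nat_lit 0, nat_lit 0, nat_lit 0, nat_lit 94, nat_lit 400000, nat_lit 0, nat_lit 0, [(nat_lit 15, [(nat_lit 5, nat_lit 1000)])],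
 ⟨p060_k22, nat_lit 0, nat_lit 0, nat_lit 162, nat_lit 0, nat_lit 0, [nat_lit 2443200000, nat_lit 153000000], [], [nat_lit 15235387920, nat_lit 16776476076, nat_lit 15487159446, nat_lit 16699725676, nat_lit 15415995390, nat_lit 16529994000, nat_lit 15752057846, nat_lit 16910643664], nat_lit 0, nat_lit 0, nat_lit 0, nat_lit 0, nat_lit 0, nat_lit 0, [], [nat_lit 74, nat_lit 40, nat_lit 40, nat_lit 80, nat_lit 43, nat_lit 289, nat_lit 75, nat_lit 10]⟩, C1.Rw.none,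
 ⟨nat_lit 4472, nat_lit 5000, ⟨.ofNat (nat_lit 271418), .ofNat (nat_lit 399984), .ofNat (nat_lit 314253), .ofNat (nat_lit 442816), .ofNat (nat_lit 284805), .ofNat (nat_lit 407160), .ofNat (nat_lit 327916), .ofNat (nat_lit 450269)⟩, ⟨.ofNat (nat_lit 0), .ofNat (nat_lit 299999), .ofNat (nat_lit 0), .ofNat (nat_lit 342856), .ofNat (nat_lit 0), .ofNat (nat_lit 302621), .ofNat (nat_lit 0), .ofNat (nat_lit 345754)⟩⟩, [⟨nat_lit 0, nat_lit 100, nat_lit 88, nat_lit 81, nat_lit 98300434⟩]⟩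
noncomputable def p060_l101 : Lf2 := ⟨nat_lit 0, nat_lit 10, [nat_lit 0, nat_lit 5, nat_lit 5, nat_lit 20], false, nat_lit 0, nat_lit 160, nat_lit 0, nat_lit 364, ⟨nat_lit 1000, nat_lit 0, nat_lit 0, nat_lit 0, nat_lit 0, nat_lit 0, nat_lit 0, nat_lit 0, nat_lit 0, nat_lit 0, nat_lit 0, nat_lit 0, nat_lit 0, nat_lit 0, nat_lit 0, nat_lit 0, false, false⟩,
 nat_lit 0, nat_lit 0, nat_lit 0, nat_lit 17261, nat_lit 7402, nat_lit 9992, nat_lit 1371, nat_lit 0, nat_lit 0, nat_lit 1146, nat_lit 0, nat_lit 0, nat_lit 0, nat_lit 0, nat_lit 0, nat_lit 0, nat_lit 0, nat_lit 0, [],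
 ⟨p060_k21, nat_lit 0, nat_lit 0, nat_lit 182, nat_lit 0, nat_lit 0, [nat_lit 3282000000, nat_lit 6250000000, nat_lit 9842000000], [], [nat_lit 19721877375, nat_lit 23596744919, nat_lit 23501933384, nat_lit 27248150208, nat_lit 14921038280, nat_lit 18908268264, nat_lit 18962203360, nat_lit 22085119912], nat_lit 0, nat_lit 0, nat_lit 0, nat_lit 0, nat_lit 0, nat_lit 0, [], [nat_lit 8, nat_lit 40, nat_lit 40, nat_lit 80, nat_lit 1, nat_lit 317, nat_lit 100, nat_lit 9]⟩, ⟨p060_k23, nat_lit 0, nat_lit 0, nat_lit 212, nat_lit 0, nat_lit 0, [nat_lit 4688000000, nat_lit 7968000000, nat_lit 11872000000], [], [nat_lit 24552830360, nat_lit 28009684024, nat_lit 27599945912, nat_lit 30205524376, nat_lit 28422197220, nat_lit 29770867743, nat_lit 28632436021, nat_lit 30715023093], nat_lit 0, nat_lit 0, nat_lit 0, nat_lit 0, nat_lit 0, nat_lit 0, [], [nat_lit 21, nat_lit 40, nat_lit 40, nat_lit 80, nat_lit 14, nat_lit 456,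 nat_lit 225, nat_lit 12]⟩,
 zbF0, [⟨nat_lit 19, nat_lit 100, nat_lit 77, nat_lit 91, nat_lit 242208001⟩]⟩
noncomputable def p060_l102 : Lf2 := ⟨nat_lit 0, nat_lit 10, [nat_lit 0, nat_lit 5, nat_lit 5, nat_lit 20], true, nat_lit 160, nat_lit 240, nat_lit 0, nat_lit 364, ⟨nat_lit 0, nat_lit 0, nat_lit 1000, nat_lit 6, nat_lit 139, nat_lit 1000, nat_lit 157, nat_lit 1000, nat_lit 50417, nat_lit 270, nat_lit 180267, nat_lit 319, nat_lit 50454639, nat_lit 0, nat_lit 0, nat_lit 3899302, false, false⟩,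
 nat_lit 0, nat_lit 0, nat_lit 0, nat_lit 4039, nat_lit 3687, nat_lit 0, nat_lit 0, nat_lit 0, nat_lit 0, nat_lit 0, nat_lit 0, nat_lit 0, nat_lit 0, nat_lit 0, nat_lit 86, nat_lit 400000, nat_lit 0, nat_lit 0, [(nat_lit 12, [(nat_lit 5, nat_lit 1000)]), (nat_lit 15, [(nat_lit 5, nat_lit 1000)])],
 ⟨p060_k24, nat_lit 0, nat_lit 0, nat_lit 49, nat_lit 0, nat_lit 0, [nat_lit 2347200000, nat_lit 174400000], [], [nat_lit 12370576281, nat_lit 16085706007, nat_lit 12377822304, nat_lit 15543711436, nat_lit 16166344317, nat_lit 19324972145, nat_lit 15736193408, nat_lit 18644725960], nat_lit 0, nat_lit 0, nat_lit 0, nat_lit 0, nat_lit 0, nat_lit 0, [], [nat_lit 82, nat_lit 40, nat_lit 40, nat_lit 80, nat_lit 63, nat_lit 317, nat_lit 100, nat_lit 9]⟩, C1.Rw.none,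
 ⟨nat_lit 4472, nat_lit 5478, ⟨.ofNat (nat_lit 235487), .ofNat (nat_lit 392815), .ofNat (nat_lit 278138), .ofNat (nat_lit 435455), .ofNat (nat_lit 264421), .ofNat (nat_lit 407143), .ofNat (nat_lit 307491), .ofNat (nat_lit 450202)⟩, ⟨.ofNat (nat_lit 296923), .ofNat (nat_lit 446789), .ofNat (nat_lit 339637), .ofNat (nat_lit 489503), .ofNat (nat_lit 302621), .ofNat (nat_lit 438578), .ofNat (nat_lit 345754), .ofNat (nat_lit 481711)⟩⟩, [⟨nat_lit 0, nat_lit 100, nat_lit 91, nat_lit 77, nat_lit 153533503⟩]⟩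
noncomputable def p060_l103 : Lf2 := ⟨nat_lit 0, nat_lit 10, [nat_lit 0, nat_lit 5, nat_lit 5, nat_lit 20], false, nat_lit 240, nat_lit 336, nat_lit 0, nat_lit 160, ⟨nat_lit 1000, nat_lit 0, nat_lit 0, nat_lit 0, nat_lit 0, nat_lit 0, nat_lit 0, nat_lit 0, nat_lit 0, nat_lit 0, nat_lit 0, nat_lit 0, nat_lit 0, nat_lit 0, nat_lit 0, nat_lit 0, false, false⟩,
 nat_lit 0, nat_lit 0, nat_lit 0, nat_lit 26409, nat_lit 7776, nat_lit 8611, nat_lit 1064, nat_lit 0, nat_lit 0, nat_lit 2041, nat_lit 0, nat_lit 0, nat_lit 0, nat_lit 0, nat_lit 0, nat_lit 0, nat_lit 0, nat_lit 0, [],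
 ⟨p060_k21, nat_lit 0, nat_lit 0, nat_lit 164, nat_lit 0, nat_lit 0, [nat_lit 3282000000, nat_lit 6250000000, nat_lit 9842000000], [], [nat_lit 21860825000, nat_lit 24943555743, nat_lit 19864859208, nat_lit 22824166056, nat_lit 28239051137, nat_lit 31809903509, nat_lit 26099172033, nat_lit 28983372570], nat_lit 0, nat_lit 0, nat_lit 0, nat_lit 0, nat_lit 0, nat_lit 0, [], [nat_lit 8, nat_lit 40, nat_lit 40, nat_lit 80, nat_lit 1, nat_lit 345, nat_lit 125, nat_lit 9]⟩, ⟨p060_k23, nat_lit 0, nat_lit 0, nat_lit 340, nat_lit 0, nat_lit 0, [nat_lit 4688000000, nat_lit 7968000000, nat_lit 11872000000], [], [nat_lit 22047202455, nat_lit 26449443671, nat_lit 19295010016, nat_lit 23753000164, nat_lit 16631102810, nat_lit 20096746540, nat_lit 15060782284, nat_lit 18107765024], nat_lit 0, nat_lit 0, nat_lit 0, nat_lit 0, nat_lit 0, nat_lit 0, [], [nat_lit 21, nat_lit 40, nat_lit 40, nat_lit 80, nat_lit 14, nat_lit 373,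 nat_lit 150, nat_lit 10]⟩,
 zbF0, [⟨nat_lit 0, nat_lit 100, nat_lit 91, nat_lit 77, nat_lit 1315302105⟩, ⟨nat_lit 16, nat_lit 100, nat_lit 80, nat_lit 100, nat_lit 572732483⟩]⟩
noncomputable def p060_l104 : Lf2 := ⟨nat_lit 0, nat_lit 10, [nat_lit 0, nat_lit 5, nat_lit 5, nat_lit 20], false, nat_lit 240, nat_lit 336, nat_lit 160, nat_lit 240, ⟨nat_lit 1000, nat_lit 0, nat_lit 0, nat_lit 0, nat_lit 0, nat_lit 0, nat_lit 0, nat_lit 0, nat_lit 0, nat_lit 0, nat_lit 0, nat_lit 0, nat_lit 0, nat_lit 0, nat_lit 0, nat_lit 0, false, false⟩,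
 nat_lit 0, nat_lit 0, nat_lit 0, nat_lit 10793, nat_lit 7649, nat_lit 8017, nat_lit 1062, nat_lit 0, nat_lit 0, nat_lit 0, nat_lit 0, nat_lit 0, nat_lit 0, nat_lit 0, nat_lit 0, nat_lit 0, nat_lit 0, nat_lit 0, [],
 ⟨p060_k21, nat_lit 0, nat_lit 0, nat_lit 164, nat_lit 0, nat_lit 0, [nat_lit 3282000000, nat_lit 6250000000, nat_lit 9842000000], [], [nat_lit 21912309301, nat_lit 24965082978, nat_lit 19961344942, nat_lit 22892248494, nat_lit 28235645147, nat_lit 31606006726, nat_lit 26144887969, nat_lit 28837395011], nat_lit 0, nat_lit 0, nat_lit 0, nat_lit 0, nat_lit 0, nat_lit 0, [], [nat_lit 8, nat_lit 40, nat_lit 40, nat_lit 80, nat_lit 1, nat_lit 345, nat_lit 125, nat_lit 9]⟩, ⟨p060_k23, nat_lit 0, nat_lit 0, nat_lit 59, nat_lit 0, nat_lit 0, [nat_lit 4688000000, nat_lit 7968000000, nat_lit 11872000000], [], [nat_lit 8170086383, nat_lit 13035837480, nat_lit 6629119100, nat_lit 10944706912, nat_lit 13797936256,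 nat_lit 18202164829, nat_lit 11784826204, nat_lit 15749048908], nat_lit 0, nat_lit 0, nat_lit 0, nat_lit 0, nat_lit 0, nat_lit 0, [], [nat_lit 21, nat_lit 40, nat_lit 40, nat_lit 80, nat_lit 14, nat_lit 373, nat_lit 150, nat_lit 9]⟩,
 zbF0, [⟨nat_lit 0, nat_lit 100, nat_lit 91, nat_lit 77, nat_lit 541462574⟩, ⟨nat_lit 4, nat_lit 100, nat_lit 100, nat_lit 100, nat_lit 10783878⟩, ⟨nat_lit 11, nat_lit 100, nat_lit 71, nat_lit 70, nat_lit 246626913⟩, ⟨nat_lit 23, nat_lit 95, nat_lit 100, nat_lit 74, nat_lit 522165987⟩]⟩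
noncomputable def p060_l105 : Lf2 := ⟨nat_lit 0, nat_lit 10, [nat_lit 0, nat_lit 5, nat_lit 5, nat_lit 20], true, nat_lit 240, nat_lit 280, nat_lit 240, nat_lit 336, ⟨nat_lit 0, nat_lit 1000, nat_lit 0, nat_lit 6, nat_lit 122, nat_lit 1000, nat_lit 201, nat_lit 0, nat_lit 0, nat_lit 0, nat_lit 0, nat_lit 0, nat_lit 47814515, nat_lit 6013511, nat_lit 13171974, nat_lit 4146815, false, false⟩,
 nat_lit 0, nat_lit 0, nat_lit 0, nat_lit 2908, nat_lit 4382, nat_lit 0, nat_lit 0, nat_lit 0, nat_lit 0, nat_lit 0, nat_lit 0, nat_lit 0, nat_lit 0, nat_lit 0, nat_lit 0, nat_lit 250000, nat_lit 0, nat_lit 0, [(nat_lit 12, [(nat_lit 0, nat_lit 1000)])],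
 ⟨p060_k21, nat_lit 0, nat_lit 0, nat_lit 82, nat_lit 0, nat_lit 0, [nat_lit 2364000000, nat_lit 2954000000, nat_lit 3510800000], [], [nat_lit 16493109965, nat_lit 18222976169, nat_lit 15792910872, nat_lit 17295058920, nat_lit 19425516528, nat_lit 20978781541, nat_lit 18367911716, nat_lit 19868893152], nat_lit 0, nat_lit 0, nat_lit 0, nat_lit 0, nat_lit 0, nat_lit 0, [], [nat_lit 8, nat_lit 40, nat_lit 40, nat_lit 80, nat_lit 1, nat_lit 317, nat_lit 100, nat_lit 9]⟩, C1.Rw.none,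
 ⟨nat_lit 5000, nat_lit 5478, ⟨.ofNat (nat_lit 235487), .ofNat (nat_lit 317913), .ofNat (nat_lit 278201), .ofNat (nat_lit 360625), .ofNat (nat_lit 249999), .ofNat (nat_lit 328570), .ofNat (nat_lit 292856), .ofNat (nat_lit 371424)⟩, ⟨.ofNat (nat_lit 446789), .ofNat (nat_lit 521722), .ofNat (nat_lit 489503), .ofNat (nat_lit 564436), .ofNat (nat_lit 442856), .ofNat (nat_lit 514284), .ofNat (nat_lit 485713), .ofNat (nat_lit 557141)⟩⟩, [⟨nat_lit 0, nat_lit 100, nat_lit 94, nat_lit 73, nat_lit 236126525⟩]⟩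
noncomputable def p060_l106 : Lf2 := ⟨nat_lit 0, nat_lit 10, [nat_lit 0, nat_lit 5, nat_lit 5, nat_lit 20], true, nat_lit 240, nat_lit 280, nat_lit 240, nat_lit 336, ⟨nat_lit 0, nat_lit 1000, nat_lit 0, nat_lit 6, nat_lit 131, nat_lit 1000, nat_lit 199, nat_lit 0, nat_lit 0, nat_lit 0, nat_lit 0, nat_lit 0, nat_lit 47405213, nat_lit 6707626, nat_lit 12887161, nat_lit 4236716, false, false⟩,
 nat_lit 0, nat_lit 0, nat_lit 0, nat_lit 2872, nat_lit 4204, nat_lit 0, nat_lit 0, nat_lit 0, nat_lit 0, nat_lit 0, nat_lit 0, nat_lit 0, nat_lit 0, nat_lit 0, nat_lit 0, nat_lit 250000, nat_lit 0, nat_lit 0, [(nat_lit 15, [(nat_lit 0, nat_lit 1000)])],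
 ⟨p060_k22, nat_lit 0, nat_lit 0, nat_lit 56, nat_lit 0, nat_lit 0, [nat_lit 2318400000, nat_lit 3071600000], [], [nat_lit 17767607604, nat_lit 19415027255, nat_lit 17384194240, nat_lit 18854148496, nat_lit 20420469989, nat_lit 21929171729, nat_lit 19769251616, nat_lit 21238640464], nat_lit 0, nat_lit 0, nat_lit 0, nat_lit 0, nat_lit 0, nat_lit 0, [], [nat_lit 74, nat_lit 40, nat_lit 40, nat_lit 80, nat_lit 43, nat_lit 226, nat_lit 20, nat_lit 7]⟩, C1.Rw.none,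
 ⟨nat_lit 4472, nat_lit 5000, ⟨.ofNat (nat_lit 271418), .ofNat (nat_lit 328559), .ofNat (nat_lit 314253), .ofNat (nat_lit 371392), .ofNat (nat_lit 284805), .ofNat (nat_lit 339186), .ofNat (nat_lit 327916), .ofNat (nat_lit 382295)⟩, ⟨.ofNat (nat_lit 442856), .ofNat (nat_lit 514284), .ofNat (nat_lit 485713), .ofNat (nat_lit 557141), .ofNat (nat_lit 438578), .ofNat (nat_lit 506556), .ofNat (nat_lit 481711), .ofNat (nat_lit 549689)⟩⟩, [⟨nat_lit 0, nat_lit 100, nat_lit 88, nat_lit 81, nat_lit 490561901⟩]⟩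
noncomputable def p060_l107 : Lf2 := ⟨nat_lit 0, nat_lit 10, [nat_lit 0, nat_lit 5, nat_lit 5, nat_lit 20], false, nat_lit 280, nat_lit 312, nat_lit 240, nat_lit 276, ⟨nat_lit 1000, nat_lit 0, nat_lit 0, nat_lit 0, nat_lit 0, nat_lit 0, nat_lit 0, nat_lit 0, nat_lit 0, nat_lit 0, nat_lit 0, nat_lit 0, nat_lit 0, nat_lit 0, nat_lit 0, nat_lit 0, false, false⟩,
 nat_lit 0, nat_lit 0, nat_lit 0, nat_lit 10797, nat_lit 8344, nat_lit 7432, nat_lit 1108, nat_lit 0, nat_lit 0, nat_lit 0, nat_lit 0, nat_lit 0, nat_lit 0, nat_lit 0, nat_lit 0, nat_lit 0, nat_lit 0, nat_lit 0, [],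
 ⟨p060_k21, nat_lit 0, nat_lit 0, nat_lit 155, nat_lit 0, nat_lit 0, [nat_lit 3282000000, nat_lit 6250000000, nat_lit 9842000000], [], [nat_lit 24043864027, nat_lit 27199354661, nat_lit 22703599452, nat_lit 25509040532, nat_lit 26153898208, nat_lit 30133114888, nat_lit 24771345417, nat_lit 28392392764], nat_lit 0, nat_lit 0, nat_lit 0, nat_lit 0, nat_lit 0, nat_lit 0, [], [nat_lit 8, nat_lit 40, nat_lit 40, nat_lit 80, nat_lit 1, nat_lit 226, nat_lit 20, nat_lit 6]⟩, ⟨p060_k23, nat_lit 0, nat_lit 0, nat_lit 74, nat_lit 0, nat_lit 0, [nat_lit 4688000000, nat_lit 7968000000, nat_lit 11872000000], [], [nat_lit 14050833908, nat_lit 15830677833, nat_lit 13125381840, nat_lit 14853742528, nat_lit 17772540841, nat_lit 19631858973, nat_lit 16455260852, nat_lit 18283994375], nat_lit 0, nat_lit 0, nat_lit 0, nat_lit 0, nat_lit 0, nat_lit 0, [], [nat_lit 21, nat_lit 40, nat_lit 40, nat_lit 80, nat_lit 14, nat_lit 373,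 nat_lit 150, nat_lit 9]⟩,
 zbF0, [⟨nat_lit 0, nat_lit 100, nat_lit 89, nat_lit 72, nat_lit 525736011⟩, ⟨nat_lit 23, nat_lit 99, nat_lit 100, nat_lit 77, nat_lit 912711924⟩]⟩
noncomputable def p060_l108 : Lf2 := ⟨nat_lit 0, nat_lit 10, [nat_lit 0, nat_lit 5, nat_lit 5, nat_lit 20], false, nat_lit 280, nat_lit 312, nat_lit 240, nat_lit 276, ⟨nat_lit 1000, nat_lit 0, nat_lit 0, nat_lit 0, nat_lit 0, nat_lit 0, nat_lit 0, nat_lit 0, nat_lit 0, nat_lit 0, nat_lit 0, nat_lit 0, nat_lit 0, nat_lit 0, nat_lit 0, nat_lit 0, false, false⟩,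
 nat_lit 0, nat_lit 0, nat_lit 0, nat_lit 11783, nat_lit 8344, nat_lit 7164, nat_lit 1212, nat_lit 0, nat_lit 0, nat_lit 0, nat_lit 0, nat_lit 0, nat_lit 0, nat_lit 0, nat_lit 0, nat_lit 0, nat_lit 0, nat_lit 0, [],
 ⟨p060_k21, nat_lit 0, nat_lit 0, nat_lit 146, nat_lit 0, nat_lit 0, [nat_lit 3282000000, nat_lit 6250000000, nat_lit 9842000000], [], [nat_lit 22613971148, nat_lit 26231592209, nat_lit 22041128728, nat_lit 25507268112, nat_lit 25186978978, nat_lit 29145422488, nat_lit 24625586361, nat_lit 28392392764], nat_lit 0, nat_lit 0, nat_lit 0, nat_lit 0, nat_lit 0, nat_lit 0, [], [nat_lit 8, nat_lit 40, nat_lit 40, nat_lit 80, nat_lit 1, nat_lit 226, nat_lit 20, nat_lit 6]⟩, ⟨p060_k25, nat_lit 0, nat_lit 0, nat_lit 73, nat_lit 0, nat_lit 0, [nat_lit 4688000000, nat_lit 7968000000, nat_lit 9842000000], [], [nat_lit 15477492724, nat_lit 17187949540, nat_lit 15117748256, nat_lit 16808110832, nat_lit 18710453733,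 nat_lit 20516065720, nat_lit 18182111412, nat_lit 19970495957], nat_lit 0, nat_lit 0, nat_lit 0, nat_lit 0, nat_lit 0, nat_lit 0, [], [nat_lit 29, nat_lit 40, nat_lit 40, nat_lit 80, nat_lit 17, nat_lit 401, nat_lit 175, nat_lit 11]⟩,
 zbF0, [⟨nat_lit 0, nat_lit 100, nat_lit 92, nat_lit 82, nat_lit 659778625⟩, ⟨nat_lit 11, nat_lit 100, nat_lit 92, nat_lit 75, nat_lit 702455522⟩, ⟨nat_lit 23, nat_lit 99, nat_lit 100, nat_lit 77, nat_lit 228502000⟩]⟩
noncomputable def p060_l109 : Lf2 := ⟨nat_lit 0, nat_lit 10, [nat_lit 0, nat_lit 5, nat_lit 5, nat_lit 20], false, nat_lit 280, nat_lit 336, nat_lit 240, nat_lit 300, ⟨nat_lit 1000, nat_lit 0, nat_lit 0, nat_lit 0, nat_lit 0, nat_lit 0, nat_lit 0, nat_lit 0, nat_lit 0, nat_lit 0, nat_lit 0, nat_lit 0, nat_lit 0, nat_lit 0, nat_lit 0, nat_lit 0, false, false⟩,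
 nat_lit 0, nat_lit 0, nat_lit 0, nat_lit 10941, nat_lit 8532, nat_lit 7459, nat_lit 1104, nat_lit 0, nat_lit 0, nat_lit 0, nat_lit 0, nat_lit 0, nat_lit 0, nat_lit 0, nat_lit 0, nat_lit 0, nat_lit 0, nat_lit 0, [],
 ⟨p060_k21, nat_lit 0, nat_lit 0, nat_lit 147, nat_lit 0, nat_lit 0, [nat_lit 3282000000, nat_lit 6250000000, nat_lit 9842000000], [], [nat_lit 22665724356, nat_lit 25680443432, nat_lit 21676982376, nat_lit 24466808776, nat_lit 27463032351, nat_lit 31187849109, nat_lit 26188511681, nat_lit 29852341348], nat_lit 0, nat_lit 0, nat_lit 0, nat_lit 0, nat_lit 0, nat_lit 0, [], [nat_lit 8, nat_lit 40, nat_lit 40, nat_lit 80, nat_lit 1, nat_lit 226, nat_lit 20, nat_lit 6]⟩, ⟨p060_k23, nat_lit 0, nat_lit 0, nat_lit 79, nat_lit 0, nat_lit 0, [nat_lit 4688000000, nat_lit 7968000000, nat_lit 11872000000], [], [nat_lit 13094956080, nat_lit 16617699348, nat_lit 12489015508, nat_lit 15884288420, nat_lit 19109892035,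 nat_lit 22466629161, nat_lit 18159563713, nat_lit 21464580898], nat_lit 0, nat_lit 0, nat_lit 0, nat_lit 0, nat_lit 0, nat_lit 0, [], [nat_lit 21, nat_lit 40, nat_lit 40, nat_lit 80, nat_lit 14, nat_lit 401, nat_lit 175, nat_lit 10]⟩,
 zbF0, [⟨nat_lit 0, nat_lit 100, nat_lit 91, nat_lit 77, nat_lit 371294072⟩, ⟨nat_lit 4, nat_lit 100, nat_lit 100, nat_lit 100, nat_lit 45231468⟩, ⟨nat_lit 11, nat_lit 100, nat_lit 100, nat_lit 84, nat_lit 838301695⟩]⟩
noncomputable def p060_l110 : Lf2 := ⟨nat_lit 0, nat_lit 10, [nat_lit 0, nat_lit 5, nat_lit 5, nat_lit 20], false, nat_lit 240, nat_lit 336, nat_lit 0, nat_lit 160, ⟨nat_lit 1000, nat_lit 0, nat_lit 0, nat_lit 0, nat_lit 0, nat_lit 0, nat_lit 0, nat_lit 0, nat_lit 0, nat_lit 0, nat_lit 0, nat_lit 0, nat_lit 0, nat_lit 0, nat_lit 0, nat_lit 0, false, false⟩,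
 nat_lit 0, nat_lit 0, nat_lit 0, nat_lit 16136, nat_lit 7639, nat_lit 8120, nat_lit 0, nat_lit 0, nat_lit 0, nat_lit 1801, nat_lit 0, nat_lit 0, nat_lit 0, nat_lit 0, nat_lit 0, nat_lit 0, nat_lit 0, nat_lit 0, [],
 ⟨p060_k21, nat_lit 0, nat_lit 0, nat_lit 88, nat_lit 0, nat_lit 0, [nat_lit 3282000000, nat_lit 6250000000, nat_lit 9842000000], [], [nat_lit 18657340504, nat_lit 22257532944, nat_lit 18274435604, nat_lit 21681434752, nat_lit 26148487649, nat_lit 28825980206, nat_lit 25370214337, nat_lit 27910786247], nat_lit 0, nat_lit 0, nat_lit 0, nat_lit 0, nat_lit 0, nat_lit 0, [], [nat_lit 8, nat_lit 40, nat_lit 40, nat_lit 80, nat_lit 1, nat_lit 345, nat_lit 125, nat_lit 9]⟩, ⟨p060_k23, nat_lit 0, nat_lit 0, nat_lit 235, nat_lit 0, nat_lit 0, [nat_lit 4688000000, nat_lit 7968000000, nat_lit 11872000000], [], [nat_lit 20513832380, nat_lit 23723282880, nat_lit 19692663100, nat_lit 23158408640, nat_lit 16093137280,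 nat_lit 19035370080, nat_lit 15933986400, nat_lit 18706576960], nat_lit 0, nat_lit 0, nat_lit 0, nat_lit 0, nat_lit 0, nat_lit 0, [], [nat_lit 21, nat_lit 40, nat_lit 40, nat_lit 80, nat_lit 14, nat_lit 373, nat_lit 150, nat_lit 10]⟩,
 zbF0, [⟨nat_lit 0, nat_lit 100, nat_lit 91, nat_lit 77, nat_lit 116431022⟩, ⟨nat_lit 16, nat_lit 100, nat_lit 80, nat_lit 100, nat_lit 590008149⟩]⟩
noncomputable def p060_l111 : Lf2 := ⟨nat_lit 0, nat_lit 10, [nat_lit 0, nat_lit 5, nat_lit 5, nat_lit 20], false, nat_lit 240, nat_lit 336, nat_lit 160, nat_lit 352, ⟨nat_lit 1000, nat_lit 0, nat_lit 0, nat_lit 0, nat_lit 0, nat_lit 0, nat_lit 0, nat_lit 0, nat_lit 0, nat_lit 0, nat_lit 0, nat_lit 0, nat_lit 0, nat_lit 0, nat_lit 0, nat_lit 0, false, false⟩,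
 nat_lit 0, nat_lit 0, nat_lit 0, nat_lit 2760, nat_lit 6078, nat_lit 6403, nat_lit 0, nat_lit 0, nat_lit 0, nat_lit 0, nat_lit 0, nat_lit 0, nat_lit 0, nat_lit 0, nat_lit 0, nat_lit 0, nat_lit 0, nat_lit 0, [],
 ⟨p060_k26, nat_lit 0, nat_lit 0, nat_lit 73, nat_lit 0, nat_lit 0, [nat_lit 3282000000, nat_lit 4688000000, nat_lit 9842000000], [], [nat_lit 17580388496, nat_lit 20634276936, nat_lit 17584247884, nat_lit 20517346372, nat_lit 24351456428, nat_lit 27031641109, nat_lit 24142201489, nat_lit 26664758271], nat_lit 0, nat_lit 0, nat_lit 0, nat_lit 0, nat_lit 0, nat_lit 0, [], [nat_lit 42, nat_lit 40, nat_lit 40, nat_lit 80, nat_lit 13, nat_lit 345, nat_lit 125, nat_lit 9]⟩, ⟨p060_k27, nat_lit 0, nat_lit 0, nat_lit 82, nat_lit 0, nat_lit 0, [nat_lit 4688000000, nat_lit 6250000000, nat_lit 11872000000], [], [nat_lit 9201350900, nat_lit 12939714208, nat_lit 9347987708, nat_lit 12986025786, nat_lit 23559038373,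 nat_lit 26007939476, nat_lit 23333666645, nat_lit 25631063301], nat_lit 0, nat_lit 0, nat_lit 0, nat_lit 0, nat_lit 0, nat_lit 0, [], [nat_lit 48, nat_lit 40, nat_lit 40, nat_lit 80, nat_lit 12, nat_lit 428, nat_lit 200, nat_lit 11]⟩,
 zbF0, [⟨nat_lit 23, nat_lit 100, nat_lit 96, nat_lit 93, nat_lit 84223919⟩, ⟨nat_lit 11, nat_lit 100, nat_lit 100, nat_lit 95, nat_lit 532621296⟩]⟩
noncomputable def p060_l112 : Lf2 := ⟨nat_lit 0, nat_lit 10, [nat_lit 0, nat_lit 5, nat_lit 5, nat_lit 20], false, nat_lit 240, nat_lit 336, nat_lit 160, nat_lit 364, ⟨nat_lit 1000, nat_lit 0, nat_lit 0, nat_lit 0, nat_lit 0, nat_lit 0, nat_lit 0, nat_lit 0, nat_lit 0, nat_lit 0, nat_lit 0, nat_lit 0, nat_lit 0, nat_lit 0, nat_lit 0, nat_lit 0, false, false⟩,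
 nat_lit 0, nat_lit 0, nat_lit 0, nat_lit 2760, nat_lit 4835, nat_lit 6304, nat_lit 0, nat_lit 0, nat_lit 0, nat_lit 0, nat_lit 0, nat_lit 0, nat_lit 0, nat_lit 0, nat_lit 0, nat_lit 0, nat_lit 0, nat_lit 0, [],
 ⟨p060_k26, nat_lit 0, nat_lit 0, nat_lit 66, nat_lit 0, nat_lit 0, [nat_lit 3282000000, nat_lit 4688000000, nat_lit 9842000000], [], [nat_lit 16368411150, nat_lit 19458041540, nat_lit 16450736640, nat_lit 19461838540, nat_lit 22895130184, nat_lit 25392750628, nat_lit 22817191820, nat_lit 25182601141], nat_lit 0, nat_lit 0, nat_lit 0, nat_lit 0, nat_lit 0, nat_lit 0, [], [nat_lit 42, nat_lit 40, nat_lit 40, nat_lit 80, nat_lit 13, nat_lit 345, nat_lit 125, nat_lit 9]⟩, ⟨p060_k27, nat_lit 0, nat_lit 0, nat_lit 81, nat_lit 0, nat_lit 0, [nat_lit 4688000000, nat_lit 6250000000, nat_lit 11872000000], [], [nat_lit 9511096544, nat_lit 13114957248, nat_lit 9663065888, nat_lit 13167829952, nat_lit 24512872163,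 nat_lit 26761750983, nat_lit 24268174861, nat_lit 26366901141], nat_lit 0, nat_lit 0, nat_lit 0, nat_lit 0, nat_lit 0, nat_lit 0, [], [nat_lit 48, nat_lit 40, nat_lit 40, nat_lit 80, nat_lit 12, nat_lit 428, nat_lit 200, nat_lit 11]⟩,
 zbF0, [⟨nat_lit 23, nat_lit 100, nat_lit 89, nat_lit 99, nat_lit 244237576⟩, ⟨nat_lit 11, nat_lit 95, nat_lit 95, nat_lit 100, nat_lit 359862216⟩]⟩
noncomputable def p060_l113 : Lf2 := ⟨nat_lit 0, nat_lit 10, [nat_lit 0, nat_lit 5, nat_lit 5, nat_lit 20], false, nat_lit 160, nat_lit 336, nat_lit 0, nat_lit 160, ⟨nat_lit 1000, nat_lit 0, nat_lit 0, nat_lit 0, nat_lit 0, nat_lit 0, nat_lit 0, nat_lit 0, nat_lit 0, nat_lit 0, nat_lit 0, nat_lit 0, nat_lit 0, nat_lit 0, nat_lit 0, nat_lit 0, false, false⟩,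
 nat_lit 0, nat_lit 0, nat_lit 0, nat_lit 15758, nat_lit 4785, nat_lit 8243, nat_lit 0, nat_lit 0, nat_lit 0, nat_lit 1750, nat_lit 0, nat_lit 0, nat_lit 0, nat_lit 0, nat_lit 0, nat_lit 0, nat_lit 0, nat_lit 0, [],
 ⟨p060_k21, nat_lit 0, nat_lit 0, nat_lit 71, nat_lit 0, nat_lit 0, [nat_lit 3282000000, nat_lit 6250000000, nat_lit 9842000000], [], [nat_lit 12859458720, nat_lit 16388164760, nat_lit 17254806640, nat_lit 20068811600, nat_lit 22838337220, nat_lit 25138365140, nat_lit 25166533116, nat_lit 27044200417], nat_lit 0, nat_lit 0, nat_lit 0, nat_lit 0, nat_lit 0, nat_lit 0, [], [nat_lit 8, nat_lit 40, nat_lit 40, nat_lit 80, nat_lit 1, nat_lit 373, nat_lit 150, nat_lit 10]⟩, ⟨p060_k23, nat_lit 0, nat_lit 0, nat_lit 212, nat_lit 0, nat_lit 0, [nat_lit 4688000000, nat_lit 7968000000, nat_lit 11872000000], [], [nat_lit 20065055440, nat_lit 23143288496, nat_lit 24115490580, nat_lit 27250682064, nat_lit 15659784960,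 nat_lit 18456518944, nat_lit 19132621084, nat_lit 21488766136], nat_lit 0, nat_lit 0, nat_lit 0, nat_lit 0, nat_lit 0, nat_lit 0, [], [nat_lit 21, nat_lit 40, nat_lit 40, nat_lit 80, nat_lit 14, nat_lit 401, nat_lit 175, nat_lit 10]⟩,
 zbF0, [⟨nat_lit 4, nat_lit 100, nat_lit 100, nat_lit 100, nat_lit 476997069⟩]⟩
noncomputable def p060_l114 : Lf2 := ⟨nat_lit 0, nat_lit 10, [nat_lit 0, nat_lit 5, nat_lit 5, nat_lit 20], false, nat_lit 160, nat_lit 336, nat_lit 160, nat_lit 364, ⟨nat_lit 1000, nat_lit 0, nat_lit 0, nat_lit 0, nat_lit 0, nat_lit 0, nat_lit 0, nat_lit 0, nat_lit 0, nat_lit 0, nat_lit 0, nat_lit 0, nat_lit 0, nat_lit 0, nat_lit 0, nat_lit 0, false, false⟩,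
 nat_lit 0, nat_lit 0, nat_lit 0, nat_lit 2811, nat_lit 4785, nat_lit 6388, nat_lit 0, nat_lit 0, nat_lit 0, nat_lit 0, nat_lit 0, nat_lit 0, nat_lit 0, nat_lit 0, nat_lit 0, nat_lit 0, nat_lit 0, nat_lit 0, [],
 ⟨p060_k21, nat_lit 0, nat_lit 0, nat_lit 71, nat_lit 0, nat_lit 0, [nat_lit 3282000000, nat_lit 6250000000, nat_lit 9842000000], [], [nat_lit 12859458720, nat_lit 16388164760, nat_lit 17254806640, nat_lit 20068811600, nat_lit 22838337220, nat_lit 25138365140, nat_lit 25166533116, nat_lit 27044200417], nat_lit 0, nat_lit 0, nat_lit 0, nat_lit 0, nat_lit 0, nat_lit 0, [], [nat_lit 8, nat_lit 40, nat_lit 40, nat_lit 80, nat_lit 1, nat_lit 373, nat_lit 150, nat_lit 10]⟩, ⟨p060_k23, nat_lit 0, nat_lit 0, nat_lit 87, nat_lit 0, nat_lit 0, [nat_lit 4688000000, nat_lit 7968000000, nat_lit 11872000000], [], [nat_lit 9520145936, nat_lit 13052866544, nat_lit 14688198112, nat_lit 17428300560, nat_lit 24232231278,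 nat_lit 26444371838, nat_lit 26358051092, nat_lit 28088920200], nat_lit 0, nat_lit 0, nat_lit 0, nat_lit 0, nat_lit 0, nat_lit 0, [], [nat_lit 21, nat_lit 40, nat_lit 40, nat_lit 80, nat_lit 14, nat_lit 456, nat_lit 225, nat_lit 11]⟩,
 zbF0, [⟨nat_lit 11, nat_lit 75, nat_lit 75, nat_lit 100, nat_lit 539049824⟩, ⟨nat_lit 11, nat_lit 41, nat_lit 95, nat_lit 100, nat_lit 104139737⟩]⟩
noncomputable def p060_l115 : Lf2 := ⟨nat_lit 0, nat_lit 10, [nat_lit 0, nat_lit 5, nat_lit 5, nat_lit 20], false, nat_lit 0, nat_lit 336, nat_lit 0, nat_lit 364, ⟨nat_lit 1000, nat_lit 0, nat_lit 0, nat_lit 0, nat_lit 0, nat_lit 0, nat_lit 0, nat_lit 0, nat_lit 0, nat_lit 0, nat_lit 0, nat_lit 0, nat_lit 0, nat_lit 0, nat_lit 0, nat_lit 0, false, false⟩,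
 nat_lit 0, nat_lit 0, nat_lit 0, nat_lit 16517, nat_lit 7100, nat_lit 7516, nat_lit 867, nat_lit 0, nat_lit 0, nat_lit 968, nat_lit 0, nat_lit 0, nat_lit 0, nat_lit 0, nat_lit 0, nat_lit 0, nat_lit 0, nat_lit 0, [],
 ⟨p060_k21, nat_lit 0, nat_lit 0, nat_lit 217, nat_lit 0, nat_lit 0, [nat_lit 3282000000, nat_lit 6250000000, nat_lit 9842000000], [], [nat_lit 26149779375, nat_lit 27632682775, nat_lit 38596885600, nat_lit 39867440600, nat_lit 27425708095, nat_lit 28211863735, nat_lit 35542896721, nat_lit 36233144081], nat_lit 0, nat_lit 0, nat_lit 0, nat_lit 0, nat_lit 0, nat_lit 0, [], [nat_lit 8, nat_lit 40, nat_lit 40, nat_lit 80, nat_lit 1, nat_lit 428, nat_lit 200, nat_lit 12]⟩, ⟨p060_k23, nat_lit 0, nat_lit 0, nat_lit 251, nat_lit 0, nat_lit 0, [nat_lit 4688000000, nat_lit 7968000000, nat_lit 11872000000], [], [nat_lit 28157868176, nat_lit 30407665248, nat_lit 39476598176, nat_lit 40575302400, nat_lit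 30416159049, nat_lit 31347819400, nat_lit 37021018551, nat_lit 37583289152], nat_lit 0, nat_lit 0, nat_lit 0, nat_lit 0, nat_lit 0, nat_lit 0, [], [nat_lit 21, nat_lit 40, nat_lit 40, nat_lit 80, nat_lit 14, nat_lit 538, nat_lit 300, nat_lit 13]⟩,
 zbF0, [⟨nat_lit 16, nat_lit 100, nat_lit 94, nat_lit 97, nat_lit 139489749⟩, ⟨nat_lit 19, nat_lit 100, nat_lit 77, nat_lit 91, nat_lit 170480088⟩]⟩
noncomputable def p060_l116 : Lf2 := ⟨nat_lit 0, nat_lit 10, [nat_lit 0, nat_lit 5, nat_lit 5, nat_lit 20], false, nat_lit 0, nat_lit 320, nat_lit 0, nat_lit 364, ⟨nat_lit 1000, nat_lit 0, nat_lit 0, nat_lit 0, nat_lit 0, nat_lit 0, nat_lit 0, nat_lit 0, nat_lit 0, nat_lit 0, nat_lit 0, nat_lit 0, nat_lit 0, nat_lit 0, nat_lit 0, nat_lit 0, false, false⟩,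
 nat_lit 0, nat_lit 0, nat_lit 0, nat_lit 11548, nat_lit 7792, nat_lit 7516, nat_lit 189, nat_lit 0, nat_lit 0, nat_lit 996, nat_lit 0, nat_lit 0, nat_lit 0, nat_lit 0, nat_lit 0, nat_lit 0, nat_lit 0, nat_lit 0, [],
 ⟨p060_k28, nat_lit 0, nat_lit 0, nat_lit 199, nat_lit 0, nat_lit 0, [nat_lit 3282000000, nat_lit 6250000000, nat_lit 7968000000], [], [nat_lit 29147433734, nat_lit 30497803734, nat_lit 41740813312, nat_lit 43074042752, nat_lit 28526554038, nat_lit 29266265142, nat_lit 36220375552, nat_lit 36977262304], nat_lit 0, nat_lit 0, nat_lit 0, nat_lit 0, nat_lit 0, nat_lit 0, [], [nat_lit 18, nat_lit 40, nat_lit 40, nat_lit 80, nat_lit 2, nat_lit 317, nat_lit 100, nat_lit 10]⟩, ⟨p060_k23, nat_lit 0, nat_lit 0, nat_lit 251, nat_lit 0, nat_lit 0, [nat_lit 4688000000, nat_lit 7968000000, nat_lit 11872000000], [], [nat_lit 27971318176, nat_lit 30221115248, nat_lit 39290048176, nat_lit 40388752400, nat_lit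 30229609049, nat_lit 31346111645, nat_lit 37021018551, nat_lit 37583289152], nat_lit 0, nat_lit 0, nat_lit 0, nat_lit 0, nat_lit 0, nat_lit 0, [], [nat_lit 21, nat_lit 40, nat_lit 40, nat_lit 80, nat_lit 14, nat_lit 538, nat_lit 300, nat_lit 13]⟩,
 zbF0, [⟨nat_lit 16, nat_lit 93, nat_lit 100, nat_lit 97, nat_lit 100015207⟩, ⟨nat_lit 19, nat_lit 100, nat_lit 77, nat_lit 91, nat_lit 173290565⟩]⟩
noncomputable def b_V_700_600_20_0 : St := ⟨true, nat_lit 0, nat_lit 0, nat_lit 1, nat_lit 120, nat_lit 280, nat_lit 320, nat_lit 240, nat_lit 280, nat_lit 36, nat_lit 400, nat_lit 80, nat_lit 120, nat_lit 0, nat_lit 336, nat_lit 0, nat_lit 364, nat_lit 0, nat_lit 40, nat_lit 0, nat_lit 0, nat_lit 0, nat_lit 0⟩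
theorem d_V_700_600_20_0 (h : EB TB.env) : Dead b_V_700_600_20_0 := chkB_sound0 h (T :=
(.spl (nat_lit 2) (nat_lit 240)
(.spl (nat_lit 4) (nat_lit 160)
(.spl (nat_lit 2) (nat_lit 120)
(.spl (nat_lit 0) (nat_lit 300)
(.leaf p060_l99)
(.trZ (nat_lit 0) (nat_lit 100) (nat_lit 88) (nat_lit 68) (nat_lit 48) (.leaf p060_l100)))
(.leaf p060_l101))
(.spl (nat_lit 2) (nat_lit 120)
(.spl (nat_lit 4) (nat_lit 240)
(.leaf p060_l102)
(.spl (nat_lit 2) (nat_lit 80)
(.trX (nat_lit 23) (nat_lit 100) (nat_lit 76) (nat_lit 82) (nat_lit 336) (.spl (nat_lit 5) (nat_lit 160)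
(.leaf p060_l103)
(.spl (nat_lit 5) (nat_lit 240)
(.leaf p060_l104)
(.spl (nat_lit 4) (nat_lit 280)
(.spl (nat_lit 0) (nat_lit 300)
(.leaf p060_l105)
(.trZ (nat_lit 0) (nat_lit 100) (nat_lit 88) (nat_lit 68) (nat_lit 48) (.leaf p060_l106)))
(.trX (nat_lit 23) (nat_lit 100) (nat_lit 95) (nat_lit 87) (nat_lit 300) (.spl (nat_lit 2) (nat_lit 60)
(.trX (nat_lit 11) (nat_lit 100) (nat_lit 85) (nat_lit 73) (nat_lit 312) (.trX (nat_lit 23) (nat_lit 99) (nat_lit 100) (nat_lit 77) (nat_lit 276) (.spl (nat_lit 1) (nat_lit 260)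
(.leaf p060_l107)
(.trZ (nat_lit 0) (nat_lit 100) (nat_lit 96) (nat_lit 69) (nat_lit 48) (.leaf p060_l108)))))
(.leaf p060_l109)))))))
(.spl (nat_lit 5) (nat_lit 160)
(.leaf p060_l110)
(.spl (nat_lit 2) (nat_lit 100)
(.trX (nat_lit 23) (nat_lit 100) (nat_lit 68) (nat_lit 88) (nat_lit 352) (.leaf p060_l111))
(.leaf p060_l112)))))
(.spl (nat_lit 5) (nat_lit 160)
(.leaf p060_l113)
(.leaf p060_l114))))
(.spl (nat_lit 0) (nat_lit 300)
(.leaf p060_l115)
(.trX (nat_lit 16) (nat_lit 94) (nat_lit 88) (nat_lit 100) (nat_lit 320) (.leaf p060_l116))))) (by decide +kernel)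
noncomputable def p060_l117 : Lf2 := ⟨nat_lit 0, nat_lit 10, [nat_lit 0, nat_lit 5, nat_lit 5, nat_lit 20], true, nat_lit 0, nat_lit 160, nat_lit 0, nat_lit 364, ⟨nat_lit 0, nat_lit 0, nat_lit 1000, nat_lit 6, nat_lit 136, nat_lit 446, nat_lit 64, nat_lit 1000, nat_lit 38400, nat_lit 263, nat_lit 173400, nat_lit 317, nat_lit 60021743, nat_lit 0, nat_lit 0, nat_lit 1670565, false, false⟩,
 nat_lit 0, nat_lit 0, nat_lit 0, nat_lit 7052, nat_lit 3024, nat_lit 0, nat_lit 18, nat_lit 0, nat_lit 0, nat_lit 0, nat_lit 0, nat_lit 0, nat_lit 0, nat_lit 0, nat_lit 168, nat_lit 789400, nat_lit 0, nat_lit 0, [(nat_lit 12, [(nat_lit 5, nat_lit 351), (nat_lit 6, nat_lit 649)])],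
 ⟨p060_k21, nat_lit 0, nat_lit 0, nat_lit 219, nat_lit 0, nat_lit 0, [nat_lit 3192159601, nat_lit 2440519601, nat_lit 341314800], [], [nat_lit 13742797336, nat_lit 15052975343, nat_lit 13837457147, nat_lit 14953712098, nat_lit 13914487174, nat_lit 15116143518, nat_lit 14402711682, nat_lit 15520512210], nat_lit 0, nat_lit 0, nat_lit 0, nat_lit 0, nat_lit 0, nat_lit 0, [], [nat_lit 8, nat_lit 40, nat_lit 40, nat_lit 80, nat_lit 1, nat_lit 289, nat_lit 75, nat_lit 9]⟩, C1.Rw.none,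
 ⟨nat_lit 5000, nat_lit 5478, ⟨.ofNat (nat_lit 235487), .ofNat (nat_lit 392847), .ofNat (nat_lit 278201), .ofNat (nat_lit 435548), .ofNat (nat_lit 249999), .ofNat (nat_lit 399998), .ofNat (nat_lit 292856), .ofNat (nat_lit 442843)⟩, ⟨.negSucc (nat_lit 2832), .ofNat (nat_lit 296923), .ofNat (nat_lit 0), .ofNat (nat_lit 339637), .ofNat (nat_lit 0), .ofNat (nat_lit 299999), .ofNat (nat_lit 0), .ofNat (nat_lit 342856)⟩⟩, [⟨nat_lit 0, nat_lit 100, nat_lit 94, nat_lit 88, nat_lit 113425315⟩]⟩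
noncomputable def p060_l118 : Lf2 := ⟨nat_lit 0, nat_lit 10, [nat_lit 0, nat_lit 5, nat_lit 5, nat_lit 20], true, nat_lit 0, nat_lit 160, nat_lit 0, nat_lit 364, ⟨nat_lit 0, nat_lit 0, nat_lit 1000, nat_lit 6, nat_lit 145, nat_lit 352, nat_lit 65, nat_lit 1000, nat_lit 38400, nat_lit 263, nat_lit 198017, nat_lit 324, nat_lit 59224880, nat_lit 0, nat_lit 0, nat_lit 1794864, false, false⟩,
 nat_lit 0, nat_lit 0, nat_lit 0, nat_lit 3997, nat_lit 3099, nat_lit 0, nat_lit 0, nat_lit 0, nat_lit 0, nat_lit 0, nat_lit 0, nat_lit 0, nat_lit 0, nat_lit 0, nat_lit 94, nat_lit 400000, nat_lit 0, nat_lit 0, [(nat_lit 15, [(nat_lit 5, nat_lit 1000)])],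
 ⟨p060_k22, nat_lit 0, nat_lit 0, nat_lit 162, nat_lit 0, nat_lit 0, [nat_lit 2443200000, nat_lit 153000000], [], [nat_lit 15235387920, nat_lit 16776476076, nat_lit 15487159446, nat_lit 16699725676, nat_lit 15415995390, nat_lit 16529994000, nat_lit 15752057846, nat_lit 16910643664], nat_lit 0, nat_lit 0, nat_lit 0, nat_lit 0, nat_lit 0, nat_lit 0, [], [nat_lit 74, nat_lit 40, nat_lit 40, nat_lit 80, nat_lit 43, nat_lit 289, nat_lit 75, nat_lit 10]⟩, C1.Rw.none,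
 ⟨nat_lit 4472, nat_lit 5000, ⟨.ofNat (nat_lit 271418), .ofNat (nat_lit 399984), .ofNat (nat_lit 314253), .ofNat (nat_lit 442816), .ofNat (nat_lit 284805), .ofNat (nat_lit 407160), .ofNat (nat_lit 327916), .ofNat (nat_lit 450269)⟩, ⟨.ofNat (nat_lit 0), .ofNat (nat_lit 299999), .ofNat (nat_lit 0), .ofNat (nat_lit 342856), .ofNat (nat_lit 0), .ofNat (nat_lit 302621), .ofNat (nat_lit 0), .ofNat (nat_lit 345754)⟩⟩, [⟨nat_lit 0, nat_lit 100, nat_lit 88, nat_lit 81, nat_lit 98300434⟩]⟩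
noncomputable def p060_l119 : Lf2 := ⟨nat_lit 0, nat_lit 10, [nat_lit 0, nat_lit 5, nat_lit 5, nat_lit 20], true, nat_lit 0, nat_lit 160, nat_lit 0, nat_lit 364, ⟨nat_lit 0, nat_lit 0, nat_lit 1000, nat_lit 6, nat_lit 182, nat_lit 249, nat_lit 64, nat_lit 1000, nat_lit 38400, nat_lit 263, nat_lit 24681, nat_lit 252, nat_lit 55533712, nat_lit 0, nat_lit 0, nat_lit 2288434, false, false⟩,
 nat_lit 0, nat_lit 0, nat_lit 0, nat_lit 6248, nat_lit 3910, nat_lit 0, nat_lit 0, nat_lit 0, nat_lit 0, nat_lit 0, nat_lit 0, nat_lit 0, nat_lit 0, nat_lit 0, nat_lit 151, nat_lit 700000, nat_lit 0, nat_lit 0, [(nat_lit 12, [(nat_lit 5, nat_lit 500), (nat_lit 6, nat_lit 500)])],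
 ⟨p060_k24, nat_lit 0, nat_lit 0, nat_lit 159, nat_lit 0, nat_lit 0, [nat_lit 3670200000, nat_lit 302600000], [], [nat_lit 14315374640, nat_lit 15561397260, nat_lit 14982373240, nat_lit 16140319120, nat_lit 13733375680, nat_lit 15140760720, nat_lit 14681874400, nat_lit 16006544240], nat_lit 0, nat_lit 0, nat_lit 0, nat_lit 0, nat_lit 0, nat_lit 0, [], [nat_lit 82, nat_lit 40, nat_lit 40, nat_lit 80, nat_lit 63, nat_lit 317, nat_lit 100, nat_lit 9]⟩, C1.Rw.none,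
 ⟨nat_lit 5000, nat_lit 5478, ⟨.ofNat (nat_lit 392847), .ofNat (nat_lit 467773), .ofNat (nat_lit 435548), .ofNat (nat_lit 510468), .ofNat (nat_lit 399998), .ofNat (nat_lit 471421), .ofNat (nat_lit 442843), .ofNat (nat_lit 514258)⟩, ⟨.negSucc (nat_lit 2832), .ofNat (nat_lit 296923), .ofNat (nat_lit 0), .ofNat (nat_lit 339637), .ofNat (nat_lit 0), .ofNat (nat_lit 299999), .ofNat (nat_lit 0), .ofNat (nat_lit 342856)⟩⟩, []⟩
noncomputable def p060_l120 : Lf2 := ⟨nat_lit 0, nat_lit 10, [nat_lit 0, nat_lit 5, nat_lit 5, nat_lit 20], true, nat_lit 0, nat_lit 160, nat_lit 0, nat_lit 364, ⟨nat_lit 0, nat_lit 0, nat_lit 1000, nat_lit 6, nat_lit 184, nat_lit 314, nat_lit 65, nat_lit 1000, nat_lit 38400, nat_lit 263, nat_lit 19267, nat_lit 249, nat_lit 55302699, nat_lit 0, nat_lit 0, nat_lit 2315422, false, false⟩,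
 nat_lit 0, nat_lit 0, nat_lit 0, nat_lit 3951, nat_lit 3270, nat_lit 0, nat_lit 0, nat_lit 0, nat_lit 0, nat_lit 0, nat_lit 0, nat_lit 0, nat_lit 0, nat_lit 0, nat_lit 94, nat_lit 400000, nat_lit 0, nat_lit 0, [(nat_lit 15, [(nat_lit 5, nat_lit 1000)])],
 ⟨p060_k22, nat_lit 0, nat_lit 0, nat_lit 136, nat_lit 0, nat_lit 0, [nat_lit 2443200000, nat_lit 153000000], [], [nat_lit 15329489580, nat_lit 16570915480, nat_lit 16086962640, nat_lit 17259855200, nat_lit 15436657580, nat_lit 16605226720, nat_lit 16200119280, nat_lit 17418021760], nat_lit 0, nat_lit 0, nat_lit 0, nat_lit 0, nat_lit 0, nat_lit 0, [], [nat_lit 74, nat_lit 40, nat_lit 40, nat_lit 80, nat_lit 43, nat_lit 317, nat_lit 100, nat_lit 10]⟩, C1.Rw.none,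
 ⟨nat_lit 4472, nat_lit 5000, ⟨.ofNat (nat_lit 399984), .ofNat (nat_lit 471408), .ofNat (nat_lit 442816), .ofNat (nat_lit 514240), .ofNat (nat_lit 407160), .ofNat (nat_lit 475134), .ofNat (nat_lit 450269), .ofNat (nat_lit 518242)⟩, ⟨.ofNat (nat_lit 0), .ofNat (nat_lit 299999), .ofNat (nat_lit 0), .ofNat (nat_lit 342856), .ofNat (nat_lit 0), .ofNat (nat_lit 302621), .ofNat (nat_lit 0), .ofNat (nat_lit 345754)⟩⟩, []⟩
noncomputable def p060_l121 : Lf2 := ⟨nat_lit 0, nat_lit 10, [nat_lit 0, nat_lit 5, nat_lit 5, nat_lit 20], false, nat_lit 0, nat_lit 160, nat_lit 0, nat_lit 160, ⟨nat_lit 296, nat_lit 341, nat_lit 363, nat_lit 6, nat_lit 226, nat_lit 493, nat_lit 64, nat_lit 363, nat_lit 38400, nat_lit 263, nat_lit 49368, nat_lit 200, nat_lit 50824447, nat_lit 16175553, nat_lit 0, nat_lit 2763590, false, false⟩,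
 nat_lit 0, nat_lit 0, nat_lit 4815, nat_lit 0, nat_lit 5116, nat_lit 2549, nat_lit 495, nat_lit 0, nat_lit 0, nat_lit 275, nat_lit 0, nat_lit 0, nat_lit 0, nat_lit 0, nat_lit 0, nat_lit 704000, nat_lit 0, nat_lit 0, [(nat_lit 12, [(nat_lit 2, nat_lit 341), (nat_lit 6, nat_lit 363)])],
 ⟨p060_k21, nat_lit 0, nat_lit 0, nat_lit 164, nat_lit 0, nat_lit 0, [nat_lit 2182030801, nat_lit 2104403600, nat_lit 855391600], [], [nat_lit 16551641675, nat_lit 18015136883, nat_lit 19689425472, nat_lit 21196760168, nat_lit 14785270193, nat_lit 16114861241, nat_lit 17510246480, nat_lit 18782438888], nat_lit 0, nat_lit 0, nat_lit 0, nat_lit 0, nat_lit 0, nat_lit 0, [], [nat_lit 8, nat_lit 40, nat_lit 40, nat_lit 80, nat_lit 1, nat_lit 317, nat_lit 100, nat_lit 9]⟩, ⟨p060_k23, nat_lit 0, nat_lit 0, nat_lit 658, nat_lit 0, nat_lit 801882, [nat_lit 1387648000, nat_lit 2358528000, nat_lit 3514112000], [], [nat_lit 12579567712,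 nat_lit 11041292136, nat_lit 10935712776, nat_lit 11205021796, nat_lit 9235652592, nat_lit 9502258064, nat_lit 10825094276, nat_lit 9586968528], nat_lit 1271250, nat_lit 1271250, nat_lit 1100001, nat_lit 1785000, nat_lit 0, nat_lit 1100001, [nat_lit 1100000, nat_lit 1785000, nat_lit 1271250], [nat_lit 21, nat_lit 40, nat_lit 40, nat_lit 80, nat_lit 14, nat_lit 401, nat_lit 175, nat_lit 10]⟩,
 ⟨nat_lit 5000, nat_lit 5478, ⟨.ofNat (nat_lit 467773), .ofNat (nat_lit 617614), .ofNat (nat_lit 510468), .ofNat (nat_lit 660309), .ofNat (nat_lit 471421), .ofNat (nat_lit 614253), .ofNat (nat_lit 514258), .ofNat (nat_lit 657090)⟩, ⟨.negSucc (nat_lit 2832), .ofNat (nat_lit 296923), .ofNat (nat_lit 0), .ofNat (nat_lit 339637), .ofNat (nat_lit 0), .ofNat (nat_lit 299999), .ofNat (nat_lit 0), .ofNat (nat_lit 342856)⟩⟩, []⟩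
noncomputable def p060_l122 : Lf2 := ⟨nat_lit 0, nat_lit 10, [nat_lit 0, nat_lit 5, nat_lit 5, nat_lit 20], false, nat_lit 0, nat_lit 160, nat_lit 160, nat_lit 364, ⟨nat_lit 251, nat_lit 0, nat_lit 749, nat_lit 6, nat_lit 226, nat_lit 749, nat_lit 64, nat_lit 749, nat_lit 38400, nat_lit 263, nat_lit 49368, nat_lit 200, nat_lit 50824447, nat_lit 0, nat_lit 0, nat_lit 2763590, false, false⟩,
 nat_lit 0, nat_lit 0, nat_lit 4314, nat_lit 0, nat_lit 4005, nat_lit 2283, nat_lit 253, nat_lit 0, nat_lit 0, nat_lit 197, nat_lit 0, nat_lit 0, nat_lit 0, nat_lit 0, nat_lit 70, nat_lit 749000, nat_lit 0, nat_lit 0, [(nat_lit 12, [(nat_lit 6, nat_lit 749)])],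
 ⟨p060_k21, nat_lit 0, nat_lit 0, nat_lit 164, nat_lit 0, nat_lit 0, [nat_lit 2518540801, nat_lit 2124177600, nat_lit 391134800], [], [nat_lit 15605213425, nat_lit 16898905615, nat_lit 18471081060, nat_lit 19800649090, nat_lit 15283080461, nat_lit 16460377851, nat_lit 17847793401, nat_lit 18864640021], nat_lit 0, nat_lit 0, nat_lit 0, nat_lit 0, nat_lit 0, nat_lit 0, [], [nat_lit 8, nat_lit 40, nat_lit 40, nat_lit 80, nat_lit 1, nat_lit 317, nat_lit 100, nat_lit 9]⟩, ⟨p060_k23, nat_lit 0, nat_lit 0, nat_lit 526, nat_lit 0, nat_lit 801882, [nat_lit 1176688000, nat_lit 1999968000, nat_lit 2979872000], [], [nat_lit 9675617732, nat_lit 7261400024, nat_lit 7508554096, nat_lit 7243232316, nat_lit 7947138364, nat_lit 8046011791, nat_lit 7861732142, nat_lit 7976261129], nat_lit 1271250, nat_lit 1271250, nat_lit 1100001, nat_lit 1785000, nat_lit 1271250, nat_lit 1271250, [nat_lit 1100000, nat_lit 1785000, nat_lit 1271250],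 [nat_lit 21, nat_lit 40, nat_lit 40, nat_lit 80, nat_lit 14, nat_lit 456, nat_lit 225, nat_lit 11]⟩,
 ⟨nat_lit 5000, nat_lit 5478, ⟨.ofNat (nat_lit 467773), .ofNat (nat_lit 617614), .ofNat (nat_lit 510468), .ofNat (nat_lit 660309), .ofNat (nat_lit 471421), .ofNat (nat_lit 614253), .ofNat (nat_lit 514258), .ofNat (nat_lit 657090)⟩, ⟨.negSucc (nat_lit 2832), .ofNat (nat_lit 296923), .ofNat (nat_lit 0), .ofNat (nat_lit 339637), .ofNat (nat_lit 0), .ofNat (nat_lit 299999), .ofNat (nat_lit 0), .ofNat (nat_lit 342856)⟩⟩, [⟨nat_lit 19, nat_lit 100, nat_lit 77, nat_lit 91, nat_lit 36385596⟩, ⟨nat_lit 22, nat_lit 100, nat_lit 60, nat_lit 80, nat_lit 31686635⟩]⟩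
noncomputable def p060_l123 : Lf2 := ⟨nat_lit 0, nat_lit 10, [nat_lit 0, nat_lit 5, nat_lit 5, nat_lit 20], false, nat_lit 0, nat_lit 160, nat_lit 0, nat_lit 364, ⟨nat_lit 89, nat_lit 157, nat_lit 754, nat_lit 6, nat_lit 221, nat_lit 651, nat_lit 65, nat_lit 754, nat_lit 38400, nat_lit 263, nat_lit 6451, nat_lit 201, nat_lit 51278234, nat_lit 15721766, nat_lit 0, nat_lit 2724189, false, false⟩,
 nat_lit 0, nat_lit 0, nat_lit 1536, nat_lit 2467, nat_lit 3222, nat_lit 813, nat_lit 0, nat_lit 0, nat_lit 0, nat_lit 58, nat_lit 0, nat_lit 0, nat_lit 0, nat_lit 0, nat_lit 79, nat_lit 618200, nat_lit 0, nat_lit 0, [(nat_lit 15, [(nat_lit 1, nat_lit 157), (nat_lit 5, nat_lit 331), (nat_lit 6, nat_lit 423)])],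
 ⟨p060_k28, nat_lit 0, nat_lit 0, nat_lit 142, nat_lit 0, nat_lit 0, [nat_lit 2407140600, nat_lit 1216142867, nat_lit 18107333], [], [nat_lit 16503375437, nat_lit 17692231971, nat_lit 19107258111, nat_lit 20313153928, nat_lit 16724040247, nat_lit 17794005563, nat_lit 19231272188, nat_lit 20280769248], nat_lit 0, nat_lit 0, nat_lit 0, nat_lit 0, nat_lit 0, nat_lit 0, [], [nat_lit 18, nat_lit 40, nat_lit 40, nat_lit 80, nat_lit 2, nat_lit 317, nat_lit 100, nat_lit 10]⟩, ⟨p060_k23, nat_lit 0, nat_lit 0, nat_lit 705, nat_lit 0, nat_lit 921339, [nat_lit 417232000, nat_lit 709152000, nat_lit 1056608000], [], [nat_lit 3853346988, nat_lit 3423482994, nat_lit 3291502648, nat_lit 3319314920, nat_lit 4357756194, nat_lit 3990038408, nat_lit 2896305281, nat_lit 2872972329], nat_lit 1271250, nat_lit 1271250, nat_lit 1271250, nat_lit 1271250, nat_lit 0, nat_lit 2570750, [nat_lit 1100000, nat_lit 1785000, nat_lit 1271250],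 [nat_lit 21, nat_lit 40, nat_lit 40, nat_lit 80, nat_lit 14, nat_lit 456, nat_lit 225, nat_lit 12]⟩,
 ⟨nat_lit 4472, nat_lit 5000, ⟨.ofNat (nat_lit 471408), .ofNat (nat_lit 614256), .ofNat (nat_lit 492824), .ofNat (nat_lit 635672), .ofNat (nat_lit 475134), .ofNat (nat_lit 611081), .ofNat (nat_lit 496688), .ofNat (nat_lit 632635)⟩, ⟨.ofNat (nat_lit 0), .ofNat (nat_lit 299999), .ofNat (nat_lit 0), .ofNat (nat_lit 342856), .ofNat (nat_lit 0), .ofNat (nat_lit 302621), .ofNat (nat_lit 0), .ofNat (nat_lit 345754)⟩⟩, [⟨nat_lit 22, nat_lit 100, nat_lit 60, nat_lit 80, nat_lit 14061043⟩]⟩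
noncomputable def p060_l124 : Lf2 := ⟨nat_lit 0, nat_lit 10, [nat_lit 0, nat_lit 5, nat_lit 5, nat_lit 20], false, nat_lit 0, nat_lit 160, nat_lit 0, nat_lit 352, ⟨nat_lit 213, nat_lit 13, nat_lit 774, nat_lit 6, nat_lit 230, nat_lit 787, nat_lit 65, nat_lit 773, nat_lit 38400, nat_lit 263, nat_lit 42926, nat_lit 200, nat_lit 50343694, nat_lit 16656306, nat_lit 0, nat_lit 2803967, false, false⟩,
 nat_lit 0, nat_lit 0, nat_lit 2545, nat_lit 0, nat_lit 3598, nat_lit 1481, nat_lit 0, nat_lit 0, nat_lit 0, nat_lit 133, nat_lit 0, nat_lit 0, nat_lit 0, nat_lit 0, nat_lit 71, nat_lit 648400, nat_lit 0, nat_lit 0, [(nat_lit 15, [(nat_lit 1, nat_lit 13), (nat_lit 5, nat_lit 218), (nat_lit 6, nat_lit 556)])],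
 ⟨p060_k28, nat_lit 0, nat_lit 0, nat_lit 142, nat_lit 0, nat_lit 0, [nat_lit 2408922200, nat_lit 1295667267, nat_lit 22698400], [], [nat_lit 16426723336, nat_lit 17681488944, nat_lit 19286714236, nat_lit 20865995040, nat_lit 16306898487, nat_lit 17428405131, nat_lit 18733323692, nat_lit 19832539232], nat_lit 0, nat_lit 0, nat_lit 0, nat_lit 0, nat_lit 0, nat_lit 0, [], [nat_lit 18, nat_lit 40, nat_lit 40, nat_lit 80, nat_lit 2, nat_lit 317, nat_lit 100, nat_lit 10]⟩, ⟨p060_k25, nat_lit 0, nat_lit 0, nat_lit 651, nat_lit 0, nat_lit 972672, [nat_lit 998544000, nat_lit 1697184000, nat_lit 2096346000], [], [nat_lit 8034453674, nat_lit 8115583652, nat_lit 8132582966, nat_lit 8197422964, nat_lit 9050896413, nat_lit 8378428814, nat_lit 7683853927, nat_lit 7701270507], nat_lit 1271250, nat_lit 1271250, nat_lit 1271250, nat_lit 1271250, nat_lit 0, nat_lit 2486000, [nat_lit 1100000, nat_lit 1785000, nat_lit 1271250],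 [nat_lit 29, nat_lit 40, nat_lit 40, nat_lit 80, nat_lit 17, nat_lit 456, nat_lit 225, nat_lit 13]⟩,
 ⟨nat_lit 4472, nat_lit 5000, ⟨.ofNat (nat_lit 492824), .ofNat (nat_lit 635672), .ofNat (nat_lit 514240), .ofNat (nat_lit 657088), .ofNat (nat_lit 496688), .ofNat (nat_lit 632635), .ofNat (nat_lit 518242), .ofNat (nat_lit 654189)⟩, ⟨.ofNat (nat_lit 0), .ofNat (nat_lit 299999), .ofNat (nat_lit 0), .ofNat (nat_lit 342856), .ofNat (nat_lit 0), .ofNat (nat_lit 302621), .ofNat (nat_lit 0), .ofNat (nat_lit 345754)⟩⟩, [⟨nat_lit 10, nat_lit 65, nat_lit 100, nat_lit 76, nat_lit 45020364⟩]⟩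
noncomputable def b_V_700_600_20_1 : St := ⟨true, nat_lit 0, nat_lit 1, nat_lit 1, nat_lit 120, nat_lit 280, nat_lit 320, nat_lit 240, nat_lit 280, nat_lit 36, nat_lit 240, nat_lit 80, nat_lit 120, nat_lit 0, nat_lit 160, nat_lit 0, nat_lit 364, nat_lit 0, nat_lit 40, nat_lit 0, nat_lit 0, nat_lit 0, nat_lit 0⟩
theorem d_V_700_600_20_1 (h : EB TB.env) : Dead b_V_700_600_20_1 := chkB_sound0 h (T :=
(.spl (nat_lit 2) (nat_lit 160)
(.spl (nat_lit 2) (nat_lit 120)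
(.spl (nat_lit 0) (nat_lit 300)
(.leaf p060_l117)
(.trZ (nat_lit 0) (nat_lit 100) (nat_lit 88) (nat_lit 68) (nat_lit 48) (.leaf p060_l118)))
(.spl (nat_lit 0) (nat_lit 300)
(.leaf p060_l119)
(.leaf p060_l120)))
(.spl (nat_lit 0) (nat_lit 300)
(.spl (nat_lit 5) (nat_lit 160)
(.leaf p060_l121)
(.leaf p060_l122))
(.spl (nat_lit 1) (nat_lit 260)
(.leaf p060_l123)
(.trX (nat_lit 19) (nat_lit 100) (nat_lit 69) (nat_lit 96) (nat_lit 352) (.leaf p060_l124)))))) (by decide +kernel)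
noncomputable def p060_l125 : Lf2 := ⟨nat_lit 0, nat_lit 10, [nat_lit 0, nat_lit 5, nat_lit 5, nat_lit 20], true, nat_lit 240, nat_lit 280, nat_lit 0, nat_lit 336, ⟨nat_lit 0, nat_lit 1000, nat_lit 0, nat_lit 6, nat_lit 122, nat_lit 1000, nat_lit 201, nat_lit 0, nat_lit 0, nat_lit 0, nat_lit 0, nat_lit 0, nat_lit 47814515, nat_lit 6013511, nat_lit 13171974, nat_lit 4146815, false, false⟩,
 nat_lit 0, nat_lit 0, nat_lit 0, nat_lit 2908, nat_lit 4396, nat_lit 0, nat_lit 0, nat_lit 0, nat_lit 0, nat_lit 0, nat_lit 0, nat_lit 0, nat_lit 0, nat_lit 0, nat_lit 0, nat_lit 250000, nat_lit 0, nat_lit 0, [(nat_lit 12, [(nat_lit 0, nat_lit 1000)])],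
 ⟨p060_k24, nat_lit 0, nat_lit 0, nat_lit 53, nat_lit 0, nat_lit 0, [nat_lit 2378800001, nat_lit 3513428572], [], [nat_lit 16499692295, nat_lit 18232591207, nat_lit 15794581617, nat_lit 17299261761, nat_lit 19436815984, nat_lit 20992677396, nat_lit 18373550649, nat_lit 19876750456], nat_lit 0, nat_lit 0, nat_lit 0, nat_lit 0, nat_lit 0, nat_lit 0, [], [nat_lit 82, nat_lit 40, nat_lit 40, nat_lit 80, nat_lit 63, nat_lit 317, nat_lit 100, nat_lit 9]⟩, C1.Rw.none,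
 ⟨nat_lit 5000, nat_lit 5478, ⟨.ofNat (nat_lit 235487), .ofNat (nat_lit 317913), .ofNat (nat_lit 278201), .ofNat (nat_lit 360625), .ofNat (nat_lit 249999), .ofNat (nat_lit 328570), .ofNat (nat_lit 292856), .ofNat (nat_lit 371424)⟩, ⟨.ofNat (nat_lit 446789), .ofNat (nat_lit 521722), .ofNat (nat_lit 489503), .ofNat (nat_lit 564436), .ofNat (nat_lit 442856), .ofNat (nat_lit 514284), .ofNat (nat_lit 485713), .ofNat (nat_lit 557141)⟩⟩, [⟨nat_lit 0, nat_lit 100, nat_lit 94, nat_lit 73, nat_lit 236856397⟩]⟩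
noncomputable def p060_l126 : Lf2 := ⟨nat_lit 0, nat_lit 10, [nat_lit 0, nat_lit 5, nat_lit 5, nat_lit 20], true, nat_lit 240, nat_lit 280, nat_lit 0, nat_lit 336, ⟨nat_lit 0, nat_lit 1000, nat_lit 0, nat_lit 6, nat_lit 131, nat_lit 1000, nat_lit 199, nat_lit 0, nat_lit 0, nat_lit 0, nat_lit 0, nat_lit 0, nat_lit 47405213, nat_lit 6707626, nat_lit 12887161, nat_lit 4236716, false, false⟩,
 nat_lit 0, nat_lit 0, nat_lit 0, nat_lit 2872, nat_lit 4204, nat_lit 0, nat_lit 0, nat_lit 0, nat_lit 0, nat_lit 0, nat_lit 0, nat_lit 0, nat_lit 0, nat_lit 0, nat_lit 0, nat_lit 250000, nat_lit 0, nat_lit 0, [(nat_lit 15, [(nat_lit 0, nat_lit 1000)])],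
 ⟨p060_k22, nat_lit 0, nat_lit 0, nat_lit 56, nat_lit 0, nat_lit 0, [nat_lit 2318400000, nat_lit 3071600000], [], [nat_lit 17767607604, nat_lit 19415027255, nat_lit 17384194240, nat_lit 18854148496, nat_lit 20420469989, nat_lit 21929171729, nat_lit 19769251616, nat_lit 21238640464], nat_lit 0, nat_lit 0, nat_lit 0, nat_lit 0, nat_lit 0, nat_lit 0, [], [nat_lit 74, nat_lit 40, nat_lit 40, nat_lit 80, nat_lit 43, nat_lit 226, nat_lit 20, nat_lit 7]⟩, C1.Rw.none,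
 ⟨nat_lit 4472, nat_lit 5000, ⟨.ofNat (nat_lit 271418), .ofNat (nat_lit 328559), .ofNat (nat_lit 314253), .ofNat (nat_lit 371392), .ofNat (nat_lit 284805), .ofNat (nat_lit 339186), .ofNat (nat_lit 327916), .ofNat (nat_lit 382295)⟩, ⟨.ofNat (nat_lit 442856), .ofNat (nat_lit 514284), .ofNat (nat_lit 485713), .ofNat (nat_lit 557141), .ofNat (nat_lit 438578), .ofNat (nat_lit 506556), .ofNat (nat_lit 481711), .ofNat (nat_lit 549689)⟩⟩, [⟨nat_lit 0, nat_lit 100, nat_lit 88, nat_lit 81, nat_lit 490561901⟩]⟩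
noncomputable def b_V_700_600_20_2 : St := ⟨true, nat_lit 0, nat_lit 1, nat_lit 1, nat_lit 120, nat_lit 280, nat_lit 320, nat_lit 240, nat_lit 280, nat_lit 36, nat_lit 80, nat_lit 80, nat_lit 120, nat_lit 240, nat_lit 280, nat_lit 0, nat_lit 336, nat_lit 0, nat_lit 40, nat_lit 0, nat_lit 0, nat_lit 0, nat_lit 0⟩
theorem d_V_700_600_20_2 (h : EB TB.env) : Dead b_V_700_600_20_2 := chkB_sound0 h (T :=
(.spl (nat_lit 0) (nat_lit 300)
(.leaf p060_l125)
(.trZ (nat_lit 0) (nat_lit 100) (nat_lit 88) (nat_lit 68) (nat_lit 48) (.leaf p060_l126)))) (by decide +kernel)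
noncomputable def p060_l127 : Lf2 := ⟨nat_lit 0, nat_lit 10, [nat_lit 0, nat_lit 5, nat_lit 5, nat_lit 20], true, nat_lit 280, nat_lit 336, nat_lit 0, nat_lit 300, ⟨nat_lit 0, nat_lit 1000, nat_lit 0, nat_lit 6, nat_lit 120, nat_lit 1000, nat_lit 234, nat_lit 0, nat_lit 0, nat_lit 0, nat_lit 0, nat_lit 0, nat_lit 44923422, nat_lit 5717700, nat_lit 16358878, nat_lit 4383707, false, false⟩,
 nat_lit 0, nat_lit 0, nat_lit 0, nat_lit 2940, nat_lit 674, nat_lit 0, nat_lit 0, nat_lit 0, nat_lit 317, nat_lit 0, nat_lit 0, nat_lit 0, nat_lit 0, nat_lit 0, nat_lit 0, nat_lit 250000, nat_lit 0, nat_lit 0, [(nat_lit 12, [(nat_lit 0, nat_lit 1000)]), (nat_lit 15, [(nat_lit 0, nat_lit 1000)])],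
 ⟨p060_k24, nat_lit 0, nat_lit 0, nat_lit 0, nat_lit 0, nat_lit 0, [nat_lit 2378800001, nat_lit 3513428572], [], [nat_lit 16434320088, nat_lit 18163955067, nat_lit 17005086013, nat_lit 18630619984, nat_lit 18847295656, nat_lit 20407738528, nat_lit 19296731360, nat_lit 20820123551], nat_lit 0, nat_lit 0, nat_lit 0, nat_lit 0, nat_lit 0, nat_lit 0, [], [nat_lit 82, nat_lit 40, nat_lit 40, nat_lit 80]⟩, C1.Rw.none,
 ⟨nat_lit 4472, nat_lit 5478, ⟨.ofNat (nat_lit 235487), .ofNat (nat_lit 317898), .ofNat (nat_lit 256814), .ofNat (nat_lit 339222), .ofNat (nat_lit 264421), .ofNat (nat_lit 339182), .ofNat (nat_lit 285957), .ofNat (nat_lit 360715)⟩, ⟨.ofNat (nat_lit 521722), .ofNat (nat_lit 626629), .ofNat (nat_lit 564436), .ofNat (nat_lit 669343), .ofNat (nat_lit 506556), .ofNat (nat_lit 601725), .ofNat (nat_lit 549689), .ofNat (nat_lit 644858)⟩⟩, [⟨nat_lit 0, nat_lit 100, nat_lit 89, nat_lit 72, nat_lit 42936576⟩]⟩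
noncomputable def p060_l128 : Lf2 := ⟨nat_lit 0, nat_lit 10, [nat_lit 0, nat_lit 5, nat_lit 5, nat_lit 20], false, nat_lit 280, nat_lit 336, nat_lit 0, nat_lit 160, ⟨nat_lit 292, nat_lit 708, nat_lit 0, nat_lit 6, nat_lit 133, nat_lit 708, nat_lit 234, nat_lit 0, nat_lit 0, nat_lit 0, nat_lit 0, nat_lit 0, nat_lit 44164385, nat_lit 6628804, nat_lit 16206811, nat_lit 4528220, false, false⟩,
 nat_lit 0, nat_lit 0, nat_lit 5432, nat_lit 0, nat_lit 0, nat_lit 3161, nat_lit 0, nat_lit 0, nat_lit 371, nat_lit 330, nat_lit 0, nat_lit 0, nat_lit 0, nat_lit 0, nat_lit 0, nat_lit 283200, nat_lit 0, nat_lit 0, [(nat_lit 12, [(nat_lit 1, nat_lit 708)]), (nat_lit 15, [(nat_lit 1, nat_lit 708)])],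
 ⟨p060_k26, nat_lit 0, nat_lit 0, nat_lit 0, nat_lit 0, nat_lit 0, [nat_lit 2397991200, nat_lit 3293806400, nat_lit 4740435200], [], [nat_lit 16212630800, nat_lit 17590750800, nat_lit 16817317200, nat_lit 18170245200, nat_lit 18143232001, nat_lit 19505236481, nat_lit 18707292800, nat_lit 20045408000], nat_lit 0, nat_lit 0, nat_lit 0, nat_lit 0, nat_lit 0, nat_lit 0, [], [nat_lit 42, nat_lit 40, nat_lit 40, nat_lit 80]⟩, ⟨p060_k29, nat_lit 0, nat_lit 0, nat_lit 492, nat_lit 0, nat_lit 526588, [nat_lit 1368896000, nat_lit 1825000000, nat_lit 2873864000], [], [nat_lit 9121097731, nat_lit 8270543454, nat_lit 6876728952, nat_lit 7539896014, nat_lit 6591397414, nat_lit 5545164356, nat_lit 7097879066, nat_lit 5608396900], nat_lit 1271250, nat_lit 1271250, nat_lit 279600, nat_lit 490000, nat_lit 0, nat_lit 1100001, [nat_lit 1100000, nat_lit 1442500, nat_lit 1271250], [nat_lit 11, nat_lit 40, nat_lit 40, nat_lit 80,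 nat_lit 1, nat_lit 373, nat_lit 150, nat_lit 11]⟩,
 ⟨nat_lit 4472, nat_lit 5478, ⟨.ofNat (nat_lit 279289), .ofNat (nat_lit 339222), .ofNat (nat_lit 300612), .ofNat (nat_lit 360546), .ofNat (nat_lit 306346), .ofNat (nat_lit 360715), .ofNat (nat_lit 327879), .ofNat (nat_lit 382248)⟩, ⟨.ofNat (nat_lit 521722), .ofNat (nat_lit 626629), .ofNat (nat_lit 564436), .ofNat (nat_lit 669343), .ofNat (nat_lit 506556), .ofNat (nat_lit 601725), .ofNat (nat_lit 549689), .ofNat (nat_lit 644858)⟩⟩, [⟨nat_lit 0, nat_lit 100, nat_lit 92, nat_lit 82, nat_lit 15064819⟩, ⟨nat_lit 0, nat_lit 100, nat_lit 96, nat_lit 69, nat_lit 282238134⟩, ⟨nat_lit 4, nat_lit 100, nat_lit 100, nat_lit 100, nat_lit 22417681⟩]⟩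
noncomputable def p060_l129 : Lf2 := ⟨nat_lit 0, nat_lit 10, [nat_lit 0, nat_lit 5, nat_lit 5, nat_lit 20], false, nat_lit 280, nat_lit 336, nat_lit 160, nat_lit 300, ⟨nat_lit 164, nat_lit 836, nat_lit 0, nat_lit 6, nat_lit 131, nat_lit 836, nat_lit 234, nat_lit 0, nat_lit 0, nat_lit 0, nat_lit 0, nat_lit 0, nat_lit 44292377, nat_lit 6474569, nat_lit 16233054, nat_lit 4504754, false, false⟩,
 nat_lit 0, nat_lit 0, nat_lit 2606, nat_lit 1796, nat_lit 570, nat_lit 1516, nat_lit 0, nat_lit 0, nat_lit 334, nat_lit 303, nat_lit 0, nat_lit 0, nat_lit 0, nat_lit 0, nat_lit 0, nat_lit 212750, nat_lit 0, nat_lit 0, [(nat_lit 12, [(nat_lit 0, nat_lit 811), (nat_lit 1, nat_lit 25)]), (nat_lit 15, [(nat_lit 0, nat_lit 811), (nat_lit 1, nat_lit 25)])],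
 ⟨p060_k30, nat_lit 0, nat_lit 0, nat_lit 0, nat_lit 0, nat_lit 0, [nat_lit 2506287001, nat_lit 2897808934, nat_lit 4261535767], [], [nat_lit 16480464273, nat_lit 18095732216, nat_lit 16960278121, nat_lit 18511953160, nat_lit 18795288796, nat_lit 20317680749, nat_lit 19196845848, nat_lit 20691493240], nat_lit 0, nat_lit 0, nat_lit 0, nat_lit 0, nat_lit 0, nat_lit 0, [], [nat_lit 160, nat_lit 40, nat_lit 20, nat_lit 40]⟩, ⟨p060_k29, nat_lit 0, nat_lit 0, nat_lit 338, nat_lit 0, nat_lit 478513, [nat_lit 768832000, nat_lit 1025000000, nat_lit 1614088000], [], [nat_lit 4421715269, nat_lit 4028135897, nat_lit 3167878968, nat_lit 2778981004, nat_lit 3778885719, nat_lit 3874303836, nat_lit 3947082651, nat_lit 3582430454], nat_lit 1271250, nat_lit 1271250, nat_lit 279600, nat_lit 490000, nat_lit 1100001, nat_lit 2298750, [nat_lit 1100000, nat_lit 1442500, nat_lit 1271250], [nat_lit 11, nat_lit 40, nat_lit 40, nat_lit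 80, nat_lit 1, nat_lit 401, nat_lit 175, nat_lit 11]⟩,
 ⟨nat_lit 4472, nat_lit 5478, ⟨.ofNat (nat_lit 279289), .ofNat (nat_lit 339222), .ofNat (nat_lit 289951), .ofNat (nat_lit 349884), .ofNat (nat_lit 306346), .ofNat (nat_lit 360715), .ofNat (nat_lit 317112), .ofNat (nat_lit 371481)⟩, ⟨.ofNat (nat_lit 521722), .ofNat (nat_lit 626629), .ofNat (nat_lit 564436), .ofNat (nat_lit 669343), .ofNat (nat_lit 506556), .ofNat (nat_lit 601725), .ofNat (nat_lit 549689), .ofNat (nat_lit 644858)⟩⟩, [⟨nat_lit 0, nat_lit 100, nat_lit 96, nat_lit 69, nat_lit 135211893⟩, ⟨nat_lit 23, nat_lit 87, nat_lit 100, nat_lit 76, nat_lit 46067793⟩]⟩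
noncomputable def p060_l130 : Lf2 := ⟨nat_lit 0, nat_lit 10, [nat_lit 0, nat_lit 5, nat_lit 5, nat_lit 20], false, nat_lit 280, nat_lit 336, nat_lit 160, nat_lit 300, ⟨nat_lit 431, nat_lit 569, nat_lit 0, nat_lit 6, nat_lit 138, nat_lit 569, nat_lit 234, nat_lit 0, nat_lit 0, nat_lit 0, nat_lit 0, nat_lit 0, nat_lit 43863590, nat_lit 6992207, nat_lit 16144203, nat_lit 4581997, false, false⟩,
 nat_lit 0, nat_lit 0, nat_lit 6118, nat_lit 0, nat_lit 564, nat_lit 3725, nat_lit 0, nat_lit 0, nat_lit 329, nat_lit 776, nat_lit 0, nat_lit 0, nat_lit 0, nat_lit 0, nat_lit 0, nat_lit 142250, nat_lit 0, nat_lit 0, [(nat_lit 12, [(nat_lit 0, nat_lit 569)]), (nat_lit 15, [(nat_lit 0, nat_lit 569)])],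
 ⟨p060_k31, nat_lit 0, nat_lit 0, nat_lit 0, nat_lit 0, nat_lit 0, [nat_lit 1304188500, nat_lit 2534789201, nat_lit 3468215734, nat_lit 5748090900], [], [nat_lit 16678086958, nat_lit 18232233208, nat_lit 17052875825, nat_lit 18581874321, nat_lit 18876378165, nat_lit 20387717394, nat_lit 19215362136, nat_lit 20684643568], nat_lit 0, nat_lit 0, nat_lit 0, nat_lit 0, nat_lit 0, nat_lit 0, [], [nat_lit 238, nat_lit 40, nat_lit 20, nat_lit 40]⟩, ⟨p060_k32, nat_lit 0, nat_lit 0, nat_lit 340, nat_lit 0, nat_lit 496949, [nat_lit 2020528000, nat_lit 2693750000, nat_lit 4241902000], [], [nat_lit 9953755757, nat_lit 8989558132, nat_lit 7651759397, nat_lit 6696188872, nat_lit 9830000393, nat_lit 10159963511, nat_lit 9444553116, nat_lit 9537104198], nat_lit 1271250, nat_lit 1271250, nat_lit 330400, nat_lit 490000, nat_lit 1100001, nat_lit 2298750, [nat_lit 1100000, nat_lit 1442500, nat_lit 1271250], [nat_lit 11, nat_lit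 40, nat_lit 40, nat_lit 80, nat_lit 1, nat_lit 401, nat_lit 175, nat_lit 11]⟩,
 ⟨nat_lit 4472, nat_lit 5478, ⟨.ofNat (nat_lit 304934), .ofNat (nat_lit 349884), .ofNat (nat_lit 315596), .ofNat (nat_lit 360546), .ofNat (nat_lit 330704), .ofNat (nat_lit 371481), .ofNat (nat_lit 341471), .ofNat (nat_lit 382248)⟩, ⟨.ofNat (nat_lit 521722), .ofNat (nat_lit 626629), .ofNat (nat_lit 564436), .ofNat (nat_lit 669343), .ofNat (nat_lit 506556), .ofNat (nat_lit 601725), .ofNat (nat_lit 549689), .ofNat (nat_lit 644858)⟩⟩, [⟨nat_lit 0, nat_lit 100, nat_lit 93, nat_lit 85, nat_lit 288133233⟩, ⟨nat_lit 23, nat_lit 88, nat_lit 100, nat_lit 78, nat_lit 142337410⟩]⟩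
noncomputable def b_V_700_600_20_3 : St := ⟨true, nat_lit 0, nat_lit 1, nat_lit 1, nat_lit 120, nat_lit 280, nat_lit 320, nat_lit 240, nat_lit 280, nat_lit 36, nat_lit 80, nat_lit 80, nat_lit 120, nat_lit 280, nat_lit 336, nat_lit 0, nat_lit 300, nat_lit 0, nat_lit 40, nat_lit 300, nat_lit 380, nat_lit 0, nat_lit 0⟩
theorem d_V_700_600_20_3 (h : EB TB.env) : Dead b_V_700_600_20_3 := chkB_sound0 h (T :=
(.spl (nat_lit 1) (nat_lit 260)
(.leaf p060_l127)
(.trZ (nat_lit 0) (nat_lit 100) (nat_lit 96) (nat_lit 69) (nat_lit 48) (.spl (nat_lit 5) (nat_lit 160)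
(.leaf p060_l128)
(.spl (nat_lit 1) (nat_lit 270)
(.leaf p060_l129)
(.trZ (nat_lit 0) (nat_lit 100) (nat_lit 98) (nat_lit 74) (nat_lit 56) (.leaf p060_l130))))))) (by decide +kernel)
noncomputable def p060_l131 : Lf2 := ⟨nat_lit 0, nat_lit 5, [nat_lit 4, nat_lit 5, nat_lit 5, nat_lit 20], true, nat_lit 280, nat_lit 336, nat_lit 0, nat_lit 300, ⟨nat_lit 0, nat_lit 1000, nat_lit 0, nat_lit 6, nat_lit 118, nat_lit 1000, nat_lit 234, nat_lit 0, nat_lit 0, nat_lit 0, nat_lit 0, nat_lit 0, nat_lit 45047691, nat_lit 5569365, nat_lit 16382944, nat_lit 4358772, false, false⟩,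
 nat_lit 0, nat_lit 0, nat_lit 0, nat_lit 3404, nat_lit 646, nat_lit 0, nat_lit 0, nat_lit 0, nat_lit 314, nat_lit 0, nat_lit 0, nat_lit 0, nat_lit 0, nat_lit 0, nat_lit 0, nat_lit 400000, nat_lit 0, nat_lit 0, [(nat_lit 12, [(nat_lit 1, nat_lit 1000)]), (nat_lit 15, [(nat_lit 1, nat_lit 1000)])],
 ⟨p060_k33, nat_lit 0, nat_lit 0, nat_lit 0, nat_lit 0, nat_lit 0, [nat_lit 2251200000, nat_lit 2817000000], [], [nat_lit 16416206799, nat_lit 18130970558, nat_lit 17021932460, nat_lit 18609933136, nat_lit 18810280361, nat_lit 20362784907, nat_lit 19272174241, nat_lit 20787939522], nat_lit 0, nat_lit 0, nat_lit 0, nat_lit 0, nat_lit 0, nat_lit 0, [], [nat_lit 74, nat_lit 40, nat_lit 40, nat_lit 80]⟩, C1.Rw.none,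
 ⟨nat_lit 4472, nat_lit 5478, ⟨.ofNat (nat_lit 235487), .ofNat (nat_lit 317898), .ofNat (nat_lit 246151), .ofNat (nat_lit 328560), .ofNat (nat_lit 264421), .ofNat (nat_lit 339182), .ofNat (nat_lit 275190), .ofNat (nat_lit 349948)⟩, ⟨.ofNat (nat_lit 521722), .ofNat (nat_lit 626629), .ofNat (nat_lit 564436), .ofNat (nat_lit 669343), .ofNat (nat_lit 506556), .ofNat (nat_lit 601725), .ofNat (nat_lit 549689), .ofNat (nat_lit 644858)⟩⟩, [⟨nat_lit 0, nat_lit 100, nat_lit 94, nat_lit 59, nat_lit 36908205⟩]⟩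
noncomputable def p060_l132 : Lf2 := ⟨nat_lit 0, nat_lit 5, [nat_lit 4, nat_lit 5, nat_lit 5, nat_lit 20], true, nat_lit 280, nat_lit 300, nat_lit 0, nat_lit 300, ⟨nat_lit 0, nat_lit 1000, nat_lit 0, nat_lit 6, nat_lit 121, nat_lit 1000, nat_lit 223, nat_lit 0, nat_lit 0, nat_lit 0, nat_lit 0, nat_lit 0, nat_lit 45870274, nat_lit 5857040, nat_lit 15272686, nat_lit 4317982, false, false⟩,
 nat_lit 0, nat_lit 0, nat_lit 0, nat_lit 3315, nat_lit 3928, nat_lit 0, nat_lit 0, nat_lit 0, nat_lit 0, nat_lit 0, nat_lit 0, nat_lit 0, nat_lit 0, nat_lit 0, nat_lit 0, nat_lit 400000, nat_lit 0, nat_lit 0, [(nat_lit 12, [(nat_lit 1, nat_lit 1000)])],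
 ⟨p060_k33, nat_lit 0, nat_lit 0, nat_lit 0, nat_lit 0, nat_lit 0, [nat_lit 2251200000, nat_lit 2817000000], [], [nat_lit 18982032288, nat_lit 20326921400, nat_lit 18552192064, nat_lit 19839719312, nat_lit 20248176400, nat_lit 21634267708, nat_lit 19775351152, nat_lit 20996624128], nat_lit 0, nat_lit 0, nat_lit 0, nat_lit 0, nat_lit 0, nat_lit 0, [], [nat_lit 74, nat_lit 40, nat_lit 40, nat_lit 80]⟩, C1.Rw.none,
 ⟨nat_lit 5000, nat_lit 5478, ⟨.ofNat (nat_lit 253659), .ofNat (nat_lit 328592), .ofNat (nat_lit 264337), .ofNat (nat_lit 339271), .ofNat (nat_lit 267856), .ofNat (nat_lit 339284), .ofNat (nat_lit 278570), .ofNat (nat_lit 349999)⟩, ⟨.ofNat (nat_lit 521722), .ofNat (nat_lit 559189), .ofNat (nat_lit 564436), .ofNat (nat_lit 601903), .ofNat (nat_lit 514284), .ofNat (nat_lit 549998), .ofNat (nat_lit 557141), .ofNat (nat_lit 592856)⟩⟩, [⟨nat_lit 0, nat_lit 100, nat_lit 93, nat_lit 71, nat_lit 175220104⟩]⟩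
noncomputable def p060_l133 : Lf2 := ⟨nat_lit 0, nat_lit 5, [nat_lit 4, nat_lit 5, nat_lit 5, nat_lit 20], false, nat_lit 300, nat_lit 320, nat_lit 0, nat_lit 160, ⟨nat_lit 1000, nat_lit 0, nat_lit 0, nat_lit 0, nat_lit 0, nat_lit 0, nat_lit 0, nat_lit 0, nat_lit 0, nat_lit 0, nat_lit 0, nat_lit 0, nat_lit 0, nat_lit 0, nat_lit 0, nat_lit 0, false, false⟩,
 nat_lit 0, nat_lit 0, nat_lit 24406, nat_lit 0, nat_lit 5516, nat_lit 13558, nat_lit 0, nat_lit 0, nat_lit 18, nat_lit 3456, nat_lit 0, nat_lit 0, nat_lit 0, nat_lit 0, nat_lit 0, nat_lit 0, nat_lit 0, nat_lit 0, [],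
 ⟨p060_k34, nat_lit 0, nat_lit 0, nat_lit 0, nat_lit 0, nat_lit 0, [nat_lit 3282000000, nat_lit 3965500000, nat_lit 5449500000, nat_lit 7089500000], [], [nat_lit 21588055120, nat_lit 22416629478, nat_lit 20968018552, nat_lit 21617625556, nat_lit 23352102128, nat_lit 24127227340, nat_lit 22538696560, nat_lit 23303182876], nat_lit 0, nat_lit 0, nat_lit 0, nat_lit 0, nat_lit 0, nat_lit 0, [], [nat_lit 195, nat_lit 40, nat_lit 20, nat_lit 40]⟩, ⟨p060_k35, nat_lit 0, nat_lit 0, nat_lit 262, nat_lit 0, nat_lit 215108, [nat_lit 4688000000, nat_lit 6250000000, nat_lit 7968000000], [], [nat_lit 22923938682, nat_lit 24018209520, nat_lit 19003627255, nat_lit 21270927474, nat_lit 20133073768, nat_lit 16894826816, nat_lit 21030282371, nat_lit 17814006158], nat_lit 1271250, nat_lit 1271250, nat_lit 230001, nat_lit 356250, nat_lit 0, nat_lit 1100001, [nat_lit 1100000, nat_lit 1442500, nat_lit 1271250], [nat_lit 9, nat_lit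 40, nat_lit 40, nat_lit 80, nat_lit 2, nat_lit 272, nat_lit 60, nat_lit 9]⟩,
 zbF0, [⟨nat_lit 0, nat_lit 100, nat_lit 94, nat_lit 68, nat_lit 695200338⟩, ⟨nat_lit 4, nat_lit 91, nat_lit 100, nat_lit 96, nat_lit 705633405⟩]⟩
noncomputable def p060_l134 : Lf2 := ⟨nat_lit 0, nat_lit 5, [nat_lit 4, nat_lit 5, nat_lit 5, nat_lit 20], false, nat_lit 300, nat_lit 320, nat_lit 0, nat_lit 160, ⟨nat_lit 85, nat_lit 915, nat_lit 0, nat_lit 6, nat_lit 118, nat_lit 915, nat_lit 237, nat_lit 0, nat_lit 0, nat_lit 0, nat_lit 0, nat_lit 0, nat_lit 44814815, nat_lit 5565553, nat_lit 16619632, nat_lit 4376794, false, false⟩,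
 nat_lit 0, nat_lit 0, nat_lit 2578, nat_lit 299, nat_lit 257, nat_lit 1432, nat_lit 0, nat_lit 0, nat_lit 335, nat_lit 0, nat_lit 0, nat_lit 0, nat_lit 0, nat_lit 0, nat_lit 0, nat_lit 355200, nat_lit 0, nat_lit 0, [(nat_lit 12, [(nat_lit 0, nat_lit 72), (nat_lit 1, nat_lit 843)])],
 ⟨p060_k36, nat_lit 0, nat_lit 0, nat_lit 0, nat_lit 0, nat_lit 0, [nat_lit 2163334200, nat_lit 2399789501, nat_lit 2791955100, nat_lit 2954005600], [], [nat_lit 17381394025, nat_lit 17759758123, nat_lit 17566555789, nat_lit 17931035586, nat_lit 18151792224, nat_lit 18519903466, nat_lit 18320485477, nat_lit 18686334334], nat_lit 0, nat_lit 0, nat_lit 0, nat_lit 0, nat_lit 0, nat_lit 0, [], [nat_lit 228, nat_lit 40, nat_lit 20, nat_lit 40]⟩, ⟨p060_k35, nat_lit 0, nat_lit 0, nat_lit 286, nat_lit 0, nat_lit 285901, [nat_lit 398480000, nat_lit 531250000, nat_lit 677280000], [], [nat_lit 2893201086, nat_lit 2521429542, nat_lit 2447406884,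 nat_lit 2083853436, nat_lit 1597808240, nat_lit 1256711855, nat_lit 1653883244, nat_lit 1314179192], nat_lit 1271250, nat_lit 1271250, nat_lit 279600, nat_lit 356250, nat_lit 0, nat_lit 1100001, [nat_lit 1100000, nat_lit 1442500, nat_lit 1271250], [nat_lit 9, nat_lit 40, nat_lit 40, nat_lit 80, nat_lit 2, nat_lit 272, nat_lit 60, nat_lit 9]⟩,
 ⟨nat_lit 5000, nat_lit 5245, ⟨.ofNat (nat_lit 275412), .ofNat (nat_lit 297363), .ofNat (nat_lit 286104), .ofNat (nat_lit 308056), .ofNat (nat_lit 282141), .ofNat (nat_lit 303570), .ofNat (nat_lit 292856), .ofNat (nat_lit 314284)⟩, ⟨.ofNat (nat_lit 554614), .ofNat (nat_lit 591199), .ofNat (nat_lit 597385), .ofNat (nat_lit 633970), .ofNat (nat_lit 549998), .ofNat (nat_lit 585713), .ofNat (nat_lit 592856), .ofNat (nat_lit 628570)⟩⟩, [⟨nat_lit 0, nat_lit 100, nat_lit 92, nat_lit 68, nat_lit 273534695⟩]⟩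
noncomputable def p060_l135 : Lf2 := ⟨nat_lit 0, nat_lit 5, [nat_lit 4, nat_lit 5, nat_lit 5, nat_lit 20], false, nat_lit 300, nat_lit 320, nat_lit 160, nat_lit 200, ⟨nat_lit 1000, nat_lit 0, nat_lit 0, nat_lit 0, nat_lit 0, nat_lit 0, nat_lit 0, nat_lit 0, nat_lit 0, nat_lit 0, nat_lit 0, nat_lit 0, nat_lit 0, nat_lit 0, nat_lit 0, nat_lit 0, false, false⟩,
 nat_lit 0, nat_lit 0, nat_lit 27771, nat_lit 0, nat_lit 4942, nat_lit 15428, nat_lit 0, nat_lit 0, nat_lit 101, nat_lit 3980, nat_lit 0, nat_lit 0, nat_lit 0, nat_lit 0, nat_lit 0, nat_lit 0, nat_lit 0, nat_lit 0, [],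
 ⟨p060_k37, nat_lit 0, nat_lit 0, nat_lit 0, nat_lit 0, nat_lit 0, [nat_lit 1465500000, nat_lit 3282000000, nat_lit 4688000000, nat_lit 7089500000], [], [nat_lit 21299165928, nat_lit 22634025282, nat_lit 20808449548, nat_lit 22121069300, nat_lit 22731890536, nat_lit 24193622124, nat_lit 22197116136, nat_lit 23480316804], nat_lit 0, nat_lit 0, nat_lit 0, nat_lit 0, nat_lit 0, nat_lit 0, [], [nat_lit 183, nat_lit 40, nat_lit 20, nat_lit 40]⟩, ⟨p060_k35, nat_lit 0, nat_lit 0, nat_lit 187, nat_lit 0, nat_lit 285901, [nat_lit 4688000000, nat_lit 6250000000, nat_lit 7968000000], [], [nat_lit 16464470412, nat_lit 12506741000, nat_lit 8577915946, nat_lit 6688254836, nat_lit 11045924854, nat_lit 13029795612, nat_lit 8898818735, nat_lit 10847203966], nat_lit 1271250, nat_lit 1271250, nat_lit 230001, nat_lit 356250, nat_lit 1100001, nat_lit 1442500, [nat_lit 1100000, nat_lit 1442500, nat_lit 1271250], [nat_lit 9, nat_lit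 40, nat_lit 40, nat_lit 80, nat_lit 2, nat_lit 289, nat_lit 75, nat_lit 9]⟩,
 zbF0, [⟨nat_lit 0, nat_lit 100, nat_lit 93, nat_lit 71, nat_lit 2102849720⟩, ⟨nat_lit 4, nat_lit 94, nat_lit 100, nat_lit 97, nat_lit 616562848⟩]⟩
noncomputable def p060_l136 : Lf2 := ⟨nat_lit 0, nat_lit 5, [nat_lit 4, nat_lit 5, nat_lit 5, nat_lit 20], false, nat_lit 300, nat_lit 320, nat_lit 200, nat_lit 256, ⟨nat_lit 1000, nat_lit 0, nat_lit 0, nat_lit 0, nat_lit 0, nat_lit 0, nat_lit 0, nat_lit 0, nat_lit 0, nat_lit 0, nat_lit 0, nat_lit 0, nat_lit 0, nat_lit 0, nat_lit 0, nat_lit 0, false, false⟩,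
 nat_lit 0, nat_lit 0, nat_lit 16869, nat_lit 0, nat_lit 6438, nat_lit 9371, nat_lit 0, nat_lit 0, nat_lit 0, nat_lit 2520, nat_lit 0, nat_lit 0, nat_lit 0, nat_lit 0, nat_lit 0, nat_lit 0, nat_lit 0, nat_lit 0, [],
 ⟨p060_k37, nat_lit 0, nat_lit 0, nat_lit 0, nat_lit 0, nat_lit 0, [nat_lit 1465500000, nat_lit 3282000000, nat_lit 4688000000, nat_lit 7089500000], [], [nat_lit 22455121992, nat_lit 24226922698, nat_lit 21710250172, nat_lit 23224165700, nat_lit 24348330504, nat_lit 26040766236, nat_lit 23342367080, nat_lit 25011116756], nat_lit 0, nat_lit 0, nat_lit 0, nat_lit 0, nat_lit 0, nat_lit 0, [], [nat_lit 183, nat_lit 40, nat_lit 20, nat_lit 40]⟩, ⟨p060_k35, nat_lit 0, nat_lit 0, nat_lit 179, nat_lit 0, nat_lit 285901, [nat_lit 4688000000, nat_lit 6250000000, nat_lit 7968000000], [], [nat_lit 13236836267, nat_lit 14165579672, nat_lit 12315318928, nat_lit 13225330946, nat_lit 16809173273, nat_lit 17825825736,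 nat_lit 15822914713, nat_lit 16600027770], nat_lit 1271250, nat_lit 1271250, nat_lit 230001, nat_lit 356250, nat_lit 1271250, nat_lit 1271250, [nat_lit 1100000, nat_lit 1442500, nat_lit 1271250], [nat_lit 9, nat_lit 40, nat_lit 40, nat_lit 80, nat_lit 2, nat_lit 317, nat_lit 100, nat_lit 10]⟩,
 zbF0, [⟨nat_lit 0, nat_lit 100, nat_lit 91, nat_lit 77, nat_lit 603990246⟩, ⟨nat_lit 16, nat_lit 100, nat_lit 94, nat_lit 97, nat_lit 478068407⟩, ⟨nat_lit 23, nat_lit 90, nat_lit 100, nat_lit 74, nat_lit 780734564⟩]⟩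
noncomputable def p060_l137 : Lf2 := ⟨nat_lit 0, nat_lit 5, [nat_lit 4, nat_lit 5, nat_lit 5, nat_lit 20], true, nat_lit 300, nat_lit 320, nat_lit 0, nat_lit 280, ⟨nat_lit 0, nat_lit 1000, nat_lit 0, nat_lit 6, nat_lit 128, nat_lit 1000, nat_lit 238, nat_lit 0, nat_lit 0, nat_lit 0, nat_lit 0, nat_lit 0, nat_lit 44122233, nat_lit 6286800, nat_lit 16590967, nat_lit 4501349, false, false⟩,
 nat_lit 0, nat_lit 0, nat_lit 0, nat_lit 3315, nat_lit 2535, nat_lit 0, nat_lit 0, nat_lit 0, nat_lit 104, nat_lit 0, nat_lit 0, nat_lit 0, nat_lit 0, nat_lit 0, nat_lit 0, nat_lit 400000, nat_lit 0, nat_lit 0, [(nat_lit 12, [(nat_lit 1, nat_lit 1000)])],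
 ⟨p060_k34, nat_lit 0, nat_lit 0, nat_lit 0, nat_lit 0, nat_lit 0, [nat_lit 2033400000, nat_lit 2255600001, nat_lit 2579200001, nat_lit 2677600000], [], [nat_lit 18933956740, nat_lit 19974326900, nat_lit 18977757680, nat_lit 20000357430, nat_lit 20024751360, nat_lit 21017325170, nat_lit 20049401800, nat_lit 21022957180], nat_lit 0, nat_lit 0, nat_lit 0, nat_lit 0, nat_lit 0, nat_lit 0, [], [nat_lit 195, nat_lit 40, nat_lit 20, nat_lit 40]⟩, C1.Rw.none,
 ⟨nat_lit 5000, nat_lit 5478, ⟨.ofNat (nat_lit 291125), .ofNat (nat_lit 328592), .ofNat (nat_lit 301804), .ofNat (nat_lit 339271), .ofNat (nat_lit 303570), .ofNat (nat_lit 339284), .ofNat (nat_lit 314284), .ofNat (nat_lit 349999)⟩, ⟨.ofNat (nat_lit 559189), .ofNat (nat_lit 596655), .ofNat (nat_lit 601903), .ofNat (nat_lit 639367), .ofNat (nat_lit 549998), .ofNat (nat_lit 585713), .ofNat (nat_lit 592856), .ofNat (nat_lit 628568)⟩⟩, [⟨nat_lit 4, nat_lit 94, nat_lit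 100, nat_lit 97, nat_lit 839700⟩]⟩
noncomputable def p060_l138 : Lf2 := ⟨nat_lit 0, nat_lit 5, [nat_lit 4, nat_lit 5, nat_lit 5, nat_lit 20], false, nat_lit 320, nat_lit 336, nat_lit 0, nat_lit 232, ⟨nat_lit 52, nat_lit 948, nat_lit 0, nat_lit 6, nat_lit 114, nat_lit 948, nat_lit 251, nat_lit 0, nat_lit 0, nat_lit 0, nat_lit 0, nat_lit 0, nat_lit 43759952, nat_lit 5197328, nat_lit 18042720, nat_lit 4413888, false, false⟩,
 nat_lit 0, nat_lit 0, nat_lit 1945, nat_lit 674, nat_lit 0, nat_lit 1080, nat_lit 0, nat_lit 0, nat_lit 344, nat_lit 10, nat_lit 0, nat_lit 0, nat_lit 0, nat_lit 0, nat_lit 0, nat_lit 270000, nat_lit 0, nat_lit 0, [(nat_lit 12, [(nat_lit 0, nat_lit 728), (nat_lit 1, nat_lit 220)])],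
 ⟨p060_k37, nat_lit 0, nat_lit 0, nat_lit 0, nat_lit 0, nat_lit 0, [nat_lit 1167042000, nat_lit 2043840401, nat_lit 2593084001, nat_lit 3198048400], [], [nat_lit 17394592401, nat_lit 18091626000, nat_lit 17742178401, nat_lit 18423356000, nat_lit 17998143200, nat_lit 18681758000, nat_lit 18330159200, nat_lit 19007257600], nat_lit 0, nat_lit 0, nat_lit 0, nat_lit 0, nat_lit 0, nat_lit 0, [], [nat_lit 183, nat_lit 40, nat_lit 20, nat_lit 40]⟩, ⟨p060_k35, nat_lit 0, nat_lit 0, nat_lit 292, nat_lit 0, nat_lit 285901, [nat_lit 243776000, nat_lit 325000000, nat_lit 414336000], [], [nat_lit 1993781624, nat_lit 1712561504, nat_lit 1433425784, nat_lit 1476048568, nat_lit 1271590252, nat_lit 1019852728, nat_lit 1341435280, nat_lit 1091362360], nat_lit 1271250, nat_lit 1271250, nat_lit 230001, nat_lit 356250, nat_lit 0, nat_lit 1638500, [nat_lit 1100000, nat_lit 1442500, nat_lit 1271250], [nat_lit 9, nat_lit 40, nat_lit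 40, nat_lit 80, nat_lit 2, nat_lit 289, nat_lit 75, nat_lit 10]⟩,
 ⟨nat_lit 5000, nat_lit 5478, ⟨.ofNat (nat_lit 253659), .ofNat (nat_lit 291125), .ofNat (nat_lit 264337), .ofNat (nat_lit 301804), .ofNat (nat_lit 267856), .ofNat (nat_lit 303570), .ofNat (nat_lit 278570), .ofNat (nat_lit 314284)⟩, ⟨.ofNat (nat_lit 596655), .ofNat (nat_lit 626629), .ofNat (nat_lit 639367), .ofNat (nat_lit 669336), .ofNat (nat_lit 585713), .ofNat (nat_lit 614284), .ofNat (nat_lit 628568), .ofNat (nat_lit 657134)⟩⟩, [⟨nat_lit 0, nat_lit 100, nat_lit 93, nat_lit 71, nat_lit 107139166⟩]⟩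
noncomputable def p060_l139 : Lf2 := ⟨nat_lit 0, nat_lit 5, [nat_lit 4, nat_lit 5, nat_lit 5, nat_lit 20], true, nat_lit 320, nat_lit 336, nat_lit 0, nat_lit 260, ⟨nat_lit 0, nat_lit 1000, nat_lit 0, nat_lit 6, nat_lit 128, nat_lit 1000, nat_lit 251, nat_lit 0, nat_lit 0, nat_lit 0, nat_lit 0, nat_lit 0, nat_lit 42959550, nat_lit 6195128, nat_lit 17845322, nat_lit 4578137, false, false⟩,
 nat_lit 0, nat_lit 0, nat_lit 0, nat_lit 2416, nat_lit 401, nat_lit 0, nat_lit 0, nat_lit 0, nat_lit 302, nat_lit 0, nat_lit 0, nat_lit 0, nat_lit 0, nat_lit 0, nat_lit 0, nat_lit 260050, nat_lit 0, nat_lit 0, [(nat_lit 12, [(nat_lit 0, nat_lit 933), (nat_lit 1, nat_lit 67)])],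
 ⟨p060_k37, nat_lit 0, nat_lit 0, nat_lit 0, nat_lit 0, nat_lit 0, [nat_lit 1172955000, nat_lit 1970856901, nat_lit 2481606401, nat_lit 3047193400], [], [nat_lit 18080155660, nat_lit 18833684062, nat_lit 18407213209, nat_lit 19136876048, nat_lit 18746514292, nat_lit 19479469586, nat_lit 19049912787, nat_lit 19774236800], nat_lit 0, nat_lit 0, nat_lit 0, nat_lit 0, nat_lit 0, nat_lit 0, [], [nat_lit 183, nat_lit 40, nat_lit 20, nat_lit 40]⟩, C1.Rw.none,
 ⟨nat_lit 5000, nat_lit 5478, ⟨.ofNat (nat_lit 291125), .ofNat (nat_lit 328592), .ofNat (nat_lit 301804), .ofNat (nat_lit 339271), .ofNat (nat_lit 303570), .ofNat (nat_lit 339284), .ofNat (nat_lit 314284), .ofNat (nat_lit 349999)⟩, ⟨.ofNat (nat_lit 596655), .ofNat (nat_lit 626629), .ofNat (nat_lit 639367), .ofNat (nat_lit 669336), .ofNat (nat_lit 585713), .ofNat (nat_lit 614284), .ofNat (nat_lit 628568), .ofNat (nat_lit 657134)⟩⟩, []⟩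
noncomputable def p060_l140 : Lf2 := ⟨nat_lit 0, nat_lit 5, [nat_lit 4, nat_lit 5, nat_lit 5, nat_lit 20], true, nat_lit 280, nat_lit 320, nat_lit 0, nat_lit 300, ⟨nat_lit 0, nat_lit 1000, nat_lit 0, nat_lit 6, nat_lit 132, nat_lit 1000, nat_lit 227, nat_lit 0, nat_lit 0, nat_lit 0, nat_lit 0, nat_lit 0, nat_lit 44901122, nat_lit 6592097, nat_lit 15506781, nat_lit 4464548, false, false⟩,
 nat_lit 0, nat_lit 0, nat_lit 0, nat_lit 3295, nat_lit 875, nat_lit 0, nat_lit 0, nat_lit 0, nat_lit 263, nat_lit 0, nat_lit 0, nat_lit 0, nat_lit 0, nat_lit 0, nat_lit 0, nat_lit 400000, nat_lit 0, nat_lit 0, [(nat_lit 15, [(nat_lit 1, nat_lit 1000)])],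
 ⟨p060_k38, nat_lit 0, nat_lit 0, nat_lit 0, nat_lit 0, nat_lit 0, [nat_lit 2020200000, nat_lit 2216000000, nat_lit 2326400000], [], [nat_lit 17880645875, nat_lit 18643155650, nat_lit 18179019875, nat_lit 18928826000, nat_lit 19320034250, nat_lit 20146580400, nat_lit 19592554500, nat_lit 20356624500], nat_lit 0, nat_lit 0, nat_lit 0, nat_lit 0, nat_lit 0, nat_lit 0, [], [nat_lit 59, nat_lit 40, nat_lit 40, nat_lit 80]⟩, C1.Rw.none,
 ⟨nat_lit 4472, nat_lit 5000, ⟨.ofNat (nat_lit 296413), .ofNat (nat_lit 339268), .ofNat (nat_lit 307122), .ofNat (nat_lit 349976), .ofNat (nat_lit 309179), .ofNat (nat_lit 349964), .ofNat (nat_lit 319957), .ofNat (nat_lit 360741)⟩, ⟨.ofNat (nat_lit 514284), .ofNat (nat_lit 585713), .ofNat (nat_lit 557141), .ofNat (nat_lit 628570), .ofNat (nat_lit 506556), .ofNat (nat_lit 574534), .ofNat (nat_lit 549689), .ofNat (nat_lit 617667)⟩⟩, [⟨nat_lit 0, nat_lit 100, nat_lit 87, nat_lit 79,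 nat_lit 45330308⟩, ⟨nat_lit 16, nat_lit 94, nat_lit 88, nat_lit 100, nat_lit 3832353⟩]⟩
noncomputable def b_V_700_600_20_4 : St := ⟨true, nat_lit 0, nat_lit 1, nat_lit 1, nat_lit 120, nat_lit 280, nat_lit 320, nat_lit 240, nat_lit 260, nat_lit 36, nat_lit 80, nat_lit 80, nat_lit 120, nat_lit 280, nat_lit 336, nat_lit 0, nat_lit 300, nat_lit 0, nat_lit 20, nat_lit 380, nat_lit 420, nat_lit 0, nat_lit 0⟩
theorem d_V_700_600_20_4 (h : EB TB.env) : Dead b_V_700_600_20_4 := chkB_sound0 h (T :=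
(.spl (nat_lit 1) (nat_lit 250)
(.leaf p060_l131)
(.trZ (nat_lit 0) (nat_lit 100) (nat_lit 95) (nat_lit 64) (nat_lit 40) (.spl (nat_lit 0) (nat_lit 300)
(.spl (nat_lit 4) (nat_lit 320)
(.spl (nat_lit 4) (nat_lit 300)
(.leaf p060_l132)
(.trX (nat_lit 23) (nat_lit 94) (nat_lit 100) (nat_lit 87) (nat_lit 280) (.spl (nat_lit 2) (nat_lit 60)
(.trX (nat_lit 23) (nat_lit 90) (nat_lit 100) (nat_lit 74) (nat_lit 256) (.spl (nat_lit 5) (nat_lit 160)
(.spl (nat_lit 0) (nat_lit 290)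
(.leaf p060_l133)
(.trZ (nat_lit 0) (nat_lit 100) (nat_lit 92) (nat_lit 68) (nat_lit 48) (.leaf p060_l134)))
(.spl (nat_lit 5) (nat_lit 200)
(.leaf p060_l135)
(.leaf p060_l136))))
(.leaf p060_l137))))
(.trX (nat_lit 23) (nat_lit 83) (nat_lit 100) (nat_lit 83) (nat_lit 260) (.spl (nat_lit 2) (nat_lit 60)
(.trX (nat_lit 23) (nat_lit 81) (nat_lit 100) (nat_lit 72) (nat_lit 232) (.leaf p060_l138))
(.leaf p060_l139))))
(.trZ (nat_lit 0) (nat_lit 100) (nat_lit 89) (nat_lit 72) (nat_lit 56) (.trX (nat_lit 16) (nat_lit 94) (nat_lit 88) (nat_lit 100) (nat_lit 320) (.leaf p060_l140))))))) (by decide +kernel)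
noncomputable def p060_l141 : Lf2 := ⟨nat_lit 0, nat_lit 5, [nat_lit 4, nat_lit 5, nat_lit 5, nat_lit 20], true, nat_lit 280, nat_lit 320, nat_lit 0, nat_lit 300, ⟨nat_lit 0, nat_lit 1000, nat_lit 0, nat_lit 6, nat_lit 114, nat_lit 1000, nat_lit 227, nat_lit 0, nat_lit 0, nat_lit 0, nat_lit 0, nat_lit 0, nat_lit 45927165, nat_lit 5348553, nat_lit 15724282, nat_lit 4263826, false, false⟩,
 nat_lit 0, nat_lit 0, nat_lit 0, nat_lit 7086, nat_lit 8912, nat_lit 0, nat_lit 0, nat_lit 0, nat_lit 0, nat_lit 0, nat_lit 0, nat_lit 0, nat_lit 0, nat_lit 0, nat_lit 0, nat_lit 1000000, nat_lit 0, nat_lit 0, [(nat_lit 12, [(nat_lit 2, nat_lit 1000)])],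
 ⟨p060_k39, nat_lit 0, nat_lit 0, nat_lit 0, nat_lit 0, nat_lit 0, [nat_lit 1336000000, nat_lit 1985600001, nat_lit 2335200001, nat_lit 1636000001, nat_lit 1159200000], [], [nat_lit 17612122625, nat_lit 18572366017, nat_lit 15435209729, nat_lit 16355072737, nat_lit 21640031361, nat_lit 22580126624, nat_lit 19289853697, nat_lit 20089327937], nat_lit 0, nat_lit 0, nat_lit 0, nat_lit 0, nat_lit 0, nat_lit 0, [], [nat_lit 241, nat_lit 10, nat_lit 4, nat_lit 20]⟩, C1.Rw.none,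
 ⟨nat_lit 5244, nat_lit 5478, ⟨.ofNat (nat_lit 235487), .ofNat (nat_lit 317913), .ofNat (nat_lit 246166), .ofNat (nat_lit 328592), .ofNat (nat_lit 242768), .ofNat (nat_lit 323256), .ofNat (nat_lit 253460), .ofNat (nat_lit 333949)⟩, ⟨.ofNat (nat_lit 521722), .ofNat (nat_lit 596655), .ofNat (nat_lit 543079), .ofNat (nat_lit 618012), .ofNat (nat_lit 518028), .ofNat (nat_lit 591199), .ofNat (nat_lit 539414), .ofNat (nat_lit 612585)⟩⟩, [⟨nat_lit 0, nat_lit 100, nat_lit 93, nat_lit 63, nat_lit 392274095⟩, ⟨nat_lit 16, nat_lit 100, nat_lit 88, nat_lit 94, nat_lit 447273033⟩]⟩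
noncomputable def p060_l142 : Lf2 := ⟨nat_lit 0, nat_lit 5, [nat_lit 4, nat_lit 5, nat_lit 5, nat_lit 20], true, nat_lit 280, nat_lit 312, nat_lit 0, nat_lit 300, ⟨nat_lit 0, nat_lit 1000, nat_lit 0, nat_lit 6, nat_lit 118, nat_lit 1000, nat_lit 222, nat_lit 0, nat_lit 0, nat_lit 0, nat_lit 0, nat_lit 0, nat_lit 46123476, nat_lit 5647619, nat_lit 15228905, nat_lit 4276408, false, false⟩,
 nat_lit 0, nat_lit 0, nat_lit 0, nat_lit 2834, nat_lit 4415, nat_lit 0, nat_lit 0, nat_lit 0, nat_lit 0, nat_lit 0, nat_lit 0, nat_lit 0, nat_lit 0, nat_lit 0, nat_lit 0, nat_lit 331150, nat_lit 0, nat_lit 0, [(nat_lit 12, [(nat_lit 0, nat_lit 459), (nat_lit 1, nat_lit 541)])],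
 ⟨p060_k40, nat_lit 0, nat_lit 0, nat_lit 0, nat_lit 0, nat_lit 0, [nat_lit 2185145400, nat_lit 2455573200, nat_lit 2741681200], [], [nat_lit 20514142910, nat_lit 21113440820, nat_lit 20071763195, nat_lit 20648795120, nat_lit 22283630846, nat_lit 22990212654, nat_lit 21776706691, nat_lit 22307685000], nat_lit 0, nat_lit 0, nat_lit 0, nat_lit 0, nat_lit 0, nat_lit 0, [], [nat_lit 59, nat_lit 40, nat_lit 40, nat_lit 80]⟩, C1.Rw.none,
 ⟨nat_lit 5000, nat_lit 5245, ⟨.ofNat (nat_lit 250085), .ofNat (nat_lit 323256), .ofNat (nat_lit 260778), .ofNat (nat_lit 333949), .ofNat (nat_lit 257141), .ofNat (nat_lit 328570), .ofNat (nat_lit 267856), .ofNat (nat_lit 339284)⟩, ⟨.ofNat (nat_lit 518028), .ofNat (nat_lit 576565), .ofNat (nat_lit 539414), .ofNat (nat_lit 597950), .ofNat (nat_lit 514284), .ofNat (nat_lit 571427), .ofNat (nat_lit 535713), .ofNat (nat_lit 592856)⟩⟩, [⟨nat_lit 0, nat_lit 100, nat_lit 90, nat_lit 68,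 nat_lit 175968288⟩, ⟨nat_lit 16, nat_lit 100, nat_lit 94, nat_lit 97, nat_lit 220629071⟩]⟩
noncomputable def p060_l143 : Lf2 := ⟨nat_lit 0, nat_lit 5, [nat_lit 4, nat_lit 5, nat_lit 5, nat_lit 20], true, nat_lit 280, nat_lit 300, nat_lit 0, nat_lit 300, ⟨nat_lit 0, nat_lit 1000, nat_lit 0, nat_lit 6, nat_lit 121, nat_lit 1000, nat_lit 219, nat_lit 0, nat_lit 0, nat_lit 0, nat_lit 0, nat_lit 0, nat_lit 46257901, nat_lit 5879805, nat_lit 14862294, nat_lit 4285683, false, false⟩,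
 nat_lit 0, nat_lit 0, nat_lit 0, nat_lit 2308, nat_lit 100000, nat_lit 0, nat_lit 0, nat_lit 20000, nat_lit 0, nat_lit 0, nat_lit 0, nat_lit 0, nat_lit 0, nat_lit 0, nat_lit 0, nat_lit 250000, nat_lit 0, nat_lit 0, [(nat_lit 12, [(nat_lit 0, nat_lit 1000)])],
 ⟨p060_k33, nat_lit 0, nat_lit 0, nat_lit 0, nat_lit 0, nat_lit 0, [nat_lit 242364000000, nat_lit 483224400000], [], [nat_lit 225229068000, nat_lit 242256377000, nat_lit 195799126000, nat_lit 212032190000, nat_lit 240791110000, nat_lit 256466180500, nat_lit 210637705000, nat_lit 225589300000], nat_lit 0, nat_lit 0, nat_lit 0, nat_lit 0, nat_lit 0, nat_lit 0, [], [nat_lit 74, nat_lit 40, nat_lit 40, nat_lit 80]⟩, C1.Rw.none,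
 ⟨nat_lit 5000, nat_lit 5478, ⟨.ofNat (nat_lit 253659), .ofNat (nat_lit 328592), .ofNat (nat_lit 264337), .ofNat (nat_lit 339271), .ofNat (nat_lit 267856), .ofNat (nat_lit 339284), .ofNat (nat_lit 278570), .ofNat (nat_lit 349999)⟩, ⟨.ofNat (nat_lit 521722), .ofNat (nat_lit 559189), .ofNat (nat_lit 543079), .ofNat (nat_lit 580546), .ofNat (nat_lit 514284), .ofNat (nat_lit 549998), .ofNat (nat_lit 535713), .ofNat (nat_lit 571427)⟩⟩, [⟨nat_lit 0, nat_lit 100, nat_lit 93, nat_lit 71, nat_lit 4249735238⟩]⟩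
noncomputable def p060_l144 : Lf2 := ⟨nat_lit 0, nat_lit 2, [nat_lit 10, nat_lit 5, nat_lit 5, nat_lit 20], false, nat_lit 300, nat_lit 320, nat_lit 0, nat_lit 256, ⟨nat_lit 62, nat_lit 938, nat_lit 0, nat_lit 6, nat_lit 112, nat_lit 938, nat_lit 235, nat_lit 0, nat_lit 0, nat_lit 0, nat_lit 0, nat_lit 0, nat_lit 45332493, nat_lit 5150870, nat_lit 16516637, nat_lit 4291450, false, false⟩,
 nat_lit 0, nat_lit 0, nat_lit 1528, nat_lit 1053, nat_lit 3696, nat_lit 848, nat_lit 0, nat_lit 0, nat_lit 0, nat_lit 32, nat_lit 0, nat_lit 0, nat_lit 0, nat_lit 0, nat_lit 0, nat_lit 375200, nat_lit 0, nat_lit 0, [(nat_lit 12, [(nat_lit 1, nat_lit 938)])],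
 ⟨p060_k41, nat_lit 0, nat_lit 0, nat_lit 0, nat_lit 0, nat_lit 0, [nat_lit 2110813200, nat_lit 2579000800, nat_lit 2852939200], [], [nat_lit 20155048000, nat_lit 20462355435, nat_lit 19954472532, nat_lit 20256640779, nat_lit 21386669584, nat_lit 21702972804, nat_lit 21165423232, nat_lit 21451335946], nat_lit 0, nat_lit 0, nat_lit 0, nat_lit 0, nat_lit 0, nat_lit 0, [], [nat_lit 59, nat_lit 40, nat_lit 40, nat_lit 80]⟩, ⟨p060_k42, nat_lit 0, nat_lit 0, nat_lit 0, nat_lit 0, nat_lit 164262, [nat_lit 290656000, nat_lit 387500000, nat_lit 494016000], [], [nat_lit 2286635544, nat_lit 2065825672, nat_lit 1846652440, nat_lit 1627479208, nat_lit 1127816863, nat_lit 1204845811, nat_lit 1027998123, nat_lit 1089570311], nat_lit 1271250, nat_lit 1271250, nat_lit 230001, nat_lit 356250, nat_lit 0, nat_lit 1808000, [nat_lit 1100000, nat_lit 1442500, nat_lit 1271250], [nat_lit 9, nat_lit 40, nat_lit 40, nat_lit 80]⟩,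
 ⟨nat_lit 5361, nat_lit 5478, ⟨.ofNat (nat_lit 253659), .ofNat (nat_lit 291125), .ofNat (nat_lit 264337), .ofNat (nat_lit 301804), .ofNat (nat_lit 257225), .ofNat (nat_lit 294249), .ofNat (nat_lit 267910), .ofNat (nat_lit 304934)⟩, ⟨.ofNat (nat_lit 559189), .ofNat (nat_lit 596655), .ofNat (nat_lit 580546), .ofNat (nat_lit 618012), .ofNat (nat_lit 556905), .ofNat (nat_lit 593930), .ofNat (nat_lit 578274), .ofNat (nat_lit 615299)⟩⟩, [⟨nat_lit 0, nat_lit 100, nat_lit 95, nat_lit 67, nat_lit 313614710⟩, ⟨nat_lit 16, nat_lit 100, nat_lit 88, nat_lit 94, nat_lit 277181163⟩]⟩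
noncomputable def p060_l145 : Lf2 := ⟨nat_lit 0, nat_lit 5, [nat_lit 4, nat_lit 5, nat_lit 5, nat_lit 20], true, nat_lit 300, nat_lit 320, nat_lit 0, nat_lit 256, ⟨nat_lit 0, nat_lit 1000, nat_lit 0, nat_lit 6, nat_lit 112, nat_lit 1000, nat_lit 235, nat_lit 0, nat_lit 0, nat_lit 0, nat_lit 0, nat_lit 0, nat_lit 45332493, nat_lit 5150870, nat_lit 16516637, nat_lit 4291450, false, false⟩,
 nat_lit 0, nat_lit 0, nat_lit 0, nat_lit 100000, nat_lit 60959, nat_lit 0, nat_lit 0, nat_lit 5448, nat_lit 0, nat_lit 0, nat_lit 0, nat_lit 0, nat_lit 0, nat_lit 0, nat_lit 0, nat_lit 400000, nat_lit 0, nat_lit 0, [(nat_lit 12, [(nat_lit 1, nat_lit 1000)])],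
 ⟨p060_k43, nat_lit 0, nat_lit 0, nat_lit 0, nat_lit 0, nat_lit 0, [nat_lit 67409400001, nat_lit 89742800000, nat_lit 133463866667], [], [nat_lit 73789161701, nat_lit 76243867426, nat_lit 64743141992, nat_lit 67141991405, nat_lit 83541746737, nat_lit 85788677534, nat_lit 74272259229, nat_lit 76468766254], nat_lit 0, nat_lit 0, nat_lit 0, nat_lit 0, nat_lit 0, nat_lit 0, [], [nat_lit 36, nat_lit 40, nat_lit 40, nat_lit 80]⟩, C1.Rw.none,
 ⟨nat_lit 5361, nat_lit 5478, ⟨.ofNat (nat_lit 253659), .ofNat (nat_lit 291125), .ofNat (nat_lit 264337), .ofNat (nat_lit 301804), .ofNat (nat_lit 257225), .ofNat (nat_lit 294249), .ofNat (nat_lit 267910), .ofNat (nat_lit 304934)⟩, ⟨.ofNat (nat_lit 559189), .ofNat (nat_lit 596655), .ofNat (nat_lit 580546), .ofNat (nat_lit 618012), .ofNat (nat_lit 556905), .ofNat (nat_lit 593930), .ofNat (nat_lit 578274), .ofNat (nat_lit 615299)⟩⟩, [⟨nat_lit 0, nat_lit 100, nat_lit 95, nat_lit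 71, nat_lit 2541598744⟩, ⟨nat_lit 16, nat_lit 100, nat_lit 88, nat_lit 94, nat_lit 5325019575⟩]⟩
noncomputable def p060_l146 : Lf2 := ⟨nat_lit 0, nat_lit 5, [nat_lit 4, nat_lit 5, nat_lit 5, nat_lit 20], true, nat_lit 300, nat_lit 316, nat_lit 0, nat_lit 256, ⟨nat_lit 0, nat_lit 1000, nat_lit 0, nat_lit 6, nat_lit 115, nat_lit 1000, nat_lit 232, nat_lit 0, nat_lit 0, nat_lit 0, nat_lit 0, nat_lit 0, nat_lit 45399270, nat_lit 5354450, nat_lit 16246280, nat_lit 4308129, false, false⟩,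
 nat_lit 0, nat_lit 0, nat_lit 0, nat_lit 3274, nat_lit 13731, nat_lit 0, nat_lit 0, nat_lit 950, nat_lit 0, nat_lit 0, nat_lit 0, nat_lit 0, nat_lit 0, nat_lit 0, nat_lit 0, nat_lit 400000, nat_lit 0, nat_lit 0, [(nat_lit 12, [(nat_lit 1, nat_lit 1000)])],
 ⟨p060_k44, nat_lit 0, nat_lit 0, nat_lit 0, nat_lit 0, nat_lit 0, [nat_lit 13433400001, nat_lit 17774800000, nat_lit 25511866667], [], [nat_lit 29764188709, nat_lit 30445009503, nat_lit 28352417510, nat_lit 29022016655, nat_lit 31895164050, nat_lit 32608249211, nat_lit 30448252503, nat_lit 31078758730], nat_lit 0, nat_lit 0, nat_lit 0, nat_lit 0, nat_lit 0, nat_lit 0, [], [nat_lit 36, nat_lit 40, nat_lit 40, nat_lit 80]⟩, C1.Rw.none,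
 ⟨nat_lit 5244, nat_lit 5362, ⟨.ofNat (nat_lit 264630), .ofNat (nat_lit 294249), .ofNat (nat_lit 275314), .ofNat (nat_lit 304934), .ofNat (nat_lit 268095), .ofNat (nat_lit 297363), .ofNat (nat_lit 278787), .ofNat (nat_lit 308056)⟩, ⟨.ofNat (nat_lit 556905), .ofNat (nat_lit 586525), .ofNat (nat_lit 578274), .ofNat (nat_lit 607894), .ofNat (nat_lit 554614), .ofNat (nat_lit 583882), .ofNat (nat_lit 575999), .ofNat (nat_lit 605268)⟩⟩, [⟨nat_lit 0, nat_lit 100, nat_lit 94, nat_lit 69, nat_lit 583380048⟩, ⟨nat_lit 16, nat_lit 100, nat_lit 91, nat_lit 96, nat_lit 1117571887⟩]⟩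
noncomputable def p060_l147 : Lf2 := ⟨nat_lit 0, nat_lit 5, [nat_lit 4, nat_lit 5, nat_lit 5, nat_lit 20], true, nat_lit 300, nat_lit 312, nat_lit 0, nat_lit 256, ⟨nat_lit 0, nat_lit 1000, nat_lit 0, nat_lit 6, nat_lit 118, nat_lit 1000, nat_lit 230, nat_lit 0, nat_lit 0, nat_lit 0, nat_lit 0, nat_lit 0, nat_lit 45467622, nat_lit 5605533, nat_lit 15926845, nat_lit 4328252, false, false⟩,
 nat_lit 0, nat_lit 0, nat_lit 0, nat_lit 3270, nat_lit 100000, nat_lit 0, nat_lit 0, nat_lit 9034, nat_lit 0, nat_lit 0, nat_lit 0, nat_lit 0, nat_lit 0, nat_lit 0, nat_lit 0, nat_lit 400000, nat_lit 0, nat_lit 0, [(nat_lit 12, [(nat_lit 1, nat_lit 1000)])],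
 ⟨p060_k40, nat_lit 0, nat_lit 0, nat_lit 0, nat_lit 0, nat_lit 0, [nat_lit 110441400000, nat_lit 146983600000, nat_lit 183308400000], [], [nat_lit 110603016701, nat_lit 118368204400, nat_lit 101448473875, nat_lit 109105140250, nat_lit 119452000961, nat_lit 127760014120, nat_lit 110173604051, nat_lit 117435214301], nat_lit 0, nat_lit 0, nat_lit 0, nat_lit 0, nat_lit 0, nat_lit 0, [], [nat_lit 59, nat_lit 40, nat_lit 40, nat_lit 80]⟩, C1.Rw.none,
 ⟨nat_lit 5000, nat_lit 5245, ⟨.ofNat (nat_lit 275412), .ofNat (nat_lit 297363), .ofNat (nat_lit 286104), .ofNat (nat_lit 308056), .ofNat (nat_lit 282141), .ofNat (nat_lit 303570), .ofNat (nat_lit 292856), .ofNat (nat_lit 314284)⟩, ⟨.ofNat (nat_lit 554614), .ofNat (nat_lit 576565), .ofNat (nat_lit 575999), .ofNat (nat_lit 597950), .ofNat (nat_lit 549998), .ofNat (nat_lit 571427), .ofNat (nat_lit 571427), .ofNat (nat_lit 592856)⟩⟩, [⟨nat_lit 0, nat_lit 100, nat_lit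 92, nat_lit 68, nat_lit 4254698572⟩, ⟨nat_lit 16, nat_lit 100, nat_lit 94, nat_lit 97, nat_lit 8403946553⟩]⟩
noncomputable def p060_l148 : Lf2 := ⟨nat_lit 0, nat_lit 5, [nat_lit 4, nat_lit 5, nat_lit 5, nat_lit 20], true, nat_lit 300, nat_lit 320, nat_lit 0, nat_lit 280, ⟨nat_lit 0, nat_lit 1000, nat_lit 0, nat_lit 6, nat_lit 128, nat_lit 1000, nat_lit 233, nat_lit 0, nat_lit 0, nat_lit 0, nat_lit 0, nat_lit 0, nat_lit 44501532, nat_lit 6315135, nat_lit 16183333, nat_lit 4473942, false, false⟩,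
 nat_lit 0, nat_lit 0, nat_lit 0, nat_lit 3275, nat_lit 100000, nat_lit 0, nat_lit 0, nat_lit 8878, nat_lit 0, nat_lit 0, nat_lit 0, nat_lit 0, nat_lit 0, nat_lit 0, nat_lit 0, nat_lit 400000, nat_lit 0, nat_lit 0, [(nat_lit 12, [(nat_lit 1, nat_lit 1000)])],
 ⟨p060_k43, nat_lit 0, nat_lit 0, nat_lit 0, nat_lit 0, nat_lit 0, [nat_lit 108569400001, nat_lit 144622800001, nat_lit 215783866667], [], [nat_lit 91919807501, nat_lit 107239619500, nat_lit 76843105001, nat_lit 91794700001, nat_lit 107120118001, nat_lit 122921354000, nat_lit 91681684001, nat_lit 105351810001], nat_lit 0, nat_lit 0, nat_lit 0, nat_lit 0, nat_lit 0, nat_lit 0, [], [nat_lit 36, nat_lit 40, nat_lit 40, nat_lit 80]⟩, C1.Rw.none,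
 ⟨nat_lit 5000, nat_lit 5478, ⟨.ofNat (nat_lit 291125), .ofNat (nat_lit 328592), .ofNat (nat_lit 301804), .ofNat (nat_lit 339271), .ofNat (nat_lit 303570), .ofNat (nat_lit 339284), .ofNat (nat_lit 314284), .ofNat (nat_lit 349999)⟩, ⟨.ofNat (nat_lit 559189), .ofNat (nat_lit 596655), .ofNat (nat_lit 580546), .ofNat (nat_lit 618012), .ofNat (nat_lit 549998), .ofNat (nat_lit 585713), .ofNat (nat_lit 571427), .ofNat (nat_lit 607141)⟩⟩, [⟨nat_lit 16, nat_lit 100, nat_lit 88, nat_lit 94, nat_lit 8702958546⟩]⟩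
noncomputable def p060_l149 : Lf2 := ⟨nat_lit 0, nat_lit 3, [nat_lit 45, nat_lit 5, nat_lit 5, nat_lit 20], false, nat_lit 280, nat_lit 336, nat_lit 0, nat_lit 80, ⟨nat_lit 1000, nat_lit 0, nat_lit 0, nat_lit 0, nat_lit 0, nat_lit 0, nat_lit 0, nat_lit 0, nat_lit 0, nat_lit 0, nat_lit 0, nat_lit 0, nat_lit 0, nat_lit 0, nat_lit 0, nat_lit 0, false, false⟩,
 nat_lit 0, nat_lit 0, nat_lit 14608, nat_lit 1188, nat_lit 0, nat_lit 7733, nat_lit 0, nat_lit 0, nat_lit 508, nat_lit 0, nat_lit 0, nat_lit 0, nat_lit 0, nat_lit 0, nat_lit 0, nat_lit 0, nat_lit 0, nat_lit 0, [],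
 ⟨p060_k45, nat_lit 0, nat_lit 0, nat_lit 0, nat_lit 0, nat_lit 0, [nat_lit 3282000000, nat_lit 6250000000], [], [nat_lit 16188424000, nat_lit 16512661350, nat_lit 16968196000, nat_lit 17284844000, nat_lit 18000644561, nat_lit 18303759100, nat_lit 18738283200, nat_lit 19040556801], nat_lit 0, nat_lit 0, nat_lit 0, nat_lit 0, nat_lit 0, nat_lit 0, [], [nat_lit 49, nat_lit 40, nat_lit 40, nat_lit 80]⟩, ⟨p060_k46, nat_lit 0, nat_lit 0, nat_lit 0, nat_lit 0, nat_lit 133406, [nat_lit 4688000000, nat_lit 7968000000], [], [nat_lit 21735740277, nat_lit 23885825159, nat_lit 20111230796, nat_lit 21846729668, nat_lit 17515593637, nat_lit 19218871786, nat_lit 16200177264, nat_lit 17806956184], nat_lit 1271250, nat_lit 1271250, nat_lit 205650, nat_lit 490000, nat_lit 0, nat_lit 490000, [nat_lit 1100000, nat_lit 1785000], [nat_lit 39, nat_lit 40, nat_lit 40, nat_lit 80]⟩,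
 zbF0, [⟨nat_lit 0, nat_lit 100, nat_lit 93, nat_lit 66, nat_lit 852883992⟩, ⟨nat_lit 16, nat_lit 100, nat_lit 87, nat_lit 99, nat_lit 163197084⟩]⟩
noncomputable def p060_l150 : Lf2 := ⟨nat_lit 0, nat_lit 3, [nat_lit 45, nat_lit 5, nat_lit 5, nat_lit 20], false, nat_lit 280, nat_lit 336, nat_lit 80, nat_lit 120, ⟨nat_lit 1000, nat_lit 0, nat_lit 0, nat_lit 0, nat_lit 0, nat_lit 0, nat_lit 0, nat_lit 0, nat_lit 0, nat_lit 0, nat_lit 0, nat_lit 0, nat_lit 0, nat_lit 0, nat_lit 0, nat_lit 0, false, false⟩,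
 nat_lit 0, nat_lit 0, nat_lit 19556, nat_lit 0, nat_lit 0, nat_lit 10353, nat_lit 0, nat_lit 0, nat_lit 508, nat_lit 0, nat_lit 0, nat_lit 0, nat_lit 0, nat_lit 0, nat_lit 0, nat_lit 0, nat_lit 0, nat_lit 0, [],
 ⟨p060_k45, nat_lit 0, nat_lit 0, nat_lit 0, nat_lit 0, nat_lit 0, [nat_lit 3282000000, nat_lit 6250000000], [], [nat_lit 16188424000, nat_lit 16512661350, nat_lit 16968196000, nat_lit 17284844000, nat_lit 18000644561, nat_lit 18303759100, nat_lit 18738283200, nat_lit 19040556801], nat_lit 0, nat_lit 0, nat_lit 0, nat_lit 0, nat_lit 0, nat_lit 0, [], [nat_lit 49, nat_lit 40, nat_lit 40, nat_lit 80]⟩, ⟨p060_k46, nat_lit 0, nat_lit 0, nat_lit 0, nat_lit 0, nat_lit 82930, [nat_lit 4688000000, nat_lit 7968000000], [], [nat_lit 6482536740, nat_lit 8291701673, nat_lit 2947378424, nat_lit 4702639901, nat_lit 6714206135, nat_lit 8424896725, nat_lit 3395615740, nat_lit 5050894107], nat_lit 1271250, nat_lit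 1271250, nat_lit 205650, nat_lit 490000, nat_lit 490000, nat_lit 780000, [nat_lit 1100000, nat_lit 1785000], [nat_lit 39, nat_lit 40, nat_lit 40, nat_lit 80]⟩,
 zbF0, [⟨nat_lit 0, nat_lit 100, nat_lit 92, nat_lit 68, nat_lit 1048772655⟩, ⟨nat_lit 4, nat_lit 87, nat_lit 100, nat_lit 99, nat_lit 165091975⟩]⟩
noncomputable def p060_l151 : Lf2 := ⟨nat_lit 0, nat_lit 3, [nat_lit 45, nat_lit 5, nat_lit 5, nat_lit 20], false, nat_lit 280, nat_lit 336, nat_lit 120, nat_lit 160, ⟨nat_lit 1000, nat_lit 0, nat_lit 0, nat_lit 0, nat_lit 0, nat_lit 0, nat_lit 0, nat_lit 0, nat_lit 0, nat_lit 0, nat_lit 0, nat_lit 0, nat_lit 0, nat_lit 0, nat_lit 0, nat_lit 0, false, false⟩,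
 nat_lit 0, nat_lit 0, nat_lit 19351, nat_lit 0, nat_lit 0, nat_lit 10244, nat_lit 0, nat_lit 0, nat_lit 508, nat_lit 0, nat_lit 0, nat_lit 0, nat_lit 0, nat_lit 0, nat_lit 0, nat_lit 0, nat_lit 0, nat_lit 0, [],
 ⟨p060_k45, nat_lit 0, nat_lit 0, nat_lit 0, nat_lit 0, nat_lit 0, [nat_lit 3282000000, nat_lit 6250000000], [], [nat_lit 16188424000, nat_lit 16512661350, nat_lit 16968196000, nat_lit 17284844000, nat_lit 18000644561, nat_lit 18303759100, nat_lit 18738283200, nat_lit 19040556801], nat_lit 0, nat_lit 0, nat_lit 0, nat_lit 0, nat_lit 0, nat_lit 0, [], [nat_lit 49, nat_lit 40, nat_lit 40, nat_lit 80]⟩, ⟨p060_k46, nat_lit 0, nat_lit 0, nat_lit 0, nat_lit 0, nat_lit 82930, [nat_lit 4688000000, nat_lit 7968000000], [], [nat_lit 6738547121, nat_lit 8435707263, nat_lit 3464549520, nat_lit 5106776336, nat_lit 6979664440, nat_lit 8579246770, nat_lit 3919940288, nat_lit 5463096324], nat_lit 1271250, nat_lit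 1271250, nat_lit 205650, nat_lit 490000, nat_lit 780000, nat_lit 1100001, [nat_lit 1100000, nat_lit 1785000], [nat_lit 39, nat_lit 40, nat_lit 40, nat_lit 80]⟩,
 zbF0, [⟨nat_lit 0, nat_lit 100, nat_lit 92, nat_lit 68, nat_lit 1016952389⟩, ⟨nat_lit 4, nat_lit 87, nat_lit 100, nat_lit 99, nat_lit 165091975⟩]⟩
noncomputable def p060_l152 : Lf2 := ⟨nat_lit 0, nat_lit 3, [nat_lit 45, nat_lit 5, nat_lit 5, nat_lit 20], false, nat_lit 280, nat_lit 336, nat_lit 80, nat_lit 160, ⟨nat_lit 1000, nat_lit 0, nat_lit 0, nat_lit 0, nat_lit 0, nat_lit 0, nat_lit 0, nat_lit 0, nat_lit 0, nat_lit 0, nat_lit 0, nat_lit 0, nat_lit 0, nat_lit 0, nat_lit 0, nat_lit 0, false, false⟩,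
 nat_lit 0, nat_lit 0, nat_lit 17457, nat_lit 0, nat_lit 0, nat_lit 9698, nat_lit 0, nat_lit 0, nat_lit 508, nat_lit 0, nat_lit 0, nat_lit 0, nat_lit 0, nat_lit 0, nat_lit 0, nat_lit 0, nat_lit 0, nat_lit 0, [],
 ⟨p060_k45, nat_lit 0, nat_lit 0, nat_lit 0, nat_lit 0, nat_lit 0, [nat_lit 3282000000, nat_lit 6250000000], [], [nat_lit 16240938000, nat_lit 16564667000, nat_lit 16968196000, nat_lit 17284844000, nat_lit 18050339201, nat_lit 18353015600, nat_lit 18738283200, nat_lit 19040556801], nat_lit 0, nat_lit 0, nat_lit 0, nat_lit 0, nat_lit 0, nat_lit 0, [], [nat_lit 49, nat_lit 40, nat_lit 40, nat_lit 80]⟩, ⟨p060_k47, nat_lit 0, nat_lit 0, nat_lit 0, nat_lit 0, nat_lit 101366, [nat_lit 4688000000, nat_lit 7968000000], [], [nat_lit 7673922646, nat_lit 8534710373, nat_lit 4989977266, nat_lit 5825652307, nat_lit 8116552880, nat_lit 8884003456, nat_lit 5783423058, nat_lit 6524597339], nat_lit 1271250, nat_lit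 1271250, nat_lit 230001, nat_lit 490000, nat_lit 490000, nat_lit 1100001, [nat_lit 1100000, nat_lit 1785000], [nat_lit 39, nat_lit 40, nat_lit 40, nat_lit 80]⟩,
 zbF0, [⟨nat_lit 0, nat_lit 100, nat_lit 93, nat_lit 71, nat_lit 931514493⟩, ⟨nat_lit 4, nat_lit 87, nat_lit 100, nat_lit 99, nat_lit 164759366⟩]⟩
noncomputable def p060_l153 : Lf2 := ⟨nat_lit 0, nat_lit 3, [nat_lit 45, nat_lit 5, nat_lit 5, nat_lit 20], false, nat_lit 280, nat_lit 336, nat_lit 80, nat_lit 160, ⟨nat_lit 1000, nat_lit 0, nat_lit 0, nat_lit 0, nat_lit 0, nat_lit 0, nat_lit 0, nat_lit 0, nat_lit 0, nat_lit 0, nat_lit 0, nat_lit 0, nat_lit 0, nat_lit 0, nat_lit 0, nat_lit 0, false, false⟩,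
 nat_lit 0, nat_lit 0, nat_lit 15489, nat_lit 0, nat_lit 0, nat_lit 8809, nat_lit 0, nat_lit 0, nat_lit 510, nat_lit 0, nat_lit 0, nat_lit 0, nat_lit 0, nat_lit 0, nat_lit 0, nat_lit 0, nat_lit 0, nat_lit 0, [],
 ⟨p060_k45, nat_lit 0, nat_lit 0, nat_lit 0, nat_lit 0, nat_lit 0, [nat_lit 3282000000, nat_lit 6250000000], [], [nat_lit 16273663800, nat_lit 16596684701, nat_lit 16928196000, nat_lit 17244844000, nat_lit 18079133600, nat_lit 18414130161, nat_lit 18705606401, nat_lit 19040556801], nat_lit 0, nat_lit 0, nat_lit 0, nat_lit 0, nat_lit 0, nat_lit 0, [], [nat_lit 49, nat_lit 40, nat_lit 40, nat_lit 80]⟩, ⟨p060_k48, nat_lit 0, nat_lit 0, nat_lit 0, nat_lit 0, nat_lit 121817, [nat_lit 4688000000, nat_lit 7968000000], [], [nat_lit 8303279012, nat_lit 9102925209, nat_lit 6158697044, nat_lit 6937427634, nat_lit 8855710709, nat_lit 9569247912, nat_lit 7091472022, nat_lit 7688322210], nat_lit 1271250, nat_lit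 1271250, nat_lit 254650, nat_lit 490000, nat_lit 490000, nat_lit 1100001, [nat_lit 1100000, nat_lit 1785000], [nat_lit 39, nat_lit 40, nat_lit 40, nat_lit 80]⟩,
 zbF0, [⟨nat_lit 0, nat_lit 100, nat_lit 95, nat_lit 70, nat_lit 871638534⟩, ⟨nat_lit 4, nat_lit 87, nat_lit 100, nat_lit 99, nat_lit 165030271⟩]⟩
noncomputable def p060_l154 : Lf2 := ⟨nat_lit 1, nat_lit 5, [nat_lit 4, nat_lit 5, nat_lit 5, nat_lit 20], false, nat_lit 280, nat_lit 336, nat_lit 0, nat_lit 160, zbN0,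
 nat_lit 0, nat_lit 0, nat_lit 0, nat_lit 0, nat_lit 0, nat_lit 0, nat_lit 0, nat_lit 0, nat_lit 0, nat_lit 0, nat_lit 0, nat_lit 0, nat_lit 0, nat_lit 0, nat_lit 0, nat_lit 0, nat_lit 0, nat_lit 0, [],
 C1.Rw.none, C1.Rw.none,
 zbF0, []⟩
noncomputable def p060_l155 : Lf2 := ⟨nat_lit 0, nat_lit 5, [nat_lit 4, nat_lit 5, nat_lit 5, nat_lit 20], true, nat_lit 280, nat_lit 300, nat_lit 0, nat_lit 160, ⟨nat_lit 0, nat_lit 1000, nat_lit 0, nat_lit 6, nat_lit 120, nat_lit 1000, nat_lit 227, nat_lit 0, nat_lit 0, nat_lit 0, nat_lit 0, nat_lit 0, nat_lit 45610394, nat_lit 5775333, nat_lit 15614273, nat_lit 4332742, false, false⟩,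
 nat_lit 0, nat_lit 0, nat_lit 0, nat_lit 3302, nat_lit 100000, nat_lit 0, nat_lit 0, nat_lit 20000, nat_lit 0, nat_lit 0, nat_lit 0, nat_lit 0, nat_lit 0, nat_lit 0, nat_lit 0, nat_lit 400000, nat_lit 0, nat_lit 0, [(nat_lit 12, [(nat_lit 1, nat_lit 1000)])],
 ⟨p060_k40, nat_lit 0, nat_lit 0, nat_lit 0, nat_lit 0, nat_lit 0, [nat_lit 242033400000, nat_lit 322439600000, nat_lit 402628400000], [], [nat_lit 233412122500, nat_lit 241925777000, nat_lit 203585058000, nat_lit 211701590000, nat_lit 248298045250, nat_lit 256135580500, nat_lit 217782902500, nat_lit 225258700000], nat_lit 0, nat_lit 0, nat_lit 0, nat_lit 0, nat_lit 0, nat_lit 0, [], [nat_lit 59, nat_lit 40, nat_lit 40, nat_lit 80]⟩, C1.Rw.none,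
 ⟨nat_lit 5000, nat_lit 5245, ⟨.ofNat (nat_lit 250085), .ofNat (nat_lit 323256), .ofNat (nat_lit 271470), .ofNat (nat_lit 344641), .ofNat (nat_lit 257141), .ofNat (nat_lit 328570), .ofNat (nat_lit 278570), .ofNat (nat_lit 349999)⟩, ⟨.ofNat (nat_lit 539414), .ofNat (nat_lit 575999), .ofNat (nat_lit 560799), .ofNat (nat_lit 597385), .ofNat (nat_lit 535713), .ofNat (nat_lit 571427), .ofNat (nat_lit 557141), .ofNat (nat_lit 592856)⟩⟩, [⟨nat_lit 0, nat_lit 100, nat_lit 91, nat_lit 70, nat_lit 4344868126⟩]⟩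
noncomputable def p060_l156 : Lf2 := ⟨nat_lit 0, nat_lit 2, [nat_lit 10, nat_lit 5, nat_lit 5, nat_lit 20], false, nat_lit 300, nat_lit 328, nat_lit 0, nat_lit 160, ⟨nat_lit 1000, nat_lit 0, nat_lit 0, nat_lit 0, nat_lit 0, nat_lit 0, nat_lit 0, nat_lit 0, nat_lit 0, nat_lit 0, nat_lit 0, nat_lit 0, nat_lit 0, nat_lit 0, nat_lit 0, nat_lit 0, false, false⟩,
 nat_lit 0, nat_lit 0, nat_lit 37850, nat_lit 0, nat_lit 5019, nat_lit 20038, nat_lit 6525, nat_lit 0, nat_lit 0, nat_lit 0, nat_lit 0, nat_lit 0, nat_lit 0, nat_lit 0, nat_lit 0, nat_lit 0, nat_lit 0, nat_lit 0, [],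
 ⟨p060_k49, nat_lit 0, nat_lit 0, nat_lit 0, nat_lit 0, nat_lit 0, [nat_lit 3282000000, nat_lit 4688000000, nat_lit 6250000000], [], [nat_lit 22343806037, nat_lit 22986336001, nat_lit 22215086593, nat_lit 22852805283, nat_lit 24283467443, nat_lit 25000632012, nat_lit 24044348585, nat_lit 24755055287], nat_lit 0, nat_lit 0, nat_lit 0, nat_lit 0, nat_lit 0, nat_lit 0, [], [nat_lit 59, nat_lit 40, nat_lit 40, nat_lit 80]⟩, ⟨p060_k50, nat_lit 0, nat_lit 0, nat_lit 0, nat_lit 0, nat_lit 202396, [nat_lit 4688000000, nat_lit 6250000000, nat_lit 7968000000], [], [nat_lit 25571192128, nat_lit 31913700720, nat_lit 23898929356, nat_lit 30213866398, nat_lit 18866683920, nat_lit 9294771776, nat_lit 19211774111, nat_lit 9665839230], nat_lit 1271250, nat_lit 1271250, nat_lit 230001, nat_lit 279600, nat_lit 0, nat_lit 1100001, [nat_lit 1100000, nat_lit 1442500, nat_lit 1271250], [nat_lit 9, nat_lit 40, nat_lit 40, nat_lit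 80]⟩,
 zbF0, [⟨nat_lit 0, nat_lit 100, nat_lit 91, nat_lit 70, nat_lit 4626797437⟩, ⟨nat_lit 4, nat_lit 92, nat_lit 99, nat_lit 100, nat_lit 593193924⟩]⟩
noncomputable def p060_l157 : Lf2 := ⟨nat_lit 0, nat_lit 5, [nat_lit 4, nat_lit 5, nat_lit 5, nat_lit 20], true, nat_lit 300, nat_lit 328, nat_lit 0, nat_lit 160, ⟨nat_lit 0, nat_lit 1000, nat_lit 0, nat_lit 6, nat_lit 109, nat_lit 1000, nat_lit 244, nat_lit 0, nat_lit 0, nat_lit 0, nat_lit 0, nat_lit 0, nat_lit 44679982, nat_lit 4895214, nat_lit 17424804, nat_lit 4311832, false, false⟩,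
 nat_lit 0, nat_lit 0, nat_lit 0, nat_lit 100000, nat_lit 4249, nat_lit 0, nat_lit 653, nat_lit 0, nat_lit 0, nat_lit 0, nat_lit 0, nat_lit 0, nat_lit 0, nat_lit 0, nat_lit 0, nat_lit 400000, nat_lit 0, nat_lit 0, [(nat_lit 12, [(nat_lit 1, nat_lit 1000)])],
 ⟨p060_k40, nat_lit 0, nat_lit 0, nat_lit 0, nat_lit 0, nat_lit 0, [nat_lit 2033400000, nat_lit 2439600000, nat_lit 2628400000], [], [nat_lit 21379195163, nat_lit 21981553114, nat_lit 21286999075, nat_lit 21807300483, nat_lit 23326100417, nat_lit 23986298384, nat_lit 23143452763, nat_lit 23799746009], nat_lit 0, nat_lit 0, nat_lit 0, nat_lit 0, nat_lit 0, nat_lit 0, [], [nat_lit 59, nat_lit 40, nat_lit 40, nat_lit 80]⟩, C1.Rw.none,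
 ⟨nat_lit 5000, nat_lit 5245, ⟨.ofNat (nat_lit 250085), .ofNat (nat_lit 264719), .ofNat (nat_lit 271470), .ofNat (nat_lit 286104), .ofNat (nat_lit 257141), .ofNat (nat_lit 271427), .ofNat (nat_lit 278570), .ofNat (nat_lit 292856)⟩, ⟨.ofNat (nat_lit 575999), .ofNat (nat_lit 627219), .ofNat (nat_lit 597385), .ofNat (nat_lit 648604), .ofNat (nat_lit 571427), .ofNat (nat_lit 621427), .ofNat (nat_lit 592856), .ofNat (nat_lit 642856)⟩⟩, [⟨nat_lit 0, nat_lit 100, nat_lit 91, nat_lit 70, nat_lit 6476108649⟩, ⟨nat_lit 4, nat_lit 92, nat_lit 99, nat_lit 100, nat_lit 301814757⟩]⟩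
noncomputable def p060_l158 : Lf2 := ⟨nat_lit 0, nat_lit 5, [nat_lit 4, nat_lit 5, nat_lit 5, nat_lit 20], false, nat_lit 300, nat_lit 328, nat_lit 0, nat_lit 160, ⟨nat_lit 1000, nat_lit 0, nat_lit 0, nat_lit 0, nat_lit 0, nat_lit 0, nat_lit 0, nat_lit 0, nat_lit 0, nat_lit 0, nat_lit 0, nat_lit 0, nat_lit 0, nat_lit 0, nat_lit 0, nat_lit 0, false, false⟩,
 nat_lit 0, nat_lit 0, nat_lit 18184, nat_lit 8245, nat_lit 5386, nat_lit 9626, nat_lit 0, nat_lit 0, nat_lit 49, nat_lit 3778, nat_lit 0, nat_lit 0, nat_lit 0, nat_lit 0, nat_lit 0, nat_lit 0, nat_lit 0, nat_lit 0, [],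
 ⟨p060_k40, nat_lit 0, nat_lit 0, nat_lit 0, nat_lit 0, nat_lit 0, [nat_lit 3282000000, nat_lit 4688000000, nat_lit 6250000000], [], [nat_lit 22590863769, nat_lit 23283069296, nat_lit 22309935510, nat_lit 22994616974, nat_lit 24577819496, nat_lit 25212661162, nat_lit 24275273092, nat_lit 24903474623], nat_lit 0, nat_lit 0, nat_lit 0, nat_lit 0, nat_lit 0, nat_lit 0, [], [nat_lit 59, nat_lit 40, nat_lit 40, nat_lit 80]⟩, ⟨p060_k51, nat_lit 0, nat_lit 0, nat_lit 0, nat_lit 0, nat_lit 160870, [nat_lit 4688000000, nat_lit 6250000000, nat_lit 9842000000], [], [nat_lit 15667006521, nat_lit 16743985538, nat_lit 14900295772, nat_lit 15966591023, nat_lit 11242006189, nat_lit 10570246500, nat_lit 11536720004, nat_lit 10146236932], nat_lit 1271250, nat_lit 1271250, nat_lit 279600, nat_lit 356250, nat_lit 0, nat_lit 1100001, [nat_lit 1100000, nat_lit 1442500, nat_lit 1271250], [nat_lit 11, nat_lit 40, nat_lit 40, nat_lit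 80]⟩,
 zbF0, [⟨nat_lit 0, nat_lit 100, nat_lit 90, nat_lit 68, nat_lit 1041372628⟩, ⟨nat_lit 4, nat_lit 92, nat_lit 99, nat_lit 100, nat_lit 586503723⟩]⟩
noncomputable def p060_l159 : Lf2 := ⟨nat_lit 0, nat_lit 5, [nat_lit 4, nat_lit 5, nat_lit 5, nat_lit 20], false, nat_lit 300, nat_lit 328, nat_lit 0, nat_lit 160, ⟨nat_lit 1000, nat_lit 0, nat_lit 0, nat_lit 0, nat_lit 0, nat_lit 0, nat_lit 0, nat_lit 0, nat_lit 0, nat_lit 0, nat_lit 0, nat_lit 0, nat_lit 0, nat_lit 0, nat_lit 0, nat_lit 0, false, false⟩,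
 nat_lit 0, nat_lit 0, nat_lit 15723, nat_lit 4524, nat_lit 3217, nat_lit 8735, nat_lit 0, nat_lit 0, nat_lit 226, nat_lit 2998, nat_lit 0, nat_lit 0, nat_lit 0, nat_lit 0, nat_lit 0, nat_lit 0, nat_lit 0, nat_lit 0, [],
 ⟨p060_k40, nat_lit 0, nat_lit 0, nat_lit 0, nat_lit 0, nat_lit 0, [nat_lit 3282000000, nat_lit 4688000000, nat_lit 6250000000], [], [nat_lit 20379777001, nat_lit 20924412552, nat_lit 20299232783, nat_lit 20838512078, nat_lit 21938837780, nat_lit 22519383444, nat_lit 21841737263, nat_lit 22358216822], nat_lit 0, nat_lit 0, nat_lit 0, nat_lit 0, nat_lit 0, nat_lit 0, [], [nat_lit 59, nat_lit 40, nat_lit 40, nat_lit 80]⟩, ⟨p060_k35, nat_lit 0, nat_lit 0, nat_lit 0, nat_lit 0, nat_lit 197168, [nat_lit 4688000000, nat_lit 6250000000, nat_lit 7968000000], [], [nat_lit 16091006270, nat_lit 17490020523, nat_lit 15452668570, nat_lit 16597776520, nat_lit 11128313513, nat_lit 12014523924, nat_lit 10765575520,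 nat_lit 11639902710], nat_lit 1271250, nat_lit 1271250, nat_lit 279600, nat_lit 356250, nat_lit 0, nat_lit 1100001, [nat_lit 1100000, nat_lit 1442500, nat_lit 1271250], [nat_lit 9, nat_lit 40, nat_lit 40, nat_lit 80]⟩,
 zbF0, [⟨nat_lit 0, nat_lit 100, nat_lit 92, nat_lit 73, nat_lit 1167071183⟩, ⟨nat_lit 16, nat_lit 97, nat_lit 84, nat_lit 100, nat_lit 436153317⟩]⟩
noncomputable def p060_l160 : Lf2 := ⟨nat_lit 0, nat_lit 5, [nat_lit 4, nat_lit 5, nat_lit 5, nat_lit 20], false, nat_lit 300, nat_lit 328, nat_lit 0, nat_lit 160, ⟨nat_lit 166, nat_lit 834, nat_lit 0, nat_lit 6, nat_lit 127, nat_lit 834, nat_lit 244, nat_lit 0, nat_lit 0, nat_lit 0, nat_lit 0, nat_lit 0, nat_lit 43631962, nat_lit 6175756, nat_lit 17192282, nat_lit 4528001, false, false⟩,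
 nat_lit 0, nat_lit 0, nat_lit 5256, nat_lit 326, nat_lit 3766, nat_lit 2782, nat_lit 0, nat_lit 0, nat_lit 0, nat_lit 382, nat_lit 0, nat_lit 0, nat_lit 0, nat_lit 0, nat_lit 0, nat_lit 333600, nat_lit 0, nat_lit 0, [(nat_lit 12, [(nat_lit 1, nat_lit 834)])],
 ⟨p060_k40, nat_lit 0, nat_lit 0, nat_lit 0, nat_lit 0, nat_lit 0, [nat_lit 2240667600, nat_lit 2812834400, nat_lit 3229585600], [], [nat_lit 20668717582, nat_lit 21278180166, nat_lit 20446926805, nat_lit 21045987016, nat_lit 22413948078, nat_lit 22977239765, nat_lit 22162311407, nat_lit 22716409083], nat_lit 0, nat_lit 0, nat_lit 0, nat_lit 0, nat_lit 0, nat_lit 0, [], [nat_lit 59, nat_lit 40, nat_lit 40, nat_lit 80]⟩, ⟨p060_k51, nat_lit 0, nat_lit 0, nat_lit 0, nat_lit 0, nat_lit 209711, [nat_lit 778208000, nat_lit 1037500000, nat_lit 1633772000], [], [nat_lit 5503246244, nat_lit 4065180368, nat_lit 4054441848, nat_lit 3635957684, nat_lit 3909546392,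 nat_lit 2589634838, nat_lit 4157798376, nat_lit 2846903284], nat_lit 1271250, nat_lit 1271250, nat_lit 356250, nat_lit 490000, nat_lit 0, nat_lit 1100001, [nat_lit 1100000, nat_lit 1442500, nat_lit 1271250], [nat_lit 11, nat_lit 40, nat_lit 40, nat_lit 80]⟩,
 ⟨nat_lit 5000, nat_lit 5245, ⟨.ofNat (nat_lit 286670), .ofNat (nat_lit 323256), .ofNat (nat_lit 308056), .ofNat (nat_lit 344641), .ofNat (nat_lit 292856), .ofNat (nat_lit 328570), .ofNat (nat_lit 314284), .ofNat (nat_lit 349999)⟩, ⟨.ofNat (nat_lit 575999), .ofNat (nat_lit 627219), .ofNat (nat_lit 597385), .ofNat (nat_lit 648604), .ofNat (nat_lit 571427), .ofNat (nat_lit 621427), .ofNat (nat_lit 592856), .ofNat (nat_lit 642856)⟩⟩, [⟨nat_lit 16, nat_lit 97, nat_lit 84, nat_lit 100, nat_lit 314658948⟩]⟩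
noncomputable def p060_l161 : Lf2 := ⟨nat_lit 0, nat_lit 5, [nat_lit 4, nat_lit 5, nat_lit 5, nat_lit 20], false, nat_lit 280, nat_lit 336, nat_lit 160, nat_lit 240, ⟨nat_lit 1000, nat_lit 0, nat_lit 0, nat_lit 0, nat_lit 0, nat_lit 0, nat_lit 0, nat_lit 0, nat_lit 0, nat_lit 0, nat_lit 0, nat_lit 0, nat_lit 0, nat_lit 0, nat_lit 0, nat_lit 0, false, false⟩,
 nat_lit 0, nat_lit 0, nat_lit 31999, nat_lit 0, nat_lit 2404, nat_lit 16940, nat_lit 1017, nat_lit 0, nat_lit 282, nat_lit 2126, nat_lit 0, nat_lit 0, nat_lit 0, nat_lit 0, nat_lit 0, nat_lit 0, nat_lit 0, nat_lit 0, [],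
 ⟨p060_k43, nat_lit 0, nat_lit 0, nat_lit 0, nat_lit 0, nat_lit 0, [nat_lit 3282000000, nat_lit 4688000000, nat_lit 7968000000], [], [nat_lit 18362191313, nat_lit 18828571074, nat_lit 18268074776, nat_lit 18767081242, nat_lit 21192947881, nat_lit 21647041579, nat_lit 21053778090, nat_lit 21491697088], nat_lit 0, nat_lit 0, nat_lit 0, nat_lit 0, nat_lit 0, nat_lit 0, [], [nat_lit 36, nat_lit 40, nat_lit 40, nat_lit 80]⟩, ⟨p060_k51, nat_lit 0, nat_lit 0, nat_lit 0, nat_lit 0, nat_lit 136583, [nat_lit 4688000000, nat_lit 6250000000, nat_lit 9842000000], [], [nat_lit 22958655384, nat_lit 14254375184, nat_lit 4903712700, nat_lit 7500722780, nat_lit 14769922860, nat_lit 18583491041, nat_lit 13485316480, nat_lit 12616410600], nat_lit 1271250, nat_lit 1271250, nat_lit 205650, nat_lit 490000, nat_lit 1100001, nat_lit 1785000, [nat_lit 1100000, nat_lit 1442500, nat_lit 1271250], [nat_lit 11, nat_lit 40, nat_lit 40,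 nat_lit 80]⟩,
 zbF0, [⟨nat_lit 0, nat_lit 100, nat_lit 93, nat_lit 66, nat_lit 1444415982⟩, ⟨nat_lit 4, nat_lit 87, nat_lit 100, nat_lit 99, nat_lit 371945625⟩]⟩
noncomputable def p060_l162 : Lf2 := ⟨nat_lit 0, nat_lit 5, [nat_lit 4, nat_lit 5, nat_lit 5, nat_lit 20], false, nat_lit 280, nat_lit 328, nat_lit 160, nat_lit 200, ⟨nat_lit 1000, nat_lit 0, nat_lit 0, nat_lit 0, nat_lit 0, nat_lit 0, nat_lit 0, nat_lit 0, nat_lit 0, nat_lit 0, nat_lit 0, nat_lit 0, nat_lit 0, nat_lit 0, nat_lit 0, nat_lit 0, false, false⟩,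
 nat_lit 0, nat_lit 0, nat_lit 39765, nat_lit 0, nat_lit 5090, nat_lit 21051, nat_lit 3972, nat_lit 0, nat_lit 0, nat_lit 1922, nat_lit 0, nat_lit 0, nat_lit 0, nat_lit 0, nat_lit 0, nat_lit 0, nat_lit 0, nat_lit 0, [],
 ⟨p060_k40, nat_lit 0, nat_lit 0, nat_lit 0, nat_lit 0, nat_lit 0, [nat_lit 3282000000, nat_lit 4688000000, nat_lit 6250000000], [], [nat_lit 21098936260, nat_lit 21741875620, nat_lit 20788268065, nat_lit 21418907020, nat_lit 24371744143, nat_lit 25094161476, nat_lit 23756373451, nat_lit 24466613402], nat_lit 0, nat_lit 0, nat_lit 0, nat_lit 0, nat_lit 0, nat_lit 0, [], [nat_lit 59, nat_lit 40, nat_lit 40, nat_lit 80]⟩, ⟨p060_k51, nat_lit 0, nat_lit 0, nat_lit 0, nat_lit 0, nat_lit 209711, [nat_lit 4688000000, nat_lit 6250000000, nat_lit 9842000000], [], [nat_lit 18829645208, nat_lit 9935127934, nat_lit 8029261250, nat_lit 7255633073, nat_lit 9556401542, nat_lit 13265562379, nat_lit 6890930042,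 nat_lit 10138337660], nat_lit 1271250, nat_lit 1271250, nat_lit 230001, nat_lit 356250, nat_lit 1100001, nat_lit 1442500, [nat_lit 1100000, nat_lit 1442500, nat_lit 1271250], [nat_lit 11, nat_lit 40, nat_lit 40, nat_lit 80]⟩,
 zbF0, [⟨nat_lit 0, nat_lit 100, nat_lit 91, nat_lit 70, nat_lit 3768727286⟩, ⟨nat_lit 4, nat_lit 92, nat_lit 99, nat_lit 100, nat_lit 570620246⟩]⟩
noncomputable def p060_l163 : Lf2 := ⟨nat_lit 0, nat_lit 5, [nat_lit 4, nat_lit 5, nat_lit 5, nat_lit 20], false, nat_lit 280, nat_lit 328, nat_lit 200, nat_lit 240, ⟨nat_lit 1000, nat_lit 0, nat_lit 0, nat_lit 0, nat_lit 0, nat_lit 0, nat_lit 0, nat_lit 0, nat_lit 0, nat_lit 0, nat_lit 0, nat_lit 0, nat_lit 0, nat_lit 0, nat_lit 0, nat_lit 0, false, false⟩,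
 nat_lit 0, nat_lit 0, nat_lit 20572, nat_lit 0, nat_lit 5460, nat_lit 10891, nat_lit 1409, nat_lit 0, nat_lit 8, nat_lit 3066, nat_lit 0, nat_lit 0, nat_lit 0, nat_lit 0, nat_lit 0, nat_lit 0, nat_lit 0, nat_lit 0, [],
 ⟨p060_k40, nat_lit 0, nat_lit 0, nat_lit 0, nat_lit 0, nat_lit 0, [nat_lit 3282000000, nat_lit 4688000000, nat_lit 6250000000], [], [nat_lit 21816577295, nat_lit 22435971905, nat_lit 21442273825, nat_lit 22049751345, nat_lit 24831777649, nat_lit 25581568544, nat_lit 24278046586, nat_lit 24885345334], nat_lit 0, nat_lit 0, nat_lit 0, nat_lit 0, nat_lit 0, nat_lit 0, [], [nat_lit 59, nat_lit 40, nat_lit 40, nat_lit 80]⟩, ⟨p060_k51, nat_lit 0, nat_lit 0, nat_lit 0, nat_lit 0, nat_lit 209711, [nat_lit 4688000000, nat_lit 6250000000, nat_lit 9842000000], [], [nat_lit 12202540822, nat_lit 13991459389, nat_lit 11005189322, nat_lit 12758168417, nat_lit 14214585708, nat_lit 16197814334, nat_lit 12983329136,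 nat_lit 14748565665], nat_lit 1271250, nat_lit 1271250, nat_lit 230001, nat_lit 356250, nat_lit 1271250, nat_lit 1271250, [nat_lit 1100000, nat_lit 1442500, nat_lit 1271250], [nat_lit 11, nat_lit 40, nat_lit 40, nat_lit 80]⟩,
 zbF0, [⟨nat_lit 0, nat_lit 100, nat_lit 91, nat_lit 77, nat_lit 763542831⟩, ⟨nat_lit 16, nat_lit 99, nat_lit 92, nat_lit 100, nat_lit 165359546⟩, ⟨nat_lit 23, nat_lit 87, nat_lit 100, nat_lit 67, nat_lit 572384597⟩]⟩
noncomputable def p060_l164 : Lf2 := ⟨nat_lit 0, nat_lit 5, [nat_lit 4, nat_lit 5, nat_lit 5, nat_lit 20], false, nat_lit 280, nat_lit 328, nat_lit 160, nat_lit 240, ⟨nat_lit 137, nat_lit 863, nat_lit 0, nat_lit 6, nat_lit 127, nat_lit 863, nat_lit 237, nat_lit 0, nat_lit 0, nat_lit 0, nat_lit 0, nat_lit 0, nat_lit 44273123, nat_lit 6224316, nat_lit 16502561, nat_lit 4483820, false, false⟩,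
 nat_lit 0, nat_lit 0, nat_lit 4919, nat_lit 0, nat_lit 3729, nat_lit 2604, nat_lit 0, nat_lit 0, nat_lit 0, nat_lit 183, nat_lit 0, nat_lit 0, nat_lit 0, nat_lit 0, nat_lit 0, nat_lit 436400, nat_lit 0, nat_lit 0, [(nat_lit 12, [(nat_lit 1, nat_lit 711), (nat_lit 2, nat_lit 152)])],
 ⟨p060_k40, nat_lit 0, nat_lit 0, nat_lit 0, nat_lit 0, nat_lit 0, [nat_lit 2198311320, nat_lit 2730643280, nat_lit 2973714400], [], [nat_lit 19453885287, nat_lit 20093363910, nat_lit 19257806229, nat_lit 19886091036, nat_lit 22374263163, nat_lit 22935182515, nat_lit 22128596288, nat_lit 22680378109], nat_lit 0, nat_lit 0, nat_lit 0, nat_lit 0, nat_lit 0, nat_lit 0, [], [nat_lit 59, nat_lit 40, nat_lit 40, nat_lit 80]⟩, ⟨p060_k51, nat_lit 0, nat_lit 0, nat_lit 0, nat_lit 0, nat_lit 209711, [nat_lit 642256000, nat_lit 856250000, nat_lit 1348354000], [], [nat_lit 3882819588, nat_lit 2536765116, nat_lit 2526713676, nat_lit 1190710644,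 nat_lit 1773200880, nat_lit 2087320191, nat_lit 1514985812, nat_lit 1748456554], nat_lit 1271250, nat_lit 1271250, nat_lit 356250, nat_lit 490000, nat_lit 1100001, nat_lit 1785000, [nat_lit 1100000, nat_lit 1442500, nat_lit 1271250], [nat_lit 11, nat_lit 40, nat_lit 40, nat_lit 80]⟩,
 ⟨nat_lit 5000, nat_lit 5245, ⟨.ofNat (nat_lit 286670), .ofNat (nat_lit 323256), .ofNat (nat_lit 308056), .ofNat (nat_lit 344641), .ofNat (nat_lit 292856), .ofNat (nat_lit 328570), .ofNat (nat_lit 314284), .ofNat (nat_lit 349999)⟩, ⟨.ofNat (nat_lit 539414), .ofNat (nat_lit 627219), .ofNat (nat_lit 560799), .ofNat (nat_lit 648604), .ofNat (nat_lit 535713), .ofNat (nat_lit 621427), .ofNat (nat_lit 557141), .ofNat (nat_lit 642856)⟩⟩, [⟨nat_lit 0, nat_lit 100, nat_lit 91, nat_lit 77, nat_lit 8447335⟩, ⟨nat_lit 16, nat_lit 97, nat_lit 84, nat_lit 100, nat_lit 296300290⟩]⟩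
noncomputable def p060_l165 : Lf2 := ⟨nat_lit 0, nat_lit 5, [nat_lit 4, nat_lit 5, nat_lit 5, nat_lit 20], false, nat_lit 280, nat_lit 336, nat_lit 240, nat_lit 300, ⟨nat_lit 1000, nat_lit 0, nat_lit 0, nat_lit 0, nat_lit 0, nat_lit 0, nat_lit 0, nat_lit 0, nat_lit 0, nat_lit 0, nat_lit 0, nat_lit 0, nat_lit 0, nat_lit 0, nat_lit 0, nat_lit 0, false, false⟩,
 nat_lit 0, nat_lit 0, nat_lit 17807, nat_lit 4333, nat_lit 6424, nat_lit 9427, nat_lit 1734, nat_lit 0, nat_lit 0, nat_lit 2790, nat_lit 0, nat_lit 0, nat_lit 0, nat_lit 0, nat_lit 0, nat_lit 0, nat_lit 0, nat_lit 0, [],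
 ⟨p060_k43, nat_lit 0, nat_lit 0, nat_lit 0, nat_lit 0, nat_lit 0, [nat_lit 3282000000, nat_lit 4688000000, nat_lit 7968000000], [], [nat_lit 21627232277, nat_lit 23007191713, nat_lit 20101397920, nat_lit 21428042056, nat_lit 26448650756, nat_lit 28043968272, nat_lit 24339711360, nat_lit 25884527556], nat_lit 0, nat_lit 0, nat_lit 0, nat_lit 0, nat_lit 0, nat_lit 0, [], [nat_lit 36, nat_lit 40, nat_lit 40, nat_lit 80]⟩, ⟨p060_k51, nat_lit 0, nat_lit 0, nat_lit 0, nat_lit 0, nat_lit 209711, [nat_lit 4688000000, nat_lit 6250000000, nat_lit 9842000000], [], [nat_lit 16314985768, nat_lit 17784273060, nat_lit 13852321708, nat_lit 15262448812, nat_lit 21870777119, nat_lit 23842130852, nat_lit 19167933892, nat_lit 20628718221], nat_lit 1271250, nat_lit 1271250, nat_lit 205650, nat_lit 490000, nat_lit 1271250, nat_lit 1271250, [nat_lit 1100000, nat_lit 1442500, nat_lit 1271250], [nat_lit 11, nat_lit 40, nat_lit 40,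 nat_lit 80]⟩,
 zbF0, [⟨nat_lit 0, nat_lit 100, nat_lit 91, nat_lit 77, nat_lit 304519939⟩, ⟨nat_lit 11, nat_lit 100, nat_lit 97, nat_lit 75, nat_lit 943379731⟩]⟩
noncomputable def b_V_700_600_20_5 : St := ⟨true, nat_lit 0, nat_lit 1, nat_lit 1, nat_lit 120, nat_lit 280, nat_lit 300, nat_lit 240, nat_lit 260, nat_lit 36, nat_lit 80, nat_lit 80, nat_lit 120, nat_lit 280, nat_lit 336, nat_lit 0, nat_lit 300, nat_lit 0, nat_lit 20, nat_lit 420, nat_lit 460, nat_lit 0, nat_lit 800⟩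
theorem d_V_700_600_20_5 (h : EB TB.env) : Dead b_V_700_600_20_5 := chkB_sound0 h (T :=
(.spl (nat_lit 3) (nat_lit 100)
(.trX (nat_lit 16) (nat_lit 100) (nat_lit 88) (nat_lit 94) (nat_lit 320) (.spl (nat_lit 1) (nat_lit 250)
(.spl (nat_lit 0) (nat_lit 290)
(.leaf p060_l141)
(.trZ (nat_lit 0) (nat_lit 100) (nat_lit 91) (nat_lit 63) (nat_lit 40) (.trX (nat_lit 16) (nat_lit 100) (nat_lit 94) (nat_lit 97) (nat_lit 312) (.leaf p060_l142))))
(.trZ (nat_lit 0) (nat_lit 100) (nat_lit 95) (nat_lit 64) (nat_lit 40) (.spl (nat_lit 4) (nat_lit 300)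
(.leaf p060_l143)
(.trX (nat_lit 23) (nat_lit 94) (nat_lit 100) (nat_lit 87) (nat_lit 280) (.spl (nat_lit 2) (nat_lit 60)
(.trX (nat_lit 23) (nat_lit 90) (nat_lit 100) (nat_lit 74) (nat_lit 256) (.spl (nat_lit 0) (nat_lit 290)
(.spl (nat_lit 0) (nat_lit 285)
(.spl (nat_lit 6) (nat_lit 8)
(.leaf p060_l144)
(.leaf p060_l145))
(.trZ (nat_lit 0) (nat_lit 100) (nat_lit 93) (nat_lit 66) (nat_lit 44) (.trX (nat_lit 16) (nat_lit 100) (nat_lit 91) (nat_lit 96) (nat_lit 316) (.leaf p060_l146))))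
(.trZ (nat_lit 0) (nat_lit 100) (nat_lit 92) (nat_lit 68) (nat_lit 48) (.trX (nat_lit 16) (nat_lit 100) (nat_lit 94) (nat_lit 97) (nat_lit 312) (.leaf p060_l147)))))
(.leaf p060_l148)))))))
(.spl (nat_lit 5) (nat_lit 160)
(.spl (nat_lit 0) (nat_lit 290)
(.spl (nat_lit 6) (nat_lit 12)
(.spl (nat_lit 5) (nat_lit 80)
(.leaf p060_l149)
(.spl (nat_lit 1) (nat_lit 250)
(.spl (nat_lit 5) (nat_lit 120)
(.leaf p060_l150)
(.leaf p060_l151))
(.trZ (nat_lit 0) (nat_lit 100) (nat_lit 95) (nat_lit 64) (nat_lit 40) (.spl (nat_lit 1) (nat_lit 255)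
(.leaf p060_l152)
(.trZ (nat_lit 0) (nat_lit 100) (nat_lit 95) (nat_lit 66) (nat_lit 44) (.leaf p060_l153))))))
(.leaf p060_l154))
(.trZ (nat_lit 0) (nat_lit 100) (nat_lit 91) (nat_lit 63) (nat_lit 40) (.trX (nat_lit 16) (nat_lit 97) (nat_lit 84) (nat_lit 100) (nat_lit 328) (.spl (nat_lit 4) (nat_lit 300)
(.leaf p060_l155)
(.spl (nat_lit 2) (nat_lit 60)
(.spl (nat_lit 2) (nat_lit 48)
(.spl (nat_lit 6) (nat_lit 8)
(.leaf p060_l156)
(.leaf p060_l157))
(.spl (nat_lit 1) (nat_lit 250)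
(.leaf p060_l158)
(.leaf p060_l159)))
(.leaf p060_l160))))))
(.spl (nat_lit 5) (nat_lit 240)
(.spl (nat_lit 0) (nat_lit 290)
(.leaf p060_l161)
(.trZ (nat_lit 0) (nat_lit 100) (nat_lit 91) (nat_lit 63) (nat_lit 40) (.trX (nat_lit 16) (nat_lit 97) (nat_lit 84) (nat_lit 100) (nat_lit 328) (.spl (nat_lit 2) (nat_lit 60)
(.spl (nat_lit 5) (nat_lit 200)
(.leaf p060_l162)
(.leaf p060_l163))
(.leaf p060_l164)))))
(.leaf p060_l165))))) (by decide +kernel)
noncomputable def p060_l166 : Lf2 := ⟨nat_lit 0, nat_lit 5, [nat_lit 4, nat_lit 5, nat_lit 5, nat_lit 20], true, nat_lit 280, nat_lit 320, nat_lit 0, nat_lit 276, ⟨nat_lit 0, nat_lit 1000, nat_lit 0, nat_lit 6, nat_lit 120, nat_lit 1000, nat_lit 227, nat_lit 0, nat_lit 0, nat_lit 0, nat_lit 0, nat_lit 0, nat_lit 45622524, nat_lit 5741965, nat_lit 15635511, nat_lit 4328545, false, false⟩,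
 nat_lit 0, nat_lit 0, nat_lit 0, nat_lit 6625, nat_lit 6324, nat_lit 0, nat_lit 0, nat_lit 0, nat_lit 0, nat_lit 0, nat_lit 0, nat_lit 0, nat_lit 0, nat_lit 0, nat_lit 0, nat_lit 919000, nat_lit 0, nat_lit 0, [(nat_lit 15, [(nat_lit 1, nat_lit 135), (nat_lit 2, nat_lit 865)])],
 ⟨p060_k52, nat_lit 0, nat_lit 0, nat_lit 0, nat_lit 0, nat_lit 0, [nat_lit 954316000, nat_lit 1692920000, nat_lit 2017267000, nat_lit 1035272500], [], [nat_lit 19567261152, nat_lit 21055505966, nat_lit 19128777532, nat_lit 20601592324, nat_lit 22421071906, nat_lit 24040174714, nat_lit 21904283836, nat_lit 23507766384], nat_lit 0, nat_lit 0, nat_lit 0, nat_lit 0, nat_lit 0, nat_lit 0, [], [nat_lit 177, nat_lit 40, nat_lit 20, nat_lit 40]⟩, C1.Rw.none,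
 ⟨nat_lit 4472, nat_lit 5000, ⟨.ofNat (nat_lit 271418), .ofNat (nat_lit 292846), .ofNat (nat_lit 292837), .ofNat (nat_lit 314264), .ofNat (nat_lit 284805), .ofNat (nat_lit 305198), .ofNat (nat_lit 306362), .ofNat (nat_lit 326754)⟩, ⟨.ofNat (nat_lit 514284), .ofNat (nat_lit 585713), .ofNat (nat_lit 557141), .ofNat (nat_lit 628570), .ofNat (nat_lit 506556), .ofNat (nat_lit 574534), .ofNat (nat_lit 549689), .ofNat (nat_lit 617667)⟩⟩, [⟨nat_lit 0, nat_lit 100, nat_lit 86, nat_lit 77, nat_lit 679380607⟩, ⟨nat_lit 16, nat_lit 94, nat_lit 88, nat_lit 100, nat_lit 323534623⟩]⟩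
noncomputable def p060_l167 : Lf2 := ⟨nat_lit 0, nat_lit 5, [nat_lit 4, nat_lit 5, nat_lit 5, nat_lit 20], true, nat_lit 280, nat_lit 320, nat_lit 0, nat_lit 300, ⟨nat_lit 0, nat_lit 1000, nat_lit 0, nat_lit 6, nat_lit 131, nat_lit 1000, nat_lit 227, nat_lit 0, nat_lit 0, nat_lit 0, nat_lit 0, nat_lit 0, nat_lit 44947421, nat_lit 6537305, nat_lit 15515274, nat_lit 4456155, false, false⟩,
 nat_lit 0, nat_lit 0, nat_lit 0, nat_lit 2333, nat_lit 6124, nat_lit 0, nat_lit 0, nat_lit 0, nat_lit 0, nat_lit 0, nat_lit 0, nat_lit 0, nat_lit 0, nat_lit 0, nat_lit 0, nat_lit 250000, nat_lit 0, nat_lit 0, [(nat_lit 15, [(nat_lit 0, nat_lit 1000)])],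
 ⟨p060_k52, nat_lit 0, nat_lit 0, nat_lit 0, nat_lit 0, nat_lit 0, [nat_lit 1159200000, nat_lit 1631600000, nat_lit 2136200000, nat_lit 2731700000], [], [nat_lit 19012823320, nat_lit 20628374896, nat_lit 18574840120, nat_lit 20156698880, nat_lit 22055741304, nat_lit 23630187184, nat_lit 21555628000, nat_lit 23046229520], nat_lit 0, nat_lit 0, nat_lit 0, nat_lit 0, nat_lit 0, nat_lit 0, [], [nat_lit 177, nat_lit 40, nat_lit 20, nat_lit 40]⟩, C1.Rw.none,
 ⟨nat_lit 4472, nat_lit 5000, ⟨.ofNat (nat_lit 292846), .ofNat (nat_lit 328559), .ofNat (nat_lit 314264), .ofNat (nat_lit 349976), .ofNat (nat_lit 305198), .ofNat (nat_lit 339186), .ofNat (nat_lit 326754), .ofNat (nat_lit 360741)⟩, ⟨.ofNat (nat_lit 514284), .ofNat (nat_lit 585713), .ofNat (nat_lit 557141), .ofNat (nat_lit 628570), .ofNat (nat_lit 506556), .ofNat (nat_lit 574534), .ofNat (nat_lit 549689), .ofNat (nat_lit 617667)⟩⟩, [⟨nat_lit 0, nat_lit 100, nat_lit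 86, nat_lit 77, nat_lit 254313350⟩, ⟨nat_lit 16, nat_lit 94, nat_lit 88, nat_lit 100, nat_lit 351984131⟩]⟩
noncomputable def b_V_700_600_20_6 : St := ⟨true, nat_lit 0, nat_lit 1, nat_lit 1, nat_lit 120, nat_lit 300, nat_lit 320, nat_lit 240, nat_lit 260, nat_lit 36, nat_lit 80, nat_lit 80, nat_lit 120, nat_lit 280, nat_lit 336, nat_lit 0, nat_lit 300, nat_lit 0, nat_lit 20, nat_lit 420, nat_lit 460, nat_lit 0, nat_lit 0⟩
theorem d_V_700_600_20_6 (h : EB TB.env) : Dead b_V_700_600_20_6 := chkB_sound0 h (T :=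
(.trZ (nat_lit 0) (nat_lit 100) (nat_lit 88) (nat_lit 68) (nat_lit 48) (.trX (nat_lit 16) (nat_lit 94) (nat_lit 88) (nat_lit 100) (nat_lit 320) (.spl (nat_lit 2) (nat_lit 60)
(.trX (nat_lit 23) (nat_lit 99) (nat_lit 100) (nat_lit 77) (nat_lit 276) (.leaf p060_l166))
(.leaf p060_l167))))) (by decide +kernel)

end B2
end Pool.Agent.Lib.MP_6947cd_al
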