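import Pool.Agent.Lib.MP_6947cd_al.ZB.Pre

/-!
Problem MP_6947cd_al (Chollet).  Case B, second entry in [2/5, 17/20]: certificates of the tree, part P061 (generated).
-/

set_option autoImplicit false
set_option linter.all false

namespace Pool.Agent.Lib.MP_6947cd_al
namespace B2

open Ent Fr B1 PkA

noncomputable def p061_k0 : C1.Kn := ⟨[nat_lit 30, nat_lit 60, nat_lit 80, nat_lit 110], [nat_lit 0, nat_lit 0, nat_lit 151, nat_lit 942], [(nat_lit 0, nat_lit 0, nat_lit 0), (nat_lit 0, nat_lit 0, nat_lit 0), (nat_lit 1000, nat_lit 953, nat_lit 118), (nat_lit 1000, nat_lit 894, nat_lit 411)], (nat_lit 90, nat_lit 100, nat_lit 51)⟩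
noncomputable def p061_k1 : C1.Kn := ⟨[nat_lit 60, nat_lit 120], [nat_lit 0, nat_lit 913], [(nat_lit 0, nat_lit 0, nat_lit 0), (nat_lit 1000, nat_lit 905, nat_lit 238)], (nat_lit 87, nat_lit 100, nat_lit 60)⟩
noncomputable def p061_k2 : C1.Kn := ⟨[nat_lit 60, nat_lit 120], [nat_lit 0, nat_lit 1362], [(nat_lit 0, nat_lit 0, nat_lit 0), (nat_lit 1000, nat_lit 858, nat_lit 354)], (nat_lit 84, nat_lit 100, nat_lit 60)⟩
noncomputable def p061_k3 : C1.Kn := ⟨[nat_lit 60, nat_lit 100, nat_lit 120], [nat_lit 0, nat_lit 609, nat_lit 1609], [(nat_lit 0, nat_lit 0, nat_lit 0), (nat_lit 1000, nat_lit 905, nat_lit 238), (nat_lit 1000, nat_lit 882, nat_lit 668)], (nat_lit 87, nat_lit 100, nat_lit 60)⟩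
noncomputable def p061_k4 : C1.Kn := ⟨[nat_lit 60, nat_lit 80, nat_lit 120], [nat_lit 0, nat_lit 456, nat_lit 1495], [(nat_lit 0, nat_lit 0, nat_lit 0), (nat_lit 1000, nat_lit 859, nat_lit 351), (nat_lit 1000, nat_lit 848, nat_lit 406)], (nat_lit 84, nat_lit 100, nat_lit 60)⟩
noncomputable def p061_k5 : C1.Kn := ⟨[nat_lit 60, nat_lit 140], [nat_lit 0, nat_lit 0], [(nat_lit 0, nat_lit 0, nat_lit 0), (nat_lit 0, nat_lit 0, nat_lit 0)], (nat_lit 94, nat_lit 100, nat_lit 62)⟩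
noncomputable def p061_k6 : C1.Kn := ⟨[nat_lit 60, nat_lit 70, nat_lit 90, nat_lit 130], [nat_lit 0, nat_lit 0, nat_lit 280, nat_lit 1294], [(nat_lit 0, nat_lit 0, nat_lit 0), (nat_lit 0, nat_lit 0, nat_lit 0), (nat_lit 1000, nat_lit 934, nat_lit 219), (nat_lit 1000, nat_lit 917, nat_lit 396)], (nat_lit 94, nat_lit 100, nat_lit 62)⟩
noncomputable def p061_k7 : C1.Kn := ⟨[nat_lit 60, nat_lit 70, nat_lit 90, nat_lit 120], [nat_lit 0, nat_lit 75, nat_lit 359, nat_lit 1310], [(nat_lit 0, nat_lit 0, nat_lit 0), (nat_lit 1000, nat_lit 953, nat_lit 118), (nat_lit 1000, nat_lit 922, nat_lit 222), (nat_lit 1000, nat_lit 894, nat_lit 495)], (nat_lit 91, nat_lit 100, nat_lit 61)⟩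
noncomputable def p061_k8 : C1.Kn := ⟨[nat_lit 80, nat_lit 100, nat_lit 140], [nat_lit 0, nat_lit 265, nat_lit 1269], [(nat_lit 0, nat_lit 0, nat_lit 0), (nat_lit 1000, nat_lit 959, nat_lit 206), (nat_lit 1000, nat_lit 958, nat_lit 392)], (nat_lit 100, nat_lit 99, nat_lit 63)⟩
noncomputable def p061_k9 : C1.Kn := ⟨[nat_lit 30, nat_lit 60, nat_lit 80, nat_lit 120], [nat_lit 0, nat_lit 0, nat_lit 0, nat_lit 1064], [(nat_lit 0, nat_lit 0, nat_lit 0), (nat_lit 0, nat_lit 0, nat_lit 0), (nat_lit 0, nat_lit 0, nat_lit 0), (nat_lit 1000, nat_lit 917, nat_lit 415)], (nat_lit 93, nat_lit 100, nat_lit 55)⟩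
noncomputable def p061_k10 : C1.Kn := ⟨[nat_lit 80, nat_lit 100, nat_lit 140], [nat_lit 0, nat_lit 265, nat_lit 1269], [(nat_lit 0, nat_lit 0, nat_lit 0), (nat_lit 1000, nat_lit 959, nat_lit 206), (nat_lit 1000, nat_lit 958, nat_lit 392)], (nat_lit 99, nat_lit 100, nat_lit 56)⟩
noncomputable def p061_k11 : C1.Kn := ⟨[nat_lit 80, nat_lit 100, nat_lit 140], [nat_lit 0, nat_lit 399, nat_lit 1395], [(nat_lit 0, nat_lit 0, nat_lit 0), (nat_lit 1000, nat_lit 938, nat_lit 310), (nat_lit 1000, nat_lit 938, nat_lit 389)], (nat_lit 96, nat_lit 100, nat_lit 56)⟩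
noncomputable def p061_k12 : C1.Kn := ⟨[nat_lit 30, nat_lit 60, nat_lit 80, nat_lit 110], [nat_lit 0, nat_lit 0, nat_lit 0, nat_lit 799], [(nat_lit 0, nat_lit 0, nat_lit 0), (nat_lit 0, nat_lit 0, nat_lit 0), (nat_lit 0, nat_lit 0, nat_lit 0), (nat_lit 1000, nat_lit 917, nat_lit 415)], (nat_lit 92, nat_lit 100, nat_lit 44)⟩
noncomputable def p061_k13 : C1.Kn := ⟨[nat_lit 80, nat_lit 100, nat_lit 120], [nat_lit 0, nat_lit 265, nat_lit 768], [(nat_lit 0, nat_lit 0, nat_lit 0), (nat_lit 1000, nat_lit 959, nat_lit 206), (nat_lit 1000, nat_lit 958, nat_lit 392)], (nat_lit 96, nat_lit 100, nat_lit 44)⟩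
noncomputable def p061_k14 : C1.Kn := ⟨[nat_lit 30, nat_lit 60, nat_lit 80, nat_lit 100], [nat_lit 0, nat_lit 0, nat_lit 151, nat_lit 679], [(nat_lit 0, nat_lit 0, nat_lit 0), (nat_lit 0, nat_lit 0, nat_lit 0), (nat_lit 1000, nat_lit 953, nat_lit 118), (nat_lit 1000, nat_lit 894, nat_lit 411)], (nat_lit 89, nat_lit 100, nat_lit 44)⟩
noncomputable def p061_k15 : C1.Kn := ⟨[nat_lit 30, nat_lit 60, nat_lit 80, nat_lit 130], [nat_lit 0, nat_lit 0, nat_lit 0, nat_lit 1330], [(nat_lit 0, nat_lit 0, nat_lit 0), (nat_lit 0, nat_lit 0, nat_lit 0), (nat_lit 0, nat_lit 0, nat_lit 0), (nat_lit 1000, nat_lit 917, nat_lit 415)], (nat_lit 94, nat_lit 100, nat_lit 62)⟩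
noncomputable def p061_k16 : C1.Kn := ⟨[nat_lit 30, nat_lit 50, nat_lit 70, nat_lit 120], [nat_lit 0, nat_lit 0, nat_lit 0, nat_lit 1402], [(nat_lit 0, nat_lit 0, nat_lit 0), (nat_lit 0, nat_lit 0, nat_lit 0), (nat_lit 0, nat_lit 0, nat_lit 0), (nat_lit 1000, nat_lit 868, nat_lit 437)], (nat_lit 87, nat_lit 100, nat_lit 60)⟩
noncomputable def p061_k17 : C1.Kn := ⟨[nat_lit 60, nat_lit 100, nat_lit 140], [nat_lit 0, nat_lit 0, nat_lit 2047], [(nat_lit 0, nat_lit 0, nat_lit 0), (nat_lit 0, nat_lit 0, nat_lit 0), (nat_lit 1000, nat_lit 993, nat_lit 781)], (nat_lit 94, nat_lit 100, nat_lit 62)⟩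
noncomputable def p061_k18 : C1.Kn := ⟨[nat_lit 60, nat_lit 80, nat_lit 100], [nat_lit 0, nat_lit 0, nat_lit 534], [(nat_lit 0, nat_lit 0, nat_lit 0), (nat_lit 0, nat_lit 0, nat_lit 0), (nat_lit 1000, nat_lit 917, nat_lit 393)], (nat_lit 92, nat_lit 100, nat_lit 34)⟩
noncomputable def p061_k19 : C1.Kn := ⟨[nat_lit 80, nat_lit 100, nat_lit 120], [nat_lit 0, nat_lit 0, nat_lit 511], [(nat_lit 0, nat_lit 0, nat_lit 0), (nat_lit 0, nat_lit 0, nat_lit 0), (nat_lit 1000, nat_lit 997, nat_lit 383)], (nat_lit 99, nat_lit 100, nat_lit 34)⟩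
noncomputable def p061_k20 : C1.Kn := ⟨[nat_lit 60, nat_lit 70, nat_lit 90, nat_lit 100], [nat_lit 0, nat_lit 0, nat_lit 280, nat_lit 534], [(nat_lit 0, nat_lit 0, nat_lit 0), (nat_lit 0, nat_lit 0, nat_lit 0), (nat_lit 1000, nat_lit 934, nat_lit 219), (nat_lit 1000, nat_lit 917, nat_lit 393)], (nat_lit 92, nat_lit 100, nat_lit 34)⟩
noncomputable def p061_k21 : C1.Kn := ⟨[nat_lit 80, nat_lit 100, nat_lit 120], [nat_lit 0, nat_lit 132, nat_lit 640], [(nat_lit 0, nat_lit 0, nat_lit 0), (nat_lit 1000, nat_lit 979, nat_lit 103), (nat_lit 1000, nat_lit 979, nat_lit 397)], (nat_lit 97, nat_lit 100, nat_lit 34)⟩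
noncomputable def p061_k22 : C1.Kn := ⟨[nat_lit 60, nat_lit 70, nat_lit 90, nat_lit 100], [nat_lit 0, nat_lit 75, nat_lit 359, nat_lit 684], [(nat_lit 0, nat_lit 0, nat_lit 0), (nat_lit 1000, nat_lit 953, nat_lit 118), (nat_lit 1000, nat_lit 922, nat_lit 222), (nat_lit 1000, nat_lit 893, nat_lit 437)], (nat_lit 89, nat_lit 100, nat_lit 44)⟩
noncomputable def p061_k23 : C1.Kn := ⟨[nat_lit 60, nat_lit 120], [nat_lit 0, nat_lit 0], [(nat_lit 0, nat_lit 0, nat_lit 0), (nat_lit 0, nat_lit 0, nat_lit 0)], (nat_lit 92, nat_lit 100, nat_lit 44)⟩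
noncomputable def p061_k24 : C1.Kn := ⟨[nat_lit 80, nat_lit 120], [nat_lit 0, nat_lit 528], [(nat_lit 0, nat_lit 0, nat_lit 0), (nat_lit 1000, nat_lit 959, nat_lit 206)], (nat_lit 96, nat_lit 100, nat_lit 44)⟩
noncomputable def p061_k25 : C1.Kn := ⟨[nat_lit 60, nat_lit 120], [nat_lit 0, nat_lit 0], [(nat_lit 0, nat_lit 0, nat_lit 0), (nat_lit 0, nat_lit 0, nat_lit 0)], (nat_lit 92, nat_lit 100, nat_lit 51)⟩
noncomputable def p061_k26 : C1.Kn := ⟨[nat_lit 60, nat_lit 80, nat_lit 120], [nat_lit 0, nat_lit 0, nat_lit 1064], [(nat_lit 0, nat_lit 0, nat_lit 0), (nat_lit 0, nat_lit 0, nat_lit 0), (nat_lit 1000, nat_lit 917, nat_lit 415)], (nat_lit 92, nat_lit 100, nat_lit 51)⟩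
noncomputable def p061_k27 : C1.Kn := ⟨[nat_lit 80, nat_lit 100, nat_lit 140], [nat_lit 0, nat_lit 132, nat_lit 1148], [(nat_lit 0, nat_lit 0, nat_lit 0), (nat_lit 1000, nat_lit 979, nat_lit 103), (nat_lit 1000, nat_lit 979, nat_lit 397)], (nat_lit 100, nat_lit 99, nat_lit 53)⟩
noncomputable def p061_k28 : C1.Kn := ⟨[nat_lit 60, nat_lit 80, nat_lit 140], [nat_lit 0, nat_lit 0, nat_lit 1595], [(nat_lit 0, nat_lit 0, nat_lit 0), (nat_lit 0, nat_lit 0, nat_lit 0), (nat_lit 1000, nat_lit 917, nat_lit 415)], (nat_lit 94, nat_lit 100, nat_lit 62)⟩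
noncomputable def p061_k29 : C1.Kn := ⟨[nat_lit 80, nat_lit 100, nat_lit 140], [nat_lit 0, nat_lit 399, nat_lit 1395], [(nat_lit 0, nat_lit 0, nat_lit 0), (nat_lit 1000, nat_lit 938, nat_lit 310), (nat_lit 1000, nat_lit 938, nat_lit 389)], (nat_lit 98, nat_lit 100, nat_lit 63)⟩
noncomputable def p061_k30 : C1.Kn := ⟨[nat_lit 60, nat_lit 80, nat_lit 120], [nat_lit 0, nat_lit 0, nat_lit 1064], [(nat_lit 0, nat_lit 0, nat_lit 0), (nat_lit 0, nat_lit 0, nat_lit 0), (nat_lit 1000, nat_lit 917, nat_lit 415)], (nat_lit 92, nat_lit 100, nat_lit 44)⟩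
noncomputable def p061_k31 : C1.Kn := ⟨[nat_lit 60, nat_lit 80, nat_lit 100], [nat_lit 0, nat_lit 151, nat_lit 679], [(nat_lit 0, nat_lit 0, nat_lit 0), (nat_lit 1000, nat_lit 953, nat_lit 118), (nat_lit 1000, nat_lit 894, nat_lit 411)], (nat_lit 89, nat_lit 100, nat_lit 44)⟩
noncomputable def p061_k32 : C1.Kn := ⟨[nat_lit 60, nat_lit 100], [nat_lit 0, nat_lit 609], [(nat_lit 0, nat_lit 0, nat_lit 0), (nat_lit 1000, nat_lit 905, nat_lit 238)], (nat_lit 87, nat_lit 100, nat_lit 44)⟩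
noncomputable def p061_k33 : C1.Kn := ⟨[nat_lit 60, nat_lit 80, nat_lit 120], [nat_lit 0, nat_lit 304, nat_lit 1346], [(nat_lit 0, nat_lit 0, nat_lit 0), (nat_lit 1000, nat_lit 905, nat_lit 238), (nat_lit 1000, nat_lit 871, nat_lit 407)], (nat_lit 87, nat_lit 100, nat_lit 60)⟩
noncomputable def p061_k34 : C1.Kn := ⟨[nat_lit 50, nat_lit 70, nat_lit 120], [nat_lit 0, nat_lit 0, nat_lit 1402], [(nat_lit 0, nat_lit 0, nat_lit 0), (nat_lit 0, nat_lit 0, nat_lit 0), (nat_lit 1000, nat_lit 868, nat_lit 437)], (nat_lit 87, nat_lit 100, nat_lit 60)⟩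
noncomputable def p061_k35 : C1.Kn := ⟨[nat_lit 30, nat_lit 50, nat_lit 70, nat_lit 110], [nat_lit 0, nat_lit 0, nat_lit 167, nat_lit 1284], [(nat_lit 0, nat_lit 0, nat_lit 0), (nat_lit 0, nat_lit 0, nat_lit 0), (nat_lit 1000, nat_lit 935, nat_lit 130), (nat_lit 1000, nat_lit 843, nat_lit 436)], (nat_lit 84, nat_lit 100, nat_lit 60)⟩
noncomputable def p061_k36 : C1.Kn := ⟨[nat_lit 60, nat_lit 80, nat_lit 100], [nat_lit 0, nat_lit 304, nat_lit 825], [(nat_lit 0, nat_lit 0, nat_lit 0), (nat_lit 1000, nat_lit 905, nat_lit 238), (nat_lit 1000, nat_lit 871, nat_lit 407)], (nat_lit 87, nat_lit 100, nat_lit 44)⟩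
noncomputable def p061_k37 : C1.Kn := ⟨[nat_lit 80, nat_lit 120, nat_lit 160], [nat_lit 0, nat_lit 0, nat_lit 2132], [(nat_lit 0, nat_lit 0, nat_lit 0), (nat_lit 0, nat_lit 0, nat_lit 0), (nat_lit 858, nat_lit 1000, nat_lit 713)], (nat_lit 100, nat_lit 92, nat_lit 61)⟩
noncomputable def p061_k38 : C1.Kn := ⟨[nat_lit 80, nat_lit 120, nat_lit 140], [nat_lit 0, nat_lit 528, nat_lit 1572], [(nat_lit 0, nat_lit 0, nat_lit 0), (nat_lit 1000, nat_lit 959, nat_lit 206), (nat_lit 966, nat_lit 1000, nat_lit 679)], (nat_lit 100, nat_lit 99, nat_lit 63)⟩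
noncomputable def p061_k39 : C1.Kn := ⟨[nat_lit 80, nat_lit 120, nat_lit 140], [nat_lit 0, nat_lit 264, nat_lit 1360], [(nat_lit 0, nat_lit 0, nat_lit 0), (nat_lit 1000, nat_lit 979, nat_lit 103), (nat_lit 951, nat_lit 1000, nat_lit 628)], (nat_lit 100, nat_lit 95, nat_lit 62)⟩
noncomputable def p061_k40 : C1.Kn := ⟨[nat_lit 60, nat_lit 100, nat_lit 120], [nat_lit 0, nat_lit 909, nat_lit 1866], [(nat_lit 0, nat_lit 0, nat_lit 0), (nat_lit 1000, nat_lit 858, nat_lit 354), (nat_lit 1000, nat_lit 849, nat_lit 705)], (nat_lit 84, nat_lit 100, nat_lit 60)⟩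
noncomputable def p061_k41 : C1.Kn := ⟨[nat_lit 80, nat_lit 120, nat_lit 140], [nat_lit 0, nat_lit 796, nat_lit 1801], [(nat_lit 0, nat_lit 0, nat_lit 0), (nat_lit 1000, nat_lit 938, nat_lit 310), (nat_lit 982, nat_lit 1000, nat_lit 736)], (nat_lit 98, nat_lit 100, nat_lit 63)⟩
noncomputable def p061_k42 : C1.Kn := ⟨[nat_lit 60, nat_lit 100, nat_lit 120], [nat_lit 0, nat_lit 0, nat_lit 1164], [(nat_lit 0, nat_lit 0, nat_lit 0), (nat_lit 0, nat_lit 0, nat_lit 0), (nat_lit 1000, nat_lit 933, nat_lit 572)], (nat_lit 92, nat_lit 100, nat_lit 51)⟩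
noncomputable def p061_k43 : C1.Kn := ⟨[nat_lit 80, nat_lit 120, nat_lit 140], [nat_lit 0, nat_lit 0, nat_lit 1164], [(nat_lit 0, nat_lit 0, nat_lit 0), (nat_lit 0, nat_lit 0, nat_lit 0), (nat_lit 941, nat_lit 1000, nat_lit 576)], (nat_lit 100, nat_lit 96, nat_lit 52)⟩
noncomputable def p061_k44 : C1.Kn := ⟨[nat_lit 80, nat_lit 100, nat_lit 140], [nat_lit 0, nat_lit 0, nat_lit 1022], [(nat_lit 0, nat_lit 0, nat_lit 0), (nat_lit 0, nat_lit 0, nat_lit 0), (nat_lit 1000, nat_lit 1000, nat_lit 399)], (nat_lit 100, nat_lit 96, nat_lit 52)⟩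
noncomputable def p061_k45 : C1.Kn := ⟨[nat_lit 60, nat_lit 80, nat_lit 120], [nat_lit 0, nat_lit 151, nat_lit 1205], [(nat_lit 0, nat_lit 0, nat_lit 0), (nat_lit 1000, nat_lit 953, nat_lit 118), (nat_lit 1000, nat_lit 894, nat_lit 411)], (nat_lit 90, nat_lit 100, nat_lit 51)⟩
noncomputable def p061_k46 : C1.Kn := ⟨[nat_lit 80, nat_lit 100, nat_lit 140], [nat_lit 0, nat_lit 0, nat_lit 1022], [(nat_lit 0, nat_lit 0, nat_lit 0), (nat_lit 0, nat_lit 0, nat_lit 0), (nat_lit 1000, nat_lit 1000, nat_lit 399)], (nat_lit 100, nat_lit 99, nat_lit 44)⟩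
noncomputable def p061_k47 : C1.Kn := ⟨[nat_lit 80, nat_lit 120], [nat_lit 0, nat_lit 264], [(nat_lit 0, nat_lit 0, nat_lit 0), (nat_lit 1000, nat_lit 979, nat_lit 103)], (nat_lit 99, nat_lit 100, nat_lit 44)⟩
noncomputable def p061_k48 : C1.Kn := ⟨[nat_lit 60, nat_lit 80], [nat_lit 0, nat_lit 304], [(nat_lit 0, nat_lit 0, nat_lit 0), (nat_lit 1000, nat_lit 905, nat_lit 238)], (nat_lit 89, nat_lit 100, nat_lit 29)⟩
noncomputable def p061_k49 : C1.Kn := ⟨[nat_lit 80, nat_lit 120], [nat_lit 0, nat_lit 0], [(nat_lit 0, nat_lit 0, nat_lit 0), (nat_lit 0, nat_lit 0, nat_lit 0)], (nat_lit 98, nat_lit 100, nat_lit 28)⟩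
noncomputable def p061_k50 : C1.Kn := ⟨[nat_lit 60, nat_lit 80], [nat_lit 0, nat_lit 456], [(nat_lit 0, nat_lit 0, nat_lit 0), (nat_lit 1000, nat_lit 859, nat_lit 351)], (nat_lit 87, nat_lit 100, nat_lit 29)⟩
noncomputable def p061_k51 : C1.Kn := ⟨[nat_lit 80, nat_lit 100, nat_lit 120], [nat_lit 0, nat_lit 0, nat_lit 511], [(nat_lit 0, nat_lit 0, nat_lit 0), (nat_lit 0, nat_lit 0, nat_lit 0), (nat_lit 1000, nat_lit 997, nat_lit 383)], (nat_lit 98, nat_lit 100, nat_lit 28)⟩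
noncomputable def p061_k52 : C1.Kn := ⟨[nat_lit 80, nat_lit 100, nat_lit 120], [nat_lit 0, nat_lit 65, nat_lit 576], [(nat_lit 0, nat_lit 0, nat_lit 0), (nat_lit 1000, nat_lit 990, nat_lit 51), (nat_lit 1000, nat_lit 990, nat_lit 399)], (nat_lit 98, nat_lit 100, nat_lit 28)⟩
noncomputable def p061_k53 : C1.Kn := ⟨[nat_lit 80, nat_lit 100, nat_lit 120], [nat_lit 0, nat_lit 132, nat_lit 640], [(nat_lit 0, nat_lit 0, nat_lit 0), (nat_lit 1000, nat_lit 979, nat_lit 103), (nat_lit 1000, nat_lit 979, nat_lit 397)], (nat_lit 99, nat_lit 100, nat_lit 44)⟩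
noncomputable def p061_k54 : C1.Kn := ⟨[nat_lit 80, nat_lit 100, nat_lit 120], [nat_lit 0, nat_lit 198, nat_lit 704], [(nat_lit 0, nat_lit 0, nat_lit 0), (nat_lit 1000, nat_lit 969, nat_lit 154), (nat_lit 1000, nat_lit 969, nat_lit 395)], (nat_lit 98, nat_lit 100, nat_lit 44)⟩
noncomputable def p061_k55 : C1.Kn := ⟨[nat_lit 80, nat_lit 120], [nat_lit 0, nat_lit 664], [(nat_lit 0, nat_lit 0, nat_lit 0), (nat_lit 1000, nat_lit 948, nat_lit 259)], (nat_lit 95, nat_lit 100, nat_lit 44)⟩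
noncomputable def p061_k56 : C1.Kn := ⟨[nat_lit 80, nat_lit 100, nat_lit 140], [nat_lit 0, nat_lit 466, nat_lit 1467], [(nat_lit 0, nat_lit 0, nat_lit 0), (nat_lit 1000, nat_lit 927, nat_lit 359), (nat_lit 1000, nat_lit 927, nat_lit 391)], (nat_lit 96, nat_lit 100, nat_lit 62)⟩
noncomputable def p061_k57 : C1.Kn := ⟨[nat_lit 80, nat_lit 100, nat_lit 140], [nat_lit 0, nat_lit 506, nat_lit 1542], [(nat_lit 0, nat_lit 0, nat_lit 0), (nat_lit 1000, nat_lit 921, nat_lit 376), (nat_lit 1000, nat_lit 921, nat_lit 405)], (nat_lit 95, nat_lit 100, nat_lit 62)⟩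
noncomputable def p061_k58 : C1.Kn := ⟨[nat_lit 60, nat_lit 80, nat_lit 100], [nat_lit 0, nat_lit 456, nat_lit 976], [(nat_lit 0, nat_lit 0, nat_lit 0), (nat_lit 1000, nat_lit 859, nat_lit 351), (nat_lit 1000, nat_lit 848, nat_lit 406)], (nat_lit 84, nat_lit 100, nat_lit 44)⟩
noncomputable def p061_l0 : Lf2 := ⟨nat_lit 1, nat_lit 7, [nat_lit 80, nat_lit 5, nat_lit 5, nat_lit 20], false, nat_lit 280, nat_lit 320, nat_lit 0, nat_lit 300, zbN0,
 nat_lit 0, nat_lit 0, nat_lit 0, nat_lit 0, nat_lit 0, nat_lit 0, nat_lit 0, nat_lit 0, nat_lit 0, nat_lit 0, nat_lit 0, nat_lit 0, nat_lit 0, nat_lit 0, nat_lit 0, nat_lit 0, nat_lit 0, nat_lit 0, [],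
 C1.Rw.none, C1.Rw.none,
 zbF0, []⟩
noncomputable def p061_l1 : Lf2 := ⟨nat_lit 0, nat_lit 7, [nat_lit 80, nat_lit 5, nat_lit 5, nat_lit 20], true, nat_lit 280, nat_lit 320, nat_lit 0, nat_lit 300, ⟨nat_lit 0, nat_lit 1000, nat_lit 0, nat_lit 6, nat_lit 120, nat_lit 1000, nat_lit 229, nat_lit 0, nat_lit 0, nat_lit 0, nat_lit 0, nat_lit 0, nat_lit 45343044, nat_lit 5758952, nat_lit 15898004, nat_lit 4353604, false, false⟩,
 nat_lit 0, nat_lit 0, nat_lit 0, nat_lit 13983, nat_lit 4298, nat_lit 0, nat_lit 0, nat_lit 0, nat_lit 0, nat_lit 0, nat_lit 0, nat_lit 0, nat_lit 0, nat_lit 0, nat_lit 0, nat_lit 250000, nat_lit 0, nat_lit 0, [(nat_lit 12, [(nat_lit 0, nat_lit 1000)])],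
 ⟨p061_k0, nat_lit 0, nat_lit 0, nat_lit 0, nat_lit 0, nat_lit 0, [nat_lit 1182000000, nat_lit 1968800001, nat_lit 2483000000, nat_lit 3071300000], [], [nat_lit 20250435444, nat_lit 20908206232, nat_lit 19697179130, nat_lit 20331672748, nat_lit 22811592536, nat_lit 23399437264, nat_lit 22168805434, nat_lit 22736950884], nat_lit 0, nat_lit 0, nat_lit 0, nat_lit 0, nat_lit 0, nat_lit 0, [], [nat_lit 183, nat_lit 40, nat_lit 20, nat_lit 40]⟩, C1.Rw.none,
 ⟨nat_lit 5000, nat_lit 5245, ⟨.ofNat (nat_lit 250085), .ofNat (nat_lit 323256), .ofNat (nat_lit 271470), .ofNat (nat_lit 344641), .ofNat (nat_lit 257141), .ofNat (nat_lit 328570), .ofNat (nat_lit 278570), .ofNat (nat_lit 349999)⟩, ⟨.ofNat (nat_lit 518028), .ofNat (nat_lit 591199), .ofNat (nat_lit 560799), .ofNat (nat_lit 633970), .ofNat (nat_lit 514284), .ofNat (nat_lit 585713), .ofNat (nat_lit 557141), .ofNat (nat_lit 628570)⟩⟩, [⟨nat_lit 0, nat_lit 100, nat_lit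 91, nat_lit 77, nat_lit 174470750⟩, ⟨nat_lit 16, nat_lit 100, nat_lit 97, nat_lit 98, nat_lit 259544788⟩]⟩
noncomputable def p061_l2 : Lf2 := ⟨nat_lit 1, nat_lit 10, [nat_lit 0, nat_lit 5, nat_lit 5, nat_lit 20], false, nat_lit 280, nat_lit 320, nat_lit 0, nat_lit 300, zbN0,
 nat_lit 0, nat_lit 0, nat_lit 0, nat_lit 0, nat_lit 0, nat_lit 0, nat_lit 0, nat_lit 0, nat_lit 0, nat_lit 0, nat_lit 0, nat_lit 0, nat_lit 0, nat_lit 0, nat_lit 0, nat_lit 0, nat_lit 0, nat_lit 0, [],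
 C1.Rw.none, C1.Rw.none,
 zbF0, []⟩
noncomputable def p061_l3 : Lf2 := ⟨nat_lit 0, nat_lit 10, [nat_lit 0, nat_lit 5, nat_lit 5, nat_lit 20], true, nat_lit 280, nat_lit 300, nat_lit 0, nat_lit 300, ⟨nat_lit 0, nat_lit 153, nat_lit 847, nat_lit 6, nat_lit 127, nat_lit 1000, nat_lit 215, nat_lit 847, nat_lit 3033, nat_lit 223, nat_lit 150417, nat_lit 310, nat_lit 46209762, nat_lit 6301579, nat_lit 14488659, nat_lit 4325394, false, false⟩,
 nat_lit 0, nat_lit 0, nat_lit 0, nat_lit 10081, nat_lit 3524, nat_lit 0, nat_lit 0, nat_lit 0, nat_lit 0, nat_lit 0, nat_lit 0, nat_lit 0, nat_lit 0, nat_lit 0, nat_lit 60, nat_lit 377050, nat_lit 0, nat_lit 0, [(nat_lit 15, [(nat_lit 0, nat_lit 153), (nat_lit 5, nat_lit 847)])],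
 ⟨p061_k1, nat_lit 0, nat_lit 0, nat_lit 0, nat_lit 0, nat_lit 0, [nat_lit 2188689600, nat_lit 106743000], [], [nat_lit 19845096677, nat_lit 21222493969, nat_lit 19639921028, nat_lit 20744923616, nat_lit 21077140513, nat_lit 22386916749, nat_lit 20641155154, nat_lit 21874786688], nat_lit 0, nat_lit 0, nat_lit 0, nat_lit 0, nat_lit 0, nat_lit 0, [], [nat_lit 74, nat_lit 40, nat_lit 40, nat_lit 80]⟩, C1.Rw.none,
 ⟨nat_lit 4472, nat_lit 5000, ⟨.ofNat (nat_lit 271418), .ofNat (nat_lit 328559), .ofNat (nat_lit 292837), .ofNat (nat_lit 349976), .ofNat (nat_lit 284805), .ofNat (nat_lit 339186), .ofNat (nat_lit 306362), .ofNat (nat_lit 360741)⟩, ⟨.ofNat (nat_lit 514284), .ofNat (nat_lit 549998), .ofNat (nat_lit 535713), .ofNat (nat_lit 571427), .ofNat (nat_lit 506556), .ofNat (nat_lit 540545), .ofNat (nat_lit 528122), .ofNat (nat_lit 562111)⟩⟩, [⟨nat_lit 0, nat_lit 100, nat_lit 86, nat_lit 77, nat_lit 194935069⟩, ⟨nat_lit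 16, nat_lit 100, nat_lit 100, nat_lit 100, nat_lit 258735463⟩]⟩
noncomputable def p061_l4 : Lf2 := ⟨nat_lit 0, nat_lit 10, [nat_lit 0, nat_lit 5, nat_lit 5, nat_lit 20], true, nat_lit 280, nat_lit 300, nat_lit 0, nat_lit 300, ⟨nat_lit 0, nat_lit 1000, nat_lit 0, nat_lit 6, nat_lit 125, nat_lit 1000, nat_lit 225, nat_lit 0, nat_lit 0, nat_lit 0, nat_lit 0, nat_lit 0, nat_lit 45439162, nat_lit 6160617, nat_lit 15400221, nat_lit 4382351, false, false⟩,
 nat_lit 0, nat_lit 0, nat_lit 0, nat_lit 15057, nat_lit 4037, nat_lit 0, nat_lit 0, nat_lit 0, nat_lit 0, nat_lit 0, nat_lit 0, nat_lit 0, nat_lit 0, nat_lit 0, nat_lit 0, nat_lit 250000, nat_lit 0, nat_lit 0, [(nat_lit 15, [(nat_lit 0, nat_lit 1000)])],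
 ⟨p061_k1, nat_lit 0, nat_lit 0, nat_lit 0, nat_lit 0, nat_lit 0, [nat_lit 2318400000, nat_lit 3071600000], [], [nat_lit 20277603627, nat_lit 21016611806, nat_lit 19852550548, nat_lit 20504792519, nat_lit 21593791637, nat_lit 22291865121, nat_lit 21023524212, nat_lit 21641949677], nat_lit 0, nat_lit 0, nat_lit 0, nat_lit 0, nat_lit 0, nat_lit 0, [], [nat_lit 74, nat_lit 40, nat_lit 40, nat_lit 80]⟩, C1.Rw.none,
 ⟨nat_lit 4743, nat_lit 5000, ⟨.ofNat (nat_lit 271427), .ofNat (nat_lit 328569), .ofNat (nat_lit 292854), .ofNat (nat_lit 349996), .ofNat (nat_lit 278116), .ofNat (nat_lit 333875), .ofNat (nat_lit 299602), .ofNat (nat_lit 355361)⟩, ⟨.ofNat (nat_lit 535713), .ofNat (nat_lit 571427), .ofNat (nat_lit 557141), .ofNat (nat_lit 592856), .ofNat (nat_lit 531957), .ofNat (nat_lit 566807), .ofNat (nat_lit 553445), .ofNat (nat_lit 588295)⟩⟩, [⟨nat_lit 0, nat_lit 100, nat_lit 88, nat_lit 81, nat_lit 211081770⟩, ⟨nat_lit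 16, nat_lit 95, nat_lit 95, nat_lit 100, nat_lit 248377514⟩]⟩
noncomputable def p061_l5 : Lf2 := ⟨nat_lit 0, nat_lit 10, [nat_lit 0, nat_lit 5, nat_lit 5, nat_lit 20], true, nat_lit 280, nat_lit 300, nat_lit 0, nat_lit 300, ⟨nat_lit 0, nat_lit 1000, nat_lit 0, nat_lit 6, nat_lit 131, nat_lit 1000, nat_lit 223, nat_lit 0, nat_lit 0, nat_lit 0, nat_lit 0, nat_lit 0, nat_lit 45270625, nat_lit 6543767, nat_lit 15185608, nat_lit 4428913, false, false⟩,
 nat_lit 0, nat_lit 0, nat_lit 0, nat_lit 4567, nat_lit 3989, nat_lit 0, nat_lit 0, nat_lit 0, nat_lit 0, nat_lit 0, nat_lit 0, nat_lit 0, nat_lit 0, nat_lit 0, nat_lit 0, nat_lit 250000, nat_lit 0, nat_lit 0, [(nat_lit 15, [(nat_lit 0, nat_lit 1000)])],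
 ⟨p061_k2, nat_lit 0, nat_lit 0, nat_lit 0, nat_lit 0, nat_lit 0, [nat_lit 2318400000, nat_lit 3071600000], [], [nat_lit 20836072709, nat_lit 21549251392, nat_lit 20525001143, nat_lit 21173509530, nat_lit 22080354139, nat_lit 22770071010, nat_lit 21656266421, nat_lit 22279737518], nat_lit 0, nat_lit 0, nat_lit 0, nat_lit 0, nat_lit 0, nat_lit 0, [], [nat_lit 74, nat_lit 40, nat_lit 40, nat_lit 80]⟩, C1.Rw.none,
 ⟨nat_lit 4472, nat_lit 4744, ⟨.ofNat (nat_lit 292052), .ofNat (nat_lit 333872), .ofNat (nat_lit 313537), .ofNat (nat_lit 355356), .ofNat (nat_lit 298407), .ofNat (nat_lit 339193), .ofNat (nat_lit 319970), .ofNat (nat_lit 360756)⟩, ⟨.ofNat (nat_lit 531957), .ofNat (nat_lit 566807), .ofNat (nat_lit 553445), .ofNat (nat_lit 588295), .ofNat (nat_lit 528122), .ofNat (nat_lit 562111), .ofNat (nat_lit 549689), .ofNat (nat_lit 583678)⟩⟩, [⟨nat_lit 0, nat_lit 100, nat_lit 84, nat_lit 79, nat_lit 218234983⟩]⟩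
noncomputable def p061_l6 : Lf2 := ⟨nat_lit 0, nat_lit 10, [nat_lit 0, nat_lit 5, nat_lit 5, nat_lit 20], true, nat_lit 300, nat_lit 320, nat_lit 0, nat_lit 280, ⟨nat_lit 0, nat_lit 542, nat_lit 458, nat_lit 6, nat_lit 125, nat_lit 1000, nat_lit 239, nat_lit 458, nat_lit 4748, nat_lit 203, nat_lit 147267, nat_lit 309, nat_lit 44177456, nat_lit 6073139, nat_lit 16749405, nat_lit 4476991, false, false⟩,
 nat_lit 0, nat_lit 0, nat_lit 0, nat_lit 100000, nat_lit 4125, nat_lit 0, nat_lit 0, nat_lit 0, nat_lit 0, nat_lit 0, nat_lit 0, nat_lit 0, nat_lit 0, nat_lit 0, nat_lit 0, nat_lit 318700, nat_lit 0, nat_lit 0, [(nat_lit 15, [(nat_lit 0, nat_lit 542), (nat_lit 5, nat_lit 458)])],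
 ⟨p061_k3, nat_lit 0, nat_lit 0, nat_lit 0, nat_lit 0, nat_lit 0, [nat_lit 1858934401, nat_lit 1035512801, nat_lit 692555999], [], [nat_lit 21682417951, nat_lit 22387899451, nat_lit 21215060265, nat_lit 21712459734, nat_lit 23011949401, nat_lit 23675819451, nat_lit 22320330000, nat_lit 22968202750], nat_lit 0, nat_lit 0, nat_lit 0, nat_lit 0, nat_lit 0, nat_lit 0, [], [nat_lit 18, nat_lit 40, nat_lit 40, nat_lit 80]⟩, C1.Rw.none,
 ⟨nat_lit 4743, nat_lit 5000, ⟨.ofNat (nat_lit 271427), .ofNat (nat_lit 328569), .ofNat (nat_lit 292854), .ofNat (nat_lit 349996), .ofNat (nat_lit 278116), .ofNat (nat_lit 333875), .ofNat (nat_lit 299602), .ofNat (nat_lit 355361)⟩, ⟨.ofNat (nat_lit 571427), .ofNat (nat_lit 607141), .ofNat (nat_lit 592856), .ofNat (nat_lit 628570), .ofNat (nat_lit 566807), .ofNat (nat_lit 601657), .ofNat (nat_lit 588295), .ofNat (nat_lit 623145)⟩⟩, [⟨nat_lit 0, nat_lit 100, nat_lit 88, nat_lit 81, nat_lit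 219889480⟩, ⟨nat_lit 4, nat_lit 95, nat_lit 95, nat_lit 100, nat_lit 2231526505⟩]⟩
noncomputable def p061_l7 : Lf2 := ⟨nat_lit 0, nat_lit 10, [nat_lit 0, nat_lit 5, nat_lit 5, nat_lit 20], true, nat_lit 300, nat_lit 312, nat_lit 0, nat_lit 280, ⟨nat_lit 0, nat_lit 267, nat_lit 733, nat_lit 6, nat_lit 129, nat_lit 1000, nat_lit 234, nat_lit 733, nat_lit 1989, nat_lit 209, nat_lit 153600, nat_lit 311, nat_lit 44425433, nat_lit 6317708, nat_lit 16256859, nat_lit 4480270, false, false⟩,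
 nat_lit 0, nat_lit 0, nat_lit 0, nat_lit 100000, nat_lit 3493, nat_lit 0, nat_lit 0, nat_lit 0, nat_lit 0, nat_lit 0, nat_lit 0, nat_lit 0, nat_lit 0, nat_lit 0, nat_lit 43, nat_lit 400000, nat_lit 0, nat_lit 0, [(nat_lit 15, [(nat_lit 1, nat_lit 267), (nat_lit 5, nat_lit 733)])],
 ⟨p061_k2, nat_lit 0, nat_lit 0, nat_lit 0, nat_lit 0, nat_lit 0, [nat_lit 2044105800, nat_lit 140192100], [], [nat_lit 21607633857, nat_lit 22224805116, nat_lit 21416281256, nat_lit 21849225364, nat_lit 22290589132, nat_lit 22917061842, nat_lit 21913251147, nat_lit 22528458573], nat_lit 0, nat_lit 0, nat_lit 0, nat_lit 0, nat_lit 0, nat_lit 0, [], [nat_lit 74, nat_lit 40, nat_lit 40, nat_lit 80]⟩, C1.Rw.none,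
 ⟨nat_lit 4472, nat_lit 4744, ⟨.ofNat (nat_lit 292052), .ofNat (nat_lit 333872), .ofNat (nat_lit 302794), .ofNat (nat_lit 344614), .ofNat (nat_lit 298407), .ofNat (nat_lit 339193), .ofNat (nat_lit 309188), .ofNat (nat_lit 349974)⟩, ⟨.ofNat (nat_lit 566807), .ofNat (nat_lit 587717), .ofNat (nat_lit 588295), .ofNat (nat_lit 609205), .ofNat (nat_lit 562111), .ofNat (nat_lit 582505), .ofNat (nat_lit 583678), .ofNat (nat_lit 604071)⟩⟩, [⟨nat_lit 0, nat_lit 100, nat_lit 83, nat_lit 81, nat_lit 198649476⟩, ⟨nat_lit 4, nat_lit 99, nat_lit 92, nat_lit 100, nat_lit 4632122328⟩]⟩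
noncomputable def p061_l8 : Lf2 := ⟨nat_lit 0, nat_lit 10, [nat_lit 0, nat_lit 5, nat_lit 5, nat_lit 20], true, nat_lit 300, nat_lit 312, nat_lit 0, nat_lit 280, ⟨nat_lit 0, nat_lit 1000, nat_lit 0, nat_lit 6, nat_lit 136, nat_lit 1000, nat_lit 234, nat_lit 0, nat_lit 0, nat_lit 0, nat_lit 0, nat_lit 0, nat_lit 44003595, nat_lit 6826100, nat_lit 16170305, nat_lit 4557464, false, false⟩,
 nat_lit 0, nat_lit 0, nat_lit 0, nat_lit 10169, nat_lit 3930, nat_lit 0, nat_lit 0, nat_lit 0, nat_lit 0, nat_lit 0, nat_lit 0, nat_lit 0, nat_lit 0, nat_lit 0, nat_lit 0, nat_lit 250000, nat_lit 0, nat_lit 0, [(nat_lit 15, [(nat_lit 0, nat_lit 1000)])],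
 ⟨p061_k4, nat_lit 0, nat_lit 0, nat_lit 0, nat_lit 0, nat_lit 0, [nat_lit 2318400000, nat_lit 2378000001, nat_lit 3078800000], [], [nat_lit 21888904247, nat_lit 22546259388, nat_lit 21673864085, nat_lit 22284643490, nat_lit 22612903171, nat_lit 23269826909, nat_lit 22348277990, nat_lit 22943647729], nat_lit 0, nat_lit 0, nat_lit 0, nat_lit 0, nat_lit 0, nat_lit 0, [], [nat_lit 36, nat_lit 40, nat_lit 40, nat_lit 80]⟩, C1.Rw.none,
 ⟨nat_lit 4472, nat_lit 4744, ⟨.ofNat (nat_lit 316734), .ofNat (nat_lit 344614), .ofNat (nat_lit 327477), .ofNat (nat_lit 355356), .ofNat (nat_lit 322783), .ofNat (nat_lit 349974), .ofNat (nat_lit 333565), .ofNat (nat_lit 360756)⟩, ⟨.ofNat (nat_lit 566807), .ofNat (nat_lit 587717), .ofNat (nat_lit 588295), .ofNat (nat_lit 609205), .ofNat (nat_lit 562111), .ofNat (nat_lit 582505), .ofNat (nat_lit 583678), .ofNat (nat_lit 604071)⟩⟩, [⟨nat_lit 0, nat_lit 100, nat_lit 85, nat_lit 81, nat_lit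 218118857⟩, ⟨nat_lit 16, nat_lit 91, nat_lit 91, nat_lit 100, nat_lit 266780365⟩]⟩
noncomputable def p061_l9 : Lf2 := ⟨nat_lit 0, nat_lit 10, [nat_lit 0, nat_lit 5, nat_lit 5, nat_lit 20], true, nat_lit 320, nat_lit 336, nat_lit 0, nat_lit 260, ⟨nat_lit 0, nat_lit 1000, nat_lit 0, nat_lit 6, nat_lit 120, nat_lit 1000, nat_lit 249, nat_lit 0, nat_lit 0, nat_lit 0, nat_lit 0, nat_lit 0, nat_lit 43633778, nat_lit 5630954, nat_lit 17735268, nat_lit 4471899, false, false⟩,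
 nat_lit 0, nat_lit 0, nat_lit 0, nat_lit 100000, nat_lit 498, nat_lit 0, nat_lit 0, nat_lit 0, nat_lit 323, nat_lit 0, nat_lit 0, nat_lit 0, nat_lit 0, nat_lit 0, nat_lit 0, nat_lit 250000, nat_lit 0, nat_lit 0, [(nat_lit 12, [(nat_lit 0, nat_lit 1000)]), (nat_lit 15, [(nat_lit 0, nat_lit 1000)])],
 ⟨p061_k5, nat_lit 0, nat_lit 0, nat_lit 0, nat_lit 0, nat_lit 0, [nat_lit 2378800001, nat_lit 3513428572], [], [nat_lit 18045936353, nat_lit 19469251348, nat_lit 18659592186, nat_lit 19979122138, nat_lit 18647552655, nat_lit 20125172908, nat_lit 19244422775, nat_lit 20617823941], nat_lit 0, nat_lit 0, nat_lit 0, nat_lit 0, nat_lit 0, nat_lit 0, [], [nat_lit 82, nat_lit 40, nat_lit 40, nat_lit 80]⟩, C1.Rw.none,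
 ⟨nat_lit 4472, nat_lit 5478, ⟨.ofNat (nat_lit 235487), .ofNat (nat_lit 317898), .ofNat (nat_lit 256814), .ofNat (nat_lit 339222), .ofNat (nat_lit 264421), .ofNat (nat_lit 339182), .ofNat (nat_lit 285957), .ofNat (nat_lit 360715)⟩, ⟨.ofNat (nat_lit 596655), .ofNat (nat_lit 626629), .ofNat (nat_lit 639369), .ofNat (nat_lit 669343), .ofNat (nat_lit 574534), .ofNat (nat_lit 601725), .ofNat (nat_lit 617667), .ofNat (nat_lit 644858)⟩⟩, [⟨nat_lit 0, nat_lit 100, nat_lit 89, nat_lit 72, nat_lit 35619621⟩, ⟨nat_lit 16, nat_lit 100, nat_lit 80, nat_lit 100, nat_lit 5341763781⟩]⟩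
noncomputable def b_V_700_600_20_7 : St := ⟨true, nat_lit 0, nat_lit 1, nat_lit 1, nat_lit 120, nat_lit 280, nat_lit 320, nat_lit 240, nat_lit 260, nat_lit 36, nat_lit 80, nat_lit 80, nat_lit 120, nat_lit 280, nat_lit 336, nat_lit 0, nat_lit 300, nat_lit 20, nat_lit 40, nat_lit 380, nat_lit 460, nat_lit 0, nat_lit 0⟩
theorem d_V_700_600_20_7 (h : EB TB.env) : Dead b_V_700_600_20_7 := chkB_sound0 h (T :=
(.spl (nat_lit 4) (nat_lit 320)
(.spl (nat_lit 0) (nat_lit 300)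
(.spl (nat_lit 6) (nat_lit 28)
(.spl (nat_lit 0) (nat_lit 290)
(.leaf p061_l0)
(.trZ (nat_lit 0) (nat_lit 100) (nat_lit 91) (nat_lit 63) (nat_lit 40) (.leaf p061_l1)))
(.leaf p061_l2))
(.trZ (nat_lit 0) (nat_lit 100) (nat_lit 88) (nat_lit 68) (nat_lit 48) (.spl (nat_lit 3) (nat_lit 100)
(.trX (nat_lit 16) (nat_lit 100) (nat_lit 100) (nat_lit 100) (nat_lit 300) (.leaf p061_l3))
(.spl (nat_lit 4) (nat_lit 300)
(.spl (nat_lit 0) (nat_lit 310)
(.leaf p061_l4)
(.trZ (nat_lit 0) (nat_lit 100) (nat_lit 85) (nat_lit 72) (nat_lit 56) (.leaf p061_l5)))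
(.trX (nat_lit 23) (nat_lit 94) (nat_lit 100) (nat_lit 87) (nat_lit 280) (.spl (nat_lit 0) (nat_lit 310)
(.leaf p061_l6)
(.trZ (nat_lit 0) (nat_lit 100) (nat_lit 85) (nat_lit 72) (nat_lit 56) (.trX (nat_lit 16) (nat_lit 91) (nat_lit 91) (nat_lit 100) (nat_lit 312) (.spl (nat_lit 1) (nat_lit 250)
(.leaf p061_l7)
(.trZ (nat_lit 0) (nat_lit 100) (nat_lit 86) (nat_lit 77) (nat_lit 64) (.leaf p061_l8)))))))))))
(.trX (nat_lit 23) (nat_lit 83) (nat_lit 100) (nat_lit 83) (nat_lit 260) (.leaf p061_l9)))) (by decide +kernel)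
noncomputable def p061_l10 : Lf2 := ⟨nat_lit 0, nat_lit 10, [nat_lit 0, nat_lit 5, nat_lit 5, nat_lit 20], true, nat_lit 280, nat_lit 300, nat_lit 0, nat_lit 276, ⟨nat_lit 0, nat_lit 1000, nat_lit 0, nat_lit 6, nat_lit 122, nat_lit 1000, nat_lit 224, nat_lit 0, nat_lit 0, nat_lit 0, nat_lit 0, nat_lit 0, nat_lit 45751429, nat_lit 5903788, nat_lit 15344783, nat_lit 4332563, false, false⟩,
 nat_lit 0, nat_lit 0, nat_lit 0, nat_lit 3574, nat_lit 9984, nat_lit 0, nat_lit 0, nat_lit 539, nat_lit 0, nat_lit 0, nat_lit 0, nat_lit 0, nat_lit 0, nat_lit 0, nat_lit 0, nat_lit 333850, nat_lit 0, nat_lit 0, [(nat_lit 12, [(nat_lit 0, nat_lit 441), (nat_lit 1, nat_lit 559)])],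
 ⟨p061_k6, nat_lit 0, nat_lit 0, nat_lit 0, nat_lit 0, nat_lit 0, [nat_lit 8647194601, nat_lit 9794544001, nat_lit 12364777334, nat_lit 17042288266], [], [nat_lit 22394480208, nat_lit 23615434736, nat_lit 21597816489, nat_lit 22739625433, nat_lit 24904021991, nat_lit 26104840441, nat_lit 23881434377, nat_lit 25070567444], nat_lit 0, nat_lit 0, nat_lit 0, nat_lit 0, nat_lit 0, nat_lit 0, [], [nat_lit 148, nat_lit 40, nat_lit 20, nat_lit 40]⟩, C1.Rw.none,
 ⟨nat_lit 5244, nat_lit 5478, ⟨.ofNat (nat_lit 279324), .ofNat (nat_lit 301804), .ofNat (nat_lit 300681), .ofNat (nat_lit 323161), .ofNat (nat_lit 286104), .ofNat (nat_lit 308056), .ofNat (nat_lit 307490), .ofNat (nat_lit 329441)⟩, ⟨.ofNat (nat_lit 521722), .ofNat (nat_lit 559189), .ofNat (nat_lit 564436), .ofNat (nat_lit 601903), .ofNat (nat_lit 518028), .ofNat (nat_lit 554614), .ofNat (nat_lit 560799), .ofNat (nat_lit 597385)⟩⟩, [⟨nat_lit 0, nat_lit 100, nat_lit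 97, nat_lit 76, nat_lit 553983066⟩]⟩
noncomputable def p061_l11 : Lf2 := ⟨nat_lit 0, nat_lit 10, [nat_lit 0, nat_lit 5, nat_lit 5, nat_lit 20], true, nat_lit 280, nat_lit 300, nat_lit 0, nat_lit 276, ⟨nat_lit 0, nat_lit 1000, nat_lit 0, nat_lit 6, nat_lit 127, nat_lit 1000, nat_lit 222, nat_lit 0, nat_lit 0, nat_lit 0, nat_lit 0, nat_lit 0, nat_lit 45562704, nat_lit 6306467, nat_lit 15130829, nat_lit 4384039, false, false⟩,
 nat_lit 0, nat_lit 0, nat_lit 0, nat_lit 3721, nat_lit 3896, nat_lit 0, nat_lit 0, nat_lit 0, nat_lit 0, nat_lit 0, nat_lit 0, nat_lit 0, nat_lit 0, nat_lit 0, nat_lit 0, nat_lit 356200, nat_lit 0, nat_lit 0, [(nat_lit 12, [(nat_lit 0, nat_lit 292), (nat_lit 1, nat_lit 708)])],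
 ⟨p061_k7, nat_lit 0, nat_lit 0, nat_lit 0, nat_lit 0, nat_lit 0, [nat_lit 2129935200, nat_lit 2250928001, nat_lit 2630508000, nat_lit 2867936400], [], [nat_lit 19153311669, nat_lit 19809796343, nat_lit 19091652608, nat_lit 19746019744, nat_lit 20458403063, nat_lit 21141738170, nat_lit 20366221992, nat_lit 21047104008], nat_lit 0, nat_lit 0, nat_lit 0, nat_lit 0, nat_lit 0, nat_lit 0, [], [nat_lit 166, nat_lit 40, nat_lit 20, nat_lit 40]⟩, C1.Rw.none,
 ⟨nat_lit 5000, nat_lit 5245, ⟨.ofNat (nat_lit 300739), .ofNat (nat_lit 308056), .ofNat (nat_lit 322124), .ofNat (nat_lit 329441), .ofNat (nat_lit 307141), .ofNat (nat_lit 314284), .ofNat (nat_lit 328570), .ofNat (nat_lit 335712)⟩, ⟨.ofNat (nat_lit 518028), .ofNat (nat_lit 554614), .ofNat (nat_lit 560799), .ofNat (nat_lit 597385), .ofNat (nat_lit 514284), .ofNat (nat_lit 549998), .ofNat (nat_lit 557141), .ofNat (nat_lit 592856)⟩⟩, [⟨nat_lit 0, nat_lit 100, nat_lit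 94, nat_lit 73, nat_lit 604094429⟩]⟩
noncomputable def p061_l12 : Lf2 := ⟨nat_lit 0, nat_lit 10, [nat_lit 0, nat_lit 5, nat_lit 5, nat_lit 20], true, nat_lit 280, nat_lit 300, nat_lit 0, nat_lit 300, ⟨nat_lit 0, nat_lit 1000, nat_lit 0, nat_lit 6, nat_lit 134, nat_lit 1000, nat_lit 224, nat_lit 0, nat_lit 0, nat_lit 0, nat_lit 0, nat_lit 0, nat_lit 45022948, nat_lit 6758061, nat_lit 15218991, nat_lit 4467234, false, false⟩,
 nat_lit 0, nat_lit 0, nat_lit 0, nat_lit 3428, nat_lit 13982, nat_lit 0, nat_lit 0, nat_lit 910, nat_lit 0, nat_lit 0, nat_lit 0, nat_lit 0, nat_lit 0, nat_lit 0, nat_lit 0, nat_lit 319000, nat_lit 0, nat_lit 0, [(nat_lit 12, [(nat_lit 0, nat_lit 540), (nat_lit 1, nat_lit 460)])],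
 ⟨p061_k6, nat_lit 0, nat_lit 0, nat_lit 0, nat_lit 0, nat_lit 0, [nat_lit 13131924001, nat_lit 14986960000, nat_lit 19051093334, nat_lit 26755370666], [], [nat_lit 23878176625, nat_lit 25340089437, nat_lit 22439098513, nat_lit 23866825025, nat_lit 26802002249, nat_lit 28163404465, nat_lit 25294551537, nat_lit 26624598087], nat_lit 0, nat_lit 0, nat_lit 0, nat_lit 0, nat_lit 0, nat_lit 0, [], [nat_lit 148, nat_lit 40, nat_lit 20, nat_lit 40]⟩, C1.Rw.none,
 ⟨nat_lit 5244, nat_lit 5478, ⟨.ofNat (nat_lit 301804), .ofNat (nat_lit 339271), .ofNat (nat_lit 323161), .ofNat (nat_lit 360628), .ofNat (nat_lit 308056), .ofNat (nat_lit 344641), .ofNat (nat_lit 329441), .ofNat (nat_lit 366027)⟩, ⟨.ofNat (nat_lit 521722), .ofNat (nat_lit 559189), .ofNat (nat_lit 564436), .ofNat (nat_lit 601903), .ofNat (nat_lit 518028), .ofNat (nat_lit 554614), .ofNat (nat_lit 560799), .ofNat (nat_lit 597385)⟩⟩, [⟨nat_lit 0, nat_lit 100,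 nat_lit 97, nat_lit 76, nat_lit 295277592⟩, ⟨nat_lit 0, nat_lit 100, nat_lit 97, nat_lit 84, nat_lit 203333416⟩]⟩
noncomputable def p061_l13 : Lf2 := ⟨nat_lit 0, nat_lit 10, [nat_lit 0, nat_lit 5, nat_lit 5, nat_lit 20], true, nat_lit 280, nat_lit 300, nat_lit 0, nat_lit 300, ⟨nat_lit 0, nat_lit 1000, nat_lit 0, nat_lit 6, nat_lit 136, nat_lit 1000, nat_lit 222, nat_lit 0, nat_lit 0, nat_lit 0, nat_lit 0, nat_lit 0, nat_lit 45021594, nat_lit 6940540, nat_lit 15037866, nat_lit 4481069, false, false⟩,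
 nat_lit 0, nat_lit 0, nat_lit 0, nat_lit 2891, nat_lit 12789, nat_lit 0, nat_lit 0, nat_lit 795, nat_lit 0, nat_lit 0, nat_lit 0, nat_lit 0, nat_lit 0, nat_lit 0, nat_lit 0, nat_lit 250000, nat_lit 0, nat_lit 0, [(nat_lit 12, [(nat_lit 0, nat_lit 1000)])],
 ⟨p061_k7, nat_lit 0, nat_lit 0, nat_lit 0, nat_lit 0, nat_lit 0, [nat_lit 11904000001, nat_lit 13369600000, nat_lit 17010600000, nat_lit 22317300000], [], [nat_lit 24674428723, nat_lit 26040822797, nat_lit 23360269949, nat_lit 24695042673, nat_lit 27314553829, nat_lit 28662162122, nat_lit 25939759898, nat_lit 27184477123], nat_lit 0, nat_lit 0, nat_lit 0, nat_lit 0, nat_lit 0, nat_lit 0, [], [nat_lit 166, nat_lit 40, nat_lit 20, nat_lit 40]⟩, C1.Rw.none,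
 ⟨nat_lit 5000, nat_lit 5245, ⟨.ofNat (nat_lit 308056), .ofNat (nat_lit 344641), .ofNat (nat_lit 329441), .ofNat (nat_lit 366025), .ofNat (nat_lit 314284), .ofNat (nat_lit 349999), .ofNat (nat_lit 335712), .ofNat (nat_lit 371426)⟩, ⟨.ofNat (nat_lit 518028), .ofNat (nat_lit 554614), .ofNat (nat_lit 560799), .ofNat (nat_lit 597385), .ofNat (nat_lit 514284), .ofNat (nat_lit 549998), .ofNat (nat_lit 557141), .ofNat (nat_lit 592856)⟩⟩, [⟨nat_lit 0, nat_lit 100, nat_lit 94, nat_lit 80, nat_lit 474696818⟩]⟩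
noncomputable def p061_l14 : Lf2 := ⟨nat_lit 0, nat_lit 10, [nat_lit 0, nat_lit 5, nat_lit 5, nat_lit 20], false, nat_lit 300, nat_lit 320, nat_lit 0, nat_lit 80, ⟨nat_lit 1000, nat_lit 0, nat_lit 0, nat_lit 0, nat_lit 0, nat_lit 0, nat_lit 0, nat_lit 0, nat_lit 0, nat_lit 0, nat_lit 0, nat_lit 0, nat_lit 0, nat_lit 0, nat_lit 0, nat_lit 0, false, false⟩,
 nat_lit 0, nat_lit 0, nat_lit 16001, nat_lit 7991, nat_lit 5548, nat_lit 9314, nat_lit 0, nat_lit 0, nat_lit 0, nat_lit 2797, nat_lit 0, nat_lit 0, nat_lit 0, nat_lit 0, nat_lit 0, nat_lit 0, nat_lit 0, nat_lit 0, [],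
 ⟨p061_k6, nat_lit 0, nat_lit 0, nat_lit 0, nat_lit 0, nat_lit 0, [nat_lit 3282000000, nat_lit 3965500000, nat_lit 5449500000, nat_lit 8885500000], [], [nat_lit 21679387596, nat_lit 22985163822, nat_lit 21113695856, nat_lit 22378471192, nat_lit 23060571569, nat_lit 24605283624, nat_lit 22450680000, nat_lit 23643246528], nat_lit 0, nat_lit 0, nat_lit 0, nat_lit 0, nat_lit 0, nat_lit 0, [], [nat_lit 148, nat_lit 40, nat_lit 20, nat_lit 40]⟩, ⟨p061_k8, nat_lit 0, nat_lit 0, nat_lit 442, nat_lit 0, nat_lit 388707, [nat_lit 4688000000, nat_lit 6250000000, nat_lit 9842000000], [], [nat_lit 21276296814, nat_lit 21559386320, nat_lit 16629371583, nat_lit 18681047755, nat_lit 15068215706, nat_lit 13698408692, nat_lit 16479236410, nat_lit 12148771453], nat_lit 1271250, nat_lit 1271250, nat_lit 279600, nat_lit 490000, nat_lit 0, nat_lit 490000, [nat_lit 1100000, nat_lit 1442500, nat_lit 1271250], [nat_lit 11, nat_lit 40,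 nat_lit 40, nat_lit 80, nat_lit 1, nat_lit 345, nat_lit 125, nat_lit 10]⟩,
 zbF0, [⟨nat_lit 0, nat_lit 100, nat_lit 95, nat_lit 78, nat_lit 760473104⟩, ⟨nat_lit 0, nat_lit 100, nat_lit 96, nat_lit 69, nat_lit 483363085⟩, ⟨nat_lit 4, nat_lit 94, nat_lit 100, nat_lit 97, nat_lit 611237103⟩]⟩
noncomputable def p061_l15 : Lf2 := ⟨nat_lit 0, nat_lit 10, [nat_lit 0, nat_lit 5, nat_lit 5, nat_lit 20], false, nat_lit 300, nat_lit 320, nat_lit 80, nat_lit 160, ⟨nat_lit 1000, nat_lit 0, nat_lit 0, nat_lit 0, nat_lit 0, nat_lit 0, nat_lit 0, nat_lit 0, nat_lit 0, nat_lit 0, nat_lit 0, nat_lit 0, nat_lit 0, nat_lit 0, nat_lit 0, nat_lit 0, false, false⟩,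
 nat_lit 0, nat_lit 0, nat_lit 31279, nat_lit 0, nat_lit 5677, nat_lit 18207, nat_lit 0, nat_lit 0, nat_lit 0, nat_lit 4312, nat_lit 0, nat_lit 0, nat_lit 0, nat_lit 0, nat_lit 0, nat_lit 0, nat_lit 0, nat_lit 0, [],
 ⟨p061_k6, nat_lit 0, nat_lit 0, nat_lit 0, nat_lit 0, nat_lit 0, [nat_lit 3282000000, nat_lit 3965500000, nat_lit 5449500000, nat_lit 8885500000], [], [nat_lit 21514320795, nat_lit 23078847479, nat_lit 20921791844, nat_lit 22201806208, nat_lit 23187251878, nat_lit 24753651426, nat_lit 22275369000, nat_lit 23647054096], nat_lit 0, nat_lit 0, nat_lit 0, nat_lit 0, nat_lit 0, nat_lit 0, [], [nat_lit 148, nat_lit 40, nat_lit 20, nat_lit 40]⟩, ⟨p061_k8, nat_lit 0, nat_lit 0, nat_lit 331, nat_lit 0, nat_lit 388707, [nat_lit 4688000000, nat_lit 6250000000, nat_lit 9842000000], [], [nat_lit 20602935892, nat_lit 14378600760, nat_lit 5544494250, nat_lit 9541512308, nat_lit 7394619357, nat_lit 12399330419,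 nat_lit 7804836578, nat_lit 8081333596], nat_lit 1271250, nat_lit 1271250, nat_lit 279600, nat_lit 490000, nat_lit 490000, nat_lit 1100001, [nat_lit 1100000, nat_lit 1442500, nat_lit 1271250], [nat_lit 11, nat_lit 40, nat_lit 40, nat_lit 80, nat_lit 1, nat_lit 373, nat_lit 150, nat_lit 11]⟩,
 zbF0, [⟨nat_lit 0, nat_lit 100, nat_lit 95, nat_lit 78, nat_lit 1050408068⟩, ⟨nat_lit 0, nat_lit 100, nat_lit 96, nat_lit 69, nat_lit 1397828362⟩, ⟨nat_lit 4, nat_lit 94, nat_lit 100, nat_lit 97, nat_lit 698312859⟩]⟩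
noncomputable def p061_l16 : Lf2 := ⟨nat_lit 0, nat_lit 8, [nat_lit 50, nat_lit 5, nat_lit 5, nat_lit 20], false, nat_lit 300, nat_lit 320, nat_lit 160, nat_lit 240, ⟨nat_lit 1000, nat_lit 0, nat_lit 0, nat_lit 0, nat_lit 0, nat_lit 0, nat_lit 0, nat_lit 0, nat_lit 0, nat_lit 0, nat_lit 0, nat_lit 0, nat_lit 0, nat_lit 0, nat_lit 0, nat_lit 0, false, false⟩,
 nat_lit 0, nat_lit 0, nat_lit 17926, nat_lit 0, nat_lit 4730, nat_lit 10434, nat_lit 0, nat_lit 0, nat_lit 0, nat_lit 2366, nat_lit 0, nat_lit 0, nat_lit 0, nat_lit 0, nat_lit 0, nat_lit 0, nat_lit 0, nat_lit 0, [],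
 ⟨p061_k9, nat_lit 0, nat_lit 0, nat_lit 0, nat_lit 0, nat_lit 0, [nat_lit 1465500000, nat_lit 3282000000, nat_lit 4688000000, nat_lit 7968000000], [], [nat_lit 20849543597, nat_lit 21537668467, nat_lit 20318137040, nat_lit 20986434290, nat_lit 22306287584, nat_lit 22954165331, nat_lit 21731832400, nat_lit 22361579220], nat_lit 0, nat_lit 0, nat_lit 0, nat_lit 0, nat_lit 0, nat_lit 0, [], [nat_lit 222, nat_lit 40, nat_lit 20, nat_lit 40]⟩, ⟨p061_k10, nat_lit 0, nat_lit 0, nat_lit 197, nat_lit 0, nat_lit 261556, [nat_lit 4688000000, nat_lit 6250000000, nat_lit 9842000000], [], [nat_lit 12386222617, nat_lit 13338904503, nat_lit 10567457858, nat_lit 11489486702, nat_lit 15951883084, nat_lit 16854697747, nat_lit 14039378354, nat_lit 14788121538], nat_lit 1271250, nat_lit 1271250, nat_lit 279600, nat_lit 490000, nat_lit 1100001, nat_lit 1785000, [nat_lit 1100000, nat_lit 1442500, nat_lit 1271250], [nat_lit 11, nat_lit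 40, nat_lit 40, nat_lit 80, nat_lit 1, nat_lit 373, nat_lit 150, nat_lit 10]⟩,
 zbF0, [⟨nat_lit 0, nat_lit 100, nat_lit 96, nat_lit 74, nat_lit 923138822⟩, ⟨nat_lit 4, nat_lit 91, nat_lit 100, nat_lit 96, nat_lit 488963119⟩, ⟨nat_lit 23, nat_lit 86, nat_lit 100, nat_lit 75, nat_lit 191143065⟩]⟩
noncomputable def p061_l17 : Lf2 := ⟨nat_lit 0, nat_lit 8, [nat_lit 50, nat_lit 5, nat_lit 5, nat_lit 20], false, nat_lit 300, nat_lit 320, nat_lit 160, nat_lit 240, ⟨nat_lit 1000, nat_lit 0, nat_lit 0, nat_lit 0, nat_lit 0, nat_lit 0, nat_lit 0, nat_lit 0, nat_lit 0, nat_lit 0, nat_lit 0, nat_lit 0, nat_lit 0, nat_lit 0, nat_lit 0, nat_lit 0, false, false⟩,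
 nat_lit 0, nat_lit 0, nat_lit 13276, nat_lit 4432, nat_lit 4788, nat_lit 8085, nat_lit 0, nat_lit 0, nat_lit 0, nat_lit 2456, nat_lit 0, nat_lit 0, nat_lit 0, nat_lit 0, nat_lit 0, nat_lit 0, nat_lit 0, nat_lit 0, [],
 ⟨p061_k9, nat_lit 0, nat_lit 0, nat_lit 0, nat_lit 0, nat_lit 0, [nat_lit 1465500000, nat_lit 3282000000, nat_lit 4688000000, nat_lit 7968000000], [], [nat_lit 20643688668, nat_lit 21331671808, nat_lit 20287585424, nat_lit 20960031124, nat_lit 22100121229, nat_lit 22747871228, nat_lit 21710319040, nat_lit 22343843632], nat_lit 0, nat_lit 0, nat_lit 0, nat_lit 0, nat_lit 0, nat_lit 0, [], [nat_lit 222, nat_lit 40, nat_lit 20, nat_lit 40]⟩, ⟨p061_k11, nat_lit 0, nat_lit 0, nat_lit 209, nat_lit 0, nat_lit 299089, [nat_lit 4688000000, nat_lit 6250000000, nat_lit 9842000000], [], [nat_lit 13046198406, nat_lit 13851057368, nat_lit 12216585780, nat_lit 12865825160, nat_lit 16143455280, nat_lit 16966215836,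 nat_lit 15114027720, nat_lit 15821492640], nat_lit 1271250, nat_lit 1271250, nat_lit 330400, nat_lit 490000, nat_lit 1100001, nat_lit 1785000, [nat_lit 1100000, nat_lit 1442500, nat_lit 1271250], [nat_lit 11, nat_lit 40, nat_lit 40, nat_lit 80, nat_lit 1, nat_lit 373, nat_lit 150, nat_lit 10]⟩,
 zbF0, [⟨nat_lit 0, nat_lit 100, nat_lit 98, nat_lit 79, nat_lit 745643620⟩, ⟨nat_lit 4, nat_lit 91, nat_lit 100, nat_lit 96, nat_lit 439955858⟩, ⟨nat_lit 23, nat_lit 87, nat_lit 100, nat_lit 78, nat_lit 244006595⟩]⟩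
noncomputable def p061_l18 : Lf2 := ⟨nat_lit 1, nat_lit 10, [nat_lit 0, nat_lit 5, nat_lit 5, nat_lit 20], false, nat_lit 300, nat_lit 320, nat_lit 160, nat_lit 240, zbN0,
 nat_lit 0, nat_lit 0, nat_lit 0, nat_lit 0, nat_lit 0, nat_lit 0, nat_lit 0, nat_lit 0, nat_lit 0, nat_lit 0, nat_lit 0, nat_lit 0, nat_lit 0, nat_lit 0, nat_lit 0, nat_lit 0, nat_lit 0, nat_lit 0, [],
 C1.Rw.none, C1.Rw.none,
 zbF0, []⟩
noncomputable def p061_l19 : Lf2 := ⟨nat_lit 0, nat_lit 10, [nat_lit 0, nat_lit 5, nat_lit 5, nat_lit 20], false, nat_lit 300, nat_lit 320, nat_lit 160, nat_lit 240, ⟨nat_lit 1000, nat_lit 0, nat_lit 0, nat_lit 0, nat_lit 0, nat_lit 0, nat_lit 0, nat_lit 0, nat_lit 0, nat_lit 0, nat_lit 0, nat_lit 0, nat_lit 0, nat_lit 0, nat_lit 0, nat_lit 0, false, false⟩,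
 nat_lit 0, nat_lit 0, nat_lit 20351, nat_lit 0, nat_lit 4788, nat_lit 11846, nat_lit 0, nat_lit 0, nat_lit 0, nat_lit 2311, nat_lit 0, nat_lit 0, nat_lit 0, nat_lit 0, nat_lit 0, nat_lit 0, nat_lit 0, nat_lit 0, [],
 ⟨p061_k7, nat_lit 0, nat_lit 0, nat_lit 0, nat_lit 0, nat_lit 0, [nat_lit 3282000000, nat_lit 3965500000, nat_lit 5449500000, nat_lit 7968000000], [], [nat_lit 21331671808, nat_lit 22019654948, nat_lit 20960031124, nat_lit 21632476824, nat_lit 22747871228, nat_lit 23458882552, nat_lit 22343843632, nat_lit 22977368224], nat_lit 0, nat_lit 0, nat_lit 0, nat_lit 0, nat_lit 0, nat_lit 0, [], [nat_lit 166, nat_lit 40, nat_lit 20, nat_lit 40]⟩, ⟨p061_k8, nat_lit 0, nat_lit 0, nat_lit 297, nat_lit 0, nat_lit 388707, [nat_lit 4688000000, nat_lit 6250000000, nat_lit 9842000000], [], [nat_lit 23832695254, nat_lit 17700139514, nat_lit 16484602500, nat_lit 11564756649, nat_lit 15124884099, nat_lit 17975749474,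 nat_lit 13204497201, nat_lit 15980795304], nat_lit 1271250, nat_lit 1271250, nat_lit 330400, nat_lit 490000, nat_lit 1100001, nat_lit 1785000, [nat_lit 1100000, nat_lit 1442500, nat_lit 1271250], [nat_lit 11, nat_lit 40, nat_lit 40, nat_lit 80, nat_lit 1, nat_lit 373, nat_lit 150, nat_lit 10]⟩,
 zbF0, [⟨nat_lit 0, nat_lit 100, nat_lit 94, nat_lit 73, nat_lit 2399642426⟩, ⟨nat_lit 4, nat_lit 97, nat_lit 100, nat_lit 98, nat_lit 625186498⟩]⟩
noncomputable def p061_l20 : Lf2 := ⟨nat_lit 0, nat_lit 10, [nat_lit 0, nat_lit 5, nat_lit 5, nat_lit 20], false, nat_lit 300, nat_lit 320, nat_lit 240, nat_lit 280, ⟨nat_lit 1000, nat_lit 0, nat_lit 0, nat_lit 0, nat_lit 0, nat_lit 0, nat_lit 0, nat_lit 0, nat_lit 0, nat_lit 0, nat_lit 0, nat_lit 0, nat_lit 0, nat_lit 0, nat_lit 0, nat_lit 0, false, false⟩,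
 nat_lit 0, nat_lit 0, nat_lit 14201, nat_lit 0, nat_lit 5766, nat_lit 8266, nat_lit 0, nat_lit 0, nat_lit 0, nat_lit 2273, nat_lit 0, nat_lit 0, nat_lit 0, nat_lit 0, nat_lit 0, nat_lit 0, nat_lit 0, nat_lit 0, [],
 ⟨p061_k6, nat_lit 0, nat_lit 0, nat_lit 0, nat_lit 0, nat_lit 0, [nat_lit 3282000000, nat_lit 3965500000, nat_lit 5449500000, nat_lit 8885500000], [], [nat_lit 21476367210, nat_lit 23166190459, nat_lit 20789392952, nat_lit 22079921064, nat_lit 23275982101, nat_lit 24856013708, nat_lit 22184423608, nat_lit 23723135568], nat_lit 0, nat_lit 0, nat_lit 0, nat_lit 0, nat_lit 0, nat_lit 0, [], [nat_lit 148, nat_lit 40, nat_lit 20, nat_lit 40]⟩, ⟨p061_k8, nat_lit 0, nat_lit 0, nat_lit 303, nat_lit 0, nat_lit 388707, [nat_lit 4688000000, nat_lit 6250000000, nat_lit 9842000000], [], [nat_lit 17420316622, nat_lit 18771182689, nat_lit 16437484330, nat_lit 17449306806, nat_lit 20188300952, nat_lit 21640385879,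 nat_lit 18707980609, nat_lit 19857756496], nat_lit 1271250, nat_lit 1271250, nat_lit 279600, nat_lit 490000, nat_lit 1271250, nat_lit 1271250, [nat_lit 1100000, nat_lit 1442500, nat_lit 1271250], [nat_lit 11, nat_lit 40, nat_lit 40, nat_lit 80, nat_lit 1, nat_lit 401, nat_lit 175, nat_lit 11]⟩,
 zbF0, [⟨nat_lit 0, nat_lit 100, nat_lit 95, nat_lit 78, nat_lit 394029547⟩, ⟨nat_lit 4, nat_lit 94, nat_lit 100, nat_lit 97, nat_lit 310832929⟩, ⟨nat_lit 11, nat_lit 100, nat_lit 91, nat_lit 77, nat_lit 764116882⟩]⟩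
noncomputable def p061_l21 : Lf2 := ⟨nat_lit 0, nat_lit 5, [nat_lit 4, nat_lit 5, nat_lit 5, nat_lit 20], false, nat_lit 320, nat_lit 336, nat_lit 0, nat_lit 160, ⟨nat_lit 1000, nat_lit 0, nat_lit 0, nat_lit 0, nat_lit 0, nat_lit 0, nat_lit 0, nat_lit 0, nat_lit 0, nat_lit 0, nat_lit 0, nat_lit 0, nat_lit 0, nat_lit 0, nat_lit 0, nat_lit 0, false, false⟩,
 nat_lit 0, nat_lit 0, nat_lit 18887, nat_lit 0, nat_lit 5900, nat_lit 10993, nat_lit 0, nat_lit 0, nat_lit 9, nat_lit 2616, nat_lit 0, nat_lit 0, nat_lit 0, nat_lit 0, nat_lit 0, nat_lit 0, nat_lit 0, nat_lit 0, [],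
 ⟨p061_k12, nat_lit 0, nat_lit 0, nat_lit 0, nat_lit 0, nat_lit 0, [nat_lit 1465500000, nat_lit 3282000000, nat_lit 4688000000, nat_lit 7089500000], [], [nat_lit 23760381120, nat_lit 24443963601, nat_lit 22910655200, nat_lit 23574159700, nat_lit 25113782721, nat_lit 25762953853, nat_lit 24222208000, nat_lit 24851537100], nat_lit 0, nat_lit 0, nat_lit 0, nat_lit 0, nat_lit 0, nat_lit 0, [], [nat_lit 183, nat_lit 40, nat_lit 20, nat_lit 40]⟩, ⟨p061_k13, nat_lit 0, nat_lit 0, nat_lit 304, nat_lit 0, nat_lit 306527, [nat_lit 4688000000, nat_lit 6250000000, nat_lit 7968000000], [], [nat_lit 20031862864, nat_lit 23903068840, nat_lit 16587670638, nat_lit 20392339272, nat_lit 19843356816, nat_lit 14606383957, nat_lit 21591712222, nat_lit 16411744664], nat_lit 1271250, nat_lit 1271250, nat_lit 279600, nat_lit 490000, nat_lit 0, nat_lit 1100001, [nat_lit 1100000, nat_lit 1442500, nat_lit 1271250], [nat_lit 9, nat_lit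 40, nat_lit 40, nat_lit 80, nat_lit 2, nat_lit 272, nat_lit 60, nat_lit 9]⟩,
 zbF0, [⟨nat_lit 0, nat_lit 100, nat_lit 97, nat_lit 76, nat_lit 543886276⟩, ⟨nat_lit 16, nat_lit 100, nat_lit 80, nat_lit 100, nat_lit 674751592⟩]⟩
noncomputable def p061_l22 : Lf2 := ⟨nat_lit 0, nat_lit 5, [nat_lit 4, nat_lit 5, nat_lit 5, nat_lit 20], false, nat_lit 320, nat_lit 328, nat_lit 0, nat_lit 160, ⟨nat_lit 1000, nat_lit 0, nat_lit 0, nat_lit 0, nat_lit 0, nat_lit 0, nat_lit 0, nat_lit 0, nat_lit 0, nat_lit 0, nat_lit 0, nat_lit 0, nat_lit 0, nat_lit 0, nat_lit 0, nat_lit 0, false, false⟩,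
 nat_lit 0, nat_lit 0, nat_lit 24152, nat_lit 0, nat_lit 4761, nat_lit 14058, nat_lit 3799, nat_lit 0, nat_lit 0, nat_lit 4, nat_lit 0, nat_lit 0, nat_lit 0, nat_lit 0, nat_lit 0, nat_lit 0, nat_lit 0, nat_lit 0, [],
 ⟨p061_k14, nat_lit 0, nat_lit 0, nat_lit 0, nat_lit 0, nat_lit 0, [nat_lit 1465500000, nat_lit 3282000000, nat_lit 4688000000, nat_lit 6250000000], [], [nat_lit 22786016008, nat_lit 23430112594, nat_lit 22391661688, nat_lit 22987367213, nat_lit 23400885319, nat_lit 24091423980, nat_lit 22958182210, nat_lit 23568871644], nat_lit 0, nat_lit 0, nat_lit 0, nat_lit 0, nat_lit 0, nat_lit 0, [], [nat_lit 174, nat_lit 40, nat_lit 20, nat_lit 40]⟩, ⟨p061_k13, nat_lit 0, nat_lit 0, nat_lit 323, nat_lit 0, nat_lit 368127, [nat_lit 4688000000, nat_lit 6250000000, nat_lit 7968000000], [], [nat_lit 27485593393, nat_lit 27015820288, nat_lit 20899929020, nat_lit 24073074392, nat_lit 19644389644, nat_lit 14587545077,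 nat_lit 21253685732, nat_lit 14629471784], nat_lit 1271250, nat_lit 1271250, nat_lit 330400, nat_lit 490000, nat_lit 0, nat_lit 1100001, [nat_lit 1100000, nat_lit 1442500, nat_lit 1271250], [nat_lit 9, nat_lit 40, nat_lit 40, nat_lit 80, nat_lit 2, nat_lit 272, nat_lit 60, nat_lit 9]⟩,
 zbF0, [⟨nat_lit 0, nat_lit 100, nat_lit 94, nat_lit 73, nat_lit 1118515490⟩, ⟨nat_lit 16, nat_lit 97, nat_lit 84, nat_lit 100, nat_lit 938242985⟩]⟩
noncomputable def p061_l23 : Lf2 := ⟨nat_lit 0, nat_lit 5, [nat_lit 4, nat_lit 5, nat_lit 5, nat_lit 20], false, nat_lit 320, nat_lit 336, nat_lit 160, nat_lit 200, ⟨nat_lit 1000, nat_lit 0, nat_lit 0, nat_lit 0, nat_lit 0, nat_lit 0, nat_lit 0, nat_lit 0, nat_lit 0, nat_lit 0, nat_lit 0, nat_lit 0, nat_lit 0, nat_lit 0, nat_lit 0, nat_lit 0, false, false⟩,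
 nat_lit 0, nat_lit 0, nat_lit 18114, nat_lit 0, nat_lit 4980, nat_lit 10543, nat_lit 0, nat_lit 0, nat_lit 88, nat_lit 2479, nat_lit 0, nat_lit 0, nat_lit 0, nat_lit 0, nat_lit 0, nat_lit 0, nat_lit 0, nat_lit 0, [],
 ⟨p061_k12, nat_lit 0, nat_lit 0, nat_lit 0, nat_lit 0, nat_lit 0, [nat_lit 1465500000, nat_lit 3282000000, nat_lit 4688000000, nat_lit 7089500000], [], [nat_lit 22705017984, nat_lit 23958100736, nat_lit 22077943840, nat_lit 23295426840, nat_lit 23935176253, nat_lit 25316772088, nat_lit 23268549760, nat_lit 24426407240], nat_lit 0, nat_lit 0, nat_lit 0, nat_lit 0, nat_lit 0, nat_lit 0, [], [nat_lit 183, nat_lit 40, nat_lit 20, nat_lit 40]⟩, ⟨p061_k13, nat_lit 0, nat_lit 0, nat_lit 204, nat_lit 0, nat_lit 368127, [nat_lit 4688000000, nat_lit 6250000000, nat_lit 7968000000], [], [nat_lit 15263804026, nat_lit 12240599782, nat_lit 8051240428, nat_lit 10175036340, nat_lit 12280197042, nat_lit 15220641888,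 nat_lit 10167488927, nat_lit 12959488968], nat_lit 1271250, nat_lit 1271250, nat_lit 279600, nat_lit 490000, nat_lit 1100001, nat_lit 1442500, [nat_lit 1100000, nat_lit 1442500, nat_lit 1271250], [nat_lit 9, nat_lit 40, nat_lit 40, nat_lit 80, nat_lit 2, nat_lit 289, nat_lit 75, nat_lit 9]⟩,
 zbF0, [⟨nat_lit 0, nat_lit 100, nat_lit 95, nat_lit 78, nat_lit 1150021847⟩, ⟨nat_lit 16, nat_lit 100, nat_lit 80, nat_lit 100, nat_lit 607139918⟩]⟩
noncomputable def p061_l24 : Lf2 := ⟨nat_lit 0, nat_lit 5, [nat_lit 4, nat_lit 5, nat_lit 5, nat_lit 20], false, nat_lit 320, nat_lit 336, nat_lit 200, nat_lit 260, ⟨nat_lit 1000, nat_lit 0, nat_lit 0, nat_lit 0, nat_lit 0, nat_lit 0, nat_lit 0, nat_lit 0, nat_lit 0, nat_lit 0, nat_lit 0, nat_lit 0, nat_lit 0, nat_lit 0, nat_lit 0, nat_lit 0, false, false⟩,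
 nat_lit 0, nat_lit 0, nat_lit 14077, nat_lit 0, nat_lit 6351, nat_lit 8193, nat_lit 0, nat_lit 0, nat_lit 0, nat_lit 2310, nat_lit 0, nat_lit 0, nat_lit 0, nat_lit 0, nat_lit 0, nat_lit 0, nat_lit 0, nat_lit 0, [],
 ⟨p061_k12, nat_lit 0, nat_lit 0, nat_lit 0, nat_lit 0, nat_lit 0, [nat_lit 1465500000, nat_lit 3282000000, nat_lit 4688000000, nat_lit 7089500000], [], [nat_lit 23859208849, nat_lit 25528844438, nat_lit 22843230008, nat_lit 24223930558, nat_lit 25533086844, nat_lit 27107555288, nat_lit 24222999867, nat_lit 25757076040], nat_lit 0, nat_lit 0, nat_lit 0, nat_lit 0, nat_lit 0, nat_lit 0, [], [nat_lit 183, nat_lit 40, nat_lit 20, nat_lit 40]⟩, ⟨p061_k13, nat_lit 0, nat_lit 0, nat_lit 216, nat_lit 0, nat_lit 368127, [nat_lit 4688000000, nat_lit 6250000000, nat_lit 7968000000], [], [nat_lit 14466460381, nat_lit 15926498606, nat_lit 13434804508, nat_lit 14783447302, nat_lit 17734495113, nat_lit 19499194399,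 nat_lit 16448063245, nat_lit 17794725370], nat_lit 1271250, nat_lit 1271250, nat_lit 279600, nat_lit 490000, nat_lit 1271250, nat_lit 1271250, [nat_lit 1100000, nat_lit 1442500, nat_lit 1271250], [nat_lit 9, nat_lit 40, nat_lit 40, nat_lit 80, nat_lit 2, nat_lit 317, nat_lit 100, nat_lit 10]⟩,
 zbF0, [⟨nat_lit 0, nat_lit 100, nat_lit 95, nat_lit 78, nat_lit 329760657⟩, ⟨nat_lit 0, nat_lit 100, nat_lit 94, nat_lit 88, nat_lit 224646584⟩, ⟨nat_lit 4, nat_lit 94, nat_lit 100, nat_lit 97, nat_lit 374258247⟩, ⟨nat_lit 23, nat_lit 83, nat_lit 100, nat_lit 83, nat_lit 683370789⟩]⟩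
noncomputable def p061_l25 : Lf2 := ⟨nat_lit 0, nat_lit 10, [nat_lit 0, nat_lit 5, nat_lit 5, nat_lit 20], false, nat_lit 320, nat_lit 336, nat_lit 0, nat_lit 260, ⟨nat_lit 1000, nat_lit 0, nat_lit 0, nat_lit 0, nat_lit 0, nat_lit 0, nat_lit 0, nat_lit 0, nat_lit 0, nat_lit 0, nat_lit 0, nat_lit 0, nat_lit 0, nat_lit 0, nat_lit 0, nat_lit 0, false, false⟩,
 nat_lit 0, nat_lit 0, nat_lit 30665, nat_lit 100000, nat_lit 6351, nat_lit 17849, nat_lit 0, nat_lit 0, nat_lit 0, nat_lit 994, nat_lit 0, nat_lit 0, nat_lit 0, nat_lit 0, nat_lit 0, nat_lit 0, nat_lit 0, nat_lit 0, [],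
 ⟨p061_k15, nat_lit 0, nat_lit 0, nat_lit 0, nat_lit 0, nat_lit 0, [nat_lit 1465500000, nat_lit 3282000000, nat_lit 4688000000, nat_lit 8885500000], [], [nat_lit 23859208849, nat_lit 25528844438, nat_lit 22843230008, nat_lit 24223930558, nat_lit 25533086844, nat_lit 27107555288, nat_lit 24222999867, nat_lit 25757076040], nat_lit 0, nat_lit 0, nat_lit 0, nat_lit 0, nat_lit 0, nat_lit 0, [], [nat_lit 238, nat_lit 40, nat_lit 20, nat_lit 40]⟩, ⟨p061_k8, nat_lit 0, nat_lit 0, nat_lit 310, nat_lit 0, nat_lit 149592, [nat_lit 4688000000, nat_lit 6250000000, nat_lit 9842000000], [], [nat_lit 29954698365, nat_lit 33473222120, nat_lit 25535230728, nat_lit 28826171830, nat_lit 25317984263, nat_lit 24372882729, nat_lit 28077173729, nat_lit 19941081908], nat_lit 1271250, nat_lit 1271250, nat_lit 279600, nat_lit 490000, nat_lit 0, nat_lit 1836250, [nat_lit 1100000, nat_lit 1442500, nat_lit 1271250], [nat_lit 11, nat_lit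 40, nat_lit 40, nat_lit 80, nat_lit 1, nat_lit 401, nat_lit 175, nat_lit 12]⟩,
 zbF0, [⟨nat_lit 0, nat_lit 100, nat_lit 94, nat_lit 88, nat_lit 1917865255⟩, ⟨nat_lit 4, nat_lit 94, nat_lit 100, nat_lit 97, nat_lit 3749584430⟩]⟩
noncomputable def p061_l26 : Lf2 := ⟨nat_lit 0, nat_lit 10, [nat_lit 0, nat_lit 5, nat_lit 5, nat_lit 20], false, nat_lit 280, nat_lit 320, nat_lit 0, nat_lit 160, ⟨nat_lit 947, nat_lit 53, nat_lit 0, nat_lit 6, nat_lit 141, nat_lit 53, nat_lit 227, nat_lit 0, nat_lit 0, nat_lit 0, nat_lit 0, nat_lit 0, nat_lit 44329166, nat_lit 7271497, nat_lit 15399337, nat_lit 4564658, false, false⟩,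
 nat_lit 0, nat_lit 0, nat_lit 19574, nat_lit 0, nat_lit 5390, nat_lit 11393, nat_lit 0, nat_lit 0, nat_lit 0, nat_lit 2726, nat_lit 0, nat_lit 0, nat_lit 0, nat_lit 0, nat_lit 0, nat_lit 13250, nat_lit 0, nat_lit 0, [(nat_lit 15, [(nat_lit 0, nat_lit 53)])],
 ⟨p061_k16, nat_lit 0, nat_lit 0, nat_lit 0, nat_lit 0, nat_lit 0, [nat_lit 1449266100, nat_lit 2584187300, nat_lit 3870564634, nat_lit 7708490800], [], [nat_lit 21006721934, nat_lit 22503352442, nat_lit 20735196334, nat_lit 22207329434, nat_lit 23831336586, nat_lit 25335837993, nat_lit 23514596634, nat_lit 24884754120], nat_lit 0, nat_lit 0, nat_lit 0, nat_lit 0, nat_lit 0, nat_lit 0, [], [nat_lit 186, nat_lit 40, nat_lit 20, nat_lit 40]⟩, ⟨p061_k8, nat_lit 0, nat_lit 0, nat_lit 482, nat_lit 0, nat_lit 526588, [nat_lit 4439536000, nat_lit 5918750000, nat_lit 9320374000], [], [nat_lit 24571584534, nat_lit 22160883712, nat_lit 19860187114, nat_lit 20313929064,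 nat_lit 17553380211, nat_lit 12155390483, nat_lit 18540216474, nat_lit 13171766516], nat_lit 1271250, nat_lit 1271250, nat_lit 382400, nat_lit 490000, nat_lit 0, nat_lit 1100001, [nat_lit 1100000, nat_lit 1442500, nat_lit 1271250], [nat_lit 11, nat_lit 40, nat_lit 40, nat_lit 80, nat_lit 1, nat_lit 373, nat_lit 150, nat_lit 11]⟩,
 ⟨nat_lit 4472, nat_lit 5000, ⟨.ofNat (nat_lit 321407), .ofNat (nat_lit 349976), .ofNat (nat_lit 342823), .ofNat (nat_lit 371392), .ofNat (nat_lit 333552), .ofNat (nat_lit 360741), .ofNat (nat_lit 355106), .ofNat (nat_lit 382295)⟩, ⟨.ofNat (nat_lit 514284), .ofNat (nat_lit 585713), .ofNat (nat_lit 557141), .ofNat (nat_lit 628570), .ofNat (nat_lit 506556), .ofNat (nat_lit 574534), .ofNat (nat_lit 549689), .ofNat (nat_lit 617667)⟩⟩, [⟨nat_lit 0, nat_lit 100, nat_lit 91, nat_lit 77, nat_lit 1304252963⟩, ⟨nat_lit 16, nat_lit 93, nat_lit 100, nat_lit 97, nat_lit 655478245⟩]⟩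
noncomputable def p061_l27 : Lf2 := ⟨nat_lit 0, nat_lit 10, [nat_lit 0, nat_lit 5, nat_lit 5, nat_lit 20], false, nat_lit 280, nat_lit 320, nat_lit 160, nat_lit 240, ⟨nat_lit 1000, nat_lit 0, nat_lit 0, nat_lit 0, nat_lit 0, nat_lit 0, nat_lit 0, nat_lit 0, nat_lit 0, nat_lit 0, nat_lit 0, nat_lit 0, nat_lit 0, nat_lit 0, nat_lit 0, nat_lit 0, false, false⟩,
 nat_lit 0, nat_lit 0, nat_lit 18144, nat_lit 0, nat_lit 5470, nat_lit 10561, nat_lit 0, nat_lit 0, nat_lit 0, nat_lit 2200, nat_lit 0, nat_lit 0, nat_lit 0, nat_lit 0, nat_lit 0, nat_lit 0, nat_lit 0, nat_lit 0, [],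
 ⟨p061_k16, nat_lit 0, nat_lit 0, nat_lit 0, nat_lit 0, nat_lit 0, [nat_lit 1465500000, nat_lit 2637500000, nat_lit 3965500000, nat_lit 7968000000], [], [nat_lit 21063822900, nat_lit 22572680384, nat_lit 20783702100, nat_lit 22267794400, nat_lit 23910876496, nat_lit 25427075817, nat_lit 23585052000, nat_lit 24964986760], nat_lit 0, nat_lit 0, nat_lit 0, nat_lit 0, nat_lit 0, nat_lit 0, [], [nat_lit 186, nat_lit 40, nat_lit 20, nat_lit 40]⟩, ⟨p061_k8, nat_lit 0, nat_lit 0, nat_lit 346, nat_lit 0, nat_lit 526588, [nat_lit 4688000000, nat_lit 6250000000, nat_lit 9842000000], [], [nat_lit 22250340549, nat_lit 16799322643, nat_lit 17883003750, nat_lit 12974031484, nat_lit 15574361916, nat_lit 17107986517, nat_lit 14602962616, nat_lit 16111466488], nat_lit 1271250, nat_lit 1271250, nat_lit 382400, nat_lit 490000, nat_lit 1100001, nat_lit 1785000, [nat_lit 1100000, nat_lit 1442500, nat_lit 1271250], [nat_lit 11, nat_lit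 40, nat_lit 40, nat_lit 80, nat_lit 1, nat_lit 373, nat_lit 150, nat_lit 10]⟩,
 zbF0, [⟨nat_lit 0, nat_lit 100, nat_lit 91, nat_lit 77, nat_lit 2291592994⟩, ⟨nat_lit 16, nat_lit 94, nat_lit 88, nat_lit 100, nat_lit 648556260⟩]⟩
noncomputable def p061_l28 : Lf2 := ⟨nat_lit 0, nat_lit 10, [nat_lit 0, nat_lit 5, nat_lit 5, nat_lit 20], false, nat_lit 280, nat_lit 320, nat_lit 240, nat_lit 300, ⟨nat_lit 535, nat_lit 465, nat_lit 0, nat_lit 6, nat_lit 141, nat_lit 465, nat_lit 227, nat_lit 0, nat_lit 0, nat_lit 0, nat_lit 0, nat_lit 0, nat_lit 44329166, nat_lit 7271497, nat_lit 15399337, nat_lit 4564658, false, false⟩,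
 nat_lit 0, nat_lit 0, nat_lit 7546, nat_lit 0, nat_lit 4837, nat_lit 4392, nat_lit 0, nat_lit 0, nat_lit 0, nat_lit 1128, nat_lit 0, nat_lit 0, nat_lit 0, nat_lit 0, nat_lit 0, nat_lit 116250, nat_lit 0, nat_lit 0, [(nat_lit 15, [(nat_lit 0, nat_lit 465)])],
 ⟨p061_k16, nat_lit 0, nat_lit 0, nat_lit 0, nat_lit 0, nat_lit 0, [nat_lit 1323070500, nat_lit 2169756500, nat_lit 3132576501, nat_lit 5691174000], [], [nat_lit 20530264091, nat_lit 21942375628, nat_lit 20318152811, nat_lit 21707617941, nat_lit 23284095791, nat_lit 24705156534, nat_lit 22945826501, nat_lit 24330145996], nat_lit 0, nat_lit 0, nat_lit 0, nat_lit 0, nat_lit 0, nat_lit 0, [], [nat_lit 186, nat_lit 40, nat_lit 20, nat_lit 40]⟩, ⟨p061_k8, nat_lit 0, nat_lit 0, nat_lit 345, nat_lit 0, nat_lit 526588, [nat_lit 2508080000, nat_lit 3343750000, nat_lit 5265470000], [], [nat_lit 9352837791, nat_lit 10023727506, nat_lit 9032831078, nat_lit 9643051096,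 nat_lit 11493555418, nat_lit 12190215480, nat_lit 11090001416, nat_lit 11702421974], nat_lit 1271250, nat_lit 1271250, nat_lit 382400, nat_lit 490000, nat_lit 1271250, nat_lit 1271250, [nat_lit 1100000, nat_lit 1442500, nat_lit 1271250], [nat_lit 11, nat_lit 40, nat_lit 40, nat_lit 80, nat_lit 1, nat_lit 401, nat_lit 175, nat_lit 11]⟩,
 ⟨nat_lit 4472, nat_lit 5000, ⟨.ofNat (nat_lit 321407), .ofNat (nat_lit 349976), .ofNat (nat_lit 342823), .ofNat (nat_lit 371392), .ofNat (nat_lit 333552), .ofNat (nat_lit 360741), .ofNat (nat_lit 355106), .ofNat (nat_lit 382295)⟩, ⟨.ofNat (nat_lit 514284), .ofNat (nat_lit 585713), .ofNat (nat_lit 557141), .ofNat (nat_lit 628570), .ofNat (nat_lit 506556), .ofNat (nat_lit 574534), .ofNat (nat_lit 549689), .ofNat (nat_lit 617667)⟩⟩, [⟨nat_lit 0, nat_lit 100, nat_lit 89, nat_lit 86, nat_lit 361735447⟩, ⟨nat_lit 4, nat_lit 100, nat_lit 93, nat_lit 97, nat_lit 162005601⟩, ⟨nat_lit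 11, nat_lit 100, nat_lit 100, nat_lit 85, nat_lit 352074286⟩]⟩
noncomputable def b_V_700_600_20_8 : St := ⟨true, nat_lit 0, nat_lit 1, nat_lit 1, nat_lit 120, nat_lit 280, nat_lit 320, nat_lit 260, nat_lit 280, nat_lit 36, nat_lit 80, nat_lit 80, nat_lit 120, nat_lit 280, nat_lit 336, nat_lit 0, nat_lit 300, nat_lit 0, nat_lit 40, nat_lit 380, nat_lit 460, nat_lit 0, nat_lit 0⟩
theorem d_V_700_600_20_8 (h : EB TB.env) : Dead b_V_700_600_20_8 := chkB_sound0 h (T :=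
(.trZ (nat_lit 0) (nat_lit 100) (nat_lit 96) (nat_lit 69) (nat_lit 48) (.spl (nat_lit 0) (nat_lit 300)
(.spl (nat_lit 4) (nat_lit 320)
(.spl (nat_lit 4) (nat_lit 300)
(.spl (nat_lit 2) (nat_lit 60)
(.trX (nat_lit 23) (nat_lit 99) (nat_lit 100) (nat_lit 77) (nat_lit 276) (.spl (nat_lit 0) (nat_lit 290)
(.leaf p061_l10)
(.trZ (nat_lit 0) (nat_lit 100) (nat_lit 94) (nat_lit 73) (nat_lit 56) (.leaf p061_l11))))
(.spl (nat_lit 0) (nat_lit 290)
(.leaf p061_l12)
(.leaf p061_l13)))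
(.trX (nat_lit 23) (nat_lit 94) (nat_lit 100) (nat_lit 87) (nat_lit 280) (.spl (nat_lit 5) (nat_lit 160)
(.spl (nat_lit 5) (nat_lit 80)
(.leaf p061_l14)
(.leaf p061_l15))
(.spl (nat_lit 5) (nat_lit 240)
(.spl (nat_lit 0) (nat_lit 290)
(.spl (nat_lit 6) (nat_lit 32)
(.spl (nat_lit 1) (nat_lit 270)
(.leaf p061_l16)
(.trZ (nat_lit 0) (nat_lit 100) (nat_lit 98) (nat_lit 74) (nat_lit 56) (.leaf p061_l17)))
(.leaf p061_l18))
(.trZ (nat_lit 0) (nat_lit 100) (nat_lit 94) (nat_lit 73) (nat_lit 56) (.leaf p061_l19)))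
(.leaf p061_l20)))))
(.trX (nat_lit 23) (nat_lit 83) (nat_lit 100) (nat_lit 83) (nat_lit 260) (.spl (nat_lit 6) (nat_lit 20)
(.spl (nat_lit 5) (nat_lit 160)
(.spl (nat_lit 0) (nat_lit 290)
(.leaf p061_l21)
(.trZ (nat_lit 0) (nat_lit 100) (nat_lit 94) (nat_lit 73) (nat_lit 56) (.trX (nat_lit 16) (nat_lit 97) (nat_lit 84) (nat_lit 100) (nat_lit 328) (.leaf p061_l22))))
(.spl (nat_lit 5) (nat_lit 200)
(.leaf p061_l23)
(.leaf p061_l24)))
(.leaf p061_l25))))
(.trZ (nat_lit 0) (nat_lit 100) (nat_lit 91) (nat_lit 77) (nat_lit 64) (.trX (nat_lit 16) (nat_lit 94) (nat_lit 88) (nat_lit 100) (nat_lit 320) (.spl (nat_lit 5) (nat_lit 160)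
(.leaf p061_l26)
(.spl (nat_lit 5) (nat_lit 240)
(.leaf p061_l27)
(.leaf p061_l28)))))))) (by decide +kernel)
noncomputable def p061_l29 : Lf2 := ⟨nat_lit 0, nat_lit 10, [nat_lit 0, nat_lit 5, nat_lit 5, nat_lit 20], true, nat_lit 280, nat_lit 320, nat_lit 0, nat_lit 276, ⟨nat_lit 0, nat_lit 1000, nat_lit 0, nat_lit 6, nat_lit 114, nat_lit 1000, nat_lit 230, nat_lit 0, nat_lit 0, nat_lit 0, nat_lit 0, nat_lit 0, nat_lit 45597491, nat_lit 5355973, nat_lit 16046536, nat_lit 4292100, false, false⟩,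
 nat_lit 0, nat_lit 0, nat_lit 0, nat_lit 39601, nat_lit 100000, nat_lit 0, nat_lit 4683, nat_lit 1453, nat_lit 0, nat_lit 0, nat_lit 0, nat_lit 0, nat_lit 0, nat_lit 0, nat_lit 0, nat_lit 400000, nat_lit 0, nat_lit 0, [(nat_lit 12, [(nat_lit 1, nat_lit 1000)])],
 ⟨p061_k17, nat_lit 0, nat_lit 0, nat_lit 0, nat_lit 0, nat_lit 0, [nat_lit 19504400000, nat_lit 31781200001, nat_lit 43326799999], [], [nat_lit 22747360574, nat_lit 33329604374, nat_lit 2379530374, nat_lit 12687547874, nat_lit 41395428374, nat_lit 53153756800, nat_lit 20541058374, nat_lit 32053354001], nat_lit 0, nat_lit 0, nat_lit 0, nat_lit 0, nat_lit 0, nat_lit 0, [], [nat_lit 8, nat_lit 40, nat_lit 40, nat_lit 80]⟩, C1.Rw.none,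
 ⟨nat_lit 5000, nat_lit 5478, ⟨.ofNat (nat_lit 235487), .ofNat (nat_lit 280447), .ofNat (nat_lit 278201), .ofNat (nat_lit 323161), .ofNat (nat_lit 249999), .ofNat (nat_lit 292856), .ofNat (nat_lit 292856), .ofNat (nat_lit 335713)⟩, ⟨.ofNat (nat_lit 521722), .ofNat (nat_lit 596655), .ofNat (nat_lit 564436), .ofNat (nat_lit 639367), .ofNat (nat_lit 514284), .ofNat (nat_lit 585713), .ofNat (nat_lit 557141), .ofNat (nat_lit 628568)⟩⟩, [⟨nat_lit 0, nat_lit 100, nat_lit 94, nat_lit 73, nat_lit 4779434641⟩, ⟨nat_lit 4, nat_lit 94, nat_lit 100, nat_lit 97, nat_lit 936862084⟩]⟩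
noncomputable def p061_l30 : Lf2 := ⟨nat_lit 0, nat_lit 3, [nat_lit 45, nat_lit 5, nat_lit 5, nat_lit 20], false, nat_lit 320, nat_lit 336, nat_lit 0, nat_lit 232, ⟨nat_lit 1000, nat_lit 0, nat_lit 0, nat_lit 0, nat_lit 0, nat_lit 0, nat_lit 0, nat_lit 0, nat_lit 0, nat_lit 0, nat_lit 0, nat_lit 0, nat_lit 0, nat_lit 0, nat_lit 0, nat_lit 0, false, false⟩,
 nat_lit 0, nat_lit 0, nat_lit 24095, nat_lit 29222, nat_lit 20589, nat_lit 12756, nat_lit 1324, nat_lit 0, nat_lit 0, nat_lit 2215, nat_lit 0, nat_lit 0, nat_lit 0, nat_lit 0, nat_lit 0, nat_lit 0, nat_lit 0, nat_lit 0, [],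
 ⟨p061_k18, nat_lit 0, nat_lit 0, nat_lit 0, nat_lit 0, nat_lit 0, [nat_lit 3282000000, nat_lit 4688000000, nat_lit 6250000000], [], [nat_lit 22895096326, nat_lit 24504199481, nat_lit 19019246158, nat_lit 20587952793, nat_lit 26490085892, nat_lit 28110422315, nat_lit 22478536511, nat_lit 24042292767], nat_lit 0, nat_lit 0, nat_lit 0, nat_lit 0, nat_lit 0, nat_lit 0, [], [nat_lit 59, nat_lit 40, nat_lit 40, nat_lit 80]⟩, ⟨p061_k19, nat_lit 0, nat_lit 0, nat_lit 258, nat_lit 0, nat_lit 82930, [nat_lit 4688000000, nat_lit 6250000000, nat_lit 7968000000], [], [nat_lit 19706290644, nat_lit 21888360692, nat_lit 16283528227, nat_lit 18319984410, nat_lit 13562746881, nat_lit 15067897870, nat_lit 11912891452, nat_lit 12584703924], nat_lit 1271250, nat_lit 1271250, nat_lit 205650, nat_lit 356250, nat_lit 0, nat_lit 1638500, [nat_lit 1100000, nat_lit 1442500, nat_lit 1271250], [nat_lit 9, nat_lit 40, nat_lit 40, nat_lit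 80, nat_lit 2, nat_lit 289, nat_lit 75, nat_lit 10]⟩,
 zbF0, [⟨nat_lit 0, nat_lit 100, nat_lit 92, nat_lit 68, nat_lit 2194772024⟩, ⟨nat_lit 4, nat_lit 87, nat_lit 100, nat_lit 99, nat_lit 1338159558⟩, ⟨nat_lit 23, nat_lit 77, nat_lit 100, nat_lit 65, nat_lit 34074851⟩]⟩
noncomputable def p061_l31 : Lf2 := ⟨nat_lit 0, nat_lit 3, [nat_lit 45, nat_lit 5, nat_lit 5, nat_lit 20], false, nat_lit 320, nat_lit 336, nat_lit 0, nat_lit 232, ⟨nat_lit 1000, nat_lit 0, nat_lit 0, nat_lit 0, nat_lit 0, nat_lit 0, nat_lit 0, nat_lit 0, nat_lit 0, nat_lit 0, nat_lit 0, nat_lit 0, nat_lit 0, nat_lit 0, nat_lit 0, nat_lit 0, false, false⟩,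
 nat_lit 0, nat_lit 0, nat_lit 15043, nat_lit 56596, nat_lit 49337, nat_lit 8357, nat_lit 4469, nat_lit 1082, nat_lit 0, nat_lit 7396, nat_lit 0, nat_lit 0, nat_lit 0, nat_lit 0, nat_lit 0, nat_lit 0, nat_lit 0, nat_lit 0, [],
 ⟨p061_k20, nat_lit 0, nat_lit 0, nat_lit 0, nat_lit 0, nat_lit 0, [nat_lit 16266000001, nat_lit 19113500000, nat_lit 24925500001, nat_lit 27890000000], [], [nat_lit 33263015581, nat_lit 36793963779, nat_lit 25077826113, nat_lit 28457071175, nat_lit 40984513198, nat_lit 44410592440, nat_lit 32474061371, nat_lit 35833037926], nat_lit 0, nat_lit 0, nat_lit 0, nat_lit 0, nat_lit 0, nat_lit 0, [], [nat_lit 228, nat_lit 40, nat_lit 20, nat_lit 40]⟩, ⟨p061_k21, nat_lit 0, nat_lit 0, nat_lit 254, nat_lit 0, nat_lit 125486, [nat_lit 4688000000, nat_lit 6250000000, nat_lit 7968000000], [], [nat_lit 16094867036, nat_lit 17681103080, nat_lit 14570177833, nat_lit 16139605271, nat_lit 13890084774,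 nat_lit 15045806506, nat_lit 13802723865, nat_lit 14031903941], nat_lit 1271250, nat_lit 1271250, nat_lit 230001, nat_lit 356250, nat_lit 0, nat_lit 1638500, [nat_lit 1100000, nat_lit 1442500, nat_lit 1271250], [nat_lit 9, nat_lit 40, nat_lit 40, nat_lit 80, nat_lit 2, nat_lit 289, nat_lit 75, nat_lit 10]⟩,
 zbF0, [⟨nat_lit 0, nat_lit 100, nat_lit 94, nat_lit 68, nat_lit 3081930062⟩, ⟨nat_lit 16, nat_lit 100, nat_lit 80, nat_lit 100, nat_lit 2980789523⟩, ⟨nat_lit 23, nat_lit 77, nat_lit 100, nat_lit 66, nat_lit 211031456⟩]⟩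
noncomputable def p061_l32 : Lf2 := ⟨nat_lit 1, nat_lit 5, [nat_lit 4, nat_lit 5, nat_lit 5, nat_lit 20], false, nat_lit 320, nat_lit 336, nat_lit 0, nat_lit 232, zbN0,
 nat_lit 0, nat_lit 0, nat_lit 0, nat_lit 0, nat_lit 0, nat_lit 0, nat_lit 0, nat_lit 0, nat_lit 0, nat_lit 0, nat_lit 0, nat_lit 0, nat_lit 0, nat_lit 0, nat_lit 0, nat_lit 0, nat_lit 0, nat_lit 0, [],
 C1.Rw.none, C1.Rw.none,
 zbF0, []⟩
noncomputable def p061_l33 : Lf2 := ⟨nat_lit 0, nat_lit 5, [nat_lit 4, nat_lit 5, nat_lit 5, nat_lit 20], true, nat_lit 320, nat_lit 328, nat_lit 0, nat_lit 232, ⟨nat_lit 0, nat_lit 1000, nat_lit 0, nat_lit 6, nat_lit 113, nat_lit 1000, nat_lit 251, nat_lit 0, nat_lit 0, nat_lit 0, nat_lit 0, nat_lit 0, nat_lit 43781648, nat_lit 5142560, nat_lit 18075792, nat_lit 4405881, false, false⟩,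
 nat_lit 0, nat_lit 0, nat_lit 0, nat_lit 95570, nat_lit 100000, nat_lit 0, nat_lit 13916, nat_lit 4595, nat_lit 0, nat_lit 0, nat_lit 0, nat_lit 0, nat_lit 0, nat_lit 0, nat_lit 0, nat_lit 854200, nat_lit 0, nat_lit 0, [(nat_lit 12, [(nat_lit 1, nat_lit 243), (nat_lit 2, nat_lit 757)])],
 ⟨p061_k22, nat_lit 0, nat_lit 0, nat_lit 0, nat_lit 0, nat_lit 0, [nat_lit 57142786920, nat_lit 66623752801, nat_lit 84821291200, nat_lit 93777153200], [], [nat_lit 78802254700, nat_lit 85454770920, nat_lit 61732980700, nat_lit 67890298920, nat_lit 85783802121, nat_lit 92671422920, nat_lit 68208276521, nat_lit 74957716520], nat_lit 0, nat_lit 0, nat_lit 0, nat_lit 0, nat_lit 0, nat_lit 0, [], [nat_lit 228, nat_lit 40, nat_lit 20, nat_lit 40]⟩, C1.Rw.none,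
 ⟨nat_lit 5000, nat_lit 5245, ⟨.ofNat (nat_lit 250085), .ofNat (nat_lit 286670), .ofNat (nat_lit 271470), .ofNat (nat_lit 308056), .ofNat (nat_lit 257141), .ofNat (nat_lit 292856), .ofNat (nat_lit 278570), .ofNat (nat_lit 314284)⟩, ⟨.ofNat (nat_lit 612585), .ofNat (nat_lit 627219), .ofNat (nat_lit 633970), .ofNat (nat_lit 648604), .ofNat (nat_lit 607141), .ofNat (nat_lit 621427), .ofNat (nat_lit 628570), .ofNat (nat_lit 642856)⟩⟩, [⟨nat_lit 0, nat_lit 100, nat_lit 91, nat_lit 70, nat_lit 4927077749⟩, ⟨nat_lit 16, nat_lit 97, nat_lit 84, nat_lit 100, nat_lit 6480745606⟩]⟩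
noncomputable def p061_l34 : Lf2 := ⟨nat_lit 0, nat_lit 5, [nat_lit 4, nat_lit 5, nat_lit 5, nat_lit 20], false, nat_lit 320, nat_lit 336, nat_lit 0, nat_lit 80, ⟨nat_lit 1000, nat_lit 0, nat_lit 0, nat_lit 0, nat_lit 0, nat_lit 0, nat_lit 0, nat_lit 0, nat_lit 0, nat_lit 0, nat_lit 0, nat_lit 0, nat_lit 0, nat_lit 0, nat_lit 0, nat_lit 0, false, false⟩,
 nat_lit 0, nat_lit 0, nat_lit 13424, nat_lit 31019, nat_lit 73578, nat_lit 7813, nat_lit 0, nat_lit 0, nat_lit 0, nat_lit 6577, nat_lit 0, nat_lit 0, nat_lit 0, nat_lit 0, nat_lit 0, nat_lit 0, nat_lit 0, nat_lit 0, [],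
 ⟨p061_k23, nat_lit 0, nat_lit 0, nat_lit 0, nat_lit 0, nat_lit 0, [nat_lit 3282000000, nat_lit 7968000000], [], [nat_lit 17093685140, nat_lit 24831602729, nat_lit 10349778900, nat_lit 17928345634, nat_lit 26214465466, nat_lit 36034640423, nat_lit 19344205384, nat_lit 28980371490], nat_lit 0, nat_lit 0, nat_lit 0, nat_lit 0, nat_lit 0, nat_lit 0, [], [nat_lit 74, nat_lit 40, nat_lit 40, nat_lit 80]⟩, ⟨p061_k24, nat_lit 0, nat_lit 0, nat_lit 312, nat_lit 0, nat_lit 368127, [nat_lit 4688000000, nat_lit 7968000000], [], [nat_lit 16455813392, nat_lit 19464170440, nat_lit 16165375868, nat_lit 18595759732, nat_lit 13653325508, nat_lit 14767216786, nat_lit 14131278661, nat_lit 14500065942], nat_lit 1271250, nat_lit 1271250, nat_lit 279600, nat_lit 356250, nat_lit 0, nat_lit 490000, [nat_lit 1100000, nat_lit 1785000], [nat_lit 39, nat_lit 40, nat_lit 40, nat_lit 80, nat_lit 7, nat_lit 249, nat_lit 40, nat_lit 9]⟩,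
 zbF0, [⟨nat_lit 0, nat_lit 100, nat_lit 96, nat_lit 69, nat_lit 3809472548⟩, ⟨nat_lit 16, nat_lit 100, nat_lit 80, nat_lit 100, nat_lit 1951282487⟩]⟩
noncomputable def p061_l35 : Lf2 := ⟨nat_lit 0, nat_lit 5, [nat_lit 4, nat_lit 5, nat_lit 5, nat_lit 20], false, nat_lit 320, nat_lit 336, nat_lit 80, nat_lit 232, ⟨nat_lit 1000, nat_lit 0, nat_lit 0, nat_lit 0, nat_lit 0, nat_lit 0, nat_lit 0, nat_lit 0, nat_lit 0, nat_lit 0, nat_lit 0, nat_lit 0, nat_lit 0, nat_lit 0, nat_lit 0, nat_lit 0, false, false⟩,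
 nat_lit 0, nat_lit 0, nat_lit 23062, nat_lit 47648, nat_lit 100000, nat_lit 13424, nat_lit 0, nat_lit 222, nat_lit 0, nat_lit 10665, nat_lit 0, nat_lit 0, nat_lit 0, nat_lit 0, nat_lit 0, nat_lit 0, nat_lit 0, nat_lit 0, [],
 ⟨p061_k23, nat_lit 0, nat_lit 0, nat_lit 0, nat_lit 0, nat_lit 0, [nat_lit 5946000000, nat_lit 13296000000], [], [nat_lit 17572888801, nat_lit 27952069201, nat_lit 8333784000, nat_lit 18493197000, nat_lit 29862696160, nat_lit 42979188320, nat_lit 20378753201, nat_lit 33316440200], nat_lit 0, nat_lit 0, nat_lit 0, nat_lit 0, nat_lit 0, nat_lit 0, [], [nat_lit 74, nat_lit 40, nat_lit 40, nat_lit 80]⟩, ⟨p061_k24, nat_lit 0, nat_lit 0, nat_lit 252, nat_lit 0, nat_lit 368127, [nat_lit 4688000000, nat_lit 7968000000], [], [nat_lit 11552665572, nat_lit 13194303175, nat_lit 7558705712, nat_lit 11922000880, nat_lit 15257310320, nat_lit 18486318733, nat_lit 14134014028, nat_lit 17328053148], nat_lit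 1271250, nat_lit 1271250, nat_lit 279600, nat_lit 356250, nat_lit 490000, nat_lit 1677500, [nat_lit 1100000, nat_lit 1785000], [nat_lit 39, nat_lit 40, nat_lit 40, nat_lit 80, nat_lit 7, nat_lit 289, nat_lit 75, nat_lit 10]⟩,
 zbF0, [⟨nat_lit 0, nat_lit 100, nat_lit 95, nat_lit 78, nat_lit 736652588⟩, ⟨nat_lit 0, nat_lit 100, nat_lit 96, nat_lit 69, nat_lit 4108596322⟩, ⟨nat_lit 16, nat_lit 100, nat_lit 80, nat_lit 100, nat_lit 3695468334⟩, ⟨nat_lit 23, nat_lit 77, nat_lit 100, nat_lit 68, nat_lit 583296454⟩]⟩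
noncomputable def p061_l36 : Lf2 := ⟨nat_lit 0, nat_lit 10, [nat_lit 0, nat_lit 5, nat_lit 5, nat_lit 20], true, nat_lit 320, nat_lit 336, nat_lit 0, nat_lit 232, ⟨nat_lit 0, nat_lit 1000, nat_lit 0, nat_lit 6, nat_lit 114, nat_lit 1000, nat_lit 251, nat_lit 0, nat_lit 0, nat_lit 0, nat_lit 0, nat_lit 0, nat_lit 43723658, nat_lit 5242356, nat_lit 18033986, nat_lit 4421710, false, false⟩,
 nat_lit 0, nat_lit 0, nat_lit 0, nat_lit 100000, nat_lit 100000, nat_lit 0, nat_lit 1047, nat_lit 0, nat_lit 0, nat_lit 0, nat_lit 0, nat_lit 0, nat_lit 0, nat_lit 0, nat_lit 0, nat_lit 400000, nat_lit 0, nat_lit 0, [(nat_lit 12, [(nat_lit 1, nat_lit 1000)])],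
 ⟨p061_k17, nat_lit 0, nat_lit 0, nat_lit 0, nat_lit 0, nat_lit 0, [nat_lit 2068400000, nat_lit 2721200001, nat_lit 2642799999], [], [nat_lit 23970465874, nat_lit 35717756800, nat_lit 3116095874, nat_lit 14615597000, nat_lit 37657759841, nat_lit 50911343440, nat_lit 16501153201, nat_lit 29438840200], nat_lit 0, nat_lit 0, nat_lit 0, nat_lit 0, nat_lit 0, nat_lit 0, [], [nat_lit 8, nat_lit 40, nat_lit 40, nat_lit 80]⟩, C1.Rw.none,
 ⟨nat_lit 5000, nat_lit 5478, ⟨.ofNat (nat_lit 235487), .ofNat (nat_lit 280447), .ofNat (nat_lit 278201), .ofNat (nat_lit 323161), .ofNat (nat_lit 249999), .ofNat (nat_lit 292856), .ofNat (nat_lit 292856), .ofNat (nat_lit 335713)⟩, ⟨.ofNat (nat_lit 596655), .ofNat (nat_lit 626629), .ofNat (nat_lit 639367), .ofNat (nat_lit 669336), .ofNat (nat_lit 585713), .ofNat (nat_lit 614284), .ofNat (nat_lit 628568), .ofNat (nat_lit 657134)⟩⟩, [⟨nat_lit 0, nat_lit 100, nat_lit 94, nat_lit 73, nat_lit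 4859135645⟩, ⟨nat_lit 16, nat_lit 100, nat_lit 80, nat_lit 100, nat_lit 4124581643⟩]⟩
noncomputable def p061_l37 : Lf2 := ⟨nat_lit 0, nat_lit 10, [nat_lit 0, nat_lit 5, nat_lit 5, nat_lit 20], true, nat_lit 280, nat_lit 320, nat_lit 0, nat_lit 276, ⟨nat_lit 0, nat_lit 1000, nat_lit 0, nat_lit 6, nat_lit 124, nat_lit 1000, nat_lit 227, nat_lit 0, nat_lit 0, nat_lit 0, nat_lit 0, nat_lit 0, nat_lit 45364462, nat_lit 6045185, nat_lit 15590353, nat_lit 4378505, false, false⟩,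
 nat_lit 0, nat_lit 0, nat_lit 0, nat_lit 68518, nat_lit 100000, nat_lit 0, nat_lit 8555, nat_lit 2628, nat_lit 0, nat_lit 0, nat_lit 0, nat_lit 0, nat_lit 0, nat_lit 0, nat_lit 0, nat_lit 400000, nat_lit 0, nat_lit 0, [(nat_lit 15, [(nat_lit 1, nat_lit 1000)])],
 ⟨p061_k1, nat_lit 0, nat_lit 0, nat_lit 0, nat_lit 0, nat_lit 0, [nat_lit 33648600000, nat_lit 65505300000], [], [nat_lit 35686281826, nat_lit 47935424425, nat_lit 26594834625, nat_lit 38662932625, nat_lit 55654669201, nat_lit 69846960000, nat_lit 46197487625, nat_lit 60192276000], nat_lit 0, nat_lit 0, nat_lit 0, nat_lit 0, nat_lit 0, nat_lit 0, [], [nat_lit 74, nat_lit 40, nat_lit 40, nat_lit 80]⟩, C1.Rw.none,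
 ⟨nat_lit 4472, nat_lit 5000, ⟨.ofNat (nat_lit 271418), .ofNat (nat_lit 292846), .ofNat (nat_lit 314253), .ofNat (nat_lit 335680), .ofNat (nat_lit 284805), .ofNat (nat_lit 305198), .ofNat (nat_lit 327916), .ofNat (nat_lit 348308)⟩, ⟨.ofNat (nat_lit 514284), .ofNat (nat_lit 585713), .ofNat (nat_lit 557141), .ofNat (nat_lit 628570), .ofNat (nat_lit 506556), .ofNat (nat_lit 574534), .ofNat (nat_lit 549689), .ofNat (nat_lit 617667)⟩⟩, [⟨nat_lit 0, nat_lit 100, nat_lit 88, nat_lit 68, nat_lit 4599630745⟩, ⟨nat_lit 16, nat_lit 94, nat_lit 88, nat_lit 100, nat_lit 3959456487⟩]⟩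
noncomputable def p061_l38 : Lf2 := ⟨nat_lit 0, nat_lit 10, [nat_lit 0, nat_lit 5, nat_lit 5, nat_lit 20], true, nat_lit 280, nat_lit 336, nat_lit 0, nat_lit 300, ⟨nat_lit 0, nat_lit 1000, nat_lit 0, nat_lit 6, nat_lit 133, nat_lit 1000, nat_lit 234, nat_lit 0, nat_lit 0, nat_lit 0, nat_lit 0, nat_lit 0, nat_lit 44164349, nat_lit 6628848, nat_lit 16206803, nat_lit 4528226, false, false⟩,
 nat_lit 0, nat_lit 0, nat_lit 0, nat_lit 20919, nat_lit 100000, nat_lit 0, nat_lit 2239, nat_lit 0, nat_lit 0, nat_lit 0, nat_lit 0, nat_lit 0, nat_lit 0, nat_lit 0, nat_lit 0, nat_lit 400000, nat_lit 37929629126, nat_lit 0, [(nat_lit 12, [(nat_lit 1, nat_lit 1000)]), (nat_lit 15, [(nat_lit 1, nat_lit 1000)])],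
 ⟨p061_k17, nat_lit 0, nat_lit 0, nat_lit 0, nat_lit 0, nat_lit 0, [nat_lit 2068400000, nat_lit 2721200001, nat_lit 2642799999], [], [nat_lit 15259122000, nat_lit 41408499126, nat_lit 0, nat_lit 25899283126, nat_lit 54430782327, nat_lit 80306156326, nat_lit 38624210727, nat_lit 63903567526], nat_lit 0, nat_lit 0, nat_lit 0, nat_lit 0, nat_lit 0, nat_lit 0, [], [nat_lit 8, nat_lit 40, nat_lit 40, nat_lit 80]⟩, C1.Rw.none,
 ⟨nat_lit 4472, nat_lit 5478, ⟨.ofNat (nat_lit 280440), .ofNat (nat_lit 317898), .ofNat (nat_lit 323087), .ofNat (nat_lit 360546), .ofNat (nat_lit 305201), .ofNat (nat_lit 339182), .ofNat (nat_lit 348267), .ofNat (nat_lit 382248)⟩, ⟨.ofNat (nat_lit 521722), .ofNat (nat_lit 626629), .ofNat (nat_lit 564436), .ofNat (nat_lit 669343), .ofNat (nat_lit 506556), .ofNat (nat_lit 601725), .ofNat (nat_lit 549689), .ofNat (nat_lit 644858)⟩⟩, [⟨nat_lit 0, nat_lit 100, nat_lit 91, nat_lit 77, nat_lit 1368744027⟩,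 ⟨nat_lit 16, nat_lit 100, nat_lit 80, nat_lit 100, nat_lit 3153086977⟩, ⟨nat_lit 4, nat_lit 100, nat_lit 100, nat_lit 100, nat_lit 289000502⟩]⟩
noncomputable def b_V_700_600_20_9 : St := ⟨true, nat_lit 0, nat_lit 1, nat_lit 1, nat_lit 120, nat_lit 280, nat_lit 320, nat_lit 240, nat_lit 280, nat_lit 36, nat_lit 80, nat_lit 80, nat_lit 120, nat_lit 280, nat_lit 336, nat_lit 0, nat_lit 300, nat_lit 0, nat_lit 40, nat_lit 460, nat_lit 600, nat_lit 0, nat_lit 0⟩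
theorem d_V_700_600_20_9 (h : EB TB.env) : Dead b_V_700_600_20_9 := chkB_sound0 h (T :=
(.spl (nat_lit 2) (nat_lit 60)
(.trX (nat_lit 23) (nat_lit 99) (nat_lit 100) (nat_lit 77) (nat_lit 276) (.spl (nat_lit 0) (nat_lit 300)
(.spl (nat_lit 4) (nat_lit 320)
(.leaf p061_l29)
(.trX (nat_lit 23) (nat_lit 81) (nat_lit 100) (nat_lit 72) (nat_lit 232) (.spl (nat_lit 6) (nat_lit 20)
(.spl (nat_lit 1) (nat_lit 260)
(.spl (nat_lit 3) (nat_lit 100)
(.emL (nat_lit 16) (nat_lit 100) (nat_lit 88) (nat_lit 94))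
(.spl (nat_lit 0) (nat_lit 290)
(.spl (nat_lit 6) (nat_lit 12)
(.spl (nat_lit 1) (nat_lit 250)
(.leaf p061_l30)
(.trZ (nat_lit 0) (nat_lit 100) (nat_lit 95) (nat_lit 64) (nat_lit 40) (.leaf p061_l31)))
(.leaf p061_l32))
(.trZ (nat_lit 0) (nat_lit 100) (nat_lit 91) (nat_lit 63) (nat_lit 40) (.trX (nat_lit 16) (nat_lit 97) (nat_lit 84) (nat_lit 100) (nat_lit 328) (.leaf p061_l33)))))
(.trZ (nat_lit 0) (nat_lit 100) (nat_lit 96) (nat_lit 69) (nat_lit 48) (.spl (nat_lit 5) (nat_lit 80)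
(.leaf p061_l34)
(.leaf p061_l35))))
(.leaf p061_l36))))
(.trZ (nat_lit 0) (nat_lit 100) (nat_lit 88) (nat_lit 68) (nat_lit 48) (.trX (nat_lit 16) (nat_lit 94) (nat_lit 88) (nat_lit 100) (nat_lit 320) (.leaf p061_l37)))))
(.leaf p061_l38))) (by decide +kernel)
noncomputable def p061_l39 : Lf2 := ⟨nat_lit 0, nat_lit 10, [nat_lit 0, nat_lit 5, nat_lit 5, nat_lit 20], true, nat_lit 240, nat_lit 280, nat_lit 0, nat_lit 364, ⟨nat_lit 0, nat_lit 1000, nat_lit 0, nat_lit 6, nat_lit 152, nat_lit 1000, nat_lit 201, nat_lit 0, nat_lit 0, nat_lit 0, nat_lit 0, nat_lit 0, nat_lit 45734667, nat_lit 8353496, nat_lit 12911837, nat_lit 4494218, false, false⟩,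
 nat_lit 0, nat_lit 0, nat_lit 0, nat_lit 2872, nat_lit 4261, nat_lit 0, nat_lit 0, nat_lit 0, nat_lit 0, nat_lit 0, nat_lit 0, nat_lit 0, nat_lit 0, nat_lit 0, nat_lit 0, nat_lit 250000, nat_lit 0, nat_lit 0, [(nat_lit 12, [(nat_lit 0, nat_lit 1000)])],
 ⟨p061_k5, nat_lit 0, nat_lit 0, nat_lit 32, nat_lit 0, nat_lit 0, [nat_lit 2378800001, nat_lit 3513428572], [], [nat_lit 15921185157, nat_lit 17401448661, nat_lit 16173665025, nat_lit 17582341995, nat_lit 18461889519, nat_lit 19801220245, nat_lit 18595352825, nat_lit 19871894925], nat_lit 0, nat_lit 0, nat_lit 0, nat_lit 0, nat_lit 0, nat_lit 0, [], [nat_lit 82, nat_lit 40, nat_lit 40, nat_lit 80, nat_lit 63, nat_lit 317, nat_lit 100, nat_lit 8]⟩, C1.Rw.none,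
 ⟨nat_lit 5000, nat_lit 5478, ⟨.ofNat (nat_lit 317913), .ofNat (nat_lit 392847), .ofNat (nat_lit 360625), .ofNat (nat_lit 435548), .ofNat (nat_lit 328570), .ofNat (nat_lit 399998), .ofNat (nat_lit 371424), .ofNat (nat_lit 442843)⟩, ⟨.ofNat (nat_lit 446789), .ofNat (nat_lit 521722), .ofNat (nat_lit 489503), .ofNat (nat_lit 564436), .ofNat (nat_lit 442856), .ofNat (nat_lit 514284), .ofNat (nat_lit 485713), .ofNat (nat_lit 557141)⟩⟩, [⟨nat_lit 0, nat_lit 100, nat_lit 94, nat_lit 88, nat_lit 21483480⟩]⟩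
noncomputable def p061_l40 : Lf2 := ⟨nat_lit 0, nat_lit 7, [nat_lit 80, nat_lit 5, nat_lit 5, nat_lit 20], true, nat_lit 280, nat_lit 320, nat_lit 0, nat_lit 336, ⟨nat_lit 0, nat_lit 1000, nat_lit 0, nat_lit 6, nat_lit 148, nat_lit 1000, nat_lit 230, nat_lit 0, nat_lit 0, nat_lit 0, nat_lit 0, nat_lit 0, nat_lit 43556208, nat_lit 7792810, nat_lit 15650982, nat_lit 4664892, false, false⟩,
 nat_lit 0, nat_lit 0, nat_lit 0, nat_lit 2571, nat_lit 4032, nat_lit 0, nat_lit 0, nat_lit 0, nat_lit 0, nat_lit 0, nat_lit 0, nat_lit 0, nat_lit 0, nat_lit 0, nat_lit 0, nat_lit 250000, nat_lit 0, nat_lit 0, [(nat_lit 12, [(nat_lit 0, nat_lit 1000)])],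
 ⟨p061_k25, nat_lit 0, nat_lit 0, nat_lit 47, nat_lit 0, nat_lit 0, [nat_lit 2364000000, nat_lit 3224400000], [], [nat_lit 18596938416, nat_lit 19900644528, nat_lit 18769939488, nat_lit 20013253688, nat_lit 21072734560, nat_lit 22241301136, nat_lit 21131217088, nat_lit 22247816848], nat_lit 0, nat_lit 0, nat_lit 0, nat_lit 0, nat_lit 0, nat_lit 0, [], [nat_lit 74, nat_lit 40, nat_lit 40, nat_lit 80, nat_lit 43, nat_lit 238, nat_lit 30, nat_lit 7]⟩, C1.Rw.none,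
 ⟨nat_lit 5000, nat_lit 5478, ⟨.ofNat (nat_lit 317913), .ofNat (nat_lit 392847), .ofNat (nat_lit 339271), .ofNat (nat_lit 414199), .ofNat (nat_lit 328570), .ofNat (nat_lit 399998), .ofNat (nat_lit 349999), .ofNat (nat_lit 421423)⟩, ⟨.ofNat (nat_lit 521722), .ofNat (nat_lit 596655), .ofNat (nat_lit 564436), .ofNat (nat_lit 639367), .ofNat (nat_lit 514284), .ofNat (nat_lit 585713), .ofNat (nat_lit 557141), .ofNat (nat_lit 628568)⟩⟩, [⟨nat_lit 16, nat_lit 100, nat_lit 94, nat_lit 97, nat_lit 14101321⟩]⟩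
noncomputable def p061_l41 : Lf2 := ⟨nat_lit 0, nat_lit 7, [nat_lit 80, nat_lit 5, nat_lit 5, nat_lit 20], true, nat_lit 320, nat_lit 336, nat_lit 0, nat_lit 280, ⟨nat_lit 0, nat_lit 1000, nat_lit 0, nat_lit 6, nat_lit 139, nat_lit 1000, nat_lit 251, nat_lit 0, nat_lit 0, nat_lit 0, nat_lit 0, nat_lit 0, nat_lit 42376979, nat_lit 6927473, nat_lit 17695548, nat_lit 4687604, false, false⟩,
 nat_lit 0, nat_lit 0, nat_lit 0, nat_lit 7241, nat_lit 3839, nat_lit 0, nat_lit 0, nat_lit 0, nat_lit 0, nat_lit 0, nat_lit 0, nat_lit 0, nat_lit 0, nat_lit 0, nat_lit 0, nat_lit 400000, nat_lit 0, nat_lit 0, [(nat_lit 12, [(nat_lit 1, nat_lit 1000)])],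
 ⟨p061_k25, nat_lit 0, nat_lit 0, nat_lit 55, nat_lit 0, nat_lit 0, [nat_lit 2251200000, nat_lit 2817000000], [], [nat_lit 21031522120, nat_lit 22174946972, nat_lit 21079319948, nat_lit 22197614259, nat_lit 22162734344, nat_lit 23265315598, nat_lit 22185171266, nat_lit 23252872607], nat_lit 0, nat_lit 0, nat_lit 0, nat_lit 0, nat_lit 0, nat_lit 0, [], [nat_lit 74, nat_lit 40, nat_lit 40, nat_lit 80, nat_lit 43, nat_lit 232, nat_lit 25, nat_lit 6]⟩, C1.Rw.none,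
 ⟨nat_lit 5000, nat_lit 5478, ⟨.ofNat (nat_lit 317913), .ofNat (nat_lit 355380), .ofNat (nat_lit 328592), .ofNat (nat_lit 366059), .ofNat (nat_lit 328570), .ofNat (nat_lit 364284), .ofNat (nat_lit 339284), .ofNat (nat_lit 374999)⟩, ⟨.ofNat (nat_lit 596655), .ofNat (nat_lit 626629), .ofNat (nat_lit 639367), .ofNat (nat_lit 669336), .ofNat (nat_lit 585713), .ofNat (nat_lit 614284), .ofNat (nat_lit 628568), .ofNat (nat_lit 657134)⟩⟩, [⟨nat_lit 16, nat_lit 100, nat_lit 80, nat_lit 100, nat_lit 297482490⟩]⟩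
noncomputable def p061_l42 : Lf2 := ⟨nat_lit 0, nat_lit 7, [nat_lit 80, nat_lit 5, nat_lit 5, nat_lit 20], false, nat_lit 320, nat_lit 336, nat_lit 0, nat_lit 160, ⟨nat_lit 1000, nat_lit 0, nat_lit 0, nat_lit 0, nat_lit 0, nat_lit 0, nat_lit 0, nat_lit 0, nat_lit 0, nat_lit 0, nat_lit 0, nat_lit 0, nat_lit 0, nat_lit 0, nat_lit 0, nat_lit 0, false, false⟩,
 nat_lit 0, nat_lit 0, nat_lit 29387, nat_lit 0, nat_lit 4870, nat_lit 16326, nat_lit 0, nat_lit 0, nat_lit 0, nat_lit 4497, nat_lit 0, nat_lit 0, nat_lit 0, nat_lit 0, nat_lit 0, nat_lit 0, nat_lit 0, nat_lit 0, [],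
 ⟨p061_k26, nat_lit 0, nat_lit 0, nat_lit 66, nat_lit 0, nat_lit 0, [nat_lit 3282000000, nat_lit 4688000000, nat_lit 7968000000], [], [nat_lit 21679903600, nat_lit 22957634760, nat_lit 21628572840, nat_lit 22876617470, nat_lit 22976791200, nat_lit 24309960676, nat_lit 22883855648, nat_lit 24124635762], nat_lit 0, nat_lit 0, nat_lit 0, nat_lit 0, nat_lit 0, nat_lit 0, [], [nat_lit 36, nat_lit 40, nat_lit 40, nat_lit 80, nat_lit 7, nat_lit 232, nat_lit 25, nat_lit 6]⟩, ⟨p061_k27, nat_lit 0, nat_lit 0, nat_lit 335, nat_lit 0, nat_lit 292419, [nat_lit 4688000000, nat_lit 6250000000, nat_lit 9842000000], [], [nat_lit 20485334954, nat_lit 20612837716, nat_lit 16769366609, nat_lit 19320436974, nat_lit 17945420382, nat_lit 14098965804, nat_lit 20067431002, nat_lit 16246706200], nat_lit 1271250, nat_lit 1271250, nat_lit 490000, nat_lit 631250, nat_lit 0, nat_lit 1100001, [nat_lit 1100000, nat_lit 1442500, nat_lit 1271250],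 [nat_lit 11, nat_lit 40, nat_lit 40, nat_lit 80, nat_lit 1, nat_lit 373, nat_lit 150, nat_lit 11]⟩,
 zbF0, [⟨nat_lit 4, nat_lit 94, nat_lit 100, nat_lit 97, nat_lit 1279180802⟩]⟩
noncomputable def p061_l43 : Lf2 := ⟨nat_lit 0, nat_lit 7, [nat_lit 80, nat_lit 5, nat_lit 5, nat_lit 20], false, nat_lit 320, nat_lit 336, nat_lit 160, nat_lit 280, ⟨nat_lit 1000, nat_lit 0, nat_lit 0, nat_lit 0, nat_lit 0, nat_lit 0, nat_lit 0, nat_lit 0, nat_lit 0, nat_lit 0, nat_lit 0, nat_lit 0, nat_lit 0, nat_lit 0, nat_lit 0, nat_lit 0, false, false⟩,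
 nat_lit 0, nat_lit 0, nat_lit 23273, nat_lit 0, nat_lit 4870, nat_lit 12929, nat_lit 0, nat_lit 0, nat_lit 0, nat_lit 3488, nat_lit 0, nat_lit 0, nat_lit 0, nat_lit 0, nat_lit 0, nat_lit 0, nat_lit 0, nat_lit 0, [],
 ⟨p061_k26, nat_lit 0, nat_lit 0, nat_lit 66, nat_lit 0, nat_lit 0, [nat_lit 3282000000, nat_lit 4688000000, nat_lit 7968000000], [], [nat_lit 21679903600, nat_lit 22957634760, nat_lit 21628572840, nat_lit 22876617470, nat_lit 22976791200, nat_lit 24309960676, nat_lit 22883855648, nat_lit 24124635762], nat_lit 0, nat_lit 0, nat_lit 0, nat_lit 0, nat_lit 0, nat_lit 0, [], [nat_lit 36, nat_lit 40, nat_lit 40, nat_lit 80, nat_lit 7, nat_lit 232, nat_lit 25, nat_lit 6]⟩, ⟨p061_k27, nat_lit 0, nat_lit 0, nat_lit 197, nat_lit 0, nat_lit 292419, [nat_lit 4688000000, nat_lit 6250000000, nat_lit 9842000000], [], [nat_lit 18622691191, nat_lit 15306027750, nat_lit 12013586791, nat_lit 8721145831, nat_lit 20093159401,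 nat_lit 19077217917, nat_lit 21721094510, nat_lit 18610903967], nat_lit 1271250, nat_lit 1271250, nat_lit 490000, nat_lit 631250, nat_lit 1100001, nat_lit 2127500, [nat_lit 1100000, nat_lit 1442500, nat_lit 1271250], [nat_lit 11, nat_lit 40, nat_lit 40, nat_lit 80, nat_lit 1, nat_lit 401, nat_lit 175, nat_lit 11]⟩,
 zbF0, [⟨nat_lit 16, nat_lit 100, nat_lit 94, nat_lit 97, nat_lit 979655491⟩, ⟨nat_lit 23, nat_lit 80, nat_lit 100, nat_lit 87, nat_lit 419957771⟩]⟩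
noncomputable def p061_l44 : Lf2 := ⟨nat_lit 0, nat_lit 7, [nat_lit 80, nat_lit 5, nat_lit 5, nat_lit 20], true, nat_lit 320, nat_lit 336, nat_lit 0, nat_lit 300, ⟨nat_lit 0, nat_lit 1000, nat_lit 0, nat_lit 6, nat_lit 156, nat_lit 1000, nat_lit 251, nat_lit 0, nat_lit 0, nat_lit 0, nat_lit 0, nat_lit 0, nat_lit 41410550, nat_lit 8153097, nat_lit 17436353, nat_lit 4852535, false, false⟩,
 nat_lit 0, nat_lit 0, nat_lit 0, nat_lit 6902, nat_lit 3744, nat_lit 0, nat_lit 0, nat_lit 0, nat_lit 0, nat_lit 0, nat_lit 0, nat_lit 0, nat_lit 0, nat_lit 0, nat_lit 0, nat_lit 873400, nat_lit 0, nat_lit 0, [(nat_lit 12, [(nat_lit 1, nat_lit 211), (nat_lit 2, nat_lit 789)])],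
 ⟨p061_k26, nat_lit 0, nat_lit 0, nat_lit 59, nat_lit 0, nat_lit 0, [nat_lit 2001492840, nat_lit 2723763201, nat_lit 1064855467], [], [nat_lit 20873984248, nat_lit 21980322904, nat_lit 20930916136, nat_lit 22012544056, nat_lit 21966066418, nat_lit 23120882655, nat_lit 21998077288, nat_lit 23072707018], nat_lit 0, nat_lit 0, nat_lit 0, nat_lit 0, nat_lit 0, nat_lit 0, [], [nat_lit 36, nat_lit 40, nat_lit 40, nat_lit 80, nat_lit 7, nat_lit 238, nat_lit 30, nat_lit 7]⟩, C1.Rw.none,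
 ⟨nat_lit 5000, nat_lit 5478, ⟨.ofNat (nat_lit 355380), .ofNat (nat_lit 392847), .ofNat (nat_lit 376737), .ofNat (nat_lit 414199), .ofNat (nat_lit 364284), .ofNat (nat_lit 399998), .ofNat (nat_lit 385713), .ofNat (nat_lit 421423)⟩, ⟨.ofNat (nat_lit 596655), .ofNat (nat_lit 626629), .ofNat (nat_lit 639367), .ofNat (nat_lit 669336), .ofNat (nat_lit 585713), .ofNat (nat_lit 614284), .ofNat (nat_lit 628568), .ofNat (nat_lit 657134)⟩⟩, [⟨nat_lit 16, nat_lit 100, nat_lit 80, nat_lit 100, nat_lit 287467234⟩]⟩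
noncomputable def p061_l45 : Lf2 := ⟨nat_lit 1, nat_lit 10, [nat_lit 0, nat_lit 5, nat_lit 5, nat_lit 20], false, nat_lit 280, nat_lit 336, nat_lit 0, nat_lit 336, zbN0,
 nat_lit 0, nat_lit 0, nat_lit 0, nat_lit 0, nat_lit 0, nat_lit 0, nat_lit 0, nat_lit 0, nat_lit 0, nat_lit 0, nat_lit 0, nat_lit 0, nat_lit 0, nat_lit 0, nat_lit 0, nat_lit 0, nat_lit 0, nat_lit 0, [],
 C1.Rw.none, C1.Rw.none,
 zbF0, []⟩
noncomputable def p061_l46 : Lf2 := ⟨nat_lit 0, nat_lit 10, [nat_lit 0, nat_lit 5, nat_lit 5, nat_lit 20], false, nat_lit 280, nat_lit 336, nat_lit 0, nat_lit 160, ⟨nat_lit 254, nat_lit 746, nat_lit 0, nat_lit 6, nat_lit 155, nat_lit 746, nat_lit 236, nat_lit 0, nat_lit 0, nat_lit 0, nat_lit 0, nat_lit 0, nat_lit 42669273, nat_lit 8226228, nat_lit 16104499, nat_lit 4764231, false, false⟩,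
 nat_lit 0, nat_lit 0, nat_lit 5697, nat_lit 0, nat_lit 4011, nat_lit 3316, nat_lit 0, nat_lit 0, nat_lit 0, nat_lit 618, nat_lit 0, nat_lit 0, nat_lit 0, nat_lit 0, nat_lit 0, nat_lit 298400, nat_lit 0, nat_lit 0, [(nat_lit 12, [(nat_lit 1, nat_lit 746)])],
 ⟨p061_k28, nat_lit 0, nat_lit 0, nat_lit 66, nat_lit 0, nat_lit 0, [nat_lit 2350544400, nat_lit 3218976800, nat_lit 4466622400], [], [nat_lit 18597224418, nat_lit 19897663644, nat_lit 18773851224, nat_lit 20014118324, nat_lit 22224006337, nat_lit 23439591983, nat_lit 22234212412, nat_lit 23297618868], nat_lit 0, nat_lit 0, nat_lit 0, nat_lit 0, nat_lit 0, nat_lit 0, [], [nat_lit 42, nat_lit 40, nat_lit 40, nat_lit 80, nat_lit 13, nat_lit 238, nat_lit 30, nat_lit 6]⟩, ⟨p061_k8, nat_lit 0, nat_lit 0, nat_lit 499, nat_lit 0, nat_lit 601129, [nat_lit 1190752000, nat_lit 1587500000, nat_lit 2499868000], [], [nat_lit 5043622048, nat_lit 5161280188, nat_lit 4376411386,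 nat_lit 4687925660, nat_lit 4764193828, nat_lit 3982934280, nat_lit 5801259700, nat_lit 5030452184], nat_lit 1271250, nat_lit 1271250, nat_lit 490000, nat_lit 780000, nat_lit 0, nat_lit 1100001, [nat_lit 1100000, nat_lit 1442500, nat_lit 1271250], [nat_lit 11, nat_lit 40, nat_lit 40, nat_lit 80, nat_lit 1, nat_lit 373, nat_lit 150, nat_lit 11]⟩,
 ⟨nat_lit 5000, nat_lit 5478, ⟨.ofNat (nat_lit 339271), .ofNat (nat_lit 414199), .ofNat (nat_lit 349949), .ofNat (nat_lit 424874), .ofNat (nat_lit 349999), .ofNat (nat_lit 421423), .ofNat (nat_lit 360713), .ofNat (nat_lit 432134)⟩, ⟨.ofNat (nat_lit 521722), .ofNat (nat_lit 626629), .ofNat (nat_lit 564436), .ofNat (nat_lit 669336), .ofNat (nat_lit 514284), .ofNat (nat_lit 614284), .ofNat (nat_lit 557141), .ofNat (nat_lit 657134)⟩⟩, [⟨nat_lit 4, nat_lit 94, nat_lit 100, nat_lit 97, nat_lit 358571920⟩]⟩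
noncomputable def p061_l47 : Lf2 := ⟨nat_lit 0, nat_lit 10, [nat_lit 0, nat_lit 5, nat_lit 5, nat_lit 20], false, nat_lit 280, nat_lit 336, nat_lit 0, nat_lit 160, ⟨nat_lit 1000, nat_lit 0, nat_lit 0, nat_lit 0, nat_lit 0, nat_lit 0, nat_lit 0, nat_lit 0, nat_lit 0, nat_lit 0, nat_lit 0, nat_lit 0, nat_lit 0, nat_lit 0, nat_lit 0, nat_lit 0, false, false⟩,
 nat_lit 0, nat_lit 0, nat_lit 15327, nat_lit 0, nat_lit 5113, nat_lit 9334, nat_lit 0, nat_lit 0, nat_lit 0, nat_lit 3858, nat_lit 0, nat_lit 0, nat_lit 0, nat_lit 0, nat_lit 0, nat_lit 0, nat_lit 0, nat_lit 0, [],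
 ⟨p061_k28, nat_lit 0, nat_lit 0, nat_lit 66, nat_lit 0, nat_lit 0, [nat_lit 3282000000, nat_lit 4688000000, nat_lit 9842000000], [], [nat_lit 18807573094, nat_lit 20279446052, nat_lit 18793935192, nat_lit 20194102492, nat_lit 23189911920, nat_lit 24556176733, nat_lit 22820627099, nat_lit 24126331036], nat_lit 0, nat_lit 0, nat_lit 0, nat_lit 0, nat_lit 0, nat_lit 0, [], [nat_lit 42, nat_lit 40, nat_lit 40, nat_lit 80, nat_lit 13, nat_lit 238, nat_lit 30, nat_lit 6]⟩, ⟨p061_k29, nat_lit 0, nat_lit 0, nat_lit 519, nat_lit 0, nat_lit 653087, [nat_lit 4688000000, nat_lit 6250000000, nat_lit 9842000000], [], [nat_lit 21511844814, nat_lit 19117403128, nat_lit 15901977012, nat_lit 17511967136, nat_lit 16629032934, nat_lit 14429914532, nat_lit 19908261630, nat_lit 17738563996], nat_lit 1271250, nat_lit 1271250, nat_lit 490000, nat_lit 780000, nat_lit 0, nat_lit 1100001, [nat_lit 1100000, nat_lit 1442500, nat_lit 1271250],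 [nat_lit 11, nat_lit 40, nat_lit 40, nat_lit 80, nat_lit 1, nat_lit 373, nat_lit 150, nat_lit 11]⟩,
 zbF0, [⟨nat_lit 16, nat_lit 100, nat_lit 94, nat_lit 97, nat_lit 659317328⟩]⟩
noncomputable def p061_l48 : Lf2 := ⟨nat_lit 0, nat_lit 10, [nat_lit 0, nat_lit 5, nat_lit 5, nat_lit 20], false, nat_lit 280, nat_lit 336, nat_lit 160, nat_lit 240, ⟨nat_lit 440, nat_lit 560, nat_lit 0, nat_lit 6, nat_lit 157, nat_lit 560, nat_lit 236, nat_lit 0, nat_lit 0, nat_lit 0, nat_lit 0, nat_lit 0, nat_lit 42537348, nat_lit 8388632, nat_lit 16074020, nat_lit 4784707, false, false⟩,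
 nat_lit 0, nat_lit 0, nat_lit 6651, nat_lit 0, nat_lit 4173, nat_lit 3871, nat_lit 0, nat_lit 0, nat_lit 0, nat_lit 1133, nat_lit 0, nat_lit 0, nat_lit 0, nat_lit 0, nat_lit 0, nat_lit 224000, nat_lit 0, nat_lit 0, [(nat_lit 12, [(nat_lit 1, nat_lit 560)])],
 ⟨p061_k28, nat_lit 0, nat_lit 0, nat_lit 66, nat_lit 0, nat_lit 0, [nat_lit 2582784000, nat_lit 3585248001, nat_lit 5806864000], [], [nat_lit 18723457374, nat_lit 20049098292, nat_lit 18872114232, nat_lit 20135887532, nat_lit 22420387043, nat_lit 23603736021, nat_lit 22397940916, nat_lit 23479474525], nat_lit 0, nat_lit 0, nat_lit 0, nat_lit 0, nat_lit 0, nat_lit 0, [], [nat_lit 42, nat_lit 40, nat_lit 40, nat_lit 80, nat_lit 13, nat_lit 238, nat_lit 30, nat_lit 6]⟩, ⟨p061_k8, nat_lit 0, nat_lit 0, nat_lit 444, nat_lit 0, nat_lit 697409, [nat_lit 2062720000, nat_lit 2750000000, nat_lit 4330480000], [], [nat_lit 8712829530, nat_lit 6726782012, nat_lit 5580685189,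 nat_lit 5964743513, nat_lit 7299754325, nat_lit 6950372724, nat_lit 8524044145, nat_lit 6700439939], nat_lit 1271250, nat_lit 1271250, nat_lit 490000, nat_lit 780000, nat_lit 1100001, nat_lit 1785000, [nat_lit 1100000, nat_lit 1442500, nat_lit 1271250], [nat_lit 11, nat_lit 40, nat_lit 40, nat_lit 80, nat_lit 1, nat_lit 401, nat_lit 175, nat_lit 11]⟩,
 ⟨nat_lit 5000, nat_lit 5478, ⟨.ofNat (nat_lit 339271), .ofNat (nat_lit 414199), .ofNat (nat_lit 360625), .ofNat (nat_lit 435548), .ofNat (nat_lit 349999), .ofNat (nat_lit 421423), .ofNat (nat_lit 371424), .ofNat (nat_lit 442843)⟩, ⟨.ofNat (nat_lit 521722), .ofNat (nat_lit 626629), .ofNat (nat_lit 564436), .ofNat (nat_lit 669336), .ofNat (nat_lit 514284), .ofNat (nat_lit 614284), .ofNat (nat_lit 557141), .ofNat (nat_lit 657134)⟩⟩, [⟨nat_lit 4, nat_lit 94, nat_lit 100, nat_lit 97, nat_lit 419451829⟩]⟩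
noncomputable def p061_l49 : Lf2 := ⟨nat_lit 0, nat_lit 5, [nat_lit 4, nat_lit 5, nat_lit 5, nat_lit 20], false, nat_lit 280, nat_lit 336, nat_lit 240, nat_lit 320, ⟨nat_lit 1000, nat_lit 0, nat_lit 0, nat_lit 0, nat_lit 0, nat_lit 0, nat_lit 0, nat_lit 0, nat_lit 0, nat_lit 0, nat_lit 0, nat_lit 0, nat_lit 0, nat_lit 0, nat_lit 0, nat_lit 0, false, false⟩,
 nat_lit 0, nat_lit 0, nat_lit 12006, nat_lit 0, nat_lit 5113, nat_lit 6988, nat_lit 0, nat_lit 0, nat_lit 0, nat_lit 2829, nat_lit 0, nat_lit 0, nat_lit 0, nat_lit 0, nat_lit 0, nat_lit 0, nat_lit 0, nat_lit 0, [],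
 ⟨p061_k30, nat_lit 0, nat_lit 0, nat_lit 66, nat_lit 0, nat_lit 0, [nat_lit 3282000000, nat_lit 4688000000, nat_lit 7968000000], [], [nat_lit 18807573094, nat_lit 20279446052, nat_lit 18800754143, nat_lit 20236774272, nat_lit 23189911920, nat_lit 24556176733, nat_lit 23005269510, nat_lit 24341253884], nat_lit 0, nat_lit 0, nat_lit 0, nat_lit 0, nat_lit 0, nat_lit 0, [], [nat_lit 36, nat_lit 40, nat_lit 40, nat_lit 80, nat_lit 7, nat_lit 232, nat_lit 25, nat_lit 7]⟩, ⟨p061_k13, nat_lit 0, nat_lit 0, nat_lit 215, nat_lit 0, nat_lit 368127, [nat_lit 4688000000, nat_lit 6250000000, nat_lit 7968000000], [], [nat_lit 17010063839, nat_lit 18250544263, nat_lit 16925138203, nat_lit 18131105319, nat_lit 22040915031, nat_lit 23048853776, nat_lit 21819543327, nat_lit 22826872856], nat_lit 1271250, nat_lit 1271250, nat_lit 490000, nat_lit 631250, nat_lit 1271250, nat_lit 1271250, [nat_lit 1100000, nat_lit 1442500, nat_lit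 1271250], [nat_lit 9, nat_lit 40, nat_lit 40, nat_lit 80, nat_lit 2, nat_lit 232, nat_lit 25, nat_lit 7]⟩,
 zbF0, [⟨nat_lit 0, nat_lit 100, nat_lit 94, nat_lit 88, nat_lit 69216353⟩, ⟨nat_lit 4, nat_lit 94, nat_lit 100, nat_lit 97, nat_lit 98586046⟩, ⟨nat_lit 11, nat_lit 100, nat_lit 100, nat_lit 95, nat_lit 572536151⟩]⟩
noncomputable def p061_l50 : Lf2 := ⟨nat_lit 0, nat_lit 5, [nat_lit 4, nat_lit 5, nat_lit 5, nat_lit 20], false, nat_lit 280, nat_lit 320, nat_lit 240, nat_lit 336, ⟨nat_lit 236, nat_lit 764, nat_lit 0, nat_lit 6, nat_lit 163, nat_lit 764, nat_lit 231, nat_lit 0, nat_lit 0, nat_lit 0, nat_lit 0, nat_lit 0, nat_lit 42533006, nat_lit 8936627, nat_lit 15530367, nat_lit 4816060, false, false⟩,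
 nat_lit 0, nat_lit 0, nat_lit 3385, nat_lit 0, nat_lit 4398, nat_lit 1970, nat_lit 0, nat_lit 0, nat_lit 0, nat_lit 734, nat_lit 0, nat_lit 0, nat_lit 0, nat_lit 0, nat_lit 0, nat_lit 191000, nat_lit 0, nat_lit 0, [(nat_lit 12, [(nat_lit 0, nat_lit 764)])],
 ⟨p061_k23, nat_lit 0, nat_lit 0, nat_lit 38, nat_lit 0, nat_lit 0, [nat_lit 2580648000, nat_lit 4343889600], [], [nat_lit 18628994778, nat_lit 19293260795, nat_lit 18683899632, nat_lit 19332110032, nat_lit 21147676936, nat_lit 21800869445, nat_lit 21141728032, nat_lit 21722249602], nat_lit 0, nat_lit 0, nat_lit 0, nat_lit 0, nat_lit 0, nat_lit 0, [], [nat_lit 74, nat_lit 40, nat_lit 40, nat_lit 80, nat_lit 43, nat_lit 238, nat_lit 30, nat_lit 7]⟩, ⟨p061_k24, nat_lit 0, nat_lit 0, nat_lit 293, nat_lit 0, nat_lit 555003, [nat_lit 1106368000, nat_lit 1880448000], [], [nat_lit 3625501260, nat_lit 3857873256, nat_lit 3568323620, nat_lit 3790308624, nat_lit 5659486478,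 nat_lit 6009015937, nat_lit 5534809765, nat_lit 5875739964], nat_lit 1271250, nat_lit 1271250, nat_lit 631250, nat_lit 780000, nat_lit 1271250, nat_lit 1271250, [nat_lit 1100000, nat_lit 1785000], [nat_lit 39, nat_lit 40, nat_lit 40, nat_lit 80, nat_lit 7, nat_lit 238, nat_lit 30, nat_lit 7]⟩,
 ⟨nat_lit 5244, nat_lit 5478, ⟨.ofNat (nat_lit 376737), .ofNat (nat_lit 414204), .ofNat (nat_lit 398094), .ofNat (nat_lit 435559), .ofNat (nat_lit 381227), .ofNat (nat_lit 417813), .ofNat (nat_lit 402612), .ofNat (nat_lit 439196)⟩, ⟨.ofNat (nat_lit 521722), .ofNat (nat_lit 596655), .ofNat (nat_lit 564436), .ofNat (nat_lit 639368), .ofNat (nat_lit 518028), .ofNat (nat_lit 591199), .ofNat (nat_lit 560799), .ofNat (nat_lit 633969)⟩⟩, [⟨nat_lit 4, nat_lit 91, nat_lit 100, nat_lit 96, nat_lit 141402599⟩, ⟨nat_lit 11, nat_lit 100, nat_lit 89, nat_lit 99, nat_lit 193477221⟩]⟩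
noncomputable def p061_l51 : Lf2 := ⟨nat_lit 0, nat_lit 5, [nat_lit 4, nat_lit 5, nat_lit 5, nat_lit 20], false, nat_lit 280, nat_lit 320, nat_lit 240, nat_lit 336, ⟨nat_lit 142, nat_lit 858, nat_lit 0, nat_lit 6, nat_lit 165, nat_lit 858, nat_lit 229, nat_lit 0, nat_lit 0, nat_lit 0, nat_lit 0, nat_lit 0, nat_lit 42576651, nat_lit 9081408, nat_lit 15341941, nat_lit 4819800, false, false⟩,
 nat_lit 0, nat_lit 0, nat_lit 2153, nat_lit 0, nat_lit 3945, nat_lit 1253, nat_lit 0, nat_lit 0, nat_lit 0, nat_lit 359, nat_lit 0, nat_lit 0, nat_lit 0, nat_lit 0, nat_lit 0, nat_lit 343200, nat_lit 0, nat_lit 0, [(nat_lit 12, [(nat_lit 1, nat_lit 858)])],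
 ⟨p061_k31, nat_lit 0, nat_lit 0, nat_lit 50, nat_lit 0, nat_lit 0, [nat_lit 2210701200, nat_lit 2758872800, nat_lit 3142667200], [], [nat_lit 19224795688, nat_lit 19855011280, nat_lit 19303936330, nat_lit 19919281580, nat_lit 21555129093, nat_lit 22120946245, nat_lit 21579935755, nat_lit 22132953430], nat_lit 0, nat_lit 0, nat_lit 0, nat_lit 0, nat_lit 0, nat_lit 0, [], [nat_lit 59, nat_lit 40, nat_lit 40, nat_lit 80, nat_lit 3, nat_lit 238, nat_lit 30, nat_lit 8]⟩, ⟨p061_k13, nat_lit 0, nat_lit 0, nat_lit 362, nat_lit 0, nat_lit 676829, [nat_lit 665696000, nat_lit 887500000, nat_lit 1131456000], [], [nat_lit 2078238305, nat_lit 2194025146, nat_lit 2038094628, nat_lit 2154314441, nat_lit 3449847596, nat_lit 3666984799, nat_lit 3367112809, nat_lit 3578842369], nat_lit 1271250, nat_lit 1271250, nat_lit 631250, nat_lit 780000, nat_lit 1271250, nat_lit 1271250, [nat_lit 1100000, nat_lit 1442500, nat_lit 1271250],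 [nat_lit 9, nat_lit 40, nat_lit 40, nat_lit 80, nat_lit 2, nat_lit 238, nat_lit 30, nat_lit 7]⟩,
 ⟨nat_lit 5000, nat_lit 5245, ⟨.ofNat (nat_lit 381226), .ofNat (nat_lit 417811), .ofNat (nat_lit 402610), .ofNat (nat_lit 439194), .ofNat (nat_lit 385712), .ofNat (nat_lit 421425), .ofNat (nat_lit 407139), .ofNat (nat_lit 442852)⟩, ⟨.ofNat (nat_lit 518028), .ofNat (nat_lit 591199), .ofNat (nat_lit 560799), .ofNat (nat_lit 633970), .ofNat (nat_lit 514284), .ofNat (nat_lit 585713), .ofNat (nat_lit 557141), .ofNat (nat_lit 628570)⟩⟩, [⟨nat_lit 16, nat_lit 97, nat_lit 84, nat_lit 100, nat_lit 71798351⟩, ⟨nat_lit 11, nat_lit 100, nat_lit 89, nat_lit 99, nat_lit 127051273⟩]⟩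
noncomputable def p061_l52 : Lf2 := ⟨nat_lit 0, nat_lit 5, [nat_lit 4, nat_lit 5, nat_lit 5, nat_lit 20], false, nat_lit 320, nat_lit 336, nat_lit 240, nat_lit 300, ⟨nat_lit 1000, nat_lit 0, nat_lit 0, nat_lit 0, nat_lit 0, nat_lit 0, nat_lit 0, nat_lit 0, nat_lit 0, nat_lit 0, nat_lit 0, nat_lit 0, nat_lit 0, nat_lit 0, nat_lit 0, nat_lit 0, false, false⟩,
 nat_lit 0, nat_lit 0, nat_lit 13135, nat_lit 0, nat_lit 4998, nat_lit 7645, nat_lit 0, nat_lit 0, nat_lit 0, nat_lit 3808, nat_lit 0, nat_lit 0, nat_lit 0, nat_lit 0, nat_lit 0, nat_lit 0, nat_lit 0, nat_lit 0, [],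
 ⟨p061_k30, nat_lit 0, nat_lit 0, nat_lit 55, nat_lit 0, nat_lit 0, [nat_lit 3282000000, nat_lit 4688000000, nat_lit 7968000000], [], [nat_lit 21568788136, nat_lit 22200864787, nat_lit 21505150432, nat_lit 22122101002, nat_lit 22917923744, nat_lit 23578331439, nat_lit 22748257816, nat_lit 23392309353], nat_lit 0, nat_lit 0, nat_lit 0, nat_lit 0, nat_lit 0, nat_lit 0, [], [nat_lit 36, nat_lit 40, nat_lit 40, nat_lit 80, nat_lit 7, nat_lit 238, nat_lit 30, nat_lit 7]⟩, ⟨p061_k13, nat_lit 0, nat_lit 0, nat_lit 292, nat_lit 0, nat_lit 555003, [nat_lit 4688000000, nat_lit 6250000000, nat_lit 7968000000], [], [nat_lit 16809365780, nat_lit 17935840270, nat_lit 16704135250, nat_lit 17796785280, nat_lit 20246235849, nat_lit 21182881548, nat_lit 20040924595, nat_lit 20949494745], nat_lit 1271250, nat_lit 1271250, nat_lit 631250, nat_lit 780000, nat_lit 1271250, nat_lit 1271250, [nat_lit 1100000, nat_lit 1442500, nat_lit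 1271250], [nat_lit 9, nat_lit 40, nat_lit 40, nat_lit 80, nat_lit 2, nat_lit 238, nat_lit 30, nat_lit 7]⟩,
 zbF0, [⟨nat_lit 4, nat_lit 91, nat_lit 100, nat_lit 96, nat_lit 822789724⟩, ⟨nat_lit 11, nat_lit 100, nat_lit 82, nat_lit 93, nat_lit 668410826⟩]⟩
noncomputable def p061_l53 : Lf2 := ⟨nat_lit 0, nat_lit 5, [nat_lit 4, nat_lit 5, nat_lit 5, nat_lit 20], false, nat_lit 320, nat_lit 328, nat_lit 240, nat_lit 300, ⟨nat_lit 215, nat_lit 785, nat_lit 0, nat_lit 6, nat_lit 165, nat_lit 785, nat_lit 247, nat_lit 0, nat_lit 0, nat_lit 0, nat_lit 0, nat_lit 0, nat_lit 41183847, nat_lit 8900013, nat_lit 16916140, nat_lit 4917688, false, false⟩,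
 nat_lit 0, nat_lit 0, nat_lit 2921, nat_lit 0, nat_lit 4030, nat_lit 1700, nat_lit 0, nat_lit 0, nat_lit 0, nat_lit 551, nat_lit 0, nat_lit 0, nat_lit 0, nat_lit 0, nat_lit 0, nat_lit 314000, nat_lit 0, nat_lit 0, [(nat_lit 12, [(nat_lit 1, nat_lit 785)])],
 ⟨p061_k31, nat_lit 0, nat_lit 0, nat_lit 55, nat_lit 0, nat_lit 0, [nat_lit 2301849001, nat_lit 2923006000, nat_lit 3407044000], [], [nat_lit 21611924696, nat_lit 22183090431, nat_lit 21628370971, nat_lit 22186549421, nat_lit 22167518821, nat_lit 22779330564, nat_lit 22169309486, nat_lit 22714781831], nat_lit 0, nat_lit 0, nat_lit 0, nat_lit 0, nat_lit 0, nat_lit 0, [], [nat_lit 59, nat_lit 40, nat_lit 40, nat_lit 80, nat_lit 3, nat_lit 238, nat_lit 30, nat_lit 7]⟩, ⟨p061_k13, nat_lit 0, nat_lit 0, nat_lit 339, nat_lit 0, nat_lit 676829, [nat_lit 1007920000, nat_lit 1343750000, nat_lit 1713120000], [], [nat_lit 3854942610, nat_lit 4021705705, nat_lit 3808527660,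 nat_lit 3976264005, nat_lit 4413076643, nat_lit 4578561498, nat_lit 4362249800, nat_lit 4522500450], nat_lit 1271250, nat_lit 1271250, nat_lit 631250, nat_lit 780000, nat_lit 1271250, nat_lit 1271250, [nat_lit 1100000, nat_lit 1442500, nat_lit 1271250], [nat_lit 9, nat_lit 40, nat_lit 40, nat_lit 80, nat_lit 2, nat_lit 238, nat_lit 30, nat_lit 7]⟩,
 ⟨nat_lit 5000, nat_lit 5245, ⟨.ofNat (nat_lit 381226), .ofNat (nat_lit 417811), .ofNat (nat_lit 402610), .ofNat (nat_lit 439194), .ofNat (nat_lit 385712), .ofNat (nat_lit 421425), .ofNat (nat_lit 407139), .ofNat (nat_lit 442852)⟩, ⟨.ofNat (nat_lit 591199), .ofNat (nat_lit 605833), .ofNat (nat_lit 633970), .ofNat (nat_lit 648604), .ofNat (nat_lit 585713), .ofNat (nat_lit 599999), .ofNat (nat_lit 628570), .ofNat (nat_lit 642856)⟩⟩, [⟨nat_lit 16, nat_lit 97, nat_lit 84, nat_lit 100, nat_lit 291422511⟩, ⟨nat_lit 11, nat_lit 100, nat_lit 84, nat_lit 91, nat_lit 127974718⟩]⟩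
noncomputable def p061_l54 : Lf2 := ⟨nat_lit 0, nat_lit 10, [nat_lit 0, nat_lit 5, nat_lit 5, nat_lit 20], false, nat_lit 280, nat_lit 336, nat_lit 240, nat_lit 336, ⟨nat_lit 679, nat_lit 321, nat_lit 0, nat_lit 6, nat_lit 157, nat_lit 321, nat_lit 236, nat_lit 0, nat_lit 0, nat_lit 0, nat_lit 0, nat_lit 0, nat_lit 42537348, nat_lit 8388632, nat_lit 16074020, nat_lit 4784707, false, false⟩,
 nat_lit 0, nat_lit 0, nat_lit 8288, nat_lit 0, nat_lit 4835, nat_lit 4824, nat_lit 0, nat_lit 0, nat_lit 0, nat_lit 1373, nat_lit 0, nat_lit 0, nat_lit 0, nat_lit 0, nat_lit 0, nat_lit 80250, nat_lit 0, nat_lit 0, [(nat_lit 12, [(nat_lit 0, nat_lit 321)])],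
 ⟨p061_k28, nat_lit 0, nat_lit 0, nat_lit 66, nat_lit 0, nat_lit 0, [nat_lit 2987322001, nat_lit 4064361200, nat_lit 7765001600], [], [nat_lit 18694807731, nat_lit 20123433341, nat_lit 18729167641, nat_lit 20088997141, nat_lit 22946094800, nat_lit 24274497458, nat_lit 22642146429, nat_lit 23912373785], nat_lit 0, nat_lit 0, nat_lit 0, nat_lit 0, nat_lit 0, nat_lit 0, [], [nat_lit 42, nat_lit 40, nat_lit 40, nat_lit 80, nat_lit 13, nat_lit 238, nat_lit 30, nat_lit 6]⟩, ⟨p061_k8, nat_lit 0, nat_lit 0, nat_lit 212, nat_lit 0, nat_lit 268395, [nat_lit 3183152000, nat_lit 4243750000, nat_lit 6682718000], [], [nat_lit 12606783527, nat_lit 13289467027, nat_lit 12330265563, nat_lit 12975078539, nat_lit 16345556610, nat_lit 16934052623, nat_lit 15813887481, nat_lit 16372000863], nat_lit 1271250, nat_lit 1271250, nat_lit 490000, nat_lit 780000, nat_lit 1271250, nat_lit 1271250, [nat_lit 1100000, nat_lit 1442500, nat_lit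 1271250], [nat_lit 11, nat_lit 40, nat_lit 40, nat_lit 80, nat_lit 1, nat_lit 428, nat_lit 200, nat_lit 12]⟩,
 ⟨nat_lit 5000, nat_lit 5478, ⟨.ofNat (nat_lit 339271), .ofNat (nat_lit 414199), .ofNat (nat_lit 360625), .ofNat (nat_lit 435548), .ofNat (nat_lit 349999), .ofNat (nat_lit 421423), .ofNat (nat_lit 371424), .ofNat (nat_lit 442843)⟩, ⟨.ofNat (nat_lit 521722), .ofNat (nat_lit 626629), .ofNat (nat_lit 564436), .ofNat (nat_lit 669336), .ofNat (nat_lit 514284), .ofNat (nat_lit 614284), .ofNat (nat_lit 557141), .ofNat (nat_lit 657134)⟩⟩, [⟨nat_lit 0, nat_lit 100, nat_lit 94, nat_lit 88, nat_lit 103247762⟩, ⟨nat_lit 4, nat_lit 94, nat_lit 100, nat_lit 97, nat_lit 155484744⟩, ⟨nat_lit 11, nat_lit 100, nat_lit 94, nat_lit 95, nat_lit 401075391⟩]⟩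
noncomputable def b_V_700_600_20_10 : St := ⟨true, nat_lit 0, nat_lit 1, nat_lit 1, nat_lit 120, nat_lit 280, nat_lit 300, nat_lit 240, nat_lit 280, nat_lit 80, nat_lit 120, nat_lit 80, nat_lit 120, nat_lit 240, nat_lit 336, nat_lit 0, nat_lit 364, nat_lit 0, nat_lit 40, nat_lit 0, nat_lit 0, nat_lit 0, nat_lit 0⟩
theorem d_V_700_600_20_10 (h : EB TB.env) : Dead b_V_700_600_20_10 := chkB_sound0 h (T :=
(.spl (nat_lit 4) (nat_lit 280)
(.leaf p061_l39)
(.trX (nat_lit 23) (nat_lit 100) (nat_lit 80) (nat_lit 100) (nat_lit 336) (.spl (nat_lit 1) (nat_lit 260)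
(.spl (nat_lit 6) (nat_lit 28)
(.spl (nat_lit 4) (nat_lit 320)
(.leaf p061_l40)
(.trX (nat_lit 23) (nat_lit 87) (nat_lit 95) (nat_lit 100) (nat_lit 300) (.spl (nat_lit 2) (nat_lit 100)
(.trX (nat_lit 23) (nat_lit 87) (nat_lit 100) (nat_lit 94) (nat_lit 280) (.spl (nat_lit 1) (nat_lit 250)
(.leaf p061_l41)
(.spl (nat_lit 5) (nat_lit 160)
(.leaf p061_l42)
(.leaf p061_l43))))
(.leaf p061_l44))))
(.leaf p061_l45))
(.spl (nat_lit 5) (nat_lit 160)
(.spl (nat_lit 1) (nat_lit 270)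
(.leaf p061_l46)
(.leaf p061_l47))
(.spl (nat_lit 5) (nat_lit 240)
(.leaf p061_l48)
(.spl (nat_lit 6) (nat_lit 20)
(.spl (nat_lit 2) (nat_lit 100)
(.trX (nat_lit 23) (nat_lit 100) (nat_lit 88) (nat_lit 94) (nat_lit 320) (.leaf p061_l49))
(.spl (nat_lit 4) (nat_lit 320)
(.spl (nat_lit 0) (nat_lit 290)
(.leaf p061_l50)
(.leaf p061_l51))
(.trX (nat_lit 23) (nat_lit 87) (nat_lit 95) (nat_lit 100) (nat_lit 300) (.spl (nat_lit 0) (nat_lit 290)
(.leaf p061_l52)
(.trX (nat_lit 16) (nat_lit 97) (nat_lit 84) (nat_lit 100) (nat_lit 328) (.leaf p061_l53))))))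
(.leaf p061_l54)))))))) (by decide +kernel)
noncomputable def p061_l55 : Lf2 := ⟨nat_lit 0, nat_lit 10, [nat_lit 0, nat_lit 5, nat_lit 5, nat_lit 20], true, nat_lit 240, nat_lit 280, nat_lit 0, nat_lit 364, ⟨nat_lit 0, nat_lit 1000, nat_lit 0, nat_lit 6, nat_lit 156, nat_lit 1000, nat_lit 199, nat_lit 0, nat_lit 0, nat_lit 0, nat_lit 0, nat_lit 0, nat_lit 45674080, nat_lit 8656499, nat_lit 12669421, nat_lit 4512218, false, false⟩,
 nat_lit 0, nat_lit 0, nat_lit 0, nat_lit 2862, nat_lit 4204, nat_lit 0, nat_lit 0, nat_lit 0, nat_lit 0, nat_lit 0, nat_lit 0, nat_lit 0, nat_lit 0, nat_lit 0, nat_lit 0, nat_lit 250000, nat_lit 0, nat_lit 0, [(nat_lit 15, [(nat_lit 0, nat_lit 1000)])],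
 ⟨p061_k1, nat_lit 0, nat_lit 0, nat_lit 41, nat_lit 0, nat_lit 0, [nat_lit 2318400000, nat_lit 3071600000], [], [nat_lit 17384194240, nat_lit 18854148496, nat_lit 17574498616, nat_lit 18973555696, nat_lit 19769251616, nat_lit 21238640464, nat_lit 19850364136, nat_lit 21133492024], nat_lit 0, nat_lit 0, nat_lit 0, nat_lit 0, nat_lit 0, nat_lit 0, [], [nat_lit 74, nat_lit 40, nat_lit 40, nat_lit 80, nat_lit 43, nat_lit 238, nat_lit 30, nat_lit 7]⟩, C1.Rw.none,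
 ⟨nat_lit 4472, nat_lit 5000, ⟨.ofNat (nat_lit 328559), .ofNat (nat_lit 399984), .ofNat (nat_lit 371392), .ofNat (nat_lit 442816), .ofNat (nat_lit 339186), .ofNat (nat_lit 407160), .ofNat (nat_lit 382295), .ofNat (nat_lit 450269)⟩, ⟨.ofNat (nat_lit 442856), .ofNat (nat_lit 514284), .ofNat (nat_lit 485713), .ofNat (nat_lit 557141), .ofNat (nat_lit 438578), .ofNat (nat_lit 506556), .ofNat (nat_lit 481711), .ofNat (nat_lit 549689)⟩⟩, [⟨nat_lit 0, nat_lit 100, nat_lit 88, nat_lit 81, nat_lit 101813076⟩]⟩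
noncomputable def p061_l56 : Lf2 := ⟨nat_lit 0, nat_lit 10, [nat_lit 0, nat_lit 5, nat_lit 5, nat_lit 20], true, nat_lit 280, nat_lit 300, nat_lit 0, nat_lit 336, ⟨nat_lit 0, nat_lit 1000, nat_lit 0, nat_lit 6, nat_lit 156, nat_lit 1000, nat_lit 215, nat_lit 0, nat_lit 0, nat_lit 0, nat_lit 0, nat_lit 0, nat_lit 44299405, nat_lit 8523246, nat_lit 14177349, nat_lit 4641660, false, false⟩,
 nat_lit 0, nat_lit 0, nat_lit 0, nat_lit 2835, nat_lit 4095, nat_lit 0, nat_lit 0, nat_lit 0, nat_lit 0, nat_lit 0, nat_lit 0, nat_lit 0, nat_lit 0, nat_lit 0, nat_lit 0, nat_lit 250000, nat_lit 0, nat_lit 0, [(nat_lit 15, [(nat_lit 0, nat_lit 1000)])],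
 ⟨p061_k1, nat_lit 0, nat_lit 0, nat_lit 48, nat_lit 0, nat_lit 0, [nat_lit 2318400000, nat_lit 3071600000], [], [nat_lit 19823620380, nat_lit 21158109520, nat_lit 19924692980, nat_lit 21177148480, nat_lit 21002080220, nat_lit 22372048890, nat_lit 21049538655, nat_lit 22240053055], nat_lit 0, nat_lit 0, nat_lit 0, nat_lit 0, nat_lit 0, nat_lit 0, [], [nat_lit 74, nat_lit 40, nat_lit 40, nat_lit 80, nat_lit 43, nat_lit 238, nat_lit 30, nat_lit 7]⟩, C1.Rw.none,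
 ⟨nat_lit 4472, nat_lit 5000, ⟨.ofNat (nat_lit 328559), .ofNat (nat_lit 399984), .ofNat (nat_lit 371392), .ofNat (nat_lit 442816), .ofNat (nat_lit 339186), .ofNat (nat_lit 407160), .ofNat (nat_lit 382295), .ofNat (nat_lit 450269)⟩, ⟨.ofNat (nat_lit 514284), .ofNat (nat_lit 549998), .ofNat (nat_lit 535713), .ofNat (nat_lit 571427), .ofNat (nat_lit 506556), .ofNat (nat_lit 540545), .ofNat (nat_lit 528122), .ofNat (nat_lit 562111)⟩⟩, [⟨nat_lit 0, nat_lit 100, nat_lit 88, nat_lit 81, nat_lit 104620450⟩, ⟨nat_lit 16, nat_lit 100, nat_lit 100, nat_lit 100, nat_lit 16518332⟩]⟩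
noncomputable def p061_l57 : Lf2 := ⟨nat_lit 0, nat_lit 5, [nat_lit 4, nat_lit 5, nat_lit 5, nat_lit 20], true, nat_lit 280, nat_lit 300, nat_lit 0, nat_lit 336, ⟨nat_lit 0, nat_lit 1000, nat_lit 0, nat_lit 6, nat_lit 156, nat_lit 1000, nat_lit 224, nat_lit 0, nat_lit 0, nat_lit 0, nat_lit 0, nat_lit 0, nat_lit 43587747, nat_lit 8448596, nat_lit 14963657, nat_lit 4701483, false, false⟩,
 nat_lit 0, nat_lit 0, nat_lit 0, nat_lit 2318, nat_lit 4095, nat_lit 0, nat_lit 0, nat_lit 0, nat_lit 0, nat_lit 0, nat_lit 0, nat_lit 0, nat_lit 0, nat_lit 0, nat_lit 0, nat_lit 250000, nat_lit 0, nat_lit 0, [(nat_lit 15, [(nat_lit 0, nat_lit 1000)])],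
 ⟨p061_k32, nat_lit 0, nat_lit 0, nat_lit 48, nat_lit 0, nat_lit 0, [nat_lit 2318400000, nat_lit 2724800000], [], [nat_lit 19823620380, nat_lit 21158109520, nat_lit 19924692980, nat_lit 21177148480, nat_lit 21002080220, nat_lit 22372048890, nat_lit 21049538655, nat_lit 22240053055], nat_lit 0, nat_lit 0, nat_lit 0, nat_lit 0, nat_lit 0, nat_lit 0, [], [nat_lit 49, nat_lit 40, nat_lit 40, nat_lit 80, nat_lit 16, nat_lit 238, nat_lit 30, nat_lit 8]⟩, C1.Rw.none,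
 ⟨nat_lit 4472, nat_lit 5000, ⟨.ofNat (nat_lit 328559), .ofNat (nat_lit 399984), .ofNat (nat_lit 371392), .ofNat (nat_lit 442816), .ofNat (nat_lit 339186), .ofNat (nat_lit 407160), .ofNat (nat_lit 382295), .ofNat (nat_lit 450269)⟩, ⟨.ofNat (nat_lit 535713), .ofNat (nat_lit 571427), .ofNat (nat_lit 557141), .ofNat (nat_lit 592856), .ofNat (nat_lit 528122), .ofNat (nat_lit 562111), .ofNat (nat_lit 549689), .ofNat (nat_lit 583678)⟩⟩, [⟨nat_lit 0, nat_lit 100, nat_lit 88, nat_lit 81, nat_lit 103506928⟩]⟩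
noncomputable def p061_l58 : Lf2 := ⟨nat_lit 0, nat_lit 10, [nat_lit 0, nat_lit 5, nat_lit 5, nat_lit 20], true, nat_lit 280, nat_lit 300, nat_lit 0, nat_lit 336, ⟨nat_lit 0, nat_lit 1000, nat_lit 0, nat_lit 6, nat_lit 156, nat_lit 1000, nat_lit 224, nat_lit 0, nat_lit 0, nat_lit 0, nat_lit 0, nat_lit 0, nat_lit 43587747, nat_lit 8448596, nat_lit 14963657, nat_lit 4701483, false, false⟩,
 nat_lit 0, nat_lit 0, nat_lit 0, nat_lit 3652, nat_lit 4032, nat_lit 0, nat_lit 0, nat_lit 0, nat_lit 0, nat_lit 0, nat_lit 0, nat_lit 0, nat_lit 0, nat_lit 0, nat_lit 0, nat_lit 250000, nat_lit 0, nat_lit 0, [(nat_lit 15, [(nat_lit 0, nat_lit 1000)])],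
 ⟨p061_k1, nat_lit 0, nat_lit 0, nat_lit 48, nat_lit 0, nat_lit 0, [nat_lit 2318400000, nat_lit 3071600000], [], [nat_lit 19855044528, nat_lit 21158750640, nat_lit 19967653688, nat_lit 21210967888, nat_lit 21025372832, nat_lit 22317184584, nat_lit 21084935268, nat_lit 22264892248], nat_lit 0, nat_lit 0, nat_lit 0, nat_lit 0, nat_lit 0, nat_lit 0, [], [nat_lit 74, nat_lit 40, nat_lit 40, nat_lit 80, nat_lit 43, nat_lit 238, nat_lit 30, nat_lit 7]⟩, C1.Rw.none,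
 ⟨nat_lit 4472, nat_lit 5000, ⟨.ofNat (nat_lit 328559), .ofNat (nat_lit 399984), .ofNat (nat_lit 371392), .ofNat (nat_lit 442816), .ofNat (nat_lit 339186), .ofNat (nat_lit 407160), .ofNat (nat_lit 382295), .ofNat (nat_lit 450269)⟩, ⟨.ofNat (nat_lit 535713), .ofNat (nat_lit 571427), .ofNat (nat_lit 557141), .ofNat (nat_lit 592856), .ofNat (nat_lit 528122), .ofNat (nat_lit 562111), .ofNat (nat_lit 549689), .ofNat (nat_lit 583678)⟩⟩, [⟨nat_lit 0, nat_lit 100, nat_lit 88, nat_lit 81, nat_lit 41153504⟩, ⟨nat_lit 0, nat_lit 100, nat_lit 87, nat_lit 95, nat_lit 61323807⟩]⟩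
noncomputable def p061_l59 : Lf2 := ⟨nat_lit 0, nat_lit 10, [nat_lit 0, nat_lit 5, nat_lit 5, nat_lit 20], true, nat_lit 300, nat_lit 320, nat_lit 0, nat_lit 320, ⟨nat_lit 0, nat_lit 1000, nat_lit 0, nat_lit 6, nat_lit 152, nat_lit 1000, nat_lit 238, nat_lit 0, nat_lit 0, nat_lit 0, nat_lit 0, nat_lit 0, nat_lit 42699906, nat_lit 7995877, nat_lit 16304217, nat_lit 4746824, false, false⟩,
 nat_lit 0, nat_lit 0, nat_lit 0, nat_lit 2900, nat_lit 3990, nat_lit 0, nat_lit 0, nat_lit 0, nat_lit 0, nat_lit 0, nat_lit 0, nat_lit 0, nat_lit 0, nat_lit 0, nat_lit 0, nat_lit 250000, nat_lit 0, nat_lit 0, [(nat_lit 15, [(nat_lit 0, nat_lit 1000)])],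
 ⟨p061_k1, nat_lit 0, nat_lit 0, nat_lit 55, nat_lit 0, nat_lit 0, [nat_lit 2318400000, nat_lit 3071600000], [], [nat_lit 21040901240, nat_lit 22280608380, nat_lit 21108533010, nat_lit 22282892860, nat_lit 22205808520, nat_lit 23480682920, nat_lit 22220771860, nat_lit 23332271560], nat_lit 0, nat_lit 0, nat_lit 0, nat_lit 0, nat_lit 0, nat_lit 0, [], [nat_lit 74, nat_lit 40, nat_lit 40, nat_lit 80, nat_lit 43, nat_lit 238, nat_lit 30, nat_lit 7]⟩, C1.Rw.none,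
 ⟨nat_lit 4472, nat_lit 5000, ⟨.ofNat (nat_lit 328559), .ofNat (nat_lit 399984), .ofNat (nat_lit 349976), .ofNat (nat_lit 421400), .ofNat (nat_lit 339186), .ofNat (nat_lit 407160), .ofNat (nat_lit 360741), .ofNat (nat_lit 428715)⟩, ⟨.ofNat (nat_lit 571427), .ofNat (nat_lit 607141), .ofNat (nat_lit 592856), .ofNat (nat_lit 628570), .ofNat (nat_lit 562111), .ofNat (nat_lit 596101), .ofNat (nat_lit 583678), .ofNat (nat_lit 617667)⟩⟩, [⟨nat_lit 16, nat_lit 94, nat_lit 88, nat_lit 100, nat_lit 263692298⟩]⟩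
noncomputable def p061_l60 : Lf2 := ⟨nat_lit 0, nat_lit 10, [nat_lit 0, nat_lit 5, nat_lit 5, nat_lit 20], false, nat_lit 300, nat_lit 320, nat_lit 0, nat_lit 160, ⟨nat_lit 1000, nat_lit 0, nat_lit 0, nat_lit 0, nat_lit 0, nat_lit 0, nat_lit 0, nat_lit 0, nat_lit 0, nat_lit 0, nat_lit 0, nat_lit 0, nat_lit 0, nat_lit 0, nat_lit 0, nat_lit 0, false, false⟩,
 nat_lit 0, nat_lit 0, nat_lit 20420, nat_lit 0, nat_lit 4875, nat_lit 11886, nat_lit 0, nat_lit 0, nat_lit 0, nat_lit 3218, nat_lit 0, nat_lit 0, nat_lit 0, nat_lit 0, nat_lit 0, nat_lit 0, nat_lit 0, nat_lit 0, [],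
 ⟨p061_k33, nat_lit 0, nat_lit 0, nat_lit 0, nat_lit 0, nat_lit 0, [nat_lit 3282000000, nat_lit 4688000000, nat_lit 7968000000], [], [nat_lit 21677295500, nat_lit 22355603188, nat_lit 21626095188, nat_lit 22288323875, nat_lit 22961466000, nat_lit 23664861250, nat_lit 22874911375, nat_lit 23499248313], nat_lit 0, nat_lit 0, nat_lit 0, nat_lit 0, nat_lit 0, nat_lit 0, [], [nat_lit 36, nat_lit 40, nat_lit 40, nat_lit 80]⟩, ⟨p061_k8, nat_lit 0, nat_lit 0, nat_lit 366, nat_lit 0, nat_lit 362930, [nat_lit 4688000000, nat_lit 6250000000, nat_lit 9842000000], [], [nat_lit 21129072500, nat_lit 21303292144, nat_lit 16458639414, nat_lit 20411463944, nat_lit 19235730544, nat_lit 13634976028, nat_lit 20953030700, nat_lit 15389740856], nat_lit 1271250, nat_lit 1271250, nat_lit 490000, nat_lit 631250, nat_lit 0, nat_lit 1100001, [nat_lit 1100000, nat_lit 1442500, nat_lit 1271250], [nat_lit 11, nat_lit 40, nat_lit 40, nat_lit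 80, nat_lit 1, nat_lit 373, nat_lit 150, nat_lit 11]⟩,
 zbF0, [⟨nat_lit 16, nat_lit 95, nat_lit 95, nat_lit 100, nat_lit 616979090⟩]⟩
noncomputable def p061_l61 : Lf2 := ⟨nat_lit 0, nat_lit 10, [nat_lit 0, nat_lit 5, nat_lit 5, nat_lit 20], false, nat_lit 300, nat_lit 320, nat_lit 160, nat_lit 300, ⟨nat_lit 413, nat_lit 587, nat_lit 0, nat_lit 6, nat_lit 152, nat_lit 587, nat_lit 239, nat_lit 0, nat_lit 0, nat_lit 0, nat_lit 0, nat_lit 0, nat_lit 42576728, nat_lit 8034169, nat_lit 16389103, nat_lit 4758903, false, false⟩,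
 nat_lit 0, nat_lit 0, nat_lit 6276, nat_lit 0, nat_lit 4300, nat_lit 3653, nat_lit 0, nat_lit 0, nat_lit 0, nat_lit 799, nat_lit 0, nat_lit 0, nat_lit 0, nat_lit 0, nat_lit 0, nat_lit 146750, nat_lit 0, nat_lit 0, [(nat_lit 15, [(nat_lit 0, nat_lit 587)])],
 ⟨p061_k33, nat_lit 0, nat_lit 0, nat_lit 0, nat_lit 0, nat_lit 0, [nat_lit 2716366800, nat_lit 3332030001, nat_lit 5093813200], [], [nat_lit 21324253600, nat_lit 21961472650, nat_lit 21328289800, nat_lit 21950817325, nat_lit 22529173200, nat_lit 23130912400, nat_lit 22505479100, nat_lit 23093634450], nat_lit 0, nat_lit 0, nat_lit 0, nat_lit 0, nat_lit 0, nat_lit 0, [], [nat_lit 36, nat_lit 40, nat_lit 40, nat_lit 80]⟩, ⟨p061_k8, nat_lit 0, nat_lit 0, nat_lit 233, nat_lit 0, nat_lit 362930, [nat_lit 1936144000, nat_lit 2581250000, nat_lit 4064746000], [], [nat_lit 8156915706, nat_lit 6327372581, nat_lit 6296402623, nat_lit 6187800495, nat_lit 10085316058,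 nat_lit 9177526973, nat_lit 10637265672, nat_lit 8964322610], nat_lit 1271250, nat_lit 1271250, nat_lit 490000, nat_lit 631250, nat_lit 1100001, nat_lit 2298750, [nat_lit 1100000, nat_lit 1442500, nat_lit 1271250], [nat_lit 11, nat_lit 40, nat_lit 40, nat_lit 80, nat_lit 1, nat_lit 401, nat_lit 175, nat_lit 11]⟩,
 ⟨nat_lit 4743, nat_lit 5000, ⟨.ofNat (nat_lit 349996), .ofNat (nat_lit 385710), .ofNat (nat_lit 371422), .ofNat (nat_lit 407135), .ofNat (nat_lit 355361), .ofNat (nat_lit 390210), .ofNat (nat_lit 376847), .ofNat (nat_lit 411695)⟩, ⟨.ofNat (nat_lit 571427), .ofNat (nat_lit 607141), .ofNat (nat_lit 592856), .ofNat (nat_lit 628570), .ofNat (nat_lit 566807), .ofNat (nat_lit 601657), .ofNat (nat_lit 588295), .ofNat (nat_lit 623145)⟩⟩, [⟨nat_lit 16, nat_lit 94, nat_lit 88, nat_lit 100, nat_lit 214196867⟩, ⟨nat_lit 23, nat_lit 91, nat_lit 100, nat_lit 91, nat_lit 192705849⟩]⟩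
noncomputable def p061_l62 : Lf2 := ⟨nat_lit 0, nat_lit 10, [nat_lit 0, nat_lit 5, nat_lit 5, nat_lit 20], false, nat_lit 300, nat_lit 320, nat_lit 0, nat_lit 160, ⟨nat_lit 190, nat_lit 810, nat_lit 0, nat_lit 6, nat_lit 167, nat_lit 810, nat_lit 239, nat_lit 0, nat_lit 0, nat_lit 0, nat_lit 0, nat_lit 0, nat_lit 41711095, nat_lit 9109315, nat_lit 16179590, nat_lit 4890383, false, false⟩,
 nat_lit 0, nat_lit 0, nat_lit 2729, nat_lit 0, nat_lit 3728, nat_lit 1588, nat_lit 0, nat_lit 0, nat_lit 0, nat_lit 379, nat_lit 0, nat_lit 0, nat_lit 0, nat_lit 0, nat_lit 0, nat_lit 202500, nat_lit 0, nat_lit 0, [(nat_lit 15, [(nat_lit 0, nat_lit 810)])],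
 ⟨p061_k34, nat_lit 0, nat_lit 0, nat_lit 0, nat_lit 0, nat_lit 0, [nat_lit 2066045000, nat_lit 2514601000, nat_lit 4001916000], [], [nat_lit 20700937312, nat_lit 21299162212, nat_lit 20823533688, nat_lit 21407463320, nat_lit 21897387112, nat_lit 22495680640, nat_lit 21991392952, nat_lit 22544158992], nat_lit 0, nat_lit 0, nat_lit 0, nat_lit 0, nat_lit 0, nat_lit 0, [], [nat_lit 215, nat_lit 40, nat_lit 20, nat_lit 40]⟩, ⟨p061_k8, nat_lit 0, nat_lit 0, nat_lit 512, nat_lit 0, nat_lit 660768, [nat_lit 890720000, nat_lit 1187500000, nat_lit 1869980000], [], [nat_lit 6294189802, nat_lit 5460874098, nat_lit 5460874098, nat_lit 4633878634, nat_lit 5321121890, nat_lit 4577852138, nat_lit 5635762138, nat_lit 4897497762], nat_lit 1271250, nat_lit 1271250, nat_lit 631250, nat_lit 780000, nat_lit 0, nat_lit 1100001, [nat_lit 1100000, nat_lit 1442500, nat_lit 1271250], [nat_lit 11, nat_lit 40, nat_lit 40, nat_lit 80, nat_lit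 1, nat_lit 373, nat_lit 150, nat_lit 11]⟩,
 ⟨nat_lit 4743, nat_lit 5000, ⟨.ofNat (nat_lit 385710), .ofNat (nat_lit 421423), .ofNat (nat_lit 407135), .ofNat (nat_lit 442849), .ofNat (nat_lit 390210), .ofNat (nat_lit 425060), .ofNat (nat_lit 411695), .ofNat (nat_lit 446544)⟩, ⟨.ofNat (nat_lit 571427), .ofNat (nat_lit 607141), .ofNat (nat_lit 592856), .ofNat (nat_lit 628570), .ofNat (nat_lit 566807), .ofNat (nat_lit 601657), .ofNat (nat_lit 588295), .ofNat (nat_lit 623145)⟩⟩, [⟨nat_lit 16, nat_lit 94, nat_lit 88, nat_lit 100, nat_lit 333637328⟩]⟩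
noncomputable def p061_l63 : Lf2 := ⟨nat_lit 0, nat_lit 10, [nat_lit 0, nat_lit 5, nat_lit 5, nat_lit 20], false, nat_lit 300, nat_lit 320, nat_lit 160, nat_lit 320, ⟨nat_lit 132, nat_lit 868, nat_lit 0, nat_lit 6, nat_lit 167, nat_lit 868, nat_lit 239, nat_lit 0, nat_lit 0, nat_lit 0, nat_lit 0, nat_lit 0, nat_lit 41711095, nat_lit 9109315, nat_lit 16179590, nat_lit 4890383, false, false⟩,
 nat_lit 0, nat_lit 0, nat_lit 2073, nat_lit 178, nat_lit 3431, nat_lit 1206, nat_lit 0, nat_lit 0, nat_lit 0, nat_lit 219, nat_lit 0, nat_lit 0, nat_lit 0, nat_lit 0, nat_lit 0, nat_lit 217000, nat_lit 0, nat_lit 0, [(nat_lit 15, [(nat_lit 0, nat_lit 868)])],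
 ⟨p061_k16, nat_lit 0, nat_lit 0, nat_lit 0, nat_lit 0, nat_lit 0, [nat_lit 1199631600, nat_lit 1764378800, nat_lit 2410709467, nat_lit 3717924800], [], [nat_lit 20520913699, nat_lit 21097795437, nat_lit 20668156026, nat_lit 21231520190, nat_lit 21674948090, nat_lit 22259786905, nat_lit 21794884354, nat_lit 22328923059], nat_lit 0, nat_lit 0, nat_lit 0, nat_lit 0, nat_lit 0, nat_lit 0, [], [nat_lit 186, nat_lit 40, nat_lit 20, nat_lit 40]⟩, ⟨p061_k8, nat_lit 0, nat_lit 0, nat_lit 421, nat_lit 0, nat_lit 660768, [nat_lit 618816000, nat_lit 825000000, nat_lit 1299144000], [], [nat_lit 2013313125, nat_lit 2133002775, nat_lit 1967093451, nat_lit 2082884847, nat_lit 3728740791, nat_lit 3163192428, nat_lit 3952667709, nat_lit 3384393273], nat_lit 1271250, nat_lit 1271250, nat_lit 631250, nat_lit 780000, nat_lit 1100001, nat_lit 2470000, [nat_lit 1100000, nat_lit 1442500, nat_lit 1271250], [nat_lit 11, nat_lit 40,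 nat_lit 40, nat_lit 80, nat_lit 1, nat_lit 428, nat_lit 200, nat_lit 12]⟩,
 ⟨nat_lit 4743, nat_lit 5000, ⟨.ofNat (nat_lit 385710), .ofNat (nat_lit 421423), .ofNat (nat_lit 407135), .ofNat (nat_lit 442849), .ofNat (nat_lit 390210), .ofNat (nat_lit 425060), .ofNat (nat_lit 411695), .ofNat (nat_lit 446544)⟩, ⟨.ofNat (nat_lit 571427), .ofNat (nat_lit 607141), .ofNat (nat_lit 592856), .ofNat (nat_lit 628570), .ofNat (nat_lit 566807), .ofNat (nat_lit 601657), .ofNat (nat_lit 588295), .ofNat (nat_lit 623145)⟩⟩, [⟨nat_lit 16, nat_lit 94, nat_lit 88, nat_lit 100, nat_lit 236313023⟩, ⟨nat_lit 23, nat_lit 94, nat_lit 97, nat_lit 100, nat_lit 65533432⟩]⟩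
noncomputable def p061_l64 : Lf2 := ⟨nat_lit 0, nat_lit 10, [nat_lit 0, nat_lit 5, nat_lit 5, nat_lit 20], true, nat_lit 300, nat_lit 312, nat_lit 0, nat_lit 320, ⟨nat_lit 0, nat_lit 1000, nat_lit 0, nat_lit 6, nat_lit 161, nat_lit 1000, nat_lit 234, nat_lit 0, nat_lit 0, nat_lit 0, nat_lit 0, nat_lit 0, nat_lit 42421600, nat_lit 8754912, nat_lit 15823488, nat_lit 4815280, false, false⟩,
 nat_lit 0, nat_lit 0, nat_lit 0, nat_lit 2853, nat_lit 3234, nat_lit 0, nat_lit 0, nat_lit 0, nat_lit 0, nat_lit 0, nat_lit 0, nat_lit 0, nat_lit 0, nat_lit 0, nat_lit 0, nat_lit 250000, nat_lit 0, nat_lit 0, [(nat_lit 15, [(nat_lit 0, nat_lit 1000)])],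
 ⟨p061_k35, nat_lit 0, nat_lit 0, nat_lit 0, nat_lit 0, nat_lit 0, [nat_lit 1159200000, nat_lit 1631600000, nat_lit 2162800001, nat_lit 2912133333], [], [nat_lit 20990955593, nat_lit 21565504340, nat_lit 21197334980, nat_lit 21731856556, nat_lit 21662425053, nat_lit 22256954856, nat_lit 21824937440, nat_lit 22357796801], nat_lit 0, nat_lit 0, nat_lit 0, nat_lit 0, nat_lit 0, nat_lit 0, [], [nat_lit 165, nat_lit 40, nat_lit 20, nat_lit 40]⟩, C1.Rw.none,
 ⟨nat_lit 4472, nat_lit 4744, ⟨.ofNat (nat_lit 355356), .ofNat (nat_lit 425056), .ofNat (nat_lit 376841), .ofNat (nat_lit 446540), .ofNat (nat_lit 360756), .ofNat (nat_lit 428734), .ofNat (nat_lit 382319), .ofNat (nat_lit 450297)⟩, ⟨.ofNat (nat_lit 566807), .ofNat (nat_lit 587717), .ofNat (nat_lit 588295), .ofNat (nat_lit 609205), .ofNat (nat_lit 562111), .ofNat (nat_lit 582505), .ofNat (nat_lit 583678), .ofNat (nat_lit 604071)⟩⟩, [⟨nat_lit 0, nat_lit 100, nat_lit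 87, nat_lit 88, nat_lit 86456329⟩, ⟨nat_lit 16, nat_lit 91, nat_lit 91, nat_lit 100, nat_lit 248921274⟩]⟩
noncomputable def p061_l65 : Lf2 := ⟨nat_lit 2, nat_lit 10, [nat_lit 0, nat_lit 5, nat_lit 5, nat_lit 20], true, nat_lit 300, nat_lit 320, nat_lit 0, nat_lit 320, zbN0,
 nat_lit 0, nat_lit 0, nat_lit 0, nat_lit 0, nat_lit 0, nat_lit 0, nat_lit 0, nat_lit 0, nat_lit 0, nat_lit 0, nat_lit 0, nat_lit 0, nat_lit 0, nat_lit 0, nat_lit 0, nat_lit 0, nat_lit 0, nat_lit 0, [],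
 ⟨p061_k1, nat_lit 0, nat_lit 0, nat_lit 55, nat_lit 0, nat_lit 0, [], [], [], nat_lit 0, nat_lit 0, nat_lit 0, nat_lit 0, nat_lit 0, nat_lit 0, [], [nat_lit 74, nat_lit 40, nat_lit 40, nat_lit 80, nat_lit 43, nat_lit 238, nat_lit 30, nat_lit 7]⟩, C1.Rw.none,
 zbF0, []⟩
noncomputable def b_V_700_600_20_11 : St := ⟨true, nat_lit 0, nat_lit 1, nat_lit 1, nat_lit 120, nat_lit 300, nat_lit 320, nat_lit 240, nat_lit 280, nat_lit 80, nat_lit 120, nat_lit 80, nat_lit 120, nat_lit 240, nat_lit 336, nat_lit 0, nat_lit 364, nat_lit 0, nat_lit 40, nat_lit 0, nat_lit 0, nat_lit 0, nat_lit 0⟩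
theorem d_V_700_600_20_11 (h : EB TB.env) : Dead b_V_700_600_20_11 := chkB_sound0 h (T :=
(.trX (nat_lit 16) (nat_lit 94) (nat_lit 88) (nat_lit 100) (nat_lit 320) (.spl (nat_lit 4) (nat_lit 280)
(.leaf p061_l55)
(.trX (nat_lit 23) (nat_lit 100) (nat_lit 80) (nat_lit 100) (nat_lit 336) (.spl (nat_lit 3) (nat_lit 100)
(.trX (nat_lit 16) (nat_lit 100) (nat_lit 100) (nat_lit 100) (nat_lit 300) (.leaf p061_l56))
(.spl (nat_lit 4) (nat_lit 300)
(.spl (nat_lit 6) (nat_lit 20)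
(.leaf p061_l57)
(.leaf p061_l58))
(.trX (nat_lit 23) (nat_lit 94) (nat_lit 88) (nat_lit 100) (nat_lit 320) (.spl (nat_lit 1) (nat_lit 260)
(.leaf p061_l59)
(.spl (nat_lit 7) (nat_lit 600)
(.spl (nat_lit 0) (nat_lit 310)
(.spl (nat_lit 2) (nat_lit 100)
(.trX (nat_lit 23) (nat_lit 100) (nat_lit 100) (nat_lit 100) (nat_lit 300) (.spl (nat_lit 5) (nat_lit 160)
(.leaf p061_l60)
(.leaf p061_l61)))
(.spl (nat_lit 5) (nat_lit 160)
(.leaf p061_l62)
(.leaf p061_l63)))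
(.trX (nat_lit 16) (nat_lit 91) (nat_lit 91) (nat_lit 100) (nat_lit 312) (.leaf p061_l64)))
(.leaf p061_l65)))))))))) (by decide +kernel)
noncomputable def p061_l66 : Lf2 := ⟨nat_lit 0, nat_lit 10, [nat_lit 0, nat_lit 5, nat_lit 5, nat_lit 20], true, nat_lit 160, nat_lit 240, nat_lit 0, nat_lit 364, ⟨nat_lit 0, nat_lit 1000, nat_lit 0, nat_lit 6, nat_lit 211, nat_lit 1000, nat_lit 157, nat_lit 0, nat_lit 0, nat_lit 0, nat_lit 0, nat_lit 0, nat_lit 44565480, nat_lit 13799494, nat_lit 8635026, nat_lit 4621880, false, false⟩,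
 nat_lit 0, nat_lit 0, nat_lit 0, nat_lit 2833, nat_lit 4321, nat_lit 0, nat_lit 0, nat_lit 0, nat_lit 0, nat_lit 0, nat_lit 0, nat_lit 0, nat_lit 0, nat_lit 0, nat_lit 0, nat_lit 250000, nat_lit 0, nat_lit 0, [(nat_lit 12, [(nat_lit 0, nat_lit 1000)]), (nat_lit 15, [(nat_lit 0, nat_lit 1000)])],
 ⟨p061_k5, nat_lit 0, nat_lit 0, nat_lit 16, nat_lit 0, nat_lit 0, [nat_lit 2378800001, nat_lit 3513428572], [], [nat_lit 12583868833, nat_lit 15915679257, nat_lit 16881167985, nat_lit 19551770961, nat_lit 16108216065, nat_lit 18945822405, nat_lit 19634278041, nat_lit 21925108797], nat_lit 0, nat_lit 0, nat_lit 0, nat_lit 0, nat_lit 0, nat_lit 0, [], [nat_lit 82, nat_lit 40, nat_lit 40, nat_lit 80, nat_lit 63, nat_lit 345, nat_lit 125, nat_lit 9]⟩, C1.Rw.none,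
 ⟨nat_lit 4472, nat_lit 5478, ⟨.ofNat (nat_lit 392815), .ofNat (nat_lit 617523), .ofNat (nat_lit 435455), .ofNat (nat_lit 660148), .ofNat (nat_lit 407143), .ofNat (nat_lit 610987), .ofNat (nat_lit 450202), .ofNat (nat_lit 654031)⟩, ⟨.ofNat (nat_lit 296923), .ofNat (nat_lit 446789), .ofNat (nat_lit 339637), .ofNat (nat_lit 489503), .ofNat (nat_lit 302621), .ofNat (nat_lit 438578), .ofNat (nat_lit 345754), .ofNat (nat_lit 481711)⟩⟩, []⟩
noncomputable def p061_l67 : Lf2 := ⟨nat_lit 0, nat_lit 10, [nat_lit 0, nat_lit 5, nat_lit 5, nat_lit 20], true, nat_lit 240, nat_lit 280, nat_lit 0, nat_lit 364, ⟨nat_lit 0, nat_lit 1000, nat_lit 0, nat_lit 6, nat_lit 211, nat_lit 1000, nat_lit 200, nat_lit 0, nat_lit 0, nat_lit 0, nat_lit 0, nat_lit 0, nat_lit 41614190, nat_lit 13256278, nat_lit 12129532, nat_lit 4991624, false, false⟩,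
 nat_lit 0, nat_lit 0, nat_lit 0, nat_lit 2833, nat_lit 4162, nat_lit 0, nat_lit 0, nat_lit 0, nat_lit 0, nat_lit 0, nat_lit 0, nat_lit 0, nat_lit 0, nat_lit 0, nat_lit 0, nat_lit 250000, nat_lit 0, nat_lit 0, [(nat_lit 12, [(nat_lit 0, nat_lit 1000)]), (nat_lit 15, [(nat_lit 0, nat_lit 1000)])],
 ⟨p061_k5, nat_lit 0, nat_lit 0, nat_lit 30, nat_lit 0, nat_lit 0, [nat_lit 2378800001, nat_lit 3513428572], [], [nat_lit 16281655809, nat_lit 19065593289, nat_lit 19794352881, nat_lit 22046509113, nat_lit 18677227409, nat_lit 21201581809, nat_lit 21731046585, nat_lit 23782348473], nat_lit 0, nat_lit 0, nat_lit 0, nat_lit 0, nat_lit 0, nat_lit 0, [], [nat_lit 82, nat_lit 40, nat_lit 40, nat_lit 80, nat_lit 63, nat_lit 373, nat_lit 150, nat_lit 10]⟩, C1.Rw.none,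
 ⟨nat_lit 4472, nat_lit 5478, ⟨.ofNat (nat_lit 392815), .ofNat (nat_lit 617523), .ofNat (nat_lit 435455), .ofNat (nat_lit 660148), .ofNat (nat_lit 407143), .ofNat (nat_lit 610987), .ofNat (nat_lit 450202), .ofNat (nat_lit 654031)⟩, ⟨.ofNat (nat_lit 446789), .ofNat (nat_lit 521722), .ofNat (nat_lit 489503), .ofNat (nat_lit 564436), .ofNat (nat_lit 438578), .ofNat (nat_lit 506556), .ofNat (nat_lit 481711), .ofNat (nat_lit 549689)⟩⟩, []⟩
noncomputable def p061_l68 : Lf2 := ⟨nat_lit 0, nat_lit 10, [nat_lit 0, nat_lit 5, nat_lit 5, nat_lit 20], true, nat_lit 280, nat_lit 320, nat_lit 0, nat_lit 352, ⟨nat_lit 0, nat_lit 1000, nat_lit 0, nat_lit 6, nat_lit 183, nat_lit 1000, nat_lit 224, nat_lit 0, nat_lit 0, nat_lit 0, nat_lit 0, nat_lit 0, nat_lit 41820603, nat_lit 10563386, nat_lit 14616011, nat_lit 4942660, false, false⟩,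
 nat_lit 0, nat_lit 0, nat_lit 0, nat_lit 2870, nat_lit 4266, nat_lit 0, nat_lit 0, nat_lit 0, nat_lit 0, nat_lit 0, nat_lit 0, nat_lit 0, nat_lit 0, nat_lit 0, nat_lit 0, nat_lit 250000, nat_lit 0, nat_lit 0, [(nat_lit 12, [(nat_lit 0, nat_lit 1000)]), (nat_lit 15, [(nat_lit 0, nat_lit 1000)])],
 ⟨p061_k5, nat_lit 0, nat_lit 0, nat_lit 43, nat_lit 0, nat_lit 0, [nat_lit 2378800001, nat_lit 3513428572], [], [nat_lit 18591217745, nat_lit 21165248796, nat_lit 19226390733, nat_lit 21634667617, nat_lit 21014224545, nat_lit 23532290312, nat_lit 21508842201, nat_lit 23855437528], nat_lit 0, nat_lit 0, nat_lit 0, nat_lit 0, nat_lit 0, nat_lit 0, [], [nat_lit 82, nat_lit 40, nat_lit 40, nat_lit 80, nat_lit 63, nat_lit 249, nat_lit 40, nat_lit 6]⟩, C1.Rw.none,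
 ⟨nat_lit 4472, nat_lit 5478, ⟨.ofNat (nat_lit 392815), .ofNat (nat_lit 467727), .ofNat (nat_lit 435455), .ofNat (nat_lit 510352), .ofNat (nat_lit 407143), .ofNat (nat_lit 475101), .ofNat (nat_lit 450202), .ofNat (nat_lit 518145)⟩, ⟨.ofNat (nat_lit 521722), .ofNat (nat_lit 596655), .ofNat (nat_lit 543079), .ofNat (nat_lit 618012), .ofNat (nat_lit 506556), .ofNat (nat_lit 574534), .ofNat (nat_lit 528122), .ofNat (nat_lit 596101)⟩⟩, [⟨nat_lit 16, nat_lit 100, nat_lit 88, nat_lit 94, nat_lit 269446655⟩]⟩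
noncomputable def p061_l69 : Lf2 := ⟨nat_lit 0, nat_lit 10, [nat_lit 0, nat_lit 5, nat_lit 5, nat_lit 20], true, nat_lit 280, nat_lit 320, nat_lit 4, nat_lit 352, ⟨nat_lit 0, nat_lit 1000, nat_lit 0, nat_lit 6, nat_lit 226, nat_lit 1000, nat_lit 224, nat_lit 0, nat_lit 0, nat_lit 0, nat_lit 0, nat_lit 0, nat_lit 38965217, nat_lit 14090533, nat_lit 13944250, nat_lit 5239059, false, false⟩,
 nat_lit 0, nat_lit 0, nat_lit 0, nat_lit 2870, nat_lit 4162, nat_lit 0, nat_lit 0, nat_lit 0, nat_lit 0, nat_lit 0, nat_lit 0, nat_lit 0, nat_lit 0, nat_lit 0, nat_lit 0, nat_lit 250000, nat_lit 0, nat_lit 0, [(nat_lit 12, [(nat_lit 0, nat_lit 1000)]), (nat_lit 15, [(nat_lit 0, nat_lit 1000)])],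
 ⟨p061_k17, nat_lit 0, nat_lit 0, nat_lit 51, nat_lit 0, nat_lit 0, [nat_lit 2364000000, nat_lit 2954000000, nat_lit 3510800000], [], [nat_lit 19305325724, nat_lit 21686014112, nat_lit 21716246584, nat_lit 23782317844, nat_lit 21562817400, nat_lit 23790655096, nat_lit 23652940288, nat_lit 25680162656], nat_lit 0, nat_lit 0, nat_lit 0, nat_lit 0, nat_lit 0, nat_lit 0, [], [nat_lit 8, nat_lit 40, nat_lit 40, nat_lit 80, nat_lit 1, nat_lit 272, nat_lit 60, nat_lit 7]⟩, C1.Rw.none,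
 ⟨nat_lit 4472, nat_lit 5478, ⟨.ofNat (nat_lit 467727), .ofNat (nat_lit 617523), .ofNat (nat_lit 510352), .ofNat (nat_lit 660148), .ofNat (nat_lit 475101), .ofNat (nat_lit 610987), .ofNat (nat_lit 518145), .ofNat (nat_lit 654031)⟩, ⟨.ofNat (nat_lit 521722), .ofNat (nat_lit 596655), .ofNat (nat_lit 543079), .ofNat (nat_lit 618012), .ofNat (nat_lit 506556), .ofNat (nat_lit 574534), .ofNat (nat_lit 528122), .ofNat (nat_lit 596101)⟩⟩, [⟨nat_lit 16, nat_lit 100, nat_lit 88, nat_lit 94, nat_lit 211667747⟩]⟩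
noncomputable def p061_l70 : Lf2 := ⟨nat_lit 0, nat_lit 10, [nat_lit 0, nat_lit 5, nat_lit 5, nat_lit 20], true, nat_lit 280, nat_lit 336, nat_lit 0, nat_lit 364, ⟨nat_lit 0, nat_lit 1000, nat_lit 0, nat_lit 6, nat_lit 207, nat_lit 1000, nat_lit 239, nat_lit 0, nat_lit 0, nat_lit 0, nat_lit 0, nat_lit 0, nat_lit 39195314, nat_lit 12334270, nat_lit 15470416, nat_lit 5202715, false, false⟩,
 nat_lit 0, nat_lit 0, nat_lit 0, nat_lit 4075, nat_lit 3859, nat_lit 0, nat_lit 0, nat_lit 0, nat_lit 0, nat_lit 0, nat_lit 0, nat_lit 0, nat_lit 0, nat_lit 0, nat_lit 0, nat_lit 400000, nat_lit 0, nat_lit 0, [(nat_lit 12, [(nat_lit 1, nat_lit 1000)]), (nat_lit 15, [(nat_lit 1, nat_lit 1000)])],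
 ⟨p061_k17, nat_lit 0, nat_lit 0, nat_lit 71, nat_lit 0, nat_lit 0, [nat_lit 2068400000, nat_lit 2721200001, nat_lit 2642799999], [], [nat_lit 18617413256, nat_lit 21053837056, nat_lit 21670096788, nat_lit 23658670404, nat_lit 22016350028, nat_lit 24306890997, nat_lit 24518916283, nat_lit 26398169479], nat_lit 0, nat_lit 0, nat_lit 0, nat_lit 0, nat_lit 0, nat_lit 0, [], [nat_lit 8, nat_lit 40, nat_lit 40, nat_lit 80, nat_lit 1, nat_lit 272, nat_lit 60, nat_lit 7]⟩, C1.Rw.none,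
 ⟨nat_lit 4472, nat_lit 5478, ⟨.ofNat (nat_lit 392815), .ofNat (nat_lit 617523), .ofNat (nat_lit 414138), .ofNat (nat_lit 638835), .ofNat (nat_lit 407143), .ofNat (nat_lit 610987), .ofNat (nat_lit 428676), .ofNat (nat_lit 632509)⟩, ⟨.ofNat (nat_lit 543079), .ofNat (nat_lit 647986), .ofNat (nat_lit 564436), .ofNat (nat_lit 669343), .ofNat (nat_lit 528122), .ofNat (nat_lit 623292), .ofNat (nat_lit 549689), .ofNat (nat_lit 644858)⟩⟩, [⟨nat_lit 16, nat_lit 100, nat_lit 80, nat_lit 100, nat_lit 148043269⟩]⟩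
noncomputable def p061_l71 : Lf2 := ⟨nat_lit 0, nat_lit 10, [nat_lit 0, nat_lit 5, nat_lit 5, nat_lit 20], false, nat_lit 280, nat_lit 336, nat_lit 0, nat_lit 160, ⟨nat_lit 1000, nat_lit 0, nat_lit 0, nat_lit 0, nat_lit 0, nat_lit 0, nat_lit 0, nat_lit 0, nat_lit 0, nat_lit 0, nat_lit 0, nat_lit 0, nat_lit 0, nat_lit 0, nat_lit 0, nat_lit 0, false, false⟩,
 nat_lit 0, nat_lit 0, nat_lit 9346, nat_lit 4689, nat_lit 4890, nat_lit 5440, nat_lit 0, nat_lit 0, nat_lit 0, nat_lit 2120, nat_lit 0, nat_lit 0, nat_lit 0, nat_lit 0, nat_lit 0, nat_lit 0, nat_lit 0, nat_lit 0, [],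
 ⟨p061_k28, nat_lit 0, nat_lit 0, nat_lit 52, nat_lit 0, nat_lit 0, [nat_lit 3282000000, nat_lit 4688000000, nat_lit 9842000000], [], [nat_lit 18978359760, nat_lit 20346169760, nat_lit 19567180780, nat_lit 20854084710, nat_lit 22793931880, nat_lit 23955694921, nat_lit 23158594745, nat_lit 24254288501], nat_lit 0, nat_lit 0, nat_lit 0, nat_lit 0, nat_lit 0, nat_lit 0, [], [nat_lit 42, nat_lit 40, nat_lit 40, nat_lit 80, nat_lit 13, nat_lit 249, nat_lit 40, nat_lit 6]⟩, ⟨p061_k8, nat_lit 0, nat_lit 0, nat_lit 456, nat_lit 0, nat_lit 533164, [nat_lit 4688000000, nat_lit 6250000000, nat_lit 9842000000], [], [nat_lit 34595741880, nat_lit 31719407160, nat_lit 28886374840, nat_lit 29041989960, nat_lit 29704692760, nat_lit 27141819720, nat_lit 32855491000, nat_lit 30326424120], nat_lit 1271250, nat_lit 1271250, nat_lit 780000, nat_lit 1100001, nat_lit 0, nat_lit 1100001, [nat_lit 1100000, nat_lit 1442500, nat_lit 1271250],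 [nat_lit 11, nat_lit 40, nat_lit 40, nat_lit 80, nat_lit 1, nat_lit 373, nat_lit 150, nat_lit 11]⟩,
 zbF0, [⟨nat_lit 4, nat_lit 90, nat_lit 100, nat_lit 100, nat_lit 579959415⟩]⟩
noncomputable def p061_l72 : Lf2 := ⟨nat_lit 0, nat_lit 10, [nat_lit 0, nat_lit 5, nat_lit 5, nat_lit 20], false, nat_lit 280, nat_lit 320, nat_lit 0, nat_lit 160, ⟨nat_lit 220, nat_lit 780, nat_lit 0, nat_lit 6, nat_lit 188, nat_lit 780, nat_lit 231, nat_lit 0, nat_lit 0, nat_lit 0, nat_lit 0, nat_lit 0, nat_lit 40953602, nat_lit 10916048, nat_lit 15130350, nat_lit 5026381, false, false⟩,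
 nat_lit 0, nat_lit 0, nat_lit 2410, nat_lit 403, nat_lit 4301, nat_lit 1402, nat_lit 0, nat_lit 0, nat_lit 0, nat_lit 366, nat_lit 0, nat_lit 0, nat_lit 0, nat_lit 0, nat_lit 0, nat_lit 195000, nat_lit 0, nat_lit 0, [(nat_lit 15, [(nat_lit 0, nat_lit 780)])],
 ⟨p061_k33, nat_lit 0, nat_lit 0, nat_lit 51, nat_lit 0, nat_lit 0, [nat_lit 2530392000, nat_lit 2886200001, nat_lit 4148808000], [], [nat_lit 19996210284, nat_lit 21278556384, nat_lit 20555218039, nat_lit 21763998776, nat_lit 22295368414, nat_lit 23558866932, nat_lit 22722639246, nat_lit 23877239308], nat_lit 0, nat_lit 0, nat_lit 0, nat_lit 0, nat_lit 0, nat_lit 0, [], [nat_lit 36, nat_lit 40, nat_lit 40, nat_lit 80, nat_lit 7, nat_lit 249, nat_lit 40, nat_lit 7]⟩, ⟨p061_k8, nat_lit 0, nat_lit 0, nat_lit 589, nat_lit 0, nat_lit 796336, [nat_lit 1031360000, nat_lit 1375000000, nat_lit 2165240000], [], [nat_lit 7898401894, nat_lit 7157111218, nat_lit 6636439272,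 nat_lit 6753464864, nat_lit 6262821878, nat_lit 6145579016, nat_lit 7026564950, nat_lit 6374772346], nat_lit 1271250, nat_lit 1271250, nat_lit 780000, nat_lit 1100001, nat_lit 0, nat_lit 1100001, [nat_lit 1100000, nat_lit 1442500, nat_lit 1271250], [nat_lit 11, nat_lit 40, nat_lit 40, nat_lit 80, nat_lit 1, nat_lit 373, nat_lit 150, nat_lit 11]⟩,
 ⟨nat_lit 4472, nat_lit 5000, ⟨.ofNat (nat_lit 421400), .ofNat (nat_lit 492824), .ofNat (nat_lit 442816), .ofNat (nat_lit 514240), .ofNat (nat_lit 428715), .ofNat (nat_lit 496688), .ofNat (nat_lit 450269), .ofNat (nat_lit 518242)⟩, ⟨.ofNat (nat_lit 535713), .ofNat (nat_lit 607141), .ofNat (nat_lit 557141), .ofNat (nat_lit 628570), .ofNat (nat_lit 528122), .ofNat (nat_lit 596101), .ofNat (nat_lit 549689), .ofNat (nat_lit 617667)⟩⟩, [⟨nat_lit 16, nat_lit 94, nat_lit 88, nat_lit 100, nat_lit 332071977⟩]⟩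
noncomputable def p061_l73 : Lf2 := ⟨nat_lit 0, nat_lit 5, [nat_lit 4, nat_lit 5, nat_lit 5, nat_lit 20], false, nat_lit 280, nat_lit 336, nat_lit 160, nat_lit 352, ⟨nat_lit 447, nat_lit 553, nat_lit 0, nat_lit 6, nat_lit 185, nat_lit 553, nat_lit 242, nat_lit 0, nat_lit 0, nat_lit 0, nat_lit 0, nat_lit 0, nat_lit 40339621, nat_lit 10560462, nat_lit 16099917, nat_lit 5062196, false, false⟩,
 nat_lit 0, nat_lit 0, nat_lit 5361, nat_lit 0, nat_lit 4300, nat_lit 3120, nat_lit 0, nat_lit 0, nat_lit 0, nat_lit 1048, nat_lit 0, nat_lit 0, nat_lit 0, nat_lit 0, nat_lit 0, nat_lit 221200, nat_lit 0, nat_lit 0, [(nat_lit 12, [(nat_lit 1, nat_lit 553)])],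
 ⟨p061_k30, nat_lit 0, nat_lit 0, nat_lit 48, nat_lit 0, nat_lit 0, [nat_lit 2591524201, nat_lit 3519400400, nat_lit 5044842000], [], [nat_lit 18775823401, nat_lit 19416923901, nat_lit 19408470801, nat_lit 20012794851, nat_lit 22352971801, nat_lit 22900844002, nat_lit 22781816282, nat_lit 23299602541], nat_lit 0, nat_lit 0, nat_lit 0, nat_lit 0, nat_lit 0, nat_lit 0, [], [nat_lit 36, nat_lit 40, nat_lit 40, nat_lit 80, nat_lit 7, nat_lit 249, nat_lit 40, nat_lit 7]⟩, ⟨p061_k13, nat_lit 0, nat_lit 0, nat_lit 241, nat_lit 0, nat_lit 401441, [nat_lit 2095536000, nat_lit 2793750000, nat_lit 3561696000], [], [nat_lit 8749143724, nat_lit 8226630212, nat_lit 10227653032, nat_lit 8695040392, nat_lit 11213094788, nat_lit 11506734096, nat_lit 11184750192, nat_lit 11474873864], nat_lit 1271250, nat_lit 1271250, nat_lit 780000, nat_lit 1100001, nat_lit 1271250, nat_lit 1271250, [nat_lit 1100000, nat_lit 1442500, nat_lit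 1271250], [nat_lit 9, nat_lit 40, nat_lit 40, nat_lit 80, nat_lit 2, nat_lit 373, nat_lit 150, nat_lit 12]⟩,
 ⟨nat_lit 5244, nat_lit 5478, ⟨.ofNat (nat_lit 414204), .ofNat (nat_lit 489134), .ofNat (nat_lit 435559), .ofNat (nat_lit 510489), .ofNat (nat_lit 417813), .ofNat (nat_lit 490981), .ofNat (nat_lit 439196), .ofNat (nat_lit 512365)⟩, ⟨.ofNat (nat_lit 543079), .ofNat (nat_lit 647985), .ofNat (nat_lit 564436), .ofNat (nat_lit 669340), .ofNat (nat_lit 539414), .ofNat (nat_lit 641853), .ofNat (nat_lit 560799), .ofNat (nat_lit 663236)⟩⟩, [⟨nat_lit 4, nat_lit 87, nat_lit 100, nat_lit 99, nat_lit 197229335⟩, ⟨nat_lit 11, nat_lit 85, nat_lit 85, nat_lit 100, nat_lit 222540226⟩]⟩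
noncomputable def p061_l74 : Lf2 := ⟨nat_lit 0, nat_lit 5, [nat_lit 4, nat_lit 5, nat_lit 5, nat_lit 20], false, nat_lit 280, nat_lit 328, nat_lit 160, nat_lit 352, ⟨nat_lit 227, nat_lit 773, nat_lit 0, nat_lit 6, nat_lit 187, nat_lit 773, nat_lit 237, nat_lit 0, nat_lit 0, nat_lit 0, nat_lit 0, nat_lit 0, nat_lit 40635835, nat_lit 10709998, nat_lit 15654167, nat_lit 5045041, false, false⟩,
 nat_lit 0, nat_lit 0, nat_lit 2729, nat_lit 0, nat_lit 4048, nat_lit 1588, nat_lit 0, nat_lit 0, nat_lit 0, nat_lit 517, nat_lit 0, nat_lit 0, nat_lit 0, nat_lit 0, nat_lit 0, nat_lit 309200, nat_lit 0, nat_lit 0, [(nat_lit 12, [(nat_lit 1, nat_lit 773)])],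
 ⟨p061_k31, nat_lit 0, nat_lit 0, nat_lit 47, nat_lit 0, nat_lit 0, [nat_lit 2316832200, nat_lit 2949986800, nat_lit 3450503200], [], [nat_lit 19332357332, nat_lit 19955175232, nat_lit 19948517684, nat_lit 20536129472, nat_lit 22176467536, nat_lit 22722989848, nat_lit 22632880388, nat_lit 23149686744], nat_lit 0, nat_lit 0, nat_lit 0, nat_lit 0, nat_lit 0, nat_lit 0, [], [nat_lit 59, nat_lit 40, nat_lit 40, nat_lit 80, nat_lit 3, nat_lit 249, nat_lit 40, nat_lit 8]⟩, ⟨p061_k13, nat_lit 0, nat_lit 0, nat_lit 283, nat_lit 0, nat_lit 517430, [nat_lit 1064176000, nat_lit 1418750000, nat_lit 1808736000], [], [nat_lit 4450061563, nat_lit 4192493954, nat_lit 5201930119, nat_lit 4421869583, nat_lit 5710374295, nat_lit 5848044307, nat_lit 5684128526, nat_lit 5829222166], nat_lit 1271250, nat_lit 1271250, nat_lit 780000, nat_lit 1100001, nat_lit 1271250, nat_lit 1271250, [nat_lit 1100000, nat_lit 1442500, nat_lit 1271250],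 [nat_lit 9, nat_lit 40, nat_lit 40, nat_lit 80, nat_lit 2, nat_lit 373, nat_lit 150, nat_lit 12]⟩,
 ⟨nat_lit 5000, nat_lit 5245, ⟨.ofNat (nat_lit 417811), .ofNat (nat_lit 490980), .ofNat (nat_lit 439194), .ofNat (nat_lit 512362), .ofNat (nat_lit 421425), .ofNat (nat_lit 492852), .ofNat (nat_lit 442852), .ofNat (nat_lit 514278)⟩, ⟨.ofNat (nat_lit 539414), .ofNat (nat_lit 627219), .ofNat (nat_lit 560799), .ofNat (nat_lit 648604), .ofNat (nat_lit 535713), .ofNat (nat_lit 621427), .ofNat (nat_lit 557141), .ofNat (nat_lit 642856)⟩⟩, [⟨nat_lit 16, nat_lit 97, nat_lit 84, nat_lit 100, nat_lit 224074823⟩, ⟨nat_lit 11, nat_lit 85, nat_lit 85, nat_lit 100, nat_lit 112686876⟩]⟩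
noncomputable def p061_l75 : Lf2 := ⟨nat_lit 0, nat_lit 5, [nat_lit 4, nat_lit 5, nat_lit 5, nat_lit 20], false, nat_lit 280, nat_lit 320, nat_lit 160, nat_lit 352, ⟨nat_lit 92, nat_lit 908, nat_lit 0, nat_lit 6, nat_lit 188, nat_lit 908, nat_lit 231, nat_lit 0, nat_lit 0, nat_lit 0, nat_lit 0, nat_lit 0, nat_lit 40953602, nat_lit 10916048, nat_lit 15130350, nat_lit 5026381, false, false⟩,
 nat_lit 0, nat_lit 0, nat_lit 1181, nat_lit 0, nat_lit 4185, nat_lit 687, nat_lit 0, nat_lit 0, nat_lit 0, nat_lit 160, nat_lit 0, nat_lit 0, nat_lit 0, nat_lit 0, nat_lit 0, nat_lit 227000, nat_lit 0, nat_lit 0, [(nat_lit 15, [(nat_lit 0, nat_lit 908)])],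
 ⟨p061_k36, nat_lit 0, nat_lit 0, nat_lit 51, nat_lit 0, nat_lit 0, [nat_lit 2407051200, nat_lit 2557468800, nat_lit 3049118400], [], [nat_lit 19951971740, nat_lit 21217486240, nat_lit 20521041915, nat_lit 21714436760, nat_lit 22223274790, nat_lit 23470784420, nat_lit 22663162710, nat_lit 23804981980], nat_lit 0, nat_lit 0, nat_lit 0, nat_lit 0, nat_lit 0, nat_lit 0, [], [nat_lit 59, nat_lit 40, nat_lit 40, nat_lit 80, nat_lit 3, nat_lit 249, nat_lit 40, nat_lit 8]⟩, ⟨p061_k13, nat_lit 0, nat_lit 0, nat_lit 394, nat_lit 0, nat_lit 773510, [nat_lit 431296000, nat_lit 575000000, nat_lit 733056000], [], [nat_lit 1823736538, nat_lit 1892220388, nat_lit 2093722210, nat_lit 1902904016, nat_lit 2357050553, nat_lit 2401936088, nat_lit 2331855249, nat_lit 2391377369], nat_lit 1271250, nat_lit 1271250, nat_lit 780000, nat_lit 1100001, nat_lit 1271250, nat_lit 1271250, [nat_lit 1100000, nat_lit 1442500, nat_lit 1271250],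 [nat_lit 9, nat_lit 40, nat_lit 40, nat_lit 80, nat_lit 2, nat_lit 373, nat_lit 150, nat_lit 12]⟩,
 ⟨nat_lit 4472, nat_lit 5000, ⟨.ofNat (nat_lit 421400), .ofNat (nat_lit 492824), .ofNat (nat_lit 442816), .ofNat (nat_lit 514240), .ofNat (nat_lit 428715), .ofNat (nat_lit 496688), .ofNat (nat_lit 450269), .ofNat (nat_lit 518242)⟩, ⟨.ofNat (nat_lit 535713), .ofNat (nat_lit 607141), .ofNat (nat_lit 557141), .ofNat (nat_lit 628570), .ofNat (nat_lit 528122), .ofNat (nat_lit 596101), .ofNat (nat_lit 549689), .ofNat (nat_lit 617667)⟩⟩, [⟨nat_lit 16, nat_lit 94, nat_lit 88, nat_lit 100, nat_lit 251794307⟩, ⟨nat_lit 11, nat_lit 85, nat_lit 85, nat_lit 100, nat_lit 40687865⟩]⟩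
noncomputable def p061_l76 : Lf2 := ⟨nat_lit 0, nat_lit 10, [nat_lit 0, nat_lit 5, nat_lit 5, nat_lit 20], false, nat_lit 280, nat_lit 336, nat_lit 160, nat_lit 352, ⟨nat_lit 1000, nat_lit 0, nat_lit 0, nat_lit 0, nat_lit 0, nat_lit 0, nat_lit 0, nat_lit 0, nat_lit 0, nat_lit 0, nat_lit 0, nat_lit 0, nat_lit 0, nat_lit 0, nat_lit 0, nat_lit 0, false, false⟩,
 nat_lit 0, nat_lit 0, nat_lit 11823, nat_lit 6940, nat_lit 5258, nat_lit 6882, nat_lit 0, nat_lit 0, nat_lit 0, nat_lit 1941, nat_lit 0, nat_lit 0, nat_lit 0, nat_lit 0, nat_lit 0, nat_lit 0, nat_lit 0, nat_lit 0, [],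
 ⟨p061_k28, nat_lit 0, nat_lit 0, nat_lit 52, nat_lit 0, nat_lit 0, [nat_lit 3282000000, nat_lit 4688000000, nat_lit 9842000000], [], [nat_lit 18674017872, nat_lit 20095224672, nat_lit 19235503116, nat_lit 20571217462, nat_lit 22913719535, nat_lit 24237927444, nat_lit 23182808708, nat_lit 24430967655], nat_lit 0, nat_lit 0, nat_lit 0, nat_lit 0, nat_lit 0, nat_lit 0, [], [nat_lit 42, nat_lit 40, nat_lit 40, nat_lit 80, nat_lit 13, nat_lit 249, nat_lit 40, nat_lit 6]⟩, ⟨p061_k8, nat_lit 0, nat_lit 0, nat_lit 148, nat_lit 0, nat_lit 111063, [nat_lit 4688000000, nat_lit 6250000000, nat_lit 9842000000], [], [nat_lit 20060912571, nat_lit 17652773675, nat_lit 23340110043, nat_lit 19959520239, nat_lit 24882161117, nat_lit 25640735120, nat_lit 24841347663, nat_lit 25603829506], nat_lit 1271250, nat_lit 1271250, nat_lit 780000, nat_lit 1100001, nat_lit 1271250, nat_lit 1271250, [nat_lit 1100000, nat_lit 1442500, nat_lit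 1271250], [nat_lit 11, nat_lit 40, nat_lit 40, nat_lit 80, nat_lit 1, nat_lit 428, nat_lit 200, nat_lit 12]⟩,
 zbF0, [⟨nat_lit 4, nat_lit 90, nat_lit 100, nat_lit 100, nat_lit 301267111⟩, ⟨nat_lit 23, nat_lit 88, nat_lit 80, nat_lit 100, nat_lit 407842848⟩]⟩
noncomputable def p061_l77 : Lf2 := ⟨nat_lit 0, nat_lit 10, [nat_lit 0, nat_lit 5, nat_lit 5, nat_lit 20], false, nat_lit 280, nat_lit 320, nat_lit 160, nat_lit 352, ⟨nat_lit 129, nat_lit 871, nat_lit 0, nat_lit 6, nat_lit 188, nat_lit 871, nat_lit 231, nat_lit 0, nat_lit 0, nat_lit 0, nat_lit 0, nat_lit 0, nat_lit 40953602, nat_lit 10916048, nat_lit 15130350, nat_lit 5026381, false, false⟩,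
 nat_lit 0, nat_lit 0, nat_lit 1529, nat_lit 3709, nat_lit 4155, nat_lit 890, nat_lit 0, nat_lit 0, nat_lit 0, nat_lit 251, nat_lit 0, nat_lit 0, nat_lit 0, nat_lit 0, nat_lit 0, nat_lit 217750, nat_lit 0, nat_lit 0, [(nat_lit 15, [(nat_lit 0, nat_lit 871)])],
 ⟨p061_k33, nat_lit 0, nat_lit 0, nat_lit 51, nat_lit 0, nat_lit 0, [nat_lit 2442704400, nat_lit 2675990001, nat_lit 3703235600], [], [nat_lit 20008082420, nat_lit 21269243920, nat_lit 20579754945, nat_lit 21769170680, nat_lit 22272181570, nat_lit 23448004460, nat_lit 22715332530, nat_lit 23786294740], nat_lit 0, nat_lit 0, nat_lit 0, nat_lit 0, nat_lit 0, nat_lit 0, [], [nat_lit 36, nat_lit 40, nat_lit 40, nat_lit 80, nat_lit 7, nat_lit 249, nat_lit 40, nat_lit 7]⟩, ⟨p061_k8, nat_lit 0, nat_lit 0, nat_lit 232, nat_lit 0, nat_lit 360584, [nat_lit 604752000, nat_lit 806250000, nat_lit 1269618000], [], [nat_lit 2583861593, nat_lit 2270629445, nat_lit 3007523549,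 nat_lit 2570335969, nat_lit 3206501095, nat_lit 3309138910, nat_lit 3200321834, nat_lit 3304372083], nat_lit 1271250, nat_lit 1271250, nat_lit 780000, nat_lit 1100001, nat_lit 1271250, nat_lit 1271250, [nat_lit 1100000, nat_lit 1442500, nat_lit 1271250], [nat_lit 11, nat_lit 40, nat_lit 40, nat_lit 80, nat_lit 1, nat_lit 428, nat_lit 200, nat_lit 12]⟩,
 ⟨nat_lit 4472, nat_lit 5000, ⟨.ofNat (nat_lit 421400), .ofNat (nat_lit 492824), .ofNat (nat_lit 442816), .ofNat (nat_lit 514240), .ofNat (nat_lit 428715), .ofNat (nat_lit 496688), .ofNat (nat_lit 450269), .ofNat (nat_lit 518242)⟩, ⟨.ofNat (nat_lit 535713), .ofNat (nat_lit 607141), .ofNat (nat_lit 557141), .ofNat (nat_lit 628570), .ofNat (nat_lit 528122), .ofNat (nat_lit 596101), .ofNat (nat_lit 549689), .ofNat (nat_lit 617667)⟩⟩, [⟨nat_lit 4, nat_lit 97, nat_lit 94, nat_lit 100, nat_lit 238684217⟩, ⟨nat_lit 11, nat_lit 85, nat_lit 85, nat_lit 100, nat_lit 66996421⟩]⟩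
noncomputable def p061_l78 : Lf2 := ⟨nat_lit 0, nat_lit 10, [nat_lit 0, nat_lit 5, nat_lit 5, nat_lit 20], false, nat_lit 280, nat_lit 336, nat_lit 4, nat_lit 160, ⟨nat_lit 1000, nat_lit 0, nat_lit 0, nat_lit 0, nat_lit 0, nat_lit 0, nat_lit 0, nat_lit 0, nat_lit 0, nat_lit 0, nat_lit 0, nat_lit 0, nat_lit 0, nat_lit 0, nat_lit 0, nat_lit 0, false, false⟩,
 nat_lit 0, nat_lit 0, nat_lit 10102, nat_lit 0, nat_lit 5048, nat_lit 5880, nat_lit 0, nat_lit 0, nat_lit 0, nat_lit 2443, nat_lit 0, nat_lit 0, nat_lit 0, nat_lit 0, nat_lit 0, nat_lit 0, nat_lit 0, nat_lit 0, [],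
 ⟨p061_k28, nat_lit 0, nat_lit 0, nat_lit 50, nat_lit 0, nat_lit 0, [nat_lit 3282000000, nat_lit 4688000000, nat_lit 9842000000], [], [nat_lit 19424775696, nat_lit 22040496848, nat_lit 21904831136, nat_lit 24157948176, nat_lit 23074587661, nat_lit 25521526810, nat_lit 25134596653, nat_lit 27227684365], nat_lit 0, nat_lit 0, nat_lit 0, nat_lit 0, nat_lit 0, nat_lit 0, [], [nat_lit 42, nat_lit 40, nat_lit 40, nat_lit 80, nat_lit 13, nat_lit 272, nat_lit 60, nat_lit 7]⟩, ⟨p061_k8, nat_lit 0, nat_lit 0, nat_lit 572, nat_lit 0, nat_lit 796336, [nat_lit 4688000000, nat_lit 6250000000, nat_lit 9842000000], [], [nat_lit 34614706273, nat_lit 31510336752, nat_lit 30350493599, nat_lit 30932226035, nat_lit 27156858980, nat_lit 27716882755, nat_lit 28388045505, nat_lit 28949609665], nat_lit 1271250, nat_lit 1271250, nat_lit 1100001, nat_lit 1785000, nat_lit 21650, nat_lit 1100001, [nat_lit 1100000, nat_lit 1442500, nat_lit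 1271250], [nat_lit 11, nat_lit 40, nat_lit 40, nat_lit 80, nat_lit 1, nat_lit 401, nat_lit 175, nat_lit 11]⟩,
 zbF0, [⟨nat_lit 4, nat_lit 94, nat_lit 97, nat_lit 100, nat_lit 586080814⟩]⟩
noncomputable def p061_l79 : Lf2 := ⟨nat_lit 0, nat_lit 5, [nat_lit 4, nat_lit 5, nat_lit 5, nat_lit 20], false, nat_lit 280, nat_lit 336, nat_lit 160, nat_lit 352, ⟨nat_lit 233, nat_lit 767, nat_lit 0, nat_lit 6, nat_lit 230, nat_lit 767, nat_lit 241, nat_lit 0, nat_lit 0, nat_lit 0, nat_lit 0, nat_lit 0, nat_lit 37617977, nat_lit 14157627, nat_lit 15224396, nat_lit 5348515, false, false⟩,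
 nat_lit 0, nat_lit 0, nat_lit 2936, nat_lit 0, nat_lit 4100, nat_lit 1709, nat_lit 0, nat_lit 0, nat_lit 0, nat_lit 353, nat_lit 0, nat_lit 0, nat_lit 0, nat_lit 0, nat_lit 0, nat_lit 306800, nat_lit 0, nat_lit 0, [(nat_lit 12, [(nat_lit 1, nat_lit 767)])],
 ⟨p061_k30, nat_lit 0, nat_lit 0, nat_lit 43, nat_lit 0, nat_lit 0, [nat_lit 2324323800, nat_lit 3067175600, nat_lit 3918371734], [], [nat_lit 19321530000, nat_lit 20503650700, nat_lit 21727613000, nat_lit 22746846200, nat_lit 22620953961, nat_lit 23697077281, nat_lit 24643709361, nat_lit 25605007160], nat_lit 0, nat_lit 0, nat_lit 0, nat_lit 0, nat_lit 0, nat_lit 0, [], [nat_lit 36, nat_lit 40, nat_lit 40, nat_lit 80, nat_lit 7, nat_lit 272, nat_lit 60, nat_lit 8]⟩, ⟨p061_k13, nat_lit 0, nat_lit 0, nat_lit 270, nat_lit 0, nat_lit 517430, [nat_lit 1092304000, nat_lit 1456250000, nat_lit 1856544000], [], [nat_lit 7452936114, nat_lit 6549322872, nat_lit 6307031506,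 nat_lit 5479263684, nat_lit 5916246787, nat_lit 6048535124, nat_lit 6234667239, nat_lit 6459802247], nat_lit 1271250, nat_lit 1271250, nat_lit 1100001, nat_lit 1785000, nat_lit 1271250, nat_lit 1271250, [nat_lit 1100000, nat_lit 1442500, nat_lit 1271250], [nat_lit 9, nat_lit 40, nat_lit 40, nat_lit 80, nat_lit 2, nat_lit 373, nat_lit 150, nat_lit 12]⟩,
 ⟨nat_lit 5000, nat_lit 5478, ⟨.ofNat (nat_lit 489121), .ofNat (nat_lit 638961), .ofNat (nat_lit 510468), .ofNat (nat_lit 660309), .ofNat (nat_lit 492840), .ofNat (nat_lit 635671), .ofNat (nat_lit 514258), .ofNat (nat_lit 657090)⟩, ⟨.ofNat (nat_lit 543079), .ofNat (nat_lit 647986), .ofNat (nat_lit 564436), .ofNat (nat_lit 669336), .ofNat (nat_lit 535713), .ofNat (nat_lit 635713), .ofNat (nat_lit 557141), .ofNat (nat_lit 657134)⟩⟩, [⟨nat_lit 4, nat_lit 90, nat_lit 100, nat_lit 100, nat_lit 279959059⟩, ⟨nat_lit 11, nat_lit 71, nat_lit 71, nat_lit 100, nat_lit 51749970⟩]⟩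
noncomputable def p061_l80 : Lf2 := ⟨nat_lit 0, nat_lit 5, [nat_lit 4, nat_lit 5, nat_lit 5, nat_lit 20], false, nat_lit 280, nat_lit 320, nat_lit 160, nat_lit 352, ⟨nat_lit 82, nat_lit 918, nat_lit 0, nat_lit 6, nat_lit 230, nat_lit 918, nat_lit 231, nat_lit 0, nat_lit 0, nat_lit 0, nat_lit 0, nat_lit 0, nat_lit 38230412, nat_lit 14338166, nat_lit 14431422, nat_lit 5300854, false, false⟩,
 nat_lit 0, nat_lit 0, nat_lit 1075, nat_lit 0, nat_lit 4211, nat_lit 625, nat_lit 0, nat_lit 0, nat_lit 0, nat_lit 113, nat_lit 0, nat_lit 0, nat_lit 0, nat_lit 0, nat_lit 0, nat_lit 229500, nat_lit 0, nat_lit 0, [(nat_lit 15, [(nat_lit 0, nat_lit 918)])],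
 ⟨p061_k36, nat_lit 0, nat_lit 0, nat_lit 43, nat_lit 0, nat_lit 0, [nat_lit 2397415200, nat_lit 2534004801, nat_lit 3013866400], [], [nat_lit 20491420729, nat_lit 21688264136, nat_lit 22740044684, nat_lit 23803091982, nat_lit 22639212306, nat_lit 23821177588, nat_lit 24690539488, nat_lit 25709282768], nat_lit 0, nat_lit 0, nat_lit 0, nat_lit 0, nat_lit 0, nat_lit 0, [], [nat_lit 59, nat_lit 40, nat_lit 40, nat_lit 80, nat_lit 3, nat_lit 272, nat_lit 60, nat_lit 9]⟩, ⟨p061_k13, nat_lit 0, nat_lit 0, nat_lit 380, nat_lit 0, nat_lit 773510, [nat_lit 384416000, nat_lit 512500000, nat_lit 653376000], [], [nat_lit 2646355734, nat_lit 2315894484, nat_lit 2198781734, nat_lit 1896057984, nat_lit 2105443786, nat_lit 2139875744, nat_lit 2207909127, nat_lit 2288438335], nat_lit 1271250, nat_lit 1271250, nat_lit 1100001, nat_lit 1785000, nat_lit 1271250, nat_lit 1271250, [nat_lit 1100000, nat_lit 1442500, nat_lit 1271250],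 [nat_lit 9, nat_lit 40, nat_lit 40, nat_lit 80, nat_lit 2, nat_lit 373, nat_lit 150, nat_lit 12]⟩,
 ⟨nat_lit 4472, nat_lit 5000, ⟨.ofNat (nat_lit 492824), .ofNat (nat_lit 635672), .ofNat (nat_lit 514240), .ofNat (nat_lit 657088), .ofNat (nat_lit 496688), .ofNat (nat_lit 632635), .ofNat (nat_lit 518242), .ofNat (nat_lit 654189)⟩, ⟨.ofNat (nat_lit 535713), .ofNat (nat_lit 607141), .ofNat (nat_lit 557141), .ofNat (nat_lit 628570), .ofNat (nat_lit 528122), .ofNat (nat_lit 596101), .ofNat (nat_lit 549689), .ofNat (nat_lit 617667)⟩⟩, [⟨nat_lit 16, nat_lit 94, nat_lit 88, nat_lit 100, nat_lit 252086747⟩, ⟨nat_lit 19, nat_lit 100, nat_lit 78, nat_lit 95, nat_lit 15241112⟩]⟩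
noncomputable def p061_l81 : Lf2 := ⟨nat_lit 0, nat_lit 10, [nat_lit 0, nat_lit 5, nat_lit 5, nat_lit 20], false, nat_lit 280, nat_lit 336, nat_lit 160, nat_lit 352, ⟨nat_lit 901, nat_lit 99, nat_lit 0, nat_lit 6, nat_lit 230, nat_lit 99, nat_lit 239, nat_lit 0, nat_lit 0, nat_lit 0, nat_lit 0, nat_lit 0, nat_lit 37744528, nat_lit 14197049, nat_lit 15058423, nat_lit 5339069, false, false⟩,
 nat_lit 0, nat_lit 0, nat_lit 10671, nat_lit 0, nat_lit 5065, nat_lit 6211, nat_lit 0, nat_lit 0, nat_lit 0, nat_lit 1702, nat_lit 0, nat_lit 0, nat_lit 0, nat_lit 0, nat_lit 0, nat_lit 24750, nat_lit 0, nat_lit 0, [(nat_lit 12, [(nat_lit 0, nat_lit 99)]), (nat_lit 15, [(nat_lit 0, nat_lit 99)])],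
 ⟨p061_k28, nat_lit 0, nat_lit 0, nat_lit 50, nat_lit 0, nat_lit 0, [nat_lit 3191118001, nat_lit 4495662801, nat_lit 9201430400], [], [nat_lit 19318571631, nat_lit 21938802441, nat_lit 21799953581, nat_lit 24165155530, nat_lit 23083020297, nat_lit 25534284888, nat_lit 25143399485, nat_lit 27239544545], nat_lit 0, nat_lit 0, nat_lit 0, nat_lit 0, nat_lit 0, nat_lit 0, [], [nat_lit 42, nat_lit 40, nat_lit 40, nat_lit 80, nat_lit 13, nat_lit 272, nat_lit 60, nat_lit 7]⟩, ⟨p061_k8, nat_lit 0, nat_lit 0, nat_lit 219, nat_lit 0, nat_lit 360584, [nat_lit 4223888000, nat_lit 5631250000, nat_lit 8867642000], [], [nat_lit 28424477334, nat_lit 25140485616, nat_lit 24741210902, nat_lit 21732863364, nat_lit 22434748506, nat_lit 23075913927, nat_lit 23877263698, nat_lit 24725948311], nat_lit 1271250, nat_lit 1271250, nat_lit 1100001, nat_lit 1785000, nat_lit 1271250, nat_lit 1271250, [nat_lit 1100000, nat_lit 1442500, nat_lit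 1271250], [nat_lit 11, nat_lit 40, nat_lit 40, nat_lit 80, nat_lit 1, nat_lit 456, nat_lit 225, nat_lit 12]⟩,
 ⟨nat_lit 4472, nat_lit 5478, ⟨.ofNat (nat_lit 489040), .ofNat (nat_lit 638835), .ofNat (nat_lit 510352), .ofNat (nat_lit 660148), .ofNat (nat_lit 496623), .ofNat (nat_lit 632509), .ofNat (nat_lit 518145), .ofNat (nat_lit 654031)⟩, ⟨.ofNat (nat_lit 543079), .ofNat (nat_lit 647986), .ofNat (nat_lit 564436), .ofNat (nat_lit 669343), .ofNat (nat_lit 528122), .ofNat (nat_lit 623292), .ofNat (nat_lit 549689), .ofNat (nat_lit 644858)⟩⟩, [⟨nat_lit 4, nat_lit 94, nat_lit 97, nat_lit 100, nat_lit 568106594⟩, ⟨nat_lit 19, nat_lit 100, nat_lit 78, nat_lit 95, nat_lit 72870968⟩]⟩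
noncomputable def b_V_700_600_20_12 : St := ⟨true, nat_lit 0, nat_lit 1, nat_lit 1, nat_lit 120, nat_lit 280, nat_lit 320, nat_lit 240, nat_lit 280, nat_lit 120, nat_lit 240, nat_lit 80, nat_lit 120, nat_lit 160, nat_lit 336, nat_lit 0, nat_lit 364, nat_lit 0, nat_lit 40, nat_lit 0, nat_lit 0, nat_lit 0, nat_lit 0⟩
theorem d_V_700_600_20_12 (h : EB TB.env) : Dead b_V_700_600_20_12 := chkB_sound0 h (T :=
(.spl (nat_lit 4) (nat_lit 240)
(.leaf p061_l66)
(.spl (nat_lit 4) (nat_lit 280)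
(.leaf p061_l67)
(.spl (nat_lit 3) (nat_lit 100)
(.trX (nat_lit 16) (nat_lit 100) (nat_lit 88) (nat_lit 94) (nat_lit 320) (.trX (nat_lit 19) (nat_lit 100) (nat_lit 68) (nat_lit 88) (nat_lit 352) (.spl (nat_lit 2) (nat_lit 160)
(.leaf p061_l68)
(.trZ (nat_lit 9) (nat_lit 94) (nat_lit 100) (nat_lit 21) (nat_lit 4) (.leaf p061_l69)))))
(.spl (nat_lit 1) (nat_lit 260)
(.leaf p061_l70)
(.trX (nat_lit 19) (nat_lit 100) (nat_lit 69) (nat_lit 96) (nat_lit 352) (.spl (nat_lit 2) (nat_lit 160)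
(.spl (nat_lit 5) (nat_lit 160)
(.spl (nat_lit 0) (nat_lit 300)
(.leaf p061_l71)
(.trX (nat_lit 16) (nat_lit 94) (nat_lit 88) (nat_lit 100) (nat_lit 320) (.leaf p061_l72)))
(.spl (nat_lit 6) (nat_lit 20)
(.spl (nat_lit 0) (nat_lit 300)
(.spl (nat_lit 0) (nat_lit 290)
(.leaf p061_l73)
(.trX (nat_lit 16) (nat_lit 97) (nat_lit 84) (nat_lit 100) (nat_lit 328) (.leaf p061_l74)))
(.trX (nat_lit 16) (nat_lit 94) (nat_lit 88) (nat_lit 100) (nat_lit 320) (.leaf p061_l75)))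
(.spl (nat_lit 0) (nat_lit 300)
(.leaf p061_l76)
(.trX (nat_lit 16) (nat_lit 94) (nat_lit 88) (nat_lit 100) (nat_lit 320) (.leaf p061_l77)))))
(.trZ (nat_lit 9) (nat_lit 94) (nat_lit 100) (nat_lit 21) (nat_lit 4) (.spl (nat_lit 5) (nat_lit 160)
(.leaf p061_l78)
(.spl (nat_lit 6) (nat_lit 20)
(.spl (nat_lit 0) (nat_lit 300)
(.leaf p061_l79)
(.trX (nat_lit 16) (nat_lit 94) (nat_lit 88) (nat_lit 100) (nat_lit 320) (.leaf p061_l80)))
(.leaf p061_l81))))))))))) (by decide +kernel)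
noncomputable def p061_l82 : Lf2 := ⟨nat_lit 0, nat_lit 10, [nat_lit 0, nat_lit 5, nat_lit 5, nat_lit 20], false, nat_lit 0, nat_lit 160, nat_lit 0, nat_lit 364, ⟨nat_lit 350, nat_lit 650, nat_lit 0, nat_lit 6, nat_lit 280, nat_lit 650, nat_lit 64, nat_lit 0, nat_lit 0, nat_lit 0, nat_lit 0, nat_lit 0, nat_lit 44975200, nat_lit 22024800, nat_lit 0, nat_lit 3166371, true, true⟩,
 nat_lit 0, nat_lit 0, nat_lit 5906, nat_lit 0, nat_lit 5493, nat_lit 3126, nat_lit 476, nat_lit 0, nat_lit 0, nat_lit 326, nat_lit 0, nat_lit 0, nat_lit 0, nat_lit 0, nat_lit 0, nat_lit 650000, nat_lit 0, nat_lit 0, [(nat_lit 12, [(nat_lit 2, nat_lit 650)])],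
 ⟨p061_k17, nat_lit 0, nat_lit 0, nat_lit 187, nat_lit 0, nat_lit 0, [nat_lit 2666580001, nat_lit 3452660000, nat_lit 3253600000], [], [nat_lit 21808876480, nat_lit 23099367342, nat_lit 26344279092, nat_lit 27904772120, nat_lit 18635593412, nat_lit 19734206933, nat_lit 22894058204, nat_lit 23958864432], nat_lit 0, nat_lit 0, nat_lit 0, nat_lit 0, nat_lit 0, nat_lit 0, [], [nat_lit 8, nat_lit 40, nat_lit 40, nat_lit 80, nat_lit 1, nat_lit 345, nat_lit 125, nat_lit 9]⟩, ⟨p061_k37, nat_lit 0, nat_lit 0, nat_lit 522, nat_lit 0, nat_lit 586964, [nat_lit 1640800000, nat_lit 2788800000, nat_lit 4155200000], [], [nat_lit 11805230312, nat_lit 11991798100, nat_lit 12668682256, nat_lit 12798289824, nat_lit 11469349725, nat_lit 11217198977, nat_lit 11556144362, nat_lit 11599531694], nat_lit 1271250, nat_lit 1271250, nat_lit 1271250, nat_lit 1271250, nat_lit 0, nat_lit 2570750, [nat_lit 1100000, nat_lit 1785000, nat_lit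 1271250], [nat_lit 21, nat_lit 40, nat_lit 40, nat_lit 80, nat_lit 14, nat_lit 483, nat_lit 250, nat_lit 12]⟩,
 ⟨nat_lit 5000, nat_lit 5478, ⟨.ofNat (nat_lit 617614), .ofNat (nat_lit 767454), .ofNat (nat_lit 638961), .ofNat (nat_lit 788802), .ofNat (nat_lit 614253), .ofNat (nat_lit 757084), .ofNat (nat_lit 635671), .ofNat (nat_lit 778503)⟩, ⟨.negSucc (nat_lit 2832), .ofNat (nat_lit 296923), .ofNat (nat_lit 0), .ofNat (nat_lit 339637), .ofNat (nat_lit 0), .ofNat (nat_lit 299999), .ofNat (nat_lit 0), .ofNat (nat_lit 342856)⟩⟩, [⟨nat_lit 19, nat_lit 100, nat_lit 72, nat_lit 89, nat_lit 14986904⟩, ⟨nat_lit 22, nat_lit 100, nat_lit 95, nat_lit 87, nat_lit 44709551⟩]⟩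
noncomputable def p061_l83 : Lf2 := ⟨nat_lit 0, nat_lit 10, [nat_lit 0, nat_lit 5, nat_lit 5, nat_lit 20], false, nat_lit 0, nat_lit 160, nat_lit 0, nat_lit 364, ⟨nat_lit 194, nat_lit 806, nat_lit 0, nat_lit 6, nat_lit 277, nat_lit 806, nat_lit 65, nat_lit 0, nat_lit 0, nat_lit 0, nat_lit 0, nat_lit 0, nat_lit 45258025, nat_lit 21741975, nat_lit 0, nat_lit 3151100, true, true⟩,
 nat_lit 0, nat_lit 0, nat_lit 3302, nat_lit 0, nat_lit 4410, nat_lit 1748, nat_lit 3, nat_lit 0, nat_lit 0, nat_lit 158, nat_lit 0, nat_lit 0, nat_lit 0, nat_lit 0, nat_lit 0, nat_lit 806000, nat_lit 0, nat_lit 0, [(nat_lit 15, [(nat_lit 2, nat_lit 806)])],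
 ⟨p061_k3, nat_lit 0, nat_lit 0, nat_lit 167, nat_lit 0, nat_lit 0, [nat_lit 2340269601, nat_lit 2057188001, nat_lit 983848800], [], [nat_lit 21635829645, nat_lit 22916139185, nat_lit 25878652400, nat_lit 27271284760, nat_lit 20246212486, nat_lit 21226012586, nat_lit 23551197267, nat_lit 24426177267], nat_lit 0, nat_lit 0, nat_lit 0, nat_lit 0, nat_lit 0, nat_lit 0, [], [nat_lit 18, nat_lit 40, nat_lit 40, nat_lit 80, nat_lit 2, nat_lit 249, nat_lit 40, nat_lit 8]⟩, ⟨p061_k37, nat_lit 0, nat_lit 0, nat_lit 681, nat_lit 0, nat_lit 921339, [nat_lit 909472000, nat_lit 1545792000, nat_lit 2303168000], [], [nat_lit 7039495008, nat_lit 7100341420, nat_lit 7337848872, nat_lit 7395640420, nat_lit 6340232480, nat_lit 6353916679, nat_lit 6450386812, nat_lit 6451393941], nat_lit 1271250, nat_lit 1271250, nat_lit 1271250, nat_lit 1271250, nat_lit 0, nat_lit 2570750, [nat_lit 1100000, nat_lit 1785000, nat_lit 1271250], [nat_lit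 21, nat_lit 40, nat_lit 40, nat_lit 80, nat_lit 14, nat_lit 483, nat_lit 250, nat_lit 12]⟩,
 ⟨nat_lit 4472, nat_lit 5000, ⟨.ofNat (nat_lit 614256), .ofNat (nat_lit 757103), .ofNat (nat_lit 635672), .ofNat (nat_lit 778519), .ofNat (nat_lit 611081), .ofNat (nat_lit 747027), .ofNat (nat_lit 632635), .ofNat (nat_lit 768581)⟩, ⟨.ofNat (nat_lit 0), .ofNat (nat_lit 299999), .ofNat (nat_lit 0), .ofNat (nat_lit 342856), .ofNat (nat_lit 0), .ofNat (nat_lit 302621), .ofNat (nat_lit 0), .ofNat (nat_lit 345754)⟩⟩, [⟨nat_lit 22, nat_lit 100, nat_lit 95, nat_lit 87, nat_lit 28794868⟩]⟩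
noncomputable def p061_l84 : Lf2 := ⟨nat_lit 0, nat_lit 10, [nat_lit 0, nat_lit 5, nat_lit 5, nat_lit 20], false, nat_lit 0, nat_lit 160, nat_lit 0, nat_lit 352, ⟨nat_lit 434, nat_lit 566, nat_lit 0, nat_lit 6, nat_lit 287, nat_lit 566, nat_lit 64, nat_lit 0, nat_lit 0, nat_lit 0, nat_lit 0, nat_lit 0, nat_lit 44217452, nat_lit 22782548, nat_lit 0, nat_lit 3205302, true, true⟩,
 nat_lit 0, nat_lit 0, nat_lit 5125, nat_lit 0, nat_lit 5384, nat_lit 2983, nat_lit 509, nat_lit 0, nat_lit 0, nat_lit 925, nat_lit 0, nat_lit 0, nat_lit 0, nat_lit 0, nat_lit 0, nat_lit 566000, nat_lit 0, nat_lit 0, [(nat_lit 12, [(nat_lit 2, nat_lit 566)]), (nat_lit 15, [(nat_lit 2, nat_lit 566)])],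
 ⟨p061_k17, nat_lit 0, nat_lit 0, nat_lit 192, nat_lit 0, nat_lit 0, [nat_lit 2746111201, nat_lit 3814162400, nat_lit 4105024000], [], [nat_lit 22431996865, nat_lit 24986876577, nat_lit 26721694817, nat_lit 29244449024, nat_lit 19379406881, nat_lit 21549668289, nat_lit 23342016352, nat_lit 25452140480], nat_lit 0, nat_lit 0, nat_lit 0, nat_lit 0, nat_lit 0, nat_lit 0, [], [nat_lit 8, nat_lit 40, nat_lit 40, nat_lit 80, nat_lit 1, nat_lit 345, nat_lit 125, nat_lit 9]⟩, ⟨p061_k38, nat_lit 0, nat_lit 0, nat_lit 630, nat_lit 0, nat_lit 972672, [nat_lit 2034592000, nat_lit 3458112000, nat_lit 4271428000], [], [nat_lit 13284811708, nat_lit 13436832024, nat_lit 13937233082, nat_lit 14049925144, nat_lit 12901036887, nat_lit 13021293997, nat_lit 13426739922, nat_lit 13512446448], nat_lit 1271250, nat_lit 1271250, nat_lit 1271250, nat_lit 1271250, nat_lit 0, nat_lit 2486000, [nat_lit 1100000, nat_lit 1785000, nat_lit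 1271250], [nat_lit 29, nat_lit 40, nat_lit 40, nat_lit 80, nat_lit 17, nat_lit 483, nat_lit 250, nat_lit 14]⟩,
 ⟨nat_lit 4472, nat_lit 5478, ⟨.ofNat (nat_lit 638835), .ofNat (nat_lit 788632), .ofNat (nat_lit 660148), .ofNat (nat_lit 809944), .ofNat (nat_lit 632509), .ofNat (nat_lit 768395), .ofNat (nat_lit 654031), .ofNat (nat_lit 789917)⟩, ⟨.negSucc (nat_lit 2834), .ofNat (nat_lit 296923), .ofNat (nat_lit 0), .ofNat (nat_lit 339637), .ofNat (nat_lit 0), .ofNat (nat_lit 302621), .ofNat (nat_lit 0), .ofNat (nat_lit 345754)⟩⟩, [⟨nat_lit 19, nat_lit 100, nat_lit 82, nat_lit 92, nat_lit 62608497⟩, ⟨nat_lit 22, nat_lit 100, nat_lit 95, nat_lit 87, nat_lit 21413119⟩]⟩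
noncomputable def p061_l85 : Lf2 := ⟨nat_lit 0, nat_lit 10, [nat_lit 0, nat_lit 5, nat_lit 5, nat_lit 20], false, nat_lit 0, nat_lit 160, nat_lit 0, nat_lit 336, ⟨nat_lit 1000, nat_lit 0, nat_lit 0, nat_lit 0, nat_lit 0, nat_lit 0, nat_lit 0, nat_lit 0, nat_lit 0, nat_lit 0, nat_lit 0, nat_lit 0, nat_lit 0, nat_lit 0, nat_lit 0, nat_lit 0, false, false⟩,
 nat_lit 0, nat_lit 0, nat_lit 15938, nat_lit 0, nat_lit 6832, nat_lit 8437, nat_lit 971, nat_lit 0, nat_lit 0, nat_lit 873, nat_lit 0, nat_lit 0, nat_lit 0, nat_lit 0, nat_lit 0, nat_lit 0, nat_lit 0, nat_lit 0, [],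
 ⟨p061_k17, nat_lit 0, nat_lit 0, nat_lit 217, nat_lit 0, nat_lit 0, [nat_lit 3282000000, nat_lit 6250000000, nat_lit 9842000000], [], [nat_lit 30242790791, nat_lit 31387248119, nat_lit 37895632512, nat_lit 39141914752, nat_lit 24841232167, nat_lit 25813848368, nat_lit 30808057248, nat_lit 31683175152], nat_lit 0, nat_lit 0, nat_lit 0, nat_lit 0, nat_lit 0, nat_lit 0, [], [nat_lit 8, nat_lit 40, nat_lit 40, nat_lit 80, nat_lit 1, nat_lit 249, nat_lit 40, nat_lit 6]⟩, ⟨p061_k37, nat_lit 0, nat_lit 0, nat_lit 521, nat_lit 0, nat_lit 586964, [nat_lit 4688000000, nat_lit 7968000000, nat_lit 11872000000], [], [nat_lit 37537707672, nat_lit 37910750188, nat_lit 41362874576, nat_lit 41692110538, nat_lit 33662295065, nat_lit 33842727044, nat_lit 36114078937, nat_lit 36621044850], nat_lit 1271250, nat_lit 1271250, nat_lit 1271250, nat_lit 1271250, nat_lit 0, nat_lit 2373000, [nat_lit 1100000, nat_lit 1785000, nat_lit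 1271250], [nat_lit 21, nat_lit 40, nat_lit 40, nat_lit 80, nat_lit 14, nat_lit 373, nat_lit 150, nat_lit 9]⟩,
 zbF0, [⟨nat_lit 22, nat_lit 82, nat_lit 76, nat_lit 100, nat_lit 138987527⟩]⟩
noncomputable def p061_l86 : Lf2 := ⟨nat_lit 0, nat_lit 10, [nat_lit 0, nat_lit 5, nat_lit 5, nat_lit 20], false, nat_lit 0, nat_lit 80, nat_lit 0, nat_lit 260, ⟨nat_lit 334, nat_lit 666, nat_lit 0, nat_lit 8, nat_lit 332, nat_lit 666, nat_lit 36, nat_lit 0, nat_lit 0, nat_lit 0, nat_lit 0, nat_lit 0, nat_lit 39708969, nat_lit 27291031, nat_lit 0, nat_lit 3379357, true, true⟩,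
 nat_lit 0, nat_lit 0, nat_lit 4714, nat_lit 0, nat_lit 3627, nat_lit 2495, nat_lit 1140, nat_lit 0, nat_lit 0, nat_lit 244, nat_lit 0, nat_lit 0, nat_lit 0, nat_lit 0, nat_lit 0, nat_lit 266400, nat_lit 0, nat_lit 0, [(nat_lit 15, [(nat_lit 1, nat_lit 666)])],
 ⟨p061_k3, nat_lit 0, nat_lit 0, nat_lit 197, nat_lit 0, nat_lit 0, [nat_lit 2441641201, nat_lit 3655841201, nat_lit 4203768000], [], [nat_lit 26380324759, nat_lit 27240550411, nat_lit 30353223441, nat_lit 31128723591, nat_lit 25168556095, nat_lit 25982089439, nat_lit 28916489397, nat_lit 29654912110], nat_lit 0, nat_lit 0, nat_lit 0, nat_lit 0, nat_lit 0, nat_lit 0, [], [nat_lit 18, nat_lit 40, nat_lit 40, nat_lit 80, nat_lit 2, nat_lit 226, nat_lit 20, nat_lit 6]⟩, ⟨p061_k37, nat_lit 0, nat_lit 0, nat_lit 669, nat_lit 0, nat_lit 921339, [nat_lit 1565792000, nat_lit 2661312000, nat_lit 3965248000], [], [nat_lit 14423357360, nat_lit 14498404884, nat_lit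 15179560911, nat_lit 15220242932, nat_lit 12779168986, nat_lit 12815971033, nat_lit 13380740950, nat_lit 13406093919], nat_lit 1271250, nat_lit 1271250, nat_lit 1271250, nat_lit 1271250, nat_lit 0, nat_lit 1836250, [nat_lit 1100000, nat_lit 1785000, nat_lit 1271250], [nat_lit 21, nat_lit 40, nat_lit 40, nat_lit 80, nat_lit 14, nat_lit 373, nat_lit 150, nat_lit 9]⟩,
 ⟨nat_lit 4472, nat_lit 5000, ⟨.ofNat (nat_lit 757103), .ofNat (nat_lit 892808), .ofNat (nat_lit 778519), .ofNat (nat_lit 914224), .ofNat (nat_lit 747027), .ofNat (nat_lit 876177), .ofNat (nat_lit 768581), .ofNat (nat_lit 897731)⟩, ⟨.ofNat (nat_lit 0), .ofNat (nat_lit 157141), .ofNat (nat_lit 0), .ofNat (nat_lit 199998), .ofNat (nat_lit 0), .ofNat (nat_lit 166665), .ofNat (nat_lit 0), .ofNat (nat_lit 200000)⟩⟩, [⟨nat_lit 13, nat_lit 86, nat_lit 33, nat_lit 100, nat_lit 63945787⟩, ⟨nat_lit 10, nat_lit 100, nat_lit 58, nat_lit 64, nat_lit 59593318⟩]⟩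
noncomputable def p061_l87 : Lf2 := ⟨nat_lit 0, nat_lit 10, [nat_lit 0, nat_lit 5, nat_lit 5, nat_lit 20], false, nat_lit 80, nat_lit 160, nat_lit 0, nat_lit 336, ⟨nat_lit 164, nat_lit 836, nat_lit 0, nat_lit 8, nat_lit 332, nat_lit 836, nat_lit 101, nat_lit 0, nat_lit 0, nat_lit 0, nat_lit 0, nat_lit 0, nat_lit 37193046, nat_lit 25909163, nat_lit 3897791, nat_lit 4536298, true, true⟩,
 nat_lit 0, nat_lit 0, nat_lit 2634, nat_lit 0, nat_lit 4064, nat_lit 1394, nat_lit 0, nat_lit 0, nat_lit 0, nat_lit 118, nat_lit 0, nat_lit 0, nat_lit 0, nat_lit 0, nat_lit 0, nat_lit 695000, nat_lit 0, nat_lit 0, [(nat_lit 15, [(nat_lit 1, nat_lit 235), (nat_lit 2, nat_lit 601)])],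
 ⟨p061_k3, nat_lit 0, nat_lit 0, nat_lit 137, nat_lit 0, nat_lit 0, [nat_lit 2283268601, nat_lit 2208241667, nat_lit 1431994800], [], [nat_lit 24142849017, nat_lit 25013158985, nat_lit 28145846292, nat_lit 29064307997, nat_lit 24412666681, nat_lit 25200345481, nat_lit 28045167867, nat_lit 28725507324], nat_lit 0, nat_lit 0, nat_lit 0, nat_lit 0, nat_lit 0, nat_lit 0, [], [nat_lit 18, nat_lit 40, nat_lit 40, nat_lit 80, nat_lit 2, nat_lit 249, nat_lit 40, nat_lit 7]⟩, ⟨p061_k37, nat_lit 0, nat_lit 0, nat_lit 669, nat_lit 0, nat_lit 921339, [nat_lit 768832000, nat_lit 1306752000, nat_lit 1947008000], [], [nat_lit 6567700456, nat_lit 6601124640, nat_lit 6954274533, nat_lit 6968992073, nat_lit 5712955089, nat_lit 5722209084, nat_lit 5960980718, nat_lit 5964261633], nat_lit 1271250, nat_lit 1271250, nat_lit 1271250, nat_lit 1271250, nat_lit 0, nat_lit 2373000, [nat_lit 1100000, nat_lit 1785000, nat_lit 1271250],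 [nat_lit 21, nat_lit 40, nat_lit 40, nat_lit 80, nat_lit 14, nat_lit 373, nat_lit 150, nat_lit 9]⟩,
 ⟨nat_lit 4472, nat_lit 5000, ⟨.ofNat (nat_lit 757103), .ofNat (nat_lit 892808), .ofNat (nat_lit 778519), .ofNat (nat_lit 914224), .ofNat (nat_lit 747027), .ofNat (nat_lit 876177), .ofNat (nat_lit 768581), .ofNat (nat_lit 897731)⟩, ⟨.ofNat (nat_lit 157141), .ofNat (nat_lit 299999), .ofNat (nat_lit 199998), .ofNat (nat_lit 342856), .ofNat (nat_lit 166665), .ofNat (nat_lit 302621), .ofNat (nat_lit 200000), .ofNat (nat_lit 345754)⟩⟩, [⟨nat_lit 13, nat_lit 86, nat_lit 33, nat_lit 100, nat_lit 73787716⟩, ⟨nat_lit 10, nat_lit 100, nat_lit 25, nat_lit 93, nat_lit 68984825⟩]⟩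
noncomputable def p061_l88 : Lf2 := ⟨nat_lit 0, nat_lit 10, [nat_lit 0, nat_lit 5, nat_lit 5, nat_lit 20], false, nat_lit 0, nat_lit 160, nat_lit 0, nat_lit 336, ⟨nat_lit 1000, nat_lit 0, nat_lit 0, nat_lit 0, nat_lit 0, nat_lit 0, nat_lit 0, nat_lit 0, nat_lit 0, nat_lit 0, nat_lit 0, nat_lit 0, nat_lit 0, nat_lit 0, nat_lit 0, nat_lit 0, false, false⟩,
 nat_lit 0, nat_lit 0, nat_lit 10926, nat_lit 0, nat_lit 7370, nat_lit 6359, nat_lit 979, nat_lit 0, nat_lit 0, nat_lit 2099, nat_lit 0, nat_lit 0, nat_lit 0, nat_lit 0, nat_lit 0, nat_lit 0, nat_lit 0, nat_lit 0, [],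
 ⟨p061_k17, nat_lit 0, nat_lit 0, nat_lit 217, nat_lit 0, nat_lit 0, [nat_lit 3282000000, nat_lit 6250000000, nat_lit 9842000000], [], [nat_lit 30466365935, nat_lit 31655210415, nat_lit 39303371920, nat_lit 40598380820, nat_lit 24425646095, nat_lit 25435216880, nat_lit 30889408560, nat_lit 32027141920], nat_lit 0, nat_lit 0, nat_lit 0, nat_lit 0, nat_lit 0, nat_lit 0, [], [nat_lit 8, nat_lit 40, nat_lit 40, nat_lit 80, nat_lit 1, nat_lit 249, nat_lit 40, nat_lit 6]⟩, ⟨p061_k38, nat_lit 0, nat_lit 0, nat_lit 507, nat_lit 0, nat_lit 697409, [nat_lit 4688000000, nat_lit 7968000000, nat_lit 9842000000], [], [nat_lit 33359862958, nat_lit 33696441416, nat_lit 35922635346, nat_lit 36657973144, nat_lit 31853079404, nat_lit 32082523954, nat_lit 34162976988, nat_lit 34664385497], nat_lit 1271250, nat_lit 1271250, nat_lit 1271250, nat_lit 1271250, nat_lit 0, nat_lit 2373000, [nat_lit 1100000, nat_lit 1785000, nat_lit 1271250],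 [nat_lit 29, nat_lit 40, nat_lit 40, nat_lit 80, nat_lit 17, nat_lit 401, nat_lit 175, nat_lit 11]⟩,
 zbF0, [⟨nat_lit 22, nat_lit 82, nat_lit 76, nat_lit 100, nat_lit 194772054⟩]⟩
noncomputable def p061_l89 : Lf2 := ⟨nat_lit 0, nat_lit 10, [nat_lit 0, nat_lit 5, nat_lit 5, nat_lit 20], false, nat_lit 0, nat_lit 160, nat_lit 0, nat_lit 336, ⟨nat_lit 1000, nat_lit 0, nat_lit 0, nat_lit 0, nat_lit 0, nat_lit 0, nat_lit 0, nat_lit 0, nat_lit 0, nat_lit 0, nat_lit 0, nat_lit 0, nat_lit 0, nat_lit 0, nat_lit 0, nat_lit 0, false, false⟩,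
 nat_lit 0, nat_lit 0, nat_lit 11095, nat_lit 0, nat_lit 5523, nat_lit 6458, nat_lit 1940, nat_lit 0, nat_lit 0, nat_lit 2057, nat_lit 0, nat_lit 0, nat_lit 0, nat_lit 0, nat_lit 0, nat_lit 0, nat_lit 0, nat_lit 0, [],
 ⟨p061_k3, nat_lit 0, nat_lit 0, nat_lit 199, nat_lit 0, nat_lit 0, [nat_lit 3282000000, nat_lit 6250000000, nat_lit 7968000000], [], [nat_lit 27960897320, nat_lit 29526040228, nat_lit 35598208278, nat_lit 36725934388, nat_lit 23781455332, nat_lit 24639221688, nat_lit 29838047968, nat_lit 30836281112], nat_lit 0, nat_lit 0, nat_lit 0, nat_lit 0, nat_lit 0, nat_lit 0, [], [nat_lit 18, nat_lit 40, nat_lit 40, nat_lit 80, nat_lit 2, nat_lit 249, nat_lit 40, nat_lit 7]⟩, ⟨p061_k38, nat_lit 0, nat_lit 0, nat_lit 623, nat_lit 0, nat_lit 972672, [nat_lit 4688000000, nat_lit 7968000000, nat_lit 9842000000], [], [nat_lit 34458203500, nat_lit 34722769384, nat_lit 36693114792, nat_lit 36917959368, nat_lit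 32723139856, nat_lit 32946997820, nat_lit 34643963884, nat_lit 34783720353], nat_lit 1271250, nat_lit 1271250, nat_lit 1271250, nat_lit 1271250, nat_lit 0, nat_lit 2373000, [nat_lit 1100000, nat_lit 1785000, nat_lit 1271250], [nat_lit 29, nat_lit 40, nat_lit 40, nat_lit 80, nat_lit 17, nat_lit 401, nat_lit 175, nat_lit 11]⟩,
 zbF0, [⟨nat_lit 7, nat_lit 82, nat_lit 100, nat_lit 92, nat_lit 96188229⟩, ⟨nat_lit 10, nat_lit 74, nat_lit 60, nat_lit 100, nat_lit 115209366⟩]⟩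
noncomputable def b_V_700_600_20_13 : St := ⟨true, nat_lit 0, nat_lit 1, nat_lit 1, nat_lit 120, nat_lit 280, nat_lit 320, nat_lit 240, nat_lit 280, nat_lit 240, nat_lit 400, nat_lit 80, nat_lit 120, nat_lit 0, nat_lit 160, nat_lit 0, nat_lit 364, nat_lit 0, nat_lit 40, nat_lit 0, nat_lit 0, nat_lit 0, nat_lit 0⟩
theorem d_V_700_600_20_13 (h : EB TB.env) : Dead b_V_700_600_20_13 := chkB_sound0 h (T :=
(.spl (nat_lit 2) (nat_lit 320)
(.spl (nat_lit 1) (nat_lit 260)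
(.spl (nat_lit 0) (nat_lit 300)
(.leaf p061_l82)
(.leaf p061_l83))
(.trX (nat_lit 19) (nat_lit 100) (nat_lit 69) (nat_lit 96) (nat_lit 352) (.leaf p061_l84)))
(.trX (nat_lit 22) (nat_lit 82) (nat_lit 76) (nat_lit 100) (nat_lit 336) (.spl (nat_lit 1) (nat_lit 260)
(.spl (nat_lit 0) (nat_lit 300)
(.leaf p061_l85)
(.trX (nat_lit 13) (nat_lit 91) (nat_lit 23) (nat_lit 100) (nat_lit 396) (.spl (nat_lit 4) (nat_lit 80)
(.trX (nat_lit 22) (nat_lit 83) (nat_lit 100) (nat_lit 83) (nat_lit 260) (.leaf p061_l86))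
(.leaf p061_l87))))
(.spl (nat_lit 0) (nat_lit 300)
(.leaf p061_l88)
(.leaf p061_l89)))))) (by decide +kernel)
noncomputable def p061_l90 : Lf2 := ⟨nat_lit 0, nat_lit 10, [nat_lit 0, nat_lit 5, nat_lit 5, nat_lit 20], true, nat_lit 160, nat_lit 240, nat_lit 0, nat_lit 364, ⟨nat_lit 0, nat_lit 1000, nat_lit 0, nat_lit 6, nat_lit 283, nat_lit 1000, nat_lit 157, nat_lit 0, nat_lit 0, nat_lit 0, nat_lit 0, nat_lit 0, nat_lit 38748995, nat_lit 20321422, nat_lit 7929583, nat_lit 4995813, true, true⟩,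
 nat_lit 0, nat_lit 0, nat_lit 0, nat_lit 2833, nat_lit 3995, nat_lit 0, nat_lit 0, nat_lit 0, nat_lit 0, nat_lit 0, nat_lit 0, nat_lit 0, nat_lit 0, nat_lit 0, nat_lit 0, nat_lit 250000, nat_lit 0, nat_lit 0, [(nat_lit 12, [(nat_lit 0, nat_lit 1000)]), (nat_lit 15, [(nat_lit 0, nat_lit 1000)])],
 ⟨p061_k17, nat_lit 0, nat_lit 0, nat_lit 51, nat_lit 0, nat_lit 0, [nat_lit 2364000000, nat_lit 2954000000, nat_lit 3510800000], [], [nat_lit 17238430480, nat_lit 19808281200, nat_lit 21673254500, nat_lit 23776179040, nat_lit 19947681800, nat_lit 22159217620, nat_lit 23759782880, nat_lit 25581704820], nat_lit 0, nat_lit 0, nat_lit 0, nat_lit 0, nat_lit 0, nat_lit 0, [], [nat_lit 8, nat_lit 40, nat_lit 40, nat_lit 80, nat_lit 1, nat_lit 373, nat_lit 150, nat_lit 10]⟩, C1.Rw.none,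
 ⟨nat_lit 4472, nat_lit 5478, ⟨.ofNat (nat_lit 617523), .ofNat (nat_lit 767319), .ofNat (nat_lit 660148), .ofNat (nat_lit 809944), .ofNat (nat_lit 610987), .ofNat (nat_lit 746873), .ofNat (nat_lit 654031), .ofNat (nat_lit 789917)⟩, ⟨.ofNat (nat_lit 296923), .ofNat (nat_lit 446789), .ofNat (nat_lit 339637), .ofNat (nat_lit 489503), .ofNat (nat_lit 302621), .ofNat (nat_lit 438578), .ofNat (nat_lit 345754), .ofNat (nat_lit 481711)⟩⟩, []⟩
noncomputable def p061_l91 : Lf2 := ⟨nat_lit 0, nat_lit 10, [nat_lit 0, nat_lit 5, nat_lit 5, nat_lit 20], false, nat_lit 240, nat_lit 336, nat_lit 16, nat_lit 364, ⟨nat_lit 297, nat_lit 703, nat_lit 0, nat_lit 6, nat_lit 278, nat_lit 703, nat_lit 222, nat_lit 0, nat_lit 0, nat_lit 0, nat_lit 0, nat_lit 0, nat_lit 35667307, nat_lit 18505710, nat_lit 12826983, nat_lit 5447842, true, true⟩,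
 nat_lit 0, nat_lit 0, nat_lit 5054, nat_lit 0, nat_lit 4056, nat_lit 2675, nat_lit 0, nat_lit 0, nat_lit 0, nat_lit 252, nat_lit 0, nat_lit 0, nat_lit 0, nat_lit 0, nat_lit 0, nat_lit 281200, nat_lit 0, nat_lit 0, [(nat_lit 12, [(nat_lit 1, nat_lit 703)])],
 ⟨p061_k17, nat_lit 0, nat_lit 0, nat_lit 61, nat_lit 0, nat_lit 0, [nat_lit 2428839201, nat_lit 3769253600, nat_lit 4776463200], [], [nat_lit 19951108641, nat_lit 21064295249, nat_lit 23785595745, nat_lit 24701766481, nat_lit 24702980827, nat_lit 25579078449, nat_lit 27871322861, nat_lit 28658340257], nat_lit 0, nat_lit 0, nat_lit 0, nat_lit 0, nat_lit 0, nat_lit 0, [], [nat_lit 8, nat_lit 40, nat_lit 40, nat_lit 80, nat_lit 1, nat_lit 401, nat_lit 175, nat_lit 10]⟩, ⟨p061_k37, nat_lit 0, nat_lit 0, nat_lit 432, nat_lit 0, nat_lit 489911, [nat_lit 1392336000, nat_lit 2366496000, nat_lit 3525984000], [], [nat_lit 9854789588, nat_lit 9932978053, nat_lit 10579302458,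 nat_lit 10633478093, nat_lit 10035731259, nat_lit 9446076863, nat_lit 9737687318, nat_lit 9756547297], nat_lit 1271250, nat_lit 1271250, nat_lit 1271250, nat_lit 1271250, nat_lit 88400, nat_lit 2598350, [nat_lit 1100000, nat_lit 1785000, nat_lit 1271250], [nat_lit 21, nat_lit 40, nat_lit 40, nat_lit 80, nat_lit 14, nat_lit 483, nat_lit 250, nat_lit 12]⟩,
 ⟨nat_lit 5000, nat_lit 5478, ⟨.ofNat (nat_lit 617614), .ofNat (nat_lit 767454), .ofNat (nat_lit 628288), .ofNat (nat_lit 778128), .ofNat (nat_lit 614253), .ofNat (nat_lit 757084), .ofNat (nat_lit 624962), .ofNat (nat_lit 767793)⟩, ⟨.ofNat (nat_lit 446789), .ofNat (nat_lit 626629), .ofNat (nat_lit 489503), .ofNat (nat_lit 669336), .ofNat (nat_lit 442856), .ofNat (nat_lit 614284), .ofNat (nat_lit 485713), .ofNat (nat_lit 657134)⟩⟩, [⟨nat_lit 4, nat_lit 94, nat_lit 100, nat_lit 97, nat_lit 269048966⟩, ⟨nat_lit 19, nat_lit 100, nat_lit 59, nat_lit 94, nat_lit 49863620⟩]⟩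
noncomputable def p061_l92 : Lf2 := ⟨nat_lit 0, nat_lit 10, [nat_lit 0, nat_lit 5, nat_lit 5, nat_lit 20], false, nat_lit 240, nat_lit 320, nat_lit 16, nat_lit 364, ⟨nat_lit 119, nat_lit 881, nat_lit 0, nat_lit 6, nat_lit 275, nat_lit 881, nat_lit 213, nat_lit 0, nat_lit 0, nat_lit 0, nat_lit 0, nat_lit 0, nat_lit 36333112, nat_lit 18476350, nat_lit 12190538, nat_lit 5388204, true, true⟩,
 nat_lit 0, nat_lit 0, nat_lit 2047, nat_lit 0, nat_lit 3845, nat_lit 1083, nat_lit 0, nat_lit 0, nat_lit 0, nat_lit 99, nat_lit 0, nat_lit 0, nat_lit 0, nat_lit 0, nat_lit 0, nat_lit 220250, nat_lit 0, nat_lit 0, [(nat_lit 15, [(nat_lit 0, nat_lit 881)])],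
 ⟨p061_k3, nat_lit 0, nat_lit 0, nat_lit 60, nat_lit 0, nat_lit 0, [nat_lit 2433068400, nat_lit 3144298800, nat_lit 3659145400], [], [nat_lit 21255289410, nat_lit 22342814620, nat_lit 24822967750, nat_lit 25721117820, nat_lit 24822967750, nat_lit 25721117820, nat_lit 27757103920, nat_lit 28503583440], nat_lit 0, nat_lit 0, nat_lit 0, nat_lit 0, nat_lit 0, nat_lit 0, [], [nat_lit 18, nat_lit 40, nat_lit 40, nat_lit 80, nat_lit 2, nat_lit 203, nat_lit 0, nat_lit 5]⟩, ⟨p061_k37, nat_lit 0, nat_lit 0, nat_lit 617, nat_lit 0, nat_lit 832786, [nat_lit 557872000, nat_lit 948192000, nat_lit 1412768000], [], [nat_lit 4165501949, nat_lit 4183783588, nat_lit 4360513449, nat_lit 4378795088, nat_lit 4009799279, nat_lit 3847175493, nat_lit 3910683176, nat_lit 3919153676], nat_lit 1271250, nat_lit 1271250, nat_lit 1271250, nat_lit 1271250, nat_lit 88400, nat_lit 2598350, [nat_lit 1100000, nat_lit 1785000, nat_lit 1271250],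 [nat_lit 21, nat_lit 40, nat_lit 40, nat_lit 80, nat_lit 14, nat_lit 483, nat_lit 250, nat_lit 12]⟩,
 ⟨nat_lit 4472, nat_lit 5000, ⟨.ofNat (nat_lit 614256), .ofNat (nat_lit 757103), .ofNat (nat_lit 624963), .ofNat (nat_lit 767811), .ofNat (nat_lit 611081), .ofNat (nat_lit 747027), .ofNat (nat_lit 621858), .ofNat (nat_lit 757805)⟩, ⟨.ofNat (nat_lit 442856), .ofNat (nat_lit 585713), .ofNat (nat_lit 485713), .ofNat (nat_lit 628570), .ofNat (nat_lit 438578), .ofNat (nat_lit 574534), .ofNat (nat_lit 481711), .ofNat (nat_lit 617667)⟩⟩, [⟨nat_lit 16, nat_lit 94, nat_lit 88, nat_lit 100, nat_lit 203349114⟩, ⟨nat_lit 19, nat_lit 100, nat_lit 59, nat_lit 94, nat_lit 18249667⟩]⟩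
noncomputable def p061_l93 : Lf2 := ⟨nat_lit 0, nat_lit 10, [nat_lit 0, nat_lit 5, nat_lit 5, nat_lit 20], false, nat_lit 240, nat_lit 336, nat_lit 16, nat_lit 360, ⟨nat_lit 471, nat_lit 529, nat_lit 0, nat_lit 6, nat_lit 282, nat_lit 529, nat_lit 222, nat_lit 0, nat_lit 0, nat_lit 0, nat_lit 0, nat_lit 0, nat_lit 35387236, nat_lit 18862681, nat_lit 12750083, nat_lit 5460084, true, true⟩,
 nat_lit 0, nat_lit 0, nat_lit 6981, nat_lit 0, nat_lit 4483, nat_lit 3878, nat_lit 0, nat_lit 0, nat_lit 0, nat_lit 896, nat_lit 0, nat_lit 0, nat_lit 0, nat_lit 0, nat_lit 0, nat_lit 132250, nat_lit 0, nat_lit 0, [(nat_lit 12, [(nat_lit 0, nat_lit 529)])],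
 ⟨p061_k17, nat_lit 0, nat_lit 0, nat_lit 61, nat_lit 0, nat_lit 0, [nat_lit 2796378001, nat_lit 4506416000, nat_lit 6456057200], [], [nat_lit 19888760921, nat_lit 21053878415, nat_lit 23879950193, nat_lit 24832589291, nat_lit 24842312722, nat_lit 25837769895, nat_lit 28198335175, nat_lit 29010562309], nat_lit 0, nat_lit 0, nat_lit 0, nat_lit 0, nat_lit 0, nat_lit 0, [], [nat_lit 8, nat_lit 40, nat_lit 40, nat_lit 80, nat_lit 1, nat_lit 401, nat_lit 175, nat_lit 10]⟩, ⟨p061_k39, nat_lit 0, nat_lit 0, nat_lit 427, nat_lit 0, nat_lit 546598, [nat_lit 2208048000, nat_lit 3752928000, nat_lit 4635582000], [], [nat_lit 13702992155, nat_lit 13868119239, nat_lit 15132258520, nat_lit 15254565777, nat_lit 14528644785, nat_lit 13808926775, nat_lit 14993225411, nat_lit 15161485058], nat_lit 1271250, nat_lit 1271250, nat_lit 1271250, nat_lit 1271250, nat_lit 88400, nat_lit 2569500, [nat_lit 1100000, nat_lit 1785000, nat_lit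 1271250], [nat_lit 29, nat_lit 40, nat_lit 40, nat_lit 80, nat_lit 17, nat_lit 483, nat_lit 250, nat_lit 13]⟩,
 ⟨nat_lit 5000, nat_lit 5478, ⟨.ofNat (nat_lit 628288), .ofNat (nat_lit 778128), .ofNat (nat_lit 638961), .ofNat (nat_lit 788802), .ofNat (nat_lit 624962), .ofNat (nat_lit 767793), .ofNat (nat_lit 635671), .ofNat (nat_lit 778503)⟩, ⟨.ofNat (nat_lit 446789), .ofNat (nat_lit 626629), .ofNat (nat_lit 489503), .ofNat (nat_lit 669336), .ofNat (nat_lit 442856), .ofNat (nat_lit 614284), .ofNat (nat_lit 485713), .ofNat (nat_lit 657134)⟩⟩, [⟨nat_lit 16, nat_lit 100, nat_lit 94, nat_lit 97, nat_lit 325047666⟩, ⟨nat_lit 7, nat_lit 75, nat_lit 100, nat_lit 90, nat_lit 102816837⟩]⟩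
noncomputable def p061_l94 : Lf2 := ⟨nat_lit 0, nat_lit 10, [nat_lit 0, nat_lit 5, nat_lit 5, nat_lit 20], false, nat_lit 240, nat_lit 320, nat_lit 16, nat_lit 360, ⟨nat_lit 339, nat_lit 661, nat_lit 0, nat_lit 6, nat_lit 280, nat_lit 661, nat_lit 214, nat_lit 0, nat_lit 0, nat_lit 0, nat_lit 0, nat_lit 0, nat_lit 35956928, nat_lit 18877838, nat_lit 12165234, nat_lit 5407722, true, true⟩,
 nat_lit 0, nat_lit 0, nat_lit 4731, nat_lit 0, nat_lit 4115, nat_lit 2628, nat_lit 0, nat_lit 0, nat_lit 0, nat_lit 703, nat_lit 0, nat_lit 0, nat_lit 0, nat_lit 0, nat_lit 0, nat_lit 264400, nat_lit 0, nat_lit 0, [(nat_lit 15, [(nat_lit 1, nat_lit 661)])],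
 ⟨p061_k3, nat_lit 0, nat_lit 0, nat_lit 58, nat_lit 0, nat_lit 0, [nat_lit 2447950201, nat_lit 3675316867, nat_lit 4232028000], [], [nat_lit 21031182871, nat_lit 21591363906, nat_lit 24688169651, nat_lit 25148774496, nat_lit 24688169651, nat_lit 25148774496, nat_lit 27893300940, nat_lit 28307348890], nat_lit 0, nat_lit 0, nat_lit 0, nat_lit 0, nat_lit 0, nat_lit 0, [], [nat_lit 18, nat_lit 40, nat_lit 40, nat_lit 80, nat_lit 2, nat_lit 203, nat_lit 0, nat_lit 5]⟩, ⟨p061_k39, nat_lit 0, nat_lit 0, nat_lit 487, nat_lit 0, nat_lit 697591, [nat_lit 1589232000, nat_lit 2701152000, nat_lit 3336438000], [], [nat_lit 10159379511, nat_lit 10253367275, nat_lit 11094249243, nat_lit 11181522711, nat_lit 10613270826, nat_lit 10292496375, nat_lit 10664190854, nat_lit 10769324202], nat_lit 1271250, nat_lit 1271250, nat_lit 1271250, nat_lit 1271250, nat_lit 88400, nat_lit 2569500, [nat_lit 1100000, nat_lit 1785000, nat_lit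 1271250], [nat_lit 29, nat_lit 40, nat_lit 40, nat_lit 80, nat_lit 17, nat_lit 483, nat_lit 250, nat_lit 13]⟩,
 ⟨nat_lit 4743, nat_lit 5000, ⟨.ofNat (nat_lit 624990), .ofNat (nat_lit 767844), .ofNat (nat_lit 635703), .ofNat (nat_lit 778556), .ofNat (nat_lit 623410), .ofNat (nat_lit 762807), .ofNat (nat_lit 634153), .ofNat (nat_lit 773549)⟩, ⟨.ofNat (nat_lit 442856), .ofNat (nat_lit 585713), .ofNat (nat_lit 485713), .ofNat (nat_lit 628570), .ofNat (nat_lit 440769), .ofNat (nat_lit 580169), .ofNat (nat_lit 483746), .ofNat (nat_lit 623145)⟩⟩, [⟨nat_lit 16, nat_lit 94, nat_lit 88, nat_lit 100, nat_lit 285002521⟩, ⟨nat_lit 19, nat_lit 100, nat_lit 64, nat_lit 95, nat_lit 64788838⟩]⟩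
noncomputable def p061_l95 : Lf2 := ⟨nat_lit 0, nat_lit 10, [nat_lit 0, nat_lit 5, nat_lit 5, nat_lit 20], false, nat_lit 240, nat_lit 312, nat_lit 16, nat_lit 360, ⟨nat_lit 251, nat_lit 749, nat_lit 0, nat_lit 6, nat_lit 279, nat_lit 749, nat_lit 209, nat_lit 0, nat_lit 0, nat_lit 0, nat_lit 0, nat_lit 0, nat_lit 36277372, nat_lit 18862752, nat_lit 11859876, nat_lit 5377849, true, true⟩,
 nat_lit 0, nat_lit 0, nat_lit 3361, nat_lit 0, nat_lit 3982, nat_lit 1867, nat_lit 0, nat_lit 0, nat_lit 0, nat_lit 637, nat_lit 0, nat_lit 0, nat_lit 0, nat_lit 0, nat_lit 0, nat_lit 187250, nat_lit 0, nat_lit 0, [(nat_lit 15, [(nat_lit 0, nat_lit 749)])],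
 ⟨p061_k40, nat_lit 0, nat_lit 0, nat_lit 59, nat_lit 0, nat_lit 0, [nat_lit 2560263600, nat_lit 3609625200, nat_lit 4300596400], [], [nat_lit 21813313594, nat_lit 22365407032, nat_lit 25329139606, nat_lit 25784064952, nat_lit 24977557005, nat_lit 25442199160, nat_lit 27925887072, nat_lit 28310798097], nat_lit 0, nat_lit 0, nat_lit 0, nat_lit 0, nat_lit 0, nat_lit 0, [], [nat_lit 18, nat_lit 40, nat_lit 40, nat_lit 80, nat_lit 2, nat_lit 203, nat_lit 0, nat_lit 5]⟩, ⟨p061_k39, nat_lit 0, nat_lit 0, nat_lit 571, nat_lit 0, nat_lit 857718, [nat_lit 1176688000, nat_lit 1999968000, nat_lit 2470342000], [], [nat_lit 8111072840, nat_lit 8154795047, nat_lit 8503203167, nat_lit 8534249197, nat_lit 7860761887, nat_lit 7754276997, nat_lit 7915591178, nat_lit 7923906659], nat_lit 1271250, nat_lit 1271250, nat_lit 1271250, nat_lit 1271250, nat_lit 88400, nat_lit 2569500, [nat_lit 1100000, nat_lit 1785000, nat_lit 1271250],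 [nat_lit 29, nat_lit 40, nat_lit 40, nat_lit 80, nat_lit 17, nat_lit 483, nat_lit 250, nat_lit 13]⟩,
 ⟨nat_lit 4472, nat_lit 4744, ⟨.ofNat (nat_lit 623411), .ofNat (nat_lit 762809), .ofNat (nat_lit 634153), .ofNat (nat_lit 773551), .ofNat (nat_lit 621885), .ofNat (nat_lit 757840), .ofNat (nat_lit 632666), .ofNat (nat_lit 768622)⟩, ⟨.ofNat (nat_lit 440769), .ofNat (nat_lit 566229), .ofNat (nat_lit 483746), .ofNat (nat_lit 609205), .ofNat (nat_lit 438578), .ofNat (nat_lit 560938), .ofNat (nat_lit 481711), .ofNat (nat_lit 604071)⟩⟩, [⟨nat_lit 16, nat_lit 91, nat_lit 91, nat_lit 100, nat_lit 249937149⟩, ⟨nat_lit 19, nat_lit 100, nat_lit 64, nat_lit 95, nat_lit 43198353⟩]⟩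
noncomputable def p061_l96 : Lf2 := ⟨nat_lit 0, nat_lit 10, [nat_lit 0, nat_lit 5, nat_lit 5, nat_lit 20], false, nat_lit 240, nat_lit 336, nat_lit 16, nat_lit 352, ⟨nat_lit 1000, nat_lit 0, nat_lit 0, nat_lit 0, nat_lit 0, nat_lit 0, nat_lit 0, nat_lit 0, nat_lit 0, nat_lit 0, nat_lit 0, nat_lit 0, nat_lit 0, nat_lit 0, nat_lit 0, nat_lit 0, false, false⟩,
 nat_lit 0, nat_lit 0, nat_lit 11989, nat_lit 0, nat_lit 4944, nat_lit 6978, nat_lit 0, nat_lit 0, nat_lit 0, nat_lit 2272, nat_lit 0, nat_lit 0, nat_lit 0, nat_lit 0, nat_lit 0, nat_lit 0, nat_lit 0, nat_lit 0, [],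
 ⟨p061_k17, nat_lit 0, nat_lit 0, nat_lit 61, nat_lit 0, nat_lit 0, [nat_lit 3282000000, nat_lit 6250000000, nat_lit 9842000000], [], [nat_lit 19910266560, nat_lit 21131449952, nat_lit 24070635456, nat_lit 25062646720, nat_lit 25081556775, nat_lit 26117936007, nat_lit 28551385940, nat_lit 29390830145], nat_lit 0, nat_lit 0, nat_lit 0, nat_lit 0, nat_lit 0, nat_lit 0, [], [nat_lit 8, nat_lit 40, nat_lit 40, nat_lit 80, nat_lit 1, nat_lit 401, nat_lit 175, nat_lit 10]⟩, ⟨p061_k38, nat_lit 0, nat_lit 0, nat_lit 448, nat_lit 0, nat_lit 601129, [nat_lit 4688000000, nat_lit 7968000000, nat_lit 9842000000], [], [nat_lit 26581935270, nat_lit 26853379492, nat_lit 28865344454, nat_lit 29071029863, nat_lit 28089469340, nat_lit 27262880678, nat_lit 30506561348, nat_lit 30862517320], nat_lit 1271250, nat_lit 1271250, nat_lit 1271250, nat_lit 1271250, nat_lit 88400, nat_lit 2511800, [nat_lit 1100000, nat_lit 1785000, nat_lit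 1271250], [nat_lit 29, nat_lit 40, nat_lit 40, nat_lit 80, nat_lit 17, nat_lit 483, nat_lit 250, nat_lit 13]⟩,
 zbF0, [⟨nat_lit 16, nat_lit 100, nat_lit 94, nat_lit 97, nat_lit 523374093⟩, ⟨nat_lit 7, nat_lit 80, nat_lit 100, nat_lit 92, nat_lit 220992478⟩]⟩
noncomputable def p061_l97 : Lf2 := ⟨nat_lit 0, nat_lit 10, [nat_lit 0, nat_lit 5, nat_lit 5, nat_lit 20], false, nat_lit 240, nat_lit 320, nat_lit 16, nat_lit 352, ⟨nat_lit 323, nat_lit 677, nat_lit 0, nat_lit 6, nat_lit 284, nat_lit 677, nat_lit 213, nat_lit 0, nat_lit 0, nat_lit 0, nat_lit 0, nat_lit 0, nat_lit 35753773, nat_lit 19201832, nat_lit 12044395, nat_lit 5413296, true, true⟩,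
 nat_lit 0, nat_lit 0, nat_lit 3773, nat_lit 0, nat_lit 4055, nat_lit 2196, nat_lit 0, nat_lit 0, nat_lit 0, nat_lit 670, nat_lit 0, nat_lit 0, nat_lit 0, nat_lit 0, nat_lit 0, nat_lit 270800, nat_lit 0, nat_lit 0, [(nat_lit 15, [(nat_lit 1, nat_lit 677)])],
 ⟨p061_k3, nat_lit 0, nat_lit 0, nat_lit 60, nat_lit 0, nat_lit 0, [nat_lit 2427761401, nat_lit 3612994734, nat_lit 4141596000], [], [nat_lit 21064102591, nat_lit 22177167581, nat_lit 24701243051, nat_lit 25617328381, nat_lit 24701243051, nat_lit 25617328381, nat_lit 27848807580, nat_lit 28672951880], nat_lit 0, nat_lit 0, nat_lit 0, nat_lit 0, nat_lit 0, nat_lit 0, [], [nat_lit 18, nat_lit 40, nat_lit 40, nat_lit 80, nat_lit 2, nat_lit 203, nat_lit 0, nat_lit 5]⟩, ⟨p061_k38, nat_lit 0, nat_lit 0, nat_lit 581, nat_lit 0, nat_lit 883871, [nat_lit 1514224000, nat_lit 2573664000, nat_lit 3178966000], [], [nat_lit 9486630938, nat_lit 9556917089, nat_lit 10082692107,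 nat_lit 10135638497, nat_lit 9392252808, nat_lit 9427843188, nat_lit 9805653998, nat_lit 9919832452], nat_lit 1271250, nat_lit 1271250, nat_lit 1271250, nat_lit 1271250, nat_lit 88400, nat_lit 2511800, [nat_lit 1100000, nat_lit 1785000, nat_lit 1271250], [nat_lit 29, nat_lit 40, nat_lit 40, nat_lit 80, nat_lit 17, nat_lit 483, nat_lit 250, nat_lit 13]⟩,
 ⟨nat_lit 4472, nat_lit 5000, ⟨.ofNat (nat_lit 635672), .ofNat (nat_lit 778519), .ofNat (nat_lit 646380), .ofNat (nat_lit 789227), .ofNat (nat_lit 632635), .ofNat (nat_lit 768581), .ofNat (nat_lit 643412), .ofNat (nat_lit 779358)⟩, ⟨.ofNat (nat_lit 442856), .ofNat (nat_lit 585713), .ofNat (nat_lit 485713), .ofNat (nat_lit 628570), .ofNat (nat_lit 438578), .ofNat (nat_lit 574534), .ofNat (nat_lit 481711), .ofNat (nat_lit 617667)⟩⟩, [⟨nat_lit 16, nat_lit 94, nat_lit 88, nat_lit 100, nat_lit 278893499⟩, ⟨nat_lit 19, nat_lit 100, nat_lit 69, nat_lit 96, nat_lit 63026504⟩]⟩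
noncomputable def p061_l98 : Lf2 := ⟨nat_lit 0, nat_lit 10, [nat_lit 0, nat_lit 5, nat_lit 5, nat_lit 20], false, nat_lit 240, nat_lit 336, nat_lit 16, nat_lit 344, ⟨nat_lit 1000, nat_lit 0, nat_lit 0, nat_lit 0, nat_lit 0, nat_lit 0, nat_lit 0, nat_lit 0, nat_lit 0, nat_lit 0, nat_lit 0, nat_lit 0, nat_lit 0, nat_lit 0, nat_lit 0, nat_lit 0, false, false⟩,
 nat_lit 0, nat_lit 0, nat_lit 11564, nat_lit 0, nat_lit 4858, nat_lit 7042, nat_lit 0, nat_lit 0, nat_lit 0, nat_lit 2677, nat_lit 0, nat_lit 0, nat_lit 0, nat_lit 0, nat_lit 0, nat_lit 0, nat_lit 0, nat_lit 0, [],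
 ⟨p061_k17, nat_lit 0, nat_lit 0, nat_lit 61, nat_lit 0, nat_lit 0, [nat_lit 3282000000, nat_lit 6250000000, nat_lit 9842000000], [], [nat_lit 19996847920, nat_lit 21207572164, nat_lit 24125656192, nat_lit 25110322540, nat_lit 25127518821, nat_lit 26066172764, nat_lit 28485523975, nat_lit 29319890809], nat_lit 0, nat_lit 0, nat_lit 0, nat_lit 0, nat_lit 0, nat_lit 0, [], [nat_lit 8, nat_lit 40, nat_lit 40, nat_lit 80, nat_lit 1, nat_lit 401, nat_lit 175, nat_lit 10]⟩, ⟨p061_k41, nat_lit 0, nat_lit 0, nat_lit 468, nat_lit 0, nat_lit 653087, [nat_lit 4688000000, nat_lit 7968000000, nat_lit 9842000000], [], [nat_lit 23508232121, nat_lit 23989426157, nat_lit 27329601930, nat_lit 27818954178, nat_lit 26624787638, nat_lit 26856429157, nat_lit 30344853872, nat_lit 30715683703], nat_lit 1271250, nat_lit 1271250, nat_lit 1271250, nat_lit 1271250, nat_lit 88400, nat_lit 2454100, [nat_lit 1100000, nat_lit 1785000, nat_lit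 1271250], [nat_lit 29, nat_lit 40, nat_lit 40, nat_lit 80, nat_lit 17, nat_lit 483, nat_lit 250, nat_lit 13]⟩,
 zbF0, [⟨nat_lit 4, nat_lit 94, nat_lit 100, nat_lit 97, nat_lit 499315782⟩, ⟨nat_lit 19, nat_lit 100, nat_lit 85, nat_lit 93, nat_lit 173985712⟩, ⟨nat_lit 19, nat_lit 100, nat_lit 74, nat_lit 98, nat_lit 78714055⟩]⟩
noncomputable def p061_l99 : Lf2 := ⟨nat_lit 0, nat_lit 10, [nat_lit 0, nat_lit 5, nat_lit 5, nat_lit 20], false, nat_lit 240, nat_lit 320, nat_lit 16, nat_lit 344, ⟨nat_lit 263, nat_lit 737, nat_lit 0, nat_lit 6, nat_lit 288, nat_lit 737, nat_lit 213, nat_lit 0, nat_lit 0, nat_lit 0, nat_lit 0, nat_lit 0, nat_lit 35465789, nat_lit 19563401, nat_lit 11970810, nat_lit 5424498, true, true⟩,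
 nat_lit 0, nat_lit 0, nat_lit 2919, nat_lit 0, nat_lit 3925, nat_lit 1777, nat_lit 0, nat_lit 0, nat_lit 0, nat_lit 384, nat_lit 0, nat_lit 0, nat_lit 0, nat_lit 0, nat_lit 0, nat_lit 294800, nat_lit 0, nat_lit 0, [(nat_lit 15, [(nat_lit 1, nat_lit 737)])],
 ⟨p061_k3, nat_lit 0, nat_lit 0, nat_lit 60, nat_lit 0, nat_lit 0, [nat_lit 2352053400, nat_lit 3379286734, nat_lit 3802476000], [], [nat_lit 21103463050, nat_lit 22200717700, nat_lit 24697603150, nat_lit 25602585700, nat_lit 24697603150, nat_lit 25602585700, nat_lit 27752405300, nat_lit 28567987800], nat_lit 0, nat_lit 0, nat_lit 0, nat_lit 0, nat_lit 0, nat_lit 0, [], [nat_lit 18, nat_lit 40, nat_lit 40, nat_lit 80, nat_lit 2, nat_lit 203, nat_lit 0, nat_lit 5]⟩, ⟨p061_k41, nat_lit 0, nat_lit 0, nat_lit 591, nat_lit 0, nat_lit 910601, [nat_lit 1232944000, nat_lit 2095584000, nat_lit 2588446000], [], [nat_lit 7532273806, nat_lit 7602030525, nat_lit 8100140552,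 nat_lit 8153767523, nat_lit 7606566477, nat_lit 7645415896, nat_lit 7998197821, nat_lit 8034250808], nat_lit 1271250, nat_lit 1271250, nat_lit 1271250, nat_lit 1271250, nat_lit 88400, nat_lit 2454100, [nat_lit 1100000, nat_lit 1785000, nat_lit 1271250], [nat_lit 29, nat_lit 40, nat_lit 40, nat_lit 80, nat_lit 17, nat_lit 483, nat_lit 250, nat_lit 13]⟩,
 ⟨nat_lit 4472, nat_lit 5000, ⟨.ofNat (nat_lit 646380), .ofNat (nat_lit 789227), .ofNat (nat_lit 657088), .ofNat (nat_lit 799935), .ofNat (nat_lit 643412), .ofNat (nat_lit 779358), .ofNat (nat_lit 654189), .ofNat (nat_lit 790136)⟩, ⟨.ofNat (nat_lit 442856), .ofNat (nat_lit 585713), .ofNat (nat_lit 485713), .ofNat (nat_lit 628570), .ofNat (nat_lit 438578), .ofNat (nat_lit 574534), .ofNat (nat_lit 481711), .ofNat (nat_lit 617667)⟩⟩, [⟨nat_lit 16, nat_lit 93, nat_lit 100, nat_lit 97, nat_lit 267794200⟩, ⟨nat_lit 19, nat_lit 100, nat_lit 74, nat_lit 98, nat_lit 50495766⟩]⟩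
noncomputable def b_V_700_600_20_14 : St := ⟨true, nat_lit 0, nat_lit 1, nat_lit 1, nat_lit 120, nat_lit 280, nat_lit 320, nat_lit 240, nat_lit 280, nat_lit 240, nat_lit 320, nat_lit 80, nat_lit 120, nat_lit 160, nat_lit 336, nat_lit 0, nat_lit 364, nat_lit 0, nat_lit 40, nat_lit 0, nat_lit 0, nat_lit 0, nat_lit 0⟩
theorem d_V_700_600_20_14 (h : EB TB.env) : Dead b_V_700_600_20_14 := chkB_sound0 h (T :=
(.spl (nat_lit 4) (nat_lit 240)
(.leaf p061_l90)
(.trZ (nat_lit 9) (nat_lit 100) (nat_lit 100) (nat_lit 40) (nat_lit 16) (.spl (nat_lit 1) (nat_lit 260)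
(.spl (nat_lit 1) (nat_lit 250)
(.spl (nat_lit 0) (nat_lit 300)
(.leaf p061_l91)
(.trX (nat_lit 16) (nat_lit 94) (nat_lit 88) (nat_lit 100) (nat_lit 320) (.leaf p061_l92)))
(.trX (nat_lit 19) (nat_lit 100) (nat_lit 64) (nat_lit 95) (nat_lit 360) (.spl (nat_lit 0) (nat_lit 300)
(.leaf p061_l93)
(.trX (nat_lit 16) (nat_lit 94) (nat_lit 88) (nat_lit 100) (nat_lit 320) (.spl (nat_lit 0) (nat_lit 310)
(.leaf p061_l94)
(.trX (nat_lit 16) (nat_lit 91) (nat_lit 91) (nat_lit 100) (nat_lit 312) (.leaf p061_l95)))))))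
(.trX (nat_lit 19) (nat_lit 100) (nat_lit 69) (nat_lit 96) (nat_lit 352) (.spl (nat_lit 1) (nat_lit 270)
(.spl (nat_lit 0) (nat_lit 300)
(.leaf p061_l96)
(.trX (nat_lit 16) (nat_lit 94) (nat_lit 88) (nat_lit 100) (nat_lit 320) (.leaf p061_l97)))
(.trX (nat_lit 19) (nat_lit 100) (nat_lit 74) (nat_lit 98) (nat_lit 344) (.spl (nat_lit 0) (nat_lit 300)
(.leaf p061_l98)
(.trX (nat_lit 16) (nat_lit 94) (nat_lit 88) (nat_lit 100) (nat_lit 320) (.leaf p061_l99)))))))))) (by decide +kernel)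
noncomputable def p061_l100 : Lf2 := ⟨nat_lit 0, nat_lit 7, [nat_lit 80, nat_lit 5, nat_lit 5, nat_lit 20], false, nat_lit 160, nat_lit 240, nat_lit 16, nat_lit 364, ⟨nat_lit 213, nat_lit 787, nat_lit 0, nat_lit 8, nat_lit 338, nat_lit 787, nat_lit 157, nat_lit 0, nat_lit 0, nat_lit 0, nat_lit 0, nat_lit 0, nat_lit 34489313, nat_lit 25210329, nat_lit 7300358, nat_lit 5094163, true, true⟩,
 nat_lit 0, nat_lit 0, nat_lit 3242, nat_lit 0, nat_lit 4449, nat_lit 1716, nat_lit 0, nat_lit 0, nat_lit 0, nat_lit 145, nat_lit 0, nat_lit 0, nat_lit 0, nat_lit 0, nat_lit 0, nat_lit 787000, nat_lit 0, nat_lit 0, [(nat_lit 12, [(nat_lit 2, nat_lit 787)])],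
 ⟨p061_k42, nat_lit 0, nat_lit 0, nat_lit 86, nat_lit 0, nat_lit 0, [nat_lit 2536868401, nat_lit 2863066800, nat_lit 2097294800], [], [nat_lit 23618273657, nat_lit 24496209857, nat_lit 28018674321, nat_lit 28768943364, nat_lit 25282295501, nat_lit 26042895715, nat_lit 29199312096, nat_lit 29852199272], nat_lit 0, nat_lit 0, nat_lit 0, nat_lit 0, nat_lit 0, nat_lit 0, [], [nat_lit 18, nat_lit 40, nat_lit 40, nat_lit 80, nat_lit 2, nat_lit 272, nat_lit 60, nat_lit 7]⟩, ⟨p061_k43, nat_lit 0, nat_lit 0, nat_lit 453, nat_lit 0, nat_lit 576356, [nat_lit 998544000, nat_lit 1697184000, nat_lit 2096346000], [], [nat_lit 7963445009, nat_lit 8058416393, nat_lit 8774330960, nat_lit 8832504472, nat_lit 7603835233, nat_lit 7635263949, nat_lit 8056248683, nat_lit 8064770578], nat_lit 1271250, nat_lit 1271250, nat_lit 1271250, nat_lit 1271250, nat_lit 88400, nat_lit 2598350, [nat_lit 1100000, nat_lit 1785000, nat_lit 1271250],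 [nat_lit 29, nat_lit 40, nat_lit 40, nat_lit 80, nat_lit 17, nat_lit 401, nat_lit 175, nat_lit 11]⟩,
 ⟨nat_lit 5000, nat_lit 5478, ⟨.ofNat (nat_lit 767454), .ofNat (nat_lit 917295), .ofNat (nat_lit 788802), .ofNat (nat_lit 938642), .ofNat (nat_lit 757084), .ofNat (nat_lit 899915), .ofNat (nat_lit 778503), .ofNat (nat_lit 921335)⟩, ⟨.ofNat (nat_lit 296923), .ofNat (nat_lit 446789), .ofNat (nat_lit 339637), .ofNat (nat_lit 489503), .ofNat (nat_lit 299999), .ofNat (nat_lit 442856), .ofNat (nat_lit 342856), .ofNat (nat_lit 485713)⟩⟩, [⟨nat_lit 13, nat_lit 92, nat_lit 22, nat_lit 100, nat_lit 81710380⟩, ⟨nat_lit 22, nat_lit 60, nat_lit 80, nat_lit 100, nat_lit 52648986⟩]⟩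
noncomputable def p061_l101 : Lf2 := ⟨nat_lit 1, nat_lit 10, [nat_lit 0, nat_lit 5, nat_lit 5, nat_lit 20], false, nat_lit 160, nat_lit 240, nat_lit 16, nat_lit 364, zbN0,
 nat_lit 0, nat_lit 0, nat_lit 0, nat_lit 0, nat_lit 0, nat_lit 0, nat_lit 0, nat_lit 0, nat_lit 0, nat_lit 0, nat_lit 0, nat_lit 0, nat_lit 0, nat_lit 0, nat_lit 0, nat_lit 0, nat_lit 0, nat_lit 0, [],
 C1.Rw.none, C1.Rw.none,
 zbF0, []⟩
noncomputable def p061_l102 : Lf2 := ⟨nat_lit 0, nat_lit 10, [nat_lit 0, nat_lit 5, nat_lit 5, nat_lit 20], true, nat_lit 160, nat_lit 240, nat_lit 16, nat_lit 364, ⟨nat_lit 0, nat_lit 1000, nat_lit 0, nat_lit 8, nat_lit 319, nat_lit 1000, nat_lit 157, nat_lit 0, nat_lit 0, nat_lit 0, nat_lit 0, nat_lit 0, nat_lit 35943389, nat_lit 23543318, nat_lit 7513293, nat_lit 5074995, true, true⟩,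
 nat_lit 0, nat_lit 0, nat_lit 0, nat_lit 2857, nat_lit 3776, nat_lit 0, nat_lit 0, nat_lit 0, nat_lit 0, nat_lit 0, nat_lit 0, nat_lit 0, nat_lit 0, nat_lit 0, nat_lit 0, nat_lit 250000, nat_lit 0, nat_lit 0, [(nat_lit 15, [(nat_lit 0, nat_lit 1000)])],
 ⟨p061_k3, nat_lit 0, nat_lit 0, nat_lit 70, nat_lit 0, nat_lit 0, [nat_lit 2318400000, nat_lit 2724800000, nat_lit 3082400000], [], [nat_lit 22799688096, nat_lit 23826896992, nat_lit 25151425920, nat_lit 26065428992, nat_lit 24746550880, nat_lit 25638807936, nat_lit 26800533760, nat_lit 27597564224], nat_lit 0, nat_lit 0, nat_lit 0, nat_lit 0, nat_lit 0, nat_lit 0, [], [nat_lit 18, nat_lit 40, nat_lit 40, nat_lit 80, nat_lit 2, nat_lit 272, nat_lit 60, nat_lit 7]⟩, C1.Rw.none,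
 ⟨nat_lit 4472, nat_lit 5000, ⟨.ofNat (nat_lit 757103), .ofNat (nat_lit 828527), .ofNat (nat_lit 778519), .ofNat (nat_lit 849943), .ofNat (nat_lit 747027), .ofNat (nat_lit 815001), .ofNat (nat_lit 768581), .ofNat (nat_lit 836555)⟩, ⟨.ofNat (nat_lit 299999), .ofNat (nat_lit 442856), .ofNat (nat_lit 342856), .ofNat (nat_lit 485713), .ofNat (nat_lit 302621), .ofNat (nat_lit 438578), .ofNat (nat_lit 345754), .ofNat (nat_lit 481711)⟩⟩, []⟩
noncomputable def p061_l103 : Lf2 := ⟨nat_lit 0, nat_lit 10, [nat_lit 0, nat_lit 5, nat_lit 5, nat_lit 20], false, nat_lit 160, nat_lit 240, nat_lit 48, nat_lit 352, ⟨nat_lit 120, nat_lit 880, nat_lit 0, nat_lit 9, nat_lit 343, nat_lit 880, nat_lit 157, nat_lit 0, nat_lit 0, nat_lit 0, nat_lit 0, nat_lit 0, nat_lit 34135852, nat_lit 25635693, nat_lit 7228455, nat_lit 5094281, true, true⟩,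
 nat_lit 0, nat_lit 0, nat_lit 1904, nat_lit 0, nat_lit 4353, nat_lit 1007, nat_lit 0, nat_lit 0, nat_lit 0, nat_lit 82, nat_lit 0, nat_lit 0, nat_lit 0, nat_lit 0, nat_lit 0, nat_lit 352000, nat_lit 0, nat_lit 0, [(nat_lit 15, [(nat_lit 1, nat_lit 880)])],
 ⟨p061_k3, nat_lit 0, nat_lit 0, nat_lit 88, nat_lit 0, nat_lit 0, [nat_lit 2171616000, nat_lit 2822282667, nat_lit 3000413333], [], [nat_lit 26359871427, nat_lit 27214624747, nat_lit 28508469101, nat_lit 29266488257, nat_lit 27748875153, nat_lit 28489938423, nat_lit 29634612482, nat_lit 30293310725], nat_lit 0, nat_lit 0, nat_lit 0, nat_lit 0, nat_lit 0, nat_lit 0, [], [nat_lit 18, nat_lit 40, nat_lit 40, nat_lit 80, nat_lit 2, nat_lit 272, nat_lit 60, nat_lit 7]⟩, ⟨p061_k37, nat_lit 0, nat_lit 0, nat_lit 573, nat_lit 0, nat_lit 832786, [nat_lit 562560000, nat_lit 956160000, nat_lit 1424640000], [], [nat_lit 4709602301, nat_lit 4717784268, nat_lit 4849018049,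 nat_lit 4853971492, nat_lit 4356154618, nat_lit 4356081533, nat_lit 4447258034, nat_lit 4444796993], nat_lit 1271250, nat_lit 1271250, nat_lit 1271250, nat_lit 1271250, nat_lit 279600, nat_lit 2563400, [nat_lit 1100000, nat_lit 1785000, nat_lit 1271250], [nat_lit 21, nat_lit 40, nat_lit 40, nat_lit 80, nat_lit 14, nat_lit 401, nat_lit 175, nat_lit 9]⟩,
 ⟨nat_lit 4472, nat_lit 5000, ⟨.ofNat (nat_lit 828527), .ofNat (nat_lit 892808), .ofNat (nat_lit 839235), .ofNat (nat_lit 903517), .ofNat (nat_lit 815001), .ofNat (nat_lit 876177), .ofNat (nat_lit 825778), .ofNat (nat_lit 886954)⟩, ⟨.ofNat (nat_lit 299999), .ofNat (nat_lit 442856), .ofNat (nat_lit 342856), .ofNat (nat_lit 485713), .ofNat (nat_lit 302621), .ofNat (nat_lit 438578), .ofNat (nat_lit 345754), .ofNat (nat_lit 481711)⟩⟩, [⟨nat_lit 13, nat_lit 86, nat_lit 36, nat_lit 100, nat_lit 155872586⟩, ⟨nat_lit 22, nat_lit 46, nat_lit 89, nat_lit 100, nat_lit 38741549⟩]⟩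
noncomputable def p061_l104 : Lf2 := ⟨nat_lit 0, nat_lit 10, [nat_lit 0, nat_lit 5, nat_lit 5, nat_lit 20], false, nat_lit 160, nat_lit 240, nat_lit 48, nat_lit 352, ⟨nat_lit 224, nat_lit 776, nat_lit 0, nat_lit 9, nat_lit 348, nat_lit 776, nat_lit 157, nat_lit 0, nat_lit 0, nat_lit 0, nat_lit 0, nat_lit 0, nat_lit 33824057, nat_lit 25998104, nat_lit 7177839, nat_lit 5095131, true, true⟩,
 nat_lit 0, nat_lit 0, nat_lit 2769, nat_lit 0, nat_lit 4639, nat_lit 1538, nat_lit 0, nat_lit 0, nat_lit 0, nat_lit 551, nat_lit 0, nat_lit 0, nat_lit 0, nat_lit 0, nat_lit 0, nat_lit 310400, nat_lit 0, nat_lit 0, [(nat_lit 15, [(nat_lit 1, nat_lit 776)])],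
 ⟨p061_k3, nat_lit 0, nat_lit 0, nat_lit 88, nat_lit 0, nat_lit 0, [nat_lit 2302843201, nat_lit 3227376534, nat_lit 3582882666], [], [nat_lit 26631380414, nat_lit 27506279574, nat_lit 28849145586, nat_lit 29622453959, nat_lit 27993883952, nat_lit 28749701962, nat_lit 29935957389, nat_lit 30605229352], nat_lit 0, nat_lit 0, nat_lit 0, nat_lit 0, nat_lit 0, nat_lit 0, [], [nat_lit 18, nat_lit 40, nat_lit 40, nat_lit 80, nat_lit 2, nat_lit 272, nat_lit 60, nat_lit 7]⟩, ⟨p061_k39, nat_lit 0, nat_lit 0, nat_lit 533, nat_lit 0, nat_lit 857718, [nat_lit 1050112000, nat_lit 1784832000, nat_lit 2204608000], [], [nat_lit 8154174650, nat_lit 8176510027, nat_lit 8393778072, nat_lit 8411082798, nat_lit 7817750469, nat_lit 7820359618, nat_lit 7951851868, nat_lit 7951190346], nat_lit 1271250, nat_lit 1271250, nat_lit 1271250, nat_lit 1271250, nat_lit 279600, nat_lit 2563400, [nat_lit 1100000, nat_lit 1785000, nat_lit 1271250],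 [nat_lit 29, nat_lit 40, nat_lit 40, nat_lit 80, nat_lit 17, nat_lit 401, nat_lit 175, nat_lit 11]⟩,
 ⟨nat_lit 4472, nat_lit 5000, ⟨.ofNat (nat_lit 839235), .ofNat (nat_lit 903517), .ofNat (nat_lit 849943), .ofNat (nat_lit 914224), .ofNat (nat_lit 825778), .ofNat (nat_lit 886954), .ofNat (nat_lit 836555), .ofNat (nat_lit 897731)⟩, ⟨.ofNat (nat_lit 299999), .ofNat (nat_lit 442856), .ofNat (nat_lit 342856), .ofNat (nat_lit 485713), .ofNat (nat_lit 302621), .ofNat (nat_lit 438578), .ofNat (nat_lit 345754), .ofNat (nat_lit 481711)⟩⟩, [⟨nat_lit 13, nat_lit 83, nat_lit 39, nat_lit 100, nat_lit 85192783⟩, ⟨nat_lit 22, nat_lit 46, nat_lit 89, nat_lit 100, nat_lit 83076498⟩]⟩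
noncomputable def p061_l105 : Lf2 := ⟨nat_lit 0, nat_lit 10, [nat_lit 0, nat_lit 5, nat_lit 5, nat_lit 20], false, nat_lit 160, nat_lit 240, nat_lit 16, nat_lit 352, ⟨nat_lit 194, nat_lit 806, nat_lit 0, nat_lit 8, nat_lit 330, nat_lit 806, nat_lit 157, nat_lit 0, nat_lit 0, nat_lit 0, nat_lit 0, nat_lit 0, nat_lit 35121547, nat_lit 24487616, nat_lit 7390837, nat_lit 5087392, true, true⟩,
 nat_lit 0, nat_lit 0, nat_lit 2209, nat_lit 0, nat_lit 3763, nat_lit 1285, nat_lit 0, nat_lit 0, nat_lit 0, nat_lit 363, nat_lit 0, nat_lit 0, nat_lit 0, nat_lit 0, nat_lit 0, nat_lit 322400, nat_lit 0, nat_lit 0, [(nat_lit 12, [(nat_lit 1, nat_lit 806)]), (nat_lit 15, [(nat_lit 1, nat_lit 806)])],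
 ⟨p061_k17, nat_lit 0, nat_lit 0, nat_lit 70, nat_lit 0, nat_lit 0, [nat_lit 2303838400, nat_lit 3405787200, nat_lit 4034286400], [], [nat_lit 21766514500, nat_lit 23818052896, nat_lit 24227461324, nat_lit 26053165896, nat_lit 23848049312, nat_lit 25630342868, nat_lit 25994045548, nat_lit 27586368012], nat_lit 0, nat_lit 0, nat_lit 0, nat_lit 0, nat_lit 0, nat_lit 0, [], [nat_lit 8, nat_lit 40, nat_lit 40, nat_lit 80, nat_lit 1, nat_lit 272, nat_lit 60, nat_lit 7]⟩, ⟨p061_k38, nat_lit 0, nat_lit 0, nat_lit 610, nat_lit 0, nat_lit 972672, [nat_lit 909472000, nat_lit 1545792000, nat_lit 1909348000], [], [nat_lit 6612903785, nat_lit 6662856097, nat_lit 6806137747, nat_lit 6847070229, nat_lit 6297502857, nat_lit 6321153730, nat_lit 6432126620, nat_lit 6454412755], nat_lit 1271250, nat_lit 1271250, nat_lit 1271250, nat_lit 1271250, nat_lit 88400, nat_lit 2511800, [nat_lit 1100000, nat_lit 1785000, nat_lit 1271250],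 [nat_lit 29, nat_lit 40, nat_lit 40, nat_lit 80, nat_lit 17, nat_lit 401, nat_lit 175, nat_lit 11]⟩,
 ⟨nat_lit 4472, nat_lit 5478, ⟨.ofNat (nat_lit 788632), .ofNat (nat_lit 863529), .ofNat (nat_lit 809944), .ofNat (nat_lit 884842), .ofNat (nat_lit 768395), .ofNat (nat_lit 836338), .ofNat (nat_lit 789917), .ofNat (nat_lit 857861)⟩, ⟨.ofNat (nat_lit 296923), .ofNat (nat_lit 446789), .ofNat (nat_lit 339637), .ofNat (nat_lit 489503), .ofNat (nat_lit 302621), .ofNat (nat_lit 438578), .ofNat (nat_lit 345754), .ofNat (nat_lit 481711)⟩⟩, [⟨nat_lit 19, nat_lit 100, nat_lit 82, nat_lit 92, nat_lit 35237349⟩]⟩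
noncomputable def p061_l106 : Lf2 := ⟨nat_lit 0, nat_lit 10, [nat_lit 0, nat_lit 5, nat_lit 5, nat_lit 20], false, nat_lit 160, nat_lit 240, nat_lit 48, nat_lit 352, ⟨nat_lit 332, nat_lit 668, nat_lit 0, nat_lit 9, nat_lit 356, nat_lit 668, nat_lit 157, nat_lit 0, nat_lit 0, nat_lit 0, nat_lit 0, nat_lit 0, nat_lit 33196989, nat_lit 26723259, nat_lit 7079752, nat_lit 5095270, true, true⟩,
 nat_lit 0, nat_lit 0, nat_lit 3560, nat_lit 0, nat_lit 4751, nat_lit 2071, nat_lit 0, nat_lit 0, nat_lit 0, nat_lit 667, nat_lit 0, nat_lit 0, nat_lit 0, nat_lit 0, nat_lit 0, nat_lit 624200, nat_lit 0, nat_lit 0, [(nat_lit 12, [(nat_lit 1, nat_lit 73), (nat_lit 2, nat_lit 595)]), (nat_lit 15, [(nat_lit 1, nat_lit 73), (nat_lit 2, nat_lit 595)])],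
 ⟨p061_k17, nat_lit 0, nat_lit 0, nat_lit 90, nat_lit 0, nat_lit 0, [nat_lit 2630061200, nat_lit 3431755600, nat_lit 3285071200], [], [nat_lit 25960261652, nat_lit 27666234960, nat_lit 28509929664, nat_lit 30045522808, nat_lit 27373976272, nat_lit 28897168452, nat_lit 29654299104, nat_lit 30981607136], nat_lit 0, nat_lit 0, nat_lit 0, nat_lit 0, nat_lit 0, nat_lit 0, [], [nat_lit 8, nat_lit 40, nat_lit 40, nat_lit 80, nat_lit 1, nat_lit 272, nat_lit 60, nat_lit 6]⟩, ⟨p061_k38, nat_lit 0, nat_lit 0, nat_lit 543, nat_lit 0, nat_lit 883871, [nat_lit 1556416000, nat_lit 2645376000, nat_lit 3267544000], [], [nat_lit 11268783571, nat_lit 11313873183, nat_lit 11699634760, nat_lit 11736048669, nat_lit 11236990974, nat_lit 11267376611, nat_lit 11617117374, nat_lit 11652354348], nat_lit 1271250, nat_lit 1271250, nat_lit 1271250, nat_lit 1271250, nat_lit 279600, nat_lit 2563400, [nat_lit 1100000, nat_lit 1785000, nat_lit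 1271250], [nat_lit 29, nat_lit 40, nat_lit 40, nat_lit 80, nat_lit 17, nat_lit 401, nat_lit 175, nat_lit 11]⟩,
 ⟨nat_lit 4472, nat_lit 5478, ⟨.ofNat (nat_lit 863529), .ofNat (nat_lit 938427), .ofNat (nat_lit 874186), .ofNat (nat_lit 949084), .ofNat (nat_lit 836338), .ofNat (nat_lit 904281), .ofNat (nat_lit 847100), .ofNat (nat_lit 915043)⟩, ⟨.ofNat (nat_lit 296923), .ofNat (nat_lit 446789), .ofNat (nat_lit 339637), .ofNat (nat_lit 489503), .ofNat (nat_lit 302621), .ofNat (nat_lit 438578), .ofNat (nat_lit 345754), .ofNat (nat_lit 481711)⟩⟩, [⟨nat_lit 22, nat_lit 44, nat_lit 90, nat_lit 100, nat_lit 151335115⟩]⟩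
noncomputable def p061_l107 : Lf2 := ⟨nat_lit 0, nat_lit 10, [nat_lit 0, nat_lit 5, nat_lit 5, nat_lit 20], false, nat_lit 160, nat_lit 240, nat_lit 48, nat_lit 344, ⟨nat_lit 279, nat_lit 721, nat_lit 0, nat_lit 9, nat_lit 361, nat_lit 721, nat_lit 157, nat_lit 0, nat_lit 0, nat_lit 0, nat_lit 0, nat_lit 0, nat_lit 32893183, nat_lit 27077629, nat_lit 7029188, nat_lit 5094004, true, true⟩,
 nat_lit 0, nat_lit 0, nat_lit 2945, nat_lit 0, nat_lit 4551, nat_lit 1793, nat_lit 0, nat_lit 0, nat_lit 0, nat_lit 355, nat_lit 0, nat_lit 0, nat_lit 0, nat_lit 0, nat_lit 0, nat_lit 721000, nat_lit 0, nat_lit 0, [(nat_lit 12, [(nat_lit 2, nat_lit 721)]), (nat_lit 15, [(nat_lit 2, nat_lit 721)])],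
 ⟨p061_k17, nat_lit 0, nat_lit 0, nat_lit 90, nat_lit 0, nat_lit 0, [nat_lit 2599357201, nat_lit 3147104400, nat_lit 2533944000], [], [nat_lit 25940136053, nat_lit 27518004809, nat_lit 28275265664, nat_lit 29790230008, nat_lit 27324789257, nat_lit 28714146852, nat_lit 29444947104, nat_lit 30759379936], nat_lit 0, nat_lit 0, nat_lit 0, nat_lit 0, nat_lit 0, nat_lit 0, [], [nat_lit 8, nat_lit 40, nat_lit 40, nat_lit 80, nat_lit 1, nat_lit 272, nat_lit 60, nat_lit 6]⟩, ⟨p061_k41, nat_lit 0, nat_lit 0, nat_lit 563, nat_lit 0, nat_lit 910601, [nat_lit 1307952000, nat_lit 2223072000, nat_lit 2745918000], [], [nat_lit 9537802539, nat_lit 9583892828, nat_lit 9934226994, nat_lit 9972262972, nat_lit 9503741651, nat_lit 9523770377, nat_lit 9774517303, nat_lit 9807952398], nat_lit 1271250, nat_lit 1271250, nat_lit 1271250, nat_lit 1271250, nat_lit 279600, nat_lit 2503300, [nat_lit 1100000, nat_lit 1785000, nat_lit 1271250],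 [nat_lit 29, nat_lit 40, nat_lit 40, nat_lit 80, nat_lit 17, nat_lit 401, nat_lit 175, nat_lit 11]⟩,
 ⟨nat_lit 4472, nat_lit 5478, ⟨.ofNat (nat_lit 874186), .ofNat (nat_lit 949084), .ofNat (nat_lit 884842), .ofNat (nat_lit 959740), .ofNat (nat_lit 847100), .ofNat (nat_lit 915043), .ofNat (nat_lit 857861), .ofNat (nat_lit 925804)⟩, ⟨.ofNat (nat_lit 296923), .ofNat (nat_lit 446789), .ofNat (nat_lit 339637), .ofNat (nat_lit 489503), .ofNat (nat_lit 302621), .ofNat (nat_lit 438578), .ofNat (nat_lit 345754), .ofNat (nat_lit 481711)⟩⟩, [⟨nat_lit 13, nat_lit 85, nat_lit 30, nat_lit 100, nat_lit 31129276⟩, ⟨nat_lit 22, nat_lit 44, nat_lit 90, nat_lit 100, nat_lit 122052665⟩]⟩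
noncomputable def b_V_700_600_20_15 : St := ⟨true, nat_lit 0, nat_lit 1, nat_lit 1, nat_lit 120, nat_lit 280, nat_lit 320, nat_lit 240, nat_lit 280, nat_lit 320, nat_lit 400, nat_lit 80, nat_lit 120, nat_lit 160, nat_lit 240, nat_lit 16, nat_lit 364, nat_lit 0, nat_lit 40, nat_lit 0, nat_lit 0, nat_lit 0, nat_lit 0⟩
theorem d_V_700_600_20_15 (h : EB TB.env) : Dead b_V_700_600_20_15 := chkB_sound0 h (T :=
(.spl (nat_lit 1) (nat_lit 260)
(.spl (nat_lit 0) (nat_lit 300)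
(.spl (nat_lit 6) (nat_lit 28)
(.leaf p061_l100)
(.leaf p061_l101))
(.trX (nat_lit 13) (nat_lit 91) (nat_lit 23) (nat_lit 100) (nat_lit 396) (.spl (nat_lit 2) (nat_lit 360)
(.leaf p061_l102)
(.trZ (nat_lit 9) (nat_lit 100) (nat_lit 61) (nat_lit 68) (nat_lit 48) (.trX (nat_lit 22) (nat_lit 61) (nat_lit 68) (nat_lit 100) (nat_lit 352) (.spl (nat_lit 1) (nat_lit 250)
(.leaf p061_l103)
(.leaf p061_l104)))))))
(.trX (nat_lit 19) (nat_lit 100) (nat_lit 69) (nat_lit 96) (nat_lit 352) (.spl (nat_lit 2) (nat_lit 360)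
(.leaf p061_l105)
(.trZ (nat_lit 9) (nat_lit 100) (nat_lit 61) (nat_lit 68) (nat_lit 48) (.spl (nat_lit 1) (nat_lit 270)
(.leaf p061_l106)
(.trX (nat_lit 19) (nat_lit 100) (nat_lit 74) (nat_lit 98) (nat_lit 344) (.leaf p061_l107)))))))) (by decide +kernel)
noncomputable def p061_l108 : Lf2 := ⟨nat_lit 0, nat_lit 7, [nat_lit 80, nat_lit 5, nat_lit 5, nat_lit 20], false, nat_lit 240, nat_lit 336, nat_lit 64, nat_lit 364, ⟨nat_lit 1000, nat_lit 0, nat_lit 0, nat_lit 0, nat_lit 0, nat_lit 0, nat_lit 0, nat_lit 0, nat_lit 0, nat_lit 0, nat_lit 0, nat_lit 0, nat_lit 0, nat_lit 0, nat_lit 0, nat_lit 0, false, false⟩,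
 nat_lit 0, nat_lit 0, nat_lit 12556, nat_lit 0, nat_lit 5408, nat_lit 6647, nat_lit 0, nat_lit 0, nat_lit 0, nat_lit 1597, nat_lit 0, nat_lit 0, nat_lit 0, nat_lit 0, nat_lit 0, nat_lit 0, nat_lit 0, nat_lit 0, [],
 ⟨p061_k26, nat_lit 0, nat_lit 0, nat_lit 73, nat_lit 0, nat_lit 0, [nat_lit 3282000000, nat_lit 4688000000, nat_lit 7968000000], [], [nat_lit 25629626560, nat_lit 26067112360, nat_lit 30374899328, nat_lit 30743610040, nat_lit 29457775815, nat_lit 29832319519, nat_lit 33536903482, nat_lit 33859559432], nat_lit 0, nat_lit 0, nat_lit 0, nat_lit 0, nat_lit 0, nat_lit 0, [], [nat_lit 36, nat_lit 40, nat_lit 40, nat_lit 80, nat_lit 7, nat_lit 203, nat_lit 0, nat_lit 5]⟩, ⟨p061_k44, nat_lit 0, nat_lit 0, nat_lit 337, nat_lit 0, nat_lit 426991, [nat_lit 4688000000, nat_lit 6250000000, nat_lit 9842000000], [], [nat_lit 29160892592, nat_lit 29743463904, nat_lit 33355662567, nat_lit 33818821496, nat_lit 32700874261,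 nat_lit 33022782150, nat_lit 35777808811, nat_lit 36031736274], nat_lit 1271250, nat_lit 1271250, nat_lit 1271250, nat_lit 1271250, nat_lit 382400, nat_lit 2681150, [nat_lit 1100000, nat_lit 1442500, nat_lit 1271250], [nat_lit 11, nat_lit 40, nat_lit 40, nat_lit 80, nat_lit 1, nat_lit 401, nat_lit 175, nat_lit 11]⟩,
 zbF0, [⟨nat_lit 4, nat_lit 91, nat_lit 100, nat_lit 96, nat_lit 427321526⟩, ⟨nat_lit 19, nat_lit 100, nat_lit 72, nat_lit 89, nat_lit 279449424⟩]⟩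
noncomputable def p061_l109 : Lf2 := ⟨nat_lit 0, nat_lit 7, [nat_lit 80, nat_lit 5, nat_lit 5, nat_lit 20], false, nat_lit 240, nat_lit 328, nat_lit 64, nat_lit 364, ⟨nat_lit 795, nat_lit 205, nat_lit 0, nat_lit 8, nat_lit 337, nat_lit 205, nat_lit 218, nat_lit 0, nat_lit 0, nat_lit 0, nat_lit 0, nat_lit 0, nat_lit 32050618, nat_lit 23469672, nat_lit 11479710, nat_lit 5524011, true, true⟩,
 nat_lit 0, nat_lit 0, nat_lit 10351, nat_lit 0, nat_lit 4786, nat_lit 5479, nat_lit 1405, nat_lit 0, nat_lit 0, nat_lit 1147, nat_lit 0, nat_lit 0, nat_lit 0, nat_lit 0, nat_lit 0, nat_lit 82000, nat_lit 0, nat_lit 0, [(nat_lit 12, [(nat_lit 1, nat_lit 205)])],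
 ⟨p061_k45, nat_lit 0, nat_lit 0, nat_lit 72, nat_lit 0, nat_lit 0, [nat_lit 3026037001, nat_lit 4254794000, nat_lit 6884370000], [], [nat_lit 25736099496, nat_lit 26153385846, nat_lit 29883175828, nat_lit 30208121766, nat_lit 28844689609, nat_lit 29180838849, nat_lit 32761058376, nat_lit 33083613699], nat_lit 0, nat_lit 0, nat_lit 0, nat_lit 0, nat_lit 0, nat_lit 0, [], [nat_lit 36, nat_lit 40, nat_lit 40, nat_lit 80, nat_lit 7, nat_lit 203, nat_lit 0, nat_lit 5]⟩, ⟨p061_k44, nat_lit 0, nat_lit 0, nat_lit 402, nat_lit 0, nat_lit 576356, [nat_lit 3726960000, nat_lit 4968750000, nat_lit 7824390000], [], [nat_lit 25276809215, nat_lit 25622289411, nat_lit 27934283894, nat_lit 28168131216, nat_lit 26908823939, nat_lit 27084736162, nat_lit 28769647363, nat_lit 28904494595], nat_lit 1271250, nat_lit 1271250, nat_lit 1271250, nat_lit 1271250, nat_lit 382400, nat_lit 2681150, [nat_lit 1100000, nat_lit 1442500, nat_lit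 1271250], [nat_lit 11, nat_lit 40, nat_lit 40, nat_lit 80, nat_lit 1, nat_lit 401, nat_lit 175, nat_lit 11]⟩,
 ⟨nat_lit 5000, nat_lit 5245, ⟨.ofNat (nat_lit 762271), .ofNat (nat_lit 908607), .ofNat (nat_lit 783653), .ofNat (nat_lit 929990), .ofNat (nat_lit 757129), .ofNat (nat_lit 899980), .ofNat (nat_lit 778555), .ofNat (nat_lit 921407)⟩, ⟨.ofNat (nat_lit 444857), .ofNat (nat_lit 605833), .ofNat (nat_lit 487628), .ofNat (nat_lit 648604), .ofNat (nat_lit 442856), .ofNat (nat_lit 599999), .ofNat (nat_lit 485713), .ofNat (nat_lit 642856)⟩⟩, [⟨nat_lit 4, nat_lit 97, nat_lit 100, nat_lit 98, nat_lit 361037779⟩, ⟨nat_lit 7, nat_lit 72, nat_lit 100, nat_lit 89, nat_lit 203005290⟩]⟩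
noncomputable def p061_l110 : Lf2 := ⟨nat_lit 1, nat_lit 10, [nat_lit 0, nat_lit 5, nat_lit 5, nat_lit 20], false, nat_lit 240, nat_lit 336, nat_lit 64, nat_lit 364, zbN0,
 nat_lit 0, nat_lit 0, nat_lit 0, nat_lit 0, nat_lit 0, nat_lit 0, nat_lit 0, nat_lit 0, nat_lit 0, nat_lit 0, nat_lit 0, nat_lit 0, nat_lit 0, nat_lit 0, nat_lit 0, nat_lit 0, nat_lit 0, nat_lit 0, [],
 C1.Rw.none, C1.Rw.none,
 zbF0, []⟩
noncomputable def p061_l111 : Lf2 := ⟨nat_lit 0, nat_lit 5, [nat_lit 4, nat_lit 5, nat_lit 5, nat_lit 20], false, nat_lit 240, nat_lit 320, nat_lit 64, nat_lit 364, ⟨nat_lit 133, nat_lit 867, nat_lit 0, nat_lit 8, nat_lit 317, nat_lit 867, nat_lit 213, nat_lit 0, nat_lit 0, nat_lit 0, nat_lit 0, nat_lit 0, nat_lit 33560426, nat_lit 21970575, nat_lit 11468999, nat_lit 5477852, true, true⟩,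
 nat_lit 0, nat_lit 0, nat_lit 1872, nat_lit 0, nat_lit 3493, nat_lit 990, nat_lit 0, nat_lit 0, nat_lit 0, nat_lit 155, nat_lit 0, nat_lit 0, nat_lit 0, nat_lit 0, nat_lit 0, nat_lit 346800, nat_lit 0, nat_lit 0, [(nat_lit 15, [(nat_lit 1, nat_lit 867)])],
 ⟨p061_k36, nat_lit 0, nat_lit 0, nat_lit 61, nat_lit 0, nat_lit 0, [nat_lit 2188019401, nat_lit 2544776001, nat_lit 2848238800], [], [nat_lit 24773056991, nat_lit 25641144149, nat_lit 26762337581, nat_lit 27540445533, nat_lit 27632855689, nat_lit 28359335977, nat_lit 29316473085, nat_lit 29969793533], nat_lit 0, nat_lit 0, nat_lit 0, nat_lit 0, nat_lit 0, nat_lit 0, [], [nat_lit 59, nat_lit 40, nat_lit 40, nat_lit 80, nat_lit 3, nat_lit 203, nat_lit 0, nat_lit 5]⟩, ⟨p061_k46, nat_lit 0, nat_lit 0, nat_lit 490, nat_lit 0, nat_lit 808436, [nat_lit 623504000, nat_lit 831250000, nat_lit 1308986000], [], [nat_lit 4387301574, nat_lit 4407631657, nat_lit 4553786633,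 nat_lit 4570252528, nat_lit 4435988961, nat_lit 4443467530, nat_lit 4539392357, nat_lit 4544052643], nat_lit 1271250, nat_lit 1271250, nat_lit 1271250, nat_lit 1271250, nat_lit 382400, nat_lit 2681150, [nat_lit 1100000, nat_lit 1442500, nat_lit 1271250], [nat_lit 11, nat_lit 40, nat_lit 40, nat_lit 80, nat_lit 1, nat_lit 401, nat_lit 175, nat_lit 11]⟩,
 ⟨nat_lit 4472, nat_lit 5000, ⟨.ofNat (nat_lit 757103), .ofNat (nat_lit 828527), .ofNat (nat_lit 767811), .ofNat (nat_lit 839235), .ofNat (nat_lit 747027), .ofNat (nat_lit 815001), .ofNat (nat_lit 757805), .ofNat (nat_lit 825778)⟩, ⟨.ofNat (nat_lit 442856), .ofNat (nat_lit 585713), .ofNat (nat_lit 485713), .ofNat (nat_lit 628570), .ofNat (nat_lit 438578), .ofNat (nat_lit 574534), .ofNat (nat_lit 481711), .ofNat (nat_lit 617667)⟩⟩, [⟨nat_lit 16, nat_lit 94, nat_lit 88, nat_lit 100, nat_lit 190374294⟩, ⟨nat_lit 19, nat_lit 100, nat_lit 59, nat_lit 94, nat_lit 29439832⟩]⟩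
noncomputable def p061_l112 : Lf2 := ⟨nat_lit 0, nat_lit 5, [nat_lit 4, nat_lit 5, nat_lit 5, nat_lit 20], false, nat_lit 240, nat_lit 320, nat_lit 64, nat_lit 360, ⟨nat_lit 629, nat_lit 371, nat_lit 0, nat_lit 8, nat_lit 321, nat_lit 371, nat_lit 213, nat_lit 0, nat_lit 0, nat_lit 0, nat_lit 0, nat_lit 0, nat_lit 33282840, nat_lit 22323347, nat_lit 11393813, nat_lit 5482672, true, true⟩,
 nat_lit 0, nat_lit 0, nat_lit 7330, nat_lit 0, nat_lit 4054, nat_lit 4072, nat_lit 0, nat_lit 0, nat_lit 0, nat_lit 3117, nat_lit 0, nat_lit 0, nat_lit 0, nat_lit 0, nat_lit 0, nat_lit 148400, nat_lit 0, nat_lit 0, [(nat_lit 15, [(nat_lit 1, nat_lit 371)])],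
 ⟨p061_k32, nat_lit 0, nat_lit 0, nat_lit 53, nat_lit 0, nat_lit 0, [nat_lit 2813872201, nat_lit 4794344400], [], [nat_lit 25087908221, nat_lit 26003908145, nat_lit 27205450241, nat_lit 28021068897, nat_lit 28066182265, nat_lit 28824536329, nat_lit 29843134353, nat_lit 30519980897], nat_lit 0, nat_lit 0, nat_lit 0, nat_lit 0, nat_lit 0, nat_lit 0, [], [nat_lit 49, nat_lit 40, nat_lit 40, nat_lit 80, nat_lit 16, nat_lit 203, nat_lit 0, nat_lit 5]⟩, ⟨p061_k47, nat_lit 0, nat_lit 0, nat_lit 438, nat_lit 0, nat_lit 832891, [nat_lit 2948752000, nat_lit 5011872000], [], [nat_lit 18272060830, nat_lit 18419708707, nat_lit 19264252007, nat_lit 19392179802, nat_lit 20050110870, nat_lit 20131126454, nat_lit 20697433728, nat_lit 20763764346], nat_lit 1271250, nat_lit 1271250, nat_lit 1271250, nat_lit 1271250, nat_lit 382400, nat_lit 2650500, [nat_lit 1100000, nat_lit 1785000], [nat_lit 39, nat_lit 40, nat_lit 40, nat_lit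 80, nat_lit 7, nat_lit 317, nat_lit 100, nat_lit 9]⟩,
 ⟨nat_lit 4472, nat_lit 5000, ⟨.ofNat (nat_lit 767811), .ofNat (nat_lit 839235), .ofNat (nat_lit 778519), .ofNat (nat_lit 849943), .ofNat (nat_lit 757805), .ofNat (nat_lit 825778), .ofNat (nat_lit 768581), .ofNat (nat_lit 836555)⟩, ⟨.ofNat (nat_lit 442856), .ofNat (nat_lit 585713), .ofNat (nat_lit 485713), .ofNat (nat_lit 628570), .ofNat (nat_lit 438578), .ofNat (nat_lit 574534), .ofNat (nat_lit 481711), .ofNat (nat_lit 617667)⟩⟩, [⟨nat_lit 4, nat_lit 100, nat_lit 93, nat_lit 97, nat_lit 340988837⟩, ⟨nat_lit 19, nat_lit 100, nat_lit 64, nat_lit 95, nat_lit 105976526⟩, ⟨nat_lit 7, nat_lit 75, nat_lit 100, nat_lit 90, nat_lit 61164131⟩]⟩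
noncomputable def p061_l113 : Lf2 := ⟨nat_lit 0, nat_lit 2, [nat_lit 10, nat_lit 5, nat_lit 5, nat_lit 20], false, nat_lit 240, nat_lit 320, nat_lit 112, nat_lit 364, ⟨nat_lit 329, nat_lit 671, nat_lit 0, nat_lit 9, nat_lit 342, nat_lit 671, nat_lit 214, nat_lit 0, nat_lit 0, nat_lit 0, nat_lit 0, nat_lit 0, nat_lit 31903141, nat_lit 24021430, nat_lit 11075429, nat_lit 5500198, true, true⟩,
 nat_lit 0, nat_lit 0, nat_lit 4985, nat_lit 0, nat_lit 3600, nat_lit 2639, nat_lit 0, nat_lit 0, nat_lit 0, nat_lit 0, nat_lit 0, nat_lit 0, nat_lit 0, nat_lit 0, nat_lit 0, nat_lit 671000, nat_lit 0, nat_lit 0, [(nat_lit 15, [(nat_lit 2, nat_lit 671)])],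
 ⟨p061_k48, nat_lit 0, nat_lit 0, nat_lit 60, nat_lit 0, nat_lit 0, [nat_lit 2409324241, nat_lit 2603068800], [], [nat_lit 26948788241, nat_lit 27341419441, nat_lit 28668420242, nat_lit 29024444401, nat_lit 29518859041, nat_lit 29847762841, nat_lit 30987777762, nat_lit 31286651642], nat_lit 0, nat_lit 0, nat_lit 0, nat_lit 0, nat_lit 0, nat_lit 0, [], [nat_lit 40, nat_lit 40, nat_lit 40, nat_lit 80, nat_lit 22, nat_lit 203, nat_lit 0, nat_lit 6]⟩, ⟨p061_k49, nat_lit 0, nat_lit 0, nat_lit 314, nat_lit 0, nat_lit 583509, [nat_lit 1542352000, nat_lit 2621472000], [], [nat_lit 10529242052, nat_lit 10578121391, nat_lit 11259212007, nat_lit 11300231884, nat_lit 11704982779, nat_lit 11722825070, nat_lit 12131295916, nat_lit 12144363104], nat_lit 1271250, nat_lit 1271250, nat_lit 1271250, nat_lit 1271250, nat_lit 719601, nat_lit 2763950, [nat_lit 1100000, nat_lit 1785000], [nat_lit 39, nat_lit 40, nat_lit 40, nat_lit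 80, nat_lit 7, nat_lit 317, nat_lit 100, nat_lit 9]⟩,
 ⟨nat_lit 4743, nat_lit 5000, ⟨.ofNat (nat_lit 828558), .ofNat (nat_lit 885699), .ofNat (nat_lit 833914), .ofNat (nat_lit 891056), .ofNat (nat_lit 821762), .ofNat (nat_lit 877520), .ofNat (nat_lit 827133), .ofNat (nat_lit 882891)⟩, ⟨.ofNat (nat_lit 442856), .ofNat (nat_lit 585713), .ofNat (nat_lit 485713), .ofNat (nat_lit 628570), .ofNat (nat_lit 440769), .ofNat (nat_lit 580169), .ofNat (nat_lit 483746), .ofNat (nat_lit 623145)⟩⟩, [⟨nat_lit 13, nat_lit 87, nat_lit 34, nat_lit 100, nat_lit 135859936⟩, ⟨nat_lit 16, nat_lit 94, nat_lit 88, nat_lit 100, nat_lit 229836661⟩, ⟨nat_lit 19, nat_lit 100, nat_lit 59, nat_lit 94, nat_lit 95967049⟩]⟩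
noncomputable def p061_l114 : Lf2 := ⟨nat_lit 0, nat_lit 2, [nat_lit 10, nat_lit 5, nat_lit 5, nat_lit 20], false, nat_lit 240, nat_lit 312, nat_lit 112, nat_lit 364, ⟨nat_lit 122, nat_lit 878, nat_lit 0, nat_lit 9, nat_lit 338, nat_lit 878, nat_lit 209, nat_lit 0, nat_lit 0, nat_lit 0, nat_lit 0, nat_lit 0, nat_lit 32357555, nat_lit 23790940, nat_lit 10851505, nat_lit 5473317, true, true⟩,
 nat_lit 0, nat_lit 0, nat_lit 1622, nat_lit 0, nat_lit 3382, nat_lit 858, nat_lit 0, nat_lit 0, nat_lit 0, nat_lit 141, nat_lit 0, nat_lit 0, nat_lit 0, nat_lit 0, nat_lit 0, nat_lit 677000, nat_lit 0, nat_lit 0, [(nat_lit 15, [(nat_lit 1, nat_lit 335), (nat_lit 2, nat_lit 543)])],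
 ⟨p061_k50, nat_lit 0, nat_lit 0, nat_lit 60, nat_lit 0, nat_lit 0, [nat_lit 2153092921, nat_lit 2160744400], [], [nat_lit 27148911265, nat_lit 27534254289, nat_lit 28583138461, nat_lit 28937860807, nat_lit 29377846089, nat_lit 29708279890, nat_lit 30628179652, nat_lit 30932932049], nat_lit 0, nat_lit 0, nat_lit 0, nat_lit 0, nat_lit 0, nat_lit 0, [], [nat_lit 40, nat_lit 40, nat_lit 40, nat_lit 80, nat_lit 22, nat_lit 203, nat_lit 0, nat_lit 6]⟩, ⟨p061_k51, nat_lit 0, nat_lit 0, nat_lit 401, nat_lit 0, nat_lit 754299, [nat_lit 571936000, nat_lit 762500000, nat_lit 972096000], [], [nat_lit 3901156456, nat_lit 3913010232, nat_lit 4057356951, nat_lit 4067640468, nat_lit 4196691158, nat_lit 4202758979, nat_lit 4316734604, nat_lit 4322328243], nat_lit 1271250, nat_lit 1271250, nat_lit 1271250, nat_lit 1271250, nat_lit 719601, nat_lit 2763950, [nat_lit 1100000, nat_lit 1442500, nat_lit 1271250], [nat_lit 9, nat_lit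 40, nat_lit 40, nat_lit 80, nat_lit 2, nat_lit 317, nat_lit 100, nat_lit 9]⟩,
 ⟨nat_lit 4472, nat_lit 4744, ⟨.ofNat (nat_lit 821766), .ofNat (nat_lit 870555), .ofNat (nat_lit 827137), .ofNat (nat_lit 875926), .ofNat (nat_lit 815036), .ofNat (nat_lit 862620), .ofNat (nat_lit 820427), .ofNat (nat_lit 868011)⟩, ⟨.ofNat (nat_lit 440769), .ofNat (nat_lit 566229), .ofNat (nat_lit 483746), .ofNat (nat_lit 609205), .ofNat (nat_lit 438578), .ofNat (nat_lit 560938), .ofNat (nat_lit 481711), .ofNat (nat_lit 604071)⟩⟩, [⟨nat_lit 13, nat_lit 84, nat_lit 40, nat_lit 100, nat_lit 183965947⟩, ⟨nat_lit 16, nat_lit 91, nat_lit 91, nat_lit 100, nat_lit 182620657⟩, ⟨nat_lit 19, nat_lit 100, nat_lit 59, nat_lit 94, nat_lit 34364091⟩]⟩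
noncomputable def p061_l115 : Lf2 := ⟨nat_lit 0, nat_lit 2, [nat_lit 10, nat_lit 5, nat_lit 5, nat_lit 20], false, nat_lit 240, nat_lit 320, nat_lit 112, nat_lit 364, ⟨nat_lit 676, nat_lit 324, nat_lit 0, nat_lit 9, nat_lit 344, nat_lit 324, nat_lit 213, nat_lit 0, nat_lit 0, nat_lit 0, nat_lit 0, nat_lit 0, nat_lit 31807215, nat_lit 24206997, nat_lit 10985788, nat_lit 5495998, true, true⟩,
 nat_lit 0, nat_lit 0, nat_lit 7938, nat_lit 0, nat_lit 4261, nat_lit 4305, nat_lit 917, nat_lit 0, nat_lit 0, nat_lit 3040, nat_lit 0, nat_lit 0, nat_lit 0, nat_lit 0, nat_lit 0, nat_lit 324000, nat_lit 0, nat_lit 0, [(nat_lit 15, [(nat_lit 2, nat_lit 324)])],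
 ⟨p061_k48, nat_lit 0, nat_lit 0, nat_lit 64, nat_lit 0, nat_lit 0, [nat_lit 2860618561, nat_lit 3681267200], [], [nat_lit 27905924377, nat_lit 28621887597, nat_lit 29702665724, nat_lit 30342596049, nat_lit 30222483872, nat_lit 30851104114, nat_lit 31915928736, nat_lit 32570348362], nat_lit 0, nat_lit 0, nat_lit 0, nat_lit 0, nat_lit 0, nat_lit 0, [], [nat_lit 40, nat_lit 40, nat_lit 40, nat_lit 80, nat_lit 22, nat_lit 203, nat_lit 0, nat_lit 6]⟩, ⟨p061_k52, nat_lit 0, nat_lit 0, nat_lit 407, nat_lit 0, nat_lit 765826, [nat_lit 3169088000, nat_lit 4225000000, nat_lit 5386368000], [], [nat_lit 21133599954, nat_lit 21207036547, nat_lit 22263977404, nat_lit 22326328796, nat_lit 23078533827, nat_lit 23110134882, nat_lit 23773527583, nat_lit 23798049346], nat_lit 1271250, nat_lit 1271250, nat_lit 1271250, nat_lit 1271250, nat_lit 719601, nat_lit 2763950, [nat_lit 1100000, nat_lit 1442500, nat_lit 1271250], [nat_lit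 9, nat_lit 40, nat_lit 40, nat_lit 80, nat_lit 2, nat_lit 317, nat_lit 100, nat_lit 9]⟩,
 ⟨nat_lit 4472, nat_lit 5000, ⟨.ofNat (nat_lit 833881), .ofNat (nat_lit 898163), .ofNat (nat_lit 839235), .ofNat (nat_lit 903517), .ofNat (nat_lit 820390), .ofNat (nat_lit 881566), .ofNat (nat_lit 825778), .ofNat (nat_lit 886954)⟩, ⟨.ofNat (nat_lit 442856), .ofNat (nat_lit 585713), .ofNat (nat_lit 485713), .ofNat (nat_lit 628570), .ofNat (nat_lit 438578), .ofNat (nat_lit 574534), .ofNat (nat_lit 481711), .ofNat (nat_lit 617667)⟩⟩, [⟨nat_lit 13, nat_lit 82, nat_lit 42, nat_lit 100, nat_lit 44828597⟩, ⟨nat_lit 4, nat_lit 100, nat_lit 93, nat_lit 97, nat_lit 336735120⟩, ⟨nat_lit 7, nat_lit 71, nat_lit 100, nat_lit 89, nat_lit 202547788⟩]⟩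
noncomputable def p061_l116 : Lf2 := ⟨nat_lit 0, nat_lit 5, [nat_lit 4, nat_lit 5, nat_lit 5, nat_lit 20], false, nat_lit 240, nat_lit 320, nat_lit 112, nat_lit 364, ⟨nat_lit 509, nat_lit 491, nat_lit 0, nat_lit 9, nat_lit 343, nat_lit 491, nat_lit 213, nat_lit 0, nat_lit 0, nat_lit 0, nat_lit 0, nat_lit 0, nat_lit 31874314, nat_lit 24121048, nat_lit 11004638, nat_lit 5495837, true, true⟩,
 nat_lit 0, nat_lit 0, nat_lit 6687, nat_lit 0, nat_lit 4595, nat_lit 3540, nat_lit 0, nat_lit 0, nat_lit 0, nat_lit 650, nat_lit 0, nat_lit 0, nat_lit 0, nat_lit 0, nat_lit 0, nat_lit 177800, nat_lit 0, nat_lit 0, [(nat_lit 15, [(nat_lit 0, nat_lit 124), (nat_lit 1, nat_lit 367)])],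
 ⟨p061_k36, nat_lit 0, nat_lit 0, nat_lit 71, nat_lit 0, nat_lit 0, [nat_lit 2699433000, nat_lit 3489822400, nat_lit 4372914000], [], [nat_lit 27946842720, nat_lit 28679512620, nat_lit 29875845755, nat_lit 30588973691, nat_lit 30389563770, nat_lit 31051960200, nat_lit 32295211120, nat_lit 32960808390], nat_lit 0, nat_lit 0, nat_lit 0, nat_lit 0, nat_lit 0, nat_lit 0, [], [nat_lit 59, nat_lit 40, nat_lit 40, nat_lit 80, nat_lit 3, nat_lit 203, nat_lit 0, nat_lit 5]⟩, ⟨p061_k46, nat_lit 0, nat_lit 0, nat_lit 365, nat_lit 0, nat_lit 587451, [nat_lit 2386192000, nat_lit 3181250000, nat_lit 5009578000], [], [nat_lit 16628749458, nat_lit 16714785042, nat_lit 17395345664, nat_lit 17465943892, nat_lit 17635809687, nat_lit 17675239475, nat_lit 18261509846, nat_lit 18305716405], nat_lit 1271250, nat_lit 1271250, nat_lit 1271250, nat_lit 1271250, nat_lit 719601, nat_lit 2763950, [nat_lit 1100000, nat_lit 1442500, nat_lit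 1271250], [nat_lit 11, nat_lit 40, nat_lit 40, nat_lit 80, nat_lit 1, nat_lit 401, nat_lit 175, nat_lit 10]⟩,
 ⟨nat_lit 4472, nat_lit 5000, ⟨.ofNat (nat_lit 828527), .ofNat (nat_lit 892808), .ofNat (nat_lit 839235), .ofNat (nat_lit 903517), .ofNat (nat_lit 815001), .ofNat (nat_lit 876177), .ofNat (nat_lit 825778), .ofNat (nat_lit 886954)⟩, ⟨.ofNat (nat_lit 442856), .ofNat (nat_lit 585713), .ofNat (nat_lit 485713), .ofNat (nat_lit 628570), .ofNat (nat_lit 438578), .ofNat (nat_lit 574534), .ofNat (nat_lit 481711), .ofNat (nat_lit 617667)⟩⟩, [⟨nat_lit 13, nat_lit 86, nat_lit 36, nat_lit 100, nat_lit 139397590⟩, ⟨nat_lit 4, nat_lit 100, nat_lit 93, nat_lit 97, nat_lit 296290322⟩, ⟨nat_lit 19, nat_lit 100, nat_lit 70, nat_lit 89, nat_lit 146514356⟩]⟩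
noncomputable def p061_l117 : Lf2 := ⟨nat_lit 0, nat_lit 5, [nat_lit 4, nat_lit 5, nat_lit 5, nat_lit 20], false, nat_lit 240, nat_lit 320, nat_lit 112, nat_lit 360, ⟨nat_lit 774, nat_lit 226, nat_lit 0, nat_lit 9, nat_lit 347, nat_lit 226, nat_lit 213, nat_lit 0, nat_lit 0, nat_lit 0, nat_lit 0, nat_lit 0, nat_lit 31673343, nat_lit 24378559, nat_lit 10948098, nat_lit 5496194, true, true⟩,
 nat_lit 0, nat_lit 0, nat_lit 8729, nat_lit 0, nat_lit 4450, nat_lit 4849, nat_lit 1102, nat_lit 0, nat_lit 0, nat_lit 2555, nat_lit 0, nat_lit 0, nat_lit 0, nat_lit 0, nat_lit 0, nat_lit 226000, nat_lit 0, nat_lit 0, [(nat_lit 15, [(nat_lit 2, nat_lit 226)])],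
 ⟨p061_k36, nat_lit 0, nat_lit 0, nat_lit 71, nat_lit 0, nat_lit 0, [nat_lit 2988073440, nat_lit 4013977601, nat_lit 5003836000], [], [nat_lit 27920080241, nat_lit 28645497241, nat_lit 29752276211, nat_lit 30399484040, nat_lit 30256216380, nat_lit 30907785400, nat_lit 32130552600, nat_lit 32791297300], nat_lit 0, nat_lit 0, nat_lit 0, nat_lit 0, nat_lit 0, nat_lit 0, [], [nat_lit 59, nat_lit 40, nat_lit 40, nat_lit 80, nat_lit 3, nat_lit 203, nat_lit 0, nat_lit 5]⟩, ⟨p061_k53, nat_lit 0, nat_lit 0, nat_lit 416, nat_lit 0, nat_lit 791990, [nat_lit 3628512000, nat_lit 4837500000, nat_lit 6167232000], [], [nat_lit 24164025686, nat_lit 24245574883, nat_lit 25379747524, nat_lit 25449495339, nat_lit 26264216097, nat_lit 26301222830, nat_lit 27025903032, nat_lit 27055231862], nat_lit 1271250, nat_lit 1271250, nat_lit 1271250, nat_lit 1271250, nat_lit 719601, nat_lit 2731500, [nat_lit 1100000, nat_lit 1442500, nat_lit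 1271250], [nat_lit 9, nat_lit 40, nat_lit 40, nat_lit 80, nat_lit 2, nat_lit 317, nat_lit 100, nat_lit 9]⟩,
 ⟨nat_lit 4472, nat_lit 5000, ⟨.ofNat (nat_lit 839235), .ofNat (nat_lit 903517), .ofNat (nat_lit 844589), .ofNat (nat_lit 908871), .ofNat (nat_lit 825778), .ofNat (nat_lit 886954), .ofNat (nat_lit 831167), .ofNat (nat_lit 892343)⟩, ⟨.ofNat (nat_lit 442856), .ofNat (nat_lit 585713), .ofNat (nat_lit 485713), .ofNat (nat_lit 628570), .ofNat (nat_lit 438578), .ofNat (nat_lit 574534), .ofNat (nat_lit 481711), .ofNat (nat_lit 617667)⟩⟩, [⟨nat_lit 13, nat_lit 83, nat_lit 39, nat_lit 100, nat_lit 17311088⟩, ⟨nat_lit 4, nat_lit 100, nat_lit 93, nat_lit 97, nat_lit 372660717⟩, ⟨nat_lit 7, nat_lit 74, nat_lit 100, nat_lit 90, nat_lit 227382188⟩]⟩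
noncomputable def p061_l118 : Lf2 := ⟨nat_lit 0, nat_lit 5, [nat_lit 4, nat_lit 5, nat_lit 5, nat_lit 20], false, nat_lit 240, nat_lit 320, nat_lit 112, nat_lit 356, ⟨nat_lit 859, nat_lit 141, nat_lit 0, nat_lit 9, nat_lit 349, nat_lit 141, nat_lit 213, nat_lit 0, nat_lit 0, nat_lit 0, nat_lit 0, nat_lit 0, nat_lit 31539897, nat_lit 24549683, nat_lit 10910420, nat_lit 5496223, true, true⟩,
 nat_lit 0, nat_lit 0, nat_lit 9465, nat_lit 0, nat_lit 4554, nat_lit 5383, nat_lit 1830, nat_lit 0, nat_lit 0, nat_lit 2382, nat_lit 0, nat_lit 0, nat_lit 0, nat_lit 0, nat_lit 0, nat_lit 141000, nat_lit 0, nat_lit 0, [(nat_lit 15, [(nat_lit 2, nat_lit 141)])],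
 ⟨p061_k36, nat_lit 0, nat_lit 0, nat_lit 71, nat_lit 0, nat_lit 0, [nat_lit 3098621041, nat_lit 4267481600, nat_lit 5472526000], [], [nat_lit 27873083330, nat_lit 28645545250, nat_lit 29824728499, nat_lit 30511865214, nat_lit 30355605582, nat_lit 31009831448, nat_lit 32248652504, nat_lit 32912877668], nat_lit 0, nat_lit 0, nat_lit 0, nat_lit 0, nat_lit 0, nat_lit 0, [], [nat_lit 59, nat_lit 40, nat_lit 40, nat_lit 80, nat_lit 3, nat_lit 203, nat_lit 0, nat_lit 5]⟩, ⟨p061_k54, nat_lit 0, nat_lit 0, nat_lit 420, nat_lit 0, nat_lit 804631, [nat_lit 4026992000, nat_lit 5368750000, nat_lit 6844512000], [], [nat_lit 26646905457, nat_lit 26729586160, nat_lit 27934117785, nat_lit 28012193260, nat_lit 28993125352, nat_lit 29040410229, nat_lit 29895774585, nat_lit 29940946612], nat_lit 1271250, nat_lit 1271250, nat_lit 1271250, nat_lit 1271250, nat_lit 719601, nat_lit 2699050, [nat_lit 1100000, nat_lit 1442500, nat_lit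 1271250], [nat_lit 9, nat_lit 40, nat_lit 40, nat_lit 80, nat_lit 2, nat_lit 317, nat_lit 100, nat_lit 9]⟩,
 ⟨nat_lit 4472, nat_lit 5000, ⟨.ofNat (nat_lit 844589), .ofNat (nat_lit 908871), .ofNat (nat_lit 849943), .ofNat (nat_lit 914224), .ofNat (nat_lit 831167), .ofNat (nat_lit 892343), .ofNat (nat_lit 836555), .ofNat (nat_lit 897731)⟩, ⟨.ofNat (nat_lit 442856), .ofNat (nat_lit 585713), .ofNat (nat_lit 485713), .ofNat (nat_lit 628570), .ofNat (nat_lit 438578), .ofNat (nat_lit 574534), .ofNat (nat_lit 481711), .ofNat (nat_lit 617667)⟩⟩, [⟨nat_lit 13, nat_lit 83, nat_lit 37, nat_lit 100, nat_lit 22687573⟩, ⟨nat_lit 4, nat_lit 100, nat_lit 93, nat_lit 97, nat_lit 397323498⟩, ⟨nat_lit 7, nat_lit 76, nat_lit 100, nat_lit 90, nat_lit 255325442⟩]⟩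
noncomputable def p061_l119 : Lf2 := ⟨nat_lit 0, nat_lit 10, [nat_lit 0, nat_lit 5, nat_lit 5, nat_lit 20], false, nat_lit 240, nat_lit 320, nat_lit 64, nat_lit 364, ⟨nat_lit 1000, nat_lit 0, nat_lit 0, nat_lit 0, nat_lit 0, nat_lit 0, nat_lit 0, nat_lit 0, nat_lit 0, nat_lit 0, nat_lit 0, nat_lit 0, nat_lit 0, nat_lit 0, nat_lit 0, nat_lit 0, false, false⟩,
 nat_lit 0, nat_lit 0, nat_lit 14940, nat_lit 0, nat_lit 6757, nat_lit 7909, nat_lit 0, nat_lit 0, nat_lit 0, nat_lit 729, nat_lit 0, nat_lit 0, nat_lit 0, nat_lit 0, nat_lit 0, nat_lit 0, nat_lit 0, nat_lit 0, [],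
 ⟨p061_k3, nat_lit 0, nat_lit 0, nat_lit 80, nat_lit 0, nat_lit 0, [nat_lit 3282000000, nat_lit 6250000000, nat_lit 7968000000], [], [nat_lit 27437303006, nat_lit 27934821111, nat_lit 32190258140, nat_lit 32564310737, nat_lit 30494734778, nat_lit 30890097307, nat_lit 34750326432, nat_lit 35119301813], nat_lit 0, nat_lit 0, nat_lit 0, nat_lit 0, nat_lit 0, nat_lit 0, [], [nat_lit 18, nat_lit 40, nat_lit 40, nat_lit 80, nat_lit 2, nat_lit 203, nat_lit 0, nat_lit 5]⟩, ⟨p061_k37, nat_lit 0, nat_lit 0, nat_lit 321, nat_lit 0, nat_lit 247850, [nat_lit 4688000000, nat_lit 7968000000, nat_lit 11872000000], [], [nat_lit 33371337184, nat_lit 33934723220, nat_lit 37684046582, nat_lit 38051945617, nat_lit 34870032777, nat_lit 35050007414, nat_lit 37223603737, nat_lit 37378439020], nat_lit 1271250, nat_lit 1271250, nat_lit 1271250, nat_lit 1271250, nat_lit 382400, nat_lit 2681150, [nat_lit 1100000, nat_lit 1785000, nat_lit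 1271250], [nat_lit 21, nat_lit 40, nat_lit 40, nat_lit 80, nat_lit 14, nat_lit 401, nat_lit 175, nat_lit 10]⟩,
 zbF0, [⟨nat_lit 4, nat_lit 100, nat_lit 97, nat_lit 98, nat_lit 424706258⟩, ⟨nat_lit 7, nat_lit 72, nat_lit 100, nat_lit 89, nat_lit 225333793⟩]⟩
noncomputable def p061_l120 : Lf2 := ⟨nat_lit 0, nat_lit 10, [nat_lit 0, nat_lit 5, nat_lit 5, nat_lit 20], false, nat_lit 240, nat_lit 312, nat_lit 64, nat_lit 364, ⟨nat_lit 1000, nat_lit 0, nat_lit 0, nat_lit 0, nat_lit 0, nat_lit 0, nat_lit 0, nat_lit 0, nat_lit 0, nat_lit 0, nat_lit 0, nat_lit 0, nat_lit 0, nat_lit 0, nat_lit 0, nat_lit 0, false, false⟩,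
 nat_lit 0, nat_lit 0, nat_lit 12493, nat_lit 0, nat_lit 5372, nat_lit 6613, nat_lit 701, nat_lit 0, nat_lit 0, nat_lit 792, nat_lit 0, nat_lit 0, nat_lit 0, nat_lit 0, nat_lit 0, nat_lit 0, nat_lit 0, nat_lit 0, [],
 ⟨p061_k40, nat_lit 0, nat_lit 0, nat_lit 80, nat_lit 0, nat_lit 0, [nat_lit 3282000000, nat_lit 6250000000, nat_lit 7968000000], [], [nat_lit 27046043463, nat_lit 27452411859, nat_lit 31049678008, nat_lit 31397955339, nat_lit 29414973306, nat_lit 29789203579, nat_lit 33267741368, nat_lit 33621980546], nat_lit 0, nat_lit 0, nat_lit 0, nat_lit 0, nat_lit 0, nat_lit 0, [], [nat_lit 18, nat_lit 40, nat_lit 40, nat_lit 80, nat_lit 2, nat_lit 203, nat_lit 0, nat_lit 5]⟩, ⟨p061_k37, nat_lit 0, nat_lit 0, nat_lit 379, nat_lit 0, nat_lit 411654, [nat_lit 4688000000, nat_lit 7968000000, nat_lit 11872000000], [], [nat_lit 35011742170, nat_lit 35464374994, nat_lit 38550642374, nat_lit 38928830715, nat_lit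 36840690035, nat_lit 37054113396, nat_lit 39398184013, nat_lit 39590195458], nat_lit 1271250, nat_lit 1271250, nat_lit 1271250, nat_lit 1271250, nat_lit 382400, nat_lit 2681150, [nat_lit 1100000, nat_lit 1785000, nat_lit 1271250], [nat_lit 21, nat_lit 40, nat_lit 40, nat_lit 80, nat_lit 14, nat_lit 401, nat_lit 175, nat_lit 10]⟩,
 zbF0, [⟨nat_lit 16, nat_lit 90, nat_lit 100, nat_lit 95, nat_lit 472977806⟩, ⟨nat_lit 7, nat_lit 72, nat_lit 100, nat_lit 89, nat_lit 250424476⟩]⟩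
noncomputable def p061_l121 : Lf2 := ⟨nat_lit 0, nat_lit 10, [nat_lit 0, nat_lit 5, nat_lit 5, nat_lit 20], false, nat_lit 240, nat_lit 336, nat_lit 64, nat_lit 352, ⟨nat_lit 1000, nat_lit 0, nat_lit 0, nat_lit 0, nat_lit 0, nat_lit 0, nat_lit 0, nat_lit 0, nat_lit 0, nat_lit 0, nat_lit 0, nat_lit 0, nat_lit 0, nat_lit 0, nat_lit 0, nat_lit 0, false, false⟩,
 nat_lit 0, nat_lit 0, nat_lit 10530, nat_lit 0, nat_lit 5313, nat_lit 6129, nat_lit 0, nat_lit 0, nat_lit 0, nat_lit 2157, nat_lit 0, nat_lit 0, nat_lit 0, nat_lit 0, nat_lit 0, nat_lit 0, nat_lit 0, nat_lit 0, [],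
 ⟨p061_k28, nat_lit 0, nat_lit 0, nat_lit 73, nat_lit 0, nat_lit 0, [nat_lit 3282000000, nat_lit 4688000000, nat_lit 9842000000], [], [nat_lit 25788673660, nat_lit 26657475010, nat_lit 30401155808, nat_lit 31134537072, nat_lit 29503106319, nat_lit 30247944757, nat_lit 33463389023, nat_lit 34067062767], nat_lit 0, nat_lit 0, nat_lit 0, nat_lit 0, nat_lit 0, nat_lit 0, [], [nat_lit 42, nat_lit 40, nat_lit 40, nat_lit 80, nat_lit 13, nat_lit 317, nat_lit 100, nat_lit 8]⟩, ⟨p061_k8, nat_lit 0, nat_lit 0, nat_lit 455, nat_lit 0, nat_lit 697409, [nat_lit 4688000000, nat_lit 6250000000, nat_lit 9842000000], [], [nat_lit 28849853464, nat_lit 29387030918, nat_lit 32497389439, nat_lit 32961281966, nat_lit 31860552133, nat_lit 32201662950, nat_lit 34730300535, nat_lit 35193120802], nat_lit 1271250, nat_lit 1271250, nat_lit 1271250, nat_lit 1271250, nat_lit 382400, nat_lit 2589200, [nat_lit 1100000, nat_lit 1442500, nat_lit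 1271250], [nat_lit 11, nat_lit 40, nat_lit 40, nat_lit 80, nat_lit 1, nat_lit 401, nat_lit 175, nat_lit 11]⟩,
 zbF0, [⟨nat_lit 16, nat_lit 100, nat_lit 94, nat_lit 97, nat_lit 413070501⟩, ⟨nat_lit 7, nat_lit 82, nat_lit 100, nat_lit 92, nat_lit 269199688⟩]⟩
noncomputable def p061_l122 : Lf2 := ⟨nat_lit 0, nat_lit 5, [nat_lit 4, nat_lit 5, nat_lit 5, nat_lit 20], false, nat_lit 240, nat_lit 320, nat_lit 64, nat_lit 352, ⟨nat_lit 838, nat_lit 162, nat_lit 0, nat_lit 8, nat_lit 338, nat_lit 162, nat_lit 213, nat_lit 0, nat_lit 0, nat_lit 0, nat_lit 0, nat_lit 0, nat_lit 32189601, nat_lit 23717560, nat_lit 11092839, nat_lit 5494516, true, true⟩,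
 nat_lit 0, nat_lit 0, nat_lit 8990, nat_lit 0, nat_lit 4633, nat_lit 5232, nat_lit 1697, nat_lit 0, nat_lit 0, nat_lit 1956, nat_lit 0, nat_lit 0, nat_lit 0, nat_lit 0, nat_lit 0, nat_lit 64800, nat_lit 0, nat_lit 0, [(nat_lit 15, [(nat_lit 1, nat_lit 162)])],
 ⟨p061_k32, nat_lit 0, nat_lit 0, nat_lit 66, nat_lit 0, nat_lit 0, [nat_lit 3077588400, nat_lit 5614376800], [], [nat_lit 25797524813, nat_lit 26571758096, nat_lit 30045569318, nat_lit 30850493088, nat_lit 28519717916, nat_lit 29240138480, nat_lit 32561760748, nat_lit 33218330296], nat_lit 0, nat_lit 0, nat_lit 0, nat_lit 0, nat_lit 0, nat_lit 0, [], [nat_lit 49, nat_lit 40, nat_lit 40, nat_lit 80, nat_lit 16, nat_lit 203, nat_lit 0, nat_lit 5]⟩, ⟨p061_k24, nat_lit 0, nat_lit 0, nat_lit 440, nat_lit 0, nat_lit 817429, [nat_lit 3928544000, nat_lit 6677184000], [], [nat_lit 25712923930, nat_lit 25794610660, nat_lit 28210604778, nat_lit 28281813474, nat_lit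 27469068992, nat_lit 27525948415, nat_lit 29302895706, nat_lit 29340175683], nat_lit 1271250, nat_lit 1271250, nat_lit 1271250, nat_lit 1271250, nat_lit 382400, nat_lit 2589200, [nat_lit 1100000, nat_lit 1785000], [nat_lit 39, nat_lit 40, nat_lit 40, nat_lit 80, nat_lit 7, nat_lit 317, nat_lit 100, nat_lit 9]⟩,
 ⟨nat_lit 4472, nat_lit 5000, ⟨.ofNat (nat_lit 778519), .ofNat (nat_lit 921367), .ofNat (nat_lit 783873), .ofNat (nat_lit 926721), .ofNat (nat_lit 768581), .ofNat (nat_lit 904528), .ofNat (nat_lit 773970), .ofNat (nat_lit 909917)⟩, ⟨.ofNat (nat_lit 442856), .ofNat (nat_lit 585713), .ofNat (nat_lit 485713), .ofNat (nat_lit 628570), .ofNat (nat_lit 438578), .ofNat (nat_lit 574534), .ofNat (nat_lit 481711), .ofNat (nat_lit 617667)⟩⟩, [⟨nat_lit 4, nat_lit 100, nat_lit 93, nat_lit 97, nat_lit 390154371⟩, ⟨nat_lit 7, nat_lit 78, nat_lit 100, nat_lit 91, nat_lit 212458983⟩]⟩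
noncomputable def p061_l123 : Lf2 := ⟨nat_lit 0, nat_lit 5, [nat_lit 4, nat_lit 5, nat_lit 5, nat_lit 20], false, nat_lit 240, nat_lit 320, nat_lit 64, nat_lit 348, ⟨nat_lit 881, nat_lit 119, nat_lit 0, nat_lit 8, nat_lit 341, nat_lit 119, nat_lit 213, nat_lit 0, nat_lit 0, nat_lit 0, nat_lit 0, nat_lit 0, nat_lit 32054544, nat_lit 23890324, nat_lit 11055132, nat_lit 5495196, true, true⟩,
 nat_lit 0, nat_lit 0, nat_lit 9249, nat_lit 0, nat_lit 4733, nat_lit 5507, nat_lit 2471, nat_lit 0, nat_lit 0, nat_lit 1626, nat_lit 0, nat_lit 0, nat_lit 0, nat_lit 0, nat_lit 0, nat_lit 47600, nat_lit 0, nat_lit 0, [(nat_lit 15, [(nat_lit 1, nat_lit 119)])],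
 ⟨p061_k32, nat_lit 0, nat_lit 0, nat_lit 66, nat_lit 0, nat_lit 0, [nat_lit 3131845801, nat_lit 5783091600], [], [nat_lit 25658357190, nat_lit 26538764098, nat_lit 30151113918, nat_lit 30961606688, nat_lit 28496977918, nat_lit 29222149282, nat_lit 32677576348, nat_lit 33337321496], nat_lit 0, nat_lit 0, nat_lit 0, nat_lit 0, nat_lit 0, nat_lit 0, [], [nat_lit 49, nat_lit 40, nat_lit 40, nat_lit 80, nat_lit 16, nat_lit 203, nat_lit 0, nat_lit 5]⟩, ⟨p061_k55, nat_lit 0, nat_lit 0, nat_lit 450, nat_lit 0, nat_lit 830540, [nat_lit 4130128000, nat_lit 7019808000], [], [nat_lit 26932321762, nat_lit 27036405379, nat_lit 29726861041, nat_lit 29801710478, nat_lit 28805885582, nat_lit 28866762301, nat_lit 30734514938, nat_lit 30774585007], nat_lit 1271250, nat_lit 1271250, nat_lit 1271250, nat_lit 1271250, nat_lit 382400, nat_lit 2558550, [nat_lit 1100000, nat_lit 1785000], [nat_lit 39, nat_lit 40, nat_lit 40, nat_lit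 80, nat_lit 7, nat_lit 317, nat_lit 100, nat_lit 9]⟩,
 ⟨nat_lit 4472, nat_lit 5000, ⟨.ofNat (nat_lit 783873), .ofNat (nat_lit 926721), .ofNat (nat_lit 789227), .ofNat (nat_lit 932075), .ofNat (nat_lit 773970), .ofNat (nat_lit 909917), .ofNat (nat_lit 779358), .ofNat (nat_lit 915306)⟩, ⟨.ofNat (nat_lit 442856), .ofNat (nat_lit 585713), .ofNat (nat_lit 485713), .ofNat (nat_lit 628570), .ofNat (nat_lit 438578), .ofNat (nat_lit 574534), .ofNat (nat_lit 481711), .ofNat (nat_lit 617667)⟩⟩, [⟨nat_lit 4, nat_lit 100, nat_lit 93, nat_lit 97, nat_lit 402470832⟩, ⟨nat_lit 19, nat_lit 100, nat_lit 71, nat_lit 97, nat_lit 53638415⟩, ⟨nat_lit 7, nat_lit 81, nat_lit 100, nat_lit 92, nat_lit 161073124⟩]⟩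
noncomputable def p061_l124 : Lf2 := ⟨nat_lit 0, nat_lit 10, [nat_lit 0, nat_lit 5, nat_lit 5, nat_lit 20], false, nat_lit 240, nat_lit 320, nat_lit 64, nat_lit 352, ⟨nat_lit 1000, nat_lit 0, nat_lit 0, nat_lit 0, nat_lit 0, nat_lit 0, nat_lit 0, nat_lit 0, nat_lit 0, nat_lit 0, nat_lit 0, nat_lit 0, nat_lit 0, nat_lit 0, nat_lit 0, nat_lit 0, false, false⟩,
 nat_lit 0, nat_lit 0, nat_lit 10347, nat_lit 0, nat_lit 5514, nat_lit 6022, nat_lit 0, nat_lit 0, nat_lit 0, nat_lit 1408, nat_lit 0, nat_lit 0, nat_lit 0, nat_lit 0, nat_lit 0, nat_lit 0, nat_lit 0, nat_lit 0, [],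
 ⟨p061_k33, nat_lit 0, nat_lit 0, nat_lit 72, nat_lit 0, nat_lit 0, [nat_lit 3282000000, nat_lit 4688000000, nat_lit 7968000000], [], [nat_lit 26334019780, nat_lit 27248828432, nat_lit 31087532016, nat_lit 31829461408, nat_lit 29359485068, nat_lit 30152184576, nat_lit 33582096184, nat_lit 34266642768], nat_lit 0, nat_lit 0, nat_lit 0, nat_lit 0, nat_lit 0, nat_lit 0, [], [nat_lit 36, nat_lit 40, nat_lit 40, nat_lit 80, nat_lit 7, nat_lit 203, nat_lit 0, nat_lit 5]⟩, ⟨p061_k8, nat_lit 0, nat_lit 0, nat_lit 340, nat_lit 0, nat_lit 441239, [nat_lit 4688000000, nat_lit 6250000000, nat_lit 9842000000], [], [nat_lit 29565977154, nat_lit 29851357810, nat_lit 33397772983, nat_lit 33601923316, nat_lit 32072249750, nat_lit 32206974798, nat_lit 34630036710, nat_lit 34828400224], nat_lit 1271250, nat_lit 1271250, nat_lit 1271250, nat_lit 1271250, nat_lit 382400, nat_lit 2589200, [nat_lit 1100000, nat_lit 1442500, nat_lit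 1271250], [nat_lit 11, nat_lit 40, nat_lit 40, nat_lit 80, nat_lit 1, nat_lit 401, nat_lit 175, nat_lit 11]⟩,
 zbF0, [⟨nat_lit 4, nat_lit 100, nat_lit 93, nat_lit 97, nat_lit 439338927⟩, ⟨nat_lit 19, nat_lit 100, nat_lit 80, nat_lit 92, nat_lit 250287477⟩]⟩
noncomputable def p061_l125 : Lf2 := ⟨nat_lit 0, nat_lit 10, [nat_lit 0, nat_lit 5, nat_lit 5, nat_lit 20], false, nat_lit 240, nat_lit 320, nat_lit 64, nat_lit 344, ⟨nat_lit 782, nat_lit 218, nat_lit 0, nat_lit 8, nat_lit 329, nat_lit 218, nat_lit 213, nat_lit 0, nat_lit 0, nat_lit 0, nat_lit 0, nat_lit 0, nat_lit 32800735, nat_lit 22937234, nat_lit 11262031, nat_lit 5489292, true, true⟩,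
 nat_lit 0, nat_lit 0, nat_lit 8398, nat_lit 0, nat_lit 4361, nat_lit 5114, nat_lit 0, nat_lit 0, nat_lit 0, nat_lit 1259, nat_lit 0, nat_lit 0, nat_lit 0, nat_lit 0, nat_lit 0, nat_lit 218000, nat_lit 0, nat_lit 0, [(nat_lit 15, [(nat_lit 2, nat_lit 218)])],
 ⟨p061_k33, nat_lit 0, nat_lit 0, nat_lit 61, nat_lit 0, nat_lit 0, [nat_lit 2998477920, nat_lit 4138901600, nat_lit 6078986400], [], [nat_lit 25102322350, nat_lit 26044541916, nat_lit 27290053780, nat_lit 28126199684, nat_lit 28145430496, nat_lit 28921227072, nat_lit 30074182516, nat_lit 30820457532], nat_lit 0, nat_lit 0, nat_lit 0, nat_lit 0, nat_lit 0, nat_lit 0, [], [nat_lit 36, nat_lit 40, nat_lit 40, nat_lit 80, nat_lit 7, nat_lit 203, nat_lit 0, nat_lit 5]⟩, ⟨p061_k29, nat_lit 0, nat_lit 0, nat_lit 508, nat_lit 0, nat_lit 868435, [nat_lit 3666016000, nat_lit 4887500000, nat_lit 7696444000], [], [nat_lit 22729717698, nat_lit 22837613740, nat_lit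 24102099767, nat_lit 24198866815, nat_lit 24532614966, nat_lit 24586822277, nat_lit 25340019869, nat_lit 25432835453], nat_lit 1271250, nat_lit 1271250, nat_lit 1271250, nat_lit 1271250, nat_lit 382400, nat_lit 2527900, [nat_lit 1100000, nat_lit 1442500, nat_lit 1271250], [nat_lit 11, nat_lit 40, nat_lit 40, nat_lit 80, nat_lit 1, nat_lit 401, nat_lit 175, nat_lit 11]⟩,
 ⟨nat_lit 4472, nat_lit 5000, ⟨.ofNat (nat_lit 789227), .ofNat (nat_lit 860651), .ofNat (nat_lit 794581), .ofNat (nat_lit 866005), .ofNat (nat_lit 779358), .ofNat (nat_lit 847332), .ofNat (nat_lit 784747), .ofNat (nat_lit 852721)⟩, ⟨.ofNat (nat_lit 442856), .ofNat (nat_lit 585713), .ofNat (nat_lit 485713), .ofNat (nat_lit 628570), .ofNat (nat_lit 438578), .ofNat (nat_lit 574534), .ofNat (nat_lit 481711), .ofNat (nat_lit 617667)⟩⟩, [⟨nat_lit 16, nat_lit 93, nat_lit 100, nat_lit 97, nat_lit 397165482⟩, ⟨nat_lit 19, nat_lit 100, nat_lit 74, nat_lit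 98, nat_lit 187830833⟩]⟩
noncomputable def p061_l126 : Lf2 := ⟨nat_lit 0, nat_lit 10, [nat_lit 0, nat_lit 5, nat_lit 5, nat_lit 20], false, nat_lit 240, nat_lit 320, nat_lit 112, nat_lit 344, ⟨nat_lit 997, nat_lit 3, nat_lit 0, nat_lit 9, nat_lit 357, nat_lit 3, nat_lit 213, nat_lit 0, nat_lit 0, nat_lit 0, nat_lit 0, nat_lit 0, nat_lit 31056597, nat_lit 25170338, nat_lit 10773065, nat_lit 5494946, true, true⟩,
 nat_lit 0, nat_lit 0, nat_lit 10248, nat_lit 0, nat_lit 4704, nat_lit 6241, nat_lit 1762, nat_lit 0, nat_lit 0, nat_lit 1414, nat_lit 0, nat_lit 0, nat_lit 0, nat_lit 0, nat_lit 0, nat_lit 750, nat_lit 0, nat_lit 0, [(nat_lit 15, [(nat_lit 0, nat_lit 3)])],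
 ⟨p061_k33, nat_lit 0, nat_lit 0, nat_lit 72, nat_lit 0, nat_lit 0, [nat_lit 3279109200, nat_lit 4681070000, nat_lit 7953310800], [], [nat_lit 28040396448, nat_lit 28821330368, nat_lit 30242837280, nat_lit 30929383744, nat_lit 30541044400, nat_lit 31184957888, nat_lit 32643989824, nat_lit 33302814048], nat_lit 0, nat_lit 0, nat_lit 0, nat_lit 0, nat_lit 0, nat_lit 0, [], [nat_lit 36, nat_lit 40, nat_lit 40, nat_lit 80, nat_lit 7, nat_lit 203, nat_lit 0, nat_lit 5]⟩, ⟨p061_k29, nat_lit 0, nat_lit 0, nat_lit 488, nat_lit 0, nat_lit 868435, [nat_lit 4673936000, nat_lit 6231250000, nat_lit 9812474000], [], [nat_lit 31508963029, nat_lit 31592416603, nat_lit 32946752154, nat_lit 33015623037, nat_lit 33531596836, nat_lit 33589955577, nat_lit 34695225918, nat_lit 34741556605], nat_lit 1271250, nat_lit 1271250, nat_lit 1271250, nat_lit 1271250, nat_lit 719601, nat_lit 2601700, [nat_lit 1100000, nat_lit 1442500, nat_lit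 1271250], [nat_lit 11, nat_lit 40, nat_lit 40, nat_lit 80, nat_lit 1, nat_lit 401, nat_lit 175, nat_lit 10]⟩,
 ⟨nat_lit 4472, nat_lit 5000, ⟨.ofNat (nat_lit 860651), .ofNat (nat_lit 932075), .ofNat (nat_lit 866005), .ofNat (nat_lit 937429), .ofNat (nat_lit 847332), .ofNat (nat_lit 915306), .ofNat (nat_lit 852721), .ofNat (nat_lit 920694)⟩, ⟨.ofNat (nat_lit 442856), .ofNat (nat_lit 585713), .ofNat (nat_lit 485713), .ofNat (nat_lit 628570), .ofNat (nat_lit 438578), .ofNat (nat_lit 574534), .ofNat (nat_lit 481711), .ofNat (nat_lit 617667)⟩⟩, [⟨nat_lit 4, nat_lit 100, nat_lit 93, nat_lit 97, nat_lit 433311749⟩, ⟨nat_lit 7, nat_lit 84, nat_lit 100, nat_lit 93, nat_lit 274356260⟩]⟩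
noncomputable def p061_l127 : Lf2 := ⟨nat_lit 0, nat_lit 10, [nat_lit 0, nat_lit 5, nat_lit 5, nat_lit 20], false, nat_lit 240, nat_lit 320, nat_lit 64, nat_lit 340, ⟨nat_lit 897, nat_lit 103, nat_lit 0, nat_lit 8, nat_lit 344, nat_lit 103, nat_lit 213, nat_lit 0, nat_lit 0, nat_lit 0, nat_lit 0, nat_lit 0, nat_lit 31812495, nat_lit 24200233, nat_lit 10987272, nat_lit 5495987, true, true⟩,
 nat_lit 0, nat_lit 0, nat_lit 9040, nat_lit 0, nat_lit 4749, nat_lit 5628, nat_lit 1498, nat_lit 0, nat_lit 0, nat_lit 1227, nat_lit 0, nat_lit 0, nat_lit 0, nat_lit 0, nat_lit 0, nat_lit 103000, nat_lit 0, nat_lit 0, [(nat_lit 15, [(nat_lit 2, nat_lit 103)])],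
 ⟨p061_k33, nat_lit 0, nat_lit 0, nat_lit 72, nat_lit 0, nat_lit 0, [nat_lit 3148042320, nat_lit 4428563600, nat_lit 7075484400], [], [nat_lit 25748586650, nat_lit 26580756200, nat_lit 30168001054, nat_lit 30979384864, nat_lit 28508370188, nat_lit 29234301680, nat_lit 32696106844, nat_lit 33356360088], nat_lit 0, nat_lit 0, nat_lit 0, nat_lit 0, nat_lit 0, nat_lit 0, [], [nat_lit 36, nat_lit 40, nat_lit 40, nat_lit 80, nat_lit 7, nat_lit 203, nat_lit 0, nat_lit 5]⟩, ⟨p061_k56, nat_lit 0, nat_lit 0, nat_lit 511, nat_lit 0, nat_lit 865563, [nat_lit 4205136000, nat_lit 5606250000, nat_lit 8828274000], [], [nat_lit 27805264776, nat_lit 27861848471, nat_lit 30372371321, nat_lit 30412399752, nat_lit 29153310245, nat_lit 29191805552, nat_lit 31117995101, nat_lit 31143518855], nat_lit 1271250, nat_lit 1271250, nat_lit 1271250, nat_lit 1271250, nat_lit 382400, nat_lit 2497250, [nat_lit 1100000, nat_lit 1442500, nat_lit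 1271250], [nat_lit 11, nat_lit 40, nat_lit 40, nat_lit 80, nat_lit 1, nat_lit 401, nat_lit 175, nat_lit 11]⟩,
 ⟨nat_lit 4472, nat_lit 5000, ⟨.ofNat (nat_lit 794581), .ofNat (nat_lit 937429), .ofNat (nat_lit 797793), .ofNat (nat_lit 940641), .ofNat (nat_lit 784747), .ofNat (nat_lit 920694), .ofNat (nat_lit 787980), .ofNat (nat_lit 923927)⟩, ⟨.ofNat (nat_lit 442856), .ofNat (nat_lit 585713), .ofNat (nat_lit 485713), .ofNat (nat_lit 628570), .ofNat (nat_lit 438578), .ofNat (nat_lit 574534), .ofNat (nat_lit 481711), .ofNat (nat_lit 617667)⟩⟩, [⟨nat_lit 4, nat_lit 100, nat_lit 93, nat_lit 97, nat_lit 407149403⟩, ⟨nat_lit 19, nat_lit 100, nat_lit 77, nat_lit 99, nat_lit 134260983⟩, ⟨nat_lit 7, nat_lit 86, nat_lit 100, nat_lit 94, nat_lit 69288875⟩]⟩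
noncomputable def p061_l128 : Lf2 := ⟨nat_lit 0, nat_lit 10, [nat_lit 0, nat_lit 5, nat_lit 5, nat_lit 20], false, nat_lit 240, nat_lit 320, nat_lit 64, nat_lit 340, ⟨nat_lit 996, nat_lit 4, nat_lit 0, nat_lit 8, nat_lit 345, nat_lit 4, nat_lit 213, nat_lit 0, nat_lit 0, nat_lit 0, nat_lit 0, nat_lit 0, nat_lit 31745495, nat_lit 24286080, nat_lit 10968425, nat_lit 5496109, true, true⟩,
 nat_lit 0, nat_lit 0, nat_lit 9903, nat_lit 0, nat_lit 4874, nat_lit 6247, nat_lit 1844, nat_lit 0, nat_lit 0, nat_lit 1295, nat_lit 0, nat_lit 0, nat_lit 0, nat_lit 0, nat_lit 0, nat_lit 4000, nat_lit 0, nat_lit 0, [(nat_lit 15, [(nat_lit 2, nat_lit 4)])],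
 ⟨p061_k33, nat_lit 0, nat_lit 0, nat_lit 72, nat_lit 0, nat_lit 0, [nat_lit 3276797761, nat_lit 4677924800, nat_lit 7933339200], [], [nat_lit 25738514586, nat_lit 26629140610, nat_lit 30299931804, nat_lit 31118276864, nat_lit 28601812570, nat_lit 29334225584, nat_lit 32840876344, nat_lit 33505099088], nat_lit 0, nat_lit 0, nat_lit 0, nat_lit 0, nat_lit 0, nat_lit 0, [], [nat_lit 36, nat_lit 40, nat_lit 40, nat_lit 80, nat_lit 7, nat_lit 203, nat_lit 0, nat_lit 5]⟩, ⟨p061_k57, nat_lit 0, nat_lit 0, nat_lit 510, nat_lit 0, nat_lit 865361, [nat_lit 4669248000, nat_lit 6225000000, nat_lit 9802632000], [], [nat_lit 30951214450, nat_lit 30993099738, nat_lit 33782892720, nat_lit 33816393201, nat_lit 32423182749, nat_lit 32451681661, nat_lit 34590108283, nat_lit 34624761159], nat_lit 1271250, nat_lit 1271250, nat_lit 1271250, nat_lit 1271250, nat_lit 382400, nat_lit 2497250, [nat_lit 1100000, nat_lit 1442500, nat_lit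 1271250], [nat_lit 11, nat_lit 40, nat_lit 40, nat_lit 80, nat_lit 1, nat_lit 401, nat_lit 175, nat_lit 11]⟩,
 ⟨nat_lit 4472, nat_lit 5000, ⟨.ofNat (nat_lit 797793), .ofNat (nat_lit 940641), .ofNat (nat_lit 799935), .ofNat (nat_lit 942783), .ofNat (nat_lit 787980), .ofNat (nat_lit 923927), .ofNat (nat_lit 790136), .ofNat (nat_lit 926083)⟩, ⟨.ofNat (nat_lit 442856), .ofNat (nat_lit 585713), .ofNat (nat_lit 485713), .ofNat (nat_lit 628570), .ofNat (nat_lit 438578), .ofNat (nat_lit 574534), .ofNat (nat_lit 481711), .ofNat (nat_lit 617667)⟩⟩, [⟨nat_lit 4, nat_lit 100, nat_lit 93, nat_lit 97, nat_lit 456898089⟩, ⟨nat_lit 19, nat_lit 100, nat_lit 79, nat_lit 100, nat_lit 219688481⟩]⟩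
noncomputable def b_V_700_600_20_16 : St := ⟨true, nat_lit 0, nat_lit 1, nat_lit 1, nat_lit 120, nat_lit 280, nat_lit 320, nat_lit 240, nat_lit 280, nat_lit 320, nat_lit 400, nat_lit 80, nat_lit 120, nat_lit 240, nat_lit 336, nat_lit 16, nat_lit 364, nat_lit 0, nat_lit 40, nat_lit 0, nat_lit 0, nat_lit 0, nat_lit 0⟩
theorem d_V_700_600_20_16 (h : EB TB.env) : Dead b_V_700_600_20_16 := chkB_sound0 h (T :=
(.trZ (nat_lit 9) (nat_lit 100) (nat_lit 82) (nat_lit 76) (nat_lit 64) (.spl (nat_lit 1) (nat_lit 260)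
(.spl (nat_lit 0) (nat_lit 300)
(.spl (nat_lit 6) (nat_lit 28)
(.spl (nat_lit 0) (nat_lit 290)
(.leaf p061_l108)
(.trX (nat_lit 16) (nat_lit 97) (nat_lit 84) (nat_lit 100) (nat_lit 328) (.leaf p061_l109)))
(.leaf p061_l110))
(.trX (nat_lit 13) (nat_lit 91) (nat_lit 23) (nat_lit 100) (nat_lit 396) (.trX (nat_lit 16) (nat_lit 94) (nat_lit 88) (nat_lit 100) (nat_lit 320) (.spl (nat_lit 6) (nat_lit 20)
(.spl (nat_lit 2) (nat_lit 360)
(.spl (nat_lit 1) (nat_lit 250)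
(.leaf p061_l111)
(.trX (nat_lit 19) (nat_lit 100) (nat_lit 64) (nat_lit 95) (nat_lit 360) (.leaf p061_l112)))
(.trZ (nat_lit 9) (nat_lit 100) (nat_lit 61) (nat_lit 92) (nat_lit 112) (.spl (nat_lit 1) (nat_lit 250)
(.spl (nat_lit 6) (nat_lit 8)
(.spl (nat_lit 1) (nat_lit 245)
(.trX (nat_lit 13) (nat_lit 89) (nat_lit 30) (nat_lit 100) (nat_lit 392) (.spl (nat_lit 0) (nat_lit 310)
(.leaf p061_l113)
(.trX (nat_lit 13) (nat_lit 86) (nat_lit 36) (nat_lit 100) (nat_lit 388) (.trX (nat_lit 16) (nat_lit 91) (nat_lit 91) (nat_lit 100) (nat_lit 312) (.leaf p061_l114)))))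
(.leaf p061_l115))
(.leaf p061_l116))
(.trX (nat_lit 19) (nat_lit 100) (nat_lit 64) (nat_lit 95) (nat_lit 360) (.spl (nat_lit 1) (nat_lit 255)
(.leaf p061_l117)
(.trX (nat_lit 19) (nat_lit 100) (nat_lit 66) (nat_lit 95) (nat_lit 356) (.leaf p061_l118)))))))
(.spl (nat_lit 0) (nat_lit 310)
(.leaf p061_l119)
(.trX (nat_lit 16) (nat_lit 91) (nat_lit 91) (nat_lit 100) (nat_lit 312) (.leaf p061_l120)))))))
(.trX (nat_lit 19) (nat_lit 100) (nat_lit 69) (nat_lit 96) (nat_lit 352) (.spl (nat_lit 0) (nat_lit 300)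
(.leaf p061_l121)
(.trX (nat_lit 16) (nat_lit 94) (nat_lit 88) (nat_lit 100) (nat_lit 320) (.spl (nat_lit 1) (nat_lit 270)
(.spl (nat_lit 6) (nat_lit 20)
(.spl (nat_lit 1) (nat_lit 265)
(.leaf p061_l122)
(.trX (nat_lit 19) (nat_lit 100) (nat_lit 71) (nat_lit 97) (nat_lit 348) (.leaf p061_l123)))
(.leaf p061_l124))
(.trX (nat_lit 19) (nat_lit 100) (nat_lit 74) (nat_lit 98) (nat_lit 344) (.spl (nat_lit 1) (nat_lit 275)
(.spl (nat_lit 2) (nat_lit 360)
(.leaf p061_l125)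
(.trZ (nat_lit 9) (nat_lit 100) (nat_lit 61) (nat_lit 92) (nat_lit 112) (.leaf p061_l126)))
(.trX (nat_lit 19) (nat_lit 100) (nat_lit 77) (nat_lit 99) (nat_lit 340) (.spl (nat_lit 1) (nat_lit 278)
(.leaf p061_l127)
(.leaf p061_l128)))))))))))) (by decide +kernel)
noncomputable def p061_l129 : Lf2 := ⟨nat_lit 0, nat_lit 10, [nat_lit 0, nat_lit 5, nat_lit 5, nat_lit 20], true, nat_lit 0, nat_lit 336, nat_lit 0, nat_lit 364, ⟨nat_lit 0, nat_lit 1000, nat_lit 0, nat_lit 6, nat_lit 181, nat_lit 1000, nat_lit 127, nat_lit 0, nat_lit 0, nat_lit 0, nat_lit 0, nat_lit 0, nat_lit 0, nat_lit 0, nat_lit 0, nat_lit 5000000, false, false⟩,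
 nat_lit 0, nat_lit 0, nat_lit 0, nat_lit 5806, nat_lit 4966, nat_lit 0, nat_lit 399, nat_lit 0, nat_lit 0, nat_lit 0, nat_lit 0, nat_lit 0, nat_lit 0, nat_lit 0, nat_lit 0, nat_lit 250000, nat_lit 0, nat_lit 0, [(nat_lit 12, [(nat_lit 0, nat_lit 1000)]), (nat_lit 15, [(nat_lit 0, nat_lit 1000)])],
 ⟨p061_k17, nat_lit 0, nat_lit 0, nat_lit 284, nat_lit 0, nat_lit 0, [nat_lit 2364000000, nat_lit 2954000000, nat_lit 3510800000], [], [nat_lit 20656764572, nat_lit 23984490261, nat_lit 22475443635, nat_lit 24930225723, nat_lit 25744507795, nat_lit 27608972145, nat_lit 25569559135, nat_lit 27171177133], nat_lit 0, nat_lit 0, nat_lit 0, nat_lit 0, nat_lit 0, nat_lit 0, [], [nat_lit 8, nat_lit 40, nat_lit 40, nat_lit 80, nat_lit 1, nat_lit 373, nat_lit 150, nat_lit 11]⟩, C1.Rw.none,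
 ⟨nat_lit 4472, nat_lit 5478, ⟨.ofNat (nat_lit 235487), .ofNat (nat_lit 617523), .ofNat (nat_lit 278138), .ofNat (nat_lit 660148), .ofNat (nat_lit 264421), .ofNat (nat_lit 610987), .ofNat (nat_lit 307491), .ofNat (nat_lit 654031)⟩, ⟨.negSucc (nat_lit 2834), .ofNat (nat_lit 626629), .ofNat (nat_lit 0), .ofNat (nat_lit 669343), .ofNat (nat_lit 0), .ofNat (nat_lit 601725), .ofNat (nat_lit 0), .ofNat (nat_lit 644858)⟩⟩, [⟨nat_lit 16, nat_lit 100, nat_lit 100, nat_lit 100, nat_lit 92680980⟩]⟩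
noncomputable def p061_l130 : Lf2 := ⟨nat_lit 0, nat_lit 10, [nat_lit 0, nat_lit 5, nat_lit 5, nat_lit 20], false, nat_lit 0, nat_lit 336, nat_lit 0, nat_lit 364, ⟨nat_lit 1000, nat_lit 0, nat_lit 0, nat_lit 0, nat_lit 0, nat_lit 0, nat_lit 0, nat_lit 0, nat_lit 0, nat_lit 0, nat_lit 0, nat_lit 0, nat_lit 0, nat_lit 0, nat_lit 0, nat_lit 0, false, false⟩,
 nat_lit 0, nat_lit 0, nat_lit 0, nat_lit 16517, nat_lit 7100, nat_lit 7516, nat_lit 867, nat_lit 0, nat_lit 0, nat_lit 968, nat_lit 0, nat_lit 0, nat_lit 0, nat_lit 0, nat_lit 0, nat_lit 0, nat_lit 0, nat_lit 0, [],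
 ⟨p061_k17, nat_lit 0, nat_lit 0, nat_lit 217, nat_lit 0, nat_lit 0, [nat_lit 3282000000, nat_lit 6250000000, nat_lit 9842000000], [], [nat_lit 26149779375, nat_lit 27632682775, nat_lit 38596885600, nat_lit 39867440600, nat_lit 27425708095, nat_lit 28211863735, nat_lit 35542896721, nat_lit 36233144081], nat_lit 0, nat_lit 0, nat_lit 0, nat_lit 0, nat_lit 0, nat_lit 0, [], [nat_lit 8, nat_lit 40, nat_lit 40, nat_lit 80, nat_lit 1, nat_lit 428, nat_lit 200, nat_lit 12]⟩, ⟨p061_k37, nat_lit 0, nat_lit 0, nat_lit 251, nat_lit 0, nat_lit 0, [nat_lit 4688000000, nat_lit 7968000000, nat_lit 11872000000], [], [nat_lit 28157868176, nat_lit 30407665248, nat_lit 39476598176, nat_lit 40575302400, nat_lit 30416159049, nat_lit 31347819400, nat_lit 37021018551, nat_lit 37583289152], nat_lit 0, nat_lit 0, nat_lit 0, nat_lit 0, nat_lit 0, nat_lit 0, [], [nat_lit 21, nat_lit 40, nat_lit 40, nat_lit 80, nat_lit 14, nat_lit 538,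 nat_lit 300, nat_lit 13]⟩,
 zbF0, [⟨nat_lit 4, nat_lit 94, nat_lit 100, nat_lit 97, nat_lit 139489749⟩, ⟨nat_lit 7, nat_lit 77, nat_lit 100, nat_lit 91, nat_lit 170480088⟩]⟩
noncomputable def p061_l131 : Lf2 := ⟨nat_lit 0, nat_lit 10, [nat_lit 0, nat_lit 5, nat_lit 5, nat_lit 20], false, nat_lit 0, nat_lit 320, nat_lit 0, nat_lit 364, ⟨nat_lit 1000, nat_lit 0, nat_lit 0, nat_lit 0, nat_lit 0, nat_lit 0, nat_lit 0, nat_lit 0, nat_lit 0, nat_lit 0, nat_lit 0, nat_lit 0, nat_lit 0, nat_lit 0, nat_lit 0, nat_lit 0, false, false⟩,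
 nat_lit 0, nat_lit 0, nat_lit 0, nat_lit 11548, nat_lit 7792, nat_lit 7516, nat_lit 189, nat_lit 0, nat_lit 0, nat_lit 996, nat_lit 0, nat_lit 0, nat_lit 0, nat_lit 0, nat_lit 0, nat_lit 0, nat_lit 0, nat_lit 0, [],
 ⟨p061_k3, nat_lit 0, nat_lit 0, nat_lit 199, nat_lit 0, nat_lit 0, [nat_lit 3282000000, nat_lit 6250000000, nat_lit 7968000000], [], [nat_lit 29147433734, nat_lit 30497803734, nat_lit 41740813312, nat_lit 43074042752, nat_lit 28526554038, nat_lit 29266265142, nat_lit 36220375552, nat_lit 36977262304], nat_lit 0, nat_lit 0, nat_lit 0, nat_lit 0, nat_lit 0, nat_lit 0, [], [nat_lit 18, nat_lit 40, nat_lit 40, nat_lit 80, nat_lit 2, nat_lit 317, nat_lit 100, nat_lit 10]⟩, ⟨p061_k37, nat_lit 0, nat_lit 0, nat_lit 251, nat_lit 0, nat_lit 0, [nat_lit 4688000000, nat_lit 7968000000, nat_lit 11872000000], [], [nat_lit 27971318176, nat_lit 30221115248, nat_lit 39290048176, nat_lit 40388752400, nat_lit 30229609049,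 nat_lit 31346111645, nat_lit 37021018551, nat_lit 37583289152], nat_lit 0, nat_lit 0, nat_lit 0, nat_lit 0, nat_lit 0, nat_lit 0, [], [nat_lit 21, nat_lit 40, nat_lit 40, nat_lit 80, nat_lit 14, nat_lit 538, nat_lit 300, nat_lit 13]⟩,
 zbF0, [⟨nat_lit 4, nat_lit 100, nat_lit 93, nat_lit 97, nat_lit 100015207⟩, ⟨nat_lit 19, nat_lit 100, nat_lit 77, nat_lit 91, nat_lit 173290565⟩]⟩
noncomputable def p061_l132 : Lf2 := ⟨nat_lit 0, nat_lit 10, [nat_lit 0, nat_lit 5, nat_lit 5, nat_lit 20], true, nat_lit 0, nat_lit 336, nat_lit 0, nat_lit 364, ⟨nat_lit 0, nat_lit 1000, nat_lit 0, nat_lit 6, nat_lit 181, nat_lit 1000, nat_lit 127, nat_lit 0, nat_lit 0, nat_lit 0, nat_lit 0, nat_lit 0, nat_lit 0, nat_lit 0, nat_lit 0, nat_lit 5000000, false, false⟩,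
 nat_lit 0, nat_lit 0, nat_lit 0, nat_lit 6003, nat_lit 5214, nat_lit 0, nat_lit 0, nat_lit 0, nat_lit 0, nat_lit 0, nat_lit 0, nat_lit 0, nat_lit 0, nat_lit 0, nat_lit 0, nat_lit 675400, nat_lit 0, nat_lit 0, [(nat_lit 12, [(nat_lit 1, nat_lit 541), (nat_lit 2, nat_lit 459)]), (nat_lit 15, [(nat_lit 1, nat_lit 541), (nat_lit 2, nat_lit 459)])],
 ⟨p061_k5, nat_lit 0, nat_lit 0, nat_lit 283, nat_lit 0, nat_lit 0, [nat_lit 3054430401, nat_lit 1336388800], [], [nat_lit 24217547471, nat_lit 26459975797, nat_lit 24789105481, nat_lit 26327420368, nat_lit 26489498424, nat_lit 28060571896, nat_lit 25941854150, nat_lit 27343495527], nat_lit 0, nat_lit 0, nat_lit 0, nat_lit 0, nat_lit 0, nat_lit 0, [], [nat_lit 82, nat_lit 40, nat_lit 40, nat_lit 80, nat_lit 63, nat_lit 373, nat_lit 150, nat_lit 11]⟩, C1.Rw.none,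
 ⟨nat_lit 4472, nat_lit 5478, ⟨.ofNat (nat_lit 235487), .ofNat (nat_lit 617523), .ofNat (nat_lit 278138), .ofNat (nat_lit 660148), .ofNat (nat_lit 264421), .ofNat (nat_lit 610987), .ofNat (nat_lit 307491), .ofNat (nat_lit 654031)⟩, ⟨.negSucc (nat_lit 2834), .ofNat (nat_lit 626629), .ofNat (nat_lit 0), .ofNat (nat_lit 669343), .ofNat (nat_lit 0), .ofNat (nat_lit 601725), .ofNat (nat_lit 0), .ofNat (nat_lit 644858)⟩⟩, [⟨nat_lit 4, nat_lit 100, nat_lit 100, nat_lit 100, nat_lit 72035983⟩]⟩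
noncomputable def p061_l133 : Lf2 := ⟨nat_lit 0, nat_lit 10, [nat_lit 0, nat_lit 5, nat_lit 5, nat_lit 20], false, nat_lit 0, nat_lit 160, nat_lit 0, nat_lit 364, ⟨nat_lit 182, nat_lit 818, nat_lit 0, nat_lit 6, nat_lit 311, nat_lit 818, nat_lit 64, nat_lit 0, nat_lit 0, nat_lit 0, nat_lit 0, nat_lit 0, nat_lit 0, nat_lit 0, nat_lit 0, nat_lit 5000000, true, true⟩,
 nat_lit 0, nat_lit 0, nat_lit 2919, nat_lit 0, nat_lit 4284, nat_lit 1545, nat_lit 32, nat_lit 0, nat_lit 0, nat_lit 115, nat_lit 0, nat_lit 0, nat_lit 0, nat_lit 0, nat_lit 0, nat_lit 818000, nat_lit 0, nat_lit 0, [(nat_lit 12, [(nat_lit 2, nat_lit 818)]), (nat_lit 15, [(nat_lit 2, nat_lit 818)])],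
 ⟨p061_k17, nat_lit 0, nat_lit 0, nat_lit 219, nat_lit 0, nat_lit 0, [nat_lit 2507517601, nat_lit 2729655200, nat_lit 1550752000], [], [nat_lit 25092601073, nat_lit 26750919601, nat_lit 31454920656, nat_lit 33259514704, nat_lit 23845862593, nat_lit 25258247745, nat_lit 29294417121, nat_lit 30397889905], nat_lit 0, nat_lit 0, nat_lit 0, nat_lit 0, nat_lit 0, nat_lit 0, [], [nat_lit 8, nat_lit 40, nat_lit 40, nat_lit 80, nat_lit 1, nat_lit 373, nat_lit 150, nat_lit 10]⟩, ⟨p061_k37, nat_lit 0, nat_lit 0, nat_lit 757, nat_lit 0, nat_lit 1119043, [nat_lit 853216000, nat_lit 1450176000, nat_lit 2160704000], [], [nat_lit 7522394232, nat_lit 7581052392, nat_lit 7989771740, nat_lit 7991762060, nat_lit 6629111317, nat_lit 6628051534, nat_lit 6915307512, nat_lit 7068251958], nat_lit 1271250, nat_lit 1271250, nat_lit 1271250, nat_lit 1271250, nat_lit 0, nat_lit 2570750, [nat_lit 1100000, nat_lit 1785000, nat_lit 1271250],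 [nat_lit 21, nat_lit 40, nat_lit 40, nat_lit 80, nat_lit 14, nat_lit 538, nat_lit 300, nat_lit 13]⟩,
 ⟨nat_lit 4472, nat_lit 5478, ⟨.ofNat (nat_lit 617523), .ofNat (nat_lit 917115), .ofNat (nat_lit 660148), .ofNat (nat_lit 959740), .ofNat (nat_lit 610987), .ofNat (nat_lit 882759), .ofNat (nat_lit 654031), .ofNat (nat_lit 925804)⟩, ⟨.negSucc (nat_lit 2834), .ofNat (nat_lit 296923), .ofNat (nat_lit 0), .ofNat (nat_lit 339637), .ofNat (nat_lit 0), .ofNat (nat_lit 302621), .ofNat (nat_lit 0), .ofNat (nat_lit 345754)⟩⟩, [⟨nat_lit 13, nat_lit 91, nat_lit 23, nat_lit 100, nat_lit 96069922⟩, ⟨nat_lit 10, nat_lit 100, nat_lit 53, nat_lit 80, nat_lit 54291132⟩]⟩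
noncomputable def p061_l134 : Lf2 := ⟨nat_lit 0, nat_lit 10, [nat_lit 0, nat_lit 5, nat_lit 5, nat_lit 20], true, nat_lit 160, nat_lit 336, nat_lit 0, nat_lit 364, ⟨nat_lit 0, nat_lit 1000, nat_lit 0, nat_lit 6, nat_lit 283, nat_lit 1000, nat_lit 191, nat_lit 0, nat_lit 0, nat_lit 0, nat_lit 0, nat_lit 0, nat_lit 0, nat_lit 0, nat_lit 0, nat_lit 5000000, true, true⟩,
 nat_lit 0, nat_lit 0, nat_lit 0, nat_lit 4039, nat_lit 3562, nat_lit 0, nat_lit 0, nat_lit 0, nat_lit 0, nat_lit 0, nat_lit 0, nat_lit 0, nat_lit 0, nat_lit 0, nat_lit 0, nat_lit 400000, nat_lit 0, nat_lit 0, [(nat_lit 12, [(nat_lit 1, nat_lit 1000)]), (nat_lit 15, [(nat_lit 1, nat_lit 1000)])],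
 ⟨p061_k17, nat_lit 0, nat_lit 0, nat_lit 65, nat_lit 0, nat_lit 0, [nat_lit 2068400000, nat_lit 2721200001, nat_lit 2642799999], [], [nat_lit 17437011648, nat_lit 19873041120, nat_lit 21663997400, nat_lit 23671015904, nat_lit 24606556172, nat_lit 26281687021, nat_lit 27493635890, nat_lit 29008703543], nat_lit 0, nat_lit 0, nat_lit 0, nat_lit 0, nat_lit 0, nat_lit 0, [], [nat_lit 8, nat_lit 40, nat_lit 40, nat_lit 80, nat_lit 1, nat_lit 401, nat_lit 175, nat_lit 11]⟩, C1.Rw.none,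
 ⟨nat_lit 4472, nat_lit 5478, ⟨.ofNat (nat_lit 617523), .ofNat (nat_lit 767319), .ofNat (nat_lit 660148), .ofNat (nat_lit 809944), .ofNat (nat_lit 610987), .ofNat (nat_lit 746873), .ofNat (nat_lit 654031), .ofNat (nat_lit 789917)⟩, ⟨.ofNat (nat_lit 296923), .ofNat (nat_lit 626629), .ofNat (nat_lit 339637), .ofNat (nat_lit 669343), .ofNat (nat_lit 302621), .ofNat (nat_lit 601725), .ofNat (nat_lit 345754), .ofNat (nat_lit 644858)⟩⟩, [⟨nat_lit 16, nat_lit 100, nat_lit 80, nat_lit 100, nat_lit 243695060⟩]⟩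
noncomputable def p061_l135 : Lf2 := ⟨nat_lit 0, nat_lit 7, [nat_lit 80, nat_lit 5, nat_lit 5, nat_lit 20], false, nat_lit 160, nat_lit 336, nat_lit 16, nat_lit 364, ⟨nat_lit 542, nat_lit 458, nat_lit 0, nat_lit 8, nat_lit 338, nat_lit 458, nat_lit 192, nat_lit 0, nat_lit 0, nat_lit 0, nat_lit 0, nat_lit 0, nat_lit 0, nat_lit 0, nat_lit 0, nat_lit 5000000, true, true⟩,
 nat_lit 0, nat_lit 0, nat_lit 7058, nat_lit 0, nat_lit 4558, nat_lit 3736, nat_lit 0, nat_lit 0, nat_lit 0, nat_lit 809, nat_lit 0, nat_lit 0, nat_lit 0, nat_lit 0, nat_lit 0, nat_lit 183200, nat_lit 0, nat_lit 0, [(nat_lit 12, [(nat_lit 1, nat_lit 458)])],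
 ⟨p061_k26, nat_lit 0, nat_lit 0, nat_lit 74, nat_lit 0, nat_lit 0, [nat_lit 2710141201, nat_lit 3720154401, nat_lit 5547012000], [], [nat_lit 23701074578, nat_lit 24649312602, nat_lit 28444375522, nat_lit 29183904334, nat_lit 29005989473, nat_lit 29654640875, nat_lit 32601964600, nat_lit 33152413040], nat_lit 0, nat_lit 0, nat_lit 0, nat_lit 0, nat_lit 0, nat_lit 0, [], [nat_lit 36, nat_lit 40, nat_lit 40, nat_lit 80, nat_lit 7, nat_lit 317, nat_lit 100, nat_lit 9]⟩, ⟨p061_k44, nat_lit 0, nat_lit 0, nat_lit 450, nat_lit 0, nat_lit 576356, [nat_lit 2540896000, nat_lit 3387500000, nat_lit 5334364000], [], [nat_lit 18131752193, nat_lit 18377444177, nat_lit 20038677839, nat_lit 20246098734, nat_lit 18342993196, nat_lit 18462910000, nat_lit 19612318488, nat_lit 19704233953], nat_lit 1271250, nat_lit 1271250, nat_lit 1271250, nat_lit 1271250, nat_lit 88400, nat_lit 2598350, [nat_lit 1100000, nat_lit 1442500, nat_lit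 1271250], [nat_lit 11, nat_lit 40, nat_lit 40, nat_lit 80, nat_lit 1, nat_lit 401, nat_lit 175, nat_lit 11]⟩,
 ⟨nat_lit 5000, nat_lit 5478, ⟨.ofNat (nat_lit 767454), .ofNat (nat_lit 917295), .ofNat (nat_lit 788802), .ofNat (nat_lit 938642), .ofNat (nat_lit 757084), .ofNat (nat_lit 899915), .ofNat (nat_lit 778503), .ofNat (nat_lit 921335)⟩, ⟨.ofNat (nat_lit 296923), .ofNat (nat_lit 626629), .ofNat (nat_lit 339637), .ofNat (nat_lit 669336), .ofNat (nat_lit 299999), .ofNat (nat_lit 614284), .ofNat (nat_lit 342856), .ofNat (nat_lit 657134)⟩⟩, [⟨nat_lit 13, nat_lit 92, nat_lit 22, nat_lit 100, nat_lit 109814616⟩, ⟨nat_lit 4, nat_lit 94, nat_lit 100, nat_lit 97, nat_lit 283880201⟩, ⟨nat_lit 7, nat_lit 72, nat_lit 100, nat_lit 89, nat_lit 113125714⟩]⟩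
noncomputable def p061_l136 : Lf2 := ⟨nat_lit 1, nat_lit 10, [nat_lit 0, nat_lit 5, nat_lit 5, nat_lit 20], false, nat_lit 160, nat_lit 336, nat_lit 16, nat_lit 364, zbN0,
 nat_lit 0, nat_lit 0, nat_lit 0, nat_lit 0, nat_lit 0, nat_lit 0, nat_lit 0, nat_lit 0, nat_lit 0, nat_lit 0, nat_lit 0, nat_lit 0, nat_lit 0, nat_lit 0, nat_lit 0, nat_lit 0, nat_lit 0, nat_lit 0, [],
 C1.Rw.none, C1.Rw.none,
 zbF0, []⟩
noncomputable def p061_l137 : Lf2 := ⟨nat_lit 0, nat_lit 10, [nat_lit 0, nat_lit 5, nat_lit 5, nat_lit 20], true, nat_lit 160, nat_lit 320, nat_lit 16, nat_lit 364, ⟨nat_lit 0, nat_lit 1000, nat_lit 0, nat_lit 8, nat_lit 319, nat_lit 1000, nat_lit 185, nat_lit 0, nat_lit 0, nat_lit 0, nat_lit 0, nat_lit 0, nat_lit 0, nat_lit 0, nat_lit 0, nat_lit 5000000, true, true⟩,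
 nat_lit 0, nat_lit 0, nat_lit 0, nat_lit 4028, nat_lit 3388, nat_lit 0, nat_lit 0, nat_lit 0, nat_lit 0, nat_lit 0, nat_lit 0, nat_lit 0, nat_lit 0, nat_lit 0, nat_lit 0, nat_lit 400000, nat_lit 0, nat_lit 0, [(nat_lit 15, [(nat_lit 1, nat_lit 1000)])],
 ⟨p061_k3, nat_lit 0, nat_lit 0, nat_lit 70, nat_lit 0, nat_lit 0, [nat_lit 2020200000, nat_lit 2354866667, nat_lit 2328333333], [], [nat_lit 22715103048, nat_lit 23699342496, nat_lit 24956173960, nat_lit 25835830496, nat_lit 27501070608, nat_lit 28221585216, nat_lit 29167218944, nat_lit 29865738256], nat_lit 0, nat_lit 0, nat_lit 0, nat_lit 0, nat_lit 0, nat_lit 0, [], [nat_lit 18, nat_lit 40, nat_lit 40, nat_lit 80, nat_lit 2, nat_lit 317, nat_lit 100, nat_lit 9]⟩, C1.Rw.none,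
 ⟨nat_lit 4472, nat_lit 5000, ⟨.ofNat (nat_lit 757103), .ofNat (nat_lit 828527), .ofNat (nat_lit 778519), .ofNat (nat_lit 849943), .ofNat (nat_lit 747027), .ofNat (nat_lit 815001), .ofNat (nat_lit 768581), .ofNat (nat_lit 836555)⟩, ⟨.ofNat (nat_lit 299999), .ofNat (nat_lit 585713), .ofNat (nat_lit 342856), .ofNat (nat_lit 628570), .ofNat (nat_lit 302621), .ofNat (nat_lit 574534), .ofNat (nat_lit 345754), .ofNat (nat_lit 617667)⟩⟩, [⟨nat_lit 16, nat_lit 94, nat_lit 88, nat_lit 100, nat_lit 228606900⟩]⟩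
noncomputable def p061_l138 : Lf2 := ⟨nat_lit 0, nat_lit 10, [nat_lit 0, nat_lit 5, nat_lit 5, nat_lit 20], true, nat_lit 160, nat_lit 320, nat_lit 48, nat_lit 364, ⟨nat_lit 0, nat_lit 1000, nat_lit 0, nat_lit 9, nat_lit 343, nat_lit 1000, nat_lit 185, nat_lit 0, nat_lit 0, nat_lit 0, nat_lit 0, nat_lit 0, nat_lit 0, nat_lit 0, nat_lit 0, nat_lit 5000000, true, true⟩,
 nat_lit 0, nat_lit 0, nat_lit 0, nat_lit 6507, nat_lit 3489, nat_lit 0, nat_lit 0, nat_lit 0, nat_lit 0, nat_lit 0, nat_lit 0, nat_lit 0, nat_lit 0, nat_lit 0, nat_lit 0, nat_lit 727600, nat_lit 0, nat_lit 0, [(nat_lit 15, [(nat_lit 1, nat_lit 454), (nat_lit 2, nat_lit 546)])],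
 ⟨p061_k3, nat_lit 0, nat_lit 0, nat_lit 88, nat_lit 0, nat_lit 0, [nat_lit 2071196401, nat_lit 1641317467, nat_lit 670792800], [], [nat_lit 26199626238, nat_lit 26925394980, nat_lit 27960316872, nat_lit 28614888625, nat_lit 29689596308, nat_lit 30230804116, nat_lit 31040220641, nat_lit 31667847939], nat_lit 0, nat_lit 0, nat_lit 0, nat_lit 0, nat_lit 0, nat_lit 0, [], [nat_lit 18, nat_lit 40, nat_lit 40, nat_lit 80, nat_lit 2, nat_lit 317, nat_lit 100, nat_lit 9]⟩, C1.Rw.none,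
 ⟨nat_lit 4472, nat_lit 5000, ⟨.ofNat (nat_lit 828527), .ofNat (nat_lit 892808), .ofNat (nat_lit 839235), .ofNat (nat_lit 903517), .ofNat (nat_lit 815001), .ofNat (nat_lit 876177), .ofNat (nat_lit 825778), .ofNat (nat_lit 886954)⟩, ⟨.ofNat (nat_lit 299999), .ofNat (nat_lit 585713), .ofNat (nat_lit 342856), .ofNat (nat_lit 628570), .ofNat (nat_lit 302621), .ofNat (nat_lit 574534), .ofNat (nat_lit 345754), .ofNat (nat_lit 617667)⟩⟩, [⟨nat_lit 13, nat_lit 89, nat_lit 28, nat_lit 100, nat_lit 318129247⟩, ⟨nat_lit 16, nat_lit 94, nat_lit 88, nat_lit 100, nat_lit 190995099⟩]⟩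
noncomputable def p061_l139 : Lf2 := ⟨nat_lit 0, nat_lit 10, [nat_lit 0, nat_lit 5, nat_lit 5, nat_lit 20], false, nat_lit 160, nat_lit 320, nat_lit 48, nat_lit 360, ⟨nat_lit 139, nat_lit 861, nat_lit 0, nat_lit 9, nat_lit 348, nat_lit 861, nat_lit 185, nat_lit 0, nat_lit 0, nat_lit 0, nat_lit 0, nat_lit 0, nat_lit 0, nat_lit 0, nat_lit 0, nat_lit 5000000, true, true⟩,
 nat_lit 0, nat_lit 0, nat_lit 1998, nat_lit 1226, nat_lit 4124, nat_lit 1109, nat_lit 0, nat_lit 0, nat_lit 0, nat_lit 73, nat_lit 0, nat_lit 0, nat_lit 0, nat_lit 0, nat_lit 0, nat_lit 344400, nat_lit 0, nat_lit 0, [(nat_lit 15, [(nat_lit 1, nat_lit 861)])],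
 ⟨p061_k3, nat_lit 0, nat_lit 0, nat_lit 88, nat_lit 0, nat_lit 0, [nat_lit 2195590200, nat_lit 2896290200, nat_lit 3106826000], [], [nat_lit 26679407320, nat_lit 27442944592, nat_lit 28634055586, nat_lit 29379832677, nat_lit 30301452904, nat_lit 30907304536, nat_lit 31869666948, nat_lit 32410189608], nat_lit 0, nat_lit 0, nat_lit 0, nat_lit 0, nat_lit 0, nat_lit 0, [], [nat_lit 18, nat_lit 40, nat_lit 40, nat_lit 80, nat_lit 2, nat_lit 317, nat_lit 100, nat_lit 9]⟩, ⟨p061_k39, nat_lit 0, nat_lit 0, nat_lit 533, nat_lit 0, nat_lit 857718, [nat_lit 651632000, nat_lit 1107552000, nat_lit 1368038000], [], [nat_lit 5425927433, nat_lit 5439563253, nat_lit 5597927717, nat_lit 5607679068, nat_lit 5082025040, nat_lit 5080509130, nat_lit 5171237695, nat_lit 5173977566], nat_lit 1271250, nat_lit 1271250, nat_lit 1271250, nat_lit 1271250, nat_lit 279600, nat_lit 2623500, [nat_lit 1100000, nat_lit 1785000, nat_lit 1271250],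 [nat_lit 29, nat_lit 40, nat_lit 40, nat_lit 80, nat_lit 17, nat_lit 401, nat_lit 175, nat_lit 11]⟩,
 ⟨nat_lit 4472, nat_lit 5000, ⟨.ofNat (nat_lit 839235), .ofNat (nat_lit 903517), .ofNat (nat_lit 849943), .ofNat (nat_lit 914224), .ofNat (nat_lit 825778), .ofNat (nat_lit 886954), .ofNat (nat_lit 836555), .ofNat (nat_lit 897731)⟩, ⟨.ofNat (nat_lit 299999), .ofNat (nat_lit 585713), .ofNat (nat_lit 342856), .ofNat (nat_lit 628570), .ofNat (nat_lit 302621), .ofNat (nat_lit 574534), .ofNat (nat_lit 345754), .ofNat (nat_lit 617667)⟩⟩, [⟨nat_lit 13, nat_lit 91, nat_lit 23, nat_lit 100, nat_lit 276138278⟩, ⟨nat_lit 16, nat_lit 94, nat_lit 88, nat_lit 100, nat_lit 216502484⟩, ⟨nat_lit 19, nat_lit 100, nat_lit 64, nat_lit 95, nat_lit 22891724⟩]⟩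
noncomputable def p061_l140 : Lf2 := ⟨nat_lit 0, nat_lit 10, [nat_lit 0, nat_lit 5, nat_lit 5, nat_lit 20], false, nat_lit 160, nat_lit 336, nat_lit 16, nat_lit 352, ⟨nat_lit 756, nat_lit 244, nat_lit 0, nat_lit 8, nat_lit 347, nat_lit 244, nat_lit 192, nat_lit 0, nat_lit 0, nat_lit 0, nat_lit 0, nat_lit 0, nat_lit 0, nat_lit 0, nat_lit 0, nat_lit 5000000, true, true⟩,
 nat_lit 0, nat_lit 0, nat_lit 8068, nat_lit 0, nat_lit 4904, nat_lit 4696, nat_lit 0, nat_lit 0, nat_lit 0, nat_lit 1569, nat_lit 0, nat_lit 0, nat_lit 0, nat_lit 0, nat_lit 0, nat_lit 244000, nat_lit 0, nat_lit 0, [(nat_lit 12, [(nat_lit 2, nat_lit 244)])],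
 ⟨p061_k28, nat_lit 0, nat_lit 0, nat_lit 74, nat_lit 0, nat_lit 0, [nat_lit 2967474240, nat_lit 4181553600, nat_lit 7368816000], [], [nat_lit 23844295328, nat_lit 24822229840, nat_lit 28766328800, nat_lit 29592948160, nat_lit 29227287476, nat_lit 29918365172, nat_lit 33014593300, nat_lit 33571300452], nat_lit 0, nat_lit 0, nat_lit 0, nat_lit 0, nat_lit 0, nat_lit 0, [], [nat_lit 42, nat_lit 40, nat_lit 40, nat_lit 80, nat_lit 13, nat_lit 317, nat_lit 100, nat_lit 8]⟩, ⟨p061_k8, nat_lit 0, nat_lit 0, nat_lit 488, nat_lit 0, nat_lit 697409, [nat_lit 3544128000, nat_lit 4725000000, nat_lit 7440552000], [], [nat_lit 24310636888, nat_lit 24627754921, nat_lit 26682911029, nat_lit 26989008340, nat_lit 24887076548, nat_lit 25092705924, nat_lit 26539245834, nat_lit 26683766352], nat_lit 1271250, nat_lit 1271250, nat_lit 1271250, nat_lit 1271250, nat_lit 88400, nat_lit 2511800, [nat_lit 1100000, nat_lit 1442500, nat_lit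 1271250], [nat_lit 11, nat_lit 40, nat_lit 40, nat_lit 80, nat_lit 1, nat_lit 401, nat_lit 175, nat_lit 11]⟩,
 ⟨nat_lit 5000, nat_lit 5478, ⟨.ofNat (nat_lit 788802), .ofNat (nat_lit 938642), .ofNat (nat_lit 810149), .ofNat (nat_lit 959989), .ofNat (nat_lit 778503), .ofNat (nat_lit 921335), .ofNat (nat_lit 799922), .ofNat (nat_lit 942753)⟩, ⟨.ofNat (nat_lit 296923), .ofNat (nat_lit 626629), .ofNat (nat_lit 339637), .ofNat (nat_lit 669336), .ofNat (nat_lit 299999), .ofNat (nat_lit 614284), .ofNat (nat_lit 342856), .ofNat (nat_lit 657134)⟩⟩, [⟨nat_lit 13, nat_lit 95, nat_lit 12, nat_lit 100, nat_lit 27358137⟩, ⟨nat_lit 4, nat_lit 94, nat_lit 100, nat_lit 97, nat_lit 315893539⟩, ⟨nat_lit 19, nat_lit 100, nat_lit 82, nat_lit 92, nat_lit 157050611⟩]⟩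
noncomputable def p061_l141 : Lf2 := ⟨nat_lit 0, nat_lit 5, [nat_lit 4, nat_lit 5, nat_lit 5, nat_lit 20], false, nat_lit 160, nat_lit 320, nat_lit 16, nat_lit 352, ⟨nat_lit 743, nat_lit 257, nat_lit 0, nat_lit 8, nat_lit 343, nat_lit 257, nat_lit 185, nat_lit 0, nat_lit 0, nat_lit 0, nat_lit 0, nat_lit 0, nat_lit 0, nat_lit 0, nat_lit 0, nat_lit 5000000, true, true⟩,
 nat_lit 0, nat_lit 0, nat_lit 7921, nat_lit 0, nat_lit 4275, nat_lit 4610, nat_lit 1688, nat_lit 0, nat_lit 0, nat_lit 1723, nat_lit 0, nat_lit 0, nat_lit 0, nat_lit 0, nat_lit 0, nat_lit 102800, nat_lit 0, nat_lit 0, [(nat_lit 15, [(nat_lit 1, nat_lit 257)])],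
 ⟨p061_k32, nat_lit 0, nat_lit 0, nat_lit 74, nat_lit 0, nat_lit 0, [nat_lit 2957717400, nat_lit 5241634800], [], [nat_lit 24365006800, nat_lit 24797380300, nat_lit 28828035950, nat_lit 29210481575, nat_lit 28749868100, nat_lit 29101574450, nat_lit 32194298250, nat_lit 32471450675], nat_lit 0, nat_lit 0, nat_lit 0, nat_lit 0, nat_lit 0, nat_lit 0, [], [nat_lit 49, nat_lit 40, nat_lit 40, nat_lit 80, nat_lit 16, nat_lit 317, nat_lit 100, nat_lit 10]⟩, ⟨p061_k24, nat_lit 0, nat_lit 0, nat_lit 491, nat_lit 0, nat_lit 806789, [nat_lit 3483184000, nat_lit 5920224000], [], [nat_lit 24026083537, nat_lit 24328872489, nat_lit 26280724888, nat_lit 26544323456, nat_lit 24482249721, nat_lit 24684424969, nat_lit 26105525320, nat_lit 26238530701], nat_lit 1271250, nat_lit 1271250, nat_lit 1271250, nat_lit 1271250, nat_lit 88400, nat_lit 2511800, [nat_lit 1100000, nat_lit 1785000], [nat_lit 39, nat_lit 40, nat_lit 40, nat_lit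 80, nat_lit 7, nat_lit 317, nat_lit 100, nat_lit 10]⟩,
 ⟨nat_lit 4743, nat_lit 5000, ⟨.ofNat (nat_lit 778556), .ofNat (nat_lit 921410), .ofNat (nat_lit 799982), .ofNat (nat_lit 942836), .ofNat (nat_lit 773549), .ofNat (nat_lit 912945), .ofNat (nat_lit 795034), .ofNat (nat_lit 934430)⟩, ⟨.ofNat (nat_lit 299999), .ofNat (nat_lit 585713), .ofNat (nat_lit 342856), .ofNat (nat_lit 628570), .ofNat (nat_lit 301370), .ofNat (nat_lit 580169), .ofNat (nat_lit 344346), .ofNat (nat_lit 623145)⟩⟩, [⟨nat_lit 13, nat_lit 91, nat_lit 21, nat_lit 100, nat_lit 20282684⟩, ⟨nat_lit 16, nat_lit 97, nat_lit 100, nat_lit 98, nat_lit 306043415⟩, ⟨nat_lit 19, nat_lit 100, nat_lit 82, nat_lit 92, nat_lit 154182167⟩]⟩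
noncomputable def p061_l142 : Lf2 := ⟨nat_lit 0, nat_lit 5, [nat_lit 4, nat_lit 5, nat_lit 5, nat_lit 20], false, nat_lit 160, nat_lit 312, nat_lit 16, nat_lit 352, ⟨nat_lit 227, nat_lit 773, nat_lit 0, nat_lit 8, nat_lit 340, nat_lit 773, nat_lit 182, nat_lit 0, nat_lit 0, nat_lit 0, nat_lit 0, nat_lit 0, nat_lit 0, nat_lit 0, nat_lit 0, nat_lit 5000000, true, true⟩,
 nat_lit 0, nat_lit 0, nat_lit 2492, nat_lit 0, nat_lit 3684, nat_lit 1450, nat_lit 373, nat_lit 0, nat_lit 0, nat_lit 367, nat_lit 0, nat_lit 0, nat_lit 0, nat_lit 0, nat_lit 0, nat_lit 309200, nat_lit 0, nat_lit 0, [(nat_lit 15, [(nat_lit 1, nat_lit 773)])],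
 ⟨p061_k58, nat_lit 0, nat_lit 0, nat_lit 78, nat_lit 0, nat_lit 0, [nat_lit 2306628600, nat_lit 2777144001, nat_lit 3217057200], [], [nat_lit 24586611777, nat_lit 25023223953, nat_lit 28611665125, nat_lit 28959354913, nat_lit 28455234112, nat_lit 28782176326, nat_lit 31548302763, nat_lit 31859795930], nat_lit 0, nat_lit 0, nat_lit 0, nat_lit 0, nat_lit 0, nat_lit 0, [], [nat_lit 59, nat_lit 40, nat_lit 40, nat_lit 80, nat_lit 3, nat_lit 317, nat_lit 100, nat_lit 10]⟩, ⟨p061_k13, nat_lit 0, nat_lit 0, nat_lit 542, nat_lit 0, nat_lit 944792, [nat_lit 1064176000, nat_lit 1418750000, nat_lit 1808736000], [], [nat_lit 7776970494, nat_lit 7860855429, nat_lit 8381089252, nat_lit 8439717967, nat_lit 7678598391, nat_lit 7710373418, nat_lit 8023629704, nat_lit 8061926432], nat_lit 1271250, nat_lit 1271250, nat_lit 1271250, nat_lit 1271250, nat_lit 88400, nat_lit 2511800, [nat_lit 1100000, nat_lit 1442500, nat_lit 1271250],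 [nat_lit 9, nat_lit 40, nat_lit 40, nat_lit 80, nat_lit 2, nat_lit 317, nat_lit 100, nat_lit 10]⟩,
 ⟨nat_lit 4472, nat_lit 4744, ⟨.ofNat (nat_lit 773551), .ofNat (nat_lit 912950), .ofNat (nat_lit 795036), .ofNat (nat_lit 934435), .ofNat (nat_lit 768622), .ofNat (nat_lit 904577), .ofNat (nat_lit 790184), .ofNat (nat_lit 926140)⟩, ⟨.ofNat (nat_lit 301370), .ofNat (nat_lit 566229), .ofNat (nat_lit 344346), .ofNat (nat_lit 609205), .ofNat (nat_lit 302621), .ofNat (nat_lit 560938), .ofNat (nat_lit 345754), .ofNat (nat_lit 604071)⟩⟩, [⟨nat_lit 13, nat_lit 91, nat_lit 19, nat_lit 100, nat_lit 208825783⟩, ⟨nat_lit 16, nat_lit 91, nat_lit 91, nat_lit 100, nat_lit 234576702⟩, ⟨nat_lit 7, nat_lit 82, nat_lit 100, nat_lit 92, nat_lit 42419545⟩]⟩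
noncomputable def p061_l143 : Lf2 := ⟨nat_lit 0, nat_lit 10, [nat_lit 0, nat_lit 5, nat_lit 5, nat_lit 20], false, nat_lit 160, nat_lit 320, nat_lit 16, nat_lit 352, ⟨nat_lit 835, nat_lit 165, nat_lit 0, nat_lit 8, nat_lit 342, nat_lit 165, nat_lit 185, nat_lit 0, nat_lit 0, nat_lit 0, nat_lit 0, nat_lit 0, nat_lit 0, nat_lit 0, nat_lit 0, nat_lit 5000000, true, true⟩,
 nat_lit 0, nat_lit 0, nat_lit 8812, nat_lit 0, nat_lit 5002, nat_lit 5129, nat_lit 0, nat_lit 0, nat_lit 0, nat_lit 1231, nat_lit 0, nat_lit 0, nat_lit 0, nat_lit 0, nat_lit 0, nat_lit 41250, nat_lit 0, nat_lit 0, [(nat_lit 15, [(nat_lit 0, nat_lit 165)])],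
 ⟨p061_k33, nat_lit 0, nat_lit 0, nat_lit 78, nat_lit 0, nat_lit 0, [nat_lit 3123006001, nat_lit 4306850000, nat_lit 7160094000], [], [nat_lit 24948463001, nat_lit 25934808657, nat_lit 29707845780, nat_lit 30543529072, nat_lit 29335959697, nat_lit 30032522857, nat_lit 33070838732, nat_lit 33657743416], nat_lit 0, nat_lit 0, nat_lit 0, nat_lit 0, nat_lit 0, nat_lit 0, [], [nat_lit 36, nat_lit 40, nat_lit 40, nat_lit 80, nat_lit 7, nat_lit 317, nat_lit 100, nat_lit 9]⟩, ⟨p061_k8, nat_lit 0, nat_lit 0, nat_lit 432, nat_lit 0, nat_lit 530310, [nat_lit 3914480000, nat_lit 5218750000, nat_lit 8218070000], [], [nat_lit 27252040229, nat_lit 27627762619, nat_lit 29901141866, nat_lit 30168488057, nat_lit 27485545744, nat_lit 27695788998, nat_lit 29253661679, nat_lit 29400302878], nat_lit 1271250, nat_lit 1271250, nat_lit 1271250, nat_lit 1271250, nat_lit 88400, nat_lit 2511800, [nat_lit 1100000, nat_lit 1442500, nat_lit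 1271250], [nat_lit 11, nat_lit 40, nat_lit 40, nat_lit 80, nat_lit 1, nat_lit 401, nat_lit 175, nat_lit 11]⟩,
 ⟨nat_lit 4472, nat_lit 5000, ⟨.ofNat (nat_lit 778519), .ofNat (nat_lit 921367), .ofNat (nat_lit 799935), .ofNat (nat_lit 942783), .ofNat (nat_lit 768581), .ofNat (nat_lit 904528), .ofNat (nat_lit 790136), .ofNat (nat_lit 926083)⟩, ⟨.ofNat (nat_lit 299999), .ofNat (nat_lit 585713), .ofNat (nat_lit 342856), .ofNat (nat_lit 628570), .ofNat (nat_lit 302621), .ofNat (nat_lit 574534), .ofNat (nat_lit 345754), .ofNat (nat_lit 617667)⟩⟩, [⟨nat_lit 4, nat_lit 100, nat_lit 93, nat_lit 97, nat_lit 332222842⟩, ⟨nat_lit 7, nat_lit 82, nat_lit 100, nat_lit 92, nat_lit 166462546⟩]⟩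
noncomputable def b_V_700_600_20_17 : St := ⟨true, nat_lit 0, nat_lit 2, nat_lit 2, nat_lit 120, nat_lit 280, nat_lit 320, nat_lit 240, nat_lit 280, nat_lit 36, nat_lit 400, nat_lit 80, nat_lit 120, nat_lit 0, nat_lit 336, nat_lit 0, nat_lit 364, nat_lit 0, nat_lit 40, nat_lit 0, nat_lit 0, nat_lit 0, nat_lit 0⟩
theorem d_V_700_600_20_17 (h : EB TB.env) : Dead b_V_700_600_20_17 := chkB_sound0 h (T :=
(.st (nat_lit 1)
(.spl (nat_lit 2) (nat_lit 240)
(.leaf p061_l129)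
(.spl (nat_lit 0) (nat_lit 300)
(.leaf p061_l130)
(.trX (nat_lit 16) (nat_lit 94) (nat_lit 88) (nat_lit 100) (nat_lit 320) (.leaf p061_l131))))
(.spl (nat_lit 2) (nat_lit 240)
(.leaf p061_l132)
(.spl (nat_lit 4) (nat_lit 160)
(.leaf p061_l133)
(.spl (nat_lit 2) (nat_lit 320)
(.leaf p061_l134)
(.trZ (nat_lit 9) (nat_lit 100) (nat_lit 82) (nat_lit 44) (nat_lit 16) (.spl (nat_lit 1) (nat_lit 260)
(.spl (nat_lit 0) (nat_lit 300)
(.spl (nat_lit 6) (nat_lit 28)
(.leaf p061_l135)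
(.leaf p061_l136))
(.trX (nat_lit 13) (nat_lit 91) (nat_lit 23) (nat_lit 100) (nat_lit 396) (.trX (nat_lit 16) (nat_lit 94) (nat_lit 88) (nat_lit 100) (nat_lit 320) (.spl (nat_lit 2) (nat_lit 360)
(.leaf p061_l137)
(.trZ (nat_lit 9) (nat_lit 100) (nat_lit 61) (nat_lit 68) (nat_lit 48) (.spl (nat_lit 1) (nat_lit 250)
(.leaf p061_l138)
(.trX (nat_lit 19) (nat_lit 100) (nat_lit 64) (nat_lit 95) (nat_lit 360) (.leaf p061_l139))))))))
(.trX (nat_lit 19) (nat_lit 100) (nat_lit 69) (nat_lit 96) (nat_lit 352) (.spl (nat_lit 0) (nat_lit 300)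
(.leaf p061_l140)
(.trX (nat_lit 16) (nat_lit 94) (nat_lit 88) (nat_lit 100) (nat_lit 320) (.spl (nat_lit 6) (nat_lit 20)
(.spl (nat_lit 0) (nat_lit 310)
(.leaf p061_l141)
(.trX (nat_lit 16) (nat_lit 91) (nat_lit 91) (nat_lit 100) (nat_lit 312) (.leaf p061_l142)))
(.leaf p061_l143)))))))))))) (by decide +kernel)

end B2
end Pool.Agent.Lib.MP_6947cd_al
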