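import Pool.Agent.Lib.MP_6947cd_al.ZB.Pre

/-!
Problem MP_6947cd_al (Chollet).  Case B, second entry in [2/5, 17/20]: certificates of the tree, part P062 (generated).
-/

set_option autoImplicit false
set_option linter.all false

namespace Pool.Agent.Lib.MP_6947cd_al
namespace B2

open Ent Fr B1 PkA

noncomputable def p062_k0 : C1.Kn := ⟨[nat_lit 60, nat_lit 100, nat_lit 140], [nat_lit 0, nat_lit 0, nat_lit 2047], [(nat_lit 0, nat_lit 0, nat_lit 0), (nat_lit 0, nat_lit 0, nat_lit 0), (nat_lit 1000, nat_lit 993, nat_lit 781)], (nat_lit 94, nat_lit 100, nat_lit 62)⟩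
noncomputable def p062_k1 : C1.Kn := ⟨[nat_lit 60, nat_lit 100, nat_lit 120], [nat_lit 0, nat_lit 302, nat_lit 1376], [(nat_lit 0, nat_lit 0, nat_lit 0), (nat_lit 1000, nat_lit 953, nat_lit 118), (nat_lit 1000, nat_lit 911, nat_lit 628)], (nat_lit 91, nat_lit 100, nat_lit 61)⟩
noncomputable def p062_k2 : C1.Kn := ⟨[nat_lit 60, nat_lit 100, nat_lit 120], [nat_lit 0, nat_lit 609, nat_lit 1609], [(nat_lit 0, nat_lit 0, nat_lit 0), (nat_lit 1000, nat_lit 905, nat_lit 238), (nat_lit 1000, nat_lit 882, nat_lit 668)], (nat_lit 87, nat_lit 100, nat_lit 60)⟩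
noncomputable def p062_k3 : C1.Kn := ⟨[nat_lit 60, nat_lit 100, nat_lit 120], [nat_lit 0, nat_lit 0, nat_lit 1164], [(nat_lit 0, nat_lit 0, nat_lit 0), (nat_lit 0, nat_lit 0, nat_lit 0), (nat_lit 1000, nat_lit 933, nat_lit 572)], (nat_lit 92, nat_lit 100, nat_lit 51)⟩
noncomputable def p062_k4 : C1.Kn := ⟨[nat_lit 60, nat_lit 100, nat_lit 120], [nat_lit 0, nat_lit 302, nat_lit 1376], [(nat_lit 0, nat_lit 0, nat_lit 0), (nat_lit 1000, nat_lit 953, nat_lit 118), (nat_lit 1000, nat_lit 911, nat_lit 628)], (nat_lit 90, nat_lit 100, nat_lit 51)⟩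
noncomputable def p062_k5 : C1.Kn := ⟨[nat_lit 80, nat_lit 120, nat_lit 140], [nat_lit 0, nat_lit 528, nat_lit 1572], [(nat_lit 0, nat_lit 0, nat_lit 0), (nat_lit 1000, nat_lit 959, nat_lit 206), (nat_lit 966, nat_lit 1000, nat_lit 679)], (nat_lit 100, nat_lit 99, nat_lit 63)⟩
noncomputable def p062_k6 : C1.Kn := ⟨[nat_lit 60, nat_lit 100, nat_lit 120], [nat_lit 0, nat_lit 0, nat_lit 1164], [(nat_lit 0, nat_lit 0, nat_lit 0), (nat_lit 0, nat_lit 0, nat_lit 0), (nat_lit 1000, nat_lit 933, nat_lit 572)], (nat_lit 93, nat_lit 100, nat_lit 55)⟩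
noncomputable def p062_k7 : C1.Kn := ⟨[nat_lit 80, nat_lit 120, nat_lit 140], [nat_lit 0, nat_lit 528, nat_lit 1572], [(nat_lit 0, nat_lit 0, nat_lit 0), (nat_lit 1000, nat_lit 959, nat_lit 206), (nat_lit 966, nat_lit 1000, nat_lit 679)], (nat_lit 99, nat_lit 100, nat_lit 56)⟩
noncomputable def p062_k8 : C1.Kn := ⟨[nat_lit 60, nat_lit 100, nat_lit 120], [nat_lit 0, nat_lit 151, nat_lit 1267], [(nat_lit 0, nat_lit 0, nat_lit 0), (nat_lit 1000, nat_lit 977, nat_lit 59), (nat_lit 1000, nat_lit 921, nat_lit 595)], (nat_lit 91, nat_lit 100, nat_lit 55)⟩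
noncomputable def p062_k9 : C1.Kn := ⟨[nat_lit 60, nat_lit 100], [nat_lit 0, nat_lit 609], [(nat_lit 0, nat_lit 0, nat_lit 0), (nat_lit 1000, nat_lit 905, nat_lit 238)], (nat_lit 87, nat_lit 100, nat_lit 44)⟩
noncomputable def p062_k10 : C1.Kn := ⟨[nat_lit 80, nat_lit 120, nat_lit 140], [nat_lit 0, nat_lit 0, nat_lit 1164], [(nat_lit 0, nat_lit 0, nat_lit 0), (nat_lit 0, nat_lit 0, nat_lit 0), (nat_lit 941, nat_lit 1000, nat_lit 576)], (nat_lit 100, nat_lit 99, nat_lit 44)⟩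
noncomputable def p062_k11 : C1.Kn := ⟨[nat_lit 80, nat_lit 120], [nat_lit 0, nat_lit 264], [(nat_lit 0, nat_lit 0, nat_lit 0), (nat_lit 1000, nat_lit 979, nat_lit 103)], (nat_lit 99, nat_lit 100, nat_lit 44)⟩
noncomputable def p062_k12 : C1.Kn := ⟨[nat_lit 80, nat_lit 120, nat_lit 160], [nat_lit 0, nat_lit 0, nat_lit 2132], [(nat_lit 0, nat_lit 0, nat_lit 0), (nat_lit 0, nat_lit 0, nat_lit 0), (nat_lit 858, nat_lit 1000, nat_lit 713)], (nat_lit 100, nat_lit 92, nat_lit 61)⟩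
noncomputable def p062_k13 : C1.Kn := ⟨[nat_lit 60, nat_lit 100, nat_lit 120], [nat_lit 0, nat_lit 0, nat_lit 1164], [(nat_lit 0, nat_lit 0, nat_lit 0), (nat_lit 0, nat_lit 0, nat_lit 0), (nat_lit 1000, nat_lit 933, nat_lit 572)], (nat_lit 92, nat_lit 100, nat_lit 44)⟩
noncomputable def p062_k14 : C1.Kn := ⟨[nat_lit 60, nat_lit 80, nat_lit 120], [nat_lit 0, nat_lit 0, nat_lit 1064], [(nat_lit 0, nat_lit 0, nat_lit 0), (nat_lit 0, nat_lit 0, nat_lit 0), (nat_lit 1000, nat_lit 917, nat_lit 415)], (nat_lit 92, nat_lit 100, nat_lit 44)⟩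
noncomputable def p062_k15 : C1.Kn := ⟨[nat_lit 80, nat_lit 100, nat_lit 140], [nat_lit 0, nat_lit 0, nat_lit 1022], [(nat_lit 0, nat_lit 0, nat_lit 0), (nat_lit 0, nat_lit 0, nat_lit 0), (nat_lit 1000, nat_lit 1000, nat_lit 399)], (nat_lit 100, nat_lit 99, nat_lit 44)⟩
noncomputable def p062_k16 : C1.Kn := ⟨[nat_lit 60, nat_lit 100], [nat_lit 0, nat_lit 302], [(nat_lit 0, nat_lit 0, nat_lit 0), (nat_lit 1000, nat_lit 953, nat_lit 118)], (nat_lit 89, nat_lit 100, nat_lit 44)⟩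
noncomputable def p062_k17 : C1.Kn := ⟨[nat_lit 80, nat_lit 140], [nat_lit 0, nat_lit 0], [(nat_lit 0, nat_lit 0, nat_lit 0), (nat_lit 0, nat_lit 0, nat_lit 0)], (nat_lit 100, nat_lit 99, nat_lit 44)⟩
noncomputable def p062_k18 : C1.Kn := ⟨[nat_lit 60, nat_lit 100], [nat_lit 0, nat_lit 909], [(nat_lit 0, nat_lit 0, nat_lit 0), (nat_lit 1000, nat_lit 858, nat_lit 354)], (nat_lit 84, nat_lit 100, nat_lit 44)⟩
noncomputable def p062_k19 : C1.Kn := ⟨[nat_lit 80, nat_lit 120], [nat_lit 0, nat_lit 528], [(nat_lit 0, nat_lit 0, nat_lit 0), (nat_lit 1000, nat_lit 959, nat_lit 206)], (nat_lit 96, nat_lit 100, nat_lit 44)⟩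
noncomputable def p062_k20 : C1.Kn := ⟨[nat_lit 60, nat_lit 80, nat_lit 140], [nat_lit 0, nat_lit 0, nat_lit 1595], [(nat_lit 0, nat_lit 0, nat_lit 0), (nat_lit 0, nat_lit 0, nat_lit 0), (nat_lit 1000, nat_lit 917, nat_lit 415)], (nat_lit 94, nat_lit 100, nat_lit 62)⟩
noncomputable def p062_k21 : C1.Kn := ⟨[nat_lit 80, nat_lit 100, nat_lit 160], [nat_lit 0, nat_lit 0, nat_lit 1533], [(nat_lit 0, nat_lit 0, nat_lit 0), (nat_lit 0, nat_lit 0, nat_lit 0), (nat_lit 1000, nat_lit 1000, nat_lit 399)], (nat_lit 100, nat_lit 92, nat_lit 61)⟩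
noncomputable def p062_k22 : C1.Kn := ⟨[nat_lit 60, nat_lit 80, nat_lit 120], [nat_lit 0, nat_lit 304, nat_lit 1346], [(nat_lit 0, nat_lit 0, nat_lit 0), (nat_lit 1000, nat_lit 905, nat_lit 238), (nat_lit 1000, nat_lit 871, nat_lit 407)], (nat_lit 87, nat_lit 100, nat_lit 60)⟩
noncomputable def p062_k23 : C1.Kn := ⟨[nat_lit 60, nat_lit 80, nat_lit 120], [nat_lit 0, nat_lit 0, nat_lit 1064], [(nat_lit 0, nat_lit 0, nat_lit 0), (nat_lit 0, nat_lit 0, nat_lit 0), (nat_lit 1000, nat_lit 917, nat_lit 415)], (nat_lit 92, nat_lit 100, nat_lit 51)⟩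
noncomputable def p062_k24 : C1.Kn := ⟨[nat_lit 80, nat_lit 100, nat_lit 140], [nat_lit 0, nat_lit 0, nat_lit 1022], [(nat_lit 0, nat_lit 0, nat_lit 0), (nat_lit 0, nat_lit 0, nat_lit 0), (nat_lit 1000, nat_lit 1000, nat_lit 399)], (nat_lit 100, nat_lit 96, nat_lit 52)⟩
noncomputable def p062_k25 : C1.Kn := ⟨[nat_lit 60, nat_lit 80, nat_lit 120], [nat_lit 0, nat_lit 0, nat_lit 1064], [(nat_lit 0, nat_lit 0, nat_lit 0), (nat_lit 0, nat_lit 0, nat_lit 0), (nat_lit 1000, nat_lit 917, nat_lit 415)], (nat_lit 93, nat_lit 100, nat_lit 55)⟩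
noncomputable def p062_k26 : C1.Kn := ⟨[nat_lit 80, nat_lit 100, nat_lit 140], [nat_lit 0, nat_lit 265, nat_lit 1269], [(nat_lit 0, nat_lit 0, nat_lit 0), (nat_lit 1000, nat_lit 959, nat_lit 206), (nat_lit 1000, nat_lit 958, nat_lit 392)], (nat_lit 99, nat_lit 100, nat_lit 56)⟩
noncomputable def p062_k27 : C1.Kn := ⟨[nat_lit 60, nat_lit 80, nat_lit 120], [nat_lit 0, nat_lit 151, nat_lit 1205], [(nat_lit 0, nat_lit 0, nat_lit 0), (nat_lit 1000, nat_lit 953, nat_lit 118), (nat_lit 1000, nat_lit 894, nat_lit 411)], (nat_lit 90, nat_lit 100, nat_lit 51)⟩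
noncomputable def p062_k28 : C1.Kn := ⟨[nat_lit 60, nat_lit 80, nat_lit 120], [nat_lit 0, nat_lit 42, nat_lit 1110], [(nat_lit 0, nat_lit 0, nat_lit 0), (nat_lit 1000, nat_lit 987, nat_lit 33), (nat_lit 1000, nat_lit 910, nat_lit 417)], (nat_lit 92, nat_lit 100, nat_lit 55)⟩
noncomputable def p062_k29 : C1.Kn := ⟨[nat_lit 60, nat_lit 80, nat_lit 120], [nat_lit 0, nat_lit 75, nat_lit 1136], [(nat_lit 0, nat_lit 0, nat_lit 0), (nat_lit 1000, nat_lit 977, nat_lit 59), (nat_lit 1000, nat_lit 905, nat_lit 414)], (nat_lit 91, nat_lit 100, nat_lit 55)⟩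
noncomputable def p062_k30 : C1.Kn := ⟨[nat_lit 60, nat_lit 80, nat_lit 120], [nat_lit 0, nat_lit 119, nat_lit 1178], [(nat_lit 0, nat_lit 0, nat_lit 0), (nat_lit 1000, nat_lit 963, nat_lit 93), (nat_lit 1000, nat_lit 898, nat_lit 413)], (nat_lit 90, nat_lit 100, nat_lit 55)⟩
noncomputable def p062_k31 : C1.Kn := ⟨[nat_lit 60, nat_lit 80, nat_lit 100], [nat_lit 0, nat_lit 151, nat_lit 679], [(nat_lit 0, nat_lit 0, nat_lit 0), (nat_lit 1000, nat_lit 953, nat_lit 118), (nat_lit 1000, nat_lit 894, nat_lit 411)], (nat_lit 89, nat_lit 100, nat_lit 44)⟩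
noncomputable def p062_k32 : C1.Kn := ⟨[nat_lit 80, nat_lit 100, nat_lit 120], [nat_lit 0, nat_lit 265, nat_lit 768], [(nat_lit 0, nat_lit 0, nat_lit 0), (nat_lit 1000, nat_lit 959, nat_lit 206), (nat_lit 1000, nat_lit 958, nat_lit 392)], (nat_lit 96, nat_lit 100, nat_lit 44)⟩
noncomputable def p062_k33 : C1.Kn := ⟨[nat_lit 60, nat_lit 80, nat_lit 100], [nat_lit 0, nat_lit 228, nat_lit 751], [(nat_lit 0, nat_lit 0, nat_lit 0), (nat_lit 1000, nat_lit 929, nat_lit 178), (nat_lit 1000, nat_lit 883, nat_lit 407)], (nat_lit 88, nat_lit 100, nat_lit 44)⟩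
noncomputable def p062_k34 : C1.Kn := ⟨[nat_lit 60, nat_lit 80, nat_lit 120], [nat_lit 0, nat_lit 151, nat_lit 1205], [(nat_lit 0, nat_lit 0, nat_lit 0), (nat_lit 1000, nat_lit 953, nat_lit 118), (nat_lit 1000, nat_lit 894, nat_lit 411)], (nat_lit 91, nat_lit 100, nat_lit 61)⟩
noncomputable def p062_k35 : C1.Kn := ⟨[nat_lit 80, nat_lit 100, nat_lit 140], [nat_lit 0, nat_lit 265, nat_lit 1269], [(nat_lit 0, nat_lit 0, nat_lit 0), (nat_lit 1000, nat_lit 959, nat_lit 206), (nat_lit 1000, nat_lit 958, nat_lit 392)], (nat_lit 100, nat_lit 99, nat_lit 63)⟩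
noncomputable def p062_k36 : C1.Kn := ⟨[nat_lit 60, nat_lit 80, nat_lit 100], [nat_lit 0, nat_lit 304, nat_lit 825], [(nat_lit 0, nat_lit 0, nat_lit 0), (nat_lit 1000, nat_lit 905, nat_lit 238), (nat_lit 1000, nat_lit 871, nat_lit 407)], (nat_lit 87, nat_lit 100, nat_lit 44)⟩
noncomputable def p062_k37 : C1.Kn := ⟨[nat_lit 60, nat_lit 100], [nat_lit 0, nat_lit 755], [(nat_lit 0, nat_lit 0, nat_lit 0), (nat_lit 1000, nat_lit 882, nat_lit 294)], (nat_lit 86, nat_lit 100, nat_lit 44)⟩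
noncomputable def p062_k38 : C1.Kn := ⟨[nat_lit 60, nat_lit 80, nat_lit 100], [nat_lit 0, nat_lit 456, nat_lit 976], [(nat_lit 0, nat_lit 0, nat_lit 0), (nat_lit 1000, nat_lit 859, nat_lit 351), (nat_lit 1000, nat_lit 848, nat_lit 406)], (nat_lit 84, nat_lit 100, nat_lit 44)⟩
noncomputable def p062_k39 : C1.Kn := ⟨[nat_lit 60, nat_lit 80, nat_lit 100], [nat_lit 0, nat_lit 533, nat_lit 1067], [(nat_lit 0, nat_lit 0, nat_lit 0), (nat_lit 1000, nat_lit 837, nat_lit 397), (nat_lit 1000, nat_lit 833, nat_lit 417)], (nat_lit 83, nat_lit 100, nat_lit 44)⟩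
noncomputable def p062_k40 : C1.Kn := ⟨[nat_lit 60, nat_lit 80, nat_lit 100], [nat_lit 0, nat_lit 502, nat_lit 1025], [(nat_lit 0, nat_lit 0, nat_lit 0), (nat_lit 1000, nat_lit 845, nat_lit 382), (nat_lit 1000, nat_lit 840, nat_lit 409)], (nat_lit 83, nat_lit 100, nat_lit 44)⟩
noncomputable def p062_k41 : C1.Kn := ⟨[nat_lit 60, nat_lit 100, nat_lit 120], [nat_lit 0, nat_lit 609, nat_lit 1609], [(nat_lit 0, nat_lit 0, nat_lit 0), (nat_lit 1000, nat_lit 905, nat_lit 238), (nat_lit 1000, nat_lit 882, nat_lit 668)], (nat_lit 87, nat_lit 100, nat_lit 54)⟩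
noncomputable def p062_k42 : C1.Kn := ⟨[nat_lit 80, nat_lit 120, nat_lit 140], [nat_lit 0, nat_lit 0, nat_lit 1164], [(nat_lit 0, nat_lit 0, nat_lit 0), (nat_lit 0, nat_lit 0, nat_lit 0), (nat_lit 941, nat_lit 1000, nat_lit 576)], (nat_lit 100, nat_lit 95, nat_lit 55)⟩
noncomputable def p062_k43 : C1.Kn := ⟨[nat_lit 80, nat_lit 100, nat_lit 140], [nat_lit 0, nat_lit 132, nat_lit 1148], [(nat_lit 0, nat_lit 0, nat_lit 0), (nat_lit 1000, nat_lit 979, nat_lit 103), (nat_lit 1000, nat_lit 979, nat_lit 397)], (nat_lit 100, nat_lit 95, nat_lit 62)⟩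
noncomputable def p062_k44 : C1.Kn := ⟨[nat_lit 60, nat_lit 80, nat_lit 120], [nat_lit 0, nat_lit 456, nat_lit 1495], [(nat_lit 0, nat_lit 0, nat_lit 0), (nat_lit 1000, nat_lit 859, nat_lit 351), (nat_lit 1000, nat_lit 848, nat_lit 406)], (nat_lit 84, nat_lit 100, nat_lit 60)⟩
noncomputable def p062_l0 : Lf2 := ⟨nat_lit 0, nat_lit 10, [nat_lit 0, nat_lit 5, nat_lit 5, nat_lit 20], true, nat_lit 0, nat_lit 80, nat_lit 0, nat_lit 364, ⟨nat_lit 0, nat_lit 0, nat_lit 1000, nat_lit 6, nat_lit 120, nat_lit 0, nat_lit 34, nat_lit 834, nat_lit 11267, nat_lit 241, nat_lit 135000, nat_lit 305, nat_lit 61426304, nat_lit 0, nat_lit 0, nat_lit 1432451, false, false⟩,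
 nat_lit 0, nat_lit 5488, nat_lit 0, nat_lit 1042, nat_lit 3492, nat_lit 0, nat_lit 0, nat_lit 0, nat_lit 0, nat_lit 0, nat_lit 0, nat_lit 0, nat_lit 0, nat_lit 0, nat_lit 183, nat_lit 869800, nat_lit 0, nat_lit 0, [(nat_lit 12, [(nat_lit 5, nat_lit 217), (nat_lit 6, nat_lit 783)])],
 ⟨p062_k0, nat_lit 0, nat_lit 0, nat_lit 372, nat_lit 0, nat_lit 288866, [nat_lit 3358813201, nat_lit 2661066534, nat_lit 368051600], [], [nat_lit 13855754749, nat_lit 14898800684, nat_lit 13132704376, nat_lit 13804232004, nat_lit 12425375599, nat_lit 13063112184, nat_lit 12385141960, nat_lit 12996645616], nat_lit 1271250, nat_lit 1271250, nat_lit 205650, nat_lit 490000, nat_lit 0, nat_lit 490000, [nat_lit 780000, nat_lit 1435000, nat_lit 1271250], [nat_lit 8, nat_lit 40, nat_lit 40, nat_lit 80, nat_lit 1, nat_lit 249, nat_lit 40, nat_lit 7]⟩, C1.Rw.none,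
 ⟨nat_lit 5244, nat_lit 5478, ⟨.ofNat (nat_lit 235487), .ofNat (nat_lit 317913), .ofNat (nat_lit 278201), .ofNat (nat_lit 360628), .ofNat (nat_lit 242768), .ofNat (nat_lit 323256), .ofNat (nat_lit 285539), .ofNat (nat_lit 366027)⟩, ⟨.negSucc (nat_lit 2827), .ofNat (nat_lit 147057), .ofNat (nat_lit 0), .ofNat (nat_lit 189771), .ofNat (nat_lit 0), .ofNat (nat_lit 152172), .ofNat (nat_lit 0), .ofNat (nat_lit 194943)⟩⟩, [⟨nat_lit 0, nat_lit 100, nat_lit 97, nat_lit 84, nat_lit 235262944⟩]⟩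
noncomputable def p062_l1 : Lf2 := ⟨nat_lit 0, nat_lit 10, [nat_lit 0, nat_lit 5, nat_lit 5, nat_lit 20], true, nat_lit 0, nat_lit 80, nat_lit 0, nat_lit 364, ⟨nat_lit 0, nat_lit 0, nat_lit 1000, nat_lit 6, nat_lit 124, nat_lit 0, nat_lit 35, nat_lit 650, nat_lit 11267, nat_lit 241, nat_lit 144150, nat_lit 308, nat_lit 61085316, nat_lit 0, nat_lit 0, nat_lit 1492684, false, false⟩,
 nat_lit 0, nat_lit 5203, nat_lit 0, nat_lit 0, nat_lit 3455, nat_lit 0, nat_lit 0, nat_lit 0, nat_lit 0, nat_lit 0, nat_lit 0, nat_lit 0, nat_lit 0, nat_lit 0, nat_lit 120, nat_lit 721000, nat_lit 0, nat_lit 0, [(nat_lit 12, [(nat_lit 5, nat_lit 465), (nat_lit 6, nat_lit 535)])],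
 ⟨p062_k1, nat_lit 0, nat_lit 0, nat_lit 328, nat_lit 0, nat_lit 328729, [nat_lit 2627514001, nat_lit 1548114001, nat_lit 2380000], [], [nat_lit 14586828815, nat_lit 15623199710, nat_lit 14094962578, nat_lit 14718801120, nat_lit 13298593913, nat_lit 13896305413, nat_lit 13285278703, nat_lit 13893797643], nat_lit 1271250, nat_lit 1271250, nat_lit 230001, nat_lit 490000, nat_lit 0, nat_lit 490000, [nat_lit 780000, nat_lit 1435000, nat_lit 1271250], [nat_lit 18, nat_lit 40, nat_lit 40, nat_lit 80, nat_lit 2, nat_lit 249, nat_lit 40, nat_lit 8]⟩, C1.Rw.none,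
 ⟨nat_lit 5000, nat_lit 5245, ⟨.ofNat (nat_lit 250085), .ofNat (nat_lit 323256), .ofNat (nat_lit 292856), .ofNat (nat_lit 366025), .ofNat (nat_lit 257141), .ofNat (nat_lit 328570), .ofNat (nat_lit 299999), .ofNat (nat_lit 371426)⟩, ⟨.ofNat (nat_lit 0), .ofNat (nat_lit 152172), .ofNat (nat_lit 0), .ofNat (nat_lit 194943), .ofNat (nat_lit 0), .ofNat (nat_lit 157141), .ofNat (nat_lit 0), .ofNat (nat_lit 199998)⟩⟩, [⟨nat_lit 0, nat_lit 100, nat_lit 94, nat_lit 88, nat_lit 226646484⟩]⟩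
noncomputable def p062_l2 : Lf2 := ⟨nat_lit 0, nat_lit 10, [nat_lit 0, nat_lit 5, nat_lit 5, nat_lit 20], true, nat_lit 0, nat_lit 80, nat_lit 0, nat_lit 364, ⟨nat_lit 0, nat_lit 0, nat_lit 1000, nat_lit 6, nat_lit 131, nat_lit 0, nat_lit 36, nat_lit 755, nat_lit 12150, nat_lit 242, nat_lit 160067, nat_lit 313, nat_lit 60510719, nat_lit 0, nat_lit 0, nat_lit 1590582, false, false⟩,
 nat_lit 0, nat_lit 5127, nat_lit 0, nat_lit 0, nat_lit 3549, nat_lit 0, nat_lit 0, nat_lit 0, nat_lit 0, nat_lit 0, nat_lit 0, nat_lit 0, nat_lit 0, nat_lit 0, nat_lit 173, nat_lit 776800, nat_lit 0, nat_lit 0, [(nat_lit 15, [(nat_lit 5, nat_lit 372), (nat_lit 6, nat_lit 628)])],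
 ⟨p062_k2, nat_lit 0, nat_lit 0, nat_lit 390, nat_lit 0, nat_lit 422750, [nat_lit 3180694401, nat_lit 1660155201, nat_lit 28654399], [], [nat_lit 15603938178, nat_lit 17695738236, nat_lit 14846240574, nat_lit 16889946776, nat_lit 14198974701, nat_lit 15484593553, nat_lit 14270004944, nat_lit 15513959072], nat_lit 1271250, nat_lit 1271250, nat_lit 279600, nat_lit 490000, nat_lit 0, nat_lit 490000, [nat_lit 780000, nat_lit 1435000, nat_lit 1271250], [nat_lit 18, nat_lit 40, nat_lit 40, nat_lit 80, nat_lit 2, nat_lit 249, nat_lit 40, nat_lit 8]⟩, C1.Rw.none,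
 ⟨nat_lit 4472, nat_lit 5000, ⟨.ofNat (nat_lit 271418), .ofNat (nat_lit 328559), .ofNat (nat_lit 314253), .ofNat (nat_lit 371392), .ofNat (nat_lit 284805), .ofNat (nat_lit 339186), .ofNat (nat_lit 327916), .ofNat (nat_lit 382295)⟩, ⟨.ofNat (nat_lit 0), .ofNat (nat_lit 157141), .ofNat (nat_lit 0), .ofNat (nat_lit 199998), .ofNat (nat_lit 0), .ofNat (nat_lit 166665), .ofNat (nat_lit 0), .ofNat (nat_lit 200000)⟩⟩, [⟨nat_lit 0, nat_lit 100, nat_lit 88, nat_lit 81, nat_lit 578137771⟩]⟩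
noncomputable def p062_l3 : Lf2 := ⟨nat_lit 0, nat_lit 10, [nat_lit 0, nat_lit 5, nat_lit 5, nat_lit 20], true, nat_lit 80, nat_lit 160, nat_lit 0, nat_lit 364, ⟨nat_lit 0, nat_lit 0, nat_lit 1000, nat_lit 6, nat_lit 122, nat_lit 1000, nat_lit 99, nat_lit 1000, nat_lit 91267, nat_lit 289, nat_lit 138017, nat_lit 306, nat_lit 56452192, nat_lit 0, nat_lit 0, nat_lit 2880014, false, false⟩,
 nat_lit 0, nat_lit 6733, nat_lit 0, nat_lit 0, nat_lit 4284, nat_lit 0, nat_lit 0, nat_lit 0, nat_lit 0, nat_lit 0, nat_lit 0, nat_lit 0, nat_lit 0, nat_lit 0, nat_lit 208, nat_lit 1000000, nat_lit 0, nat_lit 0, [(nat_lit 12, [(nat_lit 6, nat_lit 1000)])],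
 ⟨p062_k0, nat_lit 0, nat_lit 0, nat_lit 332, nat_lit 0, nat_lit 346917, [nat_lit 3637200001, nat_lit 3032400001, nat_lit 431200000], [], [nat_lit 11335312692, nat_lit 13586530152, nat_lit 10402376080, nat_lit 12473061000, nat_lit 12462299360, nat_lit 14482232463, nat_lit 12769942643, nat_lit 13544368024], nat_lit 1271250, nat_lit 1271250, nat_lit 205650, nat_lit 490000, nat_lit 490000, nat_lit 1100001, [nat_lit 780000, nat_lit 1435000, nat_lit 1271250], [nat_lit 8, nat_lit 40, nat_lit 40, nat_lit 80, nat_lit 1, nat_lit 272, nat_lit 60, nat_lit 8]⟩, C1.Rw.none,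
 ⟨nat_lit 5000, nat_lit 5478, ⟨.ofNat (nat_lit 235487), .ofNat (nat_lit 317913), .ofNat (nat_lit 278201), .ofNat (nat_lit 360625), .ofNat (nat_lit 249999), .ofNat (nat_lit 328570), .ofNat (nat_lit 292856), .ofNat (nat_lit 371424)⟩, ⟨.ofNat (nat_lit 147057), .ofNat (nat_lit 296923), .ofNat (nat_lit 189771), .ofNat (nat_lit 339637), .ofNat (nat_lit 157141), .ofNat (nat_lit 299999), .ofNat (nat_lit 199998), .ofNat (nat_lit 342856)⟩⟩, [⟨nat_lit 0, nat_lit 100, nat_lit 94, nat_lit 88, nat_lit 219032317⟩]⟩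
noncomputable def p062_l4 : Lf2 := ⟨nat_lit 0, nat_lit 10, [nat_lit 0, nat_lit 5, nat_lit 5, nat_lit 20], true, nat_lit 80, nat_lit 160, nat_lit 0, nat_lit 364, ⟨nat_lit 0, nat_lit 0, nat_lit 1000, nat_lit 6, nat_lit 131, nat_lit 1000, nat_lit 101, nat_lit 1000, nat_lit 96267, nat_lit 291, nat_lit 160067, nat_lit 313, nat_lit 55526034, nat_lit 0, nat_lit 0, nat_lit 3045119, false, false⟩,
 nat_lit 0, nat_lit 5541, nat_lit 0, nat_lit 0, nat_lit 3836, nat_lit 0, nat_lit 0, nat_lit 0, nat_lit 0, nat_lit 0, nat_lit 0, nat_lit 0, nat_lit 0, nat_lit 0, nat_lit 219, nat_lit 1000000, nat_lit 0, nat_lit 0, [(nat_lit 15, [(nat_lit 6, nat_lit 1000)])],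
 ⟨p062_k2, nat_lit 0, nat_lit 0, nat_lit 301, nat_lit 0, nat_lit 422750, [nat_lit 3608000000, nat_lit 2084800001, nat_lit 1200000], [], [nat_lit 12915336412, nat_lit 15010412141, nat_lit 12363189000, nat_lit 14403715616, nat_lit 13983895391, nat_lit 15866101018, nat_lit 13541888040, nat_lit 15370982784], nat_lit 1271250, nat_lit 1271250, nat_lit 279600, nat_lit 490000, nat_lit 490000, nat_lit 1100001, [nat_lit 780000, nat_lit 1435000, nat_lit 1271250], [nat_lit 18, nat_lit 40, nat_lit 40, nat_lit 80, nat_lit 2, nat_lit 272, nat_lit 60, nat_lit 9]⟩, C1.Rw.none,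
 ⟨nat_lit 4472, nat_lit 5000, ⟨.ofNat (nat_lit 271418), .ofNat (nat_lit 328559), .ofNat (nat_lit 314253), .ofNat (nat_lit 371392), .ofNat (nat_lit 284805), .ofNat (nat_lit 339186), .ofNat (nat_lit 327916), .ofNat (nat_lit 382295)⟩, ⟨.ofNat (nat_lit 157141), .ofNat (nat_lit 299999), .ofNat (nat_lit 199998), .ofNat (nat_lit 342856), .ofNat (nat_lit 166665), .ofNat (nat_lit 302621), .ofNat (nat_lit 200000), .ofNat (nat_lit 345754)⟩⟩, [⟨nat_lit 0, nat_lit 100, nat_lit 88, nat_lit 81, nat_lit 643991275⟩]⟩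
noncomputable def p062_l5 : Lf2 := ⟨nat_lit 0, nat_lit 7, [nat_lit 80, nat_lit 5, nat_lit 5, nat_lit 20], true, nat_lit 0, nat_lit 160, nat_lit 0, nat_lit 364, ⟨nat_lit 0, nat_lit 0, nat_lit 1000, nat_lit 6, nat_lit 162, nat_lit 1000, nat_lit 64, nat_lit 1000, nat_lit 38400, nat_lit 263, nat_lit 49489, nat_lit 269, nat_lit 57546022, nat_lit 0, nat_lit 0, nat_lit 2034812, false, false⟩,
 nat_lit 0, nat_lit 6300, nat_lit 0, nat_lit 0, nat_lit 4008, nat_lit 0, nat_lit 0, nat_lit 0, nat_lit 0, nat_lit 0, nat_lit 0, nat_lit 0, nat_lit 0, nat_lit 0, nat_lit 162, nat_lit 1000000, nat_lit 0, nat_lit 0, [(nat_lit 12, [(nat_lit 6, nat_lit 1000)])],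
 ⟨p062_k3, nat_lit 0, nat_lit 0, nat_lit 289, nat_lit 0, nat_lit 312242, [nat_lit 3085200001, nat_lit 2112400000, nat_lit 400000], [], [nat_lit 13266912832, nat_lit 14362057472, nat_lit 14266968896, nat_lit 15252406528, nat_lit 13429731681, nat_lit 12914467019, nat_lit 18145429985, nat_lit 17226050897], nat_lit 1271250, nat_lit 1271250, nat_lit 490000, nat_lit 1100001, nat_lit 0, nat_lit 1100001, [nat_lit 780000, nat_lit 1435000, nat_lit 1271250], [nat_lit 18, nat_lit 40, nat_lit 40, nat_lit 80, nat_lit 2, nat_lit 317, nat_lit 100, nat_lit 11]⟩, C1.Rw.none,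
 ⟨nat_lit 5244, nat_lit 5478, ⟨.ofNat (nat_lit 317913), .ofNat (nat_lit 467779), .ofNat (nat_lit 339271), .ofNat (nat_lit 489134), .ofNat (nat_lit 323256), .ofNat (nat_lit 469597), .ofNat (nat_lit 344641), .ofNat (nat_lit 490981)⟩, ⟨.negSucc (nat_lit 2827), .ofNat (nat_lit 296923), .ofNat (nat_lit 0), .ofNat (nat_lit 339637), .ofNat (nat_lit 0), .ofNat (nat_lit 298515), .ofNat (nat_lit 0), .ofNat (nat_lit 341286)⟩⟩, []⟩
noncomputable def p062_l6 : Lf2 := ⟨nat_lit 0, nat_lit 7, [nat_lit 80, nat_lit 5, nat_lit 5, nat_lit 20], true, nat_lit 0, nat_lit 160, nat_lit 0, nat_lit 364, ⟨nat_lit 0, nat_lit 0, nat_lit 1000, nat_lit 6, nat_lit 164, nat_lit 941, nat_lit 64, nat_lit 1000, nat_lit 38400, nat_lit 263, nat_lit 45067, nat_lit 267, nat_lit 57401771, nat_lit 0, nat_lit 0, nat_lit 2054160, false, false⟩,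
 nat_lit 0, nat_lit 5110, nat_lit 0, nat_lit 0, nat_lit 3393, nat_lit 0, nat_lit 301, nat_lit 0, nat_lit 0, nat_lit 0, nat_lit 0, nat_lit 0, nat_lit 0, nat_lit 0, nat_lit 162, nat_lit 1000000, nat_lit 0, nat_lit 0, [(nat_lit 12, [(nat_lit 6, nat_lit 1000)])],
 ⟨p062_k4, nat_lit 0, nat_lit 0, nat_lit 326, nat_lit 0, nat_lit 390773, [nat_lit 3085200001, nat_lit 2112400000, nat_lit 400000], [], [nat_lit 13671299072, nat_lit 14636014752, nat_lit 15208915963, nat_lit 15865524259, nat_lit 14556438914, nat_lit 15171356273, nat_lit 17919978267, nat_lit 17141671569], nat_lit 1271250, nat_lit 1271250, nat_lit 490000, nat_lit 1100001, nat_lit 0, nat_lit 1100001, [nat_lit 780000, nat_lit 1435000, nat_lit 1271250], [nat_lit 18, nat_lit 40, nat_lit 40, nat_lit 80, nat_lit 2, nat_lit 317, nat_lit 100, nat_lit 11]⟩, C1.Rw.none,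
 ⟨nat_lit 5000, nat_lit 5245, ⟨.ofNat (nat_lit 323256), .ofNat (nat_lit 469596), .ofNat (nat_lit 344641), .ofNat (nat_lit 490980), .ofNat (nat_lit 328570), .ofNat (nat_lit 471425), .ofNat (nat_lit 349999), .ofNat (nat_lit 492852)⟩, ⟨.ofNat (nat_lit 0), .ofNat (nat_lit 298515), .ofNat (nat_lit 0), .ofNat (nat_lit 341286), .ofNat (nat_lit 0), .ofNat (nat_lit 299999), .ofNat (nat_lit 0), .ofNat (nat_lit 342856)⟩⟩, []⟩
noncomputable def p062_l7 : Lf2 := ⟨nat_lit 1, nat_lit 10, [nat_lit 0, nat_lit 5, nat_lit 5, nat_lit 20], false, nat_lit 0, nat_lit 160, nat_lit 0, nat_lit 364, zbN0,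
 nat_lit 0, nat_lit 0, nat_lit 0, nat_lit 0, nat_lit 0, nat_lit 0, nat_lit 0, nat_lit 0, nat_lit 0, nat_lit 0, nat_lit 0, nat_lit 0, nat_lit 0, nat_lit 0, nat_lit 0, nat_lit 0, nat_lit 0, nat_lit 0, [],
 C1.Rw.none, C1.Rw.none,
 zbF0, []⟩
noncomputable def p062_l8 : Lf2 := ⟨nat_lit 0, nat_lit 10, [nat_lit 0, nat_lit 5, nat_lit 5, nat_lit 20], false, nat_lit 0, nat_lit 160, nat_lit 0, nat_lit 160, ⟨nat_lit 1000, nat_lit 0, nat_lit 0, nat_lit 0, nat_lit 0, nat_lit 0, nat_lit 0, nat_lit 0, nat_lit 0, nat_lit 0, nat_lit 0, nat_lit 0, nat_lit 0, nat_lit 0, nat_lit 0, nat_lit 0, false, false⟩,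
 nat_lit 0, nat_lit 13889, nat_lit 0, nat_lit 0, nat_lit 8838, nat_lit 8120, nat_lit 1149, nat_lit 0, nat_lit 0, nat_lit 3248, nat_lit 0, nat_lit 0, nat_lit 0, nat_lit 0, nat_lit 0, nat_lit 0, nat_lit 0, nat_lit 0, [],
 ⟨p062_k0, nat_lit 0, nat_lit 0, nat_lit 500, nat_lit 0, nat_lit 595349, [nat_lit 3282000000, nat_lit 6250000000, nat_lit 9842000000], [], [nat_lit 27730465104, nat_lit 25822636168, nat_lit 23946452592, nat_lit 25398428488, nat_lit 19785574120, nat_lit 21135177020, nat_lit 26237537824, nat_lit 22182910888], nat_lit 1271250, nat_lit 1271250, nat_lit 490000, nat_lit 1100001, nat_lit 0, nat_lit 1100001, [nat_lit 780000, nat_lit 1435000, nat_lit 1271250], [nat_lit 8, nat_lit 40, nat_lit 40, nat_lit 80, nat_lit 1, nat_lit 317, nat_lit 100, nat_lit 9]⟩, ⟨p062_k5, nat_lit 0, nat_lit 0, nat_lit 182, nat_lit 0, nat_lit 0, [nat_lit 4688000000, nat_lit 7968000000, nat_lit 9842000000], [], [nat_lit 16220194800,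 nat_lit 18364082880, nat_lit 16443700800, nat_lit 18336992320, nat_lit 12205053680, nat_lit 13676170080, nat_lit 12445713840, nat_lit 13733288480], nat_lit 0, nat_lit 0, nat_lit 0, nat_lit 0, nat_lit 0, nat_lit 0, [], [nat_lit 29, nat_lit 40, nat_lit 40, nat_lit 80, nat_lit 17, nat_lit 373, nat_lit 150, nat_lit 11]⟩,
 zbF0, []⟩
noncomputable def p062_l9 : Lf2 := ⟨nat_lit 0, nat_lit 8, [nat_lit 50, nat_lit 5, nat_lit 5, nat_lit 20], false, nat_lit 0, nat_lit 160, nat_lit 160, nat_lit 352, ⟨nat_lit 1000, nat_lit 0, nat_lit 0, nat_lit 0, nat_lit 0, nat_lit 0, nat_lit 0, nat_lit 0, nat_lit 0, nat_lit 0, nat_lit 0, nat_lit 0, nat_lit 0, nat_lit 0, nat_lit 0, nat_lit 0, false, false⟩,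
 nat_lit 0, nat_lit 10198, nat_lit 0, nat_lit 0, nat_lit 6489, nat_lit 6129, nat_lit 667, nat_lit 0, nat_lit 0, nat_lit 0, nat_lit 0, nat_lit 0, nat_lit 0, nat_lit 0, nat_lit 0, nat_lit 0, nat_lit 0, nat_lit 0, [],
 ⟨p062_k6, nat_lit 0, nat_lit 0, nat_lit 364, nat_lit 0, nat_lit 442236, [nat_lit 3282000000, nat_lit 6250000000, nat_lit 7968000000], [], [nat_lit 29081591112, nat_lit 28249282772, nat_lit 25887892740, nat_lit 26171870841, nat_lit 24394801940, nat_lit 23713142845, nat_lit 30519182272, nat_lit 29774939395], nat_lit 1271250, nat_lit 1271250, nat_lit 490000, nat_lit 1100001, nat_lit 0, nat_lit 1100001, [nat_lit 780000, nat_lit 1435000, nat_lit 1271250], [nat_lit 18, nat_lit 40, nat_lit 40, nat_lit 80, nat_lit 2, nat_lit 317, nat_lit 100, nat_lit 11]⟩, ⟨p062_k7, nat_lit 0, nat_lit 0, nat_lit 100, nat_lit 0, nat_lit 0, [nat_lit 4688000000, nat_lit 7968000000, nat_lit 9842000000], [], [nat_lit 11458210222,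 nat_lit 13278395744, nat_lit 12674840888, nat_lit 14283080584, nat_lit 24687086112, nat_lit 25721898228, nat_lit 24414774715, nat_lit 25337547865], nat_lit 0, nat_lit 0, nat_lit 0, nat_lit 0, nat_lit 0, nat_lit 0, [], [nat_lit 29, nat_lit 40, nat_lit 40, nat_lit 80, nat_lit 17, nat_lit 428, nat_lit 200, nat_lit 12]⟩,
 zbF0, [⟨nat_lit 7, nat_lit 82, nat_lit 100, nat_lit 92, nat_lit 604749617⟩]⟩
noncomputable def p062_l10 : Lf2 := ⟨nat_lit 0, nat_lit 8, [nat_lit 50, nat_lit 5, nat_lit 5, nat_lit 20], false, nat_lit 0, nat_lit 160, nat_lit 160, nat_lit 352, ⟨nat_lit 1000, nat_lit 0, nat_lit 0, nat_lit 0, nat_lit 0, nat_lit 0, nat_lit 0, nat_lit 0, nat_lit 0, nat_lit 0, nat_lit 0, nat_lit 0, nat_lit 0, nat_lit 0, nat_lit 0, nat_lit 0, false, false⟩,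
 nat_lit 0, nat_lit 11667, nat_lit 0, nat_lit 0, nat_lit 7585, nat_lit 6129, nat_lit 2180, nat_lit 0, nat_lit 0, nat_lit 0, nat_lit 0, nat_lit 0, nat_lit 0, nat_lit 0, nat_lit 0, nat_lit 0, nat_lit 0, nat_lit 0, [],
 ⟨p062_k8, nat_lit 0, nat_lit 0, nat_lit 379, nat_lit 0, nat_lit 475086, [nat_lit 3282000000, nat_lit 6250000000, nat_lit 7968000000], [], [nat_lit 26449606948, nat_lit 25476720715, nat_lit 23907426595, nat_lit 24239192050, nat_lit 20492213338, nat_lit 20801249275, nat_lit 25594124675, nat_lit 24724178270], nat_lit 1271250, nat_lit 1271250, nat_lit 490000, nat_lit 1100001, nat_lit 0, nat_lit 1100001, [nat_lit 780000, nat_lit 1435000, nat_lit 1271250], [nat_lit 18, nat_lit 40, nat_lit 40, nat_lit 80, nat_lit 2, nat_lit 317, nat_lit 100, nat_lit 11]⟩, ⟨p062_k7, nat_lit 0, nat_lit 0, nat_lit 100, nat_lit 0, nat_lit 0, [nat_lit 4688000000, nat_lit 7968000000, nat_lit 9842000000], [], [nat_lit 11458210222,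 nat_lit 13278395744, nat_lit 12674840888, nat_lit 14283080584, nat_lit 24687086112, nat_lit 25721898228, nat_lit 24414774715, nat_lit 25337547865], nat_lit 0, nat_lit 0, nat_lit 0, nat_lit 0, nat_lit 0, nat_lit 0, [], [nat_lit 29, nat_lit 40, nat_lit 40, nat_lit 80, nat_lit 17, nat_lit 428, nat_lit 200, nat_lit 12]⟩,
 zbF0, [⟨nat_lit 7, nat_lit 82, nat_lit 100, nat_lit 92, nat_lit 604749617⟩]⟩
noncomputable def p062_l11 : Lf2 := ⟨nat_lit 1, nat_lit 10, [nat_lit 0, nat_lit 5, nat_lit 5, nat_lit 20], false, nat_lit 0, nat_lit 160, nat_lit 160, nat_lit 352, zbN0,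
 nat_lit 0, nat_lit 0, nat_lit 0, nat_lit 0, nat_lit 0, nat_lit 0, nat_lit 0, nat_lit 0, nat_lit 0, nat_lit 0, nat_lit 0, nat_lit 0, nat_lit 0, nat_lit 0, nat_lit 0, nat_lit 0, nat_lit 0, nat_lit 0, [],
 C1.Rw.none, C1.Rw.none,
 zbF0, []⟩
noncomputable def p062_l12 : Lf2 := ⟨nat_lit 0, nat_lit 10, [nat_lit 0, nat_lit 5, nat_lit 5, nat_lit 20], false, nat_lit 0, nat_lit 160, nat_lit 160, nat_lit 352, ⟨nat_lit 1000, nat_lit 0, nat_lit 0, nat_lit 0, nat_lit 0, nat_lit 0, nat_lit 0, nat_lit 0, nat_lit 0, nat_lit 0, nat_lit 0, nat_lit 0, nat_lit 0, nat_lit 0, nat_lit 0, nat_lit 0, false, false⟩,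
 nat_lit 0, nat_lit 11835, nat_lit 0, nat_lit 0, nat_lit 7859, nat_lit 6129, nat_lit 2222, nat_lit 0, nat_lit 0, nat_lit 0, nat_lit 0, nat_lit 0, nat_lit 0, nat_lit 0, nat_lit 0, nat_lit 0, nat_lit 0, nat_lit 0, [],
 ⟨p062_k1, nat_lit 0, nat_lit 0, nat_lit 417, nat_lit 0, nat_lit 560323, [nat_lit 3282000000, nat_lit 6250000000, nat_lit 7968000000], [], [nat_lit 24180504161, nat_lit 22164442750, nat_lit 20454112470, nat_lit 21131301184, nat_lit 16846888385, nat_lit 17477365610, nat_lit 22025242458, nat_lit 20222497884], nat_lit 1271250, nat_lit 1271250, nat_lit 490000, nat_lit 1100001, nat_lit 0, nat_lit 1100001, [nat_lit 780000, nat_lit 1435000, nat_lit 1271250], [nat_lit 18, nat_lit 40, nat_lit 40, nat_lit 80, nat_lit 2, nat_lit 317, nat_lit 100, nat_lit 11]⟩, ⟨p062_k5, nat_lit 0, nat_lit 0, nat_lit 100, nat_lit 0, nat_lit 0, [nat_lit 4688000000, nat_lit 7968000000, nat_lit 9842000000], [], [nat_lit 11458210222,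 nat_lit 13278395744, nat_lit 12674840888, nat_lit 14283080584, nat_lit 24687086112, nat_lit 25721898228, nat_lit 24414774715, nat_lit 25337547865], nat_lit 0, nat_lit 0, nat_lit 0, nat_lit 0, nat_lit 0, nat_lit 0, [], [nat_lit 29, nat_lit 40, nat_lit 40, nat_lit 80, nat_lit 17, nat_lit 428, nat_lit 200, nat_lit 12]⟩,
 zbF0, [⟨nat_lit 19, nat_lit 100, nat_lit 82, nat_lit 92, nat_lit 604749617⟩]⟩
noncomputable def p062_l13 : Lf2 := ⟨nat_lit 0, nat_lit 5, [nat_lit 4, nat_lit 5, nat_lit 5, nat_lit 20], false, nat_lit 0, nat_lit 160, nat_lit 0, nat_lit 364, ⟨nat_lit 220, nat_lit 0, nat_lit 780, nat_lit 6, nat_lit 164, nat_lit 780, nat_lit 65, nat_lit 780, nat_lit 38400, nat_lit 263, nat_lit 60147, nat_lit 274, nat_lit 57400635, nat_lit 0, nat_lit 0, nat_lit 2054311, false, false⟩,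
 nat_lit 0, nat_lit 5420, nat_lit 0, nat_lit 0, nat_lit 3752, nat_lit 2284, nat_lit 54, nat_lit 0, nat_lit 0, nat_lit 314, nat_lit 0, nat_lit 0, nat_lit 0, nat_lit 0, nat_lit 31, nat_lit 780000, nat_lit 0, nat_lit 0, [(nat_lit 15, [(nat_lit 6, nat_lit 780)])],
 ⟨p062_k9, nat_lit 0, nat_lit 0, nat_lit 320, nat_lit 0, nat_lit 493828, [nat_lit 1858440000, nat_lit 170424000], [], [nat_lit 18337433250, nat_lit 17224982848, nat_lit 17210888016, nat_lit 18437434496, nat_lit 16496517856, nat_lit 17641994912, nat_lit 20867469042, nat_lit 19168533426], nat_lit 1271250, nat_lit 1271250, nat_lit 490000, nat_lit 1100001, nat_lit 0, nat_lit 1100001, [nat_lit 780000, nat_lit 1435000], [nat_lit 49, nat_lit 40, nat_lit 40, nat_lit 80, nat_lit 16, nat_lit 317, nat_lit 100, nat_lit 12]⟩, ⟨p062_k10, nat_lit 0, nat_lit 0, nat_lit 158, nat_lit 0, nat_lit 0, [nat_lit 1031360000, nat_lit 1752960000, nat_lit 2165240000], [], [nat_lit 4519343976,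 nat_lit 4762083312, nat_lit 4391925864, nat_lit 4605463308, nat_lit 6419149581, nat_lit 6536412742, nat_lit 5978094352, nat_lit 6075438573], nat_lit 0, nat_lit 0, nat_lit 0, nat_lit 0, nat_lit 0, nat_lit 0, [], [nat_lit 29, nat_lit 40, nat_lit 40, nat_lit 80, nat_lit 17, nat_lit 428, nat_lit 200, nat_lit 13]⟩,
 ⟨nat_lit 4472, nat_lit 5000, ⟨.ofNat (nat_lit 328559), .ofNat (nat_lit 471408), .ofNat (nat_lit 339268), .ofNat (nat_lit 482115), .ofNat (nat_lit 339186), .ofNat (nat_lit 475134), .ofNat (nat_lit 349964), .ofNat (nat_lit 485911)⟩, ⟨.ofNat (nat_lit 0), .ofNat (nat_lit 299999), .ofNat (nat_lit 0), .ofNat (nat_lit 342856), .ofNat (nat_lit 0), .ofNat (nat_lit 302621), .ofNat (nat_lit 0), .ofNat (nat_lit 345754)⟩⟩, [⟨nat_lit 7, nat_lit 70, nat_lit 100, nat_lit 89, nat_lit 75933822⟩]⟩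
noncomputable def p062_l14 : Lf2 := ⟨nat_lit 0, nat_lit 5, [nat_lit 4, nat_lit 5, nat_lit 5, nat_lit 20], false, nat_lit 0, nat_lit 160, nat_lit 0, nat_lit 360, ⟨nat_lit 1000, nat_lit 0, nat_lit 0, nat_lit 0, nat_lit 0, nat_lit 0, nat_lit 0, nat_lit 0, nat_lit 0, nat_lit 0, nat_lit 0, nat_lit 0, nat_lit 0, nat_lit 0, nat_lit 0, nat_lit 0, false, false⟩,
 nat_lit 0, nat_lit 9141, nat_lit 0, nat_lit 0, nat_lit 6328, nat_lit 6153, nat_lit 2411, nat_lit 0, nat_lit 0, nat_lit 0, nat_lit 0, nat_lit 0, nat_lit 0, nat_lit 0, nat_lit 0, nat_lit 0, nat_lit 0, nat_lit 0, [],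
 ⟨p062_k9, nat_lit 0, nat_lit 0, nat_lit 339, nat_lit 0, nat_lit 554959, [nat_lit 3282000000, nat_lit 6250000000], [], [nat_lit 21339131625, nat_lit 21476475072, nat_lit 18582250560, nat_lit 21192072384, nat_lit 15481666921, nat_lit 16790865568, nat_lit 21530623513, nat_lit 18665254489], nat_lit 1271250, nat_lit 1271250, nat_lit 490000, nat_lit 1100001, nat_lit 0, nat_lit 1100001, [nat_lit 780000, nat_lit 1435000], [nat_lit 49, nat_lit 40, nat_lit 40, nat_lit 80, nat_lit 16, nat_lit 317, nat_lit 100, nat_lit 12]⟩, ⟨p062_k11, nat_lit 0, nat_lit 0, nat_lit 68, nat_lit 0, nat_lit 0, [nat_lit 4688000000, nat_lit 7968000000], [], [nat_lit 12551200113, nat_lit 13638745570, nat_lit 13837387149, nat_lit 14803391566, nat_lit 24909768638, nat_lit 25410710019, nat_lit 24607014152, nat_lit 25053971301], nat_lit 0, nat_lit 0, nat_lit 0, nat_lit 0, nat_lit 0, nat_lit 0, [], [nat_lit 39, nat_lit 40, nat_lit 40, nat_lit 80, nat_lit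 7, nat_lit 373, nat_lit 150, nat_lit 13]⟩,
 zbF0, [⟨nat_lit 0, nat_lit 100, nat_lit 84, nat_lit 85, nat_lit 294670677⟩, ⟨nat_lit 7, nat_lit 75, nat_lit 100, nat_lit 90, nat_lit 398613174⟩]⟩
noncomputable def p062_l15 : Lf2 := ⟨nat_lit 0, nat_lit 10, [nat_lit 0, nat_lit 5, nat_lit 5, nat_lit 20], true, nat_lit 0, nat_lit 160, nat_lit 0, nat_lit 364, ⟨nat_lit 0, nat_lit 0, nat_lit 1000, nat_lit 6, nat_lit 166, nat_lit 567, nat_lit 65, nat_lit 1000, nat_lit 38400, nat_lit 263, nat_lit 40017, nat_lit 264, nat_lit 57183995, nat_lit 0, nat_lit 0, nat_lit 2083013, false, false⟩,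
 nat_lit 0, nat_lit 4911, nat_lit 0, nat_lit 0, nat_lit 3399, nat_lit 0, nat_lit 0, nat_lit 0, nat_lit 0, nat_lit 0, nat_lit 0, nat_lit 0, nat_lit 0, nat_lit 0, nat_lit 94, nat_lit 400000, nat_lit 0, nat_lit 0, [(nat_lit 15, [(nat_lit 5, nat_lit 1000)])],
 ⟨p062_k2, nat_lit 0, nat_lit 0, nat_lit 283, nat_lit 0, nat_lit 255659, [nat_lit 2443200000, nat_lit 916400001, nat_lit 120399999], [], [nat_lit 15399526825, nat_lit 16642383176, nat_lit 16481324045, nat_lit 17690024464, nat_lit 15677836610, nat_lit 16908670484, nat_lit 18198119926, nat_lit 18095354668], nat_lit 1271250, nat_lit 1271250, nat_lit 490000, nat_lit 1100001, nat_lit 0, nat_lit 1100001, [nat_lit 780000, nat_lit 1435000, nat_lit 1271250], [nat_lit 18, nat_lit 40, nat_lit 40, nat_lit 80, nat_lit 2, nat_lit 317, nat_lit 100, nat_lit 10]⟩, C1.Rw.none,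
 ⟨nat_lit 4472, nat_lit 5000, ⟨.ofNat (nat_lit 328559), .ofNat (nat_lit 471408), .ofNat (nat_lit 349976), .ofNat (nat_lit 492824), .ofNat (nat_lit 339186), .ofNat (nat_lit 475134), .ofNat (nat_lit 360741), .ofNat (nat_lit 496688)⟩, ⟨.ofNat (nat_lit 0), .ofNat (nat_lit 299999), .ofNat (nat_lit 0), .ofNat (nat_lit 342856), .ofNat (nat_lit 0), .ofNat (nat_lit 302621), .ofNat (nat_lit 0), .ofNat (nat_lit 345754)⟩⟩, []⟩
noncomputable def p062_l16 : Lf2 := ⟨nat_lit 0, nat_lit 10, [nat_lit 0, nat_lit 5, nat_lit 5, nat_lit 20], false, nat_lit 0, nat_lit 160, nat_lit 0, nat_lit 160, ⟨nat_lit 1000, nat_lit 0, nat_lit 0, nat_lit 0, nat_lit 0, nat_lit 0, nat_lit 0, nat_lit 0, nat_lit 0, nat_lit 0, nat_lit 0, nat_lit 0, nat_lit 0, nat_lit 0, nat_lit 0, nat_lit 0, false, false⟩,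
 nat_lit 0, nat_lit 10012, nat_lit 0, nat_lit 0, nat_lit 6931, nat_lit 8379, nat_lit 1773, nat_lit 0, nat_lit 0, nat_lit 1749, nat_lit 0, nat_lit 0, nat_lit 0, nat_lit 0, nat_lit 0, nat_lit 0, nat_lit 0, nat_lit 0, [],
 ⟨p062_k2, nat_lit 0, nat_lit 0, nat_lit 502, nat_lit 0, nat_lit 715926, [nat_lit 3282000000, nat_lit 6250000000, nat_lit 7968000000], [], [nat_lit 21897110625, nat_lit 22471680744, nat_lit 19391249595, nat_lit 21967486968, nat_lit 16879898277, nat_lit 17787668317, nat_lit 21120875551, nat_lit 17982463303], nat_lit 1271250, nat_lit 1271250, nat_lit 490000, nat_lit 1100001, nat_lit 0, nat_lit 1100001, [nat_lit 780000, nat_lit 1435000, nat_lit 1271250], [nat_lit 18, nat_lit 40, nat_lit 40, nat_lit 80, nat_lit 2, nat_lit 317, nat_lit 100, nat_lit 10]⟩, ⟨p062_k5, nat_lit 0, nat_lit 0, nat_lit 182, nat_lit 0, nat_lit 0, [nat_lit 4688000000, nat_lit 7968000000, nat_lit 9842000000], [], [nat_lit 18936912138,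 nat_lit 20853108596, nat_lit 18831228560, nat_lit 20762799244, nat_lit 14161469206, nat_lit 15660213136, nat_lit 14353157128, nat_lit 15663542416], nat_lit 0, nat_lit 0, nat_lit 0, nat_lit 0, nat_lit 0, nat_lit 0, [], [nat_lit 29, nat_lit 40, nat_lit 40, nat_lit 80, nat_lit 17, nat_lit 373, nat_lit 150, nat_lit 11]⟩,
 zbF0, [⟨nat_lit 0, nat_lit 100, nat_lit 87, nat_lit 95, nat_lit 448570402⟩]⟩
noncomputable def p062_l17 : Lf2 := ⟨nat_lit 0, nat_lit 10, [nat_lit 0, nat_lit 5, nat_lit 5, nat_lit 20], false, nat_lit 0, nat_lit 160, nat_lit 160, nat_lit 352, ⟨nat_lit 1000, nat_lit 0, nat_lit 0, nat_lit 0, nat_lit 0, nat_lit 0, nat_lit 0, nat_lit 0, nat_lit 0, nat_lit 0, nat_lit 0, nat_lit 0, nat_lit 0, nat_lit 0, nat_lit 0, nat_lit 0, false, false⟩,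
 nat_lit 0, nat_lit 9559, nat_lit 0, nat_lit 0, nat_lit 6617, nat_lit 6264, nat_lit 2165, nat_lit 0, nat_lit 0, nat_lit 0, nat_lit 0, nat_lit 0, nat_lit 0, nat_lit 0, nat_lit 0, nat_lit 0, nat_lit 0, nat_lit 0, [],
 ⟨p062_k2, nat_lit 0, nat_lit 0, nat_lit 502, nat_lit 0, nat_lit 715926, [nat_lit 3282000000, nat_lit 6250000000, nat_lit 7968000000], [], [nat_lit 21492796125, nat_lit 21953447608, nat_lit 18874290840, nat_lit 21563705576, nat_lit 16162362722, nat_lit 17269473939, nat_lit 21220485207, nat_lit 18224254671], nat_lit 1271250, nat_lit 1271250, nat_lit 490000, nat_lit 1100001, nat_lit 0, nat_lit 1100001, [nat_lit 780000, nat_lit 1435000, nat_lit 1271250], [nat_lit 18, nat_lit 40, nat_lit 40, nat_lit 80, nat_lit 2, nat_lit 317, nat_lit 100, nat_lit 10]⟩, ⟨p062_k5, nat_lit 0, nat_lit 0, nat_lit 100, nat_lit 0, nat_lit 0, [nat_lit 4688000000, nat_lit 7968000000, nat_lit 9842000000], [], [nat_lit 11267201152,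 nat_lit 13111527104, nat_lit 12466194608, nat_lit 14094876544, nat_lit 24651141066, nat_lit 25862365888, nat_lit 24335808625, nat_lit 25266725677], nat_lit 0, nat_lit 0, nat_lit 0, nat_lit 0, nat_lit 0, nat_lit 0, [], [nat_lit 29, nat_lit 40, nat_lit 40, nat_lit 80, nat_lit 17, nat_lit 428, nat_lit 200, nat_lit 12]⟩,
 zbF0, [⟨nat_lit 0, nat_lit 100, nat_lit 89, nat_lit 86, nat_lit 311922480⟩, ⟨nat_lit 19, nat_lit 100, nat_lit 69, nat_lit 96, nat_lit 160561639⟩, ⟨nat_lit 7, nat_lit 82, nat_lit 100, nat_lit 92, nat_lit 445921044⟩]⟩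
noncomputable def p062_l18 : Lf2 := ⟨nat_lit 0, nat_lit 10, [nat_lit 0, nat_lit 5, nat_lit 5, nat_lit 20], false, nat_lit 0, nat_lit 160, nat_lit 0, nat_lit 364, ⟨nat_lit 1000, nat_lit 0, nat_lit 0, nat_lit 0, nat_lit 0, nat_lit 0, nat_lit 0, nat_lit 0, nat_lit 0, nat_lit 0, nat_lit 0, nat_lit 0, nat_lit 0, nat_lit 0, nat_lit 0, nat_lit 0, false, false⟩,
 nat_lit 0, nat_lit 10061, nat_lit 0, nat_lit 3226, nat_lit 6402, nat_lit 10277, nat_lit 941, nat_lit 0, nat_lit 0, nat_lit 1149, nat_lit 0, nat_lit 0, nat_lit 0, nat_lit 0, nat_lit 0, nat_lit 0, nat_lit 0, nat_lit 0, [],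
 ⟨p062_k0, nat_lit 0, nat_lit 0, nat_lit 365, nat_lit 0, nat_lit 422796, [nat_lit 3282000000, nat_lit 6250000000, nat_lit 9842000000], [], [nat_lit 32517674328, nat_lit 29183653572, nat_lit 28366443697, nat_lit 29460318589, nat_lit 23649929929, nat_lit 24496516761, nat_lit 30535577296, nat_lit 27559274692], nat_lit 1271250, nat_lit 1271250, nat_lit 1100001, nat_lit 1785000, nat_lit 0, nat_lit 1100001, [nat_lit 780000, nat_lit 1435000, nat_lit 1271250], [nat_lit 8, nat_lit 40, nat_lit 40, nat_lit 80, nat_lit 1, nat_lit 317, nat_lit 100, nat_lit 9]⟩, ⟨p062_k12, nat_lit 0, nat_lit 0, nat_lit 194, nat_lit 0, nat_lit 0, [nat_lit 4688000000, nat_lit 7968000000, nat_lit 11872000000], [], [nat_lit 24639144160, nat_lit 26274697156, nat_lit 27652244672, nat_lit 28975510014, nat_lit 27494498169, nat_lit 28115542468, nat_lit 28812291655, nat_lit 29867491909], nat_lit 0, nat_lit 0, nat_lit 0, nat_lit 0, nat_lit 0, nat_lit 0,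 [], [nat_lit 21, nat_lit 40, nat_lit 40, nat_lit 80, nat_lit 14, nat_lit 456, nat_lit 225, nat_lit 12]⟩,
 zbF0, [⟨nat_lit 19, nat_lit 100, nat_lit 72, nat_lit 89, nat_lit 248881743⟩]⟩
noncomputable def p062_l19 : Lf2 := ⟨nat_lit 0, nat_lit 10, [nat_lit 0, nat_lit 5, nat_lit 5, nat_lit 20], false, nat_lit 0, nat_lit 160, nat_lit 0, nat_lit 352, ⟨nat_lit 1000, nat_lit 0, nat_lit 0, nat_lit 0, nat_lit 0, nat_lit 0, nat_lit 0, nat_lit 0, nat_lit 0, nat_lit 0, nat_lit 0, nat_lit 0, nat_lit 0, nat_lit 0, nat_lit 0, nat_lit 0, false, false⟩,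
 nat_lit 0, nat_lit 11831, nat_lit 0, nat_lit 0, nat_lit 7528, nat_lit 8020, nat_lit 948, nat_lit 0, nat_lit 0, nat_lit 1703, nat_lit 0, nat_lit 0, nat_lit 0, nat_lit 0, nat_lit 0, nat_lit 0, nat_lit 0, nat_lit 0, [],
 ⟨p062_k0, nat_lit 0, nat_lit 0, nat_lit 468, nat_lit 0, nat_lit 595349, [nat_lit 3282000000, nat_lit 6250000000, nat_lit 9842000000], [], [nat_lit 33042800192, nat_lit 29122383408, nat_lit 29162152228, nat_lit 30081362368, nat_lit 23546091588, nat_lit 24439341396, nat_lit 29102233344, nat_lit 25985949776], nat_lit 1271250, nat_lit 1271250, nat_lit 1100001, nat_lit 1785000, nat_lit 0, nat_lit 1100001, [nat_lit 780000, nat_lit 1435000, nat_lit 1271250], [nat_lit 8, nat_lit 40, nat_lit 40, nat_lit 80, nat_lit 1, nat_lit 317, nat_lit 100, nat_lit 9]⟩, ⟨p062_k5, nat_lit 0, nat_lit 0, nat_lit 158, nat_lit 0, nat_lit 0, [nat_lit 4688000000, nat_lit 7968000000, nat_lit 9842000000], [], [nat_lit 19069602440,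 nat_lit 20904598720, nat_lit 22904255080, nat_lit 24446786960, nat_lit 25512493265, nat_lit 26360828017, nat_lit 27157869945, nat_lit 28161858784], nat_lit 0, nat_lit 0, nat_lit 0, nat_lit 0, nat_lit 0, nat_lit 0, [], [nat_lit 29, nat_lit 40, nat_lit 40, nat_lit 80, nat_lit 17, nat_lit 456, nat_lit 225, nat_lit 13]⟩,
 zbF0, [⟨nat_lit 7, nat_lit 82, nat_lit 100, nat_lit 92, nat_lit 294346099⟩]⟩
noncomputable def p062_l20 : Lf2 := ⟨nat_lit 0, nat_lit 10, [nat_lit 0, nat_lit 5, nat_lit 5, nat_lit 20], false, nat_lit 0, nat_lit 160, nat_lit 0, nat_lit 364, ⟨nat_lit 1000, nat_lit 0, nat_lit 0, nat_lit 0, nat_lit 0, nat_lit 0, nat_lit 0, nat_lit 0, nat_lit 0, nat_lit 0, nat_lit 0, nat_lit 0, nat_lit 0, nat_lit 0, nat_lit 0, nat_lit 0, false, false⟩,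
 nat_lit 0, nat_lit 10066, nat_lit 0, nat_lit 630, nat_lit 6968, nat_lit 9982, nat_lit 1843, nat_lit 0, nat_lit 0, nat_lit 1180, nat_lit 0, nat_lit 0, nat_lit 0, nat_lit 0, nat_lit 0, nat_lit 0, nat_lit 0, nat_lit 0, [],
 ⟨p062_k2, nat_lit 0, nat_lit 0, nat_lit 454, nat_lit 0, nat_lit 715926, [nat_lit 3282000000, nat_lit 6250000000, nat_lit 7968000000], [], [nat_lit 25645395873, nat_lit 22016614769, nat_lit 23524428576, nat_lit 25841732640, nat_lit 16134154643, nat_lit 16938667059, nat_lit 22383599456, nat_lit 19851289440], nat_lit 1271250, nat_lit 1271250, nat_lit 1100001, nat_lit 1785000, nat_lit 0, nat_lit 1100001, [nat_lit 780000, nat_lit 1435000, nat_lit 1271250], [nat_lit 18, nat_lit 40, nat_lit 40, nat_lit 80, nat_lit 2, nat_lit 317, nat_lit 100, nat_lit 10]⟩, ⟨p062_k12, nat_lit 0, nat_lit 0, nat_lit 200, nat_lit 0, nat_lit 0, [nat_lit 4688000000, nat_lit 7968000000, nat_lit 11872000000], [], [nat_lit 24381695560,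 nat_lit 27594894232, nat_lit 27370884552, nat_lit 29975026096, nat_lit 27399597755, nat_lit 29196442394, nat_lit 28626125297, nat_lit 30707736459], nat_lit 0, nat_lit 0, nat_lit 0, nat_lit 0, nat_lit 0, nat_lit 0, [], [nat_lit 21, nat_lit 40, nat_lit 40, nat_lit 80, nat_lit 14, nat_lit 456, nat_lit 225, nat_lit 12]⟩,
 zbF0, [⟨nat_lit 7, nat_lit 77, nat_lit 100, nat_lit 91, nat_lit 221813098⟩, ⟨nat_lit 22, nat_lit 100, nat_lit 60, nat_lit 80, nat_lit 20470366⟩]⟩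
noncomputable def b_V_700_600_20_18 : St := ⟨true, nat_lit 1, nat_lit 0, nat_lit 1, nat_lit 120, nat_lit 280, nat_lit 320, nat_lit 240, nat_lit 280, nat_lit 36, nat_lit 240, nat_lit 80, nat_lit 120, nat_lit 0, nat_lit 160, nat_lit 0, nat_lit 364, nat_lit 0, nat_lit 40, nat_lit 0, nat_lit 0, nat_lit 0, nat_lit 0⟩
theorem d_V_700_600_20_18 (h : EB TB.env) : Dead b_V_700_600_20_18 := chkB_sound0 h (T :=
(.spl (nat_lit 2) (nat_lit 160)
(.spl (nat_lit 2) (nat_lit 80)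
(.spl (nat_lit 4) (nat_lit 80)
(.spl (nat_lit 0) (nat_lit 300)
(.spl (nat_lit 0) (nat_lit 290)
(.leaf p062_l0)
(.trZ (nat_lit 0) (nat_lit 100) (nat_lit 91) (nat_lit 63) (nat_lit 40) (.leaf p062_l1)))
(.trZ (nat_lit 0) (nat_lit 100) (nat_lit 88) (nat_lit 68) (nat_lit 48) (.leaf p062_l2)))
(.spl (nat_lit 0) (nat_lit 300)
(.leaf p062_l3)
(.trZ (nat_lit 0) (nat_lit 100) (nat_lit 88) (nat_lit 68) (nat_lit 48) (.leaf p062_l4))))
(.spl (nat_lit 0) (nat_lit 300)
(.spl (nat_lit 1) (nat_lit 260)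
(.spl (nat_lit 6) (nat_lit 28)
(.spl (nat_lit 0) (nat_lit 290)
(.leaf p062_l5)
(.leaf p062_l6))
(.leaf p062_l7))
(.trX (nat_lit 19) (nat_lit 100) (nat_lit 69) (nat_lit 96) (nat_lit 352) (.spl (nat_lit 5) (nat_lit 160)
(.leaf p062_l8)
(.spl (nat_lit 0) (nat_lit 290)
(.spl (nat_lit 6) (nat_lit 32)
(.spl (nat_lit 0) (nat_lit 285)
(.leaf p062_l9)
(.leaf p062_l10))
(.leaf p062_l11))
(.leaf p062_l12)))))
(.spl (nat_lit 1) (nat_lit 260)
(.spl (nat_lit 6) (nat_lit 20)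
(.spl (nat_lit 1) (nat_lit 250)
(.leaf p062_l13)
(.trX (nat_lit 19) (nat_lit 100) (nat_lit 64) (nat_lit 95) (nat_lit 360) (.leaf p062_l14)))
(.leaf p062_l15))
(.trX (nat_lit 19) (nat_lit 100) (nat_lit 69) (nat_lit 96) (nat_lit 352) (.spl (nat_lit 5) (nat_lit 160)
(.leaf p062_l16)
(.leaf p062_l17))))))
(.spl (nat_lit 0) (nat_lit 300)
(.spl (nat_lit 1) (nat_lit 260)
(.leaf p062_l18)
(.trX (nat_lit 19) (nat_lit 100) (nat_lit 69) (nat_lit 96) (nat_lit 352) (.leaf p062_l19)))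
(.leaf p062_l20)))) (by decide +kernel)
noncomputable def p062_l21 : Lf2 := ⟨nat_lit 0, nat_lit 5, [nat_lit 4, nat_lit 5, nat_lit 5, nat_lit 20], true, nat_lit 160, nat_lit 240, nat_lit 0, nat_lit 364, ⟨nat_lit 0, nat_lit 0, nat_lit 1000, nat_lit 6, nat_lit 120, nat_lit 1000, nat_lit 157, nat_lit 1000, nat_lit 50417, nat_lit 270, nat_lit 135000, nat_lit 305, nat_lit 51859337, nat_lit 0, nat_lit 0, nat_lit 3661003, false, false⟩,
 nat_lit 0, nat_lit 6030, nat_lit 0, nat_lit 0, nat_lit 3837, nat_lit 0, nat_lit 0, nat_lit 0, nat_lit 0, nat_lit 0, nat_lit 0, nat_lit 0, nat_lit 0, nat_lit 0, nat_lit 162, nat_lit 1000000, nat_lit 0, nat_lit 0, [(nat_lit 12, [(nat_lit 6, nat_lit 1000)]), (nat_lit 15, [(nat_lit 6, nat_lit 1000)])],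
 ⟨p062_k13, nat_lit 0, nat_lit 0, nat_lit 260, nat_lit 0, nat_lit 367150, [nat_lit 3085200001, nat_lit 2112400000, nat_lit 400000], [], [nat_lit 18206245335, nat_lit 16190344087, nat_lit 13869393205, nat_lit 15371250328, nat_lit 16236869277, nat_lit 19460483705, nat_lit 16687734674, nat_lit 18607751988], nat_lit 1271250, nat_lit 1271250, nat_lit 205650, nat_lit 490000, nat_lit 1100001, nat_lit 1785000, [nat_lit 780000, nat_lit 1435000, nat_lit 1271250], [nat_lit 18, nat_lit 40, nat_lit 40, nat_lit 80, nat_lit 2, nat_lit 317, nat_lit 100, nat_lit 10]⟩, C1.Rw.none,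
 ⟨nat_lit 4472, nat_lit 5478, ⟨.ofNat (nat_lit 235487), .ofNat (nat_lit 317898), .ofNat (nat_lit 256814), .ofNat (nat_lit 339222), .ofNat (nat_lit 264421), .ofNat (nat_lit 339182), .ofNat (nat_lit 285957), .ofNat (nat_lit 360715)⟩, ⟨.ofNat (nat_lit 296923), .ofNat (nat_lit 446789), .ofNat (nat_lit 339637), .ofNat (nat_lit 489503), .ofNat (nat_lit 302621), .ofNat (nat_lit 438578), .ofNat (nat_lit 345754), .ofNat (nat_lit 481711)⟩⟩, [⟨nat_lit 0, nat_lit 100, nat_lit 89, nat_lit 72, nat_lit 386363995⟩]⟩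
noncomputable def p062_l22 : Lf2 := ⟨nat_lit 0, nat_lit 5, [nat_lit 4, nat_lit 5, nat_lit 5, nat_lit 20], true, nat_lit 160, nat_lit 240, nat_lit 0, nat_lit 352, ⟨nat_lit 0, nat_lit 0, nat_lit 1000, nat_lit 6, nat_lit 130, nat_lit 1000, nat_lit 157, nat_lit 1000, nat_lit 50417, nat_lit 270, nat_lit 160067, nat_lit 313, nat_lit 51065743, nat_lit 0, nat_lit 0, nat_lit 3799015, false, false⟩,
 nat_lit 0, nat_lit 5550, nat_lit 0, nat_lit 0, nat_lit 3531, nat_lit 0, nat_lit 0, nat_lit 0, nat_lit 0, nat_lit 0, nat_lit 0, nat_lit 0, nat_lit 0, nat_lit 0, nat_lit 162, nat_lit 1000000, nat_lit 0, nat_lit 0, [(nat_lit 12, [(nat_lit 6, nat_lit 1000)])],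
 ⟨p062_k13, nat_lit 0, nat_lit 0, nat_lit 203, nat_lit 0, nat_lit 329172, [nat_lit 3085200001, nat_lit 2112400000, nat_lit 400000], [], [nat_lit 12703437354, nat_lit 14031214455, nat_lit 12654740633, nat_lit 13982396024, nat_lit 15842377844, nat_lit 17365800644, nat_lit 15760144474, nat_lit 16971012996], nat_lit 1271250, nat_lit 1271250, nat_lit 279600, nat_lit 490000, nat_lit 1100001, nat_lit 1785000, [nat_lit 780000, nat_lit 1435000, nat_lit 1271250], [nat_lit 18, nat_lit 40, nat_lit 40, nat_lit 80, nat_lit 2, nat_lit 317, nat_lit 100, nat_lit 10]⟩, C1.Rw.none,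
 ⟨nat_lit 5000, nat_lit 5478, ⟨.ofNat (nat_lit 279324), .ofNat (nat_lit 339271), .ofNat (nat_lit 300681), .ofNat (nat_lit 360625), .ofNat (nat_lit 292856), .ofNat (nat_lit 349999), .ofNat (nat_lit 314284), .ofNat (nat_lit 371424)⟩, ⟨.ofNat (nat_lit 296923), .ofNat (nat_lit 446789), .ofNat (nat_lit 339637), .ofNat (nat_lit 489503), .ofNat (nat_lit 299999), .ofNat (nat_lit 442856), .ofNat (nat_lit 342856), .ofNat (nat_lit 485713)⟩⟩, [⟨nat_lit 0, nat_lit 100, nat_lit 94, nat_lit 88, nat_lit 269936211⟩]⟩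
noncomputable def p062_l23 : Lf2 := ⟨nat_lit 0, nat_lit 5, [nat_lit 4, nat_lit 5, nat_lit 5, nat_lit 20], true, nat_lit 160, nat_lit 240, nat_lit 0, nat_lit 352, ⟨nat_lit 0, nat_lit 0, nat_lit 1000, nat_lit 6, nat_lit 141, nat_lit 1000, nat_lit 157, nat_lit 1000, nat_lit 59604, nat_lit 274, nat_lit 187267, nat_lit 321, nat_lit 50281985, nat_lit 0, nat_lit 0, nat_lit 3926658, false, false⟩,
 nat_lit 0, nat_lit 5148, nat_lit 0, nat_lit 0, nat_lit 3563, nat_lit 0, nat_lit 0, nat_lit 0, nat_lit 0, nat_lit 0, nat_lit 0, nat_lit 0, nat_lit 0, nat_lit 0, nat_lit 128, nat_lit 1000000, nat_lit 0, nat_lit 0, [(nat_lit 15, [(nat_lit 6, nat_lit 1000)])],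
 ⟨p062_k9, nat_lit 0, nat_lit 0, nat_lit 205, nat_lit 0, nat_lit 401809, [nat_lit 2516000000, nat_lit 264800000], [], [nat_lit 14243521026, nat_lit 15522328259, nat_lit 14248032570, nat_lit 15506176708, nat_lit 17181024113, nat_lit 18700614315, nat_lit 16980900076, nat_lit 18477677612], nat_lit 1271250, nat_lit 1271250, nat_lit 382400, nat_lit 490000, nat_lit 1100001, nat_lit 1785000, [nat_lit 780000, nat_lit 1435000], [nat_lit 49, nat_lit 40, nat_lit 40, nat_lit 80, nat_lit 16, nat_lit 317, nat_lit 100, nat_lit 12]⟩, C1.Rw.none,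
 ⟨nat_lit 4472, nat_lit 5000, ⟨.ofNat (nat_lit 321407), .ofNat (nat_lit 349976), .ofNat (nat_lit 342823), .ofNat (nat_lit 371392), .ofNat (nat_lit 333552), .ofNat (nat_lit 360741), .ofNat (nat_lit 355106), .ofNat (nat_lit 382295)⟩, ⟨.ofNat (nat_lit 299999), .ofNat (nat_lit 442856), .ofNat (nat_lit 342856), .ofNat (nat_lit 485713), .ofNat (nat_lit 302621), .ofNat (nat_lit 438578), .ofNat (nat_lit 345754), .ofNat (nat_lit 481711)⟩⟩, [⟨nat_lit 0, nat_lit 100, nat_lit 89, nat_lit 86, nat_lit 718601142⟩]⟩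
noncomputable def p062_l24 : Lf2 := ⟨nat_lit 0, nat_lit 10, [nat_lit 0, nat_lit 5, nat_lit 5, nat_lit 20], true, nat_lit 160, nat_lit 240, nat_lit 0, nat_lit 364, ⟨nat_lit 0, nat_lit 0, nat_lit 1000, nat_lit 6, nat_lit 124, nat_lit 1000, nat_lit 157, nat_lit 1000, nat_lit 50417, nat_lit 270, nat_lit 144150, nat_lit 308, nat_lit 51540865, nat_lit 0, nat_lit 0, nat_lit 3717737, false, false⟩,
 nat_lit 0, nat_lit 5820, nat_lit 0, nat_lit 0, nat_lit 3703, nat_lit 0, nat_lit 217, nat_lit 0, nat_lit 0, nat_lit 0, nat_lit 0, nat_lit 0, nat_lit 0, nat_lit 0, nat_lit 86, nat_lit 400000, nat_lit 0, nat_lit 0, [(nat_lit 12, [(nat_lit 5, nat_lit 1000)]), (nat_lit 15, [(nat_lit 5, nat_lit 1000)])],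
 ⟨p062_k0, nat_lit 0, nat_lit 0, nat_lit 225, nat_lit 0, nat_lit 256235, [nat_lit 2347200000, nat_lit 1180400000, nat_lit 174400000], [], [nat_lit 13933611144, nat_lit 16356141727, nat_lit 13593246465, nat_lit 15774869349, nat_lit 16444217575, nat_lit 19339426712, nat_lit 15891939353, nat_lit 18544138972], nat_lit 1271250, nat_lit 1271250, nat_lit 205650, nat_lit 490000, nat_lit 1100001, nat_lit 1785000, [nat_lit 780000, nat_lit 1435000, nat_lit 1271250], [nat_lit 8, nat_lit 40, nat_lit 40, nat_lit 80, nat_lit 1, nat_lit 317, nat_lit 100, nat_lit 9]⟩, C1.Rw.none,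
 ⟨nat_lit 4472, nat_lit 5478, ⟨.ofNat (nat_lit 235487), .ofNat (nat_lit 317898), .ofNat (nat_lit 278138), .ofNat (nat_lit 360546), .ofNat (nat_lit 264421), .ofNat (nat_lit 339182), .ofNat (nat_lit 307491), .ofNat (nat_lit 382248)⟩, ⟨.ofNat (nat_lit 296923), .ofNat (nat_lit 446789), .ofNat (nat_lit 339637), .ofNat (nat_lit 489503), .ofNat (nat_lit 302621), .ofNat (nat_lit 438578), .ofNat (nat_lit 345754), .ofNat (nat_lit 481711)⟩⟩, [⟨nat_lit 0, nat_lit 100, nat_lit 91, nat_lit 77, nat_lit 389213150⟩]⟩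
noncomputable def p062_l25 : Lf2 := ⟨nat_lit 0, nat_lit 10, [nat_lit 0, nat_lit 5, nat_lit 5, nat_lit 20], false, nat_lit 160, nat_lit 240, nat_lit 0, nat_lit 160, ⟨nat_lit 1000, nat_lit 0, nat_lit 0, nat_lit 0, nat_lit 0, nat_lit 0, nat_lit 0, nat_lit 0, nat_lit 0, nat_lit 0, nat_lit 0, nat_lit 0, nat_lit 0, nat_lit 0, nat_lit 0, nat_lit 0, false, false⟩,
 nat_lit 0, nat_lit 10779, nat_lit 0, nat_lit 0, nat_lit 6859, nat_lit 8120, nat_lit 1036, nat_lit 0, nat_lit 0, nat_lit 1801, nat_lit 0, nat_lit 0, nat_lit 0, nat_lit 0, nat_lit 0, nat_lit 0, nat_lit 0, nat_lit 0, [],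
 ⟨p062_k0, nat_lit 0, nat_lit 0, nat_lit 368, nat_lit 0, nat_lit 595349, [nat_lit 3282000000, nat_lit 6250000000, nat_lit 9842000000], [], [nat_lit 21580671104, nat_lit 22808471468, nat_lit 21793195164, nat_lit 22844273820, nat_lit 23689886224, nat_lit 24697724662, nat_lit 27819812596, nat_lit 24673095448], nat_lit 1271250, nat_lit 1271250, nat_lit 490000, nat_lit 1100001, nat_lit 1100001, nat_lit 1785000, [nat_lit 780000, nat_lit 1435000, nat_lit 1271250], [nat_lit 8, nat_lit 40, nat_lit 40, nat_lit 80, nat_lit 1, nat_lit 317, nat_lit 100, nat_lit 9]⟩, ⟨p062_k12, nat_lit 0, nat_lit 0, nat_lit 235, nat_lit 0, nat_lit 0, [nat_lit 4688000000, nat_lit 7968000000, nat_lit 11872000000], [], [nat_lit 20513832380, nat_lit 23723282880, nat_lit 20177054880, nat_lit 23696192320, nat_lit 16093137280, nat_lit 19035370080, nat_lit 16517339200, nat_lit 19092488480], nat_lit 0, nat_lit 0, nat_lit 0, nat_lit 0, nat_lit 0, nat_lit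 0, [], [nat_lit 21, nat_lit 40, nat_lit 40, nat_lit 80, nat_lit 14, nat_lit 373, nat_lit 150, nat_lit 10]⟩,
 zbF0, [⟨nat_lit 0, nat_lit 100, nat_lit 94, nat_lit 88, nat_lit 452747157⟩]⟩
noncomputable def p062_l26 : Lf2 := ⟨nat_lit 0, nat_lit 5, [nat_lit 4, nat_lit 5, nat_lit 5, nat_lit 20], false, nat_lit 160, nat_lit 240, nat_lit 160, nat_lit 364, ⟨nat_lit 1000, nat_lit 0, nat_lit 0, nat_lit 0, nat_lit 0, nat_lit 0, nat_lit 0, nat_lit 0, nat_lit 0, nat_lit 0, nat_lit 0, nat_lit 0, nat_lit 0, nat_lit 0, nat_lit 0, nat_lit 0, false, false⟩,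
 nat_lit 0, nat_lit 11267, nat_lit 0, nat_lit 0, nat_lit 7169, nat_lit 5979, nat_lit 1638, nat_lit 0, nat_lit 0, nat_lit 0, nat_lit 0, nat_lit 0, nat_lit 0, nat_lit 0, nat_lit 0, nat_lit 0, nat_lit 0, nat_lit 0, [],
 ⟨p062_k14, nat_lit 0, nat_lit 0, nat_lit 258, nat_lit 0, nat_lit 480950, [nat_lit 3282000000, nat_lit 4688000000, nat_lit 7968000000], [], [nat_lit 23846460552, nat_lit 22007404151, nat_lit 15981227960, nat_lit 16327200226, nat_lit 18431862608, nat_lit 18799008922, nat_lit 24759013112, nat_lit 23092571893], nat_lit 1271250, nat_lit 1271250, nat_lit 490000, nat_lit 1100001, nat_lit 1100001, nat_lit 1785000, [nat_lit 780000, nat_lit 1100000, nat_lit 1785000], [nat_lit 36, nat_lit 40, nat_lit 40, nat_lit 80, nat_lit 7, nat_lit 317, nat_lit 100, nat_lit 10]⟩, ⟨p062_k15, nat_lit 0, nat_lit 0, nat_lit 90, nat_lit 0, nat_lit 0, [nat_lit 4688000000, nat_lit 6250000000, nat_lit 9842000000], [], [nat_lit 9877079700,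 nat_lit 13463805344, nat_lit 11321143992, nat_lit 14492196184, nat_lit 24829925514, nat_lit 26775652486, nat_lit 24596382808, nat_lit 26335021608], nat_lit 0, nat_lit 0, nat_lit 0, nat_lit 0, nat_lit 0, nat_lit 0, [], [nat_lit 11, nat_lit 40, nat_lit 40, nat_lit 80, nat_lit 1, nat_lit 456, nat_lit 225, nat_lit 13]⟩,
 zbF0, [⟨nat_lit 7, nat_lit 77, nat_lit 100, nat_lit 91, nat_lit 617050827⟩]⟩
noncomputable def p062_l27 : Lf2 := ⟨nat_lit 0, nat_lit 5, [nat_lit 4, nat_lit 5, nat_lit 5, nat_lit 20], false, nat_lit 160, nat_lit 240, nat_lit 160, nat_lit 364, ⟨nat_lit 653, nat_lit 0, nat_lit 347, nat_lit 6, nat_lit 168, nat_lit 347, nat_lit 157, nat_lit 347, nat_lit 55099, nat_lit 272, nat_lit 24731, nat_lit 252, nat_lit 48127744, nat_lit 0, nat_lit 0, nat_lit 4233238, false, false⟩,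
 nat_lit 0, nat_lit 8158, nat_lit 0, nat_lit 0, nat_lit 5417, nat_lit 3902, nat_lit 2572, nat_lit 0, nat_lit 0, nat_lit 0, nat_lit 0, nat_lit 0, nat_lit 0, nat_lit 0, nat_lit 0, nat_lit 347000, nat_lit 0, nat_lit 0, [(nat_lit 12, [(nat_lit 6, nat_lit 347)])],
 ⟨p062_k16, nat_lit 0, nat_lit 0, nat_lit 232, nat_lit 0, nat_lit 543780, [nat_lit 2539142400, nat_lit 3597954000], [], [nat_lit 14514282487, nat_lit 15109077062, nat_lit 15071033811, nat_lit 15601370694, nat_lit 16918127501, nat_lit 17474751208, nat_lit 22467516586, nat_lit 21224932624], nat_lit 1271250, nat_lit 1271250, nat_lit 490000, nat_lit 1100001, nat_lit 1100001, nat_lit 1785000, [nat_lit 780000, nat_lit 1435000], [nat_lit 49, nat_lit 40, nat_lit 40, nat_lit 80, nat_lit 16, nat_lit 317, nat_lit 100, nat_lit 12]⟩, ⟨p062_k10, nat_lit 0, nat_lit 0, nat_lit 109, nat_lit 0, nat_lit 0, [nat_lit 3061264000, nat_lit 5203104000, nat_lit 6426826000], [], [nat_lit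 6453377836, nat_lit 8794691768, nat_lit 7396587956, nat_lit 9466592424, nat_lit 16214450525, nat_lit 17484703559, nat_lit 16062680774, nat_lit 17197763716], nat_lit 0, nat_lit 0, nat_lit 0, nat_lit 0, nat_lit 0, nat_lit 0, [], [nat_lit 29, nat_lit 40, nat_lit 40, nat_lit 80, nat_lit 17, nat_lit 456, nat_lit 225, nat_lit 13]⟩,
 ⟨nat_lit 5000, nat_lit 5245, ⟨.ofNat (nat_lit 323256), .ofNat (nat_lit 469596), .ofNat (nat_lit 366025), .ofNat (nat_lit 512362), .ofNat (nat_lit 328570), .ofNat (nat_lit 471425), .ofNat (nat_lit 371426), .ofNat (nat_lit 514278)⟩, ⟨.ofNat (nat_lit 298515), .ofNat (nat_lit 444857), .ofNat (nat_lit 341286), .ofNat (nat_lit 487628), .ofNat (nat_lit 299999), .ofNat (nat_lit 442856), .ofNat (nat_lit 342856), .ofNat (nat_lit 485713)⟩⟩, [⟨nat_lit 7, nat_lit 77, nat_lit 100, nat_lit 91, nat_lit 402690591⟩]⟩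
noncomputable def p062_l28 : Lf2 := ⟨nat_lit 0, nat_lit 10, [nat_lit 0, nat_lit 5, nat_lit 5, nat_lit 20], true, nat_lit 160, nat_lit 240, nat_lit 160, nat_lit 364, ⟨nat_lit 0, nat_lit 0, nat_lit 1000, nat_lit 6, nat_lit 166, nat_lit 1000, nat_lit 157, nat_lit 1000, nat_lit 50417, nat_lit 270, nat_lit 25034, nat_lit 253, nat_lit 48238674, nat_lit 0, nat_lit 0, nat_lit 4218917, false, false⟩,
 nat_lit 0, nat_lit 5422, nat_lit 0, nat_lit 0, nat_lit 3450, nat_lit 0, nat_lit 0, nat_lit 0, nat_lit 0, nat_lit 0, nat_lit 0, nat_lit 0, nat_lit 0, nat_lit 0, nat_lit 95, nat_lit 400000, nat_lit 0, nat_lit 0, [(nat_lit 12, [(nat_lit 5, nat_lit 1000)])],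
 ⟨p062_k0, nat_lit 0, nat_lit 0, nat_lit 139, nat_lit 0, nat_lit 129863, [nat_lit 2380800000, nat_lit 1365333334, nat_lit 202000000], [], [nat_lit 12106918200, nat_lit 12884907250, nat_lit 13626648600, nat_lit 14324202850, nat_lit 15543744200, nat_lit 16210535600, nat_lit 16737236800, nat_lit 17337590600], nat_lit 1271250, nat_lit 1271250, nat_lit 490000, nat_lit 1100001, nat_lit 1100001, nat_lit 1785000, [nat_lit 780000, nat_lit 1435000, nat_lit 1271250], [nat_lit 8, nat_lit 40, nat_lit 40, nat_lit 80, nat_lit 1, nat_lit 317, nat_lit 100, nat_lit 9]⟩, C1.Rw.none,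
 ⟨nat_lit 5244, nat_lit 5478, ⟨.ofNat (nat_lit 317913), .ofNat (nat_lit 467779), .ofNat (nat_lit 360628), .ofNat (nat_lit 510489), .ofNat (nat_lit 323256), .ofNat (nat_lit 469597), .ofNat (nat_lit 366027), .ofNat (nat_lit 512365)⟩, ⟨.ofNat (nat_lit 296923), .ofNat (nat_lit 446789), .ofNat (nat_lit 339637), .ofNat (nat_lit 489503), .ofNat (nat_lit 298515), .ofNat (nat_lit 444857), .ofNat (nat_lit 341286), .ofNat (nat_lit 487628)⟩⟩, []⟩
noncomputable def p062_l29 : Lf2 := ⟨nat_lit 0, nat_lit 10, [nat_lit 0, nat_lit 5, nat_lit 5, nat_lit 20], true, nat_lit 160, nat_lit 240, nat_lit 160, nat_lit 364, ⟨nat_lit 0, nat_lit 0, nat_lit 1000, nat_lit 6, nat_lit 168, nat_lit 1000, nat_lit 157, nat_lit 1000, nat_lit 55099, nat_lit 272, nat_lit 24731, nat_lit 252, nat_lit 48127744, nat_lit 0, nat_lit 0, nat_lit 4233238, false, false⟩,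
 nat_lit 0, nat_lit 5475, nat_lit 0, nat_lit 0, nat_lit 3636, nat_lit 0, nat_lit 66, nat_lit 0, nat_lit 0, nat_lit 0, nat_lit 0, nat_lit 0, nat_lit 0, nat_lit 0, nat_lit 72, nat_lit 400000, nat_lit 0, nat_lit 0, [(nat_lit 12, [(nat_lit 5, nat_lit 1000)])],
 ⟨p062_k1, nat_lit 0, nat_lit 0, nat_lit 141, nat_lit 0, nat_lit 215638, [nat_lit 2104800000, nat_lit 905333334, nat_lit 113066666], [], [nat_lit 14017478406, nat_lit 14596625794, nat_lit 15030216834, nat_lit 15551853914, nat_lit 16498057882, nat_lit 16999880698, nat_lit 17478870204, nat_lit 18030990344], nat_lit 1271250, nat_lit 1271250, nat_lit 490000, nat_lit 1100001, nat_lit 1100001, nat_lit 1785000, [nat_lit 780000, nat_lit 1435000, nat_lit 1271250], [nat_lit 18, nat_lit 40, nat_lit 40, nat_lit 80, nat_lit 2, nat_lit 317, nat_lit 100, nat_lit 10]⟩, C1.Rw.none,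
 ⟨nat_lit 5000, nat_lit 5245, ⟨.ofNat (nat_lit 323256), .ofNat (nat_lit 469596), .ofNat (nat_lit 366025), .ofNat (nat_lit 512362), .ofNat (nat_lit 328570), .ofNat (nat_lit 471425), .ofNat (nat_lit 371426), .ofNat (nat_lit 514278)⟩, ⟨.ofNat (nat_lit 298515), .ofNat (nat_lit 444857), .ofNat (nat_lit 341286), .ofNat (nat_lit 487628), .ofNat (nat_lit 299999), .ofNat (nat_lit 442856), .ofNat (nat_lit 342856), .ofNat (nat_lit 485713)⟩⟩, [⟨nat_lit 0, nat_lit 100, nat_lit 94, nat_lit 88, nat_lit 8761729⟩]⟩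
noncomputable def p062_l30 : Lf2 := ⟨nat_lit 0, nat_lit 10, [nat_lit 0, nat_lit 5, nat_lit 5, nat_lit 20], false, nat_lit 160, nat_lit 240, nat_lit 0, nat_lit 160, ⟨nat_lit 1000, nat_lit 0, nat_lit 0, nat_lit 0, nat_lit 0, nat_lit 0, nat_lit 0, nat_lit 0, nat_lit 0, nat_lit 0, nat_lit 0, nat_lit 0, nat_lit 0, nat_lit 0, nat_lit 0, nat_lit 0, false, false⟩,
 nat_lit 0, nat_lit 9847, nat_lit 0, nat_lit 0, nat_lit 6817, nat_lit 8257, nat_lit 1645, nat_lit 0, nat_lit 0, nat_lit 1814, nat_lit 0, nat_lit 0, nat_lit 0, nat_lit 0, nat_lit 0, nat_lit 0, nat_lit 0, nat_lit 0, [],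
 ⟨p062_k2, nat_lit 0, nat_lit 0, nat_lit 392, nat_lit 0, nat_lit 715926, [nat_lit 3282000000, nat_lit 6250000000, nat_lit 7968000000], [], [nat_lit 17508076407, nat_lit 18534681197, nat_lit 17411867091, nat_lit 18320821661, nat_lit 19116223235, nat_lit 20022429508, nat_lit 21633238999, nat_lit 19825229860], nat_lit 1271250, nat_lit 1271250, nat_lit 490000, nat_lit 1100001, nat_lit 1100001, nat_lit 1785000, [nat_lit 780000, nat_lit 1435000, nat_lit 1271250], [nat_lit 18, nat_lit 40, nat_lit 40, nat_lit 80, nat_lit 2, nat_lit 317, nat_lit 100, nat_lit 10]⟩, ⟨p062_k12, nat_lit 0, nat_lit 0, nat_lit 235, nat_lit 0, nat_lit 0, [nat_lit 4688000000, nat_lit 7968000000, nat_lit 11872000000], [], [nat_lit 20492257068, nat_lit 23731574668, nat_lit 19980956368, nat_lit 23671044052, nat_lit 15805087108, nat_lit 18776547488, nat_lit 16205932720, nat_lit 18805213728], nat_lit 0, nat_lit 0, nat_lit 0, nat_lit 0, nat_lit 0, nat_lit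 0, [], [nat_lit 21, nat_lit 40, nat_lit 40, nat_lit 80, nat_lit 14, nat_lit 373, nat_lit 150, nat_lit 10]⟩,
 zbF0, [⟨nat_lit 0, nat_lit 100, nat_lit 88, nat_lit 81, nat_lit 193359324⟩, ⟨nat_lit 0, nat_lit 100, nat_lit 87, nat_lit 95, nat_lit 292386946⟩]⟩
noncomputable def p062_l31 : Lf2 := ⟨nat_lit 0, nat_lit 5, [nat_lit 4, nat_lit 5, nat_lit 5, nat_lit 20], false, nat_lit 160, nat_lit 240, nat_lit 160, nat_lit 364, ⟨nat_lit 887, nat_lit 0, nat_lit 113, nat_lit 6, nat_lit 165, nat_lit 113, nat_lit 157, nat_lit 113, nat_lit 59604, nat_lit 274, nat_lit 44804, nat_lit 266, nat_lit 48364774, nat_lit 0, nat_lit 0, nat_lit 4202276, false, false⟩,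
 nat_lit 0, nat_lit 8287, nat_lit 0, nat_lit 0, nat_lit 5737, nat_lit 5409, nat_lit 1966, nat_lit 0, nat_lit 0, nat_lit 0, nat_lit 0, nat_lit 0, nat_lit 0, nat_lit 0, nat_lit 0, nat_lit 113000, nat_lit 0, nat_lit 0, [(nat_lit 15, [(nat_lit 6, nat_lit 113)])],
 ⟨p062_k9, nat_lit 0, nat_lit 0, nat_lit 210, nat_lit 0, nat_lit 457982, [nat_lit 3021874000, nat_lit 5254876800], [], [nat_lit 15441532282, nat_lit 16054238857, nat_lit 15961216372, nat_lit 16586655877, nat_lit 17907993788, nat_lit 18537107606, nat_lit 21841410914, nat_lit 20525423432], nat_lit 1271250, nat_lit 1271250, nat_lit 490000, nat_lit 1100001, nat_lit 1100001, nat_lit 1785000, [nat_lit 780000, nat_lit 1435000], [nat_lit 49, nat_lit 40, nat_lit 40, nat_lit 80, nat_lit 16, nat_lit 317, nat_lit 100, nat_lit 11]⟩, ⟨p062_k17, nat_lit 0, nat_lit 0, nat_lit 71, nat_lit 0, nat_lit 0, [nat_lit 4158256000, nat_lit 8729854000], [], [nat_lit 8592631944, nat_lit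 10202232776, nat_lit 9862610772, nat_lit 11284966882, nat_lit 22000627770, nat_lit 22870639792, nat_lit 21759591790, nat_lit 22536409619], nat_lit 0, nat_lit 0, nat_lit 0, nat_lit 0, nat_lit 0, nat_lit 0, [], [nat_lit 70, nat_lit 40, nat_lit 40, nat_lit 80, nat_lit 13, nat_lit 428, nat_lit 200, nat_lit 12]⟩,
 ⟨nat_lit 4743, nat_lit 5000, ⟨.ofNat (nat_lit 328569), .ofNat (nat_lit 471424), .ofNat (nat_lit 349996), .ofNat (nat_lit 492849), .ofNat (nat_lit 333875), .ofNat (nat_lit 473272), .ofNat (nat_lit 355361), .ofNat (nat_lit 494757)⟩, ⟨.ofNat (nat_lit 299999), .ofNat (nat_lit 442856), .ofNat (nat_lit 342856), .ofNat (nat_lit 485713), .ofNat (nat_lit 301370), .ofNat (nat_lit 440769), .ofNat (nat_lit 344346), .ofNat (nat_lit 483746)⟩⟩, [⟨nat_lit 7, nat_lit 72, nat_lit 100, nat_lit 89, nat_lit 452185057⟩, ⟨nat_lit 11, nat_lit 91, nat_lit 91, nat_lit 100, nat_lit 128197437⟩]⟩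
noncomputable def p062_l32 : Lf2 := ⟨nat_lit 0, nat_lit 5, [nat_lit 4, nat_lit 5, nat_lit 5, nat_lit 20], false, nat_lit 160, nat_lit 240, nat_lit 160, nat_lit 364, ⟨nat_lit 1000, nat_lit 0, nat_lit 0, nat_lit 0, nat_lit 0, nat_lit 0, nat_lit 0, nat_lit 0, nat_lit 0, nat_lit 0, nat_lit 0, nat_lit 0, nat_lit 0, nat_lit 0, nat_lit 0, nat_lit 0, false, false⟩,
 nat_lit 0, nat_lit 8207, nat_lit 0, nat_lit 0, nat_lit 5916, nat_lit 6099, nat_lit 1530, nat_lit 0, nat_lit 0, nat_lit 0, nat_lit 0, nat_lit 0, nat_lit 0, nat_lit 0, nat_lit 0, nat_lit 0, nat_lit 0, nat_lit 0, [],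
 ⟨p062_k18, nat_lit 0, nat_lit 0, nat_lit 233, nat_lit 0, nat_lit 524728, [nat_lit 3282000000, nat_lit 6250000000], [], [nat_lit 16451789830, nat_lit 17167756326, nat_lit 17014041786, nat_lit 17649839126, nat_lit 18985917874, nat_lit 19596369984, nat_lit 21008212526, nat_lit 19986995600], nat_lit 1271250, nat_lit 1271250, nat_lit 490000, nat_lit 1100001, nat_lit 1100001, nat_lit 1785000, [nat_lit 780000, nat_lit 1435000], [nat_lit 49, nat_lit 40, nat_lit 40, nat_lit 80, nat_lit 16, nat_lit 317, nat_lit 100, nat_lit 11]⟩, ⟨p062_k17, nat_lit 0, nat_lit 0, nat_lit 71, nat_lit 0, nat_lit 0, [nat_lit 4688000000, nat_lit 9842000000], [], [nat_lit 9685835700, nat_lit 11500656682, nat_lit 11117509752, nat_lit 12721206728, nat_lit 24803209434, nat_lit 25784118716, nat_lit 24531172480, nat_lit 25407003308], nat_lit 0, nat_lit 0, nat_lit 0, nat_lit 0, nat_lit 0, nat_lit 0, [], [nat_lit 70, nat_lit 40, nat_lit 40, nat_lit 80,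 nat_lit 13, nat_lit 428, nat_lit 200, nat_lit 12]⟩,
 zbF0, [⟨nat_lit 0, nat_lit 100, nat_lit 84, nat_lit 85, nat_lit 61685172⟩, ⟨nat_lit 19, nat_lit 100, nat_lit 72, nat_lit 89, nat_lit 435929327⟩, ⟨nat_lit 11, nat_lit 91, nat_lit 91, nat_lit 100, nat_lit 216858108⟩]⟩
noncomputable def p062_l33 : Lf2 := ⟨nat_lit 0, nat_lit 5, [nat_lit 4, nat_lit 5, nat_lit 5, nat_lit 20], false, nat_lit 160, nat_lit 240, nat_lit 160, nat_lit 336, ⟨nat_lit 1000, nat_lit 0, nat_lit 0, nat_lit 0, nat_lit 0, nat_lit 0, nat_lit 0, nat_lit 0, nat_lit 0, nat_lit 0, nat_lit 0, nat_lit 0, nat_lit 0, nat_lit 0, nat_lit 0, nat_lit 0, false, false⟩,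
 nat_lit 0, nat_lit 8976, nat_lit 0, nat_lit 0, nat_lit 6214, nat_lit 6496, nat_lit 2725, nat_lit 0, nat_lit 0, nat_lit 0, nat_lit 0, nat_lit 0, nat_lit 0, nat_lit 0, nat_lit 0, nat_lit 0, nat_lit 0, nat_lit 0, [],
 ⟨p062_k9, nat_lit 0, nat_lit 0, nat_lit 308, nat_lit 0, nat_lit 674044, [nat_lit 3282000000, nat_lit 6250000000], [], [nat_lit 15654922592, nat_lit 17146379584, nat_lit 16453380768, nat_lit 17775103976, nat_lit 18469506204, nat_lit 19737542824, nat_lit 20881265383, nat_lit 20023457136], nat_lit 1271250, nat_lit 1271250, nat_lit 490000, nat_lit 1100001, nat_lit 1100001, nat_lit 1785000, [nat_lit 780000, nat_lit 1435000], [nat_lit 49, nat_lit 40, nat_lit 40, nat_lit 80, nat_lit 16, nat_lit 317, nat_lit 100, nat_lit 11]⟩, ⟨p062_k19, nat_lit 0, nat_lit 0, nat_lit 59, nat_lit 0, nat_lit 0, [nat_lit 4688000000, nat_lit 7968000000], [], [nat_lit 10938948528, nat_lit 12824760256, nat_lit 12107632112, nat_lit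 13771444416, nat_lit 23078725700, nat_lit 24402858241, nat_lit 22849832145, nat_lit 23858130906], nat_lit 0, nat_lit 0, nat_lit 0, nat_lit 0, nat_lit 0, nat_lit 0, [], [nat_lit 39, nat_lit 40, nat_lit 40, nat_lit 80, nat_lit 7, nat_lit 345, nat_lit 125, nat_lit 11]⟩,
 zbF0, [⟨nat_lit 0, nat_lit 100, nat_lit 89, nat_lit 86, nat_lit 548620775⟩, ⟨nat_lit 19, nat_lit 100, nat_lit 77, nat_lit 91, nat_lit 626422365⟩]⟩
noncomputable def p062_l34 : Lf2 := ⟨nat_lit 0, nat_lit 5, [nat_lit 4, nat_lit 5, nat_lit 5, nat_lit 20], false, nat_lit 160, nat_lit 240, nat_lit 160, nat_lit 352, ⟨nat_lit 1000, nat_lit 0, nat_lit 0, nat_lit 0, nat_lit 0, nat_lit 0, nat_lit 0, nat_lit 0, nat_lit 0, nat_lit 0, nat_lit 0, nat_lit 0, nat_lit 0, nat_lit 0, nat_lit 0, nat_lit 0, false, false⟩,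
 nat_lit 0, nat_lit 8546, nat_lit 0, nat_lit 0, nat_lit 5916, nat_lit 6264, nat_lit 2428, nat_lit 0, nat_lit 0, nat_lit 0, nat_lit 0, nat_lit 0, nat_lit 0, nat_lit 0, nat_lit 0, nat_lit 0, nat_lit 0, nat_lit 0, [],
 ⟨p062_k9, nat_lit 0, nat_lit 0, nat_lit 246, nat_lit 0, nat_lit 568991, [nat_lit 3282000000, nat_lit 6250000000], [], [nat_lit 15465956176, nat_lit 16893125076, nat_lit 16103613196, nat_lit 17466988912, nat_lit 18196527232, nat_lit 19596369984, nat_lit 22090628852, nat_lit 19986995600], nat_lit 1271250, nat_lit 1271250, nat_lit 490000, nat_lit 1100001, nat_lit 1100001, nat_lit 1785000, [nat_lit 780000, nat_lit 1435000], [nat_lit 49, nat_lit 40, nat_lit 40, nat_lit 80, nat_lit 16, nat_lit 317, nat_lit 100, nat_lit 11]⟩, ⟨p062_k19, nat_lit 0, nat_lit 0, nat_lit 68, nat_lit 0, nat_lit 0, [nat_lit 4688000000, nat_lit 7968000000], [], [nat_lit 11267201152, nat_lit 13111527104, nat_lit 12466194608, nat_lit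 14094876544, nat_lit 24651141066, nat_lit 25862365888, nat_lit 24335808625, nat_lit 25266725677], nat_lit 0, nat_lit 0, nat_lit 0, nat_lit 0, nat_lit 0, nat_lit 0, [], [nat_lit 39, nat_lit 40, nat_lit 40, nat_lit 80, nat_lit 7, nat_lit 373, nat_lit 150, nat_lit 12]⟩,
 zbF0, [⟨nat_lit 0, nat_lit 100, nat_lit 89, nat_lit 86, nat_lit 423098224⟩, ⟨nat_lit 19, nat_lit 100, nat_lit 69, nat_lit 96, nat_lit 381991463⟩, ⟨nat_lit 11, nat_lit 91, nat_lit 91, nat_lit 100, nat_lit 16095027⟩, ⟨nat_lit 11, nat_lit 48, nat_lit 100, nat_lit 92, nat_lit 173978609⟩]⟩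
noncomputable def p062_l35 : Lf2 := ⟨nat_lit 0, nat_lit 10, [nat_lit 0, nat_lit 5, nat_lit 5, nat_lit 20], true, nat_lit 160, nat_lit 240, nat_lit 160, nat_lit 364, ⟨nat_lit 0, nat_lit 0, nat_lit 1000, nat_lit 6, nat_lit 166, nat_lit 1000, nat_lit 157, nat_lit 1000, nat_lit 59604, nat_lit 274, nat_lit 40017, nat_lit 264, nat_lit 48312847, nat_lit 0, nat_lit 0, nat_lit 4209041, false, false⟩,
 nat_lit 0, nat_lit 5150, nat_lit 0, nat_lit 0, nat_lit 3565, nat_lit 0, nat_lit 0, nat_lit 0, nat_lit 0, nat_lit 0, nat_lit 0, nat_lit 0, nat_lit 0, nat_lit 0, nat_lit 94, nat_lit 400000, nat_lit 0, nat_lit 0, [(nat_lit 15, [(nat_lit 5, nat_lit 1000)])],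
 ⟨p062_k2, nat_lit 0, nat_lit 0, nat_lit 163, nat_lit 0, nat_lit 255659, [nat_lit 2443200000, nat_lit 916400001, nat_lit 120399999], [], [nat_lit 14554475869, nat_lit 15702662659, nat_lit 15610315160, nat_lit 16877430720, nat_lit 17263347310, nat_lit 18479508340, nat_lit 18310746010, nat_lit 19405597960], nat_lit 1271250, nat_lit 1271250, nat_lit 490000, nat_lit 1100001, nat_lit 1100001, nat_lit 1785000, [nat_lit 780000, nat_lit 1435000, nat_lit 1271250], [nat_lit 18, nat_lit 40, nat_lit 40, nat_lit 80, nat_lit 2, nat_lit 317, nat_lit 100, nat_lit 10]⟩, C1.Rw.none,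
 ⟨nat_lit 4472, nat_lit 5000, ⟨.ofNat (nat_lit 328559), .ofNat (nat_lit 471408), .ofNat (nat_lit 349976), .ofNat (nat_lit 492824), .ofNat (nat_lit 339186), .ofNat (nat_lit 475134), .ofNat (nat_lit 360741), .ofNat (nat_lit 496688)⟩, ⟨.ofNat (nat_lit 299999), .ofNat (nat_lit 442856), .ofNat (nat_lit 342856), .ofNat (nat_lit 485713), .ofNat (nat_lit 302621), .ofNat (nat_lit 438578), .ofNat (nat_lit 345754), .ofNat (nat_lit 481711)⟩⟩, [⟨nat_lit 0, nat_lit 100, nat_lit 84, nat_lit 85, nat_lit 8845215⟩]⟩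
noncomputable def p062_l36 : Lf2 := ⟨nat_lit 0, nat_lit 10, [nat_lit 0, nat_lit 5, nat_lit 5, nat_lit 20], false, nat_lit 160, nat_lit 240, nat_lit 160, nat_lit 352, ⟨nat_lit 1000, nat_lit 0, nat_lit 0, nat_lit 0, nat_lit 0, nat_lit 0, nat_lit 0, nat_lit 0, nat_lit 0, nat_lit 0, nat_lit 0, nat_lit 0, nat_lit 0, nat_lit 0, nat_lit 0, nat_lit 0, false, false⟩,
 nat_lit 0, nat_lit 11099, nat_lit 0, nat_lit 0, nat_lit 7683, nat_lit 6257, nat_lit 1101, nat_lit 0, nat_lit 0, nat_lit 0, nat_lit 0, nat_lit 0, nat_lit 0, nat_lit 0, nat_lit 0, nat_lit 0, nat_lit 0, nat_lit 0, [],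
 ⟨p062_k2, nat_lit 0, nat_lit 0, nat_lit 215, nat_lit 0, nat_lit 390330, [nat_lit 3282000000, nat_lit 6250000000, nat_lit 7968000000], [], [nat_lit 16437222570, nat_lit 18076227386, nat_lit 16457011406, nat_lit 17905597734, nat_lit 19054860810, nat_lit 20434295726, nat_lit 20796655751, nat_lit 19974684140], nat_lit 1271250, nat_lit 1271250, nat_lit 490000, nat_lit 1100001, nat_lit 1100001, nat_lit 1785000, [nat_lit 780000, nat_lit 1435000, nat_lit 1271250], [nat_lit 18, nat_lit 40, nat_lit 40, nat_lit 80, nat_lit 2, nat_lit 317, nat_lit 100, nat_lit 10]⟩, ⟨p062_k5, nat_lit 0, nat_lit 0, nat_lit 100, nat_lit 0, nat_lit 0, [nat_lit 4688000000, nat_lit 7968000000, nat_lit 9842000000], [], [nat_lit 11277105326, nat_lit 13120179552, nat_lit 12477013304, nat_lit 14104635272, nat_lit 24653004883, nat_lit 25855034844, nat_lit 24339903162, nat_lit 25270397939], nat_lit 0, nat_lit 0, nat_lit 0, nat_lit 0, nat_lit 0, nat_lit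 0, [], [nat_lit 29, nat_lit 40, nat_lit 40, nat_lit 80, nat_lit 17, nat_lit 428, nat_lit 200, nat_lit 12]⟩,
 zbF0, [⟨nat_lit 0, nat_lit 100, nat_lit 89, nat_lit 86, nat_lit 500173048⟩, ⟨nat_lit 19, nat_lit 100, nat_lit 82, nat_lit 92, nat_lit 613007152⟩]⟩
noncomputable def p062_l37 : Lf2 := ⟨nat_lit 0, nat_lit 10, [nat_lit 0, nat_lit 5, nat_lit 5, nat_lit 20], false, nat_lit 160, nat_lit 240, nat_lit 0, nat_lit 364, ⟨nat_lit 1000, nat_lit 0, nat_lit 0, nat_lit 0, nat_lit 0, nat_lit 0, nat_lit 0, nat_lit 0, nat_lit 0, nat_lit 0, nat_lit 0, nat_lit 0, nat_lit 0, nat_lit 0, nat_lit 0, nat_lit 0, false, false⟩,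
 nat_lit 0, nat_lit 12285, nat_lit 0, nat_lit 2663, nat_lit 7817, nat_lit 7836, nat_lit 2291, nat_lit 0, nat_lit 0, nat_lit 2028, nat_lit 0, nat_lit 0, nat_lit 0, nat_lit 0, nat_lit 0, nat_lit 0, nat_lit 0, nat_lit 0, [],
 ⟨p062_k20, nat_lit 0, nat_lit 0, nat_lit 330, nat_lit 0, nat_lit 595349, [nat_lit 3282000000, nat_lit 4688000000, nat_lit 9842000000], [], [nat_lit 22017380619, nat_lit 18283293523, nat_lit 16447847968, nat_lit 17892760868, nat_lit 16447847968, nat_lit 17892760868, nat_lit 19294248816, nat_lit 21052880714], nat_lit 1271250, nat_lit 1271250, nat_lit 1271250, nat_lit 1271250, nat_lit 1271250, nat_lit 1271250, [nat_lit 780000, nat_lit 1100000, nat_lit 2127500], [nat_lit 42, nat_lit 40, nat_lit 40, nat_lit 80, nat_lit 13, nat_lit 345, nat_lit 125, nat_lit 9]⟩, ⟨p062_k21, nat_lit 0, nat_lit 0, nat_lit 193, nat_lit 0, nat_lit 0, [nat_lit 4688000000, nat_lit 6250000000, nat_lit 11872000000], [], [nat_lit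 22157701380, nat_lit 24949648836, nat_lit 24972944196, nat_lit 27268722708, nat_lit 26358072752, nat_lit 27532333284, nat_lit 27278698343, nat_lit 29144024803], nat_lit 0, nat_lit 0, nat_lit 0, nat_lit 0, nat_lit 0, nat_lit 0, [], [nat_lit 48, nat_lit 40, nat_lit 40, nat_lit 80, nat_lit 12, nat_lit 456, nat_lit 225, nat_lit 12]⟩,
 zbF0, [⟨nat_lit 7, nat_lit 77, nat_lit 100, nat_lit 91, nat_lit 254610029⟩]⟩
noncomputable def p062_l38 : Lf2 := ⟨nat_lit 0, nat_lit 10, [nat_lit 0, nat_lit 5, nat_lit 5, nat_lit 20], false, nat_lit 160, nat_lit 240, nat_lit 0, nat_lit 364, ⟨nat_lit 870, nat_lit 0, nat_lit 130, nat_lit 6, nat_lit 226, nat_lit 130, nat_lit 157, nat_lit 130, nat_lit 59604, nat_lit 274, nat_lit 42926, nat_lit 200, nat_lit 43384331, nat_lit 0, nat_lit 0, nat_lit 4721966, false, false⟩,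
 nat_lit 0, nat_lit 8944, nat_lit 0, nat_lit 0, nat_lit 6192, nat_lit 6820, nat_lit 1162, nat_lit 0, nat_lit 0, nat_lit 1846, nat_lit 0, nat_lit 0, nat_lit 0, nat_lit 0, nat_lit 0, nat_lit 130000, nat_lit 0, nat_lit 0, [(nat_lit 15, [(nat_lit 6, nat_lit 130)])],
 ⟨p062_k22, nat_lit 0, nat_lit 0, nat_lit 361, nat_lit 0, nat_lit 715926, [nat_lit 2982740000, nat_lit 4097020000, nat_lit 6249036000], [], [nat_lit 17153650972, nat_lit 18081353852, nat_lit 18785397472, nat_lit 19717367360, nat_lit 18785397472, nat_lit 19717367360, nat_lit 24980759356, nat_lit 22399354112], nat_lit 1271250, nat_lit 1271250, nat_lit 1100001, nat_lit 1785000, nat_lit 1100001, nat_lit 1785000, [nat_lit 780000, nat_lit 1100000, nat_lit 1785000], [nat_lit 36, nat_lit 40, nat_lit 40, nat_lit 80, nat_lit 7, nat_lit 345, nat_lit 125, nat_lit 10]⟩, ⟨p062_k21, nat_lit 0, nat_lit 0, nat_lit 193, nat_lit 0, nat_lit 0, [nat_lit 4078560000, nat_lit 5437500000,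 nat_lit 10328640000], [], [nat_lit 18886556090, nat_lit 21316076450, nat_lit 21336034570, nat_lit 23333746970, nat_lit 22539402474, nat_lit 23953575606, nat_lit 23730776555, nat_lit 25357254396], nat_lit 0, nat_lit 0, nat_lit 0, nat_lit 0, nat_lit 0, nat_lit 0, [], [nat_lit 48, nat_lit 40, nat_lit 40, nat_lit 80, nat_lit 12, nat_lit 456, nat_lit 225, nat_lit 12]⟩,
 ⟨nat_lit 4472, nat_lit 5000, ⟨.ofNat (nat_lit 471408), .ofNat (nat_lit 614256), .ofNat (nat_lit 514240), .ofNat (nat_lit 657088), .ofNat (nat_lit 475134), .ofNat (nat_lit 611081), .ofNat (nat_lit 518242), .ofNat (nat_lit 654189)⟩, ⟨.ofNat (nat_lit 299999), .ofNat (nat_lit 442856), .ofNat (nat_lit 342856), .ofNat (nat_lit 485713), .ofNat (nat_lit 302621), .ofNat (nat_lit 438578), .ofNat (nat_lit 345754), .ofNat (nat_lit 481711)⟩⟩, [⟨nat_lit 7, nat_lit 77, nat_lit 100, nat_lit 91, nat_lit 227465369⟩]⟩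
noncomputable def b_V_700_600_20_19 : St := ⟨true, nat_lit 1, nat_lit 0, nat_lit 1, nat_lit 120, nat_lit 280, nat_lit 320, nat_lit 240, nat_lit 280, nat_lit 36, nat_lit 240, nat_lit 80, nat_lit 120, nat_lit 160, nat_lit 240, nat_lit 0, nat_lit 364, nat_lit 0, nat_lit 40, nat_lit 0, nat_lit 0, nat_lit 0, nat_lit 0⟩
theorem d_V_700_600_20_19 (h : EB TB.env) : Dead b_V_700_600_20_19 := chkB_sound0 h (T :=
(.spl (nat_lit 2) (nat_lit 160)
(.spl (nat_lit 2) (nat_lit 80)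
(.spl (nat_lit 6) (nat_lit 20)
(.spl (nat_lit 1) (nat_lit 260)
(.leaf p062_l21)
(.trZ (nat_lit 0) (nat_lit 100) (nat_lit 96) (nat_lit 69) (nat_lit 48) (.trX (nat_lit 19) (nat_lit 100) (nat_lit 69) (nat_lit 96) (nat_lit 352) (.spl (nat_lit 0) (nat_lit 300)
(.leaf p062_l22)
(.trZ (nat_lit 0) (nat_lit 100) (nat_lit 91) (nat_lit 77) (nat_lit 64) (.leaf p062_l23))))))
(.leaf p062_l24))
(.spl (nat_lit 0) (nat_lit 300)
(.spl (nat_lit 5) (nat_lit 160)
(.leaf p062_l25)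
(.spl (nat_lit 6) (nat_lit 20)
(.spl (nat_lit 0) (nat_lit 290)
(.leaf p062_l26)
(.leaf p062_l27))
(.spl (nat_lit 0) (nat_lit 290)
(.leaf p062_l28)
(.leaf p062_l29))))
(.spl (nat_lit 5) (nat_lit 160)
(.leaf p062_l30)
(.spl (nat_lit 6) (nat_lit 20)
(.spl (nat_lit 1) (nat_lit 260)
(.spl (nat_lit 0) (nat_lit 310)
(.leaf p062_l31)
(.leaf p062_l32))
(.trX (nat_lit 19) (nat_lit 100) (nat_lit 69) (nat_lit 96) (nat_lit 352) (.spl (nat_lit 3) (nat_lit 100)
(.trX (nat_lit 19) (nat_lit 100) (nat_lit 77) (nat_lit 91) (nat_lit 336) (.leaf p062_l33))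
(.leaf p062_l34))))
(.spl (nat_lit 1) (nat_lit 260)
(.leaf p062_l35)
(.trX (nat_lit 19) (nat_lit 100) (nat_lit 69) (nat_lit 96) (nat_lit 352) (.leaf p062_l36)))))))
(.spl (nat_lit 0) (nat_lit 300)
(.leaf p062_l37)
(.leaf p062_l38)))) (by decide +kernel)
noncomputable def p062_l39 : Lf2 := ⟨nat_lit 0, nat_lit 10, [nat_lit 0, nat_lit 5, nat_lit 5, nat_lit 20], false, nat_lit 240, nat_lit 336, nat_lit 0, nat_lit 160, ⟨nat_lit 1000, nat_lit 0, nat_lit 0, nat_lit 0, nat_lit 0, nat_lit 0, nat_lit 0, nat_lit 0, nat_lit 0, nat_lit 0, nat_lit 0, nat_lit 0, nat_lit 0, nat_lit 0, nat_lit 0, nat_lit 0, false, false⟩,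
 nat_lit 0, nat_lit 12905, nat_lit 0, nat_lit 13059, nat_lit 8212, nat_lit 8773, nat_lit 1067, nat_lit 0, nat_lit 0, nat_lit 2014, nat_lit 0, nat_lit 0, nat_lit 0, nat_lit 0, nat_lit 0, nat_lit 0, nat_lit 0, nat_lit 0, [],
 ⟨p062_k0, nat_lit 0, nat_lit 0, nat_lit 240, nat_lit 0, nat_lit 253938, [nat_lit 3282000000, nat_lit 6250000000, nat_lit 9842000000], [], [nat_lit 22994450785, nat_lit 24216552374, nat_lit 21144983735, nat_lit 22313885199, nat_lit 28812499692, nat_lit 30661118656, nat_lit 26850075252, nat_lit 27922234405], nat_lit 1271250, nat_lit 1271250, nat_lit 205650, nat_lit 490000, nat_lit 1271250, nat_lit 1271250, [nat_lit 780000, nat_lit 1435000, nat_lit 1271250], [nat_lit 8, nat_lit 40, nat_lit 40, nat_lit 80, nat_lit 1, nat_lit 345, nat_lit 125, nat_lit 9]⟩, ⟨p062_k12, nat_lit 0, nat_lit 0, nat_lit 337, nat_lit 0, nat_lit 0, [nat_lit 4688000000, nat_lit 7968000000, nat_lit 11872000000], [], [nat_lit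 22373442440, nat_lit 24186932199, nat_lit 19404714652, nat_lit 21505729870, nat_lit 16335730413, nat_lit 18030587941, nat_lit 14720168212, nat_lit 16260940122], nat_lit 0, nat_lit 0, nat_lit 0, nat_lit 0, nat_lit 0, nat_lit 0, [], [nat_lit 21, nat_lit 40, nat_lit 40, nat_lit 80, nat_lit 14, nat_lit 345, nat_lit 125, nat_lit 9]⟩,
 zbF0, [⟨nat_lit 0, nat_lit 100, nat_lit 92, nat_lit 68, nat_lit 1361428004⟩, ⟨nat_lit 4, nat_lit 94, nat_lit 100, nat_lit 97, nat_lit 561898783⟩]⟩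
noncomputable def p062_l40 : Lf2 := ⟨nat_lit 0, nat_lit 10, [nat_lit 0, nat_lit 5, nat_lit 5, nat_lit 20], false, nat_lit 240, nat_lit 336, nat_lit 0, nat_lit 160, ⟨nat_lit 1000, nat_lit 0, nat_lit 0, nat_lit 0, nat_lit 0, nat_lit 0, nat_lit 0, nat_lit 0, nat_lit 0, nat_lit 0, nat_lit 0, nat_lit 0, nat_lit 0, nat_lit 0, nat_lit 0, nat_lit 0, false, false⟩,
 nat_lit 0, nat_lit 13110, nat_lit 0, nat_lit 9614, nat_lit 8342, nat_lit 8437, nat_lit 989, nat_lit 0, nat_lit 0, nat_lit 1968, nat_lit 0, nat_lit 0, nat_lit 0, nat_lit 0, nat_lit 0, nat_lit 0, nat_lit 0, nat_lit 0, [],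
 ⟨p062_k0, nat_lit 0, nat_lit 0, nat_lit 301, nat_lit 0, nat_lit 346917, [nat_lit 3282000000, nat_lit 6250000000, nat_lit 9842000000], [], [nat_lit 22683748886, nat_lit 23903651162, nat_lit 21424081385, nat_lit 22602917709, nat_lit 28005110538, nat_lit 29857159896, nat_lit 26659882340, nat_lit 27827911902], nat_lit 1271250, nat_lit 1271250, nat_lit 279600, nat_lit 490000, nat_lit 1271250, nat_lit 1271250, [nat_lit 780000, nat_lit 1435000, nat_lit 1271250], [nat_lit 8, nat_lit 40, nat_lit 40, nat_lit 80, nat_lit 1, nat_lit 345, nat_lit 125, nat_lit 9]⟩, ⟨p062_k5, nat_lit 0, nat_lit 0, nat_lit 213, nat_lit 0, nat_lit 0, [nat_lit 4688000000, nat_lit 7968000000, nat_lit 9842000000], [], [nat_lit 19949564517, nat_lit 22210243990, nat_lit 18296434030, nat_lit 20495268988, nat_lit 14709760740, nat_lit 16269374941, nat_lit 13684357818, nat_lit 15189288608], nat_lit 0, nat_lit 0, nat_lit 0, nat_lit 0, nat_lit 0, nat_lit 0,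 [], [nat_lit 29, nat_lit 40, nat_lit 40, nat_lit 80, nat_lit 17, nat_lit 373, nat_lit 150, nat_lit 11]⟩,
 zbF0, [⟨nat_lit 0, nat_lit 100, nat_lit 95, nat_lit 78, nat_lit 1178308636⟩, ⟨nat_lit 4, nat_lit 94, nat_lit 100, nat_lit 97, nat_lit 536639945⟩]⟩
noncomputable def p062_l41 : Lf2 := ⟨nat_lit 0, nat_lit 10, [nat_lit 0, nat_lit 5, nat_lit 5, nat_lit 20], false, nat_lit 240, nat_lit 336, nat_lit 160, nat_lit 240, ⟨nat_lit 1000, nat_lit 0, nat_lit 0, nat_lit 0, nat_lit 0, nat_lit 0, nat_lit 0, nat_lit 0, nat_lit 0, nat_lit 0, nat_lit 0, nat_lit 0, nat_lit 0, nat_lit 0, nat_lit 0, nat_lit 0, false, false⟩,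
 nat_lit 0, nat_lit 12905, nat_lit 0, nat_lit 0, nat_lit 8212, nat_lit 8094, nat_lit 1109, nat_lit 0, nat_lit 0, nat_lit 0, nat_lit 0, nat_lit 0, nat_lit 0, nat_lit 0, nat_lit 0, nat_lit 0, nat_lit 0, nat_lit 0, [],
 ⟨p062_k0, nat_lit 0, nat_lit 0, nat_lit 310, nat_lit 0, nat_lit 346917, [nat_lit 3282000000, nat_lit 6250000000, nat_lit 9842000000], [], [nat_lit 22725782035, nat_lit 24070336180, nat_lit 20879505216, nat_lit 22313877840, nat_lit 28812499692, nat_lit 30661118656, nat_lit 26850075252, nat_lit 27922234405], nat_lit 1271250, nat_lit 1271250, nat_lit 205650, nat_lit 490000, nat_lit 1271250, nat_lit 1271250, [nat_lit 780000, nat_lit 1435000, nat_lit 1271250], [nat_lit 8, nat_lit 40, nat_lit 40, nat_lit 80, nat_lit 1, nat_lit 345, nat_lit 125, nat_lit 9]⟩, ⟨p062_k12, nat_lit 0, nat_lit 0, nat_lit 59, nat_lit 0, nat_lit 0, [nat_lit 4688000000, nat_lit 7968000000, nat_lit 11872000000], [], [nat_lit 8070955597,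 nat_lit 13047667761, nat_lit 6506404200, nat_lit 10849529984, nat_lit 13806320447, nat_lit 18238367642, nat_lit 11687653128, nat_lit 15753709256], nat_lit 0, nat_lit 0, nat_lit 0, nat_lit 0, nat_lit 0, nat_lit 0, [], [nat_lit 21, nat_lit 40, nat_lit 40, nat_lit 80, nat_lit 14, nat_lit 373, nat_lit 150, nat_lit 9]⟩,
 zbF0, [⟨nat_lit 0, nat_lit 100, nat_lit 94, nat_lit 73, nat_lit 866080994⟩, ⟨nat_lit 16, nat_lit 100, nat_lit 94, nat_lit 97, nat_lit 301433367⟩, ⟨nat_lit 23, nat_lit 95, nat_lit 100, nat_lit 74, nat_lit 360105633⟩]⟩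
noncomputable def p062_l42 : Lf2 := ⟨nat_lit 0, nat_lit 7, [nat_lit 80, nat_lit 5, nat_lit 5, nat_lit 20], false, nat_lit 240, nat_lit 312, nat_lit 240, nat_lit 312, ⟨nat_lit 1000, nat_lit 0, nat_lit 0, nat_lit 0, nat_lit 0, nat_lit 0, nat_lit 0, nat_lit 0, nat_lit 0, nat_lit 0, nat_lit 0, nat_lit 0, nat_lit 0, nat_lit 0, nat_lit 0, nat_lit 0, false, false⟩,
 nat_lit 0, nat_lit 10160, nat_lit 0, nat_lit 547, nat_lit 6465, nat_lit 6859, nat_lit 1882, nat_lit 0, nat_lit 0, nat_lit 0, nat_lit 0, nat_lit 0, nat_lit 0, nat_lit 0, nat_lit 0, nat_lit 0, nat_lit 0, nat_lit 0, [],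
 ⟨p062_k23, nat_lit 0, nat_lit 0, nat_lit 191, nat_lit 0, nat_lit 246144, [nat_lit 3282000000, nat_lit 4688000000, nat_lit 7968000000], [], [nat_lit 18539105461, nat_lit 20083226393, nat_lit 17783224210, nat_lit 19192870815, nat_lit 24014112228, nat_lit 25760470236, nat_lit 22834509554, nat_lit 24530098119], nat_lit 1271250, nat_lit 1271250, nat_lit 205650, nat_lit 356250, nat_lit 1271250, nat_lit 1271250, [nat_lit 780000, nat_lit 1100000, nat_lit 1785000], [nat_lit 36, nat_lit 40, nat_lit 40, nat_lit 80, nat_lit 7, nat_lit 226, nat_lit 20, nat_lit 7]⟩, ⟨p062_k24, nat_lit 0, nat_lit 0, nat_lit 79, nat_lit 0, nat_lit 0, [nat_lit 4688000000, nat_lit 6250000000, nat_lit 9842000000], [], [nat_lit 14589746367, nat_lit 16271998214, nat_lit 13771084080, nat_lit 15418202536, nat_lit 21338715614, nat_lit 22888514774, nat_lit 20086857637, nat_lit 21613113960], nat_lit 0, nat_lit 0, nat_lit 0, nat_lit 0, nat_lit 0, nat_lit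 0, [], [nat_lit 11, nat_lit 40, nat_lit 40, nat_lit 80, nat_lit 1, nat_lit 401, nat_lit 175, nat_lit 11]⟩,
 zbF0, [⟨nat_lit 0, nat_lit 100, nat_lit 91, nat_lit 77, nat_lit 410003259⟩, ⟨nat_lit 11, nat_lit 100, nat_lit 100, nat_lit 76, nat_lit 362532533⟩, ⟨nat_lit 23, nat_lit 100, nat_lit 85, nat_lit 73, nat_lit 543525209⟩]⟩
noncomputable def p062_l43 : Lf2 := ⟨nat_lit 0, nat_lit 7, [nat_lit 80, nat_lit 5, nat_lit 5, nat_lit 20], false, nat_lit 240, nat_lit 336, nat_lit 240, nat_lit 336, ⟨nat_lit 1000, nat_lit 0, nat_lit 0, nat_lit 0, nat_lit 0, nat_lit 0, nat_lit 0, nat_lit 0, nat_lit 0, nat_lit 0, nat_lit 0, nat_lit 0, nat_lit 0, nat_lit 0, nat_lit 0, nat_lit 0, false, false⟩,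
 nat_lit 0, nat_lit 10160, nat_lit 0, nat_lit 0, nat_lit 6465, nat_lit 6353, nat_lit 1882, nat_lit 0, nat_lit 0, nat_lit 0, nat_lit 0, nat_lit 0, nat_lit 0, nat_lit 0, nat_lit 0, nat_lit 0, nat_lit 0, nat_lit 0, [],
 ⟨p062_k23, nat_lit 0, nat_lit 0, nat_lit 186, nat_lit 0, nat_lit 246144, [nat_lit 3282000000, nat_lit 4688000000, nat_lit 7968000000], [], [nat_lit 17783224210, nat_lit 19192870815, nat_lit 17428799880, nat_lit 18807826910, nat_lit 25256267599, nat_lit 26831454753, nat_lit 24375670000, nat_lit 25926070182], nat_lit 1271250, nat_lit 1271250, nat_lit 356250, nat_lit 490000, nat_lit 1271250, nat_lit 1271250, [nat_lit 780000, nat_lit 1100000, nat_lit 1785000], [nat_lit 36, nat_lit 40, nat_lit 40, nat_lit 80, nat_lit 7, nat_lit 226, nat_lit 20, nat_lit 7]⟩, ⟨p062_k24, nat_lit 0, nat_lit 0, nat_lit 78, nat_lit 0, nat_lit 0, [nat_lit 4688000000, nat_lit 6250000000, nat_lit 9842000000], [], [nat_lit 14341285360,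 nat_lit 15916661112, nat_lit 13884774236, nat_lit 15429579188, nat_lit 22635635698, nat_lit 23809248694, nat_lit 22015241204, nat_lit 23137902646], nat_lit 0, nat_lit 0, nat_lit 0, nat_lit 0, nat_lit 0, nat_lit 0, [], [nat_lit 11, nat_lit 40, nat_lit 40, nat_lit 80, nat_lit 1, nat_lit 401, nat_lit 175, nat_lit 11]⟩,
 zbF0, [⟨nat_lit 0, nat_lit 100, nat_lit 91, nat_lit 77, nat_lit 82344385⟩, ⟨nat_lit 11, nat_lit 98, nat_lit 100, nat_lit 83, nat_lit 793970929⟩]⟩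
noncomputable def p062_l44 : Lf2 := ⟨nat_lit 1, nat_lit 10, [nat_lit 0, nat_lit 5, nat_lit 5, nat_lit 20], false, nat_lit 240, nat_lit 336, nat_lit 240, nat_lit 336, zbN0,
 nat_lit 0, nat_lit 0, nat_lit 0, nat_lit 0, nat_lit 0, nat_lit 0, nat_lit 0, nat_lit 0, nat_lit 0, nat_lit 0, nat_lit 0, nat_lit 0, nat_lit 0, nat_lit 0, nat_lit 0, nat_lit 0, nat_lit 0, nat_lit 0, [],
 C1.Rw.none, C1.Rw.none,
 zbF0, []⟩
noncomputable def p062_l45 : Lf2 := ⟨nat_lit 0, nat_lit 10, [nat_lit 0, nat_lit 5, nat_lit 5, nat_lit 20], false, nat_lit 240, nat_lit 312, nat_lit 240, nat_lit 312, ⟨nat_lit 1000, nat_lit 0, nat_lit 0, nat_lit 0, nat_lit 0, nat_lit 0, nat_lit 0, nat_lit 0, nat_lit 0, nat_lit 0, nat_lit 0, nat_lit 0, nat_lit 0, nat_lit 0, nat_lit 0, nat_lit 0, false, false⟩,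
 nat_lit 0, nat_lit 14502, nat_lit 0, nat_lit 0, nat_lit 9228, nat_lit 6666, nat_lit 1149, nat_lit 0, nat_lit 0, nat_lit 0, nat_lit 0, nat_lit 0, nat_lit 0, nat_lit 0, nat_lit 0, nat_lit 0, nat_lit 0, nat_lit 0, [],
 ⟨p062_k0, nat_lit 0, nat_lit 0, nat_lit 296, nat_lit 0, nat_lit 346917, [nat_lit 3282000000, nat_lit 6250000000, nat_lit 9842000000], [], [nat_lit 20352798533, nat_lit 21896101687, nat_lit 19808809257, nat_lit 21381758164, nat_lit 25910618808, nat_lit 28083716626, nat_lit 25100546372, nat_lit 27251256905], nat_lit 1271250, nat_lit 1271250, nat_lit 279600, nat_lit 356250, nat_lit 1271250, nat_lit 1271250, [nat_lit 780000, nat_lit 1435000, nat_lit 1271250], [nat_lit 8, nat_lit 40, nat_lit 40, nat_lit 80, nat_lit 1, nat_lit 317, nat_lit 100, nat_lit 9]⟩, ⟨p062_k5, nat_lit 0, nat_lit 0, nat_lit 97, nat_lit 0, nat_lit 0, [nat_lit 4688000000, nat_lit 7968000000, nat_lit 9842000000], [], [nat_lit 15926624581,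 nat_lit 17565397285, nat_lit 15608326064, nat_lit 17228080208, nat_lit 21988946797, nat_lit 23505004107, nat_lit 21478452179, nat_lit 22980080427], nat_lit 0, nat_lit 0, nat_lit 0, nat_lit 0, nat_lit 0, nat_lit 0, [], [nat_lit 29, nat_lit 40, nat_lit 40, nat_lit 80, nat_lit 17, nat_lit 401, nat_lit 175, nat_lit 11]⟩,
 zbF0, [⟨nat_lit 0, nat_lit 100, nat_lit 95, nat_lit 78, nat_lit 1358079063⟩, ⟨nat_lit 11, nat_lit 100, nat_lit 100, nat_lit 76, nat_lit 854911127⟩]⟩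
noncomputable def p062_l46 : Lf2 := ⟨nat_lit 0, nat_lit 8, [nat_lit 50, nat_lit 5, nat_lit 5, nat_lit 20], false, nat_lit 240, nat_lit 336, nat_lit 240, nat_lit 336, ⟨nat_lit 1000, nat_lit 0, nat_lit 0, nat_lit 0, nat_lit 0, nat_lit 0, nat_lit 0, nat_lit 0, nat_lit 0, nat_lit 0, nat_lit 0, nat_lit 0, nat_lit 0, nat_lit 0, nat_lit 0, nat_lit 0, false, false⟩,
 nat_lit 0, nat_lit 11011, nat_lit 0, nat_lit 0, nat_lit 7006, nat_lit 6339, nat_lit 1783, nat_lit 0, nat_lit 0, nat_lit 0, nat_lit 0, nat_lit 0, nat_lit 0, nat_lit 0, nat_lit 0, nat_lit 0, nat_lit 0, nat_lit 0, [],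
 ⟨p062_k25, nat_lit 0, nat_lit 0, nat_lit 194, nat_lit 0, nat_lit 282955, [nat_lit 3282000000, nat_lit 4688000000, nat_lit 7968000000], [], [nat_lit 18505957432, nat_lit 19166067395, nat_lit 17954114864, nat_lit 18628785400, nat_lit 25833848504, nat_lit 26659029570, nat_lit 24850148641, nat_lit 25662189425], nat_lit 1271250, nat_lit 1271250, nat_lit 356250, nat_lit 490000, nat_lit 1271250, nat_lit 1271250, [nat_lit 780000, nat_lit 1100000, nat_lit 1785000], [nat_lit 36, nat_lit 40, nat_lit 40, nat_lit 80, nat_lit 7, nat_lit 226, nat_lit 20, nat_lit 7]⟩, ⟨p062_k26, nat_lit 0, nat_lit 0, nat_lit 85, nat_lit 0, nat_lit 0, [nat_lit 4688000000, nat_lit 6250000000, nat_lit 9842000000], [], [nat_lit 15930452456, nat_lit 17503843232, nat_lit 15445312444, nat_lit 16988182820, nat_lit 23795789217, nat_lit 25121747831, nat_lit 23143696193, nat_lit 24265191334], nat_lit 0, nat_lit 0, nat_lit 0, nat_lit 0, nat_lit 0, nat_lit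 0, [], [nat_lit 11, nat_lit 40, nat_lit 40, nat_lit 80, nat_lit 1, nat_lit 401, nat_lit 175, nat_lit 11]⟩,
 zbF0, [⟨nat_lit 0, nat_lit 100, nat_lit 97, nat_lit 84, nat_lit 359008666⟩, ⟨nat_lit 11, nat_lit 98, nat_lit 100, nat_lit 83, nat_lit 755315255⟩]⟩
noncomputable def p062_l47 : Lf2 := ⟨nat_lit 1, nat_lit 10, [nat_lit 0, nat_lit 5, nat_lit 5, nat_lit 20], false, nat_lit 240, nat_lit 336, nat_lit 240, nat_lit 336, zbN0,
 nat_lit 0, nat_lit 0, nat_lit 0, nat_lit 0, nat_lit 0, nat_lit 0, nat_lit 0, nat_lit 0, nat_lit 0, nat_lit 0, nat_lit 0, nat_lit 0, nat_lit 0, nat_lit 0, nat_lit 0, nat_lit 0, nat_lit 0, nat_lit 0, [],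
 C1.Rw.none, C1.Rw.none,
 zbF0, []⟩
noncomputable def p062_l48 : Lf2 := ⟨nat_lit 0, nat_lit 10, [nat_lit 0, nat_lit 5, nat_lit 5, nat_lit 20], false, nat_lit 240, nat_lit 328, nat_lit 240, nat_lit 336, ⟨nat_lit 1000, nat_lit 0, nat_lit 0, nat_lit 0, nat_lit 0, nat_lit 0, nat_lit 0, nat_lit 0, nat_lit 0, nat_lit 0, nat_lit 0, nat_lit 0, nat_lit 0, nat_lit 0, nat_lit 0, nat_lit 0, false, false⟩,
 nat_lit 0, nat_lit 11416, nat_lit 0, nat_lit 0, nat_lit 7581, nat_lit 6445, nat_lit 2077, nat_lit 0, nat_lit 0, nat_lit 0, nat_lit 0, nat_lit 0, nat_lit 0, nat_lit 0, nat_lit 0, nat_lit 0, nat_lit 0, nat_lit 0, [],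
 ⟨p062_k1, nat_lit 0, nat_lit 0, nat_lit 241, nat_lit 0, nat_lit 328729, [nat_lit 3282000000, nat_lit 6250000000, nat_lit 7968000000], [], [nat_lit 19447175195, nat_lit 20146585703, nat_lit 18820423914, nat_lit 19504844920, nat_lit 26378596241, nat_lit 27270679541, nat_lit 25288303844, nat_lit 26165762454], nat_lit 1271250, nat_lit 1271250, nat_lit 356250, nat_lit 490000, nat_lit 1271250, nat_lit 1271250, [nat_lit 780000, nat_lit 1435000, nat_lit 1271250], [nat_lit 18, nat_lit 40, nat_lit 40, nat_lit 80, nat_lit 2, nat_lit 226, nat_lit 20, nat_lit 7]⟩, ⟨p062_k5, nat_lit 0, nat_lit 0, nat_lit 105, nat_lit 0, nat_lit 0, [nat_lit 4688000000, nat_lit 7968000000, nat_lit 9842000000], [], [nat_lit 15826032280, nat_lit 17414452160, nat_lit 15326189220, nat_lit 16883707100, nat_lit 23897696684, nat_lit 25234915255, nat_lit 23099830765, nat_lit 24358129200], nat_lit 0, nat_lit 0, nat_lit 0, nat_lit 0, nat_lit 0, nat_lit 0,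 [], [nat_lit 29, nat_lit 40, nat_lit 40, nat_lit 80, nat_lit 17, nat_lit 401, nat_lit 175, nat_lit 11]⟩,
 zbF0, [⟨nat_lit 0, nat_lit 100, nat_lit 94, nat_lit 88, nat_lit 381376119⟩, ⟨nat_lit 11, nat_lit 98, nat_lit 100, nat_lit 83, nat_lit 767776876⟩]⟩
noncomputable def p062_l49 : Lf2 := ⟨nat_lit 0, nat_lit 10, [nat_lit 0, nat_lit 5, nat_lit 5, nat_lit 20], false, nat_lit 240, nat_lit 336, nat_lit 0, nat_lit 160, ⟨nat_lit 1000, nat_lit 0, nat_lit 0, nat_lit 0, nat_lit 0, nat_lit 0, nat_lit 0, nat_lit 0, nat_lit 0, nat_lit 0, nat_lit 0, nat_lit 0, nat_lit 0, nat_lit 0, nat_lit 0, nat_lit 0, false, false⟩,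
 nat_lit 0, nat_lit 10827, nat_lit 0, nat_lit 12826, nat_lit 6889, nat_lit 8604, nat_lit 1542, nat_lit 0, nat_lit 0, nat_lit 3580, nat_lit 0, nat_lit 0, nat_lit 0, nat_lit 0, nat_lit 0, nat_lit 0, nat_lit 0, nat_lit 0, [],
 ⟨p062_k20, nat_lit 0, nat_lit 0, nat_lit 357, nat_lit 0, nat_lit 595349, [nat_lit 3282000000, nat_lit 4688000000, nat_lit 9842000000], [], [nat_lit 21446963894, nat_lit 22405423542, nat_lit 21089208054, nat_lit 21938196984, nat_lit 25459144188, nat_lit 26358799759, nat_lit 24963831195, nat_lit 25813556222], nat_lit 1271250, nat_lit 1271250, nat_lit 490000, nat_lit 1100001, nat_lit 1271250, nat_lit 1271250, [nat_lit 780000, nat_lit 1100000, nat_lit 2127500], [nat_lit 42, nat_lit 40, nat_lit 40, nat_lit 80, nat_lit 13, nat_lit 345, nat_lit 125, nat_lit 9]⟩, ⟨p062_k21, nat_lit 0, nat_lit 0, nat_lit 220, nat_lit 0, nat_lit 0, [nat_lit 4688000000, nat_lit 6250000000, nat_lit 11872000000], [], [nat_lit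 15592323796, nat_lit 18912586048, nat_lit 15089804768, nat_lit 19130579040, nat_lit 10839158832, nat_lit 14224856624, nat_lit 11521353168, nat_lit 14478725312], nat_lit 0, nat_lit 0, nat_lit 0, nat_lit 0, nat_lit 0, nat_lit 0, [], [nat_lit 48, nat_lit 40, nat_lit 40, nat_lit 80, nat_lit 12, nat_lit 373, nat_lit 150, nat_lit 10]⟩,
 zbF0, [⟨nat_lit 0, nat_lit 100, nat_lit 94, nat_lit 88, nat_lit 323056408⟩, ⟨nat_lit 4, nat_lit 94, nat_lit 100, nat_lit 97, nat_lit 467928183⟩]⟩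
noncomputable def p062_l50 : Lf2 := ⟨nat_lit 0, nat_lit 7, [nat_lit 80, nat_lit 5, nat_lit 5, nat_lit 20], false, nat_lit 240, nat_lit 336, nat_lit 160, nat_lit 364, ⟨nat_lit 1000, nat_lit 0, nat_lit 0, nat_lit 0, nat_lit 0, nat_lit 0, nat_lit 0, nat_lit 0, nat_lit 0, nat_lit 0, nat_lit 0, nat_lit 0, nat_lit 0, nat_lit 0, nat_lit 0, nat_lit 0, false, false⟩,
 nat_lit 0, nat_lit 10461, nat_lit 0, nat_lit 0, nat_lit 6657, nat_lit 6099, nat_lit 1685, nat_lit 0, nat_lit 0, nat_lit 0, nat_lit 0, nat_lit 0, nat_lit 0, nat_lit 0, nat_lit 0, nat_lit 0, nat_lit 0, nat_lit 0, [],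
 ⟨p062_k23, nat_lit 0, nat_lit 0, nat_lit 192, nat_lit 0, nat_lit 312242, [nat_lit 3282000000, nat_lit 4688000000, nat_lit 7968000000], [], [nat_lit 18959939952, nat_lit 19534649800, nat_lit 19208498048, nat_lit 19790320444, nat_lit 24767736178, nat_lit 25332445372, nat_lit 24422703983, nat_lit 24925179494], nat_lit 1271250, nat_lit 1271250, nat_lit 490000, nat_lit 1100001, nat_lit 1271250, nat_lit 1271250, [nat_lit 780000, nat_lit 1100000, nat_lit 1785000], [nat_lit 36, nat_lit 40, nat_lit 40, nat_lit 80, nat_lit 7, nat_lit 249, nat_lit 40, nat_lit 7]⟩, ⟨p062_k24, nat_lit 0, nat_lit 0, nat_lit 85, nat_lit 0, nat_lit 0, [nat_lit 4688000000, nat_lit 6250000000, nat_lit 9842000000], [], [nat_lit 9685835700, nat_lit 11500656682, nat_lit 11117509752, nat_lit 12721206728, nat_lit 24803209434, nat_lit 25784118716, nat_lit 24531172480, nat_lit 25407003308], nat_lit 0, nat_lit 0, nat_lit 0, nat_lit 0, nat_lit 0, nat_lit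 0, [], [nat_lit 11, nat_lit 40, nat_lit 40, nat_lit 80, nat_lit 1, nat_lit 428, nat_lit 200, nat_lit 12]⟩,
 zbF0, [⟨nat_lit 23, nat_lit 98, nat_lit 83, nat_lit 100, nat_lit 216681018⟩, ⟨nat_lit 11, nat_lit 91, nat_lit 91, nat_lit 100, nat_lit 406622429⟩]⟩
noncomputable def p062_l51 : Lf2 := ⟨nat_lit 0, nat_lit 7, [nat_lit 80, nat_lit 5, nat_lit 5, nat_lit 20], false, nat_lit 240, nat_lit 328, nat_lit 160, nat_lit 364, ⟨nat_lit 1000, nat_lit 0, nat_lit 0, nat_lit 0, nat_lit 0, nat_lit 0, nat_lit 0, nat_lit 0, nat_lit 0, nat_lit 0, nat_lit 0, nat_lit 0, nat_lit 0, nat_lit 0, nat_lit 0, nat_lit 0, false, false⟩,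
 nat_lit 0, nat_lit 8654, nat_lit 0, nat_lit 0, nat_lit 5747, nat_lit 6099, nat_lit 2589, nat_lit 0, nat_lit 0, nat_lit 0, nat_lit 0, nat_lit 0, nat_lit 0, nat_lit 0, nat_lit 0, nat_lit 0, nat_lit 0, nat_lit 0, [],
 ⟨p062_k27, nat_lit 0, nat_lit 0, nat_lit 249, nat_lit 0, nat_lit 390773, [nat_lit 3282000000, nat_lit 4688000000, nat_lit 7968000000], [], [nat_lit 19453277050, nat_lit 20059695170, nat_lit 19900327974, nat_lit 20440264890, nat_lit 23971451910, nat_lit 24453288124, nat_lit 23923053089, nat_lit 24353473536], nat_lit 1271250, nat_lit 1271250, nat_lit 490000, nat_lit 1100001, nat_lit 1271250, nat_lit 1271250, [nat_lit 780000, nat_lit 1100000, nat_lit 1785000], [nat_lit 36, nat_lit 40, nat_lit 40, nat_lit 80, nat_lit 7, nat_lit 249, nat_lit 40, nat_lit 7]⟩, ⟨p062_k24, nat_lit 0, nat_lit 0, nat_lit 85, nat_lit 0, nat_lit 0, [nat_lit 4688000000, nat_lit 6250000000, nat_lit 9842000000], [], [nat_lit 9685835700,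 nat_lit 11500656682, nat_lit 11117509752, nat_lit 12721206728, nat_lit 24803209434, nat_lit 25784118716, nat_lit 24531172480, nat_lit 25407003308], nat_lit 0, nat_lit 0, nat_lit 0, nat_lit 0, nat_lit 0, nat_lit 0, [], [nat_lit 11, nat_lit 40, nat_lit 40, nat_lit 80, nat_lit 1, nat_lit 428, nat_lit 200, nat_lit 12]⟩,
 zbF0, [⟨nat_lit 23, nat_lit 99, nat_lit 82, nat_lit 100, nat_lit 527821296⟩, ⟨nat_lit 11, nat_lit 91, nat_lit 91, nat_lit 100, nat_lit 68983402⟩]⟩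
noncomputable def p062_l52 : Lf2 := ⟨nat_lit 1, nat_lit 10, [nat_lit 0, nat_lit 5, nat_lit 5, nat_lit 20], false, nat_lit 240, nat_lit 336, nat_lit 160, nat_lit 364, zbN0,
 nat_lit 0, nat_lit 0, nat_lit 0, nat_lit 0, nat_lit 0, nat_lit 0, nat_lit 0, nat_lit 0, nat_lit 0, nat_lit 0, nat_lit 0, nat_lit 0, nat_lit 0, nat_lit 0, nat_lit 0, nat_lit 0, nat_lit 0, nat_lit 0, [],
 C1.Rw.none, C1.Rw.none,
 zbF0, []⟩
noncomputable def p062_l53 : Lf2 := ⟨nat_lit 0, nat_lit 8, [nat_lit 50, nat_lit 5, nat_lit 5, nat_lit 20], false, nat_lit 240, nat_lit 336, nat_lit 160, nat_lit 240, ⟨nat_lit 1000, nat_lit 0, nat_lit 0, nat_lit 0, nat_lit 0, nat_lit 0, nat_lit 0, nat_lit 0, nat_lit 0, nat_lit 0, nat_lit 0, nat_lit 0, nat_lit 0, nat_lit 0, nat_lit 0, nat_lit 0, false, false⟩,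
 nat_lit 0, nat_lit 10461, nat_lit 0, nat_lit 0, nat_lit 6657, nat_lit 7620, nat_lit 1685, nat_lit 0, nat_lit 0, nat_lit 0, nat_lit 0, nat_lit 0, nat_lit 0, nat_lit 0, nat_lit 0, nat_lit 0, nat_lit 0, nat_lit 0, [],
 ⟨p062_k25, nat_lit 0, nat_lit 0, nat_lit 282, nat_lit 0, nat_lit 489815, [nat_lit 3282000000, nat_lit 4688000000, nat_lit 7968000000], [], [nat_lit 18959939952, nat_lit 19534649800, nat_lit 19208498048, nat_lit 19790320444, nat_lit 24767736178, nat_lit 25332445372, nat_lit 24422703983, nat_lit 24925179494], nat_lit 1271250, nat_lit 1271250, nat_lit 490000, nat_lit 1100001, nat_lit 1271250, nat_lit 1271250, [nat_lit 780000, nat_lit 1100000, nat_lit 1785000], [nat_lit 36, nat_lit 40, nat_lit 40, nat_lit 80, nat_lit 7, nat_lit 249, nat_lit 40, nat_lit 7]⟩, ⟨p062_k26, nat_lit 0, nat_lit 0, nat_lit 7, nat_lit 0, nat_lit 0, [nat_lit 4688000000, nat_lit 6250000000, nat_lit 9842000000], [], [nat_lit 9348621160,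 nat_lit 11435424320, nat_lit 10370458640, nat_lit 12204471520, nat_lit 14005719520, nat_lit 15725603600, nat_lit 14437703640, nat_lit 15950664400], nat_lit 0, nat_lit 0, nat_lit 0, nat_lit 0, nat_lit 0, nat_lit 0, [], [nat_lit 11, nat_lit 40, nat_lit 40, nat_lit 80, nat_lit 1, nat_lit 401, nat_lit 175, nat_lit 11]⟩,
 zbF0, [⟨nat_lit 16, nat_lit 100, nat_lit 80, nat_lit 100, nat_lit 50949051⟩, ⟨nat_lit 4, nat_lit 91, nat_lit 100, nat_lit 96, nat_lit 519711046⟩]⟩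
noncomputable def p062_l54 : Lf2 := ⟨nat_lit 0, nat_lit 8, [nat_lit 50, nat_lit 5, nat_lit 5, nat_lit 20], false, nat_lit 240, nat_lit 320, nat_lit 240, nat_lit 280, ⟨nat_lit 1000, nat_lit 0, nat_lit 0, nat_lit 0, nat_lit 0, nat_lit 0, nat_lit 0, nat_lit 0, nat_lit 0, nat_lit 0, nat_lit 0, nat_lit 0, nat_lit 0, nat_lit 0, nat_lit 0, nat_lit 0, false, false⟩,
 nat_lit 0, nat_lit 10893, nat_lit 0, nat_lit 0, nat_lit 6931, nat_lit 7059, nat_lit 1760, nat_lit 0, nat_lit 0, nat_lit 0, nat_lit 0, nat_lit 0, nat_lit 0, nat_lit 0, nat_lit 0, nat_lit 0, nat_lit 0, nat_lit 0, [],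
 ⟨p062_k25, nat_lit 0, nat_lit 0, nat_lit 256, nat_lit 0, nat_lit 428895, [nat_lit 3282000000, nat_lit 4688000000, nat_lit 7968000000], [], [nat_lit 18164866564, nat_lit 18487710020, nat_lit 18427067584, nat_lit 18724284618, nat_lit 23133678212, nat_lit 23437424583, nat_lit 22841939180, nat_lit 23111689013], nat_lit 1271250, nat_lit 1271250, nat_lit 490000, nat_lit 1100001, nat_lit 1271250, nat_lit 1271250, [nat_lit 780000, nat_lit 1100000, nat_lit 1785000], [nat_lit 36, nat_lit 40, nat_lit 40, nat_lit 80, nat_lit 7, nat_lit 249, nat_lit 40, nat_lit 7]⟩, ⟨p062_k26, nat_lit 0, nat_lit 0, nat_lit 35, nat_lit 0, nat_lit 0, [nat_lit 4688000000, nat_lit 6250000000, nat_lit 9842000000], [], [nat_lit 14636173564, nat_lit 16278536420, nat_lit 15175630698, nat_lit 16623516580, nat_lit 17944096777, nat_lit 19394930846, nat_lit 18101040378, nat_lit 19382358892], nat_lit 0, nat_lit 0, nat_lit 0, nat_lit 0, nat_lit 0, nat_lit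 0, [], [nat_lit 11, nat_lit 40, nat_lit 40, nat_lit 80, nat_lit 1, nat_lit 428, nat_lit 200, nat_lit 12]⟩,
 zbF0, [⟨nat_lit 16, nat_lit 100, nat_lit 93, nat_lit 92, nat_lit 601539027⟩]⟩
noncomputable def p062_l55 : Lf2 := ⟨nat_lit 0, nat_lit 8, [nat_lit 50, nat_lit 5, nat_lit 5, nat_lit 20], false, nat_lit 240, nat_lit 320, nat_lit 280, nat_lit 336, ⟨nat_lit 1000, nat_lit 0, nat_lit 0, nat_lit 0, nat_lit 0, nat_lit 0, nat_lit 0, nat_lit 0, nat_lit 0, nat_lit 0, nat_lit 0, nat_lit 0, nat_lit 0, nat_lit 0, nat_lit 0, nat_lit 0, false, false⟩,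
 nat_lit 0, nat_lit 10928, nat_lit 0, nat_lit 0, nat_lit 6954, nat_lit 7059, nat_lit 3059, nat_lit 0, nat_lit 0, nat_lit 0, nat_lit 0, nat_lit 0, nat_lit 0, nat_lit 0, nat_lit 0, nat_lit 0, nat_lit 0, nat_lit 0, [],
 ⟨p062_k25, nat_lit 0, nat_lit 0, nat_lit 250, nat_lit 0, nat_lit 410824, [nat_lit 3282000000, nat_lit 4688000000, nat_lit 7968000000], [], [nat_lit 18091001760, nat_lit 18292828212, nat_lit 18361473056, nat_lit 18540120870, nat_lit 23099450808, nat_lit 23282019357, nat_lit 22801362120, nat_lit 22963479153], nat_lit 1271250, nat_lit 1271250, nat_lit 490000, nat_lit 1100001, nat_lit 1271250, nat_lit 1271250, [nat_lit 780000, nat_lit 1100000, nat_lit 1785000], [nat_lit 36, nat_lit 40, nat_lit 40, nat_lit 80, nat_lit 7, nat_lit 249, nat_lit 40, nat_lit 7]⟩, ⟨p062_k26, nat_lit 0, nat_lit 0, nat_lit 71, nat_lit 0, nat_lit 0, [nat_lit 4688000000, nat_lit 6250000000, nat_lit 9842000000], [], [nat_lit 17944096777,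 nat_lit 19394930846, nat_lit 18101040378, nat_lit 19382358892, nat_lit 23513591345, nat_lit 24896631760, nat_lit 22879078369, nat_lit 24113994866], nat_lit 0, nat_lit 0, nat_lit 0, nat_lit 0, nat_lit 0, nat_lit 0, [], [nat_lit 11, nat_lit 40, nat_lit 40, nat_lit 80, nat_lit 1, nat_lit 345, nat_lit 125, nat_lit 9]⟩,
 zbF0, [⟨nat_lit 16, nat_lit 100, nat_lit 92, nat_lit 91, nat_lit 39162600⟩, ⟨nat_lit 7, nat_lit 86, nat_lit 100, nat_lit 89, nat_lit 206133249⟩, ⟨nat_lit 11, nat_lit 92, nat_lit 100, nat_lit 91, nat_lit 621369858⟩]⟩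
noncomputable def p062_l56 : Lf2 := ⟨nat_lit 0, nat_lit 8, [nat_lit 50, nat_lit 5, nat_lit 5, nat_lit 20], false, nat_lit 240, nat_lit 320, nat_lit 280, nat_lit 336, ⟨nat_lit 1000, nat_lit 0, nat_lit 0, nat_lit 0, nat_lit 0, nat_lit 0, nat_lit 0, nat_lit 0, nat_lit 0, nat_lit 0, nat_lit 0, nat_lit 0, nat_lit 0, nat_lit 0, nat_lit 0, nat_lit 0, false, false⟩,
 nat_lit 0, nat_lit 10218, nat_lit 0, nat_lit 0, nat_lit 6587, nat_lit 7059, nat_lit 2900, nat_lit 0, nat_lit 0, nat_lit 0, nat_lit 0, nat_lit 0, nat_lit 0, nat_lit 0, nat_lit 0, nat_lit 0, nat_lit 0, nat_lit 0, [],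
 ⟨p062_k28, nat_lit 0, nat_lit 0, nat_lit 253, nat_lit 0, nat_lit 421120, [nat_lit 3282000000, nat_lit 4688000000, nat_lit 7968000000], [], [nat_lit 18498282636, nat_lit 18628799540, nat_lit 18820463699, nat_lit 18936183786, nat_lit 23061802005, nat_lit 23180102591, nat_lit 22845435372, nat_lit 22950671713], nat_lit 1271250, nat_lit 1271250, nat_lit 490000, nat_lit 1100001, nat_lit 1271250, nat_lit 1271250, [nat_lit 780000, nat_lit 1100000, nat_lit 1785000], [nat_lit 36, nat_lit 40, nat_lit 40, nat_lit 80, nat_lit 7, nat_lit 249, nat_lit 40, nat_lit 7]⟩, ⟨p062_k26, nat_lit 0, nat_lit 0, nat_lit 71, nat_lit 0, nat_lit 0, [nat_lit 4688000000, nat_lit 6250000000, nat_lit 9842000000], [], [nat_lit 17944096777, nat_lit 19394930846, nat_lit 18101040378, nat_lit 19382358892, nat_lit 23513591345, nat_lit 24896631760, nat_lit 22879078369, nat_lit 24113994866], nat_lit 0, nat_lit 0, nat_lit 0, nat_lit 0, nat_lit 0, nat_lit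 0, [], [nat_lit 11, nat_lit 40, nat_lit 40, nat_lit 80, nat_lit 1, nat_lit 345, nat_lit 125, nat_lit 9]⟩,
 zbF0, [⟨nat_lit 16, nat_lit 100, nat_lit 94, nat_lit 92, nat_lit 14385270⟩, ⟨nat_lit 19, nat_lit 100, nat_lit 86, nat_lit 89, nat_lit 212217586⟩, ⟨nat_lit 11, nat_lit 92, nat_lit 100, nat_lit 91, nat_lit 615419242⟩]⟩
noncomputable def p062_l57 : Lf2 := ⟨nat_lit 0, nat_lit 8, [nat_lit 50, nat_lit 5, nat_lit 5, nat_lit 20], false, nat_lit 240, nat_lit 336, nat_lit 240, nat_lit 352, ⟨nat_lit 1000, nat_lit 0, nat_lit 0, nat_lit 0, nat_lit 0, nat_lit 0, nat_lit 0, nat_lit 0, nat_lit 0, nat_lit 0, nat_lit 0, nat_lit 0, nat_lit 0, nat_lit 0, nat_lit 0, nat_lit 0, false, false⟩,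
 nat_lit 0, nat_lit 9888, nat_lit 0, nat_lit 0, nat_lit 6292, nat_lit 6129, nat_lit 1698, nat_lit 0, nat_lit 0, nat_lit 0, nat_lit 0, nat_lit 0, nat_lit 0, nat_lit 0, nat_lit 0, nat_lit 0, nat_lit 0, nat_lit 0, [],
 ⟨p062_k25, nat_lit 0, nat_lit 0, nat_lit 189, nat_lit 0, nat_lit 308075, [nat_lit 3282000000, nat_lit 4688000000, nat_lit 7968000000], [], [nat_lit 17878006144, nat_lit 18217825134, nat_lit 18394514336, nat_lit 18695883716, nat_lit 24280725661, nat_lit 24606234634, nat_lit 23989553092, nat_lit 24280336372], nat_lit 1271250, nat_lit 1271250, nat_lit 490000, nat_lit 1100001, nat_lit 1271250, nat_lit 1271250, [nat_lit 780000, nat_lit 1100000, nat_lit 1785000], [nat_lit 36, nat_lit 40, nat_lit 40, nat_lit 80, nat_lit 7, nat_lit 249, nat_lit 40, nat_lit 7]⟩, ⟨p062_k26, nat_lit 0, nat_lit 0, nat_lit 82, nat_lit 0, nat_lit 0, [nat_lit 4688000000, nat_lit 6250000000, nat_lit 9842000000], [], [nat_lit 15681311284,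 nat_lit 17195163020, nat_lit 16398932238, nat_lit 17738939980, nat_lit 24687086112, nat_lit 25721898228, nat_lit 24414774715, nat_lit 25337547865], nat_lit 0, nat_lit 0, nat_lit 0, nat_lit 0, nat_lit 0, nat_lit 0, [], [nat_lit 11, nat_lit 40, nat_lit 40, nat_lit 80, nat_lit 1, nat_lit 428, nat_lit 200, nat_lit 12]⟩,
 zbF0, [⟨nat_lit 23, nat_lit 98, nat_lit 83, nat_lit 100, nat_lit 241693681⟩, ⟨nat_lit 11, nat_lit 91, nat_lit 91, nat_lit 100, nat_lit 417687151⟩]⟩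
noncomputable def p062_l58 : Lf2 := ⟨nat_lit 0, nat_lit 8, [nat_lit 50, nat_lit 5, nat_lit 5, nat_lit 20], false, nat_lit 240, nat_lit 316, nat_lit 240, nat_lit 336, ⟨nat_lit 1000, nat_lit 0, nat_lit 0, nat_lit 0, nat_lit 0, nat_lit 0, nat_lit 0, nat_lit 0, nat_lit 0, nat_lit 0, nat_lit 0, nat_lit 0, nat_lit 0, nat_lit 0, nat_lit 0, nat_lit 0, false, false⟩,
 nat_lit 0, nat_lit 9737, nat_lit 0, nat_lit 0, nat_lit 6330, nat_lit 6339, nat_lit 2955, nat_lit 0, nat_lit 0, nat_lit 0, nat_lit 0, nat_lit 0, nat_lit 0, nat_lit 0, nat_lit 0, nat_lit 0, nat_lit 0, nat_lit 0, [],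
 ⟨p062_k29, nat_lit 0, nat_lit 0, nat_lit 260, nat_lit 0, nat_lit 442809, [nat_lit 3282000000, nat_lit 4688000000, nat_lit 7968000000], [], [nat_lit 18679024850, nat_lit 18870562790, nat_lit 19039310490, nat_lit 19209341862, nat_lit 22740672164, nat_lit 22897341440, nat_lit 22637708055, nat_lit 22777111862], nat_lit 1271250, nat_lit 1271250, nat_lit 490000, nat_lit 1100001, nat_lit 1271250, nat_lit 1271250, [nat_lit 780000, nat_lit 1100000, nat_lit 1785000], [nat_lit 36, nat_lit 40, nat_lit 40, nat_lit 80, nat_lit 7, nat_lit 249, nat_lit 40, nat_lit 7]⟩, ⟨p062_k26, nat_lit 0, nat_lit 0, nat_lit 71, nat_lit 0, nat_lit 0, [nat_lit 4688000000, nat_lit 6250000000, nat_lit 9842000000], [], [nat_lit 15445312444, nat_lit 16988182820, nat_lit 16122702858, nat_lit 17487070180, nat_lit 23143696193, nat_lit 24265191334, nat_lit 22961715996, nat_lit 23959274451], nat_lit 0, nat_lit 0, nat_lit 0, nat_lit 0, nat_lit 0, nat_lit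 0, [], [nat_lit 11, nat_lit 40, nat_lit 40, nat_lit 80, nat_lit 1, nat_lit 428, nat_lit 200, nat_lit 12]⟩,
 zbF0, [⟨nat_lit 7, nat_lit 86, nat_lit 100, nat_lit 89, nat_lit 128649100⟩, ⟨nat_lit 11, nat_lit 98, nat_lit 100, nat_lit 82, nat_lit 271235188⟩, ⟨nat_lit 11, nat_lit 91, nat_lit 91, nat_lit 100, nat_lit 318682537⟩]⟩
noncomputable def p062_l59 : Lf2 := ⟨nat_lit 0, nat_lit 8, [nat_lit 50, nat_lit 5, nat_lit 5, nat_lit 20], false, nat_lit 240, nat_lit 312, nat_lit 240, nat_lit 336, ⟨nat_lit 1000, nat_lit 0, nat_lit 0, nat_lit 0, nat_lit 0, nat_lit 0, nat_lit 0, nat_lit 0, nat_lit 0, nat_lit 0, nat_lit 0, nat_lit 0, nat_lit 0, nat_lit 0, nat_lit 0, nat_lit 0, false, false⟩,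
 nat_lit 0, nat_lit 9280, nat_lit 0, nat_lit 0, nat_lit 6110, nat_lit 6339, nat_lit 2845, nat_lit 0, nat_lit 0, nat_lit 0, nat_lit 0, nat_lit 0, nat_lit 0, nat_lit 0, nat_lit 0, nat_lit 0, nat_lit 0, nat_lit 0, [],
 ⟨p062_k30, nat_lit 0, nat_lit 0, nat_lit 263, nat_lit 0, nat_lit 452618, [nat_lit 3282000000, nat_lit 4688000000, nat_lit 7968000000], [], [nat_lit 18713200530, nat_lit 18838474250, nat_lit 19097854354, nat_lit 19209183370, nat_lit 22463984601, nat_lit 22567863389, nat_lit 22425521605, nat_lit 22518055673], nat_lit 1271250, nat_lit 1271250, nat_lit 490000, nat_lit 1100001, nat_lit 1271250, nat_lit 1271250, [nat_lit 780000, nat_lit 1100000, nat_lit 1785000], [nat_lit 36, nat_lit 40, nat_lit 40, nat_lit 80, nat_lit 7, nat_lit 249, nat_lit 40, nat_lit 7]⟩, ⟨p062_k26, nat_lit 0, nat_lit 0, nat_lit 71, nat_lit 0, nat_lit 0, [nat_lit 4688000000, nat_lit 6250000000, nat_lit 9842000000], [], [nat_lit 15445312444,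 nat_lit 16988182820, nat_lit 16122702858, nat_lit 17487070180, nat_lit 23143696193, nat_lit 24265191334, nat_lit 22961715996, nat_lit 23959274451], nat_lit 0, nat_lit 0, nat_lit 0, nat_lit 0, nat_lit 0, nat_lit 0, [], [nat_lit 11, nat_lit 40, nat_lit 40, nat_lit 80, nat_lit 1, nat_lit 428, nat_lit 200, nat_lit 12]⟩,
 zbF0, [⟨nat_lit 7, nat_lit 86, nat_lit 100, nat_lit 89, nat_lit 133910382⟩, ⟨nat_lit 11, nat_lit 97, nat_lit 100, nat_lit 81, nat_lit 274747647⟩, ⟨nat_lit 11, nat_lit 91, nat_lit 91, nat_lit 100, nat_lit 313391019⟩]⟩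
noncomputable def p062_l60 : Lf2 := ⟨nat_lit 0, nat_lit 8, [nat_lit 50, nat_lit 5, nat_lit 5, nat_lit 20], false, nat_lit 240, nat_lit 332, nat_lit 240, nat_lit 352, ⟨nat_lit 1000, nat_lit 0, nat_lit 0, nat_lit 0, nat_lit 0, nat_lit 0, nat_lit 0, nat_lit 0, nat_lit 0, nat_lit 0, nat_lit 0, nat_lit 0, nat_lit 0, nat_lit 0, nat_lit 0, nat_lit 0, false, false⟩,
 nat_lit 0, nat_lit 9641, nat_lit 0, nat_lit 0, nat_lit 6268, nat_lit 6129, nat_lit 2445, nat_lit 0, nat_lit 0, nat_lit 0, nat_lit 0, nat_lit 0, nat_lit 0, nat_lit 0, nat_lit 0, nat_lit 0, nat_lit 0, nat_lit 0, [],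
 ⟨p062_k29, nat_lit 0, nat_lit 0, nat_lit 200, nat_lit 0, nat_lit 343636, [nat_lit 3282000000, nat_lit 4688000000, nat_lit 7968000000], [], [nat_lit 19080718310, nat_lit 19398244450, nat_lit 19453766154, nat_lit 19735724906, nat_lit 24173461855, nat_lit 24559946074, nat_lit 23925329465, nat_lit 24155794872], nat_lit 1271250, nat_lit 1271250, nat_lit 490000, nat_lit 1100001, nat_lit 1271250, nat_lit 1271250, [nat_lit 780000, nat_lit 1100000, nat_lit 1785000], [nat_lit 36, nat_lit 40, nat_lit 40, nat_lit 80, nat_lit 7, nat_lit 249, nat_lit 40, nat_lit 7]⟩, ⟨p062_k26, nat_lit 0, nat_lit 0, nat_lit 82, nat_lit 0, nat_lit 0, [nat_lit 4688000000, nat_lit 6250000000, nat_lit 9842000000], [], [nat_lit 15681311284, nat_lit 17195163020, nat_lit 16398932238, nat_lit 17738939980, nat_lit 24687086112, nat_lit 25721898228, nat_lit 24414774715, nat_lit 25337547865], nat_lit 0, nat_lit 0, nat_lit 0, nat_lit 0, nat_lit 0, nat_lit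 0, [], [nat_lit 11, nat_lit 40, nat_lit 40, nat_lit 80, nat_lit 1, nat_lit 428, nat_lit 200, nat_lit 12]⟩,
 zbF0, [⟨nat_lit 11, nat_lit 97, nat_lit 100, nat_lit 90, nat_lit 28712617⟩, ⟨nat_lit 23, nat_lit 99, nat_lit 82, nat_lit 100, nat_lit 612770366⟩]⟩
noncomputable def p062_l61 : Lf2 := ⟨nat_lit 1, nat_lit 10, [nat_lit 0, nat_lit 5, nat_lit 5, nat_lit 20], false, nat_lit 240, nat_lit 336, nat_lit 160, nat_lit 352, zbN0,
 nat_lit 0, nat_lit 0, nat_lit 0, nat_lit 0, nat_lit 0, nat_lit 0, nat_lit 0, nat_lit 0, nat_lit 0, nat_lit 0, nat_lit 0, nat_lit 0, nat_lit 0, nat_lit 0, nat_lit 0, nat_lit 0, nat_lit 0, nat_lit 0, [],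
 C1.Rw.none, C1.Rw.none,
 zbF0, []⟩
noncomputable def p062_l62 : Lf2 := ⟨nat_lit 0, nat_lit 5, [nat_lit 4, nat_lit 5, nat_lit 5, nat_lit 20], false, nat_lit 240, nat_lit 312, nat_lit 160, nat_lit 336, ⟨nat_lit 1000, nat_lit 0, nat_lit 0, nat_lit 0, nat_lit 0, nat_lit 0, nat_lit 0, nat_lit 0, nat_lit 0, nat_lit 0, nat_lit 0, nat_lit 0, nat_lit 0, nat_lit 0, nat_lit 0, nat_lit 0, false, false⟩,
 nat_lit 0, nat_lit 8603, nat_lit 0, nat_lit 0, nat_lit 5713, nat_lit 6339, nat_lit 3367, nat_lit 0, nat_lit 0, nat_lit 0, nat_lit 0, nat_lit 0, nat_lit 0, nat_lit 0, nat_lit 0, nat_lit 0, nat_lit 0, nat_lit 0, [],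
 ⟨p062_k31, nat_lit 0, nat_lit 0, nat_lit 234, nat_lit 0, nat_lit 482619, [nat_lit 3282000000, nat_lit 4688000000, nat_lit 6250000000], [], [nat_lit 18807289950, nat_lit 19109564690, nat_lit 19261491346, nat_lit 19530677328, nat_lit 22422214104, nat_lit 22673831868, nat_lit 22476930413, nat_lit 22701604756], nat_lit 1271250, nat_lit 1271250, nat_lit 490000, nat_lit 1100001, nat_lit 1271250, nat_lit 1271250, [nat_lit 780000, nat_lit 1100000, nat_lit 1442500], [nat_lit 59, nat_lit 40, nat_lit 40, nat_lit 80, nat_lit 3, nat_lit 249, nat_lit 40, nat_lit 8]⟩, ⟨p062_k32, nat_lit 0, nat_lit 0, nat_lit 71, nat_lit 0, nat_lit 0, [nat_lit 4688000000, nat_lit 6250000000, nat_lit 7968000000], [], [nat_lit 11161085002, nat_lit 13018822304, nat_lit 12350280008, nat_lit 13990318744, nat_lit 23143696193, nat_lit 24265191334, nat_lit 22961715996, nat_lit 23959274451], nat_lit 0, nat_lit 0, nat_lit 0, nat_lit 0, nat_lit 0, nat_lit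 0, [], [nat_lit 9, nat_lit 40, nat_lit 40, nat_lit 80, nat_lit 2, nat_lit 345, nat_lit 125, nat_lit 11]⟩,
 zbF0, [⟨nat_lit 7, nat_lit 86, nat_lit 100, nat_lit 89, nat_lit 65528429⟩, ⟨nat_lit 11, nat_lit 91, nat_lit 91, nat_lit 100, nat_lit 537999365⟩]⟩
noncomputable def p062_l63 : Lf2 := ⟨nat_lit 0, nat_lit 5, [nat_lit 4, nat_lit 5, nat_lit 5, nat_lit 20], false, nat_lit 240, nat_lit 308, nat_lit 160, nat_lit 336, ⟨nat_lit 1000, nat_lit 0, nat_lit 0, nat_lit 0, nat_lit 0, nat_lit 0, nat_lit 0, nat_lit 0, nat_lit 0, nat_lit 0, nat_lit 0, nat_lit 0, nat_lit 0, nat_lit 0, nat_lit 0, nat_lit 0, false, false⟩,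
 nat_lit 0, nat_lit 8269, nat_lit 0, nat_lit 0, nat_lit 5607, nat_lit 6339, nat_lit 2895, nat_lit 0, nat_lit 0, nat_lit 0, nat_lit 0, nat_lit 0, nat_lit 0, nat_lit 0, nat_lit 0, nat_lit 0, nat_lit 0, nat_lit 0, [],
 ⟨p062_k33, nat_lit 0, nat_lit 0, nat_lit 245, nat_lit 0, nat_lit 512052, [nat_lit 3282000000, nat_lit 4688000000, nat_lit 6250000000], [], [nat_lit 18604061813, nat_lit 18943796764, nat_lit 19248662265, nat_lit 19551069952, nat_lit 22395236674, nat_lit 22680580285, nat_lit 22623795375, nat_lit 22878636045], nat_lit 1271250, nat_lit 1271250, nat_lit 490000, nat_lit 1100001, nat_lit 1271250, nat_lit 1271250, [nat_lit 780000, nat_lit 1100000, nat_lit 1442500], [nat_lit 59, nat_lit 40, nat_lit 40, nat_lit 80, nat_lit 3, nat_lit 249, nat_lit 40, nat_lit 8]⟩, ⟨p062_k32, nat_lit 0, nat_lit 0, nat_lit 71, nat_lit 0, nat_lit 0, [nat_lit 4688000000, nat_lit 6250000000, nat_lit 7968000000], [], [nat_lit 11161085002,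 nat_lit 13018822304, nat_lit 12350280008, nat_lit 13990318744, nat_lit 23143696193, nat_lit 24265191334, nat_lit 22961715996, nat_lit 23959274451], nat_lit 0, nat_lit 0, nat_lit 0, nat_lit 0, nat_lit 0, nat_lit 0, [], [nat_lit 9, nat_lit 40, nat_lit 40, nat_lit 80, nat_lit 2, nat_lit 345, nat_lit 125, nat_lit 11]⟩,
 zbF0, [⟨nat_lit 0, nat_lit 100, nat_lit 94, nat_lit 88, nat_lit 189622745⟩, ⟨nat_lit 4, nat_lit 100, nat_lit 98, nat_lit 94, nat_lit 207908189⟩, ⟨nat_lit 7, nat_lit 86, nat_lit 100, nat_lit 89, nat_lit 251196469⟩, ⟨nat_lit 11, nat_lit 91, nat_lit 91, nat_lit 100, nat_lit 356411942⟩]⟩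
noncomputable def p062_l64 : Lf2 := ⟨nat_lit 0, nat_lit 5, [nat_lit 4, nat_lit 5, nat_lit 5, nat_lit 20], false, nat_lit 240, nat_lit 328, nat_lit 160, nat_lit 352, ⟨nat_lit 1000, nat_lit 0, nat_lit 0, nat_lit 0, nat_lit 0, nat_lit 0, nat_lit 0, nat_lit 0, nat_lit 0, nat_lit 0, nat_lit 0, nat_lit 0, nat_lit 0, nat_lit 0, nat_lit 0, nat_lit 0, false, false⟩,
 nat_lit 0, nat_lit 8329, nat_lit 0, nat_lit 0, nat_lit 5531, nat_lit 6129, nat_lit 3304, nat_lit 0, nat_lit 0, nat_lit 0, nat_lit 0, nat_lit 0, nat_lit 0, nat_lit 0, nat_lit 0, nat_lit 0, nat_lit 0, nat_lit 0, [],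
 ⟨p062_k31, nat_lit 0, nat_lit 0, nat_lit 219, nat_lit 0, nat_lit 415716, [nat_lit 3282000000, nat_lit 4688000000, nat_lit 6250000000], [], [nat_lit 19339145400, nat_lit 19933692160, nat_lit 19831622852, nat_lit 20361617720, nat_lit 23778230759, nat_lit 24251966130, nat_lit 23789412233, nat_lit 24213190420], nat_lit 1271250, nat_lit 1271250, nat_lit 490000, nat_lit 1100001, nat_lit 1271250, nat_lit 1271250, [nat_lit 780000, nat_lit 1100000, nat_lit 1442500], [nat_lit 59, nat_lit 40, nat_lit 40, nat_lit 80, nat_lit 3, nat_lit 249, nat_lit 40, nat_lit 8]⟩, ⟨p062_k32, nat_lit 0, nat_lit 0, nat_lit 82, nat_lit 0, nat_lit 0, [nat_lit 4688000000, nat_lit 6250000000, nat_lit 7968000000], [], [nat_lit 11458210222, nat_lit 13278395744, nat_lit 12674840888, nat_lit 14283080584, nat_lit 24687086112, nat_lit 25721898228, nat_lit 24414774715, nat_lit 25337547865], nat_lit 0, nat_lit 0, nat_lit 0, nat_lit 0, nat_lit 0, nat_lit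 0, [], [nat_lit 9, nat_lit 40, nat_lit 40, nat_lit 80, nat_lit 2, nat_lit 373, nat_lit 150, nat_lit 12]⟩,
 zbF0, [⟨nat_lit 0, nat_lit 100, nat_lit 94, nat_lit 88, nat_lit 10984956⟩, ⟨nat_lit 23, nat_lit 99, nat_lit 82, nat_lit 100, nat_lit 382704508⟩, ⟨nat_lit 11, nat_lit 91, nat_lit 91, nat_lit 100, nat_lit 195046358⟩]⟩
noncomputable def p062_l65 : Lf2 := ⟨nat_lit 0, nat_lit 10, [nat_lit 0, nat_lit 5, nat_lit 5, nat_lit 20], false, nat_lit 240, nat_lit 328, nat_lit 160, nat_lit 352, ⟨nat_lit 1000, nat_lit 0, nat_lit 0, nat_lit 0, nat_lit 0, nat_lit 0, nat_lit 0, nat_lit 0, nat_lit 0, nat_lit 0, nat_lit 0, nat_lit 0, nat_lit 0, nat_lit 0, nat_lit 0, nat_lit 0, false, false⟩,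
 nat_lit 0, nat_lit 8489, nat_lit 0, nat_lit 0, nat_lit 5637, nat_lit 6129, nat_lit 1588, nat_lit 0, nat_lit 0, nat_lit 0, nat_lit 0, nat_lit 0, nat_lit 0, nat_lit 0, nat_lit 0, nat_lit 0, nat_lit 0, nat_lit 0, [],
 ⟨p062_k34, nat_lit 0, nat_lit 0, nat_lit 163, nat_lit 0, nat_lit 215638, [nat_lit 3282000000, nat_lit 4688000000, nat_lit 7968000000], [], [nat_lit 19112334622, nat_lit 19726225444, nat_lit 19380522937, nat_lit 19928098122, nat_lit 23814559022, nat_lit 24352682133, nat_lit 23734860913, nat_lit 24242943480], nat_lit 1271250, nat_lit 1271250, nat_lit 490000, nat_lit 1100001, nat_lit 1271250, nat_lit 1271250, [nat_lit 780000, nat_lit 1100000, nat_lit 1785000], [nat_lit 36, nat_lit 40, nat_lit 40, nat_lit 80, nat_lit 7, nat_lit 249, nat_lit 40, nat_lit 7]⟩, ⟨p062_k35, nat_lit 0, nat_lit 0, nat_lit 82, nat_lit 0, nat_lit 0, [nat_lit 4688000000, nat_lit 6250000000, nat_lit 9842000000], [], [nat_lit 11458210222,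 nat_lit 13278395744, nat_lit 12674840888, nat_lit 14283080584, nat_lit 24687086112, nat_lit 25721898228, nat_lit 24414774715, nat_lit 25337547865], nat_lit 0, nat_lit 0, nat_lit 0, nat_lit 0, nat_lit 0, nat_lit 0, [], [nat_lit 11, nat_lit 40, nat_lit 40, nat_lit 80, nat_lit 1, nat_lit 428, nat_lit 200, nat_lit 12]⟩,
 zbF0, [⟨nat_lit 0, nat_lit 100, nat_lit 94, nat_lit 88, nat_lit 19120274⟩, ⟨nat_lit 7, nat_lit 82, nat_lit 100, nat_lit 92, nat_lit 7650505⟩, ⟨nat_lit 23, nat_lit 99, nat_lit 82, nat_lit 100, nat_lit 237955400⟩, ⟨nat_lit 11, nat_lit 91, nat_lit 91, nat_lit 100, nat_lit 344786085⟩]⟩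
noncomputable def b_V_700_600_20_20 : St := ⟨true, nat_lit 1, nat_lit 0, nat_lit 1, nat_lit 120, nat_lit 280, nat_lit 300, nat_lit 240, nat_lit 280, nat_lit 36, nat_lit 160, nat_lit 80, nat_lit 120, nat_lit 240, nat_lit 336, nat_lit 0, nat_lit 364, nat_lit 0, nat_lit 40, nat_lit 0, nat_lit 0, nat_lit 0, nat_lit 0⟩
theorem d_V_700_600_20_20 (h : EB TB.env) : Dead b_V_700_600_20_20 := chkB_sound0 h (T :=
(.spl (nat_lit 2) (nat_lit 80)
(.trX (nat_lit 23) (nat_lit 100) (nat_lit 76) (nat_lit 82) (nat_lit 336) (.spl (nat_lit 5) (nat_lit 160)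
(.spl (nat_lit 1) (nat_lit 260)
(.leaf p062_l39)
(.trZ (nat_lit 0) (nat_lit 100) (nat_lit 96) (nat_lit 69) (nat_lit 48) (.leaf p062_l40)))
(.spl (nat_lit 5) (nat_lit 240)
(.leaf p062_l41)
(.spl (nat_lit 1) (nat_lit 260)
(.spl (nat_lit 6) (nat_lit 28)
(.spl (nat_lit 2) (nat_lit 60)
(.trX (nat_lit 11) (nat_lit 100) (nat_lit 85) (nat_lit 73) (nat_lit 312) (.trX (nat_lit 23) (nat_lit 100) (nat_lit 85) (nat_lit 73) (nat_lit 312) (.leaf p062_l42)))
(.leaf p062_l43))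
(.leaf p062_l44))
(.trZ (nat_lit 0) (nat_lit 100) (nat_lit 96) (nat_lit 69) (nat_lit 48) (.spl (nat_lit 2) (nat_lit 60)
(.trX (nat_lit 11) (nat_lit 100) (nat_lit 85) (nat_lit 73) (nat_lit 312) (.trX (nat_lit 23) (nat_lit 100) (nat_lit 85) (nat_lit 73) (nat_lit 312) (.leaf p062_l45)))
(.spl (nat_lit 0) (nat_lit 290)
(.spl (nat_lit 6) (nat_lit 32)
(.leaf p062_l46)
(.leaf p062_l47))
(.trX (nat_lit 16) (nat_lit 97) (nat_lit 84) (nat_lit 100) (nat_lit 328) (.leaf p062_l48)))))))))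
(.spl (nat_lit 5) (nat_lit 160)
(.leaf p062_l49)
(.spl (nat_lit 1) (nat_lit 260)
(.spl (nat_lit 6) (nat_lit 28)
(.spl (nat_lit 0) (nat_lit 290)
(.leaf p062_l50)
(.trX (nat_lit 16) (nat_lit 97) (nat_lit 84) (nat_lit 100) (nat_lit 328) (.leaf p062_l51)))
(.leaf p062_l52))
(.trX (nat_lit 19) (nat_lit 100) (nat_lit 69) (nat_lit 96) (nat_lit 352) (.spl (nat_lit 0) (nat_lit 290)
(.spl (nat_lit 6) (nat_lit 32)
(.spl (nat_lit 5) (nat_lit 240)
(.leaf p062_l53)
(.spl (nat_lit 0) (nat_lit 285)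
(.spl (nat_lit 3) (nat_lit 100)
(.trX (nat_lit 16) (nat_lit 100) (nat_lit 88) (nat_lit 94) (nat_lit 320) (.trX (nat_lit 19) (nat_lit 100) (nat_lit 77) (nat_lit 91) (nat_lit 336) (.spl (nat_lit 5) (nat_lit 280)
(.leaf p062_l54)
(.spl (nat_lit 0) (nat_lit 283)
(.leaf p062_l55)
(.leaf p062_l56)))))
(.leaf p062_l57))
(.trX (nat_lit 16) (nat_lit 99) (nat_lit 82) (nat_lit 100) (nat_lit 332) (.spl (nat_lit 3) (nat_lit 100)
(.trX (nat_lit 16) (nat_lit 100) (nat_lit 91) (nat_lit 96) (nat_lit 316) (.trX (nat_lit 19) (nat_lit 100) (nat_lit 77) (nat_lit 91) (nat_lit 336) (.spl (nat_lit 0) (nat_lit 288)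
(.leaf p062_l58)
(.trX (nat_lit 16) (nat_lit 100) (nat_lit 92) (nat_lit 96) (nat_lit 312) (.leaf p062_l59)))))
(.leaf p062_l60)))))
(.leaf p062_l61))
(.trX (nat_lit 16) (nat_lit 97) (nat_lit 84) (nat_lit 100) (nat_lit 328) (.spl (nat_lit 6) (nat_lit 20)
(.spl (nat_lit 3) (nat_lit 100)
(.trX (nat_lit 16) (nat_lit 100) (nat_lit 94) (nat_lit 97) (nat_lit 312) (.trX (nat_lit 19) (nat_lit 100) (nat_lit 77) (nat_lit 91) (nat_lit 336) (.spl (nat_lit 0) (nat_lit 295)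
(.leaf p062_l62)
(.trX (nat_lit 16) (nat_lit 100) (nat_lit 97) (nat_lit 98) (nat_lit 308) (.leaf p062_l63)))))
(.leaf p062_l64))
(.leaf p062_l65))))))))) (by decide +kernel)
noncomputable def p062_l66 : Lf2 := ⟨nat_lit 0, nat_lit 10, [nat_lit 0, nat_lit 5, nat_lit 5, nat_lit 20], false, nat_lit 240, nat_lit 336, nat_lit 0, nat_lit 160, ⟨nat_lit 1000, nat_lit 0, nat_lit 0, nat_lit 0, nat_lit 0, nat_lit 0, nat_lit 0, nat_lit 0, nat_lit 0, nat_lit 0, nat_lit 0, nat_lit 0, nat_lit 0, nat_lit 0, nat_lit 0, nat_lit 0, false, false⟩,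
 nat_lit 0, nat_lit 11787, nat_lit 0, nat_lit 0, nat_lit 7500, nat_lit 15093, nat_lit 987, nat_lit 0, nat_lit 0, nat_lit 2240, nat_lit 0, nat_lit 0, nat_lit 0, nat_lit 0, nat_lit 0, nat_lit 0, nat_lit 0, nat_lit 0, [],
 ⟨p062_k0, nat_lit 0, nat_lit 0, nat_lit 335, nat_lit 0, nat_lit 595349, [nat_lit 3282000000, nat_lit 6250000000, nat_lit 9842000000], [], [nat_lit 22263392375, nat_lit 23251306000, nat_lit 23930326000, nat_lit 24942179000, nat_lit 27069796801, nat_lit 27976905200, nat_lit 28136151200, nat_lit 28896303601], nat_lit 1271250, nat_lit 1271250, nat_lit 1100001, nat_lit 1785000, nat_lit 1271250, nat_lit 1271250, [nat_lit 780000, nat_lit 1435000, nat_lit 1271250], [nat_lit 8, nat_lit 40, nat_lit 40, nat_lit 80, nat_lit 1, nat_lit 373, nat_lit 150, nat_lit 10]⟩, ⟨p062_k12, nat_lit 0, nat_lit 0, nat_lit 200, nat_lit 0, nat_lit 0, [nat_lit 4688000000, nat_lit 7968000000, nat_lit 11872000000], [], [nat_lit 18201501940,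 nat_lit 22417969468, nat_lit 22639677872, nat_lit 29644807012, nat_lit 5508070032, nat_lit 10267697660, nat_lit 10214434640, nat_lit 14448200548], nat_lit 0, nat_lit 0, nat_lit 0, nat_lit 0, nat_lit 0, nat_lit 0, [], [nat_lit 21, nat_lit 40, nat_lit 40, nat_lit 80, nat_lit 14, nat_lit 401, nat_lit 175, nat_lit 10]⟩,
 zbF0, [⟨nat_lit 4, nat_lit 94, nat_lit 100, nat_lit 97, nat_lit 391802474⟩, ⟨nat_lit 9, nat_lit 90, nat_lit 100, nat_lit 44, nat_lit 259065016⟩]⟩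
noncomputable def p062_l67 : Lf2 := ⟨nat_lit 0, nat_lit 10, [nat_lit 0, nat_lit 5, nat_lit 5, nat_lit 20], false, nat_lit 240, nat_lit 336, nat_lit 160, nat_lit 364, ⟨nat_lit 1000, nat_lit 0, nat_lit 0, nat_lit 0, nat_lit 0, nat_lit 0, nat_lit 0, nat_lit 0, nat_lit 0, nat_lit 0, nat_lit 0, nat_lit 0, nat_lit 0, nat_lit 0, nat_lit 0, nat_lit 0, false, false⟩,
 nat_lit 0, nat_lit 10684, nat_lit 0, nat_lit 0, nat_lit 6798, nat_lit 6182, nat_lit 1794, nat_lit 0, nat_lit 0, nat_lit 0, nat_lit 0, nat_lit 0, nat_lit 0, nat_lit 0, nat_lit 0, nat_lit 0, nat_lit 0, nat_lit 0, [],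
 ⟨p062_k20, nat_lit 0, nat_lit 0, nat_lit 297, nat_lit 0, nat_lit 495726, [nat_lit 3282000000, nat_lit 4688000000, nat_lit 9842000000], [], [nat_lit 18882899018, nat_lit 19394687416, nat_lit 20934968912, nat_lit 21498780326, nat_lit 24187352874, nat_lit 24694823028, nat_lit 26040770453, nat_lit 26642724131], nat_lit 1271250, nat_lit 1271250, nat_lit 1100001, nat_lit 1785000, nat_lit 1271250, nat_lit 1271250, [nat_lit 780000, nat_lit 1100000, nat_lit 2127500], [nat_lit 42, nat_lit 40, nat_lit 40, nat_lit 80, nat_lit 13, nat_lit 373, nat_lit 150, nat_lit 10]⟩, ⟨p062_k21, nat_lit 0, nat_lit 0, nat_lit 62, nat_lit 0, nat_lit 0, [nat_lit 4688000000, nat_lit 6250000000, nat_lit 11872000000], [], [nat_lit 10976662736, nat_lit 14209193072, nat_lit 14983061568, nat_lit 17675372840, nat_lit 24486068670, nat_lit 26246737801, nat_lit 26271157034, nat_lit 27938815539], nat_lit 0, nat_lit 0, nat_lit 0, nat_lit 0, nat_lit 0, nat_lit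 0, [], [nat_lit 48, nat_lit 40, nat_lit 40, nat_lit 80, nat_lit 12, nat_lit 456, nat_lit 225, nat_lit 11]⟩,
 zbF0, [⟨nat_lit 4, nat_lit 91, nat_lit 100, nat_lit 96, nat_lit 310402099⟩, ⟨nat_lit 19, nat_lit 100, nat_lit 77, nat_lit 91, nat_lit 334347269⟩, ⟨nat_lit 11, nat_lit 71, nat_lit 71, nat_lit 100, nat_lit 318328284⟩]⟩
noncomputable def p062_l68 : Lf2 := ⟨nat_lit 0, nat_lit 10, [nat_lit 0, nat_lit 5, nat_lit 5, nat_lit 20], false, nat_lit 240, nat_lit 328, nat_lit 160, nat_lit 364, ⟨nat_lit 1000, nat_lit 0, nat_lit 0, nat_lit 0, nat_lit 0, nat_lit 0, nat_lit 0, nat_lit 0, nat_lit 0, nat_lit 0, nat_lit 0, nat_lit 0, nat_lit 0, nat_lit 0, nat_lit 0, nat_lit 0, false, false⟩,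
 nat_lit 0, nat_lit 9177, nat_lit 0, nat_lit 0, nat_lit 6094, nat_lit 6182, nat_lit 1769, nat_lit 0, nat_lit 0, nat_lit 0, nat_lit 0, nat_lit 0, nat_lit 0, nat_lit 0, nat_lit 0, nat_lit 0, nat_lit 0, nat_lit 0, [],
 ⟨p062_k34, nat_lit 0, nat_lit 0, nat_lit 276, nat_lit 0, nat_lit 560323, [nat_lit 3282000000, nat_lit 4688000000, nat_lit 7968000000], [], [nat_lit 19700552898, nat_lit 20256461530, nat_lit 21666268848, nat_lit 22140222518, nat_lit 23827596068, nat_lit 24268687181, nat_lit 25634293103, nat_lit 26220488950], nat_lit 1271250, nat_lit 1271250, nat_lit 1100001, nat_lit 1785000, nat_lit 1271250, nat_lit 1271250, [nat_lit 780000, nat_lit 1100000, nat_lit 1785000], [nat_lit 36, nat_lit 40, nat_lit 40, nat_lit 80, nat_lit 7, nat_lit 272, nat_lit 60, nat_lit 8]⟩, ⟨p062_k21, nat_lit 0, nat_lit 0, nat_lit 62, nat_lit 0, nat_lit 0, [nat_lit 4688000000, nat_lit 6250000000, nat_lit 11872000000], [], [nat_lit 10976662736,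 nat_lit 14209193072, nat_lit 14983061568, nat_lit 17675372840, nat_lit 24486068670, nat_lit 26246737801, nat_lit 26271157034, nat_lit 27938815539], nat_lit 0, nat_lit 0, nat_lit 0, nat_lit 0, nat_lit 0, nat_lit 0, [], [nat_lit 48, nat_lit 40, nat_lit 40, nat_lit 80, nat_lit 12, nat_lit 456, nat_lit 225, nat_lit 11]⟩,
 zbF0, [⟨nat_lit 16, nat_lit 97, nat_lit 84, nat_lit 100, nat_lit 235785062⟩, ⟨nat_lit 19, nat_lit 100, nat_lit 77, nat_lit 91, nat_lit 313241065⟩, ⟨nat_lit 11, nat_lit 71, nat_lit 71, nat_lit 100, nat_lit 345379898⟩]⟩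
noncomputable def b_V_700_600_20_21 : St := ⟨true, nat_lit 1, nat_lit 0, nat_lit 1, nat_lit 120, nat_lit 280, nat_lit 300, nat_lit 240, nat_lit 280, nat_lit 160, nat_lit 240, nat_lit 80, nat_lit 120, nat_lit 240, nat_lit 336, nat_lit 0, nat_lit 364, nat_lit 0, nat_lit 40, nat_lit 0, nat_lit 0, nat_lit 0, nat_lit 0⟩
theorem d_V_700_600_20_21 (h : EB TB.env) : Dead b_V_700_600_20_21 := chkB_sound0 h (T :=
(.spl (nat_lit 5) (nat_lit 160)
(.leaf p062_l66)
(.spl (nat_lit 0) (nat_lit 290)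
(.leaf p062_l67)
(.trX (nat_lit 16) (nat_lit 97) (nat_lit 84) (nat_lit 100) (nat_lit 328) (.leaf p062_l68))))) (by decide +kernel)
noncomputable def p062_l69 : Lf2 := ⟨nat_lit 0, nat_lit 10, [nat_lit 0, nat_lit 5, nat_lit 5, nat_lit 20], false, nat_lit 240, nat_lit 320, nat_lit 0, nat_lit 160, ⟨nat_lit 1000, nat_lit 0, nat_lit 0, nat_lit 0, nat_lit 0, nat_lit 0, nat_lit 0, nat_lit 0, nat_lit 0, nat_lit 0, nat_lit 0, nat_lit 0, nat_lit 0, nat_lit 0, nat_lit 0, nat_lit 0, false, false⟩,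
 nat_lit 0, nat_lit 9845, nat_lit 0, nat_lit 13429, nat_lit 6815, nat_lit 8786, nat_lit 976, nat_lit 0, nat_lit 0, nat_lit 2082, nat_lit 0, nat_lit 0, nat_lit 0, nat_lit 0, nat_lit 0, nat_lit 0, nat_lit 0, nat_lit 0, [],
 ⟨p062_k2, nat_lit 0, nat_lit 0, nat_lit 284, nat_lit 0, nat_lit 422750, [nat_lit 3282000000, nat_lit 6250000000, nat_lit 7968000000], [], [nat_lit 21969390991, nat_lit 23259222672, nat_lit 21059659830, nat_lit 22348637680, nat_lit 26131696093, nat_lit 27868244277, nat_lit 25130422620, nat_lit 26313898020], nat_lit 1271250, nat_lit 1271250, nat_lit 279600, nat_lit 490000, nat_lit 1271250, nat_lit 1271250, [nat_lit 780000, nat_lit 1435000, nat_lit 1271250], [nat_lit 18, nat_lit 40, nat_lit 40, nat_lit 80, nat_lit 2, nat_lit 226, nat_lit 20, nat_lit 7]⟩, ⟨p062_k12, nat_lit 0, nat_lit 0, nat_lit 329, nat_lit 0, nat_lit 0, [nat_lit 4688000000, nat_lit 7968000000, nat_lit 11872000000], [], [nat_lit 20928935290,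 nat_lit 25575308549, nat_lit 19244934816, nat_lit 23763591864, nat_lit 15729368636, nat_lit 19238591621, nat_lit 14692834984, nat_lit 17856370680], nat_lit 0, nat_lit 0, nat_lit 0, nat_lit 0, nat_lit 0, nat_lit 0, [], [nat_lit 21, nat_lit 40, nat_lit 40, nat_lit 80, nat_lit 14, nat_lit 373, nat_lit 150, nat_lit 10]⟩,
 zbF0, [⟨nat_lit 0, nat_lit 100, nat_lit 88, nat_lit 81, nat_lit 1205469390⟩, ⟨nat_lit 4, nat_lit 100, nat_lit 93, nat_lit 97, nat_lit 552553770⟩]⟩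
noncomputable def p062_l70 : Lf2 := ⟨nat_lit 0, nat_lit 5, [nat_lit 4, nat_lit 5, nat_lit 5, nat_lit 20], false, nat_lit 240, nat_lit 280, nat_lit 160, nat_lit 336, ⟨nat_lit 1000, nat_lit 0, nat_lit 0, nat_lit 0, nat_lit 0, nat_lit 0, nat_lit 0, nat_lit 0, nat_lit 0, nat_lit 0, nat_lit 0, nat_lit 0, nat_lit 0, nat_lit 0, nat_lit 0, nat_lit 0, false, false⟩,
 nat_lit 0, nat_lit 8434, nat_lit 0, nat_lit 0, nat_lit 5838, nat_lit 6586, nat_lit 1802, nat_lit 0, nat_lit 0, nat_lit 0, nat_lit 0, nat_lit 0, nat_lit 0, nat_lit 0, nat_lit 0, nat_lit 0, nat_lit 0, nat_lit 0, [],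
 ⟨p062_k36, nat_lit 0, nat_lit 0, nat_lit 201, nat_lit 0, nat_lit 330820, [nat_lit 3282000000, nat_lit 4688000000, nat_lit 6250000000], [], [nat_lit 19361901620, nat_lit 20667869957, nat_lit 18848065680, nat_lit 20070904640, nat_lit 21818336074, nat_lit 23627276817, nat_lit 20819103722, nat_lit 22445865808], nat_lit 1271250, nat_lit 1271250, nat_lit 279600, nat_lit 490000, nat_lit 1271250, nat_lit 1271250, [nat_lit 780000, nat_lit 1100000, nat_lit 1442500], [nat_lit 59, nat_lit 40, nat_lit 40, nat_lit 80, nat_lit 3, nat_lit 226, nat_lit 20, nat_lit 8]⟩, ⟨p062_k15, nat_lit 0, nat_lit 0, nat_lit 86, nat_lit 0, nat_lit 0, [nat_lit 4688000000, nat_lit 6250000000, nat_lit 9842000000], [], [nat_lit 9569419090, nat_lit 11533301641, nat_lit 8909703800, nat_lit 10811609148, nat_lit 23201032997, nat_lit 24564338370, nat_lit 21899409448, nat_lit 23148110300], nat_lit 0, nat_lit 0, nat_lit 0, nat_lit 0, nat_lit 0, nat_lit 0,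 [], [nat_lit 11, nat_lit 40, nat_lit 40, nat_lit 80, nat_lit 1, nat_lit 401, nat_lit 175, nat_lit 11]⟩,
 zbF0, [⟨nat_lit 0, nat_lit 100, nat_lit 86, nat_lit 77, nat_lit 394284368⟩, ⟨nat_lit 23, nat_lit 100, nat_lit 91, nat_lit 77, nat_lit 758402630⟩]⟩
noncomputable def p062_l71 : Lf2 := ⟨nat_lit 0, nat_lit 10, [nat_lit 0, nat_lit 5, nat_lit 5, nat_lit 20], true, nat_lit 240, nat_lit 280, nat_lit 160, nat_lit 336, ⟨nat_lit 0, nat_lit 185, nat_lit 815, nat_lit 6, nat_lit 127, nat_lit 1000, nat_lit 199, nat_lit 815, nat_lit 4603, nat_lit 229, nat_lit 150417, nat_lit 310, nat_lit 47693598, nat_lit 6386882, nat_lit 12919520, nat_lit 4185859, false, false⟩,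
 nat_lit 0, nat_lit 5064, nat_lit 0, nat_lit 0, nat_lit 3505, nat_lit 0, nat_lit 0, nat_lit 0, nat_lit 0, nat_lit 0, nat_lit 0, nat_lit 0, nat_lit 0, nat_lit 0, nat_lit 58, nat_lit 400000, nat_lit 0, nat_lit 0, [(nat_lit 15, [(nat_lit 1, nat_lit 185), (nat_lit 5, nat_lit 815)])],
 ⟨p062_k22, nat_lit 0, nat_lit 0, nat_lit 155, nat_lit 0, nat_lit 155514, [nat_lit 2141625000, nat_lit 1610024001, nat_lit 58354667], [], [nat_lit 18158008876, nat_lit 19175912551, nat_lit 17979405227, nat_lit 18968377287, nat_lit 19844960484, nat_lit 21202748561, nat_lit 19621509307, nat_lit 20723129920], nat_lit 1271250, nat_lit 1271250, nat_lit 279600, nat_lit 490000, nat_lit 1271250, nat_lit 1271250, [nat_lit 780000, nat_lit 1100000, nat_lit 1785000], [nat_lit 36, nat_lit 40, nat_lit 40, nat_lit 80, nat_lit 7, nat_lit 226, nat_lit 20, nat_lit 7]⟩, C1.Rw.none,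
 ⟨nat_lit 4472, nat_lit 5000, ⟨.ofNat (nat_lit 271418), .ofNat (nat_lit 328559), .ofNat (nat_lit 292837), .ofNat (nat_lit 349976), .ofNat (nat_lit 284805), .ofNat (nat_lit 339186), .ofNat (nat_lit 306362), .ofNat (nat_lit 360741)⟩, ⟨.ofNat (nat_lit 442856), .ofNat (nat_lit 514284), .ofNat (nat_lit 485713), .ofNat (nat_lit 557141), .ofNat (nat_lit 438578), .ofNat (nat_lit 506556), .ofNat (nat_lit 481711), .ofNat (nat_lit 549689)⟩⟩, [⟨nat_lit 0, nat_lit 100, nat_lit 84, nat_lit 85, nat_lit 193642922⟩, ⟨nat_lit 16, nat_lit 93, nat_lit 100, nat_lit 97, nat_lit 51900136⟩]⟩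
noncomputable def p062_l72 : Lf2 := ⟨nat_lit 0, nat_lit 10, [nat_lit 0, nat_lit 5, nat_lit 5, nat_lit 20], false, nat_lit 280, nat_lit 320, nat_lit 160, nat_lit 300, ⟨nat_lit 1000, nat_lit 0, nat_lit 0, nat_lit 0, nat_lit 0, nat_lit 0, nat_lit 0, nat_lit 0, nat_lit 0, nat_lit 0, nat_lit 0, nat_lit 0, nat_lit 0, nat_lit 0, nat_lit 0, nat_lit 0, false, false⟩,
 nat_lit 0, nat_lit 9347, nat_lit 0, nat_lit 0, nat_lit 6470, nat_lit 7239, nat_lit 1467, nat_lit 0, nat_lit 0, nat_lit 0, nat_lit 0, nat_lit 0, nat_lit 0, nat_lit 0, nat_lit 0, nat_lit 0, nat_lit 0, nat_lit 0, [],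
 ⟨p062_k2, nat_lit 0, nat_lit 0, nat_lit 257, nat_lit 0, nat_lit 348062, [nat_lit 3282000000, nat_lit 6250000000, nat_lit 7968000000], [], [nat_lit 22644474667, nat_lit 24284071441, nat_lit 21785369730, nat_lit 22915668130, nat_lit 25729211585, nat_lit 27415697289, nat_lit 24324948560, nat_lit 25967894760], nat_lit 1271250, nat_lit 1271250, nat_lit 279600, nat_lit 490000, nat_lit 1271250, nat_lit 1271250, [nat_lit 780000, nat_lit 1435000, nat_lit 1271250], [nat_lit 18, nat_lit 40, nat_lit 40, nat_lit 80, nat_lit 2, nat_lit 226, nat_lit 20, nat_lit 6]⟩, ⟨p062_k12, nat_lit 0, nat_lit 0, nat_lit 79, nat_lit 0, nat_lit 0, [nat_lit 4688000000, nat_lit 7968000000, nat_lit 11872000000], [], [nat_lit 8661836331, nat_lit 10747222070, nat_lit 7869017700, nat_lit 9887691202, nat_lit 19554704736, nat_lit 21219018576, nat_lit 18097910868, nat_lit 19720802116], nat_lit 0, nat_lit 0, nat_lit 0, nat_lit 0, nat_lit 0, nat_lit 0,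 [], [nat_lit 21, nat_lit 40, nat_lit 40, nat_lit 80, nat_lit 14, nat_lit 401, nat_lit 175, nat_lit 10]⟩,
 zbF0, [⟨nat_lit 0, nat_lit 100, nat_lit 86, nat_lit 77, nat_lit 370692643⟩, ⟨nat_lit 16, nat_lit 93, nat_lit 100, nat_lit 97, nat_lit 75086970⟩, ⟨nat_lit 11, nat_lit 100, nat_lit 100, nat_lit 80, nat_lit 721870185⟩]⟩
noncomputable def p062_l73 : Lf2 := ⟨nat_lit 0, nat_lit 10, [nat_lit 0, nat_lit 5, nat_lit 5, nat_lit 20], false, nat_lit 240, nat_lit 320, nat_lit 160, nat_lit 336, ⟨nat_lit 1000, nat_lit 0, nat_lit 0, nat_lit 0, nat_lit 0, nat_lit 0, nat_lit 0, nat_lit 0, nat_lit 0, nat_lit 0, nat_lit 0, nat_lit 0, nat_lit 0, nat_lit 0, nat_lit 0, nat_lit 0, false, false⟩,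
 nat_lit 0, nat_lit 9247, nat_lit 0, nat_lit 0, nat_lit 6401, nat_lit 6496, nat_lit 1503, nat_lit 0, nat_lit 0, nat_lit 0, nat_lit 0, nat_lit 0, nat_lit 0, nat_lit 0, nat_lit 0, nat_lit 0, nat_lit 0, nat_lit 0, [],
 ⟨p062_k2, nat_lit 0, nat_lit 0, nat_lit 274, nat_lit 0, nat_lit 422750, [nat_lit 3282000000, nat_lit 6250000000, nat_lit 7968000000], [], [nat_lit 20301485432, nat_lit 21439806641, nat_lit 19962270796, nat_lit 21066454402, nat_lit 24957611038, nat_lit 26611941000, nat_lit 24265964048, nat_lit 25898694108], nat_lit 1271250, nat_lit 1271250, nat_lit 382400, nat_lit 490000, nat_lit 1271250, nat_lit 1271250, [nat_lit 780000, nat_lit 1435000, nat_lit 1271250], [nat_lit 18, nat_lit 40, nat_lit 40, nat_lit 80, nat_lit 2, nat_lit 226, nat_lit 20, nat_lit 7]⟩, ⟨p062_k5, nat_lit 0, nat_lit 0, nat_lit 101, nat_lit 0, nat_lit 0, [nat_lit 4688000000, nat_lit 7968000000, nat_lit 9842000000], [], [nat_lit 11290295959,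 nat_lit 13206769985, nat_lit 10938948528, nat_lit 12824760256, nat_lit 23773095799, nat_lit 25112062633, nat_lit 23078725700, nat_lit 24402858241], nat_lit 0, nat_lit 0, nat_lit 0, nat_lit 0, nat_lit 0, nat_lit 0, [], [nat_lit 29, nat_lit 40, nat_lit 40, nat_lit 80, nat_lit 17, nat_lit 401, nat_lit 175, nat_lit 11]⟩,
 zbF0, [⟨nat_lit 0, nat_lit 100, nat_lit 89, nat_lit 86, nat_lit 495401353⟩, ⟨nat_lit 23, nat_lit 100, nat_lit 98, nat_lit 84, nat_lit 663489516⟩]⟩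
noncomputable def b_V_700_600_20_22 : St := ⟨true, nat_lit 1, nat_lit 0, nat_lit 1, nat_lit 120, nat_lit 300, nat_lit 320, nat_lit 240, nat_lit 280, nat_lit 48, nat_lit 80, nat_lit 80, nat_lit 120, nat_lit 240, nat_lit 320, nat_lit 0, nat_lit 364, nat_lit 0, nat_lit 40, nat_lit 0, nat_lit 0, nat_lit 0, nat_lit 0⟩
theorem d_V_700_600_20_22 (h : EB TB.env) : Dead b_V_700_600_20_22 := chkB_sound0 h (T :=
(.trX (nat_lit 23) (nat_lit 100) (nat_lit 76) (nat_lit 82) (nat_lit 336) (.spl (nat_lit 5) (nat_lit 160)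
(.leaf p062_l69)
(.spl (nat_lit 1) (nat_lit 260)
(.spl (nat_lit 4) (nat_lit 280)
(.spl (nat_lit 6) (nat_lit 20)
(.leaf p062_l70)
(.leaf p062_l71))
(.trX (nat_lit 23) (nat_lit 100) (nat_lit 95) (nat_lit 87) (nat_lit 300) (.leaf p062_l72)))
(.trZ (nat_lit 0) (nat_lit 100) (nat_lit 91) (nat_lit 77) (nat_lit 64) (.leaf p062_l73)))))) (by decide +kernel)
noncomputable def p062_l74 : Lf2 := ⟨nat_lit 0, nat_lit 10, [nat_lit 0, nat_lit 5, nat_lit 5, nat_lit 20], false, nat_lit 240, nat_lit 320, nat_lit 0, nat_lit 160, ⟨nat_lit 1000, nat_lit 0, nat_lit 0, nat_lit 0, nat_lit 0, nat_lit 0, nat_lit 0, nat_lit 0, nat_lit 0, nat_lit 0, nat_lit 0, nat_lit 0, nat_lit 0, nat_lit 0, nat_lit 0, nat_lit 0, false, false⟩,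
 nat_lit 0, nat_lit 10182, nat_lit 0, nat_lit 0, nat_lit 7049, nat_lit 8257, nat_lit 1074, nat_lit 0, nat_lit 0, nat_lit 1814, nat_lit 0, nat_lit 0, nat_lit 0, nat_lit 0, nat_lit 0, nat_lit 0, nat_lit 0, nat_lit 0, [],
 ⟨p062_k2, nat_lit 0, nat_lit 0, nat_lit 387, nat_lit 0, nat_lit 715926, [nat_lit 3282000000, nat_lit 6250000000, nat_lit 7968000000], [], [nat_lit 21669037886, nat_lit 22673833586, nat_lit 21268811358, nat_lit 22157554490, nat_lit 24819905552, nat_lit 26548578492, nat_lit 24045860708, nat_lit 25588990492], nat_lit 1271250, nat_lit 1271250, nat_lit 490000, nat_lit 1100001, nat_lit 1271250, nat_lit 1271250, [nat_lit 780000, nat_lit 1435000, nat_lit 1271250], [nat_lit 18, nat_lit 40, nat_lit 40, nat_lit 80, nat_lit 2, nat_lit 249, nat_lit 40, nat_lit 7]⟩, ⟨p062_k12, nat_lit 0, nat_lit 0, nat_lit 235, nat_lit 0, nat_lit 0, [nat_lit 4688000000, nat_lit 7968000000, nat_lit 11872000000], [], [nat_lit 20492257068,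 nat_lit 23731574668, nat_lit 19980956368, nat_lit 23671044052, nat_lit 15805087108, nat_lit 18776547488, nat_lit 16205932720, nat_lit 18805213728], nat_lit 0, nat_lit 0, nat_lit 0, nat_lit 0, nat_lit 0, nat_lit 0, [], [nat_lit 21, nat_lit 40, nat_lit 40, nat_lit 80, nat_lit 14, nat_lit 373, nat_lit 150, nat_lit 10]⟩,
 zbF0, [⟨nat_lit 0, nat_lit 100, nat_lit 88, nat_lit 81, nat_lit 351632504⟩, ⟨nat_lit 4, nat_lit 100, nat_lit 93, nat_lit 97, nat_lit 488726151⟩]⟩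
noncomputable def p062_l75 : Lf2 := ⟨nat_lit 0, nat_lit 5, [nat_lit 4, nat_lit 5, nat_lit 5, nat_lit 20], false, nat_lit 240, nat_lit 320, nat_lit 160, nat_lit 240, ⟨nat_lit 1000, nat_lit 0, nat_lit 0, nat_lit 0, nat_lit 0, nat_lit 0, nat_lit 0, nat_lit 0, nat_lit 0, nat_lit 0, nat_lit 0, nat_lit 0, nat_lit 0, nat_lit 0, nat_lit 0, nat_lit 0, false, false⟩,
 nat_lit 0, nat_lit 8368, nat_lit 0, nat_lit 0, nat_lit 5793, nat_lit 7620, nat_lit 1833, nat_lit 0, nat_lit 0, nat_lit 0, nat_lit 0, nat_lit 0, nat_lit 0, nat_lit 0, nat_lit 0, nat_lit 0, nat_lit 0, nat_lit 0, [],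
 ⟨p062_k36, nat_lit 0, nat_lit 0, nat_lit 280, nat_lit 0, nat_lit 602358, [nat_lit 3282000000, nat_lit 4688000000, nat_lit 6250000000], [], [nat_lit 20137902738, nat_lit 20643305445, nat_lit 20395158628, nat_lit 20883763997, nat_lit 23746873672, nat_lit 24517571254, nat_lit 23817716514, nat_lit 24262320759], nat_lit 1271250, nat_lit 1271250, nat_lit 490000, nat_lit 1100001, nat_lit 1271250, nat_lit 1271250, [nat_lit 780000, nat_lit 1100000, nat_lit 1442500], [nat_lit 59, nat_lit 40, nat_lit 40, nat_lit 80, nat_lit 3, nat_lit 249, nat_lit 40, nat_lit 8]⟩, ⟨p062_k15, nat_lit 0, nat_lit 0, nat_lit 7, nat_lit 0, nat_lit 0, [nat_lit 4688000000, nat_lit 6250000000, nat_lit 9842000000], [], [nat_lit 7261818000, nat_lit 11435424320, nat_lit 8536445760, nat_lit 12204471520, nat_lit 12285835440, nat_lit 15725603600, nat_lit 12924742880, nat_lit 15950664400], nat_lit 0, nat_lit 0, nat_lit 0, nat_lit 0, nat_lit 0, nat_lit 0,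 [], [nat_lit 11, nat_lit 40, nat_lit 40, nat_lit 80, nat_lit 1, nat_lit 401, nat_lit 175, nat_lit 11]⟩,
 zbF0, [⟨nat_lit 0, nat_lit 100, nat_lit 91, nat_lit 91, nat_lit 595515711⟩, ⟨nat_lit 16, nat_lit 94, nat_lit 88, nat_lit 100, nat_lit 499528240⟩]⟩
noncomputable def p062_l76 : Lf2 := ⟨nat_lit 0, nat_lit 5, [nat_lit 4, nat_lit 5, nat_lit 5, nat_lit 20], false, nat_lit 240, nat_lit 300, nat_lit 240, nat_lit 320, ⟨nat_lit 1000, nat_lit 0, nat_lit 0, nat_lit 0, nat_lit 0, nat_lit 0, nat_lit 0, nat_lit 0, nat_lit 0, nat_lit 0, nat_lit 0, nat_lit 0, nat_lit 0, nat_lit 0, nat_lit 0, nat_lit 0, false, false⟩,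
 nat_lit 0, nat_lit 8529, nat_lit 0, nat_lit 0, nat_lit 5904, nat_lit 6559, nat_lit 2481, nat_lit 0, nat_lit 0, nat_lit 0, nat_lit 0, nat_lit 0, nat_lit 0, nat_lit 0, nat_lit 0, nat_lit 0, nat_lit 0, nat_lit 0, [],
 ⟨p062_k9, nat_lit 0, nat_lit 0, nat_lit 246, nat_lit 0, nat_lit 540431, [nat_lit 3282000000, nat_lit 6250000000], [], [nat_lit 19439872544, nat_lit 19748253624, nat_lit 19928308032, nat_lit 20202573448, nat_lit 22435566848, nat_lit 22701123618, nat_lit 22589761752, nat_lit 22826426866], nat_lit 1271250, nat_lit 1271250, nat_lit 490000, nat_lit 1100001, nat_lit 1271250, nat_lit 1271250, [nat_lit 780000, nat_lit 1435000], [nat_lit 49, nat_lit 40, nat_lit 40, nat_lit 80, nat_lit 16, nat_lit 249, nat_lit 40, nat_lit 8]⟩, ⟨p062_k17, nat_lit 0, nat_lit 0, nat_lit 49, nat_lit 0, nat_lit 0, [nat_lit 4688000000, nat_lit 9842000000], [], [nat_lit 13624804708, nat_lit 16771346420, nat_lit 14443432816, nat_lit 17223206580,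 nat_lit 20319708708, nat_lit 22745721272, nat_lit 20370114912, nat_lit 22523123204], nat_lit 0, nat_lit 0, nat_lit 0, nat_lit 0, nat_lit 0, nat_lit 0, [], [nat_lit 70, nat_lit 40, nat_lit 40, nat_lit 80, nat_lit 13, nat_lit 428, nat_lit 200, nat_lit 12]⟩,
 zbF0, [⟨nat_lit 0, nat_lit 100, nat_lit 93, nat_lit 90, nat_lit 232504625⟩, ⟨nat_lit 4, nat_lit 100, nat_lit 95, nat_lit 93, nat_lit 182097601⟩, ⟨nat_lit 19, nat_lit 100, nat_lit 81, nat_lit 88, nat_lit 333059545⟩, ⟨nat_lit 11, nat_lit 91, nat_lit 91, nat_lit 100, nat_lit 356404853⟩]⟩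
noncomputable def p062_l77 : Lf2 := ⟨nat_lit 0, nat_lit 5, [nat_lit 4, nat_lit 5, nat_lit 5, nat_lit 20], false, nat_lit 240, nat_lit 296, nat_lit 240, nat_lit 320, ⟨nat_lit 1000, nat_lit 0, nat_lit 0, nat_lit 0, nat_lit 0, nat_lit 0, nat_lit 0, nat_lit 0, nat_lit 0, nat_lit 0, nat_lit 0, nat_lit 0, nat_lit 0, nat_lit 0, nat_lit 0, nat_lit 0, false, false⟩,
 nat_lit 0, nat_lit 8340, nat_lit 0, nat_lit 0, nat_lit 5892, nat_lit 6559, nat_lit 1812, nat_lit 0, nat_lit 0, nat_lit 0, nat_lit 0, nat_lit 0, nat_lit 0, nat_lit 0, nat_lit 0, nat_lit 0, nat_lit 0, nat_lit 0, [],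
 ⟨p062_k37, nat_lit 0, nat_lit 0, nat_lit 254, nat_lit 0, nat_lit 567941, [nat_lit 3282000000, nat_lit 6250000000], [], [nat_lit 19824222236, nat_lit 20093529292, nat_lit 20242197004, nat_lit 20516182472, nat_lit 22538933159, nat_lit 22807076686, nat_lit 22689042456, nat_lit 22927991819], nat_lit 1271250, nat_lit 1271250, nat_lit 490000, nat_lit 1100001, nat_lit 1271250, nat_lit 1271250, [nat_lit 780000, nat_lit 1435000], [nat_lit 49, nat_lit 40, nat_lit 40, nat_lit 80, nat_lit 16, nat_lit 249, nat_lit 40, nat_lit 8]⟩, ⟨p062_k17, nat_lit 0, nat_lit 0, nat_lit 49, nat_lit 0, nat_lit 0, [nat_lit 4688000000, nat_lit 9842000000], [], [nat_lit 13624804708, nat_lit 16771346420, nat_lit 14443432816, nat_lit 17223206580, nat_lit 20319708708, nat_lit 22745721272, nat_lit 20370114912, nat_lit 22523123204], nat_lit 0, nat_lit 0, nat_lit 0, nat_lit 0, nat_lit 0, nat_lit 0, [], [nat_lit 70, nat_lit 40, nat_lit 40, nat_lit 80,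 nat_lit 13, nat_lit 428, nat_lit 200, nat_lit 12]⟩,
 zbF0, [⟨nat_lit 0, nat_lit 100, nat_lit 91, nat_lit 91, nat_lit 296393119⟩, ⟨nat_lit 4, nat_lit 100, nat_lit 92, nat_lit 92, nat_lit 201793446⟩, ⟨nat_lit 7, nat_lit 81, nat_lit 100, nat_lit 88, nat_lit 301837684⟩, ⟨nat_lit 11, nat_lit 91, nat_lit 91, nat_lit 100, nat_lit 340270871⟩]⟩
noncomputable def p062_l78 : Lf2 := ⟨nat_lit 0, nat_lit 5, [nat_lit 4, nat_lit 5, nat_lit 5, nat_lit 20], false, nat_lit 240, nat_lit 300, nat_lit 320, nat_lit 352, ⟨nat_lit 1000, nat_lit 0, nat_lit 0, nat_lit 0, nat_lit 0, nat_lit 0, nat_lit 0, nat_lit 0, nat_lit 0, nat_lit 0, nat_lit 0, nat_lit 0, nat_lit 0, nat_lit 0, nat_lit 0, nat_lit 0, false, false⟩,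
 nat_lit 0, nat_lit 8469, nat_lit 0, nat_lit 0, nat_lit 5863, nat_lit 6559, nat_lit 1974, nat_lit 0, nat_lit 0, nat_lit 0, nat_lit 0, nat_lit 0, nat_lit 0, nat_lit 0, nat_lit 0, nat_lit 0, nat_lit 0, nat_lit 0, [],
 ⟨p062_k36, nat_lit 0, nat_lit 0, nat_lit 270, nat_lit 0, nat_lit 584208, [nat_lit 3282000000, nat_lit 4688000000, nat_lit 6250000000], [], [nat_lit 19605726698, nat_lit 20182691213, nat_lit 20064645004, nat_lit 20611262858, nat_lit 22554289544, nat_lit 23083602518, nat_lit 22718257782, nat_lit 23190096092], nat_lit 1271250, nat_lit 1271250, nat_lit 490000, nat_lit 1100001, nat_lit 1271250, nat_lit 1271250, [nat_lit 780000, nat_lit 1100000, nat_lit 1442500], [nat_lit 59, nat_lit 40, nat_lit 40, nat_lit 80, nat_lit 3, nat_lit 249, nat_lit 40, nat_lit 8]⟩, ⟨p062_k15, nat_lit 0, nat_lit 0, nat_lit 82, nat_lit 0, nat_lit 0, [nat_lit 4688000000, nat_lit 6250000000, nat_lit 9842000000], [], [nat_lit 20319708708,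 nat_lit 22745721272, nat_lit 20370114912, nat_lit 22523123204, nat_lit 23692816744, nat_lit 26171317028, nat_lit 23214540108, nat_lit 25388969648], nat_lit 0, nat_lit 0, nat_lit 0, nat_lit 0, nat_lit 0, nat_lit 0, [], [nat_lit 11, nat_lit 40, nat_lit 40, nat_lit 80, nat_lit 1, nat_lit 345, nat_lit 125, nat_lit 9]⟩,
 zbF0, [⟨nat_lit 0, nat_lit 100, nat_lit 91, nat_lit 91, nat_lit 49382674⟩, ⟨nat_lit 7, nat_lit 81, nat_lit 100, nat_lit 88, nat_lit 675971279⟩, ⟨nat_lit 11, nat_lit 78, nat_lit 100, nat_lit 95, nat_lit 648952406⟩]⟩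
noncomputable def p062_l79 : Lf2 := ⟨nat_lit 0, nat_lit 5, [nat_lit 4, nat_lit 5, nat_lit 5, nat_lit 20], false, nat_lit 240, nat_lit 320, nat_lit 240, nat_lit 364, ⟨nat_lit 1000, nat_lit 0, nat_lit 0, nat_lit 0, nat_lit 0, nat_lit 0, nat_lit 0, nat_lit 0, nat_lit 0, nat_lit 0, nat_lit 0, nat_lit 0, nat_lit 0, nat_lit 0, nat_lit 0, nat_lit 0, false, false⟩,
 nat_lit 0, nat_lit 7925, nat_lit 0, nat_lit 0, nat_lit 5486, nat_lit 5979, nat_lit 2367, nat_lit 0, nat_lit 0, nat_lit 0, nat_lit 0, nat_lit 0, nat_lit 0, nat_lit 0, nat_lit 0, nat_lit 0, nat_lit 0, nat_lit 0, [],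
 ⟨p062_k9, nat_lit 0, nat_lit 0, nat_lit 220, nat_lit 0, nat_lit 435222, [nat_lit 3282000000, nat_lit 6250000000], [], [nat_lit 19280016689, nat_lit 19572988834, nat_lit 19867565296, nat_lit 20166592122, nat_lit 23587117660, nat_lit 23859970233, nat_lit 23744713820, nat_lit 23988747389], nat_lit 1271250, nat_lit 1271250, nat_lit 490000, nat_lit 1100001, nat_lit 1271250, nat_lit 1271250, [nat_lit 780000, nat_lit 1435000], [nat_lit 49, nat_lit 40, nat_lit 40, nat_lit 80, nat_lit 16, nat_lit 249, nat_lit 40, nat_lit 8]⟩, ⟨p062_k17, nat_lit 0, nat_lit 0, nat_lit 75, nat_lit 0, nat_lit 0, [nat_lit 4688000000, nat_lit 9842000000], [], [nat_lit 14356757748, nat_lit 17343006020, nat_lit 15273630896, nat_lit 17918846980, nat_lit 24829925514, nat_lit 26775652486, nat_lit 24596382808, nat_lit 26335021608], nat_lit 0, nat_lit 0, nat_lit 0, nat_lit 0, nat_lit 0, nat_lit 0, [], [nat_lit 70, nat_lit 40, nat_lit 40, nat_lit 80,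 nat_lit 13, nat_lit 456, nat_lit 225, nat_lit 13]⟩,
 zbF0, [⟨nat_lit 23, nat_lit 100, nat_lit 80, nat_lit 100, nat_lit 575227207⟩, ⟨nat_lit 11, nat_lit 91, nat_lit 91, nat_lit 100, nat_lit 56947202⟩]⟩
noncomputable def p062_l80 : Lf2 := ⟨nat_lit 0, nat_lit 5, [nat_lit 4, nat_lit 5, nat_lit 5, nat_lit 20], false, nat_lit 240, nat_lit 316, nat_lit 240, nat_lit 364, ⟨nat_lit 1000, nat_lit 0, nat_lit 0, nat_lit 0, nat_lit 0, nat_lit 0, nat_lit 0, nat_lit 0, nat_lit 0, nat_lit 0, nat_lit 0, nat_lit 0, nat_lit 0, nat_lit 0, nat_lit 0, nat_lit 0, false, false⟩,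
 nat_lit 0, nat_lit 7754, nat_lit 0, nat_lit 0, nat_lit 5478, nat_lit 5979, nat_lit 1892, nat_lit 0, nat_lit 0, nat_lit 0, nat_lit 0, nat_lit 0, nat_lit 0, nat_lit 0, nat_lit 0, nat_lit 0, nat_lit 0, nat_lit 0, [],
 ⟨p062_k37, nat_lit 0, nat_lit 0, nat_lit 229, nat_lit 0, nat_lit 465586, [nat_lit 3282000000, nat_lit 6250000000], [], [nat_lit 19633286757, nat_lit 19926695564, nat_lit 20187293906, nat_lit 20486097204, nat_lit 23661872165, nat_lit 23937673725, nat_lit 23816038348, nat_lit 24062658848], nat_lit 1271250, nat_lit 1271250, nat_lit 490000, nat_lit 1100001, nat_lit 1271250, nat_lit 1271250, [nat_lit 780000, nat_lit 1435000], [nat_lit 49, nat_lit 40, nat_lit 40, nat_lit 80, nat_lit 16, nat_lit 249, nat_lit 40, nat_lit 8]⟩, ⟨p062_k17, nat_lit 0, nat_lit 0, nat_lit 75, nat_lit 0, nat_lit 0, [nat_lit 4688000000, nat_lit 9842000000], [], [nat_lit 14356757748, nat_lit 17343006020, nat_lit 15273630896, nat_lit 17918846980,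 nat_lit 24829925514, nat_lit 26775652486, nat_lit 24596382808, nat_lit 26335021608], nat_lit 0, nat_lit 0, nat_lit 0, nat_lit 0, nat_lit 0, nat_lit 0, [], [nat_lit 70, nat_lit 40, nat_lit 40, nat_lit 80, nat_lit 13, nat_lit 456, nat_lit 225, nat_lit 13]⟩,
 zbF0, [⟨nat_lit 23, nat_lit 100, nat_lit 79, nat_lit 100, nat_lit 580998520⟩, ⟨nat_lit 11, nat_lit 91, nat_lit 91, nat_lit 100, nat_lit 52672170⟩]⟩
noncomputable def p062_l81 : Lf2 := ⟨nat_lit 0, nat_lit 5, [nat_lit 4, nat_lit 5, nat_lit 5, nat_lit 20], false, nat_lit 240, nat_lit 312, nat_lit 160, nat_lit 240, ⟨nat_lit 1000, nat_lit 0, nat_lit 0, nat_lit 0, nat_lit 0, nat_lit 0, nat_lit 0, nat_lit 0, nat_lit 0, nat_lit 0, nat_lit 0, nat_lit 0, nat_lit 0, nat_lit 0, nat_lit 0, nat_lit 0, false, false⟩,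
 nat_lit 0, nat_lit 8012, nat_lit 0, nat_lit 0, nat_lit 5776, nat_lit 7748, nat_lit 1333, nat_lit 0, nat_lit 0, nat_lit 0, nat_lit 0, nat_lit 0, nat_lit 0, nat_lit 0, nat_lit 0, nat_lit 0, nat_lit 0, nat_lit 0, [],
 ⟨p062_k38, nat_lit 0, nat_lit 0, nat_lit 313, nat_lit 0, nat_lit 656938, [nat_lit 3282000000, nat_lit 4688000000, nat_lit 6250000000], [], [nat_lit 20667848912, nat_lit 21199904720, nat_lit 20896555440, nat_lit 21439062624, nat_lit 23908011292, nat_lit 24697513130, nat_lit 23972210341, nat_lit 24426105658], nat_lit 1271250, nat_lit 1271250, nat_lit 490000, nat_lit 1100001, nat_lit 1271250, nat_lit 1271250, [nat_lit 780000, nat_lit 1100000, nat_lit 1442500], [nat_lit 59, nat_lit 40, nat_lit 40, nat_lit 80, nat_lit 3, nat_lit 249, nat_lit 40, nat_lit 8]⟩, ⟨p062_k15, nat_lit 0, nat_lit 0, nat_lit 7, nat_lit 0, nat_lit 0, [nat_lit 4688000000, nat_lit 6250000000, nat_lit 9842000000], [], [nat_lit 7057824400,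 nat_lit 11277208128, nat_lit 8319235904, nat_lit 12026026208, nat_lit 12124300976, nat_lit 15732767952, nat_lit 12741526752, nat_lit 15797143760], nat_lit 0, nat_lit 0, nat_lit 0, nat_lit 0, nat_lit 0, nat_lit 0, [], [nat_lit 11, nat_lit 40, nat_lit 40, nat_lit 80, nat_lit 1, nat_lit 401, nat_lit 175, nat_lit 11]⟩,
 zbF0, [⟨nat_lit 0, nat_lit 100, nat_lit 87, nat_lit 95, nat_lit 639079799⟩, ⟨nat_lit 16, nat_lit 91, nat_lit 91, nat_lit 100, nat_lit 500710639⟩]⟩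
noncomputable def p062_l82 : Lf2 := ⟨nat_lit 0, nat_lit 5, [nat_lit 4, nat_lit 5, nat_lit 5, nat_lit 20], false, nat_lit 240, nat_lit 312, nat_lit 240, nat_lit 320, ⟨nat_lit 1000, nat_lit 0, nat_lit 0, nat_lit 0, nat_lit 0, nat_lit 0, nat_lit 0, nat_lit 0, nat_lit 0, nat_lit 0, nat_lit 0, nat_lit 0, nat_lit 0, nat_lit 0, nat_lit 0, nat_lit 0, false, false⟩,
 nat_lit 0, nat_lit 3793, nat_lit 0, nat_lit 0, nat_lit 2734, nat_lit 6578, nat_lit 744, nat_lit 0, nat_lit 250, nat_lit 0, nat_lit 0, nat_lit 0, nat_lit 0, nat_lit 0, nat_lit 0, nat_lit 0, nat_lit 0, nat_lit 0, [],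
 ⟨p062_k38, nat_lit 0, nat_lit 0, nat_lit 0, nat_lit 0, nat_lit 656938, [nat_lit 3282000000, nat_lit 4688000000, nat_lit 6250000000], [], [nat_lit 17823666834, nat_lit 18243259144, nat_lit 18222547116, nat_lit 18643957800, nat_lit 21250562479, nat_lit 21807340567, nat_lit 21436774526, nat_lit 21971304792], nat_lit 1271250, nat_lit 1271250, nat_lit 490000, nat_lit 780000, nat_lit 1271250, nat_lit 1271250, [nat_lit 780000, nat_lit 1100000, nat_lit 1442500], [nat_lit 59, nat_lit 40, nat_lit 40, nat_lit 80]⟩, ⟨p062_k15, nat_lit 0, nat_lit 0, nat_lit 60, nat_lit 0, nat_lit 0, [nat_lit 4688000000, nat_lit 6250000000, nat_lit 9842000000], [], [nat_lit 13600826936, nat_lit 16752619640, nat_lit 13630362392, nat_lit 16614462912, nat_lit 20307282936, nat_lit 22758335464, nat_lit 19982605280, nat_lit 22289116600], nat_lit 0, nat_lit 0, nat_lit 0, nat_lit 0, nat_lit 0, nat_lit 0, [], [nat_lit 11, nat_lit 40, nat_lit 40, nat_lit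 80, nat_lit 1, nat_lit 428, nat_lit 200, nat_lit 12]⟩,
 zbF0, [⟨nat_lit 0, nat_lit 100, nat_lit 86, nat_lit 83, nat_lit 224755621⟩, ⟨nat_lit 23, nat_lit 100, nat_lit 86, nat_lit 94, nat_lit 449906769⟩]⟩
noncomputable def p062_l83 : Lf2 := ⟨nat_lit 0, nat_lit 5, [nat_lit 4, nat_lit 5, nat_lit 5, nat_lit 20], false, nat_lit 240, nat_lit 312, nat_lit 240, nat_lit 320, ⟨nat_lit 1000, nat_lit 0, nat_lit 0, nat_lit 0, nat_lit 0, nat_lit 0, nat_lit 0, nat_lit 0, nat_lit 0, nat_lit 0, nat_lit 0, nat_lit 0, nat_lit 0, nat_lit 0, nat_lit 0, nat_lit 0, false, false⟩,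
 nat_lit 0, nat_lit 8958, nat_lit 0, nat_lit 0, nat_lit 6458, nat_lit 6559, nat_lit 2393, nat_lit 0, nat_lit 0, nat_lit 0, nat_lit 0, nat_lit 0, nat_lit 0, nat_lit 0, nat_lit 0, nat_lit 0, nat_lit 0, nat_lit 0, [],
 ⟨p062_k38, nat_lit 0, nat_lit 0, nat_lit 288, nat_lit 0, nat_lit 612824, [nat_lit 3282000000, nat_lit 4688000000, nat_lit 6250000000], [], [nat_lit 18353334558, nat_lit 18677134843, nat_lit 18273251492, nat_lit 18579712046, nat_lit 21993500005, nat_lit 22262005834, nat_lit 21718424401, nat_lit 21972884804], nat_lit 1271250, nat_lit 1271250, nat_lit 490000, nat_lit 780000, nat_lit 1271250, nat_lit 1271250, [nat_lit 780000, nat_lit 1100000, nat_lit 1442500], [nat_lit 59, nat_lit 40, nat_lit 40, nat_lit 80, nat_lit 3, nat_lit 238, nat_lit 30, nat_lit 8]⟩, ⟨p062_k15, nat_lit 0, nat_lit 0, nat_lit 60, nat_lit 0, nat_lit 0, [nat_lit 4688000000, nat_lit 6250000000, nat_lit 9842000000], [], [nat_lit 13624804708,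 nat_lit 16771346420, nat_lit 13656917476, nat_lit 16636147536, nat_lit 20319708708, nat_lit 22745721272, nat_lit 19998417840, nat_lit 22301681300], nat_lit 0, nat_lit 0, nat_lit 0, nat_lit 0, nat_lit 0, nat_lit 0, [], [nat_lit 11, nat_lit 40, nat_lit 40, nat_lit 80, nat_lit 1, nat_lit 428, nat_lit 200, nat_lit 12]⟩,
 zbF0, [⟨nat_lit 0, nat_lit 100, nat_lit 89, nat_lit 93, nat_lit 360367427⟩, ⟨nat_lit 4, nat_lit 100, nat_lit 92, nat_lit 96, nat_lit 212509763⟩, ⟨nat_lit 19, nat_lit 100, nat_lit 77, nat_lit 91, nat_lit 269702800⟩, ⟨nat_lit 23, nat_lit 100, nat_lit 86, nat_lit 94, nat_lit 375199047⟩]⟩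
noncomputable def p062_l84 : Lf2 := ⟨nat_lit 0, nat_lit 5, [nat_lit 4, nat_lit 5, nat_lit 5, nat_lit 20], false, nat_lit 240, nat_lit 304, nat_lit 240, nat_lit 320, ⟨nat_lit 1000, nat_lit 0, nat_lit 0, nat_lit 0, nat_lit 0, nat_lit 0, nat_lit 0, nat_lit 0, nat_lit 0, nat_lit 0, nat_lit 0, nat_lit 0, nat_lit 0, nat_lit 0, nat_lit 0, nat_lit 0, false, false⟩,
 nat_lit 0, nat_lit 8860, nat_lit 0, nat_lit 0, nat_lit 6515, nat_lit 6689, nat_lit 2393, nat_lit 0, nat_lit 0, nat_lit 0, nat_lit 0, nat_lit 0, nat_lit 0, nat_lit 0, nat_lit 0, nat_lit 0, nat_lit 0, nat_lit 0, [],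
 ⟨p062_k39, nat_lit 0, nat_lit 0, nat_lit 306, nat_lit 0, nat_lit 639142, [nat_lit 3282000000, nat_lit 4688000000, nat_lit 6250000000], [], [nat_lit 18503472003, nat_lit 18828858740, nat_lit 18398280305, nat_lit 18706206500, nat_lit 21703212449, nat_lit 22039501293, nat_lit 21426464448, nat_lit 21687833013], nat_lit 1271250, nat_lit 1271250, nat_lit 490000, nat_lit 780000, nat_lit 1271250, nat_lit 1271250, [nat_lit 780000, nat_lit 1100000, nat_lit 1442500], [nat_lit 59, nat_lit 40, nat_lit 40, nat_lit 80, nat_lit 3, nat_lit 238, nat_lit 30, nat_lit 8]⟩, ⟨p062_k15, nat_lit 0, nat_lit 0, nat_lit 60, nat_lit 0, nat_lit 0, [nat_lit 4688000000, nat_lit 6250000000, nat_lit 9842000000], [], [nat_lit 13460746268, nat_lit 16643215820, nat_lit 13475224796, nat_lit 16487779056, nat_lit 20234690268, nat_lit 22836788932, nat_lit 19890226640, nat_lit 22215712300], nat_lit 0, nat_lit 0, nat_lit 0, nat_lit 0, nat_lit 0, nat_lit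 0, [], [nat_lit 11, nat_lit 40, nat_lit 40, nat_lit 80, nat_lit 1, nat_lit 428, nat_lit 200, nat_lit 12]⟩,
 zbF0, [⟨nat_lit 0, nat_lit 100, nat_lit 87, nat_lit 95, nat_lit 601719254⟩, ⟨nat_lit 16, nat_lit 89, nat_lit 100, nat_lit 95, nat_lit 422787959⟩, ⟨nat_lit 19, nat_lit 100, nat_lit 77, nat_lit 91, nat_lit 31106149⟩, ⟨nat_lit 23, nat_lit 100, nat_lit 83, nat_lit 93, nat_lit 171809250⟩]⟩
noncomputable def p062_l85 : Lf2 := ⟨nat_lit 0, nat_lit 5, [nat_lit 4, nat_lit 5, nat_lit 5, nat_lit 20], false, nat_lit 240, nat_lit 312, nat_lit 240, nat_lit 320, ⟨nat_lit 1000, nat_lit 0, nat_lit 0, nat_lit 0, nat_lit 0, nat_lit 0, nat_lit 0, nat_lit 0, nat_lit 0, nat_lit 0, nat_lit 0, nat_lit 0, nat_lit 0, nat_lit 0, nat_lit 0, nat_lit 0, false, false⟩,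
 nat_lit 0, nat_lit 8047, nat_lit 0, nat_lit 0, nat_lit 5801, nat_lit 6719, nat_lit 1349, nat_lit 0, nat_lit 0, nat_lit 0, nat_lit 0, nat_lit 0, nat_lit 0, nat_lit 0, nat_lit 0, nat_lit 0, nat_lit 0, nat_lit 0, [],
 ⟨p062_k38, nat_lit 0, nat_lit 0, nat_lit 290, nat_lit 0, nat_lit 656938, [nat_lit 3282000000, nat_lit 4688000000, nat_lit 6250000000], [], [nat_lit 20453918234, nat_lit 20960518700, nat_lit 20814538166, nat_lit 21358263224, nat_lit 23666208057, nat_lit 24150037049, nat_lit 23895673674, nat_lit 24350427348], nat_lit 1271250, nat_lit 1271250, nat_lit 780000, nat_lit 1100001, nat_lit 1271250, nat_lit 1271250, [nat_lit 780000, nat_lit 1100000, nat_lit 1442500], [nat_lit 59, nat_lit 40, nat_lit 40, nat_lit 80, nat_lit 3, nat_lit 249, nat_lit 40, nat_lit 8]⟩, ⟨p062_k15, nat_lit 0, nat_lit 0, nat_lit 42, nat_lit 0, nat_lit 0, [nat_lit 4688000000, nat_lit 6250000000, nat_lit 9842000000], [], [nat_lit 13433295716,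 nat_lit 16453540176, nat_lit 14214412656, nat_lit 17031305780, nat_lit 19865259440, nat_lit 22195873300, nat_lit 20223421792, nat_lit 22400908164], nat_lit 0, nat_lit 0, nat_lit 0, nat_lit 0, nat_lit 0, nat_lit 0, [], [nat_lit 11, nat_lit 40, nat_lit 40, nat_lit 80, nat_lit 1, nat_lit 428, nat_lit 200, nat_lit 12]⟩,
 zbF0, [⟨nat_lit 16, nat_lit 91, nat_lit 91, nat_lit 100, nat_lit 509396388⟩]⟩
noncomputable def p062_l86 : Lf2 := ⟨nat_lit 0, nat_lit 5, [nat_lit 4, nat_lit 5, nat_lit 5, nat_lit 20], false, nat_lit 240, nat_lit 300, nat_lit 320, nat_lit 364, ⟨nat_lit 1000, nat_lit 0, nat_lit 0, nat_lit 0, nat_lit 0, nat_lit 0, nat_lit 0, nat_lit 0, nat_lit 0, nat_lit 0, nat_lit 0, nat_lit 0, nat_lit 0, nat_lit 0, nat_lit 0, nat_lit 0, false, false⟩,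
 nat_lit 0, nat_lit 8099, nat_lit 0, nat_lit 0, nat_lit 5838, nat_lit 6559, nat_lit 1395, nat_lit 0, nat_lit 0, nat_lit 0, nat_lit 0, nat_lit 0, nat_lit 0, nat_lit 0, nat_lit 0, nat_lit 0, nat_lit 0, nat_lit 0, [],
 ⟨p062_k38, nat_lit 0, nat_lit 0, nat_lit 274, nat_lit 0, nat_lit 595384, [nat_lit 3282000000, nat_lit 4688000000, nat_lit 6250000000], [], [nat_lit 20283424856, nat_lit 20443880608, nat_lit 20262661612, nat_lit 20436972709, nat_lit 23154896499, nat_lit 23313361019, nat_lit 23007539871, nat_lit 23157902240], nat_lit 1271250, nat_lit 1271250, nat_lit 490000, nat_lit 780000, nat_lit 1271250, nat_lit 1271250, [nat_lit 780000, nat_lit 1100000, nat_lit 1442500], [nat_lit 59, nat_lit 40, nat_lit 40, nat_lit 80, nat_lit 3, nat_lit 238, nat_lit 30, nat_lit 8]⟩, ⟨p062_k15, nat_lit 0, nat_lit 0, nat_lit 90, nat_lit 0, nat_lit 0, [nat_lit 4688000000, nat_lit 6250000000, nat_lit 9842000000], [], [nat_lit 20319708708,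 nat_lit 22745721272, nat_lit 19998417840, nat_lit 22301681300, nat_lit 25115141504, nat_lit 27456220980, nat_lit 24362307162, nat_lit 26602080042], nat_lit 0, nat_lit 0, nat_lit 0, nat_lit 0, nat_lit 0, nat_lit 0, [], [nat_lit 11, nat_lit 40, nat_lit 40, nat_lit 80, nat_lit 1, nat_lit 317, nat_lit 100, nat_lit 8]⟩,
 zbF0, [⟨nat_lit 0, nat_lit 100, nat_lit 90, nat_lit 93, nat_lit 126469799⟩, ⟨nat_lit 19, nat_lit 100, nat_lit 77, nat_lit 91, nat_lit 436192250⟩, ⟨nat_lit 23, nat_lit 100, nat_lit 82, nat_lit 92, nat_lit 634006065⟩]⟩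
noncomputable def p062_l87 : Lf2 := ⟨nat_lit 0, nat_lit 5, [nat_lit 4, nat_lit 5, nat_lit 5, nat_lit 20], false, nat_lit 240, nat_lit 300, nat_lit 320, nat_lit 364, ⟨nat_lit 1000, nat_lit 0, nat_lit 0, nat_lit 0, nat_lit 0, nat_lit 0, nat_lit 0, nat_lit 0, nat_lit 0, nat_lit 0, nat_lit 0, nat_lit 0, nat_lit 0, nat_lit 0, nat_lit 0, nat_lit 0, false, false⟩,
 nat_lit 0, nat_lit 7980, nat_lit 0, nat_lit 0, nat_lit 5822, nat_lit 6559, nat_lit 1324, nat_lit 0, nat_lit 0, nat_lit 0, nat_lit 0, nat_lit 0, nat_lit 0, nat_lit 0, nat_lit 0, nat_lit 0, nat_lit 0, nat_lit 0, [],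
 ⟨p062_k40, nat_lit 0, nat_lit 0, nat_lit 277, nat_lit 0, nat_lit 602777, [nat_lit 3282000000, nat_lit 4688000000, nat_lit 6250000000], [], [nat_lit 20507882797, nat_lit 20614846537, nat_lit 20488065480, nat_lit 20604108314, nat_lit 23358778369, nat_lit 23464280851, nat_lit 23205793777, nat_lit 23305906085], nat_lit 1271250, nat_lit 1271250, nat_lit 490000, nat_lit 780000, nat_lit 1271250, nat_lit 1271250, [nat_lit 780000, nat_lit 1100000, nat_lit 1442500], [nat_lit 59, nat_lit 40, nat_lit 40, nat_lit 80, nat_lit 3, nat_lit 238, nat_lit 30, nat_lit 8]⟩, ⟨p062_k15, nat_lit 0, nat_lit 0, nat_lit 90, nat_lit 0, nat_lit 0, [nat_lit 4688000000, nat_lit 6250000000, nat_lit 9842000000], [], [nat_lit 20319708708, nat_lit 22745721272, nat_lit 19998417840, nat_lit 22301681300, nat_lit 25115141504, nat_lit 27456220980, nat_lit 24362307162, nat_lit 26602080042], nat_lit 0, nat_lit 0, nat_lit 0, nat_lit 0, nat_lit 0, nat_lit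 0, [], [nat_lit 11, nat_lit 40, nat_lit 40, nat_lit 80, nat_lit 1, nat_lit 317, nat_lit 100, nat_lit 8]⟩,
 zbF0, [⟨nat_lit 0, nat_lit 100, nat_lit 89, nat_lit 93, nat_lit 128699063⟩, ⟨nat_lit 19, nat_lit 100, nat_lit 77, nat_lit 91, nat_lit 425662753⟩, ⟨nat_lit 23, nat_lit 100, nat_lit 82, nat_lit 92, nat_lit 631739175⟩]⟩
noncomputable def p062_l88 : Lf2 := ⟨nat_lit 0, nat_lit 5, [nat_lit 4, nat_lit 5, nat_lit 5, nat_lit 20], false, nat_lit 240, nat_lit 288, nat_lit 320, nat_lit 352, ⟨nat_lit 1000, nat_lit 0, nat_lit 0, nat_lit 0, nat_lit 0, nat_lit 0, nat_lit 0, nat_lit 0, nat_lit 0, nat_lit 0, nat_lit 0, nat_lit 0, nat_lit 0, nat_lit 0, nat_lit 0, nat_lit 0, false, false⟩,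
 nat_lit 0, nat_lit 7975, nat_lit 0, nat_lit 0, nat_lit 5864, nat_lit 6689, nat_lit 1259, nat_lit 0, nat_lit 0, nat_lit 0, nat_lit 0, nat_lit 0, nat_lit 0, nat_lit 0, nat_lit 0, nat_lit 0, nat_lit 0, nat_lit 0, [],
 ⟨p062_k39, nat_lit 0, nat_lit 0, nat_lit 286, nat_lit 0, nat_lit 620148, [nat_lit 3282000000, nat_lit 4688000000, nat_lit 6250000000], [], [nat_lit 20526299299, nat_lit 20794311955, nat_lit 20470421768, nat_lit 20761608800, nat_lit 22773720252, nat_lit 23046916564, nat_lit 22638508463, nat_lit 22897649159], nat_lit 1271250, nat_lit 1271250, nat_lit 490000, nat_lit 780000, nat_lit 1271250, nat_lit 1271250, [nat_lit 780000, nat_lit 1100000, nat_lit 1442500], [nat_lit 59, nat_lit 40, nat_lit 40, nat_lit 80, nat_lit 3, nat_lit 238, nat_lit 30, nat_lit 8]⟩, ⟨p062_k15, nat_lit 0, nat_lit 0, nat_lit 82, nat_lit 0, nat_lit 0, [nat_lit 4688000000, nat_lit 6250000000, nat_lit 9842000000], [], [nat_lit 20234690268,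 nat_lit 22836788932, nat_lit 19890226640, nat_lit 22215712300, nat_lit 23804869568, nat_lit 26307464988, nat_lit 23092386528, nat_lit 25483605343], nat_lit 0, nat_lit 0, nat_lit 0, nat_lit 0, nat_lit 0, nat_lit 0, [], [nat_lit 11, nat_lit 40, nat_lit 40, nat_lit 80, nat_lit 1, nat_lit 317, nat_lit 100, nat_lit 8]⟩,
 zbF0, [⟨nat_lit 0, nat_lit 100, nat_lit 85, nat_lit 84, nat_lit 266139200⟩, ⟨nat_lit 16, nat_lit 86, nat_lit 100, nat_lit 89, nat_lit 107320086⟩, ⟨nat_lit 7, nat_lit 81, nat_lit 100, nat_lit 88, nat_lit 383191449⟩, ⟨nat_lit 23, nat_lit 100, nat_lit 79, nat_lit 91, nat_lit 540734212⟩]⟩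
noncomputable def p062_l89 : Lf2 := ⟨nat_lit 0, nat_lit 5, [nat_lit 4, nat_lit 5, nat_lit 5, nat_lit 20], false, nat_lit 240, nat_lit 280, nat_lit 320, nat_lit 352, ⟨nat_lit 1000, nat_lit 0, nat_lit 0, nat_lit 0, nat_lit 0, nat_lit 0, nat_lit 0, nat_lit 0, nat_lit 0, nat_lit 0, nat_lit 0, nat_lit 0, nat_lit 0, nat_lit 0, nat_lit 0, nat_lit 0, false, false⟩,
 nat_lit 0, nat_lit 7380, nat_lit 0, nat_lit 0, nat_lit 5427, nat_lit 6207, nat_lit 1338, nat_lit 0, nat_lit 0, nat_lit 0, nat_lit 0, nat_lit 0, nat_lit 0, nat_lit 0, nat_lit 0, nat_lit 0, nat_lit 0, nat_lit 0, [],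
 ⟨p062_k39, nat_lit 0, nat_lit 0, nat_lit 159, nat_lit 0, nat_lit 305561, [nat_lit 3282000000, nat_lit 4688000000, nat_lit 6250000000], [], [nat_lit 19368591880, nat_lit 19696569714, nat_lit 19327518524, nat_lit 19647354308, nat_lit 21720505517, nat_lit 22142212432, nat_lit 21539578853, nat_lit 21951066197], nat_lit 1271250, nat_lit 1271250, nat_lit 490000, nat_lit 631250, nat_lit 1271250, nat_lit 1271250, [nat_lit 780000, nat_lit 1100000, nat_lit 1442500], [nat_lit 59, nat_lit 40, nat_lit 40, nat_lit 80, nat_lit 3, nat_lit 232, nat_lit 25, nat_lit 8]⟩, ⟨p062_k15, nat_lit 0, nat_lit 0, nat_lit 82, nat_lit 0, nat_lit 0, [nat_lit 4688000000, nat_lit 6250000000, nat_lit 9842000000], [], [nat_lit 20549912484, nat_lit 22910736056, nat_lit 20420639402, nat_lit 22722597478, nat_lit 23625732468, nat_lit 25802670244, nat_lit 23419754784, nat_lit 25450580666], nat_lit 0, nat_lit 0, nat_lit 0, nat_lit 0, nat_lit 0, nat_lit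 0, [], [nat_lit 11, nat_lit 40, nat_lit 40, nat_lit 80, nat_lit 1, nat_lit 317, nat_lit 100, nat_lit 8]⟩,
 zbF0, [⟨nat_lit 0, nat_lit 100, nat_lit 87, nat_lit 95, nat_lit 140363272⟩, ⟨nat_lit 19, nat_lit 100, nat_lit 73, nat_lit 94, nat_lit 9192668⟩, ⟨nat_lit 11, nat_lit 77, nat_lit 100, nat_lit 91, nat_lit 303282872⟩, ⟨nat_lit 11, nat_lit 75, nat_lit 100, nat_lit 86, nat_lit 480168624⟩]⟩
noncomputable def p062_l90 : Lf2 := ⟨nat_lit 0, nat_lit 5, [nat_lit 4, nat_lit 5, nat_lit 5, nat_lit 20], false, nat_lit 240, nat_lit 300, nat_lit 320, nat_lit 364, ⟨nat_lit 1000, nat_lit 0, nat_lit 0, nat_lit 0, nat_lit 0, nat_lit 0, nat_lit 0, nat_lit 0, nat_lit 0, nat_lit 0, nat_lit 0, nat_lit 0, nat_lit 0, nat_lit 0, nat_lit 0, nat_lit 0, false, false⟩,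
 nat_lit 0, nat_lit 7568, nat_lit 0, nat_lit 0, nat_lit 5565, nat_lit 6638, nat_lit 1298, nat_lit 0, nat_lit 0, nat_lit 0, nat_lit 0, nat_lit 0, nat_lit 0, nat_lit 0, nat_lit 0, nat_lit 0, nat_lit 0, nat_lit 0, [],
 ⟨p062_k39, nat_lit 0, nat_lit 0, nat_lit 244, nat_lit 0, nat_lit 523271, [nat_lit 3282000000, nat_lit 4688000000, nat_lit 6250000000], [], [nat_lit 20110525867, nat_lit 20399475180, nat_lit 20079360035, nat_lit 20400202800, nat_lit 23132720330, nat_lit 23416064865, nat_lit 23062834052, nat_lit 23338881030], nat_lit 1271250, nat_lit 1271250, nat_lit 631250, nat_lit 780000, nat_lit 1271250, nat_lit 1271250, [nat_lit 780000, nat_lit 1100000, nat_lit 1442500], [nat_lit 59, nat_lit 40, nat_lit 40, nat_lit 80, nat_lit 3, nat_lit 238, nat_lit 30, nat_lit 8]⟩, ⟨p062_k15, nat_lit 0, nat_lit 0, nat_lit 81, nat_lit 0, nat_lit 0, [nat_lit 4688000000, nat_lit 6250000000, nat_lit 9842000000], [], [nat_lit 20100357268,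 nat_lit 22479062652, nat_lit 19932670880, nat_lit 22249438600, nat_lit 24808751181, nat_lit 27111991933, nat_lit 24422795803, nat_lit 26674939388], nat_lit 0, nat_lit 0, nat_lit 0, nat_lit 0, nat_lit 0, nat_lit 0, [], [nat_lit 11, nat_lit 40, nat_lit 40, nat_lit 80, nat_lit 1, nat_lit 317, nat_lit 100, nat_lit 8]⟩,
 zbF0, [⟨nat_lit 0, nat_lit 100, nat_lit 87, nat_lit 95, nat_lit 170246967⟩, ⟨nat_lit 4, nat_lit 100, nat_lit 91, nat_lit 100, nat_lit 45717853⟩, ⟨nat_lit 7, nat_lit 73, nat_lit 100, nat_lit 94, nat_lit 239579939⟩, ⟨nat_lit 23, nat_lit 100, nat_lit 78, nat_lit 95, nat_lit 605833952⟩]⟩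
noncomputable def p062_l91 : Lf2 := ⟨nat_lit 0, nat_lit 5, [nat_lit 4, nat_lit 5, nat_lit 5, nat_lit 20], false, nat_lit 240, nat_lit 312, nat_lit 320, nat_lit 364, ⟨nat_lit 1000, nat_lit 0, nat_lit 0, nat_lit 0, nat_lit 0, nat_lit 0, nat_lit 0, nat_lit 0, nat_lit 0, nat_lit 0, nat_lit 0, nat_lit 0, nat_lit 0, nat_lit 0, nat_lit 0, nat_lit 0, false, false⟩,
 nat_lit 0, nat_lit 8047, nat_lit 0, nat_lit 0, nat_lit 5801, nat_lit 6719, nat_lit 1349, nat_lit 0, nat_lit 0, nat_lit 0, nat_lit 0, nat_lit 0, nat_lit 0, nat_lit 0, nat_lit 0, nat_lit 0, nat_lit 0, nat_lit 0, [],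
 ⟨p062_k38, nat_lit 0, nat_lit 0, nat_lit 290, nat_lit 0, nat_lit 656938, [nat_lit 3282000000, nat_lit 4688000000, nat_lit 6250000000], [], [nat_lit 20453918234, nat_lit 20960518700, nat_lit 20814538166, nat_lit 21358263224, nat_lit 23666208057, nat_lit 24150037049, nat_lit 23895673674, nat_lit 24350427348], nat_lit 1271250, nat_lit 1271250, nat_lit 780000, nat_lit 1100001, nat_lit 1271250, nat_lit 1271250, [nat_lit 780000, nat_lit 1100000, nat_lit 1442500], [nat_lit 59, nat_lit 40, nat_lit 40, nat_lit 80, nat_lit 3, nat_lit 249, nat_lit 40, nat_lit 8]⟩, ⟨p062_k15, nat_lit 0, nat_lit 0, nat_lit 73, nat_lit 0, nat_lit 0, [nat_lit 4688000000, nat_lit 6250000000, nat_lit 9842000000], [], [nat_lit 19865259440, nat_lit 22195873300, nat_lit 20223421792, nat_lit 22400908164, nat_lit 24484815802, nat_lit 26749643274, nat_lit 24538047884, nat_lit 26663301750], nat_lit 0, nat_lit 0, nat_lit 0, nat_lit 0, nat_lit 0, nat_lit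 0, [], [nat_lit 11, nat_lit 40, nat_lit 40, nat_lit 80, nat_lit 1, nat_lit 345, nat_lit 125, nat_lit 9]⟩,
 zbF0, [⟨nat_lit 16, nat_lit 90, nat_lit 100, nat_lit 95, nat_lit 102720931⟩, ⟨nat_lit 7, nat_lit 77, nat_lit 100, nat_lit 91, nat_lit 326753222⟩, ⟨nat_lit 11, nat_lit 76, nat_lit 100, nat_lit 100, nat_lit 494374102⟩]⟩
noncomputable def p062_l92 : Lf2 := ⟨nat_lit 0, nat_lit 8, [nat_lit 50, nat_lit 5, nat_lit 5, nat_lit 20], false, nat_lit 240, nat_lit 320, nat_lit 160, nat_lit 364, ⟨nat_lit 1000, nat_lit 0, nat_lit 0, nat_lit 0, nat_lit 0, nat_lit 0, nat_lit 0, nat_lit 0, nat_lit 0, nat_lit 0, nat_lit 0, nat_lit 0, nat_lit 0, nat_lit 0, nat_lit 0, nat_lit 0, false, false⟩,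
 nat_lit 0, nat_lit 8588, nat_lit 0, nat_lit 0, nat_lit 5945, nat_lit 6160, nat_lit 1044, nat_lit 0, nat_lit 0, nat_lit 0, nat_lit 0, nat_lit 0, nat_lit 0, nat_lit 0, nat_lit 0, nat_lit 0, nat_lit 0, nat_lit 0, [],
 ⟨p062_k41, nat_lit 0, nat_lit 0, nat_lit 167, nat_lit 0, nat_lit 198934, [nat_lit 3282000000, nat_lit 6250000000, nat_lit 7968000000], [], [nat_lit 19989849910, nat_lit 21367906740, nat_lit 20295303680, nat_lit 21521134860, nat_lit 24738049540, nat_lit 25974366800, nat_lit 24451235180, nat_lit 25556448400], nat_lit 1271250, nat_lit 1271250, nat_lit 490000, nat_lit 1100001, nat_lit 1271250, nat_lit 1271250, [nat_lit 780000, nat_lit 1435000, nat_lit 1271250], [nat_lit 18, nat_lit 40, nat_lit 40, nat_lit 80, nat_lit 2, nat_lit 249, nat_lit 40, nat_lit 7]⟩, ⟨p062_k42, nat_lit 0, nat_lit 0, nat_lit 102, nat_lit 0, nat_lit 0, [nat_lit 4688000000, nat_lit 7968000000, nat_lit 9842000000], [], [nat_lit 9588620000,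 nat_lit 10501484440, nat_lit 11013995680, nat_lit 11820462600, nat_lit 24789628760, nat_lit 25282128374, nat_lit 24498023896, nat_lit 24937594298], nat_lit 0, nat_lit 0, nat_lit 0, nat_lit 0, nat_lit 0, nat_lit 0, [], [nat_lit 29, nat_lit 40, nat_lit 40, nat_lit 80, nat_lit 17, nat_lit 428, nat_lit 200, nat_lit 12]⟩,
 zbF0, [⟨nat_lit 4, nat_lit 100, nat_lit 93, nat_lit 97, nat_lit 59785985⟩, ⟨nat_lit 23, nat_lit 100, nat_lit 80, nat_lit 100, nat_lit 597503801⟩]⟩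
noncomputable def p062_l93 : Lf2 := ⟨nat_lit 0, nat_lit 10, [nat_lit 0, nat_lit 5, nat_lit 5, nat_lit 20], true, nat_lit 240, nat_lit 320, nat_lit 160, nat_lit 364, ⟨nat_lit 0, nat_lit 127, nat_lit 873, nat_lit 6, nat_lit 164, nat_lit 1000, nat_lit 213, nat_lit 873, nat_lit 4748, nat_lit 203, nat_lit 60147, nat_lit 274, nat_lit 44015126, nat_lit 9138161, nat_lit 13846713, nat_lit 4695011, false, false⟩,
 nat_lit 0, nat_lit 5338, nat_lit 0, nat_lit 11561, nat_lit 3695, nat_lit 0, nat_lit 0, nat_lit 0, nat_lit 0, nat_lit 0, nat_lit 0, nat_lit 0, nat_lit 0, nat_lit 0, nat_lit 65, nat_lit 380950, nat_lit 0, nat_lit 0, [(nat_lit 15, [(nat_lit 0, nat_lit 127), (nat_lit 5, nat_lit 873)])],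
 ⟨p062_k2, nat_lit 0, nat_lit 0, nat_lit 121, nat_lit 0, nat_lit 63178, [nat_lit 2222606400, nat_lit 804826800, nat_lit 87086000], [], [nat_lit 17533101240, nat_lit 18543355580, nat_lit 18325780830, nat_lit 19437822680, nat_lit 21952745360, nat_lit 23184825060, nat_lit 22382638940, nat_lit 23499757060], nat_lit 1271250, nat_lit 1271250, nat_lit 490000, nat_lit 1100001, nat_lit 1271250, nat_lit 1271250, [nat_lit 780000, nat_lit 1435000, nat_lit 1271250], [nat_lit 18, nat_lit 40, nat_lit 40, nat_lit 80, nat_lit 2, nat_lit 249, nat_lit 40, nat_lit 7]⟩, C1.Rw.none,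
 ⟨nat_lit 4472, nat_lit 5000, ⟨.ofNat (nat_lit 328559), .ofNat (nat_lit 471408), .ofNat (nat_lit 339268), .ofNat (nat_lit 482115), .ofNat (nat_lit 339186), .ofNat (nat_lit 475134), .ofNat (nat_lit 349964), .ofNat (nat_lit 485911)⟩, ⟨.ofNat (nat_lit 442856), .ofNat (nat_lit 585713), .ofNat (nat_lit 485713), .ofNat (nat_lit 628570), .ofNat (nat_lit 438578), .ofNat (nat_lit 574534), .ofNat (nat_lit 481711), .ofNat (nat_lit 617667)⟩⟩, [⟨nat_lit 4, nat_lit 100, nat_lit 93, nat_lit 97, nat_lit 346637568⟩]⟩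
noncomputable def p062_l94 : Lf2 := ⟨nat_lit 0, nat_lit 10, [nat_lit 0, nat_lit 5, nat_lit 5, nat_lit 20], false, nat_lit 240, nat_lit 320, nat_lit 160, nat_lit 360, ⟨nat_lit 1000, nat_lit 0, nat_lit 0, nat_lit 0, nat_lit 0, nat_lit 0, nat_lit 0, nat_lit 0, nat_lit 0, nat_lit 0, nat_lit 0, nat_lit 0, nat_lit 0, nat_lit 0, nat_lit 0, nat_lit 0, false, false⟩,
 nat_lit 0, nat_lit 7506, nat_lit 0, nat_lit 0, nat_lit 5196, nat_lit 6153, nat_lit 1549, nat_lit 0, nat_lit 0, nat_lit 0, nat_lit 0, nat_lit 0, nat_lit 0, nat_lit 0, nat_lit 0, nat_lit 0, nat_lit 0, nat_lit 0, [],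
 ⟨p062_k22, nat_lit 0, nat_lit 0, nat_lit 177, nat_lit 0, nat_lit 255659, [nat_lit 3282000000, nat_lit 4688000000, nat_lit 7968000000], [], [nat_lit 19896195502, nat_lit 21074579854, nat_lit 20211628326, nat_lit 21265320286, nat_lit 23695874574, nat_lit 24690297232, nat_lit 23711022000, nat_lit 24714018288], nat_lit 1271250, nat_lit 1271250, nat_lit 490000, nat_lit 1100001, nat_lit 1271250, nat_lit 1271250, [nat_lit 780000, nat_lit 1100000, nat_lit 1785000], [nat_lit 36, nat_lit 40, nat_lit 40, nat_lit 80, nat_lit 7, nat_lit 249, nat_lit 40, nat_lit 7]⟩, ⟨p062_k43, nat_lit 0, nat_lit 0, nat_lit 82, nat_lit 0, nat_lit 0, [nat_lit 4688000000, nat_lit 6250000000, nat_lit 9842000000], [], [nat_lit 10512014477, nat_lit 11424253054, nat_lit 11831811280, nat_lit 12637748216, nat_lit 24909768638, nat_lit 25410710019, nat_lit 24607014152, nat_lit 25053971301], nat_lit 0, nat_lit 0, nat_lit 0, nat_lit 0, nat_lit 0, nat_lit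 0, [], [nat_lit 11, nat_lit 40, nat_lit 40, nat_lit 80, nat_lit 1, nat_lit 428, nat_lit 200, nat_lit 12]⟩,
 zbF0, [⟨nat_lit 0, nat_lit 100, nat_lit 84, nat_lit 85, nat_lit 20419192⟩, ⟨nat_lit 16, nat_lit 93, nat_lit 100, nat_lit 97, nat_lit 3056851⟩, ⟨nat_lit 23, nat_lit 100, nat_lit 80, nat_lit 100, nat_lit 583929706⟩]⟩
noncomputable def p062_l95 : Lf2 := ⟨nat_lit 0, nat_lit 10, [nat_lit 0, nat_lit 5, nat_lit 5, nat_lit 20], false, nat_lit 240, nat_lit 320, nat_lit 160, nat_lit 352, ⟨nat_lit 1000, nat_lit 0, nat_lit 0, nat_lit 0, nat_lit 0, nat_lit 0, nat_lit 0, nat_lit 0, nat_lit 0, nat_lit 0, nat_lit 0, nat_lit 0, nat_lit 0, nat_lit 0, nat_lit 0, nat_lit 0, false, false⟩,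
 nat_lit 0, nat_lit 8033, nat_lit 0, nat_lit 0, nat_lit 5561, nat_lit 6129, nat_lit 1441, nat_lit 0, nat_lit 0, nat_lit 0, nat_lit 0, nat_lit 0, nat_lit 0, nat_lit 0, nat_lit 0, nat_lit 0, nat_lit 0, nat_lit 0, [],
 ⟨p062_k22, nat_lit 0, nat_lit 0, nat_lit 186, nat_lit 0, nat_lit 295191, [nat_lit 3282000000, nat_lit 4688000000, nat_lit 7968000000], [], [nat_lit 19766438382, nat_lit 20376072748, nat_lit 20193361648, nat_lit 20758980228, nat_lit 23786978812, nat_lit 24304587435, nat_lit 23854331996, nat_lit 24316275896], nat_lit 1271250, nat_lit 1271250, nat_lit 490000, nat_lit 1100001, nat_lit 1271250, nat_lit 1271250, [nat_lit 780000, nat_lit 1100000, nat_lit 1785000], [nat_lit 36, nat_lit 40, nat_lit 40, nat_lit 80, nat_lit 7, nat_lit 249, nat_lit 40, nat_lit 7]⟩, ⟨p062_k35, nat_lit 0, nat_lit 0, nat_lit 82, nat_lit 0, nat_lit 0, [nat_lit 4688000000, nat_lit 6250000000, nat_lit 9842000000], [], [nat_lit 11458210222,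 nat_lit 13278395744, nat_lit 12674840888, nat_lit 14283080584, nat_lit 24687086112, nat_lit 25721898228, nat_lit 24414774715, nat_lit 25337547865], nat_lit 0, nat_lit 0, nat_lit 0, nat_lit 0, nat_lit 0, nat_lit 0, [], [nat_lit 11, nat_lit 40, nat_lit 40, nat_lit 80, nat_lit 1, nat_lit 428, nat_lit 200, nat_lit 12]⟩,
 zbF0, [⟨nat_lit 0, nat_lit 100, nat_lit 91, nat_lit 91, nat_lit 69984021⟩, ⟨nat_lit 4, nat_lit 100, nat_lit 97, nat_lit 98, nat_lit 36992687⟩, ⟨nat_lit 19, nat_lit 100, nat_lit 82, nat_lit 92, nat_lit 110841283⟩, ⟨nat_lit 11, nat_lit 91, nat_lit 91, nat_lit 100, nat_lit 499335899⟩]⟩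
noncomputable def p062_l96 : Lf2 := ⟨nat_lit 0, nat_lit 10, [nat_lit 0, nat_lit 5, nat_lit 5, nat_lit 20], false, nat_lit 240, nat_lit 312, nat_lit 160, nat_lit 352, ⟨nat_lit 1000, nat_lit 0, nat_lit 0, nat_lit 0, nat_lit 0, nat_lit 0, nat_lit 0, nat_lit 0, nat_lit 0, nat_lit 0, nat_lit 0, nat_lit 0, nat_lit 0, nat_lit 0, nat_lit 0, nat_lit 0, false, false⟩,
 nat_lit 0, nat_lit 7933, nat_lit 0, nat_lit 0, nat_lit 5719, nat_lit 6129, nat_lit 1245, nat_lit 0, nat_lit 0, nat_lit 0, nat_lit 0, nat_lit 0, nat_lit 0, nat_lit 0, nat_lit 0, nat_lit 0, nat_lit 0, nat_lit 0, [],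
 ⟨p062_k44, nat_lit 0, nat_lit 0, nat_lit 243, nat_lit 0, nat_lit 368861, [nat_lit 3282000000, nat_lit 4688000000, nat_lit 7968000000], [], [nat_lit 21004455645, nat_lit 21554392833, nat_lit 21128454354, nat_lit 21618787393, nat_lit 24095569501, nat_lit 24645106081, nat_lit 23880991439, nat_lit 24290299661], nat_lit 1271250, nat_lit 1271250, nat_lit 490000, nat_lit 1100001, nat_lit 1271250, nat_lit 1271250, [nat_lit 780000, nat_lit 1100000, nat_lit 1785000], [nat_lit 36, nat_lit 40, nat_lit 40, nat_lit 80, nat_lit 7, nat_lit 249, nat_lit 40, nat_lit 7]⟩, ⟨p062_k35, nat_lit 0, nat_lit 0, nat_lit 82, nat_lit 0, nat_lit 0, [nat_lit 4688000000, nat_lit 6250000000, nat_lit 9842000000], [], [nat_lit 11458210222, nat_lit 13278395744, nat_lit 12674840888, nat_lit 14283080584, nat_lit 24687086112, nat_lit 25721898228, nat_lit 24414774715, nat_lit 25337547865], nat_lit 0, nat_lit 0, nat_lit 0, nat_lit 0, nat_lit 0, nat_lit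 0, [], [nat_lit 11, nat_lit 40, nat_lit 40, nat_lit 80, nat_lit 1, nat_lit 428, nat_lit 200, nat_lit 12]⟩,
 zbF0, [⟨nat_lit 0, nat_lit 100, nat_lit 87, nat_lit 88, nat_lit 177973337⟩, ⟨nat_lit 4, nat_lit 100, nat_lit 90, nat_lit 95, nat_lit 146870179⟩, ⟨nat_lit 19, nat_lit 100, nat_lit 82, nat_lit 92, nat_lit 143294803⟩, ⟨nat_lit 23, nat_lit 100, nat_lit 78, nat_lit 99, nat_lit 428826696⟩]⟩
noncomputable def b_V_700_600_20_23 : St := ⟨true, nat_lit 1, nat_lit 0, nat_lit 1, nat_lit 120, nat_lit 300, nat_lit 320, nat_lit 240, nat_lit 280, nat_lit 80, nat_lit 160, nat_lit 80, nat_lit 120, nat_lit 240, nat_lit 320, nat_lit 0, nat_lit 364, nat_lit 0, nat_lit 40, nat_lit 0, nat_lit 0, nat_lit 0, nat_lit 0⟩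
theorem d_V_700_600_20_23 (h : EB TB.env) : Dead b_V_700_600_20_23 := chkB_sound0 h (T :=
(.spl (nat_lit 5) (nat_lit 160)
(.leaf p062_l74)
(.spl (nat_lit 6) (nat_lit 20)
(.spl (nat_lit 0) (nat_lit 310)
(.spl (nat_lit 5) (nat_lit 240)
(.leaf p062_l75)
(.spl (nat_lit 3) (nat_lit 100)
(.trX (nat_lit 16) (nat_lit 100) (nat_lit 100) (nat_lit 100) (nat_lit 300) (.trX (nat_lit 19) (nat_lit 100) (nat_lit 68) (nat_lit 88) (nat_lit 352) (.spl (nat_lit 5) (nat_lit 320)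
(.spl (nat_lit 0) (nat_lit 305)
(.leaf p062_l76)
(.trX (nat_lit 16) (nat_lit 97) (nat_lit 100) (nat_lit 98) (nat_lit 296) (.leaf p062_l77)))
(.leaf p062_l78))))
(.spl (nat_lit 0) (nat_lit 305)
(.leaf p062_l79)
(.trX (nat_lit 16) (nat_lit 93) (nat_lit 90) (nat_lit 100) (nat_lit 316) (.leaf p062_l80)))))
(.trX (nat_lit 16) (nat_lit 91) (nat_lit 91) (nat_lit 100) (nat_lit 312) (.spl (nat_lit 5) (nat_lit 240)
(.leaf p062_l81)
(.spl (nat_lit 5) (nat_lit 320)
(.spl (nat_lit 2) (nat_lit 120)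
(.spl (nat_lit 7) (nat_lit 600)
(.leaf p062_l82)
(.spl (nat_lit 0) (nat_lit 315)
(.leaf p062_l83)
(.trX (nat_lit 16) (nat_lit 89) (nat_lit 93) (nat_lit 100) (nat_lit 304) (.leaf p062_l84))))
(.leaf p062_l85))
(.spl (nat_lit 2) (nat_lit 120)
(.trX (nat_lit 11) (nat_lit 87) (nat_lit 95) (nat_lit 100) (nat_lit 300) (.spl (nat_lit 0) (nat_lit 315)
(.spl (nat_lit 0) (nat_lit 313)
(.leaf p062_l86)
(.leaf p062_l87))
(.spl (nat_lit 3) (nat_lit 100)
(.trX (nat_lit 16) (nat_lit 90) (nat_lit 100) (nat_lit 95) (nat_lit 288) (.trX (nat_lit 19) (nat_lit 100) (nat_lit 68) (nat_lit 88) (nat_lit 352) (.leaf p062_l88)))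
(.spl (nat_lit 2) (nat_lit 100)
(.trX (nat_lit 11) (nat_lit 87) (nat_lit 100) (nat_lit 94) (nat_lit 280) (.trX (nat_lit 23) (nat_lit 100) (nat_lit 68) (nat_lit 88) (nat_lit 352) (.leaf p062_l89)))
(.leaf p062_l90)))))
(.leaf p062_l91))))))
(.spl (nat_lit 1) (nat_lit 260)
(.spl (nat_lit 1) (nat_lit 250)
(.spl (nat_lit 6) (nat_lit 32)
(.leaf p062_l92)
(.leaf p062_l93))
(.trX (nat_lit 19) (nat_lit 100) (nat_lit 64) (nat_lit 95) (nat_lit 360) (.leaf p062_l94)))
(.trX (nat_lit 19) (nat_lit 100) (nat_lit 69) (nat_lit 96) (nat_lit 352) (.spl (nat_lit 0) (nat_lit 310)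
(.leaf p062_l95)
(.trX (nat_lit 16) (nat_lit 91) (nat_lit 91) (nat_lit 100) (nat_lit 312) (.leaf p062_l96)))))))) (by decide +kernel)
noncomputable def p062_l97 : Lf2 := ⟨nat_lit 0, nat_lit 10, [nat_lit 0, nat_lit 5, nat_lit 5, nat_lit 20], false, nat_lit 240, nat_lit 320, nat_lit 0, nat_lit 160, ⟨nat_lit 1000, nat_lit 0, nat_lit 0, nat_lit 0, nat_lit 0, nat_lit 0, nat_lit 0, nat_lit 0, nat_lit 0, nat_lit 0, nat_lit 0, nat_lit 0, nat_lit 0, nat_lit 0, nat_lit 0, nat_lit 0, false, false⟩,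
 nat_lit 0, nat_lit 10894, nat_lit 0, nat_lit 3630, nat_lit 7541, nat_lit 8623, nat_lit 809, nat_lit 0, nat_lit 0, nat_lit 3305, nat_lit 0, nat_lit 0, nat_lit 0, nat_lit 0, nat_lit 0, nat_lit 0, nat_lit 0, nat_lit 0, [],
 ⟨p062_k22, nat_lit 0, nat_lit 0, nat_lit 342, nat_lit 0, nat_lit 715926, [nat_lit 3282000000, nat_lit 4688000000, nat_lit 7968000000], [], [nat_lit 20288834164, nat_lit 21725561946, nat_lit 22320479492, nat_lit 23526936858, nat_lit 24759618272, nat_lit 25895461228, nat_lit 26341580128, nat_lit 27688261808], nat_lit 1271250, nat_lit 1271250, nat_lit 1100001, nat_lit 1785000, nat_lit 1271250, nat_lit 1271250, [nat_lit 780000, nat_lit 1100000, nat_lit 1785000], [nat_lit 36, nat_lit 40, nat_lit 40, nat_lit 80, nat_lit 7, nat_lit 272, nat_lit 60, nat_lit 8]⟩, ⟨p062_k21, nat_lit 0, nat_lit 0, nat_lit 193, nat_lit 0, nat_lit 0, [nat_lit 4688000000, nat_lit 6250000000, nat_lit 11872000000], [], [nat_lit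 16175893715, nat_lit 19123791480, nat_lit 19728652472, nat_lit 23324023916, nat_lit 11475800516, nat_lit 14437079744, nat_lit 14856245460, nat_lit 17523474640], nat_lit 0, nat_lit 0, nat_lit 0, nat_lit 0, nat_lit 0, nat_lit 0, [], [nat_lit 48, nat_lit 40, nat_lit 40, nat_lit 80, nat_lit 12, nat_lit 401, nat_lit 175, nat_lit 10]⟩,
 zbF0, [⟨nat_lit 4, nat_lit 100, nat_lit 93, nat_lit 97, nat_lit 559387980⟩]⟩
noncomputable def p062_l98 : Lf2 := ⟨nat_lit 0, nat_lit 10, [nat_lit 0, nat_lit 5, nat_lit 5, nat_lit 20], false, nat_lit 240, nat_lit 320, nat_lit 160, nat_lit 364, ⟨nat_lit 1000, nat_lit 0, nat_lit 0, nat_lit 0, nat_lit 0, nat_lit 0, nat_lit 0, nat_lit 0, nat_lit 0, nat_lit 0, nat_lit 0, nat_lit 0, nat_lit 0, nat_lit 0, nat_lit 0, nat_lit 0, false, false⟩,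
 nat_lit 0, nat_lit 8377, nat_lit 0, nat_lit 0, nat_lit 5799, nat_lit 6182, nat_lit 1597, nat_lit 0, nat_lit 0, nat_lit 0, nat_lit 0, nat_lit 0, nat_lit 0, nat_lit 0, nat_lit 0, nat_lit 0, nat_lit 0, nat_lit 0, [],
 ⟨p062_k22, nat_lit 0, nat_lit 0, nat_lit 342, nat_lit 0, nat_lit 715926, [nat_lit 3282000000, nat_lit 4688000000, nat_lit 7968000000], [], [nat_lit 21016744334, nat_lit 21917569944, nat_lit 22535876978, nat_lit 23307805988, nat_lit 23920166976, nat_lit 24810355492, nat_lit 25477882592, nat_lit 26653012112], nat_lit 1271250, nat_lit 1271250, nat_lit 1100001, nat_lit 1785000, nat_lit 1271250, nat_lit 1271250, [nat_lit 780000, nat_lit 1100000, nat_lit 1785000], [nat_lit 36, nat_lit 40, nat_lit 40, nat_lit 80, nat_lit 7, nat_lit 272, nat_lit 60, nat_lit 8]⟩, ⟨p062_k21, nat_lit 0, nat_lit 0, nat_lit 62, nat_lit 0, nat_lit 0, [nat_lit 4688000000, nat_lit 6250000000, nat_lit 11872000000], [], [nat_lit 10976662736,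 nat_lit 14209193072, nat_lit 14983061568, nat_lit 17675372840, nat_lit 24486068670, nat_lit 26246737801, nat_lit 26271157034, nat_lit 27938815539], nat_lit 0, nat_lit 0, nat_lit 0, nat_lit 0, nat_lit 0, nat_lit 0, [], [nat_lit 48, nat_lit 40, nat_lit 40, nat_lit 80, nat_lit 12, nat_lit 456, nat_lit 225, nat_lit 11]⟩,
 zbF0, [⟨nat_lit 16, nat_lit 94, nat_lit 88, nat_lit 100, nat_lit 452125161⟩, ⟨nat_lit 7, nat_lit 77, nat_lit 100, nat_lit 91, nat_lit 582713293⟩]⟩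
noncomputable def b_V_700_600_20_24 : St := ⟨true, nat_lit 1, nat_lit 0, nat_lit 1, nat_lit 120, nat_lit 300, nat_lit 320, nat_lit 240, nat_lit 280, nat_lit 160, nat_lit 240, nat_lit 80, nat_lit 120, nat_lit 240, nat_lit 320, nat_lit 0, nat_lit 364, nat_lit 0, nat_lit 40, nat_lit 0, nat_lit 0, nat_lit 0, nat_lit 0⟩
theorem d_V_700_600_20_24 (h : EB TB.env) : Dead b_V_700_600_20_24 := chkB_sound0 h (T :=
(.spl (nat_lit 5) (nat_lit 160)
(.leaf p062_l97)
(.leaf p062_l98))) (by decide +kernel)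
noncomputable def p062_l99 : Lf2 := ⟨nat_lit 0, nat_lit 10, [nat_lit 0, nat_lit 5, nat_lit 5, nat_lit 20], false, nat_lit 0, nat_lit 336, nat_lit 0, nat_lit 160, ⟨nat_lit 1000, nat_lit 0, nat_lit 0, nat_lit 0, nat_lit 0, nat_lit 0, nat_lit 0, nat_lit 0, nat_lit 0, nat_lit 0, nat_lit 0, nat_lit 0, nat_lit 0, nat_lit 0, nat_lit 0, nat_lit 0, false, false⟩,
 nat_lit 0, nat_lit 10734, nat_lit 0, nat_lit 0, nat_lit 6830, nat_lit 8010, nat_lit 736, nat_lit 0, nat_lit 0, nat_lit 1325, nat_lit 0, nat_lit 0, nat_lit 0, nat_lit 0, nat_lit 0, nat_lit 0, nat_lit 0, nat_lit 0, [],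
 ⟨p062_k0, nat_lit 0, nat_lit 0, nat_lit 463, nat_lit 0, nat_lit 595349, [nat_lit 3282000000, nat_lit 6250000000, nat_lit 9842000000], [], [nat_lit 31936433080, nat_lit 32809118860, nat_lit 38624459200, nat_lit 39139147500, nat_lit 31577754408, nat_lit 32133955328, nat_lit 35953224649, nat_lit 36269522968], nat_lit 1271250, nat_lit 1271250, nat_lit 1271250, nat_lit 1271250, nat_lit 0, nat_lit 2373000, [nat_lit 780000, nat_lit 1435000, nat_lit 1271250], [nat_lit 8, nat_lit 40, nat_lit 40, nat_lit 80, nat_lit 1, nat_lit 428, nat_lit 200, nat_lit 12]⟩, ⟨p062_k12, nat_lit 0, nat_lit 0, nat_lit 251, nat_lit 0, nat_lit 0, [nat_lit 4688000000, nat_lit 7968000000, nat_lit 11872000000], [], [nat_lit 25904651860, nat_lit 28225432780, nat_lit 39048802840, nat_lit 40978006160, nat_lit 19796555060, nat_lit 21745919460, nat_lit 31621727720, nat_lit 32935748160], nat_lit 0, nat_lit 0, nat_lit 0, nat_lit 0, nat_lit 0, nat_lit 0,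 [], [nat_lit 21, nat_lit 40, nat_lit 40, nat_lit 80, nat_lit 14, nat_lit 456, nat_lit 225, nat_lit 11]⟩,
 zbF0, [⟨nat_lit 4, nat_lit 94, nat_lit 100, nat_lit 97, nat_lit 92049306⟩, ⟨nat_lit 21, nat_lit 83, nat_lit 100, nat_lit 83, nat_lit 83318005⟩]⟩
noncomputable def p062_l100 : Lf2 := ⟨nat_lit 0, nat_lit 8, [nat_lit 50, nat_lit 5, nat_lit 5, nat_lit 20], false, nat_lit 0, nat_lit 336, nat_lit 160, nat_lit 364, ⟨nat_lit 1000, nat_lit 0, nat_lit 0, nat_lit 0, nat_lit 0, nat_lit 0, nat_lit 0, nat_lit 0, nat_lit 0, nat_lit 0, nat_lit 0, nat_lit 0, nat_lit 0, nat_lit 0, nat_lit 0, nat_lit 0, false, false⟩,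
 nat_lit 0, nat_lit 10985, nat_lit 0, nat_lit 0, nat_lit 6990, nat_lit 6019, nat_lit 586, nat_lit 0, nat_lit 0, nat_lit 0, nat_lit 0, nat_lit 0, nat_lit 0, nat_lit 0, nat_lit 0, nat_lit 0, nat_lit 0, nat_lit 0, [],
 ⟨p062_k6, nat_lit 0, nat_lit 0, nat_lit 363, nat_lit 0, nat_lit 442236, [nat_lit 3282000000, nat_lit 6250000000, nat_lit 7968000000], [], [nat_lit 30839250400, nat_lit 31083827975, nat_lit 38309057840, nat_lit 38624205915, nat_lit 31115001929, nat_lit 31244520699, nat_lit 35508015945, nat_lit 35586689885], nat_lit 1271250, nat_lit 1271250, nat_lit 1271250, nat_lit 1271250, nat_lit 0, nat_lit 2373000, [nat_lit 780000, nat_lit 1435000, nat_lit 1271250], [nat_lit 18, nat_lit 40, nat_lit 40, nat_lit 80, nat_lit 2, nat_lit 317, nat_lit 100, nat_lit 10]⟩, ⟨p062_k42, nat_lit 0, nat_lit 0, nat_lit 101, nat_lit 0, nat_lit 0, [nat_lit 4688000000, nat_lit 7968000000, nat_lit 9842000000], [], [nat_lit 15216375856,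 nat_lit 17870871780, nat_lit 27697523680, nat_lit 29390220072, nat_lit 26363450112, nat_lit 27820695893, nat_lit 34782378358, nat_lit 35652379505], nat_lit 0, nat_lit 0, nat_lit 0, nat_lit 0, nat_lit 0, nat_lit 0, [], [nat_lit 29, nat_lit 40, nat_lit 40, nat_lit 80, nat_lit 17, nat_lit 538, nat_lit 300, nat_lit 15]⟩,
 zbF0, [⟨nat_lit 4, nat_lit 89, nat_lit 100, nat_lit 95, nat_lit 151737547⟩, ⟨nat_lit 19, nat_lit 100, nat_lit 77, nat_lit 91, nat_lit 489857111⟩]⟩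
noncomputable def p062_l101 : Lf2 := ⟨nat_lit 0, nat_lit 8, [nat_lit 50, nat_lit 5, nat_lit 5, nat_lit 20], false, nat_lit 0, nat_lit 332, nat_lit 160, nat_lit 364, ⟨nat_lit 1000, nat_lit 0, nat_lit 0, nat_lit 0, nat_lit 0, nat_lit 0, nat_lit 0, nat_lit 0, nat_lit 0, nat_lit 0, nat_lit 0, nat_lit 0, nat_lit 0, nat_lit 0, nat_lit 0, nat_lit 0, false, false⟩,
 nat_lit 0, nat_lit 10629, nat_lit 0, nat_lit 0, nat_lit 6910, nat_lit 5779, nat_lit 2132, nat_lit 0, nat_lit 0, nat_lit 0, nat_lit 0, nat_lit 0, nat_lit 0, nat_lit 0, nat_lit 0, nat_lit 0, nat_lit 0, nat_lit 0, [],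
 ⟨p062_k8, nat_lit 0, nat_lit 0, nat_lit 374, nat_lit 0, nat_lit 475086, [nat_lit 3282000000, nat_lit 6250000000, nat_lit 7968000000], [], [nat_lit 27533827120, nat_lit 27800059900, nat_lit 38413065235, nat_lit 38726401910, nat_lit 28297527581, nat_lit 28440473433, nat_lit 35279759212, nat_lit 35453789351], nat_lit 1271250, nat_lit 1271250, nat_lit 1271250, nat_lit 1271250, nat_lit 0, nat_lit 2344750, [nat_lit 780000, nat_lit 1435000, nat_lit 1271250], [nat_lit 18, nat_lit 40, nat_lit 40, nat_lit 80, nat_lit 2, nat_lit 317, nat_lit 100, nat_lit 10]⟩, ⟨p062_k42, nat_lit 0, nat_lit 0, nat_lit 101, nat_lit 0, nat_lit 0, [nat_lit 4688000000, nat_lit 7968000000, nat_lit 9842000000], [], [nat_lit 15559906096, nat_lit 18158722980, nat_lit 27666739900, nat_lit 29124520076, nat_lit 26499341760, nat_lit 27939388613, nat_lit 34470106054, nat_lit 35342987873], nat_lit 0, nat_lit 0, nat_lit 0, nat_lit 0, nat_lit 0, nat_lit 0,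 [], [nat_lit 29, nat_lit 40, nat_lit 40, nat_lit 80, nat_lit 17, nat_lit 538, nat_lit 300, nat_lit 15]⟩,
 zbF0, [⟨nat_lit 16, nat_lit 100, nat_lit 92, nat_lit 96, nat_lit 144919061⟩, ⟨nat_lit 7, nat_lit 77, nat_lit 100, nat_lit 91, nat_lit 425995498⟩]⟩
noncomputable def p062_l102 : Lf2 := ⟨nat_lit 1, nat_lit 10, [nat_lit 0, nat_lit 5, nat_lit 5, nat_lit 20], false, nat_lit 0, nat_lit 336, nat_lit 160, nat_lit 364, zbN0,
 nat_lit 0, nat_lit 0, nat_lit 0, nat_lit 0, nat_lit 0, nat_lit 0, nat_lit 0, nat_lit 0, nat_lit 0, nat_lit 0, nat_lit 0, nat_lit 0, nat_lit 0, nat_lit 0, nat_lit 0, nat_lit 0, nat_lit 0, nat_lit 0, [],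
 C1.Rw.none, C1.Rw.none,
 zbF0, []⟩
noncomputable def p062_l103 : Lf2 := ⟨nat_lit 0, nat_lit 10, [nat_lit 0, nat_lit 5, nat_lit 5, nat_lit 20], false, nat_lit 0, nat_lit 328, nat_lit 160, nat_lit 364, ⟨nat_lit 1000, nat_lit 0, nat_lit 0, nat_lit 0, nat_lit 0, nat_lit 0, nat_lit 0, nat_lit 0, nat_lit 0, nat_lit 0, nat_lit 0, nat_lit 0, nat_lit 0, nat_lit 0, nat_lit 0, nat_lit 0, false, false⟩,
 nat_lit 0, nat_lit 9679, nat_lit 0, nat_lit 0, nat_lit 6428, nat_lit 5582, nat_lit 1827, nat_lit 0, nat_lit 0, nat_lit 0, nat_lit 0, nat_lit 0, nat_lit 0, nat_lit 0, nat_lit 0, nat_lit 0, nat_lit 0, nat_lit 0, [],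
 ⟨p062_k1, nat_lit 0, nat_lit 0, nat_lit 403, nat_lit 0, nat_lit 560323, [nat_lit 3282000000, nat_lit 6250000000, nat_lit 7968000000], [], [nat_lit 27230995270, nat_lit 27633174402, nat_lit 37443365628, nat_lit 38048211608, nat_lit 27605073129, nat_lit 27826300736, nat_lit 34683127748, nat_lit 35029620804], nat_lit 1271250, nat_lit 1271250, nat_lit 1271250, nat_lit 1271250, nat_lit 0, nat_lit 2316500, [nat_lit 780000, nat_lit 1435000, nat_lit 1271250], [nat_lit 18, nat_lit 40, nat_lit 40, nat_lit 80, nat_lit 2, nat_lit 317, nat_lit 100, nat_lit 10]⟩, ⟨p062_k12, nat_lit 0, nat_lit 0, nat_lit 101, nat_lit 0, nat_lit 0, [nat_lit 4688000000, nat_lit 7968000000, nat_lit 11872000000], [], [nat_lit 15841887168, nat_lit 18395000840, nat_lit 27713606200, nat_lit 29157174008, nat_lit 26610886154, nat_lit 28036815555, nat_lit 34213782538, nat_lit 35089028908], nat_lit 0, nat_lit 0, nat_lit 0, nat_lit 0, nat_lit 0, nat_lit 0,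 [], [nat_lit 21, nat_lit 40, nat_lit 40, nat_lit 80, nat_lit 14, nat_lit 538, nat_lit 300, nat_lit 13]⟩,
 zbF0, [⟨nat_lit 16, nat_lit 100, nat_lit 97, nat_lit 98, nat_lit 144313257⟩, ⟨nat_lit 19, nat_lit 100, nat_lit 77, nat_lit 91, nat_lit 418279542⟩]⟩
noncomputable def p062_l104 : Lf2 := ⟨nat_lit 0, nat_lit 10, [nat_lit 0, nat_lit 5, nat_lit 5, nat_lit 20], false, nat_lit 0, nat_lit 320, nat_lit 0, nat_lit 160, ⟨nat_lit 1000, nat_lit 0, nat_lit 0, nat_lit 0, nat_lit 0, nat_lit 0, nat_lit 0, nat_lit 0, nat_lit 0, nat_lit 0, nat_lit 0, nat_lit 0, nat_lit 0, nat_lit 0, nat_lit 0, nat_lit 0, false, false⟩,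
 nat_lit 0, nat_lit 7795, nat_lit 0, nat_lit 0, nat_lit 5396, nat_lit 7766, nat_lit 1383, nat_lit 0, nat_lit 0, nat_lit 1279, nat_lit 0, nat_lit 0, nat_lit 0, nat_lit 0, nat_lit 0, nat_lit 0, nat_lit 0, nat_lit 0, [],
 ⟨p062_k2, nat_lit 0, nat_lit 0, nat_lit 456, nat_lit 0, nat_lit 715926, [nat_lit 3282000000, nat_lit 6250000000, nat_lit 7968000000], [], [nat_lit 28904933394, nat_lit 29664084186, nat_lit 35254395656, nat_lit 36370619376, nat_lit 30126740554, nat_lit 30577239882, nat_lit 33488081370, nat_lit 34126233152], nat_lit 1271250, nat_lit 1271250, nat_lit 1271250, nat_lit 1271250, nat_lit 0, nat_lit 2260000, [nat_lit 780000, nat_lit 1435000, nat_lit 1271250], [nat_lit 18, nat_lit 40, nat_lit 40, nat_lit 80, nat_lit 2, nat_lit 317, nat_lit 100, nat_lit 10]⟩, ⟨p062_k12, nat_lit 0, nat_lit 0, nat_lit 251, nat_lit 0, nat_lit 0, [nat_lit 4688000000, nat_lit 7968000000, nat_lit 11872000000], [], [nat_lit 26149239676,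 nat_lit 28434959748, nat_lit 38819471144, nat_lit 40340881096, nat_lit 20315320796, nat_lit 22241356304, nat_lit 31699228952, nat_lit 33003185856], nat_lit 0, nat_lit 0, nat_lit 0, nat_lit 0, nat_lit 0, nat_lit 0, [], [nat_lit 21, nat_lit 40, nat_lit 40, nat_lit 80, nat_lit 14, nat_lit 456, nat_lit 225, nat_lit 11]⟩,
 zbF0, [⟨nat_lit 4, nat_lit 100, nat_lit 93, nat_lit 97, nat_lit 123328577⟩, ⟨nat_lit 21, nat_lit 83, nat_lit 100, nat_lit 83, nat_lit 56844275⟩]⟩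
noncomputable def p062_l105 : Lf2 := ⟨nat_lit 0, nat_lit 10, [nat_lit 0, nat_lit 5, nat_lit 5, nat_lit 20], false, nat_lit 0, nat_lit 320, nat_lit 160, nat_lit 364, ⟨nat_lit 1000, nat_lit 0, nat_lit 0, nat_lit 0, nat_lit 0, nat_lit 0, nat_lit 0, nat_lit 0, nat_lit 0, nat_lit 0, nat_lit 0, nat_lit 0, nat_lit 0, nat_lit 0, nat_lit 0, nat_lit 0, false, false⟩,
 nat_lit 0, nat_lit 8530, nat_lit 0, nat_lit 0, nat_lit 5905, nat_lit 5216, nat_lit 1651, nat_lit 0, nat_lit 0, nat_lit 0, nat_lit 0, nat_lit 0, nat_lit 0, nat_lit 0, nat_lit 0, nat_lit 0, nat_lit 0, nat_lit 0, [],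
 ⟨p062_k2, nat_lit 0, nat_lit 0, nat_lit 456, nat_lit 0, nat_lit 715926, [nat_lit 3282000000, nat_lit 6250000000, nat_lit 7968000000], [], [nat_lit 25779946920, nat_lit 26566075730, nat_lit 36632353330, nat_lit 37794677180, nat_lit 26663278565, nat_lit 27187332545, nat_lit 34034935180, nat_lit 34731898360], nat_lit 1271250, nat_lit 1271250, nat_lit 1271250, nat_lit 1271250, nat_lit 0, nat_lit 2260000, [nat_lit 780000, nat_lit 1435000, nat_lit 1271250], [nat_lit 18, nat_lit 40, nat_lit 40, nat_lit 80, nat_lit 2, nat_lit 317, nat_lit 100, nat_lit 10]⟩, ⟨p062_k12, nat_lit 0, nat_lit 0, nat_lit 101, nat_lit 0, nat_lit 0, [nat_lit 4688000000, nat_lit 7968000000, nat_lit 11872000000], [], [nat_lit 16365770784, nat_lit 18833973920, nat_lit 27800677600, nat_lit 29217840704, nat_lit 26818120917, nat_lit 28217821952, nat_lit 33835689420, nat_lit 34618419540], nat_lit 0, nat_lit 0, nat_lit 0, nat_lit 0, nat_lit 0, nat_lit 0,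 [], [nat_lit 21, nat_lit 40, nat_lit 40, nat_lit 80, nat_lit 14, nat_lit 538, nat_lit 300, nat_lit 13]⟩,
 zbF0, [⟨nat_lit 4, nat_lit 100, nat_lit 93, nat_lit 97, nat_lit 152571841⟩, ⟨nat_lit 19, nat_lit 100, nat_lit 77, nat_lit 91, nat_lit 403949989⟩]⟩
noncomputable def b_V_700_600_20_25 : St := ⟨true, nat_lit 1, nat_lit 0, nat_lit 1, nat_lit 120, nat_lit 280, nat_lit 320, nat_lit 240, nat_lit 280, nat_lit 240, nat_lit 400, nat_lit 80, nat_lit 120, nat_lit 0, nat_lit 336, nat_lit 0, nat_lit 364, nat_lit 0, nat_lit 40, nat_lit 0, nat_lit 0, nat_lit 0, nat_lit 0⟩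
theorem d_V_700_600_20_25 (h : EB TB.env) : Dead b_V_700_600_20_25 := chkB_sound0 h (T :=
(.spl (nat_lit 0) (nat_lit 300)
(.spl (nat_lit 5) (nat_lit 160)
(.leaf p062_l99)
(.spl (nat_lit 0) (nat_lit 290)
(.spl (nat_lit 6) (nat_lit 32)
(.spl (nat_lit 0) (nat_lit 285)
(.leaf p062_l100)
(.trX (nat_lit 16) (nat_lit 99) (nat_lit 82) (nat_lit 100) (nat_lit 332) (.leaf p062_l101)))
(.leaf p062_l102))
(.trX (nat_lit 16) (nat_lit 97) (nat_lit 84) (nat_lit 100) (nat_lit 328) (.leaf p062_l103))))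
(.trX (nat_lit 16) (nat_lit 94) (nat_lit 88) (nat_lit 100) (nat_lit 320) (.spl (nat_lit 5) (nat_lit 160)
(.leaf p062_l104)
(.leaf p062_l105))))) (by decide +kernel)
noncomputable def p062_l106 : Lf2 := ⟨nat_lit 0, nat_lit 5, [nat_lit 4, nat_lit 5, nat_lit 5, nat_lit 20], false, nat_lit 0, nat_lit 80, nat_lit 0, nat_lit 364, ⟨nat_lit 0, nat_lit 0, nat_lit 1000, nat_lit 6, nat_lit 135, nat_lit 0, nat_lit 34, nat_lit 809, nat_lit 11267, nat_lit 241, nat_lit 170017, nat_lit 316, nat_lit 60121225, nat_lit 0, nat_lit 0, nat_lit 1654530, false, false⟩,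
 nat_lit 0, nat_lit 5027, nat_lit 0, nat_lit 0, nat_lit 3198, nat_lit 0, nat_lit 0, nat_lit 0, nat_lit 0, nat_lit 0, nat_lit 0, nat_lit 0, nat_lit 0, nat_lit 0, nat_lit 150, nat_lit 917200, nat_lit 0, nat_lit 0, [(nat_lit 12, [(nat_lit 5, nat_lit 138), (nat_lit 6, nat_lit 862)])],
 ⟨p062_k13, nat_lit 0, nat_lit 0, nat_lit 306, nat_lit 0, nat_lit 274090, [nat_lit 2954944801, nat_lit 1954224800, nat_lit 12136000], [], [nat_lit 13695780117, nat_lit 14388269096, nat_lit 14160646314, nat_lit 14757727284, nat_lit 13043475508, nat_lit 13656041459, nat_lit 13609917194, nat_lit 14170235462], nat_lit 1271250, nat_lit 1271250, nat_lit 205650, nat_lit 780000, nat_lit 0, nat_lit 490000, [nat_lit 780000, nat_lit 1435000, nat_lit 1271250], [nat_lit 18, nat_lit 40, nat_lit 40, nat_lit 80, nat_lit 2, nat_lit 260, nat_lit 50, nat_lit 9]⟩, ⟨p062_k10, nat_lit 0, nat_lit 0, nat_lit 437, nat_lit 0, nat_lit 345916, [nat_lit 0, nat_lit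 0, nat_lit 0], [], [nat_lit 0, nat_lit 0, nat_lit 0, nat_lit 0, nat_lit 0, nat_lit 0, nat_lit 0, nat_lit 0], nat_lit 1271250, nat_lit 1271250, nat_lit 205650, nat_lit 780000, nat_lit 0, nat_lit 2570750, [nat_lit 1100000, nat_lit 1785000, nat_lit 1271250], [nat_lit 29, nat_lit 40, nat_lit 40, nat_lit 80, nat_lit 17, nat_lit 428, nat_lit 200, nat_lit 13]⟩,
 ⟨nat_lit 5244, nat_lit 5478, ⟨.ofNat (nat_lit 235487), .ofNat (nat_lit 392847), .ofNat (nat_lit 278201), .ofNat (nat_lit 435559), .ofNat (nat_lit 242768), .ofNat (nat_lit 396427), .ofNat (nat_lit 285539), .ofNat (nat_lit 439196)⟩, ⟨.negSucc (nat_lit 2827), .ofNat (nat_lit 147057), .ofNat (nat_lit 0), .ofNat (nat_lit 189771), .ofNat (nat_lit 0), .ofNat (nat_lit 152172), .ofNat (nat_lit 0), .ofNat (nat_lit 194943)⟩⟩, [⟨nat_lit 0, nat_lit 100, nat_lit 97, nat_lit 84, nat_lit 86459460⟩]⟩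
noncomputable def p062_l107 : Lf2 := ⟨nat_lit 0, nat_lit 5, [nat_lit 4, nat_lit 5, nat_lit 5, nat_lit 20], false, nat_lit 0, nat_lit 80, nat_lit 0, nat_lit 364, ⟨nat_lit 0, nat_lit 0, nat_lit 1000, nat_lit 6, nat_lit 139, nat_lit 0, nat_lit 35, nat_lit 820, nat_lit 11267, nat_lit 241, nat_lit 180267, nat_lit 319, nat_lit 59787772, nat_lit 0, nat_lit 0, nat_lit 1707815, false, false⟩,
 nat_lit 0, nat_lit 4705, nat_lit 0, nat_lit 0, nat_lit 3124, nat_lit 0, nat_lit 0, nat_lit 0, nat_lit 0, nat_lit 0, nat_lit 0, nat_lit 0, nat_lit 0, nat_lit 0, nat_lit 76, nat_lit 988600, nat_lit 0, nat_lit 0, [(nat_lit 12, [(nat_lit 5, nat_lit 19), (nat_lit 6, nat_lit 981)])],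
 ⟨p062_k16, nat_lit 0, nat_lit 0, nat_lit 249, nat_lit 0, nat_lit 312187, [nat_lit 2055092401, nat_lit 400068399], [], [nat_lit 14281443333, nat_lit 15022314888, nat_lit 14807240117, nat_lit 15456584643, nat_lit 13657906061, nat_lit 14262617849, nat_lit 14320290191, nat_lit 14947914923], nat_lit 1271250, nat_lit 1271250, nat_lit 230001, nat_lit 780000, nat_lit 0, nat_lit 490000, [nat_lit 780000, nat_lit 1435000], [nat_lit 49, nat_lit 40, nat_lit 40, nat_lit 80, nat_lit 16, nat_lit 260, nat_lit 50, nat_lit 10]⟩, ⟨p062_k10, nat_lit 0, nat_lit 0, nat_lit 462, nat_lit 0, nat_lit 415433, [nat_lit 0, nat_lit 0, nat_lit 0], [], [nat_lit 0, nat_lit 0, nat_lit 0, nat_lit 0, nat_lit 0, nat_lit 0, nat_lit 0, nat_lit 0], nat_lit 1271250, nat_lit 1271250, nat_lit 230001, nat_lit 780000, nat_lit 0, nat_lit 2570750, [nat_lit 1100000, nat_lit 1785000, nat_lit 1271250], [nat_lit 29, nat_lit 40, nat_lit 40, nat_lit 80, nat_lit 17,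 nat_lit 428, nat_lit 200, nat_lit 13]⟩,
 ⟨nat_lit 5000, nat_lit 5245, ⟨.ofNat (nat_lit 250085), .ofNat (nat_lit 396427), .ofNat (nat_lit 292856), .ofNat (nat_lit 439194), .ofNat (nat_lit 257141), .ofNat (nat_lit 399998), .ofNat (nat_lit 299999), .ofNat (nat_lit 442852)⟩, ⟨.ofNat (nat_lit 0), .ofNat (nat_lit 152172), .ofNat (nat_lit 0), .ofNat (nat_lit 194943), .ofNat (nat_lit 0), .ofNat (nat_lit 157141), .ofNat (nat_lit 0), .ofNat (nat_lit 199998)⟩⟩, [⟨nat_lit 0, nat_lit 100, nat_lit 94, nat_lit 88, nat_lit 79353190⟩]⟩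
noncomputable def p062_l108 : Lf2 := ⟨nat_lit 0, nat_lit 10, [nat_lit 0, nat_lit 5, nat_lit 5, nat_lit 20], false, nat_lit 0, nat_lit 80, nat_lit 0, nat_lit 364, ⟨nat_lit 0, nat_lit 0, nat_lit 1000, nat_lit 6, nat_lit 136, nat_lit 0, nat_lit 35, nat_lit 846, nat_lit 11267, nat_lit 241, nat_lit 173400, nat_lit 317, nat_lit 60021743, nat_lit 0, nat_lit 0, nat_lit 1670565, false, false⟩,
 nat_lit 0, nat_lit 5337, nat_lit 0, nat_lit 2250, nat_lit 3396, nat_lit 0, nat_lit 121, nat_lit 0, nat_lit 0, nat_lit 0, nat_lit 0, nat_lit 0, nat_lit 0, nat_lit 0, nat_lit 128, nat_lit 577000, nat_lit 0, nat_lit 0, [(nat_lit 12, [(nat_lit 5, nat_lit 705), (nat_lit 6, nat_lit 295)])],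
 ⟨p062_k0, nat_lit 0, nat_lit 0, nat_lit 322, nat_lit 0, nat_lit 133510, [nat_lit 2747418001, nat_lit 1850418001, nat_lit 260234000], [], [nat_lit 14387995586, nat_lit 15760052893, nat_lit 14345921519, nat_lit 15429395931, nat_lit 13282882678, nat_lit 14373155467, nat_lit 13601345731, nat_lit 14678146659], nat_lit 1271250, nat_lit 1271250, nat_lit 205650, nat_lit 780000, nat_lit 0, nat_lit 490000, [nat_lit 780000, nat_lit 1435000, nat_lit 1271250], [nat_lit 8, nat_lit 40, nat_lit 40, nat_lit 80, nat_lit 1, nat_lit 260, nat_lit 50, nat_lit 8]⟩, ⟨p062_k12, nat_lit 0, nat_lit 0, nat_lit 404, nat_lit 0, nat_lit 169173, [nat_lit 0, nat_lit 0, nat_lit 0], [], [nat_lit 0, nat_lit 0, nat_lit 0, nat_lit 0, nat_lit 0, nat_lit 0, nat_lit 0, nat_lit 0], nat_lit 1271250, nat_lit 1271250, nat_lit 205650, nat_lit 780000, nat_lit 0, nat_lit 2570750, [nat_lit 1100000, nat_lit 1785000, nat_lit 1271250], [nat_lit 21, nat_lit 40, nat_lit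 40, nat_lit 80, nat_lit 14, nat_lit 428, nat_lit 200, nat_lit 11]⟩,
 ⟨nat_lit 5000, nat_lit 5478, ⟨.ofNat (nat_lit 235487), .ofNat (nat_lit 392847), .ofNat (nat_lit 278201), .ofNat (nat_lit 435548), .ofNat (nat_lit 249999), .ofNat (nat_lit 399998), .ofNat (nat_lit 292856), .ofNat (nat_lit 442843)⟩, ⟨.negSucc (nat_lit 2832), .ofNat (nat_lit 147057), .ofNat (nat_lit 0), .ofNat (nat_lit 189771), .ofNat (nat_lit 0), .ofNat (nat_lit 157141), .ofNat (nat_lit 0), .ofNat (nat_lit 199998)⟩⟩, [⟨nat_lit 0, nat_lit 100, nat_lit 94, nat_lit 88, nat_lit 127962434⟩]⟩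
noncomputable def p062_l109 : Lf2 := ⟨nat_lit 0, nat_lit 10, [nat_lit 0, nat_lit 5, nat_lit 5, nat_lit 20], false, nat_lit 0, nat_lit 80, nat_lit 0, nat_lit 160, ⟨nat_lit 158, nat_lit 0, nat_lit 842, nat_lit 6, nat_lit 145, nat_lit 842, nat_lit 36, nat_lit 842, nat_lit 12150, nat_lit 242, nat_lit 198017, nat_lit 324, nat_lit 59224880, nat_lit 0, nat_lit 0, nat_lit 1794864, false, false⟩,
 nat_lit 2517, nat_lit 2840, nat_lit 0, nat_lit 0, nat_lit 3708, nat_lit 1332, nat_lit 0, nat_lit 0, nat_lit 0, nat_lit 151, nat_lit 0, nat_lit 0, nat_lit 0, nat_lit 0, nat_lit 84, nat_lit 609800, nat_lit 0, nat_lit 0, [(nat_lit 15, [(nat_lit 5, nat_lit 387), (nat_lit 6, nat_lit 455)])],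
 ⟨p062_k2, nat_lit 0, nat_lit 0, nat_lit 390, nat_lit 0, nat_lit 422750, [nat_lit 2481438400, nat_lit 1250270801, nat_lit 30440799], [], [nat_lit 16215903321, nat_lit 18020544199, nat_lit 16558711481, nat_lit 17699817600, nat_lit 15418897921, nat_lit 16575022798, nat_lit 17367709746, nat_lit 16953594912], nat_lit 1271250, nat_lit 1271250, nat_lit 279600, nat_lit 780000, nat_lit 0, nat_lit 490000, [nat_lit 780000, nat_lit 1435000, nat_lit 1271250], [nat_lit 18, nat_lit 40, nat_lit 40, nat_lit 80, nat_lit 2, nat_lit 260, nat_lit 50, nat_lit 9]⟩, ⟨p062_k12, nat_lit 0, nat_lit 0, nat_lit 618, nat_lit 0, nat_lit 595515, [nat_lit 740704000, nat_lit 1258944000, nat_lit 1875776000], [], [nat_lit 8333727042, nat_lit 6907693170, nat_lit 5884981388, nat_lit 6029990628, nat_lit 5389466988, nat_lit 5544403897, nat_lit 5837612464, nat_lit 5242164936], nat_lit 1271250, nat_lit 1271250, nat_lit 279600, nat_lit 780000, nat_lit 0,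 nat_lit 1100001, [nat_lit 1100000, nat_lit 1785000, nat_lit 1271250], [nat_lit 21, nat_lit 40, nat_lit 40, nat_lit 80, nat_lit 14, nat_lit 373, nat_lit 150, nat_lit 10]⟩,
 ⟨nat_lit 4472, nat_lit 5000, ⟨.ofNat (nat_lit 271418), .ofNat (nat_lit 399984), .ofNat (nat_lit 314253), .ofNat (nat_lit 442816), .ofNat (nat_lit 284805), .ofNat (nat_lit 407160), .ofNat (nat_lit 327916), .ofNat (nat_lit 450269)⟩, ⟨.ofNat (nat_lit 0), .ofNat (nat_lit 157141), .ofNat (nat_lit 0), .ofNat (nat_lit 199998), .ofNat (nat_lit 0), .ofNat (nat_lit 166665), .ofNat (nat_lit 0), .ofNat (nat_lit 200000)⟩⟩, [⟨nat_lit 0, nat_lit 100, nat_lit 88, nat_lit 81, nat_lit 287777234⟩, ⟨nat_lit 3, nat_lit 100, nat_lit 87, nat_lit 25, nat_lit 309799⟩]⟩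
noncomputable def p062_l110 : Lf2 := ⟨nat_lit 0, nat_lit 10, [nat_lit 0, nat_lit 5, nat_lit 5, nat_lit 20], false, nat_lit 0, nat_lit 80, nat_lit 160, nat_lit 364, ⟨nat_lit 237, nat_lit 0, nat_lit 763, nat_lit 6, nat_lit 145, nat_lit 731, nat_lit 36, nat_lit 763, nat_lit 12150, nat_lit 242, nat_lit 198017, nat_lit 324, nat_lit 59224880, nat_lit 0, nat_lit 0, nat_lit 1794864, false, false⟩,
 nat_lit 4494, nat_lit 1115, nat_lit 0, nat_lit 0, nat_lit 3883, nat_lit 2379, nat_lit 0, nat_lit 0, nat_lit 0, nat_lit 256, nat_lit 0, nat_lit 0, nat_lit 0, nat_lit 0, nat_lit 85, nat_lit 743800, nat_lit 0, nat_lit 0, [(nat_lit 15, [(nat_lit 5, nat_lit 32), (nat_lit 6, nat_lit 731)])],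
 ⟨p062_k2, nat_lit 0, nat_lit 0, nat_lit 390, nat_lit 0, nat_lit 422750, [nat_lit 2556300400, nat_lit 1472623601, nat_lit 15682000], [], [nat_lit 16326727137, nat_lit 18378035039, nat_lit 16485580860, nat_lit 17648693705, nat_lit 15356632781, nat_lit 16476540778, nat_lit 17393871246, nat_lit 16726099969], nat_lit 1271250, nat_lit 1271250, nat_lit 279600, nat_lit 780000, nat_lit 0, nat_lit 490000, [nat_lit 780000, nat_lit 1435000, nat_lit 1271250], [nat_lit 18, nat_lit 40, nat_lit 40, nat_lit 80, nat_lit 2, nat_lit 260, nat_lit 50, nat_lit 9]⟩, ⟨p062_k12, nat_lit 0, nat_lit 0, nat_lit 501, nat_lit 0, nat_lit 595515, [nat_lit 1111056000, nat_lit 1888416000, nat_lit 2813664000], [], [nat_lit 7576022456, nat_lit 6456836857, nat_lit 6766204812, nat_lit 5811245256, nat_lit 7750623845, nat_lit 8100647757, nat_lit 6993046527, nat_lit 7160697271], nat_lit 1271250, nat_lit 1271250, nat_lit 279600, nat_lit 780000, nat_lit 1271250,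 nat_lit 1271250, [nat_lit 1100000, nat_lit 1785000, nat_lit 1271250], [nat_lit 21, nat_lit 40, nat_lit 40, nat_lit 80, nat_lit 14, nat_lit 428, nat_lit 200, nat_lit 11]⟩,
 ⟨nat_lit 4472, nat_lit 5000, ⟨.ofNat (nat_lit 271418), .ofNat (nat_lit 399984), .ofNat (nat_lit 314253), .ofNat (nat_lit 442816), .ofNat (nat_lit 284805), .ofNat (nat_lit 407160), .ofNat (nat_lit 327916), .ofNat (nat_lit 450269)⟩, ⟨.ofNat (nat_lit 0), .ofNat (nat_lit 157141), .ofNat (nat_lit 0), .ofNat (nat_lit 199998), .ofNat (nat_lit 0), .ofNat (nat_lit 166665), .ofNat (nat_lit 0), .ofNat (nat_lit 200000)⟩⟩, [⟨nat_lit 0, nat_lit 100, nat_lit 88, nat_lit 81, nat_lit 329510104⟩, ⟨nat_lit 19, nat_lit 100, nat_lit 77, nat_lit 91, nat_lit 67239707⟩]⟩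
noncomputable def p062_l111 : Lf2 := ⟨nat_lit 0, nat_lit 10, [nat_lit 0, nat_lit 5, nat_lit 5, nat_lit 20], false, nat_lit 0, nat_lit 80, nat_lit 0, nat_lit 364, ⟨nat_lit 198, nat_lit 0, nat_lit 802, nat_lit 6, nat_lit 182, nat_lit 238, nat_lit 35, nat_lit 802, nat_lit 11267, nat_lit 241, nat_lit 24681, nat_lit 252, nat_lit 55533712, nat_lit 0, nat_lit 0, nat_lit 2288434, false, false⟩,
 nat_lit 3884, nat_lit 2991, nat_lit 0, nat_lit 0, nat_lit 4374, nat_lit 2056, nat_lit 199, nat_lit 0, nat_lit 0, nat_lit 189, nat_lit 0, nat_lit 0, nat_lit 0, nat_lit 0, nat_lit 99, nat_lit 802000, nat_lit 0, nat_lit 0, [(nat_lit 12, [(nat_lit 6, nat_lit 802)])],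
 ⟨p062_k0, nat_lit 0, nat_lit 0, nat_lit 349, nat_lit 0, nat_lit 346917, [nat_lit 2753078401, nat_lit 2313164801, nat_lit 395690400], [], [nat_lit 14770460915, nat_lit 15985721935, nat_lit 15472468099, nat_lit 16617064991, nat_lit 13426176635, nat_lit 14564576439, nat_lit 15900202043, nat_lit 15183893767], nat_lit 1271250, nat_lit 1271250, nat_lit 780000, nat_lit 1100001, nat_lit 0, nat_lit 490000, [nat_lit 780000, nat_lit 1435000, nat_lit 1271250], [nat_lit 8, nat_lit 40, nat_lit 40, nat_lit 80, nat_lit 1, nat_lit 272, nat_lit 60, nat_lit 8]⟩, ⟨p062_k12, nat_lit 0, nat_lit 0, nat_lit 499, nat_lit 0, nat_lit 439586, [nat_lit 928224000, nat_lit 1577664000, nat_lit 2350656000], [], [nat_lit 11157354472, nat_lit 8949465416, nat_lit 8949465416, nat_lit 6775294760, nat_lit 7595035580, nat_lit 6132998490, nat_lit 8644140559, nat_lit 6831311492], nat_lit 1271250, nat_lit 1271250, nat_lit 780000, nat_lit 1100001, nat_lit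 0, nat_lit 2570750, [nat_lit 1100000, nat_lit 1785000, nat_lit 1271250], [nat_lit 21, nat_lit 40, nat_lit 40, nat_lit 80, nat_lit 14, nat_lit 456, nat_lit 225, nat_lit 12]⟩,
 ⟨nat_lit 5000, nat_lit 5478, ⟨.ofNat (nat_lit 392847), .ofNat (nat_lit 467773), .ofNat (nat_lit 435548), .ofNat (nat_lit 510468), .ofNat (nat_lit 399998), .ofNat (nat_lit 471421), .ofNat (nat_lit 442843), .ofNat (nat_lit 514258)⟩, ⟨.negSucc (nat_lit 2832), .ofNat (nat_lit 147057), .ofNat (nat_lit 0), .ofNat (nat_lit 189771), .ofNat (nat_lit 0), .ofNat (nat_lit 157141), .ofNat (nat_lit 0), .ofNat (nat_lit 199998)⟩⟩, []⟩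
noncomputable def p062_l112 : Lf2 := ⟨nat_lit 0, nat_lit 10, [nat_lit 0, nat_lit 5, nat_lit 5, nat_lit 20], false, nat_lit 0, nat_lit 80, nat_lit 0, nat_lit 364, ⟨nat_lit 237, nat_lit 0, nat_lit 763, nat_lit 6, nat_lit 184, nat_lit 0, nat_lit 36, nat_lit 690, nat_lit 12150, nat_lit 242, nat_lit 19267, nat_lit 249, nat_lit 55302699, nat_lit 0, nat_lit 0, nat_lit 2315422, false, false⟩,
 nat_lit 4366, nat_lit 1234, nat_lit 0, nat_lit 0, nat_lit 3876, nat_lit 2311, nat_lit 109, nat_lit 0, nat_lit 0, nat_lit 189, nat_lit 0, nat_lit 0, nat_lit 0, nat_lit 0, nat_lit 89, nat_lit 763000, nat_lit 0, nat_lit 0, [(nat_lit 15, [(nat_lit 6, nat_lit 763)])],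
 ⟨p062_k2, nat_lit 0, nat_lit 0, nat_lit 330, nat_lit 0, nat_lit 422750, [nat_lit 2593574000, nat_lit 1510012401, nat_lit 15003600], [], [nat_lit 16221095336, nat_lit 17384085264, nat_lit 16955129824, nat_lit 18052186848, nat_lit 15378421608, nat_lit 16465534672, nat_lit 16086820408, nat_lit 17113076784], nat_lit 1271250, nat_lit 1271250, nat_lit 780000, nat_lit 1100001, nat_lit 0, nat_lit 490000, [nat_lit 780000, nat_lit 1435000, nat_lit 1271250], [nat_lit 18, nat_lit 40, nat_lit 40, nat_lit 80, nat_lit 2, nat_lit 272, nat_lit 60, nat_lit 9]⟩, ⟨p062_k12, nat_lit 0, nat_lit 0, nat_lit 560, nat_lit 0, nat_lit 595515, [nat_lit 1111056000, nat_lit 1888416000, nat_lit 2813664000], [], [nat_lit 12965436520, nat_lit 10483709084, nat_lit 10483709084, nat_lit 8039882048, nat_lit 9170075384, nat_lit 7616479674, nat_lit 10367784550, nat_lit 8330115302], nat_lit 1271250, nat_lit 1271250, nat_lit 780000, nat_lit 1100001, nat_lit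 0, nat_lit 2570750, [nat_lit 1100000, nat_lit 1785000, nat_lit 1271250], [nat_lit 21, nat_lit 40, nat_lit 40, nat_lit 80, nat_lit 14, nat_lit 456, nat_lit 225, nat_lit 12]⟩,
 ⟨nat_lit 4472, nat_lit 5000, ⟨.ofNat (nat_lit 399984), .ofNat (nat_lit 471408), .ofNat (nat_lit 442816), .ofNat (nat_lit 514240), .ofNat (nat_lit 407160), .ofNat (nat_lit 475134), .ofNat (nat_lit 450269), .ofNat (nat_lit 518242)⟩, ⟨.ofNat (nat_lit 0), .ofNat (nat_lit 157141), .ofNat (nat_lit 0), .ofNat (nat_lit 199998), .ofNat (nat_lit 0), .ofNat (nat_lit 166665), .ofNat (nat_lit 0), .ofNat (nat_lit 200000)⟩⟩, []⟩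
noncomputable def p062_l113 : Lf2 := ⟨nat_lit 0, nat_lit 10, [nat_lit 0, nat_lit 5, nat_lit 5, nat_lit 20], true, nat_lit 80, nat_lit 160, nat_lit 0, nat_lit 364, ⟨nat_lit 0, nat_lit 0, nat_lit 1000, nat_lit 6, nat_lit 124, nat_lit 1000, nat_lit 99, nat_lit 1000, nat_lit 93750, nat_lit 290, nat_lit 144150, nat_lit 308, nat_lit 56188323, nat_lit 0, nat_lit 0, nat_lit 2928346, false, false⟩,
 nat_lit 0, nat_lit 6998, nat_lit 0, nat_lit 0, nat_lit 4453, nat_lit 0, nat_lit 0, nat_lit 0, nat_lit 0, nat_lit 0, nat_lit 0, nat_lit 0, nat_lit 0, nat_lit 0, nat_lit 203, nat_lit 1000000, nat_lit 0, nat_lit 0, [(nat_lit 12, [(nat_lit 6, nat_lit 1000)]), (nat_lit 15, [(nat_lit 6, nat_lit 1000)])],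
 ⟨p062_k0, nat_lit 0, nat_lit 0, nat_lit 425, nat_lit 0, nat_lit 469975, [nat_lit 3577200001, nat_lit 2932400001, nat_lit 429200000], [], [nat_lit 14481116934, nat_lit 16009579918, nat_lit 10454628860, nat_lit 14739891768, nat_lit 12725628117, nat_lit 16620057802, nat_lit 14305880748, nat_lit 15536057432], nat_lit 1271250, nat_lit 1271250, nat_lit 205650, nat_lit 490000, nat_lit 490000, nat_lit 1100001, [nat_lit 780000, nat_lit 1435000, nat_lit 1271250], [nat_lit 8, nat_lit 40, nat_lit 40, nat_lit 80, nat_lit 1, nat_lit 272, nat_lit 60, nat_lit 8]⟩, C1.Rw.none,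
 ⟨nat_lit 4472, nat_lit 5478, ⟨.ofNat (nat_lit 235487), .ofNat (nat_lit 317898), .ofNat (nat_lit 278138), .ofNat (nat_lit 360546), .ofNat (nat_lit 264421), .ofNat (nat_lit 339182), .ofNat (nat_lit 307491), .ofNat (nat_lit 382248)⟩, ⟨.ofNat (nat_lit 147057), .ofNat (nat_lit 296923), .ofNat (nat_lit 189763), .ofNat (nat_lit 339637), .ofNat (nat_lit 166665), .ofNat (nat_lit 302621), .ofNat (nat_lit 200000), .ofNat (nat_lit 345754)⟩⟩, [⟨nat_lit 0, nat_lit 100, nat_lit 91, nat_lit 77, nat_lit 263527329⟩]⟩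
noncomputable def p062_l114 : Lf2 := ⟨nat_lit 0, nat_lit 10, [nat_lit 0, nat_lit 5, nat_lit 5, nat_lit 20], false, nat_lit 80, nat_lit 160, nat_lit 0, nat_lit 364, ⟨nat_lit 10, nat_lit 0, nat_lit 990, nat_lit 6, nat_lit 166, nat_lit 990, nat_lit 98, nat_lit 990, nat_lit 91267, nat_lit 289, nat_lit 25034, nat_lit 253, nat_lit 52575476, nat_lit 0, nat_lit 0, nat_lit 3470291, false, false⟩,
 nat_lit 142, nat_lit 6030, nat_lit 0, nat_lit 0, nat_lit 3927, nat_lit 75, nat_lit 0, nat_lit 0, nat_lit 0, nat_lit 9, nat_lit 0, nat_lit 0, nat_lit 0, nat_lit 0, nat_lit 202, nat_lit 990000, nat_lit 0, nat_lit 0, [(nat_lit 12, [(nat_lit 6, nat_lit 990)])],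
 ⟨p062_k0, nat_lit 0, nat_lit 0, nat_lit 215, nat_lit 0, nat_lit 288866, [nat_lit 3586608001, nat_lit 2986176001, nat_lit 415548000], [], [nat_lit 10735858740, nat_lit 11411149394, nat_lit 11966823546, nat_lit 12617165176, nat_lit 11966823546, nat_lit 12617165176, nat_lit 13253865682, nat_lit 13917618606], nat_lit 1271250, nat_lit 1271250, nat_lit 490000, nat_lit 1100001, nat_lit 490000, nat_lit 1100001, [nat_lit 780000, nat_lit 1435000, nat_lit 1271250], [nat_lit 8, nat_lit 40, nat_lit 40, nat_lit 80, nat_lit 1, nat_lit 317, nat_lit 100, nat_lit 9]⟩, ⟨p062_k12, nat_lit 0, nat_lit 0, nat_lit 492, nat_lit 0, nat_lit 366028, [nat_lit 46880000, nat_lit 79680000, nat_lit 118720000], [], [nat_lit 570397620, nat_lit 488588820, nat_lit 408048120, nat_lit 329336960, nat_lit 368032770, nat_lit 351706020, nat_lit 440612915, nat_lit 374483450], nat_lit 1271250, nat_lit 1271250, nat_lit 490000, nat_lit 1100001, nat_lit 0, nat_lit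 2570750, [nat_lit 1100000, nat_lit 1785000, nat_lit 1271250], [nat_lit 21, nat_lit 40, nat_lit 40, nat_lit 80, nat_lit 14, nat_lit 456, nat_lit 225, nat_lit 12]⟩,
 ⟨nat_lit 5244, nat_lit 5478, ⟨.ofNat (nat_lit 317913), .ofNat (nat_lit 467779), .ofNat (nat_lit 360628), .ofNat (nat_lit 510489), .ofNat (nat_lit 323256), .ofNat (nat_lit 469597), .ofNat (nat_lit 366027), .ofNat (nat_lit 512365)⟩, ⟨.ofNat (nat_lit 147057), .ofNat (nat_lit 296923), .ofNat (nat_lit 189771), .ofNat (nat_lit 339637), .ofNat (nat_lit 152172), .ofNat (nat_lit 298515), .ofNat (nat_lit 194943), .ofNat (nat_lit 341286)⟩⟩, []⟩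
noncomputable def p062_l115 : Lf2 := ⟨nat_lit 0, nat_lit 10, [nat_lit 0, nat_lit 5, nat_lit 5, nat_lit 20], false, nat_lit 80, nat_lit 160, nat_lit 0, nat_lit 364, ⟨nat_lit 18, nat_lit 0, nat_lit 982, nat_lit 6, nat_lit 168, nat_lit 982, nat_lit 99, nat_lit 982, nat_lit 93750, nat_lit 290, nat_lit 24731, nat_lit 252, nat_lit 52353220, nat_lit 0, nat_lit 0, nat_lit 3506320, false, false⟩,
 nat_lit 285, nat_lit 5457, nat_lit 0, nat_lit 0, nat_lit 3813, nat_lit 150, nat_lit 126, nat_lit 0, nat_lit 0, nat_lit 15, nat_lit 0, nat_lit 0, nat_lit 0, nat_lit 0, nat_lit 154, nat_lit 982000, nat_lit 0, nat_lit 0, [(nat_lit 12, [(nat_lit 6, nat_lit 982)])],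
 ⟨p062_k1, nat_lit 0, nat_lit 0, nat_lit 198, nat_lit 0, nat_lit 328729, [nat_lit 3027734401, nat_lit 2085196801, nat_lit 21800800], [], [nat_lit 11502146438, nat_lit 12357548250, nat_lit 12808580189, nat_lit 13540842118, nat_lit 12808580189, nat_lit 13540842118, nat_lit 14189304678, nat_lit 14843548634], nat_lit 1271250, nat_lit 1271250, nat_lit 490000, nat_lit 1100001, nat_lit 490000, nat_lit 1100001, [nat_lit 780000, nat_lit 1435000, nat_lit 1271250], [nat_lit 18, nat_lit 40, nat_lit 40, nat_lit 80, nat_lit 2, nat_lit 317, nat_lit 100, nat_lit 10]⟩, ⟨p062_k12, nat_lit 0, nat_lit 0, nat_lit 521, nat_lit 0, nat_lit 439586, [nat_lit 84384000, nat_lit 143424000, nat_lit 213696000], [], [nat_lit 1082043216, nat_lit 918425616, nat_lit 757344216, nat_lit 646897068, nat_lit 650721516, nat_lit 646527477, nat_lit 791001798, nat_lit 658742868], nat_lit 1271250, nat_lit 1271250, nat_lit 490000, nat_lit 1100001, nat_lit 0,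 nat_lit 2570750, [nat_lit 1100000, nat_lit 1785000, nat_lit 1271250], [nat_lit 21, nat_lit 40, nat_lit 40, nat_lit 80, nat_lit 14, nat_lit 456, nat_lit 225, nat_lit 12]⟩,
 ⟨nat_lit 5000, nat_lit 5245, ⟨.ofNat (nat_lit 323256), .ofNat (nat_lit 469596), .ofNat (nat_lit 366025), .ofNat (nat_lit 512362), .ofNat (nat_lit 328570), .ofNat (nat_lit 471425), .ofNat (nat_lit 371426), .ofNat (nat_lit 514278)⟩, ⟨.ofNat (nat_lit 152172), .ofNat (nat_lit 298515), .ofNat (nat_lit 194943), .ofNat (nat_lit 341286), .ofNat (nat_lit 157141), .ofNat (nat_lit 299999), .ofNat (nat_lit 199998), .ofNat (nat_lit 342856)⟩⟩, []⟩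
noncomputable def p062_l116 : Lf2 := ⟨nat_lit 0, nat_lit 10, [nat_lit 0, nat_lit 5, nat_lit 5, nat_lit 20], false, nat_lit 80, nat_lit 160, nat_lit 0, nat_lit 364, ⟨nat_lit 0, nat_lit 0, nat_lit 1000, nat_lit 6, nat_lit 170, nat_lit 999, nat_lit 101, nat_lit 999, nat_lit 96267, nat_lit 291, nat_lit 19267, nat_lit 249, nat_lit 52058459, nat_lit 0, nat_lit 0, nat_lit 3551650, false, false⟩,
 nat_lit 30, nat_lit 5299, nat_lit 0, nat_lit 0, nat_lit 3688, nat_lit 15, nat_lit 0, nat_lit 0, nat_lit 0, nat_lit 1, nat_lit 0, nat_lit 0, nat_lit 0, nat_lit 0, nat_lit 219, nat_lit 1000000, nat_lit 0, nat_lit 0, [(nat_lit 15, [(nat_lit 6, nat_lit 1000)])],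
 ⟨p062_k2, nat_lit 0, nat_lit 0, nat_lit 280, nat_lit 0, nat_lit 422750, [nat_lit 3608000000, nat_lit 2084800001, nat_lit 1200000], [], [nat_lit 12493784912, nat_lit 14323076928, nat_lit 13924706320, nat_lit 15331386272, nat_lit 13924706320, nat_lit 15331386272, nat_lit 15192651216, nat_lit 16346390720], nat_lit 1271250, nat_lit 1271250, nat_lit 490000, nat_lit 1100001, nat_lit 490000, nat_lit 1100001, [nat_lit 780000, nat_lit 1435000, nat_lit 1271250], [nat_lit 18, nat_lit 40, nat_lit 40, nat_lit 80, nat_lit 2, nat_lit 317, nat_lit 100, nat_lit 10]⟩, ⟨p062_k12, nat_lit 0, nat_lit 0, nat_lit 581, nat_lit 0, nat_lit 595515, [nat_lit 0, nat_lit 0, nat_lit 0], [], [nat_lit 55327500, nat_lit 38965740, nat_lit 22857600, nat_lit 11026680, nat_lit 15107290, nat_lit 17624716, nat_lit 9536356, nat_lit 11644839], nat_lit 1271250, nat_lit 1271250, nat_lit 490000, nat_lit 1100001, nat_lit 0, nat_lit 2570750, [nat_lit 1100000,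 nat_lit 1785000, nat_lit 1271250], [nat_lit 21, nat_lit 40, nat_lit 40, nat_lit 80, nat_lit 14, nat_lit 456, nat_lit 225, nat_lit 12]⟩,
 ⟨nat_lit 4472, nat_lit 5000, ⟨.ofNat (nat_lit 328559), .ofNat (nat_lit 471408), .ofNat (nat_lit 371392), .ofNat (nat_lit 514240), .ofNat (nat_lit 339186), .ofNat (nat_lit 475134), .ofNat (nat_lit 382295), .ofNat (nat_lit 518242)⟩, ⟨.ofNat (nat_lit 157141), .ofNat (nat_lit 299999), .ofNat (nat_lit 199998), .ofNat (nat_lit 342856), .ofNat (nat_lit 166665), .ofNat (nat_lit 302621), .ofNat (nat_lit 200000), .ofNat (nat_lit 345754)⟩⟩, []⟩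
noncomputable def p062_l117 : Lf2 := ⟨nat_lit 0, nat_lit 10, [nat_lit 0, nat_lit 5, nat_lit 5, nat_lit 20], false, nat_lit 0, nat_lit 160, nat_lit 0, nat_lit 160, ⟨nat_lit 1000, nat_lit 0, nat_lit 0, nat_lit 0, nat_lit 0, nat_lit 0, nat_lit 0, nat_lit 0, nat_lit 0, nat_lit 0, nat_lit 0, nat_lit 0, nat_lit 0, nat_lit 0, nat_lit 0, nat_lit 0, false, false⟩,
 nat_lit 13934, nat_lit 0, nat_lit 0, nat_lit 0, nat_lit 8866, nat_lit 7376, nat_lit 923, nat_lit 0, nat_lit 0, nat_lit 911, nat_lit 0, nat_lit 0, nat_lit 0, nat_lit 0, nat_lit 0, nat_lit 0, nat_lit 0, nat_lit 0, [],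
 ⟨p062_k0, nat_lit 0, nat_lit 0, nat_lit 425, nat_lit 0, nat_lit 469975, [nat_lit 3282000000, nat_lit 6250000000, nat_lit 9842000000], [], [nat_lit 33666795224, nat_lit 27454396175, nat_lit 26603627391, nat_lit 29459042423, nat_lit 19827681311, nat_lit 21757710863, nat_lit 27399023568, nat_lit 23025138160], nat_lit 1271250, nat_lit 1271250, nat_lit 1100001, nat_lit 1785000, nat_lit 0, nat_lit 1100001, [nat_lit 780000, nat_lit 1435000, nat_lit 1271250], [nat_lit 8, nat_lit 40, nat_lit 40, nat_lit 80, nat_lit 1, nat_lit 317, nat_lit 100, nat_lit 9]⟩, ⟨p062_k12, nat_lit 0, nat_lit 0, nat_lit 544, nat_lit 0, nat_lit 595515, [nat_lit 4688000000, nat_lit 7968000000, nat_lit 11872000000], [], [nat_lit 40615855840, nat_lit 37238694500, nat_lit 36975862212, nat_lit 38011514788, nat_lit 32091232516, nat_lit 32920516676, nat_lit 36905512960, nat_lit 33660961536], nat_lit 1271250, nat_lit 1271250, nat_lit 1100001, nat_lit 1785000,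 nat_lit 0, nat_lit 1100001, [nat_lit 1100000, nat_lit 1785000, nat_lit 1271250], [nat_lit 21, nat_lit 40, nat_lit 40, nat_lit 80, nat_lit 14, nat_lit 401, nat_lit 175, nat_lit 10]⟩,
 zbF0, []⟩
noncomputable def p062_l118 : Lf2 := ⟨nat_lit 0, nat_lit 10, [nat_lit 0, nat_lit 5, nat_lit 5, nat_lit 20], false, nat_lit 0, nat_lit 160, nat_lit 160, nat_lit 240, ⟨nat_lit 1000, nat_lit 0, nat_lit 0, nat_lit 0, nat_lit 0, nat_lit 0, nat_lit 0, nat_lit 0, nat_lit 0, nat_lit 0, nat_lit 0, nat_lit 0, nat_lit 0, nat_lit 0, nat_lit 0, nat_lit 0, false, false⟩,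
 nat_lit 13439, nat_lit 394, nat_lit 0, nat_lit 0, nat_lit 8802, nat_lit 7114, nat_lit 896, nat_lit 0, nat_lit 0, nat_lit 983, nat_lit 0, nat_lit 0, nat_lit 0, nat_lit 0, nat_lit 0, nat_lit 0, nat_lit 0, nat_lit 0, [],
 ⟨p062_k0, nat_lit 0, nat_lit 0, nat_lit 425, nat_lit 0, nat_lit 469975, [nat_lit 3282000000, nat_lit 6250000000, nat_lit 9842000000], [], [nat_lit 33636947928, nat_lit 27745748600, nat_lit 26906373352, nat_lit 29606329056, nat_lit 20185907592, nat_lit 22109071736, nat_lit 27480492496, nat_lit 23210561520], nat_lit 1271250, nat_lit 1271250, nat_lit 1100001, nat_lit 1785000, nat_lit 0, nat_lit 1100001, [nat_lit 780000, nat_lit 1435000, nat_lit 1271250], [nat_lit 8, nat_lit 40, nat_lit 40, nat_lit 80, nat_lit 1, nat_lit 317, nat_lit 100, nat_lit 9]⟩, ⟨p062_k12, nat_lit 0, nat_lit 0, nat_lit 398, nat_lit 0, nat_lit 595515, [nat_lit 4688000000, nat_lit 7968000000, nat_lit 11872000000], [], [nat_lit 35528609760,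 nat_lit 28617686764, nat_lit 28501323692, nat_lit 29535453664, nat_lit 28501323692, nat_lit 29535453664, nat_lit 33696361984, nat_lit 30593465016], nat_lit 1271250, nat_lit 1271250, nat_lit 1100001, nat_lit 1785000, nat_lit 1100001, nat_lit 1785000, [nat_lit 1100000, nat_lit 1785000, nat_lit 1271250], [nat_lit 21, nat_lit 40, nat_lit 40, nat_lit 80, nat_lit 14, nat_lit 428, nat_lit 200, nat_lit 10]⟩,
 zbF0, []⟩
noncomputable def p062_l119 : Lf2 := ⟨nat_lit 0, nat_lit 10, [nat_lit 0, nat_lit 5, nat_lit 5, nat_lit 20], false, nat_lit 0, nat_lit 160, nat_lit 240, nat_lit 364, ⟨nat_lit 936, nat_lit 0, nat_lit 64, nat_lit 6, nat_lit 226, nat_lit 0, nat_lit 64, nat_lit 0, nat_lit 38400, nat_lit 263, nat_lit 49046, nat_lit 200, nat_lit 50819944, nat_lit 0, nat_lit 0, nat_lit 2763975, false, false⟩,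
 nat_lit 17761, nat_lit 0, nat_lit 0, nat_lit 0, nat_lit 9152, nat_lit 9402, nat_lit 1147, nat_lit 0, nat_lit 0, nat_lit 1072, nat_lit 0, nat_lit 0, nat_lit 0, nat_lit 0, nat_lit 0, nat_lit 64000, nat_lit 0, nat_lit 0, [(nat_lit 12, [(nat_lit 6, nat_lit 64)]), (nat_lit 15, [(nat_lit 6, nat_lit 64)])],
 ⟨p062_k0, nat_lit 0, nat_lit 0, nat_lit 425, nat_lit 0, nat_lit 469975, [nat_lit 3144988800, nat_lit 5777833601, nat_lit 8875804800], [], [nat_lit 33190997729, nat_lit 24823533056, nat_lit 24092680451, nat_lit 29066364960, nat_lit 17056799171, nat_lit 19473477347, nat_lit 26090626498, nat_lit 20780028323], nat_lit 1271250, nat_lit 1271250, nat_lit 1100001, nat_lit 1785000, nat_lit 0, nat_lit 1100001, [nat_lit 780000, nat_lit 1435000, nat_lit 1271250], [nat_lit 8, nat_lit 40, nat_lit 40, nat_lit 80, nat_lit 1, nat_lit 317, nat_lit 100, nat_lit 9]⟩, ⟨p062_k12, nat_lit 0, nat_lit 0, nat_lit 391, nat_lit 0, nat_lit 595515,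 [nat_lit 4387968000, nat_lit 7458048000, nat_lit 11112192000], [], [nat_lit 19934750336, nat_lit 21246468648, nat_lit 23346647712, nat_lit 22389694248, nat_lit 26331060380, nat_lit 27373555113, nat_lit 26831190627, nat_lit 28785321710], nat_lit 1271250, nat_lit 1271250, nat_lit 1100001, nat_lit 1785000, nat_lit 1271250, nat_lit 1271250, [nat_lit 1100000, nat_lit 1785000, nat_lit 1271250], [nat_lit 21, nat_lit 40, nat_lit 40, nat_lit 80, nat_lit 14, nat_lit 456, nat_lit 225, nat_lit 11]⟩,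
 ⟨nat_lit 4472, nat_lit 5478, ⟨.ofNat (nat_lit 467727), .ofNat (nat_lit 617523), .ofNat (nat_lit 510352), .ofNat (nat_lit 660148), .ofNat (nat_lit 475101), .ofNat (nat_lit 610987), .ofNat (nat_lit 518145), .ofNat (nat_lit 654031)⟩, ⟨.negSucc (nat_lit 2834), .ofNat (nat_lit 296923), .ofNat (nat_lit 0), .ofNat (nat_lit 339637), .ofNat (nat_lit 0), .ofNat (nat_lit 302621), .ofNat (nat_lit 0), .ofNat (nat_lit 345754)⟩⟩, [⟨nat_lit 19, nat_lit 100, nat_lit 77, nat_lit 91, nat_lit 519978251⟩, ⟨nat_lit 22, nat_lit 100, nat_lit 86, nat_lit 51, nat_lit 23812903⟩]⟩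
noncomputable def b_V_700_600_20_26 : St := ⟨true, nat_lit 1, nat_lit 1, nat_lit 1, nat_lit 120, nat_lit 280, nat_lit 320, nat_lit 240, nat_lit 280, nat_lit 36, nat_lit 240, nat_lit 80, nat_lit 120, nat_lit 0, nat_lit 160, nat_lit 0, nat_lit 364, nat_lit 0, nat_lit 40, nat_lit 0, nat_lit 0, nat_lit 0, nat_lit 0⟩
theorem d_V_700_600_20_26 (h : EB TB.env) : Dead b_V_700_600_20_26 := chkB_sound0 h (T :=
(.spl (nat_lit 2) (nat_lit 160)
(.spl (nat_lit 4) (nat_lit 80)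
(.spl (nat_lit 2) (nat_lit 120)
(.spl (nat_lit 0) (nat_lit 300)
(.spl (nat_lit 6) (nat_lit 20)
(.spl (nat_lit 0) (nat_lit 290)
(.leaf p062_l106)
(.trZ (nat_lit 0) (nat_lit 100) (nat_lit 91) (nat_lit 63) (nat_lit 40) (.leaf p062_l107)))
(.leaf p062_l108))
(.trZ (nat_lit 0) (nat_lit 100) (nat_lit 88) (nat_lit 68) (nat_lit 48) (.spl (nat_lit 5) (nat_lit 160)
(.leaf p062_l109)
(.leaf p062_l110))))
(.spl (nat_lit 0) (nat_lit 300)
(.leaf p062_l111)
(.leaf p062_l112)))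
(.spl (nat_lit 2) (nat_lit 80)
(.leaf p062_l113)
(.spl (nat_lit 0) (nat_lit 300)
(.spl (nat_lit 0) (nat_lit 290)
(.leaf p062_l114)
(.leaf p062_l115))
(.leaf p062_l116))))
(.spl (nat_lit 5) (nat_lit 160)
(.leaf p062_l117)
(.spl (nat_lit 5) (nat_lit 240)
(.leaf p062_l118)
(.leaf p062_l119))))) (by decide +kernel)
noncomputable def p062_l120 : Lf2 := ⟨nat_lit 0, nat_lit 5, [nat_lit 4, nat_lit 5, nat_lit 5, nat_lit 20], true, nat_lit 160, nat_lit 200, nat_lit 0, nat_lit 364, ⟨nat_lit 0, nat_lit 0, nat_lit 1000, nat_lit 6, nat_lit 122, nat_lit 1000, nat_lit 143, nat_lit 1000, nat_lit 190817, nat_lit 322, nat_lit 138017, nat_lit 306, nat_lit 52968383, nat_lit 0, nat_lit 0, nat_lit 3503273, false, false⟩,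
 nat_lit 0, nat_lit 5735, nat_lit 0, nat_lit 0, nat_lit 3649, nat_lit 0, nat_lit 0, nat_lit 0, nat_lit 0, nat_lit 0, nat_lit 0, nat_lit 0, nat_lit 0, nat_lit 0, nat_lit 162, nat_lit 1000000, nat_lit 0, nat_lit 0, [(nat_lit 12, [(nat_lit 6, nat_lit 1000)])],
 ⟨p062_k13, nat_lit 0, nat_lit 0, nat_lit 210, nat_lit 0, nat_lit 329172, [nat_lit 3085200001, nat_lit 2112400000, nat_lit 400000], [], [nat_lit 12613188473, nat_lit 14211967827, nat_lit 12421392329, nat_lit 13764823140, nat_lit 14256607977, nat_lit 15965764050, nat_lit 13941814228, nat_lit 15271321734], nat_lit 1271250, nat_lit 1271250, nat_lit 205650, nat_lit 490000, nat_lit 1100001, nat_lit 1442500, [nat_lit 780000, nat_lit 1435000, nat_lit 1271250], [nat_lit 18, nat_lit 40, nat_lit 40, nat_lit 80, nat_lit 2, nat_lit 289, nat_lit 75, nat_lit 9]⟩, C1.Rw.none,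
 ⟨nat_lit 5000, nat_lit 5478, ⟨.ofNat (nat_lit 235487), .ofNat (nat_lit 317913), .ofNat (nat_lit 278201), .ofNat (nat_lit 360625), .ofNat (nat_lit 249999), .ofNat (nat_lit 328570), .ofNat (nat_lit 292856), .ofNat (nat_lit 371424)⟩, ⟨.ofNat (nat_lit 296923), .ofNat (nat_lit 371856), .ofNat (nat_lit 339637), .ofNat (nat_lit 414570), .ofNat (nat_lit 299999), .ofNat (nat_lit 371427), .ofNat (nat_lit 342856), .ofNat (nat_lit 414284)⟩⟩, [⟨nat_lit 0, nat_lit 100, nat_lit 94, nat_lit 88, nat_lit 294666385⟩]⟩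
noncomputable def p062_l121 : Lf2 := ⟨nat_lit 0, nat_lit 5, [nat_lit 4, nat_lit 5, nat_lit 5, nat_lit 20], true, nat_lit 160, nat_lit 200, nat_lit 0, nat_lit 364, ⟨nat_lit 0, nat_lit 0, nat_lit 1000, nat_lit 6, nat_lit 131, nat_lit 1000, nat_lit 143, nat_lit 1000, nat_lit 190817, nat_lit 322, nat_lit 160067, nat_lit 313, nat_lit 52210352, nat_lit 0, nat_lit 0, nat_lit 3633066, false, false⟩,
 nat_lit 0, nat_lit 5341, nat_lit 0, nat_lit 0, nat_lit 3697, nat_lit 0, nat_lit 0, nat_lit 0, nat_lit 0, nat_lit 0, nat_lit 0, nat_lit 0, nat_lit 0, nat_lit 0, nat_lit 128, nat_lit 1000000, nat_lit 0, nat_lit 0, [(nat_lit 15, [(nat_lit 6, nat_lit 1000)])],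
 ⟨p062_k9, nat_lit 0, nat_lit 0, nat_lit 210, nat_lit 0, nat_lit 401809, [nat_lit 2516000000, nat_lit 264800000], [], [nat_lit 13943585891, nat_lit 15788360876, nat_lit 13901426830, nat_lit 15333794168, nat_lit 15700528125, nat_lit 17407327098, nat_lit 15279134137, nat_lit 16937542398], nat_lit 1271250, nat_lit 1271250, nat_lit 279600, nat_lit 490000, nat_lit 1100001, nat_lit 1442500, [nat_lit 780000, nat_lit 1435000], [nat_lit 49, nat_lit 40, nat_lit 40, nat_lit 80, nat_lit 16, nat_lit 289, nat_lit 75, nat_lit 11]⟩, C1.Rw.none,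
 ⟨nat_lit 4472, nat_lit 5000, ⟨.ofNat (nat_lit 271418), .ofNat (nat_lit 328559), .ofNat (nat_lit 314253), .ofNat (nat_lit 371392), .ofNat (nat_lit 284805), .ofNat (nat_lit 339186), .ofNat (nat_lit 327916), .ofNat (nat_lit 382295)⟩, ⟨.ofNat (nat_lit 299999), .ofNat (nat_lit 371427), .ofNat (nat_lit 342856), .ofNat (nat_lit 414284), .ofNat (nat_lit 302621), .ofNat (nat_lit 370600), .ofNat (nat_lit 345754), .ofNat (nat_lit 413733)⟩⟩, [⟨nat_lit 0, nat_lit 100, nat_lit 88, nat_lit 81, nat_lit 755693546⟩]⟩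
noncomputable def p062_l122 : Lf2 := ⟨nat_lit 0, nat_lit 5, [nat_lit 4, nat_lit 5, nat_lit 5, nat_lit 20], true, nat_lit 200, nat_lit 240, nat_lit 0, nat_lit 360, ⟨nat_lit 0, nat_lit 0, nat_lit 1000, nat_lit 6, nat_lit 122, nat_lit 1000, nat_lit 172, nat_lit 1000, nat_lit 50417, nat_lit 270, nat_lit 138017, nat_lit 306, nat_lit 50434552, nat_lit 0, nat_lit 0, nat_lit 3854776, false, false⟩,
 nat_lit 0, nat_lit 5550, nat_lit 0, nat_lit 0, nat_lit 3531, nat_lit 0, nat_lit 0, nat_lit 0, nat_lit 0, nat_lit 0, nat_lit 0, nat_lit 0, nat_lit 0, nat_lit 0, nat_lit 162, nat_lit 1000000, nat_lit 0, nat_lit 0, [(nat_lit 12, [(nat_lit 6, nat_lit 1000)])],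
 ⟨p062_k13, nat_lit 0, nat_lit 0, nat_lit 212, nat_lit 0, nat_lit 329172, [nat_lit 3085200001, nat_lit 2112400000, nat_lit 400000], [], [nat_lit 14844870885, nat_lit 15920783848, nat_lit 14725527720, nat_lit 15758452371, nat_lit 16157232836, nat_lit 17638519241, nat_lit 15992355966, nat_lit 16971012996], nat_lit 1271250, nat_lit 1271250, nat_lit 205650, nat_lit 490000, nat_lit 1271250, nat_lit 1271250, [nat_lit 780000, nat_lit 1435000, nat_lit 1271250], [nat_lit 18, nat_lit 40, nat_lit 40, nat_lit 80, nat_lit 2, nat_lit 317, nat_lit 100, nat_lit 10]⟩, C1.Rw.none,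
 ⟨nat_lit 5000, nat_lit 5478, ⟨.ofNat (nat_lit 235487), .ofNat (nat_lit 317913), .ofNat (nat_lit 278201), .ofNat (nat_lit 360625), .ofNat (nat_lit 249999), .ofNat (nat_lit 328570), .ofNat (nat_lit 292856), .ofNat (nat_lit 371424)⟩, ⟨.ofNat (nat_lit 371856), .ofNat (nat_lit 446789), .ofNat (nat_lit 414570), .ofNat (nat_lit 489503), .ofNat (nat_lit 371427), .ofNat (nat_lit 442856), .ofNat (nat_lit 414284), .ofNat (nat_lit 485713)⟩⟩, [⟨nat_lit 0, nat_lit 100, nat_lit 94, nat_lit 88, nat_lit 206553944⟩]⟩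
noncomputable def p062_l123 : Lf2 := ⟨nat_lit 0, nat_lit 5, [nat_lit 4, nat_lit 5, nat_lit 5, nat_lit 20], true, nat_lit 200, nat_lit 240, nat_lit 0, nat_lit 360, ⟨nat_lit 0, nat_lit 0, nat_lit 1000, nat_lit 6, nat_lit 131, nat_lit 1000, nat_lit 171, nat_lit 1000, nat_lit 59604, nat_lit 274, nat_lit 160067, nat_lit 313, nat_lit 49845025, nat_lit 0, nat_lit 0, nat_lit 3961578, false, false⟩,
 nat_lit 0, nat_lit 5148, nat_lit 0, nat_lit 0, nat_lit 3563, nat_lit 0, nat_lit 0, nat_lit 0, nat_lit 0, nat_lit 0, nat_lit 0, nat_lit 0, nat_lit 0, nat_lit 0, nat_lit 128, nat_lit 1000000, nat_lit 0, nat_lit 0, [(nat_lit 15, [(nat_lit 6, nat_lit 1000)])],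
 ⟨p062_k9, nat_lit 0, nat_lit 0, nat_lit 212, nat_lit 0, nat_lit 401809, [nat_lit 2516000000, nat_lit 264800000], [], [nat_lit 15644099144, nat_lit 17318484079, nat_lit 15614466323, nat_lit 16887810442, nat_lit 17383471914, nat_lit 18923551017, nat_lit 16980900076, nat_lit 18477677612], nat_lit 1271250, nat_lit 1271250, nat_lit 279600, nat_lit 490000, nat_lit 1271250, nat_lit 1271250, [nat_lit 780000, nat_lit 1435000], [nat_lit 49, nat_lit 40, nat_lit 40, nat_lit 80, nat_lit 16, nat_lit 226, nat_lit 20, nat_lit 8]⟩, C1.Rw.none,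
 ⟨nat_lit 4472, nat_lit 5000, ⟨.ofNat (nat_lit 271418), .ofNat (nat_lit 328559), .ofNat (nat_lit 314253), .ofNat (nat_lit 371392), .ofNat (nat_lit 284805), .ofNat (nat_lit 339186), .ofNat (nat_lit 327916), .ofNat (nat_lit 382295)⟩, ⟨.ofNat (nat_lit 371427), .ofNat (nat_lit 442856), .ofNat (nat_lit 414284), .ofNat (nat_lit 485713), .ofNat (nat_lit 370600), .ofNat (nat_lit 438578), .ofNat (nat_lit 413733), .ofNat (nat_lit 481711)⟩⟩, [⟨nat_lit 0, nat_lit 100, nat_lit 88, nat_lit 81, nat_lit 741739917⟩]⟩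
noncomputable def p062_l124 : Lf2 := ⟨nat_lit 0, nat_lit 10, [nat_lit 0, nat_lit 5, nat_lit 5, nat_lit 20], true, nat_lit 160, nat_lit 240, nat_lit 0, nat_lit 364, ⟨nat_lit 0, nat_lit 0, nat_lit 1000, nat_lit 6, nat_lit 124, nat_lit 1000, nat_lit 157, nat_lit 1000, nat_lit 50417, nat_lit 270, nat_lit 144150, nat_lit 308, nat_lit 51540865, nat_lit 0, nat_lit 0, nat_lit 3717737, false, false⟩,
 nat_lit 0, nat_lit 5820, nat_lit 0, nat_lit 0, nat_lit 3703, nat_lit 0, nat_lit 217, nat_lit 0, nat_lit 0, nat_lit 0, nat_lit 0, nat_lit 0, nat_lit 0, nat_lit 0, nat_lit 86, nat_lit 400000, nat_lit 0, nat_lit 0, [(nat_lit 12, [(nat_lit 5, nat_lit 1000)]), (nat_lit 15, [(nat_lit 5, nat_lit 1000)])],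
 ⟨p062_k0, nat_lit 0, nat_lit 0, nat_lit 225, nat_lit 0, nat_lit 256235, [nat_lit 2347200000, nat_lit 1180400000, nat_lit 174400000], [], [nat_lit 13933611144, nat_lit 16356141727, nat_lit 13593246465, nat_lit 15774869349, nat_lit 16444217575, nat_lit 19339426712, nat_lit 15891939353, nat_lit 18544138972], nat_lit 1271250, nat_lit 1271250, nat_lit 205650, nat_lit 490000, nat_lit 1100001, nat_lit 1785000, [nat_lit 780000, nat_lit 1435000, nat_lit 1271250], [nat_lit 8, nat_lit 40, nat_lit 40, nat_lit 80, nat_lit 1, nat_lit 317, nat_lit 100, nat_lit 9]⟩, C1.Rw.none,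
 ⟨nat_lit 4472, nat_lit 5478, ⟨.ofNat (nat_lit 235487), .ofNat (nat_lit 317898), .ofNat (nat_lit 278138), .ofNat (nat_lit 360546), .ofNat (nat_lit 264421), .ofNat (nat_lit 339182), .ofNat (nat_lit 307491), .ofNat (nat_lit 382248)⟩, ⟨.ofNat (nat_lit 296923), .ofNat (nat_lit 446789), .ofNat (nat_lit 339637), .ofNat (nat_lit 489503), .ofNat (nat_lit 302621), .ofNat (nat_lit 438578), .ofNat (nat_lit 345754), .ofNat (nat_lit 481711)⟩⟩, [⟨nat_lit 0, nat_lit 100, nat_lit 91, nat_lit 77, nat_lit 389213150⟩]⟩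
noncomputable def p062_l125 : Lf2 := ⟨nat_lit 0, nat_lit 10, [nat_lit 0, nat_lit 5, nat_lit 5, nat_lit 20], false, nat_lit 160, nat_lit 240, nat_lit 0, nat_lit 364, ⟨nat_lit 0, nat_lit 0, nat_lit 1000, nat_lit 6, nat_lit 152, nat_lit 1000, nat_lit 157, nat_lit 1000, nat_lit 50417, nat_lit 270, nat_lit 216600, nat_lit 329, nat_lit 49421001, nat_lit 0, nat_lit 0, nat_lit 4056213, false, false⟩,
 nat_lit 0, nat_lit 5667, nat_lit 0, nat_lit 0, nat_lit 3606, nat_lit 0, nat_lit 0, nat_lit 0, nat_lit 0, nat_lit 0, nat_lit 0, nat_lit 0, nat_lit 0, nat_lit 0, nat_lit 208, nat_lit 1000000, nat_lit 0, nat_lit 0, [(nat_lit 12, [(nat_lit 6, nat_lit 1000)])],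
 ⟨p062_k0, nat_lit 0, nat_lit 0, nat_lit 193, nat_lit 0, nat_lit 288866, [nat_lit 3637200001, nat_lit 3032400001, nat_lit 431200000], [], [nat_lit 12506426034, nat_lit 13133422796, nat_lit 12953082690, nat_lit 13629089322, nat_lit 15625677874, nat_lit 16236949460, nat_lit 16012711298, nat_lit 16595278032], nat_lit 1271250, nat_lit 1271250, nat_lit 490000, nat_lit 780000, nat_lit 1100001, nat_lit 1785000, [nat_lit 780000, nat_lit 1435000, nat_lit 1271250], [nat_lit 8, nat_lit 40, nat_lit 40, nat_lit 80, nat_lit 1, nat_lit 317, nat_lit 100, nat_lit 9]⟩, ⟨p062_k12, nat_lit 0, nat_lit 0, nat_lit 492, nat_lit 0, nat_lit 366028, [nat_lit 0, nat_lit 0, nat_lit 0], [], [nat_lit 0, nat_lit 0, nat_lit 0, nat_lit 0, nat_lit 0, nat_lit 0, nat_lit 0, nat_lit 0], nat_lit 1271250, nat_lit 1271250, nat_lit 490000, nat_lit 780000, nat_lit 0, nat_lit 2570750, [nat_lit 1100000, nat_lit 1785000, nat_lit 1271250], [nat_lit 21, nat_lit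 40, nat_lit 40, nat_lit 80, nat_lit 14, nat_lit 428, nat_lit 200, nat_lit 11]⟩,
 ⟨nat_lit 5244, nat_lit 5478, ⟨.ofNat (nat_lit 317913), .ofNat (nat_lit 392847), .ofNat (nat_lit 360628), .ofNat (nat_lit 435559), .ofNat (nat_lit 323256), .ofNat (nat_lit 396427), .ofNat (nat_lit 366027), .ofNat (nat_lit 439196)⟩, ⟨.ofNat (nat_lit 296923), .ofNat (nat_lit 446789), .ofNat (nat_lit 339637), .ofNat (nat_lit 489503), .ofNat (nat_lit 298515), .ofNat (nat_lit 444857), .ofNat (nat_lit 341286), .ofNat (nat_lit 487628)⟩⟩, []⟩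
noncomputable def p062_l126 : Lf2 := ⟨nat_lit 0, nat_lit 10, [nat_lit 0, nat_lit 5, nat_lit 5, nat_lit 20], false, nat_lit 160, nat_lit 240, nat_lit 0, nat_lit 364, ⟨nat_lit 0, nat_lit 0, nat_lit 1000, nat_lit 6, nat_lit 153, nat_lit 1000, nat_lit 157, nat_lit 1000, nat_lit 55099, nat_lit 272, nat_lit 220417, nat_lit 330, nat_lit 49284751, nat_lit 0, nat_lit 0, nat_lit 4075889, false, false⟩,
 nat_lit 0, nat_lit 5318, nat_lit 0, nat_lit 0, nat_lit 3531, nat_lit 0, nat_lit 0, nat_lit 0, nat_lit 0, nat_lit 0, nat_lit 0, nat_lit 0, nat_lit 0, nat_lit 0, nat_lit 162, nat_lit 1000000, nat_lit 0, nat_lit 0, [(nat_lit 12, [(nat_lit 6, nat_lit 1000)])],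
 ⟨p062_k1, nat_lit 0, nat_lit 0, nat_lit 181, nat_lit 0, nat_lit 328729, [nat_lit 3085200001, nat_lit 2112400000, nat_lit 400000], [], [nat_lit 13279042871, nat_lit 13982396024, nat_lit 13783535322, nat_lit 14452711554, nat_lit 16365578735, nat_lit 16971012996, nat_lit 16734477657, nat_lit 17311615216], nat_lit 1271250, nat_lit 1271250, nat_lit 490000, nat_lit 780000, nat_lit 1100001, nat_lit 1785000, [nat_lit 780000, nat_lit 1435000, nat_lit 1271250], [nat_lit 18, nat_lit 40, nat_lit 40, nat_lit 80, nat_lit 2, nat_lit 317, nat_lit 100, nat_lit 10]⟩, ⟨p062_k12, nat_lit 0, nat_lit 0, nat_lit 521, nat_lit 0, nat_lit 439586, [nat_lit 0, nat_lit 0, nat_lit 0], [], [nat_lit 0, nat_lit 0, nat_lit 0, nat_lit 0, nat_lit 0, nat_lit 0, nat_lit 0, nat_lit 0], nat_lit 1271250, nat_lit 1271250, nat_lit 490000, nat_lit 780000, nat_lit 0, nat_lit 2570750, [nat_lit 1100000, nat_lit 1785000, nat_lit 1271250], [nat_lit 21, nat_lit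 40, nat_lit 40, nat_lit 80, nat_lit 14, nat_lit 428, nat_lit 200, nat_lit 11]⟩,
 ⟨nat_lit 5000, nat_lit 5245, ⟨.ofNat (nat_lit 323256), .ofNat (nat_lit 396427), .ofNat (nat_lit 366025), .ofNat (nat_lit 439194), .ofNat (nat_lit 328570), .ofNat (nat_lit 399998), .ofNat (nat_lit 371426), .ofNat (nat_lit 442852)⟩, ⟨.ofNat (nat_lit 298515), .ofNat (nat_lit 444857), .ofNat (nat_lit 341286), .ofNat (nat_lit 487628), .ofNat (nat_lit 299999), .ofNat (nat_lit 442856), .ofNat (nat_lit 342856), .ofNat (nat_lit 485713)⟩⟩, [⟨nat_lit 0, nat_lit 100, nat_lit 94, nat_lit 88, nat_lit 64196865⟩]⟩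
noncomputable def p062_l127 : Lf2 := ⟨nat_lit 0, nat_lit 10, [nat_lit 0, nat_lit 5, nat_lit 5, nat_lit 20], false, nat_lit 160, nat_lit 240, nat_lit 0, nat_lit 352, ⟨nat_lit 0, nat_lit 0, nat_lit 1000, nat_lit 6, nat_lit 156, nat_lit 1000, nat_lit 153, nat_lit 1000, nat_lit 117600, nat_lit 299, nat_lit 228150, nat_lit 332, nat_lit 49427612, nat_lit 0, nat_lit 0, nat_lit 4055717, false, false⟩,
 nat_lit 0, nat_lit 4974, nat_lit 0, nat_lit 0, nat_lit 3443, nat_lit 0, nat_lit 0, nat_lit 0, nat_lit 0, nat_lit 0, nat_lit 0, nat_lit 0, nat_lit 0, nat_lit 0, nat_lit 210, nat_lit 953800, nat_lit 0, nat_lit 0, [(nat_lit 15, [(nat_lit 5, nat_lit 77), (nat_lit 6, nat_lit 923)])],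
 ⟨p062_k2, nat_lit 0, nat_lit 0, nat_lit 243, nat_lit 0, nat_lit 401809, [nat_lit 3525810400, nat_lit 2007333201, nat_lit 17832400], [], [nat_lit 14635856970, nat_lit 15874017988, nat_lit 15117165744, nat_lit 16295897564, nat_lit 17348533036, nat_lit 18421019832, nat_lit 17707859428, nat_lit 18730810160], nat_lit 1271250, nat_lit 1271250, nat_lit 490000, nat_lit 780000, nat_lit 1100001, nat_lit 1785000, [nat_lit 780000, nat_lit 1435000, nat_lit 1271250], [nat_lit 18, nat_lit 40, nat_lit 40, nat_lit 80, nat_lit 2, nat_lit 317, nat_lit 100, nat_lit 10]⟩, ⟨p062_k12, nat_lit 0, nat_lit 0, nat_lit 568, nat_lit 0, nat_lit 562794, [nat_lit 0, nat_lit 0, nat_lit 0], [], [nat_lit 0, nat_lit 0, nat_lit 0, nat_lit 0, nat_lit 0, nat_lit 0, nat_lit 0, nat_lit 0], nat_lit 1271250, nat_lit 1271250, nat_lit 490000, nat_lit 780000, nat_lit 0, nat_lit 2486000, [nat_lit 1100000, nat_lit 1785000, nat_lit 1271250], [nat_lit 21, nat_lit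 40, nat_lit 40, nat_lit 80, nat_lit 14, nat_lit 428, nat_lit 200, nat_lit 11]⟩,
 ⟨nat_lit 4472, nat_lit 5000, ⟨.ofNat (nat_lit 328559), .ofNat (nat_lit 399984), .ofNat (nat_lit 371392), .ofNat (nat_lit 442816), .ofNat (nat_lit 339186), .ofNat (nat_lit 407160), .ofNat (nat_lit 382295), .ofNat (nat_lit 450269)⟩, ⟨.ofNat (nat_lit 299999), .ofNat (nat_lit 442856), .ofNat (nat_lit 321427), .ofNat (nat_lit 464284), .ofNat (nat_lit 302621), .ofNat (nat_lit 438578), .ofNat (nat_lit 324188), .ofNat (nat_lit 460144)⟩⟩, [⟨nat_lit 0, nat_lit 100, nat_lit 87, nat_lit 95, nat_lit 61934384⟩]⟩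
noncomputable def p062_l128 : Lf2 := ⟨nat_lit 0, nat_lit 10, [nat_lit 0, nat_lit 5, nat_lit 5, nat_lit 20], false, nat_lit 160, nat_lit 240, nat_lit 0, nat_lit 364, ⟨nat_lit 0, nat_lit 0, nat_lit 1000, nat_lit 6, nat_lit 156, nat_lit 1000, nat_lit 161, nat_lit 1000, nat_lit 59604, nat_lit 274, nat_lit 228150, nat_lit 332, nat_lit 48740732, nat_lit 0, nat_lit 0, nat_lit 4151560, false, false⟩,
 nat_lit 0, nat_lit 4734, nat_lit 0, nat_lit 0, nat_lit 3277, nat_lit 0, nat_lit 0, nat_lit 0, nat_lit 0, nat_lit 0, nat_lit 0, nat_lit 0, nat_lit 0, nat_lit 0, nat_lit 199, nat_lit 904600, nat_lit 0, nat_lit 0, [(nat_lit 15, [(nat_lit 5, nat_lit 159), (nat_lit 6, nat_lit 841)])],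
 ⟨p062_k2, nat_lit 0, nat_lit 0, nat_lit 198, nat_lit 0, nat_lit 346109, [nat_lit 3421296800, nat_lit 1896524401, nat_lit 1570800], [], [nat_lit 14234924474, nat_lit 15591967176, nat_lit 14736829984, nat_lit 16028917872, nat_lit 17171061998, nat_lit 18342392372, nat_lit 17548844738, nat_lit 18666346244], nat_lit 1271250, nat_lit 1271250, nat_lit 490000, nat_lit 780000, nat_lit 1100001, nat_lit 1785000, [nat_lit 780000, nat_lit 1435000, nat_lit 1271250], [nat_lit 18, nat_lit 40, nat_lit 40, nat_lit 80, nat_lit 2, nat_lit 317, nat_lit 100, nat_lit 10]⟩, ⟨p062_k12, nat_lit 0, nat_lit 0, nat_lit 539, nat_lit 0, nat_lit 487553, [nat_lit 0, nat_lit 0, nat_lit 0], [], [nat_lit 0, nat_lit 0, nat_lit 0, nat_lit 0, nat_lit 0, nat_lit 0, nat_lit 0, nat_lit 0], nat_lit 1271250, nat_lit 1271250, nat_lit 490000, nat_lit 780000, nat_lit 0, nat_lit 2570750, [nat_lit 1100000, nat_lit 1785000, nat_lit 1271250], [nat_lit 21, nat_lit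 40, nat_lit 40, nat_lit 80, nat_lit 14, nat_lit 428, nat_lit 200, nat_lit 11]⟩,
 ⟨nat_lit 4472, nat_lit 5000, ⟨.ofNat (nat_lit 328559), .ofNat (nat_lit 399984), .ofNat (nat_lit 371392), .ofNat (nat_lit 442816), .ofNat (nat_lit 339186), .ofNat (nat_lit 407160), .ofNat (nat_lit 382295), .ofNat (nat_lit 450269)⟩, ⟨.ofNat (nat_lit 321427), .ofNat (nat_lit 464284), .ofNat (nat_lit 342856), .ofNat (nat_lit 485713), .ofNat (nat_lit 324188), .ofNat (nat_lit 460144), .ofNat (nat_lit 345754), .ofNat (nat_lit 481711)⟩⟩, [⟨nat_lit 0, nat_lit 100, nat_lit 87, nat_lit 95, nat_lit 59902640⟩]⟩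
noncomputable def p062_l129 : Lf2 := ⟨nat_lit 0, nat_lit 10, [nat_lit 0, nat_lit 5, nat_lit 5, nat_lit 20], false, nat_lit 160, nat_lit 240, nat_lit 0, nat_lit 160, ⟨nat_lit 399, nat_lit 0, nat_lit 601, nat_lit 6, nat_lit 183, nat_lit 601, nat_lit 157, nat_lit 601, nat_lit 50417, nat_lit 270, nat_lit 19267, nat_lit 249, nat_lit 46916705, nat_lit 0, nat_lit 0, nat_lit 4380666, false, false⟩,
 nat_lit 5633, nat_lit 2195, nat_lit 0, nat_lit 0, nat_lit 4981, nat_lit 2982, nat_lit 511, nat_lit 0, nat_lit 0, nat_lit 386, nat_lit 0, nat_lit 0, nat_lit 0, nat_lit 0, nat_lit 0, nat_lit 601000, nat_lit 0, nat_lit 0, [(nat_lit 12, [(nat_lit 6, nat_lit 601)]), (nat_lit 15, [(nat_lit 6, nat_lit 601)])],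
 ⟨p062_k20, nat_lit 0, nat_lit 0, nat_lit 303, nat_lit 0, nat_lit 469975, [nat_lit 1898498000, nat_lit 2072448000, nat_lit 768823200], [], [nat_lit 15994842852, nat_lit 16879020275, nat_lit 15150178351, nat_lit 17278784688, nat_lit 17900347911, nat_lit 18987889568, nat_lit 20861897663, nat_lit 19508372980], nat_lit 1271250, nat_lit 1271250, nat_lit 780000, nat_lit 1100001, nat_lit 1100001, nat_lit 1785000, [nat_lit 780000, nat_lit 1100000, nat_lit 2127500], [nat_lit 42, nat_lit 40, nat_lit 40, nat_lit 80, nat_lit 13, nat_lit 317, nat_lit 100, nat_lit 9]⟩, ⟨p062_k21, nat_lit 0, nat_lit 0, nat_lit 551, nat_lit 0, nat_lit 595515, [nat_lit 1870512000, nat_lit 2493750000, nat_lit 4736928000], [], [nat_lit 16888357668, nat_lit 13734964236, nat_lit 13734964236, nat_lit 13419129150, nat_lit 12552595104, nat_lit 11860968126, nat_lit 14070016044, nat_lit 11790781254], nat_lit 1271250, nat_lit 1271250, nat_lit 780000, nat_lit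 1100001, nat_lit 0, nat_lit 1100001, [nat_lit 1100000, nat_lit 1442500, nat_lit 1271250], [nat_lit 48, nat_lit 40, nat_lit 40, nat_lit 80, nat_lit 12, nat_lit 373, nat_lit 150, nat_lit 10]⟩,
 ⟨nat_lit 4472, nat_lit 5478, ⟨.ofNat (nat_lit 392815), .ofNat (nat_lit 467727), .ofNat (nat_lit 435455), .ofNat (nat_lit 510352), .ofNat (nat_lit 407143), .ofNat (nat_lit 475101), .ofNat (nat_lit 450202), .ofNat (nat_lit 518145)⟩, ⟨.ofNat (nat_lit 296923), .ofNat (nat_lit 446789), .ofNat (nat_lit 339637), .ofNat (nat_lit 489503), .ofNat (nat_lit 302621), .ofNat (nat_lit 438578), .ofNat (nat_lit 345754), .ofNat (nat_lit 481711)⟩⟩, []⟩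
noncomputable def p062_l130 : Lf2 := ⟨nat_lit 0, nat_lit 10, [nat_lit 0, nat_lit 5, nat_lit 5, nat_lit 20], false, nat_lit 160, nat_lit 240, nat_lit 160, nat_lit 364, ⟨nat_lit 217, nat_lit 0, nat_lit 783, nat_lit 6, nat_lit 182, nat_lit 783, nat_lit 157, nat_lit 783, nat_lit 50417, nat_lit 270, nat_lit 24681, nat_lit 252, nat_lit 46995498, nat_lit 0, nat_lit 0, nat_lit 4371835, false, false⟩,
 nat_lit 4146, nat_lit 2591, nat_lit 0, nat_lit 0, nat_lit 4287, nat_lit 2194, nat_lit 98, nat_lit 0, nat_lit 0, nat_lit 244, nat_lit 0, nat_lit 0, nat_lit 0, nat_lit 0, nat_lit 89, nat_lit 783000, nat_lit 0, nat_lit 0, [(nat_lit 12, [(nat_lit 6, nat_lit 783)])],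
 ⟨p062_k0, nat_lit 0, nat_lit 0, nat_lit 202, nat_lit 0, nat_lit 346917, [nat_lit 2673753601, nat_lit 2253339200, nat_lit 405151600], [], [nat_lit 13994410147, nat_lit 15194375634, nat_lit 14578376602, nat_lit 15717605612, nat_lit 16415708490, nat_lit 17455467314, nat_lit 17090840733, nat_lit 18023301766], nat_lit 1271250, nat_lit 1271250, nat_lit 780000, nat_lit 1100001, nat_lit 1100001, nat_lit 1785000, [nat_lit 780000, nat_lit 1435000, nat_lit 1271250], [nat_lit 8, nat_lit 40, nat_lit 40, nat_lit 80, nat_lit 1, nat_lit 317, nat_lit 100, nat_lit 9]⟩, ⟨p062_k12, nat_lit 0, nat_lit 0, nat_lit 349, nat_lit 0, nat_lit 439586, [nat_lit 1017296000, nat_lit 1729056000, nat_lit 2576224000], [], [nat_lit 7092261220, nat_lit 4807087356, nat_lit 7114808560, nat_lit 4989445656, nat_lit 6222721522, nat_lit 6486785347, nat_lit 6080003838, nat_lit 6357292058], nat_lit 1271250, nat_lit 1271250, nat_lit 780000, nat_lit 1100001,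 nat_lit 1271250, nat_lit 1271250, [nat_lit 1100000, nat_lit 1785000, nat_lit 1271250], [nat_lit 21, nat_lit 40, nat_lit 40, nat_lit 80, nat_lit 14, nat_lit 456, nat_lit 225, nat_lit 11]⟩,
 ⟨nat_lit 5000, nat_lit 5478, ⟨.ofNat (nat_lit 392847), .ofNat (nat_lit 467773), .ofNat (nat_lit 435548), .ofNat (nat_lit 510468), .ofNat (nat_lit 399998), .ofNat (nat_lit 471421), .ofNat (nat_lit 442843), .ofNat (nat_lit 514258)⟩, ⟨.ofNat (nat_lit 296923), .ofNat (nat_lit 446789), .ofNat (nat_lit 339637), .ofNat (nat_lit 489503), .ofNat (nat_lit 299999), .ofNat (nat_lit 442856), .ofNat (nat_lit 342856), .ofNat (nat_lit 485713)⟩⟩, [⟨nat_lit 19, nat_lit 100, nat_lit 77, nat_lit 91, nat_lit 101282517⟩]⟩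
noncomputable def p062_l131 : Lf2 := ⟨nat_lit 0, nat_lit 10, [nat_lit 0, nat_lit 5, nat_lit 5, nat_lit 20], false, nat_lit 160, nat_lit 240, nat_lit 160, nat_lit 364, ⟨nat_lit 298, nat_lit 0, nat_lit 702, nat_lit 6, nat_lit 184, nat_lit 702, nat_lit 157, nat_lit 702, nat_lit 59604, nat_lit 274, nat_lit 19267, nat_lit 249, nat_lit 46830697, nat_lit 0, nat_lit 0, nat_lit 4390367, false, false⟩,
 nat_lit 5695, nat_lit 427, nat_lit 0, nat_lit 0, nat_lit 4237, nat_lit 3014, nat_lit 0, nat_lit 0, nat_lit 0, nat_lit 335, nat_lit 0, nat_lit 0, nat_lit 0, nat_lit 0, nat_lit 55, nat_lit 702000, nat_lit 0, nat_lit 0, [(nat_lit 15, [(nat_lit 6, nat_lit 702)])],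
 ⟨p062_k2, nat_lit 0, nat_lit 0, nat_lit 210, nat_lit 0, nat_lit 422750, [nat_lit 2325996000, nat_lit 1351269601, nat_lit 5594400], [], [nat_lit 15678165224, nat_lit 16684813926, nat_lit 16222554736, nat_lit 17202121933, nat_lit 18320109255, nat_lit 18793086709, nat_lit 21109883465, nat_lit 19379973460], nat_lit 1271250, nat_lit 1271250, nat_lit 780000, nat_lit 1100001, nat_lit 1100001, nat_lit 1785000, [nat_lit 780000, nat_lit 1435000, nat_lit 1271250], [nat_lit 18, nat_lit 40, nat_lit 40, nat_lit 80, nat_lit 2, nat_lit 317, nat_lit 100, nat_lit 10]⟩, ⟨p062_k12, nat_lit 0, nat_lit 0, nat_lit 413, nat_lit 0, nat_lit 595515, [nat_lit 1397024000, nat_lit 2374464000, nat_lit 3537856000], [], [nat_lit 9740088672, nat_lit 6600838888, nat_lit 9770148496, nat_lit 6850438472, nat_lit 8543842991, nat_lit 8908421037, nat_lit 8347707450, nat_lit 8731098996], nat_lit 1271250, nat_lit 1271250, nat_lit 780000, nat_lit 1100001,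 nat_lit 1271250, nat_lit 1271250, [nat_lit 1100000, nat_lit 1785000, nat_lit 1271250], [nat_lit 21, nat_lit 40, nat_lit 40, nat_lit 80, nat_lit 14, nat_lit 456, nat_lit 225, nat_lit 11]⟩,
 ⟨nat_lit 4472, nat_lit 5000, ⟨.ofNat (nat_lit 399984), .ofNat (nat_lit 471408), .ofNat (nat_lit 442816), .ofNat (nat_lit 514240), .ofNat (nat_lit 407160), .ofNat (nat_lit 475134), .ofNat (nat_lit 450269), .ofNat (nat_lit 518242)⟩, ⟨.ofNat (nat_lit 299999), .ofNat (nat_lit 442856), .ofNat (nat_lit 342856), .ofNat (nat_lit 485713), .ofNat (nat_lit 302621), .ofNat (nat_lit 438578), .ofNat (nat_lit 345754), .ofNat (nat_lit 481711)⟩⟩, [⟨nat_lit 7, nat_lit 77, nat_lit 100, nat_lit 91, nat_lit 89514693⟩]⟩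
noncomputable def p062_l132 : Lf2 := ⟨nat_lit 0, nat_lit 10, [nat_lit 0, nat_lit 5, nat_lit 5, nat_lit 20], false, nat_lit 160, nat_lit 240, nat_lit 0, nat_lit 364, ⟨nat_lit 274, nat_lit 0, nat_lit 726, nat_lit 6, nat_lit 211, nat_lit 726, nat_lit 157, nat_lit 726, nat_lit 50417, nat_lit 270, nat_lit 67, nat_lit 217, nat_lit 44588312, nat_lit 0, nat_lit 0, nat_lit 4620328, false, false⟩,
 nat_lit 5502, nat_lit 2304, nat_lit 0, nat_lit 0, nat_lit 4967, nat_lit 2912, nat_lit 435, nat_lit 0, nat_lit 0, nat_lit 377, nat_lit 0, nat_lit 0, nat_lit 0, nat_lit 0, nat_lit 57, nat_lit 726000, nat_lit 0, nat_lit 0, [(nat_lit 12, [(nat_lit 6, nat_lit 726)])],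
 ⟨p062_k20, nat_lit 0, nat_lit 0, nat_lit 183, nat_lit 0, nat_lit 346917, [nat_lit 2243637600, nat_lit 2490542000, nat_lit 377535200], [], [nat_lit 16094411087, nat_lit 14463285040, nat_lit 19523824627, nat_lit 17183344425, nat_lit 16306969612, nat_lit 17906463236, nat_lit 17606732364, nat_lit 19090226166], nat_lit 1271250, nat_lit 1271250, nat_lit 1100001, nat_lit 1442500, nat_lit 1271250, nat_lit 1271250, [nat_lit 780000, nat_lit 1100000, nat_lit 2127500], [nat_lit 42, nat_lit 40, nat_lit 40, nat_lit 80, nat_lit 13, nat_lit 345, nat_lit 125, nat_lit 9]⟩, ⟨p062_k21, nat_lit 0, nat_lit 0, nat_lit 483, nat_lit 0, nat_lit 439586, [nat_lit 1284512000, nat_lit 1712500000, nat_lit 3252928000], [], [nat_lit 12486449368, nat_lit 9407079256, nat_lit 9407079256, nat_lit 8186594879, nat_lit 9346095604, nat_lit 8137181526, nat_lit 11042053112, nat_lit 8407873055], nat_lit 1271250, nat_lit 1271250, nat_lit 1100001, nat_lit 1442500,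 nat_lit 0, nat_lit 2570750, [nat_lit 1100000, nat_lit 1442500, nat_lit 1271250], [nat_lit 48, nat_lit 40, nat_lit 40, nat_lit 80, nat_lit 12, nat_lit 456, nat_lit 225, nat_lit 12]⟩,
 ⟨nat_lit 5000, nat_lit 5478, ⟨.ofNat (nat_lit 467773), .ofNat (nat_lit 542694), .ofNat (nat_lit 510468), .ofNat (nat_lit 585388), .ofNat (nat_lit 471421), .ofNat (nat_lit 542837), .ofNat (nat_lit 514258), .ofNat (nat_lit 585674)⟩, ⟨.ofNat (nat_lit 296923), .ofNat (nat_lit 446789), .ofNat (nat_lit 339637), .ofNat (nat_lit 489503), .ofNat (nat_lit 299999), .ofNat (nat_lit 442856), .ofNat (nat_lit 342856), .ofNat (nat_lit 485713)⟩⟩, [⟨nat_lit 7, nat_lit 77, nat_lit 100, nat_lit 91, nat_lit 32268607⟩]⟩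
noncomputable def p062_l133 : Lf2 := ⟨nat_lit 0, nat_lit 10, [nat_lit 0, nat_lit 5, nat_lit 5, nat_lit 20], false, nat_lit 160, nat_lit 240, nat_lit 0, nat_lit 364, ⟨nat_lit 298, nat_lit 0, nat_lit 702, nat_lit 6, nat_lit 212, nat_lit 702, nat_lit 157, nat_lit 702, nat_lit 59604, nat_lit 274, nat_lit 839, nat_lit 217, nat_lit 44535037, nat_lit 0, nat_lit 0, nat_lit 4624364, false, false⟩,
 nat_lit 5872, nat_lit 235, nat_lit 0, nat_lit 0, nat_lit 4227, nat_lit 3108, nat_lit 0, nat_lit 0, nat_lit 0, nat_lit 423, nat_lit 0, nat_lit 0, nat_lit 0, nat_lit 0, nat_lit 49, nat_lit 673800, nat_lit 0, nat_lit 0, [(nat_lit 15, [(nat_lit 5, nat_lit 47), (nat_lit 6, nat_lit 655)])],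
 ⟨p062_k22, nat_lit 0, nat_lit 0, nat_lit 186, nat_lit 0, nat_lit 422750, [nat_lit 2269750400, nat_lit 2288434800, nat_lit 77388134], [], [nat_lit 15662678470, nat_lit 16933006140, nat_lit 16798399430, nat_lit 18006128136, nat_lit 18265725136, nat_lit 19380250256, nat_lit 20206274768, nat_lit 20444735008], nat_lit 1271250, nat_lit 1271250, nat_lit 1100001, nat_lit 1442500, nat_lit 1100001, nat_lit 1785000, [nat_lit 780000, nat_lit 1100000, nat_lit 1785000], [nat_lit 36, nat_lit 40, nat_lit 40, nat_lit 80, nat_lit 7, nat_lit 345, nat_lit 125, nat_lit 10]⟩, ⟨p062_k21, nat_lit 0, nat_lit 0, nat_lit 537, nat_lit 0, nat_lit 595515, [nat_lit 1397024000, nat_lit 1862500000, nat_lit 3537856000], [], [nat_lit 13490146296, nat_lit 10203510888, nat_lit 10203510888, nat_lit 8821063185, nat_lit 10191665281, nat_lit 8804073321, nat_lit 12009387792, nat_lit 9197907154], nat_lit 1271250, nat_lit 1271250, nat_lit 1100001, nat_lit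 1442500, nat_lit 0, nat_lit 2570750, [nat_lit 1100000, nat_lit 1442500, nat_lit 1271250], [nat_lit 48, nat_lit 40, nat_lit 40, nat_lit 80, nat_lit 12, nat_lit 456, nat_lit 225, nat_lit 12]⟩,
 ⟨nat_lit 4472, nat_lit 5000, ⟨.ofNat (nat_lit 471408), .ofNat (nat_lit 542832), .ofNat (nat_lit 514240), .ofNat (nat_lit 585664), .ofNat (nat_lit 475134), .ofNat (nat_lit 543108), .ofNat (nat_lit 518242), .ofNat (nat_lit 586216)⟩, ⟨.ofNat (nat_lit 299999), .ofNat (nat_lit 442856), .ofNat (nat_lit 342856), .ofNat (nat_lit 485713), .ofNat (nat_lit 302621), .ofNat (nat_lit 438578), .ofNat (nat_lit 345754), .ofNat (nat_lit 481711)⟩⟩, [⟨nat_lit 7, nat_lit 77, nat_lit 100, nat_lit 91, nat_lit 34966575⟩]⟩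
noncomputable def p062_l134 : Lf2 := ⟨nat_lit 0, nat_lit 10, [nat_lit 0, nat_lit 5, nat_lit 5, nat_lit 20], false, nat_lit 160, nat_lit 240, nat_lit 0, nat_lit 364, ⟨nat_lit 484, nat_lit 243, nat_lit 273, nat_lit 6, nat_lit 240, nat_lit 516, nat_lit 157, nat_lit 273, nat_lit 50417, nat_lit 270, nat_lit 49046, nat_lit 200, nat_lit 42211522, nat_lit 16412240, nat_lit 8376238, nat_lit 4809161, true, false⟩,
 nat_lit 8970, nat_lit 0, nat_lit 0, nat_lit 0, nat_lit 5707, nat_lit 4748, nat_lit 722, nat_lit 0, nat_lit 0, nat_lit 693, nat_lit 0, nat_lit 0, nat_lit 0, nat_lit 0, nat_lit 0, nat_lit 516000, nat_lit 0, nat_lit 0, [(nat_lit 12, [(nat_lit 2, nat_lit 243), (nat_lit 6, nat_lit 273)]), (nat_lit 15, [(nat_lit 2, nat_lit 243), (nat_lit 6, nat_lit 273)])],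
 ⟨p062_k20, nat_lit 0, nat_lit 0, nat_lit 286, nat_lit 0, nat_lit 469975, [nat_lit 2340317280, nat_lit 2995533200, nat_lit 3257525600], [], [nat_lit 16897935198, nat_lit 18942254802, nat_lit 18060820862, nat_lit 20113591622, nat_lit 21213329810, nat_lit 20707004246, nat_lit 19774427208, nat_lit 22276340652], nat_lit 1271250, nat_lit 1271250, nat_lit 1271250, nat_lit 1271250, nat_lit 1100001, nat_lit 1785000, [nat_lit 780000, nat_lit 1100000, nat_lit 2127500], [nat_lit 42, nat_lit 40, nat_lit 40, nat_lit 80, nat_lit 13, nat_lit 345, nat_lit 125, nat_lit 9]⟩, ⟨p062_k21, nat_lit 0, nat_lit 0, nat_lit 527, nat_lit 0, nat_lit 595515, [nat_lit 2268992000, nat_lit 3025000000, nat_lit 5746048000], [], [nat_lit 16432286080, nat_lit 14194438907, nat_lit 13711567163, nat_lit 14960003851, nat_lit 15922009304, nat_lit 14257137104, nat_lit 13949722573, nat_lit 14801855529], nat_lit 1271250, nat_lit 1271250, nat_lit 1271250, nat_lit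 1271250, nat_lit 0, nat_lit 2570750, [nat_lit 1100000, nat_lit 1442500, nat_lit 1271250], [nat_lit 48, nat_lit 40, nat_lit 40, nat_lit 80, nat_lit 12, nat_lit 456, nat_lit 225, nat_lit 12]⟩,
 ⟨nat_lit 4472, nat_lit 5478, ⟨.ofNat (nat_lit 542625), .ofNat (nat_lit 617523), .ofNat (nat_lit 585251), .ofNat (nat_lit 660148), .ofNat (nat_lit 543044), .ofNat (nat_lit 610987), .ofNat (nat_lit 586088), .ofNat (nat_lit 654031)⟩, ⟨.ofNat (nat_lit 296923), .ofNat (nat_lit 446789), .ofNat (nat_lit 339637), .ofNat (nat_lit 489503), .ofNat (nat_lit 302621), .ofNat (nat_lit 438578), .ofNat (nat_lit 345754), .ofNat (nat_lit 481711)⟩⟩, [⟨nat_lit 7, nat_lit 77, nat_lit 100, nat_lit 91, nat_lit 96552406⟩]⟩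
noncomputable def b_V_700_600_20_27 : St := ⟨true, nat_lit 1, nat_lit 1, nat_lit 1, nat_lit 120, nat_lit 280, nat_lit 320, nat_lit 240, nat_lit 280, nat_lit 36, nat_lit 240, nat_lit 80, nat_lit 120, nat_lit 160, nat_lit 240, nat_lit 0, nat_lit 364, nat_lit 0, nat_lit 40, nat_lit 0, nat_lit 0, nat_lit 0, nat_lit 0⟩
theorem d_V_700_600_20_27 (h : EB TB.env) : Dead b_V_700_600_20_27 := chkB_sound0 h (T :=
(.spl (nat_lit 2) (nat_lit 160)
(.spl (nat_lit 2) (nat_lit 120)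
(.spl (nat_lit 2) (nat_lit 80)
(.spl (nat_lit 6) (nat_lit 20)
(.spl (nat_lit 4) (nat_lit 200)
(.spl (nat_lit 0) (nat_lit 300)
(.leaf p062_l120)
(.trZ (nat_lit 0) (nat_lit 100) (nat_lit 88) (nat_lit 68) (nat_lit 48) (.leaf p062_l121)))
(.trX (nat_lit 23) (nat_lit 100) (nat_lit 60) (nat_lit 80) (nat_lit 360) (.spl (nat_lit 0) (nat_lit 300)
(.leaf p062_l122)
(.trZ (nat_lit 0) (nat_lit 100) (nat_lit 88) (nat_lit 68) (nat_lit 48) (.leaf p062_l123)))))
(.leaf p062_l124))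
(.spl (nat_lit 0) (nat_lit 300)
(.spl (nat_lit 0) (nat_lit 290)
(.leaf p062_l125)
(.leaf p062_l126))
(.spl (nat_lit 3) (nat_lit 100)
(.trX (nat_lit 19) (nat_lit 100) (nat_lit 68) (nat_lit 88) (nat_lit 352) (.leaf p062_l127))
(.leaf p062_l128))))
(.spl (nat_lit 5) (nat_lit 160)
(.leaf p062_l129)
(.spl (nat_lit 0) (nat_lit 300)
(.leaf p062_l130)
(.leaf p062_l131))))
(.spl (nat_lit 2) (nat_lit 200)
(.spl (nat_lit 0) (nat_lit 300)
(.leaf p062_l132)
(.leaf p062_l133))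
(.leaf p062_l134)))) (by decide +kernel)

end B2
end Pool.Agent.Lib.MP_6947cd_al
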